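import Mathlib

/-! The parts of this file: H14.PP.RootDeriv, H15.V.LiouA, H17BP.RootP, H5.BD.ADef, H62.FC.Calculus, H92.GGL.CasWei, MQ2.Ell, SB.Defs. -/

section

/-!
# BPm RootDeriv: roots of functions without zeros

`f` holomorphic without zeros on `ball z₀ s`, `‖f‖ ≤ η` there. There is a holomorphic `g` with
`exp (g z) = f z` on the ball (a disc is simply connected; e.g. a primitive of `f'/f`,
`DifferentiableOn.isExactOn_ball`, or Mathlib's logarithm / root lemma), `w = exp (g/m)` satisfies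
`‖w‖ = ‖f‖^(1/m) ≤ η^(1/m)`, `w' = (1/m) (f'/f) w`, so `‖w' z₀‖ = (1/m) ‖f z₀‖^(1/m-1) ‖f' z₀‖`, and
Cauchy's estimate on circles of radius `s' < s`, `s' → s`: `‖w' z₀‖ ≤ η^(1/m)/s`.
-/

open Topology Filter Metric

namespace Pool.Agent.H14.PP

private theorem RootDeriv_exp {f : ℂ → ℂ} {z₀ : ℂ} {s : ℝ} (hs : 0 < s)
    (hf : DifferentiableOn ℂ f (ball z₀ s)) (h0 : ∀ z ∈ ball z₀ s, f z ≠ 0) :
    ∃ g : ℂ → ℂ, (∀ z ∈ ball z₀ s, HasDerivAt g (deriv f z / f z) z) ∧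
      ∀ z ∈ ball z₀ s, Complex.exp (g z) = f z := by
  have hz₀ : z₀ ∈ ball z₀ s := mem_ball_self hs
  have hq : DifferentiableOn ℂ (fun z => deriv f z / f z) (ball z₀ s) :=
    (hf.deriv isOpen_ball).div hf h0
  obtain ⟨g, hg0, hg⟩ := hq.isExactOn_ball.with_val_at z₀ (Complex.log (f z₀))
  refine ⟨g, hg, ?_⟩
  have hd : ∀ z ∈ ball z₀ s, HasDerivAt (fun z => Complex.exp (-g z) * f z) 0 z := by
    intro z hz
    have h1 := (hg z hz).neg.cexp
    have h2 := ((hf z hz).differentiableAt (isOpen_ball.mem_nhds hz)).hasDerivAt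
    have h3 := h1.mul h2
    have h4 : Complex.exp (-g z) * -(deriv f z / f z) * f z + Complex.exp (-g z) * deriv f z = 0 := by
      have := h0 z hz
      field_simp
      ring
    rw [← h4]
    exact h3
  intro z hz
  have hc : (fun z => Complex.exp (-g z) * f z) z = (fun z => Complex.exp (-g z) * f z) z₀ :=
    isOpen_ball.is_const_of_deriv_eq_zero (convex_ball z₀ s).isPreconnected
      (fun w hw => (hd w hw).differentiableAt.differentiableWithinAt)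
      (fun w hw => (hd w hw).deriv) hz hz₀
  simp only [hg0] at hc
  rw [Complex.exp_neg (Complex.log (f z₀)), Complex.exp_log (h0 z₀ hz₀), inv_mul_cancel₀ (h0 z₀ hz₀),
    Complex.exp_neg, inv_mul_eq_one₀ (Complex.exp_ne_zero _)] at hc
  exact hc

theorem root_deriv {f : ℂ → ℂ} {z₀ : ℂ} {s η : ℝ} (hs : 0 < s)
    (hf : DifferentiableOn ℂ f (ball z₀ s)) (h0 : ∀ z ∈ ball z₀ s, f z ≠ 0)
    (h1 : ∀ z ∈ ball z₀ s, ‖f z‖ ≤ η) {m : ℕ} (hm : 1 ≤ m) :
    ‖f z₀‖ ^ (-(((m : ℝ) - 1) / m)) * ‖deriv f z₀‖ ≤ m * η ^ (1 / (m : ℝ)) / s := by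
  have hz₀ : z₀ ∈ ball z₀ s := mem_ball_self hs
  obtain ⟨g, hg, hexp⟩ := RootDeriv_exp hs hf h0
  have hm0 : (0 : ℝ) < m := by exact_mod_cast hm
  have hmC : (m : ℂ) ≠ 0 := by exact_mod_cast hm0.ne'
  set w : ℂ → ℂ := fun z => Complex.exp (g z / m) with hw
  have hwd : ∀ z ∈ ball z₀ s, HasDerivAt w (w z * (deriv f z / f z / m)) z := fun z hz =>
    ((hg z hz).div_const (m : ℂ)).cexp
  have hwn : ∀ z ∈ ball z₀ s, ‖w z‖ = ‖f z‖ ^ (1 / (m : ℝ)) := by
    intro z hz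
    have h2 : w z ^ m = f z := by
      rw [hw]
      simp only
      rw [← Complex.exp_nat_mul, mul_div_cancel₀ _ hmC, hexp z hz]
    rw [← h2, norm_pow, ← Real.rpow_natCast, ← Real.rpow_mul (norm_nonneg _),
      mul_one_div_cancel hm0.ne', Real.rpow_one]
  have hη : 0 ≤ η := (norm_nonneg _).trans (h1 z₀ hz₀)
  have hwb : ∀ z ∈ ball z₀ s, ‖w z‖ ≤ η ^ (1 / (m : ℝ)) := fun z hz => by
    rw [hwn z hz]
    exact Real.rpow_le_rpow (norm_nonneg _) (h1 z hz) (by positivity)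
  -- Cauchy
  have hC : ∀ s', 0 < s' → s' < s → ‖deriv w z₀‖ ≤ η ^ (1 / (m : ℝ)) / s' := by
    intro s' h1' h2'
    apply Complex.norm_deriv_le_of_forall_mem_sphere_norm_le h1'
    · refine DifferentiableOn.diffContOnCl fun z hz => ?_
      have hz' : z ∈ ball z₀ s :=
        (closure_ball_subset_closedBall.trans (closedBall_subset_ball h2')) hz
      exact (hwd z hz').differentiableAt.differentiableWithinAt
    · intro z hz
      exact hwb z (mem_ball.mpr (by rw [mem_sphere.mp hz]; exact h2'))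
  have hC2 : ‖deriv w z₀‖ * s ≤ η ^ (1 / (m : ℝ)) := by
    have ht : Tendsto (fun s' : ℝ => ‖deriv w z₀‖ * s') (𝓝[<] s) (𝓝 (‖deriv w z₀‖ * s)) :=
      (tendsto_const_nhds.mul tendsto_id).mono_left nhdsWithin_le_nhds
    refine le_of_tendsto ht ?_
    filter_upwards [Ioo_mem_nhdsLT hs] with s' hs'
    exact (le_div_iff₀ hs'.1).mp (hC s' hs'.1 hs'.2)
  have hval : ‖deriv w z₀‖ = ‖f z₀‖ ^ (-(((m : ℝ) - 1) / m)) * ‖deriv f z₀‖ / m := by
    rw [(hwd z₀ hz₀).deriv, norm_mul, hwn z₀ hz₀, norm_div, norm_div, Complex.norm_natCast]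
    have hf0 : 0 < ‖f z₀‖ := norm_pos_iff.mpr (h0 z₀ hz₀)
    have h3 : ‖f z₀‖ ^ (-(((m : ℝ) - 1) / m)) = ‖f z₀‖ ^ (1 / (m : ℝ)) / ‖f z₀‖ := by
      rw [← Real.rpow_sub_one hf0.ne']
      congr 1
      field_simp
      ring
    rw [h3]
    ring
  have h5 : ‖f z₀‖ ^ (-(((m : ℝ) - 1) / m)) * ‖deriv f z₀‖ = m * ‖deriv w z₀‖ := by
    rw [hval]
    field_simp
  rw [h5, le_div_iff₀ hs, mul_assoc]
  exact mul_le_mul_of_nonneg_left hC2 hm0.le

end Pool.Agent.H14.PP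

end

section

/-!
# V LiouA: averages over finitely many rotations

For a continuous function `φ` the averages over the rotations by multiples of `2π/N` tend to the averages over circles, uniformly on discs.
-/

set_option autoImplicit false

open Topology Filter Metric

namespace Pool.Agent.H15.V

/-- rotation by `2π j / N` -/
noncomputable def rot (N j : ℕ) : ℂ := Complex.exp (((2 * Real.pi * j / N : ℝ) : ℂ) * Complex.I)

theorem norm_rot (N j : ℕ) : ‖rot N j‖ = 1 := Complex.norm_exp_ofReal_mul_I _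

theorem circleAverage_eq_rot (φ : ℂ → ℝ) (z : ℂ) :
    Real.circleAverage φ 0 ‖z‖ = (2 * Real.pi)⁻¹ * ∫ θ in (0 : ℝ)..2 * Real.pi, φ (z * Complex.exp ((θ : ℂ) * Complex.I)) := by
  rw [Real.circleAverage_eq_integral_add (Complex.arg z), smul_eq_mul]
  congr 1
  refine intervalIntegral.integral_congr fun θ _ => ?_
  show φ (circleMap 0 ‖z‖ (θ + Complex.arg z)) = φ (z * Complex.exp ((θ : ℂ) * Complex.I))
  congr 1
  rw [circleMap_zero]
  push_cast
  rw [add_mul, Complex.exp_add]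
  have h := Complex.norm_mul_exp_arg_mul_I z
  calc (‖z‖ : ℂ) * (Complex.exp (↑θ * Complex.I) * Complex.exp (↑(Complex.arg z) * Complex.I))
      = ((‖z‖ : ℂ) * Complex.exp (↑(Complex.arg z) * Complex.I)) * Complex.exp (↑θ * Complex.I) := by ring
    _ = z * Complex.exp (↑θ * Complex.I) := by rw [h]

theorem exp_sub_le (a b : ℝ) : ‖Complex.exp ((a : ℂ) * Complex.I) - Complex.exp ((b : ℂ) * Complex.I)‖ ≤ |a - b| := by
  have h1 : Complex.exp ((a : ℂ) * Complex.I) - Complex.exp ((b : ℂ) * Complex.I) =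
      Complex.exp ((b : ℂ) * Complex.I) * (Complex.exp (Complex.I * ((a - b : ℝ) : ℂ)) - 1) := by
    rw [mul_sub, ← Complex.exp_add, mul_one]
    congr 2
    push_cast
    ring
  rw [h1, norm_mul, Complex.norm_exp_ofReal_mul_I, one_mul]
  exact (Real.norm_exp_I_mul_ofReal_sub_one_le).trans (by rw [Real.norm_eq_abs])

theorem riemann {φ : ℂ → ℝ} (hφ : Continuous φ) {r δ : ℝ} (hr : 0 < r) (hδ : 0 < δ) :
    ∃ N : ℕ, 1 ≤ N ∧ ∀ z : ℂ, ‖z‖ ≤ r →
      |(N : ℝ)⁻¹ * ∑ j ∈ Finset.range N, φ (rot N j * z) - Real.circleAverage φ 0 ‖z‖| ≤ δ := by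
  have huc : UniformContinuousOn φ (closedBall 0 r) := (isCompact_closedBall 0 r).uniformContinuousOn_of_continuous hφ.continuousOn
  rw [Metric.uniformContinuousOn_iff_le] at huc
  obtain ⟨η, hη, hη2⟩ := huc δ hδ
  obtain ⟨N, hN⟩ := exists_nat_gt (r * (2 * Real.pi) / η)
  have hN0 : (0 : ℝ) < N := lt_trans (by positivity) hN
  have hN1 : 1 ≤ N := by
    rcases Nat.eq_zero_or_pos N with h | h
    · rw [h] at hN0; simp at hN0
    · exact h
  refine ⟨N, hN1, fun z hz => ?_⟩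
  rw [circleAverage_eq_rot]
  obtain ⟨a, ha⟩ : ∃ a : ℕ → ℝ, ∀ j, a j = 2 * Real.pi * j / N := ⟨_, fun _ => rfl⟩
  have ha0 : a 0 = 0 := by rw [ha]; simp
  have haN : a N = 2 * Real.pi := by rw [ha]; field_simp
  have hstep : ∀ j, a (j + 1) - a j = 2 * Real.pi / N := by
    intro j
    rw [ha, ha]
    push_cast
    ring
  have hc : Continuous fun θ : ℝ => φ (z * Complex.exp ((θ : ℂ) * Complex.I)) := by fun_prop
  have hsum : ∫ θ in (0 : ℝ)..2 * Real.pi, φ (z * Complex.exp ((θ : ℂ) * Complex.I)) =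
      ∑ j ∈ Finset.range N, ∫ θ in (a j)..(a (j + 1)), φ (z * Complex.exp ((θ : ℂ) * Complex.I)) := by
    rw [intervalIntegral.sum_integral_adjacent_intervals fun j _ => hc.intervalIntegrable _ _, ha0, haN]
  have hpiece : ∀ j ∈ Finset.range N, |(2 * Real.pi / N) * φ (rot N j * z) -
      ∫ θ in (a j)..(a (j + 1)), φ (z * Complex.exp ((θ : ℂ) * Complex.I))| ≤ δ * (2 * Real.pi / N) := by
    intro j hj
    have h1 : (2 * Real.pi / N) * φ (rot N j * z) = ∫ _ in (a j)..(a (j + 1)), φ (rot N j * z) := by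
      rw [intervalIntegral.integral_const, hstep, smul_eq_mul]
    rw [h1, ← intervalIntegral.integral_sub intervalIntegrable_const (hc.intervalIntegrable _ _)]
    have hle : a j ≤ a (j + 1) := by
      have := hstep j
      have h2 : 0 < 2 * Real.pi / N := by positivity
      linarith
    have h2 := intervalIntegral.norm_integral_le_of_norm_le_const (a := a j) (b := a (j + 1))
      (f := fun θ : ℝ => φ (rot N j * z) - φ (z * Complex.exp ((θ : ℂ) * Complex.I))) (C := δ) ?_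
    · rw [hstep, abs_of_pos (by positivity)] at h2
      rwa [Real.norm_eq_abs] at h2
    · intro θ hθ
      rw [Set.uIoc_of_le hle] at hθ
      rw [Real.norm_eq_abs, ← Real.dist_eq]
      have hn : ∀ t : ℝ, ‖z * Complex.exp ((t : ℂ) * Complex.I)‖ ≤ r := fun t => by
        rw [norm_mul, Complex.norm_exp_ofReal_mul_I, mul_one]
        exact hz
      refine hη2 _ ?_ _ ?_ ?_
      · rw [mem_closedBall_zero_iff, norm_mul, norm_rot, one_mul]
        exact hz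
      · rw [mem_closedBall_zero_iff]
        exact hn θ
      · have hrot : rot N j = Complex.exp ((a j : ℂ) * Complex.I) := by rw [ha, rot]
        rw [hrot, dist_eq_norm, mul_comm (Complex.exp _) z, ← mul_sub, norm_mul]
        have h3 := exp_sub_le (a j) θ
        have h4 : |a j - θ| ≤ 2 * Real.pi / N := by
          have := hstep j
          rw [abs_le]
          constructor <;> linarith [hθ.1, hθ.2]
        calc ‖z‖ * ‖Complex.exp ((a j : ℂ) * Complex.I) - Complex.exp ((θ : ℂ) * Complex.I)‖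
            ≤ r * (2 * Real.pi / N) := mul_le_mul hz (h3.trans h4) (norm_nonneg _) hr.le
          _ ≤ η := by
            rw [div_lt_iff₀ hη] at hN
            rw [← mul_div_assoc, div_le_iff₀ hN0]
            linarith
  have hpos : (0 : ℝ) < 2 * Real.pi := by positivity
  have htot : |(2 * Real.pi / N) * ∑ j ∈ Finset.range N, φ (rot N j * z) -
      ∫ θ in (0 : ℝ)..2 * Real.pi, φ (z * Complex.exp ((θ : ℂ) * Complex.I))| ≤ δ * (2 * Real.pi) := by
    rw [hsum, Finset.mul_sum, ← Finset.sum_sub_distrib]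
    refine (Finset.abs_sum_le_sum_abs _ _).trans ((Finset.sum_le_sum hpiece).trans ?_)
    rw [Finset.sum_const, Finset.card_range, nsmul_eq_mul]
    apply le_of_eq
    field_simp
  have hfin : (N : ℝ)⁻¹ * ∑ j ∈ Finset.range N, φ (rot N j * z) -
      (2 * Real.pi)⁻¹ * ∫ θ in (0 : ℝ)..2 * Real.pi, φ (z * Complex.exp ((θ : ℂ) * Complex.I)) =
      (2 * Real.pi)⁻¹ * ((2 * Real.pi / N) * ∑ j ∈ Finset.range N, φ (rot N j * z) -
        ∫ θ in (0 : ℝ)..2 * Real.pi, φ (z * Complex.exp ((θ : ℂ) * Complex.I))) := by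
    rw [mul_sub, ← mul_assoc]
    congr 2
    field_simp
  rw [hfin, abs_mul, abs_of_pos (inv_pos.2 hpos)]
  calc (2 * Real.pi)⁻¹ * _ ≤ (2 * Real.pi)⁻¹ * (δ * (2 * Real.pi)) := mul_le_mul_of_nonneg_left htot (inv_pos.2 hpos).le
    _ = δ := by field_simp

/-- the average over a circle does not change under rotations -/
theorem circleAverage_rot (φ : ℂ → ℝ) (N j : ℕ) {r : ℝ} (hr : 0 ≤ r) :
    Real.circleAverage (fun z => φ (rot N j * z)) 0 r = Real.circleAverage φ 0 r := by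
  have h1 := circleAverage_eq_rot φ (rot N j * r)
  have h2 := circleAverage_eq_rot (fun z => φ (rot N j * z)) (r : ℂ)
  rw [Complex.norm_real, Real.norm_eq_abs, abs_of_nonneg hr] at h2
  rw [norm_mul, norm_rot, one_mul, Complex.norm_real, Real.norm_eq_abs, abs_of_nonneg hr] at h1
  rw [h1, h2]
  congr 1
  refine intervalIntegral.integral_congr fun θ _ => ?_
  show φ (rot N j * (r * _)) = φ (rot N j * r * _)
  rw [mul_assoc]

end Pool.Agent.H15.V

end

section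

/-!
# Polynomials without the second coefficient

`P = ∑_{j < k} γ_j X^j + U₀ X^(k+1)`, `U₀ ≠ 0`: no term `X^k`.
`order_root`: if `w ↦ P(c₀ + w)` had order `≥ k + 1` at `0`, all derivatives of `P` of order `≤ k` would vanish at
`c₀`, so `P = U₀ (X - c₀)^(k+1)` (degree `k+1`); its coefficient of `X^k` is `- (k+1) U₀ c₀ = 0`, so `c₀ = 0` and
`P = U₀ X^(k+1)`, `γ = 0`, a contradiction.  (Use `Polynomial.taylor c₀ P`: `P(c₀ + w) = ∑ (taylor c₀ P).coeff i w^i`,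
order `≥ k+1` gives `(taylor c₀ P).coeff i = 0` for `i ≤ k`.)
-/

open Topology Filter

noncomputable section

namespace Pool.Agent.H17BP

open Polynomial in
private def RootP_poly (k : ℕ) (γ : ℕ → ℂ) (U₀ : ℂ) : ℂ[X] :=
  ∑ j ∈ Finset.range k, C (γ j) * X ^ j + C U₀ * X ^ (k + 1)

private theorem RootP_eval (k : ℕ) (γ : ℕ → ℂ) (U₀ x : ℂ) :
    (RootP_poly k γ U₀).eval x = ∑ j ∈ Finset.range k, γ j * x ^ j + U₀ * x ^ (k + 1) := by
  simp [RootP_poly, Polynomial.eval_finsetSum]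

private theorem RootP_coeff_lt {k : ℕ} (γ : ℕ → ℂ) (U₀ : ℂ) {j : ℕ} (hj : j < k) :
    (RootP_poly k γ U₀).coeff j = γ j := by
  simp only [RootP_poly, Polynomial.coeff_add, Polynomial.finsetSum_coeff, Polynomial.coeff_C_mul, Polynomial.coeff_X_pow]
  rw [Finset.sum_eq_single j]
  · have : j ≠ k + 1 := by omega
    simp [this]
  · intro b _ hb
    simp [hb.symm]
  · intro h
    exact absurd (Finset.mem_range.2 hj) h

private theorem RootP_coeff_ge {k : ℕ} (γ : ℕ → ℂ) (U₀ : ℂ) {j : ℕ} (hj : k ≤ j) :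
    (RootP_poly k γ U₀).coeff j = if j = k + 1 then U₀ else 0 := by
  simp only [RootP_poly, Polynomial.coeff_add, Polynomial.finsetSum_coeff, Polynomial.coeff_C_mul, Polynomial.coeff_X_pow]
  rw [Finset.sum_eq_zero]
  · simp
  · intro b hb
    have : j ≠ b := by
      have := Finset.mem_range.1 hb
      omega
    simp [this]

private theorem RootP_ne {k : ℕ} {γ : ℕ → ℂ} {U₀ : ℂ} (hU : U₀ ≠ 0) : RootP_poly k γ U₀ ≠ 0 := by
  intro h
  have h1 := RootP_coeff_ge γ U₀ (j := k + 1) (k := k) (by omega)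
  rw [h] at h1
  simp at h1
  exact hU h1.symm

private theorem RootP_natDegree (k : ℕ) (γ : ℕ → ℂ) (U₀ : ℂ) : (RootP_poly k γ U₀).natDegree ≤ k + 1 := by
  rw [Polynomial.natDegree_le_iff_coeff_eq_zero]
  intro j hj
  rw [RootP_coeff_ge γ U₀ (by omega)]
  have : j ≠ k + 1 := by omega
  simp [this]

private theorem RootP_cXC (r : ℂ) (n k : ℕ) :
    ((Polynomial.X - Polynomial.C r : Polynomial ℂ) ^ n).coeff k = (-r) ^ (n - k) * (n.choose k : ℂ) := by
  rw [sub_eq_add_neg, ← Polynomial.C_neg, Polynomial.coeff_X_add_C_pow]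

private theorem RootP_mult {k : ℕ} {γ : ℕ → ℂ} {U₀ : ℂ} (hU : U₀ ≠ 0) (hγ : ∃ j < k, γ j ≠ 0) (c₀ : ℂ) :
    (RootP_poly k γ U₀).rootMultiplicity c₀ ≤ k := by
  by_contra hlt
  push Not at hlt
  have h1 : (Polynomial.X - Polynomial.C c₀) ^ (k + 1) ∣ RootP_poly k γ U₀ :=
    (Polynomial.le_rootMultiplicity_iff (RootP_ne hU)).1 hlt
  obtain ⟨R, hR⟩ := h1
  have hm : ((Polynomial.X - Polynomial.C c₀ : Polynomial ℂ) ^ (k + 1)).Monic := (Polynomial.monic_X_sub_C c₀).pow _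
  have hR0 : R ≠ 0 := by
    rintro rfl
    rw [mul_zero] at hR
    exact RootP_ne hU hR
  have hd : (RootP_poly k γ U₀).natDegree = (k + 1) + R.natDegree := by
    rw [hR, hm.natDegree_mul' hR0, Polynomial.natDegree_pow, Polynomial.natDegree_X_sub_C, mul_one]
  have hd' := RootP_natDegree k γ U₀
  have hRd : R.natDegree = 0 := by omega
  have hRC : R = Polynomial.C (R.coeff 0) := Polynomial.eq_C_of_natDegree_eq_zero hRd
  have hr0 : R.coeff 0 ≠ 0 := by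
    intro h
    rw [h, Polynomial.C_0] at hRC
    exact hR0 hRC
  rw [hRC] at hR
  have hk := RootP_coeff_ge γ U₀ (le_refl k)
  have hkk : k ≠ k + 1 := by omega
  rw [hR, Polynomial.coeff_mul_C, RootP_cXC, if_neg hkk] at hk
  have hc : c₀ = 0 := by
    have e1 : k + 1 - k = 1 := by omega
    rw [e1, pow_one, Nat.choose_succ_self_right] at hk
    have h5 : ((k + 1 : ℕ) : ℂ) ≠ 0 := by exact_mod_cast Nat.succ_ne_zero k
    have h6 : -c₀ * ((k + 1 : ℕ) : ℂ) = 0 := by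
      rcases mul_eq_zero.1 hk with h | h
      · exact h
      · exact absurd h hr0
    rcases mul_eq_zero.1 h6 with h | h
    · exact neg_eq_zero.1 h
    · exact absurd h h5
  obtain ⟨j, hj, hγj⟩ := hγ
  have h7 := RootP_coeff_lt γ U₀ hj
  rw [hR, Polynomial.coeff_mul_C, hc, Polynomial.C_0, sub_zero, Polynomial.coeff_X_pow] at h7
  have hjk : j ≠ k + 1 := by omega
  rw [if_neg hjk, zero_mul] at h7
  exact hγj h7.symm

theorem order_root {k : ℕ} {γ : ℕ → ℂ} {U₀ : ℂ} (hU : U₀ ≠ 0) (hγ : ∃ j < k, γ j ≠ 0) (c₀ : ℂ) :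
    analyticOrderAt (fun w : ℂ => ∑ j ∈ Finset.range k, γ j * (c₀ + w) ^ j + U₀ * (c₀ + w) ^ (k + 1)) 0 ≤
      (k : ℕ∞) := by
  set P := RootP_poly k γ U₀ with hP
  obtain ⟨R, hR1, hR2⟩ := Polynomial.exists_eq_pow_rootMultiplicity_mul_and_not_dvd P (RootP_ne hU) c₀
  have hR0 : R.eval c₀ ≠ 0 := by
    intro h
    exact hR2 (Polynomial.dvd_iff_isRoot.2 h)
  have hf : (fun w : ℂ => ∑ j ∈ Finset.range k, γ j * (c₀ + w) ^ j + U₀ * (c₀ + w) ^ (k + 1)) =
      fun w : ℂ => P.eval (c₀ + w) := by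
    funext w
    rw [hP, RootP_eval]
  rw [hf]
  have han : AnalyticAt ℂ (fun w : ℂ => P.eval (c₀ + w)) 0 := by
    have h1 : Differentiable ℂ (fun w : ℂ => P.eval (c₀ + w)) := by
      intro w
      exact (P.differentiable (c₀ + w)).comp w ((differentiableAt_const c₀).add differentiableAt_id)
    exact h1.analyticAt 0
  have hRan : AnalyticAt ℂ (fun w : ℂ => R.eval (c₀ + w)) 0 := by
    have h1 : Differentiable ℂ (fun w : ℂ => R.eval (c₀ + w)) := by
      intro w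
      exact (R.differentiable (c₀ + w)).comp w ((differentiableAt_const c₀).add differentiableAt_id)
    exact h1.analyticAt 0
  have hord : analyticOrderAt (fun w : ℂ => P.eval (c₀ + w)) 0 = (P.rootMultiplicity c₀ : ℕ) := by
    rw [han.analyticOrderAt_eq_natCast]
    refine ⟨fun w => R.eval (c₀ + w), hRan, ?_, ?_⟩
    · simpa using hR0
    · refine Eventually.of_forall fun w => ?_
      show P.eval (c₀ + w) = (w - 0) ^ P.rootMultiplicity c₀ • R.eval (c₀ + w)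
      conv_lhs => rw [hR1]
      simp
  rw [hord]
  exact_mod_cast RootP_mult hU hγ c₀

theorem finite_roots {k : ℕ} {γ : ℕ → ℂ} {U₀ : ℂ} (hU : U₀ ≠ 0) :
    {c₀ : ℂ | ∑ j ∈ Finset.range k, γ j * c₀ ^ j + U₀ * c₀ ^ (k + 1) = 0}.Finite := by
  refine (Polynomial.finite_setOfPred_isRoot (RootP_ne (k := k) (γ := γ) hU)).subset ?_
  intro c₀ hc
  show (RootP_poly k γ U₀).eval c₀ = 0
  rw [RootP_eval]
  exact hc

end Pool.Agent.H17BP

end
end

section

/-!
# Project BD, abstract part: definitions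

`S` is a family of maps `ev f : ℂ → Y` (`f ∈ S`), closed under translations and limits, uniformly bi-Lipschitz on discs of radius `4 r₂`.
`Z` is a closed subset of `Y`.  The plaque of `f` at `w` is the image of `closedBall w r₂`.  `ρ f w g z` is a measure for the distance of the point
`ev g z` to the plaque of `f` at `w`, which is compared with holomorphic functions: it satisfies a local maximum principle with a Gaussian weight.
-/

set_option autoImplicit false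

open Topology Filter Metric

namespace Pool.Agent.H5.BD

variable {Y ι : Type} [MetricSpace Y]

/-- the plaque of `f` at `w` -/
def Pl (ev : ι → ℂ → Y) (r₂ : ℝ) (f : ι) (w : ℂ) : Set Y := ev f '' closedBall w r₂

/-- near `z₀` the curve `g` follows the curve `f`: `ev g z` is near `ev f (φ z)` -/
def FolAt (ev : ι → ℂ → Y) (r₂ s ε : ℝ) (f g : ι) (z₀ : ℂ) (φ : ℂ → ℂ) : Prop :=
  ∀ z ∈ closedBall z₀ s, dist (ev g z) (ev f (φ z)) ≤ ε ∧ ‖φ z - φ z₀‖ ≤ r₂ / 4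

/-- a family of uniformly bi-Lipschitz maps with a local maximum principle for the distance of two plaques -/
structure BFlow (S : Set ι) (ev : ι → ℂ → Y) (Z : Set Y) (ρ : ι → ℂ → ι → ℂ → ℝ) (L c r₂ r₃ κ : ℝ) : Prop where
  L_pos : 0 < L
  c_pos : 0 < c
  r₂_pos : 0 < r₂
  r₃_pos : 0 < r₃
  κ_pos : 0 < κ
  lip : ∀ f ∈ S, ∀ z w, dist (ev f z) (ev f w) ≤ L * ‖z - w‖
  emb : ∀ f ∈ S, ∀ z w, ‖z - w‖ ≤ 4 * r₂ → c * ‖z - w‖ ≤ dist (ev f z) (ev f w)
  trans : ∀ f ∈ S, ∀ a : ℂ, ∃ f' ∈ S, ∀ z, ev f' z = ev f (z + a)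
  lim : ∀ (𝒰 : Ultrafilter ℕ), (𝒰 : Filter ℕ) ≤ atTop → ∀ F : ℕ → ι, (∀ᶠ n in (𝒰 : Filter ℕ), F n ∈ S) →
    ∃ f ∈ S, ∀ z, Tendsto (fun n => ev (F n) z) 𝒰 (𝓝 (ev f z))
  closed : IsClosed Z
  dense : ∀ f ∈ S, (∀ z, ev f z ∈ Z) ∨ ∀ z₀, ∀ᶠ z in 𝓝[≠] z₀, ev f z ∉ Z
  bdd : ∃ B ε : ℝ, 0 ≤ B ∧ 0 < ε ∧ ∀ f ∈ S, ∀ g ∈ S, ∀ w z, dist (ev g z) (ev f w) ≤ ε → 0 ≤ ρ f w g z ∧ ρ f w g z ≤ B
  loc : ∀ s, 0 < s → s ≤ r₃ → ∃ θ ε : ℝ, 0 ≤ θ ∧ θ < 1 ∧ 0 < ε ∧ ∀ f ∈ S, ∀ g ∈ S, ∀ z₀ φ, FolAt ev r₂ s ε f g z₀ φ → ∀ a : ℂ,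
    ∃ z ∈ closedBall z₀ s, ρ f (φ z₀) g z₀ * Real.exp (-κ * ‖z₀ - a‖ ^ 2) ≤ θ * (ρ f (φ z) g z * Real.exp (-κ * ‖z - a‖ ^ 2))
  small : ∀ s, 0 < s → s ≤ r₃ → ∃ ε : ℝ, 0 < ε ∧ ∀ η : ℝ, 0 < η → ∃ δ : ℝ, 0 < δ ∧ ∀ f ∈ S, ∀ g ∈ S, ∀ z₀ φ,
    FolAt ev r₂ s ε f g z₀ φ → ρ f (φ z₀) g z₀ ≤ δ → (∃ y ∈ Z, dist (ev g z₀) y ≤ η) ∨ ∃ w ∈ closedBall (φ z₀) r₂, dist (ev g z₀) (ev f w) ≤ η
  ident : ∃ ε : ℝ, 0 < ε ∧ ∀ f ∈ S, ∀ g ∈ S, ∀ z₀ w₀, dist (ev g z₀) (ev f w₀) ≤ ε → ∀ z₁ ∈ closedBall z₀ r₃,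
    (∃ᶠ z in 𝓝[≠] z₁, ev g z ∈ Pl ev r₂ f w₀) → ∀ z ∈ closedBall z₀ r₃, ev g z ∈ Pl ev r₂ f w₀
  iso : ∀ g ∈ S, (∀ z, ev g z ∈ Z) → ∀ η : ℝ, 0 < η → ∃ z₁ : ℂ, ‖z₁‖ < η ∧ ∀ η' : ℝ, 0 < η' → ∃ δ : ℝ, 0 < δ ∧ ∀ f ∈ S, (∀ z, ev f z ∈ Z) →
    ∀ w, dist (ev f w) (ev g z₁) < δ → ∃ z', ‖z' - z₁‖ < η' ∧ ev f w = ev g z'

/-- `g` is `f` up to a change of the variable -/
def Rel (ev : ι → ℂ → Y) (r₂ r : ℝ) (f g : ι) : Prop :=
  ∃ ψ : ℂ → ℂ, (∀ z, ev g z = ev f (ψ z)) ∧ (∀ z z', ‖z - z'‖ ≤ r → ‖ψ z - ψ z'‖ ≤ r₂) ∧ ‖ψ 0‖ ≤ r₂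

/-- on the disc of radius `R` the curve `g` follows the curve `f` -/
structure Fol (ev : ι → ℂ → Y) (r₂ r ε R : ℝ) (f g : ι) (φ : ℂ → ℂ) : Prop where
  close : ∀ z ∈ ball (0 : ℂ) R, dist (ev g z) (ev f (φ z)) ≤ ε
  cont : ∀ z ∈ ball (0 : ℂ) R, ∀ z' ∈ ball (0 : ℂ) R, ‖z - z'‖ ≤ r → ‖φ z - φ z'‖ ≤ r₂ / 4
  zero : φ 0 = 0

/-- the conditions on the constants `r` and `ε` -/
structure Cst (L c r₂ r₃ r ε : ℝ) : Prop where
  r_pos : 0 < r
  ε_pos : 0 < ε
  r_le : r ≤ r₂ / 4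
  r_le₃ : r ≤ r₃
  hr : 32 * (L * r) ≤ c * r₂
  hε : 64 * ε ≤ c * r₂

theorem Fol.folAt {ev : ι → ℂ → Y} {r₂ r ε R : ℝ} {f g : ι} {φ : ℂ → ℂ} (h : Fol ev r₂ r ε R f g φ) {z₀ : ℂ} {s : ℝ} (hs : s ≤ r) (hs0 : 0 ≤ s)
    (hz : ‖z₀‖ + s < R) {ε' : ℝ} (hε : ε ≤ ε') : FolAt ev r₂ s ε' f g z₀ φ := by
  intro z hz'
  rw [mem_closedBall, dist_eq_norm] at hz'
  have h0 : z₀ ∈ ball (0 : ℂ) R := by rw [mem_ball_zero_iff]; linarith
  have h1 : z ∈ ball (0 : ℂ) R := by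
    rw [mem_ball_zero_iff]
    have : ‖z‖ ≤ ‖z - z₀‖ + ‖z₀‖ := by simpa using norm_add_le (z - z₀) z₀
    linarith
  exact ⟨(h.close z h1).trans hε, h.cont z h1 z₀ h0 (hz'.trans hs)⟩

/-- the entire curves of `S` are continuous -/
theorem BFlow.continuous {S : Set ι} {ev : ι → ℂ → Y} {Z : Set Y} {ρ : ι → ℂ → ι → ℂ → ℝ} {L c r₂ r₃ κ : ℝ}
    (h : BFlow S ev Z ρ L c r₂ r₃ κ) {f : ι} (hf : f ∈ S) : Continuous (ev f) :=
  (LipschitzWith.of_dist_le_mul (K := L.toNNReal) fun z w => by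
    rw [Real.coe_toNNReal _ h.L_pos.le, dist_eq_norm z w]
    exact h.lip f hf z w).continuous

end Pool.Agent.H5.BD

end

section

/-! FC Calculus: Borel's calculus lemma. -/

noncomputable section

namespace Pool.Agent.H62.FC

open Filter Topology MeasureTheory

private theorem Calculus_step {f f' : ℝ → ℝ} {x₀ : ℝ} (hf : ∀ x, HasDerivAt f (f' x) x)
    (hc : Continuous f') (h0 : f x₀ = 0) (hpos : ∀ x, x₀ ≤ x → 0 ≤ f' x) :
    (∀ x, x₀ ≤ x → 0 ≤ f x) ∧ volume {x | x₀ ≤ x ∧ (1 + f x) ^ 2 < f' x} ≤ 1 := by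
  have hfc : Continuous f := continuous_iff_continuousAt.2 fun x => (hf x).continuousAt
  have hnn : ∀ x, x₀ ≤ x → 0 ≤ f x := by
    intro x hx
    have h1 := intervalIntegral.integral_eq_sub_of_hasDerivAt (f := f) (f' := f') (a := x₀)
      (b := x) (fun y _ => hf y) (hc.intervalIntegrable _ _)
    rw [h0, sub_zero] at h1
    rw [← h1]
    exact intervalIntegral.integral_nonneg hx fun y hy => hpos y hy.1
  refine ⟨hnn, ?_⟩
  -- the density
  set g : ℝ → ℝ := fun x => f' x / (1 + f x) ^ 2 with hg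
  have hgc : ContinuousOn g (Set.Ici x₀) := by
    refine ContinuousOn.div hc.continuousOn (by fun_prop) ?_
    intro x hx
    have := hnn x hx
    positivity
  have hgnn : ∀ x, x₀ ≤ x → 0 ≤ g x := fun x hx =>
    div_nonneg (hpos x hx) (sq_nonneg _)
  have hder : ∀ x, x₀ ≤ x → HasDerivAt (fun y => -(1 + f y)⁻¹) (g x) x := by
    intro x hx
    have h1 : 1 + f x ≠ 0 := by
      have := hnn x hx
      positivity
    have h2 := (((hf x).const_add 1).inv h1).neg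
    refine h2.congr_deriv ?_
    rw [hg]
    simp only
    rw [neg_div, neg_neg]
  have hbound : ∀ b, x₀ ≤ b →
      volume ({x | x₀ ≤ x ∧ (1 + f x) ^ 2 < f' x} ∩ Set.Ioc x₀ b) ≤ 1 := by
    intro b hb
    have hgi : IntervalIntegrable g volume x₀ b := by
      refine ContinuousOn.intervalIntegrable (hgc.mono ?_)
      rw [Set.uIcc_of_le hb]
      exact Set.Icc_subset_Ici_self
    have hint : ∫ x in x₀..b, g x = 1 - (1 + f b)⁻¹ := by
      rw [intervalIntegral.integral_eq_sub_of_hasDerivAt (f := fun y => -(1 + f y)⁻¹)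
        (fun y hy => hder y (by rw [Set.uIcc_of_le hb] at hy; exact hy.1)) hgi, h0]
      ring
    have hle1 : ∫ x in x₀..b, g x ≤ 1 := by
      rw [hint]
      have : 0 ≤ (1 + f b)⁻¹ := inv_nonneg.2 (by linarith [hnn b hb])
      linarith
    rw [intervalIntegral.integral_of_le hb] at hle1
    have hgi' : IntegrableOn g (Set.Ioc x₀ b) volume :=
      (intervalIntegrable_iff_integrableOn_Ioc_of_le hb).1 hgi
    have hae : 0 ≤ᵐ[volume.restrict (Set.Ioc x₀ b)] g :=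
      (ae_restrict_iff' measurableSet_Ioc).2 (Eventually.of_forall fun x hx => hgnn x hx.1.le)
    have hL : ∫⁻ x in Set.Ioc x₀ b, ENNReal.ofReal (g x) ≤ 1 := by
      rw [← ofReal_integral_eq_lintegral_ofReal hgi' hae]
      exact (ENNReal.ofReal_le_ofReal hle1).trans_eq ENNReal.ofReal_one
    have hM := mul_meas_ge_le_lintegral₀ (μ := volume.restrict (Set.Ioc x₀ b))
      (f := fun x => ENNReal.ofReal (g x)) hgi'.aestronglyMeasurable.aemeasurable.ennreal_ofReal 1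
    rw [one_mul] at hM
    refine le_trans ?_ (hM.trans hL)
    rw [Measure.restrict_apply' measurableSet_Ioc]
    refine measure_mono ?_
    rintro x ⟨⟨hx1, hx2⟩, hx3⟩
    refine ⟨?_, hx3⟩
    show (1 : ENNReal) ≤ ENNReal.ofReal (g x)
    rw [← ENNReal.ofReal_one]
    refine ENNReal.ofReal_le_ofReal ?_
    have h1 : 0 < 1 + f x := by linarith [hnn x hx1]
    rw [hg]
    simp only
    rw [le_div_iff₀ (by positivity), one_mul]
    exact hx2.le
  set E : Set ℝ := {x | x₀ ≤ x ∧ (1 + f x) ^ 2 < f' x} with hE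
  have hmono : Monotone fun m : ℕ => E ∩ Set.Ioc x₀ (x₀ + m) := by
    intro m m' hmm
    refine Set.inter_subset_inter_right _ (Set.Ioc_subset_Ioc_right ?_)
    have : (m : ℝ) ≤ m' := by exact_mod_cast hmm
    linarith
  have hcov : E ⊆ {x₀} ∪ ⋃ m : ℕ, E ∩ Set.Ioc x₀ (x₀ + m) := by
    intro x hx
    rcases eq_or_lt_of_le hx.1 with h | h
    · exact Or.inl h.symm
    · right
      obtain ⟨m, hm⟩ := exists_nat_ge (x - x₀)
      exact Set.mem_iUnion.2 ⟨m, hx, h, by linarith⟩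
  calc volume E ≤ volume ({x₀} ∪ ⋃ m : ℕ, E ∩ Set.Ioc x₀ (x₀ + m)) := measure_mono hcov
    _ ≤ volume {x₀} + volume (⋃ m : ℕ, E ∩ Set.Ioc x₀ (x₀ + m)) := measure_union_le _ _
    _ = volume (⋃ m : ℕ, E ∩ Set.Ioc x₀ (x₀ + m)) := by
        rw [Real.volume_singleton, zero_add]
    _ = ⨆ m : ℕ, volume (E ∩ Set.Ioc x₀ (x₀ + m)) := hmono.measure_iUnion
    _ ≤ 1 := iSup_le fun m => hbound _ (by
        have : (0 : ℝ) ≤ m := Nat.cast_nonneg m
        linarith)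

/-- Borel's calculus lemma. -/
theorem calculus_lemma {G : ℝ → ℝ} {x₀ : ℝ} (hG : ContinuousOn G (Set.Ici x₀))
    (hG0 : ∀ x, x₀ ≤ x → 0 ≤ G x) :
    volume {x | x₀ ≤ x ∧ 4 * (1 + ∫ y in x₀..x, (x - y) * G y) ^ 4 < G x} ≤ 2 := by
  -- a continuous extension
  set K : ℝ → ℝ := fun x => G (max x₀ x) with hK
  have hKc : Continuous K := by
    have h1 : Continuous fun x : ℝ => max x₀ x := by fun_prop
    exact hG.comp_continuous h1 fun x => Set.mem_Ici.2 (le_max_left _ _)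
  have hKG : ∀ x, x₀ ≤ x → K x = G x := fun x hx => by
    rw [hK]
    simp only
    rw [max_eq_right hx]
  have hK0 : ∀ x, 0 ≤ K x := fun x => hG0 _ (le_max_left _ _)
  set P : ℝ → ℝ := fun x => ∫ y in x₀..x, K y with hP
  set Q : ℝ → ℝ := fun x => ∫ y in x₀..x, y * K y with hQ
  have hP' : ∀ x, HasDerivAt P (K x) x := fun x =>
    intervalIntegral.integral_hasDerivAt_right (hKc.intervalIntegrable _ _)
      (hKc.stronglyMeasurableAtFilter _ _) hKc.continuousAt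
  have hyK : Continuous fun y : ℝ => y * K y := continuous_id.mul hKc
  have hQ' : ∀ x, HasDerivAt Q (x * K x) x := fun x =>
    intervalIntegral.integral_hasDerivAt_right (hyK.intervalIntegrable _ _)
      (hyK.stronglyMeasurableAtFilter _ _) hyK.continuousAt
  have hPc : Continuous P := continuous_iff_continuousAt.2 fun x => (hP' x).continuousAt
  have hP0 : P x₀ = 0 := intervalIntegral.integral_same
  set H : ℝ → ℝ := fun x => x * P x - Q x with hH
  have hH' : ∀ x, HasDerivAt H (P x) x := by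
    intro x
    have h1 := ((hasDerivAt_id x).mul (hP' x)).sub (hQ' x)
    refine h1.congr_deriv ?_
    simp only [id]
    ring
  have hH0 : H x₀ = 0 := by
    rw [hH]
    simp only
    rw [hP0, hQ]
    simp only
    rw [intervalIntegral.integral_same]
    ring
  have hHeq : ∀ x, x₀ ≤ x → ∫ y in x₀..x, (x - y) * G y = H x := by
    intro x hx
    have h1 : ∫ y in x₀..x, (x - y) * G y = ∫ y in x₀..x, (x * K y - y * K y) := by
      refine intervalIntegral.integral_congr fun y hy => ?_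
      rw [Set.uIcc_of_le hx] at hy
      show (x - y) * G y = x * K y - y * K y
      rw [hKG y hy.1]
      ring
    have h2 : Continuous fun y : ℝ => x * K y := continuous_const.mul hKc
    rw [h1, intervalIntegral.integral_sub (h2.intervalIntegrable _ _)
      (hyK.intervalIntegrable _ _), intervalIntegral.integral_const_mul]
  obtain ⟨hPnn, hE2⟩ := Calculus_step (x₀ := x₀) hP' hKc hP0 (fun x _ => hK0 x)
  obtain ⟨hHnn, hE1⟩ := Calculus_step (x₀ := x₀) hH' hPc hH0 hPnn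
  have hsub : {x | x₀ ≤ x ∧ 4 * (1 + ∫ y in x₀..x, (x - y) * G y) ^ 4 < G x} ⊆
      {x | x₀ ≤ x ∧ (1 + H x) ^ 2 < P x} ∪ {x | x₀ ≤ x ∧ (1 + P x) ^ 2 < K x} := by
    rintro x ⟨hx, hx2⟩
    by_contra hcon
    rw [Set.mem_union, not_or] at hcon
    have h1 : P x ≤ (1 + H x) ^ 2 := by
      by_contra h
      exact hcon.1 ⟨hx, not_le.1 h⟩
    have h2 : K x ≤ (1 + P x) ^ 2 := by
      by_contra h
      exact hcon.2 ⟨hx, not_le.1 h⟩
    rw [hHeq x hx, ← hKG x hx] at hx2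
    have h3 := hHnn x hx
    have h4 := hPnn x hx
    have h5 : 1 ≤ (1 + H x) ^ 2 := by nlinarith
    have h6 : 1 + P x ≤ 2 * (1 + H x) ^ 2 := by linarith
    have h7 : (1 + P x) ^ 2 ≤ (2 * (1 + H x) ^ 2) ^ 2 :=
      pow_le_pow_left₀ (by linarith) h6 2
    have h8 : (2 * (1 + H x) ^ 2) ^ 2 = 4 * (1 + H x) ^ 4 := by ring
    linarith
  calc _ ≤ volume ({x | x₀ ≤ x ∧ (1 + H x) ^ 2 < P x} ∪ {x | x₀ ≤ x ∧ (1 + P x) ^ 2 < K x}) :=
        measure_mono hsub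
    _ ≤ volume {x | x₀ ≤ x ∧ (1 + H x) ^ 2 < P x} + volume {x | x₀ ≤ x ∧ (1 + P x) ^ 2 < K x} :=
        measure_union_le _ _
    _ ≤ 1 + 1 := add_le_add hE1 hE2
    _ = 2 := by norm_num

end Pool.Agent.H62.FC

end
end

section

/-!
# A function which takes every value finitely often near a puncture
-/

open Complex Metric Set Topology Filter

namespace Pool.Agent.H92.GGL

lemma isPreconnected_punctured (R : ℝ) : IsPreconnected {z : ℂ | 0 < ‖z‖ ∧ ‖z‖ < R} := by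
  rcases le_or_gt R 0 with hR | hR
  · have : {z : ℂ | 0 < ‖z‖ ∧ ‖z‖ < R} = ∅ := by
      ext z
      simp only [mem_ofPred_eq, mem_empty_iff_false, iff_false, not_and, not_lt]
      intro h
      linarith
    rw [this]
    exact isPreconnected_empty
  · have h1 : {z : ℂ | 0 < ‖z‖ ∧ ‖z‖ < R} = exp '' {τ : ℂ | τ.re < Real.log R} := by
      ext z
      constructor
      · rintro ⟨h1, h2⟩
        refine ⟨log z, ?_, exp_log (norm_pos_iff.mp h1)⟩
        rw [mem_ofPred_eq, log_re]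
        exact Real.log_lt_log h1 h2
      · rintro ⟨τ, hτ, rfl⟩
        rw [mem_ofPred_eq, norm_exp]
        refine ⟨Real.exp_pos _, ?_⟩
        rw [← Real.exp_log hR]
        exact Real.exp_lt_exp.mpr hτ
    rw [h1]
    exact ((convex_halfSpace_re_lt _).isPreconnected).image _ continuous_exp.continuousOn

lemma isOpen_punctured (R : ℝ) : IsOpen {z : ℂ | 0 < ‖z‖ ∧ ‖z‖ < R} :=
  (isOpen_lt continuous_const continuous_norm).inter (isOpen_lt continuous_norm continuous_const)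

lemma punctured_mem {R : ℝ} (hR : 0 < R) : {z : ℂ | 0 < ‖z‖ ∧ ‖z‖ < R} ∈ 𝓝[≠] (0 : ℂ) := by
  have h1 : Metric.ball (0 : ℂ) R ∈ 𝓝 (0 : ℂ) := Metric.ball_mem_nhds _ hR
  filter_upwards [mem_nhdsWithin_of_mem_nhds h1, self_mem_nhdsWithin] with z h2 h3
  exact ⟨norm_pos_iff.mpr h3, by simpa using h2⟩

/-- A bounded holomorphic function on a punctured disc is meromorphic at the puncture. -/
lemma meromorphicAt_of_bounded {u : ℂ → ℂ} {ε M : ℝ} (hε : 0 < ε)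
    (hu : ∀ z, 0 < ‖z‖ → ‖z‖ < ε → AnalyticAt ℂ u z) (hM : ∀ z, 0 < ‖z‖ → ‖z‖ < ε → ‖u z‖ ≤ M) :
    ∃ w : ℂ → ℂ, AnalyticAt ℂ w 0 ∧ ∀ z, z ≠ 0 → w z = u z := by
  have h1 : Metric.ball (0 : ℂ) ε ∈ 𝓝 (0 : ℂ) := Metric.ball_mem_nhds _ hε
  have hmem : ∀ z ∈ Metric.ball (0 : ℂ) ε \ {0}, 0 < ‖z‖ ∧ ‖z‖ < ε := by
    intro z hz
    refine ⟨norm_pos_iff.mpr hz.2, by simpa using hz.1⟩
  have h2 := differentiableOn_update_limUnder_of_bddAbove h1 (f := u)
    (fun z hz => (hu z (hmem z hz).1 (hmem z hz).2).differentiableAt.differentiableWithinAt) (by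
      refine ⟨M, ?_⟩
      rintro _ ⟨z, hz, rfl⟩
      exact hM z (hmem z hz).1 (hmem z hz).2)
  refine ⟨_, (h2.analyticAt h1), fun z hz => ?_⟩
  rw [Function.update_of_ne hz]

/-- **A theorem of Casorati–Weierstrass type.** -/
theorem meromorphicAt_of_omits {u : ℂ → ℂ} {ε : ℝ} (hε : 0 < ε)
    (hu : ∀ z, 0 < ‖z‖ → ‖z‖ < ε → AnalyticAt ℂ u z)
    (hom : ∀ c, ∃ δ : ℝ, 0 < δ ∧ ∀ z, 0 < ‖z‖ → ‖z‖ < δ → u z ≠ c) : MeromorphicAt u 0 := by
  set A : ℕ → Set ℂ := fun n => {z : ℂ | 0 < ‖z‖ ∧ ‖z‖ < ε / (n + 1)} with hA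
  have hεn : ∀ n : ℕ, 0 < ε / (n + 1) := fun n => by positivity
  have hεle : ∀ n : ℕ, ε / (n + 1) ≤ ε := fun n => by
    apply div_le_self hε.le
    have : (0 : ℝ) ≤ n := Nat.cast_nonneg n
    linarith
  have hAsub : ∀ n, ∀ z ∈ A n, 0 < ‖z‖ ∧ ‖z‖ < ε := fun n z hz =>
    ⟨hz.1, hz.2.trans_le (hεle n)⟩
  by_cases hdense : ∀ n, Dense (u '' A n)
  · exfalso
    have hopen : ∀ n, IsOpen (u '' A n) := by
      intro n
      have han : AnalyticOnNhd ℂ u (A n) := fun z hz => hu z (hAsub n z hz).1 (hAsub n z hz).2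
      rcases han.is_constant_or_isOpen (isPreconnected_punctured _) with ⟨w, hw⟩ | hop
      · exfalso
        obtain ⟨δ, hδ, hδu⟩ := hom w
        obtain ⟨z, hz1, hz2⟩ := Filter.nonempty_of_mem
          (Filter.inter_mem (punctured_mem (hεn n)) (punctured_mem hδ))
        exact hδu z hz2.1 hz2.2 (hw z hz1)
      · exact hop _ subset_rfl (isOpen_punctured _)
    have hD : Dense (⋂ n, u '' A n) := dense_iInter_of_isOpen hopen hdense
    obtain ⟨c, hc⟩ := hD.nonempty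
    rw [mem_iInter] at hc
    obtain ⟨δ, hδ, hδu⟩ := hom c
    obtain ⟨n, hn⟩ := exists_nat_gt (ε / δ)
    obtain ⟨z, hz, hzc⟩ := hc n
    refine hδu z hz.1 (hz.2.trans ?_) hzc
    rw [div_lt_iff₀ (by positivity)]
    rw [div_lt_iff₀ hδ] at hn
    nlinarith
  · push Not at hdense
    obtain ⟨n, hn⟩ := hdense
    obtain ⟨c, hc⟩ : ∃ c, c ∉ closure (u '' A n) := by
      by_contra h
      push Not at h
      exact hn h
    rw [Metric.mem_closure_iff] at hc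
    push Not at hc
    obtain ⟨η, hη, hηu⟩ := hc
    have hlow : ∀ z, 0 < ‖z‖ → ‖z‖ < ε / (n + 1) → η ≤ ‖u z - c‖ := by
      intro z h1 h2
      have := hηu _ ⟨z, ⟨h1, h2⟩, rfl⟩
      rwa [dist_comm, dist_eq_norm] at this
    have hne : ∀ z, 0 < ‖z‖ → ‖z‖ < ε / (n + 1) → u z - c ≠ 0 := by
      intro z h1 h2 h0
      have := hlow z h1 h2
      rw [h0, norm_zero] at this
      linarith
    obtain ⟨w, hw, hwu⟩ := meromorphicAt_of_bounded (u := fun z => (u z - c)⁻¹) (M := η⁻¹) (hεn n)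
      (fun z h1 h2 => ((hu z h1 (h2.trans_le (hεle n))).sub analyticAt_const).inv (hne z h1 h2))
      (fun z h1 h2 => by
        rw [norm_inv]
        exact inv_anti₀ hη (hlow z h1 h2))
    have h1 : MeromorphicAt (fun z => (w z)⁻¹ + c) 0 :=
      (hw.meromorphicAt.inv).add (MeromorphicAt.const c 0)
    refine h1.congr ?_
    filter_upwards [self_mem_nhdsWithin] with z hz
    rw [hwu z hz]
    simp

end Pool.Agent.H92.GGL

end

section

/-!
# MQ2 Ell: the function `ell` = `log |p|` with a cut-off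
-/

set_option autoImplicit false

open Topology Filter Metric

noncomputable section

namespace Pool.Agent.MQ2

private lemma Ell_pos {p : ℂ × ℂ} (hp : p ≠ 0) : 0 < ‖p.1‖ ^ 2 + ‖p.2‖ ^ 2 := by
  by_contra h
  have h1 : 0 ≤ ‖p.1‖ ^ 2 := sq_nonneg _
  have h2 : 0 ≤ ‖p.2‖ ^ 2 := sq_nonneg _
  have h3 : ‖p.1‖ ^ 2 = 0 := by linarith
  have h4 : ‖p.2‖ ^ 2 = 0 := by linarith
  apply hp
  refine Prod.ext ?_ ?_
  · simpa using pow_eq_zero_iff (two_ne_zero) |>.1 h3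
  · simpa using pow_eq_zero_iff (two_ne_zero) |>.1 h4

private lemma Ell_log_contDiffOn : ContDiffOn ℝ 2 (fun p : ℂ × ℂ => Real.log (‖p.1‖ ^ 2 + ‖p.2‖ ^ 2) / 2) {p | p ≠ 0} := by
  have h1 : ContDiff ℝ 2 (fun p : ℂ × ℂ => ‖p.1‖ ^ 2 + ‖p.2‖ ^ 2) :=
    (contDiff_fst.norm_sq ℝ).add (contDiff_snd.norm_sq ℝ)
  exact (h1.contDiffOn.log fun p hp => (Ell_pos hp).ne').div_const 2

/-- `H p = 1/2 log (|x|² + |y|²)` near `0`, `H p = 0` outside the ball of radius `t` -/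
theorem exists_ell {s : ℝ} (hs : 0 < s) : ∃ (ρ t C : ℝ) (H : ℂ × ℂ → ℝ), 0 < ρ ∧ ρ < t ∧ t < s ∧ 0 ≤ C ∧ ContDiffOn ℝ 2 H {p | p ≠ 0} ∧
    (∀ p : ℂ × ℂ, p ∉ ball (0 : ℂ × ℂ) t → H p = 0) ∧ (∀ p : ℂ × ℂ, p ≠ 0 → p ∈ ball (0 : ℂ × ℂ) ρ → H p = Real.log (‖p.1‖ ^ 2 + ‖p.2‖ ^ 2) / 2) ∧
    (∀ p : ℂ × ℂ, H p ≤ C) ∧ ∀ p : ℂ × ℂ, p ∉ ball (0 : ℂ × ℂ) (ρ / 2) → ‖fderiv ℝ H p‖ ≤ C ∧ |H p| ≤ C := by
  obtain ⟨b, hb1, hb2⟩ : ∃ b : ContDiffBump (0 : ℂ × ℂ), b.rIn = s / 4 ∧ b.rOut = s / 2 :=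
    ⟨⟨s / 4, s / 2, by positivity, by linarith⟩, rfl, rfl⟩
  obtain ⟨H, hH⟩ : ∃ H : ℂ × ℂ → ℝ, H = fun p => b p * (Real.log (‖p.1‖ ^ 2 + ‖p.2‖ ^ 2) / 2) := ⟨_, rfl⟩
  have hopen : IsOpen {p : ℂ × ℂ | p ≠ 0} := isOpen_ne
  have hsm : ContDiffOn ℝ 2 H {p | p ≠ 0} := by
    rw [hH]
    exact (b.contDiff.contDiffOn).mul Ell_log_contDiffOn
  have hout : ∀ p : ℂ × ℂ, p ∉ ball (0 : ℂ × ℂ) (s / 2) → H p = 0 := by
    intro p hp
    rw [mem_ball, not_lt] at hp
    rw [hH]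
    simp only
    rw [b.zero_of_le_dist (by rw [hb2]; exact hp), zero_mul]
  have hin : ∀ p : ℂ × ℂ, p ∈ ball (0 : ℂ × ℂ) (s / 4) → H p = Real.log (‖p.1‖ ^ 2 + ‖p.2‖ ^ 2) / 2 := by
    intro p hp
    rw [hH]
    simp only
    rw [b.one_of_mem_closedBall (by rw [hb1]; exact ball_subset_closedBall hp), one_mul]
  -- the compact ring
  have hK : IsCompact (closedBall (0 : ℂ × ℂ) (s / 2) \ ball (0 : ℂ × ℂ) (s / 4 / 2)) :=
    (isCompact_closedBall _ _).diff isOpen_ball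
  have hKne : closedBall (0 : ℂ × ℂ) (s / 2) \ ball (0 : ℂ × ℂ) (s / 4 / 2) ⊆ {p | p ≠ 0} := by
    intro p hp h0
    apply hp.2
    rw [h0]
    exact mem_ball_self (by positivity)
  obtain ⟨C₁, hC₁⟩ := hK.exists_bound_of_continuousOn ((hsm.continuousOn_fderiv_of_isOpen hopen (by norm_num)).mono hKne)
  obtain ⟨C₂, hC₂⟩ := hK.exists_bound_of_continuousOn (hsm.continuousOn.mono hKne)
  refine ⟨s / 4, s / 2, max (max C₁ C₂) (|Real.log (s ^ 2 / 2)| / 2), H, by positivity, by linarith, by linarith, ?_, hsm, hout,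
    fun p _ hp => hin p hp, ?_, ?_⟩
  · exact le_max_of_le_right (by positivity)
  · intro p
    refine le_max_of_le_right ?_
    by_cases hp : p ∈ ball (0 : ℂ × ℂ) (s / 2)
    · by_cases hp0 : p = 0
      · rw [hH, hp0]
        simp
        positivity
      · rw [mem_ball, dist_zero_right] at hp
        have h1 : ‖p.1‖ ≤ s / 2 := (norm_fst_le p).trans hp.le
        have h2 : ‖p.2‖ ≤ s / 2 := (norm_snd_le p).trans hp.le
        have h3 : ‖p.1‖ ^ 2 + ‖p.2‖ ^ 2 ≤ s ^ 2 / 2 := by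
          have h4 := pow_le_pow_left₀ (norm_nonneg p.1) h1 2
          have h5 := pow_le_pow_left₀ (norm_nonneg p.2) h2 2
          nlinarith
        have h6 : Real.log (‖p.1‖ ^ 2 + ‖p.2‖ ^ 2) ≤ |Real.log (s ^ 2 / 2)| :=
          (Real.log_le_log (Ell_pos hp0) h3).trans (le_abs_self _)
        rw [hH]
        simp only
        have h7 : 0 ≤ b p := b.nonneg
        have h8 : b p ≤ 1 := b.le_one
        have h9 : b p * (Real.log (‖p.1‖ ^ 2 + ‖p.2‖ ^ 2) / 2) ≤ b p * (|Real.log (s ^ 2 / 2)| / 2) :=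
          mul_le_mul_of_nonneg_left (by linarith) h7
        have h10 : b p * (|Real.log (s ^ 2 / 2)| / 2) ≤ 1 * (|Real.log (s ^ 2 / 2)| / 2) :=
          mul_le_mul_of_nonneg_right h8 (by positivity)
        linarith
    · rw [hout p hp]
      positivity
  · intro p hp
    by_cases hp2 : p ∈ closedBall (0 : ℂ × ℂ) (s / 2)
    · refine ⟨(hC₁ p ⟨hp2, hp⟩).trans ((le_max_left _ _).trans (le_max_left _ _)), ?_⟩
      have := hC₂ p ⟨hp2, hp⟩
      rw [Real.norm_eq_abs] at this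
      exact this.trans ((le_max_right _ _).trans (le_max_left _ _))
    · have h0 : H =ᶠ[𝓝 p] fun _ => 0 := by
        filter_upwards [isClosed_closedBall.isOpen_compl.mem_nhds hp2] with q hq
        exact hout q fun h => hq (ball_subset_closedBall h)
      rw [h0.fderiv_eq, h0.eq_of_nhds]
      simp only [fderiv_fun_const, Pi.zero_apply, norm_zero, abs_zero, and_self]
      exact le_max_of_le_right (by positivity)

/-- near the exceptional line `H = log |x| + 1/2 log (1 + |y/x|²)` -/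
theorem log_p_eq {p : ℂ → ℂ × ℂ} {z : ℂ} {f : ℂ} (h1 : (p z).1 ≠ 0) (h2 : (p z).2 = (p z).1 * f) :
    Real.log (‖(p z).1‖ ^ 2 + ‖(p z).2‖ ^ 2) / 2 = Real.log ‖(p z).1‖ + Real.log (1 + ‖f‖ ^ 2) / 2 := by
  have h3 : ‖(p z).1‖ ^ 2 + ‖(p z).2‖ ^ 2 = ‖(p z).1‖ ^ 2 * (1 + ‖f‖ ^ 2) := by
    rw [h2, norm_mul]
    ring
  have h4 : 0 < ‖(p z).1‖ := norm_pos_iff.2 h1
  rw [h3, Real.log_mul (by positivity) (by positivity), Real.log_pow]
  push_cast
  ring

end Pool.Agent.MQ2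

end
end

section

/-!
# SB Defs: reduction of singularities of germs of plane vector fields (Seidenberg), formal side

A germ of a vector field is a pair `(a, b)` of formal power series in two variables `x = X 0`, `y = X 1` (`v x = a`, `v y = b`).
Blow-up at the direction `(1 : t)`: coordinates `x, y` with old `y = x (y + t)`.
-/

set_option autoImplicit false

open MvPowerSeries

noncomputable section

namespace Pool.Agent.SB

/-- formal power series in `x = X 0`, `y = X 1` -/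
abbrev R2 := MvPowerSeries (Fin 2) ℂ

/-- the exponent `(i, j)` -/
def ex (i j : ℕ) : Fin 2 →₀ ℕ := Finsupp.single 0 i + Finsupp.single 1 j

/-- the coefficient of `x ^ i y ^ j` -/
def cf (a : R2) (i j : ℕ) : ℂ := coeff (ex i j) a

theorem hasSubst_bl (t : ℂ) : HasSubst (S := ℂ) (![X 0, X 0 * (X 1 + C t)] : Fin 2 → R2) :=
  hasSubst_of_constantCoeff_zero fun i => by fin_cases i <;> simp

/-- `f (x, y) ↦ f (x, x (y + t))` -/
def bl (t : ℂ) : R2 →ₐ[ℂ] R2 := substAlgHom (hasSubst_bl t)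

/-- `f (x, y) ↦ f (y, x)` -/
def sw : R2 ≃ₐ[ℂ] R2 := renameEquiv ℂ (Equiv.swap 0 1)

/-- finite intersection multiplicity -/
def Fin2 (a b : R2) : Prop := Module.Finite ℂ (R2 ⧸ Ideal.span {a, b})

/-- the intersection multiplicity -/
def mu (a b : R2) : ℕ := Module.finrank ℂ (R2 ⧸ Ideal.span {a, b})

/-- order at least `l` -/
def Ord (l : ℕ) (a : R2) : Prop := ∀ i j, i + j < l → cf a i j = 0

/-- `(a₁, b₁)` is the saturated transform of `(a, b)` at the point `t` of the exceptional line -/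
def Child (t : ℂ) (a b a₁ b₁ : R2) : Prop :=
  ∃ e : ℕ, X 0 ^ e * a₁ = bl t a ∧ X 0 ^ (e + 1) * b₁ = bl t b - (X 1 + C t) * bl t a ∧ ¬ (X 0 ∣ a₁ ∧ X 0 ∣ b₁)

/-- the linear part at `0` -/
def tr (a b : R2) : ℂ := cf a 1 0 + cf b 0 1

def dt (a b : R2) : ℂ := cf a 1 0 * cf b 0 1 - cf a 0 1 * cf b 1 0

/-- elementary and reduced: eigenvalues `λ ≠ 0` and `κ`, with `κ / λ` not a positive rational number -/
def Elem (a b : R2) : Prop :=
  cf a 0 0 = 0 ∧ cf b 0 0 = 0 ∧ ∃ l k : ℂ, l + k = tr a b ∧ l * k = dt a b ∧ l ≠ 0 ∧ ∀ p q : ℕ, 0 < p → 0 < q → (p : ℂ) * l ≠ q * k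

/-- reducible by finitely many blow-ups -/
inductive Red : R2 → R2 → Prop
  | reg (a b : R2) : (cf a 0 0 ≠ 0 ∨ cf b 0 0 ≠ 0) → Red a b
  | elem (a b : R2) : Elem a b → Red a b
  | blow (a b : R2) : (∀ t a₁ b₁, Child t a b a₁ b₁ → Red a₁ b₁) → (∀ a₁ b₁, Child 0 (sw b) (sw a) a₁ b₁ → Red a₁ b₁) → Red a b

end Pool.Agent.SB

end
end
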