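import Mathlib

/-! The parts of this file: H17BP.NF, H36.TB.Defs, H68.KR.HZ, MQ.Frame, MQ2.BB0, MQ3.LiftDefs. -/

section

/-!
# The normal form of a germ of order `k + 1` in the second variable

`IsNF k c W`: `W = ∑_{j < k} c_j(x) y^j + y^(k+1) U` with `U` a unit (no term `y^k`).

`exists_taylor`: induction on `m`: `φ (x, y) - φ (x, 0)` is divisible by `y` (`exists_div_y`), `c_0 x = φ (x, 0)`.

`exists_nf`.  Let `φ (0, y)` have order `k + 1` at `y = 0`.  Let `G = dy (dy … φ)` (`k` times), analytic at `0`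
(`analyticAt_dy`).  The restriction of `G` to `x = 0` is the `k`-th derivative of `y ↦ φ (0, y)`, so `G 0 = 0` and
`dy G 0 = (k+1)-th derivative = (k+1)! * (leading coefficient) ≠ 0`.  `exists_root`: `G (x, ρ x) = 0`, `ρ 0 = 0`.
Let `φ' (x, y) = φ (x, y + ρ x)`; `∂_y^k φ' (x, 0) = G (x, ρ x) = 0`.  `exists_taylor` with `m = k + 1` for `φ'`:
`φ' = ∑_{j ≤ k} c_j(x) y^j + y^(k+1) U`, and `k! c_k(x) = ∂_y^k φ' (x, 0) = 0`, so `c_k = 0` near `0`.
`c_j 0 = 0` for `j < k` and `U 0 ≠ 0` because `φ' (0, y) = φ (0, y)` (as `ρ 0 = 0`) has order exactly `k + 1`.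
(One can avoid iterated derivatives: apply `exists_taylor` to `Φ (x, s, …)`; any proof is fine. A possible one:
write `φ = ∑_{j ≤ k} a_j(x) y^j + y^(k+1) V`, and note that the coefficient of `y^k` of `φ (x, y + s)` is
`A (x, s) = ∑_j a_j(x) C(j,k) s^(j-k) + …` — it is an analytic function of `(x, s)` with `A (0, 0) = 0` and
`∂_s A (0, 0) = (k+1) V(0, 0) ≠ 0`.)
-/

open Topology Filter

noncomputable section

namespace Pool.Agent.H17BP

/-- `W = ∑_{j < k} c_j(x) y^j + y^(k+1) U`, the `c_j` vanish at `0`, `U` is a unit. -/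
def IsNF (k : ℕ) (c : ℕ → ℂ → ℂ) (W : ℂ × ℂ → ℂ) : Prop :=
  (∀ j < k, AnalyticAt ℂ (c j) 0 ∧ c j 0 = 0) ∧ ∃ U : ℂ × ℂ → ℂ, AnalyticAt ℂ U 0 ∧ U 0 ≠ 0 ∧
    ∀ᶠ x in 𝓝 (0 : ℂ × ℂ), W x = ∑ j ∈ Finset.range k, c j x.1 * x.2 ^ j + x.2 ^ (k + 1) * U x

/-- The `n`-th derivative at `0` reads off the coefficient. -/
theorem NF_coef (n : ℕ) : ∀ (c : ℕ → ℂ) (v h : ℂ → ℂ), AnalyticAt ℂ v 0 →
    (∀ᶠ y in 𝓝 (0 : ℂ), h y = ∑ j ∈ Finset.range n, c j * y ^ j + y ^ n * v y) →
    iteratedDeriv n h 0 = (n.factorial : ℂ) * v 0 := by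
  induction n with
  | zero =>
    intro c v h _ he
    have h1 := he.self_of_nhds
    rw [Finset.sum_range_zero, pow_zero, one_mul, zero_add] at h1
    rw [iteratedDeriv_zero, Nat.factorial_zero, Nat.cast_one, one_mul]
    exact h1
  | succ n ih =>
    intro c v h hv he
    rw [iteratedDeriv_succ']
    have hw : AnalyticAt ℂ (fun y => ((n + 1 : ℕ) : ℂ) * v y + y * deriv v y) 0 :=
      (analyticAt_const.mul hv).add (analyticAt_id.mul hv.deriv)
    have key := ih (fun j => ((j + 1 : ℕ) : ℂ) * c (j + 1)) (fun y => ((n + 1 : ℕ) : ℂ) * v y + y * deriv v y)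
      (deriv h) hw ?_
    · rw [key]
      simp only [zero_mul, add_zero]
      rw [Nat.factorial_succ]
      push_cast
      ring
    · filter_upwards [he.eventually_nhds, hv.eventually_analyticAt] with y hy hvy
      have hd : HasDerivAt (fun y => ∑ j ∈ Finset.range (n + 1), c j * y ^ j + y ^ (n + 1) * v y)
          (∑ j ∈ Finset.range (n + 1), c j * ((j : ℂ) * y ^ (j - 1)) +
            (((n + 1 : ℕ) : ℂ) * y ^ (n + 1 - 1) * v y + y ^ (n + 1) * deriv v y)) y := by
        refine HasDerivAt.add ?_ ?_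
        · refine HasDerivAt.fun_sum fun j _ => ?_
          exact (hasDerivAt_pow j y).const_mul (c j)
        · exact (hasDerivAt_pow (n + 1) y).mul hvy.differentiableAt.hasDerivAt
      have hd' : deriv h y = _ := (Filter.EventuallyEq.deriv_eq (f₁ := h) hy).trans hd.deriv
      rw [hd', Finset.sum_range_succ', Nat.cast_zero, zero_mul, mul_zero, add_zero, Nat.add_sub_cancel]
      have e1 : ∑ j ∈ Finset.range n, c (j + 1) * (((j + 1 : ℕ) : ℂ) * y ^ (j + 1 - 1)) =
          ∑ j ∈ Finset.range n, ((j + 1 : ℕ) : ℂ) * c (j + 1) * y ^ j := by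
        refine Finset.sum_congr rfl fun j _ => ?_
        rw [Nat.add_sub_cancel]
        ring
      rw [e1]
      ring

theorem NF_coef' (m j : ℕ) (hj : j < m) (c : ℕ → ℂ) (u h : ℂ → ℂ) (hu : AnalyticAt ℂ u 0)
    (he : ∀ᶠ y in 𝓝 (0 : ℂ), h y = ∑ i ∈ Finset.range m, c i * y ^ i + y ^ m * u y) :
    iteratedDeriv j h 0 = (j.factorial : ℂ) * c j := by
  obtain ⟨t, rfl⟩ : ∃ t, m = j + (t + 1) := ⟨m - j - 1, by omega⟩
  have hv : AnalyticAt ℂ (fun y => ∑ i ∈ Finset.range (t + 1), c (j + i) * y ^ i + y ^ (t + 1) * u y) 0 := by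
    refine AnalyticAt.add ?_ ((analyticAt_id.pow (t + 1)).mul hu)
    exact Finset.analyticAt_fun_sum _ fun i _ => analyticAt_const.mul (analyticAt_id.pow i)
  have key := NF_coef j c (fun y => ∑ i ∈ Finset.range (t + 1), c (j + i) * y ^ i + y ^ (t + 1) * u y) h hv ?_
  · rw [key]
    congr 1
    rw [zero_pow (Nat.succ_ne_zero t), zero_mul, add_zero, Finset.sum_range_succ', pow_zero, mul_one, add_zero]
    rw [Finset.sum_eq_zero (fun i _ => by rw [zero_pow (Nat.succ_ne_zero i), mul_zero]), zero_add]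
  · filter_upwards [he] with y hy
    have e1 : ∑ i ∈ Finset.range (t + 1), c (j + i) * y ^ (j + i) =
        y ^ j * ∑ i ∈ Finset.range (t + 1), c (j + i) * y ^ i := by
      rw [Finset.mul_sum]
      refine Finset.sum_congr rfl fun i _ => ?_
      rw [pow_add]
      ring
    rw [hy, Finset.sum_range_add, e1, pow_add]
    ring

end Pool.Agent.H17BP

end
end

section

/-!
# TB Defs: two-sided bounds of the metric

`oC Ω σ p` is the coefficient of the form in the parametrisation `σ`, `sm κ p w` the model of the metric near a smooth point of `T = {s = 0}`,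
where `p = (s, t)`: the maximum of `‖s'‖` and `‖s‖ ^ (1 - κ) * ‖t'‖`.

`EnergyB`: the energy `g` with
* the unreduced weight `pn`, a continuous function, homogeneous of degree `D₁` (`D₁ = 2 ^ (number of the blow-ups)`), `pn = ‖·‖` in the nodal case,
  `pn = pn' ∘ phi l` for a blow-up;
* the curvature with respect to this weight, with the exponent `θ * j / (m * D₁)`;
* the upper bound `ub`, along every entire curve, by the coefficient of the form and `pn ^ (j / (m * D₁))`.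

`TBAt`: the two-sided bound of the metric at a point `x` where `T` is smooth.
-/

set_option autoImplicit false

open Topology Filter Metric

namespace Pool.Agent.H36.TB

/-- the coefficient of the form in the parametrisation `σ` -/
noncomputable def oC {V : Type} [NormedAddCommGroup V] [NormedSpace ℂ V] (Ω : V → V → V → ℂ) (σ : ℂ × ℂ → V) (p : ℂ × ℂ) : ℂ :=
  Ω (σ p) (fderiv ℂ σ p (1, 0)) (fderiv ℂ σ p (0, 1))

/-- the model of the metric at a smooth point of the curve -/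
noncomputable def sm (κ : ℝ) (p w : ℂ × ℂ) : ℝ := max ‖w.1‖ (‖p.1‖ ^ (1 - κ) * ‖w.2‖)

end Pool.Agent.H36.TB

end

section

/-!
# KR HZ: homogenisation with respect to a variable

`hmz l n G = ∑_{d ≤ n} X_l^(n-d) G_d`, `G_d` the homogeneous component.

Proofs.
* `hmz_isHomogeneous`: `X_l^(n-d)` has degree `n - d`, `G_d` degree `d` (`homogeneousComponent_isHomogeneous`,
  `isHomogeneous_X_pow`, `IsHomogeneous.mul`, `IsHomogeneous.sum`).
* `eval₂_of_isHomogeneous`: `Q (c y) = c^d Q (y)`: expand `eval₂_eq`, for every monomial in the support the sum of the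
  exponents is `d` (compare the proof in `Pt.lean`).
* `eval₂_hmz`: for every `d`: `G_d (y) = y_l^d G_d (y / y_l)`, so `y_l^(n-d) G_d (y) = y_l^n G_d (y / y_l)` (`d ≤ n`), and
  `∑_{d ≤ n} G_d = G` (`sum_homogeneousComponent`, the components of degree `> totalDegree` vanish).
-/

set_option autoImplicit false

open MvPolynomial

noncomputable section

namespace Pool.Agent.H68.KR

variable {m : ℕ}

/-- The homogenisation of `G` in degree `n` with respect to the variable `X l`. -/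
def hmz (l : Fin m) (n : ℕ) (G : MvPolynomial (Fin m) ℂ) : MvPolynomial (Fin m) ℂ :=
  ∑ d ∈ Finset.range (n + 1), X l ^ (n - d) * homogeneousComponent d G

theorem hmz_isHomogeneous (l : Fin m) (n : ℕ) (G : MvPolynomial (Fin m) ℂ) :
    (hmz l n G).IsHomogeneous n := by
  unfold hmz
  apply MvPolynomial.IsHomogeneous.sum
  intro d hd
  have h1 : d ≤ n := Nat.lt_succ_iff.1 (Finset.mem_range.1 hd)
  have h2 := (MvPolynomial.isHomogeneous_X_pow (R := ℂ) l (n - d)).mul
    (MvPolynomial.homogeneousComponent_isHomogeneous d G)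
  rwa [Nat.sub_add_cancel h1] at h2

/-- Scaling of a homogeneous polynomial. -/
theorem eval₂_of_isHomogeneous {F : Type} [Field F] (ι : ℂ →+* F) {d : ℕ} {Q : MvPolynomial (Fin m) ℂ}
    (hQ : Q.IsHomogeneous d) (c : F) (y : Fin m → F) :
    eval₂ ι (fun i => c * y i) Q = c ^ d * eval₂ ι y Q := by
  rw [eval₂_eq, eval₂_eq, Finset.mul_sum]
  refine Finset.sum_congr rfl fun m hm => ?_
  have h5 : ∑ i ∈ m.support, m i = d := by
    have := hQ (mem_support_iff.1 hm)
    rw [Finsupp.weight_apply, Finsupp.sum] at this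
    simpa using this
  simp only [mul_pow, Finset.prod_mul_distrib]
  rw [Finset.prod_pow_eq_pow_sum, h5]
  ring

theorem eval₂_hmz {F : Type} [Field F] (ι : ℂ →+* F) {l : Fin m} {n : ℕ} {G : MvPolynomial (Fin m) ℂ}
    (hn : G.totalDegree ≤ n) {y : Fin m → F} (hy : y l ≠ 0) :
    eval₂ ι y (hmz l n G) = y l ^ n * eval₂ ι (fun i => y i / y l) G := by
  have h1 : G = ∑ d ∈ Finset.range (n + 1), homogeneousComponent d G := by
    conv_lhs => rw [← MvPolynomial.sum_homogeneousComponent G]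
    apply Finset.sum_subset
    · intro d hd
      rw [Finset.mem_range] at hd ⊢
      omega
    · intro d _ hd
      apply MvPolynomial.homogeneousComponent_eq_zero
      rw [Finset.mem_range] at hd
      omega
  have h2 : eval₂ ι (fun i => y i / y l) G =
      ∑ d ∈ Finset.range (n + 1), eval₂ ι (fun i => y i / y l) (homogeneousComponent d G) := by
    conv_lhs => rw [h1]
    exact MvPolynomial.eval₂_sum _ _ _ _
  have h3 : eval₂ ι y (hmz l n G) =
      ∑ d ∈ Finset.range (n + 1), eval₂ ι y (X l ^ (n - d) * homogeneousComponent d G) :=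
    MvPolynomial.eval₂_sum _ _ _ _
  rw [h2, h3, Finset.mul_sum]
  refine Finset.sum_congr rfl fun d hd => ?_
  have h4 : d ≤ n := Nat.lt_succ_iff.1 (Finset.mem_range.1 hd)
  have h5 := eval₂_of_isHomogeneous ι (MvPolynomial.homogeneousComponent_isHomogeneous d G) (y l)
    (fun i => y i / y l)
  have h6 : (fun i => y l * (y i / y l)) = y := by
    funext i
    field_simp
  rw [h6] at h5
  rw [eval₂_mul, eval₂_pow, eval₂_X, h5, ← mul_assoc, ← pow_add, Nat.sub_add_cancel h4]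

end Pool.Agent.H68.KR

end
end

section

/-!
# MQ Frame: the curve in a box, in one variable

`Crv1 v r Om g`: holomorphic coordinates `g` of a curve on the open set `Om`, with values in the polydisc of radius `r`, tangent to the vector field `v`.
`ztv` is `ζ'`, `DDv` is `DD`, `LocalN1` is `LocalN`.
-/

set_option autoImplicit false

open Topology Filter Metric MeasureTheory

noncomputable section

namespace Pool.Agent.MQ

/-- the curve in a box, in one variable -/
structure Crv1 (v : ℂ × ℂ → ℂ × ℂ) (r : ℝ) (Om : Set ℂ) (g : ℂ → ℂ × ℂ) : Prop where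
  isOpen : IsOpen Om
  an : ∀ z ∈ Om, AnalyticAt ℂ g z
  mem : ∀ z ∈ Om, g z ∈ ball (0 : ℂ × ℂ) r
  closed : ∀ s < r, IsClosed {z | z ∈ Om ∧ g z ∈ closedBall (0 : ℂ × ℂ) s}
  ode : ∀ z ∈ Om, (v (g z)).1 * (deriv g z).2 - (v (g z)).2 * (deriv g z).1 = 0

open Classical in
/-- `g' = ζ' v (g)` -/
def ztv (v : ℂ × ℂ → ℂ × ℂ) (g : ℂ → ℂ × ℂ) (z : ℂ) : ℂ :=
  if (v (g z)).2 = 0 then (deriv g z).1 / (v (g z)).1 else (deriv g z).2 / (v (g z)).2

variable {v : ℂ × ℂ → ℂ × ℂ} {r : ℝ} {Om : Set ℂ} {g : ℂ → ℂ × ℂ}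

theorem Crv1.ztv_fst (h : Crv1 v r Om g) {z : ℂ} (hz : z ∈ Om) (h1 : (v (g z)).1 ≠ 0) : ztv v g z = (deriv g z).1 / (v (g z)).1 := by
  classical
  unfold ztv
  split_ifs with h2
  · rfl
  · rw [div_eq_div_iff h2 h1]
    have := h.ode z hz
    linear_combination this

theorem ztv_snd {z : ℂ} (h1 : (v (g z)).2 ≠ 0) : ztv v g z = (deriv g z).2 / (v (g z)).2 := by
  classical
  unfold ztv
  rw [if_neg h1]

theorem Crv1.deriv_fst (h : Crv1 v r Om g) {z : ℂ} (hz : z ∈ Om) (h1 : v (g z) ≠ 0) : (deriv g z).1 = ztv v g z * (v (g z)).1 := by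
  by_cases h2 : (v (g z)).1 = 0
  · have h3 : (v (g z)).2 ≠ 0 := fun h3 => h1 (Prod.ext h2 h3)
    have h4 := h.ode z hz
    rw [h2, zero_mul, zero_sub, neg_eq_zero, mul_eq_zero] at h4
    rcases h4 with h4 | h4
    · exact absurd h4 h3
    · rw [h2, mul_zero, h4]
  · rw [h.ztv_fst hz h2, div_mul_cancel₀ _ h2]

theorem Crv1.deriv_snd (h : Crv1 v r Om g) {z : ℂ} (hz : z ∈ Om) (h1 : v (g z) ≠ 0) : (deriv g z).2 = ztv v g z * (v (g z)).2 := by
  by_cases h2 : (v (g z)).2 = 0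
  · have h3 : (v (g z)).1 ≠ 0 := fun h3 => h1 (Prod.ext h3 h2)
    have h4 := h.ode z hz
    rw [h2, zero_mul, sub_zero, mul_eq_zero] at h4
    rcases h4 with h4 | h4
    · exact absurd h4 h3
    · rw [h2, mul_zero, h4]
  · rw [ztv_snd h2, div_mul_cancel₀ _ h2]

theorem an_fst {g : ℂ → ℂ × ℂ} {z : ℂ} (h : AnalyticAt ℂ g z) : AnalyticAt ℂ (fun w => (g w).1) z := analyticAt_fst.comp h

theorem an_snd {g : ℂ → ℂ × ℂ} {z : ℂ} (h : AnalyticAt ℂ g z) : AnalyticAt ℂ (fun w => (g w).2) z := analyticAt_snd.comp h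

theorem deriv_fst' {z : ℂ} (h : DifferentiableAt ℂ g z) : deriv (fun w => (g w).1) z = (deriv g z).1 :=
  ((ContinuousLinearMap.fst ℂ ℂ ℂ).hasFDerivAt.comp_hasDerivAt z h.hasDerivAt).deriv

theorem deriv_snd' {z : ℂ} (h : DifferentiableAt ℂ g z) : deriv (fun w => (g w).2) z = (deriv g z).2 :=
  ((ContinuousLinearMap.snd ℂ ℂ ℂ).hasFDerivAt.comp_hasDerivAt z h.hasDerivAt).deriv

/-- `ζ'` is analytic off the zeros of `v` -/
theorem Crv1.an_ztv (h : Crv1 v r Om g) {z : ℂ} (hz : z ∈ Om) (hv : AnalyticAt ℂ v (g z)) (h1 : v (g z) ≠ 0) : AnalyticAt ℂ (ztv v g) z := by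
  have hg := h.an z hz
  have hvg : AnalyticAt ℂ (fun w => v (g w)) z := hv.comp hg
  by_cases h2 : (v (g z)).2 = 0
  · have h3 : (v (g z)).1 ≠ 0 := fun h3 => h1 (Prod.ext h3 h2)
    have h4 : (fun w => (deriv g w).1 / (v (g w)).1) =ᶠ[𝓝 z] ztv v g := by
      filter_upwards [h.isOpen.mem_nhds hz, (an_fst hvg).continuousAt.eventually_ne h3] with w hw hw2
      exact (h.ztv_fst hw hw2).symm
    exact ((an_fst hg.deriv).div (an_fst hvg) h3).congr h4
  · have h4 : (fun w => (deriv g w).2 / (v (g w)).2) =ᶠ[𝓝 z] ztv v g := by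
      filter_upwards [(an_snd hvg).continuousAt.eventually_ne h2] with w hw2
      exact (ztv_snd hw2).symm
    exact ((an_snd hg.deriv).div (an_snd hvg) h2).congr h4

end Pool.Agent.MQ

end
end

section

/-!
# MQ2 BB0: the equation `x u' + μ u = g` on a disc
-/

set_option autoImplicit false

open Topology Filter Metric Set MeasureTheory

noncomputable section

namespace Pool.Agent.MQ2

/-- the solution of `x u' + μ u = g` -/
def Top (μ : ℂ) (g : ℂ → ℂ) (x : ℂ) : ℂ := ∫ t in (0:ℝ)..1, (t : ℂ) ^ (μ - 1) * g (t * x)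

variable {μ : ℂ} {g h : ℂ → ℂ} {r C : ℝ} {x : ℂ}

lemma norm_cpow_le (hμ : 2 ≤ μ.re) {t : ℝ} (ht : t ∈ Ioc (0:ℝ) 1) : ‖(t : ℂ) ^ (μ - 1)‖ ≤ 1 := by
  rw [Complex.norm_cpow_eq_rpow_re_of_pos ht.1]
  apply Real.rpow_le_one ht.1.le ht.2
  rw [Complex.sub_re, Complex.one_re]; linarith

lemma mul_mem_ball (hx : x ∈ ball (0:ℂ) r) {t : ℝ} (ht : t ∈ Icc (0:ℝ) 1) : (t : ℂ) * x ∈ ball (0:ℂ) r := by
  rw [mem_ball_zero_iff] at hx ⊢
  rw [norm_mul, Complex.norm_real, Real.norm_eq_abs, abs_of_nonneg ht.1]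
  calc t * ‖x‖ ≤ 1 * ‖x‖ := by gcongr; exact ht.2
    _ = ‖x‖ := one_mul _
    _ < r := hx

lemma top_bound (hμ : 2 ≤ μ.re) (hC : ∀ w ∈ ball (0:ℂ) r, ‖g w‖ ≤ C) (hx : x ∈ ball (0:ℂ) r) : ‖Top μ g x‖ ≤ C := by
  have h0 : (0:ℝ) ≤ C := (norm_nonneg _).trans (hC x hx)
  have := intervalIntegral.norm_integral_le_of_norm_le_const (a := 0) (b := 1) (C := C)
    (f := fun t : ℝ => (t : ℂ) ^ (μ - 1) * g (t * x)) (fun t ht => by
      rw [uIoc_of_le zero_le_one] at ht
      rw [norm_mul]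
      calc ‖(t : ℂ) ^ (μ - 1)‖ * ‖g (t * x)‖ ≤ 1 * C := by
            gcongr
            · exact norm_cpow_le hμ ht
            · exact hC _ (mul_mem_ball hx ⟨ht.1.le, ht.2⟩)
        _ = C := one_mul _)
  simpa [Top] using this

lemma top_cont (hμ : 2 ≤ μ.re) (hg : ContinuousOn g (ball (0:ℂ) r)) (hx : x ∈ ball (0:ℂ) r) :
    ContinuousOn (fun t : ℝ => (t : ℂ) ^ (μ - 1) * g (t * x)) (Icc 0 1) := by
  have h1 : Continuous fun t : ℝ => (t : ℂ) ^ (μ - 1) := by
    apply Complex.continuous_ofReal_cpow_const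
    rw [Complex.sub_re, Complex.one_re]; linarith
  refine h1.continuousOn.mul ?_
  exact hg.comp (by fun_prop) (fun t ht => mul_mem_ball hx ht)

lemma top_int (hμ : 2 ≤ μ.re) (hg : ContinuousOn g (ball (0:ℂ) r)) (hx : x ∈ ball (0:ℂ) r) :
    IntervalIntegrable (fun t : ℝ => (t : ℂ) ^ (μ - 1) * g (t * x)) volume 0 1 := by
  apply ContinuousOn.intervalIntegrable
  rw [uIcc_of_le zero_le_one]
  exact top_cont hμ hg hx

lemma top_sub (hμ : 2 ≤ μ.re) (hg : ContinuousOn g (ball (0:ℂ) r)) (hh : ContinuousOn h (ball (0:ℂ) r)) (hx : x ∈ ball (0:ℂ) r) :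
    Top μ g x - Top μ h x = Top μ (fun w => g w - h w) x := by
  unfold Top
  rw [← intervalIntegral.integral_sub (top_int hμ hg hx) (top_int hμ hh hx)]
  congr 1; ext t; ring

lemma top_hasDeriv (hμ : 2 ≤ μ.re) (hg : DifferentiableOn ℂ g (ball (0:ℂ) r)) (hx : x ∈ ball (0:ℂ) r) :
    IntervalIntegrable (fun t : ℝ => (t : ℂ) ^ (μ - 1) * (deriv g (t * x) * t)) volume 0 1 ∧
    HasDerivAt (Top μ g) (∫ t in (0:ℝ)..1, (t : ℂ) ^ (μ - 1) * (deriv g (t * x) * t)) x := by
  have hx' := hx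
  rw [mem_ball_zero_iff] at hx'
  obtain ⟨r', h1, h2⟩ := exists_between hx'
  have hsub : closedBall (0:ℂ) r' ⊆ ball (0:ℂ) r := closedBall_subset_ball h2
  have hdg : ContinuousOn (deriv g) (ball (0:ℂ) r) := (hg.deriv isOpen_ball).continuousOn
  obtain ⟨M, hM⟩ := (isCompact_closedBall (0:ℂ) r').exists_bound_of_continuousOn (hdg.mono hsub)
  have hc1 : Continuous fun t : ℝ => (t : ℂ) ^ (μ - 1) := by
    apply Complex.continuous_ofReal_cpow_const
    rw [Complex.sub_re, Complex.one_re]; linarith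
  apply intervalIntegral.hasDerivAt_integral_of_dominated_loc_of_deriv_le (s := ball (0:ℂ) r') (bound := fun _ => M)
    (F := fun (w : ℂ) (t : ℝ) => (t : ℂ) ^ (μ - 1) * g (t * w)) (F' := fun (w : ℂ) (t : ℝ) => (t : ℂ) ^ (μ - 1) * (deriv g (t * w) * t))
  · exact isOpen_ball.mem_nhds (by rwa [mem_ball_zero_iff])
  · filter_upwards [isOpen_ball.mem_nhds (show x ∈ ball (0:ℂ) r from hx)] with w hw
    rw [uIoc_of_le zero_le_one]
    exact (top_int hμ hg.continuousOn hw).1.aestronglyMeasurable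
  · exact top_int hμ hg.continuousOn hx
  · apply ContinuousOn.aestronglyMeasurable _ measurableSet_uIoc
    rw [uIoc_of_le zero_le_one]
    refine ContinuousOn.mono ?_ Ioc_subset_Icc_self
    refine hc1.continuousOn.mul (ContinuousOn.mul ?_ (by fun_prop))
    exact hdg.comp (by fun_prop) (fun t ht => mul_mem_ball hx ht)
  · refine Eventually.of_forall fun t ht w hw => ?_
    rw [uIoc_of_le zero_le_one] at ht
    have ht' : t ∈ Icc (0:ℝ) 1 := ⟨ht.1.le, ht.2⟩
    rw [norm_mul, norm_mul]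
    have e1 := norm_cpow_le hμ ht
    have e2 := hM _ (ball_subset_closedBall (mul_mem_ball hw ht'))
    have e3 : ‖(t:ℂ)‖ ≤ 1 := by rw [Complex.norm_real, Real.norm_eq_abs, abs_of_pos ht.1]; exact ht.2
    have hM0 : 0 ≤ M := (norm_nonneg _).trans e2
    calc ‖(t : ℂ) ^ (μ - 1)‖ * (‖deriv g (t * w)‖ * ‖(t:ℂ)‖) ≤ 1 * (M * 1) := by gcongr
      _ = M := by ring
  · exact intervalIntegrable_const
  · refine Eventually.of_forall fun t ht w hw => ?_
    rw [uIoc_of_le zero_le_one] at ht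
    have ht' : t ∈ Icc (0:ℝ) 1 := ⟨ht.1.le, ht.2⟩
    have hw' : (t:ℂ) * w ∈ ball (0:ℂ) r := hsub (ball_subset_closedBall (mul_mem_ball hw ht'))
    have hd : HasDerivAt g (deriv g (t * w)) (t * w) := (hg.differentiableAt (isOpen_ball.mem_nhds hw')).hasDerivAt
    have hl : HasDerivAt (fun w : ℂ => (t:ℂ) * w) (t:ℂ) w := by
      simpa using (hasDerivAt_id w).const_mul (t:ℂ)
    exact (hd.comp w hl).const_mul _

lemma top_eq (hμ : 2 ≤ μ.re) (hg : DifferentiableOn ℂ g (ball (0:ℂ) r)) (hx : x ∈ ball (0:ℂ) r) :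
    x * deriv (Top μ g) x = g x - μ * Top μ g x := by
  obtain ⟨hi, hd⟩ := top_hasDeriv hμ hg hx
  rw [hd.deriv]
  have hμ0 : μ ≠ 0 := by rintro rfl; norm_num at hμ
  have hdg : ContinuousOn (deriv g) (ball (0:ℂ) r) := (hg.deriv isOpen_ball).continuousOn
  -- the derivative of `t ^ μ * g (t x)`
  have key : ∫ t in (0:ℝ)..1, ((t:ℂ) ^ (μ - 1) * (μ * g (t * x)) + x * ((t : ℂ) ^ (μ - 1) * (deriv g (t * x) * t))) =
      ((1:ℝ):ℂ) ^ μ * g ((1:ℝ) * x) - ((0:ℝ):ℂ) ^ μ * g ((0:ℝ) * x) := by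
    apply intervalIntegral.integral_eq_sub_of_hasDerivAt_of_le (f := fun t : ℝ => (t:ℂ) ^ μ * g (t * x)) zero_le_one
    · have h1 : Continuous fun t : ℝ => (t : ℂ) ^ μ := Complex.continuous_ofReal_cpow_const (by linarith)
      exact h1.continuousOn.mul (hg.continuousOn.comp (by fun_prop) (fun t ht => mul_mem_ball hx ht))
    · intro t ht
      have ht0 : (t:ℂ) ≠ 0 := by exact_mod_cast ht.1.ne'
      have e1 : HasDerivAt (fun t : ℝ => (t:ℂ) ^ μ) (μ * (t:ℂ) ^ (μ - 1)) t := by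
        have := (hasDerivAt_id (t:ℂ)).cpow_const (c := μ) (Or.inl (by simpa using ht.1))
        simpa using this.comp_ofReal
      have hw' : (t:ℂ) * x ∈ ball (0:ℂ) r := mul_mem_ball hx ⟨ht.1.le, ht.2.le⟩
      have hd' : HasDerivAt g (deriv g (t * x)) (t * x) := (hg.differentiableAt (isOpen_ball.mem_nhds hw')).hasDerivAt
      have hl : HasDerivAt (fun w : ℂ => w * x) x (t:ℂ) := by
        simpa using (hasDerivAt_id (t:ℂ)).mul_const x
      have e2 : HasDerivAt (fun t : ℝ => g ((t:ℂ) * x)) (deriv g (t * x) * x) t := (hd'.comp (t:ℂ) hl).comp_ofReal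
      have e3 := e1.mul e2
      have : (t:ℂ) ^ μ = (t:ℂ) ^ (μ - 1) * t := by
        rw [Complex.cpow_sub _ _ ht0, Complex.cpow_one]; field_simp
      refine e3.congr_deriv ?_
      simp only [this]; ring
    · refine IntervalIntegrable.add ?_ (hi.const_mul x)
      have := (top_int hμ hg.continuousOn hx).const_mul μ
      refine this.congr ?_
      intro t _
      simp only; ring
  have h1 : ∫ t in (0:ℝ)..1, ((t:ℂ) ^ (μ - 1) * (μ * g (t * x)) + x * ((t : ℂ) ^ (μ - 1) * (deriv g (t * x) * t))) =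
      μ * Top μ g x + x * ∫ t in (0:ℝ)..1, (t : ℂ) ^ (μ - 1) * (deriv g (t * x) * t) := by
    rw [Top, ← intervalIntegral.integral_const_mul, ← intervalIntegral.integral_const_mul, ← intervalIntegral.integral_add]
    · congr 1; ext t; ring
    · exact (top_int hμ hg.continuousOn hx).const_mul μ
    · exact hi.const_mul x
  rw [h1] at key
  have h2 : ((1:ℝ):ℂ) ^ μ * g ((1:ℝ) * x) - ((0:ℝ):ℂ) ^ μ * g ((0:ℝ) * x) = g x := by
    simp [Complex.zero_cpow hμ0]
  rw [h2] at key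
  linear_combination key

end Pool.Agent.MQ2

end
end

section

/-!
Monomial charts over a normal crossing point of the discriminant of a web:
the roots live on the product of two left half planes.
-/

namespace Pool.Agent.MQ3

open Complex Set Filter Topology

/-- The monomial map. -/
def mono (w w' : ℕ × ℕ) (q : ℂ × ℂ) : ℂ × ℂ :=
  (q.1 ^ w.1 * q.2 ^ w'.1, q.1 ^ w.2 * q.2 ^ w'.2)

end Pool.Agent.MQ3

end
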