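import Pool.Agent.H94.G6.M07
import Pool.Agent.H94.G6.M11
import Pool.Agent.H94.G6.M14
import Pool.Agent.H94.G6.M26
import Pool.Agent.H94.G6.M31

/-! The parts of this file: H17LG.Variety_1, H36.BP.Cl, H5.BD.ALim, H5.BD.AIso, H5.BD.AAdm, H5.BD.AInf, H62.FC.Defs_1, H62.FC.Eval, H62.FC.Dense, H92.TH.Defs, MQ3.GlobD, MQ3.ThInd. -/

section

/-!
# Varieties of log general type, in terms of their function field

The definitions of `Pool.Agent.H17GT.Defs` and `Pool.Agent.H17LG.Defs` in terms of the definitions of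
`Pool.Agent.H23.Fano` (rational forms `Form K k`, regular forms, prime divisors).
-/

open MvPolynomial
open Pool.Agent.H23.Fano (Form regularForms PrimeDivisorOver)
open Pool.Agent.H17GT (coordFun functionField)

noncomputable section

namespace Pool.Agent.H17LG.Variety

section FunctionField

variable {K : Type} [Field K] [Algebra ℂ K] {k : ℕ}

end FunctionField

section Subvariety

variable {N : ℕ} (P : Ideal (MvPolynomial (Fin (N + 1)) ℂ)) [P.IsPrime]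

/-- The centre of the prime divisor `E` on the closed subvariety of `ℙ^N` given by `P` lies in the
union of the hypersurfaces `H m = 0`. -/
def OnBoundary {b : ℕ} (H : Fin b → MvPolynomial (Fin (N + 1)) ℂ) {k : ℕ}
    (E : PrimeDivisorOver (FunField P) k) : Prop :=
  ∃ j, coordFun P j ≠ 0 ∧ (∀ i, 0 ≤ E.ord (ratio P i j)) ∧
    ∃ m, 0 < E.ord (aeval (fun i => ratio P i j) (H m))

end Subvariety

end Pool.Agent.H17LG.Variety

end
end

section

/-!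
# BP Cl: the fields `rel_open`, `hur`, `lim` for a closed cone

`hcl : ∀ x ∈ closure K, x ≠ 0 → x ∈ K` (a closed cone without its vertex).
* `rel_open`: a neighbourhood of `x ≠ 0` does not contain `0`.
* `hur`, `lim`: the assumptions are contradictory: for `k = 0` (or `lim`) `H z₀` is a limit of points `F n z₀ ∈ K`.  In general: `H z ≠ 0` near `z₀`; for `z ≠ z₀` near `z₀` the vector
  `(z - z₀)^k • H z` is a limit of points of `K` and is not `0`, so it is in `K`, and `H z ∈ K` (`smul`); by continuity of `H` at `z₀`, `H z₀ ∈ closure K`, hence `H z₀ ∈ K`.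
-/

set_option autoImplicit false

namespace Pool.Agent.H36.BP

open Filter Topology Metric

variable {N : ℕ}

private theorem Cl_lim {K : Set (EN N)} {l : Filter ℕ} [l.NeBot] {F : ℕ → ℂ → EN N}
    {H : ℂ → EN N} {z₀ : ℂ} {s : ℝ}
    (hF : ∀ᶠ n in l, Curve K (Metric.ball z₀ s) (F n))
    (hl : TendstoLocallyUniformlyOn F H l (Metric.ball z₀ s)) {z : ℂ}
    (hz : z ∈ Metric.ball z₀ s) : H z ∈ closure K := by
  have h1 : Tendsto (fun n => F n z) l (𝓝 (H z)) := hl.tendsto_at hz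
  refine mem_closure_of_tendsto h1 ?_
  filter_upwards [hF] with n hn
  exact hn.2 z hz

theorem hur_of_closed {K : Set (EN N)} (hsm : ∀ x ∈ K, ∀ c : ℂ, c ≠ 0 → c • x ∈ K) (hcl : ∀ x ∈ closure K, x ≠ 0 → x ∈ K) :
    ∀ (l : Filter ℕ), l.NeBot → ∀ (F : ℕ → ℂ → EN N) (H : ℂ → EN N) (k : ℕ) (z₀ : ℂ) (s : ℝ), 0 < s →
    (∀ᶠ n in l, Curve K (Metric.ball z₀ s) (F n)) → DifferentiableOn ℂ H (Metric.ball z₀ s) →
    TendstoLocallyUniformlyOn F (fun z => (z - z₀) ^ k • H z) l (Metric.ball z₀ s) → H z₀ ≠ 0 → H z₀ ∉ K → ∀ᶠ z in 𝓝 z₀, H z ∉ K := by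
  intro l hl F H k z₀ s hs hF hH hlim h0 hK
  exfalso
  have hb : Metric.ball z₀ s ∈ 𝓝 z₀ := Metric.ball_mem_nhds z₀ hs
  have hc : ContinuousAt H z₀ := (hH.differentiableAt hb).continuousAt
  have h1 : ∀ᶠ z in 𝓝 z₀, H z ≠ 0 := hc.eventually_ne h0
  have h2 : ∀ᶠ z in 𝓝[≠] z₀, H z ∈ K := by
    filter_upwards [h1.filter_mono nhdsWithin_le_nhds, nhdsWithin_le_nhds hb,
      self_mem_nhdsWithin] with z hz1 hz2 hz3
    have h3 : (z - z₀) ^ k ≠ 0 := pow_ne_zero k (sub_ne_zero.2 hz3)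
    have h4 : (z - z₀) ^ k • H z ∈ K := hcl _ (Cl_lim hF hlim hz2) (smul_ne_zero h3 hz1)
    have h5 := hsm _ h4 ((z - z₀) ^ k)⁻¹ (inv_ne_zero h3)
    rwa [smul_smul, inv_mul_cancel₀ h3, one_smul] at h5
  have h6 : H z₀ ∈ closure K :=
    mem_closure_of_tendsto (hc.tendsto.mono_left nhdsWithin_le_nhds) h2
  exact hK (hcl _ h6 h0)

end Pool.Agent.H36.BP

end

section

/-!
# BD ALim: limits of translates

`lim_trans`: choose `f' n ∈ S` with `ev (f' n) z = ev (f n) (z + a n)` (`trans`; for `n` with `f n ∈ S`) and apply `lim`.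
`unif`: `closedBall 0 R` is covered by finitely many balls of radius `ε / (4 L)`; `ev F` has the Lipschitz constant `L` (`F ∈ S`), and at the finitely many centres eventually
`dist < ε / 4`.
`tendsto_at`: `dist (ev (f n) (b n + a n)) (ev F b) ≤ L ‖b n - b‖ + dist (ev (f n) (b + a n)) (ev F b)`.
`exists_lim_bdd`: a bounded sequence in `ℂ` has a limit along an ultrafilter (`closedBall 0 C` is compact, `IsCompact.ultrafilter_le_nhds` for the image ultrafilter).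
-/

set_option autoImplicit false

open Topology Filter Metric

namespace Pool.Agent.H5.BD

variable {Y ι : Type} [MetricSpace Y] {S : Set ι} {ev : ι → ℂ → Y} {Z : Set Y} {ρ : ι → ℂ → ι → ℂ → ℝ} {L c r₂ r₃ κ : ℝ}

theorem BFlow.lim_trans (h : BFlow S ev Z ρ L c r₂ r₃ κ) (𝒰 : Ultrafilter ℕ) (h𝒰 : (𝒰 : Filter ℕ) ≤ atTop) (f : ℕ → ι) (a : ℕ → ℂ)
    (hf : ∀ᶠ n in (𝒰 : Filter ℕ), f n ∈ S) : ∃ F ∈ S, ∀ z, Tendsto (fun n => ev (f n) (z + a n)) 𝒰 (𝓝 (ev F z)) := by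
  classical
  have key : ∀ n, ∃ g, f n ∈ S → (g ∈ S ∧ ∀ z, ev g z = ev (f n) (z + a n)) := by
    intro n
    by_cases hn : f n ∈ S
    · obtain ⟨g, hg, hg'⟩ := h.trans (f n) hn (a n)
      exact ⟨g, fun _ => ⟨hg, hg'⟩⟩
    · exact ⟨f n, fun h' => absurd h' hn⟩
  choose F' hF' using key
  obtain ⟨F, hF, hlim⟩ := h.lim 𝒰 h𝒰 F' (hf.mono fun n hn => (hF' n hn).1)
  refine ⟨F, hF, fun z => (hlim z).congr' ?_⟩
  filter_upwards [hf] with n hn
  exact (hF' n hn).2 z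

theorem BFlow.unif (h : BFlow S ev Z ρ L c r₂ r₃ κ) (𝒰 : Ultrafilter ℕ) {f : ℕ → ι} {a : ℕ → ℂ}
    (hf : ∀ᶠ n in (𝒰 : Filter ℕ), f n ∈ S) {F : ι} (hF : F ∈ S) (hlim : ∀ z, Tendsto (fun n => ev (f n) (z + a n)) 𝒰 (𝓝 (ev F z)))
    (R : ℝ) {ε : ℝ} (hε : 0 < ε) : ∀ᶠ n in (𝒰 : Filter ℕ), ∀ z ∈ closedBall (0 : ℂ) R, dist (ev (f n) (z + a n)) (ev F z) < ε := by
  have hL := h.L_pos
  have hδ : 0 < ε / (4 * L) := by positivity
  have hLδ : L * (ε / (4 * L)) = ε / 4 := by field_simp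
  obtain ⟨t, -, htf, hcov⟩ := (isCompact_closedBall (0 : ℂ) R).finite_cover_balls hδ
  have h1 : ∀ᶠ n in (𝒰 : Filter ℕ), ∀ x ∈ t, dist (ev (f n) (x + a n)) (ev F x) < ε / 4 :=
    (Filter.eventually_all_finite htf).2 fun x _ =>
      Metric.tendsto_nhds.1 (hlim x) (ε / 4) (by positivity)
  filter_upwards [hf, h1] with n hn h1n z hz
  obtain ⟨x, hx, hzx⟩ : ∃ x ∈ t, z ∈ ball x (ε / (4 * L)) := by
    have := hcov hz
    simpa only [Set.mem_iUnion, exists_prop] using this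
  rw [mem_ball, dist_eq_norm] at hzx
  have e1 : dist (ev (f n) (z + a n)) (ev (f n) (x + a n)) ≤ ε / 4 := by
    refine (h.lip (f n) hn _ _).trans ?_
    rw [add_sub_add_right_eq_sub]
    calc L * ‖z - x‖ ≤ L * (ε / (4 * L)) := mul_le_mul_of_nonneg_left hzx.le hL.le
      _ = ε / 4 := hLδ
  have e2 : dist (ev F x) (ev F z) ≤ ε / 4 := by
    refine (h.lip F hF _ _).trans ?_
    rw [norm_sub_rev]
    calc L * ‖z - x‖ ≤ L * (ε / (4 * L)) := mul_le_mul_of_nonneg_left hzx.le hL.le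
      _ = ε / 4 := hLδ
  have e3 := h1n x hx
  have e4 := dist_triangle4 (ev (f n) (z + a n)) (ev (f n) (x + a n)) (ev F x) (ev F z)
  linarith

theorem BFlow.tendsto_at (h : BFlow S ev Z ρ L c r₂ r₃ κ) (𝒰 : Ultrafilter ℕ) {f : ℕ → ι} {a b : ℕ → ℂ}
    (hf : ∀ᶠ n in (𝒰 : Filter ℕ), f n ∈ S) {F : ι} (hlim : ∀ z, Tendsto (fun n => ev (f n) (z + a n)) 𝒰 (𝓝 (ev F z)))
    {b₀ : ℂ} (hb : Tendsto b 𝒰 (𝓝 b₀)) : Tendsto (fun n => ev (f n) (b n + a n)) 𝒰 (𝓝 (ev F b₀)) := by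
  rw [tendsto_iff_dist_tendsto_zero]
  have h1 : Tendsto (fun n => L * ‖b n - b₀‖ + dist (ev (f n) (b₀ + a n)) (ev F b₀)) 𝒰 (𝓝 0) := by
    have h2 : Tendsto (fun n => ‖b n - b₀‖) 𝒰 (𝓝 0) := tendsto_iff_norm_sub_tendsto_zero.1 hb
    have h3 := tendsto_iff_dist_tendsto_zero.1 (hlim b₀)
    have h4 := (h2.const_mul L).add h3
    rwa [mul_zero, add_zero] at h4
  refine squeeze_zero' (Eventually.of_forall fun n => dist_nonneg) ?_ h1
  filter_upwards [hf] with n hn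
  refine (dist_triangle _ (ev (f n) (b₀ + a n)) _).trans (add_le_add ?_ le_rfl)
  have := h.lip (f n) hn (b n + a n) (b₀ + a n)
  rwa [add_sub_add_right_eq_sub] at this

theorem exists_lim_bdd (𝒰 : Ultrafilter ℕ) {b : ℕ → ℂ} {C : ℝ} (hb : ∀ᶠ n in (𝒰 : Filter ℕ), ‖b n‖ ≤ C) :
    ∃ b₀ : ℂ, ‖b₀‖ ≤ C ∧ Tendsto b 𝒰 (𝓝 b₀) := by
  obtain ⟨b₀, hb₀, hle⟩ := (isCompact_closedBall (0 : ℂ) C).ultrafilter_le_nhds (𝒰.map b) (by
    rw [le_principal_iff, Ultrafilter.coe_map, Filter.mem_map]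
    filter_upwards [hb] with n hn
    rw [Set.mem_preimage, mem_closedBall_zero_iff]
    exact hn)
  refine ⟨b₀, mem_closedBall_zero_iff.1 hb₀, ?_⟩
  rwa [Ultrafilter.coe_map] at hle

end Pool.Agent.H5.BD

end

section

/-!
# BD AIso: two curves in `Z` which are close have the same plaques

Suppose the claim is false: for every `n` there are `f n, g n ∈ S` with all `ev (f n) z`, `ev (g n) z` in `Z`, `a n ∈ ℂ`, `φ n` with `FolAt ev r₂ s (1 / (n + 1)) (f n) (g n) (a n) (φ n)` and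
`z n ∈ closedBall (a n) r₃` with `ev (g n) (z n) ∉ Pl ev r₂ (f n) (φ n (a n))`.  Along `𝒰 = hyperfilter ℕ` (`lim_trans`): `ev (f n) (w + φ n (a n)) → ev F w`, `ev (g n) (z + a n) → ev G z`;
all `ev F w`, `ev G z` are in `Z` (closed).  For `‖ζ‖ ≤ s` let `φ∞ ζ` be the limit of `φ n (ζ + a n) - φ n (a n)` (`exists_lim_bdd`, `‖φ∞ ζ‖ ≤ r₂ / 4`); by `tendsto_at` and `FolAt`
`ev G ζ = ev F (φ∞ ζ)`.
`iso` for `G`, `η = min s (r₃ / 2)` gives `z₁`; let `w₁ = φ∞ z₁`, so `ev F w₁ = ev G z₁`.  `η' = min (r₃ / 2) r₂` gives `δ > 0`.  Let `f' n, g' n ∈ S` be the translates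
(`ev (f' n) w = ev (f n) (w + φ n (a n))`, `ev (g' n) z = ev (g n) (z + a n)`).  For almost all `n`: `dist (ev (f' n) w) (ev G z₁) < δ` for `‖w - w₁‖ ≤ t`, where `t = δ / (2 L)` (and
`t ≤ r₂ / 2`): it is at most `L t + dist (ev (f' n) w₁) (ev F w₁)`; in the same way `dist (ev (g' n) ζ) (ev G z₁) < δ` for `‖ζ - z₁‖ ≤ t`.  Fix such an `n`, for which also
`dist (ev G 0) (ev (f' n) 0) ≤ ε` and `dist (ev (g' n) 0) (ev (f' n) 0) ≤ ε` with the `ε` of `ident` (`φ∞ 0 = 0`, so `ev G 0 = ev F 0`).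
(1) For `‖w - w₁‖ ≤ t` choose `z' w` with `‖z' w - z₁‖ < η'` and `ev (f' n) w = ev G (z' w)`.  By `emb` for `G` (`‖z' w - z' w₁‖ ≤ 2 η' ≤ 4 r₂`):
`c ‖z' w - z' w₁‖ ≤ dist (ev (f' n) w) (ev (f' n) w₁) ≤ L ‖w - w₁‖ → 0`, and `z' w ≠ z' w₁` for `w ≠ w₁` near `w₁` by `emb` for `f' n`.  So
`∃ᶠ z in 𝓝[≠] (z' w₁), ev G z ∈ Pl ev r₂ (f' n) 0` (`w ∈ closedBall 0 r₂`), `z' w₁ ∈ closedBall 0 r₃`.  `ident` for `f' n`, `G` (`z₀ = 0`, `w₀ = 0`): `ev G z ∈ Pl ev r₂ (f' n) 0` for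
all `z ∈ closedBall 0 r₃`.
(2) For `‖ζ - z₁‖ ≤ t`: `ev (g' n) ζ = ev G ζ'` with `‖ζ' - z₁‖ < η'`, `ζ' ∈ closedBall 0 r₃`, so `ev (g' n) ζ ∈ Pl ev r₂ (f' n) 0`.  `ident` for `f' n`, `g' n` (`z₁`): this holds for all
`ζ ∈ closedBall 0 r₃`, in particular for `ζ = z n - a n`.  But `Pl ev r₂ (f' n) 0 = Pl ev r₂ (f n) (φ n (a n))`: contradiction.
-/

set_option autoImplicit false

open Topology Filter Metric

namespace Pool.Agent.H5.BD

variable {Y ι : Type} [MetricSpace Y] {S : Set ι} {ev : ι → ℂ → Y} {Z : Set Y} {ρ : ι → ℂ → ι → ℂ → ℝ} {L c r₂ r₃ κ : ℝ}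

theorem BFlow.plaque_of_fol (h : BFlow S ev Z ρ L c r₂ r₃ κ) {s : ℝ} (hs : 0 < s) (hs₃ : s ≤ r₃) :
    ∃ ε : ℝ, 0 < ε ∧ ∀ f ∈ S, ∀ g ∈ S, (∀ z, ev f z ∈ Z) → (∀ z, ev g z ∈ Z) → ∀ z₀ φ, FolAt ev r₂ s ε f g z₀ φ →
      ∀ z ∈ closedBall z₀ r₃, ev g z ∈ Pl ev r₂ f (φ z₀) := by
  by_contra hcon
  push Not at hcon
  have hε1 : ∀ n : ℕ, (0 : ℝ) < 1 / ((n : ℝ) + 1) := fun n => by positivity
  choose f hf g hg hfZ hgZ a φ hfol z hz hnot using fun n : ℕ => hcon (1 / ((n : ℝ) + 1)) (hε1 n)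
  have h𝒰 : ((hyperfilter ℕ : Ultrafilter ℕ) : Filter ℕ) ≤ atTop := Nat.hyperfilter_le_atTop
  generalize hU : (hyperfilter ℕ : Ultrafilter ℕ) = 𝒰 at h𝒰
  have hL := h.L_pos
  have hc := h.c_pos
  have hr₂ := h.r₂_pos
  have hr₃ := h.r₃_pos
  have hdec : Tendsto (fun n : ℕ => 1 / ((n : ℝ) + 1)) 𝒰 (𝓝 0) :=
    tendsto_one_div_add_atTop_nhds_zero_nat.mono_left h𝒰
  obtain ⟨F, hF, limF⟩ := h.lim_trans 𝒰 h𝒰 f (fun n => φ n (a n)) (Eventually.of_forall hf)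
  obtain ⟨G, hG, limG⟩ := h.lim_trans 𝒰 h𝒰 g a (Eventually.of_forall hg)
  have hGZ : ∀ z, ev G z ∈ Z := fun z =>
    h.closed.mem_of_tendsto (limG z) (Eventually.of_forall fun n => hgZ n _)
  obtain ⟨z₁, hz₁, hiso⟩ := h.iso G hG hGZ (min s (r₃ / 2)) (lt_min hs (by positivity))
  have hz₁s : ‖z₁‖ < s := hz₁.trans_le (min_le_left _ _)
  have hz₁r : ‖z₁‖ < r₃ / 2 := hz₁.trans_le (min_le_right _ _)
  have hmem1 : ∀ n, z₁ + a n ∈ closedBall (a n) s := fun n => by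
    rw [mem_closedBall, dist_eq_norm, add_sub_cancel_right]
    exact hz₁s.le
  have hmem0 : ∀ n, a n ∈ closedBall (a n) s := fun n => mem_closedBall_self hs.le
  obtain ⟨w₁, hw₁, limb⟩ := exists_lim_bdd 𝒰 (b := fun n => φ n (z₁ + a n) - φ n (a n)) (C := r₂ / 4)
    (Eventually.of_forall fun n => ((hfol n) _ (hmem1 n)).2)
  have limF1 := h.tendsto_at 𝒰 (Eventually.of_forall hf) limF limb
  have hFG1 : ev F w₁ = ev G z₁ := by
    refine tendsto_nhds_unique limF1 ?_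
    refine (limG z₁).congr_dist ?_
    refine squeeze_zero (fun n => dist_nonneg) (fun n => ?_) hdec
    have := ((hfol n) _ (hmem1 n)).1
    rw [sub_add_cancel]
    exact this
  have hFG0 : ev F 0 = ev G 0 := by
    refine tendsto_nhds_unique (limF 0) ?_
    refine (limG 0).congr_dist ?_
    refine squeeze_zero (fun n => dist_nonneg) (fun n => ?_) hdec
    have := ((hfol n) _ (hmem0 n)).1
    rw [zero_add, zero_add]
    exact this
  obtain ⟨ε, hε, hident⟩ := h.ident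
  obtain ⟨δ, hδ, hiso'⟩ := hiso (min (r₃ / 2) r₂) (lt_min (by positivity) hr₂)
  obtain ⟨t, ht0, htδ, htr⟩ : ∃ t : ℝ, 0 < t ∧ L * t ≤ δ / 2 ∧ t ≤ r₂ / 2 := by
    refine ⟨min (δ / (2 * L)) (r₂ / 2), lt_min (by positivity) (by positivity), ?_, min_le_right _ _⟩
    calc L * min (δ / (2 * L)) (r₂ / 2) ≤ L * (δ / (2 * L)) :=
          mul_le_mul_of_nonneg_left (min_le_left _ _) hL.le
      _ = δ / 2 := by field_simp
  have E1 := (limF w₁).eventually (ball_mem_nhds _ (half_pos hδ))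
  have E2 := (limG z₁).eventually (ball_mem_nhds _ (half_pos hδ))
  have E3 := (limF 0).eventually (ball_mem_nhds _ (half_pos hε))
  have E4 := (limG 0).eventually (ball_mem_nhds _ (half_pos hε))
  obtain ⟨n, hn1, hn2, hn3, hn4⟩ := (E1.and (E2.and (E3.and E4))).exists
  obtain ⟨f', hf', hf'e⟩ := h.trans (f n) (hf n) (φ n (a n))
  obtain ⟨g', hg', hg'e⟩ := h.trans (g n) (hg n) (a n)
  have hf'Z : ∀ z, ev f' z ∈ Z := fun z => by rw [hf'e]; exact hfZ n _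
  have hg'Z : ∀ z, ev g' z ∈ Z := fun z => by rw [hg'e]; exact hgZ n _
  rw [← hf'e] at hn1 hn3
  rw [← hg'e] at hn2 hn4
  rw [hFG1] at hn1
  rw [hFG0] at hn3
  have hnear : ∀ z', ‖z' - z₁‖ < min (r₃ / 2) r₂ → z' ∈ closedBall (0 : ℂ) r₃ := fun z' hz' => by
    rw [mem_closedBall_zero_iff]
    have h1 : ‖z'‖ ≤ ‖z' - z₁‖ + ‖z₁‖ := by simpa using norm_add_le (z' - z₁) z₁
    have h2 := hz'.trans_le (min_le_left _ _)
    linarith
  -- first part
  have hf'near : ∀ w, ‖w - w₁‖ ≤ t → ∃ z', ‖z' - z₁‖ < min (r₃ / 2) r₂ ∧ ev f' w = ev G z' := by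
    intro w hw
    refine hiso' f' hf' hf'Z w ?_
    calc dist (ev f' w) (ev G z₁) ≤ dist (ev f' w) (ev f' w₁) + dist (ev f' w₁) (ev G z₁) :=
          dist_triangle _ _ _
      _ < δ / 2 + δ / 2 := by
          refine add_lt_add_of_le_of_lt ?_ hn1
          exact (h.lip f' hf' w w₁).trans ((mul_le_mul_of_nonneg_left hw hL.le).trans htδ)
      _ = δ := by ring
  have hchoice : ∀ w, ∃ z', ‖w - w₁‖ ≤ t → (‖z' - z₁‖ < min (r₃ / 2) r₂ ∧ ev f' w = ev G z') := by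
    intro w
    by_cases hw : ‖w - w₁‖ ≤ t
    · obtain ⟨z', hz'⟩ := hf'near w hw
      exact ⟨z', fun _ => hz'⟩
    · exact ⟨0, fun h => absurd h hw⟩
  choose ζ hζ using hchoice
  have h11 : ‖w₁ - w₁‖ ≤ t := by rw [sub_self, norm_zero]; exact ht0.le
  have hev_t : ∀ᶠ w in 𝓝[≠] w₁, ‖w - w₁‖ ≤ t ∧ w ≠ w₁ := by
    refine Filter.Eventually.and ?_ self_mem_nhdsWithin
    refine nhdsWithin_le_nhds ?_
    filter_upwards [closedBall_mem_nhds w₁ ht0] with w hw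
    rw [mem_closedBall, dist_eq_norm] at hw
    exact hw
  have hlipζ : ∀ w, ‖w - w₁‖ ≤ t → c * ‖ζ w - ζ w₁‖ ≤ L * ‖w - w₁‖ := by
    intro w hw
    have h1 := hζ w hw
    have h2 := hζ w₁ h11
    have h3 : ‖ζ w - ζ w₁‖ ≤ 4 * r₂ := by
      have h4 : ‖ζ w - ζ w₁‖ ≤ ‖ζ w - z₁‖ + ‖ζ w₁ - z₁‖ := by
        have := norm_sub_le (ζ w - z₁) (ζ w₁ - z₁)
        rwa [sub_sub_sub_cancel_right] at this
      have h5 := h1.1.trans_le (min_le_right _ _)
      have h6 := h2.1.trans_le (min_le_right _ _)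
      linarith
    have h7 := h.emb G hG (ζ w) (ζ w₁) h3
    rw [← h1.2, ← h2.2] at h7
    exact h7.trans (h.lip f' hf' w w₁)
  have htend : Tendsto ζ (𝓝[≠] w₁) (𝓝[≠] (ζ w₁)) := by
    rw [tendsto_nhdsWithin_iff]
    constructor
    · rw [tendsto_iff_norm_sub_tendsto_zero]
      have h8 : Tendsto (fun w => L / c * ‖w - w₁‖) (𝓝[≠] w₁) (𝓝 0) := by
        have h9 : Tendsto (fun w => L / c * ‖w - w₁‖) (𝓝 w₁) (𝓝 (L / c * ‖w₁ - w₁‖)) := by
          apply Continuous.tendsto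
          fun_prop
        rw [sub_self, norm_zero, mul_zero] at h9
        exact h9.mono_left nhdsWithin_le_nhds
      refine squeeze_zero' (Eventually.of_forall fun w => norm_nonneg _) ?_ h8
      filter_upwards [hev_t] with w hw
      have := hlipζ w hw.1
      rw [div_mul_eq_mul_div, le_div_iff₀ hc]
      linarith
    · filter_upwards [hev_t] with w hw heq
      have heq' : ζ w = ζ w₁ := heq
      have h1 := hζ w hw.1
      have h2 := hζ w₁ h11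
      have h3 := h.emb f' hf' w w₁ (hw.1.trans (by linarith))
      rw [h1.2, h2.2, heq', dist_self] at h3
      have h4 : 0 < ‖w - w₁‖ := norm_pos_iff.2 (sub_ne_zero.2 hw.2)
      have : 0 < c * ‖w - w₁‖ := by positivity
      linarith
  have hfreq1 : ∃ᶠ z in 𝓝[≠] (ζ w₁), ev G z ∈ Pl ev r₂ f' 0 := by
    refine htend.frequently (p := fun z => ev G z ∈ Pl ev r₂ f' 0) ?_
    refine Eventually.frequently ?_
    filter_upwards [hev_t] with w hw
    refine ⟨w, ?_, (hζ w hw.1).2⟩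
    rw [mem_closedBall_zero_iff]
    have h1 : ‖w‖ ≤ ‖w - w₁‖ + ‖w₁‖ := by simpa using norm_add_le (w - w₁) w₁
    have h2 := hw.1
    linarith
  have hG0 : dist (ev G 0) (ev f' 0) ≤ ε := by
    rw [dist_comm]
    linarith
  have hGPl := hident f' hf' G hG 0 0 hG0 (ζ w₁) (hnear _ (hζ w₁ h11).1) hfreq1
  -- second part
  have hg'0 : dist (ev g' 0) (ev f' 0) ≤ ε := by
    have := dist_triangle_right (ev g' 0) (ev f' 0) (ev G 0)
    linarith
  have hz₁mem : z₁ ∈ closedBall (0 : ℂ) r₃ := by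
    rw [mem_closedBall_zero_iff]
    linarith
  have hfreq2 : ∃ᶠ z in 𝓝[≠] z₁, ev g' z ∈ Pl ev r₂ f' 0 := by
    refine Eventually.frequently ?_
    refine nhdsWithin_le_nhds ?_
    filter_upwards [closedBall_mem_nhds z₁ ht0] with w hw
    rw [mem_closedBall, dist_eq_norm] at hw
    obtain ⟨z', hz', he⟩ := hiso' g' hg' hg'Z w (by
      calc dist (ev g' w) (ev G z₁) ≤ dist (ev g' w) (ev g' z₁) + dist (ev g' z₁) (ev G z₁) :=
            dist_triangle _ _ _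
        _ < δ / 2 + δ / 2 := by
            refine add_lt_add_of_le_of_lt ?_ hn2
            exact (h.lip g' hg' w z₁).trans ((mul_le_mul_of_nonneg_left hw hL.le).trans htδ)
        _ = δ := by ring)
    rw [he]
    exact hGPl z' (hnear z' hz')
  have hfin := hident f' hf' g' hg' 0 0 hg'0 z₁ hz₁mem hfreq2 (z n - a n) (by
    rw [mem_closedBall_zero_iff, ← dist_eq_norm]
    exact hz n)
  rw [hg'e, sub_add_cancel] at hfin
  obtain ⟨w, hw, hwe⟩ := hfin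
  refine hnot n ⟨w + φ n (a n), ?_, ?_⟩
  · rw [mem_closedBall, dist_eq_norm, add_sub_cancel_right]
    exact mem_closedBall_zero_iff.1 hw
  · rw [← hwe, hf'e]

end Pool.Agent.H5.BD

end

section

/-!
# BD AAdm: the constants, and the decay of `ρ` on discs where `g` follows `f`

`decay`: let `B, ε_b` be as in `bdd`, `θ, ε_l` as in `loc` (for `s`), `ε₀ = min ε_b ε_l`.  Let `g` follow `f` on the disc of radius `R` (`Fol`, with `ε ≤ ε₀`, `s ≤ r`), `s ≤ R`.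
Let `W z = ρ f (φ z) g z * exp (-κ ‖z‖²)` for `z ∈ ball 0 R`; `0 ≤ W z ≤ B`.  Let `m` be the supremum of `W` over `ball 0 R` (bounded above by `B`, not empty if `R > 0`).
* If `‖z₀‖ + s < R` then `Fol.folAt` and `loc` with `a = 0` give `z ∈ closedBall z₀ s ⊆ ball 0 R` with `W z₀ ≤ θ W z ≤ θ m`.
* If `z₀ ∈ ball 0 R`, `R - s ≤ ‖z₀‖`, then `W z₀ ≤ B exp (-κ ‖z₀‖²) ≤ B exp (-κ (R - s)²)` (`0 ≤ R - s ≤ ‖z₀‖`).
So `m ≤ max (θ m) (B exp (-κ (R - s)²))`; as `θ < 1` and `m ≥ 0`, `m ≤ B exp (-κ (R - s)²)` (if `m ≤ θ m` then `m ≤ 0`).  Hence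
`ρ f (φ z) g z ≤ m exp (κ ‖z‖²) ≤ B exp (-κ ((R - s)² - ‖z‖²))`.

`exists_adm`: choose `r = min (min (r₂ / 4) r₃) (c r₂ / (32 L))`, `s = r / 32`, and `ε` the minimum of `c r₂ / 64` and of the numbers `ε` of `decay`, `small`, `ident`, `BFlow.plaque_of_fol` (for `s`).
(`FolAt` with `ε` implies `FolAt` with a larger number.)
-/

set_option autoImplicit false

open Topology Filter Metric

namespace Pool.Agent.H5.BD

variable {Y ι : Type} [MetricSpace Y] {S : Set ι} {ev : ι → ℂ → Y} {Z : Set Y} {ρ : ι → ℂ → ι → ℂ → ℝ} {L c r₂ r₃ κ : ℝ}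

theorem BFlow.decay (h : BFlow S ev Z ρ L c r₂ r₃ κ) {s : ℝ} (hs : 0 < s) (hs₃ : s ≤ r₃) :
    ∃ B ε₀ : ℝ, 0 ≤ B ∧ 0 < ε₀ ∧ ∀ r ε : ℝ, s ≤ r → ε ≤ ε₀ → ∀ f ∈ S, ∀ g ∈ S, ∀ (φ : ℂ → ℂ) (R : ℝ), s ≤ R → Fol ev r₂ r ε R f g φ →
      ∀ z ∈ ball (0 : ℂ) R, ρ f (φ z) g z ≤ B * Real.exp (-κ * ((R - s) ^ 2 - ‖z‖ ^ 2)) := by
  obtain ⟨B, εb, hB, hεb, hbdd⟩ := h.bdd
  obtain ⟨θ, εl, hθ0, hθ1, hεl, hloc⟩ := h.loc s hs hs₃
  have hκ := h.κ_pos
  refine ⟨B, min εb εl, hB, lt_min hεb hεl, ?_⟩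
  intro r ε hsr hε f hf g hg φ R hsR hFol z hz
  have hρ : ∀ y ∈ ball (0 : ℂ) R, 0 ≤ ρ f (φ y) g y ∧ ρ f (φ y) g y ≤ B := fun y hy =>
    hbdd f hf g hg (φ y) y ((hFol.close y hy).trans (hε.trans (min_le_left _ _)))
  have hW0 : ∀ y ∈ ball (0 : ℂ) R, 0 ≤ ρ f (φ y) g y * Real.exp (-κ * ‖y‖ ^ 2) := fun y hy =>
    mul_nonneg (hρ y hy).1 (Real.exp_pos _).le
  have hWB : ∀ y ∈ ball (0 : ℂ) R, ρ f (φ y) g y * Real.exp (-κ * ‖y‖ ^ 2) ≤ B * Real.exp (-κ * ‖y‖ ^ 2) :=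
    fun y hy => mul_le_mul_of_nonneg_right (hρ y hy).2 (Real.exp_pos _).le
  have hexp1 : ∀ y : ℂ, Real.exp (-κ * ‖y‖ ^ 2) ≤ 1 := by
    intro y
    rw [Real.exp_le_one_iff]
    have h1 : 0 ≤ κ * ‖y‖ ^ 2 := by positivity
    linarith
  have hbdd' : BddAbove ((fun y : ℂ => ρ f (φ y) g y * Real.exp (-κ * ‖y‖ ^ 2)) '' ball (0 : ℂ) R) := by
    refine ⟨B, ?_⟩
    rintro _ ⟨y, hy, rfl⟩
    exact (hWB y hy).trans (mul_le_of_le_one_right hB (hexp1 y))
  set m : ℝ := sSup ((fun y : ℂ => ρ f (φ y) g y * Real.exp (-κ * ‖y‖ ^ 2)) '' ball (0 : ℂ) R) with hm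
  have hle : ∀ y ∈ ball (0 : ℂ) R, ρ f (φ y) g y * Real.exp (-κ * ‖y‖ ^ 2) ≤ m := fun y hy =>
    le_csSup hbdd' ⟨y, hy, rfl⟩
  have hm0 : 0 ≤ m := (hW0 z hz).trans (hle z hz)
  have hmax : m ≤ max (θ * m) (B * Real.exp (-κ * (R - s) ^ 2)) := by
    refine csSup_le ⟨_, z, hz, rfl⟩ ?_
    rintro _ ⟨y, hy, rfl⟩
    rcases lt_or_ge (‖y‖ + s) R with hcase | hcase
    · refine le_trans ?_ (le_max_left _ _)
      obtain ⟨x, hx, hle2⟩ := hloc f hf g hg y φ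
        (hFol.folAt hsr hs.le hcase (hε.trans (min_le_right _ _))) 0
      rw [sub_zero, sub_zero] at hle2
      have hxR : x ∈ ball (0 : ℂ) R := by
        rw [mem_closedBall, dist_eq_norm] at hx
        rw [mem_ball_zero_iff]
        have h1 : ‖x‖ ≤ ‖x - y‖ + ‖y‖ := by simpa using norm_add_le (x - y) y
        linarith
      exact hle2.trans (mul_le_mul_of_nonneg_left (hle x hxR) hθ0)
    · refine le_trans ?_ (le_max_right _ _)
      refine (hWB y hy).trans (mul_le_mul_of_nonneg_left ?_ hB)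
      rw [Real.exp_le_exp]
      have h2 : (R - s) ^ 2 ≤ ‖y‖ ^ 2 := pow_le_pow_left₀ (by linarith) (by linarith) 2
      nlinarith
  have hmB : m ≤ B * Real.exp (-κ * (R - s) ^ 2) := by
    rcases le_max_iff.1 hmax with h1 | h1
    · have h2 : m ≤ 0 := by nlinarith
      exact h2.trans (mul_nonneg hB (Real.exp_pos _).le)
    · exact h1
  have hsplit : ρ f (φ z) g z = ρ f (φ z) g z * Real.exp (-κ * ‖z‖ ^ 2) * Real.exp (κ * ‖z‖ ^ 2) := by
    rw [mul_assoc, ← Real.exp_add]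
    have h0 : -κ * ‖z‖ ^ 2 + κ * ‖z‖ ^ 2 = 0 := by ring
    rw [h0, Real.exp_zero, mul_one]
  rw [hsplit]
  calc ρ f (φ z) g z * Real.exp (-κ * ‖z‖ ^ 2) * Real.exp (κ * ‖z‖ ^ 2)
      ≤ B * Real.exp (-κ * (R - s) ^ 2) * Real.exp (κ * ‖z‖ ^ 2) :=
        mul_le_mul_of_nonneg_right ((hle z hz).trans hmB) (Real.exp_pos _).le
    _ = B * Real.exp (-κ * ((R - s) ^ 2 - ‖z‖ ^ 2)) := by
        rw [mul_assoc, ← Real.exp_add]
        congr 2
        ring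

/-- the constants `r`, `ε` (with `s = r / 32`) are small enough -/
structure Adm (S : Set ι) (ev : ι → ℂ → Y) (Z : Set Y) (ρ : ι → ℂ → ι → ℂ → ℝ) (L c r₂ r₃ κ r ε B : ℝ) : Prop where
  cst : Cst L c r₂ r₃ r ε
  B_nonneg : 0 ≤ B
  decay : ∀ f ∈ S, ∀ g ∈ S, ∀ (φ : ℂ → ℂ) (R : ℝ), r ≤ R → Fol ev r₂ r ε R f g φ → ∀ z ∈ ball (0 : ℂ) R,
    ρ f (φ z) g z ≤ B * Real.exp (-κ * ((R - r / 32) ^ 2 - ‖z‖ ^ 2))
  small : ∀ η : ℝ, 0 < η → ∃ δ : ℝ, 0 < δ ∧ ∀ f ∈ S, ∀ g ∈ S, ∀ z₀ φ, FolAt ev r₂ (r / 32) ε f g z₀ φ → ρ f (φ z₀) g z₀ ≤ δ →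
    (∃ y ∈ Z, dist (ev g z₀) y ≤ η) ∨ ∃ w ∈ closedBall (φ z₀) r₂, dist (ev g z₀) (ev f w) ≤ η
  ident : ∀ f ∈ S, ∀ g ∈ S, ∀ z₀ w₀, dist (ev g z₀) (ev f w₀) ≤ ε → ∀ z₁ ∈ closedBall z₀ r₃,
    (∃ᶠ z in 𝓝[≠] z₁, ev g z ∈ Pl ev r₂ f w₀) → ∀ z ∈ closedBall z₀ r₃, ev g z ∈ Pl ev r₂ f w₀
  iso : ∀ f ∈ S, ∀ g ∈ S, (∀ z, ev f z ∈ Z) → (∀ z, ev g z ∈ Z) → ∀ z₀ φ, FolAt ev r₂ (r / 32) ε f g z₀ φ →
    ∀ z ∈ closedBall z₀ r₃, ev g z ∈ Pl ev r₂ f (φ z₀)

theorem BFlow.exists_adm (h : BFlow S ev Z ρ L c r₂ r₃ κ) : ∃ r ε B : ℝ, Adm S ev Z ρ L c r₂ r₃ κ r ε B := by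
  have hL := h.L_pos
  have hc := h.c_pos
  have hr₂ := h.r₂_pos
  have hr₃ := h.r₃_pos
  obtain ⟨r, hr, hr1, hr2, hr3⟩ : ∃ r : ℝ, 0 < r ∧ r ≤ r₂ / 4 ∧ r ≤ r₃ ∧ r ≤ c * r₂ / (32 * L) :=
    ⟨min (min (r₂ / 4) r₃) (c * r₂ / (32 * L)), lt_min (lt_min (by positivity) hr₃) (by positivity),
      (min_le_left _ _).trans (min_le_left _ _), (min_le_left _ _).trans (min_le_right _ _), min_le_right _ _⟩
  have hs : 0 < r / 32 := by positivity
  have hs₃ : r / 32 ≤ r₃ := by linarith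
  obtain ⟨B, ε₁, hB, hε₁, hdecay⟩ := h.decay hs hs₃
  obtain ⟨ε₂, hε₂, hsmall⟩ := h.small (r / 32) hs hs₃
  obtain ⟨ε₃, hε₃, hident⟩ := h.ident
  obtain ⟨ε₄, hε₄, hiso⟩ := h.plaque_of_fol hs hs₃
  obtain ⟨ε, hε, he0, he1, he2, he3, he4⟩ : ∃ ε : ℝ, 0 < ε ∧ ε ≤ c * r₂ / 64 ∧ ε ≤ ε₁ ∧ ε ≤ ε₂ ∧ ε ≤ ε₃ ∧ ε ≤ ε₄ := by
    refine ⟨min (c * r₂ / 64) (min ε₁ (min ε₂ (min ε₃ ε₄))), ?_, min_le_left _ _, ?_, ?_, ?_, ?_⟩
    · exact lt_min (by positivity) (lt_min hε₁ (lt_min hε₂ (lt_min hε₃ hε₄)))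
    · exact (min_le_right _ _).trans (min_le_left _ _)
    · exact (min_le_right _ _).trans ((min_le_right _ _).trans (min_le_left _ _))
    · exact (min_le_right _ _).trans ((min_le_right _ _).trans ((min_le_right _ _).trans (min_le_left _ _)))
    · exact (min_le_right _ _).trans ((min_le_right _ _).trans ((min_le_right _ _).trans (min_le_right _ _)))
  refine ⟨r, ε, B, ?_, hB, ?_, ?_, ?_, ?_⟩
  · refine ⟨hr, hε, hr1, hr2, ?_, ?_⟩
    · rw [le_div_iff₀ (by positivity)] at hr3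
      linarith
    · linarith
  · intro f hf g hg φ R hR hFol z hz
    exact hdecay r ε (by linarith) he1 f hf g hg φ R (by linarith) hFol z hz
  · intro η hη
    obtain ⟨δ, hδ, hsm⟩ := hsmall η hη
    refine ⟨δ, hδ, fun f hf g hg z₀ φ hFol hρ => ?_⟩
    exact hsm f hf g hg z₀ φ (fun z hz => ⟨(hFol z hz).1.trans he2, (hFol z hz).2⟩) hρ
  · intro f hf g hg z₀ w₀ hd z₁ hz₁ hfreq z hz
    exact hident f hf g hg z₀ w₀ (hd.trans he3) z₁ hz₁ hfreq z hz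
  · intro f hf g hg hfZ hgZ z₀ φ hFol z hz
    exact hiso f hf g hg hfZ hgZ z₀ φ (fun y hy => ⟨(hFol y hy).1.trans he4, (hFol y hy).2⟩) z hz

end Pool.Agent.H5.BD

end

section

/-!
# BD AInf: `g` follows `f` everywhere

Let `R k ≥ k` and `φ k` be as in the hypothesis.  For fixed `z` and `k > ‖z‖`: `‖φ k z‖ ≤ (‖z‖ / r + 1) (r₂ / 4)` (go from `0` to `z` in steps of length `≤ r`; `φ k 0 = 0`).  Let `φ z` be the
limit of `φ k z` along `hyperfilter ℕ` (`exists_lim_bdd`).  Then (`lip` for `f`) `dist (ev g z) (ev f (φ z)) ≤ ε` for all `z`, `‖φ z - φ z'‖ ≤ r₂ / 4` if `‖z - z'‖ ≤ r`, `φ 0 = 0`: so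
`Fol ev r₂ r ε R f g φ` for all `R`.  `decay` for fixed `z` and `R → ∞` gives `ρ f (φ z) g z ≤ 0`.  Let `s = r / 32`; `FolAt ev r₂ s ε f g z φ` holds for all `z` (`Fol.folAt`).
By `small` (for all `η > 0`): for every `z`, `ev g z ∈ Z` (closed) or `ev g z` is in the plaque `Pl ev r₂ f (φ z)` (compact).
Claim: `ev g z₀ ∈ Pl ev r₂ f (φ z₀)` for all `z₀`.
* If not all `ev g z` are in `Z`: by `dense` `ev g z ∉ Z` for `z ≠ z₀` near `z₀`, so `ev g z = ev f w` with `w ∈ closedBall (φ z) r₂`; by `emb`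
  `c ‖w - φ z‖ ≤ dist (ev f w) (ev f (φ z)) ≤ ε ≤ c r₂ / 64` and `‖φ z - φ z₀‖ ≤ r₂ / 4`, so `w ∈ closedBall (φ z₀) r₂`.  `ident` (`w₀ = φ z₀`, `z₁ = z₀`).
* If all `ev g z` are in `Z` then by `hZ` all `ev f z` are in `Z`: `iso`.
Let `ψ z ∈ closedBall (φ z) r₂` with `ev g z = ev f (ψ z)`; as above `‖ψ z - φ z‖ ≤ r₂ / 64`.  So `‖ψ z - ψ z'‖ ≤ r₂ / 64 + r₂ / 4 + r₂ / 64 ≤ r₂` if `‖z - z'‖ ≤ r`; and
`‖ψ 0‖ ≤ ‖φ 0‖ + r₂ / 64 ≤ r₂`.
-/

set_option autoImplicit false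

open Topology Filter Metric

namespace Pool.Agent.H5.BD

variable {Y ι : Type} [MetricSpace Y] {S : Set ι} {ev : ι → ℂ → Y} {Z : Set Y} {ρ : ι → ℂ → ι → ℂ → ℝ} {L c r₂ r₃ κ r ε B : ℝ}

/-- the parameter of a point at distance at most `n * r` from `0` has norm at most `n * (r₂ / 4)` -/
private theorem norm_le_of_fol {f g : ι} {φ : ℂ → ℂ} {R : ℝ} (hr : 0 < r) (h : Fol ev r₂ r ε R f g φ) (n : ℕ) :
    ∀ z ∈ ball (0 : ℂ) R, ‖z‖ ≤ n * r → ‖φ z‖ ≤ n * (r₂ / 4) := by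
  induction n with
  | zero =>
    intro z _ hz
    have h0 : z = 0 := by
      have : ‖z‖ ≤ 0 := by simpa using hz
      exact norm_le_zero_iff.mp this
    subst h0
    rw [h.zero]
    simp
  | succ n ih =>
    intro z hzR hz
    have hn : (0 : ℝ) < (n : ℝ) + 1 := by positivity
    push_cast at hz ⊢
    set t : ℝ := (n : ℝ) / ((n : ℝ) + 1) with ht
    have ht0 : 0 ≤ t := by positivity
    have ht1 : t ≤ 1 := by
      rw [ht, div_le_one hn]
      linarith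
    have hnt : ‖((t : ℂ) * z)‖ = t * ‖z‖ := by
      rw [norm_mul, Complex.norm_real, Real.norm_eq_abs, abs_of_nonneg ht0]
    have hz'R : ((t : ℂ) * z) ∈ ball (0 : ℂ) R := by
      rw [mem_ball_zero_iff] at hzR ⊢
      rw [hnt]
      have : t * ‖z‖ ≤ 1 * ‖z‖ := mul_le_mul_of_nonneg_right ht1 (norm_nonneg _)
      linarith
    have h1 : ‖((t : ℂ) * z)‖ ≤ n * r := by
      rw [hnt]
      calc t * ‖z‖ ≤ t * (((n : ℝ) + 1) * r) := mul_le_mul_of_nonneg_left hz ht0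
        _ = n * r := by rw [ht]; field_simp
    have h2 : ‖z - (t : ℂ) * z‖ ≤ r := by
      have e1 : z - (t : ℂ) * z = ((1 - t : ℝ) : ℂ) * z := by push_cast; ring
      rw [e1, norm_mul, Complex.norm_real, Real.norm_eq_abs, abs_of_nonneg (by linarith)]
      have e2 : 1 - t = 1 / ((n : ℝ) + 1) := by rw [ht]; field_simp; ring
      rw [e2, one_div, inv_mul_le_iff₀ hn]
      linarith
    have h3 := h.cont z hzR _ hz'R h2
    have h4 := ih _ hz'R h1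
    have h5 : ‖φ z‖ ≤ ‖φ z - φ ((t : ℂ) * z)‖ + ‖φ ((t : ℂ) * z)‖ := by
      simpa using norm_add_le (φ z - φ ((t : ℂ) * z)) (φ ((t : ℂ) * z))
    linarith

/-- limits of the parameters along an ultrafilter -/
private theorem exists_phi (h : BFlow S ev Z ρ L c r₂ r₃ κ) (hr : 0 < r) {f g : ι} (hf : f ∈ S)
    (hall : ∀ k : ℕ, ∃ (R : ℝ) (φ : ℂ → ℂ), (k : ℝ) ≤ R ∧ Fol ev r₂ r ε R f g φ) :
    ∃ φ : ℂ → ℂ, (∀ z, dist (ev g z) (ev f (φ z)) ≤ ε) ∧ (∀ z z', ‖z - z'‖ ≤ r → ‖φ z - φ z'‖ ≤ r₂ / 4) ∧ φ 0 = 0 := by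
  choose R φ hR hFol using hall
  have hU : ((hyperfilter ℕ : Ultrafilter ℕ) : Filter ℕ) ≤ atTop := by
    rw [← Nat.cofinite_eq_atTop]
    exact hyperfilter_le_cofinite
  have hev : ∀ z : ℂ, ∀ᶠ k in ((hyperfilter ℕ : Ultrafilter ℕ) : Filter ℕ), z ∈ ball (0 : ℂ) (R k) := by
    intro z
    have : ∀ᶠ k : ℕ in atTop, ‖z‖ < (k : ℝ) := (tendsto_natCast_atTop_atTop (R := ℝ)).eventually_gt_atTop ‖z‖
    filter_upwards [hU this] with k hk
    rw [mem_ball_zero_iff]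
    exact lt_of_lt_of_le hk (hR k)
  have hlim : ∀ z : ℂ, ∃ b₀ : ℂ, Tendsto (fun k => φ k z) ((hyperfilter ℕ : Ultrafilter ℕ) : Filter ℕ) (𝓝 b₀) := by
    intro z
    obtain ⟨b₀, _, hb⟩ := exists_lim_bdd (hyperfilter ℕ) (b := fun k => φ k z) (C := (⌈‖z‖ / r⌉₊ : ℝ) * (r₂ / 4)) (by
      filter_upwards [hev z] with k hk
      refine norm_le_of_fol hr (hFol k) _ z hk ?_
      rw [← div_le_iff₀ hr]
      exact Nat.le_ceil _)
    exact ⟨b₀, hb⟩
  choose ψ hψ using hlim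
  refine ⟨ψ, ?_, ?_, ?_⟩
  · intro z
    have h1 : Tendsto (fun k => dist (ev g z) (ev f (φ k z))) ((hyperfilter ℕ : Ultrafilter ℕ) : Filter ℕ) (𝓝 (dist (ev g z) (ev f (ψ z)))) :=
      tendsto_const_nhds.dist (((h.continuous hf).tendsto _).comp (hψ z))
    refine le_of_tendsto h1 ?_
    filter_upwards [hev z] with k hk
    exact (hFol k).close z hk
  · intro z z' hzz
    have h1 : Tendsto (fun k => ‖φ k z - φ k z'‖) ((hyperfilter ℕ : Ultrafilter ℕ) : Filter ℕ) (𝓝 ‖ψ z - ψ z'‖) :=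
      ((hψ z).sub (hψ z')).norm
    refine le_of_tendsto h1 ?_
    filter_upwards [hev z, hev z'] with k hk hk'
    exact (hFol k).cont z hk z' hk' hzz
  · have h1 : Tendsto (fun k => φ k 0) ((hyperfilter ℕ : Ultrafilter ℕ) : Filter ℕ) (𝓝 0) := by
      have : (fun k => φ k 0) = fun _ => (0 : ℂ) := by
        funext k
        exact (hFol k).zero
      rw [this]
      exact tendsto_const_nhds
    exact tendsto_nhds_unique (hψ 0) h1

private theorem exp_tendsto {B κ r a : ℝ} (hκ : 0 < κ) :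
    Tendsto (fun R : ℝ => B * Real.exp (-κ * ((R - r / 32) ^ 2 - a ^ 2))) atTop (𝓝 0) := by
  have h1 : Tendsto (fun R : ℝ => R - r / 32) atTop atTop := tendsto_atTop_add_const_right _ _ tendsto_id
  have h2 : Tendsto (fun R : ℝ => (R - r / 32) ^ 2) atTop atTop := (tendsto_pow_atTop (two_ne_zero)).comp h1
  have h3 : Tendsto (fun R : ℝ => (R - r / 32) ^ 2 - a ^ 2) atTop atTop := tendsto_atTop_add_const_right _ _ h2
  have h4 : Tendsto (fun R : ℝ => -κ * ((R - r / 32) ^ 2 - a ^ 2)) atTop atBot :=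
    h3.const_mul_atTop_of_neg (by linarith)
  have h5 := (Real.tendsto_exp_atBot.comp h4).const_mul B
  simpa using h5

theorem Adm.rel_of_all (h : BFlow S ev Z ρ L c r₂ r₃ κ) (ha : Adm S ev Z ρ L c r₂ r₃ κ r ε B) {f g : ι} (hf : f ∈ S) (hg : g ∈ S)
    (hall : ∀ k : ℕ, ∃ (R : ℝ) (φ : ℂ → ℂ), (k : ℝ) ≤ R ∧ Fol ev r₂ r ε R f g φ)
    (hZ : (∀ z, ev g z ∈ Z) → ∀ z, ev f z ∈ Z) : Rel ev r₂ r f g := by
  have hr : 0 < r := ha.cst.r_pos
  have hr₂ : 0 < r₂ := h.r₂_pos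
  have hr₃ : 0 < r₃ := h.r₃_pos
  have hc : 0 < c := h.c_pos
  obtain ⟨φ, hclose, hcont, hzero⟩ := exists_phi h hr hf hall
  have hFol : ∀ R : ℝ, Fol ev r₂ r ε R f g φ := fun R =>
    ⟨fun z _ => hclose z, fun z _ z' _ hz => hcont z z' hz, hzero⟩
  have hFolAt : ∀ z : ℂ, FolAt ev r₂ (r / 32) ε f g z φ := fun z =>
    (hFol (‖z‖ + r / 32 + 1)).folAt (by linarith) (by linarith) (by linarith) le_rfl
  have hρ : ∀ z, ρ f (φ z) g z ≤ 0 := by
    intro z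
    refine ge_of_tendsto (exp_tendsto (B := B) (κ := κ) (r := r) (a := ‖z‖) h.κ_pos) ?_
    filter_upwards [eventually_ge_atTop r, eventually_gt_atTop ‖z‖] with R h1 h2
    exact ha.decay f hf g hg φ R h1 (hFol R) z (by rwa [mem_ball_zero_iff])
  -- `g` is on the plaque of `f` or in `Z`
  have hor : ∀ z, ev g z ∈ Z ∨ ev g z ∈ Pl ev r₂ f (φ z) := by
    intro z
    by_contra hcon
    rw [not_or] at hcon
    obtain ⟨hn1, hn2⟩ := hcon
    have hcl : IsClosed (Pl ev r₂ f (φ z)) :=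
      ((isCompact_closedBall (φ z) r₂).image (h.continuous hf)).isClosed
    obtain ⟨η₁, hη₁, hb₁⟩ := Metric.isOpen_iff.mp h.closed.isOpen_compl _ hn1
    obtain ⟨η₂, hη₂, hb₂⟩ := Metric.isOpen_iff.mp hcl.isOpen_compl _ hn2
    have hη : 0 < min η₁ η₂ / 2 := by positivity
    obtain ⟨δ, hδ, hsm⟩ := ha.small (min η₁ η₂ / 2) hη
    have hlt₁ : min η₁ η₂ / 2 < η₁ := by
      have := min_le_left η₁ η₂
      linarith
    have hlt₂ : min η₁ η₂ / 2 < η₂ := by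
      have := min_le_right η₁ η₂
      linarith
    rcases hsm f hf g hg z φ (hFolAt z) ((hρ z).trans hδ.le) with ⟨y, hy, hd⟩ | ⟨w, hw, hd⟩
    · exact hb₁ (show y ∈ ball (ev g z) η₁ by
        rw [mem_ball, dist_comm]
        exact lt_of_le_of_lt hd hlt₁) hy
    · exact hb₂ (show ev f w ∈ ball (ev g z) η₂ by
        rw [mem_ball, dist_comm]
        exact lt_of_le_of_lt hd hlt₂) ⟨w, hw, rfl⟩
  -- points of the plaque are near the centre
  have hnear : ∀ z w, w ∈ closedBall (φ z) r₂ → ev f w = ev g z → ‖w - φ z‖ ≤ r₂ / 64 := by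
    intro z w hw hwe
    rw [mem_closedBall, dist_eq_norm] at hw
    have h1 := h.emb f hf w (φ z) (by linarith)
    rw [hwe] at h1
    have h2 := ha.cst.hε
    have h3 : c * ‖w - φ z‖ ≤ c * (r₂ / 64) := by
      have := h1.trans (hclose z)
      linarith
    exact le_of_mul_le_mul_left h3 hc
  have hclaim : ∀ z₀, ev g z₀ ∈ Pl ev r₂ f (φ z₀) := by
    intro z₀
    rcases h.dense g hg with hZg | hd
    · exact ha.iso f hf g hg (hZ hZg) hZg z₀ φ (hFolAt z₀) z₀ (mem_closedBall_self hr₃.le)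
    · refine ha.ident f hf g hg z₀ (φ z₀) (hclose z₀) z₀ (mem_closedBall_self hr₃.le) ?_ z₀ (mem_closedBall_self hr₃.le)
      have hev : ∀ᶠ z in 𝓝[≠] z₀, ev g z ∈ Pl ev r₂ f (φ z₀) := by
        have hball : ∀ᶠ z in 𝓝[≠] z₀, z ∈ closedBall z₀ r :=
          nhdsWithin_le_nhds (closedBall_mem_nhds z₀ hr)
        filter_upwards [hd z₀, hball] with z hz hzr
        rcases hor z with h1 | h1
        · exact absurd h1 hz
        · obtain ⟨w, hw, hwe⟩ := h1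
          refine ⟨w, ?_, hwe⟩
          have h2 := hnear z w hw hwe
          rw [mem_closedBall, dist_eq_norm] at hzr
          have h3 := hcont z z₀ hzr
          rw [mem_closedBall, dist_eq_norm]
          have h4 : ‖w - φ z₀‖ ≤ ‖w - φ z‖ + ‖φ z - φ z₀‖ := by
            simpa using norm_add_le (w - φ z) (φ z - φ z₀)
          linarith
      exact hev.frequently
  choose ψ hψ₁ hψ₂ using hclaim
  have hψ₃ : ∀ z, ‖ψ z - φ z‖ ≤ r₂ / 64 := fun z => hnear z (ψ z) (hψ₁ z) (hψ₂ z)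
  refine ⟨ψ, fun z => (hψ₂ z).symm, ?_, ?_⟩
  · intro z z' hzz
    have h1 := hcont z z' hzz
    have h2 := hψ₃ z
    have h3 := hψ₃ z'
    have h4 : ψ z - ψ z' = (ψ z - φ z) + (φ z - φ z') - (ψ z' - φ z') := by ring
    have h5 : ‖(ψ z - φ z) + (φ z - φ z') - (ψ z' - φ z')‖ ≤ ‖(ψ z - φ z) + (φ z - φ z')‖ + ‖ψ z' - φ z'‖ := norm_sub_le _ _
    have h6 : ‖(ψ z - φ z) + (φ z - φ z')‖ ≤ ‖ψ z - φ z‖ + ‖φ z - φ z'‖ := norm_add_le _ _
    rw [h4]
    linarith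
  · have h1 := hψ₃ 0
    rw [hzero, sub_zero] at h1
    linarith

end Pool.Agent.H5.BD

end

section

/-!
# Fermat covers: definitions

Locally closed subsets of `ℙ^N` given by forms and by the condition that some homogeneous
coordinates are not zero, and the monomial curves `t ↦ (a_i t ^ (n_i))` contained in them.
-/

open MvPolynomial
open Pool.Agent.H17 (PN VanishesAt zeroLocus ZariskiClosedIn)
open Pool.Agent.H17GT (coordFun)
open Pool.Agent.H17LG.Variety (FunField ratio IsLogGeneralType)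
open Pool.Agent.H23.Fano (PrimeDivisorOver)

noncomputable section

namespace Pool.Agent.H62.FC

variable {N : ℕ}

/-- The points of the common zero locus of the forms `A l` with `x i ≠ 0` for `i ∈ O`. -/
def openLocus {κ : Type} (A : κ → MvPolynomial (Fin (N + 1)) ℂ) (O : Finset (Fin (N + 1))) :
    Set (PN N) :=
  {x | x ∈ zeroLocus A ∧ ∀ i ∈ O, x.rep i ≠ 0}

/-- The points of the zero locus of the homogeneous ideal `P` with `x i ≠ 0` for `i ∈ O`. -/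
def primeLocus (P : Ideal (MvPolynomial (Fin (N + 1)) ℂ)) (O : Finset (Fin (N + 1))) :
    Set (PN N) :=
  {x | (∀ Q ∈ P, ∀ n, Q.IsHomogeneous n → VanishesAt Q x) ∧ ∀ i ∈ O, x.rep i ≠ 0}

/-- The union of the images of the non-constant maps `t ↦ (a_i t ^ (n_i))`, `t ≠ 0`, into `X`. -/
def monomialCurves (X : Set (PN N)) : Set (PN N) :=
  {x | ∃ (a : Fin (N + 1) → ℂ) (ha : a ≠ 0) (n : Fin (N + 1) → ℤ),
    x = Projectivization.mk ℂ a ha ∧ (∃ i j, a i ≠ 0 ∧ a j ≠ 0 ∧ n i ≠ n j) ∧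
    ∀ (t : ℂ) (h : (fun i => a i * t ^ n i) ≠ 0), t ≠ 0 →
      Projectivization.mk ℂ (fun i => a i * t ^ n i) h ∈ X}

/-- The exceptional set of `X`. -/
def excSet (X : Set (PN N)) : Set (PN N) := closureIn X (monomialCurves X)

/-- The centre of the prime divisor `E` on the closed subvariety of `ℙ^N` given by `P` lies in one
of the hyperplanes `x i = 0`, `i ∈ O`. -/
def OnBoundary (P : Ideal (MvPolynomial (Fin (N + 1)) ℂ)) [P.IsPrime] (O : Finset (Fin (N + 1)))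
    {w : ℕ} (E : PrimeDivisorOver (FunField P) w) : Prop :=
  ∃ j, coordFun P j ≠ 0 ∧ (∀ i, 0 ≤ E.ord (ratio P i j)) ∧ ∃ i ∈ O, 0 < E.ord (ratio P i j)

/-- The variety `primeLocus P O` is of log general type. -/
def LogGeneralType (P : Ideal (MvPolynomial (Fin (N + 1)) ℂ)) [P.IsPrime]
    (O : Finset (Fin (N + 1))) (w : ℕ) : Prop :=
  IsLogGeneralType (OnBoundary P O (w := w))

end Pool.Agent.H62.FC

end
end

section

/-!
# Evaluation along one-parameter groups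
-/

open MvPolynomial Topology Filter
open Pool.Agent.H17 (PN VanishesAt zeroLocus ZariskiClosedIn vanishesAt_mk_iff)

noncomputable section

namespace Pool.Agent.H62.FC

variable {N : ℕ} {κ : Type} {A : κ → MvPolynomial (Fin (N + 1)) ℂ} {e : κ → ℕ}
  {O : Finset (Fin (N + 1))} {P : Ideal (MvPolynomial (Fin (N + 1)) ℂ)}

/-- The condition on the coordinates does not depend on the representative. -/
lemma rep_ne_zero_iff (a : Fin (N + 1) → ℂ) (ha : a ≠ 0) (i : Fin (N + 1)) :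
    (Projectivization.mk ℂ a ha).rep i ≠ 0 ↔ a i ≠ 0 := by
  obtain ⟨c, hc, h⟩ := Pool.Agent.H17.exists_smul_rep a ha
  rw [h, Pi.smul_apply, smul_eq_mul]
  constructor
  · intro h1 h2
    exact h1 (by rw [h2, mul_zero])
  · intro h1
    exact mul_ne_zero hc h1

lemma mk_mem_primeLocus (a : Fin (N + 1) → ℂ) (ha : a ≠ 0) :
    Projectivization.mk ℂ a ha ∈ primeLocus P O ↔
      (∀ Q ∈ P, ∀ n, Q.IsHomogeneous n → eval a Q = 0) ∧ ∀ i ∈ O, a i ≠ 0 := by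
  constructor
  · rintro ⟨h1, h2⟩
    exact ⟨fun Q hQ n hn => (vanishesAt_mk_iff hn a ha).mp (h1 Q hQ n hn),
      fun i hi => (rep_ne_zero_iff a ha i).mp (h2 i hi)⟩
  · rintro ⟨h1, h2⟩
    exact ⟨fun Q hQ n hn => (vanishesAt_mk_iff hn a ha).mpr (h1 Q hQ n hn),
      fun i hi => (rep_ne_zero_iff a ha i).mpr (h2 i hi)⟩

end Pool.Agent.H62.FC

end
end

section

/-!
# The Nullstellensatz for loci with nonzero coordinates and the exceptional set
-/

noncomputable section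

namespace Pool.Agent.H62.FC

open MvPolynomial Topology Filter
open Pool.Agent.H17 (PN VanishesAt zeroLocus ZariskiClosedIn HolomorphicInto puncturedDisc vanishesAt_mk_iff)
open Pool.Agent.H17GT (coordFun)
open Pool.Agent.H17LG.Variety (FunField ratio IsLogGeneralType)
open Pool.Agent.H23.Fano (PrimeDivisorOver)

variable {N : ℕ} {κ : Type} {A : κ → MvPolynomial (Fin (N + 1)) ℂ} {e : κ → ℕ}
  {O : Finset (Fin (N + 1))} {P : Ideal (MvPolynomial (Fin (N + 1)) ℂ)}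

/-! D-V -/
theorem mem_of_vanishes [P.IsPrime] (hP : Homog P) {S : Finset (Fin (N + 1))}
    (hS : ∀ i ∈ S, X i ∉ P) (hne : ∃ i, X i ∉ P) {m : ℕ} {F : MvPolynomial (Fin (N + 1)) ℂ}
    (hF : F.IsHomogeneous m) (h : ∀ x ∈ primeLocus P S, VanishesAt F x) : F ∈ P := by
  obtain ⟨i1, hi1⟩ := hne
  have hG : F * (∏ i ∈ S, X i) * X i1 ∈ P := by
    rw [← MvPolynomial.IsPrime.vanishingIdeal_zeroLocus (K := ℂ) P,
      MvPolynomial.mem_vanishingIdeal_iff]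
    intro v hv
    rw [MvPolynomial.aeval_eq_eval]
    have hv' : ∀ Q ∈ P, eval v Q = 0 := fun Q hQ => by
      have h1 := hv Q hQ
      rwa [MvPolynomial.aeval_eq_eval] at h1
    change eval v (F * (∏ i ∈ S, X i) * X i1) = 0
    rw [map_mul, map_mul, map_prod]
    simp only [eval_X]
    by_cases hv0 : v = 0
    · rw [hv0]
      simp
    · by_cases hz : ∃ i ∈ S, v i = 0
      · obtain ⟨i, hi, hvi⟩ := hz
        rw [Finset.prod_eq_zero hi hvi]
        simp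
      · push Not at hz
        have h1 : Projectivization.mk ℂ v hv0 ∈ primeLocus P S :=
          (mk_mem_primeLocus v hv0).2 ⟨fun Q hQ _ _ => hv' Q hQ, hz⟩
        have h2 := h _ h1
        rw [vanishesAt_mk_iff hF v hv0] at h2
        rw [h2]
        simp
  have hpr : P.IsPrime := inferInstance
  rcases hpr.mem_or_mem hG with h1 | h1
  · rcases hpr.mem_or_mem h1 with h2 | h2
    · exact h2
    · exfalso
      obtain ⟨i, hi, h3⟩ := (hpr.prod_mem_iff).1 h2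
      exact hS i hi h3
  · exact absurd h1 hi1

/-! D-A -/

end Pool.Agent.H62.FC

end
end

section

/-!
# TH Defs: symmetric differentials on a projective surface

`X` is the cone (without `0`) of a smooth projective surface.  A symmetric differential of degree `m` is a holomorphic function on the
tangent bundle which is homogeneous of degree `m` on the tangent spaces, here in the language of the cone (as `Form` in `H14/PP/Defs.lean`).
-/

set_option autoImplicit false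

open Topology Filter Metric

namespace Pool.Agent.H92.TH

open Pool.Agent.H36.BP (EN)
open Pool.Agent.H14.PP (Tan)

variable {N : ℕ}

/-- A symmetric differential of degree `m` on the surface whose cone is `X`. -/
structure SymDiff (X : Set (EN N)) (m : ℕ) where
  /-- the differential -/
  toFun : EN N → EN N → ℂ
  add_smul : ∀ x ∈ X, ∀ v, Tan X x v → ∀ a : ℂ, toFun x (v + a • x) = toFun x v
  smul : ∀ x ∈ X, ∀ v, Tan X x v → ∀ a : ℂ, toFun x (a • v) = a ^ m * toFun x v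
  scale : ∀ x ∈ X, ∀ v, Tan X x v → ∀ c : ℂ, c ≠ 0 → toFun (c • x) (c • v) = toFun x v
  analytic : ∀ (φ : ℂ × ℂ → EN N) (p w : ℂ × ℂ), AnalyticAt ℂ φ p → (∀ᶠ y in 𝓝 p, φ y ∈ X) →
    AnalyticAt ℂ (fun y : (ℂ × ℂ) × (ℂ × ℂ) => toFun (φ y.1) (fderiv ℂ φ y.1 y.2)) (p, w)

end Pool.Agent.H92.TH

end

section

/-!
# MQ3 GlobD: a surface on which the total transform of a curve has normal crossings

`X` is the cone of a closed surface in `ℙ(V)`, `B` the cone of a curve in it.  `Y` is the cone of a smooth closed surface in `ℙ(V')`, a composition of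
blow-ups of points of `B`; the map to `X` is given by `L a` where `L a y ≠ 0`.
-/

set_option autoImplicit false

open Topology Filter

noncomputable section

namespace Pool.Agent.MQ3

open Pool.Agent.H17BP (Pr Surface NodalAt Tan)

/-- A surface over `X` on which the total transform of `B` has normal crossings. -/
structure NCSurf {V : Type} [NormedAddCommGroup V] [NormedSpace ℂ V] (X B : Set V) where
  V' : Type
  [ng : NormedAddCommGroup V']
  [ns : NormedSpace ℂ V']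
  [fd : FiniteDimensional ℂ V']
  /-- the surface -/
  Y : Set V'
  κ : Type
  [fin : Fintype κ]
  /-- the projections -/
  L : κ → V' →L[ℂ] V
  surf : Surface Y
  ex : ∀ y ∈ Y, ∃ a, L a y ≠ 0
  mem : ∀ y ∈ Y, ∀ a, L a y ≠ 0 → L a y ∈ X
  pr : ∀ y ∈ Y, ∀ a b, L a y ≠ 0 → L b y ≠ 0 → Pr (L a y) (L b y)
  nodal : ∀ y ∈ Y, NodalAt Y {y | y ∈ Y ∧ ∀ a, L a y ≠ 0 → L a y ∈ B} y
  /-- off the total transform of `B` the projection is immersive -/
  imm : ∀ y ∈ Y, ∀ a, L a y ≠ 0 → L a y ∉ B → ∀ v ∈ Tan Y y, (∃ c : ℂ, L a v = c • L a y) → ∃ c : ℂ, v = c • y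
  d : ℕ
  K : ℝ
  /-- the lift of a curve -/
  lift : ∀ F : ℂ → V, Differentiable ℂ F → (∀ z, F z ∈ X) → (∃ z, F z ∉ B) → ∃ (F' : ℂ → V') (h : ℂ → ℂ),
    Differentiable ℂ F' ∧ (∀ z, F' z ∈ Y) ∧ Differentiable ℂ h ∧ (∃ z, h z ≠ 0) ∧ (∀ z, ‖h z‖ * ‖F' z‖ ≤ K * ‖F z‖ ^ d) ∧
      ∀ z a, ∃ c : ℂ, L a (F' z) = c • F z

attribute [instance] NCSurf.ng NCSurf.ns NCSurf.fd NCSurf.fin

end Pool.Agent.MQ3

end
end

section

/-!
# MQ3 ThInd: the function `Θ` does not depend on the chart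

`Th v om m p = ζ' / ζ + ζ div v (p) + (1 / m) (om p)' / om p`, where `p' = ζ v (p)`.
-/

set_option autoImplicit false

open Topology Filter Metric

noncomputable section

namespace Pool.Agent.MQ3

open Pool.Agent.MQ (ztv)

theorem ztv_of {v : ℂ × ℂ → ℂ × ℂ} {g : ℂ → ℂ × ℂ} {z c : ℂ} (h : deriv g z = c • v (g z)) (h0 : v (g z) ≠ 0) : ztv v g z = c := by
  classical
  unfold ztv
  rw [h]
  split_ifs with h2
  · have h1 : (v (g z)).1 ≠ 0 := fun h1 => h0 (Prod.ext h1 h2)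
    simp only [Prod.smul_fst, smul_eq_mul]
    rw [mul_div_cancel_right₀ _ h1]
  · simp only [Prod.smul_snd, smul_eq_mul]
    rw [mul_div_cancel_right₀ _ h2]

/-- `p' = ζ v (p)` -/
theorem ztv_smul {v : ℂ × ℂ → ℂ × ℂ} {g : ℂ → ℂ × ℂ} {z : ℂ} (h : (v (g z)).1 * (deriv g z).2 - (v (g z)).2 * (deriv g z).1 = 0) (h0 : v (g z) ≠ 0) :
    deriv g z = ztv v g z • v (g z) := by
  classical
  unfold ztv
  split_ifs with h2
  · have h1 : (v (g z)).1 ≠ 0 := fun h1 => h0 (Prod.ext h1 h2)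
    refine Prod.ext ?_ ?_
    · simp only [Prod.smul_fst, smul_eq_mul]
      rw [div_mul_cancel₀ _ h1]
    · simp only [Prod.smul_snd, smul_eq_mul]
      rw [h2, mul_zero]
      rw [h2, zero_mul, sub_zero] at h
      exact (mul_eq_zero.1 h).resolve_left h1
  · refine Prod.ext ?_ ?_
    · simp only [Prod.smul_fst, smul_eq_mul]
      rw [div_mul_eq_mul_div, eq_div_iff h2]
      linear_combination -h
    · simp only [Prod.smul_snd, smul_eq_mul]
      rw [div_mul_cancel₀ _ h2]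

theorem ztv_an {v : ℂ × ℂ → ℂ × ℂ} {g : ℂ → ℂ × ℂ} {z : ℂ} (hg : AnalyticAt ℂ g z) (hv : AnalyticAt ℂ v (g z))
    (h : ∀ᶠ w in 𝓝 z, (v (g w)).1 * (deriv g w).2 - (v (g w)).2 * (deriv g w).1 = 0) (h0 : v (g z) ≠ 0) : AnalyticAt ℂ (ztv v g) z := by
  have hvg : AnalyticAt ℂ (fun w => v (g w)) z := AnalyticAt.fun_comp (g := v) (f := g) hv hg
  have hne : ∀ᶠ w in 𝓝 z, v (g w) ≠ 0 := hvg.continuousAt.eventually_ne h0
  by_cases h2 : (v (g z)).2 = 0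
  · have h3 : (v (g z)).1 ≠ 0 := fun h3 => h0 (Prod.ext h3 h2)
    have h5 : AnalyticAt ℂ (fun w => (v (g w)).1) z := analyticAt_fst.comp hvg
    have h6 : AnalyticAt ℂ (fun w => (deriv g w).1) z := analyticAt_fst.comp hg.deriv
    refine (h6.div h5 h3).congr ?_
    filter_upwards [h, hne, h5.continuousAt.eventually_ne h3] with w e1 e2 e3
    have h4 := congrArg Prod.fst (ztv_smul e1 e2)
    simp only [Prod.smul_fst, smul_eq_mul] at h4
    show (deriv g w).1 / (v (g w)).1 = _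
    rw [h4, mul_div_cancel_right₀ _ e3]
  · have h5 : AnalyticAt ℂ (fun w => (v (g w)).2) z := analyticAt_snd.comp hvg
    have h6 : AnalyticAt ℂ (fun w => (deriv g w).2) z := analyticAt_snd.comp hg.deriv
    refine (h6.div h5 h2).congr ?_
    filter_upwards [h, hne, h5.continuousAt.eventually_ne h2] with w e1 e2 e3
    have h4 := congrArg Prod.snd (ztv_smul e1 e2)
    simp only [Prod.smul_snd, smul_eq_mul] at h4
    show (deriv g w).2 / (v (g w)).2 = _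
    rw [h4, mul_div_cancel_right₀ _ e3]

end Pool.Agent.MQ3

end
end
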