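import Pool.Agent.H94.G6.M06
import Pool.Agent.H94.G6.M07

/-! The parts of this file: H30M.Mean, H36.BP.SubA, H36.BP.WdA_1, MQ.VDefs. -/

section

/-!
# Functions with logarithmic singularities

`LogSing w c z`: near `z` (outside `z`) the function `w` is `c log |ζ - z|` plus a `C²` function.
For a test function `τ` and `w` with logarithmic singularities on `tsupport τ`:
`- ∫ ∇τ ∇w = ∫ τ Δw + 2 π ∑ c τ` (`τ` of class `C¹`) and `∫ Δτ w` = the same (`τ` of class `C²`).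
-/

set_option autoImplicit false

open MeasureTheory Complex Set Filter Topology Laplacian InnerProductSpace Metric

namespace Pool.Agent.H30M

/-- logarithmic singularity with the coefficient `c` -/
def LogSing (w : ℂ → ℝ) (c : ℝ) (z : ℂ) : Prop :=
  ∃ s : ℂ → ℝ, ContDiffAt ℝ 2 s z ∧ w =ᶠ[𝓝[≠] z] fun ζ => c * Real.log ‖ζ - z‖ + s ζ

theorem LogSing.of_contDiffAt {w : ℂ → ℝ} {z : ℂ} (h : ContDiffAt ℝ 2 w z) : LogSing w 0 z :=
  ⟨w, h, Eventually.of_forall fun ζ => by simp⟩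

theorem LogSing.congr {w w' : ℂ → ℝ} {c : ℝ} {z : ℂ} (h : LogSing w c z) (e : w' =ᶠ[𝓝[≠] z] w) : LogSing w' c z := by
  obtain ⟨s, hs, h1⟩ := h
  exact ⟨s, hs, e.trans h1⟩

theorem LogSing.add {w w' : ℂ → ℝ} {c c' : ℝ} {z : ℂ} (h : LogSing w c z) (h' : LogSing w' c' z) :
    LogSing (fun ζ => w ζ + w' ζ) (c + c') z := by
  obtain ⟨s, hs, h1⟩ := h
  obtain ⟨s', hs', h1'⟩ := h'
  refine ⟨fun ζ => s ζ + s' ζ, hs.add hs', ?_⟩
  filter_upwards [h1, h1'] with ζ e e'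
  rw [e, e']; ring

theorem LogSing.const_mul {w : ℂ → ℝ} {c : ℝ} {z : ℂ} (h : LogSing w c z) (t : ℝ) :
    LogSing (fun ζ => t * w ζ) (t * c) z := by
  obtain ⟨s, hs, h1⟩ := h
  refine ⟨fun ζ => t * s ζ, contDiffAt_const.mul hs, ?_⟩
  filter_upwards [h1] with ζ e
  rw [e]; ring

theorem LogSing.neg {w : ℂ → ℝ} {c : ℝ} {z : ℂ} (h : LogSing w c z) : LogSing (fun ζ => - w ζ) (- c) z := by
  have := h.const_mul (-1)
  simpa using this

theorem LogSing.sub {w w' : ℂ → ℝ} {c c' : ℝ} {z : ℂ} (h : LogSing w c z) (h' : LogSing w' c' z) :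
    LogSing (fun ζ => w ζ - w' ζ) (c - c') z := by
  have := h.add h'.neg
  simpa [sub_eq_add_neg] using this

/-- `log |g|` for a meromorphic function -/
theorem LogSing.log_norm_mero {g : ℂ → ℂ} {z : ℂ} (hg : MeromorphicAt g z) (h0 : meromorphicOrderAt g z ≠ ⊤) :
    LogSing (fun ζ => Real.log ‖g ζ‖) ((meromorphicOrderAt g z).untop₀ : ℤ) z := by
  obtain ⟨h, hh, h1, h2⟩ := (meromorphicOrderAt_ne_top_iff hg).1 h0
  refine ⟨fun ζ => Real.log ‖h ζ‖, contDiffAt_log_norm hh h1, ?_⟩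
  have h3 : ∀ᶠ ζ in 𝓝[≠] z, h ζ ≠ 0 := (hh.continuousAt.eventually_ne h1).filter_mono nhdsWithin_le_nhds
  filter_upwards [h2, h3, self_mem_nhdsWithin] with ζ e hne hζ
  have hz : ‖ζ - z‖ ≠ 0 := norm_ne_zero_iff.2 (sub_ne_zero.2 hζ)
  rw [e, smul_eq_mul, norm_mul, norm_zpow, Real.log_mul (zpow_ne_zero _ hz) (norm_ne_zero_iff.2 hne), Real.log_zpow]

/-- `log |g|` for an analytic function -/
theorem LogSing.log_norm {g : ℂ → ℂ} {z : ℂ} (hg : AnalyticAt ℂ g z) (h0 : analyticOrderAt g z ≠ ⊤) :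
    LogSing (fun ζ => Real.log ‖g ζ‖) (analyticOrderNatAt g z) z := by
  obtain ⟨h, hh, h1, h2⟩ := hg.analyticOrderAt_ne_top.1 h0
  refine ⟨fun ζ => Real.log ‖h ζ‖, contDiffAt_log_norm hh h1, ?_⟩
  have h3 : ∀ᶠ ζ in 𝓝[≠] z, h ζ ≠ 0 := (hh.continuousAt.eventually_ne h1).filter_mono nhdsWithin_le_nhds
  filter_upwards [h2.filter_mono nhdsWithin_le_nhds, h3, self_mem_nhdsWithin] with ζ e hne hζ
  have hz : ‖ζ - z‖ ≠ 0 := norm_ne_zero_iff.2 (sub_ne_zero.2 hζ)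
  rw [e, smul_eq_mul, norm_mul, norm_pow, Real.log_mul (pow_ne_zero _ hz) (norm_ne_zero_iff.2 hne), Real.log_pow]

/-- outside `z` the function is `C²` near `z` -/
theorem LogSing.eventually {w : ℂ → ℝ} {c : ℝ} {z : ℂ} (h : LogSing w c z) : ∀ᶠ ζ in 𝓝[≠] z, ContDiffAt ℝ 2 w ζ := by
  obtain ⟨s, hs, h1⟩ := h
  have h2 : ∀ᶠ ζ in 𝓝[≠] z, ContDiffAt ℝ 2 s ζ := (hs.eventually (by simp)).filter_mono nhdsWithin_le_nhds
  have h3 : ∀ᶠ ζ in 𝓝[≠] z, w =ᶠ[𝓝 ζ] fun ζ => c * Real.log ‖ζ - z‖ + s ζ := by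
    have := eventually_nhdsWithin_iff.1 h1
    have h4 := this.eventually_nhds
    rw [eventually_nhdsWithin_iff]
    filter_upwards [h4] with ζ hζ hne
    filter_upwards [hζ, isOpen_ne.mem_nhds hne] with x hx hx'
    exact hx hx'
  filter_upwards [h2, h3, self_mem_nhdsWithin] with ζ hs2 he hne
  refine ContDiffAt.congr_of_eventuallyEq ?_ he
  have hl : ContDiffAt ℝ 2 (fun ζ : ℂ => Real.log ‖ζ - z‖) ζ :=
    contDiffAt_log_norm (h := fun ζ => ζ - z) (by fun_prop) (sub_ne_zero.2 hne)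
  exact (contDiffAt_const.mul hl).add hs2

/-- **Decomposition on a compact set** -/
theorem logSing_decomp {K : Set ℂ} (hK : IsCompact K) {w : ℂ → ℝ} {c : ℂ → ℝ} (hw : ∀ z ∈ K, LogSing w (c z) z) :
    ∃ (S : Finset ℂ) (w₂ : ℂ → ℝ), (∀ a ∈ S, a ∈ K) ∧ (∀ z ∈ K, ContDiffAt ℝ 2 w₂ z) ∧ (∀ z ∈ K, z ∉ S → ContDiffAt ℝ 2 w z) ∧
      ∀ ζ, ζ ∉ S → w ζ = ∑ a ∈ S, c a * Real.log ‖ζ - a‖ + w₂ ζ := by
  classical
  set B : Set ℂ := {z ∈ K | ¬ ContDiffAt ℝ 2 w z} with hB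
  have hfin : B.Finite := by
    by_contra hinf
    have hinf' : B.Infinite := hinf
    obtain ⟨z, hz, hacc⟩ := hinf'.exists_accPt_of_subset_isCompact hK (fun z hz => hz.1)
    have h1 := (hw z hz).eventually
    rw [accPt_iff_frequently_nhdsNE] at hacc
    exact hacc (h1.mono fun ζ hζ hB' => hB'.2 hζ)
  set S := hfin.toFinset with hS
  have hmem : ∀ a, a ∈ S ↔ a ∈ K ∧ ¬ ContDiffAt ℝ 2 w a := fun a => by rw [hS, Set.Finite.mem_toFinset, hB]; rfl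
  choose! s hs using hw
  set w₂ : ℂ → ℝ := fun ζ => if ζ ∈ S then s ζ ζ - ∑ a ∈ S.erase ζ, c a * Real.log ‖ζ - a‖
    else w ζ - ∑ a ∈ S, c a * Real.log ‖ζ - a‖ with hw2
  have hlog : ∀ a z : ℂ, z ≠ a → ContDiffAt ℝ 2 (fun ζ : ℂ => c a * Real.log ‖ζ - a‖) z := fun a z hne =>
    contDiffAt_const.mul (contDiffAt_log_norm (h := fun ζ => ζ - a) (by fun_prop) (sub_ne_zero.2 hne))
  have hout : ∀ z ∉ S, w₂ =ᶠ[𝓝 z] fun ζ => w ζ - ∑ a ∈ S, c a * Real.log ‖ζ - a‖ := by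
    intro z hz
    have : (S : Set ℂ)ᶜ ∈ 𝓝 z := S.finite_toSet.isClosed.isOpen_compl.mem_nhds (by simpa using hz)
    filter_upwards [this] with ζ hζ
    have hζ' : ζ ∉ S := by simpa using hζ
    simp [hw2, hζ']
  have hin : ∀ z ∈ S, w₂ =ᶠ[𝓝 z] fun ζ => s z ζ - ∑ a ∈ S.erase z, c a * Real.log ‖ζ - a‖ := by
    intro z hz
    have hzK : z ∈ K := ((hmem z).1 hz).1
    have h1 := eventually_nhdsWithin_iff.1 (hs z hzK).2
    have h2 : ((S.erase z : Finset ℂ) : Set ℂ)ᶜ ∈ 𝓝 z :=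
      (S.erase z).finite_toSet.isClosed.isOpen_compl.mem_nhds (by simp)
    filter_upwards [h1, h2] with ζ hζ hζ2
    rcases eq_or_ne ζ z with rfl | hne
    · simp [hw2, hz]
    · have hζS : ζ ∉ S := by
        intro h
        apply hζ2
        simp [hne, h]
      simp only [hw2, hζS, if_false]
      rw [hζ hne, ← Finset.add_sum_erase S (fun a => c a * Real.log ‖ζ - a‖) hz]
      ring
  refine ⟨S, w₂, fun a ha => ((hmem a).1 ha).1, ?_, ?_, ?_⟩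
  · intro z hzK
    by_cases hzS : z ∈ S
    · refine ContDiffAt.congr_of_eventuallyEq ?_ (hin z hzS)
      refine (hs z hzK).1.sub (ContDiffAt.sum fun a ha => hlog a z ?_)
      exact (Finset.ne_of_mem_erase ha).symm
    · refine ContDiffAt.congr_of_eventuallyEq ?_ (hout z hzS)
      have hc : ContDiffAt ℝ 2 w z := by
        by_contra h
        exact hzS ((hmem z).2 ⟨hzK, h⟩)
      refine hc.sub (ContDiffAt.sum fun a ha => hlog a z ?_)
      rintro rfl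
      exact hzS ha
  · intro z hzK hzS
    by_contra h
    exact hzS ((hmem z).2 ⟨hzK, h⟩)
  · intro ζ hζ
    simp [hw2, hζ]

end Pool.Agent.H30M

end

section

/-!
# BP SubA: calculus of lower supports

* `mul`: for `c'' < c + d` take `c' < c`, `d' < d` with `c' + d' = c''` and multiply the supports.
* `rpow`: `h z₀ ≠ 0`; near `z₀` the function `k z = (u z₀)^r * (h z/h z₀)^(r : ℂ)` is holomorphic (`h z/h z₀` is in the slit plane) and `|k| = |h|^r`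
  (`Complex.norm_cpow_real`...), exponent `r c'`; for `r = 0` trivial; for `r > 0` use `c'/r`.
* `of_holo`: `exp(c' |z - z₀|²) ≤ 1` for `c' < 0`.
-/

set_option autoImplicit false

namespace Pool.Agent.H36.BP

open Filter Topology Metric

variable {N : ℕ}

theorem Sub.anti {u : ℂ → ℝ} {z₀ : ℂ} {c d : ℝ} (h : Sub u z₀ c) (hd : d ≤ c) : Sub u z₀ d := by
  exact ⟨h.1, fun c' hc' => h.2 c' (hc'.trans_le hd)⟩

theorem Sub.mono {u v : ℂ → ℝ} {z₀ : ℂ} {c : ℝ} (h : Sub u z₀ c) (h0 : u z₀ = v z₀) (h1 : ∀ᶠ z in 𝓝 z₀, u z ≤ v z) : Sub v z₀ c := by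
  refine ⟨h0 ▸ h.1, fun c' hc' => ?_⟩
  obtain ⟨g, hg, hg0, hge⟩ := h.2 c' hc'
  refine ⟨g, hg, hg0.trans h0, ?_⟩
  filter_upwards [hge, h1] with z a b using a.trans b

theorem Sub.congr {u v : ℂ → ℝ} {z₀ : ℂ} {c : ℝ} (h : Sub u z₀ c) (h1 : ∀ᶠ z in 𝓝 z₀, u z = v z) : Sub v z₀ c := by
  exact h.mono h1.self_of_nhds (h1.mono fun z hz => hz.le)

theorem Sub.mul {u v : ℂ → ℝ} {z₀ : ℂ} {c d : ℝ} (h : Sub u z₀ c) (h' : Sub v z₀ d) : Sub (fun z => u z * v z) z₀ (c + d) := by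
  refine ⟨mul_pos h.1 h'.1, fun c'' hc'' => ?_⟩
  obtain ⟨g, hg, hg0, hge⟩ := h.2 (c - (c + d - c'') / 2) (by linarith)
  obtain ⟨k, hk, hk0, hke⟩ := h'.2 (d - (c + d - c'') / 2) (by linarith)
  refine ⟨fun z => g z * k z, hg.mul hk, ?_, ?_⟩
  · rw [norm_mul, hg0, hk0]
  · filter_upwards [hge, hke] with z h1 h2
    have e : ‖g z * k z‖ * Real.exp (c'' * ‖z - z₀‖ ^ 2) =
        (‖g z‖ * Real.exp ((c - (c + d - c'') / 2) * ‖z - z₀‖ ^ 2)) *
          (‖k z‖ * Real.exp ((d - (c + d - c'') / 2) * ‖z - z₀‖ ^ 2)) := by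
      rw [norm_mul]
      have e1 : Real.exp (c'' * ‖z - z₀‖ ^ 2) =
          Real.exp ((c - (c + d - c'') / 2) * ‖z - z₀‖ ^ 2) *
            Real.exp ((d - (c + d - c'') / 2) * ‖z - z₀‖ ^ 2) := by
        rw [← Real.exp_add]
        congr 1
        ring
      rw [e1]
      ring
    rw [e]
    have p1 : 0 ≤ ‖g z‖ * Real.exp ((c - (c + d - c'') / 2) * ‖z - z₀‖ ^ 2) := by positivity
    have p2 : 0 ≤ ‖k z‖ * Real.exp ((d - (c + d - c'') / 2) * ‖z - z₀‖ ^ 2) := by positivity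
    exact mul_le_mul h1 h2 p2 (p1.trans h1)

theorem Sub.rpow {u : ℂ → ℝ} {z₀ : ℂ} {c r : ℝ} (h : Sub u z₀ c) (hr : 0 ≤ r) : Sub (fun z => u z ^ r) z₀ (r * c) := by
  refine ⟨Real.rpow_pos_of_pos h.1 r, fun c' hc' => ?_⟩
  rcases hr.eq_or_lt with h0 | hr0
  · subst h0
    rw [zero_mul] at hc'
    refine ⟨fun _ => 1, analyticAt_const, by simp, Filter.Eventually.of_forall fun z => ?_⟩
    show ‖(1 : ℂ)‖ * Real.exp (c' * ‖z - z₀‖ ^ 2) ≤ u z ^ (0 : ℝ)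
    rw [norm_one, one_mul, Real.rpow_zero, Real.exp_le_one_iff]
    exact mul_nonpos_of_nonpos_of_nonneg hc'.le (by positivity)
  · have hc2 : c' / r < c := by
      rw [div_lt_iff₀ hr0]
      linarith
    obtain ⟨g, hg, hg0, hge⟩ := h.2 (c' / r) hc2
    have hgz : g z₀ ≠ 0 := by
      intro h2
      rw [h2, norm_zero] at hg0
      exact h.1.ne hg0
    have hq : AnalyticAt ℂ (fun z => g z / g z₀) z₀ := hg.div analyticAt_const hgz
    have hsl : (fun z => g z / g z₀) z₀ ∈ Complex.slitPlane := by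
      show g z₀ / g z₀ ∈ Complex.slitPlane
      rw [div_self hgz]
      exact Complex.one_mem_slitPlane
    have hkn : ∀ z, ‖(((u z₀) ^ r : ℝ) : ℂ) * (g z / g z₀) ^ (r : ℂ)‖ = ‖g z‖ ^ r := by
      intro z
      rw [norm_mul, Complex.norm_real, Complex.norm_cpow_real, norm_div, hg0, Real.norm_eq_abs,
        abs_of_pos (Real.rpow_pos_of_pos h.1 r), Real.div_rpow (norm_nonneg _) h.1.le]
      have := (Real.rpow_pos_of_pos h.1 r).ne'
      field_simp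
    refine ⟨fun z => (((u z₀) ^ r : ℝ) : ℂ) * (g z / g z₀) ^ (r : ℂ),
      analyticAt_const.mul (hq.cpow analyticAt_const hsl), ?_, ?_⟩
    · rw [hkn, hg0]
    · filter_upwards [hge] with z hz
      rw [hkn]
      have e1 : Real.exp (c' * ‖z - z₀‖ ^ 2) = Real.exp (c' / r * ‖z - z₀‖ ^ 2) ^ r := by
        rw [← Real.exp_mul]
        congr 1
        field_simp
      rw [e1, ← Real.mul_rpow (norm_nonneg _) (Real.exp_pos _).le]
      exact Real.rpow_le_rpow (by positivity) hz hr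

theorem Sub.of_holo {h : ℂ → ℂ} {z₀ : ℂ} (hh : AnalyticAt ℂ h z₀) (h0 : h z₀ ≠ 0) : Sub (fun z => ‖h z‖) z₀ 0 := by
  refine ⟨norm_pos_iff.2 h0, fun c' hc' => ⟨h, hh, rfl, Filter.Eventually.of_forall fun z => ?_⟩⟩
  have h1 : Real.exp (c' * ‖z - z₀‖ ^ 2) ≤ 1 := by
    rw [Real.exp_le_one_iff]
    exact mul_nonpos_of_nonpos_of_nonneg hc'.le (by positivity)
  exact mul_le_of_le_one_right (norm_nonneg _) h1

theorem Sub.const {a : ℝ} (ha : 0 < a) (z₀ : ℂ) : Sub (fun _ => a) z₀ 0 := by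
  have hne : (a : ℂ) ≠ 0 := by exact_mod_cast ha.ne'
  have h := Sub.of_holo (h := fun _ => (a : ℂ)) (z₀ := z₀) analyticAt_const hne
  refine h.congr (Filter.Eventually.of_forall fun z => ?_)
  show ‖(a : ℂ)‖ = a
  rw [Complex.norm_real, Real.norm_eq_abs, abs_of_pos ha]

theorem Sub.const_mul {u : ℂ → ℝ} {z₀ : ℂ} {c a : ℝ} (h : Sub u z₀ c) (ha : 0 < a) : Sub (fun z => a * u z) z₀ c := by
  have h1 := (Sub.const ha z₀).mul h
  rw [zero_add] at h1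
  exact h1

end Pool.Agent.H36.BP

end

section

/-!
# BP WdA: the wedge norm

`wd x v = |x ∧ v|`, square root of the Gram determinant.  `gram_proj` : for orthonormal `a, b` the determinant of the projections is at most the
Gram determinant: with `x = Px + x'`, `v = Pv + v'` (orthogonal decomposition along the span of `a, b`), `A = |Px|²`, `B = |Pv|²`, `C = ⟨Px,Pv⟩`,
`(A + a')(B + b') - |C + c'|² ≥ AB - |C|²` because `a'b' ≥ |c'|²` and `A b' + a' B ≥ 2 (A B a' b')^(1/2) ≥ 2 |C||c'|`; and `AB - |C|² = |det|²`.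
`wd_norming` : for `x, v` with `wd x v > 0` take `a = x/|x|`, `b` = normalised component of `v` orthogonal to `x`.
-/

set_option autoImplicit false

namespace Pool.Agent.H36.BP

open Filter Topology Metric

variable {N : ℕ}

private theorem WdA_nn (x : EN N) : (inner ℂ x x : ℂ) = ((‖x‖ : ℝ) : ℂ) ^ 2 := by
  exact inner_self_eq_norm_sq_to_K x

private theorem WdA_symm (x v : EN N) : (inner ℂ x v : ℂ) * inner ℂ v x = (((‖inner ℂ x v‖ : ℝ)) : ℂ) ^ 2 := by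
  rw [← inner_conj_symm v x]
  exact Complex.mul_conj' _

/-- the square of the wedge norm as a complex Gram determinant -/
private theorem WdA_gram (x v : EN N) : (((wd x v : ℝ)) : ℂ) ^ 2 =
    (inner ℂ x x : ℂ) * inner ℂ v v - (inner ℂ x v : ℂ) * inner ℂ v x := by
  have h := wd_sq x v
  have h2 : (((wd x v ^ 2 : ℝ)) : ℂ) = ((‖x‖ ^ 2 * ‖v‖ ^ 2 - ‖inner ℂ x v‖ ^ 2 : ℝ) : ℂ) := by
    rw [h]
  rw [WdA_nn, WdA_nn, WdA_symm]
  push_cast at h2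
  exact h2

theorem wd_inv (x v : EN N) (c a : ℂ) : wd (c • x) (c • v + a • x) = ‖c‖ ^ 2 * wd x v := by
  have h1 := WdA_gram (c • x) (c • v + a • x)
  have h2 := WdA_gram x v
  have hc : (starRingEnd ℂ) c * c = (((‖c‖ : ℝ)) : ℂ) ^ 2 := Complex.conj_mul' c
  have h3 : (((wd (c • x) (c • v + a • x) : ℝ)) : ℂ) ^ 2 = (((‖c‖ ^ 2 * wd x v : ℝ)) : ℂ) ^ 2 := by
    rw [h1]
    push_cast
    rw [mul_pow, h2, ← hc]
    simp only [inner_add_left, inner_add_right, inner_smul_left, inner_smul_right]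
    ring
  have h4 : wd (c • x) (c • v + a • x) ^ 2 = (‖c‖ ^ 2 * wd x v) ^ 2 := by
    exact_mod_cast h3
  have h5 : 0 ≤ ‖c‖ ^ 2 * wd x v := mul_nonneg (by positivity) (wd_nonneg x v)
  exact (pow_left_inj₀ (wd_nonneg _ _) h5 two_ne_zero).mp h4

theorem wd_smul_right (x v : EN N) (c : ℂ) : wd x (c • v) = ‖c‖ * wd x v := by
  have h1 := WdA_gram x (c • v)
  have h2 := WdA_gram x v
  have hc : (starRingEnd ℂ) c * c = (((‖c‖ : ℝ)) : ℂ) ^ 2 := Complex.conj_mul' c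
  have h3 : (((wd x (c • v) : ℝ)) : ℂ) ^ 2 = (((‖c‖ * wd x v : ℝ)) : ℂ) ^ 2 := by
    rw [h1]
    push_cast
    rw [mul_pow, h2, ← hc]
    simp only [inner_smul_left, inner_smul_right]
    ring
  have h4 : wd x (c • v) ^ 2 = (‖c‖ * wd x v) ^ 2 := by
    exact_mod_cast h3
  have h5 : 0 ≤ ‖c‖ * wd x v := mul_nonneg (by positivity) (wd_nonneg x v)
  exact (pow_left_inj₀ (wd_nonneg _ _) h5 two_ne_zero).mp h4

private theorem WdA_add (x v : EN N) (a : ℂ) : wd x (v + a • x) = wd x v := by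
  have h := wd_inv x v 1 a
  rw [one_smul, one_smul, norm_one] at h
  rw [h]
  ring

private theorem WdA_orth {x w : EN N} (h : inner ℂ x w = (0 : ℂ)) : wd x w = ‖x‖ * ‖w‖ := by
  unfold wd
  rw [h, norm_zero, ← mul_pow]
  rw [show (‖x‖ * ‖w‖) ^ 2 - (0 : ℝ) ^ 2 = (‖x‖ * ‖w‖) ^ 2 by ring]
  exact Real.sqrt_sq (by positivity)

theorem wd_eq_zero {x v : EN N} (hx : x ≠ 0) : wd x v = 0 ↔ ∃ a : ℂ, v = a • x := by
  constructor
  · intro h
    set s : ℂ := inner ℂ x v / inner ℂ x x with hs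
    have hxx : (inner ℂ x x : ℂ) ≠ 0 := by
      rw [Ne, inner_self_eq_zero]
      exact hx
    refine ⟨s, ?_⟩
    have ho : inner ℂ x (v + (-s) • x) = (0 : ℂ) := by
      rw [inner_add_right, inner_smul_right, hs]
      field_simp
      ring
    have h1 := WdA_orth ho
    rw [WdA_add, h] at h1
    have h2 : ‖v + (-s) • x‖ = 0 := by
      have hxn : ‖x‖ ≠ 0 := norm_ne_zero_iff.mpr hx
      rcases mul_eq_zero.mp h1.symm with h3 | h3
      · exact absurd h3 hxn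
      · exact h3
    have h3 : v + (-s) • x = 0 := norm_eq_zero.mp h2
    rw [neg_smul, ← sub_eq_add_neg, sub_eq_zero] at h3
    exact h3
  · rintro ⟨a, rfl⟩
    have h := WdA_add x 0 a
    rw [zero_add] at h
    rw [h]
    unfold wd
    simp

theorem fs_nonneg (x v : EN N) : 0 ≤ fs x v := by
  exact div_nonneg (wd_nonneg x v) (by positivity)

theorem fs_inv {x : EN N} (hx : x ≠ 0) (v : EN N) {c : ℂ} (hc : c ≠ 0) (a : ℂ) : fs (c • x) (c • v + a • x) = fs x v := by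
  unfold fs
  rw [wd_inv, norm_smul]
  have hc' : ‖c‖ ≠ 0 := norm_ne_zero_iff.mpr hc
  have hx' : ‖x‖ ≠ 0 := norm_ne_zero_iff.mpr hx
  field_simp

theorem fs_smul_right (x v : EN N) (c : ℂ) : fs x (c • v) = ‖c‖ * fs x v := by
  unfold fs
  rw [wd_smul_right, mul_div_assoc]

/-- real form of the inequality between the two Gram determinants -/
private theorem WdA_ineq {A B a' b' : ℝ} {C c' : ℂ} (hA : 0 ≤ A) (hB : 0 ≤ B) (ha : 0 ≤ a') (hb : 0 ≤ b')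
    (hC : ‖C‖ ^ 2 ≤ A * B) (hc : ‖c'‖ ^ 2 ≤ a' * b') :
    A * B - ‖C‖ ^ 2 ≤ (A + a') * (B + b') - ‖C + c'‖ ^ 2 := by
  have h1 : ‖C + c'‖ ≤ ‖C‖ + ‖c'‖ := norm_add_le _ _
  have h2 : ‖C + c'‖ ^ 2 ≤ (‖C‖ + ‖c'‖) ^ 2 := pow_le_pow_left₀ (norm_nonneg _) h1 2
  have h3 : 2 * (‖C‖ * ‖c'‖) ≤ A * b' + a' * B := by
    refine le_of_sq_le_sq' ?_ (by positivity)
    have h4 : (‖C‖ * ‖c'‖) ^ 2 ≤ (A * B) * (a' * b') := by
      rw [mul_pow]
      exact mul_le_mul hC hc (by positivity) (by positivity)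
    nlinarith [sq_nonneg (A * b' - a' * B)]
  nlinarith

theorem gram_proj {a b : EN N} (ha : ‖a‖ = 1) (hb : ‖b‖ = 1) (hab : inner ℂ a b = (0 : ℂ)) (x v : EN N) :
    ‖(inner ℂ a x : ℂ) * inner ℂ b v - inner ℂ b x * inner ℂ a v‖ ≤ wd x v := by
  have haa : (inner ℂ a a : ℂ) = 1 := by rw [WdA_nn, ha]; norm_num
  have hbb : (inner ℂ b b : ℂ) = 1 := by rw [WdA_nn, hb]; norm_num
  have hba : (inner ℂ b a : ℂ) = 0 := by
    rw [← inner_conj_symm, hab, map_zero]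
  set x1 : ℂ := inner ℂ a x with hx1
  set x2 : ℂ := inner ℂ b x with hx2
  set v1 : ℂ := inner ℂ a v with hv1
  set v2 : ℂ := inner ℂ b v with hv2
  set x' : EN N := x - x1 • a - x2 • b with hx'
  set v' : EN N := v - v1 • a - v2 • b with hv'
  have hxa : (inner ℂ x a : ℂ) = (starRingEnd ℂ) x1 := by rw [hx1, inner_conj_symm]
  have hxb : (inner ℂ x b : ℂ) = (starRingEnd ℂ) x2 := by rw [hx2, inner_conj_symm]
  have hva : (inner ℂ v a : ℂ) = (starRingEnd ℂ) v1 := by rw [hv1, inner_conj_symm]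
  have hvb : (inner ℂ v b : ℂ) = (starRingEnd ℂ) v2 := by rw [hv2, inner_conj_symm]
  have key : ∀ y z : EN N, ∀ y1 y2 z1 z2 : ℂ, inner ℂ a y = y1 → inner ℂ b y = y2 → inner ℂ a z = z1 → inner ℂ b z = z2 →
      (inner ℂ y z : ℂ) = (starRingEnd ℂ) y1 * z1 + (starRingEnd ℂ) y2 * z2 +
        inner ℂ (y - y1 • a - y2 • b) (z - z1 • a - z2 • b) := by
    intro y z y1 y2 z1 z2 h1 h2 h3 h4
    have h5 : (inner ℂ y a : ℂ) = (starRingEnd ℂ) y1 := by rw [← h1, inner_conj_symm]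
    have h6 : (inner ℂ y b : ℂ) = (starRingEnd ℂ) y2 := by rw [← h2, inner_conj_symm]
    simp only [inner_sub_left, inner_sub_right, inner_smul_left, inner_smul_right, haa, hbb, hab, hba, h3, h4, h5, h6]
    ring
  have hxx := key x x x1 x2 x1 x2 hx1.symm hx2.symm hx1.symm hx2.symm
  have hvv := key v v v1 v2 v1 v2 hv1.symm hv2.symm hv1.symm hv2.symm
  have hxv := key x v x1 x2 v1 v2 hx1.symm hx2.symm hv1.symm hv2.symm
  rw [← hx'] at hxx hxv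
  rw [← hv'] at hvv hxv
  have hnx : ‖x‖ ^ 2 = (‖x1‖ ^ 2 + ‖x2‖ ^ 2) + ‖x'‖ ^ 2 := by
    have h := hxx
    rw [WdA_nn, WdA_nn, Complex.conj_mul', Complex.conj_mul'] at h
    exact_mod_cast h
  have hnv : ‖v‖ ^ 2 = (‖v1‖ ^ 2 + ‖v2‖ ^ 2) + ‖v'‖ ^ 2 := by
    have h := hvv
    rw [WdA_nn, WdA_nn, Complex.conj_mul', Complex.conj_mul'] at h
    exact_mod_cast h
  have hdet : ‖x1 * v2 - x2 * v1‖ ^ 2 = (‖x1‖ ^ 2 + ‖x2‖ ^ 2) * (‖v1‖ ^ 2 + ‖v2‖ ^ 2) -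
      ‖(starRingEnd ℂ) x1 * v1 + (starRingEnd ℂ) x2 * v2‖ ^ 2 := by
    have h : (((‖x1 * v2 - x2 * v1‖ ^ 2 : ℝ)) : ℂ) = (((‖x1‖ ^ 2 + ‖x2‖ ^ 2) * (‖v1‖ ^ 2 + ‖v2‖ ^ 2) -
      ‖(starRingEnd ℂ) x1 * v1 + (starRingEnd ℂ) x2 * v2‖ ^ 2 : ℝ) : ℂ) := by
      push_cast
      rw [← Complex.conj_mul', ← Complex.conj_mul', ← Complex.conj_mul', ← Complex.conj_mul', ← Complex.conj_mul',
        ← Complex.conj_mul']
      simp only [map_add, map_sub, map_mul, Complex.conj_conj]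
      ring
    exact_mod_cast h
  have hC : ‖(starRingEnd ℂ) x1 * v1 + (starRingEnd ℂ) x2 * v2‖ ^ 2 ≤ (‖x1‖ ^ 2 + ‖x2‖ ^ 2) * (‖v1‖ ^ 2 + ‖v2‖ ^ 2) := by
    have := sq_nonneg ‖x1 * v2 - x2 * v1‖
    linarith
  have hc : ‖(inner ℂ x' v' : ℂ)‖ ^ 2 ≤ ‖x'‖ ^ 2 * ‖v'‖ ^ 2 := by
    have := WdA_rad x' v'
    linarith
  have hfin := WdA_ineq (by positivity) (by positivity) (by positivity) (by positivity) hC hc
  refine le_of_sq_le_sq' ?_ (wd_nonneg x v)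
  rw [wd_sq, hxv, hnx, hnv, hdet]
  exact hfin

theorem wd_norming {x v : EN N} (h : 0 < wd x v) : ∃ a b : EN N, ‖a‖ = 1 ∧ ‖b‖ = 1 ∧ inner ℂ a b = (0 : ℂ) ∧
    ‖(inner ℂ a x : ℂ) * inner ℂ b v - inner ℂ b x * inner ℂ a v‖ = wd x v := by
  have hx : x ≠ 0 := by
    rintro rfl
    have h1 := wd_le (0 : EN N) v
    rw [norm_zero, zero_mul] at h1
    linarith
  have hxn : ‖x‖ ≠ 0 := norm_ne_zero_iff.mpr hx
  have hxx : (inner ℂ x x : ℂ) ≠ 0 := by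
    rw [Ne, inner_self_eq_zero]
    exact hx
  set s : ℂ := inner ℂ x v / inner ℂ x x with hs
  set w : EN N := v + (-s) • x with hw
  have ho : inner ℂ x w = (0 : ℂ) := by
    rw [hw, inner_add_right, inner_smul_right, hs]
    field_simp
    ring
  have ho' : inner ℂ w x = (0 : ℂ) := by
    rw [← inner_conj_symm, ho, map_zero]
  have hwd : wd x v = ‖x‖ * ‖w‖ := by
    rw [← WdA_orth ho, hw, WdA_add]
  have hwn : ‖w‖ ≠ 0 := by
    intro h0
    rw [hwd, h0, mul_zero] at h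
    exact lt_irrefl _ h
  have hvw : v = w + s • x := by
    rw [hw, neg_smul]
    abel
  have hwv : (inner ℂ w v : ℂ) = (((‖w‖ : ℝ)) : ℂ) ^ 2 := by
    conv_lhs => rw [hvw]
    rw [inner_add_right, inner_smul_right, ho', WdA_nn]
    ring
  refine ⟨((((‖x‖ : ℝ)) : ℂ)⁻¹) • x, ((((‖w‖ : ℝ)) : ℂ)⁻¹) • w, ?_, ?_, ?_, ?_⟩
  · rw [norm_smul, norm_inv, Complex.norm_real, norm_norm]
    exact inv_mul_cancel₀ hxn
  · rw [norm_smul, norm_inv, Complex.norm_real, norm_norm]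
    exact inv_mul_cancel₀ hwn
  · rw [inner_smul_left, inner_smul_right, ho]
    ring
  · have hxC : (((‖x‖ : ℝ)) : ℂ) ≠ 0 := Complex.ofReal_ne_zero.mpr hxn
    have hwC : (((‖w‖ : ℝ)) : ℂ) ≠ 0 := Complex.ofReal_ne_zero.mpr hwn
    rw [inner_smul_left, inner_smul_left, inner_smul_left, inner_smul_left, ho', hwv, WdA_nn, map_inv₀, map_inv₀, Complex.conj_ofReal,
      Complex.conj_ofReal]
    have h1 : ((((‖x‖ : ℝ)) : ℂ)⁻¹) * (((‖x‖ : ℝ)) : ℂ) ^ 2 * (((((‖w‖ : ℝ)) : ℂ)⁻¹) * (((‖w‖ : ℝ)) : ℂ) ^ 2) -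
        ((((‖w‖ : ℝ)) : ℂ)⁻¹) * 0 * (((((‖x‖ : ℝ)) : ℂ)⁻¹) * inner ℂ x v) = (((‖x‖ * ‖w‖ : ℝ)) : ℂ) := by
      push_cast
      field_simp
      ring
    rw [h1, Complex.norm_real, Real.norm_of_nonneg (by positivity), hwd]

end Pool.Agent.H36.BP

end

section

/-!
# MQ VDefs: one variable

`tau R` (in `H30M`) is the test function, `avg R u` the mean over the annulus `R < |z| < e R` (times `2 π`), `gr` the gradient.
-/

set_option autoImplicit false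

open MeasureTheory Topology Filter Metric Laplacian

noncomputable section

namespace Pool.Agent.MQ

open Pool.Agent.H36.BP (EN fs)

variable {N M : ℕ}

/-- the length of the derivative of the curve `F` -/
def lam (F : ℂ → EN M) (z : ℂ) : ℝ := fs (F z) (deriv F z)

/-- the logarithm of the form `g` along the curve `F` -/
def lu (F : ℂ → EN N) (g : ℂ → ℂ) (d : ℕ) (z : ℂ) : ℝ := Real.log ‖g z‖ - d * Real.log ‖F z‖

/-- the multiplicity of the zero of `g` at `z` -/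
def mult (g : ℂ → ℂ) (z : ℂ) : ℝ := analyticOrderNatAt g z

/-- One axis of a box: holomorphic functions `x`, `y` on the open set `U`, with `x' = x a`, `y' = y b`, `|a| ≤ K |b|`; the common zeros of `x` and `y`
are simple poles of `a`, with residues not greater than `κ` times the multiplicity of the zero of `g`. -/
structure Axis (U : Set ℂ) (x y a b : ℂ → ℂ) (K κ : ℝ) (g : ℂ → ℂ) : Prop where
  isOpen : IsOpen U
  hx : ∀ z ∈ U, AnalyticAt ℂ x z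
  hy : ∀ z ∈ U, AnalyticAt ℂ y z
  ha : ∀ z ∈ U, x z ≠ 0 ∨ y z ≠ 0 → AnalyticAt ℂ a z
  hb : ∀ z ∈ U, x z ≠ 0 ∨ y z ≠ 0 → AnalyticAt ℂ b z
  dx : ∀ z ∈ U, x z ≠ 0 ∨ y z ≠ 0 → deriv x z = x z * a z
  dy : ∀ z ∈ U, x z ≠ 0 ∨ y z ≠ 0 → deriv y z = y z * b z
  ab : ∀ z ∈ U, x z ≠ 0 ∨ y z ≠ 0 → ‖a z‖ ≤ K * ‖b z‖
  closed : ∀ r : ℝ, r < 1 → IsClosed {z | z ∈ U ∧ ‖x z‖ ≤ r ∧ ‖y z‖ ≤ r}
  pole : ∀ z ∈ U, x z = 0 → y z = 0 → ∃ (r : ℂ) (H : ℂ → ℂ), AnalyticAt ℂ H z ∧ r.re ≤ κ * mult g z ∧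
    (∀ᶠ w in 𝓝[≠] z, a w = r / (w - z) + H w) ∧ ∀ᶠ w in 𝓝[≠] z, x w ≠ 0 ∨ y w ≠ 0

end Pool.Agent.MQ

end
end
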