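import Mathlib

/-! The parts of this file: H13.CV.Rat, H17.LinePoly, H17BP.ArtA, H17BP.Final, H62.BU.Surf. -/

section

/-!
# CV Rat: the orders of the elements of `L = ℂ(x)`

`mem_L_iff`: `IntermediateField.mem_adjoin_simple_iff`.  `mem_poly_iff`: `Algebra.adjoin_singleton_eq_range_aeval`.
`aeval_ord`: `p = X ^ k * p₁` with `k = p.rootMultiplicity 0` and `p₁.eval 0 ≠ 0` (`Polynomial.exists_eq_pow_rootMultiplicity_mul_and_not_dvd`); if `0 < ord_E x` then the value of `p₁ (x)` at `E` is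
`p₁.eval 0 ≠ 0` (`res_aeval` with `res E x = 0`, or directly: `p₁ (x) = p₁ (0) + x * r (x)`), so its order is `0`.
`exists_zpow`: quotient of two polynomials.
`mem_R`: (⇐) `q (x)` has order `0`.  `exists_residue`: let `c = p (x) / q (x)`, `p, q ≠ 0`, with `p = X ^ a * p₁`, `q = X ^ b * q₁`, `p₁ (0), q₁ (0) ≠ 0`; at a place over `x = 0` (it exists by assumption):
`0 ≤ (a - b) * ord x`, so `b ≤ a` and `c = X ^ (a - b) p₁ / q₁ (x)`: a quotient `p₂ (x) / q₁ (x)` with `q₁ (0) ≠ 0`.  `γ = p₂ (0) / q₁ (0)`; the polynomial `p₂ - γ q₁` has value `0` at `0`, so it is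
`X * r`, and `c = γ + x * r (x) / q₁ (x)`.
`poly_inf`: `c = p (x)`, `p ≠ 0` of degree `d`: at a place `E` with `ord x < 0`: `oz E (p (x)) = d * oz E x` (highest term), so `0 ≤ (k + d) * oz E x` and `k = d = 0`.
`regLoc_div_of_pos`, `regLoc_of_nonneg`: `exists_zpow`.
-/

set_option autoImplicit false

noncomputable section

namespace Pool.Agent.H13.CV

variable {K : Type} [Field K] [Algebra ℂ K] {L : IntermediateField ℂ K} {x : K}

theorem mem_poly_iff {c : K} : c ∈ Algebra.adjoin ℂ {x} ↔ ∃ p : Polynomial ℂ, c = Polynomial.aeval x p := by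
  rw [Algebra.adjoin_singleton_eq_range_aeval]
  constructor
  · rintro ⟨p, hp⟩
    exact ⟨p, hp.symm⟩
  · rintro ⟨p, hp⟩
    exact ⟨p, hp.symm⟩

theorem factor {p : Polynomial ℂ} (hp : p ≠ 0) : ∃ p₁ : Polynomial ℂ, p = Polynomial.X ^ p.rootMultiplicity 0 * p₁ ∧ p₁.eval 0 ≠ 0 := by
  obtain ⟨q, h1, h2⟩ := Polynomial.exists_eq_pow_rootMultiplicity_mul_and_not_dvd p hp 0
  refine ⟨q, ?_, ?_⟩
  · simpa using h1
  · intro h
    exact h2 (Polynomial.dvd_iff_isRoot.mpr h)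

end Pool.Agent.H13.CV

end
end

section

/-!
# Restriction of a polynomial to the lines through a point
-/

open MvPolynomial

namespace Pool.Agent.H17

variable {σ : Type}

/-- Evaluation of a homogeneous polynomial at a multiple of a vector. -/
lemma eval_smul_of_isHomogeneous {P : MvPolynomial σ ℂ} {d : ℕ} (hP : P.IsHomogeneous d)
    (c : ℂ) (x : σ → ℂ) : eval (fun i => c * x i) P = c ^ d * eval x P := by
  classical
  rw [eval_eq, eval_eq, Finset.mul_sum]
  refine Finset.sum_congr rfl ?_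
  intro m hm
  have hdeg : m.degree = d := by
    by_contra hne
    exact (mem_support_iff.mp hm) (hP.coeff_eq_zero hne)
  have : ∏ i ∈ m.support, (c * x i) ^ m i = c ^ d * ∏ i ∈ m.support, x i ^ m i := by
    simp_rw [mul_pow]
    rw [Finset.prod_mul_distrib, Finset.prod_pow_eq_pow_sum]
    congr 2
  rw [this]
  ring

end Pool.Agent.H17

end

section

/-!
# Resolution of the singularities of a plane curve germ: the inner induction

`claim_inner`, strong induction on `K`.  `g = D₁^a D₂^b (W u)`.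
1. Some `j < k` has `analyticOrderAt (c j) 0 < k + 1 - j`: `exists_slice` gives `SliceLE k W` (`v = (1, v)`), hence
   `SliceLE k (W u)` (the slice of the unit `u` has order `0`; `analyticOrderAt_mul`), and `hk` finishes
   (`W u` is analytic at `0`: it agrees near `0` with `(∑ …) u`; note `W` itself is only eventually equal to an analytic
   function, which suffices).
2. Otherwise `nf_blow` applies.  `S = {c₀ | P c₀ = 0}`, `P c₀ = ∑ γ_j c₀^j + U₀ c₀^(k+1)`, is finite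
   (`finite_roots`); use `uniform`.  For every `c₀`: near `0`, with `mono_bl`,
   `g (bl c₀ x) = x^(a+b) D^b' e ⬝ x^(k+1) ψ u'` (`u' = u ∘ bl c₀`), that is
   `x^(a+b+k+1) D^b' (ψ u' e)`, with `(x, D)` local coordinates and `e, u'` units.
   * `c₀ ∉ S`: `ψ 0 = P c₀ ≠ 0`: `Mono`.
   * `c₀ ∈ S`, some `γ_j ≠ 0` (`j < k`): by `order_root` the slice of `ψ` along `(0, 1)` has order `≤ k`: `hk` for
     `ψ u' e` and the coordinates `(x, D)`.
   * `c₀ ∈ S`, all `γ_j = 0`: then `U₀ c₀^(k+1) = 0`, so `c₀ = 0`, and `IsNF k c' ψ`; for the given `j` with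
     `analyticOrderAt (c j) 0 = K`: `K = (k+1-j) + ord (c' j)`, so `ord (c' j) = K' < K`: induction hypothesis with
     `W := ψ`, the unit `u' e` and the coordinates `(x, D)`.
   * the chart `blInf`: `mono_blInf`, `g (blInf x) = y^(a+b+k+1) D^b' (ψ u' e)` with `ψ 0 ≠ 0`: `Mono` (coordinates
     `(y, D)`).
-/

open Topology Filter

noncomputable section

namespace Pool.Agent.H17BP

/-- the order of `x ^ n * f` -/
theorem ArtA_order {f g : ℂ → ℂ} {n K : ℕ} (hg : AnalyticAt ℂ g 0) (h : ∀ᶠ x in 𝓝 (0 : ℂ), f x = x ^ n * g x)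
    (hK : analyticOrderAt f 0 = (K : ℕ∞)) : n ≤ K ∧ analyticOrderAt g 0 = ((K - n : ℕ) : ℕ∞) := by
  have h1 : analyticOrderAt f 0 = analyticOrderAt ((fun x : ℂ => x ^ n) * g) 0 := analyticOrderAt_congr h
  have h2 : AnalyticAt ℂ (fun x : ℂ => x ^ n) 0 := analyticAt_id.pow n
  have h3 : analyticOrderAt (fun x : ℂ => x ^ n) 0 = (n : ℕ∞) := by
    rw [h2.analyticOrderAt_eq_natCast]
    refine ⟨fun _ => 1, analyticAt_const, one_ne_zero, ?_⟩
    filter_upwards with z
    simp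
  rw [h1, analyticOrderAt_mul h2 hg, h3] at hK
  have h4 : analyticOrderAt g 0 ≠ ⊤ := by
    intro h5
    rw [h5, add_top] at hK
    exact ENat.top_ne_natCast K hK
  obtain ⟨L, hL⟩ := ENat.ne_top_iff_exists.1 h4
  rw [← hL] at hK ⊢
  have h6 : n + L = K := by exact_mod_cast hK
  refine ⟨by omega, ?_⟩
  have h7 : L = K - n := by omega
  rw [h7]

end Pool.Agent.H17BP

end
end

section

/-!
# From the extension theorem for models to projective surfaces
-/

open Topology Filter MvPolynomial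

noncomputable section

namespace Pool.Agent.H17BP

variable {N : ℕ} {P : Ideal (MvPolynomial (Fin (N + 1)) ℂ)}

/-- The affine cone of the projective variety, without the vertex. -/
def cone (P : Ideal (MvPolynomial (Fin (N + 1)) ℂ)) : Set (Fin (N + 1) → ℂ) :=
  {x | x ≠ 0 ∧ ∀ Q ∈ P, eval x Q = 0}

end Pool.Agent.H17BP

end
end

section

/-!
# BU: surfaces through their cones (germ level), copy of the definitions of note 2276
-/

set_option autoImplicit false

namespace Pool.Agent.H62.BU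

open Filter Topology

variable {V : Type*} [NormedAddCommGroup V] [NormedSpace ℂ V]

/-- `σ` is a local parametrization of the surface with cone `X` near `σ 0`, `τ` the chart (homogeneous of degree `0`) -/
structure IsChart (X : Set V) (σ : ℂ × ℂ → V) (τ : V → ℂ × ℂ) : Prop where
  σ_an : AnalyticAt ℂ σ 0
  σ_mem : ∀ᶠ p in 𝓝 (0 : ℂ × ℂ), σ p ∈ X
  ne : σ 0 ≠ 0
  τ_an : AnalyticAt ℂ τ (σ 0)
  left : ∀ᶠ p in 𝓝 (0 : ℂ × ℂ), τ (σ p) = p
  right : ∀ᶠ y in 𝓝 (σ 0), y ∈ X → ∃ c : ℂ, c ≠ 0 ∧ y = c • σ (τ y)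
  inv : ∀ᶠ p in 𝓝 (σ 0, (1 : ℂ)), τ (p.2 • p.1) = τ p.1

/-- `X` is the cone (without `0`) over a compact complex surface -/
structure Surface (X : Set V) : Prop where
  zero : (0 : V) ∉ X
  smul : ∀ x ∈ X, ∀ c : ℂ, c ≠ 0 → c • x ∈ X
  closed : ∀ x ∈ closure X, x ≠ 0 → x ∈ X
  chart : ∀ x ∈ X, ∃ σ τ, IsChart X σ τ ∧ σ 0 = x

/-- tangent vectors of `X` at `x` -/
def Tan (X : Set V) (x v : V) : Prop :=
  ∃ γ : ℂ → V, AnalyticAt ℂ γ 0 ∧ (∀ᶠ z in 𝓝 (0 : ℂ), γ z ∈ X) ∧ γ 0 = x ∧ deriv γ 0 = v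

/-- sections of `m K (-j)` -/
structure IsForm (X : Set V) (m j : ℕ) (Ω : V → V → V → ℂ) : Prop where
  add_smul : ∀ x ∈ X, ∀ v w, Tan X x v → Tan X x w → ∀ a b : ℂ, Ω x (v + a • x) (w + b • x) = Ω x v w
  det : ∀ x ∈ X, ∀ v w, Tan X x v → Tan X x w → ∀ a b c d : ℂ,
    Ω x (a • v + b • w) (c • v + d • w) = (a * d - b * c) ^ m * Ω x v w
  scale : ∀ x ∈ X, ∀ v w, Tan X x v → Tan X x w → ∀ c : ℂ, c ≠ 0 → c ^ j * Ω (c • x) (c • v) (c • w) = Ω x v w
  analytic : ∀ (φ : ℂ × ℂ → V) (p : ℂ × ℂ), AnalyticAt ℂ φ p → (∀ᶠ y in 𝓝 p, φ y ∈ X) →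
    AnalyticAt ℂ (fun y => Ω (φ y) (fderiv ℂ φ y (1, 0)) (fderiv ℂ φ y (0, 1))) p

end Pool.Agent.H62.BU

end
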