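import Mathlib

/-! The parts of this file: H17.AhlforsGlobal, H17.EntireRing, H17BP.Germ, H17BP.Ift. -/

section

/-!
# A vanishing theorem of Ahlfors–Schwarz type

`r i` are entire functions (without identically vanishing ones), `U = ∑ |r i|`, and `V` is the
variance of the logarithmic derivatives `r i' / r i` with weights `|r i| / U`.  If an entire
function `g` satisfies `|g|^2 U^a ≤ C ∏ |r i| V^ρ` with `a > 0`, and `V` is locally bounded, then
`g = 0`.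
-/

open Topology Filter Complex

namespace Pool.Agent.H17

section

variable {ι : Type} [Fintype ι]

/-- Zeros of a nonzero entire function are isolated. -/
lemma eventually_ne_zero_of_entire {f : ℂ → ℂ} (hf : Differentiable ℂ f) (h0 : ∃ z, f z ≠ 0)
    (s : ℂ) : ∀ᶠ z in 𝓝[≠] s, f z ≠ 0 := by
  rcases (hf.analyticAt s).eventually_eq_zero_or_eventually_ne_zero with h | h
  · exfalso
    obtain ⟨z, hz⟩ := h0
    have hana : AnalyticOnNhd ℂ f Set.univ := fun z _ => hf.analyticAt z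
    exact hz (hana.eqOn_zero_of_preconnected_of_eventuallyEq_zero isPreconnected_univ
      (Set.mem_univ s) h (Set.mem_univ z))
  · exact h

end

end Pool.Agent.H17

end

section

/-!
# The ring of entire functions
-/

open Polynomial Topology Filter

namespace Pool.Agent.H17

/-- The algebra of entire functions. -/
def entire : Subalgebra ℂ (ℂ → ℂ) where
  carrier := {f | Differentiable ℂ f}
  mul_mem' hf hg := hf.mul hg
  add_mem' hf hg := hf.add hg
  algebraMap_mem' c := differentiable_const c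

/-- Entire functions. -/
abbrev EntFun : Type := ↥entire

namespace EntFun

lemma diff (f : EntFun) : Differentiable ℂ (f : ℂ → ℂ) := f.2

lemma analyticAt (f : EntFun) (z : ℂ) : AnalyticAt ℂ (f : ℂ → ℂ) z := f.2.analyticAt z

@[ext] lemma ext' {f g : EntFun} (h : ∀ z, (f : ℂ → ℂ) z = (g : ℂ → ℂ) z) : f = g :=
  Subtype.ext (funext h)

lemma ne_zero_iff (f : EntFun) : f ≠ 0 ↔ ∃ z, (f : ℂ → ℂ) z ≠ 0 := by
  constructor
  · intro h
    by_contra h1
    push Not at h1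
    exact h (ext' fun z => by simpa using h1 z)
  · rintro ⟨z, hz⟩ rfl
    exact hz rfl

instance : Nontrivial EntFun := ⟨⟨0, 1, fun h => by
  have := congrArg (fun f : EntFun => (f : ℂ → ℂ) 0) h
  simp at this⟩⟩

instance : NoZeroDivisors EntFun := ⟨by
  intro f g hfg
  by_contra h
  push Not at h
  have h1 := eventually_ne_zero_of_entire f.2 ((ne_zero_iff f).mp h.1) 0
  have h2 := eventually_ne_zero_of_entire g.2 ((ne_zero_iff g).mp h.2) 0
  obtain ⟨z, hz1, hz2⟩ := (h1.and h2).exists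
  have h3 : (f * g : EntFun).1 z = 0 := by rw [hfg]; rfl
  have h4 : (f : ℂ → ℂ) z * (g : ℂ → ℂ) z = 0 := h3
  rcases mul_eq_zero.mp h4 with h | h
  · exact hz1 h
  · exact hz2 h⟩

instance : IsDomain EntFun := NoZeroDivisors.to_isDomain _

/-- Evaluation at a point. -/
def ev (z : ℂ) : EntFun →+* ℂ := (Pi.evalRingHom (fun _ : ℂ => ℂ) z).comp entire.subtype

@[simp] lemma ev_apply (z : ℂ) (f : EntFun) : ev z f = (f : ℂ → ℂ) z := rfl

@[simp] lemma ev_algebraMap (z c : ℂ) : ev z (algebraMap ℂ EntFun c) = c := rfl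

@[simp] lemma coe_algebraMap (c z : ℂ) : ((algebraMap ℂ EntFun c : EntFun) : ℂ → ℂ) z = c := rfl

open Differential

/-- The coordinate function centred at `s`. -/
def coord (s : ℂ) : EntFun := ⟨fun z => z - s, by
  change Differentiable ℂ fun z : ℂ => z - s
  fun_prop⟩

@[simp] lemma coord_apply (s z : ℂ) : ((coord s : EntFun) : ℂ → ℂ) z = z - s := rfl

lemma coord_ne_zero (s : ℂ) : coord s ≠ 0 := (ne_zero_iff _).mpr ⟨s + 1, by simp⟩

/-- Division by the coordinate function. -/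
lemma exists_coord_mul {f : EntFun} {s : ℂ} (h : (f : ℂ → ℂ) s = 0) : ∃ g, f = coord s * g := by
  refine ⟨⟨dslope (f : ℂ → ℂ) s, ?_⟩, ?_⟩
  · intro z
    have h1 : DifferentiableOn ℂ (dslope (f : ℂ → ℂ) s) Set.univ :=
      (Complex.differentiableOn_dslope Filter.univ_mem).mpr f.diff.differentiableOn
    exact (h1 z (Set.mem_univ z)).differentiableAt Filter.univ_mem
  · ext z
    have h2 := sub_smul_dslope (f : ℂ → ℂ) s z
    rw [h, sub_zero, smul_eq_mul] at h2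
    exact h2.symm

/-- The order of a nonzero entire function is finite. -/
lemma order_ne_top {f : EntFun} (hf : f ≠ 0) (s : ℂ) : analyticOrderAt (f : ℂ → ℂ) s ≠ ⊤ := by
  intro h
  rw [analyticOrderAt_eq_top] at h
  have h1 := eventually_ne_zero_of_entire f.2 ((ne_zero_iff f).mp hf) s
  obtain ⟨z, hz1, hz2⟩ := ((h.filter_mono nhdsWithin_le_nhds).and h1).exists
  exact hz2 hz1

lemma order_mul (f g : EntFun) (s : ℂ) : analyticOrderAt ((f * g : EntFun) : ℂ → ℂ) s =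
    analyticOrderAt (f : ℂ → ℂ) s + analyticOrderAt (g : ℂ → ℂ) s :=
  analyticOrderAt_mul (f.analyticAt s) (g.analyticAt s)

lemma order_pow (f : EntFun) (n : ℕ) (s : ℂ) : analyticOrderAt ((f ^ n : EntFun) : ℂ → ℂ) s =
    n * analyticOrderAt (f : ℂ → ℂ) s := by
  have h : ((f ^ n : EntFun) : ℂ → ℂ) = (f : ℂ → ℂ) ^ n := rfl
  rw [h, analyticOrderAt_pow (f.analyticAt s), nsmul_eq_mul]

lemma order_prod {ι : Type*} (S : Finset ι) (f : ι → EntFun) (s : ℂ) :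
    analyticOrderAt ((∏ i ∈ S, f i : EntFun) : ℂ → ℂ) s =
      ∑ i ∈ S, analyticOrderAt ((f i : EntFun) : ℂ → ℂ) s := by
  classical
  induction S using Finset.induction_on with
  | empty =>
    rw [Finset.prod_empty, Finset.sum_empty, analyticOrderAt_eq_zero]
    right
    simp
  | insert a S ha ih => rw [Finset.prod_insert ha, Finset.sum_insert ha, order_mul, ih]

lemma order_eq_zero_iff (f : EntFun) (s : ℂ) :
    analyticOrderAt (f : ℂ → ℂ) s = 0 ↔ (f : ℂ → ℂ) s ≠ 0 :=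
  (f.analyticAt s).analyticOrderAt_eq_zero

lemma order_coord (s : ℂ) : analyticOrderAt ((coord s : EntFun) : ℂ → ℂ) s = 1 :=
  analyticOrderAt_id_sub_const_self

end EntFun

open EntFun

end Pool.Agent.H17

end

section

/-!
# Germs of analytic functions in two variables: definitions for the resolution theorem

Germs at `0` of analytic functions on `ℂ × ℂ`; local biholomorphic maps, point blow-ups.
-/

open Topology Filter

noncomputable section

namespace Pool.Agent.H17BP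

/-- The germ of `θ` at `0` is biholomorphic and fixes `0`. -/
structure Bihol (θ : ℂ × ℂ → ℂ × ℂ) : Prop where
  an : AnalyticAt ℂ θ 0
  zero : θ 0 = 0
  inv : ∃ θ' : ℂ × ℂ → ℂ × ℂ, AnalyticAt ℂ θ' 0 ∧ θ' 0 = 0 ∧ (∀ᶠ x in 𝓝 0, θ' (θ x) = x) ∧
    ∀ᶠ x in 𝓝 0, θ (θ' x) = x

/-- `S, T` are local coordinates at `0`. -/
def Coord (S T : ℂ × ℂ → ℂ) : Prop := Bihol fun x => (S x, T x)

/-- The germ `g` is a monomial in local coordinates times a unit. -/
def Mono (g : ℂ × ℂ → ℂ) : Prop :=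
  ∃ (S T : ℂ × ℂ → ℂ) (a b : ℕ) (u : ℂ × ℂ → ℂ), Coord S T ∧ AnalyticAt ℂ u 0 ∧ u 0 ≠ 0 ∧
    ∀ᶠ x in 𝓝 0, g x = S x ^ a * T x ^ b * u x

/-- The chart of the blow-up of `0` at the point `c` of the exceptional curve. -/
def bl (c : ℂ) (x : ℂ × ℂ) : ℂ × ℂ := (x.1, x.1 * (c + x.2))

/-- The chart of the blow-up of `0` at the point `∞` of the exceptional curve. -/
def blInf (x : ℂ × ℂ) : ℂ × ℂ := (x.1 * x.2, x.2)

/-- The germs of charts of the blow-up of `0`. -/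
def BChart (β : ℂ × ℂ → ℂ × ℂ) : Prop :=
  ∃ θ θ' : ℂ × ℂ → ℂ × ℂ, Bihol θ ∧ Bihol θ' ∧ ∀ᶠ x in 𝓝 0, β x = θ (bl 0 (θ' x))

/-- After at most `n` point blow-ups over every point the germ `g` is a monomial times a unit. -/
def ResN : ℕ → (ℂ × ℂ → ℂ) → Prop
  | 0 => Mono
  | n + 1 => fun g => Mono g ∨ ∀ β, BChart β → ResN n (g ∘ β)

/-! ### simple facts -/

theorem Bihol.tendsto {θ : ℂ × ℂ → ℂ × ℂ} (h : Bihol θ) : Tendsto θ (𝓝 0) (𝓝 0) := by
  have := h.an.continuousAt.tendsto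
  rwa [h.zero] at this

theorem Bihol.congr {θ θ₁ : ℂ × ℂ → ℂ × ℂ} (h : Bihol θ) (he : ∀ᶠ x in 𝓝 0, θ₁ x = θ x) : Bihol θ₁ := by
  obtain ⟨θ', h1, h2, h3, h4⟩ := h.inv
  have ht : Tendsto θ' (𝓝 0) (𝓝 0) := by
    have := h1.continuousAt.tendsto
    rwa [h2] at this
  refine ⟨h.an.congr (he.mono fun x hx => hx.symm), ?_, θ', h1, h2, ?_, ?_⟩
  · rw [he.self_of_nhds, h.zero]
  · filter_upwards [h3, he] with x hx hx'
    rw [hx', hx]
  · filter_upwards [h4, ht.eventually he] with x hx hx'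
    rw [hx', hx]

theorem Bihol.comp {θ θ₁ : ℂ × ℂ → ℂ × ℂ} (h : Bihol θ) (h₁ : Bihol θ₁) : Bihol (θ ∘ θ₁) := by
  obtain ⟨φ, a1, a2, a3, a4⟩ := h.inv
  obtain ⟨φ₁, b1, b2, b3, b4⟩ := h₁.inv
  have hφ : Tendsto φ (𝓝 0) (𝓝 0) := by
    have := a1.continuousAt.tendsto
    rwa [a2] at this
  have hφ₁ : Tendsto φ₁ (𝓝 0) (𝓝 0) := by
    have := b1.continuousAt.tendsto
    rwa [b2] at this
  refine ⟨?_, ?_, φ₁ ∘ φ, ?_, ?_, ?_, ?_⟩
  · have h2 : AnalyticAt ℂ θ (θ₁ 0) := by rw [h₁.zero]; exact h.an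
    exact h2.comp h₁.an
  · simp [h₁.zero, h.zero]
  · have h2 : AnalyticAt ℂ φ₁ (φ 0) := by rw [a2]; exact b1
    exact h2.comp a1
  · simp [a2, b2]
  · filter_upwards [b3, h₁.tendsto.eventually a3] with x hx hx'
    simp only [Function.comp_apply]
    rw [hx', hx]
  · filter_upwards [a4, hφ.eventually b4] with x hx hx'
    simp only [Function.comp_apply]
    rw [hx', hx]

theorem Bihol.id : Bihol (fun x : ℂ × ℂ => x) :=
  ⟨analyticAt_id, rfl, fun x => x, analyticAt_id, rfl, Eventually.of_forall fun _ => rfl,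
    Eventually.of_forall fun _ => rfl⟩

/-- The inverse germ. -/
theorem Bihol.exists_inv {θ : ℂ × ℂ → ℂ × ℂ} (h : Bihol θ) : ∃ θ' : ℂ × ℂ → ℂ × ℂ, Bihol θ' ∧
    (∀ᶠ x in 𝓝 0, θ' (θ x) = x) ∧ ∀ᶠ x in 𝓝 0, θ (θ' x) = x := by
  obtain ⟨θ', h1, h2, h3, h4⟩ := h.inv
  exact ⟨θ', ⟨h1, h2, θ, h.an, h.zero, h4, h3⟩, h3, h4⟩

theorem Mono.congr {g g₁ : ℂ × ℂ → ℂ} (h : Mono g) (he : ∀ᶠ x in 𝓝 0, g₁ x = g x) : Mono g₁ := by
  obtain ⟨S, T, a, b, u, h1, h2, h3, h4⟩ := h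
  refine ⟨S, T, a, b, u, h1, h2, h3, ?_⟩
  filter_upwards [h4, he] with x hx hx'
  rw [hx', hx]

theorem Mono.comp {g : ℂ × ℂ → ℂ} (h : Mono g) {θ : ℂ × ℂ → ℂ × ℂ} (hθ : Bihol θ) :
    Mono (g ∘ θ) := by
  obtain ⟨S, T, a, b, u, h1, h2, h3, h4⟩ := h
  refine ⟨S ∘ θ, T ∘ θ, a, b, u ∘ θ, ?_, ?_, ?_, ?_⟩
  · exact Bihol.comp h1 hθ
  · have h5 : AnalyticAt ℂ u (θ 0) := by rw [hθ.zero]; exact h2
    exact h5.comp hθ.an
  · simpa [hθ.zero] using h3
  · filter_upwards [hθ.tendsto.eventually h4] with x hx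
    exact hx

theorem BChart.comp_left {β θ : ℂ × ℂ → ℂ × ℂ} (h : BChart β) (hθ : Bihol θ) : BChart (θ ∘ β) := by
  obtain ⟨θ₁, θ₂, h1, h2, h3⟩ := h
  refine ⟨θ ∘ θ₁, θ₂, hθ.comp h1, h2, ?_⟩
  filter_upwards [h3] with x hx
  simp [hx]

theorem bl_zero (c : ℂ) : bl c 0 = 0 := by
  simp [bl]

theorem blInf_zero : blInf 0 = 0 := by
  simp [blInf]

theorem analyticAt_bl (c : ℂ) (x : ℂ × ℂ) : AnalyticAt ℂ (bl c) x := by
  unfold bl
  exact analyticAt_fst.prod (analyticAt_fst.mul (analyticAt_const.add analyticAt_snd))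

theorem analyticAt_blInf (x : ℂ × ℂ) : AnalyticAt ℂ blInf x := by
  unfold blInf
  exact (analyticAt_fst.mul analyticAt_snd).prod analyticAt_snd

theorem BChart.zero {β : ℂ × ℂ → ℂ × ℂ} (h : BChart β) : β 0 = 0 := by
  obtain ⟨θ, θ', h1, h2, h3⟩ := h
  rw [h3.self_of_nhds, h2.zero, bl_zero, h1.zero]

theorem BChart.an {β : ℂ × ℂ → ℂ × ℂ} (h : BChart β) : AnalyticAt ℂ β 0 := by
  obtain ⟨θ, θ', h1, h2, h3⟩ := h
  have h4 : AnalyticAt ℂ (fun x => bl 0 (θ' x)) 0 :=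
    (analyticAt_bl 0 _).comp h2.an
  have h5 : AnalyticAt ℂ θ ((fun x => bl 0 (θ' x)) 0) := by
    have h6 : bl 0 (θ' 0) = 0 := by rw [h2.zero, bl_zero]
    simp only [h6]
    exact h1.an
  have h7 := AnalyticAt.comp (g := θ) (f := fun x => bl 0 (θ' x)) h5 h4
  exact h7.congr (h3.mono fun x hx => hx.symm)

theorem BChart.tendsto {β : ℂ × ℂ → ℂ × ℂ} (h : BChart β) : Tendsto β (𝓝 0) (𝓝 0) := by
  have := h.an.continuousAt.tendsto
  rwa [h.zero] at this

theorem ResN.of_mono {g : ℂ × ℂ → ℂ} (h : Mono g) : ∀ n, ResN n g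
  | 0 => h
  | _ + 1 => Or.inl h

theorem ResN.congr {n : ℕ} : ∀ {g g₁ : ℂ × ℂ → ℂ}, ResN n g → (∀ᶠ x in 𝓝 0, g₁ x = g x) → ResN n g₁ := by
  induction n with
  | zero => intro g g₁ h he; exact Mono.congr h he
  | succ n ih =>
    intro g g₁ h he
    rcases h with h | h
    · exact Or.inl (h.congr he)
    · exact Or.inr fun β hβ => ih (h β hβ) (hβ.tendsto.eventually he)

theorem ResN.comp {n : ℕ} : ∀ {g : ℂ × ℂ → ℂ}, ResN n g → ∀ {θ : ℂ × ℂ → ℂ × ℂ}, Bihol θ → ResN n (g ∘ θ) := by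
  induction n with
  | zero => intro g h θ hθ; exact Mono.comp h hθ
  | succ n ih =>
    intro g h θ hθ
    rcases h with h | h
    · exact Or.inl (h.comp hθ)
    · exact Or.inr fun β hβ => h (θ ∘ β) (hβ.comp_left hθ)

theorem ResN.succ {n : ℕ} : ∀ {g : ℂ × ℂ → ℂ}, ResN n g → ResN (n + 1) g := by
  induction n with
  | zero => intro g h; exact Or.inl h
  | succ n ih =>
    intro g h
    rcases h with h | h
    · exact Or.inl h
    · exact Or.inr fun β hβ => ih (h β hβ)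

theorem ResN.mono_le {n k : ℕ} (hnk : n ≤ k) {g : ℂ × ℂ → ℂ} (h : ResN n g) : ResN k g := by
  induction hnk with
  | refl => exact h
  | step _ ih => exact ih.succ

/-- The coordinate change can be undone. -/
theorem ResN.of_comp {n : ℕ} {g : ℂ × ℂ → ℂ} {θ : ℂ × ℂ → ℂ × ℂ} (hθ : Bihol θ) (h : ResN n (g ∘ θ)) :
    ResN n g := by
  obtain ⟨θ', h1, -, h3⟩ := hθ.exists_inv
  refine (h.comp h1).congr ?_
  filter_upwards [h3] with x hx
  simp [hx]

end Pool.Agent.H17BP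

end
end

section

/-!
# Local coordinates: the inverse function theorem

`dx`, `dy` are the partial derivatives.  Proofs:

* `analyticAt_dx`, `analyticAt_dy`: `AnalyticAt.fderiv` composed with the evaluation at a vector
  (`ContinuousLinearMap.apply`).
* `bihol_iff`: `→`: from `θ' (θ x) = x` near `0` the chain rule gives `fderiv θ' 0 ∘ fderiv θ 0 = id`, so
  `fderiv θ 0` is injective on `ℂ × ℂ` (dimension `2`), and its determinant in the basis `(1,0), (0,1)` is not `0`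
  (if it were `0`, a non-trivial combination of the columns would be `0`).
  `←`: the map with non-zero determinant is a continuous linear equivalence `i` (write the inverse matrix, or
  `LinearEquiv.ofIsUnitDet`, `LinearMap.toContinuousLinearMap`); `HasStrictFDerivAt` holds for analytic functions
  (`AnalyticAt.hasStrictFDerivAt`); take the local inverse `HasStrictFDerivAt.toOpenPartialHomeomorph` (or the
  present name), it is analytic at `θ 0 = 0`: `OpenPartialHomeomorph.hasFPowerSeriesAt_symm` (file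
  `Mathlib/Analysis/Analytic/Inverse.lean`; find its present name), needs the first coefficient of the power series
  of `θ` to be `i`: `HasFPowerSeriesAt.fderiv_eq` / `hasFPowerSeriesAt.hasStrictFDerivAt` uniqueness of the
  derivative.
* `coord_iff`: `fderiv` of `x ↦ (S x, T x)` is the product of the derivatives (`fderiv_prodMk`, `HasFDerivAt.prodMk`).
-/

open Topology Filter

noncomputable section

namespace Pool.Agent.H17BP

/-- The partial derivative in the first variable. -/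
def dx (f : ℂ × ℂ → ℂ) (x : ℂ × ℂ) : ℂ := fderiv ℂ f x (1, 0)

/-- The partial derivative in the second variable. -/
def dy (f : ℂ × ℂ → ℂ) (x : ℂ × ℂ) : ℂ := fderiv ℂ f x (0, 1)

theorem analyticAt_dx {f : ℂ × ℂ → ℂ} {x : ℂ × ℂ} (hf : AnalyticAt ℂ f x) : AnalyticAt ℂ (dx f) x :=
  ((ContinuousLinearMap.apply ℂ ℂ ((1, 0) : ℂ × ℂ)).analyticAt (fderiv ℂ f x)).comp hf.fderiv

theorem analyticAt_dy {f : ℂ × ℂ → ℂ} {x : ℂ × ℂ} (hf : AnalyticAt ℂ f x) : AnalyticAt ℂ (dy f) x :=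
  ((ContinuousLinearMap.apply ℂ ℂ ((0, 1) : ℂ × ℂ)).analyticAt (fderiv ℂ f x)).comp hf.fderiv

private theorem Ift_apply (L : ℂ × ℂ →L[ℂ] ℂ × ℂ) (x : ℂ × ℂ) :
    L x = (x.1 * (L (1, 0)).1 + x.2 * (L (0, 1)).1, x.1 * (L (1, 0)).2 + x.2 * (L (0, 1)).2) := by
  have h1 : x = x.1 • ((1, 0) : ℂ × ℂ) + x.2 • ((0, 1) : ℂ × ℂ) := by
    ext <;> simp
  conv_lhs => rw [h1]
  rw [map_add, map_smul, map_smul]
  ext <;> simp

private theorem Ift_mp {θ : ℂ × ℂ → ℂ × ℂ} (h : Bihol θ) :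
    (fderiv ℂ θ 0 (1, 0)).1 * (fderiv ℂ θ 0 (0, 1)).2 -
      (fderiv ℂ θ 0 (0, 1)).1 * (fderiv ℂ θ 0 (1, 0)).2 ≠ 0 := by
  intro hdet
  obtain ⟨θ', h1, h2, h3, h4⟩ := h.inv
  set L := fderiv ℂ θ 0 with hL
  have d1 : HasFDerivAt θ L 0 := h.an.differentiableAt.hasFDerivAt
  have d2 : HasFDerivAt θ' (fderiv ℂ θ' 0) (θ 0) := by
    rw [h.zero]
    exact h1.differentiableAt.hasFDerivAt
  have d3 : HasFDerivAt (θ' ∘ θ) ((fderiv ℂ θ' 0).comp L) 0 := d2.comp 0 d1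
  have d4 : HasFDerivAt (θ' ∘ θ) (ContinuousLinearMap.id ℂ (ℂ × ℂ)) 0 := by
    refine (hasFDerivAt_id (0 : ℂ × ℂ)).congr_of_eventuallyEq ?_
    filter_upwards [h3] with x hx
    exact hx
  have d5 := d3.unique d4
  have hinj : ∀ v : ℂ × ℂ, L v = 0 → v = 0 := by
    intro v hv
    have h6 : (fderiv ℂ θ' 0).comp L v = v := by rw [d5]; rfl
    rw [← h6, ContinuousLinearMap.comp_apply, hv, map_zero]
  have e1 := hinj ((L (0, 1)).2, -(L (1, 0)).2) (by
    rw [Ift_apply]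
    ext
    · simp only [Prod.fst_zero]
      linear_combination hdet
    · simp only [Prod.snd_zero]
      ring)
  have e2 := hinj ((L (0, 1)).1, -(L (1, 0)).1) (by
    rw [Ift_apply]
    ext
    · simp only [Prod.fst_zero]
      ring
    · simp only [Prod.snd_zero]
      linear_combination -hdet)
  have e3 := hinj (1, 0) (by
    ext
    · have := congrArg Prod.snd e2
      simpa using this
    · have := congrArg Prod.snd e1
      simpa using this)
  have := congrArg Prod.fst e3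
  simp at this

private theorem Ift_equiv (L : ℂ × ℂ →L[ℂ] ℂ × ℂ)
    (hdet : (L (1, 0)).1 * (L (0, 1)).2 - (L (0, 1)).1 * (L (1, 0)).2 ≠ 0) :
    ∃ i : (ℂ × ℂ) ≃L[ℂ] (ℂ × ℂ), (i : ℂ × ℂ →L[ℂ] ℂ × ℂ) = L := by
  set D := (L (1, 0)).1 * (L (0, 1)).2 - (L (0, 1)).1 * (L (1, 0)).2 with hD
  let M : ℂ × ℂ →L[ℂ] ℂ × ℂ :=
    ((D⁻¹ * (L (0, 1)).2) • ContinuousLinearMap.fst ℂ ℂ ℂ -
      (D⁻¹ * (L (0, 1)).1) • ContinuousLinearMap.snd ℂ ℂ ℂ).prod
    ((D⁻¹ * (L (1, 0)).1) • ContinuousLinearMap.snd ℂ ℂ ℂ -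
      (D⁻¹ * (L (1, 0)).2) • ContinuousLinearMap.fst ℂ ℂ ℂ)
  have hM : ∀ y : ℂ × ℂ, M y = (D⁻¹ * ((L (0, 1)).2 * y.1 - (L (0, 1)).1 * y.2),
      D⁻¹ * ((L (1, 0)).1 * y.2 - (L (1, 0)).2 * y.1)) := by
    intro y
    ext
    · simp [M]
      ring
    · simp [M]
      ring
  have h1 : Function.LeftInverse M L := by
    intro x
    rw [hM, Ift_apply L x]
    ext
    · simp only
      have : D⁻¹ * ((L (0, 1)).2 * (x.1 * (L (1, 0)).1 + x.2 * (L (0, 1)).1) -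
          (L (0, 1)).1 * (x.1 * (L (1, 0)).2 + x.2 * (L (0, 1)).2)) = (D⁻¹ * D) * x.1 := by
        rw [hD]; ring
      rw [this, inv_mul_cancel₀ hdet, one_mul]
    · simp only
      have : D⁻¹ * ((L (1, 0)).1 * (x.1 * (L (1, 0)).2 + x.2 * (L (0, 1)).2) -
          (L (1, 0)).2 * (x.1 * (L (1, 0)).1 + x.2 * (L (0, 1)).1)) = (D⁻¹ * D) * x.2 := by
        rw [hD]; ring
      rw [this, inv_mul_cancel₀ hdet, one_mul]
  have h2 : Function.RightInverse M L := by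
    intro y
    rw [Ift_apply L (M y), hM]
    ext
    · simp only
      have : D⁻¹ * ((L (0, 1)).2 * y.1 - (L (0, 1)).1 * y.2) * (L (1, 0)).1 +
          D⁻¹ * ((L (1, 0)).1 * y.2 - (L (1, 0)).2 * y.1) * (L (0, 1)).1 = (D⁻¹ * D) * y.1 := by
        rw [hD]; ring
      rw [this, inv_mul_cancel₀ hdet, one_mul]
    · simp only
      have : D⁻¹ * ((L (0, 1)).2 * y.1 - (L (0, 1)).1 * y.2) * (L (1, 0)).2 +
          D⁻¹ * ((L (1, 0)).1 * y.2 - (L (1, 0)).2 * y.1) * (L (0, 1)).2 = (D⁻¹ * D) * y.2 := by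
        rw [hD]; ring
      rw [this, inv_mul_cancel₀ hdet, one_mul]
  refine ⟨ContinuousLinearEquiv.equivOfInverse L M h1 h2, ?_⟩
  ext <;> rfl

private theorem Ift_mpr {θ : ℂ × ℂ → ℂ × ℂ} (h : AnalyticAt ℂ θ 0) (h0 : θ 0 = 0)
    (hdet : (fderiv ℂ θ 0 (1, 0)).1 * (fderiv ℂ θ 0 (0, 1)).2 -
      (fderiv ℂ θ 0 (0, 1)).1 * (fderiv ℂ θ 0 (1, 0)).2 ≠ 0) : Bihol θ := by
  obtain ⟨i, hi⟩ := Ift_equiv (fderiv ℂ θ 0) hdet
  have hs : HasStrictFDerivAt θ (i : ℂ × ℂ →L[ℂ] ℂ × ℂ) 0 := by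
    rw [hi]
    exact h.hasStrictFDerivAt
  have hsrc : (0 : ℂ × ℂ) ∈ (hs.toOpenPartialHomeomorph θ).source :=
    hs.mem_toOpenPartialHomeomorph_source
  have han : AnalyticAt ℂ (hs.localInverse θ i 0) (θ 0) :=
    OpenPartialHomeomorph.analyticAt_symm' (hs.toOpenPartialHomeomorph θ) hsrc h hi.symm
  refine ⟨h, h0, hs.localInverse θ i 0, ?_, ?_, hs.eventually_left_inverse, ?_⟩
  · rwa [h0] at han
  · have := hs.localInverse_apply_image
    rwa [h0] at this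
  · have := hs.eventually_right_inverse
    rwa [h0] at this

theorem bihol_iff {θ : ℂ × ℂ → ℂ × ℂ} (h : AnalyticAt ℂ θ 0) (h0 : θ 0 = 0) :
    Bihol θ ↔ (fderiv ℂ θ 0 (1, 0)).1 * (fderiv ℂ θ 0 (0, 1)).2 -
      (fderiv ℂ θ 0 (0, 1)).1 * (fderiv ℂ θ 0 (1, 0)).2 ≠ 0 :=
  ⟨Ift_mp, Ift_mpr h h0⟩

theorem coord_iff {S T : ℂ × ℂ → ℂ} (hS : AnalyticAt ℂ S 0) (hT : AnalyticAt ℂ T 0) (hS0 : S 0 = 0)
    (hT0 : T 0 = 0) : Coord S T ↔ dx S 0 * dy T 0 - dy S 0 * dx T 0 ≠ 0 := by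
  unfold Coord
  rw [bihol_iff (hS.prod hT) (by rw [hS0, hT0]; rfl)]
  have h1 : fderiv ℂ (fun x => (S x, T x)) 0 = (fderiv ℂ S 0).prod (fderiv ℂ T 0) :=
    (hS.differentiableAt.hasFDerivAt.prodMk hT.differentiableAt.hasFDerivAt).fderiv
  rw [h1]
  exact Iff.rfl

/-- The components of local coordinates. -/
theorem Coord.parts {S T : ℂ × ℂ → ℂ} (h : Coord S T) : AnalyticAt ℂ S 0 ∧ AnalyticAt ℂ T 0 ∧ S 0 = 0 ∧
    T 0 = 0 := by
  have h1 : AnalyticAt ℂ (fun x => (S x, T x)) 0 := Bihol.an h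
  have h2 : (S 0, T 0) = (0 : ℂ × ℂ) := Bihol.zero h
  refine ⟨?_, ?_, ?_, ?_⟩
  · have h3 : AnalyticAt ℂ (fun p : ℂ × ℂ => p.1) ((fun x => (S x, T x)) (0 : ℂ × ℂ)) := analyticAt_fst
    exact AnalyticAt.comp (g := fun p : ℂ × ℂ => p.1) (f := fun x => (S x, T x)) h3 h1
  · have h3 : AnalyticAt ℂ (fun p : ℂ × ℂ => p.2) ((fun x => (S x, T x)) (0 : ℂ × ℂ)) := analyticAt_snd
    exact AnalyticAt.comp (g := fun p : ℂ × ℂ => p.2) (f := fun x => (S x, T x)) h3 h1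
  · exact congrArg Prod.fst h2
  · exact congrArg Prod.snd h2

theorem Coord.symm {S T : ℂ × ℂ → ℂ} (h : Coord S T) : Coord T S := by
  obtain ⟨h1, h2, h3, h4⟩ := h.parts
  rw [coord_iff h2 h1 h4 h3]
  rw [coord_iff h1 h2 h3 h4] at h
  intro h5
  apply h
  linear_combination -h5

theorem coord_fst_snd : Coord (fun x => x.1) (fun x => x.2) :=
  Bihol.id

end Pool.Agent.H17BP

end
end
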