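import Pool.Agent.H94.G6.H14.PP.Defs_1
import Pool.Agent.H94.G6.M04
import Pool.Agent.H94.G6.M07
import Pool.Agent.H94.G6.M11
import Pool.Agent.H94.G6.M12

/-! The parts of this file: H17BP.Model_1, H17R.Defs, H14.PP.NodeGerm, H36.BP.MaxP, H36.BP.MtA, H36.BP.SubB, H17BP.Final_1. -/

section

/-!
# Holomorphic curves in a closed surface, the induction hypothesis

Holomorphic maps into `ℙ(V)` are given by functions with values in `V ∖ {0}`, which are not required to be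
continuous, see `HolP`.
-/

open Topology Filter

noncomputable section

namespace Pool.Agent.H17BP

variable {V : Type} [NormedAddCommGroup V] [NormedSpace ℂ V]

/-- The function `f` is, near `z₀`, proportional to a holomorphic function without zeros, that is, `f` defines a
holomorphic map to `ℙ(V)`. -/
def HolP (f : ℂ → V) (z₀ : ℂ) : Prop :=
  ∃ F : ℂ → V, AnalyticAt ℂ F z₀ ∧ F z₀ ≠ 0 ∧ ∀ᶠ z in 𝓝 z₀, Pr (f z) (F z)

/-- Every holomorphic map from `ℂ` to the projective set with the cone `X` which is not a map into `B` is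
constant. -/
def Brody (X B : Set V) : Prop :=
  ∀ f : ℂ → V, (∀ z, HolP f z) → (∀ z, f z ∈ X) → (∃ z, f z ∉ B) → ∀ z w, Pr (f z) (f w)

/-- Every holomorphic map from a punctured disc to the projective set with the cone `X` which is not a map into
`B` extends to the disc. -/
def Picard (X B : Set V) : Prop :=
  ∀ r : ℝ, 0 < r → ∀ f : ℂ → V, (∀ z : ℂ, z ≠ 0 → ‖z‖ < r → HolP f z ∧ f z ∈ X) →
    (∃ z : ℂ, z ≠ 0 ∧ ‖z‖ < r ∧ f z ∉ B) →
    ∃ F : ℂ → V, AnalyticAt ℂ F 0 ∧ F 0 ≠ 0 ∧ ∀ᶠ z in 𝓝[≠] (0 : ℂ), Pr (f z) (F z)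

/-- The subset `B` of `X` is the set of the common zeros of the forms `Q i` of degree `D`, and near every point
it is the set of the zeros of one of these forms. -/
structure Eqs (X B : Set V) {κ : Type} (Q : κ → V → ℂ) (D : ℕ) : Prop where
  pos : 1 ≤ D
  an : ∀ i x, AnalyticAt ℂ (Q i) x
  smul : ∀ i (c : ℂ) x, Q i (c • x) = c ^ D * Q i x
  mem_iff : ∀ x, x ∈ B ↔ x ∈ X ∧ ∀ i, Q i x = 0
  gen : ∀ x ∈ X, ∃ i, ∀ᶠ y in 𝓝 x, y ∈ X → Q i y = 0 → y ∈ B

/-- At the point `x` the curve `B` has a local equation which becomes a monomial after at most `n` blow-ups over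
every point. -/
def ResAt (X B : Set V) (x : V) (n : ℕ) : Prop :=
  ∃ σ τ g, IsChart X σ τ ∧ σ 0 = x ∧ LocalEq B σ g ∧ ResN n g

end Pool.Agent.H17BP

end
end

section

/-!
# Varieties with a relation between forms: definitions

Locally closed subvarieties of `ℙ^N`, relations between forms on them, and the four properties of
the Green–Griffiths–Lang conjecture with a given exceptional set.
-/

open MvPolynomial Topology Filter
open Pool.Agent.H17 (PN VanishesAt ZariskiClosedIn HolomorphicInto puncturedDisc)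

noncomputable section

namespace Pool.Agent.H17R

variable {N : ℕ}

/-- The points of the zero locus of the homogeneous ideal `P` at which none of the forms `H m`
vanishes. -/
def openVar (P : Ideal (MvPolynomial (Fin (N + 1)) ℂ)) {b : ℕ}
    (H : Fin b → MvPolynomial (Fin (N + 1)) ℂ) : Set (PN N) :=
  {x | (∀ Q ∈ P, ∀ n, Q.IsHomogeneous n → VanishesAt Q x) ∧ ∀ m, ¬ VanishesAt (H m) x}

/-- The hypersurface `F = 0` in `ℙ^N` is smooth: the form `F` and its partial derivatives have no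
common zero. -/
def IsSmooth (F : MvPolynomial (Fin (N + 1)) ℂ) : Prop :=
  ∀ v : Fin (N + 1) → ℂ, v ≠ 0 → eval v F = 0 → ∃ i, eval v (pderiv i F) ≠ 0

end Pool.Agent.H17R

end
end

section

/-!
# BPm NodeGerm: a node is not a smooth point; the Jacobian of a change of charts

* `jac_ne_zero`: `τ = χ'.q ∘ χ.σ` near `p`, `η = χ.q ∘ χ'.σ` near `τ p`. For `y` near `p`:
  `χ.σ y = c • χ'.σ (τ y)` with `c ≠ 0`, so `η (τ y) = χ.q (χ'.σ (τ y)) = χ.q (χ.σ y) = y`. By the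
  chain rule `Dη(τ p) ∘ Dτ(p) = id`, so `Dτ(p)` is injective and its determinant is not zero.
* `not_node`: let `p₀ = (0, t₀)`, `τ = χ'.q ∘ χ.σ`, and suppose `τ p₀ = 0`, `χ'` of type `true`. For
  `t` near `t₀` the point `χ.σ (0,t) ∈ T` so with `τ (0,t) = (u t, w t)` we have `u t * w t = 0`
  (`T` is a cone); `u`, `w` are analytic near `t₀`, so one of them vanishes identically near `t₀`
  (`AnalyticAt.eventually_eq_zero_or_eventually_ne_zero`), say `u` (the other case is symmetric). Let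
  `η = χ.q ∘ χ'.σ`, `η 0 = p₀` (as above). For small `x ≠ 0` the point `χ'.σ (x, 0)` is in `T`, it is
  a multiple of `χ.σ (η (x,0))`, so `χ.σ (η (x,0)) ∈ T`; `η (x,0)` is close to `p₀` and if
  `nd = true` its second coordinate is not `0` (as `t₀ ≠ 0`), so its first coordinate is `0`:
  `η (x,0) = (0,t)`, `t` close to `t₀`, and `(x,0) = τ (0,t)` has first coordinate `u t = 0`:
  contradiction to `x ≠ 0`.
-/

open Topology Filter Metric

namespace Pool.Agent.H14.PP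

open Pool.Agent.H36.BP

variable {N : ℕ} {X K T : Set (EN N)}

/-- the change of charts and its inverse, pointwise -/
private theorem NodeGerm_pt (χ χ' : Chart X) {y : ℂ × ℂ} (hy : y ∈ ball (0 : ℂ × ℂ) 2)
    (hU : χ.σ y ∈ χ'.U) :
    χ'.q (χ.σ y) ∈ ball (0 : ℂ × ℂ) 2 ∧ χ'.σ (χ'.q (χ.σ y)) ∈ χ.U ∧
      χ.q (χ'.σ (χ'.q (χ.σ y))) = y ∧ ∃ c : ℂ, c ≠ 0 ∧ χ'.σ (χ'.q (χ.σ y)) = c • χ.σ y := by
  obtain ⟨h1, h2, h3⟩ := χ.σ_mem y hy
  obtain ⟨h4, c, hc, h5⟩ := χ'.surj _ h1 hU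
  have h6 : χ'.σ (χ'.q (χ.σ y)) = c⁻¹ • χ.σ y := by
    rw [h5, smul_smul, inv_mul_cancel₀ hc, one_smul]
    congr 2
    exact h5.symm
  have hc' : c⁻¹ ≠ 0 := inv_ne_zero hc
  refine ⟨h4, ?_, ?_, c⁻¹, hc', h6⟩
  · rw [h6]
    exact χ.smul_U _ h2 _ hc'
  · rw [h6, χ.q_smul _ h2 _ hc', h3]

/-- the change of charts is analytic -/
private theorem NodeGerm_an (χ χ' : Chart X) {y : ℂ × ℂ} (hy : y ∈ ball (0 : ℂ × ℂ) 2)
    (hU : χ.σ y ∈ χ'.U) : AnalyticAt ℂ (fun y => χ'.q (χ.σ y)) y :=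
  AnalyticAt.comp (g := χ'.q) (f := χ.σ) (χ'.q_an _ hU) (χ.σ_an y hy)

/-- nearby points -/
private theorem NodeGerm_near (χ χ' : Chart X) {y : ℂ × ℂ} (hy : y ∈ ball (0 : ℂ × ℂ) 2)
    (hU : χ.σ y ∈ χ'.U) : ∀ᶠ z in 𝓝 y, z ∈ ball (0 : ℂ × ℂ) 2 ∧ χ.σ z ∈ χ'.U := by
  have h1 : ∀ᶠ z in 𝓝 y, z ∈ ball (0 : ℂ × ℂ) 2 := isOpen_ball.mem_nhds hy
  have h2 : ∀ᶠ x in 𝓝 (χ.σ y), x ∈ χ'.U := χ'.isOpen_U.mem_nhds hU
  exact h1.and ((χ.σ_an y hy).continuousAt.tendsto.eventually h2)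

theorem jac_ne_zero (hX : IsCone X) (χ χ' : Chart X) {p : ℂ × ℂ}
    (hp : p ∈ ball (0 : ℂ × ℂ) 2) (hU : χ.σ p ∈ χ'.U) :
    jac (fun y => χ'.q (χ.σ y)) p ≠ 0 := by
  obtain ⟨τ, hτ⟩ : ∃ τ : ℂ × ℂ → ℂ × ℂ, τ = fun y => χ'.q (χ.σ y) := ⟨_, rfl⟩
  obtain ⟨η, hη⟩ : ∃ η : ℂ × ℂ → ℂ × ℂ, η = fun y => χ.q (χ'.σ y) := ⟨_, rfl⟩
  obtain ⟨a1, a2, a3, -⟩ := NodeGerm_pt χ χ' hp hU
  have hτa : AnalyticAt ℂ τ p := by
    rw [hτ]
    exact NodeGerm_an χ χ' hp hU
  have hηa : AnalyticAt ℂ η (τ p) := by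
    rw [hη, hτ]
    exact NodeGerm_an χ' χ a1 a2
  have hid : ∀ᶠ y in 𝓝 p, η (τ y) = y := by
    filter_upwards [NodeGerm_near χ χ' hp hU] with y hy
    rw [hη, hτ]
    exact (NodeGerm_pt χ χ' hy.1 hy.2).2.2.1
  have h1 : HasFDerivAt (η ∘ τ) ((fderiv ℂ η (τ p)).comp (fderiv ℂ τ p)) p :=
    hηa.differentiableAt.hasFDerivAt.comp p hτa.differentiableAt.hasFDerivAt
  have h2 : HasFDerivAt (η ∘ τ) (ContinuousLinearMap.id ℂ (ℂ × ℂ)) p :=
    (hasFDerivAt_id p).congr_of_eventuallyEq hid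
  have h3 := h1.unique h2
  have h4 : ∀ w : ℂ × ℂ, fderiv ℂ τ p w = 0 → w = 0 := by
    intro w hw
    have h5 : ((fderiv ℂ η (τ p)).comp (fderiv ℂ τ p)) w = w := by
      rw [h3]
      rfl
    rw [ContinuousLinearMap.comp_apply, hw, map_zero] at h5
    exact h5.symm
  rw [← hτ]
  intro hJ
  unfold jac at hJ
  have e1 : fderiv ℂ τ p ((fderiv ℂ τ p (0, 1)).2, -(fderiv ℂ τ p (1, 0)).2) = 0 := by
    have e : (((fderiv ℂ τ p (0, 1)).2, -(fderiv ℂ τ p (1, 0)).2) : ℂ × ℂ) =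
        (fderiv ℂ τ p (0, 1)).2 • ((1 : ℂ), (0 : ℂ)) - (fderiv ℂ τ p (1, 0)).2 • ((0 : ℂ), (1 : ℂ)) := by
      ext <;> simp
    rw [e, map_sub, map_smul, map_smul]
    ext
    · simp only [Prod.fst_sub, Prod.smul_fst, smul_eq_mul, Prod.fst_zero]
      linear_combination hJ
    · simp only [Prod.snd_sub, Prod.smul_snd, smul_eq_mul, Prod.snd_zero]
      ring
  have e2 : fderiv ℂ τ p ((fderiv ℂ τ p (0, 1)).1, -(fderiv ℂ τ p (1, 0)).1) = 0 := by
    have e : (((fderiv ℂ τ p (0, 1)).1, -(fderiv ℂ τ p (1, 0)).1) : ℂ × ℂ) =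
        (fderiv ℂ τ p (0, 1)).1 • ((1 : ℂ), (0 : ℂ)) - (fderiv ℂ τ p (1, 0)).1 • ((0 : ℂ), (1 : ℂ)) := by
      ext <;> simp
    rw [e, map_sub, map_smul, map_smul]
    ext
    · simp only [Prod.fst_sub, Prod.smul_fst, smul_eq_mul, Prod.fst_zero]
      ring
    · simp only [Prod.snd_sub, Prod.smul_snd, smul_eq_mul, Prod.snd_zero]
      linear_combination -hJ
  have f1 := h4 _ e1
  have f2 := h4 _ e2
  rw [Prod.mk_eq_zero] at f1 f2
  have g1 : fderiv ℂ τ p (1, 0) = 0 := by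
    ext
    · simpa using f2.2
    · simpa using f1.2
  have g2 := h4 _ g1
  simp [Prod.mk_eq_zero] at g2

theorem not_node (hX : IsCone X) (hT : ∀ x ∈ T, ∀ c : ℂ, c ≠ 0 → c • x ∈ T) (χ χ' : Chart X)
    {nd : Bool} (h : HasType T χ nd) (h' : HasType T χ' true) {t₀ : ℂ} (ht₀ : ‖t₀‖ < 2)
    (hnd : nd = true → t₀ ≠ 0) (hU : χ.σ (0, t₀) ∈ χ'.U) : χ'.q (χ.σ (0, t₀)) ≠ 0 := by
  intro h0
  have hp : ((0 : ℂ), t₀) ∈ ball (0 : ℂ × ℂ) 2 := by
    rw [mem_ball, dist_zero_right, Prod.norm_def]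
    simpa using ht₀
  obtain ⟨a1, a2, a3, -⟩ := NodeGerm_pt χ χ' hp hU
  rw [h0] at a1 a2 a3
  -- the two component functions
  have hpath : AnalyticAt ℂ (fun t : ℂ => χ'.q (χ.σ (0, t))) t₀ := by
    have h1 : AnalyticAt ℂ (fun t : ℂ => ((0 : ℂ), t)) t₀ := analyticAt_const.prod analyticAt_id
    exact AnalyticAt.comp (g := fun y => χ'.q (χ.σ y)) (f := fun t : ℂ => ((0 : ℂ), t))
      (NodeGerm_an χ χ' hp hU) h1
  have hu : AnalyticAt ℂ (fun t : ℂ => (χ'.q (χ.σ (0, t))).1) t₀ :=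
    AnalyticAt.comp (g := fun x : ℂ × ℂ => x.1) (f := fun t : ℂ => χ'.q (χ.σ (0, t))) analyticAt_fst hpath
  have hw : AnalyticAt ℂ (fun t : ℂ => (χ'.q (χ.σ (0, t))).2) t₀ :=
    AnalyticAt.comp (g := fun x : ℂ × ℂ => x.2) (f := fun t : ℂ => χ'.q (χ.σ (0, t))) analyticAt_snd hpath
  have htend : Tendsto (fun t : ℂ => ((0 : ℂ), t)) (𝓝 t₀) (𝓝 (0, t₀)) :=
    (continuous_const.prodMk continuous_id).tendsto t₀
  have huw : ∀ᶠ t in 𝓝 t₀, (χ'.q (χ.σ (0, t))).1 = 0 ∨ (χ'.q (χ.σ (0, t))).2 = 0 := by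
    filter_upwards [htend.eventually (NodeGerm_near χ χ' hp hU)] with t ht
    obtain ⟨b1, b2, b3, c, hc, b4⟩ := NodeGerm_pt χ χ' ht.1 ht.2
    have b5 : χ.σ (0, t) ∈ T := (h _ ht.1).2 (Or.inl rfl)
    have b6 : χ'.σ (χ'.q (χ.σ (0, t))) ∈ T := by
      rw [b4]
      exact hT _ b5 c hc
    rcases (h' _ b1).1 b6 with b7 | b7
    · exact Or.inl b7
    · exact Or.inr b7.2
  -- points on the axes of the second chart
  have hax : ∀ᶠ q in 𝓝 (0 : ℂ × ℂ), (q.1 = 0 ∨ q.2 = 0) →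
      χ'.q (χ.σ (0, (χ.q (χ'.σ q)).2)) = q := by
    have hη := (NodeGerm_an χ' χ a1 a2).continuousAt
    have hη2 : ContinuousAt (fun q => (χ.q (χ'.σ q)).2) (0 : ℂ × ℂ) := hη.snd
    have hne : ∀ᶠ q in 𝓝 (0 : ℂ × ℂ), nd = true → (χ.q (χ'.σ q)).2 ≠ 0 := by
      by_cases hn : nd = true
      · have h3 : (χ.q (χ'.σ 0)).2 ≠ 0 := by
          rw [a3]
          exact hnd hn
        exact (hη2.eventually_ne h3).mono fun q hq _ => hq
      · exact Eventually.of_forall fun q hq => absurd hq hn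
    filter_upwards [NodeGerm_near χ' χ a1 a2, hne] with q hq hq2 hq3
    obtain ⟨b1, b2, b3, c, hc, b4⟩ := NodeGerm_pt χ' χ hq.1 hq.2
    have b5 : χ'.σ q ∈ T := (h' _ hq.1).2 (by
      rcases hq3 with h4 | h4
      · exact Or.inl h4
      · exact Or.inr ⟨rfl, h4⟩)
    have b6 : χ.σ (χ.q (χ'.σ q)) ∈ T := by
      rw [b4]
      exact hT _ b5 c hc
    have b7 : (χ.q (χ'.σ q)).1 = 0 := by
      rcases (h _ b1).1 b6 with b8 | b8
      · exact b8
      · exact absurd b8.2 (hq2 b8.1)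
    have b9 : ((0 : ℂ), (χ.q (χ'.σ q)).2) = χ.q (χ'.σ q) := by
      ext
      · exact b7.symm
      · rfl
    rw [b9]
    exact b3
  have hη2 : Tendsto (fun q => (χ.q (χ'.σ q)).2) (𝓝 (0 : ℂ × ℂ)) (𝓝 t₀) := by
    have h2 : ContinuousAt (fun q => (χ.q (χ'.σ q)).2) (0 : ℂ × ℂ) :=
      (NodeGerm_an χ' χ a1 a2).continuousAt.snd
    have h3 := h2.tendsto
    rwa [a3] at h3
  have hx0 : ¬ ∀ᶠ x in 𝓝 (0 : ℂ), x = 0 := by
    intro h1
    have h2 : ∀ᶠ x in 𝓝[≠] (0 : ℂ), False := by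
      filter_upwards [h1.filter_mono nhdsWithin_le_nhds, self_mem_nhdsWithin] with x hx hx'
      exact hx' hx
    rw [eventually_false_iff_eq_bot] at h2
    exact (inferInstance : (𝓝[≠] (0 : ℂ)).NeBot).ne h2
  rcases hu.eventually_eq_zero_or_eventually_ne_zero with h1 | h1
  · have h2 : ∀ᶠ q in 𝓝 (0 : ℂ × ℂ), (q.1 = 0 ∨ q.2 = 0) → q.1 = 0 := by
      filter_upwards [hax, hη2.eventually h1] with q b1 b2 b3
      rw [b1 b3] at b2
      exact b2
    have h3 : Tendsto (fun x : ℂ => (x, (0 : ℂ))) (𝓝 0) (𝓝 (0 : ℂ × ℂ)) :=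
      (continuous_id.prodMk continuous_const).tendsto 0
    exact hx0 ((h3.eventually h2).mono fun x hx => hx (Or.inr rfl))
  · rcases hw.eventually_eq_zero_or_eventually_ne_zero with h1' | h1'
    · have h2 : ∀ᶠ q in 𝓝 (0 : ℂ × ℂ), (q.1 = 0 ∨ q.2 = 0) → q.2 = 0 := by
        filter_upwards [hax, hη2.eventually h1'] with q b1 b2 b3
        rw [b1 b3] at b2
        exact b2
      have h3 : Tendsto (fun x : ℂ => ((0 : ℂ), x)) (𝓝 0) (𝓝 (0 : ℂ × ℂ)) :=
        (continuous_const.prodMk continuous_id).tendsto 0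
      exact hx0 ((h3.eventually h2).mono fun x hx => hx (Or.inl rfl))
    · have h2 : ∀ᶠ x in 𝓝[≠] t₀, False := by
        filter_upwards [h1, h1', huw.filter_mono nhdsWithin_le_nhds] with t b1 b2 b3
        rcases b3 with b3 | b3
        · exact b1 b3
        · exact b2 b3
      rw [eventually_false_iff_eq_bot] at h2
      exact (inferInstance : (𝓝[≠] t₀).NeBot).ne h2

end Pool.Agent.H14.PP

end

section

/-!
# BP MaxP: the maximum principle

* `not_isLocalMax`: with `0 < c' < c`: `|h z| exp(c'|z - z₀|²) ≤ u z ≤ u z₀ = |h z₀|` near `z₀`, so `|h|` has a local maximum at `z₀`, hence `h` is constant near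
  `z₀` (`Complex.eventually_eq_of_isLocalMax_norm`), and `|h z₀| exp(c'|z - z₀|²) ≤ |h z₀|` for `z ≠ z₀` near `z₀`: contradiction.
* `max_principle`: otherwise the maximum of `u` over the compact set (`UpperSemicontinuousOn.exists_isMaxOn`) is `> A ≥ 0` and is attained in `U`.
-/

set_option autoImplicit false

namespace Pool.Agent.H36.BP

open Filter Topology Metric

variable {N : ℕ}

theorem Sub.not_isLocalMax {u : ℂ → ℝ} {z₀ : ℂ} {c : ℝ} (h : Sub u z₀ c) (hc : 0 < c) : ¬ IsLocalMax u z₀ := by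
  intro hmax
  obtain ⟨hpos, hsup⟩ := h
  obtain ⟨f, hf, hf0, hfu⟩ := hsup (c / 2) (by linarith)
  have hmax' : ∀ᶠ z in 𝓝 z₀, u z ≤ u z₀ := hmax
  have h1 : IsLocalMax (norm ∘ f) z₀ := by
    filter_upwards [hfu, hmax'] with z hz1 hz2
    simp only [Function.comp_apply]
    rw [hf0]
    refine le_trans ?_ (hz1.trans hz2)
    refine le_mul_of_one_le_right (norm_nonneg _) ?_
    exact Real.one_le_exp (by positivity)
  have h2 : ∀ᶠ z in 𝓝 z₀, DifferentiableAt ℂ f z :=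
    hf.eventually_analyticAt.mono fun z hz => hz.differentiableAt
  have h3 := Complex.eventually_eq_of_isLocalMax_norm h2 h1
  have h4 : ∀ᶠ z in 𝓝 z₀, z = z₀ := by
    filter_upwards [hfu, hmax', h3] with z hz1 hz2 hz3
    by_contra hne
    rw [hz3, hf0] at hz1
    have h5 : u z₀ * Real.exp (c / 2 * ‖z - z₀‖ ^ 2) ≤ u z₀ * 1 := by
      rw [mul_one]
      exact hz1.trans hz2
    have h6 := le_of_mul_le_mul_left h5 hpos
    rw [Real.exp_le_one_iff] at h6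
    have h7 : 0 < ‖z - z₀‖ := norm_pos_iff.2 (sub_ne_zero.2 hne)
    have h8 : 0 < c / 2 * ‖z - z₀‖ ^ 2 := by positivity
    linarith
  have h9 : ∀ᶠ z in 𝓝[≠] z₀, z = z₀ := h4.filter_mono nhdsWithin_le_nhds
  have h10 : ∀ᶠ z in 𝓝[≠] z₀, z ≠ z₀ := eventually_mem_nhdsWithin
  obtain ⟨z, hz1, hz2⟩ := (h9.and h10).exists
  exact hz2 hz1

theorem max_principle {S U : Set ℂ} (hS : IsCompact S) (hU : IsOpen U) (hUS : U ⊆ S) {u : ℂ → ℝ}
    (husc : UpperSemicontinuousOn u S) (hsub : ∀ z ∈ U, 0 < u z → ∃ c, 0 < c ∧ Sub u z c) {A : ℝ} (hA : 0 ≤ A)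
    (hbd : ∀ z ∈ S \ U, u z ≤ A) : ∀ z ∈ S, u z ≤ A := by
  intro z hz
  by_contra hlt
  push Not at hlt
  obtain ⟨a, haS, hmax⟩ := UpperSemicontinuousOn.exists_isMaxOn ⟨z, hz⟩ hS husc
  have h1 : u z ≤ u a := hmax hz
  have haU : a ∈ U := by
    by_contra haU
    have := hbd a ⟨haS, haU⟩
    linarith
  obtain ⟨c, hc, hs⟩ := hsub a haU (by linarith)
  refine hs.not_isLocalMax hc ?_
  filter_upwards [hU.mem_nhds haU] with w hw
  exact hmax (hUS hw)

end Pool.Agent.H36.BP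

end

section

/-!
# BP MtA: the metric along a curve

* `mt_usc`: `F` and `deriv F` are continuous near `z`, `usc`.
* `mt_smul`: for `k` holomorphic without zeros at `z`: `(k F)' = k F' + k' F`, `inv`.
* `mt_comp`: `(F ∘ φ)' = φ' F' ∘ φ`, `hom`.
* `mt_limit`: `F n → H` locally uniformly on a neighbourhood of `0`, then `F n 0 → H 0`, `(F n)' 0 → H' 0` (`TendstoLocallyUniformlyOn.deriv`), `usc` at `(H 0, H' 0)`.
-/

set_option autoImplicit false

namespace Pool.Agent.H36.BP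

open Filter Topology Metric

variable {N : ℕ}

variable {K B : Set (EN N)} {G : EN N → EN N → ℝ} {ρ : EN N → ℝ} {M : ℕ} {c₀ C : ℝ}

theorem mt_usc (hM : MetricData K B G ρ M c₀ C) {U : Set ℂ} (hU : IsOpen U) {F : ℂ → EN N} (hF : Curve K U F) :
    UpperSemicontinuousOn (mt G F) U := by
  intro z hz y hy
  have hA : AnalyticAt ℂ F z := hF.1.analyticAt (hU.mem_nhds hz)
  have hc : ContinuousAt (fun w => (F w, deriv F w)) z := hA.continuousAt.prodMk hA.deriv.continuousAt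
  have h1 := hM.usc (F z) (hF.2 z hz) (deriv F z) y hy
  have h2 := hc.eventually h1
  filter_upwards [nhdsWithin_le_nhds h2, self_mem_nhdsWithin] with w hw hwU
  exact hw (hF.2 w hwU)

theorem mt_nonneg (hM : MetricData K B G ρ M c₀ C) {F : ℂ → EN N} {z : ℂ} (hz : F z ∈ K) : 0 ≤ mt G F z := by
  exact hM.nonneg _ hz _

theorem mt_smul (hM : MetricData K B G ρ M c₀ C) {F : ℂ → EN N} {k : ℂ → ℂ} {z : ℂ} (hF : DifferentiableAt ℂ F z)
    (hk : DifferentiableAt ℂ k z) (hz : F z ∈ K) (h0 : k z ≠ 0) : mt G (fun z => k z • F z) z = mt G F z := by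
  have h : deriv (fun z => k z • F z) z = k z • deriv F z + deriv k z • F z := by
    have := (hk.hasDerivAt.smul hF.hasDerivAt).deriv
    exact this
  unfold mt
  rw [h]
  exact hM.inv (F z) hz (deriv F z) (k z) (deriv k z) h0

theorem mt_comp (hM : MetricData K B G ρ M c₀ C) {F : ℂ → EN N} {φ : ℂ → ℂ} {z : ℂ} (hF : DifferentiableAt ℂ F (φ z))
    (hφ : DifferentiableAt ℂ φ z) (hz : F (φ z) ∈ K) : mt G (fun z => F (φ z)) z = ‖deriv φ z‖ * mt G F (φ z) := by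
  have h : deriv (fun z => F (φ z)) z = deriv φ z • deriv F (φ z) := by
    have := (HasDerivAt.scomp z hF.hasDerivAt hφ.hasDerivAt).deriv
    exact this
  unfold mt
  rw [h]
  exact hM.hom (F (φ z)) hz (deriv F (φ z)) (deriv φ z)

theorem mt_limit (hM : MetricData K B G ρ M c₀ C) {κ : Type} {l : Filter κ} [l.NeBot] {F : κ → ℂ → EN N} {H : ℂ → EN N} {s : ℝ} (hs : 0 < s)
    (hF : ∀ᶠ n in l, Curve K (ball 0 s) (F n)) (hH : TendstoLocallyUniformlyOn F H l (ball 0 s)) (h0 : H 0 ∈ K) {a : ℝ}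
    (ha : ∀ᶠ n in l, a ≤ mt G (F n) 0) : a ≤ mt G H 0 := by
  by_contra hlt
  rw [not_le] at hlt
  have hmem : (0 : ℂ) ∈ ball (0 : ℂ) s := mem_ball_self hs
  have h1 : Tendsto (fun n => F n 0) l (𝓝 (H 0)) := hH.tendsto_at hmem
  have hd : TendstoLocallyUniformlyOn (deriv ∘ F) (deriv H) l (ball 0 s) :=
    hH.deriv (hF.mono fun n hn => hn.1) isOpen_ball
  have h2 : Tendsto (fun n => deriv (F n) 0) l (𝓝 (deriv H 0)) := hd.tendsto_at hmem
  have h3 : Tendsto (fun n => (F n 0, deriv (F n) 0)) l (𝓝 (H 0, deriv H 0)) := h1.prodMk_nhds h2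
  have h4 := h3.eventually (hM.usc (H 0) h0 (deriv H 0) a hlt)
  obtain ⟨n, hn1, hn2, hn3⟩ := (h4.and (hF.and ha)).exists
  have h5 : G (F n 0) (deriv (F n) 0) < a := hn1 (hn2.2 0 hmem)
  exact absurd hn3 (not_le.mpr h5)

theorem mt_const (hM : MetricData K B G ρ M c₀ C) {F : ℂ → EN N} {z : ℂ} (hz : F z ∈ K) {a : ℂ} (h : deriv F z = a • F z) : mt G F z = 0 := by
  have h1 : G (F z) 0 = 0 := by
    have := hM.hom (F z) hz 0 0
    simpa using this
  have h2 := hM.inv (F z) hz 0 1 a one_ne_zero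
  rw [smul_zero, zero_add, one_smul, h1] at h2
  unfold mt
  rw [h, h2]

end Pool.Agent.H36.BP

end

section

/-!
# BP SubB: exponentials of squares

`|t|² = |t₀|² + 2 Re(conj t₀ (t - t₀)) + |t - t₀|²`, so `exp(a|t|²) = |exp(a(|t₀|² + 2 conj t₀ (t - t₀)))| exp(a|t - t₀|²)`, and
`|t z - t₀|²/|z - z₀|² → |t'(z₀)|²` (for every `a`, positive or negative).
-/

set_option autoImplicit false

namespace Pool.Agent.H36.BP

open Filter Topology Metric

variable {N : ℕ}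

theorem Sub.exp_sq {t : ℂ → ℂ} {z₀ : ℂ} (ht : AnalyticAt ℂ t z₀) (a : ℝ) :
    Sub (fun z => Real.exp (a * ‖t z‖ ^ 2)) z₀ (a * ‖deriv t z₀‖ ^ 2) := by
  refine ⟨Real.exp_pos _, fun c' hc' => ?_⟩
  refine ⟨fun z => Complex.exp (((a * ‖t z₀‖ ^ 2 : ℝ) : ℂ) +
    2 * a * (starRingEnd ℂ (t z₀)) * (t z - t z₀)), ?_, ?_, ?_⟩
  · refine AnalyticAt.cexp ?_
    exact analyticAt_const.add (analyticAt_const.mul (ht.sub analyticAt_const))
  · change ‖Complex.exp _‖ = _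
    rw [sub_self, mul_zero, add_zero, Complex.norm_exp, Complex.ofReal_re]
  · have hd : HasDerivAt t (deriv t z₀) z₀ := ht.differentiableAt.hasDerivAt
    have hsl := hasDerivAt_iff_tendsto_slope.mp hd
    have hlim : Tendsto (fun z => a * ‖slope t z₀ z‖ ^ 2) (𝓝[≠] z₀) (𝓝 (a * ‖deriv t z₀‖ ^ 2)) :=
      (hsl.norm.pow 2).const_mul a
    have hev := hlim.eventually (lt_mem_nhds hc')
    have hev' : ∀ᶠ z in 𝓝 z₀, c' * ‖z - z₀‖ ^ 2 ≤ a * ‖t z - t z₀‖ ^ 2 := by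
      rw [eventually_nhdsWithin_iff] at hev
      filter_upwards [hev] with z hz'
      rcases eq_or_ne z z₀ with h | h
      · rw [h]
        simp
      · have h1 := hz' h
        have h2 : 0 < ‖z - z₀‖ := norm_pos_iff.mpr (sub_ne_zero.mpr h)
        rw [slope_def_field, norm_div, div_pow] at h1
        have h3 : c' * ‖z - z₀‖ ^ 2 < a * (‖t z - t z₀‖ ^ 2 / ‖z - z₀‖ ^ 2) * ‖z - z₀‖ ^ 2 :=
          mul_lt_mul_of_pos_right h1 (by positivity)
        have h4 : a * (‖t z - t z₀‖ ^ 2 / ‖z - z₀‖ ^ 2) * ‖z - z₀‖ ^ 2 =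
            a * ‖t z - t z₀‖ ^ 2 := by
          field_simp
        rw [h4] at h3
        exact h3.le
    filter_upwards [hev'] with z hz
    rw [Complex.norm_exp, ← Real.exp_add]
    apply Real.exp_le_exp.mpr
    have key : ‖t z‖ ^ 2 = ‖t z₀‖ ^ 2 + 2 * ((starRingEnd ℂ (t z₀)) * (t z - t z₀)).re +
        ‖t z - t z₀‖ ^ 2 := by
      rw [Complex.sq_norm, Complex.sq_norm, Complex.sq_norm]
      simp only [Complex.normSq_apply, Complex.mul_re, Complex.conj_re, Complex.conj_im,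
        Complex.sub_re, Complex.sub_im]
      ring
    have e2 : (((a * ‖t z₀‖ ^ 2 : ℝ) : ℂ) + 2 * a * (starRingEnd ℂ (t z₀)) * (t z - t z₀)).re =
        a * ‖t z₀‖ ^ 2 + 2 * a * ((starRingEnd ℂ (t z₀)) * (t z - t z₀)).re := by
      rw [Complex.add_re, Complex.ofReal_re, mul_assoc]
      congr 1
      rw [show (2 * (a : ℂ)) = (((2 * a : ℝ)) : ℂ) by push_cast; ring, Complex.re_ofReal_mul]
    rw [e2, key]
    linarith

end Pool.Agent.H36.BP

end

section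

/-!
# From the extension theorem for models to projective surfaces
-/

open Topology Filter MvPolynomial

noncomputable section

namespace Pool.Agent.H17BP

open Pool.Agent.H17 (PN VanishesAt ZariskiClosedIn HolomorphicInto puncturedDisc)
open Pool.Agent.H62.FC (Homog)
open Pool.Agent.H17R (openVar)

variable {N : ℕ} {P : Ideal (MvPolynomial (Fin (N + 1)) ℂ)}

/-- The projective variety. -/
abbrev variety (P : Ideal (MvPolynomial (Fin (N + 1)) ℂ)) : Set (PN N) :=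
  openVar P (Fin.elim0 : Fin 0 → MvPolynomial (Fin (N + 1)) ℂ)

theorem rep_mk_fin {x : Fin (N + 1) → ℂ} (hx : x ≠ 0) :
    ∃ a : ℂ, a ≠ 0 ∧ (Projectivization.mk ℂ x hx).rep = a • x := by
  obtain ⟨a, ha⟩ := Projectivization.exists_smul_eq_mk_rep ℂ x hx
  exact ⟨a, a.ne_zero, by rw [← ha]; rfl⟩

theorem eval_smul_form {d : ℕ} {Q : MvPolynomial (Fin (N + 1)) ℂ} (hQ : Q.IsHomogeneous d) (c : ℂ)
    (x : Fin (N + 1) → ℂ) : eval (c • x) Q = c ^ d * eval x Q := by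
  rw [MvPolynomial.eval_eq', MvPolynomial.eval_eq', Finset.mul_sum]
  apply Finset.sum_congr rfl
  intro m hm
  have hdeg : ∑ i, m i = d := by
    have := hQ (MvPolynomial.mem_support_iff.1 hm)
    rw [Finsupp.weight_apply] at this
    simpa [Finsupp.sum_fintype] using this
  have h1 : ∏ i, (c • x) i ^ m i = c ^ d * ∏ i, x i ^ m i := by
    rw [← hdeg, ← Finset.prod_pow_eq_pow_sum, ← Finset.prod_mul_distrib]
    exact Finset.prod_congr rfl fun i _ => by simp [mul_pow]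
  rw [h1]
  ring

theorem rep_mem_cone (hP : Homog P) {x : PN N} : x.rep ∈ cone P ↔ x ∈ variety P := by
  constructor
  · rintro ⟨-, h2⟩
    exact ⟨fun Q hQ n _ => h2 Q hQ, fun m => m.elim0⟩
  · rintro ⟨h1, -⟩
    refine ⟨x.rep_nonzero, fun Q hQ => ?_⟩
    rw [← MvPolynomial.sum_homogeneousComponent Q, map_sum]
    exact Finset.sum_eq_zero fun i _ => h1 _ (hP Q hQ i) i (homogeneousComponent_isHomogeneous i Q)

theorem mk_mem_variety (hP : Homog P) {x : Fin (N + 1) → ℂ} (hx : x ≠ 0)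
    (hX : ∀ x ∈ cone P, ∀ c : ℂ, c ≠ 0 → c • x ∈ cone P) :
    Projectivization.mk ℂ x hx ∈ variety P ↔ x ∈ cone P := by
  rw [← rep_mem_cone hP]
  obtain ⟨a, ha, h⟩ := rep_mk_fin hx
  rw [h]
  constructor
  · intro h1
    have h2 := hX _ h1 a⁻¹ (inv_ne_zero ha)
    rwa [smul_smul, inv_mul_cancel₀ ha, one_smul] at h2
  · intro h1
    exact hX _ h1 a ha

theorem vanishesAt_mk {d : ℕ} {Q : MvPolynomial (Fin (N + 1)) ℂ} (hQ : Q.IsHomogeneous d)
    {x : Fin (N + 1) → ℂ} (hx : x ≠ 0) : VanishesAt Q (Projectivization.mk ℂ x hx) ↔ eval x Q = 0 := by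
  obtain ⟨a, ha, h⟩ := rep_mk_fin hx
  unfold VanishesAt
  rw [h, eval_smul_form hQ, mul_eq_zero]
  exact ⟨fun h => h.resolve_left (pow_ne_zero _ ha), Or.inr⟩

theorem holP_rep {f : ℂ → PN N} {U : Set ℂ} (hf : HolomorphicInto f U) {z₀ : ℂ} (hz : z₀ ∈ U) :
    HolP (fun z => (f z).rep) z₀ := by
  obtain ⟨φ, hφ, he⟩ := hf z₀ hz
  refine ⟨φ, hφ, he.self_of_nhds.1, ?_⟩
  filter_upwards [he] with z hz'
  obtain ⟨h1, h2⟩ := hz'
  obtain ⟨a, ha, h3⟩ := rep_mk_fin h1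
  exact ⟨a, ha, by rw [h2, h3]⟩

theorem Pr.mk_eq {x y : Fin (N + 1) → ℂ} (h : Pr x y) (hx : x ≠ 0) (hy : y ≠ 0) :
    Projectivization.mk ℂ x hx = Projectivization.mk ℂ y hy := by
  obtain ⟨c, hc, h⟩ := h
  rw [Projectivization.mk_eq_mk_iff']
  exact ⟨c, h.symm⟩

end Pool.Agent.H17BP

end
end
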