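import Pool.Agent.H94.G6.H14.PP.Defs_1
import Pool.Agent.H94.G6.M04
import Pool.Agent.H94.G6.M07
import Pool.Agent.H94.G6.M11

/-! The parts of this file: H13.CV.Rat_1, H5.BD.CDef, H62.EF.Defs_1, MQ3.FrE, MQ3.Bad. -/

section

/-!
# CV Rat: the orders of the elements of `L = ℂ(x)`

`mem_L_iff`: `IntermediateField.mem_adjoin_simple_iff`.  `mem_poly_iff`: `Algebra.adjoin_singleton_eq_range_aeval`.
`aeval_ord`: `p = X ^ k * p₁` with `k = p.rootMultiplicity 0` and `p₁.eval 0 ≠ 0` (`Polynomial.exists_eq_pow_rootMultiplicity_mul_and_not_dvd`); if `0 < ord_E x` then the value of `p₁ (x)` at `E` is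
`p₁.eval 0 ≠ 0` (`res_aeval` with `res E x = 0`, or directly: `p₁ (x) = p₁ (0) + x * r (x)`), so its order is `0`.
`exists_zpow`: quotient of two polynomials.
`mem_R`: (⇐) `q (x)` has order `0`.  `exists_residue`: let `c = p (x) / q (x)`, `p, q ≠ 0`, with `p = X ^ a * p₁`, `q = X ^ b * q₁`, `p₁ (0), q₁ (0) ≠ 0`; at a place over `x = 0` (it exists by assumption):
`0 ≤ (a - b) * ord x`, so `b ≤ a` and `c = X ^ (a - b) p₁ / q₁ (x)`: a quotient `p₂ (x) / q₁ (x)` with `q₁ (0) ≠ 0`.  `γ = p₂ (0) / q₁ (0)`; the polynomial `p₂ - γ q₁` has value `0` at `0`, so it is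
`X * r`, and `c = γ + x * r (x) / q₁ (x)`.
`poly_inf`: `c = p (x)`, `p ≠ 0` of degree `d`: at a place `E` with `ord x < 0`: `oz E (p (x)) = d * oz E x` (highest term), so `0 ≤ (k + d) * oz E x` and `k = d = 0`.
`regLoc_div_of_pos`, `regLoc_of_nonneg`: `exists_zpow`.
-/

set_option autoImplicit false

open Pool.Agent.H23.Fano (PrimeDivisorOver Form regularForms)

noncomputable section

namespace Pool.Agent.H13.CV

variable {K : Type} [Field K] [Algebra ℂ K] {L : IntermediateField ℂ K} {x : K}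

theorem mem_L_iff (hL : Gen L x) {c : K} : c ∈ L ↔ ∃ p q : Polynomial ℂ, q ≠ 0 ∧ c = Polynomial.aeval x p / Polynomial.aeval x q := by
  rw [hL.eq, IntermediateField.mem_adjoin_simple_iff]
  constructor
  · rintro ⟨p, q, h⟩
    by_cases hq : q = 0
    · refine ⟨0, 1, one_ne_zero, ?_⟩
      rw [h, hq]
      simp
    · exact ⟨p, q, hq, h⟩
  · rintro ⟨p, q, -, h⟩
    exact ⟨p, q, h⟩

theorem poly_le_L (hL : Gen L x) {c : K} (hc : c ∈ Algebra.adjoin ℂ {x}) : c ∈ L := by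
  rw [hL.eq]
  exact IntermediateField.algebra_adjoin_le_adjoin ℂ {x} hc

private theorem ord_aeval_zero' {p : Polynomial ℂ} (hp : p.eval 0 ≠ 0) {E : Place K} (hE : 0 < E.ord x) : E.ord (Polynomial.aeval x p) = 0 := by
  have h0 : 0 ≤ E.ord (Polynomial.aeval x p) := nonneg_aeval hE.le p
  refine le_antisymm (not_lt.mp fun h => ?_) h0
  have h1 : Polynomial.X * p.divX + Polynomial.C (p.coeff 0) = p := Polynomial.X_mul_divX_add p
  have h2 : Polynomial.aeval x p = x * Polynomial.aeval x p.divX + algebraMap ℂ K (p.coeff 0) := by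
    conv_lhs => rw [← h1]
    rw [map_add, map_mul, Polynomial.aeval_X, Polynomial.aeval_C]
  have h3 : algebraMap ℂ K (p.coeff 0) = Polynomial.aeval x p - x * Polynomial.aeval x p.divX := by
    rw [h2]; ring
  have h4 : 0 < E.ord (algebraMap ℂ K (p.coeff 0)) := by
    rw [h3]
    exact pos_sub h (pos_mul hE (nonneg_aeval hE.le _))
  rw [Polynomial.coeff_zero_eq_eval_zero, ord_const E hp] at h4
  exact lt_irrefl _ h4

private theorem ne_zero_of_ord_eq_zero {f : K} {E : Place K} (h : E.ord f = 0) : f ≠ 0 := by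
  intro hf
  rw [hf, E.ord.map_zero] at h
  exact absurd h (by simp)

private theorem oz_of_ord_eq_zero {f : K} {E : Place K} (h : E.ord f = 0) : oz E f = 0 := by
  have h1 := coe_oz E (ne_zero_of_ord_eq_zero h)
  rw [h] at h1
  exact_mod_cast h1

theorem aeval_ord {p : Polynomial ℂ} (hp : p ≠ 0) {E : Place K} (hE : 0 < E.ord x) (hx : x ≠ 0) :
    oz E (Polynomial.aeval x p) = p.rootMultiplicity 0 * oz E x := by
  obtain ⟨q, h1, h2⟩ := factor hp
  have h3 : Polynomial.aeval x p = x ^ p.rootMultiplicity 0 * Polynomial.aeval x q := by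
    conv_lhs => rw [h1]
    rw [map_mul, map_pow, Polynomial.aeval_X]
  have h4 := ord_aeval_zero' h2 hE
  rw [h3, oz_mul E (pow_ne_zero _ hx) (ne_zero_of_ord_eq_zero h4), oz_pow, oz_of_ord_eq_zero h4, add_zero]

theorem ord_aeval_zero {p : Polynomial ℂ} (hp : p.eval 0 ≠ 0) {E : Place K} (hE : 0 < E.ord x) : E.ord (Polynomial.aeval x p) = 0 :=
  ord_aeval_zero' hp hE

private theorem aeval_ne_zero (hL : Gen L x) {p : Polynomial ℂ} (hp : p ≠ 0) : Polynomial.aeval x p ≠ 0 :=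
  fun h => hp (transcendental_iff.mp hL.tr p h)

private theorem oz_pos {E : Place K} (hx : x ≠ 0) (hE : 0 < E.ord x) : 0 < oz E x := by
  rcases pos_iff.mp hE with h | h
  · exact absurd h hx
  · exact h

/-- the elements of `ℂ(x)` have orders proportional to the order of `x` at the places over `x = 0` -/
theorem exists_zpow (hL : Gen L x) {c : K} (hc : c ∈ L) (hc0 : c ≠ 0) : ∃ k : ℤ, ∀ E : Place K, 0 < E.ord x → oz E c = k * oz E x := by
  obtain ⟨p, q, hq, h⟩ := (mem_L_iff hL).mp hc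
  have hp : p ≠ 0 := by
    rintro rfl
    apply hc0
    rw [h]
    simp
  refine ⟨(p.rootMultiplicity 0 : ℤ) - (q.rootMultiplicity 0 : ℤ), fun E hE => ?_⟩
  rw [h, oz_div E (aeval_ne_zero hL hp) (aeval_ne_zero hL hq), aeval_ord hp hE hL.ne_zero, aeval_ord hq hE hL.ne_zero]
  ring

theorem regLoc_div {p q : Polynomial ℂ} (hq : q.eval 0 ≠ 0) : RegLoc x (Polynomial.aeval x p / Polynomial.aeval x q) := by
  intro E hE
  have h1 := ord_aeval_zero hq hE
  rw [div_eq_mul_inv]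
  refine nonneg_mul (nonneg_aeval hE.le p) ?_
  rw [ord_inv E (ne_zero_of_ord_eq_zero h1), oz_of_ord_eq_zero h1]
  simp

/-- the residue of an element of the local ring of `ℂ(x)` at `x = 0` -/
theorem exists_residue (hL : Gen L x) (hex : ∃ E : Place K, 0 < E.ord x) {c : K} (hc : c ∈ L) (h : RegLoc x c) :
    ∃ (γ : ℂ) (c' : K), c' ∈ L ∧ RegLoc x c' ∧ c = algebraMap ℂ K γ + x * c' := by
  by_cases hc0 : c = 0
  · refine ⟨0, 0, L.zero_mem, fun E _ => ?_, ?_⟩
    · rw [E.ord.map_zero]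
      exact le_top
    · rw [hc0]
      simp
  obtain ⟨E, hE⟩ := hex
  obtain ⟨p, q, hq, hpq⟩ := (mem_L_iff hL).mp hc
  have hp : p ≠ 0 := by
    rintro rfl
    apply hc0
    rw [hpq]
    simp
  have hx := hL.ne_zero
  have hxo := oz_pos hx hE
  have hb : q.rootMultiplicity 0 ≤ p.rootMultiplicity 0 := by
    have h1 : 0 ≤ oz E c := by
      rcases nonneg_iff.mp (h E hE) with h2 | h2
      · exact absurd h2 hc0
      · exact h2
    rw [hpq, oz_div E (aeval_ne_zero hL hp) (aeval_ne_zero hL hq), aeval_ord hp hE hx, aeval_ord hq hE hx, ← sub_mul] at h1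
    have h3 : (0 : ℤ) ≤ (p.rootMultiplicity 0 : ℤ) - (q.rootMultiplicity 0 : ℤ) := by
      by_contra h4
      push Not at h4
      have h5 := mul_neg_of_neg_of_pos h4 hxo
      omega
    omega
  obtain ⟨p₁, hp1, hp0⟩ := factor hp
  obtain ⟨q₁, hq1, hq0⟩ := factor hq
  obtain ⟨m, hm⟩ := Nat.exists_eq_add_of_le hb
  set p₂ : Polynomial ℂ := Polynomial.X ^ m * p₁ with hp2
  have hq1ne : q₁ ≠ 0 := by
    rintro rfl
    simp at hq0
  have hc2 : c = Polynomial.aeval x p₂ / Polynomial.aeval x q₁ := by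
    have e1 : Polynomial.aeval x p = x ^ q.rootMultiplicity 0 * Polynomial.aeval x p₂ := by
      conv_lhs => rw [hp1]
      rw [hm, hp2, map_mul, map_pow, map_mul, map_pow, Polynomial.aeval_X, pow_add, mul_assoc]
    have e2 : Polynomial.aeval x q = x ^ q.rootMultiplicity 0 * Polynomial.aeval x q₁ := by
      conv_lhs => rw [hq1]
      rw [map_mul, map_pow, Polynomial.aeval_X]
    rw [hpq, e1, e2, mul_div_mul_left _ _ (pow_ne_zero _ hx)]
  set γ : ℂ := p₂.eval 0 / q₁.eval 0 with hγ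
  set s : Polynomial ℂ := p₂ - Polynomial.C γ * q₁ with hs
  have hs0 : s.coeff 0 = 0 := by
    rw [Polynomial.coeff_zero_eq_eval_zero, hs, Polynomial.eval_sub, Polynomial.eval_C_mul, hγ, div_mul_cancel₀ _ hq0, sub_self]
  have hs1 : s = Polynomial.X * s.divX := by
    have h1 := Polynomial.X_mul_divX_add s
    rw [hs0, Polynomial.C_0, add_zero] at h1
    exact h1.symm
  refine ⟨γ, Polynomial.aeval x s.divX / Polynomial.aeval x q₁, (mem_L_iff hL).mpr ⟨s.divX, q₁, hq1ne, rfl⟩, regLoc_div hq0, ?_⟩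
  have hs2 : Polynomial.aeval x s = x * Polynomial.aeval x s.divX := by
    conv_lhs => rw [hs1]
    rw [map_mul, Polynomial.aeval_X]
  have hs3 : Polynomial.aeval x s = Polynomial.aeval x p₂ - algebraMap ℂ K γ * Polynomial.aeval x q₁ := by
    rw [hs, map_sub, map_mul (Polynomial.aeval x) (Polynomial.C γ) q₁, Polynomial.aeval_C]
  have hq2 := aeval_ne_zero hL hq1ne
  rw [hc2, mul_div_assoc', ← hs2, hs3, sub_div, mul_div_assoc, div_self hq2, mul_one]
  ring

/-- an element of the local ring which vanishes at one place over `x = 0` is divisible by `x` -/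
theorem regLoc_div_of_pos (hL : Gen L x) {c : K} (hc : c ∈ L) {E : Place K} (hE : 0 < E.ord x) (h : 0 < E.ord c) : RegLoc x (c / x) := by
  intro E' hE'
  by_cases hc0 : c = 0
  · rw [hc0, zero_div, E'.ord.map_zero]
    exact le_top
  obtain ⟨k, hk⟩ := exists_zpow hL hc hc0
  have hx := hL.ne_zero
  have h1 := oz_pos hx hE
  have h2 := oz_pos hx hE'
  have h3 := oz_pos hc0 h
  rw [hk E hE] at h3
  have hk0 : 0 < k := by
    by_contra h4
    push Not at h4
    have h5 := mul_nonpos_of_nonpos_of_nonneg h4 h1.le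
    omega
  refine nonneg_iff.mpr (Or.inr ?_)
  rw [oz_div E' hc0 hx, hk E' hE']
  have h6 : k * oz E' x - oz E' x = (k - 1) * oz E' x := by ring
  rw [h6]
  exact mul_nonneg (by omega) h2.le

private theorem oz_aeval_of_neg {p : Polynomial ℂ} (hp : p ≠ 0) (hx : x ≠ 0) {E : Place K} (hE : E.ord x < 0) :
    Polynomial.aeval x p ≠ 0 ∧ oz E (Polynomial.aeval x p) = p.natDegree * oz E x := by
  let _ : Invertible x := invertibleOfNonzero hx
  have h1 : Polynomial.aeval x⁻¹ p.reverse * x ^ p.natDegree = Polynomial.aeval x p := by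
    have h2 := Polynomial.eval₂_reverse_mul_pow (algebraMap ℂ K) x p
    rw [invOf_eq_inv] at h2
    exact h2
  have h3 : 0 < E.ord x⁻¹ := (inv_pos_iff hx).mpr hE
  have h4 : p.reverse.eval 0 ≠ 0 := by
    rw [← Polynomial.coeff_zero_eq_eval_zero, Polynomial.coeff_zero_reverse]
    exact Polynomial.leadingCoeff_ne_zero.mpr hp
  have h5 := ord_aeval_zero h4 h3
  have h6 := ne_zero_of_ord_eq_zero h5
  rw [← h1]
  refine ⟨mul_ne_zero h6 (pow_ne_zero _ hx), ?_⟩
  rw [oz_mul E h6 (pow_ne_zero _ hx), oz_of_ord_eq_zero h5, oz_pow, zero_add]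

/-- a polynomial in `x` which is `x ^ (-k)` times a function regular at `x = ∞` -/
theorem poly_inf (hL : Gen L x) (hex : ∃ E : Place K, E.ord x < 0) {c : K} (hc : c ∈ Algebra.adjoin ℂ {x}) {k : ℕ} (h : RegLoc x⁻¹ (x ^ k * c)) :
    (1 ≤ k → c = 0) ∧ ∃ γ : ℂ, c = algebraMap ℂ K γ := by
  obtain ⟨E, hE⟩ := hex
  obtain ⟨p, rfl⟩ := mem_poly_iff.mp hc
  have hx := hL.ne_zero
  by_cases hp : p = 0
  · rw [hp, map_zero]
    exact ⟨fun _ => rfl, 0, by simp⟩
  obtain ⟨h1, h2⟩ := oz_aeval_of_neg hp hx hE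
  have h3 := h E ((inv_pos_iff hx).mpr hE)
  have h4 : oz E x < 0 := neg_iff.mp hE
  have h5 : 0 ≤ oz E (x ^ k * Polynomial.aeval x p) := by
    rcases nonneg_iff.mp h3 with h6 | h6
    · exact absurd h6 (mul_ne_zero (pow_ne_zero _ hx) h1)
    · exact h6
  rw [oz_mul E (pow_ne_zero _ hx) h1, oz_pow, h2, ← add_mul] at h5
  have h7 : (k : ℤ) + (p.natDegree : ℤ) ≤ 0 := by
    by_contra h8
    push Not at h8
    have h9 := mul_neg_of_pos_of_neg h8 h4
    omega
  refine ⟨fun hk => ?_, p.coeff 0, ?_⟩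
  · exfalso
    omega
  · have h8 : p.natDegree = 0 := by omega
    conv_lhs => rw [Polynomial.eq_C_of_natDegree_eq_zero h8]
    rw [Polynomial.aeval_C]

end Pool.Agent.H13.CV

end
end

section

/-!
# Project BD, local analysis: definitions

`X` is the cone of a smooth projective surface.  `BC X c L` is the family of the entire curves whose Fubini-Study derivative is between `c` and `L`.
-/

set_option autoImplicit false

open Topology Filter Metric

namespace Pool.Agent.H5.BD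

open Pool.Agent.H36.BP (EN fs wd)
open Pool.Agent.H14.PP (IsCone Chart Form Tan aCoef jac)
open Pool.Agent.H62.EF (MN pr det2)

variable {N : ℕ}

/-- the entire curves (lifts to the cone) with bounded distortion -/
def BC (X : Set (EN N)) (c L : ℝ) : Set (ℂ → EN N) :=
  {F | Differentiable ℂ F ∧ (∀ z, F z ∈ X) ∧ ∀ z, c ≤ fs (F z) (deriv F z) ∧ fs (F z) (deriv F z) ≤ L}

/-- the curve in the projective space -/
noncomputable def evp (F : ℂ → EN N) (z : ℂ) : MN N := pr (F z)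

/-- `x` is in the middle of the chart -/
def Good {X : Set (EN N)} (χ : Chart X) (x : EN N) : Prop := x ∈ X ∧ x ∈ χ.U ∧ ‖χ.q x‖ ≤ 1 / 2

/-- a finite atlas with a Lebesgue number `δ`, and a bound `C` for the charts and the changes of charts -/
structure Atlas (X : Set (EN N)) where
  n : ℕ
  χ : Fin n → Chart X
  idx : MN N → Fin n
  δ : ℝ
  C : ℝ
  δ_pos : 0 < δ
  one_le : 1 ≤ C
  good : ∀ x ∈ X, ∀ y ∈ X, dist (pr x) (pr y) ≤ δ → Good (χ (idx (pr x))) y
  dist_le : ∀ i x y, Good (χ i) x → Good (χ i) y → dist (pr x) (pr y) ≤ C * ‖(χ i).q x - (χ i).q y‖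
  le_dist : ∀ i x y, Good (χ i) x → Good (χ i) y → ‖(χ i).q x - (χ i).q y‖ ≤ C * dist (pr x) (pr y)
  fd_le : ∀ i j x, Good (χ i) x → Good (χ j) x → ‖fderiv ℂ (fun p => (χ j).q ((χ i).σ p)) ((χ i).q x)‖ ≤ C
  jac_ge : ∀ i j x, Good (χ i) x → Good (χ j) x → 1 ≤ C * ‖jac (fun p => (χ j).q ((χ i).σ p)) ((χ i).q x)‖
  trans : ∀ i j x y, Good (χ i) x → Good (χ j) x → Good (χ i) y → Good (χ j) y →
    ‖(χ j).q y - (χ j).q x - fderiv ℂ (fun p => (χ j).q ((χ i).σ p)) ((χ i).q x) ((χ i).q y - (χ i).q x)‖ ≤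
      C * ‖(χ i).q y - (χ i).q x‖ ^ 2

/-- the curve `F` in the chart `i` -/
noncomputable def qc {X : Set (EN N)} (A : Atlas X) (i : Fin A.n) (F : ℂ → EN N) (z : ℂ) : ℂ × ℂ := (A.χ i).q (F z)

/-- uniform bounds for the curves of `BC X c L` in the charts of the atlas, on discs of radius `r₀` -/
structure LC {X : Set (EN N)} (A : Atlas X) (c L r₀ c₁ K : ℝ) : Prop where
  r₀_pos : 0 < r₀
  c₁_pos : 0 < c₁
  one_le : 1 ≤ K
  L_pos : 0 < L
  lip : ∀ F ∈ BC X c L, ∀ z w, dist (pr (F z)) (pr (F w)) ≤ 2 * L * ‖z - w‖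
  good : ∀ F ∈ BC X c L, ∀ x ∈ X, ∀ w₀, dist (pr x) (pr (F w₀)) ≤ A.δ / 2 → ∀ w ∈ ball w₀ r₀, Good (A.χ (A.idx (pr x))) (F w)
  an : ∀ F ∈ BC X c L, ∀ i w, Good (A.χ i) (F w) → AnalyticAt ℂ (qc A i F) w
  der_ge : ∀ F ∈ BC X c L, ∀ i w, Good (A.χ i) (F w) → c₁ ≤ ‖deriv (qc A i F) w‖
  der_le : ∀ F ∈ BC X c L, ∀ i w, Good (A.χ i) (F w) → ‖deriv (qc A i F) w‖ ≤ K
  der_lip : ∀ F ∈ BC X c L, ∀ i w₀, (∀ w ∈ ball w₀ r₀, Good (A.χ i) (F w)) → ∀ w ∈ ball w₀ (r₀ / 2), ∀ w' ∈ ball w₀ (r₀ / 2),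
    ‖deriv (qc A i F) w - deriv (qc A i F) w'‖ ≤ K * ‖w - w'‖

/-- one of the two coordinates -/
def co (e : Bool) (p : ℂ × ℂ) : ℂ := if e = true then p.1 else p.2

/-- in the chart `i` the points `F (ψ z)` (near `F w₀`) and `G z` (near `G z₀`) have the same coordinate `co e` -/
structure Match {X : Set (EN N)} (A : Atlas X) (r₂ r₃ K : ℝ) (F G : ℂ → EN N) (i : Fin A.n) (w₀ z₀ : ℂ) (e : Bool) (ψ : ℂ → ℂ) : Prop where
  hol : DifferentiableOn ℂ ψ (ball z₀ (2 * r₃))
  mem : ∀ z ∈ ball z₀ (2 * r₃), ψ z ∈ closedBall w₀ r₂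
  eq : ∀ z ∈ ball z₀ (2 * r₃), co e (qc A i F (ψ z)) = co e (qc A i G z)
  goodF : ∀ w ∈ closedBall w₀ (2 * r₂), Good (A.χ i) (F w)
  goodG : ∀ z ∈ ball z₀ (2 * r₃), Good (A.χ i) (G z)
  near : ∀ z ∈ ball z₀ (2 * r₃), ∀ w ∈ closedBall w₀ (2 * r₂), ‖w - ψ z‖ ≤ K * ‖qc A i F w - qc A i G z‖
  coF : ∀ w ∈ closedBall w₀ (2 * r₂), 1 ≤ K * ‖co e (deriv (qc A i F) w)‖

/-- the constants of the matching -/
structure MC {X : Set (EN N)} (A : Atlas X) (c L r₀ c₁ K₀ r₂ r₃ ε₃ K : ℝ) : Prop where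
  lc : LC A c L r₀ c₁ K₀
  r₂_pos : 0 < r₂
  r₃_pos : 0 < r₃
  ε₃_pos : 0 < ε₃
  le_K : K₀ ≤ K
  r₂_le : 8 * r₂ ≤ r₀
  r₃_le : 4 * r₃ ≤ r₀
  r₃_le₂ : r₃ ≤ r₂
  emb : ∀ F ∈ BC X c L, ∀ z w, ‖z - w‖ ≤ 4 * r₂ → K⁻¹ * ‖z - w‖ ≤ dist (pr (F z)) (pr (F w))
  matching : ∀ F ∈ BC X c L, ∀ G ∈ BC X c L, ∀ w₀ z₀, dist (pr (G z₀)) (pr (F w₀)) ≤ ε₃ →
    ∃ e ψ, Match A r₂ r₃ K F G (A.idx (pr (F w₀))) w₀ z₀ e ψ

/-- the holomorphic function which measures the distance of `G z` to the plaque of `F` -/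
noncomputable def Dm {X : Set (EN N)} (A : Atlas X) (F G : ℂ → EN N) (i : Fin A.n) (ψ : ℂ → ℂ) (z : ℂ) : ℂ :=
  det2 (qc A i F (ψ z) - qc A i G z) (deriv (qc A i G) z)

end Pool.Agent.H5.BD

end

section

/-!
# EF Defs: surfaces with a holomorphic map to an elliptic curve

`X` is the cone (without `0`) of a smooth projective surface, in `EN N = ℂ^(N+1)` with the Euclidean norm.  The map to `ℂ / Λ` is
given by a function `u : EN N → ℂ` which is holomorphic modulo `Λ`.  `pr x` is the orthogonal projection to the line of `x`, a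
matrix: in this way the projective space is a compact subset of a Euclidean space.
-/

set_option autoImplicit false

open Topology Filter Metric

namespace Pool.Agent.H62.EF

open Pool.Agent.H36.BP (EN)
open Pool.Agent.H14.PP (IsCone Chart Form Tan aCoef)

variable {N : ℕ}

/-- `Λ` is a lattice in `ℂ` -/
structure Lat (Λ : AddSubgroup ℂ) : Prop where
  discrete : ∃ δ : ℝ, 0 < δ ∧ ∀ l ∈ Λ, ‖l‖ < δ → l = 0
  cocompact : ∃ R : ℝ, 0 < R ∧ ∀ z : ℂ, ∃ l ∈ Λ, ‖z - l‖ ≤ R

/-- `X` is smooth: there are charts -/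
def Charts (X : Set (EN N)) : Prop := ∀ x ∈ X, ∃ χ : Chart X, x ∈ χ.U ∧ χ.q x = 0

/-- a vector in the kernel of the derivative of `υ` at `p` -/
noncomputable def grd (υ : ℂ × ℂ → ℂ) (p : ℂ × ℂ) : ℂ × ℂ := (-(fderiv ℂ υ p (0, 1)), fderiv ℂ υ p (1, 0))

/-- the function which is compared with holomorphic functions -/
noncomputable def rho {Y : Type} [MetricSpace Y] (M : ℕ) (T : Y → ℝ) (f g : ℂ → Y) (z : ℂ) : ℝ := dist (f z) (g z) ^ M * T (f z)

end Pool.Agent.H62.EF

end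

section

/-!
# MQ3 FrE: three linear forms in general position

`GA`: at `x` the forms `om l 1`, `om l 2` are independent on the tangent space; `GB`: the kernel of `om l 1` is not a null direction of `θ`.  If `θ` is not
zero on a dense subset, then for some `l` the points with `GA` and `GB` are dense.
-/

set_option autoImplicit false

open Topology Filter Metric

noncomputable section

namespace Pool.Agent.MQ3

open Pool.Agent.H36.BP (EN)
open Pool.Agent.H14.PP (Tan)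
open Pool.Agent.H17BP (IsChart)

variable {N : ℕ} {X : Set (EN N)} {m : ℕ}

/-- `om l 1` and `om l 2` are independent on the tangent space at `x` -/
def GA (X : Set (EN N)) (l : LF N) (x : EN N) : Prop := ∀ v, Tan X x v → om l 1 x v = 0 → om l 2 x v = 0 → ∃ a : ℂ, v = a • x

/-- the kernel of `om l 1` is not a null direction of `θ` -/
def GB (θ : WDiff X m) (l : LF N) (x : EN N) : Prop := ∀ v, Tan X x v → om l 1 x v = 0 → θ.toFun x v = 0 → ∃ a : ℂ, v = a • x

/-! ### scaling -/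

theorem tan_smul (hX : ∀ x ∈ X, ∀ c : ℂ, c ≠ 0 → c • x ∈ X) {x v : EN N} (h : Tan X x v) {c : ℂ} (hc : c ≠ 0) : Tan X (c • x) (c • v) := by
  obtain ⟨F, ⟨hF, hFX⟩, h0, h1⟩ := h
  refine ⟨fun z => c • F z, ⟨hF.fun_const_smul, ?_⟩, by simp only [h0], ?_⟩
  · filter_upwards [hFX] with z hz using hX _ hz c hc
  · rw [deriv_fun_const_smul c hF.differentiableAt, h1]

/-! ### in a chart -/

theorem ga_chart {l : LF N} {σ : ℂ × ℂ → EN N} {p : ℂ × ℂ} (hT : ∀ v, Tan X (σ p) (fderiv ℂ σ p v))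
    (hsp : ∀ w, Tan X (σ p) w → ∃ (v : ℂ × ℂ) (a : ℂ), w = fderiv ℂ σ p v + a • σ p) (hin : ∀ (v : ℂ × ℂ) (a : ℂ), fderiv ℂ σ p v = a • σ p → v = 0) :
    GA X l (σ p) ↔ dl l σ p ≠ 0 := by
  constructor
  · intro h h0
    -- a common zero of the two forms
    have key : ∀ w : ℂ × ℂ, om l 1 (σ p) (fderiv ℂ σ p w) = 0 → om l 2 (σ p) (fderiv ℂ σ p w) = 0 → w = 0 := by
      intro w h1 h2
      obtain ⟨a, ha⟩ := h _ (hT w) h1 h2
      exact hin w a ha
    have k1 : v₁ l σ p = 0 := key _ (by rw [om_v₁_1, h0]) (om_v₁_2 l σ p)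
    have k2 : v₂ l σ p = 0 := key _ (om_v₂_1 l σ p) (by rw [om_v₂_2, h0])
    have e1 : cb l σ 2 p = 0 := congrArg Prod.fst k1
    have e2 : ca l σ 2 p = 0 := by simpa [v₁] using congrArg Prod.snd k1
    have e3 : cb l σ 1 p = 0 := by simpa [v₂] using congrArg Prod.fst k2
    have e4 : ca l σ 1 p = 0 := congrArg Prod.snd k2
    have k3 := key (1, 0) (by rw [om_chart, e3, e4]; ring) (by rw [om_chart, e1, e2]; ring)
    exact one_ne_zero (congrArg Prod.fst k3)
  · intro h0 v hv h1 h2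
    obtain ⟨w, a, rfl⟩ := hsp v hv
    rw [om_add_smul] at h1 h2
    have h3 := dl_smul l σ p w
    rw [h1, h2, zero_smul, zero_smul, add_zero] at h3
    have h4 : w = 0 := (smul_eq_zero.1 h3).resolve_left h0
    exact ⟨a, by rw [h4, map_zero, zero_add]⟩

theorem gb_chart (hm : 1 ≤ m) {θ : WDiff X m} {l : LF N} {σ : ℂ × ℂ → EN N} {p : ℂ × ℂ} (hT : ∀ v, Tan X (σ p) (fderiv ℂ σ p v))
    (hsp : ∀ w, Tan X (σ p) w → ∃ (v : ℂ × ℂ) (a : ℂ), w = fderiv ℂ σ p v + a • σ p) (hin : ∀ (v : ℂ × ℂ) (a : ℂ), fderiv ℂ σ p v = a • σ p → v = 0)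
    (hd : dl l σ p ≠ 0) : GB θ l (σ p) ↔ θ.toFun (σ p) (fderiv ℂ σ p (v₂ l σ p)) ≠ 0 := by
  constructor
  · intro h h0
    obtain ⟨a, ha⟩ := h _ (hT _) (om_v₂_1 l σ p) h0
    have h1 := hin _ a ha
    apply hd
    rw [← om_v₂_2, h1, map_zero]
    simp [om]
  · intro h0 v hv h1 h2
    obtain ⟨w, a, rfl⟩ := hsp v hv
    rw [om_add_smul] at h1
    rw [θ.add_smul _ _ (hT w)] at h2
    have h3 := dl_smul l σ p w
    rw [h1, zero_smul, zero_add] at h3
    obtain ⟨c, hc⟩ : ∃ c : ℂ, w = c • v₂ l σ p := by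
      refine ⟨(dl l σ p)⁻¹ * om l 2 (σ p) (fderiv ℂ σ p w), ?_⟩
      rw [← smul_smul, ← h3, smul_smul, inv_mul_cancel₀ hd, one_smul]
    rw [hc, map_smul, θ.smul _ _ (hT _)] at h2
    have h4 : c = 0 := by
      have := (mul_eq_zero.1 h2).resolve_right h0
      exact (pow_eq_zero_iff (by omega)).1 this
    exact ⟨a, by rw [hc, h4, zero_smul, map_zero, zero_add]⟩

/-! ### linear forms with given values -/

/-! ### the existence of the linear forms -/

end Pool.Agent.MQ3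

end
end

section

/-!
# MQ3 Bad: the points where the slopes of a symmetric differential are not distinct lie in an algebraic curve

`NS θ l x` is the set of the slopes `om l 2 / om l 1` of the null directions of `θ` at `x`.  `GoodPt θ l x`: the two forms are independent, the kernel of the
first is not a null direction, and the number of slopes is locally constant at `x`.  The points of the surface which are not good lie in the zero set of a
form `R` which does not vanish on the surface (`exists_R_good`).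
-/

set_option autoImplicit false

open Topology Filter Metric

noncomputable section

namespace Pool.Agent.MQ3

open Pool.Agent.H36.BP (EN)
open Pool.Agent.H14.PP (Tan)
open Pool.Agent.H17BP (IsChart)

variable {N : ℕ} {X : Set (EN N)} {m : ℕ}

/-- the slopes of the null directions of `θ` at `x` -/
def NS (θ : WDiff X m) (l : LF N) (x : EN N) : Set ℂ :=
  {t | ∃ v, Tan X x v ∧ om l 1 x v ≠ 0 ∧ om l 2 x v = t * om l 1 x v ∧ θ.toFun x v = 0}

/-- good points: the number of slopes is locally constant -/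
def GoodPt (θ : WDiff X m) (l : LF N) (x : EN N) : Prop :=
  GA X l x ∧ GB θ l x ∧ (NS θ l x).Finite ∧ ∀ᶠ y in 𝓝 x, y ∈ X → (NS θ l y).ncard = (NS θ l x).ncard

/-! ### in a chart -/

end Pool.Agent.MQ3

end
end
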