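import Pool.Agent.H94.G6.H14.PP.Defs_1
import Pool.Agent.H94.G6.M07

/-! The parts of this file: H14.PP.Dom, H14.PP.CurveBasic, H14.PP.ChartBasic_1. -/

section

/-!
# BPm Dom: comparison of the pieces of two charts

Let `C ≥ 1`, `P` with `DomPar C P`. There is `r > 0` such that: for `‖s‖ ≤ r`, `‖t‖ = 1`,
`TE C s u l b c m`, `‖w‖ ≤ 1/2`, (`nd' = true → C⁻¹ ≤ ‖w‖`), `0 < A'`, `A = ‖l m - b c‖ A'`,
`u' = l s' + b t'`, `w' = c s' + m t'`: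
`A * max (pN nd P s t s') (pT nd P s t t') < A' * max (pN nd' P u w u') (pT nd' P u w w')`
if the left side is positive.

Write `N' = pN nd' P u w u'`, `T' = pT nd' P u w w'`, `K, ε, κ` the parameters, `x = ‖s‖`; `O(x^θ)`
stands for a constant depending on `C, P` times `x^θ`.
From `DomN`: `‖u'‖ ≤ C exp (ε + K/4) N'`, `‖u‖^(1-κ) ‖w'‖ ≤ exp (5ε/16) T'`, and
`‖u‖ ≥ x/(2C)`, so `x^(1-κ) ≤ (2C)^(1-κ) ‖u‖^(1-κ) ≤ 2C ‖u‖^(1-κ)`, hence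
`x ‖w'‖ = x^κ x^(1-κ) ‖w'‖ ≤ 2 C x^κ exp (5ε/16) T'`.
1. Normal piece: `A pN ≤ 2C^2 A' ‖s'‖ exp (ε/16 - K)` and
   `‖s'‖ ≤ 2C ‖u'‖ + 2C^3 x ‖w'‖ ≤ 2 C^2 exp (ε + K/4) N' + 4 C^4 x^κ exp (5ε/16) T'`, so
   `A pN ≤ A' (4 C^4 exp (17ε/16 - 3K/4) N' + O(x^κ) T') ≤ A' (N'/4 + O(x^κ) T')`
   by `K_ge` (`16 C^4 e^2 ≤ exp (3K/4)`, `ε ≤ 1`).
2. Tangential piece: `A pT ≤ A' (‖l‖‖m‖ + C^2 x) x^(1-κ) ‖t'‖ exp (-15ε/16)`.
   `‖l‖ ‖m‖ x^(1-κ) ‖t'‖ ≤ ‖l‖ x^(1-κ) (‖w'‖ + C ‖s'‖)`,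
   `‖l‖ x^(1-κ) = ‖l‖^κ (‖l‖ x)^(1-κ) ≤ exp (ε/8) (1 - C^2 x)^(-1) ‖u‖^(1-κ)`
   (`‖l‖^κ ≤ C^κ ≤ exp (ε/8)` by `κ_log`; `‖l‖ x ≤ ‖u‖/(1 - C^2 x)`, `comp_u`).
   So `A pT ≤ A' (exp (-15ε/16 + ε/8 + 5ε/16) (1 + O(x)) T' + O(x^(1-κ)) N' + O(x) T')
   ≤ A' ((exp (-ε/2) + O(x^(1-κ))) T' + O(x^(1-κ)) N')` (`‖s'‖` from step 1, `‖t'‖ ≤ C (‖w'‖ + C‖s'‖)`).
With `m' = max N' T'`: both are at most `A' m' θ`, `θ < 1`, if `x ≤ r` is small enough; and `m' > 0`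
since the left side is positive.
-/

open Topology Filter Metric

namespace Pool.Agent.H14.PP

/-- the small numbers of the proof -/
theorem Dom_small {C : ℝ} (hC : 1 ≤ C) {P : Par} (hP : DomPar C P) (E1 E5 : ℝ) :
    ∃ r : ℝ, 0 < r ∧ r ≤ 1 ∧ ∀ x : ℝ, 0 ≤ x → x ≤ r → C ^ 2 * x ≤ 1 / 2 ∧ x ≤ 1 / (2 * C ^ 4) ∧
      P.K * (4 * C ^ 2 * x ^ 2) ≤ P.ε / 16 ∧ 24 * C ^ 6 * x ^ P.κ ≤ 1 / 4 ∧
      Real.exp (-(P.ε / 2)) * (1 - C ^ 2 * x)⁻¹ + 2 * C ^ 4 * x * E5 +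
        2 * C ^ 4 * x ^ (1 - P.κ) * (2 * C ^ 2 * E1 + 4 * C ^ 4 * x ^ P.κ * E5) < 1 := by
  have hC0 : 0 < C := by linarith
  have hε := hP.ε_pos
  have hκ := hP.κ_pos
  have hκ1 : 0 < 1 - P.κ := by linarith [hP.κ_le]
  have ck : Continuous fun x : ℝ => x ^ P.κ := Real.continuous_rpow_const hκ.le
  have ck1 : Continuous fun x : ℝ => x ^ (1 - P.κ) := Real.continuous_rpow_const hκ1.le
  have h1 : ∀ᶠ x in 𝓝 (0 : ℝ), C ^ 2 * x < 1 / 2 := by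
    have hc : Continuous fun x : ℝ => C ^ 2 * x := by fun_prop
    exact hc.continuousAt.eventually (gt_mem_nhds (by norm_num))
  have h2 : ∀ᶠ x in 𝓝 (0 : ℝ), x < 1 / (2 * C ^ 4) := gt_mem_nhds (by positivity)
  have h3 : ∀ᶠ x in 𝓝 (0 : ℝ), P.K * (4 * C ^ 2 * x ^ 2) < P.ε / 16 := by
    have hc : Continuous fun x : ℝ => P.K * (4 * C ^ 2 * x ^ 2) := by fun_prop
    refine hc.continuousAt.eventually (gt_mem_nhds ?_)
    simp only [ne_eq, OfNat.ofNat_ne_zero, not_false_eq_true, zero_pow, mul_zero]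
    positivity
  have h4 : ∀ᶠ x in 𝓝 (0 : ℝ), 24 * C ^ 6 * x ^ P.κ < 1 / 4 := by
    have hc : Continuous fun x : ℝ => 24 * C ^ 6 * x ^ P.κ := by fun_prop
    refine hc.continuousAt.eventually (gt_mem_nhds ?_)
    simp only [Real.zero_rpow hκ.ne', mul_zero]
    norm_num
  have h5 : ∀ᶠ x in 𝓝 (0 : ℝ), Real.exp (-(P.ε / 2)) * (1 - C ^ 2 * x)⁻¹ + 2 * C ^ 4 * x * E5 +
        2 * C ^ 4 * x ^ (1 - P.κ) * (2 * C ^ 2 * E1 + 4 * C ^ 4 * x ^ P.κ * E5) < 1 := by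
    have hc0 : ContinuousAt (fun x : ℝ => (1 - C ^ 2 * x)⁻¹) 0 := by
      refine ContinuousAt.inv₀ (by fun_prop) ?_
      norm_num
    have hc : ContinuousAt (fun x : ℝ => Real.exp (-(P.ε / 2)) * (1 - C ^ 2 * x)⁻¹ + 2 * C ^ 4 * x * E5 +
        2 * C ^ 4 * x ^ (1 - P.κ) * (2 * C ^ 2 * E1 + 4 * C ^ 4 * x ^ P.κ * E5)) 0 := by
      refine ContinuousAt.add (ContinuousAt.add (continuousAt_const.mul hc0) (by fun_prop)) ?_
      exact Continuous.continuousAt (by fun_prop)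
    refine hc.eventually (gt_mem_nhds ?_)
    simp only [Real.zero_rpow hκ.ne', Real.zero_rpow hκ1.ne', mul_zero, zero_mul, sub_zero, inv_one, mul_one, add_zero]
    rw [Real.exp_lt_one_iff]
    linarith
  obtain ⟨δ, hδ, hball⟩ := Metric.eventually_nhds_iff.1 (h1.and (h2.and (h3.and (h4.and h5))))
  refine ⟨min (δ / 2) 1, by positivity, min_le_right _ _, fun x hx0 hx => ?_⟩
  have hxd : dist x 0 < δ := by
    rw [Real.dist_eq, sub_zero, abs_of_nonneg hx0]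
    linarith [hx.trans (min_le_left _ _)]
  obtain ⟨k1, k2, k3, k4, k5⟩ := hball hxd
  exact ⟨k1.le, k2.le, k3.le, k4.le, k5⟩

end Pool.Agent.H14.PP

end

section

/-!
# BPm CurveBasic: rules for `rho`, `fs`, `CurveAt`

* `rho_smul`: `‖Q (c x)‖ = ‖c‖^D ‖Q x‖`, `‖c x‖^D = ‖c‖^D ‖x‖^D`.
* `continuousAt_rho`: quotient of continuous functions, `x ≠ 0`.
* `continuousAt_fs`: `fs = wd / ‖x‖^2`, `wd_cont`.
* `fs_eq`: `wd x v = ‖x‖ ‖v - (⟪x,v⟫/‖x‖^2) x‖` for `x ≠ 0`, since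
  `‖v - a x‖^2 = ‖v‖^2 - ‖⟪x,v⟫‖^2/‖x‖^2`, `a = ⟪x,v⟫/‖x‖^2` (`wd_sq`).
* `fs_le`: `fs x v ≤ ‖v‖/‖x‖` (`wd_le`).
* `exists_rho_bound`: `rho` is invariant under scaling and continuous on the compact set
  `{x ∈ X | ‖x‖ = 1}` (`insert 0 X` is closed).
* `IsEq.curve_discrete`: `Q ∘ F` is analytic at `z₀`
  (`AnalyticAt.eventually_eq_zero_or_eventually_ne_zero`).
-/

open Topology Filter Metric

namespace Pool.Agent.H14.PP

open Pool.Agent.H36.BP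

variable {N : ℕ} {W : Type*} [NormedAddCommGroup W] [InnerProductSpace ℂ W]
  {X K T : Set (EN N)} {Q : EN N → W} {D : ℕ}

theorem IsCone.ne_zero (hX : IsCone X) {x : EN N} (hx : x ∈ X) : x ≠ 0 := by
  rintro rfl
  exact hX.zero_notMem hx

theorem CurveAt.mem {F : ℂ → EN N} {z₀ : ℂ} (hF : CurveAt X F z₀) : F z₀ ∈ X :=
  hF.2.self_of_nhds

theorem CurveAt.mono {F : ℂ → EN N} {z₀ : ℂ} (hF : CurveAt K F z₀) (h : K ⊆ X) :
    CurveAt X F z₀ := ⟨hF.1, hF.2.mono fun _ hz => h hz⟩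

theorem rho_nonneg (Q : EN N → W) (D : ℕ) (x : EN N) : 0 ≤ rho Q D x := by
  unfold rho
  positivity

theorem rho_smul (hQ : ∀ (c : ℂ) (x : EN N), Q (c • x) = c ^ D • Q x) {x : EN N} {c : ℂ}
    (hc : c ≠ 0) : rho Q D (c • x) = rho Q D x := by
  unfold rho
  rw [hQ, norm_smul, norm_smul, norm_pow, mul_pow,
    mul_div_mul_left _ _ (pow_ne_zero _ (norm_ne_zero_iff.2 hc))]

theorem rho_eq_zero_iff {x : EN N} (hx : x ≠ 0) : rho Q D x = 0 ↔ Q x = 0 := by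
  unfold rho
  rw [div_eq_zero_iff, norm_eq_zero]
  refine ⟨fun h => ?_, Or.inl⟩
  rcases h with h | h
  · exact h
  · exact absurd h (pow_ne_zero _ (norm_ne_zero_iff.2 hx))

theorem continuousAt_rho (hQ : ∀ x, AnalyticAt ℂ Q x) {x : EN N} (hx : x ≠ 0) :
    ContinuousAt (rho Q D) x := by
  have h : ContinuousAt (fun y : EN N => ‖Q y‖ / ‖y‖ ^ D) x :=
    ContinuousAt.div (hQ x).continuousAt.norm (continuous_norm.pow D).continuousAt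
      (pow_ne_zero _ (norm_ne_zero_iff.2 hx))
  exact h

theorem continuousAt_fs {x : EN N} (hx : x ≠ 0) (v : EN N) :
    ContinuousAt (fun p : EN N × EN N => fs p.1 p.2) (x, v) := by
  have h : ContinuousAt (fun p : EN N × EN N => wd p.1 p.2 / ‖p.1‖ ^ 2) (x, v) :=
    ContinuousAt.div wd_cont.continuousAt (continuous_fst.norm.pow 2).continuousAt
      (pow_ne_zero _ (norm_ne_zero_iff.2 hx))
  exact h

private theorem CurveBasic_wd {x : EN N} (hx : x ≠ 0) (v : EN N) :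
    wd x v = ‖x‖ * ‖v - (inner ℂ x v / (‖x‖ : ℂ) ^ 2) • x‖ := by
  have hn : ‖x‖ ≠ 0 := norm_ne_zero_iff.2 hx
  have hnc : (‖x‖ : ℂ) ≠ 0 := by exact_mod_cast hn
  set a : ℂ := inner ℂ x v / (‖x‖ : ℂ) ^ 2 with ha
  have horth : inner ℂ (v - a • x) (a • x) = (0 : ℂ) := by
    rw [inner_smul_right, ← inner_conj_symm, inner_sub_right, inner_smul_right,
      inner_self_eq_norm_sq_to_K]
    have e1 : inner ℂ x v - a * ((‖x‖ : ℂ)) ^ 2 = 0 := by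
      rw [ha, div_mul_cancel₀ _ (pow_ne_zero 2 hnc), sub_self]
    have e2 : (inner ℂ x v - a * ((RCLike.ofReal ‖x‖ : ℂ)) ^ 2) = 0 := e1
    rw [e2, map_zero, mul_zero]
  have hpyth := norm_add_sq_eq_norm_sq_add_norm_sq_of_inner_eq_zero (v - a • x) (a • x) horth
  rw [sub_add_cancel] at hpyth
  have hax : ‖a • x‖ * ‖x‖ = ‖inner ℂ x v‖ := by
    rw [norm_smul, ha, norm_div, norm_pow, Complex.norm_real, norm_norm]
    field_simp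
  have hsq : wd x v ^ 2 = (‖x‖ * ‖v - a • x‖) ^ 2 := by
    rw [wd_sq, ← hax]
    have e3 : ‖v‖ ^ 2 = ‖v - a • x‖ ^ 2 + ‖a • x‖ ^ 2 := by
      rw [pow_two, pow_two, pow_two]
      exact hpyth
    rw [e3]
    ring
  exact (pow_left_inj₀ (wd_nonneg x v) (by positivity) two_ne_zero).1 hsq

theorem fs_eq {x : EN N} (hx : x ≠ 0) (v : EN N) :
    fs x v = ‖v - (inner ℂ x v / (‖x‖ : ℂ) ^ 2) • x‖ / ‖x‖ := by
  have hn : ‖x‖ ≠ 0 := norm_ne_zero_iff.2 hx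
  unfold fs
  rw [CurveBasic_wd hx v, pow_two ‖x‖, mul_div_mul_left _ _ hn]

theorem fs_le {x : EN N} (hx : x ≠ 0) (v : EN N) : fs x v ≤ ‖v‖ / ‖x‖ := by
  have hn : ‖x‖ ≠ 0 := norm_ne_zero_iff.2 hx
  have h1 : ‖v‖ / ‖x‖ = ‖x‖ * ‖v‖ / ‖x‖ ^ 2 := by
    rw [pow_two, mul_div_mul_left _ _ hn]
  rw [h1]
  unfold fs
  exact div_le_div_of_nonneg_right (wd_le x v) (sq_nonneg _)

theorem exists_rho_bound (hX : IsCone X) (hQ : IsEq X T Q D) :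
    ∃ C : ℝ, 0 < C ∧ ∀ x ∈ X, rho Q D x ≤ C := by
  have hcomp : IsCompact (sphere (0 : EN N) 1 ∩ insert 0 X) :=
    (isCompact_sphere _ _).inter_right hX.closed
  obtain ⟨C, hC⟩ := hcomp.exists_bound_of_continuousOn (f := rho Q D) (by
    intro x hx
    have hx0 : x ≠ 0 := by
      rintro rfl
      have := hx.1
      rw [mem_sphere_iff_norm, sub_zero, norm_zero] at this
      exact zero_ne_one this
    exact (continuousAt_rho hQ.analytic hx0).continuousWithinAt)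
  refine ⟨max C 1, lt_of_lt_of_le one_pos (le_max_right _ _), fun x hx => ?_⟩
  have hx0 := hX.ne_zero hx
  have hn : ‖x‖ ≠ 0 := norm_ne_zero_iff.2 hx0
  have hc : ((‖x‖ : ℂ))⁻¹ ≠ 0 := inv_ne_zero (by exact_mod_cast hn)
  have hy : ((‖x‖ : ℂ))⁻¹ • x ∈ X := hX.smul_mem x hx _ hc
  have hyn : ‖((‖x‖ : ℂ))⁻¹ • x‖ = 1 := by
    rw [norm_smul, norm_inv, Complex.norm_real, norm_norm, inv_mul_cancel₀ hn]
  have h1 := hC (((‖x‖ : ℂ))⁻¹ • x) ⟨by rw [mem_sphere_iff_norm, sub_zero, hyn],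
    Set.mem_insert_of_mem _ hy⟩
  rw [rho_smul hQ.smul hc] at h1
  exact ((le_abs_self _).trans h1).trans (le_max_left _ _)

/-- a curve which is not contained in `T` meets `T` in a discrete set -/
theorem IsEq.curve_discrete (hQ : IsEq X T Q D) {F : ℂ → EN N} {z₀ : ℂ} (hF : CurveAt X F z₀) :
    (∀ᶠ z in 𝓝 z₀, F z ∈ T) ∨ (∀ᶠ z in 𝓝[≠] z₀, F z ∉ T) := by
  have hQF : AnalyticAt ℂ (fun z => Q (F z)) z₀ := (hQ.analytic (F z₀)).fun_comp hF.1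
  rcases hQF.eventually_eq_zero_or_eventually_ne_zero with h | h
  · left
    filter_upwards [h, hF.2] with z hz hzX
    exact (hQ.mem_iff (F z)).2 ⟨hzX, hz⟩
  · right
    filter_upwards [h] with z hz hzT
    exact hz ((hQ.mem_iff (F z)).1 hzT).2

/-- `T` is a cone -/
theorem IsEq.smul_mem (hX : IsCone X) (hQ : IsEq X T Q D) {x : EN N} (hx : x ∈ T) {c : ℂ}
    (hc : c ≠ 0) : c • x ∈ T := by
  obtain ⟨h1, h2⟩ := (hQ.mem_iff x).1 hx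
  exact (hQ.mem_iff _).2 ⟨hX.smul_mem x h1 c hc, by rw [hQ.smul, h2, smul_zero]⟩

end Pool.Agent.H14.PP

end

section

/-!
# BPm ChartBasic: charts, basic facts

* `Chart.fderiv_q_smul`: `q (c • y) = q y` for `y` near `x ∈ U` (`U` open); differentiate:
  `Dq(c x) (c v) = Dq(x) v`; and `Dq(x) x = 0` (differentiate `q ((1 + h) • x) = q x` at `h = 0`).
* `Chart.fderiv_sigma`: derivative of `q ∘ σ = id` on the bidisc: `Dq(σ p) (Dσ(p) w) = w`.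
* `Chart.tan`: the curve `z ↦ σ (p + z • w)`; if `σ p ∈ K` it stays in `K` (`rel_open`).
* `Chart.curve`: `q ∘ F` is analytic at `z₀` (composition), its derivative is given by the chain
  rule. For `z` near `z₀`, `F z ∈ X ∩ U`, so `q (F z) ∈ ball 0 2` and `F z = c z • σ (q (F z))` with
  `c z ≠ 0` (`surj`). With `y = σ (q (F z₀)) ≠ 0`: `c z = ⟪y, F z⟫ / ⟪y, σ (q (F z))⟫` near `z₀`:
  analytic.
* `Chart.sigma_mem_iff`: for `x ∈ X ∩ U`, `x = c • σ (q x)`, so `x ∈ K ↔ σ (q x) ∈ K`.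
-/

open Topology Filter Metric

namespace Pool.Agent.H14.PP

open Pool.Agent.H36.BP

variable {N : ℕ} {X K T : Set (EN N)}

theorem Chart.sigma_ne_zero (hX : IsCone X) (χ : Chart X) {p : ℂ × ℂ}
    (hp : p ∈ ball (0 : ℂ × ℂ) 2) : χ.σ p ≠ 0 :=
  hX.ne_zero (χ.σ_mem p hp).1

theorem Chart.curve (hX : IsCone X) (χ : Chart X) {F : ℂ → EN N} {z₀ : ℂ} (hF : CurveAt X F z₀)
    (hU : F z₀ ∈ χ.U) :
    AnalyticAt ℂ (fun z => χ.q (F z)) z₀ ∧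
    deriv (fun z => χ.q (F z)) z₀ = fderiv ℂ χ.q (F z₀) (deriv F z₀) ∧
    ∃ c : ℂ → ℂ, AnalyticAt ℂ c z₀ ∧ c z₀ ≠ 0 ∧
      ∀ᶠ z in 𝓝 z₀, χ.q (F z) ∈ ball (0 : ℂ × ℂ) 2 ∧ F z = c z • χ.σ (χ.q (F z)) := by
  have hq : AnalyticAt ℂ χ.q (F z₀) := χ.q_an _ hU
  have hqF : AnalyticAt ℂ (fun z => χ.q (F z)) z₀ := AnalyticAt.comp hq hF.1
  refine ⟨hqF, ?_, ?_⟩
  · have h1 : HasFDerivAt χ.q (fderiv ℂ χ.q (F z₀)) (F z₀) := hq.differentiableAt.hasFDerivAt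
    have h2 : HasDerivAt F (deriv F z₀) z₀ := hF.1.differentiableAt.hasDerivAt
    exact (h1.comp_hasDerivAt z₀ h2).deriv
  · have hX0 : F z₀ ∈ X := hF.mem
    obtain ⟨hb, c0, hc0, hF0⟩ := χ.surj _ hX0 hU
    have hσ : AnalyticAt ℂ (fun z => χ.σ (χ.q (F z))) z₀ :=
      AnalyticAt.comp (g := χ.σ) (f := fun z => χ.q (F z)) (χ.σ_an _ hb) hqF
    set y : EN N := χ.σ (χ.q (F z₀)) with hy
    have hy0 : y ≠ 0 := Chart.sigma_ne_zero hX χ hb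
    have hn : AnalyticAt ℂ (fun z => inner ℂ y (F z)) z₀ :=
      AnalyticAt.comp (g := fun x : EN N => (innerSL ℂ y) x) (f := F)
        ((innerSL ℂ y).analyticAt _) hF.1
    have hd : AnalyticAt ℂ (fun z => inner ℂ y (χ.σ (χ.q (F z)))) z₀ :=
      AnalyticAt.comp (g := fun x : EN N => (innerSL ℂ y) x) (f := fun z => χ.σ (χ.q (F z)))
        ((innerSL ℂ y).analyticAt _) hσ
    have hd0 : (fun z => inner ℂ y (χ.σ (χ.q (F z)))) z₀ ≠ (0 : ℂ) := by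
      show inner ℂ y y ≠ (0 : ℂ)
      exact inner_self_ne_zero.2 hy0
    refine ⟨fun z => inner ℂ y (F z) / inner ℂ y (χ.σ (χ.q (F z))), hn.div hd hd0, ?_, ?_⟩
    · refine div_ne_zero ?_ hd0
      rw [hF0, inner_smul_right]
      exact mul_ne_zero hc0 (inner_self_ne_zero.2 hy0)
    · have hev : ∀ᶠ z in 𝓝 z₀, (fun z => inner ℂ y (χ.σ (χ.q (F z)))) z ≠ (0 : ℂ) :=
        hd.continuousAt.eventually_ne hd0
      have hevU : ∀ᶠ z in 𝓝 z₀, F z ∈ χ.U :=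
        hF.1.continuousAt.eventually_mem (χ.isOpen_U.mem_nhds hU)
      filter_upwards [hev, hevU, hF.2] with z h1 h2 h3
      obtain ⟨h4, c, hc, h5⟩ := χ.surj _ h3 h2
      refine ⟨h4, ?_⟩
      have h6 : inner ℂ y (F z) / inner ℂ y (χ.σ (χ.q (F z))) = c := by
        rw [div_eq_iff h1]
        conv_lhs => rw [h5]
        rw [inner_smul_right]
      rw [h6]
      exact h5

theorem Chart.rho_sigma {W : Type*} [NormedAddCommGroup W] [InnerProductSpace ℂ W]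
    {Q : EN N → W} {D : ℕ} (hQ : ∀ (c : ℂ) (x : EN N), Q (c • x) = c ^ D • Q x) (χ : Chart X)
    {x : EN N} (hx : x ∈ X) (hU : x ∈ χ.U) : rho Q D (χ.σ (χ.q x)) = rho Q D x := by
  obtain ⟨_, c, hc, h1⟩ := χ.surj x hx hU
  conv_rhs => rw [h1]
  rw [rho_smul hQ hc]

end Pool.Agent.H14.PP

end
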