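import Mathlib

/-! The parts of this file: H22.HF.Par, H30M.Calc_2, MQ.AJCov, MQ.AJSec, TG.Rm. -/

section

/-!
# HF Par: circle integrals which depend on parameters

`F : E × ℂ → ℂ` (`E` a complex normed space), analytic at the points `(p₀, t)`, `t` in the circle: then `p ↦ ∮ F (p, t) dt` is analytic at `p₀`.

Proof.  (1) Near `(p₀, t₀)` the function `F` has the power series `P` on a ball; for `t` near `t₀` the series `P.changeOrigin (0, t - t₀)`
represents `F` at `(p₀, t)`, its terms depend continuously on `t` and are bounded uniformly, so one can integrate termwise over a small arc.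
(2) By compactness the circle is a union of finitely many small arcs.
-/

set_option autoImplicit false

open Metric Set Filter Topology
open scoped NNReal ENNReal Interval

namespace Pool.Agent.H22.HF

private theorem par_local {E : Type} [NormedAddCommGroup E] [NormedSpace ℂ E] {F : E × ℂ → ℂ} {p₀ : E} {γ g : ℝ → ℂ}
    (hγ : Continuous γ) (hg : Continuous g) {θ₀ : ℝ} (hF : AnalyticAt ℂ F (p₀, γ θ₀)) :
    ∃ ε > 0, ∀ α ∈ ball θ₀ ε, ∀ β ∈ ball θ₀ ε, AnalyticAt ℂ (fun p => ∫ θ in α..β, g θ * F (p, γ θ)) p₀ := by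
  obtain ⟨P, R, hP⟩ := hF
  obtain ⟨r, hr0, hrR⟩ := ENNReal.lt_iff_exists_nnreal_btwn.1 hP.r_pos
  set s : ℝ≥0 := r / 2 with hs
  have hr0' : 0 < r := by exact_mod_cast hr0
  have hs0 : 0 < s := by rw [hs]; positivity
  have hss : ((s : ℝ≥0∞) + s) < P.radius := by
    have h1 : s + s = r := by rw [hs]; exact add_halves r
    have h2 : ((s : ℝ≥0∞) + s) = (r : ℝ≥0∞) := by rw [← h1]; push_cast; rfl
    rw [h2]
    exact hrR.trans_le hP.r_le
  have hsR : ((s : ℝ≥0∞) + s) < R := by
    have h1 : s + s = r := by rw [hs]; exact add_halves r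
    have h2 : ((s : ℝ≥0∞) + s) = (r : ℝ≥0∞) := by rw [← h1]; push_cast; rfl
    rw [h2]
    exact hrR
  have hsP : (s : ℝ≥0∞) < P.radius := (le_add_right le_rfl).trans_lt hss
  let x : ℝ → E × ℂ := fun θ => (0, γ θ - γ θ₀)
  have hxc : Continuous x := continuous_const.prodMk (hγ.sub continuous_const)
  have hx0 : x θ₀ = 0 := by simp [x]
  obtain ⟨ε, hε, hxε⟩ : ∃ ε > 0, ∀ θ ∈ ball θ₀ ε, ‖x θ‖₊ < s := by
    have h1 : ∀ᶠ θ in 𝓝 θ₀, ‖x θ‖₊ < s := by
      have h2 : Tendsto (fun θ => ‖x θ‖₊) (𝓝 θ₀) (𝓝 ‖x θ₀‖₊) := hxc.nnnorm.tendsto θ₀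
      rw [hx0, nnnorm_zero] at h2
      exact h2.eventually (gt_mem_nhds hs0)
    obtain ⟨ε, hε, h3⟩ := Metric.eventually_nhds_iff_ball.1 h1
    exact ⟨ε, hε, h3⟩
  refine ⟨ε, hε, ?_⟩
  intro α hα β hβ
  have hsub : uIcc α β ⊆ ball θ₀ ε := by
    rw [Real.ball_eq_Ioo] at hα hβ ⊢
    exact (ordConnected_Ioo.uIcc_subset hα hβ)
  have hsub' : Ι α β ⊆ ball θ₀ ε := uIoc_subset_uIcc.trans hsub
  have hpos : 0 < P.radius := hP.r_pos.trans_le hP.r_le
  -- the coefficients
  let L : E →L[ℂ] E × ℂ := ContinuousLinearMap.inl ℂ E ℂ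
  have hL : ‖L‖ ≤ 1 := ContinuousLinearMap.norm_inl_le_one ℂ E ℂ
  let Q : ∀ k : ℕ, ℝ → ContinuousMultilinearMap ℂ (fun _ : Fin k => E) ℂ :=
    fun k θ => (P.changeOrigin (x θ) k).compContinuousLinearMap (fun _ => L)
  let B : ℕ → ℝ≥0 := fun k =>
    ∑' t : Σ l : ℕ, { t : Finset (Fin (k + l)) // t.card = l }, ‖P (k + t.1)‖₊ * s ^ t.1
  have hQB : ∀ k, ∀ θ ∈ ball θ₀ ε, ‖Q k θ‖ ≤ B k := by
    intro k θ hθ
    have h1 : ‖Q k θ‖ ≤ ‖P.changeOrigin (x θ) k‖ := by
      refine (ContinuousMultilinearMap.norm_compContinuousLinearMap_le _ _).trans ?_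
      refine mul_le_of_le_one_right (norm_nonneg _) ?_
      exact Finset.prod_le_one (fun _ _ => norm_nonneg _) (fun _ _ => hL)
    have hxs : ‖x θ‖₊ < s := hxε θ hθ
    have hxP : (‖x θ‖₊ : ℝ≥0∞) < P.radius := lt_trans (by exact_mod_cast hxs) hsP
    have h2 : ‖P.changeOrigin (x θ) k‖₊ ≤ B k := by
      refine (P.nnnorm_changeOrigin_le k hxP).trans ?_
      refine Summable.tsum_le_tsum ?_ (P.changeOriginSeries_summable_aux₂ hxP k)
        (P.changeOriginSeries_summable_aux₂ hsP k)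
      intro t
      gcongr
    exact h1.trans (by exact_mod_cast h2)
  have hBs : Summable (fun k => B k * s ^ k) := by
    have h := P.changeOriginSeries_summable_aux₁ hss
    have h1 := (NNReal.summable_sigma.1 h).2
    simpa only [B, ← NNReal.tsum_mul_right] using h1
  have hBs' : Summable (fun k => (B k : ℝ) * (s : ℝ) ^ k) := by
    have h := NNReal.summable_coe.2 hBs
    simpa using h
  have hQc : ∀ k, ContinuousOn (Q k) (ball θ₀ ε) := by
    intro k
    have h1 : ContinuousOn (fun y => P.changeOrigin y k) (Metric.eball (0 : E × ℂ) P.radius) :=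
      (P.hasFPowerSeriesOnBall_changeOrigin k hpos).continuousOn
    have h2 : ContinuousOn (fun θ => P.changeOrigin (x θ) k) (ball θ₀ ε) := by
      refine h1.comp hxc.continuousOn ?_
      intro θ hθ
      rw [mem_eball_zero_iff]
      have h3 : ‖x θ‖₊ < s := hxε θ hθ
      exact lt_trans (by exact_mod_cast h3) hsP
    exact (ContinuousMultilinearMap.compContinuousLinearMapL
      (fun _ : Fin k => L)).continuous.comp_continuousOn h2
  obtain ⟨M, hM⟩ : ∃ M : ℝ, ∀ θ ∈ uIcc α β, ‖g θ‖ ≤ M := by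
    obtain ⟨M, hM⟩ := (isCompact_uIcc (a := α) (b := β)).exists_bound_of_continuousOn hg.continuousOn
    exact ⟨M, hM⟩
  have hM0 : 0 ≤ M := (norm_nonneg _).trans (hM α left_mem_uIcc)
  let G : FormalMultilinearSeries ℂ E ℂ := fun k => ∫ θ in α..β, g θ • Q k θ
  have hGi : ∀ k, IntervalIntegrable (fun θ => g θ • Q k θ) MeasureTheory.volume α β := by
    intro k
    exact (hg.continuousOn.smul ((hQc k).mono hsub)).intervalIntegrable
  have hGn : ∀ k, ‖G k‖ ≤ M * B k * |β - α| := by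
    intro k
    refine intervalIntegral.norm_integral_le_of_norm_le_const ?_
    intro θ hθ
    rw [norm_smul]
    have h1 := hM θ (uIoc_subset_uIcc hθ)
    have h2 := hQB k θ (hsub' hθ)
    exact mul_le_mul h1 h2 (norm_nonneg _) hM0
  refine HasFPowerSeriesOnBall.analyticAt (p := G) (r := (s : ℝ≥0∞)) ⟨?_, by exact_mod_cast hs0, ?_⟩
  · refine G.le_radius_of_summable_norm ?_
    refine Summable.of_nonneg_of_le (fun k => by positivity) (fun k => ?_)
      (hBs'.mul_left (M * |β - α|))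
    calc ‖G k‖ * (s : ℝ) ^ k ≤ (M * B k * |β - α|) * (s : ℝ) ^ k := by
          gcongr
          exact hGn k
      _ = M * |β - α| * ((B k : ℝ) * (s : ℝ) ^ k) := by ring
  · intro y hy
    have hys : ‖y‖₊ < s := by
      rw [mem_eball_zero_iff] at hy
      exact_mod_cast hy
    have hGy : ∀ k, G k (fun _ => y) = ∫ θ in α..β, g θ * Q k θ (fun _ => y) := by
      intro k
      have h1 := ((ContinuousMultilinearMap.apply ℂ (fun _ : Fin k => E) ℂ
        (fun _ => y))).intervalIntegral_comp_comm (hGi k)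
      exact h1.symm
    simp only [hGy]
    refine intervalIntegral.hasSum_integral_of_dominated_convergence
      (fun k _ => M * ((B k : ℝ) * (s : ℝ) ^ k)) ?_ ?_ ?_ ?_ ?_
    · intro k
      have h1 : ContinuousOn (fun θ => g θ * Q k θ (fun _ => y)) (uIcc α β) := by
        refine hg.continuousOn.mul ?_
        exact ((ContinuousMultilinearMap.apply ℂ (fun _ : Fin k => E) ℂ
          (fun _ => y))).continuous.comp_continuousOn ((hQc k).mono hsub)
      exact (h1.mono uIoc_subset_uIcc).aestronglyMeasurable measurableSet_uIoc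
    · intro k
      refine Eventually.of_forall (fun θ hθ => ?_)
      rw [norm_mul]
      have h1 := hM θ (uIoc_subset_uIcc hθ)
      have h2 := hQB k θ (hsub' hθ)
      have h3 : ‖Q k θ (fun _ => y)‖ ≤ (B k : ℝ) * (s : ℝ) ^ k := by
        refine ((Q k θ).le_opNorm _).trans ?_
        have h4 : ∏ _i : Fin k, ‖y‖ ≤ (s : ℝ) ^ k := by
          rw [Finset.prod_const, Finset.card_univ, Fintype.card_fin]
          exact pow_le_pow_left₀ (norm_nonneg _) (by exact_mod_cast hys.le) k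
        exact mul_le_mul h2 h4 (by positivity) (by positivity)
      exact mul_le_mul h1 h3 (norm_nonneg _) hM0
    · exact Eventually.of_forall (fun θ _ => hBs'.mul_left M)
    · exact intervalIntegrable_const
    · refine Eventually.of_forall (fun θ hθ => ?_)
      have hxs : ‖x θ‖₊ < s := hxε θ (hsub' hθ)
      have hxR : (‖x θ‖₊ : ℝ≥0∞) < R := by
        refine lt_trans ?_ ((le_add_right le_rfl).trans_lt hsR : (s : ℝ≥0∞) < R)
        exact_mod_cast hxs
      have h1 := (hP.changeOrigin (y := x θ) hxR)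
      have hmem : (y, (0 : ℂ)) ∈ Metric.eball (0 : E × ℂ) (R - ‖x θ‖₊) := by
        rw [mem_eball_zero_iff, lt_tsub_iff_right]
        have h2 : ‖((y, (0 : ℂ)) : E × ℂ)‖₊ = ‖y‖₊ := by
          rw [Prod.nnnorm_def]
          simp
        have h3 : ‖((y, (0 : ℂ)) : E × ℂ)‖ₑ = (‖y‖₊ : ℝ≥0∞) := by
          rw [enorm_eq_nnnorm, h2]
        rw [h3]
        refine lt_trans ?_ hsR
        have h4 : ‖y‖₊ + ‖x θ‖₊ < s + s := add_lt_add hys hxs
        exact_mod_cast h4
      have h2 := h1.hasSum hmem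
      have h3 : (p₀, γ θ₀) + x θ + (y, (0 : ℂ)) = (p₀ + y, γ θ) := by
        simp [x]
      rw [h3] at h2
      have h4 := h2.mul_left (g θ)
      exact h4

theorem analyticAt_circleIntegral {E : Type} [NormedAddCommGroup E] [NormedSpace ℂ E] [FiniteDimensional ℂ E] {F : E × ℂ → ℂ} {p₀ : E} {c : ℂ} {ρ : ℝ}
    (hρ : 0 < ρ) (hF : ∀ t ∈ sphere c ρ, AnalyticAt ℂ F (p₀, t)) : AnalyticAt ℂ (fun p => ∮ t in C(c, ρ), F (p, t)) p₀ := by
  have hmem : ∀ θ : ℝ, circleMap c ρ θ ∈ sphere c ρ := fun θ => circleMap_mem_sphere c hρ.le θ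
  have hγ : Continuous (circleMap c ρ) := continuous_circleMap c ρ
  have hg : Continuous (deriv (circleMap c ρ)) := by
    have h1 : deriv (circleMap c ρ) = fun θ => circleMap 0 ρ θ * Complex.I := by
      funext θ
      exact deriv_circleMap c ρ θ
    rw [h1]
    exact (continuous_circleMap 0 ρ).mul continuous_const
  have hloc : ∀ θ₀ : ℝ, ∃ ε > 0, ∀ α ∈ ball θ₀ ε, ∀ β ∈ ball θ₀ ε,
      AnalyticAt ℂ (fun p => ∫ θ in α..β, deriv (circleMap c ρ) θ * F (p, circleMap c ρ θ)) p₀ :=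
    fun θ₀ => par_local hγ hg (hF _ (hmem θ₀))
  choose ε hε hεa using hloc
  obtain ⟨δ, hδ, hδc⟩ := lebesgue_number_lemma_of_metric (isCompact_Icc (a := (0 : ℝ)) (b := 2 * Real.pi))
    (c := fun θ₀ : ℝ => ball θ₀ (ε θ₀)) (fun _ => isOpen_ball)
    (fun θ _ => mem_iUnion.2 ⟨θ, mem_ball_self (hε θ)⟩)
  have hloc2 : ∀ θ ∈ Icc (0 : ℝ) (2 * Real.pi), ∀ α ∈ ball θ δ, ∀ β ∈ ball θ δ,
      AnalyticAt ℂ (fun p => ∫ θ in α..β, deriv (circleMap c ρ) θ * F (p, circleMap c ρ θ)) p₀ := by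
    intro θ hθ α hα β hβ
    obtain ⟨θ₀, h0⟩ := hδc θ hθ
    exact hεa θ₀ α (h0 hα) β (h0 hβ)
  have hpi : 0 < 2 * Real.pi := by positivity
  obtain ⟨N, hN⟩ := exists_nat_gt (2 * Real.pi / δ)
  have hN0 : (0 : ℝ) < N := lt_trans (by positivity) hN
  have hNδ : 2 * Real.pi / N < δ := by
    rw [div_lt_iff₀ hδ] at hN
    rw [div_lt_iff₀ hN0]
    linarith
  let a : ℕ → ℝ := fun k => 2 * Real.pi * k / N
  have ha0 : a 0 = 0 := by simp [a]
  have haN : a N = 2 * Real.pi := by
    simp only [a]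
    field_simp
  have hstep : ∀ k, a (k + 1) = a k + 2 * Real.pi / N := by
    intro k
    simp only [a]
    push_cast
    ring
  have hsum : AnalyticAt ℂ (fun p => ∑ k ∈ Finset.range N,
      ∫ θ in a k..a (k + 1), deriv (circleMap c ρ) θ * F (p, circleMap c ρ θ)) p₀ := by
    refine Finset.analyticAt_fun_sum _ ?_
    intro k hk
    have hk' : k < N := Finset.mem_range.1 hk
    have hkI : a k ∈ Icc (0 : ℝ) (2 * Real.pi) := by
      constructor
      · simp only [a]
        positivity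
      · simp only [a]
        rw [div_le_iff₀ hN0]
        have : (k : ℝ) ≤ N := by exact_mod_cast hk'.le
        nlinarith
    refine hloc2 (a k) hkI (a k) (mem_ball_self hδ) (a (k + 1)) ?_
    rw [hstep, mem_ball, Real.dist_eq]
    have : a k + 2 * Real.pi / N - a k = 2 * Real.pi / N := by ring
    rw [this, abs_of_pos (by positivity)]
    exact hNδ
  refine hsum.congr ?_
  obtain ⟨u, v, hu, _, hpu, htv, huv⟩ := generalized_tube_lemma (isCompact_singleton (x := p₀))
    (isCompact_sphere c ρ) (isOpen_analyticAt ℂ F) (by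
      rintro ⟨p, t⟩ ⟨hp, ht⟩
      simp only [mem_singleton_iff] at hp ht
      subst hp
      exact hF t ht)
  have hev : ∀ᶠ p in 𝓝 p₀, p ∈ u := hu.mem_nhds (hpu rfl)
  filter_upwards [hev] with p hp
  have hcont : Continuous (fun θ => deriv (circleMap c ρ) θ * F (p, circleMap c ρ θ)) := by
    refine hg.mul ?_
    rw [continuous_iff_continuousAt]
    intro θ
    have h1 : AnalyticAt ℂ F (p, circleMap c ρ θ) := huv ⟨hp, htv (hmem θ)⟩
    exact h1.continuousAt.comp (f := fun θ => (p, circleMap c ρ θ))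
      (continuous_const.prodMk hγ).continuousAt
  rw [intervalIntegral.sum_integral_adjacent_intervals
    (fun k _ => hcont.intervalIntegrable _ _), ha0, haN]
  rfl

end Pool.Agent.H22.HF

end

section

/-!
# Calculus of gradients and Laplacians on the complex plane
-/

set_option autoImplicit false

open MeasureTheory Complex Set Filter Topology Laplacian InnerProductSpace

namespace Pool.Agent.H30M

theorem lap_congr {u v : ℂ → ℝ} {z : ℂ} (h : u =ᶠ[𝓝 z] v) : Δ u z = Δ v z :=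
  (laplacian_congr_nhds h).eq_of_nhds

/-- The real part of `a(z) dz` applied to a vector: the gradient of `log ‖g‖`. -/
theorem fderiv_log_norm {g : ℂ → ℂ} {w : ℂ} (hg : DifferentiableAt ℂ g w) (h0 : g w ≠ 0) (v : ℂ) :
    fderiv ℝ (fun z => Real.log ‖g z‖) w v = (deriv g w / g w * v).re := by
  have h1 : HasFDerivAt g ((ContinuousLinearMap.toSpanSingleton ℂ (deriv g w)).restrictScalars ℝ) w :=
    hg.hasDerivAt.hasFDerivAt.restrictScalars ℝ
  have h2 := h1.norm_sq
  have hne : ‖g w‖ ^ 2 ≠ 0 := by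
    have := norm_pos_iff.2 h0
    positivity
  have h3 := (h2.log hne).const_mul (1 / 2 : ℝ)
  have e : (fun z => Real.log ‖g z‖) = fun z => (1 / 2 : ℝ) * Real.log (‖g z‖ ^ 2) := by
    funext z
    rw [Real.log_pow]
    push_cast
    ring
  rw [e, h3.fderiv]
  have hn : (g w).re ^ 2 + (g w).im ^ 2 ≠ 0 := by
    rw [← Complex.normSq_eq_norm_sq, Complex.normSq_apply] at hne
    intro h
    apply hne
    rw [← h]
    ring
  simp only [smul_apply, smul_eq_mul, ContinuousLinearMap.comp_apply, innerSL_apply_apply,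
    ContinuousLinearMap.coe_restrictScalars', ContinuousLinearMap.toSpanSingleton_apply]
  rw [← Complex.normSq_eq_norm_sq, Complex.normSq_apply, Complex.inner]
  have h5 : (deriv g w / g w * v).re = ((v * deriv g w) / g w).re := by
    congr 1
    ring
  rw [h5, Complex.div_re, Complex.normSq_apply]
  have hn' : (g w).re * (g w).re + (g w).im * (g w).im ≠ 0 := by
    intro h
    apply hn
    rw [← h]
    ring
  simp only [mul_re, conj_re, conj_im, mul_im]
  field_simp
  ring

end Pool.Agent.H30M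

end

section

/-!
# MQ AJCov: the roots of a monic polynomial as a covering

`rm d l` are the values at `0, …, d - 1` of the monic polynomial with the roots `l`.  It is a proper map, a local homeomorphism at the injective `l`,
so a covering over the polynomials with distinct roots.
-/

set_option autoImplicit false

open Topology Filter

noncomputable section

namespace Pool.Agent.MQ.AJ

variable {d : ℕ}

/-- the values at `0, …, d - 1` of the monic polynomial with the roots `l` -/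
def rm (d : ℕ) (l : Fin d → ℂ) : Fin d → ℂ := fun i => ∏ j, (((i : ℕ) : ℂ) - l j)

theorem rm_analytic (l : Fin d → ℂ) : AnalyticAt ℂ (rm d) l := by
  unfold rm
  rw [analyticAt_pi_iff]
  intro i
  have h : ∀ j ∈ (Finset.univ : Finset (Fin d)), AnalyticAt ℂ (fun l : Fin d → ℂ => ((i : ℕ) : ℂ) - l j) l := fun j _ =>
    analyticAt_const.sub ((ContinuousLinearMap.proj (R := ℂ) (φ := fun _ : Fin d => ℂ) j).analyticAt l)
  exact Finset.analyticAt_fun_prod _ h

theorem rm_continuous : Continuous (rm d) := continuous_iff_continuousAt.2 fun l => (rm_analytic l).continuousAt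

open Polynomial in
/-- a polynomial of degree `< d` which vanishes at `0, …, d - 1` is zero -/
theorem poly_zero {p : ℂ[X]} (hp : p.degree < d) (h : ∀ i : Fin d, p.eval (((i : ℕ) : ℂ)) = 0) : p = 0 := by
  refine Polynomial.eq_zero_of_degree_lt_of_eval_finset_eq_zero (s := (Finset.univ : Finset (Fin d)).map
    ⟨fun i : Fin d => (((i : ℕ) : ℂ)), fun i j hij => Fin.ext (Nat.cast_injective hij)⟩) ?_ ?_
  · simpa using hp
  · intro x hx
    simp only [Finset.mem_map, Finset.mem_univ, true_and] at hx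
    obtain ⟨i, rfl⟩ := hx
    exact h i

open Polynomial in
/-- two monic polynomials of degree `d` with the same values at `0, …, d - 1` agree -/
theorem monic_eq {p q : ℂ[X]} (hp : p.Monic) (hq : q.Monic) (hpd : p.natDegree = d) (hqd : q.natDegree = d)
    (h : ∀ i : Fin d, p.eval (((i : ℕ) : ℂ)) = q.eval (((i : ℕ) : ℂ))) : p = q := by
  have h1 : (p - q).degree < d := by
    rw [← hpd, ← Polynomial.degree_eq_natDegree hp.ne_zero]
    refine Polynomial.degree_sub_lt_left ?_ hp.ne_zero ?_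
    · rw [Polynomial.degree_eq_natDegree hp.ne_zero, Polynomial.degree_eq_natDegree hq.ne_zero, hpd, hqd]
    · rw [hp.leadingCoeff, hq.leadingCoeff]
  have h2 := poly_zero h1 fun i => by rw [Polynomial.eval_sub, h i, sub_self]
  exact sub_eq_zero.1 h2

open Polynomial in
/-- the monic polynomial with the roots `l` -/
def mp (l : Fin d → ℂ) : ℂ[X] := ∏ j, (X - C (l j))

theorem mp_eval (l : Fin d → ℂ) (t : ℂ) : (mp l).eval t = ∏ j, (t - l j) := by
  simp [mp, Polynomial.eval_prod]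

theorem mp_monic (l : Fin d → ℂ) : (mp l).Monic := Polynomial.monic_prod_X_sub_C _ _

theorem mp_natDegree (l : Fin d → ℂ) : (mp l).natDegree = d := by
  rw [mp, Polynomial.natDegree_finsetProd_X_sub_C_eq_card]
  simp

theorem mp_eq_of_rm {l m : Fin d → ℂ} (h : rm d l = rm d m) : mp l = mp m := by
  refine monic_eq (mp_monic l) (mp_monic m) (mp_natDegree l) (mp_natDegree m) fun i => ?_
  rw [mp_eval, mp_eval]
  exact congrFun h i

theorem prod_eq_of_rm {l m : Fin d → ℂ} (h : rm d l = rm d m) (t : ℂ) : ∏ j, (t - l j) = ∏ j, (t - m j) := by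
  rw [← mp_eval, ← mp_eval, mp_eq_of_rm h]

/-- the fibres are finite -/
theorem rm_fiber_finite (x : Fin d → ℂ) : (rm d ⁻¹' {x}).Finite := by
  rcases Set.eq_empty_or_nonempty (rm d ⁻¹' {x}) with h | ⟨m, hm⟩
  · rw [h]
    exact Set.finite_empty
  · have hm' : rm d m = x := hm
    refine (Set.Finite.pi' (t := fun _ : Fin d => Set.range m) fun _ => Set.finite_range m).subset ?_
    intro l hl j
    have hl' : rm d l = x := hl
    have h1 := prod_eq_of_rm (hl'.trans hm'.symm) (l j)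
    rw [Finset.prod_eq_zero (Finset.mem_univ j) (sub_self _)] at h1
    obtain ⟨k, -, hk⟩ := Finset.prod_eq_zero_iff.1 h1.symm
    exact ⟨k, (sub_eq_zero.1 hk).symm⟩

/-- roots are bounded by the values -/
theorem rm_bound {C : ℝ} (l : Fin d → ℂ) (h : ∀ i, ‖rm d l i‖ ≤ C) (j : Fin d) : ‖l j‖ ≤ |C| * 2 ^ d + d + 1 := by
  by_contra hcon
  rw [not_le] at hcon
  have hC : C ≤ |C| := le_abs_self C
  have hC0 : 0 ≤ |C| := abs_nonneg C
  have h2 : (0 : ℝ) < 2 ^ d := by positivity
  -- every `i` is near some root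
  have hnear : ∀ i : Fin d, ∃ k : Fin d, ‖((i : ℕ) : ℂ) - l k‖ < 1 / 2 := by
    intro i
    by_contra hno
    push Not at hno
    have hi : ‖((i : ℕ) : ℂ)‖ ≤ d := by
      rw [Complex.norm_natCast]
      exact_mod_cast i.2.le
    have hbig : |C| * 2 ^ d + 1 < ‖((i : ℕ) : ℂ) - l j‖ := by
      have := norm_sub_norm_le (l j) (((i : ℕ) : ℂ))
      rw [norm_sub_rev] at this
      linarith
    have h3 : (|C| * 2 ^ d + 1) * (1 / 2) ^ (d - 1) ≤ ‖rm d l i‖ := by
      rw [rm, norm_prod, ← Finset.mul_prod_erase _ _ (Finset.mem_univ j)]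
      refine mul_le_mul hbig.le ?_ (by positivity) (norm_nonneg _)
      calc ((1 : ℝ) / 2) ^ (d - 1) = ∏ _k ∈ (Finset.univ : Finset (Fin d)).erase j, ((1 : ℝ) / 2) := by
            rw [Finset.prod_const, Finset.card_erase_of_mem (Finset.mem_univ j), Finset.card_univ, Fintype.card_fin]
        _ ≤ _ := Finset.prod_le_prod (fun _ _ => by positivity) fun k _ => hno k
    have h4 : (0 : ℝ) < (1 / 2) ^ (d - 1) := by positivity
    have hd : 1 ≤ d := Nat.one_le_iff_ne_zero.2 fun h0 => by subst h0; exact j.elim0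
    have h5 : (2 : ℝ) ^ d * (1 / 2) ^ (d - 1) = 2 := by
      obtain ⟨e, rfl⟩ := Nat.exists_eq_add_of_le hd
      rw [Nat.add_sub_cancel_left, pow_add, pow_one, one_div, inv_pow]
      field_simp
    have h6 : (|C| * 2 ^ d + 1) * (1 / 2) ^ (d - 1) = 2 * |C| + (1 / 2) ^ (d - 1) := by
      rw [add_mul, mul_assoc, h5]
      ring
    have h7 := h3.trans (h i)
    rw [h6] at h7
    linarith
  choose k hk using hnear
  have hinj : Function.Injective k := by
    intro a b hab
    have h1 := hk a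
    have h2 := hk b
    rw [hab] at h1
    have h3 : ‖((a : ℕ) : ℂ) - ((b : ℕ) : ℂ)‖ < 1 := by
      have h4 : ((a : ℕ) : ℂ) - ((b : ℕ) : ℂ) = (((a : ℕ) : ℂ) - l (k b)) - (((b : ℕ) : ℂ) - l (k b)) := by ring
      rw [h4]
      refine (norm_sub_le _ _).trans_lt ?_
      linarith
    have h5 : ‖(((a : ℕ) : ℤ) - ((b : ℕ) : ℤ) : ℤ)‖ < 1 := by
      rw [Int.norm_eq_abs]
      have h6 : ‖((((a : ℕ) : ℤ) - ((b : ℕ) : ℤ) : ℤ) : ℂ)‖ < 1 := by push_cast; exact h3
      rw [Complex.norm_intCast] at h6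
      exact h6
    have h7 : (((a : ℕ) : ℤ) - ((b : ℕ) : ℤ) : ℤ) = 0 := by
      rw [Int.norm_eq_abs] at h5
      have h8 : |(((a : ℕ) : ℤ) - ((b : ℕ) : ℤ) : ℤ)| < 1 := by exact_mod_cast h5
      exact Int.abs_lt_one_iff.1 h8
    exact Fin.ext (by omega)
  obtain ⟨a, ha⟩ := (Finite.injective_iff_surjective.1 hinj) j
  have h1 := hk a
  rw [ha] at h1
  have hi : ‖((a : ℕ) : ℂ)‖ ≤ d := by
    rw [Complex.norm_natCast]
    exact_mod_cast a.2.le
  have h3 := norm_sub_norm_le (l j) (((a : ℕ) : ℂ))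
  rw [norm_sub_rev] at h3
  have h4 : 0 ≤ |C| * 2 ^ d := by positivity
  linarith

theorem rm_proper : IsProperMap (rm d) := by
  rw [isProperMap_iff_tendsto_cocompact]
  refine ⟨rm_continuous, Filter.tendsto_cocompact_cocompact_of_norm fun ε => ⟨|ε| * 2 ^ d + d + 1, fun l hl => ?_⟩⟩
  by_contra hcon
  rw [not_lt] at hcon
  have h1 : ‖l‖ ≤ |ε| * 2 ^ d + d + 1 :=
    (pi_norm_le_iff_of_nonneg (by positivity)).2 fun j => rm_bound l (fun i => (norm_le_pi_norm _ i).trans hcon) j
  linarith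

/-- the derivative of `rm` -/
def rmD (l : Fin d → ℂ) : (Fin d → ℂ) →L[ℂ] (Fin d → ℂ) :=
  ContinuousLinearMap.pi fun i => ∑ j, (∏ k ∈ Finset.univ.erase j, (((i : ℕ) : ℂ) - l k)) • (-(ContinuousLinearMap.proj (R := ℂ) (φ := fun _ : Fin d => ℂ) j))

theorem rm_hasFDerivAt (l : Fin d → ℂ) : HasFDerivAt (rm d) (rmD l) l := by
  unfold rm rmD
  rw [hasFDerivAt_pi]
  intro i
  refine HasFDerivAt.finsetProd (u := (Finset.univ : Finset (Fin d))) (g := fun j (l : Fin d → ℂ) => ((i : ℕ) : ℂ) - l j) fun j _ => ?_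
  exact ((ContinuousLinearMap.proj (R := ℂ) (φ := fun _ : Fin d => ℂ) j).hasFDerivAt).const_sub _

open Polynomial in
theorem rmD_injective {l : Fin d → ℂ} (hl : Function.Injective l) : Function.Injective (rmD l) := by
  rw [injective_iff_map_eq_zero]
  intro h h0
  set p : ℂ[X] := ∑ j, C (h j) * ∏ k ∈ Finset.univ.erase j, (X - C (l k)) with hp
  have hev : ∀ t, p.eval t = ∑ j, h j * ∏ k ∈ Finset.univ.erase j, (t - l k) := by
    intro t
    simp [hp, Polynomial.eval_finsetSum, Polynomial.eval_prod]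
  have hdeg : p.degree < d := by
    rw [hp]
    refine (Polynomial.degree_sum_le _ _).trans_lt ?_
    rw [Finset.sup_lt_iff (by exact WithBot.bot_lt_coe d)]
    intro j _
    refine (Polynomial.degree_mul_le _ _).trans_lt ?_
    have hd : 1 ≤ d := Nat.one_le_iff_ne_zero.2 fun h0 => by subst h0; exact j.elim0
    have h1 : (∏ k ∈ Finset.univ.erase j, (X - C (l k)) : ℂ[X]).degree = ((d - 1 : ℕ) : WithBot ℕ) := by
      rw [Polynomial.degree_prod]
      simp only [Polynomial.degree_X_sub_C, Finset.sum_const, Finset.card_erase_of_mem (Finset.mem_univ j), Finset.card_univ, Fintype.card_fin]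
      simp
    rw [h1]
    calc (C (h j) : ℂ[X]).degree + ((d - 1 : ℕ) : WithBot ℕ) ≤ 0 + ((d - 1 : ℕ) : WithBot ℕ) := by
          gcongr
          exact Polynomial.degree_C_le
      _ < d := by
          rw [zero_add]
          exact_mod_cast Nat.sub_lt hd one_pos
  have hz : ∀ i : Fin d, p.eval (((i : ℕ) : ℂ)) = 0 := by
    intro i
    have h1 := congrFun h0 i
    simp only [rmD, ContinuousLinearMap.coe_pi', FunLike.coe_sum, Finset.sum_apply, FunLike.coe_smul, Pi.smul_apply,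
      neg_apply, ContinuousLinearMap.proj_apply, smul_eq_mul, Pi.zero_apply] at h1
    rw [hev]
    have h2 : ∑ j, h j * ∏ k ∈ Finset.univ.erase j, (((i : ℕ) : ℂ) - l k) = - ∑ j, (∏ k ∈ Finset.univ.erase j, (((i : ℕ) : ℂ) - l k)) * -h j := by
      rw [← Finset.sum_neg_distrib]
      exact Finset.sum_congr rfl fun j _ => by ring
    rw [h2, h1, neg_zero]
  have hp0 := poly_zero hdeg hz
  funext j
  have h1 := hev (l j)
  rw [hp0, Polynomial.eval_zero, Finset.sum_eq_single j] at h1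
  · have h2 : ∏ k ∈ Finset.univ.erase j, (l j - l k) ≠ 0 := by
      rw [Finset.prod_ne_zero_iff]
      intro k hk
      rw [sub_ne_zero]
      exact fun h => (Finset.ne_of_mem_erase hk) (hl h.symm)
    exact (mul_eq_zero.1 h1.symm).resolve_right h2
  · intro k _ hk
    rw [Finset.prod_eq_zero (Finset.mem_erase.2 ⟨hk.symm, Finset.mem_univ j⟩) (sub_self _), mul_zero]
  · intro h
    exact absurd (Finset.mem_univ j) h

/-- the derivative as an equivalence -/
theorem rm_equiv {l : Fin d → ℂ} (hl : Function.Injective l) : ∃ e : (Fin d → ℂ) ≃L[ℂ] (Fin d → ℂ), (e : (Fin d → ℂ) →L[ℂ] (Fin d → ℂ)) = rmD l := by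
  let e := (LinearEquiv.ofInjectiveEndo (rmD l : (Fin d → ℂ) →ₗ[ℂ] (Fin d → ℂ)) (rmD_injective hl)).toContinuousLinearEquiv
  exact ⟨e, by ext x; rfl⟩

/-- a local inverse -/
theorem rm_local {l : Fin d → ℂ} (hl : Function.Injective l) :
    ∃ e : OpenPartialHomeomorph (Fin d → ℂ) (Fin d → ℂ), l ∈ e.source ∧ (e : (Fin d → ℂ) → (Fin d → ℂ)) = rm d ∧ AnalyticAt ℂ e.symm (rm d l) := by
  obtain ⟨i, hi⟩ := rm_equiv hl
  have hd : HasFDerivAt (rm d) (i : (Fin d → ℂ) →L[ℂ] (Fin d → ℂ)) l := by rw [hi]; exact rm_hasFDerivAt l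
  have hs : HasStrictFDerivAt (rm d) (i : (Fin d → ℂ) →L[ℂ] (Fin d → ℂ)) l := (rm_analytic l).hasStrictFDerivAt.congr_fderiv hd.fderiv
  refine ⟨hs.toOpenPartialHomeomorph (rm d), hs.mem_toOpenPartialHomeomorph_source, hs.toOpenPartialHomeomorph_coe, ?_⟩
  refine OpenPartialHomeomorph.analyticAt_symm' (i := i) _ hs.mem_toOpenPartialHomeomorph_source ?_ ?_
  · rw [hs.toOpenPartialHomeomorph_coe]
    exact rm_analytic l
  · rw [hs.toOpenPartialHomeomorph_coe]
    exact hd.fderiv

/-- the values of the polynomials with distinct roots -/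
def simp (d : ℕ) : Set (Fin d → ℂ) := {x | ∀ l, rm d l = x → Function.Injective l}

theorem rm_cov : IsCoveringMapOn (rm d) (simp d) := by
  refine rm_proper.isClosedMap.isCoveringMapOn_of_isLocalHomeomorphOn (fun x _ => rm_fiber_finite x) ?_
  intro l hl
  obtain ⟨e, h1, h2, -⟩ := rm_local (hl l rfl)
  exact ⟨e, h1, h2.symm⟩

end Pool.Agent.MQ.AJ

end
end

section

/-!
# MQ AJSec: the roots of a holomorphic family of monic polynomials with simple roots over a convex open set
-/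

set_option autoImplicit false

open Topology Filter

noncomputable section

namespace Pool.Agent.MQ.AJ

variable {d : ℕ}

/-- the value at `t` of the monic polynomial with the lower coefficients `p` -/
def pv (d : ℕ) (p : Fin d → ℂ) (t : ℂ) : ℂ := t ^ d + ∑ i, p i * t ^ (i : ℕ)

open Polynomial in
/-- the monic polynomial with the lower coefficients `p` -/
def pp (p : Fin d → ℂ) : ℂ[X] := X ^ d + ∑ i, C (p i) * X ^ (i : ℕ)

theorem pp_eval (p : Fin d → ℂ) (t : ℂ) : (pp p).eval t = pv d p t := by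
  simp [pp, pv, Polynomial.eval_finsetSum]

open Polynomial in
theorem pp_deg (p : Fin d → ℂ) : (∑ i, C (p i) * X ^ (i : ℕ) : ℂ[X]).degree < d := by
  refine (Polynomial.degree_sum_le _ _).trans_lt ?_
  rw [Finset.sup_lt_iff (by exact WithBot.bot_lt_coe d)]
  intro i _
  refine (Polynomial.degree_C_mul_X_pow_le _ _).trans_lt ?_
  exact_mod_cast i.2

theorem pp_monic (p : Fin d → ℂ) : (pp p).Monic := Polynomial.monic_X_pow_add (pp_deg p)

theorem pp_natDegree (p : Fin d → ℂ) : (pp p).natDegree = d := by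
  have h : (pp p).degree = d := by
    rw [pp, Polynomial.degree_add_eq_left_of_degree_lt]
    · exact Polynomial.degree_X_pow d
    · rw [Polynomial.degree_X_pow]
      exact pp_deg p
  exact Polynomial.natDegree_eq_of_degree_eq_some h

/-- a monic polynomial with the right values at `0, …, d - 1` -/
theorem pv_of_rm {p : Fin d → ℂ} {l : Fin d → ℂ} (h : rm d l = fun i : Fin d => pv d p ((i : ℕ) : ℂ)) (t : ℂ) : pv d p t = ∏ j, (t - l j) := by
  rw [← pp_eval, ← mp_eval]
  congr 1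
  refine monic_eq (pp_monic p) (mp_monic l) (pp_natDegree p) (mp_natDegree l) fun i => ?_
  rw [pp_eval, mp_eval]
  exact (congrFun h i).symm

theorem rm_of_pv {p : Fin d → ℂ} {l : Fin d → ℂ} (h : ∀ t, pv d p t = ∏ j, (t - l j)) : rm d l = fun i : Fin d => pv d p ((i : ℕ) : ℂ) := by
  funext i
  rw [h]
  rfl

/-- the roots -/
theorem exists_roots (p : Fin d → ℂ) : ∃ l : Fin d → ℂ, ∀ t, pv d p t = ∏ j, (t - l j) := by
  have hs : (pp p).Splits := IsAlgClosed.splits _
  have h1 := hs.eq_prod_roots_of_monic (pp_monic p)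
  have h2 : (pp p).roots.card = d := by
    rw [← hs.natDegree_eq_card_roots, pp_natDegree]
  set L := (pp p).roots.toList with hL
  have h3 : L.length = d := by rw [hL, Multiset.length_toList, h2]
  refine ⟨fun j => L.get (j.cast h3.symm), fun t => ?_⟩
  rw [← pp_eval, h1, Polynomial.eval_multiset_prod, Multiset.map_map]
  have h4 : (pp p).roots = (L : Multiset ℂ) := by rw [hL, Multiset.coe_toList]
  rw [h4, Multiset.map_coe, Multiset.prod_coe]
  have h5 : ∏ j : Fin d, (t - L.get (j.cast h3.symm)) = ∏ j : Fin L.length, (t - L.get j) := by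
    refine Fintype.prod_equiv (finCongr h3.symm) _ _ fun j => ?_
    rfl
  rw [h5, ← List.prod_ofFn]
  congr 1
  refine List.ext_get (by simp) fun n h6 h7 => ?_
  simp

section

variable {E : Type*} [NormedAddCommGroup E] [NormedSpace ℂ E] {Ω : Set E} {p : Fin d → E → ℂ}

/-- all roots are simple over `Ω` -/
def Simp (Ω : Set E) (p : Fin d → E → ℂ) : Prop :=
  ∀ ω ∈ Ω, ∀ l : Fin d → ℂ, (∀ t, pv d (fun i => p i ω) t = ∏ j, (t - l j)) → Function.Injective l

/-- the map to the values -/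
def fv (p : Fin d → E → ℂ) (ω : E) : Fin d → ℂ := fun i => pv d (fun k => p k ω) ((i : ℕ) : ℂ)

theorem fv_analytic {ω : E} (hp : ∀ i, AnalyticAt ℂ (p i) ω) : AnalyticAt ℂ (fv p) ω := by
  unfold fv pv
  rw [analyticAt_pi_iff]
  intro i
  refine analyticAt_const.add ?_
  refine Finset.analyticAt_fun_sum _ fun k _ => ?_
  exact (hp k).mul analyticAt_const

omit [NormedAddCommGroup E] [NormedSpace ℂ E] in
theorem fv_mem (hs : Simp Ω p) {ω : E} (hω : ω ∈ Ω) : fv p ω ∈ simp d := fun l hl => hs ω hω l (pv_of_rm hl)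

/-- a continuous family of roots is analytic -/
theorem roots_analytic (hΩ : IsOpen Ω) (hp : ∀ i, ∀ ω ∈ Ω, AnalyticAt ℂ (p i) ω) (hs : Simp Ω p) {F : E → Fin d → ℂ} (hF : ContinuousOn F Ω)
    (h : ∀ ω ∈ Ω, rm d (F ω) = fv p ω) : ∀ ω ∈ Ω, AnalyticAt ℂ F ω := by
  intro ω hω
  have hinj : Function.Injective (F ω) := fv_mem hs hω _ (h ω hω)
  obtain ⟨e, h1, h2, h3⟩ := rm_local hinj
  have h4 : ∀ᶠ ω' in 𝓝 ω, F ω' = e.symm (fv p ω') := by
    have h5 : ∀ᶠ ω' in 𝓝 ω, F ω' ∈ e.source := (hF.continuousAt (hΩ.mem_nhds hω)).eventually (e.open_source.mem_nhds h1)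
    filter_upwards [h5, hΩ.mem_nhds hω] with ω' h6 h7
    rw [← h ω' h7, ← h2, e.left_inv h6]
  have h8 : AnalyticAt ℂ (fun ω' => e.symm (fv p ω')) ω := by
    rw [h ω hω] at h3
    exact h3.fun_comp (fv_analytic fun i => hp i ω hω)
  exact h8.congr (h4.mono fun _ h => h.symm)

/-- **The roots over a convex set.** -/
theorem exists_sections (hΩ : IsOpen Ω) (hc : Convex ℝ Ω) (hp : ∀ i, ∀ ω ∈ Ω, AnalyticAt ℂ (p i) ω) (hs : Simp Ω p) :
    ∃ F : E → Fin d → ℂ, (∀ ω ∈ Ω, AnalyticAt ℂ F ω) ∧ ∀ ω ∈ Ω, rm d (F ω) = fv p ω := by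
  rcases Set.eq_empty_or_nonempty Ω with he | hne
  · refine ⟨0, fun ω hω => ?_, fun ω hω => ?_⟩
    · rw [he] at hω
      exact absurd hω (Set.notMem_empty ω)
    · rw [he] at hω
      exact absurd hω (Set.notMem_empty ω)
  · have : ContractibleSpace Ω := hc.contractibleSpace hne
    have : LocallyPathConnectedSpace Ω := hΩ.locallyPathConnectedSpace
    obtain ⟨ω₀, hω₀⟩ := hne
    have hcf : Continuous fun ω : Ω => fv p ω.1 := by
      rw [continuous_iff_continuousAt]
      intro ω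
      exact ((fv_analytic fun i => hp i ω.1 ω.2).continuousAt).comp continuous_subtype_val.continuousAt
    obtain ⟨l₀, hl₀⟩ := exists_roots fun i => p i ω₀
    obtain ⟨F, ⟨-, hF⟩, -⟩ := rm_cov.existsUnique_continuousMap_lifts (A := Ω) ⟨fun ω : Ω => fv p ω.1, hcf⟩ (a₀ := ⟨ω₀, hω₀⟩) (e₀ := l₀)
      (rm_of_pv hl₀) fun ω => fv_mem hs ω.2
    classical
    set G : E → Fin d → ℂ := fun ω => if h : ω ∈ Ω then F ⟨ω, h⟩ else 0 with hG
    have hGF : ∀ ω (h : ω ∈ Ω), G ω = F ⟨ω, h⟩ := fun ω h => by rw [hG]; simp only [dif_pos h]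
    have hval : ∀ ω ∈ Ω, rm d (G ω) = fv p ω := by
      intro ω h
      rw [hGF ω h]
      exact congrFun hF ⟨ω, h⟩
    have hcont : ContinuousOn G Ω := by
      rw [continuousOn_iff_continuous_domRestrict]
      have h1 : Ω.domRestrict G = F := by
        funext ω
        exact hGF ω.1 ω.2
      rw [h1]
      exact F.continuous
    exact ⟨G, roots_analytic hΩ hp hs hcont hval, hval⟩

end

end Pool.Agent.MQ.AJ

end
end

section

/-!
# TG Rm: Riemann's extension theorem

`riemann_ext`: `h` analytic at `y₀`, not locally zero, `f` analytic and bounded off `{h = 0}` near `y₀`: `f` extends holomorphically to `y₀` (values in `EN N`).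
Proof: choose `e` with `h (y₀ + t e) ≠ 0` on a circle; the extension is the mean value of `f (y + t e)` on the circle (in one variable the
singularities are removable).
-/

set_option autoImplicit false

open Topology Filter Metric

namespace Pool.Agent.TG

variable {N : ℕ} {E : Type} [NormedAddCommGroup E] [NormedSpace ℂ E]

theorem rem_disc {U : Set ℂ} (hU : IsOpen U) (hUc : IsPreconnected U) {h f : ℂ → ℂ} (hh : ∀ z ∈ U, AnalyticAt ℂ h z) {z₁ : ℂ} (hz₁ : z₁ ∈ U)
    (hne : h z₁ ≠ 0) (hf : ∀ z ∈ U, h z ≠ 0 → DifferentiableAt ℂ f z) {M : ℝ} (hM : ∀ z ∈ U, h z ≠ 0 → ‖f z‖ ≤ M) :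
    ∃ g : ℂ → ℂ, DifferentiableOn ℂ g U ∧ ∀ z ∈ U, h z ≠ 0 → g z = f z := by
  classical
  refine ⟨fun z => if h z = 0 then limUnder (𝓝[≠] z) f else f z, fun z₀ hz₀ => ?_, fun z hz h0 => by simp [h0]⟩
  refine DifferentiableAt.differentiableWithinAt ?_
  by_cases h0 : h z₀ = 0
  · have hiso : ∀ᶠ z in 𝓝[≠] z₀, h z ≠ 0 := by
      rcases (hh z₀ hz₀).eventually_eq_zero_or_eventually_ne_zero with h1 | h1
      · exact absurd (AnalyticOnNhd.eqOn_zero_of_preconnected_of_eventuallyEq_zero (fun z hz => hh z hz) hUc hz₀ h1 hz₁) hne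
      · exact h1
    rw [eventually_nhdsWithin_iff] at hiso
    obtain ⟨r, hr, hb⟩ := Metric.eventually_nhds_iff_ball.mp (hiso.and (hU.mem_nhds hz₀))
    have hd : DifferentiableOn ℂ f (ball z₀ r \ {z₀}) := fun z hz =>
      (hf z (hb z hz.1).2 ((hb z hz.1).1 hz.2)).differentiableWithinAt
    have hbd : BddAbove (norm ∘ f '' (ball z₀ r \ {z₀})) := by
      refine ⟨M, ?_⟩
      rintro _ ⟨z, hz, rfl⟩
      exact hM z (hb z hz.1).2 ((hb z hz.1).1 hz.2)
    have h2 := Complex.differentiableOn_update_limUnder_of_bddAbove (ball_mem_nhds z₀ hr) hd hbd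
    have h3 := h2.differentiableAt (ball_mem_nhds z₀ hr)
    refine h3.congr_of_eventuallyEq ?_
    filter_upwards [ball_mem_nhds z₀ hr] with z hz
    by_cases e : z = z₀
    · subst e
      simp [h0]
    · rw [Function.update_of_ne e]
      simp [(hb z hz).1 e]
  · refine (hf z₀ hz₀ h0).congr_of_eventuallyEq ?_
    filter_upwards [(hh z₀ hz₀).continuousAt.eventually_ne h0] with z hz
    simp [hz]

theorem riemann_one [FiniteDimensional ℂ E] {h f : E → ℂ} {y₀ : E} (hh : AnalyticAt ℂ h y₀) (hne : ¬ ∀ᶠ y in 𝓝 y₀, h y = 0)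
    (hf : ∀ᶠ y in 𝓝 y₀, h y ≠ 0 → AnalyticAt ℂ f y) {M : ℝ} (hM : ∀ᶠ y in 𝓝 y₀, h y ≠ 0 → ‖f y‖ ≤ M) :
    ∃ φ : E → ℂ, AnalyticAt ℂ φ y₀ ∧ ∀ᶠ y in 𝓝 y₀, h y ≠ 0 → φ y = f y := by
  obtain ⟨r, hr, hb⟩ := Metric.eventually_nhds_iff_ball.mp ((hh.eventually_analyticAt.and hf).and hM)
  obtain ⟨y₁, hy₁, hne₁⟩ : ∃ y₁ ∈ ball y₀ (r / 4), h y₁ ≠ 0 := by
    by_contra hcon
    push Not at hcon
    exact hne (Filter.eventually_of_mem (ball_mem_nhds y₀ (by positivity)) hcon)
  set e : E := y₁ - y₀ with he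
  have hen : ‖e‖ < r / 4 := by
    rw [he, ← dist_eq_norm]
    exact hy₁
  have hmem : ∀ y ∈ ball y₀ (r / 4), ∀ z ∈ ball (0 : ℂ) 2, y + z • e ∈ ball y₀ r := by
    intro y hy z hz
    rw [mem_ball, dist_eq_norm] at hy ⊢
    rw [mem_ball_zero_iff] at hz
    have h1 : y + z • e - y₀ = (y - y₀) + z • e := by abel
    rw [h1]
    have h2 : ‖z • e‖ ≤ 2 * (r / 4) := by
      rw [norm_smul]
      exact mul_le_mul hz.le hen.le (norm_nonneg _) (by norm_num)
    linarith [norm_add_le (y - y₀) (z • e)]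
  have hline : ∀ y ∈ ball y₀ (r / 4), ∀ z ∈ ball (0 : ℂ) 2, AnalyticAt ℂ (fun z : ℂ => h (y + z • e)) z := by
    intro y hy z hz
    refine AnalyticAt.fun_comp (hb _ (hmem y hy z hz)).1.1 ?_
    exact analyticAt_const.add (analyticAt_id.smul analyticAt_const)
  have h0m : y₀ ∈ ball y₀ (r / 4) := mem_ball_self (by positivity)
  have hiso : ∀ᶠ z in 𝓝[≠] (0 : ℂ), h (y₀ + z • e) ≠ 0 := by
    rcases (hline y₀ h0m 0 (mem_ball_self (by norm_num))).eventually_eq_zero_or_eventually_ne_zero with h1 | h1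
    · exfalso
      have h2 := AnalyticOnNhd.eqOn_zero_of_preconnected_of_eventuallyEq_zero (U := ball (0 : ℂ) 2) (fun z hz => hline y₀ h0m z hz)
        (convex_ball _ _).isPreconnected (mem_ball_self (by norm_num)) h1 (show (1 : ℂ) ∈ ball (0 : ℂ) 2 by simp)
      refine hne₁ ?_
      have h3 : y₀ + (1 : ℂ) • e = y₁ := by
        rw [one_smul, he]
        abel
      rw [← h3]
      exact h2
    · exact h1
  rw [eventually_nhdsWithin_iff] at hiso
  obtain ⟨s₀, hs₀, hs₀b⟩ := Metric.eventually_nhds_iff_ball.mp hiso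
  set s : ℝ := min (s₀ / 2) 1 with hs
  have hs0 : 0 < s := lt_min (by positivity) one_pos
  have hs1 : s ≤ 1 := min_le_right _ _
  have hss : s < s₀ := lt_of_le_of_lt (min_le_left _ _) (by linarith)
  have hsph : ∀ t ∈ sphere (0 : ℂ) s, t ≠ 0 ∧ t ∈ ball (0 : ℂ) 2 ∧ h (y₀ + t • e) ≠ 0 := by
    intro t ht
    rw [mem_sphere_zero_iff_norm] at ht
    have ht0 : t ≠ 0 := by
      rw [← norm_pos_iff, ht]
      exact hs0
    refine ⟨ht0, ?_, ?_⟩
    · rw [mem_ball_zero_iff, ht]
      linarith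
    · refine hs₀b t ?_ ht0
      rw [mem_ball_zero_iff, ht]
      exact hss
  have hcirc : ∀ᶠ y in 𝓝 y₀, ∀ t ∈ sphere (0 : ℂ) s, h (y + t • e) ≠ 0 := by
    refine (isCompact_sphere (0 : ℂ) s).eventually_forall_of_forall_eventually fun t ht => ?_
    have hc : ContinuousAt (fun p : E × ℂ => h (p.1 + p.2 • e)) (y₀, t) := by
      have h1 : ContinuousAt h (y₀ + t • e) := (hb _ (hmem y₀ h0m t (hsph t ht).2.1)).1.1.continuousAt
      have h2 : ContinuousAt (fun p : E × ℂ => p.1 + p.2 • e) (y₀, t) := by fun_prop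
      exact ContinuousAt.comp (f := fun p : E × ℂ => p.1 + p.2 • e) (g := h) h1 h2
    exact hc.eventually_ne (hsph t ht).2.2
  refine ⟨fun y => (2 * Real.pi * Complex.I : ℂ)⁻¹ * ∮ t in C(0, s), t⁻¹ * f (y + t • e), ?_, ?_⟩
  · refine analyticAt_const.mul ?_
    refine Pool.Agent.H22.HF.analyticAt_circleIntegral (F := fun p : E × ℂ => p.2⁻¹ * f (p.1 + p.2 • e)) hs0 fun t ht => ?_
    obtain ⟨ht0, ht2, htn⟩ := hsph t ht
    refine AnalyticAt.mul ?_ ?_
    · exact (analyticAt_snd (𝕜 := ℂ) (p := (y₀, t))).inv ht0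
    · refine AnalyticAt.fun_comp (g := f) (f := fun p : E × ℂ => p.1 + p.2 • e) ((hb _ (hmem y₀ h0m t ht2)).1.2 htn) ?_
      exact analyticAt_fst.add (analyticAt_snd.smul analyticAt_const)
  · filter_upwards [hcirc, ball_mem_nhds y₀ (show 0 < r / 4 by positivity)] with y hy hyb hy0
    have hs2 : (s : ℂ) ∈ sphere (0 : ℂ) s := by
      rw [mem_sphere_zero_iff_norm, Complex.norm_real, Real.norm_of_nonneg hs0.le]
    obtain ⟨g, hg1, hg2⟩ := rem_disc (U := ball (0 : ℂ) 2) (h := fun z : ℂ => h (y + z • e)) (f := fun z : ℂ => f (y + z • e)) isOpen_ball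
      (convex_ball _ _).isPreconnected (fun z hz => hline y hyb z hz) (hsph s hs2).2.1 (hy s hs2)
      (fun z hz hn => by
        have h1 := ((hb _ (hmem y hyb z hz)).1.2 hn).differentiableAt
        have h2 : DifferentiableAt ℂ (fun z : ℂ => y + z • e) z := by fun_prop
        exact DifferentiableAt.comp (g := f) (f := fun z : ℂ => y + z • e) z h1 h2)
      (fun z hz hn => (hb _ (hmem y hyb z hz)).2 hn)
    have h3 : (∮ t in C(0, s), t⁻¹ * f (y + t • e)) = ∮ t in C(0, s), (t - 0)⁻¹ • g t := by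
      refine circleIntegral.integral_congr hs0.le fun t ht => ?_
      simp only [sub_zero, smul_eq_mul]
      rw [hg2 t (hsph t ht).2.1 (hy t ht)]
    have h4 := DifferentiableOn.circleIntegral_sub_inv_smul (f := g) (c := (0 : ℂ)) (R := s)
      (hg1.mono (closedBall_subset_ball (by linarith))) (mem_ball_self hs0)
    have h5 : g 0 = f y := by
      have := hg2 0 (mem_ball_self (by norm_num)) (by simpa using hy0)
      simpa using this
    show (2 * Real.pi * Complex.I : ℂ)⁻¹ * (∮ t in C(0, s), t⁻¹ * f (y + t • e)) = f y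
    rw [h3, h4, h5, smul_eq_mul, ← mul_assoc, inv_mul_cancel₀ Complex.two_pi_I_ne_zero, one_mul]

end Pool.Agent.TG

end
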