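import Pool.Agent.H94.G6.M11
import Pool.Agent.H94.G6.M19

/-! The parts of this file: H13.CV.Appr, H13.CV.Val, MQ.AJMul, MQ.AJPs. -/

section

/-!
# CV Appr: weak approximation

(1) `E ≠ E'` implies that there is `f` with `0 ≤ ord_E f` and `ord_{E'} f < 0`: otherwise `0 ≤ ord_E f → 0 ≤ ord_{E'} f` for all `f`.  Then `ord_E f = 0` implies `ord_{E'} f = 0` (apply it to `f` and `f⁻¹`).
Let `oz E t = 1`, `k = oz E' t ≥ 0`.  For `f ≠ 0`, `f * t ^ (- oz E f)` has order `0` at `E`, so `oz E' f = oz E f * k`.  With `f` a uniformizer of `E'`: `1 = oz E f * k`, so `k = 1` (`k ≥ 0`), so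
`oz E' = oz E` and `E = E'` (`Place.ext'`).
(2) `E ≠ E'` implies that there is `s ≠ 0` with `oz E s < 0`, `0 < oz E' s`: `f` as in (1) and `g` as in (1) for `(E', E)`: `s = g / f`:
`ord_E g < 0`, `0 ≤ ord_E f`, `0 ≤ ord_{E'} g`, `ord_{E'} f < 0`.
(3) `exists_sep`: for a finite set `T` of places not containing `E` there is `s ≠ 0` with `oz E s < 0`, `0 < oz E' s` for all `E' ∈ T`.  Induction on `T`: `T = ∅`: inverse of a uniformizer.  Let `a` be good
for `T`, and `b` for `E'' ∉ T`, as in (2).  If `0 ≤ oz E'' a`, then `a ^ r * b` is good for large `r` (at `E`: both negative; at `E' ∈ T`: `r * oz E' a + oz E' b > 0` for large `r`; at `E''`: `≥ oz E'' b > 0`).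
If `oz E'' a < 0`: `b * a ^ r / (1 + a ^ r)`: at `E` and at `E''`, `a ^ r / (1 + a ^ r)` has order `0`; at `E' ∈ T`: `1 + a ^ r` has order `0`, so the order is `oz E' b + r * oz E' a > 0` for large `r`.
(`1 + a ^ r ≠ 0` as at `E` it has negative order.)
(4) for all `n` there is `e` with `n ≤ ord_E (e - 1)` and `n ≤ ord_{E'} e` for all `E' ∈ T`: with `s` as in (3): `e = s ^ r / (1 + s ^ r)`, `e - 1 = - 1 / (1 + s ^ r)`, `r ≥ n`.
(5) `approx`: `f = ∑ E ∈ T, g E * e_E` with `e_E` as in (4) for `E` and `T.erase E`, with `n' = n + max` of the `- oz E' (g E)`: at `E'`: `f - g E' = g E' (e_{E'} - 1) + ∑ E ≠ E', g E * e_E`.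
-/

set_option autoImplicit false

open Pool.Agent.H23.Fano (PrimeDivisorOver Form regularForms)

noncomputable section

namespace Pool.Agent.H13.CV

variable {K : Type} [Field K] [Algebra ℂ K]

private theorem appr_sep1 {E E' : Place K} (h : E ≠ E') : ∃ f : K, f ≠ 0 ∧ 0 ≤ oz E f ∧ oz E' f < 0 := by
  by_contra hcon
  push Not at hcon
  apply h
  obtain ⟨t, ht0, ht⟩ := exists_uni E
  obtain ⟨u, hu0, hu⟩ := exists_uni E'
  have hk : 0 ≤ oz E' t := hcon t ht0 (by omega)
  have key : ∀ f : K, f ≠ 0 → oz E' f = oz E f * oz E' t := by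
    intro f hf
    have h1 : t ^ (-oz E f) ≠ 0 := zpow_ne_zero _ ht0
    have h2 : oz E (f * t ^ (-oz E f)) = 0 := by
      rw [oz_mul E hf h1, oz_zpow, ht]; ring
    have h3 : f * t ^ (-oz E f) ≠ 0 := mul_ne_zero hf h1
    have h4 := hcon _ h3 (by omega)
    have h5 := hcon (f * t ^ (-oz E f))⁻¹ (inv_ne_zero h3) (by rw [oz_inv]; omega)
    rw [oz_inv] at h5
    have h6 : oz E' (f * t ^ (-oz E f)) = 0 := by omega
    rw [oz_mul E' hf h1, oz_zpow] at h6
    linarith
  have h7 := key u hu0
  rw [hu] at h7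
  have h8 : oz E' t = 1 := by
    have h9 : oz E' t ∣ 1 := ⟨oz E u, by rw [mul_comm]; exact h7⟩
    exact Int.eq_one_of_dvd_one hk h9
  refine Place.ext' fun f => ?_
  by_cases hf : f = 0
  · subst hf
    rw [E.ord.map_zero, E'.ord.map_zero]
  · rw [← coe_oz E hf, ← coe_oz E' hf, key f hf, h8, mul_one]

private theorem appr_sep2 {E E' : Place K} (h : E ≠ E') : ∃ s : K, s ≠ 0 ∧ oz E s < 0 ∧ 0 < oz E' s := by
  obtain ⟨f, hf0, hf1, hf2⟩ := appr_sep1 h
  obtain ⟨g, hg0, hg1, hg2⟩ := appr_sep1 h.symm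
  refine ⟨g / f, div_ne_zero hg0 hf0, ?_, ?_⟩
  · rw [oz_div E hg0 hf0]; omega
  · rw [oz_div E' hg0 hf0]; omega

private theorem appr_one_add_neg {E : Place K} {a : K} {r : ℕ} (hr : 1 ≤ r) (h : oz E a < 0) :
    1 + a ^ r ≠ 0 ∧ oz E (1 + a ^ r) = r * oz E a := by
  have ha : a ≠ 0 := by
    rintro rfl
    rw [oz_zero] at h
    exact lt_irrefl _ h
  have h1 : oz E (a ^ r) < oz E (1 : K) := by
    rw [oz_pow, oz_one]
    have : (1 : ℤ) ≤ r := by exact_mod_cast hr
    nlinarith
  have h2 := oz_add_of_lt E (pow_ne_zero r ha) one_ne_zero h1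
  rw [add_comm, oz_pow] at h2
  exact h2

private theorem appr_one_add_pos {E : Place K} {a : K} {r : ℕ} (hr : 1 ≤ r) (h : 0 < oz E a) :
    1 + a ^ r ≠ 0 ∧ oz E (1 + a ^ r) = 0 := by
  have ha : a ≠ 0 := by
    rintro rfl
    rw [oz_zero] at h
    exact lt_irrefl _ h
  have h1 : oz E (1 : K) < oz E (a ^ r) := by
    rw [oz_pow, oz_one]
    have : (1 : ℤ) ≤ r := by exact_mod_cast hr
    nlinarith
  have h2 := oz_add_of_lt E one_ne_zero (pow_ne_zero r ha) h1
  rw [oz_one] at h2
  exact h2

private theorem appr_large (T : Finset (Place K)) (b : K) : ∃ r : ℕ, 1 ≤ r ∧ ∀ E ∈ T, -oz E b < r := by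
  refine ⟨1 + ∑ E ∈ T, (oz E b).natAbs, by omega, fun E hE => ?_⟩
  have h1 : (oz E b).natAbs ≤ ∑ E ∈ T, (oz E b).natAbs :=
    Finset.single_le_sum (f := fun E : Place K => (oz E b).natAbs) (fun _ _ => Nat.zero_le _) hE
  have h2 : ((oz E b).natAbs : ℤ) ≤ ((∑ E ∈ T, (oz E b).natAbs : ℕ) : ℤ) := by exact_mod_cast h1
  have h3 : ((1 + ∑ E ∈ T, (oz E b).natAbs : ℕ) : ℤ) = 1 + ((∑ E ∈ T, (oz E b).natAbs : ℕ) : ℤ) := by
    rw [Nat.cast_add, Nat.cast_one]
  rw [h3]
  omega

theorem exists_sep {E : Place K} (T : Finset (Place K)) (hT : E ∉ T) : ∃ s : K, s ≠ 0 ∧ oz E s < 0 ∧ ∀ E' ∈ T, 0 < oz E' s := by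
  classical
  induction T using Finset.induction_on with
  | empty =>
    obtain ⟨t, ht0, ht⟩ := exists_uni E
    refine ⟨t⁻¹, inv_ne_zero ht0, by rw [oz_inv]; omega, fun E' hE' => absurd hE' (Finset.notMem_empty _)⟩
  | insert E'' T hE'' ih =>
    rw [Finset.mem_insert, not_or] at hT
    obtain ⟨a, ha0, ha1, ha2⟩ := ih hT.2
    obtain ⟨b, hb0, hb1, hb2⟩ := appr_sep2 hT.1
    obtain ⟨r, hr1, hr⟩ := appr_large T b
    have hr1' : (1 : ℤ) ≤ r := by exact_mod_cast hr1
    rcases le_or_gt 0 (oz E'' a) with h | h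
    · refine ⟨a ^ r * b, mul_ne_zero (pow_ne_zero _ ha0) hb0, ?_, ?_⟩
      · rw [oz_mul E (pow_ne_zero _ ha0) hb0, oz_pow]
        nlinarith
      · intro E' hE'
        rw [oz_mul E' (pow_ne_zero _ ha0) hb0, oz_pow]
        rcases Finset.mem_insert.1 hE' with rfl | hE'
        · nlinarith
        · have h1 := ha2 E' hE'
          have h2 := hr E' hE'
          nlinarith
    · have h0 : (1 + a ^ r) ≠ 0 := (appr_one_add_neg hr1 ha1).1
      have h3 : b * a ^ r ≠ 0 := mul_ne_zero hb0 (pow_ne_zero _ ha0)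
      refine ⟨b * a ^ r / (1 + a ^ r), div_ne_zero h3 h0, ?_, ?_⟩
      · rw [oz_div E h3 h0, oz_mul E hb0 (pow_ne_zero _ ha0), oz_pow, (appr_one_add_neg hr1 ha1).2]
        linarith
      · intro E' hE'
        rw [oz_div E' h3 h0, oz_mul E' hb0 (pow_ne_zero _ ha0), oz_pow]
        rcases Finset.mem_insert.1 hE' with rfl | hE'
        · rw [(appr_one_add_neg hr1 h).2]
          linarith
        · have h1 := ha2 E' hE'
          have h2 := hr E' hE'
          rw [(appr_one_add_pos hr1 h1).2]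
          nlinarith

private theorem appr_idem {E : Place K} (T : Finset (Place K)) (hT : E ∉ T) (n : ℕ) :
    ∃ e : K, ((n : ℤ) : WithTop ℤ) ≤ E.ord (e - 1) ∧ ∀ E' ∈ T, ((n : ℤ) : WithTop ℤ) ≤ E'.ord e := by
  obtain ⟨s, hs0, hs1, hs2⟩ := exists_sep T hT
  have hr : 1 ≤ n + 1 := by omega
  have h0 := appr_one_add_neg hr hs1
  have hc : (((n + 1 : ℕ)) : ℤ) = n + 1 := by push_cast; ring
  refine ⟨s ^ (n + 1) / (1 + s ^ (n + 1)), ?_, ?_⟩
  · have h1 : s ^ (n + 1) / (1 + s ^ (n + 1)) - 1 = -(1 + s ^ (n + 1))⁻¹ := by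
      have := h0.1
      field_simp
      ring
    rw [h1, le_ord_iff]
    right
    rw [oz_neg, oz_inv, h0.2, hc]
    nlinarith
  · intro E' hE'
    have h2 := hs2 E' hE'
    rw [le_ord_iff]
    right
    rw [oz_div E' (pow_ne_zero _ hs0) h0.1, oz_pow, (appr_one_add_pos hr h2).2, hc]
    nlinarith

/-- weak approximation -/
theorem approx (T : Finset (Place K)) (g : Place K → K) (n : ℤ) : ∃ f : K, ∀ E ∈ T, (n : WithTop ℤ) ≤ E.ord (f - g E) := by
  classical
  let N : ℕ := n.natAbs + ∑ E ∈ T, ∑ E' ∈ T, (oz E' (g E)).natAbs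
  have hN : ∀ E ∈ T, ∀ E' ∈ T, n - oz E' (g E) ≤ (N : ℤ) := by
    intro E hE E' hE'
    have h1 : (oz E' (g E)).natAbs ≤ ∑ E' ∈ T, (oz E' (g E)).natAbs :=
      Finset.single_le_sum (f := fun E' : Place K => (oz E' (g E)).natAbs) (fun _ _ => Nat.zero_le _) hE'
    have h2 : ∑ E' ∈ T, (oz E' (g E)).natAbs ≤ ∑ E ∈ T, ∑ E' ∈ T, (oz E' (g E)).natAbs :=
      Finset.single_le_sum (f := fun E : Place K => ∑ E' ∈ T, (oz E' (g E)).natAbs) (fun _ _ => Nat.zero_le _) hE
    have h3 : n.natAbs + (oz E' (g E)).natAbs ≤ N := Nat.add_le_add_left (h1.trans h2) _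
    omega
  have hex : ∀ E : Place K, ∃ e : K, ((N : ℤ) : WithTop ℤ) ≤ E.ord (e - 1) ∧
      ∀ E' ∈ T.erase E, ((N : ℤ) : WithTop ℤ) ≤ E'.ord e := fun E =>
    appr_idem (T.erase E) (Finset.notMem_erase E T) N
  choose e he1 he2 using hex
  have hmul : ∀ E ∈ T, ∀ E' ∈ T, ∀ x : K, ((N : ℤ) : WithTop ℤ) ≤ E'.ord x →
      (n : WithTop ℤ) ≤ E'.ord (g E * x) := by
    intro E hE E' hE' x hx
    rw [le_ord_iff] at hx ⊢
    by_cases hg : g E = 0
    · left; rw [hg, zero_mul]
    · rcases hx with hx | hx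
      · left; rw [hx, mul_zero]
      · by_cases hx0 : x = 0
        · left; rw [hx0, mul_zero]
        · right
          rw [oz_mul E' hg hx0]
          have := hN E hE E' hE'
          omega
  refine ⟨∑ E ∈ T, g E * e E, fun E' hE' => ?_⟩
  have h1 : (∑ E ∈ T, g E * e E) - g E' = g E' * (e E' - 1) + ∑ E ∈ T.erase E', g E * e E := by
    rw [← Finset.add_sum_erase T (fun E => g E * e E) hE']
    ring
  rw [h1]
  refine le_trans (le_min (hmul E' hE' E' hE' _ (he1 E')) ?_) (E'.ord.map_add _ _)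
  refine E'.ord.map_le_sum fun E hE => ?_
  exact hmul E (Finset.mem_of_mem_erase hE) E' hE' _
    (he2 E E' (Finset.mem_erase.2 ⟨(Finset.ne_of_mem_erase hE).symm, hE'⟩))

/-- functions with given orders at finitely many places -/
theorem exists_orders (T : Finset (Place K)) (d : Place K → ℤ) (hT : T.Nonempty) : ∃ f : K, f ≠ 0 ∧ ∀ E ∈ T, oz E f = d E := by
  classical
  choose t ht0 ht using fun E : Place K => exists_uni E
  obtain ⟨f, hf⟩ := approx T (fun E => t E ^ d E) (1 + ∑ E ∈ T, ((d E).natAbs : ℤ))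
  have key : ∀ E ∈ T, f ≠ 0 ∧ oz E f = d E := by
    intro E hE
    have h1 : ((d E).natAbs : ℤ) ≤ ∑ E ∈ T, ((d E).natAbs : ℤ) :=
      Finset.single_le_sum (f := fun E : Place K => ((d E).natAbs : ℤ)) (fun _ _ => by positivity) hE
    have h2 := hf E hE
    rw [le_ord_iff] at h2
    have h3 : t E ^ d E ≠ 0 := zpow_ne_zero _ (ht0 E)
    have h4 : oz E (t E ^ d E) = d E := by rw [oz_zpow, ht, mul_one]
    rcases h2 with h2 | h2
    · have h5 : f = t E ^ d E := sub_eq_zero.1 h2
      rw [h5]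
      exact ⟨h3, h4⟩
    · by_cases h6 : f - t E ^ d E = 0
      · have h5 : f = t E ^ d E := sub_eq_zero.1 h6
        rw [h5]
        exact ⟨h3, h4⟩
      · have h7 : oz E (t E ^ d E) < oz E (f - t E ^ d E) := by
          rw [h4]
          omega
        have h8 := oz_add_of_lt E h3 h6 h7
        rw [add_sub_cancel, h4] at h8
        exact h8
  obtain ⟨E0, hE0⟩ := hT
  exact ⟨f, (key E0 hE0).1, fun E hE => (key E hE).2⟩

end Pool.Agent.H13.CV

end
end

section

/-!
# CV Val: the value of a function at a place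

`exists_value`: let `0 ≤ ord f` and suppose that `0 < ord (f - c)` for no `c : ℂ`.  So `ord (f - c) = 0` for all `c` (it is `≥ 0`), in particular `f` is not a constant (`ord 0 = ⊤`), so `f` is
transcendental (`transcendental_of_not_const`).  Every non-zero polynomial in `f` is a constant times a product of factors `f - c` (`IsAlgClosed.splits`,
`Polynomial.Splits.aeval_eq_prod_aroots` or induction on the degree with a root), so it has order `0`; so all non-zero elements of `L = ℂ(f)` have order `0`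
(`IntermediateField.mem_adjoin_simple_iff`).  `K` is finite over `L` (`hK.fin`), so the uniformizer `t` (`oz E t = 1`) is algebraic over `L`; `t⁻¹` is also algebraic over `L`:
there is a monic polynomial `p` over `L` with `p (t⁻¹) = 0`, of degree `n > 0`.  `(t⁻¹) ^ n = - ∑ i < n, p_i (t⁻¹) ^ i` has order `- n`, but the right side has order `≥ - (n - 1)`: contradiction.

The other lemmas follow from `res_spec` and `res_eq` (uniqueness: `ord (c - c') > 0` with `c ≠ c'` contradicts `ord_const`).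
-/

set_option autoImplicit false

open Pool.Agent.H23.Fano (PrimeDivisorOver Form regularForms)

noncomputable section

namespace Pool.Agent.H13.CV

variable {K : Type} [Field K] [Algebra ℂ K] {E E' : Place K} {f g : K}

theorem exists_value (hK : CurveField K) (hf : 0 ≤ E.ord f) : ∃ c : ℂ, 0 < E.ord (f - algebraMap ℂ K c) := by
  by_contra hc
  push Not at hc
  have h0 : ∀ c : ℂ, E.ord (f - algebraMap ℂ K c) = 0 := fun c =>
    le_antisymm (hc c) (nonneg_sub hf (const_nonneg E c))
  have hne : ∀ c : ℂ, f ≠ algebraMap ℂ K c := by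
    intro c hfc
    have h1 := h0 c
    rw [hfc, sub_self, E.ord.map_zero] at h1
    exact WithTop.top_ne_zero h1
  have htr : Transcendental ℂ f := transcendental_of_not_const hne
  -- polynomials in `f` have order `0`
  have hA : ∀ (n : ℕ) (q : Polynomial ℂ), q ≠ 0 → q.natDegree = n → E.ord (Polynomial.aeval f q) = 0 := by
    intro n
    induction n with
    | zero =>
      intro q hq hn
      rw [Polynomial.eq_C_of_natDegree_eq_zero hn, Polynomial.aeval_C]
      refine ord_const E ?_
      intro h2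
      apply hq
      rw [Polynomial.eq_C_of_natDegree_eq_zero hn, h2, Polynomial.C_0]
    | succ n ih =>
      intro q hq hn
      obtain ⟨a, ha⟩ := IsAlgClosed.exists_root q (by
        intro h2
        have h3 : q.natDegree = 0 := Polynomial.natDegree_eq_zero_iff_degree_le_zero.2 (le_of_eq h2)
        omega)
      obtain ⟨q', hq'⟩ := Polynomial.dvd_iff_isRoot.2 ha
      have hq0 : q' ≠ 0 := by
        rintro rfl
        exact hq (by rw [hq', mul_zero])
      have hdeg : q'.natDegree = n := by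
        have h3 := congrArg Polynomial.natDegree hq'
        rw [Polynomial.natDegree_mul (Polynomial.X_sub_C_ne_zero a) hq0, Polynomial.natDegree_X_sub_C] at h3
        omega
      rw [hq', map_mul, E.ord.map_mul, ih q' hq0 hdeg, map_sub, Polynomial.aeval_X, Polynomial.aeval_C, h0 a,
        add_zero]
  -- elements of `ℂ(f)`
  have hB : ∀ l : K, l ∈ IntermediateField.adjoin ℂ {f} → l ≠ 0 → E.ord l = 0 := by
    intro l hl hl0
    obtain ⟨r, s, hrs⟩ := (IntermediateField.mem_adjoin_simple_iff ℂ l).1 hl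
    have hs : Polynomial.aeval f s ≠ 0 := by
      intro h2
      rw [h2, div_zero] at hrs
      exact hl0 hrs
    have hr : Polynomial.aeval f r ≠ 0 := by
      intro h2
      rw [h2, zero_div] at hrs
      exact hl0 hrs
    have hs' : s ≠ 0 := by
      rintro rfl
      exact hs (map_zero _)
    have hr' : r ≠ 0 := by
      rintro rfl
      exact hr (map_zero _)
    have h3 : l * Polynomial.aeval f s = Polynomial.aeval f r := by
      rw [hrs, div_mul_cancel₀ _ hs]
    have h4 := congrArg E.ord h3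
    rw [E.ord.map_mul, hA _ s hs' rfl, hA _ r hr' rfl, add_zero] at h4
    exact h4
  have := hK.fin f htr
  obtain ⟨t, ht0, ht⟩ := exists_uni E
  have hu0 : t⁻¹ ≠ 0 := inv_ne_zero ht0
  have hint : IsIntegral (IntermediateField.adjoin ℂ {f}) t⁻¹ := Algebra.IsIntegral.isIntegral t⁻¹
  obtain ⟨p, hp, hpe⟩ := hint
  have hoz : ∀ n : ℕ, E.ord (t⁻¹ ^ n) = ((-(n : ℤ) : ℤ) : WithTop ℤ) := by
    intro n
    rw [← coe_oz E (pow_ne_zero n hu0), oz_pow, oz_inv, ht]
    congr 1
    ring
  rw [Polynomial.eval₂_eq_sum_range, Finset.sum_range_succ, hp.coeff_natDegree, map_one, one_mul] at hpe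
  have h5 : t⁻¹ ^ p.natDegree = -∑ i ∈ Finset.range p.natDegree,
      (algebraMap (IntermediateField.adjoin ℂ {f}) K) (p.coeff i) * t⁻¹ ^ i := by
    rw [eq_neg_iff_add_eq_zero, add_comm]
    exact hpe
  have h6 : ((-((p.natDegree : ℤ) - 1) : ℤ) : WithTop ℤ) ≤ E.ord (∑ i ∈ Finset.range p.natDegree,
      (algebraMap (IntermediateField.adjoin ℂ {f}) K) (p.coeff i) * t⁻¹ ^ i) := by
    refine E.ord.map_le_sum fun i hi => ?_
    rw [Finset.mem_range] at hi
    by_cases hz : (algebraMap (IntermediateField.adjoin ℂ {f}) K) (p.coeff i) = 0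
    · rw [hz, zero_mul, E.ord.map_zero]
      exact le_top
    · have h7 : E.ord ((algebraMap (IntermediateField.adjoin ℂ {f}) K) (p.coeff i)) = 0 :=
        hB _ (p.coeff i).2 hz
      rw [E.ord.map_mul, h7, zero_add, hoz]
      rw [WithTop.coe_le_coe]
      omega
  have h8 := hoz p.natDegree
  rw [h5, E.ord.map_neg] at h8
  rw [h8, WithTop.coe_le_coe] at h6
  omega

theorem value_unique {c c' : ℂ} (h : 0 < E.ord (f - algebraMap ℂ K c)) (h' : 0 < E.ord (f - algebraMap ℂ K c')) : c = c' := by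
  by_contra hcc
  have h1 := pos_sub h' h
  have h2 : f - algebraMap ℂ K c' - (f - algebraMap ℂ K c) = algebraMap ℂ K (c - c') := by
    rw [map_sub]
    ring
  rw [h2, ord_const E (sub_ne_zero.2 hcc)] at h1
  exact lt_irrefl _ h1

theorem res_eq {c : ℂ} (h : 0 < E.ord (f - algebraMap ℂ K c)) : res E f = c := by
  classical
  have h1 : ∃ c : ℂ, 0 < E.ord (f - algebraMap ℂ K c) := ⟨c, h⟩
  unfold res
  rw [dif_pos h1]
  exact value_unique h1.choose_spec h

theorem res_spec (hK : CurveField K) (hf : 0 ≤ E.ord f) : 0 < E.ord (f - algebraMap ℂ K (res E f)) := by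
  obtain ⟨c, hc⟩ := exists_value hK hf
  rw [res_eq hc]
  exact hc

theorem res_const (E : Place K) (c : ℂ) : res E (algebraMap ℂ K c) = c := by
  refine res_eq ?_
  rw [sub_self, E.ord.map_zero]
  exact WithTop.coe_lt_top (0 : ℤ)

theorem res_zero (E : Place K) : res E (0 : K) = 0 := by
  have h := res_const E 0
  rwa [map_zero] at h

theorem res_add (hK : CurveField K) (hf : 0 ≤ E.ord f) (hg : 0 ≤ E.ord g) : res E (f + g) = res E f + res E g := by
  refine res_eq ?_
  have h : f + g - algebraMap ℂ K (res E f + res E g) =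
      (f - algebraMap ℂ K (res E f)) + (g - algebraMap ℂ K (res E g)) := by
    rw [map_add]
    ring
  rw [h]
  exact pos_add (res_spec hK hf) (res_spec hK hg)

theorem res_mul (hK : CurveField K) (hf : 0 ≤ E.ord f) (hg : 0 ≤ E.ord g) : res E (f * g) = res E f * res E g := by
  refine res_eq ?_
  have h : f * g - algebraMap ℂ K (res E f * res E g) =
      (f - algebraMap ℂ K (res E f)) * g + (g - algebraMap ℂ K (res E g)) * algebraMap ℂ K (res E f) := by
    rw [map_mul]
    ring
  rw [h]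
  exact pos_add (pos_mul (res_spec hK hf) hg) (pos_mul (res_spec hK hg) (const_nonneg E _))

theorem res_smul (hK : CurveField K) (c : ℂ) (hf : 0 ≤ E.ord f) : res E (c • f) = c * res E f := by
  rw [Algebra.smul_def, res_mul hK (const_nonneg E c) hf, res_const]

theorem res_sum (hK : CurveField K) {ι : Type*} {s : Finset ι} {F : ι → K} (h : ∀ i ∈ s, 0 ≤ E.ord (F i)) :
    res E (∑ i ∈ s, F i) = ∑ i ∈ s, res E (F i) := by
  classical
  induction s using Finset.induction_on with
  | empty => rw [Finset.sum_empty, Finset.sum_empty, res_zero]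
  | insert a s ha ih =>
    rw [Finset.sum_insert ha, Finset.sum_insert ha,
      res_add hK (h a (Finset.mem_insert_self a s)) (nonneg_sum fun i hi => h i (Finset.mem_insert_of_mem hi)),
      ih fun i hi => h i (Finset.mem_insert_of_mem hi)]

theorem res_eq_zero_iff (hK : CurveField K) (hf : 0 ≤ E.ord f) : res E f = 0 ↔ 0 < E.ord f := by
  constructor
  · intro h
    have h1 := res_spec hK hf
    rwa [h, map_zero, sub_zero] at h1
  · intro h
    refine res_eq ?_
    rwa [map_zero, sub_zero]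

end Pool.Agent.H13.CV

end
end

section

/-!
# MQ AJMul: the theorem of Abhyankar and Jung with multiplicities

The roots of a monic polynomial whose coefficients are holomorphic near `0` in `ℂ²` are holomorphic functions of `(x ^ (1 / n), y ^ (1 / n))`, if
the number of distinct roots is constant outside the axes.
-/

set_option autoImplicit false

open Topology Filter Metric

noncomputable section

namespace Pool.Agent.MQ.AJ

variable {d e : ℕ}

/-- the coefficients of the monic polynomial with the roots `l` -/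
theorem pv_coeff (l : Fin d → ℂ) (t : ℂ) : pv d (fun i => (mp l).coeff i) t = ∏ j, (t - l j) := by
  rw [← mp_eval, Polynomial.eval_eq_sum_range, mp_natDegree, Finset.sum_range_succ, ← Fin.sum_univ_eq_sum_range (fun i => (mp l).coeff i * t ^ i)]
  have h : (mp l).coeff d = 1 := by
    have := (mp_monic l).coeff_natDegree
    rwa [mp_natDegree] at this
  rw [h, pv]
  ring

/-- determinants of analytic matrices -/
theorem det_analytic {E : Type*} [NormedAddCommGroup E] [NormedSpace ℂ E] {A : E → Matrix (Fin e) (Fin e) ℂ} {x : E}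
    (h : ∀ i j, AnalyticAt ℂ (fun y => A y i j) x) : AnalyticAt ℂ (fun y => (A y).det) x := by
  have h1 : (fun y => (A y).det) = fun y => ∑ σ : Equiv.Perm (Fin e), ((Equiv.Perm.sign σ : ℤ) : ℂ) * ∏ i, A y (σ i) i := by
    funext y
    rw [Matrix.det_apply']
  rw [h1]
  refine Finset.analyticAt_fun_sum _ fun σ _ => analyticAt_const.mul ?_
  exact Finset.analyticAt_fun_prod _ fun i _ => h _ _

/-- the solution of a regular linear system is analytic -/
theorem solve_analytic {E : Type*} [NormedAddCommGroup E] [NormedSpace ℂ E] {A : E → Matrix (Fin e) (Fin e) ℂ} {b c : E → Fin e → ℂ} {x : E}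
    (hA : ∀ i j, AnalyticAt ℂ (fun y => A y i j) x) (hb : ∀ i, AnalyticAt ℂ (fun y => b y i) x) (hdet : (A x).det ≠ 0)
    (h : ∀ᶠ y in 𝓝 x, (A y).mulVec (c y) = b y) (i : Fin e) : AnalyticAt ℂ (fun y => c y i) x := by
  have hd := det_analytic hA
  have h1 : AnalyticAt ℂ (fun y => ((A y).updateCol i (b y)).det) x := by
    refine det_analytic fun k j => ?_
    rcases eq_or_ne j i with rfl | hj
    · simp only [Matrix.updateCol_self]
      exact hb k
    · simp only [Matrix.updateCol_ne hj]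
      exact hA k j
  refine (h1.div hd hdet).congr ?_
  filter_upwards [h, hd.continuousAt.eventually_ne hdet] with y hy hdy
  have h2 : (A y).cramer (b y) = (A y).det • c y := by
    rw [Matrix.cramer_eq_adjugate_mulVec, ← hy, Matrix.mulVec_mulVec, Matrix.adjugate_mul, Matrix.smul_mulVec, Matrix.one_mulVec]
  have h3 : ((A y).updateCol i (b y)).det = (A y).det * c y i := by
    rw [← Matrix.cramer_apply, h2]
    rfl
  show ((A y).updateCol i (b y)).det / (A y).det = c y i
  rw [h3, mul_div_cancel_left₀ _ hdy]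

/-- families of distinct numbers with the same product -/
theorem inj_of_prod {l m : Fin e → ℂ} (hm : Function.Injective m) (h : ∀ t, ∏ j, (t - l j) = ∏ j, (t - m j)) : Function.Injective l := by
  have hex : ∀ k, ∃ j, m k = l j := by
    intro k
    have h1 := h (m k)
    rw [Finset.prod_eq_zero (f := fun j => m k - m j) (Finset.mem_univ k) (sub_self _)] at h1
    obtain ⟨j, -, hj⟩ := Finset.prod_eq_zero_iff.1 h1
    exact ⟨j, sub_eq_zero.1 hj⟩
  choose s hs using hex
  have hsi : Function.Injective s := fun a b hab => hm (by rw [hs a, hs b, hab])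
  obtain ⟨-, hsu⟩ := Finite.injective_iff_bijective.1 hsi
  intro a b hab
  obtain ⟨a', rfl⟩ := hsu a
  obtain ⟨b', rfl⟩ := hsu b
  rw [← hs, ← hs] at hab
  rw [hm hab]

/-- the distinct roots -/
theorem exists_distinct {l : Fin d → ℂ} (h : (Finset.univ.image l).card = e) :
    ∃ m : Fin e → ℂ, Function.Injective m ∧ (∀ j, ∃ k, l j = m k) ∧ ∀ k, ∃ j, m k = l j := by
  classical
  let g := (Finset.univ.image l).equivFinOfCardEq h
  refine ⟨fun k => (g.symm k : ℂ), fun a b hab => g.symm.injective (Subtype.ext hab), fun j => ?_, fun k => ?_⟩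
  · refine ⟨g ⟨l j, Finset.mem_image_of_mem l (Finset.mem_univ j)⟩, ?_⟩
    simp
  · obtain ⟨j, -, hj⟩ := Finset.mem_image.1 (g.symm k).2
    exact ⟨j, hj.symm⟩

/-- multiplicities -/
def mu (l : Fin d → ℂ) (m : Fin e → ℂ) (k : Fin e) : ℕ := by
  classical exact (Finset.univ.filter fun j => l j = m k).card

theorem mu_pos {l : Fin d → ℂ} {m : Fin e → ℂ} (h : ∀ k, ∃ j, m k = l j) (k : Fin e) : 1 ≤ mu l m k := by
  classical
  obtain ⟨j, hj⟩ := h k
  exact Finset.card_pos.2 ⟨j, Finset.mem_filter.2 ⟨Finset.mem_univ j, hj.symm⟩⟩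

theorem prod_mu {l : Fin d → ℂ} {m : Fin e → ℂ} (hm : Function.Injective m) (h : ∀ j, ∃ k, l j = m k) (f : ℂ → ℂ) :
    ∏ j, f (l j) = ∏ k, f (m k) ^ mu l m k := by
  classical
  choose s hs using h
  rw [← Finset.prod_fiberwise_of_maps_to (s := Finset.univ) (t := Finset.univ) (g := s) (fun _ _ => Finset.mem_univ _)]
  refine Finset.prod_congr rfl fun k _ => ?_
  have h1 : (Finset.univ.filter fun j => s j = k) = Finset.univ.filter fun j => l j = m k := by
    refine Finset.filter_congr fun j _ => ?_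
    rw [hs j]
    exact ⟨fun h => by rw [h], fun h => hm h⟩
  have h2 : ∏ j ∈ Finset.univ.filter (fun j => s j = k), f (l j) = ∏ j ∈ Finset.univ.filter (fun j => s j = k), f (m k) := by
    refine Finset.prod_congr rfl fun j hj => ?_
    rw [hs j, (Finset.mem_filter.1 hj).2]
  rw [h2, Finset.prod_const, h1]
  rfl

theorem sum_mu {l : Fin d → ℂ} {m : Fin e → ℂ} (hm : Function.Injective m) (h : ∀ j, ∃ k, l j = m k) (f : ℂ → ℂ) :
    ∑ j, f (l j) = ∑ k, (mu l m k : ℂ) * f (m k) := by
  classical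
  choose s hs using h
  rw [← Finset.sum_fiberwise_of_maps_to (s := Finset.univ) (t := Finset.univ) (g := s) (fun _ _ => Finset.mem_univ _)]
  refine Finset.sum_congr rfl fun k _ => ?_
  have h1 : (Finset.univ.filter fun j => s j = k) = Finset.univ.filter fun j => l j = m k := by
    refine Finset.filter_congr fun j _ => ?_
    rw [hs j]
    exact ⟨fun h => by rw [h], fun h => hm h⟩
  have h2 : ∑ j ∈ Finset.univ.filter (fun j => s j = k), f (l j) = ∑ j ∈ Finset.univ.filter (fun j => s j = k), f (m k) := by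
    refine Finset.sum_congr rfl fun j hj => ?_
    rw [hs j, (Finset.mem_filter.1 hj).2]
  rw [h2, Finset.sum_const, h1, nsmul_eq_mul]
  rfl

/-- the Hankel matrix of the power sums -/
theorem hankel_eq {l : Fin d → ℂ} {m : Fin e → ℂ} (hm : Function.Injective m) (h : ∀ j, ∃ k, l j = m k) :
    (Matrix.of fun i j : Fin e => ∑ k, l k ^ ((i : ℕ) + j)) = (Matrix.vandermonde m).transpose * Matrix.diagonal (fun k => (mu l m k : ℂ)) * Matrix.vandermonde m := by
  ext i j
  rw [Matrix.of_apply, sum_mu hm h (fun t => t ^ ((i : ℕ) + j)), Matrix.mul_apply]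
  refine Finset.sum_congr rfl fun k _ => ?_
  rw [Matrix.mul_diagonal, Matrix.transpose_apply, Matrix.vandermonde_apply, Matrix.vandermonde_apply, pow_add]
  ring

theorem hankel_det {l : Fin d → ℂ} {m : Fin e → ℂ} (hm : Function.Injective m) (h : ∀ j, ∃ k, l j = m k) (h' : ∀ k, ∃ j, m k = l j) :
    (Matrix.of fun i j : Fin e => ∑ k, l k ^ ((i : ℕ) + j)).det ≠ 0 := by
  rw [hankel_eq hm h, Matrix.det_mul, Matrix.det_mul, Matrix.det_transpose, Matrix.det_diagonal]
  have h1 : (Matrix.vandermonde m).det ≠ 0 := Matrix.det_vandermonde_ne_zero_iff.2 hm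
  have h2 : ∏ k, (mu l m k : ℂ) ≠ 0 := by
    rw [Finset.prod_ne_zero_iff]
    intro k _
    exact_mod_cast (Nat.one_le_iff_ne_zero.1 (mu_pos h' k))
  exact mul_ne_zero (mul_ne_zero h1 h2) h1

theorem hankel_solve {l : Fin d → ℂ} {m : Fin e → ℂ} (_hm : Function.Injective m) (h : ∀ j, ∃ k, l j = m k) :
    (Matrix.of fun i j : Fin e => ∑ k, l k ^ ((i : ℕ) + j)).mulVec (fun i : Fin e => (mp m).coeff i) = fun i : Fin e => -∑ k, l k ^ ((i : ℕ) + e) := by
  funext i
  rw [Matrix.mulVec, dotProduct]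
  simp only [Matrix.of_apply]
  rw [eq_neg_iff_add_eq_zero]
  have h1 : ∀ k, l k ^ ((i : ℕ)) * (pv e (fun i : Fin e => (mp m).coeff i) (l k)) = 0 := by
    intro k
    obtain ⟨j, hj⟩ := h k
    rw [pv_coeff, Finset.prod_eq_zero (Finset.mem_univ j) (by rw [hj, sub_self]), mul_zero]
  calc (∑ j : Fin e, (∑ k, l k ^ ((i : ℕ) + j)) * (mp m).coeff j) + ∑ k, l k ^ ((i : ℕ) + e)
      = ∑ k, l k ^ ((i : ℕ)) * (pv e (fun i : Fin e => (mp m).coeff i) (l k)) := by
        have h2 : ∑ j : Fin e, (∑ k, l k ^ ((i : ℕ) + j)) * (mp m).coeff j = ∑ k, ∑ j : Fin e, l k ^ ((i : ℕ) + j) * (mp m).coeff j := by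
          rw [Finset.sum_comm]
          exact Finset.sum_congr rfl fun j _ => by rw [Finset.sum_mul]
        rw [h2, ← Finset.sum_add_distrib]
        refine Finset.sum_congr rfl fun k _ => ?_
        rw [pv, mul_add, Finset.mul_sum, pow_add, add_comm]
        congr 1
        exact Finset.sum_congr rfl fun j _ => by rw [pow_add]; ring
    _ = 0 := Finset.sum_eq_zero fun k _ => h1 k

end Pool.Agent.MQ.AJ

end
end

section

/-!
# MQ AJPs: the power sums of the roots are holomorphic functions of the coefficients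
-/

set_option autoImplicit false

open Topology Filter

noncomputable section

namespace Pool.Agent.MQ.AJ

variable {d : ℕ}

/-- the elementary symmetric functions of the roots -/
theorem exists_esymm (k : ℕ) : ∃ E : (Fin d → ℂ) → ℂ, (∀ p, AnalyticAt ℂ E p) ∧
    ∀ p l, (∀ t, pv d p t = ∏ j, (t - l j)) → MvPolynomial.aeval l (MvPolynomial.esymm (Fin d) ℂ k) = E p := by
  rcases Nat.eq_zero_or_pos k with rfl | hk
  · refine ⟨fun _ => 1, fun _ => analyticAt_const, fun p l _ => ?_⟩
    simp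
  by_cases hkd : k ≤ d
  · refine ⟨fun p => (-1) ^ k * p ⟨d - k, by omega⟩, fun p => analyticAt_const.mul
      ((ContinuousLinearMap.proj (R := ℂ) (φ := fun _ : Fin d => ℂ) ⟨d - k, by omega⟩).analyticAt p), fun p l h => ?_⟩
    have h1 : mp l = pp p := by
      refine monic_eq (mp_monic l) (pp_monic p) (mp_natDegree l) (pp_natDegree p) fun i => ?_
      rw [mp_eval, pp_eval, h]
    have h2 : (pp p).coeff (d - k) = p ⟨d - k, by omega⟩ := by
      rw [pp, Polynomial.coeff_add, Polynomial.coeff_X_pow, if_neg (by omega), zero_add, Polynomial.finsetSum_coeff,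
        Finset.sum_eq_single (⟨d - k, by omega⟩ : Fin d)]
      · simp
      · intro i _ hi
        rw [Polynomial.coeff_C_mul, Polynomial.coeff_X_pow, if_neg, mul_zero]
        intro h3
        exact hi (Fin.ext h3.symm)
      · intro h3
        exact absurd (Finset.mem_univ _) h3
    have h3 := Multiset.prod_X_sub_C_coeff ((Finset.univ : Finset (Fin d)).val.map l) (k := d - k) (by simp)
    have h4 : (((Finset.univ : Finset (Fin d)).val.map l).map fun t => Polynomial.X - Polynomial.C t).prod = mp l := by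
      rw [Multiset.map_map, mp]
      rfl
    have h5 : Multiset.card ((Finset.univ : Finset (Fin d)).val.map l) = d := by simp
    rw [h4, h1, h2, h5, show d - (d - k) = k by omega] at h3
    rw [MvPolynomial.aeval_esymm_eq_multiset_esymm]
    show _ = (-1) ^ k * p ⟨d - k, by omega⟩
    rw [h3, ← mul_assoc, ← mul_pow]
    norm_num
  · refine ⟨fun _ => 0, fun _ => analyticAt_const, fun p l _ => ?_⟩
    rw [MvPolynomial.aeval_esymm_eq_multiset_esymm, Multiset.esymm, Multiset.powersetCard_eq_empty]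
    · simp
    · simpa using hkd

/-- the power sums of the roots -/
theorem exists_psum (k : ℕ) : ∃ S : (Fin d → ℂ) → ℂ, (∀ p, AnalyticAt ℂ S p) ∧
    ∀ (p l : Fin d → ℂ), (∀ t, pv d p t = ∏ j, (t - l j)) → ∑ j, l j ^ k = S p := by
  have hps : ∀ (l : Fin d → ℂ) (k : ℕ), MvPolynomial.aeval l (MvPolynomial.psum (Fin d) ℂ k) = ∑ j, l j ^ k := by
    intro l k
    simp [MvPolynomial.psum]
  induction k using Nat.strong_induction_on with
  | _ k ih =>
  rcases Nat.eq_zero_or_pos k with rfl | hk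
  · exact ⟨fun _ => d, fun _ => analyticAt_const, fun p l _ => by simp⟩
  · have ih' : ∀ m : ℕ, ∃ S : (Fin d → ℂ) → ℂ, m < k → (∀ p, AnalyticAt ℂ S p) ∧ ∀ (p l : Fin d → ℂ), (∀ t, pv d p t = ∏ j, (t - l j)) → ∑ j, l j ^ m = S p := by
      intro m
      by_cases hm : m < k
      · obtain ⟨S, h1, h2⟩ := ih m hm
        exact ⟨S, fun _ => ⟨h1, h2⟩⟩
      · exact ⟨0, fun h => absurd h hm⟩
    choose S hS using ih'
    choose E hEa hE using fun k => exists_esymm (d := d) k
    refine ⟨fun p => (-1) ^ (k + 1) * k * E k p - ∑ a ∈ (Finset.HasAntidiagonal.antidiagonal k : Finset (ℕ × ℕ)).filter (fun a => a.1 ∈ Set.Ioo 0 k), (-1) ^ a.1 * E a.1 p * S a.2 p, fun p => ?_, fun p l h => ?_⟩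
    · refine (analyticAt_const.mul (hEa k p)).sub (Finset.analyticAt_fun_sum _ fun a ha => ?_)
      simp only [Finset.mem_filter, Finset.HasAntidiagonal.mem_antidiagonal, Set.mem_Ioo] at ha
      exact (analyticAt_const.mul (hEa a.1 p)).mul ((hS a.2 (by omega)).1 p)
    · rw [← hps, MvPolynomial.psum_eq_mul_esymm_sub_sum (Fin d) ℂ k hk, map_sub, map_mul, map_sum, hE k p l h]
      congr 1
      · simp
      · refine Finset.sum_congr rfl fun a ha => ?_
        simp only [Finset.mem_filter, Finset.HasAntidiagonal.mem_antidiagonal, Set.mem_Ioo] at ha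
        rw [map_mul, map_mul, hE a.1 p l h, hps, (hS a.2 (by omega)).2 p l h]
        simp

end Pool.Agent.MQ.AJ

end
end
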