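import Pool.Agent.H94.G6.H68.KR.Ch
import Pool.Agent.H94.G6.M08
import Pool.Agent.H94.G6.M13
import Pool.Agent.H94.G6.M17
import Pool.Agent.H94.G6.M26
import Pool.Agent.H94.G6.M29
import Pool.Agent.H94.G6.M31
import Pool.Agent.H94.G6.M54

/-! The parts of this file: H14.PP.Cover, H62.EF.Comp, H68.KR.GL, H7.Bir.Map_1, MQ3.Hank. -/

section

/-!
# BPm Cover: a finite atlas near `T`

`S = {x ∈ X | ‖x‖ = 1}` is compact (`insert 0 X` is closed, `EN N` is proper);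
`T ∩ S = {x ∈ S | Q x = 0}` is compact. For `x ∈ T ∩ S` take the chart `χ_x` given by `IsNodal`; the
set `{y ∈ χ_x.U | ‖q y‖ < 1/2}` is open and contains `x`. Finitely many of them, with charts `χ i`,
cover `T ∩ S`. The set of `x ∈ S` outside all these open sets is compact and does not meet `T`, so
`rho Q D` (continuous, positive there) is at least `δ' > 0` on it; `δ = δ'/2`. For general `x ∈ X`
use `x/‖x‖ ∈ S`: `rho`, `U` and `q` are invariant under scaling (`rho_smul`, `smul_U`, `q_smul`).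
-/

open Topology Filter Metric

namespace Pool.Agent.H14.PP

open Pool.Agent.H36.BP

variable {N : ℕ} {W : Type*} [NormedAddCommGroup W] [InnerProductSpace ℂ W]
  {X K T : Set (EN N)} {Q : EN N → W} {D : ℕ}

private theorem Cover_compact (hX : IsCone X) : IsCompact {x : EN N | x ∈ X ∧ ‖x‖ = 1} := by
  have h1 : {x : EN N | x ∈ X ∧ ‖x‖ = 1} = insert 0 X ∩ sphere (0 : EN N) 1 := by
    ext x
    simp only [Set.mem_ofPred_eq, Set.mem_inter_iff, Set.mem_insert_iff, mem_sphere_zero_iff_norm]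
    constructor
    · rintro ⟨h1, h2⟩
      exact ⟨Or.inr h1, h2⟩
    · rintro ⟨h1 | h1, h2⟩
      · rw [h1, norm_zero] at h2
        exact absurd h2 zero_ne_one
      · exact ⟨h1, h2⟩
  rw [h1, Set.inter_comm]
  exact (isCompact_sphere _ _).inter_right hX.closed

private theorem Cover_open (χ : Chart X) : IsOpen {y : EN N | y ∈ χ.U ∧ ‖χ.q y‖ < 1 / 2} := by
  rw [isOpen_iff_mem_nhds]
  rintro y ⟨hy1, hy2⟩
  filter_upwards [χ.isOpen_U.mem_nhds hy1,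
    (χ.q_an y hy1).continuousAt.norm.eventually_lt_const hy2] with z hz1 hz2
  exact ⟨hz1, hz2⟩

theorem exists_atlas (hX : IsCone X) (hQ : IsEq X T Q D) (hT : IsNodal X K T) :
    ∃ (n : ℕ) (χ : Fin n → Chart X) (nd : Fin n → Bool) (d : Fin n → Bool × Bool),
      (∀ i, HasType T (χ i) (nd i)) ∧ (∀ i, DType K (χ i) (d i)) ∧
      (∀ i, (d i).2 = true → nd i = true) ∧
      ∃ δ : ℝ, 0 < δ ∧ ∀ x ∈ X, rho Q D x ≤ δ → ∃ i, x ∈ (χ i).U ∧ ‖(χ i).q x‖ < 1 / 2 := by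
  classical
  obtain ⟨S, hS⟩ : ∃ S : Set (EN N), S = {x : EN N | x ∈ X ∧ ‖x‖ = 1} := ⟨_, rfl⟩
  have hSc : IsCompact S := by rw [hS]; exact Cover_compact hX
  have hQc : Continuous Q := continuous_iff_continuousAt.mpr fun x => (hQ.analytic x).continuousAt
  have hTc : IsCompact (S ∩ {x | Q x = 0}) :=
    hSc.inter_right (isClosed_eq hQc continuous_const)
  have hTS : ∀ x ∈ S ∩ {x | Q x = 0}, x ∈ T := by
    rintro x ⟨hx1, hx2⟩
    rw [hS] at hx1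
    exact (hQ.mem_iff x).mpr ⟨hx1.1, hx2⟩
  -- the charts
  choose χ nd d hU h0 hty hdt hdn using hT
  obtain ⟨O, hO⟩ : ∃ O : (x : EN N) → x ∈ S ∩ {x | Q x = 0} → Set (EN N),
      ∀ x hx, O x hx = {y | y ∈ (χ x (hTS x hx)).U ∧ ‖(χ x (hTS x hx)).q y‖ < 1 / 2} :=
    ⟨_, fun _ _ => rfl⟩
  have hOn : ∀ x (hx : x ∈ S ∩ {x | Q x = 0}), O x hx ∈ 𝓝 x := by
    intro x hx
    rw [hO]
    refine (Cover_open _).mem_nhds ⟨hU x (hTS x hx), ?_⟩
    rw [h0 x (hTS x hx), norm_zero]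
    norm_num
  obtain ⟨t, ht⟩ := hTc.elim_nhds_subcover' O hOn
  -- enumerate the finite set
  obtain ⟨n, e⟩ : ∃ n : ℕ, Nonempty (Fin n ≃ t) := ⟨t.card, ⟨t.equivFin.symm⟩⟩
  obtain ⟨e⟩ := e
  refine ⟨n, fun i => χ _ (hTS _ (e i).1.2), fun i => nd _ (hTS _ (e i).1.2),
    fun i => d _ (hTS _ (e i).1.2), fun i => hty _ _, fun i => hdt _ _, fun i => hdn _ _, ?_⟩
  -- the rest of the sphere
  obtain ⟨R, hR⟩ : ∃ R : Set (EN N), R = S \ ⋃ x ∈ t, O x.1 x.2 := ⟨_, rfl⟩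
  have hRc : IsCompact R := by
    rw [hR]
    refine hSc.diff (isOpen_biUnion fun x _ => ?_)
    rw [hO]
    exact Cover_open _
  have hpos : ∀ x ∈ R, 0 < rho Q D x := by
    intro x hx
    rw [hR] at hx
    have hxS : x ∈ X ∧ ‖x‖ = 1 := by
      have := hx.1
      rwa [hS] at this
    refine lt_of_le_of_ne (rho_nonneg _ _ _) fun h => ?_
    have hQ0 : Q x = 0 := (rho_eq_zero_iff (hX.ne_zero hxS.1)).mp h.symm
    exact hx.2 (ht ⟨hx.1, hQ0⟩)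
  have hcont : ContinuousOn (rho Q D) R := by
    intro x hx
    rw [hR] at hx
    have hxS : x ∈ X ∧ ‖x‖ = 1 := by
      have := hx.1
      rwa [hS] at this
    exact (continuousAt_rho hQ.analytic (hX.ne_zero hxS.1)).continuousWithinAt
  obtain ⟨δ, hδ, hδR⟩ : ∃ δ : ℝ, 0 < δ ∧ ∀ x ∈ R, δ < rho Q D x := by
    rcases R.eq_empty_or_nonempty with he | hne
    · exact ⟨1, one_pos, fun x hx => by rw [he] at hx; exact absurd hx (Set.notMem_empty x)⟩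
    · obtain ⟨x₀, hx₀, hmin⟩ := hRc.exists_isMinOn hne hcont
      have h1 := hpos x₀ hx₀
      refine ⟨rho Q D x₀ / 2, by linarith, fun x hx => ?_⟩
      have h2 : rho Q D x₀ ≤ rho Q D x := hmin hx
      linarith
  refine ⟨δ, hδ, fun x hx hle => ?_⟩
  have hx0 : x ≠ 0 := hX.ne_zero hx
  have hn : (0 : ℝ) < ‖x‖ := norm_pos_iff.mpr hx0
  obtain ⟨c, hc⟩ : ∃ c : ℂ, c = ((‖x‖ : ℂ))⁻¹ := ⟨_, rfl⟩
  have hc0 : c ≠ 0 := by
    rw [hc]
    exact inv_ne_zero (by exact_mod_cast hn.ne')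
  have hyS : c • x ∈ S := by
    rw [hS]
    refine ⟨hX.smul_mem x hx c hc0, ?_⟩
    rw [norm_smul, hc, norm_inv, Complex.norm_real, norm_norm, inv_mul_cancel₀ hn.ne']
  have hy : c • x ∉ R := by
    intro hyR
    have h1 := hδR _ hyR
    rw [rho_smul hQ.smul hc0] at h1
    linarith
  have hy2 : c • x ∈ ⋃ x ∈ t, O x.1 x.2 := by
    by_contra hcon
    exact hy (by rw [hR]; exact ⟨hyS, hcon⟩)
  rw [Set.mem_iUnion₂] at hy2
  obtain ⟨z, hz, hz2⟩ := hy2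
  rw [hO] at hz2
  obtain ⟨hz3, hz4⟩ := hz2
  have hxU : x ∈ (χ z.1 (hTS z.1 z.2)).U := by
    have h1 := (χ z.1 (hTS z.1 z.2)).smul_U _ hz3 c⁻¹ (inv_ne_zero hc0)
    rwa [smul_smul, inv_mul_cancel₀ hc0, one_smul] at h1
  refine ⟨e.symm ⟨z, hz⟩, ?_⟩
  have h2 : e (e.symm ⟨z, hz⟩) = ⟨z, hz⟩ := e.apply_symm_apply _
  have h3 : (e (e.symm ⟨z, hz⟩)).1 = z := by rw [h2]
  have h4 : χ (e (e.symm ⟨z, hz⟩)).1.1 (hTS _ (e (e.symm ⟨z, hz⟩)).1.2) =
      χ z.1 (hTS z.1 z.2) := by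
    rw [h3]
  show x ∈ (χ (e (e.symm ⟨z, hz⟩)).1.1 (hTS _ (e (e.symm ⟨z, hz⟩)).1.2)).U ∧
    ‖(χ (e (e.symm ⟨z, hz⟩)).1.1 (hTS _ (e (e.symm ⟨z, hz⟩)).1.2)).q x‖ < 1 / 2
  rw [h4]
  refine ⟨hxU, ?_⟩
  rwa [(χ z.1 (hTS z.1 z.2)).q_smul x hxU c hc0] at hz4

end Pool.Agent.H14.PP

end

section

/-!
# EF Comp: comparison of the distance with a determinant

Suppose the claim is false for `η > 0`: there are `p n ∈ P₀`, `q n ∈ W`, `q n ≠ p n`, `‖q n - p n‖ → 0`, `υ (q n) = υ (p n)`, and `ξ n`, `‖ξ n‖ ≤ L`,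
`dυ_{p n} (ξ n) = 1` such that one of the two inequalities fails.  Let `t n = ‖q n - p n‖`, `e n = (q n - p n) / t n` (a unit vector).  Along an
ultrafilter (`hyperfilter ℕ`): `p n → p ∈ P₀`, `q n → p`, `e n → e`, `‖e‖ = 1`, `ξ n → ξ`, `dυ_p ξ = 1` (`fderiv ℂ υ` is continuous at `p`, `υ` is
analytic near `p`).  By strict differentiability (`AnalyticAt.hasStrictFDerivAt`) `(σ (q n) - σ (p n)) / t n → dσ_p e` and
`0 = (υ (q n) - υ (p n)) / t n → dυ_p e`.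
Write `a = grd υ p = (-∂₂υ, ∂₁υ)`; `dυ_p a = 0`, `dυ_p ≠ 0`, so `e = λ a` with `λ ≠ 0` (both are in the kernel of `dυ_p`, of dimension `1`, `e ≠ 0`, `a ≠ 0`).
* `A n = ‖det2 (q n - p n) (ξ n)‖ / t n → ‖det2 e ξ‖ = ‖λ‖ ‖det2 a ξ‖ = ‖λ‖ ‖dυ_p ξ‖ = ‖λ‖`.
* `B n = (wd (σ (p n)) (σ (q n)) / (‖σ (p n)‖ ‖σ (q n)‖)) ‖σ (p n)‖² / wd (σ (p n)) (dσ_{p n} (grd υ (p n))) / t n`.  As `wd x y = wd x (y - x)` and
  `wd x (s y) = s wd x y` for real `s > 0` (`wd_sq` or the formulas of `H36/BP/WdA.lean`), and `wd` is continuous,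
  `B n → wd (σ p) (dσ_p e) / wd (σ p) (dσ_p a) = ‖λ‖`.
So `B n / A n → 1`, and both inequalities hold for almost all `n`: contradiction.
-/

set_option autoImplicit false

open Topology Filter Metric

namespace Pool.Agent.H62.EF

open Pool.Agent.H36.BP (EN fs wd)

variable {N : ℕ}

/-- the divided difference along an ultrafilter -/
private theorem Comp_div {V : Type*} [NormedAddCommGroup V] [NormedSpace ℂ V] {G : ℂ × ℂ → V} {G' : ℂ × ℂ →L[ℂ] V} {P E : ℂ × ℂ}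
    (hG : HasStrictFDerivAt G G' P) {l : Filter ℕ} {p q : ℕ → ℂ × ℂ} (hp : Tendsto p l (𝓝 P)) (hq : Tendsto q l (𝓝 P))
    (hE : Tendsto (fun n => (((‖q n - p n‖ : ℝ) : ℂ)⁻¹) • (q n - p n)) l (𝓝 E)) :
    Tendsto (fun n => (((‖q n - p n‖ : ℝ) : ℂ)⁻¹) • (G (q n) - G (p n))) l (𝓝 (G' E)) := by
  have h1 : (fun x : (ℂ × ℂ) × (ℂ × ℂ) => G x.1 - G x.2 - G' (x.1 - x.2)) =o[𝓝 (P, P)] fun x => x.1 - x.2 := hG.isLittleO
  have h2 : Tendsto (fun n => (q n, p n)) l (𝓝 (P, P)) := hq.prodMk_nhds hp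
  have h3 : (fun n => G (q n) - G (p n) - G' (q n - p n)) =o[l] fun n => q n - p n := h1.comp_tendsto h2
  have h4 : (fun n => G (q n) - G (p n) - G' (q n - p n)) =o[l] fun n => ((‖q n - p n‖ : ℝ) : ℂ) := by
    refine h3.trans_isBigO ?_
    refine Asymptotics.IsBigO.of_bound 1 (Eventually.of_forall fun n => ?_)
    rw [Complex.norm_real, norm_norm, one_mul]
  have h5 := h4.tendsto_inv_smul_nhds_zero
  have h6 : Tendsto (fun n => G' ((((‖q n - p n‖ : ℝ) : ℂ)⁻¹) • (q n - p n))) l (𝓝 (G' E)) :=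
    (G'.continuous.tendsto E).comp hE
  have h7 := h5.add h6
  rw [zero_add] at h7
  refine h7.congr fun n => ?_
  rw [map_smul, ← smul_add]
  congr 1
  abel

private theorem Comp_wd_sub (x y : EN N) : wd x y = wd x (y - x) := by
  have h := Pool.Agent.H36.BP.wd_inv x y 1 (-1)
  rw [one_smul, one_smul, norm_one, neg_one_smul, ← sub_eq_add_neg] at h
  rw [h]
  ring

private theorem Comp_grd {υ : ℂ × ℂ → ℂ} {P : ℂ × ℂ} (h : fderiv ℂ υ P ≠ 0) : grd υ P ≠ 0 := by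
  intro h0
  apply h
  have h1 : fderiv ℂ υ P (0, 1) = 0 := by
    have := congrArg Prod.fst h0
    simpa [grd] using this
  have h2 : fderiv ℂ υ P (1, 0) = 0 := by
    have := congrArg Prod.snd h0
    simpa [grd] using this
  ext
  · simpa using h2
  · simpa using h1

private theorem Comp_apply (L : ℂ × ℂ →L[ℂ] ℂ) (v : ℂ × ℂ) : L v = v.1 * L (1, 0) + v.2 * L (0, 1) := by
  have h : v = v.1 • ((1 : ℂ), (0 : ℂ)) + v.2 • ((0 : ℂ), (1 : ℂ)) := by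
    ext <;> simp
  conv_lhs => rw [h]
  rw [map_add, map_smul, map_smul, smul_eq_mul, smul_eq_mul]

private theorem Comp_ker {υ : ℂ × ℂ → ℂ} {P E : ℂ × ℂ} (h : fderiv ℂ υ P ≠ 0) (hE : fderiv ℂ υ P E = 0) : ∃ c : ℂ, E = c • grd υ P := by
  have h0 := Comp_grd h
  rw [Comp_apply] at hE
  by_cases h1 : fderiv ℂ υ P (1, 0) = 0
  · have h2 : fderiv ℂ υ P (0, 1) ≠ 0 := by
      intro h2
      apply h0
      rw [grd, h1, h2]
      simp
    refine ⟨-(E.1 / fderiv ℂ υ P (0, 1)), ?_⟩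
    rw [h1] at hE
    have h3 : E.2 = 0 := by
      have h4 : E.2 * fderiv ℂ υ P (0, 1) = 0 := by linear_combination hE
      exact (mul_eq_zero.mp h4).resolve_right h2
    ext
    · simp only [grd, Prod.smul_fst, smul_eq_mul]
      field_simp
    · simp only [grd, Prod.smul_snd, smul_eq_mul, h1, h3]
      ring
  · refine ⟨E.2 / fderiv ℂ υ P (1, 0), ?_⟩
    ext
    · simp only [grd, Prod.smul_fst, smul_eq_mul]
      field_simp
      linear_combination hE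
    · simp only [grd, Prod.smul_snd, smul_eq_mul]
      field_simp

private theorem Comp_det (υ : ℂ × ℂ → ℂ) (P : ℂ × ℂ) (c : ℂ) (ξ : ℂ × ℂ) : det2 (c • grd υ P) ξ = -(c * fderiv ℂ υ P ξ) := by
  rw [Comp_apply (fderiv ℂ υ P) ξ]
  simp only [det2, grd, Prod.smul_fst, Prod.smul_snd, smul_eq_mul]
  ring

private theorem Comp_det_smul (s : ℂ) (a ξ : ℂ × ℂ) : det2 (s • a) ξ = s * det2 a ξ := by
  simp only [det2, Prod.smul_fst, Prod.smul_snd, smul_eq_mul]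
  ring

private theorem Comp_clm {V : Type*} [NormedAddCommGroup V] [NormedSpace ℂ V] {l : Filter ℕ} {A : ℕ → ℂ × ℂ →L[ℂ] V} {A₀ : ℂ × ℂ →L[ℂ] V}
    {v : ℕ → ℂ × ℂ} {v₀ : ℂ × ℂ} (hA : Tendsto A l (𝓝 A₀)) (hv : Tendsto v l (𝓝 v₀)) : Tendsto (fun n => A n (v n)) l (𝓝 (A₀ v₀)) := by
  have h1 : Continuous (fun x : (ℂ × ℂ →L[ℂ] V) × (ℂ × ℂ) => x.1 x.2) := isBoundedBilinearMap_apply.continuous
  exact (h1.tendsto (A₀, v₀)).comp (hA.prodMk_nhds hv)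

private theorem Comp_detc {l : Filter ℕ} {a b : ℕ → ℂ × ℂ} {a₀ b₀ : ℂ × ℂ} (ha : Tendsto a l (𝓝 a₀)) (hb : Tendsto b l (𝓝 b₀)) :
    Tendsto (fun n => ‖det2 (a n) (b n)‖) l (𝓝 ‖det2 a₀ b₀‖) := by
  have h1 : Tendsto (fun n => (a n).1) l (𝓝 a₀.1) := (continuous_fst.tendsto a₀).comp ha
  have h2 : Tendsto (fun n => (a n).2) l (𝓝 a₀.2) := (continuous_snd.tendsto a₀).comp ha
  have h3 : Tendsto (fun n => (b n).1) l (𝓝 b₀.1) := (continuous_fst.tendsto b₀).comp hb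
  have h4 : Tendsto (fun n => (b n).2) l (𝓝 b₀.2) := (continuous_snd.tendsto b₀).comp hb
  unfold det2
  exact ((h1.mul h4).sub (h2.mul h3)).norm

private theorem Comp_wdc {l : Filter ℕ} {a b : ℕ → EN N} {a₀ b₀ : EN N} (ha : Tendsto a l (𝓝 a₀)) (hb : Tendsto b l (𝓝 b₀)) :
    Tendsto (fun n => wd (a n) (b n)) l (𝓝 (wd a₀ b₀)) := by
  unfold wd
  exact (((ha.norm.pow 2).mul (hb.norm.pow 2)).sub ((ha.inner hb).norm.pow 2)).sqrt

/-- the two inequalities hold along an ultrafilter -/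
private theorem Comp_key {W : Set (ℂ × ℂ)} {σ : ℂ × ℂ → EN N} {υ : ℂ × ℂ → ℂ}
    (hσ : ∀ p ∈ W, AnalyticAt ℂ σ p) (hυ : ∀ p ∈ W, AnalyticAt ℂ υ p) (hσ0 : ∀ p ∈ W, σ p ≠ 0)
    (himm : ∀ p ∈ W, ∀ e : ℂ × ℂ, e ≠ 0 → 0 < wd (σ p) (fderiv ℂ σ p e)) (hdυ : ∀ p ∈ W, fderiv ℂ υ p ≠ 0)
    {η : ℝ} (hη : 0 < η) {l : Filter ℕ} [l.NeBot] {p q ξ : ℕ → ℂ × ℂ} {P E Ξ : ℂ × ℂ} (hPW : P ∈ W)
    (hp : Tendsto p l (𝓝 P)) (hq : Tendsto q l (𝓝 P)) (hE1 : ‖E‖ = 1) (hqp : ∀ n, q n ≠ p n) (hυqp : ∀ n, υ (q n) = υ (p n))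
    (hE : Tendsto (fun n => (((‖q n - p n‖ : ℝ) : ℂ)⁻¹) • (q n - p n)) l (𝓝 E))
    (hξ : Tendsto ξ l (𝓝 Ξ)) (hξ1 : ∀ n, fderiv ℂ υ (p n) (ξ n) = 1) :
    ∀ᶠ n in l, Real.exp (-η) * ‖det2 (q n - p n) (ξ n)‖ ≤
        wd (σ (p n)) (σ (q n)) / (‖σ (p n)‖ * ‖σ (q n)‖) * ‖σ (p n)‖ ^ 2 / wd (σ (p n)) (fderiv ℂ σ (p n) (grd υ (p n))) ∧
      wd (σ (p n)) (σ (q n)) / (‖σ (p n)‖ * ‖σ (q n)‖) * ‖σ (p n)‖ ^ 2 / wd (σ (p n)) (fderiv ℂ σ (p n) (grd υ (p n))) ≤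
        Real.exp η * ‖det2 (q n - p n) (ξ n)‖ := by
  set t : ℕ → ℝ := fun n => ‖q n - p n‖ with ht
  have htpos : ∀ n, 0 < t n := fun n => norm_pos_iff.mpr (sub_ne_zero.mpr (hqp n))
  -- derivatives
  have hdσl : Tendsto (fun n => fderiv ℂ σ (p n)) l (𝓝 (fderiv ℂ σ P)) := (hσ P hPW).fderiv.continuousAt.tendsto.comp hp
  have hdυl : Tendsto (fun n => fderiv ℂ υ (p n)) l (𝓝 (fderiv ℂ υ P)) := (hυ P hPW).fderiv.continuousAt.tendsto.comp hp
  have hσp : Tendsto (fun n => σ (p n)) l (𝓝 (σ P)) := (hσ P hPW).continuousAt.tendsto.comp hp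
  have hσq : Tendsto (fun n => σ (q n)) l (𝓝 (σ P)) := (hσ P hPW).continuousAt.tendsto.comp hq
  have hυ1 : fderiv ℂ υ P Ξ = 1 := by
    have h1 : Tendsto (fun n => fderiv ℂ υ (p n) (ξ n)) l (𝓝 (fderiv ℂ υ P Ξ)) := Comp_clm hdυl hξ
    have h2 : Tendsto (fun n => fderiv ℂ υ (p n) (ξ n)) l (𝓝 1) := by
      refine tendsto_const_nhds.congr fun n => ?_
      rw [hξ1 n]
    exact tendsto_nhds_unique h1 h2
  have hυE : fderiv ℂ υ P E = 0 := by
    have h1 := Comp_div ((hυ P hPW).hasStrictFDerivAt) hp hq hE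
    have h2 : Tendsto (fun n => (((‖q n - p n‖ : ℝ) : ℂ)⁻¹) • (υ (q n) - υ (p n))) l (𝓝 0) := by
      refine tendsto_const_nhds.congr fun n => ?_
      rw [hυqp n, sub_self, smul_zero]
    exact tendsto_nhds_unique h1 h2
  obtain ⟨c, hc⟩ := Comp_ker (hdυ P hPW) hυE
  have hc0 : c ≠ 0 := by
    rintro rfl
    rw [zero_smul] at hc
    rw [hc, norm_zero] at hE1
    exact zero_ne_one hE1
  have hcpos : 0 < ‖c‖ := norm_pos_iff.mpr hc0
  have hgr : grd υ P ≠ 0 := Comp_grd (hdυ P hPW)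
  -- the first quantity
  have hA : Tendsto (fun n => (t n)⁻¹ * ‖det2 (q n - p n) (ξ n)‖) l (𝓝 ‖c‖) := by
    have h1 : Tendsto (fun n => ‖det2 ((((‖q n - p n‖ : ℝ) : ℂ)⁻¹) • (q n - p n)) (ξ n)‖) l (𝓝 ‖det2 E Ξ‖) := Comp_detc hE hξ
    rw [hc, Comp_det, hυ1, mul_one, norm_neg] at h1
    refine h1.congr fun n => ?_
    rw [Comp_det_smul, norm_mul, norm_inv, Complex.norm_real, norm_norm]
  -- the second quantity
  set D : ℝ := wd (σ P) (fderiv ℂ σ P (grd υ P)) with hD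
  have hDpos : 0 < D := himm P hPW _ hgr
  have hgl : Tendsto (fun n => grd υ (p n)) l (𝓝 (grd υ P)) := by
    have h1 : Tendsto (fun n => fderiv ℂ υ (p n) (0, 1)) l (𝓝 (fderiv ℂ υ P (0, 1))) := Comp_clm hdυl tendsto_const_nhds
    have h2 : Tendsto (fun n => fderiv ℂ υ (p n) (1, 0)) l (𝓝 (fderiv ℂ υ P (1, 0))) := Comp_clm hdυl tendsto_const_nhds
    exact h1.neg.prodMk_nhds h2
  have hDl : Tendsto (fun n => wd (σ (p n)) (fderiv ℂ σ (p n) (grd υ (p n)))) l (𝓝 D) := by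
    have h1 : Tendsto (fun n => fderiv ℂ σ (p n) (grd υ (p n))) l (𝓝 (fderiv ℂ σ P (grd υ P))) := Comp_clm hdσl hgl
    exact Comp_wdc hσp h1
  have hwl : Tendsto (fun n => (t n)⁻¹ * wd (σ (p n)) (σ (q n))) l (𝓝 (‖c‖ * D)) := by
    have h1 := Comp_div ((hσ P hPW).hasStrictFDerivAt) hp hq hE
    have h2 := Comp_wdc hσp h1
    have h3 : wd (σ P) (fderiv ℂ σ P E) = ‖c‖ * D := by
      rw [hc, map_smul, Pool.Agent.H36.BP.wd_smul_right]
    rw [h3] at h2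
    refine h2.congr fun n => ?_
    rw [Pool.Agent.H36.BP.wd_smul_right, norm_inv, Complex.norm_real, norm_norm, ← Comp_wd_sub]
  have hσP : 0 < ‖σ P‖ := norm_pos_iff.mpr (hσ0 P hPW)
  have hB : Tendsto (fun n => (t n)⁻¹ * wd (σ (p n)) (σ (q n)) / (‖σ (p n)‖ * ‖σ (q n)‖) * ‖σ (p n)‖ ^ 2 /
      wd (σ (p n)) (fderiv ℂ σ (p n) (grd υ (p n)))) l (𝓝 ‖c‖) := by
    have h1 := ((hwl.div (hσp.norm.mul hσq.norm) (mul_pos hσP hσP).ne').mul (hσp.norm.pow 2)).div hDl hDpos.ne'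
    have h2 : ‖c‖ * D / (‖σ P‖ * ‖σ P‖) * ‖σ P‖ ^ 2 / D = ‖c‖ := by
      field_simp
    rw [h2] at h1
    exact h1
  have h1 : Real.exp (-η) * ‖c‖ < ‖c‖ := by
    have : Real.exp (-η) < 1 := by
      rw [Real.exp_lt_one_iff]
      linarith
    nlinarith
  have h2 : ‖c‖ < Real.exp η * ‖c‖ := by
    have : 1 < Real.exp η := Real.one_lt_exp_iff.mpr hη
    nlinarith
  have h3 := (hA.const_mul (Real.exp (-η))).eventually_lt hB h1
  have h4 := hB.eventually_lt (hA.const_mul (Real.exp η)) h2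
  filter_upwards [h3, h4] with n h5 h6
  have h7 := htpos n
  have h8 : wd (σ (p n)) (σ (q n)) / (‖σ (p n)‖ * ‖σ (q n)‖) * ‖σ (p n)‖ ^ 2 / wd (σ (p n)) (fderiv ℂ σ (p n) (grd υ (p n))) =
      t n * ((t n)⁻¹ * wd (σ (p n)) (σ (q n)) / (‖σ (p n)‖ * ‖σ (q n)‖) * ‖σ (p n)‖ ^ 2 /
        wd (σ (p n)) (fderiv ℂ σ (p n) (grd υ (p n)))) := by
    have h9 : wd (σ (p n)) (σ (q n)) = t n * ((t n)⁻¹ * wd (σ (p n)) (σ (q n))) := by
      rw [← mul_assoc, mul_inv_cancel₀ h7.ne', one_mul]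
    conv_lhs => rw [h9]
    ring
  have h10 : ‖det2 (q n - p n) (ξ n)‖ = t n * ((t n)⁻¹ * ‖det2 (q n - p n) (ξ n)‖) := by
    rw [← mul_assoc, mul_inv_cancel₀ h7.ne', one_mul]
  rw [h8]
  constructor
  · conv_lhs => rw [h10]
    have := mul_le_mul_of_nonneg_left h5.le h7.le
    linarith
  · conv_rhs => rw [h10]
    have := mul_le_mul_of_nonneg_left h6.le h7.le
    linarith

theorem comp {P₀ W : Set (ℂ × ℂ)} (hP : IsCompact P₀) (hW : IsOpen W) (hPW : P₀ ⊆ W) {σ : ℂ × ℂ → EN N} {υ : ℂ × ℂ → ℂ}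
    (hσ : ∀ p ∈ W, AnalyticAt ℂ σ p) (hυ : ∀ p ∈ W, AnalyticAt ℂ υ p) (hσ0 : ∀ p ∈ W, σ p ≠ 0)
    (himm : ∀ p ∈ W, ∀ e : ℂ × ℂ, e ≠ 0 → 0 < wd (σ p) (fderiv ℂ σ p e)) (hdυ : ∀ p ∈ W, fderiv ℂ υ p ≠ 0)
    (L : ℝ) {η : ℝ} (hη : 0 < η) :
    ∃ ε : ℝ, 0 < ε ∧ ∀ p ∈ P₀, ∀ q ∈ W, q ≠ p → ‖q - p‖ < ε → υ q = υ p → ∀ ξ : ℂ × ℂ, ‖ξ‖ ≤ L → fderiv ℂ υ p ξ = 1 →
      Real.exp (-η) * ‖det2 (q - p) ξ‖ ≤
        wd (σ p) (σ q) / (‖σ p‖ * ‖σ q‖) * ‖σ p‖ ^ 2 / wd (σ p) (fderiv ℂ σ p (grd υ p)) ∧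
      wd (σ p) (σ q) / (‖σ p‖ * ‖σ q‖) * ‖σ p‖ ^ 2 / wd (σ p) (fderiv ℂ σ p (grd υ p)) ≤
        Real.exp η * ‖det2 (q - p) ξ‖ := by
  by_contra hcon
  have hex : ∀ n : ℕ, ∃ p q ξ : ℂ × ℂ, p ∈ P₀ ∧ q ∈ W ∧ q ≠ p ∧ ‖q - p‖ < 1 / ((n : ℝ) + 1) ∧ υ q = υ p ∧ ‖ξ‖ ≤ L ∧
      fderiv ℂ υ p ξ = 1 ∧ ¬ (Real.exp (-η) * ‖det2 (q - p) ξ‖ ≤
        wd (σ p) (σ q) / (‖σ p‖ * ‖σ q‖) * ‖σ p‖ ^ 2 / wd (σ p) (fderiv ℂ σ p (grd υ p)) ∧
      wd (σ p) (σ q) / (‖σ p‖ * ‖σ q‖) * ‖σ p‖ ^ 2 / wd (σ p) (fderiv ℂ σ p (grd υ p)) ≤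
        Real.exp η * ‖det2 (q - p) ξ‖) := by
    intro n
    by_contra hn
    apply hcon
    refine ⟨1 / ((n : ℝ) + 1), by positivity, ?_⟩
    intro p hp q hq hqp hd hυq ξ hξ hξ1
    by_contra hno
    exact hn ⟨p, q, ξ, hp, hq, hqp, hd, hυq, hξ, hξ1, hno⟩
  choose p q ξ hp hq hqp hd hυqp hξL hξ1 hno using hex
  set 𝒰 : Ultrafilter ℕ := hyperfilter ℕ with h𝒰
  have hUle : (𝒰 : Filter ℕ) ≤ atTop := Nat.hyperfilter_le_atTop
  obtain ⟨P, hP0, hPl⟩ := hP.ultrafilter_le_nhds (𝒰.map p) (by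
    rw [le_principal_iff]
    exact Filter.mem_map.mpr (Filter.univ_mem' hp))
  obtain ⟨Ξ, -, hΞl⟩ := (isCompact_closedBall (0 : ℂ × ℂ) L).ultrafilter_le_nhds (𝒰.map ξ) (by
    rw [le_principal_iff]
    exact Filter.mem_map.mpr (Filter.univ_mem' fun n => by
      rw [Set.mem_preimage, mem_closedBall_zero_iff]
      exact hξL n))
  obtain ⟨E, hE1, hEl⟩ := (isCompact_sphere (0 : ℂ × ℂ) 1).ultrafilter_le_nhds
    (𝒰.map fun n => (((‖q n - p n‖ : ℝ) : ℂ)⁻¹) • (q n - p n)) (by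
      rw [le_principal_iff]
      exact Filter.mem_map.mpr (Filter.univ_mem' fun n => by
        have h1 : ‖q n - p n‖ ≠ 0 := norm_ne_zero_iff.mpr (sub_ne_zero.mpr (hqp n))
        rw [Set.mem_preimage, mem_sphere_zero_iff_norm, norm_smul, norm_inv, Complex.norm_real, norm_norm]
        exact inv_mul_cancel₀ h1))
  have hp' : Tendsto p 𝒰 (𝓝 P) := hPl
  have hξ' : Tendsto ξ 𝒰 (𝓝 Ξ) := hΞl
  have hE' : Tendsto (fun n => (((‖q n - p n‖ : ℝ) : ℂ)⁻¹) • (q n - p n)) 𝒰 (𝓝 E) := hEl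
  have ht : Tendsto (fun n => q n - p n) 𝒰 (𝓝 0) := by
    refine squeeze_zero_norm (a := fun n : ℕ => 1 / ((n : ℝ) + 1)) (fun n => (hd n).le) ?_
    exact tendsto_one_div_add_atTop_nhds_zero_nat.mono_left hUle
  have hq' : Tendsto q 𝒰 (𝓝 P) := by
    have h1 := hp'.add ht
    rw [add_zero] at h1
    refine h1.congr fun n => ?_
    abel
  have hkey := Comp_key hσ hυ hσ0 himm hdυ hη (hPW hP0) hp' hq' (mem_sphere_zero_iff_norm.mp hE1) hqp hυqp hE' hξ' hξ1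
  obtain ⟨n, hn⟩ := hkey.exists
  exact hno n hn

end Pool.Agent.H62.EF

end

section

/-!
# KR GL: gluing the local extensions to a form on the cone

`Ext M t₀ A B φ Φ p`: near `p` the function `Φ` is the analytic extension of
`A (φ) / B (φ) * D3 t₀ (φ, φ_x, φ_y) ^ M`.

* `Ext.unique`: `g = Φ - Φ'` is analytic and `eval (φ u) B * g u = 0` near `p`.  If `g p ≠ 0` then `g ≠ 0` near `p` and
  `eval (φ u) B = 0` near `p`.
* `Ext.comp`: near `p` (`κ u → κ p`): `eval (φ u) B = c^b eval (σ (κ u)) B` (homogeneous of degree `b`; scaling: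
  `MvPolynomial.IsHomogeneous` lemma or `eval₂_of_isHomogeneous` of file `HZ` may be imported),
  `D3_comp`: `D3 t₀ (φ …) = c^3 jac κ D3 t₀ (σ …) (κ u)`.  With `b = a + 3 M + 1`:
  `eval (φ u) B * (c⁻¹ jac^M Φ (κ u)) = c^(b-1) jac^M (eval (σκ) B Φ (κ u)) = c^(b-1) jac^M eval (σκ) A D3^M
   = c^(b - 1 - a - 3 M) eval (φ u) A * D3 t₀ (φ …) ^ M`.
* `exists_om`: for `x ∈ cone P` choose `t, σ` (`hsm`) and `Φ` (`hext`), and
  `Om x v w = Φ 0 * (D3 t x v w / x (t 0) ^ 3) ^ M` (`0` for `x ∉ cone P`).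
  Second clause: `C = Φ 0 / x (t 0) ^ (3 M)`.
  First clause: let `φ p = x`.  `CChart.param`: `φ = c • σ ∘ κ` near `p`, `κ p = 0`, `c p = 1`.  By `Ext.comp`
  `Φ'' u = (c u)⁻¹ * jac κ u ^ M * Φ_x (κ u)` is an extension for `φ`, so by `Ext.unique`
  `Φ p = Φ'' p = jac κ p ^ M * Φ_x 0`.  `D3_comp` (with `s = t`, at `u = p`) and `CChart.D3_eq` (at `0`):
  `D3 t x (d1 φ p) (d2 φ p) = jac κ p * x (t 0) ^ 3`.
* `isForm_om`.  `add_smul`, `det`: from the second clause and `D3_add_smul`, `D3_det`.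
  Claim (*): for `x ∈ cone P` with its chart `t, σ, Φ` (any `CChart` with an extension): for `u` near `0`:
  `Om (σ u) (d1 σ u) (d2 σ u) = Φ u`: the first clause at the points `p` near `0` (`Ext` holds at all nearby points:
  `eventually_eventually_nhds`, `AnalyticAt.eventually_analyticAt`; `nd_near` for the non-degeneracy; `mem_cone`).
  `scale` (`j = 1`, write `c * Om (c x) (c v) (c w) = Om x v w`): by `CChart.tan` `v = a d1 σ 0 + b d2 σ 0 + e x`,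
  `w = a' … + b' … + e' x`; by `add_smul` and `det` at `x` and at `c x` (where `c v = a (c d1 σ 0) + …`; note that
  the second clause gives these rules for all vectors) it is enough to compare
  `Om (c x) (c d1 σ 0) (c d2 σ 0)` and `c⁻¹ Om x (d1 σ 0) (d2 σ 0)`: the first clause for `φ = c • σ`, `p = 0` and its
  extension `c⁻¹ Φ` (`Ext.comp` with `κ = id`).  (`jac id = 1`.)
  `analytic`: let `φ` be analytic at `p` with values in `cone P`, `x = φ p`, chart `t, σ, Φ` at `x`, `φ = c • σ ∘ κ` near `p`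
  (`param`).  For `u` near `p` let `c = c u ≠ 0`, `y = σ (κ u) ∈ cone P`, `v₁ = d1 σ (κ u)`, `v₂ = d2 σ (κ u)` (tangent at `y` by
  `tan_d1`, `tan_d2`).  `d1_smul_comp`, `d2_smul_comp`: `d1 φ u = c_x y + c (a v₁ + b v₂)`, `d2 φ u = c_y y + c (a' v₁ + b' v₂)` with
  `a b' - b a' = jac κ u`.  By the second clause at the point `c y` of the cone the rules `add_smul` and `det` hold there
  for ALL vectors: `c_x y = (c_x / c) (c y)`, `c (a v₁ + b v₂) = a (c v₁) + b (c v₂)`, so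
  `Om (c y) (d1 φ u) (d2 φ u) = jac κ u ^ M * Om (c y) (c v₁) (c v₂) = jac κ u ^ M * (c u)⁻¹ * Om y v₁ v₂` (`scale`)
  `= jac κ u ^ M * (c u)⁻¹ * Φ (κ u)` by (*).  This is analytic in `u` at `p`.
-/

set_option autoImplicit false

open MvPolynomial Topology Filter
open Pool.Agent.H17BP (Tan IsForm)

noncomputable section

namespace Pool.Agent.H68.KR

variable {N : ℕ}

/-- `Φ` is, near `p`, the analytic extension of `A (φ) / B (φ) * D3 t₀ (φ, φ_x, φ_y) ^ M`. -/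
def Ext (M : ℕ) (t₀ : Fin 3 → Fin (N + 1)) (A B : MvPolynomial (Fin (N + 1)) ℂ)
    (φ : ℂ × ℂ → Fin (N + 1) → ℂ) (Φ : ℂ × ℂ → ℂ) (p : ℂ × ℂ) : Prop :=
  AnalyticAt ℂ Φ p ∧
    ∀ᶠ u in 𝓝 p, eval (φ u) B * Φ u = eval (φ u) A * D3 t₀ (φ u) (d1 φ u) (d2 φ u) ^ M

variable {M a : ℕ} {t₀ : Fin 3 → Fin (N + 1)} {A B : MvPolynomial (Fin (N + 1)) ℂ}

theorem Ext.unique {φ : ℂ × ℂ → Fin (N + 1) → ℂ} {Φ Φ' : ℂ × ℂ → ℂ} {p : ℂ × ℂ}
    (h : Ext M t₀ A B φ Φ p) (h' : Ext M t₀ A B φ Φ' p)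
    (hnd : ¬ ∀ᶠ u in 𝓝 p, eval (φ u) B = 0) : Φ p = Φ' p := by
  by_contra hne
  apply hnd
  have hg : ContinuousAt (fun u => Φ u - Φ' u) p := h.1.continuousAt.sub h'.1.continuousAt
  have hg0 : ∀ᶠ u in 𝓝 p, Φ u - Φ' u ≠ 0 := hg.eventually_ne (sub_ne_zero.2 hne)
  filter_upwards [hg0, h.2, h'.2] with u h1 h2 h3
  have h4 : eval (φ u) B * (Φ u - Φ' u) = 0 := by
    rw [mul_sub, h2, h3, sub_self]
  exact (mul_eq_zero.1 h4).resolve_right h1

private theorem GL_eval_smul {n : ℕ} {Q : MvPolynomial (Fin (N + 1)) ℂ} (hQ : Q.IsHomogeneous n) (c : ℂ)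
    (y : Fin (N + 1) → ℂ) : eval (c • y) Q = c ^ n * eval y Q :=
  eval₂_of_isHomogeneous (RingHom.id ℂ) hQ c y

theorem Ext.comp (hA : A.IsHomogeneous a) (hB : B.IsHomogeneous (a + 3 * M + 1))
    {φ σ : ℂ × ℂ → Fin (N + 1) → ℂ} {Φ c : ℂ × ℂ → ℂ} {κ : ℂ × ℂ → ℂ × ℂ} {p : ℂ × ℂ}
    (hc : AnalyticAt ℂ c p) (hc0 : c p ≠ 0) (hκ : AnalyticAt ℂ κ p) (hσ : AnalyticAt ℂ σ (κ p))
    (h : Ext M t₀ A B σ Φ (κ p)) (hφ : ∀ᶠ u in 𝓝 p, φ u = c u • σ (κ u)) :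
    Ext M t₀ A B φ (fun u => (c u)⁻¹ * jac κ u ^ M * Φ (κ u)) p := by
  refine ⟨((hc.inv hc0).mul ((analyticAt_jac hκ).pow M)).mul (h.1.comp hκ), ?_⟩
  have h2 : ∀ᶠ u in 𝓝 p, eval (σ (κ u)) B * Φ (κ u) =
      eval (σ (κ u)) A * D3 t₀ (σ (κ u)) (d1 σ (κ u)) (d2 σ (κ u)) ^ M :=
    hκ.continuousAt.eventually h.2
  filter_upwards [h2, hφ, D3_comp t₀ hc hκ hσ hφ, hc.continuousAt.eventually_ne hc0] with u e1 e2 e3 e4
  rw [e3, e2, GL_eval_smul hB, GL_eval_smul hA]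
  have e5 : c u ^ (a + 3 * M + 1) * eval (σ (κ u)) B * ((c u)⁻¹ * jac κ u ^ M * Φ (κ u)) =
      c u ^ (a + 3 * M) * jac κ u ^ M * (eval (σ (κ u)) B * Φ (κ u)) := by
    rw [pow_succ]
    field_simp
  rw [e5, e1, mul_pow, mul_pow, pow_add, pow_mul]
  ring

variable {P : Ideal (MvPolynomial (Fin (N + 1)) ℂ)}

theorem exists_om (hA : A.IsHomogeneous a) (hB : B.IsHomogeneous (a + 3 * M + 1))
    (hsm : ∀ x ∈ cone P, ∃ t σ, CChart P x t σ)
    (hext : ∀ x t σ, CChart P x t σ → ∃ Φ, Ext M t₀ A B σ Φ 0) :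
    ∃ Om : (Fin (N + 1) → ℂ) → (Fin (N + 1) → ℂ) → (Fin (N + 1) → ℂ) → ℂ,
      (∀ x ∈ cone P, ∀ (φ : ℂ × ℂ → Fin (N + 1) → ℂ) (p : ℂ × ℂ) (Φ : ℂ × ℂ → ℂ), AnalyticAt ℂ φ p →
        (∀ᶠ u in 𝓝 p, ∀ Q ∈ P, eval (φ u) Q = 0) → φ p = x → Ext M t₀ A B φ Φ p →
        (¬ ∀ᶠ u in 𝓝 p, eval (φ u) B = 0) → Om x (d1 φ p) (d2 φ p) = Φ p) ∧
      ∀ x ∈ cone P, ∃ (t : Fin 3 → Fin (N + 1)) (C : ℂ), ∀ v w, Om x v w = C * D3 t x v w ^ M := by
  classical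
  choose t σ hch using hsm
  choose Φx hΦx using fun (x : Fin (N + 1) → ℂ) (hx : x ∈ cone P) => hext x (t x hx) (σ x hx) (hch x hx)
  refine ⟨fun x v w => if hx : x ∈ cone P then Φx x hx 0 * (D3 (t x hx) x v w / x (t x hx 0) ^ 3) ^ M else 0,
    ?_, ?_⟩
  · intro x hx φ p Φ hφ hφP hφx hE hnd
    obtain ⟨κ, c, hκ, hc, hκ0, hc1, he⟩ := (hch x hx).param hφ hφx hφP
    have hc0 : c p ≠ 0 := by
      rw [hc1]
      exact one_ne_zero
    have hσ : AnalyticAt ℂ (σ x hx) (κ p) := by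
      rw [hκ0]
      exact (hch x hx).an
    have hE' : Ext M t₀ A B (σ x hx) (Φx x hx) (κ p) := by
      rw [hκ0]
      exact hΦx x hx
    have hcomp := Ext.comp hA hB hc hc0 hκ hσ hE' he
    have h1 := Ext.unique hE hcomp hnd
    have h1' : Φ p = (c p)⁻¹ * jac κ p ^ M * Φx x hx (κ p) := h1
    rw [hc1, hκ0, inv_one, one_mul] at h1'
    have h2 := (D3_comp (t x hx) hc hκ hσ he).self_of_nhds
    have h3 := (hch x hx).D3_eq.self_of_nhds
    rw [hκ0, hc1, h3, one_pow, one_mul, hφx] at h2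
    have h4 : x (t x hx 0) ≠ 0 := (hch x hx).ne
    simp only [hx, dif_pos]
    rw [h2, h1', mul_div_cancel_right₀ _ (pow_ne_zero 3 h4), mul_comm]
  · intro x hx
    refine ⟨t x hx, Φx x hx 0 / (x (t x hx 0) ^ 3) ^ M, fun v w => ?_⟩
    simp only [hx, dif_pos]
    rw [div_pow]
    ring

/-- The local form of `Om` in a chart. -/
private theorem GL_star (hB : B.IsHomogeneous (a + 3 * M + 1)) (hBP : B ∉ P)
    {Om : (Fin (N + 1) → ℂ) → (Fin (N + 1) → ℂ) → (Fin (N + 1) → ℂ) → ℂ}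
    (h1 : ∀ x ∈ cone P, ∀ (φ : ℂ × ℂ → Fin (N + 1) → ℂ) (p : ℂ × ℂ) (Φ : ℂ × ℂ → ℂ), AnalyticAt ℂ φ p →
        (∀ᶠ u in 𝓝 p, ∀ Q ∈ P, eval (φ u) Q = 0) → φ p = x → Ext M t₀ A B φ Φ p →
        (¬ ∀ᶠ u in 𝓝 p, eval (φ u) B = 0) → Om x (d1 φ p) (d2 φ p) = Φ p)
    {x : Fin (N + 1) → ℂ} {t : Fin 3 → Fin (N + 1)} {σ : ℂ × ℂ → Fin (N + 1) → ℂ}
    (hch : CChart P x t σ) {Φ : ℂ × ℂ → ℂ} (hΦ : Ext M t₀ A B σ Φ 0) :
    ∀ᶠ u in 𝓝 (0 : ℂ × ℂ), Om (σ u) (d1 σ u) (d2 σ u) = Φ u := by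
  filter_upwards [hch.an.eventually_analyticAt, hch.mem.eventually_nhds, hΦ.1.eventually_analyticAt,
    hΦ.2.eventually_nhds, hch.nd_near, hch.mem_cone] with u a1 a2 a3 a4 a5 a6
  exact h1 (σ u) a6 σ u Φ a1 a2 rfl ⟨a3, a4⟩ (a5 _ B hB hBP)

private theorem GL_d1_const_smul {σ : ℂ × ℂ → Fin (N + 1) → ℂ} {p : ℂ × ℂ} (h : AnalyticAt ℂ σ p) (c : ℂ) :
    d1 (fun u => c • σ u) p = c • d1 σ p := by
  unfold d1
  rw [fderiv_fun_const_smul h.differentiableAt]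
  rfl

private theorem GL_d2_const_smul {σ : ℂ × ℂ → Fin (N + 1) → ℂ} {p : ℂ × ℂ} (h : AnalyticAt ℂ σ p) (c : ℂ) :
    d2 (fun u => c • σ u) p = c • d2 σ p := by
  unfold d2
  rw [fderiv_fun_const_smul h.differentiableAt]
  rfl

private theorem GL_jac_id (p : ℂ × ℂ) : jac (fun u => u) p = 1 := by
  have e1 : fderiv ℂ (fun v : ℂ × ℂ => v.1) p = ContinuousLinearMap.fst ℂ ℂ ℂ := fderiv_fst
  have e2 : fderiv ℂ (fun v : ℂ × ℂ => v.2) p = ContinuousLinearMap.snd ℂ ℂ ℂ := fderiv_snd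
  simp only [jac, dx, dy]
  rw [e1, e2]
  simp

theorem isForm_om (hP : ∀ p ∈ P, ∀ n, homogeneousComponent n p ∈ P) (hA : A.IsHomogeneous a)
    (hB : B.IsHomogeneous (a + 3 * M + 1)) (hBP : B ∉ P) (hsm : ∀ x ∈ cone P, ∃ t σ, CChart P x t σ)
    (hext : ∀ x t σ, CChart P x t σ → ∃ Φ, Ext M t₀ A B σ Φ 0)
    {Om : (Fin (N + 1) → ℂ) → (Fin (N + 1) → ℂ) → (Fin (N + 1) → ℂ) → ℂ}
    (h1 : ∀ x ∈ cone P, ∀ (φ : ℂ × ℂ → Fin (N + 1) → ℂ) (p : ℂ × ℂ) (Φ : ℂ × ℂ → ℂ), AnalyticAt ℂ φ p →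
        (∀ᶠ u in 𝓝 p, ∀ Q ∈ P, eval (φ u) Q = 0) → φ p = x → Ext M t₀ A B φ Φ p →
        (¬ ∀ᶠ u in 𝓝 p, eval (φ u) B = 0) → Om x (d1 φ p) (d2 φ p) = Φ p)
    (h2 : ∀ x ∈ cone P, ∃ (t : Fin 3 → Fin (N + 1)) (C : ℂ), ∀ v w, Om x v w = C * D3 t x v w ^ M) :
    IsForm (cone P) M 1 Om := by
  -- the rules for all vectors
  have r1 : ∀ x ∈ cone P, ∀ v w : Fin (N + 1) → ℂ, ∀ α β : ℂ,
      Om x (v + α • x) (w + β • x) = Om x v w := by
    intro x hx v w α β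
    obtain ⟨t, C, hC⟩ := h2 x hx
    rw [hC, hC, D3_add_smul]
  have r2 : ∀ x ∈ cone P, ∀ v w : Fin (N + 1) → ℂ, ∀ α β γ δ : ℂ,
      Om x (α • v + β • w) (γ • v + δ • w) = (α * δ - β * γ) ^ M * Om x v w := by
    intro x hx v w α β γ δ
    obtain ⟨t, C, hC⟩ := h2 x hx
    rw [hC, hC, D3_det, mul_pow]
    ring
  have hscale : ∀ x ∈ cone P, ∀ v ∈ Tan (cone P) x, ∀ w ∈ Tan (cone P) x, ∀ c : ℂ, c ≠ 0 →
      c ^ 1 * Om (c • x) (c • v) (c • w) = Om x v w := by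
    intro x hx v hv w hw c hc
    obtain ⟨t, σ, hch⟩ := hsm x hx
    obtain ⟨Φ, hΦ⟩ := hext x t σ hch
    obtain ⟨α, β, e, hv'⟩ := hch.tan hv
    obtain ⟨γ, δ, e', hw'⟩ := hch.tan hw
    have hcx : c • x ∈ cone P := cone_smul hP hx hc
    have k1 : Om x (d1 σ 0) (d2 σ 0) = Φ 0 := by
      have := (GL_star hB hBP h1 hch hΦ).self_of_nhds
      rwa [hch.zero] at this
    have hσ' : AnalyticAt ℂ (fun u => c • σ u) 0 := by
      show AnalyticAt ℂ (c • σ) 0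
      exact hch.an.const_smul
    have k2 : Om (c • x) (c • d1 σ 0) (c • d2 σ 0) = c⁻¹ * Φ 0 := by
      have hE : Ext M t₀ A B (fun u => c • σ u) (fun u => c⁻¹ * jac (fun u => u) u ^ M * Φ u) 0 :=
        Ext.comp (c := fun _ => c) (κ := fun u => u) hA hB analyticAt_const hc analyticAt_id
          hch.an hΦ (Eventually.of_forall fun _ => rfl)
      have hm : ∀ᶠ u in 𝓝 (0 : ℂ × ℂ), ∀ Q ∈ P, eval (c • σ u) Q = 0 := by
        filter_upwards [hch.mem_cone] with u hu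
        exact (cone_smul hP hu hc).2
      have hn : ¬ ∀ᶠ u in 𝓝 (0 : ℂ × ℂ), eval (c • σ u) B = 0 := by
        intro hall
        apply hch.nd _ B hB hBP
        filter_upwards [hall] with u hu
        rw [GL_eval_smul hB] at hu
        exact (mul_eq_zero.1 hu).resolve_left (pow_ne_zero _ hc)
      have h3 := h1 (c • x) hcx (fun u => c • σ u) 0 _ hσ' hm (by rw [hch.zero]) hE hn
      rw [GL_d1_const_smul hch.an, GL_d2_const_smul hch.an] at h3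
      rw [h3, GL_jac_id, one_pow, mul_one]
    have hv2 : c • v = (α • (c • d1 σ 0) + β • (c • d2 σ 0)) + e • (c • x) := by
      rw [hv']
      module
    have hw2 : c • w = (γ • (c • d1 σ 0) + δ • (c • d2 σ 0)) + e' • (c • x) := by
      rw [hw']
      module
    rw [hv2, hw2, r1 _ hcx, r2 _ hcx, k2, hv', hw', r1 _ hx, r2 _ hx, k1]
    field_simp
  refine ⟨fun x hx v _ w _ α β => r1 x hx v w α β, fun x hx v _ w _ α β γ δ => r2 x hx v w α β γ δ,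
    hscale, ?_⟩
  intro φ p hφ hφX
  have hx : φ p ∈ cone P := hφX.self_of_nhds
  obtain ⟨t, σ, hch⟩ := hsm (φ p) hx
  obtain ⟨Φ, hΦ⟩ := hext (φ p) t σ hch
  have hφP : ∀ᶠ u in 𝓝 p, ∀ Q ∈ P, eval (φ u) Q = 0 := hφX.mono fun u hu => hu.2
  obtain ⟨κ, c, hκ, hc, hκ0, hc1, he⟩ := hch.param hφ rfl hφP
  have hσ : AnalyticAt ℂ σ (κ p) := by
    rw [hκ0]
    exact hch.an
  have hΦκ : AnalyticAt ℂ Φ (κ p) := by
    rw [hκ0]
    exact hΦ.1
  have hc0 : c p ≠ 0 := by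
    rw [hc1]
    exact one_ne_zero
  have hκt : Tendsto κ (𝓝 p) (𝓝 0) := by
    have := hκ.continuousAt.tendsto
    rwa [hκ0] at this
  have hF : AnalyticAt ℂ (fun u => jac κ u ^ M * ((c u)⁻¹ * Φ (κ u))) p :=
    ((analyticAt_jac hκ).pow M).mul ((hc.inv hc0).mul (hΦκ.comp hκ))
  refine hF.congr ?_
  filter_upwards [he, d1_smul_comp hc hκ hσ he, d2_smul_comp hc hκ hσ he,
    hc.continuousAt.eventually_ne hc0, hκt.eventually hch.mem_cone,
    hκt.eventually (GL_star hB hBP h1 hch hΦ), hκt.eventually hch.an.eventually_analyticAt,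
    hκt.eventually hch.mem_cone.eventually_nhds] with u e1 e2 e3 e4 e5 e6 e7 e8
  have hcy : c u • σ (κ u) ∈ cone P := cone_smul hP e5 e4
  have ht1 : d1 σ (κ u) ∈ Tan (cone P) (σ (κ u)) := tan_d1 e7 e8
  have ht2 : d2 σ (κ u) ∈ Tan (cone P) (σ (κ u)) := tan_d2 e7 e8
  have hs := hscale _ e5 _ ht1 _ ht2 (c u) e4
  rw [pow_one, e6] at hs
  show jac κ u ^ M * ((c u)⁻¹ * Φ (κ u)) = Om (φ u) (d1 φ u) (d2 φ u)
  have f1 : d1 φ u = (dx (fun v => (κ v).1) u • (c u • d1 σ (κ u)) +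
      dx (fun v => (κ v).2) u • (c u • d2 σ (κ u))) + (dx c u / c u) • (c u • σ (κ u)) := by
    rw [e2, smul_smul (dx c u / c u), div_mul_cancel₀ _ e4]
    module
  have f2 : d2 φ u = (dy (fun v => (κ v).1) u • (c u • d1 σ (κ u)) +
      dy (fun v => (κ v).2) u • (c u • d2 σ (κ u))) + (dy c u / c u) • (c u • σ (κ u)) := by
    rw [e3, smul_smul (dy c u / c u), div_mul_cancel₀ _ e4]
    module
  rw [f1, f2, e1, r1 _ hcy, r2 _ hcy, ← hs]
  unfold jac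
  rw [inv_mul_cancel_left₀ e4]
  ring

end Pool.Agent.H68.KR

end
end

section

/-!
# Bir Map: composition of holomorphic maps with rational maps

* `exists_comp`: the composition of a holomorphic map `f` into `ℙ^M` with the rational map given by forms `γ i` of the same degree, not all of them
  zero on `f`, is holomorphic: near every point divide the functions `γ i (φ z)` by their common zeros.
* `pn_identity`: the identity theorem for maps into projective space.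
-/

set_option autoImplicit false

open Topology Filter Metric MvPolynomial

noncomputable section

namespace Pool.Agent.H7.Bir

open Pool.Agent.H17 (PN VanishesAt HolomorphicInto vanishesAt_mk_iff)

variable {N M : ℕ}

theorem vals_smul {γ : Fin (N + 1) → MvPolynomial (Fin (M + 1)) ℂ} {D : ℕ} (hγ : ∀ i, (γ i).IsHomogeneous D)
    (c : ℂ) (x : Fin (M + 1) → ℂ) : vals γ (c • x) = c ^ D • vals γ x := by
  funext i
  exact Pool.Agent.H17BP.eval_smul_form (hγ i) c x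

theorem rmap_mk {γ : Fin (N + 1) → MvPolynomial (Fin (M + 1)) ℂ} {D : ℕ} (hγ : ∀ i, (γ i).IsHomogeneous D)
    {x : Fin (M + 1) → ℂ} (hx : x ≠ 0) (h : vals γ x ≠ 0) :
    rmap γ (Projectivization.mk ℂ x hx) = Projectivization.mk ℂ (vals γ x) h := by
  obtain ⟨a, ha⟩ := Projectivization.exists_smul_eq_mk_rep ℂ x hx
  have h1 : (Projectivization.mk ℂ x hx).rep = (a : ℂ) • x := ha.symm
  have h2 : vals γ (Projectivization.mk ℂ x hx).rep = (a : ℂ) ^ D • vals γ x := by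
    rw [h1, vals_smul hγ]
  have h3 : vals γ (Projectivization.mk ℂ x hx).rep ≠ 0 := by
    rw [h2]
    exact smul_ne_zero (pow_ne_zero _ a.ne_zero) h
  unfold rmap
  rw [dif_pos h3, Projectivization.mk_eq_mk_iff']
  exact ⟨(a : ℂ) ^ D, h2.symm⟩

private theorem Map_analytic {φ : ℂ → Fin (M + 1) → ℂ} {z : ℂ} (hφ : AnalyticAt ℂ φ z)
    (γ : Fin (N + 1) → MvPolynomial (Fin (M + 1)) ℂ) : AnalyticAt ℂ (fun w => vals γ (φ w)) z := by
  rw [analyticAt_pi_iff]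
  intro i
  have h1 : AnalyticAt ℂ (fun w => MvPolynomial.aeval (φ w) (γ i)) z :=
    AnalyticAt.aeval_mvPolynomial (fun i => analyticAt_pi_iff.mp hφ i) (γ i)
  exact h1

/-- A lift of the composition near a point. -/
private theorem Map_lift {γ : Fin (N + 1) → MvPolynomial (Fin (M + 1)) ℂ} {D : ℕ} (hγ : ∀ i, (γ i).IsHomogeneous D)
    {f : ℂ → PN M} {U : Set ℂ} (hUc : IsPreconnected U) (hf : HolomorphicInto f U) {z₀ : ℂ} (hz₀ : z₀ ∈ U)
    {i₀ : Fin (N + 1)} (h : ¬ VanishesAt (γ i₀) (f z₀)) {z : ℂ} (hz : z ∈ U) :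
    ∃ ψ : ℂ → Fin (N + 1) → ℂ, AnalyticAt ℂ ψ z ∧ ψ z ≠ 0 ∧
      (∀ᶠ w in 𝓝[≠] z, ∃ h : ψ w ≠ 0, rmap γ (f w) = Projectivization.mk ℂ (ψ w) h ∧ vals γ (f w).rep ≠ 0) ∧
      (vals γ (f z).rep ≠ 0 → ∃ h : ψ z ≠ 0, rmap γ (f z) = Projectivization.mk ℂ (ψ z) h) := by
  obtain ⟨φ, hφ, he⟩ := hf z hz
  have hΨ := Map_analytic hφ γ
  -- not identically zero
  have hne : ¬ ∀ᶠ w in 𝓝 z, vals γ (φ w) = 0 := by
    intro h0
    have h1 : ∀ᶠ w in 𝓝 z, ∀ P ∈ ({γ i₀} : Set (MvPolynomial (Fin (M + 1)) ℂ)), VanishesAt P (f w) := by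
      filter_upwards [h0, he] with w h2 h3 P hP
      rw [Set.mem_singleton_iff] at hP
      subst hP
      obtain ⟨h4, h5⟩ := h3
      rw [h5, vanishesAt_mk_iff (hγ i₀)]
      exact congrFun h2 i₀
    exact h (Pool.Agent.H36.BP.vanish_identity hUc hf (S := {γ i₀}) (by
      rintro P hP
      rw [Set.mem_singleton_iff] at hP
      subst hP
      exact ⟨D, hγ i₀⟩) hz h1 z₀ hz₀ _ rfl)
  obtain ⟨n, ψ, hψ, hψ0, hψe⟩ := (hΨ.exists_eventuallyEq_pow_smul_nonzero_iff).2 hne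
  have hrep : ∀ w, (∃ h : φ w ≠ 0, f w = Projectivization.mk ℂ (φ w) h) → ∃ c : ℂ, c ≠ 0 ∧ (f w).rep = c • φ w := by
    rintro w ⟨h1, h2⟩
    obtain ⟨a, ha⟩ := Projectivization.exists_smul_eq_mk_rep ℂ (φ w) h1
    exact ⟨a, a.ne_zero, by rw [h2]; exact ha.symm⟩
  have hkey : ∀ w, (∃ h : φ w ≠ 0, f w = Projectivization.mk ℂ (φ w) h) → vals γ (φ w) = (w - z) ^ n • ψ w →
      vals γ (φ w) ≠ 0 → ∃ h : ψ w ≠ 0, rmap γ (f w) = Projectivization.mk ℂ (ψ w) h := by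
    rintro w ⟨h1, h2⟩ h3 h4
    have h5 : ψ w ≠ 0 := by
      intro h6
      rw [h6, smul_zero] at h3
      exact h4 h3
    refine ⟨h5, ?_⟩
    rw [h2, rmap_mk hγ h1 h4, Projectivization.mk_eq_mk_iff']
    exact ⟨(w - z) ^ n, h3.symm⟩
  have hrepv : ∀ w, (∃ h : φ w ≠ 0, f w = Projectivization.mk ℂ (φ w) h) → (vals γ (f w).rep ≠ 0 ↔ vals γ (φ w) ≠ 0) := by
    intro w hw
    obtain ⟨c, hc, h1⟩ := hrep w hw
    rw [h1, vals_smul hγ, smul_ne_zero_iff]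
    exact ⟨fun h => h.2, fun h => ⟨pow_ne_zero _ hc, h⟩⟩
  refine ⟨ψ, hψ, hψ0, ?_, ?_⟩
  · have h1 : ∀ᶠ w in 𝓝[≠] z, w ≠ z := self_mem_nhdsWithin
    filter_upwards [h1, he.filter_mono nhdsWithin_le_nhds, hψe.filter_mono nhdsWithin_le_nhds,
      (hψ.continuousAt.eventually_ne hψ0).filter_mono nhdsWithin_le_nhds] with w h2 h3 h4 h5
    have h6 : vals γ (φ w) ≠ 0 := by
      rw [h4]
      exact smul_ne_zero (pow_ne_zero _ (sub_ne_zero.2 h2)) h5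
    obtain ⟨h7, h8⟩ := hkey w h3 h4 h6
    exact ⟨h7, h8, (hrepv w h3).2 h6⟩
  · intro h1
    have h2 := he.self_of_nhds
    exact hkey z h2 hψe.self_of_nhds ((hrepv z h2).1 h1)

theorem exists_comp {γ : Fin (N + 1) → MvPolynomial (Fin (M + 1)) ℂ} {D : ℕ} (hγ : ∀ i, (γ i).IsHomogeneous D)
    {f : ℂ → PN M} {U : Set ℂ} (hUo : IsOpen U) (hUc : IsPreconnected U) (hf : HolomorphicInto f U) {z₀ : ℂ} (hz₀ : z₀ ∈ U)
    {i₀ : Fin (N + 1)} (h : ¬ VanishesAt (γ i₀) (f z₀)) :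
    ∃ g : ℂ → PN N, HolomorphicInto g U ∧ (∀ z ∈ U, vals γ (f z).rep ≠ 0 → g z = rmap γ (f z)) ∧
      ∀ z ∈ U, ∀ᶠ w in 𝓝[≠] z, vals γ (f w).rep ≠ 0 ∧ g w = rmap γ (f w) := by
  classical
  choose ψ hψ hψ0 hψ1 hψ2 using fun z (hz : z ∈ U) => Map_lift hγ hUc hf hz₀ h hz
  let g : ℂ → PN N := fun z => if hz : z ∈ U then Projectivization.mk ℂ (ψ z hz z) (hψ0 z hz) else rmap γ (f z)
  have hg : ∀ z ∈ U, vals γ (f z).rep ≠ 0 → g z = rmap γ (f z) := by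
    intro z hz h1
    obtain ⟨h2, h3⟩ := hψ2 z hz h1
    simp only [g, dif_pos hz]
    exact h3.symm
  refine ⟨g, ?_, hg, ?_⟩
  · intro z hz
    refine ⟨ψ z hz, hψ z hz, ?_⟩
    have h1 : ∀ᶠ w in 𝓝[≠] z, ∃ h : ψ z hz w ≠ 0, g w = Projectivization.mk ℂ (ψ z hz w) h := by
      filter_upwards [hψ1 z hz, mem_nhdsWithin_of_mem_nhds (hUo.mem_nhds hz)] with w h2 h3
      obtain ⟨h4, h5, h6⟩ := h2
      exact ⟨h4, by rw [hg w h3 h6, h5]⟩
    have h2 : ∃ h : ψ z hz z ≠ 0, g z = Projectivization.mk ℂ (ψ z hz z) h := ⟨hψ0 z hz, by simp only [g, dif_pos hz]⟩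
    rw [eventually_nhdsWithin_iff] at h1
    filter_upwards [h1] with w h3
    by_cases hw : w = z
    · rw [hw]
      exact h2
    · exact h3 hw
  · intro z hz
    filter_upwards [hψ1 z hz, mem_nhdsWithin_of_mem_nhds (hUo.mem_nhds hz)] with w h2 h3
    obtain ⟨h4, h5, h6⟩ := h2
    exact ⟨h6, hg w h3 h6⟩

/-- The identity theorem for maps into projective space. -/
theorem pn_identity {f g : ℂ → PN N} {U : Set ℂ} (hUc : IsPreconnected U) (hf : HolomorphicInto f U) (hg : HolomorphicInto g U)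
    {z₀ : ℂ} (hz₀ : z₀ ∈ U) (h : ∀ᶠ z in 𝓝 z₀, f z = g z) : ∀ z ∈ U, f z = g z := by
  set A : Set ℂ := {z | ∀ᶠ w in 𝓝 z, f w = g w} with hA
  have hAo : IsOpen A := by
    rw [isOpen_iff_mem_nhds]
    intro z hz
    exact hz.eventually_nhds
  have hcl : closure A ∩ U ⊆ A := by
    rintro z ⟨hz1, hz2⟩
    obtain ⟨φ, hφ, he⟩ := hf z hz2
    obtain ⟨χ, hχ, he'⟩ := hg z hz2
    obtain ⟨r, hr, hr1⟩ := Metric.eventually_nhds_iff_ball.mp
      ((hφ.eventually_analyticAt.and hχ.eventually_analyticAt).and (he.and he'))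
    obtain ⟨z', hz'1, hz'2⟩ := mem_closure_iff_nhds.mp hz1 (ball z r) (ball_mem_nhds z hr)
    have hz'A : ∀ᶠ w in 𝓝 z', f w = g w := hz'2
    have hprop : ∀ i j, ∀ w ∈ ball z r, φ w i * χ w j - φ w j * χ w i = 0 := by
      intro i j
      have han : AnalyticOnNhd ℂ (fun w => φ w i * χ w j - φ w j * χ w i) (ball z r) := by
        intro w hw
        have h1 := analyticAt_pi_iff.mp (hr1 w hw).1.1
        have h2 := analyticAt_pi_iff.mp (hr1 w hw).1.2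
        exact ((h1 i).mul (h2 j)).sub ((h1 j).mul (h2 i))
      have h0 : (fun w => φ w i * χ w j - φ w j * χ w i) =ᶠ[𝓝 z'] 0 := by
        filter_upwards [hz'A, isOpen_ball.mem_nhds hz'1] with w hw1 hw2
        obtain ⟨⟨h1, h2⟩, h3, h4⟩ := (hr1 w hw2).2
        rw [h2, h4, Projectivization.mk_eq_mk_iff'] at hw1
        obtain ⟨a, ha⟩ := hw1
        simp only [← ha, Pi.smul_apply, smul_eq_mul, Pi.zero_apply]
        ring
      exact han.eqOn_zero_of_preconnected_of_eventuallyEq_zero (convex_ball z r).isPreconnected hz'1 h0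
    show ∀ᶠ w in 𝓝 z, f w = g w
    filter_upwards [ball_mem_nhds z hr] with w hw
    obtain ⟨⟨h1, h2⟩, h3, h4⟩ := (hr1 w hw).2
    rw [h2, h4, Projectivization.mk_eq_mk_iff']
    obtain ⟨j, hj⟩ : ∃ j, χ w j ≠ 0 := by
      by_contra hcon
      push Not at hcon
      exact h3 (funext hcon)
    refine ⟨φ w j / χ w j, ?_⟩
    funext i
    have h5 := hprop i j w hw
    simp only [Pi.smul_apply, smul_eq_mul]
    field_simp
    linear_combination -h5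
  have hAU : U ⊆ A := hUc.subset_of_closure_inter_subset hAo ⟨z₀, hz₀, h⟩ hcl
  intro z hz
  have h1 : ∀ᶠ w in 𝓝 z, f w = g w := hAU hz
  exact h1.self_of_nhds

end Pool.Agent.H7.Bir

end
end

section

/-!
# MQ3 Hank: the number of distinct roots of an analytic family of polynomials

`A i` are functions on `ℂ × ℂ`, analytic at `0`, and the leading one does not vanish identically near `0`. The number of distinct roots of
`∑ A i p * t ^ i` is at most a number `e` for all `p` near `0` with `A m p ≠ 0`, and it is equal to `e` exactly where a function `D`, analytic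
at `0` and not identically zero near `0`, does not vanish.
-/

set_option autoImplicit false

open Topology Filter

noncomputable section

namespace Pool.Agent.MQ3

open Pool.Agent.MQ.AJ

/-- The Hankel determinant of the power sums vanishes if there are fewer than `e` distinct numbers. -/
theorem hankel_zero {d e f : ℕ} {l : Fin d → ℂ} {m : Fin f → ℂ} (hf : f < e) (h : ∀ j, ∃ k, l j = m k) :
    (Matrix.of fun i j : Fin e => ∑ k, l k ^ ((i : ℕ) + j)).det = 0 := by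
  rw [← Matrix.exists_mulVec_eq_zero_iff]
  refine ⟨fun j => (mp m).coeff j, ?_, ?_⟩
  · intro h0
    have h1 := congrFun h0 ⟨f, hf⟩
    have h2 : (mp m).coeff f = 1 := by
      have := (mp_monic m).coeff_natDegree
      rwa [mp_natDegree] at this
    exact one_ne_zero (h2.symm.trans h1)
  · funext i
    have hev : ∀ k, (mp m).eval (l k) = ∑ j : Fin e, (mp m).coeff j * l k ^ (j : ℕ) := by
      intro k
      rw [Polynomial.eval_eq_sum_range' (n := e) (by rw [mp_natDegree]; exact hf),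
        ← Fin.sum_univ_eq_sum_range (fun j => (mp m).coeff j * l k ^ j)]
    have h1 : ∀ k, (mp m).eval (l k) = 0 := by
      intro k
      obtain ⟨j, hj⟩ := h k
      rw [mp_eval, Finset.prod_eq_zero (Finset.mem_univ j) (by rw [hj, sub_self])]
    have h3 : ∑ j : Fin e, (∑ k, l k ^ ((i : ℕ) + j)) * (mp m).coeff j = ∑ k, l k ^ (i : ℕ) * (mp m).eval (l k) := by
      simp only [hev, Finset.mul_sum, Finset.sum_mul]
      rw [Finset.sum_comm]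
      exact Finset.sum_congr rfl fun k _ => Finset.sum_congr rfl fun j _ => by rw [pow_add]; ring
    have h4 : ∑ k, l k ^ (i : ℕ) * (mp m).eval (l k) = 0 := Finset.sum_eq_zero fun k _ => by rw [h1, mul_zero]
    show ∑ j : Fin e, (∑ k, l k ^ ((i : ℕ) + j)) * (mp m).coeff j = 0
    rw [h3, h4]

/-- The Hankel determinant of the power sums detects the number of distinct roots, if that number is at most `e`. -/
theorem hankel_iff {d e : ℕ} {l : Fin d → ℂ} (h : (Finset.univ.image l).card ≤ e) :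
    (Matrix.of fun i j : Fin e => ∑ k, l k ^ ((i : ℕ) + j)).det ≠ 0 ↔ (Finset.univ.image l).card = e := by
  classical
  constructor
  · intro hd
    by_contra hne
    obtain ⟨m, -, h1, -⟩ := exists_distinct (l := l) rfl
    exact hd (hankel_zero (lt_of_le_of_ne h hne) h1)
  · intro he
    obtain ⟨m, h1, h2, h3⟩ := exists_distinct he
    exact hankel_det h1 h2 h3

/-- The coefficients of the monic polynomial whose roots are `A m * t`, for the roots `t` of `∑ A i * t ^ i`. -/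
def mon {m : ℕ} (A : Fin (m + 1) → ℂ) : Fin m → ℂ := fun i => A i.castSucc * A (Fin.last m) ^ (m - 1 - (i : ℕ))

theorem pv_mon {m : ℕ} (hm : 1 ≤ m) (A : Fin (m + 1) → ℂ) (t : ℂ) :
    pv m (mon A) (A (Fin.last m) * t) = A (Fin.last m) ^ (m - 1) * ∑ i, A i * t ^ (i : ℕ) := by
  rw [pv, Fin.sum_univ_castSucc, mul_add, Finset.mul_sum, add_comm]
  congr 1
  · refine Finset.sum_congr rfl fun i _ => ?_
    have h1 : A (Fin.last m) ^ (m - 1) = A (Fin.last m) ^ (m - 1 - (i : ℕ)) * A (Fin.last m) ^ (i : ℕ) := by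
      rw [← pow_add]
      congr 1
      have := i.2
      omega
    rw [mon, h1, mul_pow, Fin.val_castSucc]
    ring
  · have h1 : A (Fin.last m) ^ m = A (Fin.last m) ^ (m - 1) * A (Fin.last m) := by
      rw [← pow_succ]
      congr 1
      omega
    rw [mul_pow, h1, Fin.val_last]
    ring

theorem ncard_roots {m : ℕ} {A : Fin (m + 1) → ℂ} (h : A (Fin.last m) ≠ 0) {l : Fin m → ℂ}
    (hl : ∀ t, pv m (mon A) t = ∏ j, (t - l j)) :
    {t : ℂ | ∑ i, A i * t ^ (i : ℕ) = 0}.Finite ∧ {t : ℂ | ∑ i, A i * t ^ (i : ℕ) = 0}.ncard = (Finset.univ.image l).card := by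
  classical
  have h1 : {t : ℂ | ∑ i, A i * t ^ (i : ℕ) = 0} = (fun s => s / A (Fin.last m)) '' ((Finset.univ.image l : Finset ℂ) : Set ℂ) := by
    rcases Nat.eq_zero_or_pos m with rfl | hm
    · ext t
      simp only [Set.mem_ofPred_eq, Finset.univ_eq_empty, Finset.image_empty, Finset.coe_empty, Set.image_empty, Set.mem_empty_iff_false, iff_false]
      intro h0
      apply h
      simpa using h0
    · ext t
      have h2 : ∑ i, A i * t ^ (i : ℕ) = 0 ↔ pv m (mon A) (A (Fin.last m) * t) = 0 := by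
        rw [pv_mon hm, mul_eq_zero]
        exact ⟨Or.inr, fun h' => h'.resolve_left (pow_ne_zero _ h)⟩
      simp only [Set.mem_ofPred_eq, Set.mem_image, Finset.coe_image, Finset.coe_univ, Set.image_univ, Set.mem_range]
      rw [h2, hl, Finset.prod_eq_zero_iff]
      constructor
      · rintro ⟨j, -, hj⟩
        exact ⟨l j, ⟨j, rfl⟩, by rw [← sub_eq_zero.1 hj, mul_div_cancel_left₀ _ h]⟩
      · rintro ⟨s, ⟨j, rfl⟩, rfl⟩
        exact ⟨j, Finset.mem_univ j, by rw [mul_div_cancel₀ _ h, sub_self]⟩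
  rw [h1]
  refine ⟨(Finset.finite_toSet _).image _, ?_⟩
  rw [Set.ncard_image_of_injective _ (fun a b hab => (div_left_inj' h).1 hab), Set.ncard_coe_finset]

/-- The number of distinct roots of an analytic family of polynomials. -/
theorem hank {m : ℕ} {A : Fin (m + 1) → ℂ × ℂ → ℂ} (hA : ∀ i, AnalyticAt ℂ (A i) 0)
    (hm : ¬ ∀ᶠ p in 𝓝 (0 : ℂ × ℂ), A (Fin.last m) p = 0) :
    ∃ (e : ℕ) (D : ℂ × ℂ → ℂ), e ≤ m ∧ AnalyticAt ℂ D 0 ∧ (¬ ∀ᶠ p in 𝓝 (0 : ℂ × ℂ), D p = 0) ∧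
      ∀ᶠ p in 𝓝 (0 : ℂ × ℂ), A (Fin.last m) p ≠ 0 →
        {t : ℂ | ∑ i, A i p * t ^ (i : ℕ) = 0}.Finite ∧ {t : ℂ | ∑ i, A i p * t ^ (i : ℕ) = 0}.ncard ≤ e ∧
        (D p ≠ 0 ↔ {t : ℂ | ∑ i, A i p * t ^ (i : ℕ) = 0}.ncard = e) := by
  classical
  choose l hl using fun p : ℂ × ℂ => exists_roots (mon fun i => A i p)
  have hle : ∀ p, (Finset.univ.image (l p)).card ≤ m := fun p => (Finset.card_image_le).trans (by simp)
  -- the maximal number of distinct roots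
  have hex : ∃ e : ℕ, ∀ᶠ p in 𝓝 (0 : ℂ × ℂ), A (Fin.last m) p ≠ 0 → (Finset.univ.image (l p)).card ≤ e :=
    ⟨m, Eventually.of_forall fun p _ => hle p⟩
  let e := Nat.find hex
  have he : ∀ᶠ p in 𝓝 (0 : ℂ × ℂ), A (Fin.last m) p ≠ 0 → (Finset.univ.image (l p)).card ≤ e := Nat.find_spec hex
  have hem : e ≤ m := Nat.find_min' hex (Eventually.of_forall fun p _ => hle p)
  have hfr : ∃ᶠ p in 𝓝 (0 : ℂ × ℂ), A (Fin.last m) p ≠ 0 ∧ (Finset.univ.image (l p)).card = e := by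
    rcases Nat.eq_zero_or_pos e with h0 | h0
    · intro h1
      apply hm
      filter_upwards [h1, he] with p hp hep
      by_contra hne
      exact hp ⟨hne, by have := hep hne; omega⟩
    · have h1 := Nat.find_min hex (m := e - 1) (by show e - 1 < e; omega)
      intro h2
      apply h1
      filter_upwards [h2, he] with p hp hep hne
      have h3 := hep hne
      have h4 : (Finset.univ.image (l p)).card ≠ e := fun h5 => hp ⟨hne, h5⟩
      omega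
  -- the Hankel determinant
  choose S hSa hS using fun k => exists_psum (d := m) k
  have hmon : AnalyticAt ℂ (fun p => mon fun i => A i p) (0 : ℂ × ℂ) :=
    analyticAt_pi_iff.2 fun i => (hA i.castSucc).mul ((hA (Fin.last m)).pow _)
  have hDe : ∀ p, (Matrix.of fun i j : Fin e => S ((i : ℕ) + j) (mon fun i => A i p)).det
      = (Matrix.of fun i j : Fin e => ∑ k, l p k ^ ((i : ℕ) + j)).det := by
    intro p
    congr 1
    ext i j
    exact (hS _ _ _ (hl p)).symm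
  refine ⟨e, fun p => (Matrix.of fun i j : Fin e => S ((i : ℕ) + j) (mon fun i => A i p)).det, hem, ?_, ?_, ?_⟩
  · refine det_analytic (A := fun p => Matrix.of fun i j : Fin e => S ((i : ℕ) + j) (mon fun i => A i p)) fun i j => ?_
    exact (hSa _ _).fun_comp hmon
  · intro h0
    refine hfr ?_
    filter_upwards [h0] with p hp h1
    rw [hDe] at hp
    exact (hankel_iff h1.2.le).2 h1.2 hp
  · filter_upwards [he] with p hp hne
    obtain ⟨h1, h2⟩ := ncard_roots (A := fun i => A i p) hne (hl p)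
    refine ⟨h1, ?_, ?_⟩
    · rw [h2]
      exact hp hne
    · rw [h2, hDe]
      exact hankel_iff (hp hne)

end Pool.Agent.MQ3

end
end
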