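import Pool.Agent.H94.G6.H14.PP.Defs_1
import Pool.Agent.H94.G6.M04
import Pool.Agent.H94.G6.M09
import Pool.Agent.H94.G6.M11
import Pool.Agent.H94.G6.M12

/-! The parts of this file: H13.CV.HomA, H17LG.Defs, H13.CV.BirkA, H14.PP.ConvNum, H14.PP.Params, H62.BU.LiftB, H7.Bir.Iso. -/

section

/-!
# CV HomA: the holomorphic map given by entire functions

For `z₀ : ℂ` let `k` be the least order of the `a i` at `z₀` (finite, as some `a j ≠ 0`: `order_ne_top`), `a i = coord z₀ ^ k * c i` with entire `c i` (`exists_coord_mul`, induction on `k`), not all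
`c i (z₀) = 0`.  `f z₀` is the point `(c i (z₀))_i`.  Near `z₀`, for `z ≠ z₀`, `(a i (z))_i = (z - z₀) ^ k (c i (z))_i ≠ 0`, and the representation at `z` (`k' , c'`) has `a i (z) = 0` for all `i` unless `k' = 0`; so
`k' = 0`, `c' = a` and `f z = [a i (z)] = [c i (z)]`.  So `f` is holomorphic at `z₀` with lift `z ↦ (c i (z))_i`.
-/

set_option autoImplicit false

open Topology Filter
open Pool.Agent.H17 Pool.Agent.H17.EntFun

noncomputable section

namespace Pool.Agent.H13.CV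

private lemma exists_decomp {N : ℕ} (z₀ : ℂ) : ∀ (n : ℕ) (a : Fin (N + 1) → EntFun) (j : Fin (N + 1)), a j ≠ 0 →
    analyticOrderAt (a j : ℂ → ℂ) z₀ = n →
    ∃ (k : ℕ) (c : Fin (N + 1) → EntFun), (fun i => (c i : ℂ → ℂ) z₀) ≠ 0 ∧ ∀ i, a i = coord z₀ ^ k * c i := by
  intro n
  induction n using Nat.strong_induction_on with
  | _ n ih =>
    intro a j hj hn
    by_cases h : (fun i => (a i : ℂ → ℂ) z₀) = 0
    · have h1 : ∀ i, ∃ g : EntFun, a i = coord z₀ * g := fun i => exists_coord_mul (congrFun h i)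
      choose g hg using h1
      have hgj : g j ≠ 0 := by
        intro h2
        apply hj
        rw [hg j, h2, mul_zero]
      obtain ⟨n', hn'⟩ : ∃ n' : ℕ, analyticOrderAt (g j : ℂ → ℂ) z₀ = n' :=
        ⟨_, (Nat.cast_analyticOrderNatAt (order_ne_top hgj z₀)).symm⟩
      have hlt : n' < n := by
        rw [hg j, order_mul, order_coord, hn'] at hn
        have : 1 + n' = n := by exact_mod_cast hn
        omega
      obtain ⟨k, c, hc, he⟩ := ih n' hlt g j hgj hn'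
      refine ⟨k + 1, c, hc, fun i => ?_⟩
      rw [hg i, he i, pow_succ', mul_assoc]
    · exact ⟨0, a, h, fun i => by rw [pow_zero, one_mul]⟩

theorem exists_map {N : ℕ} (a : Fin (N + 1) → EntFun) (ha : ∃ i, a i ≠ 0) :
    ∃ f : ℂ → PN N, HolomorphicInto f Set.univ ∧ ∀ z₀ : ℂ, ∃ (k : ℕ) (c : Fin (N + 1) → EntFun) (h : (fun i => (c i : ℂ → ℂ) z₀) ≠ 0),
      (∀ i, a i = coord z₀ ^ k * c i) ∧ f z₀ = Projectivization.mk ℂ _ h := by
  obtain ⟨j, hj⟩ := ha
  have key : ∀ z₀ : ℂ, ∃ (k : ℕ) (c : Fin (N + 1) → EntFun), (fun i => (c i : ℂ → ℂ) z₀) ≠ 0 ∧ ∀ i, a i = coord z₀ ^ k * c i :=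
    fun z₀ => exists_decomp z₀ _ a j hj (Nat.cast_analyticOrderNatAt (order_ne_top hj z₀)).symm
  choose k c hc he using key
  refine ⟨fun z => Projectivization.mk ℂ (fun i => (c z i : ℂ → ℂ) z) (hc z), ?_,
    fun z₀ => ⟨k z₀, c z₀, hc z₀, he z₀, rfl⟩⟩
  intro z₀ _
  refine ⟨fun z i => (c z₀ i : ℂ → ℂ) z, ?_, ?_⟩
  · exact analyticAt_pi_iff.mpr fun i => (c z₀ i).analyticAt z₀
  · obtain ⟨i₀, hi₀⟩ : ∃ i₀, (c z₀ i₀ : ℂ → ℂ) z₀ ≠ 0 := by
      by_contra h
      push Not at h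
      exact hc z₀ (funext h)
    have hev : ∀ᶠ z in 𝓝 z₀, (c z₀ i₀ : ℂ → ℂ) z ≠ 0 :=
      ((c z₀ i₀).diff z₀).continuousAt.eventually_ne hi₀
    filter_upwards [hev] with z hz
    have h : (fun i => (c z₀ i : ℂ → ℂ) z) ≠ 0 := fun h1 => hz (congrFun h1 i₀)
    refine ⟨h, ?_⟩
    by_cases hzz : z = z₀
    · subst hzz
      rfl
    · have hsub : z - z₀ ≠ 0 := sub_ne_zero.2 hzz
      have h1 : ∀ i, (a i : ℂ → ℂ) z = (z - z₀) ^ k z₀ * (c z₀ i : ℂ → ℂ) z := by
        intro i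
        have h2 := congrArg (fun g : EntFun => ev z g) (he z₀ i)
        simpa using h2
      have h3 : ∀ i, (a i : ℂ → ℂ) z = (z - z) ^ k z * (c z i : ℂ → ℂ) z := by
        intro i
        have h2 := congrArg (fun g : EntFun => ev z g) (he z i)
        simpa using h2
      have hk : k z = 0 := by
        by_contra hk
        have h4 := h3 i₀
        rw [sub_self, zero_pow hk, zero_mul, h1 i₀] at h4
        exact mul_ne_zero (pow_ne_zero _ hsub) hz h4
      have h5 : ∀ i, (c z i : ℂ → ℂ) z = (z - z₀) ^ k z₀ * (c z₀ i : ℂ → ℂ) z := by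
        intro i
        rw [← h1 i, h3 i, hk, pow_zero, one_mul]
      rw [Projectivization.mk_eq_mk_iff]
      refine ⟨Units.mk0 ((z - z₀) ^ k z₀) (pow_ne_zero _ hsub), ?_⟩
      funext i
      rw [h5 i]
      rfl

end Pool.Agent.H13.CV

end
end

section

/-!
# Varieties of log general type, in terms of their function field
-/

open MvPolynomial
open Pool.Agent.H23 (RatForm regularForms PrimeDivisorOver)
open Pool.Agent.H17GT (RegularAlong coordFun functionField)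

noncomputable section

namespace Pool.Agent.H17LG

section FunctionField

variable {K : Type} [Field K] [Algebra ℂ K] {k : ℕ}

/-- The rational `m`-canonical form `f ω^m` has at most logarithmic poles along the prime divisor
`E`: one has `ω = g η` with `η` regular along `E` and `f g ^ m` has a pole of order at most `m`
along `E`. -/
def LogRegularAlong (E : PrimeDivisorOver K k) (m : ℕ) (f : K) (ω : RatForm K k) : Prop :=
  ∃ (g : K) (η : RatForm K k), η ∈ regularForms k E.localRing ∧ ω = g • η ∧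
    0 ≤ E.ord (f * g ^ m) + m

/-- Let `U` be a variety of dimension `k` with function field `K`, and let `B` be the set of the
prime divisors over `K` whose centre lies in the boundary of a compactification of `U`. The variety
`U` is of log general type: for some `m ≥ 1` there are `m`-canonical forms `f₀ ω^m, …, f_r ω^m`,
regular along all prime divisors outside `B`, with at most logarithmic poles along the prime
divisors in `B`, which define a generically finite rational map. -/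
def IsLogGeneralType (B : PrimeDivisorOver K k → Prop) : Prop :=
  ∃ m : ℕ, 1 ≤ m ∧ ∃ ω : RatForm K k, ω ≠ 0 ∧ ∃ (r : ℕ) (f : Fin (r + 1) → K), f 0 ≠ 0 ∧
    (∀ i, ∀ E : PrimeDivisorOver K k, (¬ B E → RegularAlong E m (f i) ω) ∧
      (B E → LogRegularAlong E m (f i) ω)) ∧
    Algebra.IsAlgebraic (IntermediateField.adjoin ℂ (Set.range fun i => f i / f 0)) K

end FunctionField

/-- The function `x_i / x_j` on the subvariety of `ℙ^N` given by `P`. -/
def ratio {N : ℕ} (P : Ideal (MvPolynomial (Fin (N + 1)) ℂ)) [P.IsPrime] (i j : Fin (N + 1)) :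
    functionField P :=
  ⟨coordFun P i / coordFun P j, IntermediateField.subset_adjoin _ _ ⟨i, j, rfl⟩⟩

end Pool.Agent.H17LG

end
end

section

/-!
# CV BirkA: replacing an element of a basis over `ℂ[x]`

`w' i₀ = ∑ c i * w i`, `w' i = w i` for `i ≠ i₀`: a basis over `L` because `c i₀ = γ ≠ 0` (e.g. `Module.Basis.mk` with linear independence and span; or the change of basis by an invertible matrix / linear
equivalence; or `basisOfLinearIndependentOfCardEqFinrank`).  Let `f = ∑ r i * w i = ∑ r' i * w' i`: `r i₀ = γ r' i₀`, `r i = r' i + r' i₀ * c i` for `i ≠ i₀`.  So the `r i` are in `ℂ[x]` if and only if the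
`r' i` are (`γ⁻¹ ∈ ℂ[x]`).
-/

set_option autoImplicit false

open Pool.Agent.H23.Fano (PrimeDivisorOver Form regularForms)

noncomputable section

namespace Pool.Agent.H13.CV

variable {K : Type} [Field K] [Algebra ℂ K] {L : IntermediateField ℂ K} {x : K} {n : ℕ}

theorem AffB.replace (hL : Gen L x) {w : Module.Basis (Fin n) L K} (hw : AffB x w) (i₀ : Fin n) (c : Fin n → K)
    (hc : ∀ i, c i ∈ Algebra.adjoin ℂ {x}) {γ : ℂ} (hγ : γ ≠ 0) (hi₀ : c i₀ = algebraMap ℂ K γ) :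
    ∃ w' : Module.Basis (Fin n) L K, AffB x w' ∧ w' i₀ = ∑ i, c i * w i ∧ ∀ i, i ≠ i₀ → w' i = w i := by
  classical
  have hcL : ∀ i, c i ∈ L := by
    intro i
    rw [hL.eq]
    exact IntermediateField.algebra_adjoin_le_adjoin ℂ {x} (hc i)
  obtain ⟨c', hc'⟩ : ∃ c' : Fin n → L, ∀ i, ((c' i : L) : K) = c i := ⟨fun i => ⟨c i, hcL i⟩, fun i => rfl⟩
  obtain ⟨g, hg⟩ : ∃ g : L, g = algebraMap ℂ L γ := ⟨_, rfl⟩
  have hgK : (g : K) = algebraMap ℂ K γ := by rw [hg]; rfl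
  have hg0 : g ≠ 0 := by
    rw [hg]
    exact (map_ne_zero_iff _ (algebraMap ℂ L).injective).2 hγ
  have hcg : c' i₀ = g := by
    apply Subtype.ext
    rw [hc' i₀, hi₀, hgK]
  obtain ⟨u, hu⟩ : ∃ u : K, u = (∑ i, c' i • w i) - w i₀ := ⟨_, rfl⟩
  have hur : ∀ i, w.repr u i = c' i - if i = i₀ then 1 else 0 := by
    intro i
    rw [hu, map_sub, Finsupp.sub_apply, Module.Basis.repr_sum_self, Module.Basis.repr_self,
      Finsupp.single_apply]
    congr 1
    by_cases h : i = i₀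
    · simp [h]
    · simp [h, Ne.symm h]
  have hur0 : w.repr u i₀ = g - 1 := by rw [hur, if_pos rfl, hcg]
  have hT : ∀ f : K, (LinearMap.id + (LinearMap.toSpanSingleton L K u) ∘ₗ (w.coord i₀) : K →ₗ[L] K) f =
      f + w.repr f i₀ • u := by
    intro f
    simp
  have hS : ∀ f : K, (LinearMap.id - (LinearMap.toSpanSingleton L K u) ∘ₗ (g⁻¹ • w.coord i₀) : K →ₗ[L] K) f =
      f - (g⁻¹ * w.repr f i₀) • u := by
    intro f
    simp
  obtain ⟨T, hTd⟩ : ∃ T : K →ₗ[L] K, ∀ f, T f = f + w.repr f i₀ • u := ⟨_, hT⟩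
  obtain ⟨S, hSd⟩ : ∃ S : K →ₗ[L] K, ∀ f, S f = f - (g⁻¹ * w.repr f i₀) • u := ⟨_, hS⟩
  have hTS : ∀ f, T (S f) = f := by
    intro f
    rw [hTd, hSd, map_sub, map_smul, Finsupp.sub_apply, Finsupp.smul_apply, hur0, smul_eq_mul]
    have e : w.repr f i₀ - g⁻¹ * w.repr f i₀ * (g - 1) = g⁻¹ * w.repr f i₀ := by
      field_simp
      ring
    rw [e]
    abel
  have hST : ∀ f, S (T f) = f := by
    intro f
    rw [hSd, hTd, map_add, map_smul, Finsupp.add_apply, Finsupp.smul_apply, hur0, smul_eq_mul]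
    have e : g⁻¹ * (w.repr f i₀ + w.repr f i₀ * (g - 1)) = w.repr f i₀ := by
      field_simp
      ring
    rw [e]
    abel
  let e : K ≃ₗ[L] K := LinearEquiv.ofLinearMap T S (LinearMap.ext hTS) (LinearMap.ext hST)
  have he : ∀ f, e f = T f := fun f => rfl
  have hes : ∀ f, e.symm f = S f := fun f => rfl
  have hrepr : ∀ f i, (w.map e).repr f i = w.repr f i - g⁻¹ * w.repr f i₀ * (c' i - if i = i₀ then 1 else 0) := by
    intro f i
    rw [Module.Basis.map_repr, LinearEquiv.trans_apply, hes, hSd, map_sub, map_smul, Finsupp.sub_apply,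
      Finsupp.smul_apply, hur, smul_eq_mul]
  have hgi : algebraMap ℂ K γ⁻¹ ∈ Algebra.adjoin ℂ {x} := Subalgebra.algebraMap_mem _ _
  have hgg : algebraMap ℂ K γ ∈ Algebra.adjoin ℂ {x} := Subalgebra.algebraMap_mem _ _
  have hginv : ((g⁻¹ : L) : K) = algebraMap ℂ K γ⁻¹ := by
    rw [map_inv₀, ← hgK]
    rfl
  have hd : ∀ i, (((c' i - if i = i₀ then 1 else 0 : L)) : K) ∈ Algebra.adjoin ℂ {x} := by
    intro i
    have e1 : (((c' i - if i = i₀ then 1 else 0 : L)) : K) = c i - if i = i₀ then 1 else 0 := by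
      split_ifs
      · rw [← hc' i]; rfl
      · rw [← hc' i]; rfl
    rw [e1]
    refine Subalgebra.sub_mem _ (hc i) ?_
    split_ifs
    · exact Subalgebra.one_mem _
    · exact Subalgebra.zero_mem _
  refine ⟨w.map e, ?_, ?_, ?_⟩
  · intro f
    rw [hw f]
    constructor
    · intro h i
      rw [hrepr]
      have e1 : ((w.repr f i - g⁻¹ * w.repr f i₀ * (c' i - if i = i₀ then 1 else 0) : L) : K) =
          ((w.repr f i : L) : K) - ((g⁻¹ : L) : K) * ((w.repr f i₀ : L) : K) *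
            (((c' i - if i = i₀ then 1 else 0 : L)) : K) := rfl
      rw [e1, hginv]
      exact Subalgebra.sub_mem _ (h i) (Subalgebra.mul_mem _ (Subalgebra.mul_mem _ hgi (h i₀)) (hd i))
    · intro h
      have h0 : ((w.repr f i₀ : L) : K) ∈ Algebra.adjoin ℂ {x} := by
        have h1 := h i₀
        rw [hrepr, if_pos rfl, hcg] at h1
        have e1 : w.repr f i₀ - g⁻¹ * w.repr f i₀ * (g - 1) = g⁻¹ * w.repr f i₀ := by
          field_simp
          ring
        rw [e1] at h1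
        have e2 : ((w.repr f i₀ : L) : K) = algebraMap ℂ K γ * (((g⁻¹ * w.repr f i₀ : L)) : K) := by
          have e3 : w.repr f i₀ = g * (g⁻¹ * w.repr f i₀) := by
            field_simp
          rw [← hgK]
          conv_lhs => rw [e3]
          rfl
        rw [e2]
        exact Subalgebra.mul_mem _ hgg h1
      intro i
      have h1 := h i
      rw [hrepr] at h1
      have e1 : ((w.repr f i : L) : K) =
          ((w.repr f i - g⁻¹ * w.repr f i₀ * (c' i - if i = i₀ then 1 else 0) : L) : K) +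
            ((g⁻¹ : L) : K) * ((w.repr f i₀ : L) : K) * (((c' i - if i = i₀ then 1 else 0 : L)) : K) := by
        have e2 : w.repr f i = (w.repr f i - g⁻¹ * w.repr f i₀ * (c' i - if i = i₀ then 1 else 0)) +
            g⁻¹ * w.repr f i₀ * (c' i - if i = i₀ then 1 else 0) := by ring
        conv_lhs => rw [e2]
        rfl
      rw [e1, hginv]
      exact Subalgebra.add_mem _ h1 (Subalgebra.mul_mem _ (Subalgebra.mul_mem _ hgi h0) (hd i))
  · rw [Module.Basis.map_apply, he, hTd, Module.Basis.repr_self, Finsupp.single_eq_same, one_smul, hu]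
    have e1 : ∑ i, c' i • w i = ∑ i, c i * w i := by
      refine Finset.sum_congr rfl fun i _ => ?_
      rw [← hc' i]
      rfl
    rw [e1]
    ring
  · intro i hi
    rw [Module.Basis.map_apply, he, hTd, Module.Basis.repr_self, Finsupp.single_apply, if_neg hi, zero_smul,
      add_zero]

end Pool.Agent.H13.CV

end
end

section

/-!
# BPm ConvNum: the numerical inequality behind the convexity

`P` with `ConvPar P`; `c₁ = exp (-K-1)/2`. Claim: there is `r > 0` such that for `‖s‖, ‖t‖ ≤ 1`,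
`small nd (s,t) ≤ r`, `s ≠ 0`, `s' ≠ 0`, (`nd = true → t ≠ 0`), `A ≥ 4ε(‖s'‖^2 + ‖t'‖^2)` and
`pT nd P s t t' ≤ pN nd P s t s'`:
`A - ε‖s'‖^2 - K‖t'‖^2 + e M κ^2 ‖s‖^(2κ-2) ‖s'‖^2/(1 + M‖s‖^(2κ))^2 > 0`.

Note `(1 + M‖s‖^(2κ))^e ≤ (1+M)^e ≤ exp (ε/16)` for `‖s‖ ≤ 1` (`e_log`).
Step 1: `c₁ ‖t'‖ ≤ ‖s‖^(κ-1) ‖s'‖`. If `nd = false`: `pT ≤ pN` gives
`‖s‖^(1-κ) ‖t'‖ exp (-ε) ≤ ‖s'‖ exp (ε/16)`. If `nd = true`:
`‖s‖^(1-κ) ‖t'‖ exp (-ε - K) ≤ ‖t‖^(1-κ) ‖s'‖ exp (ε/16) ≤ ‖s'‖ exp (ε/16)`. In both cases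
`‖s‖^(1-κ) ‖t'‖ ≤ exp (K + 17ε/16) ‖s'‖ ≤ 2 exp (K+1) ‖s'‖ = c₁⁻¹ ‖s'‖`, because
`exp (1/16) ≤ 2`, `ε ≤ 1`.
Step 2, case `M‖s‖^(2κ) ≤ 1`: the last term is at least `e M κ^2 (c₁‖t'‖)^2/4 ≥ K ‖t'‖^2` by `main`
(`‖s‖^(2κ-2)‖s'‖^2 = (‖s‖^(κ-1)‖s'‖)^2`), and `A - ε‖s'‖^2 ≥ 3ε‖s'‖^2 > 0`.
Step 3, case `M‖s‖^(2κ) > 1`: `‖s‖ > s₁ := M^(-1/(2κ))`, `0 < s₁ ≤ 1`. Let `r < s₁`. Then
`nd = true` and `‖t‖ ≤ r/s₁`. From `pT ≤ pN`:
`‖s‖^(1-κ)‖t'‖ exp (-ε-K) ≤ ‖t‖^(1-κ)‖s'‖ exp (ε/16)` so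
`‖t'‖ ≤ 2 exp (K+1) (r/s₁)^(1-κ) s₁^(κ-1) ‖s'‖`; choose `r` such that the factor
`η = 2 exp (K+1) (r/s₁^2)^(1-κ)` satisfies `K η^2 ≤ ε`. Then `K‖t'‖^2 ≤ ε‖s'‖^2`, the last term is
`≥ 0` and `A - ε‖s'‖^2 - ε‖s'‖^2 ≥ 2ε‖s'‖^2 > 0`.
-/

open Topology Filter Metric

namespace Pool.Agent.H14.PP

private theorem ConvNum_up {P : Par} (hP : ConvPar P) {a : ℝ} (ha0 : 0 ≤ a) (ha : a ≤ 1) :
    (1 + P.M * a ^ (2 * P.κ)) ^ P.e ≤ Real.exp (P.ε / 16) := by
  have hM : 0 ≤ P.M := le_trans zero_le_one hP.M_ge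
  have h1 : a ^ (2 * P.κ) ≤ 1 := Real.rpow_le_one ha0 ha (by linarith [hP.κ_pos])
  have h0 : 0 ≤ a ^ (2 * P.κ) := Real.rpow_nonneg ha0 _
  have h2 : P.M * a ^ (2 * P.κ) ≤ P.M := mul_le_of_le_one_right hM h1
  have h3 : 0 ≤ P.M * a ^ (2 * P.κ) := mul_nonneg hM h0
  calc (1 + P.M * a ^ (2 * P.κ)) ^ P.e ≤ (1 + P.M) ^ P.e :=
        Real.rpow_le_rpow (by linarith) (by linarith) hP.e_pos.le
    _ = Real.exp (Real.log (1 + P.M) * P.e) := Real.rpow_def_of_pos (by linarith) _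
    _ ≤ Real.exp (P.ε / 16) := by
        apply Real.exp_le_exp.mpr
        have := hP.e_log
        linarith

private theorem ConvNum_lo {P : Par} (hP : ConvPar P) {a : ℝ} (ha0 : 0 ≤ a) :
    1 ≤ (1 + P.M * a ^ (2 * P.κ)) ^ P.e := by
  have hM : 0 ≤ P.M := le_trans zero_le_one hP.M_ge
  have h0 : 0 ≤ a ^ (2 * P.κ) := Real.rpow_nonneg ha0 _
  have h3 : 0 ≤ P.M * a ^ (2 * P.κ) := mul_nonneg hM h0
  exact Real.one_le_rpow (by linarith) hP.e_pos.le

private theorem ConvNum_exp {P : Par} (hP : ConvPar P) :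
    Real.exp (P.ε / 16) ≤ 2 * Real.exp (P.K + 1) * (Real.exp (-P.ε) * Real.exp (-P.K)) := by
  have h1 : Real.exp (1 / 16) ≤ 2 := by
    have h2 : (1 : ℝ) / 16 ≤ Real.log 2 := by
      have := Real.log_two_gt_d9
      linarith
    calc Real.exp (1 / 16) ≤ Real.exp (Real.log 2) := Real.exp_le_exp.mpr h2
      _ = 2 := Real.exp_log (by norm_num)
  have h2 : 2 * Real.exp (P.K + 1) * (Real.exp (-P.ε) * Real.exp (-P.K)) =
      2 * Real.exp (1 - P.ε) := by
    rw [mul_assoc, ← Real.exp_add, ← Real.exp_add]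
    congr 2
    ring
  have h3 : Real.exp (P.ε / 16) ≤ Real.exp (1 / 16) * Real.exp (1 - P.ε) := by
    rw [← Real.exp_add]
    apply Real.exp_le_exp.mpr
    have := hP.ε_le
    linarith
  rw [h2]
  exact h3.trans (mul_le_mul_of_nonneg_right h1 (Real.exp_pos _).le)

private theorem ConvNum_key {P : Par} (hP : ConvPar P) (nd : Bool) {s t s' t' : ℂ} (hs : ‖s‖ ≤ 1)
    (ht : ‖t‖ ≤ 1) (h : pT nd P s t t' ≤ pN nd P s t s') :
    ‖s‖ ^ (1 - P.κ) * ‖t'‖ ≤
      (if nd = true then ‖t‖ ^ (1 - P.κ) else 1) * (2 * Real.exp (P.K + 1)) * ‖s'‖ := by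
  have hsU := ConvNum_up hP (norm_nonneg s) hs
  have htL := ConvNum_lo hP (norm_nonneg t)
  have hsL := ConvNum_lo hP (norm_nonneg s)
  have hex := ConvNum_exp hP
  have hs2 : ‖s‖ ^ 2 ≤ 1 := pow_le_one₀ (norm_nonneg s) hs
  have ht2 : ‖t‖ ^ 2 ≤ 1 := pow_le_one₀ (norm_nonneg t) ht
  have e1 : Real.exp (-P.ε) ≤ Real.exp (-P.ε * ‖t‖ ^ 2) := by
    apply Real.exp_le_exp.mpr
    linarith [mul_le_of_le_one_right hP.ε_pos.le ht2]
  have e2 : Real.exp (-P.K) ≤ Real.exp (-P.K * ‖s‖ ^ 2) := by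
    apply Real.exp_le_exp.mpr
    linarith [mul_le_of_le_one_right hP.K_pos.le hs2]
  have e3 : Real.exp (-P.K * ‖t‖ ^ 2) ≤ 1 := by
    apply Real.exp_le_one_iff.mpr
    linarith [mul_nonneg hP.K_pos.le (sq_nonneg ‖t‖)]
  have e4 : Real.exp (-P.ε * ‖s‖ ^ 2) ≤ 1 := by
    apply Real.exp_le_one_iff.mpr
    linarith [mul_nonneg hP.ε_pos.le (sq_nonneg ‖s‖)]
  have e5 : Real.exp (-P.K) ≤ 1 := by
    apply Real.exp_le_one_iff.mpr
    linarith [hP.K_pos]
  have hS : 0 ≤ ‖s‖ ^ (1 - P.κ) := Real.rpow_nonneg (norm_nonneg s) _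
  have hT : 0 ≤ ‖t‖ ^ (1 - P.κ) := Real.rpow_nonneg (norm_nonneg t) _
  have hX : 0 ≤ ‖s‖ ^ (1 - P.κ) * ‖t'‖ := mul_nonneg hS (norm_nonneg t')
  have p1 : 0 < Real.exp (-P.ε) := Real.exp_pos _
  have p2 : 0 < Real.exp (-P.K) := Real.exp_pos _
  have p3 : 0 < Real.exp (-P.K * ‖s‖ ^ 2) := Real.exp_pos _
  have p4 : 0 < Real.exp (-P.ε * ‖t‖ ^ 2) := Real.exp_pos _
  have p5 : 0 < Real.exp (-P.ε) * Real.exp (-P.K) := mul_pos p1 p2
  have p6 : 0 < Real.exp (P.ε / 16) := Real.exp_pos _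
  set Y : ℝ := (if nd = true then ‖t‖ ^ (1 - P.κ) else 1) with hY
  have hY0 : 0 ≤ Y := by
    rw [hY]
    split_ifs
    · exact hT
    · exact zero_le_one
  have hmain : ‖s‖ ^ (1 - P.κ) * ‖t'‖ * (Real.exp (-P.ε) * Real.exp (-P.K)) ≤
      Y * ‖s'‖ * Real.exp (P.ε / 16) := by
    cases nd with
    | false =>
      simp only [pT, pN, Bool.false_eq_true, if_false] at h
      have hY1 : Y = 1 := by
        rw [hY]
        simp
      rw [hY1]
      calc ‖s‖ ^ (1 - P.κ) * ‖t'‖ * (Real.exp (-P.ε) * Real.exp (-P.K))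
          ≤ ‖s‖ ^ (1 - P.κ) * ‖t'‖ * (Real.exp (-P.ε) * 1) :=
            mul_le_mul_of_nonneg_left (mul_le_mul_of_nonneg_left e5 p1.le) hX
        _ ≤ ‖s‖ ^ (1 - P.κ) * ‖t'‖ * Real.exp (-P.ε * ‖t‖ ^ 2) := by
            rw [mul_one]
            exact mul_le_mul_of_nonneg_left e1 hX
        _ ≤ 1 * ‖s'‖ * (1 + P.M * ‖s‖ ^ (2 * P.κ)) ^ P.e * Real.exp (-P.K * ‖t‖ ^ 2) := h
        _ ≤ 1 * ‖s'‖ * Real.exp (P.ε / 16) * 1 := by
            refine mul_le_mul ?_ e3 (Real.exp_pos _).le (by positivity)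
            exact mul_le_mul_of_nonneg_left hsU (by positivity)
        _ = 1 * ‖s'‖ * Real.exp (P.ε / 16) := by ring
    | true =>
      simp only [pT, pN, if_true] at h
      have hY1 : Y = ‖t‖ ^ (1 - P.κ) := by
        rw [hY]
        simp
      rw [hY1]
      calc ‖s‖ ^ (1 - P.κ) * ‖t'‖ * (Real.exp (-P.ε) * Real.exp (-P.K))
          = ‖s‖ ^ (1 - P.κ) * Real.exp (-P.ε) * ‖t'‖ * 1 * Real.exp (-P.K) := by ring
        _ ≤ ‖s‖ ^ (1 - P.κ) * Real.exp (-P.ε * ‖t‖ ^ 2) * ‖t'‖ *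
            (1 + P.M * ‖t‖ ^ (2 * P.κ)) ^ P.e * Real.exp (-P.K * ‖s‖ ^ 2) := by
            refine mul_le_mul ?_ e2 p2.le (by positivity)
            refine mul_le_mul ?_ htL zero_le_one (by positivity)
            exact mul_le_mul_of_nonneg_right (mul_le_mul_of_nonneg_left e1 hS) (norm_nonneg _)
        _ ≤ ‖t‖ ^ (1 - P.κ) * Real.exp (-P.ε * ‖s‖ ^ 2) * ‖s'‖ *
            (1 + P.M * ‖s‖ ^ (2 * P.κ)) ^ P.e * Real.exp (-P.K * ‖t‖ ^ 2) := h
        _ ≤ ‖t‖ ^ (1 - P.κ) * 1 * ‖s'‖ * Real.exp (P.ε / 16) * 1 := by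
            refine mul_le_mul ?_ e3 (Real.exp_pos _).le (by positivity)
            refine mul_le_mul ?_ hsU (by linarith) (by positivity)
            exact mul_le_mul_of_nonneg_right (mul_le_mul_of_nonneg_left e4 hT) (norm_nonneg _)
        _ = ‖t‖ ^ (1 - P.κ) * ‖s'‖ * Real.exp (P.ε / 16) := by ring
  have h3 : ‖s‖ ^ (1 - P.κ) * ‖t'‖ * (Real.exp (-P.ε) * Real.exp (-P.K)) ≤
      (Y * (2 * Real.exp (P.K + 1)) * ‖s'‖) * (Real.exp (-P.ε) * Real.exp (-P.K)) := by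
    calc _ ≤ _ := hmain
      _ ≤ Y * ‖s'‖ * (2 * Real.exp (P.K + 1) * (Real.exp (-P.ε) * Real.exp (-P.K))) :=
          mul_le_mul_of_nonneg_left hex (mul_nonneg hY0 (norm_nonneg _))
      _ = _ := by ring
  exact le_of_mul_le_mul_right h3 p5

theorem conv_num {P : Par} (hP : ConvPar P) :
    ∃ r : ℝ, 0 < r ∧ r ≤ 1 ∧ ∀ (nd : Bool) (s t s' t' : ℂ) (A : ℝ), ‖s‖ ≤ 1 → ‖t‖ ≤ 1 →
      small nd (s, t) ≤ r → s ≠ 0 → s' ≠ 0 → (nd = true → t ≠ 0) →
      4 * P.ε * (‖s'‖ ^ 2 + ‖t'‖ ^ 2) ≤ A → pT nd P s t t' ≤ pN nd P s t s' →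
      0 < A - P.ε * ‖s'‖ ^ 2 - P.K * ‖t'‖ ^ 2 +
        P.e * P.M * P.κ ^ 2 * ‖s‖ ^ (2 * P.κ - 2) * ‖s'‖ ^ 2 / (1 + P.M * ‖s‖ ^ (2 * P.κ)) ^ 2 := by
  have hM0 : 0 < P.M := lt_of_lt_of_le one_pos hP.M_ge
  have hκ := hP.κ_pos
  have hκ4 := hP.κ_le
  have hε := hP.ε_pos
  have hK := hP.K_pos
  have he := hP.e_pos
  set s₁ : ℝ := P.M⁻¹ ^ (1 / (2 * P.κ)) with hs₁
  have hs₁0 : 0 < s₁ := Real.rpow_pos_of_pos (inv_pos.mpr hM0) _
  have hs₁1 : s₁ ≤ 1 := Real.rpow_le_one (inv_pos.mpr hM0).le (inv_le_one_of_one_le₀ hP.M_ge)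
    (by positivity)
  set E : ℝ := 2 * Real.exp (P.K + 1) with hE
  have hE0 : 0 < E := by positivity
  set δ : ℝ := min (1 / 2) (P.ε / (P.K * E ^ 2)) with hδ
  have hδ0 : 0 < δ := lt_min (by norm_num) (by positivity)
  have hδ1 : δ ≤ 1 / 2 := min_le_left _ _
  have hδ2 : P.K * E ^ 2 * δ ≤ P.ε := by
    have h1 : δ ≤ P.ε / (P.K * E ^ 2) := min_le_right _ _
    rw [le_div_iff₀ (by positivity)] at h1
    linarith
  have hr0 : 0 < s₁ ^ 2 * δ := by positivity
  have hr1 : s₁ ^ 2 * δ < s₁ := by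
    have h1 : s₁ ^ 2 ≤ s₁ := by
      rw [pow_two]
      exact mul_le_of_le_one_left hs₁0.le hs₁1
    have h2 : s₁ ^ 2 * δ ≤ s₁ ^ 2 * (1 / 2) := mul_le_mul_of_nonneg_left hδ1 (sq_nonneg _)
    linarith
  refine ⟨s₁ ^ 2 * δ, hr0, by linarith, ?_⟩
  intro nd s t s' t' A hs ht hsm hs0 hs'0 hnd hA hle
  have ha : 0 < ‖s‖ := norm_pos_iff.mpr hs0
  have hσ : 0 < ‖s'‖ := norm_pos_iff.mpr hs'0
  have hτ : 0 ≤ ‖t'‖ := norm_nonneg _
  have hb : 0 ≤ ‖t‖ := norm_nonneg _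
  have hkey := ConvNum_key hP nd hs ht hle
  have hlast : 0 ≤ P.e * P.M * P.κ ^ 2 * ‖s‖ ^ (2 * P.κ - 2) * ‖s'‖ ^ 2 /
      (1 + P.M * ‖s‖ ^ (2 * P.κ)) ^ 2 := by
    have := Real.rpow_nonneg ha.le (2 * P.κ - 2)
    positivity
  have hA2 : 4 * P.ε * ‖s'‖ ^ 2 ≤ A := by
    have : 0 ≤ 4 * P.ε * ‖t'‖ ^ 2 := by positivity
    linarith
  have hεσ : 0 < P.ε * ‖s'‖ ^ 2 := by positivity
  by_cases hc : P.M * ‖s‖ ^ (2 * P.κ) ≤ 1
  · -- step 2
    have hY : (if nd = true then ‖t‖ ^ (1 - P.κ) else 1) ≤ (1 : ℝ) := by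
      split_ifs
      · exact Real.rpow_le_one hb ht (by linarith)
      · exact le_rfl
    have h1 : ‖s‖ ^ (1 - P.κ) * ‖t'‖ ≤ E * ‖s'‖ := by
      calc _ ≤ _ := hkey
        _ ≤ 1 * E * ‖s'‖ := by
            refine mul_le_mul_of_nonneg_right (mul_le_mul_of_nonneg_right hY hE0.le) hσ.le
        _ = E * ‖s'‖ := by ring
    have h2 : ‖s‖ ^ (P.κ - 1) * ‖s‖ ^ (1 - P.κ) = 1 := by
      rw [← Real.rpow_add ha]
      have : P.κ - 1 + (1 - P.κ) = 0 := by ring
      rw [this, Real.rpow_zero]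
    have h3 : ‖t'‖ ≤ E * (‖s‖ ^ (P.κ - 1) * ‖s'‖) := by
      have h4 := mul_le_mul_of_nonneg_left h1 (Real.rpow_nonneg ha.le (P.κ - 1))
      calc ‖t'‖ = ‖s‖ ^ (P.κ - 1) * ‖s‖ ^ (1 - P.κ) * ‖t'‖ := by rw [h2, one_mul]
        _ = ‖s‖ ^ (P.κ - 1) * (‖s‖ ^ (1 - P.κ) * ‖t'‖) := by ring
        _ ≤ _ := h4
        _ = _ := by ring
    have hexp : Real.exp (-P.K - 1) / 2 * E = 1 := by
      rw [hE]
      calc Real.exp (-P.K - 1) / 2 * (2 * Real.exp (P.K + 1)) =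
          Real.exp (-P.K - 1) * Real.exp (P.K + 1) := by ring
        _ = Real.exp (-P.K - 1 + (P.K + 1)) := (Real.exp_add _ _).symm
        _ = 1 := by
            have : -P.K - 1 + (P.K + 1) = 0 := by ring
            rw [this, Real.exp_zero]
    set c₁ : ℝ := Real.exp (-P.K - 1) / 2 with hc₁
    have hc₁0 : 0 < c₁ := by positivity
    have h5 : c₁ * ‖t'‖ ≤ ‖s‖ ^ (P.κ - 1) * ‖s'‖ := by
      calc c₁ * ‖t'‖ ≤ c₁ * (E * (‖s‖ ^ (P.κ - 1) * ‖s'‖)) := mul_le_mul_of_nonneg_left h3 hc₁0.le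
        _ = c₁ * E * (‖s‖ ^ (P.κ - 1) * ‖s'‖) := by ring
        _ = _ := by rw [hexp, one_mul]
    have h6 : (c₁ * ‖t'‖) ^ 2 ≤ (‖s‖ ^ (P.κ - 1) * ‖s'‖) ^ 2 :=
      pow_le_pow_left₀ (by positivity) h5 2
    have h7 : (‖s‖ ^ (P.κ - 1)) ^ 2 = ‖s‖ ^ (2 * P.κ - 2) := by
      rw [← Real.rpow_natCast, ← Real.rpow_mul ha.le]
      congr 1
      push_cast
      ring
    have h8 : (1 + P.M * ‖s‖ ^ (2 * P.κ)) ^ 2 ≤ 4 := by
      have h9 : 0 ≤ P.M * ‖s‖ ^ (2 * P.κ) := mul_nonneg hM0.le (Real.rpow_nonneg ha.le _)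
      have h10 := pow_le_pow_left₀ (add_nonneg zero_le_one h9) (add_le_add_right hc 1) 2
      exact h10.trans (by norm_num)
    have h10 : P.K * ‖t'‖ ^ 2 ≤ P.e * P.M * P.κ ^ 2 * ‖s‖ ^ (2 * P.κ - 2) * ‖s'‖ ^ 2 /
        (1 + P.M * ‖s‖ ^ (2 * P.κ)) ^ 2 := by
      have h11 : 0 < (1 + P.M * ‖s‖ ^ (2 * P.κ)) ^ 2 := by
        have h9 : 0 ≤ P.M * ‖s‖ ^ (2 * P.κ) := mul_nonneg hM0.le (Real.rpow_nonneg ha.le _)
        positivity
      rw [le_div_iff₀ h11]
      have hm := hP.main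
      calc P.K * ‖t'‖ ^ 2 * (1 + P.M * ‖s‖ ^ (2 * P.κ)) ^ 2 ≤ P.K * ‖t'‖ ^ 2 * 4 :=
            mul_le_mul_of_nonneg_left h8 (by positivity)
        _ ≤ P.e * P.M * P.κ ^ 2 * c₁ ^ 2 / 4 * ‖t'‖ ^ 2 * 4 := by
            refine mul_le_mul_of_nonneg_right (mul_le_mul_of_nonneg_right hm (by positivity))
              (by norm_num)
        _ = P.e * P.M * P.κ ^ 2 * (c₁ * ‖t'‖) ^ 2 := by ring
        _ ≤ P.e * P.M * P.κ ^ 2 * (‖s‖ ^ (P.κ - 1) * ‖s'‖) ^ 2 :=
            mul_le_mul_of_nonneg_left h6 (by positivity)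
        _ = P.e * P.M * P.κ ^ 2 * ‖s‖ ^ (2 * P.κ - 2) * ‖s'‖ ^ 2 := by
            rw [mul_pow, h7]
            ring
    linarith
  · -- step 3
    push Not at hc
    have h1 : s₁ < ‖s‖ := by
      have h2 : P.M⁻¹ < ‖s‖ ^ (2 * P.κ) := by
        rw [inv_lt_iff_one_lt_mul₀ hM0]
        linarith
      have h3 := Real.rpow_lt_rpow (inv_pos.mpr hM0).le h2 (z := 1 / (2 * P.κ)) (by positivity)
      rw [← Real.rpow_mul ha.le] at h3
      have h4 : 2 * P.κ * (1 / (2 * P.κ)) = 1 := by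
        field_simp
      rw [h4, Real.rpow_one] at h3
      exact h3
    have hnd' : nd = true := by
      by_contra hn
      have hn2 : nd = false := by simpa using hn
      rw [hn2] at hsm
      simp only [small, Bool.false_eq_true, if_false] at hsm
      linarith
    subst hnd'
    simp only [small, if_true] at hsm
    have hbr : ‖t‖ ≤ s₁ * δ := by
      have h2 : s₁ * ‖t‖ ≤ s₁ * (s₁ * δ) := by
        calc s₁ * ‖t‖ ≤ ‖s‖ * ‖t‖ := mul_le_mul_of_nonneg_right h1.le hb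
          _ ≤ s₁ ^ 2 * δ := hsm
          _ = s₁ * (s₁ * δ) := by ring
      exact le_of_mul_le_mul_left h2 hs₁0
    simp only [if_true] at hkey
    have h2 : s₁ ^ (1 - P.κ) * ‖t'‖ ≤ s₁ ^ (1 - P.κ) * (δ ^ (1 - P.κ) * E * ‖s'‖) := by
      calc s₁ ^ (1 - P.κ) * ‖t'‖ ≤ ‖s‖ ^ (1 - P.κ) * ‖t'‖ :=
            mul_le_mul_of_nonneg_right (Real.rpow_le_rpow hs₁0.le h1.le (by linarith)) hτ
        _ ≤ ‖t‖ ^ (1 - P.κ) * E * ‖s'‖ := hkey
        _ ≤ (s₁ * δ) ^ (1 - P.κ) * E * ‖s'‖ := by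
            refine mul_le_mul_of_nonneg_right (mul_le_mul_of_nonneg_right ?_ hE0.le) hσ.le
            exact Real.rpow_le_rpow hb hbr (by linarith)
        _ = _ := by
            rw [Real.mul_rpow hs₁0.le hδ0.le]
            ring
    have h3 : ‖t'‖ ≤ δ ^ (1 - P.κ) * E * ‖s'‖ :=
      le_of_mul_le_mul_left h2 (Real.rpow_pos_of_pos hs₁0 _)
    have h4 : ‖t'‖ ^ 2 ≤ (δ ^ (1 - P.κ) * E * ‖s'‖) ^ 2 := pow_le_pow_left₀ hτ h3 2
    have h5 : (δ ^ (1 - P.κ)) ^ 2 ≤ δ := by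
      rw [← Real.rpow_natCast, ← Real.rpow_mul hδ0.le]
      calc δ ^ ((1 - P.κ) * ((2 : ℕ) : ℝ)) ≤ δ ^ (1 : ℝ) := by
            apply Real.rpow_le_rpow_of_exponent_ge hδ0 (by linarith)
            push_cast
            linarith
        _ = δ := Real.rpow_one _
    have h6 : P.K * ‖t'‖ ^ 2 ≤ P.ε * ‖s'‖ ^ 2 := by
      calc P.K * ‖t'‖ ^ 2 ≤ P.K * (δ ^ (1 - P.κ) * E * ‖s'‖) ^ 2 :=
            mul_le_mul_of_nonneg_left h4 hK.le
        _ = P.K * E ^ 2 * (δ ^ (1 - P.κ)) ^ 2 * ‖s'‖ ^ 2 := by ring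
        _ ≤ P.K * E ^ 2 * δ * ‖s'‖ ^ 2 := by
            refine mul_le_mul_of_nonneg_right (mul_le_mul_of_nonneg_left h5 (by positivity))
              (by positivity)
        _ ≤ P.ε * ‖s'‖ ^ 2 := mul_le_mul_of_nonneg_right hδ2 (by positivity)
    linarith

end Pool.Agent.H14.PP

end

section

/-!
# BPm Params: choice of the parameters

Given `C ≥ 1`, `ε₁ > 0`, `κ₁ > 0`: `ε = min ε₁ 1`; `κ = min (min (1/4) κ₁) (ε/(8 (1 + log C)))`; `K > 0` with
`16 C^4 e^2 ≤ exp (3K/4)`; then `M ≥ 1` so large that with `e = ε/(16 log (1 + M))`: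
`K ≤ e M κ^2 (exp (-K-1)/2)^2/4`, possible because `M/log (1+M) → ∞`.
-/

open Topology Filter Metric

namespace Pool.Agent.H14.PP

theorem exists_params {C ε₁ κ₁ : ℝ} (hC : 1 ≤ C) (hε₁ : 0 < ε₁) (hκ₁ : 0 < κ₁) :
    ∃ P : Par, P.ε ≤ ε₁ ∧ P.κ ≤ κ₁ ∧ DomPar C P ∧ ConvPar P := by
  have hC0 : 0 < C := by linarith
  have hlogC : 0 ≤ Real.log C := Real.log_nonneg hC
  obtain ⟨ε, hε, hε1, hεε₁⟩ : ∃ ε : ℝ, 0 < ε ∧ ε ≤ 1 ∧ ε ≤ ε₁ :=
    ⟨min ε₁ 1, lt_min hε₁ one_pos, min_le_right _ _, min_le_left _ _⟩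
  obtain ⟨κ, hκ, hκ4, hκκ₁, hκC⟩ : ∃ κ : ℝ, 0 < κ ∧ κ ≤ 1 / 4 ∧ κ ≤ κ₁ ∧ κ ≤ ε / (8 * (1 + Real.log C)) := by
    have h1 : 0 < ε / (8 * (1 + Real.log C)) := by positivity
    refine ⟨min (min (1 / 4) κ₁) (ε / (8 * (1 + Real.log C))), ?_, ?_, ?_, ?_⟩
    · exact lt_min (lt_min (by norm_num) hκ₁) h1
    · exact (min_le_left _ _).trans (min_le_left _ _)
    · exact (min_le_left _ _).trans (min_le_right _ _)
    · exact min_le_right _ _
  have hκlog : κ * Real.log C ≤ ε / 8 := by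
    have h1 : 0 < 8 * (1 + Real.log C) := by positivity
    rw [le_div_iff₀ h1] at hκC
    have h2 : 0 ≤ κ := hκ.le
    nlinarith
  obtain ⟨K, hK, hKe⟩ : ∃ K : ℝ, 0 < K ∧ 16 * C ^ 4 * Real.exp 2 ≤ Real.exp (3 * K / 4) := by
    have h1 : 1 < 16 * C ^ 4 * Real.exp 2 := by
      have h2 : 1 ≤ C ^ 4 := one_le_pow₀ hC
      have h3 : 1 ≤ Real.exp 2 := Real.one_le_exp (by norm_num)
      nlinarith [mul_le_mul h2 h3 zero_le_one (by positivity)]
    have h2 : 0 < Real.log (16 * C ^ 4 * Real.exp 2) := Real.log_pos h1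
    refine ⟨4 / 3 * Real.log (16 * C ^ 4 * Real.exp 2), by positivity, ?_⟩
    have h3 : 3 * (4 / 3 * Real.log (16 * C ^ 4 * Real.exp 2)) / 4 = Real.log (16 * C ^ 4 * Real.exp 2) := by
      ring
    rw [h3, Real.exp_log (by linarith)]
  have hc : 0 < ε * κ ^ 2 * (Real.exp (-K - 1) / 2) ^ 2 / (64 * K) := by positivity
  obtain ⟨M, hM, hlogM⟩ : ∃ M : ℝ, 1 ≤ M ∧
      Real.log (1 + M) ≤ ε * κ ^ 2 * (Real.exp (-K - 1) / 2) ^ 2 / (64 * K) * M := by
    have h := Real.isLittleO_log_id_atTop.def (half_pos hc)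
    obtain ⟨x, hx, hx2⟩ := (h.and (eventually_ge_atTop (2 : ℝ))).exists
    refine ⟨x - 1, by linarith, ?_⟩
    have e1 : 1 + (x - 1) = x := by ring
    rw [e1]
    have e2 : |Real.log x| ≤ ε * κ ^ 2 * (Real.exp (-K - 1) / 2) ^ 2 / (64 * K) / 2 * |x| := by
      simpa only [Real.norm_eq_abs, id_eq] using hx
    rw [abs_of_nonneg (by linarith : (0 : ℝ) ≤ x)] at e2
    have e3 := (le_abs_self _).trans e2
    have e4 : ε * κ ^ 2 * (Real.exp (-K - 1) / 2) ^ 2 / (64 * K) / 2 * x ≤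
        ε * κ ^ 2 * (Real.exp (-K - 1) / 2) ^ 2 / (64 * K) * (x - 1) := by
      have e5 : x / 2 ≤ x - 1 := by linarith
      have e6 := mul_le_mul_of_nonneg_left e5 hc.le
      calc _ = ε * κ ^ 2 * (Real.exp (-K - 1) / 2) ^ 2 / (64 * K) * (x / 2) := by ring
        _ ≤ _ := e6
    exact e3.trans e4
  have hlog0 : 0 < Real.log (1 + M) := Real.log_pos (by linarith)
  have hlogne : Real.log (1 + M) ≠ 0 := hlog0.ne'
  have he : ε / (16 * Real.log (1 + M)) * Real.log (1 + M) = ε / 16 := by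
    field_simp
  have hmain : K ≤ ε / (16 * Real.log (1 + M)) * M * κ ^ 2 * (Real.exp (-K - 1) / 2) ^ 2 / 4 := by
    have h1 : Real.log (1 + M) * (64 * K) ≤ ε * κ ^ 2 * (Real.exp (-K - 1) / 2) ^ 2 * M := by
      have h2 := mul_le_mul_of_nonneg_right hlogM (by positivity : (0 : ℝ) ≤ 64 * K)
      calc Real.log (1 + M) * (64 * K) ≤ _ := h2
        _ = ε * κ ^ 2 * (Real.exp (-K - 1) / 2) ^ 2 * M := by
          field_simp
    have h3 : ε / (16 * Real.log (1 + M)) * M * κ ^ 2 * (Real.exp (-K - 1) / 2) ^ 2 / 4 =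
        ε * κ ^ 2 * (Real.exp (-K - 1) / 2) ^ 2 * M / (64 * Real.log (1 + M)) := by
      field_simp
      norm_num
    rw [h3, le_div_iff₀ (by positivity)]
    calc K * (64 * Real.log (1 + M)) = Real.log (1 + M) * (64 * K) := by ring
      _ ≤ _ := h1
  have hepos : 0 < ε / (16 * Real.log (1 + M)) := by positivity
  refine ⟨⟨ε, κ, K, M, ε / (16 * Real.log (1 + M))⟩, hεε₁, hκκ₁, ?_, ?_⟩
  · exact ⟨hε, hε1, hκ, hκ4, hκlog, hK, hKe, hM, hepos, he.le⟩
  · exact ⟨hε, hε1, hκ, hκ4, hK, hM, hepos, he.le, hmain⟩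

end Pool.Agent.H14.PP

end

section

/-!
# BU LiftB: lifting holomorphic curves to the blow-up, equations of the total transform

`lift_curve`: `g z = phi l (f z)` is analytic at `z₀` and not `0` near `z₀` identically (some `l b (f z) ≠ 0` frequently: `hne`), so `g z = (z - z₀)^k • F z` with `F z₀ ≠ 0`, `F` analytic (`AnalyticAt.exists_eventuallyEq_pow_smul_nonzero_iff`);
for `z ≠ z₀` near `z₀` some `l b (f z) ≠ 0` and `F z = (z - z₀)^(-k) • phi l (f z) ∈ dense`; `F z₀` is a limit and `≠ 0` (`blow_closed`).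
`curve_comp`: components (`comp_mem`).
`total_eq`: equations.  `Q i` continuous, homogeneous of degree `D ≥ 1`.
-/

set_option autoImplicit false

namespace Pool.Agent.H62.BU

open Filter Topology

variable {V : Type*} [NormedAddCommGroup V] [NormedSpace ℂ V] {ι : Type*} [Fintype ι]
variable {l : ι → V →L[ℂ] ℂ} {X : Set V} {σ : ℂ × ℂ → V} {τ : V → ℂ × ℂ}

theorem lift_curve {f : ℂ → V} {z₀ : ℂ} (hf : AnalyticAt ℂ f z₀) (hfX : ∀ᶠ z in 𝓝 z₀, f z ∈ X)
    (hne : ∃ᶠ z in 𝓝[≠] z₀, ∃ b, l b (f z) ≠ 0) :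
    ∃ (k : ℕ) (F : ℂ → ι → V), AnalyticAt ℂ F z₀ ∧ (∀ᶠ z in 𝓝 z₀, F z ∈ blow l X) ∧
      ∀ᶠ z in 𝓝 z₀, phi l (f z) = (z - z₀) ^ k • F z := by
  have hg : AnalyticAt ℂ (fun z => phi l (f z)) z₀ := by
    rw [analyticAt_pi_iff]
    intro b
    exact (((l b).analyticAt (f z₀)).comp hf).smul hf
  have hnot : ¬ ∀ᶠ z in 𝓝 z₀, phi l (f z) = 0 := by
    intro h
    refine hne ?_
    filter_upwards [h.filter_mono nhdsWithin_le_nhds] with z hz hb
    exact phi_ne hb hz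
  obtain ⟨k, F, hF, hF0, hFe⟩ := (hg.exists_eventuallyEq_pow_smul_nonzero_iff).2 hnot
  have hFne : ∀ᶠ z in 𝓝 z₀, F z ≠ 0 := hF.continuousAt.eventually_ne hF0
  have hpunc : ∀ᶠ z in 𝓝[≠] z₀, F z ∈ blow l X := by
    filter_upwards [(hFne.and (hFe.and hfX)).filter_mono nhdsWithin_le_nhds, self_mem_nhdsWithin]
      with z hz hzz
    obtain ⟨h1, h2, h3⟩ := hz
    have h4 : (z - z₀) ^ k ≠ 0 := pow_ne_zero _ (sub_ne_zero.2 hzz)
    have h5 : ∃ b, l b (f z) ≠ 0 := by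
      by_contra hcon
      push Not at hcon
      have h6 : phi l (f z) = 0 := by
        funext b
        show l b (f z) • f z = 0
        rw [hcon b, zero_smul]
      rw [h6] at h2
      exact smul_ne_zero h4 h1 h2.symm
    have h7 : F z = ((z - z₀) ^ k)⁻¹ • phi l (f z) := by
      rw [h2, smul_smul, inv_mul_cancel₀ h4, one_smul]
    rw [h7]
    exact dense_sub (dense_smul (phi_mem_dense h3 h5) (inv_ne_zero h4))
  have hz0 : F z₀ ∈ blow l X := by
    refine blow_closed _ ?_ hF0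
    exact mem_closure_of_tendsto (hF.continuousAt.tendsto.mono_left nhdsWithin_le_nhds) hpunc
  refine ⟨k, F, hF, ?_, hFe⟩
  rw [eventually_nhdsWithin_iff] at hpunc
  filter_upwards [hpunc] with z hz
  by_cases h : z = z₀
  · rw [h]; exact hz0
  · exact hz h

theorem total_eq (hX : Surface X) {B : Set V} {κ : Type*} {Q : κ → V → ℂ} {D : ℕ} (hD : D ≠ 0)
    (hQ : ∀ i (c : ℂ) x, Q i (c • x) = c ^ D * Q i x) (hB : ∀ x, x ∈ B ↔ x ∈ X ∧ ∀ i, Q i x = 0) (y : ι → V) :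
    y ∈ total l X B ↔ y ∈ blow l X ∧ ∀ i b, Q i (y b) = 0 := by
  constructor
  · rintro ⟨h1, h2⟩
    refine ⟨h1, fun i b => ?_⟩
    by_cases hb : y b = 0
    · rw [hb]
      have h3 := hQ i 0 (0 : V)
      rwa [smul_zero, zero_pow hD, zero_mul] at h3
    · exact ((hB _).1 (h2 b hb)).2 i
  · rintro ⟨h1, h2⟩
    exact ⟨h1, fun b hb => (hB _).2 ⟨comp_mem hX y h1 hb, fun i => h2 i b⟩⟩

end Pool.Agent.H62.BU

end

section

/-!
# Bir Iso: varieties of general type and isomorphisms of function fields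

The property `IsLogGeneralType` (with empty boundary) depends only on the function field up to `ℂ`-isomorphism.
-/

set_option autoImplicit false

open Pool.Agent.H23.Fano (Form Diff ExtPow regularForms PrimeDivisorOver)
open Pool.Agent.H17LG.Variety (PoleAtMost IsLogGeneralType)

noncomputable section

namespace Pool.Agent.H7.Bir

variable {K L : Type} [Field K] [Algebra ℂ K] [Field L] [Algebra ℂ L]

/-- The map of rational forms induced by an isomorphism of fields. -/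
theorem exists_formMap (e : K ≃ₐ[ℂ] L) (k : ℕ) : ∃ Φ : Form K k →+ Form L k, (∀ c ω, Φ (c • ω) = e c • Φ ω) ∧
    ∀ c a, Φ (Form.mk c a) = Form.mk (e c) fun i => e (a i) := by
  let _ : Algebra K L := e.toRingHom.toAlgebra
  have _ : IsScalarTower ℂ K L := by
    refine IsScalarTower.of_algebraMap_eq fun r => ?_
    exact (e.commutes r).symm
  let D : Ω[K⁄ℂ] →ₗ[K] Ω[L⁄ℂ] := KaehlerDifferential.map ℂ ℂ K L
  let _ : Module K (⋀[L]^k Ω[L⁄ℂ]) := Module.compHom _ e.toRingHom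
  have hD : ∀ (c : K) (x : Ω[K⁄ℂ]), D (c • x) = e c • D x := by
    intro c x
    rw [map_smul]
    exact algebra_compatible_smul L c (D x)
  have hup : ∀ [DecidableEq (Fin k)] (v : Fin k → Ω[K⁄ℂ]) (i : Fin k) (t : Ω[K⁄ℂ]),
      (fun j => D (Function.update v i t j)) = Function.update (fun j => D (v j)) i (D t) := by
    intro _ v i t
    funext j
    by_cases hj : j = i
    · subst hj
      simp
    · simp [Function.update_of_ne hj]
  let A : Ω[K⁄ℂ] [⋀^Fin k]→ₗ[K] (⋀[L]^k Ω[L⁄ℂ]) :=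
    { toFun := fun v => exteriorPower.ιMulti L k fun i => D (v i)
      map_update_add' := by
        intro _ v i x y
        rw [hup, hup, hup, map_add, (exteriorPower.ιMulti L k).map_update_add]
      map_update_smul' := by
        intro _ v i c x
        rw [hup, hup, hD, (exteriorPower.ιMulti L k).map_update_smul]
        rfl
      map_eq_zero_of_eq' := by
        intro v i j h hij
        exact (exteriorPower.ιMulti L k).map_eq_zero_of_eq _ (by simp only [h]) hij }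
  let F : (⋀[K]^k Ω[K⁄ℂ]) →ₗ[K] (⋀[L]^k Ω[L⁄ℂ]) := exteriorPower.alternatingMapLinearEquiv A
  refine ⟨F.toAddMonoidHom, fun c ω => ?_, fun c a => ?_⟩
  · exact F.map_smul c ω
  · have h1 : F (c • exteriorPower.ιMulti K k fun i => KaehlerDifferential.D ℂ K (a i)) =
        e c • exteriorPower.ιMulti L k fun i => D (KaehlerDifferential.D ℂ K (a i)) := by
      rw [F.map_smul]
      change e c • F _ = _
      congr 1
      exact exteriorPower.alternatingMapLinearEquiv_apply_ιMulti A _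
    have h2 : ∀ x : K, D (KaehlerDifferential.D ℂ K x) = KaehlerDifferential.D ℂ L (e x) :=
      fun x => KaehlerDifferential.map_D ℂ ℂ K L x
    simp only [h2] at h1
    exact h1

/-- Every rational form is a sum of forms `c da₁ ∧ ⋯ ∧ da_k`. -/
theorem closure_mk (k : ℕ) : AddSubgroup.closure {ω : Form K k | ∃ (c : K) (a : Fin k → K), ω = Form.mk c a} = ⊤ := by
  rw [eq_top_iff]
  rintro (ω : ⋀[K]^k Ω[K⁄ℂ]) -
  have hs : ∀ (c : K) (η : Form K k), η ∈ AddSubgroup.closure {ω : Form K k | ∃ (c : K) (a : Fin k → K), ω = Form.mk c a} →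
      c • η ∈ AddSubgroup.closure {ω : Form K k | ∃ (c : K) (a : Fin k → K), ω = Form.mk c a} := by
    intro c η hη
    induction hη using AddSubgroup.closure_induction with
    | mem x hx =>
      obtain ⟨c', a, rfl⟩ := hx
      exact AddSubgroup.subset_closure ⟨c * c', a,
        smul_smul c c' (exteriorPower.ιMulti K k fun i => KaehlerDifferential.D ℂ K (a i))⟩
    | zero =>
      rw [smul_zero]
      exact zero_mem _
    | add x y _ _ hx hy =>
      rw [smul_add]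
      exact add_mem hx hy
    | neg x _ hx =>
      rw [smul_neg]
      exact neg_mem hx
  have hω : ω ∈ Submodule.span K (exteriorPower.ιMulti K k '' {a | Set.range a ⊆ Set.range (KaehlerDifferential.D ℂ K)}) := by
    rw [exteriorPower.ιMulti_span_of_span _ _ _ (KaehlerDifferential.span_range_derivation ℂ K)]
    trivial
  refine Submodule.span_induction (p := fun (η : ⋀[K]^k Ω[K⁄ℂ]) _ =>
    (η : Form K k) ∈ AddSubgroup.closure {ω : Form K k | ∃ (c : K) (a : Fin k → K), ω = Form.mk c a}) ?_ ?_ ?_ ?_ hω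
  · rintro _ ⟨a, ha, rfl⟩
    choose b hb using fun i => ha ⟨i, rfl⟩
    refine AddSubgroup.subset_closure ⟨1, b, ?_⟩
    unfold Form.mk
    rw [one_smul]
    change exteriorPower.ιMulti K k a = exteriorPower.ιMulti K k fun i => KaehlerDifferential.D ℂ K (b i)
    congr 1
    funext i
    exact (hb i).symm
  · exact zero_mem _
  · exact fun x y _ _ hx hy => add_mem hx hy
  · exact fun c x _ hx => hs c x hx

theorem formMap_injective (e : K ≃ₐ[ℂ] L) {k : ℕ} {Φ : Form K k →+ Form L k}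
    (hΦ : ∀ c a, Φ (Form.mk c a) = Form.mk (e c) fun i => e (a i)) : Function.Injective Φ := by
  obtain ⟨Ψ, -, hΨ⟩ := exists_formMap e.symm k
  have h : ∀ ω, Ψ (Φ ω) = ω := by
    intro ω
    have hω : ω ∈ AddSubgroup.closure {ω : Form K k | ∃ (c : K) (a : Fin k → K), ω = Form.mk c a} := by
      rw [closure_mk]
      trivial
    induction hω using AddSubgroup.closure_induction with
    | mem x hx =>
      obtain ⟨c, a, rfl⟩ := hx
      rw [hΦ, hΨ]
      simp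
    | zero => simp
    | add x y _ _ hx hy => rw [map_add, map_add, hx, hy]
    | neg x _ hx => rw [map_neg, map_neg, hx]
  exact Function.LeftInverse.injective h

theorem formMap_regular (e : K ≃ₐ[ℂ] L) {k : ℕ} {Φ : Form K k →+ Form L k}
    (hΦ : ∀ c a, Φ (Form.mk c a) = Form.mk (e c) fun i => e (a i)) {A : Set K} {B : Set L}
    (hAB : ∀ x ∈ A, e x ∈ B) {η : Form K k} (hη : η ∈ regularForms k A) : Φ η ∈ regularForms k B := by
  unfold regularForms at hη ⊢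
  induction hη using AddSubgroup.closure_induction with
  | mem x hx =>
    obtain ⟨c, a, hc, ha, rfl⟩ := hx
    rw [hΦ]
    exact AddSubgroup.subset_closure ⟨e c, fun i => e (a i), hAB c hc, fun i => hAB _ (ha i), rfl⟩
  | zero =>
    rw [map_zero]
    exact zero_mem _
  | add x y _ _ hx hy =>
    rw [map_add]
    exact add_mem hx hy
  | neg x _ hx =>
    rw [map_neg]
    exact neg_mem hx

/-- The prime divisor of `K` given by a prime divisor of `L`. -/
def pull (e : K ≃ₐ[ℂ] L) {k : ℕ} (E : PrimeDivisorOver L k) : PrimeDivisorOver K k where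
  ord := E.ord.comap (e : K →+* L)
  ord_const c := by
    change 0 ≤ E.ord (e (algebraMap ℂ K c))
    rw [e.commutes]
    exact E.ord_const c
  exists_uniformizer := by
    obtain ⟨t, ht⟩ := E.exists_uniformizer
    refine ⟨e.symm t, ?_⟩
    change E.ord (e (e.symm t)) = 1
    rw [e.apply_symm_apply, ht]
  residue_trdeg := by
    obtain ⟨s, hs, hp⟩ := E.residue_trdeg
    refine ⟨fun i => e.symm (s i), fun i => ?_, fun p hp0 => ?_⟩
    · change 0 ≤ E.ord (e (e.symm (s i)))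
      rw [e.apply_symm_apply]
      exact hs i
    · change E.ord (e (MvPolynomial.aeval (fun i => e.symm (s i)) p)) = 0
      have h : e (MvPolynomial.aeval (fun i => e.symm (s i)) p) = MvPolynomial.aeval s p := by
        have h1 := MvPolynomial.comp_aeval (fun i => e.symm (s i)) (e : K →ₐ[ℂ] L)
        have h2 := DFunLike.congr_fun h1 p
        have h3 : (fun i => (e : K →ₐ[ℂ] L) (e.symm (s i))) = s := by
          funext i
          exact e.apply_symm_apply _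
        rw [h3] at h2
        exact h2
      rw [h]
      exact hp p hp0

theorem isGT_of_equiv (e : K ≃ₐ[ℂ] L) {k : ℕ} (h : IsLogGeneralType (K := K) (k := k) fun _ => False) :
    IsLogGeneralType (K := L) (k := k) fun _ => False := by
  obtain ⟨Φ, hsm, hmk⟩ := exists_formMap e k
  obtain ⟨m, hm, ω, hω, r, f, hf0, hf, halg⟩ := h
  refine ⟨m, hm, Φ ω, ?_, r, fun i => e (f i), ?_, ?_, ?_⟩
  · intro h0
    exact hω (formMap_injective e hmk (by rw [h0, map_zero]))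
  · intro h0
    exact hf0 ((map_eq_zero_iff e e.injective).1 h0)
  · intro i E
    refine ⟨fun _ => ?_, fun h => h.elim⟩
    obtain ⟨g, η, hη, hωg, hord⟩ := (hf i (pull e E)).1 not_false
    refine ⟨e g, Φ η, formMap_regular e hmk (fun x hx => hx) hη, ?_, ?_⟩
    · rw [hωg, hsm]
    · have h1 : e (f i) * e g ^ m = e (f i * g ^ m) := by
        rw [map_mul e, map_pow e]
      have h2 : E.ord (e (f i) * e g ^ m) = (pull e E).ord (f i * g ^ m) := by
        rw [h1]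
        rfl
      rw [h2]
      exact hord
  · have hsub : ∀ x : K, x ∈ IntermediateField.adjoin ℂ (Set.range fun i => f i / f 0) →
        e x ∈ IntermediateField.adjoin ℂ (Set.range fun i => e (f i) / e (f 0)) := by
      intro x hx
      have h1 : e x ∈ (IntermediateField.adjoin ℂ (Set.range fun i => f i / f 0)).map (e : K →ₐ[ℂ] L) := ⟨x, hx, rfl⟩
      rw [IntermediateField.adjoin_map] at h1
      refine IntermediateField.adjoin.mono _ _ _ ?_ h1
      rintro _ ⟨_, ⟨i, rfl⟩, rfl⟩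
      exact ⟨i, (map_div₀ e (f i) (f 0)).symm⟩
    refine ⟨fun y => ?_⟩
    let φ : IntermediateField.adjoin ℂ (Set.range fun i => f i / f 0) →+*
        IntermediateField.adjoin ℂ (Set.range fun i => e (f i) / e (f 0)) :=
      { toFun := fun x => ⟨e x, hsub x x.2⟩
        map_one' := Subtype.ext (map_one e)
        map_mul' := fun x y => Subtype.ext (map_mul e _ _)
        map_zero' := Subtype.ext (map_zero e)
        map_add' := fun x y => Subtype.ext (map_add e _ _) }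
    have h1 := (halg.isAlgebraic (e.symm y)).ringHom_of_comp_eq φ (e : K →+* L) φ.injective (by
      ext x
      rfl)
    have h2 : (e : K →+* L) (e.symm y) = y := e.apply_symm_apply y
    rwa [h2] at h1

end Pool.Agent.H7.Bir

end
end
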