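import Mathlib

/-! The parts of this file: H13.SM.Pts, H13.SM.Noether, H13.SM.Lift, H62.BP.MinMod, H62.FC.Avg, H92.GT.Index, MQ2.SlopeD, MQ3.LiftW. -/

section

/-!
# The complex points of an affine variety with generic point `a`

`a : ι → K` generates the field `K` over `ℂ`.  The affine variety is the spectrum of
`A = Algebra.adjoin ℂ (Set.range a)`; its points are the `w : ι → ℂ` at which all polynomials which
vanish at `a` vanish.

PROOF of `isClosed_pts`.  Intersection of the closed sets `eval w Q = 0`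
(`MvPolynomial.continuous_eval`).

PROOF of `pts_of_algHom`.  `eval (fun i => φ ⟨a i, _⟩) Q = φ ⟨aeval a Q, _⟩` (both sides are algebra
homs of `Q`, or induction on `Q`), and `φ 0 = 0`.

PROOF of `root_at`.  Let `M : Polynomial (MvPolynomial (Fin n) ℂ) →+* MvPolynomial ι ℂ` be
`Polynomial.eval₂RingHom (aeval B).toRingHom Z`.  Then `aeval a (M p) = (p.map (aeval b)).eval (aeval a
Z)` since `aeval a (B j) = b j`, and `eval w (M p) = (p.map (eval (fun j => eval w (B j)))).eval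
(eval w Z)` (both by `Polynomial.hom_eval₂` and `MvPolynomial.comp_aeval` / `ringHom_ext`).
-/

open MvPolynomial

noncomputable section

namespace Pool.Agent.H13.SM

variable {ι K : Type} [Field K] [Algebra ℂ K]

/-- The complex points of the affine variety with generic point `a`. -/
def pts (a : ι → K) : Set (ι → ℂ) :=
  {w | ∀ Q : MvPolynomial ι ℂ, aeval a Q = 0 → eval w Q = 0}

theorem isClosed_pts [Finite ι] (a : ι → K) : IsClosed (pts a) := by
  have h : pts a = ⋂ Q ∈ {Q : MvPolynomial ι ℂ | aeval a Q = 0}, {w : ι → ℂ | eval w Q = 0} := by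
    ext w
    simp only [pts, Set.mem_ofPred_eq, Set.mem_iInter]
  rw [h]
  exact isClosed_biInter fun Q _ => isClosed_eq (MvPolynomial.continuous_eval Q) continuous_const

theorem aeval_mem_adjoin (a : ι → K) (Q : MvPolynomial ι ℂ) :
    aeval a Q ∈ Algebra.adjoin ℂ (Set.range a) := by
  rw [Algebra.adjoin_range_eq_range_aeval]
  exact ⟨Q, rfl⟩

/-- An algebra hom from the ring of functions to `ℂ` is the evaluation at a point. -/
theorem exists_pt_of_algHom (a : ι → K) (φ : Algebra.adjoin ℂ (Set.range a) →ₐ[ℂ] ℂ) :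
    ∃ w ∈ pts a, ∀ Q : MvPolynomial ι ℂ, eval w Q = φ ⟨aeval a Q, aeval_mem_adjoin a Q⟩ := by
  have key : ∀ Q : MvPolynomial ι ℂ,
      eval (fun i => φ ⟨a i, Algebra.subset_adjoin (Set.mem_range_self i)⟩) Q =
        φ ⟨aeval a Q, aeval_mem_adjoin a Q⟩ := by
    intro Q
    have h1 := MvPolynomial.comp_aeval_apply
      (fun i => (⟨a i, Algebra.subset_adjoin (Set.mem_range_self i)⟩ : Algebra.adjoin ℂ (Set.range a)))
      φ Q
    have h2 := MvPolynomial.comp_aeval_apply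
      (fun i => (⟨a i, Algebra.subset_adjoin (Set.mem_range_self i)⟩ : Algebra.adjoin ℂ (Set.range a)))
      (Algebra.adjoin ℂ (Set.range a)).val Q
    have h3 : aeval (fun i => (⟨a i, Algebra.subset_adjoin (Set.mem_range_self i)⟩ :
        Algebra.adjoin ℂ (Set.range a))) Q = ⟨aeval a Q, aeval_mem_adjoin a Q⟩ := by
      apply Subtype.ext
      exact h2
    rw [← h3, h1, MvPolynomial.aeval_eq_eval]
  refine ⟨fun i => φ ⟨a i, Algebra.subset_adjoin (Set.mem_range_self i)⟩, ?_, key⟩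
  intro Q hQ
  rw [key Q]
  have h4 : (⟨aeval a Q, aeval_mem_adjoin a Q⟩ : Algebra.adjoin ℂ (Set.range a)) = 0 :=
    Subtype.ext hQ
  rw [h4, map_zero]

/-- If `Z` is a root of `p` on the variety, with coefficients functions of the `b j = aeval a (B j)`,
then this holds at each point. -/
theorem root_at {n : ℕ} {a : ι → K} {b : Fin n → K} {B : Fin n → MvPolynomial ι ℂ}
    (hB : ∀ j, aeval a (B j) = b j) {Z : MvPolynomial ι ℂ}
    {p : Polynomial (MvPolynomial (Fin n) ℂ)}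
    (hp : (p.map (aeval b : MvPolynomial (Fin n) ℂ →ₐ[ℂ] K).toRingHom).eval (aeval a Z) = 0)
    {w : ι → ℂ} (hw : w ∈ pts a) :
    (p.map (eval fun j => eval w (B j))).eval (eval w Z) = 0 := by
  have h1 : aeval a (p.eval₂ (aeval B : MvPolynomial (Fin n) ℂ →ₐ[ℂ] MvPolynomial ι ℂ).toRingHom Z)
      = 0 := by
    have e1 := Polynomial.hom_eval₂ p
      (aeval B : MvPolynomial (Fin n) ℂ →ₐ[ℂ] MvPolynomial ι ℂ).toRingHom
      (aeval a : MvPolynomial ι ℂ →ₐ[ℂ] K).toRingHom Z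
    have e2 : (aeval a : MvPolynomial ι ℂ →ₐ[ℂ] K).toRingHom.comp
        (aeval B : MvPolynomial (Fin n) ℂ →ₐ[ℂ] MvPolynomial ι ℂ).toRingHom =
        (aeval b : MvPolynomial (Fin n) ℂ →ₐ[ℂ] K).toRingHom := by
      have e3 : (aeval a : MvPolynomial ι ℂ →ₐ[ℂ] K).comp
          (aeval B : MvPolynomial (Fin n) ℂ →ₐ[ℂ] MvPolynomial ι ℂ) = aeval b := by
        apply MvPolynomial.algHom_ext
        intro j
        rw [AlgHom.comp_apply, aeval_X, aeval_X]
        exact hB j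
      rw [← e3]
      rfl
    rw [e2] at e1
    rw [Polynomial.eval_map] at hp
    exact e1.trans hp
  have h2 := hw _ h1
  have e4 := Polynomial.hom_eval₂ p
    (aeval B : MvPolynomial (Fin n) ℂ →ₐ[ℂ] MvPolynomial ι ℂ).toRingHom (eval w) Z
  have e5 : (eval w).comp (aeval B : MvPolynomial (Fin n) ℂ →ₐ[ℂ] MvPolynomial ι ℂ).toRingHom =
      eval fun j => eval w (B j) := by
    apply MvPolynomial.ringHom_ext
    · intro r
      simp
    · intro j
      simp
  rw [e5] at e4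
  rw [Polynomial.eval_map, ← e4]
  exact h2

end Pool.Agent.H13.SM

end
end

section

/-!
# Noether normalisation

PROOF.  `A = Algebra.adjoin ℂ (Set.range a)` is an algebra of finite type (`Subalgebra.fg_adjoin_...`,
`Subalgebra.fg_iff_finiteType`) and is nontrivial, so by `exists_finite_inj_algHom_of_fg` there are
`s` and `g : MvPolynomial (Fin s) ℂ →ₐ[ℂ] A` injective and finite.  Let `b' j = g (X j)`, an
algebraically independent family of `K` (`g` and the inclusion are injective).  Each element of `A` is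
integral over the range of `g`, the algebra generated by the `b' j` (`RingHom.Finite.to_isIntegral`).
`K = IntermediateField.adjoin ℂ (Set.range a)` is algebraic over `IntermediateField.adjoin ℂ (Set.range
b')`, since all `a i` are.  So `b'` is a transcendence basis of `K` and `s = n` by
`IsTranscendenceBasis.cardinalMk_eq` (or `lift_cardinalMk_eq_trdeg`).  Write `b' j = aeval a (B j)`.
-/

open MvPolynomial

noncomputable section

namespace Pool.Agent.H13.SM

variable {ι K : Type} [Field K] [Algebra ℂ K]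

/-- The surjection from polynomials to the adjoined algebra. -/
private def Noether_phi {n : ℕ} (b : Fin n → K) :
    MvPolynomial (Fin n) ℂ →ₐ[ℂ] Algebra.adjoin ℂ (Set.range b) :=
  (aeval b : MvPolynomial (Fin n) ℂ →ₐ[ℂ] K).codRestrict (Algebra.adjoin ℂ (Set.range b)) (by
    intro x
    rw [Algebra.adjoin_range_eq_range_aeval]
    exact ⟨x, rfl⟩)

private theorem Noether_phi_coe {n : ℕ} (b : Fin n → K) (x : MvPolynomial (Fin n) ℂ) :
    (Noether_phi b x : K) = aeval b x := rfl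

private theorem Noether_phi_surj {n : ℕ} (b : Fin n → K) : Function.Surjective (Noether_phi b) := by
  rintro ⟨y, hy⟩
  have h := hy
  rw [Algebra.adjoin_range_eq_range_aeval] at h
  obtain ⟨x, hx⟩ := h
  exact ⟨x, Subtype.ext hx⟩

private theorem Noether_algebraic [Finite ι] {a : ι → K}
    (ha : IntermediateField.adjoin ℂ (Set.range a) = ⊤) {s : ℕ} (b : Fin s → K)
    (hb : ∀ i, IsIntegral (Algebra.adjoin ℂ (Set.range b)) (a i)) :
    Algebra.IsAlgebraic (Algebra.adjoin ℂ (Set.range b)) K := by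
  constructor
  intro x
  have hx : x ∈ IntermediateField.adjoin ℂ (Set.range a) := by
    rw [ha]; exact IntermediateField.mem_top
  induction hx using IntermediateField.adjoin_induction with
  | mem y hy =>
    obtain ⟨i, rfl⟩ := hy
    exact (hb i).isAlgebraic
  | algebraMap y =>
    have h1 : algebraMap ℂ K y =
        algebraMap (Algebra.adjoin ℂ (Set.range b)) K (algebraMap ℂ (Algebra.adjoin ℂ (Set.range b)) y) := rfl
    rw [h1]
    exact isAlgebraic_algebraMap _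
  | add y z _ _ hy hz => exact hy.add hz
  | inv y _ hy => exact hy.inv
  | mul y z _ _ hy hz => exact hy.mul hz

theorem exists_noether [Finite ι] {a : ι → K}
    (ha : IntermediateField.adjoin ℂ (Set.range a) = ⊤) {n : ℕ} {z : Fin n → K}
    (hz : IsTranscendenceBasis ℂ z) :
    ∃ (b : Fin n → K) (B : Fin n → MvPolynomial ι ℂ), AlgebraicIndependent ℂ b ∧
      (∀ j, aeval a (B j) = b j) ∧ ∀ i, IsIntegral (Algebra.adjoin ℂ (Set.range b)) (a i) := by
  set A := Algebra.adjoin ℂ (Set.range a) with hA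
  have : Algebra.FiniteType ℂ A := by
    refine (Subalgebra.fg_iff_finiteType _).1 ?_
    have h := Subalgebra.fg_adjoin_finset (R := ℂ) (Set.finite_range a).toFinset
    rwa [Set.Finite.coe_toFinset] at h
  obtain ⟨s, g, ginj, gint⟩ := exists_integral_inj_algHom_of_fg ℂ A
  set b' : Fin s → K := fun j => (g (X j) : K) with hb'
  have haev : (aeval b' : MvPolynomial (Fin s) ℂ →ₐ[ℂ] K) = A.val.comp g := by
    refine MvPolynomial.algHom_ext fun j => ?_
    rw [aeval_X]; rfl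
  have hind : AlgebraicIndependent ℂ b' := by
    show Function.Injective (aeval b' : MvPolynomial (Fin s) ℂ →ₐ[ℂ] K)
    rw [haev]
    exact Subtype.val_injective.comp ginj
  have hint : ∀ i, IsIntegral (Algebra.adjoin ℂ (Set.range b')) (a i) := by
    intro i
    have hai : a i ∈ A := Algebra.subset_adjoin ⟨i, rfl⟩
    obtain ⟨p, hp1, hp2⟩ := gint ⟨a i, hai⟩
    refine ⟨p.map (Noether_phi b').toRingHom, hp1.map _, ?_⟩
    rw [Polynomial.eval₂_map]
    have h1 := congrArg (fun x : A => (x : K)) hp2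
    have h2 : A.val.toRingHom (Polynomial.eval₂ g.toRingHom ⟨a i, hai⟩ p) = 0 := h1
    rw [Polynomial.hom_eval₂] at h2
    have h3 : A.val.toRingHom.comp g.toRingHom =
        (algebraMap (Algebra.adjoin ℂ (Set.range b')) K).comp (Noether_phi b').toRingHom := by
      refine RingHom.ext fun x => ?_
      have h4 : (aeval b' x : K) = A.val (g x) := by rw [haev]; rfl
      show A.val (g x) = (Noether_phi b' x : K)
      rw [Noether_phi_coe, h4]
    rw [← h3]
    exact h2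
  have hbas : IsTranscendenceBasis ℂ b' :=
    hind.isTranscendenceBasis_iff_isAlgebraic.2 (Noether_algebraic ha b' hint)
  have hsn : s = n := by
    have h1 := hbas.cardinalMk_eq hz
    simpa using h1
  subst hsn
  have hB : ∀ j, ∃ Q : MvPolynomial ι ℂ, aeval a Q = b' j := by
    intro j
    have h1 : b' j ∈ A := (g (X j)).2
    rw [hA, Algebra.adjoin_range_eq_range_aeval] at h1
    exact h1
  choose B hB using hB
  exact ⟨b', B, hind, hB, hint⟩

/-- The polynomial form of integrality: `aeval a Z` is a root of a monic polynomial whose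
coefficients are polynomials in `b`. -/
theorem exists_monic {a : ι → K} {n : ℕ} {b : Fin n → K}
    (hint : ∀ i, IsIntegral (Algebra.adjoin ℂ (Set.range b)) (a i)) (Z : MvPolynomial ι ℂ) :
    ∃ p : Polynomial (MvPolynomial (Fin n) ℂ), p.Monic ∧
      (p.map (aeval b : MvPolynomial (Fin n) ℂ →ₐ[ℂ] K).toRingHom).eval (aeval a Z) = 0 := by
  set C₀ := Algebra.adjoin ℂ (Set.range b) with hC₀
  have hZ : IsIntegral C₀ (aeval a Z) := by
    have h1 : aeval a Z ∈ Algebra.adjoin ℂ (Set.range a) := aeval_mem_adjoin a Z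
    have h2 : Algebra.adjoin ℂ (Set.range a) ≤ (integralClosure C₀ K).restrictScalars ℂ := by
      refine Algebra.adjoin_le ?_
      rintro _ ⟨i, rfl⟩
      exact hint i
    exact h2 h1
  obtain ⟨p, hp1, hp2⟩ := hZ
  have hlift : p ∈ Polynomial.lifts (Noether_phi b).toRingHom := by
    rw [Polynomial.lifts_iff_coeff_lifts]
    intro k
    exact Noether_phi_surj b (p.coeff k)
  obtain ⟨P, hP1, -, hP2⟩ := Polynomial.lifts_and_natDegree_eq_and_monic hlift hp1
  refine ⟨P, hP2, ?_⟩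
  have h3 : (aeval b : MvPolynomial (Fin n) ℂ →ₐ[ℂ] K).toRingHom =
      (algebraMap C₀ K).comp (Noether_phi b).toRingHom := rfl
  rw [h3, ← Polynomial.map_map, hP1, Polynomial.eval_map]
  exact hp2

end Pool.Agent.H13.SM

end
end

section

/-!
# Lying over

PROOF of `exists_lift`.  Let `R = MvPolynomial (Fin n) ℂ`, which maps to
`A = Algebra.adjoin ℂ (Set.range a)` by `X j ↦ b j`; this map is injective and integral
(`exists_monic`).  `ζ = aeval a Z` is an element of `A`, `μ = minpoly R ζ`: it is monic and, `R` being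
integrally closed, it divides each polynomial with root `ζ`, so `AdjoinRoot μ → A` is injective.

Let `y', T'` satisfy `(μ.map (eval y')).eval T' = 0`.  `AdjoinRoot.lift` gives a ring hom
`χ : AdjoinRoot μ →+* ℂ` with `χ (X j) = y' j`, `χ root = T'` and which is the identity on `ℂ`.  It is
surjective, so its kernel `M` is a maximal ideal.  By `Ideal.exists_ideal_over_maximal_of_isIntegral`
there is a maximal ideal `Q` of `A` over `M`.  `A ⧸ Q` is a field and a `ℂ`-algebra of finite type, so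
it is finite over `ℂ` and `algebraMap ℂ (A ⧸ Q)` is bijective.  This gives `φ : A →ₐ[ℂ] ℂ` with kernel
`Q`, and `φ s = χ s` for `s` in `AdjoinRoot μ`.  The point of `φ` (`exists_pt_of_algHom`) has
`eval w (B j) = φ (b j) = y' j` and `eval w Z = φ ζ = T'`.
-/

open MvPolynomial

noncomputable section

namespace Pool.Agent.H13.SM

variable {ι K : Type} [Field K] [Algebra ℂ K]

/-- A maximal ideal of a `ℂ`-algebra of finite type is the kernel of an algebra hom to `ℂ`. -/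
private theorem Lift_exists_algHom {A : Type} [CommRing A] [Algebra ℂ A] [Algebra.FiniteType ℂ A]
    (Q : Ideal A) [hQ : Q.IsMaximal] : ∃ φ : A →ₐ[ℂ] ℂ, ∀ x, φ x = 0 ↔ x ∈ Q := by
  let : Field (A ⧸ Q) := Ideal.Quotient.field Q
  have : Module.Finite ℂ (A ⧸ Q) := finite_of_finite_type_of_isJacobsonRing ℂ (A ⧸ Q)
  have : Algebra.IsIntegral ℂ (A ⧸ Q) := Algebra.IsIntegral.of_finite ℂ (A ⧸ Q)
  have hbij : Function.Bijective (algebraMap ℂ (A ⧸ Q)) :=
    IsAlgClosed.algebraMap_bijective_of_isIntegral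
  let e : ℂ ≃ₐ[ℂ] (A ⧸ Q) := AlgEquiv.ofBijective (Algebra.ofId ℂ (A ⧸ Q)) hbij
  refine ⟨(e.symm : (A ⧸ Q) →ₐ[ℂ] ℂ).comp (Ideal.Quotient.mkₐ ℂ Q), fun x => ?_⟩
  have h1 : ((e.symm : (A ⧸ Q) →ₐ[ℂ] ℂ).comp (Ideal.Quotient.mkₐ ℂ Q)) x
      = e.symm (Ideal.Quotient.mk Q x) := rfl
  rw [h1, map_eq_zero_iff _ e.symm.injective, Ideal.Quotient.eq_zero_iff_mem]

/-- There is a monic polynomial `μ` for `Z` such that each root of a specialisation of `μ` is
attained at a point of the variety. -/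
theorem exists_lift [Finite ι] {a : ι → K} {n : ℕ} {b : Fin n → K} (hb : AlgebraicIndependent ℂ b)
    {B : Fin n → MvPolynomial ι ℂ} (hB : ∀ j, aeval a (B j) = b j)
    (hint : ∀ i, IsIntegral (Algebra.adjoin ℂ (Set.range b)) (a i)) (Z : MvPolynomial ι ℂ) :
    ∃ μ : Polynomial (MvPolynomial (Fin n) ℂ), μ.Monic ∧
      (μ.map (aeval b : MvPolynomial (Fin n) ℂ →ₐ[ℂ] K).toRingHom).eval (aeval a Z) = 0 ∧
      ∀ (y' : Fin n → ℂ) (T' : ℂ), (μ.map (eval y')).eval T' = 0 →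
        ∃ w ∈ pts a, (∀ j, eval w (B j) = y' j) ∧ eval w Z = T' := by
  classical
  have hbA : ∀ j, b j ∈ Algebra.adjoin ℂ (Set.range a) := fun j => by
    rw [← hB j]; exact aeval_mem_adjoin a (B j)
  -- the ring hom from R to A
  let ρ : MvPolynomial (Fin n) ℂ →ₐ[ℂ] Algebra.adjoin ℂ (Set.range a) :=
    aeval (fun j => (⟨b j, hbA j⟩ : Algebra.adjoin ℂ (Set.range a)))
  have hρ : (Algebra.adjoin ℂ (Set.range a)).val.comp ρ = aeval b := by
    apply MvPolynomial.algHom_ext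
    intro j
    simp [ρ]
  have hρ' : ∀ q, ((ρ q : Algebra.adjoin ℂ (Set.range a)) : K) = aeval b q := fun q => by
    rw [← hρ]; rfl
  have hinj : Function.Injective ρ := by
    intro q q' h
    apply hb
    rw [← hρ' q, ← hρ' q', h]
  let alg : Algebra (MvPolynomial (Fin n) ℂ) (Algebra.adjoin ℂ (Set.range a)) :=
    ρ.toRingHom.toAlgebra
  have halg : ∀ q, algebraMap (MvPolynomial (Fin n) ℂ) (Algebra.adjoin ℂ (Set.range a)) q = ρ q :=
    fun q => rfl
  have : FaithfulSMul (MvPolynomial (Fin n) ℂ) (Algebra.adjoin ℂ (Set.range a)) :=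
    (faithfulSMul_iff_algebraMap_injective _ _).2 hinj
  -- integrality
  have hI : ∀ x : Algebra.adjoin ℂ (Set.range a), IsIntegral (MvPolynomial (Fin n) ℂ) x := by
    intro x
    obtain ⟨x, hx⟩ := x
    obtain ⟨Q, hQ⟩ : ∃ Q : MvPolynomial ι ℂ, aeval a Q = x := by
      rw [Algebra.adjoin_range_eq_range_aeval] at hx
      exact hx
    obtain ⟨p, hp, hp0⟩ := exists_monic hint Q
    refine ⟨p, hp, ?_⟩
    apply Subtype.coe_injective
    have h1 := Polynomial.hom_eval₂ p (algebraMap (MvPolynomial (Fin n) ℂ)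
      (Algebra.adjoin ℂ (Set.range a))) (Algebra.adjoin ℂ (Set.range a)).val.toRingHom ⟨x, hx⟩
    have h2 : (Algebra.adjoin ℂ (Set.range a)).val.toRingHom.comp
        (algebraMap (MvPolynomial (Fin n) ℂ) (Algebra.adjoin ℂ (Set.range a)))
        = (aeval b : MvPolynomial (Fin n) ℂ →ₐ[ℂ] K).toRingHom := by
      ext q
      · exact hρ' _
      · exact hρ' _
    rw [h2] at h1
    rw [Polynomial.eval_map, hQ] at hp0
    exact h1.trans hp0
  have : Algebra.IsIntegral (MvPolynomial (Fin n) ℂ) (Algebra.adjoin ℂ (Set.range a)) := ⟨hI⟩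
  let ζ : Algebra.adjoin ℂ (Set.range a) := ⟨aeval a Z, aeval_mem_adjoin a Z⟩
  let μ : Polynomial (MvPolynomial (Fin n) ℂ) := minpoly (MvPolynomial (Fin n) ℂ) ζ
  have hμ : μ.Monic := minpoly.monic (hI ζ)
  have hμ0 : μ.eval₂ (algebraMap (MvPolynomial (Fin n) ℂ) (Algebra.adjoin ℂ (Set.range a))) ζ = 0 :=
    minpoly.aeval (MvPolynomial (Fin n) ℂ) ζ
  refine ⟨μ, hμ, ?_, ?_⟩
  · have h1 := Polynomial.hom_eval₂ μ (algebraMap (MvPolynomial (Fin n) ℂ)
      (Algebra.adjoin ℂ (Set.range a))) (Algebra.adjoin ℂ (Set.range a)).val.toRingHom ζ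
    have h2 : (Algebra.adjoin ℂ (Set.range a)).val.toRingHom.comp
        (algebraMap (MvPolynomial (Fin n) ℂ) (Algebra.adjoin ℂ (Set.range a)))
        = (aeval b : MvPolynomial (Fin n) ℂ →ₐ[ℂ] K).toRingHom := by
      ext q
      · exact hρ' _
      · exact hρ' _
    rw [h2, hμ0, map_zero] at h1
    rw [Polynomial.eval_map]
    exact h1.symm
  · intro y' T' hT
    rw [Polynomial.eval_map] at hT
    let χ : AdjoinRoot μ →+* ℂ := AdjoinRoot.lift (eval y') T' hT
    let θ : AdjoinRoot μ →+* Algebra.adjoin ℂ (Set.range a) :=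
      AdjoinRoot.lift (algebraMap (MvPolynomial (Fin n) ℂ) (Algebra.adjoin ℂ (Set.range a))) ζ hμ0
    have hχof : ∀ q, χ (AdjoinRoot.of μ q) = eval y' q := fun q => AdjoinRoot.lift_of hT
    have hχroot : χ (AdjoinRoot.root μ) = T' := AdjoinRoot.lift_root hT
    have hθof : ∀ q, θ (AdjoinRoot.of μ q) = ρ q := fun q => AdjoinRoot.lift_of hμ0
    have hθroot : θ (AdjoinRoot.root μ) = ζ := AdjoinRoot.lift_root hμ0
    have hsurj : Function.Surjective χ := by
      intro c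
      refine ⟨AdjoinRoot.of μ (C c), ?_⟩
      rw [hχof, eval_C]
    have hM : (RingHom.ker χ).IsMaximal := RingHom.ker_isMaximal_of_surjective χ hsurj
    let algθ : Algebra (AdjoinRoot μ) (Algebra.adjoin ℂ (Set.range a)) := θ.toAlgebra
    have : IsScalarTower (MvPolynomial (Fin n) ℂ) (AdjoinRoot μ)
        (Algebra.adjoin ℂ (Set.range a)) := by
      apply IsScalarTower.of_algebraMap_eq
      intro q
      exact (hθof q).symm
    have : Algebra.IsIntegral (AdjoinRoot μ) (Algebra.adjoin ℂ (Set.range a)) :=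
      Algebra.IsIntegral.tower_top (MvPolynomial (Fin n) ℂ)
    have hker : RingHom.ker (algebraMap (AdjoinRoot μ) (Algebra.adjoin ℂ (Set.range a)))
        ≤ RingHom.ker χ := by
      intro s hs
      obtain ⟨p, rfl⟩ := AdjoinRoot.mk_surjective s
      have h1 : Polynomial.aeval ζ p = 0 := by
        have h2 : θ (AdjoinRoot.mk μ p) = 0 := hs
        rwa [AdjoinRoot.lift_mk] at h2
      have h3 : μ ∣ p := minpoly.isIntegrallyClosed_dvd (hI ζ) h1
      have h4 : AdjoinRoot.mk μ p = 0 := AdjoinRoot.mk_eq_zero.2 h3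
      rw [h4]
      exact Ideal.zero_mem _
    obtain ⟨Q, hQ, hQM⟩ := Ideal.exists_ideal_over_maximal_of_isIntegral
      (S := Algebra.adjoin ℂ (Set.range a)) (RingHom.ker χ) hker
    have := hQ
    have : Algebra.FiniteType ℂ (Algebra.adjoin ℂ (Set.range a)) :=
      (Subalgebra.fg_iff_finiteType _).1 (Subalgebra.fg_def.2 ⟨_, Set.finite_range a, rfl⟩)
    obtain ⟨φ, hφ⟩ := Lift_exists_algHom (A := Algebra.adjoin ℂ (Set.range a)) Q
    have hφθ : ∀ s : AdjoinRoot μ, φ (θ s) = χ s := by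
      intro s
      have h1 : s - AdjoinRoot.of μ (C (χ s)) ∈ RingHom.ker χ := by
        rw [RingHom.mem_ker, map_sub, hχof, eval_C, sub_self]
      rw [← hQM, Ideal.mem_comap] at h1
      have h2 := (hφ _).2 h1
      have h3 : algebraMap (AdjoinRoot μ) (Algebra.adjoin ℂ (Set.range a))
          (s - AdjoinRoot.of μ (C (χ s))) = θ s - algebraMap ℂ _ (χ s) := by
        show θ _ = _
        rw [map_sub, hθof]
        congr 1
        show ρ (C (χ s)) = _
        rw [← MvPolynomial.algebraMap_eq, AlgHom.commutes]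
      rw [h3, map_sub, AlgHom.commutes, sub_eq_zero] at h2
      exact h2
    obtain ⟨w, hw, hwφ⟩ := exists_pt_of_algHom a φ
    refine ⟨w, hw, fun j => ?_, ?_⟩
    · rw [hwφ]
      have h1 : (⟨aeval a (B j), aeval_mem_adjoin a (B j)⟩ : Algebra.adjoin ℂ (Set.range a))
          = θ (AdjoinRoot.of μ (X j)) := by
        rw [hθof]
        apply Subtype.coe_injective
        show aeval a (B j) = ((ρ (X j) : Algebra.adjoin ℂ (Set.range a)) : K)
        rw [hρ', aeval_X]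
        exact hB j
      rw [h1, hφθ, hχof, eval_X]
    · rw [hwφ]
      have h1 : (⟨aeval a Z, aeval_mem_adjoin a Z⟩ : Algebra.adjoin ℂ (Set.range a))
          = θ (AdjoinRoot.root μ) := hθroot.symm
      rw [h1, hφθ, hχroot]

end Pool.Agent.H13.SM

end
end

section

/-!
# Lower bounds for holomorphic functions of two variables whose zeros lie on the axes

`min_mod`: the minimum principle for a function with a zero of order at most `n` at the origin and no other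
zeros.  `lower_smooth`: if `a (s, t) ≠ 0` for `s ≠ 0` then `c ‖s‖ ^ k ≤ ‖a (s, t)‖` on the closed
bidisc.  `lower_node`: if `a (s, t) ≠ 0` for `s ≠ 0`, `t ≠ 0` then
`c (‖s‖ ‖t‖) ^ k ≤ ‖a (s, t)‖`.  `upper_smooth`, `upper_node`: upper bounds for functions vanishing on
the axes.
-/

set_option autoImplicit false

open Filter Topology Metric

noncomputable section

namespace Pool.Agent.H62.BP

/-- The minimum principle. -/
theorem min_principle {f : ℂ → ℂ} {z₀ : ℂ} {r c : ℝ} (hr : 0 < r) (hc : 0 < c)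
    (hf : ∀ z, ‖z - z₀‖ ≤ r → AnalyticAt ℂ f z) (h0 : ∀ z, ‖z - z₀‖ ≤ r → f z ≠ 0)
    (h1 : ∀ z, ‖z - z₀‖ = r → c ≤ ‖f z‖) {z : ℂ} (hz : ‖z - z₀‖ ≤ r) : c ≤ ‖f z‖ := by
  have hcl : closure (ball z₀ r) = closedBall z₀ r := closure_ball z₀ hr.ne'
  have hfr : frontier (ball z₀ r) = sphere z₀ r := frontier_ball z₀ hr.ne'
  have hmem : ∀ w, w ∈ closedBall z₀ r ↔ ‖w - z₀‖ ≤ r := fun w => by
    rw [mem_closedBall, dist_eq_norm]
  have hd : DiffContOnCl ℂ (fun w => (f w)⁻¹) (ball z₀ r) := by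
    apply DifferentiableOn.diffContOnCl
    rw [hcl]
    intro w hw
    exact ((hf w ((hmem w).mp hw)).inv (h0 w ((hmem w).mp hw))).differentiableAt.differentiableWithinAt
  have h2 := Complex.norm_le_of_forall_mem_frontier_norm_le (C := c⁻¹) isBounded_ball hd
    (by
      intro w hw
      rw [hfr, mem_sphere, dist_eq_norm] at hw
      rw [norm_inv]
      exact inv_anti₀ hc (h1 w hw)) (z := z) (by rw [hcl, hmem]; exact hz)
  rw [norm_inv] at h2
  exact (inv_le_inv₀ (norm_pos_iff.mpr (h0 z hz)) hc).mp h2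

/-- The minimum principle for functions with a zero at the origin. -/
theorem min_mod {f : ℂ → ℂ} {c : ℝ} (hc : 0 < c) {n : ℕ}
    (hf : ∀ z, ‖z‖ ≤ 1 → AnalyticAt ℂ f z) (h0 : ∀ z, ‖z‖ ≤ 1 → z ≠ 0 → f z ≠ 0)
    (h1 : ∀ z, ‖z‖ = 1 → c ≤ ‖f z‖) (hn : analyticOrderAt f 0 ≤ n) {z : ℂ} (hz : ‖z‖ ≤ 1) :
    c * ‖z‖ ^ n ≤ ‖f z‖ := by
  classical
  have hfa := hf 0 (by rw [norm_zero]; exact zero_le_one)
  obtain ⟨m, hm⟩ : ∃ m : ℕ, analyticOrderAt f 0 = m :=
    ENat.ne_top_iff_exists.mp (ne_top_of_le_ne_top (ENat.natCast_ne_top n) hn) |>.imp fun _ h => h.symm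
  have hmn : m ≤ n := by
    rw [hm] at hn
    exact_mod_cast hn
  obtain ⟨g, hg, hg0, hfg⟩ := hfa.analyticOrderAt_eq_natCast.mp hm
  obtain ⟨G, hG⟩ : ∃ G : ℂ → ℂ, ∀ z, G z = if z = 0 then g 0 else f z / z ^ m := ⟨_, fun z => rfl⟩
  have hG0 : G =ᶠ[𝓝 0] g := by
    filter_upwards [hfg] with w hw
    rw [hG]
    split_ifs with h2
    · rw [h2]
    · rw [hw, sub_zero, smul_eq_mul, mul_div_cancel_left₀ _ (pow_ne_zero m h2)]
  have hGa : ∀ w, ‖w‖ ≤ 1 → AnalyticAt ℂ G w := by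
    intro w hw
    by_cases h2 : w = 0
    · rw [h2]
      exact hg.congr hG0.symm
    · have h3 : AnalyticAt ℂ (fun z => f z / z ^ m) w :=
        (hf w hw).div (analyticAt_id.pow m) (pow_ne_zero m h2)
      refine h3.congr ?_
      filter_upwards [isOpen_compl_singleton.mem_nhds (show w ∈ ({0}ᶜ : Set ℂ) from h2)] with x hx
      have hx0 : x ≠ 0 := hx
      rw [hG, if_neg hx0]
  have hGn : ∀ w, ‖w‖ ≤ 1 → G w ≠ 0 := by
    intro w hw
    rw [hG]
    split_ifs with h2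
    · exact hg0
    · exact div_ne_zero (h0 w hw h2) (pow_ne_zero m h2)
  have hG1 : ∀ w, ‖w‖ = 1 → c ≤ ‖G w‖ := by
    intro w hw
    have h2 : w ≠ 0 := by
      rintro rfl
      rw [norm_zero] at hw
      exact zero_ne_one hw
    rw [hG, if_neg h2, norm_div, norm_pow, hw, one_pow, div_one]
    exact h1 w hw
  have h2 : c ≤ ‖G z‖ := min_principle (z₀ := 0) one_pos hc (by simpa using hGa)
    (by simpa using hGn) (by simpa using hG1) (by simpa using hz)
  by_cases hz0 : z = 0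
  · subst hz0
    rcases Nat.eq_zero_or_pos n with h3 | h3
    · have h4 : m = 0 := by omega
      have h5 : f 0 = G 0 := by
        have h6 := hfg.self_of_nhds
        rw [hG, if_pos rfl, h6, h4, pow_zero, one_smul]
      rw [h3, pow_zero, mul_one, h5]
      exact h2
    · rw [norm_zero, zero_pow h3.ne', mul_zero]
      exact norm_nonneg _
  · have h3 : f z = z ^ m * G z := by
      rw [hG, if_neg hz0, mul_div_cancel₀ _ (pow_ne_zero m hz0)]
    rw [h3, norm_mul, norm_pow, mul_comm c]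
    refine mul_le_mul ?_ h2 hc.le (by positivity)
    exact pow_le_pow_of_le_one (norm_nonneg z) hz hmn

/-! ### Two variables -/

/-- The derivative in the direction of the first variable. -/
def Ds (a : ℂ × ℂ → ℂ) (p : ℂ × ℂ) : ℂ := fderiv ℂ a p (1, 0)

theorem Ds_analytic {a : ℂ × ℂ → ℂ} {p : ℂ × ℂ} (h : AnalyticAt ℂ a p) :
    AnalyticAt ℂ (Ds a) p :=
  AnalyticAt.fun_comp (g := fun L : ℂ × ℂ →L[ℂ] ℂ => L (1, 0)) (f := fderiv ℂ a)
    ((ContinuousLinearMap.apply ℂ ℂ ((1, 0) : ℂ × ℂ)).analyticAt _) h.fderiv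

theorem deriv_slice {a : ℂ × ℂ → ℂ} {s t : ℂ} (h : AnalyticAt ℂ a (s, t)) :
    deriv (fun s' => a (s', t)) s = Ds a (s, t) := by
  have h1 : HasDerivAt (fun s' : ℂ => (s', t)) (1, 0) s :=
    (hasDerivAt_id s).prodMk (hasDerivAt_const s t)
  exact (h.differentiableAt.hasFDerivAt.comp_hasDerivAt s h1).deriv

theorem iter_analytic {a : ℂ × ℂ → ℂ} {p : ℂ × ℂ} (h : AnalyticAt ℂ a p) (i : ℕ) :
    AnalyticAt ℂ (Ds^[i] a) p := by
  induction i with
  | zero => exact h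
  | succ i ih =>
    rw [Function.iterate_succ_apply']
    exact Ds_analytic ih

theorem slice_analytic {a : ℂ × ℂ → ℂ} {s t : ℂ} (h : AnalyticAt ℂ a (s, t)) :
    AnalyticAt ℂ (fun s' => a (s', t)) s :=
  AnalyticAt.fun_comp (g := a) (f := fun s' => (s', t)) h (analyticAt_id.prod analyticAt_const)

theorem iter_slice {a : ℂ × ℂ → ℂ} (i : ℕ) : ∀ {s t : ℂ}, AnalyticAt ℂ a (s, t) →
    iteratedDeriv i (fun s' => a (s', t)) s = (Ds^[i] a) (s, t) := by
  induction i with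
  | zero =>
    intro s t _
    rw [iteratedDeriv_zero, Function.iterate_zero, id]
  | succ i ih =>
    intro s t h
    have h1 : ∀ᶠ s' in 𝓝 s, AnalyticAt ℂ a (s', t) :=
      (Continuous.prodMk continuous_id continuous_const).continuousAt.eventually
        h.eventually_analyticAt
    have h2 : iteratedDeriv i (fun s' => a (s', t)) =ᶠ[𝓝 s] fun s' => (Ds^[i] a) (s', t) := by
      filter_upwards [h1] with s' hs'
      exact ih hs'
    rw [iteratedDeriv_succ, h2.deriv_eq, deriv_slice (iter_analytic h i),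
      Function.iterate_succ_apply']

theorem order_le_of_ne {a : ℂ × ℂ → ℂ} {t : ℂ} (h : AnalyticAt ℂ a (0, t)) {n : ℕ}
    (hn : (Ds^[n] a) (0, t) ≠ 0) : analyticOrderAt (fun s => a (s, t)) 0 ≤ n := by
  by_contra hcon
  push Not at hcon
  have h1 : ((n + 1 : ℕ) : ℕ∞) ≤ analyticOrderAt (fun s => a (s, t)) 0 := by
    push_cast
    exact Order.add_one_le_of_lt hcon
  rw [natCast_le_analyticOrderAt_iff_iteratedDeriv_eq_zero (slice_analytic h)] at h1
  have h2 := h1 n (Nat.lt_succ_self n)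
  rw [iter_slice n h] at h2
  exact hn h2

theorem exists_ne_of_order {a : ℂ × ℂ → ℂ} {t : ℂ} (h : AnalyticAt ℂ a (0, t))
    (hfin : analyticOrderAt (fun s => a (s, t)) 0 ≠ ⊤) : ∃ n : ℕ, (Ds^[n] a) (0, t) ≠ 0 := by
  obtain ⟨m, hm⟩ := ENat.ne_top_iff_exists.mp hfin
  by_contra hcon
  push Not at hcon
  have h1 : ((m + 1 : ℕ) : ℕ∞) ≤ analyticOrderAt (fun s => a (s, t)) 0 := by
    rw [natCast_le_analyticOrderAt_iff_iteratedDeriv_eq_zero (slice_analytic h)]
    intro i _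
    rw [iter_slice i h]
    exact hcon i
  rw [← hm] at h1
  have h2 : m + 1 ≤ m := by exact_mod_cast h1
  omega

/-- a function without zeros in a punctured neighbourhood has finite order -/
theorem order_ne_top {f : ℂ → ℂ} {r : ℝ} (hr : 0 < r)
    (h : ∀ s, s ≠ 0 → ‖s‖ < r → f s ≠ 0) : analyticOrderAt f 0 ≠ ⊤ := by
  intro h1
  rw [analyticOrderAt_eq_top] at h1
  have h2 : ∀ᶠ s in 𝓝[≠] (0 : ℂ), f s = 0 := h1.filter_mono nhdsWithin_le_nhds
  have h3 : ∀ᶠ s in 𝓝[≠] (0 : ℂ), f s ≠ 0 := by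
    filter_upwards [self_mem_nhdsWithin, mem_nhdsWithin_of_mem_nhds (ball_mem_nhds (0 : ℂ) hr)]
      with s hs hs'
    rw [mem_ball_zero_iff] at hs'
    exact h s hs hs'
  obtain ⟨s, h4, h5⟩ := (h2.and h3).exists
  exact h5 h4

/-- The orders of the slices are bounded on compact sets of parameters. -/
theorem order_bound {a : ℂ × ℂ → ℂ} {T : Set ℂ} (hT : IsCompact T)
    (ha : ∀ t ∈ T, AnalyticAt ℂ a (0, t))
    (hfin : ∀ t ∈ T, analyticOrderAt (fun s => a (s, t)) 0 ≠ ⊤) :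
    ∃ n : ℕ, ∀ t ∈ T, analyticOrderAt (fun s => a (s, t)) 0 ≤ n := by
  have h1 : ∀ t ∈ T, ∃ n : ℕ, (Ds^[n] a) (0, t) ≠ 0 := fun t ht =>
    exists_ne_of_order (ha t ht) (hfin t ht)
  choose! n hn using h1
  have hU : ∀ t ∈ T, {t' | AnalyticAt ℂ a (0, t') ∧ (Ds^[n t] a) (0, t') ≠ 0} ∈ 𝓝 t := by
    intro t ht
    have hc : ContinuousAt (fun t' : ℂ => ((0 : ℂ), t')) t :=
      (Continuous.prodMk continuous_const continuous_id).continuousAt
    have h2 : ∀ᶠ t' in 𝓝 t, AnalyticAt ℂ a (0, t') :=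
      hc.eventually (ha t ht).eventually_analyticAt
    have h3 : ∀ᶠ t' in 𝓝 t, (Ds^[n t] a) (0, t') ≠ 0 :=
      hc.eventually ((iter_analytic (ha t ht) (n t)).continuousAt.eventually_ne (hn t ht))
    exact h2.and h3
  obtain ⟨F, hF, hcov⟩ := hT.elim_nhds_subcover _ hU
  refine ⟨F.sup n, fun t ht => ?_⟩
  have h2 := hcov ht
  rw [Set.mem_iUnion₂] at h2
  obtain ⟨t', ht', h3, h4⟩ := h2
  refine (order_le_of_ne h3 h4).trans ?_
  exact_mod_cast Finset.le_sup ht'

/-- A positive lower bound on a compact set. -/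
theorem exists_lower {X : Type*} [TopologicalSpace X] {K : Set X} (hK : IsCompact K) {f : X → ℂ}
    (hf : ∀ x ∈ K, ContinuousAt f x) (h0 : ∀ x ∈ K, f x ≠ 0) :
    ∃ c : ℝ, 0 < c ∧ ∀ x ∈ K, c ≤ ‖f x‖ := by
  rcases K.eq_empty_or_nonempty with h | h
  · exact ⟨1, one_pos, fun x hx => by rw [h] at hx; exact hx.elim⟩
  · obtain ⟨x, hx, hmin⟩ := hK.exists_isMinOn h
      (fun x hx => (hf x hx).norm.continuousWithinAt)
    exact ⟨‖f x‖, norm_pos_iff.mpr (h0 x hx), fun y hy => hmin hy⟩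

/-- The lower bound for the slices with parameters in a compact set. -/
theorem lower_param {a : ℂ × ℂ → ℂ} {T : Set ℂ} (hT : IsCompact T)
    (ha : ∀ s t, ‖s‖ ≤ 1 → t ∈ T → AnalyticAt ℂ a (s, t))
    (h0 : ∀ s t, ‖s‖ ≤ 1 → t ∈ T → s ≠ 0 → a (s, t) ≠ 0) :
    ∃ (c : ℝ) (k : ℕ), 0 < c ∧ ∀ s t, ‖s‖ ≤ 1 → t ∈ T → c * ‖s‖ ^ k ≤ ‖a (s, t)‖ := by
  have h01 : ‖(0 : ℂ)‖ ≤ 1 := by rw [norm_zero]; exact zero_le_one
  obtain ⟨k, hk⟩ := order_bound hT (fun t ht => ha 0 t h01 ht)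
    (fun t ht => order_ne_top one_pos fun s hs hs' => h0 s t hs'.le ht hs)
  obtain ⟨c, hc, hcK⟩ := exists_lower (f := a) ((isCompact_sphere (0 : ℂ) 1).prod hT)
    (by
      rintro ⟨s, t⟩ ⟨hs, ht⟩
      have hs' : ‖s‖ = 1 := by simpa using hs
      exact (ha s t hs'.le ht).continuousAt)
    (by
      rintro ⟨s, t⟩ ⟨hs, ht⟩
      have hs' : ‖s‖ = 1 := by simpa using hs
      have hs0 : s ≠ 0 := by
        rintro rfl
        rw [norm_zero] at hs'
        exact zero_ne_one hs'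
      exact h0 s t hs'.le ht hs0)
  refine ⟨c, k, hc, fun s t hs ht => ?_⟩
  exact min_mod (f := fun s => a (s, t)) hc (fun z hz => slice_analytic (ha z t hz ht))
    (fun z hz hz0 => h0 z t hz ht hz0)
    (fun z hz => hcK (z, t) ⟨by simpa using hz, ht⟩) (hk t ht) hs

/-- Zeros on one axis. -/
theorem lower_smooth {a : ℂ × ℂ → ℂ} (ha : ∀ s t, ‖s‖ ≤ 1 → ‖t‖ ≤ 1 → AnalyticAt ℂ a (s, t))
    (h0 : ∀ s t, ‖s‖ ≤ 1 → ‖t‖ ≤ 1 → s ≠ 0 → a (s, t) ≠ 0) :
    ∃ (c : ℝ) (k : ℕ), 0 < c ∧ ∀ s t, ‖s‖ ≤ 1 → ‖t‖ ≤ 1 → c * ‖s‖ ^ k ≤ ‖a (s, t)‖ := by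
  obtain ⟨c, k, hc, h⟩ := lower_param (isCompact_closedBall (0 : ℂ) 1)
    (fun s t hs ht => ha s t hs (by simpa using ht))
    (fun s t hs ht hs0 => h0 s t hs (by simpa using ht) hs0)
  exact ⟨c, k, hc, fun s t hs ht => h s t hs (by simpa using ht)⟩

theorem swap_analytic {a : ℂ × ℂ → ℂ} {s t : ℂ} (h : AnalyticAt ℂ a (s, t)) :
    AnalyticAt ℂ (fun p : ℂ × ℂ => a (p.2, p.1)) (t, s) :=
  AnalyticAt.fun_comp (g := a) (f := fun p : ℂ × ℂ => (p.2, p.1)) h (analyticAt_snd.prod analyticAt_fst)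

/-- The order at the origin from a lower bound. -/
theorem order_le_of_lower {f : ℂ → ℂ} (hf : AnalyticAt ℂ f 0) {c : ℝ} (hc : 0 < c) {k : ℕ}
    (h : ∀ᶠ s in 𝓝[≠] (0 : ℂ), c * ‖s‖ ^ k ≤ ‖f s‖) : analyticOrderAt f 0 ≤ k := by
  by_contra hcon
  push Not at hcon
  have h1 : ((k + 1 : ℕ) : ℕ∞) ≤ analyticOrderAt f 0 := by
    push_cast
    exact Order.add_one_le_of_lt hcon
  obtain ⟨g, hg, hfg⟩ := (natCast_le_analyticOrderAt hf).mp h1
  have h2 : ∀ᶠ s in 𝓝[≠] (0 : ℂ), c ≤ ‖s * g s‖ := by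
    filter_upwards [h, hfg.filter_mono nhdsWithin_le_nhds, self_mem_nhdsWithin] with s h3 h4 h5
    have h6 : 0 < ‖s‖ ^ k := pow_pos (norm_pos_iff.mpr h5) k
    rw [h4, sub_zero, smul_eq_mul, pow_succ, mul_assoc, norm_mul, norm_pow, mul_comm c] at h3
    exact le_of_mul_le_mul_left h3 h6
  have h3 : Tendsto (fun s => ‖s * g s‖) (𝓝[≠] (0 : ℂ)) (𝓝 ‖(0 : ℂ) * g 0‖) :=
    ((continuousAt_id.mul hg.continuousAt).norm).tendsto.mono_left nhdsWithin_le_nhds
  have h4 := ge_of_tendsto h3 h2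
  rw [zero_mul, norm_zero] at h4
  linarith

/-- The orders of the slices off a node are bounded. -/
theorem order_node {a : ℂ × ℂ → ℂ} (ha : ∀ s t, ‖s‖ < 2 → ‖t‖ < 2 → AnalyticAt ℂ a (s, t))
    (h0 : ∀ s t, ‖s‖ < 2 → ‖t‖ < 2 → s ≠ 0 → t ≠ 0 → a (s, t) ≠ 0) :
    ∃ k : ℕ, ∀ t, t ≠ 0 → ‖t‖ < 2 → analyticOrderAt (fun s => a (s, t)) 0 ≤ k := by
  have h02 : ‖(0 : ℂ)‖ < 2 := by rw [norm_zero]; exact two_pos
  have h12 : ‖(1 : ℂ)‖ < 2 := by rw [norm_one]; exact one_lt_two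
  obtain ⟨k, hk⟩ := exists_ne_of_order (ha 0 1 h02 h12)
    (order_ne_top two_pos fun s hs hs' => h0 s 1 hs' h12 hs one_ne_zero)
  refine ⟨k, fun t₀ ht₀ ht₀2 => ?_⟩
  -- the derivative of order `k` has isolated zeros
  have hD : AnalyticOnNhd ℂ (fun t => (Ds^[k] a) (0, t)) (ball 0 2) := by
    intro t ht
    rw [mem_ball_zero_iff] at ht
    exact AnalyticAt.fun_comp (g := Ds^[k] a) (f := fun t' => ((0 : ℂ), t'))
      (iter_analytic (ha 0 t h02 ht) k) (analyticAt_const.prod analyticAt_id)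
  have hDne : ∀ᶠ t in 𝓝[≠] t₀, (Ds^[k] a) (0, t) ≠ 0 := by
    rcases hD.eqOn_zero_or_eventually_ne_zero_of_preconnected (convex_ball 0 2).isPreconnected
      with h1 | h1
    · exfalso
      exact hk (h1 (by rw [mem_ball_zero_iff]; exact h12))
    · rw [Filter.eventually_iff, mem_codiscreteWithin] at h1
      have h2 := h1 t₀ (by rw [mem_ball_zero_iff]; exact ht₀2)
      have h3 : ball (0 : ℂ) 2 ∈ 𝓝[≠] t₀ := mem_nhdsWithin_of_mem_nhds
        (isOpen_ball.mem_nhds (by rw [mem_ball_zero_iff]; exact ht₀2))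
      rw [disjoint_principal_right] at h2
      filter_upwards [h2, h3] with t h4 h5
      by_contra h6
      exact h4 ⟨h5, fun h7 => h7 h6⟩
  -- a small circle around `t₀`
  obtain ⟨r, hr, hr1, hr2, hr3⟩ : ∃ r : ℝ, 0 < r ∧ (∀ t, ‖t - t₀‖ ≤ r → ‖t‖ < 2) ∧
      (∀ t, ‖t - t₀‖ ≤ r → t ≠ 0) ∧ ∀ t, ‖t - t₀‖ = r → (Ds^[k] a) (0, t) ≠ 0 := by
    have h1 : ∀ᶠ t in 𝓝 t₀, ‖t‖ < 2 ∧ t ≠ 0 ∧ (t ≠ t₀ → (Ds^[k] a) (0, t) ≠ 0) := by
      have h2 : ∀ᶠ t in 𝓝 t₀, t ≠ 0 :=
        isOpen_compl_singleton.mem_nhds (show t₀ ∈ ({0}ᶜ : Set ℂ) from ht₀)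
      exact (continuous_norm.continuousAt.eventually_lt continuousAt_const ht₀2).and
        (h2.and (eventually_nhdsWithin_iff.mp hDne))
    obtain ⟨ε, hε, hball⟩ := Metric.eventually_nhds_iff.mp h1
    have h2 : ∀ t, ‖t - t₀‖ ≤ ε / 2 → dist t t₀ < ε := by
      intro t ht
      rw [dist_eq_norm]
      linarith
    refine ⟨ε / 2, half_pos hε, fun t ht => (hball (h2 t ht)).1, fun t ht => (hball (h2 t ht)).2.1,
      fun t ht => (hball (h2 t ht.le)).2.2 ?_⟩
    rintro rfl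
    rw [sub_self, norm_zero] at ht
    linarith
  have hcirc : IsCompact {t : ℂ | ‖t - t₀‖ = r} := by
    have h1 : {t : ℂ | ‖t - t₀‖ = r} = sphere t₀ r := by
      ext t
      rw [mem_sphere, dist_eq_norm]
      rfl
    rw [h1]
    exact isCompact_sphere t₀ r
  obtain ⟨c, hc, hcK⟩ := exists_lower (f := a) ((isCompact_sphere (0 : ℂ) 1).prod hcirc)
    (by
      rintro ⟨s, t⟩ ⟨hs, ht⟩
      have hs' : ‖s‖ = 1 := by simpa using hs
      exact (ha s t (by rw [hs']; exact one_lt_two) (hr1 t (le_of_eq ht))).continuousAt)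
    (by
      rintro ⟨s, t⟩ ⟨hs, ht⟩
      have hs' : ‖s‖ = 1 := by simpa using hs
      have hs0 : s ≠ 0 := by
        rintro rfl
        rw [norm_zero] at hs'
        exact zero_ne_one hs'
      exact h0 s t (by rw [hs']; exact one_lt_two) (hr1 t (le_of_eq ht)) hs0 (hr2 t (le_of_eq ht)))
  have hlt : ∀ s : ℂ, ‖s‖ ≤ 1 → ‖s‖ < 2 := fun s hs => hs.trans_lt one_lt_two
  -- on the circle
  have h1 : ∀ s t, ‖s‖ ≤ 1 → ‖t - t₀‖ = r → c * ‖s‖ ^ k ≤ ‖a (s, t)‖ := by
    intro s t hs ht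
    exact min_mod (f := fun s => a (s, t)) hc
      (fun z hz => slice_analytic (ha z t (hlt z hz) (hr1 t ht.le)))
      (fun z hz hz0 => h0 z t (hlt z hz) (hr1 t ht.le) hz0 (hr2 t ht.le))
      (fun z hz => hcK (z, t) ⟨by simpa using hz, ht⟩)
      (order_le_of_ne (ha 0 t h02 (hr1 t ht.le)) (hr3 t ht)) hs
  -- at the centre
  have h2 : ∀ s, ‖s‖ ≤ 1 → s ≠ 0 → c * ‖s‖ ^ k ≤ ‖a (s, t₀)‖ := by
    intro s hs hs0
    refine min_principle (f := fun t => a (s, t)) (z₀ := t₀) hr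
      (mul_pos hc (pow_pos (norm_pos_iff.mpr hs0) k)) (fun t ht => ?_)
      (fun t ht => h0 s t (hlt s hs) (hr1 t ht) hs0 (hr2 t ht)) (fun t ht => h1 s t hs ht) ?_
    · exact AnalyticAt.fun_comp (g := a) (f := fun t' => (s, t')) (ha s t (hlt s hs) (hr1 t ht))
        (analyticAt_const.prod analyticAt_id)
    · rw [sub_self, norm_zero]
      exact hr.le
  refine order_le_of_lower (slice_analytic (ha 0 t₀ h02 ht₀2)) hc ?_
  filter_upwards [self_mem_nhdsWithin, mem_nhdsWithin_of_mem_nhds (ball_mem_nhds (0 : ℂ) one_pos)]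
    with s hs hs'
  rw [mem_ball_zero_iff] at hs'
  exact h2 s hs'.le hs

/-- Zeros on two axes. -/
theorem lower_node {a : ℂ × ℂ → ℂ} (ha : ∀ s t, ‖s‖ < 2 → ‖t‖ < 2 → AnalyticAt ℂ a (s, t))
    (h0 : ∀ s t, ‖s‖ < 2 → ‖t‖ < 2 → s ≠ 0 → t ≠ 0 → a (s, t) ≠ 0) :
    ∃ (c : ℝ) (k : ℕ), 0 < c ∧ 1 ≤ k ∧ ∀ s t, ‖s‖ ≤ 1 → ‖t‖ ≤ 1 →
      c * (‖s‖ * ‖t‖) ^ k ≤ ‖a (s, t)‖ := by
  have hlt : ∀ s : ℂ, ‖s‖ ≤ 1 → ‖s‖ < 2 := fun s hs => hs.trans_lt one_lt_two
  obtain ⟨k, hk⟩ := order_node ha h0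
  have hsph : ∀ s : ℂ, s ∈ sphere (0 : ℂ) 1 → ‖s‖ = 1 := fun s hs => by simpa using hs
  have hne : ∀ s : ℂ, ‖s‖ = 1 → s ≠ 0 := by
    rintro s hs rfl
    rw [norm_zero] at hs
    exact zero_ne_one hs
  obtain ⟨c, l, hc, hl⟩ := lower_param (a := fun p : ℂ × ℂ => a (p.2, p.1))
    (isCompact_sphere (0 : ℂ) 1)
    (fun t s ht hs => swap_analytic (ha s t (hlt s (hsph s hs).le) (hlt t ht)))
    (fun t s ht hs ht0 => h0 s t (hlt s (hsph s hs).le) (hlt t ht) (hne s (hsph s hs)) ht0)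
  refine ⟨c, max k l + 1, hc, Nat.le_add_left _ _, fun s t hs ht => ?_⟩
  by_cases hs0 : s = 0
  · rw [hs0, norm_zero, zero_mul, zero_pow (Nat.succ_ne_zero _), mul_zero]
    exact norm_nonneg _
  by_cases ht0 : t = 0
  · rw [ht0, norm_zero, mul_zero, zero_pow (Nat.succ_ne_zero _), mul_zero]
    exact norm_nonneg _
  have h1 : c * ‖t‖ ^ l * ‖s‖ ^ k ≤ ‖a (s, t)‖ :=
    min_mod (f := fun s => a (s, t)) (mul_pos hc (pow_pos (norm_pos_iff.mpr ht0) l))
      (fun z hz => slice_analytic (ha z t (hlt z hz) (hlt t ht)))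
      (fun z hz hz0 => h0 z t (hlt z hz) (hlt t ht) hz0 ht0)
      (fun z hz => hl t z ht (by simpa using hz)) (hk t ht0 (hlt t ht)) hs
  refine le_trans ?_ h1
  rw [mul_pow, mul_assoc, mul_comm (‖t‖ ^ l)]
  refine mul_le_mul_of_nonneg_left (mul_le_mul ?_ ?_ (by positivity) (by positivity)) hc.le
  · exact pow_le_pow_of_le_one (norm_nonneg s) hs (by omega)
  · exact pow_le_pow_of_le_one (norm_nonneg t) ht (by omega)

/-! ### Upper bounds -/

end Pool.Agent.H62.BP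

end
end

section

/-!
# Second derivatives of circle means: the smooth case

Taylor's formula with integral remainder in `x` for every fixed `θ`, Fubini, and periodicity.
-/

noncomputable section

namespace Pool.Agent.H62.FC

open Filter Topology MeasureTheory

/-- directional derivatives -/
def Avg_d (F : ℝ × ℝ → ℝ) (v : ℝ × ℝ) (p : ℝ × ℝ) : ℝ := fderiv ℝ F p v

theorem Avg_d_contDiffAt {F : ℝ × ℝ → ℝ} {p : ℝ × ℝ} (v : ℝ × ℝ) {m n : WithTop ℕ∞}
    (h : ContDiffAt ℝ n F p) (hmn : m + 1 ≤ n) : ContDiffAt ℝ m (Avg_d F v) p :=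
  (h.fderiv_right hmn).clm_apply contDiffAt_const

theorem Avg_hasDerivAt_fst {F : ℝ × ℝ → ℝ} {x θ : ℝ} (h : DifferentiableAt ℝ F (x, θ)) :
    HasDerivAt (fun y => F (y, θ)) (Avg_d F (1, 0) (x, θ)) x :=
  HasFDerivAt.comp_hasDerivAt (f := fun y : ℝ => (y, θ)) x h.hasFDerivAt
    ((hasDerivAt_id x).prodMk (hasDerivAt_const x θ))

theorem Avg_hasDerivAt_snd {F : ℝ × ℝ → ℝ} {x θ : ℝ} (h : DifferentiableAt ℝ F (x, θ)) :
    HasDerivAt (fun φ => F (x, φ)) (Avg_d F (0, 1) (x, θ)) θ :=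
  HasFDerivAt.comp_hasDerivAt (f := fun φ : ℝ => (x, φ)) θ h.hasFDerivAt
    ((hasDerivAt_const θ x).prodMk (hasDerivAt_id θ))

theorem Avg_iter_two {f g : ℝ → ℝ} {x g' : ℝ} (h : ∀ᶠ y in 𝓝 x, HasDerivAt f (g y) y)
    (hg : HasDerivAt g g' x) : iteratedDeriv 2 f x = g' := by
  have h1 : iteratedDeriv 2 f = deriv (deriv f) := by
    rw [iteratedDeriv_succ, iteratedDeriv_one]
  rw [h1]
  have h2 : deriv f =ᶠ[𝓝 x] g := h.mono fun y hy => hy.deriv
  rw [h2.deriv_eq]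
  exact hg.deriv

/-- Taylor's formula with integral remainder -/
theorem Avg_taylor {u u' u'' : ℝ → ℝ} {x₀ x : ℝ} (h1 : ∀ y ∈ Set.uIcc x₀ x, HasDerivAt u (u' y) y)
    (h2 : ∀ y ∈ Set.uIcc x₀ x, HasDerivAt u' (u'' y) y)
    (hc : ContinuousOn u'' (Set.uIcc x₀ x)) :
    ∫ y in x₀..x, (x - y) * u'' y = u x - u x₀ - u' x₀ * (x - x₀) := by
  have h3 : ∀ y ∈ Set.uIcc x₀ x,
      HasDerivAt (fun y => (x - y) * u' y + u y) ((x - y) * u'' y) y := by
    intro y hy
    have h4 := (((hasDerivAt_const y x).sub (hasDerivAt_id y)).mul (h2 y hy)).add (h1 y hy)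
    refine HasDerivAt.congr_deriv (f' := _) h4 ?_
    simp only [Pi.sub_apply, id]
    ring
  rw [intervalIntegral.integral_eq_sub_of_hasDerivAt h3]
  · ring
  · exact ((continuousOn_const.sub continuousOn_id).mul hc).intervalIntegrable

theorem average_second_deriv {Φ L : ℝ → ℝ → ℝ} {α β : ℝ}
    (hΦ : ∀ x ∈ Set.Ioo α β, ∀ θ, ContDiffAt ℝ 2 (fun p : ℝ × ℝ => Φ p.1 p.2) (x, θ))
    (hper : ∀ x θ, Φ x (θ + 2 * Real.pi) = Φ x θ)
    (hL : ∀ x ∈ Set.Ioo α β, ∀ θ, L x θ =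
      iteratedDeriv 2 (fun y => Φ y θ) x + iteratedDeriv 2 (fun φ => Φ x φ) θ)
    {x₀ x : ℝ} (hx₀ : x₀ ∈ Set.Ioo α β) (hx : x ∈ Set.Ioo α β) :
    (∫ θ in (0 : ℝ)..2 * Real.pi, Φ x θ) = (∫ θ in (0 : ℝ)..2 * Real.pi, Φ x₀ θ) +
      (∫ θ in (0 : ℝ)..2 * Real.pi, deriv (fun y => Φ y θ) x₀) * (x - x₀) +
      ∫ y in x₀..x, (x - y) * ∫ θ in (0 : ℝ)..2 * Real.pi, L y θ := by
  set F : ℝ × ℝ → ℝ := fun p => Φ p.1 p.2 with hF
  set G1 : ℝ × ℝ → ℝ := Avg_d F (1, 0) with hG1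
  set G2 : ℝ × ℝ → ℝ := Avg_d F (0, 1) with hG2
  set G11 : ℝ × ℝ → ℝ := Avg_d G1 (1, 0) with hG11
  set G22 : ℝ × ℝ → ℝ := Avg_d G2 (0, 1) with hG22
  have c1 : ∀ y ∈ Set.Ioo α β, ∀ θ, ContDiffAt ℝ 1 G1 (y, θ) := fun y hy θ =>
    Avg_d_contDiffAt _ (hΦ y hy θ) (by norm_num)
  have c2 : ∀ y ∈ Set.Ioo α β, ∀ θ, ContDiffAt ℝ 1 G2 (y, θ) := fun y hy θ =>
    Avg_d_contDiffAt _ (hΦ y hy θ) (by norm_num)
  have c11 : ∀ y ∈ Set.Ioo α β, ∀ θ, ContinuousAt G11 (y, θ) := fun y hy θ =>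
    (Avg_d_contDiffAt (m := 0) _ (c1 y hy θ) (by norm_num)).continuousAt
  have c22 : ∀ y ∈ Set.Ioo α β, ∀ θ, ContinuousAt G22 (y, θ) := fun y hy θ =>
    (Avg_d_contDiffAt (m := 0) _ (c2 y hy θ) (by norm_num)).continuousAt
  have d1 : ∀ y ∈ Set.Ioo α β, ∀ θ, HasDerivAt (fun y => Φ y θ) (G1 (y, θ)) y := fun y hy θ =>
    Avg_hasDerivAt_fst ((hΦ y hy θ).differentiableAt (by norm_num))
  have d2 : ∀ y ∈ Set.Ioo α β, ∀ θ, HasDerivAt (fun φ => Φ y φ) (G2 (y, θ)) θ := fun y hy θ =>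
    Avg_hasDerivAt_snd ((hΦ y hy θ).differentiableAt (by norm_num))
  have d11 : ∀ y ∈ Set.Ioo α β, ∀ θ, HasDerivAt (fun y => G1 (y, θ)) (G11 (y, θ)) y :=
    fun y hy θ => Avg_hasDerivAt_fst ((c1 y hy θ).differentiableAt (by norm_num))
  have d22 : ∀ y ∈ Set.Ioo α β, ∀ θ, HasDerivAt (fun φ => G2 (y, φ)) (G22 (y, θ)) θ :=
    fun y hy θ => Avg_hasDerivAt_snd ((c2 y hy θ).differentiableAt (by norm_num))
  have hsub : Set.uIcc x₀ x ⊆ Set.Ioo α β := Set.OrdConnected.uIcc_subset Set.ordConnected_Ioo hx₀ hx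
  have hpair : ∀ y : ℝ, Continuous fun θ : ℝ => ((y, θ) : ℝ × ℝ) := fun y => by fun_prop
  have k0 : ∀ y ∈ Set.Ioo α β, Continuous fun θ => Φ y θ := fun y hy =>
    continuous_iff_continuousAt.2 fun θ => (d2 y hy θ).continuousAt
  have k1 : ∀ y ∈ Set.Ioo α β, Continuous fun θ => G1 (y, θ) := fun y hy =>
    continuous_iff_continuousAt.2 fun θ =>
      ContinuousAt.comp (f := fun θ : ℝ => ((y, θ) : ℝ × ℝ)) (g := G1) (c1 y hy θ).continuousAt
        (hpair y).continuousAt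
  have k11 : ∀ y ∈ Set.Ioo α β, Continuous fun θ => G11 (y, θ) := fun y hy =>
    continuous_iff_continuousAt.2 fun θ =>
      ContinuousAt.comp (f := fun θ : ℝ => ((y, θ) : ℝ × ℝ)) (g := G11) (c11 y hy θ)
        (hpair y).continuousAt
  have k22 : ∀ y ∈ Set.Ioo α β, Continuous fun θ => G22 (y, θ) := fun y hy =>
    continuous_iff_continuousAt.2 fun θ =>
      ContinuousAt.comp (f := fun θ : ℝ => ((y, θ) : ℝ × ℝ)) (g := G22) (c22 y hy θ)
        (hpair y).continuousAt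
  -- the function `L`
  have hL' : ∀ y ∈ Set.Ioo α β, ∀ θ, L y θ = G11 (y, θ) + G22 (y, θ) := by
    intro y hy θ
    rw [hL y hy θ, Avg_iter_two (g := fun y => G1 (y, θ)) ?_ (d11 y hy θ),
      Avg_iter_two (g := fun φ => G2 (y, φ)) ?_ (d22 y hy θ)]
    · exact Eventually.of_forall fun φ => d2 y hy φ
    · filter_upwards [isOpen_Ioo.mem_nhds hy] with y' hy' using d1 y' hy' θ
  -- periodicity
  have hper2 : ∀ y ∈ Set.Ioo α β, G2 (y, 2 * Real.pi) = G2 (y, 0) := by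
    intro y hy
    have e1 := d2 y hy (0 + 2 * Real.pi)
    have e2 : HasDerivAt (fun φ => Φ y (φ + 2 * Real.pi)) (G2 (y, 0 + 2 * Real.pi)) 0 :=
      HasDerivAt.comp_add_const 0 (2 * Real.pi) e1
    simp only [hper] at e2
    rw [zero_add] at e2
    exact e2.unique (d2 y hy 0)
  have hint22 : ∀ y ∈ Set.Ioo α β, ∫ θ in (0 : ℝ)..2 * Real.pi, G22 (y, θ) = 0 := by
    intro y hy
    rw [intervalIntegral.integral_eq_sub_of_hasDerivAt (fun θ _ => d22 y hy θ)
      ((k22 y hy).intervalIntegrable _ _), hper2 y hy, sub_self]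
  have hintL : ∀ y ∈ Set.Ioo α β, ∫ θ in (0 : ℝ)..2 * Real.pi, L y θ =
      ∫ θ in (0 : ℝ)..2 * Real.pi, G11 (y, θ) := by
    intro y hy
    simp only [hL' y hy]
    rw [intervalIntegral.integral_add ((k11 y hy).intervalIntegrable _ _)
      ((k22 y hy).intervalIntegrable _ _), hint22 y hy, add_zero]
  -- Taylor
  have hT : ∀ θ, ∫ y in x₀..x, (x - y) * G11 (y, θ) =
      Φ x θ - Φ x₀ θ - G1 (x₀, θ) * (x - x₀) := by
    intro θ
    refine Avg_taylor (u := fun y => Φ y θ) (u' := fun y => G1 (y, θ))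
      (u'' := fun y => G11 (y, θ)) (fun y hy => d1 y (hsub hy) θ)
      (fun y hy => d11 y (hsub hy) θ) fun y hy => ?_
    exact (ContinuousAt.comp (f := fun y : ℝ => ((y, θ) : ℝ × ℝ)) (g := G11)
      (c11 y (hsub hy) θ) (by fun_prop)).continuousWithinAt
  -- Fubini
  have hcont : ContinuousOn (Function.uncurry fun y θ : ℝ => (x - y) * G11 (y, θ))
      (Set.uIcc x₀ x ×ˢ Set.uIcc 0 (2 * Real.pi)) := by
    rintro ⟨y, θ⟩ hp
    refine ContinuousAt.continuousWithinAt ?_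
    change ContinuousAt (fun p : ℝ × ℝ => (x - p.1) * G11 (p.1, p.2)) (y, θ)
    have h2 : ContinuousAt (fun p : ℝ × ℝ => G11 (p.1, p.2)) (y, θ) := c11 y (hsub hp.1) θ
    exact ContinuousAt.mul (by fun_prop) h2
  have hfub : ∫ y in x₀..x, ∫ θ in (0 : ℝ)..2 * Real.pi, (x - y) * G11 (y, θ) =
      ∫ θ in (0 : ℝ)..2 * Real.pi, ∫ y in x₀..x, (x - y) * G11 (y, θ) := by
    refine intervalIntegral_intervalIntegral_swap ?_
    refine IntegrableOn.mono_set (hcont.integrableOn_compact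
      (isCompact_uIcc.prod isCompact_uIcc)) ?_
    exact Set.prod_mono Set.uIoc_subset_uIcc Set.uIoc_subset_uIcc
  have hR : ∫ y in x₀..x, (x - y) * ∫ θ in (0 : ℝ)..2 * Real.pi, L y θ =
      ∫ y in x₀..x, ∫ θ in (0 : ℝ)..2 * Real.pi, (x - y) * G11 (y, θ) := by
    refine intervalIntegral.integral_congr fun y hy => ?_
    rw [hintL y (hsub hy), intervalIntegral.integral_const_mul]
  have hD : ∀ θ, deriv (fun y => Φ y θ) x₀ = G1 (x₀, θ) := fun θ => (d1 x₀ hx₀ θ).deriv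
  rw [hR, hfub]
  simp only [hT, hD]
  have i0 := (k0 x hx).intervalIntegrable (μ := volume) 0 (2 * Real.pi)
  have i1 := (k0 x₀ hx₀).intervalIntegrable (μ := volume) 0 (2 * Real.pi)
  have i2 := ((k1 x₀ hx₀).mul_const (x - x₀)).intervalIntegrable (μ := volume) 0 (2 * Real.pi)
  rw [intervalIntegral.integral_sub (i0.sub i1) i2, intervalIntegral.integral_sub i0 i1,
    intervalIntegral.integral_mul_const]
  ring

end Pool.Agent.H62.FC

end
end

section

/-!
# Transcendence bases among the coordinates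
-/

noncomputable section

namespace Pool.Agent.H92.GT

open scoped IntermediateField.algebraAdjoinAdjoin in
/-- If `K` is algebraic over `ℂ(x)` there is a transcendence basis among the coordinates. -/
theorem exists_index {K : Type} [Field K] [Algebra ℂ K] {k n : ℕ} {x : Fin n → K}
    (halg : Algebra.IsAlgebraic (IntermediateField.adjoin ℂ (Set.range x)) K) {z : Fin k → K}
    (hz : IsTranscendenceBasis ℂ z) :
    ∃ J : Fin k → Fin n, IsTranscendenceBasis ℂ fun i => x (J i) := by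
  have h1 : Algebra.IsAlgebraic (Algebra.adjoin ℂ (Set.range x)) K :=
    (IsFractionRing.comap_isAlgebraic_iff (A := Algebra.adjoin ℂ (Set.range x))
      (K := IntermediateField.adjoin ℂ (Set.range x)) (C := K)).mpr halg
  obtain ⟨u, hu, hub⟩ := exists_isTranscendenceBasis_subset (R := ℂ) (Set.range x)
  have h2 := hub.cardinalMk_eq hz
  rw [Cardinal.mk_fin] at h2
  have h3 : Finite u := by
    rw [← Cardinal.lt_aleph0_iff_finite, h2]
    exact Cardinal.natCast_lt_aleph0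
  have h4 : Nat.card u = k := by
    rw [Nat.card, h2]
    simp
  let eqv : Fin k ≃ u := (finCongr h4.symm).trans (Finite.equivFin u).symm
  choose J hJ using fun i : Fin k => hu (eqv i).2
  refine ⟨J, ?_⟩
  have h5 : (fun i => x (J i)) = (Subtype.val : u → K) ∘ eqv := funext hJ
  rw [h5, isTranscendenceBasis_equiv]
  exact hub

end Pool.Agent.H92.GT

end
end

section

/-!
# MQ2 SlopeD: the slope of a curve, the part of the curve in a chart of the blow-up
-/

set_option autoImplicit false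

open Topology Filter Metric MeasureTheory Asymptotics Laplacian

noncomputable section

namespace Pool.Agent.MQ2

/-- the quotient `y / x` is holomorphic at `z` -/
def HasSlope (p : ℂ → ℂ × ℂ) (z : ℂ) : Prop :=
  (∃ᶠ w in 𝓝 z, (p w).1 ≠ 0) ∧ ∃ f : ℂ → ℂ, AnalyticAt ℂ f z ∧ ∀ᶠ w in 𝓝 z, (p w).2 = (p w).1 * f w

open Classical in
/-- the quotient `y / x` -/
def slope (p : ℂ → ℂ × ℂ) (z : ℂ) : ℂ := if h : HasSlope p z then h.2.choose z else 0

/-- the part of `Om` in the chart at the direction `t` -/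
def Omt (Om : Set ℂ) (p : ℂ → ℂ × ℂ) (t : ℂ) (ρ : ℝ) : Set ℂ := {z | z ∈ Om ∧ HasSlope p z ∧ ‖(p z).1‖ < ρ ∧ ‖slope p z - t‖ < ρ}

/-- the curve in the chart -/
def pt (t : ℂ) (p : ℂ → ℂ × ℂ) (z : ℂ) : ℂ × ℂ := ((p z).1, slope p z - t)

end Pool.Agent.MQ2

end
end

section

/-!
The local lifts for a web box.
-/

namespace Pool.Agent.MQ3

open Complex Set Filter Topology

variable {p : ℕ} {T : Fin p → ℂ × ℂ → ℂ} {a b : Equiv.Perm (Fin p)}

/-- `w`, `w'` is a basis of the lattice `L`. -/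
structure IsBas (L : AddSubgroup (ℤ × ℤ)) (w w' : ℕ × ℕ) : Prop where
  det : (w.1 : ℤ) * w'.2 - w.2 * w'.1 ≠ 0
  mem : ∀ n : ℤ × ℤ, n ∈ L ↔ ∃ i j : ℤ, n.1 = i * w.1 + j * w'.1 ∧ n.2 = i * w.2 + j * w'.2

/-- The bases cover the quadrant. -/
def Covers (F : Finset ((ℕ × ℕ) × (ℕ × ℕ))) : Prop :=
  ∀ A B : ℝ, 0 ≤ A → 0 ≤ B → ∃ c ∈ F, ∃ l l' : ℝ, 0 ≤ l ∧ 0 ≤ l' ∧
    A = l * c.1.1 + l' * c.2.1 ∧ B = l * c.1.2 + l' * c.2.2

end Pool.Agent.MQ3

end
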