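import Pool.Agent.H94.G6.M08
import Pool.Agent.H94.G6.M17
import Pool.Agent.H94.G6.M25
import Pool.Agent.H94.G6.M27
import Pool.Agent.H94.G6.M29
import Pool.Agent.H94.G6.MQ3.Lift

/-! The parts of this file: H22.W.Tan, H14.PP.ChartFs, H22.W.Def_1, MQ3.Latt. -/

section

/-!
# W Tan: tangent vectors of a cone
-/

set_option autoImplicit false

open Topology Filter Metric

namespace Pool.Agent.H22.W

open Pool.Agent.H36.BP (EN fs wd)
open Pool.Agent.H14.PP (IsCone Chart Tan CurveAt IsOpenPart)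

variable {N : ℕ} {X : Set (EN N)}

theorem isOpenPart_self (hX : IsCone X) : IsOpenPart X X :=
  ⟨subset_rfl, hX.smul_mem, fun _ _ => Eventually.of_forall fun _ h => h⟩

/-- scaling of tangent vectors -/
theorem tan_smul (hX : IsCone X) {x v : EN N} (h : Tan X x v) {c : ℂ} (hc : c ≠ 0) :
    Tan X (c • x) (c • v) := by
  obtain ⟨F, ⟨hF, hFX⟩, h0, h1⟩ := h
  have hFc : AnalyticAt ℂ (fun z => c • F z) 0 := analyticAt_const.fun_smul hF
  refine ⟨fun z => c • F z, ⟨hFc, ?_⟩, by simp [h0], ?_⟩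
  · filter_upwards [hFX] with z hz
    exact hX.smul_mem _ hz c hc
  · rw [deriv_fun_const_smul c hF.differentiableAt, h1]

theorem tan_mem {x v : EN N} (h : Tan X x v) : x ∈ X := by
  obtain ⟨F, hF, h0, -⟩ := h
  rw [← h0]
  exact hF.2.self_of_nhds

/-- the tangent vectors of a curve -/
theorem tan_curve {F : ℂ → EN N} {z₀ : ℂ} (hF : CurveAt X F z₀) : Tan X (F z₀) (deriv F z₀) := by
  obtain ⟨hF1, hF2⟩ := hF
  have hl : AnalyticAt ℂ (fun z : ℂ => z₀ + z) 0 := by fun_prop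
  have h0 : z₀ + (0 : ℂ) = z₀ := add_zero _
  refine ⟨fun z => F (z₀ + z), ⟨?_, ?_⟩, by simp, ?_⟩
  · have h1 : AnalyticAt ℂ F (z₀ + 0) := by rw [h0]; exact hF1
    exact h1.fun_comp hl
  · have h2 : Tendsto (fun z : ℂ => z₀ + z) (𝓝 0) (𝓝 z₀) := by
      have := hl.continuousAt.tendsto
      simpa using this
    exact h2.eventually hF2
  · have h3 : deriv (fun z => F (z₀ + z)) 0 = deriv F (z₀ + 0) := deriv_comp_const_add _ _ _
    rw [h3, h0]

/-- the tangent vectors in a chart -/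
theorem tan_chart (hX : IsCone X) (χ : Chart X) {x v : EN N} (h : Tan X x v) (hU : x ∈ χ.U) :
    χ.q x ∈ ball (0 : ℂ × ℂ) 2 ∧ ∃ c a : ℂ, c ≠ 0 ∧ x = c • χ.σ (χ.q x) ∧
      v = c • fderiv ℂ χ.σ (χ.q x) (fderiv ℂ χ.q x v) + a • x := by
  obtain ⟨F, hF, h0, h1⟩ := h
  subst h0
  obtain ⟨hq, hq', c, hc, hc0, hev⟩ := χ.curve hX hF hU
  obtain ⟨hball, heq⟩ := hev.self_of_nhds
  refine ⟨hball, c 0, deriv c 0 / c 0, hc0, heq, ?_⟩
  have hs : AnalyticAt ℂ χ.σ (χ.q (F 0)) := χ.σ_an _ hball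
  have h2 : HasDerivAt (fun z => χ.σ (χ.q (F z))) (fderiv ℂ χ.σ (χ.q (F 0)) (deriv (fun z => χ.q (F z)) 0)) 0 :=
    hs.differentiableAt.hasFDerivAt.comp_hasDerivAt (0 : ℂ) hq.differentiableAt.hasDerivAt
  have h3 : HasDerivAt (fun z => c z • χ.σ (χ.q (F z))) (c 0 • fderiv ℂ χ.σ (χ.q (F 0)) (deriv (fun z => χ.q (F z)) 0) +
      deriv c 0 • χ.σ (χ.q (F 0))) 0 := hc.differentiableAt.hasDerivAt.smul h2
  have h4 : deriv F 0 = c 0 • fderiv ℂ χ.σ (χ.q (F 0)) (deriv (fun z => χ.q (F z)) 0) +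
      deriv c 0 • χ.σ (χ.q (F 0)) := by
    have h5 : F =ᶠ[𝓝 0] fun z => c z • χ.σ (χ.q (F z)) := hev.mono fun z hz => hz.2
    rw [h5.deriv_eq]
    exact h3.deriv
  rw [h1] at h4 hq'
  rw [← hq']
  have h6 : (deriv c 0 / c 0) • F 0 = deriv c 0 • χ.σ (χ.q (F 0)) := by
    conv_lhs => rw [heq]
    rw [smul_smul, div_mul_cancel₀ _ hc0]
  rw [h6]
  exact h4

end Pool.Agent.H22.W

end

section

/-!
# BPm ChartFs: comparison of the Fubini–Study length with the length in a chart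

Both sides are invariant under `x ↦ c x`, `v ↦ c v` (`fs_inv`, `Chart.fderiv_q_smul`), so by
`surj` let `x = σ p`, `‖p‖ ≤ 1`.
(a) `Dq(x) v = Dq(x) (v - a x)`, `a = ⟪x,v⟫/‖x‖^2` (`Chart.fderiv_q_self`), so
`‖Dq(x) v‖ ≤ ‖Dq(σ p)‖ ‖σ p‖ fs x v` (`fs_eq`); `p ↦ ‖Dq(σ p)‖ ‖σ p‖` is continuous on the compact
closed ball of radius `1`.
(b) `F = c • σ (q F)` near `z₀` (`Chart.curve`), so `F' z₀ = c' σ + c Dσ(p) w`, `w = (q ∘ F)' z₀`,
`fs (F z₀) (F' z₀) = fs (σ p) (Dσ(p) w)` (`fs_inv`) `≤ ‖Dσ(p)‖ ‖w‖/‖σ p‖` (`fs_le`); again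
compactness.
-/

open Topology Filter Metric

namespace Pool.Agent.H14.PP

open Pool.Agent.H36.BP

variable {N : ℕ} {X K T : Set (EN N)}

private theorem ChartFs_bdd {f : ℂ × ℂ → ℝ} (hf : ContinuousOn f (closedBall (0 : ℂ × ℂ) 1)) :
    ∃ C : ℝ, ∀ p ∈ closedBall (0 : ℂ × ℂ) 1, f p ≤ C := by
  obtain ⟨C, hC⟩ := (isCompact_closedBall (0 : ℂ × ℂ) 1).bddAbove_image hf
  exact ⟨C, fun p hp => hC (Set.mem_image_of_mem f hp)⟩

private theorem ChartFs_sub {p : ℂ × ℂ} (hp : p ∈ closedBall (0 : ℂ × ℂ) 1) :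
    p ∈ ball (0 : ℂ × ℂ) 2 :=
  closedBall_subset_ball (by norm_num) hp

private theorem ChartFs_a (χ : Chart X) :
    ∃ C : ℝ, ∀ p ∈ closedBall (0 : ℂ × ℂ) 1, ‖fderiv ℂ χ.q (χ.σ p)‖ * ‖χ.σ p‖ ≤ C := by
  apply ChartFs_bdd
  intro p hp
  have hp2 := ChartFs_sub hp
  have h1 : ContinuousAt χ.σ p := (χ.σ_an p hp2).continuousAt
  have h2 : ContinuousAt (fderiv ℂ χ.q) (χ.σ p) :=
    (χ.q_an (χ.σ p) (χ.σ_mem p hp2).2.1).fderiv.continuousAt
  have h3 : ContinuousAt (fun p => fderiv ℂ χ.q (χ.σ p)) p := ContinuousAt.comp (g := fderiv ℂ χ.q) h2 h1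
  exact (h3.norm.mul h1.norm).continuousWithinAt

private theorem ChartFs_b (hX : IsCone X) (χ : Chart X) :
    ∃ C : ℝ, ∀ p ∈ closedBall (0 : ℂ × ℂ) 1, ‖fderiv ℂ χ.σ p‖ / ‖χ.σ p‖ ≤ C := by
  apply ChartFs_bdd
  intro p hp
  have hp2 := ChartFs_sub hp
  have h1 : ContinuousAt χ.σ p := (χ.σ_an p hp2).continuousAt
  have h2 : ContinuousAt (fderiv ℂ χ.σ) p := (χ.σ_an p hp2).fderiv.continuousAt
  exact (h2.norm.div h1.norm (norm_ne_zero_iff.mpr (Chart.sigma_ne_zero hX χ hp2))).continuousWithinAt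

theorem Chart.exists_fs_bound (hX : IsCone X) (χ : Chart X) :
    ∃ C : ℝ, 1 ≤ C ∧
      (∀ x ∈ X, x ∈ χ.U → ‖χ.q x‖ ≤ 1 → ∀ v, ‖fderiv ℂ χ.q x v‖ ≤ C * fs x v) ∧
      ∀ (F : ℂ → EN N) (z₀ : ℂ), CurveAt X F z₀ → F z₀ ∈ χ.U → ‖χ.q (F z₀)‖ ≤ 1 →
        fs (F z₀) (deriv F z₀) ≤ C * ‖deriv (fun z => χ.q (F z)) z₀‖ := by
  obtain ⟨C₁, hC₁⟩ := ChartFs_a χ
  obtain ⟨C₂, hC₂⟩ := ChartFs_b hX χ
  refine ⟨max 1 (max C₁ C₂), le_max_left _ _, ?_, ?_⟩
  · intro x hx hU hq v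
    obtain ⟨hb, c, hc, hxc⟩ := χ.surj x hx hU
    set p := χ.q x with hp
    have hp1 : p ∈ closedBall (0 : ℂ × ℂ) 1 := by
      rw [mem_closedBall, dist_zero_right]; exact hq
    have hp2 : p ∈ ball (0 : ℂ × ℂ) 2 := ChartFs_sub hp1
    have hy0 : χ.σ p ≠ 0 := Chart.sigma_ne_zero hX χ hp2
    have hyU : χ.σ p ∈ χ.U := (χ.σ_mem p hp2).2.1
    set y := χ.σ p with hy
    have hv : v = c • (c⁻¹ • v) + (0 : ℂ) • y := by
      rw [smul_inv_smul₀ hc, zero_smul, add_zero]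
    have e1 : fderiv ℂ χ.q x v = fderiv ℂ χ.q y (c⁻¹ • v) := by
      conv_lhs => rw [hxc, hv]
      exact χ.fderiv_q_smul hyU (c⁻¹ • v) hc 0
    have e2 : fs x v = fs y (c⁻¹ • v) := by
      conv_lhs => rw [hxc, hv]
      exact fs_inv hy0 (c⁻¹ • v) hc 0
    rw [e1, e2]
    set v' := c⁻¹ • v with hv'
    set a : ℂ := inner ℂ y v' / (‖y‖ : ℂ) ^ 2 with ha
    have e3' : fderiv ℂ χ.q y (a • y) = 0 := by
      rw [map_smul, χ.fderiv_q_self hyU, smul_zero]
    have e3 : fderiv ℂ χ.q y v' = fderiv ℂ χ.q y (v' - a • y) := by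
      rw [map_sub, e3', sub_zero]
    have hyn : 0 < ‖y‖ := norm_pos_iff.mpr hy0
    have e4 : ‖v' - a • y‖ = ‖y‖ * fs y v' := by
      rw [fs_eq hy0, ← ha]
      field_simp
    calc ‖fderiv ℂ χ.q y v'‖ = ‖fderiv ℂ χ.q y (v' - a • y)‖ := by rw [e3]
      _ ≤ ‖fderiv ℂ χ.q y‖ * ‖v' - a • y‖ := ContinuousLinearMap.le_opNorm _ _
      _ = (‖fderiv ℂ χ.q y‖ * ‖y‖) * fs y v' := by rw [e4]; ring
      _ ≤ C₁ * fs y v' := mul_le_mul_of_nonneg_right (hC₁ p hp1) (fs_nonneg _ _)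
      _ ≤ max 1 (max C₁ C₂) * fs y v' :=
        mul_le_mul_of_nonneg_right ((le_max_left _ _).trans (le_max_right _ _)) (fs_nonneg _ _)
  · intro F z₀ hF hU hq
    obtain ⟨han, -, c, hcan, hc0, hev⟩ := Chart.curve hX χ hF hU
    have hev0 := hev.self_of_nhds
    set p := χ.q (F z₀) with hp
    have hp1 : p ∈ closedBall (0 : ℂ × ℂ) 1 := by
      rw [mem_closedBall, dist_zero_right]; exact hq
    have hp2 : p ∈ ball (0 : ℂ × ℂ) 2 := ChartFs_sub hp1
    have hy0 : χ.σ p ≠ 0 := Chart.sigma_ne_zero hX χ hp2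
    set w := deriv (fun z => χ.q (F z)) z₀ with hw
    have hq' : HasDerivAt (fun z => χ.q (F z)) w z₀ := han.differentiableAt.hasDerivAt
    have hσ' : HasFDerivAt χ.σ (fderiv ℂ χ.σ p) p := (χ.σ_an p hp2).differentiableAt.hasFDerivAt
    have hcomp : HasDerivAt (fun z => χ.σ (χ.q (F z))) (fderiv ℂ χ.σ p w) z₀ :=
      HasFDerivAt.comp_hasDerivAt (l := χ.σ) z₀ hσ' hq'
    have hprod : HasDerivAt (fun z => c z • χ.σ (χ.q (F z)))
        (c z₀ • fderiv ℂ χ.σ p w + deriv c z₀ • χ.σ p) z₀ :=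
      hcan.differentiableAt.hasDerivAt.smul hcomp
    have hFd : deriv F z₀ = c z₀ • fderiv ℂ χ.σ p w + deriv c z₀ • χ.σ p := by
      have h1 : F =ᶠ[𝓝 z₀] fun z => c z • χ.σ (χ.q (F z)) := hev.mono fun z hz => hz.2
      rw [h1.deriv_eq]
      exact hprod.deriv
    have e1 : fs (F z₀) (deriv F z₀) = fs (χ.σ p) (fderiv ℂ χ.σ p w) := by
      rw [hFd]
      conv_lhs => rw [hev0.2]
      exact fs_inv hy0 _ hc0 _
    rw [e1]
    calc fs (χ.σ p) (fderiv ℂ χ.σ p w) ≤ ‖fderiv ℂ χ.σ p w‖ / ‖χ.σ p‖ := fs_le hy0 _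
      _ ≤ ‖fderiv ℂ χ.σ p‖ * ‖w‖ / ‖χ.σ p‖ := by
        gcongr
        exact ContinuousLinearMap.le_opNorm _ _
      _ = (‖fderiv ℂ χ.σ p‖ / ‖χ.σ p‖) * ‖w‖ := by ring
      _ ≤ C₂ * ‖w‖ := mul_le_mul_of_nonneg_right (hC₂ p hp1) (norm_nonneg _)
      _ ≤ max 1 (max C₁ C₂) * ‖w‖ :=
        mul_le_mul_of_nonneg_right ((le_max_right _ _).trans (le_max_right _ _)) (norm_nonneg _)

end Pool.Agent.H14.PP

end

section

/-!
# W Def: nonpositively curved pseudo-lengths on a projective surface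

`X` is the cone (without `0`) of a smooth projective surface.
-/

set_option autoImplicit false

open Topology Filter Metric

namespace Pool.Agent.H22.W

open Pool.Agent.H36.BP (EN fs wd)
open Pool.Agent.H14.PP (IsCone Chart Tan CurveAt IsOpenPart)
open Pool.Agent.H62.EF (Charts)

variable {N : ℕ}

variable {X : Set (EN N)}

theorem PseudoLength.tendsto (n : PseudoLength X) {ι : Type*} {l : Filter ι}
    {x v : ι → EN N} {x₀ v₀ : EN N} (h : ∀ᶠ i in l, Tan X (x i) (v i)) (h₀ : Tan X x₀ v₀)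
    (hx : Tendsto x l (𝓝 x₀)) (hv : Tendsto v l (𝓝 v₀)) :
    Tendsto (fun i => n.toFun (x i) (v i)) l (𝓝 (n.toFun x₀ v₀)) := by
  have h1 : ContinuousWithinAt (fun p : EN N × EN N => n.toFun p.1 p.2) {p | Tan X p.1 p.2} (x₀, v₀) := n.continuous _ h₀
  have h2 : Tendsto (fun i => (x i, v i)) l (𝓝[{p | Tan X p.1 p.2}] (x₀, v₀)) :=
    tendsto_nhdsWithin_iff.2 ⟨hx.prodMk_nhds hv, h⟩
  exact h1.tendsto.comp h2

theorem tan_entire {F : ℂ → EN N} (hF : Differentiable ℂ F) (hFX : ∀ z, F z ∈ X) (z : ℂ) : Tan X (F z) (deriv F z) :=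
  tan_curve ⟨hF.analyticAt z, Eventually.of_forall hFX⟩

/-- the length of the derivative of an entire curve is continuous -/
theorem PseudoLength.continuous_curve (n : PseudoLength X) {F : ℂ → EN N} (hF : Differentiable ℂ F) (hFX : ∀ z, F z ∈ X) :
    Continuous fun z => n.toFun (F z) (deriv F z) := by
  rw [continuous_iff_continuousAt]
  intro z₀
  have hc : Continuous (deriv F) := (hF.contDiff (n := 1)).continuous_deriv le_rfl
  exact n.tendsto (Eventually.of_forall fun z => tan_entire hF hFX z) (tan_entire hF hFX z₀)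
    hF.continuous.continuousAt.tendsto hc.continuousAt.tendsto

theorem PseudoLength.inv (hX : IsCone X) (n : PseudoLength X) {x v : EN N} (h : Tan X x v) {c : ℂ} (hc : c ≠ 0) (a : ℂ) :
    n.toFun (c • x) (c • v + a • x) = n.toFun x v := by
  have h1 : c • v + a • x = c • v + (a / c) • (c • x) := by
    rw [smul_smul, div_mul_cancel₀ _ hc]
  rw [h1, n.add_smul _ _ (tan_smul hX h hc), n.scale _ _ h _ hc]

/-- the pseudo-length in a chart -/
noncomputable def coef (n : PseudoLength X) (χ : Chart X) (y : (ℂ × ℂ) × (ℂ × ℂ)) : ℝ :=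
  n.toFun (χ.σ y.1) (fderiv ℂ χ.σ y.1 y.2)

theorem eq_coef (hX : IsCone X) (n : PseudoLength X) (χ : Chart X) {x v : EN N} (h : Tan X x v)
    (hU : x ∈ χ.U) : n.toFun x v = coef n χ (χ.q x, fderiv ℂ χ.q x v) := by
  obtain ⟨hb, c, a, hc, h1, h2⟩ := tan_chart hX χ h hU
  have ht : Tan X (χ.σ (χ.q x)) (fderiv ℂ χ.σ (χ.q x) (fderiv ℂ χ.q x v)) :=
    χ.tan (isOpenPart_self hX) hb (χ.σ_mem _ hb).1 _
  have h3 := n.inv hX ht hc (a * c)
  unfold coef
  rw [← h3]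
  have h4 : c • fderiv ℂ χ.σ (χ.q x) (fderiv ℂ χ.q x v) + (a * c) • χ.σ (χ.q x) = v := by
    conv_rhs => rw [h2]
    congr 1
    conv_rhs => rw [h1]
    rw [smul_smul]
  rw [h4, ← h1]

theorem tan_sigma (hX : IsCone X) (χ : Chart X) {p : ℂ × ℂ} (hp : p ∈ ball (0 : ℂ × ℂ) 2) (w : ℂ × ℂ) :
    Tan X (χ.σ p) (fderiv ℂ χ.σ p w) := χ.tan (isOpenPart_self hX) hp (χ.σ_mem p hp).1 _

theorem coef_cont (hX : IsCone X) (n : PseudoLength X) (χ : Chart X) {p : ℂ × ℂ} (hp : p ∈ ball (0 : ℂ × ℂ) 2)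
    (w : ℂ × ℂ) : ContinuousAt (coef n χ) (p, w) := by
  have hs : AnalyticAt ℂ χ.σ p := χ.σ_an p hp
  have h1 : Tendsto (fun y : (ℂ × ℂ) × (ℂ × ℂ) => χ.σ y.1) (𝓝 (p, w)) (𝓝 (χ.σ p)) :=
    hs.continuousAt.tendsto.comp continuousAt_fst.tendsto
  have h2 : Tendsto (fun y : (ℂ × ℂ) × (ℂ × ℂ) => fderiv ℂ χ.σ y.1) (𝓝 (p, w)) (𝓝 (fderiv ℂ χ.σ p)) :=
    hs.fderiv.continuousAt.tendsto.comp continuousAt_fst.tendsto
  have hcb : Continuous fun p : ((ℂ × ℂ) →L[ℂ] EN N) × (ℂ × ℂ) => p.1 p.2 := isBoundedBilinearMap_apply.continuous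
  have h3 : Tendsto (fun y : (ℂ × ℂ) × (ℂ × ℂ) => fderiv ℂ χ.σ y.1 y.2) (𝓝 (p, w)) (𝓝 (fderiv ℂ χ.σ p w)) :=
    (hcb.tendsto (fderiv ℂ χ.σ p, w)).comp (h2.prodMk_nhds continuousAt_snd.tendsto)
  refine n.tendsto ?_ (tan_sigma hX χ hp w) h1 h3
  have h4 : ∀ᶠ y in 𝓝 (p, w), y.1 ∈ ball (0 : ℂ × ℂ) 2 := continuousAt_fst.eventually (isOpen_ball.mem_nhds hp)
  filter_upwards [h4] with y hy
  exact tan_sigma hX χ hy _

theorem coef_smul (hX : IsCone X) (n : PseudoLength X) (χ : Chart X) {p : ℂ × ℂ} (hp : p ∈ ball (0 : ℂ × ℂ) 2)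
    (w : ℂ × ℂ) (a : ℂ) : coef n χ (p, a • w) = ‖a‖ * coef n χ (p, w) := by
  unfold coef
  simp only [map_smul]
  exact n.smul _ _ (tan_sigma hX χ hp w) _

/-- the bound in the middle of a chart -/
theorem coef_bound (hX : IsCone X) (n : PseudoLength X) (χ : Chart X) :
    ∃ C : ℝ, 0 ≤ C ∧ ∀ p ∈ closedBall (0 : ℂ × ℂ) 1, ∀ w, coef n χ (p, w) ≤ C * ‖w‖ := by
  have hcomp : IsCompact (closedBall (0 : ℂ × ℂ) 1 ×ˢ sphere (0 : ℂ × ℂ) 1) :=
    (isCompact_closedBall _ _).prod (isCompact_sphere _ _)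
  obtain ⟨C, hC⟩ := hcomp.exists_bound_of_continuousOn (f := coef n χ) (by
    rintro ⟨p, w⟩ ⟨hp, -⟩
    exact (coef_cont hX n χ (closedBall_subset_ball (by norm_num) hp) w).continuousWithinAt)
  have hC0 : 0 ≤ C := by
    have := hC ((0 : ℂ × ℂ), (1, 0)) ⟨mem_closedBall_self zero_le_one, by
      rw [mem_sphere_zero_iff_norm, Prod.norm_def]; simp⟩
    exact (norm_nonneg _).trans this
  refine ⟨C, hC0, fun p hp w => ?_⟩
  have hp2 : p ∈ ball (0 : ℂ × ℂ) 2 := closedBall_subset_ball (by norm_num) hp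
  rcases eq_or_ne w 0 with rfl | hw
  · have h1 := coef_smul hX n χ hp2 0 0
    rw [zero_smul, norm_zero, zero_mul] at h1
    rw [h1, norm_zero, mul_zero]
  · have hw0 : ‖w‖ ≠ 0 := norm_ne_zero_iff.2 hw
    have h1 : w = ((‖w‖ : ℝ) : ℂ) • (((‖w‖ : ℝ) : ℂ)⁻¹ • w) := by
      rw [smul_smul, mul_inv_cancel₀ (by exact_mod_cast hw0), one_smul]
    have h2 : ‖(((‖w‖ : ℝ) : ℂ)⁻¹ • w)‖ = 1 := by
      rw [norm_smul, norm_inv, Complex.norm_real, norm_norm, inv_mul_cancel₀ hw0]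
    rw [h1, coef_smul hX n χ hp2, Complex.norm_real, norm_norm, ← h1, mul_comm]
    refine mul_le_mul_of_nonneg_right ?_ (norm_nonneg _)
    exact (le_abs_self _).trans (hC (p, _) ⟨hp, by rw [mem_sphere_zero_iff_norm]; exact h2⟩)

theorem fs_scale (x v : EN N) {c : ℂ} (hc0 : c ≠ 0) : fs (c • x) (c • v) = fs x v := by
  have h5 : wd (c • x) (c • v) = ‖c‖ ^ 2 * wd x v := by
    unfold wd
    rw [norm_smul, norm_smul, inner_smul_left, inner_smul_right, norm_mul, norm_mul, RCLike.norm_conj]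
    rw [show (‖c‖ * ‖x‖) ^ 2 * (‖c‖ * ‖v‖) ^ 2 - (‖c‖ * (‖c‖ * ‖(inner ℂ x v : ℂ)‖)) ^ 2 =
      (‖c‖ ^ 2) ^ 2 * (‖x‖ ^ 2 * ‖v‖ ^ 2 - ‖(inner ℂ x v : ℂ)‖ ^ 2) by ring]
    rw [Real.sqrt_mul (by positivity), Real.sqrt_sq (by positivity)]
  unfold fs
  rw [h5, norm_smul, mul_pow]
  exact mul_div_mul_left _ _ (pow_ne_zero _ (norm_ne_zero_iff.2 hc0))

/-- A pseudo-length is bounded by the Fubini-Study length. -/
theorem PseudoLength.bound (hX : IsCone X) (hch : Charts X) (n : PseudoLength X) :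
    ∃ C : ℝ, 0 < C ∧ ∀ x v, Tan X x v → n.toFun x v ≤ C * fs x v := by
  classical
  obtain ⟨S, hS⟩ : ∃ S : Set (EN N), S = sphere (0 : EN N) 1 ∩ insert 0 X := ⟨_, rfl⟩
  have hcomp : IsCompact S := by rw [hS]; exact (isCompact_sphere _ _).inter_right hX.closed
  have hSX : ∀ x ∈ S, x ∈ X := by
    intro x hx
    rw [hS] at hx
    rcases hx.2 with h | h
    · exfalso
      have := hx.1
      rw [mem_sphere_zero_iff_norm, h, norm_zero] at this
      exact zero_ne_one this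
    · exact h
  have hloc : ∀ x ∈ S, ∃ C : ℝ, 0 ≤ C ∧ ∀ᶠ y in 𝓝 x, ∀ v, Tan X y v → n.toFun y v ≤ C * fs y v := by
    intro x hx
    have hxX := hSX x hx
    obtain ⟨χ, hχU, hχ0⟩ := hch x hxX
    obtain ⟨C₁, hC₁, h1⟩ := coef_bound hX n χ
    obtain ⟨C₂, hC₂, h2, -⟩ := χ.exists_fs_bound hX
    refine ⟨C₁ * C₂, by positivity, ?_⟩
    have h3 : ∀ᶠ y in 𝓝 x, y ∈ χ.U := χ.isOpen_U.mem_nhds hχU
    have h4 : ∀ᶠ y in 𝓝 x, χ.q y ∈ closedBall (0 : ℂ × ℂ) 1 := by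
      have := (χ.q_an x hχU).continuousAt
      refine this.eventually ?_
      rw [hχ0]
      exact closedBall_mem_nhds _ one_pos
    filter_upwards [h3, h4] with y hy1 hy2 v hv
    rw [eq_coef hX n χ hv hy1]
    refine (h1 _ hy2 _).trans ?_
    rw [mul_assoc]
    refine mul_le_mul_of_nonneg_left ?_ hC₁
    exact h2 y (tan_mem hv) hy1 (by simpa using hy2) v
  choose! C hC0 hC using hloc
  obtain ⟨t, htS, ht⟩ := hcomp.elim_nhds_subcover (fun x => {y | ∀ v, Tan X y v → n.toFun y v ≤ C x * fs y v})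
    fun x hx => hC x hx
  have hfs0 : ∀ x v : EN N, 0 ≤ fs x v := fun x v => by
    unfold fs wd
    positivity
  refine ⟨∑ x ∈ t, C x + 1, ?_, fun x v hv => ?_⟩
  · have : 0 ≤ ∑ x ∈ t, C x := Finset.sum_nonneg fun x hx => hC0 x (htS x hx)
    linarith
  · have hxX := tan_mem hv
    have hx0 : x ≠ 0 := hX.ne_zero hxX
    have hn : ‖x‖ ≠ 0 := norm_ne_zero_iff.2 hx0
    obtain ⟨c, hc⟩ : ∃ c : ℂ, c = (((‖x‖ : ℝ) : ℂ))⁻¹ := ⟨_, rfl⟩
    have hc0 : c ≠ 0 := by rw [hc]; exact inv_ne_zero (by exact_mod_cast hn)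
    have h1 : n.toFun (c • x) (c • v) = n.toFun x v := n.scale x v hv c hc0
    have h2 : c • x ∈ S := by
      rw [hS]
      refine ⟨?_, Or.inr (hX.smul_mem x hxX c hc0)⟩
      rw [mem_sphere_zero_iff_norm, norm_smul, hc, norm_inv, Complex.norm_real, norm_norm, inv_mul_cancel₀ hn]
    obtain ⟨y, hy, hy2⟩ := Set.mem_iUnion₂.1 (ht h2)
    have h3 : n.toFun (c • x) (c • v) ≤ C y * fs (c • x) (c • v) := hy2 _ (tan_smul hX hv hc0)
    rw [h1, fs_scale x v hc0] at h3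
    refine h3.trans (mul_le_mul_of_nonneg_right ?_ (hfs0 _ _))
    have h5 : C y ≤ ∑ x ∈ t, C x := Finset.single_le_sum (f := C) (fun x hx => hC0 x (htS x hx)) hy
    linarith

end Pool.Agent.H22.W

end

section

/-!
Every lattice of finite index in `ℤ × ℤ` has a finite family of bases in the quadrant whose
cones cover the quadrant.
-/

namespace Pool.Agent.MQ3

/-- the vector in `ℤ × ℤ` -/
def cst (w : ℕ × ℕ) : ℤ × ℤ := (w.1, w.2)

/-- primitive in `L` -/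
structure Prim (L : AddSubgroup (ℤ × ℤ)) (w : ℕ × ℕ) : Prop where
  mem : cst w ∈ L
  pos : 0 < w.1 + w.2
  prim : ∀ v ∈ L, ∀ j k : ℤ, 0 < j → j < k → k * v.1 = j * w.1 → k * v.2 = j * w.2 → False

/-- a primitive vector on the ray of a given vector -/
lemma exists_prim {L : AddSubgroup (ℤ × ℤ)} {u : ℕ × ℕ} (hu : cst u ∈ L) (hpos : 0 < u.1 + u.2) :
    ∃ v : ℕ × ℕ, Prim L v ∧ ∃ j k : ℕ, 0 < j ∧ j ≤ k ∧ k * v.1 = j * u.1 ∧ k * v.2 = j * u.2 := by
  classical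
  let Q : ℕ → Prop := fun n => ∃ v : ℕ × ℕ, cst v ∈ L ∧ 0 < v.1 + v.2 ∧ v.1 + v.2 = n ∧
    ∃ j k : ℕ, 0 < j ∧ 0 < k ∧ k * v.1 = j * u.1 ∧ k * v.2 = j * u.2
  have hQ : ∃ n, Q n := ⟨u.1 + u.2, u, hu, hpos, rfl, 1, 1, one_pos, one_pos, rfl, rfl⟩
  obtain ⟨v, hv, hv0, hvn, j, k, hj, hk, h1, h2⟩ := Nat.find_spec hQ
  have hmin : ∀ v' : ℕ × ℕ, cst v' ∈ L → 0 < v'.1 + v'.2 →
      (∃ j k : ℕ, 0 < j ∧ 0 < k ∧ k * v'.1 = j * u.1 ∧ k * v'.2 = j * u.2) →
      v.1 + v.2 ≤ v'.1 + v'.2 := by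
    intro v' a1 a2 a3
    rw [hvn]
    exact Nat.find_min' hQ ⟨v', a1, a2, rfl, a3⟩
  refine ⟨v, ⟨hv, hv0, ?_⟩, j, k, hj, ?_, h1, h2⟩
  · intro w hw i l hi hil e1 e2
    have hl : 0 < l := hi.trans hil
    have w1 : 0 ≤ w.1 := by
      by_contra hneg
      rw [not_le] at hneg
      have : l * w.1 < 0 := mul_neg_of_pos_of_neg hl hneg
      have : 0 ≤ i * (v.1 : ℤ) := by positivity
      omega
    have w2 : 0 ≤ w.2 := by
      by_contra hneg
      rw [not_le] at hneg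
      have : l * w.2 < 0 := mul_neg_of_pos_of_neg hl hneg
      have : 0 ≤ i * (v.2 : ℤ) := by positivity
      omega
    obtain ⟨a, ha⟩ := Int.eq_ofNat_of_zero_le w1
    obtain ⟨b, hb⟩ := Int.eq_ofNat_of_zero_le w2
    obtain ⟨i', hi'⟩ := Int.eq_ofNat_of_zero_le hi.le
    obtain ⟨l', hl'⟩ := Int.eq_ofNat_of_zero_le hl.le
    subst hi' hl'
    rw [ha] at e1
    rw [hb] at e2
    have e1' : l' * a = i' * v.1 := by exact_mod_cast e1
    have e2' : l' * b = i' * v.2 := by exact_mod_cast e2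
    have hi0 : 0 < i' := by exact_mod_cast hi
    have hl0 : 0 < l' := by exact_mod_cast hl
    have hil0 : i' < l' := by exact_mod_cast hil
    have hsum : l' * (a + b) = i' * (v.1 + v.2) := by rw [mul_add, mul_add, e1', e2']
    have hab : 0 < a + b := by
      rcases Nat.eq_zero_or_pos (a + b) with h0 | h0
      · rw [h0, mul_zero] at hsum
        have : 0 < i' * (v.1 + v.2) := Nat.mul_pos hi0 hv0
        omega
      · exact h0
    have hle := hmin (a, b) (by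
      have : cst (a, b) = w := by
        ext
        · simp [cst, ha]
        · simp [cst, hb]
      rw [this]; exact hw) hab
      ⟨i' * j, l' * k, Nat.mul_pos hi0 hj, Nat.mul_pos hl0 hk, by
        calc l' * k * a = k * (l' * a) := by ring
          _ = i' * (k * v.1) := by rw [e1']; ring
          _ = i' * j * u.1 := by rw [h1]; ring, by
        calc l' * k * b = k * (l' * b) := by ring
          _ = i' * (k * v.2) := by rw [e2']; ring
          _ = i' * j * u.2 := by rw [h2]; ring⟩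
    simp only at hle
    have : i' * (v.1 + v.2) < l' * (v.1 + v.2) := Nat.mul_lt_mul_of_pos_right hil0 hv0
    have h3 : l' * (v.1 + v.2) ≤ l' * (a + b) := Nat.mul_le_mul_left _ hle
    omega
  · have hle := hmin u hu hpos ⟨1, 1, one_pos, one_pos, rfl, rfl⟩
    by_contra hcon
    rw [not_le] at hcon
    have hsum : k * (v.1 + v.2) = j * (u.1 + u.2) := by rw [mul_add, mul_add, h1, h2]
    have h3 : k * (v.1 + v.2) < j * (v.1 + v.2) := Nat.mul_lt_mul_of_pos_right hcon hv0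
    have h4 : j * (v.1 + v.2) ≤ j * (u.1 + u.2) := Nat.mul_le_mul_left _ hle
    omega

/-- `u` lies in the closed cone of `w`, `w'` -/
def InC (w w' u : ℕ × ℕ) : Prop := 0 ≤ dt w u ∧ 0 ≤ dt u w' ∧ 0 < u.1 + u.2

/-- `u` does not lie in the open cone of `w`, `w'` -/
def NoIn (w w' u : ℕ × ℕ) : Prop := ¬ (0 < dt w u ∧ 0 < dt u w')

/-- a fan: positively oriented pairs, no ray inside a cone -/
structure IsFan (F : Finset ((ℕ × ℕ) × (ℕ × ℕ))) : Prop where
  pos : ∀ c ∈ F, 0 < dt c.1 c.2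
  fan₁ : ∀ c ∈ F, ∀ c' ∈ F, NoIn c.1 c.2 c'.1
  fan₂ : ∀ c ∈ F, ∀ c' ∈ F, NoIn c.1 c.2 c'.2

lemma dt_self (w : ℕ × ℕ) : dt w w = 0 := by unfold dt; ring

lemma dt_swap (w w' : ℕ × ℕ) : dt w' w = - dt w w' := by unfold dt; ring

/-- the order of the directions in the quadrant -/
lemma dt_trans {a b c : ℕ × ℕ} (hb : 0 < b.1 + b.2) (h1 : 0 ≤ dt a b) (h2 : 0 ≤ dt b c) : 0 ≤ dt a c := by
  have e : ((b.1 : ℤ) + b.2) * dt a c = (c.1 + c.2) * dt a b + (a.1 + a.2) * dt b c := by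
    unfold dt; ring
  by_contra hneg
  rw [not_le] at hneg
  have hb' : (0 : ℤ) < (b.1 : ℤ) + b.2 := by exact_mod_cast hb
  have h3 : ((b.1 : ℤ) + b.2) * dt a c < 0 := mul_neg_of_pos_of_neg hb' hneg
  have h4 : 0 ≤ ((c.1 : ℤ) + c.2) * dt a b := by positivity
  have h5 : 0 ≤ ((a.1 : ℤ) + a.2) * dt b c := by positivity
  omega

/-- the cone of a pair is covered by cones of bases -/
lemma cover_cone {L : AddSubgroup (ℤ × ℤ)} (D : ℕ) : ∀ w w' : ℕ × ℕ, Prim L w → Prim L w' →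
    0 < dt w w' → dt w w' ≤ D →
    ∃ F : Finset ((ℕ × ℕ) × (ℕ × ℕ)), (∀ c ∈ F, IsBas L c.1 c.2) ∧
      (IsFan F ∧ ∀ c ∈ F, InC w w' c.1 ∧ InC w w' c.2) ∧
      ∀ x y : ℝ, 0 ≤ x → 0 ≤ y → ∃ c ∈ F, ∃ l l' : ℝ, 0 ≤ l ∧ 0 ≤ l' ∧
        x * w.1 + y * w'.1 = l * c.1.1 + l' * c.2.1 ∧
        x * w.2 + y * w'.2 = l * c.1.2 + l' * c.2.2 := by
  classical
  induction D with
  | zero =>
    intro w w' _ _ h1 h2
    exfalso
    have : dt w w' ≤ 0 := by exact_mod_cast h2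
    omega
  | succ D ih =>
    intro w w' hw hw' hd hD
    by_cases hbas : IsBas L w w'
    · refine ⟨{(w, w')}, fun c hc => ?_, ⟨⟨?_, ?_, ?_⟩, ?_⟩,
        fun x y hx hy => ⟨(w, w'), by simp, x, y, hx, hy, rfl, rfl⟩⟩
      · rw [Finset.mem_singleton] at hc
        subst hc
        exact hbas
      · intro c hc
        rw [Finset.mem_singleton] at hc
        subst hc
        exact hd
      · intro c hc c' hc'
        rw [Finset.mem_singleton] at hc hc'
        subst hc hc'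
        rintro ⟨h1, -⟩
        simp only [dt_self, lt_irrefl] at h1
      · intro c hc c' hc'
        rw [Finset.mem_singleton] at hc hc'
        subst hc hc'
        rintro ⟨-, h1⟩
        simp only [dt_self, lt_irrefl] at h1
      · intro c hc
        rw [Finset.mem_singleton] at hc
        subst hc
        exact ⟨⟨(dt_self w).ge, hd.le, hw.pos⟩, ⟨hd.le, (dt_self w').ge, hw'.pos⟩⟩
    -- a lattice vector which is not an integral combination
    have hex : ∃ n ∈ L, ¬ ∃ i j : ℤ, n.1 = i * w.1 + j * w'.1 ∧ n.2 = i * w.2 + j * w'.2 := by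
      by_contra hcon
      push Not at hcon
      apply hbas
      refine ⟨by unfold dt at hd; omega, fun n => ⟨fun hn => ?_, ?_⟩⟩
      · exact hcon n hn
      · rintro ⟨i, j, h1, h2⟩
        have : n = i • cst w + j • cst w' := by
          ext
          · simp [cst, h1]
          · simp [cst, h2]
        rw [this]
        exact L.add_mem (L.zsmul_mem hw.mem i) (L.zsmul_mem hw'.mem j)
    obtain ⟨n, hn, hno⟩ := hex
    set d : ℤ := dt w w' with hd_def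
    set P : ℤ := n.1 * w'.2 - n.2 * w'.1 with hP
    set R : ℤ := w.1 * n.2 - w.2 * n.1 with hR
    have hc1 : d * n.1 = P * w.1 + R * w'.1 := by
      rw [hd_def, hP, hR]; unfold dt; ring
    have hc2 : d * n.2 = P * w.2 + R * w'.2 := by
      rw [hd_def, hP, hR]; unfold dt; ring
    obtain ⟨i, p0, hp0, hp1, hPi⟩ : ∃ i p0 : ℤ, 0 ≤ p0 ∧ p0 < d ∧ P = d * i + p0 :=
      ⟨P / d, P % d, Int.emod_nonneg _ hd.ne', Int.emod_lt_of_pos _ hd, (Int.mul_ediv_add_emod P d).symm⟩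
    obtain ⟨j, q0, hq0, hq1, hRj⟩ : ∃ j q0 : ℤ, 0 ≤ q0 ∧ q0 < d ∧ R = d * j + q0 :=
      ⟨R / d, R % d, Int.emod_nonneg _ hd.ne', Int.emod_lt_of_pos _ hd, (Int.mul_ediv_add_emod R d).symm⟩
    set u : ℤ × ℤ := n - i • cst w - j • cst w' with hu_def
    have huL : u ∈ L := L.sub_mem (L.sub_mem hn (L.zsmul_mem hw.mem i)) (L.zsmul_mem hw'.mem j)
    have hu1' : u.1 = n.1 - i * w.1 - j * w'.1 := by simp [hu_def, cst]
    have hu2' : u.2 = n.2 - i * w.2 - j * w'.2 := by simp [hu_def, cst]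
    have hu1 : d * u.1 = p0 * w.1 + q0 * w'.1 := by
      rw [hu1']
      linear_combination hc1 + (w.1 : ℤ) * hPi + (w'.1 : ℤ) * hRj
    have hu2 : d * u.2 = p0 * w.2 + q0 * w'.2 := by
      rw [hu2']
      linear_combination hc2 + (w.2 : ℤ) * hPi + (w'.2 : ℤ) * hRj
    have hp0' : p0 ≠ 0 := by
      intro h0
      rw [h0, zero_mul, zero_add] at hu1 hu2
      rcases hq0.eq_or_lt with h | h
      · rw [← h, zero_mul] at hu1 hu2
        apply hno
        refine ⟨i, j, ?_, ?_⟩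
        · have := (mul_eq_zero.1 hu1).resolve_left hd.ne'
          rw [hu1'] at this; linarith
        · have := (mul_eq_zero.1 hu2).resolve_left hd.ne'
          rw [hu2'] at this; linarith
      · exact hw'.prim u huL q0 d h hq1 hu1 hu2
    have hq0' : q0 ≠ 0 := by
      intro h0
      rw [h0, zero_mul, add_zero] at hu1 hu2
      exact hw.prim u huL p0 d (lt_of_le_of_ne hp0 (Ne.symm hp0')) hp1 hu1 hu2
    have hp0p : 0 < p0 := lt_of_le_of_ne hp0 (Ne.symm hp0')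
    have hq0p : 0 < q0 := lt_of_le_of_ne hq0 (Ne.symm hq0')
    have hun1 : 0 ≤ u.1 := by
      by_contra hneg
      rw [not_le] at hneg
      have h1 : d * u.1 < 0 := mul_neg_of_pos_of_neg hd hneg
      have h2 : 0 ≤ p0 * (w.1 : ℤ) + q0 * w'.1 := by positivity
      omega
    have hun2 : 0 ≤ u.2 := by
      by_contra hneg
      rw [not_le] at hneg
      have h1 : d * u.2 < 0 := mul_neg_of_pos_of_neg hd hneg
      have h2 : 0 ≤ p0 * (w.2 : ℤ) + q0 * w'.2 := by positivity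
      omega
    obtain ⟨u1, hu1n⟩ := Int.eq_ofNat_of_zero_le hun1
    obtain ⟨u2, hu2n⟩ := Int.eq_ofNat_of_zero_le hun2
    have hcu : cst (u1, u2) = u := by
      ext
      · simp [cst, hu1n]
      · simp [cst, hu2n]
    have hupos : 0 < u1 + u2 := by
      rcases Nat.eq_zero_or_pos (u1 + u2) with h0 | h0
      · exfalso
        have a1 : u1 = 0 := by omega
        have a2 : u2 = 0 := by omega
        rw [hu1n, a1] at hu1
        rw [hu2n, a2] at hu2
        have b1 : 0 ≤ p0 * (w.1 : ℤ) := by positivity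
        have b2 : 0 ≤ q0 * (w'.1 : ℤ) := by positivity
        have b3 : 0 ≤ p0 * (w.2 : ℤ) := by positivity
        have b4 : 0 ≤ q0 * (w'.2 : ℤ) := by positivity
        have c1 : p0 * (w.1 : ℤ) = 0 := by
          have : d * ((0 : ℕ) : ℤ) = 0 := by simp
          omega
        have c2 : p0 * (w.2 : ℤ) = 0 := by
          have : d * ((0 : ℕ) : ℤ) = 0 := by simp
          omega
        have c3 : (w.1 : ℤ) = 0 := (mul_eq_zero.1 c1).resolve_left hp0'
        have c4 : (w.2 : ℤ) = 0 := (mul_eq_zero.1 c2).resolve_left hp0'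
        have := hw.pos
        omega
      · exact h0
    obtain ⟨v, hv, jj, kk, hjj, hjk, hv1, hv2⟩ := exists_prim (L := L) (u := (u1, u2))
      (by rw [hcu]; exact huL) hupos
    simp only at hv1 hv2
    have hkk : 0 < kk := lt_of_lt_of_le hjj hjk
    have hv1' : (kk : ℤ) * v.1 = jj * u.1 := by rw [hu1n]; exact_mod_cast hv1
    have hv2' : (kk : ℤ) * v.2 = jj * u.2 := by rw [hu2n]; exact_mod_cast hv2
    have hkkz : (0 : ℤ) < kk := by exact_mod_cast hkk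
    have hjjz : (0 : ℤ) < jj := by exact_mod_cast hjj
    have hjkz : (jj : ℤ) ≤ kk := by exact_mod_cast hjk
    -- determinants
    have dwu : w.1 * u.2 - w.2 * u.1 = q0 := by
      apply mul_left_cancel₀ hd.ne'
      calc d * (w.1 * u.2 - w.2 * u.1) = w.1 * (d * u.2) - w.2 * (d * u.1) := by ring
        _ = q0 * dt w w' := by rw [hu1, hu2]; unfold dt; ring
        _ = d * q0 := by rw [hd_def]; ring
    have duw : u.1 * w'.2 - u.2 * w'.1 = p0 := by
      apply mul_left_cancel₀ hd.ne'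
      calc d * (u.1 * w'.2 - u.2 * w'.1) = w'.2 * (d * u.1) - w'.1 * (d * u.2) := by ring
        _ = p0 * dt w w' := by rw [hu1, hu2]; unfold dt; ring
        _ = d * p0 := by rw [hd_def]; ring
    have kd1 : kk * dt w v = jj * q0 := by
      unfold dt
      calc (kk : ℤ) * (w.1 * v.2 - w.2 * v.1) = w.1 * (kk * v.2) - w.2 * (kk * v.1) := by ring
        _ = jj * (w.1 * u.2 - w.2 * u.1) := by rw [hv1', hv2']; ring
        _ = jj * q0 := by rw [dwu]
    have kd2 : kk * dt v w' = jj * p0 := by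
      unfold dt
      calc (kk : ℤ) * (v.1 * w'.2 - v.2 * w'.1) = w'.2 * (kk * v.1) - w'.1 * (kk * v.2) := by ring
        _ = jj * (u.1 * w'.2 - u.2 * w'.1) := by rw [hv1', hv2']; ring
        _ = jj * p0 := by rw [duw]
    have pd1 : 0 < dt w v := by
      by_contra hneg
      rw [not_lt] at hneg
      have h1 : (kk : ℤ) * dt w v ≤ 0 := mul_nonpos_of_nonneg_of_nonpos hkkz.le hneg
      have h2 : 0 < jj * q0 := mul_pos hjjz hq0p
      omega
    have pd2 : 0 < dt v w' := by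
      by_contra hneg
      rw [not_lt] at hneg
      have h1 : (kk : ℤ) * dt v w' ≤ 0 := mul_nonpos_of_nonneg_of_nonpos hkkz.le hneg
      have h2 : 0 < jj * p0 := mul_pos hjjz hp0p
      omega
    have ld1 : dt w v ≤ q0 := by
      by_contra hcon
      rw [not_le] at hcon
      have h1 : (kk : ℤ) * q0 < kk * dt w v := mul_lt_mul_of_pos_left hcon hkkz
      have h2 : (jj : ℤ) * q0 ≤ kk * q0 := mul_le_mul_of_nonneg_right hjkz hq0
      omega
    have ld2 : dt v w' ≤ p0 := by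
      by_contra hcon
      rw [not_le] at hcon
      have h1 : (kk : ℤ) * p0 < kk * dt v w' := mul_lt_mul_of_pos_left hcon hkkz
      have h2 : (jj : ℤ) * p0 ≤ kk * p0 := mul_le_mul_of_nonneg_right hjkz hp0
      omega
    have hDz : d ≤ (D : ℤ) + 1 := by exact_mod_cast hD
    obtain ⟨F1, hF1, ⟨hfan1, hin1⟩, hC1⟩ := ih w v hw hv pd1 (by omega)
    obtain ⟨F2, hF2, ⟨hfan2, hin2⟩, hC2⟩ := ih v w' hv hw' pd2 (by omega)
    -- rays of the two families
    have cross1 : ∀ c ∈ F1, ∀ u, InC v w' u → NoIn c.1 c.2 u := by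
      rintro c hc u hu ⟨h1, h2⟩
      have h3 : 0 ≤ dt c.2 v := (hin1 c hc).2.2.1
      have h4 := dt_trans hv.pos h3 hu.1
      rw [dt_swap] at h2
      omega
    have cross2 : ∀ c ∈ F2, ∀ u, InC w v u → NoIn c.1 c.2 u := by
      rintro c hc u hu ⟨h1, h2⟩
      have h3 : 0 ≤ dt v c.1 := (hin2 c hc).1.1
      have h4 := dt_trans hv.pos hu.2.1 h3
      rw [dt_swap] at h1
      omega
    refine ⟨F1 ∪ F2, fun c hc => ?_, ⟨⟨?_, ?_, ?_⟩, ?_⟩, fun x y hx hy => ?_⟩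
    · rcases Finset.mem_union.1 hc with h | h
      · exact hF1 c h
      · exact hF2 c h
    · intro c hc
      rcases Finset.mem_union.1 hc with h | h
      · exact hfan1.pos c h
      · exact hfan2.pos c h
    · intro c hc c' hc'
      rcases Finset.mem_union.1 hc with h | h <;> rcases Finset.mem_union.1 hc' with h' | h'
      · exact hfan1.fan₁ c h c' h'
      · exact cross1 c h _ (hin2 c' h').1
      · exact cross2 c h _ (hin1 c' h').1
      · exact hfan2.fan₁ c h c' h'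
    · intro c hc c' hc'
      rcases Finset.mem_union.1 hc with h | h <;> rcases Finset.mem_union.1 hc' with h' | h'
      · exact hfan1.fan₂ c h c' h'
      · exact cross1 c h _ (hin2 c' h').2
      · exact cross2 c h _ (hin1 c' h').2
      · exact hfan2.fan₂ c h c' h'
    · intro c hc
      rcases Finset.mem_union.1 hc with h | h
      · obtain ⟨⟨a1, a2, a3⟩, ⟨b1, b2, b3⟩⟩ := hin1 c h
        exact ⟨⟨a1, dt_trans hv.pos a2 pd2.le, a3⟩, ⟨b1, dt_trans hv.pos b2 pd2.le, b3⟩⟩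
      · obtain ⟨⟨a1, a2, a3⟩, ⟨b1, b2, b3⟩⟩ := hin2 c h
        exact ⟨⟨dt_trans hv.pos pd1.le a1, a2, a3⟩, ⟨dt_trans hv.pos pd1.le b1, b2, b3⟩⟩
    -- real coefficients
    have hdR : (0 : ℝ) < (d : ℝ) := by exact_mod_cast hd
    have hkR : (0 : ℝ) < (kk : ℝ) := by exact_mod_cast hkk
    have hjR : (0 : ℝ) < (jj : ℝ) := by exact_mod_cast hjj
    have hpR : (0 : ℝ) < (p0 : ℝ) := by exact_mod_cast hp0p
    have hqR : (0 : ℝ) < (q0 : ℝ) := by exact_mod_cast hq0p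
    set α : ℝ := jj * p0 / (d * kk) with hα
    set β : ℝ := jj * q0 / (d * kk) with hβ
    have hα0 : 0 < α := by positivity
    have hβ0 : 0 < β := by positivity
    have z1 : (d : ℝ) * kk * v.1 = jj * (p0 * w.1 + q0 * w'.1) := by
      have h1 : d * (kk * v.1) = jj * (p0 * w.1 + q0 * w'.1) := by
        rw [hv1', ← hu1]; ring
      have h2 : (d : ℝ) * (kk * v.1) = jj * (p0 * w.1 + q0 * w'.1) := by exact_mod_cast h1
      rw [← h2]; ring
    have z2 : (d : ℝ) * kk * v.2 = jj * (p0 * w.2 + q0 * w'.2) := by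
      have h1 : d * (kk * v.2) = jj * (p0 * w.2 + q0 * w'.2) := by
        rw [hv2', ← hu2]; ring
      have h2 : (d : ℝ) * (kk * v.2) = jj * (p0 * w.2 + q0 * w'.2) := by exact_mod_cast h1
      rw [← h2]; ring
    have r1 : (v.1 : ℝ) = α * w.1 + β * w'.1 := by
      rw [hα, hβ]
      field_simp
      linear_combination z1
    have r2 : (v.2 : ℝ) = α * w.2 + β * w'.2 := by
      rw [hα, hβ]
      field_simp
      linear_combination z2
    rcases le_total (y * α) (x * β) with hle | hle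
    · obtain ⟨c, hc, l, l', hl, hl', e1, e2⟩ := hC1 (x - y * α / β) (y / β)
        (by rw [sub_nonneg, div_le_iff₀ hβ0]; exact hle) (by positivity)
      refine ⟨c, Finset.mem_union_left _ hc, l, l', hl, hl', ?_, ?_⟩
      · rw [← e1, r1]; field_simp; ring
      · rw [← e2, r2]; field_simp; ring
    · obtain ⟨c, hc, l, l', hl, hl', e1, e2⟩ := hC2 (x / α) (y - x * β / α)
        (by positivity) (by rw [sub_nonneg, div_le_iff₀ hα0]; exact hle)
      refine ⟨c, Finset.mem_union_right _ hc, l, l', hl, hl', ?_, ?_⟩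
      · rw [← e1, r1]; field_simp; ring
      · rw [← e2, r2]; field_simp; ring

/-- MODULE Latt, with the fan property. -/
theorem exists_fan (L : AddSubgroup (ℤ × ℤ)) (hL : L.FiniteIndex) :
    ∃ F : Finset ((ℕ × ℕ) × (ℕ × ℕ)), (∀ c ∈ F, IsBas L c.1 c.2) ∧ IsFan F ∧ Covers F := by
  classical
  set N := L.index with hN
  have hN0 : 0 < N := Nat.pos_of_ne_zero hL.index_ne_zero
  have hmem : ∀ n : ℤ × ℤ, N • n ∈ L := fun n => L.nsmul_index_mem n
  have h1 : cst (N, 0) ∈ L := by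
    have := hmem (1, 0)
    have e : cst (N, 0) = N • ((1 : ℤ), (0 : ℤ)) := by ext <;> simp [cst]
    rw [e]; exact this
  have h2 : cst (0, N) ∈ L := by
    have := hmem (0, 1)
    have e : cst (0, N) = N • ((0 : ℤ), (1 : ℤ)) := by ext <;> simp [cst]
    rw [e]; exact this
  obtain ⟨v, hv, j, k, hj, hjk, e1, e2⟩ := exists_prim (L := L) (u := (N, 0)) h1 (by simpa using hN0)
  obtain ⟨v', hv', j', k', hj', hjk', e1', e2'⟩ := exists_prim (L := L) (u := (0, N)) h2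
    (by simpa using hN0)
  simp only [mul_zero] at e1 e2 e1' e2'
  have v2 : v.2 = 0 := by
    rcases Nat.mul_eq_zero.1 e2 with h | h
    · omega
    · exact h
  have v1' : v'.1 = 0 := by
    rcases Nat.mul_eq_zero.1 e1' with h | h
    · omega
    · exact h
  have v1 : 0 < v.1 := by have := hv.pos; omega
  have v2' : 0 < v'.2 := by have := hv'.pos; omega
  have hdt : 0 < dt v v' := by
    unfold dt
    rw [v2, v1']
    have a1 : (0 : ℤ) < v.1 := by exact_mod_cast v1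
    have a2 : (0 : ℤ) < v'.2 := by exact_mod_cast v2'
    simpa using mul_pos a1 a2
  obtain ⟨F, hF, ⟨hfan, -⟩, hC⟩ := cover_cone (L := L) (dt v v').toNat v v' hv hv' hdt
    (by rw [Int.toNat_of_nonneg hdt.le])
  refine ⟨F, hF, hfan, fun A B hA hB => ?_⟩
  have a1 : (0 : ℝ) < v.1 := by exact_mod_cast v1
  have a2 : (0 : ℝ) < v'.2 := by exact_mod_cast v2'
  obtain ⟨c, hc, l, l', hl, hl', q1, q2⟩ := hC (A / v.1) (B / v'.2) (by positivity) (by positivity)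
  refine ⟨c, hc, l, l', hl, hl', ?_, ?_⟩
  · rw [← q1, v1']; field_simp; simp
  · rw [← q2, v2]; field_simp; simp

end Pool.Agent.MQ3

end
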