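import Pool.Agent.H94.G6.M04
import Pool.Agent.H94.G6.M12
import Pool.Agent.H94.G6.M14
import Pool.Agent.H94.G6.M15

/-! The parts of this file: H17.Weierstrass, H17.GlobalLift, H17EF.PNDefs_1, H36.BP.ExtE, H36.BPL.Defs, H5.BD.AExt, H62.EF.MaxI. -/

section

/-!
# Weierstrass' theorem: entire functions with prescribed zeros
-/

open Topology Filter

namespace Pool.Agent.H17

open EntFun

/-- The Taylor polynomial of the logarithm, as an entire function. -/
lemma differentiable_logTaylor (n : ℕ) : Differentiable ℂ (Complex.logTaylor n) := by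
  have h : Complex.logTaylor n =
      fun z : ℂ => ∑ j ∈ Finset.range n, (-1 : ℂ) ^ (j + 1) * z ^ j / (j : ℂ) := rfl
  rw [h]
  fun_prop

/-- `1 - z / s`. -/
noncomputable def linFac (s : ℂ) : EntFun := ⟨fun z => 1 - z / s, by
  change Differentiable ℂ fun z : ℂ => 1 - z / s
  fun_prop⟩

/-- The exponential factor. -/
noncomputable def expFac (m : ℕ) (s : ℂ) : EntFun :=
  ⟨fun z => Complex.exp (-Complex.logTaylor (m + 1) (-(z / s))), by
    change Differentiable ℂ fun z : ℂ => Complex.exp (-Complex.logTaylor (m + 1) (-(z / s)))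
    have h := differentiable_logTaylor (m + 1)
    fun_prop⟩

lemma linFac_apply (s z : ℂ) : ((linFac s : EntFun) : ℂ → ℂ) z = 1 - z / s := rfl

lemma expFac_apply (m : ℕ) (s z : ℂ) : ((expFac m s : EntFun) : ℂ → ℂ) z =
    Complex.exp (-Complex.logTaylor (m + 1) (-(z / s))) := rfl

lemma order_coord_of_ne {s z : ℂ} (h : s ≠ z) :
    analyticOrderAt ((coord s : EntFun) : ℂ → ℂ) z = 0 := by
  rw [order_eq_zero_iff, coord_apply]
  exact sub_ne_zero.mpr h.symm

lemma linFac_eq {s : ℂ} (hs : s ≠ 0) : linFac s = algebraMap ℂ EntFun (-s⁻¹) * coord s := by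
  ext z
  have h1 : ((algebraMap ℂ EntFun (-s⁻¹) * coord s : EntFun) : ℂ → ℂ) z = -s⁻¹ * (z - s) := rfl
  rw [h1, linFac_apply]
  field_simp
  ring

lemma order_algebraMap {c : ℂ} (hc : c ≠ 0) (z : ℂ) :
    analyticOrderAt ((algebraMap ℂ EntFun c : EntFun) : ℂ → ℂ) z = 0 := by
  rw [order_eq_zero_iff, coe_algebraMap]
  exact hc

lemma order_linFac {s : ℂ} (hs : s ≠ 0) (z : ℂ) :
    analyticOrderAt ((linFac s : EntFun) : ℂ → ℂ) z = if s = z then 1 else 0 := by
  rw [linFac_eq hs, order_mul, order_algebraMap (by simpa using hs), zero_add]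
  split_ifs with h
  · rw [h, order_coord]
  · exact order_coord_of_ne h

lemma order_expFac (m : ℕ) (s z : ℂ) :
    analyticOrderAt ((expFac m s : EntFun) : ℂ → ℂ) z = 0 := by
  rw [order_eq_zero_iff, expFac_apply]
  exact Complex.exp_ne_zero _

/-- The elementary estimate. -/
lemma norm_log_sub_logTaylor_le_half {u : ℂ} (hu : ‖u‖ ≤ 1 / 2) (m : ℕ) :
    ‖Complex.log (1 + u) - Complex.logTaylor (m + 1) u‖ ≤ (1 / 2) ^ m := by
  refine (Complex.norm_log_sub_logTaylor_le m (by linarith)).trans ?_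
  have h0 := norm_nonneg u
  have h1 : ‖u‖ ^ (m + 1) ≤ (1 / 2) ^ (m + 1) := by gcongr
  have h2 : (1 - ‖u‖)⁻¹ ≤ 2 := by
    rw [inv_le_comm₀ (by linarith) (by norm_num)]
    linarith
  have h3 : 0 ≤ (1 - ‖u‖)⁻¹ := by
    rw [inv_nonneg]
    linarith
  calc ‖u‖ ^ (m + 1) * (1 - ‖u‖)⁻¹ / (m + 1) ≤ (1 / 2) ^ (m + 1) * 2 / 1 := by
        gcongr
        · have : (0 : ℝ) ≤ m := by positivity
          linarith
    _ = (1 / 2) ^ m := by rw [pow_succ]; ring

section

variable (D : ℂ → ℕ) (hD : ∀ R : ℝ, {z ∈ Metric.closedBall (0 : ℂ) R | D z ≠ 0}.Finite)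

open scoped Classical in
/-- The zeros with `k ≤ |s| < k + 1`. -/
noncomputable def shell (k : ℕ) : Finset ℂ :=
  (hD (k + 1)).toFinset.filter fun s => (k : ℝ) ≤ ‖s‖ ∧ ‖s‖ < k + 1

lemma mem_shell {k : ℕ} {s : ℂ} :
    s ∈ shell D hD k ↔ D s ≠ 0 ∧ (k : ℝ) ≤ ‖s‖ ∧ ‖s‖ < k + 1 := by
  unfold shell
  rw [Finset.mem_filter, Set.Finite.mem_toFinset]
  constructor
  · rintro ⟨h1, h2⟩
    exact ⟨h1.2, h2⟩
  · rintro ⟨h1, h2⟩
    exact ⟨⟨by rw [mem_closedBall_zero_iff]; exact h2.2.le, h1⟩, h2⟩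

/-- The number of zeros in a shell. -/
noncomputable def shellCard (k : ℕ) : ℕ := ∑ s ∈ shell D hD k, D s

/-- The partial product over a shell. -/
noncomputable def shellProd (k : ℕ) : EntFun :=
  if k = 0 then ∏ s ∈ shell D hD k, coord s ^ D s
  else ∏ s ∈ shell D hD k, (linFac s * expFac (k + shellCard D hD k) s) ^ D s

/-- The logarithm of the partial product over a shell. -/
noncomputable def shellLog (k : ℕ) (z : ℂ) : ℂ :=
  ∑ s ∈ shell D hD k, (D s : ℂ) * (Complex.log (1 + -(z / s)) -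
    Complex.logTaylor (k + shellCard D hD k + 1) (-(z / s)))

lemma shell_ne_zero {k : ℕ} (hk : k ≠ 0) {s : ℂ} (hs : s ∈ shell D hD k) : s ≠ 0 := by
  rintro rfl
  have h := ((mem_shell D hD).mp hs).2.1
  rw [norm_zero] at h
  have : (k : ℝ) ≤ 0 := h
  exact hk (by exact_mod_cast le_antisymm (by exact_mod_cast this) (Nat.zero_le k))

lemma norm_div_le_half {k : ℕ} (hk : k ≠ 0) {s : ℂ} (hs : s ∈ shell D hD k) {z : ℂ}
    (hz : ‖z‖ < k / 2) : ‖-(z / s)‖ ≤ 1 / 2 := by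
  have h := ((mem_shell D hD).mp hs).2.1
  have hkpos : (0 : ℝ) < k := by positivity
  rw [norm_neg, norm_div, div_le_iff₀ (hkpos.trans_le h)]
  linarith

lemma exp_shellLog {k : ℕ} (hk : k ≠ 0) {z : ℂ} (hz : ‖z‖ < k / 2) :
    Complex.exp (shellLog D hD k z) = ((shellProd D hD k : EntFun) : ℂ → ℂ) z := by
  unfold shellLog shellProd
  rw [if_neg hk, Complex.exp_sum]
  have h1 : ((∏ s ∈ shell D hD k, (linFac s * expFac (k + shellCard D hD k) s) ^ D s : EntFun) :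
      ℂ → ℂ) z = ev z (∏ s ∈ shell D hD k, (linFac s * expFac (k + shellCard D hD k) s) ^ D s) := rfl
  rw [h1, map_prod]
  refine Finset.prod_congr rfl fun s hs => ?_
  rw [map_pow, map_mul, ev_apply, ev_apply, linFac_apply, expFac_apply, Complex.exp_nat_mul,
    Complex.exp_sub, Complex.exp_log, Complex.exp_neg]
  · rfl
  · have h2 := norm_div_le_half D hD hk hs hz
    intro h3
    have h4 : -(z / s) = -1 := by linear_combination h3
    rw [h4] at h2
    norm_num at h2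

lemma norm_shellLog_le {k : ℕ} (hk : k ≠ 0) {z : ℂ} (hz : ‖z‖ < k / 2) :
    ‖shellLog D hD k z‖ ≤ (1 / 2) ^ k := by
  unfold shellLog
  refine (norm_sum_le _ _).trans ?_
  have h1 : ∀ s ∈ shell D hD k, ‖(D s : ℂ) * (Complex.log (1 + -(z / s)) -
      Complex.logTaylor (k + shellCard D hD k + 1) (-(z / s)))‖ ≤
      D s * (1 / 2) ^ (k + shellCard D hD k) := by
    intro s hs
    rw [norm_mul, Complex.norm_natCast]
    gcongr
    exact norm_log_sub_logTaylor_le_half (norm_div_le_half D hD hk hs hz) _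
  refine (Finset.sum_le_sum h1).trans ?_
  rw [← Finset.sum_mul]
  have h2 : (∑ s ∈ shell D hD k, (D s : ℝ)) = (shellCard D hD k : ℝ) := by
    unfold shellCard
    push_cast
    rfl
  rw [h2, pow_add]
  have h3 : (shellCard D hD k : ℝ) ≤ 2 ^ shellCard D hD k := by
    exact_mod_cast Nat.lt_two_pow_self.le
  have h4 : (shellCard D hD k : ℝ) * (1 / 2) ^ shellCard D hD k ≤ 1 := by
    rw [one_div, inv_pow, ← div_eq_mul_inv, div_le_one (by positivity)]
    exact h3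
  calc (shellCard D hD k : ℝ) * ((1 / 2) ^ k * (1 / 2) ^ shellCard D hD k)
      = ((shellCard D hD k : ℝ) * (1 / 2) ^ shellCard D hD k) * (1 / 2) ^ k := by ring
    _ ≤ 1 * (1 / 2) ^ k := by gcongr
    _ = _ := one_mul _

lemma differentiableOn_shellLog {k : ℕ} (hk : k ≠ 0) :
    DifferentiableOn ℂ (shellLog D hD k) (Metric.ball 0 (k / 2)) := by
  intro z hz
  rw [mem_ball_zero_iff] at hz
  apply DifferentiableAt.differentiableWithinAt
  unfold shellLog
  refine DifferentiableAt.fun_sum fun s hs => ?_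
  refine DifferentiableAt.const_mul ?_ _
  have h1 : DifferentiableAt ℂ (fun z : ℂ => 1 + -(z / s)) z := by fun_prop
  have h2 : DifferentiableAt ℂ (fun z : ℂ => -(z / s)) z := by fun_prop
  refine DifferentiableAt.sub ?_ ?_
  · refine h1.clog ?_
    apply Complex.mem_slitPlane_of_norm_lt_one
    have := norm_div_le_half D hD hk hs hz
    linarith
  · exact (differentiable_logTaylor _ _).comp z h2

/-- The partial products. -/
noncomputable def partProd (K : ℕ) : EntFun := ∏ k ∈ Finset.range K, shellProd D hD k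

/-- The remainder. -/
noncomputable def remLog (K : ℕ) (z : ℂ) : ℂ := ∑' k, shellLog D hD (K + k) z

lemma remLog_bound {K : ℕ} (hK : K ≠ 0) (k : ℕ) {z : ℂ} (hz : z ∈ Metric.ball (0 : ℂ) (K / 2)) :
    ‖shellLog D hD (K + k) z‖ ≤ (1 / 2) ^ k := by
  rw [mem_ball_zero_iff] at hz
  refine (norm_shellLog_le D hD (by omega) (hz.trans_le ?_)).trans ?_
  · push_cast
    have : (0 : ℝ) ≤ k := by positivity
    linarith
  · exact pow_le_pow_of_le_one (by norm_num) (by norm_num) (by omega)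

lemma summable_half : Summable fun k : ℕ => (1 / 2 : ℝ) ^ k :=
  summable_geometric_of_lt_one (by norm_num) (by norm_num)

lemma differentiableOn_remLog {K : ℕ} (hK : K ≠ 0) :
    DifferentiableOn ℂ (remLog D hD K) (Metric.ball 0 (K / 2)) := by
  refine Complex.differentiableOn_tsum_of_summable_norm summable_half (fun k => ?_)
    Metric.isOpen_ball (fun k z hz => remLog_bound D hD hK k hz)
  refine (differentiableOn_shellLog D hD (k := K + k) (by omega)).mono ?_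
  apply Metric.ball_subset_ball
  push_cast
  have : (0 : ℝ) ≤ k := by positivity
  linarith

lemma tendsto_partProd {K : ℕ} (hK : K ≠ 0) {z : ℂ} (hz : z ∈ Metric.ball (0 : ℂ) (K / 2)) :
    Tendsto (fun m => ((partProd D hD m : EntFun) : ℂ → ℂ) z) atTop
      (𝓝 (((partProd D hD K : EntFun) : ℂ → ℂ) z * Complex.exp (remLog D hD K z))) := by
  have hsum : Summable fun k => shellLog D hD (K + k) z :=
    Summable.of_norm_bounded summable_half fun k => remLog_bound D hD hK k hz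
  have h1 := hsum.hasSum.tendsto_sum_nat
  have h2 : Tendsto (fun m => ((partProd D hD K : EntFun) : ℂ → ℂ) z *
      Complex.exp (∑ k ∈ Finset.range m, shellLog D hD (K + k) z)) atTop
      (𝓝 (((partProd D hD K : EntFun) : ℂ → ℂ) z * Complex.exp (remLog D hD K z))) :=
    (h1.cexp).const_mul _
  have h3 : ∀ m, ((partProd D hD (m + K) : EntFun) : ℂ → ℂ) z =
      ((partProd D hD K : EntFun) : ℂ → ℂ) z *
      Complex.exp (∑ k ∈ Finset.range m, shellLog D hD (K + k) z) := by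
    intro m
    rw [mem_ball_zero_iff] at hz
    have h4 : partProd D hD (m + K) = partProd D hD K *
        ∏ k ∈ Finset.range m, shellProd D hD (K + k) := by
      unfold partProd
      rw [add_comm m K, Finset.prod_range_add]
    rw [h4, Complex.exp_sum]
    have h5 : ((partProd D hD K * ∏ k ∈ Finset.range m, shellProd D hD (K + k) : EntFun) :
        ℂ → ℂ) z = ((partProd D hD K : EntFun) : ℂ → ℂ) z *
        ev z (∏ k ∈ Finset.range m, shellProd D hD (K + k)) := rfl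
    rw [h5, map_prod]
    congr 1
    refine Finset.prod_congr rfl fun k _ => ?_
    rw [exp_shellLog D hD (by omega)]
    · rfl
    · refine hz.trans_le ?_
      push_cast
      have : (0 : ℝ) ≤ k := by positivity
      linarith
  rw [← tendsto_add_atTop_iff_nat K]
  exact h2.congr fun m => (h3 m).symm

include hD in
/-- **Weierstrass' theorem.** -/
theorem exists_entire_with_orders : ∃ w : EntFun, ∀ z, analyticOrderAt (w : ℂ → ℂ) z = D z := by
  classical
  set Kz : ℂ → ℕ := fun z => ⌈2 * ‖z‖⌉₊ + 1 with hKz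
  have hKz0 : ∀ z, Kz z ≠ 0 := fun z => by simp [hKz]
  have hKzball : ∀ z, z ∈ Metric.ball (0 : ℂ) (Kz z / 2) := by
    intro z
    rw [mem_ball_zero_iff, hKz]
    push_cast
    have := Nat.le_ceil (2 * ‖z‖)
    linarith
  set w : ℂ → ℂ := fun z => ((partProd D hD (Kz z) : EntFun) : ℂ → ℂ) z *
    Complex.exp (remLog D hD (Kz z) z) with hw
  have hweq : ∀ (K : ℕ), K ≠ 0 → ∀ z ∈ Metric.ball (0 : ℂ) (K / 2),
      w z = ((partProd D hD K : EntFun) : ℂ → ℂ) z * Complex.exp (remLog D hD K z) := by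
    intro K hK z hz
    exact tendsto_nhds_unique (tendsto_partProd D hD (hKz0 z) (hKzball z))
      (tendsto_partProd D hD hK hz)
  have hlocal : ∀ z, w =ᶠ[𝓝 z] fun y => ((partProd D hD (Kz z) : EntFun) : ℂ → ℂ) y *
      Complex.exp (remLog D hD (Kz z) y) := by
    intro z
    filter_upwards [Metric.isOpen_ball.mem_nhds (hKzball z)] with y hy
    exact hweq (Kz z) (hKz0 z) y hy
  have hremAn : ∀ z, AnalyticAt ℂ (remLog D hD (Kz z)) z := fun z =>
    (differentiableOn_remLog D hD (hKz0 z)).analyticAt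
      (Metric.isOpen_ball.mem_nhds (hKzball z))
  have hexpAn : ∀ z, AnalyticAt ℂ (fun y => Complex.exp (remLog D hD (Kz z) y)) z := fun z =>
    (hremAn z).cexp
  have hwdiff : Differentiable ℂ w := by
    intro z
    have h1 := (((partProd D hD (Kz z)).analyticAt z).mul (hexpAn z)).differentiableAt
    exact (hlocal z).differentiableAt_iff.mpr h1
  refine ⟨⟨w, hwdiff⟩, fun z => ?_⟩
  change analyticOrderAt w z = D z
  rw [analyticOrderAt_congr (hlocal z)]
  have h1 : analyticOrderAt (fun y => ((partProd D hD (Kz z) : EntFun) : ℂ → ℂ) y *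
      Complex.exp (remLog D hD (Kz z) y)) z =
      analyticOrderAt ((partProd D hD (Kz z) : EntFun) : ℂ → ℂ) z +
        analyticOrderAt (fun y => Complex.exp (remLog D hD (Kz z) y)) z :=
    analyticOrderAt_mul ((partProd D hD (Kz z)).analyticAt z) (hexpAn z)
  have h2 : analyticOrderAt (fun y => Complex.exp (remLog D hD (Kz z) y)) z = 0 := by
    rw [(hexpAn z).analyticOrderAt_eq_zero]
    exact Complex.exp_ne_zero _
  rw [h1, h2, add_zero]
  have h3 : ∀ k, analyticOrderAt ((shellProd D hD k : EntFun) : ℂ → ℂ) z =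
      if z ∈ shell D hD k then (D z : ℕ∞) else 0 := by
    intro k
    unfold shellProd
    split_ifs with hk hz hz
    · rw [order_prod, Finset.sum_eq_single z]
      · rw [order_pow, order_coord, mul_one]
      · intro s _ hs
        rw [order_pow, order_coord_of_ne hs, mul_zero]
      · intro h
        exact absurd hz h
    · rw [order_prod, Finset.sum_eq_zero]
      intro s hs
      rw [order_pow, order_coord_of_ne, mul_zero]
      rintro rfl
      exact hz hs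
    · rw [order_prod, Finset.sum_eq_single z]
      · rw [order_pow, order_mul, order_expFac, order_linFac (shell_ne_zero D hD hk hz),
          if_pos rfl, add_zero, mul_one]
      · intro s hs' hs
        rw [order_pow, order_mul, order_expFac, order_linFac (shell_ne_zero D hD hk hs'),
          if_neg hs, add_zero, mul_zero]
      · intro h
        exact absurd hz h
    · rw [order_prod, Finset.sum_eq_zero]
      intro s hs
      rw [order_pow, order_mul, order_expFac, order_linFac (shell_ne_zero D hD hk hs),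
        if_neg, add_zero, mul_zero]
      rintro rfl
      exact hz hs
  unfold partProd
  rw [order_prod, Finset.sum_congr rfl fun k _ => h3 k]
  by_cases hDz : D z = 0
  · rw [hDz, Finset.sum_eq_zero]
    · rfl
    · intro k _
      rw [if_neg]
      intro h
      exact ((mem_shell D hD).mp h).1 hDz
  · rw [Finset.sum_eq_single ⌊‖z‖⌋₊]
    · rw [if_pos]
      exact (mem_shell D hD).mpr ⟨hDz, Nat.floor_le (norm_nonneg z), Nat.lt_floor_add_one _⟩
    · intro k _ hk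
      rw [if_neg]
      intro h
      obtain ⟨-, h1, h2⟩ := (mem_shell D hD).mp h
      apply hk
      exact ((Nat.floor_eq_iff (norm_nonneg z)).mpr ⟨h1, h2⟩).symm
    · intro h
      exfalso
      apply h
      rw [Finset.mem_range]
      have h5 : ⌊‖z‖⌋₊ ≤ ⌈2 * ‖z‖⌉₊ := by
        refine (Nat.floor_le_ceil _).trans (Nat.ceil_mono ?_)
        have := norm_nonneg z
        linarith
      simp only [hKz]
      omega

end

end Pool.Agent.H17

end

section

/-!
# Global lifts of entire curves in projective space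
-/

open Topology Filter

namespace Pool.Agent.H17

open EntFun

/-- Two vectors representing the same point are proportional. -/
lemma mk_eq_mk_cross {N : ℕ} {v w : Fin (N + 1) → ℂ} {hv : v ≠ 0} {hw : w ≠ 0}
    (h : Projectivization.mk ℂ v hv = Projectivization.mk ℂ w hw) :
    ∃ c : ℂ, c ≠ 0 ∧ ∀ j, v j = c * w j := by
  obtain ⟨a, ha⟩ := (Projectivization.mk_eq_mk_iff ℂ v w hv hw).mp h
  refine ⟨(a : ℂ), a.ne_zero, fun j => ?_⟩
  rw [← ha]
  rfl

/-- If `f` is analytic and `g` is analytic of the same finite order, then `f / g` is analytic and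
does not vanish. -/
lemma exists_unit_quotient {f g : ℂ → ℂ} {z₀ : ℂ} (hf : AnalyticAt ℂ f z₀) (hg : AnalyticAt ℂ g z₀)
    {n : ℕ} (hfn : analyticOrderAt f z₀ = n) (hgn : analyticOrderAt g z₀ = n) :
    ∃ q : ℂ → ℂ, AnalyticAt ℂ q z₀ ∧ q z₀ ≠ 0 ∧ ∀ᶠ z in 𝓝 z₀, f z = q z * g z := by
  obtain ⟨u, hu, hu0, hfu⟩ := hf.analyticOrderAt_eq_natCast.mp hfn
  obtain ⟨v, hv, hv0, hgv⟩ := hg.analyticOrderAt_eq_natCast.mp hgn
  refine ⟨fun z => u z / v z, hu.div hv hv0, div_ne_zero hu0 hv0, ?_⟩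
  filter_upwards [hfu, hgv, hv.continuousAt.eventually_ne hv0] with z h1 h2 h3
  rw [h1, h2, smul_eq_mul, smul_eq_mul]
  field_simp

/-- **Global lifts.** Every holomorphic map `ℂ → ℙ^N` is given by entire functions without common
zeros. -/
theorem exists_global_lift {N : ℕ} {f : ℂ → PN N} (hf : HolomorphicInto f Set.univ) :
    ∃ x : Fin (N + 1) → EntFun, ∀ z, ∃ h : (fun j => (x j : ℂ → ℂ) z) ≠ 0,
      f z = Projectivization.mk ℂ _ h := by
  classical
  choose φ hφa hφe using fun z₀ => hf z₀ (Set.mem_univ _)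
  have hφj : ∀ z₀ j, AnalyticAt ℂ (fun z => φ z₀ z j) z₀ := fun z₀ j =>
    (analyticAt_pi_iff.mp (hφa z₀)) j
  -- comparison of lifts
  have hcmp : ∀ z₀, ∀ᶠ z in 𝓝 z₀, ∃ c : ℂ, c ≠ 0 ∧ ∀ j, φ z₀ z j = c * φ z z j := by
    intro z₀
    filter_upwards [hφe z₀] with z hz
    obtain ⟨h1, h2⟩ := hz
    obtain ⟨h3, h4⟩ := (hφe z).self_of_nhds
    exact mk_eq_mk_cross (h2.symm.trans h4)
  have hφ0 : ∀ z₀, φ z₀ z₀ ≠ 0 := fun z₀ => (hφe z₀).self_of_nhds.1
  obtain ⟨j₀, hj₀⟩ : ∃ j₀, φ 0 0 j₀ ≠ 0 := by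
    by_contra h
    push Not at h
    exact hφ0 0 (funext h)
  -- the coordinate `j₀` does not vanish identically near any point
  set A : Set ℂ := {z₀ | ∀ᶠ z in 𝓝 z₀, φ z₀ z j₀ = 0} with hA
  have hAopen : IsOpen A := by
    rw [isOpen_iff_mem_nhds]
    intro z₀ hz₀
    have h1 : ∀ᶠ z in 𝓝 z₀, φ z z j₀ = 0 := by
      filter_upwards [hz₀, hcmp z₀] with z h1 h2
      obtain ⟨c, hc, h3⟩ := h2
      have := h3 j₀
      rw [h1] at this
      exact (mul_eq_zero.mp this.symm).resolve_left hc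
    filter_upwards [h1.eventually_nhds] with z₁ h2
    filter_upwards [h2, hcmp z₁] with z h3 h4
    obtain ⟨c, hc, h5⟩ := h4
    rw [h5, h3, mul_zero]
  have hAclosed : IsClosed A := by
    rw [← isOpen_compl_iff, isOpen_iff_mem_nhds]
    intro z₀ hz₀
    have h1 : ∀ᶠ z in 𝓝[≠] z₀, φ z₀ z j₀ ≠ 0 := by
      rcases (hφj z₀ j₀).eventually_eq_zero_or_eventually_ne_zero with h | h
      · exact absurd h hz₀
      · exact h
    have h2 : ∀ᶠ z in 𝓝 z₀, z ≠ z₀ → z ∈ Aᶜ := by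
      have h3 := eventually_nhdsWithin_iff.mp h1
      filter_upwards [h3, hcmp z₀] with z h4 h5 hne
      obtain ⟨c, hc, h6⟩ := h5
      intro h7
      have h7' : ∀ᶠ y in 𝓝 z, φ z y j₀ = 0 := h7
      have h8 : φ z z j₀ = 0 := h7'.self_of_nhds
      apply h4 hne
      rw [h6, h8, mul_zero]
    filter_upwards [h2] with z h3
    by_cases hz : z = z₀
    · rw [hz]; exact hz₀
    · exact h3 hz
  have hAempty : A = ∅ := by
    rcases isClopen_iff.mp ⟨hAclosed, hAopen⟩ with h | h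
    · exact h
    · exfalso
      have h0 : (0 : ℂ) ∈ A := by rw [h]; trivial
      have h0' : ∀ᶠ y in 𝓝 (0 : ℂ), φ 0 y j₀ = 0 := h0
      exact hj₀ h0'.self_of_nhds
  have hne : ∀ z₀, ∀ᶠ z in 𝓝[≠] z₀, φ z₀ z j₀ ≠ 0 := by
    intro z₀
    rcases (hφj z₀ j₀).eventually_eq_zero_or_eventually_ne_zero with h | h
    · have : z₀ ∈ A := h
      rw [hAempty] at this
      exact absurd this (Set.notMem_empty _)
    · exact h
  have hfin : ∀ z₀, analyticOrderAt (fun z => φ z₀ z j₀) z₀ ≠ ⊤ := by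
    intro z₀ h
    rw [analyticOrderAt_eq_top] at h
    have : z₀ ∈ A := h
    rw [hAempty] at this
    exact absurd this (Set.notMem_empty _)
  set D : ℂ → ℕ := fun z => analyticOrderNatAt (fun y => φ z y j₀) z with hD
  have hDord : ∀ z, analyticOrderAt (fun y => φ z y j₀) z = D z := fun z =>
    (Nat.cast_analyticOrderNatAt (hfin z)).symm
  have hDfin : ∀ R : ℝ, {z ∈ Metric.closedBall (0 : ℂ) R | D z ≠ 0}.Finite := by
    intro R
    by_contra hinf
    obtain ⟨y, -, hy⟩ := Set.Infinite.exists_accPt_of_subset_isCompact hinf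
      (isCompact_closedBall (0 : ℂ) R) (fun z hz => hz.1)
    rw [accPt_iff_frequently_nhdsNE] at hy
    obtain ⟨z, hz1, hz2, hz3⟩ := (hy.and_eventually ((hne y).and
      ((hcmp y).filter_mono nhdsWithin_le_nhds))).exists
    obtain ⟨c, hc, h4⟩ := hz3
    apply hz1.2
    have h5 : φ z z j₀ ≠ 0 := by
      intro h
      apply hz2
      rw [h4, h, mul_zero]
    have h6 := hDord z
    rw [(hφj z j₀).analyticOrderAt_eq_zero.mpr h5] at h6
    exact_mod_cast h6.symm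
  obtain ⟨w, hw⟩ := exists_entire_with_orders D hDfin
  choose q hqa hq0 hqe using fun z₀ => exists_unit_quotient (w.analyticAt z₀) (hφj z₀ j₀) (hw z₀)
    (hDord z₀)
  set X : Fin (N + 1) → ℂ → ℂ := fun j z => q z z * φ z z j with hX
  have hXloc : ∀ z₀ j, X j =ᶠ[𝓝 z₀] fun z => q z₀ z * φ z₀ z j := by
    intro z₀ j
    have h1 := eventually_nhdsWithin_iff.mp (hne z₀)
    filter_upwards [h1, hcmp z₀, hqe z₀] with z h2 h3 h4
    by_cases hz : z = z₀
    · rw [hz]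
    · obtain ⟨c, hc, h5⟩ := h3
      have h6 := h2 hz
      have h7 : (w : ℂ → ℂ) z = q z z * φ z z j₀ := (hqe z).self_of_nhds
      have h8 : φ z z j₀ ≠ 0 := by
        intro h
        apply h6
        rw [h5, h, mul_zero]
      have h9 : q z₀ z * c = q z z := by
        apply mul_right_cancel₀ h8
        rw [← h7, h4, h5]
        ring
      simp only [hX]
      rw [h5, ← h9]
      ring
  have hXdiff : ∀ j, Differentiable ℂ (X j) := by
    intro j z₀
    exact (hXloc z₀ j).differentiableAt_iff.mpr ((hqa z₀).mul (hφj z₀ j)).differentiableAt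
  refine ⟨fun j => ⟨X j, hXdiff j⟩, fun z => ?_⟩
  obtain ⟨h1, h2⟩ := (hφe z).self_of_nhds
  have h3 : (fun j => X j z) = q z z • φ z z := by
    funext j
    rfl
  have h4 : (fun j => X j z) ≠ 0 := by
    rw [h3]
    exact smul_ne_zero (hq0 z) h1
  refine ⟨h4, ?_⟩
  rw [h2, Projectivization.mk_eq_mk_iff]
  refine ⟨(Units.mk0 (q z z) (hq0 z))⁻¹, ?_⟩
  change (Units.mk0 (q z z) (hq0 z))⁻¹ • (fun j => X j z) = φ z z
  rw [h3, Units.smul_def, smul_smul]
  simp [hq0 z]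

end Pool.Agent.H17

end

section

/-!
# EF PNDefs: holomorphic maps from a projective surface to a complex torus
-/

set_option autoImplicit false

open Topology Filter MvPolynomial

noncomputable section

namespace Pool.Agent.H17EF

open Pool.Agent.H17 (PN VanishesAt HolomorphicInto)

variable {N : ℕ}

/-- The entire curves `f` in `X` with `u (f z) = z` modulo `Λ`. -/
def sections (X : Set (PN N)) (Λ : AddSubgroup ℂ) (u : PN N → ℂ ⧸ Λ) : Set (ℂ → PN N) :=
  {f | HolomorphicInto f Set.univ ∧ (∀ z, f z ∈ X) ∧ ∀ z, u (f z) = (z : ℂ ⧸ Λ)}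

end Pool.Agent.H17EF

end
end

section

/-!
# BP ExtE: the limit at the puncture

For `r = |z₁|/(n+2)` take `θ_n`; `F_n = θ_n F` is bounded by `A` for `|z₁|/(n+2) ≤ |z| ≤ r₁`, `|F_n z₁| ≥ c`.  Along `hyperfilter ℕ` the pointwise limits `H z` exist for `0 < |z| < r₁` (bounded in a finite dimensional space), and by
`montel_ultrafilter` on small discs (`TendstoLocallyUniformlyOn` implies pointwise convergence, so the local limits are `H`) `H` is holomorphic on `0 < |z| < r₁`, `|H z| ≤ A`, `|H z₁| ≥ c`, and `H z` is a multiple of `F z` (closed line).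
`H` is bounded, so it extends to a holomorphic `P` on `|z| < r₁` (`Complex.differentiableOn_update_limUnder_of_bddAbove`, for vector valued functions), `P z₁ ≠ 0`, so `P` does not vanish identically near `0` (identity theorem on the disc),
`P z = z^k Q z`, `Q 0 ≠ 0` (`AnalyticAt.exists_eventuallyEq_pow_smul_nonzero_iff`), `Q z ≠ 0` near `0` and `Q z` is a multiple of `F z`.
-/

set_option autoImplicit false

namespace Pool.Agent.H36.BP

open Filter Topology Metric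

variable {N : ℕ}

theorem puncture_limit {F : ℂ → EN N} (hF : DifferentiableOn ℂ F (ball 0 1 \ {0})) (hF0 : ∀ z ∈ ball (0 : ℂ) 1 \ {0}, F z ≠ 0) {r₁ c A : ℝ} {z₁ : ℂ}
    (hc : 0 < c) (hz1 : 0 < ‖z₁‖) (hz2 : ‖z₁‖ < r₁) (hr1 : r₁ < 1)
    (h : ∀ r : ℝ, 0 < r → r < ‖z₁‖ → ∃ θ : ℂ → ℂ, DifferentiableOn ℂ θ {0}ᶜ ∧
      (∀ z : ℂ, r ≤ ‖z‖ → ‖z‖ ≤ r₁ → ‖θ z • F z‖ ≤ A) ∧ c ≤ ‖θ z₁ • F z₁‖) :
    ∃ Q : ℂ → EN N, AnalyticAt ℂ Q 0 ∧ Q 0 ≠ 0 ∧ ∀ᶠ z in 𝓝[≠] (0 : ℂ), ∃ k : ℂ, k ≠ 0 ∧ Q z = k • F z := by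
  classical
  have hr : ∀ n : ℕ, 0 < ‖z₁‖ / ((n : ℝ) + 2) ∧ ‖z₁‖ / ((n : ℝ) + 2) < ‖z₁‖ := by
    intro n
    have hn : (0 : ℝ) ≤ n := Nat.cast_nonneg n
    refine ⟨by positivity, ?_⟩
    rw [div_lt_iff₀ (by positivity)]
    nlinarith
  choose θ hθd hθb hθc using fun n : ℕ => h (‖z₁‖ / ((n : ℝ) + 2)) (hr n).1 (hr n).2
  set 𝒰 : Ultrafilter ℕ := hyperfilter ℕ with h𝒰
  have h𝒰l : (𝒰 : Filter ℕ) ≤ atTop := by
    rw [← Nat.cofinite_eq_atTop]
    exact hyperfilter_le_cofinite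
  have hsmall : ∀ δ : ℝ, 0 < δ → ∀ᶠ n : ℕ in (𝒰 : Filter ℕ), ‖z₁‖ / ((n : ℝ) + 2) ≤ δ := by
    intro δ hδ
    apply h𝒰l
    have ht : Tendsto (fun n : ℕ => ‖z₁‖ / ((n : ℝ) + 2)) atTop (𝓝 0) :=
      Tendsto.div_atTop tendsto_const_nhds (tendsto_natCast_atTop_atTop.atTop_add tendsto_const_nhds)
    exact (ht.eventually_lt_const hδ).mono fun _ h => h.le
  set Fn : ℕ → ℂ → EN N := fun n z => θ n z • F z with hFn
  -- local discs
  have hloc : ∀ z : ℂ, z ≠ 0 → ‖z‖ < r₁ → ∃ (s : ℝ) (g : ℂ → EN N), 0 < s ∧ ball z s ⊆ ball 0 r₁ \ {0} ∧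
      DifferentiableOn ℂ g (ball z s) ∧ ∀ w ∈ ball z s, Tendsto (fun n => Fn n w) (𝒰 : Filter ℕ) (𝓝 (g w)) := by
    intro z hz hzr
    have hzp : 0 < ‖z‖ := norm_pos_iff.mpr hz
    set s : ℝ := min (‖z‖ / 2) (r₁ - ‖z‖) with hs
    have hs0 : 0 < s := lt_min (by positivity) (by linarith)
    have hw1 : ∀ w ∈ ball z s, ‖z‖ / 2 ≤ ‖w‖ ∧ ‖w‖ < r₁ := by
      intro w hw
      have h1 : ‖w - z‖ < s := by rwa [mem_ball, dist_eq_norm] at hw
      have h2 : s ≤ ‖z‖ / 2 := min_le_left _ _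
      have h3 : s ≤ r₁ - ‖z‖ := min_le_right _ _
      have h4 : ‖z‖ ≤ ‖w‖ + ‖w - z‖ := by
        have := norm_sub_le w (w - z)
        simpa using this
      have h5 : ‖w‖ ≤ ‖z‖ + ‖w - z‖ := by
        have := norm_add_le z (w - z)
        simpa using this
      constructor <;> linarith
    have hsub : ball z s ⊆ ball 0 r₁ \ {0} := by
      intro w hw
      have := hw1 w hw
      refine ⟨by simpa using this.2, ?_⟩
      rintro rfl
      have h1 := this.1
      rw [norm_zero] at h1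
      linarith
    have hsub1 : ball z s ⊆ ball 0 1 \ {0} := fun w hw =>
      ⟨ball_subset_ball hr1.le (hsub hw).1, (hsub hw).2⟩
    obtain ⟨g, hg1, hg2⟩ := Pool.Agent.H17.montel_ultrafilter (E := EN N) 𝒰 (F := Fn) (a := z) (r := s) (B := A)
      (by
        refine Eventually.of_forall fun n => ?_
        refine DifferentiableOn.smul ((hθd n).mono ?_) (hF.mono hsub1)
        intro w hw
        exact (hsub hw).2)
      (by
        filter_upwards [hsmall (‖z‖ / 2) (by positivity)] with n hn w hw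
        exact hθb n w (hn.trans (hw1 w hw).1) (hw1 w hw).2.le)
    exact ⟨s, g, hs0, hsub, hg1, fun w hw => hg2.tendsto_at hw⟩
  -- the limit
  have hlim : ∀ z : ℂ, ∃ l : EN N, z ≠ 0 → ‖z‖ < r₁ → Tendsto (fun n => Fn n z) (𝒰 : Filter ℕ) (𝓝 l) := by
    intro z
    by_cases hz : z ≠ 0 ∧ ‖z‖ < r₁
    · obtain ⟨s, g, hs, -, -, hg⟩ := hloc z hz.1 hz.2
      exact ⟨g z, fun _ _ => hg z (mem_ball_self hs)⟩
    · exact ⟨0, fun h1 h2 => absurd ⟨h1, h2⟩ hz⟩
  choose H hH using hlim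
  have hHd : DifferentiableOn ℂ H (ball 0 r₁ \ {0}) := by
    intro z hz
    have hz0 : z ≠ 0 := hz.2
    have hzr : ‖z‖ < r₁ := by simpa using hz.1
    obtain ⟨s, g, hs, hsub, hgd, hg⟩ := hloc z hz0 hzr
    have heq : H =ᶠ[𝓝 z] g := by
      filter_upwards [ball_mem_nhds z hs] with w hw
      have hw' := hsub hw
      exact tendsto_nhds_unique (hH w hw'.2 (by simpa using hw'.1)) (hg w hw)
    have : DifferentiableAt ℂ g z := (hgd z (mem_ball_self hs)).differentiableAt (ball_mem_nhds z hs)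
    exact (this.congr_of_eventuallyEq heq).differentiableWithinAt
  have hHb : ∀ z ∈ ball (0 : ℂ) r₁ \ {0}, ‖H z‖ ≤ A := by
    intro z hz
    have hz0 : z ≠ 0 := hz.2
    have hzr : ‖z‖ < r₁ := by simpa using hz.1
    refine le_of_tendsto (hH z hz0 hzr).norm ?_
    filter_upwards [hsmall ‖z‖ (norm_pos_iff.mpr hz0)] with n hn
    exact hθb n z hn hzr.le
  have hz10 : z₁ ≠ 0 := norm_pos_iff.mp hz1
  have hHc : c ≤ ‖H z₁‖ := ge_of_tendsto (hH z₁ hz10 hz2).norm (Eventually.of_forall fun n => hθc n)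
  have hHs : ∀ z ∈ ball (0 : ℂ) r₁ \ {0}, ∃ a : ℂ, H z = a • F z := by
    intro z hz
    have hz0 : z ≠ 0 := hz.2
    have hzr : ‖z‖ < r₁ := by simpa using hz.1
    have hcl : IsClosed ((Submodule.span ℂ {F z} : Submodule ℂ (EN N)) : Set (EN N)) :=
      Submodule.closed_of_finiteDimensional _
    have hmem : H z ∈ (Submodule.span ℂ {F z} : Submodule ℂ (EN N)) :=
      hcl.mem_of_tendsto (hH z hz0 hzr) (Eventually.of_forall fun n =>
        Submodule.smul_mem _ _ (Submodule.mem_span_singleton_self _))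
    obtain ⟨a, ha⟩ := Submodule.mem_span_singleton.mp hmem
    exact ⟨a, ha.symm⟩
  have hr0 : 0 < r₁ := hz1.trans hz2
  -- the extension
  set P : ℂ → EN N := Function.update H 0 (limUnder (𝓝[≠] 0) H) with hP
  have hPd : DifferentiableOn ℂ P (ball 0 r₁) := by
    refine Complex.differentiableOn_update_limUnder_of_bddAbove (ball_mem_nhds 0 hr0) hHd ?_
    refine ⟨A, ?_⟩
    rintro _ ⟨z, hz, rfl⟩
    exact hHb z hz
  have hPH : ∀ z : ℂ, z ≠ 0 → P z = H z := fun z hz => Function.update_of_ne hz _ _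
  have hPa : AnalyticOnNhd ℂ P (ball 0 r₁) := hPd.analyticOnNhd isOpen_ball
  have hP0 : ¬ ∀ᶠ z in 𝓝 (0 : ℂ), P z = 0 := by
    intro hev
    have h1 := hPa.eqOn_zero_of_preconnected_of_eventuallyEq_zero (convex_ball (0 : ℂ) r₁).isPreconnected
      (mem_ball_self hr0) hev
    have h2 : P z₁ = 0 := h1 (by simpa using hz2)
    rw [hPH z₁ hz10] at h2
    rw [h2, norm_zero] at hHc
    linarith
  obtain ⟨k, Q, hQa, hQ0, hQ⟩ := (hPa 0 (mem_ball_self hr0)).exists_eventuallyEq_pow_smul_nonzero_iff.mpr hP0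
  refine ⟨Q, hQa, hQ0, ?_⟩
  have hQne : ∀ᶠ z in 𝓝 (0 : ℂ), Q z ≠ 0 := hQa.continuousAt.eventually_ne hQ0
  rw [eventually_nhdsWithin_iff]
  filter_upwards [hQ, hQne, ball_mem_nhds (0 : ℂ) hr0] with z hz1 hz2 hz3 hz4
  have hz0 : z ≠ 0 := hz4
  obtain ⟨a, ha⟩ := hHs z ⟨hz3, hz4⟩
  rw [hPH z hz0, sub_zero] at hz1
  have hzk : z ^ k ≠ 0 := pow_ne_zero _ hz0
  have he : Q z = ((z ^ k)⁻¹ * a) • F z := by
    rw [mul_smul, ← ha, hz1, smul_smul, inv_mul_cancel₀ hzk, one_smul]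
  refine ⟨(z ^ k)⁻¹ * a, ?_, he⟩
  intro h0
  rw [h0, zero_smul] at he
  exact hz2 he

end Pool.Agent.H36.BP

end

section

/-!
# BPL: open surfaces in projective spaces, in terms of their cones

`X` is the cone of a smooth closed surface, `K` the cone over the complement of a curve `D` in it.
-/

set_option autoImplicit false

namespace Pool.Agent.H36.BPL

open Filter Topology Metric
open Pool.Agent.H17BP (IsChart IsForm NoZeros)

variable {V : Type} [NormedAddCommGroup V] [NormedSpace ℂ V]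

/-- `K` is the complement in `X` of a curve which is locally given by one equation. -/
structure OpenPart (X K : Set V) : Prop where
  sub : K ⊆ X
  smul : ∀ x ∈ K, ∀ c : ℂ, c ≠ 0 → c • x ∈ K
  eqn : ∀ x ∈ X, ∃ h : V → ℂ, AnalyticAt ℂ h x ∧ ∀ᶠ y in 𝓝 x, y ∈ X → (y ∉ K ↔ h y = 0)

/-- `g` is holomorphic near `p` and vanishes on the preimage of `X ∖ K` under `φ` -/
def VanOff (K : Set V) (φ : ℂ × ℂ → V) (p : ℂ × ℂ) (g : ℂ × ℂ → ℂ) : Prop :=
  AnalyticAt ℂ g p ∧ ∀ᶠ y in 𝓝 p, φ y ∉ K → g y = 0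

/-- The form `Ω` on `K` has poles of order at most `e` along `X ∖ K`: the pull back of `Ω` to `ℂ²` becomes holomorphic when it is multiplied with `e`
functions which vanish on the preimage of `X ∖ K`. -/
def PoleLE (X K : Set V) (e : ℕ) (Ω : V → V → V → ℂ) : Prop :=
  ∀ (φ : ℂ × ℂ → V) (p : ℂ × ℂ), AnalyticAt ℂ φ p → (∀ᶠ y in 𝓝 p, φ y ∈ X) → ∀ G : List (ℂ × ℂ → ℂ), G.length = e →
    (∀ g ∈ G, VanOff K φ p g) → ∃ b : ℂ × ℂ → ℂ, AnalyticAt ℂ b p ∧
      ∀ᶠ y in 𝓝 p, φ y ∈ K → b y = (G.map fun g => g y).prod * Ω (φ y) (fderiv ℂ φ y (1, 0)) (fderiv ℂ φ y (0, 1))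

/-- The curve `T ⊇ X ∖ K` is smooth or has a node at `x`, and `X ∖ K` is a union of branches of `T`. -/
def PairNodalAt (X K T : Set V) (x : V) : Prop :=
  ∃ σ τ, IsChart X σ τ ∧ σ 0 = x ∧ ∃ (nd : Bool) (d : Bool × Bool),
    (∀ᶠ p in 𝓝 (0 : ℂ × ℂ), (σ p ∈ T ↔ p.1 = 0 ∨ (nd = true ∧ p.2 = 0))) ∧
    (∀ᶠ p in 𝓝 (0 : ℂ × ℂ), (σ p ∉ K ↔ (d.1 = true ∧ p.1 = 0) ∨ (d.2 = true ∧ p.2 = 0))) ∧ (d.2 = true → nd = true)

theorem OpenPart.rel {X K : Set V} (h : OpenPart X K) : ∀ x ∈ K, ∀ᶠ y in 𝓝 x, y ∈ X → y ∈ K := by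
  intro x hx
  obtain ⟨g, hg, he⟩ := h.eqn x (h.sub hx)
  have h1 : g x ≠ 0 := fun h0 => ((he.self_of_nhds (h.sub hx)).mpr h0) hx
  filter_upwards [he, hg.continuousAt.eventually_ne h1] with y hy hy2 hyX
  by_contra h2
  exact hy2 ((hy hyX).mp h2)

theorem PoleLE.pow {X K : Set V} {e : ℕ} {Ω : V → V → V → ℂ} (h : PoleLE X K e Ω) {φ : ℂ × ℂ → V} {p : ℂ × ℂ} (hφ : AnalyticAt ℂ φ p)
    (hX : ∀ᶠ y in 𝓝 p, φ y ∈ X) {g : ℂ × ℂ → ℂ} (hg : AnalyticAt ℂ g p) (hg0 : ∀ᶠ y in 𝓝 p, φ y ∉ K → g y = 0) :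
    ∃ b : ℂ × ℂ → ℂ, AnalyticAt ℂ b p ∧
      ∀ᶠ y in 𝓝 p, φ y ∈ K → b y = g y ^ e * Ω (φ y) (fderiv ℂ φ y (1, 0)) (fderiv ℂ φ y (0, 1)) := by
  obtain ⟨b, hb, hbe⟩ := h φ p hφ hX (List.replicate e g) (List.length_replicate ..) (fun g' hg' => by
    rw [List.eq_of_mem_replicate hg']
    exact ⟨hg, hg0⟩)
  refine ⟨b, hb, ?_⟩
  filter_upwards [hbe] with y hy hyK
  rw [hy hyK, List.map_replicate, List.prod_replicate]

/-- the product of holomorphic functions is holomorphic -/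
theorem analyticAt_listProd {p : ℂ × ℂ} {G : List (ℂ × ℂ → ℂ)} (h : ∀ g ∈ G, AnalyticAt ℂ g p) :
    AnalyticAt ℂ (fun y => (G.map fun g => g y).prod) p := by
  induction G with
  | nil => simpa using analyticAt_const
  | cons g G ih =>
    have h1 : (fun y => ((g :: G).map fun g => g y).prod) = fun y => g y * (G.map fun g => g y).prod := by
      funext y
      simp
    rw [h1]
    exact (h g (by simp)).mul (ih fun g' hg' => h g' (by simp [hg']))

theorem PoleLE.mono {X K : Set V} {e e' : ℕ} (he : e ≤ e') {Ω : V → V → V → ℂ} (h : PoleLE X K e Ω) : PoleLE X K e' Ω := by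
  intro φ p hφ hX G hG hGg
  obtain ⟨b, hb, hbe⟩ := h φ p hφ hX (G.take e) (by rw [List.length_take]; omega) (fun g hg => hGg g (List.mem_of_mem_take hg))
  refine ⟨fun y => ((G.drop e).map fun g => g y).prod * b y, (analyticAt_listProd fun g hg => (hGg g (List.mem_of_mem_drop hg)).1).mul hb, ?_⟩
  filter_upwards [hbe] with y hy hyK
  rw [hy hyK]
  have h1 : (G.map fun g => g y).prod = ((G.take e).map fun g => g y).prod * ((G.drop e).map fun g => g y).prod := by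
    rw [← List.prod_append, ← List.map_append, List.take_append_drop]
  rw [h1]
  ring

/-- powers of a form with logarithmic poles, multiplied by a homogeneous function which vanishes on `X ∖ K` -/
theorem PoleLE.pow_mul {X K : Set V} {M k : ℕ} (hM : 1 ≤ M) (hk : 1 ≤ k) {Ω : V → V → V → ℂ} (h : PoleLE X K M Ω) {H : V → ℂ}
    (hH : ∀ x, AnalyticAt ℂ H x) (hH0 : ∀ x ∈ X, x ∉ K → H x = 0) : PoleLE X K (M * k - 1) (fun x v w => H x * Ω x v w ^ k) := by
  -- the `k`-th power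
  have key : ∀ k : ℕ, ∀ (φ : ℂ × ℂ → V) (p : ℂ × ℂ), AnalyticAt ℂ φ p → (∀ᶠ y in 𝓝 p, φ y ∈ X) → ∀ G : List (ℂ × ℂ → ℂ), G.length = M * k →
      (∀ g ∈ G, VanOff K φ p g) → ∃ b : ℂ × ℂ → ℂ, AnalyticAt ℂ b p ∧
      ∀ᶠ y in 𝓝 p, φ y ∈ K → b y = (G.map fun g => g y).prod * Ω (φ y) (fderiv ℂ φ y (1, 0)) (fderiv ℂ φ y (0, 1)) ^ k := by
    intro k
    induction k with
    | zero =>
      intro φ p _ _ G hG _
      obtain rfl := List.eq_nil_of_length_eq_zero (by simpa using hG)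
      exact ⟨fun _ => 1, analyticAt_const, Filter.Eventually.of_forall fun y _ => by simp⟩
    | succ k ih =>
      intro φ p hφ hX G hG hGg
      obtain ⟨b, hb, hbe⟩ := h φ p hφ hX (G.take M) (by rw [List.length_take, hG]; simp [Nat.mul_succ]) (fun g hg => hGg g (List.mem_of_mem_take hg))
      obtain ⟨b', hb', hbe'⟩ := ih φ p hφ hX (G.drop M) (by rw [List.length_drop, hG]; simp [Nat.mul_succ]) (fun g hg => hGg g (List.mem_of_mem_drop hg))
      refine ⟨fun y => b y * b' y, hb.mul hb', ?_⟩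
      filter_upwards [hbe, hbe'] with y hy hy' hyK
      rw [hy hyK, hy' hyK]
      have h1 : (G.map fun g => g y).prod = ((G.take M).map fun g => g y).prod * ((G.drop M).map fun g => g y).prod := by
        rw [← List.prod_append, ← List.map_append, List.take_append_drop]
      rw [h1]
      ring
  intro φ p hφ hX G hG hGg
  have hHφ : AnalyticAt ℂ (fun y => H (φ y)) p := (hH _).comp hφ
  have hMk : 1 ≤ M * k := Nat.mul_pos hM hk
  obtain ⟨b, hb, hbe⟩ := key k φ p hφ hX ((fun y => H (φ y)) :: G) (by rw [List.length_cons, hG]; omega) (fun g hg => by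
    rcases List.mem_cons.mp hg with rfl | hg
    · exact ⟨hHφ, hX.mono fun y hy hyK => hH0 _ hy hyK⟩
    · exact hGg g hg)
  refine ⟨b, hb, ?_⟩
  filter_upwards [hbe] with y hy hyK
  rw [hy hyK, List.map_cons, List.prod_cons]
  ring

theorem isForm_pow_mul {K : Set V} {m j d k : ℕ} (hd : d ≤ j * k) {Ω : V → V → V → ℂ} (h : IsForm K m j Ω) {H : V → ℂ}
    (hH : ∀ x, AnalyticAt ℂ H x) (hHs : ∀ (c : ℂ) (x : V), H (c • x) = c ^ d * H x) (hsK : ∀ x ∈ K, ∀ c : ℂ, c ≠ 0 → c • x ∈ K) :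
    IsForm K (m * k) (j * k - d) (fun x v w => H x * Ω x v w ^ k) where
  add_smul x hx v hv w hw a b := by simp only [h.add_smul x hx v hv w hw a b]
  det x hx v hv w hw a b c d := by
    simp only [h.det x hx v hv w hw a b c d]
    ring
  scale x hx v hv w hw c hc := by
    have h1 := h.scale x hx v hv w hw c hc
    simp only [hHs]
    rw [← h1]
    obtain ⟨e, he⟩ := Nat.exists_eq_add_of_le hd
    have h2 : j * k - d = e := by omega
    rw [h2]
    have h3 : (c ^ j) ^ k = c ^ d * c ^ e := by rw [← pow_mul, he, pow_add]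
    calc c ^ e * (c ^ d * H x * Ω (c • x) (c • v) (c • w) ^ k) = H x * ((c ^ d * c ^ e) * Ω (c • x) (c • v) (c • w) ^ k) := by ring
      _ = H x * ((c ^ j) ^ k * Ω (c • x) (c • v) (c • w) ^ k) := by rw [h3]
      _ = _ := by rw [← mul_pow]
  analytic φ p hφ hφK := ((hH _).comp hφ).mul ((h.analytic φ p hφ hφK).pow k)

end Pool.Agent.H36.BPL

end

section

/-!
# BD AExt: extension of a following function

`Fol.extend`.  Suppose that there are no such `z₁, z'`.  For `z ∈ ball 0 (R + r / 8)` with `R ≤ ‖z‖` let `z' = ((R - r / 8) / ‖z‖) • z`: `‖z'‖ = R - r / 8`,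
`‖z - z'‖ = ‖z‖ - (R - r / 8) ≤ r / 4`, so there is `w ∈ closedBall (φ z') r₂` with `dist (ev g z) (ev f w) ≤ ε`; let `φ' z` be such a `w`; let `φ' z = φ z` for `‖z‖ < R`.
`close` and `zero` are clear (`R > 0`).  `cont`: for `z` with `‖z‖ < R + r / 8` let `p z = z` if `‖z‖ ≤ R - r / 8`, and `p z = ((R - r / 8) / ‖z‖) • z` otherwise;
`‖z - p z‖ ≤ r / 4` and `‖p z‖ ≤ R - r / 8 < R`.  Then `‖φ' z - φ (p z)‖ ≤ r₂ / 20`: it is at most `4 r₂` (by the choice of `w`, resp. by `cont` for `φ` because `r / 4 ≤ r`; it is `0` if `p z = z`), so by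
`emb`, `c ‖φ' z - φ (p z)‖ ≤ dist (ev f (φ' z)) (ev f (φ (p z))) ≤ 2 ε + dist (ev g z) (ev g (p z)) ≤ 2 ε + L r / 4 ≤ c r₂ / 32 + c r₂ / 128`.
Let `‖z - z̃‖ ≤ r`.  `‖p z - p z̃‖ ≤ r + r / 2`; let `m` be the midpoint of `p z`, `p z̃`, in `ball 0 R`; by `cont` twice `‖φ (p z) - φ (p z̃)‖ ≤ r₂ / 2 ≤ 4 r₂`, so by `emb`
`c ‖φ (p z) - φ (p z̃)‖ ≤ 2 ε + 3 L r / 2 ≤ c r₂ / 32 + 3 c r₂ / 64`.  Together `‖φ' z - φ' z̃‖ ≤ 2 * (r₂ / 20) + 5 r₂ / 64 ≤ r₂ / 4`.

`exists_bad`.  If the second alternative does not hold then by induction on `k` there is a following function on the disc of radius `R₀ + k * (r / 8)` (`Fol.extend`).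

`fol_id`: the identity follows if `f` and `g` are close.
-/

set_option autoImplicit false

open Topology Filter Metric

namespace Pool.Agent.H5.BD

variable {Y ι : Type} [MetricSpace Y] {S : Set ι} {ev : ι → ℂ → Y} {Z : Set Y} {ρ : ι → ℂ → ι → ℂ → ℝ} {L c r₂ r₃ κ r ε : ℝ}

/-- the following function `φ` cannot be extended to a larger disc because of the point `z₁` -/
structure Bad (ev : ι → ℂ → Y) (r₂ r ε R : ℝ) (f g : ι) (φ : ℂ → ℂ) (z' z₁ : ℂ) : Prop where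
  fol : Fol ev r₂ r ε R f g φ
  norm : ‖z'‖ = R - r / 8
  dist_le : ‖z₁ - z'‖ ≤ r / 4
  far : ∀ w ∈ closedBall (φ z') r₂, ε < dist (ev g z₁) (ev f w)

/-- the point of the disc of radius `R - r / 8` near `z` -/
private noncomputable def prj (q : ℝ) (z : ℂ) : ℂ := if ‖z‖ ≤ q then z else ((q / ‖z‖ : ℝ) : ℂ) * z

private theorem norm_prj_le {q : ℝ} (hq : 0 ≤ q) (z : ℂ) : ‖prj q z‖ ≤ q := by
  unfold prj
  split_ifs with h
  · exact h
  · have hz : 0 < ‖z‖ := by linarith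
    rw [norm_mul, Complex.norm_real, Real.norm_of_nonneg (by positivity), div_mul_cancel₀ _ hz.ne']

private theorem norm_prj_eq {q : ℝ} (hq : 0 ≤ q) {z : ℂ} (hz : q < ‖z‖) : ‖prj q z‖ = q := by
  unfold prj
  rw [if_neg (not_le.mpr hz)]
  have hz : 0 < ‖z‖ := by linarith
  rw [norm_mul, Complex.norm_real, Real.norm_of_nonneg (by positivity), div_mul_cancel₀ _ hz.ne']

private theorem norm_sub_prj {q t : ℝ} (hq : 0 ≤ q) (ht : 0 ≤ t) {z : ℂ} (hz : ‖z‖ ≤ q + t) : ‖z - prj q z‖ ≤ t := by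
  unfold prj
  split_ifs with h
  · simpa using ht
  · have hz0 : 0 < ‖z‖ := by linarith
    have h1 : z - ((q / ‖z‖ : ℝ) : ℂ) * z = (((‖z‖ - q) / ‖z‖ : ℝ) : ℂ) * z := by
      have : ((‖z‖ - q) / ‖z‖ : ℝ) = 1 - q / ‖z‖ := by field_simp
      rw [this]
      push_cast
      ring
    rw [h1, norm_mul, Complex.norm_real, Real.norm_of_nonneg (div_nonneg (by linarith) hz0.le), div_mul_cancel₀ _ hz0.ne']
    linarith

theorem Fol.extend (h : BFlow S ev Z ρ L c r₂ r₃ κ) (hc : Cst L c r₂ r₃ r ε) {f g : ι} (hf : f ∈ S) (hg : g ∈ S) {R : ℝ} (hR : r ≤ R)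
    {φ : ℂ → ℂ} (hfol : Fol ev r₂ r ε R f g φ) :
    (∃ φ', Fol ev r₂ r ε (R + r / 8) f g φ') ∨ ∃ z' z₁, Bad ev r₂ r ε R f g φ z' z₁ := by
  by_cases hbad : ∃ z' z₁, Bad ev r₂ r ε R f g φ z' z₁
  · exact Or.inr hbad
  refine Or.inl ?_
  have hr := hc.r_pos
  have hr₂ := h.r₂_pos
  have hcp := h.c_pos
  have hL := h.L_pos
  have hq0 : 0 ≤ R - r / 8 := by linarith
  have hpR : ∀ z : ℂ, prj (R - r / 8) z ∈ ball (0 : ℂ) R := by
    intro z
    rw [mem_ball_zero_iff]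
    have := norm_prj_le hq0 z
    linarith
  have hpd : ∀ z : ℂ, ‖z‖ < R + r / 8 → ‖z - prj (R - r / 8) z‖ ≤ r / 4 := by
    intro z hz
    exact norm_sub_prj hq0 (by linarith) (by linarith)
  have hex : ∀ z : ℂ, ∃ w : ℂ, (‖z‖ < R → w = φ z) ∧
      (R ≤ ‖z‖ → ‖z‖ < R + r / 8 → ‖w - φ (prj (R - r / 8) z)‖ ≤ r₂ ∧ dist (ev g z) (ev f w) ≤ ε) := by
    intro z
    by_cases h1 : ‖z‖ < R
    · exact ⟨φ z, fun _ => rfl, fun h2 => absurd h1 (not_lt.mpr h2)⟩
    by_cases h2 : ‖z‖ < R + r / 8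
    · have h3 : ∃ w ∈ closedBall (φ (prj (R - r / 8) z)) r₂, dist (ev g z) (ev f w) ≤ ε := by
        by_contra hcon
        push Not at hcon
        exact hbad ⟨prj (R - r / 8) z, z, hfol, norm_prj_eq hq0 (by linarith), hpd z h2, hcon⟩
      obtain ⟨w, hw, hw'⟩ := h3
      rw [mem_closedBall, dist_eq_norm] at hw
      exact ⟨w, fun h4 => absurd h4 h1, fun _ _ => ⟨hw, hw'⟩⟩
    · exact ⟨0, fun h4 => absurd h4 h1, fun _ h4 => absurd h4 h2⟩
  choose φ' hφ1 hφ2 using hex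
  have hclose : ∀ z ∈ ball (0 : ℂ) (R + r / 8), dist (ev g z) (ev f (φ' z)) ≤ ε := by
    intro z hz
    rw [mem_ball_zero_iff] at hz
    rcases lt_or_ge ‖z‖ R with h1 | h1
    · rw [hφ1 z h1]
      exact hfol.close z (by rw [mem_ball_zero_iff]; exact h1)
    · exact (hφ2 z h1 hz).2
  have hB0 : ∀ z ∈ ball (0 : ℂ) (R + r / 8), ‖φ' z - φ (prj (R - r / 8) z)‖ ≤ 4 * r₂ := by
    intro z hz
    rw [mem_ball_zero_iff] at hz
    rcases lt_or_ge ‖z‖ R with h1 | h1
    · rw [hφ1 z h1]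
      have h2 := hfol.cont z (by rw [mem_ball_zero_iff]; exact h1) _ (hpR z) ((hpd z hz).trans (by linarith))
      linarith
    · have := (hφ2 z h1 hz).1
      linarith
  have hB : ∀ z ∈ ball (0 : ℂ) (R + r / 8), ‖φ' z - φ (prj (R - r / 8) z)‖ ≤ r₂ / 20 := by
    intro z hz
    have h1 := h.emb f hf _ _ (hB0 z hz)
    have h2 := hclose z hz
    rw [mem_ball_zero_iff] at hz
    have h3 := hfol.close _ (hpR z)
    have h4 := h.lip g hg z (prj (R - r / 8) z)
    have h5 : L * ‖z - prj (R - r / 8) z‖ ≤ L * (r / 4) := mul_le_mul_of_nonneg_left (hpd z hz) hL.le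
    have h6 : dist (ev f (φ' z)) (ev f (φ (prj (R - r / 8) z))) ≤
        dist (ev g z) (ev f (φ' z)) + dist (ev g z) (ev g (prj (R - r / 8) z)) + dist (ev g (prj (R - r / 8) z)) (ev f (φ (prj (R - r / 8) z))) := by
      have e1 := dist_triangle (ev f (φ' z)) (ev g z) (ev f (φ (prj (R - r / 8) z)))
      have e2 := dist_triangle (ev g z) (ev g (prj (R - r / 8) z)) (ev f (φ (prj (R - r / 8) z)))
      rw [dist_comm (ev f (φ' z)) (ev g z)] at e1
      linarith
    have h7 : c * ‖φ' z - φ (prj (R - r / 8) z)‖ ≤ c * (r₂ / 20) := by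
      have := hc.hr
      have := hc.hε
      have : 0 < c * r₂ := by positivity
      linarith
    exact le_of_mul_le_mul_left h7 hcp
  refine ⟨φ', hclose, ?_, ?_⟩
  · intro z hz z' hz' hzz
    set p := prj (R - r / 8) z with hp
    set p' := prj (R - r / 8) z' with hp'
    have a1 := hB z hz
    have a2 := hB z' hz'
    rw [← hp] at a1
    rw [← hp'] at a2
    have b1 : ‖z - p‖ ≤ r / 4 := hpd z (by rwa [mem_ball_zero_iff] at hz)
    have b2 : ‖z' - p'‖ ≤ r / 4 := hpd z' (by rwa [mem_ball_zero_iff] at hz')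
    have hpp : ‖p - p'‖ ≤ r + r / 2 := by
      have e : p - p' = (z - z') - (z - p) + (z' - p') := by ring
      have e1 := norm_add_le ((z - z') - (z - p)) (z' - p')
      have e2 := norm_sub_le (z - z') (z - p)
      rw [e]
      linarith
    have hpm : p ∈ ball (0 : ℂ) R := hpR z
    have hpm' : p' ∈ ball (0 : ℂ) R := hpR z'
    have hm : (p + p') / 2 ∈ ball (0 : ℂ) R := by
      rw [mem_ball_zero_iff] at hpm hpm' ⊢
      have e1 := norm_add_le p p'
      rw [norm_div, Complex.norm_ofNat]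
      linarith
    have m1 : ‖p - (p + p') / 2‖ ≤ r := by
      have e : p - (p + p') / 2 = (p - p') / 2 := by ring
      rw [e, norm_div, Complex.norm_ofNat]
      linarith
    have m2 : ‖(p + p') / 2 - p'‖ ≤ r := by
      have e : (p + p') / 2 - p' = (p - p') / 2 := by ring
      rw [e, norm_div, Complex.norm_ofNat]
      linarith
    have c1 := hfol.cont _ hpm _ hm m1
    have c2 := hfol.cont _ hm _ hpm' m2
    have c3 : ‖φ p - φ p'‖ ≤ 4 * r₂ := by
      have := norm_sub_le_norm_sub_add_norm_sub (φ p) (φ ((p + p') / 2)) (φ p')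
      linarith
    have h1 := h.emb f hf _ _ c3
    have h2 := hfol.close _ hpm
    have h3 := hfol.close _ hpm'
    have h4 := h.lip g hg p p'
    have h5 : L * ‖p - p'‖ ≤ L * (r + r / 2) := mul_le_mul_of_nonneg_left hpp hL.le
    have h6 : dist (ev f (φ p)) (ev f (φ p')) ≤ dist (ev g p) (ev f (φ p)) + dist (ev g p) (ev g p') + dist (ev g p') (ev f (φ p')) := by
      have e1 := dist_triangle (ev f (φ p)) (ev g p) (ev f (φ p'))
      have e2 := dist_triangle (ev g p) (ev g p') (ev f (φ p'))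
      rw [dist_comm (ev f (φ p)) (ev g p)] at e1
      linarith
    have h7 : c * ‖φ p - φ p'‖ ≤ c * (5 * r₂ / 64) := by
      have := hc.hr
      have := hc.hε
      have : 0 < c * r₂ := by positivity
      linarith
    have h8 := le_of_mul_le_mul_left h7 hcp
    have e : φ' z - φ' z' = (φ' z - φ p) + (φ p - φ p') - (φ' z' - φ p') := by ring
    have e1 := norm_sub_le ((φ' z - φ p) + (φ p - φ p')) (φ' z' - φ p')
    have e2 := norm_add_le (φ' z - φ p) (φ p - φ p')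
    rw [e]
    linarith
  · rw [hφ1 0 (by rw [norm_zero]; linarith)]
    exact hfol.zero

theorem exists_bad (h : BFlow S ev Z ρ L c r₂ r₃ κ) (hc : Cst L c r₂ r₃ r ε) {f g : ι} (hf : f ∈ S) (hg : g ∈ S) {R₀ : ℝ} (hR : r ≤ R₀)
    (h0 : ∃ φ, Fol ev r₂ r ε R₀ f g φ) :
    (∀ k : ℕ, ∃ (R : ℝ) (φ : ℂ → ℂ), (k : ℝ) ≤ R ∧ Fol ev r₂ r ε R f g φ) ∨
      ∃ (R : ℝ) (φ : ℂ → ℂ) (z' z₁ : ℂ), R₀ ≤ R ∧ Bad ev r₂ r ε R f g φ z' z₁ := by
  by_cases hbad : ∃ (R : ℝ) (φ : ℂ → ℂ) (z' z₁ : ℂ), R₀ ≤ R ∧ Bad ev r₂ r ε R f g φ z' z₁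
  · exact Or.inr hbad
  refine Or.inl ?_
  have hr := hc.r_pos
  have hind : ∀ m : ℕ, ∃ φ : ℂ → ℂ, Fol ev r₂ r ε (R₀ + m * (r / 8)) f g φ := by
    intro m
    induction m with
    | zero => simpa using h0
    | succ m ih =>
      obtain ⟨φ, hφ⟩ := ih
      have hm : (0 : ℝ) ≤ m * (r / 8) := by positivity
      rcases Fol.extend h hc hf hg (by linarith) hφ with ⟨φ', hφ'⟩ | ⟨z', z₁, hb⟩
      · refine ⟨φ', ?_⟩
        have e : R₀ + ((m + 1 : ℕ) : ℝ) * (r / 8) = R₀ + m * (r / 8) + r / 8 := by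
          push_cast
          ring
        rw [e]
        exact hφ'
      · exact absurd ⟨_, φ, z', z₁, by linarith, hb⟩ hbad
  intro k
  obtain ⟨m, hm⟩ := exists_nat_ge ((k : ℝ) / (r / 8))
  obtain ⟨φ, hφ⟩ := hind m
  refine ⟨_, φ, ?_, hφ⟩
  rw [div_le_iff₀ (by positivity)] at hm
  linarith

theorem fol_id (hc : Cst L c r₂ r₃ r ε) {f g : ι} {n : ℝ} (hfg : ∀ z ∈ closedBall (0 : ℂ) n, dist (ev f z) (ev g z) ≤ ε) :
    Fol ev r₂ r ε n f g id := by
  refine ⟨?_, ?_, rfl⟩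
  · intro z hz
    rw [dist_comm]
    exact hfg z (ball_subset_closedBall hz)
  · intro z _ z' _ hzz
    exact hzz.trans hc.r_le

end Pool.Agent.H5.BD

end

section

/-!
# EF MaxI: a maximum principle

`Φ z = h z * ⟨Fh z₀, Fh z⟩ * exp (-2 κ conj (z₀ - c) (z - z₀))` is holomorphic on `ball z₀ r`.  Maximum principle on `closedBall z₀ r₀`
(`Complex.exists_mem_frontier_isMaxOn_norm`): there is `z` with `‖z - z₀‖ = r₀` and `‖Φ z₀‖ ≤ ‖Φ z‖`.  Here `‖Φ z₀‖ = ‖h z₀‖ ‖Fh z₀‖²`, and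
`‖Φ z‖ ≤ ‖h z‖ γ ‖Fh z₀‖ ‖Fh z‖ exp (-2 κ Re (conj (z₀ - c) (z - z₀)))`; multiply by `exp (-κ ‖z₀ - c‖²) / ‖Fh z₀‖` and use
`‖z - c‖² = ‖z₀ - c‖² + 2 Re (conj (z₀ - c) (z - z₀)) + r₀²`.
-/

set_option autoImplicit false

open Topology Filter Metric

namespace Pool.Agent.H62.EF

open Pool.Agent.H36.BP (EN)

variable {N : ℕ}

theorem max_ineq {h : ℂ → ℂ} {Fh : ℂ → EN N} {z₀ : ℂ} {r₀ r : ℝ} (hr₀ : 0 < r₀) (hr : r₀ < r)
    (hh : DifferentiableOn ℂ h (ball z₀ r)) (hFh : DifferentiableOn ℂ Fh (ball z₀ r)) (h0 : Fh z₀ ≠ 0) {γ : ℝ}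
    (hγ : ∀ z ∈ sphere z₀ r₀, ‖inner ℂ (Fh z₀) (Fh z)‖ ≤ γ * (‖Fh z₀‖ * ‖Fh z‖)) (κ : ℝ) (c : ℂ) :
    ∃ z ∈ sphere z₀ r₀, ‖h z₀‖ * ‖Fh z₀‖ * Real.exp (-κ * ‖z₀ - c‖ ^ 2) ≤
      Real.exp (κ * r₀ ^ 2) * γ * (‖h z‖ * ‖Fh z‖ * Real.exp (-κ * ‖z - c‖ ^ 2)) := by
  set a : ℂ := (starRingEnd ℂ) (z₀ - c) with ha
  set Φ : ℂ → ℂ := fun z => h z * inner ℂ (Fh z₀) (Fh z) * Complex.exp (-(2 * (κ : ℂ)) * a * (z - z₀)) with hΦ
  have hsub : closedBall z₀ r₀ ⊆ ball z₀ r := closedBall_subset_ball hr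
  have hd : DifferentiableOn ℂ Φ (closedBall z₀ r₀) := by
    have h1 : DifferentiableOn ℂ h (closedBall z₀ r₀) := hh.mono hsub
    have h2 : DifferentiableOn ℂ (fun z => (innerSL ℂ (Fh z₀)) (Fh z)) (closedBall z₀ r₀) :=
      (innerSL ℂ (Fh z₀)).differentiable.comp_differentiableOn (hFh.mono hsub)
    have h3 : DifferentiableOn ℂ (fun z : ℂ => Complex.exp (-(2 * (κ : ℂ)) * a * (z - z₀))) (closedBall z₀ r₀) := by
      apply Differentiable.differentiableOn
      fun_prop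
    exact (h1.mul h2).mul h3
  have hcl : DiffContOnCl ℂ Φ (ball z₀ r₀) := by
    apply DifferentiableOn.diffContOnCl
    rw [closure_ball z₀ hr₀.ne']
    exact hd
  obtain ⟨z, hz, hmax⟩ := Complex.exists_mem_frontier_isMaxOn_norm isBounded_ball (nonempty_ball.2 hr₀) hcl
  rw [frontier_ball z₀ hr₀.ne'] at hz
  have hzr : ‖z - z₀‖ = r₀ := by rw [← dist_eq_norm]; exact hz
  have hle : ‖Φ z₀‖ ≤ ‖Φ z‖ := by
    have h0m : z₀ ∈ closure (ball z₀ r₀) := subset_closure (mem_ball_self hr₀)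
    exact hmax h0m
  refine ⟨z, hz, ?_⟩
  set R : ℝ := (a * (z - z₀)).re with hR
  have e0 : ‖Φ z₀‖ = ‖h z₀‖ * ‖Fh z₀‖ ^ 2 := by
    simp only [hΦ, sub_self, mul_zero, Complex.exp_zero, mul_one, norm_mul]
    rw [inner_self_eq_norm_sq_to_K]
    simp
  have e1 : ‖Φ z‖ = ‖h z‖ * ‖inner ℂ (Fh z₀) (Fh z)‖ * Real.exp (-(2 * κ) * R) := by
    simp only [hΦ, norm_mul, Complex.norm_exp]
    congr 2
    have : -(2 * (κ : ℂ)) * a * (z - z₀) = ((-(2 * κ) : ℝ) : ℂ) * (a * (z - z₀)) := by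
      push_cast
      ring
    rw [this, Complex.re_ofReal_mul]
  have hq : ‖z - c‖ ^ 2 = ‖z₀ - c‖ ^ 2 + 2 * R + r₀ ^ 2 := by
    rw [← hzr, hR, ha]
    rw [← Complex.normSq_eq_norm_sq, ← Complex.normSq_eq_norm_sq, ← Complex.normSq_eq_norm_sq]
    simp only [Complex.normSq_apply, Complex.sub_re, Complex.sub_im, Complex.mul_re, map_sub, Complex.conj_re,
      Complex.conj_im]
    ring
  have hF : 0 < ‖Fh z₀‖ := norm_pos_iff.2 h0
  have hg := hγ z hz
  have key : ‖h z₀‖ * ‖Fh z₀‖ ≤ ‖h z‖ * (γ * ‖Fh z‖) * Real.exp (-(2 * κ) * R) := by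
    have h1 : ‖h z₀‖ * ‖Fh z₀‖ ^ 2 ≤ ‖h z‖ * (γ * (‖Fh z₀‖ * ‖Fh z‖)) * Real.exp (-(2 * κ) * R) := by
      rw [← e0]
      refine hle.trans ?_
      rw [e1]
      gcongr
    have h2 : (‖h z₀‖ * ‖Fh z₀‖) * ‖Fh z₀‖ ≤ (‖h z‖ * (γ * ‖Fh z‖) * Real.exp (-(2 * κ) * R)) * ‖Fh z₀‖ := by
      calc (‖h z₀‖ * ‖Fh z₀‖) * ‖Fh z₀‖ = ‖h z₀‖ * ‖Fh z₀‖ ^ 2 := by ring
        _ ≤ _ := h1
        _ = _ := by ring
    exact le_of_mul_le_mul_right h2 hF
  have hE : Real.exp (-(2 * κ) * R) * Real.exp (-κ * ‖z₀ - c‖ ^ 2) =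
      Real.exp (κ * r₀ ^ 2) * Real.exp (-κ * ‖z - c‖ ^ 2) := by
    rw [← Real.exp_add, ← Real.exp_add, hq]
    congr 1
    ring
  calc ‖h z₀‖ * ‖Fh z₀‖ * Real.exp (-κ * ‖z₀ - c‖ ^ 2)
      ≤ ‖h z‖ * (γ * ‖Fh z‖) * Real.exp (-(2 * κ) * R) * Real.exp (-κ * ‖z₀ - c‖ ^ 2) :=
        mul_le_mul_of_nonneg_right key (Real.exp_pos _).le
    _ = ‖h z‖ * (γ * ‖Fh z‖) * (Real.exp (-(2 * κ) * R) * Real.exp (-κ * ‖z₀ - c‖ ^ 2)) := by ring
    _ = Real.exp (κ * r₀ ^ 2) * γ * (‖h z‖ * ‖Fh z‖ * Real.exp (-κ * ‖z - c‖ ^ 2)) := by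
        rw [hE]
        ring

end Pool.Agent.H62.EF

end
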