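import Pool.Agent.H94.G6.M03

/-! The parts of this file: MQ.GDefs_1, MQ.FS. -/

section

/-!
Real calculus on the complex plane for the project MQ: gradient, divergence, Laplacian,
integration by parts against compactly supported functions.
-/

namespace Pool.Agent.MQ

open MeasureTheory Complex

lemma ip_self (a : ℂ) : ip a a = ‖a‖ ^ 2 := by
  unfold ip; rw [Complex.sq_norm, Complex.normSq_apply]

lemma ip_eq_inner (a b : ℂ) : ip a b = inner ℝ a b := by
  rw [Complex.inner]; simp [ip]; ring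

lemma abs_ip_le (a b : ℂ) : |ip a b| ≤ ‖a‖ * ‖b‖ := by
  rw [ip_eq_inner]; exact abs_real_inner_le_norm a b

lemma ip_add_left (a b c : ℂ) : ip (a + b) c = ip a c + ip b c := by simp [ip]; ring
lemma ip_neg_left (a b : ℂ) : ip (-a) b = - ip a b := by simp [ip]; ring
lemma ip_smul_left (t : ℝ) (a b : ℂ) : ip ((t : ℂ) * a) b = t * ip a b := by simp [ip]; ring

@[simp] lemma gr_re (u : ℂ → ℝ) (z : ℂ) : (gr u z).re = fderiv ℝ u z 1 := rfl
@[simp] lemma gr_im (u : ℂ → ℝ) (z : ℂ) : (gr u z).im = fderiv ℝ u z Complex.I := rfl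

lemma grL_apply (L : ℂ →L[ℝ] ℝ) : grL L = ⟨L 1, L Complex.I⟩ := rfl

lemma clm_eq_ip (L : ℂ →L[ℝ] ℝ) (v : ℂ) : L v = ip (grL L) v := by
  have h : v = (v.re : ℝ) • (1 : ℂ) + (v.im : ℝ) • Complex.I := by
    apply Complex.ext <;> simp
  conv_lhs => rw [h]
  rw [map_add, map_smul, map_smul, grL_apply]
  simp [ip, mul_comm]

lemma norm_grL (L : ℂ →L[ℝ] ℝ) : ‖grL L‖ = ‖L‖ := by
  apply le_antisymm
  · by_cases h0 : grL L = 0
    · rw [h0]; simp
    · have h := L.le_opNorm (grL L)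
      rw [clm_eq_ip, ip_self, Real.norm_eq_abs, abs_of_nonneg (sq_nonneg _)] at h
      have hp : 0 < ‖grL L‖ := norm_pos_iff.2 h0
      nlinarith
  · apply ContinuousLinearMap.opNorm_le_bound _ (norm_nonneg _)
    intro v
    rw [clm_eq_ip, Real.norm_eq_abs]
    exact abs_ip_le _ _

lemma norm_gr (u : ℂ → ℝ) (z : ℂ) : ‖gr u z‖ = ‖fderiv ℝ u z‖ := norm_grL _

lemma dv_congr {V W : ℂ → ℂ} {z : ℂ} (h : V =ᶠ[nhds z] W) : dv V z = dv W z := by
  unfold dv; rw [h.fderiv_eq]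

lemma lp_congr {u v : ℂ → ℝ} {z : ℂ} (h : u =ᶠ[nhds z] v) : lp u z = lp v z :=
  dv_congr (gr_eventuallyEq h)

/-! ### algebra of gradients -/

lemma gr_add {u v : ℂ → ℝ} {z : ℂ} (hu : DifferentiableAt ℝ u z) (hv : DifferentiableAt ℝ v z) :
    gr (fun w => u w + v w) z = gr u z + gr v z := by
  have h : HasFDerivAt (fun w => u w + v w) (fderiv ℝ u z + fderiv ℝ v z) z :=
    hu.hasFDerivAt.add hv.hasFDerivAt
  rw [h.gr, map_add, ← gr_eq, ← gr_eq]

lemma gr_sub {u v : ℂ → ℝ} {z : ℂ} (hu : DifferentiableAt ℝ u z) (hv : DifferentiableAt ℝ v z) :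
    gr (fun w => u w - v w) z = gr u z - gr v z := by
  have h : HasFDerivAt (fun w => u w - v w) (fderiv ℝ u z - fderiv ℝ v z) z :=
    hu.hasFDerivAt.sub hv.hasFDerivAt
  rw [h.gr, map_sub, ← gr_eq, ← gr_eq]

lemma gr_mul {u v : ℂ → ℝ} {z : ℂ} (hu : DifferentiableAt ℝ u z) (hv : DifferentiableAt ℝ v z) :
    gr (fun w => u w * v w) z = (u z : ℂ) * gr v z + (v z : ℂ) * gr u z := by
  have h : HasFDerivAt (fun w => u w * v w) (u z • fderiv ℝ v z + v z • fderiv ℝ u z) z :=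
    hu.hasFDerivAt.mul hv.hasFDerivAt
  rw [h.gr]
  apply Complex.ext <;> simp [grL_apply]

lemma gr_const_mul {v : ℂ → ℝ} {z : ℂ} (c : ℝ) (hv : DifferentiableAt ℝ v z) :
    gr (fun w => c * v w) z = (c : ℂ) * gr v z := by
  rw [(hv.hasFDerivAt.const_mul c).gr]
  apply Complex.ext <;> simp [grL_apply]

/-- Chain rule for the gradient. -/
lemma gr_comp {u : ℂ → ℝ} {z : ℂ} {K : ℝ → ℝ} {k : ℝ} (hK : HasDerivAt K k (u z))
    (hu : DifferentiableAt ℝ u z) : gr (fun w => K (u w)) z = (k : ℂ) * gr u z := by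
  have h : HasFDerivAt (fun w => K (u w)) (k • fderiv ℝ u z) z :=
    hK.comp_hasFDerivAt z hu.hasFDerivAt
  rw [h.gr]
  apply Complex.ext <;> simp [grL_apply]

/-! ### algebra of divergences -/

lemma dv_add {V W : ℂ → ℂ} {z : ℂ} (hV : DifferentiableAt ℝ V z) (hW : DifferentiableAt ℝ W z) :
    dv (fun w => V w + W w) z = dv V z + dv W z := by
  unfold dv; rw [fderiv_fun_add hV hW]; simp; ring

lemma dv_sub {V W : ℂ → ℂ} {z : ℂ} (hV : DifferentiableAt ℝ V z) (hW : DifferentiableAt ℝ W z) :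
    dv (fun w => V w - W w) z = dv V z - dv W z := by
  unfold dv; rw [fderiv_fun_sub hV hW]; simp; ring

@[simp] lemma dv_const (c : ℂ) (z : ℂ) : dv (fun _ => c) z = 0 := by
  unfold dv; simp

lemma dv_mul {g : ℂ → ℝ} {V : ℂ → ℂ} {z : ℂ} (hg : DifferentiableAt ℝ g z)
    (hV : DifferentiableAt ℝ V z) :
    dv (fun w => (g w : ℂ) * V w) z = g z * dv V z + ip (gr g z) (V z) := by
  have h1 : HasFDerivAt (fun w => ((g w : ℝ) : ℂ)) (Complex.ofRealCLM.comp (fderiv ℝ g z)) z :=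
    Complex.ofRealCLM.hasFDerivAt.comp z hg.hasFDerivAt
  have h2 : HasFDerivAt (fun w => (g w : ℂ) * V w) ((g z : ℂ) • fderiv ℝ V z +
      V z • (Complex.ofRealCLM.comp (fderiv ℝ g z))) z := h1.mul hV.hasFDerivAt
  unfold dv
  rw [h2.fderiv]
  simp [ip]
  ring

lemma dv_const_mul {V : ℂ → ℂ} {z : ℂ} (c : ℝ) (hV : DifferentiableAt ℝ V z) :
    dv (fun w => (c : ℂ) * V w) z = c * dv V z := by
  have h := dv_mul (g := fun _ => c) (differentiableAt_const c) hV
  simpa using h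

end Pool.Agent.MQ

end

section

/-!
The Fubini-Study density: gradient and Laplacian of `log ‖F‖` for a holomorphic map `F` into a
complex inner product space.
-/

namespace Pool.Agent.MQ

open Complex Laplacian Topology Filter

section

variable {V : Type*} [NormedAddCommGroup V] [InnerProductSpace ℂ V]

lemma hasFDerivAt_holoV {F : ℂ → V} {F' : V} {z : ℂ} (hF : HasDerivAt F F' z) :
    HasFDerivAt F ((ContinuousLinearMap.toSpanSingleton ℂ F').restrictScalars ℝ) z :=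
  hF.hasFDerivAt.restrictScalars ℝ

lemma hasFDerivAt_inner_holo {F G : ℂ → V} {F' G' : V} {z : ℂ} (hF : HasDerivAt F F' z)
    (hG : HasDerivAt G G' z) :
    HasFDerivAt (fun w => inner ℂ (F w) (G w)) ((fderivInnerCLM ℂ (F z, G z)).comp
      (((ContinuousLinearMap.toSpanSingleton ℂ F').restrictScalars ℝ).prod
        ((ContinuousLinearMap.toSpanSingleton ℂ G').restrictScalars ℝ))) z :=
  (hasFDerivAt_holoV hF).inner ℂ (hasFDerivAt_holoV hG)

lemma fderiv_inner_holo {F G : ℂ → V} {F' G' : V} {z : ℂ} (hF : HasDerivAt F F' z)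
    (hG : HasDerivAt G G' z) (v : ℂ) :
    fderiv ℝ (fun w => inner ℂ (F w) (G w)) z v =
      v * inner ℂ (F z) G' + (starRingEnd ℂ) v * inner ℂ F' (G z) := by
  rw [(hasFDerivAt_inner_holo hF hG).fderiv]
  simp [fderivInnerCLM_apply, inner_smul_left, inner_smul_right]

/-- The gradient of the square of the norm. -/
theorem gr_sqnorm {F : ℂ → V} {F' : V} {z : ℂ} (hF : HasDerivAt F F' z) :
    gr (fun w => ‖F w‖ ^ 2) z = 2 * (starRingEnd ℂ) (inner ℂ (F z) F') := by
  have e : (fun w => ‖F w‖ ^ 2) = fun w => (inner ℂ (F w) (F w)).re := by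
    funext w
    rw [← inner_self_eq_norm_sq (𝕜 := ℂ)]; rfl
  have h : HasFDerivAt (fun w => (inner ℂ (F w) (F w)).re)
      (Complex.reCLM.comp (fderiv ℝ (fun w => inner ℂ (F w) (F w)) z)) z :=
    Complex.reCLM.hasFDerivAt.comp z
      (hasFDerivAt_inner_holo hF hF).differentiableAt.hasFDerivAt
  rw [e, h.gr, grL_apply]
  simp only [ContinuousLinearMap.coe_comp, Function.comp_apply]
  rw [fderiv_inner_holo hF hF, fderiv_inner_holo hF hF]
  have hs : inner ℂ F' (F z) = (starRingEnd ℂ) (inner ℂ (F z) F') := (inner_conj_symm _ _).symm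
  rw [hs]
  generalize inner ℂ (F z) F' = c
  apply Complex.ext
  · simp; ring
  · simp; ring

theorem contDiffAt_sqnorm {F : ℂ → V} {z : ℂ} [CompleteSpace V] (hF : AnalyticAt ℂ F z)
    {n : WithTop ℕ∞} : ContDiffAt ℝ n (fun w => ‖F w‖ ^ 2) z :=
  ((hF.contDiffAt (n := n)).restrict_scalars ℝ).norm_sq ℂ

/-- The Laplacian of the square of the norm. -/
theorem lp_sqnorm {F : ℂ → V} {z : ℂ} [CompleteSpace V] (hF : AnalyticAt ℂ F z) :
    lp (fun w => ‖F w‖ ^ 2) z = 4 * ‖deriv F z‖ ^ 2 := by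
  have hd : AnalyticAt ℂ (deriv F) z := hF.deriv
  have h1 : HasDerivAt F (deriv F z) z := hF.differentiableAt.hasDerivAt
  have h2 : HasDerivAt (deriv F) (deriv (deriv F) z) z := hd.differentiableAt.hasDerivAt
  have e : gr (fun w => ‖F w‖ ^ 2) =ᶠ[𝓝 z]
      fun w => 2 * (starRingEnd ℂ) (inner ℂ (F w) (deriv F w)) := by
    filter_upwards [hF.eventually_analyticAt] with w hw
    exact gr_sqnorm hw.differentiableAt.hasDerivAt
  have h3 := (hasFDerivAt_inner_holo h1 h2).differentiableAt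
  have h4 : HasFDerivAt (fun w => 2 * (starRingEnd ℂ) (inner ℂ (F w) (deriv F w)))
      ((2 : ℂ) • ((Complex.conjCLE : ℂ →L[ℝ] ℂ).comp
        (fderiv ℝ (fun w => inner ℂ (F w) (deriv F w)) z))) z := by
    have h5 : HasFDerivAt (fun w => (starRingEnd ℂ) (inner ℂ (F w) (deriv F w)))
        ((Complex.conjCLE : ℂ →L[ℝ] ℂ).comp
        (fderiv ℝ (fun w => inner ℂ (F w) (deriv F w)) z)) z :=
      (Complex.conjCLE : ℂ →L[ℝ] ℂ).hasFDerivAt.comp z h3.hasFDerivAt
    exact h5.const_mul 2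
  unfold lp
  rw [dv_congr e]
  unfold dv
  rw [h4.fderiv]
  simp only [FunLike.coe_smul, Pi.smul_apply, ContinuousLinearMap.coe_comp,
    Function.comp_apply, ContinuousLinearEquiv.coe_coe, Complex.conjCLE_apply]
  rw [fderiv_inner_holo h1 h2, fderiv_inner_holo h1 h2]
  have hn : inner ℂ (deriv F z) (deriv F z) = ((‖deriv F z‖ ^ 2 : ℝ) : ℂ) := by
    rw [inner_self_eq_norm_sq_to_K]; simp
  rw [hn]
  generalize ‖deriv F z‖ ^ 2 = t
  generalize inner ℂ (F z) (deriv (deriv F) z) = c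
  simp only [smul_eq_mul, Complex.mul_re, Complex.mul_im, Complex.conj_re, Complex.conj_im,
    Complex.add_re, Complex.add_im, Complex.ofReal_re, Complex.ofReal_im, Complex.one_re,
    Complex.one_im, Complex.I_re, Complex.I_im, map_one]
  norm_num
  ring

end

end Pool.Agent.MQ

end
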