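import Pool.Agent.H94.G6.M18
import Pool.Agent.H94.G6.M19
import Pool.Agent.H94.G6.M20
import Pool.Agent.H94.G6.MQ.Green
import Pool.Agent.H94.G6.MQ3.Cut

/-! The parts of this file: MQ.Bridge, MQ.Shell, MQ3.Cut_1, MQ3.Mono, MQ3.WebR. -/

section

/-!
Bridges between `gr`, `ip`, `dv`, `lp` and Mathlib's Laplacian, `gg` of H30M; holomorphic
vector fields; chain rules.
-/

namespace Pool.Agent.MQ

open MeasureTheory Complex Laplacian

open Pool.Agent.H30M (gg)

/-- The scalar product of two gradients. -/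
theorem gg_eq_ip (u v : ℂ → ℝ) (z : ℂ) : gg u v z = ip (gr u z) (gr v z) := rfl

theorem gg_self (u : ℂ → ℝ) (z : ℂ) : gg u u z = ‖gr u z‖ ^ 2 := by
  rw [gg_eq_ip, ip_self]

/-- `lp` is Mathlib's Laplacian at points of class `C²`. -/
theorem lp_eq_lap {u : ℂ → ℝ} {z : ℂ} (hu : ContDiffAt ℝ 2 u z) : lp u z = Δ u z := by
  rw [Pool.Agent.H30M.lap_eq hu]
  have hd : DifferentiableAt ℝ (gr u) z := differentiableAt_gr hu
  unfold lp dv
  have h1 : HasFDerivAt (fun w => fderiv ℝ u w 1) (Complex.reCLM.comp (fderiv ℝ (gr u) z)) z :=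
    Complex.reCLM.hasFDerivAt.comp z hd.hasFDerivAt
  have h2 : HasFDerivAt (fun w => fderiv ℝ u w Complex.I)
      (Complex.imCLM.comp (fderiv ℝ (gr u) z)) z :=
    Complex.imCLM.hasFDerivAt.comp z hd.hasFDerivAt
  rw [h1.fderiv, h2.fderiv]
  rfl

/-! ### holomorphic vector fields -/

lemma fderiv_holo {G : ℂ → ℂ} {z : ℂ} (hG : DifferentiableAt ℂ G z) (v : ℂ) :
    fderiv ℝ G z v = deriv G z * v := by
  have h := hG.hasDerivAt.hasFDerivAt.restrictScalars ℝ
  rw [h.fderiv]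
  simp [mul_comm]

lemma hasFDerivAt_conj_holo {G : ℂ → ℂ} {z : ℂ} (hG : DifferentiableAt ℂ G z) :
    HasFDerivAt (fun w => (starRingEnd ℂ) (G w))
      ((Complex.conjCLE : ℂ →L[ℝ] ℂ).comp (fderiv ℝ G z)) z :=
  (Complex.conjCLE : ℂ →L[ℝ] ℂ).hasFDerivAt.comp z (hG.restrictScalars ℝ).hasFDerivAt

/-- The real field `conj G` has divergence zero when `G` is holomorphic. -/
theorem dv_conj {G : ℂ → ℂ} {z : ℂ} (hG : DifferentiableAt ℂ G z) :
    dv (fun w => (starRingEnd ℂ) (G w)) z = 0 := by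
  unfold dv
  rw [(hasFDerivAt_conj_holo hG).fderiv]
  simp only [ContinuousLinearMap.coe_comp, Function.comp_apply,
    ContinuousLinearEquiv.coe_coe, Complex.conjCLE_apply]
  rw [fderiv_holo hG, fderiv_holo hG]
  simp

/-- The gradient of the logarithm of the modulus. -/
theorem gr_log_norm {h : ℂ → ℂ} {z : ℂ} (hh : DifferentiableAt ℂ h z) (h0 : h z ≠ 0) :
    gr (fun w => Real.log ‖h w‖) z = (starRingEnd ℂ) (deriv h z / h z) := by
  apply Complex.ext
  · rw [gr_re, Pool.Agent.H30M.fderiv_log_norm hh h0, mul_one, Complex.conj_re]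
  · rw [gr_im, Pool.Agent.H30M.fderiv_log_norm hh h0, Complex.mul_I_re, Complex.conj_im]

theorem gr_re_holo {G : ℂ → ℂ} {z : ℂ} (hG : DifferentiableAt ℂ G z) :
    gr (fun w => (G w).re) z = (starRingEnd ℂ) (deriv G z) := by
  have h : HasFDerivAt (fun w => (G w).re) (Complex.reCLM.comp (fderiv ℝ G z)) z :=
    Complex.reCLM.hasFDerivAt.comp z (hG.restrictScalars ℝ).hasFDerivAt
  rw [h.gr, grL_apply]
  simp only [ContinuousLinearMap.coe_comp, Function.comp_apply]
  rw [fderiv_holo hG, fderiv_holo hG]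
  apply Complex.ext <;> simp

theorem gr_im_holo {G : ℂ → ℂ} {z : ℂ} (hG : DifferentiableAt ℂ G z) :
    gr (fun w => (G w).im) z = Complex.I * (starRingEnd ℂ) (deriv G z) := by
  have h : HasFDerivAt (fun w => (G w).im) (Complex.imCLM.comp (fderiv ℝ G z)) z :=
    Complex.imCLM.hasFDerivAt.comp z (hG.restrictScalars ℝ).hasFDerivAt
  rw [h.gr, grL_apply]
  simp only [ContinuousLinearMap.coe_comp, Function.comp_apply]
  rw [fderiv_holo hG, fderiv_holo hG]
  apply Complex.ext <;> simp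

theorem contDiffAt_conj_holo {G : ℂ → ℂ} {z : ℂ} {n : WithTop ℕ∞} (hG : AnalyticAt ℂ G z) :
    ContDiffAt ℝ n (fun w => (starRingEnd ℂ) (G w)) z :=
  (Complex.conjCLE : ℂ →L[ℝ] ℂ).contDiff.contDiffAt.comp z
    ((hG.contDiffAt (n := n)).restrict_scalars ℝ)

end Pool.Agent.MQ

end

section

/-!
# MQ Shell: the logarithm of a form with high contact with an axis, in a shell around the axis

`q (x, y)` is the form in the coordinates of the box, `q (0, y) = c y ^ n + …`.
-/

set_option autoImplicit false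

open MeasureTheory Topology Filter Metric Laplacian

noncomputable section

namespace Pool.Agent.MQ.AxisA

open Pool.Agent.MQ

/-- the gradient of `ψ (x, y)` -/
theorem norm_gr_comp_le {ψ : ℂ × ℂ → ℝ} {x y : ℂ → ℂ} {z : ℂ} (hψ : DifferentiableAt ℝ ψ (x z, y z)) (hx : AnalyticAt ℂ x z) (hy : AnalyticAt ℂ y z)
    {C : ℝ} (hC : ‖fderiv ℝ ψ (x z, y z)‖ ≤ C) : ‖gr (fun w => ψ (x w, y w)) z‖ ≤ C * max ‖deriv x z‖ ‖deriv y z‖ := by
  have hx' : HasFDerivAt x ((ContinuousLinearMap.toSpanSingleton ℂ (deriv x z)).restrictScalars ℝ) z :=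
    hx.differentiableAt.hasDerivAt.hasFDerivAt.restrictScalars ℝ
  have hy' : HasFDerivAt y ((ContinuousLinearMap.toSpanSingleton ℂ (deriv y z)).restrictScalars ℝ) z :=
    hy.differentiableAt.hasDerivAt.hasFDerivAt.restrictScalars ℝ
  have hp := hx'.prodMk hy'
  have h1 : HasFDerivAt (fun w => ψ (x w, y w)) ((fderiv ℝ ψ (x z, y z)).comp
      (((ContinuousLinearMap.toSpanSingleton ℂ (deriv x z)).restrictScalars ℝ).prod
        ((ContinuousLinearMap.toSpanSingleton ℂ (deriv y z)).restrictScalars ℝ))) z := hψ.hasFDerivAt.comp z hp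
  have hC0 : 0 ≤ C := (norm_nonneg _).trans hC
  rw [norm_gr, h1.fderiv]
  refine ContinuousLinearMap.opNorm_le_bound _ (by positivity) fun v => ?_
  simp only [ContinuousLinearMap.comp_apply]
  refine (ContinuousLinearMap.le_opNorm _ _).trans ?_
  have h2 : ‖(((ContinuousLinearMap.toSpanSingleton ℂ (deriv x z)).restrictScalars ℝ).prod
        ((ContinuousLinearMap.toSpanSingleton ℂ (deriv y z)).restrictScalars ℝ)) v‖ ≤ max ‖deriv x z‖ ‖deriv y z‖ * ‖v‖ := by
    simp only [ContinuousLinearMap.prod_apply, ContinuousLinearMap.coe_restrictScalars', ContinuousLinearMap.toSpanSingleton_apply, Prod.norm_def,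
      norm_smul]
    refine max_le ?_ ?_
    · rw [mul_comm]
      exact mul_le_mul_of_nonneg_right (le_max_left _ _) (norm_nonneg _)
    · rw [mul_comm]
      exact mul_le_mul_of_nonneg_right (le_max_right _ _) (norm_nonneg _)
  calc _ ≤ C * (max ‖deriv x z‖ ‖deriv y z‖ * ‖v‖) := mul_le_mul hC h2 (norm_nonneg _) hC0
    _ = _ := by ring

end Pool.Agent.MQ.AxisA

end
end

section

/-!
# MQ3 Cut: the setting of the energy estimates, the cut-off, the basic inequality
-/

set_option autoImplicit false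

open MeasureTheory Topology Filter Metric Laplacian

noncomputable section

namespace Pool.Agent.MQ3

open Pool.Agent.MQ
open Pool.Agent.H30M (gg lap_congr)

variable {U : Set ℂ} {x y : ℂ → ℂ} {l : ℂ → ℝ}

/-! ## the square of the modulus -/

theorem cd_sq {x : ℂ → ℂ} {z : ℂ} (hx : AnalyticAt ℂ x z) : ContDiffAt ℝ 2 (fun w => ‖x w‖ ^ 2) z := contDiffAt_sqnorm hx

theorem lap_sq {x : ℂ → ℂ} {z : ℂ} (hx : AnalyticAt ℂ x z) : Δ (fun w => ‖x w‖ ^ 2) z = 4 * ‖deriv x z‖ ^ 2 := by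
  rw [← lp_eq_lap (cd_sq hx), lp_sqnorm hx]

theorem gg_sq {x : ℂ → ℂ} {z : ℂ} (hx : AnalyticAt ℂ x z) :
    gg (fun w => ‖x w‖ ^ 2) (fun w => ‖x w‖ ^ 2) z = 4 * ‖x z‖ ^ 2 * ‖deriv x z‖ ^ 2 := by
  rw [gg_self, gr_sqnorm hx.differentiableAt.hasDerivAt, norm_mul, RCLike.norm_conj, Complex.norm_ofNat]
  have : ‖inner ℂ (x z) (deriv x z)‖ = ‖x z‖ * ‖deriv x z‖ := by
    rw [RCLike.inner_apply, norm_mul, RCLike.norm_conj, mul_comm]
  rw [this]
  ring

/-! ## the cut-off -/

theorem cut_cd (h : Crd U x y) {a b : ℝ} (hb0 : 0 ≤ b) (hab : a < b) (hb : b < 1) : ContDiff ℝ 2 (cut U x y a b) := by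
  rw [contDiff_iff_contDiffAt]
  intro z
  by_cases hz : z ∈ Kb U x y b
  · refine ContDiffAt.congr_of_eventuallyEq ?_ (cut_ev h hz.1)
    exact ((et_cd a b).contDiffAt.comp z (cd_sq (h.ax hz.1))).mul ((et_cd a b).contDiffAt.comp z (cd_sq (h.ay hz.1)))
  · exact contDiffAt_const.congr_of_eventuallyEq (cut_ev_zero h hb0 hab hb hz)

theorem cut_ev_one (h : Crd U x y) {a b : ℝ} (hab : a < b) {z : ℂ} (hz : z ∈ U) (hi : Inn x y a z) :
    cut U x y a b =ᶠ[𝓝 z] fun _ => 1 := by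
  have h1 := (cd_sq (h.ax hz)).continuousAt.eventually (gt_mem_nhds hi.1)
  have h2 := (cd_sq (h.ay hz)).continuousAt.eventually (gt_mem_nhds hi.2)
  filter_upwards [h.isOpen.mem_nhds hz, h1, h2] with w hw hw1 hw2
  unfold cut
  rw [if_pos hw, et_one hab hw1.le, et_one hab hw2.le, one_mul]

end Pool.Agent.MQ3

end
end

section

/-!
# MQ3 Mono: monomial charts (note 4592 (3))

`T` analytic on `H × H` (`H` the left half plane), with the periods `2πi (a, c)` and `2πi (b, d)`.  Then `T (a σ + b τ, c σ + d τ)` is a function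
of `(s, t) = (exp σ, exp τ)`, analytic on the product of the punctured unit discs; if `T` is bounded, it extends to the unit bidisc.
-/

set_option autoImplicit false

open Topology Filter Metric Complex

noncomputable section

namespace Pool.Agent.MQ3

/-- the unit bidisc -/
def DD : Set (ℂ × ℂ) := {p | ‖p.1‖ < 1 ∧ ‖p.2‖ < 1}

/-- the product of two punctured unit discs -/
def DS : Set (ℂ × ℂ) := {p | (p.1 ≠ 0 ∧ ‖p.1‖ < 1) ∧ (p.2 ≠ 0 ∧ ‖p.2‖ < 1)}

/-- the monomial chart -/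
def mchart (a b c d : ℕ) (p : ℂ × ℂ) : ℂ × ℂ := (p.1 ^ a * p.2 ^ b, p.1 ^ c * p.2 ^ d)

/-- the exponential of a pair -/
def pexp (p : ℂ × ℂ) : ℂ × ℂ := (exp p.1, exp p.2)

theorem isOpen_HH : IsOpen HH :=
  (isOpen_lt (continuous_re.comp continuous_fst) continuous_const).inter
    (isOpen_lt (continuous_re.comp continuous_snd) continuous_const)

theorem isOpen_DD : IsOpen DD :=
  (isOpen_lt (continuous_norm.comp continuous_fst) continuous_const).inter
    (isOpen_lt (continuous_norm.comp continuous_snd) continuous_const)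

theorem isOpen_DS : IsOpen DS := by
  refine ((isOpen_ne_fun continuous_fst continuous_const).inter (isOpen_lt (continuous_norm.comp continuous_fst) continuous_const)).inter
    ((isOpen_ne_fun continuous_snd continuous_const).inter (isOpen_lt (continuous_norm.comp continuous_snd) continuous_const))

theorem mem_DS {p : ℂ × ℂ} : p ∈ DS ↔ p ∈ DD ∧ p.1 * p.2 ≠ 0 := by
  constructor
  · rintro ⟨⟨h1, h2⟩, h3, h4⟩
    exact ⟨⟨h2, h4⟩, mul_ne_zero h1 h3⟩
  · rintro ⟨⟨h1, h2⟩, h3⟩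
    exact ⟨⟨left_ne_zero_of_mul h3, h1⟩, right_ne_zero_of_mul h3, h2⟩

theorem pexp_mem {p : ℂ × ℂ} (h : p ∈ HH) : pexp p ∈ DS := by
  refine ⟨⟨exp_ne_zero _, ?_⟩, exp_ne_zero _, ?_⟩
  · show ‖exp p.1‖ < 1
    rw [norm_exp, Real.exp_lt_one_iff]
    exact h.1
  · show ‖exp p.2‖ < 1
    rw [norm_exp, Real.exp_lt_one_iff]
    exact h.2

theorem exists_pexp {p : ℂ × ℂ} (h : p ∈ DS) : ∃ q ∈ HH, pexp q = p := by
  have key : ∀ s : ℂ, s ≠ 0 → ‖s‖ < 1 → (log s).re < 0 := by
    intro s h0 h1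
    rw [log_re]
    exact Real.log_neg (norm_pos_iff.2 h0) h1
  exact ⟨(log p.1, log p.2), ⟨key _ h.1.1 h.1.2, key _ h.2.1 h.2.2⟩, Prod.ext (exp_log h.1.1) (exp_log h.2.1)⟩

theorem analyticAt_mchart (a b c d : ℕ) (p : ℂ × ℂ) : AnalyticAt ℂ (mchart a b c d) p :=
  ((analyticAt_fst.pow a).mul (analyticAt_snd.pow b)).prod ((analyticAt_fst.pow c).mul (analyticAt_snd.pow d))

/-- the derivative of the chart -/
theorem fderiv_mchart (a b c d : ℕ) (p v : ℂ × ℂ) : fderiv ℂ (mchart a b c d) p v =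
    (a * p.1 ^ (a - 1) * p.2 ^ b * v.1 + b * p.1 ^ a * p.2 ^ (b - 1) * v.2,
      c * p.1 ^ (c - 1) * p.2 ^ d * v.1 + d * p.1 ^ c * p.2 ^ (d - 1) * v.2) := by
  have hf : HasFDerivAt (fun q : ℂ × ℂ => q.1) (ContinuousLinearMap.fst ℂ ℂ ℂ) p := hasFDerivAt_fst
  have hs : HasFDerivAt (fun q : ℂ × ℂ => q.2) (ContinuousLinearMap.snd ℂ ℂ ℂ) p := hasFDerivAt_snd
  have h1 := (hf.pow a).mul (hs.pow b)
  have h2 := (hf.pow c).mul (hs.pow d)
  have h3 : HasFDerivAt (mchart a b c d) _ p := h1.prodMk h2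
  rw [h3.fderiv]
  refine Prod.ext ?_ ?_
  · simp
    ring
  · simp
    ring

/-- the Jacobian of the chart -/
theorem jac_mchart {a b c d : ℕ} (h : b * c < a * d) (p : ℂ × ℂ) :
    (fderiv ℂ (mchart a b c d) p (1, 0)).1 * (fderiv ℂ (mchart a b c d) p (0, 1)).2 -
      (fderiv ℂ (mchart a b c d) p (0, 1)).1 * (fderiv ℂ (mchart a b c d) p (1, 0)).2 =
      ((a * d - b * c : ℕ) : ℂ) * p.1 ^ (a + c - 1) * p.2 ^ (b + d - 1) := by
  have ha : 0 < a := Nat.pos_of_ne_zero fun h0 => by subst h0; simp at h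
  have hd : 0 < d := Nat.pos_of_ne_zero fun h0 => by subst h0; simp at h
  obtain ⟨a, rfl⟩ : ∃ a', a = a' + 1 := ⟨a - 1, by omega⟩
  obtain ⟨d, rfl⟩ : ∃ d', d = d' + 1 := ⟨d - 1, by omega⟩
  rw [fderiv_mchart, fderiv_mchart, Nat.cast_sub h.le]
  have e1 : a + 1 + c - 1 = a + c := by omega
  have e2 : b + (d + 1) - 1 = b + d := by omega
  rw [e1, e2]
  simp only [mul_one, mul_zero, add_zero, zero_add, Nat.add_sub_cancel]
  rcases Nat.eq_zero_or_pos b with hb | hb <;> rcases Nat.eq_zero_or_pos c with hc | hc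
  · subst hb hc
    push_cast
    ring
  · subst hb
    push_cast
    ring
  · subst hc
    push_cast
    ring
  · obtain ⟨b, rfl⟩ : ∃ b', b = b' + 1 := ⟨b - 1, by omega⟩
    obtain ⟨c, rfl⟩ : ∃ c', c = c' + 1 := ⟨c - 1, by omega⟩
    simp only [Nat.add_sub_cancel]
    push_cast
    ring

end Pool.Agent.MQ3

end
end

section

/-!
# MQ3 WebR: the sheets of a (non-reduced) web over a normal crossing point

`∑ A i (x, y) t ^ i` (`i ≤ m`), bounded analytic coefficients off the axes of the unit bidisc, leading coefficient without zeros and exactly `e`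
distinct roots off the axes: over the product of two half planes the roots are the sheets of a web box, with constant multiplicities.
-/

set_option autoImplicit false

open Topology Filter Polynomial

noncomputable section

namespace Pool.Agent.MQ3

open Pool.Agent.MQ.AJ

variable {m e : ℕ} {A : ℕ → ℂ × ℂ → ℂ}

/-- the polynomial of the null directions -/
def Pe (m : ℕ) (A : ℕ → ℂ × ℂ → ℂ) (p : ℂ × ℂ) (t : ℂ) : ℂ := ∑ i ∈ Finset.range (m + 1), A i p * t ^ i

/-- a bound for the roots of a monic polynomial -/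
theorem root_bound {c : ℕ → ℂ} {B : ℝ} (hB : ∀ i < m, ‖c i‖ ≤ B) {w : ℂ} (hw : w ^ m + ∑ i ∈ Finset.range m, c i * w ^ i = 0) : ‖w‖ ≤ 1 + m * B := by
  rcases Nat.eq_zero_or_pos m with rfl | hm
  · simp at hw
  have hB0 : 0 ≤ B := (norm_nonneg _).trans (hB 0 hm)
  by_contra hcon
  push Not at hcon
  have h1 : 1 < ‖w‖ := lt_of_le_of_lt (by nlinarith [mul_nonneg (Nat.cast_nonneg (α := ℝ) m) hB0]) hcon
  have h2 : ‖w‖ ^ m ≤ m * B * ‖w‖ ^ (m - 1) := by
    have h3 : w ^ m = -∑ i ∈ Finset.range m, c i * w ^ i := eq_neg_of_add_eq_zero_left hw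
    rw [← norm_pow, h3, norm_neg]
    refine (norm_sum_le _ _).trans ?_
    have h4 : ∀ i ∈ Finset.range m, ‖c i * w ^ i‖ ≤ B * ‖w‖ ^ (m - 1) := by
      intro i hi
      have hi' := Finset.mem_range.1 hi
      rw [norm_mul, norm_pow]
      exact mul_le_mul (hB i hi') (pow_le_pow_right₀ h1.le (by omega)) (by positivity) hB0
    refine (Finset.sum_le_sum h4).trans ?_
    rw [Finset.sum_const, Finset.card_range, nsmul_eq_mul]
    exact le_of_eq (by ring)
  have h3 : ‖w‖ ^ m = ‖w‖ * ‖w‖ ^ (m - 1) := by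
    rw [← pow_succ']
    congr 1
    omega
  rw [h3] at h2
  have h4 : 0 < ‖w‖ ^ (m - 1) := by positivity
  have h5 := le_of_mul_le_mul_right h2 h4
  linarith

/-- the bound of `A_m t` at a root `t` -/
theorem root_bound' {C : ℝ} {p : ℂ × ℂ} (hb : ∀ i ≤ m, ‖A i p‖ ≤ C) {t : ℂ} (ht : Pe m A p t = 0) (hm0 : 0 < m) :
    ‖A m p * t‖ ≤ 1 + m * (1 + C) ^ m := by
  have hC0 : 0 ≤ C := (norm_nonneg _).trans (hb m le_rfl)
  refine root_bound (m := m) (c := fun i => A i p * A m p ^ (m - 1 - i)) (fun i hi => ?_) ?_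
  · rw [norm_mul, norm_pow]
    have h1 : ‖A i p‖ ≤ 1 + C := (hb i hi.le).trans (by linarith)
    have h2 : ‖A m p‖ ^ (m - 1 - i) ≤ (1 + C) ^ (m - 1 - i) := pow_le_pow_left₀ (norm_nonneg _) ((hb m le_rfl).trans (by linarith)) _
    calc ‖A i p‖ * ‖A m p‖ ^ (m - 1 - i) ≤ (1 + C) * (1 + C) ^ (m - 1 - i) := mul_le_mul h1 h2 (by positivity) (by positivity)
      _ = (1 + C) ^ (m - 1 - i + 1) := by rw [pow_succ']
      _ ≤ (1 + C) ^ m := pow_le_pow_right₀ (by linarith) (by omega)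
  · have h1 : A m p ^ (m - 1) * Pe m A p t = (A m p * t) ^ m + ∑ i ∈ Finset.range m, A i p * A m p ^ (m - 1 - i) * (A m p * t) ^ i := by
      rw [Pe, Finset.sum_range_succ, mul_add, Finset.mul_sum, add_comm]
      congr 1
      · rw [mul_pow, ← mul_assoc, ← pow_succ]
        congr 2
        omega
      · refine Finset.sum_congr rfl fun i hi => ?_
        have hi' := Finset.mem_range.1 hi
        have h2 : A m p ^ (m - 1) = A m p ^ (m - 1 - i) * A m p ^ i := by
          rw [← pow_add]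
          congr 1
          omega
        rw [h2, mul_pow]
        ring
    rw [← h1, ht, mul_zero]

theorem pexp_per₁ (v : ℂ × ℂ) : pexp (v + per 1 0) = pexp v := by
  unfold pexp per
  simp only [Prod.fst_add, Prod.snd_add, Int.cast_one, one_mul, Int.cast_zero, zero_mul, add_zero]
  rw [Complex.exp_add, Complex.exp_two_pi_mul_I, mul_one]

theorem pexp_per₂ (v : ℂ × ℂ) : pexp (v + per 0 1) = pexp v := by
  unfold pexp per
  simp only [Prod.fst_add, Prod.snd_add, Int.cast_one, one_mul, Int.cast_zero, zero_mul, add_zero]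
  rw [Complex.exp_add, Complex.exp_two_pi_mul_I, mul_one]

theorem convex_HH : Convex ℝ HH := by
  refine Convex.inter ?_ ?_
  · exact convex_halfSpace_lt ((Complex.reLm.comp (LinearMap.fst ℝ ℂ ℂ)).isLinear) 0
  · exact convex_halfSpace_lt ((Complex.reLm.comp (LinearMap.snd ℝ ℂ ℂ)).isLinear) 0

theorem count_prod {c : Fin e → ℂ} (hc : Function.Injective c) (n : Fin e → ℕ) (k : Fin e) :
    (∏ j, (X - C (c j)) ^ n j : ℂ[X]).roots.count (c k) = n k := by
  classical
  rw [roots_prod _ _ (Finset.prod_ne_zero_iff.2 fun j _ => pow_ne_zero _ (X_sub_C_ne_zero _)), Multiset.count_bind]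
  simp only [roots_pow, roots_X_sub_C, Multiset.count_nsmul, Multiset.count_singleton]
  show (Multiset.map _ (Finset.univ : Finset (Fin e)).val).sum = n k
  rw [← Finset.sum_eq_multiset_sum, Finset.sum_eq_single k]
  · simp
  · intro j _ hj
    rw [if_neg fun h => hj (hc h).symm, mul_zero]
  · intro h
    exact absurd (Finset.mem_univ k) h

/-- equal products have equal multiplicities -/
theorem mult_eq {c c' : Fin e → ℂ} (hc : Function.Injective c) (hc' : Function.Injective c') {n n' : Fin e → ℕ}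
    (h : ∀ t, ∏ j, (t - c j) ^ n j = ∏ j, (t - c' j) ^ n' j) {j k : Fin e} (hjk : c j = c' k) : n j = n' k := by
  have h1 : (∏ j, (X - C (c j)) ^ n j : ℂ[X]) = ∏ j, (X - C (c' j)) ^ n' j := by
    refine Polynomial.funext fun t => ?_
    simp only [eval_prod, eval_pow, eval_sub, eval_X, eval_C]
    exact h t
  rw [← count_prod hc n j, ← count_prod hc' n' k, h1, hjk]

end Pool.Agent.MQ3

end
end
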