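import Pool.Agent.H94.G6.M04
import Pool.Agent.H94.G6.M12
import Pool.Agent.H94.G6.M15

/-! The parts of this file: H17BP.ChLem, H22.W.Mean. -/

section

/-!
# Charts of a surface: nearby points, scaling, coordinate changes

* `IsChart.near`: all conditions hold for `p` near `0`: `AnalyticAt.eventually_analyticAt`, `eventually_eventually_nhds`, and
  `p ↦ σ p`, `p ↦ (σ p, 1)` are continuous at `0`.  (`τ (σ (p + x)) - p = x`; `σ (p + (τ y - p)) = σ (τ y)`.)
* `IsChart.scale`: `y ↦ a⁻¹ • y` is continuous; `a⁻¹ • (c • y) = c • (a⁻¹ • y)`.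
* `IsChart.comp`: `σ₁ = σ ∘ θ`, `τ₁ = θ' ∘ τ`; `σ₁ 0 = σ 0`, `τ (σ 0) = 0` (`left.self_of_nhds`), so `τ y → 0` for `y → σ 0`.
  `right`: `y = c • σ (τ y) = c • σ (θ (θ' (τ y)))`.
* `IsChart.trans`: `σ' 0 = a • σ 0`, `θ p = τ (a⁻¹ • σ' p)`, `θ' p = τ' (a • σ p)`.  `Pr (σ' p) (σ (θ p))`: `h.right` at
  `y = a⁻¹ • σ' p`.  `θ (θ' p) = p`: by `h'.right` at `y = a • σ p`: `a • σ p = c • σ' (θ' p)` with `c → 1` for `p → 0`: choose
  a continuous linear form `Λ` with `Λ (σ 0) ≠ 0` (`exists_dual_vector`), `c = Λ (a • σ p) / Λ (σ' (θ' p))`; so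
  `a⁻¹ • σ' (θ' p) = c⁻¹ • σ p` and `τ (c⁻¹ • σ p) = τ (σ p) = p` by `h.inv` and `h.left`.  `θ' (θ p) = p` by symmetry (it is
  the same statement with the roles of the two charts exchanged: prove it as an auxiliary lemma).
-/

open Topology Filter

noncomputable section

namespace Pool.Agent.H17BP

variable {V : Type} [NormedAddCommGroup V] [NormedSpace ℂ V] {X : Set V} {σ σ' : ℂ × ℂ → V} {τ τ' : V → ℂ × ℂ}

theorem Pr.refl (x : V) : Pr x x := ⟨1, one_ne_zero, (one_smul _ _).symm⟩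

theorem Pr.symm {x y : V} (h : Pr x y) : Pr y x := by
  obtain ⟨c, hc, rfl⟩ := h
  exact ⟨c⁻¹, inv_ne_zero hc, by rw [smul_smul, inv_mul_cancel₀ hc, one_smul]⟩

theorem Pr.trans {x y z : V} (h : Pr x y) (h' : Pr y z) : Pr x z := by
  obtain ⟨c, hc, rfl⟩ := h
  obtain ⟨d, hd, rfl⟩ := h'
  exact ⟨c * d, mul_ne_zero hc hd, by rw [smul_smul]⟩

private theorem chLem_add (p : ℂ × ℂ) : Tendsto (fun x : ℂ × ℂ => p + x) (𝓝 0) (𝓝 p) := by
  have := (continuous_const_add p).tendsto (0 : ℂ × ℂ)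
  rwa [add_zero] at this

theorem IsChart.near [FiniteDimensional ℂ V] (h : IsChart X σ τ) :
    ∀ᶠ p in 𝓝 (0 : ℂ × ℂ), IsChart X (fun x => σ (p + x)) (fun y => τ y - p) := by
  have : CompleteSpace V := FiniteDimensional.complete ℂ V
  have hσ : Tendsto σ (𝓝 0) (𝓝 (σ 0)) := h.σ_an.continuousAt.tendsto
  have hσ1 : Tendsto (fun p => (σ p, (1 : ℂ))) (𝓝 0) (𝓝 (σ 0, (1 : ℂ))) := hσ.prodMk_nhds tendsto_const_nhds
  filter_upwards [h.σ_an.eventually_analyticAt, h.σ_mem.eventually_nhds, h.σ_an.continuousAt.eventually_ne h.ne,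
    hσ.eventually h.τ_an.eventually_analyticAt, h.left.eventually_nhds, hσ.eventually h.right.eventually_nhds,
    hσ1.eventually h.inv.eventually_nhds] with p h1 h2 h3 h4 h5 h6 h7
  have e0 : p + 0 = p := add_zero p
  refine ⟨?_, ?_, ?_, ?_, ?_, ?_, ?_⟩
  · refine AnalyticAt.comp (g := σ) (f := fun x : ℂ × ℂ => p + x) ?_ (analyticAt_const.add analyticAt_id)
    rw [e0]
    exact h1
  · exact (chLem_add p).eventually h2
  · simp only [e0]
    exact h3
  · simp only [e0]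
    exact h4.sub analyticAt_const
  · filter_upwards [(chLem_add p).eventually h5] with x hx
    rw [hx, add_sub_cancel_left]
  · simp only [e0]
    filter_upwards [h6] with y hy hyX
    obtain ⟨c, hc, hy2⟩ := hy hyX
    refine ⟨c, hc, ?_⟩
    rw [add_sub_cancel]
    exact hy2
  · simp only [e0]
    filter_upwards [h7] with y hy
    rw [hy]

theorem IsChart.scale (h : IsChart X σ τ) (hX : ∀ x ∈ X, ∀ c : ℂ, c ≠ 0 → c • x ∈ X) {a : ℂ} (ha : a ≠ 0) :
    IsChart X (fun p => a • σ p) (fun y => τ (a⁻¹ • y)) := by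
  have e1 : a⁻¹ • (a • σ 0) = σ 0 := by rw [smul_smul, inv_mul_cancel₀ ha, one_smul]
  have e2 : Tendsto (fun y : V => a⁻¹ • y) (𝓝 (a • σ 0)) (𝓝 (σ 0)) := by
    have := (continuous_const_smul a⁻¹).tendsto (a • σ 0)
    rwa [e1] at this
  refine ⟨h.σ_an.const_smul (c := a), ?_, smul_ne_zero ha h.ne, ?_, ?_, ?_, ?_⟩
  · filter_upwards [h.σ_mem] with p hp
    exact hX _ hp _ ha
  · refine AnalyticAt.comp (g := τ) (f := fun y : V => a⁻¹ • y) ?_ (analyticAt_id.const_smul (c := a⁻¹))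
    rw [e1]
    exact h.τ_an
  · filter_upwards [h.left] with p hp
    rw [smul_smul, inv_mul_cancel₀ ha, one_smul, hp]
  · filter_upwards [e2.eventually h.right] with y hy hyX
    obtain ⟨c, hc, hy2⟩ := hy (hX _ hyX _ (inv_ne_zero ha))
    refine ⟨c, hc, ?_⟩
    rw [smul_comm, ← hy2, smul_smul, mul_inv_cancel₀ ha, one_smul]
  · have e3 : Tendsto (fun p : V × ℂ => (a⁻¹ • p.1, p.2)) (𝓝 (a • σ 0, (1 : ℂ))) (𝓝 (σ 0, (1 : ℂ))) := by
      have e4 : Continuous fun p : V × ℂ => (a⁻¹ • p.1, p.2) := (continuous_fst.const_smul a⁻¹).prodMk continuous_snd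
      have := e4.tendsto (a • σ 0, (1 : ℂ))
      simpa only [e1] using this
    filter_upwards [e3.eventually h.inv] with p hp
    rw [smul_comm]
    exact hp

theorem IsChart.comp (h : IsChart X σ τ) {θ θ' : ℂ × ℂ → ℂ × ℂ} (hθ : Bihol θ) (hθ' : Bihol θ')
    (h1 : ∀ᶠ x in 𝓝 0, θ' (θ x) = x) (h2 : ∀ᶠ x in 𝓝 0, θ (θ' x) = x) :
    IsChart X (fun x => σ (θ x)) (fun y => θ' (τ y)) := by
  have hτ0 : τ (σ 0) = 0 := h.left.self_of_nhds
  have hτ : Tendsto τ (𝓝 (σ 0)) (𝓝 0) := by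
    have := h.τ_an.continuousAt.tendsto
    rwa [hτ0] at this
  refine ⟨?_, hθ.tendsto.eventually h.σ_mem, ?_, ?_, ?_, ?_, ?_⟩
  · refine AnalyticAt.comp (g := σ) (f := θ) ?_ hθ.an
    rw [hθ.zero]
    exact h.σ_an
  · simp only [hθ.zero]
    exact h.ne
  · simp only [hθ.zero]
    refine AnalyticAt.comp (g := θ') (f := τ) ?_ h.τ_an
    rw [hτ0]
    exact hθ'.an
  · filter_upwards [hθ.tendsto.eventually h.left, h1] with x hx hx1
    rw [hx, hx1]
  · simp only [hθ.zero]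
    filter_upwards [h.right, hτ.eventually h2] with y hy hy2 hyX
    obtain ⟨c, hc, hy3⟩ := hy hyX
    refine ⟨c, hc, ?_⟩
    rw [hy2]
    exact hy3
  · simp only [hθ.zero]
    filter_upwards [h.inv] with p hp
    rw [hp]

private theorem chLem_dual {x : V} (hx : x ≠ 0) : ∃ Λ : V →L[ℂ] ℂ, Λ x ≠ 0 := by
  obtain ⟨Λ, hΛ⟩ := exists_dual_vector ℂ x (norm_ne_zero_iff.mpr hx)
  refine ⟨Λ, ?_⟩
  rw [hΛ.2]
  simpa using hx

private theorem chLem_trans (h : IsChart X σ τ) (h' : IsChart X σ' τ') (h0 : σ' 0 = σ 0) :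
    ∀ᶠ p in 𝓝 (0 : ℂ × ℂ), τ (σ' (τ' (σ p))) = p := by
  obtain ⟨Λ, hΛ⟩ := chLem_dual h.ne
  have hσ : Tendsto σ (𝓝 0) (𝓝 (σ 0)) := h.σ_an.continuousAt.tendsto
  have hσ' : Tendsto σ' (𝓝 0) (𝓝 (σ 0)) := by
    have := h'.σ_an.continuousAt.tendsto
    rwa [h0] at this
  have hτ' : Tendsto τ' (𝓝 (σ 0)) (𝓝 0) := by
    have := h'.τ_an.continuousAt.tendsto
    rwa [h'.left.self_of_nhds, h0] at this
  have hθ' : Tendsto (fun p => σ' (τ' (σ p))) (𝓝 0) (𝓝 (σ 0)) := hσ'.comp (hτ'.comp hσ)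
  have h1 : Tendsto (fun p => Λ (σ p)) (𝓝 0) (𝓝 (Λ (σ 0))) := (Λ.continuous.tendsto _).comp hσ
  have h2 : Tendsto (fun p => Λ (σ' (τ' (σ p)))) (𝓝 0) (𝓝 (Λ (σ 0))) := (Λ.continuous.tendsto _).comp hθ'
  have h3 : Tendsto (fun p => (σ p, Λ (σ' (τ' (σ p))) / Λ (σ p))) (𝓝 0) (𝓝 (σ 0, (1 : ℂ))) := by
    have := h2.div h1 hΛ
    rw [div_self hΛ] at this
    exact hσ.prodMk_nhds this
  have h4 : ∀ᶠ y in 𝓝 (σ 0), y ∈ X → ∃ c : ℂ, c ≠ 0 ∧ y = c • σ' (τ' y) := by
    rw [← h0]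
    exact h'.right
  filter_upwards [hσ.eventually h4, h.σ_mem, h3.eventually h.inv, h.left, h1.eventually_ne hΛ, h2.eventually_ne hΛ]
    with p g1 g2 g3 g4 g5 g6
  obtain ⟨c, hc, g7⟩ := g1 g2
  have g8 : Λ (σ p) = c * Λ (σ' (τ' (σ p))) := by
    conv_lhs => rw [g7]
    rw [map_smul, smul_eq_mul]
  have g9 : Λ (σ' (τ' (σ p))) / Λ (σ p) = c⁻¹ := by
    rw [div_eq_iff g5, g8, ← mul_assoc, inv_mul_cancel₀ hc, one_mul]
  have g10 : σ' (τ' (σ p)) = c⁻¹ • σ p := by
    have := congrArg (fun v => c⁻¹ • v) g7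
    simp only [smul_smul, inv_mul_cancel₀ hc, one_smul] at this
    exact this.symm
  simp only [g9] at g3
  rw [g10, g3, g4]

/-- Two charts at the same point differ by a local biholomorphism and factors. -/
theorem IsChart.trans (hX : ∀ x ∈ X, ∀ c : ℂ, c ≠ 0 → c • x ∈ X) (h : IsChart X σ τ) (h' : IsChart X σ' τ')
    (h0 : Pr (σ' 0) (σ 0)) : ∃ θ : ℂ × ℂ → ℂ × ℂ, Bihol θ ∧ ∀ᶠ p in 𝓝 (0 : ℂ × ℂ), Pr (σ' p) (σ (θ p)) := by
  obtain ⟨a, ha, h0⟩ := h0
  have hs := h.scale hX ha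
  have h1 := chLem_trans hs h' h0
  have h2 := chLem_trans h' hs h0.symm
  have hσ' : Tendsto σ' (𝓝 0) (𝓝 (a • σ 0)) := by
    have := h'.σ_an.continuousAt.tendsto
    rwa [h0] at this
  have ht0 : τ (a⁻¹ • σ' 0) = 0 := by
    have := hs.left.self_of_nhds
    rw [h0]
    exact this
  have ht0' : τ' (a • σ 0) = 0 := by
    have := h'.left.self_of_nhds
    rwa [h0] at this
  refine ⟨fun p => τ (a⁻¹ • σ' p), ⟨?_, ht0, fun p => τ' (a • σ p), ?_, ht0', h2, h1⟩, ?_⟩
  · refine AnalyticAt.comp (g := fun y => τ (a⁻¹ • y)) (f := σ') ?_ h'.σ_an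
    rw [h0]
    exact hs.τ_an
  · refine AnalyticAt.comp (g := τ') (f := fun p => a • σ p) ?_ hs.σ_an
    rw [← h0]
    exact h'.τ_an
  · filter_upwards [hσ'.eventually hs.right, h'.σ_mem] with p h3 h4
    obtain ⟨c, hc, h5⟩ := h3 h4
    refine ⟨c * a, mul_ne_zero hc ha, ?_⟩
    rw [mul_smul]
    exact h5

end Pool.Agent.H17BP

end
end

section

/-!
# W Mean: functions on the plane which are at most their means over all circles

`u` is continuous, `u ≥ 0` and `u c` is at most the mean of `u` over every circle with centre `c`.  If the means over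
the circles `‖z‖ = t` are bounded for a sequence of radii `t → ∞`, then `u` is constant.
-/

set_option autoImplicit false

open Topology Filter Metric

namespace Pool.Agent.H22.W

/-- `u` is at most its means over all circles. -/
def SubMean (u : ℂ → ℝ) : Prop := ∀ (c : ℂ) (r : ℝ), 0 < r → u c ≤ Real.circleAverage u c r

theorem subMean_zero : SubMean fun _ => 0 := fun c r _ => by
  rw [Real.circleAverage_const]

theorem avg_re {g : ℂ → ℂ} (hg : Differentiable ℂ g) (c : ℂ) (r : ℝ) :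
    Real.circleAverage (fun z => (g z).re) c r = (g c).re := by
  have hgd : DiffContOnCl ℂ g (ball c |r|) := hg.diffContOnCl
  have h1 := hgd.circleAverage
  have h2 := ContinuousLinearMap.circleAverage_comp_comm Complex.reCLM (f := g) (c := c) (R := r)
    (hg.continuous.continuousOn.circleIntegrable')
  rw [h1] at h2
  exact h2

theorem cint {u : ℂ → ℝ} (hu : Continuous u) (c : ℂ) (r : ℝ) : CircleIntegrable u c r :=
  hu.continuousOn.circleIntegrable'

theorem avg_lin {u v q : ℂ → ℝ} {c : ℂ} {r : ℝ} (hu : CircleIntegrable u c r) (hv : CircleIntegrable v c r)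
    (hq : CircleIntegrable q c r) : Real.circleAverage (fun z => u z - v z + q z) c r =
      Real.circleAverage u c r - Real.circleAverage v c r + Real.circleAverage q c r := by
  have h1 : (fun z => u z - v z + q z) = (fun z => u z - v z) + q := rfl
  have h2 : (fun z => u z - v z) = u - v := rfl
  have h3 : CircleIntegrable (u - v) c r := hu.sub hv
  rw [h1, h2, Real.circleAverage_add h3 hq, Real.circleAverage_sub hu hv]

theorem avg_sq (c : ℂ) {r : ℝ} (hr : 0 < r) : Real.circleAverage (fun z => ‖z‖ ^ 2) c r = ‖c‖ ^ 2 + r ^ 2 := by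
  obtain ⟨g, hg⟩ : ∃ g : ℂ → ℂ, ∀ z, g z = 2 * ((starRingEnd ℂ) c * (z - c)) + ((‖c‖ ^ 2 + r ^ 2 : ℝ) : ℂ) := ⟨_, fun _ => rfl⟩
  have hgd : Differentiable ℂ g := by
    have : g = fun z => 2 * ((starRingEnd ℂ) c * (z - c)) + ((‖c‖ ^ 2 + r ^ 2 : ℝ) : ℂ) := funext hg
    rw [this]
    fun_prop
  have h1 : Real.circleAverage (fun z => ‖z‖ ^ 2) c r = Real.circleAverage (fun z => (g z).re) c r := by
    refine Real.circleAverage_congr_sphere fun z hz => ?_
    rw [abs_of_pos hr, mem_sphere_iff_norm] at hz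
    show ‖z‖ ^ 2 = (g z).re
    have h2 : ‖z - c‖ ^ 2 = r ^ 2 := by rw [hz]
    rw [hg]
    simp only [Complex.add_re, Complex.mul_re, Complex.re_ofNat, Complex.im_ofNat, Complex.conj_re, Complex.conj_im,
      Complex.sub_re, Complex.sub_im, Complex.ofReal_re, zero_mul, sub_zero]
    rw [← Complex.normSq_eq_norm_sq, Complex.normSq_apply] at h2 ⊢
    rw [← Complex.normSq_eq_norm_sq, Complex.normSq_apply]
    simp only [Complex.sub_re, Complex.sub_im] at h2
    rw [← h2]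
    ring
  rw [h1, avg_re hgd, hg]
  simp only [sub_self, mul_zero, zero_add, Complex.ofReal_re]

/-- comparison with the real part of an entire function on a disc -/
theorem disc_max {u : ℂ → ℝ} (hu : Continuous u) (hs : SubMean u) {g : ℂ → ℂ} (hg : Differentiable ℂ g) {R M : ℝ} (hR : 0 < R)
    (h : ∀ z, ‖z‖ = R → u z - (g z).re ≤ M) : ∀ z, ‖z‖ ≤ R → u z - (g z).re ≤ M := by
  have key : ∀ η : ℝ, 0 < η → ∀ z, ‖z‖ ≤ R → u z - (g z).re ≤ M + η * R ^ 2 := by
    intro η hη z hz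
    obtain ⟨w, hw⟩ : ∃ w : ℂ → ℝ, w = fun z => u z - (g z).re + η * ‖z‖ ^ 2 := ⟨_, rfl⟩
    have hwc : Continuous w := by
      rw [hw]
      exact (hu.sub (Complex.continuous_re.comp hg.continuous)).add (continuous_const.mul (continuous_norm.pow 2))
    obtain ⟨a, ha, hmax⟩ := (isCompact_closedBall (0 : ℂ) R).exists_isMaxOn ⟨0, mem_closedBall_self hR.le⟩ hwc.continuousOn
    rw [mem_closedBall_zero_iff] at ha
    have hle : w z ≤ w a := hmax (by rwa [mem_closedBall_zero_iff])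
    have hzw : u z - (g z).re ≤ w z := by
      rw [hw]
      have : 0 ≤ η * ‖z‖ ^ 2 := by positivity
      show u z - (g z).re ≤ u z - (g z).re + η * ‖z‖ ^ 2
      linarith
    rcases ha.lt_or_eq with ha' | ha'
    · exfalso
      obtain ⟨ρ, hρ⟩ : ∃ ρ : ℝ, ρ = R - ‖a‖ := ⟨_, rfl⟩
      have hρ0 : 0 < ρ := by rw [hρ]; linarith
      have h1 : Real.circleAverage w a ρ ≤ w a := by
        refine Real.circleAverage_mono_on_of_le_circle (cint hwc a ρ) fun x hx => hmax ?_
        rw [abs_of_pos hρ0, mem_sphere_iff_norm] at hx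
        show x ∈ closedBall (0 : ℂ) R
        rw [mem_closedBall_zero_iff]
        calc ‖x‖ = ‖(x - a) + a‖ := by rw [sub_add_cancel]
          _ ≤ ‖x - a‖ + ‖a‖ := norm_add_le _ _
          _ = R := by rw [hx, hρ]; ring
      have h2 : Real.circleAverage w a ρ = Real.circleAverage u a ρ - (g a).re + η * (‖a‖ ^ 2 + ρ ^ 2) := by
        rw [hw]
        have hc1 : Continuous fun z => (g z).re := Complex.continuous_re.comp hg.continuous
        have hc2 : Continuous fun z : ℂ => ‖z‖ ^ 2 := continuous_norm.pow 2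
        rw [avg_lin (q := fun z : ℂ => η * ‖z‖ ^ 2) (cint hu a ρ) (cint hc1 a ρ) (cint (continuous_const.mul hc2) a ρ), avg_re hg]
        have h3 : Real.circleAverage (fun z : ℂ => η * ‖z‖ ^ 2) a ρ = η * (‖a‖ ^ 2 + ρ ^ 2) := by
          have h4 : (fun z : ℂ => η * ‖z‖ ^ 2) = fun z => η • (fun z : ℂ => ‖z‖ ^ 2) z := rfl
          rw [h4, Real.circleAverage_fun_smul, avg_sq a hρ0, smul_eq_mul]
        rw [h3]
      have h5 := hs a ρ hρ0
      have h6 : w a = u a - (g a).re + η * ‖a‖ ^ 2 := by rw [hw]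
      have h7 : 0 < η * ρ ^ 2 := by positivity
      rw [h2, h6] at h1
      linarith
    · have h1 := h a ha'
      have h2 : w a = u a - (g a).re + η * ‖a‖ ^ 2 := by rw [hw]
      rw [ha'] at h2
      linarith
  intro z hz
  refine le_of_forall_pos_le_add fun δ hδ => ?_
  have h1 := key (δ / R ^ 2) (by positivity) z hz
  rwa [div_mul_cancel₀ _ (by positivity)] at h1

/-- comparison with the logarithm on an annulus -/
theorem annulus_max {u : ℂ → ℝ} (hu : Continuous u) (hs : SubMean u) {R M ε : ℝ} (hR : 1 < R)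
    (h1 : ∀ z, ‖z‖ = 1 → u z ≤ M) (h2 : ∀ z, ‖z‖ = R → u z ≤ M + ε * Real.log R) :
    ∀ z, 1 ≤ ‖z‖ → ‖z‖ ≤ R → u z ≤ M + ε * Real.log ‖z‖ := by
  have key : ∀ η : ℝ, 0 < η → ∀ z, 1 ≤ ‖z‖ → ‖z‖ ≤ R → u z ≤ M + ε * Real.log ‖z‖ + η * R ^ 2 := by
    intro η hη z hz1 hzR
    obtain ⟨w, hw⟩ : ∃ w : ℂ → ℝ, w = fun z => u z - ε * Real.log ‖z‖ + η * ‖z‖ ^ 2 := ⟨_, rfl⟩
    obtain ⟨K, hK⟩ : ∃ K : Set ℂ, K = {z : ℂ | 1 ≤ ‖z‖ ∧ ‖z‖ ≤ R} := ⟨_, rfl⟩
    have hKm : ∀ z, z ∈ K ↔ 1 ≤ ‖z‖ ∧ ‖z‖ ≤ R := fun z => by rw [hK]; rfl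
    have hKc : IsCompact K := by
      refine (isCompact_closedBall (0 : ℂ) R).of_isClosed_subset ?_ fun z hz => ?_
      · rw [hK]
        exact (isClosed_le continuous_const continuous_norm).inter (isClosed_le continuous_norm continuous_const)
      · rw [mem_closedBall_zero_iff]
        exact ((hKm z).1 hz).2
    have hwc : ContinuousOn w K := by
      rw [hw]
      refine (hu.continuousOn.sub (continuousOn_const.mul ?_)).add (continuousOn_const.mul (continuous_norm.pow 2).continuousOn)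
      exact continuous_norm.continuousOn.log fun x hx => by
        have := ((hKm x).1 hx).1
        intro h0
        linarith
    obtain ⟨a, ha, hmax⟩ := hKc.exists_isMaxOn ⟨z, (hKm z).2 ⟨hz1, hzR⟩⟩ hwc
    have hle : w z ≤ w a := hmax ((hKm z).2 ⟨hz1, hzR⟩)
    obtain ⟨ha1, haR⟩ := (hKm a).1 ha
    have hwz : w z = u z - ε * Real.log ‖z‖ + η * ‖z‖ ^ 2 := by rw [hw]
    have hwa : w a = u a - ε * Real.log ‖a‖ + η * ‖a‖ ^ 2 := by rw [hw]
    have hz2 : 0 ≤ η * ‖z‖ ^ 2 := by positivity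
    have haR2 : η * ‖a‖ ^ 2 ≤ η * R ^ 2 := mul_le_mul_of_nonneg_left (pow_le_pow_left₀ (norm_nonneg _) haR 2) hη.le
    have hfin : u a - ε * Real.log ‖a‖ ≤ M → u z ≤ M + ε * Real.log ‖z‖ + η * R ^ 2 := fun h => by linarith
    rcases ha1.eq_or_lt with ha' | ha'
    · apply hfin
      rw [← ha', Real.log_one, mul_zero, sub_zero]
      exact h1 a ha'.symm
    rcases haR.eq_or_lt with ha'' | ha''
    · apply hfin
      rw [ha'']
      have := h2 a ha''
      linarith
    exfalso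
    obtain ⟨ρ, hρ⟩ : ∃ ρ : ℝ, ρ = min (‖a‖ - 1) (R - ‖a‖) := ⟨_, rfl⟩
    have hρ0 : 0 < ρ := by rw [hρ]; exact lt_min (by linarith) (by linarith)
    have hρ1 : ρ ≤ ‖a‖ - 1 := by rw [hρ]; exact min_le_left _ _
    have hρ2 : ρ ≤ R - ‖a‖ := by rw [hρ]; exact min_le_right _ _
    have hball : ∀ x, ‖x - a‖ ≤ ρ → x ∈ K := by
      intro x hx
      rw [hKm]
      constructor
      · have h3 : ‖a‖ ≤ ‖x‖ + ‖x - a‖ := by
          calc ‖a‖ = ‖x - (x - a)‖ := by rw [sub_sub_cancel]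
            _ ≤ ‖x‖ + ‖x - a‖ := norm_sub_le _ _
        linarith
      · calc ‖x‖ = ‖(x - a) + a‖ := by rw [sub_add_cancel]
          _ ≤ ‖x - a‖ + ‖a‖ := norm_add_le _ _
          _ ≤ R := by linarith
    have hsph : ∀ x ∈ sphere a |ρ|, x ∈ K := fun x hx => by
      rw [abs_of_pos hρ0, mem_sphere_iff_norm] at hx
      exact hball x hx.le
    have hwci : CircleIntegrable w a ρ := (hwc.mono hsph).circleIntegrable'
    have h3 : Real.circleAverage w a ρ ≤ w a :=
      Real.circleAverage_mono_on_of_le_circle hwci fun x hx => hmax (hsph x hx)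
    have hlogc : ContinuousOn (fun z : ℂ => ε * Real.log ‖z‖) (sphere a |ρ|) := by
      refine continuousOn_const.mul (continuous_norm.continuousOn.log fun x hx => ?_)
      have := ((hKm x).1 (hsph x hx)).1
      intro h0
      linarith
    have hlog : Real.circleAverage (fun z : ℂ => Real.log ‖z‖) a ρ = Real.log ‖a‖ := by
      have h4 : AnalyticOnNhd ℂ (fun z : ℂ => z) (closedBall a |ρ|) := fun z _ => analyticAt_id
      exact h4.circleAverage_log_norm_of_ne_zero fun x hx => by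
        rw [abs_of_pos hρ0, mem_closedBall_iff_norm] at hx
        have := ((hKm x).1 (hball x hx)).1
        intro h0
        have h0' : x = 0 := h0
        rw [h0', norm_zero] at this
        linarith
    have h4 : Real.circleAverage w a ρ = Real.circleAverage u a ρ - ε * Real.log ‖a‖ + η * (‖a‖ ^ 2 + ρ ^ 2) := by
      rw [hw]
      have hc2 : Continuous fun z : ℂ => ‖z‖ ^ 2 := continuous_norm.pow 2
      rw [avg_lin (v := fun z : ℂ => ε * Real.log ‖z‖) (q := fun z : ℂ => η * ‖z‖ ^ 2) (cint hu a ρ) hlogc.circleIntegrable'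
        (cint (continuous_const.mul hc2) a ρ)]
      have h5 : Real.circleAverage (fun z : ℂ => η * ‖z‖ ^ 2) a ρ = η * (‖a‖ ^ 2 + ρ ^ 2) := by
        have h6 : (fun z : ℂ => η * ‖z‖ ^ 2) = fun z => η • (fun z : ℂ => ‖z‖ ^ 2) z := rfl
        rw [h6, Real.circleAverage_fun_smul, avg_sq a hρ0, smul_eq_mul]
      have h7 : Real.circleAverage (fun z : ℂ => ε * Real.log ‖z‖) a ρ = ε * Real.log ‖a‖ := by
        have h6 : (fun z : ℂ => ε * Real.log ‖z‖) = fun z => ε • (fun z : ℂ => Real.log ‖z‖) z := rfl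
        rw [h6, Real.circleAverage_fun_smul, hlog, smul_eq_mul]
      rw [h5, h7]
    have h5 := hs a ρ hρ0
    have h7 : 0 < η * ρ ^ 2 := by positivity
    rw [h4, hwa] at h3
    linarith
  intro z hz1 hzR
  refine le_of_forall_pos_le_add fun δ hδ => ?_
  have hR0 : 0 < R := by linarith
  have h3 := key (δ / R ^ 2) (by positivity) z hz1 hzR
  rwa [div_mul_cancel₀ _ (by positivity)] at h3

/-- bounded means over large circles imply a bound -/
theorem bounded_of_avg {u : ℂ → ℝ} (hu : Continuous u) (hs : SubMean u) (h0 : ∀ z, 0 ≤ u z) {K : ℝ}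
    (hK : ∀ t₀ : ℝ, ∃ t, t₀ ≤ t ∧ Real.circleAverage u 0 t ≤ K) (z : ℂ) : u z ≤ 3 * K + 8 := by
  obtain ⟨t, ht, htK⟩ := hK (2 * ‖z‖ + 1)
  have ht0 : 0 < t := by
    have := norm_nonneg z
    linarith
  obtain ⟨g, hg, hgu⟩ := Pool.Agent.H36.BP.circle_approx ht0 u hu.continuousOn one_pos
  have h1 : ∀ w, ‖w‖ ≤ t → u w - (g w).re ≤ 1 := disc_max hu hs hg ht0 fun w hw => by
    have := (abs_le.1 (hgu w (by rw [mem_sphere_zero_iff_norm]; exact hw))).1
    linarith
  have h2 : ∀ w, ‖w‖ ≤ t → 0 - (g w).re ≤ 1 := disc_max continuous_const subMean_zero hg ht0 fun w hw => by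
    have := (abs_le.1 (hgu w (by rw [mem_sphere_zero_iff_norm]; exact hw))).1
    have := h0 w
    linarith
  have h3 : (g 0).re ≤ K + 1 := by
    rw [← avg_re hg 0 t]
    have hc1 : Continuous fun z => (g z).re := Complex.continuous_re.comp hg.continuous
    have h4 : Real.circleAverage (fun z => (g z).re) 0 t ≤ Real.circleAverage (fun z => u z + 1) 0 t := by
      refine Real.circleAverage_mono (cint hc1 0 t) (cint (hu.add continuous_const) 0 t) fun w hw => ?_
      rw [abs_of_pos ht0] at hw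
      have := (abs_le.1 (hgu w hw)).2
      show (g w).re ≤ u w + 1
      linarith
    rw [Real.circleAverage_fun_add (cint hu 0 t) (circleIntegrable_const _ _ _), Real.circleAverage_const] at h4
    linarith
  have h4 := h2 0 (by rw [norm_zero]; exact ht0.le)
  obtain ⟨M, hM⟩ : ∃ M : ℝ, M = (g 0).re + 2 := ⟨_, rfl⟩
  have hM0 : 0 < M := by linarith
  have h5 := Complex.borelCaratheodory_zero (f := fun w => g 0 - g w) (R := t) (z := z) hM0
    ((differentiable_const _).sub hg).differentiableOn (fun w hw => by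
      rw [mem_ball_zero_iff] at hw
      have := h2 w hw.le
      show (g 0 - g w).re ≤ M
      rw [Complex.sub_re]
      linarith) ht0 (by
      rw [mem_ball_zero_iff]
      have := norm_nonneg z
      linarith) (sub_self _)
  have h6 : 2 * M * ‖z‖ / (t - ‖z‖) ≤ 2 * M := by
    have hz := norm_nonneg z
    rw [div_le_iff₀ (by linarith)]
    nlinarith
  have h7 : (g z).re ≤ (g 0).re + 2 * M := by
    have h8 := Complex.abs_re_le_norm (g 0 - g z)
    have h9 := neg_le_of_abs_le (h8.trans (h5.trans h6))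
    rw [Complex.sub_re] at h9
    linarith
  have h8 := h1 z (by have := norm_nonneg z; linarith)
  linarith

/-- **A Liouville theorem.** -/
theorem const_of_avg {u : ℂ → ℝ} (hu : Continuous u) (hs : SubMean u) (h0 : ∀ z, 0 ≤ u z) {K : ℝ}
    (hK : ∀ t₀ : ℝ, ∃ t, t₀ ≤ t ∧ Real.circleAverage u 0 t ≤ K) (z w : ℂ) : u z = u w := by
  have hB := bounded_of_avg hu hs h0 hK
  obtain ⟨B, hBd⟩ : ∃ B : ℝ, B = 3 * K + 8 := ⟨_, rfl⟩
  obtain ⟨a, ha, hmax⟩ := (isCompact_closedBall (0 : ℂ) 1).exists_isMaxOn ⟨0, mem_closedBall_self zero_le_one⟩ hu.continuousOn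
  have hmax1 : ∀ z, ‖z‖ ≤ 1 → u z ≤ u a := fun z hz => hmax (by rwa [mem_closedBall_zero_iff])
  have hall : ∀ z, u z ≤ u a := by
    intro z
    rcases le_or_gt ‖z‖ 1 with hz | hz
    · exact hmax1 z hz
    have key : ∀ ε : ℝ, 0 < ε → u z ≤ u a + ε * Real.log ‖z‖ := by
      intro ε hε
      obtain ⟨R, hR⟩ : ∃ R : ℝ, R = max (‖z‖) (Real.exp (B / ε)) := ⟨_, rfl⟩
      have hRz : ‖z‖ ≤ R := by rw [hR]; exact le_max_left _ _
      have hRe : Real.exp (B / ε) ≤ R := by rw [hR]; exact le_max_right _ _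
      have hR1 : 1 < R := hz.trans_le hRz
      have hlog : B / ε ≤ Real.log R := by
        rw [Real.le_log_iff_exp_le (by linarith)]
        exact hRe
      refine annulus_max hu hs (R := R) (M := u a) (ε := ε) hR1 (fun x hx => hmax1 x hx.le) (fun x _ => ?_) z hz.le hRz
      have h1 := hB x
      have h2 : B ≤ ε * Real.log R := by
        rw [div_le_iff₀ hε] at hlog
        linarith
      have h3 := h0 a
      linarith
    have hlz : 0 < Real.log ‖z‖ := Real.log_pos hz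
    refine le_of_forall_pos_le_add fun δ hδ => ?_
    have h1 := key (δ / Real.log ‖z‖) (by positivity)
    rwa [div_mul_cancel₀ _ hlz.ne'] at h1
  have heq : ∀ z, u z = u a := by
    intro z
    rcases eq_or_ne z a with rfl | hza
    · rfl
    refine le_antisymm (hall z) ?_
    by_contra hcon
    push Not at hcon
    have hr : 0 < ‖z - a‖ := norm_pos_iff.2 (sub_ne_zero.2 hza)
    have h1 := hs a ‖z - a‖ hr
    have h2 : Real.circleAverage u a ‖z - a‖ < u a := by
      have h3 : (∫ θ in (0 : ℝ)..2 * Real.pi, u (circleMap a ‖z - a‖ θ)) < ∫ _θ in (0 : ℝ)..2 * Real.pi, u a := by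
        refine intervalIntegral.integral_lt_integral_of_continuousOn_of_le_of_exists_lt (by positivity)
          (hu.comp (continuous_circleMap _ _)).continuousOn continuousOn_const (fun x _ => hall _) ?_
        have hz2 : z ∈ sphere a ‖z - a‖ := by rw [mem_sphere_iff_norm]
        rw [← Real.norm_of_nonneg (norm_nonneg (z - a)), Real.norm_eq_abs, ← image_circleMap_Ioc] at hz2
        obtain ⟨θ, hθ, hθz⟩ := hz2
        refine ⟨θ, ⟨hθ.1.le, hθ.2⟩, ?_⟩
        rw [hθz]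
        exact hcon
      rw [intervalIntegral.integral_const, sub_zero, smul_eq_mul] at h3
      rw [Real.circleAverage, smul_eq_mul]
      have hpi : 0 < 2 * Real.pi := by positivity
      rw [inv_mul_lt_iff₀ hpi]
      exact h3
    linarith
  rw [heq z, heq w]

end Pool.Agent.H22.W

end
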