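import Pool.Agent.H94.G6.H17EF.Bridge
import Pool.Agent.H94.G6.M08
import Pool.Agent.H94.G6.M10
import Pool.Agent.H94.G6.M13
import Pool.Agent.H94.G6.M16
import Pool.Agent.H94.G6.M17
import Pool.Agent.H94.G6.M21
import Pool.Agent.H94.G6.M23
import Pool.Agent.H94.G6.M24
import Pool.Agent.H94.G6.M25
import Pool.Agent.H94.G6.M26
import Pool.Agent.H94.G6.M27

/-! The parts of this file: H36.BP.Nodal, H17BP.Conv, H62.EF.ChEx, H17EF.Bridge_1, MQ2.Glue. -/

section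

/-!
# BP Nodal: the nodal theorem for surfaces in `ℙ(V)`

Transport of the metric theorem and of `picard_cone` along a linear isomorphism `V ≃ EN N`.
-/

set_option autoImplicit false

namespace Pool.Agent.H36.BP

open Filter Topology Metric

open Pool.Agent.H17 (PN HolomorphicInto puncturedDisc)
open Pool.Agent.H17BP (Surface IsChart IsForm NoZeros NodalAt)

variable {V : Type} [NormedAddCommGroup V] [NormedSpace ℂ V] {N : ℕ}

/-- holomorphic maps into the projective space of `V` -/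
def HolInto (f : ℂ → Projectivization ℂ V) (U : Set ℂ) : Prop :=
  ∀ z₀ ∈ U, ∃ φ : ℂ → V, AnalyticAt ℂ φ z₀ ∧ ∀ᶠ z in 𝓝 z₀, ∃ h : φ z ≠ 0, f z = Projectivization.mk ℂ (φ z) h

/-- the point of `ℙ^N` of a point of `ℙ(V)` -/
noncomputable def toPN (L : V ≃L[ℂ] EN N) (p : Projectivization ℂ V) : PN N :=
  Projectivization.mk ℂ (L p.rep).ofLp (ofLp_ne_zero fun h => p.rep_nonzero (L.map_eq_zero_iff.mp h))

/-- the point of `ℙ(V)` of a point of `ℙ^N` -/
noncomputable def ofPN (L : V ≃L[ℂ] EN N) (p : PN N) : Projectivization ℂ V :=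
  Projectivization.mk ℂ (L.symm (WithLp.toLp 2 p.rep)) (by
    intro h
    have h1 := L.symm.map_eq_zero_iff.mp h
    exact p.rep_nonzero (congrArg WithLp.ofLp h1))

theorem rep_mk {x : V} (hx : x ≠ 0) : ∃ a : ℂ, a ≠ 0 ∧ (Projectivization.mk ℂ x hx).rep = a • x := by
  obtain ⟨a, ha⟩ := Projectivization.exists_smul_eq_mk_rep ℂ x hx
  exact ⟨a, a.ne_zero, by rw [← ha]; rfl⟩

theorem toPN_mk (L : V ≃L[ℂ] EN N) {x : V} (hx : x ≠ 0) (h : (L x).ofLp ≠ 0) :
    toPN L (Projectivization.mk ℂ x hx) = Projectivization.mk ℂ (L x).ofLp h := by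
  obtain ⟨a, ha, h1⟩ := rep_mk hx
  unfold toPN
  rw [Projectivization.mk_eq_mk_iff']
  refine ⟨a, ?_⟩
  rw [h1, map_smul]
  rfl

theorem ofPN_mk (L : V ≃L[ℂ] EN N) {x : Fin (N + 1) → ℂ} (hx : x ≠ 0) (h : L.symm (WithLp.toLp 2 x) ≠ 0) :
    ofPN L (Projectivization.mk ℂ x hx) = Projectivization.mk ℂ (L.symm (WithLp.toLp 2 x)) h := by
  obtain ⟨a, ha, h1⟩ := rep_mk hx
  unfold ofPN
  rw [Projectivization.mk_eq_mk_iff']
  refine ⟨a, ?_⟩
  rw [h1, WithLp.toLp_smul, map_smul]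

theorem ofPN_toPN (L : V ≃L[ℂ] EN N) (p : Projectivization ℂ V) : ofPN L (toPN L p) = p := by
  have h0 : (L p.rep).ofLp ≠ 0 := ofLp_ne_zero fun h => p.rep_nonzero (L.map_eq_zero_iff.mp h)
  have h1 : L.symm (WithLp.toLp 2 (L p.rep).ofLp) = p.rep := by
    rw [WithLp.toLp_ofLp, L.symm_apply_apply]
  have h2 : toPN L p = Projectivization.mk ℂ (L p.rep).ofLp h0 := rfl
  rw [h2, ofPN_mk L h0 (by rw [h1]; exact p.rep_nonzero)]
  conv_rhs => rw [← Projectivization.mk_rep p]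
  congr 1

theorem holomorphicInto_toPN (L : V ≃L[ℂ] EN N) {f : ℂ → Projectivization ℂ V} {U : Set ℂ} (hf : HolInto f U) :
    HolomorphicInto (fun z => toPN L (f z)) U := by
  intro z₀ hz₀
  obtain ⟨φ, hφ, he⟩ := hf z₀ hz₀
  refine ⟨fun z => (L (φ z)).ofLp, analyticAt_ofLp (((L : V →L[ℂ] EN N).analyticAt _).comp hφ), ?_⟩
  filter_upwards [he] with z hz
  obtain ⟨h1, h2⟩ := hz
  have h3 : (L (φ z)).ofLp ≠ 0 := ofLp_ne_zero fun h => h1 (L.map_eq_zero_iff.mp h)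
  exact ⟨h3, by rw [h2, toPN_mk L h1 h3]⟩

theorem holInto_ofPN (L : V ≃L[ℂ] EN N) {g : ℂ → PN N} {U : Set ℂ} (hg : HolomorphicInto g U) :
    HolInto (fun z => ofPN L (g z)) U := by
  intro z₀ hz₀
  obtain ⟨φ, hφ, he⟩ := hg z₀ hz₀
  refine ⟨fun z => L.symm (WithLp.toLp 2 (φ z)), ((L.symm : EN N →L[ℂ] V).analyticAt _).comp (analyticAt_toLp hφ), ?_⟩
  filter_upwards [he] with z hz
  obtain ⟨h1, h2⟩ := hz
  have h3 : L.symm (WithLp.toLp 2 (φ z)) ≠ 0 := by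
    intro h
    exact h1 (congrArg WithLp.ofLp (L.symm.map_eq_zero_iff.mp h))
  exact ⟨h3, by rw [h2, ofPN_mk L h1 h3]⟩

theorem toPN_mem (L : V ≃L[ℂ] EN N) {X : Set V} (hX : ∀ x ∈ X, ∀ c : ℂ, c ≠ 0 → c • x ∈ X) (p : Projectivization ℂ V) :
    (WithLp.toLp 2 (toPN L p).rep : EN N) ∈ (L.symm ⁻¹' X : Set (EN N)) ↔ p.rep ∈ X := by
  have h0 : (L p.rep).ofLp ≠ 0 := ofLp_ne_zero fun h => p.rep_nonzero (L.map_eq_zero_iff.mp h)
  obtain ⟨a, ha, h1⟩ := rep_mk (V := Fin (N + 1) → ℂ) h0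
  have h2 : (toPN L p).rep = a • (L p.rep).ofLp := h1
  have h3 : L.symm (WithLp.toLp 2 (toPN L p).rep) = a • p.rep := by
    rw [h2, WithLp.toLp_smul, WithLp.toLp_ofLp, map_smul, L.symm_apply_apply]
  show L.symm (WithLp.toLp 2 (toPN L p).rep) ∈ X ↔ p.rep ∈ X
  rw [h3]
  constructor
  · intro h
    have h4 := hX _ h a⁻¹ (inv_ne_zero ha)
    rwa [smul_smul, inv_mul_cancel₀ ha, one_smul] at h4
  · intro h
    exact hX _ h a ha

/-! ### transport of the surface -/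

theorem isCone_transport (L : V ≃L[ℂ] EN N) {X : Set V} (hX : Surface X) : Pool.Agent.H14.PP.IsCone (L.symm ⁻¹' X : Set (EN N)) := by
  refine ⟨?_, ?_, ?_⟩
  · show L.symm 0 ∉ X
    rw [map_zero]
    exact hX.zero
  · intro x hx c hc
    show L.symm (c • x) ∈ X
    rw [map_smul]
    exact hX.smul _ hx c hc
  · rw [← closure_subset_iff_isClosed]
    intro y hy
    rw [Set.insert_eq, closure_union, closure_singleton] at hy
    rcases hy with hy | hy
    · exact Or.inl hy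
    · by_cases h0 : y = 0
      · exact Or.inl h0
      · right
        have h1 : L.symm y ∈ closure X := by
          have h2 : closure (L.symm ⁻¹' X : Set (EN N)) = L.symm ⁻¹' (closure X) := by
            exact (L.symm.toHomeomorph.preimage_closure X).symm
          rw [h2] at hy
          exact hy
        exact hX.closed _ h1 fun h => h0 (L.symm.map_eq_zero_iff.mp h)

theorem germ_transport (L : V ≃L[ℂ] EN N) {X : Set V} {σ : ℂ × ℂ → V} {τ : V → ℂ × ℂ} (h : IsChart X σ τ) :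
    IsGermChart (L.symm ⁻¹' X : Set (EN N)) (fun p => L (σ p)) (fun y => τ (L.symm y)) := by
  have hL : ∀ᶠ y in 𝓝 (L (σ 0)), (fun y => L.symm y) y = L.symm y := Filter.Eventually.of_forall fun _ => rfl
  have ht : Tendsto (fun y => L.symm y) (𝓝 (L (σ 0))) (𝓝 (σ 0)) := by
    have := L.symm.continuous.tendsto (L (σ 0))
    rwa [L.symm_apply_apply] at this
  refine ⟨((L : V →L[ℂ] EN N).analyticAt _).comp h.σ_an, ?_, ?_, ?_, ?_, ?_⟩
  · filter_upwards [h.σ_mem] with p hp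
    show L.symm (L (σ p)) ∈ X
    rwa [L.symm_apply_apply]
  · have h1 : AnalyticAt ℂ τ ((fun y => L.symm y) (L (σ 0))) := by
      show AnalyticAt ℂ τ (L.symm (L (σ 0)))
      rw [L.symm_apply_apply]; exact h.τ_an
    exact h1.comp ((L.symm : EN N →L[ℂ] V).analyticAt _)
  · filter_upwards [h.left] with p hp
    rw [L.symm_apply_apply, hp]
  · filter_upwards [ht.eventually h.right] with y hy hyX
    obtain ⟨c, hc, h1⟩ := hy hyX
    refine ⟨c, hc, ?_⟩
    have h2 : L (L.symm y) = L (c • σ (τ (L.symm y))) := congrArg L h1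
    rwa [L.apply_symm_apply, map_smul] at h2
  · have ht2 : Tendsto (fun z : EN N × ℂ => (L.symm z.1, z.2)) (𝓝 (L (σ 0), (1 : ℂ))) (𝓝 (σ 0, (1 : ℂ))) := by
      have h1 : Continuous (fun z : EN N × ℂ => (L.symm z.1, z.2)) := (L.symm.continuous.comp continuous_fst).prodMk continuous_snd
      have h2 := h1.tendsto (L (σ 0), (1 : ℂ))
      simpa using h2
    filter_upwards [ht2.eventually h.inv] with z hz
    rw [map_smul]
    exact hz

theorem tan_transport (L : V ≃L[ℂ] EN N) {X : Set V} {x v : EN N} (h : Pool.Agent.H14.PP.Tan (L.symm ⁻¹' X : Set (EN N)) x v) :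
    L.symm v ∈ Pool.Agent.H17BP.Tan X (L.symm x) := by
  obtain ⟨F, ⟨hF, hFX⟩, h0, h1⟩ := h
  refine ⟨fun z => L.symm (F z), ((L.symm : EN N →L[ℂ] V).analyticAt _).comp hF, hFX, by simp only [h0], ?_⟩
  have h2 : HasDerivAt (fun z => L.symm (F z)) (L.symm (deriv F 0)) 0 :=
    (L.symm : EN N →L[ℂ] V).hasFDerivAt.comp_hasDerivAt 0 hF.differentiableAt.hasDerivAt
  rw [h2.deriv, h1]

/-- the transported form -/
noncomputable def formT (L : V ≃L[ℂ] EN N) {X : Set V} {m j : ℕ} {Ω : V → V → V → ℂ} (hΩ : IsForm X m j Ω) :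
    Pool.Agent.H14.PP.Form (L.symm ⁻¹' X : Set (EN N)) m j where
  toFun x v w := Ω (L.symm x) (L.symm v) (L.symm w)
  add_smul x hx v w hv hw a b := by
    rw [map_add, map_add, map_smul, map_smul]
    exact hΩ.add_smul _ hx _ (tan_transport L hv) _ (tan_transport L hw) a b
  det x hx v w hv hw a b c d := by
    rw [map_add, map_add, map_smul, map_smul, map_smul, map_smul]
    exact hΩ.det _ hx _ (tan_transport L hv) _ (tan_transport L hw) a b c d
  scale x hx v w hv hw c hc := by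
    rw [map_smul, map_smul, map_smul]
    exact hΩ.scale _ hx _ (tan_transport L hv) _ (tan_transport L hw) c hc
  analytic φ p hφ hφX := by
    have h1 : AnalyticAt ℂ (fun y => L.symm (φ y)) p := ((L.symm : EN N →L[ℂ] V).analyticAt _).comp hφ
    have h2 := hΩ.analytic _ p h1 hφX
    refine h2.congr ?_
    filter_upwards [hφ.eventually_analyticAt] with y hy
    have h3 : HasFDerivAt (fun y => L.symm (φ y)) ((L.symm : EN N →L[ℂ] V).comp (fderiv ℂ φ y)) y :=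
      (L.symm : EN N →L[ℂ] V).hasFDerivAt.comp y hy.differentiableAt.hasFDerivAt
    rw [h3.fderiv]
    rfl

end Pool.Agent.H36.BP

end

section

/-!
# The two sets of definitions agree
-/

open Topology Filter

noncomputable section

namespace Pool.Agent.H17BP

variable {V : Type} [NormedAddCommGroup V] [NormedSpace ℂ V] {X B : Set V}

theorem chart_iff {σ : ℂ × ℂ → V} {τ : V → ℂ × ℂ} : H62.BU.IsChart X σ τ ↔ IsChart X σ τ :=
  ⟨fun h => ⟨h.σ_an, h.σ_mem, h.ne, h.τ_an, h.left, h.right, h.inv⟩,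
    fun h => ⟨h.σ_an, h.σ_mem, h.ne, h.τ_an, h.left, h.right, h.inv⟩⟩

theorem surface_iff : H62.BU.Surface X ↔ Surface X :=
  ⟨fun h => ⟨h.zero, h.smul, h.closed, fun x hx => by
      obtain ⟨σ, τ, h1, h2⟩ := h.chart x hx
      exact ⟨σ, τ, chart_iff.1 h1, h2⟩⟩,
    fun h => ⟨h.zero, h.smul, h.closed, fun x hx => by
      obtain ⟨σ, τ, h1, h2⟩ := h.chart x hx
      exact ⟨σ, τ, chart_iff.2 h1, h2⟩⟩⟩

theorem isForm_iff {m j : ℕ} {Ω : V → V → V → ℂ} : H62.BU.IsForm X m j Ω ↔ IsForm X m j Ω :=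
  ⟨fun h => ⟨fun x hx v hv w hw => h.add_smul x hx v w hv hw, fun x hx v hv w hw => h.det x hx v w hv hw,
      fun x hx v hv w hw => h.scale x hx v w hv hw, h.analytic⟩,
    fun h => ⟨fun x hx v w hv hw => h.add_smul x hx v hv w hw, fun x hx v w hv hw => h.det x hx v hv w hw,
      fun x hx v w hv hw => h.scale x hx v hv w hw, h.analytic⟩⟩

theorem noZeros_iff {Ω : V → V → V → ℂ} : H62.BU.NoZeroOff X B Ω ↔ NoZeros X B Ω :=
  ⟨fun h x hx hB v hv w hw => h x hx hB v w hv hw, fun h x hx hB v w hv hw => h x hx hB v hv w hw⟩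

theorem Eqs.sub {κ : Type} {Q : κ → V → ℂ} {D : ℕ} (h : Eqs X B Q D) : B ⊆ X :=
  fun x hx => ((h.mem_iff x).1 hx).1

theorem Eqs.cone {κ : Type} {Q : κ → V → ℂ} {D : ℕ} (h : Eqs X B Q D)
    (hX : ∀ x ∈ X, ∀ c : ℂ, c ≠ 0 → c • x ∈ X) : ∀ x ∈ B, ∀ c : ℂ, c ≠ 0 → c • x ∈ B := by
  intro x hx c hc
  have h1 := (h.mem_iff x).1 hx
  exact (h.mem_iff _).2 ⟨hX x h1.1 c hc, fun i => by rw [h.smul, h1.2 i, mul_zero]⟩

theorem Pr.mem_iff (hX : ∀ x ∈ X, ∀ c : ℂ, c ≠ 0 → c • x ∈ X) {x y : V} (h : Pr x y) : x ∈ X ↔ y ∈ X := by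
  constructor
  · intro hx
    obtain ⟨c, hc, e⟩ := h.symm
    rw [e]
    exact hX x hx c hc
  · intro hy
    obtain ⟨c, hc, e⟩ := h
    rw [e]
    exact hX y hy c hc

end Pool.Agent.H17BP

end
end

section

/-!
# EF ChEx: charts from germ-level charts

The proof of `Pool.Agent.H36.BP.exists_chart` (`H36/BP/GermChart.lean`) without the sets `T` and `K` (copy it and leave out everything about `T`, `K`).
-/

set_option autoImplicit false

open Topology Filter Metric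

namespace Pool.Agent.H62.EF

open Pool.Agent.H36.BP (EN IsGermChart)
open Pool.Agent.H14.PP (IsCone Chart)

variable {N : ℕ}

theorem exists_chart_of_germ {X : Set (EN N)} (hX : IsCone X) {σ : ℂ × ℂ → EN N} {τ : EN N → ℂ × ℂ} (h : IsGermChart X σ τ) :
    ∃ χ : Chart X, σ 0 ∈ χ.U ∧ χ.q (σ 0) = 0 := by
  have hσ0 : σ 0 ≠ 0 := by
    intro h0
    have h1 := h.σ_mem.self_of_nhds
    rw [h0] at h1
    exact hX.zero_notMem h1
  -- the linear form
  obtain ⟨ℓ, hℓ⟩ : ∃ ℓ : EN N →L[ℂ] ℂ, ℓ (σ 0) = 1 := by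
    have hne : inner ℂ (σ 0) (σ 0) ≠ (0 : ℂ) := inner_self_ne_zero.mpr hσ0
    refine ⟨(inner ℂ (σ 0) (σ 0) : ℂ)⁻¹ • innerSL ℂ (σ 0), ?_⟩
    simp only [_root_.smul_apply, innerSL_apply_apply, smul_eq_mul]
    exact inv_mul_cancel₀ hne
  -- the normalised parametrisation
  have hℓσ : ContinuousAt (fun p => ℓ (σ p)) 0 := ℓ.continuous.continuousAt.comp h.σ_an.continuousAt
  have hℓne : ∀ᶠ p in 𝓝 (0 : ℂ × ℂ), ℓ (σ p) ≠ 0 := hℓσ.eventually_ne (by rw [hℓ]; exact one_ne_zero)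
  have hinvσ : ∀ᶠ p in 𝓝 (0 : ℂ × ℂ), τ ((ℓ (σ p))⁻¹ • σ p) = τ (σ p) := by
    have hc : Tendsto (fun p => (σ p, (ℓ (σ p))⁻¹)) (𝓝 (0 : ℂ × ℂ)) (𝓝 (σ 0, (1 : ℂ))) := by
      have h1 : Tendsto (fun p => (ℓ (σ p))⁻¹) (𝓝 (0 : ℂ × ℂ)) (𝓝 (ℓ (σ 0))⁻¹) := hℓσ.inv₀ (by rw [hℓ]; exact one_ne_zero)
      rw [hℓ, inv_one] at h1
      exact h.σ_an.continuousAt.prodMk_nhds h1
    exact hc.eventually h.inv
  -- the neighbourhood W₀
  have hW : ∀ᶠ y in 𝓝 (σ 0), AnalyticAt ℂ τ y ∧ (y ∈ X → ∃ c : ℂ, c ≠ 0 ∧ y = c • σ (τ y)) := h.τ_an.eventually_analyticAt.and h.right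
  obtain ⟨W₀, hW₀s, hW₀o, hW₀m⟩ := _root_.eventually_nhds_iff.mp hW
  have hσ₁ : Tendsto (fun p => (ℓ (σ p))⁻¹ • σ p) (𝓝 (0 : ℂ × ℂ)) (𝓝 (σ 0)) := by
    have h1 : Tendsto (fun p => (ℓ (σ p))⁻¹) (𝓝 (0 : ℂ × ℂ)) (𝓝 (ℓ (σ 0))⁻¹) := hℓσ.inv₀ (by rw [hℓ]; exact one_ne_zero)
    have h2 := h1.smul h.σ_an.continuousAt
    rwa [hℓ, inv_one, one_smul] at h2
  have hσ₁W : ∀ᶠ p in 𝓝 (0 : ℂ × ℂ), (ℓ (σ p))⁻¹ • σ p ∈ W₀ := hσ₁.eventually (hW₀o.mem_nhds hW₀m)
  obtain ⟨R, hR, hall⟩ := Metric.eventually_nhds_iff_ball.mp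
    (((((h.σ_an.eventually_analyticAt.and h.σ_mem).and h.left).and hℓne).and hinvσ).and hσ₁W)
  set r : ℝ := R / 2 with hr
  have hr0 : 0 < r := by rw [hr]; positivity
  have hrC : (r : ℂ) ≠ 0 := by exact_mod_cast hr0.ne'
  have hball : ∀ p ∈ ball (0 : ℂ × ℂ) 2, (r : ℂ) • p ∈ ball (0 : ℂ × ℂ) R := by
    intro p hp
    rw [mem_ball_zero_iff] at hp ⊢
    rw [norm_smul, Complex.norm_real, Real.norm_of_nonneg hr0.le, hr]
    nlinarith
  have hτσ : ∀ p ∈ ball (0 : ℂ × ℂ) R, τ ((ℓ (σ p))⁻¹ • σ p) = p := by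
    intro p hp
    rw [(hall p hp).1.2, (hall p hp).1.1.1.2]
  set U : Set (EN N) := {x | ℓ x ≠ 0 ∧ (ℓ x)⁻¹ • x ∈ W₀ ∧ ‖τ ((ℓ x)⁻¹ • x)‖ < R} with hU
  have hmaps : ∀ x : EN N, ℓ x ≠ 0 → ∀ c : ℂ, c ≠ 0 → (ℓ (c • x))⁻¹ • (c • x) = (ℓ x)⁻¹ • x := by
    intro x hx c hc
    rw [map_smul, smul_eq_mul, smul_smul, mul_inv, mul_comm c⁻¹, mul_assoc, inv_mul_cancel₀ hc, mul_one]
  have han1 : ∀ x : EN N, ℓ x ≠ 0 → AnalyticAt ℂ (fun y : EN N => (ℓ y)⁻¹ • y) x := by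
    intro x hx
    exact ((ℓ.analyticAt x).inv hx).smul analyticAt_id
  have hanq : ∀ x ∈ U, AnalyticAt ℂ (fun y : EN N => τ ((ℓ y)⁻¹ • y)) x := by
    intro x hx
    exact AnalyticAt.fun_comp (hW₀s _ hx.2.1).1 (han1 x hx.1)
  have hUopen : IsOpen U := by
    rw [isOpen_iff_mem_nhds]
    intro x hx
    have h1 : ∀ᶠ y in 𝓝 x, ℓ y ≠ 0 := ℓ.continuous.continuousAt.eventually_ne hx.1
    have h2 : ∀ᶠ y in 𝓝 x, (ℓ y)⁻¹ • y ∈ W₀ := (han1 x hx.1).continuousAt.eventually (hW₀o.mem_nhds hx.2.1)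
    have h3 : ∀ᶠ y in 𝓝 x, ‖τ ((ℓ y)⁻¹ • y)‖ < R := (hanq x hx).continuousAt.norm.eventually_lt_const hx.2.2
    filter_upwards [h1, h2, h3] with y h4 h5 h6
    exact ⟨h4, h5, h6⟩
  let χ : Chart X :=
    { σ := fun p => (ℓ (σ ((r : ℂ) • p)))⁻¹ • σ ((r : ℂ) • p)
      U := U
      q := fun x => (r : ℂ)⁻¹ • τ ((ℓ x)⁻¹ • x)
      isOpen_U := hUopen
      smul_U := by
        rintro x ⟨h1, h2, h3⟩ c hc
        refine ⟨?_, ?_, ?_⟩
        · rw [map_smul, smul_eq_mul]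
          exact mul_ne_zero hc h1
        · rw [hmaps x h1 c hc]; exact h2
        · rw [hmaps x h1 c hc]; exact h3
      σ_an := by
        intro p hp
        have h1 := (hall _ (hball p hp)).1.1.1.1.1
        have h2 : AnalyticAt ℂ (fun p : ℂ × ℂ => σ ((r : ℂ) • p)) p :=
          AnalyticAt.fun_comp h1 (analyticAt_const.fun_smul analyticAt_id)
        have h3 : AnalyticAt ℂ (fun p : ℂ × ℂ => ℓ (σ ((r : ℂ) • p))) p := (ℓ.analyticAt _).fun_comp h2
        exact (h3.inv (hall _ (hball p hp)).1.1.2).smul h2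
      q_an := by
        intro x hx
        exact analyticAt_const.fun_smul (hanq x hx)
      q_smul := by
        rintro x ⟨h1, h2, h3⟩ c hc
        show (r : ℂ)⁻¹ • τ ((ℓ (c • x))⁻¹ • (c • x)) = _
        rw [hmaps x h1 c hc]
      σ_mem := by
        intro p hp
        have hb := hball p hp
        have hh := hall _ hb
        have hne := hh.1.1.2
        have h1 : ℓ ((ℓ (σ ((r : ℂ) • p)))⁻¹ • σ ((r : ℂ) • p)) = 1 := by
          rw [map_smul, smul_eq_mul, inv_mul_cancel₀ hne]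
        have h2 : τ ((ℓ (σ ((r : ℂ) • p)))⁻¹ • σ ((r : ℂ) • p)) = (r : ℂ) • p := hτσ _ hb
        refine ⟨hX.smul_mem _ hh.1.1.1.1.2 _ (inv_ne_zero hne), ⟨?_, ?_, ?_⟩, ?_⟩
        · rw [h1]; exact one_ne_zero
        · rw [h1, inv_one, one_smul]; exact hh.2
        · rw [h1, inv_one, one_smul, h2]
          exact mem_ball_zero_iff.mp hb
        · show (r : ℂ)⁻¹ • τ ((ℓ ((ℓ (σ ((r : ℂ) • p)))⁻¹ • σ ((r : ℂ) • p)))⁻¹ • ((ℓ (σ ((r : ℂ) • p)))⁻¹ • σ ((r : ℂ) • p))) = p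
          rw [h1, inv_one, one_smul, h2, smul_smul, inv_mul_cancel₀ hrC, one_smul]
      surj := by
        rintro x hxX ⟨h1, h2, h3⟩
        have hyX : (ℓ x)⁻¹ • x ∈ X := hX.smul_mem _ hxX _ (inv_ne_zero h1)
        obtain ⟨c, hc0, hc⟩ := (hW₀s _ h2).2 hyX
        have hτb : τ ((ℓ x)⁻¹ • x) ∈ ball (0 : ℂ × ℂ) R := mem_ball_zero_iff.mpr h3
        have hrq : (r : ℂ) • ((r : ℂ)⁻¹ • τ ((ℓ x)⁻¹ • x)) = τ ((ℓ x)⁻¹ • x) := by
          rw [smul_smul, mul_inv_cancel₀ hrC, one_smul]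
        refine ⟨?_, ?_⟩
        · show (r : ℂ)⁻¹ • τ ((ℓ x)⁻¹ • x) ∈ ball (0 : ℂ × ℂ) 2
          rw [mem_ball_zero_iff, norm_smul, norm_inv, Complex.norm_real, Real.norm_of_nonneg hr0.le, inv_mul_lt_iff₀ hr0, hr]
          linarith
        · refine ⟨ℓ x * c * ℓ (σ (τ ((ℓ x)⁻¹ • x))), ?_, ?_⟩
          · exact mul_ne_zero (mul_ne_zero h1 hc0) (hall _ hτb).1.1.2
          · show x = (ℓ x * c * ℓ (σ (τ ((ℓ x)⁻¹ • x)))) •
              ((ℓ (σ ((r : ℂ) • ((r : ℂ)⁻¹ • τ ((ℓ x)⁻¹ • x)))))⁻¹ • σ ((r : ℂ) • ((r : ℂ)⁻¹ • τ ((ℓ x)⁻¹ • x))))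
            rw [hrq, smul_smul, mul_assoc, mul_inv_cancel₀ (hall _ hτb).1.1.2, mul_one, mul_smul, ← hc, smul_smul, mul_inv_cancel₀ h1, one_smul] }
  have h0b : (0 : ℂ × ℂ) ∈ ball (0 : ℂ × ℂ) R := mem_ball_self hR
  have hτ0 : τ (σ 0) = 0 := (hall 0 h0b).1.1.1.2
  refine ⟨χ, ⟨?_, ?_, ?_⟩, ?_⟩
  · rw [hℓ]; exact one_ne_zero
  · rw [hℓ, inv_one, one_smul]; exact hW₀m
  · rw [hℓ, inv_one, one_smul, hτ0, norm_zero]; exact hR
  · show (r : ℂ)⁻¹ • τ ((ℓ (σ 0))⁻¹ • σ 0) = 0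
    rw [hℓ, inv_one, one_smul, hτ0, smul_zero]

end Pool.Agent.H62.EF

end

section

/-!
# EF Bridge: from the projective space to the cone
-/

set_option autoImplicit false

open Topology Filter MvPolynomial Metric

noncomputable section

namespace Pool.Agent.H17EF

open Pool.Agent.H17 (PN VanishesAt HolomorphicInto ZariskiClosedIn)
open Pool.Agent.H62.FC (Homog)
open Pool.Agent.H62.EF
open Pool.Agent.H17BP (Surface IsChart IsForm NoZeros)
open Pool.Agent.H13.SM (cone)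
open Pool.Agent.H36.BP (EN formT isCone_transport germ_transport tan_transport)
open Pool.Agent.H14.PP (IsCone Chart Form)

variable {N : ℕ}

theorem mk_mem_projVar {P : Ideal (MvPolynomial (Fin (N + 1)) ℂ)} (hP : Homog P) {x : Fin (N + 1) → ℂ} (hx : x ≠ 0) :
    Projectivization.mk ℂ x hx ∈ projVar P ↔ x ∈ cone P := by
  obtain ⟨a, ha, hrep⟩ := Pool.Agent.H36.BP.rep_mk hx
  constructor
  · intro h
    refine ⟨hx, fun Q hQ => ?_⟩
    rw [← MvPolynomial.sum_homogeneousComponent Q, map_sum]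
    refine Finset.sum_eq_zero fun i _ => ?_
    have h1 := h _ (hP Q hQ i) i (homogeneousComponent_isHomogeneous i Q)
    unfold VanishesAt at h1
    rw [hrep, eval_smul_form' (homogeneousComponent_isHomogeneous i Q)] at h1
    exact (mul_eq_zero.1 h1).resolve_left (pow_ne_zero i ha)
  · intro h Q hQ n hn
    unfold VanishesAt
    rw [hrep, eval_smul_form' hn, h.2 Q hQ, mul_zero]
where
  eval_smul_form' {d : ℕ} {Q : MvPolynomial (Fin (N + 1)) ℂ} (hQ : Q.IsHomogeneous d) (c : ℂ)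
      (x : Fin (N + 1) → ℂ) : eval (c • x) Q = c ^ d * eval x Q := by
    rw [MvPolynomial.eval_eq', MvPolynomial.eval_eq', Finset.mul_sum]
    apply Finset.sum_congr rfl
    intro m hm
    have hdeg : ∑ i, m i = d := by
      have := hQ (MvPolynomial.mem_support_iff.1 hm)
      rw [Finsupp.weight_apply] at this
      simpa [Finsupp.sum_fintype] using this
    have h1 : ∏ i, (c • x) i ^ m i = c ^ d * ∏ i, x i ^ m i := by
      rw [← hdeg, ← Finset.prod_pow_eq_pow_sum, ← Finset.prod_mul_distrib]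
      exact Finset.prod_congr rfl fun i _ => by simp [mul_pow]
    rw [h1]
    ring

theorem mem_coneE {P : Ideal (MvPolynomial (Fin (N + 1)) ℂ)} (hP : Homog P) {y : EN N} :
    y ∈ coneE P ↔ ∃ h : (LE N).symm y ≠ 0, Projectivization.mk ℂ ((LE N).symm y) h ∈ projVar P := by
  constructor
  · intro h
    exact ⟨h.1, (mk_mem_projVar hP h.1).2 h⟩
  · rintro ⟨h, h'⟩
    exact (mk_mem_projVar hP h).1 h'

theorem sub_mem_iff {Λ : AddSubgroup ℂ} {a b : ℂ} : a - b ∈ Λ ↔ ((a : ℂ) : ℂ ⧸ Λ) = (b : ℂ ⧸ Λ) := by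
  rw [QuotientAddGroup.eq, ← neg_mem_iff]
  constructor
  · intro h
    convert h using 1
    ring
  · intro h
    convert h using 1
    ring

theorem charts {P : Ideal (MvPolynomial (Fin (N + 1)) ℂ)} (hS : Surface (cone P)) : Charts (coneE P) := by
  intro x hx
  obtain ⟨σ, τ, hc, h0⟩ := hS.chart ((LE N).symm x) hx
  have hg := germ_transport (LE N) hc
  obtain ⟨χ, h1, h2⟩ := exists_chart_of_germ (isCone_transport (LE N) hS) hg
  have h3 : (LE N) (σ 0) = x := by rw [h0, ContinuousLinearEquiv.apply_symm_apply]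
  rw [h3] at h1 h2
  exact ⟨χ, h1, h2⟩

/-- a lift -/
theorem exists_lift {f : ℂ → PN N} (hf : HolomorphicInto f Set.univ) :
    ∃ F : ℂ → EN N, Differentiable ℂ F ∧ ∀ z, ∃ h : (LE N).symm (F z) ≠ 0, f z = Projectivization.mk ℂ ((LE N).symm (F z)) h := by
  obtain ⟨x, hx⟩ := Pool.Agent.H17.exists_global_lift hf
  refine ⟨fun z => (LE N) (fun j => (x j : ℂ → ℂ) z), ?_, fun z => ?_⟩
  · have h1 : Differentiable ℂ fun z => fun j => (x j : ℂ → ℂ) z := differentiable_pi.2 fun j => (x j).2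
    exact (LE N).differentiable.comp h1
  · obtain ⟨h, h'⟩ := hx z
    have h2 : (LE N).symm ((LE N) (fun j => (x j : ℂ → ℂ) z)) = fun j => (x j : ℂ → ℂ) z := ContinuousLinearEquiv.symm_apply_apply _ _
    refine ⟨by rw [h2]; exact h, ?_⟩
    rw [h']
    congr 1

end Pool.Agent.H17EF

end
end

section

/-!
# MQ2 Glue: gluing of finitely many charts (one variable, no geometry)

`Cht`: a chart of the open set `O` with the closed core `K`.  `Df` is the field, `ell` the logarithm; in the chart `Df = D + N X'/X`, `ell = log |X| + u`.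
The result is the field `η - N gr u`, the function `N ell + Φ`.
-/

set_option autoImplicit false

open Topology Filter Metric MeasureTheory Asymptotics Laplacian

noncomputable section

namespace Pool.Agent.MQ2

open Pool.Agent.H30M (tau LogSing)
open Pool.Agent.MQ

/-- a chart -/
structure Cht (Df : ℂ → ℂ) (ell L : ℂ → ℝ) (V : Set ℂ) (N : ℝ) (l : ℂ → ℝ) (C : ℝ) (O K : Set ℂ) (η D X : ℂ → ℂ) (Φ err u : ℂ → ℝ) : Prop where
  op : IsOpen O
  cl : IsClosed K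
  η_cd : ∀ z ∈ O, ContDiffAt ℝ 1 η z
  err_c : ∀ z ∈ O, ContinuousAt err z
  Φ_ls : ∀ z ∈ O, ∃ c, LogSing Φ c z
  out : ∀ z ∈ O, z ∉ K → η z = (starRingEnd ℂ) (D z) ∧ err z = 0 ∧ Φ z = 0
  bd : ∀ z ∈ O, ‖η z‖ ≤ C * l z
  ineq : ∀ z ∈ O, ContDiffAt ℝ 2 Φ z → 0 ≤ dv η z + Δ Φ z + err z
  X_an : ∀ z ∈ O, AnalyticAt ℂ X z
  X_ne : ∀ z ∈ O, ∃ᶠ w in 𝓝 z, X w ≠ 0
  X_V : ∀ z ∈ O, z ∈ V → X z ≠ 0
  D_eq : ∀ z ∈ O, X z ≠ 0 → Df z = D z + N * (deriv X z / X z)
  ell_eq : ∀ z ∈ O, X z ≠ 0 → ell z = Real.log ‖X z‖ + u z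
  u_cd : ∀ z ∈ O, ContDiffAt ℝ 2 u z
  u_gr : ∀ z ∈ O, ‖gr u z‖ ≤ C * l z
  u_bd : ∀ z ∈ O, N * u z ≤ C
  up : ∀ z ∈ O, z ∈ V → ContDiffAt ℝ 2 Φ z → L z + N * Real.log ‖X z‖ + Φ z ≤ C + Real.log (1 + l z)

variable {Df : ℂ → ℂ} {ell L : ℂ → ℝ} {V : Set ℂ} {N : ℝ} {l : ℂ → ℝ} {C : ℝ} {O K : Set ℂ} {η D X : ℂ → ℂ} {Φ err u : ℂ → ℝ}

theorem Cht.X_ne' (h : Cht Df ell L V N l C O K η D X Φ err u) {z : ℂ} (hz : z ∈ O) : ∀ᶠ w in 𝓝[≠] z, X w ≠ 0 := by
  rcases (h.X_an z hz).eventually_eq_zero_or_eventually_ne_zero with h1 | h1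
  · exact absurd h1 fun h2 => h.X_ne z hz (h2.mono fun w hw hw' => hw' hw)
  · exact h1

/-- `log |X|` is smooth where `X ≠ 0` -/
theorem Cht.log_cd (h : Cht Df ell L V N l C O K η D X Φ err u) {z : ℂ} (hz : z ∈ O) (hX : X z ≠ 0) : ContDiffAt ℝ 2 (fun w => Real.log ‖X w‖) z :=
  Pool.Agent.H30M.contDiffAt_log_norm (h.X_an z hz) hX

theorem Cht.ell_ev (h : Cht Df ell L V N l C O K η D X Φ err u) {z : ℂ} (hz : z ∈ O) (hX : X z ≠ 0) :
    ell =ᶠ[𝓝 z] fun w => Real.log ‖X w‖ + u w := by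
  filter_upwards [h.op.mem_nhds hz, (h.X_an z hz).continuousAt.eventually_ne hX] with w hw hXw
  exact h.ell_eq w hw hXw

theorem Cht.gr_ell (h : Cht Df ell L V N l C O K η D X Φ err u) {z : ℂ} (hz : z ∈ O) (hX : X z ≠ 0) :
    gr ell z = (starRingEnd ℂ) (deriv X z / X z) + gr u z := by
  rw [gr_congr (h.ell_ev hz hX), gr_add ((h.log_cd hz hX).differentiableAt (by norm_num)) ((h.u_cd z hz).differentiableAt (by norm_num)),
    gr_log_norm (h.X_an z hz).differentiableAt hX]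

/-- outside the core the field of the chart is the global one -/
theorem Cht.fld (h : Cht Df ell L V N l C O K η D X Φ err u) {z : ℂ} (hz : z ∈ O) (hK : z ∉ K) (hX : X z ≠ 0) :
    η z - N * gr u z = (starRingEnd ℂ) (Df z) - N * gr ell z := by
  rw [(h.out z hz hK).1, h.gr_ell hz hX, h.D_eq z hz hX, map_add, map_mul, Complex.conj_ofReal]
  ring

theorem Cht.fld_cd (h : Cht Df ell L V N l C O K η D X Φ err u) {z : ℂ} (hz : z ∈ O) : ContDiffAt ℝ 1 (fun w => η w - N * gr u w) z :=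
  (h.η_cd z hz).sub (contDiffAt_const.mul (contDiffAt_gr (h.u_cd z hz) (by norm_num)))

theorem Cht.ell_ls (h : Cht Df ell L V N l C O K η D X Φ err u) {z : ℂ} (hz : z ∈ O) : ∃ c, LogSing ell c z := by
  have h1 : analyticOrderAt X z ≠ ⊤ := fun h2 => h.X_ne z hz ((analyticOrderAt_eq_top.1 h2).mono fun w hw hw' => hw' hw)
  have h2 := (LogSing.log_norm (h.X_an z hz) h1).add (LogSing.of_contDiffAt (h.u_cd z hz))
  refine ⟨_, h2.congr ?_⟩
  filter_upwards [h.X_ne' hz, nhdsWithin_le_nhds (h.op.mem_nhds hz)] with w hXw hw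
  exact h.ell_eq w hw hXw

/-- the cores are disjoint from the other charts: the fields agree -/
theorem Cht.agree {O' K' : Set ℂ} {η' D' X' : ℂ → ℂ} {Φ' err' u' : ℂ → ℝ} (h : Cht Df ell L V N l C O K η D X Φ err u)
    (h' : Cht Df ell L V N l C O' K' η' D' X' Φ' err' u') {z : ℂ} (hz : z ∈ O) (hz' : z ∈ O') (hK : z ∉ K) (hK' : z ∉ K') :
    η z - N * gr u z = η' z - N * gr u' z := by
  have h1 : (fun w => η w - N * gr u w) =ᶠ[𝓝[≠] z] fun w => η' w - N * gr u' w := by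
    filter_upwards [h.X_ne' hz, h'.X_ne' hz', nhdsWithin_le_nhds (h.op.mem_nhds hz), nhdsWithin_le_nhds (h'.op.mem_nhds hz'),
      nhdsWithin_le_nhds (h.cl.isOpen_compl.mem_nhds hK), nhdsWithin_le_nhds (h'.cl.isOpen_compl.mem_nhds hK')] with w a1 a2 a3 a4 a5 a6
    rw [h.fld a3 a5 a1, h'.fld a4 a6 a2]
  have h2 : Tendsto (fun w => η w - N * gr u w) (𝓝[≠] z) (𝓝 (η z - N * gr u z)) :=
    (h.fld_cd hz).continuousAt.tendsto.mono_left nhdsWithin_le_nhds
  have h3 : Tendsto (fun w => η' w - N * gr u' w) (𝓝[≠] z) (𝓝 (η' z - N * gr u' z)) :=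
    (h'.fld_cd hz').continuousAt.tendsto.mono_left nhdsWithin_le_nhds
  exact tendsto_nhds_unique (h2.congr' h1) h3

/-- the inequality passes to the limit -/
theorem ineq_of_punctured {η : ℂ → ℂ} {Φ err : ℂ → ℝ} {z : ℂ} (h1 : ContDiffAt ℝ 1 η z) (h2 : ContDiffAt ℝ 2 Φ z) (h3 : ContinuousAt err z)
    (h : ∀ᶠ w in 𝓝[≠] z, 0 ≤ dv η w + Δ Φ w + err w) : 0 ≤ dv η z + Δ Φ z + err z := by
  have h4 : ContinuousAt (fun w => lp Φ w) z := continuousAt_lp h2
  have h5 : (fun w => Δ Φ w) =ᶠ[𝓝 z] fun w => lp Φ w := by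
    filter_upwards [h2.eventually (by simp)] with w hw
    exact (lp_eq_lap hw).symm
  have h6 : ContinuousAt (fun w => dv η w + Δ Φ w + err w) z := ((continuousAt_dv h1).add (h4.congr h5.symm)).add h3
  have h7 : Tendsto (fun w => dv η w + Δ Φ w + err w) (𝓝[≠] z) (𝓝 (dv η z + Δ Φ z + err z)) := h6.tendsto.mono_left nhdsWithin_le_nhds
  exact ge_of_tendsto h7 h

/-! ## the gluing -/

section glue

variable {ι : Type} [Fintype ι] {Om : Set ℂ} {O K : ι → Set ℂ} {η D X : ι → ℂ → ℂ} {Φ err u : ι → ℂ → ℝ}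

open Classical in
/-- the glued field -/
def gfld (N : ℝ) (O : ι → Set ℂ) (η : ι → ℂ → ℂ) (u : ι → ℂ → ℝ) (z : ℂ) : ℂ :=
  if h : ∃ i, z ∈ O i then η h.choose z - N * gr (u h.choose) z else 0

/-- the sum of the functions, extended by zero -/
def gsum (O : ι → Set ℂ) (f : ι → ℂ → ℝ) (z : ℂ) : ℝ := ∑ i, (O i).indicator (f i) z

theorem gfld_eq (h : ∀ i, Cht Df ell L V N l C (O i) (K i) (η i) (D i) (X i) (Φ i) (err i) (u i)) (hdis : ∀ i j, i ≠ j → ∀ z ∈ K i, z ∉ O j) {i : ι}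
    {z : ℂ} (hz : z ∈ O i) : gfld N O η u z = η i z - N * gr (u i) z := by
  classical
  have hex : ∃ i, z ∈ O i := ⟨i, hz⟩
  unfold gfld
  rw [dif_pos hex]
  set j := hex.choose with hj
  have hzj : z ∈ O j := hex.choose_spec
  by_cases hij : i = j
  · rw [← hij]
  · exact (h j).agree (h i) hzj hz (fun h1 => hdis j i (Ne.symm hij) z h1 hz) fun h1 => hdis i j hij z h1 hzj

/-- on `O i` only the function of the chart `i` is left, if the functions vanish outside the cores -/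
theorem gsum_eq {f : ι → ℂ → ℝ} (hf : ∀ i, ∀ z ∈ O i, z ∉ K i → f i z = 0) (hdis : ∀ i j, i ≠ j → ∀ z ∈ K i, z ∉ O j) {i : ι} {z : ℂ} (hz : z ∈ O i) :
    gsum O f z = f i z := by
  classical
  unfold gsum
  rw [Finset.sum_eq_single i]
  · rw [Set.indicator_of_mem hz]
  · intro j _ hji
    by_cases hzj : z ∈ O j
    · rw [Set.indicator_of_mem hzj]
      exact hf j z hzj fun h1 => hdis j i hji z h1 hz
    · rw [Set.indicator_of_notMem hzj]
  · intro h1
    exact absurd (Finset.mem_univ i) h1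

theorem cont_indicator {O K : Set ℂ} {f : ℂ → ℝ} (hO : IsOpen O) (hK : IsClosed K) (hKO : K ⊆ O) (hc : ∀ z ∈ O, ContinuousAt f z)
    (h0 : ∀ z ∈ O, z ∉ K → f z = 0) : Continuous (O.indicator f) := by
  rw [continuous_iff_continuousAt]
  intro z
  by_cases hz : z ∈ O
  · refine (hc z hz).congr ?_
    filter_upwards [hO.mem_nhds hz] with w hw
    rw [Set.indicator_of_mem hw]
  · have h1 : z ∉ K := fun h => hz (hKO h)
    refine (continuousAt_const (y := (0 : ℝ))).congr ?_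
    filter_upwards [hK.isOpen_compl.mem_nhds h1] with w hw
    by_cases hwO : w ∈ O
    · rw [Set.indicator_of_mem hwO, h0 w hwO hw]
    · rw [Set.indicator_of_notMem hwO]

/-- **The gluing.** -/
theorem glue (h : ∀ i, Cht Df ell L V N l C (O i) (K i) (η i) (D i) (X i) (Φ i) (err i) (u i))
    (hKO : ∀ i, K i ⊆ O i) (hsub : ∀ i, O i ⊆ Om) (hcov : ∀ z ∈ Om, ∃ i, z ∈ O i) (hdis : ∀ i j, i ≠ j → ∀ z ∈ K i, z ∉ O j) :
    ∃ (η' : ℂ → ℂ) (Φ' err' : ℂ → ℝ), (∀ z ∈ Om, ContDiffAt ℝ 1 η' z) ∧ (∀ z ∈ Om, ContinuousAt err' z) ∧ (∀ z ∈ Om, ∃ c, LogSing Φ' c z) ∧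
      (∀ i, ∀ z ∈ O i, z ∉ K i → X i z ≠ 0 → η' z = (starRingEnd ℂ) (Df z) - N * gr ell z ∧ err' z = 0 ∧ Φ' z = N * ell z) ∧
      (∀ z ∈ Om, ‖η' z‖ ≤ (C + |N| * C) * l z) ∧ (∀ z ∈ Om, ContDiffAt ℝ 2 Φ' z → 0 ≤ dv η' z + Δ Φ' z + err' z) ∧
      (∀ z ∈ Om, z ∈ V → ContDiffAt ℝ 2 Φ' z → L z + Φ' z ≤ 2 * C + Real.log (1 + l z)) ∧
      ∀ R, 1 ≤ R → ∫ z in Om, tau R z * err' z = ∑ i, ∫ z in O i, tau R z * err i z := by
  classical
  have he0 : ∀ i, ∀ z ∈ O i, z ∉ K i → err i z = 0 := fun i z hz hK => ((h i).out z hz hK).2.1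
  have hΦ0 : ∀ i, ∀ z ∈ O i, z ∉ K i → Φ i z = 0 := fun i z hz hK => ((h i).out z hz hK).2.2
  have ev : ∀ i, ∀ z ∈ O i, ∀ᶠ w in 𝓝 z, w ∈ O i := fun i z hz => (h i).op.mem_nhds hz
  have eη : ∀ i, ∀ z ∈ O i, gfld N O η u =ᶠ[𝓝 z] fun w => η i w - N * gr (u i) w := fun i z hz =>
    (ev i z hz).mono fun w hw => gfld_eq h hdis hw
  have eE : ∀ i, ∀ z ∈ O i, gsum O err =ᶠ[𝓝 z] err i := fun i z hz => (ev i z hz).mono fun w hw => gsum_eq he0 hdis hw
  have eΦ : ∀ i, ∀ z ∈ O i, (fun w => N * ell w + gsum O Φ w) =ᶠ[𝓝 z] fun w => N * ell w + Φ i w := fun i z hz =>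
    (ev i z hz).mono fun w hw => by
      show N * ell w + gsum O Φ w = N * ell w + Φ i w
      rw [gsum_eq hΦ0 hdis hw]
  have cη : ∀ z ∈ Om, ContDiffAt ℝ 1 (gfld N O η u) z := fun z hz => by
    obtain ⟨i, hi⟩ := hcov z hz
    exact ((h i).fld_cd hi).congr_of_eventuallyEq (eη i z hi)
  have cE : ∀ z ∈ Om, ContinuousAt (gsum O err) z := fun z hz => by
    obtain ⟨i, hi⟩ := hcov z hz
    exact ((h i).err_c z hi).congr (eE i z hi).symm
  refine ⟨gfld N O η u, fun w => N * ell w + gsum O Φ w, gsum O err, cη, cE, ?_, ?_, ?_, ?_, ?_, ?_⟩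
  · intro z hz
    obtain ⟨i, hi⟩ := hcov z hz
    obtain ⟨c, hc⟩ := (h i).ell_ls hi
    obtain ⟨c', hc'⟩ := (h i).Φ_ls z hi
    exact ⟨_, ((hc.const_mul N).add hc').congr ((eΦ i z hi).filter_mono nhdsWithin_le_nhds)⟩
  · intro i z hz hK hX
    refine ⟨?_, ?_, ?_⟩
    · rw [gfld_eq h hdis hz, (h i).fld hz hK hX]
    · rw [gsum_eq he0 hdis hz, he0 i z hz hK]
    · show N * ell z + gsum O Φ z = N * ell z
      rw [gsum_eq hΦ0 hdis hz, hΦ0 i z hz hK, add_zero]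
  · intro z hz
    obtain ⟨i, hi⟩ := hcov z hz
    rw [gfld_eq h hdis hi]
    have h1 : ‖(N : ℂ) * gr (u i) z‖ ≤ |N| * (C * l z) := by
      rw [norm_mul, Complex.norm_real, Real.norm_eq_abs]
      exact mul_le_mul_of_nonneg_left ((h i).u_gr z hi) (abs_nonneg _)
    calc ‖η i z - N * gr (u i) z‖ ≤ ‖η i z‖ + ‖(N : ℂ) * gr (u i) z‖ := norm_sub_le _ _
      _ ≤ C * l z + |N| * (C * l z) := add_le_add ((h i).bd z hi) h1
      _ = (C + |N| * C) * l z := by ring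
  · intro z hz hΦz
    obtain ⟨i, hi⟩ := hcov z hz
    refine ineq_of_punctured (cη z hz) hΦz (cE z hz) ?_
    obtain ⟨c', hc'⟩ := (h i).Φ_ls z hi
    filter_upwards [(h i).X_ne' hi, nhdsWithin_le_nhds (ev i z hi), hc'.eventually] with w hX hw hΦw
    have h1 : dv (gfld N O η u) w = dv (η i) w - N * lp (u i) w := by
      rw [dv_congr (eη i w hw), dv_sub (((h i).η_cd w hw).differentiableAt (by norm_num))
        ((((contDiffAt_gr (m := 1) ((h i).u_cd w hw) (by norm_num)).differentiableAt (by norm_num)).const_mul _)),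
        dv_const_mul _ ((contDiffAt_gr (m := 1) ((h i).u_cd w hw) (by norm_num)).differentiableAt (by norm_num))]
      rfl
    have h2 : Δ (fun w => N * ell w + gsum O Φ w) w = N * lp (u i) w + Δ (Φ i) w := by
      have e1 : (fun w => N * ell w + gsum O Φ w) =ᶠ[𝓝 w] fun x => (N * Real.log ‖X i x‖ + N * u i x) + Φ i x := by
        filter_upwards [eΦ i w hw, (h i).ell_ev hw hX] with x hx hx'
        rw [hx, hx']
        ring
      have c1 := (h i).log_cd hw hX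
      have c2 := (h i).u_cd w hw
      have c3 : ContDiffAt ℝ 2 (fun x => N * Real.log ‖X i x‖ + N * u i x) w := (contDiffAt_const.mul c1).add (contDiffAt_const.mul c2)
      rw [← lp_eq_lap ((c3.add hΦw).congr_of_eventuallyEq e1), lp_congr e1, ← lp_eq_lap hΦw]
      unfold Pool.Agent.MQ.lp
      have e2 : gr (fun x => (N * Real.log ‖X i x‖ + N * u i x) + Φ i x) =ᶠ[𝓝 w] fun x =>
          (N : ℂ) * (starRingEnd ℂ) (deriv (X i) x / X i x) + N * gr (u i) x + gr (Φ i) x := by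
        filter_upwards [ev i w hw, ((h i).X_an w hw).continuousAt.eventually_ne hX, hΦw.eventually (by simp)] with x hx hXx hΦx
        have d1 := ((h i).log_cd hx hXx).differentiableAt (by norm_num : (2 : WithTop ℕ∞) ≠ 0)
        have d2 := ((h i).u_cd x hx).differentiableAt (by norm_num : (2 : WithTop ℕ∞) ≠ 0)
        have d12 : DifferentiableAt ℝ (fun y => N * Real.log ‖X i y‖ + N * u i y) x := (d1.const_mul N).add (d2.const_mul N)
        rw [gr_add d12 (hΦx.differentiableAt (by norm_num)), gr_add (d1.const_mul N) (d2.const_mul N),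
          gr_const_mul _ d1, gr_const_mul _ d2, gr_log_norm ((h i).X_an x hx).differentiableAt hXx]
      have a1 : AnalyticAt ℂ (fun x => deriv (X i) x / X i x) w := ((h i).X_an w hw).deriv.div ((h i).X_an w hw) hX
      have d3 : DifferentiableAt ℝ (fun x => (starRingEnd ℂ) (deriv (X i) x / X i x)) w :=
        (contDiffAt_conj_holo (n := 1) a1).differentiableAt (by norm_num)
      have d4 : DifferentiableAt ℝ (gr (u i)) w := (contDiffAt_gr (m := 1) ((h i).u_cd w hw) (by norm_num)).differentiableAt (by norm_num)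
      have d5 : DifferentiableAt ℝ (gr (Φ i)) w := (contDiffAt_gr (m := 1) hΦw (by norm_num)).differentiableAt (by norm_num)
      have d34 : DifferentiableAt ℝ (fun x => (N : ℂ) * (starRingEnd ℂ) (deriv (X i) x / X i x) + N * gr (u i) x) w :=
        (d3.const_mul _).add (d4.const_mul _)
      rw [dv_congr e2, dv_add d34 d5, dv_add (d3.const_mul _) (d4.const_mul _), dv_const_mul _ d3, dv_const_mul _ d4,
        dv_conj a1.differentiableAt]
      ring
    have h3 := (h i).ineq w hw hΦw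
    rw [h1, h2, (eE i w hw).eq_of_nhds]
    linarith
  · intro z hz hzV hΦz
    obtain ⟨i, hi⟩ := hcov z hz
    have hX := (h i).X_V z hi hzV
    have e1 : Φ i =ᶠ[𝓝 z] fun w => (N * ell w + gsum O Φ w) - N * (Real.log ‖X i w‖ + u i w) := by
      filter_upwards [eΦ i z hi, (h i).ell_ev hi hX] with w hw hw'
      rw [hw, hw']
      ring
    have c1 : ContDiffAt ℝ 2 (Φ i) z :=
      (hΦz.sub (contDiffAt_const.mul (((h i).log_cd hi hX).add ((h i).u_cd z hi)))).congr_of_eventuallyEq e1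
    have h1 := (h i).up z hi hzV c1
    have h2 := (h i).u_bd z hi
    show L z + (N * ell z + gsum O Φ z) ≤ _
    rw [gsum_eq hΦ0 hdis hi, (h i).ell_eq z hi hX]
    linarith
  · intro R hR
    have hcont : ∀ i, Continuous ((O i).indicator (err i)) := fun i => cont_indicator (h i).op (h i).cl (hKO i) (h i).err_c (he0 i)
    have hint : ∀ i, Integrable fun z => tau R z * (O i).indicator (err i) z := fun i =>
      ((Pool.Agent.H30M.contDiff_tau R).continuous.mul (hcont i)).integrable_of_hasCompactSupport (Pool.Agent.H30M.hcs_tau hR).mul_right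
    have h1 : ∫ z in Om, tau R z * gsum O err z = ∫ z, tau R z * gsum O err z := by
      refine setIntegral_eq_integral_of_forall_compl_eq_zero fun z hz => ?_
      unfold gsum
      rw [Finset.sum_eq_zero, mul_zero]
      intro i _
      exact Set.indicator_of_notMem (fun h2 => hz (hsub i h2)) _
    rw [h1]
    have h2 : ∀ z, tau R z * gsum O err z = ∑ i, tau R z * (O i).indicator (err i) z := fun z => by
      unfold gsum
      rw [Finset.mul_sum]
    simp only [h2]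
    rw [integral_finsetSum _ fun i _ => hint i]
    refine Finset.sum_congr rfl fun i _ => ?_
    rw [← integral_indicator (h i).op.measurableSet]
    refine integral_congr_ae (Eventually.of_forall fun z => ?_)
    by_cases hz : z ∈ O i
    · simp [Set.indicator_of_mem hz]
    · simp [Set.indicator_of_notMem hz]

end glue

end Pool.Agent.MQ2

end
end
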