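import Pool.Agent.H94.G6.M08
import Pool.Agent.H94.G6.M25
import Pool.Agent.H94.G6.M29

/-! The parts of this file: H14.PP.ChartClosed, H14.PP.FormChart, H14.PP.FormTrans, H14.PP.GDef. -/

section

/-!
# BPm ChartClosed: the closed cone of a closed bidisc

`S = {x ∈ X | x ∈ U, ‖q x‖ ≤ r} = {c • σ p | c ≠ 0, ‖p‖ ≤ r}` (`r < 2`; `ℂ × ℂ` has the sup norm), so
`S ∪ {0} = {c • σ p | c : ℂ, ‖p‖ ≤ r}`. Closed: let `c_n • σ p_n → x`. The closed ball is compact,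
pass to a subsequence `p_n → p`; `‖σ‖ ≥ b > 0` on the closed ball, so `c_n` is bounded, pass to a
subsequence `c_n → c`; `x = c • σ p`.
-/

open Topology Filter Metric

namespace Pool.Agent.H14.PP

open Pool.Agent.H36.BP

variable {N : ℕ} {X K T : Set (EN N)}

private theorem ChartClosed_mem (hX : IsCone X) (χ : Chart X) {r : ℝ} (hr0 : 0 ≤ r) (hr : r < 2)
    (x : EN N) : x ∈ insert (0 : EN N) {x | x ∈ X ∧ x ∈ χ.U ∧ ‖χ.q x‖ ≤ r} ↔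
      ∃ (c : ℂ) (p : ℂ × ℂ), p ∈ closedBall (0 : ℂ × ℂ) r ∧ x = c • χ.σ p := by
  constructor
  · rintro (rfl | ⟨h1, h2, h3⟩)
    · exact ⟨0, 0, mem_closedBall_self hr0, by rw [zero_smul]⟩
    · obtain ⟨-, c, -, hc⟩ := χ.surj x h1 h2
      exact ⟨c, χ.q x, mem_closedBall_zero_iff.mpr h3, hc⟩
  · rintro ⟨c, p, hp, rfl⟩
    by_cases hc : c = 0
    · left
      rw [hc, zero_smul]
    · right
      obtain ⟨h1, h2, h3⟩ := χ.σ_mem p (closedBall_subset_ball hr hp)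
      refine ⟨hX.smul_mem _ h1 c hc, χ.smul_U _ h2 c hc, ?_⟩
      rw [χ.q_smul _ h2 c hc, h3]
      exact mem_closedBall_zero_iff.mp hp

theorem Chart.isClosed (hX : IsCone X) (χ : Chart X) {r : ℝ} (hr0 : 0 ≤ r) (hr : r < 2) :
    IsClosed (insert (0 : EN N) {x | x ∈ X ∧ x ∈ χ.U ∧ ‖χ.q x‖ ≤ r}) := by
  have hcomp : IsCompact (closedBall (0 : ℂ × ℂ) r) := isCompact_closedBall _ _
  have hcont : ContinuousOn χ.σ (closedBall (0 : ℂ × ℂ) r) := fun p hp =>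
    (χ.σ_an p (closedBall_subset_ball hr hp)).continuousAt.continuousWithinAt
  obtain ⟨p₀, hp₀, hmin⟩ := hcomp.exists_isMinOn ⟨0, mem_closedBall_self hr0⟩ hcont.norm
  set b : ℝ := ‖χ.σ p₀‖ with hb
  have hbpos : 0 < b := norm_pos_iff.mpr
    (χ.sigma_ne_zero hX (closedBall_subset_ball hr hp₀))
  refine isClosed_of_closure_subset fun x hx => ?_
  set M : ℝ := (‖x‖ + 1) / b with hM
  have hK : IsCompact ((fun z : ℂ × (ℂ × ℂ) => z.1 • χ.σ z.2) ''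
      (closedBall (0 : ℂ) M ×ˢ closedBall (0 : ℂ × ℂ) r)) := by
    refine ((isCompact_closedBall _ _).prod hcomp).image_of_continuousOn ?_
    refine continuousOn_fst.smul (hcont.comp continuousOn_snd ?_)
    intro z hz
    exact hz.2
  have h1 : x ∈ closure (ball x 1 ∩ insert (0 : EN N) {x | x ∈ X ∧ x ∈ χ.U ∧ ‖χ.q x‖ ≤ r}) :=
    isOpen_ball.inter_closure ⟨mem_ball_self one_pos, hx⟩
  have h2 : ball x 1 ∩ insert (0 : EN N) {x | x ∈ X ∧ x ∈ χ.U ∧ ‖χ.q x‖ ≤ r} ⊆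
      (fun z : ℂ × (ℂ × ℂ) => z.1 • χ.σ z.2) ''
        (closedBall (0 : ℂ) M ×ˢ closedBall (0 : ℂ × ℂ) r) := by
    rintro y ⟨hy1, hy2⟩
    obtain ⟨c, p, hp, rfl⟩ := (ChartClosed_mem hX χ hr0 hr y).mp hy2
    refine ⟨(c, p), ⟨?_, hp⟩, rfl⟩
    rw [mem_closedBall_zero_iff, hM, le_div_iff₀ hbpos]
    have h3 : b ≤ ‖χ.σ p‖ := hmin hp
    have h4 : ‖c • χ.σ p‖ ≤ ‖x‖ + 1 := by
      have h5 : ‖c • χ.σ p - x‖ < 1 := by
        rw [← dist_eq_norm]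
        exact hy1
      have h6 : c • χ.σ p = (c • χ.σ p - x) + x := by abel
      rw [h6]
      refine (norm_add_le _ _).trans ?_
      linarith
    rw [norm_smul] at h4
    exact (mul_le_mul_of_nonneg_left h3 (norm_nonneg c)).trans h4
  have h3 := (hK.isClosed.closure_subset_iff.mpr h2) h1
  obtain ⟨⟨c, p⟩, ⟨-, hp⟩, rfl⟩ := h3
  exact (ChartClosed_mem hX χ hr0 hr _).mpr ⟨c, p, hp, rfl⟩

end Pool.Agent.H14.PP

end

section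

/-!
# BPm FormChart: the coefficient of the form in a chart

* `aCoef_analytic`: `Form.analytic` for `φ = χ.σ` (near `p` the points `χ.σ y` are in `X`, hence in
  `K`, `rel_open`).
* `aCoef_ne_zero`: `v = Dσ(p)(1,0)`, `w = Dσ(p)(0,1)` are tangent (`Chart.tan`), and
  `![σ p, v, w]` is linearly independent: if `a σ p + b v + c w = 0` apply `Dq(σ p)`:
  `(b, c) = 0` (`Chart.fderiv_q_self`, `Chart.fderiv_sigma`), then `a = 0` as `σ p ≠ 0`.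
* `continuousAt_ACoef` (exponents are `≥ 0`), `ACoef_pos_iff` (`1 ≤ m`, `σ p ≠ 0`).
* `ACoef_swap`: `Ω x w v = (-1)^m Ω x v w` (`det` with `a = d = 0`, `b = c = 1`).
-/

open Topology Filter Metric

namespace Pool.Agent.H14.PP

open Pool.Agent.H36.BP

variable {N : ℕ} {X K T : Set (EN N)} {m j : ℕ}

private theorem FormChart_ev (hK : IsOpenPart X K) (χ : Chart X) {p : ℂ × ℂ}
    (hp : p ∈ ball (0 : ℂ × ℂ) 2) (hpK : χ.σ p ∈ K) : ∀ᶠ y in 𝓝 p, χ.σ y ∈ K := by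
  have h1 : ∀ᶠ y in 𝓝 p, y ∈ ball (0 : ℂ × ℂ) 2 := isOpen_ball.mem_nhds hp
  have h2 : ∀ᶠ y in 𝓝 p, χ.σ y ∈ X → χ.σ y ∈ K :=
    (χ.σ_an p hp).continuousAt.eventually (hK.rel_open _ hpK)
  filter_upwards [h1, h2] with y hy hy2
  exact hy2 (χ.σ_mem y hy).1

private theorem FormChart_swap (χ : Chart X) {p : ℂ × ℂ} (hp : p ∈ ball (0 : ℂ × ℂ) 2) (v : ℂ × ℂ) :
    fderiv ℂ χ.swap.σ p.swap v = fderiv ℂ χ.σ p v.swap := by
  have h1 : HasFDerivAt χ.σ (fderiv ℂ χ.σ p) ((ContinuousLinearEquiv.prodComm ℂ ℂ ℂ) p.swap) := by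
    have : (ContinuousLinearEquiv.prodComm ℂ ℂ ℂ) p.swap = p := by
      show p.swap.swap = p
      exact Prod.swap_swap p
    rw [this]
    exact (χ.σ_an p hp).differentiableAt.hasFDerivAt
  have h2 := h1.comp p.swap (ContinuousLinearEquiv.prodComm ℂ ℂ ℂ).hasFDerivAt
  have h3 : HasFDerivAt χ.swap.σ ((fderiv ℂ χ.σ p).comp
      ((ContinuousLinearEquiv.prodComm ℂ ℂ ℂ : (ℂ × ℂ) ≃L[ℂ] (ℂ × ℂ)) : (ℂ × ℂ) →L[ℂ] (ℂ × ℂ))) p.swap := h2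
  rw [h3.fderiv]
  rfl

theorem aCoef_analytic (hK : IsOpenPart X K) (Ω : Form K m j) (χ : Chart X) {p : ℂ × ℂ}
    (hp : p ∈ ball (0 : ℂ × ℂ) 2) (hpK : χ.σ p ∈ K) : AnalyticAt ℂ (aCoef Ω χ) p := by
  exact Ω.analytic χ.σ p (χ.σ_an p hp) (FormChart_ev hK χ hp hpK)

theorem aCoef_ne_zero (hX : IsCone X) (hK : IsOpenPart X K) (Ω : Form K m j) (χ : Chart X)
    (hΩ : Ω.NoZeroOff T) {p : ℂ × ℂ} (hp : p ∈ ball (0 : ℂ × ℂ) 2) (hpK : χ.σ p ∈ K)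
    (hT : χ.σ p ∉ T) : aCoef Ω χ p ≠ 0 := by
  refine hΩ (χ.σ p) hpK hT _ _ (χ.tan hK hp hpK _) (χ.tan hK hp hpK _) ?_
  rw [Fintype.linearIndependent_iff]
  intro g hg
  rw [Fin.sum_univ_three] at hg
  simp only [Matrix.cons_val_zero, Matrix.cons_val_one, Matrix.cons_val] at hg
  have h1 := congrArg (fderiv ℂ χ.q (χ.σ p)) hg
  rw [map_add, map_add, map_smul, map_smul, map_smul, χ.fderiv_q_self (χ.σ_mem p hp).2.1,
    χ.fderiv_sigma hp, χ.fderiv_sigma hp, map_zero, smul_zero, zero_add] at h1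
  have h2 : g 1 = 0 := by
    have := congrArg Prod.fst h1
    simpa using this
  have h3 : g 2 = 0 := by
    have := congrArg Prod.snd h1
    simpa using this
  rw [h2, h3, zero_smul, zero_smul, add_zero, add_zero] at hg
  have h4 : g 0 = 0 := (smul_eq_zero.1 hg).resolve_right (χ.sigma_ne_zero hX hp)
  intro i
  fin_cases i
  · exact h4
  · exact h2
  · exact h3

theorem ACoef_nonneg (Ω : Form K m j) (χ : Chart X) (p : ℂ × ℂ) : 0 ≤ ACoef Ω χ p := by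
  unfold ACoef
  positivity

theorem continuousAt_ACoef (hK : IsOpenPart X K) (Ω : Form K m j) (χ : Chart X) {p : ℂ × ℂ}
    (hp : p ∈ ball (0 : ℂ × ℂ) 2) (hpK : χ.σ p ∈ K) : ContinuousAt (ACoef Ω χ) p := by
  unfold ACoef
  refine ContinuousAt.mul ?_ ?_
  · exact (aCoef_analytic hK Ω χ hp hpK).continuousAt.norm.rpow_const (Or.inr (by positivity))
  · exact (χ.σ_an p hp).continuousAt.norm.rpow_const (Or.inr (by positivity))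

theorem ACoef_pos_iff (hX : IsCone X) (hm : 1 ≤ m) (Ω : Form K m j) (χ : Chart X) {p : ℂ × ℂ}
    (hp : p ∈ ball (0 : ℂ × ℂ) 2) : 0 < ACoef Ω χ p ↔ aCoef Ω χ p ≠ 0 := by
  have hσ : 0 < ‖χ.σ p‖ := norm_pos_iff.2 (χ.sigma_ne_zero hX hp)
  have h1 : 0 < ‖χ.σ p‖ ^ ((j : ℝ) / m) := Real.rpow_pos_of_pos hσ _
  have hm' : (1 / (m : ℝ)) ≠ 0 := by
    have : (0 : ℝ) < m := by exact_mod_cast hm
    positivity
  unfold ACoef
  constructor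
  · intro h h0
    rw [h0, norm_zero, Real.zero_rpow hm', zero_mul] at h
    exact lt_irrefl _ h
  · intro h
    exact mul_pos (Real.rpow_pos_of_pos (norm_pos_iff.2 h) _) h1

theorem ACoef_swap (hK : IsOpenPart X K) (Ω : Form K m j) (χ : Chart X) {p : ℂ × ℂ}
    (hp : p ∈ ball (0 : ℂ × ℂ) 2) (hpK : χ.σ p ∈ K) :
    ACoef Ω χ.swap p.swap = ACoef Ω χ p := by
  have hσ : χ.swap.σ p.swap = χ.σ p := by
    show χ.σ p.swap.swap = χ.σ p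
    rw [Prod.swap_swap]
  have h1 : aCoef Ω χ.swap p.swap = (-1) ^ m * aCoef Ω χ p := by
    unfold aCoef
    rw [hσ, FormChart_swap χ hp, FormChart_swap χ hp]
    have h2 := Ω.det (χ.σ p) hpK _ _ (χ.tan hK hp hpK (1, 0)) (χ.tan hK hp hpK (0, 1)) 0 1 1 0
    rw [zero_smul, one_smul, one_smul, zero_smul, zero_add, add_zero] at h2
    have h3 : ((0 : ℂ) * 0 - 1 * 1) = -1 := by ring
    rw [h3] at h2
    exact h2
  unfold ACoef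
  rw [h1, hσ, norm_mul, norm_pow, norm_neg, norm_one, one_pow, one_mul]

end Pool.Agent.H14.PP

end

section

/-!
# BPm FormTrans: transformation of the coefficient of the form

`χ, χ'` charts, `‖p‖ < 2`, `χ.σ p ∈ K`, `χ.σ p ∈ χ'.U`, `τ = χ'.q ∘ χ.σ`. For `y` near `p`,
`χ.σ y ∈ X ∩ χ'.U`, so `χ.σ y = c y • χ'.σ (τ y)` with `c y ≠ 0`, `c` analytic near `p`
(`c y = ⟪e, χ.σ y⟫/⟪e, χ'.σ (τ y)⟫`, `e = χ'.σ (τ p)`).
Let `x' = χ'.σ (τ p)`, `v₁ = Dχ'.σ(τ p)(1,0)`, `v₂ = Dχ'.σ(τ p)(0,1)`,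
`Dτ(p)(1,0) = (l, c₁)`, `Dτ(p)(0,1) = (b, m₁)`. Then
`Dχ.σ(p)(1,0) = c_s x' + c (l v₁ + c₁ v₂)`, `Dχ.σ(p)(0,1) = c_t x' + c (b v₁ + m₁ v₂)`
(`c = c p`, `c_s, c_t` the partial derivatives).
`scale` (with the tangent vectors `l v₁ + c₁ v₂ + (c_s/c) x'` and `b v₁ + m₁ v₂ + (c_t/c) x'`; they are
tangent: derivatives at `0` of `z ↦ exp (z c_s/c) • χ'.σ (τ p + z (l, c₁))`, which is in `K` near `0`),
`add_smul` and `det` give `c^j * aCoef Ω χ p = (l m₁ - c₁ b)^m * aCoef Ω χ' (τ p)`, so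
`‖aCoef Ω χ p‖ = ‖jac‖^m ‖aCoef Ω χ' (τ p)‖ / ‖c‖^j`, and `‖χ.σ p‖ = ‖c‖ ‖x'‖`:
`ACoef Ω χ p = ‖jac‖ * ACoef Ω χ' (τ p)` (take `m`-th roots, `1 ≤ m`).
-/

open Topology Filter Metric

namespace Pool.Agent.H14.PP

open Pool.Agent.H36.BP

variable {N : ℕ} {X K T : Set (EN N)} {m j : ℕ}

private theorem FormTrans_tan_smul (hK : IsOpenPart X K) {x v : EN N} (h : Tan K x v) {c : ℂ}
    (hc : c ≠ 0) : Tan K (c • x) (c • v) := by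
  obtain ⟨F, hF, hF0, hFd⟩ := h
  refine ⟨fun z => c • F z, ⟨AnalyticAt.fun_smul analyticAt_const hF.1, ?_⟩, ?_, ?_⟩
  · filter_upwards [hF.2] with z hz
    exact hK.smul_mem _ hz c hc
  · show c • F 0 = c • x
    rw [hF0]
  · have h1 : HasDerivAt (fun z => c • F z) (c • deriv F 0) 0 :=
      hF.1.differentiableAt.hasDerivAt.const_smul c
    rw [h1.deriv, hFd]

/-- The lift: `χ.σ y = c y • χ'.σ (τ y)` near `p`, with `c` differentiable at `p`. -/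
private theorem FormTrans_lift (hX : IsCone X) (χ χ' : Chart X) {p : ℂ × ℂ}
    (hp : p ∈ ball (0 : ℂ × ℂ) 2) (hU : χ.σ p ∈ χ'.U) :
    ∃ (c : ℂ) (c' : (ℂ × ℂ) →L[ℂ] ℂ), c ≠ 0 ∧ χ'.q (χ.σ p) ∈ ball (0 : ℂ × ℂ) 2 ∧
      χ.σ p = c • χ'.σ (χ'.q (χ.σ p)) ∧
      ∀ w : ℂ × ℂ, fderiv ℂ χ.σ p w =
        c • fderiv ℂ χ'.σ (χ'.q (χ.σ p)) (fderiv ℂ (fun y => χ'.q (χ.σ y)) p w) +
          c' w • χ'.σ (χ'.q (χ.σ p)) := by
  obtain ⟨hτ, c0, hc0, hx⟩ := χ'.surj (χ.σ p) (χ.σ_mem p hp).1 hU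
  set x' : EN N := χ'.σ (χ'.q (χ.σ p)) with hx'
  have hx'0 : x' ≠ 0 := χ'.sigma_ne_zero hX hτ
  have hin : inner ℂ x' x' ≠ 0 := by
    rw [Ne, inner_self_eq_zero]
    exact hx'0
  have hτan : AnalyticAt ℂ (fun y => χ'.q (χ.σ y)) p :=
    AnalyticAt.comp (g := χ'.q) (f := χ.σ) (χ'.q_an _ hU) (χ.σ_an p hp)
  have hσ'an : AnalyticAt ℂ (fun y => χ'.σ (χ'.q (χ.σ y))) p :=
    AnalyticAt.comp (g := χ'.σ) (f := fun y => χ'.q (χ.σ y)) (χ'.σ_an _ hτ) hτan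
  have hnum : AnalyticAt ℂ (fun y => innerSL ℂ x' (χ.σ y)) p :=
    AnalyticAt.comp (g := fun v => innerSL ℂ x' v) (f := χ.σ)
      ((innerSL ℂ x').analyticAt _) (χ.σ_an p hp)
  have hden : AnalyticAt ℂ (fun y => innerSL ℂ x' (χ'.σ (χ'.q (χ.σ y)))) p :=
    AnalyticAt.comp (g := fun v => innerSL ℂ x' v) (f := fun y => χ'.σ (χ'.q (χ.σ y)))
      ((innerSL ℂ x').analyticAt _) hσ'an
  have hden0 : innerSL ℂ x' (χ'.σ (χ'.q (χ.σ p))) ≠ 0 := by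
    rw [← hx', innerSL_apply_apply]
    exact hin
  let C : ℂ × ℂ → ℂ := fun y => innerSL ℂ x' (χ.σ y) / innerSL ℂ x' (χ'.σ (χ'.q (χ.σ y)))
  have hC : AnalyticAt ℂ C p := hnum.div hden hden0
  have hCp : C p = c0 := by
    show innerSL ℂ x' (χ.σ p) / innerSL ℂ x' (χ'.σ (χ'.q (χ.σ p))) = c0
    rw [div_eq_iff hden0]
    conv_lhs => rw [hx]
    rw [map_smul, smul_eq_mul]
  have hev : ∀ᶠ y in 𝓝 p, χ.σ y = C y • χ'.σ (χ'.q (χ.σ y)) := by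
    have h1 : ∀ᶠ y in 𝓝 p, y ∈ ball (0 : ℂ × ℂ) 2 := isOpen_ball.mem_nhds hp
    have h2 : ∀ᶠ y in 𝓝 p, χ.σ y ∈ χ'.U :=
      (χ.σ_an p hp).continuousAt.eventually (χ'.isOpen_U.mem_nhds hU)
    have h3 : ∀ᶠ y in 𝓝 p, innerSL ℂ x' (χ'.σ (χ'.q (χ.σ y))) ≠ 0 :=
      hden.continuousAt.eventually_ne hden0
    filter_upwards [h1, h2, h3] with y hy1 hy2 hy3
    obtain ⟨-, b, hb, hxb⟩ := χ'.surj (χ.σ y) (χ.σ_mem y hy1).1 hy2
    have h4 : C y = b := by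
      show innerSL ℂ x' (χ.σ y) / innerSL ℂ x' (χ'.σ (χ'.q (χ.σ y))) = b
      rw [div_eq_iff hy3]
      conv_lhs => rw [hxb]
      rw [map_smul, smul_eq_mul]
    rw [h4]
    exact hxb
  refine ⟨c0, fderiv ℂ C p, hc0, hτ, hx, fun w => ?_⟩
  have hD1 : HasFDerivAt (fun y => χ'.σ (χ'.q (χ.σ y)))
      ((fderiv ℂ χ'.σ (χ'.q (χ.σ p))).comp (fderiv ℂ (fun y => χ'.q (χ.σ y)) p)) p :=
    HasFDerivAt.comp (g := χ'.σ) (f := fun y => χ'.q (χ.σ y)) p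
      (χ'.σ_an _ hτ).differentiableAt.hasFDerivAt hτan.differentiableAt.hasFDerivAt
  have hD2 : HasFDerivAt (fun y => C y • χ'.σ (χ'.q (χ.σ y)))
      (C p • ((fderiv ℂ χ'.σ (χ'.q (χ.σ p))).comp (fderiv ℂ (fun y => χ'.q (χ.σ y)) p)) +
        (fderiv ℂ C p).smulRight (χ'.σ (χ'.q (χ.σ p)))) p :=
    hC.differentiableAt.hasFDerivAt.smul hD1
  have hD3 : HasFDerivAt χ.σ
      (C p • ((fderiv ℂ χ'.σ (χ'.q (χ.σ p))).comp (fderiv ℂ (fun y => χ'.q (χ.σ y)) p)) +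
        (fderiv ℂ C p).smulRight (χ'.σ (χ'.q (χ.σ p)))) p :=
    hD2.congr_of_eventuallyEq hev
  rw [hD3.fderiv, hCp]
  rfl

private theorem FormTrans_pair (L : (ℂ × ℂ) →L[ℂ] EN N) (w : ℂ × ℂ) :
    L w = w.1 • L (1, 0) + w.2 • L (0, 1) := by
  rw [← map_smul, ← map_smul, ← map_add]
  congr 1
  ext
  · simp
  · simp

private theorem FormTrans_coef (hX : IsCone X) (hK : IsOpenPart X K) (Ω : Form K m j)
    (χ χ' : Chart X) {p : ℂ × ℂ} (hp : p ∈ ball (0 : ℂ × ℂ) 2) (hpK : χ.σ p ∈ K)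
    (hU : χ.σ p ∈ χ'.U) :
    ∃ c : ℂ, c ≠ 0 ∧ χ.σ p = c • χ'.σ (χ'.q (χ.σ p)) ∧
      c ^ j * aCoef Ω χ p =
        jac (fun y => χ'.q (χ.σ y)) p ^ m * aCoef Ω χ' (χ'.q (χ.σ p)) := by
  obtain ⟨c, c', hc, hτ, hx, hD⟩ := FormTrans_lift hX χ χ' hp hU
  refine ⟨c, hc, hx, ?_⟩
  have hx'K : χ'.σ (χ'.q (χ.σ p)) ∈ K := by
    have h1 := hK.smul_mem _ hpK c⁻¹ (inv_ne_zero hc)
    rw [hx, smul_smul, inv_mul_cancel₀ hc, one_smul] at h1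
    exact h1
  set x' : EN N := χ'.σ (χ'.q (χ.σ p)) with hx'
  set A : ℂ × ℂ := fderiv ℂ (fun y => χ'.q (χ.σ y)) p (1, 0) with hA
  set B : ℂ × ℂ := fderiv ℂ (fun y => χ'.q (χ.σ y)) p (0, 1) with hB
  have htA : Tan K x' (fderiv ℂ χ'.σ (χ'.q (χ.σ p)) A) := χ'.tan hK hτ hx'K A
  have htB : Tan K x' (fderiv ℂ χ'.σ (χ'.q (χ.σ p)) B) := χ'.tan hK hτ hx'K B
  have hV : fderiv ℂ χ.σ p (1, 0) =
      c • fderiv ℂ χ'.σ (χ'.q (χ.σ p)) A + (c' (1, 0) * c⁻¹) • (c • x') := by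
    rw [hD (1, 0), smul_smul, mul_assoc, inv_mul_cancel₀ hc, mul_one]
  have hW : fderiv ℂ χ.σ p (0, 1) =
      c • fderiv ℂ χ'.σ (χ'.q (χ.σ p)) B + (c' (0, 1) * c⁻¹) • (c • x') := by
    rw [hD (0, 1), smul_smul, mul_assoc, inv_mul_cancel₀ hc, mul_one]
  have hcx : c • x' ∈ K := hK.smul_mem _ hx'K c hc
  have h1 := Ω.add_smul (c • x') hcx _ _ (FormTrans_tan_smul hK htA hc)
    (FormTrans_tan_smul hK htB hc) (c' (1, 0) * c⁻¹) (c' (0, 1) * c⁻¹)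
  have h2 := Ω.scale x' hx'K _ _ htA htB c hc
  have h3 := Ω.det x' hx'K _ _ (χ'.tan hK hτ hx'K (1, 0)) (χ'.tan hK hτ hx'K (0, 1))
    A.1 A.2 B.1 B.2
  rw [← FormTrans_pair, ← FormTrans_pair] at h3
  have h4 : aCoef Ω χ p = Ω.toFun (c • x') (c • fderiv ℂ χ'.σ (χ'.q (χ.σ p)) A)
      (c • fderiv ℂ χ'.σ (χ'.q (χ.σ p)) B) := by
    rw [← h1, ← hV, ← hW, ← hx]
    rfl
  rw [h4, h2, h3]
  have h5 : jac (fun y => χ'.q (χ.σ y)) p = A.1 * B.2 - A.2 * B.1 := by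
    show A.1 * B.2 - B.1 * A.2 = _
    ring
  rw [h5]
  rfl

theorem ACoef_trans (hX : IsCone X) (hK : IsOpenPart X K) (hm : 1 ≤ m) (Ω : Form K m j)
    (χ χ' : Chart X) {p : ℂ × ℂ} (hp : p ∈ ball (0 : ℂ × ℂ) 2) (hpK : χ.σ p ∈ K)
    (hU : χ.σ p ∈ χ'.U) :
    ACoef Ω χ p = ‖jac (fun y => χ'.q (χ.σ y)) p‖ * ACoef Ω χ' (χ'.q (χ.σ p)) := by
  obtain ⟨c, hc, hx, hcoef⟩ := FormTrans_coef hX hK Ω χ χ' hp hpK hU
  have hmR : (0 : ℝ) < (m : ℝ) := by exact_mod_cast hm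
  have hcn : 0 < ‖c‖ := norm_pos_iff.2 hc
  have hnorm : ‖c‖ ^ j * ‖aCoef Ω χ p‖ =
      ‖jac (fun y => χ'.q (χ.σ y)) p‖ ^ m * ‖aCoef Ω χ' (χ'.q (χ.σ p))‖ := by
    have h1 := congrArg norm hcoef
    rw [norm_mul, norm_mul, norm_pow, norm_pow] at h1
    exact h1
  have hroot : (‖c‖ ^ j * ‖aCoef Ω χ p‖) ^ (1 / (m : ℝ)) =
      (‖jac (fun y => χ'.q (χ.σ y)) p‖ ^ m * ‖aCoef Ω χ' (χ'.q (χ.σ p))‖) ^ (1 / (m : ℝ)) := by
    rw [hnorm]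
  rw [Real.mul_rpow (by positivity) (norm_nonneg _), Real.mul_rpow (by positivity) (norm_nonneg _),
    ← Real.rpow_natCast ‖c‖ j, ← Real.rpow_natCast ‖jac (fun y => χ'.q (χ.σ y)) p‖ m,
    ← Real.rpow_mul hcn.le, ← Real.rpow_mul (norm_nonneg _)] at hroot
  have h1 : (m : ℝ) * (1 / (m : ℝ)) = 1 := by
    field_simp
  have h2 : (j : ℝ) * (1 / (m : ℝ)) = (j : ℝ) / m := by ring
  rw [h1, h2, Real.rpow_one] at hroot
  unfold ACoef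
  have h3 : ‖χ.σ p‖ = ‖c‖ * ‖χ'.σ (χ'.q (χ.σ p))‖ := by
    conv_lhs => rw [hx]
    rw [norm_smul]
  rw [h3, Real.mul_rpow hcn.le (norm_nonneg _)]
  calc ‖aCoef Ω χ p‖ ^ (1 / (m : ℝ)) * (‖c‖ ^ ((j : ℝ) / m) * ‖χ'.σ (χ'.q (χ.σ p))‖ ^ ((j : ℝ) / m))
      = (‖c‖ ^ ((j : ℝ) / m) * ‖aCoef Ω χ p‖ ^ (1 / (m : ℝ))) *
          ‖χ'.σ (χ'.q (χ.σ p))‖ ^ ((j : ℝ) / m) := by ring
    _ = ‖jac (fun y => χ'.q (χ.σ y)) p‖ * ‖aCoef Ω χ' (χ'.q (χ.σ p))‖ ^ (1 / (m : ℝ)) *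
          ‖χ'.σ (χ'.q (χ.σ p))‖ ^ ((j : ℝ) / m) := by rw [hroot]
    _ = _ := by ring

end Pool.Agent.H14.PP

end

section

/-!
# BPm GDef: the metric

`nearG i` is the metric of the chart `χ i`, restricted to `‖q‖ ≤ 1`, `rho ≤ δ`;
`pieceG none` is the far piece, `pieceG (some i) = c₁ * nearG i`, `GG` the maximum of the pieces (a
supremum over the finite nonempty type `Option (Fin n)`).
-/

open Topology Filter Metric

namespace Pool.Agent.H14.PP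

open Pool.Agent.H36.BP

variable {N : ℕ} {W : Type*} [NormedAddCommGroup W] [InnerProductSpace ℂ W]
  {X K T : Set (EN N)} {m j : ℕ}

section defs

variable (Ω : Form K m j) {n : ℕ} (χ : Fin n → Chart X) (nd : Fin n → Bool) (P : Par)
  (Q : EN N → W) (D M' : ℕ) (δ c₁ : ℝ)

open Classical in
/-- The metric of the chart `i`. -/
noncomputable def nearG (i : Fin n) (x v : EN N) : ℝ :=
  if x ∈ X ∧ x ∈ (χ i).U ∧ ‖(χ i).q x‖ ≤ 1 ∧ rho Q D x ≤ δ then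
    ACoef Ω (χ i) ((χ i).q x) * pM (nd i) P ((χ i).q x) (fderiv ℂ (χ i).q x v)
  else 0

/-- The pieces. -/
noncomputable def pieceG (k : Option (Fin n)) (x v : EN N) : ℝ :=
  match k with
  | none => rho Q D x ^ M' * fs x v
  | some i => c₁ * nearG Ω χ nd P Q D δ i x v

/-- The metric. -/
noncomputable def GG (x v : EN N) : ℝ := ⨆ k, pieceG Ω χ nd P Q D M' δ c₁ k x v

end defs

variable {Ω : Form K m j} {n : ℕ} {χ : Fin n → Chart X} {nd : Fin n → Bool} {P : Par}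
  {Q : EN N → W} {D M' : ℕ} {δ c₁ : ℝ}

theorem pieceG_le_GG (k : Option (Fin n)) (x v : EN N) :
    pieceG Ω χ nd P Q D M' δ c₁ k x v ≤ GG Ω χ nd P Q D M' δ c₁ x v :=
  le_ciSup (f := fun k => pieceG Ω χ nd P Q D M' δ c₁ k x v) (Set.finite_range _).bddAbove k

theorem exists_GG_eq (x v : EN N) :
    ∃ k, GG Ω χ nd P Q D M' δ c₁ x v = pieceG Ω χ nd P Q D M' δ c₁ k x v := by
  obtain ⟨k, hk⟩ := exists_eq_ciSup_of_finite (f := fun k => pieceG Ω χ nd P Q D M' δ c₁ k x v)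
  exact ⟨k, hk.symm⟩

theorem nearG_of_mem {i : Fin n} {x : EN N} (h1 : x ∈ X) (h2 : x ∈ (χ i).U)
    (h3 : ‖(χ i).q x‖ ≤ 1) (h4 : rho Q D x ≤ δ) (v : EN N) : nearG Ω χ nd P Q D δ i x v =
      ACoef Ω (χ i) ((χ i).q x) * pM (nd i) P ((χ i).q x) (fderiv ℂ (χ i).q x v) := by
  unfold nearG
  rw [if_pos ⟨h1, h2, h3, h4⟩]

theorem mem_of_nearG_pos {i : Fin n} {x v : EN N} (h : 0 < nearG Ω χ nd P Q D δ i x v) :
    x ∈ X ∧ x ∈ (χ i).U ∧ ‖(χ i).q x‖ ≤ 1 ∧ rho Q D x ≤ δ := by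
  unfold nearG at h
  split_ifs at h with h1
  · exact h1
  · exact absurd h (lt_irrefl 0)

theorem GG_nonneg (x v : EN N) : 0 ≤ GG Ω χ nd P Q D M' δ c₁ x v :=
  (mul_nonneg (pow_nonneg (rho_nonneg _ _ _) _) (fs_nonneg x v)).trans
    (pieceG_le_GG (Ω := Ω) (χ := χ) (nd := nd) (P := P) (Q := Q) (D := D) (M' := M') (δ := δ)
      (c₁ := c₁) none x v)

end Pool.Agent.H14.PP

end
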