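import Mathlib

/-! The parts of this file: H17BP.Div, MQ.FDefs, MQ.SNLoc. -/

section

/-!
# Division of an analytic function by a coordinate

`f : ℂ × ℂ → E` analytic at `0`, `f (0, y) = 0` for small `y`: then `f x = x.1 • g x` near `0` with `g` analytic
at `0`.

Proof.  Let `HasFPowerSeriesOnBall f p 0 r`.  The function `y ↦ f (0, y)` has the power series
`p.compContinuousLinearMap (inr)`, so (uniqueness in one variable, `HasFPowerSeriesAt.eq_zero` or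
`HasFPowerSeriesAt.apply_eq_zero`) `p n (fun _ => (0, y)) = 0` for all `n, y`.  Let `π w = (0, w.2)`, `e = (1, 0)`.
For `w = (x, y)` telescoping in the arguments gives
`p (n+1) (w, …, w) = p (n+1) (w, …, w) - p (n+1) (π w, …, π w)
  = ∑_{k ≤ n} x • p (n+1) (π w, …, π w [k times], e, w, …, w)` because `w - π w = x e`.
Define `q n (v_1, …, v_n) = ∑_{k ≤ n} p (n+1) (π v_1, …, π v_k, e, v_{k+1}, …, v_n)`; then
`‖q n‖ ≤ (n+1) ‖p (n+1)‖ C ^ (n+1)` with a constant `C` for `‖π‖, ‖e‖`, so `q` has positive radius and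
`g x = ∑ q n (x, …, x)` is analytic at `0` and `f x = x.1 • g x`.

Other possible proofs are fine: e.g. as a parameter integral, or one first proves
`HasFPowerSeriesAt` for `∑ a_{ij} x^i y^j` with `‖a_{ij}‖ ≤ C r^(-i-j)`; or (shorter) use the mean value form
`g x = ∫ t in 0..1, fderiv ℂ f (t x.1, x.2) (1, 0)`: on a small ball the power series of `fderiv f` (evaluated at
`(1,0)`) is composed with the linear map `(t x.1, x.2)` and integrated term by term: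
`q n = ∫ t in 0..1, (p' n).compContinuousLinearMap (L_t)` (Bochner integral of continuous multilinear maps),
`‖q n‖ ≤ sup ‖p' n‖ C ^ n`, and `HasFPowerSeriesOnBall` for `g` by `intervalIntegral` of a uniformly convergent
series (`hasSum_integral_of_summable_norm` / `tendstoUniformlyOn`), and `f x - f (0, x.2) = x.1 • g x` is the
fundamental theorem of calculus along the segment.
-/

open Topology Filter

noncomputable section

namespace Pool.Agent.H17BP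

variable {E : Type} [NormedAddCommGroup E] [NormedSpace ℂ E] [CompleteSpace E]

/-- the linear map `(x, y) ↦ (t x, y)` -/
private def Div_L (t : ℝ) : ℂ × ℂ →L[ℂ] ℂ × ℂ :=
  ((t : ℂ) • ContinuousLinearMap.fst ℂ ℂ ℂ).prod (ContinuousLinearMap.snd ℂ ℂ ℂ)

private theorem Div_L_apply (t : ℝ) (w : ℂ × ℂ) : Div_L t w = ((t : ℂ) * w.1, w.2) := rfl

private theorem Div_L_eq (t : ℝ) : Div_L t =
    (t : ℂ) • ((ContinuousLinearMap.fst ℂ ℂ ℂ).prod (0 : ℂ × ℂ →L[ℂ] ℂ)) +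
      (0 : ℂ × ℂ →L[ℂ] ℂ).prod (ContinuousLinearMap.snd ℂ ℂ ℂ) := by
  apply ContinuousLinearMap.ext
  intro w
  rw [Div_L_apply]
  apply Prod.ext
  · simp
  · simp

private theorem Div_L_cont : Continuous Div_L := by
  have h : Div_L = fun t : ℝ =>
      (t : ℂ) • ((ContinuousLinearMap.fst ℂ ℂ ℂ).prod (0 : ℂ × ℂ →L[ℂ] ℂ)) +
      (0 : ℂ × ℂ →L[ℂ] ℂ).prod (ContinuousLinearMap.snd ℂ ℂ ℂ) := funext Div_L_eq
  rw [h]
  exact (Complex.continuous_ofReal.smul continuous_const).add continuous_const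

private theorem Div_norm_L_apply {t : ℝ} (h0 : 0 ≤ t) (h1 : t ≤ 1) (w : ℂ × ℂ) :
    ‖Div_L t w‖ ≤ ‖w‖ := by
  rw [Div_L_apply, Prod.norm_def, Prod.norm_def]
  refine max_le_max ?_ le_rfl
  rw [norm_mul, Complex.norm_real, Real.norm_of_nonneg h0]
  exact mul_le_of_le_one_left (norm_nonneg _) h1

private theorem Div_norm_L {t : ℝ} (h0 : 0 ≤ t) (h1 : t ≤ 1) : ‖Div_L t‖ ≤ 1 := by
  refine ContinuousLinearMap.opNorm_le_bound _ zero_le_one fun w => ?_
  rw [one_mul]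
  exact Div_norm_L_apply h0 h1 w

/-- the `n`-th term after composition with `Div_L t` -/
private def Div_A {n : ℕ} (P : ContinuousMultilinearMap ℂ (fun _ : Fin n => ℂ × ℂ) E) (t : ℝ) :
    ContinuousMultilinearMap ℂ (fun _ : Fin n => ℂ × ℂ) E :=
  P.compContinuousLinearMap (fun _ => Div_L t)

omit [CompleteSpace E] in
private theorem Div_A_cont {n : ℕ}
    (P : ContinuousMultilinearMap ℂ (fun _ : Fin n => ℂ × ℂ) E) : Continuous (Div_A P) := by
  have h : Div_A P = fun t => P.compContinuousLinearMapLRight (E := fun _ : Fin n => ℂ × ℂ)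
      (fun _ => Div_L t) := rfl
  rw [h]
  exact (P.compContinuousLinearMapLRight (E := fun _ : Fin n => ℂ × ℂ)).cont.comp
    (continuous_pi fun _ => Div_L_cont)

omit [CompleteSpace E] in
private theorem Div_norm_A {n : ℕ} (P : ContinuousMultilinearMap ℂ (fun _ : Fin n => ℂ × ℂ) E)
    {t : ℝ} (h0 : 0 ≤ t) (h1 : t ≤ 1) : ‖Div_A P t‖ ≤ ‖P‖ := by
  refine (ContinuousMultilinearMap.norm_compContinuousLinearMap_le _ _).trans ?_
  refine mul_le_of_le_one_right (norm_nonneg _) ?_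
  exact Finset.prod_le_one (fun _ _ => norm_nonneg _) fun _ _ => Div_norm_L h0 h1

/-- the series of the quotient -/
private def Div_q (Q : FormalMultilinearSeries ℂ (ℂ × ℂ) E) : FormalMultilinearSeries ℂ (ℂ × ℂ) E :=
  fun n => ∫ t in (0 : ℝ)..1, Div_A (Q n) t

omit [CompleteSpace E] in
private theorem Div_norm_q (Q : FormalMultilinearSeries ℂ (ℂ × ℂ) E) (n : ℕ) :
    ‖Div_q Q n‖ ≤ ‖Q n‖ := by
  have h := intervalIntegral.norm_integral_le_of_norm_le_const (a := (0 : ℝ)) (b := 1)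
    (f := Div_A (Q n)) (C := ‖Q n‖) (fun t ht => by
      rw [Set.uIoc_of_le zero_le_one] at ht
      exact Div_norm_A (Q n) ht.1.le ht.2)
  rw [sub_zero, abs_one, mul_one] at h
  exact h

private theorem Div_q_apply (Q : FormalMultilinearSeries ℂ (ℂ × ℂ) E) (n : ℕ) (w : ℂ × ℂ) :
    Div_q Q n (fun _ => w) = ∫ t in (0 : ℝ)..1, Q n (fun _ => Div_L t w) := by
  have h := (ContinuousMultilinearMap.apply ℂ (fun _ : Fin n => ℂ × ℂ) E
    (fun _ => w)).intervalIntegral_comp_comm (a := (0 : ℝ)) (b := 1) (μ := MeasureTheory.volume)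
    (f := Div_A (Q n)) ((Div_A_cont (Q n)).intervalIntegrable 0 1)
  exact h.symm

/-- the sum of the series of the quotient is the parameter integral -/
private theorem Div_sum {D : ℂ × ℂ → E} {Q : FormalMultilinearSeries ℂ (ℂ × ℂ) E} {r : ENNReal}
    (hQ : HasFPowerSeriesOnBall D Q 0 r) {w : ℂ × ℂ} (hw : w ∈ Metric.eball (0 : ℂ × ℂ) r) :
    HasSum (fun n => Div_q Q n (fun _ => w)) (∫ t in (0 : ℝ)..1, D (Div_L t w)) := by
  have hwr : (‖w‖₊ : ENNReal) < Q.radius := by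
    have h1 : (‖w‖₊ : ENNReal) < r := by
      have := Metric.mem_eball.1 hw
      rwa [edist_zero_right] at this
    exact lt_of_lt_of_le h1 hQ.r_le
  have hsum : Summable fun n => ‖Q n‖ * (‖w‖₊ : ℝ) ^ n := Q.summable_norm_mul_pow hwr
  simp only [Div_q_apply]
  refine intervalIntegral.hasSum_integral_of_dominated_convergence
    (fun n _ => ‖Q n‖ * (‖w‖₊ : ℝ) ^ n) ?_ ?_ ?_ ?_ ?_
  · intro n
    have hc : Continuous fun t : ℝ => Q n (fun _ => Div_L t w) := by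
      refine (Q n).cont.comp (continuous_pi fun _ => ?_)
      exact Div_L_cont.clm_apply continuous_const
    exact hc.aestronglyMeasurable
  · intro n
    refine Filter.Eventually.of_forall fun t ht => ?_
    rw [Set.uIoc_of_le zero_le_one] at ht
    refine ((Q n).le_opNorm _).trans ?_
    refine mul_le_mul_of_nonneg_left ?_ (norm_nonneg _)
    rw [Finset.prod_const, Finset.card_univ, Fintype.card_fin, coe_nnnorm]
    exact pow_le_pow_left₀ (norm_nonneg _) (Div_norm_L_apply ht.1.le ht.2 w) n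
  · exact Filter.Eventually.of_forall fun t _ => hsum
  · exact intervalIntegrable_const
  · refine Filter.Eventually.of_forall fun t ht => ?_
    rw [Set.uIoc_of_le zero_le_one] at ht
    have hm : Div_L t w ∈ Metric.eball (0 : ℂ × ℂ) r := by
      rw [Metric.mem_eball, edist_zero_right] at hw ⊢
      refine lt_of_le_of_lt ?_ hw
      rw [← ofReal_norm, ← ofReal_norm]
      exact ENNReal.ofReal_le_ofReal (Div_norm_L_apply ht.1.le ht.2 w)
    have h := hQ.hasSum hm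
    rw [zero_add] at h
    exact h

theorem exists_div_x {f : ℂ × ℂ → E} (hf : AnalyticAt ℂ f 0) (h : ∀ᶠ y in 𝓝 (0 : ℂ), f (0, y) = 0) :
    ∃ g : ℂ × ℂ → E, AnalyticAt ℂ g 0 ∧ ∀ᶠ x in 𝓝 (0 : ℂ × ℂ), f x = x.1 • g x := by
  obtain ⟨p, r, hp⟩ := hf
  have hD := (ContinuousLinearMap.apply ℂ E ((1 : ℂ), (0 : ℂ))).comp_hasFPowerSeriesOnBall hp.fderiv
  set Q : FormalMultilinearSeries ℂ (ℂ × ℂ) E :=
    (ContinuousLinearMap.apply ℂ E ((1 : ℂ), (0 : ℂ))).compFormalMultilinearSeries p.derivSeries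
    with hQdef
  set D : ℂ × ℂ → E := (ContinuousLinearMap.apply ℂ E ((1 : ℂ), (0 : ℂ))) ∘ fderiv ℂ f with hDdef
  have hrad : Q.radius ≤ (Div_q Q).radius := FormalMultilinearSeries.radius_le_of_le (Div_norm_q Q)
  have hpos : 0 < (Div_q Q).radius := lt_of_lt_of_le (lt_of_lt_of_le hD.r_pos hD.r_le) hrad
  have hg := (Div_q Q).hasFPowerSeriesOnBall hpos
  refine ⟨(Div_q Q).sum, hg.analyticAt, ?_⟩
  have h2 : ∀ᶠ w in 𝓝 (0 : ℂ × ℂ), f (0, w.2) = 0 := by
    have h3 : Tendsto (fun w : ℂ × ℂ => w.2) (𝓝 (0 : ℂ × ℂ)) (𝓝 (0 : ℂ)) :=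
      continuous_snd.tendsto' _ _ rfl
    exact h3.eventually h
  filter_upwards [Metric.eball_mem_nhds (0 : ℂ × ℂ) hp.r_pos, h2] with w hw hw0
  have hball : ∀ t ∈ Set.uIcc (0 : ℝ) 1, Div_L t w ∈ Metric.eball (0 : ℂ × ℂ) r := by
    intro t ht
    rw [Set.uIcc_of_le zero_le_one] at ht
    rw [Metric.mem_eball, edist_zero_right] at hw ⊢
    refine lt_of_le_of_lt ?_ hw
    rw [← ofReal_norm, ← ofReal_norm]
    exact ENNReal.ofReal_le_ofReal (Div_norm_L_apply ht.1 ht.2 w)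
  have hsum : (Div_q Q).sum w = ∫ t in (0 : ℝ)..1, D (Div_L t w) :=
    (Div_sum hD hw).tsum_eq
  have hderiv : ∀ t ∈ Set.uIcc (0 : ℝ) 1,
      HasDerivAt (fun t : ℝ => f (Div_L t w)) (w.1 • D (Div_L t w)) t := by
    intro t ht
    have e1 : HasFDerivAt f (fderiv ℂ f (Div_L t w)) (Div_L t w) :=
      (hp.analyticAt_of_mem (hball t ht)).differentiableAt.hasFDerivAt
    have e2 : HasDerivAt (fun t : ℝ => Div_L t w) ((w.1, 0) : ℂ × ℂ) t := by
      have e3 : HasDerivAt (fun t : ℝ => (t : ℂ) * w.1) (1 * w.1) t :=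
        (Complex.ofRealCLM.hasDerivAt (x := t)).mul_const w.1
      rw [one_mul] at e3
      exact e3.prodMk (hasDerivAt_const t w.2)
    have e4 := (e1.restrictScalars ℝ).comp_hasDerivAt t e2
    have e5 : ((fderiv ℂ f (Div_L t w)).restrictScalars ℝ) ((w.1, 0) : ℂ × ℂ) =
        w.1 • D (Div_L t w) := by
      have e6 : ((w.1, 0) : ℂ × ℂ) = w.1 • ((1 : ℂ), (0 : ℂ)) := by
        rw [Prod.smul_mk, smul_eq_mul, smul_eq_mul, mul_one, mul_zero]
      rw [ContinuousLinearMap.coe_restrictScalars', e6, map_smul]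
      rfl
    rw [e5] at e4
    exact e4
  have hcont : ContinuousOn (fun t : ℝ => w.1 • D (Div_L t w)) (Set.uIcc 0 1) := by
    refine ContinuousOn.const_smul ?_ _
    refine hD.continuousOn.comp ?_ hball
    exact (Div_L_cont.clm_apply continuous_const).continuousOn
  have hftc := intervalIntegral.integral_eq_sub_of_hasDerivAt hderiv hcont.intervalIntegrable
  rw [intervalIntegral.integral_smul] at hftc
  rw [hsum, hftc]
  have e7 : Div_L 1 w = w := by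
    rw [Div_L_apply, Complex.ofReal_one, one_mul]
  have e8 : Div_L 0 w = (0, w.2) := by
    rw [Div_L_apply, Complex.ofReal_zero, zero_mul]
  rw [e7, e8, hw0, sub_zero]

/-- The same with the second variable (apply `exists_div_x` to `f ∘ Prod.swap`). -/
theorem exists_div_y {f : ℂ × ℂ → E} (hf : AnalyticAt ℂ f 0) (h : ∀ᶠ x in 𝓝 (0 : ℂ), f (x, 0) = 0) :
    ∃ g : ℂ × ℂ → E, AnalyticAt ℂ g 0 ∧ ∀ᶠ x in 𝓝 (0 : ℂ × ℂ), f x = x.2 • g x := by
  have hs : AnalyticAt ℂ (fun w : ℂ × ℂ => (w.2, w.1)) 0 := analyticAt_snd.prod analyticAt_fst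
  have hf' : AnalyticAt ℂ (fun w : ℂ × ℂ => f (w.2, w.1)) 0 := by
    refine AnalyticAt.fun_comp (g := f) (f := fun w : ℂ × ℂ => (w.2, w.1)) ?_ hs
    exact hf
  obtain ⟨g, hg, hfg⟩ := exists_div_x (f := fun w : ℂ × ℂ => f (w.2, w.1)) hf' h
  refine ⟨fun w => g (w.2, w.1), ?_, ?_⟩
  · refine AnalyticAt.fun_comp (g := g) (f := fun w : ℂ × ℂ => (w.2, w.1)) ?_ hs
    exact hg
  · have ht : Tendsto (fun w : ℂ × ℂ => (w.2, w.1)) (𝓝 (0 : ℂ × ℂ)) (𝓝 (0 : ℂ × ℂ)) :=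
      (continuous_snd.prodMk continuous_fst).tendsto' _ _ rfl
    exact ht.eventually hfg

end Pool.Agent.H17BP

end
end

section

/-!
# MQ FDefs: reduced foliations

`P` is the ideal of a smooth projective surface in `ℙ^M`, `X = coneE P` its cone.  A foliation is a set `FF` of pairs `(x, v)`, `x ∈ X`, `v` a vector
at `x`: the tangent vectors of the leaves.  Near every point it is given, in a chart `σ`, by a holomorphic vector field with an isolated zero which is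
reduced in the sense of Seidenberg, in the normal form of Briot-Bouquet and Dulac.
-/

set_option autoImplicit false

open Topology Filter MvPolynomial Asymptotics

noncomputable section

namespace Pool.Agent.MQ

variable {M : ℕ}

/-- the polynomial `∑ i ≤ J, c i * t ^ i` -/
def jet (c : ℕ → ℂ) (J : ℕ) (t : ℂ) : ℂ := ∑ i ∈ Finset.range (J + 1), c i * t ^ i

end Pool.Agent.MQ

end
end

section

/-!
# MQ/SNLoc: saddle-nodes, local estimates near the formal weak separatrix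

`v = (x ^ (k + 1) a, b)`, `Y = y - jet c J x`.
-/

set_option autoImplicit false

open Topology Filter Asymptotics Complex Set

noncomputable section

namespace Pool.Agent.MQ

/-- `div v - ε x ^ k a` for `v = (x ^ (k + 1) a, b)` -/
def dlt (k : ℕ) (a b : ℂ × ℂ → ℂ) (ε : ℂ) (p : ℂ × ℂ) : ℂ :=
  (k + 1 - ε) * (p.1 ^ k * a p) + p.1 ^ (k + 1) * fderiv ℂ a p (1, 0) + fderiv ℂ b p (0, 1)

/-- the derivative of `Y = y - jet c J x` along `v` -/
def yv (k : ℕ) (a b : ℂ × ℂ → ℂ) (c : ℕ → ℂ) (J : ℕ) (p : ℂ × ℂ) : ℂ :=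
  b p - deriv (jet c J) p.1 * (p.1 ^ (k + 1) * a p)

theorem jet_differentiable (c : ℕ → ℂ) (J : ℕ) : Differentiable ℂ (jet c J) := by
  unfold jet
  fun_prop

theorem jet_analytic (c : ℕ → ℂ) (J : ℕ) (x : ℂ) : AnalyticAt ℂ (jet c J) x :=
  (jet_differentiable c J).analyticAt x

theorem jet_zero {c : ℕ → ℂ} (hc : c 0 = 0) (J : ℕ) : jet c J 0 = 0 := by
  unfold jet
  refine Finset.sum_eq_zero fun i _ => ?_
  rcases Nat.eq_zero_or_pos i with h | h
  · rw [h, hc, zero_mul]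
  · rw [zero_pow h.ne', mul_zero]

theorem div_eq_dlt {k : ℕ} {a b : ℂ × ℂ → ℂ} {p : ℂ × ℂ} (ha : DifferentiableAt ℂ a p) (ε : ℂ) :
    fderiv ℂ (fun p : ℂ × ℂ => p.1 ^ (k + 1) * a p) p (1, 0) + fderiv ℂ b p (0, 1) - ε * (p.1 ^ k * a p) = dlt k a b ε p := by
  have h1 : HasFDerivAt (fun p : ℂ × ℂ => p.1) (ContinuousLinearMap.fst ℂ ℂ ℂ) p := hasFDerivAt_fst
  have h2 : HasFDerivAt (fun p : ℂ × ℂ => p.1 ^ (k + 1) * a p)
      (p.1 ^ (k + 1) • fderiv ℂ a p + a p • ((k + 1) • p.1 ^ (k + 1 - 1)) • ContinuousLinearMap.fst ℂ ℂ ℂ) p :=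
    (h1.pow (k + 1)).mul ha.hasFDerivAt
  have h3 : fderiv ℂ (fun p : ℂ × ℂ => p.1 ^ (k + 1) * a p) p (1, 0) = p.1 ^ (k + 1) * fderiv ℂ a p (1, 0) + (k + 1) * (p.1 ^ k * a p) := by
    rw [h2.fderiv]
    simp
    ring
  rw [h3, dlt]
  ring

/-- the tube around the formal curve -/
theorem tube_small {c : ℕ → ℂ} (hc : c 0 = 0) (J : ℕ) {n : ℕ} (hn : 1 ≤ n) {U : Set (ℂ × ℂ)} (hU : U ∈ 𝓝 (0 : ℂ × ℂ)) :
    ∀ᶠ ρ in 𝓝[>] (0 : ℝ), ∀ p : ℂ × ℂ, ‖p.1‖ ≤ 2 * ρ → ‖p.2 - jet c J p.1‖ ≤ ρ ^ n → p ∈ U := by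
  obtain ⟨r, hr, hrU⟩ := Metric.mem_nhds_iff.1 hU
  have h1 : Tendsto (jet c J) (𝓝 0) (𝓝 0) := by
    have := (jet_differentiable c J).continuous.tendsto 0
    rwa [jet_zero hc] at this
  obtain ⟨r1, hr1, h1'⟩ := Metric.mem_nhds_iff.1 (h1 (Metric.ball_mem_nhds (0 : ℂ) (half_pos hr)))
  have h2 : ∀ᶠ ρ in 𝓝[>] (0 : ℝ), ρ < min (min (r / 2) (r1 / 2)) (min (1 / 2) (r / 4)) :=
    nhdsWithin_le_nhds (Iio_mem_nhds (by positivity))
  filter_upwards [h2, self_mem_nhdsWithin] with ρ hρ hρ0 p hp1 hp2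
  have hρ0' : 0 < ρ := hρ0
  have e1 : ρ < r / 2 := hρ.trans_le ((min_le_left _ _).trans (min_le_left _ _))
  have e2 : ρ < r1 / 2 := hρ.trans_le ((min_le_left _ _).trans (min_le_right _ _))
  have e3 : ρ < 1 / 2 := hρ.trans_le ((min_le_right _ _).trans (min_le_left _ _))
  have e4 : ρ < r / 4 := hρ.trans_le ((min_le_right _ _).trans (min_le_right _ _))
  apply hrU
  have hx : ‖p.1‖ < r1 := by linarith
  have hj : jet c J p.1 ∈ Metric.ball (0 : ℂ) (r / 2) := h1' (by simpa using hx)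
  have hj' : ‖jet c J p.1‖ < r / 2 := by simpa using hj
  have hn' : ρ ^ n ≤ ρ := by
    calc ρ ^ n ≤ ρ ^ 1 := pow_le_pow_of_le_one hρ0'.le (by linarith) hn
      _ = ρ := pow_one _
  have hy : ‖p.2‖ < r := by
    have h3 : p.2 = (p.2 - jet c J p.1) + jet c J p.1 := by ring
    rw [h3]
    refine (norm_add_le _ _).trans_lt ?_
    linarith
  rw [Metric.mem_ball, dist_zero_right]
  exact max_lt (by linarith) hy

/-- a function which is analytic at `0` does not vary much in the second variable -/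
theorem analytic_lip {A : ℂ × ℂ → ℂ} (hA : AnalyticAt ℂ A 0) :
    ∃ K : ℝ, 0 ≤ K ∧ ∃ r : ℝ, 0 < r ∧ ∀ p ∈ Metric.ball (0 : ℂ × ℂ) r, ∀ q ∈ Metric.ball (0 : ℂ × ℂ) r, ‖A p - A q‖ ≤ K * ‖p - q‖ := by
  obtain ⟨K, t, ht, hL⟩ := (hA.contDiffAt (n := 1)).exists_lipschitzOnWith
  obtain ⟨r, hr, hrt⟩ := Metric.mem_nhds_iff.1 ht
  refine ⟨K, K.2, r, hr, fun p hp q hq => ?_⟩
  have := hL.dist_le_mul p (hrt hp) q (hrt hq)
  rwa [dist_eq_norm, dist_eq_norm] at this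

theorem analytic_bdd {A : ℂ × ℂ → ℂ} (hA : AnalyticAt ℂ A 0) :
    ∃ M : ℝ, 0 < M ∧ ∀ᶠ p in 𝓝 (0 : ℂ × ℂ), ‖A p‖ ≤ M := by
  refine ⟨‖A 0‖ + 1, by positivity, ?_⟩
  have h : Tendsto (fun p => ‖A p‖) (𝓝 0) (𝓝 ‖A 0‖) := hA.continuousAt.norm
  filter_upwards [h (Iio_mem_nhds (lt_add_one ‖A 0‖))] with p hp using le_of_lt hp

/-- the principal part of `x ^ (k + 1) z'` -/
def DD (α : ℕ → ℂ) (k : ℕ) (x : ℂ) : ℂ := ∑ i ∈ Finset.range k, α i * x ^ i

/-- `x ^ k z` -/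
def PP (α : ℕ → ℂ) (k : ℕ) (x : ℂ) : ℂ := -∑ i ∈ Finset.range k, α i / ((k : ℂ) - i) * x ^ i

theorem DD_differentiable (α : ℕ → ℂ) (k : ℕ) : Differentiable ℂ (DD α k) := by
  unfold DD
  fun_prop

theorem PP_differentiable (α : ℕ → ℂ) (k : ℕ) : Differentiable ℂ (PP α k) := by
  unfold PP
  fun_prop

theorem PP_deriv (α : ℕ → ℂ) (k : ℕ) (x : ℂ) : x * deriv (PP α k) x - k * PP α k x = DD α k x := by
  have h : HasDerivAt (PP α k) (-∑ i ∈ Finset.range k, α i / ((k : ℂ) - i) * (i * x ^ (i - 1))) x := by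
    unfold PP
    refine (HasDerivAt.fun_sum fun i _ => ?_).neg
    exact (hasDerivAt_pow i x).const_mul _
  rw [h.deriv, PP, DD, mul_neg, mul_neg, sub_neg_eq_add, Finset.mul_sum, Finset.mul_sum, ← Finset.sum_neg_distrib, ← Finset.sum_add_distrib]
  refine Finset.sum_congr rfl fun i hi => ?_
  have hi' : (k : ℂ) - i ≠ 0 := by
    have h1 : i < k := Finset.mem_range.1 hi
    intro h0
    have h2 : (k : ℂ) = i := sub_eq_zero.1 h0
    have h3 : k = i := by exact_mod_cast h2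
    omega
  have hx : x * (i * x ^ (i - 1)) = i * x ^ i := by
    rcases Nat.eq_zero_or_pos i with h0 | h0
    · rw [h0]; simp
    · obtain ⟨j, rfl⟩ : ∃ j, i = j + 1 := ⟨i - 1, by omega⟩
      simp only [Nat.add_sub_cancel, pow_succ]
      ring
  have e1 : x * (α i / ((k : ℂ) - i) * (i * x ^ (i - 1))) = α i / ((k : ℂ) - i) * (i * x ^ i) := by
    rw [← hx]; ring
  rw [e1]
  field_simp
  ring

theorem DD_zero {α : ℕ → ℂ} {k : ℕ} (hk : 1 ≤ k) : DD α k 0 = α 0 := by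
  unfold DD
  rw [Finset.sum_eq_single_of_mem 0 (by simpa using (by omega : 0 < k))]
  · simp
  · intro i _ hi
    rw [zero_pow hi, mul_zero]

theorem PP_zero {α : ℕ → ℂ} {k : ℕ} (hk : 1 ≤ k) (h0 : α 0 ≠ 0) : PP α k 0 ≠ 0 := by
  intro h
  have h1 := PP_deriv α k 0
  rw [h, zero_mul, mul_zero, sub_zero, DD_zero hk] at h1
  exact h0 h1.symm

theorem taylor_poly {A : ℂ → ℂ} (hA : AnalyticAt ℂ A 0) (k : ℕ) :
    ∃ α : ℕ → ℂ, α 0 = A 0 ∧ (fun x => A x - DD α k x) =O[𝓝 0] fun x : ℂ => x ^ k := by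
  obtain ⟨p, hp⟩ := hA
  refine ⟨p.coeff, ?_, ?_⟩
  · exact hp.coeff_zero 1
  · have h := hp.isBigO_sub_partialSum_pow k
    have e : ∀ x : ℂ, p.partialSum k x = DD p.coeff k x := by
      intro x
      rw [FormalMultilinearSeries.partialSum, DD]
      refine Finset.sum_congr rfl fun i _ => ?_
      rw [FormalMultilinearSeries.apply_eq_pow_smul_coeff, smul_eq_mul, mul_comm]
    have h2 : (fun x => A x - DD p.coeff k x) =O[𝓝 0] fun x : ℂ => ‖x‖ ^ k := by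
      refine h.congr_left fun x => ?_
      rw [zero_add, e]
    refine h2.trans (IsBigO.of_bound 1 (Eventually.of_forall fun x => ?_))
    simp

theorem an_fderiv_apply {a : ℂ × ℂ → ℂ} {p : ℂ × ℂ} (ha : AnalyticAt ℂ a p) (w : ℂ × ℂ) : AnalyticAt ℂ (fun p => fderiv ℂ a p w) p :=
  AnalyticAt.fun_comp (f := fderiv ℂ a) ((ContinuousLinearMap.apply ℂ ℂ w).analyticAt _) ha.fderiv

/-- first estimate: `D a - δ` -/
theorem sn_est1 {k : ℕ} (hk : 1 ≤ k) {a b : ℂ × ℂ → ℂ} (ha : AnalyticAt ℂ a 0) (hb : AnalyticAt ℂ b 0) (ha0 : a 0 ≠ 0)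
    (hb0 : fderiv ℂ b 0 (0, 1) ≠ 0) {c : ℕ → ℂ} (hc : c 0 = 0) (ε : ℂ) :
    ∃ (C : ℝ) (α : ℕ → ℂ), 0 < C ∧ α 0 ≠ 0 ∧ ∀ᶠ p in 𝓝 (0 : ℂ × ℂ),
      ‖DD α k p.1 * a p - dlt k a b ε p‖ ≤ C * (‖p.2 - jet c k p.1‖ + ‖p.1‖ ^ k) := by
  have hda : AnalyticAt ℂ (fun p => fderiv ℂ a p (1, 0)) 0 := an_fderiv_apply ha _
  have hdb : AnalyticAt ℂ (fun p => fderiv ℂ b p (0, 1)) 0 := an_fderiv_apply hb _
  have hδ : AnalyticAt ℂ (dlt k a b ε) 0 := by
    unfold dlt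
    exact (((analyticAt_const).mul ((analyticAt_fst.pow k).mul ha)).add ((analyticAt_fst.pow (k + 1)).mul hda)).add hdb
  have hδ0 : dlt k a b ε 0 ≠ 0 := by
    unfold dlt
    simpa [zero_pow (by omega : k ≠ 0)] using hb0
  have hA : AnalyticAt ℂ (fun p => dlt k a b ε p / a p) 0 := hδ.div ha ha0
  have hjet : AnalyticAt ℂ (fun x : ℂ => (x, jet c k x)) 0 := analyticAt_id.prod (jet_analytic c k 0)
  have hj0 : (fun x : ℂ => (x, jet c k x)) 0 = 0 := by simp [jet_zero hc]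
  have hA1 : AnalyticAt ℂ (fun x : ℂ => dlt k a b ε (x, jet c k x) / a (x, jet c k x)) 0 := by
    have : AnalyticAt ℂ (fun p => dlt k a b ε p / a p) ((fun x : ℂ => (x, jet c k x)) 0) := by rw [hj0]; exact hA
    exact AnalyticAt.fun_comp (f := fun x : ℂ => (x, jet c k x)) this hjet
  obtain ⟨α, hα0, hα⟩ := taylor_poly hA1 k
  obtain ⟨K, hK, r, hr, hL⟩ := analytic_lip hA
  obtain ⟨C1, hC1, h1⟩ := hα.exists_pos
  rw [isBigOWith_iff] at h1
  obtain ⟨M, hM, h2⟩ := analytic_bdd ha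
  have hα0' : α 0 ≠ 0 := by
    rw [hα0, jet_zero hc]
    exact div_ne_zero hδ0 ha0
  have h3 : ∀ᶠ p : ℂ × ℂ in 𝓝 0, ‖dlt k a b ε (p.1, jet c k p.1) / a (p.1, jet c k p.1) - DD α k p.1‖ ≤ C1 * ‖p.1 ^ k‖ := by
    have ht : Tendsto (fun p : ℂ × ℂ => p.1) (𝓝 0) (𝓝 0) := continuous_fst.tendsto 0
    exact ht.eventually h1
  have h4 : ∀ᶠ p : ℂ × ℂ in 𝓝 0, (p.1, jet c k p.1) ∈ Metric.ball (0 : ℂ × ℂ) r := by
    have ht : Tendsto (fun p : ℂ × ℂ => (p.1, jet c k p.1)) (𝓝 0) (𝓝 0) := by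
      have := (continuous_fst.prodMk ((jet_differentiable c k).continuous.comp continuous_fst)).tendsto (0 : ℂ × ℂ)
      simp only [Function.comp_apply, Prod.fst_zero, jet_zero hc] at this
      exact this
    exact ht (Metric.ball_mem_nhds _ hr)
  have h5 : ∀ᶠ p : ℂ × ℂ in 𝓝 0, a p ≠ 0 := ha.continuousAt.eventually_ne ha0
  refine ⟨M * (K + C1), α, by positivity, hα0', ?_⟩
  filter_upwards [h2, h3, h4, h5, Metric.ball_mem_nhds (0 : ℂ × ℂ) hr] with p e2 e3 e4 e5 e6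
  have e7 := hL p e6 _ e4
  have e8 : ‖p - (p.1, jet c k p.1)‖ = ‖p.2 - jet c k p.1‖ := by
    rw [Prod.norm_def]
    simp
  rw [e8] at e7
  have e9 : DD α k p.1 * a p - dlt k a b ε p = -(a p * ((dlt k a b ε p / a p - dlt k a b ε (p.1, jet c k p.1) / a (p.1, jet c k p.1)) +
      (dlt k a b ε (p.1, jet c k p.1) / a (p.1, jet c k p.1) - DD α k p.1))) := by
    field_simp
    ring
  rw [e9, norm_neg, norm_mul]
  have e10 : ‖(dlt k a b ε p / a p - dlt k a b ε (p.1, jet c k p.1) / a (p.1, jet c k p.1)) +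
      (dlt k a b ε (p.1, jet c k p.1) / a (p.1, jet c k p.1) - DD α k p.1)‖ ≤ K * ‖p.2 - jet c k p.1‖ + C1 * ‖p.1 ^ k‖ :=
    (norm_add_le _ _).trans (add_le_add e7 e3)
  rw [norm_pow] at e10
  calc ‖a p‖ * _ ≤ M * (K * ‖p.2 - jet c k p.1‖ + C1 * ‖p.1‖ ^ k) := mul_le_mul e2 e10 (norm_nonneg _) hM.le
    _ ≤ M * (K + C1) * (‖p.2 - jet c k p.1‖ + ‖p.1‖ ^ k) := by
      have h6 : 0 ≤ M * (C1 * ‖p.2 - jet c k p.1‖) := by positivity
      have h7 : 0 ≤ M * (K * ‖p.1‖ ^ k) := by positivity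
      nlinarith

/-- second estimate: `Y' - δ Y`; the constant `C` does not depend on `J` -/
theorem sn_est2 {k : ℕ} {a b : ℂ × ℂ → ℂ} (ha : AnalyticAt ℂ a 0) (hb : AnalyticAt ℂ b 0) {c : ℕ → ℂ} (hc : c 0 = 0) (ε : ℂ) :
    ∃ C : ℝ, 0 < C ∧ ∀ J : ℕ, ∀ᶠ p in 𝓝 (0 : ℂ × ℂ),
      ‖yv k a b c J p - yv k a b c J (p.1, jet c J p.1) - dlt k a b ε p * (p.2 - jet c J p.1)‖ ≤
        C * (‖p.2 - jet c J p.1‖ + ‖p.1‖ ^ k) * ‖p.2 - jet c J p.1‖ := by
  have hda1 : AnalyticAt ℂ (fun p => fderiv ℂ a p (1, 0)) 0 := an_fderiv_apply ha _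
  have hda : AnalyticAt ℂ (fun p => fderiv ℂ a p (0, 1)) 0 := an_fderiv_apply ha _
  have hdb : AnalyticAt ℂ (fun p => fderiv ℂ b p (0, 1)) 0 := an_fderiv_apply hb _
  obtain ⟨M0, hM0, h0⟩ := analytic_bdd ha
  obtain ⟨M1, hM1, h1⟩ := analytic_bdd hda1
  obtain ⟨M2, hM2, h2⟩ := analytic_bdd hda
  obtain ⟨K, hK, r, hr, hL⟩ := analytic_lip hdb
  have h3 : ∀ᶠ p in 𝓝 (0 : ℂ × ℂ), DifferentiableAt ℂ a p ∧ DifferentiableAt ℂ b p := by
    filter_upwards [ha.eventually_analyticAt, hb.eventually_analyticAt] with p e1 e2 using ⟨e1.differentiableAt, e2.differentiableAt⟩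
  obtain ⟨r', hr', hU⟩ := Metric.eventually_nhds_iff_ball.1 (h0.and (h1.and (h2.and h3)))
  refine ⟨2 * K + (‖(k : ℂ) + 1 - ε‖ * M0 + M1 + M2), by positivity, fun J => ?_⟩
  have hcont : Continuous fun p : ℂ × ℂ => jet c J p.1 := (jet_differentiable c J).continuous.comp continuous_fst
  have hdcont : Continuous fun p : ℂ × ℂ => deriv (jet c J) p.1 :=
    ((jet_differentiable c J).contDiff (n := 1)).continuous_deriv le_rfl |>.comp continuous_fst
  have h4 : ∀ᶠ p : ℂ × ℂ in 𝓝 0, ‖p.1‖ * ‖deriv (jet c J) p.1‖ < 1 := by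
    have : Tendsto (fun p : ℂ × ℂ => ‖p.1‖ * ‖deriv (jet c J) p.1‖) (𝓝 0) (𝓝 0) := by
      have hcc : Continuous (fun p : ℂ × ℂ => ‖p.1‖ * ‖deriv (jet c J) p.1‖) := continuous_fst.norm.mul hdcont.norm
      simpa using hcc.tendsto (0 : ℂ × ℂ)
    exact this (Iio_mem_nhds one_pos)
  have h5 : ∀ᶠ p : ℂ × ℂ in 𝓝 0, ‖p.1‖ < min 1 (min r r') := by
    have : Tendsto (fun p : ℂ × ℂ => ‖p.1‖) (𝓝 0) (𝓝 0) := by simpa using (continuous_fst.norm).tendsto (0 : ℂ × ℂ)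
    exact this (Iio_mem_nhds (by positivity))
  have h6 : ∀ᶠ p : ℂ × ℂ in 𝓝 0, ‖jet c J p.1‖ + ‖p.2 - jet c J p.1‖ < min r r' := by
    have : Tendsto (fun p : ℂ × ℂ => ‖jet c J p.1‖ + ‖p.2 - jet c J p.1‖) (𝓝 0) (𝓝 0) := by
      have hcc : Continuous (fun p : ℂ × ℂ => ‖jet c J p.1‖ + ‖p.2 - jet c J p.1‖) := hcont.norm.add (continuous_snd.sub hcont).norm
      simpa [jet_zero hc] using hcc.tendsto (0 : ℂ × ℂ)
    exact this (Iio_mem_nhds (by positivity))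
  filter_upwards [h4, h5, h6] with p e4 e5 e6
  set x := p.1 with hx
  set Y := p.2 - jet c J x with hY
  have hball : ∀ t : ℂ, ‖t‖ ≤ ‖Y‖ → (x, jet c J x + t) ∈ Metric.ball (0 : ℂ × ℂ) (min r r') := by
    intro t ht
    rw [Metric.mem_ball, dist_zero_right, Prod.norm_def]
    refine max_lt (e5.trans_le (min_le_right _ _)) ?_
    refine (norm_add_le _ _).trans_lt ?_
    linarith
  have hp : p = (x, jet c J x + Y) := by
    rw [hY, hx]
    ext <;> simp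
  have hpb : p ∈ Metric.ball (0 : ℂ × ℂ) (min r r') := by
    rw [hp]; exact hball Y le_rfl
  set h : ℂ → ℂ := fun t => yv k a b c J (x, jet c J x + t) - dlt k a b ε p * t with hh
  have hline : ∀ t : ℂ, HasDerivAt (fun t : ℂ => ((x, jet c J x + t) : ℂ × ℂ)) (0, 1) t := by
    intro t
    exact (hasDerivAt_const t x).prodMk ((hasDerivAt_id t).const_add _)
  have hder : ∀ t : ℂ, ‖t‖ ≤ ‖Y‖ → HasDerivAt h (fderiv ℂ b (x, jet c J x + t) (0, 1) -
      deriv (jet c J) x * (x ^ (k + 1) * fderiv ℂ a (x, jet c J x + t) (0, 1)) - dlt k a b ε p) t := by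
    intro t ht
    have hb1 := hball t ht
    obtain ⟨-, -, -, d1, d2⟩ := hU _ (Metric.ball_subset_ball (min_le_right _ _) hb1)
    have g1 : HasDerivAt (fun t => b (x, jet c J x + t)) (fderiv ℂ b (x, jet c J x + t) (0, 1)) t :=
      d2.hasFDerivAt.comp_hasDerivAt t (hline t)
    have g2 : HasDerivAt (fun t => a (x, jet c J x + t)) (fderiv ℂ a (x, jet c J x + t) (0, 1)) t :=
      d1.hasFDerivAt.comp_hasDerivAt t (hline t)
    have g3 := (g1.sub ((g2.const_mul (x ^ (k + 1))).const_mul (deriv (jet c J) x))).sub ((hasDerivAt_id t).const_mul (dlt k a b ε p))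
    rw [mul_one] at g3
    exact g3
  have hbound : ∀ t ∈ Metric.closedBall (0 : ℂ) ‖Y‖, ‖deriv h t‖ ≤ (2 * K + (‖(k : ℂ) + 1 - ε‖ * M0 + M1 + M2)) * (‖Y‖ + ‖x‖ ^ k) := by
    intro t ht
    have ht' : ‖t‖ ≤ ‖Y‖ := by simpa using ht
    rw [(hder t ht').deriv]
    have hb1 := hball t ht'
    obtain ⟨q0, q1, q2, -, -⟩ := hU _ (Metric.ball_subset_ball (min_le_right _ _) hb1)
    obtain ⟨p0, p1, p2, -, -⟩ := hU _ (Metric.ball_subset_ball (min_le_right _ _) hpb)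
    have e7 := hL _ (Metric.ball_subset_ball (min_le_left _ _) hb1) p (Metric.ball_subset_ball (min_le_left _ _) hpb)
    have e8 : ‖(x, jet c J x + t) - p‖ ≤ 2 * ‖Y‖ := by
      rw [hp, Prod.norm_def]
      simp only [Prod.mk_sub_mk, sub_self, norm_zero, add_sub_add_left_eq_sub]
      refine max_le (by positivity) ((norm_sub_le _ _).trans ?_)
      linarith
    have hx1 : ‖x‖ < 1 := e5.trans_le (min_le_left _ _)
    have hxk : 0 ≤ ‖x‖ ^ k := by positivity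
    have hY0 : 0 ≤ ‖Y‖ := norm_nonneg _
    have hdec : fderiv ℂ b (x, jet c J x + t) (0, 1) - deriv (jet c J) x * (x ^ (k + 1) * fderiv ℂ a (x, jet c J x + t) (0, 1)) - dlt k a b ε p =
        (fderiv ℂ b (x, jet c J x + t) (0, 1) - fderiv ℂ b p (0, 1)) - x ^ k * ((x * deriv (jet c J) x) * fderiv ℂ a (x, jet c J x + t) (0, 1)) -
          x ^ k * ((k + 1 - ε) * a p) - x ^ k * (x * fderiv ℂ a p (1, 0)) := by
      rw [dlt, ← hx]
      ring
    rw [hdec]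
    have n1 : ‖fderiv ℂ b (x, jet c J x + t) (0, 1) - fderiv ℂ b p (0, 1)‖ ≤ K * (2 * ‖Y‖) :=
      e7.trans (mul_le_mul_of_nonneg_left e8 hK)
    have n2 : ‖x ^ k * ((x * deriv (jet c J) x) * fderiv ℂ a (x, jet c J x + t) (0, 1))‖ ≤ ‖x‖ ^ k * M2 := by
      rw [norm_mul, norm_pow]
      refine mul_le_mul_of_nonneg_left ?_ hxk
      rw [norm_mul, norm_mul]
      calc ‖x‖ * ‖deriv (jet c J) x‖ * _ ≤ 1 * M2 := mul_le_mul e4.le q2 (norm_nonneg _) zero_le_one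
        _ = M2 := one_mul _
    have n3 : ‖x ^ k * (((k : ℂ) + 1 - ε) * a p)‖ ≤ ‖x‖ ^ k * (‖(k : ℂ) + 1 - ε‖ * M0) := by
      rw [norm_mul, norm_pow]
      refine mul_le_mul_of_nonneg_left ?_ hxk
      rw [norm_mul]
      exact mul_le_mul_of_nonneg_left p0 (norm_nonneg _)
    have n4 : ‖x ^ k * (x * fderiv ℂ a p (1, 0))‖ ≤ ‖x‖ ^ k * M1 := by
      rw [norm_mul, norm_pow]
      refine mul_le_mul_of_nonneg_left ?_ hxk
      rw [norm_mul]
      calc ‖x‖ * _ ≤ 1 * M1 := mul_le_mul hx1.le p1 (norm_nonneg _) zero_le_one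
        _ = M1 := one_mul _
    have n5 := norm_sub_le (fderiv ℂ b (x, jet c J x + t) (0, 1) - fderiv ℂ b p (0, 1) -
      x ^ k * ((x * deriv (jet c J) x) * fderiv ℂ a (x, jet c J x + t) (0, 1)) - x ^ k * ((k + 1 - ε) * a p)) (x ^ k * (x * fderiv ℂ a p (1, 0)))
    have n6 := norm_sub_le (fderiv ℂ b (x, jet c J x + t) (0, 1) - fderiv ℂ b p (0, 1) -
      x ^ k * ((x * deriv (jet c J) x) * fderiv ℂ a (x, jet c J x + t) (0, 1))) (x ^ k * ((k + 1 - ε) * a p))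
    have n7 := norm_sub_le (fderiv ℂ b (x, jet c J x + t) (0, 1) - fderiv ℂ b p (0, 1))
      (x ^ k * ((x * deriv (jet c J) x) * fderiv ℂ a (x, jet c J x + t) (0, 1)))
    have n8 : 0 ≤ (‖(k : ℂ) + 1 - ε‖ * M0 + M1 + M2) * ‖Y‖ := by positivity
    have n9 : 0 ≤ 2 * K * ‖x‖ ^ k := by positivity
    nlinarith
  have hmv := (convex_closedBall (0 : ℂ) ‖Y‖).norm_image_sub_le_of_norm_deriv_le (f := h) (x := 0) (y := Y)
    (fun t ht => (hder t (by simpa using ht)).differentiableAt) hbound (by simp) (by simp)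
  have e9 : h Y - h 0 = yv k a b c J p - yv k a b c J (x, jet c J x) - dlt k a b ε p * Y := by
    simp only [hh, add_zero, mul_zero, sub_zero]
    rw [← hp]
    ring
  rw [e9, sub_zero] at hmv
  exact hmv

end Pool.Agent.MQ

end
end
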