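import Pool.Agent.H94.G6.M08
import Pool.Agent.H94.G6.M21
import Pool.Agent.H94.G6.M23
import Pool.Agent.H94.G6.M27
import Pool.Agent.H94.G6.M29
import Pool.Agent.H94.G6.M31
import Pool.Agent.H94.G6.M33

/-! The parts of this file: H14.PP.NearBounds, H14.PP.RhoChart, MQ.FS_1, MQ.Fub, MQ2.Defs, MQ2.SlopeC. -/

section

/-!
# BPm NearBounds: upper and lower bounds for the metric near `T`

`b` analytic on the bidisc with `b = gD d^(m-1) * aCoef` on `{σ p ∈ K}` (`PoleBound`). For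
`‖p‖ ≤ 1`: `small nd p ≤ ‖gD d p‖ ≤ 1` (`gD d p` is a product of some of the coordinates; if
`d.2 = true` then `nd = true`; if `nd = false` and `d.1 = true` it is `p.1`, `small = ‖p.1‖`).
* Upper bound (`ACoef_le`): `‖aCoef p‖ = ‖b p‖/‖gD d p‖^(m-1) ≤ A/‖gD d p‖^(m-1)`, so
  `ACoef p ≤ C ‖gD d p‖^(-((m-1)/m))` (`‖σ‖` bounded above on the closed bidisc).
* `near_upper`: hence `ACoef p ≤ C small^(-1)`, `rho^2 ≤ C^2 small` (`rho_chart_le`: if `nd = true`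
  `rho ≤ C ‖p.1‖, C ‖p.2‖`; if `nd = false` `rho ≤ C ‖p.1‖` and `‖p.1‖^2 ≤ ‖p.1‖`), and
  `pM ≤ 2 ‖w‖` (`pM_le`). If `small nd p = 0` then `rho = 0` and the left side is `0`.
* `near_lower`: `b p ≠ 0` if `σ p ∉ T` (then `σ p ∈ K`, `gD ≠ 0` because `σ p ∈ K` means no
  `D`-coordinate vanishes, `aCoef_ne_zero`), that is if `p.1 ≠ 0` and (`nd = true → p.2 ≠ 0`). So
  `‖b p‖ ≥ c small^k` (`Pool.Agent.H62.BP.lower_smooth`, `lower_node`), `‖aCoef p‖ ≥ ‖b p‖`,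
  `ACoef p ≥ c' small^k` (`small ≤ 1`, `‖σ‖` bounded below, `1 ≤ m`), and
  `pM nd P p w ≥ small nd p * ‖w‖ * exp (-K-1)` (`le_pM_false`, `le_pM_true`). Finally
  `small ≥ rho^2/C^2`: `M₀ = 2 (k + 1)`.
-/

open Topology Filter Metric

namespace Pool.Agent.H14.PP

open Pool.Agent.H36.BP

variable {N : ℕ} {W : Type*} [NormedAddCommGroup W] [InnerProductSpace ℂ W]
  {X K T : Set (EN N)} {Q : EN N → W} {D m j : ℕ}

/-- the closed bidisc is contained in the bidisc of radius two -/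
theorem NearBounds_mem {p : ℂ × ℂ} (hp : p ∈ closedBall (0 : ℂ × ℂ) 1) :
    p ∈ ball (0 : ℂ × ℂ) 2 ∧ ‖p‖ ≤ 1 ∧ ‖p.1‖ ≤ 1 ∧ ‖p.2‖ ≤ 1 := by
  have h : ‖p‖ ≤ 1 := by simpa using hp
  have h1 : ‖p.1‖ ≤ 1 := (norm_fst_le p).trans h
  have h2 : ‖p.2‖ ≤ 1 := (norm_snd_le p).trans h
  refine ⟨?_, h, h1, h2⟩
  rw [mem_ball_zero_iff]
  linarith

theorem NearBounds_sigma (hX : IsCone X) (χ : Chart X) : ∃ a A : ℝ, 0 < a ∧ 0 < A ∧
    ∀ p ∈ closedBall (0 : ℂ × ℂ) 1, a ≤ ‖χ.σ p‖ ∧ ‖χ.σ p‖ ≤ A := by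
  have hc : IsCompact (closedBall (0 : ℂ × ℂ) 1) := isCompact_closedBall _ _
  have hcont : ContinuousOn (fun p => ‖χ.σ p‖) (closedBall (0 : ℂ × ℂ) 1) := by
    intro p hp
    exact ((χ.σ_an p (NearBounds_mem hp).1).continuousAt.norm).continuousWithinAt
  have hne : (closedBall (0 : ℂ × ℂ) 1).Nonempty := ⟨0, mem_closedBall_self zero_le_one⟩
  obtain ⟨p0, hp0, hmin⟩ := hc.exists_isMinOn hne hcont
  obtain ⟨p1, hp1, hmax⟩ := hc.exists_isMaxOn hne hcont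
  have h0 : 0 < ‖χ.σ p0‖ := norm_pos_iff.2 (χ.sigma_ne_zero hX (NearBounds_mem hp0).1)
  have h1 : 0 < ‖χ.σ p1‖ := norm_pos_iff.2 (χ.sigma_ne_zero hX (NearBounds_mem hp1).1)
  exact ⟨‖χ.σ p0‖, ‖χ.σ p1‖, h0, h1, fun p hp => ⟨hmin hp, hmax hp⟩⟩

theorem NearBounds_gD (χ : Chart X) {d : Bool × Bool} (hd : DType K χ d) {p : ℂ × ℂ}
    (hp : p ∈ closedBall (0 : ℂ × ℂ) 1) (hpK : χ.σ p ∈ K) : 0 < ‖gD d p‖ ∧ ‖gD d p‖ ≤ 1 := by
  obtain ⟨hp2, -, h1, h2⟩ := NearBounds_mem hp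
  have h3 : ¬ ((d.1 = true ∧ p.1 = 0) ∨ (d.2 = true ∧ p.2 = 0)) := fun h => (hd p hp2).2 h hpK
  rw [not_or] at h3
  have e1 : (if d.1 = true then p.1 else 1) ≠ 0 ∧ ‖(if d.1 = true then p.1 else 1)‖ ≤ 1 := by
    split_ifs with h
    · exact ⟨fun h0 => h3.1 ⟨h, h0⟩, h1⟩
    · exact ⟨one_ne_zero, by rw [norm_one]⟩
  have e2 : (if d.2 = true then p.2 else 1) ≠ 0 ∧ ‖(if d.2 = true then p.2 else 1)‖ ≤ 1 := by
    split_ifs with h
    · exact ⟨fun h0 => h3.2 ⟨h, h0⟩, h2⟩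
    · exact ⟨one_ne_zero, by rw [norm_one]⟩
  unfold gD
  refine ⟨norm_pos_iff.2 (mul_ne_zero e1.1 e2.1), ?_⟩
  rw [norm_mul]
  exact mul_le_one₀ e1.2 (norm_nonneg _) e2.2

theorem NearBounds_small {nd : Bool} {d : Bool × Bool} (hdn : d.2 = true → nd = true)
    {p : ℂ × ℂ} (hp : p ∈ closedBall (0 : ℂ × ℂ) 1) :
    0 ≤ small nd p ∧ small nd p ≤ ‖gD d p‖ ∧ small nd p ≤ 1 := by
  obtain ⟨-, -, h1, h2⟩ := NearBounds_mem hp
  obtain ⟨d1, d2⟩ := d
  have n1 := norm_nonneg p.1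
  have n2 := norm_nonneg p.2
  unfold small gD
  dsimp only at hdn ⊢
  cases nd with
  | true =>
    rw [if_pos rfl, norm_mul]
    refine ⟨mul_nonneg n1 n2, ?_, mul_le_one₀ h1 n2 h2⟩
    refine mul_le_mul ?_ ?_ n2 (norm_nonneg _)
    · split_ifs
      · exact le_rfl
      · rw [norm_one]; exact h1
    · split_ifs
      · exact le_rfl
      · rw [norm_one]; exact h2
  | false =>
    have hd2 : d2 = false := by
      cases d2 with
      | true => exact absurd (hdn rfl) (by simp)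
      | false => rfl
    subst hd2
    simp only [Bool.false_eq_true, if_false, mul_one]
    refine ⟨n1, ?_, h1⟩
    split_ifs
    · exact le_rfl
    · rw [norm_one]; exact h1

theorem ACoef_le (hX : IsCone X) (hm : 1 ≤ m) (Ω : Form K m j) (hΩ : Ω.PoleBound X) (χ : Chart X)
    {d : Bool × Bool} (hd : DType K χ d) : ∃ C : ℝ, 0 < C ∧
      ∀ p ∈ closedBall (0 : ℂ × ℂ) 1, χ.σ p ∈ K →
        ACoef Ω χ p ≤ C * ‖gD d p‖ ^ (-(((m : ℝ) - 1) / m)) := by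
  obtain ⟨a, A, ha, hA, hσ⟩ := NearBounds_sigma hX χ
  obtain ⟨b, hb, hbe⟩ := hΩ χ d hd
  have hbc : ContinuousOn b (closedBall (0 : ℂ × ℂ) 1) := fun p hp =>
    (hb p (NearBounds_mem hp).1).continuousAt.continuousWithinAt
  obtain ⟨B, hB⟩ := (isCompact_closedBall (0 : ℂ × ℂ) 1).exists_bound_of_continuousOn hbc
  have hB0 : 0 < |B| + 1 := by positivity
  have hm0 : (0 : ℝ) < m := by exact_mod_cast hm
  refine ⟨(|B| + 1) ^ (1 / (m : ℝ)) * A ^ ((j : ℝ) / m), by positivity, fun p hp hpK => ?_⟩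
  obtain ⟨hg0, hg1⟩ := NearBounds_gD χ hd hp hpK
  have h1 : ‖b p‖ = ‖gD d p‖ ^ (m - 1) * ‖aCoef Ω χ p‖ := by
    rw [hbe p (NearBounds_mem hp).1 hpK, norm_mul, norm_pow]
  have hgm : 0 < ‖gD d p‖ ^ (m - 1) := by positivity
  have h2 : ‖aCoef Ω χ p‖ ≤ (|B| + 1) / ‖gD d p‖ ^ (m - 1) := by
    rw [le_div_iff₀ hgm, mul_comm, ← h1]
    exact (hB p hp).trans ((le_abs_self B).trans (by linarith))
  have h3 : ‖aCoef Ω χ p‖ ^ (1 / (m : ℝ)) ≤ (|B| + 1) ^ (1 / (m : ℝ)) * ‖gD d p‖ ^ (-(((m : ℝ) - 1) / m)) := by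
    refine (Real.rpow_le_rpow (norm_nonneg _) h2 (by positivity)).trans (le_of_eq ?_)
    rw [Real.div_rpow hB0.le hgm.le, ← Real.rpow_natCast, ← Real.rpow_mul (norm_nonneg _),
      Real.rpow_neg (norm_nonneg _), div_eq_mul_inv]
    congr 3
    rw [Nat.cast_sub hm, Nat.cast_one]
    ring
  have h4 : ‖χ.σ p‖ ^ ((j : ℝ) / m) ≤ A ^ ((j : ℝ) / m) :=
    Real.rpow_le_rpow (norm_nonneg _) (hσ p hp).2 (by positivity)
  unfold ACoef
  calc ‖aCoef Ω χ p‖ ^ (1 / (m : ℝ)) * ‖χ.σ p‖ ^ ((j : ℝ) / m)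
      ≤ ((|B| + 1) ^ (1 / (m : ℝ)) * ‖gD d p‖ ^ (-(((m : ℝ) - 1) / m))) * A ^ ((j : ℝ) / m) :=
        mul_le_mul h3 h4 (by positivity) (by positivity)
    _ = _ := by ring

end Pool.Agent.H14.PP

end

section

/-!
# BPm RhoChart: the equations of `T` in a chart

(i) `p ↦ Q (σ p)` is analytic on the bidisc of radius `2` and vanishes for `p.1 = 0` (there
`σ p ∈ T`). Its derivative is bounded on the closed bidisc of radius `1` (compact, convex), so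
`‖Q (σ (s,t))‖ = ‖Q (σ (s,t)) - Q (σ (0,t))‖ ≤ C ‖s‖`; `‖σ‖` is bounded below. Same for `p.2` if
`nd = true`. (`Pool.Agent.H62.BP.upper_smooth` treats the scalar case.)
(ii) Compactness: on the compact set `{p | ‖p‖ ≤ 1, small nd p ≥ r}` the continuous function
`rho Q D (σ p)` is positive (`σ p ∉ T`, `mem_iff`), hence at least some `δ' > 0`; `δ = δ'/2` (if the
set is empty any `δ` works).
-/

open Topology Filter Metric

namespace Pool.Agent.H14.PP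

open Pool.Agent.H36.BP

variable {N : ℕ} {W : Type*} [NormedAddCommGroup W] [InnerProductSpace ℂ W]
  {X K T : Set (EN N)} {Q : EN N → W} {D : ℕ}

private theorem RhoChart_sub {p : ℂ × ℂ} (hp : p ∈ closedBall (0 : ℂ × ℂ) 1) :
    p ∈ ball (0 : ℂ × ℂ) 2 := by
  rw [mem_closedBall_zero_iff] at hp
  rw [mem_ball_zero_iff]
  linarith

private theorem RhoChart_lip (hQ : IsEq X T Q D) (χ : Chart X) :
    ∃ L : ℝ, 0 ≤ L ∧ ∀ p ∈ closedBall (0 : ℂ × ℂ) 1, ∀ p' ∈ closedBall (0 : ℂ × ℂ) 1,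
      ‖Q (χ.σ p) - Q (χ.σ p')‖ ≤ L * ‖p - p'‖ := by
  have hloc : LocallyLipschitzOn (closedBall (0 : ℂ × ℂ) 1) (fun p => Q (χ.σ p)) := by
    intro p hp
    have h1 : AnalyticAt ℂ (fun p => Q (χ.σ p)) p :=
      AnalyticAt.fun_comp (g := Q) (f := χ.σ) (hQ.analytic _) (χ.σ_an p (RhoChart_sub hp))
    obtain ⟨L, s, hs, hL⟩ := h1.hasStrictFDerivAt.exists_lipschitzOnWith
    exact ⟨L, s, mem_nhdsWithin_of_mem_nhds hs, hL⟩
  obtain ⟨L, hL⟩ := hloc.exists_lipschitzOnWith_of_compact (isCompact_closedBall _ _)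
  exact ⟨L, L.2, fun p hp p' hp' => lipschitzOnWith_iff_norm_sub_le.mp hL hp hp'⟩

private theorem RhoChart_low (hX : IsCone X) (χ : Chart X) :
    ∃ c : ℝ, 0 < c ∧ ∀ p ∈ closedBall (0 : ℂ × ℂ) 1, c ≤ ‖χ.σ p‖ := by
  have hc : ContinuousOn (fun p => ‖χ.σ p‖) (closedBall (0 : ℂ × ℂ) 1) := fun p hp =>
    (χ.σ_an p (RhoChart_sub hp)).continuousAt.norm.continuousWithinAt
  obtain ⟨p₀, hp₀, hmin⟩ := (isCompact_closedBall (0 : ℂ × ℂ) 1).exists_isMinOn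
    ⟨0, mem_closedBall_self zero_le_one⟩ hc
  exact ⟨‖χ.σ p₀‖, norm_pos_iff.mpr (χ.sigma_ne_zero hX (RhoChart_sub hp₀)), fun p hp => hmin hp⟩

theorem rho_chart_le (hX : IsCone X) (hQ : IsEq X T Q D) (χ : Chart X) {nd : Bool}
    (h : HasType T χ nd) :
    ∃ C : ℝ, 1 ≤ C ∧ ∀ p ∈ closedBall (0 : ℂ × ℂ) 1,
      rho Q D (χ.σ p) ≤ C * ‖p.1‖ ∧ (nd = true → rho Q D (χ.σ p) ≤ C * ‖p.2‖) := by
  obtain ⟨L, hL0, hL⟩ := RhoChart_lip hQ χ
  obtain ⟨c, hc, hlow⟩ := RhoChart_low hX χ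
  have hcD : 0 < c ^ D := pow_pos hc D
  have key : ∀ p ∈ closedBall (0 : ℂ × ℂ) 1, ∀ p' ∈ closedBall (0 : ℂ × ℂ) 1, χ.σ p' ∈ T →
      rho Q D (χ.σ p) ≤ max 1 (L / c ^ D) * ‖p - p'‖ := by
    intro p hp p' hp' hT
    have h1 := hL p hp p' hp'
    rw [((hQ.mem_iff _).mp hT).2, sub_zero] at h1
    have h2 : c ^ D ≤ ‖χ.σ p‖ ^ D := pow_le_pow_left₀ hc.le (hlow p hp) D
    calc rho Q D (χ.σ p) = ‖Q (χ.σ p)‖ / ‖χ.σ p‖ ^ D := rfl
      _ ≤ (L * ‖p - p'‖) / c ^ D := div_le_div₀ (by positivity) h1 hcD h2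
      _ = L / c ^ D * ‖p - p'‖ := by ring
      _ ≤ max 1 (L / c ^ D) * ‖p - p'‖ :=
        mul_le_mul_of_nonneg_right (le_max_right _ _) (norm_nonneg _)
  refine ⟨max 1 (L / c ^ D), le_max_left _ _, fun p hp => ⟨?_, fun hnd => ?_⟩⟩
  · have hp' : ((0, p.2) : ℂ × ℂ) ∈ closedBall (0 : ℂ × ℂ) 1 := by
      rw [mem_closedBall_zero_iff, Prod.norm_def] at hp ⊢
      simpa using (le_max_right _ _).trans hp
    have h1 := key p hp (0, p.2) hp' ((h _ (RhoChart_sub hp')).mpr (Or.inl rfl))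
    have h2 : ‖p - (0, p.2)‖ = ‖p.1‖ := by
      rw [Prod.norm_def]
      simp
    rwa [h2] at h1
  · have hp' : ((p.1, 0) : ℂ × ℂ) ∈ closedBall (0 : ℂ × ℂ) 1 := by
      rw [mem_closedBall_zero_iff, Prod.norm_def] at hp ⊢
      simpa using (le_max_left _ _).trans hp
    have h1 := key p hp (p.1, 0) hp' ((h _ (RhoChart_sub hp')).mpr (Or.inr ⟨hnd, rfl⟩))
    have h2 : ‖p - (p.1, 0)‖ = ‖p.2‖ := by
      rw [Prod.norm_def]
      simp
    rwa [h2] at h1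

private theorem RhoChart_cont (nd : Bool) : Continuous (small nd) := by
  unfold small
  cases nd
  · simpa using continuous_fst.norm
  · have h : Continuous fun p : ℂ × ℂ => ‖p.1‖ * ‖p.2‖ := by fun_prop
    simpa using h

theorem small_of_rho (hX : IsCone X) (hQ : IsEq X T Q D) (χ : Chart X) {nd : Bool}
    (h : HasType T χ nd) {r : ℝ} (hr : 0 < r) :
    ∃ δ : ℝ, 0 < δ ∧ ∀ p ∈ closedBall (0 : ℂ × ℂ) 1, rho Q D (χ.σ p) ≤ δ → small nd p ≤ r := by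
  obtain ⟨S, hS⟩ : ∃ S : Set (ℂ × ℂ), S = closedBall (0 : ℂ × ℂ) 1 ∩ {p | r ≤ small nd p} :=
    ⟨_, rfl⟩
  have hSc : IsCompact S := by
    rw [hS]
    exact (isCompact_closedBall _ _).inter_right (isClosed_le continuous_const (RhoChart_cont nd))
  have hpos : ∀ p ∈ S, 0 < rho Q D (χ.σ p) := by
    intro p hp
    rw [hS] at hp
    have hp2 : r ≤ small nd p := hp.2
    have hb := RhoChart_sub hp.1
    have hne := χ.sigma_ne_zero hX hb
    refine lt_of_le_of_ne (rho_nonneg _ _ _) fun h0 => ?_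
    have hQ0 : Q (χ.σ p) = 0 := (rho_eq_zero_iff hne).mp h0.symm
    have hT : χ.σ p ∈ T := (hQ.mem_iff _).mpr ⟨(χ.σ_mem p hb).1, hQ0⟩
    rcases (h p hb).mp hT with h1 | ⟨h1, h2⟩
    · have h3 : small nd p = 0 := by
        unfold small
        rw [h1, norm_zero, zero_mul, ite_self]
      linarith
    · have h3 : small nd p = 0 := by
        unfold small
        rw [if_pos h1, h2, norm_zero, mul_zero]
      linarith
  have hcont : ContinuousOn (fun p => rho Q D (χ.σ p)) S := by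
    intro p hp
    rw [hS] at hp
    have hb := RhoChart_sub hp.1
    have h1 : ContinuousAt (rho Q D) (χ.σ p) := continuousAt_rho hQ.analytic (χ.sigma_ne_zero hX hb)
    exact (ContinuousAt.comp (f := χ.σ) (g := rho Q D) h1
      (χ.σ_an p hb).continuousAt).continuousWithinAt
  have hout : ∀ p ∈ closedBall (0 : ℂ × ℂ) 1, p ∉ S → small nd p ≤ r := by
    intro p hp hpS
    by_contra hcon
    push Not at hcon
    exact hpS (by rw [hS]; exact ⟨hp, hcon.le⟩)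
  rcases S.eq_empty_or_nonempty with he | hne
  · exact ⟨1, one_pos, fun p hp _ => hout p hp (by rw [he]; exact Set.notMem_empty p)⟩
  · obtain ⟨p₀, hp₀, hmin⟩ := hSc.exists_isMinOn hne hcont
    have h0 := hpos p₀ hp₀
    refine ⟨rho Q D (χ.σ p₀) / 2, by linarith, fun p hp hle => hout p hp fun hpS => ?_⟩
    have h1 : rho Q D (χ.σ p₀) ≤ rho Q D (χ.σ p) := hmin hpS
    linarith

end Pool.Agent.H14.PP

end

section

/-!
The Fubini-Study density: gradient and Laplacian of `log ‖F‖` for a holomorphic map `F` into a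
complex inner product space.
-/

namespace Pool.Agent.MQ

open Complex Laplacian Topology Filter

open Pool.Agent.H30M (gg)

section

variable {V : Type*} [NormedAddCommGroup V] [InnerProductSpace ℂ V]

theorem differentiableAt_sqnorm {F : ℂ → V} {F' : V} {z : ℂ} (hF : HasDerivAt F F' z) :
    DifferentiableAt ℝ (fun w => ‖F w‖ ^ 2) z := by
  have e : (fun w => ‖F w‖ ^ 2) = fun w => (inner ℂ (F w) (F w)).re := by
    funext w
    rw [← inner_self_eq_norm_sq (𝕜 := ℂ)]; rfl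
  rw [e]
  exact (Complex.reCLM.hasFDerivAt.comp z
      (hasFDerivAt_inner_holo hF hF).differentiableAt.hasFDerivAt).differentiableAt

theorem contDiffAt_log_norm {F : ℂ → V} {z : ℂ} [CompleteSpace V] (hF : AnalyticAt ℂ F z)
    (h0 : F z ≠ 0) {n : WithTop ℕ∞} : ContDiffAt ℝ n (fun w => Real.log ‖F w‖) z := by
  have h1 : ContDiffAt ℝ n (fun w => Real.log (‖F w‖ ^ 2) / 2) z :=
    ((contDiffAt_sqnorm hF).log (by simpa using h0)).div_const 2
  refine h1.congr_of_eventuallyEq ?_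
  filter_upwards with w
  rw [Real.log_pow]; push_cast; ring

/-- The gradient of `log ‖F‖`. -/
theorem gr_log_normV {F : ℂ → V} {F' : V} {z : ℂ} (hF : HasDerivAt F F' z) (h0 : F z ≠ 0) :
    gr (fun w => Real.log ‖F w‖) z =
      (((‖F z‖ ^ 2)⁻¹ : ℝ) : ℂ) * (starRingEnd ℂ) (inner ℂ (F z) F') := by
  have hp : 0 < ‖F z‖ ^ 2 := by have := norm_pos_iff.2 h0; positivity
  have hK : HasDerivAt (fun t : ℝ => Real.log t / 2) ((‖F z‖ ^ 2)⁻¹ / 2) (‖F z‖ ^ 2) :=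
    (Real.hasDerivAt_log hp.ne').div_const 2
  have hd : DifferentiableAt ℝ (fun w => ‖F w‖ ^ 2) z := differentiableAt_sqnorm hF
  have h := gr_comp hK hd
  have e : (fun w => Real.log ‖F w‖) = fun w => Real.log (‖F w‖ ^ 2) / 2 := by
    funext w
    rw [Real.log_pow]; push_cast; ring
  rw [e, h, gr_sqnorm hF]
  push_cast
  ring

/-- The Fubini-Study density of `F` with derivative `F'`. -/
noncomputable def fsd (x v : V) : ℝ :=
  2 * (‖x‖ ^ 2 * ‖v‖ ^ 2 - ‖inner ℂ x v‖ ^ 2) / ‖x‖ ^ 4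

/-- **The Laplacian of `log ‖F‖`.** -/
theorem lap_log_normV {F : ℂ → V} {z : ℂ} [CompleteSpace V] (hF : AnalyticAt ℂ F z)
    (h0 : F z ≠ 0) : Δ (fun w => Real.log ‖F w‖) z = fsd (F z) (deriv F z) := by
  have hn : 0 < ‖F z‖ := norm_pos_iff.2 h0
  have hp : 0 < ‖F z‖ ^ 2 := by positivity
  have hF' : HasDerivAt F (deriv F z) z := hF.differentiableAt.hasDerivAt
  have e : (fun w => Real.log ‖F w‖) = fun w => (fun t => Real.log t / 2) (‖F w‖ ^ 2) := by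
    funext w
    simp only
    rw [Real.log_pow]; push_cast; ring
  have hu : ContDiffAt ℝ 2 (fun w => ‖F w‖ ^ 2) z := contDiffAt_sqnorm hF
  have hφ : ContDiffAt ℝ 2 (fun t : ℝ => Real.log t / 2) (‖F z‖ ^ 2) :=
    (Real.contDiffAt_log.2 hp.ne').div_const 2
  have d1 : deriv (fun t : ℝ => Real.log t / 2) = fun t => t⁻¹ / 2 := by
    funext t
    rw [deriv_div_const, Real.deriv_log]
  have d2 : deriv (deriv (fun t : ℝ => Real.log t / 2)) (‖F z‖ ^ 2) =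
      - ((‖F z‖ ^ 2) ^ 2)⁻¹ / 2 := by
    rw [d1, deriv_div_const, deriv_inv]
  rw [e, Pool.Agent.H30M.lap_comp hφ hu, d2, d1, ← lp_eq_lap hu, lp_sqnorm hF, gg_self,
    gr_sqnorm hF', norm_mul, RCLike.norm_conj]
  unfold fsd
  simp only [Complex.norm_ofNat]
  field_simp
  ring

/-- The density does not change under `F ↦ g F`. -/
theorem fsd_smul (x v : V) (a c : ℂ) (ha : a ≠ 0) : fsd (a • x) (a • v + c • x) = fsd x v := by
  have ha' : 0 < ‖a‖ := norm_pos_iff.2 ha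
  by_cases hx : x = 0
  · simp [fsd, hx]
  have hx' : 0 < ‖x‖ := norm_pos_iff.2 hx
  -- the Gram determinant
  have key : ‖a • x‖ ^ 2 * ‖a • v + c • x‖ ^ 2 - ‖inner ℂ (a • x) (a • v + c • x)‖ ^ 2 =
      ‖a‖ ^ 4 * (‖x‖ ^ 2 * ‖v‖ ^ 2 - ‖inner ℂ x v‖ ^ 2) := by
    have e1 : ‖a • v + c • x‖ ^ 2 = ‖a‖ ^ 2 * ‖v‖ ^ 2 + ‖c‖ ^ 2 * ‖x‖ ^ 2 +
        2 * ((starRingEnd ℂ) a * c * inner ℂ v x).re := by
      rw [norm_add_sq (𝕜 := ℂ), norm_smul, norm_smul, inner_smul_left, inner_smul_right]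
      simp only [RCLike.re_to_complex]
      ring_nf
    have e2 : inner ℂ (a • x) (a • v + c • x) =
        (starRingEnd ℂ) a * (a * inner ℂ x v + c * ((‖x‖ ^ 2 : ℝ) : ℂ)) := by
      rw [inner_add_right, inner_smul_left, inner_smul_left, inner_smul_right, inner_smul_right,
        inner_self_eq_norm_sq_to_K]
      simp only [Complex.coe_algebraMap, Complex.ofReal_pow]
      ring
    rw [e1, e2, norm_smul, norm_mul, RCLike.norm_conj, mul_pow, mul_pow]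
    have e3 : inner ℂ v x = (starRingEnd ℂ) (inner ℂ x v) := (inner_conj_symm _ _).symm
    rw [e3]
    generalize inner ℂ x v = y
    generalize ‖x‖ ^ 2 = s
    generalize ‖v‖ ^ 2 = t
    have n1 : ‖a * y + c * (s : ℂ)‖ ^ 2 = Complex.normSq (a * y + c * (s : ℂ)) :=
      Complex.sq_norm _
    rw [n1]
    have n2 : ‖a‖ ^ 4 = (‖a‖ ^ 2) ^ 2 := by ring
    rw [n2, Complex.sq_norm, Complex.sq_norm, Complex.sq_norm]
    simp only [Complex.normSq_apply, Complex.add_re, Complex.add_im, Complex.mul_re,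
      Complex.mul_im, Complex.conj_re, Complex.conj_im, Complex.ofReal_re, Complex.ofReal_im]
    ring
  unfold fsd
  rw [key, norm_smul]
  field_simp

end

end Pool.Agent.MQ

end

section

/-!
# MQ Fub (V1): the Fubini-Study density along a holomorphic curve
-/

set_option autoImplicit false

open MeasureTheory Topology Filter Metric Laplacian

noncomputable section

namespace Pool.Agent.MQ

open Pool.Agent.H36.BP (EN)

variable {M : ℕ}

theorem gram_nonneg (x v : EN M) : 0 ≤ ‖x‖ ^ 2 * ‖v‖ ^ 2 - ‖inner ℂ x v‖ ^ 2 := by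
  have h := norm_inner_le_norm (𝕜 := ℂ) x v
  have h2 : ‖inner ℂ x v‖ ^ 2 ≤ (‖x‖ * ‖v‖) ^ 2 := pow_le_pow_left₀ (norm_nonneg _) h 2
  nlinarith

theorem fs_sq_eq (x v : EN M) : 2 * Pool.Agent.H36.BP.fs x v ^ 2 = fsd x v := by
  unfold Pool.Agent.H36.BP.fs Pool.Agent.H36.BP.wd fsd
  rw [div_pow, Real.sq_sqrt (gram_nonneg x v)]
  ring

/-- The length of the derivative squared, by the Gram determinant. -/
theorem lam_sq (F : ℂ → EN M) (z : ℂ) : lam F z ^ 2 =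
    (‖F z‖ ^ 2 * ‖deriv F z‖ ^ 2 - ‖inner ℂ (F z) (deriv F z)‖ ^ 2) / ‖F z‖ ^ 4 := by
  unfold lam Pool.Agent.H36.BP.fs Pool.Agent.H36.BP.wd
  rw [div_pow, Real.sq_sqrt (gram_nonneg _ _)]
  ring

theorem lam_nonneg (F : ℂ → EN M) (z : ℂ) : 0 ≤ lam F z := by
  unfold lam Pool.Agent.H36.BP.fs Pool.Agent.H36.BP.wd
  positivity

/-- V1 -/
theorem lap_log_norm {F : ℂ → EN M} {z : ℂ} (hF : AnalyticAt ℂ F z) (h0 : F z ≠ 0) :
    ContDiffAt ℝ 2 (fun w => Real.log ‖F w‖) z ∧ Δ (fun w => Real.log ‖F w‖) z = 2 * lam F z ^ 2 := by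
  refine ⟨contDiffAt_log_norm hF h0, ?_⟩
  rw [lap_log_normV hF h0]
  exact (fs_sq_eq _ _).symm

/-- V1 -/
theorem continuous_lam {F : ℂ → EN M} (hF : Differentiable ℂ F) (h0 : ∀ z, F z ≠ 0) : Continuous (lam F) := by
  have hd : Continuous (deriv F) := (hF.contDiff (n := 1)).continuous_deriv le_rfl
  have hc : Continuous F := hF.continuous
  unfold lam Pool.Agent.H36.BP.fs Pool.Agent.H36.BP.wd
  apply Continuous.div
  · exact Real.continuous_sqrt.comp (((hc.norm.pow 2).mul (hd.norm.pow 2)).sub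
      ((Continuous.inner hc hd).norm.pow 2))
  · exact hc.norm.pow 2
  · intro z
    have := norm_pos_iff.2 (h0 z)
    positivity

end Pool.Agent.MQ

end
end

section

/-!
# MQ2 Defs: a box with an arbitrary isolated singular point of the foliation

Everything is in one variable: `Om` is open in `ℂ`, `p : Om → ball 0 r` is a curve tangent to the vector field `v` (`MQ.Crv1`).

* `Child e ι t v w`: `w` is the transform of `v` at the point `t` of the exceptional line `{x = 0}`, old coordinates `(x, x (y + t))`; `x ^ e` has been divided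
  out; `ι = 1` if the exceptional line is invariant.  The point `∞` is the point `0` for `swv v`.
* `Tree v`: `v` is reduced by finitely many blow-ups.
* `Wt v g`: `g` is a (reduced) equation of a curve invariant under `v`.
* `Sep v c`: the germs `c N` are the `N`-jets of a formal curve tangent to `v`.
* `Dat`: the data of a curve in the box and of a form `Q` along it (`q`, `ψ` as in `MQ.shell`).
* `LocX`: the conclusion of the package.
* `Good P v`: the package for `v`, for all weights `g` and Jacobian factors `J` with `P g J`.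
-/

set_option autoImplicit false

open Topology Filter Metric MeasureTheory Asymptotics Laplacian

noncomputable section

namespace Pool.Agent.MQ2

open Pool.Agent.MQ

/-! ## vector fields -/

/-- the vector field in the coordinates `(y, x)` -/
def swv (v : ℂ × ℂ → ℂ × ℂ) (p : ℂ × ℂ) : ℂ × ℂ := (v p.swap).swap

/-- the chart of the blow-up at the direction `(1 : t)` -/
def be (t : ℂ) (p : ℂ × ℂ) : ℂ × ℂ := (p.1, p.1 * (p.2 + t))

/-- `w` is the transform of `v` at the point `t` of the exceptional line -/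
structure Child (e ι : ℕ) (t : ℂ) (v w : ℂ × ℂ → ℂ × ℂ) : Prop where
  an : AnalyticAt ℂ w 0
  fst : ∀ᶠ p in 𝓝 (0 : ℂ × ℂ), (v (be t p)).1 = p.1 ^ e * (w p).1
  snd : ∀ᶠ p in 𝓝 (0 : ℂ × ℂ), (v (be t p)).2 = (p.2 + t) * (v (be t p)).1 + p.1 ^ (e + 1) * (w p).2
  iso : ∀ᶠ p in 𝓝 (0 : ℂ × ℂ), p ≠ 0 → w p ≠ 0
  inv : (ι = 1 ∧ ∀ᶠ y in 𝓝 (0 : ℂ), (w (0, y)).1 = 0) ∨ (ι = 0 ∧ ∀ᶠ y in 𝓝[≠] (0 : ℂ), (w (0, y)).1 ≠ 0)

/-- elementary and reduced: the linear part has the eigenvalues `l ≠ 0` and `k`, and `k / l` is not a positive rational number -/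
def Elem (v : ℂ × ℂ → ℂ × ℂ) : Prop :=
  v 0 = 0 ∧ ∃ l k : ℂ, l + k = (fderiv ℂ v 0 (1, 0)).1 + (fderiv ℂ v 0 (0, 1)).2 ∧
    l * k = (fderiv ℂ v 0 (1, 0)).1 * (fderiv ℂ v 0 (0, 1)).2 - (fderiv ℂ v 0 (0, 1)).1 * (fderiv ℂ v 0 (1, 0)).2 ∧
    l ≠ 0 ∧ ∀ m n : ℕ, 0 < m → 0 < n → (m : ℂ) * l ≠ n * k

/-- reduced by finitely many blow-ups -/
inductive Tree : (ℂ × ℂ → ℂ × ℂ) → Prop
  | reg (v : ℂ × ℂ → ℂ × ℂ) : v 0 ≠ 0 → Tree v
  | elem (v : ℂ × ℂ → ℂ × ℂ) : Elem v → Tree v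
  | blow (v : ℂ × ℂ → ℂ × ℂ) (e ι : ℕ) (w : ℂ → ℂ × ℂ → ℂ × ℂ) (wi : ℂ × ℂ → ℂ × ℂ) : (∀ t, Child e ι t v (w t)) → Child e ι 0 (swv v) wi →
      (∀ t, Tree (w t)) → Tree wi → Tree v

/-- an isolated singular point -/
def Iso (v : ℂ × ℂ → ℂ × ℂ) : Prop := AnalyticAt ℂ v 0 ∧ v 0 = 0 ∧ ∀ᶠ p in 𝓝 (0 : ℂ × ℂ), p ≠ 0 → v p ≠ 0

/-! ## weights and formal separatrices -/

/-- a reduced equation of an invariant curve -/
structure Wt (v : ℂ × ℂ → ℂ × ℂ) (g : ℂ × ℂ → ℂ) : Prop where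
  an : AnalyticAt ℂ g 0
  ne : ∃ᶠ p in 𝓝 (0 : ℂ × ℂ), g p ≠ 0
  cof : ∃ c : ℂ × ℂ → ℂ, AnalyticAt ℂ c 0 ∧ ∀ᶠ p in 𝓝 (0 : ℂ × ℂ), fderiv ℂ g p (v p) = c p * g p
  red : ∀ᶠ p in 𝓝 (0 : ℂ × ℂ), p ≠ 0 → g p = 0 → fderiv ℂ g p ≠ 0

/-- `g` vanishes on the formal curve -/
def FZero (c : ℕ → ℂ → ℂ × ℂ) (g : ℂ × ℂ → ℂ) : Prop := ∀ N, (fun t => g (c N t)) =O[𝓝 0] fun t : ℂ => t ^ (N + 1)

/-- the order of `q` on the formal curve is finite and at least `n` -/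
def HasOrd (c : ℕ → ℂ → ℂ × ℂ) (q : ℂ × ℂ → ℂ) (n : ℕ) : Prop :=
  ∃ n' : ℕ, n ≤ n' ∧ ∀ N, n' ≤ N → analyticOrderAt (fun t => q (c N t)) 0 = n'

/-- a formal curve (`c N` is its `N`-jet) tangent to `v`; if it lies in an analytic curve then it converges -/
structure Sep (v : ℂ × ℂ → ℂ × ℂ) (c : ℕ → ℂ → ℂ × ℂ) : Prop where
  an : ∀ N, AnalyticAt ℂ (c N) 0
  zero : ∀ N, c N 0 = 0
  coh : ∀ N, (fun t => c (N + 1) t - c N t) =O[𝓝 0] fun t : ℂ => t ^ (N + 1)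
  tan : ∀ N, (fun t => (v (c N t)).1 * (deriv (c N) t).2 - (v (c N t)).2 * (deriv (c N) t).1) =O[𝓝 0] fun t : ℂ => t ^ N
  nc : ∃ N, ¬ (c N) =O[𝓝 0] fun t : ℂ => t ^ (N + 1)
  alg : ∀ R : ℂ × ℂ → ℂ, AnalyticAt ℂ R 0 → (∃ᶠ p in 𝓝 (0 : ℂ × ℂ), R p ≠ 0) → FZero c R →
    ∃ γ : ℂ → ℂ × ℂ, AnalyticAt ℂ γ 0 ∧ ∀ N, (fun t => γ t - c N t) =O[𝓝 0] fun t : ℂ => t ^ (N + 1)

/-! ## the package -/

/-- the class of the transforms of the pairs of the class `P`, at the point `t` of the exceptional line -/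
def TP (ι : ℕ) (t : ℂ) (P : (ℂ × ℂ → ℂ) → (ℂ × ℂ → ℂ) → Prop) (g₁ J₁ : ℂ × ℂ → ℂ) : Prop :=
  ∃ (g J : ℂ × ℂ → ℂ) (m : ℕ) (g' : ℂ × ℂ → ℂ), P g J ∧ AnalyticAt ℂ g 0 ∧ AnalyticAt ℂ J 0 ∧ AnalyticAt ℂ g' 0 ∧
    (∀ᶠ p in 𝓝 (0 : ℂ × ℂ), g (be t p) = p.1 ^ m * g' p) ∧ (∀ᶠ p in 𝓝 (0 : ℂ × ℂ), g₁ p = p.1 ^ ι * g' p) ∧
    ∀ᶠ p in 𝓝 (0 : ℂ × ℂ), J₁ p = p.1 * J (be t p)

/-- the class with the coordinates exchanged -/
def SP (P : (ℂ × ℂ → ℂ) → (ℂ × ℂ → ℂ) → Prop) (g J : ℂ × ℂ → ℂ) : Prop := P (fun p => g p.swap) fun p => J p.swap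

/-- all pairs -/
def PT : (ℂ × ℂ → ℂ) → (ℂ × ℂ → ℂ) → Prop := fun _ _ => True

/-- `x` divides `g`, `x ^ M` divides `J` -/
def PX (M : ℕ) (g J : ℂ × ℂ → ℂ) : Prop :=
  (∃ g₀ : ℂ × ℂ → ℂ, AnalyticAt ℂ g₀ 0 ∧ ∀ᶠ p in 𝓝 (0 : ℂ × ℂ), g p = p.1 * g₀ p) ∧
    ∃ J₀ : ℂ × ℂ → ℂ, AnalyticAt ℂ J₀ 0 ∧ ∀ᶠ p in 𝓝 (0 : ℂ × ℂ), J p = p.1 ^ M * J₀ p

/-- `x y` divides `g`, `x` divides `J` -/
def PC (g J : ℂ × ℂ → ℂ) : Prop :=
  (∃ g₀ : ℂ × ℂ → ℂ, AnalyticAt ℂ g₀ 0 ∧ ∀ᶠ p in 𝓝 (0 : ℂ × ℂ), g p = p.1 * p.2 * g₀ p) ∧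
    ∃ J₀ : ℂ × ℂ → ℂ, AnalyticAt ℂ J₀ 0 ∧ ∀ᶠ p in 𝓝 (0 : ℂ × ℂ), J p = p.1 * J₀ p

end Pool.Agent.MQ2

end
end

section

/-!
# MQ2 SlopeC: the slope of a curve
-/

set_option autoImplicit false

open Topology Filter Metric MeasureTheory Asymptotics

noncomputable section

namespace Pool.Agent.MQ2

open Pool.Agent.MQ

/-- an analytic function which is frequently nonzero near `z` is eventually nonzero in the punctured neighbourhood -/
theorem ne_of_frequently {f : ℂ → ℂ} {z : ℂ} (hf : AnalyticAt ℂ f z) (h : ∃ᶠ w in 𝓝 z, f w ≠ 0) : ∀ᶠ w in 𝓝[≠] z, f w ≠ 0 := by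
  rcases hf.eventually_eq_zero_or_eventually_ne_zero with h1 | h1
  · exact absurd (h1.mono fun w hw h2 => h2 hw) h
  · exact h1

/-- two analytic functions which agree in a punctured neighbourhood -/
theorem eq_of_mul {g f₁ f₂ : ℂ → ℂ} {z : ℂ} (hg : AnalyticAt ℂ g z) (h : ∃ᶠ w in 𝓝 z, g w ≠ 0) (h₁ : AnalyticAt ℂ f₁ z) (h₂ : AnalyticAt ℂ f₂ z)
    (he : ∀ᶠ w in 𝓝 z, g w * f₁ w = g w * f₂ w) : ∀ᶠ w in 𝓝 z, f₁ w = f₂ w := by
  have h1 : ∀ᶠ w in 𝓝[≠] z, f₁ w = f₂ w := by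
    filter_upwards [ne_of_frequently hg h, he.filter_mono nhdsWithin_le_nhds] with w h2 h3
    exact mul_left_cancel₀ h2 h3
  exact (h₁.frequently_eq_iff_eventually_eq h₂).1 h1.frequently

/-- near a point with a slope `f` the slope is `f` -/
theorem slope_eq {p : ℂ → ℂ × ℂ} {z : ℂ} (hp : AnalyticAt ℂ p z) (h1 : ∃ᶠ w in 𝓝 z, (p w).1 ≠ 0) {f : ℂ → ℂ} (hf : AnalyticAt ℂ f z)
    (h2 : ∀ᶠ w in 𝓝 z, (p w).2 = (p w).1 * f w) : ∀ᶠ w in 𝓝 z, HasSlope p w ∧ slope p w = f w := by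
  have h3 : ∀ᶠ w in 𝓝 z, ∃ᶠ u in 𝓝 w, (p u).1 ≠ 0 := by
    have h4 := ne_of_frequently (an_fst hp) h1
    rw [eventually_nhdsWithin_iff] at h4
    filter_upwards [h4.eventually_nhds] with w h5
    intro h6
    have h7 : ∀ᶠ u in 𝓝[≠] w, u ∉ ({z} : Set ℂ)ᶜ := by
      filter_upwards [(h5.and h6).filter_mono nhdsWithin_le_nhds] with u h8 h9
      exact h8.2 (h8.1 h9)
    have h8 : ∀ᶠ u in 𝓝[≠] w, u = z := h7.mono fun u hu => by simpa using hu
    by_cases hwz : w = z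
    · subst hwz
      have h9 : ∀ᶠ u in 𝓝[≠] w, False := by
        filter_upwards [h8, self_mem_nhdsWithin] with u h10 h11
        exact h11 h10
      exact h9.exists.choose_spec
    · have h9 : ∀ᶠ u in 𝓝[≠] w, u ≠ z := (eventually_ne_nhds hwz).filter_mono nhdsWithin_le_nhds
      have h10 : ∀ᶠ u in 𝓝[≠] w, False := (h8.and h9).mono fun u hu => hu.2 hu.1
      exact h10.exists.choose_spec
  filter_upwards [h3, hf.eventually_analyticAt, h2.eventually_nhds, hp.eventually_analyticAt] with w h4 h5 h6 h7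
  have h8 : HasSlope p w := ⟨h4, f, h5, h6⟩
  refine ⟨h8, ?_⟩
  classical
  have h9 : slope p w = h8.2.choose w := by
    unfold slope
    rw [dif_pos h8]
  rw [h9]
  obtain ⟨h10, h11⟩ := h8.2.choose_spec
  refine (eq_of_mul (an_fst h7) h4 h10 h5 ?_).self_of_nhds
  filter_upwards [h6, h11] with u h12 h13
  rw [← h12, ← h13]

theorem HasSlope.exists {p : ℂ → ℂ × ℂ} {z : ℂ} (hp : AnalyticAt ℂ p z) (h : HasSlope p z) :
    ∃ f : ℂ → ℂ, AnalyticAt ℂ f z ∧ (∀ᶠ w in 𝓝 z, (p w).2 = (p w).1 * f w) ∧ ∀ᶠ w in 𝓝 z, HasSlope p w ∧ slope p w = f w := by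
  obtain ⟨h1, f, h2, h3⟩ := h
  exact ⟨f, h2, h3, slope_eq hp h1 h2 h3⟩

/-- the slope is analytic -/
theorem HasSlope.an {p : ℂ → ℂ × ℂ} {z : ℂ} (hp : AnalyticAt ℂ p z) (h : HasSlope p z) : AnalyticAt ℂ (slope p) z := by
  obtain ⟨f, h1, -, h3⟩ := h.exists hp
  exact h1.congr (h3.mono fun w hw => hw.2.symm)

theorem HasSlope.eq {p : ℂ → ℂ × ℂ} {z : ℂ} (hp : AnalyticAt ℂ p z) (h : HasSlope p z) : ∀ᶠ w in 𝓝 z, (p w).2 = (p w).1 * slope p w := by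
  obtain ⟨f, -, h2, h3⟩ := h.exists hp
  filter_upwards [h2, h3] with w h4 h5
  rw [h4, h5.2]

theorem be_pt {Om : Set ℂ} {p : ℂ → ℂ × ℂ} {t : ℂ} {ρ : ℝ} {z : ℂ} (hz : z ∈ Omt Om p t ρ) (hp : AnalyticAt ℂ p z) : be t (pt t p z) = p z := by
  have h1 := (hz.2.1.eq hp).self_of_nhds
  unfold be pt
  refine Prod.ext rfl ?_
  show (p z).1 * (slope p z - t + t) = (p z).2
  rw [sub_add_cancel, h1]

/-- every point is in the chart `x` with a slope `≤ K` or in the chart `y` with a slope `≤ 1 / K` -/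
theorem slope_cover {p : ℂ → ℂ × ℂ} {z : ℂ} (hp : AnalyticAt ℂ p z) (h : ∃ᶠ w in 𝓝 z, p w ≠ 0) {K : ℝ} (hK : 0 < K) :
    (HasSlope p z ∧ ‖slope p z‖ ≤ K) ∨ (HasSlope (fun w => (p w).swap) z ∧ ‖slope (fun w => (p w).swap) z‖ ≤ 1 / K) := by
  have hs : AnalyticAt ℂ (fun w => (p w).swap) z := (an_snd hp).prod (an_fst hp)
  -- if `x ^ n a = x`, `x ^ m b = y` with units `a`, `b` then one divides the other
  have key : HasSlope p z ∨ HasSlope (fun w => (p w).swap) z := by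
    by_cases h1 : ∃ᶠ w in 𝓝 z, (p w).1 ≠ 0
    · by_cases h2 : ∃ᶠ w in 𝓝 z, (p w).2 ≠ 0
      · obtain ⟨n, a, ha, ha0, hna⟩ := (an_fst hp).exists_eventuallyEq_pow_smul_nonzero_iff.2 (fun h3 => h1 (h3.mono fun w hw h4 => h4 hw))
        obtain ⟨m, b, hb, hb0, hmb⟩ := (an_snd hp).exists_eventuallyEq_pow_smul_nonzero_iff.2 (fun h3 => h2 (h3.mono fun w hw h4 => h4 hw))
        rcases le_total n m with hnm | hnm
        · left
          refine ⟨h1, fun w => (w - z) ^ (m - n) * (b w / a w), ((analyticAt_id.sub analyticAt_const).pow _).mul (hb.div ha ha0), ?_⟩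
          filter_upwards [hna, hmb, ha.continuousAt.eventually_ne ha0] with w h3 h4 h5
          rw [h3, h4, smul_eq_mul, smul_eq_mul]
          have h6 : (w - z) ^ m = (w - z) ^ n * (w - z) ^ (m - n) := by rw [← pow_add, Nat.add_sub_cancel' hnm]
          rw [h6]
          field_simp
        · right
          refine ⟨h2, fun w => (w - z) ^ (n - m) * (a w / b w), ((analyticAt_id.sub analyticAt_const).pow _).mul (ha.div hb hb0), ?_⟩
          filter_upwards [hna, hmb, hb.continuousAt.eventually_ne hb0] with w h3 h4 h5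
          show (p w).1 = (p w).2 * _
          rw [h3, h4, smul_eq_mul, smul_eq_mul]
          have h6 : (w - z) ^ n = (w - z) ^ m * (w - z) ^ (n - m) := by rw [← pow_add, Nat.add_sub_cancel' hnm]
          rw [h6]
          field_simp
      · left
        refine ⟨h1, fun _ => 0, analyticAt_const, ?_⟩
        rw [Filter.not_frequently] at h2
        filter_upwards [h2] with w hw
        push Not at hw
        rw [hw, mul_zero]
    · right
      rw [Filter.not_frequently] at h1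
      refine ⟨?_, fun _ => 0, analyticAt_const, ?_⟩
      · refine (h.and_eventually h1).mono fun w hw => ?_
        intro h2
        exact hw.1 (Prod.ext (not_not.1 hw.2) h2)
      · filter_upwards [h1] with w hw
        push Not at hw
        show (p w).1 = _
        rw [hw, mul_zero]
  -- if both are defined then the product of the slopes is `1`
  have key2 : ∀ {q : ℂ → ℂ × ℂ}, AnalyticAt ℂ q z → HasSlope q z → ∀ {c : ℝ}, 0 < c → ¬ ‖slope q z‖ ≤ c →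
      HasSlope (fun w => (q w).swap) z ∧ ‖slope (fun w => (q w).swap) z‖ ≤ 1 / c := by
    intro q hq hsl c hc hne
    obtain ⟨f, h1, h2, h3⟩ := hsl.exists hq
    have h4 : slope q z = f z := h3.self_of_nhds.2
    rw [h4] at hne
    push Not at hne
    have h5 : f z ≠ 0 := fun h6 => by
      rw [h6, norm_zero] at hne
      exact absurd hne (not_lt.2 hc.le)
    have hqs : AnalyticAt ℂ (fun w => (q w).swap) z := (an_snd hq).prod (an_fst hq)
    have h6 : ∃ᶠ w in 𝓝 z, ((fun w => (q w).swap) w).1 ≠ 0 := by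
      refine ((hsl.1.and_eventually h2).and_eventually (h1.continuousAt.eventually_ne h5)).mono fun w hw => ?_
      show (q w).2 ≠ 0
      rw [hw.1.2]
      exact mul_ne_zero hw.1.1 hw.2
    have h7 : ∀ᶠ w in 𝓝 z, ((fun w => (q w).swap) w).2 = ((fun w => (q w).swap) w).1 * (f w)⁻¹ := by
      filter_upwards [h2, h1.continuousAt.eventually_ne h5] with w h8 h9
      show (q w).1 = (q w).2 * (f w)⁻¹
      rw [h8, mul_assoc, mul_inv_cancel₀ h9, mul_one]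
    have h8 := (slope_eq hqs h6 (h1.inv h5) h7).self_of_nhds
    refine ⟨h8.1, ?_⟩
    rw [h8.2, Pi.inv_apply, norm_inv, one_div]
    exact inv_anti₀ hc hne.le
  rcases key with h1 | h1
  · by_cases h2 : ‖slope p z‖ ≤ K
    · exact Or.inl ⟨h1, h2⟩
    · exact Or.inr (key2 hp h1 hK h2)
  · by_cases h2 : ‖slope (fun w => (p w).swap) z‖ ≤ 1 / K
    · exact Or.inr ⟨h1, h2⟩
    · have h3 := key2 hs h1 (one_div_pos.2 hK) h2
      rw [one_div_one_div] at h3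
      exact Or.inl h3

end Pool.Agent.MQ2

end
end
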