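import Pool.Agent.H94.G6.M01
import Pool.Agent.H94.G6.M02

/-! The parts of this file: H17EF.Zeros, H22.HF.Fac, H36.TB.Cur, E1.ResL, H5.BD.CInv, H92.GT.Homogenize, MQ.Reg2, UC.Defs. -/

section

/-!
# EF Zeros: a bounded holomorphic function with many zeros is small at the centre
-/

set_option autoImplicit false

namespace Pool.Agent.H17EF

open Metric Filter Topology

/-- division by one linear factor -/
theorem div_one {g : ℂ → ℂ} {r B : ℝ} (hg : DifferentiableOn ℂ g (ball 0 r))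
    (hB : ∀ z ∈ ball (0 : ℂ) r, ‖g z‖ ≤ B) {w : ℂ} (hw : ‖w‖ ≤ r / 4) (hr : 0 < r) (h0 : g w = 0) :
    DifferentiableOn ℂ (dslope g w) (ball 0 r) ∧ (∀ z, g z = (z - w) * dslope g w z) ∧
      ∀ z ∈ ball (0 : ℂ) r, ‖dslope g w z‖ ≤ B * (4 / (3 * r)) := by
  have hwb : w ∈ ball (0 : ℂ) r := by
    rw [mem_ball_zero_iff]
    linarith
  have hd : DifferentiableOn ℂ (dslope g w) (ball 0 r) :=
    (Complex.differentiableOn_dslope (isOpen_ball.mem_nhds hwb)).2 hg
  have hfac : ∀ z, g z = (z - w) * dslope g w z := by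
    intro z
    have h1 : (z - w) • dslope g w z = g z - g w := sub_smul_dslope g w z
    rw [h0, sub_zero, smul_eq_mul] at h1
    exact h1.symm
  refine ⟨hd, hfac, fun z hz => ?_⟩
  rw [mem_ball_zero_iff] at hz
  have hB0 : 0 ≤ B := (norm_nonneg _).trans (hB 0 (mem_ball_self hr))
  -- the estimate with a smaller radius
  have key : ∀ s : ℝ, ‖z‖ < s → r / 2 < s → s < r → ‖dslope g w z‖ ≤ B / (s - r / 4) := by
    intro s hzs hs hsr
    have hs0 : 0 < s := by linarith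
    have hsub : closedBall (0 : ℂ) s ⊆ ball 0 r := closedBall_subset_ball hsr
    have hdc : DiffContOnCl ℂ (dslope g w) (ball 0 s) := by
      apply DifferentiableOn.diffContOnCl
      rw [closure_ball _ hs0.ne']
      exact hd.mono hsub
    refine Complex.norm_le_of_forall_mem_frontier_norm_le isBounded_ball hdc ?_ (z := z) ?_
    · intro ζ hζ
      rw [frontier_ball _ hs0.ne', mem_sphere_zero_iff_norm] at hζ
      have hζr : ζ ∈ ball (0 : ℂ) r := by rw [mem_ball_zero_iff, hζ]; exact hsr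
      have h1 := hB ζ hζr
      rw [hfac ζ, norm_mul] at h1
      have h2 : s - r / 4 ≤ ‖ζ - w‖ := by
        have := norm_sub_norm_le ζ w
        rw [hζ] at this
        linarith
      have h3 : 0 < s - r / 4 := by linarith
      rw [le_div_iff₀ h3]
      calc ‖dslope g w ζ‖ * (s - r / 4) ≤ ‖dslope g w ζ‖ * ‖ζ - w‖ := mul_le_mul_of_nonneg_left h2 (norm_nonneg _)
        _ = ‖ζ - w‖ * ‖dslope g w ζ‖ := mul_comm _ _
        _ ≤ B := h1
    · apply subset_closure
      rw [mem_ball_zero_iff]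
      exact hzs
  -- the limit `s → r`
  have hlim : Tendsto (fun s : ℝ => B / (s - r / 4)) (𝓝[<] r) (𝓝 (B / (r - r / 4))) := by
    have h1 : ContinuousAt (fun s : ℝ => B / (s - r / 4)) r := by
      apply ContinuousAt.div continuousAt_const (by fun_prop)
      linarith
    exact h1.tendsto.mono_left nhdsWithin_le_nhds
  have hev : ∀ᶠ s in 𝓝[<] r, ‖dslope g w z‖ ≤ B / (s - r / 4) := by
    have h1 : ∀ᶠ s : ℝ in 𝓝[<] r, ‖z‖ < s := (eventually_gt_nhds hz).filter_mono nhdsWithin_le_nhds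
    have h2 : ∀ᶠ s : ℝ in 𝓝[<] r, r / 2 < s := (eventually_gt_nhds (by linarith)).filter_mono nhdsWithin_le_nhds
    have h3 : ∀ᶠ s : ℝ in 𝓝[<] r, s < r := eventually_mem_nhdsWithin
    filter_upwards [h1, h2, h3] with s hs1 hs2 hs3
    exact key s hs1 hs2 hs3
  have h4 := ge_of_tendsto hlim hev
  have h5 : B / (r - r / 4) = B * (4 / (3 * r)) := by
    field_simp
    ring
  rwa [h5] at h4

/-- division by finitely many linear factors -/
theorem div_list {r B : ℝ} (hr : 0 < r) : ∀ (l : List ℂ) {g : ℂ → ℂ}, DifferentiableOn ℂ g (ball 0 r) →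
    (∀ z ∈ ball (0 : ℂ) r, ‖g z‖ ≤ B) → (∀ w ∈ l, ‖w‖ ≤ r / 4) → (∀ w, ((l.count w : ℕ) : ℕ∞) ≤ analyticOrderAt g w) →
    ∃ g' : ℂ → ℂ, DifferentiableOn ℂ g' (ball 0 r) ∧ (∀ z, g z = (l.map fun w => z - w).prod * g' z) ∧
      ∀ z ∈ ball (0 : ℂ) r, ‖g' z‖ ≤ B * (4 / (3 * r)) ^ l.length := by
  intro l
  induction l generalizing B with
  | nil =>
    intro g hg hB _ _
    exact ⟨g, hg, by simp, by simpa using hB⟩
  | cons w l ih =>
    intro g hg hB hl hord
    have hw : ‖w‖ ≤ r / 4 := hl w (List.mem_cons_self)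
    have hwb : w ∈ ball (0 : ℂ) r := by
      rw [mem_ball_zero_iff]
      linarith
    have hgan : ∀ z ∈ ball (0 : ℂ) r, AnalyticAt ℂ g z := fun z hz => hg.analyticAt (isOpen_ball.mem_nhds hz)
    have h0 : g w = 0 := by
      have h1 := hord w
      rw [List.count_cons_self] at h1
      have h2 : analyticOrderAt g w ≠ 0 := by
        intro h3
        rw [h3] at h1
        simp at h1
      by_contra h3
      exact h2 ((hgan w hwb).analyticOrderAt_eq_zero.2 h3)
    obtain ⟨h1, h2, h3⟩ := div_one hg hB hw hr h0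
    have h1an : ∀ z ∈ ball (0 : ℂ) r, AnalyticAt ℂ (dslope g w) z := fun z hz => h1.analyticAt (isOpen_ball.mem_nhds hz)
    obtain ⟨g', h4, h5, h6⟩ := ih (B := B * (4 / (3 * r))) h1 h3 (fun v hv => hl v (List.mem_cons_of_mem _ hv)) (by
      intro v
      by_cases hv : v ∈ l
      · have hvb : v ∈ ball (0 : ℂ) r := by
          have := hl v (List.mem_cons_of_mem _ hv)
          rw [mem_ball_zero_iff]
          linarith
        have hfun : g = (fun z => z - w) * dslope g w := by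
          funext z
          rw [Pi.mul_apply]
          exact h2 z
        have hlin : AnalyticAt ℂ (fun z : ℂ => z - w) v := by fun_prop
        have h7 : analyticOrderAt g v = analyticOrderAt (fun z : ℂ => z - w) v + analyticOrderAt (dslope g w) v := by
          conv_lhs => rw [hfun]
          exact analyticOrderAt_mul hlin (h1an v hvb)
        have h8 := hord v
        rw [h7] at h8
        by_cases hvw : v = w
        · subst hvw
          rw [List.count_cons_self] at h8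
          have h9 : analyticOrderAt (fun z : ℂ => z - v) v = 1 := by
            apply AnalyticAt.analyticOrderAt_eq_one_of_zero_deriv_ne_zero hlin (sub_self v)
            simp
          rw [h9] at h8
          push_cast at h8
          rw [add_comm] at h8
          exact (ENat.add_le_add_iff_left (by simp)).1 h8
        · rw [List.count_cons_of_ne (Ne.symm hvw)] at h8
          have h9 : analyticOrderAt (fun z : ℂ => z - w) v = 0 := by
            apply hlin.analyticOrderAt_eq_zero.2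
            exact sub_ne_zero.2 hvw
          rwa [h9, zero_add] at h8
      · rw [List.count_eq_zero_of_not_mem hv]
        simp)
    refine ⟨g', h4, fun z => ?_, fun z hz => ?_⟩
    · rw [h2 z, h5 z, List.map_cons, List.prod_cons, mul_assoc]
    · have := h6 z hz
      rw [List.length_cons, pow_succ']
      calc _ ≤ _ := this
        _ = _ := by ring

end Pool.Agent.H17EF

end

section

/-!
# HF Fac: the zeros of a holomorphic function in a disc and power sums

`exists_fac`: `φ` analytic on a neighbourhood of the closed disc, without zeros on the circle: `φ t = ∏ (t - r i) * w t`, `w` analytic without zeros on the closed disc.  (Finitely many zeros in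
the compact disc, finite orders, induction on the sum of the orders `∑ analyticOrderAt`; or `MeromorphicOn.extract_zeros_poles` / `AnalyticOnNhd` divisors in Mathlib.)

`power_sum`: for `H` analytic on a neighbourhood of the closed disc `∮ H φ' / φ = 2 π i ∑ H (r i)`: `φ' / φ = ∑ 1 / (t - r i) + w' / w` on the circle, Cauchy's formula and Cauchy's theorem.

`esymm_newton`: the product of `ν` numbers is a polynomial in their power sums, with rational coefficients which do not depend on the numbers (`MvPolynomial.mul_esymm_eq_sum`, strong induction).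
-/

set_option autoImplicit false

open Metric Set Filter Topology

namespace Pool.Agent.H22.HF

private lemma divide_zero {φ : ℂ → ℂ} {ρ : ℝ} (hφ : ∀ t ∈ closedBall (0 : ℂ) ρ, AnalyticAt ℂ φ t)
    {z : ℂ} (hz : AnalyticAt ℂ φ z) (hord : analyticOrderAt φ z ≠ ⊤) :
    ∃ (m : ℕ) (φ1 : ℂ → ℂ), (∀ t ∈ closedBall (0 : ℂ) ρ, AnalyticAt ℂ φ1 t) ∧ φ1 z ≠ 0 ∧
      (∀ t, φ t = (t - z) ^ m * φ1 t) := by
  obtain ⟨m, hm⟩ := ENat.ne_top_iff_exists.1 hord
  obtain ⟨g, hg, hg0, hgφ⟩ := (hz.analyticOrderAt_eq_natCast).1 hm.symm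
  classical
  refine ⟨m, fun t => if t = z then g z else φ t / (t - z) ^ m, ?_, ?_, ?_⟩
  · intro t ht
    by_cases htz : t = z
    · subst htz
      refine hg.congr ?_
      filter_upwards [hgφ] with s hs
      by_cases hst : s = t
      · simp [hst]
      · have : (s - t) ^ m ≠ 0 := pow_ne_zero _ (sub_ne_zero.2 hst)
        rw [if_neg hst, hs, smul_eq_mul]
        field_simp
    · have h1 : AnalyticAt ℂ (fun s => φ s / (s - z) ^ m) t := by
        refine (hφ t ht).div ?_ ?_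
        · exact (analyticAt_id.sub analyticAt_const).pow m
        · exact pow_ne_zero _ (sub_ne_zero.2 htz)
      refine h1.congr ?_
      filter_upwards [isOpen_ne.mem_nhds htz] with s hs
      rw [if_neg hs]
  · simpa using hg0
  · intro t
    by_cases htz : t = z
    · subst htz
      have := hgφ.self_of_nhds
      simpa [smul_eq_mul] using this
    · have : (t - z) ^ m ≠ 0 := pow_ne_zero _ (sub_ne_zero.2 htz)
      simp only [if_neg htz]
      field_simp

private lemma fac_finset {ρ : ℝ} (Z : Finset ℂ) : ∀ (φ : ℂ → ℂ)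
    (_ : ∀ t ∈ closedBall (0 : ℂ) ρ, AnalyticAt ℂ φ t)
    (_ : ∀ t ∈ closedBall (0 : ℂ) ρ, analyticOrderAt φ t ≠ ⊤)
    (_ : ∀ t ∈ closedBall (0 : ℂ) ρ, φ t = 0 → t ∈ Z) (_ : ∀ z ∈ Z, ‖z‖ < ρ),
    ∃ (ν : ℕ) (r : Fin ν → ℂ) (w : ℂ → ℂ), (∀ i, ‖r i‖ < ρ) ∧
      (∀ t ∈ closedBall (0 : ℂ) ρ, AnalyticAt ℂ w t ∧ w t ≠ 0) ∧
      ∀ t, φ t = (∏ i, (t - r i)) * w t := by
  classical
  induction Z using Finset.induction_on with
  | empty =>
    intro φ hφ _ h0 _
    refine ⟨0, Fin.elim0, φ, fun i => i.elim0, fun t ht => ⟨hφ t ht, fun h => ?_⟩, fun t => by simp⟩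
    simpa using h0 t ht h
  | insert z Z hzZ ih =>
    intro φ hφ hord h0 hZ
    have hzρ : ‖z‖ < ρ := hZ z (Finset.mem_insert_self _ _)
    have hzb : z ∈ closedBall (0 : ℂ) ρ := by
      rw [mem_closedBall, dist_zero_right]; exact hzρ.le
    obtain ⟨m, φ1, h1, h2, h3⟩ := divide_zero hφ (hφ z hzb) (hord z hzb)
    obtain ⟨ν, r, w, hr, hw, hfac⟩ := ih φ1 h1 (by
      intro t ht htop
      apply hord t ht
      rw [analyticOrderAt_eq_top] at htop ⊢
      filter_upwards [htop] with s hs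
      rw [h3 s, hs, mul_zero]) (by
      intro t ht h
      have : φ t = 0 := by rw [h3 t, h, mul_zero]
      rcases Finset.mem_insert.1 (h0 t ht this) with h' | h'
      · subst h'; exact absurd h h2
      · exact h') (fun y hy => hZ y (Finset.mem_insert_of_mem hy))
    refine ⟨m + ν, Fin.append (fun _ : Fin m => z) r, w, ?_, hw, ?_⟩
    · intro i
      refine Fin.addCases (fun i => ?_) (fun i => ?_) i
      · rw [Fin.append_left]; exact hzρ
      · rw [Fin.append_right]; exact hr i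
    · intro t
      rw [Fin.prod_univ_add]
      simp only [Fin.append_left, Fin.append_right, Finset.prod_const, Finset.card_univ, Fintype.card_fin]
      rw [h3 t, hfac t, mul_assoc]

theorem exists_fac {φ : ℂ → ℂ} {ρ : ℝ} (hρ : 0 < ρ) (hφ : ∀ t ∈ closedBall (0 : ℂ) ρ, AnalyticAt ℂ φ t) (h0 : ∀ t ∈ sphere (0 : ℂ) ρ, φ t ≠ 0) :
    ∃ (ν : ℕ) (r : Fin ν → ℂ) (w : ℂ → ℂ), (∀ i, ‖r i‖ < ρ) ∧ (∀ t ∈ closedBall (0 : ℂ) ρ, AnalyticAt ℂ w t ∧ w t ≠ 0) ∧
      ∀ t ∈ closedBall (0 : ℂ) ρ, φ =ᶠ[𝓝 t] fun t => (∏ i, (t - r i)) * w t := by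
  classical
  have hρs : ((ρ : ℝ) : ℂ) ∈ sphere (0 : ℂ) ρ := by
    rw [mem_sphere, dist_zero_right, Complex.norm_real, Real.norm_of_nonneg hρ.le]
  have hnotloc : ∀ t ∈ closedBall (0 : ℂ) ρ, ¬ (∀ᶠ s in 𝓝 t, φ s = 0) := by
    intro t ht hev
    have hpre : IsPreconnected (closedBall (0 : ℂ) ρ) := (convex_closedBall 0 ρ).isPreconnected
    have hA : AnalyticOnNhd ℂ φ (closedBall (0 : ℂ) ρ) := fun s hs => hφ s hs
    have := hA.eqOn_zero_of_preconnected_of_eventuallyEq_zero hpre ht hev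
    exact h0 _ hρs (this (sphere_subset_closedBall hρs))
  have hord : ∀ t ∈ closedBall (0 : ℂ) ρ, analyticOrderAt φ t ≠ ⊤ := by
    intro t ht htop
    rw [analyticOrderAt_eq_top] at htop
    exact hnotloc t ht htop
  -- finitely many zeros
  have hfin : ∃ Z : Finset ℂ, ∀ t ∈ closedBall (0 : ℂ) ρ, φ t = 0 → t ∈ Z := by
    have hU : ∀ t ∈ closedBall (0 : ℂ) ρ, {s : ℂ | φ s ≠ 0 ∨ s = t} ∈ 𝓝 t := by
      intro t ht
      rcases (hφ t ht).eventually_eq_zero_or_eventually_ne_zero with h | h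
      · exact absurd h (hnotloc t ht)
      · rw [eventually_nhdsWithin_iff] at h
        filter_upwards [h] with s hs
        by_cases hst : s = t
        · right; exact hst
        · left; exact hs hst
    obtain ⟨F, hF1, hF2⟩ := (isCompact_closedBall (0 : ℂ) ρ).elim_nhds_subcover (fun t => {s : ℂ | φ s ≠ 0 ∨ s = t}) hU
    refine ⟨F, fun t ht h => ?_⟩
    obtain ⟨x, hx, hx2⟩ := mem_iUnion₂.1 (hF2 ht)
    rcases hx2 with h' | h'
    · exact absurd h h'
    · rw [h']; exact hx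
  obtain ⟨Z, hZ⟩ := hfin
  obtain ⟨ν, r, w, hr, hw, hfac⟩ := fac_finset (ρ := ρ) (Z.filter fun z => ‖z‖ < ρ) φ hφ hord (by
    intro t ht h
    refine Finset.mem_filter.2 ⟨hZ t ht h, ?_⟩
    rw [mem_closedBall, dist_zero_right] at ht
    rcases ht.lt_or_eq with h' | h'
    · exact h'
    · exact absurd h (h0 t (by rw [mem_sphere, dist_zero_right]; exact h'))) (fun z hz => (Finset.mem_filter.1 hz).2)
  exact ⟨ν, r, w, hr, hw, fun t _ => Eventually.of_forall hfac⟩

theorem power_sum {ρ : ℝ} (hρ : 0 < ρ) {φ w H : ℂ → ℂ} {ν : ℕ} {r : Fin ν → ℂ} (hr : ∀ i, ‖r i‖ < ρ) (hw : ∀ t ∈ closedBall (0 : ℂ) ρ, AnalyticAt ℂ w t ∧ w t ≠ 0)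
    (hφ : ∀ t ∈ closedBall (0 : ℂ) ρ, φ =ᶠ[𝓝 t] fun t => (∏ i, (t - r i)) * w t) (hH : ∀ t ∈ closedBall (0 : ℂ) ρ, AnalyticAt ℂ H t) :
    (∮ t in C(0, ρ), H t * deriv φ t / φ t) = 2 * Real.pi * Complex.I * ∑ i, H (r i) := by
  have hne : ∀ t ∈ sphere (0 : ℂ) ρ, ∀ i, t - r i ≠ 0 := by
    intro t ht i h
    rw [mem_sphere, dist_zero_right] at ht
    have := hr i
    rw [← sub_eq_zero.1 h, ht] at this
    exact lt_irrefl _ this
  have hdiff : DifferentiableOn ℂ H (closedBall 0 ρ) :=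
    fun t ht => (hH t ht).differentiableAt.differentiableWithinAt
  have hdiff2 : DifferentiableOn ℂ (fun t => H t * logDeriv w t) (closedBall 0 ρ) := by
    intro t ht
    refine DifferentiableAt.differentiableWithinAt ?_
    have h1 : AnalyticAt ℂ (fun t => H t * (deriv w t / w t)) t :=
      (hH t ht).mul ((hw t ht).1.deriv.div (hw t ht).1 (hw t ht).2)
    exact h1.differentiableAt
  have hEq : EqOn (fun t => H t * deriv φ t / φ t)
      (fun t => (∑ i, (t - r i)⁻¹ • H t) + H t * logDeriv w t) (sphere 0 ρ) := by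
    intro t ht
    have htc := sphere_subset_closedBall ht
    have h1 : logDeriv φ t = logDeriv (fun t => (∏ i, (t - r i)) * w t) t :=
      (logDeriv_congr_nhds (hφ t htc)).self_of_nhds
    have h2 : logDeriv (fun t => (∏ i, (t - r i)) * w t) t =
        (∑ i, (t - r i)⁻¹) + logDeriv w t := by
      rw [logDeriv_mul t (Finset.prod_ne_zero_iff.2 fun i _ => hne t ht i) (hw t htc).2
        (by fun_prop) (hw t htc).1.differentiableAt,
        logDeriv_prod (fun i _ => hne t ht i) (fun i _ => by fun_prop)]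
      congr 1
      refine Finset.sum_congr rfl fun i _ => ?_
      rw [logDeriv_apply, deriv_sub_const, deriv_id'', one_div]
    change H t * deriv φ t / φ t = (∑ i, (t - r i)⁻¹ • H t) + H t * logDeriv w t
    rw [mul_div_assoc, ← logDeriv_apply, h1, h2, mul_add, Finset.mul_sum]
    congr 1
    refine Finset.sum_congr rfl fun i _ => ?_
    rw [smul_eq_mul, mul_comm]
  rw [circleIntegral.integral_congr hρ.le hEq]
  have hci : ∀ i ∈ (Finset.univ : Finset (Fin ν)), CircleIntegrable (fun t => (t - r i)⁻¹ • H t) 0 ρ := by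
    intro i _
    refine ContinuousOn.circleIntegrable hρ.le ?_
    have h5 : ContinuousOn (fun t : ℂ => (t - r i)⁻¹) (sphere 0 ρ) :=
      (continuousOn_id.sub continuousOn_const).inv₀ fun t ht => hne t ht i
    exact h5.smul (hdiff.continuousOn.mono sphere_subset_closedBall)
  rw [circleIntegral.integral_add, circleIntegral.integral_fun_sum hci]
  · have h3 : (∮ t in C(0, ρ), H t * logDeriv w t) = 0 := by
      refine DiffContOnCl.circleIntegral_eq_zero hρ.le ?_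
      exact (hdiff2.mono closure_ball_subset_closedBall).diffContOnCl
    rw [h3, add_zero, Finset.mul_sum]
    refine Finset.sum_congr rfl fun i _ => ?_
    rw [hdiff.circleIntegral_sub_inv_smul (by rw [mem_ball, dist_zero_right]; exact hr i), smul_eq_mul]
  · have := CircleIntegrable.fun_sum Finset.univ hci
    exact this
  · exact ContinuousOn.circleIntegrable hρ.le (hdiff2.continuousOn.mono sphere_subset_closedBall)

open MvPolynomial in
private lemma esymm_newton_aux (ν : ℕ) : ∀ k : ℕ, k ≤ ν → ∃ P : MvPolynomial (Fin ν) ℂ, ∀ a : Fin ν → ℂ,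
    eval a (esymm (Fin ν) ℂ k) = eval (fun j : Fin ν => ∑ i, a i ^ ((j : ℕ) + 1)) P := by
  intro k
  induction k using Nat.strong_induction_on with
  | _ k ih =>
    intro hk
    rcases Nat.eq_zero_or_pos k with h0 | h0
    · subst h0
      exact ⟨1, fun a => by simp⟩
    · have hex : ∀ j : ℕ, ∃ Q : MvPolynomial (Fin ν) ℂ, j < k → ∀ a : Fin ν → ℂ,
          eval a (esymm (Fin ν) ℂ j) = eval (fun j : Fin ν => ∑ i, a i ^ ((j : ℕ) + 1)) Q := by
        intro j
        by_cases hj : j < k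
        · obtain ⟨Q, hQ⟩ := ih j hj (hj.le.trans hk)
          exact ⟨Q, fun _ => hQ⟩
        · exact ⟨0, fun h => absurd h hj⟩
      choose Q hQ using hex
      have hps : ∀ j : ℕ, ∃ R : MvPolynomial (Fin ν) ℂ, 0 < j → j ≤ k → ∀ a : Fin ν → ℂ,
          eval a (psum (Fin ν) ℂ j) = eval (fun j : Fin ν => ∑ i, a i ^ ((j : ℕ) + 1)) R := by
        intro j
        by_cases hj : 0 < j ∧ j ≤ k
        · refine ⟨X ⟨j - 1, by omega⟩, fun _ _ a => ?_⟩
          rw [eval_X, psum, map_sum]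
          refine Finset.sum_congr rfl fun i _ => ?_
          have : j - 1 + 1 = j := by omega
          simp [this]
        · exact ⟨0, fun h1 h2 => absurd ⟨h1, h2⟩ hj⟩
      choose R hR using hps
      refine ⟨C ((k : ℂ)⁻¹ * (-1) ^ (k + 1)) * ∑ a ∈ Finset.HasAntidiagonal.antidiagonal k with a.1 < k, C ((-1 : ℂ) ^ a.1) * Q a.1 * R a.2, fun a => ?_⟩
      have hk0 : (k : ℂ) ≠ 0 := by exact_mod_cast h0.ne'
      have h1 := congrArg (eval a) (mul_esymm_eq_sum (Fin ν) ℂ k)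
      simp only [map_mul, map_natCast, map_pow, map_neg, map_one, map_sum] at h1
      have h2 : eval a (esymm (Fin ν) ℂ k) = (k : ℂ)⁻¹ * ((k : ℂ) * eval a (esymm (Fin ν) ℂ k)) := by
        field_simp
      rw [h2, h1]
      simp only [map_mul, eval_C, map_sum]
      rw [mul_assoc]
      congr 2
      refine Finset.sum_congr rfl fun b hb => ?_
      obtain ⟨hb1, hb2⟩ := Finset.mem_filter.1 hb
      rw [Finset.HasAntidiagonal.mem_antidiagonal] at hb1
      rw [hQ b.1 hb2 a, hR b.2 (by omega) (by omega) a]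

theorem esymm_newton (ν : ℕ) : ∃ P : MvPolynomial (Fin ν) ℂ, ∀ a : Fin ν → ℂ, ∏ i, a i = MvPolynomial.eval (fun k : Fin ν => ∑ i, a i ^ ((k : ℕ) + 1)) P := by
  obtain ⟨P, hP⟩ := esymm_newton_aux ν ν le_rfl
  refine ⟨P, fun a => ?_⟩
  rw [← hP a, MvPolynomial.esymm]
  have : (Finset.univ : Finset (Fin ν)).powersetCard ν = {Finset.univ} := by
    have := Finset.powersetCard_self (Finset.univ : Finset (Fin ν))
    simpa using this
  rw [this, Finset.sum_singleton, map_prod]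
  simp

end Pool.Agent.H22.HF

end

section

/-!
# TB Cur: a curve in a chart

`exists_coef`: for a curve `F` in the surface, near the centre of the chart, `F = c • σ (τ F)` and `F' = c • dσ ((τ F)') + a • σ (τ F)`.
-/

set_option autoImplicit false

open Topology Filter Metric

noncomputable section

namespace Pool.Agent.H36.TB

open Pool.Agent.H17BP (IsForm IsChart)

variable {V : Type} [NormedAddCommGroup V] [NormedSpace ℂ V] {X : Set V}

/-- the derivative of a curve in the surface in terms of a chart -/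
theorem exists_coef [FiniteDimensional ℂ V] {σ : ℂ × ℂ → V} {τ : V → ℂ × ℂ} (h : IsChart X σ τ) :
    ∀ᶠ y in 𝓝 (σ 0), ∀ (F : ℂ → V) (z : ℂ), AnalyticAt ℂ F z → (∀ᶠ w in 𝓝 z, F w ∈ X) → F z = y →
      ∃ c a : ℂ, c ≠ 0 ∧ F z = c • σ (τ y) ∧ deriv F z = c • fderiv ℂ σ (τ y) (deriv (fun w => τ (F w)) z) + a • σ (τ y) := by
  haveI : CompleteSpace V := FiniteDimensional.complete ℂ V
  have hτ0 : τ (σ 0) = 0 := h.left.self_of_nhds
  have hτt : Tendsto τ (𝓝 (σ 0)) (𝓝 0) := by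
    have := h.τ_an.continuousAt.tendsto
    rwa [hτ0] at this
  have hσne : ∀ᶠ p in 𝓝 (0 : ℂ × ℂ), σ p ≠ 0 := h.σ_an.continuousAt.eventually_ne h.ne
  filter_upwards [eventually_eventually_nhds.2 h.right, h.τ_an.eventually_analyticAt, hτt.eventually h.σ_an.eventually_analyticAt,
    hτt.eventually hσne] with y h1 h2 h3 h4 F z hF hFX hFz
  subst hFz
  obtain ⟨e, he⟩ : ∃ e : V →L[ℂ] ℂ, e (σ (τ (F z))) ≠ 0 := by
    obtain ⟨e, -, he⟩ := exists_dual_vector ℂ (σ (τ (F z))) (norm_ne_zero_iff.mpr h4)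
    refine ⟨e, ?_⟩
    rw [he]
    exact Complex.ofReal_ne_zero.mpr (norm_ne_zero_iff.mpr h4)
  have hτF : AnalyticAt ℂ (fun w => τ (F w)) z := AnalyticAt.comp h2 hF
  have hστF : AnalyticAt ℂ (fun w => σ (τ (F w))) z := AnalyticAt.comp h3 hτF
  have he1 : AnalyticAt ℂ (fun w => e (F w)) z := AnalyticAt.comp (e.analyticAt _) hF
  have he2 : AnalyticAt ℂ (fun w => e (σ (τ (F w)))) z := AnalyticAt.comp (e.analyticAt _) hστF
  have hc : AnalyticAt ℂ (fun w => e (F w) / e (σ (τ (F w)))) z := he1.div he2 he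
  have hne : ∀ᶠ w in 𝓝 z, e (σ (τ (F w))) ≠ 0 := he2.continuousAt.eventually_ne he
  have hex : ∀ᶠ w in 𝓝 z, ∃ c : ℂ, c ≠ 0 ∧ F w = c • σ (τ (F w)) := by
    filter_upwards [hF.continuousAt.eventually h1, hFX] with w k1 k2
    exact k1 k2
  have hval : ∀ᶠ w in 𝓝 z, F w = (e (F w) / e (σ (τ (F w)))) • σ (τ (F w)) := by
    filter_upwards [hex, hne] with w k1 k2
    obtain ⟨c, -, hc'⟩ := k1
    have k3 : e (F w) = c * e (σ (τ (F w))) := by
      conv_lhs => rw [hc']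
      rw [map_smul, smul_eq_mul]
    rw [k3, mul_div_cancel_right₀ _ k2]
    exact hc'
  obtain ⟨c₁, hc₁, hc₁'⟩ := hex.self_of_nhds
  have hc0 : e (F z) / e (σ (τ (F z))) = c₁ := by
    have k3 : e (F z) = c₁ * e (σ (τ (F z))) := by
      conv_lhs => rw [hc₁']
      rw [map_smul, smul_eq_mul]
    rw [k3, mul_div_cancel_right₀ _ he]
  have hd1 : HasDerivAt (fun w => τ (F w)) (deriv (fun w => τ (F w)) z) z := hτF.differentiableAt.hasDerivAt
  have hd2 : HasDerivAt (fun w => σ (τ (F w))) (fderiv ℂ σ (τ (F z)) (deriv (fun w => τ (F w)) z)) z :=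
    HasFDerivAt.comp_hasDerivAt z (l := σ) (l' := fderiv ℂ σ (τ (F z))) h3.differentiableAt.hasFDerivAt hd1
  have hd3 := hc.differentiableAt.hasDerivAt.smul hd2
  have hd4 : deriv F z = deriv (fun w => (e (F w) / e (σ (τ (F w)))) • σ (τ (F w))) z := Filter.EventuallyEq.deriv_eq hval
  refine ⟨c₁, deriv (fun w => e (F w) / e (σ (τ (F w)))) z, hc₁, hc₁', ?_⟩
  rw [hd4]
  have hd5 : deriv (fun w => (e (F w) / e (σ (τ (F w)))) • σ (τ (F w))) z =
      (e (F z) / e (σ (τ (F z)))) • fderiv ℂ σ (τ (F z)) (deriv (fun w => τ (F w)) z) +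
      deriv (fun w => e (F w) / e (σ (τ (F w)))) z • σ (τ (F z)) := hd3.deriv
  rw [hd5, hc0]

end Pool.Agent.H36.TB

end
end

section

/-!
# E1 ResL: the common null directions of two symmetric differentials, in a chart
-/

set_option autoImplicit false

open Topology Filter Metric

noncomputable section

namespace Pool.Agent.E1

open Pool.Agent.H36.BP (EN)
open Pool.Agent.H14.PP (Tan)
open Pool.Agent.H17BP (IsChart)

variable {N : ℕ} {X : Set (EN N)}

/-- the differential of a parametrization maps to the tangent spaces -/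
theorem ResL_tan {σ : ℂ × ℂ → EN N} {p : ℂ × ℂ} (hσ : AnalyticAt ℂ σ p) (hX : ∀ᶠ q in 𝓝 p, σ q ∈ X) (v : ℂ × ℂ) :
    Tan X (σ p) (fderiv ℂ σ p v) := by
  have hl : AnalyticAt ℂ (fun z : ℂ => p + z • v) 0 := by fun_prop
  have h0 : p + (0 : ℂ) • v = p := by simp
  have hσ' : AnalyticAt ℂ σ (p + (0 : ℂ) • v) := by rwa [h0]
  refine ⟨fun z => σ (p + z • v), ⟨AnalyticAt.comp (g := σ) (f := fun z : ℂ => p + z • v) hσ' hl, ?_⟩, by simp, ?_⟩
  · have h1 : Tendsto (fun z : ℂ => p + z • v) (𝓝 0) (𝓝 p) := by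
      have := hl.continuousAt.tendsto
      rwa [h0] at this
    exact h1.eventually hX
  · have h1 : HasFDerivAt σ (fderiv ℂ σ p) (p + (0 : ℂ) • v) := by
      rw [h0]
      exact hσ.differentiableAt.hasFDerivAt
    have h2 : HasDerivAt (fun z : ℂ => p + z • v) v 0 := by
      have h3 : HasDerivAt (fun z : ℂ => z • v) ((1 : ℂ) • v) 0 := (hasDerivAt_id (0 : ℂ)).smul_const v
      rw [one_smul] at h3
      exact h3.const_add p
    exact (h1.comp_hasDerivAt (0 : ℂ) h2).deriv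

/-- the tangent spaces in a chart -/
theorem ResL_span {σ : ℂ × ℂ → EN N} {τ : EN N → ℂ × ℂ} (hσ : IsChart X σ τ) :
    ∀ᶠ p in 𝓝 (0 : ℂ × ℂ), ∀ w, Tan X (σ p) w → ∃ (v : ℂ × ℂ) (a : ℂ), w = fderiv ℂ σ p v + a • σ p := by
  have hσc : Tendsto σ (𝓝 (0 : ℂ × ℂ)) (𝓝 (σ 0)) := hσ.σ_an.continuousAt.tendsto
  have hne : ∀ᶠ p in 𝓝 (0 : ℂ × ℂ), σ p ≠ 0 := hσ.σ_an.continuousAt.eventually_ne hσ.ne
  filter_upwards [hσc.eventually (Pool.Agent.H36.TB.exists_coef hσ), hσ.left, hne] with p h1 h3 h4 w hw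
  obtain ⟨F, ⟨hF, hFX⟩, hF0, hFd⟩ := hw
  obtain ⟨c, a, hc, h5, h6⟩ := h1 F 0 hF hFX hF0
  rw [hF0, h3] at h5
  rw [h3] at h6
  have hc1 : c = 1 := by
    by_contra hc1
    apply h4
    have h7 : (c - 1) • σ p = 0 := by
      rw [sub_smul, one_smul, ← h5, sub_self]
    exact (smul_eq_zero.1 h7).resolve_left (sub_ne_zero.2 hc1)
  rw [hc1, one_smul] at h6
  exact ⟨_, a, hFd ▸ h6⟩

/-- the parametrization is transversal to the lines of the cone -/
theorem ResL_indep {σ : ℂ × ℂ → EN N} {τ : EN N → ℂ × ℂ} (hσ : IsChart X σ τ) :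
    ∀ᶠ p in 𝓝 (0 : ℂ × ℂ), ∀ (v : ℂ × ℂ) (a : ℂ), fderiv ℂ σ p v = a • σ p → v = 0 := by
  have hσc : Tendsto σ (𝓝 (0 : ℂ × ℂ)) (𝓝 (σ 0)) := hσ.σ_an.continuousAt.tendsto
  have h1 : ∀ᶠ p in 𝓝 (0 : ℂ × ℂ), AnalyticAt ℂ σ p := hσ.σ_an.eventually_analyticAt
  have h2 : ∀ᶠ p in 𝓝 (0 : ℂ × ℂ), AnalyticAt ℂ τ (σ p) := hσc.eventually hσ.τ_an.eventually_analyticAt
  have h3 : ∀ᶠ p in 𝓝 (0 : ℂ × ℂ), ∀ᶠ q in 𝓝 p, τ (σ q) = q := eventually_eventually_nhds.2 hσ.left
  have h4 : ∀ᶠ p in 𝓝 (0 : ℂ × ℂ), ∀ᶠ c in 𝓝 (1 : ℂ), τ (c • σ p) = τ (σ p) := by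
    have h5 : ∀ᶠ y in 𝓝 (σ 0), ∀ᶠ c in 𝓝 (1 : ℂ), τ (c • y) = τ y := by
      have h6 := hσ.inv
      rw [nhds_prod_eq] at h6
      exact h6.curry
    exact hσc.eventually h5
  filter_upwards [h1, h2, h3, h4] with p p1 p2 p3 p4 v a hv
  have h5 : HasFDerivAt τ (fderiv ℂ τ (σ p)) (σ p) := p2.differentiableAt.hasFDerivAt
  have h6 : fderiv ℂ τ (σ p) (fderiv ℂ σ p v) = v := by
    have h7 := h5.comp p p1.differentiableAt.hasFDerivAt
    have h8 : HasFDerivAt (τ ∘ σ) (ContinuousLinearMap.id ℂ (ℂ × ℂ)) p := (hasFDerivAt_id p).congr_of_eventuallyEq p3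
    have := DFunLike.congr_fun (h7.unique h8) v
    simpa using this
  have h7 : fderiv ℂ τ (σ p) (σ p) = 0 := by
    have h8 : HasFDerivAt τ (fderiv ℂ τ (σ p)) ((1 : ℂ) • σ p) := by
      rw [one_smul]
      exact h5
    have h9 : HasDerivAt (fun c : ℂ => c • σ p) (σ p) 1 := by
      simpa using (hasDerivAt_id (1 : ℂ)).smul_const (σ p)
    have h10 := h8.comp_hasDerivAt (1 : ℂ) h9
    have h11 : HasDerivAt (τ ∘ fun c : ℂ => c • σ p) 0 1 := (hasDerivAt_const (1 : ℂ) (τ (σ p))).congr_of_eventuallyEq p4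
    exact h10.unique h11
  rw [← h6, hv, map_smul, h7, smul_zero]

end Pool.Agent.E1

end
end

section

/-!
# BD CInv: a quantitative inverse function theorem in one variable

`u` approximates the linear map `w ↦ u'(w₀) w` on the convex set `ball w₀ r` with the constant `a / 4` (`ApproximatesLinearOn`; mean value inequality for `u w - u'(w₀) w`), so
`‖u w - u w'‖ ≥ (a - a / 4) ‖w - w'‖`.  The image of `closedBall w₀ (2 r / 3)` contains `closedBall (u w₀) ((3 a / 4) (2 r / 3))`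
(`ApproximatesLinearOn.surjOn_closedBall_of_nonlinearRightInverse`, or Banach's fixed point theorem for `w ↦ w - (u w - t) / u'(w₀)`).  Let `ξ t` be the unique preimage; `ξ` is Lipschitz by the first part, and
holomorphic because `u'(ξ t) ≠ 0` (`HasDerivAt.of_local_left_inverse`).
-/

set_option autoImplicit false

open Topology Filter Metric

namespace Pool.Agent.H5.BD

private theorem inv_approx {u : ℂ → ℂ} {w₀ : ℂ} {r a : ℝ} (hu : DifferentiableOn ℂ u (ball w₀ r))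
    (hlip : ∀ w ∈ ball w₀ r, ‖deriv u w - deriv u w₀‖ ≤ a / 4) {w w' : ℂ} (hw : w ∈ ball w₀ r) (hw' : w' ∈ ball w₀ r) :
    ‖u w - u w' - deriv u w₀ * (w - w')‖ ≤ a / 4 * ‖w - w'‖ := by
  have h1 : ∀ z ∈ ball w₀ r, HasDerivWithinAt (fun z => u z - deriv u w₀ * z) (deriv u z - deriv u w₀) (ball w₀ r) z := by
    intro z hz
    have h2 : HasDerivAt u (deriv u z) z := (hu.differentiableAt (isOpen_ball.mem_nhds hz)).hasDerivAt
    have h3 : HasDerivAt (fun z => deriv u w₀ * z) (deriv u w₀) z := by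
      simpa using (hasDerivAt_id z).const_mul (deriv u w₀)
    exact (h2.sub h3).hasDerivWithinAt
  have h4 := (convex_ball w₀ r).norm_image_sub_le_of_norm_hasDerivWithin_le h1 hlip hw' hw
  have h5 : u w - deriv u w₀ * w - (u w' - deriv u w₀ * w') = u w - u w' - deriv u w₀ * (w - w') := by ring
  rwa [h5] at h4

private theorem inv_lower {u : ℂ → ℂ} {w₀ : ℂ} {r a : ℝ} (ha : 0 < a) (hu : DifferentiableOn ℂ u (ball w₀ r))
    (h0 : a ≤ ‖deriv u w₀‖) (hlip : ∀ w ∈ ball w₀ r, ‖deriv u w - deriv u w₀‖ ≤ a / 4) {w w' : ℂ}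
    (hw : w ∈ ball w₀ r) (hw' : w' ∈ ball w₀ r) : (a / 2) * ‖w - w'‖ ≤ ‖u w - u w'‖ := by
  have h1 := inv_approx hu hlip hw hw'
  have h2 : ‖deriv u w₀ * (w - w')‖ ≤ ‖u w - u w'‖ + ‖u w - u w' - deriv u w₀ * (w - w')‖ := by
    have h3 := norm_sub_le (u w - u w') (u w - u w' - deriv u w₀ * (w - w'))
    rwa [sub_sub_cancel] at h3
  rw [norm_mul] at h2
  have h3 : a * ‖w - w'‖ ≤ ‖deriv u w₀‖ * ‖w - w'‖ := mul_le_mul_of_nonneg_right h0 (norm_nonneg _)
  have h4 : 0 ≤ a * ‖w - w'‖ := by positivity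
  linarith

private theorem inv_surj {u : ℂ → ℂ} {w₀ : ℂ} {r a : ℝ} (hr : 0 < r) (ha : 0 < a) (hu : DifferentiableOn ℂ u (ball w₀ r))
    (h0 : a ≤ ‖deriv u w₀‖) (hlip : ∀ w ∈ ball w₀ r, ‖deriv u w - deriv u w₀‖ ≤ a / 4) {t : ℂ} (ht : t ∈ ball (u w₀) (a * r / 4)) :
    ∃ w ∈ ball w₀ r, u w = t := by
  have hne : deriv u w₀ ≠ 0 := by
    intro h
    rw [h, norm_zero] at h0
    linarith
  let f' : ℂ →L[ℂ] ℂ := ContinuousLinearMap.toSpanSingleton ℂ (deriv u w₀)
  have hf' : ∀ x, f' x = deriv u w₀ * x := fun x => by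
    show x • deriv u w₀ = deriv u w₀ * x
    rw [smul_eq_mul, mul_comm]
  let c : NNReal := ⟨a / 4, by positivity⟩
  have happ : ApproximatesLinearOn u f' (ball w₀ r) c := by
    intro x hx y hy
    rw [hf']
    exact inv_approx hu hlip hx hy
  let g' : f'.NonlinearRightInverse :=
    { toFun := fun y => (deriv u w₀)⁻¹ * y
      nnnorm := ⟨a⁻¹, by positivity⟩
      bound' := fun y => by
        rw [norm_mul, norm_inv]
        exact mul_le_mul_of_nonneg_right (inv_anti₀ ha h0) (norm_nonneg _)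
      right_inv' := fun y => by
        rw [hf', mul_inv_cancel_left₀ hne] }
  have hsub : closedBall w₀ (2 * r / 3) ⊆ ball w₀ r := closedBall_subset_ball (by linarith)
  have hsurj := happ.surjOn_closedBall_of_nonlinearRightInverse g' (ε := 2 * r / 3) (b := w₀) (by positivity) hsub
  have hmem : t ∈ closedBall (u w₀) (((g'.nnnorm : ℝ)⁻¹ - c) * (2 * r / 3)) := by
    have h1 : ((g'.nnnorm : ℝ)⁻¹ - c) * (2 * r / 3) = a * r / 2 := by
      show ((a⁻¹ : ℝ)⁻¹ - a / 4) * (2 * r / 3) = a * r / 2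
      rw [inv_inv]
      ring
    rw [h1]
    refine closedBall_subset_closedBall ?_ (ball_subset_closedBall ht)
    have : 0 < a * r := mul_pos ha hr
    linarith
  obtain ⟨w, hw, hwt⟩ := hsurj hmem
  exact ⟨w, hsub hw, hwt⟩

theorem exists_inv {u : ℂ → ℂ} {w₀ : ℂ} {r a : ℝ} (hr : 0 < r) (ha : 0 < a) (hu : DifferentiableOn ℂ u (ball w₀ r))
    (h0 : a ≤ ‖deriv u w₀‖) (hlip : ∀ w ∈ ball w₀ r, ‖deriv u w - deriv u w₀‖ ≤ a / 4) :
    (∀ w ∈ ball w₀ r, ∀ w' ∈ ball w₀ r, (a / 2) * ‖w - w'‖ ≤ ‖u w - u w'‖) ∧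
      ∃ ξ : ℂ → ℂ, DifferentiableOn ℂ ξ (ball (u w₀) (a * r / 4)) ∧ ∀ t ∈ ball (u w₀) (a * r / 4), ξ t ∈ ball w₀ r ∧ u (ξ t) = t := by
  classical
  have hlow : ∀ w ∈ ball w₀ r, ∀ w' ∈ ball w₀ r, (a / 2) * ‖w - w'‖ ≤ ‖u w - u w'‖ :=
    fun w hw w' hw' => inv_lower ha hu h0 hlip hw hw'
  refine ⟨hlow, ?_⟩
  have hex : ∀ t : ℂ, ∃ w : ℂ, t ∈ ball (u w₀) (a * r / 4) → w ∈ ball w₀ r ∧ u w = t := by
    intro t
    by_cases ht : t ∈ ball (u w₀) (a * r / 4)
    · obtain ⟨w, hw, hwt⟩ := inv_surj hr ha hu h0 hlip ht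
      exact ⟨w, fun _ => ⟨hw, hwt⟩⟩
    · exact ⟨w₀, fun h => absurd h ht⟩
  choose ξ hξ using hex
  refine ⟨ξ, fun t ht => ?_, fun t ht => hξ t ht⟩
  have hnhds : ball (u w₀) (a * r / 4) ∈ 𝓝 t := isOpen_ball.mem_nhds ht
  have hcont : ContinuousAt ξ t := by
    have h1 : ∀ᶠ s in 𝓝 t, ‖ξ s - ξ t‖ ≤ 2 / a * ‖s - t‖ := by
      filter_upwards [hnhds] with s hs
      have h2 := hlow (ξ s) (hξ s hs).1 (ξ t) (hξ t ht).1
      rw [(hξ s hs).2, (hξ t ht).2] at h2
      rw [div_mul_eq_mul_div, le_div_iff₀ ha]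
      linarith
    rw [ContinuousAt, tendsto_iff_norm_sub_tendsto_zero]
    refine squeeze_zero' (Eventually.of_forall fun s => norm_nonneg _) h1 ?_
    have h2 : Tendsto (fun s : ℂ => 2 / a * ‖s - t‖) (𝓝 t) (𝓝 (2 / a * ‖t - t‖)) :=
      ((continuous_id.sub continuous_const).norm.const_mul (2 / a)).tendsto t |>.congr fun _ => rfl
    simpa using h2
  have hd : HasDerivAt u (deriv u (ξ t)) (ξ t) :=
    (hu.differentiableAt (isOpen_ball.mem_nhds (hξ t ht).1)).hasDerivAt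
  have hne : deriv u (ξ t) ≠ 0 := by
    intro h
    have h1 := hlip (ξ t) (hξ t ht).1
    rw [h, zero_sub, norm_neg] at h1
    linarith
  have hinv : ∀ᶠ s in 𝓝 t, u (ξ s) = s := by
    filter_upwards [hnhds] with s hs
    exact (hξ s hs).2
  exact (HasDerivAt.of_local_left_inverse hcont hd hne hinv).differentiableAt.differentiableWithinAt

end Pool.Agent.H5.BD

end

section

/-!
# Homogenisation
-/

open MvPolynomial

noncomputable section

namespace Pool.Agent.H92.GT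

variable {r : ℕ}

/-- The homogenised polynomial. -/
def hmg {B : Type} [CommRing B] [Algebra ℂ B] (p : MvPolynomial (Fin r) ℂ) (A : Fin (r + 1) → B) :
    B :=
  ∑ m ∈ p.support, algebraMap ℂ B (p.coeff m) *
    (A 0 ^ (p.totalDegree - ∑ i, m i) * ∏ i : Fin r, A (Fin.succ i) ^ m i)

lemma map_hmg {B B' : Type} [CommRing B] [Algebra ℂ B] [CommRing B'] [Algebra ℂ B']
    (f : B →ₐ[ℂ] B') (p : MvPolynomial (Fin r) ℂ) (A : Fin (r + 1) → B) :
    f (hmg p A) = hmg p fun i => f (A i) := by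
  unfold hmg
  rw [map_sum]
  refine Finset.sum_congr rfl fun m _ => ?_
  rw [map_mul, map_mul, map_pow, map_prod, AlgHom.commutes]
  congr 2
  exact Finset.prod_congr rfl fun i _ => map_pow _ _ _

lemma hmg_eq {K : Type} [Field K] [Algebra ℂ K] (p : MvPolynomial (Fin r) ℂ)
    {A : Fin (r + 1) → K} (h : A 0 ≠ 0) :
    hmg p A = A 0 ^ p.totalDegree * aeval (fun i : Fin r => A (Fin.succ i) / A 0) p := by
  unfold hmg
  rw [aeval_def, eval₂_eq', Finset.mul_sum]
  refine Finset.sum_congr rfl fun m hm => ?_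
  have h1 : ∑ i, m i ≤ p.totalDegree := by
    have h2 := le_totalDegree hm
    rwa [Finsupp.sum_fintype _ _ (fun _ => rfl)] at h2
  have h3 : A 0 ^ p.totalDegree = A 0 ^ (p.totalDegree - ∑ i, m i) * A 0 ^ (∑ i, m i) := by
    rw [← pow_add, Nat.sub_add_cancel h1]
  have h4 : ∏ i : Fin r, (A (Fin.succ i) / A 0) ^ m i =
      (∏ i : Fin r, A (Fin.succ i) ^ m i) / A 0 ^ (∑ i, m i) := by
    rw [Finset.prod_congr rfl fun i _ => div_pow (A (Fin.succ i)) (A 0) (m i),
      Finset.prod_div_distrib, Finset.prod_pow_eq_pow_sum]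
  rw [h3, h4]
  field_simp

lemma hmg_isWeightedHomogeneous {σ : Type} {w : σ → ℕ} {d : ℕ} (p : MvPolynomial (Fin r) ℂ)
    {A : Fin (r + 1) → MvPolynomial σ ℂ} (hA : ∀ i, IsWeightedHomogeneous w (A i) d) :
    IsWeightedHomogeneous w (hmg p A) (p.totalDegree * d) := by
  unfold hmg
  refine IsWeightedHomogeneous.sum _ _ _ fun m hm => ?_
  have h1 : ∑ i, m i ≤ p.totalDegree := by
    have h2 := le_totalDegree hm
    rwa [Finsupp.sum_fintype _ _ (fun _ => rfl)] at h2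
  have h2 := (isWeightedHomogeneous_C w (p.coeff m)).mul
    (((hA 0).pow (p.totalDegree - ∑ i, m i)).mul
      (IsWeightedHomogeneous.prod Finset.univ (fun i : Fin r => A (Fin.succ i) ^ m i)
        (fun i => m i * d) fun i _ => by
          have h3 := (hA (Fin.succ i)).pow (m i)
          rwa [smul_eq_mul] at h3))
  have h3 : 0 + ((p.totalDegree - ∑ i, m i) • d + ∑ i : Fin r, m i * d) = p.totalDegree * d := by
    rw [zero_add, smul_eq_mul, ← Finset.sum_mul, ← add_mul, Nat.sub_add_cancel h1]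
  rw [h3] at h2
  exact h2

end Pool.Agent.H92.GT

end
end

section

/-!
# MQ V10 `Reg2`: two variables, near an axis
-/

set_option autoImplicit false

open MeasureTheory Topology Filter Metric

noncomputable section

namespace Pool.Agent.MQ

/-- the estimates on the axis `x = 0`, with strict inequalities, and near it -/
private theorem reg2_aux {q : ℂ × ℂ → ℂ} {n : ℕ} (hn : 1 ≤ n) {ε : ℝ} (hε : 0 < ε) {u : ℂ → ℂ} {y : ℂ} (hy : y ≠ 0)
    (hq : AnalyticAt ℂ q (0, y)) (hu : AnalyticAt ℂ u y) (hqu : ∀ᶠ t in 𝓝 y, q (0, t) = t ^ n * u t) (hu0 : u y ≠ 0)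
    (hyu : ‖y * deriv u y‖ < ε * ‖u y‖) {b₀ : ℝ} (hb : b₀ < n * Real.log ‖y‖ + Real.log ‖u y‖)
    (hb' : n * Real.log ‖y‖ + Real.log ‖u y‖ < b₀ + n) :
    ∀ᶠ p : ℂ × ℂ in 𝓝 (0, y), q (p.1, p.2) ≠ 0 ∧ b₀ ≤ Real.log ‖q (p.1, p.2)‖ ∧ Real.log ‖q (p.1, p.2)‖ ≤ b₀ + n ∧
      ‖p.1‖ * ‖fderiv ℂ q (p.1, p.2) (1, 0)‖ ≤ ε * ‖q (p.1, p.2)‖ ∧
      ‖p.2 * fderiv ℂ q (p.1, p.2) (0, 1) - n * q (p.1, p.2)‖ ≤ ε * ‖q (p.1, p.2)‖ := by
  have hq1 : q (0, y) = y ^ n * u y := hqu.self_of_nhds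
  have hyn : y ^ n ≠ 0 := pow_ne_zero n hy
  have hq0 : q (0, y) ≠ 0 := by rw [hq1]; exact mul_ne_zero hyn hu0
  have hqn : 0 < ‖q (0, y)‖ := norm_pos_iff.2 hq0
  have hlog : Real.log ‖q (0, y)‖ = n * Real.log ‖y‖ + Real.log ‖u y‖ := by
    rw [hq1, norm_mul, norm_pow, Real.log_mul (pow_ne_zero n (norm_ne_zero_iff.2 hy)) (norm_ne_zero_iff.2 hu0), Real.log_pow]
  have hd1 : HasDerivAt (fun t : ℂ => q (0, t)) (fderiv ℂ q (0, y) (0, 1)) y := by
    have h1 : HasFDerivAt q (fderiv ℂ q (0, y)) (0, y) := hq.differentiableAt.hasFDerivAt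
    have h2 : HasDerivAt (fun t : ℂ => ((0 : ℂ), t)) ((0 : ℂ), (1 : ℂ)) y := (hasDerivAt_const y (0 : ℂ)).prodMk (hasDerivAt_id y)
    exact h1.comp_hasDerivAt y h2
  have hd2 : HasDerivAt (fun t : ℂ => t ^ n * u t) (n * y ^ (n - 1) * u y + y ^ n * deriv u y) y :=
    (hasDerivAt_pow n y).mul hu.differentiableAt.hasDerivAt
  have hd3 : fderiv ℂ q (0, y) (0, 1) = n * y ^ (n - 1) * u y + y ^ n * deriv u y := by
    have h := hd1.congr_of_eventuallyEq (f₁ := fun t : ℂ => t ^ n * u t) (hqu.mono fun t ht => ht.symm)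
    exact h.unique hd2
  have hd4 : y * fderiv ℂ q (0, y) (0, 1) - n * q (0, y) = y ^ n * (y * deriv u y) := by
    rw [hd3, hq1]
    have : y ^ n = y * y ^ (n - 1) := by rw [← pow_succ', Nat.sub_add_cancel hn]
    rw [this]; ring
  have hfin : ‖y * fderiv ℂ q (0, y) (0, 1) - n * q (0, y)‖ < ε * ‖q (0, y)‖ := by
    rw [hd4, hq1, norm_mul, norm_mul (y ^ n) (u y)]
    have := mul_lt_mul_of_pos_left hyu (norm_pos_iff.2 hyn)
    linarith
  have cq : ContinuousAt q (0, y) := hq.continuousAt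
  have cf : ContinuousAt (fderiv ℂ q) (0, y) := hq.fderiv.continuousAt
  have cqn : ContinuousAt (fun p : ℂ × ℂ => ‖q p‖) (0, y) := cq.norm
  have cql : ContinuousAt (fun p : ℂ × ℂ => Real.log ‖q p‖) (0, y) := cqn.log (ne_of_gt hqn)
  have e1 : ∀ᶠ p : ℂ × ℂ in 𝓝 (0, y), q p ≠ 0 := cq.eventually_ne hq0
  have e2 : ∀ᶠ p : ℂ × ℂ in 𝓝 (0, y), b₀ < Real.log ‖q p‖ := cql.eventually_const_lt (by show b₀ < Real.log ‖q (0, y)‖; rw [hlog]; exact hb)
  have e3 : ∀ᶠ p : ℂ × ℂ in 𝓝 (0, y), Real.log ‖q p‖ < b₀ + n := cql.eventually_lt_const (by show Real.log ‖q (0, y)‖ < b₀ + n; rw [hlog]; exact hb')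
  have e4 : ∀ᶠ p : ℂ × ℂ in 𝓝 (0, y), ‖p.1‖ * ‖fderiv ℂ q p (1, 0)‖ < ε * ‖q p‖ := by
    have c1 : ContinuousAt (fun p : ℂ × ℂ => ‖p.1‖ * ‖fderiv ℂ q p (1, 0)‖) (0, y) :=
      continuousAt_fst.norm.mul (cf.clm_apply continuousAt_const).norm
    refine ContinuousAt.eventually_lt c1 (continuousAt_const.mul cqn) ?_
    simp only [norm_zero, zero_mul]
    positivity
  have e5 : ∀ᶠ p : ℂ × ℂ in 𝓝 (0, y), ‖p.2 * fderiv ℂ q p (0, 1) - n * q p‖ < ε * ‖q p‖ := by
    have c1 : ContinuousAt (fun p : ℂ × ℂ => ‖p.2 * fderiv ℂ q p (0, 1) - n * q p‖) (0, y) :=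
      ((continuousAt_snd.mul (cf.clm_apply continuousAt_const)).sub (continuousAt_const.mul cq)).norm
    exact ContinuousAt.eventually_lt c1 (continuousAt_const.mul cqn) hfin
  filter_upwards [e1, e2, e3, e4, e5] with p h1 h2 h3 h4 h5
  exact ⟨h1, h2.le, h3.le, h4.le, h5.le⟩

theorem reg2 {q : ℂ × ℂ → ℂ} (hq : AnalyticAt ℂ q 0) {n : ℕ} (hn : 1 ≤ n) (hord : analyticOrderAt (fun t => q (0, t)) 0 = n) {ε : ℝ} (hε : 0 < ε) :
    ∀ᶠ r₀ in 𝓝[>] (0 : ℝ), ∃ (η b₀ : ℝ), 0 < η ∧ 2 * η ≤ r₀ ∧ ∀ x y : ℂ, ‖x‖ ≤ η → r₀ / 2 ≤ ‖y‖ → ‖y‖ ≤ r₀ →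
      q (x, y) ≠ 0 ∧ b₀ ≤ Real.log ‖q (x, y)‖ ∧ Real.log ‖q (x, y)‖ ≤ b₀ + n ∧ ‖x‖ * ‖fderiv ℂ q (x, y) (1, 0)‖ ≤ ε * ‖q (x, y)‖ ∧
      ‖y * fderiv ℂ q (x, y) (0, 1) - n * q (x, y)‖ ≤ ε * ‖q (x, y)‖ := by
  have hc0 : Continuous fun t : ℂ => ((0 : ℂ), t) := by fun_prop
  have hq0 : AnalyticAt ℂ (fun t : ℂ => q (0, t)) 0 := by
    have h1 : AnalyticAt ℂ (fun t : ℂ => ((0 : ℂ), t)) 0 := analyticAt_const.prod analyticAt_id
    exact AnalyticAt.fun_comp (f := fun t : ℂ => ((0 : ℂ), t)) (g := q) hq h1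
  obtain ⟨u, hu, hu0, hqu⟩ := (hq0.analyticOrderAt_eq_natCast).1 hord
  have hun : 0 < ‖u 0‖ := norm_pos_iff.2 hu0
  -- the conditions on `y`
  have E1 : ∀ᶠ y : ℂ in 𝓝 0, AnalyticAt ℂ q (0, y) :=
    hc0.continuousAt.eventually (p := fun p => AnalyticAt ℂ q p) hq.eventually_analyticAt
  have E2 : ∀ᶠ y : ℂ in 𝓝 0, ∀ᶠ t in 𝓝 y, q (0, t) = t ^ n * u t := by
    refine eventually_eventually_nhds.2 (hqu.mono fun t ht => ?_)
    simpa using ht
  have E3 : ∀ᶠ y : ℂ in 𝓝 0, AnalyticAt ℂ u y := hu.eventually_analyticAt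
  have cu : ContinuousAt u 0 := hu.continuousAt
  have cul : ContinuousAt (fun y => Real.log ‖u y‖) 0 := cu.norm.log (ne_of_gt hun)
  have E4 : ∀ᶠ y : ℂ in 𝓝 0, ‖y * deriv u y‖ < ε * ‖u y‖ := by
    have c1 : ContinuousAt (fun y : ℂ => ‖y * deriv u y‖) 0 := (continuousAt_id.mul hu.deriv.continuousAt).norm
    refine ContinuousAt.eventually_lt c1 (continuousAt_const.mul cu.norm) ?_
    simp only [zero_mul, norm_zero]
    positivity
  have E5 : ∀ᶠ y : ℂ in 𝓝 0, Real.log ‖u 0‖ - 1 / 10 < Real.log ‖u y‖ := cul.eventually_const_lt (by linarith)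
  have E5' : ∀ᶠ y : ℂ in 𝓝 0, Real.log ‖u y‖ < Real.log ‖u 0‖ + 1 / 10 := cul.eventually_lt_const (by linarith)
  have E6 : ∀ᶠ y : ℂ in 𝓝 0, u y ≠ 0 := cu.eventually_ne hu0
  obtain ⟨δ, hδ, hball⟩ := Metric.eventually_nhds_iff.1 (E1.and (E2.and (E3.and (E4.and (E5.and (E5'.and E6))))))
  filter_upwards [Ioo_mem_nhdsGT hδ] with r₀ hr
  obtain ⟨hr0, hrδ⟩ := hr
  have hr2 : 0 < r₀ / 2 := by positivity
  have hA : IsCompact {y : ℂ | r₀ / 2 ≤ ‖y‖ ∧ ‖y‖ ≤ r₀} := by
    have h1 : IsClosed {y : ℂ | r₀ / 2 ≤ ‖y‖ ∧ ‖y‖ ≤ r₀} :=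
      (isClosed_le continuous_const continuous_norm).inter (isClosed_le continuous_norm continuous_const)
    refine (isCompact_closedBall (0 : ℂ) r₀).of_isClosed_subset h1 fun y hy => ?_
    rw [mem_closedBall, dist_zero_right]
    exact hy.2
  have key := hA.eventually_forall_of_forall_eventually (x₀ := (0 : ℂ))
    (P := fun x y => q (x, y) ≠ 0 ∧ n * Real.log (r₀ / 2) + Real.log ‖u 0‖ - 1 / 10 ≤ Real.log ‖q (x, y)‖ ∧
      Real.log ‖q (x, y)‖ ≤ n * Real.log (r₀ / 2) + Real.log ‖u 0‖ - 1 / 10 + n ∧ ‖x‖ * ‖fderiv ℂ q (x, y) (1, 0)‖ ≤ ε * ‖q (x, y)‖ ∧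
      ‖y * fderiv ℂ q (x, y) (0, 1) - n * q (x, y)‖ ≤ ε * ‖q (x, y)‖) (fun y hy => by
    have hyp : 0 < ‖y‖ := hr2.trans_le hy.1
    obtain ⟨h1, h2, h3, h4, h5, h5', h6⟩ := hball (y := y) (by rw [dist_zero_right]; exact hy.2.trans_lt hrδ)
    have hn1 : (1 : ℝ) ≤ n := by exact_mod_cast hn
    have l1 : Real.log (r₀ / 2) ≤ Real.log ‖y‖ := Real.log_le_log hr2 hy.1
    have l2 : Real.log ‖y‖ ≤ Real.log (r₀ / 2) + Real.log 2 := by
      rw [← Real.log_mul (ne_of_gt hr2) (by norm_num)]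
      exact Real.log_le_log hyp (by linarith [hy.2])
    have l3 : Real.log 2 < 0.7 := Real.log_two_lt_d9.trans (by norm_num)
    refine reg2_aux hn hε (norm_pos_iff.1 hyp) h1 h3 h2 h6 h4 ?_ ?_
    · nlinarith
    · nlinarith)
  obtain ⟨δ', hδ', hball'⟩ := Metric.eventually_nhds_iff.1 key
  refine ⟨min (δ' / 2) (r₀ / 2), n * Real.log (r₀ / 2) + Real.log ‖u 0‖ - 1 / 10, by positivity, ?_, fun x y hx h1 h2 => ?_⟩
  · have := min_le_right (δ' / 2) (r₀ / 2)
    linarith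
  · refine hball' (y := x) ?_ y ⟨h1, h2⟩
    rw [dist_zero_right]
    have := min_le_left (δ' / 2) (r₀ / 2)
    linarith

end Pool.Agent.MQ

end
end

section

/-!
# UC Defs: bubbles and the zeros of the equation of a curve

`X` is the cone of a closed surface, `D` the common zero set in `X` of forms `Q k` of the same degree `e`.  At every point of `D` there is a
chart and a form `Q i` which is a unit times `x` (smooth point of `D`, `b = 0`) or `x * y` (node, `b = 1`) in the chart; this monomial divides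
the other forms.

`Lo 𝒰 f w r k`: along the ultrafilter `𝒰` the functions `f n` have at least `k` zeros near `w`.
-/

set_option autoImplicit false

open Topology Filter Metric

namespace Pool.Agent.UC

variable {V : Type} [NormedAddCommGroup V] [NormedSpace ℂ V]

/-- A rational curve of degree `d` in `X`: `K` is the lift of the affine line, `K'` the lift near infinity. -/
structure RatC (X : Set V) (d : ℕ) (K K' : ℂ → V) : Prop where
  diff : Differentiable ℂ K
  diff' : Differentiable ℂ K'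
  mem : ∀ z, K z ∈ X
  mem' : ∀ z, K' z ∈ X
  rel : ∀ z : ℂ, z ≠ 0 → K z = z ^ d • K' z⁻¹

end Pool.Agent.UC

end
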