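import Pool.Agent.H94.G6.H14.PP.Defs_1
import Pool.Agent.H94.G6.M12
import Pool.Agent.H94.G6.M31

/-! The parts of this file: H17BP.NFBlow, H17BP.SliceF, H14.PP.PieceBasic, H14.PP.TELocal. -/

section

/-!
# The blow-up of a germ in normal form of multiplicity `k + 1`

`c_j x = x^(k+1-j) c'_j x` near `0` (order at least `k+1-j`; `AnalyticAt` order lemmas, `natCast_le_analyticOrderAt`),
`γ_j = c'_j 0`, `U0 = U 0`.
`W (x, x (c0+w)) = ∑_j x^(k+1-j) c'_j(x) x^j (c0+w)^j + x^(k+1) (c0+w)^(k+1) U(x, x(c0+w))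
 = x^(k+1) ψ`, `ψ (x, w) = ∑_j c'_j(x) (c0+w)^j + (c0+w)^(k+1) U (x, x (c0+w))`; `ψ (0, w) = ∑ γ_j (c0+w)^j + U0 (c0+w)^(k+1)`
(here `U (0, 0) = U0`).  For `c0 = 0` and all `γ_j = 0`: `ψ = ∑ c'_j(x) w^j + w^(k+1) U(x, x w)`: `IsNF k c' ψ`.
`W (x y, y) = ∑_j (x y)^(k+1-j) c'_j(x y) y^j + y^(k+1) U(x y, y) = y^(k+1) ψ`,
`ψ = ∑_j x^(k+1-j) c'_j(x y) + U(x y, y)`, `ψ 0 = U0 ≠ 0` since `k + 1 - j ≥ 1`.
-/

open Topology Filter

noncomputable section

namespace Pool.Agent.H17BP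

theorem nf_blow {k : ℕ} {c : ℕ → ℂ → ℂ} {W : ℂ × ℂ → ℂ} (h : IsNF k c W)
    (ho : ∀ j < k, ((k + 1 - j : ℕ) : ℕ∞) ≤ analyticOrderAt (c j) 0) :
    ∃ (γ : ℕ → ℂ) (U₀ : ℂ) (c' : ℕ → ℂ → ℂ), U₀ ≠ 0 ∧
      (∀ j < k, AnalyticAt ℂ (c' j) 0 ∧ c' j 0 = γ j ∧
        ∀ᶠ x in 𝓝 (0 : ℂ), c j x = x ^ (k + 1 - j) * c' j x) ∧
      (∀ c₀ : ℂ, ∃ ψ : ℂ × ℂ → ℂ, AnalyticAt ℂ ψ 0 ∧
        (∀ᶠ x in 𝓝 (0 : ℂ × ℂ), W (bl c₀ x) = x.1 ^ (k + 1) * ψ x) ∧
        (∀ᶠ w in 𝓝 (0 : ℂ), ψ (0, w) =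
          ∑ j ∈ Finset.range k, γ j * (c₀ + w) ^ j + U₀ * (c₀ + w) ^ (k + 1)) ∧
        (c₀ = 0 → (∀ j < k, γ j = 0) → IsNF k c' ψ)) ∧
      ∃ ψ : ℂ × ℂ → ℂ, AnalyticAt ℂ ψ 0 ∧ ψ 0 ≠ 0 ∧
        ∀ᶠ x in 𝓝 (0 : ℂ × ℂ), W (blInf x) = x.2 ^ (k + 1) * ψ x := by
  obtain ⟨hc, U, hU, hU0, hW⟩ := h
  have hex : ∀ j, ∃ g : ℂ → ℂ, j < k → AnalyticAt ℂ g 0 ∧
      ∀ᶠ x in 𝓝 (0 : ℂ), c j x = x ^ (k + 1 - j) * g x := by
    intro j
    by_cases hj : j < k
    · obtain ⟨g, hg, hgx⟩ := (natCast_le_analyticOrderAt (hc j hj).1).1 (ho j hj)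
      refine ⟨g, fun _ => ⟨hg, ?_⟩⟩
      filter_upwards [hgx] with x hx
      rw [hx, sub_zero, smul_eq_mul]
    · exact ⟨0, fun h => absurd h hj⟩
  choose c' hc' using hex
  have hfst : Tendsto (fun x : ℂ × ℂ => x.1) (𝓝 0) (𝓝 0) := continuous_fst.tendsto' _ _ rfl
  have hprod : Tendsto (fun x : ℂ × ℂ => x.1 * x.2) (𝓝 0) (𝓝 0) :=
    (continuous_fst.mul continuous_snd).tendsto' _ _ (by simp)
  have hall : ∀ᶠ x in 𝓝 (0 : ℂ), ∀ j ∈ Finset.range k, c j x = x ^ (k + 1 - j) * c' j x := by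
    rw [Filter.eventually_all_finset]
    intro j hj
    exact (hc' j (Finset.mem_range.1 hj)).2
  have hbl : ∀ c₀ : ℂ, Tendsto (bl c₀) (𝓝 0) (𝓝 0) := by
    intro c₀
    have := (analyticAt_bl c₀ 0).continuousAt.tendsto
    rwa [bl_zero] at this
  have hblInf : Tendsto blInf (𝓝 0) (𝓝 0) := by
    have := (analyticAt_blInf 0).continuousAt.tendsto
    rwa [blInf_zero] at this
  refine ⟨fun j => c' j 0, U 0, c', hU0, ?_, ?_, ?_⟩
  · intro j hj
    exact ⟨(hc' j hj).1, rfl, (hc' j hj).2⟩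
  · intro c₀
    refine ⟨fun x => ∑ j ∈ Finset.range k, c' j x.1 * (c₀ + x.2) ^ j + (c₀ + x.2) ^ (k + 1) * U (bl c₀ x),
      ?_, ?_, ?_, ?_⟩
    · have h1 : AnalyticAt ℂ (fun x : ℂ × ℂ => ∑ j ∈ Finset.range k, c' j x.1 * (c₀ + x.2) ^ j) 0 := by
        refine Finset.analyticAt_fun_sum _ fun j hj => ?_
        have h2 : AnalyticAt ℂ (fun x : ℂ × ℂ => c' j x.1) 0 := by
          have h3 : AnalyticAt ℂ (c' j) ((0 : ℂ × ℂ).1) := (hc' j (Finset.mem_range.1 hj)).1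
          exact AnalyticAt.comp (g := c' j) (f := fun x : ℂ × ℂ => x.1) h3 analyticAt_fst
        exact h2.mul ((analyticAt_const.add analyticAt_snd).pow j)
      have h4 : AnalyticAt ℂ (fun x : ℂ × ℂ => U (bl c₀ x)) 0 := by
        have h5 : AnalyticAt ℂ U (bl c₀ 0) := by rw [bl_zero]; exact hU
        exact AnalyticAt.comp (g := U) (f := bl c₀) h5 (analyticAt_bl c₀ 0)
      exact h1.add (((analyticAt_const.add analyticAt_snd).pow (k + 1)).mul h4)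
    · filter_upwards [(hbl c₀).eventually hW, hfst.eventually hall] with x hx hx'
      rw [hx]
      show ∑ j ∈ Finset.range k, c j x.1 * (x.1 * (c₀ + x.2)) ^ j + (x.1 * (c₀ + x.2)) ^ (k + 1) * U (bl c₀ x) =
        x.1 ^ (k + 1) * (∑ j ∈ Finset.range k, c' j x.1 * (c₀ + x.2) ^ j + (c₀ + x.2) ^ (k + 1) * U (bl c₀ x))
      rw [mul_add (x.1 ^ (k + 1)), Finset.mul_sum]
      congr 1
      · refine Finset.sum_congr rfl fun j hj => ?_
        have hj' := Finset.mem_range.1 hj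
        rw [hx' j hj, mul_pow]
        have h6 : x.1 ^ (k + 1) = x.1 ^ (k + 1 - j) * x.1 ^ j := by
          rw [← pow_add]
          congr 1
          omega
        rw [h6]
        ring
      · rw [mul_pow]
        ring
    · refine Eventually.of_forall fun w => ?_
      have h7 : bl c₀ ((0 : ℂ), w) = 0 := by
        simp [bl]
      show ∑ j ∈ Finset.range k, c' j 0 * (c₀ + w) ^ j + (c₀ + w) ^ (k + 1) * U (bl c₀ (0, w)) = _
      rw [h7]
      ring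
    · rintro rfl hγ
      refine ⟨fun j hj => ⟨(hc' j hj).1, hγ j hj⟩, fun x => U (bl 0 x), ?_, ?_, ?_⟩
      · have h5 : AnalyticAt ℂ U (bl 0 0) := by rw [bl_zero]; exact hU
        exact AnalyticAt.comp (g := U) (f := bl 0) h5 (analyticAt_bl 0 0)
      · show U (bl 0 0) ≠ 0
        rw [bl_zero]
        exact hU0
      · refine Eventually.of_forall fun x => ?_
        show ∑ j ∈ Finset.range k, c' j x.1 * (0 + x.2) ^ j + (0 + x.2) ^ (k + 1) * U (bl 0 x) = _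
        rw [zero_add]
  · refine ⟨fun x => ∑ j ∈ Finset.range k, x.1 ^ (k + 1 - j) * c' j (x.1 * x.2) + U (blInf x), ?_, ?_, ?_⟩
    · have h1 : AnalyticAt ℂ (fun x : ℂ × ℂ => ∑ j ∈ Finset.range k, x.1 ^ (k + 1 - j) * c' j (x.1 * x.2)) 0 := by
        refine Finset.analyticAt_fun_sum _ fun j hj => ?_
        have h2 : AnalyticAt ℂ (fun x : ℂ × ℂ => c' j (x.1 * x.2)) 0 := by
          have h3 : AnalyticAt ℂ (c' j) ((fun x : ℂ × ℂ => x.1 * x.2) 0) := by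
            have h4 : (fun x : ℂ × ℂ => x.1 * x.2) 0 = 0 := by simp
            rw [h4]
            exact (hc' j (Finset.mem_range.1 hj)).1
          exact AnalyticAt.comp (g := c' j) (f := fun x : ℂ × ℂ => x.1 * x.2) h3
            (analyticAt_fst.mul analyticAt_snd)
        exact (analyticAt_fst.pow _).mul h2
      have h4 : AnalyticAt ℂ (fun x : ℂ × ℂ => U (blInf x)) 0 := by
        have h5 : AnalyticAt ℂ U (blInf 0) := by rw [blInf_zero]; exact hU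
        exact AnalyticAt.comp (g := U) (f := blInf) h5 (analyticAt_blInf 0)
      exact h1.add h4
    · show ∑ j ∈ Finset.range k, (0 : ℂ) ^ (k + 1 - j) * c' j ((0 : ℂ) * (0 : ℂ)) + U (blInf 0) ≠ 0
      rw [blInf_zero, Finset.sum_eq_zero, zero_add]
      · exact hU0
      · intro j hj
        have hj' := Finset.mem_range.1 hj
        rw [zero_pow (by omega), zero_mul]
    · filter_upwards [hblInf.eventually hW, hprod.eventually hall] with x hx hx'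
      rw [hx]
      show ∑ j ∈ Finset.range k, c j (x.1 * x.2) * x.2 ^ j + x.2 ^ (k + 1) * U (blInf x) =
        x.2 ^ (k + 1) * (∑ j ∈ Finset.range k, x.1 ^ (k + 1 - j) * c' j (x.1 * x.2) + U (blInf x))
      rw [mul_add, Finset.mul_sum]
      congr 1
      refine Finset.sum_congr rfl fun j hj => ?_
      have hj' := Finset.mem_range.1 hj
      rw [hx' j hj, mul_pow]
      have h6 : x.2 ^ (k + 1) = x.2 ^ (k + 1 - j) * x.2 ^ j := by
        rw [← pow_add]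
        congr 1
        omega
      rw [h6]
      ring

end Pool.Agent.H17BP

end
end

section

/-!
# Slices

`exists_slice`: `W (z, z v) = ∑_{j<k} c_j(z) z^j v^j + z^(k+1) v^(k+1) U(z, z v)`.  Let `e` be the minimum of
`ord c_j + j` (`j < k`), `e ≤ k` by assumption (some `ord c_j < k + 1 - j`), `c_j(z) z^j = z^e δ_j(z)` with `δ_j`
analytic and some `δ_j 0 ≠ 0`.  So `W (z, z v) = z^e (∑ δ_j(z) v^j + z^(k+1-e) …)` and the value of the bracket at
`z = 0` is the non-zero polynomial `∑ δ_j(0) v^j` in `v`; choose `v` with a non-zero value (infinitely many `v`).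
Then the order is `e ≤ k`.

`exists_slice_of_ne`: let `g` be analytic on the ball of radius `r` about `0` (all points).  If all slices
`z ↦ g (z v₁, z v₂)`, `‖v‖ < 1`, had order `⊤` (vanish near `0`), they would vanish for `‖z‖ < r` (identity
theorem, `AnalyticOnNhd.eqOn_zero_of_preconnected_of_eventuallyEq_zero`), and `g = 0` near `0`.

`exists_lin`: `v ≠ 0`; if `v.2 ≠ 0` take `θ (x, y) = (x + y v.1, y v.2)`, otherwise `θ (x, y) = (y v.1, x + y v.2)`;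
`Bihol` by the explicit inverse (or `bihol_iff`).
-/

open Topology Filter

noncomputable section

namespace Pool.Agent.H17BP

private theorem slice_tendsto (v : ℂ) : Tendsto (fun z : ℂ => ((z, z * v) : ℂ × ℂ)) (𝓝 0) (𝓝 0) := by
  have h : Continuous (fun z : ℂ => ((z, z * v) : ℂ × ℂ)) := by fun_prop
  have h1 := h.tendsto 0
  have h2 : ((0 : ℂ), (0 : ℂ) * v) = (0 : ℂ × ℂ) := by simp
  rw [h2] at h1
  exact h1

private theorem slice_analytic (v : ℂ) (z : ℂ) : AnalyticAt ℂ (fun z : ℂ => ((z, z * v) : ℂ × ℂ)) z :=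
  analyticAt_id.prod (analyticAt_id.mul analyticAt_const)

private theorem exists_delta {c : ℂ → ℂ} (hc : AnalyticAt ℂ c 0) {e j : ℕ}
    (h : (e : ℕ∞) ≤ analyticOrderAt c 0 + j) :
    ∃ δ : ℂ → ℂ, AnalyticAt ℂ δ 0 ∧ (∀ᶠ z in 𝓝 (0 : ℂ), c z * z ^ j = z ^ e * δ z) ∧
      (analyticOrderAt c 0 + j = e → δ 0 ≠ 0) := by
  have han : AnalyticAt ℂ (fun z : ℂ => c z * z ^ j) 0 := hc.mul (analyticAt_id.pow j)
  have ho : analyticOrderAt (fun z : ℂ => c z * z ^ j) 0 = analyticOrderAt c 0 + j := by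
    have h1 := analyticOrderAt_mul (f := c) (g := fun z : ℂ => z ^ j) hc (analyticAt_id.pow j)
    have h2 : analyticOrderAt (fun z : ℂ => z ^ j) 0 = j := by
      have := analyticOrderAt_centeredMonomial (𝕜 := ℂ) (z₀ := (0 : ℂ)) (n := j)
      have h3 : ((fun z : ℂ => z - 0) ^ j) = fun z : ℂ => z ^ j := by
        funext z
        simp
      rw [← h3]
      exact this
    rw [h2] at h1
    exact h1
  by_cases hE : analyticOrderAt c 0 + j = e
  · rw [hE] at ho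
    obtain ⟨g, hg, hg0, hgz⟩ := han.analyticOrderAt_eq_natCast.1 ho
    refine ⟨g, hg, ?_, fun _ => hg0⟩
    filter_upwards [hgz] with z hz
    rw [hz, sub_zero, smul_eq_mul]
  · rw [← ho] at h
    obtain ⟨g, hg, hgz⟩ := (natCast_le_analyticOrderAt han).1 h
    refine ⟨g, hg, ?_, fun h' => absurd h' hE⟩
    filter_upwards [hgz] with z hz
    rw [hz, sub_zero, smul_eq_mul]

theorem exists_slice {k : ℕ} {c : ℕ → ℂ → ℂ} {W : ℂ × ℂ → ℂ} (h : IsNF k c W)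
    (hj : ∃ j < k, analyticOrderAt (c j) 0 < ((k + 1 - j : ℕ) : ℕ∞)) :
    ∃ v : ℂ, analyticOrderAt (fun z : ℂ => W (z, z * v)) 0 ≤ (k : ℕ∞) := by
  obtain ⟨hc, U, hU, hU0, hW⟩ := h
  -- the set of exponents
  have hex : ∃ e : ℕ, ∃ j < k, analyticOrderAt (c j) 0 + j = (e : ℕ∞) := by
    obtain ⟨j, hjk, hj⟩ := hj
    have h1 : analyticOrderAt (c j) 0 ≠ ⊤ := ne_top_of_lt hj
    obtain ⟨m, hm⟩ := ENat.ne_top_iff_exists.1 h1
    refine ⟨m + j, j, hjk, ?_⟩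
    rw [← hm]
    push_cast
    rfl
  classical
  obtain ⟨j0, hj0, hj0e⟩ := Nat.find_spec hex
  set e := Nat.find hex with he
  have hmin : ∀ j < k, (e : ℕ∞) ≤ analyticOrderAt (c j) 0 + j := by
    intro j hjk
    by_cases ht : analyticOrderAt (c j) 0 = ⊤
    · rw [ht]
      simp
    · obtain ⟨m, hm⟩ := ENat.ne_top_iff_exists.1 ht
      rw [← hm]
      have h2 : e ≤ m + j := Nat.find_min' hex ⟨j, hjk, by rw [← hm]; push_cast; rfl⟩
      exact_mod_cast h2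
  have hek : e ≤ k := by
    obtain ⟨j, hjk, hj⟩ := hj
    have h1 : analyticOrderAt (c j) 0 ≠ ⊤ := ne_top_of_lt hj
    obtain ⟨m, hm⟩ := ENat.ne_top_iff_exists.1 h1
    rw [← hm] at hj
    have h3 : m < k + 1 - j := by exact_mod_cast hj
    have h2 : e ≤ m + j := Nat.find_min' hex ⟨j, hjk, by rw [← hm]; push_cast; rfl⟩
    omega
  have hδ : ∀ j : ℕ, ∃ δ : ℂ → ℂ, j < k → AnalyticAt ℂ δ 0 ∧
      (∀ᶠ z in 𝓝 (0 : ℂ), c j z * z ^ j = z ^ e * δ z) ∧ (j = j0 → δ 0 ≠ 0) := by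
    intro j
    by_cases hjk : j < k
    · obtain ⟨δ, h1, h2, h3⟩ := exists_delta (hc j hjk).1 (hmin j hjk)
      exact ⟨δ, fun _ => ⟨h1, h2, fun hjj => h3 (by rw [hjj]; exact hj0e)⟩⟩
    · exact ⟨fun _ => 0, fun h' => absurd h' hjk⟩
  choose δ hδ using hδ
  -- the polynomial
  let P : Polynomial ℂ := ∑ j ∈ Finset.range k, Polynomial.monomial j (δ j 0)
  have hP : P ≠ 0 := by
    intro h0
    have h1 : P.coeff j0 = δ j0 0 := by
      simp only [P, Polynomial.finsetSum_coeff, Polynomial.coeff_monomial]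
      rw [Finset.sum_eq_single j0]
      · simp
      · intro b _ hb
        simp [hb]
      · intro hb
        exact absurd (Finset.mem_range.2 hj0) hb
    rw [h0] at h1
    exact (hδ j0 hj0).2.2 rfl (by rw [← h1]; simp)
  obtain ⟨v, hv⟩ : ∃ v : ℂ, P.eval v ≠ 0 := by
    by_contra hcon
    push Not at hcon
    exact hP (Polynomial.funext (fun x => by rw [hcon x]; simp))
  refine ⟨v, ?_⟩
  let B : ℂ → ℂ := fun z => ∑ j ∈ Finset.range k, δ j z * v ^ j + z ^ (k + 1 - e) * (v ^ (k + 1) * U (z, z * v))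
  have hUs : AnalyticAt ℂ (fun z : ℂ => U (z, z * v)) 0 := by
    have h1 : AnalyticAt ℂ U ((fun z : ℂ => ((z, z * v) : ℂ × ℂ)) 0) := by
      have h2 : ((0 : ℂ), (0 : ℂ) * v) = (0 : ℂ × ℂ) := by simp
      simp only [h2]
      exact hU
    exact AnalyticAt.comp (g := U) (f := fun z : ℂ => ((z, z * v) : ℂ × ℂ)) h1 (slice_analytic v 0)
  have hB : AnalyticAt ℂ B 0 := by
    refine AnalyticAt.add ?_ ?_
    · refine Finset.analyticAt_fun_sum _ ?_
      intro j hj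
      exact ((hδ j (Finset.mem_range.1 hj)).1).mul analyticAt_const
    · exact (analyticAt_id.pow _).mul (analyticAt_const.mul hUs)
  have hB0 : B 0 ≠ 0 := by
    have h1 : B 0 = P.eval v := by
      simp only [B, P]
      rw [zero_pow (by omega : k + 1 - e ≠ 0), zero_mul, add_zero, Polynomial.eval_finsetSum]
      refine Finset.sum_congr rfl ?_
      intro j _
      rw [Polynomial.eval_monomial]
    rw [h1]
    exact hv
  have hWB : ∀ᶠ z in 𝓝 (0 : ℂ), W (z, z * v) = z ^ e * B z := by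
    have h1 := (slice_tendsto v).eventually hW
    have h2 : ∀ᶠ z in 𝓝 (0 : ℂ), ∀ j ∈ Finset.range k, c j z * z ^ j = z ^ e * δ j z := by
      rw [Filter.eventually_all_finset]
      intro j hj
      exact (hδ j (Finset.mem_range.1 hj)).2.1
    filter_upwards [h1, h2] with z hz1 hz2
    rw [hz1]
    simp only [B]
    rw [mul_add, Finset.mul_sum]
    congr 1
    · refine Finset.sum_congr rfl ?_
      intro j hj
      rw [mul_pow, ← mul_assoc, hz2 j hj]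
      ring
    · have h3 : z ^ (k + 1) = z ^ e * z ^ (k + 1 - e) := by
        rw [← pow_add]
        congr 1
        omega
      rw [mul_pow, h3]
      ring
  have hWan : AnalyticAt ℂ (fun z : ℂ => W (z, z * v)) 0 := by
    have h1 : AnalyticAt ℂ (fun z : ℂ => z ^ e * B z) 0 := (analyticAt_id.pow e).mul hB
    exact h1.congr (hWB.mono fun z hz => hz.symm)
  have horder : analyticOrderAt (fun z : ℂ => W (z, z * v)) 0 = (e : ℕ∞) := by
    rw [hWan.analyticOrderAt_eq_natCast]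
    refine ⟨B, hB, hB0, ?_⟩
    filter_upwards [hWB] with z hz
    rw [hz, sub_zero, smul_eq_mul]
  rw [horder]
  exact_mod_cast hek

theorem exists_slice_of_ne {g : ℂ × ℂ → ℂ} (hg : AnalyticAt ℂ g 0) (h : ¬ ∀ᶠ x in 𝓝 (0 : ℂ × ℂ), g x = 0) :
    ∃ (m : ℕ) (v : ℂ × ℂ), analyticOrderAt (fun z : ℂ => g (z * v.1, z * v.2)) 0 ≤ (m : ℕ∞) := by
  by_contra hcon
  push Not at hcon
  apply h
  obtain ⟨r, hr, hball⟩ := hg.exists_ball_analyticOnNhd
  have hlin : ∀ (v : ℂ × ℂ) (z : ℂ), ((z * v.1, z * v.2) : ℂ × ℂ) = z • v := by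
    intro v z
    rfl
  have key : ∀ v : ℂ × ℂ, ‖v‖ < 1 → ∀ z ∈ Metric.ball (0 : ℂ) r, g (z * v.1, z * v.2) = 0 := by
    intro v hv
    have h1 : analyticOrderAt (fun z : ℂ => g (z * v.1, z * v.2)) 0 = ⊤ := by
      by_contra hne
      obtain ⟨m, hm⟩ := ENat.ne_top_iff_exists.1 hne
      exact absurd (hcon m v) (by rw [← hm]; exact lt_irrefl _)
    have h2 : ∀ᶠ z in 𝓝 (0 : ℂ), g (z * v.1, z * v.2) = 0 := analyticOrderAt_eq_top.1 h1
    have h3 : AnalyticOnNhd ℂ (fun z : ℂ => g (z * v.1, z * v.2)) (Metric.ball (0 : ℂ) r) := by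
      intro z hz
      have hmem : ((z * v.1, z * v.2) : ℂ × ℂ) ∈ Metric.ball (0 : ℂ × ℂ) r := by
        rw [hlin, mem_ball_zero_iff, norm_smul]
        rw [mem_ball_zero_iff] at hz
        calc ‖z‖ * ‖v‖ ≤ ‖z‖ * 1 := mul_le_mul_of_nonneg_left hv.le (norm_nonneg _)
          _ < r := by rw [mul_one]; exact hz
      have h4 : AnalyticAt ℂ (fun z : ℂ => ((z * v.1, z * v.2) : ℂ × ℂ)) z :=
        (analyticAt_id.mul analyticAt_const).prod (analyticAt_id.mul analyticAt_const)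
      exact AnalyticAt.comp (g := g) (f := fun z : ℂ => ((z * v.1, z * v.2) : ℂ × ℂ)) (hball _ hmem) h4
    have h5 := h3.eqOn_zero_of_preconnected_of_eventuallyEq_zero
      (convex_ball (0 : ℂ) r).isPreconnected (Metric.mem_ball_self hr) h2
    intro z hz
    exact h5 hz
  have hr2 : 0 < r / 2 := by linarith
  filter_upwards [Metric.ball_mem_nhds (0 : ℂ × ℂ) hr2] with x hx
  rw [mem_ball_zero_iff] at hx
  have hz : ((r / 2 : ℝ) : ℂ) ∈ Metric.ball (0 : ℂ) r := by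
    rw [mem_ball_zero_iff, Complex.norm_real, Real.norm_eq_abs, abs_of_pos hr2]
    linarith
  have hzne : ((r / 2 : ℝ) : ℂ) ≠ 0 := by
    exact_mod_cast hr2.ne'
  have hv : ‖(((r / 2 : ℝ) : ℂ)⁻¹) • x‖ < 1 := by
    rw [norm_smul, norm_inv, Complex.norm_real, Real.norm_eq_abs, abs_of_pos hr2,
      inv_mul_lt_iff₀ hr2, mul_one]
    exact hx
  have h6 := key _ hv _ hz
  rw [hlin, smul_smul, mul_inv_cancel₀ hzne, one_smul] at h6
  exact h6

theorem exists_lin {v : ℂ × ℂ} (hv : v ≠ 0) : ∃ θ : ℂ × ℂ → ℂ × ℂ, Bihol θ ∧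
    ∀ y : ℂ, θ (0, y) = (y * v.1, y * v.2) := by
  by_cases h2 : v.2 = 0
  · have h1 : v.1 ≠ 0 := by
      intro h1
      exact hv (Prod.ext h1 h2)
    refine ⟨fun x => (x.2 * v.1, x.1 + x.2 * v.2), ⟨?_, ?_, fun x => (x.2 - x.1 / v.1 * v.2, x.1 / v.1), ?_, ?_, ?_, ?_⟩, ?_⟩
    · exact (analyticAt_snd.mul analyticAt_const).prod (analyticAt_fst.add (analyticAt_snd.mul analyticAt_const))
    · simp
    · simp only [div_eq_mul_inv]
      exact (analyticAt_snd.sub ((analyticAt_fst.mul analyticAt_const).mul analyticAt_const)).prod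
        (analyticAt_fst.mul analyticAt_const)
    · simp
    · refine Eventually.of_forall fun x => ?_
      refine Prod.ext ?_ ?_
      · simp only
        field_simp
        ring
      · simp only
        field_simp
    · refine Eventually.of_forall fun x => ?_
      refine Prod.ext ?_ ?_
      · simp only
        field_simp
      · simp only
        field_simp
        ring
    · intro y
      simp
  · refine ⟨fun x => (x.1 + x.2 * v.1, x.2 * v.2), ⟨?_, ?_, fun x => (x.1 - x.2 / v.2 * v.1, x.2 / v.2), ?_, ?_, ?_, ?_⟩, ?_⟩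
    · exact (analyticAt_fst.add (analyticAt_snd.mul analyticAt_const)).prod (analyticAt_snd.mul analyticAt_const)
    · simp
    · simp only [div_eq_mul_inv]
      exact (analyticAt_fst.sub ((analyticAt_snd.mul analyticAt_const).mul analyticAt_const)).prod
        (analyticAt_snd.mul analyticAt_const)
    · simp
    · refine Eventually.of_forall fun x => ?_
      refine Prod.ext ?_ ?_
      · simp only
        field_simp
        ring
      · simp only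
        field_simp
    · refine Eventually.of_forall fun x => ?_
      refine Prod.ext ?_ ?_
      · simp only
        field_simp
        ring
      · simp only
        field_simp
    · intro y
      simp

/-- The shift `(x, y) ↦ (x, y + ρ x)`. -/
theorem bihol_shift {ρ : ℂ → ℂ} (hρ : AnalyticAt ℂ ρ 0) (h0 : ρ 0 = 0) :
    Bihol fun x : ℂ × ℂ => (x.1, x.2 + ρ x.1) := by
  have h1 : AnalyticAt ℂ (fun x : ℂ × ℂ => ρ x.1) 0 := by
    have h2 : AnalyticAt ℂ ρ ((fun x : ℂ × ℂ => x.1) 0) := hρ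
    exact AnalyticAt.comp (g := ρ) (f := fun x : ℂ × ℂ => x.1) h2 analyticAt_fst
  refine ⟨analyticAt_fst.prod (analyticAt_snd.add h1), ?_, fun x => (x.1, x.2 - ρ x.1),
    analyticAt_fst.prod (analyticAt_snd.sub h1), ?_, ?_, ?_⟩
  · simp [h0]
  · simp [h0]
  · exact Eventually.of_forall fun x => by simp
  · exact Eventually.of_forall fun x => by simp

end Pool.Agent.H17BP

end
end

section

/-!
# BPm PieceBasic: the pieces, basic properties

`pN`, `pT`, `pM` (`Defs.lean`): nonnegativity (`M ≥ 0`), homogeneity in the vector, continuity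
(`0 ≤ κ ≤ 1/4`: all real powers have nonnegative exponents; `(1 + M‖s‖^(2κ))^e` has a base `≥ 1`),
invariance of `pM true` under exchange of the coordinates.
-/

open Topology Filter Metric

namespace Pool.Agent.H14.PP

private theorem PieceBasic_base {P : Par} (hM : 0 ≤ P.M) (s : ℂ) : 1 ≤ 1 + P.M * ‖s‖ ^ (2 * P.κ) := by
  have : 0 ≤ P.M * ‖s‖ ^ (2 * P.κ) := mul_nonneg hM (Real.rpow_nonneg (norm_nonneg _) _)
  linarith

theorem pN_nonneg {P : Par} (hM : 0 ≤ P.M) (nd : Bool) (s t s' : ℂ) : 0 ≤ pN nd P s t s' := by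
  unfold pN
  have h1 := PieceBasic_base hM s
  have h2 : 0 ≤ (1 + P.M * ‖s‖ ^ (2 * P.κ)) ^ P.e := Real.rpow_nonneg (by linarith) _
  have h3 : 0 ≤ (if nd = true then ‖t‖ ^ (1 - P.κ) * Real.exp (-P.ε * ‖s‖ ^ 2) else 1) := by
    split_ifs
    · exact mul_nonneg (Real.rpow_nonneg (norm_nonneg _) _) (Real.exp_pos _).le
    · exact zero_le_one
  exact mul_nonneg (mul_nonneg (mul_nonneg h3 (norm_nonneg _)) h2) (Real.exp_pos _).le

theorem pT_nonneg {P : Par} (hM : 0 ≤ P.M) (nd : Bool) (s t t' : ℂ) : 0 ≤ pT nd P s t t' := by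
  unfold pT
  split_ifs
  · exact pN_nonneg hM true t s t'
  · exact mul_nonneg (mul_nonneg (Real.rpow_nonneg (norm_nonneg _) _) (norm_nonneg _)) (Real.exp_pos _).le

theorem pM_nonneg {P : Par} (hM : 0 ≤ P.M) (nd : Bool) (p w : ℂ × ℂ) : 0 ≤ pM nd P p w := by
  exact le_max_of_le_left (pN_nonneg hM nd _ _ _)

private theorem PieceBasic_pN_smul {P : Par} (nd : Bool) (s t s' c : ℂ) :
    pN nd P s t (c * s') = ‖c‖ * pN nd P s t s' := by
  unfold pN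
  rw [norm_mul]
  ring

private theorem PieceBasic_pT_smul {P : Par} (nd : Bool) (s t t' c : ℂ) :
    pT nd P s t (c * t') = ‖c‖ * pT nd P s t t' := by
  unfold pT
  split_ifs
  · exact PieceBasic_pN_smul true t s t' c
  · rw [norm_mul]
    ring

theorem pM_smul {P : Par} (nd : Bool) (p w : ℂ × ℂ) (c : ℂ) :
    pM nd P p (c • w) = ‖c‖ * pM nd P p w := by
  unfold pM
  rw [mul_max_of_nonneg _ _ (norm_nonneg c), ← PieceBasic_pN_smul, ← PieceBasic_pT_smul]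
  rfl

theorem pM_swap {P : Par} (p w : ℂ × ℂ) : pM true P p.swap w.swap = pM true P p w := by
  unfold pM pT
  rw [if_pos rfl, if_pos rfl]
  exact max_comm _ _

theorem continuous_pM {P : Par} (hM : 0 ≤ P.M) (hκ : 0 ≤ P.κ) (hκ1 : P.κ ≤ 1 / 4) (nd : Bool) :
    Continuous (fun y : (ℂ × ℂ) × (ℂ × ℂ) => pM nd P y.1 y.2) := by
  have hN : ∀ nd : Bool, Continuous (fun x : ℂ × ℂ × ℂ => pN nd P x.1 x.2.1 x.2.2) := by
    intro nd
    unfold pN
    have hs : Continuous (fun x : ℂ × ℂ × ℂ => ‖x.1‖) := continuous_fst.norm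
    have ht : Continuous (fun x : ℂ × ℂ × ℂ => ‖x.2.1‖) := (continuous_fst.comp continuous_snd).norm
    have hs' : Continuous (fun x : ℂ × ℂ × ℂ => ‖x.2.2‖) := (continuous_snd.comp continuous_snd).norm
    have h1 : Continuous (fun x : ℂ × ℂ × ℂ => ‖x.2.1‖ ^ (1 - P.κ)) :=
      ht.rpow_const fun _ => Or.inr (by linarith)
    have h2 : Continuous (fun x : ℂ × ℂ × ℂ => ‖x.1‖ ^ (2 * P.κ)) :=
      hs.rpow_const fun _ => Or.inr (by linarith)
    have h3a : Continuous (fun x : ℂ × ℂ × ℂ => 1 + P.M * ‖x.1‖ ^ (2 * P.κ)) :=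
      continuous_const.add (continuous_const.mul h2)
    have h3 : Continuous (fun x : ℂ × ℂ × ℂ => (1 + P.M * ‖x.1‖ ^ (2 * P.κ)) ^ P.e) :=
      h3a.rpow_const fun x =>
        Or.inl (ne_of_gt (lt_of_lt_of_le one_pos (PieceBasic_base (P := P) hM x.1)))
    have h4 : Continuous (fun x : ℂ × ℂ × ℂ => Real.exp (-P.K * ‖x.2.1‖ ^ 2)) :=
      Real.continuous_exp.comp (continuous_const.mul (ht.pow 2))
    have h5 : Continuous (fun x : ℂ × ℂ × ℂ => Real.exp (-P.ε * ‖x.1‖ ^ 2)) :=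
      Real.continuous_exp.comp (continuous_const.mul (hs.pow 2))
    cases nd
    · simp only [Bool.false_eq_true, if_false]
      exact ((continuous_const.mul hs').mul h3).mul h4
    · simp only [if_true]
      exact (((h1.mul h5).mul hs').mul h3).mul h4
  have hT : Continuous (fun x : ℂ × ℂ × ℂ => pT nd P x.1 x.2.1 x.2.2) := by
    unfold pT
    cases nd
    · simp only [Bool.false_eq_true, if_false]
      have hs : Continuous (fun x : ℂ × ℂ × ℂ => ‖x.1‖) := continuous_fst.norm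
      have ht : Continuous (fun x : ℂ × ℂ × ℂ => ‖x.2.1‖) := (continuous_fst.comp continuous_snd).norm
      have hs' : Continuous (fun x : ℂ × ℂ × ℂ => ‖x.2.2‖) := (continuous_snd.comp continuous_snd).norm
      have h1 : Continuous (fun x : ℂ × ℂ × ℂ => ‖x.1‖ ^ (1 - P.κ)) :=
        hs.rpow_const fun _ => Or.inr (by linarith)
      have h5 : Continuous (fun x : ℂ × ℂ × ℂ => Real.exp (-P.ε * ‖x.2.1‖ ^ 2)) :=
        Real.continuous_exp.comp (continuous_const.mul (ht.pow 2))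
      exact (h1.mul hs').mul h5
    · simp only [if_true]
      have h6 : Continuous (fun x : ℂ × ℂ × ℂ => ((x.2.1, x.1, x.2.2) : ℂ × ℂ × ℂ)) := by fun_prop
      have h7 := (hN true).comp h6
      exact h7
  unfold pM
  have h7 : Continuous (fun y : (ℂ × ℂ) × (ℂ × ℂ) => ((y.1.1, y.1.2, y.2.1) : ℂ × ℂ × ℂ)) := by fun_prop
  have h8 : Continuous (fun y : (ℂ × ℂ) × (ℂ × ℂ) => ((y.1.1, y.1.2, y.2.2) : ℂ × ℂ × ℂ)) := by fun_prop
  have h9 := (hN nd).comp h7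
  have h10 := hT.comp h8
  have h11 := h9.max h10
  exact h11

private theorem PieceBasic_exp_le {a x : ℝ} (ha : 0 ≤ a) : Real.exp (-a * x ^ 2) ≤ 1 := by
  rw [Real.exp_le_one_iff]
  nlinarith [sq_nonneg x]

private theorem PieceBasic_le_exp {a x : ℝ} (ha : 0 ≤ a) (hx0 : 0 ≤ x) (hx : x ≤ 1) :
    Real.exp (-a) ≤ Real.exp (-a * x ^ 2) := by
  rw [Real.exp_le_exp]
  have : x ^ 2 ≤ 1 := pow_le_one₀ hx0 hx
  nlinarith

private theorem PieceBasic_rpow_ge {x κ : ℝ} (hx0 : 0 ≤ x) (hx : x ≤ 1) (hκ : 0 ≤ κ) (hκ1 : κ ≤ 1 / 4) :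
    x ≤ x ^ (1 - κ) := by
  rcases hx0.eq_or_lt with h | h
  · rw [← h, Real.zero_rpow (by linarith)]
  · have := Real.rpow_le_rpow_of_exponent_ge h hx (show 1 - κ ≤ 1 by linarith)
    rwa [Real.rpow_one] at this

private theorem PieceBasic_rpow_le {x κ : ℝ} (hx0 : 0 ≤ x) (hx : x ≤ 1) (hκ1 : κ ≤ 1 / 4) :
    x ^ (1 - κ) ≤ 1 := Real.rpow_le_one hx0 hx (by linarith)

private theorem PieceBasic_pow_le {P : Par} (hP : ConvPar P) {s : ℂ} (hs : ‖s‖ ≤ 1) :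
    (1 + P.M * ‖s‖ ^ (2 * P.κ)) ^ P.e ≤ 2 := by
  have hM : 0 ≤ P.M := by linarith [hP.M_ge]
  have h1 := PieceBasic_base (P := P) hM s
  have h2 : ‖s‖ ^ (2 * P.κ) ≤ 1 := Real.rpow_le_one (norm_nonneg _) hs (by linarith [hP.κ_pos])
  have h3 : 1 + P.M * ‖s‖ ^ (2 * P.κ) ≤ 1 + P.M := by nlinarith
  have h4 : (1 + P.M * ‖s‖ ^ (2 * P.κ)) ^ P.e ≤ (1 + P.M) ^ P.e :=
    Real.rpow_le_rpow (by linarith) h3 hP.e_pos.le
  refine h4.trans ?_
  rw [Real.rpow_def_of_pos (by linarith)]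
  have h5 : Real.log (1 + P.M) * P.e ≤ 1 / 16 := by
    have := hP.e_log
    have := hP.ε_le
    nlinarith
  have h6 : Real.exp (Real.log (1 + P.M) * P.e) ≤ Real.exp (1 / 16) := Real.exp_le_exp.2 h5
  have h7 : Real.exp (1 / 16) ≤ 2 := by
    have h8 := Real.exp_bound_div_one_sub_of_interval (x := 1 / 16) (by norm_num) (by norm_num)
    refine h8.trans (by norm_num)
  exact h6.trans h7

private theorem PieceBasic_one_le {P : Par} (hP : ConvPar P) (s : ℂ) :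
    1 ≤ (1 + P.M * ‖s‖ ^ (2 * P.κ)) ^ P.e :=
  Real.one_le_rpow (PieceBasic_base (by linarith [hP.M_ge]) s) hP.e_pos.le

private theorem PieceBasic_pN_le {P : Par} (hP : ConvPar P) (nd : Bool) {s t : ℂ} (hs : ‖s‖ ≤ 1) (ht : ‖t‖ ≤ 1)
    (s' : ℂ) : pN nd P s t s' ≤ 2 * ‖s'‖ := by
  unfold pN
  have h1 := PieceBasic_pow_le hP hs
  have h1' := PieceBasic_one_le hP s
  have h2 : Real.exp (-P.K * ‖t‖ ^ 2) ≤ 1 := PieceBasic_exp_le hP.K_pos.le
  have h3 : (if nd = true then ‖t‖ ^ (1 - P.κ) * Real.exp (-P.ε * ‖s‖ ^ 2) else 1) ≤ 1 := by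
    split_ifs
    · exact mul_le_one₀ (PieceBasic_rpow_le (norm_nonneg _) ht hP.κ_le) (Real.exp_pos _).le
        (PieceBasic_exp_le hP.ε_pos.le)
    · exact le_refl _
  have h4 : 0 ≤ (if nd = true then ‖t‖ ^ (1 - P.κ) * Real.exp (-P.ε * ‖s‖ ^ 2) else 1) := by
    split_ifs
    · exact mul_nonneg (Real.rpow_nonneg (norm_nonneg _) _) (Real.exp_pos _).le
    · exact zero_le_one
  have h5 := norm_nonneg s'
  calc _ ≤ 1 * ‖s'‖ * 2 * 1 := by
        refine mul_le_mul (mul_le_mul (mul_le_mul h3 le_rfl h5 zero_le_one) h1 (by linarith) (by positivity)) h2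
          (Real.exp_pos _).le (by positivity)
    _ = 2 * ‖s'‖ := by ring

private theorem PieceBasic_le_pN_true {P : Par} (hP : ConvPar P) {s t : ℂ} (hs : ‖s‖ ≤ 1) (ht : ‖t‖ ≤ 1)
    (s' : ℂ) : ‖t‖ * ‖s'‖ * Real.exp (-P.K - 1) ≤ pN true P s t s' := by
  unfold pN
  rw [if_pos rfl]
  have h1 := PieceBasic_one_le hP s
  have h2 : Real.exp (-P.K) ≤ Real.exp (-P.K * ‖t‖ ^ 2) := PieceBasic_le_exp hP.K_pos.le (norm_nonneg _) ht
  have h3 : Real.exp (-1) ≤ Real.exp (-P.ε * ‖s‖ ^ 2) := by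
    refine le_trans (Real.exp_le_exp.2 ?_) (PieceBasic_le_exp hP.ε_pos.le (norm_nonneg _) hs)
    linarith [hP.ε_le]
  have h4 : ‖t‖ ≤ ‖t‖ ^ (1 - P.κ) := PieceBasic_rpow_ge (norm_nonneg _) ht hP.κ_pos.le hP.κ_le
  have h5 : Real.exp (-P.K - 1) = Real.exp (-1) * Real.exp (-P.K) := by
    rw [← Real.exp_add]
    congr 1
    ring
  rw [h5]
  have hr : 0 ≤ ‖t‖ ^ (1 - P.κ) := Real.rpow_nonneg (norm_nonneg _) _
  calc ‖t‖ * ‖s'‖ * (Real.exp (-1) * Real.exp (-P.K)) = ‖t‖ * Real.exp (-1) * ‖s'‖ * 1 * Real.exp (-P.K) := by ring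
    _ ≤ ‖t‖ ^ (1 - P.κ) * Real.exp (-P.ε * ‖s‖ ^ 2) * ‖s'‖ * (1 + P.M * ‖s‖ ^ (2 * P.κ)) ^ P.e *
        Real.exp (-P.K * ‖t‖ ^ 2) := by
      gcongr

private theorem PieceBasic_le_pN_false {P : Par} (hP : ConvPar P) {s t : ℂ} (ht : ‖t‖ ≤ 1)
    (s' : ℂ) : ‖s'‖ * Real.exp (-P.K - 1) ≤ pN false P s t s' := by
  unfold pN
  rw [if_neg (by decide)]
  have h1 := PieceBasic_one_le hP s
  have h2 : Real.exp (-P.K) ≤ Real.exp (-P.K * ‖t‖ ^ 2) := PieceBasic_le_exp hP.K_pos.le (norm_nonneg _) ht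
  have h5 : Real.exp (-P.K - 1) ≤ Real.exp (-P.K) := Real.exp_le_exp.2 (by linarith)
  calc ‖s'‖ * Real.exp (-P.K - 1) ≤ ‖s'‖ * Real.exp (-P.K * ‖t‖ ^ 2) :=
        mul_le_mul_of_nonneg_left (h5.trans h2) (norm_nonneg _)
    _ = 1 * ‖s'‖ * 1 * Real.exp (-P.K * ‖t‖ ^ 2) := by ring
    _ ≤ 1 * ‖s'‖ * (1 + P.M * ‖s‖ ^ (2 * P.κ)) ^ P.e * Real.exp (-P.K * ‖t‖ ^ 2) := by gcongr

private theorem PieceBasic_fst {p : ℂ × ℂ} (hp : ‖p‖ ≤ 1) : ‖p.1‖ ≤ 1 := (norm_fst_le p).trans hp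

private theorem PieceBasic_snd {p : ℂ × ℂ} (hp : ‖p‖ ≤ 1) : ‖p.2‖ ≤ 1 := (norm_snd_le p).trans hp

/-- the upper bound -/
theorem pM_le {P : Par} (hP : ConvPar P) (nd : Bool) {p : ℂ × ℂ} (hp : ‖p‖ ≤ 1) (w : ℂ × ℂ) :
    pM nd P p w ≤ 2 * ‖w‖ := by
  have h1 := PieceBasic_fst hp
  have h2 := PieceBasic_snd hp
  have hw1 : ‖w.1‖ ≤ ‖w‖ := norm_fst_le w
  have hw2 : ‖w.2‖ ≤ ‖w‖ := norm_snd_le w
  refine max_le ?_ ?_
  · exact (PieceBasic_pN_le hP nd h1 h2 w.1).trans (by linarith)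
  · unfold pT
    split_ifs
    · exact (PieceBasic_pN_le hP true h2 h1 w.2).trans (by linarith)
    · have h3 : ‖p.1‖ ^ (1 - P.κ) ≤ 1 := PieceBasic_rpow_le (norm_nonneg _) h1 hP.κ_le
      have h4 : Real.exp (-P.ε * ‖p.2‖ ^ 2) ≤ 1 := PieceBasic_exp_le hP.ε_pos.le
      calc ‖p.1‖ ^ (1 - P.κ) * ‖w.2‖ * Real.exp (-P.ε * ‖p.2‖ ^ 2) ≤ 1 * ‖w.2‖ * 1 := by gcongr
        _ ≤ 2 * ‖w‖ := by linarith [norm_nonneg w.2]

/-- the lower bounds -/
theorem le_pM_false {P : Par} (hP : ConvPar P) {p : ℂ × ℂ} (hp : ‖p‖ ≤ 1) (w : ℂ × ℂ) :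
    ‖p.1‖ * ‖w‖ * Real.exp (-P.K - 1) ≤ pM false P p w := by
  have h1 := PieceBasic_fst hp
  have h2 := PieceBasic_snd hp
  have hw : ‖w‖ = max ‖w.1‖ ‖w.2‖ := Prod.norm_def _
  have hE : 0 ≤ Real.exp (-P.K - 1) := (Real.exp_pos _).le
  rcases max_choice ‖w.1‖ ‖w.2‖ with h | h
  · rw [hw, h]
    refine le_max_of_le_left ((le_trans ?_ (PieceBasic_le_pN_false hP h2 w.1)))
    have h3 : ‖p.1‖ * ‖w.1‖ ≤ 1 * ‖w.1‖ := mul_le_mul_of_nonneg_right h1 (norm_nonneg _)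
    rw [one_mul] at h3
    exact mul_le_mul_of_nonneg_right h3 hE
  · rw [hw, h]
    refine le_max_of_le_right ?_
    unfold pT
    rw [if_neg (by decide)]
    have h4 : ‖p.1‖ ≤ ‖p.1‖ ^ (1 - P.κ) := PieceBasic_rpow_ge (norm_nonneg _) h1 hP.κ_pos.le hP.κ_le
    have h5 : Real.exp (-P.K - 1) ≤ Real.exp (-P.ε * ‖p.2‖ ^ 2) := by
      refine le_trans (Real.exp_le_exp.2 ?_) (PieceBasic_le_exp hP.ε_pos.le (norm_nonneg _) h2)
      linarith [hP.ε_le, hP.K_pos]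
    have hr : 0 ≤ ‖p.1‖ ^ (1 - P.κ) := Real.rpow_nonneg (norm_nonneg _) _
    gcongr

theorem le_pM_true {P : Par} (hP : ConvPar P) {p : ℂ × ℂ} (hp : ‖p‖ ≤ 1) (w : ℂ × ℂ) :
    ‖p.1‖ * ‖p.2‖ * ‖w‖ * Real.exp (-P.K - 1) ≤ pM true P p w := by
  have h1 := PieceBasic_fst hp
  have h2 := PieceBasic_snd hp
  have hw : ‖w‖ = max ‖w.1‖ ‖w.2‖ := Prod.norm_def _
  have hE : 0 ≤ Real.exp (-P.K - 1) := (Real.exp_pos _).le
  rcases max_choice ‖w.1‖ ‖w.2‖ with h | h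
  · rw [hw, h]
    refine le_max_of_le_left ((le_trans ?_ (PieceBasic_le_pN_true hP h1 h2 w.1)))
    have h3 : ‖p.1‖ * ‖p.2‖ * ‖w.1‖ ≤ ‖p.2‖ * ‖w.1‖ := by
      have := mul_le_mul_of_nonneg_right h1 (mul_nonneg (norm_nonneg p.2) (norm_nonneg w.1))
      linarith
    exact mul_le_mul_of_nonneg_right h3 hE
  · rw [hw, h]
    refine le_max_of_le_right ?_
    unfold pT
    rw [if_pos rfl]
    refine le_trans ?_ (PieceBasic_le_pN_true hP h2 h1 w.2)
    have h3 : ‖p.1‖ * ‖p.2‖ * ‖w.2‖ ≤ ‖p.1‖ * ‖w.2‖ := by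
      have := mul_le_mul_of_nonneg_right h2 (mul_nonneg (norm_nonneg p.1) (norm_nonneg w.2))
      linarith
    exact mul_le_mul_of_nonneg_right h3 hE

end Pool.Agent.H14.PP

end

section

/-!
# BPm TELocal: local estimates for a change of charts near a smooth point of `T`

`τ = (u, w)` is analytic at `p₀ = (0, t₀)`, `u (0,t) = 0` for `t` near `t₀`, and the Jacobian
determinant at `p₀` is not zero. Let `l = ∂_s u`, `b = ∂_t u`, `c = ∂_s w`, `m = ∂_t w` (continuous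
near `p₀`, and Lipschitz near `p₀` because `fderiv ℂ τ` is analytic: `AnalyticAt.fderiv`,
`ContDiffAt.exists_lipschitzOnWith`).
* `b (0,t) = 0` for `t` near `t₀`, so `‖b (s,t)‖ ≤ A ‖s‖` (Lipschitz).
* `jac = l m - b c`, at `p₀` it is `l m ≠ 0`; so `‖l‖, ‖m‖` are between two positive constants
  near `p₀`; `‖c‖` is bounded.
* `‖u (s,t) - l (s,t) s‖ ≤ A ‖s‖^2`: for fixed `(s,t)` the function
  `θ ↦ u (θ s, t) - θ s l (s,t)`, `θ ∈ [0,1]`, has derivative `s (l (θ s, t) - l (s,t))`, of norm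
  `≤ A ‖s‖^2`, and vanishes at `0`. So `|‖u‖ - ‖l‖‖s‖| ≤ A ‖s‖^2`.
-/

open Topology Filter Metric

namespace Pool.Agent.H14.PP

/-- two-sided bounds near a point -/
private theorem TELocal_bd {f : ℂ × ℂ → ℂ} {p : ℂ × ℂ} (hf : ContinuousAt f p) (h : f p ≠ 0) :
    ∀ᶠ q in 𝓝 p, ‖f p‖ / 2 ≤ ‖f q‖ ∧ ‖f q‖ ≤ ‖f p‖ + 1 := by
  have hp : 0 < ‖f p‖ := norm_pos_iff.2 h
  have h1 := hf.norm.eventually (lt_mem_nhds (show ‖f p‖ / 2 < ‖f p‖ by linarith))
  have h2 := hf.norm.eventually (gt_mem_nhds (show ‖f p‖ < ‖f p‖ + 1 by linarith))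
  filter_upwards [h1, h2] with q a b
  exact ⟨a.le, b.le⟩

theorem TE_local {τ : ℂ × ℂ → ℂ × ℂ} {t₀ : ℂ} (hτ : AnalyticAt ℂ τ (0, t₀))
    (hJ : jac τ (0, t₀) ≠ 0) (h0 : ∀ᶠ t in 𝓝 t₀, (τ (0, t)).1 = 0) :
    ∃ C : ℝ, 1 ≤ C ∧ ∀ᶠ p in 𝓝 ((0 : ℂ), t₀), TEmap C τ p := by
  have hD : AnalyticAt ℂ (fderiv ℂ τ) (0, t₀) := hτ.fderiv
  have hD1 : ContDiffAt ℂ 1 (fderiv ℂ τ) (0, t₀) := hD.contDiffAt
  obtain ⟨K, V, hV, hL⟩ := hD1.exists_lipschitzOnWith
  have hV' : ∀ᶠ p in 𝓝 ((0 : ℂ), t₀), p ∈ V := hV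
  obtain ⟨r1, hr1, hB1⟩ := Metric.eventually_nhds_iff_ball.1 (hτ.eventually_analyticAt.and hV')
  obtain ⟨r2, hr2, hB2⟩ := Metric.eventually_nhds_iff_ball.1 h0
  have hlip : ∀ p ∈ ball ((0 : ℂ), t₀) r1, ∀ q ∈ ball ((0 : ℂ), t₀) r1,
      ‖fderiv ℂ τ p - fderiv ℂ τ q‖ ≤ K * ‖p - q‖ := by
    intro p hp q hq
    have h1 := hL.dist_le_mul p (hB1 p hp).2 q (hB1 q hq).2
    rwa [dist_eq_norm, dist_eq_norm] at h1
  have hfst : ∀ (A B : ℂ × ℂ →L[ℂ] ℂ × ℂ) (v : ℂ × ℂ), ‖v‖ ≤ 1 → ‖(A v).1 - (B v).1‖ ≤ ‖A - B‖ := by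
    intro A B v hv
    have h1 : (A v).1 - (B v).1 = ((A - B) v).1 := by simp
    rw [h1]
    refine (norm_fst_le _).trans ?_
    refine ((A - B).le_opNorm v).trans ?_
    exact mul_le_of_le_one_right (norm_nonneg _) hv
  have hv1 : ‖((1 : ℂ), (0 : ℂ))‖ ≤ 1 := by simp [Prod.norm_def]
  have hv2 : ‖((0 : ℂ), (1 : ℂ))‖ ≤ 1 := by simp [Prod.norm_def]
  -- the derivative of the first component vanishes on the curve
  have hb0 : ∀ t ∈ ball t₀ (min r1 r2), (fderiv ℂ τ (0, t) (0, 1)).1 = 0 := by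
    intro t ht
    have ht1 : dist t t₀ < r1 := lt_of_lt_of_le ht (min_le_left _ _)
    have ht2 : t ∈ ball t₀ r2 := lt_of_lt_of_le (show dist t t₀ < min r1 r2 from ht) (min_le_right _ _)
    have hp : ((0 : ℂ), t) ∈ ball ((0 : ℂ), t₀) r1 := by
      rw [mem_ball, Prod.dist_eq]
      simp only [dist_self]
      exact max_lt hr1 ht1
    have h1 : HasFDerivAt τ (fderiv ℂ τ (0, t)) (0, t) := (hB1 _ hp).1.differentiableAt.hasFDerivAt
    have h2 : HasDerivAt (fun y : ℂ => ((0 : ℂ), y)) ((0 : ℂ), (1 : ℂ)) t :=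
      (hasDerivAt_const t (0 : ℂ)).prodMk (hasDerivAt_id t)
    have h3 : HasDerivAt (fun y : ℂ => τ (0, y)) (fderiv ℂ τ (0, t) (0, 1)) t :=
      h1.comp_hasDerivAt t h2
    have h4 : HasDerivAt (fun y : ℂ => (τ (0, y)).1) (fderiv ℂ τ (0, t) (0, 1)).1 t :=
      (ContinuousLinearMap.fst ℂ ℂ ℂ).hasFDerivAt.comp_hasDerivAt t h3
    have h5 : HasDerivAt (fun y : ℂ => (τ (0, y)).1) 0 t := by
      refine (hasDerivAt_const t (0 : ℂ)).congr_of_eventuallyEq ?_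
      filter_upwards [isOpen_ball.mem_nhds ht2] with y hy
      exact hB2 y hy
    exact h4.unique h5
  -- continuity
  have hcl : ContinuousAt (fun p => (fderiv ℂ τ p (1, 0)).1) ((0 : ℂ), t₀) :=
    (hD.continuousAt.clm_apply continuousAt_const).fst
  have hcc : ContinuousAt (fun p => (fderiv ℂ τ p (1, 0)).2) ((0 : ℂ), t₀) :=
    (hD.continuousAt.clm_apply continuousAt_const).snd
  have hcm : ContinuousAt (fun p => (fderiv ℂ τ p (0, 1)).2) ((0 : ℂ), t₀) :=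
    (hD.continuousAt.clm_apply continuousAt_const).snd
  have hb00 := hb0 t₀ (mem_ball_self (lt_min hr1 hr2))
  have hlm : (fderiv ℂ τ (0, t₀) (1, 0)).1 * (fderiv ℂ τ (0, t₀) (0, 1)).2 ≠ 0 := by
    intro h
    apply hJ
    unfold jac
    rw [h, hb00]
    ring
  have hl0 := left_ne_zero_of_mul hlm
  have hm0 := right_ne_zero_of_mul hlm
  have hlp : 0 < ‖(fderiv ℂ τ (0, t₀) (1, 0)).1‖ := norm_pos_iff.2 hl0
  have hmp : 0 < ‖(fderiv ℂ τ (0, t₀) (0, 1)).2‖ := norm_pos_iff.2 hm0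
  obtain ⟨L, hLd⟩ : ∃ L : ℝ, L = ‖(fderiv ℂ τ (0, t₀) (1, 0)).1‖ := ⟨_, rfl⟩
  obtain ⟨M, hMd⟩ : ∃ M : ℝ, M = ‖(fderiv ℂ τ (0, t₀) (0, 1)).2‖ := ⟨_, rfl⟩
  obtain ⟨c0, hcd⟩ : ∃ c0 : ℝ, c0 = ‖(fderiv ℂ τ (0, t₀) (1, 0)).2‖ := ⟨_, rfl⟩
  have hc00 : 0 ≤ c0 := by
    rw [hcd]
    exact norm_nonneg _
  have hLp : 0 < L := by
    rw [hLd]
    exact hlp
  have hMp : 0 < M := by
    rw [hMd]
    exact hmp
  have hc1 : ∀ᶠ p in 𝓝 ((0 : ℂ), t₀), ‖(fderiv ℂ τ p (1, 0)).2‖ < c0 + 1 := by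
    refine hcc.norm.eventually (gt_mem_nhds ?_)
    rw [hcd]
    linarith
  have hK0 : (0 : ℝ) ≤ K := K.2
  have h2L : 0 < 2 / L := by positivity
  have h2M : 0 < 2 / M := by positivity
  refine ⟨1 + 2 * K + (c0 + 1) + (L + 1) + (M + 1) + 2 / L + 2 / M, by linarith, ?_⟩
  obtain ⟨C, hC⟩ : ∃ C : ℝ, C = 1 + 2 * K + (c0 + 1) + (L + 1) + (M + 1) + 2 / L + 2 / M := ⟨_, rfl⟩
  rw [← hC]
  have hCp : 0 < C := by linarith
  have hinv : ∀ x : ℝ, 0 < x → 2 / x ≤ C → C⁻¹ ≤ x / 2 := by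
    intro x hx h
    rw [inv_le_comm₀ hCp (by positivity), inv_div]
    exact h
  have hCL : C⁻¹ ≤ L / 2 := hinv L hLp (by linarith)
  have hCM : C⁻¹ ≤ M / 2 := hinv M hMp (by linarith)
  have hbl := TELocal_bd hcl hl0
  have hbm := TELocal_bd hcm hm0
  simp only [← hLd] at hbl
  simp only [← hMd] at hbm
  have hball : ∀ᶠ p in 𝓝 ((0 : ℂ), t₀), p ∈ ball ((0 : ℂ), t₀) (min r1 r2) :=
    isOpen_ball.mem_nhds (mem_ball_self (lt_min hr1 hr2))
  filter_upwards [hbl, hbm, hc1, hball] with p a1 a2 a3 hp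
  obtain ⟨s, t⟩ := p
  rw [mem_ball, Prod.dist_eq, max_lt_iff] at hp
  obtain ⟨hs, ht⟩ := hp
  simp only at hs ht
  have hs' : ‖s‖ < r1 := by
    have := lt_of_lt_of_le hs (min_le_left _ _)
    rwa [dist_zero_right] at this
  have ht' : dist t t₀ < r1 := lt_of_lt_of_le ht (min_le_left _ _)
  have hin : ∀ z : ℂ, ‖z‖ ≤ ‖s‖ → (z, t) ∈ ball ((0 : ℂ), t₀) r1 := by
    intro z hz
    rw [mem_ball, Prod.dist_eq]
    refine max_lt ?_ ht'
    rw [dist_zero_right]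
    exact lt_of_le_of_lt hz hs'
  unfold TEmap TE
  refine ⟨?_, by linarith, ?_, hCL.trans a1.1, by linarith [a1.2], hCM.trans a2.1, by linarith [a2.2]⟩
  · have h1 := hfst (fderiv ℂ τ (s, t)) (fderiv ℂ τ (0, t)) (0, 1) hv2
    rw [hb0 t ht, sub_zero] at h1
    have h2 := hlip (s, t) (hin s le_rfl) (0, t) (hin 0 (by simp))
    have h3 : ‖((s, t) : ℂ × ℂ) - (0, t)‖ = ‖s‖ := by simp [Prod.norm_def]
    rw [h3] at h2
    refine h1.trans (h2.trans ?_)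
    exact mul_le_mul_of_nonneg_right (by linarith) (norm_nonneg _)
  · have hmv : ‖((τ (s, t)).1 - s * (fderiv ℂ τ (s, t) (1, 0)).1) -
        ((τ (0, t)).1 - 0 * (fderiv ℂ τ (s, t) (1, 0)).1)‖ ≤ 2 * K * ‖s‖ * ‖s - 0‖ := by
      refine Convex.norm_image_sub_le_of_norm_hasDerivWithin_le
        (f := fun z : ℂ => (τ (z, t)).1 - z * (fderiv ℂ τ (s, t) (1, 0)).1)
        (f' := fun z : ℂ => (fderiv ℂ τ (z, t) (1, 0)).1 - 1 * (fderiv ℂ τ (s, t) (1, 0)).1)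
        (s := closedBall (0 : ℂ) ‖s‖) ?_ ?_ (convex_closedBall _ _) (by simp) (by simp)
      · intro z hz
        rw [mem_closedBall, dist_zero_right] at hz
        have h1 : HasFDerivAt τ (fderiv ℂ τ (z, t)) (z, t) :=
          (hB1 _ (hin z hz)).1.differentiableAt.hasFDerivAt
        have h2 : HasDerivAt (fun y : ℂ => (y, t)) ((1 : ℂ), (0 : ℂ)) z :=
          (hasDerivAt_id z).prodMk (hasDerivAt_const z t)
        have h3 : HasDerivAt (fun y : ℂ => τ (y, t)) (fderiv ℂ τ (z, t) (1, 0)) z :=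
          h1.comp_hasDerivAt z h2
        have h4 : HasDerivAt (fun y : ℂ => (τ (y, t)).1) (fderiv ℂ τ (z, t) (1, 0)).1 z :=
          (ContinuousLinearMap.fst ℂ ℂ ℂ).hasFDerivAt.comp_hasDerivAt z h3
        exact (h4.sub ((hasDerivAt_id z).mul_const _)).hasDerivWithinAt
      · intro z hz
        rw [mem_closedBall, dist_zero_right] at hz
        rw [one_mul]
        refine (hfst _ _ _ hv1).trans ?_
        refine (hlip (z, t) (hin z hz) (s, t) (hin s le_rfl)).trans ?_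
        have h3 : ‖((z, t) : ℂ × ℂ) - (s, t)‖ = ‖z - s‖ := by simp [Prod.norm_def]
        rw [h3]
        have h4 : ‖z - s‖ ≤ 2 * ‖s‖ := (norm_sub_le _ _).trans (by linarith)
        calc (K : ℝ) * ‖z - s‖ ≤ K * (2 * ‖s‖) := mul_le_mul_of_nonneg_left h4 hK0
          _ = 2 * K * ‖s‖ := by ring
    have h0t : (τ (0, t)).1 = 0 := hB2 t (lt_of_lt_of_le ht (min_le_right _ _))
    rw [h0t, zero_mul, sub_zero, sub_zero, sub_zero] at hmv
    have h5 : |‖(τ (s, t)).1‖ - ‖(fderiv ℂ τ (s, t) (1, 0)).1‖ * ‖s‖| ≤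
        ‖(τ (s, t)).1 - s * (fderiv ℂ τ (s, t) (1, 0)).1‖ := by
      have h6 := abs_norm_sub_norm_le (τ (s, t)).1 (s * (fderiv ℂ τ (s, t) (1, 0)).1)
      rwa [norm_mul, mul_comm ‖s‖] at h6
    refine h5.trans (hmv.trans ?_)
    rw [mul_assoc, ← pow_two]
    exact mul_le_mul_of_nonneg_right (by linarith) (by positivity)

theorem TE.mono {C C' : ℝ} (hC : 1 ≤ C) (h : C ≤ C') {s u l b c m : ℂ} (hT : TE C s u l b c m) :
    TE C' s u l b c m := by
  obtain ⟨h1, h2, h3, h4, h5, h6, h7⟩ := hT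
  have hC0 : 0 < C := by linarith
  have hi : C'⁻¹ ≤ C⁻¹ := inv_anti₀ hC0 h
  refine ⟨h1.trans (mul_le_mul_of_nonneg_right h (norm_nonneg _)), h2.trans h,
    h3.trans (mul_le_mul_of_nonneg_right h (by positivity)), hi.trans h4, h5.trans h, hi.trans h6, h7.trans h⟩

end Pool.Agent.H14.PP

end
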