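import Pool.Agent.H94.G6.M09
import Pool.Agent.H94.G6.M13
import Pool.Agent.H94.G6.M17
import Pool.Agent.H94.G6.M25
import Pool.Agent.H94.G6.M32
import Pool.Agent.H94.G6.M54

/-! The parts of this file: H13.CV.FinPl, H13.CV.Loc, H13.CV.Step, H14.PP.TECompact, H62.BU.Off. -/

section

/-!
# CV FinPl: finitely many places over `x = 0`

`sum_le`: let `e E = oz E x > 0` for `E ∈ T`.  By `exists_orders` (applied to `T`, with `d E = j` and `d E' = e E'` for `E' ≠ E`) there are functions `f E j`, `E ∈ T`, `j < e E`, with `oz E (f E j) = j`,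
`oz E' (f E j) = e E'` for `E' ∈ T`, `E' ≠ E`.  They are linearly independent over `L`: let `∑ c E j • f E j = 0`, not all `c E j = 0`.  For the `c E j ≠ 0` let `k E j` be as in `exists_zpow`, and let `k₀`
be the minimum of them; multiply by `x ^ (- k₀)`: so we may assume that `k₀ = 0`, all `k E j ≥ 0`.  Let `(E, j)` have `c E j ≠ 0`, `k E j = 0`, and `j` minimal for this `E`.  Look at the orders at `E`:
the term `(E, j)` has order `j < e E`; the terms `(E, i)` with `i ≠ j`, `c E i ≠ 0` have order `k E i * e E + i > j` (`i > j` or `k E i ≥ 1`); the terms `(E', i)`, `E' ≠ E`, have order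
`≥ e E > j`.  So the sum of the other terms has order `> j` (or is `0`) and the total sum has order `j`: contradiction.
The number of these functions is `∑ E ∈ T, e E`, so it is `≤ finrank L K` (`LinearIndependent.fintype_card_le_finrank`, index type a sigma type `Σ E : T, Fin (oz E x).toNat`, or a finset of pairs).

`finite_over`: otherwise there is a set `T` with more than `finrank L K` elements, and all `oz E x ≥ 1`.  `finite_poles`: if `f` has a pole then it is transcendental (`tr_of_pole`), apply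
`finite_over` to `f⁻¹` and `L = ℂ(f⁻¹)`.  `finite_supp`: the zeros of `f` are the poles of `f⁻¹`.
-/

set_option autoImplicit false

open Pool.Agent.H23.Fano (PrimeDivisorOver Form regularForms)

noncomputable section

namespace Pool.Agent.H13.CV

variable {K : Type} [Field K] [Algebra ℂ K] {L : IntermediateField ℂ K} {x : K}

/-- the order of a product with an element of `ℂ(x)` -/
private theorem finPl_ord (E : Place K) {a b : K} (ha : a ≠ 0) (hb : b ≠ 0) {m n : ℤ}
    (h1 : oz E a = m) (h2 : oz E b = n) : E.ord (a * b) = ((m + n : ℤ) : WithTop ℤ) := by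
  rw [← coe_oz E (mul_ne_zero ha hb), oz_mul E ha hb, h1, h2]

theorem sum_le (hL : Gen L x) [FiniteDimensional L K] (T : Finset (Place K)) (hT : ∀ E ∈ T, 0 < E.ord x) :
    ∑ E ∈ T, oz E x ≤ (Module.finrank L K : ℤ) := by
  classical
  have hx := hL.ne_zero
  have he : ∀ E ∈ T, 0 < oz E x := fun E hE => (pos_iff.1 (hT E hE)).resolve_left hx
  -- the functions
  have hf : ∀ i : (Σ E : {E // E ∈ T}, Fin (oz E.1 x).toNat), ∃ f : K, f ≠ 0 ∧
      oz i.1.1 f = ((i.2 : ℕ) : ℤ) ∧ ∀ E' ∈ T, E' ≠ i.1.1 → oz E' f = oz E' x := by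
    intro i
    obtain ⟨f, hf0, hf1⟩ := exists_orders T
      (fun E' => if E' = i.1.1 then ((i.2 : ℕ) : ℤ) else oz E' x) ⟨i.1.1, i.1.2⟩
    refine ⟨f, hf0, ?_, fun E' hE' hne => ?_⟩
    · rw [hf1 _ i.1.2, if_pos rfl]
    · rw [hf1 _ hE', if_neg hne]
  choose f hf0 hf1 hf2 using hf
  have hli : LinearIndependent L f := by
    rw [Fintype.linearIndependent_iff]
    intro c hc
    by_contra hcon
    push Not at hcon
    obtain ⟨i₁, hi₁⟩ := hcon
    -- the exponents
    have hk : ∀ i, ∃ k : ℤ, c i ≠ 0 → ∀ E : Place K, 0 < E.ord x →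
        oz E (c i : K) = k * oz E x := by
      intro i
      by_cases h : c i = 0
      · exact ⟨0, fun h1 => absurd h h1⟩
      · obtain ⟨k, hk⟩ := exists_zpow hL (c i).2 (fun h1 => h (Subtype.ext h1))
        exact ⟨k, fun _ => hk⟩
    choose k hk using hk
    set S : Finset (Σ E : {E // E ∈ T}, Fin (oz E.1 x).toNat) :=
      Finset.univ.filter fun i => c i ≠ 0 with hS
    have hS1 : S.Nonempty := ⟨i₁, by rw [hS, Finset.mem_filter]; exact ⟨Finset.mem_univ _, hi₁⟩⟩
    obtain ⟨i₂, hi₂, hmin₂⟩ := Finset.exists_min_image S k hS1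
    obtain ⟨i₀, hi₀, hmin₀⟩ := Finset.exists_min_image (S.filter fun i => k i = k i₂)
      (fun i => (i.2 : ℕ)) ⟨i₂, by rw [Finset.mem_filter]; exact ⟨hi₂, rfl⟩⟩
    rw [Finset.mem_filter] at hi₀
    obtain ⟨hi₀S, hk₀⟩ := hi₀
    have hc0 : c i₀ ≠ 0 := by
      rw [hS, Finset.mem_filter] at hi₀S
      exact hi₀S.2
    have hcK : ∀ i, c i ≠ 0 → (c i : K) ≠ 0 := fun i h h1 => h (Subtype.ext h1)
    have hE0 : 0 < i₀.1.1.ord x := hT _ i₀.1.2
    have hord0 : i₀.1.1.ord ((c i₀ : K) * f i₀) =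
        ((k i₀ * oz i₀.1.1 x + ((i₀.2 : ℕ) : ℤ) : ℤ) : WithTop ℤ) :=
      finPl_ord _ (hcK _ hc0) (hf0 _) (hk _ hc0 _ hE0) (hf1 _)
    have hj0 : ((i₀.2 : ℕ) : ℤ) < oz i₀.1.1 x := by
      have h1 := i₀.2.2
      omega
    have hothers : ∀ i ∈ Finset.univ.erase i₀,
        i₀.1.1.ord ((c i₀ : K) * f i₀) < i₀.1.1.ord ((c i : K) * f i) := by
      intro i hi
      rw [Finset.mem_erase] at hi
      by_cases hci : c i = 0
      · rw [hci, hord0]
        simp only [ZeroMemClass.coe_zero, zero_mul, AddValuation.map_zero]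
        exact WithTop.coe_lt_top _
      · have hiS : i ∈ S := by
          rw [hS, Finset.mem_filter]
          exact ⟨Finset.mem_univ _, hci⟩
        have hki : k i₀ ≤ k i := by
          rw [hk₀]
          exact hmin₂ i hiS
        have hepos := he _ i₀.1.2
        by_cases hEi : i.1 = i₀.1
        · obtain ⟨Ei, ji⟩ := i
          simp only at hEi
          subst hEi
          have h1 := finPl_ord i₀.1.1 (hcK _ hci) (hf0 _) (hk _ hci _ hE0)
            (hf1 (⟨i₀.1, ji⟩ : Σ E : {E // E ∈ T}, Fin (oz E.1 x).toNat))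
          rw [hord0, h1, WithTop.coe_lt_coe]
          simp only
          rcases lt_or_eq_of_le hki with h2 | h2
          · have h3 : (k i₀ + 1) * oz i₀.1.1 x ≤ k ⟨i₀.1, ji⟩ * oz i₀.1.1 x :=
              mul_le_mul_of_nonneg_right (by omega) hepos.le
            have h4 : (k i₀ + 1) * oz i₀.1.1 x = k i₀ * oz i₀.1.1 x + oz i₀.1.1 x := by ring
            have h5 : (0 : ℤ) ≤ ((ji : ℕ) : ℤ) := Int.natCast_nonneg _
            linarith
          · have h3 := hmin₀ ⟨i₀.1, ji⟩ (by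
              rw [Finset.mem_filter]
              exact ⟨hiS, by rw [← h2, hk₀]⟩)
            simp only at h3
            have h4 : (i₀.2 : ℕ) ≠ (ji : ℕ) := by
              intro h5
              apply hi.1
              have h6 : ji = i₀.2 := Fin.ext h5.symm
              rw [h6]
            have h5 : (i₀.2 : ℕ) < (ji : ℕ) := lt_of_le_of_ne h3 h4
            have h6 : ((i₀.2 : ℕ) : ℤ) < ((ji : ℕ) : ℤ) := by exact_mod_cast h5
            rw [← h2]
            linarith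
        · have hne : i₀.1.1 ≠ i.1.1 := fun h => hEi (Subtype.ext h.symm)
          have h1 := finPl_ord i₀.1.1 (hcK _ hci) (hf0 i) (hk _ hci _ hE0)
            (hf2 i _ i₀.1.2 hne)
          rw [hord0, h1, WithTop.coe_lt_coe]
          have h3 : k i₀ * oz i₀.1.1 x ≤ k i * oz i₀.1.1 x :=
            mul_le_mul_of_nonneg_right hki hepos.le
          linarith
    have hg : i₀.1.1.ord ((c i₀ : K) * f i₀) ≠ ⊤ := by
      rw [hord0]
      exact WithTop.coe_ne_top
    have hlt := AddValuation.map_lt_sum (v := i₀.1.1.ord) hg hothers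
    have hsum : (c i₀ : K) * f i₀ + ∑ i ∈ Finset.univ.erase i₀, (c i : K) * f i = 0 := by
      rw [Finset.add_sum_erase _ (fun i => (c i : K) * f i) (Finset.mem_univ i₀)]
      exact hc
    have hneg : ∑ i ∈ Finset.univ.erase i₀, (c i : K) * f i = -((c i₀ : K) * f i₀) :=
      eq_neg_of_add_eq_zero_right hsum
    rw [hneg, AddValuation.map_neg] at hlt
    exact lt_irrefl _ hlt
  have hcard := hli.fintype_card_le_finrank
  rw [Fintype.card_sigma] at hcard
  simp only [Fintype.card_fin] at hcard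
  have h1 : ∑ E ∈ T, oz E x = ((∑ E : {E // E ∈ T}, (oz E.1 x).toNat : ℕ) : ℤ) := by
    rw [Nat.cast_sum, ← Finset.sum_coe_sort T (fun E => oz E x)]
    refine Finset.sum_congr rfl fun E _ => ?_
    rw [Int.toNat_of_nonneg (he E.1 E.2).le]
  rw [h1]
  exact_mod_cast hcard

theorem finite_over (hL : Gen L x) [FiniteDimensional L K] : {E : Place K | 0 < E.ord x}.Finite := by
  by_contra hinf
  obtain ⟨T, hT, hcard⟩ := (Set.not_finite.1 hinf).exists_subset_card_eq (Module.finrank L K + 1)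
  have h1 := sum_le hL T (fun E hE => hT hE)
  have hx := hL.ne_zero
  have h2 : ∀ E ∈ T, (1 : ℤ) ≤ oz E x := fun E hE => (pos_iff.1 (hT hE)).resolve_left hx
  have h3 := Finset.sum_le_sum h2
  rw [Finset.sum_const, nsmul_eq_mul, mul_one, hcard] at h3
  push_cast at h3
  linarith

theorem finite_poles (hK : CurveField K) (f : K) : {E : Place K | E.ord f < 0}.Finite := by
  by_cases hne : ∃ E : Place K, E.ord f < 0
  · obtain ⟨E, hE⟩ := hne
    have htr := tr_of_pole hE
    have hL : Gen (IntermediateField.adjoin ℂ {f}) f := ⟨htr, rfl⟩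
    have hfd : FiniteDimensional (IntermediateField.adjoin ℂ {f}) K := hK.fin f htr
    have h1 := finite_over hL.inv
    refine h1.subset fun E' hE' => ?_
    exact (inv_pos_iff hL.ne_zero).2 hE'
  · push Not at hne
    have h1 : {E : Place K | E.ord f < 0} = ∅ :=
      Set.eq_empty_of_forall_notMem fun E hE => absurd hE (not_lt.2 (hne E))
    rw [h1]
    exact Set.finite_empty

end Pool.Agent.H13.CV

end
end

section

/-!
# CV Loc: bases over the local ring

`AffB.sub_const`: `0 ≤ ord (x - a) ↔ 0 ≤ ord x` and `Algebra.adjoin ℂ {x - a} = Algebra.adjoin ℂ {x}`.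
`AffB.locB`: (⇐) `w i` is `RegAff x` (its coordinates are `0` and `1`), so `RegLoc x`; `f = ∑ (w.repr f i) * w i`.  (⇒) Let `RegLoc x f`.  The places with `0 ≤ ord x`, `ord f < 0` are finitely many
(`finite_poles`), say `E₁, …, E_k`; the value `a_j` of `x` at `E_j` (`exists_value`) is not `0` (otherwise `0 < ord x` and `f` is regular).  Let `q = ∏ (X - a_j) ^ m` with `m ≥ - oz E_j f` for all
`j`; `q.eval 0 ≠ 0`, and `q (x) * f` is `RegAff x` (at `E_j` the factor `(x - a_j) ^ m` has order `≥ m`, the other factors are regular).  So its coordinates `q (x) * (w.repr f i)` are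
in `ℂ[x]`, and `w.repr f i = p_i (x) / q (x)` is `RegLoc x` (`regLoc_div`).
-/

set_option autoImplicit false

open Pool.Agent.H23.Fano (PrimeDivisorOver Form regularForms)

noncomputable section

namespace Pool.Agent.H13.CV

variable {K : Type} [Field K] [Algebra ℂ K] {L : IntermediateField ℂ K} {x : K} {n : ℕ}

theorem loc_repr (w : Module.Basis (Fin n) L K) (i j : Fin n) : (w.repr (w i) j : L) = 0 ∨ (w.repr (w i) j : L) = 1 := by
  classical
  rw [w.repr_self, Finsupp.single_apply]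
  split_ifs
  · exact Or.inr rfl
  · exact Or.inl rfl

theorem AffB.basis_regAff {w : Module.Basis (Fin n) L K} (hw : AffB x w) (i : Fin n) : RegAff x (w i) := by
  refine (hw (w i)).2 fun j => ?_
  rcases loc_repr w i j with h | h
  · rw [h]
    exact zero_mem _
  · rw [h]
    exact one_mem _

theorem AffB.sub_const (hL : Gen L x) {w : Module.Basis (Fin n) L K} (hw : AffB x w) (a : ℂ) : AffB (x - algebraMap ℂ K a) w := by
  have h1 : Algebra.adjoin ℂ {x - algebraMap ℂ K a} = Algebra.adjoin ℂ {x} := by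
    apply le_antisymm
    · rw [Algebra.adjoin_le_iff, Set.singleton_subset_iff]
      exact sub_mem (Algebra.self_mem_adjoin_singleton ℂ x) (Subalgebra.algebraMap_mem _ a)
    · rw [Algebra.adjoin_le_iff, Set.singleton_subset_iff]
      have h2 : x - algebraMap ℂ K a + algebraMap ℂ K a ∈ Algebra.adjoin ℂ {x - algebraMap ℂ K a} :=
        add_mem (Algebra.self_mem_adjoin_singleton ℂ _) (Subalgebra.algebraMap_mem _ a)
      rw [sub_add_cancel] at h2
      exact h2
  have h3 : ∀ E : Place K, 0 ≤ E.ord (x - algebraMap ℂ K a) ↔ 0 ≤ E.ord x := by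
    intro E
    constructor
    · intro h
      have h4 := nonneg_add h (const_nonneg E a)
      rw [sub_add_cancel] at h4
      exact h4
    · exact fun h => nonneg_sub h (const_nonneg E a)
  intro f
  rw [h1, ← hw f]
  unfold RegAff
  simp only [h3]

theorem AffB.locB (hK : CurveField K) (hL : Gen L x) {w : Module.Basis (Fin n) L K} (hw : AffB x w) : LocB x w := by
  classical
  intro f
  constructor
  · intro hf i
    have hfin := finite_poles hK f
    set T : Finset (Place K) := hfin.toFinset.filter (fun E => 0 ≤ E.ord x) with hT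
    have hTm : ∀ E : Place K, E ∈ T ↔ E.ord f < 0 ∧ 0 ≤ E.ord x := by
      intro E
      rw [hT, Finset.mem_filter, Set.Finite.mem_toFinset, Set.mem_ofPred_eq]
    have hne : ∀ E ∈ T, res E x ≠ 0 := by
      intro E hE h0
      obtain ⟨h1, h2⟩ := (hTm E).1 hE
      have h3 := res_spec hK h2
      rw [h0, map_zero, sub_zero] at h3
      exact absurd (hf E h3) (not_le.mpr h1)
    set m : ℕ := ∑ E ∈ T, (-oz E f).toNat with hm
    have hmE : ∀ E ∈ T, 0 ≤ (m : ℤ) + oz E f := by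
      intro E hE
      have h1 : (-oz E f).toNat ≤ m := Finset.single_le_sum (f := fun E => (-oz E f).toNat) (fun _ _ => Nat.zero_le _) hE
      have h2 : -oz E f ≤ ((-oz E f).toNat : ℤ) := Int.self_le_toNat _
      have h3 : ((-oz E f).toNat : ℤ) ≤ m := by exact_mod_cast h1
      linarith
    set q : Polynomial ℂ := ∏ E ∈ T, (Polynomial.X - Polynomial.C (res E x)) ^ m with hq
    have hq0 : q.eval 0 ≠ 0 := by
      rw [hq, Polynomial.eval_prod]
      refine Finset.prod_ne_zero_iff.2 fun E hE => ?_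
      rw [Polynomial.eval_pow, Polynomial.eval_sub, Polynomial.eval_X, Polynomial.eval_C, zero_sub]
      exact pow_ne_zero _ (neg_ne_zero.2 (hne E hE))
    have hqne : q ≠ 0 := by
      intro h
      rw [h, Polynomial.eval_zero] at hq0
      exact hq0 rfl
    have hqx : Polynomial.aeval x q ≠ 0 := by
      intro h
      exact hL.tr ⟨q, hqne, h⟩
    have hreg : RegAff x (Polynomial.aeval x q * f) := by
      intro E hE
      by_cases hfE : 0 ≤ E.ord f
      · exact nonneg_mul (nonneg_aeval hE q) hfE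
      · rw [not_le] at hfE
        have hET : E ∈ T := (hTm E).2 ⟨hfE, hE⟩
        have h1 : q = (Polynomial.X - Polynomial.C (res E x)) ^ m *
            ∏ E' ∈ T.erase E, (Polynomial.X - Polynomial.C (res E' x)) ^ m := by
          rw [hq]
          exact (Finset.mul_prod_erase T (fun E' => (Polynomial.X - Polynomial.C (res E' x)) ^ m) hET).symm
        have h2 : Polynomial.aeval x q * f =
            Polynomial.aeval x (∏ E' ∈ T.erase E, (Polynomial.X - Polynomial.C (res E' x)) ^ m) *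
              ((x - algebraMap ℂ K (res E x)) ^ m * f) := by
          rw [h1, map_mul, map_pow, map_sub, Polynomial.aeval_X, Polynomial.aeval_C]
          ring
        rw [h2]
        refine nonneg_mul (nonneg_aeval hE _) ?_
        have hf0 : f ≠ 0 := by
          rintro rfl
          rw [E.ord.map_zero] at hfE
          exact absurd hfE not_top_lt
        have hx0 : x - algebraMap ℂ K (res E x) ≠ 0 := by
          intro h
          refine hL.tr ⟨Polynomial.X - Polynomial.C (res E x), Polynomial.X_sub_C_ne_zero _, ?_⟩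
          rw [map_sub, Polynomial.aeval_X, Polynomial.aeval_C]
          exact h
        have h3 : 1 ≤ oz E (x - algebraMap ℂ K (res E x)) := by
          rcases pos_iff.1 (res_spec hK hE) with h4 | h4
          · exact absurd h4 hx0
          · omega
        refine nonneg_iff.2 (Or.inr ?_)
        rw [oz_mul E (pow_ne_zero _ hx0) hf0, oz_pow]
        have h5 := hmE E hET
        nlinarith
    have hmem := (hw _).1 hreg i
    have hqL : Polynomial.aeval x q ∈ L := poly_le_L hL (mem_poly_iff.2 ⟨q, rfl⟩)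
    have h6 : Polynomial.aeval x q * f = (⟨Polynomial.aeval x q, hqL⟩ : L) • f := rfl
    rw [h6, map_smul, Finsupp.smul_apply, smul_eq_mul] at hmem
    obtain ⟨p, hp⟩ := mem_poly_iff.1 hmem
    have h7 : (((⟨Polynomial.aeval x q, hqL⟩ : L) * w.repr f i : L) : K) = Polynomial.aeval x q * ((w.repr f i : L) : K) := rfl
    rw [h7] at hp
    have h8 : ((w.repr f i : L) : K) = Polynomial.aeval x p / Polynomial.aeval x q := by
      rw [eq_div_iff hqx, mul_comm]
      exact hp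
    rw [h8]
    exact regLoc_div hq0
  · intro h E hE
    have h1 : f = ∑ i, ((w.repr f i : L) : K) * w i := by
      conv_lhs => rw [← w.sum_repr f]
      exact Finset.sum_congr rfl fun i _ => rfl
    rw [h1]
    exact nonneg_sum fun i _ => nonneg_mul (h i E hE) (hw.basis_regAff i E hE.le)

theorem LocB.basis_regLoc {w : Module.Basis (Fin n) L K} (hw : LocB x w) (i : Fin n) : RegLoc x (w i) := by
  refine (hw (w i)).2 fun j E _ => ?_
  rcases loc_repr w i j with h | h
  · rw [h]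
    have h1 := E.ord.map_zero
    show 0 ≤ E.ord ((0 : L) : K)
    rw [ZeroMemClass.coe_zero, h1]
    exact le_top
  · rw [h]
    show 0 ≤ E.ord ((1 : L) : K)
    rw [OneMemClass.coe_one, E.ord.map_one]

end Pool.Agent.H13.CV

end
end

section

/-!
# CV Step: one more condition at a place lowers the dimension by at most one

`finrank_le_step`: let `oz E t = 1` (`exists_uni`).  The map `W → ℂ`, `f ↦ res E (f * t ^ (-d))` is linear (`res_add`, `res_smul`: `0 ≤ ord (f * t ^ (-d))` for `f ∈ W`), and its kernel is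
`W ⊓ ordGe E (d + 1)` (`res_eq_zero_iff`).  Rank-nullity: `LinearMap.finrank_range_add_finrank_ker`, and the range has dimension `≤ 1`.
`finrank_le_steps`: induction on `T`, and on `e E` for the new place.
-/

set_option autoImplicit false

open Pool.Agent.H23.Fano (PrimeDivisorOver Form regularForms)

noncomputable section

namespace Pool.Agent.H13.CV

variable {K : Type} [Field K] [Algebra ℂ K]

theorem mem_ordGe {E : Place K} {d : ℤ} {f : K} : f ∈ ordGe E d ↔ (d : WithTop ℤ) ≤ E.ord f := Iff.rfl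

theorem mem_LD {D : Place K → ℤ} {f : K} : f ∈ LD D ↔ ∀ E, ((-D E : ℤ) : WithTop ℤ) ≤ E.ord f := by
  rw [LD, Submodule.mem_iInf]
  exact Iff.rfl

theorem ordGe_anti (E : Place K) {d d' : ℤ} (h : d ≤ d') : ordGe E d' ≤ ordGe E d := by
  intro f hf
  rw [mem_ordGe] at hf ⊢
  exact le_trans (WithTop.coe_le_coe.mpr h) hf

/-- the twisted function is regular -/
private theorem Step_nonneg {E : Place K} {u f : K} {d : ℤ} (hu : u ≠ 0) (hou : oz E u = -d) (hf : f ∈ ordGe E d) :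
    0 ≤ E.ord (f * u) := by
  rw [nonneg_iff]
  rw [mem_ordGe, le_ord_iff] at hf
  by_cases h0 : f = 0
  · left
    rw [h0, zero_mul]
  · right
    rw [oz_mul E h0 hu, hou]
    rcases hf with h | h
    · exact absurd h h0
    · omega

/-- the twisted function vanishes at the place iff the order is one larger -/
private theorem Step_pos {E : Place K} {u f : K} {d : ℤ} (hu : u ≠ 0) (hou : oz E u = -d) (h : 0 < E.ord (f * u)) :
    f ∈ ordGe E (d + 1) := by
  rw [mem_ordGe, le_ord_iff]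
  by_cases h0 : f = 0
  · left
    exact h0
  · right
    rw [pos_iff, oz_mul E h0 hu, hou] at h
    rcases h with h | h
    · exact absurd h (mul_ne_zero h0 hu)
    · omega

/-- the linear map: the leading coefficient -/
private def Step_map (hK : CurveField K) (W : Submodule ℂ K) (E : Place K) (d : ℤ) (hW : W ≤ ordGe E d) (u : K)
    (hu : u ≠ 0) (hou : oz E u = -d) : W →ₗ[ℂ] ℂ where
  toFun f := res E ((f : K) * u)
  map_add' f g := by
    show res E (((f + g : W) : K) * u) = _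
    rw [Submodule.coe_add, add_mul]
    exact res_add hK (Step_nonneg hu hou (hW f.2)) (Step_nonneg hu hou (hW g.2))
  map_smul' c f := by
    show res E (((c • f : W) : K) * u) = _
    rw [Submodule.coe_smul, smul_mul_assoc]
    exact res_smul hK c (Step_nonneg hu hou (hW f.2))

theorem finrank_le_step (hK : CurveField K) (W : Submodule ℂ K) [FiniteDimensional ℂ W] (E : Place K) (d : ℤ) (hW : W ≤ ordGe E d) :
    Module.finrank ℂ W ≤ Module.finrank ℂ (W ⊓ ordGe E (d + 1) : Submodule ℂ K) + 1 := by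
  obtain ⟨t, ht, hot⟩ := exists_uni E
  have hu : t ^ (-d) ≠ 0 := zpow_ne_zero _ ht
  have hou : oz E (t ^ (-d)) = -d := by
    rw [oz_zpow, hot, mul_one]
  have hrk := LinearMap.finrank_range_add_finrank_ker (Step_map hK W E d hW (t ^ (-d)) hu hou)
  have hr : Module.finrank ℂ (LinearMap.range (Step_map hK W E d hW (t ^ (-d)) hu hou)) ≤ 1 := by
    have h := Submodule.finrank_le (LinearMap.range (Step_map hK W E d hW (t ^ (-d)) hu hou))
    rwa [Module.finrank_self] at h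
  have hk : Module.finrank ℂ (LinearMap.ker (Step_map hK W E d hW (t ^ (-d)) hu hou)) ≤
      Module.finrank ℂ (W ⊓ ordGe E (d + 1) : Submodule ℂ K) := by
    rw [← Submodule.finrank_map_subtype_eq W (LinearMap.ker (Step_map hK W E d hW (t ^ (-d)) hu hou))]
    refine Submodule.finrank_mono ?_
    rintro f hf
    obtain ⟨g, hg, rfl⟩ := Submodule.mem_map.mp hf
    refine Submodule.mem_inf.mpr ⟨g.2, ?_⟩
    have h1 : res E ((g : K) * t ^ (-d)) = 0 := hg
    have h2 := (res_eq_zero_iff hK (Step_nonneg hu hou (hW g.2))).mp h1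
    exact Step_pos hu hou h2
  omega

private theorem Step_iter (hK : CurveField K) (W : Submodule ℂ K) [FiniteDimensional ℂ W] (E : Place K) (d : ℤ)
    (hW : W ≤ ordGe E d) (k : ℕ) :
    Module.finrank ℂ W ≤ Module.finrank ℂ (W ⊓ ordGe E (d + k) : Submodule ℂ K) + k := by
  induction k with
  | zero =>
    have h : W ⊓ ordGe E (d + (0 : ℕ)) = W := by
      rw [Nat.cast_zero, add_zero]
      exact inf_eq_left.mpr hW
    rw [h, add_zero]
  | succ k ih =>
    have h1 := finrank_le_step hK (W ⊓ ordGe E (d + k)) E (d + k) inf_le_right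
    have h2 : (W ⊓ ordGe E (d + k)) ⊓ ordGe E (d + k + 1) = W ⊓ ordGe E (d + ((k + 1 : ℕ) : ℤ)) := by
      have h3 : d + (k : ℤ) + 1 = d + ((k + 1 : ℕ) : ℤ) := by
        push_cast
        ring
      rw [inf_assoc, inf_eq_right.mpr (ordGe_anti E (by omega : d + (k : ℤ) ≤ d + (k : ℤ) + 1)), h3]
    rw [h2] at h1
    omega

theorem finrank_le_steps (hK : CurveField K) (W : Submodule ℂ K) [FiniteDimensional ℂ W] (T : Finset (Place K)) (d : Place K → ℤ) (e : Place K → ℕ)
    (hW : ∀ E ∈ T, W ≤ ordGe E (d E)) :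
    Module.finrank ℂ W ≤ Module.finrank ℂ (W ⊓ ⨅ E ∈ T, ordGe E (d E + e E) : Submodule ℂ K) + ∑ E ∈ T, e E := by
  classical
  induction T using Finset.induction_on with
  | empty =>
    have h : W ⊓ ⨅ E ∈ (∅ : Finset (Place K)), ordGe E (d E + e E) = W :=
      inf_eq_left.mpr (le_iInf fun E => le_iInf fun hE => absurd hE (Finset.notMem_empty E))
    rw [h]
    exact Nat.le_add_right _ _
  | insert E T hE ih =>
    have ih' := ih fun E' hE' => hW E' (Finset.mem_insert_of_mem hE')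
    have hle : W ⊓ ⨅ E' ∈ T, ordGe E' (d E' + e E') ≤ ordGe E (d E) :=
      le_trans inf_le_left (hW E (Finset.mem_insert_self E T))
    have h1 := Step_iter hK (W ⊓ ⨅ E' ∈ T, ordGe E' (d E' + e E')) E (d E) hle (e E)
    have h2 : (W ⊓ ⨅ E' ∈ T, ordGe E' (d E' + e E')) ⊓ ordGe E (d E + e E) =
        W ⊓ ⨅ E' ∈ insert E T, ordGe E' (d E' + e E') := by
      rw [Finset.iInf_insert, inf_assoc, inf_comm (ordGe E (d E + e E))]
    rw [h2] at h1
    rw [Finset.sum_insert hE]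
    omega

end Pool.Agent.H13.CV

end
end

section

/-!
# BPm TECompact: uniform estimates for the changes of charts at the boundary of a chart

`χ i` (`i : Fin n`) are charts of types `nd i`; every point of `T` lies in the inner part
(`‖q‖ < 1/2`) of some chart. Fix `i` and an orientation `b` (`b = true` only if `nd i = true`), let
`χ₁ = (χ i).orient b`, of type `nd i` (`hasType_orient`). For every `t₀` with `‖t₀‖ = 1` the point
`χ₁.σ (0, t₀)` is in `T`, so there is `k` with `χ₁.σ (0,t₀) ∈ (χ k).U`,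
`‖(χ k).q (χ₁.σ (0,t₀))‖ < 1/2`. If `nd k = false` let `b' = false`: the first coordinate of
`(χ k).q (χ₁.σ (0,t))` vanishes for `t` near `t₀` (type `false`, `T` is a cone and
`χ₁.σ (0,t) = c • (χ k).σ (..)`). If `nd k = true`: by `not_node` (for `χ₁` and `χ k`) the point
`q' = (χ k).q (χ₁.σ (0,t₀))` is not `0`, and one of its coordinates is `0`: choose `b'` such that the
first coordinate of `ori b' q'` is `0`, the second is not; by continuity the first coordinate of
`ori b' ((χ k).q (χ₁.σ (0,t)))` vanishes for `t` near `t₀` (the product does, the second does not).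
`TE_local` (with `jac_ne_zero` for `χ₁` and `χ₂ = (χ k).orient b'`, note `χ₂.q = ori b' ∘ (χ k).q`)
gives a constant `C` and a neighbourhood of `(0,t₀)` on which `TEmap C τ` holds, `τ = χ₂.q ∘ χ₁.σ`;
shrink it so that also `χ₁.σ y ∈ (χ k).U`, `‖τ y‖ < 1/2` and (if `nd k = true`)
`‖(τ y).2‖ ≥ C⁻¹`, after enlarging `C` (`TE.mono`). The circle `{(0,t₀) | ‖t₀‖ = 1}` is compact:
finitely many neighbourhoods cover it, hence also all `(s,t)` with `‖t‖ = 1`, `‖s‖ ≤ r` for some
`r > 0` (compactness; e.g. `IsCompact.exists_thickening_subset_open` or the generalized tube lemma).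
Take the maximum of the constants over the finitely many neighbourhoods, over `i` and `b`, and the
minimum of the `r`.
-/

open Topology Filter Metric

namespace Pool.Agent.H14.PP

open Pool.Agent.H36.BP

variable {N : ℕ} {X K T : Set (EN N)}

/-- The change from the chart `χ` to the chart `χ'` (of type `nd'`) is `C`-controlled at the
point `p`. -/
def Transition (C : ℝ) (χ χ' : Chart X) (nd' : Bool) (p : ℂ × ℂ) : Prop :=
  χ.σ p ∈ χ'.U ∧ ‖χ'.q (χ.σ p)‖ < 1 / 2 ∧ TEmap C (fun y => χ'.q (χ.σ y)) p ∧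
    (nd' = true → C⁻¹ ≤ ‖(χ'.q (χ.σ p)).2‖)

private theorem Transition.mono {C C' : ℝ} (hC : 1 ≤ C) (hCC : C ≤ C') {χ χ' : Chart X}
    {nd' : Bool} {p : ℂ × ℂ} (h : Transition C χ χ' nd' p) : Transition C' χ χ' nd' p :=
  ⟨h.1, h.2.1, TE.mono hC hCC h.2.2.1, fun hn =>
    (inv_anti₀ (by linarith) hCC).trans (h.2.2.2 hn)⟩

private theorem TECompact_aux (hX : IsCone X) (χ₁ χ₂ : Chart X) {t₀ : ℂ} (ht₀ : ‖t₀‖ = 1)
    (hU : χ₁.σ (0, t₀) ∈ χ₂.U) (hq : ‖χ₂.q (χ₁.σ (0, t₀))‖ < 1 / 2)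
    (h0 : ∀ᶠ t in 𝓝 t₀, (χ₂.q (χ₁.σ (0, t))).1 = 0) (nd₂ : Bool)
    (hnd : nd₂ = true → (χ₂.q (χ₁.σ (0, t₀))).2 ≠ 0) :
    ∃ C : ℝ, 1 ≤ C ∧ ∀ᶠ p in 𝓝 ((0 : ℂ), t₀), Transition C χ₁ χ₂ nd₂ p := by
  have hp : ((0 : ℂ), t₀) ∈ ball (0 : ℂ × ℂ) 2 := by
    rw [mem_ball_zero_iff, Prod.norm_def]
    simp only [norm_zero, ht₀]
    norm_num
  have hσ : AnalyticAt ℂ χ₁.σ (0, t₀) := χ₁.σ_an _ hp
  have hτ : AnalyticAt ℂ (fun y => χ₂.q (χ₁.σ y)) (0, t₀) := (χ₂.q_an _ hU).comp hσ
  have hJ := jac_ne_zero hX χ₁ χ₂ hp hU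
  obtain ⟨C₁, hC₁, hTE⟩ := TE_local hτ hJ h0
  set a : ℝ := ‖(χ₂.q (χ₁.σ (0, t₀))).2‖ with ha
  set C : ℝ := max C₁ (2 / a) with hC
  have hC1 : C₁ ≤ C := le_max_left _ _
  have hC2 : 2 / a ≤ C := le_max_right _ _
  have hτc : ContinuousAt (fun y => χ₂.q (χ₁.σ y)) (0, t₀) := hτ.continuousAt
  have e1 : ∀ᶠ p in 𝓝 ((0 : ℂ), t₀), χ₁.σ p ∈ χ₂.U :=
    hσ.continuousAt.eventually (χ₂.isOpen_U.mem_nhds hU)
  have e2 : ∀ᶠ p in 𝓝 ((0 : ℂ), t₀), ‖χ₂.q (χ₁.σ p)‖ < 1 / 2 :=
    hτc.norm.eventually (Iio_mem_nhds hq)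
  have e3 : ∀ᶠ p in 𝓝 ((0 : ℂ), t₀), nd₂ = true → C⁻¹ ≤ ‖(χ₂.q (χ₁.σ p)).2‖ := by
    by_cases hn : nd₂ = true
    · have ha0 : 0 < a := norm_pos_iff.2 (hnd hn)
      have hc2 : ContinuousAt (fun y => ‖(χ₂.q (χ₁.σ y)).2‖) (0, t₀) := hτc.snd.norm
      have h1 : ∀ᶠ p in 𝓝 ((0 : ℂ), t₀), a / 2 < ‖(χ₂.q (χ₁.σ p)).2‖ :=
        hc2.eventually (Ioi_mem_nhds (show a / 2 < ‖(χ₂.q (χ₁.σ (0, t₀))).2‖ by rw [← ha]; linarith))
      filter_upwards [h1] with p hp _
      have h2 : C⁻¹ ≤ (2 / a)⁻¹ := inv_anti₀ (by positivity) hC2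
      rw [inv_div] at h2
      exact h2.trans hp.le
    · exact Filter.Eventually.of_forall fun p h => absurd h hn
  refine ⟨C, hC₁.trans hC1, ?_⟩
  filter_upwards [e1, e2, e3, hTE] with p h1 h2 h3 h4
  exact ⟨h1, h2, TE.mono hC₁ hC1 h4, h3⟩

private theorem TECompact_local (hX : IsCone X) (hT : ∀ x ∈ T, ∀ c : ℂ, c ≠ 0 → c • x ∈ T)
    (χ₁ χ₂ : Chart X) {nd₁ nd₂ : Bool} (h₁ : HasType T χ₁ nd₁) (h₂ : HasType T χ₂ nd₂) {t₀ : ℂ}
    (ht₀ : ‖t₀‖ = 1) (hU : χ₁.σ (0, t₀) ∈ χ₂.U) (hq : ‖χ₂.q (χ₁.σ (0, t₀))‖ < 1 / 2) :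
    ∃ b' : Bool, (b' = true → nd₂ = true) ∧ ∃ C : ℝ, 1 ≤ C ∧
      ∀ᶠ p in 𝓝 ((0 : ℂ), t₀), Transition C χ₁ (χ₂.orient b') nd₂ p := by
  have hp : ((0 : ℂ), t₀) ∈ ball (0 : ℂ × ℂ) 2 := by
    rw [mem_ball_zero_iff, Prod.norm_def]
    simp only [norm_zero, ht₀]
    norm_num
  have hσ : AnalyticAt ℂ χ₁.σ (0, t₀) := χ₁.σ_an _ hp
  have hτ : AnalyticAt ℂ (fun y => χ₂.q (χ₁.σ y)) (0, t₀) := (χ₂.q_an _ hU).comp hσ
  have hτc : ContinuousAt (fun y => χ₂.q (χ₁.σ y)) (0, t₀) := hτ.continuousAt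
  have hpt : Tendsto (fun t : ℂ => ((0 : ℂ), t)) (𝓝 t₀) (𝓝 ((0 : ℂ), t₀)) := by
    have hc : Continuous fun t : ℂ => ((0 : ℂ), t) := by fun_prop
    exact hc.tendsto t₀
  have eB : ∀ᶠ t in 𝓝 t₀, ((0 : ℂ), t) ∈ ball (0 : ℂ × ℂ) 2 :=
    hpt.eventually (isOpen_ball.mem_nhds hp)
  have eU : ∀ᶠ t in 𝓝 t₀, χ₁.σ ((0 : ℂ), t) ∈ χ₂.U :=
    hpt.eventually (hσ.continuousAt.eventually (χ₂.isOpen_U.mem_nhds hU))
  have hkey : ∀ᶠ t in 𝓝 t₀, (χ₂.q (χ₁.σ (0, t))).1 = 0 ∨
      (nd₂ = true ∧ (χ₂.q (χ₁.σ (0, t))).2 = 0) := by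
    filter_upwards [eB, eU] with t ht1 ht2
    have hxX := (χ₁.σ_mem _ ht1).1
    have hxT : χ₁.σ (0, t) ∈ T := (h₁ _ ht1).2 (Or.inl rfl)
    have h3 := (χ₂.sigma_mem_iff hxX ht2 hT).2 hxT
    exact (h₂ _ (χ₂.surj _ hxX ht2).1).1 h3
  have eF : χ₂.orient false = χ₂ := by simp [Chart.orient]
  have eT : χ₂.orient true = χ₂.swap := by simp [Chart.orient]
  have ht0 : t₀ ≠ 0 := by
    rintro rfl
    norm_num at ht₀
  by_cases hn : nd₂ = true
  · by_cases h2 : (χ₂.q (χ₁.σ (0, t₀))).2 = 0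
    · have h1 : (χ₂.q (χ₁.σ (0, t₀))).1 ≠ 0 := by
        intro h1
        have hnn := not_node hX hT χ₁ χ₂ h₁ (hn ▸ h₂) (t₀ := t₀) (by rw [ht₀]; norm_num)
          (fun _ => ht0) hU
        exact hnn (Prod.ext h1 h2)
      refine ⟨true, fun _ => hn, ?_⟩
      rw [eT]
      have hne : ∀ᶠ t in 𝓝 t₀, (χ₂.q (χ₁.σ (0, t))).1 ≠ 0 :=
        hpt.eventually (hτc.fst.eventually_ne h1)
      refine TECompact_aux hX χ₁ χ₂.swap ht₀ hU ?_ ?_ nd₂ (fun _ => h1)
      · have hsw : ‖(χ₂.q (χ₁.σ (0, t₀))).swap‖ = ‖χ₂.q (χ₁.σ (0, t₀))‖ := by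
          rw [Prod.norm_def, Prod.norm_def, max_comm]
          rfl
        show ‖(χ₂.q (χ₁.σ (0, t₀))).swap‖ < 1 / 2
        rw [hsw]
        exact hq
      · filter_upwards [hkey, hne] with t ht1 ht2
        rcases ht1 with ht1 | ht1
        · exact absurd ht1 ht2
        · exact ht1.2
    · refine ⟨false, fun h => absurd h (by decide), ?_⟩
      rw [eF]
      have hne : ∀ᶠ t in 𝓝 t₀, (χ₂.q (χ₁.σ (0, t))).2 ≠ 0 :=
        hpt.eventually (hτc.snd.eventually_ne h2)
      refine TECompact_aux hX χ₁ χ₂ ht₀ hU hq ?_ nd₂ (fun _ => h2)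
      filter_upwards [hkey, hne] with t ht1 ht2
      rcases ht1 with ht1 | ht1
      · exact ht1
      · exact absurd ht1.2 ht2
  · refine ⟨false, fun h => absurd h (by decide), ?_⟩
    rw [eF]
    refine TECompact_aux hX χ₁ χ₂ ht₀ hU hq ?_ nd₂ (fun h => absurd h hn)
    filter_upwards [hkey] with t ht1
    rcases ht1 with ht1 | ht1
    · exact ht1
    · exact absurd ht1.1 hn

private theorem TECompact_one (hX : IsCone X) (hT : ∀ x ∈ T, ∀ c : ℂ, c ≠ 0 → c • x ∈ T) {n : ℕ}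
    (χ : Fin n → Chart X) (nd : Fin n → Bool) (h : ∀ i, HasType T (χ i) (nd i))
    (hcov : ∀ x ∈ T, ∃ i, x ∈ (χ i).U ∧ ‖(χ i).q x‖ < 1 / 2) (i : Fin n) (b : Bool)
    (hb : b = true → nd i = true) :
    ∃ C r : ℝ, 1 ≤ C ∧ 0 < r ∧ ∀ p : ℂ × ℂ, ‖p.2‖ = 1 → ‖p.1‖ ≤ r →
        ∃ (k : Fin n) (b' : Bool), (b' = true → nd k = true) ∧
          Transition C ((χ i).orient b) ((χ k).orient b') (nd k) p := by
  have h₁ := hasType_orient (h i) hb
  set G : ℝ → ℂ × ℂ → Prop := fun C p => ∃ (k : Fin n) (b' : Bool), (b' = true → nd k = true) ∧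
    Transition C ((χ i).orient b) ((χ k).orient b') (nd k) p with hG
  have hmonoG : ∀ C C' : ℝ, 1 ≤ C → C ≤ C' → ∀ p, G C p → G C' p := by
    rintro C C' hC hCC p ⟨k, b', hb', hk⟩
    exact ⟨k, b', hb', hk.mono hC hCC⟩
  set S : Set (ℂ × ℂ) := ({0} : Set ℂ) ×ˢ sphere (0 : ℂ) 1 with hS
  have hSc : IsCompact S := isCompact_singleton.prod (isCompact_sphere _ _)
  have hloc : ∀ x ∈ S, ∃ C : ℝ, 1 ≤ C ∧ ∀ᶠ p in 𝓝 x, G C p := by
    rintro ⟨s, t₀⟩ ⟨hs, ht⟩
    have hs' : s = 0 := hs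
    subst hs'
    have ht₀ : ‖t₀‖ = 1 := by
      have h3 : t₀ ∈ sphere (0 : ℂ) 1 := ht
      rwa [mem_sphere_zero_iff_norm] at h3
    have hp : ((0 : ℂ), t₀) ∈ ball (0 : ℂ × ℂ) 2 := by
      rw [mem_ball_zero_iff, Prod.norm_def]
      simp only [norm_zero, ht₀]
      norm_num
    obtain ⟨k, hk1, hk2⟩ := hcov _ ((h₁ _ hp).2 (Or.inl rfl))
    obtain ⟨b', hb', C, hC, hev⟩ := TECompact_local hX hT _ _ h₁ (h k) ht₀ hk1 hk2
    exact ⟨C, hC, hev.mono fun p hp => ⟨k, b', hb', hp⟩⟩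
  have hmain : ∃ C : ℝ, 1 ≤ C ∧ ∀ᶠ p in 𝓝ˢ S, G C p := by
    refine hSc.induction_on (p := fun s => ∃ C : ℝ, 1 ≤ C ∧ ∀ᶠ p in 𝓝ˢ s, G C p) ?_ ?_ ?_ ?_
    · exact ⟨1, le_rfl, by simp⟩
    · rintro s t hst ⟨C, hC, hev⟩
      exact ⟨C, hC, hev.filter_mono (nhdsSet_mono hst)⟩
    · rintro s t ⟨C, hC, hev⟩ ⟨C', hC', hev'⟩
      refine ⟨max C C', hC.trans (le_max_left _ _), ?_⟩
      rw [nhdsSet_union, eventually_sup]
      exact ⟨hev.mono fun p hp => hmonoG _ _ hC (le_max_left _ _) p hp,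
        hev'.mono fun p hp => hmonoG _ _ hC' (le_max_right _ _) p hp⟩
    · intro x hx
      obtain ⟨C, hC, hev⟩ := hloc x hx
      obtain ⟨O, hO1, hO2, hO3⟩ := _root_.eventually_nhds_iff.1 hev
      refine ⟨O, mem_nhdsWithin_of_mem_nhds (hO2.mem_nhds hO3), C, hC, ?_⟩
      rw [hO2.nhdsSet_eq]
      exact eventually_principal.2 hO1
  obtain ⟨C, hC, hev⟩ := hmain
  obtain ⟨O, hO1, hO2, hO3⟩ := mem_nhdsSet_iff_exists.1 hev
  obtain ⟨δ, hδ, hδO⟩ := hSc.exists_thickening_subset_open hO1 hO2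
  refine ⟨C, δ / 2, hC, by positivity, fun p hp1 hp2 => ?_⟩
  have hpO : p ∈ O := by
    refine hδO ?_
    rw [mem_thickening_iff]
    refine ⟨(0, p.2), ⟨rfl, by rw [mem_sphere_zero_iff_norm]; exact hp1⟩, ?_⟩
    rw [Prod.dist_eq]
    simp only [dist_self, dist_zero_right]
    rw [max_lt_iff]
    exact ⟨by linarith, hδ⟩
  exact hO3 hpO

theorem exists_transition (hX : IsCone X) (hT : ∀ x ∈ T, ∀ c : ℂ, c ≠ 0 → c • x ∈ T) {n : ℕ}
    (χ : Fin n → Chart X) (nd : Fin n → Bool) (h : ∀ i, HasType T (χ i) (nd i))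
    (hcov : ∀ x ∈ T, ∃ i, x ∈ (χ i).U ∧ ‖(χ i).q x‖ < 1 / 2) :
    ∃ C r : ℝ, 1 ≤ C ∧ 0 < r ∧ ∀ (i : Fin n) (b : Bool), (b = true → nd i = true) →
      ∀ p : ℂ × ℂ, ‖p.2‖ = 1 → ‖p.1‖ ≤ r →
        ∃ (k : Fin n) (b' : Bool), (b' = true → nd k = true) ∧
          Transition C ((χ i).orient b) ((χ k).orient b') (nd k) p := by
  have hone : ∀ ib : Fin n × Bool, ∃ C r : ℝ, 1 ≤ C ∧ 0 < r ∧ ((ib.2 = true → nd ib.1 = true) →
      ∀ p : ℂ × ℂ, ‖p.2‖ = 1 → ‖p.1‖ ≤ r →
        ∃ (k : Fin n) (b' : Bool), (b' = true → nd k = true) ∧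
          Transition C ((χ ib.1).orient ib.2) ((χ k).orient b') (nd k) p) := by
    rintro ⟨i, b⟩
    by_cases hb : b = true → nd i = true
    · obtain ⟨C, r, hC, hr, hall⟩ := TECompact_one hX hT χ nd h hcov i b hb
      exact ⟨C, r, hC, hr, fun _ => hall⟩
    · exact ⟨1, 1, le_rfl, one_pos, fun hb' => absurd hb' hb⟩
  choose C r hC hr hall using hone
  obtain ⟨M, hM⟩ := Finite.exists_le C
  obtain ⟨M', hM'⟩ := Finite.exists_le fun ib => (r ib)⁻¹
  refine ⟨max M 1, (max M' 1)⁻¹, le_max_right _ _, by positivity, fun i b hb p hp1 hp2 => ?_⟩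
  have hr' : (max M' 1)⁻¹ ≤ r (i, b) := by
    rw [inv_le_comm₀ (by positivity) (hr _)]
    exact (hM' (i, b)).trans (le_max_left _ _)
  obtain ⟨k, b', hb', hk⟩ := hall (i, b) hb p hp1 (hp2.trans hr')
  exact ⟨k, b', hb', hk.mono (hC _) ((hM (i, b)).trans (le_max_left _ _))⟩

end Pool.Agent.H14.PP

end

section

/-!
# BU Off: charts of the blow-up off the exceptional curve

`σ1 p = phi l (σ p)`, `τ1 y = τ (a⁻¹ • y b)`, `a = l b (σ 0) ≠ 0`.  Use `isChart_of_dense`.
* `σ1 p ∈ dense` for `p` near `0` (`l b (σ p) ≠ 0`).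
* `left`: `σ1 p b = l b (σ p) • σ p`, `a⁻¹ l b (σ p)` is near `1`: `inv`, `left`.
* `right`: `y = c • phi l x`, near `σ1 0`: `y b = (c l b x) • x` is near `a • σ 0`, so `x' = a⁻¹ • y b` is near `σ 0` and in `X`; `h.right`: `x' = c' • σ (τ x')`, and `x` is a multiple
  `c'' • σ (τ x')`, so `phi l x = c''^2 • phi l (σ (τ x'))` (`phi_smul`).
* `inv`: from `h.inv` (the map `(y, c) ↦ (a⁻¹ • y b, c)` is continuous).
-/

set_option autoImplicit false

namespace Pool.Agent.H62.BU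

open Filter Topology

variable {V : Type*} [NormedAddCommGroup V] [NormedSpace ℂ V] {ι : Type*} [Fintype ι]
variable {l : ι → V →L[ℂ] ℂ} {X : Set V} {σ : ℂ × ℂ → V} {τ : V → ℂ × ℂ}

theorem chart_off (hX : Surface X) (h : IsChart X σ τ) {b : ι} (hb : l b (σ 0) ≠ 0) :
    IsChart (blow l X) (fun p => phi l (σ p)) (fun y => τ ((l b (σ 0))⁻¹ • y b)) := by
  set a : ℂ := l b (σ 0) with ha
  set g : (ι → V) →L[ℂ] V := a⁻¹ • ContinuousLinearMap.proj b with hg
  have hgy : ∀ y : ι → V, a⁻¹ • y b = g y := fun y => rfl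
  have hg0 : g (phi l (σ 0)) = σ 0 := by
    show a⁻¹ • (l b (σ 0) • σ 0) = σ 0
    rw [← ha, smul_smul, inv_mul_cancel₀ hb, one_smul]
  have hσc : ContinuousAt σ 0 := h.σ_an.continuousAt
  have hlc : ContinuousAt (fun p => l b (σ p)) 0 := (l b).continuous.continuousAt.comp hσc
  have hne : ∀ᶠ p in 𝓝 (0 : ℂ × ℂ), l b (σ p) ≠ 0 := hlc.eventually_ne hb
  have hgc : Tendsto g (𝓝 (phi l (σ 0))) (𝓝 (σ 0)) := by
    have := g.continuous.tendsto (phi l (σ 0))
    rwa [hg0] at this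
  refine isChart_of_dense ?_ ?_ ?_ ?_ ?_ ?_
  · refine AnalyticAt.pi fun b' => ?_
    exact (((l b').analyticAt _).comp h.σ_an).smul h.σ_an
  · filter_upwards [h.σ_mem, hne] with p hp1 hp2
    exact dense_sub (phi_mem_dense hp1 ⟨b, hp2⟩)
  · have h1 := h.τ_an
    rw [← hg0] at h1
    exact h1.comp (g.analyticAt _)
  · have h1 : Tendsto (fun p => (σ p, a⁻¹ * l b (σ p))) (𝓝 (0 : ℂ × ℂ)) (𝓝 (σ 0, (1 : ℂ))) := by
      refine hσc.tendsto.prodMk_nhds ?_
      have h2 := (hlc.tendsto.const_mul a⁻¹)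
      rwa [← ha, inv_mul_cancel₀ hb] at h2
    filter_upwards [h1.eventually h.inv, h.left] with p hp1 hp2
    show τ (a⁻¹ • (l b (σ p) • σ p)) = p
    rw [smul_smul]
    exact hp1.trans hp2
  · have h0 : ∀ᶠ y in 𝓝 (phi l (σ 0)), g y ≠ 0 := (hgc.eventually_ne h.ne)
    filter_upwards [hgc.eventually h.right, h0] with y hy hy0 hyd
    obtain ⟨x, hx, -, c, hc, rfl⟩ := hyd
    have h1 : g (c • phi l x) = (a⁻¹ * (c * l b x)) • x := by
      show a⁻¹ • (c • (l b x • x)) = _
      rw [smul_smul, smul_smul, mul_assoc]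
    rw [h1] at hy hy0
    have h2 : a⁻¹ * (c * l b x) ≠ 0 := fun h3 => hy0 (by rw [h3, zero_smul])
    obtain ⟨c', hc', h4⟩ := hy (hX.smul x hx _ h2)
    show ∃ c'' : ℂ, c • phi l x = c'' • phi l (σ (τ (g (c • phi l x))))
    rw [h1]
    have h5 : x = ((a⁻¹ * (c * l b x))⁻¹ * c') • σ (τ ((a⁻¹ * (c * l b x)) • x)) := by
      rw [mul_smul, ← h4, smul_smul, inv_mul_cancel₀ h2, one_smul]
    refine ⟨c * ((a⁻¹ * (c * l b x))⁻¹ * c') ^ 2, ?_⟩
    rw [mul_smul, ← phi_smul, ← h5]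
  · have h1 : Tendsto (fun p : (ι → V) × ℂ => (g p.1, p.2)) (𝓝 (phi l (σ 0), (1 : ℂ))) (𝓝 (σ 0, (1 : ℂ))) := by
      have h2 : Continuous fun p : (ι → V) × ℂ => (g p.1, p.2) :=
        (g.continuous.comp continuous_fst).prodMk continuous_snd
      have h3 := h2.tendsto (phi l (σ 0), (1 : ℂ))
      simp only [hg0] at h3
      exact h3
    filter_upwards [h1.eventually h.inv] with p hp
    have h2 : g (p.2 • p.1) = p.2 • g p.1 := g.map_smul _ _
    show τ (g (p.2 • p.1)) = τ (g p.1)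
    rw [h2]
    exact hp

end Pool.Agent.H62.BU

end
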