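import Pool.Agent.H94.G6.H17EF.Bridge
import Pool.Agent.H94.G6.M08
import Pool.Agent.H94.G6.M23
import Pool.Agent.H94.G6.M31

/-! The parts of this file: MQ.VDefs_1, MQ.GeoDefs, MQ.Frame_1, MQ3.DivR. -/

section

/-!
# MQ VDefs: one variable

`tau R` (in `H30M`) is the test function, `avg R u` the mean over the annulus `R < |z| < e R` (times `2 π`), `gr` the gradient.
-/

set_option autoImplicit false

open MeasureTheory Topology Filter Metric Laplacian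

noncomputable section

namespace Pool.Agent.MQ

open Pool.Agent.H30M (tau rhoR avg rho)
open Pool.Agent.H36.BP (EN fs)

variable {N M : ℕ}

/-- the energy -/
def En (F : ℂ → EN M) (R : ℝ) : ℝ := ∫ z, tau R z * lam F z ^ 2

/-- the length -/
def Len (F : ℂ → EN M) (R : ℝ) : ℝ := ∫ z, ‖gr (tau R) z‖ * lam F z

end Pool.Agent.MQ

end
end

section

/-!
# MQ GeoDefs: boxes, coordinates along curves, the chart changes

`GBox`: a chart on a closed polydisc with the vector field of the foliation.  `U s`: the cone over the polydisc of radius `s` (the norm of `ℂ × ℂ` is the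
sup norm, so `ball 0 s` is a polydisc).  `crd x`: the coordinates of `x`.  `om p w = v ∧ w`.
`Crv`: the lifts of the curves of the theorem.
-/

set_option autoImplicit false

open Topology Filter Metric MvPolynomial Asymptotics MeasureTheory Laplacian

noncomputable section

namespace Pool.Agent.MQ

open Pool.Agent.H36.BP (EN fs)
open Pool.Agent.H17BP (IsChart IsForm)
open Pool.Agent.H17EF (coneE)
open Pool.Agent.H30M (tau avg LogSing)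

variable {M : ℕ} {P : Ideal (MvPolynomial (Fin (M + 1)) ℂ)} {FF : Set (EN M × EN M)}

/-! ## boxes -/

/-- a chart on a closed polydisc with the vector field `v` of the foliation -/
structure GBox (P : Ideal (MvPolynomial (Fin (M + 1)) ℂ)) (FF : Set (EN M × EN M)) where
  σ : ℂ × ℂ → EN M
  v : ℂ × ℂ → ℂ × ℂ
  r : ℝ
  pos : 0 < r
  σ_an : AnalyticOnNhd ℂ σ (closedBall 0 r)
  v_an : AnalyticOnNhd ℂ v (closedBall 0 r)
  mem : ∀ p ∈ closedBall (0 : ℂ × ℂ) r, σ p ∈ coneE P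
  inj : ∀ p ∈ closedBall (0 : ℂ × ℂ) r, ∀ q ∈ closedBall (0 : ℂ × ℂ) r, ∀ c : ℂ, σ p = c • σ q → p = q
  imm : ∀ p ∈ closedBall (0 : ℂ × ℂ) r, LinearIndependent ℂ ![σ p, fderiv ℂ σ p (1, 0), fderiv ℂ σ p (0, 1)]
  spans : ∀ p ∈ closedBall (0 : ℂ × ℂ) r, ∀ (w : ℂ × ℂ) (a c : ℂ), c ≠ 0 →
    ((c • σ p, c • fderiv ℂ σ p w + a • σ p) ∈ FF ↔ (v p).1 * w.2 = (v p).2 * w.1)
  /-- the points of the surface near `σ p` are near the same polydisc, with an analytic coordinate map -/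
  opn : ∀ p ∈ ball (0 : ℂ × ℂ) r, ∃ (T : EN M → ℂ × ℂ) (c : EN M → ℂ), AnalyticAt ℂ T (σ p) ∧ AnalyticAt ℂ c (σ p) ∧ T (σ p) = p ∧ c (σ p) = 1 ∧
    ∀ᶠ y in 𝓝 (σ p), y ∈ coneE P → y = c y • σ (T y)
  /-- the surface is a cone -/
  cone : ∀ x ∈ coneE P, ∀ c : ℂ, c ≠ 0 → c • x ∈ coneE P
  zero : ∀ p ∈ closedBall (0 : ℂ × ℂ) r, v p = 0 → p = 0

/-- the 1-form of the foliation -/
def GBox.om (B : GBox P FF) (p w : ℂ × ℂ) : ℂ := (B.v p).1 * w.2 - (B.v p).2 * w.1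

/-- the divergence of `v` -/
def dvg (v : ℂ × ℂ → ℂ × ℂ) (p : ℂ × ℂ) : ℂ := (fderiv ℂ v p (1, 0)).1 + (fderiv ℂ v p (0, 1)).2

/-- `Φ` is the change of coordinates from the box `A` to the box `B` near `p`, and `om_B = t om_A` -/
structure Chg (A B : GBox P FF) (p : ℂ × ℂ) (Φ : ℂ × ℂ → ℂ × ℂ) (t : ℂ × ℂ → ℂ) : Prop where
  an : AnalyticAt ℂ Φ p
  mem : Φ p ∈ ball (0 : ℂ × ℂ) B.r
  eq : ∀ᶠ w in 𝓝 p, ∃ c : ℂ, c ≠ 0 ∧ A.σ w = c • B.σ (Φ w)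
  t_an : AnalyticAt ℂ t p
  t_ne : t p ≠ 0
  om : ∀ᶠ w in 𝓝 p, ∀ u : ℂ × ℂ, B.om (Φ w) (fderiv ℂ Φ w u) = t w * A.om w u

/-! ## the atlas -/


/-! ## curves -/

/-- a lift of an entire curve of order two which is tangent to the foliation and not constant -/
structure Crv (P : Ideal (MvPolynomial (Fin (M + 1)) ℂ)) (FF : Set (EN M × EN M)) (F : ℂ → EN M) : Prop where
  diff : Differentiable ℂ F
  mem : ∀ z, F z ∈ coneE P
  tan : ∀ z, (F z, deriv F z) ∈ FF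
  ord : ∃ A : ℝ, ∀ r : ℝ, 0 < r → Real.circleAverage (fun z => Real.log ‖F z‖) 0 r ≤ A * (1 + r ^ 2)
  nc : ∃ z w, ∀ c : ℂ, F z ≠ c • F w

/-- **The interface of the analysis.**  `l` is a density; `l = lam F` in the first stage. -/
def Pack (F : ℂ → EN M) (l : ℂ → ℝ) (ε₀ δ : ℝ) : Prop :=
  ∃ (C : ℝ) (E : ℂ → ℝ) (η : ℂ → ℂ) (err : ℂ → ℝ), 0 ≤ C ∧ (∀ z, ∃ c, 0 ≤ c ∧ LogSing E c z) ∧ ContDiff ℝ 1 η ∧ (∀ z, ‖η z‖ ≤ C * l z) ∧
    Continuous err ∧ (∀ z, ContDiffAt ℝ 2 E z → ε₀ * lam F z ^ 2 ≤ Δ E z + dv η z + err z) ∧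
    (∀ R, 1 ≤ R → ∫ z, tau R z * err z ≤ δ * En F R + C * (∫ z, ‖gr (tau R) z‖ * l z) + C) ∧
    ∀ R, 1 ≤ R → avg R E ≤ δ * En F R + C * Real.log (1 + En F R) + C

end Pool.Agent.MQ

end
end

section

/-!
# MQ Frame: the curve in a box, in one variable

`Crv1 v r Om g`: holomorphic coordinates `g` of a curve on the open set `Om`, with values in the polydisc of radius `r`, tangent to the vector field `v`.
`ztv` is `ζ'`, `DDv` is `DD`, `LocalN1` is `LocalN`.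
-/

set_option autoImplicit false

open Topology Filter Metric MeasureTheory

noncomputable section

namespace Pool.Agent.MQ

open Pool.Agent.H36.BP (EN fs)
open Pool.Agent.H30M (tau)

/-- the logarithmic derivative of the flat section, divided by the equation `l` of the invariant curve -/
def DDv (v : ℂ × ℂ → ℂ × ℂ) (l : ℂ × ℂ → ℂ) (g : ℂ → ℂ × ℂ) (z : ℂ) : ℂ :=
  dvg v (g z) * ztv v g z - deriv (fun w => l (g w)) z / l (g z)

/-- `LocalN` in one variable; `I` is the energy, `Λ` the length -/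
def LocalN1 (v : ℂ × ℂ → ℂ × ℂ) (l : ℂ × ℂ → ℂ) (Om : Set ℂ) (g : ℂ → ℂ × ℂ) (I Λ : ℝ → ℝ) (s δ : ℝ) : Prop :=
  ∃ (C : ℝ) (η : ℂ → ℂ) (err : ℂ → ℝ), 0 ≤ C ∧ ContDiffOn ℝ 1 η Om ∧ ContinuousOn err Om ∧
    (∀ z ∈ Om, g z ∉ ball (0 : ℂ × ℂ) s → η z = (starRingEnd ℂ) (DDv v l g z) ∧ err z = 0) ∧
    (∀ z ∈ Om, g z ∈ ball (0 : ℂ × ℂ) s → ‖η z‖ ≤ C * ‖deriv g z‖) ∧ (∀ z ∈ Om, 0 ≤ err z) ∧
    (∀ z ∈ Om, 0 ≤ dv η z + err z) ∧
    ∀ R, 1 ≤ R → ∫ z in Om, tau R z * err z ≤ δ * I R + C * Λ R + C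

variable {v : ℂ × ℂ → ℂ × ℂ} {r : ℝ} {Om : Set ℂ} {g : ℂ → ℂ × ℂ}

end Pool.Agent.MQ

end
end

section

/-!
# MQ3 DivR: the divergence of a vector field under a map, and the transformation rule of `Θ`

`κ : ℂ² → ℂ²`, `Dκ v = h • w ∘ κ`, `J = det Dκ`: `h (v J + J div v) = h² J (div w) ∘ κ + J v h`.
For a curve with `p' = ζ v (p)`, `ζ₁ = h (p) ζ` (so `(κ p)' = ζ₁ w (κ p)`): `ζ₁' / ζ₁ + ζ₁ div w = ζ' / ζ + ζ div v + J' / J`.
-/

set_option autoImplicit false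

open Topology Filter Metric

noncomputable section

namespace Pool.Agent.MQ3

open Pool.Agent.MQ (dvg)

/-- the Jacobian -/
def jc (κ : ℂ × ℂ → ℂ × ℂ) (p : ℂ × ℂ) : ℂ :=
  (fderiv ℂ κ p (1, 0)).1 * (fderiv ℂ κ p (0, 1)).2 - (fderiv ℂ κ p (0, 1)).1 * (fderiv ℂ κ p (1, 0)).2

theorem split_vec (L : ℂ × ℂ →L[ℂ] ℂ × ℂ) (u : ℂ × ℂ) : L u = u.1 • L (1, 0) + u.2 • L (0, 1) := by
  rw [← map_smul, ← map_smul, ← map_add]
  congr 1
  ext <;> simp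

theorem split_sc (L : ℂ × ℂ →L[ℂ] ℂ) (u : ℂ × ℂ) : L u = u.1 * L (1, 0) + u.2 * L (0, 1) := by
  rw [← smul_eq_mul, ← smul_eq_mul, ← map_smul, ← map_smul, ← map_add]
  congr 1
  ext <;> simp

theorem jc_an {κ : ℂ × ℂ → ℂ × ℂ} {P : ℂ × ℂ} (hκ : AnalyticAt ℂ κ P) : AnalyticAt ℂ (jc κ) P := by
  have h1 : ∀ e : ℂ × ℂ, AnalyticAt ℂ (fun Q => fderiv ℂ κ Q e) P := fun e =>
    ((ContinuousLinearMap.apply ℂ (ℂ × ℂ) e).analyticAt _).comp hκ.fderiv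
  have h2 : ∀ e : ℂ × ℂ, AnalyticAt ℂ (fun Q => (fderiv ℂ κ Q e).1) P := fun e => analyticAt_fst.comp (h1 e)
  have h3 : ∀ e : ℂ × ℂ, AnalyticAt ℂ (fun Q => (fderiv ℂ κ Q e).2) P := fun e => analyticAt_snd.comp (h1 e)
  exact ((h2 _).mul (h3 _)).sub ((h2 _).mul (h3 _))

/-- the derivative of the Jacobian -/
theorem fderiv_jc {κ : ℂ × ℂ → ℂ × ℂ} {P : ℂ × ℂ} (hκ : AnalyticAt ℂ κ P) (u : ℂ × ℂ) : fderiv ℂ (jc κ) P u =
    ((fderiv ℂ (fderiv ℂ κ) P u (1, 0)).1 * (fderiv ℂ κ P (0, 1)).2 + (fderiv ℂ κ P (1, 0)).1 * (fderiv ℂ (fderiv ℂ κ) P u (0, 1)).2) -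
      ((fderiv ℂ (fderiv ℂ κ) P u (0, 1)).1 * (fderiv ℂ κ P (1, 0)).2 + (fderiv ℂ κ P (0, 1)).1 * (fderiv ℂ (fderiv ℂ κ) P u (1, 0)).2) := by
  have hD : HasFDerivAt (fderiv ℂ κ) (fderiv ℂ (fderiv ℂ κ) P) P := hκ.fderiv.differentiableAt.hasFDerivAt
  have h1 : ∀ e : ℂ × ℂ, HasFDerivAt (fun Q => fderiv ℂ κ Q e) ((ContinuousLinearMap.apply ℂ (ℂ × ℂ) e).comp (fderiv ℂ (fderiv ℂ κ) P)) P := fun e =>
    (ContinuousLinearMap.apply ℂ (ℂ × ℂ) e).hasFDerivAt.comp P hD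
  have h2 : ∀ e : ℂ × ℂ, HasFDerivAt (fun Q => (fderiv ℂ κ Q e).1)
      ((ContinuousLinearMap.fst ℂ ℂ ℂ).comp ((ContinuousLinearMap.apply ℂ (ℂ × ℂ) e).comp (fderiv ℂ (fderiv ℂ κ) P))) P := fun e =>
    (ContinuousLinearMap.fst ℂ ℂ ℂ).hasFDerivAt.comp P (h1 e)
  have h3 : ∀ e : ℂ × ℂ, HasFDerivAt (fun Q => (fderiv ℂ κ Q e).2)
      ((ContinuousLinearMap.snd ℂ ℂ ℂ).comp ((ContinuousLinearMap.apply ℂ (ℂ × ℂ) e).comp (fderiv ℂ (fderiv ℂ κ) P))) P := fun e =>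
    (ContinuousLinearMap.snd ℂ ℂ ℂ).hasFDerivAt.comp P (h1 e)
  have h4 := ((h2 (1, 0)).mul (h3 (0, 1))).sub ((h2 (0, 1)).mul (h3 (1, 0)))
  have h5 : HasFDerivAt (jc κ) _ P := h4
  rw [h5.fderiv]
  simp
  ring

/-- **The divergence rule.** -/
theorem div_rule {κ v w : ℂ × ℂ → ℂ × ℂ} {h : ℂ × ℂ → ℂ} {P : ℂ × ℂ} (hκ : AnalyticAt ℂ κ P) (hv : AnalyticAt ℂ v P) (hw : AnalyticAt ℂ w (κ P))
    (hh : AnalyticAt ℂ h P) (hrel : ∀ᶠ Q in 𝓝 P, fderiv ℂ κ Q (v Q) = h Q • w (κ Q)) :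
    h P * (fderiv ℂ (jc κ) P (v P) + jc κ P * dvg v P) = h P ^ 2 * (jc κ P * dvg w (κ P)) + jc κ P * fderiv ℂ h P (v P) := by
  have hD : HasFDerivAt (fderiv ℂ κ) (fderiv ℂ (fderiv ℂ κ) P) P := hκ.fderiv.differentiableAt.hasFDerivAt
  have hκ' : HasFDerivAt κ (fderiv ℂ κ P) P := hκ.differentiableAt.hasFDerivAt
  have hv' : HasFDerivAt v (fderiv ℂ v P) P := hv.differentiableAt.hasFDerivAt
  have hh' : HasFDerivAt h (fderiv ℂ h P) P := hh.differentiableAt.hasFDerivAt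
  have hw' : HasFDerivAt w (fderiv ℂ w (κ P)) (κ P) := hw.differentiableAt.hasFDerivAt
  have hsym : ∀ a b : ℂ × ℂ, fderiv ℂ (fderiv ℂ κ) P a b = fderiv ℂ (fderiv ℂ κ) P b a := by
    have h1 : ContDiffAt ℂ ⊤ κ P := hκ.contDiffAt
    exact fun a b => h1.isSymmSndFDerivAt_of_omega a b
  have hL := hD.clm_apply hv'
  have hR := hh'.smul (hw'.comp P hκ')
  have heq := (hL.congr_of_eventuallyEq (hrel.mono fun Q hQ => hQ.symm)).unique hR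
  have key : ∀ u : ℂ × ℂ, fderiv ℂ κ P (fderiv ℂ v P u) + fderiv ℂ (fderiv ℂ κ) P (v P) u =
      h P • fderiv ℂ w (κ P) (fderiv ℂ κ P u) + fderiv ℂ h P u • w (κ P) := by
    intro u
    have h1 := congrArg (fun L : ℂ × ℂ →L[ℂ] ℂ × ℂ => L u) heq
    simp at h1
    rw [hsym (v P) u]
    exact h1
  have h0 := hrel.self_of_nhds
  have e1 := key (1, 0)
  have e2 := key (0, 1)
  rw [split_vec (fderiv ℂ κ P) (fderiv ℂ v P (1, 0)), split_vec (fderiv ℂ w (κ P)) (fderiv ℂ κ P (1, 0))] at e1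
  rw [split_vec (fderiv ℂ κ P) (fderiv ℂ v P (0, 1)), split_vec (fderiv ℂ w (κ P)) (fderiv ℂ κ P (0, 1))] at e2
  rw [split_vec (fderiv ℂ κ P) (v P)] at h0
  rw [fderiv_jc hκ, split_sc (fderiv ℂ h P) (v P), dvg, dvg, jc]
  have e11 := congrArg Prod.fst e1
  have e12 := congrArg Prod.snd e1
  have e21 := congrArg Prod.fst e2
  have e22 := congrArg Prod.snd e2
  have h01 := congrArg Prod.fst h0
  have h02 := congrArg Prod.snd h0
  simp only [Prod.fst_add, Prod.snd_add, Prod.smul_fst, Prod.smul_snd, smul_eq_mul] at e11 e12 e21 e22 h01 h02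
  set x1 := (fderiv ℂ κ P (1, 0)).1
  set y1 := (fderiv ℂ κ P (1, 0)).2
  set x2 := (fderiv ℂ κ P (0, 1)).1
  set y2 := (fderiv ℂ κ P (0, 1)).2
  set A1 := (fderiv ℂ (fderiv ℂ κ) P (v P) (1, 0)).1
  set B1 := (fderiv ℂ (fderiv ℂ κ) P (v P) (1, 0)).2
  set A2 := (fderiv ℂ (fderiv ℂ κ) P (v P) (0, 1)).1
  set B2 := (fderiv ℂ (fderiv ℂ κ) P (v P) (0, 1)).2
  linear_combination h P * y2 * e11 - h P * x2 * e12 - h P * y1 * e21 + h P * x1 * e22 +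
    (- y2 * fderiv ℂ h P (1, 0) + y1 * fderiv ℂ h P (0, 1)) * h01 + (x2 * fderiv ℂ h P (1, 0) - x1 * fderiv ℂ h P (0, 1)) * h02

/-- **The rule along a curve.**  `p' = ζ v (p)`, `(κ p)' = h (p) ζ w (κ p)`. -/
theorem curve_rule {κ v w : ℂ × ℂ → ℂ × ℂ} {h : ℂ × ℂ → ℂ} {p : ℂ → ℂ × ℂ} {ζ : ℂ → ℂ} {z : ℂ} (hκ : AnalyticAt ℂ κ (p z)) (hv : AnalyticAt ℂ v (p z))
    (hw : AnalyticAt ℂ w (κ (p z))) (hh : AnalyticAt ℂ h (p z)) (hrel : ∀ᶠ Q in 𝓝 (p z), fderiv ℂ κ Q (v Q) = h Q • w (κ Q))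
    (hp : AnalyticAt ℂ p z) (hζ : AnalyticAt ℂ ζ z) (hode : deriv p z = ζ z • v (p z)) (hζ0 : ζ z ≠ 0) (hh0 : h (p z) ≠ 0) (hJ0 : jc κ (p z) ≠ 0) :
    deriv (fun u => h (p u) * ζ u) z / (h (p z) * ζ z) + h (p z) * ζ z * dvg w (κ (p z)) =
      deriv ζ z / ζ z + ζ z * dvg v (p z) + deriv (fun u => jc κ (p u)) z / jc κ (p z) := by
  have hd := div_rule hκ hv hw hh hrel
  have h1 : HasDerivAt (fun u => h (p u)) (fderiv ℂ h (p z) (deriv p z)) z :=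
    hh.differentiableAt.hasFDerivAt.comp_hasDerivAt z hp.differentiableAt.hasDerivAt
  have h2 : HasDerivAt (fun u => jc κ (p u)) (fderiv ℂ (jc κ) (p z) (deriv p z)) z :=
    (jc_an hκ).differentiableAt.hasFDerivAt.comp_hasDerivAt z hp.differentiableAt.hasDerivAt
  have h3 := h1.mul hζ.differentiableAt.hasDerivAt
  have h3' : deriv (fun u => h (p u) * ζ u) z = fderiv ℂ h (p z) (deriv p z) * ζ z + h (p z) * deriv ζ z := h3.deriv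
  rw [h3', h2.deriv, hode, map_smul, map_smul, smul_eq_mul, smul_eq_mul]
  field_simp
  linear_combination - ζ z ^ 2 * hd

end Pool.Agent.MQ3

end
end
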