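import Pool.Agent.H94.G6.H68.KR.D2
import Pool.Agent.H94.G6.M01
import Pool.Agent.H94.G6.M02
import Pool.Agent.H94.G6.M03

/-! The parts of this file: H14.PP.Poly, E1.ChowS, H36.BP.OrdDefs, H68.KR.T1, H68.KR.T2, H68.KR.HD, MQ.SNPt. -/

section

/-!
# Algebraic sets and the metric theorem
-/

open Topology Filter Metric MvPolynomial

namespace Pool.Agent.H14.PP

open Pool.Agent.H36.BP

variable {N : ℕ}

theorem continuous_evalEN (P : MvPolynomial (Fin (N + 1)) ℂ) :
    Continuous (fun x : EN N => MvPolynomial.eval x.ofLp P) :=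
  (MvPolynomial.continuous_eval P).comp (PiLp.continuous_ofLp 2 (fun _ : Fin (N + 1) => ℂ))

theorem analyticAt_evalEN (P : MvPolynomial (Fin (N + 1)) ℂ) (x : EN N) :
    AnalyticAt ℂ (fun x : EN N => MvPolynomial.eval x.ofLp P) x := by
  have h : ∀ i : Fin (N + 1), AnalyticAt ℂ (fun x : EN N => x.ofLp i) x := fun i =>
    (EuclideanSpace.proj (𝕜 := ℂ) (ι := Fin (N + 1)) i : EN N →L[ℂ] ℂ).analyticAt x
  have := AnalyticAt.aeval_mvPolynomial (𝕜 := ℂ) h P
  simpa [MvPolynomial.aeval_eq_eval] using this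

theorem eval_smulEN {P : MvPolynomial (Fin (N + 1)) ℂ} {e : ℕ} (hP : P.IsHomogeneous e) (c : ℂ)
    (x : EN N) : MvPolynomial.eval (c • x).ofLp P = c ^ e * MvPolynomial.eval x.ofLp P := by
  have h2 : (c • x).ofLp = fun k => c * x.ofLp k := by
    funext k
    simp
  rw [h2, Pool.Agent.H17.eval_smul_of_isHomogeneous hP]

section eqs

variable {k : ℕ} {R : Fin k → MvPolynomial (Fin (N + 1)) ℂ} {r : Fin k → ℕ} {D : ℕ}

end eqs

end Pool.Agent.H14.PP

end

section

/-!
# E1 ChowS: forms which vanish to high order at the centres of finitely many discs in a curve vanish on the curve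
-/

set_option autoImplicit false

open Topology Filter Metric MvPolynomial

noncomputable section

namespace Pool.Agent.E1

open Pool.Agent.H36.BP (EN)
open Pool.Agent.H14.PP (eval_smulEN analyticAt_evalEN continuous_evalEN)

variable {N : ℕ}

/-- Schwarz lemma for a zero of order `n`. -/
theorem schwarz_order {f : ℂ → ℂ} (hf : AnalyticOnNhd ℂ f (closedBall 0 1)) {M : ℝ} (hM : ∀ z ∈ closedBall (0 : ℂ) 1, ‖f z‖ ≤ M) {n : ℕ}
    (hn : (n : ℕ∞) ≤ analyticOrderAt f 0) {z : ℂ} (hz : z ∈ closedBall (0 : ℂ) 1) : ‖f z‖ ≤ M * ‖z‖ ^ n := by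
  have h0 : AnalyticAt ℂ f 0 := hf 0 (mem_closedBall_self zero_le_one)
  rw [natCast_le_analyticOrderAt h0] at hn
  obtain ⟨g₁, hg₁, hfg⟩ := hn
  simp only [sub_zero, smul_eq_mul] at hfg
  obtain ⟨g, hg⟩ : ∃ g : ℂ → ℂ, g = fun z => if z = 0 then g₁ 0 else f z / z ^ n := ⟨_, rfl⟩
  have hga : AnalyticOnNhd ℂ g (closedBall 0 1) := by
    intro w hw
    by_cases hw0 : w = 0
    · subst hw0
      refine hg₁.congr ?_
      filter_upwards [hfg] with y hy
      rw [hg]
      by_cases hy0 : y = 0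
      · simp [hy0]
      · simp only [hy0, if_false]
        rw [hy]
        field_simp
    · have h1 : AnalyticAt ℂ (fun z => f z / z ^ n) w := (hf w hw).div (analyticAt_id.pow n) (pow_ne_zero n hw0)
      refine h1.congr ?_
      filter_upwards [eventually_ne_nhds hw0] with y hy
      rw [hg]
      simp only [hy, if_false]
  have hgM : ∀ z ∈ closedBall (0 : ℂ) 1, ‖g z‖ ≤ M := by
    intro z hz
    have hcl : closure (ball (0 : ℂ) 1) = closedBall 0 1 := closure_ball 0 one_ne_zero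
    refine Complex.norm_le_of_forall_mem_frontier_norm_le (U := ball (0 : ℂ) 1) isBounded_ball ?_ ?_ (by rwa [hcl])
    · refine DifferentiableOn.diffContOnCl ?_
      rw [hcl]
      exact hga.differentiableOn
    · intro w hw
      rw [frontier_ball (0 : ℂ) one_ne_zero] at hw
      have hw1 : ‖w‖ = 1 := by simpa using hw
      have hw0 : w ≠ 0 := by
        intro h
        rw [h, norm_zero] at hw1
        exact zero_ne_one hw1
      rw [hg]
      simp only [hw0, if_false]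
      rw [norm_div, norm_pow, hw1, one_pow, div_one]
      exact hM w (by rw [mem_closedBall_zero_iff, hw1])
  have hfz : f z = z ^ n * g z := by
    by_cases hz0 : z = 0
    · subst hz0
      rw [hfg.self_of_nhds, hg]
      simp
    · rw [hg]
      simp only [hz0, if_false]
      field_simp
  rw [hfz, norm_mul, norm_pow, mul_comm]
  exact mul_le_mul_of_nonneg_right (hgM z hz) (by positivity)

/-- **Vanishing.**  The cone `Z` is covered by the cones over the half discs. -/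
theorem vanish_of_discs {Z : Set (EN N)} (hZ0 : (0 : EN N) ∉ Z) (hZs : ∀ x ∈ Z, ∀ c : ℂ, c ≠ 0 → c • x ∈ Z) {r : ℕ} (γ : Fin r → ℂ → EN N)
    (hγ : ∀ i, AnalyticOnNhd ℂ (γ i) (closedBall 0 1)) (hγZ : ∀ i, ∀ z ∈ closedBall (0 : ℂ) 1, γ i z ∈ Z)
    (hcov : ∀ x ∈ Z, ∃ i, ∃ z ∈ closedBall (0 : ℂ) (1 / 2), ∃ c : ℂ, c ≠ 0 ∧ γ i z = c • x) :
    ∃ K : ℕ, ∀ d : ℕ, 1 ≤ d → ∀ Q : MvPolynomial (Fin (N + 1)) ℂ, Q.IsHomogeneous d →
      (∀ i, ∀ k < K * d, iteratedDeriv k (fun z => eval (γ i z).ofLp Q) 0 = 0) → ∀ x ∈ Z, eval x.ofLp Q = 0 := by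
  -- bounds for the discs
  obtain ⟨a, A, ha, hA, hbd⟩ : ∃ a A : ℝ, 0 < a ∧ 0 < A ∧ ∀ i, ∀ z ∈ closedBall (0 : ℂ) 1, a ≤ ‖γ i z‖ ∧ ‖γ i z‖ ≤ A := by
    have h1 : ∀ i, ∃ a A : ℝ, 0 < a ∧ 0 < A ∧ ∀ z ∈ closedBall (0 : ℂ) 1, a ≤ ‖γ i z‖ ∧ ‖γ i z‖ ≤ A := by
      intro i
      have hc : ContinuousOn (fun z => ‖γ i z‖) (closedBall 0 1) := (hγ i).continuousOn.norm
      obtain ⟨z₁, hz₁, hmin⟩ := (isCompact_closedBall (0 : ℂ) 1).exists_isMinOn ⟨0, mem_closedBall_self zero_le_one⟩ hc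
      obtain ⟨z₂, hz₂, hmax⟩ := (isCompact_closedBall (0 : ℂ) 1).exists_isMaxOn ⟨0, mem_closedBall_self zero_le_one⟩ hc
      have hp : ∀ z ∈ closedBall (0 : ℂ) 1, 0 < ‖γ i z‖ := fun z hz => norm_pos_iff.2 fun h => hZ0 (h ▸ hγZ i z hz)
      exact ⟨‖γ i z₁‖, ‖γ i z₂‖, hp z₁ hz₁, hp z₂ hz₂, fun z hz => ⟨hmin hz, hmax hz⟩⟩
    choose a A ha hA hb using h1
    rcases Nat.eq_zero_or_pos r with hr | hr
    · subst hr
      exact ⟨1, 1, one_pos, one_pos, fun i => i.elim0⟩
    · have : Nonempty (Fin r) := ⟨⟨0, hr⟩⟩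
      obtain ⟨i₁, -, hi₁⟩ := Finset.exists_min_image Finset.univ a Finset.univ_nonempty
      obtain ⟨i₂, -, hi₂⟩ := Finset.exists_max_image Finset.univ A Finset.univ_nonempty
      exact ⟨a i₁, A i₂, ha i₁, hA i₂, fun i z hz => ⟨(hi₁ i (Finset.mem_univ i)).trans (hb i z hz).1,
        (hb i z hz).2.trans (hi₂ i (Finset.mem_univ i))⟩⟩
  obtain ⟨K, hK⟩ : ∃ K : ℕ, 2 * A / a ≤ 2 ^ K := by
    obtain ⟨K, hK⟩ := pow_unbounded_of_one_lt (2 * A / a) (one_lt_two)
    exact ⟨K, hK.le⟩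
  refine ⟨K, fun d hd Q hQ hvan => ?_⟩
  -- the supremum of `Q` on the unit vectors of `Z`
  obtain ⟨B, hB0, hB⟩ : ∃ B : ℝ, 0 ≤ B ∧ ∀ x : EN N, ‖x‖ ≤ 1 → ‖eval x.ofLp Q‖ ≤ B := by
    obtain ⟨C, hC⟩ := (isCompact_closedBall (0 : EN N) 1).exists_bound_of_continuousOn (continuous_evalEN Q).continuousOn
    refine ⟨max C 0, le_max_right _ _, fun x hx => (hC x (by simpa using hx)).trans (le_max_left _ _)⟩
  -- improvement
  have key : ∀ M : ℝ, 0 ≤ M → (∀ x ∈ Z, ‖x‖ = 1 → ‖eval x.ofLp Q‖ ≤ M) → ∀ x ∈ Z, ‖x‖ = 1 → ‖eval x.ofLp Q‖ ≤ M / 2 := by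
    intro M hM0 hM x hx hx1
    have hhom : ∀ y ∈ Z, ‖eval y.ofLp Q‖ ≤ ‖y‖ ^ d * M := by
      intro y hy
      have hy0 : y ≠ 0 := fun h => hZ0 (h ▸ hy)
      have hyn : 0 < ‖y‖ := norm_pos_iff.2 hy0
      have hyc : ((‖y‖ : ℂ))⁻¹ ≠ 0 := by
        simpa using hy0
      have h1 := hM _ (hZs y hy _ hyc) (by
        rw [norm_smul, norm_inv, Complex.norm_real, norm_norm]
        exact inv_mul_cancel₀ hyn.ne')
      rw [eval_smulEN hQ, norm_mul, norm_pow, norm_inv, Complex.norm_real, norm_norm] at h1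
      rw [inv_pow] at h1
      have h2 : 0 < ‖y‖ ^ d := by positivity
      rwa [inv_mul_le_iff₀ h2] at h1
    obtain ⟨i, z, hz, c', hc', hxc'⟩ := hcov x hx
    obtain ⟨c, hcd⟩ : ∃ c : ℂ, c = c'⁻¹ := ⟨_, rfl⟩
    have hxc : x = c • γ i z := by
      rw [hxc', hcd, smul_smul, inv_mul_cancel₀ hc', one_smul]
    have hz1 : z ∈ closedBall (0 : ℂ) 1 := closedBall_subset_closedBall (by norm_num) hz
    have hfa : AnalyticOnNhd ℂ (fun z => eval (γ i z).ofLp Q) (closedBall 0 1) := fun w hw =>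
      (analyticAt_evalEN Q (γ i w)).fun_comp (hγ i w hw)
    have hord : ((K * d : ℕ) : ℕ∞) ≤ analyticOrderAt (fun z => eval (γ i z).ofLp Q) 0 := by
      rw [natCast_le_analyticOrderAt_iff_iteratedDeriv_eq_zero (hfa 0 (mem_closedBall_self zero_le_one))]
      exact fun k hk => hvan i k hk
    have h3 := schwarz_order hfa (M := A ^ d * M) (fun w hw => (hhom _ (hγZ i w hw)).trans (by
      have := (hbd i w hw).2
      gcongr)) hord hz1
    have hzn : ‖z‖ ≤ 1 / 2 := by simpa using hz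
    have hγn := (hbd i z hz1).1
    have hcn : ‖c‖ * ‖γ i z‖ = 1 := by
      rw [← norm_smul, ← hxc, hx1]
    have hca : ‖c‖ ≤ a⁻¹ := by
      have h4 : ‖c‖ * a ≤ 1 := by
        rw [← hcn]
        gcongr
      rwa [← le_div_iff₀ ha, one_div] at h4
    rw [hxc, eval_smulEN hQ, norm_mul, norm_pow]
    calc ‖c‖ ^ d * ‖eval (γ i z).ofLp Q‖ ≤ (a⁻¹) ^ d * (A ^ d * M * (1 / 2) ^ (K * d)) := by
          have h5 : ‖z‖ ^ (K * d) ≤ (1 / 2) ^ (K * d) := by gcongr
          have h6 : A ^ d * M * ‖z‖ ^ (K * d) ≤ A ^ d * M * (1 / 2) ^ (K * d) := by gcongr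
          gcongr
          exact h3.trans h6
      _ = (A / a / 2 ^ K) ^ d * M := by
          have e1 : ((1 : ℝ) / 2) ^ (K * d) = ((2 ^ K : ℝ)⁻¹) ^ d := by
            rw [pow_mul, one_div, inv_pow]
          have e2 : A / a / 2 ^ K = a⁻¹ * A * (2 ^ K : ℝ)⁻¹ := by
            rw [div_eq_mul_inv, div_eq_mul_inv]
            ring
          rw [e1, e2, mul_pow, mul_pow]
          ring
      _ ≤ (1 / 2) ^ d * M := by
          have h7 : A / a / 2 ^ K ≤ 1 / 2 := by
            rw [div_le_div_iff₀ (by positivity) (by norm_num)]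
            rw [mul_div_assoc] at hK
            linarith
          gcongr
      _ ≤ (1 / 2) ^ 1 * M := by
          have h8 : ((1 : ℝ) / 2) ^ d ≤ (1 / 2) ^ 1 := pow_le_pow_of_le_one (by norm_num) (by norm_num) hd
          gcongr
      _ = M / 2 := by ring
  have hall : ∀ n : ℕ, ∀ x ∈ Z, ‖x‖ = 1 → ‖eval x.ofLp Q‖ ≤ B / 2 ^ n := by
    intro n
    induction n with
    | zero => intro x hx hx1; simpa using hB x hx1.le
    | succ n ih =>
      intro x hx hx1
      have := key (B / 2 ^ n) (by positivity) ih x hx hx1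
      rw [pow_succ, ← div_div]
      exact this
  have hunit : ∀ x ∈ Z, ‖x‖ = 1 → eval x.ofLp Q = 0 := by
    intro x hx hx1
    rw [← norm_le_zero_iff]
    have ht : Tendsto (fun n : ℕ => B / 2 ^ n) atTop (𝓝 0) := by
      have h1 : Tendsto (fun n : ℕ => B * (1 / 2 : ℝ) ^ n) atTop (𝓝 (B * 0)) :=
        (tendsto_pow_atTop_nhds_zero_of_lt_one (by norm_num) (by norm_num)).const_mul B
      rw [mul_zero] at h1
      refine h1.congr fun n => ?_
      rw [one_div, inv_pow]
      rfl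
    exact ge_of_tendsto' ht fun n => hall n x hx hx1
  intro x hx
  have hx0 : x ≠ 0 := fun h => hZ0 (h ▸ hx)
  have hxn : 0 < ‖x‖ := norm_pos_iff.2 hx0
  have hxc : ((‖x‖ : ℂ))⁻¹ ≠ 0 := by
    simpa using hx0
  have h1 := hunit _ (hZs x hx _ hxc) (by
    rw [norm_smul, norm_inv, Complex.norm_real, norm_norm]
    exact inv_mul_cancel₀ hxn.ne')
  rw [eval_smulEN hQ] at h1
  exact (mul_eq_zero.1 h1).resolve_left (pow_ne_zero _ hxc)

end Pool.Agent.E1

end
end

section

/-!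
# BP OrdDefs: entire curves of order at most two

The characteristic function of an entire curve `f` in `ℙ(V)` is `T_f(r) = inf (-log |F 0|)` over the holomorphic lifts `F` of `f` to the disc of radius `r` (zeros allowed) with
`|F| ≤ 1`.  `OrdTwo f`: `T_f(r) ≤ C (1 + r²)` for all `r > 0`.
-/

set_option autoImplicit false

namespace Pool.Agent.H36.BP

open Metric

/-- `f` is an entire curve in `ℙ(V)` of order at most two and of finite type: `T_f(r) ≤ C₀ (1 + r²)` -/
def OrdTwo {V : Type} [NormedAddCommGroup V] [NormedSpace ℂ V] (f : ℂ → V) : Prop :=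
  ∃ C₀ : ℝ, ∀ r : ℝ, 0 < r → ∃ F : ℂ → V, DifferentiableOn ℂ F (ball 0 r) ∧ (∀ z ∈ ball (0 : ℂ) r, ‖F z‖ ≤ 1) ∧
    Real.exp (-(C₀ * (1 + r ^ 2))) ≤ ‖F 0‖ ∧ ∀ z ∈ ball (0 : ℂ) r, F z = 0 ∨ ∃ c : ℂ, c ≠ 0 ∧ f z = c • F z

/-- every entire curve of order at most two in `K` which is not constant as a map into projective space lies in `B` -/
def BrodyMod2 {N : ℕ} (K B : Set (EN N)) : Prop :=
  ∀ F : ℂ → EN N, Differentiable ℂ F → (∀ z, F z ∈ K) → (∃ z w, ∀ c : ℂ, F z ≠ c • F w) → OrdTwo F → ∀ z, F z ∈ B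

theorem OrdTwo.congr {V : Type} [NormedAddCommGroup V] [NormedSpace ℂ V] {f g : ℂ → V} (h : OrdTwo f) (hfg : ∀ z, ∃ c : ℂ, c ≠ 0 ∧ g z = c • f z) :
    OrdTwo g := by
  obtain ⟨C₀, h⟩ := h
  refine ⟨C₀, fun r hr => ?_⟩
  obtain ⟨F, h1, h2, h3, h4⟩ := h r hr
  refine ⟨F, h1, h2, h3, fun z hz => ?_⟩
  rcases h4 z hz with h5 | ⟨c, hc, h5⟩
  · exact Or.inl h5
  · obtain ⟨c', hc', h6⟩ := hfg z
    exact Or.inr ⟨c' * c, mul_ne_zero hc' hc, by rw [h6, h5, smul_smul]⟩

/-- the image under a linear map which does not decrease the norm of the normalised lifts at `0` too much -/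
theorem OrdTwo.map {V W : Type} [NormedAddCommGroup V] [NormedSpace ℂ V] [NormedAddCommGroup W] [NormedSpace ℂ W] (L : V →L[ℂ] W) {f : ℂ → V} (h : OrdTwo f)
    {c : ℝ} (hc : 0 < c) (hL : ∀ x, c * ‖x‖ ≤ ‖L x‖) : OrdTwo fun z => L (f z) := by
  obtain ⟨C₀, h⟩ := h
  set M : ℝ := max ‖L‖ 1 with hM
  have hM1 : 1 ≤ M := le_max_right _ _
  have hM0 : 0 < M := lt_of_lt_of_le one_pos hM1
  refine ⟨max C₀ 0 + |Real.log (c / M)|, fun r hr => ?_⟩
  obtain ⟨F, h1, h2, h3, h4⟩ := h r hr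
  have hMc : (M : ℂ) ≠ 0 := by exact_mod_cast hM0.ne'
  refine ⟨fun z => (M : ℂ)⁻¹ • L (F z), ?_, ?_, ?_, ?_⟩
  · exact (L.differentiable.comp_differentiableOn h1).const_smul _
  · intro z hz
    rw [norm_smul, norm_inv, Complex.norm_real, Real.norm_of_nonneg hM0.le, inv_mul_le_iff₀ hM0, mul_one]
    calc ‖L (F z)‖ ≤ ‖L‖ * ‖F z‖ := L.le_opNorm _
      _ ≤ M * 1 := mul_le_mul (le_max_left _ _) (h2 z hz) (norm_nonneg _) hM0.le
      _ = M := mul_one _
  · rw [norm_smul, norm_inv, Complex.norm_real, Real.norm_of_nonneg hM0.le]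
    have hcM : 0 < c / M := div_pos hc hM0
    have h5 : Real.exp (-((max C₀ 0 + |Real.log (c / M)|) * (1 + r ^ 2))) ≤ (c / M) * Real.exp (-(C₀ * (1 + r ^ 2))) := by
      conv_rhs => rw [← Real.exp_log hcM, ← Real.exp_add]
      apply Real.exp_le_exp.mpr
      have h6 : C₀ * (1 + r ^ 2) ≤ max C₀ 0 * (1 + r ^ 2) := mul_le_mul_of_nonneg_right (le_max_left _ _) (by positivity)
      have h7 : |Real.log (c / M)| * 1 ≤ |Real.log (c / M)| * (1 + r ^ 2) := mul_le_mul_of_nonneg_left (by nlinarith [sq_nonneg r]) (abs_nonneg _)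
      have h8 := neg_abs_le (Real.log (c / M))
      nlinarith
    refine h5.trans ?_
    calc c / M * Real.exp (-(C₀ * (1 + r ^ 2))) ≤ c / M * ‖F 0‖ := mul_le_mul_of_nonneg_left h3 hcM.le
      _ = M⁻¹ * (c * ‖F 0‖) := by rw [div_eq_inv_mul]; ring
      _ ≤ M⁻¹ * ‖L (F 0)‖ := mul_le_mul_of_nonneg_left (hL _) (inv_nonneg.mpr hM0.le)
  · intro z hz
    rcases h4 z hz with h5 | ⟨k, hk, h5⟩
    · left
      simp only
      rw [h5, map_zero, smul_zero]
    · right
      refine ⟨k * M, mul_ne_zero hk hMc, ?_⟩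
      simp only
      rw [h5, map_smul, smul_smul, mul_assoc, mul_inv_cancel₀ hMc, mul_one]

/-- linear isomorphisms preserve the order -/
theorem OrdTwo.equiv {V W : Type} [NormedAddCommGroup V] [NormedSpace ℂ V] [NormedAddCommGroup W] [NormedSpace ℂ W] (L : V ≃L[ℂ] W) {f : ℂ → V} (h : OrdTwo f) :
    OrdTwo fun z => L (f z) := by
  set M : ℝ := max ‖(L.symm : W →L[ℂ] V)‖ 1 with hM
  have hM0 : 0 < M := lt_of_lt_of_le one_pos (le_max_right _ _)
  refine h.map (L : V →L[ℂ] W) (c := M⁻¹) (inv_pos.mpr hM0) fun x => ?_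
  rw [inv_mul_le_iff₀ hM0]
  have h1 := (L.symm : W →L[ℂ] V).le_opNorm (L x)
  have h2 : (L.symm : W →L[ℂ] V) (L x) = x := L.symm_apply_apply x
  rw [h2] at h1
  exact h1.trans (mul_le_mul_of_nonneg_right (le_max_left _ _) (norm_nonneg _))

end Pool.Agent.H36.BP

end

section

/-!
# KR T1: the Taylor series of a function of one variable

`t1 f = ∑ f^(n)(0) / n! X^n`.

Proofs.
* `t1_congr`: `Filter.EventuallyEq.iteratedDeriv_eq`.
* `constantCoeff_t1`, `t1_const`, `t1_id`, `t1_add`: coefficients (`iteratedDeriv_add`, `iteratedDeriv_const`; for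
  `t1_id` it is enough to know `iteratedDeriv (n + 2) (fun x => x) 0 = 0`, from `iteratedDeriv_succ'` and
  `deriv_id''`).
* `t1_deriv`: `iteratedDeriv_succ'`: `iteratedDeriv (n + 1) f = iteratedDeriv n (deriv f)`.
* `t1_mul`: for all `n` and all `f, g`: `coeff n (t1 (f g)) = coeff n (t1 f * t1 g)`, by induction on `n`.
  `n = 0`: `constantCoeff_t1`. Step: `(n + 1) coeff (n + 1) F = coeff n F'`, and by `t1_deriv`, `t1_add`, `t1_congr` and the
  induction hypothesis `(t1 (f g))' = t1 (f' g + f g')` has the same `n`-th coefficient as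
  `t1 f' t1 g + t1 f t1 g' = (t1 f t1 g)'`.
  (Or directly: `iteratedDeriv_mul`.)
* `t1_eq_zero_iff`: `AnalyticAt` with all derivatives `0` at `0`: e.g. `HasFPowerSeriesAt` with
  `FormalMultilinearSeries.coeff`, or `analyticOrderAt` (`analyticOrderAt_eq_top`, if the order were the finite number
  `n` then `f = x^n g`, `g 0 ≠ 0` and the `n`-th derivative is `n! g 0`), or `AnalyticAt.hasFPowerSeriesAt`
  (`f` has the power series with the coefficients `iteratedDeriv n f 0 / n!`).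
-/

set_option autoImplicit false

open Topology Filter

noncomputable section

namespace Pool.Agent.H68.KR

/-- The Taylor series at `0` of a function of one variable. -/
def t1 (f : ℂ → ℂ) : PowerSeries ℂ :=
  PowerSeries.mk fun n => iteratedDeriv n f 0 / (n.factorial : ℂ)

private theorem T1_coeff (f : ℂ → ℂ) (n : ℕ) :
    PowerSeries.coeff n (t1 f) = iteratedDeriv n f 0 / (n.factorial : ℂ) := by
  unfold t1
  rw [PowerSeries.coeff_mk]

theorem t1_congr {f g : ℂ → ℂ} (h : ∀ᶠ x in 𝓝 (0 : ℂ), f x = g x) : t1 f = t1 g := by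
  ext n
  have h1 : iteratedDeriv n f 0 = iteratedDeriv n g 0 := Filter.EventuallyEq.iteratedDeriv_eq n h
  rw [T1_coeff, T1_coeff, h1]

theorem t1_const (c : ℂ) : t1 (fun _ => c) = PowerSeries.C c := by
  ext n
  rw [T1_coeff, iteratedDeriv_const, PowerSeries.coeff_C]
  by_cases h : n = 0
  · rw [if_pos h, h, Nat.factorial_zero, Nat.cast_one, div_one]
  · rw [if_neg h, zero_div]

theorem t1_id : t1 (fun x => x) = PowerSeries.X := by
  ext n
  rw [T1_coeff, iteratedDeriv_fun_id_zero, PowerSeries.coeff_X]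
  by_cases h : n = 1
  · rw [if_pos h, h, Nat.factorial_one, Nat.cast_one, div_one]
  · rw [if_neg h, zero_div]

theorem t1_add {f g : ℂ → ℂ} (hf : AnalyticAt ℂ f 0) (hg : AnalyticAt ℂ g 0) :
    t1 (fun x => f x + g x) = t1 f + t1 g := by
  ext n
  rw [map_add, T1_coeff, T1_coeff, T1_coeff, iteratedDeriv_fun_add hf.contDiffAt hg.contDiffAt,
    add_div]

theorem t1_deriv {f : ℂ → ℂ} (hf : AnalyticAt ℂ f 0) :
    PowerSeries.derivative ℂ (t1 f) = t1 (deriv f) := by
  ext n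
  rw [PowerSeries.coeff_derivative, T1_coeff, T1_coeff, iteratedDeriv_succ', Nat.factorial_succ]
  have h1 : (n.factorial : ℂ) ≠ 0 := by exact_mod_cast n.factorial_ne_zero
  have h2 : ((n : ℂ) + 1) ≠ 0 := by exact_mod_cast n.succ_ne_zero
  push_cast
  field_simp

theorem t1_mul {f g : ℂ → ℂ} (hf : AnalyticAt ℂ f 0) (hg : AnalyticAt ℂ g 0) :
    t1 (fun x => f x * g x) = t1 f * t1 g := by
  ext n
  rw [PowerSeries.coeff_mul, T1_coeff, iteratedDeriv_fun_mul hf.contDiffAt hg.contDiffAt,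
    Finset.Nat.sum_antidiagonal_eq_sum_range_succ
      (fun i j => PowerSeries.coeff i (t1 f) * PowerSeries.coeff j (t1 g)) n, Finset.sum_div]
  refine Finset.sum_congr rfl fun i hi => ?_
  have hi' : i ≤ n := Nat.lt_succ_iff.1 (Finset.mem_range.1 hi)
  rw [T1_coeff, T1_coeff]
  have h1 : (n.factorial : ℂ) ≠ 0 := by exact_mod_cast n.factorial_ne_zero
  have h2 : (i.factorial : ℂ) ≠ 0 := by exact_mod_cast i.factorial_ne_zero
  have h3 : ((n - i).factorial : ℂ) ≠ 0 := by exact_mod_cast (n - i).factorial_ne_zero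
  have h4 : ((n.choose i : ℂ)) * i.factorial * (n - i).factorial = n.factorial := by
    exact_mod_cast Nat.choose_mul_factorial_mul_factorial hi'
  rw [← h4]
  rw [← h4] at h1
  have h5 : ((n.choose i : ℂ)) ≠ 0 := by
    intro h
    rw [h, zero_mul, zero_mul] at h1
    exact h1 rfl
  field_simp

theorem t1_eq_zero_iff {f : ℂ → ℂ} (hf : AnalyticAt ℂ f 0) :
    t1 f = 0 ↔ ∀ᶠ x in 𝓝 (0 : ℂ), f x = 0 := by
  constructor
  · intro h
    have h1 := hasFPowerSeriesAt_iff.1 hf.hasFPowerSeriesAt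
    filter_upwards [h1] with z hz
    have h2 : (fun n => z ^ n • (FormalMultilinearSeries.ofScalars ℂ
        (fun n => iteratedDeriv n f 0 / (n.factorial : ℂ))).coeff n) = fun _ => (0 : ℂ) := by
      funext n
      rw [FormalMultilinearSeries.coeff_ofScalars, ← T1_coeff, h]
      simp
    rw [h2, zero_add] at hz
    exact hz.unique hasSum_zero
  · intro h
    rw [t1_congr h, t1_const, map_zero]

end Pool.Agent.H68.KR

end
end

section

/-!
# KR T2: the Taylor series of a function of two variables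

`t2 f ∈ ℂ⟦X⟧⟦T⟧`: the coefficient of `T^n` is `1/n!` times the Taylor series in `x` of `(∂/∂y)^n f (x, 0)`.

Proofs.
* `t2_congr`: `iterate_dy_congr` along `x ↦ (x, 0)` and `t1_congr`.
* `t2_add`, `t2_mul`: for all `n` and all `f, g` analytic at `0`:
  `coeff n (t2 (f g)) = coeff n (t2 f * t2 g)` by induction on `n`.  `n = 0`: `coeff 0` is
  `t1 (fun x => f (x, 0))` (`Nat.factorial 0 = 1`), so `t1_mul`.  Step: `(n + 1) coeff (n + 1) F = coeff n F'`, and by
  `t2_dy`, `t2_add`, `t2_congr`, `dy_mul` and the induction hypothesis `(t2 (f g))' = t2 (dy f g + f dy g)` has the same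
  `n`-th coefficient as `(t2 f t2 g)'`.  `t2_add`: the same or directly.
* `t2_dy`: `coeff n (F') = (n + 1) coeff (n + 1) F` (`PowerSeries.coeff_derivative`), `dy^[n + 1] f = dy^[n] (dy f)`
  (`Function.iterate_succ_apply`), `(n + 1) / (n + 1)! = 1 / n!`.
* `t2_dx`: `dx_iterate_dy_comm` and `t1_deriv`, `deriv_slice_x` (at the points `(x, 0)`, `x` near `0`:
  `deriv (fun x => g (x, 0)) x = dx g (x, 0)` with `g = dy^[n] f`).
* `t2_of_fst`: `dy (fun u => f u.1) = 0` near `0`.  `t2_snd`: `dy (fun u => u.2) = 1`, `dy (1) = 0`.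
* `t2_eq_zero_iff` (`→`): let `f` be analytic at all points of the polydisc `|x| < r, |y| < r`
  (`AnalyticAt.eventually_analyticAt`, `Metric.nhds_basis_ball`, the sup norm of `ℂ × ℂ`).  By `t1_eq_zero_iff`
  `dy^[n] f (x, 0) = 0` for `x` near `0`, hence for all `|x| < r` (identity theorem in the connected ball,
  `AnalyticOnNhd.eqOn_zero_of_preconnected_of_eventuallyEq_zero`).  By `iterate_dy_slice` all derivatives of
  `y ↦ f (x, y)` vanish at `0`, hence it vanishes near `0` (e.g. `t1_eq_zero_iff`) and for `|y| < r` (identity theorem).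
* `t2_eval`: `MvPolynomial.induction_on`.
-/

set_option autoImplicit false

open Topology Filter

noncomputable section

namespace Pool.Agent.H68.KR

/-- The Taylor series at `0` of a function of two variables, as a power series in the second variable whose
coefficients are power series in the first variable. -/
def t2 (f : ℂ × ℂ → ℂ) : PowerSeries (PowerSeries ℂ) :=
  PowerSeries.mk fun n => PowerSeries.C ((n.factorial : ℂ)⁻¹) * t1 (fun x => (dy^[n] f) (x, 0))

/-- The derivative in the first variable of a power series in two variables. -/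
def pX (F : PowerSeries (PowerSeries ℂ)) : PowerSeries (PowerSeries ℂ) :=
  PowerSeries.mk fun n => PowerSeries.derivative ℂ (PowerSeries.coeff n F)

private theorem T2_slice_tendsto :
    Tendsto (fun x : ℂ => (x, (0 : ℂ))) (𝓝 0) (𝓝 (0 : ℂ × ℂ)) := by
  have h : ContinuousAt (fun x : ℂ => (x, (0 : ℂ))) 0 := by fun_prop
  exact h

private theorem T2_slice {f : ℂ × ℂ → ℂ} {x : ℂ} (hf : AnalyticAt ℂ f (x, 0)) :
    AnalyticAt ℂ (fun x : ℂ => f (x, 0)) x := by
  have h : AnalyticAt ℂ (fun x : ℂ => (x, (0 : ℂ))) x := analyticAt_id.prod analyticAt_const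
  exact AnalyticAt.comp (g := f) (f := fun x : ℂ => (x, (0 : ℂ))) hf h

private theorem T2_slice_y {f : ℂ × ℂ → ℂ} {x y : ℂ} (hf : AnalyticAt ℂ f (x, y)) :
    AnalyticAt ℂ (fun y : ℂ => f (x, y)) y := by
  have h : AnalyticAt ℂ (fun y : ℂ => (x, y)) y := analyticAt_const.prod analyticAt_id
  exact AnalyticAt.comp (g := f) (f := fun y : ℂ => (x, y)) hf h

private theorem T2_coeff (f : ℂ × ℂ → ℂ) (n : ℕ) : PowerSeries.coeff n (t2 f) =
    PowerSeries.C ((n.factorial : ℂ)⁻¹) * t1 (fun x => (dy^[n] f) (x, 0)) := by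
  unfold t2
  rw [PowerSeries.coeff_mk]

private theorem T2_der_mul {R : Type*} [CommRing R] (F G : PowerSeries R) :
    PowerSeries.derivative R (F * G) =
      PowerSeries.derivative R F * G + F * PowerSeries.derivative R G := by
  rw [Derivation.leibniz, smul_eq_mul, smul_eq_mul, mul_comm G, add_comm]

private theorem T2_cast_ne (n : ℕ) : ((n : PowerSeries ℂ) + 1) ≠ 0 := by
  have h1 : ((n : PowerSeries ℂ) + 1) = PowerSeries.C ((n : ℂ) + 1) := by
    rw [map_add, map_natCast, map_one]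
  rw [h1]
  intro h3
  rw [map_eq_zero_iff _ PowerSeries.C_injective] at h3
  exact Nat.cast_add_one_ne_zero n h3

private theorem T2_ext {F G : PowerSeries (PowerSeries ℂ)}
    (hD : PowerSeries.derivative (PowerSeries ℂ) F = PowerSeries.derivative (PowerSeries ℂ) G)
    (hc : PowerSeries.constantCoeff F = PowerSeries.constantCoeff G) : F = G := by
  refine PowerSeries.ext fun n => ?_
  rcases n with - | n
  · rw [PowerSeries.coeff_zero_eq_constantCoeff_apply, PowerSeries.coeff_zero_eq_constantCoeff_apply]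
    exact hc
  · have h := congrArg (PowerSeries.coeff n) hD
    rw [PowerSeries.coeff_derivative, PowerSeries.coeff_derivative] at h
    exact mul_right_cancel₀ (T2_cast_ne n) h

theorem t2_congr {f g : ℂ × ℂ → ℂ} (h : ∀ᶠ u in 𝓝 (0 : ℂ × ℂ), f u = g u) : t2 f = t2 g := by
  unfold t2
  congr 1
  funext n
  congr 1
  exact t1_congr (T2_slice_tendsto.eventually (iterate_dy_congr h n))

theorem constantCoeff_t2 (f : ℂ × ℂ → ℂ) :
    PowerSeries.constantCoeff (t2 f) = t1 (fun x => f (x, 0)) := by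
  rw [← PowerSeries.coeff_zero_eq_constantCoeff_apply, T2_coeff]
  simp

theorem t2_add {f g : ℂ × ℂ → ℂ} (hf : AnalyticAt ℂ f 0) (hg : AnalyticAt ℂ g 0) :
    t2 (fun u => f u + g u) = t2 f + t2 g := by
  have key : ∀ (n : ℕ) (f g : ℂ × ℂ → ℂ), AnalyticAt ℂ f 0 → AnalyticAt ℂ g 0 →
      ∀ᶠ u in 𝓝 (0 : ℂ × ℂ), (dy^[n] fun u => f u + g u) u = (dy^[n] f) u + (dy^[n] g) u := by
    intro n
    induction n with
    | zero => intro f g _ _; exact Filter.Eventually.of_forall fun u => rfl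
    | succ n ih =>
      intro f g hf hg
      have h1 := iterate_dy_congr (dy_add hf hg) n
      have h2 := ih (dy f) (dy g) (analyticAt_dy hf) (analyticAt_dy hg)
      filter_upwards [h1, h2] with u hu1 hu2
      rw [Function.iterate_succ_apply, Function.iterate_succ_apply, Function.iterate_succ_apply]
      exact hu1.trans hu2
  refine PowerSeries.ext fun n => ?_
  rw [map_add, T2_coeff, T2_coeff, T2_coeff, ← mul_add]
  congr 1
  rw [← t1_add (T2_slice (analyticAt_iterate_dy hf n)) (T2_slice (analyticAt_iterate_dy hg n))]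
  exact t1_congr (T2_slice_tendsto.eventually (key n f g hf hg))

theorem t2_dy {f : ℂ × ℂ → ℂ} (hf : AnalyticAt ℂ f 0) :
    PowerSeries.derivative (PowerSeries ℂ) (t2 f) = t2 (dy f) := by
  refine PowerSeries.ext fun n => ?_
  rw [PowerSeries.coeff_derivative, T2_coeff, T2_coeff, Function.iterate_succ_apply]
  have h1 : ((n : PowerSeries ℂ) + 1) = PowerSeries.C ((n : ℂ) + 1) := by
    rw [map_add, map_natCast, map_one]
  have h2 : PowerSeries.C (((n + 1).factorial : ℂ)⁻¹) * PowerSeries.C ((n : ℂ) + 1) =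
      PowerSeries.C ((n.factorial : ℂ)⁻¹) := by
    rw [← map_mul]
    congr 1
    rw [Nat.factorial_succ, Nat.cast_mul, Nat.cast_add, Nat.cast_one, mul_inv]
    have h3 : (n : ℂ) + 1 ≠ 0 := by exact_mod_cast Nat.succ_ne_zero n
    field_simp
  rw [h1, mul_right_comm, h2]

theorem t2_dx {f : ℂ × ℂ → ℂ} (hf : AnalyticAt ℂ f 0) : pX (t2 f) = t2 (dx f) := by
  refine PowerSeries.ext fun n => ?_
  unfold pX
  rw [PowerSeries.coeff_mk, T2_coeff, T2_coeff, ← PowerSeries.smul_eq_C_mul, ← PowerSeries.smul_eq_C_mul,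
    Derivation.map_smul]
  congr 1
  rw [t1_deriv (T2_slice (analyticAt_iterate_dy hf n))]
  refine t1_congr ?_
  have h1 := T2_slice_tendsto.eventually (dx_iterate_dy_comm hf n)
  have h2 := T2_slice_tendsto.eventually (analyticAt_iterate_dy hf n).eventually_analyticAt
  filter_upwards [h1, h2] with x hx1 hx2
  rw [← hx1]
  exact deriv_slice_x (p := (x, 0)) hx2

theorem t2_mul {f g : ℂ × ℂ → ℂ} (hf : AnalyticAt ℂ f 0) (hg : AnalyticAt ℂ g 0) :
    t2 (fun u => f u * g u) = t2 f * t2 g := by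
  have key : ∀ (n : ℕ) (f g : ℂ × ℂ → ℂ), AnalyticAt ℂ f 0 → AnalyticAt ℂ g 0 →
      PowerSeries.coeff n (t2 fun u => f u * g u) = PowerSeries.coeff n (t2 f * t2 g) := by
    intro n
    induction n with
    | zero =>
      intro f g hf hg
      rw [PowerSeries.coeff_zero_eq_constantCoeff_apply, PowerSeries.coeff_zero_eq_constantCoeff_apply,
        map_mul, constantCoeff_t2, constantCoeff_t2, constantCoeff_t2]
      exact t1_mul (T2_slice hf) (T2_slice hg)
    | succ n ih =>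
      intro f g hf hg
      have h1 : PowerSeries.derivative (PowerSeries ℂ) (t2 fun u => f u * g u) =
          t2 (fun u => dy f u * g u) + t2 (fun u => f u * dy g u) := by
        have hfg : AnalyticAt ℂ (fun u => f u * g u) 0 := hf.mul hg
        rw [t2_dy hfg, t2_congr (dy_mul hf hg)]
        exact t2_add ((analyticAt_dy hf).mul hg) (hf.mul (analyticAt_dy hg))
      have h2 : PowerSeries.derivative (PowerSeries ℂ) (t2 f * t2 g) =
          t2 (dy f) * t2 g + t2 f * t2 (dy g) := by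
        rw [T2_der_mul, t2_dy hf, t2_dy hg]
      have h3 : PowerSeries.coeff n (PowerSeries.derivative (PowerSeries ℂ) (t2 fun u => f u * g u)) =
          PowerSeries.coeff n (PowerSeries.derivative (PowerSeries ℂ) (t2 f * t2 g)) := by
        rw [h1, h2, map_add, map_add, ih _ _ (analyticAt_dy hf) hg, ih _ _ hf (analyticAt_dy hg)]
      rw [PowerSeries.coeff_derivative, PowerSeries.coeff_derivative] at h3
      exact mul_right_cancel₀ (T2_cast_ne n) h3
  exact PowerSeries.ext fun n => key n f g hf hg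

private theorem T2_zero : t2 (fun _ => (0 : ℂ)) = 0 := by
  have h1 : dy (fun _ => (0 : ℂ)) = fun _ => (0 : ℂ) := by
    funext u
    unfold dy
    simp
  refine PowerSeries.ext fun n => ?_
  rw [T2_coeff, Function.iterate_fixed h1 n, t1_const, map_zero, mul_zero, map_zero]

/-- Functions of the first variable. -/
theorem t2_of_fst {f : ℂ → ℂ} (hf : AnalyticAt ℂ f 0) :
    t2 (fun u => f u.1) = PowerSeries.C (t1 f) := by
  refine T2_ext ?_ ?_
  · have hF : AnalyticAt ℂ (fun u : ℂ × ℂ => f u.1) 0 := by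
      have h : AnalyticAt ℂ (fun u : ℂ × ℂ => u.1) 0 := analyticAt_fst
      exact AnalyticAt.comp (g := f) (f := fun u : ℂ × ℂ => u.1) hf h
    have h1 : ∀ᶠ u in 𝓝 (0 : ℂ × ℂ), dy (fun u => f u.1) u = (fun _ => (0 : ℂ)) u := by
      filter_upwards [hF.eventually_analyticAt] with u hu
      have h5 := deriv_slice_y hu
      have h6 : deriv (fun _ : ℂ => f u.1) u.2 = 0 := deriv_const _ _
      exact h5.symm.trans h6
    rw [t2_dy hF, t2_congr h1, T2_zero, PowerSeries.derivative_C]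
  · rw [constantCoeff_t2, PowerSeries.constantCoeff_C]

theorem t2_const (c : ℂ) : t2 (fun _ => c) = PowerSeries.C (PowerSeries.C c) := by
  have h := t2_of_fst (f := fun _ => c) analyticAt_const
  rw [h, t1_const]

theorem t2_eq_zero_iff {f : ℂ × ℂ → ℂ} (hf : AnalyticAt ℂ f 0) :
    t2 f = 0 ↔ ∀ᶠ u in 𝓝 (0 : ℂ × ℂ), f u = 0 := by
  constructor
  · intro h
    obtain ⟨r, hr, hball⟩ := Metric.eventually_nhds_iff_ball.1 hf.eventually_analyticAt
    have hmem : ∀ x y : ℂ, x ∈ Metric.ball (0 : ℂ) r → y ∈ Metric.ball (0 : ℂ) r →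
        (x, y) ∈ Metric.ball (0 : ℂ × ℂ) r := by
      intro x y hx hy
      rw [Metric.mem_ball, Prod.dist_eq]
      exact max_lt hx hy
    have hpre : IsPreconnected (Metric.ball (0 : ℂ) r) := (convex_ball _ _).isPreconnected
    have h0 : (0 : ℂ) ∈ Metric.ball (0 : ℂ) r := Metric.mem_ball_self hr
    have hcoef : ∀ n : ℕ, ∀ᶠ x in 𝓝 (0 : ℂ), (dy^[n] f) (x, 0) = 0 := by
      intro n
      have h1 : PowerSeries.C ((n.factorial : ℂ)⁻¹) * t1 (fun x => (dy^[n] f) (x, 0)) = 0 := by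
        rw [← T2_coeff, h, map_zero]
      have h2 : PowerSeries.C ((n.factorial : ℂ)⁻¹) ≠ 0 := by
        intro h3
        rw [map_eq_zero_iff _ PowerSeries.C_injective, inv_eq_zero] at h3
        exact Nat.factorial_ne_zero n (by exact_mod_cast h3)
      have h3 := (mul_eq_zero.1 h1).resolve_left h2
      exact (t1_eq_zero_iff (T2_slice (analyticAt_iterate_dy hf n))).1 h3
    have haxis : ∀ n : ℕ, ∀ x ∈ Metric.ball (0 : ℂ) r, (dy^[n] f) (x, 0) = 0 := by
      intro n x hx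
      have h1 : AnalyticOnNhd ℂ (fun x : ℂ => (dy^[n] f) (x, 0)) (Metric.ball 0 r) := by
        intro x hx
        exact T2_slice (analyticAt_iterate_dy (hball _ (hmem x 0 hx h0)) n)
      exact h1.eqOn_zero_of_preconnected_of_eventuallyEq_zero hpre h0 (hcoef n) hx
    have hall : ∀ x ∈ Metric.ball (0 : ℂ) r, ∀ y ∈ Metric.ball (0 : ℂ) r, f (x, y) = 0 := by
      intro x hx y hy
      have h1 : AnalyticOnNhd ℂ (fun y : ℂ => f (x, y)) (Metric.ball 0 r) := by
        intro y hy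
        exact T2_slice_y (hball _ (hmem x y hx hy))
      have h2 : t1 (fun y : ℂ => f (x, y)) = 0 := by
        refine PowerSeries.ext fun n => ?_
        unfold t1
        rw [PowerSeries.coeff_mk, map_zero]
        have h3 := iterate_dy_slice (p := (x, 0)) (hball _ (hmem x 0 hx h0)) n
        rw [haxis n x hx] at h3
        rw [← h3, zero_div]
      have h3 := (t1_eq_zero_iff (h1 0 h0)).1 h2
      exact h1.eqOn_zero_of_preconnected_of_eventuallyEq_zero hpre h0 h3 hy
    filter_upwards [Metric.ball_mem_nhds (0 : ℂ × ℂ) hr] with u hu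
    rw [Metric.mem_ball, Prod.dist_eq, max_lt_iff] at hu
    exact hall u.1 hu.1 u.2 hu.2
  · intro h
    have h1 : ∀ᶠ u in 𝓝 (0 : ℂ × ℂ), f u = (fun _ => (0 : ℂ)) u := h
    rw [t2_congr h1, T2_zero]

theorem t2_pow {f : ℂ × ℂ → ℂ} (hf : AnalyticAt ℂ f 0) (n : ℕ) :
    t2 (fun u => f u ^ n) = t2 f ^ n := by
  induction n with
  | zero =>
    simp only [pow_zero]
    rw [t2_const, map_one, map_one]
  | succ n ih =>
    have h1 : (fun u => f u ^ (n + 1)) = fun u => f u ^ n * f u := by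
      funext u
      rw [pow_succ]
    have hn : AnalyticAt ℂ (fun u => f u ^ n) 0 := hf.pow n
    rw [h1, t2_mul hn hf, ih, pow_succ]

theorem t2_eval {n : ℕ} {ψ : ℂ × ℂ → Fin n → ℂ} (hψ : AnalyticAt ℂ ψ 0) (Q : MvPolynomial (Fin n) ℂ) :
    t2 (fun u => MvPolynomial.eval (ψ u) Q) =
      MvPolynomial.eval₂ ((PowerSeries.C : PowerSeries ℂ →+* PowerSeries (PowerSeries ℂ)).comp
        (PowerSeries.C : ℂ →+* PowerSeries ℂ)) (fun i => t2 (fun u => ψ u i)) Q := by
  have hi : ∀ i, AnalyticAt ℂ (fun u => ψ u i) 0 := fun i => analyticAt_pi_iff.1 hψ i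
  have key : ∀ Q : MvPolynomial (Fin n) ℂ, AnalyticAt ℂ (fun u => MvPolynomial.eval (ψ u) Q) 0 ∧
      t2 (fun u => MvPolynomial.eval (ψ u) Q) =
      MvPolynomial.eval₂ ((PowerSeries.C : PowerSeries ℂ →+* PowerSeries (PowerSeries ℂ)).comp
        (PowerSeries.C : ℂ →+* PowerSeries ℂ)) (fun i => t2 (fun u => ψ u i)) Q := by
    intro Q
    induction Q using MvPolynomial.induction_on with
    | C a =>
      simp only [MvPolynomial.eval_C]
      refine ⟨analyticAt_const, ?_⟩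
      rw [t2_const, MvPolynomial.eval₂_C]
      rfl
    | add p q hp hq =>
      simp only [map_add]
      refine ⟨hp.1.add hq.1, ?_⟩
      rw [t2_add hp.1 hq.1, hp.2, hq.2, MvPolynomial.eval₂_add]
    | mul_X p i hp =>
      simp only [map_mul, MvPolynomial.eval_X]
      refine ⟨hp.1.mul (hi i), ?_⟩
      rw [t2_mul hp.1 (hi i), hp.2, MvPolynomial.eval₂_mul, MvPolynomial.eval₂_X]
  exact (key Q).2

end Pool.Agent.H68.KR

end
end

section

/-!
# KR HD: Laurent series with coefficients in Laurent series, their derivations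

`LL = ℂ((X))((T))`.  `emb` embeds `ℂ⟦X⟧⟦T⟧`.  `vT` is the order in `T`.  (Do not use `Algebra ℂ LL` or
`Derivation`, there are several instances; derivations are additive maps with the Leibniz rule.)

Proofs.
* `exists_mapD` (coefficientwise `a_n ↦ δ a_n`, the support gets smaller).  Leibniz: `HahnSeries.coeff_mul_left'`,
  `HahnSeries.coeff_mul_right'` (sum over the antidiagonal of larger well-founded sets),
  `δ (∑ a_i b_j) = ∑ (δ a_i b_j + a_i δ b_j)`.
* `exists_deriv`.  First the Euler derivation `θ : a_n ↦ n a_n` in the same way (`n = i + j` on the antidiagonal),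
  then `D F = single (-1) 1 * θ F` (`HahnSeries.coeff_single_mul_add`: `(single (-1) 1 * G).coeff n = G.coeff (n + 1)`).
* `DT_emb`, `DX_emb`: compare coefficients (`HahnSeries.ofPowerSeries_apply`, `LaurentSeries.coeff_coe`,
  `PowerSeries.coeff_derivative`; indices `n < -1`: both sides `0`; `n = -1`: the factor `n + 1` is `0`).
* `vT_nonneg_iff`: `HahnSeries.addVal_apply`, `HahnSeries.orderTop`.  `vT_DT_nonneg`, `vT_DX_nonneg` follow.
* `vT_emb`: the least index with a non-zero coefficient.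
-/

set_option autoImplicit false

open Topology Filter

noncomputable section

namespace Pool.Agent.H68.KR

section

variable {R : Type} [CommRing R]

/-- The derivation of `R((T))` given by a derivation of `R`. -/
theorem exists_mapD (δ : R →+ R) (hδ : ∀ a b, δ (a * b) = a * δ b + b * δ a) :
    ∃ D : HahnSeries ℤ R →+ HahnSeries ℤ R, (∀ F n, (D F).coeff n = δ (F.coeff n)) ∧
      ∀ F G, D (F * G) = F * D G + G * D F := by
  refine ⟨{ toFun := fun F => F.map δ, map_zero' := ?_, map_add' := ?_ }, fun F n => ?_,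
    fun F G => ?_⟩
  · ext n
    simp
  · intro F G
    ext n
    simp
  · rfl
  · have hs : ∀ H : HahnSeries ℤ R, (H.map δ).support ⊆ H.support := by
      intro H n hn
      rw [HahnSeries.mem_support] at hn ⊢
      intro h0
      apply hn
      rw [HahnSeries.map_coeff, h0, map_zero]
    ext n
    have h1 : (F * G.map δ).coeff n = _ :=
      HahnSeries.coeff_mul_right' (x := F) (a := n) G.isPWO_support (hs G)
    have h2 : (F.map δ * G).coeff n = _ :=
      HahnSeries.coeff_mul_left' (y := G) (a := n) F.isPWO_support (hs F)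
    change ((F * G).map δ).coeff n = (F * G.map δ + G * F.map δ).coeff n
    rw [mul_comm G (F.map δ), HahnSeries.coeff_add, h1, h2, HahnSeries.map_coeff,
      HahnSeries.coeff_mul, map_sum, ← Finset.sum_add_distrib]
    refine Finset.sum_congr rfl fun ij _ => ?_
    rw [hδ, HahnSeries.map_coeff, HahnSeries.map_coeff, mul_comm (G.coeff ij.2)]

/-- The Euler derivation. -/
private theorem X_euler : ∃ D : HahnSeries ℤ R →+ HahnSeries ℤ R,
    (∀ F (n : ℤ), (D F).coeff n = ((n : ℤ) : R) * F.coeff n) ∧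
      ∀ F G, D (F * G) = F * D G + G * D F := by
  have hp : ∀ F : HahnSeries ℤ R, (Function.support fun n : ℤ => ((n : ℤ) : R) * F.coeff n).IsPWO := by
    intro F
    refine F.isPWO_support.mono fun n hn => ?_
    rw [HahnSeries.mem_support]
    intro h0
    apply hn
    change ((n : ℤ) : R) * F.coeff n = 0
    rw [h0, mul_zero]
  refine ⟨AddMonoidHom.mk' (fun F => HahnSeries.mk (fun n : ℤ => ((n : ℤ) : R) * F.coeff n) (hp F))
    ?_, fun F n => rfl, fun F G => ?_⟩
  · intro F G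
    ext n
    simp [mul_add]
  · set θ : HahnSeries ℤ R → HahnSeries ℤ R := fun F => ⟨fun n : ℤ => ((n : ℤ) : R) * F.coeff n, hp F⟩
      with hθ
    have hc : ∀ F n, (θ F).coeff n = ((n : ℤ) : R) * F.coeff n := fun F n => rfl
    have hs : ∀ H : HahnSeries ℤ R, (θ H).support ⊆ H.support := by
      intro H n hn
      rw [HahnSeries.mem_support] at hn ⊢
      intro h0
      apply hn
      rw [hc, h0, mul_zero]
    ext n
    have h1 : (F * θ G).coeff n = _ :=
      HahnSeries.coeff_mul_right' (x := F) (a := n) G.isPWO_support (hs G)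
    have h2 : (θ F * G).coeff n = _ :=
      HahnSeries.coeff_mul_left' (y := G) (a := n) F.isPWO_support (hs F)
    change (θ (F * G)).coeff n = (F * θ G + G * θ F).coeff n
    rw [mul_comm G (θ F), HahnSeries.coeff_add, h1, h2, hc, HahnSeries.coeff_mul, Finset.mul_sum,
      ← Finset.sum_add_distrib]
    refine Finset.sum_congr rfl fun ij hij => ?_
    have hn : ij.1 + ij.2 = n := (Finset.mem_antidiagonal.1 hij).2.2
    rw [hc, hc, ← hn]
    push_cast
    ring

/-- The derivation `d/dT` of `R((T))`. -/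
theorem exists_deriv : ∃ D : HahnSeries ℤ R →+ HahnSeries ℤ R,
    (∀ F (n : ℤ), (D F).coeff n = ((n + 1 : ℤ) : R) * F.coeff (n + 1)) ∧
      ∀ F G, D (F * G) = F * D G + G * D F := by
  obtain ⟨θ, hθ, hθm⟩ := X_euler (R := R)
  refine ⟨(AddMonoidHom.mulLeft (HahnSeries.single (-1 : ℤ) (1 : R))).comp θ, fun F n => ?_,
    fun F G => ?_⟩
  · change (HahnSeries.single (-1 : ℤ) (1 : R) * θ F).coeff n = _
    have h := HahnSeries.coeff_single_mul_add (r := (1 : R)) (x := θ F) (a := n + 1) (b := (-1 : ℤ))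
    rw [show n + 1 + (-1 : ℤ) = n by ring] at h
    rw [h, hθ, one_mul]
  · change HahnSeries.single (-1 : ℤ) (1 : R) * θ (F * G) =
      F * (HahnSeries.single (-1 : ℤ) (1 : R) * θ G) + G * (HahnSeries.single (-1 : ℤ) (1 : R) * θ F)
    rw [hθm]
    ring

end

/-- Laurent series in `X`. -/
abbrev L1 : Type := HahnSeries ℤ ℂ

/-- Laurent series in `T` whose coefficients are Laurent series in `X`. -/
abbrev LL : Type := HahnSeries ℤ L1

/-- The embedding `ℂ⟦X⟧⟦T⟧ → ℂ((X))((T))`. -/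
def emb : PowerSeries (PowerSeries ℂ) →+* LL :=
  (HahnSeries.ofPowerSeries ℤ L1).comp (PowerSeries.map (HahnSeries.ofPowerSeries ℤ ℂ))

/-- The constants. -/
def cst : ℂ →+* LL := (HahnSeries.C : L1 →+* LL).comp (HahnSeries.C : ℂ →+* L1)

/-- The first variable `X`. -/
def xx : LL := HahnSeries.C (HahnSeries.single 1 1)

/-- The order in `T`. -/
def vT : AddValuation LL (WithTop ℤ) := HahnSeries.addVal ℤ L1

/-- The derivation `d/dT`. -/
def DT : LL →+ LL := (exists_deriv (R := L1)).choose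

/-- The derivation `d/dX`. -/
def DX : LL →+ LL :=
  (exists_mapD (R := L1) (exists_deriv (R := ℂ)).choose (exists_deriv (R := ℂ)).choose_spec.2).choose

theorem DT_coeff (F : LL) (n : ℤ) : (DT F).coeff n = ((n + 1 : ℤ) : L1) * F.coeff (n + 1) :=
  (exists_deriv (R := L1)).choose_spec.1 F n

theorem DT_mul (F G : LL) : DT (F * G) = F * DT G + G * DT F :=
  (exists_deriv (R := L1)).choose_spec.2 F G

theorem DX_coeff (F : LL) (n k : ℤ) :
    ((DX F).coeff n).coeff k = ((k + 1 : ℤ) : ℂ) * (F.coeff n).coeff (k + 1) := by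
  have h1 := (exists_mapD (R := L1) (exists_deriv (R := ℂ)).choose
    (exists_deriv (R := ℂ)).choose_spec.2).choose_spec.1 F n
  have h2 := (exists_deriv (R := ℂ)).choose_spec.1 (F.coeff n) k
  rw [← h2, ← h1]
  rfl

theorem DX_mul (F G : LL) : DX (F * G) = F * DX G + G * DX F :=
  (exists_mapD (R := L1) (exists_deriv (R := ℂ)).choose
    (exists_deriv (R := ℂ)).choose_spec.2).choose_spec.2 F G

private theorem X_coeff_of {R : Type} [CommRing R] (F : PowerSeries R) (n : ℤ) :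
    (HahnSeries.ofPowerSeries ℤ R F).coeff n = if n < 0 then 0 else PowerSeries.coeff n.natAbs F :=
  PowerSeries.coeff_coe F n

private theorem X_coeff_emb (F : PowerSeries (PowerSeries ℂ)) (n : ℤ) :
    (emb F).coeff n = if n < 0 then 0 else
      HahnSeries.ofPowerSeries ℤ ℂ (PowerSeries.coeff n.natAbs F) := by
  change (HahnSeries.ofPowerSeries ℤ L1 (PowerSeries.map (HahnSeries.ofPowerSeries ℤ ℂ) F)).coeff n = _
  rw [X_coeff_of, PowerSeries.coeff_map]

theorem emb_injective : Function.Injective emb := by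
  have h1 : Function.Injective (HahnSeries.ofPowerSeries ℤ L1) := HahnSeries.ofPowerSeries_injective
  have h2 : Function.Injective (HahnSeries.ofPowerSeries ℤ ℂ) := HahnSeries.ofPowerSeries_injective
  have h3 : Function.Injective (PowerSeries.map (HahnSeries.ofPowerSeries ℤ ℂ)) := by
    intro F G h
    ext n : 1
    apply h2
    have := congrArg (PowerSeries.coeff n) h
    rwa [PowerSeries.coeff_map, PowerSeries.coeff_map] at this
  exact h1.comp h3

theorem emb_C_C (c : ℂ) : emb (PowerSeries.C (PowerSeries.C c)) = cst c := by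
  change HahnSeries.ofPowerSeries ℤ L1 (PowerSeries.map (HahnSeries.ofPowerSeries ℤ ℂ)
    (PowerSeries.C (PowerSeries.C c))) = HahnSeries.C (HahnSeries.C c)
  rw [PowerSeries.map_C, HahnSeries.ofPowerSeries_C, HahnSeries.ofPowerSeries_C]

theorem emb_C_X : emb (PowerSeries.C PowerSeries.X) = xx := by
  change HahnSeries.ofPowerSeries ℤ L1 (PowerSeries.map (HahnSeries.ofPowerSeries ℤ ℂ)
    (PowerSeries.C PowerSeries.X)) = HahnSeries.C (HahnSeries.single 1 1)
  rw [PowerSeries.map_C, HahnSeries.ofPowerSeries_C, HahnSeries.ofPowerSeries_X]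

private theorem X_coeff_cst (c : ℂ) (n : ℤ) :
    (cst c).coeff n = if n = 0 then HahnSeries.C c else 0 := by
  change (HahnSeries.single (0 : ℤ) (HahnSeries.single (0 : ℤ) c)).coeff n = _
  rw [HahnSeries.coeff_single]
  split_ifs <;> rfl

theorem DT_cst (c : ℂ) : DT (cst c) = 0 := by
  refine HahnSeries.ext (funext fun n => ?_)
  rw [DT_coeff, X_coeff_cst, HahnSeries.coeff_zero]
  split_ifs with h
  · rw [h, Int.cast_zero, zero_mul]
  · rw [mul_zero]

theorem DX_cst (c : ℂ) : DX (cst c) = 0 := by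
  refine HahnSeries.ext (funext fun n => HahnSeries.ext (funext fun k => ?_))
  rw [DX_coeff, X_coeff_cst, HahnSeries.coeff_zero, HahnSeries.coeff_zero]
  split_ifs with h
  · change _ * (HahnSeries.single (0 : ℤ) c).coeff (k + 1) = 0
    rw [HahnSeries.coeff_single]
    split_ifs with h'
    · rw [h', Int.cast_zero, zero_mul]
    · rw [mul_zero]
  · rw [HahnSeries.coeff_zero, mul_zero]

theorem DT_emb (F : PowerSeries (PowerSeries ℂ)) :
    DT (emb F) = emb (PowerSeries.derivative (PowerSeries ℂ) F) := by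
  refine HahnSeries.ext (funext fun n => ?_)
  rw [DT_coeff, X_coeff_emb, X_coeff_emb]
  rcases lt_trichotomy n (-1) with h | h | h
  · rw [if_pos (by omega), if_pos (by omega), mul_zero]
  · subst h
    rw [if_pos (by omega : (-1 : ℤ) < 0)]
    norm_num
  · obtain ⟨m, rfl⟩ := Int.eq_ofNat_of_zero_le (by omega : 0 ≤ n)
    rw [if_neg (by omega), if_neg (by omega)]
    have e1 : ((m : ℤ) + 1).natAbs = m + 1 := by omega
    have e2 : ((m : ℤ)).natAbs = m := by omega
    rw [e1, e2, PowerSeries.coeff_derivative, map_mul, mul_comm]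
    congr 1
    push_cast
    rw [map_natCast]

theorem DX_emb (F : PowerSeries (PowerSeries ℂ)) : DX (emb F) = emb (pX F) := by
  refine HahnSeries.ext (funext fun n => HahnSeries.ext (funext fun k => ?_))
  rw [DX_coeff, X_coeff_emb, X_coeff_emb]
  split_ifs with h0
  · rw [HahnSeries.coeff_zero, HahnSeries.coeff_zero, mul_zero]
  rw [pX, PowerSeries.coeff_mk, X_coeff_of, X_coeff_of]
  rcases lt_trichotomy k (-1) with h | h | h
  · rw [if_pos (by omega), if_pos (by omega), mul_zero]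
  · subst h
    rw [if_pos (by omega : (-1 : ℤ) < 0)]
    norm_num
  · obtain ⟨m, rfl⟩ := Int.eq_ofNat_of_zero_le (by omega : 0 ≤ k)
    rw [if_neg (by omega), if_neg (by omega)]
    have e1 : ((m : ℤ) + 1).natAbs = m + 1 := by omega
    have e2 : ((m : ℤ)).natAbs = m := by omega
    rw [e1, e2, PowerSeries.coeff_derivative, mul_comm]
    push_cast
    ring

theorem vT_nonneg_iff (F : LL) : 0 ≤ vT F ↔ ∀ n : ℤ, n < 0 → F.coeff n = 0 := by
  rw [vT, HahnSeries.addVal_apply]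
  constructor
  · intro h n hn
    by_contra hc
    have h1 : F.orderTop ≤ (n : WithTop ℤ) := HahnSeries.orderTop_le_of_coeff_ne_zero hc
    have h2 : (0 : WithTop ℤ) ≤ (n : WithTop ℤ) := h.trans h1
    have h3 : (0 : ℤ) ≤ n := by exact_mod_cast h2
    omega
  · intro h
    by_cases hF : F = 0
    · subst hF
      rw [HahnSeries.orderTop_zero]
      exact le_top
    · rw [HahnSeries.orderTop_of_ne_zero hF]
      by_contra hc
      rw [not_le] at hc
      have h3 : F.isWF_support.min (HahnSeries.support_nonempty_iff.2 hF) < (0 : ℤ) := by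
        exact_mod_cast hc
      exact (Set.IsWF.min_mem F.isWF_support (HahnSeries.support_nonempty_iff.2 hF)) (h _ h3)

theorem vT_DT_nonneg {F : LL} (h : 0 ≤ vT F) : 0 ≤ vT (DT F) := by
  rw [vT_nonneg_iff] at h ⊢
  intro n hn
  rw [DT_coeff]
  rcases lt_or_eq_of_le (by omega : n + 1 ≤ 0) with h1 | h1
  · rw [h _ h1, mul_zero]
  · rw [h1, Int.cast_zero, zero_mul]

theorem vT_DX_nonneg {F : LL} (h : 0 ≤ vT F) : 0 ≤ vT (DX F) := by
  rw [vT_nonneg_iff] at h ⊢
  intro n hn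
  refine HahnSeries.ext (funext fun k => ?_)
  rw [DX_coeff, h n hn, HahnSeries.coeff_zero, HahnSeries.coeff_zero, mul_zero]

theorem vT_C {a : L1} (ha : a ≠ 0) : vT (HahnSeries.C a) = 0 := by
  rw [vT, HahnSeries.addVal_apply]
  exact HahnSeries.orderTop_single ha

theorem vT_emb_nonneg (F : PowerSeries (PowerSeries ℂ)) : 0 ≤ vT (emb F) := by
  rw [vT_nonneg_iff]
  intro n hn
  rw [X_coeff_emb, if_pos hn]

theorem vT_emb {F : PowerSeries (PowerSeries ℂ)} {n : ℕ} (h : F.order = n) : vT (emb F) = (n : ℤ) := by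
  rw [PowerSeries.order_eq_nat] at h
  obtain ⟨h1, h2⟩ := h
  have hinj : Function.Injective (HahnSeries.ofPowerSeries ℤ ℂ) := HahnSeries.ofPowerSeries_injective
  have hc : (emb F).coeff (n : ℤ) ≠ 0 := by
    rw [X_coeff_emb, if_neg (by omega), Int.natAbs_natCast]
    exact (map_ne_zero_iff _ hinj).2 h1
  rw [vT, HahnSeries.addVal_apply]
  apply le_antisymm
  · exact HahnSeries.orderTop_le_of_coeff_ne_zero hc
  · have hF : emb F ≠ 0 := by
      intro h0
      apply hc
      rw [h0, HahnSeries.coeff_zero]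
    rw [HahnSeries.orderTop_of_ne_zero hF]
    by_contra hlt
    rw [not_le] at hlt
    have h3 : (emb F).isWF_support.min (HahnSeries.support_nonempty_iff.2 hF) < (n : ℤ) := by
      exact_mod_cast hlt
    have h4 := Set.IsWF.min_mem (emb F).isWF_support (HahnSeries.support_nonempty_iff.2 hF)
    apply h4
    rw [X_coeff_emb]
    split_ifs with h5
    · rfl
    · rw [h2 _ (by omega), map_zero]

theorem vT_emb_of_constantCoeff_ne {F : PowerSeries (PowerSeries ℂ)}
    (h : PowerSeries.constantCoeff F ≠ 0) : vT (emb F) = 0 := by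
  have h1 : F.order = (0 : ℕ) := by
    rw [PowerSeries.order_eq_nat]
    refine ⟨?_, fun i hi => absurd hi (Nat.not_lt_zero i)⟩
    rw [PowerSeries.coeff_zero_eq_constantCoeff_apply]
    exact h
  exact vT_emb h1

end Pool.Agent.H68.KR

end
end

section

/-!
# MQ/SNPt: the exit of a saddle-node, pointwise algebra

`Z` is the derivative of the potential `z = 1 / ω`, `θ` is `div v * ζ'`, `μ` is `Y' / Y`.
-/

set_option autoImplicit false

open Complex ComplexConjugate

namespace Pool.Agent.MQ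

theorem re_conj_mul_mul (Z ω : ℂ) : (conj (Z * ω) * Z).re = ‖Z‖ ^ 2 * ω.re := by
  rw [Complex.sq_norm, Complex.normSq_apply]
  simp only [map_mul, mul_re, mul_im, conj_re, conj_im]
  ring

theorem im_mul_conj (Z ω : ℂ) : (Z * ω * conj Z).im = ‖Z‖ ^ 2 * ω.im := by
  rw [Complex.sq_norm, Complex.normSq_apply]
  simp only [mul_re, mul_im, conj_re, conj_im]
  ring

theorem sn_point {ω Z θ μ : ℂ} {c₁ c₂ H₁ H₂ C Hm : ℝ} (hω : ω ≠ 0) (h1 : 0 ≤ c₁) (h2 : 0 ≤ c₂) (h2' : c₂ ≤ 1) (hH1 : 0 ≤ H₁) (hH2 : 0 ≤ H₂)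
    (hHm : H₂ ≤ Hm) (hC : 0 ≤ C) (hθ : H₁ ≠ 0 → c₂ ≠ 0 → ‖θ - Z‖ ≤ C * ‖ω‖ * ‖Z‖) (hμ : H₁ ≠ 0 → H₂ ≠ 0 → ‖μ - Z‖ ≤ C * ‖ω‖ * ‖Z‖)
    (hpos : H₂ ≠ 0 → c₁ ≠ 0 → 0 ≤ (conj μ * θ).re) :
    ip ((c₂ : ℂ) * ((H₁ : ℂ) * conj (Z * ω)) + (c₁ : ℂ) * (-(H₂ : ℂ) * conj μ)) (conj θ) ≤
      c₂ * (H₁ * (‖Z‖ ^ 2 * ω.re)) + (-ω.im / ‖ω‖ ^ 2) * (-(H₁ * H₂) * (Z * ω * conj μ).im) + (C + Hm * C ^ 2) * (H₁ * ‖Z * ω‖ ^ 2) := by
  have hn : 0 < ‖ω‖ := norm_pos_iff.2 hω
  have e1 : ip ((c₂ : ℂ) * ((H₁ : ℂ) * conj (Z * ω)) + (c₁ : ℂ) * (-(H₂ : ℂ) * conj μ)) (conj θ) =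
      c₂ * (H₁ * (conj (Z * ω) * θ).re) - c₁ * (H₂ * (conj μ * θ).re) := by
    simp only [ip, map_mul, mul_re, mul_im, conj_re, conj_im, add_re, add_im, ofReal_re, ofReal_im, neg_re, neg_im]
    ring
  have e2 : (conj (Z * ω) * θ).re = ‖Z‖ ^ 2 * ω.re + (conj (Z * ω) * (θ - Z)).re := by
    rw [← re_conj_mul_mul, ← add_re, ← mul_add]
    congr 2
    ring
  have e3 : (Z * ω * conj μ).im = ‖Z‖ ^ 2 * ω.im + (Z * ω * conj (μ - Z)).im := by
    rw [← im_mul_conj, ← add_im, ← mul_add, ← map_add]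
    congr 3
    ring
  have hp : 0 ≤ c₁ * (H₂ * (conj μ * θ).re) := by
    by_cases ha : H₂ = 0
    · rw [ha]; simp
    by_cases hb : c₁ = 0
    · rw [hb]; simp
    exact mul_nonneg h1 (mul_nonneg hH2 (hpos ha hb))
  have hA : c₂ * (H₁ * (conj (Z * ω) * (θ - Z)).re) ≤ C * (H₁ * ‖Z * ω‖ ^ 2) := by
    by_cases ha : H₁ = 0
    · rw [ha]; simp
    by_cases hb : c₂ = 0
    · rw [hb, zero_mul]; positivity
    have h3 : (conj (Z * ω) * (θ - Z)).re ≤ ‖Z * ω‖ * (C * ‖ω‖ * ‖Z‖) := by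
      refine (Complex.re_le_norm _).trans ?_
      rw [norm_mul, RCLike.norm_conj]
      exact mul_le_mul_of_nonneg_left (hθ ha hb) (norm_nonneg _)
    have h4 : ‖Z * ω‖ * (C * ‖ω‖ * ‖Z‖) = C * ‖Z * ω‖ ^ 2 := by rw [norm_mul]; ring
    rw [h4] at h3
    have h5 : c₂ * (H₁ * (conj (Z * ω) * (θ - Z)).re) ≤ c₂ * (H₁ * (C * ‖Z * ω‖ ^ 2)) :=
      mul_le_mul_of_nonneg_left (mul_le_mul_of_nonneg_left h3 hH1) h2
    have h6 : c₂ * (H₁ * (C * ‖Z * ω‖ ^ 2)) ≤ 1 * (H₁ * (C * ‖Z * ω‖ ^ 2)) :=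
      mul_le_mul_of_nonneg_right h2' (by positivity)
    linarith
  have hB : -(-ω.im / ‖ω‖ ^ 2) * (-(H₁ * H₂) * (Z * ω * conj μ).im) ≤ Hm * C ^ 2 * (H₁ * ‖Z * ω‖ ^ 2) := by
    by_cases ha : H₁ = 0
    · rw [ha]; simp
    by_cases hb : H₂ = 0
    · rw [hb, mul_zero, neg_zero, zero_mul, mul_zero]
      have : 0 ≤ Hm := by rw [← hb]; exact hHm
      positivity
    have hHm0 : 0 ≤ Hm := hH2.trans hHm
    have h3 : |(Z * ω * conj (μ - Z)).im| ≤ ‖Z * ω‖ * (C * ‖ω‖ * ‖Z‖) := by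
      refine (Complex.abs_im_le_norm _).trans ?_
      rw [norm_mul, RCLike.norm_conj]
      exact mul_le_mul_of_nonneg_left (hμ ha hb) (norm_nonneg _)
    have h4 : ‖Z * ω‖ * (C * ‖ω‖ * ‖Z‖) = C * ‖Z‖ ^ 2 * ‖ω‖ ^ 2 := by rw [norm_mul]; ring
    rw [h4] at h3
    have h5 : -(ω.im * (Z * ω * conj μ).im) ≤ C ^ 2 * ‖Z‖ ^ 2 * ‖ω‖ ^ 4 := by
      rw [e3]
      have h6 : |ω.im * (Z * ω * conj (μ - Z)).im| ≤ |ω.im| * (C * ‖Z‖ ^ 2 * ‖ω‖ ^ 2) := by
        rw [abs_mul]
        exact mul_le_mul_of_nonneg_left h3 (abs_nonneg _)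
      have h7 := neg_abs_le (ω.im * (Z * ω * conj (μ - Z)).im)
      have h8 : 0 ≤ ‖Z‖ ^ 2 * (|ω.im| - C * ‖ω‖ ^ 2 / 2) ^ 2 := by positivity
      have h9 : |ω.im| ^ 2 = ω.im ^ 2 := sq_abs _
      have h10 : 0 ≤ C ^ 2 * ‖Z‖ ^ 2 * ‖ω‖ ^ 4 := by positivity
      nlinarith
    have h6 : -(-ω.im / ‖ω‖ ^ 2) * (-(H₁ * H₂) * (Z * ω * conj μ).im) = H₁ * H₂ / ‖ω‖ ^ 2 * (-(ω.im * (Z * ω * conj μ).im)) := by
      field_simp
    rw [h6]
    have h7 : H₁ * H₂ / ‖ω‖ ^ 2 * (-(ω.im * (Z * ω * conj μ).im)) ≤ H₁ * H₂ / ‖ω‖ ^ 2 * (C ^ 2 * ‖Z‖ ^ 2 * ‖ω‖ ^ 4) :=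
      mul_le_mul_of_nonneg_left h5 (by positivity)
    have h8 : H₁ * H₂ / ‖ω‖ ^ 2 * (C ^ 2 * ‖Z‖ ^ 2 * ‖ω‖ ^ 4) = H₂ * (C ^ 2 * (H₁ * ‖Z * ω‖ ^ 2)) := by
      rw [norm_mul]
      field_simp
    have h9 : H₂ * (C ^ 2 * (H₁ * ‖Z * ω‖ ^ 2)) ≤ Hm * (C ^ 2 * (H₁ * ‖Z * ω‖ ^ 2)) :=
      mul_le_mul_of_nonneg_right hHm (by positivity)
    linarith
  rw [e1, e2]
  have e4 : c₂ * (H₁ * (‖Z‖ ^ 2 * ω.re + (conj (Z * ω) * (θ - Z)).re)) = c₂ * (H₁ * (‖Z‖ ^ 2 * ω.re)) + c₂ * (H₁ * (conj (Z * ω) * (θ - Z)).re) := by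
    ring
  rw [e4]
  linarith

end Pool.Agent.MQ

end
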