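import Pool.Agent.H94.G6.H17EF.Count
import Pool.Agent.H94.G6.H17R.Point
import Pool.Agent.H94.G6.M28
import Pool.Agent.H94.G6.M30
import Pool.Agent.H94.G6.M34
import Pool.Agent.H94.G6.M48
import Pool.Agent.H94.G6.M58
import Pool.Agent.H94.G6.M63
import Pool.Agent.H94.G6.M65
import Pool.Agent.H94.G6.M80

/-! The parts of this file: H14.PP.NearDom, H17EF.Alg, H13.SM.Dim, MQ2.Defs_1, MQ2.Step0, MQ2.TLoc. -/

section

/-!
# BPm NearDom: comparison of the metrics of two charts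

Let `C, r` be as in `exists_transition`, `r₁` as in `dom`, `r' = min r r₁` and less than `1`.
`p` with `‖p‖ = 1` and `small (nd i) p ≤ r'`: there is an orientation `b` (`b = true` only if
`nd i = true`) such that `p₁ = ori b p` has `‖p₁.2‖ = 1`, `‖p₁.1‖ ≤ r'`. With `χ₁ = (χ i).orient b`,
`χ₂ = (χ k).orient b'` from `exists_transition`, `τ = χ₂.q ∘ χ₁.σ`, the matrix entries of
`fderiv ℂ τ p₁`, `A = ACoef Ω χ₁ p₁`, `A' = ACoef Ω χ₂ (τ p₁)` (`ACoef_trans`) apply `dom`.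
Finally go back to the charts without orientation: `ACoef_swap`, `pM_swap`,
`τ = ori b' ∘ ((χ k).q ∘ (χ i).σ) ∘ ori b`, so
`fderiv ℂ τ (ori b p) (ori b w) = ori b' (fderiv ℂ ((χ k).q ∘ (χ i).σ) p w)` (`ori` is linear). For
`ACoef_swap` of `χ k` one needs `(χ k).σ (q') ∈ K`, `q' = (χ k).q ((χ i).σ p)`: a nonzero multiple of
`(χ i).σ p ∈ K` (`Chart.sigma_mem_iff`).
-/

open Topology Filter Metric

namespace Pool.Agent.H14.PP

open Pool.Agent.H36.BP

variable {N : ℕ} {X K T : Set (EN N)} {m j : ℕ}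

private theorem nearDom_ori_ori (b : Bool) (p : ℂ × ℂ) : ori b (ori b p) = p := by
  cases b
  · simp [ori]
  · simp [ori]

private theorem nearDom_norm_ori (b : Bool) (p : ℂ × ℂ) : ‖ori b p‖ = ‖p‖ := by
  cases b
  · simp [ori]
  · simp only [ori, if_true, Prod.norm_def, Prod.fst_swap, Prod.snd_swap]
    exact max_comm _ _

private theorem nearDom_orient_sigma (b : Bool) (χ : Chart X) (p : ℂ × ℂ) :
    (χ.orient b).σ p = χ.σ (ori b p) := by
  cases b
  · rfl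
  · rfl

private theorem nearDom_orient_q (b : Bool) (χ : Chart X) (x : EN N) :
    (χ.orient b).q x = ori b (χ.q x) := by
  cases b
  · rfl
  · rfl

private theorem nearDom_orient_U (b : Bool) (χ : Chart X) : (χ.orient b).U = χ.U := by
  cases b
  · rfl
  · rfl

private theorem nearDom_ACoef (hK : IsOpenPart X K) (Ω : Form K m j) (b : Bool) (χ : Chart X)
    {p : ℂ × ℂ} (hp : p ∈ ball (0 : ℂ × ℂ) 2) (hpK : χ.σ p ∈ K) :
    ACoef Ω (χ.orient b) (ori b p) = ACoef Ω χ p := by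
  cases b
  · rfl
  · exact ACoef_swap hK Ω χ hp hpK

private theorem nearDom_pM (P : Par) (b nd : Bool) (hb : b = true → nd = true) (p w : ℂ × ℂ) :
    pM nd P (ori b p) (ori b w) = pM nd P p w := by
  cases b
  · rfl
  · have h := hb rfl
    subst h
    exact pM_swap p w

private noncomputable def nearDomL (b : Bool) : ℂ × ℂ →L[ℂ] ℂ × ℂ :=
  if b = true then (ContinuousLinearMap.snd ℂ ℂ ℂ).prod (ContinuousLinearMap.fst ℂ ℂ ℂ)
  else ContinuousLinearMap.id ℂ (ℂ × ℂ)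

private theorem nearDomL_apply (b : Bool) (p : ℂ × ℂ) : nearDomL b p = ori b p := by
  cases b
  · simp [nearDomL, ori]
  · simp [nearDomL, ori, Prod.swap]

private theorem nearDom_fderiv (b b' : Bool) (χ χ' : Chart X) {p : ℂ × ℂ}
    (hp : p ∈ ball (0 : ℂ × ℂ) 2) (hU : χ.σ p ∈ χ'.U) (w : ℂ × ℂ) :
    fderiv ℂ (fun y => (χ'.orient b').q ((χ.orient b).σ y)) (ori b p) (ori b w) =
      ori b' (fderiv ℂ (fun y => χ'.q (χ.σ y)) p w) := by
  have hd : DifferentiableAt ℂ (fun y => χ'.q (χ.σ y)) p :=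
    ((χ'.q_an _ hU).differentiableAt).comp p ((χ.σ_an p hp).differentiableAt)
  have h1 : HasFDerivAt (fun y => χ'.q (χ.σ y)) (fderiv ℂ (fun y => χ'.q (χ.σ y)) p)
      (nearDomL b (ori b p)) := by
    rw [nearDomL_apply, nearDom_ori_ori]
    exact hd.hasFDerivAt
  have h2 : HasFDerivAt (fun y => χ'.q (χ.σ (nearDomL b y)))
      ((fderiv ℂ (fun y => χ'.q (χ.σ y)) p).comp (nearDomL b)) (ori b p) :=
    h1.comp (ori b p) (nearDomL b).hasFDerivAt
  have h3 : HasFDerivAt (fun y => nearDomL b' (χ'.q (χ.σ (nearDomL b y))))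
      ((nearDomL b').comp ((fderiv ℂ (fun y => χ'.q (χ.σ y)) p).comp (nearDomL b))) (ori b p) :=
    (nearDomL b').hasFDerivAt.comp (ori b p) h2
  have h4 : (fun y => (χ'.orient b').q ((χ.orient b).σ y)) =
      fun y => nearDomL b' (χ'.q (χ.σ (nearDomL b y))) := by
    funext y
    rw [nearDom_orient_q, nearDom_orient_sigma, nearDomL_apply, nearDomL_apply]
  rw [h4, h3.fderiv]
  simp only [ContinuousLinearMap.comp_apply, nearDomL_apply, nearDom_ori_ori]

private theorem nearDom_apply (L : ℂ × ℂ →L[ℂ] ℂ × ℂ) (w : ℂ × ℂ) :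
    L w = ((L (1, 0)).1 * w.1 + (L (0, 1)).1 * w.2, (L (1, 0)).2 * w.1 + (L (0, 1)).2 * w.2) := by
  have h : w = w.1 • ((1 : ℂ), (0 : ℂ)) + w.2 • ((0 : ℂ), (1 : ℂ)) := by
    ext
    · simp
    · simp
  have h2 : L w = w.1 • L (1, 0) + w.2 • L (0, 1) := by
    conv_lhs => rw [h]
    rw [map_add, map_smul, map_smul]
  rw [h2]
  ext
  · simp only [Prod.fst_add, Prod.smul_fst, smul_eq_mul]
    ring
  · simp only [Prod.snd_add, Prod.smul_snd, smul_eq_mul]
    ring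

/-- the choice of the orientation -/
private theorem nearDom_orientation (nd : Bool) {p : ℂ × ℂ} {s : ℝ} (hp : ‖p‖ = 1)
    (hs : small nd p ≤ s) (hs1 : s < 1) :
    ∃ b : Bool, (b = true → nd = true) ∧ ‖(ori b p).2‖ = 1 ∧ ‖(ori b p).1‖ ≤ s := by
  have hmax : max ‖p.1‖ ‖p.2‖ = 1 := by rw [← hp, Prod.norm_def]
  cases nd
  · have h1 : ‖p.1‖ ≤ s := by simpa [small] using hs
    refine ⟨false, fun h => h, ?_, ?_⟩
    · rcases max_choice ‖p.1‖ ‖p.2‖ with h | h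
      · rw [h] at hmax
        linarith
      · rw [h] at hmax
        simpa [ori] using hmax
    · simpa [ori] using h1
  · have h1 : ‖p.1‖ * ‖p.2‖ ≤ s := by simpa [small] using hs
    rcases max_choice ‖p.1‖ ‖p.2‖ with h | h
    · rw [h] at hmax
      refine ⟨true, fun _ => rfl, ?_, ?_⟩
      · simpa [ori] using hmax
      · rw [hmax, one_mul] at h1
        simpa [ori] using h1
    · rw [h] at hmax
      refine ⟨false, fun _ => rfl, ?_, ?_⟩
      · simpa [ori] using hmax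
      · rw [hmax, mul_one] at h1
        simpa [ori] using h1

theorem near_dom (hX : IsCone X) (hK : IsOpenPart X K) (hm : 1 ≤ m) (Ω : Form K m j) {n : ℕ}
    (χ : Fin n → Chart X) (nd : Fin n → Bool) {C r : ℝ} (hC : 1 ≤ C) (hr : 0 < r)
    (htr : ∀ (i : Fin n) (b : Bool), (b = true → nd i = true) →
      ∀ p : ℂ × ℂ, ‖p.2‖ = 1 → ‖p.1‖ ≤ r →
        ∃ (k : Fin n) (b' : Bool), (b' = true → nd k = true) ∧
          Transition C ((χ i).orient b) ((χ k).orient b') (nd k) p)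
    {P : Par} (hP : DomPar C P) :
    ∃ r' : ℝ, 0 < r' ∧ ∀ (i : Fin n) (p w : ℂ × ℂ), ‖p‖ = 1 → small (nd i) p ≤ r' →
      (χ i).σ p ∈ K → 0 < ACoef Ω (χ i) p * pM (nd i) P p w →
      ∃ k, (χ i).σ p ∈ (χ k).U ∧ ‖(χ k).q ((χ i).σ p)‖ < 1 / 2 ∧
        ACoef Ω (χ i) p * pM (nd i) P p w <
          ACoef Ω (χ k) ((χ k).q ((χ i).σ p)) * pM (nd k) P ((χ k).q ((χ i).σ p))
            (fderiv ℂ (fun y => (χ k).q ((χ i).σ y)) p w) := by
  obtain ⟨r₁, hr₁, hr₁1, hdom⟩ := dom hC hP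
  refine ⟨min (min r r₁) (1 / 2), lt_min (lt_min hr hr₁) (by norm_num), ?_⟩
  intro i p w hp hsm hpK hpos
  obtain ⟨b, hb, hb2, hb1⟩ := nearDom_orientation (nd i) hp hsm
    (lt_of_le_of_lt (min_le_right _ _) (by norm_num))
  have hbr : ‖(ori b p).1‖ ≤ r := hb1.trans ((min_le_left _ _).trans (min_le_left _ _))
  have hbr₁ : ‖(ori b p).1‖ ≤ r₁ := hb1.trans ((min_le_left _ _).trans (min_le_right _ _))
  obtain ⟨k, b', hb', hU, hn, hTE, hnd⟩ := htr i b hb (ori b p) hb2 hbr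
  have hpb : p ∈ ball (0 : ℂ × ℂ) 2 := by
    rw [mem_ball_zero_iff, hp]
    norm_num
  have hpb' : ori b p ∈ ball (0 : ℂ × ℂ) 2 := by
    rw [mem_ball_zero_iff, nearDom_norm_ori, hp]
    norm_num
  have hσ : ((χ i).orient b).σ (ori b p) = (χ i).σ p := by
    rw [nearDom_orient_sigma, nearDom_ori_ori]
  have hU' : (χ i).σ p ∈ (χ k).U := by
    rw [hσ, nearDom_orient_U] at hU
    exact hU
  have hn' : ‖(χ k).q ((χ i).σ p)‖ < 1 / 2 := by
    rw [hσ, nearDom_orient_q, nearDom_norm_ori] at hn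
    exact hn
  have hqb : (χ k).q ((χ i).σ p) ∈ ball (0 : ℂ × ℂ) 2 := by
    rw [mem_ball_zero_iff]
    linarith
  have hpX : (χ i).σ p ∈ X := hK.subset hpK
  have hqK : (χ k).σ ((χ k).q ((χ i).σ p)) ∈ K :=
    ((χ k).sigma_mem_iff hpX hU' hK.smul_mem).mpr hpK
  have hA : ACoef Ω ((χ i).orient b) (ori b p) = ACoef Ω (χ i) p :=
    nearDom_ACoef hK Ω b (χ i) hpb hpK
  have hA' : ACoef Ω ((χ k).orient b') (ori b' ((χ k).q ((χ i).σ p))) =
      ACoef Ω (χ k) ((χ k).q ((χ i).σ p)) :=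
    nearDom_ACoef hK Ω b' (χ k) hqb hqK
  have hq : ((χ k).orient b').q (((χ i).orient b).σ (ori b p)) =
      ori b' ((χ k).q ((χ i).σ p)) := by
    rw [hσ, nearDom_orient_q]
  have htrans := ACoef_trans hX hK hm Ω ((χ i).orient b) ((χ k).orient b') hpb'
    (by rw [hσ]; exact hpK) hU
  have hmain := hdom (nd i) (nd k) (ori b p) (ori b w)
    (((χ k).orient b').q (((χ i).orient b).σ (ori b p)))
    _ _ _ _ (ACoef Ω ((χ i).orient b) (ori b p))
    (ACoef Ω ((χ k).orient b') (((χ k).orient b').q (((χ i).orient b).σ (ori b p))))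
    hbr₁ hb2 hn.le hnd hTE (ACoef_nonneg _ _ _) htrans
    (by rw [hA, nearDom_pM P b (nd i) hb]; exact hpos)
  rw [← nearDom_apply, hA, nearDom_pM P b (nd i) hb, nearDom_fderiv b b' (χ i) (χ k) hpb hU', hq,
    hA', nearDom_pM P b' (nd k) hb'] at hmain
  exact ⟨k, hU', hn', hmain⟩

end Pool.Agent.H14.PP

end

section

/-!
# EF Alg: doubly periodic entire curves of order two on a surface are algebraically degenerate
-/

set_option autoImplicit false

open MvPolynomial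

noncomputable section

namespace Pool.Agent.H17EF

open Metric Filter Topology
open Pool.Agent.H36.BP (OrdTwo)
open Pool.Agent.H17LG.Variety (FunField)

variable {N : ℕ}

theorem eval_smul_form {d : ℕ} {Q : MvPolynomial (Fin (N + 1)) ℂ} (hQ : Q.IsHomogeneous d) (c : ℂ)
    (x : Fin (N + 1) → ℂ) : eval (c • x) Q = c ^ d * eval x Q := by
  rw [MvPolynomial.eval_eq', MvPolynomial.eval_eq', Finset.mul_sum]
  apply Finset.sum_congr rfl
  intro m hm
  have hdeg : ∑ i, m i = d := by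
    have := hQ (MvPolynomial.mem_support_iff.1 hm)
    rw [Finsupp.weight_apply] at this
    simpa [Finsupp.sum_fintype] using this
  have h1 : ∏ i, (c • x) i ^ m i = c ^ d * ∏ i, x i ^ m i := by
    rw [← hdeg, ← Finset.prod_pow_eq_pow_sum, ← Finset.prod_mul_distrib]
    exact Finset.prod_congr rfl fun i _ => by simp [mul_pow]
  rw [h1]
  ring

/-- `w` is a period of the curve `F` in projective space -/
def IsPeriod (F : ℂ → Fin (N + 1) → ℂ) (w : ℂ) : Prop := ∀ z, ∃ c : ℂ, c ≠ 0 ∧ F (z + w) = c • F z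

theorem IsPeriod.zero (F : ℂ → Fin (N + 1) → ℂ) : IsPeriod F 0 := fun z => ⟨1, one_ne_zero, by simp⟩

theorem IsPeriod.add {F : ℂ → Fin (N + 1) → ℂ} {v w : ℂ} (hv : IsPeriod F v) (hw : IsPeriod F w) : IsPeriod F (v + w) := by
  intro z
  obtain ⟨c, hc, h⟩ := hv z
  obtain ⟨c', hc', h'⟩ := hw (z + v)
  exact ⟨c' * c, mul_ne_zero hc' hc, by rw [← add_assoc, h', h, smul_smul]⟩

theorem IsPeriod.neg {F : ℂ → Fin (N + 1) → ℂ} {v : ℂ} (hv : IsPeriod F v) : IsPeriod F (-v) := by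
  intro z
  obtain ⟨c, hc, h⟩ := hv (z + -v)
  refine ⟨c⁻¹, inv_ne_zero hc, ?_⟩
  rw [neg_add_cancel_right] at h
  rw [h, smul_smul, inv_mul_cancel₀ hc, one_smul]

theorem IsPeriod.nsmul {F : ℂ → Fin (N + 1) → ℂ} {v : ℂ} (hv : IsPeriod F v) (n : ℕ) : IsPeriod F ((n : ℂ) * v) := by
  induction n with
  | zero => simpa using IsPeriod.zero F
  | succ n ih =>
    have h1 : ((n + 1 : ℕ) : ℂ) * v = (n : ℂ) * v + v := by push_cast; ring
    rw [h1]
    exact ih.add hv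

theorem IsPeriod.zsmul {F : ℂ → Fin (N + 1) → ℂ} {v : ℂ} (hv : IsPeriod F v) (n : ℤ) : IsPeriod F ((n : ℂ) * v) := by
  obtain ⟨m, rfl | rfl⟩ := n.eq_nat_or_neg
  · simpa using hv.nsmul m
  · have := (hv.nsmul m).neg
    have h1 : (((-(m : ℤ) : ℤ)) : ℂ) * v = -((m : ℂ) * v) := by push_cast; ring
    rw [h1]
    exact this

/-- the quotient of two lifts is holomorphic -/
theorem exists_quot {F G : ℂ → Fin (N + 1) → ℂ} {z₀ : ℂ} (hF : AnalyticAt ℂ F z₀) (hG : AnalyticAt ℂ G z₀) (h0 : F z₀ ≠ 0)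
    (h : ∀ᶠ z in 𝓝 z₀, G z = 0 ∨ ∃ c : ℂ, c ≠ 0 ∧ F z = c • G z) :
    ∃ u : ℂ → ℂ, AnalyticAt ℂ u z₀ ∧ ∀ᶠ z in 𝓝 z₀, G z = u z • F z := by
  obtain ⟨i, hi⟩ : ∃ i, F z₀ i ≠ 0 := by
    by_contra hcon
    push Not at hcon
    exact h0 (_root_.funext hcon)
  have hFi : AnalyticAt ℂ (fun z => F z i) z₀ :=
    ((ContinuousLinearMap.proj (R := ℂ) (φ := fun _ : Fin (N + 1) => ℂ) i).analyticAt (F z₀)).comp hF
  have hGi : AnalyticAt ℂ (fun z => G z i) z₀ :=
    ((ContinuousLinearMap.proj (R := ℂ) (φ := fun _ : Fin (N + 1) => ℂ) i).analyticAt (G z₀)).comp hG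
  refine ⟨fun z => G z i / F z i, hGi.div hFi hi, ?_⟩
  filter_upwards [h, hFi.continuousAt.eventually_ne hi] with z hz hz'
  rcases hz with hz | ⟨c, hc, hz⟩
  · rw [hz]
    simp
  · have h1 : F z i = c * G z i := by rw [hz]; simp
    have h2 : G z i ≠ 0 := by
      intro h3
      rw [h3, mul_zero] at h1
      exact hz' h1
    rw [hz]
    simp only [Pi.smul_apply, smul_eq_mul, smul_smul]
    have h3 : G z i / (c * G z i) * c = 1 := by field_simp
    rw [h3, one_smul]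

theorem analyticAt_eval {F : ℂ → Fin (N + 1) → ℂ} {z₀ : ℂ} (hF : AnalyticAt ℂ F z₀) (Q : MvPolynomial (Fin (N + 1)) ℂ) :
    AnalyticAt ℂ (fun z => eval (F z) Q) z₀ := by
  have h1 : AnalyticAt ℂ (fun x : Fin (N + 1) → ℂ => eval x Q) (F z₀) := by
    have := AnalyticAt.aeval_mvPolynomial (𝕜 := ℂ) (A := ℂ) (f := fun (x : Fin (N + 1) → ℂ) i => x i) (z := F z₀)
      (fun i => (ContinuousLinearMap.proj (R := ℂ) (φ := fun _ : Fin (N + 1) => ℂ) i).analyticAt _) Q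
    simpa [MvPolynomial.aeval_eq_eval] using this
  exact h1.comp hF

/-- a bound for a polynomial on the unit ball -/
theorem exists_bound (Q : MvPolynomial (Fin (N + 1)) ℂ) : ∃ B : ℝ, 0 < B ∧ ∀ x : Fin (N + 1) → ℂ, ‖x‖ ≤ 1 → ‖eval x Q‖ ≤ B := by
  have hc : Continuous fun x : Fin (N + 1) → ℂ => ‖eval x Q‖ := (MvPolynomial.continuous_eval Q).norm
  obtain ⟨B, hB⟩ := (isCompact_closedBall (0 : Fin (N + 1) → ℂ) 1).exists_bound_of_continuousOn hc.continuousOn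
  refine ⟨max B 1, by positivity, fun x hx => ?_⟩
  have := hB x (by rwa [mem_closedBall_zero_iff])
  rw [norm_norm] at this
  exact this.trans (le_max_left _ _)

/-- the order of vanishing at a period -/
theorem le_order_of_period {F : ℂ → Fin (N + 1) → ℂ} (hF : Differentiable ℂ F) (h0 : ∀ z, F z ≠ 0) {w : ℂ} (hw : IsPeriod F w)
    {Q : MvPolynomial (Fin (N + 1)) ℂ} {d : ℕ} (hQ : Q.IsHomogeneous d) {μ : ℕ}
    (hμ : (μ : ℕ∞) ≤ analyticOrderAt (fun z => eval (F z) Q) 0) : (μ : ℕ∞) ≤ analyticOrderAt (fun z => eval (F z) Q) w := by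
  have hadd : AnalyticAt ℂ (fun z : ℂ => z - w) w := by fun_prop
  have h1 : AnalyticAt ℂ (fun z => F (z - w)) w := (hF.comp (differentiable_id.sub_const w)).analyticAt w
  obtain ⟨u, hu, hu'⟩ := exists_quot (F := fun z => F (z - w)) (G := F) h1 (hF.analyticAt w) (h0 _) (Eventually.of_forall fun z => by
    obtain ⟨c, hc, h⟩ := hw (z - w)
    right
    refine ⟨c⁻¹, inv_ne_zero hc, ?_⟩
    rw [sub_add_cancel] at h
    rw [h, smul_smul, inv_mul_cancel₀ hc, one_smul])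
  rw [natCast_le_analyticOrderAt (analyticAt_eval (hF.analyticAt 0) Q)] at hμ
  obtain ⟨g, hg, hg'⟩ := hμ
  rw [natCast_le_analyticOrderAt (analyticAt_eval (hF.analyticAt w) Q)]
  have ht : Tendsto (fun z : ℂ => z - w) (𝓝 w) (𝓝 0) := by
    have := hadd.continuousAt.tendsto
    rwa [sub_self] at this
  refine ⟨fun z => u z ^ d * g (z - w), (hu.pow d).mul ?_, ?_⟩
  · have hg2 : AnalyticAt ℂ g (w - w) := by rwa [sub_self]
    exact AnalyticAt.comp (g := g) (f := fun z : ℂ => z - w) hg2 hadd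
  · filter_upwards [hu', ht.eventually hg'] with z hz1 hz2
    rw [hz1, eval_smul_form hQ, hz2]
    simp only [smul_eq_mul, sub_zero]
    ring

/-- the estimate for one radius -/
theorem main_estimate {F : ℂ → Fin (N + 1) → ℂ} (hF : Differentiable ℂ F) (h0 : ∀ z, F z ≠ 0) {C₀ : ℝ}
    (hord : ∀ r : ℝ, 0 < r → ∃ G : ℂ → Fin (N + 1) → ℂ, DifferentiableOn ℂ G (ball 0 r) ∧ (∀ z ∈ ball (0 : ℂ) r, ‖G z‖ ≤ 1) ∧
      Real.exp (-(C₀ * (1 + r ^ 2))) ≤ ‖G 0‖ ∧ ∀ z ∈ ball (0 : ℂ) r, G z = 0 ∨ ∃ c : ℂ, c ≠ 0 ∧ F z = c • G z)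
    {Q : MvPolynomial (Fin (N + 1)) ℂ} {d : ℕ} (hQ : Q.IsHomogeneous d) {μ m : ℕ}
    (hμ : (μ : ℕ∞) ≤ analyticOrderAt (fun z => eval (F z) Q) 0) {φ : ℂ → ℂ} (hφ : AnalyticAt ℂ φ 0)
    (hφ1 : ∀ᶠ z in 𝓝 (0 : ℂ), eval (F z) Q = z ^ m * φ z) {B : ℝ} (hB0 : 0 < B)
    (hB : ∀ x : Fin (N + 1) → ℂ, ‖x‖ ≤ 1 → ‖eval x Q‖ ≤ B) (S : Finset ℂ) (hS0 : (0 : ℂ) ∉ S) (hSp : ∀ w ∈ S, IsPeriod F w)
    {r : ℝ} (hr : 4 / 3 ≤ r) (hSr : ∀ w ∈ S, ‖w‖ ≤ r / 4) :
    Real.exp (-(C₀ * (1 + r ^ 2))) ^ d * ‖φ 0‖ ≤ ‖F 0‖ ^ d * (B * (1 / 3) ^ (μ * S.card)) := by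
  classical
  have hr0 : 0 < r := by linarith
  obtain ⟨G, hG, hG1, hG0, hGF⟩ := hord r hr0
  have hGan : ∀ z ∈ ball (0 : ℂ) r, AnalyticAt ℂ G z := fun z hz => hG.analyticAt (isOpen_ball.mem_nhds hz)
  have hquot : ∀ z₀ ∈ ball (0 : ℂ) r, ∃ u : ℂ → ℂ, AnalyticAt ℂ u z₀ ∧ ∀ᶠ z in 𝓝 z₀, G z = u z • F z := fun z₀ hz₀ =>
    exists_quot (hF.analyticAt z₀) (hGan z₀ hz₀) (h0 z₀) (by
      filter_upwards [isOpen_ball.mem_nhds hz₀] with z hz
      exact hGF z hz)
  set g : ℂ → ℂ := fun z => eval (G z) Q with hg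
  have hgan : ∀ z ∈ ball (0 : ℂ) r, AnalyticAt ℂ g z := fun z hz => analyticAt_eval (hGan z hz) Q
  have hgd : DifferentiableOn ℂ g (ball 0 r) := fun z hz => (hgan z hz).differentiableAt.differentiableWithinAt
  have hgB : ∀ z ∈ ball (0 : ℂ) r, ‖g z‖ ≤ B := fun z hz => hB _ (hG1 z hz)
  -- the orders at the periods
  have hordS : ∀ w ∈ S, (μ : ℕ∞) ≤ analyticOrderAt g w := by
    intro w hw
    have hwb : w ∈ ball (0 : ℂ) r := by
      rw [mem_ball_zero_iff]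
      linarith [hSr w hw]
    obtain ⟨u, hu, hu'⟩ := hquot w hwb
    have h1 := le_order_of_period hF h0 (hSp w hw) hQ hμ
    rw [natCast_le_analyticOrderAt (analyticAt_eval (hF.analyticAt w) Q)] at h1
    obtain ⟨g₁, hg₁, hg₁'⟩ := h1
    rw [natCast_le_analyticOrderAt (hgan w hwb)]
    refine ⟨fun z => u z ^ d * g₁ z, (hu.pow d).mul hg₁, ?_⟩
    filter_upwards [hu', hg₁'] with z hz1 hz2
    simp only [hg]
    rw [hz1, eval_smul_form hQ, hz2]
    simp only [smul_eq_mul]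
    ring
  -- division by the zeros outside `0`
  obtain ⟨l, hl⟩ : ∃ l : List ℂ, l = (List.replicate μ S.toList).flatten := ⟨_, rfl⟩
  have hlmem : ∀ w ∈ l, w ∈ S := by
    intro w hw
    rw [hl, List.mem_flatten] at hw
    obtain ⟨l', hl', hw⟩ := hw
    rw [List.mem_replicate] at hl'
    rw [hl'.2, Finset.mem_toList] at hw
    exact hw
  have hlcount : ∀ w, l.count w = if w ∈ S then μ else 0 := by
    intro w
    rw [hl, List.count_flatten, List.map_replicate, List.sum_replicate]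
    split_ifs with hw
    · rw [List.count_eq_one_of_mem S.nodup_toList (Finset.mem_toList.2 hw)]
      simp
    · rw [List.count_eq_zero_of_not_mem (by rwa [Finset.mem_toList])]
      simp
  have hllen : l.length = μ * S.card := by
    rw [hl, List.length_flatten, List.map_replicate, List.sum_replicate, Finset.length_toList]
    simp
  obtain ⟨g₁, h1d, h1f, h1B⟩ := div_list hr0 l hgd hgB (fun w hw => hSr w (hlmem w hw)) (by
    intro w
    rw [hlcount]
    split_ifs with hw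
    · exact hordS w hw
    · simp)
  have h0b : (0 : ℂ) ∈ ball (0 : ℂ) r := mem_ball_self hr0
  obtain ⟨u, hu, hu'⟩ := hquot 0 h0b
  -- the product of the linear factors
  set pr : ℂ → ℂ := fun z => (l.map fun w => z - w).prod with hprd
  have hpran : AnalyticAt ℂ pr 0 := by
    have : ∀ l : List ℂ, Differentiable ℂ fun z : ℂ => (l.map fun w => z - w).prod := by
      intro l
      induction l with
      | nil => simp
      | cons a l ih =>
        simp only [List.map_cons, List.prod_cons]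
        exact (differentiable_id.sub_const a).mul ih
    exact (this l).analyticAt 0
  have hpr0 : pr 0 ≠ 0 := by
    simp only [hprd]
    apply List.prod_ne_zero
    intro h
    rw [List.mem_map] at h
    obtain ⟨w, hw, hw'⟩ := h
    rw [zero_sub, neg_eq_zero] at hw'
    subst hw'
    exact hS0 (hlmem _ hw)
  have hg₁an : AnalyticAt ℂ g₁ 0 := h1d.analyticAt (isOpen_ball.mem_nhds h0b)
  -- the order at `0`
  have hordm : ∀ w, (((List.replicate m (0 : ℂ)).count w : ℕ) : ℕ∞) ≤ analyticOrderAt g₁ w := by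
    intro w
    by_cases hw : w = 0
    · subst hw
      rw [List.count_replicate_self]
      rw [natCast_le_analyticOrderAt hg₁an]
      refine ⟨fun z => u z ^ d * φ z / pr z, ((hu.pow d).mul hφ).div hpran hpr0, ?_⟩
      filter_upwards [hu', hφ1, hpran.continuousAt.eventually_ne hpr0] with z hz1 hz2 hz3
      have hz4 : g z = pr z * g₁ z := h1f z
      have hz5 : g z = u z ^ d * (z ^ m * φ z) := by
        simp only [hg]
        rw [hz1, eval_smul_form hQ, hz2]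
      rw [hz5] at hz4
      simp only [smul_eq_mul, sub_zero]
      field_simp
      linear_combination -hz4
    · rw [List.count_replicate, if_neg (by simpa using (Ne.symm hw))]
      simp
  obtain ⟨g₂, h2d, h2f, h2B⟩ := div_list hr0 (List.replicate m (0 : ℂ)) h1d h1B (fun w hw => by
    rw [List.mem_replicate] at hw
    rw [hw.2, norm_zero]
    positivity) hordm
  have hg₂an : AnalyticAt ℂ g₂ 0 := h2d.analyticAt (isOpen_ball.mem_nhds h0b)
  -- the value at `0`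
  have hval : pr 0 * g₂ 0 = u 0 ^ d * φ 0 := by
    have h3 : ∀ᶠ z in 𝓝[≠] (0 : ℂ), pr z * g₂ z = u z ^ d * φ z := by
      have h4 : ∀ᶠ z in 𝓝[≠] (0 : ℂ), z ≠ 0 := eventually_mem_nhdsWithin
      filter_upwards [h4, hu'.filter_mono nhdsWithin_le_nhds, hφ1.filter_mono nhdsWithin_le_nhds] with z hz0 hz1 hz2
      have hz4 : g z = pr z * g₁ z := h1f z
      have hz5 : g z = u z ^ d * (z ^ m * φ z) := by
        simp only [hg]
        rw [hz1, eval_smul_form hQ, hz2]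
      have hz6 := h2f z
      rw [List.map_replicate, List.prod_replicate, sub_zero] at hz6
      have hz7 : z ^ m * (pr z * g₂ z) = z ^ m * (u z ^ d * φ z) := by
        rw [hz6] at hz4
        rw [hz5] at hz4
        linear_combination -hz4
      exact mul_left_cancel₀ (pow_ne_zero m hz0) hz7
    have h5 : ContinuousAt (fun z => pr z * g₂ z) 0 := hpran.continuousAt.mul hg₂an.continuousAt
    have h6 : ContinuousAt (fun z => u z ^ d * φ z) 0 := (hu.continuousAt.pow d).mul hφ.continuousAt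
    exact tendsto_nhds_unique_of_eventuallyEq (h5.tendsto.mono_left nhdsWithin_le_nhds)
      (h6.tendsto.mono_left nhdsWithin_le_nhds) h3
  have hprle : ‖pr 0‖ ≤ (r / 4) ^ l.length := by
    have : ∀ l : List ℂ, (∀ w ∈ l, ‖w‖ ≤ r / 4) → ‖(l.map fun w => (0 : ℂ) - w).prod‖ ≤ (r / 4) ^ l.length := by
      intro l
      induction l with
      | nil => simp
      | cons a l ih =>
        intro h
        simp only [List.map_cons, List.prod_cons, norm_mul, List.length_cons, pow_succ']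
        have h7 : ‖(0 : ℂ) - a‖ ≤ r / 4 := by
          rw [zero_sub, norm_neg]
          exact h a List.mem_cons_self
        exact mul_le_mul h7 (ih fun w hw => h w (List.mem_cons_of_mem _ hw)) (norm_nonneg _) (by positivity)
    exact this l fun w hw => hSr w (hlmem w hw)
  have hg₂le := h2B 0 h0b
  rw [List.length_replicate] at hg₂le
  have hsmall : (4 / (3 * r)) ^ m ≤ 1 := by
    apply pow_le_one₀ (by positivity)
    rw [div_le_one (by positivity)]
    linarith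
  have hmain : ‖u 0‖ ^ d * ‖φ 0‖ ≤ B * (1 / 3) ^ (μ * S.card) := by
    rw [← norm_pow, ← norm_mul, ← hval, norm_mul]
    calc ‖pr 0‖ * ‖g₂ 0‖ ≤ (r / 4) ^ l.length * (B * (4 / (3 * r)) ^ l.length * (4 / (3 * r)) ^ m) :=
          mul_le_mul hprle hg₂le (norm_nonneg _) (by positivity)
      _ ≤ (r / 4) ^ l.length * (B * (4 / (3 * r)) ^ l.length * 1) := by gcongr
      _ = B * ((r / 4) * (4 / (3 * r))) ^ l.length := by rw [mul_pow]; ring
      _ = B * (1 / 3) ^ (μ * S.card) := by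
        rw [hllen]
        congr 2
        field_simp
  have hGu : ‖G 0‖ = ‖u 0‖ * ‖F 0‖ := by
    rw [hu'.self_of_nhds, norm_smul]
  calc Real.exp (-(C₀ * (1 + r ^ 2))) ^ d * ‖φ 0‖ ≤ (‖u 0‖ * ‖F 0‖) ^ d * ‖φ 0‖ := by
        gcongr
        rwa [← hGu]
    _ = ‖F 0‖ ^ d * (‖u 0‖ ^ d * ‖φ 0‖) := by ring
    _ ≤ _ := mul_le_mul_of_nonneg_left hmain (by positivity)

/-- **Doubly periodic curves of order two on a surface are algebraically degenerate.** -/
theorem exists_form_of_periodic {P : Ideal (MvPolynomial (Fin (N + 1)) ℂ)} [P.IsPrime] {z : Fin 2 → FunField P}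
    (hz : IsTranscendenceBasis ℂ z) {F : ℂ → Fin (N + 1) → ℂ} (hF : Differentiable ℂ F) (h0 : ∀ z, F z ≠ 0) (hord : OrdTwo F)
    (hFP : ∀ z, ∀ Q ∈ P, eval (F z) Q = 0) {w₁ w₂ : ℂ} (hw : LinearIndependent ℝ ![w₁, w₂]) (h1 : IsPeriod F w₁)
    (h2 : IsPeriod F w₂) :
    ∃ (Q : MvPolynomial (Fin (N + 1)) ℂ) (d : ℕ), Q.IsHomogeneous d ∧ Q ∉ P ∧ ∀ z, eval (F z) Q = 0 := by
  classical
  obtain ⟨C₀, hord⟩ := hord
  have hX : ∃ i, (X i : MvPolynomial (Fin (N + 1)) ℂ) ∉ P := by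
    by_contra hcon
    push Not at hcon
    apply h0 0
    funext i
    have := hFP 0 _ (hcon i)
    simpa using this
  set M : ℝ := ‖w₁‖ + ‖w₂‖ with hM
  have hM0 : 0 ≤ M := by positivity
  obtain ⟨K, hK⟩ := exists_nat_ge (4 * |C₀| * M ^ 2 + 1)
  obtain ⟨d, hd, hL⟩ := exists_form_of_conditions hz hX K
  -- the linear conditions
  let L : MvPolynomial (Fin (N + 1)) ℂ →ₗ[ℂ] (Fin (K * d) → ℂ) :=
    { toFun := fun Q k => iteratedDeriv k (fun z => eval (F z) Q) 0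
      map_add' := by
        intro Q R
        funext k
        have e1 : (fun z => eval (F z) (Q + R)) = (fun z => eval (F z) Q) + fun z => eval (F z) R := by
          funext z; simp
        rw [e1, iteratedDeriv_add (analyticAt_eval (hF.analyticAt 0) Q).contDiffAt (analyticAt_eval (hF.analyticAt 0) R).contDiffAt]
        rfl
      map_smul' := by
        intro c Q
        funext k
        have e1 : (fun z => eval (F z) (c • Q)) = c • fun z => eval (F z) Q := by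
          funext z; simp [MvPolynomial.smul_eval]
        rw [e1, iteratedDeriv_const_smul (analyticAt_eval (hF.analyticAt 0) Q).contDiffAt]
        rfl }
  obtain ⟨Q, hQ, hQP, hLQ⟩ := hL L
  refine ⟨Q, d, hQ, hQP, ?_⟩
  have hμ : ((K * d : ℕ) : ℕ∞) ≤ analyticOrderAt (fun z => eval (F z) Q) 0 := by
    rw [natCast_le_analyticOrderAt_iff_iteratedDeriv_eq_zero (analyticAt_eval (hF.analyticAt 0) Q)]
    intro k hk
    exact congrFun hLQ ⟨k, hk⟩
  by_contra hcon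
  -- the order at `0` is finite
  have hne : analyticOrderAt (fun z => eval (F z) Q) 0 ≠ ⊤ := by
    intro htop
    apply hcon
    rw [analyticOrderAt_eq_top] at htop
    have h3 : AnalyticOnNhd ℂ (fun z => eval (F z) Q) Set.univ := fun z _ => analyticAt_eval (hF.analyticAt z) Q
    intro z
    exact h3.eqOn_zero_of_preconnected_of_eventuallyEq_zero isPreconnected_univ (Set.mem_univ 0) htop (Set.mem_univ z)
  obtain ⟨m, hm⟩ := ENat.ne_top_iff_exists.1 hne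
  obtain ⟨φ, hφ, hφ0, hφ1⟩ := ((analyticAt_eval (hF.analyticAt 0) Q).analyticOrderAt_eq_natCast).1 hm.symm
  obtain ⟨B, hB0, hB⟩ := exists_bound Q
  have hφ1' : ∀ᶠ z in 𝓝 (0 : ℂ), eval (F z) Q = z ^ m * φ z := by
    filter_upwards [hφ1] with z hz
    rw [hz]
    simp
  have hφpos : 0 < ‖φ 0‖ := norm_pos_iff.2 hφ0
  have hF0pos : 0 < ‖F 0‖ := norm_pos_iff.2 (h0 0)
  -- the lattice points
  let pt : ℤ × ℤ → ℂ := fun ab => (ab.1 : ℂ) * w₁ + (ab.2 : ℂ) * w₂
  have hinj : Function.Injective pt := by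
    intro a b hab
    have h3 : ((a.1 - b.1 : ℤ) : ℝ) • w₁ + ((a.2 - b.2 : ℤ) : ℝ) • w₂ = 0 := by
      simp only [Complex.real_smul]
      simp only [pt] at hab
      push_cast
      linear_combination hab
    have h4 := LinearIndependent.pair_iff.1 hw _ _ h3
    have h5 : a.1 - b.1 = 0 := by exact_mod_cast h4.1
    have h6 : a.2 - b.2 = 0 := by exact_mod_cast h4.2
    ext
    · omega
    · omega
  have est : ∀ T : ℕ, 1 ≤ T → 4 / 3 ≤ 4 * M * T →
      Real.exp (-(C₀ * (1 + (4 * M * T) ^ 2))) ^ d * ‖φ 0‖ ≤ ‖F 0‖ ^ d * (B * (1 / 3) ^ (K * d * (4 * T ^ 2))) := by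
    intro T hT hr
    set S₀ : Finset (ℤ × ℤ) := (Finset.Icc (-(T : ℤ)) T) ×ˢ (Finset.Icc (-(T : ℤ)) T) with hS₀
    set S : Finset ℂ := (S₀.erase (0, 0)).image pt with hS
    have hcard : S.card = (2 * T + 1) ^ 2 - 1 := by
      rw [hS, Finset.card_image_of_injective _ hinj, Finset.card_erase_of_mem, hS₀, Finset.card_product, Int.card_Icc]
      · congr 1
        have : ((T : ℤ) + 1 - -(T : ℤ)).toNat = 2 * T + 1 := by omega
        rw [this]
        ring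
      · rw [hS₀, Finset.mem_product, Finset.mem_Icc]
        constructor <;> constructor <;> simp
    have hcard' : 4 * T ^ 2 ≤ S.card := by
      rw [hcard]
      have : (2 * T + 1) ^ 2 = 4 * T ^ 2 + 4 * T + 1 := by ring
      omega
    have h3 := main_estimate hF h0 hord hQ hμ hφ hφ1' hB0 hB S ?_ ?_ hr ?_
    · refine h3.trans ?_
      have h4 : ((1 : ℝ) / 3) ^ (K * d * S.card) ≤ (1 / 3) ^ (K * d * (4 * T ^ 2)) :=
        pow_le_pow_of_le_one (by norm_num) (by norm_num) (Nat.mul_le_mul_left _ hcard')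
      exact mul_le_mul_of_nonneg_left (mul_le_mul_of_nonneg_left h4 hB0.le) (by positivity)
    · intro h4
      rw [hS, Finset.mem_image] at h4
      obtain ⟨ab, hab, h5⟩ := h4
      have h6 : pt (0, 0) = 0 := by simp [pt]
      rw [← h6] at h5
      have h7 := hinj h5
      subst h7
      simp at hab
    · intro w hwS
      rw [hS, Finset.mem_image] at hwS
      obtain ⟨ab, -, rfl⟩ := hwS
      exact (h1.zsmul ab.1).add (h2.zsmul ab.2)
    · intro w hwS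
      rw [hS, Finset.mem_image] at hwS
      obtain ⟨ab, hab, rfl⟩ := hwS
      have hab' := Finset.mem_of_mem_erase hab
      rw [hS₀, Finset.mem_product, Finset.mem_Icc, Finset.mem_Icc] at hab'
      have ha : |(ab.1 : ℝ)| ≤ T := by
        rw [abs_le]
        constructor
        · exact_mod_cast hab'.1.1
        · exact_mod_cast hab'.1.2
      have hb : |(ab.2 : ℝ)| ≤ T := by
        rw [abs_le]
        constructor
        · exact_mod_cast hab'.2.1
        · exact_mod_cast hab'.2.2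
      have e1 : ‖((ab.1 : ℤ) : ℂ)‖ = |(ab.1 : ℝ)| := by
        rw [Complex.norm_intCast]
      have e2 : ‖((ab.2 : ℤ) : ℂ)‖ = |(ab.2 : ℝ)| := by
        rw [Complex.norm_intCast]
      calc ‖pt ab‖ ≤ ‖((ab.1 : ℤ) : ℂ) * w₁‖ + ‖((ab.2 : ℤ) : ℂ) * w₂‖ := norm_add_le _ _
        _ = |(ab.1 : ℝ)| * ‖w₁‖ + |(ab.2 : ℝ)| * ‖w₂‖ := by rw [norm_mul, norm_mul, e1, e2]
        _ ≤ T * ‖w₁‖ + T * ‖w₂‖ := by gcongr
        _ = 4 * M * T / 4 := by rw [hM]; ring
  have hMpos : 0 < M := by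
    have h3 : w₁ ≠ 0 := hw.ne_zero 0
    have : 0 < ‖w₁‖ := norm_pos_iff.2 h3
    positivity
  -- contradiction for large `T`
  set E : ℝ := d * Real.log ‖F 0‖ + Real.log B - Real.log ‖φ 0‖ with hE
  obtain ⟨T, hT⟩ := exists_nat_ge (max (1 / M) (|C₀| * d + |E| + 2))
  have hT1 : 1 / M ≤ T := (le_max_left _ _).trans hT
  have hT2 : |C₀| * d + |E| + 2 ≤ T := (le_max_right _ _).trans hT
  have hTpos : (1 : ℝ) ≤ T := by
    have : 0 ≤ |C₀| * d + |E| := by positivity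
    linarith
  have hTn : 1 ≤ T := by exact_mod_cast hTpos
  have hMT : 4 / 3 ≤ 4 * M * T := by
    rw [div_le_iff₀ hMpos] at hT1
    linarith
  have h3 := est T hTn hMT
  have h4 : (1 / 3 : ℝ) ≤ Real.exp (-1) := by
    rw [Real.exp_neg, one_div]
    apply inv_anti₀ (Real.exp_pos _)
    have := Real.exp_one_lt_d9
    linarith
  have h5 : Real.exp (-(C₀ * (1 + (4 * M * T) ^ 2))) ^ d * ‖φ 0‖ ≤ ‖F 0‖ ^ d * (B * Real.exp (-1) ^ (K * d * (4 * T ^ 2))) := by
    refine h3.trans ?_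
    gcongr
  have h6 : Real.exp (d * -(C₀ * (1 + (4 * M * T) ^ 2)) + Real.log ‖φ 0‖) ≤
      Real.exp (d * Real.log ‖F 0‖ + (Real.log B + ((K * d * (4 * T ^ 2) : ℕ) : ℝ) * (-1))) := by
    rw [Real.exp_add, Real.exp_add, Real.exp_add, Real.exp_nat_mul, Real.exp_nat_mul, Real.exp_nat_mul, Real.exp_log hφpos,
      Real.exp_log hF0pos, Real.exp_log hB0]
    exact h5
  rw [Real.exp_le_exp] at h6
  push_cast at h6
  have hd1 : (1 : ℝ) ≤ d := by exact_mod_cast hd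
  have h7 : C₀ * (1 + (4 * M * T) ^ 2) ≤ |C₀| * (1 + (4 * M * T) ^ 2) :=
    mul_le_mul_of_nonneg_right (le_abs_self _) (by positivity)
  have h8 : (4 * |C₀| * M ^ 2 + 1) * (d * (4 * T ^ 2)) ≤ K * (d * (4 * T ^ 2)) :=
    mul_le_mul_of_nonneg_right hK (by positivity)
  have h9 : (d : ℝ) * (C₀ * (1 + (4 * M * T) ^ 2)) ≤ d * (|C₀| * (1 + (4 * M * T) ^ 2)) :=
    mul_le_mul_of_nonneg_left h7 (by positivity)
  have h10 : E ≤ |E| := le_abs_self _
  have h11 : (d : ℝ) * (4 * T ^ 2) ≤ |C₀| * d + |E| := by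
    rw [hE] at h10 ⊢
    linarith
  have h12 : (T : ℝ) ≤ d * (4 * T ^ 2) := by
    have h13 : (T : ℝ) * 1 ≤ T * T := mul_le_mul_of_nonneg_left hTpos (by linarith)
    have h14 : 1 * (4 * (T : ℝ) ^ 2) ≤ d * (4 * T ^ 2) := mul_le_mul_of_nonneg_right hd1 (by positivity)
    linarith [sq_nonneg (T : ℝ)]
  linarith

end Pool.Agent.H17EF

end
end

section

/-!
# The dimension is at most `N`

PROOF.  Choose `l` with `coordFun P l ≠ 0` (if `coordFun P i = 0` for all `i` then the function field is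
`ℂ` and `n = 0`; or use `h`).  By `adjoin_ratio` the field `FunField P` is generated over `ℂ` by the
`ratio P i l`, `i ≠ l` (`ratio P l l = 1`), a set with at most `N` elements, so it contains a
transcendence basis indexed by a subset `s` of `{i | i ≠ l}` (`exists_isTranscendenceBasis_subset` /
`exists_isTranscendenceBasis_between` with the fact that `FunField P` is algebraic over the subalgebra
generated by the set), and `n = |s| ≤ N` (`IsTranscendenceBasis.cardinalMk_eq`).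
-/

open MvPolynomial
open Pool.Agent.H17GT (coordFun functionField)
open Pool.Agent.H17LG.Variety (FunField ratio)

noncomputable section

namespace Pool.Agent.H13.SM

variable {N : ℕ} {P : Ideal (MvPolynomial (Fin (N + 1)) ℂ)}

theorem trdeg_le [P.IsPrime] {l : Fin (N + 1)} (h : coordFun P l ≠ 0) {n : ℕ}
    {z : Fin n → FunField P} (hz : IsTranscendenceBasis ℂ z) : n ≤ N := by
  have htop : IntermediateField.adjoin ℂ
      (Set.range fun i : Fin N => ratio P (l.succAbove i) l) = ⊤ := by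
    rw [eq_top_iff, ← Pool.Agent.H17R.adjoin_ratio h, IntermediateField.adjoin_le_iff]
    rintro y ⟨i, rfl⟩
    dsimp only
    rcases Fin.eq_self_or_eq_succAbove l i with hi | ⟨j, hj⟩
    · rw [hi, Pool.Agent.H17R.ratio_self h]
      exact one_mem _
    · rw [hj]
      exact IntermediateField.subset_adjoin _ _ ⟨j, rfl⟩
  have halg : Algebra.IsAlgebraic (IntermediateField.adjoin ℂ
      (Set.range fun i : Fin N => ratio P (l.succAbove i) l)) (FunField P) := by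
    rw [htop]
    refine ⟨fun a => ?_⟩
    exact isAlgebraic_algebraMap (⟨a, IntermediateField.mem_top⟩ :
      (⊤ : IntermediateField ℂ (FunField P)))
  obtain ⟨J, hJ⟩ := Pool.Agent.H92.GT.exists_index halg hz
  have hinj : Function.Injective J := by
    intro a b hab
    apply hJ.1.injective
    dsimp only
    rw [hab]
  have := Fintype.card_le_of_injective J hinj
  simpa using this

end Pool.Agent.H13.SM

end
end

section

/-!
# MQ2 Defs: a box with an arbitrary isolated singular point of the foliation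

Everything is in one variable: `Om` is open in `ℂ`, `p : Om → ball 0 r` is a curve tangent to the vector field `v` (`MQ.Crv1`).

* `Child e ι t v w`: `w` is the transform of `v` at the point `t` of the exceptional line `{x = 0}`, old coordinates `(x, x (y + t))`; `x ^ e` has been divided
  out; `ι = 1` if the exceptional line is invariant.  The point `∞` is the point `0` for `swv v`.
* `Tree v`: `v` is reduced by finitely many blow-ups.
* `Wt v g`: `g` is a (reduced) equation of a curve invariant under `v`.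
* `Sep v c`: the germs `c N` are the `N`-jets of a formal curve tangent to `v`.
* `Dat`: the data of a curve in the box and of a form `Q` along it (`q`, `ψ` as in `MQ.shell`).
* `LocX`: the conclusion of the package.
* `Good P v`: the package for `v`, for all weights `g` and Jacobian factors `J` with `P g J`.
-/

set_option autoImplicit false

open Topology Filter Metric MeasureTheory Asymptotics Laplacian

noncomputable section

namespace Pool.Agent.MQ2

open Pool.Agent.H36.BP (EN)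
open Pool.Agent.H30M (tau LogSing)
open Pool.Agent.MQ

/-! ## vector fields -/

/-! ## weights and formal separatrices -/

/-! ## the package -/

/-- a curve in the box and a form `Q` along it; `lm` is an energy density -/
structure Dat (v : ℂ × ℂ → ℂ × ℂ) (g : ℂ × ℂ → ℂ) (r B : ℝ) (d : ℕ) (q : ℂ × ℂ → ℂ) (ψ : ℂ × ℂ → ℝ) {M : ℕ} (F : ℂ → EN M) (Q : ℂ → ℂ) (lm : ℂ → ℝ)
    (Om : Set ℂ) (p : ℂ → ℂ × ℂ) : Prop where
  crv : Crv1 v r Om p
  p_ne : ∀ z ∈ Om, ∃ᶠ w in 𝓝 z, p w ≠ 0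
  g_ne : ∀ z ∈ Om, ∃ᶠ w in 𝓝 z, g (p w) ≠ 0
  lm_cont : Continuous lm
  lm_nonneg : ∀ z, 0 ≤ lm z
  lm_ge : ∀ z ∈ Om, ‖deriv p z‖ ≤ B * lm z
  F_diff : Differentiable ℂ F
  F_ne : ∀ z, F z ≠ 0
  lam_le : ∀ z, lam F z ≤ lm z
  Q_diff : Differentiable ℂ Q
  Q_ne : ∃ z, Q z ≠ 0
  Q_le : ∀ z, ‖Q z‖ ≤ ‖F z‖ ^ d
  Q_eq : ∃ c : ℝ, 0 < c ∧ ∀ z ∈ Om, ‖Q z‖ * Real.exp (d * ψ (p z)) = c * ‖q (p z)‖ * ‖F z‖ ^ d

/-- **The conclusion of the package.**  `l` is a bigger density; outside the polydisc of radius `s` the field `η` is `conj D`; `Φ` is the exact term. -/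
def LocX (v : ℂ × ℂ → ℂ × ℂ) (g J : ℂ × ℂ → ℂ) (Om : Set ℂ) (p : ℂ → ℂ × ℂ) (lm : ℂ → ℝ) (s A δ : ℝ) : Prop :=
  ∃ (C : ℝ) (l : ℂ → ℝ) (η : ℂ → ℂ) (Φ err : ℂ → ℝ), 0 ≤ C ∧ Continuous l ∧ (∀ z, lm z ≤ l z) ∧
    (∀ R, 1 ≤ R → ∫ z, tau R z * l z ^ 2 ≤ A * (∫ z, tau R z * lm z ^ 2) + C) ∧
    ContDiffOn ℝ 1 η Om ∧ ContinuousOn err Om ∧ (∀ z ∈ Om, ∃ c, LogSing Φ c z) ∧
    (∀ z ∈ Om, p z ∉ ball (0 : ℂ × ℂ) s → η z = (starRingEnd ℂ) (DDv v g p z) ∧ err z = 0 ∧ Φ z = 0) ∧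
    (∀ z ∈ Om, p z ∈ ball (0 : ℂ × ℂ) s → ‖η z‖ ≤ C * l z) ∧
    (∀ z ∈ Om, ContDiffAt ℝ 2 Φ z → 0 ≤ dv η z + Δ Φ z + err z) ∧
    (∀ z ∈ Om, ContDiffAt ℝ 2 Φ z → ztv v p z ≠ 0 → g (p z) ≠ 0 → J (p z) ≠ 0 →
      Real.log ‖ztv v p z‖ + Real.log ‖g (p z)‖ + Real.log ‖J (p z)‖ + Φ z ≤ C + Real.log (1 + l z)) ∧
    ∀ R, 1 ≤ R → ∫ z in Om, tau R z * err z ≤ δ * (∫ z, tau R z * lm z ^ 2) + C * (∫ z, ‖gr (tau R) z‖ * l z) + C

/-- **The package** for `v`, for the weights `g` and Jacobian factors `J` with `P g J`. -/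
def Good (P : (ℂ × ℂ → ℂ) → (ℂ × ℂ → ℂ) → Prop) (v : ℂ × ℂ → ℂ × ℂ) : Prop :=
  ∃ (m : ℕ) (c : Fin m → ℕ → ℂ → ℂ × ℂ), (∀ i, Sep v (c i)) ∧
    ∀ g J : ℂ × ℂ → ℂ, P g J → Wt v g → AnalyticAt ℂ J 0 → ∀ᶠ r in 𝓝[>] (0 : ℝ), ∀ s, 0 < s → s < r → ∀ B, 0 ≤ B → ∃ A C₀ : ℝ, 0 ≤ A ∧ 0 ≤ C₀ ∧
      ∀ (d n : ℕ) (q : ℂ × ℂ → ℂ) (ψ : ℂ × ℂ → ℝ), 1 ≤ d → 1 ≤ n → AnalyticAt ℂ q 0 → ContDiffAt ℝ 1 ψ 0 → (∀ i, FZero (c i) g ∨ HasOrd (c i) q n) →
        ∀ (M : ℕ) (F : ℂ → EN M) (Q : ℂ → ℂ) (lm : ℂ → ℝ) (Om : Set ℂ) (p : ℂ → ℂ × ℂ), Dat v g r B d q ψ F Q lm Om p →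
          LocX v g J Om p lm s A (C₀ * d / n)

end Pool.Agent.MQ2

end
end

section

/-!
# MQ2 Step0: the definitions for the blow-up step

`DirP v g J N r Con re B A C₀ O K`: the package of one chart (`O Om p`, with the core `K Om p`) for all curves `p`; `Con n q` is the contact condition for
the form; `ell` is equal to `log |p|` on the ball of radius `re`; `EnB` is the property of the density `l₁` of the blow-up.
-/

set_option autoImplicit false

open Topology Filter Metric MeasureTheory Asymptotics Laplacian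

noncomputable section

namespace Pool.Agent.MQ2

open Pool.Agent.H36.BP (EN)
open Pool.Agent.H30M (tau LogSing)
open Pool.Agent.MQ

/-- the points where the inequality for the logarithms is required -/
def VV (v : ℂ × ℂ → ℂ × ℂ) (g J : ℂ × ℂ → ℂ) (Om : Set ℂ) (p : ℂ → ℂ × ℂ) : Set ℂ := {z | z ∈ Om ∧ ztv v p z ≠ 0 ∧ g (p z) ≠ 0 ∧ J (p z) ≠ 0}

/-- the sum of the logarithms -/
def LL (v : ℂ × ℂ → ℂ × ℂ) (g J : ℂ × ℂ → ℂ) (p : ℂ → ℂ × ℂ) (z : ℂ) : ℝ :=
  Real.log ‖ztv v p z‖ + Real.log ‖g (p z)‖ + Real.log ‖J (p z)‖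

/-- the weight of the transform -/
def gt (ι : ℕ) (g' : ℂ × ℂ → ℂ) (q : ℂ × ℂ) : ℂ := q.1 ^ ι * g' q

/-- the Jacobian factor of the transform -/
def Jt (t : ℂ) (J : ℂ × ℂ → ℂ) (q : ℂ × ℂ) : ℂ := q.1 * J (be t q)

/-- `1/2 log (1 + |slope|²)` -/
def us (p : ℂ → ℂ × ℂ) (z : ℂ) : ℝ := Real.log (1 + ‖slope p z‖ ^ 2) / 2

/-- the estimate of the slopes by the density `l₁` -/
def EnB (Om : Set ℂ) (p : ℂ → ℂ × ℂ) (s : ℝ) (l₁ : ℂ → ℝ) : Prop :=
  ∀ z ∈ Om, p z ∈ closedBall (0 : ℂ × ℂ) s →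
    (∀ h : ℂ → ℂ, AnalyticAt ℂ h z → (∀ᶠ w in 𝓝 z, (p w).2 = (p w).1 * h w) → ‖deriv h z‖ ≤ (1 + ‖h z‖ ^ 2) * l₁ z) ∧
    ∀ h : ℂ → ℂ, AnalyticAt ℂ h z → (∀ᶠ w in 𝓝 z, (p w).1 = (p w).2 * h w) → ‖deriv h z‖ ≤ (1 + ‖h z‖ ^ 2) * l₁ z

/-- `ell = log |p|` near the center -/
def EllP (Om : Set ℂ) (p : ℂ → ℂ × ℂ) (re : ℝ) (ell : ℂ → ℝ) : Prop :=
  ∀ z ∈ Om, p z ≠ 0 → p z ∈ ball (0 : ℂ × ℂ) re → ell z = Real.log (‖(p z).1‖ ^ 2 + ‖(p z).2‖ ^ 2) / 2

/-- **The package of a chart.** -/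
def DirP (v : ℂ × ℂ → ℂ × ℂ) (g J : ℂ × ℂ → ℂ) (N r : ℝ) (Con : ℕ → (ℂ × ℂ → ℂ) → Prop) (re B A C₀ : ℝ) (O K : Set ℂ → (ℂ → ℂ × ℂ) → Set ℂ) : Prop :=
  ∀ (d n : ℕ) (q : ℂ × ℂ → ℂ) (ψ : ℂ × ℂ → ℝ), 1 ≤ d → 1 ≤ n → AnalyticAt ℂ q 0 → ContDiffAt ℝ 1 ψ 0 → Con n q →
    ∀ (M : ℕ) (F : ℂ → EN M) (Q : ℂ → ℂ) (lm : ℂ → ℝ) (Om : Set ℂ) (p : ℂ → ℂ × ℂ), Dat v g r B d q ψ F Q lm Om p →
      ∀ ell : ℂ → ℝ, EllP Om p re ell → ∀ l₁ : ℂ → ℝ, Continuous l₁ → (∀ z, lm z ≤ l₁ z) → EnB Om p re l₁ →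
        ∃ (C : ℝ) (l : ℂ → ℝ) (η D X : ℂ → ℂ) (Φ err u : ℂ → ℝ), 0 ≤ C ∧ Continuous l ∧ (∀ z, l₁ z ≤ l z) ∧
          (∀ R, 1 ≤ R → ∫ z, tau R z * l z ^ 2 ≤ A * (∫ z, tau R z * l₁ z ^ 2) + C) ∧
          Cht (DDv v g p) ell (LL v g J p) (VV v g J Om p) N l C (O Om p) (K Om p) η D X Φ err u ∧
          ∀ R, 1 ≤ R → ∫ z in O Om p, tau R z * err z ≤ C₀ * d / n * (∫ z, tau R z * l₁ z ^ 2) + C * (∫ z, ‖gr (tau R) z‖ * l z) + C

/-- the core of the chart at `t` -/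
def Kt (t : ℂ) (ρ σ : ℝ) (Om : Set ℂ) (p : ℂ → ℂ × ℂ) : Set ℂ := {z | z ∈ Omt Om p t ρ ∧ pt t p z ∈ closedBall (0 : ℂ × ℂ) σ}

end Pool.Agent.MQ2

end
end

section

/-!
# MQ2 TLoc: from `LocalN1` to `LocX`, with `Φ = 0` and the same density; classes of weights
-/

set_option autoImplicit false

open Topology Filter Metric MeasureTheory Asymptotics Laplacian

noncomputable section

namespace Pool.Agent.MQ2

open Pool.Agent.H36.BP (EN)
open Pool.Agent.H30M (tau LogSing)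
open Pool.Agent.MQ

theorem locX_of_localN1 {v : ℂ × ℂ → ℂ × ℂ} {g J : ℂ × ℂ → ℂ} {Om : Set ℂ} {p : ℂ → ℂ × ℂ} {lm : ℂ → ℝ} {s δ B C₁ : ℝ} (hB : 0 ≤ B) (hC₁ : 0 ≤ C₁)
    (hlc : Continuous lm) (hl0 : ∀ z, 0 ≤ lm z) (hp : ∀ z ∈ Om, ‖deriv p z‖ ≤ B * lm z)
    (h : LocalN1 v g Om p (fun R => ∫ z, tau R z * lm z ^ 2) (fun R => ∫ z, ‖gr (tau R) z‖ * lm z) s δ)
    (hpt : ∀ z ∈ Om, ztv v p z ≠ 0 → ‖ztv v p z‖ * ‖g (p z)‖ * ‖J (p z)‖ ≤ C₁ * lm z) : LocX v g J Om p lm s 1 δ := by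
  obtain ⟨C, η, err, hC, hη, herr, hout, hin, he0, hdv, hint⟩ := h
  have hL : ∀ R : ℝ, 0 ≤ ∫ z, ‖gr (tau R) z‖ * lm z := fun R => integral_nonneg fun z => mul_nonneg (norm_nonneg _) (hl0 z)
  refine ⟨max (C * B) (max C (Real.log (1 + C₁))), lm, η, fun _ => 0, err, le_max_of_le_left (mul_nonneg hC hB), hlc, fun z => le_rfl, fun R _ => ?_, hη, herr,
    fun z _ => ⟨0, ?_⟩, fun z hz hs => ⟨(hout z hz hs).1, (hout z hz hs).2, rfl⟩, fun z hz hs => ?_, fun z hz _ => ?_, fun z hz _ h1 h2 h3 => ?_, fun R hR => ?_⟩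
  · rw [one_mul]
    exact le_add_of_nonneg_right (le_max_of_le_left (mul_nonneg hC hB))
  · refine ⟨fun _ => 0, contDiff_const.contDiffAt, Eventually.of_forall fun w => by simp⟩
  · refine (hin z hz hs).trans ?_
    calc C * ‖deriv p z‖ ≤ C * (B * lm z) := mul_le_mul_of_nonneg_left (hp z hz) hC
      _ = C * B * lm z := by ring
      _ ≤ _ := mul_le_mul_of_nonneg_right (le_max_left _ _) (hl0 z)
  · have h0 : Δ (fun _ : ℂ => (0 : ℝ)) z = 0 := by
      rw [InnerProductSpace.laplacian_const]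
      rfl
    rw [h0, add_zero]
    exact hdv z hz
  · have h4 := hpt z hz h1
    have h5 : Real.log ‖ztv v p z‖ + Real.log ‖g (p z)‖ + Real.log ‖J (p z)‖ = Real.log (‖ztv v p z‖ * ‖g (p z)‖ * ‖J (p z)‖) := by
      rw [Real.log_mul (mul_ne_zero (norm_ne_zero_iff.2 h1) (norm_ne_zero_iff.2 h2)) (norm_ne_zero_iff.2 h3), Real.log_mul (norm_ne_zero_iff.2 h1) (norm_ne_zero_iff.2 h2)]
    rw [h5, add_zero]
    have h6 : 0 < ‖ztv v p z‖ * ‖g (p z)‖ * ‖J (p z)‖ :=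
      mul_pos (mul_pos (norm_pos_iff.2 h1) (norm_pos_iff.2 h2)) (norm_pos_iff.2 h3)
    have h7 : C₁ * lm z ≤ (1 + C₁) * (1 + lm z) := by nlinarith [hl0 z]
    calc Real.log (‖ztv v p z‖ * ‖g (p z)‖ * ‖J (p z)‖) ≤ Real.log ((1 + C₁) * (1 + lm z)) := Real.log_le_log h6 (h4.trans h7)
      _ = Real.log (1 + C₁) + Real.log (1 + lm z) := Real.log_mul (by linarith) (by linarith [hl0 z])
      _ ≤ _ := by gcongr; exact (le_max_right _ _).trans (le_max_right _ _)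
  · refine (hint R hR).trans ?_
    have h1 : C ≤ max (C * B) (max C (Real.log (1 + C₁))) := (le_max_left _ _).trans (le_max_right _ _)
    have h2 := mul_le_mul_of_nonneg_right h1 (hL R)
    simp only at h2 ⊢
    linarith

/-! ### classes of weights -/

theorem good_of_wt {v : ℂ × ℂ → ℂ × ℂ} {P P' : (ℂ × ℂ → ℂ) → (ℂ × ℂ → ℂ) → Prop} (h : Good P' v)
    (hP : ∀ g J, P g J → Wt v g → AnalyticAt ℂ J 0 → P' g J) : Good P v := by
  obtain ⟨m, c, hc, h1⟩ := h
  exact ⟨m, c, hc, fun g J hg hw hJ => h1 g J (hP g J hg hw hJ) hw hJ⟩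

theorem good_or {v : ℂ × ℂ → ℂ × ℂ} {P P' : (ℂ × ℂ → ℂ) → (ℂ × ℂ → ℂ) → Prop} (h : Good P v) (h' : Good P' v) :
    Good (fun g J => P g J ∨ P' g J) v := by
  obtain ⟨m, c, hc, h1⟩ := h
  obtain ⟨m', c', hc', h1'⟩ := h'
  refine ⟨m + m', Fin.append c c', ?_, ?_⟩
  · intro i
    refine Fin.addCases (fun i => ?_) (fun i => ?_) i
    · rw [Fin.append_left]; exact hc i
    · rw [Fin.append_right]; exact hc' i
  · intro g J hg hw hJ
    rcases hg with hg | hg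
    · filter_upwards [h1 g J hg hw hJ] with r hr s hs hsr B hB
      obtain ⟨A, C₀, hA, hC₀, h2⟩ := hr s hs hsr B hB
      refine ⟨A, C₀, hA, hC₀, fun d n q ψ hd hn hq hψ hi => h2 d n q ψ hd hn hq hψ fun i => ?_⟩
      have := hi (Fin.castAdd m' i)
      rwa [Fin.append_left] at this
    · filter_upwards [h1' g J hg hw hJ] with r hr s hs hsr B hB
      obtain ⟨A, C₀, hA, hC₀, h2⟩ := hr s hs hsr B hB
      refine ⟨A, C₀, hA, hC₀, fun d n q ψ hd hn hq hψ hi => h2 d n q ψ hd hn hq hψ fun i => ?_⟩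
      have := hi (Fin.natAdd m i)
      rwa [Fin.append_right] at this

end Pool.Agent.MQ2

end
end
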