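import Pool.Agent.H94.G6.M12
import Pool.Agent.H94.G6.M22
import Pool.Agent.H94.G6.M33

/-! The parts of this file: H17BP.ChartC, H17BP.StepN, H17BP.TanK, H30M.Reg, H30M.Fund. -/

section

/-!
# The charts of the blow-up, up to coordinate changes

Proof of `bchart_class`.  By definition `β = θ₁ ∘ bl 0 ∘ θ₂`; it is enough to write `θ₁ ∘ bl 0` as `bl c ∘ θ'` or
`blInf ∘ θ'` (then compose with `θ₂`).  Let `θ₁ = (A, B)`, so `A 0 = B 0 = 0` and
`d := dx A 0 * dy B 0 - dy A 0 * dx B 0 ≠ 0` (`coord_iff`).  The functions `A (x, x w)`, `B (x, x w)` vanish for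
`x = 0`, so (`exists_div_x`) they are `x A₁(x, w)`, `x B₁(x, w)`, and by differentiating in `x` at `x = 0`:
`A₁ (0, w) = dx A 0 + w dy A 0`, `B₁ (0, w) = dx B 0 + w dy B 0`.
If `A₁ 0 ≠ 0`: `c = B₁ 0 / A₁ 0`, `θ' = (x A₁, B₁ / A₁ - c)`: `bl c θ' = (x A₁, x A₁ (B₁ / A₁)) = θ₁ (x, x w)`, and
`θ'` is `Bihol` by `coord_iff`: its derivative matrix at `0` is `((A₁ 0, 0), (*, d / (A₁ 0)²))`.
If `A₁ 0 = dx A 0 = 0`: `B₁ 0 = dx B 0 ≠ 0`, `θ' = (A₁ / B₁, x B₁)`, `blInf θ' = (x A₁, x B₁)`, determinant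
`- (dy A 0 / B₁ 0) * B₁ 0 = - dy A 0 ≠ 0`.
-/

open Topology Filter

noncomputable section

namespace Pool.Agent.H17BP

private theorem ChartC_derX {f : ℂ × ℂ → ℂ} (hf : AnalyticAt ℂ f 0) :
    HasDerivAt (fun t : ℂ => f (t, 0)) (dx f 0) 0 := by
  have h1 : HasDerivAt (fun t : ℂ => (t, (0 : ℂ))) ((1 : ℂ), (0 : ℂ)) 0 :=
    (hasDerivAt_id (0 : ℂ)).prodMk (hasDerivAt_const (0 : ℂ) (0 : ℂ))
  have h2 : HasFDerivAt f (fderiv ℂ f 0) ((fun t : ℂ => (t, (0 : ℂ))) 0) := hf.differentiableAt.hasFDerivAt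
  exact HasFDerivAt.comp_hasDerivAt (f := fun t : ℂ => (t, (0 : ℂ))) (0 : ℂ) h2 h1

private theorem ChartC_derY {f : ℂ × ℂ → ℂ} (hf : AnalyticAt ℂ f 0) :
    HasDerivAt (fun w : ℂ => f (0, w)) (dy f 0) 0 := by
  have h1 : HasDerivAt (fun w : ℂ => ((0 : ℂ), w)) ((0 : ℂ), (1 : ℂ)) 0 :=
    (hasDerivAt_const (0 : ℂ) (0 : ℂ)).prodMk (hasDerivAt_id (0 : ℂ))
  have h2 : HasFDerivAt f (fderiv ℂ f 0) ((fun w : ℂ => ((0 : ℂ), w)) 0) := hf.differentiableAt.hasFDerivAt
  exact HasFDerivAt.comp_hasDerivAt (f := fun w : ℂ => ((0 : ℂ), w)) (0 : ℂ) h2 h1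

/-- the strict transform of a function in the chart `bl 0` -/
private theorem ChartC_div {A : ℂ × ℂ → ℂ} (hA : AnalyticAt ℂ A 0) (hA0 : A 0 = 0) :
    ∃ A₁ : ℂ × ℂ → ℂ, AnalyticAt ℂ A₁ 0 ∧ (∀ᶠ x in 𝓝 (0 : ℂ × ℂ), A (bl 0 x) = x.1 * A₁ x) ∧
      ∀ᶠ w in 𝓝 (0 : ℂ), A₁ (0, w) = dx A 0 + w * dy A 0 := by
  have hcomp : AnalyticAt ℂ (fun x => A (bl 0 x)) 0 := by
    have h1 : AnalyticAt ℂ A (bl 0 0) := by rw [bl_zero]; exact hA
    exact h1.comp (analyticAt_bl 0 0)
  obtain ⟨A₁, h1, h2⟩ := exists_div_x hcomp (Eventually.of_forall fun y => by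
    change A (bl 0 (0, y)) = 0
    have : bl 0 ((0 : ℂ), y) = 0 := by
      unfold bl
      simp
    rw [this, hA0])
  refine ⟨A₁, h1, h2, ?_⟩
  have hc : Tendsto (fun w : ℂ => ((0 : ℂ), w)) (𝓝 0) (𝓝 (0 : ℂ × ℂ)) := by
    have : Continuous (fun w : ℂ => ((0 : ℂ), w)) := by fun_prop
    exact this.tendsto' 0 0 rfl
  have h3 := hc.eventually h2.eventually_nhds
  have h4 := hc.eventually h1.eventually_analyticAt
  filter_upwards [h3, h4] with w hw3 hw4
  -- two derivatives in `t`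
  have hc' : Tendsto (fun t : ℂ => (t, w)) (𝓝 0) (𝓝 ((0 : ℂ), w)) := by
    have : Continuous (fun t : ℂ => (t, w)) := by fun_prop
    exact this.tendsto' 0 _ rfl
  have h5 := hc'.eventually hw3
  have hd1 : HasDerivAt (fun t : ℂ => A₁ (t, w)) (fderiv ℂ A₁ (0, w) (1, 0)) 0 := by
    have h6 : HasDerivAt (fun t : ℂ => (t, w)) ((1 : ℂ), (0 : ℂ)) 0 :=
      (hasDerivAt_id (0 : ℂ)).prodMk (hasDerivAt_const (0 : ℂ) w)
    have h7 : HasFDerivAt A₁ (fderiv ℂ A₁ (0, w)) ((fun t : ℂ => (t, w)) 0) := hw4.differentiableAt.hasFDerivAt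
    exact HasFDerivAt.comp_hasDerivAt (f := fun t : ℂ => (t, w)) (0 : ℂ) h7 h6
  have hd2 : HasDerivAt (fun t : ℂ => t * A₁ (t, w)) (A₁ (0, w)) 0 := by
    have h8 : HasDerivAt (fun t : ℂ => t * A₁ (t, w)) (1 * A₁ (0, w) + 0 * fderiv ℂ A₁ (0, w) (1, 0)) 0 :=
      (hasDerivAt_id (0 : ℂ)).mul hd1
    rwa [one_mul, zero_mul, add_zero] at h8
  have hd3 : HasDerivAt (fun t : ℂ => A (bl 0 (t, w))) (A₁ (0, w)) 0 := by
    refine hd2.congr_of_eventuallyEq ?_
    filter_upwards [h5] with t ht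
    exact ht
  have hd4 : HasDerivAt (fun t : ℂ => A (bl 0 (t, w))) (fderiv ℂ A 0 (1, w)) 0 := by
    have h6 : HasDerivAt (fun t : ℂ => bl 0 (t, w)) ((1 : ℂ), w) 0 := by
      have h7 : HasDerivAt (fun t : ℂ => t * (0 + w)) (1 * (0 + w)) 0 := (hasDerivAt_id (0 : ℂ)).mul_const (0 + w)
      have h8 : HasDerivAt (fun t : ℂ => (t, t * (0 + w))) ((1 : ℂ), 1 * (0 + w)) 0 :=
        (hasDerivAt_id (0 : ℂ)).prodMk h7
      have h9 : ((1 : ℂ), w) = ((1 : ℂ), 1 * (0 + w)) := by rw [one_mul, zero_add]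
      rw [h9]
      exact h8
    have h7 : HasFDerivAt A (fderiv ℂ A 0) ((fun t : ℂ => bl 0 (t, w)) 0) := by
      have h8 : bl 0 ((0 : ℂ), w) = 0 := by
        unfold bl
        simp
      change HasFDerivAt A (fderiv ℂ A 0) (bl 0 ((0 : ℂ), w))
      rw [h8]
      exact hA.differentiableAt.hasFDerivAt
    exact HasFDerivAt.comp_hasDerivAt (f := fun t : ℂ => bl 0 (t, w)) (0 : ℂ) h7 h6
  rw [hd3.unique hd4]
  have h9 : ((1 : ℂ), w) = (1, 0) + w • ((0 : ℂ), (1 : ℂ)) := by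
    ext <;> simp
  rw [h9, map_add, map_smul]
  rfl

private theorem ChartC_core {θ₁ : ℂ × ℂ → ℂ × ℂ} (h : Bihol θ₁) : ∃ θ : ℂ × ℂ → ℂ × ℂ, Bihol θ ∧
    ((∃ c : ℂ, ∀ᶠ x in 𝓝 0, θ₁ (bl 0 x) = bl c (θ x)) ∨ ∀ᶠ x in 𝓝 0, θ₁ (bl 0 x) = blInf (θ x)) := by
  have hco : Coord (fun x => (θ₁ x).1) (fun x => (θ₁ x).2) := h
  obtain ⟨hA, hB, hA0, hB0⟩ := hco.parts
  have hd := (coord_iff hA hB hA0 hB0).1 hco
  obtain ⟨A₁, a1, a2, a3⟩ := ChartC_div hA hA0
  obtain ⟨B₁, b1, b2, b3⟩ := ChartC_div hB hB0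
  generalize hpa : dx (fun x => (θ₁ x).1) 0 = pa at *
  generalize hqa : dy (fun x => (θ₁ x).1) 0 = qa at *
  generalize hpb : dx (fun x => (θ₁ x).2) 0 = pb at *
  generalize hqb : dy (fun x => (θ₁ x).2) 0 = qb at *
  have a4 : A₁ 0 = pa := by
    have := a3.self_of_nhds
    rwa [zero_mul, add_zero] at this
  have b4 : B₁ 0 = pb := by
    have := b3.self_of_nhds
    rwa [zero_mul, add_zero] at this
  -- the derivative of an affine function
  have haff : ∀ p q : ℂ, HasDerivAt (fun w : ℂ => p + w * q) q 0 := by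
    intro p q
    have := ((hasDerivAt_id (0 : ℂ)).mul_const q).const_add p
    simpa using this
  -- the derivative of a product with `x`
  have hprod : ∀ {C : ℂ × ℂ → ℂ}, AnalyticAt ℂ C 0 → dx (fun x => x.1 * C x) 0 = C 0 ∧ dy (fun x => x.1 * C x) 0 = 0 := by
    intro C hC
    have hS : AnalyticAt ℂ (fun x : ℂ × ℂ => x.1 * C x) 0 := analyticAt_fst.mul hC
    constructor
    · refine (ChartC_derX hS).unique ?_
      have h1 := (hasDerivAt_id (0 : ℂ)).mul (ChartC_derX hC)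
      have h2 : (1 : ℂ) * C (0, 0) + id (0 : ℂ) * dx C 0 = C 0 := by
        rw [one_mul, id, zero_mul, add_zero]
        rfl
      rw [← h2]
      exact h1
    · refine (ChartC_derY hS).unique ?_
      have h1 : (fun w : ℂ => ((0 : ℂ), w).1 * C (0, w)) = fun _ => 0 := by
        funext w
        simp
      rw [h1]
      exact hasDerivAt_const _ _
  by_cases hz : pa = 0
  · -- the point at infinity
    have hpb0 : pb ≠ 0 := by
      intro h0
      apply hd
      rw [hz, h0]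
      ring
    have hqa0 : qa ≠ 0 := by
      intro h0
      apply hd
      rw [hz, h0]
      ring
    have hB1 : B₁ 0 ≠ 0 := by rw [b4]; exact hpb0
    have hS : AnalyticAt ℂ (fun x => A₁ x / B₁ x) 0 := a1.div b1 hB1
    have hT : AnalyticAt ℂ (fun x : ℂ × ℂ => x.1 * B₁ x) 0 := analyticAt_fst.mul b1
    have hSy : dy (fun x => A₁ x / B₁ x) 0 = qa / pb := by
      refine (ChartC_derY hS).unique ?_
      have h1 := (haff pa qa).div (haff pb qb) (by simpa using hpb0)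
      have h2 : HasDerivAt (fun w : ℂ => (pa + w * qa) / (pb + w * qb)) (qa / pb) 0 := by
        refine h1.congr_deriv ?_
        rw [hz]
        simp only [zero_mul, add_zero, sub_zero]
        field_simp
      refine h2.congr_of_eventuallyEq ?_
      filter_upwards [a3, b3] with w hwa hwb
      rw [hwa, hwb]
    have hθ : Coord (fun x => A₁ x / B₁ x) (fun x : ℂ × ℂ => x.1 * B₁ x) := by
      rw [coord_iff hS hT (by rw [a4, hz, zero_div]) (by simp)]
      rw [(hprod b1).2, (hprod b1).1, hSy, b4]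
      intro h0
      apply hqa0
      field_simp at h0
      simpa using h0
    refine ⟨fun x => (A₁ x / B₁ x, x.1 * B₁ x), hθ, Or.inr ?_⟩
    filter_upwards [a2, b2, b1.continuousAt.eventually_ne hB1] with x h1 h2 h3
    unfold blInf
    ext
    · change (θ₁ (bl 0 x)).1 = A₁ x / B₁ x * (x.1 * B₁ x)
      rw [h1]
      field_simp
    · exact h2
  · -- a finite point
    have hA1 : A₁ 0 ≠ 0 := by rw [a4]; exact hz
    have hS : AnalyticAt ℂ (fun x : ℂ × ℂ => x.1 * A₁ x) 0 := analyticAt_fst.mul a1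
    have hT : AnalyticAt ℂ (fun x => B₁ x / A₁ x - pb / pa) 0 := (b1.div a1 hA1).sub analyticAt_const
    have hTy : dy (fun x => B₁ x / A₁ x - pb / pa) 0 = (pa * qb - qa * pb) / pa ^ 2 := by
      refine (ChartC_derY hT).unique ?_
      have h1 := ((haff pb qb).div (haff pa qa) (by simpa using hz)).sub_const (pb / pa)
      have h2 : HasDerivAt (fun w : ℂ => (pb + w * qb) / (pa + w * qa) - pb / pa) ((pa * qb - qa * pb) / pa ^ 2) 0 := by
        refine h1.congr_deriv ?_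
        simp only [zero_mul, add_zero]
        ring
      refine h2.congr_of_eventuallyEq ?_
      filter_upwards [a3, b3] with w hwa hwb
      rw [hwa, hwb]
    have hθ : Coord (fun x : ℂ × ℂ => x.1 * A₁ x) (fun x => B₁ x / A₁ x - pb / pa) := by
      rw [coord_iff hS hT (by simp) (by rw [a4, b4, sub_self])]
      rw [(hprod a1).1, (hprod a1).2, hTy, a4, zero_mul, sub_zero]
      exact mul_ne_zero hz (div_ne_zero hd (pow_ne_zero 2 hz))
    refine ⟨fun x => (x.1 * A₁ x, B₁ x / A₁ x - pb / pa), hθ, Or.inl ⟨pb / pa, ?_⟩⟩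
    filter_upwards [a2, b2, a1.continuousAt.eventually_ne hA1] with x h1 h2 h3
    unfold bl at *
    ext
    · exact h1
    · change (θ₁ (x.1, x.1 * (0 + x.2))).2 = x.1 * A₁ x * (pb / pa + (B₁ x / A₁ x - pb / pa))
      rw [h2]
      field_simp
      ring

theorem bchart_class {β : ℂ × ℂ → ℂ × ℂ} (h : BChart β) : ∃ θ : ℂ × ℂ → ℂ × ℂ, Bihol θ ∧
    ((∃ c : ℂ, ∀ᶠ x in 𝓝 0, β x = bl c (θ x)) ∨ ∀ᶠ x in 𝓝 0, β x = blInf (θ x)) := by
  obtain ⟨θ₁, θ₂, h1, h2, h3⟩ := h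
  obtain ⟨θ, h4, h5⟩ := ChartC_core h1
  refine ⟨θ ∘ θ₂, h4.comp h2, ?_⟩
  rcases h5 with ⟨c, h5⟩ | h5
  · refine Or.inl ⟨c, ?_⟩
    filter_upwards [h3, h2.tendsto.eventually h5] with x hx hx'
    rw [hx, hx']
    rfl
  · refine Or.inr ?_
    filter_upwards [h3, h2.tendsto.eventually h5] with x hx hx'
    rw [hx, hx']
    rfl

/-- `bl c = (linear map) ∘ bl 0`, `blInf = swap ∘ bl 0 ∘ swap`. -/
theorem bchart_bl (c : ℂ) : BChart (bl c) := by
  refine ⟨fun x => (x.1, x.2 + c * x.1), fun x => x, ?_, Bihol.id, Eventually.of_forall fun x => ?_⟩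
  · refine ⟨?_, by simp, fun x => (x.1, x.2 - c * x.1), ?_, by simp, Eventually.of_forall fun x => by simp,
      Eventually.of_forall fun x => by simp⟩
    · exact analyticAt_fst.prod (analyticAt_snd.add (analyticAt_const.mul analyticAt_fst))
    · exact analyticAt_fst.prod (analyticAt_snd.sub (analyticAt_const.mul analyticAt_fst))
  · unfold bl
    ext
    · rfl
    · simp only
      ring

theorem bchart_blInf : BChart blInf := by
  have hsw : Bihol (fun x : ℂ × ℂ => (x.2, x.1)) :=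
    ⟨analyticAt_snd.prod analyticAt_fst, rfl, fun x => (x.2, x.1), analyticAt_snd.prod analyticAt_fst, rfl,
      Eventually.of_forall fun _ => rfl, Eventually.of_forall fun _ => rfl⟩
  refine ⟨fun x => (x.2, x.1), fun x => (x.2, x.1), hsw, hsw, Eventually.of_forall fun x => ?_⟩
  unfold bl blInf
  ext
  · simp only
    ring
  · rfl

end Pool.Agent.H17BP

end
end

section

/-!
# One blow-up

`resN_succ`: by `bchart_class` every chart is `bl c ∘ θ` or `blInf ∘ θ`; use `ResN.comp`, `ResN.congr`.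
`uniform`: take the maximum `n` of the finitely many depths (`Set.Finite`, `Finset.sup`), `ResN.mono_le`,
`ResN.of_mono`, then `resN_succ`.
-/

open Topology Filter

noncomputable section

namespace Pool.Agent.H17BP

theorem resN_succ {n : ℕ} {g : ℂ × ℂ → ℂ} (h : ∀ c, ResN n (g ∘ bl c)) (h' : ResN n (g ∘ blInf)) :
    ResN (n + 1) g := by
  refine Or.inr fun β hβ => ?_
  obtain ⟨θ, hθ, hc⟩ := bchart_class hβ
  rcases hc with ⟨c, hc⟩ | hc
  · refine ((h c).comp hθ).congr ?_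
    filter_upwards [hc] with x hx
    simp only [Function.comp_apply]
    rw [hx]
  · refine (h'.comp hθ).congr ?_
    filter_upwards [hc] with x hx
    simp only [Function.comp_apply]
    rw [hx]

theorem uniform {g : ℂ × ℂ → ℂ} {S : Set ℂ} (hS : S.Finite) (h1 : ∀ c ∉ S, Mono (g ∘ bl c))
    (h2 : ∀ c ∈ S, ∃ n, ResN n (g ∘ bl c)) (h3 : ∃ n, ResN n (g ∘ blInf)) : ∃ n, ResN n g := by
  obtain ⟨m, hm⟩ := h3
  choose! f hf using h2
  refine ⟨max m (hS.toFinset.sup f) + 1, resN_succ (fun c => ?_) (hm.mono_le (le_max_left _ _))⟩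
  by_cases hc : c ∈ S
  · exact (hf c hc).mono_le (le_trans (Finset.le_sup (f := f) (hS.mem_toFinset.mpr hc))
      (le_max_right _ _))
  · exact ResN.of_mono (h1 c hc) _

end Pool.Agent.H17BP

end
end

section

/-!
# A smooth curve tangent to an exceptional curve

Induction on `k` (the exponent is `k + 1`), `g = x^a y^b (x - y^(k+1) v(y))^n u`.
Chart `blInf` (`x ↦ x y, y ↦ y`): `x^a y^(a+b+n) (x - y^k v(y))^n u'`, `u' = u ∘ blInf`.  If `k ≥ 1` this is the
induction hypothesis (with `b := a + b + n`); if `k = 0` the factor `x - v(y)` is a unit at `0`, so `Mono` with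
`S = x.1, T = x.2`.
Chart `bl c` (`x ↦ x, y ↦ x (c + w)`): `x^(a+b+n) (c+w)^b (1 - x^k (c+w)^(k+1) v(x(c+w)))^n u'`.
 * `k ≥ 1`: the last factor is a unit at `0`, and `(c+w)^b` is a unit if `c ≠ 0` and `w^b` if `c = 0`: `Mono`.
 * `k = 0`: `F' = 1 - (c+w) v(x(c+w))`.  `c = 0`: `F'` is a unit, `w^b`: `Mono`.  `c ≠ 0`: `(c+w)^b` is a unit; if
   `1 - c v(0) ≠ 0`: `F'` is a unit: `Mono` (`T = x.2`, exponent `0`); otherwise `F' 0 = 0`, `dy F' 0 = - v 0 ≠ 0`, so
   `(x, F')` are local coordinates (`coord_iff`): `Mono` with `S = x.1, T = F'`.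
Use `resN_succ` (with `n = k`) and `ResN.of_mono`.
-/

open Topology Filter

noncomputable section

namespace Pool.Agent.H17BP

private theorem TanK_unit_pow {f : ℂ × ℂ → ℂ} (hf : AnalyticAt ℂ f 0) (h0 : f 0 ≠ 0) (n : ℕ) :
    AnalyticAt ℂ (fun x => f x ^ n) 0 ∧ f 0 ^ n ≠ 0 := ⟨hf.pow n, pow_ne_zero n h0⟩

private theorem TanK_dy {f : ℂ × ℂ → ℂ} (hf : AnalyticAt ℂ f 0) {a : ℂ}
    (h : HasDerivAt (fun w : ℂ => f (0, w)) a 0) : dy f 0 = a := by
  have h1 : HasDerivAt (fun w : ℂ => ((0 : ℂ), w)) ((0 : ℂ), (1 : ℂ)) 0 :=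
    (hasDerivAt_const (0 : ℂ) (0 : ℂ)).prodMk (hasDerivAt_id' (0 : ℂ))
  have h2 : HasFDerivAt f (fderiv ℂ f 0) ((fun w : ℂ => ((0 : ℂ), w)) 0) :=
    hf.differentiableAt.hasFDerivAt
  have h3 := HasFDerivAt.comp_hasDerivAt (0 : ℂ) h2 h1
  exact h3.unique h

/-- the charts at the finite points -/
private theorem TanK_bl (k : ℕ) {v : ℂ → ℂ} (hv : AnalyticAt ℂ v 0) (hv0 : v 0 ≠ 0) (a b n : ℕ)
    {u : ℂ × ℂ → ℂ} (hu : AnalyticAt ℂ u 0) (hu0 : u 0 ≠ 0) (c : ℂ) :
    Mono ((fun x => x.1 ^ a * x.2 ^ b * (x.1 - x.2 ^ (k + 1) * v x.2) ^ n * u x) ∘ bl c) := by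
  have hub : AnalyticAt ℂ (fun x => u (bl c x)) 0 := by
    have h2 : AnalyticAt ℂ u (bl c 0) := by rw [bl_zero]; exact hu
    exact h2.comp (analyticAt_bl c 0)
  have hub0 : u (bl c 0) ≠ 0 := by rw [bl_zero]; exact hu0
  obtain ⟨ℓ, hℓ⟩ : ∃ ℓ : ℂ × ℂ → ℂ, ℓ = fun x => c + x.2 := ⟨_, rfl⟩
  have hℓa : AnalyticAt ℂ ℓ 0 := by
    rw [hℓ]
    exact analyticAt_const.add analyticAt_snd
  have hℓ0 : ℓ 0 = c := by rw [hℓ]; simp
  have hvc : AnalyticAt ℂ (fun x : ℂ × ℂ => v (x.1 * ℓ x)) 0 := by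
    have h2 : AnalyticAt ℂ v ((fun x : ℂ × ℂ => x.1 * ℓ x) 0) := by
      simpa using hv
    exact AnalyticAt.comp (g := v) (f := fun x : ℂ × ℂ => x.1 * ℓ x) h2 (analyticAt_fst.mul hℓa)
  obtain ⟨F, hF⟩ : ∃ F : ℂ × ℂ → ℂ, F = fun x => 1 - x.1 ^ k * ℓ x ^ (k + 1) * v (x.1 * ℓ x) :=
    ⟨_, rfl⟩
  have hFa : AnalyticAt ℂ F 0 := by
    rw [hF]
    exact analyticAt_const.sub (((analyticAt_fst.pow k).mul (hℓa.pow (k + 1))).mul hvc)
  have hF0 : F 0 = 1 - 0 ^ k * c ^ (k + 1) * v 0 := by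
    rw [hF]
    simp only [hℓ0, Prod.fst_zero, zero_mul]
  have hg : ∀ x, ((fun x : ℂ × ℂ => x.1 ^ a * x.2 ^ b * (x.1 - x.2 ^ (k + 1) * v x.2) ^ n * u x) ∘
      bl c) x = x.1 ^ (a + b + n) * (ℓ x ^ b * F x ^ n * u (bl c x)) := by
    intro x
    have e1 : x.1 - (x.1 * ℓ x) ^ (k + 1) * v (x.1 * ℓ x) = x.1 * F x := by
      rw [hF]
      ring
    have e2 : (bl c x).2 = x.1 * ℓ x := by rw [hℓ]; rfl
    have e3 : (bl c x).1 = x.1 := rfl
    simp only [Function.comp_apply]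
    rw [e2, e3, e1]
    ring
  by_cases h0 : F 0 = 0
  · -- the curve passes through this point
    have hk : k = 0 := by
      by_contra hk
      rw [hF0, zero_pow hk, zero_mul, zero_mul, sub_zero] at h0
      exact one_ne_zero h0
    subst hk
    have hc : c ≠ 0 := by
      intro hc
      rw [hF0, hc] at h0
      simp at h0
    have hdy : dy F 0 = -v 0 := by
      refine TanK_dy hFa ?_
      have e1 : (fun w : ℂ => F (0, w)) = fun w => 1 - (c + w) * v 0 := by
        funext w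
        rw [hF, hℓ]
        simp
      rw [e1]
      have h1 : HasDerivAt (fun w : ℂ => (c + w) * v 0) (1 * v 0) 0 :=
        ((hasDerivAt_id' (0 : ℂ)).const_add c).mul_const (v 0)
      have h2 := h1.const_sub 1
      rw [one_mul] at h2
      exact h2
    have hcoord : Coord (fun x => x.1) F := by
      rw [coord_iff analyticAt_fst hFa rfl h0, hdy]
      have e1 : dx (fun x : ℂ × ℂ => x.1) 0 = 1 := by
        unfold dx
        rw [fderiv_fst]
        rfl
      have e2 : dy (fun x : ℂ × ℂ => x.1) 0 = 0 := by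
        unfold dy
        rw [fderiv_fst]
        rfl
      rw [e1, e2]
      simpa using hv0
    obtain ⟨p1, p2⟩ := TanK_unit_pow hℓa (by rw [hℓ0]; exact hc) b
    refine ⟨fun x => x.1, F, a + b + n, n, fun x => ℓ x ^ b * u (bl c x), hcoord, p1.mul hub,
      mul_ne_zero p2 hub0, Eventually.of_forall fun x => ?_⟩
    rw [hg x]
    ring
  · obtain ⟨q1, q2⟩ := TanK_unit_pow hFa h0 n
    by_cases hc : c = 0
    · refine ⟨fun x => x.1, fun x => x.2, a + b + n, b, fun x => F x ^ n * u (bl c x),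
        coord_fst_snd, q1.mul hub, mul_ne_zero q2 hub0, Eventually.of_forall fun x => ?_⟩
      have e1 : ℓ x = x.2 := by rw [hℓ, hc]; simp
      rw [hg x, e1]
      ring
    · obtain ⟨p1, p2⟩ := TanK_unit_pow hℓa (by rw [hℓ0]; exact hc) b
      refine ⟨fun x => x.1, fun x => x.2, a + b + n, 0,
        fun x => ℓ x ^ b * F x ^ n * u (bl c x), coord_fst_snd, (p1.mul q1).mul hub,
        mul_ne_zero (mul_ne_zero p2 q2) hub0, Eventually.of_forall fun x => ?_⟩
      rw [hg x]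
      ring

theorem res_tangent (k : ℕ) : ∀ {v : ℂ → ℂ} (_ : AnalyticAt ℂ v 0) (_ : v 0 ≠ 0) (a b n : ℕ)
    {u : ℂ × ℂ → ℂ} (_ : AnalyticAt ℂ u 0) (_ : u 0 ≠ 0),
    ResN (k + 1) (fun x => x.1 ^ a * x.2 ^ b * (x.1 - x.2 ^ (k + 1) * v x.2) ^ n * u x) := by
  have huc : ∀ {u : ℂ × ℂ → ℂ}, AnalyticAt ℂ u 0 → u 0 ≠ 0 →
      AnalyticAt ℂ (fun x => u (blInf x)) 0 ∧ u (blInf 0) ≠ 0 := by
    intro u hu hu0
    have h2 : AnalyticAt ℂ u (blInf 0) := by rw [blInf_zero]; exact hu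
    exact ⟨h2.comp (analyticAt_blInf 0), by rw [blInf_zero]; exact hu0⟩
  induction k with
  | zero =>
    intro v hv hv0 a b n u hu hu0
    refine resN_succ (fun c => ResN.of_mono (TanK_bl 0 hv hv0 a b n hu hu0 c) 0) ?_
    obtain ⟨w1, w2⟩ := huc hu hu0
    have hw : AnalyticAt ℂ (fun x : ℂ × ℂ => x.1 - v x.2) 0 := by
      have h2 : AnalyticAt ℂ v ((0 : ℂ × ℂ).2) := by simpa using hv
      exact analyticAt_fst.sub (AnalyticAt.comp (g := v) (f := fun x : ℂ × ℂ => x.2) h2 analyticAt_snd)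
    obtain ⟨q1, q2⟩ := TanK_unit_pow hw (by simpa using hv0) n
    refine ⟨fun x => x.1, fun x => x.2, a, a + b + n,
      fun x => (x.1 - v x.2) ^ n * u (blInf x), coord_fst_snd, q1.mul w1, mul_ne_zero q2 w2,
      Eventually.of_forall fun x => ?_⟩
    have e1 : (blInf x).1 = x.1 * x.2 := rfl
    have e2 : (blInf x).2 = x.2 := rfl
    have e3 : x.1 * x.2 - x.2 ^ (0 + 1) * v x.2 = x.2 * (x.1 - v x.2) := by ring
    simp only [Function.comp_apply]
    rw [e1, e2, e3, mul_pow x.2]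
    ring
  | succ k ih =>
    intro v hv hv0 a b n u hu hu0
    refine resN_succ (fun c => ResN.of_mono (TanK_bl (k + 1) hv hv0 a b n hu hu0 c) (k + 1)) ?_
    obtain ⟨w1, w2⟩ := huc hu hu0
    refine (ih hv hv0 a (a + b + n) n w1 w2).congr (Eventually.of_forall fun x => ?_)
    have e1 : (blInf x).1 = x.1 * x.2 := rfl
    have e2 : (blInf x).2 = x.2 := rfl
    have e3 : x.1 * x.2 - x.2 ^ (k + 1 + 1) * v x.2 = x.2 * (x.1 - x.2 ^ (k + 1) * v x.2) := by ring
    simp only [Function.comp_apply]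
    rw [e1, e2, e3, mul_pow x.2]
    ring

end Pool.Agent.H17BP

end
end

section

/-!
# The Laplacian of `1/2 log (|g|^2 + ε^2)`
-/

set_option autoImplicit false

open MeasureTheory Complex Set Filter Topology Laplacian InnerProductSpace

namespace Pool.Agent.H30M

theorem fderiv_eq_line {u : ℂ → ℝ} {w v : ℂ} (hu : DifferentiableAt ℝ u w) {d : ℝ}
    (h : HasDerivAt (fun t : ℝ => u (w + t • v)) d 0) : fderiv ℝ u w v = d :=
  (hu.hasFDerivAt.hasLineDerivAt v).unique h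

/-- the regularised logarithm -/
noncomputable def rl (ε : ℝ) (g : ℂ → ℂ) (z : ℂ) : ℝ := Real.log (‖g z‖ ^ 2 + ε ^ 2) / 2

private theorem rg_line {g : ℂ → ℂ} {w : ℂ} (hg : DifferentiableAt ℂ g w) (v : ℂ) :
    HasDerivAt (fun t : ℝ => g (w + t • v)) (deriv g w * v) 0 := by
  have h1 : HasFDerivAt g ((ContinuousLinearMap.toSpanSingleton ℂ (deriv g w)).restrictScalars ℝ) w :=
    hg.hasDerivAt.hasFDerivAt.restrictScalars ℝ
  have h2 := h1.hasLineDerivAt v
  have h3 : HasDerivAt (fun t : ℝ => g (w + t • v)) _ 0 := h2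
  convert h3 using 1
  simp [mul_comm]

private theorem rg_re {g : ℂ → ℂ} {w : ℂ} (hg : DifferentiableAt ℂ g w) (v : ℂ) :
    HasDerivAt (fun t : ℝ => (g (w + t • v)).re) (deriv g w * v).re 0 :=
  (reCLM.hasFDerivAt.comp_hasDerivAt (0 : ℝ) (rg_line hg v))

private theorem rg_im {g : ℂ → ℂ} {w : ℂ} (hg : DifferentiableAt ℂ g w) (v : ℂ) :
    HasDerivAt (fun t : ℝ => (g (w + t • v)).im) (deriv g w * v).im 0 :=
  (imCLM.hasFDerivAt.comp_hasDerivAt (0 : ℝ) (rg_line hg v))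

theorem contDiffAt_rl {ε : ℝ} (hε : 0 < ε) {g : ℂ → ℂ} {z : ℂ} (hg : AnalyticAt ℂ g z) :
    ContDiffAt ℝ 2 (rl ε g) z := by
  have h1 : ContDiffAt ℝ 2 g z := (hg.contDiffAt (n := 2)).restrict_scalars ℝ
  have h2 : ContDiffAt ℝ 2 (fun z => ‖g z‖ ^ 2 + ε ^ 2) z := (h1.norm_sq ℝ).add contDiffAt_const
  exact (h2.log (by positivity)).div_const 2

/-- first derivatives -/
theorem fderiv_rl {ε : ℝ} (hε : 0 < ε) {g : ℂ → ℂ} {w : ℂ} (hg : AnalyticAt ℂ g w) (v : ℂ) :
    fderiv ℝ (rl ε g) w v = ((g w).re * (deriv g w * v).re + (g w).im * (deriv g w * v).im)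
      / ((g w).re ^ 2 + (g w).im ^ 2 + ε ^ 2) := by
  have hd := hg.differentiableAt
  apply fderiv_eq_line ((contDiffAt_rl hε hg).differentiableAt (by norm_num))
  have h1 := rg_re hd v
  have h2 := rg_im hd v
  have h3 := ((h1.pow 2).add (h2.pow 2)).add_const (ε ^ 2)
  have h4 := (h3.log (by simp only [Pi.pow_apply, Pi.add_apply]; positivity)).div_const 2
  have e : (fun t : ℝ => rl ε g (w + t • v)) = fun t : ℝ => Real.log (((((fun t : ℝ => (g (w + t • v)).re) ^ 2) +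
      ((fun t : ℝ => (g (w + t • v)).im) ^ 2)) t) + ε ^ 2) / 2 := by
    funext t
    simp only [rl, Pi.add_apply, Pi.pow_apply]
    rw [← Complex.normSq_eq_norm_sq, Complex.normSq_apply]
    ring_nf
  rw [e]
  refine h4.congr_deriv ?_
  simp only [Pi.pow_apply, Pi.add_apply, zero_smul, add_zero]
  have : (g w).re ^ 2 + (g w).im ^ 2 + ε ^ 2 ≠ 0 := by positivity
  field_simp
  ring

/-- **The Laplacian** -/
theorem lap_rl {ε : ℝ} (hε : 0 < ε) {g : ℂ → ℂ} {z : ℂ} (hg : AnalyticAt ℂ g z) :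
    Δ (rl ε g) z = 2 * ε ^ 2 * ‖deriv g z‖ ^ 2 / (‖g z‖ ^ 2 + ε ^ 2) ^ 2 := by
  rw [lap_eq (contDiffAt_rl hε hg)]
  have hev : ∀ v : ℂ, (fun w => fderiv ℝ (rl ε g) w v) =ᶠ[𝓝 z] fun w =>
      ((g w).re * (deriv g w * v).re + (g w).im * (deriv g w * v).im)
      / ((g w).re ^ 2 + (g w).im ^ 2 + ε ^ 2) := fun v => by
    filter_upwards [hg.eventually_analyticAt] with w hw
    exact fderiv_rl hε hw v
  have hd := hg.differentiableAt
  have hd' := hg.deriv.differentiableAt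
  have key : ∀ v : ℂ, fderiv ℝ (fun w => fderiv ℝ (rl ε g) w v) z v =
      (((deriv g z * v).re * (deriv g z * v).re + (g z).re * (deriv (deriv g) z * v * v).re
        + ((deriv g z * v).im * (deriv g z * v).im + (g z).im * (deriv (deriv g) z * v * v).im))
        * ((g z).re ^ 2 + (g z).im ^ 2 + ε ^ 2)
        - ((g z).re * (deriv g z * v).re + (g z).im * (deriv g z * v).im)
        * (2 * (g z).re * (deriv g z * v).re + 2 * (g z).im * (deriv g z * v).im))
      / ((g z).re ^ 2 + (g z).im ^ 2 + ε ^ 2) ^ 2 := by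
    intro v
    apply fderiv_eq_line ((contDiffAt_d (contDiffAt_rl hε hg) v).differentiableAt (by norm_num))
    have e : (fun t : ℝ => fderiv ℝ (rl ε g) (z + t • v) v) =ᶠ[𝓝 0] fun t : ℝ =>
      ((g (z + t • v)).re * (deriv g (z + t • v) * v).re + (g (z + t • v)).im * (deriv g (z + t • v) * v).im)
      / ((g (z + t • v)).re ^ 2 + (g (z + t • v)).im ^ 2 + ε ^ 2) := by
      have hc : Tendsto (fun t : ℝ => z + t • v) (𝓝 0) (𝓝 z) := by
        have : Continuous fun t : ℝ => z + t • v := by fun_prop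
        simpa using this.tendsto 0
      exact hc.eventually (hev v)
    have h1 := rg_re hd v
    have h2 := rg_im hd v
    have h3 : HasDerivAt (fun t : ℝ => (deriv g (z + t • v) * v).re) (deriv (deriv g) z * v * v).re 0 := by
      have := (rg_line hd' v).mul_const v
      exact (reCLM.hasFDerivAt.comp_hasDerivAt (0 : ℝ) this)
    have h4 : HasDerivAt (fun t : ℝ => (deriv g (z + t • v) * v).im) (deriv (deriv g) z * v * v).im 0 := by
      have := (rg_line hd' v).mul_const v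
      exact (imCLM.hasFDerivAt.comp_hasDerivAt (0 : ℝ) this)
    have h5 := ((h1.mul h3).add (h2.mul h4)).div (((h1.pow 2).add (h2.pow 2)).add_const (ε ^ 2))
      (by simp only [Pi.pow_apply, Pi.add_apply]; positivity)
    refine HasDerivAt.congr_of_eventuallyEq (h5.congr_deriv ?_) e
    simp only [Pi.pow_apply, Pi.add_apply, Pi.mul_apply, zero_smul, add_zero]
    push_cast
    ring
  rw [key, key]
  have hN : (g z).re ^ 2 + (g z).im ^ 2 + ε ^ 2 ≠ 0 := by positivity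
  rw [← Complex.normSq_eq_norm_sq, ← Complex.normSq_eq_norm_sq, Complex.normSq_apply, Complex.normSq_apply]
  have hN2 : (g z).re * (g z).re + (g z).im * (g z).im + ε ^ 2 = (g z).re ^ 2 + (g z).im ^ 2 + ε ^ 2 := by ring
  rw [hN2, ← add_div]
  congr 1
  simp only [mul_re, mul_im, I_re, I_im, one_re, one_im]
  ring

end Pool.Agent.H30M

end

section

/-!
# The fundamental solution: `∫ Δτ log |z - a| = 2 π τ(a)`
-/

set_option autoImplicit false

open MeasureTheory Complex Set Filter Topology Laplacian InnerProductSpace Metric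

namespace Pool.Agent.H30M

/-- `log ‖z‖` is integrable on balls. -/
theorem integrableOn_log_ball (r : ℝ) : IntegrableOn (fun z : ℂ => Real.log ‖z‖) (ball 0 r) := by
  have h := (integrableOn_fun_norm_addHaar (E := ℂ) (μ := volume) (f := Real.log) (r := r)).2
  apply h
  have h1 : Continuous fun y : ℝ => y * Real.log y := Real.continuous_mul_log
  have h2 : IntegrableOn (fun y : ℝ => y * Real.log y) (Icc 0 r) := h1.continuousOn.integrableOn_Icc
  refine (h2.mono_set Ioo_subset_Icc_self).congr_fun (fun y _ => ?_) measurableSet_Ioo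
  simp [Complex.finrank_real_complex]

theorem locInt_log (a : ℂ) : LocallyIntegrable (fun z : ℂ => Real.log ‖z - a‖) := by
  have h0 : LocallyIntegrable (fun z : ℂ => Real.log ‖z‖) := by
    intro z
    refine ⟨ball 0 (‖z‖ + 1), isOpen_ball.mem_nhds (by simp), integrableOn_log_ball _⟩
  intro z
  obtain ⟨s, hs, hi⟩ := h0 (z - a)
  refine ⟨(fun w => w - a) ⁻¹' s, ?_, ?_⟩
  · exact (continuous_sub_right a).continuousAt.preimage_mem_nhds hs
  · have hmp : MeasurePreserving (fun w : ℂ => w - a) volume volume := measurePreserving_sub_right volume a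
    exact (hmp.integrableOn_comp_preimage (MeasurableEquiv.subRight a).measurableEmbedding).2 hi

theorem int_kernel : ∫ w : ℂ, 2 / (‖w‖ ^ 2 + 1) ^ 2 = 2 * Real.pi := by
  have h := integral_fun_norm_addHaar (volume : Measure ℂ) (fun y : ℝ => 2 / (y ^ 2 + 1) ^ 2)
  rw [h, Complex.finrank_real_complex]
  have h1 : ∫ y in Ioi (0 : ℝ), y ^ (2 - 1) • (2 / (y ^ 2 + 1) ^ 2) = 1 := by
    have hd : ∀ y ∈ Ici (0 : ℝ), HasDerivAt (fun y : ℝ => - (1 / (y ^ 2 + 1))) (y ^ (2 - 1) • (2 / (y ^ 2 + 1) ^ 2)) y := by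
      intro y _
      have h2 : HasDerivAt (fun y : ℝ => y ^ 2 + 1) (2 * y) y := by
        simpa using (hasDerivAt_pow 2 y).add_const (1 : ℝ)
      have h3 := (h2.inv (by positivity)).neg
      refine (h3.congr_of_eventuallyEq (Eventually.of_forall fun y => ?_)).congr_deriv ?_
      · simp
      · have : y ^ 2 + 1 ≠ 0 := by positivity
        simp only [smul_eq_mul]
        field_simp
        norm_num
    have hl : Tendsto (fun y : ℝ => - (1 / (y ^ 2 + 1))) atTop (𝓝 0) := by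
      have : Tendsto (fun y : ℝ => y ^ 2 + 1) atTop atTop :=
        tendsto_atTop_add_const_right _ _ (tendsto_pow_atTop (by norm_num))
      have h4 := (this.const_div_atTop (1 : ℝ)).neg
      simpa using h4
    have := integral_Ioi_of_hasDerivAt_of_nonneg' hd (fun y hy => by
      have : (0 : ℝ) < y := hy
      rw [smul_eq_mul]; positivity) hl
    rw [this]
    simp
  rw [h1]
  have hv : volume.real (ball (0 : ℂ) 1) = Real.pi := by
    rw [Measure.real, Complex.volume_ball]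
    simp
  rw [hv]
  simp

theorem integrable_kernel : Integrable fun w : ℂ => 2 / (‖w‖ ^ 2 + 1) ^ 2 := by
  by_contra h
  have := integral_undef h
  rw [int_kernel] at this
  have hp := Real.pi_pos
  linarith

theorem lap_rl_sub {ε : ℝ} (hε : 0 < ε) (a z : ℂ) :
    Δ (rl ε fun w => w - a) z = 2 * ε ^ 2 / (‖z - a‖ ^ 2 + ε ^ 2) ^ 2 := by
  rw [lap_rl hε (by fun_prop)]
  simp

theorem fund_lhs {τ : ℂ → ℝ} (hτ : Continuous τ) (hc : HasCompactSupport τ) (a : ℂ) :
    Tendsto (fun n : ℕ => ∫ z, τ z * Δ (rl (1 / ((n : ℝ) + 1)) fun w => w - a) z) atTop (𝓝 (2 * Real.pi * τ a)) := by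
  have e : ∀ ε : ℝ, 0 < ε → ∫ z, τ z * Δ (rl ε fun w => w - a) z
      = ∫ w : ℂ, τ (a + ε • w) * (2 / (‖w‖ ^ 2 + 1) ^ 2) := by
    intro ε hε
    have h1 : ∫ z, τ z * Δ (rl ε fun w => w - a) z = ∫ z, τ (z + a) * (2 * ε ^ 2 / (‖z‖ ^ 2 + ε ^ 2) ^ 2) := by
      rw [← integral_add_right_eq_self _ a]
      congr 1
      funext z
      rw [lap_rl_sub hε, add_sub_cancel_right]
    have h2 := Measure.integral_comp_smul_of_nonneg (volume : Measure ℂ)
      (fun z : ℂ => τ (z + a) * (2 * ε ^ 2 / (‖z‖ ^ 2 + ε ^ 2) ^ 2)) ε (hR := hε.le)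
    rw [Complex.finrank_real_complex] at h2
    have h3 : ∀ w : ℂ, τ (a + ε • w) * (2 / (‖w‖ ^ 2 + 1) ^ 2)
        = ε ^ 2 * (τ (ε • w + a) * (2 * ε ^ 2 / (‖ε • w‖ ^ 2 + ε ^ 2) ^ 2)) := by
      intro w
      rw [norm_smul, Real.norm_of_nonneg hε.le, add_comm a]
      have : ‖w‖ ^ 2 + 1 ≠ 0 := by positivity
      have e2 : (ε * ‖w‖) ^ 2 + ε ^ 2 = ε ^ 2 * (‖w‖ ^ 2 + 1) := by ring
      rw [e2]
      field_simp
    rw [h1, integral_congr_ae (Eventually.of_forall h3), integral_const_mul, h2, smul_eq_mul, ← mul_assoc,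
      mul_inv_cancel₀ (by positivity), one_mul]
  have e' : ∀ n : ℕ, ∫ z, τ z * Δ (rl (1 / ((n : ℝ) + 1)) fun w => w - a) z
      = ∫ w : ℂ, τ (a + (1 / ((n : ℝ) + 1)) • w) * (2 / (‖w‖ ^ 2 + 1) ^ 2) := fun n => e _ (by positivity)
  simp_rw [e']
  have hlim : 2 * Real.pi * τ a = ∫ w : ℂ, τ a * (2 / (‖w‖ ^ 2 + 1) ^ 2) := by
    rw [integral_const_mul, int_kernel]; ring
  rw [hlim]
  obtain ⟨C, hC⟩ := hτ.bounded_above_of_compact_support hc
  refine tendsto_integral_of_dominated_convergence (fun w => C * (2 / (‖w‖ ^ 2 + 1) ^ 2)) ?_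
    (integrable_kernel.const_mul C) ?_ ?_
  · intro n
    refine Continuous.aestronglyMeasurable ?_
    refine (hτ.comp (by fun_prop)).mul (Continuous.div (by fun_prop) (by fun_prop) fun w => by positivity)
  · intro n
    refine Eventually.of_forall fun w => ?_
    rw [norm_mul, Real.norm_of_nonneg (by positivity : (0 : ℝ) ≤ 2 / (‖w‖ ^ 2 + 1) ^ 2)]
    exact mul_le_mul_of_nonneg_right (hC _) (by positivity)
  · refine Eventually.of_forall fun w => ?_
    refine Tendsto.mul_const _ ?_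
    have h1 : Tendsto (fun n : ℕ => a + (1 / ((n : ℝ) + 1)) • w) atTop (𝓝 (a + (0 : ℝ) • w)) :=
      (tendsto_one_div_add_atTop_nhds_zero_nat.smul_const w).const_add a
    rw [zero_smul, add_zero] at h1
    exact (hτ.tendsto a).comp h1

theorem fund_rhs {φ : ℂ → ℝ} (hφ : Continuous φ) (hc : HasCompactSupport φ) (a : ℂ) :
    Tendsto (fun n : ℕ => ∫ z, φ z * rl (1 / ((n : ℝ) + 1)) (fun w => w - a) z) atTop
      (𝓝 (∫ z, φ z * Real.log ‖z - a‖)) := by
  have hi1 : Integrable fun z : ℂ => |φ z| * |Real.log ‖z - a‖| := by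
    have := (locInt_log a).integrable_smul_left_of_hasCompactSupport hφ hc
    simpa [abs_mul, smul_eq_mul] using this.abs
  have hi2 : Integrable fun z : ℂ => |φ z| * Real.log (‖z - a‖ ^ 2 + 1) := by
    refine Continuous.integrable_of_hasCompactSupport ?_ ?_
    · exact (continuous_abs.comp hφ).mul (Continuous.log (by fun_prop) fun z => by positivity)
    · exact (hc.comp_left (g := fun x : ℝ => |x|) abs_zero).mul_right
  refine tendsto_integral_of_dominated_convergence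
    (fun z => |φ z| * |Real.log ‖z - a‖| + |φ z| * Real.log (‖z - a‖ ^ 2 + 1)) ?_ (hi1.add hi2) ?_ ?_
  · intro n
    refine (hφ.mul ?_).aestronglyMeasurable
    unfold rl
    exact (Continuous.log (by fun_prop) fun z => by positivity).div_const 2
  · intro n
    have hne : ∀ᵐ z : ℂ, z ≠ a := by
      rw [ae_iff]
      simp
    filter_upwards [hne] with z hz
    have hz' : 0 < ‖z - a‖ := norm_pos_iff.2 (sub_ne_zero.2 hz)
    rw [norm_mul, Real.norm_eq_abs, ← mul_add]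
    refine mul_le_mul_of_nonneg_left ?_ (abs_nonneg _)
    rw [Real.norm_eq_abs, abs_le]
    have h1 : (0 : ℝ) < 1 / ((n : ℝ) + 1) := by positivity
    have h2 : (1 / ((n : ℝ) + 1)) ≤ 1 := by
      rw [div_le_one (by positivity)]
      have : (0 : ℝ) ≤ n := n.cast_nonneg
      linarith
    have h3 : (1 / ((n : ℝ) + 1)) ^ 2 ≤ 1 := pow_le_one₀ h1.le h2
    have h4 : Real.log (‖z - a‖ ^ 2) = 2 * Real.log ‖z - a‖ := by
      rw [Real.log_pow]; norm_num
    have h5 : Real.log (‖z - a‖ ^ 2) ≤ Real.log (‖z - a‖ ^ 2 + (1 / ((n : ℝ) + 1)) ^ 2) :=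
      Real.log_le_log (by positivity) (by nlinarith)
    have h6 : Real.log (‖z - a‖ ^ 2 + (1 / ((n : ℝ) + 1)) ^ 2) ≤ Real.log (‖z - a‖ ^ 2 + 1) :=
      Real.log_le_log (by positivity) (by linarith)
    have h7 : 0 ≤ Real.log (‖z - a‖ ^ 2 + 1) := Real.log_nonneg (by nlinarith [sq_nonneg ‖z - a‖])
    unfold rl
    constructor
    · have := neg_abs_le (Real.log ‖z - a‖)
      linarith
    · have := abs_nonneg (Real.log ‖z - a‖)
      linarith
  · have hne : ∀ᵐ z : ℂ, z ≠ a := by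
      rw [ae_iff]
      simp
    filter_upwards [hne] with z hz
    have hz' : 0 < ‖z - a‖ := norm_pos_iff.2 (sub_ne_zero.2 hz)
    refine Tendsto.const_mul _ ?_
    unfold rl
    have h1 : Tendsto (fun n : ℕ => ‖z - a‖ ^ 2 + (1 / ((n : ℝ) + 1)) ^ 2) atTop (𝓝 (‖z - a‖ ^ 2 + 0 ^ 2)) :=
      (tendsto_one_div_add_atTop_nhds_zero_nat.pow 2).const_add _
    have h2 := ((Real.continuousAt_log (x := ‖z - a‖ ^ 2 + 0 ^ 2) (by positivity)).tendsto.comp h1).div_const 2
    have h3 : Real.log (‖z - a‖ ^ 2 + 0 ^ 2) / 2 = Real.log ‖z - a‖ := by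
      rw [zero_pow (by norm_num), add_zero, Real.log_pow]
      push_cast
      ring
    rw [h3] at h2
    exact h2

/-- **The fundamental solution** -/
theorem fund {τ : ℂ → ℝ} (hτ : ContDiff ℝ 2 τ) (hc : HasCompactSupport τ) (a : ℂ) :
    ∫ z, Δ τ z * Real.log ‖z - a‖ = 2 * Real.pi * τ a := by
  have hL : Continuous (Δ τ) := by
    have e : Δ τ = fun z => fderiv ℝ (fun w => fderiv ℝ τ w 1) z 1 + fderiv ℝ (fun w => fderiv ℝ τ w I) z I :=
      funext fun z => lap_eq hτ.contDiffAt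
    rw [e]
    have hd : ∀ v : ℂ, ContDiff ℝ 1 fun z => fderiv ℝ τ z v := fun v =>
      (hτ.fderiv_right (m := 1) (by norm_num)).clm_apply contDiff_const
    exact (((hd 1).continuous_fderiv (by norm_num)).clm_apply continuous_const).add
      (((hd I).continuous_fderiv (by norm_num)).clm_apply continuous_const)
  have h1 := fund_lhs hτ.continuous hc a
  have h2 := fund_rhs hL (hcs_of_sub hc (ts_lap τ)) a
  refine tendsto_nhds_unique h2 (h1.congr fun n => ?_)
  exact green2 hτ hc fun z _ => contDiffAt_rl (by positivity) (by fun_prop)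

end Pool.Agent.H30M

end
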