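import Pool.Agent.H94.G6.M09
import Pool.Agent.H94.G6.M13
import Pool.Agent.H94.G6.M17
import Pool.Agent.H94.G6.M39

/-! The parts of this file: H17BP.MonoOpen, H17BP.FinG, H36.BP.Resc, H5.BD.CRho, SY.Defs, SY.DefB. -/

section

/-!
# Monomials at nearby points

* `Bihol.near`: let `θ'` be the inverse germ.  `θ` and `θ'` are analytic near `0` (`AnalyticAt.eventually_analyticAt`),
  `θ' (θ x) = x` for `x` near `0`, `θ (θ' y) = y` for `y` near `0` (`eventually_eventually_nhds`), `θ p → 0` for `p → 0`.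
  For `p` near `0` the inverse germ is `y ↦ θ' (θ p + y) - p` (it is analytic at `0`, because `θ'` is analytic at `θ p`).
* `Mono.near`: let `g = S^a T^b u` near `0`, `θ = (S, T)`.  For `p` near `0`: `S (p + x) = S p + S₁ x`,
  `T (p + x) = T p + T₁ x` with `Coord S₁ T₁` (`Bihol.near`, `(S₁, T₁) = θ (p + x) - θ p`), `u (p + x)` is a unit.
  If `S p ≠ 0` then `S (p + x)^a` is a unit; if `S p = 0` then `S (p + x) = S₁ x`; the same for `T`.  Four cases:
  `(S₁)^(a or 0) (T₁)^(b or 0) (unit)`.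
-/

open Topology Filter

noncomputable section

namespace Pool.Agent.H17BP

private theorem MonoOpen_add {E : Type*} [NormedAddCommGroup E] [NormedSpace ℂ E] {f : ℂ × ℂ → E}
    {p : ℂ × ℂ} (hf : AnalyticAt ℂ f p) : AnalyticAt ℂ (fun x => f (p + x)) 0 := by
  have h1 : AnalyticAt ℂ (fun x : ℂ × ℂ => p + x) 0 := analyticAt_const.add analyticAt_id
  have h2 : AnalyticAt ℂ f ((fun x : ℂ × ℂ => p + x) 0) := by
    simp only [add_zero]
    exact hf
  exact AnalyticAt.comp (g := f) (f := fun x : ℂ × ℂ => p + x) h2 h1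

private theorem MonoOpen_tendsto (p : ℂ × ℂ) : Tendsto (fun x : ℂ × ℂ => p + x) (𝓝 0) (𝓝 p) := by
  have h1 : ContinuousAt (fun x : ℂ × ℂ => p + x) 0 := by fun_prop
  have h2 := h1.tendsto
  simp only [add_zero] at h2
  exact h2

/-- A local biholomorphism is a local biholomorphism at the nearby points. -/
theorem Bihol.near {θ : ℂ × ℂ → ℂ × ℂ} (h : Bihol θ) :
    ∀ᶠ p in 𝓝 (0 : ℂ × ℂ), Bihol fun x => θ (p + x) - θ p := by
  obtain ⟨θ', h1, h2, h3, h4⟩ := h.inv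
  have A1 := h.an.eventually_analyticAt
  have A2 := h.tendsto.eventually h1.eventually_analyticAt
  have A3 := h3.eventually_nhds
  have A4 := h.tendsto.eventually h4.eventually_nhds
  filter_upwards [A1, A2, A3, A4] with p a1 a2 a3 a4
  refine ⟨(MonoOpen_add a1).sub analyticAt_const, ?_, fun y => θ' (θ p + y) - p,
    (MonoOpen_add a2).sub analyticAt_const, ?_, ?_, ?_⟩
  · simp only [add_zero, sub_self]
  · simp only [add_zero]
    rw [a3.self_of_nhds, sub_self]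
  · filter_upwards [(MonoOpen_tendsto p).eventually a3] with x hx
    rw [add_sub_cancel, hx, add_sub_cancel_left]
  · filter_upwards [(MonoOpen_tendsto (θ p)).eventually a4] with y hy
    rw [add_sub_cancel, hy, add_sub_cancel_left]

private theorem MonoOpen_pow {f : ℂ × ℂ → ℂ} {p : ℂ × ℂ} (hf : AnalyticAt ℂ f p) (a : ℕ) :
    ∃ (a' : ℕ) (w : ℂ × ℂ → ℂ), AnalyticAt ℂ w 0 ∧ w 0 ≠ 0 ∧
      ∀ x, f (p + x) ^ a = (f (p + x) - f p) ^ a' * w x := by
  by_cases h : f p = 0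
  · refine ⟨a, fun _ => 1, analyticAt_const, one_ne_zero, fun x => ?_⟩
    rw [h, sub_zero, mul_one]
  · refine ⟨0, fun x => f (p + x) ^ a, (MonoOpen_add hf).pow a, ?_, fun x => ?_⟩
    · simp only [add_zero]
      exact pow_ne_zero a h
    · rw [pow_zero, one_mul]

/-- A monomial times a unit is a monomial times a unit at the nearby points. -/
theorem Mono.near {g : ℂ × ℂ → ℂ} (h : Mono g) : ∀ᶠ p in 𝓝 (0 : ℂ × ℂ), Mono fun x => g (p + x) := by
  obtain ⟨S, T, a, b, u, hc, hu, hu0, hg⟩ := h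
  obtain ⟨hS, hT, -, -⟩ := hc.parts
  have B1 := Bihol.near hc
  have B2 := hu.eventually_analyticAt
  have B3 := hu.continuousAt.eventually_ne hu0
  have B4 := hg.eventually_nhds
  have B5 := hS.eventually_analyticAt
  have B6 := hT.eventually_analyticAt
  filter_upwards [B1, B2, B3, B4, B5, B6] with p b1 b2 b3 b4 b5 b6
  obtain ⟨a', w, hw, hw0, hwe⟩ := MonoOpen_pow b5 a
  obtain ⟨b', v, hv, hv0, hve⟩ := MonoOpen_pow b6 b
  refine ⟨fun x => S (p + x) - S p, fun x => T (p + x) - T p, a', b',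
    fun x => w x * v x * u (p + x), b1, (hw.mul hv).mul (MonoOpen_add b2), ?_, ?_⟩
  · simp only [add_zero]
    exact mul_ne_zero (mul_ne_zero hw0 hv0) b3
  · filter_upwards [(MonoOpen_tendsto p).eventually b4] with x hx
    rw [hx, hwe x, hve x]
    ring

end Pool.Agent.H17BP

end
end

section

/-!
# The points near `0` at which `g` is not a monomial

* `bl_near`: `bl c (s, t) = (s, s (c + t))` has near `p`, `p.1 ≠ 0`, the inverse `(S, T) ↦ (S, T / S - c)`.  So the inverse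
  germ of `x ↦ bl c (p + x) - bl c p` is `y ↦ (a, b / a - c) - p` with `(a, b) = bl c p + y`, analytic because `a ≠ 0`
  near `y = 0` (or use `bihol_iff`).  `blInf_near`: the same with the coordinates exchanged.
* `Mono.of_near`: if `β (p + x) - β p` is `Bihol` and `(g ∘ β) (p + x)` is `Mono` then `g (β p + x)` is `Mono`: with
  `θ x = β (p + x) - β p`: `g (β (p + x)) = (fun x => g (β p + x)) (θ x)`; compose with the inverse germ of `θ`
  (`ResN.of_comp` for `n = 0`).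
* `ResN.near`: induction on `n`.  `n = 0` and the case `Mono g`: `Mono.near`.  `n + 1`: for all `c`, `ResN n (g ∘ bl c)` and
  `ResN n (g ∘ blInf)` (`bchart_bl`, `bchart_blInf`).  If the claim is false then there is an ultrafilter `U ≤ 𝓝[≠] 0` with
  `¬ Mono (g (p + ·))` for `U`-almost all `p` (`Filter.Frequently`, `Ultrafilter.of`, e.g. take `U` finer than
  `𝓝[≠] 0 ⊓ 𝓟 {p | ¬ Mono ..}`).  `U`-almost surely `‖p.2‖ ≤ ‖p.1‖` or `U`-almost surely `‖p.1‖ ≤ ‖p.2‖`.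
  First case: `p.1 ≠ 0` almost surely (because `p ≠ 0`); `p.2 / p.1` is in the closed unit ball (compact), so it tends to some
  `c` along `U` (`IsCompact.ultrafilter_le_nhds`); `p' = (p.1, p.2 / p.1 - c) → 0`, `p' ≠ 0`, `bl c p' = p`.  By induction
  for `g ∘ bl c`: `Mono ((g ∘ bl c) (p' + ·))` almost surely, and `Mono.of_near` with `bl_near`.
  Second case: `p.2 ≠ 0`, `p.1 / p.2 → c'`.  If `c' = 0`: `p' = (p.1 / p.2, p.2) → 0`, `blInf p' = p`, `blInf_near`.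
  If `c' ≠ 0` then `p.1 ≠ 0` almost surely and `p.2 / p.1 → c'⁻¹ = c`, continue as in the first case.
-/

open Topology Filter

noncomputable section

namespace Pool.Agent.H17BP

theorem bl_near (c : ℂ) {p : ℂ × ℂ} (hp : p.1 ≠ 0) : Bihol fun x => bl c (p + x) - bl c p := by
  have h1 : HasFDerivAt (fun x : ℂ × ℂ => p.1 + x.1) (ContinuousLinearMap.fst ℂ ℂ ℂ) 0 :=
    (hasFDerivAt_fst (𝕜 := ℂ) (E := ℂ) (F := ℂ)).const_add p.1
  have h2 : HasFDerivAt (fun x : ℂ × ℂ => c + (p.2 + x.2)) (ContinuousLinearMap.snd ℂ ℂ ℂ) 0 :=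
    ((hasFDerivAt_snd (𝕜 := ℂ) (E := ℂ) (F := ℂ)).const_add p.2).const_add c
  have h3 := (h1.prodMk (h1.mul h2)).sub_const (bl c p)
  have h4 : HasFDerivAt (fun x => bl c (p + x) - bl c p) _ 0 := h3
  have ha : AnalyticAt ℂ (fun x => bl c (p + x) - bl c p) 0 := by
    refine AnalyticAt.sub ?_ analyticAt_const
    exact (analyticAt_bl c (p + 0)).comp (analyticAt_const.add analyticAt_id)
  refine (bihol_iff ha (by simp)).mpr ?_
  rw [h4.fderiv]
  simpa using hp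

theorem blInf_near {p : ℂ × ℂ} (hp : p.2 ≠ 0) : Bihol fun x => blInf (p + x) - blInf p := by
  have h1 : HasFDerivAt (fun x : ℂ × ℂ => p.1 + x.1) (ContinuousLinearMap.fst ℂ ℂ ℂ) 0 :=
    (hasFDerivAt_fst (𝕜 := ℂ) (E := ℂ) (F := ℂ)).const_add p.1
  have h2 : HasFDerivAt (fun x : ℂ × ℂ => p.2 + x.2) (ContinuousLinearMap.snd ℂ ℂ ℂ) 0 :=
    (hasFDerivAt_snd (𝕜 := ℂ) (E := ℂ) (F := ℂ)).const_add p.2
  have h3 := ((h1.mul h2).prodMk h2).sub_const (blInf p)
  have h4 : HasFDerivAt (fun x => blInf (p + x) - blInf p) _ 0 := h3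
  have ha : AnalyticAt ℂ (fun x => blInf (p + x) - blInf p) 0 := by
    refine AnalyticAt.sub ?_ analyticAt_const
    exact (analyticAt_blInf (p + 0)).comp (analyticAt_const.add analyticAt_id)
  refine (bihol_iff ha (by simp)).mpr ?_
  rw [h4.fderiv]
  simpa using hp

theorem Mono.of_near {g : ℂ × ℂ → ℂ} {β : ℂ × ℂ → ℂ × ℂ} {p : ℂ × ℂ} (h : Bihol fun x => β (p + x) - β p)
    (hg : Mono fun x => (g ∘ β) (p + x)) : Mono fun x => g (β p + x) := by
  have h1 : ResN 0 ((fun x => g (β p + x)) ∘ fun x => β (p + x) - β p) := by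
    have h2 : ((fun x => g (β p + x)) ∘ fun x => β (p + x) - β p) = fun x => (g ∘ β) (p + x) := by
      funext x
      simp
    rw [h2]
    exact hg
  exact ResN.of_comp h h1

/-- the first case -/
private theorem FinG_key1 {g : ℂ × ℂ → ℂ} {U : Ultrafilter (ℂ × ℂ)} (hU0 : (U : Filter (ℂ × ℂ)) ≤ 𝓝 0)
    (hbad : ∀ᶠ p in (U : Filter (ℂ × ℂ)), ¬ Mono fun x => g (p + x)) {c : ℂ}
    (hc : Tendsto (fun p : ℂ × ℂ => p.2 / p.1) U (𝓝 c)) (h1 : ∀ᶠ p in (U : Filter (ℂ × ℂ)), p.1 ≠ 0)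
    (hih : ∀ᶠ p in 𝓝[≠] (0 : ℂ × ℂ), Mono fun x => (g ∘ bl c) (p + x)) : False := by
  have ht1 : Tendsto (fun p : ℂ × ℂ => p.1) U (𝓝 0) := by
    have h2 : Tendsto (fun p : ℂ × ℂ => p.1) (𝓝 0) (𝓝 (0 : ℂ × ℂ).1) := continuous_fst.tendsto 0
    exact h2.mono_left hU0
  have ht2 : Tendsto (fun p : ℂ × ℂ => p.2 / p.1 - c) U (𝓝 0) := by
    have h2 := hc.sub_const c
    rwa [sub_self] at h2
  have ht : Tendsto (fun p : ℂ × ℂ => (p.1, p.2 / p.1 - c)) U (𝓝[≠] 0) := by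
    rw [tendsto_nhdsWithin_iff]
    refine ⟨?_, ?_⟩
    · exact ht1.prodMk_nhds ht2
    · filter_upwards [h1] with p hp
      intro h0
      exact hp (congrArg Prod.fst h0)
  obtain ⟨p, hp1, hp2, hp3⟩ := ((ht.eventually hih).and (h1.and hbad)).exists
  apply hp3
  have h4 : bl c (p.1, p.2 / p.1 - c) = p := by
    unfold bl
    ext
    · rfl
    · simp only
      field_simp
      ring
  have h5 := Mono.of_near (bl_near c (p := (p.1, p.2 / p.1 - c)) hp2) hp1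
  rw [h4] at h5
  exact h5

/-- the second case -/
private theorem FinG_key2 {g : ℂ × ℂ → ℂ} {U : Ultrafilter (ℂ × ℂ)} (hU0 : (U : Filter (ℂ × ℂ)) ≤ 𝓝 0)
    (hbad : ∀ᶠ p in (U : Filter (ℂ × ℂ)), ¬ Mono fun x => g (p + x))
    (hc : Tendsto (fun p : ℂ × ℂ => p.1 / p.2) U (𝓝 0)) (h1 : ∀ᶠ p in (U : Filter (ℂ × ℂ)), p.2 ≠ 0)
    (hih : ∀ᶠ p in 𝓝[≠] (0 : ℂ × ℂ), Mono fun x => (g ∘ blInf) (p + x)) : False := by
  have ht1 : Tendsto (fun p : ℂ × ℂ => p.2) U (𝓝 0) := by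
    have h2 : Tendsto (fun p : ℂ × ℂ => p.2) (𝓝 0) (𝓝 (0 : ℂ × ℂ).2) := continuous_snd.tendsto 0
    exact h2.mono_left hU0
  have ht : Tendsto (fun p : ℂ × ℂ => (p.1 / p.2, p.2)) U (𝓝[≠] 0) := by
    rw [tendsto_nhdsWithin_iff]
    refine ⟨?_, ?_⟩
    · exact hc.prodMk_nhds ht1
    · filter_upwards [h1] with p hp
      intro h0
      exact hp (congrArg Prod.snd h0)
  obtain ⟨p, hp1, hp2, hp3⟩ := ((ht.eventually hih).and (h1.and hbad)).exists
  apply hp3
  have h4 : blInf (p.1 / p.2, p.2) = p := by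
    unfold blInf
    ext
    · simp only
      field_simp
    · rfl
  have h5 := Mono.of_near (blInf_near (p := (p.1 / p.2, p.2)) hp2) hp1
  rw [h4] at h5
  exact h5

/-- bounded functions converge along an ultrafilter -/
private theorem FinG_lim {U : Ultrafilter (ℂ × ℂ)} {f : ℂ × ℂ → ℂ}
    (h : ∀ᶠ p in (U : Filter (ℂ × ℂ)), ‖f p‖ ≤ 1) : ∃ c : ℂ, Tendsto f U (𝓝 c) := by
  have h1 : ((U.map f : Ultrafilter ℂ) : Filter ℂ) ≤ 𝓟 (Metric.closedBall (0 : ℂ) 1) := by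
    rw [Filter.le_principal_iff, Ultrafilter.coe_map, Filter.mem_map]
    filter_upwards [h] with p hp
    simpa using hp
  obtain ⟨c, -, hc⟩ := (isCompact_closedBall (0 : ℂ) 1).ultrafilter_le_nhds (U.map f) h1
  exact ⟨c, hc⟩

/-- If the germ `g` is resolved by finitely many blow-ups then it is a monomial times a unit at all points near `0`
different from `0`. -/
theorem ResN.near {n : ℕ} : ∀ {g : ℂ × ℂ → ℂ}, ResN n g →
    ∀ᶠ p in 𝓝[≠] (0 : ℂ × ℂ), Mono fun x => g (p + x) := by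
  induction n with
  | zero =>
    intro g h
    exact (Mono.near h).filter_mono nhdsWithin_le_nhds
  | succ n ih =>
    intro g h
    rcases h with h | h
    · exact (Mono.near h).filter_mono nhdsWithin_le_nhds
    · by_contra hne
      have hf : ∃ᶠ p in 𝓝[≠] (0 : ℂ × ℂ), ¬ Mono fun x => g (p + x) := Filter.not_eventually.mp hne
      have hnb := Filter.frequently_iff_neBot.mp hf
      obtain ⟨U, hU⟩ := Ultrafilter.exists_le (𝓝[≠] (0 : ℂ × ℂ) ⊓ 𝓟 {p | ¬ Mono fun x => g (p + x)})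
      have hU1 : (U : Filter (ℂ × ℂ)) ≤ 𝓝[≠] 0 := hU.trans inf_le_left
      have hU0 : (U : Filter (ℂ × ℂ)) ≤ 𝓝 0 := hU1.trans nhdsWithin_le_nhds
      have hbad : ∀ᶠ p in (U : Filter (ℂ × ℂ)), ¬ Mono fun x => g (p + x) :=
        Filter.le_principal_iff.mp (hU.trans inf_le_right)
      have hne0 : ∀ᶠ p in (U : Filter (ℂ × ℂ)), p ≠ 0 := by
        have h1 : ∀ᶠ p in 𝓝[≠] (0 : ℂ × ℂ), p ≠ 0 := eventually_mem_nhdsWithin
        exact h1.filter_mono hU1
      rcases U.em (fun p => ‖p.2‖ ≤ ‖p.1‖) with h1 | h1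
      · have h2 : ∀ᶠ p in (U : Filter (ℂ × ℂ)), p.1 ≠ 0 := by
          filter_upwards [h1, hne0] with p hp1 hp2 h0
          apply hp2
          rw [h0, norm_zero] at hp1
          exact Prod.ext h0 (norm_le_zero_iff.mp hp1)
        obtain ⟨c, hc⟩ := FinG_lim (U := U) (f := fun p => p.2 / p.1) (by
          filter_upwards [h1] with p hp
          rw [norm_div]
          exact div_le_one_of_le₀ hp (norm_nonneg _))
        exact FinG_key1 hU0 hbad hc h2 (ih (h (bl c) (bchart_bl c)))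
      · have h2 : ∀ᶠ p in (U : Filter (ℂ × ℂ)), p.2 ≠ 0 := by
          filter_upwards [h1] with p hp1 h0
          apply hp1
          rw [h0, norm_zero]
          exact norm_nonneg _
        obtain ⟨c, hc⟩ := FinG_lim (U := U) (f := fun p => p.1 / p.2) (by
          filter_upwards [h1] with p hp
          rw [norm_div]
          exact div_le_one_of_le₀ (not_le.mp hp).le (norm_nonneg _))
        by_cases hc0 : c = 0
        · rw [hc0] at hc
          exact FinG_key2 hU0 hbad hc h2 (ih (h blInf bchart_blInf))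
        · have h3 : ∀ᶠ p in (U : Filter (ℂ × ℂ)), p.1 ≠ 0 := by
            filter_upwards [hc.eventually_ne hc0] with p hp h0
            apply hp
            rw [h0, zero_div]
          have h4 : Tendsto (fun p : ℂ × ℂ => p.2 / p.1) U (𝓝 c⁻¹) := by
            have h5 := hc.inv₀ hc0
            refine h5.congr ?_
            intro p
            rw [inv_div]
          exact FinG_key1 hU0 hbad h4 h3 (ih (h (bl c⁻¹) (bchart_bl c⁻¹)))

end Pool.Agent.H17BP

end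
end

section

/-!
# BP Resc: rescaling

Given `L = 4 (n + 1)` take `F` with `mt G F 0 > L`.  On `closedBall 0 (1/2)` the function `mt G F z (1/2 - |z|)` is upper semicontinuous, so it has a maximum `m ≥ mt G F 0/2 > 0`
at some `z₀`, `|z₀| < 1/2`.  `λ = 1/mt G F z₀`, `F_n ζ = F (z₀ + λ ζ)`.  For `|ζ| ≤ m/2`: `|z| ≤ |z₀| + (1/2 - |z₀|)/2`, so `1/2 - |z| ≥ (1/2 - |z₀|)/2 > 0` and
`mt G F z ≤ m/(1/2 - |z|) ≤ 2 mt G F z₀`; `mt_comp`.  `m/2 ≥ L/4 = n + 1`.
-/

set_option autoImplicit false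

namespace Pool.Agent.H36.BP

open Filter Topology Metric

variable {N : ℕ}

variable {K B : Set (EN N)} {G : EN N → EN N → ℝ} {ρ : EN N → ℝ} {M : ℕ} {c₀ C : ℝ}

/-- product of a nonnegative upper semicontinuous function and a nonnegative continuous function -/
private theorem resc_usc_mul {α : Type*} [TopologicalSpace α] {S : Set α} {u k : α → ℝ} (hu : UpperSemicontinuousOn u S)
    (hk : ContinuousOn k S) (hu0 : ∀ x ∈ S, 0 ≤ u x) (hk0 : ∀ x ∈ S, 0 ≤ k x) :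
    UpperSemicontinuousOn (fun x => u x * k x) S := by
  intro x hx y hy
  have ht : Tendsto (fun ε : ℝ => (u x + ε) * (k x + ε)) (𝓝[>] 0) (𝓝 ((u x + 0) * (k x + 0))) := by
    apply tendsto_nhdsWithin_of_tendsto_nhds
    have hc : Continuous (fun ε : ℝ => (u x + ε) * (k x + ε)) := by fun_prop
    exact hc.tendsto 0
  have hy' : (u x + 0) * (k x + 0) < y := by simpa using hy
  obtain ⟨ε, hε1, hε2⟩ := ((ht.eventually_lt_const hy').and self_mem_nhdsWithin).exists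
  have hε : (0 : ℝ) < ε := hε2
  have h1 : ∀ᶠ x' in 𝓝[S] x, u x' < u x + ε := hu x hx _ (by linarith)
  have h2 : ∀ᶠ x' in 𝓝[S] x, k x' < k x + ε := (hk x hx).eventually_lt_const (by linarith)
  filter_upwards [h1, h2, self_mem_nhdsWithin] with x' h1' h2' hx'
  refine lt_of_le_of_lt ?_ hε1
  exact mul_le_mul h1'.le h2'.le (hk0 x' hx') (by linarith [hu0 x hx])

theorem rescale (hM : MetricData K B G ρ M c₀ C) (hunb : ∀ L : ℝ, ∃ F, Curve K (ball 0 1) F ∧ L < mt G F 0) (n : ℕ) :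
    ∃ F, Curve K (ball 0 (n + 1)) F ∧ mt G F 0 = 1 ∧ ∀ z ∈ ball (0 : ℂ) (n + 1), mt G F z ≤ 2 := by
  obtain ⟨F, hF, hL⟩ := hunb (4 * ((n : ℝ) + 1))
  have hn : (0 : ℝ) ≤ n := Nat.cast_nonneg n
  set u : ℂ → ℝ := fun z => mt G F z * (1 / 2 - ‖z‖) with hu
  have hsub : closedBall (0 : ℂ) (1 / 2) ⊆ ball 0 1 := closedBall_subset_ball (by norm_num)
  have husc : UpperSemicontinuousOn u (closedBall (0 : ℂ) (1 / 2)) := by
    refine resc_usc_mul ((mt_usc hM isOpen_ball hF).mono hsub) (by fun_prop) ?_ ?_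
    · intro x hx
      exact mt_nonneg hM (hF.2 x (hsub hx))
    · intro x hx
      have : ‖x‖ ≤ 1 / 2 := by simpa using hx
      linarith
  obtain ⟨z₀, hz₀, hmax⟩ := husc.exists_isMaxOn ⟨0, by simp⟩ (isCompact_closedBall _ _)
  have hz₀n : ‖z₀‖ ≤ 1 / 2 := by simpa using hz₀
  have h0 : u 0 ≤ u z₀ := hmax (by simp : (0 : ℂ) ∈ closedBall (0 : ℂ) (1 / 2))
  have hu0 : u 0 = mt G F 0 / 2 := by simp only [hu, norm_zero]; ring
  have hm : 2 * ((n : ℝ) + 1) < u z₀ := by rw [hu0] at h0; linarith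
  have hz₀K : F z₀ ∈ K := hF.2 z₀ (hsub hz₀)
  have hmt0 : 0 ≤ mt G F z₀ := mt_nonneg hM hz₀K
  set d : ℝ := 1 / 2 - ‖z₀‖ with hd
  have hd0 : 0 ≤ d := by rw [hd]; linarith
  have huz : u z₀ = mt G F z₀ * d := rfl
  have hpos : 0 < mt G F z₀ * d := by rw [← huz]; linarith
  have hmtpos : 0 < mt G F z₀ := by
    rcases hmt0.lt_or_eq with h | h
    · exact h
    · rw [← h] at hpos; simp at hpos
  have hdpos : 0 < d := by
    rcases hd0.lt_or_eq with h | h
    · exact h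
    · rw [← h] at hpos; simp at hpos
  set a : ℝ := mt G F z₀ with ha
  set φ : ℂ → ℂ := fun ζ => z₀ + ((a⁻¹ : ℝ) : ℂ) * ζ with hφ
  have hφd : ∀ ζ, HasDerivAt φ ((a⁻¹ : ℝ) : ℂ) ζ := by
    intro ζ
    have := ((hasDerivAt_id ζ).const_mul ((a⁻¹ : ℝ) : ℂ)).const_add z₀
    simpa [hφ] using this
  have hkey : ∀ ζ ∈ ball (0 : ℂ) (n + 1), ‖φ ζ‖ ≤ 1 / 2 - d / 2 := by
    intro ζ hζ
    have hζn : ‖ζ‖ < n + 1 := by simpa using hζ
    have h1 : ‖φ ζ‖ ≤ ‖z₀‖ + a⁻¹ * ‖ζ‖ := by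
      calc ‖φ ζ‖ ≤ ‖z₀‖ + ‖((a⁻¹ : ℝ) : ℂ) * ζ‖ := norm_add_le _ _
        _ = ‖z₀‖ + a⁻¹ * ‖ζ‖ := by
          rw [norm_mul, Complex.norm_real, Real.norm_of_nonneg (by positivity)]
    have h2 : a⁻¹ * ‖ζ‖ ≤ d / 2 := by
      rw [inv_mul_le_iff₀ hmtpos]
      rw [huz] at hm
      linarith
    have h3 : ‖z₀‖ = 1 / 2 - d := by rw [hd]; ring
    linarith
  have hball : ∀ ζ ∈ ball (0 : ℂ) (n + 1), φ ζ ∈ closedBall (0 : ℂ) (1 / 2) := by
    intro ζ hζ
    have := hkey ζ hζ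
    rw [mem_closedBall_zero_iff]
    linarith
  have hdiff : ∀ ζ ∈ ball (0 : ℂ) (n + 1), DifferentiableAt ℂ F (φ ζ) := fun ζ hζ =>
    (hF.1 _ (hsub (hball ζ hζ))).differentiableAt (isOpen_ball.mem_nhds (hsub (hball ζ hζ)))
  have hmt : ∀ ζ ∈ ball (0 : ℂ) (n + 1), mt G (fun ζ => F (φ ζ)) ζ = a⁻¹ * mt G F (φ ζ) := by
    intro ζ hζ
    rw [mt_comp hM (hdiff ζ hζ) (hφd ζ).differentiableAt (hF.2 _ (hsub (hball ζ hζ))), (hφd ζ).deriv,
      Complex.norm_real, Real.norm_of_nonneg (by positivity)]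
  refine ⟨fun ζ => F (φ ζ), ⟨?_, ?_⟩, ?_, ?_⟩
  · intro ζ hζ
    exact ((hdiff ζ hζ).comp ζ (hφd ζ).differentiableAt).differentiableWithinAt
  · intro ζ hζ
    exact hF.2 _ (hsub (hball ζ hζ))
  · rw [hmt 0 (mem_ball_self (by positivity))]
    have : φ 0 = z₀ := by simp [hφ]
    rw [this, ← ha]
    exact inv_mul_cancel₀ hmtpos.ne'
  · intro ζ hζ
    rw [hmt ζ hζ]
    have h1 : u (φ ζ) ≤ u z₀ := hmax (hball ζ hζ)
    have h2 := hkey ζ hζ
    have h3 : mt G F (φ ζ) * (1 / 2 - ‖φ ζ‖) ≤ a * d := h1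
    have h4 : 0 ≤ mt G F (φ ζ) := mt_nonneg hM (hF.2 _ (hsub (hball ζ hζ)))
    have h5 : mt G F (φ ζ) * (d / 2) ≤ a * d :=
      le_trans (mul_le_mul_of_nonneg_left (by linarith) h4) h3
    have h6 : mt G F (φ ζ) ≤ 2 * a := by
      by_contra hc
      push Not at hc
      have : 2 * a * (d / 2) < mt G F (φ ζ) * (d / 2) := mul_lt_mul_of_pos_right hc (by linarith)
      linarith
    rw [inv_mul_le_iff₀ hmtpos]
    linarith

end Pool.Agent.H36.BP

end

section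

/-!
# BD CRho: the function `rh`

`nearest_spec`: `w' ↦ dist y (pr (F w'))` is continuous on the compact set `closedBall w r₂` (`LC.lip`); `IsCompact.exists_isMinOn`.
`rh_bdd`: `B₁` bounds `‖aCoef Ω (A.χ i) p‖ * ‖(A.χ i).σ p‖` for all `i` and `‖p‖ ≤ 1 / 2` (compact, `aCoef_analytic` with `K = X`, `σ_an`).  Let `dist (pr (G z)) (pr (F w)) ≤ ε := A.δ`, `i = A.idx (pr (G z))`,
`w' = nearest ..`; `dist (pr (G z)) (pr (F w')) ≤ dist (pr (G z)) (pr (F w)) ≤ A.δ`, so `G z` and `F w'` are good for `i` (`A.good`), so the difference of the coordinates has norm `≤ 1`, the derivative has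
norm `≤ K` (`der_le`), the determinant is at most `2 K`: `rh ≤ B₁ (2 K)^m`.
`coef_trans`: `ACoef_trans` (`H14/PP/FormTrans.lean`) for `K = X`, `p = (A.χ k).q x`: `x = a • (A.χ k).σ p`, so `(A.χ i).q ((A.χ k).σ p) = (A.χ i).q x`; take the `m`-th power (`ACoef = ‖aCoef‖ ^ (1 / m) ‖σ‖ ^ (1 / m)`).
`rh_cmp`: `det_comp` with `η / m`, `w = nearest r₂ F (φ z) (pr (G z))` (`nearest_spec`), `coef_trans` for `x = G z` (good for `k` by `goodG`, good for `i` by `A.good`):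
`‖aCoef_k‖ ‖σ_k‖ D ^ m = ‖aCoef_i‖ ‖σ_i‖ (J D) ^ m`.
-/

set_option autoImplicit false

open Topology Filter Metric

namespace Pool.Agent.H5.BD

open Pool.Agent.H36.BP (EN fs wd)
open Pool.Agent.H14.PP (IsCone Chart Form Tan aCoef jac)
open Pool.Agent.H62.EF (MN pr det2)

variable {N : ℕ} {X : Set (EN N)} {A : Atlas X} {c L r₀ c₁ K₀ r₂ r₃ ε₃ K : ℝ} {m : ℕ}

open Classical in
/-- the parameter of the point of the plaque of `F` at `w` which is nearest to `y` -/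
noncomputable def nearest (r₂ : ℝ) (F : ℂ → EN N) (w : ℂ) (y : MN N) : ℂ :=
  if h : ∃ w' ∈ closedBall w r₂, ∀ w'' ∈ closedBall w r₂, dist y (pr (F w')) ≤ dist y (pr (F w'')) then h.choose else w

theorem MC.nearest_spec (h : MC A c L r₀ c₁ K₀ r₂ r₃ ε₃ K) {F : ℂ → EN N} (hF : F ∈ BC X c L) (w : ℂ) (y : MN N) :
    nearest r₂ F w y ∈ closedBall w r₂ ∧ ∀ w' ∈ closedBall w r₂, dist y (pr (F (nearest r₂ F w y))) ≤ dist y (pr (F w')) := by
  have hcont : Continuous (fun z => pr (F z)) :=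
    (LipschitzWith.of_dist_le_mul (K := (2 * L).toNNReal) fun z w => by
      rw [Real.coe_toNNReal _ (mul_nonneg zero_le_two h.lc.L_pos.le), dist_eq_norm z w]
      exact h.lc.lip F hF z w).continuous
  have hex : ∃ w' ∈ closedBall w r₂, ∀ w'' ∈ closedBall w r₂, dist y (pr (F w')) ≤ dist y (pr (F w'')) := by
    obtain ⟨x, hx, hmin⟩ := (isCompact_closedBall w r₂).exists_isMinOn
      ⟨w, mem_closedBall_self h.r₂_pos.le⟩ (continuous_const.dist hcont).continuousOn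
    exact ⟨x, hx, fun w'' hw'' => hmin hw''⟩
  have hn : nearest r₂ F w y = hex.choose := by
    unfold nearest
    rw [dif_pos hex]
  rw [hn]
  exact hex.choose_spec

/-- the norm of the form at `x`, in the chart `i` -/
noncomputable def cf (A : Atlas X) (Ω : Form X m 1) (i : Fin A.n) (x : EN N) : ℝ :=
  ‖aCoef Ω (A.χ i) ((A.χ i).q x)‖ * ‖(A.χ i).σ ((A.χ i).q x)‖

/-- the distance of `G z` to the plaque of `F` at `w`, measured by the form `Ω` and `G' z` -/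
noncomputable def rh (A : Atlas X) (Ω : Form X m 1) (r₂ : ℝ) (F : ℂ → EN N) (w : ℂ) (G : ℂ → EN N) (z : ℂ) : ℝ :=
  cf A Ω (A.idx (pr (G z))) (G z) *
    ‖det2 (qc A (A.idx (pr (G z))) F (nearest r₂ F w (pr (G z))) - qc A (A.idx (pr (G z))) G z) (deriv (qc A (A.idx (pr (G z))) G) z)‖ ^ m

theorem CRho_open (hX : IsCone X) : Pool.Agent.H14.PP.IsOpenPart X X :=
  ⟨subset_rfl, hX.smul_mem, fun _ _ => Eventually.of_forall fun _ hy => hy⟩

theorem CRho_cf_nonneg (A : Atlas X) (Ω : Form X m 1) (i : Fin A.n) (x : EN N) : 0 ≤ cf A Ω i x :=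
  mul_nonneg (norm_nonneg _) (norm_nonneg _)

theorem CRho_sub {p : ℂ × ℂ} (hp : ‖p‖ ≤ 1 / 2) : p ∈ ball (0 : ℂ × ℂ) 2 := by
  rw [mem_ball_zero_iff]
  exact hp.trans_lt (by norm_num)

theorem CRho_det (a b : ℂ × ℂ) : ‖det2 a b‖ ≤ 2 * (‖a‖ * ‖b‖) := by
  unfold det2
  have h1 : ‖a.1 * b.2‖ ≤ ‖a‖ * ‖b‖ := by
    rw [norm_mul]
    exact mul_le_mul (norm_fst_le a) (norm_snd_le b) (norm_nonneg _) (norm_nonneg _)
  have h2 : ‖a.2 * b.1‖ ≤ ‖a‖ * ‖b‖ := by
    rw [norm_mul]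
    exact mul_le_mul (norm_snd_le a) (norm_fst_le b) (norm_nonneg _) (norm_nonneg _)
  calc ‖a.1 * b.2 - a.2 * b.1‖ ≤ ‖a.1 * b.2‖ + ‖a.2 * b.1‖ := norm_sub_le _ _
    _ ≤ ‖a‖ * ‖b‖ + ‖a‖ * ‖b‖ := add_le_add h1 h2
    _ = 2 * (‖a‖ * ‖b‖) := by ring

theorem CRho_good (A : Atlas X) {x : EN N} (hx : x ∈ X) : Good (A.χ (A.idx (pr x))) x :=
  A.good x hx x hx (by rw [dist_self]; exact A.δ_pos.le)

theorem CRho_pow {j : ℕ} (hj : j = 1) (hm : 1 ≤ m) (Ω : Form X m j) (χ : Chart X) (p : ℂ × ℂ) :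
    Pool.Agent.H14.PP.ACoef Ω χ p ^ m = ‖aCoef Ω χ p‖ * ‖χ.σ p‖ := by
  subst hj
  have hm0 : (m : ℝ) ≠ 0 := by
    have : (1 : ℝ) ≤ m := by exact_mod_cast hm
    linarith
  unfold Pool.Agent.H14.PP.ACoef
  rw [mul_pow, ← Real.rpow_natCast (‖aCoef Ω χ p‖ ^ (1 / (m : ℝ))) m,
    ← Real.rpow_natCast (‖χ.σ p‖ ^ (((1 : ℕ) : ℝ) / m)) m, ← Real.rpow_mul (norm_nonneg _),
    ← Real.rpow_mul (norm_nonneg _), Nat.cast_one, one_div_mul_cancel hm0, Real.rpow_one, Real.rpow_one]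

end Pool.Agent.H5.BD

end

section

/-!
# SY Defs: the metric along entire curves

`X` is the cone of a closed surface, `T` the cone of a curve in it.  `Ent X T F`: `F` is an entire curve in `X`, not contained in `T`.
`g F z` is the length of the derivative of `F` at `z` in a metric which lives on a blow-up of the surface (so it is not a function of a tangent
vector of `X`).  `nu` is a Euclidean norm on `V`, `rho` measures the distance to `T`.
-/

set_option autoImplicit false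

open Topology Filter Metric

namespace Pool.Agent.SY

open Pool.Agent.H36.BP (EN fs wd Sub)
open Pool.Agent.H17BP (Pr Surface IsForm NoZeros Eqs IsChart)
open Pool.Agent.H14.PP (IsCone)
open Pool.Agent.H22.W (PseudoLength)

/-- entire curves in the cone `X`, not contained in `T` -/
structure Ent {V : Type} [NormedAddCommGroup V] [NormedSpace ℂ V] (X T : Set V) (F : ℂ → V) : Prop where
  diff : Differentiable ℂ F
  mem : ∀ z, F z ∈ X
  out : ∃ z, F z ∉ T

/-- a metric along entire curves -/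
structure Energy {V : Type} [NormedAddCommGroup V] [NormedSpace ℂ V] (X T : Set V) (nu rho : V → ℝ) (M : ℕ) (c₀ C : ℝ)
    (g : (ℂ → V) → ℂ → ℝ) : Prop where
  c₀_pos : 0 < c₀
  C_pos : 0 < C
  nonneg : ∀ F, Ent X T F → ∀ z, 0 ≤ g F z
  usc : ∀ F, Ent X T F → ∀ z a, g F z < a → ∀ᶠ w in 𝓝 z, g F w < a
  aff : ∀ F, Ent X T F → ∀ a b : ℂ, a ≠ 0 → ∀ z, g (fun w => F (a * w + b)) z = ‖a‖ * g F (a * z + b)
  unit : ∀ F, Ent X T F → ∀ h : ℂ → ℂ, Differentiable ℂ h → (∀ z, h z ≠ 0) → ∀ z, g (fun w => h w • F w) z = g F z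
  sub : ∀ F, Ent X T F → ∀ z, 0 < g F z → Sub (fun w => g F w * nu (F w) ^ (-c₀)) z (-(C * g F z ^ 2))
  lower : ∀ F, Ent X T F → ∀ z, ∃ a : ℂ, rho (F z) ^ M * ‖deriv F z - a • F z‖ ≤ C * ‖F z‖ * g F z
  lim : ∀ (l : Filter ℕ), l.NeBot → ∀ (r A ε : ℝ), 0 < r → 0 < ε → ∀ (F : ℕ → ℂ → V) (H : ℂ → V), (∀ᶠ n in l, Ent X T (F n)) →
    (∀ᶠ n in l, ∀ z ∈ ball (0 : ℂ) r, g (F n) z ≤ A) → (∀ᶠ n in l, ε ≤ g (F n) 0) →
    (∃ h : ℕ → ℂ → ℂ, (∀ᶠ n in l, DifferentiableOn ℂ (h n) (ball 0 r) ∧ ∀ z ∈ ball (0 : ℂ) r, h n z ≠ 0) ∧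
      TendstoLocallyUniformlyOn (fun n z => h n z • F n z) H l (ball 0 r)) →
    (∀ z ∈ ball (0 : ℂ) r, H z ∈ X) → (∃ z ∈ ball (0 : ℂ) r, H z ∉ T) ∧ ∃ z ∈ ball (0 : ℂ) r, ∃ w ∈ ball (0 : ℂ) r, ¬ Pr (H z) (H w)

/-- A closed surface with a curve `T` in it and a section `Ω` of `m K - j H` without zeros outside `T`. -/
structure ModelS {V : Type} [NormedAddCommGroup V] [NormedSpace ℂ V] (X T : Set V) (m j : ℕ) (Ω : V → V → V → ℂ) {κ : Type} (Q : κ → V → ℂ)
    (D : ℕ) : Prop where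
  surf : Surface X
  one_m : 1 ≤ m
  one_j : 1 ≤ j
  form : IsForm X m j Ω
  noZeros : NoZeros X T Ω
  eqs : Eqs X T Q D
  thin : ∀ σ τ, IsChart X σ τ → ∃ᶠ p in 𝓝 (0 : ℂ × ℂ), σ p ∉ T

variable {N : ℕ}

/-- the entire curves of constant length one -/
def Cls {X : Set (EN N)} (T : Set (EN N)) (n : PseudoLength X) (F : ℂ → EN N) : Prop :=
  Ent X T F ∧ ∀ z, n.toFun (F z) (deriv F z) = 1

end Pool.Agent.SY

end

section

/-!
# SY DefB: lifts of entire curves to the blow-up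
-/

set_option autoImplicit false

open Topology Filter Metric

noncomputable section

namespace Pool.Agent.SY

open Pool.Agent.H62.BU (blow total phi)

variable {V : Type} [NormedAddCommGroup V] [NormedSpace ℂ V] {ι : Type} [Fintype ι]

/-- `Φ` is a lift of the entire curve `F` to the blow-up. -/
def IsLiftB (l : ι → V →L[ℂ] ℂ) (X T : Set V) (F : ℂ → V) (Φ : ℂ → ι → V) : Prop :=
  Ent (blow l X) (total l X T) Φ ∧ ∃ h : ℂ → ℂ, Differentiable ℂ h ∧ ∀ z, phi l (F z) = h z • Φ z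

open Classical in
/-- the metric of the blow-up on the curves downstairs -/
def down (l : ι → V →L[ℂ] ℂ) (X T : Set V) (g : (ℂ → ι → V) → ℂ → ℝ) (F : ℂ → V) : ℂ → ℝ :=
  if h : ∃ Φ, IsLiftB l X T F Φ then g h.choose else 0

end Pool.Agent.SY

end
end
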