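import Pool.Agent.H94.G6.M05

/-! The parts of this file: H30M.Calc_3, H30M.PL. -/

section

/-!
# Calculus of gradients and Laplacians on the complex plane
-/

set_option autoImplicit false

open MeasureTheory Complex Set Filter Topology Laplacian InnerProductSpace

namespace Pool.Agent.H30M

theorem gg_comm (u v : ℂ → ℝ) (z : ℂ) : gg u v z = gg v u z := by
  unfold gg; ring

theorem gg_self_nonneg (u : ℂ → ℝ) (z : ℂ) : 0 ≤ gg u u z := by
  unfold gg
  nlinarith [sq_nonneg (fderiv ℝ u z 1), sq_nonneg (fderiv ℝ u z I)]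

/-- Cauchy-Schwarz -/
theorem gg_sq_le (u v : ℂ → ℝ) (z : ℂ) : gg u v z ^ 2 ≤ gg u u z * gg v v z := by
  unfold gg
  nlinarith [sq_nonneg (fderiv ℝ u z 1 * fderiv ℝ v z I - fderiv ℝ u z I * fderiv ℝ v z 1)]

theorem abs_gg_le (u v : ℂ → ℝ) (z : ℂ) : |gg u v z| ≤ √(gg u u z) * √(gg v v z) := by
  rw [← Real.sqrt_mul (gg_self_nonneg u z)]
  exact Real.abs_le_sqrt (gg_sq_le u v z)

theorem gg_comp {φ : ℝ → ℝ} {u v : ℂ → ℝ} {z : ℂ} (hφ : DifferentiableAt ℝ φ (u z))
    (hu : DifferentiableAt ℝ u z) :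
    gg (fun w => φ (u w)) v z = deriv φ (u z) * gg u v z := by
  unfold gg
  rw [fderiv_comp_real hφ hu, fderiv_comp_real hφ hu]
  ring

theorem lap_add {u v : ℂ → ℝ} {z : ℂ} (hu : ContDiffAt ℝ 2 u z) (hv : ContDiffAt ℝ 2 v z) :
    Δ (fun w => u w + v w) z = Δ u z + Δ v z := hu.laplacian_add hv

theorem lap_sub {u v : ℂ → ℝ} {z : ℂ} (hu : ContDiffAt ℝ 2 u z) (hv : ContDiffAt ℝ 2 v z) :
    Δ (fun w => u w - v w) z = Δ u z - Δ v z := hu.laplacian_sub hv

theorem lap_const_mul {u : ℂ → ℝ} {z : ℂ} (hu : ContDiffAt ℝ 2 u z) (c : ℝ) :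
    Δ (fun w => c * u w) z = c * Δ u z := by
  have := laplacian_smul c hu
  exact this

theorem gg_congr {u v w : ℂ → ℝ} {z : ℂ} (h : u =ᶠ[𝓝 z] v) : gg u w z = gg v w z := by
  unfold gg
  rw [h.fderiv_eq]

end Pool.Agent.H30M

end

section

/-!
# Poincare-Lelong for test functions: `∫ Δτ log |g| = 2 π ∑ ord_z(g) τ(z)`
-/

set_option autoImplicit false

open MeasureTheory Complex Set Filter Topology Laplacian InnerProductSpace Metric

namespace Pool.Agent.H30M

/-- The decomposition of `log ‖g‖` on a compact set. -/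
theorem log_decomp {K : Set ℂ} (hK : IsCompact K) {g : ℂ → ℂ} (hg : AnalyticOnNhd ℂ g K)
    (h0 : ∀ z ∈ K, analyticOrderAt g z ≠ ⊤) :
    ∃ (S : Finset ℂ) (h : ℂ → ℂ), (∀ u ∈ S, u ∈ K) ∧ (∀ u ∈ K, u ∉ S → analyticOrderNatAt g u = 0) ∧
      AnalyticOnNhd ℂ h K ∧ (∀ z ∈ K, h z ≠ 0) ∧
      ∀ᵐ z : ℂ, z ∈ K → Real.log ‖g z‖ = ∑ u ∈ S, (analyticOrderNatAt g u : ℝ) * Real.log ‖z - u‖ + Real.log ‖h z‖ := by
  classical
  have hm : MeromorphicOn g K := fun z hz => (hg z hz).meromorphicAt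
  have hfin : (MeromorphicOn.divisor g K).support.Finite :=
    (MeromorphicOn.divisor g K).finiteSupport hK
  have hord : ∀ z ∈ K, meromorphicOrderAt g z = (analyticOrderAt g z).map (↑) := fun z hz =>
    (hg z hz).meromorphicOrderAt_eq
  have h1 : ∀ u : K, meromorphicOrderAt g u ≠ ⊤ := by
    intro u
    rw [hord u u.2]
    simpa using h0 u u.2
  obtain ⟨h, hh1, hh2, hh3⟩ := hm.extract_zeros_poles h1 hfin
  have hlog := MeromorphicOn.extract_zeros_poles_log hh2 hh3
  have hD : ∀ u ∈ K, MeromorphicOn.divisor g K u = (analyticOrderNatAt g u : ℤ) := by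
    intro u hu
    rw [MeromorphicOn.divisor_apply hm hu, hord u hu, ← Nat.cast_analyticOrderNatAt (h0 u hu)]
    rfl
  refine ⟨hfin.toFinset, h, ?_, ?_, hh1, fun z hz => hh2 ⟨z, hz⟩, ?_⟩
  · intro u hu
    rw [Set.Finite.mem_toFinset] at hu
    exact (MeromorphicOn.divisor g K).supportWithinDomain hu
  · intro u hu hn
    rw [Set.Finite.mem_toFinset, Function.mem_support, not_not, hD u hu] at hn
    exact_mod_cast hn
  · have h2 := ae_restrict_le_codiscreteWithin (μ := (volume : Measure ℂ)) hK.measurableSet hlog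
    have h3 : ∀ᵐ z ∂(volume.restrict K), Real.log ‖g z‖
        = (∑ᶠ u, (fun z => (MeromorphicOn.divisor g K u : ℝ) * Real.log ‖z - u‖) + fun z => Real.log ‖h z‖) z := h2
    rw [ae_restrict_iff' hK.measurableSet] at h3
    filter_upwards [h3] with z hz hzK
    rw [hz hzK, Pi.add_apply]
    congr 1
    have hs : (fun u => fun z : ℂ => (MeromorphicOn.divisor g K u : ℝ) * Real.log ‖z - u‖).support ⊆ hfin.toFinset := by
      intro u hu
      simp only [Set.Finite.coe_toFinset, Function.mem_support]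
      intro h
      apply hu
      funext z
      simp [h]
    rw [finsum_eq_sum_of_support_subset _ hs, Finset.sum_apply]
    refine Finset.sum_congr rfl fun u hu => ?_
    rw [Set.Finite.mem_toFinset] at hu
    rw [hD u ((MeromorphicOn.divisor g K).supportWithinDomain hu)]
    simp

theorem contDiffAt_log_norm {h : ℂ → ℂ} {z : ℂ} (hh : AnalyticAt ℂ h z) (h0 : h z ≠ 0) :
    ContDiffAt ℝ 2 (fun w => Real.log ‖h w‖) z := (hh.harmonicAt_log_norm h0).1

theorem lap_log_norm {h : ℂ → ℂ} {z : ℂ} (hh : AnalyticAt ℂ h z) (h0 : h z ≠ 0) :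
    Δ (fun w => Real.log ‖h w‖) z = 0 := (hh.harmonicAt_log_norm h0).2.eq_of_nhds

theorem continuous_lap {τ : ℂ → ℝ} (hτ : ContDiff ℝ 2 τ) : Continuous (Δ τ) := by
  have e : Δ τ = fun z => fderiv ℝ (fun w => fderiv ℝ τ w 1) z 1 + fderiv ℝ (fun w => fderiv ℝ τ w I) z I :=
    funext fun z => lap_eq hτ.contDiffAt
  rw [e]
  have hd : ∀ v : ℂ, ContDiff ℝ 1 fun z => fderiv ℝ τ z v := fun v =>
    (hτ.fderiv_right (m := 1) (by norm_num)).clm_apply contDiff_const
  exact (((hd 1).continuous_fderiv (by norm_num)).clm_apply continuous_const).add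
    (((hd I).continuous_fderiv (by norm_num)).clm_apply continuous_const)

end Pool.Agent.H30M

end
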