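import Pool.Agent.H94.G6.H14.PP.Defs_1
import Pool.Agent.H94.G6.M06
import Pool.Agent.H94.G6.M19
import Pool.Agent.H94.G6.M22
import Pool.Agent.H94.G6.M31

/-! The parts of this file: H30M.Key, H36.TB.Cmp. -/

section

/-!
# The key inequality, the charge of a level region and the passes (one variable, abstract form)

Data: `L` of class `C²` with `0 ≤ Δ L`, `g` entire, not `0`, `‖g‖ ≤ exp (d L)`, `u = log ‖g‖ - d L`.
-/

set_option autoImplicit false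

open MeasureTheory Complex Set Filter Topology Laplacian InnerProductSpace Metric

namespace Pool.Agent.H30M

/-- `u = log ‖g‖ - d L` -/
noncomputable def uu (L : ℂ → ℝ) (g : ℂ → ℂ) (d : ℝ) (z : ℂ) : ℝ := Real.log ‖g z‖ - d * L z

/-- `e^(2u)` -/
noncomputable def e2u (L : ℂ → ℝ) (g : ℂ → ℂ) (d : ℝ) (z : ℂ) : ℝ := ‖g z‖ ^ 2 * Real.exp (-(2 * d * L z))

/-- `e^(2u) |∇u|²` -/
noncomputable def GG (L : ℂ → ℝ) (g : ℂ → ℂ) (d : ℝ) (z : ℂ) : ℝ :=
  ‖deriv g z - d * g z * (⟨fderiv ℝ L z 1, - fderiv ℝ L z I⟩ : ℂ)‖ ^ 2 * Real.exp (-(2 * d * L z))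

/-- the charge density `K''(u) |∇u|²` for `K(u) = 1/2 log (e^(2u) + e^(2b))` -/
noncomputable def HH (L : ℂ → ℝ) (g : ℂ → ℂ) (d b : ℝ) (z : ℂ) : ℝ :=
  2 * Real.exp (2 * b) * GG L g d z / (e2u L g d z + Real.exp (2 * b)) ^ 2

/-- `K(u)` -/
noncomputable def KK (L : ℂ → ℝ) (g : ℂ → ℂ) (d b : ℝ) (z : ℂ) : ℝ := Real.log (e2u L g d z + Real.exp (2 * b)) / 2

theorem e2u_nonneg (L : ℂ → ℝ) (g : ℂ → ℂ) (d : ℝ) (z : ℂ) : 0 ≤ e2u L g d z := by unfold e2u; positivity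

theorem GG_nonneg (L : ℂ → ℝ) (g : ℂ → ℂ) (d : ℝ) (z : ℂ) : 0 ≤ GG L g d z := by unfold GG; positivity

theorem HH_nonneg (L : ℂ → ℝ) (g : ℂ → ℂ) (d b : ℝ) (z : ℂ) : 0 ≤ HH L g d b z := by
  unfold HH
  have := GG_nonneg L g d z
  positivity

section

variable {L : ℂ → ℝ} {g : ℂ → ℂ} {d : ℝ}

theorem e2u_eq {z : ℂ} (h : g z ≠ 0) : e2u L g d z = Real.exp (2 * uu L g d z) := by
  unfold e2u uu
  have hp : 0 < ‖g z‖ := norm_pos_iff.2 h
  have e : 2 * (Real.log ‖g z‖ - d * L z) = Real.log (‖g z‖ ^ 2) + (-(2 * d * L z)) := by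
    rw [Real.log_pow]; push_cast; ring
  rw [e, Real.exp_add, Real.exp_log (by positivity)]

theorem contDiff_g (hg : Differentiable ℂ g) : ContDiff ℝ 2 g := (hg.contDiff (n := 2)).restrict_scalars ℝ

theorem contDiff_KK (hL : ContDiff ℝ 2 L) (hg : Differentiable ℂ g) (b : ℝ) : ContDiff ℝ 2 (KK L g d b) := by
  have h1 : ContDiff ℝ 2 fun z => ‖g z‖ ^ 2 := (contDiff_g hg).norm_sq ℝ
  have h2 : ContDiff ℝ 2 fun z => Real.exp (-(2 * d * L z)) := ((contDiff_const.mul hL).neg).exp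
  have h3 : ContDiff ℝ 2 fun z => e2u L g d z + Real.exp (2 * b) := (h1.mul h2).add contDiff_const
  exact (h3.log fun z => by have := e2u_nonneg L g d z; positivity).div_const 2

theorem continuous_e2u (hL : ContDiff ℝ 2 L) (hg : Differentiable ℂ g) : Continuous (e2u L g d) := by
  unfold e2u
  have h1 := hL.continuous
  have h2 := hg.continuous
  fun_prop

theorem continuous_GG (hL : ContDiff ℝ 2 L) (hg : Differentiable ℂ g) : Continuous (GG L g d) := by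
  unfold GG
  have h1 := hL.continuous
  have h2 := hg.continuous
  have h3 : Continuous (deriv g) := (hg.contDiff (n := 1)).continuous_deriv (by norm_num)
  have h4 : Continuous fun z => fderiv ℝ L z 1 := (hL.continuous_fderiv (by norm_num)).clm_apply continuous_const
  have h5 : Continuous fun z => fderiv ℝ L z I := (hL.continuous_fderiv (by norm_num)).clm_apply continuous_const
  have h6 : Continuous fun z => (⟨fderiv ℝ L z 1, - fderiv ℝ L z I⟩ : ℂ) := by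
    have e : (fun z => (⟨fderiv ℝ L z 1, - fderiv ℝ L z I⟩ : ℂ)) = fun z => ((fderiv ℝ L z 1 : ℝ) : ℂ) - (fderiv ℝ L z I : ℝ) * I := by
      funext z
      apply Complex.ext <;> simp
    rw [e]
    exact (continuous_ofReal.comp h4).sub ((continuous_ofReal.comp h5).mul continuous_const)
  exact ((h3.sub ((continuous_const.mul h2).mul h6)).norm.pow 2).mul (by fun_prop)

theorem continuous_HH (hL : ContDiff ℝ 2 L) (hg : Differentiable ℂ g) (b : ℝ) : Continuous (HH L g d b) := by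
  unfold HH
  refine (continuous_const.mul (continuous_GG hL hg)).div (((continuous_e2u hL hg).add continuous_const).pow 2) fun z => ?_
  have := e2u_nonneg L g d z
  positivity

theorem contDiffAt_uu (hL : ContDiff ℝ 2 L) (hg : Differentiable ℂ g) {z : ℂ} (h : g z ≠ 0) : ContDiffAt ℝ 2 (uu L g d) z :=
  (contDiffAt_log_norm (hg.analyticAt z) h).sub (contDiffAt_const.mul hL.contDiffAt)

theorem GG_eq (hL : ContDiff ℝ 2 L) (hg : Differentiable ℂ g) {z : ℂ} (h : g z ≠ 0) :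
    GG L g d z = e2u L g d z * gg (uu L g d) (uu L g d) z := by
  have hu : ∀ v : ℂ, fderiv ℝ (uu L g d) z v = (deriv g z / g z * v).re - d * fderiv ℝ L z v := by
    intro v
    have h1 : DifferentiableAt ℝ (fun z => Real.log ‖g z‖) z := (contDiffAt_log_norm (hg.analyticAt z) h).differentiableAt (by norm_num)
    have h2 : DifferentiableAt ℝ L z := hL.differentiable (by norm_num) z
    have h3 : HasFDerivAt (uu L g d) (fderiv ℝ (fun z => Real.log ‖g z‖) z - d • fderiv ℝ L z) z :=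
      h1.hasFDerivAt.sub (h2.hasFDerivAt.const_mul d)
    rw [h3.fderiv]
    simp only [sub_apply, smul_apply, smul_eq_mul]
    rw [fderiv_log_norm (hg z) h]
  unfold GG e2u gg
  rw [hu, hu]
  set a := fderiv ℝ L z 1
  set b := fderiv ℝ L z I
  have e1 : deriv g z - d * g z * (⟨a, -b⟩ : ℂ) = g z * (deriv g z / g z - d * (⟨a, -b⟩ : ℂ)) := by
    field_simp
  rw [e1, norm_mul, mul_pow]
  have e2 : ‖deriv g z / g z - d * (⟨a, -b⟩ : ℂ)‖ ^ 2 = ((deriv g z / g z * 1).re - d * a) * ((deriv g z / g z * 1).re - d * a) +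
      ((deriv g z / g z * I).re - d * b) * ((deriv g z / g z * I).re - d * b) := by
    rw [← Complex.normSq_eq_norm_sq, Complex.normSq_apply]
    simp only [sub_re, sub_im, mul_re, mul_im, ofReal_re, ofReal_im, I_re, I_im, one_re, one_im]
    ring
  rw [e2]
  ring

private theorem ky_phi (b t : ℝ) : HasDerivAt (fun t : ℝ => Real.log (Real.exp (2 * t) + Real.exp (2 * b)) / 2)
    (Real.exp (2 * t) / (Real.exp (2 * t) + Real.exp (2 * b))) t := by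
  have h1 : HasDerivAt (fun t : ℝ => Real.exp (2 * t)) (Real.exp (2 * t) * (2 * 1)) t :=
    ((hasDerivAt_id t).const_mul 2).exp
  have h2 := ((h1.add_const (Real.exp (2 * b))).log (by positivity)).div_const 2
  refine h2.congr_deriv ?_
  have : Real.exp (2 * t) + Real.exp (2 * b) ≠ 0 := by positivity
  field_simp

private theorem ky_phi2 (b t : ℝ) : HasDerivAt (fun t : ℝ => Real.exp (2 * t) / (Real.exp (2 * t) + Real.exp (2 * b)))
    (2 * Real.exp (2 * b) * Real.exp (2 * t) / (Real.exp (2 * t) + Real.exp (2 * b)) ^ 2) t := by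
  have h1 : HasDerivAt (fun t : ℝ => Real.exp (2 * t)) (Real.exp (2 * t) * (2 * 1)) t :=
    ((hasDerivAt_id t).const_mul 2).exp
  have h2 := h1.div (h1.add_const (Real.exp (2 * b))) (by positivity)
  refine h2.congr_deriv ?_
  ring

/-- **Laplacian of `K(u)`** -/
theorem lap_KK (hL : ContDiff ℝ 2 L) (hg : Differentiable ℂ g) (b : ℝ) {z : ℂ} (h : g z ≠ 0) :
    Δ (KK L g d b) z = HH L g d b z - e2u L g d z / (e2u L g d z + Real.exp (2 * b)) * (d * Δ L z) := by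
  set φ : ℝ → ℝ := fun t => Real.log (Real.exp (2 * t) + Real.exp (2 * b)) / 2 with hφ
  have hev : KK L g d b =ᶠ[𝓝 z] fun w => φ (uu L g d w) := by
    filter_upwards [hg.continuous.continuousAt.eventually_ne h] with w hw
    unfold KK
    rw [e2u_eq hw]
  have hφc : ContDiff ℝ 2 φ := by
    have h1 : ContDiff ℝ 2 fun t : ℝ => Real.exp (2 * t) + Real.exp (2 * b) :=
      ((contDiff_const.mul contDiff_id).exp).add contDiff_const
    exact (h1.log fun t => by positivity).div_const 2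
  have hu := contDiffAt_uu (d := d) hL hg h
  rw [lap_congr hev, lap_comp hφc.contDiffAt hu]
  have d1 : deriv φ = fun t => Real.exp (2 * t) / (Real.exp (2 * t) + Real.exp (2 * b)) := funext fun t => (ky_phi b t).deriv
  have d2 : deriv (deriv φ) (uu L g d z) = 2 * Real.exp (2 * b) * Real.exp (2 * uu L g d z) /
      (Real.exp (2 * uu L g d z) + Real.exp (2 * b)) ^ 2 := by
    rw [d1]; exact (ky_phi2 b _).deriv
  have hlu : Δ (uu L g d) z = - (d * Δ L z) := by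
    have h1 := contDiffAt_log_norm (hg.analyticAt z) h
    have h2 : ContDiffAt ℝ 2 (fun w => d * L w) z := contDiffAt_const.mul hL.contDiffAt
    have h3 : Δ (uu L g d) z = _ := lap_sub h1 h2
    rw [h3, lap_log_norm (hg.analyticAt z) h, lap_const_mul hL.contDiffAt]
    ring
  rw [hlu, d2, d1]
  unfold HH
  rw [GG_eq hL hg h, e2u_eq h]
  ring

theorem HH_eq (hL : ContDiff ℝ 2 L) (hg : Differentiable ℂ g) (b : ℝ) {z : ℂ} (h : g z ≠ 0) :
    HH L g d b z = 2 * Real.exp (2 * b) * Real.exp (2 * uu L g d z) /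
      (Real.exp (2 * uu L g d z) + Real.exp (2 * b)) ^ 2 * gg (uu L g d) (uu L g d) z := by
  unfold HH
  rw [GG_eq hL hg h, e2u_eq h]
  ring

theorem ae_ne_zero (hg : Differentiable ℂ g) (h0 : ∃ z, g z ≠ 0) : ∀ᵐ z : ℂ, g z ≠ 0 := by
  have hA : AnalyticOnNhd ℂ g univ := fun z _ => hg.analyticAt z
  obtain ⟨w, hw⟩ := h0
  have h1 : g ⁻¹' {0}ᶜ ∈ codiscreteWithin (univ : Set ℂ) := hA.preimage_zero_mem_codiscrete (x := w) hw
  have h2 := ae_restrict_le_codiscreteWithin (μ := (volume : Measure ℂ)) MeasurableSet.univ h1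
  rw [Measure.restrict_univ] at h2
  exact h2

theorem e2u_le_one (hle : ∀ z, ‖g z‖ ≤ Real.exp (d * L z)) (z : ℂ) : e2u L g d z ≤ 1 := by
  unfold e2u
  have h1 : ‖g z‖ ^ 2 ≤ Real.exp (d * L z) ^ 2 := pow_le_pow_left₀ (norm_nonneg _) (hle z) 2
  have h2 : Real.exp (d * L z) ^ 2 * Real.exp (-(2 * d * L z)) = 1 := by
    rw [← Real.exp_nat_mul, ← Real.exp_add]
    push_cast
    rw [show (2 : ℝ) * (d * L z) + -(2 * d * L z) = 0 by ring, Real.exp_zero]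
  calc _ ≤ Real.exp (d * L z) ^ 2 * Real.exp (-(2 * d * L z)) := mul_le_mul_of_nonneg_right h1 (Real.exp_pos _).le
    _ = 1 := h2

private theorem ky_kap {t : ℝ} (h1 : -1 ≤ t) (h2 : t ≤ 1) : 1 / 5 ≤ 2 * Real.exp (2 * t) / (Real.exp (2 * t) + 1) ^ 2 := by
  have hx : 0 < Real.exp (2 * t) := Real.exp_pos _
  have e1 : Real.exp (2 * t) ≤ 7.4 := by
    have h3 : Real.exp (2 * t) ≤ Real.exp 2 := Real.exp_le_exp.2 (by linarith)
    have h4 : Real.exp 2 = Real.exp 1 ^ 2 := by rw [← Real.exp_nat_mul]; norm_num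
    have h5 := Real.exp_one_lt_d9
    have h6 := Real.exp_pos 1
    rw [h4] at h3
    nlinarith
  have e2 : 1 / 7.4 ≤ Real.exp (2 * t) := by
    have h3 : Real.exp (-2) ≤ Real.exp (2 * t) := Real.exp_le_exp.2 (by linarith)
    have h4 : Real.exp 2 = Real.exp 1 ^ 2 := by rw [← Real.exp_nat_mul]; norm_num
    have h5 := Real.exp_one_lt_d9
    have h6 := Real.exp_pos 1
    have h7 : Real.exp 2 ≤ 7.4 := by rw [h4]; nlinarith
    have h8 : 1 / 7.4 ≤ Real.exp (-2) := by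
      rw [Real.exp_neg, ← one_div]
      exact one_div_le_one_div_of_le (Real.exp_pos _) h7
    linarith
  rw [div_le_div_iff₀ (by norm_num) (by positivity)]
  norm_num at e2
  nlinarith

/-- the density is at least `1/5 |∇u|²` where `|u - b| ≤ 1` -/
theorem le_HH (hL : ContDiff ℝ 2 L) (hg : Differentiable ℂ g) {b : ℝ} {z : ℂ} (h : g z ≠ 0) (h1 : b - 1 ≤ uu L g d z)
    (h2 : uu L g d z ≤ b + 1) : 1 / 5 * gg (uu L g d) (uu L g d) z ≤ HH L g d b z := by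
  rw [HH_eq hL hg b h]
  refine mul_le_mul_of_nonneg_right ?_ (gg_self_nonneg _ _)
  have h3 := ky_kap (t := uu L g d z - b) (by linarith) (by linarith)
  have e : Real.exp (2 * uu L g d z) = Real.exp (2 * b) * Real.exp (2 * (uu L g d z - b)) := by
    rw [← Real.exp_add]; congr 1; ring
  rw [e]
  have hb := Real.exp_pos (2 * b)
  have e2 : 2 * Real.exp (2 * b) * (Real.exp (2 * b) * Real.exp (2 * (uu L g d z - b))) /
      (Real.exp (2 * b) * Real.exp (2 * (uu L g d z - b)) + Real.exp (2 * b)) ^ 2 =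
      2 * Real.exp (2 * (uu L g d z - b)) / (Real.exp (2 * (uu L g d z - b)) + 1) ^ 2 := by
    have : Real.exp (2 * (uu L g d z - b)) + 1 ≠ 0 := by positivity
    have e3 : Real.exp (2 * b) * Real.exp (2 * (uu L g d z - b)) + Real.exp (2 * b) =
      Real.exp (2 * b) * (Real.exp (2 * (uu L g d z - b)) + 1) := by ring
    rw [e3]
    field_simp
  rw [e2]
  exact h3

theorem ky_const (b : ℝ) : Real.log (1 + Real.exp (2 * b)) / 2 - b ≤ 1 / 2 + |b| := by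
  have hl2 : Real.log 2 ≤ 1 := by
    have := Real.log_two_lt_d9
    linarith
  rcases le_total b 0 with h | h
  · have h1 : Real.log (1 + Real.exp (2 * b)) ≤ Real.log 2 :=
      Real.log_le_log (by positivity) (by
        have : Real.exp (2 * b) ≤ 1 := Real.exp_le_one_iff.2 (by linarith)
        linarith)
    rw [abs_of_nonpos h]
    linarith
  · have h1 : Real.log (1 + Real.exp (2 * b)) ≤ Real.log (2 * Real.exp (2 * b)) :=
      Real.log_le_log (by positivity) (by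
        have : 1 ≤ Real.exp (2 * b) := Real.one_le_exp (by linarith)
        linarith)
    rw [Real.log_mul (by norm_num) (Real.exp_pos _).ne', Real.log_exp] at h1
    rw [abs_of_nonneg h]
    linarith

end

end Pool.Agent.H30M

end

section

/-!
# TB Cmp: comparison of the model metrics under a change of the coordinates

`sm κ` is the model at a smooth point of the curve `{s = 0}`, `sn κ` at a node `{s t = 0}`.  Both are quasi-invariant under the changes of the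
coordinates which preserve the curve, with constants independent of `κ ∈ [0, 1/4]`.
-/

set_option autoImplicit false

open Topology Filter Metric

namespace Pool.Agent.H36.TB

open Pool.Agent.H36.BP
open Pool.Agent.H14.PP

/-- the model of the metric at a node of the curve -/
noncomputable def sn (κ : ℝ) (p w : ℂ × ℂ) : ℝ := max (‖p.2‖ ^ (1 - κ) * ‖w.1‖) (‖p.1‖ ^ (1 - κ) * ‖w.2‖)

/-- both models: `sg false = sm`, `sg true = sn` -/
noncomputable def sg (nd : Bool) (κ : ℝ) (p w : ℂ × ℂ) : ℝ :=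
  max ((if nd = true then ‖p.2‖ ^ (1 - κ) else 1) * ‖w.1‖) (‖p.1‖ ^ (1 - κ) * ‖w.2‖)

theorem sg_true (κ : ℝ) (p w : ℂ × ℂ) : sg true κ p w = sn κ p w := by
  unfold sg sn
  simp

theorem sm_nonneg (κ : ℝ) (p w : ℂ × ℂ) : 0 ≤ sm κ p w := le_max_of_le_left (norm_nonneg _)

theorem sn_nonneg (κ : ℝ) (p w : ℂ × ℂ) : 0 ≤ sn κ p w :=
  le_max_of_le_left (mul_nonneg (Real.rpow_nonneg (norm_nonneg _) _) (norm_nonneg _))

theorem sg_nonneg (nd : Bool) (κ : ℝ) (p w : ℂ × ℂ) : 0 ≤ sg nd κ p w :=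
  le_max_of_le_right (mul_nonneg (Real.rpow_nonneg (norm_nonneg _) _) (norm_nonneg _))

theorem sn_swap (κ : ℝ) (p w : ℂ × ℂ) : sn κ p.swap w.swap = sn κ p w := by
  unfold sn
  exact max_comm _ _

/-! ## the pieces and the models -/

private theorem Cmp_base {P : Par} (hP : ConvPar P) {s : ℂ} (hs : ‖s‖ ≤ 1) :
    1 ≤ (1 + P.M * ‖s‖ ^ (2 * P.κ)) ^ P.e ∧ (1 + P.M * ‖s‖ ^ (2 * P.κ)) ^ P.e ≤ 2 := by
  have hM : 0 ≤ P.M := by linarith [hP.M_ge]
  have h0 : 0 ≤ ‖s‖ ^ (2 * P.κ) := Real.rpow_nonneg (norm_nonneg _) _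
  have h1 : 1 ≤ 1 + P.M * ‖s‖ ^ (2 * P.κ) := by nlinarith only [hM, h0]
  refine ⟨Real.one_le_rpow h1 hP.e_pos.le, ?_⟩
  have h2 : ‖s‖ ^ (2 * P.κ) ≤ 1 := Real.rpow_le_one (norm_nonneg _) hs (by linarith [hP.κ_pos])
  have h3 : 1 + P.M * ‖s‖ ^ (2 * P.κ) ≤ 1 + P.M := by nlinarith only [hM, h2]
  have h4 : (1 + P.M * ‖s‖ ^ (2 * P.κ)) ^ P.e ≤ (1 + P.M) ^ P.e :=
    Real.rpow_le_rpow (by linarith) h3 hP.e_pos.le
  refine h4.trans ?_
  rw [Real.rpow_def_of_pos (by linarith)]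
  have h5 : Real.log (1 + P.M) * P.e ≤ 1 / 16 := by
    have := hP.e_log
    have := hP.ε_le
    nlinarith
  have h6 : Real.exp (Real.log (1 + P.M) * P.e) ≤ Real.exp (1 / 16) := Real.exp_le_exp.2 h5
  have h7 : Real.exp (1 / 16) ≤ 2 := by
    have h8 := Real.exp_bound_div_one_sub_of_interval (x := 1 / 16) (by norm_num) (by norm_num)
    refine h8.trans (by norm_num)
  exact h6.trans h7

private theorem Cmp_exp_le {a x : ℝ} (ha : 0 ≤ a) : Real.exp (-a * x ^ 2) ≤ 1 := by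
  rw [Real.exp_le_one_iff]
  nlinarith only [ha, sq_nonneg x]

private theorem Cmp_le_exp {a x : ℝ} (ha : 0 ≤ a) (hx0 : 0 ≤ x) (hx : x ≤ 1) :
    Real.exp (-a) ≤ Real.exp (-a * x ^ 2) := by
  rw [Real.exp_le_exp]
  have : x ^ 2 ≤ 1 := pow_le_one₀ hx0 hx
  nlinarith only [ha, this]

private theorem Cmp_pN {P : Par} (hP : ConvPar P) (nd : Bool) {s t : ℂ} (hs : ‖s‖ ≤ 1) (ht : ‖t‖ ≤ 1) (s' : ℂ) :
    Real.exp (-P.K - 1) * ((if nd = true then ‖t‖ ^ (1 - P.κ) else 1) * ‖s'‖) ≤ pN nd P s t s' ∧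
    pN nd P s t s' ≤ 2 * ((if nd = true then ‖t‖ ^ (1 - P.κ) else 1) * ‖s'‖) := by
  obtain ⟨h1, h1'⟩ := Cmp_base hP hs
  have h2 : Real.exp (-P.K * ‖t‖ ^ 2) ≤ 1 := Cmp_exp_le hP.K_pos.le
  have h2' : Real.exp (-P.K) ≤ Real.exp (-P.K * ‖t‖ ^ 2) := Cmp_le_exp hP.K_pos.le (norm_nonneg _) ht
  have h3 : Real.exp (-P.ε * ‖s‖ ^ 2) ≤ 1 := Cmp_exp_le hP.ε_pos.le
  have h3' : Real.exp (-1) ≤ Real.exp (-P.ε * ‖s‖ ^ 2) := by
    refine le_trans (Real.exp_le_exp.2 ?_) (Cmp_le_exp hP.ε_pos.le (norm_nonneg _) hs)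
    linarith [hP.ε_le]
  have h4 : Real.exp (-P.K - 1) = Real.exp (-1) * Real.exp (-P.K) := by
    rw [← Real.exp_add]
    congr 1
    ring
  have e1 : 0 < Real.exp (-1 : ℝ) := Real.exp_pos _
  have e1' : Real.exp (-1 : ℝ) ≤ 1 := Real.exp_le_one_iff.2 (by norm_num)
  have e2 : 0 < Real.exp (-P.K) := Real.exp_pos _
  have e3 : 0 < Real.exp (-P.K * ‖t‖ ^ 2) := Real.exp_pos _
  have e4 : 0 < Real.exp (-P.ε * ‖s‖ ^ 2) := Real.exp_pos _
  have n1 := norm_nonneg s'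
  set a : ℝ := (if nd = true then ‖t‖ ^ (1 - P.κ) else 1) with ha
  have ha0 : 0 ≤ a := by
    rw [ha]
    split_ifs
    · exact Real.rpow_nonneg (norm_nonneg _) _
    · exact zero_le_one
  have key : ∃ b : ℝ, Real.exp (-1) ≤ b ∧ b ≤ 1 ∧
      pN nd P s t s' = a * b * ‖s'‖ * (1 + P.M * ‖s‖ ^ (2 * P.κ)) ^ P.e * Real.exp (-P.K * ‖t‖ ^ 2) := by
    cases nd
    · refine ⟨1, e1', le_rfl, ?_⟩
      unfold pN
      simp [ha]
    · refine ⟨Real.exp (-P.ε * ‖s‖ ^ 2), h3', h3, ?_⟩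
      unfold pN
      simp [ha]
  obtain ⟨b, hb1, hb2, hb3⟩ := key
  rw [hb3, h4]
  have hb0 : 0 < b := e1.trans_le hb1
  set B : ℝ := (1 + P.M * ‖s‖ ^ (2 * P.κ)) ^ P.e with hB
  constructor
  · calc Real.exp (-1) * Real.exp (-P.K) * (a * ‖s'‖) = a * Real.exp (-1) * ‖s'‖ * 1 * Real.exp (-P.K) := by ring
      _ ≤ a * b * ‖s'‖ * B * Real.exp (-P.K * ‖t‖ ^ 2) := by gcongr
  · calc a * b * ‖s'‖ * B * Real.exp (-P.K * ‖t‖ ^ 2) ≤ a * 1 * ‖s'‖ * 2 * 1 := by gcongr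
      _ = 2 * (a * ‖s'‖) := by ring

/-- the pieces are comparable to the models -/
theorem pM_sg {P : Par} (hP : ConvPar P) (nd : Bool) {p : ℂ × ℂ} (hp : ‖p‖ ≤ 1) (w : ℂ × ℂ) :
    Real.exp (-P.K - 1) * sg nd P.κ p w ≤ pM nd P p w ∧ pM nd P p w ≤ 2 * sg nd P.κ p w := by
  have h1 : ‖p.1‖ ≤ 1 := (norm_fst_le p).trans hp
  have h2 : ‖p.2‖ ≤ 1 := (norm_snd_le p).trans hp
  have e0 : 0 < Real.exp (-P.K - 1) := Real.exp_pos _
  obtain ⟨a1, a2⟩ := Cmp_pN hP nd h1 h2 w.1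
  have hT : Real.exp (-P.K - 1) * (‖p.1‖ ^ (1 - P.κ) * ‖w.2‖) ≤ pT nd P p.1 p.2 w.2 ∧
      pT nd P p.1 p.2 w.2 ≤ 2 * (‖p.1‖ ^ (1 - P.κ) * ‖w.2‖) := by
    unfold pT
    cases nd
    · rw [if_neg (by decide)]
      have h3 : Real.exp (-P.ε * ‖p.2‖ ^ 2) ≤ 1 := Cmp_exp_le hP.ε_pos.le
      have h3' : Real.exp (-P.K - 1) ≤ Real.exp (-P.ε * ‖p.2‖ ^ 2) := by
        refine le_trans (Real.exp_le_exp.2 ?_) (Cmp_le_exp hP.ε_pos.le (norm_nonneg _) h2)
        linarith only [hP, hP.ε_le, hP.K_pos]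
      have h4 : 0 ≤ ‖p.1‖ ^ (1 - P.κ) * ‖w.2‖ := mul_nonneg (Real.rpow_nonneg (norm_nonneg _) _) (norm_nonneg _)
      constructor
      · rw [mul_comm]
        exact mul_le_mul_of_nonneg_left h3' h4
      · have := mul_le_mul_of_nonneg_left h3 h4
        linarith only [h4, this]
    · rw [if_pos rfl]
      have := Cmp_pN hP true h2 h1 w.2
      simpa using this
  unfold sg pM
  constructor
  · rw [mul_max_of_nonneg _ _ e0.le]
    exact max_le_max a1 hT.1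
  · rw [mul_max_of_nonneg _ _ (by norm_num : (0 : ℝ) ≤ 2)]
    exact max_le_max a2 hT.2

/-- away from the second axis the two models are comparable -/
theorem sg_sm {nd : Bool} {κ b : ℝ} (hκ0 : 0 ≤ κ) (hκ : κ ≤ 1 / 4) {p w : ℂ × ℂ} (hp : ‖p.2‖ ≤ 1) (hb0 : 0 < b) (hb1 : b ≤ 1)
    (hb : nd = true → b ≤ ‖p.2‖) : b * sm κ p w ≤ sg nd κ p w ∧ sg nd κ p w ≤ sm κ p w := by
  have hx : 0 ≤ ‖p.1‖ ^ (1 - κ) * ‖w.2‖ := mul_nonneg (Real.rpow_nonneg (norm_nonneg _) _) (norm_nonneg _)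
  have n1 := norm_nonneg w.1
  unfold sg sm
  cases nd
  · simp only [Bool.false_eq_true, if_false, one_mul]
    refine ⟨?_, le_rfl⟩
    exact mul_le_of_le_one_left (le_max_of_le_left n1) hb1
  · simp only [if_true]
    have h1 : ‖p.2‖ ^ (1 - κ) ≤ 1 := Real.rpow_le_one (norm_nonneg _) hp (by linarith only [hκ])
    have h2 : b ≤ ‖p.2‖ ^ (1 - κ) := by
      have h3 : 0 < ‖p.2‖ := hb0.trans_le (hb rfl)
      have h4 := Real.rpow_le_rpow_of_exponent_ge h3 hp (show 1 - κ ≤ 1 by linarith only [hκ0])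
      rw [Real.rpow_one] at h4
      exact (hb rfl).trans h4
    constructor
    · rw [mul_max_of_nonneg _ _ hb0.le]
      exact max_le_max (mul_le_mul_of_nonneg_right h2 n1) (mul_le_of_le_one_left hx hb1)
    · exact max_le_max (mul_le_of_le_one_left n1 h1) le_rfl

/-! ## changes of the coordinates -/

private theorem Cmp_rpow {κ x C : ℝ} (hκ0 : 0 ≤ κ) (hκ : κ ≤ 1 / 4) (hx : 0 ≤ x) (hC : 1 ≤ C) : (C * x) ^ (1 - κ) ≤ C * x ^ (1 - κ) := by
  rw [Real.mul_rpow (by linarith) hx]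
  refine mul_le_mul_of_nonneg_right ?_ (Real.rpow_nonneg hx _)
  have := Real.rpow_le_rpow_of_exponent_le hC (show 1 - κ ≤ 1 by linarith only [hκ0])
  rwa [Real.rpow_one] at this

private theorem Cmp_le_rpow {κ x : ℝ} (hκ0 : 0 ≤ κ) (hκ : κ ≤ 1 / 4) (hx : 0 ≤ x) (hx1 : x ≤ 1) : x ≤ x ^ (1 - κ) := by
  rcases hx.eq_or_lt with h | h
  · rw [← h, Real.zero_rpow (by linarith only [hκ])]
  · have := Real.rpow_le_rpow_of_exponent_ge h hx1 (show 1 - κ ≤ 1 by linarith only [hκ0])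
    rwa [Real.rpow_one] at this

private theorem Cmp_pair (L : (ℂ × ℂ) →L[ℂ] (ℂ × ℂ)) (w : ℂ × ℂ) :
    (L w).1 = w.1 * (L (1, 0)).1 + w.2 * (L (0, 1)).1 ∧ (L w).2 = w.1 * (L (1, 0)).2 + w.2 * (L (0, 1)).2 := by
  have h : L w = w.1 • L (1, 0) + w.2 • L (0, 1) := by
    rw [← map_smul, ← map_smul, ← map_add]
    congr 1
    ext
    · simp
    · simp
  rw [h]
  exact ⟨rfl, rfl⟩

/-- at a smooth point -/
theorem sm_change {C κ : ℝ} (hC : 1 ≤ C) (hκ0 : 0 ≤ κ) (hκ : κ ≤ 1 / 4) {τ : ℂ × ℂ → ℂ × ℂ} {p : ℂ × ℂ} (h : TEmap C τ p)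
    (hp : ‖p.1‖ ≤ 1) (w : ℂ × ℂ) : sm κ (τ p) (fderiv ℂ τ p w) ≤ 4 * C ^ 2 * sm κ p w := by
  obtain ⟨h1, h2, h3, h4, h5, h6, h7⟩ := h
  obtain ⟨e1, e2⟩ := Cmp_pair (fderiv ℂ τ p) w
  set l := (fderiv ℂ τ p (1, 0)).1
  set b := (fderiv ℂ τ p (0, 1)).1
  set c := (fderiv ℂ τ p (1, 0)).2
  set m := (fderiv ℂ τ p (0, 1)).2
  have hC0 : 0 < C := by linarith only [hC]
  have hs0 := norm_nonneg p.1
  have hw1 := norm_nonneg w.1
  have hw2 := norm_nonneg w.2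
  set S : ℝ := ‖p.1‖ ^ (1 - κ) with hS
  have hS0 : 0 ≤ S := Real.rpow_nonneg hs0 _
  have hsS : ‖p.1‖ ≤ S := Cmp_le_rpow hκ0 hκ hs0 hp
  have hS1 : S ≤ 1 := Real.rpow_le_one hs0 hp (by linarith only [hκ])
  have m1 : ‖w.1‖ ≤ sm κ p w := le_max_left _ _
  have m2 : S * ‖w.2‖ ≤ sm κ p w := le_max_right _ _
  have m0 := sm_nonneg κ p w
  have hu : ‖(τ p).1‖ ≤ 2 * C * ‖p.1‖ := by
    have h8 := (abs_le.1 h3).2
    have h9 : ‖l‖ * ‖p.1‖ ≤ C * ‖p.1‖ := mul_le_mul_of_nonneg_right h5 hs0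
    have h10 : C * ‖p.1‖ ^ 2 ≤ C * ‖p.1‖ := by
      have : ‖p.1‖ ^ 2 ≤ ‖p.1‖ := by nlinarith only [hp, hs0]
      exact mul_le_mul_of_nonneg_left this hC0.le
    linarith
  have hu2 : ‖(τ p).1‖ ^ (1 - κ) ≤ 2 * C * S := by
    refine (Real.rpow_le_rpow (norm_nonneg _) hu (by linarith only [hκ])).trans ?_
    exact Cmp_rpow hκ0 hκ hs0 (by linarith)
  refine max_le ?_ ?_
  · rw [e1]
    calc ‖w.1 * l + w.2 * b‖ ≤ ‖w.1‖ * ‖l‖ + ‖w.2‖ * ‖b‖ := by
          refine (norm_add_le _ _).trans ?_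
          rw [norm_mul, norm_mul]
      _ ≤ sm κ p w * C + C * (S * ‖w.2‖) := by
          have h8 : ‖w.2‖ * ‖b‖ ≤ ‖w.2‖ * (C * S) := by
            refine mul_le_mul_of_nonneg_left (h1.trans ?_) hw2
            exact mul_le_mul_of_nonneg_left hsS hC0.le
          have h9 : ‖w.1‖ * ‖l‖ ≤ sm κ p w * C := mul_le_mul m1 h5 (norm_nonneg _) m0
          linarith only [h8, h9]
      _ ≤ sm κ p w * C + C * sm κ p w := by gcongr
      _ ≤ 4 * C ^ 2 * sm κ p w := by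
          have h8 : C ≤ C ^ 2 := by nlinarith only [hC]
          nlinarith only [h8, m0, hC0, mul_le_mul_of_nonneg_right h8 m0, mul_nonneg hC0.le m0, mul_nonneg (sq_nonneg C) m0]
  · rw [e2]
    have h8 : ‖w.1 * c + w.2 * m‖ ≤ ‖w.1‖ * C + ‖w.2‖ * C := by
      refine (norm_add_le _ _).trans ?_
      rw [norm_mul, norm_mul]
      exact add_le_add (mul_le_mul_of_nonneg_left h2 hw1) (mul_le_mul_of_nonneg_left h7 hw2)
    calc ‖(τ p).1‖ ^ (1 - κ) * ‖w.1 * c + w.2 * m‖ ≤ (2 * C * S) * (‖w.1‖ * C + ‖w.2‖ * C) :=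
          mul_le_mul hu2 h8 (norm_nonneg _) (by positivity)
      _ = 2 * C ^ 2 * (S * ‖w.1‖) + 2 * C ^ 2 * (S * ‖w.2‖) := by ring
      _ ≤ 2 * C ^ 2 * sm κ p w + 2 * C ^ 2 * sm κ p w := by
          have h9 : S * ‖w.1‖ ≤ sm κ p w := (mul_le_of_le_one_left hw1 hS1).trans m1
          gcongr
      _ = 4 * C ^ 2 * sm κ p w := by ring

/-- at a node -/
theorem sn_change {C κ : ℝ} (hC : 1 ≤ C) (hκ0 : 0 ≤ κ) (hκ : κ ≤ 1 / 4) {τ : ℂ × ℂ → ℂ × ℂ} {p : ℂ × ℂ}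
    (hp1 : ‖p.1‖ ≤ 1) (hp2 : ‖p.2‖ ≤ 1) (hu : ‖(τ p).1‖ ≤ C * ‖p.1‖) (hv : ‖(τ p).2‖ ≤ C * ‖p.2‖)
    (hl : ‖(fderiv ℂ τ p (1, 0)).1‖ ≤ C) (hm : ‖(fderiv ℂ τ p (0, 1)).2‖ ≤ C)
    (hb : ‖(fderiv ℂ τ p (0, 1)).1‖ ≤ C * ‖p.1‖) (hc : ‖(fderiv ℂ τ p (1, 0)).2‖ ≤ C * ‖p.2‖) (w : ℂ × ℂ) :
    sn κ (τ p) (fderiv ℂ τ p w) ≤ 2 * C ^ 2 * sn κ p w := by
  obtain ⟨e1, e2⟩ := Cmp_pair (fderiv ℂ τ p) w
  set l := (fderiv ℂ τ p (1, 0)).1
  set b := (fderiv ℂ τ p (0, 1)).1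
  set c := (fderiv ℂ τ p (1, 0)).2
  set m := (fderiv ℂ τ p (0, 1)).2
  have hC0 : 0 < C := by linarith only [hC]
  have hs0 := norm_nonneg p.1
  have ht0 := norm_nonneg p.2
  have hw1 := norm_nonneg w.1
  have hw2 := norm_nonneg w.2
  set S : ℝ := ‖p.1‖ ^ (1 - κ) with hS
  set R : ℝ := ‖p.2‖ ^ (1 - κ) with hR
  have hS0 : 0 ≤ S := Real.rpow_nonneg hs0 _
  have hR0 : 0 ≤ R := Real.rpow_nonneg ht0 _
  have hsS : ‖p.1‖ ≤ S := Cmp_le_rpow hκ0 hκ hs0 hp1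
  have htR : ‖p.2‖ ≤ R := Cmp_le_rpow hκ0 hκ ht0 hp2
  have hS1 : S ≤ 1 := Real.rpow_le_one hs0 hp1 (by linarith only [hκ])
  have hR1 : R ≤ 1 := Real.rpow_le_one ht0 hp2 (by linarith only [hκ])
  have m1 : R * ‖w.1‖ ≤ sn κ p w := le_max_left _ _
  have m2 : S * ‖w.2‖ ≤ sn κ p w := le_max_right _ _
  have hu2 : ‖(τ p).1‖ ^ (1 - κ) ≤ C * S :=
    (Real.rpow_le_rpow (norm_nonneg _) hu (by linarith)).trans (Cmp_rpow hκ0 hκ hs0 hC)
  have hv2 : ‖(τ p).2‖ ^ (1 - κ) ≤ C * R :=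
    (Real.rpow_le_rpow (norm_nonneg _) hv (by linarith)).trans (Cmp_rpow hκ0 hκ ht0 hC)
  refine max_le ?_ ?_
  · rw [e1]
    have h8 : ‖w.1 * l + w.2 * b‖ ≤ ‖w.1‖ * C + ‖w.2‖ * (C * S) := by
      refine (norm_add_le _ _).trans ?_
      rw [norm_mul, norm_mul]
      exact add_le_add (mul_le_mul_of_nonneg_left hl hw1)
        (mul_le_mul_of_nonneg_left (hb.trans (mul_le_mul_of_nonneg_left hsS hC0.le)) hw2)
    calc ‖(τ p).2‖ ^ (1 - κ) * ‖w.1 * l + w.2 * b‖ ≤ (C * R) * (‖w.1‖ * C + ‖w.2‖ * (C * S)) :=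
          mul_le_mul hv2 h8 (norm_nonneg _) (by positivity)
      _ = C ^ 2 * (R * ‖w.1‖) + C ^ 2 * (R * (S * ‖w.2‖)) := by ring
      _ ≤ C ^ 2 * sn κ p w + C ^ 2 * sn κ p w := by
          have h9 : R * (S * ‖w.2‖) ≤ sn κ p w := (mul_le_of_le_one_left (by positivity) hR1).trans m2
          gcongr
      _ = 2 * C ^ 2 * sn κ p w := by ring
  · rw [e2]
    have h8 : ‖w.1 * c + w.2 * m‖ ≤ ‖w.1‖ * (C * R) + ‖w.2‖ * C := by
      refine (norm_add_le _ _).trans ?_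
      rw [norm_mul, norm_mul]
      exact add_le_add (mul_le_mul_of_nonneg_left (hc.trans (mul_le_mul_of_nonneg_left htR hC0.le)) hw1)
        (mul_le_mul_of_nonneg_left hm hw2)
    calc ‖(τ p).1‖ ^ (1 - κ) * ‖w.1 * c + w.2 * m‖ ≤ (C * S) * (‖w.1‖ * (C * R) + ‖w.2‖ * C) :=
          mul_le_mul hu2 h8 (norm_nonneg _) (by positivity)
      _ = C ^ 2 * (S * (R * ‖w.1‖)) + C ^ 2 * (S * ‖w.2‖) := by ring
      _ ≤ C ^ 2 * sn κ p w + C ^ 2 * sn κ p w := by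
          have h9 : S * (R * ‖w.1‖) ≤ sn κ p w := (mul_le_of_le_one_left (by positivity) hS1).trans m1
          gcongr
      _ = 2 * C ^ 2 * sn κ p w := by ring

end Pool.Agent.H36.TB

end
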