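import Pool.Agent.H94.G6.M21
import Pool.Agent.H94.G6.M23
import Pool.Agent.H94.G6.M72

/-! The parts of this file: H30M.Key_1, MQ.SNCalc. -/

section

/-!
# The key inequality, the charge of a level region and the passes (one variable, abstract form)

Data: `L` of class `C²` with `0 ≤ Δ L`, `g` entire, not `0`, `‖g‖ ≤ exp (d L)`, `u = log ‖g‖ - d L`.
-/

set_option autoImplicit false

open MeasureTheory Complex Set Filter Topology Laplacian InnerProductSpace Metric

namespace Pool.Agent.H30M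

/-- `I R = ∫ tau R * Δ L` -/
noncomputable def II (L : ℂ → ℝ) (R : ℝ) : ℝ := ∫ z, tau R z * Δ L z

section

variable {L : ℂ → ℝ} {g : ℂ → ℂ} {d : ℝ}

theorem integrable_tau_mul {R : ℝ} (hR : 1 ≤ R) {f : ℂ → ℝ} (hf : Continuous f) : Integrable fun z => tau R z * f z :=
  ((contDiff_tau R).continuous.mul hf).integrable_of_hasCompactSupport (hcs_tau hR).mul_right

theorem integrable_rhoR_mul {R : ℝ} (hR : 1 ≤ R) {f : ℂ → ℝ} (hf : Continuous f) : Integrable fun z => rhoR R z * f z :=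
  ((continuous_rhoR R).mul hf).integrable_of_hasCompactSupport (hcs_rhoR hR).mul_right

theorem avg_le {R : ℝ} (hR : 1 ≤ R) {f : ℂ → ℝ} (hf : Continuous f) {M : ℝ} (h : ∀ z, f z ≤ M) : avg R f ≤ 2 * Real.pi * M := by
  unfold avg
  have h1 : Integrable (rhoR R) := (continuous_rhoR R).integrable_of_hasCompactSupport (hcs_rhoR hR)
  calc ∫ z, rhoR R z * f z ≤ ∫ z, rhoR R z * M :=
        integral_mono (integrable_rhoR_mul hR hf) (h1.mul_const M) fun z => mul_le_mul_of_nonneg_left (h z) (rhoR_nonneg R z)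
    _ = 2 * Real.pi * M := by rw [integral_mul_const, int_rhoR hR]

theorem le_avg {R : ℝ} (hR : 1 ≤ R) {f : ℂ → ℝ} (hf : Continuous f) {M : ℝ} (h : ∀ z, M ≤ f z) : 2 * Real.pi * M ≤ avg R f := by
  unfold avg
  have h1 : Integrable (rhoR R) := (continuous_rhoR R).integrable_of_hasCompactSupport (hcs_rhoR hR)
  calc 2 * Real.pi * M = ∫ z, rhoR R z * M := by rw [integral_mul_const, int_rhoR hR]
    _ ≤ ∫ z, rhoR R z * f z :=
        integral_mono (h1.mul_const M) (integrable_rhoR_mul hR hf) fun z => mul_le_mul_of_nonneg_left (h z) (rhoR_nonneg R z)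

/-- **The key inequality** -/
theorem key (hL : ContDiff ℝ 2 L) (hL0 : ∀ z, 0 ≤ Δ L z) (hg : Differentiable ℂ g) (h0 : ∃ z, g z ≠ 0) (hd : 0 ≤ d)
    (hle : ∀ z, ‖g z‖ ≤ Real.exp (d * L z)) (b : ℝ) {R : ℝ} (hR : 1 ≤ R) :
    ∫ z, tau R z * HH L g d b z ≤ d * II L R + 2 * Real.pi * (Real.log (1 + Real.exp (2 * b)) / 2 - b) := by
  have hK := contDiff_KK (d := d) hL hg b
  have hcL := continuous_lap hL
  have hcK := continuous_lap hK
  have i1 := integrable_tau_mul hR (continuous_HH (d := d) hL hg b)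
  have i2 := integrable_tau_mul hR hcK
  have i3 := integrable_tau_mul hR hcL
  have h1 : ∫ z, tau R z * HH L g d b z ≤ ∫ z, (tau R z * Δ (KK L g d b) z + d * (tau R z * Δ L z)) := by
    refine integral_mono_ae i1 (i2.add (i3.const_mul d)) ?_
    filter_upwards [ae_ne_zero hg h0] with z hz
    rw [lap_KK hL hg b hz]
    have hq : e2u L g d z / (e2u L g d z + Real.exp (2 * b)) ≤ 1 := by
      rw [div_le_one (by have := e2u_nonneg L g d z; positivity)]
      have := Real.exp_pos (2 * b)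
      linarith
    have ht := tau_nonneg hR z
    have hdL : 0 ≤ d * Δ L z := mul_nonneg hd (hL0 z)
    have h2 : e2u L g d z / (e2u L g d z + Real.exp (2 * b)) * (d * Δ L z) ≤ d * Δ L z := by nlinarith
    nlinarith [mul_nonneg ht (sub_nonneg.2 h2)]
  rw [integral_add i2 (i3.const_mul d), integral_const_mul, green_tau hR hK] at h1
  have h3 : avg R (KK L g d b) ≤ 2 * Real.pi * (Real.log (1 + Real.exp (2 * b)) / 2) := by
    refine avg_le hR hK.continuous fun z => ?_
    unfold KK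
    have := Real.log_le_log (by have := e2u_nonneg L g d z; positivity) (add_le_add_left (e2u_le_one hle z) (Real.exp (2 * b)))
    linarith
  have h4 : 2 * Real.pi * b ≤ avg 1 (KK L g d b) := by
    refine le_avg le_rfl hK.continuous fun z => ?_
    unfold KK
    have h5 : Real.log (Real.exp (2 * b)) ≤ Real.log (e2u L g d z + Real.exp (2 * b)) :=
      Real.log_le_log (Real.exp_pos _) (by have := e2u_nonneg L g d z; linarith)
    rw [Real.log_exp] at h5
    linarith
  unfold II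
  linarith

/-- **The charge of a level region** -/
theorem charge (hL : ContDiff ℝ 2 L) (hL0 : ∀ z, 0 ≤ Δ L z) (hg : Differentiable ℂ g) (h0 : ∃ z, g z ≠ 0) (hd : 0 ≤ d)
    (hle : ∀ z, ‖g z‖ ≤ Real.exp (d * L z)) {a n : ℝ} {m : ℕ} (hn : 0 < n) {E : Set ℂ} {q : ℂ → ℝ}
    (hE : MeasurableSet E)
    (hq : ∀ z ∈ E, g z ≠ 0 ∧ a ≤ uu L g d z ∧ uu L g d z < a + 2 * m ∧ n ^ 2 * q z ^ 2 ≤ gg (uu L g d) (uu L g d) z)
    {R : ℝ} (hR : 1 ≤ R) :
    ∫ z in E, tau R z * q z ^ 2 ≤ 5 * m / n ^ 2 * (d * II L R + 2 * Real.pi * (|a| + 2 * m)) := by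
  have hH : ∀ k : ℕ, Integrable fun z => tau R z * HH L g d (a + 2 * k + 1) z := fun k =>
    integrable_tau_mul hR (continuous_HH hL hg _)
  have h1 : ∫ z in E, tau R z * q z ^ 2 ≤ ∫ z, ∑ k ∈ Finset.range m, 5 / n ^ 2 * (tau R z * HH L g d (a + 2 * k + 1) z) := by
    have hi : Integrable fun z => ∑ k ∈ Finset.range m, 5 / n ^ 2 * (tau R z * HH L g d (a + 2 * k + 1) z) :=
      integrable_finsetSum _ fun k _ => (hH k).const_mul _
    refine (integral_mono_of_nonneg ?_ hi.integrableOn ?_).trans (setIntegral_le_integral hi ?_)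
    · exact Eventually.of_forall fun z => mul_nonneg (tau_nonneg hR z) (sq_nonneg _)
    · rw [EventuallyLE, ae_restrict_iff' hE]
      refine Eventually.of_forall fun z hz => ?_
      obtain ⟨hz0, hz1, hz2, hz3⟩ := hq z hz
      have ht := tau_nonneg hR z
      set k := ⌊(uu L g d z - a) / 2⌋₊ with hk
      have hk1 : (k : ℝ) ≤ (uu L g d z - a) / 2 := Nat.floor_le (by linarith)
      have hk2 : (uu L g d z - a) / 2 < k + 1 := Nat.lt_floor_add_one _
      have hkm : k < m := by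
        have : (k : ℝ) < m := by linarith
        exact_mod_cast this
      have h2 := le_HH (b := a + 2 * k + 1) hL hg hz0 (by linarith) (by linarith)
      refine le_trans ?_ (Finset.single_le_sum (f := fun k : ℕ => 5 / n ^ 2 * (tau R z * HH L g d (a + 2 * k + 1) z))
        (fun j _ => mul_nonneg (by positivity) (mul_nonneg ht (HH_nonneg _ _ _ _ _))) (Finset.mem_range.2 hkm))
      have h3 : q z ^ 2 ≤ 5 / n ^ 2 * HH L g d (a + 2 * k + 1) z := by
        rw [div_mul_eq_mul_div, le_div_iff₀ (by positivity)]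
        linarith
      calc tau R z * q z ^ 2 ≤ tau R z * (5 / n ^ 2 * HH L g d (a + 2 * k + 1) z) := mul_le_mul_of_nonneg_left h3 ht
        _ = _ := by ring
    · exact Eventually.of_forall fun z => Finset.sum_nonneg fun k _ =>
        mul_nonneg (by positivity) (mul_nonneg (tau_nonneg hR z) (HH_nonneg _ _ _ _ _))
  refine h1.trans ?_
  rw [integral_finsetSum _ fun k _ => (hH k).const_mul _]
  have h2 : ∀ k ∈ Finset.range m, ∫ z, 5 / n ^ 2 * (tau R z * HH L g d (a + 2 * k + 1) z)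
      ≤ 5 / n ^ 2 * (d * II L R + 2 * Real.pi * (|a| + 2 * m)) := by
    intro k hk
    have hkm : (k : ℝ) + 1 ≤ m := by exact_mod_cast Finset.mem_range.1 hk
    have hk0 : (0 : ℝ) ≤ k := k.cast_nonneg
    rw [integral_const_mul]
    refine mul_le_mul_of_nonneg_left ((key hL hL0 hg h0 hd hle (a + 2 * k + 1) hR).trans ?_) (by positivity)
    have h3 := ky_const (a + 2 * k + 1)
    have h4 : |a + 2 * k + 1| ≤ |a| + (2 * k + 1) := by
      rw [add_assoc]
      refine (abs_add_le _ _).trans ?_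
      rw [abs_of_nonneg (by positivity : (0 : ℝ) ≤ 2 * k + 1)]
    have h5 : Real.log (1 + Real.exp (2 * (a + 2 * k + 1))) / 2 - (a + 2 * k + 1) ≤ |a| + 2 * m := by linarith
    have := Real.pi_pos
    nlinarith
  refine (Finset.sum_le_sum h2).trans (le_of_eq ?_)
  rw [Finset.sum_const, Finset.card_range, nsmul_eq_mul]
  ring

end

end Pool.Agent.H30M

end

section

/-!
# MQ/SNCalc: calculus for the exit of a saddle-node
-/

set_option autoImplicit false

open Topology Filter Complex ComplexConjugate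

noncomputable section

namespace Pool.Agent.MQ

open Pool.Agent.H30M (deriv_st_eq_zero deriv_st_nonneg)

/-- `(1 - χ) conj D` rotated gradient term -/
theorem dv_rot_gr {a b : ℂ → ℝ} {z : ℂ} (ha : DifferentiableAt ℝ a z) (hb : ContDiffAt ℝ 2 b z) :
    dv (fun w => (a w : ℂ) * (-I * gr b w)) z = ip (gr a z) (-I * gr b z) := by
  have hd : DifferentiableAt ℝ (gr b) z := differentiableAt_gr hb
  have hd2 : DifferentiableAt ℝ (fun w => -I * gr b w) z := hd.const_mul _
  rw [dv_mul ha hd2]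
  have h0 : dv (fun w => -I * gr b w) z = 0 := by
    have h1 : HasFDerivAt (fun w => -I * gr b w) ((-I) • fderiv ℝ (gr b) z) z := hd.hasFDerivAt.const_mul (-I)
    have hre : fderiv ℝ (fun w => fderiv ℝ b w 1) z = Complex.reCLM.comp (fderiv ℝ (gr b) z) :=
      (Complex.reCLM.hasFDerivAt.comp z hd.hasFDerivAt).fderiv
    have him : fderiv ℝ (fun w => fderiv ℝ b w I) z = Complex.imCLM.comp (fderiv ℝ (gr b) z) :=
      (Complex.imCLM.hasFDerivAt.comp z hd.hasFDerivAt).fderiv
    have hc := dx_dy_comm hb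
    have hc' : fderiv ℝ (fun w => fderiv ℝ b w I) z 1 = fderiv ℝ (fun w => fderiv ℝ b w 1) z I := hc
    rw [hre, him] at hc'
    unfold dv
    rw [h1.fderiv]
    simp at hc' ⊢
    linarith
  rw [h0, mul_zero, zero_add]

theorem ip_rot (a b : ℂ) : ip a (-I * b) = (conj a * b).im := by
  simp [ip, mul_re, mul_im]

theorem gr_normSq {f : ℂ → ℂ} {z : ℂ} (hf : DifferentiableAt ℂ f z) :
    DifferentiableAt ℝ (fun w => ‖f w‖ ^ 2) z ∧ gr (fun w => ‖f w‖ ^ 2) z = 2 * (f z * conj (deriv f z)) := by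
  have hfr : DifferentiableAt ℝ f z := hf.restrictScalars ℝ
  have hre : DifferentiableAt ℝ (fun w => (f w).re) z := Complex.reCLM.differentiableAt.comp z hfr
  have him : DifferentiableAt ℝ (fun w => (f w).im) z := Complex.imCLM.differentiableAt.comp z hfr
  have e : (fun w => ‖f w‖ ^ 2) = fun w => (f w).re * (f w).re + (f w).im * (f w).im := by
    funext w
    rw [Complex.sq_norm, Complex.normSq_apply]
  rw [e]
  refine ⟨(hre.mul hre).add (him.mul him), ?_⟩
  have h1 : gr (fun w => (f w).re * (f w).re + (f w).im * (f w).im) z =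
      gr (fun w => (f w).re * (f w).re) z + gr (fun w => (f w).im * (f w).im) z :=
    gr_add (u := fun w => (f w).re * (f w).re) (v := fun w => (f w).im * (f w).im) (hre.mul hre) (him.mul him)
  rw [h1, gr_mul hre hre, gr_mul him him, gr_re_holo hf, gr_im_holo hf]
  apply Complex.ext
  · simp [mul_re, mul_im]; ring
  · simp [mul_re, mul_im]; ring

theorem contDiffAt_normSq {f : ℂ → ℂ} {z : ℂ} {n : WithTop ℕ∞} (hf : AnalyticAt ℂ f z) : ContDiffAt ℝ n (fun w => ‖f w‖ ^ 2) z :=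
  ((hf.contDiffAt (n := n)).restrict_scalars ℝ).norm_sq ℂ

theorem gr_comp_normSq {f : ℂ → ℂ} {z : ℂ} (hf : DifferentiableAt ℂ f z) {h : ℝ → ℝ} {A : ℝ} (hh : DifferentiableAt ℝ h (A * ‖f z‖ ^ 2)) :
    gr (fun w => h (A * ‖f w‖ ^ 2)) z = ((deriv h (A * ‖f z‖ ^ 2) * A : ℝ) : ℂ) * (2 * (f z * conj (deriv f z))) := by
  obtain ⟨h1, h2⟩ := gr_normSq hf
  have h3 : gr (fun w => A * ‖f w‖ ^ 2) z = (A : ℂ) * gr (fun w => ‖f w‖ ^ 2) z := gr_const_mul A h1
  have h4 : gr (fun w => h (A * ‖f w‖ ^ 2)) z = ((deriv h (A * ‖f z‖ ^ 2) : ℝ) : ℂ) * gr (fun w => A * ‖f w‖ ^ 2) z :=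
    gr_comp (u := fun w => A * ‖f w‖ ^ 2) hh.hasDerivAt (h1.const_mul A)
  rw [h4, h3, h2]
  push_cast
  ring

theorem contDiffAt_comp_normSq {f : ℂ → ℂ} {z : ℂ} (hf : AnalyticAt ℂ f z) {h : ℝ → ℝ} {A : ℝ} {n : ℕ∞} (hh : ContDiff ℝ n h) :
    ContDiffAt ℝ n (fun w => h (A * ‖f w‖ ^ 2)) z :=
  hh.contDiffAt.comp z (contDiffAt_const.mul (contDiffAt_normSq hf))

/-- `1` for `s ≥ 2`, `0` for `s ≤ 1` -/
def hp (s : ℝ) : ℝ := Real.smoothTransition (s - 1)

/-- `1` for `t ≤ 1 / 2`, `0` for `t ≥ 1` -/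
def hm (t : ℝ) : ℝ := Real.smoothTransition (2 - 2 * t)

theorem hp_contDiff {n : ℕ∞} : ContDiff ℝ n hp := Real.smoothTransition.contDiff.comp (contDiff_id.sub contDiff_const)

theorem hm_contDiff {n : ℕ∞} : ContDiff ℝ n hm :=
  Real.smoothTransition.contDiff.comp (contDiff_const.sub (contDiff_const.mul contDiff_id))

theorem hp_zero {s : ℝ} (h : s ≤ 1) : hp s = 0 := Real.smoothTransition.zero_of_nonpos (by linarith)

theorem hp_one {s : ℝ} (h : 2 ≤ s) : hp s = 1 := Real.smoothTransition.one_of_one_le (by linarith)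

theorem hm_zero {t : ℝ} (h : 1 ≤ t) : hm t = 0 := Real.smoothTransition.zero_of_nonpos (by linarith)

theorem hm_one {t : ℝ} (h : t ≤ 1 / 2) : hm t = 1 := Real.smoothTransition.one_of_one_le (by linarith)

theorem hp_nonneg (s : ℝ) : 0 ≤ hp s := Real.smoothTransition.nonneg _

theorem hp_le (s : ℝ) : hp s ≤ 1 := Real.smoothTransition.le_one _

theorem hm_nonneg (s : ℝ) : 0 ≤ hm s := Real.smoothTransition.nonneg _

theorem hm_le (s : ℝ) : hm s ≤ 1 := Real.smoothTransition.le_one _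

theorem deriv_hp (s : ℝ) : deriv hp s = deriv Real.smoothTransition (s - 1) := by
  have h : HasDerivAt Real.smoothTransition (deriv Real.smoothTransition (s - 1)) (s - 1) :=
    ((Real.smoothTransition.contDiff (n := 1)).differentiable one_ne_zero _).hasDerivAt
  have h2 : HasDerivAt hp (deriv Real.smoothTransition (s - 1) * 1) s := h.comp s ((hasDerivAt_id s).sub_const 1)
  rw [h2.deriv, mul_one]

theorem deriv_hm (t : ℝ) : deriv hm t = -2 * deriv Real.smoothTransition (2 - 2 * t) := by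
  have h : HasDerivAt Real.smoothTransition (deriv Real.smoothTransition (2 - 2 * t)) (2 - 2 * t) :=
    ((Real.smoothTransition.contDiff (n := 1)).differentiable one_ne_zero _).hasDerivAt
  have h2 : HasDerivAt hm (deriv Real.smoothTransition (2 - 2 * t) * (-(2 * 1))) t :=
    h.comp t (((hasDerivAt_id t).const_mul 2).const_sub 2)
  rw [h2.deriv]
  ring

/-- the factor of the gradient of the first cut-off -/
def HH₁ (s : ℝ) : ℝ := 2 * s * deriv hp s

/-- the factor of the gradient of the second cut-off -/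
def HH₂ (t : ℝ) : ℝ := -(2 * t * deriv hm t)

theorem HH₁_zero {s : ℝ} (h : s ≤ 1 ∨ 2 ≤ s) : HH₁ s = 0 := by
  rw [HH₁, deriv_hp, deriv_st_eq_zero, mul_zero]
  rcases h with h | h
  · exact Or.inl (by linarith)
  · exact Or.inr (by linarith)

theorem HH₂_zero {t : ℝ} (h : t ≤ 1 / 2 ∨ 1 ≤ t) : HH₂ t = 0 := by
  rw [HH₂, deriv_hm, deriv_st_eq_zero, mul_zero, mul_zero, neg_zero]
  rcases h with h | h
  · exact Or.inr (by linarith)
  · exact Or.inl (by linarith)

theorem HH₁_nonneg (s : ℝ) : 0 ≤ HH₁ s := by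
  by_cases h : s ≤ 1
  · rw [HH₁_zero (Or.inl h)]
  · rw [HH₁, deriv_hp]
    have := deriv_st_nonneg (s - 1)
    have h1 : 0 ≤ s := by linarith
    positivity

theorem HH₂_nonneg (t : ℝ) : 0 ≤ HH₂ t := by
  by_cases h : t ≤ 1 / 2
  · rw [HH₂_zero (Or.inl h)]
  · rw [HH₂, deriv_hm]
    have := deriv_st_nonneg (2 - 2 * t)
    have h1 : 0 ≤ t := by linarith
    have h2 : -(2 * t * (-2 * deriv Real.smoothTransition (2 - 2 * t))) = 4 * (t * deriv Real.smoothTransition (2 - 2 * t)) := by ring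
    rw [h2]
    positivity

/-- the gradient of the first cut-off: `f` is the potential, `f' = Z` -/
theorem gr_hp {f : ℂ → ℂ} {z : ℂ} (hf : DifferentiableAt ℂ f z) (h0 : f z ≠ 0) (A : ℝ) :
    gr (fun w => hp (A * ‖f w‖ ^ 2)) z = (HH₁ (A * ‖f z‖ ^ 2) : ℂ) * conj (deriv f z * (f z)⁻¹) := by
  rw [gr_comp_normSq hf ((hp_contDiff (n := 1)).differentiable one_ne_zero _), HH₁]
  have h1 : (f z * conj (deriv f z)) = ((‖f z‖ ^ 2 : ℝ) : ℂ) * conj (deriv f z * (f z)⁻¹) := by
    have h2 : ((‖f z‖ ^ 2 : ℝ) : ℂ) = f z * conj (f z) := by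
      rw [mul_conj, Complex.normSq_eq_norm_sq]
    rw [h2, map_mul, map_inv₀]
    have h3 : conj (f z) ≠ 0 := (map_ne_zero _).2 h0
    field_simp
  rw [h1]
  push_cast
  ring

/-- the gradient of the second cut-off -/
theorem gr_hm {f : ℂ → ℂ} {z : ℂ} (hf : DifferentiableAt ℂ f z) (A : ℝ) :
    gr (fun w => hm (A * ‖f w‖ ^ 2)) z = -(HH₂ (A * ‖f z‖ ^ 2) : ℂ) * conj (deriv f z / f z) := by
  rw [gr_comp_normSq hf ((hm_contDiff (n := 1)).differentiable one_ne_zero _), HH₂]
  by_cases h0 : f z = 0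
  · rw [h0]
    simp
  have h1 : (f z * conj (deriv f z)) = ((‖f z‖ ^ 2 : ℝ) : ℂ) * conj (deriv f z / f z) := by
    have h2 : ((‖f z‖ ^ 2 : ℝ) : ℂ) = f z * conj (f z) := by
      rw [mul_conj, Complex.normSq_eq_norm_sq]
    rw [h2, map_div₀]
    have h3 : conj (f z) ≠ 0 := (map_ne_zero _).2 h0
    field_simp
  rw [h1]
  push_cast
  ring

end Pool.Agent.MQ

end
end
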