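import Pool.Agent.H94.G6.M08
import Pool.Agent.H94.G6.M21
import Pool.Agent.H94.G6.M23
import Pool.Agent.H94.G6.M39

/-! The parts of this file: H30M.Mean2, MQ.Ax0. -/

section

/-!
# Integration by parts for functions with logarithmic singularities
-/

set_option autoImplicit false

open MeasureTheory Complex Set Filter Topology Laplacian InnerProductSpace Metric

namespace Pool.Agent.H30M

theorem LogSing.eq_zero {w : ℂ → ℝ} {c : ℝ} {z : ℂ} (h : LogSing w c z) (hw : ContinuousAt w z) : c = 0 := by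
  obtain ⟨s, hs, h1⟩ := h
  by_contra hc
  have hl : Tendsto (fun ζ : ℂ => ‖ζ - z‖) (𝓝[≠] z) (𝓝[>] 0) := by
    refine tendsto_nhdsWithin_iff.2 ⟨?_, ?_⟩
    · have : Continuous fun ζ : ℂ => ‖ζ - z‖ := by fun_prop
      have h2 := this.tendsto z
      simp only [sub_self, norm_zero] at h2
      exact h2.mono_left nhdsWithin_le_nhds
    · filter_upwards [self_mem_nhdsWithin] with ζ hζ
      exact norm_pos_iff.2 (sub_ne_zero.2 hζ)
  have h2 : Tendsto (fun ζ : ℂ => Real.log ‖ζ - z‖) (𝓝[≠] z) atBot := Real.tendsto_log_nhdsGT_zero.comp hl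
  have h3 : Tendsto (fun ζ => (w ζ - s ζ) / c) (𝓝[≠] z) (𝓝 ((w z - s z) / c)) :=
    ((hw.tendsto.sub hs.continuousAt.tendsto).div_const c).mono_left nhdsWithin_le_nhds
  have h4 : (fun ζ : ℂ => Real.log ‖ζ - z‖) =ᶠ[𝓝[≠] z] fun ζ => (w ζ - s ζ) / c := by
    filter_upwards [h1] with ζ e
    rw [e]
    field_simp
    ring
  exact not_tendsto_nhds_of_tendsto_atBot h2 _ (h3.congr' h4.symm)

theorem locInt_inv (a : ℂ) : LocallyIntegrable (fun z : ℂ => ‖z - a‖⁻¹) := by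
  have hb : ∀ r : ℝ, IntegrableOn (fun z : ℂ => ‖z‖⁻¹) (ball 0 r) := by
    intro r
    apply (integrableOn_fun_norm_addHaar (E := ℂ) (μ := volume) (f := fun y => y⁻¹) (r := r)).2
    have h2 : IntegrableOn (fun _ : ℝ => (1 : ℝ)) (Ioo 0 r) := by
      rw [integrableOn_const_iff]
      right
      simp
    refine h2.congr_fun (fun y hy => ?_) measurableSet_Ioo
    have : y ≠ 0 := hy.1.ne'
    simp [Complex.finrank_real_complex, this]
  have h0 : LocallyIntegrable (fun z : ℂ => ‖z‖⁻¹) := by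
    intro z
    refine ⟨ball 0 (‖z‖ + 1), isOpen_ball.mem_nhds (by simp), hb _⟩
  intro z
  obtain ⟨s, hs, hi⟩ := h0 (z - a)
  refine ⟨(fun w => w - a) ⁻¹' s, ?_, ?_⟩
  · exact (continuous_sub_right a).continuousAt.preimage_mem_nhds hs
  · have hmp : MeasurePreserving (fun w : ℂ => w - a) volume volume := measurePreserving_sub_right volume a
    exact (hmp.integrableOn_comp_preimage (MeasurableEquiv.subRight a).measurableEmbedding).2 hi

private theorem m2_ne (a : ℂ) : ∀ᵐ z : ℂ, z ≠ a := by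
  rw [ae_iff]
  simp

/-- the gradient of `log |z - a|` -/
theorem fderiv_log_sub {a z : ℂ} (hz : z ≠ a) (v : ℂ) :
    fderiv ℝ (fun ζ : ℂ => Real.log ‖ζ - a‖) z v = (1 / (z - a) * v).re := by
  have := fderiv_log_norm (g := fun ζ : ℂ => ζ - a) (w := z) (by fun_prop) (sub_ne_zero.2 hz) v
  rw [this]
  have e : deriv (fun ζ : ℂ => ζ - a) z = 1 := by simp
  rw [e]

private theorem m2_cont {τ : ℂ → ℝ} (hτ : ContDiff ℝ 1 τ) (v : ℂ) : Continuous fun z => fderiv ℝ τ z v :=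
  (hτ.continuous_fderiv (by norm_num)).clm_apply continuous_const

/-- the dominating function -/
private theorem m2_dom {τ : ℂ → ℝ} (hτ : ContDiff ℝ 1 τ) (hc : HasCompactSupport τ) (a v : ℂ) :
    Integrable fun z : ℂ => |fderiv ℝ τ z v| * ‖z - a‖⁻¹ := by
  have := (locInt_inv a).integrable_smul_left_of_hasCompactSupport (continuous_abs.comp (m2_cont hτ v))
    ((hcs_of_sub hc (ts_fderiv τ v)).comp_left (g := fun x : ℝ => |x|) abs_zero)
  exact this

private theorem m2_meas (a v : ℂ) : AEStronglyMeasurable (fun z : ℂ => (1 / (z - a) * v).re) volume := by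
  have h : Measurable fun z : ℂ => (1 / (z - a) * v).re := by
    have h1 : Measurable fun z : ℂ => 1 / (z - a) * v := ((measurable_id.sub_const a).const_div 1).mul_const v
    exact Complex.measurable_re.comp h1
  exact h.aestronglyMeasurable

private theorem m2_int1 {τ : ℂ → ℝ} (hτ : ContDiff ℝ 1 τ) (hc : HasCompactSupport τ) (a v : ℂ) (hv : ‖v‖ = 1) :
    Integrable fun z : ℂ => fderiv ℝ τ z v * fderiv ℝ (fun ζ : ℂ => Real.log ‖ζ - a‖) z v := by
  have h1 : Integrable fun z : ℂ => fderiv ℝ τ z v * (1 / (z - a) * v).re := by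
    refine (m2_dom hτ hc a v).mono' ((m2_cont hτ v).aestronglyMeasurable.mul (m2_meas a v)) ?_
    filter_upwards [m2_ne a] with z hz
    rw [norm_mul, Real.norm_eq_abs]
    refine mul_le_mul_of_nonneg_left ?_ (abs_nonneg _)
    rw [Real.norm_eq_abs]
    refine (Complex.abs_re_le_norm _).trans ?_
    rw [norm_mul, norm_div, norm_one, hv, mul_one, one_div]
  refine h1.congr ?_
  filter_upwards [m2_ne a] with z hz
  rw [fderiv_log_sub hz]

theorem integrable_gg_log {τ : ℂ → ℝ} (hτ : ContDiff ℝ 1 τ) (hc : HasCompactSupport τ) (a : ℂ) :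
    Integrable fun z : ℂ => gg τ (fun ζ : ℂ => Real.log ‖ζ - a‖) z :=
  (m2_int1 hτ hc a 1 (by simp)).add (m2_int1 hτ hc a I (by simp))

private theorem m2_rl {ε : ℝ} (hε : 0 < ε) {a z : ℂ} (hz : z ≠ a) (v : ℂ) (hv : ‖v‖ = 1) :
    |fderiv ℝ (rl ε fun ζ => ζ - a) z v| ≤ ‖z - a‖⁻¹ := by
  have hp : 0 < ‖z - a‖ := norm_pos_iff.2 (sub_ne_zero.2 hz)
  rw [fderiv_rl hε (by fun_prop)]
  have e : deriv (fun ζ : ℂ => ζ - a) z = 1 := by simp
  rw [e, one_mul]
  have h1 : |(z - a).re * v.re + (z - a).im * v.im| ≤ ‖z - a‖ := by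
    have h2 : (z - a).re * v.re + (z - a).im * v.im = ((z - a) * (starRingEnd ℂ) v).re := by
      simp [Complex.mul_re]
    rw [h2]
    refine (Complex.abs_re_le_norm _).trans ?_
    rw [norm_mul, RCLike.norm_conj, hv, mul_one]
  have h3 : (z - a).re ^ 2 + (z - a).im ^ 2 = ‖z - a‖ ^ 2 := by
    rw [← Complex.normSq_eq_norm_sq, Complex.normSq_apply]; ring
  rw [abs_div, h3, abs_of_pos (by positivity : 0 < ‖z - a‖ ^ 2 + ε ^ 2), div_le_iff₀ (by positivity)]
  refine h1.trans ?_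
  have : ‖z - a‖⁻¹ * (‖z - a‖ ^ 2 + ε ^ 2) = ‖z - a‖ + ‖z - a‖⁻¹ * ε ^ 2 := by
    field_simp
  rw [this]
  have : 0 ≤ ‖z - a‖⁻¹ * ε ^ 2 := by positivity
  linarith

private theorem m2_lim {a z : ℂ} (hz : z ≠ a) (v : ℂ) :
    Tendsto (fun n : ℕ => fderiv ℝ (rl (1 / ((n : ℝ) + 1)) fun ζ => ζ - a) z v) atTop (𝓝 ((1 / (z - a) * v).re)) := by
  have e0 : ∀ n : ℕ, fderiv ℝ (rl (1 / ((n : ℝ) + 1)) fun ζ => ζ - a) z v =
      ((z - a).re * v.re + (z - a).im * v.im) / ((z - a).re ^ 2 + (z - a).im ^ 2 + (1 / ((n : ℝ) + 1)) ^ 2) := by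
    intro n
    rw [fderiv_rl (by positivity) (by fun_prop)]
    have e : deriv (fun ζ : ℂ => ζ - a) z = 1 := by simp
    rw [e, one_mul]
  simp_rw [e0]
  have hne : (z - a).re ^ 2 + (z - a).im ^ 2 ≠ 0 := by
    have := Complex.normSq_pos.2 (sub_ne_zero.2 hz)
    rw [Complex.normSq_apply] at this
    nlinarith
  have h1 : Tendsto (fun n : ℕ => (z - a).re ^ 2 + (z - a).im ^ 2 + (1 / ((n : ℝ) + 1)) ^ 2) atTop
      (𝓝 ((z - a).re ^ 2 + (z - a).im ^ 2 + 0 ^ 2)) := (tendsto_one_div_add_atTop_nhds_zero_nat.pow 2).const_add _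
  have h2 := (tendsto_const_nhds (x := (z - a).re * v.re + (z - a).im * v.im)).div h1 (by simpa using hne)
  have e2 : (1 / (z - a) * v).re = ((z - a).re * v.re + (z - a).im * v.im) / ((z - a).re ^ 2 + (z - a).im ^ 2 + 0 ^ 2) := by
    have hN : Complex.normSq (z - a) = (z - a).re ^ 2 + (z - a).im ^ 2 := by
      rw [Complex.normSq_apply]; ring
    rw [mul_re, one_div, Complex.inv_re, Complex.inv_im, hN]
    ring
  rw [e2]
  exact h2

/-- **`- ∫ ∇τ ∇log |z - a| = 2 π τ(a)`** for `τ` of class `C¹` -/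
theorem gg_log {τ : ℂ → ℝ} (hτ : ContDiff ℝ 1 τ) (hc : HasCompactSupport τ) (a : ℂ) :
    - ∫ z, gg τ (fun ζ : ℂ => Real.log ‖ζ - a‖) z = 2 * Real.pi * τ a := by
  have h1 := fund_lhs hτ.continuous hc a
  have h2 : ∀ n : ℕ, ∫ z, τ z * Δ (rl (1 / ((n : ℝ) + 1)) fun w => w - a) z
      = - ∫ z, gg τ (rl (1 / ((n : ℝ) + 1)) fun w => w - a) z := fun n =>
    green1 hτ hc fun z _ => contDiffAt_rl (by positivity) (by fun_prop)
  have h3 : Tendsto (fun n : ℕ => ∫ z, gg τ (rl (1 / ((n : ℝ) + 1)) fun w => w - a) z) atTop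
      (𝓝 (∫ z, gg τ (fun ζ : ℂ => Real.log ‖ζ - a‖) z)) := by
    refine tendsto_integral_of_dominated_convergence
      (fun z => |fderiv ℝ τ z 1| * ‖z - a‖⁻¹ + |fderiv ℝ τ z I| * ‖z - a‖⁻¹) ?_
      ((m2_dom hτ hc a 1).add (m2_dom hτ hc a I)) ?_ ?_
    · intro n
      have hr : ContDiff ℝ 2 (rl (1 / ((n : ℝ) + 1)) fun w => w - a) := by
        rw [contDiff_iff_contDiffAt]
        exact fun z => contDiffAt_rl (by positivity) (by fun_prop)
      have hr1 : ContDiff ℝ 1 (rl (1 / ((n : ℝ) + 1)) fun w => w - a) := hr.of_le (by norm_num)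
      exact (((m2_cont hτ 1).mul (m2_cont hr1 1)).add ((m2_cont hτ I).mul (m2_cont hr1 I))).aestronglyMeasurable
    · intro n
      filter_upwards [m2_ne a] with z hz
      unfold gg
      rw [Real.norm_eq_abs]
      refine (abs_add_le _ _).trans (add_le_add ?_ ?_)
      · rw [abs_mul]
        exact mul_le_mul_of_nonneg_left (m2_rl (by positivity) hz 1 (by simp)) (abs_nonneg _)
      · rw [abs_mul]
        exact mul_le_mul_of_nonneg_left (m2_rl (by positivity) hz I (by simp)) (abs_nonneg _)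
    · filter_upwards [m2_ne a] with z hz
      unfold gg
      rw [fderiv_log_sub hz, fderiv_log_sub hz]
      exact ((m2_lim hz 1).const_mul _).add ((m2_lim hz I).const_mul _)
  have h4 := h3.neg
  exact tendsto_nhds_unique h4 (h1.congr h2)

theorem gg_add_right {τ u v : ℂ → ℝ} {z : ℂ} (hu : DifferentiableAt ℝ u z) (hv : DifferentiableAt ℝ v z) :
    gg τ (fun ζ => u ζ + v ζ) z = gg τ u z + gg τ v z := by
  unfold gg
  rw [fderiv_fun_add hu hv]
  simp only [add_apply]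
  ring

theorem gg_of_not_ts {τ w : ℂ → ℝ} {z : ℂ} (hz : z ∉ tsupport τ) : gg τ w z = 0 := by
  have h0 : τ =ᶠ[𝓝 z] fun _ => 0 := by
    filter_upwards [(isClosed_tsupport τ).isOpen_compl.mem_nhds hz] with w hw
    exact image_eq_zero_of_notMem_tsupport hw
  rw [gg_congr h0]
  simp [gg]

private theorem m2_sum_diff (S : Finset ℂ) (c : ℂ → ℝ) {z : ℂ} (hz : z ∉ S) :
    ContDiffAt ℝ 2 (fun ζ : ℂ => ∑ a ∈ S, c a * Real.log ‖ζ - a‖) z := by
  refine ContDiffAt.sum fun a ha => ?_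
  have hne : z ≠ a := by
    rintro rfl
    exact hz ha
  exact contDiffAt_const.mul (contDiffAt_log_norm (h := fun ζ => ζ - a) (by fun_prop) (sub_ne_zero.2 hne))

private theorem m2_gg_sum (τ : ℂ → ℝ) (S : Finset ℂ) (c : ℂ → ℝ) {z : ℂ} (hz : z ∉ S) :
    gg τ (fun ζ : ℂ => ∑ a ∈ S, c a * Real.log ‖ζ - a‖) z = ∑ a ∈ S, c a * gg τ (fun ζ : ℂ => Real.log ‖ζ - a‖) z := by
  have key : ∀ v : ℂ, fderiv ℝ (fun ζ : ℂ => ∑ a ∈ S, c a * Real.log ‖ζ - a‖) z v
      = ∑ a ∈ S, c a * fderiv ℝ (fun ζ : ℂ => Real.log ‖ζ - a‖) z v := by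
    intro v
    have hd : ∀ a ∈ S, HasFDerivAt (fun ζ : ℂ => c a * Real.log ‖ζ - a‖)
        (c a • fderiv ℝ (fun ζ : ℂ => Real.log ‖ζ - a‖) z) z := by
      intro a ha
      have hne : z ≠ a := by
        rintro rfl
        exact hz ha
      have h1 : DifferentiableAt ℝ (fun ζ : ℂ => Real.log ‖ζ - a‖) z :=
        (contDiffAt_log_norm (h := fun ζ => ζ - a) (by fun_prop) (sub_ne_zero.2 hne)).differentiableAt (by norm_num)
      exact h1.hasFDerivAt.const_mul _
    rw [(HasFDerivAt.fun_sum hd).fderiv]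
    simp
  unfold gg
  rw [key, key, Finset.mul_sum, Finset.mul_sum, ← Finset.sum_add_distrib]
  refine Finset.sum_congr rfl fun a _ => ?_
  ring

private theorem m2_finsum {K : Set ℂ} {τ : ℂ → ℝ} (hK : tsupport τ ⊆ K) {w : ℂ → ℝ} {c : ℂ → ℝ} (hw : ∀ z ∈ K, LogSing w (c z) z)
    {S : Finset ℂ} (hS : ∀ z ∈ K, z ∉ S → ContDiffAt ℝ 2 w z) : ∑ᶠ z, c z * τ z = ∑ a ∈ S, c a * τ a := by
  refine finsum_eq_sum_of_support_subset _ fun z hz => ?_
  by_contra hn
  apply hz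
  show c z * τ z = 0
  by_cases hzK : z ∈ tsupport τ
  · rw [(hw z (hK hzK)).eq_zero (hS z (hK hzK) hn).continuousAt, zero_mul]
  · rw [image_eq_zero_of_notMem_tsupport hzK, mul_zero]

private theorem m2_ae (S : Finset ℂ) : ∀ᵐ z : ℂ, z ∉ S := by
  rw [ae_iff]
  simpa using S.finite_toSet.measure_zero (volume : Measure ℂ)

/-- integrability of a function with logarithmic singularities against a continuous function with compact support -/
theorem LogSing.integrable_mul {φ w : ℂ → ℝ} {c : ℂ → ℝ} (hφ : Continuous φ) (hc : HasCompactSupport φ)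
    (hw : ∀ z ∈ tsupport φ, LogSing w (c z) z) : Integrable fun z => φ z * w z := by
  obtain ⟨S, w₂, -, h2, -, he⟩ := logSing_decomp hc hw
  have h1 : Integrable fun z => ∑ a ∈ S, c a * (φ z * Real.log ‖z - a‖) + φ z * w₂ z := by
    refine (integrable_finsetSum _ fun a _ => Integrable.const_mul ?_ _).add ?_
    · exact (locInt_log a).integrable_smul_left_of_hasCompactSupport hφ hc
    · have hs : tsupport (fun z => φ z * w₂ z) ⊆ tsupport φ := tsupport_mul_subset_left (f := φ) (g := w₂)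
      exact integrable_of_ts (fun z hz => hφ.continuousAt.mul (h2 z (hs hz)).continuousAt) (hcs_of_sub hc hs)
  refine h1.congr ?_
  filter_upwards [m2_ae S] with z hz
  rw [he z hz, mul_add, Finset.mul_sum]
  congr 1
  refine Finset.sum_congr rfl fun a _ => ?_
  ring

section

variable {τ w : ℂ → ℝ} {c : ℂ → ℝ}

private theorem m2_lap {S : Finset ℂ} {w₂ : ℂ → ℝ}
    (h2 : ∀ z ∈ tsupport τ, ContDiffAt ℝ 2 w₂ z)
    (he : ∀ ζ, ζ ∉ S → w ζ = ∑ a ∈ S, c a * Real.log ‖ζ - a‖ + w₂ ζ) : ∀ᵐ z : ℂ, τ z * Δ w z = τ z * Δ w₂ z := by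
  filter_upwards [m2_ae S] with z hz
  by_cases hzK : z ∈ tsupport τ
  · have h1 : w =ᶠ[𝓝 z] fun ζ => ∑ a ∈ S, c a * Real.log ‖ζ - a‖ + w₂ ζ := by
      filter_upwards [S.finite_toSet.isClosed.isOpen_compl.mem_nhds (by simpa using hz)] with ζ hζ
      exact he ζ (by simpa using hζ)
    rw [lap_congr h1, lap_add (m2_sum_diff S c hz) (h2 z hzK)]
    have h3 : HarmonicAt (fun ζ : ℂ => ∑ a ∈ S, c a * Real.log ‖ζ - a‖) z := by
      clear h1 he
      induction S using Finset.induction_on with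
      | empty => simp
      | insert a S ha ih =>
        simp only [Finset.mem_insert, not_or] at hz
        have h4 : HarmonicAt (fun ζ : ℂ => Real.log ‖ζ - a‖) z :=
          AnalyticAt.harmonicAt_log_norm (f := fun ζ => ζ - a) (by fun_prop) (sub_ne_zero.2 hz.1)
        have h5 : HarmonicAt (fun ζ : ℂ => c a * Real.log ‖ζ - a‖) z := h4.const_smul (c := c a)
        have h6 := h5.add (ih hz.2)
        refine (harmonicAt_congr_nhds (Eventually.of_forall fun ζ => ?_)).1 h6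
        simp [Finset.sum_insert ha]
    rw [h3.2.eq_of_nhds]
    simp
  · rw [image_eq_zero_of_notMem_tsupport hzK, zero_mul, zero_mul]

/-- `τ Δw` is integrable -/
theorem LogSing.integrable_lap (hτ : Continuous τ) (hc : HasCompactSupport τ) (hw : ∀ z ∈ tsupport τ, LogSing w (c z) z) :
    Integrable fun z => τ z * Δ w z := by
  obtain ⟨S, w₂, -, h2, -, he⟩ := logSing_decomp hc hw
  have hs : tsupport (fun z => τ z * Δ w₂ z) ⊆ tsupport τ := tsupport_mul_subset_left (f := τ) (g := Δ w₂)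
  have h1 : Integrable fun z => τ z * Δ w₂ z := by
    refine integrable_of_ts (fun z hz => hτ.continuousAt.mul ?_) (hcs_of_sub hc hs)
    have h3 := h2 z (hs hz)
    have e : Δ w₂ =ᶠ[𝓝 z] fun z => fderiv ℝ (fun w => fderiv ℝ w₂ w 1) z 1 + fderiv ℝ (fun w => fderiv ℝ w₂ w I) z I := by
      filter_upwards [h3.eventually (by simp)] with ζ hζ
      exact lap_eq hζ
    refine ContinuousAt.congr ?_ e.symm
    have h4 : ∀ v : ℂ, ContinuousAt (fun z => fderiv ℝ (fun w => fderiv ℝ w₂ w v) z v) z := fun v =>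
      ((contDiffAt_d h3 v).fderiv_right (m := 0) (by norm_num)).continuousAt.clm_apply continuousAt_const
    exact (h4 1).add (h4 I)
  exact h1.congr ((m2_lap h2 he).mono fun z hz => hz.symm)

/-- **First formula** (`τ` of class `C¹`): `- ∫ ∇τ ∇w = ∫ τ Δw + 2 π ∑ c τ` -/
theorem LogSing.mean1 (hτ : ContDiff ℝ 1 τ) (hc : HasCompactSupport τ) (hw : ∀ z ∈ tsupport τ, LogSing w (c z) z) :
    - ∫ z, gg τ w z = (∫ z, τ z * Δ w z) + 2 * Real.pi * ∑ᶠ z, c z * τ z := by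
  obtain ⟨S, w₂, -, h2, hS, he⟩ := logSing_decomp hc hw
  have e1 : ∀ᵐ z : ℂ, gg τ w z = ∑ a ∈ S, c a * gg τ (fun ζ : ℂ => Real.log ‖ζ - a‖) z + gg τ w₂ z := by
    filter_upwards [m2_ae S] with z hz
    by_cases hzK : z ∈ tsupport τ
    · have h3 : w =ᶠ[𝓝 z] fun ζ => ∑ a ∈ S, c a * Real.log ‖ζ - a‖ + w₂ ζ := by
        filter_upwards [S.finite_toSet.isClosed.isOpen_compl.mem_nhds (by simpa using hz)] with ζ hζ
        exact he ζ (by simpa using hζ)
      rw [gg_comm τ w, gg_congr h3, gg_comm _ τ, gg_add_right ((m2_sum_diff S c hz).differentiableAt (by norm_num))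
        ((h2 z hzK).differentiableAt (by norm_num)), m2_gg_sum τ S c hz]
    · rw [gg_of_not_ts hzK, gg_of_not_ts hzK]
      simp [gg_of_not_ts hzK]
  have hi : ∀ v : ℂ, Integrable fun z => fderiv ℝ τ z v * fderiv ℝ w₂ z v := by
    intro v
    have hs : tsupport (fun z => fderiv ℝ τ z v * fderiv ℝ w₂ z v) ⊆ tsupport τ :=
      (tsupport_mul_subset_left (f := fun z => fderiv ℝ τ z v) (g := fun z => fderiv ℝ w₂ z v)).trans (ts_fderiv τ v)
    exact integrable_of_ts (fun z hz => (m2_cont hτ v).continuousAt.mul (contDiffAt_d (h2 z (hs hz)) v).continuousAt)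
      (hcs_of_sub hc hs)
  have i2 : Integrable fun z => gg τ w₂ z := (hi 1).add (hi I)
  have e2 : - ∫ z, gg τ w₂ z = ∫ z, τ z * Δ w₂ z := (green1 hτ hc h2).symm
  have e3 : ∫ z, τ z * Δ w z = ∫ z, τ z * Δ w₂ z := integral_congr_ae (m2_lap h2 he)
  rw [integral_congr_ae e1, integral_add (integrable_finsetSum _ fun a _ => (integrable_gg_log hτ hc a).const_mul _) i2,
    integral_finsetSum _ fun a _ => (integrable_gg_log hτ hc a).const_mul _, neg_add, e2,
    e3, m2_finsum (Subset.refl _) hw hS, Finset.mul_sum, ← Finset.sum_neg_distrib, add_comm]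
  congr 1
  refine Finset.sum_congr rfl fun a _ => ?_
  rw [integral_const_mul, ← mul_neg, gg_log hτ hc a]
  ring

/-- **Second formula** (`τ` of class `C²`): `∫ Δτ w = ∫ τ Δw + 2 π ∑ c τ` -/
theorem LogSing.mean2 (hτ : ContDiff ℝ 2 τ) (hc : HasCompactSupport τ) (hw : ∀ z ∈ tsupport τ, LogSing w (c z) z) :
    ∫ z, Δ τ z * w z = (∫ z, τ z * Δ w z) + 2 * Real.pi * ∑ᶠ z, c z * τ z := by
  obtain ⟨S, w₂, -, h2, hS, he⟩ := logSing_decomp hc hw
  have hL := continuous_lap hτ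
  have hcL := hcs_of_sub hc (ts_lap τ)
  have e1 : ∀ᵐ z : ℂ, Δ τ z * w z = ∑ a ∈ S, c a * (Δ τ z * Real.log ‖z - a‖) + Δ τ z * w₂ z := by
    filter_upwards [m2_ae S] with z hz
    rw [he z hz, mul_add, Finset.mul_sum]
    congr 1
    refine Finset.sum_congr rfl fun a _ => ?_
    ring
  have i1 : ∀ a : ℂ, Integrable fun z => Δ τ z * Real.log ‖z - a‖ := fun a =>
    (locInt_log a).integrable_smul_left_of_hasCompactSupport hL hcL
  have i2 : Integrable fun z => Δ τ z * w₂ z := by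
    have hs : tsupport (fun z => Δ τ z * w₂ z) ⊆ tsupport τ :=
      (tsupport_mul_subset_left (f := Δ τ) (g := w₂)).trans (ts_lap τ)
    exact integrable_of_ts (fun z hz => hL.continuousAt.mul (h2 z (hs hz)).continuousAt) (hcs_of_sub hc hs)
  have e3 : ∫ z, τ z * Δ w z = ∫ z, τ z * Δ w₂ z := integral_congr_ae (m2_lap h2 he)
  rw [integral_congr_ae e1, integral_add (integrable_finsetSum _ fun a _ => (i1 a).const_mul _) i2,
    integral_finsetSum _ fun a _ => (i1 a).const_mul _, ← green2 hτ hc h2,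
    e3, m2_finsum (Subset.refl _) hw hS, Finset.mul_sum, add_comm]
  congr 1
  refine Finset.sum_congr rfl fun a _ => ?_
  rw [integral_const_mul, fund hτ hc]
  ring

/-- **Mean** : `- ∫ ∇τ ∇w = ∫ Δτ w` -/
theorem LogSing.mean (hτ : ContDiff ℝ 2 τ) (hc : HasCompactSupport τ) (hw : ∀ z ∈ tsupport τ, LogSing w (c z) z) :
    - ∫ z, gg τ w z = ∫ z, Δ τ z * w z := by
  rw [LogSing.mean1 (hτ.of_le (by norm_num)) hc hw, LogSing.mean2 hτ hc hw]

end

/-- **Mean for `tau R`** -/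
theorem LogSing.mean_tau {R : ℝ} (hR : 1 ≤ R) {w : ℂ → ℝ} {c : ℂ → ℝ} (hw : ∀ z, ‖z‖ ≤ Real.exp 1 * R → LogSing w (c z) z) :
    - ∫ z, gg (tau R) w z = avg R w - avg 1 w := by
  have hts : ∀ {φ : ℂ → ℝ}, (∀ z, Real.exp 1 * R ≤ ‖z‖ → φ z = 0) → ∀ z ∈ tsupport φ, ‖z‖ ≤ Real.exp 1 * R := by
    intro φ hφ z hz
    have h1 : tsupport φ ⊆ closedBall 0 (Real.exp 1 * R) := by
      refine closure_minimal (fun z hz => ?_) isClosed_closedBall
      rw [mem_closedBall_zero_iff]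
      by_contra h
      exact hz (hφ z (not_le.1 h).le)
    simpa using h1 hz
  have he : Real.exp 1 ≤ Real.exp 1 * R := by
    have := Real.exp_pos 1
    nlinarith
  have h1 : ∀ z ∈ tsupport (tau R), LogSing w (c z) z := fun z hz => hw z (hts (fun z hz => tau_eq_zero hR hz) z hz)
  have h2 : ∀ z ∈ tsupport (rhoR R), LogSing w (c z) z := fun z hz =>
    hw z (hts (fun z hz => rhoR_eq_zero hR (Or.inr hz)) z hz)
  have h3 : ∀ z ∈ tsupport (rhoR 1), LogSing w (c z) z := fun z hz =>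
    hw z (hts (fun z hz => rhoR_eq_zero le_rfl (Or.inr (by linarith))) z hz)
  rw [LogSing.mean (contDiff_tau R) (hcs_tau hR) h1]
  unfold avg
  rw [← integral_sub (LogSing.integrable_mul (continuous_rhoR R) (hcs_rhoR hR) h2)
    (LogSing.integrable_mul (continuous_rhoR 1) (hcs_rhoR le_rfl) h3)]
  refine integral_congr_ae (Eventually.of_forall fun z => ?_)
  simp only [lap_tau hR, rhoR_one]
  ring

end Pool.Agent.H30M

end

section

/-!
# MQ Ax0: the cut-off of one axis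

The cut-off is `χ = Real.smoothTransition (2 - 2 |x| / η) Real.smoothTransition (2 - 2 |y| / r₀)`.  The field `(1 - χ) conj a` has the divergence `- ∇χ ⬝ conj a`.  The derivative of
the first factor has the good sign, the derivative of the second factor is supported in `|x| ≤ η`, `r₀ / 2 ≤ |y| ≤ r₀`, where `|a| ≤ K |b|` and `|b|` is
bounded by the gradient of `log |g| - d log |F|`.
-/

set_option autoImplicit false

open MeasureTheory Topology Filter Metric Laplacian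

noncomputable section

namespace Pool.Agent.MQ.AxisA

open Pool.Agent.H30M (deriv_st_eq_zero deriv_st_nonneg)
open Pool.Agent.MQ

theorem st_deriv_bdd : ∃ M : ℝ, 0 < M ∧ ∀ t, deriv Real.smoothTransition t ≤ M := by
  have hc : Continuous (deriv Real.smoothTransition) := (Real.smoothTransition.contDiff (n := 1)).continuous_deriv (by norm_num)
  obtain ⟨M, hM⟩ := (isCompact_Icc (a := (0 : ℝ)) (b := 1)).bddAbove_image (f := deriv Real.smoothTransition) hc.continuousOn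
  refine ⟨max M 1, lt_of_lt_of_le one_pos (le_max_right _ _), fun t => ?_⟩
  rcases le_total t 0 with h | h
  · rw [deriv_st_eq_zero (Or.inl h)]
    exact zero_le_one.trans (le_max_right _ _)
  · rcases le_total t 1 with h1 | h1
    · exact (hM ⟨t, ⟨h, h1⟩, rfl⟩).trans (le_max_left _ _)
    · rw [deriv_st_eq_zero (Or.inr h1)]
      exact zero_le_one.trans (le_max_right _ _)

/-- the cut-off in one variable -/
def ct (s t : ℝ) : ℝ := Real.smoothTransition (2 - 2 * t / s)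

theorem ct_nonneg (s t : ℝ) : 0 ≤ ct s t := Real.smoothTransition.nonneg _

theorem ct_le_one (s t : ℝ) : ct s t ≤ 1 := Real.smoothTransition.le_one _

theorem ct_of_le {s t : ℝ} (hs : 0 < s) (h : t ≤ s / 2) : ct s t = 1 := by
  refine Real.smoothTransition.one_of_one_le ?_
  have : 2 * t / s ≤ 1 := by
    rw [div_le_one hs]
    linarith
  linarith

theorem ct_of_ge {s t : ℝ} (hs : 0 < s) (h : s ≤ t) : ct s t = 0 := by
  refine Real.smoothTransition.zero_of_nonpos ?_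
  have : 2 ≤ 2 * t / s := by
    rw [le_div_iff₀ hs]
    linarith
  linarith

/-- the derivative of the cut-off, times `t` -/
def cd (s t : ℝ) : ℝ := 2 / s * deriv Real.smoothTransition (2 - 2 * t / s) * t

theorem cd_nonneg {s t : ℝ} (hs : 0 < s) (ht : 0 ≤ t) : 0 ≤ cd s t :=
  mul_nonneg (mul_nonneg (by positivity) (deriv_st_nonneg _)) ht

theorem cd_eq_zero {s t : ℝ} (hs : 0 < s) (h : t ≤ s / 2 ∨ s ≤ t) : cd s t = 0 := by
  unfold cd
  rw [deriv_st_eq_zero, mul_zero, zero_mul]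
  rcases h with h | h
  · right
    have : 2 * t / s ≤ 1 := by
      rw [div_le_one hs]
      linarith
    linarith
  · left
    have : 2 ≤ 2 * t / s := by
      rw [le_div_iff₀ hs]
      linarith
    linarith

theorem cd_le {M : ℝ} (hM0 : 0 < M) (hM : ∀ t, deriv Real.smoothTransition t ≤ M) {s t : ℝ} (hs : 0 < s) (ht : 0 ≤ t) : cd s t ≤ 2 * M := by
  rcases le_total s t with h | h
  · rw [cd_eq_zero hs (Or.inr h)]
    positivity
  · unfold cd
    have h1 : 2 / s * deriv Real.smoothTransition (2 - 2 * t / s) * t = 2 * deriv Real.smoothTransition (2 - 2 * t / s) * (t / s) := by ring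
    have h2 : t / s ≤ 1 := (div_le_one hs).2 h
    have h3 : 0 ≤ t / s := by positivity
    have h4 := hM (2 - 2 * t / s)
    have h5 := deriv_st_nonneg (2 - 2 * t / s)
    rw [h1]
    nlinarith

theorem contDiffAt_ct {x : ℂ → ℂ} {z : ℂ} (hx : AnalyticAt ℂ x z) {s : ℝ} (hs : 0 < s) : ContDiffAt ℝ 1 (fun w => ct s ‖x w‖) z := by
  by_cases h0 : x z = 0
  · have h1 : (fun w => ct s ‖x w‖) =ᶠ[𝓝 z] fun _ => 1 := by
      have h2 : ∀ᶠ w in 𝓝 z, ‖x w‖ < s / 2 := by
        have h3 := hx.continuousAt.norm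
        refine h3.eventually (gt_mem_nhds ?_)
        show ‖x z‖ < s / 2
        rw [h0, norm_zero]
        positivity
      filter_upwards [h2] with w hw
      exact ct_of_le hs hw.le
    exact contDiffAt_const.congr_of_eventuallyEq h1
  · have h1 : ContDiffAt ℝ 1 (fun w => ‖x w‖) z := (hx.contDiffAt.restrict_scalars ℝ).norm ℝ h0
    have h2 : ContDiffAt ℝ 1 (fun w => 2 - 2 * ‖x w‖ / s) z := contDiffAt_const.sub ((contDiffAt_const.mul h1).div_const s)
    exact (Real.smoothTransition.contDiff (n := 1)).contDiffAt.comp z h2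

theorem gr_ct {x : ℂ → ℂ} {z : ℂ} (hx : AnalyticAt ℂ x z) {s : ℝ} (hs : 0 < s) :
    gr (fun w => ct s ‖x w‖) z = -((cd s ‖x z‖ : ℝ) : ℂ) * (starRingEnd ℂ) (deriv x z / x z) := by
  by_cases h0 : x z = 0
  · have h1 : (fun w => ct s ‖x w‖) =ᶠ[𝓝 z] fun _ => 1 := by
      have h2 : ∀ᶠ w in 𝓝 z, ‖x w‖ < s / 2 := by
        have h3 := hx.continuousAt.norm
        refine h3.eventually (gt_mem_nhds ?_)
        show ‖x z‖ < s / 2
        rw [h0, norm_zero]
        positivity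
      filter_upwards [h2] with w hw
      exact ct_of_le hs hw.le
    rw [gr_congr h1, gr_const, h0]
    simp
  · have hn : ‖x z‖ ≠ 0 := norm_ne_zero_iff.2 h0
    have h1 : (fun w => ct s ‖x w‖) =ᶠ[𝓝 z] fun w => Real.smoothTransition (2 - 2 * Real.exp (Real.log ‖x w‖) / s) := by
      filter_upwards [hx.continuousAt.eventually_ne h0] with w hw
      rw [Real.exp_log (norm_pos_iff.2 hw)]
      rfl
    rw [gr_congr h1]
    have h2 : DifferentiableAt ℝ (fun w => Real.log ‖x w‖) z :=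
      ((hx.contDiffAt.restrict_scalars ℝ (n := 1)).norm ℝ h0).differentiableAt (by norm_num) |>.log hn
    have h3 : HasDerivAt (fun t : ℝ => Real.smoothTransition (2 - 2 * Real.exp t / s)) (deriv Real.smoothTransition (2 - 2 * Real.exp (Real.log ‖x z‖) / s) *
        (-(2 * Real.exp (Real.log ‖x z‖) / s))) (Real.log ‖x z‖) := by
      have h4 : HasDerivAt Real.smoothTransition (deriv Real.smoothTransition (2 - 2 * Real.exp (Real.log ‖x z‖) / s)) (2 - 2 * Real.exp (Real.log ‖x z‖) / s) :=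
        ((Real.smoothTransition.contDiff (n := 1)).differentiable (by norm_num) _).hasDerivAt
      have h5 : HasDerivAt (fun t : ℝ => 2 - 2 * Real.exp t / s) (-(2 * Real.exp (Real.log ‖x z‖) / s)) (Real.log ‖x z‖) :=
        (((Real.hasDerivAt_exp _).const_mul 2).div_const s).const_sub 2
      exact HasDerivAt.comp (h₂ := Real.smoothTransition) (Real.log ‖x z‖) h4 h5
    have h4 := gr_comp (K := fun t : ℝ => Real.smoothTransition (2 - 2 * Real.exp t / s)) h3 h2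
    rw [h4, gr_log_norm hx.differentiableAt h0, Real.exp_log (norm_pos_iff.2 h0)]
    unfold cd
    push_cast
    ring

/-! ### the cut-off of an axis -/

/-- One axis of a box, without conditions at the common zeros of `x` and `y`: holomorphic functions `x`, `y` on the open set `U`, with `x' = x a`,
`y' = y b`, `|a| ≤ K |b|` outside the common zeros. -/
structure Axis0 (U : Set ℂ) (x y a b : ℂ → ℂ) (K rho : ℝ) : Prop where
  isOpen : IsOpen U
  hx : ∀ z ∈ U, AnalyticAt ℂ x z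
  hy : ∀ z ∈ U, AnalyticAt ℂ y z
  ha : ∀ z ∈ U, x z ≠ 0 ∨ y z ≠ 0 → AnalyticAt ℂ a z
  hb : ∀ z ∈ U, x z ≠ 0 ∨ y z ≠ 0 → AnalyticAt ℂ b z
  dx : ∀ z ∈ U, x z ≠ 0 ∨ y z ≠ 0 → deriv x z = x z * a z
  dy : ∀ z ∈ U, x z ≠ 0 ∨ y z ≠ 0 → deriv y z = y z * b z
  ab : ∀ z ∈ U, x z ≠ 0 ∨ y z ≠ 0 → ‖a z‖ ≤ K * ‖b z‖
  closed : ∀ s : ℝ, s < rho → IsClosed {z | z ∈ U ∧ ‖x z‖ ≤ s ∧ ‖y z‖ ≤ s}

variable {U : Set ℂ} {x y a b : ℂ → ℂ} {K rho : ℝ} {g : ℂ → ℂ}

open Classical in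
/-- the cut-off -/
def chi (U : Set ℂ) (x y : ℂ → ℂ) (η r₀ : ℝ) (z : ℂ) : ℝ := if z ∈ U then ct η ‖x z‖ * ct r₀ ‖y z‖ else 0

theorem chi_of_mem {η r₀ : ℝ} {z : ℂ} (hz : z ∈ U) : chi U x y η r₀ z = ct η ‖x z‖ * ct r₀ ‖y z‖ := by
  classical
  exact if_pos hz

theorem chi_of_notMem {η r₀ : ℝ} {z : ℂ} (hz : z ∉ U) : chi U x y η r₀ z = 0 := by
  classical
  exact if_neg hz

theorem chi_nonneg (η r₀ : ℝ) (z : ℂ) : 0 ≤ chi U x y η r₀ z := by
  by_cases hz : z ∈ U
  · rw [chi_of_mem hz]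
    exact mul_nonneg (ct_nonneg _ _) (ct_nonneg _ _)
  · rw [chi_of_notMem hz]

theorem chi_le_one (η r₀ : ℝ) (z : ℂ) : chi U x y η r₀ z ≤ 1 := by
  by_cases hz : z ∈ U
  · rw [chi_of_mem hz]
    exact mul_le_one₀ (ct_le_one _ _) (ct_nonneg _ _) (ct_le_one _ _)
  · rw [chi_of_notMem hz]
    exact zero_le_one

/-- the closed set which contains the support -/
def TT (U : Set ℂ) (x y : ℂ → ℂ) (η r₀ : ℝ) : Set ℂ := {z | z ∈ U ∧ ‖x z‖ ≤ η ∧ ‖y z‖ ≤ r₀}

theorem mem_TT_of_ne {η r₀ : ℝ} (hη : 0 < η) (hr : 0 < r₀) {z : ℂ} (h : chi U x y η r₀ z ≠ 0) : z ∈ TT U x y η r₀ := by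
  by_cases hz : z ∈ U
  · rw [chi_of_mem hz] at h
    refine ⟨hz, ?_, ?_⟩
    · by_contra h1
      exact h (by rw [ct_of_ge hη (not_le.1 h1).le, zero_mul])
    · by_contra h1
      exact h (by rw [ct_of_ge hr (not_le.1 h1).le, mul_zero])
  · exact absurd (chi_of_notMem hz) h

theorem isClosed_TT (h : Axis0 U x y a b K rho) {η r₀ : ℝ} (hη : η ≤ r₀) (hr : r₀ < rho) : IsClosed (TT U x y η r₀) := by
  have h1 := h.closed r₀ hr
  rw [← isOpen_compl_iff, isOpen_iff_mem_nhds] at h1 ⊢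
  intro z hz
  by_cases h2 : z ∈ {z | z ∈ U ∧ ‖x z‖ ≤ r₀ ∧ ‖y z‖ ≤ r₀}
  · have h3 : η < ‖x z‖ := by
      by_contra h4
      exact hz ⟨h2.1, not_lt.1 h4, h2.2.2⟩
    have h4 : ∀ᶠ w in 𝓝 z, η < ‖x w‖ := (h.hx z h2.1).continuousAt.norm.eventually (lt_mem_nhds h3)
    filter_upwards [h4] with w hw hw2
    exact absurd hw2.2.1 (not_le.2 hw)
  · filter_upwards [h1 z h2] with w hw hw2
    exact hw ⟨hw2.1, hw2.2.1.trans hη, hw2.2.2⟩

theorem chi_ev_mem (h : Axis0 U x y a b K rho) {η r₀ : ℝ} {z : ℂ} (hz : z ∈ U) :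
    chi U x y η r₀ =ᶠ[𝓝 z] fun w => ct η ‖x w‖ * ct r₀ ‖y w‖ := by
  filter_upwards [h.isOpen.mem_nhds hz] with w hw
  exact chi_of_mem hw

theorem chi_ev_zero (h : Axis0 U x y a b K rho) {η r₀ : ℝ} (hη0 : 0 < η) (hη : η ≤ r₀) (hr : r₀ < rho) {z : ℂ} (hz : z ∉ TT U x y η r₀) :
    chi U x y η r₀ =ᶠ[𝓝 z] fun _ => 0 := by
  filter_upwards [(isClosed_TT h hη hr).isOpen_compl.mem_nhds hz] with w hw
  by_contra h1
  exact hw (mem_TT_of_ne hη0 (lt_of_lt_of_le hη0 hη) h1)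

theorem contDiff_chi (h : Axis0 U x y a b K rho) {η r₀ : ℝ} (hη0 : 0 < η) (hη : η ≤ r₀) (hr : r₀ < rho) : ContDiff ℝ 1 (chi U x y η r₀) := by
  rw [contDiff_iff_contDiffAt]
  intro z
  by_cases hz : z ∈ TT U x y η r₀
  · exact ((contDiffAt_ct (h.hx z hz.1) hη0).mul (contDiffAt_ct (h.hy z hz.1) (lt_of_lt_of_le hη0 hη))).congr_of_eventuallyEq (chi_ev_mem h hz.1)
  · exact contDiffAt_const.congr_of_eventuallyEq (chi_ev_zero h hη0 hη hr hz)

theorem gr_chi (h : Axis0 U x y a b K rho) {η r₀ : ℝ} (hη0 : 0 < η) (hr : 0 < r₀) {z : ℂ} (hz : z ∈ U) :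
    gr (chi U x y η r₀) z = ((ct η ‖x z‖ : ℝ) : ℂ) * (-((cd r₀ ‖y z‖ : ℝ) : ℂ) * (starRingEnd ℂ) (deriv y z / y z)) +
      ((ct r₀ ‖y z‖ : ℝ) : ℂ) * (-((cd η ‖x z‖ : ℝ) : ℂ) * (starRingEnd ℂ) (deriv x z / x z)) := by
  rw [gr_congr (chi_ev_mem h hz), gr_mul ((contDiffAt_ct (h.hx z hz) hη0).differentiableAt (by norm_num))
    ((contDiffAt_ct (h.hy z hz) hr).differentiableAt (by norm_num)), gr_ct (h.hy z hz) hr, gr_ct (h.hx z hz) hη0]

/-- the gradient of the cut-off against `conj a` -/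
theorem ip_gr_chi_le (h : Axis0 U x y a b K rho) (hK : 0 ≤ K) {M : ℝ} (hM0 : 0 < M) (hM : ∀ t, deriv Real.smoothTransition t ≤ M) {η r₀ : ℝ} (hη0 : 0 < η) (hr : 0 < r₀)
    {z : ℂ} (hz : z ∈ U) : ip (gr (chi U x y η r₀) z) ((starRingEnd ℂ) (a z)) ≤ 0 ∨
      ‖x z‖ ≤ η ∧ r₀ / 2 ≤ ‖y z‖ ∧ ‖y z‖ ≤ r₀ ∧ ip (gr (chi U x y η r₀) z) ((starRingEnd ℂ) (a z)) ≤ 2 * M * K * ‖b z‖ ^ 2 := by
  by_cases hp : x z ≠ 0 ∨ y z ≠ 0
  · -- the two terms
    have e1 : ((cd η ‖x z‖ : ℝ) : ℂ) * (starRingEnd ℂ) (deriv x z / x z) = ((cd η ‖x z‖ : ℝ) : ℂ) * (starRingEnd ℂ) (a z) := by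
      by_cases hx : x z = 0
      · have : cd η ‖x z‖ = 0 := cd_eq_zero hη0 (Or.inl (by rw [hx, norm_zero]; positivity))
        rw [this]
        simp
      · rw [h.dx z hz hp, mul_div_cancel_left₀ _ hx]
    have e2 : ((cd r₀ ‖y z‖ : ℝ) : ℂ) * (starRingEnd ℂ) (deriv y z / y z) = ((cd r₀ ‖y z‖ : ℝ) : ℂ) * (starRingEnd ℂ) (b z) := by
      by_cases hy : y z = 0
      · have : cd r₀ ‖y z‖ = 0 := cd_eq_zero hr (Or.inl (by rw [hy, norm_zero]; positivity))
        rw [this]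
        simp
      · rw [h.dy z hz hp, mul_div_cancel_left₀ _ hy]
    have e3 : ip (gr (chi U x y η r₀) z) ((starRingEnd ℂ) (a z)) =
        -(ct η ‖x z‖ * cd r₀ ‖y z‖ * ip ((starRingEnd ℂ) (b z)) ((starRingEnd ℂ) (a z))) - ct r₀ ‖y z‖ * cd η ‖x z‖ * ‖a z‖ ^ 2 := by
      rw [gr_chi h hη0 hr hz, neg_mul, neg_mul, e1, e2, ip_add_left, ip_smul_left, ip_smul_left, ip_neg_left, ip_neg_left, ip_smul_left, ip_smul_left,
        ip_self, RCLike.norm_conj]
      ring
    by_cases hin : ‖x z‖ ≤ η ∧ r₀ / 2 ≤ ‖y z‖ ∧ ‖y z‖ ≤ r₀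
    · right
      refine ⟨hin.1, hin.2.1, hin.2.2, ?_⟩
      have h1 : |ip ((starRingEnd ℂ) (b z)) ((starRingEnd ℂ) (a z))| ≤ K * ‖b z‖ ^ 2 := by
        have h2 := abs_ip_le ((starRingEnd ℂ) (b z)) ((starRingEnd ℂ) (a z))
        rw [RCLike.norm_conj, RCLike.norm_conj] at h2
        have h3 := h.ab z hz hp
        have h4 := norm_nonneg (b z)
        nlinarith
      have h2 : 0 ≤ ct r₀ ‖y z‖ * cd η ‖x z‖ * ‖a z‖ ^ 2 := mul_nonneg (mul_nonneg (ct_nonneg _ _) (cd_nonneg hη0 (norm_nonneg _))) (sq_nonneg _)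
      have h3 : 0 ≤ ct η ‖x z‖ * cd r₀ ‖y z‖ := mul_nonneg (ct_nonneg _ _) (cd_nonneg hr (norm_nonneg _))
      have h4 : ct η ‖x z‖ * cd r₀ ‖y z‖ ≤ 2 * M := by
        have h5 := cd_le hM0 hM hr (norm_nonneg (y z))
        have h6 := cd_nonneg hr (norm_nonneg (y z))
        have h7 := ct_le_one η ‖x z‖
        nlinarith
      have h5 := (abs_le.1 h1).1
      rw [e3]
      have h6 : 0 ≤ K * ‖b z‖ ^ 2 := by positivity
      nlinarith [mul_le_mul_of_nonneg_left h5 h3, mul_le_mul_of_nonneg_right h4 h6]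
    · left
      have h1 : ct η ‖x z‖ * cd r₀ ‖y z‖ = 0 := by
        by_cases hx : ‖x z‖ ≤ η
        · rw [cd_eq_zero hr, mul_zero]
          by_contra h2
          push Not at h2
          exact hin ⟨hx, h2.1.le, h2.2.le⟩
        · rw [ct_of_ge hη0 (not_le.1 hx).le, zero_mul]
      have h2 : 0 ≤ ct r₀ ‖y z‖ * cd η ‖x z‖ * ‖a z‖ ^ 2 := mul_nonneg (mul_nonneg (ct_nonneg _ _) (cd_nonneg hη0 (norm_nonneg _))) (sq_nonneg _)
      rw [e3, h1]
      linarith
  · left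
    push Not at hp
    have e1 : cd η ‖x z‖ = 0 := cd_eq_zero hη0 (Or.inl (by rw [hp.1, norm_zero]; positivity))
    have e2 : cd r₀ ‖y z‖ = 0 := cd_eq_zero hr (Or.inl (by rw [hp.2, norm_zero]; positivity))
    rw [gr_chi h hη0 hr hz, e1, e2]
    simp

theorem gr_chi_zero (h : Axis0 U x y a b K rho) {η r₀ : ℝ} (hη0 : 0 < η) (hη : η ≤ r₀) (hr : r₀ < rho) {z : ℂ} (hz : z ∉ TT U x y η r₀) :
    gr (chi U x y η r₀) z = 0 := by
  rw [gr_congr (chi_ev_zero h hη0 hη hr hz), gr_const]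

/-- the scalar product is continuous -/
theorem continuous_ip_chi (h : Axis0 U x y a b K rho) {η r₀ : ℝ} (hη0 : 0 < η) (hη : η ≤ r₀) (hr : r₀ < rho) :
    Continuous fun z => ip (gr (chi U x y η r₀) z) ((starRingEnd ℂ) (a z)) := by
  have hg : Continuous (gr (chi U x y η r₀)) := continuous_gr (contDiff_chi h hη0 hη hr)
  have hr0 : 0 < r₀ := lt_of_lt_of_le hη0 hη
  rw [continuous_iff_continuousAt]
  intro z
  by_cases hz : z ∈ TT U x y η r₀
  · by_cases hp : x z ≠ 0 ∨ y z ≠ 0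
    · have h1 : ContinuousAt (fun z => (starRingEnd ℂ) (a z)) z := Complex.continuous_conj.continuousAt.comp (h.ha z hz.1 hp).continuousAt
      unfold ip
      exact ((Complex.continuous_re.continuousAt.comp hg.continuousAt).mul (Complex.continuous_re.continuousAt.comp h1)).add
        ((Complex.continuous_im.continuousAt.comp hg.continuousAt).mul (Complex.continuous_im.continuousAt.comp h1))
    · push Not at hp
      -- near a common zero the cut-off is `1`
      have h1 : chi U x y η r₀ =ᶠ[𝓝 z] fun _ => 1 := by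
        have h2 : ∀ᶠ w in 𝓝 z, ‖x w‖ < η / 2 := (h.hx z hz.1).continuousAt.norm.eventually (gt_mem_nhds (by
          show ‖x z‖ < η / 2
          rw [hp.1, norm_zero]
          positivity))
        have h3 : ∀ᶠ w in 𝓝 z, ‖y w‖ < r₀ / 2 := (h.hy z hz.1).continuousAt.norm.eventually (gt_mem_nhds (by
          show ‖y z‖ < r₀ / 2
          rw [hp.2, norm_zero]
          positivity))
        filter_upwards [chi_ev_mem h (η := η) (r₀ := r₀) hz.1, h2, h3] with w hw hw2 hw3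
        rw [hw, ct_of_le hη0 hw2.le, ct_of_le hr0 hw3.le, one_mul]
      have h2 : (fun z => ip (gr (chi U x y η r₀) z) ((starRingEnd ℂ) (a z))) =ᶠ[𝓝 z] fun _ => 0 := by
        filter_upwards [gr_eventuallyEq h1] with w hw
        rw [hw, gr_const, ip_zero_left]
      exact continuousAt_const.congr h2.symm
  · have h2 : (fun z => ip (gr (chi U x y η r₀) z) ((starRingEnd ℂ) (a z))) =ᶠ[𝓝 z] fun _ => 0 := by
      filter_upwards [gr_eventuallyEq (chi_ev_zero h hη0 hη hr hz)] with w hw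
      rw [hw, gr_const, ip_zero_left]
    exact continuousAt_const.congr h2.symm

/-! ### the field `(1 - χ) conj a` -/

theorem contDiffAt_conj_a (h : Axis0 U x y a b K rho) {z : ℂ} (hz : z ∈ U) (hp : x z ≠ 0 ∨ y z ≠ 0) :
    ContDiffAt ℝ 1 (fun w => (starRingEnd ℂ) (a w)) z := contDiffAt_conj_holo (h.ha z hz hp)

/-- near a common zero of `x` and `y` the cut-off is `1` -/
theorem chi_ev_one (h : Axis0 U x y a b K rho) {η r₀ : ℝ} (hη0 : 0 < η) (hr0 : 0 < r₀) {z : ℂ} (hz : z ∈ U) (hx : x z = 0) (hy : y z = 0) :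
    chi U x y η r₀ =ᶠ[𝓝 z] fun _ => 1 := by
  have h2 : ∀ᶠ w in 𝓝 z, ‖x w‖ < η / 2 := (h.hx z hz).continuousAt.norm.eventually (gt_mem_nhds (by
    show ‖x z‖ < η / 2
    rw [hx, norm_zero]
    positivity))
  have h3 : ∀ᶠ w in 𝓝 z, ‖y w‖ < r₀ / 2 := (h.hy z hz).continuousAt.norm.eventually (gt_mem_nhds (by
    show ‖y z‖ < r₀ / 2
    rw [hy, norm_zero]
    positivity))
  filter_upwards [chi_ev_mem h (η := η) (r₀ := r₀) hz, h2, h3] with w hw hw2 hw3
  rw [hw, ct_of_le hη0 hw2.le, ct_of_le hr0 hw3.le, one_mul]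

/-- the field `(1 - χ) conj a` is of class `C¹` on `U`, with divergence `- ∇χ ⬝ conj a` -/
theorem ax_field (h : Axis0 U x y a b K rho) {η r₀ : ℝ} (hη0 : 0 < η) (hη : η ≤ r₀) (hr : r₀ < rho) {z : ℂ} (hz : z ∈ U) :
    ContDiffAt ℝ 1 (fun w => ((1 - chi U x y η r₀ w : ℝ) : ℂ) * (starRingEnd ℂ) (a w)) z ∧
      dv (fun w => ((1 - chi U x y η r₀ w : ℝ) : ℂ) * (starRingEnd ℂ) (a w)) z = -ip (gr (chi U x y η r₀) z) ((starRingEnd ℂ) (a z)) := by
  have hr0 : 0 < r₀ := lt_of_lt_of_le hη0 hη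
  have hc := contDiff_chi h hη0 hη hr
  by_cases hp : x z ≠ 0 ∨ y z ≠ 0
  · have h1 := contDiffAt_conj_a h hz hp
    have h2 : ContDiffAt ℝ 1 (fun w => 1 - chi U x y η r₀ w) z := contDiffAt_const.sub hc.contDiffAt
    refine ⟨(Complex.ofRealCLM.contDiff.contDiffAt.comp z h2).mul h1, ?_⟩
    rw [dv_mul (h2.differentiableAt (by norm_num)) (h1.differentiableAt (by norm_num)), dv_conj (h.ha z hz hp).differentiableAt, mul_zero, zero_add,
      gr_sub (differentiableAt_const _) (hc.contDiffAt.differentiableAt (by norm_num)), gr_const, zero_sub, ip_neg_left]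
  · push Not at hp
    have h1 := chi_ev_one h hη0 hr0 hz hp.1 hp.2
    have h2 : (fun w => ((1 - chi U x y η r₀ w : ℝ) : ℂ) * (starRingEnd ℂ) (a w)) =ᶠ[𝓝 z] fun _ => 0 := by
      filter_upwards [h1] with w hw
      rw [hw]
      simp
    refine ⟨contDiffAt_const.congr_of_eventuallyEq h2, ?_⟩
    rw [dv_congr h2, dv_const, gr_congr h1, gr_const, ip_zero_left, neg_zero]

/-! ### the charge -/

end Pool.Agent.MQ.AxisA

end
end
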