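import Pool.Agent.H94.G6.M16
import Pool.Agent.H94.G6.M30
import Pool.Agent.H94.G6.M32
import Pool.Agent.H94.G6.M34
import Pool.Agent.H94.G6.M40
import Pool.Agent.H94.G6.M63
import Pool.Agent.H94.G6.M65
import Pool.Agent.H94.G6.M76
import Pool.Agent.H94.G6.M94
import Pool.Agent.H94.G6.M95

/-! The parts of this file: H14.PP.GUsc, MQ.SNCalc_1, MQ2.DDrel0, SY.LimM, SY.Cp. -/

section

/-!
# BPm GUsc: the metric is upper semicontinuous

A finite maximum (`exists_GG_eq`): it is enough to show for every `k`: if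
`pieceG k x v < a` then `pieceG k y w < a` for `(y, w)` near `(x, v)`, `y ∈ K`.
Far piece: continuous (`continuousAt_rho`, `continuousAt_fs`, `x ≠ 0`). Near piece `i`:
* if `x ∈ U`, `‖q x‖ ≤ 1`, `rho x ≤ δ`: the formula
  `φ (y, v') = c₁ ACoef Ω (χ i) (q y) * pM (nd i) P (q y) (fderiv ℂ q y v')` is continuous at `(x, v)`
  (`continuousAt_ACoef` at `q x`, `‖q x‖ < 2`, `σ (q x) ∈ K` by `Chart.sigma_mem_iff`;
  `continuous_pM`; `q` is analytic at `x`, so `y ↦ fderiv ℂ q y` is continuous at `x`), and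
  `pieceG (some i) ≤ φ` everywhere (`φ ≥ 0`), with equality at `(x, v)`.
* otherwise the set `S = {y ∈ X | y ∈ U, ‖q y‖ ≤ 1, rho y ≤ δ}` is closed in `X` (`Chart.isClosed`
  with `r = 1`, `continuousAt_rho`) and does not contain `x`, so the piece is `0` for all
  `y ∈ X` close to `x`, as it is at `x`.
-/

open Topology Filter Metric

namespace Pool.Agent.H14.PP

open Pool.Agent.H36.BP

variable {N : ℕ} {W : Type*} [NormedAddCommGroup W] [InnerProductSpace ℂ W]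
  {X K T : Set (EN N)} {m j : ℕ} {Ω : Form K m j} {n : ℕ} {χ : Fin n → Chart X}
  {nd : Fin n → Bool} {P : Par} {Q : EN N → W} {D M' : ℕ} {δ c₁ : ℝ}

private theorem GUsc_far (hX : IsCone X) (hK : IsOpenPart X K) (hQ : IsEq X T Q D) {x : EN N}
    (hx : x ∈ K) (v : EN N) {a : ℝ} (ha : rho Q D x ^ M' * fs x v < a) :
    ∀ᶠ p : EN N × EN N in 𝓝 (x, v), rho Q D p.1 ^ M' * fs p.1 p.2 < a := by
  have hx0 : x ≠ 0 := hX.ne_zero (hK.subset hx)
  have h1 : ContinuousAt (fun p : EN N × EN N => rho Q D p.1) (x, v) :=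
    ContinuousAt.comp (g := rho Q D) (f := fun p : EN N × EN N => p.1)
      (continuousAt_rho hQ.analytic hx0) continuousAt_fst
  have h2 : ContinuousAt (fun p : EN N × EN N => rho Q D p.1 ^ M' * fs p.1 p.2) (x, v) :=
    (h1.pow M').mul (continuousAt_fs hx0 v)
  exact h2.eventually (gt_mem_nhds ha)

omit [InnerProductSpace ℂ W] in
private theorem GUsc_zero {i : Fin n} {y : EN N} (h : ¬ (y ∈ X ∧ y ∈ (χ i).U ∧ ‖(χ i).q y‖ ≤ 1 ∧
    rho Q D y ≤ δ)) (w : EN N) : nearG Ω χ nd P Q D δ i y w = 0 := by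
  unfold nearG
  rw [if_neg h]

private theorem GUsc_near (hX : IsCone X) (hK : IsOpenPart X K) (hQ : IsEq X T Q D)
    (hP : ConvPar P) (hc₁ : 0 ≤ c₁) (i : Fin n) {x : EN N} (hx : x ∈ K) (v : EN N) {a : ℝ}
    (ha0 : 0 < a) (ha : c₁ * nearG Ω χ nd P Q D δ i x v < a) :
    ∀ᶠ p : EN N × EN N in 𝓝 (x, v), c₁ * nearG Ω χ nd P Q D δ i p.1 p.2 < a := by
  have hxX : x ∈ X := hK.subset hx
  have hx0 : x ≠ 0 := hX.ne_zero hxX
  have hM : 0 ≤ P.M := by
    have := hP.M_ge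
    linarith
  have hfst : Tendsto (fun p : EN N × EN N => p.1) (𝓝 (x, v)) (𝓝 x) := continuousAt_fst
  by_cases hS : x ∈ insert (0 : EN N) {x | x ∈ X ∧ x ∈ (χ i).U ∧ ‖(χ i).q x‖ ≤ 1}
  · obtain ⟨-, hU, hq⟩ : x ∈ X ∧ x ∈ (χ i).U ∧ ‖(χ i).q x‖ ≤ 1 := hS.resolve_left hx0
    by_cases hρ : rho Q D x ≤ δ
    · rw [nearG_of_mem hxX hU hq hρ] at ha
      have hb : (χ i).q x ∈ ball (0 : ℂ × ℂ) 2 := by
        rw [mem_ball_zero_iff]
        linarith
      have hσK : (χ i).σ ((χ i).q x) ∈ K :=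
        (Chart.sigma_mem_iff (χ i) hxX hU (S := K) hK.smul_mem).2 hx
      have hqc : ContinuousAt (fun p : EN N × EN N => (χ i).q p.1) (x, v) :=
        ContinuousAt.comp (g := (χ i).q) (f := fun p : EN N × EN N => p.1)
          ((χ i).q_an x hU).continuousAt continuousAt_fst
      have hA : ContinuousAt (fun p : EN N × EN N => ACoef Ω (χ i) ((χ i).q p.1)) (x, v) :=
        ContinuousAt.comp (g := ACoef Ω (χ i)) (f := fun p : EN N × EN N => (χ i).q p.1)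
          (continuousAt_ACoef hK Ω (χ i) hb hσK) hqc
      have hD : ContinuousAt (fun p : EN N × EN N => fderiv ℂ (χ i).q p.1 p.2) (x, v) := by
        have h1 : ContinuousAt (fun p : EN N × EN N => fderiv ℂ (χ i).q p.1) (x, v) :=
          ContinuousAt.comp (g := fderiv ℂ (χ i).q) (f := fun p : EN N × EN N => p.1)
            ((χ i).q_an x hU).fderiv.continuousAt continuousAt_fst
        exact h1.clm_apply continuousAt_snd
      have hpM : ContinuousAt (fun p : EN N × EN N =>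
          pM (nd i) P ((χ i).q p.1) (fderiv ℂ (χ i).q p.1 p.2)) (x, v) := by
        have h1 := continuous_pM hM hP.κ_pos.le hP.κ_le (nd i)
        exact ContinuousAt.comp
          (g := fun y : (ℂ × ℂ) × (ℂ × ℂ) => pM (nd i) P y.1 y.2)
          (f := fun p : EN N × EN N => ((χ i).q p.1, fderiv ℂ (χ i).q p.1 p.2))
          h1.continuousAt (hqc.prodMk hD)
      have hφ : ContinuousAt (fun p : EN N × EN N => c₁ * (ACoef Ω (χ i) ((χ i).q p.1) *
          pM (nd i) P ((χ i).q p.1) (fderiv ℂ (χ i).q p.1 p.2))) (x, v) :=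
        continuousAt_const.mul (hA.mul hpM)
      filter_upwards [hφ.eventually (gt_mem_nhds ha)] with p hp
      refine lt_of_le_of_lt (mul_le_mul_of_nonneg_left ?_ hc₁) hp
      by_cases h : p.1 ∈ X ∧ p.1 ∈ (χ i).U ∧ ‖(χ i).q p.1‖ ≤ 1 ∧ rho Q D p.1 ≤ δ
      · rw [nearG_of_mem h.1 h.2.1 h.2.2.1 h.2.2.2]
      · rw [GUsc_zero h]
        exact mul_nonneg (ACoef_nonneg _ _ _) (pM_nonneg hM _ _ _)
    · push Not at hρ
      have h1 : ∀ᶠ y in 𝓝 x, δ < rho Q D y :=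
        (continuousAt_rho hQ.analytic hx0).eventually (lt_mem_nhds hρ)
      filter_upwards [hfst.eventually h1] with p hp
      rw [GUsc_zero (fun h => absurd h.2.2.2 (not_le.2 hp)), mul_zero]
      exact ha0
  · have h1 : ∀ᶠ y in 𝓝 x, y ∉ insert (0 : EN N) {x | x ∈ X ∧ x ∈ (χ i).U ∧ ‖(χ i).q x‖ ≤ 1} :=
      (Chart.isClosed hX (χ i) zero_le_one one_lt_two).isOpen_compl.mem_nhds hS
    filter_upwards [hfst.eventually h1] with p hp
    rw [GUsc_zero (fun h => hp (Or.inr ⟨h.1, h.2.1, h.2.2.1⟩)), mul_zero]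
    exact ha0

theorem GG_usc (hX : IsCone X) (hK : IsOpenPart X K) (hQ : IsEq X T Q D) (hP : ConvPar P)
    (hc₁ : 0 ≤ c₁) {x : EN N} (hx : x ∈ K) (v : EN N) {a : ℝ}
    (ha : GG Ω χ nd P Q D M' δ c₁ x v < a) :
    ∀ᶠ p : EN N × EN N in 𝓝 (x, v), p.1 ∈ K → GG Ω χ nd P Q D M' δ c₁ p.1 p.2 < a := by
  have ha0 : 0 < a := lt_of_le_of_lt (GG_nonneg x v) ha
  have hk : ∀ k, ∀ᶠ p : EN N × EN N in 𝓝 (x, v), pieceG Ω χ nd P Q D M' δ c₁ k p.1 p.2 < a := by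
    intro k
    have h1 : pieceG Ω χ nd P Q D M' δ c₁ k x v < a := lt_of_le_of_lt (pieceG_le_GG k x v) ha
    match k with
    | none => exact GUsc_far hX hK hQ hx v h1
    | some i => exact GUsc_near hX hK hQ hP hc₁ i hx v ha0 h1
  filter_upwards [Filter.eventually_all.2 hk] with p hp _
  obtain ⟨k, hk'⟩ := exists_GG_eq (Ω := Ω) (χ := χ) (nd := nd) (P := P) (Q := Q) (D := D)
    (M' := M') (δ := δ) (c₁ := c₁) p.1 p.2
  rw [hk']
  exact hp k

end Pool.Agent.H14.PP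

end

section

/-!
# MQ/SNCalc: calculus for the exit of a saddle-node
-/

set_option autoImplicit false

open Topology Filter Complex ComplexConjugate

noncomputable section

namespace Pool.Agent.MQ

open Pool.Agent.H30M (deriv_st_eq_zero deriv_st_nonneg)

theorem HH_bdd : ∃ B : ℝ, 0 < B ∧ (∀ s, HH₁ s ≤ B) ∧ ∀ t, HH₂ t ≤ B := by
  obtain ⟨M, hM0, hM⟩ := AxisA.st_deriv_bdd
  refine ⟨4 * M, by positivity, fun s => ?_, fun t => ?_⟩
  · by_cases h : s ≤ 1 ∨ 2 ≤ s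
    · rw [HH₁_zero h]; positivity
    · push Not at h
      rw [HH₁, deriv_hp]
      have h1 := deriv_st_nonneg (s - 1)
      have h2 := hM (s - 1)
      nlinarith
  · by_cases h : t ≤ 1 / 2 ∨ 1 ≤ t
    · rw [HH₂_zero h]; positivity
    · push Not at h
      rw [HH₂, deriv_hm]
      have h1 := deriv_st_nonneg (2 - 2 * t)
      have h2 := hM (2 - 2 * t)
      nlinarith

end Pool.Agent.MQ

end
end

section

/-!
# MQ2 DDrel0: the divergence of the transform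

`div v ∘ β = x^e div w + (e + 1) x^(e-1) w₁`, `β = be t`, so off the zeros of `x` the functions `DDv` of `(v, g)` and of its transform `(w, x^ι g')` differ by
`(e + 1 + ι - m) x' / x`.
-/

set_option autoImplicit false

open Topology Filter Metric

noncomputable section

namespace Pool.Agent.MQ2

open Pool.Agent.MQ

theorem hasFDerivAt_be (t : ℂ) (q : ℂ × ℂ) : HasFDerivAt (be t) ((ContinuousLinearMap.fst ℂ ℂ ℂ).prod
    (q.1 • ContinuousLinearMap.snd ℂ ℂ ℂ + (q.2 + t) • ContinuousLinearMap.fst ℂ ℂ ℂ)) q := by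
  have h1 : HasFDerivAt (fun q : ℂ × ℂ => q.1) (ContinuousLinearMap.fst ℂ ℂ ℂ) q := hasFDerivAt_fst
  have h2 : HasFDerivAt (fun q : ℂ × ℂ => q.2 + t) (ContinuousLinearMap.snd ℂ ℂ ℂ) q := hasFDerivAt_snd.add_const t
  exact h1.prodMk (h1.mul h2)

/-- the divergence under the blow-up -/
theorem dvg_be {e : ℕ} {t : ℂ} {v w : ℂ × ℂ → ℂ × ℂ} {q : ℂ × ℂ} (hv : AnalyticAt ℂ v (be t q)) (hw : AnalyticAt ℂ w q)
    (h1 : ∀ᶠ p in 𝓝 q, (v (be t p)).1 = p.1 ^ e * (w p).1)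
    (h2 : ∀ᶠ p in 𝓝 q, (v (be t p)).2 = (p.2 + t) * (v (be t p)).1 + p.1 ^ (e + 1) * (w p).2) :
    q.1 * dvg v (be t q) = q.1 ^ (e + 1) * dvg w q + (e + 1) * q.1 ^ e * (w q).1 := by
  have hvd := hv.differentiableAt.hasFDerivAt.comp q (hasFDerivAt_be t q)
  have hwd := hw.differentiableAt.hasFDerivAt
  set L := fderiv ℂ v (be t q) with hL
  set K := fderiv ℂ w q with hK
  -- the left sides
  have a1 : HasFDerivAt (fun p => (v (be t p)).1) ((ContinuousLinearMap.fst ℂ ℂ ℂ).comp (L.comp ((ContinuousLinearMap.fst ℂ ℂ ℂ).prod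
    (q.1 • ContinuousLinearMap.snd ℂ ℂ ℂ + (q.2 + t) • ContinuousLinearMap.fst ℂ ℂ ℂ)))) q := (ContinuousLinearMap.fst ℂ ℂ ℂ).hasFDerivAt.comp q hvd
  have a2 : HasFDerivAt (fun p => (v (be t p)).2) ((ContinuousLinearMap.snd ℂ ℂ ℂ).comp (L.comp ((ContinuousLinearMap.fst ℂ ℂ ℂ).prod
    (q.1 • ContinuousLinearMap.snd ℂ ℂ ℂ + (q.2 + t) • ContinuousLinearMap.fst ℂ ℂ ℂ)))) q := (ContinuousLinearMap.snd ℂ ℂ ℂ).hasFDerivAt.comp q hvd
  -- the right sides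
  have f1 : HasFDerivAt (fun q : ℂ × ℂ => q.1) (ContinuousLinearMap.fst ℂ ℂ ℂ) q := hasFDerivAt_fst
  have f2 : HasFDerivAt (fun q : ℂ × ℂ => q.2 + t) (ContinuousLinearMap.snd ℂ ℂ ℂ) q := hasFDerivAt_snd.add_const t
  have w1 : HasFDerivAt (fun p => (w p).1) ((ContinuousLinearMap.fst ℂ ℂ ℂ).comp K) q := (ContinuousLinearMap.fst ℂ ℂ ℂ).hasFDerivAt.comp q hwd
  have w2 : HasFDerivAt (fun p => (w p).2) ((ContinuousLinearMap.snd ℂ ℂ ℂ).comp K) q := (ContinuousLinearMap.snd ℂ ℂ ℂ).hasFDerivAt.comp q hwd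
  have b1 := (f1.pow e).mul w1
  have b2 := (f2.mul a1).add ((f1.pow (e + 1)).mul w2)
  have c1 := a1.unique (b1.congr_of_eventuallyEq h1)
  have c2 := a2.unique (b2.congr_of_eventuallyEq h2)
  have hq1 := h1.self_of_nhds
  have d1 := congrArg (fun T : ℂ × ℂ →L[ℂ] ℂ => T (1, 0)) c1
  have d3 := congrArg (fun T : ℂ × ℂ →L[ℂ] ℂ => T (0, 1)) c2
  simp at d1 d3
  have l1 : L (1, q.2 + t) = L (1, 0) + (q.2 + t) • L (0, 1) := by
    rw [← map_smul, ← map_add]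
    congr 1
    simp
  have l2 : L (0, q.1) = q.1 • L (0, 1) := by
    rw [← map_smul]
    congr 1
    simp
  have he : q.1 * ((e : ℂ) * q.1 ^ (e - 1)) = e * q.1 ^ e := by
    rcases Nat.eq_zero_or_pos e with h | h
    · subst h
      simp
    · obtain ⟨m, rfl⟩ : ∃ m, e = m + 1 := ⟨e - 1, by omega⟩
      rw [Nat.add_sub_cancel, pow_succ]
      ring
  rw [l1] at d1
  rw [l2] at d3
  simp only [Prod.fst_add, Prod.smul_fst, Prod.smul_snd, smul_eq_mul] at d1 d3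
  unfold dvg
  rw [← hL, ← hK]
  rw [pow_succ] at d3 ⊢
  linear_combination q.1 * d1 + d3 + hq1 + (w q).1 * he

/-- the logarithmic derivative of a monomial times a function -/
theorem logDeriv_mono {x h f : ℂ → ℂ} {z : ℂ} {m : ℕ} (hx : DifferentiableAt ℂ x z) (hh : DifferentiableAt ℂ h z) (hx0 : x z ≠ 0) (hh0 : h z ≠ 0)
    (hf : ∀ᶠ w in 𝓝 z, f w = x w ^ m * h w) : deriv f z / f z = m * deriv x z / x z + deriv h z / h z := by
  have h1 := (hx.hasDerivAt.pow m).mul hh.hasDerivAt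
  have h2 : deriv f z = (m * x z ^ (m - 1) * deriv x z) * h z + x z ^ m * deriv h z := by
    rw [EventuallyEq.deriv_eq (show f =ᶠ[𝓝 z] x ^ m * h from hf), h1.deriv]
    rfl
  rw [h2, hf.self_of_nhds]
  rcases Nat.eq_zero_or_pos m with h3 | h3
  · subst h3
    simp
  · obtain ⟨k, rfl⟩ : ∃ k, m = k + 1 := ⟨m - 1, by omega⟩
    rw [Nat.add_sub_cancel]
    field_simp
    ring

theorem continuous_be (t : ℂ) : Continuous (be t) := by
  unfold be
  fun_prop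

end Pool.Agent.MQ2

end
end

section

/-!
# SY LimM: limits of entire curves with bounded characteristic

`limit_fun`: `F n` entire curves in the cone `X` over a closed projective set; for every `R` and `n ≥ R` there is an
entire `u` with `|exp u F n| ≤ 1` on `ball 0 R` and `|exp (u 0) F n 0| ≥ c R > 0`.  Along an ultrafilter the
normalised curves converge locally uniformly on the balls to `Hs R`, there is one entire curve `H` in `X`, and near
every point `z₀` of the ball `Hs R z = (z - z₀)^k (w z) (H z)` with `w z₀ ≠ 0`.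
-/

set_option autoImplicit false

namespace Pool.Agent.SY

open Filter Topology Metric
open Pool.Agent.H36.BP (EN)
open Pool.Agent.H14.PP (IsCone)

variable {N : ℕ}

/-- The coordinate `i`. -/
private noncomputable def Lim_pr (i : Fin (N + 1)) : EN N →L[ℂ] ℂ := EuclideanSpace.proj i

private lemma Lim_exists_coord {w : EN N} (hw : w ≠ 0) : ∃ j, w j ≠ 0 := by
  by_contra h
  push Not at h
  apply hw
  ext j
  exact h j

private lemma Lim_prop {v w : EN N} (hw : w ≠ 0) (h : ∀ i j, v i * w j = v j * w i) :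
    ∃ c : ℂ, v = c • w := by
  obtain ⟨j, hj⟩ := Lim_exists_coord hw
  refine ⟨v j / w j, ?_⟩
  ext i
  rw [PiLp.smul_apply, smul_eq_mul, div_mul_eq_mul_div, eq_div_iff hj]
  exact h i j

private lemma Lim_cont_minor {X : Type} [TopologicalSpace X] {f g : X → EN N} {x : X}
    (hf : ContinuousAt f x) (hg : ContinuousAt g x) (i j : Fin (N + 1)) :
    ContinuousAt (fun y => f y i * g y j - f y j * g y i) x := by
  have hc : ∀ (f : X → EN N), ContinuousAt f x → ∀ i, ContinuousAt (fun y => f y i) x := by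
    intro f hf i
    exact (Lim_pr i).continuous.continuousAt.comp hf
  exact ((hc f hf i).mul (hc g hg j)).sub ((hc f hf j).mul (hc g hg i))

/-- Gluing of local lifts. -/
private lemma Lim_glue (Hs : ℕ → ℂ → EN N)
    (hd : ∀ R : ℕ, DifferentiableOn ℂ (Hs R) (ball 0 (R + 1))) (h0 : ∀ R, Hs R 0 ≠ 0)
    (hp : ∀ (R S : ℕ) (z : ℂ), z ∈ ball (0 : ℂ) (R + 1) → z ∈ ball (0 : ℂ) (S + 1) →
      ∀ i j, Hs R z i * Hs S z j = Hs R z j * Hs S z i) :
    ∃ H : ℂ → EN N, Differentiable ℂ H ∧ (∀ z, H z ≠ 0) ∧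
      ∀ (R : ℕ), ∀ z₀ ∈ ball (0 : ℂ) (R + 1), ∃ (k : ℕ) (u : ℂ → ℂ), AnalyticAt ℂ u z₀ ∧
        u z₀ ≠ 0 ∧ ∀ᶠ w in 𝓝 z₀, Hs R w = (w - z₀) ^ k • (u w • H w) := by
  classical
  -- local factorisation
  have hfac : ∀ (R : ℕ), ∀ z₀ ∈ ball (0 : ℂ) (R + 1), ∃ (k : ℕ) (φ : ℂ → EN N),
      AnalyticAt ℂ φ z₀ ∧ φ z₀ ≠ 0 ∧ ∀ᶠ w in 𝓝 z₀, Hs R w = (w - z₀) ^ k • φ w := by
    intro R z₀ hz₀
    have ha : AnalyticAt ℂ (Hs R) z₀ := (hd R).analyticAt (isOpen_ball.mem_nhds hz₀)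
    rw [ha.exists_eventuallyEq_pow_smul_nonzero_iff]
    intro hcon
    have hon : AnalyticOnNhd ℂ (Hs R) (ball 0 (R + 1)) := fun w hw =>
      (hd R).analyticAt (isOpen_ball.mem_nhds hw)
    have h1 := hon.eqOn_zero_of_preconnected_of_eventuallyEq_zero
      (convex_ball (0 : ℂ) (R + 1)).isPreconnected hz₀ hcon
    exact h0 R (h1 (mem_ball_self (by positivity)))
  have hmem : ∀ z : ℂ, z ∈ ball (0 : ℂ) ((⌈‖z‖⌉₊ : ℕ) + 1) := by
    intro z
    rw [mem_ball_zero_iff]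
    have := Nat.le_ceil ‖z‖
    linarith
  choose k φ hφa hφ0 hφe using fun z : ℂ => hfac ⌈‖z‖⌉₊ z (hmem z)
  -- any local factor is proportional to φ
  have hcmp : ∀ (R : ℕ), ∀ z₀ ∈ ball (0 : ℂ) (R + 1), ∀ (m : ℕ) (ψ : ℂ → EN N),
      AnalyticAt ℂ ψ z₀ → (∀ᶠ w in 𝓝 z₀, Hs R w = (w - z₀) ^ m • ψ w) →
      ∀ᶠ z in 𝓝 z₀, ∀ i j, φ z z i * ψ z j = φ z z j * ψ z i := by
    intro R z₀ hz₀ m ψ hψa hψe
    filter_upwards [hψe.eventually_nhds, hψa.eventually_analyticAt,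
      isOpen_ball.mem_nhds hz₀] with z h1 h2 h3 i j
    -- near z
    have h4 : ∀ᶠ w in 𝓝[≠] z, φ z w i * ψ w j - φ z w j * ψ w i = 0 := by
      have hne0 : ∀ᶠ w in 𝓝[≠] z, w ≠ z₀ := by
        by_cases hz : z = z₀
        · rw [hz]
          exact self_mem_nhdsWithin
        · exact (eventually_ne_nhds hz).filter_mono nhdsWithin_le_nhds
      filter_upwards [h1.filter_mono nhdsWithin_le_nhds, hne0, self_mem_nhdsWithin,
        (hφe z).filter_mono nhdsWithin_le_nhds,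
        nhdsWithin_le_nhds (isOpen_ball.mem_nhds (hmem z)),
        nhdsWithin_le_nhds (isOpen_ball.mem_nhds h3)] with w a1 a2 a3 a4 a5 a6
      have h5 := hp ⌈‖z‖⌉₊ R w a5 a6 i j
      rw [a4, a1] at h5
      simp only [PiLp.smul_apply, smul_eq_mul] at h5
      have h6 : (w - z) ^ k z ≠ 0 := pow_ne_zero _ (sub_ne_zero.2 a3)
      have h7 : (w - z₀) ^ m ≠ 0 := pow_ne_zero _ (sub_ne_zero.2 a2)
      have h8 : (w - z) ^ k z * (w - z₀) ^ m * (φ z w i * ψ w j - φ z w j * ψ w i) = 0 := by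
        linear_combination h5
      rcases mul_eq_zero.1 h8 with h | h
      · exact absurd h (mul_ne_zero h6 h7)
      · exact h
    have h5 : Tendsto (fun w => φ z w i * ψ w j - φ z w j * ψ w i) (𝓝[≠] z)
        (𝓝 (φ z z i * ψ z j - φ z z j * ψ z i)) :=
      ((Lim_cont_minor (hφa z).continuousAt h2.continuousAt i j).tendsto).mono_left
        nhdsWithin_le_nhds
    have h6 : Tendsto (fun w => φ z w i * ψ w j - φ z w j * ψ w i) (𝓝[≠] z) (𝓝 0) :=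
      (tendsto_congr' h4).2 tendsto_const_nhds
    exact sub_eq_zero.1 (tendsto_nhds_unique h5 h6)
  have hofne : ∀ v : EN N, v ≠ 0 → v.ofLp ≠ 0 := by
    intro v hv h
    apply hv
    ext j
    exact congrFun h j
  set f : ℂ → Pool.Agent.H17.PN N := fun z => Projectivization.mk ℂ (φ z z).ofLp
    (hofne _ (hφ0 z)) with hf
  have hfhol : Pool.Agent.H17.HolomorphicInto f Set.univ := by
    intro z₀ _
    refine ⟨fun w => (φ z₀ w).ofLp, ?_, ?_⟩
    · rw [analyticAt_pi_iff]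
      intro j
      exact ((Lim_pr j).analyticAt _).comp (hφa z₀)
    · filter_upwards [hcmp ⌈‖z₀‖⌉₊ z₀ (hmem z₀) (k z₀) (φ z₀) (hφa z₀) (hφe z₀),
        (hφa z₀).continuousAt.eventually_ne (hφ0 z₀)] with z h1 h2
      refine ⟨hofne _ h2, ?_⟩
      obtain ⟨c, hc⟩ := Lim_prop h2 h1
      rw [hf, Projectivization.mk_eq_mk_iff']
      exact ⟨c, by rw [hc]; rfl⟩
  obtain ⟨x, hx⟩ := Pool.Agent.H17.exists_global_lift hfhol
  refine ⟨fun z => WithLp.toLp 2 (fun j => (x j : ℂ → ℂ) z), ?_, ?_, ?_⟩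
  · have h1 : Differentiable ℂ (fun z => (fun j => (x j : ℂ → ℂ) z)) :=
      differentiable_pi.2 fun j => (x j).diff
    exact (PiLp.continuousLinearEquiv 2 ℂ (fun _ : Fin (N + 1) => ℂ)).symm.differentiable.comp h1
  · intro z h
    obtain ⟨h1, _⟩ := hx z
    apply h1
    funext j
    exact congrArg (fun v : EN N => v j) h
  · intro R z₀ hz₀
    obtain ⟨m, ψ, hψa, hψ0, hψe⟩ := hfac R z₀ hz₀
    have hH : ∀ z, ∀ i j, φ z z i * (x j : ℂ → ℂ) z = φ z z j * (x i : ℂ → ℂ) z := by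
      intro z i j
      obtain ⟨h1, h2⟩ := hx z
      obtain ⟨c, hc, h3⟩ := Pool.Agent.H17.mk_eq_mk_cross h2
      have e1 : φ z z i = c * (x i : ℂ → ℂ) z := h3 i
      have e2 : φ z z j = c * (x j : ℂ → ℂ) z := h3 j
      rw [e1, e2]
      ring
    have hprop : ∀ᶠ z in 𝓝 z₀, ∀ i j, ψ z i * (x j : ℂ → ℂ) z = ψ z j * (x i : ℂ → ℂ) z := by
      filter_upwards [hcmp R z₀ hz₀ m ψ hψa hψe] with z h1 i j
      obtain ⟨l, hl⟩ := Lim_exists_coord (hφ0 z)
      have e1 := h1 l i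
      have e2 := h1 l j
      have e3 := hH z l i
      have e4 := hH z l j
      have h5 : (φ z z l) * (φ z z l) * (ψ z i * (x j : ℂ → ℂ) z) =
          (φ z z l) * (φ z z l) * (ψ z j * (x i : ℂ → ℂ) z) := by
        linear_combination (φ z z l * (x j : ℂ → ℂ) z) * e1 - (φ z z l * (x i : ℂ → ℂ) z) * e2 +
          (φ z z i * ψ z l) * e4 - (φ z z j * ψ z l) * e3
      exact mul_left_cancel₀ (mul_ne_zero hl hl) h5
    obtain ⟨l, hl⟩ : ∃ l, (x l : ℂ → ℂ) z₀ ≠ 0 := by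
      obtain ⟨h1, _⟩ := hx z₀
      by_contra hcon
      push Not at hcon
      exact h1 (funext hcon)
    have hψl : AnalyticAt ℂ (fun z => ψ z l) z₀ :=
      ((Lim_pr l).analyticAt _).comp hψa
    have hloc : ∀ᶠ w in 𝓝 z₀, ψ w = (ψ w l / (x l : ℂ → ℂ) w) •
        (WithLp.toLp 2 (fun j => (x j : ℂ → ℂ) w) : EN N) := by
      filter_upwards [hprop, (x l).diff.continuous.continuousAt.eventually_ne hl] with w h1 h2
      ext i
      rw [PiLp.smul_apply, smul_eq_mul, div_mul_eq_mul_div, eq_div_iff h2]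
      exact h1 i l
    refine ⟨m, fun w => ψ w l / (x l : ℂ → ℂ) w, hψl.div ((x l).analyticAt z₀) hl, ?_, ?_⟩
    · intro h
      apply hψ0
      rw [hloc.self_of_nhds]
      have h' : ψ z₀ l / (x l : ℂ → ℂ) z₀ = 0 := h
      rw [h', zero_smul]
    · filter_upwards [hψe, hloc] with w h1 h2
      rw [h1]
      exact congrArg _ h2

/-- **limits of entire curves with bounded characteristic** -/
theorem limit_fun {X : Set (EN N)} (hX : IsCone X) (𝒰 : Ultrafilter ℕ) (h𝒰 : (𝒰 : Filter ℕ) ≤ atTop) (F : ℕ → ℂ → EN N)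
    (hF : ∀ n, Differentiable ℂ (F n)) (hFX : ∀ n z, F n z ∈ X) (c' : ℕ → ℝ) (hc' : ∀ R, 1 ≤ R → 0 < c' R)
    (hchar : ∀ R : ℕ, 1 ≤ R → ∀ n, R ≤ n → ∃ u : ℂ → ℂ, Differentiable ℂ u ∧
      (∀ z ∈ ball (0 : ℂ) R, ‖Complex.exp (u z) • F n z‖ ≤ 1) ∧ c' R ≤ ‖Complex.exp (u 0) • F n 0‖) :
    ∃ (v : ℕ → ℕ → ℂ → ℂ) (Hs : ℕ → ℂ → EN N) (H : ℂ → EN N),
      (∀ R : ℕ, 1 ≤ R → ∀ n, R ≤ n → Differentiable ℂ (v R n) ∧ ∀ z ∈ ball (0 : ℂ) R, ‖Complex.exp (v R n z) • F n z‖ ≤ 1) ∧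
      (∀ R : ℕ, 1 ≤ R → TendstoLocallyUniformlyOn (fun n z => Complex.exp (v R n z) • F n z) (Hs R) 𝒰 (ball 0 R)) ∧
      (∀ R : ℕ, 1 ≤ R → DifferentiableOn ℂ (Hs R) (ball 0 R) ∧ (∀ z ∈ ball (0 : ℂ) R, ‖Hs R z‖ ≤ 1) ∧ c' R ≤ ‖Hs R 0‖) ∧
      Differentiable ℂ H ∧ (∀ z, H z ∈ X) ∧
      ∀ R : ℕ, 1 ≤ R → ∀ z₀ ∈ ball (0 : ℂ) R, ∃ (k : ℕ) (w : ℂ → ℂ), AnalyticAt ℂ w z₀ ∧ w z₀ ≠ 0 ∧
        ∀ᶠ z in 𝓝 z₀, Hs R z = (z - z₀) ^ k • (w z • H z) := by
  classical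
  have hKcl : ∀ x : EN N, x ≠ 0 → x ∈ closure X → x ∈ X := by
    intro x hx hxc
    have h1 : closure X ⊆ insert 0 X := closure_minimal (Set.subset_insert 0 X) hX.closed
    exact (Set.mem_insert_iff.1 (h1 hxc)).resolve_left hx
  have hch : ∀ R : ℕ, ∃ g : ℕ → ℂ → ℂ, ∀ n, R + 1 ≤ n → Differentiable ℂ (g n) ∧
      (∀ z ∈ ball (0 : ℂ) (R + 1), ‖Complex.exp (g n z) • F n z‖ ≤ 1) ∧
      c' (R + 1) ≤ ‖Complex.exp (g n 0) • F n 0‖ := by
    intro R
    have h1 := hchar (R + 1) (by omega)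
    refine ⟨fun n => if h : R + 1 ≤ n then (h1 n h).choose else 0, fun n hn => ?_⟩
    have h2 := (h1 n hn).choose_spec
    simp only [hn, dite_true]
    refine ⟨h2.1, fun z hz => h2.2.1 z ?_, h2.2.2⟩
    push_cast
    exact hz
  choose g hg using hch
  set Fr : ℕ → ℕ → ℂ → EN N := fun R n z => Complex.exp (g R n z) • F n z with hFr
  have hFrK : ∀ (R n : ℕ) z, Fr R n z ∈ X := fun R n z =>
    hX.smul_mem _ (hFX n z) _ (Complex.exp_ne_zero _)
  have hev : ∀ R : ℕ, ∀ᶠ n in (𝒰 : Filter ℕ), R + 1 ≤ n := fun R =>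
    h𝒰 (eventually_ge_atTop (R + 1))
  have hmont : ∀ R : ℕ, ∃ h : ℂ → EN N, DifferentiableOn ℂ h (ball 0 (R + 1)) ∧
      TendstoLocallyUniformlyOn (Fr R) h (𝒰 : Filter ℕ) (ball 0 (R + 1)) := by
    intro R
    refine Pool.Agent.H17.montel_ultrafilter 𝒰 (B := 1) ?_ ?_
    · filter_upwards [hev R] with n hn
      exact ((hg R n hn).1.cexp.smul (hF n)).differentiableOn
    · filter_upwards [hev R] with n hn
      exact (hg R n hn).2.1
  choose Hs hHd hHc using hmont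
  have hpt : ∀ (R : ℕ), ∀ z ∈ ball (0 : ℂ) (R + 1), Tendsto (fun n => Fr R n z) (𝒰 : Filter ℕ)
      (𝓝 (Hs R z)) := fun R z hz => (hHc R).tendsto_at hz
  have hz0 : ∀ R : ℕ, (0 : ℂ) ∈ ball (0 : ℂ) (R + 1) := fun R => mem_ball_self (by positivity)
  have hHc0 : ∀ R, c' (R + 1) ≤ ‖Hs R 0‖ := by
    intro R
    have h1 := (hpt R 0 (hz0 R)).norm
    refine ge_of_tendsto h1 ?_
    filter_upwards [hev R] with n hn
    exact (hg R n hn).2.2
  have hHb : ∀ R : ℕ, ∀ z ∈ ball (0 : ℂ) (R + 1), ‖Hs R z‖ ≤ 1 := by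
    intro R z hz
    refine le_of_tendsto (hpt R z hz).norm ?_
    filter_upwards [hev R] with n hn
    exact (hg R n hn).2.1 z hz
  have hH0 : ∀ R, Hs R 0 ≠ 0 := by
    intro R h
    have h2 := hHc0 R
    rw [h, norm_zero] at h2
    exact absurd (hc' (R + 1) (by omega)) (not_lt.2 h2)
  have hprop : ∀ (R S : ℕ) (z : ℂ), z ∈ ball (0 : ℂ) (R + 1) → z ∈ ball (0 : ℂ) (S + 1) →
      ∀ i j, Hs R z i * Hs S z j = Hs R z j * Hs S z i := by
    intro R S z hR hS i j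
    have hco : ∀ (T : ℕ), z ∈ ball (0 : ℂ) (T + 1) → ∀ i, Tendsto (fun n => Fr T n z i)
        (𝒰 : Filter ℕ) (𝓝 (Hs T z i)) := fun T hT i =>
      ((Lim_pr i).continuous.tendsto _).comp (hpt T z hT)
    have h1 : Tendsto (fun n => Fr R n z i * Fr S n z j) (𝒰 : Filter ℕ)
        (𝓝 (Hs R z i * Hs S z j)) := (hco R hR i).mul (hco S hS j)
    have h2 : Tendsto (fun n => Fr R n z j * Fr S n z i) (𝒰 : Filter ℕ)
        (𝓝 (Hs R z j * Hs S z i)) := (hco R hR j).mul (hco S hS i)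
    refine tendsto_nhds_unique h1 (h2.congr fun n => ?_)
    simp only [hFr, PiLp.smul_apply, smul_eq_mul]
    ring
  obtain ⟨H, hHdiff, hHne, hHloc⟩ := Lim_glue Hs hHd hH0 hprop
  have hsmc : ∀ (x : EN N) (a : ℂ), a ≠ 0 → x ∈ closure X → a • x ∈ closure X := by
    intro x a ha hx
    exact map_mem_closure (continuous_const_smul a) hx fun y hy => hX.smul_mem y hy a ha
  have hHcl1 : ∀ (R : ℕ), ∀ z ∈ ball (0 : ℂ) (R + 1), Hs R z ∈ closure X := by
    intro R z hz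
    exact mem_closure_of_tendsto (hpt R z hz) (Eventually.of_forall fun n => hFrK R n z)
  have hmem : ∀ z : ℂ, z ∈ ball (0 : ℂ) ((⌈‖z‖⌉₊ : ℕ) + 1) := by
    intro z
    rw [mem_ball_zero_iff]
    have := Nat.le_ceil ‖z‖
    linarith
  have hHcl : ∀ z, H z ∈ closure X := by
    intro z₀
    obtain ⟨k, u, hua, hu0, hue⟩ := hHloc _ z₀ (hmem z₀)
    have h1 : ∀ᶠ w in 𝓝[≠] z₀, H w ∈ closure X := by
      filter_upwards [hue.filter_mono nhdsWithin_le_nhds, self_mem_nhdsWithin,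
        (hua.continuousAt.eventually_ne hu0).filter_mono nhdsWithin_le_nhds,
        nhdsWithin_le_nhds (isOpen_ball.mem_nhds (hmem z₀))] with w a1 a2 a3 a4
      have h2 := hHcl1 _ w a4
      rw [a1, smul_smul] at h2
      have h3 : (w - z₀) ^ k * u w ≠ 0 := mul_ne_zero (pow_ne_zero _ (sub_ne_zero.2 a2)) a3
      have h4 := hsmc _ _ (inv_ne_zero h3) h2
      rwa [smul_smul, inv_mul_cancel₀ h3, one_smul] at h4
    have h2 : Tendsto H (𝓝[≠] z₀) (𝓝 (H z₀)) :=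
      (hHdiff.continuous.tendsto z₀).mono_left nhdsWithin_le_nhds
    exact isClosed_closure.mem_of_tendsto h2 h1
  refine ⟨fun R => g (R - 1), fun R => Hs (R - 1), H, ?_, ?_, ?_, hHdiff,
    fun z => hKcl _ (hHne z) (hHcl z), ?_⟩
  · intro R hR n hn
    obtain ⟨S, rfl⟩ : ∃ S, R = S + 1 := ⟨R - 1, by omega⟩
    simp only [Nat.add_sub_cancel]
    push_cast
    exact ⟨(hg S n hn).1, (hg S n hn).2.1⟩
  · intro R hR
    obtain ⟨S, rfl⟩ : ∃ S, R = S + 1 := ⟨R - 1, by omega⟩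
    simp only [Nat.add_sub_cancel]
    push_cast
    exact hHc S
  · intro R hR
    obtain ⟨S, rfl⟩ : ∃ S, R = S + 1 := ⟨R - 1, by omega⟩
    simp only [Nat.add_sub_cancel]
    push_cast
    exact ⟨hHd S, hHb S, hHc0 S⟩
  · intro R hR
    obtain ⟨S, rfl⟩ : ∃ S, R = S + 1 := ⟨R - 1, by omega⟩
    simp only [Nat.add_sub_cancel]
    push_cast
    exact hHloc S

end Pool.Agent.SY

end

section

/-!
# SY Cp: compactness

Entire curves with bounded `g` and `g F 0 ≥ δ`: the characteristic is bounded (`char_fun`), so they converge off a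
discrete set (`limit_fun`); the limit is of order two, not contained in `T` and not constant.
-/

set_option autoImplicit false

open Topology Filter Metric

namespace Pool.Agent.SY

open Pool.Agent.H36.BP (EN fs wd Sub OrdTwo)
open Pool.Agent.H17BP (Pr)
open Pool.Agent.H14.PP (IsCone)

variable {N : ℕ} {X T : Set (EN N)} {rho : EN N → ℝ} {M : ℕ} {c₀ C : ℝ} {g : (ℂ → EN N) → ℂ → ℝ}

/-- upper semicontinuity on a closed ball -/
theorem Energy.uscOn {nu : EN N → ℝ} (E : Energy X T nu rho M c₀ C g) {F : ℂ → EN N} (hF : Ent X T F) (S : Set ℂ) :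
    UpperSemicontinuousOn (g F) S := fun z _ a ha => nhdsWithin_le_nhds (E.usc F hF z a ha)

/-- compactness of the entire curves with bounded `g` and `g F 0 ≥ δ`: near `0` (and at all points off a closed discrete set) the
normalised curves converge, the limit is not in `T` and not constant -/
theorem exists_limit (hX : IsCone X) (hTs : ∀ x ∈ T, ∀ c : ℂ, c ≠ 0 → c • x ∈ T) (E : Energy X T (fun x => ‖x‖) rho M c₀ C g) (𝒰 : Ultrafilter ℕ) (h𝒰 : (𝒰 : Filter ℕ) ≤ atTop)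
    (F : ℕ → ℂ → EN N) (hF : ∀ n, Ent X T (F n)) {A δ : ℝ} (hδ : 0 < δ) (hA : ∀ n : ℕ, ∀ z ∈ ball (0 : ℂ) (n + 1), g (F n) z ≤ A)
    (h0 : ∀ n, δ ≤ g (F n) 0) :
    ∃ H : ℂ → EN N, Differentiable ℂ H ∧ (∀ z, H z ∈ X) ∧ OrdTwo H ∧ (∃ z, H z ∉ T) ∧ (∃ z w, ∀ c : ℂ, H z ≠ c • H w) ∧
      ∀ R : ℕ, 1 ≤ R → ∃ (v : ℕ → ℂ → ℂ) (HR : ℂ → EN N),
        (∀ᶠ n in (𝒰 : Filter ℕ), Differentiable ℂ (v n) ∧ ∀ z ∈ ball (0 : ℂ) R, ‖Complex.exp (v n z) • F n z‖ ≤ 1) ∧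
        TendstoLocallyUniformlyOn (fun n z => Complex.exp (v n z) • F n z) HR 𝒰 (ball 0 R) ∧ DifferentiableOn ℂ HR (ball 0 R) ∧ HR 0 ≠ 0 ∧
        ∀ z₀ ∈ ball (0 : ℂ) R, ∃ (k : ℕ) (w : ℂ → ℂ), AnalyticAt ℂ w z₀ ∧ w z₀ ≠ 0 ∧ ∀ᶠ z in 𝓝 z₀, HR z = (z - z₀) ^ k • (w z • H z) := by
  have hc₀ := E.c₀_pos
  have hC := E.C_pos
  have hne : ∀ x ∈ X, x ≠ 0 := fun x hx h => hX.zero_notMem (h ▸ hx)
  have hδA : δ ≤ A := (h0 0).trans (hA 0 0 (mem_ball_self (by positivity)))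
  have hA0 : 0 < A := hδ.trans_le hδA
  set D : ℝ := C * A ^ 2 + 1 with hD
  have hD0 : 0 < D := by positivity
  obtain ⟨v, Hs, H, hv, hHc, hHs, hHd, hHX, hloc⟩ := limit_fun hX 𝒰 h𝒰 F (fun n => (hF n).diff)
    (fun n => (hF n).mem)
    (fun R : ℕ => Real.exp (-(1 + Real.log (A / δ * Real.exp 1 * Real.exp (D * (R : ℝ) ^ 2))) / c₀))
    (fun R _ => Real.exp_pos _) (by
      intro R hR n hn
      have hR0 : (0 : ℝ) < R := by exact_mod_cast hR
      have hsub : closedBall (0 : ℂ) (R : ℝ) ⊆ ball 0 ((n : ℝ) + 1) := by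
        apply closedBall_subset_ball
        have : (R : ℝ) ≤ n := by exact_mod_cast hn
        linarith
      exact char_fun hc₀ hC.le hR0 hδ (hF n).diff (fun z => hne _ ((hF n).mem z)) (E.uscOn (hF n) _)
        (fun z hz => hA n z (hsub hz)) (h0 n) (fun z _ hz => E.sub _ (hF n) z hz))
  have hlog : ∀ R : ℝ, Real.log (A / δ * Real.exp 1 * Real.exp (D * R ^ 2)) =
      Real.log (A / δ) + 1 + D * R ^ 2 := by
    intro R
    have h8 : 0 < A / δ := div_pos hA0 hδ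
    rw [Real.log_mul (mul_pos h8 (Real.exp_pos _)).ne' (Real.exp_pos _).ne',
      Real.log_mul h8.ne' (Real.exp_pos _).ne', Real.log_exp, Real.log_exp]
  -- the local form
  have hval : ∀ R : ℕ, 1 ≤ R → ∀ z ∈ ball (0 : ℂ) R, Hs R z = 0 ∨ ∃ c : ℂ, c ≠ 0 ∧ H z = c • Hs R z := by
    intro R hR z hz
    obtain ⟨k, w, _, hw0, hwe⟩ := hloc R hR z hz
    have h1 := hwe.self_of_nhds
    rcases Nat.eq_zero_or_pos k with hk | hk
    · right
      subst hk
      rw [pow_zero, one_smul] at h1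
      exact ⟨(w z)⁻¹, inv_ne_zero hw0, by rw [h1, smul_smul, inv_mul_cancel₀ hw0, one_smul]⟩
    · left
      rw [h1, sub_self, zero_pow hk.ne', zero_smul]
  have hHs0 : ∀ R : ℕ, 1 ≤ R → Hs R 0 ≠ 0 := fun R hR h => by
    have h1 := (hHs R hR).2.2
    rw [h, norm_zero] at h1
    exact absurd (Real.exp_pos _) (not_lt.2 h1)
  -- order two
  have hord : OrdTwo H := by
    refine ⟨(2 + |Real.log (A / δ)| + 2 * D) / c₀, fun r hr => ?_⟩
    have hR : 1 ≤ ⌈r⌉₊ := Nat.one_le_iff_ne_zero.2 (Nat.ceil_pos.2 hr).ne'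
    have hr1 : r ≤ (⌈r⌉₊ : ℝ) := Nat.le_ceil r
    have hr2 : (⌈r⌉₊ : ℝ) < r + 1 := Nat.ceil_lt_add_one hr.le
    have hsub : ball (0 : ℂ) r ⊆ ball 0 (⌈r⌉₊ : ℝ) := ball_subset_ball hr1
    obtain ⟨h1, h2, h3⟩ := hHs _ hR
    refine ⟨Hs ⌈r⌉₊, h1.mono hsub, fun z hz => h2 z (hsub hz), le_trans (Real.exp_le_exp.2 ?_) h3,
      fun z hz => hval _ hR z (hsub hz)⟩
    rw [hlog, neg_div, neg_le_neg_iff, div_mul_eq_mul_div, div_le_div_iff_of_pos_right hc₀]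
    have h4 : (⌈r⌉₊ : ℝ) ^ 2 ≤ 2 * (1 + r ^ 2) := by nlinarith [sq_nonneg (r - 1)]
    have h5 := le_abs_self (Real.log (A / δ))
    have h6 : 0 ≤ |Real.log (A / δ)| := abs_nonneg _
    nlinarith [mul_le_mul_of_nonneg_left h4 hD0.le, mul_nonneg h6 (sq_nonneg r), sq_nonneg r]
  -- near the origin
  have h0mem : (0 : ℂ) ∈ ball (0 : ℂ) ((1 : ℕ) : ℝ) := mem_ball_self (by simp)
  have hcont0 : ContinuousAt (Hs 1) 0 :=
    ((hHs 1 le_rfl).1.differentiableAt (isOpen_ball.mem_nhds h0mem)).continuousAt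
  obtain ⟨s, hs, hsb⟩ := Metric.eventually_nhds_iff_ball.1
    ((hcont0.eventually_ne (hHs0 1 le_rfl)).and (isOpen_ball.mem_nhds h0mem))
  have hcoef : ∀ z ∈ ball (0 : ℂ) s, ∃ c : ℂ, c ≠ 0 ∧ Hs 1 z = c • H z := by
    intro z hz
    obtain ⟨c, hc, h1⟩ := (hval 1 le_rfl z (hsb z hz).2).resolve_left (hsb z hz).1
    exact ⟨c⁻¹, inv_ne_zero hc, by rw [h1, smul_smul, inv_mul_cancel₀ hc, one_smul]⟩
  have hev1 : ∀ᶠ n in (𝒰 : Filter ℕ), 1 ≤ n := h𝒰 (eventually_ge_atTop 1)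
  obtain ⟨⟨p, hp, hpT⟩, ⟨a, ha, b, hb, hab⟩⟩ := E.lim (𝒰 : Filter ℕ) inferInstance (min s 1) A δ
    (lt_min hs one_pos) hδ F (Hs 1) (Eventually.of_forall hF)
    (by
      refine Eventually.of_forall fun n z hz => hA n z ?_
      refine ball_subset_ball ?_ hz
      exact (min_le_right _ _).trans (by
        have : (0 : ℝ) ≤ n := Nat.cast_nonneg n
        linarith))
    (Eventually.of_forall h0)
    ⟨fun n z => Complex.exp (v 1 n z), by
      filter_upwards [hev1] with n hn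
      exact ⟨(hv 1 le_rfl n hn).1.cexp.differentiableOn, fun z _ => Complex.exp_ne_zero _⟩,
      (hHc 1 le_rfl).mono fun w hw => (hsb w (ball_subset_ball (min_le_left _ _) hw)).2⟩
    (fun w hw => by
      obtain ⟨c, hc, h1⟩ := hcoef w (ball_subset_ball (min_le_left _ _) hw)
      rw [h1]
      exact hX.smul_mem _ (hHX w) _ hc)
  refine ⟨H, hHd, hHX, hord, ?_, ?_, fun R hR => ?_⟩
  · refine ⟨p, fun h => hpT ?_⟩
    obtain ⟨c, hc, h1⟩ := hcoef p (ball_subset_ball (min_le_left _ _) hp)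
    rw [h1]
    exact hTs _ h _ hc
  · refine ⟨a, b, fun c hc => hab ?_⟩
    obtain ⟨c₁, hc₁, h1⟩ := hcoef a (ball_subset_ball (min_le_left _ _) ha)
    obtain ⟨c₂, hc₂, h2⟩ := hcoef b (ball_subset_ball (min_le_left _ _) hb)
    have hc0 : c ≠ 0 := fun h => by
      rw [h, zero_smul] at hc
      exact hne _ (hHX a) hc
    refine ⟨c₁ * c * c₂⁻¹, mul_ne_zero (mul_ne_zero hc₁ hc0) (inv_ne_zero hc₂), ?_⟩
    rw [h1, h2, hc, smul_smul, smul_smul]
    congr 1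
    rw [mul_assoc, inv_mul_cancel₀ hc₂, mul_one]
  · refine ⟨v R, Hs R, ?_, hHc R hR, (hHs R hR).1, hHs0 R hR, hloc R hR⟩
    have hevR : ∀ᶠ n in (𝒰 : Filter ℕ), R ≤ n := h𝒰 (eventually_ge_atTop R)
    filter_upwards [hevR] with n hn
    exact hv R hR n hn

end Pool.Agent.SY

end
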