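import Mathlib

/-! The parts of this file: G3.C.Ode, H13.CV.EllB, H17BP.Nodal, H68.KR.CB1, H68.KR.CB2, H68.KR.CB3, H74.NB.Child, H94.Jac, H99.Cover.Defs. -/

section

/-!
# G3 C Ode: real solutions of holomorphic differential equations extend to complex time

Let `V` be holomorphic and bounded by `M` on `ball (s₁, y₁) R ⊆ ℂ × ℂ^n` (sup norm).
`ode_hol`: PICARD ITERATION on the complex disc.  By the Cauchy estimates `V` is `K`-Lipschitz in `y` on `ball (s₁, y₁) (R / 2)` with `K = K (R, M, n)` (or: use the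
Schwarz-type bound `Complex.norm_deriv_le_of_forall_mem_sphere_norm_le` on complex lines, or `dist_le_mul_dist_of_mapsTo_ball`).  `ε = min (R / 2) (R / (4 (M + 1))) …` with
`K ε ≤ 1 / 2`.  For a holomorphic `Y : ball s₁ ε → closedBall y₁ (R / 4)` let `T Y` be the primitive of `s ↦ V (s, Y s)` on the ball with value `y₁` at `s₁`
(`DifferentiableOn.isExactOn_ball` or `Complex.IsExactOn`; mean value inequality `Convex.norm_image_sub_le_of_norm_hasDerivWithin_le` for the bounds).  The iterates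
`Y_0 = y₁`, `Y_{m+1} = T Y_m` satisfy `‖Y_{m+1} - Y_m‖ ≤ 2^(-m) R` on the ball, so they converge uniformly to a holomorphic `Y` (`TendstoLocallyUniformlyOn.differentiableOn`,
derivatives converge: `TendstoLocallyUniformlyOn.deriv`), and `Y' = V (s, Y)`.
`ode_real`: `ε` as in `ode_hol` (made smaller such that `M ε ≤ R / 4`); the restriction of `Y` to the real interval and `y` solve the same real differential equation with the
same value at `s₁`, and both stay in `ball y₁ (R / 2)` for `|s - s₁| < ε` (for `y`: `ODE_solution_unique_of_mem_Ioo` or a Gronwall / continuity argument: the set of `t < ε` such that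
`Y = y` on `[s₁ - t, s₁ + t]` is open and closed; where `Y = y` the value lies in `ball y₁ (R / 2)`, a neighbourhood in which `V` is Lipschitz in `y`).
-/

set_option autoImplicit false

open Topology Filter Metric

namespace Pool.Agent.G3.C

private theorem ode_comp {n : ℕ} {f : ℂ → Fin n → ℂ} {f' : Fin n → ℂ} {t : ℝ} (h : HasDerivAt f f' (t : ℂ)) :
    HasDerivAt (fun t : ℝ => f (t : ℂ)) f' t := by
  have h1 : HasDerivAt (fun t : ℝ => (t : ℂ)) 1 t := Complex.ofRealCLM.hasDerivAt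
  have h2 := HasDerivAt.scomp (g₁ := f) (h := fun t : ℝ => (t : ℂ)) t h h1
  rw [one_smul] at h2
  exact h2

/-- Lipschitz bound in `y` -/
private theorem ode_lip {n : ℕ} {R M : ℝ} (hR : 0 < R) (V : ℂ × (Fin n → ℂ) → Fin n → ℂ) (s₁ : ℂ) (y₁ : Fin n → ℂ)
    (hV : DifferentiableOn ℂ V (ball (s₁, y₁) R)) (hM : ∀ q ∈ ball (s₁, y₁) R, ‖V q‖ ≤ M) {s : ℂ} (hs : s ∈ ball s₁ R)
    {y y' : Fin n → ℂ} (hy : y ∈ ball y₁ (R / 2)) (hy' : y' ∈ ball y₁ (R / 2)) :
    ‖V (s, y') - V (s, y)‖ ≤ 4 * M / R * ‖y' - y‖ := by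
  rcases eq_or_ne y' y with rfl | hne
  · simp
  have hv : 0 < ‖y' - y‖ := norm_pos_iff.2 (sub_ne_zero.2 hne)
  -- the points of the segment
  have hseg : ∀ t ∈ Set.Icc (0 : ℝ) 1, y + (t : ℂ) • (y' - y) ∈ ball y₁ (R / 2) := by
    intro t ht
    have h := (convex_ball y₁ (R / 2)).add_smul_sub_mem hy hy' ht
    have e : (t : ℂ) • (y' - y) = t • (y' - y) := by
      funext i
      simp
    rw [e]
    exact h
  have hmem : ∀ t ∈ Set.Icc (0 : ℝ) 1, ∀ τ : ℂ, ‖τ‖ ≤ R / (4 * ‖y' - y‖) →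
      (s, y + ((t : ℂ) + τ) • (y' - y)) ∈ ball (s₁, y₁) R := by
    intro t ht τ hτ
    rw [← ball_prod_same]
    refine ⟨hs, ?_⟩
    have h1 := hseg t ht
    rw [mem_ball, dist_eq_norm] at h1 ⊢
    show ‖y + ((t : ℂ) + τ) • (y' - y) - y₁‖ < R
    have e : y + ((t : ℂ) + τ) • (y' - y) - y₁ = (y + (t : ℂ) • (y' - y) - y₁) + τ • (y' - y) := by
      rw [add_smul]
      abel
    rw [e]
    have h2 : ‖τ • (y' - y)‖ ≤ R / 4 := by
      rw [norm_smul]
      calc ‖τ‖ * ‖y' - y‖ ≤ R / (4 * ‖y' - y‖) * ‖y' - y‖ := by gcongr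
        _ = R / 4 := by field_simp
    calc ‖(y + (t : ℂ) • (y' - y) - y₁) + τ • (y' - y)‖ ≤ ‖y + (t : ℂ) • (y' - y) - y₁‖ + ‖τ • (y' - y)‖ := norm_add_le _ _
      _ < R := by linarith
  have hρ : 0 < R / (4 * ‖y' - y‖) := by positivity
  -- the complex line
  obtain ⟨G, hG⟩ : ∃ G : ℂ → Fin n → ℂ, G = fun τ => V (s, y + τ • (y' - y)) := ⟨_, rfl⟩
  have hGd : ∀ t ∈ Set.Icc (0 : ℝ) 1, ∀ τ : ℂ, ‖τ‖ ≤ R / (4 * ‖y' - y‖) → DifferentiableAt ℂ G ((t : ℂ) + τ) := by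
    intro t ht τ hτ
    rw [hG]
    have h1 : DifferentiableAt ℂ V (s, y + ((t : ℂ) + τ) • (y' - y)) :=
      hV.differentiableAt (isOpen_ball.mem_nhds (hmem t ht τ hτ))
    refine DifferentiableAt.comp (g := V) (f := fun τ : ℂ => (s, y + τ • (y' - y))) ((t : ℂ) + τ) h1 ?_
    exact (differentiableAt_const s).prodMk ((differentiableAt_const y).add (differentiableAt_id.smul_const _))
  have hGM : ∀ t ∈ Set.Icc (0 : ℝ) 1, ∀ τ : ℂ, ‖τ‖ ≤ R / (4 * ‖y' - y‖) → ‖G ((t : ℂ) + τ)‖ ≤ M := by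
    intro t ht τ hτ
    rw [hG]
    exact hM _ (hmem t ht τ hτ)
  have hder : ∀ t ∈ Set.Icc (0 : ℝ) 1, ‖deriv G (t : ℂ)‖ ≤ 4 * M / R * ‖y' - y‖ := by
    intro t ht
    have h := Complex.norm_deriv_le_of_forall_mem_sphere_norm_le (f := G) (c := (t : ℂ)) (C := M) hρ
      (DifferentiableOn.diffContOnCl (by
        intro z hz
        have hz' := closure_ball_subset_closedBall hz
        rw [mem_closedBall, dist_eq_norm] at hz'
        have := hGd t ht (z - t) hz'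
        rw [add_sub_cancel] at this
        exact this.differentiableWithinAt))
      (by
        intro z hz
        rw [mem_sphere, dist_eq_norm] at hz
        have := hGM t ht (z - t) hz.le
        rwa [add_sub_cancel] at this)
    refine h.trans (le_of_eq ?_)
    field_simp
  have key := norm_image_sub_le_of_norm_deriv_le_segment_01' (f := fun t : ℝ => G (t : ℂ)) (f' := fun t : ℝ => deriv G (t : ℂ))
    (C := 4 * M / R * ‖y' - y‖)
    (fun t ht => by
      have h0 := hGd t ht 0 (by rw [norm_zero]; exact hρ.le)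
      rw [add_zero] at h0
      exact (ode_comp h0.hasDerivAt).hasDerivWithinAt)
    (fun t ht => hder t ⟨ht.1, ht.2.le⟩)
  have e1 : G ((1 : ℝ) : ℂ) = V (s, y') := by
    rw [hG]
    simp
  have e0 : G ((0 : ℝ) : ℂ) = V (s, y) := by
    rw [hG]
    simp
  rw [e1, e0] at key
  exact key

/-- the functions of the iteration -/
private def OdeS {n : ℕ} (s₁ : ℂ) (y₁ : Fin n → ℂ) (ε R : ℝ) : Type :=
  {Y : ℂ → Fin n → ℂ // Y s₁ = y₁ ∧ (∀ s ∈ ball s₁ ε, ‖Y s - y₁‖ ≤ R / 8) ∧ DifferentiableOn ℂ Y (ball s₁ ε)}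

private theorem ode_hol' {n : ℕ} {R M ε : ℝ} (hR : 0 < R) (hM : 0 < M) (hε : 0 < ε) (hεR : ε ≤ R) (hεM : M * ε ≤ R / 8)
    (V : ℂ × (Fin n → ℂ) → Fin n → ℂ) (s₁ : ℂ) (y₁ : Fin n → ℂ) (hV : DifferentiableOn ℂ V (ball (s₁, y₁) R))
    (hVM : ∀ q ∈ ball (s₁, y₁) R, ‖V q‖ ≤ M) :
    ∃ Y : ℂ → Fin n → ℂ, Y s₁ = y₁ ∧ ∀ s ∈ ball s₁ ε, Y s ∈ ball y₁ (R / 2) ∧ HasDerivAt Y (V (s, Y s)) s := by
  have hs₁ : s₁ ∈ ball s₁ ε := mem_ball_self hε
  have hsub : ∀ s ∈ ball s₁ ε, s ∈ ball s₁ R := fun s hs => ball_subset_ball hεR hs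
  have hin : ∀ {s : ℂ} {y : Fin n → ℂ}, s ∈ ball s₁ ε → ‖y - y₁‖ ≤ R / 8 → (s, y) ∈ ball (s₁, y₁) R := by
    intro s y hs hy
    rw [← ball_prod_same]
    refine ⟨hsub s hs, ?_⟩
    rw [mem_ball, dist_eq_norm]
    show ‖y - y₁‖ < R
    linarith
  have hin2 : ∀ {y : Fin n → ℂ}, ‖y - y₁‖ ≤ R / 8 → y ∈ ball y₁ (R / 2) := by
    intro y hy
    rw [mem_ball, dist_eq_norm]
    linarith
  -- mean value inequality on the ball
  have hmv : ∀ (f f' : ℂ → Fin n → ℂ) (C : ℝ), (∀ s ∈ ball s₁ ε, HasDerivAt f (f' s) s) → (∀ s ∈ ball s₁ ε, ‖f' s‖ ≤ C) →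
      ∀ s ∈ ball s₁ ε, ‖f s - f s₁‖ ≤ C * ε := by
    intro f f' C hf hC s hs
    have hC0 : 0 ≤ C := (norm_nonneg _).trans (hC s₁ hs₁)
    have h := (convex_ball s₁ ε).norm_image_sub_le_of_norm_hasDerivWithin_le (𝕜 := ℂ) (f := f) (f' := f')
      (fun x hx => (hf x hx).hasDerivWithinAt) hC hs₁ hs
    rw [mem_ball, dist_eq_norm] at hs
    exact h.trans (mul_le_mul_of_nonneg_left hs.le hC0)
  -- the step
  have hstep : ∀ Y : OdeS s₁ y₁ ε R, ∃ Y' : OdeS s₁ y₁ ε R, ∀ s ∈ ball s₁ ε, HasDerivAt Y'.1 (V (s, Y.1 s)) s := by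
    rintro ⟨Y, hY1, hY2, hY3⟩
    have hd : DifferentiableOn ℂ (fun s => V (s, Y s)) (ball s₁ ε) := by
      refine DifferentiableOn.comp (g := V) (f := fun s => (s, Y s)) (t := ball (s₁, y₁) R) hV
        (differentiableOn_id.prodMk hY3) ?_
      intro s hs
      exact hin hs (hY2 s hs)
    obtain ⟨g, hg1, hg⟩ := (hd.isExactOn_ball).with_val_at s₁ y₁
    refine ⟨⟨g, hg1, ?_, fun s hs => (hg s hs).differentiableAt.differentiableWithinAt⟩, hg⟩
    intro s hs
    have h := hmv g _ M hg (fun s hs => hVM _ (hin hs (hY2 s hs))) s hs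
    rw [hg1] at h
    exact h.trans hεM
  choose T hT using hstep
  obtain ⟨Y, hY0⟩ : ∃ Y : ℕ → OdeS s₁ y₁ ε R, ∀ m, Y (m + 1) = T (Y m) := by
    have h0 : (fun _ : ℂ => y₁) s₁ = y₁ ∧ (∀ s ∈ ball s₁ ε, ‖(fun _ : ℂ => y₁) s - y₁‖ ≤ R / 8) ∧
        DifferentiableOn ℂ (fun _ : ℂ => y₁) (ball s₁ ε) := by
      refine ⟨rfl, fun s _ => ?_, differentiableOn_const _⟩
      show ‖y₁ - y₁‖ ≤ R / 8
      rw [sub_self, norm_zero]
      positivity
    exact ⟨fun m => T^[m] ⟨fun _ => y₁, h0⟩, fun m => Function.iterate_succ_apply' T m _⟩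
  have hder : ∀ m, ∀ s ∈ ball s₁ ε, HasDerivAt (Y (m + 1)).1 (V (s, (Y m).1 s)) s := by
    intro m s hs
    rw [hY0]
    exact hT (Y m) s hs
  have hK : 4 * M / R * ε ≤ 1 / 2 := by
    rw [div_mul_eq_mul_div, div_le_iff₀ hR]
    linarith
  -- geometric convergence
  have hgeo : ∀ m, ∀ s ∈ ball s₁ ε, ‖(Y (m + 1)).1 s - (Y m).1 s‖ ≤ R / 4 * (1 / 2) ^ m := by
    intro m
    induction m with
    | zero =>
      intro s hs
      have h1 := (Y 1).2.2.1 s hs
      have h0 := (Y 0).2.2.1 s hs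
      rw [pow_zero, mul_one]
      have e : (Y (0 + 1)).1 s - (Y 0).1 s = ((Y 1).1 s - y₁) - ((Y 0).1 s - y₁) := by abel_nf
      rw [e]
      refine (norm_sub_le _ _).trans ?_
      linarith
    | succ m ih =>
      intro s hs
      have h := hmv (fun s => (Y (m + 1 + 1)).1 s - (Y (m + 1)).1 s)
        (fun s => V (s, (Y (m + 1)).1 s) - V (s, (Y m).1 s)) (4 * M / R * (R / 4 * (1 / 2) ^ m))
        (fun s hs => (hder (m + 1) s hs).sub (hder m s hs))
        (fun s hs => (ode_lip hR V s₁ y₁ hV hVM (hsub s hs) (hin2 ((Y m).2.2.1 s hs))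
          (hin2 ((Y (m + 1)).2.2.1 s hs))).trans (by
            have := ih s hs
            gcongr)) s hs
      have e : (Y (m + 1 + 1)).1 s₁ - (Y (m + 1)).1 s₁ = 0 := by
        rw [(Y (m + 1 + 1)).2.1, (Y (m + 1)).2.1, sub_self]
      simp only [e, sub_zero] at h
      refine h.trans ?_
      have h2 : 0 ≤ R / 4 * (1 / 2 : ℝ) ^ m := by positivity
      calc 4 * M / R * (R / 4 * (1 / 2) ^ m) * ε = (4 * M / R * ε) * (R / 4 * (1 / 2) ^ m) := by ring
        _ ≤ 1 / 2 * (R / 4 * (1 / 2) ^ m) := mul_le_mul_of_nonneg_right hK h2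
        _ = R / 4 * (1 / 2) ^ (m + 1) := by ring
  have hdist : ∀ s ∈ ball s₁ ε, ∀ m, dist ((Y m).1 s) ((Y (m + 1)).1 s) ≤ R / 4 * (1 / 2) ^ m := by
    intro s hs m
    rw [dist_comm, dist_eq_norm]
    exact hgeo m s hs
  have hlim : ∀ s : ℂ, ∃ y : Fin n → ℂ, s ∈ ball s₁ ε → Tendsto (fun m => (Y m).1 s) atTop (𝓝 y) := by
    intro s
    by_cases hs : s ∈ ball s₁ ε
    · obtain ⟨y, hy⟩ := cauchySeq_tendsto_of_complete (cauchySeq_of_le_geometric (1 / 2) (R / 4) (by norm_num) (hdist s hs))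
      exact ⟨y, fun _ => hy⟩
    · exact ⟨0, fun h => absurd h hs⟩
  choose Z hZ using hlim
  have hrate : ∀ s ∈ ball s₁ ε, ∀ m, ‖(Y m).1 s - Z s‖ ≤ R / 2 * (1 / 2) ^ m := by
    intro s hs m
    have h := dist_le_of_le_geometric_of_tendsto (1 / 2) (R / 4) (by norm_num) (hdist s hs) (hZ s hs) m
    rw [dist_eq_norm] at h
    refine h.trans (le_of_eq ?_)
    ring
  have hZb : ∀ s ∈ ball s₁ ε, ‖Z s - y₁‖ ≤ R / 8 := by
    intro s hs
    have h : Tendsto (fun m => ‖(Y m).1 s - y₁‖) atTop (𝓝 ‖Z s - y₁‖) := ((hZ s hs).sub_const y₁).norm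
    exact le_of_tendsto' h fun m => (Y m).2.2.1 s hs
  have hZ1 : Z s₁ = y₁ := by
    have h := hZ s₁ hs₁
    have e : (fun m => (Y m).1 s₁) = fun _ => y₁ := by
      funext m
      exact (Y m).2.1
    rw [e] at h
    exact tendsto_nhds_unique h tendsto_const_nhds
  refine ⟨Z, hZ1, fun s hs => ⟨hin2 (hZb s hs), ?_⟩⟩
  refine hasDerivAt_of_tendstoUniformlyOn (l := atTop) (f := fun m s => (Y (m + 1)).1 s)
    (f' := fun m s => V (s, (Y m).1 s)) (g' := fun s => V (s, Z s)) (s := ball s₁ ε) isOpen_ball ?_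
    (Eventually.of_forall fun m s hs => hder m s hs) (fun s hs => (tendsto_add_atTop_iff_nat 1).2 (hZ s hs)) hs
  rw [Metric.tendstoUniformlyOn_iff]
  intro η hη
  have h0 : Tendsto (fun m : ℕ => 4 * M / R * (R / 2 * (1 / 2 : ℝ) ^ m)) atTop (𝓝 (4 * M / R * (R / 2 * 0))) :=
    ((tendsto_pow_atTop_nhds_zero_of_lt_one (by norm_num) (by norm_num)).const_mul _).const_mul _
  rw [mul_zero, mul_zero] at h0
  filter_upwards [h0.eventually_lt_const hη] with m hm s hs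
  rw [dist_eq_norm, norm_sub_rev]
  refine lt_of_le_of_lt ((ode_lip hR V s₁ y₁ hV hVM (hsub s hs) (hin2 (hZb s hs)) (hin2 ((Y m).2.2.1 s hs))).trans ?_) hm
  have := hrate s hs m
  gcongr

/-- the holomorphic solution of the initial value problem -/
theorem ode_hol {n : ℕ} {R M : ℝ} (hR : 0 < R) (hM : 0 < M) :
    ∃ ε : ℝ, 0 < ε ∧ ε ≤ R ∧ ∀ (V : ℂ × (Fin n → ℂ) → Fin n → ℂ) (s₁ : ℂ) (y₁ : Fin n → ℂ), DifferentiableOn ℂ V (ball (s₁, y₁) R) →
      (∀ q ∈ ball (s₁, y₁) R, ‖V q‖ ≤ M) →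
      ∃ Y : ℂ → Fin n → ℂ, Y s₁ = y₁ ∧ ∀ s ∈ ball s₁ ε, Y s ∈ ball y₁ (R / 2) ∧ HasDerivAt Y (V (s, Y s)) s := by
  have h1 : 0 < R / (8 * M) := by positivity
  refine ⟨min R (R / (8 * M)), lt_min hR h1, min_le_left _ _, fun V s₁ y₁ hV hVM => ?_⟩
  refine ode_hol' hR hM (lt_min hR h1) (min_le_left _ _) ?_ V s₁ y₁ hV hVM
  calc M * min R (R / (8 * M)) ≤ M * (R / (8 * M)) := mul_le_mul_of_nonneg_left (min_le_right _ _) hM.le
    _ = R / 8 := by field_simp

end Pool.Agent.G3.C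

end

section

/-!
# CV EllB: the Weierstrass normal form

`normal_form`: `v₁ = v - (a u + b) / 2`: `v₁² = c u³ + (d + a² / 4) u² + (e + a b / 2) u + (f + b² / 4)`.  Let `s` with `c s³ = 4` (`IsAlgClosed`), `r = - (d + a² / 4) / (3 c)`, `u₁ = (u - r) / s`:
`v₁² = 4 u₁³ - α u₁ - β` for some `α, β`.  `ℂ(u₁, v₁) = ℂ(u, v)`, `ℂ(u₁) = ℂ(u)`, `v₁ ∉ ℂ(u)`.
`singular_rational`: let `α³ = 27 β²`.  There is `ρ` with `12 ρ² = α`, `- 8 ρ³ = β` (take `ρ² = α / 12`; then `(8 ρ³)² = α³ / 27 = β²`, change the sign of `ρ` if necessary).  Then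
`4 u³ - α u - β = 4 (u - ρ)² (u + 2 ρ)`.  `u ≠ ρ` (`u` is transcendental).  `t = v / (u - ρ)`: `t² = 4 (u + 2 ρ)`, so `u = t² / 4 - 2 ρ ∈ ℂ(t)` and `v = t (u - ρ) ∈ ℂ(t)`.
-/

set_option autoImplicit false

noncomputable section

namespace Pool.Agent.H13.CV

variable {K : Type} [Field K] [Algebra ℂ K]

theorem normal_form {u v : K} {c a d b e f : ℂ} (hc : c ≠ 0)
    (h : v ^ 2 = algebraMap ℂ K c * u ^ 3 + algebraMap ℂ K a * (u * v) + algebraMap ℂ K d * u ^ 2 + algebraMap ℂ K b * v +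
      algebraMap ℂ K e * u + algebraMap ℂ K f) (hu : Transcendental ℂ u) (huv : IntermediateField.adjoin ℂ {u, v} = ⊤) (hvu : v ∉ IntermediateField.adjoin ℂ {u}) :
    ∃ (u' v' : K) (α β : ℂ), v' ^ 2 = 4 * u' ^ 3 - algebraMap ℂ K α * u' - algebraMap ℂ K β ∧ Transcendental ℂ u' ∧
      IntermediateField.adjoin ℂ {u', v'} = ⊤ ∧ v' ∉ IntermediateField.adjoin ℂ {u'} := by
  obtain ⟨s, hs⟩ := IsAlgClosed.exists_pow_nat_eq (4 / c) (n := 3) (by norm_num)
  have hs0 : s ≠ 0 := by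
    rintro rfl
    have : (4 : ℂ) / c ≠ 0 := div_ne_zero (by norm_num) hc
    apply this
    rw [← hs]
    norm_num
  have hcs : c * s ^ 3 = 4 := by
    rw [hs]
    field_simp
  set r : ℂ := -(d + a ^ 2 / 4) / (3 * c) with hr
  have hr' : 3 * c * r = -(d + a ^ 2 / 4) := by
    rw [hr]
    field_simp
  haveI : CharZero K := charZero_of_injective_algebraMap (algebraMap ℂ K).injective
  set C := algebraMap ℂ K with hC
  have c2 : C 2 = 2 := map_ofNat C 2
  have c3 : C 3 = 3 := map_ofNat C 3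
  have c4 : C 4 = 4 := map_ofNat C 4
  have hCs0 : C s ≠ 0 := by
    rw [hC]
    exact (map_ne_zero (algebraMap ℂ K)).2 hs0
  have hcsK : C c * C s ^ 3 = 4 := by
    rw [← map_pow, ← map_mul, hcs]
    exact map_ofNat C 4
  have hrK : 3 * C c * C r = -(C d + C a ^ 2 / 4) := by
    have := congrArg C hr'
    simpa [c2, c3, c4] using this
  set u' : K := (u - C r) / C s with hu'
  have hu2 : u = C s * u' + C r := by
    rw [hu']
    field_simp
    ring
  set v' : K := v - (C a * u + C b) / 2 with hv'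
  have hv2 : v = v' + (C a * u + C b) / 2 := by
    rw [hv']
    ring
  have hmem : ∀ (L : IntermediateField ℂ K) (z : ℂ), C z ∈ L := fun L z => L.algebraMap_mem z
  have h2mem : ∀ (L : IntermediateField ℂ K), (2 : K) ∈ L := fun L => by
    have := hmem L 2
    rwa [hC, map_ofNat] at this
  have hvu2 : ∀ L : IntermediateField ℂ K, u ∈ L → v' ∈ L → v ∈ L := fun L h1 h2 => by
    rw [hv2]
    exact L.add_mem h2 (L.div_mem (L.add_mem (L.mul_mem (hmem L a) h1) (hmem L b)) (h2mem L))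
  have huL : ∀ L : IntermediateField ℂ K, u' ∈ L → u ∈ L := fun L h1 => by
    rw [hu2]
    exact L.add_mem (L.mul_mem (hmem L s) h1) (hmem L r)
  refine ⟨u', v', 3 * c * s * r ^ 2 - (e + a * b / 2) * s,
    -(c * r ^ 3 + (d + a ^ 2 / 4) * r ^ 2 + (e + a * b / 2) * r + (f + b ^ 2 / 4)), ?_, ?_, ?_, ?_⟩
  · have e1 : v' ^ 2 = C c * u ^ 3 + (C d + C a ^ 2 / 4) * u ^ 2 + (C e + C a * C b / 2) * u + (C f + C b ^ 2 / 4) := by
      rw [hv']
      linear_combination h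
    have e2 : C (3 * c * s * r ^ 2 - (e + a * b / 2) * s) = 3 * C c * C s * C r ^ 2 - (C e + C a * C b / 2) * C s := by
      simp [c2, c3]
    have e3 : C (-(c * r ^ 3 + (d + a ^ 2 / 4) * r ^ 2 + (e + a * b / 2) * r + (f + b ^ 2 / 4))) =
        -(C c * C r ^ 3 + (C d + C a ^ 2 / 4) * C r ^ 2 + (C e + C a * C b / 2) * C r + (C f + C b ^ 2 / 4)) := by
      simp [c2, c4]
    rw [e2, e3, e1, hu2]
    linear_combination u' ^ 3 * hcsK + (C s ^ 2 * u' ^ 2 + 2 * C s * C r * u') * hrK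
  · intro hal
    apply hu
    rw [hu2]
    exact ((isAlgebraic_algebraMap s).mul hal).add (isAlgebraic_algebraMap r)
  · rw [eq_top_iff, ← huv, IntermediateField.adjoin_le_iff]
    have m1 : u' ∈ IntermediateField.adjoin ℂ {u', v'} := IntermediateField.subset_adjoin ℂ _ (by simp)
    have m2 : v' ∈ IntermediateField.adjoin ℂ {u', v'} := IntermediateField.subset_adjoin ℂ _ (by simp)
    rintro z hz
    rcases hz with rfl | hz
    · exact huL _ m1
    · rw [Set.mem_singleton_iff] at hz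
      rw [hz]
      exact hvu2 _ (huL _ m1) m2
  · intro hv3
    apply hvu
    have m1 : u ∈ IntermediateField.adjoin ℂ {u} := IntermediateField.mem_adjoin_simple_self ℂ u
    have m2 : u' ∈ IntermediateField.adjoin ℂ {u} := by
      rw [hu']
      exact div_mem (sub_mem m1 (hmem _ r)) (hmem _ s)
    have m3 : IntermediateField.adjoin ℂ {u'} ≤ IntermediateField.adjoin ℂ {u} := by
      rw [IntermediateField.adjoin_simple_le_iff]
      exact m2
    exact hvu2 _ m1 (m3 hv3)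

theorem singular_rational {u v : K} {α β : ℂ} (h : v ^ 2 = 4 * u ^ 3 - algebraMap ℂ K α * u - algebraMap ℂ K β) (hu : Transcendental ℂ u)
    (huv : IntermediateField.adjoin ℂ {u, v} = ⊤) (hd : α ^ 3 = 27 * β ^ 2) : ∃ t : K, IntermediateField.adjoin ℂ {t} = ⊤ := by
  obtain ⟨ρ, h1, h2⟩ : ∃ ρ : ℂ, 12 * ρ ^ 2 = α ∧ -8 * ρ ^ 3 = β := by
    obtain ⟨ρ, hρ⟩ := IsAlgClosed.exists_pow_nat_eq (α / 12) (n := 2) (by norm_num)
    have h12 : 12 * ρ ^ 2 = α := by
      rw [hρ]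
      ring
    have h3 : (8 * ρ ^ 3 - β) * (8 * ρ ^ 3 + β) = 0 := by
      have : 27 * ((8 * ρ ^ 3 - β) * (8 * ρ ^ 3 + β)) = 0 := by
        have e : α ^ 3 = (12 * ρ ^ 2) ^ 3 := by rw [h12]
        rw [hd] at e
        linear_combination -e
      exact (mul_eq_zero.1 this).resolve_left (by norm_num)
    rcases mul_eq_zero.1 h3 with h4 | h4
    · exact ⟨-ρ, by linear_combination h12, by linear_combination h4⟩
    · exact ⟨ρ, h12, by linear_combination -h4⟩
  haveI : CharZero K := charZero_of_injective_algebraMap (algebraMap ℂ K).injective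
  set C := algebraMap ℂ K with hC
  have c12 : C 12 = 12 := map_ofNat C 12
  have c8 : C 8 = 8 := map_ofNat C 8
  have e1 : C α = 12 * C ρ ^ 2 := by
    rw [← h1]
    simp [c12]
  have e2 : C β = -8 * C ρ ^ 3 := by
    rw [← h2]
    simp [c8]
  have hne : u - C ρ ≠ 0 := by
    intro h0
    apply hu
    rw [sub_eq_zero.1 h0]
    exact isAlgebraic_algebraMap ρ
  set t : K := v / (u - C ρ) with ht
  have hvt : v = t * (u - C ρ) := by
    rw [ht]
    field_simp
  have ht2 : t ^ 2 = 4 * (u + 2 * C ρ) := by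
    have h5 : (u - C ρ) ^ 2 * (t ^ 2 - 4 * (u + 2 * C ρ)) = 0 := by
      rw [e1, e2, hvt] at h
      linear_combination h
    exact sub_eq_zero.1 ((mul_eq_zero.1 h5).resolve_left (pow_ne_zero 2 hne))
  have hut : u = t ^ 2 / 4 - 2 * C ρ := by
    rw [ht2]
    ring
  refine ⟨t, ?_⟩
  rw [eq_top_iff, ← huv, IntermediateField.adjoin_le_iff]
  have m1 : t ∈ IntermediateField.adjoin ℂ {t} := IntermediateField.mem_adjoin_simple_self ℂ t
  have hmem : ∀ z : ℂ, C z ∈ IntermediateField.adjoin ℂ {t} := fun z => (IntermediateField.adjoin ℂ {t}).algebraMap_mem z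
  have m4 : (4 : K) ∈ IntermediateField.adjoin ℂ {t} := by
    have := hmem 4
    rwa [hC, map_ofNat] at this
  have m2 : (2 : K) ∈ IntermediateField.adjoin ℂ {t} := by
    have := hmem 2
    rwa [hC, map_ofNat] at this
  have mu : u ∈ IntermediateField.adjoin ℂ {t} := by
    rw [hut]
    exact sub_mem (div_mem (pow_mem m1 2) m4) (mul_mem m2 (hmem ρ))
  have mv : v ∈ IntermediateField.adjoin ℂ {t} := by
    rw [hvt]
    exact mul_mem m1 (sub_mem mu (hmem ρ))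
  rintro z hz
  rcases hz with rfl | hz
  · exact mu
  · rw [Set.mem_singleton_iff] at hz
    rw [hz]
    exact mv

end Pool.Agent.H13.CV

end
end

section

/-!
# The nodal case
-/

open Topology Filter

noncomputable section

namespace Pool.Agent.H17BP

variable {V : Type} [NormedAddCommGroup V] [NormedSpace ℂ V]

/-- the family of equations as one function -/
def Nodal_Q {κ : Type} [Fintype κ] (Q : κ → V → ℂ) (x : V) : EuclideanSpace ℂ κ := WithLp.toLp 2 fun i => Q i x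

end Pool.Agent.H17BP

end
end

section

/-!
# KR CB1: a jointly analytic function as an analytic family of functions on a compact set

`S ⊆ ℂ` compact, `f : ℂ × ℂ → ℂ` analytic at all points `(0, ζ)`, `ζ ∈ S`.  Then `x ↦ f (x, ·)` is an analytic map
from a neighbourhood of `0` into the Banach space `C(S, ℂ)`.

Proof.  By compactness of `S` (tube lemma: `generalized_tube_lemma` or `IsCompact.induction_on`/finite cover, the set
`{p | AnalyticAt ℂ f p}` is open: `isOpen_analyticAt`) there is `r > 0` such that `f` is analytic at all `(x, ζ)` with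
`|x| < 2 r`, `ζ ∈ S`.  Put `Φ x = ⟨fun ζ => f (x, ζ), _⟩` for `|x| < 2 r` (continuous), `0` otherwise, and in the same
way `Ψ x ζ = ∂f/∂x (x, ζ) = fderiv ℂ f (x, ζ) (1, 0)`.  It is enough (`DifferentiableOn.analyticAt`, one complex
variable, Banach space valued) to prove `HasDerivAt Φ (Ψ x) x` for `|x| < r`.  Let `ε > 0`.  `∂f/∂x` is uniformly
continuous on the compact set `closedBall 0 r ×ˢ S`, moreover continuous near it; choose `δ` such that
`‖∂f/∂x (x + h, ζ) - ∂f/∂x (x, ζ)‖ ≤ ε` for `|h| ≤ δ` and all `ζ ∈ S` (`|x + h| < 2 r`; take the compact set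
`closedBall x δ₀ ×ˢ S`, `IsCompact.uniformContinuousOn_of_continuous`).  The function
`g (s) = f (s, ζ) - s * ∂f/∂x (x, ζ)` has `‖g' (s)‖ ≤ ε` for `|s - x| ≤ δ`, so by the mean value inequality
(`Convex.norm_image_sub_le_of_norm_hasDerivWithin_le`, `convex_ball`)
`‖f (x + h, ζ) - f (x, ζ) - h ∂f/∂x (x, ζ)‖ ≤ ε |h|` for all `ζ ∈ S` and `|h| < δ`, that is
`‖Φ (x + h) - Φ x - h • Ψ x‖ ≤ ε |h|` (`ContinuousMap.norm_le`), which is `hasDerivAt_iff_isLittleO` /
`hasDerivAt_iff_isLittleO_nhds_zero`.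

(Another possible proof: composition with `f` is an analytic map `C(S, ℂ × ℂ) → C(S, ℂ)`.)
-/

set_option autoImplicit false

open Topology Filter Metric

noncomputable section

namespace Pool.Agent.H68.KR

open scoped Classical in
/-- The restriction of a function to `S` as a continuous map (`0` if it is not continuous). -/
private def CB1_restr (S : Set ℂ) (g : ℂ → ℂ) : C(S, ℂ) :=
  if h : Continuous fun ζ : S => g (ζ : ℂ) then ⟨fun ζ : S => g (ζ : ℂ), h⟩ else 0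

private theorem CB1_restr_apply {S : Set ℂ} {g : ℂ → ℂ} (h : ∀ ζ ∈ S, ContinuousAt g ζ) (ζ : S) :
    CB1_restr S g ζ = g (ζ : ℂ) := by
  have h1 : Continuous fun ζ : S => g (ζ : ℂ) := by
    rw [continuous_iff_continuousAt]
    intro z
    exact ContinuousAt.comp (h z z.2) continuous_subtype_val.continuousAt
  rw [CB1_restr, dif_pos h1]
  rfl

private theorem CB1_hasDerivAt {f : ℂ × ℂ → ℂ} {x ζ : ℂ} (h : AnalyticAt ℂ f (x, ζ)) :
    HasDerivAt (fun s => f (s, ζ)) (fderiv ℂ f (x, ζ) (1, 0)) x := by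
  have h1 : HasDerivAt (fun s : ℂ => (s, ζ)) ((1 : ℂ), (0 : ℂ)) x :=
    (hasDerivAt_id x).prodMk (hasDerivAt_const x ζ)
  have h2 : HasFDerivAt f (fderiv ℂ f (x, ζ)) (x, ζ) := h.differentiableAt.hasFDerivAt
  exact h2.comp_hasDerivAt x h1

private theorem CB1_continuousAt {f : ℂ × ℂ → ℂ} {p : ℂ × ℂ} (h : AnalyticAt ℂ f p) :
    ContinuousAt (fun q : ℂ × ℂ => fderiv ℂ f q (1, 0)) p := by
  have h1 : ContinuousAt (fderiv ℂ f) p := h.fderiv.continuousAt
  exact h1.clm_apply continuousAt_const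

private theorem CB1_deriv {S : Set ℂ} (hS : IsCompact S) [CompactSpace S] {f : ℂ × ℂ → ℂ} {x : ℂ}
    (hx : ∀ ζ ∈ S, AnalyticAt ℂ f (x, ζ)) :
    HasDerivAt (fun s : ℂ => CB1_restr S fun ζ => f (s, ζ))
      (CB1_restr S fun ζ => fderiv ℂ f (x, ζ) (1, 0)) x := by
  have hcont : ∀ y : ℂ, (∀ ζ ∈ S, AnalyticAt ℂ f (y, ζ)) → ∀ ζ ∈ S,
      ContinuousAt (fun z => f (y, z)) ζ := by
    intro y hy ζ hζ
    exact ContinuousAt.comp (f := fun z : ℂ => (y, z)) (hy ζ hζ).continuousAt (by fun_prop)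
  have hcont' : ∀ ζ ∈ S, ContinuousAt (fun z => fderiv ℂ f (x, z) (1, 0)) ζ := by
    intro ζ hζ
    exact ContinuousAt.comp (f := fun z : ℂ => (x, z)) (CB1_continuousAt (hx ζ hζ)) (by fun_prop)
  rw [hasDerivAt_iff_isLittleO, Asymptotics.isLittleO_iff]
  intro c hc
  have h1 : ∀ᶠ y in 𝓝 x, ∀ ζ ∈ S, AnalyticAt ℂ f (y, ζ) :=
    hS.eventually_forall_of_forall_eventually fun ζ hζ => (hx ζ hζ).eventually_analyticAt
  have h2 : ∀ᶠ y in 𝓝 x, ∀ ζ ∈ S,
      ‖fderiv ℂ f (y, ζ) (1, 0) - fderiv ℂ f (x, ζ) (1, 0)‖ < c := by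
    refine hS.eventually_forall_of_forall_eventually
      (P := fun y ζ => ‖fderiv ℂ f (y, ζ) (1, 0) - fderiv ℂ f (x, ζ) (1, 0)‖ < c) fun ζ hζ => ?_
    have h3 : ContinuousAt (fun q : ℂ × ℂ => fderiv ℂ f (q.1, q.2) (1, 0)) (x, ζ) :=
      CB1_continuousAt (hx ζ hζ)
    have h4 : ContinuousAt (fun q : ℂ × ℂ => fderiv ℂ f (x, q.2) (1, 0)) (x, ζ) :=
      ContinuousAt.comp (f := fun q : ℂ × ℂ => (x, q.2))
        (g := fun q : ℂ × ℂ => fderiv ℂ f q (1, 0)) (CB1_continuousAt (hx ζ hζ)) (by fun_prop)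
    have h5 := (h3.sub h4).norm
    refine h5.eventually_lt continuousAt_const ?_
    simpa using hc
  obtain ⟨δ, hδ, hb⟩ := Metric.eventually_nhds_iff_ball.1 (h1.and h2)
  filter_upwards [Metric.ball_mem_nhds x hδ] with y hy
  rw [ContinuousMap.norm_le _ (by positivity)]
  intro ζ
  have h6 : ∀ s ∈ Metric.ball x δ, HasDerivWithinAt
      (fun s => f (s, (ζ : ℂ)) - s * fderiv ℂ f (x, (ζ : ℂ)) (1, 0))
      (fderiv ℂ f (s, (ζ : ℂ)) (1, 0) - fderiv ℂ f (x, (ζ : ℂ)) (1, 0)) (Metric.ball x δ) s := by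
    intro s hs
    have h7 := CB1_hasDerivAt ((hb s hs).1 ζ ζ.2)
    have h8 : HasDerivAt (fun s : ℂ => s * fderiv ℂ f (x, (ζ : ℂ)) (1, 0))
        (1 * fderiv ℂ f (x, (ζ : ℂ)) (1, 0)) s := (hasDerivAt_id s).mul_const _
    rw [one_mul] at h8
    exact (h7.sub h8).hasDerivWithinAt
  have h9 := (convex_ball x δ).norm_image_sub_le_of_norm_hasDerivWithin_le h6
    (fun s hs => ((hb s hs).2 ζ ζ.2).le) (Metric.mem_ball_self hδ) hy
  have h10 : (CB1_restr S (fun ζ => f (y, ζ)) - CB1_restr S (fun ζ => f (x, ζ)) -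
      (y - x) • CB1_restr S fun ζ => fderiv ℂ f (x, ζ) (1, 0)) ζ =
      f (y, (ζ : ℂ)) - y * fderiv ℂ f (x, (ζ : ℂ)) (1, 0) -
        (f (x, (ζ : ℂ)) - x * fderiv ℂ f (x, (ζ : ℂ)) (1, 0)) := by
    rw [ContinuousMap.sub_apply, ContinuousMap.sub_apply, ContinuousMap.smul_apply,
      CB1_restr_apply (hcont y (hb y hy).1), CB1_restr_apply (hcont x hx),
      CB1_restr_apply hcont', smul_eq_mul]
    ring
  rw [h10]
  exact h9

theorem exists_family {S : Set ℂ} (hS : IsCompact S) [CompactSpace S] {f : ℂ × ℂ → ℂ}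
    (hf : ∀ ζ ∈ S, AnalyticAt ℂ f (0, ζ)) :
    ∃ Φ : ℂ → C(S, ℂ), AnalyticAt ℂ Φ 0 ∧ ∀ᶠ x in 𝓝 (0 : ℂ), ∀ ζ : S, Φ x ζ = f (x, (ζ : ℂ)) := by
  have h1 : ∀ᶠ y in 𝓝 (0 : ℂ), ∀ ζ ∈ S, AnalyticAt ℂ f (y, ζ) :=
    hS.eventually_forall_of_forall_eventually fun ζ hζ => (hf ζ hζ).eventually_analyticAt
  refine ⟨fun s : ℂ => CB1_restr S fun ζ => f (s, ζ), ?_, ?_⟩
  · rw [Complex.analyticAt_iff_eventually_differentiableAt]
    filter_upwards [h1] with y hy
    exact (CB1_deriv hS hy).differentiableAt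
  · filter_upwards [h1] with y hy ζ
    refine CB1_restr_apply (g := fun z => f (y, z)) (fun z hz => ?_) ζ
    exact ContinuousAt.comp (f := fun z : ℂ => (y, z)) (hy z hz).continuousAt (by fun_prop)

end Pool.Agent.H68.KR

end
end

section

/-!
# KR CB2: Cauchy's integral with an analytic parameter

`A, B` are analytic at the points `(0, ζ)`, `|ζ| = ρ`, and `B (0, ζ) ≠ 0` there.  Let `S = sphere 0 ρ` (compact).

* `exists_functional`: `I g = (2πi)⁻¹ ∮ g (ζ) dζ` is a continuous linear functional of `C(S, ℂ)`: it is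
  `(2πi)⁻¹ • ∫ θ in 0..2π, deriv (circleMap 0 ρ) θ * g (circleMap 0 ρ θ)` with `circleMap 0 ρ θ ∈ S`
  (`circleMap_mem_sphere`), linear, and of norm `≤ ρ` (`intervalIntegral.norm_integral_le_of_norm_le_const`),
  `LinearMap.mkContinuous`.  For `h : ℂ → ℂ` with `g ζ = h ζ` on `S`: `I g = (2πi)⁻¹ ∮ h`.
* `exists_kernel`: for `|y₀| < ρ` there is `κ : ℂ → C(S, ℂ)` analytic at `y₀` with `κ y ζ = (ζ - y)⁻¹` for `y` near
  `y₀`: `κ y = Ring.inverse (ι - y • 1)` with `ι ζ = ζ`; `ι - y₀ • 1` is a unit of the Banach algebra `C(S, ℂ)`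
  (no zero: `ContinuousMap.isUnit_iff_forall_ne_zero`), `analyticAt_inverse`, and `Ring.inverse` of a unit is the
  pointwise inverse.
* `exists_cauchy`: `𝓐, 𝓑 : ℂ → C(S, ℂ)` from `exists_family`, `𝓑 0` is a unit, so `x ↦ Ring.inverse (𝓑 x)` is analytic
  at `0`, with the values `1 / B (x, ζ)` for `x` near `0` (units are open).  One fixed function
  `κ y = Ring.inverse (ι - y • 1)`.  `Φ (x, y) = I (𝓐 x * Ring.inverse (𝓑 x) * κ y)` is analytic at `(0, y)` for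
  `|y| < ρ` (compositions with `Prod.fst`, `Prod.snd`, product in a Banach algebra, continuous linear `I`).
  If `A (x, ζ) = B (x, ζ) q (ζ)` on `S`, then the function in `I` is `ζ ↦ q ζ / (ζ - y)`, so `Φ (x, y) = q y` by
  Cauchy's formula (`DiffContOnCl.two_pi_i_inv_smul_circleIntegral_sub_inv_smul` or
  `Complex.two_pi_I_inv_smul_circleIntegral_sub_inv_smul_of_differentiable_on_off_countable`).
-/

set_option autoImplicit false

open Topology Filter Metric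

noncomputable section

namespace Pool.Agent.H68.KR

private theorem CB2_inverse_apply {S : Set ℂ} [CompactSpace S] {u : C(S, ℂ)} (hu : IsUnit u) (ζ : S) :
    Ring.inverse u ζ = (u ζ)⁻¹ := by
  have h1 : Ring.inverse u * u = 1 := Ring.inverse_mul_cancel u hu
  have h2 : Ring.inverse u ζ * u ζ = 1 := by
    have h3 := DFunLike.congr_fun h1 ζ
    simpa using h3
  exact eq_inv_of_mul_eq_one_left h2

private theorem CB2_exists_functional {ρ : ℝ} (hρ : 0 < ρ) [CompactSpace (sphere (0 : ℂ) ρ)] :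
    ∃ J : C(sphere (0 : ℂ) ρ, ℂ) →L[ℂ] ℂ, ∀ (g : C(sphere (0 : ℂ) ρ, ℂ)) (h : ℂ → ℂ),
      (∀ ζ : sphere (0 : ℂ) ρ, g ζ = h ζ) →
      J g = (2 * Real.pi * Complex.I : ℂ)⁻¹ • ∮ ζ in C(0, ρ), h ζ := by
  set c : ℝ → sphere (0 : ℂ) ρ := fun θ => ⟨circleMap 0 ρ θ, circleMap_mem_sphere 0 hρ.le θ⟩ with hc
  have hcc : Continuous c := (continuous_circleMap 0 ρ).subtype_mk _
  have hdc : Continuous fun θ => deriv (circleMap 0 ρ) θ := by
    simp only [deriv_circleMap]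
    exact (continuous_circleMap 0 ρ).mul continuous_const
  have hint : ∀ g : C(sphere (0 : ℂ) ρ, ℂ), IntervalIntegrable
      (fun θ => deriv (circleMap 0 ρ) θ • g (c θ)) MeasureTheory.volume 0 (2 * Real.pi) := fun g =>
    (hdc.smul (g.continuous.comp hcc)).intervalIntegrable _ _
  set L : C(sphere (0 : ℂ) ρ, ℂ) →ₗ[ℂ] ℂ :=
    { toFun := fun g => ∫ θ in (0 : ℝ)..2 * Real.pi, deriv (circleMap 0 ρ) θ • g (c θ)
      map_add' := fun g g' => by
        rw [← intervalIntegral.integral_add (hint g) (hint g')]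
        refine intervalIntegral.integral_congr fun θ _ => ?_
        simp only [ContinuousMap.add_apply, smul_add]
      map_smul' := fun a g => by
        rw [RingHom.id_apply, ← intervalIntegral.integral_smul]
        refine intervalIntegral.integral_congr fun θ _ => ?_
        simp only [ContinuousMap.smul_apply, smul_eq_mul]
        ring } with hL
  have hbd : ∀ g, ‖L g‖ ≤ (ρ * |2 * Real.pi - 0|) * ‖g‖ := by
    intro g
    have h1 : ‖∫ θ in (0 : ℝ)..2 * Real.pi, deriv (circleMap 0 ρ) θ • g (c θ)‖ ≤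
        (ρ * ‖g‖) * |2 * Real.pi - 0| := by
      refine intervalIntegral.norm_integral_le_of_norm_le_const fun θ _ => ?_
      rw [norm_smul, deriv_circleMap, norm_mul, Complex.norm_I, mul_one, norm_circleMap_zero,
        abs_of_pos hρ]
      exact mul_le_mul_of_nonneg_left (g.norm_coe_le_norm _) hρ.le
    have h2 : (ρ * |2 * Real.pi - 0|) * ‖g‖ = (ρ * ‖g‖) * |2 * Real.pi - 0| := by ring
    rw [h2]
    exact h1
  refine ⟨(2 * Real.pi * Complex.I : ℂ)⁻¹ • L.mkContinuous _ hbd, fun g h hgh => ?_⟩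
  have h1 : L g = ∮ ζ in C(0, ρ), h ζ := by
    show (∫ θ in (0 : ℝ)..2 * Real.pi, deriv (circleMap 0 ρ) θ • g (c θ)) = _
    unfold circleIntegral
    refine intervalIntegral.integral_congr fun θ _ => ?_
    exact congrArg (fun w => deriv (circleMap 0 ρ) θ • w) (hgh (c θ))
  rw [_root_.smul_apply, LinearMap.mkContinuous_apply, h1]

theorem exists_cauchy {ρ : ℝ} (hρ : 0 < ρ) {A B : ℂ × ℂ → ℂ}
    (hA : ∀ ζ ∈ sphere (0 : ℂ) ρ, AnalyticAt ℂ A (0, ζ))
    (hB : ∀ ζ ∈ sphere (0 : ℂ) ρ, AnalyticAt ℂ B (0, ζ))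
    (hB0 : ∀ ζ ∈ sphere (0 : ℂ) ρ, B (0, ζ) ≠ 0) :
    ∃ Φ : ℂ × ℂ → ℂ, (∀ y ∈ ball (0 : ℂ) ρ, AnalyticAt ℂ Φ (0, y)) ∧
      ∀ᶠ x in 𝓝 (0 : ℂ), ∀ q : ℂ → ℂ, (∀ y ∈ closedBall (0 : ℂ) ρ, AnalyticAt ℂ q y) →
        (∀ y ∈ sphere (0 : ℂ) ρ, A (x, y) = B (x, y) * q y) →
        ∀ y ∈ ball (0 : ℂ) ρ, Φ (x, y) = q y := by
  haveI hcs : CompactSpace (sphere (0 : ℂ) ρ) := isCompact_iff_compactSpace.1 (isCompact_sphere _ _)
  obtain ⟨J, hJ⟩ := CB2_exists_functional hρ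
  obtain ⟨𝓐, hA1, hA2⟩ := exists_family (isCompact_sphere (0 : ℂ) ρ) hA
  obtain ⟨𝓑, hB1, hB2⟩ := exists_family (isCompact_sphere (0 : ℂ) ρ) hB
  set ι : C(sphere (0 : ℂ) ρ, ℂ) := ⟨fun ζ => (ζ : ℂ), continuous_subtype_val⟩ with hι
  have hunit : IsUnit (𝓑 0) := by
    rw [ContinuousMap.isUnit_iff_forall_ne_zero]
    intro ζ
    rw [hB2.self_of_nhds ζ]
    exact hB0 _ ζ.2
  have hκunit : ∀ y ∈ ball (0 : ℂ) ρ, IsUnit (ι - y • (1 : C(sphere (0 : ℂ) ρ, ℂ))) := by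
    intro y hy
    rw [ContinuousMap.isUnit_iff_forall_ne_zero]
    intro ζ h0
    have h1 : (ζ : ℂ) - y = 0 := by
      have h2 : (ι - y • (1 : C(sphere (0 : ℂ) ρ, ℂ))) ζ = (ζ : ℂ) - y := by
        simp [hι]
      rw [← h2]
      exact h0
    have h3 : (ζ : ℂ) = y := sub_eq_zero.1 h1
    have h4 : ‖(ζ : ℂ)‖ = ρ := mem_sphere_zero_iff_norm.1 ζ.2
    have h5 : ‖y‖ < ρ := mem_ball_zero_iff.1 hy
    rw [h3] at h4
    linarith
  refine ⟨fun p => J (𝓐 p.1 * Ring.inverse (𝓑 p.1) *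
    Ring.inverse (ι - p.2 • (1 : C(sphere (0 : ℂ) ρ, ℂ)))), ?_, ?_⟩
  · intro y hy
    have h1 : AnalyticAt ℂ (fun p : ℂ × ℂ => 𝓐 p.1) (0, y) :=
      AnalyticAt.comp (g := 𝓐) (f := Prod.fst) (x := ((0 : ℂ), y)) hA1 analyticAt_fst
    have h2 : AnalyticAt ℂ (fun p : ℂ × ℂ => 𝓑 p.1) (0, y) :=
      AnalyticAt.comp (g := 𝓑) (f := Prod.fst) (x := ((0 : ℂ), y)) hB1 analyticAt_fst
    have h3 : AnalyticAt ℂ (Ring.inverse : C(sphere (0 : ℂ) ρ, ℂ) → _) (𝓑 0) :=
      analyticOnNhd_inverse (𝕜 := ℂ) (𝓑 0) hunit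
    have h4 : AnalyticAt ℂ (fun p : ℂ × ℂ => Ring.inverse (𝓑 p.1)) (0, y) :=
      AnalyticAt.comp (g := Ring.inverse) (f := fun p : ℂ × ℂ => 𝓑 p.1) (x := ((0 : ℂ), y)) h3 h2
    have h5 : AnalyticAt ℂ (fun p : ℂ × ℂ => ι - p.2 • (1 : C(sphere (0 : ℂ) ρ, ℂ))) (0, y) :=
      analyticAt_const.sub (analyticAt_snd.smul analyticAt_const)
    have h6 : AnalyticAt ℂ (Ring.inverse : C(sphere (0 : ℂ) ρ, ℂ) → _)
        (ι - y • (1 : C(sphere (0 : ℂ) ρ, ℂ))) :=
      analyticOnNhd_inverse (𝕜 := ℂ) _ (hκunit y hy)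
    have h7 : AnalyticAt ℂ (fun p : ℂ × ℂ => Ring.inverse (ι - p.2 • (1 : C(sphere (0 : ℂ) ρ, ℂ))))
        (0, y) :=
      AnalyticAt.comp (g := Ring.inverse)
        (f := fun p : ℂ × ℂ => ι - p.2 • (1 : C(sphere (0 : ℂ) ρ, ℂ))) (x := ((0 : ℂ), y)) h6 h5
    exact (J.analyticAt _).comp ((h1.mul h4).mul h7)
  · have hopen : ∀ᶠ x in 𝓝 (0 : ℂ), IsUnit (𝓑 x) :=
      hB1.continuousAt.eventually (Units.isOpen.mem_nhds hunit)
    filter_upwards [hA2, hB2, hopen] with x hx1 hx2 hx3 q hq hAB y hy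
    have hne := (ContinuousMap.isUnit_iff_forall_ne_zero _).1 hx3
    show J (𝓐 x * Ring.inverse (𝓑 x) * Ring.inverse (ι - y • (1 : C(sphere (0 : ℂ) ρ, ℂ)))) = q y
    rw [hJ _ (fun ζ => (ζ - y)⁻¹ • q ζ)]
    · have hd : DifferentiableOn ℂ q (closedBall 0 ρ) := fun z hz =>
        (hq z hz).differentiableAt.differentiableWithinAt
      exact (hd.mono closure_ball_subset_closedBall).diffContOnCl.two_pi_i_inv_smul_circleIntegral_sub_inv_smul
        hy
    · intro ζ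
      rw [ContinuousMap.mul_apply, ContinuousMap.mul_apply, CB2_inverse_apply hx3,
        CB2_inverse_apply (hκunit y hy), hx1, hx2, hAB _ ζ.2]
      have h1 : B (x, (ζ : ℂ)) ≠ 0 := by
        rw [← hx2 ζ]
        exact hne ζ
      have h2 : (ι - y • (1 : C(sphere (0 : ℂ) ρ, ℂ))) ζ = (ζ : ℂ) - y := by
        simp [hι]
      rw [h2, smul_eq_mul]
      field_simp

end Pool.Agent.H68.KR

end
end

section

/-!
# KR CB3: extension of a quotient which has no poles on many slices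

* `exists_quotient`: for every `y ∈ U` choose `q_y`; put `q y = q_y y`.  Near `y` (punctured neighbourhood) `b z ≠ 0`
  (isolated zeros: `AnalyticAt.eventually_eq_zero_or_eventually_ne_zero`), so
  `q_y z = a z / b z = q_z z = q z`; hence `q = q_y` near `y` (also at `y`), analytic, and `a y = b y * q y`.
* `extend_of_slices`: Let `A, B` be analytic on the polydisc `|x| < r, |y| < r` (`ℂ × ℂ` has the sup norm, so it is
  `ball 0 r`).  `B (0, ·)` is not `0` near `0`: choose `0 < ρ < min r ρ₀` (`ρ₀` the radius of `h`) with `B (0, y) ≠ 0`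
  for `0 < |y| ≤ ρ`, so on `|y| = ρ`.  Let `Φ` be given by `exists_cauchy`.  For `x` near `0`: `|x| < r`,
  `B (x, ζ) ≠ 0` for `|ζ| = ρ` (compactness: tube lemma), and the statement of `exists_cauchy`.  For those `x` with
  `LD A B x y` for all `|y| < ρ₀`: let `ρ' = min r ρ₀ > ρ`; `B (x, ·)` is analytic on the ball of radius `ρ'` and not
  identically `0`, so not `0` near any point of it (identity theorem,
  `AnalyticOnNhd.eqOn_zero_of_preconnected_of_eventuallyEq_zero`); `exists_quotient` on `U = ball 0 ρ'` gives `q`, and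
  `Φ (x, y) = q y`, hence `A (x, y) = B (x, y) Φ (x, y)` for `|y| < ρ`.
  Now let `r₁ ≤ ρ` be such that `Φ` is analytic on `|x| < r₁, |y| < r₁` (as `Φ` is analytic at `0`).  For fixed
  `|y| < r₁` the function `x ↦ A (x, y) - B (x, y) Φ (x, y)` is analytic on `|x| < r₁` and frequently `0` near `0`,
  so it is `0` (`AnalyticOnNhd.eqOn_zero_of_preconnected_of_frequently_eq_zero`).
-/

set_option autoImplicit false

open Topology Filter Metric

noncomputable section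

namespace Pool.Agent.H68.KR

/-- On the slice through `x` the function `A` is divisible by `B` near `y`. -/
def LD (A B : ℂ × ℂ → ℂ) (x y : ℂ) : Prop :=
  ∃ q : ℂ → ℂ, AnalyticAt ℂ q y ∧ ∀ᶠ z in 𝓝 y, A (x, z) = B (x, z) * q z

theorem exists_quotient {a b : ℂ → ℂ} {U : Set ℂ} (hU : IsOpen U) (hb : ∀ y ∈ U, AnalyticAt ℂ b y)
    (hb0 : ∀ y ∈ U, ¬ ∀ᶠ z in 𝓝 y, b z = 0)
    (h : ∀ y ∈ U, ∃ q : ℂ → ℂ, AnalyticAt ℂ q y ∧ ∀ᶠ z in 𝓝 y, a z = b z * q z) :
    ∃ q : ℂ → ℂ, (∀ y ∈ U, AnalyticAt ℂ q y) ∧ ∀ y ∈ U, a y = b y * q y := by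
  classical
  choose! Q hQa hQe using h
  refine ⟨fun y => Q y y, fun y hy => ?_, fun y hy => (hQe y hy).self_of_nhds⟩
  refine (hQa y hy).congr ?_
  have hb1 : ∀ᶠ z in 𝓝[≠] y, b z ≠ 0 :=
    ((hb y hy).eventually_eq_zero_or_eventually_ne_zero).resolve_left (hb0 y hy)
  have h1 : ∀ᶠ z in 𝓝[≠] y, Q y z = Q z z := by
    filter_upwards [hb1, nhdsWithin_le_nhds (hQe y hy), nhdsWithin_le_nhds (hU.mem_nhds hy)] with z hz1 hz2 hz3
    have h3 := (hQe z hz3).self_of_nhds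
    exact mul_left_cancel₀ hz1 (hz2.symm.trans h3)
  filter_upwards [eventually_nhdsWithin_iff.1 h1] with z hz
  by_cases hzy : z = y
  · rw [hzy]
  · exact hz hzy

/-- If `A / B` has no poles in a fixed disc for arbitrarily small `x ≠ 0`, then it is analytic at `0`. -/
theorem extend_of_slices {A B : ℂ × ℂ → ℂ} (hA : AnalyticAt ℂ A 0) (hB : AnalyticAt ℂ B 0)
    (hB0 : ¬ ∀ᶠ y in 𝓝 (0 : ℂ), B (0, y) = 0) {ρ₀ : ℝ} (hρ₀ : 0 < ρ₀)
    (h : ∃ᶠ x in 𝓝[≠] (0 : ℂ), ∀ y ∈ ball (0 : ℂ) ρ₀, LD A B x y) :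
    ∃ Φ : ℂ × ℂ → ℂ, AnalyticAt ℂ Φ 0 ∧ ∀ᶠ u in 𝓝 (0 : ℂ × ℂ), A u = B u * Φ u := by
  classical
  -- a polydisc on which both functions are analytic
  obtain ⟨r, hr, hAB⟩ := Metric.eventually_nhds_iff_ball.1 (hA.eventually_analyticAt.and hB.eventually_analyticAt)
  have hmem : ∀ {s : ℝ} {x y : ℂ}, ‖x‖ < s → ‖y‖ < s → ((x, y) : ℂ × ℂ) ∈ ball (0 : ℂ × ℂ) s := by
    intro s x y hx hy
    rw [mem_ball_zero_iff, Prod.norm_def]
    exact max_lt hx hy
  have hslx : ∀ {F : ℂ × ℂ → ℂ} {x y : ℂ}, AnalyticAt ℂ F (x, y) → AnalyticAt ℂ (fun z => F (x, z)) y :=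
    fun {F x y} hF => AnalyticAt.fun_comp (g := F) (f := fun z : ℂ => ((x, z) : ℂ × ℂ)) hF
      (analyticAt_const.prod analyticAt_id)
  have hsly : ∀ {F : ℂ × ℂ → ℂ} {x y : ℂ}, AnalyticAt ℂ F (x, y) → AnalyticAt ℂ (fun z => F (z, y)) x :=
    fun {F x y} hF => AnalyticAt.fun_comp (g := F) (f := fun z : ℂ => ((z, y) : ℂ × ℂ)) hF
      (analyticAt_id.prod analyticAt_const)
  -- isolated zeros of the central slice
  have hb : AnalyticAt ℂ (fun y => B (0, y)) 0 := hslx hB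
  have hb1 : ∀ᶠ y in 𝓝[≠] (0 : ℂ), B (0, y) ≠ 0 :=
    (hb.eventually_eq_zero_or_eventually_ne_zero).resolve_left hB0
  obtain ⟨ρ₁, hρ₁, hb2⟩ := Metric.eventually_nhds_iff_ball.1 (eventually_nhdsWithin_iff.1 hb1)
  obtain ⟨R, hR, hRr, hRρ₀, hRρ₁⟩ : ∃ R : ℝ, 0 < R ∧ R ≤ r ∧ R ≤ ρ₀ ∧ R ≤ ρ₁ :=
    ⟨min r (min ρ₀ ρ₁), lt_min hr (lt_min hρ₀ hρ₁), min_le_left _ _,
      (min_le_right _ _).trans (min_le_left _ _), (min_le_right _ _).trans (min_le_right _ _)⟩
  obtain ⟨ρ, hρ, hρR⟩ : ∃ ρ : ℝ, 0 < ρ ∧ ρ < R := ⟨R / 2, by positivity, by linarith⟩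
  have hsph : ∀ ζ ∈ sphere (0 : ℂ) ρ, ‖ζ‖ = ρ := fun ζ hζ => by simpa using hζ
  have hABs : ∀ ζ ∈ sphere (0 : ℂ) ρ, AnalyticAt ℂ A (0, ζ) ∧ AnalyticAt ℂ B (0, ζ) := fun ζ hζ =>
    hAB _ (hmem (by simpa using hr) (by rw [hsph ζ hζ]; linarith))
  have hBs : ∀ ζ ∈ sphere (0 : ℂ) ρ, B (0, ζ) ≠ 0 := fun ζ hζ =>
    hb2 ζ (by rw [mem_ball_zero_iff, hsph ζ hζ]; linarith) (by
      intro h0
      have := hsph ζ hζ
      rw [h0, norm_zero] at this
      linarith)
  obtain ⟨Φ, hΦa, hΦe⟩ := exists_cauchy hρ (fun ζ hζ => (hABs ζ hζ).1) (fun ζ hζ => (hABs ζ hζ).2) hBs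
  have h00 : ((0 : ℂ), (0 : ℂ)) = (0 : ℂ × ℂ) := rfl
  have hΦ0 : AnalyticAt ℂ Φ 0 := h00 ▸ hΦa 0 (by simpa using hρ)
  refine ⟨Φ, hΦ0, ?_⟩
  -- a point of the circle
  obtain ⟨ζ₀, hζ₀⟩ : ∃ ζ₀ : ℂ, ‖ζ₀‖ = ρ := ⟨(ρ : ℂ), by rw [Complex.norm_real, Real.norm_eq_abs, abs_of_pos hρ]⟩
  have hζ₀s : ζ₀ ∈ sphere (0 : ℂ) ρ := by simpa using hζ₀
  have hBx : ∀ᶠ x in 𝓝 (0 : ℂ), B (x, ζ₀) ≠ 0 := by
    have h1 : ContinuousAt (fun x : ℂ => B (x, ζ₀)) 0 := (hsly (hABs ζ₀ hζ₀s).2).continuousAt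
    exact h1.eventually_ne (hBs ζ₀ hζ₀s)
  have hxr : ∀ᶠ x in 𝓝 (0 : ℂ), ‖x‖ < r := by
    filter_upwards [Metric.ball_mem_nhds (0 : ℂ) hr] with x hx
    simpa using hx
  -- the good slices
  have hgood : ∃ᶠ x in 𝓝[≠] (0 : ℂ), ∀ y ∈ ball (0 : ℂ) ρ, A (x, y) = B (x, y) * Φ (x, y) := by
    refine (h.and_eventually (nhdsWithin_le_nhds (hBx.and (hxr.and hΦe)))).mono ?_
    rintro x ⟨hx1, hx2, hx3, hx4⟩
    have hBa : ∀ y ∈ ball (0 : ℂ) R, AnalyticAt ℂ (fun z => B (x, z)) y := fun y hy =>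
      hslx (hAB _ (hmem hx3 (lt_of_lt_of_le (by simpa using hy) hRr))).2
    obtain ⟨q, hqa, hqe⟩ := exists_quotient (a := fun z => A (x, z)) (b := fun z => B (x, z))
      (U := ball (0 : ℂ) R) isOpen_ball hBa (fun y hy hz => by
        have h2 : Set.EqOn (fun z => B (x, z)) 0 (ball (0 : ℂ) R) :=
          AnalyticOnNhd.eqOn_zero_of_preconnected_of_eventuallyEq_zero hBa
            (convex_ball (0 : ℂ) R).isPreconnected hy hz
        exact hx2 (h2 (by rw [mem_ball_zero_iff, hζ₀]; exact hρR)))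
      (fun y hy => hx1 y (ball_subset_ball hRρ₀ hy))
    have h3 := hx4 q (fun y hy => hqa y (closedBall_subset_ball hρR hy))
      (fun y hy => hqe y (closedBall_subset_ball hρR (sphere_subset_closedBall hy)))
    intro y hy
    rw [h3 y hy]
    exact hqe y (ball_subset_ball hρR.le hy)
  -- analytic continuation in the first variable
  obtain ⟨r₂, hr₂, hΦb⟩ := Metric.eventually_nhds_iff_ball.1 hΦ0.eventually_analyticAt
  obtain ⟨r₁, hr₁, hr₁ρ, hr₁r, hr₁r₂⟩ : ∃ r₁ : ℝ, 0 < r₁ ∧ r₁ ≤ ρ ∧ r₁ ≤ r ∧ r₁ ≤ r₂ :=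
    ⟨min ρ (min r r₂), lt_min hρ (lt_min hr hr₂), min_le_left _ _,
      (min_le_right _ _).trans (min_le_left _ _), (min_le_right _ _).trans (min_le_right _ _)⟩
  filter_upwards [Metric.ball_mem_nhds (0 : ℂ × ℂ) hr₁] with u hu
  obtain ⟨x, y⟩ := u
  rw [mem_ball_zero_iff, Prod.norm_def] at hu
  have hx : ‖x‖ < r₁ := (le_max_left _ _).trans_lt hu
  have hy : ‖y‖ < r₁ := (le_max_right _ _).trans_lt hu
  have han : AnalyticOnNhd ℂ (fun z => A (z, y) - B (z, y) * Φ (z, y)) (ball (0 : ℂ) r₁) := by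
    intro z hz
    have hz' : ‖z‖ < r₁ := by simpa using hz
    have h1 := hAB _ (hmem (hz'.trans_le hr₁r) (hy.trans_le hr₁r))
    have h2 := hΦb _ (hmem (hz'.trans_le hr₁r₂) (hy.trans_le hr₁r₂))
    exact (hsly h1.1).sub ((hsly h1.2).mul (hsly h2))
  have hfr : ∃ᶠ z in 𝓝[≠] (0 : ℂ), A (z, y) - B (z, y) * Φ (z, y) = 0 :=
    hgood.mono fun z hz => sub_eq_zero.2 (hz y (by rw [mem_ball_zero_iff]; exact hy.trans_le hr₁ρ))
  have h0 := AnalyticOnNhd.eqOn_zero_of_preconnected_of_frequently_eq_zero han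
    (convex_ball (0 : ℂ) r₁).isPreconnected (by simpa using hr₁ : (0 : ℂ) ∈ ball (0 : ℂ) r₁) hfr
  exact sub_eq_zero.1 (h0 (by simpa using hx : x ∈ ball (0 : ℂ) r₁))

end Pool.Agent.H68.KR

end
end

section

/-!
# NB Child: the limit of the rescaling is `c • K`, `K` a polynomial curve; the roots of `c` are the children
-/

set_option autoImplicit false
set_option linter.unusedSectionVars false

open Topology Filter Metric Polynomial

namespace Pool.Agent.H74.NB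

variable {N : ℕ}

/-- the point of the cone given by a vector of polynomials -/
noncomputable def vec (K : Fin (N + 1) → ℂ[X]) (z : ℂ) : EuclideanSpace ℂ (Fin (N + 1)) := WithLp.toLp 2 fun i => (K i).eval z

@[simp] theorem vec_apply (K : Fin (N + 1) → ℂ[X]) (z : ℂ) (i : Fin (N + 1)) : vec K z i = (K i).eval z := rfl

theorem vec_differentiable (K : Fin (N + 1) → ℂ[X]) : Differentiable ℂ (vec K) := by
  rw [differentiable_piLp]
  intro i
  exact (K i).differentiable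

theorem vec_ne_zero {K : Fin (N + 1) → ℂ[X]} {z : ℂ} {i : Fin (N + 1)} (h : (K i).eval z ≠ 0) : vec K z ≠ 0 := by
  intro h1
  exact h (by rw [← vec_apply, h1]; rfl)

/-- a vector of polynomials is the product of a monic polynomial and a vector of polynomials without common zero -/
theorem exists_factor {ι : Type} (P : ι → ℂ[X]) (h0 : ∃ i, P i ≠ 0) :
    ∃ (c : ℂ[X]) (K : ι → ℂ[X]), c.Monic ∧ (∀ i, P i = c * K i) ∧ ∀ a : ℂ, ∃ i, (K i).eval a ≠ 0 := by
  set I : Ideal ℂ[X] := Ideal.span (Set.range P) with hI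
  set g : ℂ[X] := Submodule.IsPrincipal.generator I with hg
  have hgI : g ∈ I := Submodule.IsPrincipal.generator_mem I
  have hdiv : ∀ i, g ∣ P i := fun i =>
    (Submodule.IsPrincipal.mem_iff_generator_dvd I).1 (Ideal.subset_span (Set.mem_range_self i))
  have hg0 : g ≠ 0 := by
    rintro h1
    obtain ⟨i, hi⟩ := h0
    exact hi (zero_dvd_iff.1 (h1 ▸ hdiv i))
  have hass : Associated (normalize g) g := normalize_associated g
  have hdiv' : ∀ i, normalize g ∣ P i := fun i => hass.dvd.trans (hdiv i)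
  choose K hK using hdiv'
  have hm : (normalize g).Monic := Polynomial.monic_normalize hg0
  refine ⟨normalize g, K, hm, hK, fun a => ?_⟩
  by_contra hcon
  push Not at hcon
  have h1 : ∀ i, normalize g * (X - C a) ∣ P i := fun i => by
    rw [hK i]
    exact mul_dvd_mul_left _ (Polynomial.dvd_iff_isRoot.2 (hcon i))
  have h2 : normalize g * (X - C a) ∣ g := by
    have h3 : I ≤ Ideal.span {normalize g * (X - C a)} := by
      rw [hI, Ideal.span_le]
      rintro _ ⟨i, rfl⟩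
      exact Ideal.mem_span_singleton.2 (h1 i)
    exact Ideal.mem_span_singleton.1 (h3 hgI)
  have h3 : normalize g * (X - C a) ∣ normalize g * 1 := by
    rw [mul_one]
    exact h2.trans hass.symm.dvd
  have h4 : X - C a ∣ (1 : ℂ[X]) := (mul_dvd_mul_iff_left hm.ne_zero).1 h3
  exact (Polynomial.not_isUnit_X_sub_C a) (isUnit_of_dvd_one h4)

variable {𝒰 : Ultrafilter ℕ}

end Pool.Agent.H74.NB

end

section

/-!
# A Jacobian criterion for algebraic independence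

* `algebraicIndependent_of_jacobian`: polynomials with nonzero Jacobian determinant at a point are
  algebraically independent (characteristic zero).
* `exists_algebraicIndependent_of_injective`: from a family `c j` of polynomials whose differential
  at a point is injective one obtains linear combinations, as many as there are variables, that
  are algebraically independent.
-/

namespace Pool.Agent.H94

open MvPolynomial

variable {k : Type*} [Field k]

lemma eq_C_of_pderiv_eq_zero [CharZero k] {ι : Type*} (P : MvPolynomial ι k)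
    (h : ∀ i, pderiv i P = 0) : P = C (coeff 0 P) := by
  classical
  ext m
  rw [coeff_C]
  by_cases hm : m = 0
  · subst hm; simp
  · rw [if_neg (Ne.symm hm)]
    obtain ⟨i, hi⟩ : ∃ i, m i ≠ 0 := by
      by_contra hcon
      push Not at hcon
      exact hm (Finsupp.ext hcon)
    have h1 := congrArg (coeff (m - Finsupp.single i 1)) (h i)
    rw [coeff_pderiv, coeff_zero] at h1
    have h2 : m - Finsupp.single i 1 + Finsupp.single i 1 = m :=
      Finsupp.sub_add_single_one_cancel hi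
    rw [h2] at h1
    rcases mul_eq_zero.1 h1 with h1 | h1
    · exact h1
    · exfalso
      have : ((((m - Finsupp.single i 1 : ι →₀ ℕ)) i + 1 : ℕ) : k) = 0 := by push_cast; exact h1
      exact Nat.cast_ne_zero.2 (Nat.succ_ne_zero _) this

lemma totalDegree_pderiv_lt {ι : Type*} (P : MvPolynomial ι k) (i : ι) (h : pderiv i P ≠ 0) :
    (pderiv i P).totalDegree < P.totalDegree := by
  classical
  obtain ⟨m, hm, hmd⟩ := Finset.exists_mem_eq_sup (pderiv i P).support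
    (support_nonempty.2 h) (fun s => s.sum fun _ e => e)
  rw [mem_support_iff, coeff_pderiv] at hm
  have h1 : coeff (m + Finsupp.single i 1) P ≠ 0 := left_ne_zero_of_mul hm
  have h2 := le_totalDegree (mem_support_iff.2 h1)
  have h3 : (m + Finsupp.single i 1).degree = m.degree + 1 := by
    rw [map_add, Finsupp.degree_single]
  have h4 : (m + Finsupp.single i 1).sum (fun _ e => e) = (m + Finsupp.single i 1).degree := rfl
  have h5 : m.sum (fun _ e => e) = m.degree := rfl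
  have h6 : (pderiv i P).totalDegree = m.degree := hmd
  rw [h4, h3] at h2
  omega

end Pool.Agent.H94

end

section

set_option autoImplicit false

/-!
# Hyperbolicity notions for multiple cyclic covers

The ambient space is the total space of the vector bundle `⊕ O (e j)` over `ℙ^N (ℂ)`, that is, the
open subset `x ≠ 0` of the weighted projective space with coordinates `x 0, …, x N` of weight one
and `y j` of weight `e j`.
-/

open MvPolynomial Topology

namespace Pool.Agent.H99.Cover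

variable {N : ℕ} {ι : Type}

/-- Homogeneous coordinates `(x, y)`. -/
abbrev Coord (N : ℕ) (ι : Type) : Type := (Fin (N + 1) → ℂ) × (ι → ℂ)

/-- The relation `(x, y) ~ (c x, c ^ (e j) y j)`, for `c ≠ 0`. -/
def Rel (e : ι → ℕ) (q q' : Coord N ι) : Prop :=
  ∃ c : ℂ, c ≠ 0 ∧ (∀ i, q'.1 i = c * q.1 i) ∧ ∀ j, q'.2 j = c ^ e j * q.2 j

lemma Rel.refl (e : ι → ℕ) (q : Coord N ι) : Rel e q q :=
  ⟨1, one_ne_zero, by simp, by simp⟩

lemma Rel.symm {e : ι → ℕ} {q q' : Coord N ι} (h : Rel e q q') : Rel e q' q := by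
  obtain ⟨c, hc, h1, h2⟩ := h
  refine ⟨c⁻¹, inv_ne_zero hc, fun i => ?_, fun j => ?_⟩
  · rw [h1 i, inv_mul_cancel_left₀ hc]
  · rw [h2 j, inv_pow, inv_mul_cancel_left₀ (pow_ne_zero _ hc)]

lemma Rel.trans {e : ι → ℕ} {q q' q'' : Coord N ι} (h : Rel e q q') (h' : Rel e q' q'') :
    Rel e q q'' := by
  obtain ⟨c, hc, h1, h2⟩ := h
  obtain ⟨c', hc', h1', h2'⟩ := h'
  refine ⟨c' * c, mul_ne_zero hc' hc, fun i => ?_, fun j => ?_⟩
  · rw [h1' i, h1 i, mul_assoc]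
  · rw [h2' j, h2 j, mul_pow, mul_assoc]

/-- Homogeneous coordinates with `x ≠ 0`. -/
abbrev CoordNZ (N : ℕ) (ι : Type) : Type := {q : Coord N ι // q.1 ≠ 0}

/-- The equivalence relation on homogeneous coordinates. -/
def relSetoid (N : ℕ) (e : ι → ℕ) : Setoid (CoordNZ N ι) where
  r q q' := Rel e q.1 q'.1
  iseqv := ⟨fun q => Rel.refl e q.1, fun h => h.symm, fun h h' => h.trans h'⟩

/-- The total space of `⊕ O (e j)` over `ℙ^N (ℂ)`. -/
def Tot (N : ℕ) (e : ι → ℕ) : Type := Quotient (relSetoid N e)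

/-- The point with homogeneous coordinates `q`. -/
def mk (e : ι → ℕ) (q : Coord N ι) (h : q.1 ≠ 0) : Tot N e := Quotient.mk (relSetoid N e) ⟨q, h⟩

/-- `f` is holomorphic on `U ⊆ ℂ` as a map into the total space: near every point of `U` it is
given by holomorphic homogeneous coordinates `(x, y)` with `x ≠ 0`. -/
def HolomorphicInto {e : ι → ℕ} [Fintype ι] (f : ℂ → Tot N e) (U : Set ℂ) : Prop :=
  ∀ z₀ ∈ U, ∃ φ : ℂ → Coord N ι, AnalyticAt ℂ φ z₀ ∧
    ∀ᶠ z in 𝓝 z₀, ∃ h : (φ z).1 ≠ 0, f z = mk e (φ z) h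

/-- The weights of the variables `x i` and `y j`. -/
def weights (N : ℕ) (e : ι → ℕ) : Fin (N + 1) ⊕ ι → ℕ := Sum.elim (fun _ => 1) e

/-- The polynomial `P (x, y)` vanishes at the point `x`.  For weighted homogeneous `P` this does
not depend on the homogeneous coordinates. -/
def VanishesAt {e : ι → ℕ} (P : MvPolynomial (Fin (N + 1) ⊕ ι) ℂ) (x : Tot N e) : Prop :=
  ∀ (q : Coord N ι) (h : q.1 ≠ 0), x = mk e q h → eval (Sum.elim q.1 q.2) P = 0

/-- `Ξ` is a Zariski closed subset of the subset `X` of the total space. -/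
def ZariskiClosedIn {e : ι → ℕ} (X Ξ : Set (Tot N e)) : Prop :=
  ∃ S : Set (MvPolynomial (Fin (N + 1) ⊕ ι) ℂ),
    (∀ P ∈ S, ∃ n, IsWeightedHomogeneous (weights N e) P n) ∧
    Ξ = {x | x ∈ X ∧ ∀ P ∈ S, VanishesAt P x}

/-- The punctured open unit disc. -/
def puncturedDisc : Set ℂ := Metric.ball 0 1 \ {0}

end Pool.Agent.H99.Cover

end
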