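import Pool.Agent.H94.G6.H14.PP.Defs_1
import Pool.Agent.H94.G6.H17EF.Bridge
import Pool.Agent.H94.G6.M16

/-! The parts of this file: H13.OT.Wrap, H14.V.MainV, H14.V.FourW, H62.SA.Defs, AD.T.NCDefs, H62.Qe.Defs, MQ3.RForm, MQ3.SmallD, SG.DuvD, SG2.NegD. -/

section

/-!
# Entire curves of order two in projective spaces
-/

set_option autoImplicit false

namespace Pool.Agent.H13.OT

open Filter Topology Metric
open Pool.Agent.H17 (PN HolomorphicInto EntFun ZariskiClosedIn)

variable {N : ℕ}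

/-- The entire curve `f : ℂ → ℙ^N` has `T_f(r) = O(r²)`, so that it has order at most two. Here
`T_f(r)` is the characteristic function, that is, the mean value of `log ‖F‖` over the circle of radius `r` minus
`log ‖F 0‖`, where `F : ℂ → ℂ^(N+1)` is an entire function without zeros which represents `f`. -/
def OrderTwo (f : ℂ → PN N) : Prop :=
  ∃ (F : ℂ → Fin (N + 1) → ℂ) (A : ℝ), Differentiable ℂ F ∧ (∀ z, ∃ h : F z ≠ 0, f z = Projectivization.mk ℂ (F z) h) ∧
    ∀ r : ℝ, 0 < r → Real.circleAverage (fun z => Real.log ‖F z‖) 0 r ≤ A * (1 + r ^ 2)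

end Pool.Agent.H13.OT

end

section

/-!
# V MainV: entire curves in surfaces of general type, in the projective space
-/

set_option autoImplicit false

open Topology Filter MvPolynomial Metric

noncomputable section

namespace Pool.Agent.H14.V

open Pool.Agent.H17 (PN VanishesAt HolomorphicInto ZariskiClosedIn puncturedDisc)

variable {N : ℕ}

/-- `F` is an entire map to `ℂ^(N+1)` without zeros which represents `f`. -/
def IsLift (F : ℂ → EuclideanSpace ℂ (Fin (N + 1))) (f : ℂ → PN N) : Prop :=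
  Differentiable ℂ F ∧ ∀ z, ∃ h : (F z).ofLp ≠ 0, f z = Projectivization.mk ℂ (F z).ofLp h

variable {P : Ideal (MvPolynomial (Fin (N + 1)) ℂ)} 

end Pool.Agent.H14.V

end
end

section

/-!
# V FourW: surfaces with nonpositively curved pseudo-lengths
-/

set_option autoImplicit false

open Topology Filter MvPolynomial Metric

noncomputable section

namespace Pool.Agent.H14.V

open Pool.Agent.H17 (PN VanishesAt HolomorphicInto ZariskiClosedIn puncturedDisc)
open Pool.Agent.H36.BP (EN)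
open Pool.Agent.H14.PP (Tan)
open Pool.Agent.H22.W (PseudoLength)

variable {N : ℕ}

/-- The length of the derivative of `f` is zero. -/
def IsNull {X : Set (EN N)} (n : PseudoLength X) (f : ℂ → PN N) : Prop :=
  ∃ F, IsLift F f ∧ ∀ z, n.toFun (F z) (deriv F z) = 0

variable {X : Set (EN N)}

variable {P : Ideal (MvPolynomial (Fin (N + 1)) ℂ)}


end Pool.Agent.H14.V

end
end

section

/-!
# SA Defs: locally closed subvarieties of `ℙ^N`

The complement in a closed subvariety of the common zero set of some forms, and its properness over an affine variety.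
-/

set_option autoImplicit false

open MvPolynomial
open Pool.Agent.H23.Fano (PrimeDivisorOver)
open Pool.Agent.H17 (PN VanishesAt)
open Pool.Agent.H17GT (coordFun)
open Pool.Agent.H17LG.Variety (FunField ratio)

noncomputable section

namespace Pool.Agent.H62.SA

variable {N : ℕ}

/-- The points of the zero locus of the homogeneous ideal `P` at which some of the forms `G m` does not
vanish. -/
def locVar (P : Ideal (MvPolynomial (Fin (N + 1)) ℂ)) {s : ℕ}
    (G : Fin s → MvPolynomial (Fin (N + 1)) ℂ) : Set (PN N) :=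
  {x | (∀ Q ∈ P, ∀ n, Q.IsHomogeneous n → VanishesAt Q x) ∧ ∃ m, ¬ VanishesAt (G m) x}

/-- The centre of the prime divisor `E` on the closed subvariety of `ℙ^N` given by `P` lies in the
common zero set of the forms `G m`. -/
def OnBd (P : Ideal (MvPolynomial (Fin (N + 1)) ℂ)) [P.IsPrime] {s : ℕ}
    (G : Fin s → MvPolynomial (Fin (N + 1)) ℂ) {k : ℕ} (E : PrimeDivisorOver (FunField P) k) : Prop :=
  ∃ j, coordFun P j ≠ 0 ∧ (∀ i, 0 ≤ E.ord (ratio P i j)) ∧
    ∀ m, 0 < E.ord (aeval (fun i => ratio P i j) (G m))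

end Pool.Agent.H62.SA

end
end

section

/-!
# AD T NCDefs: the four properties, finitely many curves
-/

open MvPolynomial
open Pool.Agent.H17 (PN VanishesAt ZariskiClosedIn HolomorphicInto puncturedDisc)
open Pool.Agent.H17LG.Variety (FunField IsLogGeneralType)
open Pool.Agent.H13.SM (conTan)
open Pool.Agent.H62.SA (OnBd)

noncomputable section

namespace Pool.Agent.AD.NC

variable {N s : ℕ}

/-- The closed subvariety of dimension `n` of `ℙ^N` given by the homogeneous prime ideal `P` is smooth: the tangent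
space of its affine cone has dimension at most `n + 1` at every point different from `0`. -/
def IsSmooth (P : Ideal (MvPolynomial (Fin (N + 1)) ℂ)) (n : ℕ) : Prop :=
  ∀ x : Fin (N + 1) → ℂ, x ≠ 0 → (∀ Q ∈ P, eval x Q = 0) → Module.finrank ℂ (conTan P x) ≤ n + 1

/-- The complement in the closed subvariety of `ℙ^N` given by `P`, of dimension `k`, of the hypersurfaces `{G i = 0}` is of
log general type. If there are no `G i`: the closed subvariety is of general type. -/
def IsOfLogGeneralType (P : Ideal (MvPolynomial (Fin (N + 1)) ℂ)) [P.IsPrime] (G : Fin s → MvPolynomial (Fin (N + 1)) ℂ)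
    (k : ℕ) : Prop :=
  IsLogGeneralType (K := FunField P) (k := k) (OnBd P fun _ : Fin 1 => ∏ i, G i)

end Pool.Agent.AD.NC

end
end

section

/-!
# Qe Defs: coverings of quasi-projective varieties
-/

set_option autoImplicit false

open Topology Filter MvPolynomial

noncomputable section

namespace Pool.Agent.H62.Qe

open Pool.Agent.H17 (PN VanishesAt)
open Pool.Agent.H17EF (projVar)
open Pool.Agent.H7.Bir (vals rmap)
open Pool.Agent.H62.SA (locVar)

variable {N M : ℕ}

/-- `p` is a surjective regular map `X' → X` of projective varieties. -/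
structure IsReg (P : Ideal (MvPolynomial (Fin (N + 1)) ℂ)) (P' : Ideal (MvPolynomial (Fin (M + 1)) ℂ)) (p : PN M → PN N) : Prop where
  maps : ∀ y ∈ projVar P', p y ∈ projVar P
  surj : ∀ x ∈ projVar P, ∃ y ∈ projVar P', p y = x
  regular : ∀ y ∈ projVar P', ∃ (D : ℕ) (γ : Fin (N + 1) → MvPolynomial (Fin (M + 1)) ℂ), (∀ i, (γ i).IsHomogeneous D) ∧
    vals γ y.rep ≠ 0 ∧ ∀ y' ∈ projVar P', vals γ y'.rep ≠ 0 → p y' = rmap γ y'

/-- `p : X' → X` is surjective and regular, and over the open subset `U` of `X` it is locally injective and has local holomorphic sections. -/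
structure IsEtaleOver (P : Ideal (MvPolynomial (Fin (N + 1)) ℂ)) (P' : Ideal (MvPolynomial (Fin (M + 1)) ℂ)) {s s' : ℕ}
    (G : Fin s → MvPolynomial (Fin (N + 1)) ℂ) (G' : Fin s' → MvPolynomial (Fin (M + 1)) ℂ) (p : PN M → PN N) : Prop where
  reg : IsReg P P' p
  inv : ∀ y ∈ projVar P', p y ∈ locVar P G ↔ y ∈ locVar P' G'
  locInj : ∀ (y : Fin (M + 1) → ℂ) (hy : y ≠ 0), Projectivization.mk ℂ y hy ∈ locVar P' G' → ∀ᶠ q in 𝓝 (y, y), ∀ (h : q.1 ≠ 0) (h' : q.2 ≠ 0),
    Projectivization.mk ℂ q.1 h ∈ projVar P' → Projectivization.mk ℂ q.2 h' ∈ projVar P' →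
      p (Projectivization.mk ℂ q.1 h) = p (Projectivization.mk ℂ q.2 h') → Projectivization.mk ℂ q.1 h = Projectivization.mk ℂ q.2 h'
  locSec : ∀ (y : Fin (M + 1) → ℂ) (hy : y ≠ 0), Projectivization.mk ℂ y hy ∈ locVar P' G' →
    ∃ (x : Fin (N + 1) → ℂ) (hx : x ≠ 0) (τ : (Fin (N + 1) → ℂ) → Fin (M + 1) → ℂ), p (Projectivization.mk ℂ y hy) = Projectivization.mk ℂ x hx ∧
      AnalyticAt ℂ τ x ∧ τ x = y ∧ ∀ᶠ x' in 𝓝 x, ∀ h : x' ≠ 0, Projectivization.mk ℂ x' h ∈ projVar P →
        ∃ h' : τ x' ≠ 0, Projectivization.mk ℂ (τ x') h' ∈ projVar P' ∧ p (Projectivization.mk ℂ (τ x') h') = Projectivization.mk ℂ x' h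

end Pool.Agent.H62.Qe

end
end

section

/-!
# MQ3 RForm: from lifts to curves in the projective space

The conclusion of `exists_R_web` for the entire curves `f : ℂ → ℙ^M` which are tangent to a twisted symmetric differential (`TangentW`), or null for a form `G`
(`NullFor G f`: `G (F, F ∧ F') = 0`).
-/

set_option autoImplicit false

open Topology Filter Metric MvPolynomial

noncomputable section

namespace Pool.Agent.MQ3

open Pool.Agent.H36.BP (EN)
open Pool.Agent.H14.PP (Tan)
open Pool.Agent.H14.V (IsLift)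
open Pool.Agent.H17 (PN VanishesAt HolomorphicInto)

variable {M : ℕ} {P : Ideal (MvPolynomial (Fin (M + 1)) ℂ)} {X : Set (EN M)} {m : ℕ}

/-- the entire curve `f` is tangent to the twisted symmetric differential `θ` -/
def TangentW (θ : WDiff X m) (f : ℂ → PN M) : Prop := ∃ F, IsLift F f ∧ ∀ z, θ.toFun (F z) (deriv F z) = 0

end Pool.Agent.MQ3

end
end

section

/-!
# MQ3 SmallD: small classes of entire curves
-/

set_option autoImplicit false

open MvPolynomial

namespace Pool.Agent.MQ3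

open Pool.Agent.H36.BP (EN)
open Pool.Agent.H14.PP (Tan)
open Pool.Agent.H17 (PN VanishesAt HolomorphicInto)
open Pool.Agent.H17EF (projVar coneE)
open Pool.Agent.H13.OT (OrderTwo)

/-- The set `A` of entire curves in the surface of `P` is small: its nonconstant members with `T_f (r) = O (r ^ 2)` lie in one curve `{R = 0}` or are tangent
to one twisted symmetric differential `θ` of degree `m ≥ 1` which is not `0` at the points of a dense subset of the surface. -/
def SmallClass {N : ℕ} (P : Ideal (MvPolynomial (Fin (N + 1)) ℂ)) (A : Set (ℂ → PN N)) : Prop :=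
  ∃ (m : ℕ) (θ : WDiff (coneE P) m) (R : MvPolynomial (Fin (N + 1)) ℂ) (d : ℕ), 1 ≤ m ∧
    coneE P ⊆ closure {x | x ∈ coneE P ∧ ∃ v, Tan (coneE P) x v ∧ θ.toFun x v ≠ 0} ∧ R.IsHomogeneous d ∧ R ∉ P ∧
      ∀ f : ℂ → PN N, HolomorphicInto f Set.univ → OrderTwo f → (∀ z, f z ∈ projVar P) → (∃ z w, f z ≠ f w) → f ∈ A →
        (∀ z, VanishesAt R (f z)) ∨ TangentW θ f

end Pool.Agent.MQ3

end

section

/-!
# SG DuvD: the neighbourhood of a smooth rational curve with self-intersection `-2`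

A neighbourhood of such a curve `C` is isomorphic to the neighbourhood of the zero section in the line bundle `O(-2)` on the projective line, that
is, to the quotient of the blow-up of a ball in `ℂ²` by `± 1`.
-/

set_option autoImplicit false

open Topology Filter Metric

namespace Pool.Agent.SG

open Pool.Agent.H36.BP (EN)
open Pool.Agent.H17BP (IsChart Pr)

variable {N : ℕ}

/-- `x = σ 0` is a point of a smooth rational curve `C` of self-intersection `-2`; in the chart `σ` with the coordinates `(u, v)` the curve `C` is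
`{u = 0}`.  `Φ` is the map from the punctured ball in `ℂ²` onto the complement of `C` in a neighbourhood of `C`, near `σ 0` it is given by
`u = a ^ 2`, `v = b / a`; the homogeneous part `G` of lowest degree of `Φ` is the parametrisation of `C` by forms of degree `d` without common zeros,
and (`Φ` is even up to the sign) there is no part of degree `d + 1`. -/
structure MinusTwo (X : Set (EN N)) (σ : ℂ × ℂ → EN N) (τ : EN N → ℂ × ℂ) (Φ G : ℂ × ℂ → EN N) (d : ℕ) : Prop where
  chart : IsChart X σ τ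
  an : AnalyticOnNhd ℂ Φ (ball 0 1)
  mem : ∀ p ∈ ball (0 : ℂ × ℂ) 1, p ≠ 0 → Φ p ∈ X
  G_an : ∀ p, AnalyticAt ℂ G p
  G_smul : ∀ (c : ℂ) (p : ℂ × ℂ), G (c • p) = c ^ d • G p
  G_ne : ∀ p : ℂ × ℂ, p ≠ 0 → G p ≠ 0
  rem : ∃ C : ℝ, ∀ p ∈ ball (0 : ℂ × ℂ) 1, ‖Φ p - G p‖ ≤ C * ‖p‖ ^ (d + 2)
  rel : ∀ᶠ q in 𝓝 (0 : ℂ × ℂ), q.1 ≠ 0 → Pr (Φ (q.1, q.1 * q.2)) (σ (q.1 ^ 2, q.2))

end Pool.Agent.SG

end

section

/-!
# SG2 NegD: surfaces with negative curves, the definitions for the final statement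

`NegSurf`: a section `Ω` of `m K - j H` whose zeros are contained in the curve `D₀ = {Q k = 0 for all k}`.
-/

set_option autoImplicit false

open Topology Filter MvPolynomial

namespace Pool.Agent.SG2

open Pool.Agent.H36.BP (EN)
open Pool.Agent.H17BP (Pr IsForm NoZeros IsChart)
open Pool.Agent.H17EF (coneE)
open Pool.Agent.SG (MinusTwo)

variable {N : ℕ}

/-- A rational curve of degree `d` in the surface with the cone `X`: `K` is the lift of the affine line, `K'` the lift near infinity. -/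
structure RatCurve (X : Set (EN N)) (d : ℕ) (K K' : ℂ → EN N) : Prop where
  diff : Differentiable ℂ K
  diff' : Differentiable ℂ K'
  mem : ∀ z, K z ∈ X
  mem' : ∀ z, K' z ∈ X
  rel : ∀ z : ℂ, z ≠ 0 → K z = z ^ d • K' z⁻¹

/-- the common zeros of the forms `Q k` on the surface -/
def zers (P : Ideal (MvPolynomial (Fin (N + 1)) ℂ)) {κ : Type} (Q : κ → MvPolynomial (Fin (N + 1)) ℂ) : Set (EN N) :=
  {x | x ∈ coneE P ∧ ∀ k, eval x.ofLp (Q k) = 0}

/-- The curve `zers P Q` is smooth at `x`, given in the chart `σ` by `p.1 = 0`, with the reduced equation `Q k`, and `Ω` vanishes to order at most `μ`. -/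
def SmoothPt (P : Ideal (MvPolynomial (Fin (N + 1)) ℂ)) (Ω : EN N → EN N → EN N → ℂ) {κ : Type} (Q : κ → MvPolynomial (Fin (N + 1)) ℂ) (μ : ℕ)
    (x : EN N) : Prop :=
  ∃ (k : κ) (σ : ℂ × ℂ → EN N) (τ : EN N → ℂ × ℂ), IsChart (coneE P) σ τ ∧ σ 0 = x ∧
    (∃ R : ℂ × ℂ → ℂ, AnalyticAt ℂ R 0 ∧ R 0 ≠ 0 ∧ ∀ᶠ p in 𝓝 (0 : ℂ × ℂ), eval (σ p).ofLp (Q k) = p.1 * R p) ∧
    (∀ᶠ p in 𝓝 (0 : ℂ × ℂ), p.1 = 0 → ∀ i, eval (σ p).ofLp (Q i) = 0) ∧
    ∃ B : ℝ, ∀ᶠ p in 𝓝 (0 : ℂ × ℂ), ‖p.1‖ ^ μ ≤ B * ‖Ω (σ p) (fderiv ℂ σ p (1, 0)) (fderiv ℂ σ p (0, 1))‖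

/-- Two smooth rational curves with self-intersection `-2` meet transversally at `x` (given by the local models `MinusTwo`). -/
def Crossing (X : Set (EN N)) (x : EN N) : Prop :=
  ∃ (σ₁ : ℂ × ℂ → EN N) (τ₁ : EN N → ℂ × ℂ) (Φ₁ G₁ : ℂ × ℂ → EN N) (d₁ : ℕ) (σ₂ : ℂ × ℂ → EN N) (τ₂ : EN N → ℂ × ℂ) (Φ₂ G₂ : ℂ × ℂ → EN N) (d₂ : ℕ),
    MinusTwo X σ₁ τ₁ Φ₁ G₁ d₁ ∧ MinusTwo X σ₂ τ₂ Φ₂ G₂ d₂ ∧ Pr (σ₁ 0) x ∧ Pr (σ₂ 0) x ∧
      LinearIndependent ℂ ![x, fderiv ℂ σ₁ 0 (0, 1), fderiv ℂ σ₂ 0 (0, 1)]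

/-- A surface with a section `Ω` of `m K - j H` whose zeros lie in the curve `zers P Q`; this curve is covered by rational curves and contains the rational
curves of degree `d`, `j d ≤ μ`; at each of its points it is smooth and `Ω` vanishes to order at most `μ < m` (`SmoothPt`), or two curves with
self-intersection `-2` cross. -/
structure NegSurf (P : Ideal (MvPolynomial (Fin (N + 1)) ℂ)) (m j : ℕ) (Ω : EN N → EN N → EN N → ℂ) {κ : Type}
    (Q : κ → MvPolynomial (Fin (N + 1)) ℂ) (e μ : ℕ) : Prop where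
  one_j : 1 ≤ j
  lt : μ < m
  pos : 1 ≤ e
  form : IsForm (coneE P) m j Ω
  hom : ∀ k, (Q k).IsHomogeneous e
  noZeros : NoZeros (coneE P) (zers P Q) Ω
  loc : ∀ x ∈ zers P Q, SmoothPt P Ω Q μ x ∨ Crossing (coneE P) x
  cover : ∀ x ∈ zers P Q, ∃ (d : ℕ) (K K' : ℂ → EN N) (z : ℂ), 1 ≤ d ∧ RatCurve (coneE P) d K K' ∧ Pr (K z) x
  rat : ∀ (d : ℕ) (K K' : ℂ → EN N), 1 ≤ d → j * d ≤ μ → RatCurve (coneE P) d K K' → ∀ z, K z ∈ zers P Q

end Pool.Agent.SG2

end
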