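import Pool.Agent.H94.G6.M01
import Pool.Agent.H94.G6.M19
import Pool.Agent.H94.G6.M33

/-! The parts of this file: H22.HF.Div, H23.Omega, H68.KR.FT, MQ2.Formal. -/

section

/-!
# HF Div: division by powers of the first variable

`g : ℂ × E → ℂ` analytic at `0`, not zero near `0`: `g (s, x) = s ^ a * g' (s, x)` with `g' (0, ·)` not zero near `0`.

Proof.  Choose `ρ > 0` such that `g` is analytic at `(σ, x)` for `‖σ‖ ≤ ρ`, `‖x‖ < ρ`.  For `a : ℕ`, `‖s‖ < ρ`, `‖x‖ < ρ` put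
`G a (s, x) = (2 π i)⁻¹ ∮_{‖σ‖ = ρ} g (σ, x) / (σ ^ a (σ - s)) dσ`: analytic (`analyticAt_circleIntegral`), `G 0 = g` (Cauchy's formula), and
`G a (s, x) = G a (0, x) + s * G (a + 1) (s, x)` because `1 / (σ ^ a (σ - s)) = 1 / σ ^ (a + 1) + s / (σ ^ (a + 1) (σ - s))`.
If for all `a` `G a (0, ·) = 0` near `0`, then on `ball 0 ρ` (identity theorem `AnalyticOnNhd.eqOn_zero_of_preconnected_of_eventuallyEq_zero`), so for `‖x‖ < ρ`
`g (s, x) = s ^ a * G a (s, x)` for all `a`, and `‖G a (s, x)‖ ≤ C_x ρ ^ (- a) ρ / (ρ - ‖s‖)`, so `g (s, x) = 0` for `‖s‖ < ρ` (or: all the derivatives of `g (·, x)` at `0` are zero):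
contradiction.  Let `a` be minimal with `G a (0, ·)` not zero near `0`, `g' = G a`.
-/

set_option autoImplicit false

open Metric Set Filter Topology

namespace Pool.Agent.H22.HF

theorem exists_div {E : Type} [NormedAddCommGroup E] [NormedSpace ℂ E] [FiniteDimensional ℂ E] {g : ℂ × E → ℂ} (hg : AnalyticAt ℂ g 0)
    (hne : ¬ ∀ᶠ y in 𝓝 (0 : ℂ × E), g y = 0) :
    ∃ (a : ℕ) (g' : ℂ × E → ℂ), AnalyticAt ℂ g' 0 ∧ (∀ᶠ y in 𝓝 (0 : ℂ × E), g y = y.1 ^ a * g' y) ∧ ¬ ∀ᶠ x in 𝓝 (0 : E), g' (0, x) = 0 := by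
  classical
  obtain ⟨r, hr, hball⟩ := Metric.eventually_nhds_iff_ball.mp hg.eventually_analyticAt
  obtain ⟨ρ, hρ, hρr⟩ : ∃ ρ : ℝ, 0 < ρ ∧ ρ < r := ⟨r / 2, by linarith, by linarith⟩
  have hmem : ∀ (σ : ℂ) (x : E), ‖σ‖ ≤ ρ → ‖x‖ < r → AnalyticAt ℂ g (σ, x) := by
    intro σ x h1 h2
    refine hball _ ?_
    rw [mem_ball_zero_iff, Prod.norm_mk]
    exact max_lt (lt_of_le_of_lt h1 hρr) h2
  let G : ℕ → ℂ × E → ℂ := fun a y => (2 * Real.pi * Complex.I : ℂ)⁻¹ * ∮ σ in C(0, ρ), g (σ, y.2) / (σ ^ a * (σ - y.1))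
  have hne0 : ∀ σ ∈ sphere (0 : ℂ) ρ, ∀ s : ℂ, ‖s‖ < ρ → σ ≠ 0 ∧ σ - s ≠ 0 := by
    intro σ hσ s hs
    have hn : ‖σ‖ = ρ := by simpa using hσ
    constructor
    · rintro rfl
      rw [norm_zero] at hn
      linarith
    · intro h
      rw [sub_eq_zero] at h
      rw [h] at hn
      linarith
  have hGan : ∀ a (y : ℂ × E), ‖y.1‖ < ρ → ‖y.2‖ < r → AnalyticAt ℂ (G a) y := by
    intro a y h1 h2
    have h3 : AnalyticAt ℂ (fun p : ℂ × E => ∮ σ in C(0, ρ), (fun q : (ℂ × E) × ℂ => g (q.2, q.1.2) / (q.2 ^ a * (q.2 - q.1.1))) (p, σ)) y := by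
      refine analyticAt_circleIntegral (E := ℂ × E)
        (F := fun q : (ℂ × E) × ℂ => g (q.2, q.1.2) / (q.2 ^ a * (q.2 - q.1.1))) hρ ?_
      intro σ hσ
      have hn : ‖σ‖ = ρ := by simpa using hσ
      obtain ⟨e1, e2⟩ := hne0 σ hσ y.1 h1
      have a1 : AnalyticAt ℂ (fun q : (ℂ × E) × ℂ => g (q.2, q.1.2)) (y, σ) := by
        have h4 : AnalyticAt ℂ g ((fun q : (ℂ × E) × ℂ => (q.2, q.1.2)) (y, σ)) := hmem σ y.2 hn.le h2
        have h5 : AnalyticAt ℂ (fun q : (ℂ × E) × ℂ => (q.2, q.1.2)) (y, σ) :=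
          analyticAt_snd.prod (AnalyticAt.comp (g := Prod.snd) (f := Prod.fst) analyticAt_snd analyticAt_fst)
        exact AnalyticAt.comp (g := g) (f := fun q : (ℂ × E) × ℂ => (q.2, q.1.2)) h4 h5
      have a2 : AnalyticAt ℂ (fun q : (ℂ × E) × ℂ => q.2 ^ a * (q.2 - q.1.1)) (y, σ) :=
        (analyticAt_snd.pow a).mul (analyticAt_snd.sub (analyticAt_fst.comp analyticAt_fst))
      exact a1.div a2 (mul_ne_zero (pow_ne_zero _ e1) e2)
    exact analyticAt_const.mul h3
  have hcont : ∀ x : E, ‖x‖ < r → ContinuousOn (fun σ : ℂ => g (σ, x)) (sphere (0 : ℂ) ρ) := by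
    intro x hx σ hσ
    have hn : ‖σ‖ = ρ := by simpa using hσ
    have h4 : ContinuousAt g ((fun σ : ℂ => (σ, x)) σ) := (hmem σ x hn.le hx).continuousAt
    exact (ContinuousAt.comp (f := fun σ : ℂ => (σ, x)) h4 (Continuous.prodMk_left x).continuousAt).continuousWithinAt
  have hG0 : ∀ (s : ℂ) (x : E), ‖s‖ < ρ → ‖x‖ < r → G 0 (s, x) = g (s, x) := by
    intro s x h1 h2
    have hd : DiffContOnCl ℂ (fun σ : ℂ => g (σ, x)) (ball (0 : ℂ) ρ) := by
      refine DifferentiableOn.diffContOnCl ?_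
      rw [closure_ball _ hρ.ne']
      intro σ hσ
      have hn : ‖σ‖ ≤ ρ := by simpa using hσ
      have h4 : DifferentiableAt ℂ g ((fun σ : ℂ => (σ, x)) σ) := (hmem σ x hn h2).differentiableAt
      exact (DifferentiableAt.comp σ h4 (differentiableAt_id.prodMk (differentiableAt_const x))).differentiableWithinAt
    have h5 := hd.two_pi_i_inv_smul_circleIntegral_sub_inv_smul (w := s) (by simpa using h1)
    rw [smul_eq_mul] at h5
    rw [← h5]
    change (2 * Real.pi * Complex.I : ℂ)⁻¹ * _ = _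
    congr 1
    refine circleIntegral.integral_congr hρ.le ?_
    intro σ _
    simp only [pow_zero, one_mul, smul_eq_mul]
    rw [div_eq_mul_inv, mul_comm]
  have hrec : ∀ a (s : ℂ) (x : E), ‖s‖ < ρ → ‖x‖ < r → G a (s, x) = G a (0, x) + s * G (a + 1) (s, x) := by
    intro a s x h1 h2
    have i1 : CircleIntegrable (fun σ : ℂ => g (σ, x) / (σ ^ a * (σ - 0))) 0 ρ := by
      refine ContinuousOn.circleIntegrable hρ.le ((hcont x h2).div ?_ ?_)
      · fun_prop
      · intro σ hσ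
        obtain ⟨e1, e2⟩ := hne0 σ hσ 0 (by simpa using hρ)
        exact mul_ne_zero (pow_ne_zero _ e1) e2
    have i2 : CircleIntegrable (fun σ : ℂ => s * (g (σ, x) / (σ ^ (a + 1) * (σ - s)))) 0 ρ := by
      refine ContinuousOn.circleIntegrable hρ.le (continuousOn_const.mul ((hcont x h2).div ?_ ?_))
      · fun_prop
      · intro σ hσ
        obtain ⟨e1, e2⟩ := hne0 σ hσ s h1
        exact mul_ne_zero (pow_ne_zero _ e1) e2
    have h3 : (∮ σ in C(0, ρ), g (σ, x) / (σ ^ a * (σ - s)))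
        = (∮ σ in C(0, ρ), g (σ, x) / (σ ^ a * (σ - 0))) + s * ∮ σ in C(0, ρ), g (σ, x) / (σ ^ (a + 1) * (σ - s)) := by
      rw [← circleIntegral.integral_const_mul, ← circleIntegral.integral_add i1 i2]
      refine circleIntegral.integral_congr hρ.le ?_
      intro σ hσ
      obtain ⟨e1, e2⟩ := hne0 σ hσ s h1
      simp only [sub_zero]
      field_simp
      ring
    change (2 * Real.pi * Complex.I : ℂ)⁻¹ * _ = (2 * Real.pi * Complex.I : ℂ)⁻¹ * _ + s * ((2 * Real.pi * Complex.I : ℂ)⁻¹ * _)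
    simp only
    rw [h3]
    ring
  have hid : ∀ a, (∀ᶠ x in 𝓝 (0 : E), G a (0, x) = 0) → ∀ x : E, ‖x‖ < r → G a (0, x) = 0 := by
    intro a ha x hx
    have h1 : AnalyticOnNhd ℂ (fun x : E => G a (0, x)) (ball (0 : E) r) := by
      intro z hz
      have h4 : AnalyticAt ℂ (G a) ((fun x : E => ((0 : ℂ), x)) z) := hGan a (0, z) (by simpa using hρ) (by simpa using hz)
      exact AnalyticAt.comp (g := G a) (f := fun x : E => ((0 : ℂ), x)) h4 (analyticAt_const.prod analyticAt_id)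
    exact h1.eqOn_zero_of_preconnected_of_eventuallyEq_zero (convex_ball _ _).isPreconnected (mem_ball_self hr) ha (by simpa using hx)
  have hpow : ∀ a, (∀ b < a, ∀ᶠ x in 𝓝 (0 : E), G b (0, x) = 0) → ∀ (s : ℂ) (x : E), ‖s‖ < ρ → ‖x‖ < r → g (s, x) = s ^ a * G a (s, x) := by
    intro a
    induction a with
    | zero =>
      intro _ s x h1 h2
      rw [pow_zero, one_mul, hG0 s x h1 h2]
    | succ a ih =>
      intro hb s x h1 h2
      rw [ih (fun b hb' => hb b (Nat.lt_succ_of_lt hb')) s x h1 h2, hrec a s x h1 h2, hid a (hb a (Nat.lt_succ_self a)) x h2, zero_add, pow_succ]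
      ring
  have hex : ∃ a, ¬ ∀ᶠ x in 𝓝 (0 : E), G a (0, x) = 0 := by
    by_contra hcon
    push Not at hcon
    have hall : ∀ b, ∀ᶠ x in 𝓝 (0 : E), G b (0, x) = 0 := hcon
    apply hne
    have hz : ∀ (s : ℂ) (x : E), ‖s‖ < ρ → ‖x‖ < r → g (s, x) = 0 := by
      intro s x hs hx
      have hf : AnalyticOnNhd ℂ (fun σ : ℂ => g (σ, x)) (ball (0 : ℂ) ρ) := by
        intro σ hσ
        have h4 : AnalyticAt ℂ g ((fun σ : ℂ => (σ, x)) σ) := hmem σ x (by simpa using (mem_ball_zero_iff.mp hσ).le) hx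
        exact AnalyticAt.comp h4 (analyticAt_id.prod analyticAt_const)
      have htop : analyticOrderAt (fun σ : ℂ => g (σ, x)) 0 = ⊤ := by
        refine ENat.eq_top_iff_forall_ge.mpr ?_
        intro a
        rw [natCast_le_analyticOrderAt (hf 0 (mem_ball_self hρ))]
        refine ⟨fun σ => G a (σ, x), ?_, ?_⟩
        · have h4 : AnalyticAt ℂ (G a) ((fun σ : ℂ => (σ, x)) 0) := hGan a (0, x) (by simpa using hρ) hx
          exact AnalyticAt.comp (g := G a) (f := fun σ : ℂ => (σ, x)) h4 (analyticAt_id.prod analyticAt_const)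
        · filter_upwards [ball_mem_nhds (0 : ℂ) hρ] with σ hσ
          rw [sub_zero, smul_eq_mul]
          exact hpow a (fun b _ => hall b) σ x (by simpa using hσ) hx
      rw [analyticOrderAt_eq_top] at htop
      exact hf.eqOn_zero_of_preconnected_of_eventuallyEq_zero (convex_ball _ _).isPreconnected (mem_ball_self hρ) htop (by simpa using hs)
    filter_upwards [ball_mem_nhds (0 : ℂ × E) hρ] with y hy
    rw [mem_ball_zero_iff, Prod.norm_def] at hy
    exact hz y.1 y.2 (lt_of_le_of_lt (le_max_left _ _) hy) (lt_trans (lt_of_le_of_lt (le_max_right _ _) hy) hρr)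
  refine ⟨Nat.find hex, G (Nat.find hex), hGan _ 0 (by simpa using hρ) (by simpa using hr), ?_, Nat.find_spec hex⟩
  filter_upwards [ball_mem_nhds (0 : ℂ × E) hρ] with y hy
  rw [mem_ball_zero_iff, Prod.norm_def] at hy
  refine hpow (Nat.find hex) ?_ y.1 y.2 (lt_of_le_of_lt (le_max_left _ _) hy) (lt_trans (lt_of_le_of_lt (le_max_right _ _) hy) hρr)
  intro b hb
  by_contra h
  exact Nat.find_min hex hb h

end Pool.Agent.H22.HF

end

section

set_option linter.style.haveILetI false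

noncomputable section

namespace Pool.Agent.H23

open scoped TensorProduct

variable {K : Type*} [Field K] [Algebra ℂ K]

lemma exists_poly_of_basis {σ : Type*} {g : σ → K} (hg : IsTranscendenceBasis ℂ g) (a : K) :
    ∃ F : Polynomial (MvPolynomial σ ℂ), F ≠ 0 ∧
      F.eval₂ (MvPolynomial.aeval g).toRingHom a = 0 := by
  have h1 := hg.isAlgebraic
  obtain ⟨p, hp, hpa⟩ := h1.isAlgebraic a
  let e : Algebra.adjoin ℂ (Set.range g) →+* MvPolynomial σ ℂ :=
    (hg.1.aevalEquiv.symm : Algebra.adjoin ℂ (Set.range g) →+* MvPolynomial σ ℂ)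
  have he : (MvPolynomial.aeval g).toRingHom.comp e =
      algebraMap (Algebra.adjoin ℂ (Set.range g)) K := by
    ext x
    have h2 := hg.1.algebraMap_aevalEquiv (hg.1.aevalEquiv.symm x)
    rw [AlgEquiv.apply_symm_apply] at h2
    exact h2.symm
  refine ⟨p.map e, ?_, ?_⟩
  · rwa [Ne, Polynomial.map_eq_zero_iff]
    exact hg.1.aevalEquiv.symm.injective
  · rw [Polynomial.eval₂_map, he]
    exact hpa

/-- For a transcendence basis `g` of `K/ℂ`, the differentials `dg i` form a basis of `Ω_{K/ℂ}`. -/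
theorem exists_basis_kaehler {σ : Type*} {g : σ → K} (hg : IsTranscendenceBasis ℂ g) :
    ∃ b : Module.Basis σ K Ω[K⁄ℂ], ∀ i, b i = KaehlerDifferential.D ℂ K (g i) := by
  classical
  letI alg1 : Algebra (MvPolynomial σ ℂ) K := (MvPolynomial.aeval g).toRingHom.toAlgebra
  have hmap : ∀ r, algebraMap (MvPolynomial σ ℂ) K r = MvPolynomial.aeval g r := fun _ => rfl
  haveI : FaithfulSMul (MvPolynomial σ ℂ) K := by
    rw [faithfulSMul_iff_algebraMap_injective]
    exact hg.1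
  haveI : IsScalarTower ℂ (MvPolynomial σ ℂ) K := by
    apply IsScalarTower.of_algebraMap_eq
    intro c
    rw [hmap, MvPolynomial.algebraMap_eq, MvPolynomial.aeval_C]
  letI alg2 : Algebra (FractionRing (MvPolynomial σ ℂ)) K := FractionRing.liftAlgebra _ K
  haveI : IsScalarTower (MvPolynomial σ ℂ) (FractionRing (MvPolynomial σ ℂ)) K :=
    inferInstance
  haveI : Algebra.IsAlgebraic (MvPolynomial σ ℂ) K := by
    refine ⟨fun a => ?_⟩
    obtain ⟨F, h1, h2⟩ := exists_poly_of_basis hg a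
    exact ⟨F, h1, h2⟩
  haveI : Algebra.IsAlgebraic (FractionRing (MvPolynomial σ ℂ)) K :=
    (IsFractionRing.comap_isAlgebraic_iff (A := (MvPolynomial σ ℂ))).1 this
  haveI : CharZero (FractionRing (MvPolynomial σ ℂ)) :=
    algebraRat.charZero _
  haveI : Algebra.IsSeparable (FractionRing (MvPolynomial σ ℂ)) K := inferInstance
  haveI : Algebra.FormallyEtale (MvPolynomial σ ℂ) (FractionRing (MvPolynomial σ ℂ)) :=
    Algebra.FormallyEtale.of_isLocalization (nonZeroDivisors _)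
  haveI : Algebra.FormallyEtale (FractionRing (MvPolynomial σ ℂ)) K :=
    Algebra.FormallyEtale.of_isSeparable _ K
  haveI : Algebra.FormallyEtale (MvPolynomial σ ℂ) K :=
    Algebra.FormallyEtale.comp _ (FractionRing (MvPolynomial σ ℂ)) _
  let e := KaehlerDifferential.tensorKaehlerEquivOfFormallyEtale ℂ (MvPolynomial σ ℂ) K
  let b := ((KaehlerDifferential.mvPolynomialBasis ℂ σ).baseChange K).map e
  refine ⟨b, fun i => ?_⟩
  simp only [b, Module.Basis.map_apply, Module.Basis.baseChange_apply,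
    KaehlerDifferential.mvPolynomialBasis_apply]
  rw [KaehlerDifferential.tensorKaehlerEquivOfFormallyEtale_apply]
  rw [KaehlerDifferential.mapBaseChange_tmul, one_smul, KaehlerDifferential.map_D, hmap,
    MvPolynomial.aeval_X]

end Pool.Agent.H23

end
end

section

/-!
# KR FT: top forms

Let `b` be the basis of `Ω[K⁄ℂ]` with `b i = d (a i)` (`Pool.Agent.H23.exists_basis_kaehler`).  `⋀[K]^2 Ω` is spanned by the
elements `ιMulti v` (`exteriorPower.ιMulti_span`), and `ιMulti v = b.det v • ιMulti b` for `v : Fin 2 → Ω` (two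
alternating maps which agree on the basis, `Module.Basis.ext_alternating`; the right hand side is an alternating map of
`v`, e.g. `(b.det).smulRight`-like; or expand `v 0`, `v 1` in the basis by hand).  So every element is `W • ιMulti b`,
which is `Form.mk W a` (unfold `Form`, `ExtPow`, `Form.mk`, `ExtPow.wedge`, `d`).
-/

set_option autoImplicit false

open Pool.Agent.H23.Fano (Form)

noncomputable section

namespace Pool.Agent.H68.KR

private theorem FT_ext_smul {K V : Type} [Field K] [AddCommGroup V] [Module K V] {n : ℕ}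
    (b : Module.Basis (Fin n) K V) (v : Fin n → V) :
    exteriorPower.ιMulti K n v = b.det v • exteriorPower.ιMulti K n b := by
  have h : exteriorPower.ιMulti K n (M := V) =
      ((LinearMap.toSpanSingleton K (⋀[K]^n V) (exteriorPower.ιMulti K n b)).compAlternatingMap
        b.det) := by
    refine Module.Basis.ext_alternating b fun i hi => ?_
    let σ : Equiv.Perm (Fin n) := Equiv.ofBijective i (Finite.injective_iff_bijective.1 hi)
    change exteriorPower.ιMulti K n (b ∘ σ) = _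
    change _ = (LinearMap.toSpanSingleton K (⋀[K]^n V) (exteriorPower.ιMulti K n b))
      (b.det (b ∘ σ))
    rw [AlternatingMap.map_perm, AlternatingMap.map_perm, b.det_self,
      LinearMap.toSpanSingleton_apply]
    rcases Int.units_eq_one_or (Equiv.Perm.sign σ) with h1 | h1 <;> simp [h1]
  have h2 := congrArg (fun f => f v) h
  simpa using h2

private theorem FT_exists_smul {K V : Type} [Field K] [AddCommGroup V] [Module K V] {n : ℕ}
    (b : Module.Basis (Fin n) K V) (ω : ⋀[K]^n V) :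
    ∃ W : K, ω = W • exteriorPower.ιMulti K n b := by
  have h : ω ∈ Submodule.span K (Set.range (exteriorPower.ιMulti K n (M := V))) := by
    rw [exteriorPower.ιMulti_span]
    exact Submodule.mem_top
  induction h using Submodule.span_induction with
  | mem x hx =>
    obtain ⟨v, rfl⟩ := hx
    exact ⟨b.det v, FT_ext_smul b v⟩
  | zero => exact ⟨0, by simp⟩
  | add x y hx hy h1 h2 =>
    obtain ⟨W1, h1⟩ := h1
    obtain ⟨W2, h2⟩ := h2
    exact ⟨W1 + W2, by rw [h1, h2, add_smul]⟩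
  | smul c x hx h1 =>
    obtain ⟨W1, h1⟩ := h1
    exact ⟨c * W1, by rw [h1, mul_smul]⟩

private theorem FT_exists_form {K : Type} [Field K] [Algebra ℂ K] {a : Fin 2 → K}
    (b : Module.Basis (Fin 2) K Ω[K⁄ℂ]) (hb : ∀ i, b i = KaehlerDifferential.D ℂ K (a i))
    (ω : Form K 2) : ∃ W : K, ω = Form.mk W a := by
  obtain ⟨W, hW⟩ := FT_exists_smul b (show ⋀[K]^2 Ω[K⁄ℂ] from ω)
  refine ⟨W, ?_⟩
  have h1 : (b : Fin 2 → Ω[K⁄ℂ]) = fun i => KaehlerDifferential.D ℂ K (a i) := funext hb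
  rw [h1] at hW
  exact hW

theorem exists_form_mk {K : Type} [Field K] [Algebra ℂ K] {a : Fin 2 → K}
    (ha : IsTranscendenceBasis ℂ a) (ω : Form K 2) : ∃ W : K, ω = Form.mk W a := by
  obtain ⟨b, hb⟩ := Pool.Agent.H23.exists_basis_kaehler ha
  exact FT_exists_form b hb ω

end Pool.Agent.H68.KR

end
end

section

/-!
# MQ2 Formal: the formal weak separatrix of a saddle-node
-/

set_option autoImplicit false

open Topology Filter Asymptotics

noncomputable section

namespace Pool.Agent.MQ2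

open Pool.Agent.MQ (jet)

namespace Formal

theorem jet_succ (c : ℕ → ℂ) (J : ℕ) (t : ℂ) : jet c (J + 1) t = jet c J t + c (J + 1) * t ^ (J + 1) := by
  unfold jet
  rw [Finset.sum_range_succ]

theorem jet_congr {c c' : ℕ → ℂ} {J : ℕ} (h : ∀ i ≤ J, c' i = c i) : jet c' J = jet c J := by
  funext t
  unfold jet
  exact Finset.sum_congr rfl fun i hi => by rw [h i (Nat.lt_succ_iff.1 (Finset.mem_range.1 hi))]

theorem jet_zero {c : ℕ → ℂ} (hc : c 0 = 0) (J : ℕ) : jet c J 0 = 0 := by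
  unfold jet
  refine Finset.sum_eq_zero fun i _ => ?_
  rcases Nat.eq_zero_or_pos i with h | h
  · rw [h, hc, zero_mul]
  · rw [zero_pow h.ne', mul_zero]

theorem analyticAt_jet (c : ℕ → ℂ) (J : ℕ) (t : ℂ) : AnalyticAt ℂ (jet c J) t := by
  have h : AnalyticAt ℂ (fun s : ℂ => ∑ i ∈ Finset.range (J + 1), c i * s ^ i) t :=
    Finset.analyticAt_fun_sum _ fun i _ => analyticAt_const.mul (analyticAt_id.pow i)
  exact h

/-- an analytic function of order at least `n` -/
theorem exists_div {n : ℕ} : ∀ {f : ℂ → ℂ}, AnalyticAt ℂ f 0 → (f =O[𝓝 0] fun t : ℂ => t ^ n) →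
    ∃ g : ℂ → ℂ, AnalyticAt ℂ g 0 ∧ ∀ᶠ t in 𝓝 (0 : ℂ), f t = t ^ n * g t := by
  induction n with
  | zero => exact fun {f} hf _ => ⟨f, hf, Eventually.of_forall fun t => by simp⟩
  | succ n ih =>
    intro f hf h
    have h1 : f =O[𝓝 0] fun t : ℂ => t ^ n := by
      refine h.trans ?_
      have h2 : (fun t : ℂ => t ^ (n + 1)) = fun t => t ^ n * t := by funext t; ring
      rw [h2]
      have h3 : (fun t : ℂ => t) =O[𝓝 0] fun _ : ℂ => (1 : ℂ) := continuousAt_id.isBigO_one ℂ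
      simpa using (isBigO_refl (fun t : ℂ => t ^ n) (𝓝 0)).mul h3
    obtain ⟨g, hg, he⟩ := ih hf h1
    -- `g 0 = 0`
    have hg0 : g 0 = 0 := by
      obtain ⟨C, hC⟩ := h.bound
      have h2 : ∀ᶠ t in 𝓝[≠] (0 : ℂ), ‖g t‖ ≤ C * ‖t‖ := by
        filter_upwards [hC.filter_mono nhdsWithin_le_nhds, he.filter_mono nhdsWithin_le_nhds, self_mem_nhdsWithin] with t ht1 ht2 ht3
        have h0 : 0 < ‖t‖ ^ n := pow_pos (norm_pos_iff.2 ht3) n
        rw [ht2, norm_mul, norm_pow, norm_pow, pow_succ] at ht1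
        have : ‖t‖ ^ n * ‖g t‖ ≤ ‖t‖ ^ n * (C * ‖t‖) := by linarith
        exact le_of_mul_le_mul_left this h0
      have h3 : Tendsto (fun t : ℂ => ‖g t‖) (𝓝[≠] 0) (𝓝 ‖g 0‖) := hg.continuousAt.norm.tendsto.mono_left nhdsWithin_le_nhds
      have h4 : Tendsto (fun t : ℂ => C * ‖t‖) (𝓝[≠] 0) (𝓝 0) := by
        have : Continuous fun t : ℂ => C * ‖t‖ := by fun_prop
        have h5 := this.tendsto 0
        simp only [norm_zero, mul_zero] at h5
        exact h5.mono_left nhdsWithin_le_nhds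
      have := le_of_tendsto_of_tendsto h3 h4 h2
      exact norm_le_zero_iff.1 this
    have hord : ((1 : ℕ) : ℕ∞) ≤ analyticOrderAt g 0 := by
      have : analyticOrderAt g 0 ≠ 0 := hg.analyticOrderAt_ne_zero.2 hg0
      exact_mod_cast Order.one_le_iff_ne_zero.2 this
    obtain ⟨g₁, hg₁, he₁⟩ := (natCast_le_analyticOrderAt hg).1 hord
    refine ⟨g₁, hg₁, ?_⟩
    filter_upwards [he, he₁] with t ht ht₁
    rw [ht, ht₁]
    simp only [sub_zero, smul_eq_mul, pow_one]
    ring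

/-- the leading coefficient -/
theorem exists_coeff {f : ℂ → ℂ} {n : ℕ} (hf : AnalyticAt ℂ f 0) (h : f =O[𝓝 0] fun t : ℂ => t ^ n) :
    ∃ r : ℂ, (fun t => f t - r * t ^ n) =o[𝓝 0] fun t : ℂ => t ^ n := by
  obtain ⟨g, hg, he⟩ := exists_div hf h
  refine ⟨g 0, ?_⟩
  have h1 : (fun t => g t - g 0) =o[𝓝 0] fun _ : ℂ => (1 : ℂ) := by
    rw [isLittleO_one_iff]
    have := hg.continuousAt.tendsto.sub_const (g 0)
    rwa [sub_self] at this
  have h2 : (fun t => t ^ n * (g t - g 0)) =o[𝓝 0] fun t : ℂ => t ^ n := by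
    simpa using (isBigO_refl (fun t : ℂ => t ^ n) (𝓝 0)).mul_isLittleO h1
  refine h2.congr' ?_ EventuallyEq.rfl
  filter_upwards [he] with t ht
  rw [ht]
  ring

theorem isBigO_succ {f : ℂ → ℂ} {n : ℕ} (hf : AnalyticAt ℂ f 0) (h : f =o[𝓝 0] fun t : ℂ => t ^ n) : f =O[𝓝 0] fun t : ℂ => t ^ (n + 1) := by
  obtain ⟨g, hg, he⟩ := exists_div hf h.isBigO
  have hg0 : g 0 = 0 := by
    by_contra h0
    have h1 : Tendsto (fun t => f t / t ^ n) (𝓝[≠] 0) (𝓝 0) := (h.mono nhdsWithin_le_nhds).tendsto_div_nhds_zero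
    have h2 : Tendsto (fun t => f t / t ^ n) (𝓝[≠] 0) (𝓝 (g 0)) := by
      refine (hg.continuousAt.tendsto.mono_left nhdsWithin_le_nhds).congr' ?_
      filter_upwards [he.filter_mono nhdsWithin_le_nhds, self_mem_nhdsWithin] with t ht ht0
      rw [ht, mul_div_cancel_left₀ _ (pow_ne_zero n ht0)]
    exact h0 (tendsto_nhds_unique h2 h1)
  have h3 : g =O[𝓝 0] fun t : ℂ => t := by
    have := hg.differentiableAt.isBigO_sub
    simpa [hg0] using this
  have h4 : (fun t => t ^ n * g t) =O[𝓝 0] fun t : ℂ => t ^ (n + 1) := by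
    have h5 : (fun t : ℂ => t ^ (n + 1)) = fun t => t ^ n * t := by funext t; ring
    rw [h5]
    exact (isBigO_refl (fun t : ℂ => t ^ n) (𝓝 0)).mul h3
  exact h4.congr' (by filter_upwards [he] with t ht; rw [ht]) EventuallyEq.rfl

/-- the defect of the jet -/
def Df (a b : ℂ × ℂ → ℂ) (k : ℕ) (c : ℕ → ℂ) (J : ℕ) (t : ℂ) : ℂ :=
  b (t, jet c J t) - deriv (jet c J) t * (t ^ (k + 1) * a (t, jet c J t))

theorem analyticAt_pair {c : ℕ → ℂ} (hc : c 0 = 0) (J : ℕ) {f : ℂ × ℂ → ℂ} (hf : AnalyticAt ℂ f 0) :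
    AnalyticAt ℂ (fun t : ℂ => f (t, jet c J t)) 0 := by
  have h1 : AnalyticAt ℂ (fun t : ℂ => (t, jet c J t)) 0 := analyticAt_id.prod (analyticAt_jet c J 0)
  have h2 : (fun t : ℂ => (t, jet c J t)) 0 = 0 := by simp [jet_zero hc]
  exact AnalyticAt.comp_of_eq hf h1 h2

theorem analyticAt_Df {a b : ℂ × ℂ → ℂ} (ha : AnalyticAt ℂ a 0) (hb : AnalyticAt ℂ b 0) (k : ℕ) {c : ℕ → ℂ} (hc : c 0 = 0) (J : ℕ) :
    AnalyticAt ℂ (Df a b k c J) 0 :=
  (analyticAt_pair hc J hb).sub ((analyticAt_jet c J 0).deriv.mul ((analyticAt_id.pow (k + 1)).mul (analyticAt_pair hc J ha)))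

theorem step {a b : ℂ × ℂ → ℂ} (ha : AnalyticAt ℂ a 0) (hb : AnalyticAt ℂ b 0) (hb1 : fderiv ℂ b 0 (0, 1) ≠ 0) {k : ℕ} (hk : 1 ≤ k)
    {c : ℕ → ℂ} (hc : c 0 = 0) {J : ℕ} (h : Df a b k c J =O[𝓝 0] fun t : ℂ => t ^ (J + 1)) :
    ∃ x : ℂ, ∀ c' : ℕ → ℂ, (∀ i ≤ J, c' i = c i) → c' (J + 1) = x → Df a b k c' (J + 1) =O[𝓝 0] fun t : ℂ => t ^ (J + 1 + 1) := by
  obtain ⟨r, hr⟩ := exists_coeff (analyticAt_Df ha hb k hc J) h
  set β := fderiv ℂ b 0 (0, 1) with hβ
  refine ⟨-r / β, fun c' hc' hx => ?_⟩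
  set x := -r / β with hxd
  have hc0' : c' 0 = 0 := by rw [hc' 0 (Nat.zero_le _), hc]
  have hj : ∀ t, jet c' (J + 1) t = jet c J t + x * t ^ (J + 1) := fun t => by rw [jet_succ, jet_congr hc', hx]
  have hdj : ∀ t, deriv (jet c' (J + 1)) t = deriv (jet c J) t + x * ((J + 1) * t ^ J) := by
    intro t
    have e : jet c' (J + 1) = fun t => jet c J t + x * t ^ (J + 1) := funext hj
    have h1 : HasDerivAt (fun t : ℂ => x * t ^ (J + 1)) (x * ((J + 1) * t ^ J)) t := by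
      have := (hasDerivAt_pow (J + 1) t).const_mul x
      simpa using this
    rw [e]
    exact ((analyticAt_jet c J t).differentiableAt.hasDerivAt.add h1).deriv
  -- the two curves
  set p : ℂ → ℂ × ℂ := fun t => (t, jet c' (J + 1) t) with hp
  set q : ℂ → ℂ × ℂ := fun t => (t, jet c J t) with hq
  have hpt : Tendsto p (𝓝 0) (𝓝 0) := by
    have h1 : ContinuousAt p 0 := continuousAt_id.prodMk (analyticAt_jet c' (J + 1) 0).continuousAt
    have h2 : p 0 = 0 := by simp [hp, jet_zero hc0']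
    rw [← h2]
    conv_rhs => rw [h2]
    have := h1.tendsto
    rwa [h2] at this
  have hqt : Tendsto q (𝓝 0) (𝓝 0) := by
    have h1 : ContinuousAt q 0 := continuousAt_id.prodMk (analyticAt_jet c J 0).continuousAt
    have h2 : q 0 = 0 := by simp [hq, jet_zero hc]
    have := h1.tendsto
    rwa [h2] at this
  have hpq : ∀ t, p t - q t = (0, x * t ^ (J + 1)) := by
    intro t
    simp only [hp, hq, hj, Prod.mk_sub_mk, sub_self, add_sub_cancel_left]
  have hpqO : (fun t => p t - q t) =O[𝓝 0] fun t : ℂ => t ^ (J + 1) := by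
    refine IsBigO.of_bound ‖x‖ (Eventually.of_forall fun t => ?_)
    rw [hpq]
    have h0 : 0 ≤ ‖x‖ * ‖t‖ ^ (J + 1) := by positivity
    simpa [Prod.norm_def] using h0
  have hpair : Tendsto (fun t => (p t, q t)) (𝓝 0) (𝓝 ((0 : ℂ × ℂ), (0 : ℂ × ℂ))) := by
    rw [nhds_prod_eq]
    exact hpt.prodMk hqt
  -- `b`
  have hB : (fun t => b (p t) - b (q t) - β * (x * t ^ (J + 1))) =o[𝓝 0] fun t : ℂ => t ^ (J + 1) := by
    have h1 := hb.hasStrictFDerivAt.isLittleO.comp_tendsto hpair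
    have h2 : (fun t => b (p t) - b (q t) - fderiv ℂ b 0 (p t - q t)) =o[𝓝 0] fun t => p t - q t := h1
    refine (h2.trans_isBigO hpqO).congr' (Eventually.of_forall fun t => ?_) EventuallyEq.rfl
    have h3 : fderiv ℂ b 0 (p t - q t) = β * (x * t ^ (J + 1)) := by
      rw [hpq]
      have : ((0 : ℂ), x * t ^ (J + 1)) = (x * t ^ (J + 1)) • ((0 : ℂ), (1 : ℂ)) := by simp
      rw [this, map_smul, smul_eq_mul, mul_comm]
    simp only [h3]
  -- `a`
  have hA : (fun t => a (p t) - a (q t)) =O[𝓝 0] fun t : ℂ => t ^ (J + 1) := by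
    have h1 := hb.hasStrictFDerivAt
    have h2 := ha.hasStrictFDerivAt.isBigO_sub.comp_tendsto hpair
    exact IsBigO.trans h2 hpqO
  have hap : (fun t => a (p t)) =O[𝓝 0] fun _ : ℂ => (1 : ℂ) :=
    ((ha.continuousAt.tendsto.comp hpt).isBigO_one ℂ)
  have htk : (fun t : ℂ => t ^ (k + 1)) =o[𝓝 0] fun _ : ℂ => (1 : ℂ) := by
    rw [isLittleO_one_iff]
    have : Continuous fun t : ℂ => t ^ (k + 1) := by fun_prop
    have h5 := this.tendsto 0
    simpa using h5
  have hdjO : (fun t => deriv (jet c J) t) =O[𝓝 0] fun _ : ℂ => (1 : ℂ) :=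
    ((analyticAt_jet c J 0).deriv.continuousAt.tendsto.isBigO_one ℂ)
  have hT1 : (fun t => deriv (jet c J) t * (t ^ (k + 1) * (a (p t) - a (q t)))) =o[𝓝 0] fun t : ℂ => t ^ (J + 1) := by
    have := hdjO.mul_isLittleO (htk.mul_isBigO hA)
    simpa using this
  have hT2 : (fun t => x * ((J + 1) * t ^ J) * (t ^ (k + 1) * a (p t))) =o[𝓝 0] fun t : ℂ => t ^ (J + 1) := by
    have hk' : (fun t : ℂ => t ^ k) =o[𝓝 0] fun _ : ℂ => (1 : ℂ) := by
      rw [isLittleO_one_iff]
      have : Continuous fun t : ℂ => t ^ k := by fun_prop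
      have h5 := this.tendsto 0
      simpa [zero_pow (by omega : k ≠ 0)] using h5
    have h1 : (fun t : ℂ => t ^ (J + 1) * (t ^ k * a (p t))) =o[𝓝 0] fun t : ℂ => t ^ (J + 1) := by
      simpa using (isBigO_refl (fun t : ℂ => t ^ (J + 1)) (𝓝 0)).mul_isLittleO (hk'.mul_isBigO hap)
    refine (h1.const_mul_left (x * (J + 1))).congr' (Eventually.of_forall fun t => ?_) EventuallyEq.rfl
    ring
  -- assembly
  have hβ0 : β * x = -r := by rw [hxd]; field_simp
  refine isBigO_succ (analyticAt_Df ha hb k hc0' (J + 1)) ?_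
  have := ((hr.add hB).sub hT1).sub hT2
  refine this.congr' (Eventually.of_forall fun t => ?_) EventuallyEq.rfl
  simp only [Df]
  rw [hdj]
  change b (q t) - deriv (jet c J) t * (t ^ (k + 1) * a (q t)) - r * t ^ (J + 1) + (b (p t) - b (q t) - β * (x * t ^ (J + 1))) -
    deriv (jet c J) t * (t ^ (k + 1) * (a (p t) - a (q t))) - x * ((J + 1) * t ^ J) * (t ^ (k + 1) * a (p t)) =
    b (p t) - (deriv (jet c J) t + x * ((J + 1) * t ^ J)) * (t ^ (k + 1) * a (p t))
  have h6 : β * (x * t ^ (J + 1)) = -r * t ^ (J + 1) := by rw [← mul_assoc, hβ0]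
  rw [h6]
  ring

end Formal

open Formal

/-- **Module Formal.**  The formal curve `y = ∑ c i x ^ i` which is invariant by `x ^ (k + 1) a ∂/∂x + b ∂/∂y`, `b (0) = 0`, `b_y (0) ≠ 0`. -/
theorem exists_formal {a b : ℂ × ℂ → ℂ} (ha : AnalyticAt ℂ a 0) (hb : AnalyticAt ℂ b 0) (hb0 : b 0 = 0) (hb1 : fderiv ℂ b 0 (0, 1) ≠ 0)
    {k : ℕ} (hk : 1 ≤ k) : ∃ c : ℕ → ℂ, c 0 = 0 ∧
      ∀ J, (fun t => b (t, jet c J t) - deriv (jet c J) t * (t ^ (k + 1) * a (t, jet c J t))) =O[𝓝 0] fun t : ℂ => t ^ (J + 1) := by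
  classical
  -- the recursion
  have hstep : ∀ (J : ℕ) (c : {c : ℕ → ℂ // c 0 = 0 ∧ Df a b k c J =O[𝓝 0] fun t : ℂ => t ^ (J + 1)}),
      ∃ c' : {c : ℕ → ℂ // c 0 = 0 ∧ Df a b k c (J + 1) =O[𝓝 0] fun t : ℂ => t ^ (J + 1 + 1)}, ∀ i ≤ J, c'.1 i = c.1 i := by
    rintro J ⟨c, hc, h⟩
    obtain ⟨x, hx⟩ := step ha hb hb1 hk hc h
    have h1 : ∀ i ≤ J, Function.update c (J + 1) x i = c i := fun i hi => Function.update_of_ne (by omega) _ _
    refine ⟨⟨Function.update c (J + 1) x, ?_, hx _ h1 (Function.update_self _ _ _)⟩, h1⟩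
    rw [h1 0 (Nat.zero_le _), hc]
  choose nxt hnxt using hstep
  have h0 : Df a b k (fun _ => 0) 0 =O[𝓝 0] fun t : ℂ => t ^ (0 + 1) := by
    have hj : jet (fun _ => 0) 0 = fun _ => 0 := by funext t; simp [jet]
    have e : Df a b k (fun _ => 0) 0 = fun t => b (t, 0) := by
      funext t
      simp [Df, hj]
    have h1 : DifferentiableAt ℂ (fun t : ℂ => b (t, 0)) 0 := by
      have h2 : DifferentiableAt ℂ (fun t : ℂ => (t, (0 : ℂ))) 0 := by fun_prop
      exact DifferentiableAt.comp (0 : ℂ) (g := b) (f := fun t : ℂ => (t, (0 : ℂ))) hb.differentiableAt h2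
    have h3 := h1.isBigO_sub
    have h4 : b ((0 : ℂ), (0 : ℂ)) = 0 := hb0
    rw [e]
    simpa [h4] using h3
  let S : ∀ J : ℕ, {c : ℕ → ℂ // c 0 = 0 ∧ Df a b k c J =O[𝓝 0] fun t : ℂ => t ^ (J + 1)} := fun J =>
    Nat.rec ⟨fun _ => 0, rfl, h0⟩ (fun J c => nxt J c) J
  have hS : ∀ J, ∀ i ≤ J, (S (J + 1)).1 i = (S J).1 i := fun J => hnxt J (S J)
  have hS' : ∀ J i, i ≤ J → (S J).1 i = (S i).1 i := by
    intro J
    induction J with
    | zero => intro i hi; rw [Nat.le_zero.1 hi]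
    | succ J ih =>
      intro i hi
      rcases Nat.lt_or_ge i (J + 1) with h | h
      · rw [hS J i (by omega), ih i (by omega)]
      · rw [le_antisymm hi h]
  refine ⟨fun i => (S i).1 i, (S 0).2.1, fun J => ?_⟩
  have hj : jet (fun i => (S i).1 i) J = jet (S J).1 J := jet_congr fun i hi => (hS' J i hi).symm
  rw [hj]
  exact (S J).2.2

end Pool.Agent.MQ2

end
end
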