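import Pool.Agent.H94.G6.H68.KR.Ch
import Pool.Agent.H94.G6.M11
import Pool.Agent.H94.G6.M16
import Pool.Agent.H94.G6.M32
import Pool.Agent.H94.G6.M38

/-! The parts of this file: H13.CV.Lgt, H13.CV.Dx, AD.Defs, H36.BPL.Pair, H62.EF.IsoA, H68.KR.ExtG. -/

section

/-!
# CV Lgt: pluricanonical forms

`pole_mul_pow`: `ω = g • η`, `0 ≤ ord (h * g ^ 1)`; the same `g`, `η`: `f * h ^ m * g ^ m = f * (h * g) ^ m`.
`lgt_of_forms`: in the definition of `IsLogGeneralType` take `r = 1`, `f = ![f₀, f₁]`.  `K` is finite over `ℂ(f₁ / f₀)` (`hK.fin`), so it is algebraic over `ℂ(f₀ / f₀, f₁ / f₀)`.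
-/

set_option autoImplicit false

open Pool.Agent.H23.Fano (PrimeDivisorOver Form regularForms)
open Pool.Agent.H17LG.Variety (PoleAtMost IsLogGeneralType)

noncomputable section

namespace Pool.Agent.H13.CV

variable {K : Type} [Field K] [Algebra ℂ K]

theorem pole_mul_pow {E : Place K} {h f : K} {ω : Form K 1} {m p : ℕ} (hh : PoleAtMost 0 E 1 h ω) (hf : 0 ≤ E.ord f + p) : PoleAtMost p E m (f * h ^ m) ω := by
  obtain ⟨g, η, hη, hω, h0⟩ := hh
  refine ⟨g, η, hη, hω, ?_⟩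
  have h1 : (0 : WithTop ℤ) ≤ E.ord (h * g) := by
    simpa using h0
  have h2 : f * h ^ m * g ^ m = f * (h * g) ^ m := by
    rw [mul_pow, mul_assoc]
  have h3 : (0 : WithTop ℤ) ≤ E.ord ((h * g) ^ m) := by
    rw [E.ord.map_pow]
    exact nsmul_nonneg h1 m
  rw [h2, E.ord.map_mul]
  calc (0 : WithTop ℤ) ≤ E.ord f + p := hf
    _ = E.ord f + 0 + p := by rw [add_zero]
    _ ≤ E.ord f + E.ord ((h * g) ^ m) + p := by
      gcongr

/-- two pluricanonical forms with a non-constant ratio -/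
theorem lgt_of_forms (hK : CurveField K) {B : Place K → Prop} {ω : Form K 1} (hω : ω ≠ 0) {m : ℕ} (hm : 1 ≤ m) {f₀ f₁ : K} (hf₀ : f₀ ≠ 0)
    (htr : Transcendental ℂ (f₁ / f₀)) (h₀ : ∀ E, (¬ B E → PoleAtMost 0 E m f₀ ω) ∧ (B E → PoleAtMost m E m f₀ ω))
    (h₁ : ∀ E, (¬ B E → PoleAtMost 0 E m f₁ ω) ∧ (B E → PoleAtMost m E m f₁ ω)) : IsLogGeneralType B := by
  refine ⟨m, hm, ω, hω, 1, ![f₀, f₁], by simpa using hf₀, ?_, ?_⟩
  · intro i E
    fin_cases i
    · exact h₀ E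
    · exact h₁ E
  · have he : IntermediateField.adjoin ℂ (Set.range fun i : Fin (1 + 1) => (![f₀, f₁] : Fin 2 → K) i / (![f₀, f₁] : Fin 2 → K) 0)
        = IntermediateField.adjoin ℂ {f₁ / f₀} := by
      apply le_antisymm
      · rw [IntermediateField.adjoin_le_iff]
        rintro _ ⟨i, rfl⟩
        fin_cases i
        · have : (f₀ / f₀ : K) ∈ IntermediateField.adjoin ℂ {f₁ / f₀} := by
            rw [div_self hf₀]
            exact one_mem _
          simpa using this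
        · have : (f₁ / f₀ : K) ∈ IntermediateField.adjoin ℂ {f₁ / f₀} :=
            IntermediateField.subset_adjoin _ _ rfl
          simpa using this
      · apply IntermediateField.adjoin.mono
        rintro _ rfl
        exact ⟨1, by simp⟩
    rw [he]
    have := hK.fin _ htr
    exact Algebra.IsAlgebraic.of_finite _ _

end Pool.Agent.H13.CV

end
end

section

/-!
# CV Dx: the order of the differential of a function

`Form K 1` is the exterior power `⋀¹ Ω_{K/ℂ}`, `Form.mk c a = c • ιMulti (d (a 0))` (`Pool/Agent/H23/Fano.lean`); `Form.mk c a` is additive in `d (a 0)` and `K`-linear in it.  (`Form K 1 ≃ Ω_{K/ℂ}`: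
`exteriorPower.oneEquiv`; `exteriorPower.ιMulti` is multilinear: `AlternatingMap.map_update_smul`, `map_update_add` for `Fin 1`.)
`mk_ne_zero`: see e.g. `Pool/Agent/H62/FC/NotLGT.lean`, `Pool/Agent/H23/Forms.lean`: `d x ≠ 0` for a transcendental element in characteristic `0`: there is a derivation `D` of `K` over `ℂ` with `D x = 1`
(Mathlib: `Differential`... or the library: look for `exists_derivation`, `IsTranscendenceBasis` basis of `Ω`, `Pool.Agent.H23` `mem_regularForms_iff`, `dualDer`).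
`mk_inv`: `d x = - x² d (x⁻¹)` (`Derivation.leibniz_inv`).
`exists_eta`: let `oz E t = 1`, `e = oz E x` (may be negative), `u = x * t ^ (-e)` of order `0`: `x = t ^ e * u`, `d x = t ^ (e - 1) • (e u d t + t d u)`, and `η = e u d t + t d u` is a sum of two
generators of `regularForms`.
`pole_mk`: with `g = t ^ (e - 1)`: `0 ≤ oz E h + m * (e - 1) + p`.
-/

set_option autoImplicit false

open Pool.Agent.H23.Fano (PrimeDivisorOver Form regularForms)
open Pool.Agent.H17LG.Variety (PoleAtMost IsLogGeneralType)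

noncomputable section

namespace Pool.Agent.H13.CV

variable {K : Type} [Field K] [Algebra ℂ K]

/-- the form `dx` -/
def dx (x : K) : Form K 1 := Form.mk 1 fun _ => x

/-- a differential as a form -/
private def tf : Ω[K⁄ℂ] →ₗ[K] Form K 1 :=
  ((exteriorPower.oneEquiv K Ω[K⁄ℂ]).symm : Ω[K⁄ℂ] →ₗ[K] ⋀[K]^1 Ω[K⁄ℂ])

private lemma tf_inj : Function.Injective (tf : Ω[K⁄ℂ] →ₗ[K] Form K 1) :=
  (exteriorPower.oneEquiv K Ω[K⁄ℂ]).symm.injective

private lemma mk_eq (c x : K) :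
    Form.mk c (fun _ : Fin 1 => x) = tf (c • KaehlerDifferential.D ℂ K x) := by
  rw [map_smul]
  have h : (exteriorPower.ιMulti K 1 (fun _ : Fin 1 => KaehlerDifferential.D ℂ K x) :
      ⋀[K]^1 Ω[K⁄ℂ]) =
      (exteriorPower.oneEquiv K Ω[K⁄ℂ]).symm (KaehlerDifferential.D ℂ K x) := by
    rw [LinearEquiv.eq_symm_apply, exteriorPower.oneEquiv_ιMulti]
  exact congrArg (fun w : ⋀[K]^1 Ω[K⁄ℂ] => c • w) h

private lemma dx_eq (x : K) : dx x = tf (KaehlerDifferential.D ℂ K x) := by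
  rw [dx, mk_eq, one_smul]

theorem dx_sub_const (x : K) (c : ℂ) : dx (x - algebraMap ℂ K c) = dx x := by
  rw [dx_eq, dx_eq, map_sub, Derivation.map_algebraMap, sub_zero]

theorem dx_ne_zero {x : K} (hx : Transcendental ℂ x) : dx x ≠ 0 := by
  obtain ⟨t, hst, ht⟩ := exists_isTranscendenceBasis_superset (R := ℂ) (s := ({x} : Set K))
    (algebraicIndependent_unique_type_iff.mpr hx)
  obtain ⟨b, hb⟩ := Pool.Agent.H23.exists_basis_kaehler ht
  have h1 := hb ⟨x, hst rfl⟩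
  rw [dx_eq]
  intro h
  have h2 : KaehlerDifferential.D ℂ K x = 0 := tf_inj (h.trans (map_zero _).symm)
  exact b.ne_zero ⟨x, hst rfl⟩ (h1.trans h2)

theorem exists_eta (E : Place K) {x : K} (hx : x ≠ 0) :
    ∃ (t : K) (η : Form K 1), t ≠ 0 ∧ oz E t = 1 ∧ η ∈ regularForms 1 E.localRing ∧ dx x = t ^ (oz E x - 1) • η := by
  obtain ⟨t, ht, h1⟩ := exists_uni E
  set e : ℤ := oz E x with he
  set u : K := x * t ^ (-e) with hu
  have hte : t ^ (-e) ≠ 0 := zpow_ne_zero _ ht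
  have hu0 : u ≠ 0 := mul_ne_zero hx hte
  have hou : oz E u = 0 := by
    rw [hu, oz_mul E hx hte, oz_zpow, h1]
    omega
  have hxu : x = t ^ e * u := by
    rw [hu, mul_left_comm, ← zpow_add₀ ht, add_neg_cancel, zpow_zero, mul_one]
  have hru : 0 ≤ E.ord u := nonneg_iff.2 (Or.inr hou.ge)
  have hrt : 0 ≤ E.ord t := nonneg_iff.2 (Or.inr (by omega))
  have hre : 0 ≤ E.ord (((e : ℂ) • u : K)) := by
    rw [Algebra.smul_def]
    exact nonneg_mul (const_nonneg E _) hru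
  refine ⟨t, Form.mk t (fun _ => u) + Form.mk ((e : ℂ) • u) (fun _ => t), ht, h1, ?_, ?_⟩
  · refine AddSubgroup.add_mem _ (AddSubgroup.subset_closure ?_) (AddSubgroup.subset_closure ?_)
    · exact ⟨t, fun _ => u, hrt, fun _ => hru, rfl⟩
    · exact ⟨(e : ℂ) • u, fun _ => t, hre, fun _ => hrt, rfl⟩
  · rw [mk_eq, mk_eq, ← map_add, ← map_smul, dx_eq]
    congr 1
    conv_lhs => rw [hxu]
    rw [Derivation.leibniz, Derivation.leibniz_zpow, smul_add, smul_smul, smul_smul]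
    have h2 : t ^ (e - 1) * t = t ^ e := by
      rw [← zpow_add_one₀ ht, sub_add_cancel]
    rw [h2]
    congr 1
    rw [← Int.cast_smul_eq_zsmul K, smul_smul, smul_smul]
    congr 1
    rw [Algebra.smul_def, map_intCast]
    ring

/-- a sufficient condition for `h dx ^ m` to have a pole of order at most `p` at `E` -/
theorem pole_mk (E : Place K) {x h : K} (hx : x ≠ 0) {m p : ℕ} (hh : h = 0 ∨ 0 ≤ oz E h + m * (oz E x - 1) + p) : PoleAtMost p E m h (dx x) := by
  obtain ⟨t, η, ht, h1, hη, hd⟩ := exists_eta E hx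
  refine ⟨t ^ (oz E x - 1), η, hη, hd, ?_⟩
  rcases hh with hh | hh
  · rw [hh, zero_mul, E.ord.map_zero]
    exact le_of_le_of_eq le_top (WithTop.top_add _).symm
  · by_cases h0 : h = 0
    · rw [h0, zero_mul, E.ord.map_zero]
      exact le_of_le_of_eq le_top (WithTop.top_add _).symm
    have hg : (t ^ (oz E x - 1)) ^ m ≠ 0 := pow_ne_zero _ (zpow_ne_zero _ ht)
    rw [← coe_oz E (mul_ne_zero h0 hg), oz_mul E h0 hg, oz_pow, oz_zpow, h1, mul_one]
    have h2 : ((p : ℕ) : WithTop ℤ) = (((p : ℤ)) : WithTop ℤ) := by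
      push_cast
      rfl
    rw [h2, ← WithTop.coe_add]
    exact WithTop.coe_le_coe.2 hh

end Pool.Agent.H13.CV

end
end

section

/-!
# AD Defs: charts of projective manifolds of dimension `d`, bivector forms

`X` is the cone (without `0`) over a smooth projective variety of dimension `d`, in `EN N = ℂ^(N+1)` with the Euclidean norm (`H14.PP.IsCone`).  The model space is `Vd d = Fin d → ℂ` with the
supremum norm.
-/

set_option autoImplicit false

open Topology Filter Metric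

namespace Pool.Agent.AD

open Pool.Agent.H36.BP (EN)
open Pool.Agent.H14.PP (IsCone CurveAt Tan)

variable {N : ℕ}

/-- the model space -/
abbrev Vd (d : ℕ) : Type := Fin d → ℂ

/-- A chart of the manifold whose cone is `X`: `σ` is a lift of the inverse of the chart, defined on the polydisc of radius `2`, `U` is an open cone, and `q` the chart, `d` holomorphic
functions on `U` which are invariant under scaling. -/
structure Chart (d : ℕ) (X : Set (EN N)) where
  /-- the parametrization -/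
  σ : Vd d → EN N
  /-- the domain -/
  U : Set (EN N)
  /-- the coordinates -/
  q : EN N → Vd d
  isOpen_U : IsOpen U
  smul_U : ∀ x ∈ U, ∀ c : ℂ, c ≠ 0 → c • x ∈ U
  σ_an : ∀ p ∈ ball (0 : Vd d) 2, AnalyticAt ℂ σ p
  q_an : ∀ x ∈ U, AnalyticAt ℂ q x
  q_smul : ∀ x ∈ U, ∀ c : ℂ, c ≠ 0 → q (c • x) = q x
  σ_mem : ∀ p ∈ ball (0 : Vd d) 2, σ p ∈ X ∧ σ p ∈ U ∧ q (σ p) = p
  surj : ∀ x ∈ X, x ∈ U → q x ∈ ball (0 : Vd d) 2 ∧ ∃ c : ℂ, c ≠ 0 ∧ x = c • σ (q x)

/-- `X` is smooth: there are charts -/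
def Charts (d : ℕ) (X : Set (EN N)) : Prop := ∀ x ∈ X, ∃ χ : Chart d X, x ∈ χ.U ∧ χ.q x = 0

end Pool.Agent.AD

end

section

/-!
# BPL Pair: an analytic subset of a nodal curve given by one equation is a union of branches
-/

set_option autoImplicit false

namespace Pool.Agent.H36.BPL

open Filter Topology Metric
open Pool.Agent.H17BP (Surface IsChart IsForm NoZeros NodalAt)

variable {V : Type} [NormedAddCommGroup V] [NormedSpace ℂ V]

/-- a zero of an analytic function of two variables is not isolated -/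
theorem freq_zero {g : ℂ × ℂ → ℂ} (hg : AnalyticAt ℂ g 0) (h0 : g 0 = 0) : ∃ᶠ p in 𝓝[≠] (0 : ℂ × ℂ), g p = 0 := by
  by_contra hcon
  rw [not_frequently, eventually_nhdsWithin_iff] at hcon
  obtain ⟨r₀, hr₀, hr₀g⟩ := Metric.eventually_nhds_iff_ball.mp (hcon.and hg.eventually_analyticAt)
  set r : ℝ := r₀ / 2 with hr
  have hr0 : 0 < r := by rw [hr]; positivity
  have hrlt : r < r₀ := by rw [hr]; linarith
  have hmem : ∀ s t : ℂ, ‖s‖ ≤ r → ‖t‖ ≤ r → (s, t) ∈ ball (0 : ℂ × ℂ) r₀ := by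
    intro s t hs ht
    rw [mem_ball_zero_iff, Prod.norm_def]
    exact (max_le hs ht).trans_lt hrlt
  have hne : ∀ s t : ℂ, ‖s‖ ≤ r → ‖t‖ ≤ r → (s, t) ≠ (0 : ℂ × ℂ) → g (s, t) ≠ 0 := fun s t hs ht hst => (hr₀g _ (hmem s t hs ht)).1 hst
  have hcont : ContinuousOn g (ball (0 : ℂ × ℂ) r₀) := fun p hp => (hr₀g p hp).2.continuousAt.continuousWithinAt
  -- a lower bound on the compact set
  have hcomp : IsCompact (closedBall (0 : ℂ) r ×ˢ sphere (0 : ℂ) r) := (isCompact_closedBall _ _).prod (isCompact_sphere _ _)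
  have hnon : (closedBall (0 : ℂ) r ×ˢ sphere (0 : ℂ) r).Nonempty := by
    refine ⟨(0, (r : ℂ)), ?_, ?_⟩
    · exact mem_closedBall_self hr0.le
    · rw [mem_sphere_zero_iff_norm, Complex.norm_real, Real.norm_of_nonneg hr0.le]
  obtain ⟨p₀, hp₀, hp₀m⟩ := hcomp.exists_isMinOn hnon (f := fun p => ‖g p‖) (by
    refine (hcont.mono ?_).norm
    rintro ⟨s, t⟩ ⟨hs, ht⟩
    exact hmem s t (by simpa using hs) (by rw [mem_sphere_zero_iff_norm] at ht; exact ht.le))
  obtain ⟨s₀, t₀⟩ := p₀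
  set c : ℝ := ‖g (s₀, t₀)‖ with hc
  have ht₀ : ‖t₀‖ = r := by
    have := hp₀.2
    rwa [mem_sphere_zero_iff_norm] at this
  have hc0 : 0 < c := by
    rw [hc, norm_pos_iff]
    refine hne s₀ t₀ (by simpa using hp₀.1) ht₀.le ?_
    intro h
    have h1 : t₀ = 0 := congrArg Prod.snd h
    rw [h1, norm_zero] at ht₀
    exact hr0.ne ht₀
  have hlow : ∀ s : ℂ, s ≠ 0 → ‖s‖ ≤ r → c ≤ ‖g (s, 0)‖ := by
    intro s hs0 hs
    have hga : ∀ t : ℂ, ‖t‖ ≤ r → DifferentiableAt ℂ (fun t => (g (s, t))⁻¹) t := by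
      intro t ht
      have h1 : AnalyticAt ℂ g (s, t) := (hr₀g _ (hmem s t hs ht)).2
      have h2 : AnalyticAt ℂ (fun t : ℂ => g (s, t)) t := AnalyticAt.comp (g := g) (f := fun t : ℂ => (s, t)) h1 (analyticAt_const.prod analyticAt_id)
      refine h2.differentiableAt.inv (hne s t hs ht ?_)
      intro h
      exact hs0 (congrArg Prod.fst h)
    have hd : DiffContOnCl ℂ (fun t => (g (s, t))⁻¹) (ball 0 r) := by
      refine DifferentiableOn.diffContOnCl ?_
      rw [closure_ball _ hr0.ne']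
      intro t ht
      exact (hga t (by simpa using ht)).differentiableWithinAt
    have h3 := Complex.norm_le_of_forall_mem_frontier_norm_le isBounded_ball hd (C := c⁻¹) (fun t ht => by
      rw [frontier_ball _ hr0.ne', mem_sphere_zero_iff_norm] at ht
      rw [norm_inv]
      have h4 : c ≤ ‖g (s, t)‖ := hp₀m ⟨by simpa using hs, by rw [mem_sphere_zero_iff_norm]; exact ht⟩
      gcongr) (subset_closure (mem_ball_self hr0))
    rw [norm_inv] at h3
    have h5 : 0 < ‖g (s, 0)‖ := norm_pos_iff.mpr (hne s 0 hs (by rw [norm_zero]; exact hr0.le) fun h => hs0 (congrArg Prod.fst h))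
    exact (inv_le_inv₀ h5 hc0).mp h3
  -- the limit
  have h6 : Tendsto (fun s : ℂ => ‖g (s, 0)‖) (𝓝[≠] 0) (𝓝 0) := by
    have h7 : ContinuousAt (fun s : ℂ => ‖g (s, 0)‖) 0 := by
      have h8 : ContinuousAt (fun s : ℂ => (s, (0 : ℂ))) 0 := (continuous_id.prodMk continuous_const).continuousAt
      exact (ContinuousAt.comp (g := g) (f := fun s : ℂ => (s, (0 : ℂ))) hg.continuousAt h8).norm
    have h9 := h7.tendsto
    have h10 : ‖g ((0 : ℂ), 0)‖ = 0 := by
      rw [show ((0 : ℂ), (0 : ℂ)) = (0 : ℂ × ℂ) from rfl, h0, norm_zero]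
    rw [h10] at h9
    exact h9.mono_left nhdsWithin_le_nhds
  have h11 : ∀ᶠ s : ℂ in 𝓝[≠] 0, c ≤ ‖g (s, 0)‖ := by
    rw [eventually_nhdsWithin_iff]
    have h12 : ∀ᶠ s : ℂ in 𝓝 0, s ∈ ball (0 : ℂ) r := ball_mem_nhds _ hr0
    filter_upwards [h12] with s hs hs0
    exact hlow s hs0 (by rw [mem_ball_zero_iff] at hs; exact hs.le)
  exact absurd (ge_of_tendsto h6 h11) (not_le.mpr hc0)

/-- the restriction of a function of two variables to an axis -/
theorem axis_dich {g : ℂ × ℂ → ℂ} (hg : AnalyticAt ℂ g 0) {γ : ℂ → ℂ × ℂ} (hγ : AnalyticAt ℂ γ 0) (h0 : γ 0 = 0) :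
    (∀ᶠ t in 𝓝 (0 : ℂ), g (γ t) = 0) ∨ ∀ᶠ t in 𝓝 (0 : ℂ), t ≠ 0 → g (γ t) ≠ 0 := by
  have h1 : AnalyticAt ℂ (fun t => g (γ t)) 0 := AnalyticAt.comp (g := g) (f := γ) (by rw [h0]; exact hg) hγ
  rcases h1.eventually_eq_zero_or_eventually_ne_zero with h | h
  · exact Or.inl h
  · exact Or.inr (eventually_nhdsWithin_iff.mp h)

theorem pairNodal_of_nodal {X K T : Set V} (hK : OpenPart X K) (hKT : ∀ x ∈ X, x ∉ K → x ∈ T) {x : V} (hx : x ∈ X) (hxT : x ∈ T) (hn : NodalAt X T x) :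
    PairNodalAt X K T x := by
  obtain ⟨σ, τ, hc, hσ0, hcase⟩ := hn
  obtain ⟨h, hh, hhe⟩ := hK.eqn x hx
  set g : ℂ × ℂ → ℂ := fun p => h (σ p) with hgdef
  have hσt : Tendsto σ (𝓝 0) (𝓝 x) := by
    have := hc.σ_an.continuousAt.tendsto
    rwa [hσ0] at this
  have hg : AnalyticAt ℂ g 0 := AnalyticAt.comp (g := h) (f := σ) (by rw [hσ0]; exact hh) hc.σ_an
  have hgK : ∀ᶠ p in 𝓝 (0 : ℂ × ℂ), (σ p ∉ K ↔ g p = 0) := by
    filter_upwards [hσt.eventually hhe, hc.σ_mem] with p h1 h2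
    exact h1 h2
  have hgT : ∀ᶠ p in 𝓝 (0 : ℂ × ℂ), g p = 0 → σ p ∈ T := by
    filter_upwards [hgK, hc.σ_mem] with p h1 h2 h3
    exact hKT _ h2 (h1.mpr h3)
  have hA1 := axis_dich hg (γ := fun t => (0, t)) (analyticAt_const.prod analyticAt_id) rfl
  have hA2 := axis_dich hg (γ := fun s => (s, 0)) (analyticAt_id.prod analyticAt_const) rfl
  have hsnd : Tendsto (fun p : ℂ × ℂ => p.2) (𝓝 0) (𝓝 0) := continuous_snd.tendsto 0
  have hfst : Tendsto (fun p : ℂ × ℂ => p.1) (𝓝 0) (𝓝 0) := continuous_fst.tendsto 0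
  -- `g 0 = 0` and no zero near `0` except `0` is impossible
  have hiso : (∀ᶠ p in 𝓝 (0 : ℂ × ℂ), p ≠ 0 → g p ≠ 0) → g 0 ≠ 0 := by
    intro h1 h2
    obtain ⟨p, hp1, hp2⟩ := ((freq_zero hg h2).and_eventually (eventually_nhdsWithin_iff.mpr h1)).exists
    exact hp2 hp1
  have hno : (∀ᶠ p in 𝓝 (0 : ℂ × ℂ), p ≠ 0 → g p ≠ 0) → ∀ᶠ p in 𝓝 (0 : ℂ × ℂ), σ p ∈ K := by
    intro h1
    have h2 := hiso h1
    filter_upwards [h1, hgK] with p h3 h4
    by_contra h5
    have h6 := h4.mp h5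
    by_cases h7 : p = 0
    · rw [h7] at h6
      exact h2 h6
    · exact h3 h7 h6
  rcases hcase with h1 | h1 | h1
  · exact absurd (hσ0 ▸ hxT) h1.self_of_nhds
  · -- smooth
    have hTt : ∀ᶠ p in 𝓝 (0 : ℂ × ℂ), (σ p ∈ T ↔ p.1 = 0 ∨ (false = true ∧ p.2 = 0)) := by
      filter_upwards [h1] with p hp
      rw [hp]
      simp
    rcases hA1 with h2 | h2
    · refine ⟨σ, τ, hc, hσ0, false, (true, false), hTt, ?_, by simp⟩
      filter_upwards [hgK, hgT, hsnd.eventually h2, h1] with p e1 e2 e3 e4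
      rw [e1]
      constructor
      · intro e5
        exact Or.inl ⟨rfl, e4.mp (e2 e5)⟩
      · rintro (⟨-, e5⟩ | ⟨e5, -⟩)
        · have e6 : p = (0, p.2) := Prod.ext e5 rfl
          rw [e6]
          exact e3
        · simp at e5
    · refine ⟨σ, τ, hc, hσ0, false, (false, false), hTt, ?_, by simp⟩
      have h3 : ∀ᶠ p in 𝓝 (0 : ℂ × ℂ), p ≠ 0 → g p ≠ 0 := by
        filter_upwards [hgT, hsnd.eventually h2, h1] with p e2 e3 e4 e5 e6
        have e7 : p.1 = 0 := e4.mp (e2 e6)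
        have e8 : p = (0, p.2) := Prod.ext e7 rfl
        refine e3 ?_ (by rw [← e8]; exact e6)
        intro e9
        exact e5 (Prod.ext e7 e9)
      filter_upwards [hno h3] with p e1
      simp [e1]
  · -- node
    have hTt : ∀ᶠ p in 𝓝 (0 : ℂ × ℂ), (σ p ∈ T ↔ p.1 = 0 ∨ (true = true ∧ p.2 = 0)) := by
      filter_upwards [h1] with p hp
      rw [hp]
      simp
    have hz : ∀ᶠ p in 𝓝 (0 : ℂ × ℂ), g p = 0 → p.1 = 0 ∨ p.2 = 0 := by
      filter_upwards [hgT, h1] with p e1 e2 e3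
      have := e2.mp (e1 e3)
      simpa using this
    rcases hA1 with h2 | h2 <;> rcases hA2 with h3 | h3
    · refine ⟨σ, τ, hc, hσ0, true, (true, true), hTt, ?_, by simp⟩
      filter_upwards [hgK, hz, hsnd.eventually h2, hfst.eventually h3] with p e1 e2 e3 e4
      rw [e1]
      constructor
      · intro e5
        rcases e2 e5 with e6 | e6
        · exact Or.inl ⟨rfl, e6⟩
        · exact Or.inr ⟨rfl, e6⟩
      · rintro (⟨-, e5⟩ | ⟨-, e5⟩)
        · have e6 : p = (0, p.2) := Prod.ext e5 rfl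
          rw [e6]
          exact e3
        · have e6 : p = (p.1, 0) := Prod.ext rfl e5
          rw [e6]
          exact e4
    · refine ⟨σ, τ, hc, hσ0, true, (true, false), hTt, ?_, by simp⟩
      have h0 : g 0 = 0 := h2.self_of_nhds
      filter_upwards [hgK, hz, hsnd.eventually h2, hfst.eventually h3] with p e1 e2 e3 e4
      rw [e1]
      constructor
      · intro e5
        rcases e2 e5 with e6 | e6
        · exact Or.inl ⟨rfl, e6⟩
        · by_cases e7 : p.1 = 0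
          · exact Or.inl ⟨rfl, e7⟩
          · exfalso
            have e8 : p = (p.1, 0) := Prod.ext rfl e6
            exact e4 e7 (by rw [← e8]; exact e5)
      · rintro (⟨-, e5⟩ | ⟨e5, -⟩)
        · have e6 : p = (0, p.2) := Prod.ext e5 rfl
          rw [e6]
          exact e3
        · simp at e5
    · refine ⟨σ, τ, hc, hσ0, true, (false, true), hTt, ?_, by simp⟩
      filter_upwards [hgK, hz, hsnd.eventually h2, hfst.eventually h3] with p e1 e2 e3 e4
      rw [e1]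
      constructor
      · intro e5
        rcases e2 e5 with e6 | e6
        · by_cases e7 : p.2 = 0
          · exact Or.inr ⟨rfl, e7⟩
          · exfalso
            have e8 : p = (0, p.2) := Prod.ext e6 rfl
            exact e3 e7 (by rw [← e8]; exact e5)
        · exact Or.inr ⟨rfl, e6⟩
      · rintro (⟨e5, -⟩ | ⟨-, e5⟩)
        · simp at e5
        · have e6 : p = (p.1, 0) := Prod.ext rfl e5
          rw [e6]
          exact e4
    · refine ⟨σ, τ, hc, hσ0, true, (false, false), hTt, ?_, by simp⟩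
      have h4 : ∀ᶠ p in 𝓝 (0 : ℂ × ℂ), p ≠ 0 → g p ≠ 0 := by
        filter_upwards [hz, hsnd.eventually h2, hfst.eventually h3] with p e1 e2 e3 e4 e5
        rcases e1 e5 with e6 | e6
        · have e7 : p = (0, p.2) := Prod.ext e6 rfl
          refine e2 (fun e8 => e4 (Prod.ext e6 e8)) (by rw [← e7]; exact e5)
        · have e7 : p = (p.1, 0) := Prod.ext rfl e6
          refine e3 (fun e8 => e4 (Prod.ext e8 e6)) (by rw [← e7]; exact e5)
      filter_upwards [hno h4] with p e1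
      simp [e1]

end Pool.Agent.H36.BPL

end

section

/-!
# EF IsoA: an analytic function which vanishes on a smooth curve

`exists_power`: let `g` be analytic at `0` and not identically `0` near `0`.  Then there are arbitrarily small `x` such that, for some `δ > 0`,
`g (x', y) = 0` implies `y = 0` for `‖x' - x‖ < δ`, `‖y‖ < δ`.
Proof.  `exists_slice_of_ne` (`H17BP/SliceF.lean`): some slice `t ↦ g (t v)` has finite order `k` at `0`.  Induction on `k`.
* If `x ↦ g (x, 0)` is not identically `0` near `0`: there are arbitrarily small `x` with `g (x, 0) ≠ 0`, and `g ≠ 0` near `(x, 0)` (continuity).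
* Otherwise `g (x, 0) = 0` for all small `x`, so (`exists_div_y`, `H17BP/NF.lean` or `Div.lean`) `g (x, y) = y * g₁ (x, y)` near `0` with `g₁` analytic at `0`.
  The slice of `g₁` along the same `v` has order `k - 1` (`v.2 ≠ 0` because the slice of `g` is not identically `0`).  Apply the induction hypothesis to `g₁`: for
  small `x` (so that `g = y g₁` near `(x, 0)`) `g (x', y) = 0` implies `y = 0` or `g₁ (x', y) = 0`, hence `y = 0`.

`exists_isolated`: let `π : ℂ → ℂ × ℂ` be analytic at `0` with `π 0 = p₀`, `π' 0 ≠ 0`, and let `G` be analytic at `p₀`, not identically `0` near `p₀`,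
with `G (π z) = 0` for `z` near `0`.  Then there are arbitrarily small `z₁` and `δ > 0` such that every zero `p` of `G` with `‖p - π z₁‖ < δ` is of the
form `p = π z` with `‖z - z₁‖ < ε'` (for every prescribed `ε' > 0`).
Proof.  Let `e` be a vector which is not a multiple of `π' 0`, `Φ (z, w) = π z + w • e - p₀`: a local biholomorphic map (`bihol_iff`: the derivative at `0` has the columns
`π' 0`, `e`).  `g = G (p₀ + Φ ·)` is analytic at `0` and not identically `0` near `0`.  Take `z₁` as in `exists_power` for `g`, small.  `Φ` is a homeomorphism from a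
neighbourhood of `0` to a neighbourhood of `0` (inverse germ `Φ'`, analytic near `0`), so every `p` near `π z₁` is `p₀ + Φ (z, w)` with `(z, w) = Φ' (p - p₀)` near `(z₁, 0)`;
`G p = 0` gives `g (z, w) = 0`, `w = 0`, `p = π z`.
-/

set_option autoImplicit false

open Topology Filter Metric

namespace Pool.Agent.H62.EF

private theorem pow_aux (k : ℕ) : ∀ {g : ℂ × ℂ → ℂ} (v : ℂ × ℂ), AnalyticAt ℂ g 0 →
    analyticOrderAt (fun z : ℂ => g (z * v.1, z * v.2)) 0 ≤ (k : ℕ∞) → ∀ {ε : ℝ}, 0 < ε →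
    ∃ (x : ℂ) (δ : ℝ), ‖x‖ < ε ∧ 0 < δ ∧ ∀ x' y : ℂ, ‖x' - x‖ < δ → ‖y‖ < δ → g (x', y) = 0 → y = 0 := by
  -- the case that `g (x, 0)` is not identically zero
  have case1 : ∀ {g : ℂ × ℂ → ℂ}, AnalyticAt ℂ g 0 → (¬ ∀ᶠ x in 𝓝 (0 : ℂ), g (x, 0) = 0) →
      ∀ {ε : ℝ}, 0 < ε → ∃ (x : ℂ) (δ : ℝ), ‖x‖ < ε ∧ 0 < δ ∧
        ∀ x' y : ℂ, ‖x' - x‖ < δ → ‖y‖ < δ → g (x', y) = 0 → y = 0 := by
    intro g hg h0 ε hε
    have hf : ∃ᶠ x in 𝓝 (0 : ℂ), g (x, 0) ≠ 0 := not_eventually.1 h0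
    have ht : Tendsto (fun x : ℂ => ((x, 0) : ℂ × ℂ)) (𝓝 0) (𝓝 0) :=
      (continuous_id.prodMk continuous_const).tendsto' _ _ rfl
    have han : ∀ᶠ x in 𝓝 (0 : ℂ), AnalyticAt ℂ g (x, 0) := ht.eventually hg.eventually_analyticAt
    have hε' : ∀ᶠ x in 𝓝 (0 : ℂ), ‖x‖ < ε := by
      filter_upwards [Metric.ball_mem_nhds (0 : ℂ) hε] with x hx
      exact mem_ball_zero_iff.1 hx
    obtain ⟨x, hx0, hx1, hx2⟩ := (hf.and_eventually (han.and hε')).exists
    have hne : ∀ᶠ p in 𝓝 ((x, 0) : ℂ × ℂ), g p ≠ 0 := hx1.continuousAt.eventually_ne hx0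
    obtain ⟨δ, hδ, hδ'⟩ := Metric.eventually_nhds_iff.1 hne
    refine ⟨x, δ, hx2, hδ, fun x' y h1 h2 h3 => ?_⟩
    have hd : dist ((x', y) : ℂ × ℂ) (x, 0) < δ := by
      rw [Prod.dist_eq]
      refine max_lt ?_ ?_
      · simpa [dist_eq_norm] using h1
      · simpa [dist_eq_norm] using h2
    exact absurd h3 (hδ' hd)
  induction k with
  | zero =>
    intro g v hg ho ε hε
    refine case1 hg ?_ hε
    intro h
    -- the slice has order zero but vanishes at zero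
    have h1 : analyticOrderAt (fun z : ℂ => g (z * v.1, z * v.2)) 0 = 0 := by
      simpa using ho
    have han : AnalyticAt ℂ (fun z : ℂ => g (z * v.1, z * v.2)) 0 := by
      refine AnalyticAt.comp_of_eq (g := g) (f := fun z : ℂ => ((z * v.1, z * v.2) : ℂ × ℂ)) hg ?_ ?_
      · exact (analyticAt_id.mul analyticAt_const).prod (analyticAt_id.mul analyticAt_const)
      · simp
    rw [han.analyticOrderAt_eq_zero] at h1
    apply h1
    simp only [zero_mul]
    exact h.self_of_nhds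
  | succ k ih =>
    intro g v hg ho ε hε
    by_cases h : ∀ᶠ x in 𝓝 (0 : ℂ), g (x, 0) = 0
    · obtain ⟨g₁, hg₁, he⟩ := Pool.Agent.H17BP.exists_div_y hg h
      have hl : AnalyticAt ℂ (fun z : ℂ => ((z * v.1, z * v.2) : ℂ × ℂ)) 0 :=
        (analyticAt_id.mul analyticAt_const).prod (analyticAt_id.mul analyticAt_const)
      have han : AnalyticAt ℂ (fun z : ℂ => g₁ (z * v.1, z * v.2)) 0 :=
        AnalyticAt.comp_of_eq (g := g₁) (f := fun z : ℂ => ((z * v.1, z * v.2) : ℂ × ℂ)) hg₁ hl (by simp)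
      have hlt : Tendsto (fun z : ℂ => ((z * v.1, z * v.2) : ℂ × ℂ)) (𝓝 0) (𝓝 0) := by
        have h1 : Continuous (fun z : ℂ => ((z * v.1, z * v.2) : ℂ × ℂ)) := by fun_prop
        exact h1.tendsto' _ _ (by simp)
      have hm : AnalyticAt ℂ (fun z : ℂ => z * v.2) 0 := analyticAt_id.mul analyticAt_const
      have hcongr : (fun z : ℂ => g (z * v.1, z * v.2)) =ᶠ[𝓝 0]
          ((fun z : ℂ => z * v.2) * fun z : ℂ => g₁ (z * v.1, z * v.2)) := by
        filter_upwards [hlt.eventually he] with z hz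
        rw [hz]
        rfl
      rw [analyticOrderAt_congr hcongr, analyticOrderAt_mul hm han] at ho
      have h1 : 1 ≤ analyticOrderAt (fun z : ℂ => z * v.2) 0 := by
        rw [Order.one_le_iff_ne_zero, hm.analyticOrderAt_ne_zero]
        exact zero_mul _
      have h2 : analyticOrderAt (fun z : ℂ => g₁ (z * v.1, z * v.2)) 0 ≤ (k : ℕ∞) := by
        have h3 : 1 + analyticOrderAt (fun z : ℂ => g₁ (z * v.1, z * v.2)) 0 ≤ ((k + 1 : ℕ) : ℕ∞) :=
          le_trans (by gcongr) ho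
        rw [Nat.cast_add, Nat.cast_one, add_comm] at h3
        exact (ENat.add_le_add_iff_right (by simp)).1 h3
      obtain ⟨r, hr, hr'⟩ := Metric.eventually_nhds_iff.1 he
      obtain ⟨x, δ, hx, hδ, hx'⟩ := ih v hg₁ h2 (lt_min hε hr)
      have hxr : ‖x‖ < r := lt_of_lt_of_le hx (min_le_right _ _)
      refine ⟨x, min δ (r - ‖x‖), lt_of_lt_of_le hx (min_le_left _ _), lt_min hδ (by linarith), ?_⟩
      intro x' y h3 h4 h5
      have h6 : dist ((x', y) : ℂ × ℂ) 0 < r := by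
        rw [dist_zero_right, Prod.norm_def]
        refine max_lt ?_ ?_
        · have h7 := lt_of_lt_of_le h3 (min_le_right _ _)
          have h8 : ‖x'‖ ≤ ‖x' - x‖ + ‖x‖ := by
            calc ‖x'‖ = ‖(x' - x) + x‖ := by rw [sub_add_cancel]
              _ ≤ _ := norm_add_le _ _
          simp only
          linarith
        · have h7 := lt_of_lt_of_le h4 (min_le_right _ _)
          have h8 := norm_nonneg x
          simp only
          linarith
      have h7 := hr' h6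
      rw [h5, smul_eq_mul] at h7
      rcases mul_eq_zero.1 h7.symm with h8 | h8
      · exact h8
      · exact hx' x' y (lt_of_lt_of_le h3 (min_le_left _ _)) (lt_of_lt_of_le h4 (min_le_left _ _)) h8
    · exact case1 hg h hε

theorem exists_power {g : ℂ × ℂ → ℂ} (hg : AnalyticAt ℂ g 0) (h0 : ¬ ∀ᶠ x in 𝓝 (0 : ℂ × ℂ), g x = 0) {ε : ℝ} (hε : 0 < ε) :
    ∃ (x : ℂ) (δ : ℝ), ‖x‖ < ε ∧ 0 < δ ∧ ∀ x' y : ℂ, ‖x' - x‖ < δ → ‖y‖ < δ → g (x', y) = 0 → y = 0 := by
  obtain ⟨m, v, hm⟩ := Pool.Agent.H17BP.exists_slice_of_ne hg h0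
  exact pow_aux m v hg hm hε

theorem exists_isolated {π : ℂ → ℂ × ℂ} (hπ : AnalyticAt ℂ π 0) (hπ' : deriv π 0 ≠ 0) {G : ℂ × ℂ → ℂ} (hG : AnalyticAt ℂ G (π 0))
    (h0 : ¬ ∀ᶠ p in 𝓝 (π 0), G p = 0) {ε : ℝ} (hε : 0 < ε) :
    ∃ z₁ : ℂ, ‖z₁‖ < ε ∧ ∀ ε' : ℝ, 0 < ε' → ∃ δ : ℝ, 0 < δ ∧ ∀ p : ℂ × ℂ, ‖p - π z₁‖ < δ → G p = 0 → ∃ z : ℂ, ‖z - z₁‖ < ε' ∧ p = π z := by
  -- a vector which is not a multiple of the derivative
  obtain ⟨e, he⟩ : ∃ e : ℂ × ℂ, (deriv π 0).1 * e.2 - e.1 * (deriv π 0).2 ≠ 0 := by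
    by_cases h1 : (deriv π 0).1 = 0
    · refine ⟨(1, 0), ?_⟩
      have h2 : (deriv π 0).2 ≠ 0 := fun h2 => hπ' (Prod.ext h1 h2)
      simpa using h2
    · exact ⟨(0, 1), by simpa using h1⟩
  set Φ : ℂ × ℂ → ℂ × ℂ := fun x => π x.1 + x.2 • e - π 0 with hΦdef
  have hπ1 : AnalyticAt ℂ (fun x : ℂ × ℂ => π x.1) 0 :=
    AnalyticAt.comp_of_eq (g := π) (f := fun x : ℂ × ℂ => x.1) hπ analyticAt_fst rfl
  have hΦan : AnalyticAt ℂ Φ 0 := (hπ1.add (analyticAt_snd.smul analyticAt_const)).sub analyticAt_const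
  have hΦ0 : Φ 0 = 0 := by
    simp [hΦdef]
  have hd1 : HasFDerivAt π (ContinuousLinearMap.toSpanSingleton ℂ (deriv π 0)) ((0 : ℂ × ℂ).1) :=
    hπ.differentiableAt.hasDerivAt.hasFDerivAt
  have hd2 : HasFDerivAt (fun x : ℂ × ℂ => π x.1)
      ((ContinuousLinearMap.toSpanSingleton ℂ (deriv π 0)).comp (ContinuousLinearMap.fst ℂ ℂ ℂ)) 0 :=
    HasFDerivAt.comp (g := π) (0 : ℂ × ℂ) hd1 hasFDerivAt_fst
  have hd3 : HasFDerivAt (fun x : ℂ × ℂ => x.2 • e) ((ContinuousLinearMap.snd ℂ ℂ ℂ).smulRight e) 0 :=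
    (hasFDerivAt_snd (𝕜 := ℂ) (E := ℂ) (F := ℂ) (p := (0 : ℂ × ℂ))).smul_const e
  have hd4 : HasFDerivAt Φ ((ContinuousLinearMap.toSpanSingleton ℂ (deriv π 0)).comp (ContinuousLinearMap.fst ℂ ℂ ℂ) +
      (ContinuousLinearMap.snd ℂ ℂ ℂ).smulRight e) 0 := (hd2.add hd3).sub_const (π 0)
  have hbi : Pool.Agent.H17BP.Bihol Φ := by
    rw [Pool.Agent.H17BP.bihol_iff hΦan hΦ0, hd4.fderiv]
    simpa using he
  obtain ⟨Φ', hΦ', hinv1, hinv2⟩ := hbi.exists_inv
  -- the function in the new coordinates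
  have hgan : AnalyticAt ℂ (fun x : ℂ × ℂ => G (π 0 + Φ x)) 0 := by
    refine AnalyticAt.comp_of_eq (g := G) (f := fun x : ℂ × ℂ => π 0 + Φ x) hG ?_ ?_
    · exact analyticAt_const.add hΦan
    · rw [hΦ0, add_zero]
  have hsub : Tendsto (fun p : ℂ × ℂ => p - π 0) (𝓝 (π 0)) (𝓝 0) := by
    have h1 : Continuous (fun p : ℂ × ℂ => p - π 0) := by fun_prop
    exact h1.tendsto' _ _ (sub_self _)
  have hgne : ¬ ∀ᶠ x in 𝓝 (0 : ℂ × ℂ), G (π 0 + Φ x) = 0 := by
    intro h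
    apply h0
    filter_upwards [(hΦ'.tendsto.comp hsub).eventually h, hsub.eventually hinv2] with p h1 h2
    simp only [Function.comp_apply] at h1
    rw [h2, add_sub_cancel] at h1
    exact h1
  -- smallness
  have hline : Tendsto (fun z : ℂ => ((z, 0) : ℂ × ℂ)) (𝓝 0) (𝓝 0) :=
    (continuous_id.prodMk continuous_const).tendsto' _ _ rfl
  have e1 : ∀ᶠ z in 𝓝 (0 : ℂ), Φ' (Φ (z, 0)) = (z, 0) := hline.eventually hinv1
  have e2 : ∀ᶠ z in 𝓝 (0 : ℂ), AnalyticAt ℂ Φ' (Φ (z, 0)) :=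
    (hbi.tendsto.comp hline).eventually hΦ'.an.eventually_analyticAt
  have e3 : ∀ᶠ z in 𝓝 (0 : ℂ), ∀ᶠ q in 𝓝 (Φ (z, 0)), Φ (Φ' q) = q :=
    (hbi.tendsto.comp hline).eventually hinv2.eventually_nhds
  obtain ⟨r, hr, hr'⟩ := Metric.eventually_nhds_iff.1 (e1.and (e2.and e3))
  obtain ⟨z₁, δ₀, hz₁, hδ₀, hz₁'⟩ := exists_power hgan hgne (lt_min hε hr)
  obtain ⟨f1, f2, f3⟩ := hr' (y := z₁) (by
    rw [dist_zero_right]
    exact lt_of_lt_of_le hz₁ (min_le_right _ _))
  refine ⟨z₁, lt_of_lt_of_le hz₁ (min_le_left _ _), fun ε' hε' => ?_⟩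
  have hΦz : Φ (z₁, 0) = π z₁ - π 0 := by
    simp [hΦdef]
  have hcont : Tendsto Φ' (𝓝 (Φ (z₁, 0))) (𝓝 (z₁, 0)) := by
    have := f2.continuousAt.tendsto
    rwa [f1] at this
  have g1 : ∀ᶠ q in 𝓝 (Φ (z₁, 0)), dist (Φ' q) (z₁, 0) < min δ₀ ε' :=
    hcont.eventually (Metric.ball_mem_nhds _ (lt_min hδ₀ hε'))
  obtain ⟨δ, hδ, hδ'⟩ := Metric.eventually_nhds_iff.1 (g1.and f3)
  refine ⟨δ, hδ, fun p hp hGp => ?_⟩
  obtain ⟨k1, k2⟩ := hδ' (y := p - π 0) (by
    rw [hΦz, dist_eq_norm, sub_sub_sub_cancel_right]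
    exact hp)
  rw [Prod.dist_eq] at k1
  have k3 : ‖(Φ' (p - π 0)).1 - z₁‖ < min δ₀ ε' := by
    have := lt_of_le_of_lt (le_max_left _ _) k1
    rwa [dist_eq_norm] at this
  have k4 : ‖(Φ' (p - π 0)).2‖ < min δ₀ ε' := by
    have := lt_of_le_of_lt (le_max_right _ _) k1
    simpa [dist_eq_norm] using this
  have k5 : (Φ' (p - π 0)).2 = 0 := by
    refine hz₁' (Φ' (p - π 0)).1 (Φ' (p - π 0)).2 (lt_of_lt_of_le k3 (min_le_left _ _))
      (lt_of_lt_of_le k4 (min_le_left _ _)) ?_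
    simp only [Prod.mk.eta]
    rw [k2, add_sub_cancel]
    exact hGp
  refine ⟨(Φ' (p - π 0)).1, lt_of_lt_of_le k3 (min_le_right _ _), ?_⟩
  have k6 : Φ (Φ' (p - π 0)) = π (Φ' (p - π 0)).1 - π 0 := by
    simp only [hΦdef]
    rw [k5, zero_smul, add_zero]
  rw [k6] at k2
  exact (sub_left_injective k2).symm

end Pool.Agent.H62.EF

end

section

/-!
# KR ExtG: poles of the canonical form pulled back by an arbitrary map

`H₀` is a form, `{H₀ = 0}` the boundary.  The section of `M (K + D) - H` pulled back by an arbitrary holomorphic map `φ` from `ℂ²` to the cone becomes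
holomorphic when it is multiplied by `M` functions which vanish on the preimage of the boundary.
-/

set_option autoImplicit false

open MvPolynomial Topology Filter

noncomputable section

namespace Pool.Agent.H68.KR

section open_map

/-- A holomorphic map of the plane is open where its Jacobian does not vanish. -/
theorem map_nhds_of_jac {κ : ℂ × ℂ → ℂ × ℂ} {p : ℂ × ℂ} (hκ : AnalyticAt ℂ κ p) (hJ : jac κ p ≠ 0) :
    Filter.map κ (𝓝 p) = 𝓝 (κ p) := by
  have h1 := hκ.hasStrictFDerivAt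
  refine h1.map_nhds_eq_of_surj ?_
  have e1 : dx (fun v => (κ v).1) p = (fderiv ℂ κ p (1, 0)).1 := by
    have h2 : HasFDerivAt (fun v => (κ v).1) ((ContinuousLinearMap.fst ℂ ℂ ℂ).comp (fderiv ℂ κ p)) p :=
      hκ.differentiableAt.hasFDerivAt.fst
    simp only [dx]
    rw [h2.fderiv]
    rfl
  have e2 : dy (fun v => (κ v).1) p = (fderiv ℂ κ p (0, 1)).1 := by
    have h2 : HasFDerivAt (fun v => (κ v).1) ((ContinuousLinearMap.fst ℂ ℂ ℂ).comp (fderiv ℂ κ p)) p :=
      hκ.differentiableAt.hasFDerivAt.fst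
    simp only [dy]
    rw [h2.fderiv]
    rfl
  have e3 : dx (fun v => (κ v).2) p = (fderiv ℂ κ p (1, 0)).2 := by
    have h2 : HasFDerivAt (fun v => (κ v).2) ((ContinuousLinearMap.snd ℂ ℂ ℂ).comp (fderiv ℂ κ p)) p :=
      hκ.differentiableAt.hasFDerivAt.snd
    simp only [dx]
    rw [h2.fderiv]
    rfl
  have e4 : dy (fun v => (κ v).2) p = (fderiv ℂ κ p (0, 1)).2 := by
    have h2 : HasFDerivAt (fun v => (κ v).2) ((ContinuousLinearMap.snd ℂ ℂ ℂ).comp (fderiv ℂ κ p)) p :=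
      hκ.differentiableAt.hasFDerivAt.snd
    simp only [dy]
    rw [h2.fderiv]
    rfl
  unfold jac at hJ
  rw [e1, e2, e3, e4] at hJ
  rw [LinearMap.range_eq_top]
  rintro ⟨v, w⟩
  set a := (fderiv ℂ κ p (1, 0)).1 with ha
  set b := (fderiv ℂ κ p (0, 1)).1 with hb
  set c := (fderiv ℂ κ p (1, 0)).2 with hc
  set d := (fderiv ℂ κ p (0, 1)).2 with hd
  refine ⟨((d * v - b * w) / (a * d - b * c), (a * w - c * v) / (a * d - b * c)), ?_⟩
  have h3 : (((d * v - b * w) / (a * d - b * c), (a * w - c * v) / (a * d - b * c)) : ℂ × ℂ) =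
      ((d * v - b * w) / (a * d - b * c)) • ((1 : ℂ), (0 : ℂ)) +
        ((a * w - c * v) / (a * d - b * c)) • ((0 : ℂ), (1 : ℂ)) := by
    ext <;> simp
  rw [h3]
  simp only [ContinuousLinearMap.coe_coe, map_add, map_smul]
  ext
  · simp only [Prod.fst_add, Prod.smul_fst, smul_eq_mul, ← ha, ← hb]
    rw [div_mul_eq_mul_div, div_mul_eq_mul_div, ← add_div, div_eq_iff hJ]
    ring
  · simp only [Prod.snd_add, Prod.smul_snd, smul_eq_mul, ← hc, ← hd]
    rw [div_mul_eq_mul_div, div_mul_eq_mul_div, ← add_div, div_eq_iff hJ]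
    ring

end open_map

variable {N : ℕ} (P : Ideal (MvPolynomial (Fin (N + 1)) ℂ)) [P.IsPrime]

omit [P.IsPrime] in
/-- A map of rank three into the cone is not contained in a hypersurface. -/
theorem nd_of_D3 (hsm : ∀ x ∈ cone P, ∃ t σ, CChart P x t σ) {s : Fin 3 → Fin (N + 1)}
    {φ : ℂ × ℂ → Fin (N + 1) → ℂ} {p : ℂ × ℂ} (hφ : AnalyticAt ℂ φ p) (hφX : ∀ᶠ u in 𝓝 p, φ u ∈ cone P)
    (hD : ¬ ∀ᶠ u in 𝓝 p, D3 s (φ u) (d1 φ u) (d2 φ u) = 0) (d : ℕ) (Q : MvPolynomial (Fin (N + 1)) ℂ)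
    (hQ : Q.IsHomogeneous d) (hQP : Q ∉ P) : ¬ ∀ᶠ u in 𝓝 p, eval (φ u) Q = 0 := by
  intro hQ0
  obtain ⟨t, σ, hch⟩ := hsm _ hφX.self_of_nhds
  obtain ⟨κ, c, hκ, hc, hκ0, hc1, he⟩ := hch.param hφ rfl (hφX.mono fun u hu => hu.2)
  have hσ : AnalyticAt ℂ σ (κ p) := by
    rw [hκ0]
    exact hch.an
  have h1 := D3_comp s hc hκ hσ he
  have hκt : Tendsto κ (𝓝 p) (𝓝 0) := by
    have := hκ.continuousAt.tendsto
    rwa [hκ0] at this
  have hc0 : ∀ᶠ u in 𝓝 p, c u ≠ 0 := hc.continuousAt.eventually_ne (by rw [hc1]; exact one_ne_zero)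
  apply hD
  filter_upwards [h1, hκ.eventually_analyticAt, he.eventually_nhds, hc0.eventually_nhds, hQ0.eventually_nhds,
    hκt.eventually hch.nd_near] with u a1 a2 a3 a4 a5 a6
  rw [a1]
  have hj : jac κ u = 0 := by
    by_contra hj
    apply a6 d Q hQ hQP
    rw [← map_nhds_of_jac a2 hj]
    change ∀ᶠ u' in 𝓝 u, eval (σ (κ u')) Q = 0
    filter_upwards [a3, a4, a5] with u' b1 b2 b3
    rw [b1] at b3
    have h : eval (c u' • σ (κ u')) Q = c u' ^ d * eval (σ (κ u')) Q :=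
      eval₂_of_isHomogeneous (RingHom.id ℂ) hQ (c u') (σ (κ u'))
    rw [h] at b3
    exact (mul_eq_zero.1 b3).resolve_left (pow_ne_zero _ b2)
  rw [hj, mul_zero, zero_mul]

end Pool.Agent.H68.KR

end
end
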