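import Pool.Agent.H94.G6.M08
import Pool.Agent.H94.G6.M09
import Pool.Agent.H94.G6.M13
import Pool.Agent.H94.G6.M23
import Pool.Agent.H94.G6.M24
import Pool.Agent.H94.G6.M39
import Pool.Agent.H94.G6.M56
import Pool.Agent.H94.G6.M65

/-! The parts of this file: H17BP.FinS, H30M.PL_1, H30M.Tau2_1, H36.BP.ExtA, H36.BP.ExtC, H36.BPL.Brody2, H14.KB.Kob, H17BP.Ind, H62.FC.GradedField, H62.FC.Main, SY.PotM. -/

section

/-!
# Isolated points of a closed surface

`X ∩ sphere 0 1` is compact (`V` is finite dimensional, hence proper; `X ∩ sphere 0 1` is closed by `Surface.closed`).  Every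
`x` in it has an open neighbourhood `U x` on which `y ∈ X → ¬ Pr y x → R y`; finitely many of them, `x ∈ F`, cover it
(`IsCompact.elim_nhds_subcover`).  Let `x ∈ X`; `x ≠ 0`; `y = (‖x‖⁻¹ : ℂ) • x ∈ X` has norm `1`, so it is in `U q`, `q ∈ F`:
`Pr y q`, hence `Pr x q`, or `R y`, hence `R x` by `hR`.
-/

open Topology Filter

noncomputable section

namespace Pool.Agent.H17BP

variable {V : Type} [NormedAddCommGroup V] [NormedSpace ℂ V]

theorem exists_finset_of_isolated [FiniteDimensional ℂ V] {X : Set V} (hX : Surface X) {R : V → Prop}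
    (hR : ∀ x y, Pr x y → R y → R x) (h : ∀ x ∈ X, ∀ᶠ y in 𝓝 x, y ∈ X → ¬ Pr y x → R y) :
    ∃ F : Finset V, (∀ q ∈ F, q ∈ X) ∧ ∀ x ∈ X, R x ∨ ∃ q ∈ F, Pr x q := by
  have : ProperSpace V := FiniteDimensional.proper ℂ V
  have hcl : IsClosed (X ∩ Metric.sphere (0 : V) 1) := by
    refine isClosed_of_closure_subset fun y hy => ?_
    have h1 : y ∈ Metric.sphere (0 : V) 1 := by
      have := closure_mono Set.inter_subset_right hy
      rwa [Metric.isClosed_sphere.closure_eq] at this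
    have h2 : y ∈ closure X := closure_mono Set.inter_subset_left hy
    refine ⟨hX.closed y h2 ?_, h1⟩
    rintro rfl
    simp at h1
  have hK : IsCompact (X ∩ Metric.sphere (0 : V) 1) :=
    (isCompact_sphere (0 : V) 1).of_isClosed_subset hcl Set.inter_subset_right
  obtain ⟨F, hF, hcov⟩ := hK.elim_nhds_subcover (fun x => {y | y ∈ X → ¬ Pr y x → R y}) fun x hx => h x hx.1
  refine ⟨F, fun q hq => (hF q hq).1, fun x hx => ?_⟩
  have hx0 : x ≠ 0 := fun h0 => hX.zero (h0 ▸ hx)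
  have hn : ((‖x‖⁻¹ : ℝ) : ℂ) ≠ 0 := by
    exact_mod_cast inv_ne_zero (norm_ne_zero_iff.2 hx0)
  have hy : ((‖x‖⁻¹ : ℝ) : ℂ) • x ∈ X := hX.smul x hx _ hn
  have hy1 : ((‖x‖⁻¹ : ℝ) : ℂ) • x ∈ Metric.sphere (0 : V) 1 := by
    rw [mem_sphere_zero_iff_norm, norm_smul, Complex.norm_real, norm_inv, norm_norm,
      inv_mul_cancel₀ (norm_ne_zero_iff.2 hx0)]
  have hxy : Pr x (((‖x‖⁻¹ : ℝ) : ℂ) • x) := Pr.symm ⟨_, hn, rfl⟩
  obtain ⟨q, hq, hyq⟩ := Set.mem_iUnion₂.1 (hcov ⟨hy, hy1⟩)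
  by_cases hP : Pr (((‖x‖⁻¹ : ℝ) : ℂ) • x) q
  · exact Or.inr ⟨q, hq, hxy.trans hP⟩
  · exact Or.inl (hR _ _ hxy (hyq hy hP))

end Pool.Agent.H17BP

end
end

section

/-!
# Poincare-Lelong for test functions: `∫ Δτ log |g| = 2 π ∑ ord_z(g) τ(z)`
-/

set_option autoImplicit false

open MeasureTheory Complex Set Filter Topology Laplacian InnerProductSpace Metric

namespace Pool.Agent.H30M

/-- `φ log ‖g‖` is integrable. -/
theorem integrable_mul_log {φ : ℂ → ℝ} (hφ : Continuous φ) (hc : HasCompactSupport φ) {g : ℂ → ℂ}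
    (hg : AnalyticOnNhd ℂ g (tsupport φ)) (h0 : ∀ z ∈ tsupport φ, analyticOrderAt g z ≠ ⊤) :
    Integrable fun z => φ z * Real.log ‖g z‖ := by
  obtain ⟨S, h, -, -, hh1, hh2, hae⟩ := log_decomp hc hg h0
  have h1 : Integrable fun z => ∑ u ∈ S, (analyticOrderNatAt g u : ℝ) * (φ z * Real.log ‖z - u‖) +
      φ z * Real.log ‖h z‖ := by
    refine Integrable.add (integrable_finsetSum _ fun u _ => Integrable.const_mul ?_ _) ?_
    · exact (locInt_log u).integrable_smul_left_of_hasCompactSupport hφ hc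
    · have hs : tsupport (fun z => φ z * Real.log ‖h z‖) ⊆ tsupport φ :=
        tsupport_mul_subset_left (f := φ) (g := fun z => Real.log ‖h z‖)
      exact integrable_of_ts (fun z hz => hφ.continuousAt.mul
        (contDiffAt_log_norm (hh1 z (hs hz)) (hh2 z (hs hz))).continuousAt) (hcs_of_sub hc hs)
  refine h1.congr ?_
  filter_upwards [hae] with z hz
  by_cases hzK : z ∈ tsupport φ
  · rw [hz hzK, mul_add, Finset.mul_sum]
    congr 1
    refine Finset.sum_congr rfl fun u _ => ?_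
    ring
  · simp [image_eq_zero_of_notMem_tsupport hzK]

/-- **Poincare-Lelong for test functions** -/
theorem pl {τ : ℂ → ℝ} (hτ : ContDiff ℝ 2 τ) (hc : HasCompactSupport τ) {g : ℂ → ℂ}
    (hg : AnalyticOnNhd ℂ g (tsupport τ)) (h0 : ∀ z ∈ tsupport τ, analyticOrderAt g z ≠ ⊤) :
    ∫ z, Δ τ z * Real.log ‖g z‖ = 2 * Real.pi * ∑ᶠ z, (analyticOrderNatAt g z : ℝ) * τ z := by
  obtain ⟨S, h, hS1, hS2, hh1, hh2, hae⟩ := log_decomp hc hg h0
  have hL := continuous_lap hτ
  have hcL := hcs_of_sub hc (ts_lap τ)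
  have e1 : ∀ᵐ z : ℂ, Δ τ z * Real.log ‖g z‖ = ∑ u ∈ S, (analyticOrderNatAt g u : ℝ) * (Δ τ z * Real.log ‖z - u‖) +
      Δ τ z * Real.log ‖h z‖ := by
    filter_upwards [hae] with z hz
    by_cases hzK : z ∈ tsupport τ
    · rw [hz hzK, mul_add, Finset.mul_sum]
      congr 1
      refine Finset.sum_congr rfl fun u _ => ?_
      ring
    · simp [lap_of_not_ts hzK]
  have i1 : ∀ u : ℂ, Integrable fun z => Δ τ z * Real.log ‖z - u‖ := fun u =>
    (locInt_log u).integrable_smul_left_of_hasCompactSupport hL hcL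
  have i2 : Integrable fun z => Δ τ z * Real.log ‖h z‖ := by
    have hs : tsupport (fun z => Δ τ z * Real.log ‖h z‖) ⊆ tsupport τ :=
      (tsupport_mul_subset_left (f := Δ τ) (g := fun z => Real.log ‖h z‖)).trans (ts_lap τ)
    exact integrable_of_ts (fun z hz => hL.continuousAt.mul
      (contDiffAt_log_norm (hh1 z (hs hz)) (hh2 z (hs hz))).continuousAt) (hcs_of_sub hc hs)
  have e2 : ∫ z, Δ τ z * Real.log ‖h z‖ = 0 := by
    rw [← green2 hτ hc (fun z hz => contDiffAt_log_norm (hh1 z hz) (hh2 z hz))]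
    rw [← integral_zero ℂ ℝ]
    refine integral_congr_ae (Eventually.of_forall fun z => ?_)
    by_cases hzK : z ∈ tsupport τ
    · simp only [lap_log_norm (hh1 z hzK) (hh2 z hzK), mul_zero]
    · simp only [image_eq_zero_of_notMem_tsupport hzK, zero_mul]
  rw [integral_congr_ae e1, integral_add (integrable_finsetSum _ fun u _ => (i1 u).const_mul _) i2, e2, add_zero,
    integral_finsetSum _ fun u _ => (i1 u).const_mul _]
  rw [finsum_eq_sum_of_support_subset (s := S), Finset.mul_sum]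
  · refine Finset.sum_congr rfl fun u _ => ?_
    rw [integral_const_mul, fund hτ hc]
    ring
  · intro u hu
    by_contra hn
    apply hu
    simp only
    by_cases huK : u ∈ tsupport τ
    · rw [hS2 u huK hn]; simp
    · rw [image_eq_zero_of_notMem_tsupport huK]; simp

end Pool.Agent.H30M

end

section

/-!
# The test functions `tau R z = log R - P z + P (z / R)`: properties
-/

set_option autoImplicit false

open MeasureTheory Complex Set Filter Topology Laplacian InnerProductSpace Metric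

namespace Pool.Agent.H30M

theorem le_tau {R r : ℝ} (_hR : 1 ≤ R) (hr : 1 ≤ r) {z : ℂ} (hz : ‖z‖ ≤ r) : Real.log R - Real.log r ≤ tau R z := by
  unfold tau
  have h1 : P z ≤ Real.log r := by
    unfold P
    rcases le_total (Real.log ‖z‖) 0 with h | h
    · rw [Th_nonpos h]; exact Real.log_nonneg hr
    · refine (Th_le h).trans ?_
      rcases eq_or_ne z 0 with rfl | hz0
      · simp; exact Real.log_nonneg hr
      · exact Real.log_le_log (norm_pos_iff.2 hz0) hz
  have h2 := P_nonneg (z / R)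
  linarith

theorem one_le_tau {R : ℝ} (hR : 1 ≤ R) {z : ℂ} (hz : ‖z‖ ≤ Real.exp 1 * R) : 1 ≤ tau (Real.exp 2 * R) z := by
  have e1 : 1 ≤ Real.exp 1 * R := by
    have := Real.one_le_exp (zero_le_one (α := ℝ))
    nlinarith
  have e2 : 1 ≤ Real.exp 2 * R := by
    have := Real.one_le_exp (zero_le_two (α := ℝ))
    nlinarith
  have h := le_tau e2 e1 hz
  rw [Real.log_mul (Real.exp_pos _).ne' (by linarith), Real.log_mul (Real.exp_pos _).ne' (by linarith),
    Real.log_exp, Real.log_exp] at h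
  linarith

theorem fderiv_PR {R : ℝ} (hR : 1 ≤ R) (z v : ℂ) : fderiv ℝ (fun z : ℂ => P (z / R)) z v =
    Real.smoothTransition (Real.log ‖z / R‖) * (v / z).re := by
  rw [t2_fd R P (contDiff_P.differentiable (by norm_num)), fderiv_P]
  congr 2
  have : (R : ℂ) ≠ 0 := by
    rw [Ne, Complex.ofReal_eq_zero]; linarith
  rw [div_div_div_cancel_right₀ this]

theorem fderiv_tau {R : ℝ} (hR : 1 ≤ R) (z v : ℂ) : fderiv ℝ (tau R) z v =
    (Real.smoothTransition (Real.log ‖z / R‖) - Real.smoothTransition (Real.log ‖z‖)) * (v / z).re := by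
  have h1 : DifferentiableAt ℝ P z := contDiff_P.differentiable (by norm_num) z
  have h2 : DifferentiableAt ℝ (fun z : ℂ => P (z / R)) z := (contDiff_PR R).differentiable (by norm_num) z
  have h3 : HasFDerivAt (tau R) (- fderiv ℝ P z + fderiv ℝ (fun z : ℂ => P (z / R)) z) z :=
    (h1.hasFDerivAt.const_sub _).add h2.hasFDerivAt
  rw [h3.fderiv]
  simp only [add_apply, neg_apply]
  rw [fderiv_P, fderiv_PR hR]
  ring

/-- **Jensen's formula** -/
theorem pl_tau {R : ℝ} (hR : 1 ≤ R) {g : ℂ → ℂ} (hg : Differentiable ℂ g) (h0 : ∃ z, g z ≠ 0) :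
    avg R (fun z => Real.log ‖g z‖) - avg 1 (fun z => Real.log ‖g z‖)
      = 2 * Real.pi * ∑ᶠ z, (analyticOrderNatAt g z : ℝ) * tau R z := by
  have hA : AnalyticOnNhd ℂ g univ := fun z _ => hg.analyticAt z
  have ho : ∀ z, analyticOrderAt g z ≠ ⊤ := by
    obtain ⟨w, hw⟩ := h0
    have hw' : analyticOrderAt g w ≠ ⊤ := by
      rw [(hg.analyticAt w).analyticOrderAt_eq_zero.2 hw]
      simp
    intro z
    exact hA.analyticOrderAt_ne_top_of_isPreconnected isPreconnected_univ (mem_univ w) (mem_univ z) hw'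
  rw [← pl (contDiff_tau R) (hcs_tau hR) (fun z _ => hg.analyticAt z) fun z _ => ho z]
  unfold avg
  rw [← integral_sub]
  · refine integral_congr_ae (Eventually.of_forall fun z => ?_)
    simp only [lap_tau hR, rhoR_one]
    ring
  · exact integrable_mul_log (continuous_rhoR R) (hcs_rhoR hR) (fun z _ => hg.analyticAt z) fun z _ => ho z
  · exact integrable_mul_log (continuous_rhoR 1) (hcs_rhoR le_rfl) (fun z _ => hg.analyticAt z) fun z _ => ho z

end Pool.Agent.H30M

end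

section

/-!
# BP ExtA: growth at the puncture

`z ≠ 0`, `|z| < 1`, `z = exp w₀`, `R = log(1/|z|) = -Re w₀`.  The curve `ζ ↦ F(exp(w₀ + R ζ))` is defined for `|ζ| < 1` (`Re(w₀ + Rζ) < 0`); `mt_comp` with `φ ζ = exp(w₀ + Rζ)`, `|φ'(0)| = R|z|`.
-/

set_option autoImplicit false

namespace Pool.Agent.H36.BP

open Filter Topology Metric

variable {N : ℕ}

variable {K B : Set (EN N)} {G : EN N → EN N → ℝ} {ρ : EN N → ℝ} {M : ℕ} {c₀ C : ℝ}

theorem growth (hM : MetricData K B G ρ M c₀ C) {L : ℝ} (hL : ∀ F, Curve K (ball 0 1) F → mt G F 0 ≤ L) {F : ℂ → EN N}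
    (hF : Curve K (ball 0 1 \ {0}) F) {z : ℂ} (hz : z ≠ 0) (hz1 : ‖z‖ < 1) :
    mt G F z * (‖z‖ * Real.log (1 / ‖z‖)) ≤ L := by
  have hzp : 0 < ‖z‖ := norm_pos_iff.2 hz
  obtain ⟨R, hR⟩ : ∃ R : ℝ, R = Real.log (1 / ‖z‖) := ⟨_, rfl⟩
  have hR0 : 0 < R := by
    rw [hR]
    exact Real.log_pos (by rw [lt_div_iff₀ hzp]; linarith)
  have hRl : R = -Real.log ‖z‖ := by rw [hR, one_div, Real.log_inv]
  rw [← hR]
  obtain ⟨φ, hφ⟩ : ∃ φ : ℂ → ℂ, φ = fun ζ => Complex.exp (Complex.log z + R * ζ) := ⟨_, rfl⟩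
  have hφd : ∀ ζ, HasDerivAt φ (Complex.exp (Complex.log z + R * ζ) * R) ζ := by
    intro ζ
    rw [hφ]
    have h1 : HasDerivAt (fun ζ : ℂ => Complex.log z + R * ζ) ((R : ℂ) * 1) ζ :=
      ((hasDerivAt_id' ζ).const_mul (R : ℂ)).const_add _
    rw [mul_one] at h1
    exact h1.cexp
  have hφ0 : φ 0 = z := by
    rw [hφ]
    simp only [mul_zero, add_zero]
    exact Complex.exp_log hz
  have hφm : ∀ ζ ∈ ball (0 : ℂ) 1, φ ζ ∈ ball (0 : ℂ) 1 \ {0} := by
    intro ζ hζ
    rw [mem_ball_zero_iff] at hζ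
    have h1 : ζ.re < 1 := lt_of_le_of_lt (Complex.re_le_norm ζ) hζ
    refine ⟨?_, ?_⟩
    · rw [mem_ball_zero_iff, hφ]
      simp only
      rw [Complex.norm_exp, Real.exp_lt_one_iff, Complex.add_re, Complex.log_re, Complex.re_ofReal_mul]
      have h2 : R * ζ.re < R * 1 := mul_lt_mul_of_pos_left h1 hR0
      linarith
    · rw [Set.mem_singleton_iff, hφ]
      exact Complex.exp_ne_zero _
  have hopen : IsOpen (ball (0 : ℂ) 1 \ {0}) := isOpen_ball.sdiff isClosed_singleton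
  have hFd : ∀ w ∈ ball (0 : ℂ) 1 \ {0}, DifferentiableAt ℂ F w := fun w hw =>
    hF.1.differentiableAt (hopen.mem_nhds hw)
  have hcurve : Curve K (ball 0 1) (fun ζ => F (φ ζ)) := by
    refine ⟨fun ζ hζ => ?_, fun ζ hζ => hF.2 _ (hφm ζ hζ)⟩
    exact ((hFd _ (hφm ζ hζ)).comp ζ (hφd ζ).differentiableAt).differentiableWithinAt
  have hzm : z ∈ ball (0 : ℂ) 1 \ {0} := by
    have := hφm 0 (mem_ball_self one_pos)
    rwa [hφ0] at this
  have h1 := hL _ hcurve
  rw [mt_comp hM (by rw [hφ0]; exact hFd z hzm) (hφd 0).differentiableAt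
    (by rw [hφ0]; exact hF.2 z hzm), hφ0, (hφd 0).deriv, mul_zero, add_zero, Complex.exp_log hz,
    norm_mul, Complex.norm_real, Real.norm_of_nonneg hR0.le] at h1
  rw [mul_comm]
  exact h1

end Pool.Agent.H36.BP

end

section

/-!
# BP ExtC: points where the metric is positive

Near `z`: `ρ(F w) ≠ 0` for `w ≠ z` (`ρ_zero`, `hB`), and `wd (F w) (deriv F w) ≠ 0` for `w ≠ z`: otherwise (frequently `0`) all minors `F_i F_j' - F_j F_i'` (holomorphic; they vanish where `F' = a F`, `wd_eq_zero`) vanish frequently, hence near `z`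
(`AnalyticAt.frequently_zero_iff_eventually_zero`), and then `wd = 0` near `z` (if all minors of `(x, v)` vanish and `x ≠ 0` then `v` is a multiple of `x`), against `hc`.  Now `lower`: `mt G F w ≥ ρ^M fs > 0`.
-/

set_option autoImplicit false

namespace Pool.Agent.H36.BP

open Filter Topology Metric

variable {N : ℕ}

variable {K B : Set (EN N)} {G : EN N → EN N → ℝ} {ρ : EN N → ℝ} {M : ℕ} {c₀ C : ℝ}

private theorem ExtC_proj {F : ℂ → EN N} {z : ℂ} (hF : AnalyticAt ℂ F z) (i : Fin (N + 1)) :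
    AnalyticAt ℂ (fun w => F w i) z :=
  (ContinuousLinearMap.analyticAt (EuclideanSpace.proj i : EN N →L[ℂ] ℂ) (F z)).comp hF

theorem exists_pos (hM : MetricData K B G ρ M c₀ C) {F : ℂ → EN N} {z : ℂ} (hF : AnalyticAt ℂ F z) (hK : ∀ᶠ w in 𝓝 z, F w ∈ K)
    (hB : ¬ ∀ᶠ w in 𝓝 z, F w ∈ B) (hc : ¬ ∀ᶠ w in 𝓝 z, wd (F w) (deriv F w) = 0) : ∀ᶠ w in 𝓝[≠] z, 0 < mt G F w := by
  have h1 : ∀ᶠ w in 𝓝[≠] z, ρ (F w) ≠ 0 := by
    by_contra h
    exact hB (hM.ρ_zero F z hF hK (by
      rw [Filter.not_eventually] at h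
      simpa using h))
  have h2 : ∀ᶠ w in 𝓝[≠] z, wd (F w) (deriv F w) ≠ 0 := by
    by_contra h
    rw [Filter.not_eventually] at h
    refine hc ?_
    have h3 : ∀ i j : Fin (N + 1),
        ∀ᶠ w in 𝓝 z, F w i * deriv F w j - F w j * deriv F w i = 0 := by
      intro i j
      have han : AnalyticAt ℂ (fun w => F w i * deriv F w j - F w j * deriv F w i) z :=
        ((ExtC_proj hF i).mul (ExtC_proj hF.deriv j)).sub
          ((ExtC_proj hF j).mul (ExtC_proj hF.deriv i))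
      refine (han.frequently_zero_iff_eventually_zero).1 ?_
      refine (h.and_eventually (hK.filter_mono nhdsWithin_le_nhds)).mono ?_
      rintro w ⟨hw1, hw2⟩
      rw [not_not, wd_eq_zero (hM.ne _ hw2)] at hw1
      obtain ⟨a, ha⟩ := hw1
      rw [ha]
      simp only [PiLp.smul_apply, smul_eq_mul]
      ring
    have h4 : ∀ᶠ w in 𝓝 z, ∀ i j : Fin (N + 1),
        F w i * deriv F w j - F w j * deriv F w i = 0 :=
      Filter.eventually_all.2 fun i => Filter.eventually_all.2 fun j => h3 i j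
    filter_upwards [h4, hK] with w hw1 hw2
    rw [wd_eq_zero (hM.ne _ hw2)]
    have h5 : ∃ i, F w i ≠ 0 := by
      by_contra h6
      rw [not_exists] at h6
      refine hM.ne _ hw2 (PiLp.ext fun i => ?_)
      exact not_not.1 (h6 i)
    obtain ⟨i, hi⟩ := h5
    refine ⟨deriv F w i / F w i, PiLp.ext fun j => ?_⟩
    rw [PiLp.smul_apply, smul_eq_mul]
    have h6 := hw1 i j
    field_simp
    linear_combination h6
  filter_upwards [h1, h2, hK.filter_mono nhdsWithin_le_nhds] with w hw1 hw2 hw3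
  have h3 : 0 < ρ (F w) := lt_of_le_of_ne (hM.ρ_nonneg _ hw3) (Ne.symm hw1)
  have h4 : 0 < wd (F w) (deriv F w) := lt_of_le_of_ne (wd_nonneg _ _) (Ne.symm hw2)
  have h5 : 0 < ‖F w‖ := norm_pos_iff.2 (hM.ne _ hw3)
  have h6 : 0 < fs (F w) (deriv F w) := div_pos h4 (pow_pos h5 2)
  exact (mul_pos (pow_pos h3 M) h6).trans_le (hM.lower _ hw3 _)

end Pool.Agent.H36.BP

end

section

/-!
# BPL Brody2: hyperbolicity with respect to entire curves of order at most two
-/

set_option autoImplicit false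

noncomputable section

namespace Pool.Agent.H36.BPL

open Pool.Agent.H17BP (Pr HolP Brody)
open Pool.Agent.H36.BP (OrdTwo)

variable {V : Type} [NormedAddCommGroup V] [NormedSpace ℂ V]

/-- Every entire curve of order at most two in the projective set with the cone `X` which is not a map into `B` is constant. -/
def Brody2 (X B : Set V) : Prop :=
  ∀ f : ℂ → V, (∀ z, HolP f z) → (∀ z, f z ∈ X) → OrdTwo f → (∃ z, f z ∉ B) → ∀ z w, Pr (f z) (f w)

end Pool.Agent.H36.BPL

end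
end

section

/-!
# Kobayashi hyperbolicity modulo a curve and blow-ups
-/

open Topology Filter

noncomputable section

namespace Pool.Agent.H14.KB

open Pool.Agent Pool.Agent.H17BP
open Pool.Agent.H62.BU (blow total phi)

variable {V : Type} [NormedAddCommGroup V] [NormedSpace ℂ V]

/-- The size of the equations. -/
def rhoS {κ : Type} [Fintype κ] (Q : κ → V → ℂ) (D : ℕ) (x : V) : ℝ := ‖fun i => Q i x‖ / ‖x‖ ^ D

theorem rhoS_nonneg {κ : Type} [Fintype κ] (Q : κ → V → ℂ) (D : ℕ) (x : V) : 0 ≤ rhoS Q D x := by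
  unfold rhoS
  positivity

/-- The derivatives at `0` of the holomorphic maps from the unit disc to the projective set with the
cone `X` are bounded, up to a power of the size of the equations `Q`. -/
def Kob (X : Set V) {κ : Type} [Fintype κ] (Q : κ → V → ℂ) (D : ℕ) : Prop :=
  ∃ (M : ℕ) (C : ℝ), 1 ≤ M ∧ 0 ≤ C ∧ ∀ (f F : ℂ → V), (∀ z : ℂ, ‖z‖ < 1 → HolP f z ∧ f z ∈ X) →
    AnalyticAt ℂ F 0 → F 0 ≠ 0 → (∀ᶠ z in 𝓝 (0 : ℂ), Pr (f z) (F z)) →
    ∃ a : ℂ, rhoS Q D (F 0) ^ M * ‖deriv F 0 - a • F 0‖ ≤ C * ‖F 0‖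

variable {ι : Type} [Fintype ι] {l : ι → V →L[ℂ] ℂ} {X B : Set V} {q : V} {κ : Type} [Fintype κ]
  {Q : κ → V → ℂ} {D : ℕ}

theorem HolP.comp_affine {W : Type} [NormedAddCommGroup W] [NormedSpace ℂ W] {f : ℂ → W} {a b z₀ : ℂ}
    (h : HolP f (a * z₀ + b)) : HolP (fun z => f (a * z + b)) z₀ := by
  obtain ⟨F, hF, hF0, he⟩ := h
  have h1 : AnalyticAt ℂ (fun z : ℂ => a * z + b) z₀ :=
    (analyticAt_const.mul analyticAt_id).add analyticAt_const
  refine ⟨fun z => F (a * z + b), AnalyticAt.comp (g := F) (f := fun z : ℂ => a * z + b) hF h1, hF0, ?_⟩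
  exact h1.continuousAt.tendsto.eventually he

theorem rhoS_phi (hQs : ∀ i (c : ℂ) x, Q i (c • x) = c ^ D * Q i x) {x : V} (hx : x ≠ 0) {b : ι}
    (hb : l b x ≠ 0) (hmax : ∀ b', ‖l b' x‖ ≤ ‖l b x‖) :
    rhoS Q D x ≤ rhoS (fun (p : κ × ι) (y : ι → V) => Q p.1 (y p.2)) D (phi l x) := by
  have hx0 : 0 < ‖x‖ := norm_pos_iff.mpr hx
  have hl0 : 0 < ‖l b x‖ := norm_pos_iff.mpr hb
  have hn : ‖phi l x‖ ≤ ‖l b x‖ * ‖x‖ := by
    refine (pi_norm_le_iff_of_nonneg (by positivity)).mpr fun b' => ?_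
    show ‖l b' x • x‖ ≤ _
    rw [norm_smul]
    exact mul_le_mul_of_nonneg_right (hmax b') (norm_nonneg _)
  have hp0 : 0 < ‖phi l x‖ := norm_pos_iff.mpr (H62.BU.phi_ne ⟨b, hb⟩)
  unfold rhoS
  rw [div_le_div_iff₀ (by positivity) (by positivity)]
  have h1 : ‖l b x‖ ^ D * ‖fun i => Q i x‖ ≤
      ‖fun p : κ × ι => Q p.1 (phi l x p.2)‖ := by
    have h2 : ‖l b x‖ ^ D * ‖fun i => Q i x‖ = ‖fun i => (l b x) ^ D * Q i x‖ := by
      have h3 : (fun i => (l b x) ^ D * Q i x) = ((l b x) ^ D) • (fun i => Q i x) := rfl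
      rw [h3, norm_smul, norm_pow]
    rw [h2]
    refine (pi_norm_le_iff_of_nonneg (norm_nonneg _)).mpr fun i => ?_
    have h4 := norm_le_pi_norm (fun p : κ × ι => Q p.1 (phi l x p.2)) (i, b)
    refine le_trans (le_of_eq ?_) h4
    show ‖(l b x) ^ D * Q i x‖ = ‖Q i (l b x • x)‖
    rw [hQs]
  have h5 : ‖phi l x‖ ^ D ≤ ‖l b x‖ ^ D * ‖x‖ ^ D := by
    rw [← mul_pow]
    exact pow_le_pow_left₀ hp0.le hn D
  calc ‖fun i => Q i x‖ * ‖phi l x‖ ^ D ≤ ‖fun i => Q i x‖ * (‖l b x‖ ^ D * ‖x‖ ^ D) := by gcongr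
    _ = (‖l b x‖ ^ D * ‖fun i => Q i x‖) * ‖x‖ ^ D := by ring
    _ ≤ ‖fun p : κ × ι => Q p.1 (phi l x p.2)‖ * ‖x‖ ^ D := by gcongr

end Pool.Agent.H14.KB

end
end

section

/-!
# The induction: from the nodal case to the general case
-/

open Topology Filter

noncomputable section

namespace Pool.Agent.H17BP

open Pool.Agent.H62.BU (blow total phi phi_smul)

theorem phi_pr {V : Type} [NormedAddCommGroup V] [NormedSpace ℂ V] {ι : Type} [Fintype ι]
    {l : ι → V →L[ℂ] ℂ} {x y : V} (h : Pr x y) : Pr (phi l x) (phi l y) := by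
  obtain ⟨c, hc, rfl⟩ := h
  exact ⟨c ^ 2, pow_ne_zero _ hc, phi_smul c y⟩

end Pool.Agent.H17BP

end
end

section

open MvPolynomial
open Pool.Agent.H17GT (coordFun functionField)

noncomputable section

namespace Pool.Agent.H62.FC

variable {N : ℕ} {O : Finset (Fin (N + 1))} {P : Ideal (MvPolynomial (Fin (N + 1)) ℂ)}

end Pool.Agent.H62.FC

end
end

section

/-!
# Fermat covers: the components
-/

open MvPolynomial Topology Filter
open Pool.Agent.H17 (PN VanishesAt ZariskiClosedIn HolomorphicInto puncturedDisc)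
open Pool.Agent.H17GT (coordFun functionField)
open Pool.Agent.H17LG.Variety (FunField)

noncomputable section

namespace Pool.Agent.H62.FC

variable {N : ℕ} {κ : Type} {A : κ → MvPolynomial (Fin (N + 1)) ℂ} {e : κ → ℕ}
  {O : Finset (Fin (N + 1))} {P : Ideal (MvPolynomial (Fin (N + 1)) ℂ)}

/-- The union of the images of the non-constant holomorphic maps `ℂ → X`. -/
def entireCurves (X : Set (PN N)) : Set (PN N) :=
  {x | ∃ f : ℂ → PN N, HolomorphicInto f Set.univ ∧ (∀ z, f z ∈ X) ∧ (∃ z w, f z ≠ f w) ∧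
    ∃ z, f z = x}

/-- A variety of positive dimension has a non-zero coordinate. -/
lemma exists_X_notMem [P.IsPrime] {r : ℕ} (hr : 1 ≤ r)
    (hz : ∃ z : Fin r → FunField P, IsTranscendenceBasis ℂ z) : ∃ i, X i ∉ P := by
  by_contra hcon
  push Not at hcon
  obtain ⟨z, hz⟩ := hz
  have h1 : functionField P = ⊥ := by
    rw [functionField, IntermediateField.adjoin_eq_bot_iff]
    rintro f ⟨i, j, rfl⟩
    have h2 : coordFun P i = 0 := by
      rw [coordFun, Ideal.Quotient.eq_zero_iff_mem.mpr (hcon i), map_zero]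
    rw [h2, zero_div]
    exact zero_mem _
  have h2 : Transcendental ℂ (z ⟨0, hr⟩) := by
    have := hz.1.transcendental ⟨0, hr⟩
    exact this
  apply h2
  set y : functionField P := z ⟨0, hr⟩ with hy
  have h3 : (y : FractionRing (MvPolynomial (Fin (N + 1)) ℂ ⧸ P)) ∈
      (⊥ : IntermediateField ℂ (FractionRing (MvPolynomial (Fin (N + 1)) ℂ ⧸ P))) := by
    rw [← h1]
    exact y.2
  obtain ⟨c, hc⟩ := IntermediateField.mem_bot.mp h3
  have h4 : y = algebraMap ℂ (functionField P) c := Subtype.ext hc.symm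
  have h5 : IsAlgebraic ℂ y := by
    rw [h4]
    exact isAlgebraic_algebraMap c
  exact h5

end Pool.Agent.H62.FC

end
end

section

/-!
# SY PotM: a maximum principle on discs without good points

`m` is upper semicontinuous, `m ≤ A`, and `log m` has Laplacian at least `4 κ` at the points where `0 < m < d`.
* `bound_of_no_good`: if `m < d` on a disc of centre `z₀` and radius `R` then `m p ≤ A exp (-(κ/2) (R² - |p - z₀|²))` there;
* `exists_ge`: if `m` is positive somewhere, then `d ≤ m` somewhere.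
-/

set_option autoImplicit false

namespace Pool.Agent.SY

open Filter Topology Metric
open Pool.Agent.H36.BP (EN Sub Sub.mul Sub.congr Sub.exp_sq max_principle)

/-- decay inside a disc, at the points of which `m` has large Laplacian -/
theorem decay {m : ℂ → ℝ} {z₀ : ℂ} {R A κ : ℝ} (hR : 0 < R) (hκ : 0 < κ) (hA0 : 0 ≤ A) (hm : UpperSemicontinuousOn m (closedBall z₀ R))
    (hA : ∀ z ∈ closedBall z₀ R, m z ≤ A) (hs : ∀ z ∈ ball z₀ R, 0 < m z → Sub m z κ) :
    ∀ z ∈ closedBall z₀ R, m z ≤ A * Real.exp (-(κ / 2) * (R ^ 2 - ‖z - z₀‖ ^ 2)) := by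
  have _ := hR
  have husc : UpperSemicontinuousOn (fun z => m z * Real.exp (-(κ / 2) * ‖z - z₀‖ ^ 2))
      (closedBall z₀ R) := by
    intro x hx y hy
    set h : ℂ → ℝ := fun z => Real.exp (-(κ / 2) * ‖z - z₀‖ ^ 2) with hh
    have hx0 : 0 < h x := Real.exp_pos _
    have h1 : m x < y / h x := (lt_div_iff₀ hx0).2 hy
    obtain ⟨a, ha1, ha2⟩ := exists_between h1
    have h2 : a * h x < y := (lt_div_iff₀ hx0).1 ha2
    have hc : Continuous h := by
      rw [hh]
      fun_prop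
    have h3 : ∀ᶠ z in 𝓝[closedBall z₀ R] x, a * h z < y :=
      (continuousWithinAt_const.mul hc.continuousWithinAt).tendsto.eventually (gt_mem_nhds h2)
    filter_upwards [hm x hx a ha1, h3] with z hz1 hz2
    exact (mul_lt_mul_of_pos_right hz1 (Real.exp_pos _)).trans hz2
  have key := max_principle (isCompact_closedBall z₀ R) isOpen_ball ball_subset_closedBall husc
    (A := A * Real.exp (-(κ / 2) * R ^ 2)) (fun z hz hz0 => ?_) (by positivity) (fun z hz => ?_)
  · intro p hp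
    have h1 := key p hp
    have h2 : Real.exp (-(κ / 2) * (R ^ 2 - ‖p - z₀‖ ^ 2)) =
        Real.exp (-(κ / 2) * R ^ 2) / Real.exp (-(κ / 2) * ‖p - z₀‖ ^ 2) := by
      rw [← Real.exp_sub]
      congr 1
      ring
    rw [h2, ← mul_div_assoc, le_div_iff₀ (Real.exp_pos _)]
    exact h1
  · have hm0 : 0 < m z := by
      by_contra h3
      exact absurd hz0 (not_lt.2 (mul_nonpos_of_nonpos_of_nonneg (not_lt.1 h3) (Real.exp_pos _).le))
    have hs1 := hs z hz hm0
    have hs2 : Sub (fun w => Real.exp (-(κ / 2) * ‖w - z₀‖ ^ 2)) z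
        (-(κ / 2) * ‖deriv (fun w : ℂ => w - z₀) z‖ ^ 2) :=
      Sub.exp_sq (analyticAt_id.sub analyticAt_const) _
    have h3 : deriv (fun w : ℂ => w - z₀) z = 1 := by
      rw [deriv_sub_const]
      exact deriv_id z
    rw [h3, norm_one, one_pow, mul_one] at hs2
    exact ⟨κ + -(κ / 2), by linarith, hs1.mul hs2⟩
  · have hz1 : z ∈ sphere z₀ R := by
      rw [← closedBall_sdiff_ball]
      exact hz
    have hzn : ‖z - z₀‖ = R := mem_sphere_iff_norm.1 hz1
    show m z * Real.exp (-(κ / 2) * ‖z - z₀‖ ^ 2) ≤ _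
    rw [hzn]
    exact mul_le_mul_of_nonneg_right (hA z (sphere_subset_closedBall hz1)) (Real.exp_pos _).le

theorem bound_of_no_good {m : ℂ → ℝ} {A d κ R : ℝ} {z₀ : ℂ} (hκ : 0 < κ) (hA0 : 0 ≤ A)
    (hR : 0 < R) (hm : UpperSemicontinuousOn m (closedBall z₀ R)) (hA : ∀ z ∈ closedBall z₀ R, m z ≤ A)
    (hsub : ∀ z ∈ ball z₀ R, 0 < m z → m z < d → Sub m z κ) (hd : ∀ z ∈ ball z₀ R, m z < d) :
    ∀ p ∈ closedBall z₀ R, m p ≤ A * Real.exp (-(κ / 2) * (R ^ 2 - ‖p - z₀‖ ^ 2)) := by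
  exact decay hR hκ hA0 hm hA fun z hz h0 => hsub z hz h0 (hd z hz)

theorem exists_ge {m : ℂ → ℝ} {A d κ : ℝ} (hκ : 0 < κ) (hA0 : 0 ≤ A)
    (hm : UpperSemicontinuous m) (hA : ∀ z, m z ≤ A)
    (hsub : ∀ z, 0 < m z → m z < d → Sub m z κ) {p : ℂ} (hp : 0 < m p) : ∃ y, d ≤ m y := by
  by_contra hno
  push Not at hno
  have h1 : ∀ n : ℕ, m p ≤ A * Real.exp (-(κ / 2) * (((n : ℝ) + 1) ^ 2)) := by
    intro n
    have h2 := bound_of_no_good (z₀ := p) (R := n + 1) hκ hA0 (by positivity) (hm.upperSemicontinuousOn _)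
      (fun z _ => hA z) (fun z _ => hsub z) (fun z _ => hno z) p
      (mem_closedBall_self (by positivity))
    rw [sub_self, norm_zero, zero_pow two_ne_zero, sub_zero] at h2
    exact h2
  have h3 : Tendsto (fun n : ℕ => A * Real.exp (-(κ / 2) * (((n : ℝ) + 1) ^ 2))) atTop (𝓝 (A * 0)) := by
    refine Tendsto.const_mul A (Real.tendsto_exp_atBot.comp ?_)
    have h4 : Tendsto (fun n : ℕ => ((n : ℝ) + 1) ^ 2) atTop atTop :=
      (tendsto_pow_atTop two_ne_zero).comp
        (tendsto_atTop_add_const_right _ _ tendsto_natCast_atTop_atTop)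
    exact h4.const_mul_atTop_of_neg (by linarith)
  have h4 : m p ≤ A * 0 := ge_of_tendsto' h3 h1
  rw [mul_zero] at h4
  linarith

end Pool.Agent.SY

end
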