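import Mathlib

/-! The parts of this file: E1.ResX, H13.G0.Scal, H62.BU.Had, H62.BU.Inv, MQ.Ibp, MQ3.WebBox. -/

section

/-!
# E1 ResX: the common zeros of two families of binary forms
-/

set_option autoImplicit false

open Topology Filter

noncomputable section

namespace Pool.Agent.E1

/-- a function which is analytic at `0` and homogeneous of degree `m` is a form -/
theorem ResX_form {m : ℕ} {f : ℂ × ℂ → ℂ} (hf : AnalyticAt ℂ f 0) (hh : ∀ (c : ℂ) (v : ℂ × ℂ), f (c • v) = c ^ m * f v) :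
    ∃ P : Polynomial ℂ, P.natDegree ≤ m ∧ (∀ s, P.eval s = f (s, 1)) ∧ P.coeff m = f (1, 0) := by
  obtain ⟨p, r, hp⟩ := hf
  have hpm : ∀ v : ℂ × ℂ, p m (fun _ => v) = f v := by
    intro v
    set L : ℂ →L[ℂ] ℂ × ℂ := ContinuousLinearMap.toSpanSingleton ℂ v with hL
    have hp0 : HasFPowerSeriesOnBall f p (L 0) r := by
      rw [map_zero]
      exact hp
    have h1 := hp0.compContinuousLinearMap
    have h2 := h1.factorial_smul (1 : ℂ) m
    rw [← iteratedDeriv_eq_iteratedFDeriv] at h2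
    have h3 : (f ∘ L) = fun c : ℂ => c ^ m * f v := by
      funext c
      simp [hL, hh]
    have h4 : iteratedDeriv m (fun c : ℂ => c ^ m * f v) 0 = (m.factorial : ℂ) * f v := by
      have h5 : (fun c : ℂ => c ^ m * f v) = fun c : ℂ => f v * c ^ m := by
        funext c
        ring
      have h8 : (∏ i ∈ Finset.range m, ((m : ℂ) - (i : ℂ))) = (m.factorial : ℂ) := by
        rw [← Nat.descFactorial_self, Nat.descFactorial_eq_prod_range, Nat.cast_prod]
        refine Finset.prod_congr rfl fun i hi => ?_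
        rw [Nat.cast_sub (Finset.mem_range.1 hi).le]
      rw [h5, iteratedDeriv_const_mul_field, iteratedDeriv_eq_iterate, iter_deriv_pow', h8, Nat.sub_self]
      simp only [pow_zero, mul_one]
      exact mul_comm _ _
    rw [h3, h4] at h2
    have h6 : (p.compContinuousLinearMap L) m (fun _ => (1 : ℂ)) = p m (fun _ => v) := by
      rw [FormalMultilinearSeries.compContinuousLinearMap_apply]
      congr 1
      funext i
      simp [hL]
    rw [h6, nsmul_eq_mul] at h2
    have h7 : (m.factorial : ℂ) ≠ 0 := by exact_mod_cast m.factorial_ne_zero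
    exact mul_left_cancel₀ h7 h2
  set e₁ : Fin m → ℂ × ℂ := fun _ => (1, 0) with he₁
  set e₂ : Fin m → ℂ × ℂ := fun _ => (0, 1) with he₂
  refine ⟨∑ S : Finset (Fin m), Polynomial.C (p m (S.piecewise e₁ e₂)) * Polynomial.X ^ S.card, ?_, ?_, ?_⟩
  · refine Polynomial.natDegree_sum_le_of_forall_le _ _ fun S _ => ?_
    refine (Polynomial.natDegree_C_mul_X_pow_le _ _).trans ?_
    have := S.card_le_univ
    rwa [Fintype.card_fin] at this
  · intro s
    rw [Polynomial.eval_finsetSum]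
    have h1 : f (s, 1) = p m (fun i => s • e₁ i + e₂ i) := by
      rw [← hpm]
      congr 1
      funext i
      simp [he₁, he₂]
    have h2 : (fun i => s • e₁ i + e₂ i) = (fun i => s • e₁ i) + e₂ := rfl
    rw [h1, h2, ContinuousMultilinearMap.map_add_univ]
    refine Finset.sum_congr rfl fun S _ => ?_
    have h3 : S.piecewise (fun i => s • e₁ i) e₂ = S.piecewise (fun i => s • (S.piecewise e₁ e₂) i) (S.piecewise e₁ e₂) := by
      funext i
      by_cases hi : i ∈ S
      · simp [hi]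
      · simp [hi]
    rw [h3, ContinuousMultilinearMap.map_piecewise_smul, Finset.prod_const, Polynomial.eval_mul, Polynomial.eval_C, Polynomial.eval_pow,
      Polynomial.eval_X, smul_eq_mul, mul_comm]
  · rw [Polynomial.finsetSum_coeff, Finset.sum_eq_single (Finset.univ : Finset (Fin m))]
    · rw [Finset.piecewise_univ, Finset.card_univ, Fintype.card_fin, Polynomial.coeff_C_mul_X_pow, if_pos rfl, ← hpm]
    · intro S _ hS
      rw [Polynomial.coeff_C_mul_X_pow, if_neg]
      intro h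
      apply hS
      rw [← Finset.card_eq_iff_eq_univ, Fintype.card_fin, ← h]
    · intro h
      exact absurd (Finset.mem_univ _) h

/-- the coefficients of an analytic family of forms -/
theorem ResX_family {m : ℕ} {a : (ℂ × ℂ) × (ℂ × ℂ) → ℂ} (ha : ∀ v, AnalyticAt ℂ a (0, v))
    (has : ∀ᶠ p in 𝓝 (0 : ℂ × ℂ), ∀ (c : ℂ) (v : ℂ × ℂ), a (p, c • v) = c ^ m * a (p, v)) :
    ∃ A : ℂ × ℂ → Polynomial ℂ, (∀ k, AnalyticAt ℂ (fun p => (A p).coeff k) 0) ∧
      ∀ᶠ p in 𝓝 (0 : ℂ × ℂ), (A p).natDegree ≤ m ∧ (∀ s, (A p).eval s = a (p, (s, 1))) ∧ (A p).coeff m = a (p, (1, 0)) := by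
  refine ⟨fun p => Lagrange.interpolate (Finset.range (m + 1)) (fun j : ℕ => (j : ℂ)) (fun j : ℕ => a (p, ((j : ℂ), 1))), ?_, ?_⟩
  · intro k
    have h1 : (fun p : ℂ × ℂ => (Lagrange.interpolate (Finset.range (m + 1)) (fun j : ℕ => (j : ℂ)) (fun j : ℕ => a (p, ((j : ℂ), 1)))).coeff k) =
        fun p : ℂ × ℂ => ∑ j ∈ Finset.range (m + 1), a (p, ((j : ℂ), 1)) *
          (Lagrange.basis (Finset.range (m + 1)) (fun j : ℕ => (j : ℂ)) j).coeff k := by
      funext p
      rw [Lagrange.interpolate_apply, Polynomial.finsetSum_coeff]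
      refine Finset.sum_congr rfl fun j _ => ?_
      rw [Polynomial.coeff_C_mul]
    rw [h1]
    refine Finset.analyticAt_fun_sum _ fun j _ => ?_
    have h2 : AnalyticAt ℂ (fun p : ℂ × ℂ => (p, (((j : ℂ), (1 : ℂ)) : ℂ × ℂ))) 0 := analyticAt_id.prod analyticAt_const
    exact (AnalyticAt.comp (g := a) (f := fun p : ℂ × ℂ => (p, (((j : ℂ), (1 : ℂ)) : ℂ × ℂ))) (ha _) h2).mul analyticAt_const
  · have h1 : ∀ᶠ p in 𝓝 (0 : ℂ × ℂ), AnalyticAt ℂ (fun v => a (p, v)) 0 := by
      have h2 : Tendsto (fun p : ℂ × ℂ => (p, (0 : ℂ × ℂ))) (𝓝 0) (𝓝 (0, 0)) := by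
        have : Continuous (fun p : ℂ × ℂ => (p, (0 : ℂ × ℂ))) := by fun_prop
        exact this.tendsto 0
      filter_upwards [h2.eventually (ha 0).eventually_analyticAt] with p hp
      have h3 : AnalyticAt ℂ (fun v : ℂ × ℂ => (p, v)) 0 := analyticAt_const.prod analyticAt_id
      exact AnalyticAt.comp (g := a) (f := fun v : ℂ × ℂ => (p, v)) hp h3
    filter_upwards [h1, has] with p h2 h3
    obtain ⟨P, hP, hPe, hPc⟩ := ResX_form h2 h3
    have h4 : P = Lagrange.interpolate (Finset.range (m + 1)) (fun j : ℕ => (j : ℂ)) (fun j : ℕ => a (p, ((j : ℂ), 1))) := by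
      refine Lagrange.eq_interpolate_of_eval_eq _ ?_ ?_ ?_
      · intro i _ j _ hij
        exact Nat.cast_injective hij
      · rw [Finset.card_range]
        exact lt_of_le_of_lt (Polynomial.degree_le_of_natDegree_le hP) (by exact_mod_cast Nat.lt_succ_self m)
      · intro j _
        exact hPe _
    rw [← h4]
    exact ⟨hP, hPe, hPc⟩

end Pool.Agent.E1

end
end

section

/-!
# G0 Scal: scaling of a degenerating sequence of curves by its Taylor coefficients (STEP 1 of note 4435)
-/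

set_option autoImplicit false

open Topology Filter Metric Finset

namespace Pool.Agent.H13.G0

variable {E : Type*} [NormedAddCommGroup E] [NormedSpace ℂ E] [FiniteDimensional ℂ E]

/-- locally uniform convergence and a shift of the centre -/
theorem shift_unif {𝒰 : Ultrafilter ℕ} {G : ℕ → ℂ → E} {Γ : ℂ → E} {r : ℝ} (hr : 0 < r) (hΓ : ContinuousOn Γ (ball 0 r))
    (hlim : TendstoLocallyUniformlyOn G Γ 𝒰 (ball 0 r)) {c : ℕ → ℂ} (hc : Tendsto c 𝒰 (𝓝 0)) :
    ∀ ε : ℝ, 0 < ε → ∀ᶠ n in (𝒰 : Filter ℕ), ∀ z ∈ ball (0 : ℂ) (r / 2), ‖G n (c n + z) - Γ z‖ ≤ ε := by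
  intro ε hε
  have hK : IsCompact (closedBall (0 : ℂ) (3 * r / 4)) := isCompact_closedBall 0 _
  have hsub : closedBall (0 : ℂ) (3 * r / 4) ⊆ ball 0 r := closedBall_subset_ball (by linarith)
  have h1 := (tendstoLocallyUniformlyOn_iff_forall_isCompact isOpen_ball).1 hlim _ hsub hK
  rw [Metric.tendstoUniformlyOn_iff] at h1
  have h2 : UniformContinuousOn Γ (closedBall (0 : ℂ) (3 * r / 4)) := hK.uniformContinuousOn_of_continuous (hΓ.mono hsub)
  rw [Metric.uniformContinuousOn_iff] at h2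
  obtain ⟨δ, hδ, h3⟩ := h2 (ε / 2) (by linarith)
  filter_upwards [h1 (ε / 2) (by linarith), Metric.tendsto_nhds.1 hc (min δ (r / 4)) (lt_min hδ (by linarith))] with n h4 h5 z hz
  rw [dist_zero_right] at h5
  rw [mem_ball_zero_iff] at hz
  have h6 : c n + z ∈ closedBall (0 : ℂ) (3 * r / 4) := by
    rw [mem_closedBall_zero_iff]
    have h7 := norm_add_le (c n) z
    have h8 := h5.le.trans (min_le_right _ _)
    linarith
  have h7 : z ∈ closedBall (0 : ℂ) (3 * r / 4) := by
    rw [mem_closedBall_zero_iff]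
    linarith
  have h8 := h4 _ h6
  have h9 := h3 _ h6 _ h7 (by
    rw [dist_eq_norm, add_sub_cancel_right]
    exact h5.trans_le (min_le_left _ _))
  rw [dist_eq_norm] at h8 h9
  have h10 : G n (c n + z) - Γ z = -(Γ (c n + z) - G n (c n + z)) + (Γ (c n + z) - Γ z) := by abel
  rw [h10]
  refine (norm_add_le _ _).trans ?_
  rw [norm_neg]
  linarith

/-- bounded sequences have limits along an ultrafilter -/
theorem exists_lim_of_bdd (𝒰 : Ultrafilter ℕ) {b : ℕ → E} {C : ℝ} (hb : ∀ᶠ n in (𝒰 : Filter ℕ), ‖b n‖ ≤ C) :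
    ∃ b₀ : E, Tendsto b 𝒰 (𝓝 b₀) := by
  haveI : ProperSpace E := FiniteDimensional.proper ℂ E
  obtain ⟨b₀, hb₀, hle⟩ := (isCompact_closedBall (0 : E) C).ultrafilter_le_nhds (𝒰.map b) (by
    rw [le_principal_iff, Ultrafilter.coe_map, Filter.mem_map]
    filter_upwards [hb] with n hn
    rw [Set.mem_preimage, mem_closedBall_zero_iff]
    exact hn)
  refine ⟨b₀, ?_⟩
  rwa [Ultrafilter.coe_map] at hle

end Pool.Agent.H13.G0

end

section

/-!
# BU Had: Hadamard's lemma

If `f` is analytic at `x₀` then `f x = f x₀ + S x (x - x₀)` near `x₀` with `S` analytic at `x₀`, `S x₀ = fderiv f x₀`.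
-/

set_option autoImplicit false

namespace Pool.Agent.H62.BU

open Filter Topology

variable {E F : Type*} [NormedAddCommGroup E] [NormedSpace ℂ E] [NormedAddCommGroup F] [NormedSpace ℂ F]

/-- Hadamard's lemma for analytic functions -/
theorem hadamard [CompleteSpace F] {f : E → F} {x₀ : E} (hf : AnalyticAt ℂ f x₀) :
    ∃ S : E → E →L[ℂ] F, AnalyticAt ℂ S x₀ ∧ S x₀ = fderiv ℂ f x₀ ∧ ∀ᶠ x in 𝓝 x₀, f x = f x₀ + S x (x - x₀) := by
  obtain ⟨p, r, hp⟩ := hf
  have hr : r ≤ p.shift.radius := by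
    rw [FormalMultilinearSeries.radius_shift]
    exact hp.r_le
  have hpos : 0 < p.shift.radius := lt_of_lt_of_le hp.r_pos hr
  have h1 : HasFPowerSeriesOnBall p.shift.sum p.shift 0 r :=
    p.shift.hasFPowerSeriesOnBall hpos |>.mono hp.r_pos hr
  set S : E → E →L[ℂ] F := fun x => p.shift.sum (x - x₀) with hS
  have h2 : HasFPowerSeriesOnBall S p.shift x₀ r := by
    have := h1.comp_sub x₀
    simpa using this
  have h3 := h2.unshift (z := f x₀)
  have h4 : p.shift.unshift (f x₀) = p := by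
    ext n
    cases n with
    | zero =>
      rw [FormalMultilinearSeries.unshift]
      simp only [ContinuousMultilinearMap.uncurry0_apply, continuousMultilinearCurryFin0_symm_apply]
      exact (hp.coeff_zero _).symm
    | succ n =>
      simp only [FormalMultilinearSeries.unshift, FormalMultilinearSeries.shift]
      simp
  have h5 : ∀ᶠ x in 𝓝 x₀, f x = f x₀ + S x (x - x₀) := by
    have e1 : HasFPowerSeriesOnBall (fun y => f x₀ + S y (y - x₀)) p x₀ r := by
      rw [h4] at h3
      exact h3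
    have e2 := hp.unique e1
    filter_upwards [Metric.eball_mem_nhds x₀ hp.r_pos] with x hx
    exact e2 hx
  refine ⟨S, h2.analyticAt, ?_, h5⟩
  have e3 : HasFDerivAt f (S x₀) x₀ := by
    have e4 : HasFDerivAt (fun y => f x₀ + S y (y - x₀)) (S x₀) x₀ := by
      have e5 : HasFDerivAt S (fderiv ℂ S x₀) x₀ := h2.analyticAt.differentiableAt.hasFDerivAt
      have e6 : HasFDerivAt (fun y : E => y - x₀) (ContinuousLinearMap.id ℂ E) x₀ :=
        (hasFDerivAt_id x₀).sub_const x₀
      have e7 := (e5.clm_apply e6).const_add (f x₀)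
      refine e7.congr_fderiv ?_
      ext v
      simp
    exact e4.congr_of_eventuallyEq h5
  exact e3.fderiv.symm

end Pool.Agent.H62.BU

end

section

/-!
# BU Inv: local inverse of an analytic map
-/

set_option autoImplicit false

namespace Pool.Agent.H62.BU

open Filter Topology

/-- the analytic inverse function theorem -/
theorem local_inverse {E : Type*} [NormedAddCommGroup E] [NormedSpace ℂ E] [FiniteDimensional ℂ E] {f : E → E} {x₀ : E}
    (hf : AnalyticAt ℂ f x₀) (hi : ∀ v, fderiv ℂ f x₀ v = 0 → v = 0) :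
    ∃ ψ : E → E, AnalyticAt ℂ ψ (f x₀) ∧ (∀ᶠ x in 𝓝 x₀, ψ (f x) = x) ∧ (∀ᶠ y in 𝓝 (f x₀), f (ψ y) = y) ∧ ψ (f x₀) = x₀ := by
  have : CompleteSpace E := FiniteDimensional.complete ℂ E
  have hinj : Function.Injective (fderiv ℂ f x₀ : E →ₗ[ℂ] E) := by
    rw [injective_iff_map_eq_zero]
    exact hi
  let e : E ≃L[ℂ] E := (LinearEquiv.ofInjectiveEndo (fderiv ℂ f x₀ : E →ₗ[ℂ] E) hinj).toContinuousLinearEquiv
  have he : (e : E →L[ℂ] E) = fderiv ℂ f x₀ := by
    ext v
    rfl
  have hs : HasStrictFDerivAt f (e : E →L[ℂ] E) x₀ := by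
    rw [he]
    exact hf.hasStrictFDerivAt
  let P := hs.toOpenPartialHomeomorph f
  have hP : x₀ ∈ P.source := hs.mem_toOpenPartialHomeomorph_source
  have hcoe : (P : E → E) = f := hs.toOpenPartialHomeomorph_coe
  have h1 : AnalyticAt ℂ P.symm (P x₀) := by
    refine P.analyticAt_symm' hP ?_ (i := e) ?_
    · rw [hcoe]
      exact hf
    · rw [hcoe]
      exact he.symm
  rw [hcoe] at h1
  refine ⟨P.symm, h1, ?_, ?_, ?_⟩
  · filter_upwards [P.open_source.mem_nhds hP] with x hx
    have := P.left_inv hx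
    rwa [hcoe] at this
  · have h2 : f x₀ ∈ P.target := by
      have := P.map_source hP
      rwa [hcoe] at this
    filter_upwards [P.open_target.mem_nhds h2] with y hy
    have := P.right_inv hy
    rwa [hcoe] at this
  · have := P.left_inv hP
    rwa [hcoe] at this

end Pool.Agent.H62.BU

end

section

/-!
# MQ/Ibp: integration by parts on `ℂ`

`dx u`, `dy u` are the partial derivatives, `lap` the Laplacian, `dot`/`jac` the scalar product and the Jacobian of two gradients.
-/

set_option autoImplicit false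

open MeasureTheory Topology Filter Set

noncomputable section

namespace Pool.Agent.MQ

/-- `∂u/∂x` -/
def dx (u : ℂ → ℝ) (z : ℂ) : ℝ := fderiv ℝ u z 1

/-- `∂u/∂y` -/
def dy (u : ℂ → ℝ) (z : ℂ) : ℝ := fderiv ℝ u z Complex.I

/-! ## continuity of products with a compactly supported function -/

/-! ## integration by parts -/

/-! ## Jacobians -/

/-- mixed partial derivatives commute -/
theorem dx_dy_comm {b : ℂ → ℝ} {z : ℂ} (hb : ContDiffAt ℝ 2 b z) : dx (dy b) z = dy (dx b) z := by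
  have hs : IsSymmSndFDerivAt ℝ b z := hb.isSymmSndFDerivAt (by simp)
  have hd : DifferentiableAt ℝ (fderiv ℝ b) z := (hb.fderiv_right (m := 1) (by norm_num)).differentiableAt one_ne_zero
  have e : ∀ v w : ℂ, fderiv ℝ (fun y => fderiv ℝ b y v) z w = fderiv ℝ (fderiv ℝ b) z w v := by
    intro v w
    rw [fderiv_clm_apply hd (differentiableAt_const _)]
    simp
  change fderiv ℝ (fun y => fderiv ℝ b y Complex.I) z 1 = fderiv ℝ (fun y => fderiv ℝ b y 1) z Complex.I
  rw [e, e]
  exact hs.eq _ _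

end Pool.Agent.MQ

end
end

section

/-!
# MQ3 WebBox: the sheets of a web over the product of two half planes
-/

set_option autoImplicit false

open Topology Filter

noncomputable section

namespace Pool.Agent.MQ3

/-- the product of two left half planes -/
def HH : Set (ℂ × ℂ) := {v | v.1.re < 0 ∧ v.2.re < 0}

/-- the period vector -/
def per (u v : ℤ) : ℂ × ℂ := (u * (2 * Real.pi * Complex.I), v * (2 * Real.pi * Complex.I))

/-- the sheets (holomorphic functions on `HH` with distinct values) and their monodromy -/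
structure WebBox (p : ℕ) (T : Fin p → ℂ × ℂ → ℂ) (a b : Equiv.Perm (Fin p)) : Prop where
  an : ∀ k, ∀ v ∈ HH, AnalyticAt ℂ (T k) v
  inj : ∀ v ∈ HH, ∀ i j, T i v = T j v → i = j
  mon₁ : ∀ k, ∀ v ∈ HH, T k (v + per 1 0) = T (a k) v
  mon₂ : ∀ k, ∀ v ∈ HH, T k (v + per 0 1) = T (b k) v

variable {p : ℕ} {T : Fin p → ℂ × ℂ → ℂ} {a b : Equiv.Perm (Fin p)}

theorem two_pi_I_re (n : ℤ) : ((n : ℂ) * (2 * Real.pi * Complex.I)).re = 0 := by
  have h : ((n : ℂ) * (2 * Real.pi * Complex.I)) = (((n : ℝ) * (2 * Real.pi) : ℝ) : ℂ) * Complex.I := by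
    push_cast
    ring
  rw [h, Complex.re_ofReal_mul, Complex.I_re, mul_zero]

theorem HH_add_per {v : ℂ × ℂ} (hv : v ∈ HH) (m n : ℤ) : v + per m n ∈ HH := by
  refine ⟨?_, ?_⟩
  · show (v.1 + (m : ℂ) * (2 * Real.pi * Complex.I)).re < 0
    rw [Complex.add_re, two_pi_I_re, add_zero]
    exact hv.1
  · show (v.2 + (n : ℂ) * (2 * Real.pi * Complex.I)).re < 0
    rw [Complex.add_re, two_pi_I_re, add_zero]
    exact hv.2

theorem per_add (m n m' n' : ℤ) : per (m + m') (n + n') = per m n + per m' n' := by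
  simp only [per, Prod.mk_add_mk]
  push_cast
  ext <;> simp <;> ring

theorem per_zero : per 0 0 = 0 := by
  simp [per]

theorem HH_mem : ((-1 : ℂ), (-1 : ℂ)) ∈ HH := by
  constructor <;> simp

theorem WebBox.comm (h : WebBox p T a b) : Commute a b := by
  refine Equiv.ext fun k => ?_
  refine h.inj _ HH_mem _ _ ?_
  rw [Equiv.Perm.mul_apply, Equiv.Perm.mul_apply]
  have h1 := h.mon₁ (b k) _ HH_mem
  have h2 := h.mon₂ (a k) _ HH_mem
  have h3 := h.mon₁ k _ (HH_add_per HH_mem 0 1)
  have h4 := h.mon₂ k _ (HH_add_per HH_mem 1 0)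
  have h5 : ((-1 : ℂ), (-1 : ℂ)) + per 0 1 + per 1 0 = ((-1 : ℂ), (-1 : ℂ)) + per 1 0 + per 0 1 := by abel
  rw [← h1, ← h2, ← h4, ← h3, h5]

theorem WebBox.mon₁_zpow (h : WebBox p T a b) (n : ℤ) : ∀ (k : Fin p), ∀ v ∈ HH, T k (v + per n 0) = T ((a ^ n) k) v := by
  induction n with
  | zero =>
    intro k v _
    rw [per_zero, add_zero, zpow_zero, Equiv.Perm.one_apply]
  | succ n ih =>
    intro k v hv
    have h1 : v + per ((n : ℤ) + 1) 0 = v + per n 0 + per 1 0 := by
      rw [add_assoc, ← per_add, add_zero]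
    rw [h1, h.mon₁ _ _ (HH_add_per hv _ _), ih _ v hv, zpow_add_one, Equiv.Perm.mul_apply]
  | pred n ih =>
    intro k v hv
    have h1 := h.mon₁ (a⁻¹ k) _ (HH_add_per hv (-(n : ℤ) - 1) 0)
    have h2 : v + per (-(n : ℤ) - 1) 0 + per 1 0 = v + per (-(n : ℤ)) 0 := by
      rw [add_assoc, ← per_add]
      congr 2 <;> ring
    have h0a : a (a⁻¹ k) = k := by rw [← Equiv.Perm.mul_apply, mul_inv_cancel, Equiv.Perm.one_apply]
    rw [h2, h0a, ih _ v hv] at h1
    rw [← h1, zpow_sub_one, Equiv.Perm.mul_apply]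

theorem WebBox.mon₂_zpow (h : WebBox p T a b) (n : ℤ) : ∀ (k : Fin p), ∀ v ∈ HH, T k (v + per 0 n) = T ((b ^ n) k) v := by
  induction n with
  | zero =>
    intro k v _
    rw [per_zero, add_zero, zpow_zero, Equiv.Perm.one_apply]
  | succ n ih =>
    intro k v hv
    have h1 : v + per 0 ((n : ℤ) + 1) = v + per 0 n + per 0 1 := by
      rw [add_assoc, ← per_add, add_zero]
    rw [h1, h.mon₂ _ _ (HH_add_per hv _ _), ih _ v hv, zpow_add_one, Equiv.Perm.mul_apply]
  | pred n ih =>
    intro k v hv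
    have h1 := h.mon₂ (b⁻¹ k) _ (HH_add_per hv 0 (-(n : ℤ) - 1))
    have h2 : v + per 0 (-(n : ℤ) - 1) + per 0 1 = v + per 0 (-(n : ℤ)) := by
      rw [add_assoc, ← per_add]
      congr 2 <;> ring
    have h0a : b (b⁻¹ k) = k := by rw [← Equiv.Perm.mul_apply, mul_inv_cancel, Equiv.Perm.one_apply]
    rw [h2, h0a, ih _ v hv] at h1
    rw [← h1, zpow_sub_one, Equiv.Perm.mul_apply]

theorem WebBox.mon (h : WebBox p T a b) (k : Fin p) {v : ℂ × ℂ} (hv : v ∈ HH) (m n : ℤ) :
    T k (v + per m n) = T ((a ^ m * b ^ n) k) v := by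
  have h1 : v + per m n = v + per m 0 + per 0 n := by
    rw [add_assoc, ← per_add]
    simp
  rw [h1, h.mon₂_zpow n _ _ (HH_add_per hv _ _), h.mon₁_zpow m _ _ hv, Equiv.Perm.mul_apply]

/-- the stabilizer of a sheet -/
def stab (a b : Equiv.Perm (Fin p)) (hab : Commute a b) (k : Fin p) : AddSubgroup (ℤ × ℤ) where
  carrier := {n | (a ^ n.1 * b ^ n.2) k = k}
  zero_mem' := by simp
  add_mem' := by
    intro m n hm hn
    rw [Set.mem_ofPred_eq] at hm hn ⊢
    have h1 : a ^ (m + n).1 * b ^ (m + n).2 = (a ^ m.1 * b ^ m.2) * (a ^ n.1 * b ^ n.2) := by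
      rw [Prod.fst_add, Prod.snd_add, zpow_add, zpow_add]
      have h2 : Commute (b ^ m.2) (a ^ n.1) := (hab.zpow_zpow n.1 m.2).symm
      calc a ^ m.1 * a ^ n.1 * (b ^ m.2 * b ^ n.2) = a ^ m.1 * (a ^ n.1 * b ^ m.2) * b ^ n.2 := by group
        _ = a ^ m.1 * (b ^ m.2 * a ^ n.1) * b ^ n.2 := by rw [h2.eq]
        _ = _ := by group
    rw [h1, Equiv.Perm.mul_apply, hn, hm]
  neg_mem' := by
    intro m hm
    rw [Set.mem_ofPred_eq] at hm ⊢
    have h1 : a ^ (-m).1 * b ^ (-m).2 = (a ^ m.1 * b ^ m.2)⁻¹ := by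
      rw [Prod.fst_neg, Prod.snd_neg, zpow_neg, zpow_neg, mul_inv_rev]
      exact (((hab.zpow_zpow m.1 m.2).inv_inv).eq)
    rw [h1]
    conv_lhs => rw [← hm]
    rw [← Equiv.Perm.mul_apply, inv_mul_cancel, Equiv.Perm.one_apply]

theorem mem_stab {hab : Commute a b} {k : Fin p} {n : ℤ × ℤ} : n ∈ stab a b hab k ↔ (a ^ n.1 * b ^ n.2) k = k := Iff.rfl

/-- the stabilizer has finite index -/
theorem stab_finiteIndex (hab : Commute a b) (k : Fin p) : (stab a b hab k).FiniteIndex := by
  have h1 : ∀ n : ℤ × ℤ, (Nat.factorial p : ℤ) • n ∈ stab a b hab k := by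
    intro n
    rw [mem_stab]
    have h2 : ∀ c : Equiv.Perm (Fin p), ∀ j : ℤ, c ^ ((Nat.factorial p : ℤ) * j) = 1 := by
      intro c j
      have h3 : c ^ Nat.factorial p = 1 := by
        have h4 := pow_card_eq_one' (G := Equiv.Perm (Fin p)) (x := c)
        rwa [Nat.card_perm, Nat.card_eq_fintype_card, Fintype.card_fin] at h4
      rw [zpow_mul, zpow_natCast, h3, one_zpow]
    rw [Prod.smul_fst, Prod.smul_snd, smul_eq_mul, smul_eq_mul, h2, h2, mul_one, Equiv.Perm.one_apply]
  let φ : Multiplicative (ℤ × ℤ) →* Equiv.Perm (Fin p) :=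
    { toFun := fun n => a ^ (Multiplicative.toAdd n).1 * b ^ (Multiplicative.toAdd n).2
      map_one' := by simp
      map_mul' := by
        intro m n
        have h2 : Commute (b ^ (Multiplicative.toAdd m).2) (a ^ (Multiplicative.toAdd n).1) := (hab.zpow_zpow _ _).symm
        rw [toAdd_mul, Prod.fst_add, Prod.snd_add, zpow_add, zpow_add]
        calc _ = a ^ (Multiplicative.toAdd m).1 * (a ^ (Multiplicative.toAdd n).1 * b ^ (Multiplicative.toAdd m).2) * b ^ (Multiplicative.toAdd n).2 := by group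
          _ = a ^ (Multiplicative.toAdd m).1 * (b ^ (Multiplicative.toAdd m).2 * a ^ (Multiplicative.toAdd n).1) * b ^ (Multiplicative.toAdd n).2 := by
            rw [h2.eq]
          _ = _ := by group }
  have h2 : Finite (Multiplicative (ℤ × ℤ) ⧸ φ.ker) := Finite.of_injective _ (QuotientGroup.kerLift_injective φ)
  have h3 : (φ.ker).FiniteIndex := Subgroup.finiteIndex_of_finite_quotient
  have h4 : AddSubgroup.toSubgroup (stab a b hab k) ≥ φ.ker := by
    intro n hn
    rw [MonoidHom.mem_ker] at hn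
    show (a ^ (Multiplicative.toAdd n).1 * b ^ (Multiplicative.toAdd n).2) k = k
    have h5 : φ n = a ^ (Multiplicative.toAdd n).1 * b ^ (Multiplicative.toAdd n).2 := rfl
    rw [← h5, hn, Equiv.Perm.one_apply]
  have h5 : (AddSubgroup.toSubgroup (stab a b hab k)).FiniteIndex := Subgroup.finiteIndex_of_le h4
  exact ⟨fun h6 => h5.index_ne_zero (by simpa using h6)⟩

/-- a continuous selection of sheets is constant -/
theorem WebBox.index (h : WebBox p T a b) {E : Type*} [TopologicalSpace E] {S : Set E} (hS : IsPreconnected S) (hne : S.Nonempty) {v : E → ℂ × ℂ}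
    {Q : E → ℂ} (hv : ContinuousOn v S) (hm : ∀ s ∈ S, v s ∈ HH) (hQ : ContinuousOn Q S) (hr : ∀ s ∈ S, ∃ i, Q s = T i (v s)) :
    ∃ i, ∀ s ∈ S, Q s = T i (v s) := by
  classical
  obtain ⟨s₀, hs₀⟩ := hne
  have hr' : ∀ s : E, ∃ i, s ∈ S → Q s = T i (v s) := by
    intro s
    by_cases hs : s ∈ S
    · obtain ⟨i, hi⟩ := hr s hs
      exact ⟨i, fun _ => hi⟩
    · obtain ⟨i, -⟩ := hr s₀ hs₀
      exact ⟨i, fun h => absurd h hs⟩
  choose f hf using hr'
  have hc : ContinuousOn f S := by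
    intro s hs
    have h1 : ∀ᶠ s' in 𝓝[S] s, f s' = f s := by
      have h2 : ∀ j, j ≠ f s → ∀ᶠ s' in 𝓝[S] s, Q s' ≠ T j (v s') := by
        intro j hj
        have h3 : ContinuousWithinAt (fun s' => Q s' - T j (v s')) S s :=
          (hQ s hs).sub ((h.an j _ (hm s hs)).continuousAt.comp_continuousWithinAt (hv s hs))
        have h4 : Q s - T j (v s) ≠ 0 := by
          intro h5
          apply hj
          refine h.inj _ (hm s hs) _ _ ?_
          rw [← sub_eq_zero.1 h5, hf s hs]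
        filter_upwards [h3.eventually_ne h4] with s' h5 h6
        exact h5 (by rw [h6, sub_self])
      have h3 : ∀ᶠ s' in 𝓝[S] s, ∀ j, j ≠ f s → Q s' ≠ T j (v s') := by
        rw [Filter.eventually_all]
        intro j
        by_cases hj : j = f s
        · exact Eventually.of_forall fun s' h => absurd hj h
        · filter_upwards [h2 j hj] with s' hs' _
          exact hs'
      filter_upwards [h3, self_mem_nhdsWithin] with s' h4 h5
      by_contra h6
      exact h4 _ h6 (hf s' h5)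
    exact (continuousWithinAt_const (b := f s)).congr_of_eventuallyEq h1 rfl
  refine ⟨f s₀, fun s hs => ?_⟩
  rw [← hS.constant hc hs hs₀]
  exact hf s hs

end Pool.Agent.MQ3

end
end
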