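import Pool.Agent.H94.G6.M07
import Pool.Agent.H94.G6.M09
import Pool.Agent.H94.G6.M14
import Pool.Agent.H94.G6.M18

/-! The parts of this file: H36.BPL.Aff, H62.BU.Exc, H62.BU.Cov, SB.Mu. -/

section

/-!
# BPL Aff: open parts which are proper over an affine variety

`AffProper X K Φ`: the functions `Φ : K → ℂ^M` (of degree `0`) are holomorphic along curves and tend to infinity at the points of `X \ K`.
-/

set_option autoImplicit false

namespace Pool.Agent.H36.BPL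

open Filter Topology Metric
open Pool.Agent.H36.BP (EN Curve)

/-- `Φ` is a proper map on the open part `K` of the closed cone `X` -/
structure AffProper {V : Type} [NormedAddCommGroup V] [NormedSpace ℂ V] {M : ℕ} (X K : Set V) (Φ : V → Fin M → ℂ) : Prop where
  smul : ∀ x ∈ K, ∀ c : ℂ, c ≠ 0 → Φ (c • x) = Φ x
  cont : ContinuousOn Φ K
  hol : ∀ (F : ℂ → V) (z₀ : ℂ), AnalyticAt ℂ F z₀ → (∀ᶠ z in 𝓝 z₀, F z ∈ K) → AnalyticAt ℂ (fun z => Φ (F z)) z₀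
  proper : ∀ x ∈ X, x ∉ K → ∀ R : ℝ, ∀ᶠ y in 𝓝 x, y ∈ K → R < ‖Φ y‖
  iso : ∀ (F : ℂ → V) (z₀ : ℂ), AnalyticAt ℂ F z₀ → (∀ᶠ z in 𝓝 z₀, F z ∈ X) → (∀ᶠ z in 𝓝 z₀, F z ∉ K) ∨ ∀ᶠ z in 𝓝[≠] z₀, F z ∈ K

variable {N : ℕ}

theorem hur_of_affProper {X K : Set (EN N)} {M : ℕ} {Φ : EN N → Fin M → ℂ} (hX : ∀ x ∈ closure K, x ≠ 0 → x ∈ X)
    (hsm : ∀ x ∈ K, ∀ c : ℂ, c ≠ 0 → c • x ∈ K) (h : AffProper X K Φ) :
    ∀ (l : Filter ℕ), l.NeBot → ∀ (F : ℕ → ℂ → EN N) (H : ℂ → EN N) (k : ℕ) (z₀ : ℂ) (s : ℝ), 0 < s →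
    (∀ᶠ n in l, Curve K (Metric.ball z₀ s) (F n)) → DifferentiableOn ℂ H (Metric.ball z₀ s) →
    TendstoLocallyUniformlyOn F (fun z => (z - z₀) ^ k • H z) l (Metric.ball z₀ s) → H z₀ ≠ 0 → H z₀ ∉ K → ∀ᶠ z in 𝓝 z₀, H z ∉ K := by
  intro l hl F H k z₀ s hs hF hH hlim h0 hK
  have hHa : AnalyticAt ℂ H z₀ := hH.analyticAt (isOpen_ball.mem_nhds (mem_ball_self hs))
  have hsmK : ∀ (x : EN N) (c : ℂ), c ≠ 0 → (c • x ∈ K ↔ x ∈ K) := by
    intro x c hc
    constructor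
    · intro h1
      have h2 := hsm _ h1 c⁻¹ (inv_ne_zero hc)
      rwa [smul_smul, inv_mul_cancel₀ hc, one_smul] at h2
    · intro h1
      exact hsm _ h1 c hc
  -- near `z₀` the curve `H` is in `X`
  have hcl : ∀ z ∈ ball z₀ s, z ≠ z₀ → (z - z₀) ^ k • H z ∈ closure K := by
    intro z hz _
    have h1 : Tendsto (fun n => F n z) l (𝓝 ((z - z₀) ^ k • H z)) := hlim.tendsto_at hz
    refine mem_closure_of_tendsto h1 ?_
    filter_upwards [hF] with n hn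
    exact hn.2 z hz
  have hne : ∀ᶠ z in 𝓝 z₀, H z ≠ 0 := hHa.continuousAt.eventually_ne h0
  have hclK : ∀ (x : EN N) (c : ℂ), c ≠ 0 → c • x ∈ closure K → x ∈ closure K := by
    intro x c hc hx
    have h1 : Continuous (fun y : EN N => c⁻¹ • y) := continuous_const_smul _
    have h2 := map_mem_closure h1 hx (fun y hy => hsm y hy c⁻¹ (inv_ne_zero hc))
    simpa [smul_smul, inv_mul_cancel₀ hc] using h2
  have hclH : ∀ᶠ z in 𝓝 z₀, H z ∈ closure K := by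
    have h1 : ∀ᶠ z in 𝓝[≠] z₀, H z ∈ closure K := by
      rw [eventually_nhdsWithin_iff]
      filter_upwards [isOpen_ball.mem_nhds (mem_ball_self hs)] with z hz hzne
      exact hclK _ _ (pow_ne_zero k (sub_ne_zero.mpr hzne)) (hcl z hz hzne)
    have h2 : H z₀ ∈ closure K := by
      have h3 : Tendsto H (𝓝[≠] z₀) (𝓝 (H z₀)) := hHa.continuousAt.tendsto.mono_left nhdsWithin_le_nhds
      exact isClosed_closure.mem_of_tendsto h3 h1
    have h4 := eventually_nhdsWithin_iff.mp h1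
    filter_upwards [h4] with z hz
    by_cases hz0 : z = z₀
    · rw [hz0]; exact h2
    · exact hz hz0
  have hHX : ∀ᶠ z in 𝓝 z₀, H z ∈ X := by
    filter_upwards [hclH, hne] with z h1 h2
    exact hX _ h1 h2
  rcases h.iso H z₀ hHa hHX with h1 | h1
  · exact h1
  exfalso
  -- a small closed disc
  have hball : ∀ᶠ z in 𝓝 z₀, z ∈ ball z₀ s := isOpen_ball.mem_nhds (mem_ball_self hs)
  obtain ⟨r₀, hr₀, hr₀K⟩ := Metric.eventually_nhds_iff_ball.mp ((eventually_nhdsWithin_iff.mp h1).and hball)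
  set r : ℝ := r₀ / 2 with hr
  have hr0 : 0 < r := by rw [hr]; positivity
  have hrlt : r < r₀ := by rw [hr]; linarith
  have hcb : closedBall z₀ r ⊆ ball z₀ r₀ := closedBall_subset_ball hrlt
  have hKr : ∀ z ∈ closedBall z₀ r, z ≠ z₀ → H z ∈ K := fun z hz hne => (hr₀K z (hcb hz)).1 hne
  have hsr : closedBall z₀ r ⊆ ball z₀ s := fun z hz => (hr₀K z (hcb hz)).2
  -- a uniform bound on the circle
  have hpt : ∀ w ∈ sphere z₀ r, ∃ t ∈ 𝓝 w, ∃ C : ℝ, ∀ᶠ n in l, ∀ z ∈ t, ‖Φ (F n z)‖ ≤ C := by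
    intro w hw
    have hwcb : w ∈ closedBall z₀ r := sphere_subset_closedBall hw
    have hwne : w ≠ z₀ := by
      rintro rfl
      rw [mem_sphere, dist_self] at hw
      linarith
    have hws : w ∈ ball z₀ s := hsr hwcb
    have hxK : (w - z₀) ^ k • H w ∈ K := hsm _ (hKr w hwcb hwne) _ (pow_ne_zero k (sub_ne_zero.mpr hwne))
    have hc : ∀ᶠ y in 𝓝 ((w - z₀) ^ k • H w), y ∈ K → ‖Φ y‖ < ‖Φ ((w - z₀) ^ k • H w)‖ + 1 := by
      have h2 := (h.cont _ hxK).norm.eventually_lt_const (show ‖Φ ((w - z₀) ^ k • H w)‖ < ‖Φ ((w - z₀) ^ k • H w)‖ + 1 by linarith)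
      exact eventually_nhdsWithin_iff.mp h2
    obtain ⟨δ, hδ, hδc⟩ := Metric.eventually_nhds_iff.mp hc
    have hGc : ContinuousAt (fun z => (z - z₀) ^ k • H z) w :=
      (((continuous_id.sub continuous_const).pow k).continuousAt).smul
        ((hH.differentiableAt (isOpen_ball.mem_nhds hws)).continuousAt)
    have hG : ∀ᶠ z in 𝓝 w, dist ((z - z₀) ^ k • H z) ((w - z₀) ^ k • H w) < δ / 2 :=
      Metric.tendsto_nhds.mp hGc (δ / 2) (by positivity)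
    obtain ⟨t, ht, htn⟩ := (Metric.tendstoLocallyUniformlyOn_iff.mp hlim) (δ / 2) (by positivity) w hws
    rw [isOpen_ball.nhdsWithin_eq hws] at ht
    refine ⟨t ∩ ({z | dist ((z - z₀) ^ k • H z) ((w - z₀) ^ k • H w) < δ / 2} ∩ ball z₀ s),
      inter_mem ht (inter_mem hG (isOpen_ball.mem_nhds hws)), ‖Φ ((w - z₀) ^ k • H w)‖ + 1, ?_⟩
    filter_upwards [htn, hF] with n hn1 hn2
    rintro z ⟨hz1, hz2, hz3⟩
    have h3 : dist (F n z) ((w - z₀) ^ k • H w) < δ := by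
      have h4 := hn1 z hz1
      rw [dist_comm] at h4
      have h5 : dist ((z - z₀) ^ k • H z) ((w - z₀) ^ k • H w) < δ / 2 := hz2
      calc dist (F n z) ((w - z₀) ^ k • H w) ≤ dist (F n z) ((z - z₀) ^ k • H z) + dist ((z - z₀) ^ k • H z) ((w - z₀) ^ k • H w) :=
            dist_triangle _ _ _
        _ < δ := by linarith
    exact (hδc h3 (hn2.2 z hz3)).le
  obtain ⟨C, hC⟩ : ∃ C : ℝ, ∀ᶠ n in l, ∀ z ∈ sphere z₀ r, ‖Φ (F n z)‖ ≤ C := by
    refine (isCompact_sphere z₀ r).induction_on (p := fun S => ∃ C : ℝ, ∀ᶠ n in l, ∀ z ∈ S, ‖Φ (F n z)‖ ≤ C) ?_ ?_ ?_ ?_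
    · exact ⟨0, Filter.Eventually.of_forall fun n z hz => absurd hz (Set.notMem_empty z)⟩
    · rintro S T hST ⟨C, hC⟩
      exact ⟨C, hC.mono fun n hn z hz => hn z (hST hz)⟩
    · rintro S T ⟨C, hC⟩ ⟨C', hC'⟩
      refine ⟨max C C', ?_⟩
      filter_upwards [hC, hC'] with n h1 h2
      rintro z (hz | hz)
      · exact (h1 z hz).trans (le_max_left _ _)
      · exact (h2 z hz).trans (le_max_right _ _)
    · intro w hw
      obtain ⟨t, ht, C, hC⟩ := hpt w hw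
      exact ⟨t, mem_nhdsWithin_of_mem_nhds ht, C, hC⟩
  -- the bound inside
  have hin : ∀ᶠ n in l, ∀ z ∈ ball z₀ r, ‖Φ (F n z)‖ ≤ C := by
    filter_upwards [hC, hF] with n h1 h2
    intro z hz
    have hd : DifferentiableOn ℂ (fun z => Φ (F n z)) (ball z₀ s) := by
      intro w hw
      have hFa : AnalyticAt ℂ (F n) w := h2.1.analyticAt (isOpen_ball.mem_nhds hw)
      have hFK : ∀ᶠ z in 𝓝 w, F n z ∈ K := by
        filter_upwards [isOpen_ball.mem_nhds hw] with z hz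
        exact h2.2 z hz
      exact (h.hol _ w hFa hFK).differentiableAt.differentiableWithinAt
    have hdc : DiffContOnCl ℂ (fun z => Φ (F n z)) (ball z₀ r) := by
      refine DifferentiableOn.diffContOnCl ?_
      rw [closure_ball z₀ hr0.ne']
      exact hd.mono hsr
    refine Complex.norm_le_of_forall_mem_frontier_norm_le isBounded_ball hdc (fun w hw => ?_) (subset_closure hz)
    rw [frontier_ball z₀ hr0.ne'] at hw
    exact h1 w hw
  -- the bound for the limit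
  have hlimC : ∀ z ∈ ball z₀ r, z ≠ z₀ → ‖Φ (H z)‖ ≤ C := by
    intro z hz hzne
    have hzs : z ∈ ball z₀ s := hsr (ball_subset_closedBall hz)
    have hzK : H z ∈ K := hKr z (ball_subset_closedBall hz) hzne
    have hcne : (z - z₀) ^ k ≠ 0 := pow_ne_zero k (sub_ne_zero.mpr hzne)
    have hxK : (z - z₀) ^ k • H z ∈ K := hsm _ hzK _ hcne
    have h2 : Tendsto (fun n => F n z) l (𝓝[K] ((z - z₀) ^ k • H z)) := by
      refine tendsto_nhdsWithin_iff.mpr ⟨hlim.tendsto_at hzs, ?_⟩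
      filter_upwards [hF] with n hn
      exact hn.2 z hzs
    have h3 : Tendsto (fun n => ‖Φ (F n z)‖) l (𝓝 ‖Φ ((z - z₀) ^ k • H z)‖) := ((h.cont _ hxK).tendsto.comp h2).norm
    rw [h.smul _ hzK _ hcne] at h3
    refine le_of_tendsto h3 ?_
    filter_upwards [hin] with n hn
    exact hn z hz
  have hprop := h.proper (H z₀) (hHX.self_of_nhds) hK C
  have h4 : ∀ᶠ z in 𝓝[≠] z₀, H z ∈ K → C < ‖Φ (H z)‖ := (hHa.continuousAt.eventually hprop).filter_mono nhdsWithin_le_nhds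
  have h5 : ∀ᶠ z in 𝓝[≠] z₀, z ∈ ball z₀ r := (show ∀ᶠ z in 𝓝 z₀, z ∈ ball z₀ r from ball_mem_nhds z₀ hr0).filter_mono nhdsWithin_le_nhds
  obtain ⟨z, hz1, hz2, hz3, hz4⟩ := ((h4.and (h1.and h5)).and self_mem_nhdsWithin).exists.imp fun z hz => (⟨hz.1.1, hz.1.2.1, hz.1.2.2, hz.2⟩ : (H z ∈ K → C < ‖Φ (H z)‖) ∧ H z ∈ K ∧ z ∈ ball z₀ r ∧ z ∈ ({z₀} : Set ℂ)ᶜ)
  have h6 := hz1 hz2
  have h7 := hlimC z hz3 hz4
  linarith

end Pool.Agent.H36.BPL

end

section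

/-!
# BU Exc: the chart of the blow-up at a point of the exceptional curve

Hadamard (`hadamard`, `V` is complete): `σ p = q + S p p` near `0`, `S` analytic at `0`, `S 0 = fderiv ℂ σ 0`.  Put `g (u, v) = S (u, u v) (1, v)` (analytic at `0`), `L_b (u, v) = l_b (g (u, v))`; as
`l_b q = 0`: `l_b (σ (u, u v)) = u L_b (u, v)` near `0`.  `σ1 (u, v) = (L_b (u, v) • σ (u, u v))_b`.  So `phi l (σ (u, u v)) = u • σ1 (u, v)`.

The vectors `α = (l_b (Dσ(0)(1,0)))_b = (L_b 0)_b` and `β = (l_b (Dσ(0)(0,1)))_b` are linearly independent (`Ker`, `indep`).  Choose `b₀` with `α_(b₀) ≠ 0` and `b₁` with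
`δ = β_(b₁) α_(b₀) - β_(b₀) α_(b₁) ≠ 0`.  `a = α_(b₀)`.  Choose `Λ : V →L ℂ` with `Λ q = 1` (`q ≠ 0`).

`Φ (u, v) = (u, L_(b₁)(u, v) / L_(b₀)(u, v))` is analytic at `0`, its derivative at `0` is invertible: `∂_v` of the second component at `0` is `δ / a²` (`L_b (0, v) = l_b (Dσ(0)(1, v))`).
Let `Ψ` be the local inverse at `Φ 0 = (0, α_(b₁)/a)` (`AnalyticAt` inverse function theorem: `HasStrictFDerivAt.toOpenPartialHomeomorph`, or `AnalyticAt.analyticAt_localInverse`),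
`τ1 y = Ψ ((τ (a⁻¹ • y b₀)).1, Λ (y b₁) / Λ (y b₀))`.

* `σ1 0 = (α_b • q)_b ≠ 0`; `σ1 p ∈ blow`: for `u ≠ 0` small it is `u⁻¹ • phi l (σ (u, u v))` with `σ (u, u v) ∉ ℂ q` (otherwise `τ` gives `(u, u v) = 0`: from `S`: the value `l (σ (u, u v)) = u L(u, v) ≠ 0` as
  `L_(b₀) ≠ 0` near `0`): in `dense`; for `u = 0` a limit of such points (`blow_closed`, `σ1 p ≠ 0` near `0`).
* `left`: `σ1 (u,v) b₀ = L_(b₀) • σ (u, u v)`, so `(τ (a⁻¹ • ..)).1 = u` by `inv`, `left` (`a⁻¹ L_(b₀) (u, v)` is near `1`), and `Λ (y b₁)/Λ (y b₀) = L_(b₁)/L_(b₀)`.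
* `inv`: clear.
* `right` on `dense` (`isChart_of_dense`): `y = c • phi l x` near `σ1 0`; `x' = a⁻¹ • y b₀` is near `q` and in `X` (it is a multiple of `x`, the factor is not `0` because `y b₀ ≠ 0`), so
  `x' = c' • σ (s, t)`, `(s, t) = τ x'` near `0`.  Put `(u, v) = τ1 y`, so `u = s` (as `Φ (Ψ w) = w` near `Φ 0`) and `[L_(b₁)/L_(b₀)] (u, v) = κ`, `κ = Λ (y b₁)/Λ (y b₀) = l_(b₁) x / l_(b₀) x = l_(b₁)(σ (s,t)) / l_(b₀)(σ (s,t))`.
  The function `M (t) = l_(b₁) (σ (s, t)) - κ l_(b₀) (σ (s, t))` vanishes at `t` and at `s (c_0 + v)` with `c_0 = 0`, i.e. at `s v`: `M` is injective near `0`, uniformly in `s`, `κ` near `0`, `α_(b₁)/a`, because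
  its derivative is near `β_(b₁) - κ β_(b₀)`, near `δ/a ≠ 0` (e.g. apply the inverse function theorem (local injectivity, `HasStrictFDerivAt.. injOn`) to
  `(s, κ, t) ↦ (s, κ, l_(b₁)(σ (s,t)) - κ l_(b₀)(σ (s,t)))` at `(0, α_(b₁)/a, 0)`).  So `t = s v`; `s ≠ 0` because otherwise `t = 0`, `x` is a multiple of `q`, all `l_b x = 0`.  Hence `x` is a multiple of `σ (u, u v)` and `y` of
  `phi l (σ (u, u v)) = u • σ1 (u, v)`.
-/

set_option autoImplicit false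

namespace Pool.Agent.H62.BU

open Filter Topology

variable {V : Type*} [NormedAddCommGroup V] [NormedSpace ℂ V] {ι : Type*} [Fintype ι]
variable {l : ι → V →L[ℂ] ℂ} {X : Set V} {σ : ℂ × ℂ → V} {τ : V → ℂ × ℂ}

/-- the common kernel of the forms is the line through `q` -/
def Ker (l : ι → V →L[ℂ] ℂ) (q : V) : Prop := ∀ v : V, (∀ b, l b v = 0) ↔ ∃ c : ℂ, v = c • q

private theorem exc_clm {E F : Type*} [NormedAddCommGroup E] [NormedSpace ℂ E] [NormedAddCommGroup F] [NormedSpace ℂ F] {G : Type*}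
    [NormedAddCommGroup G] [NormedSpace ℂ G] {S : G → E →L[ℂ] F} {f : G → E} {x : G} (hS : AnalyticAt ℂ S x) (hf : AnalyticAt ℂ f x) :
    AnalyticAt ℂ (fun p => S p (f p)) x :=
  AnalyticAt.comp ((ContinuousLinearMap.id ℂ (E →L[ℂ] F)).analyticAt_bilinear _) (hS.prod hf)

theorem chart_exc [FiniteDimensional ℂ V] (hX : Surface X) {q : V} (hl : Ker l q) (h : IsChart X σ τ) (h0 : σ 0 = q) :
    ∃ (σ1 : ℂ × ℂ → ι → V) (τ1 : (ι → V) → ℂ × ℂ), IsChart (blow l X) σ1 τ1 ∧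
      (∀ᶠ p in 𝓝 (0 : ℂ × ℂ), phi l (σ (p.1, p.1 * p.2)) = p.1 • σ1 p) ∧ σ1 0 = fun b => l b (fderiv ℂ σ 0 (1, 0)) • q := by
  have : CompleteSpace V := FiniteDimensional.complete ℂ V
  have hq0 : q ≠ 0 := h0 ▸ h.ne
  obtain ⟨S, hS, hS0, hσS⟩ := hadamard h.σ_an
  have hlq : ∀ b, l b q = 0 := (hl q).mpr ⟨1, (one_smul _ _).symm⟩
  obtain ⟨m, hm⟩ : ∃ m : ℂ × ℂ → ℂ × ℂ, ∀ p, m p = (p.1, p.1 * p.2) := ⟨fun p => (p.1, p.1 * p.2), fun p => rfl⟩
  have hm_an : ∀ p, AnalyticAt ℂ m p := fun p => by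
    have : m = fun p => (p.1, p.1 * p.2) := funext hm
    rw [this]
    exact analyticAt_fst.prod (analyticAt_fst.mul analyticAt_snd)
  have hm0 : m 0 = 0 := by rw [hm]; simp
  have hmt : Tendsto m (𝓝 0) (𝓝 0) := by
    have := (hm_an 0).continuousAt.tendsto
    rwa [hm0] at this
  obtain ⟨L, hL⟩ : ∃ L : ι → ℂ × ℂ → ℂ, ∀ b p, L b p = l b (S (m p) (1, p.2)) := ⟨fun b p => l b (S (m p) (1, p.2)), fun b p => rfl⟩
  have hL_an : ∀ b, AnalyticAt ℂ (L b) 0 := fun b => by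
    have e1 : L b = fun p => l b (S (m p) (1, p.2)) := funext (hL b)
    rw [e1]
    have e2 : AnalyticAt ℂ (fun p => S (m p)) 0 := AnalyticAt.comp (by rw [hm0]; exact hS) (hm_an 0)
    exact ((l b).analyticAt _).comp (exc_clm e2 (analyticAt_const.prod analyticAt_snd))
  have hlσ : ∀ᶠ p in 𝓝 (0 : ℂ × ℂ), ∀ b, l b (σ (m p)) = p.1 * L b p := by
    filter_upwards [hmt.eventually hσS] with p hp b
    rw [hp, map_add, h0, hlq, zero_add, sub_zero, hL]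
    have e1 : m p = p.1 • ((1 : ℂ), p.2) := by
      rw [hm]
      simp
    conv_lhs => rw [e1]
    rw [map_smul, map_smul, smul_eq_mul, ← e1]
  obtain ⟨σ1, hσ1⟩ : ∃ σ1 : ℂ × ℂ → ι → V, ∀ p b, σ1 p b = L b p • σ (m p) := ⟨fun p b => L b p • σ (m p), fun p b => rfl⟩
  have hσm : AnalyticAt ℂ (fun p => σ (m p)) 0 := AnalyticAt.comp (by rw [hm0]; exact h.σ_an) (hm_an 0)
  have hσ1_an : AnalyticAt ℂ σ1 0 := by
    have e1 : σ1 = fun p b => L b p • σ (m p) := by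
      funext p b
      exact hσ1 p b
    rw [e1]
    exact AnalyticAt.pi fun b => (hL_an b).smul hσm
  obtain ⟨α, hα⟩ : ∃ α : ι → ℂ, ∀ b, α b = l b (fderiv ℂ σ 0 (1, 0)) := ⟨_, fun b => rfl⟩
  obtain ⟨β, hβ⟩ : ∃ β : ι → ℂ, ∀ b, β b = l b (fderiv ℂ σ 0 (0, 1)) := ⟨_, fun b => rfl⟩
  have hLt : ∀ b (t : ℂ), L b (0, t) = α b + t * β b := fun b t => by
    rw [hL, hm]
    have e1 : ((0 : ℂ × ℂ).1, (0 : ℂ × ℂ).1 * t) = (0 : ℂ × ℂ) := by simp
    have e2 : (((0 : ℂ), t).1, ((0 : ℂ), t).1 * ((0 : ℂ), t).2) = (0 : ℂ × ℂ) := by simp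
    rw [e2, hS0, hα, hβ]
    have e3 : ((1 : ℂ), t) = (1, 0) + t • ((0 : ℂ), (1 : ℂ)) := by simp
    rw [e3, map_add, map_smul, map_add, map_smul, smul_eq_mul]
  have hL0 : ∀ b, L b 0 = α b := fun b => by
    have := hLt b 0
    rw [zero_mul, add_zero] at this
    exact this
  have hσ10 : σ1 0 = fun b => α b • q := by
    funext b
    rw [hσ1, hL0, hm0, h0]
  have hind : ∀ x y : ℂ, (∀ b, x * α b + y * β b = 0) → x = 0 ∧ y = 0 := fun x y hxy => by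
    have e1 : ∀ b, l b (fderiv ℂ σ 0 (x, y)) = 0 := fun b => by
      have e2 : ((x, y) : ℂ × ℂ) = x • ((1 : ℂ), (0 : ℂ)) + y • ((0 : ℂ), (1 : ℂ)) := by simp
      rw [e2, map_add, map_smul, map_smul, map_add, map_smul, map_smul, smul_eq_mul, smul_eq_mul, ← hα, ← hβ]
      exact hxy b
    obtain ⟨c, hc⟩ := (hl _).mp e1
    rw [← h0] at hc
    have e3 := h.indep hc
    exact ⟨congrArg Prod.fst e3, congrArg Prod.snd e3⟩
  obtain ⟨b₀, hb₀⟩ : ∃ b, α b ≠ 0 := by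
    by_contra hcon
    push Not at hcon
    exact one_ne_zero (hind 1 0 fun b => by rw [hcon b]; ring).1
  obtain ⟨b₁, hb₁⟩ : ∃ b, β b * α b₀ - β b₀ * α b ≠ 0 := by
    by_contra hcon
    push Not at hcon
    exact hb₀ (hind (-β b₀) (α b₀) fun b => by linear_combination hcon b).2
  obtain ⟨Λ, hΛ⟩ : ∃ Λ : V →L[ℂ] ℂ, Λ q ≠ 0 := by
    obtain ⟨Λ, hΛ⟩ := exists_dual_vector ℂ q (norm_ne_zero_iff.mpr hq0)
    refine ⟨Λ, ?_⟩
    rw [hΛ.2]
    simpa using hq0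
  -- the map `Φ`
  obtain ⟨R, hR⟩ : ∃ R : ℂ × ℂ → ℂ, ∀ p, R p = L b₁ p / L b₀ p := ⟨_, fun p => rfl⟩
  have hL00 : L b₀ 0 ≠ 0 := by rw [hL0]; exact hb₀
  have hR_an : AnalyticAt ℂ R 0 := by
    have e1 : R = fun p => L b₁ p / L b₀ p := funext hR
    rw [e1]
    exact (hL_an b₁).div (hL_an b₀) hL00
  obtain ⟨Φ, hΦ⟩ : ∃ Φ : ℂ × ℂ → ℂ × ℂ, ∀ p, Φ p = (p.1, R p) := ⟨_, fun p => rfl⟩
  have hΦ_an : AnalyticAt ℂ Φ 0 := by
    have e1 : Φ = fun p => (p.1, R p) := funext hΦ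
    rw [e1]
    exact analyticAt_fst.prod hR_an
  have hΦ0 : Φ 0 = (0, α b₁ / α b₀) := by
    rw [hΦ, hR, hL0, hL0]
    rfl
  have hΦi : ∀ v, fderiv ℂ Φ 0 v = 0 → v = 0 := by
    have e1 : HasFDerivAt Φ (fderiv ℂ Φ 0) 0 := hΦ_an.differentiableAt.hasFDerivAt
    have e2 : HasFDerivAt (fun p => (Φ p).1) ((ContinuousLinearMap.fst ℂ ℂ ℂ).comp (fderiv ℂ Φ 0)) 0 :=
      (ContinuousLinearMap.fst ℂ ℂ ℂ).hasFDerivAt.comp _ e1
    have e3 : HasFDerivAt (fun p : ℂ × ℂ => p.1) (ContinuousLinearMap.fst ℂ ℂ ℂ) (0 : ℂ × ℂ) := hasFDerivAt_fst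
    have e4 : (fun p => (Φ p).1) = fun p : ℂ × ℂ => p.1 := by
      funext p
      rw [hΦ]
    rw [e4] at e2
    have e5 := e2.unique e3
    have e6 : HasDerivAt (fun t : ℂ => Φ (0, t)) (fderiv ℂ Φ 0 (0, 1)) 0 := by
      have a1 : HasDerivAt (fun t : ℂ => ((0 : ℂ), t)) (0, 1) 0 := (hasDerivAt_const _ _).prodMk (hasDerivAt_id _)
      exact HasFDerivAt.comp_hasDerivAt (0 : ℂ) (l := Φ) (l' := fderiv ℂ Φ 0) e1 a1
    have e7 : HasDerivAt (fun t : ℂ => (Φ (0, t)).2) ((fderiv ℂ Φ 0 (0, 1)).2) 0 :=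
      (ContinuousLinearMap.snd ℂ ℂ ℂ).hasFDerivAt.comp_hasDerivAt _ e6
    have e8 : HasDerivAt (fun t : ℂ => (α b₁ + t * β b₁) / (α b₀ + t * β b₀))
        ((β b₁ * α b₀ - α b₁ * β b₀) / α b₀ ^ 2) 0 := by
      have a1 : HasDerivAt (fun t : ℂ => α b₁ + t * β b₁) (β b₁) 0 := by
        simpa using ((hasDerivAt_id (0 : ℂ)).mul_const (β b₁)).const_add (α b₁)
      have a2 : HasDerivAt (fun t : ℂ => α b₀ + t * β b₀) (β b₀) 0 := by
        simpa using ((hasDerivAt_id (0 : ℂ)).mul_const (β b₀)).const_add (α b₀)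
      have a3 := a1.fun_div a2 (by simpa using hb₀)
      simpa using a3
    have e9 : (fun t : ℂ => (Φ (0, t)).2) = fun t : ℂ => (α b₁ + t * β b₁) / (α b₀ + t * β b₀) := by
      funext t
      rw [hΦ, hR, hLt, hLt]
    rw [e9] at e7
    have e10 := e7.unique e8
    intro v hv
    have f1 : v.1 = 0 := by
      have := congrArg (fun A : (ℂ × ℂ) →L[ℂ] ℂ => A v) e5
      simp only [ContinuousLinearMap.comp_apply, hv] at this
      simpa using this.symm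
    have f2 : v = v.2 • ((0 : ℂ), (1 : ℂ)) := by
      ext
      · simp [f1]
      · simp
    rw [f2, map_smul] at hv
    have f3 : v.2 * (fderiv ℂ Φ 0 (0, 1)).2 = 0 := by
      have := congrArg Prod.snd hv
      simpa using this
    rw [e10] at f3
    have f4 : (β b₁ * α b₀ - α b₁ * β b₀) / α b₀ ^ 2 ≠ 0 := by
      refine div_ne_zero ?_ (pow_ne_zero _ hb₀)
      rw [mul_comm (α b₁)]
      exact hb₁
    rw [f2, (mul_eq_zero.mp f3).resolve_right f4, zero_smul]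
  obtain ⟨Ψ, hΨ_an, hΨl, hΨr, hΨ0⟩ := local_inverse hΦ_an hΦi
  -- the map `Θ`
  obtain ⟨Θ, hΘ⟩ : ∃ Θ : ℂ × ℂ × ℂ → ℂ × ℂ × ℂ, ∀ w, Θ w =
      (w.1, w.2.1, l b₁ (σ (w.1, w.2.2)) - w.2.1 * l b₀ (σ (w.1, w.2.2))) := ⟨_, fun p => rfl⟩
  obtain ⟨w₀, hw₀⟩ : ∃ w₀ : ℂ × ℂ × ℂ, w₀ = (0, α b₁ / α b₀, 0) := ⟨_, rfl⟩
  have hσw : AnalyticAt ℂ (fun w : ℂ × ℂ × ℂ => σ (w.1, w.2.2)) w₀ := by
    have a1 : AnalyticAt ℂ (fun w : ℂ × ℂ × ℂ => (w.1, w.2.2)) w₀ :=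
      analyticAt_fst.prod (AnalyticAt.comp analyticAt_snd analyticAt_snd)
    refine AnalyticAt.comp (f := fun w : ℂ × ℂ × ℂ => (w.1, w.2.2)) (g := σ) ?_ a1
    rw [hw₀]
    exact h.σ_an
  have hΘ_an : AnalyticAt ℂ Θ w₀ := by
    have e1 : Θ = fun w => (w.1, w.2.1, l b₁ (σ (w.1, w.2.2)) - w.2.1 * l b₀ (σ (w.1, w.2.2))) := funext hΘ
    rw [e1]
    have a2 : ∀ b, AnalyticAt ℂ (fun w : ℂ × ℂ × ℂ => l b (σ (w.1, w.2.2))) w₀ := fun b =>
      ((l b).analyticAt _).comp hσw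
    have a3 : AnalyticAt ℂ (fun w : ℂ × ℂ × ℂ => w.2.1) w₀ := AnalyticAt.comp analyticAt_fst analyticAt_snd
    exact analyticAt_fst.prod (a3.prod ((a2 b₁).sub (a3.mul (a2 b₀))))
  have hΘi : ∀ v, fderiv ℂ Θ w₀ v = 0 → v = 0 := by
    have e1 : HasFDerivAt Θ (fderiv ℂ Θ w₀) w₀ := hΘ_an.differentiableAt.hasFDerivAt
    have e2 : ∀ v, (fderiv ℂ Θ w₀ v).1 = v.1 := by
      have a1 : HasFDerivAt (fun p => (Θ p).1) ((ContinuousLinearMap.fst ℂ ℂ (ℂ × ℂ)).comp (fderiv ℂ Θ w₀)) w₀ :=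
        (ContinuousLinearMap.fst ℂ ℂ (ℂ × ℂ)).hasFDerivAt.comp _ e1
      have a2 : (fun p => (Θ p).1) = fun p : ℂ × ℂ × ℂ => p.1 := by
        funext p
        rw [hΘ]
      rw [a2] at a1
      have a3 := a1.unique (hasFDerivAt_fst (𝕜 := ℂ) (p := w₀))
      intro v
      have := congrArg (fun A : (ℂ × ℂ × ℂ) →L[ℂ] ℂ => A v) a3
      simpa using this
    have e3 : ∀ v, (fderiv ℂ Θ w₀ v).2.1 = v.2.1 := by
      have a1 : HasFDerivAt (fun p => (Θ p).2.1)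
          (((ContinuousLinearMap.fst ℂ ℂ ℂ).comp (ContinuousLinearMap.snd ℂ ℂ (ℂ × ℂ))).comp (fderiv ℂ Θ w₀)) w₀ :=
        ((ContinuousLinearMap.fst ℂ ℂ ℂ).comp (ContinuousLinearMap.snd ℂ ℂ (ℂ × ℂ))).hasFDerivAt.comp _ e1
      have a2 : (fun p => (Θ p).2.1) = fun p : ℂ × ℂ × ℂ => p.2.1 := by
        funext p
        rw [hΘ]
      rw [a2] at a1
      have a4 : HasFDerivAt (fun p : ℂ × ℂ × ℂ => p.2.1)
          ((ContinuousLinearMap.fst ℂ ℂ ℂ).comp (ContinuousLinearMap.snd ℂ ℂ (ℂ × ℂ))) w₀ :=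
        ((ContinuousLinearMap.fst ℂ ℂ ℂ).comp (ContinuousLinearMap.snd ℂ ℂ (ℂ × ℂ))).hasFDerivAt
      have a3 := a1.unique a4
      intro v
      have := congrArg (fun A : (ℂ × ℂ × ℂ) →L[ℂ] ℂ => A v) a3
      simpa using this
    have e6 : HasDerivAt (fun t : ℂ => Θ (0, α b₁ / α b₀, t)) (fderiv ℂ Θ w₀ (0, 0, 1)) 0 := by
      have a1 : HasDerivAt (fun t : ℂ => ((0 : ℂ), α b₁ / α b₀, t)) (0, 0, 1) 0 :=
        (hasDerivAt_const _ _).prodMk ((hasDerivAt_const _ _).prodMk (hasDerivAt_id _))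
      have a2 : HasFDerivAt Θ (fderiv ℂ Θ w₀) ((0 : ℂ), α b₁ / α b₀, (0 : ℂ)) := by
        rw [← hw₀]
        exact e1
      exact HasFDerivAt.comp_hasDerivAt (0 : ℂ) (l := Θ) (l' := fderiv ℂ Θ w₀) a2 a1
    have e7 : HasDerivAt (fun t : ℂ => (Θ (0, α b₁ / α b₀, t)).2.2) ((fderiv ℂ Θ w₀ (0, 0, 1)).2.2) 0 :=
      ((ContinuousLinearMap.snd ℂ ℂ ℂ).comp (ContinuousLinearMap.snd ℂ ℂ (ℂ × ℂ))).hasFDerivAt.comp_hasDerivAt _ e6
    have e8 : HasDerivAt (fun t : ℂ => σ (0, t)) (fderiv ℂ σ 0 (0, 1)) 0 := by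
      have a1 : HasDerivAt (fun t : ℂ => ((0 : ℂ), t)) (0, 1) 0 := (hasDerivAt_const _ _).prodMk (hasDerivAt_id _)
      have a2 : HasFDerivAt σ (fderiv ℂ σ 0) ((0 : ℂ), (0 : ℂ)) := h.σ_an.differentiableAt.hasFDerivAt
      exact HasFDerivAt.comp_hasDerivAt (0 : ℂ) (l := σ) (l' := fderiv ℂ σ 0) a2 a1
    have e9 : ∀ b, HasDerivAt (fun t : ℂ => l b (σ (0, t))) (β b) 0 := fun b => by
      rw [hβ]
      exact (l b).hasFDerivAt.comp_hasDerivAt _ e8
    have e10 : HasDerivAt (fun t : ℂ => l b₁ (σ (0, t)) - α b₁ / α b₀ * l b₀ (σ (0, t))) (β b₁ - α b₁ / α b₀ * β b₀) 0 :=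
      (e9 b₁).sub ((e9 b₀).const_mul _)
    have e11 : (fun t : ℂ => (Θ (0, α b₁ / α b₀, t)).2.2) = fun t : ℂ => l b₁ (σ (0, t)) - α b₁ / α b₀ * l b₀ (σ (0, t)) := by
      funext t
      rw [hΘ]
    rw [e11] at e7
    have e12 := e7.unique e10
    intro v hv
    have f1 : v.1 = 0 := by
      have := e2 v
      rw [hv] at this
      exact this.symm
    have f2 : v.2.1 = 0 := by
      have := e3 v
      rw [hv] at this
      exact this.symm
    have f3 : v = v.2.2 • ((0 : ℂ), (0 : ℂ), (1 : ℂ)) := by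
      ext
      · simp [f1]
      · simp [f2]
      · simp
    rw [f3, map_smul] at hv
    have f4 : v.2.2 * (fderiv ℂ Θ w₀ (0, 0, 1)).2.2 = 0 := by
      have := congrArg (fun w : ℂ × ℂ × ℂ => w.2.2) hv
      simpa using this
    rw [e12] at f4
    have f5 : β b₁ - α b₁ / α b₀ * β b₀ ≠ 0 := by
      intro hcon
      apply hb₁
      field_simp at hcon
      linear_combination hcon
    rw [f3, (mul_eq_zero.mp f4).resolve_right f5, zero_smul]
  obtain ⟨Ξ, -, hΞl, -, -⟩ := local_inverse hΘ_an hΘi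
  -- the chart
  obtain ⟨τ1, hτ1⟩ : ∃ τ1 : (ι → V) → ℂ × ℂ, ∀ y, τ1 y = Ψ ((τ ((α b₀)⁻¹ • y b₀)).1, Λ (y b₁) / Λ (y b₀)) := ⟨_, fun y => rfl⟩
  have hev : ∀ b, Tendsto (fun y : ι → V => y b) (𝓝 (σ1 0)) (𝓝 (α b • q)) := fun b => by
    have := (continuous_apply b).tendsto (σ1 0)
    rwa [hσ10] at this ⊢
  have hx' : Tendsto (fun y : ι → V => (α b₀)⁻¹ • y b₀) (𝓝 (σ1 0)) (𝓝 (σ 0)) := by
    have := (hev b₀).const_smul (α b₀)⁻¹
    rwa [smul_smul, inv_mul_cancel₀ hb₀, one_smul, ← h0] at this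
  have hτσ0 : τ (σ 0) = 0 := h.left.self_of_nhds
  have hst : Tendsto (fun y : ι → V => τ ((α b₀)⁻¹ • y b₀)) (𝓝 (σ1 0)) (𝓝 0) := by
    have := h.τ_an.continuousAt.tendsto.comp hx'
    rwa [hτσ0] at this
  have hκ : Tendsto (fun y : ι → V => Λ (y b₁) / Λ (y b₀)) (𝓝 (σ1 0)) (𝓝 (α b₁ / α b₀)) := by
    have a1 : ∀ b, Tendsto (fun y : ι → V => Λ (y b)) (𝓝 (σ1 0)) (𝓝 (α b * Λ q)) := fun b => by
      have := (Λ.continuous.tendsto _).comp (hev b)
      rwa [map_smul, smul_eq_mul] at this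
    have a2 := (a1 b₁).div (a1 b₀) (mul_ne_zero hb₀ hΛ)
    rwa [mul_div_mul_right _ _ hΛ] at a2
  have hin : Tendsto (fun y : ι → V => ((τ ((α b₀)⁻¹ • y b₀)).1, Λ (y b₁) / Λ (y b₀))) (𝓝 (σ1 0)) (𝓝 (Φ 0)) := by
    rw [hΦ0]
    exact ((continuous_fst.tendsto _).comp hst).prodMk_nhds hκ
  have hΛ0 : ∀ᶠ y in 𝓝 (σ1 0), Λ (y b₀) ≠ 0 := by
    have a1 : Tendsto (fun y : ι → V => Λ (y b₀)) (𝓝 (σ1 0)) (𝓝 (α b₀ * Λ q)) := by
      have := (Λ.continuous.tendsto _).comp (hev b₀)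
      rwa [map_smul, smul_eq_mul] at this
    exact a1.eventually_ne (mul_ne_zero hb₀ hΛ)
  have hσ1ne : σ1 0 ≠ 0 := by
    rw [hσ10]
    intro hcon
    have := congrFun hcon b₀
    exact (smul_ne_zero hb₀ hq0) this
  have hphi : ∀ᶠ p in 𝓝 (0 : ℂ × ℂ), phi l (σ (m p)) = p.1 • σ1 p := by
    filter_upwards [hlσ] with p hp
    funext b
    simp only [phi, Pi.smul_apply, hσ1, smul_smul]
    rw [hp b]
  have hL0ev : ∀ᶠ p in 𝓝 (0 : ℂ × ℂ), L b₀ p ≠ 0 := (hL_an b₀).continuousAt.eventually_ne hL00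
  refine ⟨σ1, τ1, isChart_of_dense hσ1_an ?_ ?_ ?_ ?_ ?_, ?_, ?_⟩
  · -- `σ1 p ∈ blow`
    have a1 : ∀ᶠ p in 𝓝 (0 : ℂ × ℂ), p.1 ≠ 0 → σ1 p ∈ dense l X := by
      filter_upwards [hphi, hlσ, hL0ev, hmt.eventually h.σ_mem] with p h1 h2 h3 h4 h5
      refine ⟨σ (m p), h4, ⟨b₀, ?_⟩, (p.1)⁻¹, inv_ne_zero h5, ?_⟩
      · rw [h2]
        exact mul_ne_zero h5 h3
      · rw [h1, smul_smul, inv_mul_cancel₀ h5, one_smul]
    have a2 : ∀ᶠ p in 𝓝 (0 : ℂ × ℂ), ∀ᶠ p' in 𝓝 p, p'.1 ≠ 0 → σ1 p' ∈ dense l X := a1.eventually_nhds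
    filter_upwards [a2, hσ1_an.eventually_analyticAt, hσ1_an.continuousAt.eventually_ne hσ1ne] with p h1 h2 h3
    refine ⟨?_, h3⟩
    by_cases h4 : p.1 = 0
    · have a3 : Tendsto (fun u : ℂ => ((u, p.2) : ℂ × ℂ)) (𝓝[≠] 0) (𝓝 p) := by
        have : Tendsto (fun u : ℂ => ((u, p.2) : ℂ × ℂ)) (𝓝 0) (𝓝 (0, p.2)) :=
          (continuous_id.prodMk continuous_const).tendsto 0
        have e : ((0 : ℂ), p.2) = p := by rw [← h4]
        rw [e] at this
        exact this.mono_left nhdsWithin_le_nhds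
      refine mem_closure_of_tendsto (h2.continuousAt.tendsto.comp a3) ?_
      filter_upwards [a3.eventually h1, self_mem_nhdsWithin] with u hu hu0
      exact hu hu0
    · exact subset_closure (h1.self_of_nhds h4)
  · -- `τ1` is analytic
    have e1 : τ1 = fun y => Ψ ((τ ((α b₀)⁻¹ • y b₀)).1, Λ (y b₁) / Λ (y b₀)) := funext hτ1
    rw [e1]
    have a0 : ∀ b, AnalyticAt ℂ (fun y : ι → V => y b) (σ1 0) := fun b =>
      (ContinuousLinearMap.proj (R := ℂ) (φ := fun _ : ι => V) b).analyticAt _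
    have a1 : AnalyticAt ℂ (fun y : ι → V => τ ((α b₀)⁻¹ • y b₀)) (σ1 0) := by
      refine AnalyticAt.comp (f := fun y : ι → V => (α b₀)⁻¹ • y b₀) (g := τ) ?_ ((a0 b₀).const_smul (c := (α b₀)⁻¹))
      have e2 : (α b₀)⁻¹ • σ1 0 b₀ = σ 0 := by
        rw [hσ10, smul_smul, inv_mul_cancel₀ hb₀, one_smul, h0]
      rw [e2]
      exact h.τ_an
    have a2 : ∀ b, AnalyticAt ℂ (fun y : ι → V => Λ (y b)) (σ1 0) := fun b => (Λ.analyticAt _).comp (a0 b)
    have a3 : AnalyticAt ℂ (fun y : ι → V => ((τ ((α b₀)⁻¹ • y b₀)).1, Λ (y b₁) / Λ (y b₀))) (σ1 0) :=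
      (AnalyticAt.comp analyticAt_fst a1).prod ((a2 b₁).div (a2 b₀) hΛ0.self_of_nhds)
    refine AnalyticAt.comp (g := Ψ) ?_ a3
    have e3 : ((τ ((α b₀)⁻¹ • σ1 0 b₀)).1, Λ (σ1 0 b₁) / Λ (σ1 0 b₀)) = Φ 0 :=
      tendsto_nhds_unique (a3.continuousAt.tendsto) hin
    rw [e3]
    exact hΨ_an
  · -- left inverse
    have a1 : Tendsto (fun p : ℂ × ℂ => (σ (m p), (α b₀)⁻¹ * L b₀ p)) (𝓝 0) (𝓝 (σ 0, (1 : ℂ))) := by
      have b1 : Tendsto (fun p => σ (m p)) (𝓝 0) (𝓝 (σ 0)) := by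
        have := hσm.continuousAt.tendsto
        simpa only [hm0] using this
      have b2 : Tendsto (fun p => (α b₀)⁻¹ * L b₀ p) (𝓝 0) (𝓝 1) := by
        have := (hL_an b₀).continuousAt.tendsto.const_mul (α b₀)⁻¹
        rwa [hL0, inv_mul_cancel₀ hb₀] at this
      exact b1.prodMk_nhds b2
    have a2 : ∀ᶠ p in 𝓝 (0 : ℂ × ℂ), Λ (σ (m p)) ≠ 0 := by
      have b1 : Tendsto (fun p => Λ (σ (m p))) (𝓝 0) (𝓝 (Λ (σ 0))) := by
        have := (Λ.continuous.tendsto _).comp hσm.continuousAt.tendsto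
        simpa only [hm0, Function.comp_def] using this
      exact b1.eventually_ne (by rw [h0]; exact hΛ)
    filter_upwards [a1.eventually h.inv, hmt.eventually h.left, hΨl, a2, hL0ev] with p h1 h2 h3 h4 h5
    rw [hτ1, hσ1, hσ1, smul_smul]
    rw [h1, h2, map_smul, map_smul, smul_eq_mul, smul_eq_mul, mul_div_mul_right _ _ h4, hm]
    have e1 : ((p.1, p.1 * p.2).1, L b₁ p / L b₀ p) = Φ p := by rw [hΦ, hR]
    rw [e1, h3]
  · -- right inverse
    have a1 : Tendsto (fun y : ι → V => (((τ ((α b₀)⁻¹ • y b₀)).1, Λ (y b₁) / Λ (y b₀), (τ ((α b₀)⁻¹ • y b₀)).2) : ℂ × ℂ × ℂ))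
        (𝓝 (σ1 0)) (𝓝 w₀) := by
      rw [hw₀]
      exact ((continuous_fst.tendsto _).comp hst).prodMk_nhds (hκ.prodMk_nhds ((continuous_snd.tendsto _).comp hst))
    have a2 : Tendsto τ1 (𝓝 (σ1 0)) (𝓝 0) := by
      have e1 : τ1 = fun y => Ψ ((τ ((α b₀)⁻¹ • y b₀)).1, Λ (y b₁) / Λ (y b₀)) := funext hτ1
      rw [e1]
      have := hΨ_an.continuousAt.tendsto.comp hin
      rwa [hΨ0] at this
    have a3 : Tendsto (fun y : ι → V => (((τ ((α b₀)⁻¹ • y b₀)).1, Λ (y b₁) / Λ (y b₀),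
        (τ ((α b₀)⁻¹ • y b₀)).1 * (τ1 y).2) : ℂ × ℂ × ℂ)) (𝓝 (σ1 0)) (𝓝 w₀) := by
      rw [hw₀]
      refine ((continuous_fst.tendsto _).comp hst).prodMk_nhds (hκ.prodMk_nhds ?_)
      have := ((continuous_fst.tendsto _).comp hst).mul ((continuous_snd.tendsto _).comp a2)
      simpa using this
    filter_upwards [hx'.eventually h.right, hΛ0, hin.eventually hΨr, a1.eventually hΞl, a3.eventually hΞl, a2.eventually hphi,
      a2.eventually hlσ, a2.eventually hL0ev] with y h1 h2 h3 h4 h5 h6 h7 h8 hy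
    obtain ⟨x, hx, hbx, c, hc, rfl⟩ := hy
    have g1 : ∀ b, (c • phi l x) b = (c * l b x) • x := fun b => by
      simp only [phi, Pi.smul_apply, smul_smul]
    rw [g1, map_smul, smul_eq_mul] at h2
    have g2 : c * l b₀ x ≠ 0 := left_ne_zero_of_mul h2
    have g3 : Λ x ≠ 0 := right_ne_zero_of_mul h2
    have g4 : l b₀ x ≠ 0 := right_ne_zero_of_mul g2
    have g5 : (α b₀)⁻¹ • (c • phi l x) b₀ = ((α b₀)⁻¹ * (c * l b₀ x)) • x := by rw [g1, smul_smul]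
    have g6 : (α b₀)⁻¹ * (c * l b₀ x) ≠ 0 := mul_ne_zero (inv_ne_zero hb₀) g2
    obtain ⟨c', hc', hx2⟩ := h1 (by rw [g5]; exact hX.smul x hx _ g6)
    obtain ⟨st, hst'⟩ : ∃ st, st = τ ((α b₀)⁻¹ • (c • phi l x) b₀) := ⟨_, rfl⟩
    obtain ⟨uv, huv⟩ : ∃ uv, uv = τ1 (c • phi l x) := ⟨_, rfl⟩
    obtain ⟨κ, hκ'⟩ : ∃ κ, κ = Λ ((c • phi l x) b₁) / Λ ((c • phi l x) b₀) := ⟨_, rfl⟩
    rw [hτ1, ← hst', ← hκ'] at huv
    rw [← hst', ← hκ'] at h3 h4 h5
    rw [hτ1, ← hst', ← hκ', ← huv] at h5 h6 h7 h8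
    rw [hτ1, ← hst', ← hκ', ← huv]
    rw [← hst'] at hx2
    rw [← huv, hΦ] at h3
    have k1 : uv.1 = st.1 := (Prod.ext_iff.mp h3).1
    have k2 : R uv = κ := (Prod.ext_iff.mp h3).2
    have g7 : κ = l b₁ x / l b₀ x := by
      rw [hκ', g1, g1, map_smul, map_smul, smul_eq_mul, smul_eq_mul, mul_div_mul_right _ _ g3, mul_div_mul_left _ _ hc]
    -- `x` is a multiple of `σ st`
    obtain ⟨c2, hc2, hx3⟩ : ∃ c2 : ℂ, c2 ≠ 0 ∧ x = c2 • σ st := by
      refine ⟨((α b₀)⁻¹ * (c * l b₀ x))⁻¹ * c', mul_ne_zero (inv_ne_zero g6) hc', ?_⟩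
      rw [mul_smul, ← hx2, g5, smul_smul, inv_mul_cancel₀ g6, one_smul]
    have g8 : ∀ b, l b x = c2 * l b (σ st) := fun b => by
      conv_lhs => rw [hx3]
      rw [map_smul, smul_eq_mul]
    have g9 : l b₁ (σ st) - κ * l b₀ (σ st) = 0 := by
      have e1 : l b₀ (σ st) ≠ 0 := by
        intro e
        rw [g8, e, mul_zero] at g4
        exact g4 rfl
      rw [g7, g8, g8, mul_div_mul_left _ _ hc2, div_mul_cancel₀ _ e1, sub_self]
    have g10 : l b₁ (σ (st.1, st.1 * uv.2)) - κ * l b₀ (σ (st.1, st.1 * uv.2)) = 0 := by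
      have e1 : m uv = (st.1, st.1 * uv.2) := by rw [hm, k1]
      rw [← e1, h7 b₁, h7 b₀, ← k2, hR]
      field_simp
      ring
    have k3 : st.2 = st.1 * uv.2 := by
      have e1 : Θ (st.1, κ, st.2) = Θ (st.1, κ, st.1 * uv.2) := by
        rw [hΘ, hΘ]
        simp only
        rw [g10]
        rw [show ((st.1, st.2) : ℂ × ℂ) = st from rfl, g9]
      rw [e1, h5] at h4
      exact (congrArg (fun w : ℂ × ℂ × ℂ => w.2.2) h4).symm
    have k4 : st = m uv := by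
      rw [hm, k1, ← k3]
    refine ⟨c * c2 ^ 2 * uv.1, ?_⟩
    conv_lhs => rw [hx3]
    rw [phi_smul, k4, h6, smul_smul, smul_smul, mul_assoc]
  · -- invariance
    have a1 : Tendsto (fun p : (ι → V) × ℂ => ((α b₀)⁻¹ • p.1 b₀, p.2)) (𝓝 (σ1 0, (1 : ℂ))) (𝓝 (σ 0, (1 : ℂ))) := by
      rw [nhds_prod_eq]
      exact ((hx'.comp tendsto_fst).prodMk tendsto_snd).mono_right (by rw [nhds_prod_eq])
    have a2 : ∀ᶠ p : (ι → V) × ℂ in 𝓝 (σ1 0, (1 : ℂ)), p.2 ≠ 0 :=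
      (continuous_snd.tendsto (σ1 0, (1 : ℂ))).eventually_ne one_ne_zero
    filter_upwards [a1.eventually h.inv, a2] with p h1 h2
    rw [hτ1, hτ1]
    have e1 : (α b₀)⁻¹ • (p.2 • p.1) b₀ = p.2 • (α b₀)⁻¹ • p.1 b₀ := by
      rw [Pi.smul_apply, smul_comm]
    rw [e1, h1, Pi.smul_apply, Pi.smul_apply, map_smul, map_smul, smul_eq_mul, smul_eq_mul, mul_div_mul_left _ _ h2]
  · filter_upwards [hphi] with p hp
    rw [← hp, hm]
  · rw [hσ10]
    funext b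
    rw [hα]

end Pool.Agent.H62.BU

end

section

/-!
# BU Cov: every point of the blow-up off the dense part is on the exceptional curve

`blow_cover`: let `y ∈ blow`, `y b ≠ 0`.  If `y b` is not a multiple of `q` then `l b' (y b) ≠ 0` for some `b'` (`Ker`) and `y ∈ dense` (`mem_dense_of_ne`).  Otherwise `y b = λ_b • q`, `λ_b ≠ 0`, and all
`y b' = λ_(b') • q` (`comp_smul`).  Let `U` be an ultrafilter on `dense` converging to `y` (`mem_closure_iff_ultrafilter`).  For `z ∈ dense` near `y`: `x = λ_b⁻¹ • z b` is in `X` (`comp_mem`) and near `q`, so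
`x = c • σ p`, `p = τ x → 0` (`τ q = 0`), `c ≠ 0`.  `p ≠ 0`, because for `p = 0` all `l_b' x = 0`, hence `l_b' (z b) = 0`, and then `z b = 0` (write `z = c • phi l x₀`: `z b = (c l_b x₀) • x₀`, `l_(b') (z b) = c l_b x₀ l_(b') x₀`).
Let `w = p / ‖p‖`, `U`-limit `w₀`, `‖w₀‖ = 1` (compact sphere).  `l_(b') x / (c ‖p‖) = l_(b')(σ p)/‖p‖ → μ_(b') = l_(b')(Dσ(0) w₀)` (`HasFDerivAt`, `l_(b') (σ 0) = 0`).  On `dense`: `l_b x • z b' = l_(b') x • z b`
(from `prop` with `Λ = l_b`, `symm`).  Divide by `c ‖p‖`, limit: `μ_b • y b' = μ_(b') • y b`.  If `μ_b = 0` then all `μ_(b') = 0` and `Dσ(0) w₀ ∈ ℂ q` (`Ker`), so `w₀ = 0` by `indep`: contradiction.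
So `y b' = (λ_b / μ_b) • μ_(b') • q`.

`surface_blow`: `blow_zero`, `blow_smul`, `blow_closed`; a point of `dense` is `c • phi l x`: `chart_off` at `x`, then `scale`; a point `c • (l_b (Dσ(0) w) • q)_b`: choose a linear isomorphism `e` of `ℂ²` with
`e (1, 0) = w`, `comp_linear`, `chart_exc`, `scale`.
-/

set_option autoImplicit false

namespace Pool.Agent.H62.BU

open Filter Topology

variable {V : Type*} [NormedAddCommGroup V] [NormedSpace ℂ V] {ι : Type*} [Fintype ι]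
variable {l : ι → V →L[ℂ] ℂ} {X : Set V} {σ : ℂ × ℂ → V} {τ : V → ℂ × ℂ}

private theorem Cov_lim {F : Type*} {U : Filter F} {p : F → ℂ × ℂ} (hp : Tendsto p U (𝓝 0)) {w0 : ℂ × ℂ}
    (hw : Tendsto (fun z => ((‖p z‖ : ℝ) : ℂ)⁻¹ • p z) U (𝓝 w0)) {f : ℂ × ℂ → ℂ} {L : (ℂ × ℂ) →L[ℂ] ℂ}
    (hf : HasFDerivAt f L 0) (hf0 : f 0 = 0) :
    Tendsto (fun z => ((‖p z‖ : ℝ) : ℂ)⁻¹ * f (p z)) U (𝓝 (L w0)) := by
  have h1 := hf.isLittleO
  have h2 := h1.comp_tendsto hp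
  have h3 : (fun z => p z - 0) =O[U] fun z => ((‖p z‖ : ℝ) : ℂ) := by
    refine Asymptotics.IsBigO.of_bound 1 (Eventually.of_forall fun z => ?_)
    rw [sub_zero, Complex.norm_real, norm_norm, one_mul]
  have h4 := (h2.trans_isBigO h3).tendsto_div_nhds_zero
  have h5 : Tendsto (fun z => L (((‖p z‖ : ℝ) : ℂ)⁻¹ • p z)) U (𝓝 (L w0)) := (L.continuous.tendsto w0).comp hw
  have h6 := h4.add h5
  rw [zero_add] at h6
  refine h6.congr fun z => ?_
  simp only [Function.comp_apply, hf0, sub_zero, map_smul, smul_eq_mul]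
  rw [div_eq_inv_mul]
  ring

theorem blow_cover [FiniteDimensional ℂ V] (hX : Surface X) {q : V} (hl : Ker l q) (h : IsChart X σ τ) (h0 : σ 0 = q)
    (y : ι → V) (hy : y ∈ blow l X) :
    y ∈ dense l X ∨ ∃ w : ℂ × ℂ, w ≠ 0 ∧ ∃ c : ℂ, c ≠ 0 ∧ y = c • fun b => l b (fderiv ℂ σ 0 w) • q := by
  obtain ⟨b, hb⟩ := exists_ne y hy
  by_cases hall : ∃ b', l b' (y b) ≠ 0
  · obtain ⟨b', hb'⟩ := hall
    exact Or.inl (mem_dense_of_ne hX y hy hb hb')
  right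
  push Not at hall
  obtain ⟨lam, hlam⟩ := (hl (y b)).mp hall
  have hlam0 : lam ≠ 0 := by
    rintro rfl
    rw [zero_smul] at hlam
    exact hb hlam
  have hq : ∀ b', l b' q = 0 := (hl q).mpr ⟨1, (one_smul _ _).symm⟩
  obtain ⟨U, hUd, hUy⟩ := mem_closure_iff_ultrafilter.mp hy.1
  have hzb : Tendsto (fun z : ι → V => z b) U (𝓝 (y b)) := ((continuous_apply b).tendsto y).mono_left hUy
  have hxt : Tendsto (fun z : ι → V => lam⁻¹ • z b) U (𝓝 q) := by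
    have h1 := hzb.const_smul lam⁻¹
    rwa [hlam, smul_smul, inv_mul_cancel₀ hlam0, one_smul] at h1
  have hτ0 : τ q = 0 := by rw [← h0]; exact h.left.self_of_nhds
  have hpt : Tendsto (fun z : ι → V => τ (lam⁻¹ • z b)) U (𝓝 0) := by
    have h1 : Tendsto τ (𝓝 q) (𝓝 (τ q)) := by
      have := h.τ_an.continuousAt
      rw [h0] at this
      exact this
    rw [hτ0] at h1
    exact h1.comp hxt
  have hright := h.right
  rw [h0] at hright
  have ev : ∀ᶠ z in (U : Filter (ι → V)), τ (lam⁻¹ • z b) ≠ 0 ∧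
      ∀ b', l b (σ (τ (lam⁻¹ • z b))) • z b' = l b' (σ (τ (lam⁻¹ • z b))) • z b := by
    filter_upwards [hUd, hzb.eventually_ne hb, hxt.eventually hright] with z hz hzb0 hzr
    have hzX : z b ∈ X := comp_mem hX z (dense_sub hz) hzb0
    obtain ⟨c, hc, hc2⟩ := hzr (hX.smul _ hzX _ (inv_ne_zero hlam0))
    have hzs : z b = (lam * c) • σ (τ (lam⁻¹ • z b)) := by
      rw [mul_smul, ← hc2, smul_smul, mul_inv_cancel₀ hlam0, one_smul]
    constructor
    · intro hp0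
      rw [hp0, h0] at hzs
      have h1 : ∀ b', l b' (z b) = 0 := by
        intro b'
        rw [hzs, map_smul, hq, smul_zero]
      obtain ⟨x0, hx0, ⟨b1, hb1⟩, c1, hc1, rfl⟩ := hz
      have h2 : (c1 • phi l x0) b = (c1 * l b x0) • x0 := by
        simp only [phi, Pi.smul_apply, smul_smul]
      rw [h2] at hzb0 h1
      have h3 : c1 * l b x0 ≠ 0 := by
        intro h4
        rw [h4, zero_smul] at hzb0
        exact hzb0 rfl
      have h4 := h1 b1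
      rw [map_smul, smul_eq_mul] at h4
      rcases mul_eq_zero.mp h4 with h5 | h5
      · exact h3 h5
      · exact hb1 h5
    · intro b'
      have h1 := prop z (dense_sub hz) (l b) b b'
      rw [symm z (dense_sub hz) b b'] at h1
      have h2 : ∀ b', l b' (z b) = (lam * c) * l b' (σ (τ (lam⁻¹ • z b))) := by
        intro b'
        conv_lhs => rw [hzs]
        rw [map_smul, smul_eq_mul]
      rw [h2 b, h2 b'] at h1
      have h3 : (lam * c) • (l b (σ (τ (lam⁻¹ • z b))) • z b') =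
          (lam * c) • (l b' (σ (τ (lam⁻¹ • z b))) • z b) := by
        rw [smul_smul, smul_smul]
        exact h1
      exact smul_right_injective _ (mul_ne_zero hlam0 hc) h3
  -- the limit direction
  have hsph : ∃ w0 ∈ Metric.sphere (0 : ℂ × ℂ) 1, ((U.map fun z : ι → V =>
      ((‖τ (lam⁻¹ • z b)‖ : ℝ) : ℂ)⁻¹ • τ (lam⁻¹ • z b)) : Filter (ℂ × ℂ)) ≤ 𝓝 w0 := by
    refine (isCompact_sphere (0 : ℂ × ℂ) 1).ultrafilter_le_nhds _ ?_
    rw [le_principal_iff]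
    show ∀ᶠ z in (U : Filter (ι → V)), _ ∈ Metric.sphere (0 : ℂ × ℂ) 1
    filter_upwards [ev] with z hz
    rw [mem_sphere_zero_iff_norm, norm_smul, norm_inv, Complex.norm_real, norm_norm,
      inv_mul_cancel₀ (norm_ne_zero_iff.mpr hz.1)]
  obtain ⟨w0, hw0, hw0t⟩ := hsph
  rw [mem_sphere_zero_iff_norm] at hw0
  have hwt : Tendsto (fun z : ι → V => ((‖τ (lam⁻¹ • z b)‖ : ℝ) : ℂ)⁻¹ • τ (lam⁻¹ • z b)) U (𝓝 w0) := hw0t
  have hμ : ∀ b', Tendsto (fun z : ι → V => ((‖τ (lam⁻¹ • z b)‖ : ℝ) : ℂ)⁻¹ * l b' (σ (τ (lam⁻¹ • z b)))) U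
      (𝓝 (l b' (fderiv ℂ σ 0 w0))) := by
    intro b'
    have h1 : HasFDerivAt (fun p => l b' (σ p)) ((l b').comp (fderiv ℂ σ 0)) 0 :=
      (l b').hasFDerivAt.comp 0 h.σ_an.differentiableAt.hasFDerivAt
    exact Cov_lim hpt hwt h1 (by show l b' (σ 0) = 0; rw [h0, hq])
  have hrel : ∀ b', l b (fderiv ℂ σ 0 w0) • y b' = l b' (fderiv ℂ σ 0 w0) • y b := by
    intro b'
    have h1 : Tendsto (fun z : ι → V => (((‖τ (lam⁻¹ • z b)‖ : ℝ) : ℂ)⁻¹ * l b (σ (τ (lam⁻¹ • z b)))) • z b') U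
        (𝓝 (l b (fderiv ℂ σ 0 w0) • y b')) :=
      (hμ b).smul (((continuous_apply b').tendsto y).mono_left hUy)
    have h2 : Tendsto (fun z : ι → V => (((‖τ (lam⁻¹ • z b)‖ : ℝ) : ℂ)⁻¹ * l b' (σ (τ (lam⁻¹ • z b)))) • z b) U
        (𝓝 (l b' (fderiv ℂ σ 0 w0) • y b)) := (hμ b').smul hzb
    refine tendsto_nhds_unique_of_eventuallyEq h1 h2 ?_
    filter_upwards [ev] with z hz
    rw [mul_smul, mul_smul, hz.2 b']
  have hμb : l b (fderiv ℂ σ 0 w0) ≠ 0 := by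
    intro hz
    have h1 : ∀ b', l b' (fderiv ℂ σ 0 w0) = 0 := by
      intro b'
      have h2 := hrel b'
      rw [hz, zero_smul] at h2
      rcases smul_eq_zero.mp h2.symm with h3 | h3
      · exact h3
      · exact absurd h3 hb
    obtain ⟨c, hc⟩ := (hl _).mp h1
    rw [← h0] at hc
    have h2 := h.indep hc
    rw [h2, norm_zero] at hw0
    exact zero_ne_one hw0
  refine ⟨w0, ?_, lam / l b (fderiv ℂ σ 0 w0), div_ne_zero hlam0 hμb, ?_⟩
  · rintro rfl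
    rw [norm_zero] at hw0
    exact zero_ne_one hw0
  · funext b'
    have h1 := hrel b'
    rw [hlam] at h1
    show y b' = (lam / l b (fderiv ℂ σ 0 w0)) • (l b' (fderiv ℂ σ 0 w0) • q)
    have h2 : y b' = (l b (fderiv ℂ σ 0 w0))⁻¹ • (l b (fderiv ℂ σ 0 w0) • y b') := by
      rw [smul_smul, inv_mul_cancel₀ hμb, one_smul]
    rw [h2, h1]
    simp only [smul_smul]
    congr 1
    ring

private theorem Cov_equiv_left {w : ℂ × ℂ} (hw : w.1 ≠ 0) : ∃ e : (ℂ × ℂ) ≃L[ℂ] (ℂ × ℂ), e (1, 0) = w := by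
  -- `(s, t) ↦ (w.1 s, w.2 s + t)`
  let f : (ℂ × ℂ) →ₗ[ℂ] (ℂ × ℂ) :=
    { toFun := fun p => (w.1 * p.1, w.2 * p.1 + p.2)
      map_add' := fun p q => by ext <;> simp <;> ring
      map_smul' := fun c p => by ext <;> simp <;> ring }
  let g : (ℂ × ℂ) →ₗ[ℂ] (ℂ × ℂ) :=
    { toFun := fun p => (w.1⁻¹ * p.1, p.2 - w.2 * (w.1⁻¹ * p.1))
      map_add' := fun p q => by ext <;> simp <;> ring
      map_smul' := fun c p => by ext <;> simp <;> ring }
  let e : (ℂ × ℂ) ≃ₗ[ℂ] (ℂ × ℂ) :=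
    LinearEquiv.ofLinearMap f g
      (by
        ext <;> simp [f, g, hw])
      (by
        ext <;> simp [f, g, hw])
  refine ⟨e.toContinuousLinearEquiv, ?_⟩
  show f (1, 0) = w
  simp [f]

theorem exists_equiv {w : ℂ × ℂ} (hw : w ≠ 0) : ∃ e : (ℂ × ℂ) ≃L[ℂ] (ℂ × ℂ), e (1, 0) = w := by
  by_cases h1 : w.1 = 0
  · have h2 : w.2 ≠ 0 := by
      intro h2
      exact hw (Prod.ext h1 h2)
    obtain ⟨e, he⟩ := Cov_equiv_left (w := (w.2, w.1)) h2
    refine ⟨e.trans (ContinuousLinearEquiv.prodComm ℂ ℂ ℂ), ?_⟩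
    rw [ContinuousLinearEquiv.trans_apply, he]
    rfl
  · exact Cov_equiv_left h1

end Pool.Agent.H62.BU

end

section

/-!
# SB Mu: intersection multiplicities
-/

set_option autoImplicit false

open MvPowerSeries

noncomputable section

namespace Pool.Agent.SB

/-! ### coefficients -/

theorem Mu.ex_zero (i j : ℕ) : ex i j 0 = i := by simp [ex]

theorem Mu.ex_one (i j : ℕ) : ex i j 1 = j := by simp [ex]

theorem Mu.eq_ex (e : Fin 2 →₀ ℕ) : e = ex (e 0) (e 1) := by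
  ext i
  fin_cases i
  · simp [ex]
  · simp [ex]

/-- the series with given coefficients -/
def Mu.mk (F : ℕ → ℕ → ℂ) : R2 := fun e => F (e 0) (e 1)

theorem Mu.cf_mk (F : ℕ → ℕ → ℂ) (i j : ℕ) : cf (Mu.mk F) i j = F i j := by
  show F (ex i j 0) (ex i j 1) = _
  rw [Mu.ex_zero, Mu.ex_one]

theorem Mu.ext {a b : R2} (h : ∀ i j, cf a i j = cf b i j) : a = b := by
  ext e
  rw [Mu.eq_ex e]
  exact h _ _

theorem Mu.cf_monomial_mul (p q : ℕ) (z : ℂ) (a : R2) (i j : ℕ) :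
    cf (monomial (ex p q) z * a) i j = if p ≤ i ∧ q ≤ j then z * cf a (i - p) (j - q) else 0 := by
  unfold cf
  rw [coeff_monomial_mul]
  have h1 : ex p q ≤ ex i j ↔ p ≤ i ∧ q ≤ j := by
    constructor
    · intro h
      have h0 := h 0
      have h1 := h 1
      rw [Mu.ex_zero, Mu.ex_zero] at h0
      rw [Mu.ex_one, Mu.ex_one] at h1
      exact ⟨h0, h1⟩
    · rintro ⟨h0, h1⟩ k
      fin_cases k
      · simpa [ex] using h0
      · simpa [ex] using h1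
  have h2 : ex i j - ex p q = ex (i - p) (j - q) := by
    ext k
    fin_cases k
    · simp [ex]
    · simp [ex]
  rw [h2]
  by_cases h : p ≤ i ∧ q ≤ j
  · rw [if_pos h, if_pos (h1.2 h)]
  · rw [if_neg h, if_neg (mt h1.1 h)]

theorem Mu.X0_pow (n : ℕ) : (X 0 ^ n : R2) = monomial (ex n 0) 1 := by
  rw [X_pow_eq]
  congr 1
  simp [ex]

theorem Mu.X1_pow (n : ℕ) : (X 1 ^ n : R2) = monomial (ex 0 n) 1 := by
  rw [X_pow_eq]
  congr 1
  simp [ex]

theorem Mu.cf_X0_mul (a : R2) (i j : ℕ) : cf (X 0 * a) i j = if 1 ≤ i then cf a (i - 1) j else 0 := by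
  have h := Mu.cf_monomial_mul 1 0 1 a i j
  rw [← Mu.X0_pow, pow_one] at h
  rw [h]
  simp

theorem Mu.cf_X1_pow_mul (n : ℕ) (a : R2) (i j : ℕ) : cf (X 1 ^ n * a) i j = if n ≤ j then cf a i (j - n) else 0 := by
  have h := Mu.cf_monomial_mul 0 n 1 a i j
  rw [← Mu.X1_pow] at h
  rw [h]
  simp

theorem Mu.cf_C_mul_X1_pow (z : ℂ) (n : ℕ) (i j : ℕ) : cf (C z * X 1 ^ n) i j = if i = 0 ∧ j = n then z else 0 := by
  unfold cf
  rw [coeff_C_mul, Mu.X1_pow, coeff_monomial]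
  have : ex i j = ex 0 n ↔ i = 0 ∧ j = n := by
    constructor
    · intro h
      have h0 := DFunLike.congr_fun h 0
      have h1 := DFunLike.congr_fun h 1
      rw [Mu.ex_zero, Mu.ex_zero] at h0
      rw [Mu.ex_one, Mu.ex_one] at h1
      exact ⟨h0, h1⟩
    · rintro ⟨rfl, rfl⟩
      rfl
  by_cases h : i = 0 ∧ j = n
  · rw [if_pos h, if_pos (this.2 h), mul_one]
  · rw [if_neg h, if_neg (mt this.1 h), mul_zero]

theorem Mu.cf_add (a b : R2) (i j : ℕ) : cf (a + b) i j = cf a i j + cf b i j := by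
  unfold cf
  rw [map_add]

theorem Mu.cf_sum {ι : Type*} (s : Finset ι) (f : ι → R2) (i j : ℕ) : cf (∑ k ∈ s, f k) i j = ∑ k ∈ s, cf (f k) i j := by
  unfold cf
  rw [map_sum]

/-- division by `x` and a power of `y` -/
theorem Mu.decomp (f : R2) (n : ℕ) : ∃ g h : R2, f = (∑ k ∈ Finset.range n, C (cf f 0 k) * X 1 ^ k) + X 1 ^ n * g + X 0 * h ∧
    cf g 0 0 = cf f 0 n := by
  refine ⟨Mu.mk fun i j => if i = 0 then cf f 0 (j + n) else 0, Mu.mk fun i j => cf f (i + 1) j, ?_, ?_⟩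
  · refine Mu.ext fun i j => ?_
    rw [Mu.cf_add, Mu.cf_add, Mu.cf_sum, Mu.cf_X0_mul, Mu.cf_X1_pow_mul, Mu.cf_mk, Mu.cf_mk]
    have hs : ∑ k ∈ Finset.range n, cf (C (cf f 0 k) * X 1 ^ k) i j = if i = 0 ∧ j < n then cf f 0 j else 0 := by
      simp only [Mu.cf_C_mul_X1_pow]
      by_cases h : i = 0 ∧ j < n
      · rw [if_pos h, Finset.sum_eq_single_of_mem j (Finset.mem_range.2 h.2)]
        · rw [if_pos ⟨h.1, rfl⟩]
        · intro k _ hk
          rw [if_neg]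
          rintro ⟨-, h2⟩
          exact hk h2.symm
      · rw [if_neg h]
        refine Finset.sum_eq_zero fun k hk => ?_
        rw [if_neg]
        rintro ⟨h1, h2⟩
        exact h ⟨h1, h2 ▸ Finset.mem_range.1 hk⟩
    rw [hs]
    rcases Nat.eq_zero_or_pos i with rfl | hi
    · by_cases hj : j < n
      · rw [if_pos ⟨rfl, hj⟩, if_neg (by omega), if_neg (by omega)]
        ring
      · rw [if_neg (by omega), if_pos (by omega), if_pos rfl, if_neg (by omega), Nat.sub_add_cancel (by omega)]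
        ring
    · rw [if_neg (by omega), if_pos (show 1 ≤ i from hi), Nat.sub_add_cancel hi, if_neg (show ¬ i = 0 by omega)]
      split_ifs <;> ring
  · rw [Mu.cf_mk, if_pos rfl, zero_add]

/-! ### the multiplicities -/

theorem mu_mul {p q c : R2} (hp : Fin2 p c) (hq : Fin2 q c) : Fin2 (p * q) c ∧ mu (p * q) c ≤ mu p c + mu q c := by
  unfold Fin2 at hp hq
  have hle : Ideal.span {p * q, c} ≤ Ideal.span {p, c} := by
    rw [Ideal.span_le]
    rintro _ (rfl | rfl)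
    · exact Ideal.mul_mem_right _ _ (Ideal.subset_span (by simp))
    · exact Ideal.subset_span (by simp)
  -- the projection
  let g : (R2 ⧸ Ideal.span {p * q, c}) →ₐ[ℂ] (R2 ⧸ Ideal.span {p, c}) := Ideal.Quotient.factorₐ ℂ hle
  have hg : Function.Surjective g := Ideal.Quotient.factor_surjective hle
  -- the multiplication by `p`
  let m : R2 →ₗ[ℂ] (R2 ⧸ Ideal.span {p * q, c}) := (Ideal.Quotient.mkₐ ℂ (Ideal.span {p * q, c})).toLinearMap ∘ₗ LinearMap.mulLeft ℂ p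
  have hker : (Ideal.span {q, c}).restrictScalars ℂ ≤ LinearMap.ker m := by
    intro z hz
    rw [LinearMap.mem_ker]
    show Ideal.Quotient.mk (Ideal.span {p * q, c}) (p * z) = 0
    rw [Ideal.Quotient.eq_zero_iff_mem]
    obtain ⟨a, b, rfl⟩ := Ideal.mem_span_pair.1 hz
    rw [Ideal.mem_span_pair]
    exact ⟨a, p * b, by ring⟩
  let f : (R2 ⧸ (Ideal.span {q, c}).restrictScalars ℂ) →ₗ[ℂ] (R2 ⧸ Ideal.span {p * q, c}) := Submodule.liftQ _ m hker
  have hf : LinearMap.ker g.toLinearMap ≤ LinearMap.range f := by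
    intro z hz
    obtain ⟨w, rfl⟩ := Ideal.Quotient.mk_surjective z
    have h1 : w ∈ Ideal.span {p, c} := by
      rw [← Ideal.Quotient.eq_zero_iff_mem]
      exact hz
    obtain ⟨a, b, rfl⟩ := Ideal.mem_span_pair.1 h1
    refine ⟨Submodule.Quotient.mk a, ?_⟩
    show Ideal.Quotient.mk (Ideal.span {p * q, c}) (p * a) = _
    rw [← sub_eq_zero, ← map_sub, Ideal.Quotient.eq_zero_iff_mem, Ideal.mem_span_pair]
    exact ⟨0, -b, by ring⟩
  have hq' : Module.Finite ℂ (R2 ⧸ (Ideal.span {q, c}).restrictScalars ℂ) := hq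
  have hr : Module.Finite ℂ (LinearMap.range f) := inferInstance
  have hk : Module.Finite ℂ (LinearMap.ker g.toLinearMap) := Submodule.finiteDimensional_of_le hf
  have hquo : Module.Finite ℂ ((R2 ⧸ Ideal.span {p * q, c}) ⧸ LinearMap.ker g.toLinearMap) :=
    Module.Finite.equiv (LinearMap.quotKerEquivOfSurjective g.toLinearMap hg).symm
  have hfin : Module.Finite ℂ (R2 ⧸ Ideal.span {p * q, c}) := Module.Finite.of_submodule_quotient (LinearMap.ker g.toLinearMap)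
  refine ⟨hfin, ?_⟩
  have h1 := LinearMap.finrank_range_add_finrank_ker g.toLinearMap
  have h2 : Module.finrank ℂ (LinearMap.range g.toLinearMap) = mu p c := by
    rw [LinearMap.range_eq_top.2 hg, finrank_top]
    rfl
  have h3 : Module.finrank ℂ (LinearMap.ker g.toLinearMap) ≤ mu q c :=
    (Submodule.finrank_mono hf).trans (LinearMap.finrank_range_le f)
  unfold mu at *
  omega

theorem Mu.of_le {I J : Ideal R2} (hle : I ≤ J) (h : Module.Finite ℂ (R2 ⧸ I)) :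
    Module.Finite ℂ (R2 ⧸ J) ∧ Module.finrank ℂ (R2 ⧸ J) ≤ Module.finrank ℂ (R2 ⧸ I) := by
  let g : (R2 ⧸ I) →ₐ[ℂ] (R2 ⧸ J) := Ideal.Quotient.factorₐ ℂ hle
  have hg : Function.Surjective g := Ideal.Quotient.factor_surjective hle
  exact ⟨Module.Finite.of_surjective g.toLinearMap hg, LinearMap.finrank_le_finrank_of_surjective (f := g.toLinearMap) hg⟩

theorem mu_X0 {c : R2} {n : ℕ} (h : cf c 0 n ≠ 0) : Fin2 (X 0) c ∧ mu (X 0) c ≤ n := by
  classical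
  have hex : ∃ n, cf c 0 n ≠ 0 := ⟨n, h⟩
  set n₀ := Nat.find hex with hn₀
  have hc : cf c 0 n₀ ≠ 0 := Nat.find_spec hex
  have hmin : ∀ k, k < n₀ → cf c 0 k = 0 := fun k hk => by
    by_contra hne
    exact Nat.find_min hex hk hne
  have hle : n₀ ≤ n := Nat.find_min' hex h
  obtain ⟨g, h', hd, hg⟩ := Mu.decomp c n₀
  have hs : (∑ k ∈ Finset.range n₀, C (cf c 0 k) * X 1 ^ k : R2) = 0 := by
    refine Finset.sum_eq_zero fun k hk => ?_
    rw [hmin k (Finset.mem_range.1 hk), map_zero, zero_mul]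
  rw [hs, zero_add] at hd
  have hu : IsUnit g := by
    rw [isUnit_iff_constantCoeff]
    have : constantCoeff g = cf g 0 0 := by
      unfold cf
      rw [show ex 0 0 = 0 by simp [ex], coeff_zero_eq_constantCoeff_apply]
    rw [this, hg]
    exact isUnit_iff_ne_zero.2 hc
  obtain ⟨w, hw⟩ := hu.exists_left_inv
  set I : Ideal R2 := Ideal.span {X 0, c} with hI
  have hy : (X 1 ^ n₀ : R2) ∈ I := by
    rw [hI, Ideal.mem_span_pair]
    refine ⟨-(w * h'), w, ?_⟩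
    calc -(w * h') * X 0 + w * c = -(w * h') * X 0 + w * (X 1 ^ n₀ * g + X 0 * h') := by rw [← hd]
      _ = (w * g) * X 1 ^ n₀ := by ring
      _ = X 1 ^ n₀ := by rw [hw, one_mul]
  -- the quotient is spanned by the powers of `y`
  let v : Fin n₀ → R2 ⧸ I := fun k => Ideal.Quotient.mk I (X 1 ^ (k : ℕ))
  have hspan : Submodule.span ℂ (Set.range v) = ⊤ := by
    rw [eq_top_iff]
    rintro z -
    obtain ⟨f, rfl⟩ := Ideal.Quotient.mk_surjective z
    obtain ⟨g₁, h₁, hf, -⟩ := Mu.decomp f n₀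
    have h1 : Ideal.Quotient.mk I f = ∑ k ∈ Finset.range n₀, (cf f 0 k) • Ideal.Quotient.mk I (X 1 ^ k) := by
      conv_lhs => rw [hf]
      rw [map_add, map_add, map_mul, map_mul, Ideal.Quotient.eq_zero_iff_mem.2 hy,
        Ideal.Quotient.eq_zero_iff_mem.2 (show (X 0 : R2) ∈ I from Ideal.subset_span (by simp)), zero_mul, zero_mul, add_zero, add_zero,
        map_sum]
      refine Finset.sum_congr rfl fun k _ => ?_
      have h3 : (cf f 0 k) • Ideal.Quotient.mk I (X 1 ^ k) = Ideal.Quotient.mk I ((cf f 0 k) • (X 1 ^ k : R2)) := rfl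
      rw [h3, smul_eq_C_mul]
    rw [h1]
    refine Submodule.sum_mem _ fun k hk => Submodule.smul_mem _ _ (Submodule.subset_span ?_)
    exact ⟨⟨k, Finset.mem_range.1 hk⟩, rfl⟩
  have hfin : Module.Finite ℂ (R2 ⧸ I) := ⟨⟨Finset.univ.image v, by rw [Finset.coe_image, Finset.coe_univ, Set.image_univ, hspan]⟩⟩
  refine ⟨hfin, ?_⟩
  have h2 : Module.finrank ℂ (R2 ⧸ I) ≤ n₀ := by
    have := finrank_range_le_card (R := ℂ) v
    unfold Set.finrank at this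
    rw [hspan, finrank_top, Fintype.card_fin] at this
    exact this
  exact h2.trans hle

theorem Mu.span_sub (a b r : R2) : Ideal.span {a, b - r * a} = Ideal.span {a, b} := by
  apply le_antisymm
  · rw [Ideal.span_le]
    rintro _ (rfl | rfl)
    · exact Ideal.subset_span (by simp)
    · exact Ideal.mem_span_pair.2 ⟨-r, 1, by ring⟩
  · rw [Ideal.span_le]
    rintro _ (rfl | rfl)
    · exact Ideal.subset_span (by simp)
    · exact Ideal.mem_span_pair.2 ⟨r, 1, by ring⟩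

theorem fin2_sub (a b r : R2) : Fin2 a (b - r * a) ↔ Fin2 a b := by
  unfold Fin2
  rw [Mu.span_sub]

theorem mu_sub (a b r : R2) : mu a (b - r * a) = mu a b := by
  unfold mu
  rw [Mu.span_sub]

theorem mu_of_mul {a c p : R2} (h : Fin2 a (p * c)) : Fin2 a c ∧ mu a c ≤ mu a (p * c) := by
  refine Mu.of_le ?_ h
  rw [Ideal.span_le]
  rintro _ (rfl | rfl)
  · exact Ideal.subset_span (by simp)
  · exact Ideal.mul_mem_left _ _ (Ideal.subset_span (by simp))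

theorem Mu.map_sw (a b : R2) : Ideal.span {sw b, sw a} = (Ideal.span {a, b}).map (sw : R2 →+* R2) := by
  rw [Ideal.map_span, Set.image_pair, Set.pair_comm]
  rfl

theorem fin2_swap (a b : R2) : Fin2 (sw b) (sw a) ↔ Fin2 a b := by
  let e : (R2 ⧸ Ideal.span {a, b}) ≃ₐ[ℂ] (R2 ⧸ Ideal.span {sw b, sw a}) := Ideal.quotientEquivAlg _ _ sw (Mu.map_sw a b)
  exact (Module.Finite.equiv_iff e.toLinearEquiv).symm

theorem mu_swap (a b : R2) : mu (sw b) (sw a) = mu a b := by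
  let e : (R2 ⧸ Ideal.span {a, b}) ≃ₐ[ℂ] (R2 ⧸ Ideal.span {sw b, sw a}) := Ideal.quotientEquivAlg _ _ sw (Mu.map_sw a b)
  exact (LinearEquiv.finrank_eq e.toLinearEquiv).symm

/-- `R2` is not a finite dimensional vector space -/
theorem Mu.not_finite : ¬ Module.Finite ℂ R2 := by
  intro hfin
  set n := Module.finrank ℂ R2 with hn
  let L : R2 →ₗ[ℂ] (Fin (n + 1) → ℂ) := LinearMap.pi fun k => coeff (ex 0 k)
  have hL : Function.Surjective L := by
    intro v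
    refine ⟨Mu.mk fun _ j => if h : j < n + 1 then v ⟨j, h⟩ else 0, ?_⟩
    funext k
    have h1 : L (Mu.mk fun _ j => if h : j < n + 1 then v ⟨j, h⟩ else 0) k =
        cf (Mu.mk fun _ j => if h : j < n + 1 then v ⟨j, h⟩ else 0) 0 (k : ℕ) := rfl
    rw [h1, Mu.cf_mk, dif_pos k.2]
  have h := LinearMap.finrank_le_finrank_of_surjective hL
  rw [Module.finrank_fin_fun] at h
  omega

/-- a finite multiplicity and two series of positive order: not both vanish to infinite order -/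
theorem exists_order {a b : R2} (h : Fin2 a b) : ∃ l : ℕ, Ord l a ∧ Ord l b ∧ ¬ (Ord (l + 1) a ∧ Ord (l + 1) b) := by
  classical
  have hex : ∃ l : ℕ, ¬ (Ord (l + 1) a ∧ Ord (l + 1) b) := by
    by_contra hall
    push Not at hall
    have ha : a = 0 := Mu.ext fun i j => by
      rw [(hall (i + j)).1 i j (by omega)]
      rfl
    have hb : b = 0 := Mu.ext fun i j => by
      rw [(hall (i + j)).2 i j (by omega)]
      rfl
    unfold Fin2 at h
    rw [ha, hb] at h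
    apply Mu.not_finite
    have h0 : (Ideal.span {0, 0} : Ideal R2) = ⊥ := by simp
    rw [h0] at h
    exact Module.Finite.equiv (AlgEquiv.quotientBot ℂ R2).toLinearEquiv
  refine ⟨Nat.find hex, ?_, ?_, Nat.find_spec hex⟩
  · rcases Nat.eq_zero_or_pos (Nat.find hex) with h0 | h0
    · rw [h0]
      intro i j hij
      omega
    · have h1 := not_not.1 (Nat.find_min hex (show Nat.find hex - 1 < Nat.find hex by omega))
      have h2 := h1.1
      rwa [show Nat.find hex - 1 + 1 = Nat.find hex by omega] at h2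
  · rcases Nat.eq_zero_or_pos (Nat.find hex) with h0 | h0
    · rw [h0]
      intro i j hij
      omega
    · have h1 := not_not.1 (Nat.find_min hex (show Nat.find hex - 1 < Nat.find hex by omega))
      have h2 := h1.2
      rwa [show Nat.find hex - 1 + 1 = Nat.find hex by omega] at h2

end Pool.Agent.SB

end
end
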