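import Pool.Agent.H94.G6.H17R.Point
import Pool.Agent.H94.G6.M28
import Pool.Agent.H94.G6.M40
import Pool.Agent.H94.G6.M44
import Pool.Agent.H94.G6.M51
import Pool.Agent.H94.G6.M53
import Pool.Agent.H94.G6.M55
import Pool.Agent.H94.G6.M66
import Pool.Agent.H94.G6.M67
import Pool.Agent.H94.G6.M68

/-! The parts of this file: AD.ChartBasic, H36.BPL.Wrap, H17EF.MainE, H62.Qe.Ext, H13.CV.FunF, H13.SM.Homog, H7.Bir.Alg, SY.Plug. -/

section

/-!
# BPm ChartBasic: charts, basic facts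

* `Chart.fderiv_q_smul`: `q (c • y) = q y` for `y` near `x ∈ U` (`U` open); differentiate:
  `Dq(c x) (c v) = Dq(x) v`; and `Dq(x) x = 0` (differentiate `q ((1 + h) • x) = q x` at `h = 0`).
* `Chart.fderiv_sigma`: derivative of `q ∘ σ = id` on the bidisc: `Dq(σ p) (Dσ(p) w) = w`.
* `Chart.tan`: the curve `z ↦ σ (p + z • w)`; if `σ p ∈ K` it stays in `K` (`rel_open`).
* `Chart.curve`: `q ∘ F` is analytic at `z₀` (composition), its derivative is given by the chain
  rule. For `z` near `z₀`, `F z ∈ X ∩ U`, so `q (F z) ∈ ball 0 2` and `F z = c z • σ (q (F z))` with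
  `c z ≠ 0` (`surj`). With `y = σ (q (F z₀)) ≠ 0`: `c z = ⟪y, F z⟫ / ⟪y, σ (q (F z))⟫` near `z₀`:
  analytic.
* `Chart.sigma_mem_iff`: for `x ∈ X ∩ U`, `x = c • σ (q x)`, so `x ∈ K ↔ σ (q x) ∈ K`.
-/

open Topology Filter Metric

namespace Pool.Agent.AD

open Pool.Agent.H36.BP
open Pool.Agent.H14.PP (IsCone CurveAt Tan IsOpenPart rho rho_smul)

variable {N d : ℕ} {X K T : Set (EN N)}

theorem Chart.sigma_ne_zero (hX : IsCone X) (χ : Chart d X) {p : Vd d}
    (hp : p ∈ ball (0 : Vd d) 2) : χ.σ p ≠ 0 :=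
  hX.ne_zero (χ.σ_mem p hp).1

theorem Chart.tan (hK : IsOpenPart X K) (χ : Chart d X) {p : Vd d}
    (hp : p ∈ ball (0 : Vd d) 2) (hpK : χ.σ p ∈ K) (w : Vd d) :
    Tan K (χ.σ p) (fderiv ℂ χ.σ p w) := by
  have hl : AnalyticAt ℂ (fun z : ℂ => p + z • w) 0 := by fun_prop
  have h0 : p + (0 : ℂ) • w = p := by simp
  have hσ : AnalyticAt ℂ χ.σ (p + (0 : ℂ) • w) := by rw [h0]; exact χ.σ_an p hp
  have hF : AnalyticAt ℂ (fun z : ℂ => χ.σ (p + z • w)) 0 :=
    AnalyticAt.comp (g := χ.σ) (f := fun z : ℂ => p + z • w) hσ hl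
  refine ⟨fun z => χ.σ (p + z • w), ⟨hF, ?_⟩, by simp, ?_⟩
  · have h1 : ∀ᶠ z : ℂ in 𝓝 0, χ.σ (p + z • w) ∈ X → χ.σ (p + z • w) ∈ K := by
      have h2 := hF.continuousAt
      have h3 := hK.rel_open _ hpK
      have h4 : χ.σ (p + (0 : ℂ) • w) = χ.σ p := by rw [h0]
      have h5 : Tendsto (fun z : ℂ => χ.σ (p + z • w)) (𝓝 0) (𝓝 (χ.σ p)) := by
        have := h2.tendsto
        rwa [h4] at this
      exact h5.eventually h3
    have h6 : ∀ᶠ z : ℂ in 𝓝 0, p + z • w ∈ ball (0 : Vd d) 2 := by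
      have h7 := hl.continuousAt
      apply h7.eventually_mem
      rw [h0]
      exact isOpen_ball.mem_nhds hp
    filter_upwards [h1, h6] with z hz hz'
    exact hz (χ.σ_mem _ hz').1
  · have h1 : HasFDerivAt χ.σ (fderiv ℂ χ.σ p) (p + (0 : ℂ) • w) := by
      rw [h0]
      exact (χ.σ_an p hp).differentiableAt.hasFDerivAt
    have h2 : HasDerivAt (fun z : ℂ => p + z • w) w 0 := by
      have h3 : HasDerivAt (fun z : ℂ => z • w) ((1 : ℂ) • w) 0 :=
        (hasDerivAt_id (0 : ℂ)).smul_const w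
      rw [one_smul] at h3
      exact h3.const_add p
    exact (h1.comp_hasDerivAt (0 : ℂ) h2).deriv

theorem Chart.curve (hX : IsCone X) (χ : Chart d X) {F : ℂ → EN N} {z₀ : ℂ} (hF : CurveAt X F z₀)
    (hU : F z₀ ∈ χ.U) :
    AnalyticAt ℂ (fun z => χ.q (F z)) z₀ ∧
    deriv (fun z => χ.q (F z)) z₀ = fderiv ℂ χ.q (F z₀) (deriv F z₀) ∧
    ∃ c : ℂ → ℂ, AnalyticAt ℂ c z₀ ∧ c z₀ ≠ 0 ∧
      ∀ᶠ z in 𝓝 z₀, χ.q (F z) ∈ ball (0 : Vd d) 2 ∧ F z = c z • χ.σ (χ.q (F z)) := by
  have hq : AnalyticAt ℂ χ.q (F z₀) := χ.q_an _ hU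
  have hqF : AnalyticAt ℂ (fun z => χ.q (F z)) z₀ := AnalyticAt.comp hq hF.1
  refine ⟨hqF, ?_, ?_⟩
  · have h1 : HasFDerivAt χ.q (fderiv ℂ χ.q (F z₀)) (F z₀) := hq.differentiableAt.hasFDerivAt
    have h2 : HasDerivAt F (deriv F z₀) z₀ := hF.1.differentiableAt.hasDerivAt
    exact (h1.comp_hasDerivAt z₀ h2).deriv
  · have hX0 : F z₀ ∈ X := hF.mem
    obtain ⟨hb, c0, hc0, hF0⟩ := χ.surj _ hX0 hU
    have hσ : AnalyticAt ℂ (fun z => χ.σ (χ.q (F z))) z₀ :=
      AnalyticAt.comp (g := χ.σ) (f := fun z => χ.q (F z)) (χ.σ_an _ hb) hqF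
    set y : EN N := χ.σ (χ.q (F z₀)) with hy
    have hy0 : y ≠ 0 := Chart.sigma_ne_zero hX χ hb
    have hn : AnalyticAt ℂ (fun z => inner ℂ y (F z)) z₀ :=
      AnalyticAt.comp (g := fun x : EN N => (innerSL ℂ y) x) (f := F)
        ((innerSL ℂ y).analyticAt _) hF.1
    have hd : AnalyticAt ℂ (fun z => inner ℂ y (χ.σ (χ.q (F z)))) z₀ :=
      AnalyticAt.comp (g := fun x : EN N => (innerSL ℂ y) x) (f := fun z => χ.σ (χ.q (F z)))
        ((innerSL ℂ y).analyticAt _) hσ
    have hd0 : (fun z => inner ℂ y (χ.σ (χ.q (F z)))) z₀ ≠ (0 : ℂ) := by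
      show inner ℂ y y ≠ (0 : ℂ)
      exact inner_self_ne_zero.2 hy0
    refine ⟨fun z => inner ℂ y (F z) / inner ℂ y (χ.σ (χ.q (F z))), hn.div hd hd0, ?_, ?_⟩
    · refine div_ne_zero ?_ hd0
      rw [hF0, inner_smul_right]
      exact mul_ne_zero hc0 (inner_self_ne_zero.2 hy0)
    · have hev : ∀ᶠ z in 𝓝 z₀, (fun z => inner ℂ y (χ.σ (χ.q (F z)))) z ≠ (0 : ℂ) :=
        hd.continuousAt.eventually_ne hd0
      have hevU : ∀ᶠ z in 𝓝 z₀, F z ∈ χ.U :=
        hF.1.continuousAt.eventually_mem (χ.isOpen_U.mem_nhds hU)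
      filter_upwards [hev, hevU, hF.2] with z h1 h2 h3
      obtain ⟨h4, c, hc, h5⟩ := χ.surj _ h3 h2
      refine ⟨h4, ?_⟩
      have h6 : inner ℂ y (F z) / inner ℂ y (χ.σ (χ.q (F z))) = c := by
        rw [div_eq_iff h1]
        conv_lhs => rw [h5]
        rw [inner_smul_right]
      rw [h6]
      exact h5

end Pool.Agent.AD

end

section

/-!
# BPL Wrap: from maps into the projective space to functions
-/

set_option autoImplicit false

open Topology Filter

noncomputable section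

namespace Pool.Agent.H36.BPL

open Pool.Agent.H17 (puncturedDisc)
open Pool.Agent.H36.BP (HolInto rep_mk OrdTwo)
open Pool.Agent.H17BP (Surface IsChart IsForm NoZeros NodalAt Pr HolP Picard Eqs)

variable {V : Type} [NormedAddCommGroup V] [NormedSpace ℂ V]

/-- the point of the projective space of a vector -/
def W_pt (x₁ : V) (hx₁ : x₁ ≠ 0) (x : V) : Projectivization ℂ V :=
  open Classical in if h : x ≠ 0 then Projectivization.mk ℂ x h else Projectivization.mk ℂ x₁ hx₁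

theorem W_pt_eq (x₁ : V) (hx₁ : x₁ ≠ 0) {x y : V} (hy : y ≠ 0) (h : Pr x y) : W_pt x₁ hx₁ x = Projectivization.mk ℂ y hy := by
  obtain ⟨c, hc, rfl⟩ := h
  have h1 : c • y ≠ 0 := smul_ne_zero hc hy
  unfold W_pt
  rw [dif_pos h1, Projectivization.mk_eq_mk_iff']
  exact ⟨c, rfl⟩

theorem W_pr_of_mk {x y : V} (hx : x ≠ 0) (hy : y ≠ 0) (h : Projectivization.mk ℂ x hx = Projectivization.mk ℂ y hy) : Pr x y := by
  rw [Projectivization.mk_eq_mk_iff'] at h
  obtain ⟨c, hc⟩ := h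
  refine ⟨c, ?_, hc.symm⟩
  rintro rfl
  rw [zero_smul] at hc
  exact hx hc.symm

/-- the family of equations as one function -/
def W_Q {κ : Type} [Fintype κ] (Q : κ → V → ℂ) (x : V) : EuclideanSpace ℂ κ := WithLp.toLp 2 fun i => Q i x

theorem W_mem {z : ℂ} : z ∈ puncturedDisc ↔ z ≠ 0 ∧ ‖z‖ < 1 := by
  unfold puncturedDisc
  simp [and_comm]

theorem W_brody {X B : Set V} (hX : ∀ x ∈ X, ∀ c : ℂ, c ≠ 0 → c • x ∈ X) (h : Brody2 X B) (f : ℂ → Projectivization ℂ V)
    (hf : HolInto f Set.univ) (hfX : ∀ z, (f z).rep ∈ X) (hord : OrdTwo (fun z => (f z).rep)) (hne : ∃ z w, f z ≠ f w) : ∀ z, (f z).rep ∈ B := by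
  by_contra hcon
  push Not at hcon
  have h1 := h (fun z => (f z).rep) (fun z₀ => by
    obtain ⟨φ, hφ, he⟩ := hf z₀ (Set.mem_univ _)
    refine ⟨φ, hφ, he.self_of_nhds.1, ?_⟩
    filter_upwards [he] with z hz
    obtain ⟨h1, h2⟩ := hz
    obtain ⟨a, ha, h3⟩ := rep_mk h1
    exact ⟨a, ha, by rw [h2, h3]⟩) hfX hord hcon
  obtain ⟨z, w, hzw⟩ := hne
  apply hzw
  obtain ⟨c, hc, h2⟩ := h1 z w
  rw [← (f z).mk_rep, ← (f w).mk_rep, Projectivization.mk_eq_mk_iff']
  exact ⟨c, h2.symm⟩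

/-- from maps into the projective space to functions -/
theorem W_picard {X B : Set V} (h0 : (0 : V) ∉ X) (hX : ∀ x ∈ X, ∀ c : ℂ, c ≠ 0 → c • x ∈ X) (hB : ∀ x ∈ B, ∀ c : ℂ, c ≠ 0 → c • x ∈ B)
    (hP : ∀ f : ℂ → Projectivization ℂ V, HolInto f puncturedDisc → (∀ z ∈ puncturedDisc, (f z).rep ∈ X) →
      (∃ z ∈ puncturedDisc, (f z).rep ∉ B) →
      ∃ g : ℂ → Projectivization ℂ V, HolInto g (Metric.ball 0 1) ∧ ∀ z ∈ puncturedDisc, g z = f z) : Picard X B := by
  intro r hr f hf hfB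
  obtain ⟨z₁, hz₁, hz₁r, hz₁B⟩ := hfB
  have hne : ∀ x ∈ X, x ≠ 0 := fun x hx e => h0 (e ▸ hx)
  have hx₁ : f z₁ ≠ 0 := hne _ (hf z₁ hz₁ hz₁r).2
  have hrC : (r : ℂ) ≠ 0 := by exact_mod_cast hr.ne'
  have hsc : ∀ z ∈ puncturedDisc, (r : ℂ) * z ≠ 0 ∧ ‖(r : ℂ) * z‖ < r := by
    intro z hz
    obtain ⟨h1, h2⟩ := W_mem.mp hz
    refine ⟨mul_ne_zero hrC h1, ?_⟩
    rw [norm_mul, Complex.norm_real, Real.norm_of_nonneg hr.le]
    nlinarith
  set p : ℂ → Projectivization ℂ V := fun z => W_pt (f z₁) hx₁ (f (r * z)) with hp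
  have hrefl : ∀ x : V, Pr x x := fun x => ⟨1, one_ne_zero, (one_smul _ _).symm⟩
  have hpz : ∀ z ∈ puncturedDisc, ∀ h : f (r * z) ≠ 0, p z = Projectivization.mk ℂ (f (r * z)) h :=
    fun z _ h => W_pt_eq _ _ h (hrefl _)
  obtain ⟨g, hg, hgf⟩ := hP p (fun z₀ hz₀ => by
    obtain ⟨h1, h2⟩ := hsc z₀ hz₀
    obtain ⟨F, hF, hF0, hFe⟩ := (hf _ h1 h2).1
    have hmul : AnalyticAt ℂ (fun z : ℂ => (r : ℂ) * z) z₀ := analyticAt_const.mul analyticAt_id
    have hF' : AnalyticAt ℂ (fun z : ℂ => F ((r : ℂ) * z)) z₀ := AnalyticAt.comp (g := F) (f := fun z : ℂ => (r : ℂ) * z) hF hmul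
    refine ⟨fun z => F (r * z), hF', ?_⟩
    filter_upwards [hF'.continuousAt.eventually_ne hF0, hmul.continuousAt.eventually hFe] with z h3 h4
    exact ⟨h3, W_pt_eq _ _ h3 h4⟩) (fun z hz => by
    obtain ⟨h1, h2⟩ := hsc z hz
    have h3 := (hf _ h1 h2).2
    rw [hpz z hz (hne _ h3)]
    obtain ⟨a, ha, h4⟩ := rep_mk (hne _ h3)
    rw [h4]
    exact hX _ h3 a ha) ⟨z₁ / r, by
      rw [W_mem]
      constructor
      · exact div_ne_zero hz₁ hrC
      · rw [norm_div, Complex.norm_real, Real.norm_of_nonneg hr.le, div_lt_one hr]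
        exact hz₁r, by
      have h1 : (r : ℂ) * (z₁ / r) = z₁ := by field_simp
      have h2 : p (z₁ / r) = Projectivization.mk ℂ (f z₁) hx₁ := by
        rw [hp]
        simp only [h1]
        exact W_pt_eq _ _ hx₁ (hrefl _)
      rw [h2]
      obtain ⟨a, ha, h4⟩ := rep_mk hx₁
      rw [h4]
      intro h5
      apply hz₁B
      have h6 := hB _ h5 a⁻¹ (inv_ne_zero ha)
      rwa [smul_smul, inv_mul_cancel₀ ha, one_smul] at h6⟩
  obtain ⟨φ, hφ, hφe⟩ := hg 0 (Metric.mem_ball_self one_pos)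
  have hdiv : AnalyticAt ℂ (fun z : ℂ => z / (r : ℂ)) 0 := analyticAt_id.div analyticAt_const hrC
  have hφ0 : φ 0 ≠ 0 := hφe.self_of_nhds.1
  refine ⟨fun z => φ (z / r), AnalyticAt.comp (g := φ) (f := fun z : ℂ => z / (r : ℂ)) (by rw [zero_div]; exact hφ) hdiv, by simpa using hφ0, ?_⟩
  have ht : Tendsto (fun z : ℂ => z / (r : ℂ)) (𝓝 0) (𝓝 0) := by
    have := hdiv.continuousAt.tendsto
    rwa [zero_div] at this
  have hnear : ∀ᶠ z : ℂ in 𝓝 0, ‖z‖ < r := by
    have : ContinuousAt (fun z : ℂ => ‖z‖) 0 := continuous_norm.continuousAt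
    exact this.eventually_lt continuousAt_const (by simpa using hr)
  rw [eventually_nhdsWithin_iff]
  filter_upwards [ht.eventually hφe, hnear] with z h1 h2 h3
  obtain ⟨h4, h5⟩ := h1
  have hz0 : z ≠ 0 := h3
  have hzp : z / r ∈ puncturedDisc := by
    rw [W_mem]
    constructor
    · exact div_ne_zero hz0 hrC
    · rw [norm_div, Complex.norm_real, Real.norm_of_nonneg hr.le, div_lt_one hr]
      exact h2
  have h6 := hgf _ hzp
  have h7 : (r : ℂ) * (z / r) = z := by field_simp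
  have h8 : f z ≠ 0 := hne _ (hf z hz0 h2).2
  have h9 := hpz _ hzp (by rw [h7]; exact h8)
  rw [h5, h9] at h6
  have h10 := W_pr_of_mk _ _ h6.symm
  rwa [h7] at h10

/-- A closed surface `X`, an open part `K` of it, a curve `T ⊇ X ∖ K`, a section `Ω` of `m K_X - j H` on `K` without zeros outside `T` and with
poles of order at most `m - 1` along `X ∖ K`, such that every entire curve of order at most two in `K` which is not a map into `T` is constant. -/
structure ModelK (X K T : Set V) (m j : ℕ) (Ω : V → V → V → ℂ) {κ : Type} (Q : κ → V → ℂ) (D : ℕ) : Prop where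
  surf : Surface X
  opn : OpenPart X K
  aff : ∃ (M : ℕ) (Φ : V → Fin M → ℂ), AffProper X K Φ
  sub : ∀ x ∈ X, x ∉ K → x ∈ T
  one_m : 1 ≤ m
  one_j : 1 ≤ j
  form : IsForm K m j Ω
  noZeros : NoZeros K T Ω
  pole : PoleLE X K (m - 1) Ω
  eqs : Eqs X T Q D
  thin : ∀ σ τ, IsChart X σ τ → ∃ᶠ p in 𝓝 (0 : ℂ × ℂ), σ p ∉ T
  brody : Brody2 K T

end Pool.Agent.H36.BPL

end
end

section

/-!
# EF MainE: surfaces of general type with a map to an elliptic curve
-/

set_option autoImplicit false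

open Topology Filter MvPolynomial Metric

noncomputable section

namespace Pool.Agent.H17EF

attribute [-instance] ProperSMul.toContinuousSMul

open Pool.Agent.H17 (PN VanishesAt HolomorphicInto ZariskiClosedIn)
open Pool.Agent.H62.EF
open Pool.Agent.H17BP (Surface IsChart IsForm NoZeros)
open Pool.Agent.H17LG.Variety (FunField IsLogGeneralType)
open Pool.Agent.H13.SM (cone)
open Pool.Agent.H36.BP (EN fs wd formT isCone_transport germ_transport tan_transport OrdTwo)
open Pool.Agent.H14.PP (IsCone Chart Form)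

variable {N : ℕ}

section core

variable {P : Ideal (MvPolynomial (Fin (N + 1)) ℂ)} [P.IsPrime] {z : Fin 2 → FunField P}

/-- general type -/
def GT (P : Ideal (MvPolynomial (Fin (N + 1)) ℂ)) [P.IsPrime] (k : ℕ) : Prop :=
  IsLogGeneralType (K := FunField P) (k := k) (fun _ => False)

/-- the projection matrix of a point -/
def prP (x : PN N) : MN N := pr ((LE N) x.rep)

theorem prP_mk {x : Fin (N + 1) → ℂ} (hx : x ≠ 0) : prP (Projectivization.mk ℂ x hx) = pr ((LE N) x) := by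
  obtain ⟨a, ha, h⟩ := Pool.Agent.H36.BP.rep_mk hx
  unfold prP
  rw [h, map_smul, pr_smul _ ha]

theorem LE_ne_zero {x : Fin (N + 1) → ℂ} (hx : x ≠ 0) : (LE N) x ≠ 0 := fun h => hx ((LE N).map_eq_zero_iff.1 h)

theorem prP_injective : Function.Injective (prP (N := N)) := by
  intro x y h
  unfold prP at h
  obtain ⟨c, hc, h'⟩ := (pr_eq_iff (LE_ne_zero x.rep_nonzero) (LE_ne_zero y.rep_nonzero)).1 h
  rw [← map_smul] at h'
  have h1 := (LE N).injective h'
  rw [← x.mk_rep, ← y.mk_rep, Projectivization.mk_eq_mk_iff']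
  exact ⟨c, h1.symm⟩

theorem mk_symm {F : EN N} (h : (LE N).symm F ≠ 0) : prP (Projectivization.mk ℂ ((LE N).symm F) h) = pr F := by
  rw [prP_mk, ContinuousLinearEquiv.apply_symm_apply]

/-- orders for the two norms -/
theorem ordTwo_symm {F : ℂ → EN N} (h : OrdTwo F) : OrdTwo fun z => (LE N).symm (F z) := by
  set M : ℝ := max ‖((LE N : (Fin (N + 1) → ℂ) →L[ℂ] EN N))‖ 1 with hM
  have hM0 : 0 < M := lt_of_lt_of_le one_pos (le_max_right _ _)
  refine OrdTwo.map ((LE N).symm : EN N →L[ℂ] (Fin (N + 1) → ℂ)) h (c := M⁻¹) (inv_pos.mpr hM0) fun x => ?_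
  rw [inv_mul_le_iff₀ hM0]
  have h1 := (LE N : (Fin (N + 1) → ℂ) →L[ℂ] EN N).le_opNorm ((LE N).symm x)
  have h2 : (LE N : (Fin (N + 1) → ℂ) →L[ℂ] EN N) ((LE N).symm x) = x := (LE N).apply_symm_apply x
  rw [h2] at h1
  exact h1.trans (mul_le_mul_of_nonneg_right (le_max_left _ _) (norm_nonneg _))

end core

end Pool.Agent.H17EF

end
end

section

/-!
# Qe Ext: extension of holomorphic maps of the punctured disc
-/

set_option autoImplicit false

open Topology Filter MvPolynomial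

noncomputable section

namespace Pool.Agent.H62.Qe

open Pool.Agent.H17 (PN VanishesAt HolomorphicInto puncturedDisc vanishesAt_mk_iff)
open Pool.Agent.H62.FC (Homog)
open Pool.Agent.H17EF (projVar)
open Pool.Agent.H7.Bir (vals rmap rmap_mk vals_smul)

variable {N M : ℕ}

/-- If `f (z ^ k)` is given by holomorphic homogeneous coordinates near `0` then `f` extends to the disc. -/
theorem extend_of_pow {f : ℂ → PN N} (hf : HolomorphicInto f puncturedDisc) {k : ℕ} (hk : 1 ≤ k) {Φ : ℂ → Fin (N + 1) → ℂ}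
    (hΦ : ContinuousAt Φ 0) (hΦ0 : Φ 0 ≠ 0) (hΦf : ∀ᶠ z in 𝓝 (0 : ℂ), z ≠ 0 → ∃ h : Φ z ≠ 0, f (z ^ k) = Projectivization.mk ℂ (Φ z) h) :
    ∃ g : ℂ → PN N, HolomorphicInto g (Metric.ball 0 1) ∧ ∀ z ∈ puncturedDisc, g z = f z := by
  classical
  obtain ⟨j, hj⟩ : ∃ j, Φ 0 j ≠ 0 := by
    by_contra hcon
    push Not at hcon
    exact hΦ0 (funext hcon)
  set S : ℂ → Fin (N + 1) → ℂ := fun w => ((f w).rep j)⁻¹ • (f w).rep with hS
  -- ratios of homogeneous coordinates
  have hSmk : ∀ (w : ℂ) (x : Fin (N + 1) → ℂ) (hx : x ≠ 0), f w = Projectivization.mk ℂ x hx → S w = (x j)⁻¹ • x := by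
    intro w x hx h
    obtain ⟨a, ha⟩ := Projectivization.exists_smul_eq_mk_rep ℂ x hx
    have h1 : (f w).rep = (a : ℂ) • x := by rw [h]; exact ha.symm
    rw [hS]
    simp only [h1, Pi.smul_apply, smul_eq_mul]
    rw [smul_smul, mul_inv, mul_comm (a : ℂ)⁻¹, mul_assoc, inv_mul_cancel₀ a.ne_zero, mul_one]
  -- a punctured neighbourhood on which the coordinates are controlled
  have h1 : ContinuousAt (fun z => (Φ z j)⁻¹ • Φ z) 0 := by
    have h2 : ContinuousAt (fun z => Φ z j) 0 := (continuous_apply j).continuousAt.comp hΦ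
    exact (h2.inv₀ hj).smul hΦ
  have h2 : ∀ᶠ z in 𝓝 (0 : ℂ), ‖(Φ z j)⁻¹ • Φ z‖ < ‖(Φ 0 j)⁻¹ • Φ 0‖ + 1 :=
    h1.norm.eventually_lt continuousAt_const (lt_add_one _)
  have h3 : ∀ᶠ z in 𝓝 (0 : ℂ), Φ z j ≠ 0 := ((continuous_apply j).continuousAt.comp hΦ).eventually_ne hj
  obtain ⟨ρ, hρ, hρb⟩ := Metric.eventually_nhds_iff_ball.1 ((hΦf.and h2).and h3)
  set r : ℝ := min (ρ ^ k) 1 with hr
  have hr0 : 0 < r := lt_min (pow_pos hρ k) one_pos
  have hroot : ∀ w ∈ Metric.ball (0 : ℂ) r \ {0}, ∃ z ∈ Metric.ball (0 : ℂ) ρ, z ≠ 0 ∧ z ^ k = w := by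
    intro w hw
    obtain ⟨z, hz⟩ := IsAlgClosed.exists_pow_nat_eq w (by omega : 0 < k)
    refine ⟨z, ?_, ?_, hz⟩
    · rw [mem_ball_zero_iff]
      by_contra hcon
      push Not at hcon
      have h4 : ρ ^ k ≤ ‖z‖ ^ k := pow_le_pow_left₀ hρ.le hcon k
      rw [← norm_pow, hz] at h4
      have h5 : ‖w‖ < r := by
        rw [← mem_ball_zero_iff]
        exact hw.1
      exact absurd (lt_of_lt_of_le h5 (min_le_left _ _)) (not_lt.2 h4)
    · rintro rfl
      apply hw.2
      rw [Set.mem_singleton_iff, ← hz, zero_pow (by omega)]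
  have hmem : ∀ w ∈ Metric.ball (0 : ℂ) r \ {0}, w ∈ puncturedDisc := fun w hw =>
    ⟨Metric.ball_subset_ball (min_le_right _ _) hw.1, hw.2⟩
  have hval : ∀ w ∈ Metric.ball (0 : ℂ) r \ {0}, (f w).rep j ≠ 0 ∧ ‖S w‖ ≤ ‖(Φ 0 j)⁻¹ • Φ 0‖ + 1 := by
    intro w hw
    obtain ⟨z, hz, hz0, hzw⟩ := hroot w hw
    obtain ⟨⟨h4, h5⟩, h6⟩ := hρb z hz
    obtain ⟨h7, h8⟩ := h4 hz0
    rw [hzw] at h8
    refine ⟨?_, ?_⟩
    · obtain ⟨a, ha⟩ := Projectivization.exists_smul_eq_mk_rep ℂ (Φ z) h7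
      have h9 : (f w).rep = (a : ℂ) • Φ z := by rw [h8]; exact ha.symm
      rw [h9]
      exact mul_ne_zero a.ne_zero h6
    · rw [hSmk w _ h7 h8]
      exact h5.le
  have hd : DifferentiableOn ℂ S (Metric.ball (0 : ℂ) r \ {0}) := by
    intro w hw
    obtain ⟨φ, h4, h5⟩ := hf w (hmem w hw)
    have h6 : φ w j ≠ 0 := by
      obtain ⟨h7, h8⟩ := h5.self_of_nhds
      obtain ⟨a, ha⟩ := Projectivization.exists_smul_eq_mk_rep ℂ (φ w) h7
      have h9 : (f w).rep = (a : ℂ) • φ w := by rw [h8]; exact ha.symm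
      have h10 := (hval w hw).1
      rw [h9] at h10
      exact right_ne_zero_of_mul h10
    have h7 : AnalyticAt ℂ (fun z => (φ z j)⁻¹ • φ z) w := by
      have h8 : AnalyticAt ℂ (fun z => φ z j) w := analyticAt_pi_iff.1 h4 j
      exact (h8.inv h6).smul h4
    refine DifferentiableAt.differentiableWithinAt (h7.differentiableAt.congr_of_eventuallyEq ?_)
    filter_upwards [h5] with z hz
    obtain ⟨h8, h9⟩ := hz
    exact hSmk z _ h8 h9
  have hb : BddAbove (norm ∘ S '' (Metric.ball (0 : ℂ) r \ {0})) := by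
    refine ⟨‖(Φ 0 j)⁻¹ • Φ 0‖ + 1, ?_⟩
    rintro _ ⟨w, hw, rfl⟩
    exact (hval w hw).2
  have hu := Complex.differentiableOn_update_limUnder_of_bddAbove (Metric.ball_mem_nhds (0 : ℂ) hr0) hd hb
  set S' : ℂ → Fin (N + 1) → ℂ := Function.update S 0 (limUnder (𝓝[≠] 0) S) with hS'
  have hS'a : AnalyticAt ℂ S' 0 := hu.analyticAt (Metric.ball_mem_nhds (0 : ℂ) hr0)
  have hS'eq : ∀ w, w ≠ 0 → S' w = S w := fun w hw => Function.update_of_ne hw _ _
  have hS'j : ∀ᶠ w in 𝓝[≠] (0 : ℂ), S' w j = 1 := by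
    have h4 : Metric.ball (0 : ℂ) r \ {0} ∈ 𝓝[≠] (0 : ℂ) := sdiff_mem_nhdsWithin_compl (Metric.ball_mem_nhds _ hr0) _
    filter_upwards [h4] with w hw
    rw [hS'eq w hw.2]
    exact inv_mul_cancel₀ (hval w hw).1
  have hS'0 : S' 0 j = 1 := by
    have h4 : Tendsto (fun w => S' w j) (𝓝[≠] (0 : ℂ)) (𝓝 (S' 0 j)) :=
      ((continuous_apply j).continuousAt.comp hS'a.continuousAt).tendsto.mono_left nhdsWithin_le_nhds
    have h5 : Tendsto (fun w => S' w j) (𝓝[≠] (0 : ℂ)) (𝓝 1) := tendsto_const_nhds.congr' (hS'j.mono fun w hw => hw.symm)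
    exact tendsto_nhds_unique h4 h5
  have hne : S' 0 ≠ 0 := by
    intro h
    rw [h] at hS'0
    exact zero_ne_one hS'0
  have hS'ne : ∀ᶠ w in 𝓝 (0 : ℂ), S' w ≠ 0 := hS'a.continuousAt.eventually_ne hne
  refine ⟨fun w => if w = 0 then Projectivization.mk ℂ (S' 0) hne else f w, fun w₀ hw₀ => ?_, fun w hw => if_neg hw.2⟩
  by_cases h0 : w₀ = 0
  · subst h0
    refine ⟨S', hS'a, ?_⟩
    filter_upwards [hS'ne, Metric.ball_mem_nhds (0 : ℂ) hr0] with w h4 h5
    refine ⟨h4, ?_⟩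
    by_cases hw : w = 0
    · subst hw
      rw [if_pos rfl]
    · rw [if_neg hw, ← Projectivization.mk_rep (f w), Projectivization.mk_eq_mk_iff']
      have h6 := (hval w ⟨h5, hw⟩).1
      refine ⟨(f w).rep j, ?_⟩
      rw [hS'eq w hw]
      show (f w).rep j • (((f w).rep j)⁻¹ • (f w).rep) = (f w).rep
      rw [smul_smul, mul_inv_cancel₀ h6, one_smul]
  · obtain ⟨φ, h4, h5⟩ := hf w₀ ⟨hw₀, h0⟩
    refine ⟨φ, h4, ?_⟩
    filter_upwards [h5, isOpen_ne.mem_nhds h0] with w h6 h7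
    rw [if_neg h7]
    exact h6

/-- If a lift `g` of `f (z ^ k)` extends to the disc, then `f` extends. -/
theorem extend_of_lift {P : Ideal (MvPolynomial (Fin (N + 1)) ℂ)} {P' : Ideal (MvPolynomial (Fin (M + 1)) ℂ)} {p : PN M → PN N}
    (hp : IsReg P P' p) {f : ℂ → PN N} (hf : HolomorphicInto f puncturedDisc) {k : ℕ} (hk : 1 ≤ k) {g ĝ : ℂ → PN M}
    (hgX : ∀ z ∈ puncturedDisc, g z ∈ projVar P') (hgf : ∀ z ∈ puncturedDisc, p (g z) = f (z ^ k))
    (hĝ : HolomorphicInto ĝ (Metric.ball 0 1)) (hgg : ∀ z ∈ puncturedDisc, ĝ z = g z) :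
    ∃ g₀ : ℂ → PN N, HolomorphicInto g₀ (Metric.ball 0 1) ∧ ∀ z ∈ puncturedDisc, g₀ z = f z := by
  obtain ⟨ψ, hψ, hψg⟩ := hĝ 0 (Metric.mem_ball_self one_pos)
  obtain ⟨hψ0, hψ0g⟩ := hψg.self_of_nhds
  have hD : ∀ᶠ z in 𝓝 (0 : ℂ), z ≠ 0 → z ∈ puncturedDisc := by
    filter_upwards [Metric.ball_mem_nhds (0 : ℂ) one_pos] with z h1 h2
    exact ⟨h1, h2⟩
  -- the value at `0` belongs to `X'`
  have h0X : ĝ 0 ∈ projVar P' := by
    intro Q hQ n hn
    rw [hψ0g, vanishesAt_mk_iff hn]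
    have h1 : Tendsto (fun z => eval (ψ z) Q) (𝓝[≠] (0 : ℂ)) (𝓝 (eval (ψ 0) Q)) := by
      have h2 : ContinuousAt (fun z => eval (ψ z) Q) 0 :=
        ContinuousAt.comp (g := fun x => eval x Q) (f := ψ) (MvPolynomial.continuous_eval Q).continuousAt hψ.continuousAt
      exact h2.tendsto.mono_left nhdsWithin_le_nhds
    have h2 : Tendsto (fun z => eval (ψ z) Q) (𝓝[≠] (0 : ℂ)) (𝓝 0) := by
      refine tendsto_const_nhds.congr' ?_
      rw [EventuallyEq, eventually_nhdsWithin_iff]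
      filter_upwards [hψg, hD] with z h3 h4 h5
      obtain ⟨h6, h7⟩ := h3
      have h8 := hgX z (h4 h5)
      rw [← hgg z (h4 h5), h7] at h8
      have h9 := h8 Q hQ n hn
      rw [vanishesAt_mk_iff hn] at h9
      exact h9.symm
    exact tendsto_nhds_unique h1 h2
  obtain ⟨D, γ, hγ, hγ0, hγp⟩ := hp.regular (ĝ 0) h0X
  have hrep : ∀ (x : Fin (M + 1) → ℂ) (hx : x ≠ 0), vals γ (Projectivization.mk ℂ x hx).rep ≠ 0 ↔ vals γ x ≠ 0 := by
    intro x hx
    obtain ⟨a, ha⟩ := Projectivization.exists_smul_eq_mk_rep ℂ x hx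
    have h1 : (Projectivization.mk ℂ x hx).rep = (a : ℂ) • x := ha.symm
    rw [h1, vals_smul hγ]
    constructor
    · intro h h2
      rw [h2, smul_zero] at h
      exact h rfl
    · exact fun h => smul_ne_zero (pow_ne_zero _ a.ne_zero) h
  have hv0 : vals γ (ψ 0) ≠ 0 := by
    rw [← hrep _ hψ0, ← hψ0g]
    exact hγ0
  have hvc : ContinuousAt (fun z => vals γ (ψ z)) 0 := by
    have hc : Continuous fun x : Fin (M + 1) → ℂ => vals γ x := continuous_pi fun i => MvPolynomial.continuous_eval (γ i)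
    exact ContinuousAt.comp (g := fun x => vals γ x) (f := ψ) hc.continuousAt hψ.continuousAt
  refine extend_of_pow hf hk hvc hv0 ?_
  filter_upwards [hψg, hD, hvc.eventually_ne hv0] with z h1 h2 h3 h4
  obtain ⟨h5, h6⟩ := h1
  refine ⟨h3, ?_⟩
  have h7 : ĝ z ∈ projVar P' := by
    rw [hgg z (h2 h4)]
    exact hgX z (h2 h4)
  have h8 : vals γ (ĝ z).rep ≠ 0 := by
    rw [h6, hrep _ h5]
    exact h3
  rw [← hgf z (h2 h4), ← hgg z (h2 h4), hγp _ h7 h8, h6, rmap_mk hγ h5 h3]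

end Pool.Agent.H62.Qe

end
end

section

/-!
# CV FunF: the function field of a curve in projective space

`FunField Q` is generated over `ℂ` by the finitely many functions `ratio Q i j`.  `exists_tr`: the member of the transcendence basis.  `fin`: let `x` be transcendental.  The transcendence degree is `1`, so `x` is
a transcendence basis (`AlgebraicIndependent.isTranscendenceBasis_of_trdeg_le_of_finite` or similar, see the proof of `trdeg_lt` in `Pool/Agent/H17BP/TrdegLt.lean`), and `K` is algebraic over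
`ℂ(x)` and generated by finitely many elements, so it is finite over `ℂ(x)` (`IntermediateField.finiteDimensional_adjoin`, `IntermediateField.finiteDimensional_of_exists_…`,
`IntermediateField.essFiniteType`, `Algebra.IsAlgebraic` + `Algebra.EssFiniteType` → `Module.Finite`: `Algebra.finite_of_essFiniteType_of_isAlgebraic`-like; there is also
`Pool.Agent.H23` material with `[Algebra.EssFiniteType ℂ K]`).
-/

set_option autoImplicit false

open MvPolynomial
open Pool.Agent.H17LG.Variety (FunField IsLogGeneralType)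

noncomputable section

namespace Pool.Agent.H13.CV

variable {N : ℕ}

private lemma funF_core {K : Type} [Field K] [Algebra ℂ K] (y : Fin (N + 1) → K)
    (hy : IntermediateField.adjoin ℂ (Set.range y) = ⊤) {z : Fin 1 → K} (hz : IsTranscendenceBasis ℂ z) :
    CurveField K := by
  refine ⟨⟨z 0, hz.1.transcendental 0⟩, fun x hx => ?_⟩
  have hind : AlgebraicIndependent ℂ (fun _ : Fin 1 => x) := algebraicIndependent_unique_type_iff.2 hx
  have h2 := IsTranscendenceBasis.cardinalMk_eq_trdeg (R := ℂ) (A := K) (x := z) hz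
  have hbasis : IsTranscendenceBasis ℂ fun _ : Fin 1 => x :=
    hind.isTranscendenceBasis_of_trdeg_le_of_finite h2.ge
  have halg := hbasis.isAlgebraic_field
  have hr : Set.range (fun _ : Fin 1 => x) = {x} := Set.range_const
  rw [hr] at halg
  have hfin : FiniteDimensional (IntermediateField.adjoin ℂ {x})
      (IntermediateField.adjoin (IntermediateField.adjoin ℂ {x}) (Set.range y)) :=
    IntermediateField.finiteDimensional_adjoin fun u _ => (halg.isAlgebraic u).isIntegral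
  have htop : IntermediateField.adjoin (IntermediateField.adjoin ℂ {x}) (Set.range y) = ⊤ := by
    rw [eq_top_iff]
    intro u _
    have hu : u ∈ IntermediateField.adjoin ℂ (Set.range y) := by
      rw [hy]
      exact IntermediateField.mem_top
    have hle : IntermediateField.adjoin ℂ (Set.range y) ≤
        (IntermediateField.adjoin (IntermediateField.adjoin ℂ {x}) (Set.range y)).restrictScalars ℂ := by
      rw [IntermediateField.adjoin_le_iff]
      exact IntermediateField.subset_adjoin (IntermediateField.adjoin ℂ {x}) (Set.range y)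
    exact hle hu
  rw [htop] at hfin
  exact FiniteDimensional.of_surjective
    ((⊤ : IntermediateField (IntermediateField.adjoin ℂ {x}) K).val.toLinearMap)
    (fun u => ⟨⟨u, IntermediateField.mem_top⟩, rfl⟩)

theorem curveField_funField (Q : Ideal (MvPolynomial (Fin (N + 1)) ℂ)) [Q.IsPrime] (hz : ∃ z : Fin 1 → FunField Q, IsTranscendenceBasis ℂ z) :
    CurveField (FunField Q) := by
  obtain ⟨z, hz⟩ := hz
  obtain ⟨j, hj⟩ := Pool.Agent.H92.GT.Proj.exists_coordFun_ne_zero Q (k := 0) z hz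
  obtain ⟨y, -, hygen, -⟩ := Pool.Agent.H92.GT.Proj.proj_point Q hj
  exact funF_core (K := FunField Q) y hygen hz

end Pool.Agent.H13.CV

end
end

section

/-!
# The affine part of the cone of a homogeneous prime ideal

PROOF of `mem_pts_iff`.  Write `a i = ratio P i l`, so `aeval a Q = gen P l Q` and `a l = 1`
(`ratio_self`).
(→) `aeval a (X l - 1) = 0` gives `w l = 1`.  For `Q ∈ P` its components `Q_d` are in `P` (`Homog P`), so
`gen P l Q_d = 0` (`gen_eq_zero_iff`) and `aeval a Q = ∑ aeval a Q_d = 0`; hence `eval w Q = 0`.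
(←) Let `aeval a R = 0`, `D = R.totalDegree` and `R' = ∑ d ∈ range (D + 1), X l ^ (D - d) * R_d`
(`R_d = homogeneousComponent d R`), homogeneous of degree `D`.  Since `a l = 1`,
`gen P l R' = ∑ aeval a R_d = aeval a R = 0`, so `R' ∈ P` (`gen_eq_zero_iff`), and
`0 = eval w R' = ∑ w l ^ (D - d) * eval w R_d = eval w R` since `w l = 1`
(`MvPolynomial.sum_homogeneousComponent`).

PROOF of `euler`.  For the component `Q_d ∈ P`: `∑ x i * eval x (pderiv i Q_d) = d * eval x Q_d = 0`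
(`IsHomogeneous.sum_X_mul_pderiv`); sum over `d`.
-/

open MvPolynomial
open Pool.Agent.H17GT (coordFun functionField)
open Pool.Agent.H17LG.Variety (FunField ratio)
open Pool.Agent.H62.FC (Homog)

noncomputable section

namespace Pool.Agent.H13.SM

variable {N : ℕ} {P : Ideal (MvPolynomial (Fin (N + 1)) ℂ)}

private theorem hg_smul {d : ℕ} {Q : MvPolynomial (Fin (N + 1)) ℂ} (hQ : Q.IsHomogeneous d) (c : ℂ)
    (x : Fin (N + 1) → ℂ) : eval (c • x) Q = c ^ d * eval x Q := by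
  rw [eval_eq', eval_eq', Finset.mul_sum]
  refine Finset.sum_congr rfl fun m hm => ?_
  have h1 : ∏ i, (c • x) i ^ m i = c ^ d * ∏ i, x i ^ m i := by
    simp only [Pi.smul_apply, smul_eq_mul, mul_pow, Finset.prod_mul_distrib]
    rw [Finset.prod_pow_eq_pow_sum]
    have h2 := hQ (mem_support_iff.1 hm)
    rw [Finsupp.weight_apply, Finsupp.sum_fintype _ _ (by simp)] at h2
    simp only [Pi.one_apply, smul_eq_mul, mul_one] at h2
    rw [h2]
  rw [h1]
  ring

theorem mem_pts_iff [P.IsPrime] (hP : Homog P) {l : Fin (N + 1)} (h : coordFun P l ≠ 0)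
    {w : Fin (N + 1) → ℂ} :
    w ∈ pts (fun i => ratio P i l) ↔ w l = 1 ∧ ∀ Q ∈ P, eval w Q = 0 := by
  have hll := Pool.Agent.H17R.ratio_self h
  constructor
  · intro hw
    refine ⟨?_, fun Q hQ => hw Q ?_⟩
    · have h1 := hw (X l - 1) (by rw [map_sub, aeval_X, map_one, hll, sub_self])
      rw [map_sub, eval_X, map_one, sub_eq_zero] at h1
      exact h1
    · rw [← sum_homogeneousComponent Q, map_sum]
      exact Finset.sum_eq_zero fun d _ =>
        (Pool.Agent.H17R.gen_eq_zero_iff h (homogeneousComponent_isHomogeneous d Q)).2 (hP Q hQ d)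
  · rintro ⟨hl, hw⟩ R hR
    have h1 : ∀ {B : Type} [CommRing B] [Algebra ℂ B] (φ : MvPolynomial (Fin (N + 1)) ℂ →ₐ[ℂ] B)
        (_ : φ (X l) = 1), φ (∑ d ∈ Finset.range (R.totalDegree + 1),
          X l ^ (R.totalDegree - d) * homogeneousComponent d R) = φ R := by
      intro B _ _ φ hφ
      conv_rhs => rw [← sum_homogeneousComponent R]
      rw [map_sum, map_sum]
      refine Finset.sum_congr rfl fun d _ => ?_
      rw [map_mul, map_pow, hφ, one_pow, one_mul]
    have h2 : (∑ d ∈ Finset.range (R.totalDegree + 1),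
        X l ^ (R.totalDegree - d) * homogeneousComponent d R).IsHomogeneous R.totalDegree := by
      refine IsHomogeneous.sum _ _ _ fun d hd => ?_
      have h3 := ((isHomogeneous_X ℂ l).pow (R.totalDegree - d)).mul
        (homogeneousComponent_isHomogeneous d R)
      have h4 := Finset.mem_range.1 hd
      rwa [one_mul, Nat.sub_add_cancel (by omega)] at h3
    have h3 := h1 (aeval fun i => ratio P i l) (by rw [aeval_X, hll])
    have h4 := hw _ ((Pool.Agent.H17R.gen_eq_zero_iff h h2).1 (by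
      unfold Pool.Agent.H17R.gen
      rw [h3, hR]))
    have h5 := h1 (aeval w : MvPolynomial (Fin (N + 1)) ℂ →ₐ[ℂ] ℂ) (by rw [aeval_X, hl])
    rw [← coe_aeval_eq_eval] at h4
    rw [← coe_aeval_eq_eval]
    exact h5.symm.trans h4

theorem euler (hP : Homog P) {x : Fin (N + 1) → ℂ} (hx : ∀ Q ∈ P, eval x Q = 0)
    {Q : MvPolynomial (Fin (N + 1)) ℂ} (hQ : Q ∈ P) : ∑ i, x i * eval x (pderiv i Q) = 0 := by
  have h1 : ∀ d, ∑ i, x i * eval x (pderiv i (homogeneousComponent d Q)) = 0 := by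
    intro d
    have h2 := congrArg (eval x) (homogeneousComponent_isHomogeneous d Q).sum_X_mul_pderiv
    rw [map_sum, map_nsmul, hx _ (hP Q hQ d), smul_zero] at h2
    simpa only [map_mul, eval_X] using h2
  rw [← sum_homogeneousComponent Q]
  simp only [map_sum, Finset.mul_sum]
  rw [Finset.sum_comm]
  exact Finset.sum_eq_zero fun d _ => h1 d

/-- The affine cone of `P` is a cone. -/
theorem cone_smul (hP : Homog P) {x : Fin (N + 1) → ℂ} (hx : ∀ Q ∈ P, eval x Q = 0) (c : ℂ) :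
    ∀ Q ∈ P, eval (c • x) Q = 0 := by
  intro Q hQ
  rw [← sum_homogeneousComponent Q, map_sum]
  refine Finset.sum_eq_zero fun d _ => ?_
  rw [hg_smul (homogeneousComponent_isHomogeneous d Q), hx _ (hP Q hQ d), mul_zero]

end Pool.Agent.H13.SM

end
end

section

/-!
# Bir Alg: birational maps and function fields

* `exists_form`: homogenisation.
* `funIso`: a generic point `x` of the variety of `Q`, with coordinates which generate the field `L`, gives `FunField Q ≃ L`.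
* `IsBir`: a birational map between the varieties of `P` and `P'`, given by forms.
* `exists_isBir`: it exists if the function fields are isomorphic.
* `exists_sub`: images of subvarieties.
-/

set_option autoImplicit false

open MvPolynomial

noncomputable section

namespace Pool.Agent.H7.Bir

open Pool.Agent.H17GT (coordFun functionField)
open Pool.Agent.H17LG.Variety (FunField ratio)
open Pool.Agent.H62.FC (Homog)
open Pool.Agent.H17R (gen gen_eq_zero_iff ratio_self adjoin_ratio coordFun_ne_zero_iff)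
open Pool.Agent.H92.GT.Proj (aeval_scale)

variable {N M : ℕ}

theorem exists_form (j : Fin (N + 1)) (p : MvPolynomial (Fin (N + 1)) ℂ) : ∃ D₀ : ℕ, ∀ D ≥ D₀,
    ∃ R : MvPolynomial (Fin (N + 1)) ℂ, R.IsHomogeneous D ∧
      ∀ (K : Type) [Field K] [Algebra ℂ K] (x : Fin (N + 1) → K), x j = 1 → aeval x R = aeval x p := by
  induction p using MvPolynomial.induction_on with
  | C c =>
    refine ⟨0, fun D _ => ⟨MvPolynomial.C c * X j ^ D, ?_, ?_⟩⟩
    · have h1 := (isHomogeneous_C (Fin (N + 1)) c).mul ((isHomogeneous_X ℂ j).pow D)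
      simpa using h1
    · intro K _ _ x hx
      simp [hx]
  | add p q hp hq =>
    obtain ⟨D₁, h1⟩ := hp
    obtain ⟨D₂, h2⟩ := hq
    refine ⟨max D₁ D₂, fun D hD => ?_⟩
    obtain ⟨R₁, h3, h4⟩ := h1 D ((le_max_left _ _).trans hD)
    obtain ⟨R₂, h5, h6⟩ := h2 D ((le_max_right _ _).trans hD)
    refine ⟨R₁ + R₂, h3.add h5, ?_⟩
    intro K _ _ x hx
    rw [map_add, map_add, h4 K x hx, h6 K x hx]
  | mul_X p i hp =>
    obtain ⟨D₁, h1⟩ := hp
    refine ⟨D₁ + 1, fun D hD => ?_⟩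
    obtain ⟨D', rfl⟩ : ∃ D', D = D' + 1 := ⟨D - 1, by omega⟩
    obtain ⟨R₁, h3, h4⟩ := h1 D' (by omega)
    refine ⟨R₁ * X i, h3.mul (isHomogeneous_X ℂ i), ?_⟩
    intro K _ _ x hx
    rw [map_mul, map_mul, h4 K x hx]

/-- Homogenisation of finitely many polynomials. -/
theorem exists_forms (j : Fin (N + 1)) {ι : Type} [Fintype ι] (p : ι → MvPolynomial (Fin (N + 1)) ℂ) : ∃ (D : ℕ)
    (R : ι → MvPolynomial (Fin (N + 1)) ℂ), (∀ i, (R i).IsHomogeneous D) ∧
      ∀ (K : Type) [Field K] [Algebra ℂ K] (x : Fin (N + 1) → K), x j = 1 → ∀ i, aeval x (R i) = aeval x (p i) := by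
  choose D₀ h using fun i => exists_form j (p i)
  choose R hR hR' using fun i => h i (∑ i, D₀ i) (Finset.single_le_sum (f := D₀) (fun i _ => Nat.zero_le _) (Finset.mem_univ i))
  exact ⟨∑ i, D₀ i, R, hR, fun K _ _ x hx i => hR' i K x hx⟩

open scoped IntermediateField.algebraAdjoinAdjoin in
/-- Finitely many elements of a field generated by `x` are quotients of forms in `x` with the same denominator. -/
theorem exists_quot {L : Type} [Field L] [Algebra ℂ L] {x : Fin (N + 1) → L} {j : Fin (N + 1)} (hx : x j = 1)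
    (hadj : IntermediateField.adjoin ℂ (Set.range x) = ⊤) (y : Fin (M + 1) → L) {j' : Fin (M + 1)} (hy : y j' = 1) :
    ∃ (D : ℕ) (α : Fin (M + 1) → MvPolynomial (Fin (N + 1)) ℂ), (∀ i, (α i).IsHomogeneous D) ∧ aeval x (α j') ≠ 0 ∧
      ∀ i, y i * aeval x (α j') = aeval x (α i) := by
  classical
  have hmem : ∀ i, y i ∈ IntermediateField.adjoin ℂ (Set.range x) := fun i => by
    rw [hadj]
    trivial
  obtain ⟨b, hb⟩ := IsLocalization.exist_integer_multiples_of_finset (nonZeroDivisors (Algebra.adjoin ℂ (Set.range x)))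
    (Finset.univ.image fun i => (⟨y i, hmem i⟩ : IntermediateField.adjoin ℂ (Set.range x)))
  have hpol : ∀ c : Algebra.adjoin ℂ (Set.range x), ∃ g : MvPolynomial (Fin (N + 1)) ℂ, aeval x g = (c : L) := by
    intro c
    obtain ⟨g, hg⟩ := (SetLike.ext_iff.1 (Algebra.adjoin_range_eq_range_aeval ℂ x) (c : L)).1 c.2
    exact ⟨g, hg⟩
  obtain ⟨q, hq⟩ := hpol b
  have hp : ∀ i, ∃ g : MvPolynomial (Fin (N + 1)) ℂ, aeval x g = y i * aeval x q := by
    intro i
    obtain ⟨c, hc⟩ := hb ⟨y i, hmem i⟩ (Finset.mem_image_of_mem _ (Finset.mem_univ i))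
    obtain ⟨g, hg⟩ := hpol c
    refine ⟨g, ?_⟩
    have h1 := congrArg Subtype.val hc
    rw [hg, hq, mul_comm]
    exact h1
  choose p hp using hp
  obtain ⟨D, α, hα, hα'⟩ := exists_forms j p
  have h1 : ∀ i, aeval x (α i) = y i * aeval x q := fun i => by rw [hα' L x hx i, hp]
  have h2 : aeval x q ≠ 0 := by
    rw [hq]
    intro h0
    exact nonZeroDivisors.ne_zero b.2 (Subtype.ext h0)
  refine ⟨D, α, hα, ?_, fun i => ?_⟩
  · rw [h1, hy, one_mul]
    exact h2
  · rw [h1, h1, hy, one_mul]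

open scoped IntermediateField.algebraAdjoinAdjoin in
theorem funIso {Q : Ideal (MvPolynomial (Fin (N + 1)) ℂ)} [Q.IsPrime] {j : Fin (N + 1)} (hj : coordFun Q j ≠ 0)
    {L : Type} [Field L] [Algebra ℂ L] {x : Fin (N + 1) → L} (hx : x j = 1)
    (hadj : IntermediateField.adjoin ℂ (Set.range x) = ⊤)
    (h : ∀ (n : ℕ) (G : MvPolynomial (Fin (N + 1)) ℂ), G.IsHomogeneous n → (aeval x G = 0 ↔ G ∈ Q)) :
    Nonempty (FunField Q ≃ₐ[ℂ] L) := by
  set ξ : Fin (N + 1) → FunField Q := fun i => ratio Q i j with hξ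
  have hker : RingHom.ker (aeval ξ : MvPolynomial (Fin (N + 1)) ℂ →ₐ[ℂ] FunField Q) =
      RingHom.ker (aeval x : MvPolynomial (Fin (N + 1)) ℂ →ₐ[ℂ] L) := by
    ext G
    rw [RingHom.mem_ker, RingHom.mem_ker]
    obtain ⟨D, h1⟩ := exists_form j G
    obtain ⟨R, h2, h3⟩ := h1 D le_rfl
    rw [← h3 _ ξ (ratio_self hj), ← h3 _ x hx, h D R h2]
    exact gen_eq_zero_iff hj h2
  have e1 : Algebra.adjoin ℂ (Set.range ξ) ≃ₐ[ℂ] Algebra.adjoin ℂ (Set.range x) :=
    (Subalgebra.equivOfEq _ _ (Algebra.adjoin_range_eq_range_aeval ℂ ξ)).trans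
      ((Ideal.quotientKerEquivRange (aeval ξ : MvPolynomial (Fin (N + 1)) ℂ →ₐ[ℂ] FunField Q)).symm.trans
        ((Ideal.quotientEquivAlgOfEq ℂ hker).trans
          ((Ideal.quotientKerEquivRange (aeval x : MvPolynomial (Fin (N + 1)) ℂ →ₐ[ℂ] L)).trans
            (Subalgebra.equivOfEq _ _ (Algebra.adjoin_range_eq_range_aeval ℂ x)).symm)))
  have e2 : IntermediateField.adjoin ℂ (Set.range ξ) ≃ₐ[ℂ] IntermediateField.adjoin ℂ (Set.range x) :=
    IsFractionRing.algEquivOfAlgEquiv e1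
  have e3 : IntermediateField.adjoin ℂ (Set.range ξ) ≃ₐ[ℂ] FunField Q :=
    (IntermediateField.equivOfEq (adjoin_ratio hj)).trans IntermediateField.topEquiv
  have e4 : IntermediateField.adjoin ℂ (Set.range x) ≃ₐ[ℂ] L :=
    (IntermediateField.equivOfEq hadj).trans IntermediateField.topEquiv
  exact ⟨e3.symm.trans (e2.trans e4)⟩

/-- The forms `α i` and `γ i` define birational maps, inverse to each other, between the varieties of `P` and `P'`. -/
structure IsBir (P : Ideal (MvPolynomial (Fin (N + 1)) ℂ)) (P' : Ideal (MvPolynomial (Fin (M + 1)) ℂ)) (D D' : ℕ)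
    (α : Fin (M + 1) → MvPolynomial (Fin (N + 1)) ℂ) (γ : Fin (N + 1) → MvPolynomial (Fin (M + 1)) ℂ)
    (j : Fin (N + 1)) (j' : Fin (M + 1)) : Prop where
  homα : ∀ i, (α i).IsHomogeneous D
  homγ : ∀ i, (γ i).IsHomogeneous D'
  maps : ∀ n R, R.IsHomogeneous n → (aeval γ R ∈ P' ↔ R ∈ P)
  hj' : X j' ∉ P'
  hγ : γ j ∉ P'
  hα : aeval γ (α j') ∉ P'
  inv : ∀ i, aeval γ (α i) * X j' - aeval γ (α j') * X i ∈ P'

theorem aeval_comp {K : Type} [Field K] [Algebra ℂ K] (x : Fin (M + 1) → K) (γ : Fin (N + 1) → MvPolynomial (Fin (M + 1)) ℂ)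
    (R : MvPolynomial (Fin (N + 1)) ℂ) : aeval x (aeval γ R) = aeval (fun i => aeval x (γ i)) R := by
  rw [← AlgHom.comp_apply, MvPolynomial.comp_aeval]

theorem aeval_div {K : Type} [Field K] [Algebra ℂ K] {n : ℕ} {R : MvPolynomial (Fin (N + 1)) ℂ} (hR : R.IsHomogeneous n)
    {c : K} (hc : c ≠ 0) (y : Fin (N + 1) → K) : aeval y R = c ^ n * aeval (fun i => y i / c) R := by
  rw [← aeval_scale hR]
  congr 2
  funext i
  rw [mul_div_cancel₀ _ hc]

theorem exists_isBir {P : Ideal (MvPolynomial (Fin (N + 1)) ℂ)} [P.IsPrime] {P' : Ideal (MvPolynomial (Fin (M + 1)) ℂ)}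
    [P'.IsPrime] (e : FunField P' ≃ₐ[ℂ] FunField P) {j : Fin (N + 1)} (hj : coordFun P j ≠ 0) {j' : Fin (M + 1)}
    (hj' : coordFun P' j' ≠ 0) :
    ∃ (D D' : ℕ) (α : Fin (M + 1) → MvPolynomial (Fin (N + 1)) ℂ) (γ : Fin (N + 1) → MvPolynomial (Fin (M + 1)) ℂ),
      IsBir P P' D D' α γ j j' := by
  set ξ : Fin (N + 1) → FunField P := fun i => ratio P i j with hξ
  set η : Fin (M + 1) → FunField P' := fun i => ratio P' i j' with hη
  have hξ1 : ξ j = 1 := ratio_self hj
  have hη1 : η j' = 1 := ratio_self hj'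
  obtain ⟨D, α, hα, hα0, hα1⟩ := exists_quot hξ1 (adjoin_ratio hj) (fun i => e (η i)) (j' := j') (by simp only [hη1, map_one])
  obtain ⟨D', γ, hγ, hγ0, hγ1⟩ := exists_quot hη1 (adjoin_ratio hj') (fun i => e.symm (ξ i)) (j' := j) (by
    simp only [hξ1, map_one])
  have h1 : (fun i => aeval η (γ i) / aeval η (γ j)) = fun i => e.symm (ξ i) := by
    funext i
    rw [← hγ1, mul_div_cancel_right₀ _ hγ0]
  have hsymm : ∀ R : MvPolynomial (Fin (N + 1)) ℂ, aeval (fun i => e.symm (ξ i)) R = e.symm (aeval ξ R) := by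
    intro R
    have h2 := DFunLike.congr_fun (MvPolynomial.comp_aeval ξ (e.symm : FunField P →ₐ[ℂ] FunField P')) R
    exact h2.symm
  have h2 : ∀ (n : ℕ) (R : MvPolynomial (Fin (N + 1)) ℂ), R.IsHomogeneous n →
      aeval η (aeval γ R) = aeval η (γ j) ^ n * e.symm (aeval ξ R) := by
    intro n R hR
    rw [aeval_comp, aeval_div hR hγ0, h1, hsymm]
  have hα2 : aeval η (aeval γ (α j')) ≠ 0 := by
    rw [h2 D _ (hα j')]
    refine mul_ne_zero (pow_ne_zero _ hγ0) fun h => hα0 ?_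
    have h3 := congrArg e h
    rwa [e.apply_symm_apply, map_zero] at h3
  refine ⟨D, D', α, γ, hα, hγ, ?_, (coordFun_ne_zero_iff).1 hj', ?_, ?_, ?_⟩
  · intro n R hR
    have h3 : (aeval γ R).IsHomogeneous (D' * n) := hR.aeval γ hγ
    rw [← gen_eq_zero_iff hj' h3, ← gen_eq_zero_iff hj hR]
    change aeval η (aeval γ R) = 0 ↔ aeval ξ R = 0
    rw [h2 n R hR, mul_eq_zero, map_eq_zero_iff e.symm e.symm.injective]
    exact ⟨fun h => h.resolve_left (pow_ne_zero _ hγ0), Or.inr⟩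
  · intro h
    exact hγ0 ((gen_eq_zero_iff hj' (hγ j)).2 h)
  · intro h
    exact hα2 ((gen_eq_zero_iff hj' ((hα j').aeval γ hγ)).2 h)
  · intro i
    have h3 : (aeval γ (α i) * X j' - aeval γ (α j') * X i : MvPolynomial (Fin (M + 1)) ℂ).IsHomogeneous (D' * D + 1) :=
      ((((hα i).aeval γ hγ).mul (isHomogeneous_X ℂ j')).sub (((hα j').aeval γ hγ).mul (isHomogeneous_X ℂ i)))
    rw [← gen_eq_zero_iff hj' h3]
    change aeval η _ = 0
    rw [map_sub, map_mul, map_mul, aeval_X, aeval_X, h2 D _ (hα i), h2 D _ (hα j'), ← hα1 i, map_mul, e.symm_apply_apply, hη1]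
    ring

theorem aeval_scale' {A : Type} [CommRing A] [Algebra ℂ A] {G : MvPolynomial (Fin (N + 1)) ℂ} {n : ℕ}
    (hG : G.IsHomogeneous n) (c : A) (x : Fin (N + 1) → A) :
    aeval (fun i => x i * c) G = aeval x G * c ^ n := by
  rw [aeval_def, aeval_def, eval₂_eq, eval₂_eq, Finset.sum_mul]
  refine Finset.sum_congr rfl fun m hm => ?_
  have h5 : ∑ i ∈ m.support, m i = n := by
    have := hG (mem_support_iff.1 hm)
    rw [Finsupp.weight_apply, Finsupp.sum] at this
    simpa using this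
  simp only [mul_pow, Finset.prod_mul_distrib]
  rw [Finset.prod_pow_eq_pow_sum, h5]
  ring

/-- The homogeneous ideal of a point with coordinates in a field. -/
def pointIdeal {L : Type} [Field L] [Algebra ℂ L] (x : Fin (N + 1) → L) : Ideal (MvPolynomial (Fin (N + 1)) ℂ) :=
  RingHom.ker (aeval fun i => Polynomial.C (x i) * Polynomial.X : MvPolynomial (Fin (N + 1)) ℂ →ₐ[ℂ] Polynomial L)

instance {L : Type} [Field L] [Algebra ℂ L] (x : Fin (N + 1) → L) : (pointIdeal x).IsPrime :=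
  RingHom.ker_isPrime _

theorem point_aeval {L : Type} [Field L] [Algebra ℂ L] (x : Fin (N + 1) → L) {n : ℕ} {R : MvPolynomial (Fin (N + 1)) ℂ}
    (hR : R.IsHomogeneous n) : aeval (fun i => Polynomial.C (x i) * Polynomial.X) R =
      Polynomial.C (aeval x R) * (Polynomial.X : Polynomial L) ^ n := by
  rw [aeval_scale' hR]
  congr 1
  exact MvPolynomial.aeval_algebraMap_apply (B := Polynomial L) x R

theorem mem_pointIdeal_form {L : Type} [Field L] [Algebra ℂ L] (x : Fin (N + 1) → L) {n : ℕ} {R : MvPolynomial (Fin (N + 1)) ℂ}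
    (hR : R.IsHomogeneous n) : R ∈ pointIdeal x ↔ aeval x R = 0 := by
  unfold pointIdeal
  rw [RingHom.mem_ker, point_aeval x hR]
  constructor
  · intro h
    have h1 := congrArg (fun p => Polynomial.coeff p n) h
    simp only [Polynomial.coeff_C_mul, Polynomial.coeff_X_pow_self, mul_one, Polynomial.coeff_zero] at h1
    exact h1
  · intro h
    rw [h, map_zero, zero_mul]

theorem mem_pointIdeal {L : Type} [Field L] [Algebra ℂ L] (x : Fin (N + 1) → L) (R : MvPolynomial (Fin (N + 1)) ℂ) :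
    R ∈ pointIdeal x ↔ ∀ n, aeval x (homogeneousComponent n R) = 0 := by
  have h1 : aeval (fun i => Polynomial.C (x i) * Polynomial.X) R = ∑ n ∈ Finset.range (R.totalDegree + 1),
      Polynomial.C (aeval x (homogeneousComponent n R)) * (Polynomial.X : Polynomial L) ^ n := by
    conv_lhs => rw [← sum_homogeneousComponent R]
    rw [map_sum]
    exact Finset.sum_congr rfl fun n _ => point_aeval x (homogeneousComponent_isHomogeneous n R)
  constructor
  · intro h n
    by_cases hn : n ∈ Finset.range (R.totalDegree + 1)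
    · have h2 : aeval (fun i => Polynomial.C (x i) * Polynomial.X) R = (0 : Polynomial L) := h
      rw [h1] at h2
      have h3 := congrArg (fun p => Polynomial.coeff p n) h2
      simp only [Polynomial.finsetSum_coeff, Polynomial.coeff_C_mul, Polynomial.coeff_X_pow, Polynomial.coeff_zero,
        mul_ite, mul_one, mul_zero] at h3
      rw [Finset.sum_ite_eq, if_pos hn] at h3
      exact h3
    · rw [homogeneousComponent_eq_zero _ _ (by
        rw [Finset.mem_range] at hn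
        omega), map_zero]
  · intro h
    change aeval (fun i => Polynomial.C (x i) * Polynomial.X) R = (0 : Polynomial L)
    rw [h1]
    exact Finset.sum_eq_zero fun n _ => by rw [h n, map_zero, zero_mul]

theorem homog_pointIdeal {L : Type} [Field L] [Algebra ℂ L] (x : Fin (N + 1) → L) : Homog (pointIdeal x) := by
  intro R hR k
  rw [mem_pointIdeal_form x (homogeneousComponent_isHomogeneous k R)]
  exact (mem_pointIdeal x R).1 hR k

/-- The image of a subvariety. -/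
theorem exists_sub {P : Ideal (MvPolynomial (Fin (N + 1)) ℂ)} (hP : Homog P) {P' : Ideal (MvPolynomial (Fin (M + 1)) ℂ)}
    {D D' : ℕ} {α : Fin (M + 1) → MvPolynomial (Fin (N + 1)) ℂ} {γ : Fin (N + 1) → MvPolynomial (Fin (M + 1)) ℂ}
    {j : Fin (N + 1)} {j' : Fin (M + 1)} (h : IsBir P P' D D' α γ j j')
    {Q' : Ideal (MvPolynomial (Fin (M + 1)) ℂ)} [Q'.IsPrime] (hPQ : P' ≤ Q') (h1 : X j' ∉ Q') (h2 : γ j ∉ Q')
    (h3 : aeval γ (α j') ∉ Q') : ∃ (Q : Ideal (MvPolynomial (Fin (N + 1)) ℂ)) (_ : Q.IsPrime), Homog Q ∧ P ≤ Q ∧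
      Nonempty (FunField Q ≃ₐ[ℂ] FunField Q') ∧ ∀ n R, R.IsHomogeneous n → (R ∈ Q ↔ aeval γ R ∈ Q') := by
  have hj' : coordFun Q' j' ≠ 0 := coordFun_ne_zero_iff.2 h1
  set η : Fin (M + 1) → FunField Q' := fun i => ratio Q' i j' with hη
  have hη1 : η j' = 1 := ratio_self hj'
  have hc : aeval η (γ j) ≠ 0 := fun h0 => h2 ((gen_eq_zero_iff hj' (h.homγ j)).1 h0)
  set x : Fin (N + 1) → FunField Q' := fun i => aeval η (γ i) / aeval η (γ j) with hx
  have hx1 : x j = 1 := div_self hc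
  have hR : ∀ (n : ℕ) (R : MvPolynomial (Fin (N + 1)) ℂ), R.IsHomogeneous n →
      aeval η (aeval γ R) = aeval η (γ j) ^ n * aeval x R := by
    intro n R hR
    rw [aeval_comp, aeval_div hR hc]
  have hmem : ∀ (n : ℕ) (R : MvPolynomial (Fin (N + 1)) ℂ), R.IsHomogeneous n → (R ∈ pointIdeal x ↔ aeval γ R ∈ Q') := by
    intro n R hRn
    rw [mem_pointIdeal_form x hRn, ← gen_eq_zero_iff hj' (hRn.aeval γ h.homγ)]
    change _ ↔ aeval η (aeval γ R) = 0
    rw [hR n R hRn, mul_eq_zero]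
    exact ⟨Or.inr, fun h => h.resolve_left (pow_ne_zero _ hc)⟩
  have hcoord : coordFun (pointIdeal x) j ≠ 0 := by
    rw [coordFun_ne_zero_iff, mem_pointIdeal_form x (isHomogeneous_X ℂ j), aeval_X, hx1]
    exact one_ne_zero
  have hadj : IntermediateField.adjoin ℂ (Set.range x) = ⊤ := by
    have hpol : ∀ R : MvPolynomial (Fin (N + 1)) ℂ, aeval x R ∈ IntermediateField.adjoin ℂ (Set.range x) := by
      intro R
      have h4 : aeval x R ∈ Algebra.adjoin ℂ (Set.range x) := by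
        rw [Algebra.adjoin_range_eq_range_aeval]
        exact ⟨R, rfl⟩
      exact IntermediateField.algebra_adjoin_le_adjoin ℂ _ h4
    rw [eq_top_iff, ← adjoin_ratio hj', IntermediateField.adjoin_le_iff]
    rintro _ ⟨i, rfl⟩
    have h4 : aeval η (aeval γ (α i) * X j' - aeval γ (α j') * X i) = 0 := by
      have h5 : (aeval γ (α i) * X j' - aeval γ (α j') * X i : MvPolynomial (Fin (M + 1)) ℂ).IsHomogeneous (D' * D + 1) :=
        ((((h.homα i).aeval γ h.homγ).mul (isHomogeneous_X ℂ j')).sub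
          (((h.homα j').aeval γ h.homγ).mul (isHomogeneous_X ℂ i)))
      exact (gen_eq_zero_iff hj' h5).2 (hPQ (h.inv i))
    rw [map_sub, map_mul, map_mul, aeval_X, aeval_X, hR D _ (h.homα i), hR D _ (h.homα j'), hη1, mul_one] at h4
    have h5 : aeval x (α j') ≠ 0 := by
      intro h0
      apply h3
      rw [← hmem D _ (h.homα j'), mem_pointIdeal_form x (h.homα j')]
      exact h0
    have h6 : η i = aeval x (α i) / aeval x (α j') := by
      rw [eq_div_iff h5]
      have h7 : aeval η (γ j) ^ D ≠ 0 := pow_ne_zero _ hc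
      apply mul_left_cancel₀ h7
      linear_combination -h4
    change η i ∈ IntermediateField.adjoin ℂ (Set.range x)
    rw [h6]
    exact div_mem (hpol _) (hpol _)
  refine ⟨pointIdeal x, inferInstance, homog_pointIdeal x, ?_, ?_, hmem⟩
  · intro R hRP
    rw [mem_pointIdeal]
    intro n
    rw [← mem_pointIdeal_form x (homogeneousComponent_isHomogeneous n R), hmem n _ (homogeneousComponent_isHomogeneous n R)]
    exact hPQ ((h.maps n _ (homogeneousComponent_isHomogeneous n R)).2 (hP R hRP n))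
  · exact funIso hcoord hx1 hadj fun n G hG => (mem_pointIdeal_form x hG).symm

end Pool.Agent.H7.Bir

end
end

section

/-!
# SY Plug: the interface of step (b)

`StepB X T n`: the derivative of the curves of length one is bounded near the good points.
`NoBubbles X T n`: where a sequence of curves of length one converges off a point, it converges at the point (`m = 0`).
The theorem `stepB_of_noBubbles` (module `Joint`) deduces `StepB X T n` from `NoBubbles X T₀ n`, `T₀ ⊆ T`.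
`StepBAll P`, `NoBubblesAll P`: the same for every pseudo-length whose null curves of order two lie in a curve.
-/

set_option autoImplicit false

open Topology Filter Metric MvPolynomial

namespace Pool.Agent.SY

open Pool.Agent.H36.BP (EN fs wd Sub OrdTwo)
open Pool.Agent.H22.W (PseudoLength)
open Pool.Agent.H17 (PN VanishesAt HolomorphicInto)
open Pool.Agent.H13.OT (OrderTwo)
open Pool.Agent.H17EF (projVar coneE)
open Pool.Agent.H14.V (IsNull)

variable {N : ℕ}

/-- A limit of curves of length one at the point `0`: `exp (v k) • F k` converges near `0` to `z ^ m • (u z • H z)`, `u` without zeros,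
`H` again a curve of length one, not contained in `T`.  `m` is the degree of the bubble. -/
structure BubbleAt (X T : Set (EN N)) (n : PseudoLength X) (𝒰 : Ultrafilter ℕ) (F : ℕ → ℂ → EN N) (v : ℕ → ℂ → ℂ) (H : ℂ → EN N)
    (u : ℂ → ℂ) (r : ℝ) (m : ℕ) : Prop where
  le_atTop : (𝒰 : Filter ℕ) ≤ atTop
  r_pos : 0 < r
  cls : ∀ k, Cls T n (F k)
  diff_v : ∀ k, Differentiable ℂ (v k)
  cls_H : Cls T n H
  ord_H : OrdTwo H
  diff_u : DifferentiableOn ℂ u (ball 0 r)
  u_ne : ∀ z ∈ ball (0 : ℂ) r, u z ≠ 0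
  lim : TendstoLocallyUniformlyOn (fun k z => Complex.exp (v k z) • F k z) (fun z => z ^ m • (u z • H z)) 𝒰 (ball 0 r)

/-- There are no bubbles. -/
def NoBubbles (X T : Set (EN N)) (n : PseudoLength X) : Prop :=
  ∀ (𝒰 : Ultrafilter ℕ) (F : ℕ → ℂ → EN N) (v : ℕ → ℂ → ℂ) (H : ℂ → EN N) (u : ℂ → ℂ) (r : ℝ) (m : ℕ),
    BubbleAt X T n 𝒰 F v H u r m → m = 0

theorem NoBubbles.mono {X T₀ T : Set (EN N)} {n : PseudoLength X} (h : NoBubbles X T₀ n) (hT : T₀ ⊆ T) : NoBubbles X T n := by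
  intro 𝒰 F v H u r m hb
  have e : ∀ G : ℂ → EN N, Cls T n G → Cls T₀ n G := by
    rintro G ⟨⟨h1, h2, z, h3⟩, h4⟩
    exact ⟨⟨h1, h2, z, fun h => h3 (hT h)⟩, h4⟩
  exact h 𝒰 F v H u r m ⟨hb.le_atTop, hb.r_pos, fun k => e _ (hb.cls k), hb.diff_v, e _ hb.cls_H, hb.ord_H, hb.diff_u, hb.u_ne, hb.lim⟩

/-- The null curves of order two of `n` lie in `{R = 0}`. -/
def NullIn (P : Ideal (MvPolynomial (Fin (N + 1)) ℂ)) (n : PseudoLength (coneE P)) (R : MvPolynomial (Fin (N + 1)) ℂ) : Prop :=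
  ∀ f : ℂ → PN N, HolomorphicInto f Set.univ → OrderTwo f → (∀ z, f z ∈ projVar P) → (∃ z w, f z ≠ f w) → IsNull n f → ∀ z, VanishesAt R (f z)

/-- the cone of the curve `{Q = 0}` -/
def zer (P : Ideal (MvPolynomial (Fin (N + 1)) ℂ)) (Q : MvPolynomial (Fin (N + 1)) ℂ) : Set (EN N) :=
  {x | x ∈ coneE P ∧ eval x.ofLp Q = 0}

/-- No bubbles for every pseudo-length whose null curves of order two lie in a curve: THE TARGET OF THE EXTENSION. -/
def NoBubblesAll (P : Ideal (MvPolynomial (Fin (N + 1)) ℂ)) : Prop :=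
  ∀ (n : PseudoLength (coneE P)) (R : MvPolynomial (Fin (N + 1)) ℂ) (d : ℕ), R.IsHomogeneous d → R ∉ P → NullIn P n R →
    ∃ (R₀ : MvPolynomial (Fin (N + 1)) ℂ) (d₀ : ℕ), R₀.IsHomogeneous d₀ ∧ R₀ ∉ P ∧ NoBubbles (coneE P) (zer P R₀) n

end Pool.Agent.SY

end
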