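import Pool.Agent.H94.G6.M28
import Pool.Agent.H94.G6.M40
import Pool.Agent.H94.G6.M48
import Pool.Agent.H94.G6.M56
import Pool.Agent.H94.G6.M58
import Pool.Agent.H94.G6.M67
import Pool.Agent.H94.G6.M72

/-! The parts of this file: H13.CV.EllR, H36.BPL.NodalK, H36.TB.Nod, H62.FC.Trdeg, H17BP.TrdegLt, MQ.CDefs, MQ.LeafReg, SY.EiA. -/

section

/-!
# CV EllR: the relation between the generators

`ell_rel`: elimination: `v² / u³` has order `0`, value `c ≠ 0` at `E` (`exists_value`, `res_eq_zero_iff`): `v² - c u³` has order `≥ -5` (or is `0`); `uv` has order `-5`: subtract `a u v` with `a` the value of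
`(v² - c u³) / (u v)`: the order is `≥ -4`; subtract `d u²`, `b v`, `e u` in the same way: the rest has order `≥ -1` at `E`, no other poles, so it is a constant.
-/

set_option autoImplicit false

open Pool.Agent.H23.Fano (PrimeDivisorOver Form regularForms)

noncomputable section

namespace Pool.Agent.H13.CV

variable {K : Type} [Field K] [Algebra ℂ K]

private theorem step (hK : CurveField K) {E : Place K} {n : ℤ} {r g : K} (hr : (n : WithTop ℤ) ≤ E.ord r)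
    (hg0 : g ≠ 0) (hg : oz E g = n) : ∃ a : ℂ, ((n + 1 : ℤ) : WithTop ℤ) ≤ E.ord (r - algebraMap ℂ K a * g) := by
  have hq : 0 ≤ E.ord (r / g) := by
    rw [nonneg_iff]
    rcases le_ord_iff.1 hr with h | h
    · left
      rw [h, zero_div]
    · by_cases hr0 : r = 0
      · left
        rw [hr0, zero_div]
      · right
        rw [oz_div E hr0 hg0, hg]
        linarith
  obtain ⟨a, ha⟩ := exists_value hK hq
  refine ⟨a, ?_⟩
  have e : r - algebraMap ℂ K a * g = (r / g - algebraMap ℂ K a) * g := by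
    rw [sub_mul, div_mul_cancel₀ _ hg0]
  rw [e, le_ord_iff]
  by_cases h0 : r / g - algebraMap ℂ K a = 0
  · left
    rw [h0, zero_mul]
  · right
    rcases pos_iff.1 ha with h | h
    · exact absurd h h0
    · rw [oz_mul E h0 hg0, hg]
      linarith

theorem ell_rel (hK : CurveField K) {E : Place K} (h1 : ∀ f ∈ LD (dv E 1), ∃ c : ℂ, f = algebraMap ℂ K c) {u v : K} (hu : oz E u = -2) (hv : oz E v = -3)
    (hu' : ∀ E', E' ≠ E → 0 ≤ E'.ord u) (hv' : ∀ E', E' ≠ E → 0 ≤ E'.ord v) :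
    ∃ c a d b e f : ℂ, c ≠ 0 ∧ v ^ 2 = algebraMap ℂ K c * u ^ 3 + algebraMap ℂ K a * (u * v) + algebraMap ℂ K d * u ^ 2 + algebraMap ℂ K b * v +
      algebraMap ℂ K e * u + algebraMap ℂ K f := by
  have hu0 : u ≠ 0 := by
    rintro rfl
    rw [oz_zero] at hu
    norm_num at hu
  have hv0 : v ≠ 0 := by
    rintro rfl
    rw [oz_zero] at hv
    norm_num at hv
  have ozv2 : oz E (v ^ 2) = -6 := by
    rw [oz_pow, hv]
    norm_num
  have ozu3 : oz E (u ^ 3) = -6 := by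
    rw [oz_pow, hu]
    norm_num
  have ozu2 : oz E (u ^ 2) = -4 := by
    rw [oz_pow, hu]
    norm_num
  have ozuv : oz E (u * v) = -5 := by
    rw [oz_mul E hu0 hv0, hu, hv]
    norm_num
  obtain ⟨c, hc⟩ := step hK (E := E) (n := -6) (r := v ^ 2) (g := u ^ 3)
    (le_ord_iff.2 (Or.inr (le_of_eq ozv2.symm))) (pow_ne_zero 3 hu0) ozu3
  have hc0 : c ≠ 0 := by
    rintro rfl
    rw [map_zero, zero_mul, sub_zero] at hc
    rcases le_ord_iff.1 hc with h | h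
    · exact pow_ne_zero 2 hv0 h
    · rw [ozv2] at h
      norm_num at h
  obtain ⟨a, ha⟩ := step hK (E := E) (n := -5) (r := v ^ 2 - algebraMap ℂ K c * u ^ 3) (g := u * v)
    (by simpa using hc) (mul_ne_zero hu0 hv0) ozuv
  obtain ⟨d, hd⟩ := step hK (E := E) (n := -4) (r := v ^ 2 - algebraMap ℂ K c * u ^ 3 - algebraMap ℂ K a * (u * v)) (g := u ^ 2)
    (by simpa using ha) (pow_ne_zero 2 hu0) ozu2
  obtain ⟨b, hb⟩ := step hK (E := E) (n := -3)
    (r := v ^ 2 - algebraMap ℂ K c * u ^ 3 - algebraMap ℂ K a * (u * v) - algebraMap ℂ K d * u ^ 2) (g := v)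
    (by simpa using hd) hv0 hv
  obtain ⟨e, he⟩ := step hK (E := E) (n := -2)
    (r := v ^ 2 - algebraMap ℂ K c * u ^ 3 - algebraMap ℂ K a * (u * v) - algebraMap ℂ K d * u ^ 2 - algebraMap ℂ K b * v) (g := u)
    (by simpa using hb) hu0 hu
  obtain ⟨f, hf⟩ := h1 (v ^ 2 - algebraMap ℂ K c * u ^ 3 - algebraMap ℂ K a * (u * v) - algebraMap ℂ K d * u ^ 2 -
    algebraMap ℂ K b * v - algebraMap ℂ K e * u) (by
      rw [mem_LD]
      intro E'
      by_cases hE : E' = E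
      · subst hE
        have : dv E' 1 E' = 1 := by simp [dv]
        rw [this]
        simpa using he
      · have : dv E 1 E' = 0 := by simp [dv, hE]
        rw [this]
        have hu1 := hu' E' hE
        have hv1 := hv' E' hE
        have := nonneg_sub (nonneg_sub (nonneg_sub (nonneg_sub (nonneg_sub (nonneg_pow hv1 2)
          (nonneg_mul (const_nonneg E' c) (nonneg_pow hu1 3)))
          (nonneg_mul (const_nonneg E' a) (nonneg_mul hu1 hv1)))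
          (nonneg_mul (const_nonneg E' d) (nonneg_pow hu1 2)))
          (nonneg_mul (const_nonneg E' b) hv1))
          (nonneg_mul (const_nonneg E' e) hu1)
        simpa using this)
  exact ⟨c, a, d, b, e, f, hc0, by linear_combination hf⟩

end Pool.Agent.H13.CV

end
end

section

/-!
# BPL NodalK: the nodal theorem for open surfaces
-/

set_option autoImplicit false

namespace Pool.Agent.H36.BPL

open Filter Topology Metric
open Pool.Agent.H17 (PN HolomorphicInto puncturedDisc)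
open Pool.Agent.H17BP (Surface IsChart IsForm NoZeros NodalAt)
open Pool.Agent.H36.BP
open Pool.Agent.H14.PP (IsCone IsOpenPart IsNodal Chart HasType DType gD aCoef Form IsEq)

variable {V : Type} [NormedAddCommGroup V] [NormedSpace ℂ V] {N : ℕ}

theorem analyticAt_gD (d : Bool × Bool) (p : ℂ × ℂ) : AnalyticAt ℂ (gD d) p := by
  unfold gD
  refine AnalyticAt.mul ?_ ?_
  · split_ifs
    · exact analyticAt_fst
    · exact analyticAt_const
  · split_ifs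
    · exact analyticAt_snd
    · exact analyticAt_const

/-- points with non-zero coordinates near a given point -/
theorem freq_ne (p : ℂ × ℂ) : ∃ᶠ y in 𝓝 p, y.1 ≠ 0 ∧ y.2 ≠ 0 := by
  have h1 : Tendsto (fun e : ℂ => (p.1 + e, p.2 + e)) (𝓝[≠] 0) (𝓝 p) := by
    have h2 : Continuous (fun e : ℂ => (p.1 + e, p.2 + e)) := by fun_prop
    have h3 := h2.tendsto 0
    simp only [add_zero] at h3
    exact h3.mono_left nhdsWithin_le_nhds
  refine h1.frequently (Filter.Eventually.frequently ?_)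
  have h4 : ∀ a : ℂ, ∀ᶠ e : ℂ in 𝓝[≠] 0, a + e ≠ 0 := by
    intro a
    by_cases ha : a = 0
    · rw [ha]
      filter_upwards [self_mem_nhdsWithin] with e he
      simpa using he
    · have h5 : ContinuousAt (fun e : ℂ => a + e) 0 := (continuous_const.add continuous_id).continuousAt
      have h6 : ∀ᶠ e : ℂ in 𝓝 0, a + e ≠ 0 := h5.eventually_ne (by simpa using ha)
      exact h6.filter_mono nhdsWithin_le_nhds
  filter_upwards [h4 p.1, h4 p.2] with e h5 h6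
  exact ⟨h5, h6⟩

/-- the pole bound in a chart -/
theorem poleBound_transport (L : V ≃L[ℂ] EN N) {X K : Set V} {m j : ℕ} {Ω : V → V → V → ℂ} (hΩ : IsForm K m j Ω)
    (hp : PoleLE X K (m - 1) Ω) : (formT L hΩ).PoleBound (L.symm ⁻¹' X : Set (EN N)) := by
  classical
  intro χ d hd
  set φ : ℂ × ℂ → V := fun p => L.symm (χ.σ p) with hφ
  have hφa : ∀ p ∈ ball (0 : ℂ × ℂ) 2, AnalyticAt ℂ φ p := fun p hp =>
    ((L.symm : EN N →L[ℂ] V).analyticAt _).comp (χ.σ_an p hp)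
  have hφd : ∀ p ∈ ball (0 : ℂ × ℂ) 2, ∀ v, fderiv ℂ φ p v = L.symm (fderiv ℂ χ.σ p v) := by
    intro p hp v
    have h3 : HasFDerivAt φ ((L.symm : EN N →L[ℂ] V).comp (fderiv ℂ χ.σ p)) p :=
      (L.symm : EN N →L[ℂ] V).hasFDerivAt.comp p (χ.σ_an p hp).differentiableAt.hasFDerivAt
    rw [h3.fderiv]
    rfl
  have hφX : ∀ p ∈ ball (0 : ℂ × ℂ) 2, φ p ∈ X := fun p hp => (χ.σ_mem p hp).1
  have hφK : ∀ p ∈ ball (0 : ℂ × ℂ) 2, (φ p ∉ K ↔ (d.1 = true ∧ p.1 = 0) ∨ (d.2 = true ∧ p.2 = 0)) := fun p hp => hd p hp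
  have hco : ∀ p ∈ ball (0 : ℂ × ℂ) 2, aCoef (formT L hΩ) χ p = Ω (φ p) (fderiv ℂ φ p (1, 0)) (fderiv ℂ φ p (0, 1)) := by
    intro p hp
    rw [hφd p hp, hφd p hp]
    rfl
  have hex : ∀ p ∈ ball (0 : ℂ × ℂ) 2, ∃ b : ℂ × ℂ → ℂ, AnalyticAt ℂ b p ∧
      ∀ᶠ y in 𝓝 p, φ y ∈ K → b y = gD d y ^ (m - 1) * Ω (φ y) (fderiv ℂ φ y (1, 0)) (fderiv ℂ φ y (0, 1)) := by
    intro p hpb
    refine hp.pow (hφa p hpb) ?_ (analyticAt_gD d p) ?_
    · filter_upwards [isOpen_ball.mem_nhds hpb] with y hy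
      exact hφX y hy
    · filter_upwards [isOpen_ball.mem_nhds hpb] with y hy h1
      rcases (hφK y hy).mp h1 with h2 | h2
      · simp [gD, h2.1, h2.2]
      · simp [gD, h2.1, h2.2]
  choose! B hBa hBe using hex
  set b : ℂ × ℂ → ℂ := fun p => if φ p ∈ K then gD d p ^ (m - 1) * Ω (φ p) (fderiv ℂ φ p (1, 0)) (fderiv ℂ φ p (0, 1)) else B p p with hb
  refine ⟨b, fun p hpb => ?_, fun p hpb hpK => ?_⟩
  · refine (hBa p hpb).congr ?_
    have h1 := (hBe p hpb).eventually_nhds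
    filter_upwards [(hBa p hpb).eventually_analyticAt, h1, isOpen_ball.mem_nhds hpb] with y hy1 hy2 hy3
    by_cases hyK : φ y ∈ K
    · have h2 : b y = gD d y ^ (m - 1) * Ω (φ y) (fderiv ℂ φ y (1, 0)) (fderiv ℂ φ y (0, 1)) := if_pos hyK
      rw [h2]
      exact hy2.self_of_nhds hyK
    · have h2 : b y = B y y := if_neg hyK
      rw [h2]
      have h3 : ∃ᶠ q in 𝓝 y, B p q = B y q := by
        refine ((freq_ne y).and_eventually (hy2.and ((hBe y hy3).and (isOpen_ball.mem_nhds hy3)))).mono ?_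
        rintro q ⟨⟨hq1, hq2⟩, hq3, hq4, hq5⟩
        have hqK : φ q ∈ K := by
          by_contra hcon
          rcases (hφK q hq5).mp hcon with h | h
          · exact hq1 h.2
          · exact hq2 h.2
        rw [hq3 hqK, hq4 hqK]
      have h4 : ContinuousAt (fun q => B p q - B y q) y := hy1.continuousAt.sub (hBa y hy3).continuousAt
      by_contra hne
      have h5 : (fun q => B p q - B y q) y ≠ 0 := sub_ne_zero.mpr hne
      exact h3 ((h4.eventually_ne h5).mono fun q hq h6 => hq (sub_eq_zero.mpr h6))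
  · show b p = gD d p ^ (m - 1) * aCoef (formT L hΩ) χ p
    have h2 : b p = gD d p ^ (m - 1) * Ω (φ p) (fderiv ℂ φ p (1, 0)) (fderiv ℂ φ p (0, 1)) := if_pos hpK
    rw [h2, hco p hpb]

/-- transport of a proper map -/
theorem affProper_transport (L : V ≃L[ℂ] EN N) {X K : Set V} {M : ℕ} {Φ : V → Fin M → ℂ} (h : AffProper X K Φ) :
    AffProper (L.symm ⁻¹' X : Set (EN N)) (L.symm ⁻¹' K) (fun y => Φ (L.symm y)) where
  smul x hx c hc := by
    rw [map_smul]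
    exact h.smul _ hx c hc
  cont := h.cont.comp L.symm.continuous.continuousOn fun x hx => hx
  hol F z₀ hF hFK := h.hol (fun z => L.symm (F z)) z₀ (((L.symm : EN N →L[ℂ] V).analyticAt _).comp hF) hFK
  proper x hx hxK R := (L.symm.continuous.tendsto x).eventually (h.proper _ hx hxK R)
  iso F z₀ hF hFX := h.iso (fun z => L.symm (F z)) z₀ (((L.symm : EN N →L[ℂ] V).analyticAt _).comp hF) hFX

end Pool.Agent.H36.BPL

end

section

/-!
# TB Nod: the metric of the nodal case with two-sided bounds, for surfaces in `ℙ(V)`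
-/

set_option autoImplicit false

open Topology Filter Metric

noncomputable section

namespace Pool.Agent.H36.TB

open Pool.Agent.H36.BP
open Pool.Agent.H14.PP (IsCone IsOpenPart IsEq IsNodal Form HasType DType Chart ACoef aCoef rho)
open Pool.Agent.H17BP (Surface IsForm NoZeros NodalAt IsChart)

variable {N : ℕ}

/-- the chart of a germ of a chart, with the parametrisation -/
theorem exists_chartP {X : Set (EN N)} (hX : IsCone X) {σ : ℂ × ℂ → EN N} {τ : EN N → ℂ × ℂ} (h : IsGermChart X σ τ)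
    {S : ℂ × ℂ → Prop} (hnd : ∀ᶠ p in 𝓝 (0 : ℂ × ℂ), S p) :
    ∃ (χ : Chart X) (r : ℝ) (a : ℂ × ℂ → ℂ), 0 < r ∧ ∀ p ∈ ball (0 : ℂ × ℂ) 2, a p ≠ 0 ∧ AnalyticAt ℂ a p ∧
      χ.σ p = a p • σ ((r : ℂ) • p) ∧ AnalyticAt ℂ σ ((r : ℂ) • p) ∧ S ((r : ℂ) • p) := by
  have hσ0 : σ 0 ≠ 0 := by
    intro h0
    have h1 := h.σ_mem.self_of_nhds
    rw [h0] at h1
    exact hX.zero_notMem h1
  -- the linear form
  obtain ⟨ℓ, hℓ⟩ : ∃ ℓ : EN N →L[ℂ] ℂ, ℓ (σ 0) = 1 := by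
    have hne : inner ℂ (σ 0) (σ 0) ≠ (0 : ℂ) := inner_self_ne_zero.mpr hσ0
    refine ⟨(inner ℂ (σ 0) (σ 0) : ℂ)⁻¹ • innerSL ℂ (σ 0), ?_⟩
    simp only [_root_.smul_apply, innerSL_apply_apply, smul_eq_mul]
    exact inv_mul_cancel₀ hne
  -- the normalised parametrisation
  have hℓσ : ContinuousAt (fun p => ℓ (σ p)) 0 := ℓ.continuous.continuousAt.comp h.σ_an.continuousAt
  have hℓne : ∀ᶠ p in 𝓝 (0 : ℂ × ℂ), ℓ (σ p) ≠ 0 := hℓσ.eventually_ne (by rw [hℓ]; exact one_ne_zero)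
  have hinvσ : ∀ᶠ p in 𝓝 (0 : ℂ × ℂ), τ ((ℓ (σ p))⁻¹ • σ p) = τ (σ p) := by
    have hc : Tendsto (fun p => (σ p, (ℓ (σ p))⁻¹)) (𝓝 (0 : ℂ × ℂ)) (𝓝 (σ 0, (1 : ℂ))) := by
      have h1 : Tendsto (fun p => (ℓ (σ p))⁻¹) (𝓝 (0 : ℂ × ℂ)) (𝓝 (ℓ (σ 0))⁻¹) := hℓσ.inv₀ (by rw [hℓ]; exact one_ne_zero)
      rw [hℓ, inv_one] at h1
      exact h.σ_an.continuousAt.prodMk_nhds h1
    exact hc.eventually h.inv
  -- the neighbourhood W₀
  have hW : ∀ᶠ y in 𝓝 (σ 0), AnalyticAt ℂ τ y ∧ (y ∈ X → ∃ c : ℂ, c ≠ 0 ∧ y = c • σ (τ y)) := h.τ_an.eventually_analyticAt.and h.right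
  obtain ⟨W₀, hW₀s, hW₀o, hW₀m⟩ := _root_.eventually_nhds_iff.mp hW
  have hσ₁ : Tendsto (fun p => (ℓ (σ p))⁻¹ • σ p) (𝓝 (0 : ℂ × ℂ)) (𝓝 (σ 0)) := by
    have h1 : Tendsto (fun p => (ℓ (σ p))⁻¹) (𝓝 (0 : ℂ × ℂ)) (𝓝 (ℓ (σ 0))⁻¹) := hℓσ.inv₀ (by rw [hℓ]; exact one_ne_zero)
    have h2 := h1.smul h.σ_an.continuousAt
    rwa [hℓ, inv_one, one_smul] at h2
  have hσ₁W : ∀ᶠ p in 𝓝 (0 : ℂ × ℂ), (ℓ (σ p))⁻¹ • σ p ∈ W₀ := hσ₁.eventually (hW₀o.mem_nhds hW₀m)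
  obtain ⟨R, hR, hall⟩ := Metric.eventually_nhds_iff_ball.mp
    ((((((h.σ_an.eventually_analyticAt.and h.σ_mem).and h.left).and hℓne).and hinvσ).and hσ₁W).and hnd)
  set r : ℝ := R / 2 with hr
  have hr0 : 0 < r := by rw [hr]; positivity
  have hrC : (r : ℂ) ≠ 0 := by exact_mod_cast hr0.ne'
  have hball : ∀ p ∈ ball (0 : ℂ × ℂ) 2, (r : ℂ) • p ∈ ball (0 : ℂ × ℂ) R := by
    intro p hp
    rw [mem_ball_zero_iff] at hp ⊢
    rw [norm_smul, Complex.norm_real, Real.norm_of_nonneg hr0.le, hr]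
    nlinarith only [hR, hp]
  have hτσ : ∀ p ∈ ball (0 : ℂ × ℂ) R, τ ((ℓ (σ p))⁻¹ • σ p) = p := by
    intro p hp
    rw [(hall p hp).1.1.2, (hall p hp).1.1.1.1.2]
  set U : Set (EN N) := {x | ℓ x ≠ 0 ∧ (ℓ x)⁻¹ • x ∈ W₀ ∧ ‖τ ((ℓ x)⁻¹ • x)‖ < R} with hU
  have hmaps : ∀ x : EN N, ℓ x ≠ 0 → ∀ c : ℂ, c ≠ 0 → (ℓ (c • x))⁻¹ • (c • x) = (ℓ x)⁻¹ • x := by
    intro x hx c hc
    rw [map_smul, smul_eq_mul, smul_smul, mul_inv, mul_comm c⁻¹, mul_assoc, inv_mul_cancel₀ hc, mul_one]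
  have han1 : ∀ x : EN N, ℓ x ≠ 0 → AnalyticAt ℂ (fun y : EN N => (ℓ y)⁻¹ • y) x := by
    intro x hx
    exact ((ℓ.analyticAt x).inv hx).smul analyticAt_id
  have hanq : ∀ x ∈ U, AnalyticAt ℂ (fun y : EN N => τ ((ℓ y)⁻¹ • y)) x := by
    intro x hx
    exact AnalyticAt.fun_comp (hW₀s _ hx.2.1).1 (han1 x hx.1)
  have hUopen : IsOpen U := by
    rw [isOpen_iff_mem_nhds]
    intro x hx
    have h1 : ∀ᶠ y in 𝓝 x, ℓ y ≠ 0 := ℓ.continuous.continuousAt.eventually_ne hx.1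
    have h2 : ∀ᶠ y in 𝓝 x, (ℓ y)⁻¹ • y ∈ W₀ := (han1 x hx.1).continuousAt.eventually (hW₀o.mem_nhds hx.2.1)
    have h3 : ∀ᶠ y in 𝓝 x, ‖τ ((ℓ y)⁻¹ • y)‖ < R := (hanq x hx).continuousAt.norm.eventually_lt_const hx.2.2
    filter_upwards [h1, h2, h3] with y h4 h5 h6
    exact ⟨h4, h5, h6⟩
  let χ : Chart X :=
    { σ := fun p => (ℓ (σ ((r : ℂ) • p)))⁻¹ • σ ((r : ℂ) • p)
      U := U
      q := fun x => (r : ℂ)⁻¹ • τ ((ℓ x)⁻¹ • x)
      isOpen_U := hUopen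
      smul_U := by
        rintro x ⟨h1, h2, h3⟩ c hc
        refine ⟨?_, ?_, ?_⟩
        · rw [map_smul, smul_eq_mul]
          exact mul_ne_zero hc h1
        · rw [hmaps x h1 c hc]; exact h2
        · rw [hmaps x h1 c hc]; exact h3
      σ_an := by
        intro p hp
        have h1 := (hall _ (hball p hp)).1.1.1.1.1.1
        have h2 : AnalyticAt ℂ (fun p : ℂ × ℂ => σ ((r : ℂ) • p)) p :=
          AnalyticAt.fun_comp h1 (analyticAt_const.fun_smul analyticAt_id)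
        have h3 : AnalyticAt ℂ (fun p : ℂ × ℂ => ℓ (σ ((r : ℂ) • p))) p := (ℓ.analyticAt _).fun_comp h2
        exact (h3.inv (hall _ (hball p hp)).1.1.1.2).smul h2
      q_an := by
        intro x hx
        exact analyticAt_const.fun_smul (hanq x hx)
      q_smul := by
        rintro x ⟨h1, h2, h3⟩ c hc
        show (r : ℂ)⁻¹ • τ ((ℓ (c • x))⁻¹ • (c • x)) = _
        rw [hmaps x h1 c hc]
      σ_mem := by
        intro p hp
        have hb := hball p hp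
        have hh := hall _ hb
        have hne := hh.1.1.1.2
        have h1 : ℓ ((ℓ (σ ((r : ℂ) • p)))⁻¹ • σ ((r : ℂ) • p)) = 1 := by
          rw [map_smul, smul_eq_mul, inv_mul_cancel₀ hne]
        have h2 : τ ((ℓ (σ ((r : ℂ) • p)))⁻¹ • σ ((r : ℂ) • p)) = (r : ℂ) • p := hτσ _ hb
        refine ⟨hX.smul_mem _ hh.1.1.1.1.1.2 _ (inv_ne_zero hne), ⟨?_, ?_, ?_⟩, ?_⟩
        · rw [h1]; exact one_ne_zero
        · rw [h1, inv_one, one_smul]; exact hh.1.2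
        · rw [h1, inv_one, one_smul, h2]
          exact mem_ball_zero_iff.mp hb
        · show (r : ℂ)⁻¹ • τ ((ℓ ((ℓ (σ ((r : ℂ) • p)))⁻¹ • σ ((r : ℂ) • p)))⁻¹ • ((ℓ (σ ((r : ℂ) • p)))⁻¹ • σ ((r : ℂ) • p))) = p
          rw [h1, inv_one, one_smul, h2, smul_smul, inv_mul_cancel₀ hrC, one_smul]
      surj := by
        rintro x hxX ⟨h1, h2, h3⟩
        have hyX : (ℓ x)⁻¹ • x ∈ X := hX.smul_mem _ hxX _ (inv_ne_zero h1)
        obtain ⟨c, hc0, hc⟩ := (hW₀s _ h2).2 hyX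
        have hτb : τ ((ℓ x)⁻¹ • x) ∈ ball (0 : ℂ × ℂ) R := mem_ball_zero_iff.mpr h3
        have hrq : (r : ℂ) • ((r : ℂ)⁻¹ • τ ((ℓ x)⁻¹ • x)) = τ ((ℓ x)⁻¹ • x) := by
          rw [smul_smul, mul_inv_cancel₀ hrC, one_smul]
        refine ⟨?_, ?_⟩
        · show (r : ℂ)⁻¹ • τ ((ℓ x)⁻¹ • x) ∈ ball (0 : ℂ × ℂ) 2
          rw [mem_ball_zero_iff, norm_smul, norm_inv, Complex.norm_real, Real.norm_of_nonneg hr0.le, inv_mul_lt_iff₀ hr0, hr]
          linarith only [h3]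
        · refine ⟨ℓ x * c * ℓ (σ (τ ((ℓ x)⁻¹ • x))), ?_, ?_⟩
          · exact mul_ne_zero (mul_ne_zero h1 hc0) (hall _ hτb).1.1.1.2
          · show x = (ℓ x * c * ℓ (σ (τ ((ℓ x)⁻¹ • x)))) •
              ((ℓ (σ ((r : ℂ) • ((r : ℂ)⁻¹ • τ ((ℓ x)⁻¹ • x)))))⁻¹ • σ ((r : ℂ) • ((r : ℂ)⁻¹ • τ ((ℓ x)⁻¹ • x))))
            rw [hrq, smul_smul, mul_assoc, mul_inv_cancel₀ (hall _ hτb).1.1.1.2, mul_one, mul_smul, ← hc, smul_smul, mul_inv_cancel₀ h1, one_smul] }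
  refine ⟨χ, r, fun p => (ℓ (σ ((r : ℂ) • p)))⁻¹, hr0, fun p hp => ?_⟩
  have hh := hall _ (hball p hp)
  have hne := hh.1.1.1.2
  have h1 := hh.1.1.1.1.1.1
  have h2 : AnalyticAt ℂ (fun p : ℂ × ℂ => σ ((r : ℂ) • p)) p :=
    AnalyticAt.fun_comp h1 (analyticAt_const.fun_smul analyticAt_id)
  have h3 : AnalyticAt ℂ (fun p : ℂ × ℂ => ℓ (σ ((r : ℂ) • p))) p := (ℓ.analyticAt _).fun_comp h2
  exact ⟨inv_ne_zero hne, h3.inv hne, rfl, h1, hh.2⟩

/-! ## the transformation of the coefficient of the form and of the metric -/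

section transfer

variable {V : Type} [NormedAddCommGroup V] [NormedSpace ℂ V] {X : Set V} {m j : ℕ} {Ω : V → V → V → ℂ}

/-- the coefficient in the chart -/
theorem ACoef_germ (L : V ≃L[ℂ] EN N) (hX : Surface X) (hm : 1 ≤ m) (hΩ : IsForm X m j Ω) {σ : ℂ × ℂ → V}
    {χ : Chart (L.symm ⁻¹' X : Set (EN N))} {r : ℝ} {a : ℂ × ℂ → ℂ} (hr : 0 < r)
    (h : ∀ p ∈ ball (0 : ℂ × ℂ) 2, a p ≠ 0 ∧ AnalyticAt ℂ a p ∧
      χ.σ p = a p • L (σ ((r : ℂ) • p)) ∧ AnalyticAt ℂ (fun p => L (σ p)) ((r : ℂ) • p) ∧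
        (AnalyticAt ℂ σ ((r : ℂ) • p) ∧ ∀ᶠ q in 𝓝 ((r : ℂ) • p), σ q ∈ X)) {p : ℂ × ℂ} (hp : p ∈ ball (0 : ℂ × ℂ) 2) :
    (∀ w, fderiv ℂ χ.σ p w = a p • ((r : ℂ) • L (fderiv ℂ σ ((r : ℂ) • p) w)) + (fderiv ℂ a p w) • L (σ ((r : ℂ) • p))) ∧
    ACoef (formT L hΩ) χ p = r ^ 2 * (‖oC Ω σ ((r : ℂ) • p)‖ ^ (1 / (m : ℝ)) * ‖L (σ ((r : ℂ) • p))‖ ^ ((j : ℝ) / m)) := by
  obtain ⟨ha0, haa, hσ, -, hσa, hσX⟩ := h p hp
  have hF : IsForm X m j Ω := hΩ
  -- the derivative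
  have hd : ∀ w, fderiv ℂ χ.σ p w = a p • ((r : ℂ) • L (fderiv ℂ σ ((r : ℂ) • p) w)) + (fderiv ℂ a p w) • L (σ ((r : ℂ) • p)) := by
    intro w
    have hev : χ.σ =ᶠ[𝓝 p] fun q => a q • L (σ ((r : ℂ) • q)) := by
      filter_upwards [isOpen_ball.mem_nhds hp] with q hq
      exact (h q hq).2.2.1
    have h1 : HasFDerivAt (fun q : ℂ × ℂ => (r : ℂ) • q) ((r : ℂ) • ContinuousLinearMap.id ℂ (ℂ × ℂ)) p :=
      (hasFDerivAt_id p).const_smul (r : ℂ)
    have h2 : HasFDerivAt (fun q => σ ((r : ℂ) • q)) ((fderiv ℂ σ ((r : ℂ) • p)).comp ((r : ℂ) • ContinuousLinearMap.id ℂ (ℂ × ℂ))) p :=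
      HasFDerivAt.comp (g := σ) (f := fun q : ℂ × ℂ => (r : ℂ) • q) p hσa.differentiableAt.hasFDerivAt h1
    have h3 : HasFDerivAt (fun q => L (σ ((r : ℂ) • q)))
        ((L : V →L[ℂ] EN N).comp ((fderiv ℂ σ ((r : ℂ) • p)).comp ((r : ℂ) • ContinuousLinearMap.id ℂ (ℂ × ℂ)))) p :=
      HasFDerivAt.comp (g := fun y => L y) (f := fun q => σ ((r : ℂ) • q)) p (L : V →L[ℂ] EN N).hasFDerivAt h2
    have h4 := (haa.differentiableAt.hasFDerivAt.smul h3).congr_of_eventuallyEq hev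
    rw [h4.fderiv]
    simp
  refine ⟨hd, ?_⟩
  -- the tangent vectors
  set x : V := σ ((r : ℂ) • p) with hx
  set a₀ := a p with ha₀
  have hrC : (r : ℂ) ≠ 0 := by exact_mod_cast hr.ne'
  set v₁ : V := fderiv ℂ σ ((r : ℂ) • p) (1, 0) with hv₁
  set v₂ : V := fderiv ℂ σ ((r : ℂ) • p) (0, 1) with hv₂
  have hxX : x ∈ X := hσX.self_of_nhds
  have haxX : a₀ • x ∈ X := hX.smul x hxX a₀ ha0
  have htan : ∀ (φ : ℂ × ℂ → V) (q : ℂ × ℂ), AnalyticAt ℂ φ q → (∀ᶠ y in 𝓝 q, φ y ∈ X) → ∀ w,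
      fderiv ℂ φ q w ∈ Pool.Agent.H17BP.Tan X (φ q) := by
    intro φ q hφ hφX w
    have e0 : q + (0 : ℂ) • w = q := by rw [zero_smul, add_zero]
    have hlin : AnalyticAt ℂ (fun z : ℂ => q + z • w) 0 := by fun_prop
    refine ⟨fun z => φ (q + z • w), ?_, ?_, by simp, ?_⟩
    · exact AnalyticAt.comp (g := φ) (f := fun z : ℂ => q + z • w) (by rw [e0]; exact hφ) hlin
    · have ht : Tendsto (fun z : ℂ => q + z • w) (𝓝 0) (𝓝 q) := by
        have := hlin.continuousAt.tendsto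
        rwa [e0] at this
      exact ht.eventually hφX
    · have h1 : HasFDerivAt φ (fderiv ℂ φ q) (q + (0 : ℂ) • w) := by
        rw [e0]
        exact hφ.differentiableAt.hasFDerivAt
      have h2 : HasDerivAt (fun z : ℂ => q + z • w) w 0 := by
        have h3 : HasDerivAt (fun z : ℂ => z • w) ((1 : ℂ) • w) 0 := (hasDerivAt_id (0 : ℂ)).smul_const w
        rw [one_smul] at h3
        exact h3.const_add q
      exact (h1.comp_hasDerivAt (0 : ℂ) h2).deriv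
  have t₁ : ∀ w, fderiv ℂ σ ((r : ℂ) • p) w ∈ Pool.Agent.H17BP.Tan X x := fun w => htan σ _ hσa hσX w
  have t₂ : ∀ w, a₀ • fderiv ℂ σ ((r : ℂ) • p) w ∈ Pool.Agent.H17BP.Tan X (a₀ • x) := by
    intro w
    have h1 := htan (fun y => a₀ • σ y) ((r : ℂ) • p) (analyticAt_const.fun_smul hσa) (by
      filter_upwards [hσX] with y hy
      exact hX.smul _ hy _ ha0) w
    have h2 : fderiv ℂ (fun y => a₀ • σ y) ((r : ℂ) • p) w = a₀ • fderiv ℂ σ ((r : ℂ) • p) w := by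
      have h3 : HasFDerivAt (fun y => a₀ • σ y) (a₀ • fderiv ℂ σ ((r : ℂ) • p)) ((r : ℂ) • p) :=
        hσa.differentiableAt.hasFDerivAt.const_smul a₀
      rw [h3.fderiv]
      rfl
    rwa [h2] at h1
  have t₃ : ∀ w, a₀ • ((r : ℂ) • fderiv ℂ σ ((r : ℂ) • p) w) ∈ Pool.Agent.H17BP.Tan X (a₀ • x) := by
    intro w
    have h1 := t₂ ((r : ℂ) • w)
    rwa [map_smul] at h1
  -- the coefficient
  have hcoef : a₀ ^ j * aCoef (formT L hΩ) χ p = ((r : ℂ) * r) ^ m * oC Ω σ ((r : ℂ) • p) := by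
    have e1 : aCoef (formT L hΩ) χ p = Ω (a₀ • x) (a₀ • ((r : ℂ) • v₁) + (fderiv ℂ a p (1, 0) * a₀⁻¹) • (a₀ • x))
        (a₀ • ((r : ℂ) • v₂) + (fderiv ℂ a p (0, 1) * a₀⁻¹) • (a₀ • x)) := by
      show Ω (L.symm (χ.σ p)) (L.symm (fderiv ℂ χ.σ p (1, 0))) (L.symm (fderiv ℂ χ.σ p (0, 1))) = _
      rw [hσ, hd, hd]
      simp only [map_add, map_smul, L.symm_apply_apply, smul_smul, mul_assoc, inv_mul_cancel₀ ha0, mul_one]
      rfl
    have e2 := hF.add_smul (a₀ • x) haxX _ (t₃ (1, 0)) _ (t₃ (0, 1)) (fderiv ℂ a p (1, 0) * a₀⁻¹) (fderiv ℂ a p (0, 1) * a₀⁻¹)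
    have e3 := hF.det (a₀ • x) haxX _ (t₂ (1, 0)) _ (t₂ (0, 1)) (r : ℂ) 0 0 (r : ℂ)
    have e4 := hF.scale x hxX _ (t₁ (1, 0)) _ (t₁ (0, 1)) a₀ ha0
    rw [zero_smul, add_zero, zero_smul, zero_add] at e3
    rw [e1, e2, smul_comm a₀ (r : ℂ) v₁, smul_comm a₀ (r : ℂ) v₂, e3]
    have e5 : ((r : ℂ) * r - 0 * 0) = (r : ℂ) * r := by ring
    rw [e5]
    show a₀ ^ j * (((r : ℂ) * r) ^ m * Ω (a₀ • x) (a₀ • v₁) (a₀ • v₂)) = _
    rw [mul_left_comm, e4]
    rfl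
  have hn : ‖a₀‖ ^ j * ‖aCoef (formT L hΩ) χ p‖ = (r ^ 2) ^ m * ‖oC Ω σ ((r : ℂ) • p)‖ := by
    have h1 := congrArg norm hcoef
    rw [norm_mul, norm_mul, norm_pow, norm_pow, norm_mul, Complex.norm_real, Real.norm_of_nonneg hr.le] at h1
    rw [h1]
    ring
  have hmR : (0 : ℝ) < (m : ℝ) := by exact_mod_cast hm
  have han : 0 < ‖a₀‖ := norm_pos_iff.2 ha0
  have hroot : (‖a₀‖ ^ j * ‖aCoef (formT L hΩ) χ p‖) ^ (1 / (m : ℝ)) = ((r ^ 2) ^ m * ‖oC Ω σ ((r : ℂ) • p)‖) ^ (1 / (m : ℝ)) := by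
    rw [hn]
  rw [Real.mul_rpow (by positivity) (norm_nonneg _), Real.mul_rpow (by positivity) (norm_nonneg _),
    ← Real.rpow_natCast ‖a₀‖ j, ← Real.rpow_natCast (r ^ 2) m,
    ← Real.rpow_mul han.le, ← Real.rpow_mul (by positivity)] at hroot
  have h1 : (m : ℝ) * (1 / (m : ℝ)) = 1 := by
    field_simp
  have h2 : (j : ℝ) * (1 / (m : ℝ)) = (j : ℝ) / m := by ring
  rw [h1, h2, Real.rpow_one] at hroot
  unfold ACoef
  rw [hσ, norm_smul, Real.mul_rpow han.le (norm_nonneg _)]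
  calc ‖aCoef (formT L hΩ) χ p‖ ^ (1 / (m : ℝ)) * (‖a₀‖ ^ ((j : ℝ) / m) * ‖L x‖ ^ ((j : ℝ) / m))
      = (‖a₀‖ ^ ((j : ℝ) / m) * ‖aCoef (formT L hΩ) χ p‖ ^ (1 / (m : ℝ))) * ‖L x‖ ^ ((j : ℝ) / m) := by ring
    _ = _ := by rw [hroot]; ring

/-- change of the scale of the parameters -/
theorem rpow_scale {κ x y R : ℝ} (hκ0 : 0 ≤ κ) (hκ : κ ≤ 1 / 4) (hx : 0 ≤ x) (hy : 0 ≤ y) (hR : 1 ≤ R) (h : x ≤ R * y) :
    x ^ (1 - κ) ≤ R * y ^ (1 - κ) := by
  refine (Real.rpow_le_rpow hx h (by linarith only [hκ])).trans ?_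
  rw [Real.mul_rpow (by linarith) hy]
  refine mul_le_mul_of_nonneg_right ?_ (Real.rpow_nonneg hy _)
  have := Real.rpow_le_rpow_of_exponent_le hR (show 1 - κ ≤ 1 by linarith)
  rwa [Real.rpow_one] at this

theorem sm_scale {κ R : ℝ} (hκ0 : 0 ≤ κ) (hκ : κ ≤ 1 / 4) (hR : 1 ≤ R) {p q : ℂ × ℂ} (h : ‖p.1‖ ≤ R * ‖q.1‖) (w : ℂ × ℂ) :
    sm κ p w ≤ R * sm κ q w := by
  have h1 := rpow_scale hκ0 hκ (norm_nonneg p.1) (norm_nonneg q.1) hR h
  have h2 := norm_nonneg w.2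
  unfold sm
  rw [mul_max_of_nonneg _ _ (by linarith only [hR] : 0 ≤ R)]
  refine max_le_max ?_ ?_
  · exact le_mul_of_one_le_left (norm_nonneg _) hR
  · rw [← mul_assoc]
    exact mul_le_mul_of_nonneg_right h1 h2

theorem sn_scale {κ R : ℝ} (hκ0 : 0 ≤ κ) (hκ : κ ≤ 1 / 4) (hR : 1 ≤ R) {p q : ℂ × ℂ} (h : ‖p.1‖ ≤ R * ‖q.1‖) (h' : ‖p.2‖ ≤ R * ‖q.2‖)
    (w : ℂ × ℂ) : sn κ p w ≤ R * sn κ q w := by
  have h1 := rpow_scale hκ0 hκ (norm_nonneg p.1) (norm_nonneg q.1) hR h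
  have h1' := rpow_scale hκ0 hκ (norm_nonneg p.2) (norm_nonneg q.2) hR h'
  unfold sn
  rw [mul_max_of_nonneg _ _ (by linarith only [hR] : 0 ≤ R)]
  refine max_le_max ?_ ?_
  · rw [← mul_assoc]
    exact mul_le_mul_of_nonneg_right h1' (norm_nonneg _)
  · rw [← mul_assoc]
    exact mul_le_mul_of_nonneg_right h1 (norm_nonneg _)

/-- the bounds in terms of the germ `σ` from the bounds in terms of the chart -/
theorem transfer (L : V ≃L[ℂ] EN N) (hX : Surface X) (hm : 1 ≤ m) (hΩ : IsForm X m j Ω) {σ : ℂ × ℂ → V} {τ : V → ℂ × ℂ}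
    (hc : IsChart X σ τ) {B : Set (EN N)} {G : EN N → EN N → ℝ} {ρ : EN N → ℝ} {M : ℕ} {c₀ C : ℝ}
    (hG : MetricData (L.symm ⁻¹' X : Set (EN N)) B G ρ M c₀ C) {S : ℂ × ℂ → Prop} (hS : ∀ᶠ p in 𝓝 (0 : ℂ × ℂ), S p) :
    ∃ (χ : Chart (L.symm ⁻¹' X : Set (EN N))) (r : ℝ) (a : ℂ × ℂ → ℂ), 0 < r ∧
      (∀ p ∈ ball (0 : ℂ × ℂ) 2, a p ≠ 0 ∧ χ.σ p = a p • L (σ ((r : ℂ) • p)) ∧ S ((r : ℂ) • p)) ∧
      ∀ md : ℂ × ℂ → ℂ × ℂ → ℝ, (∀ y w, 0 ≤ md y w) → ∀ R : ℝ, 1 ≤ R → (∀ p w, md p w ≤ R * md ((r : ℂ) • p) w) →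
        (∀ p w, md ((r : ℂ) • p) w ≤ R * md p w) →
        ((∃ B : ℝ, 1 ≤ B ∧ ∀ᶠ y in 𝓝 (0 : ℂ × ℂ), ∀ w, G (χ.σ y) (fderiv ℂ χ.σ y w) ≤ B * (ACoef (formT L hΩ) χ y * md y w)) →
          ∃ A : ℝ, 1 ≤ A ∧ ∀ᶠ p in 𝓝 (0 : ℂ × ℂ), ∀ w,
            G (L (σ p)) (L (fderiv ℂ σ p w)) ≤ A * (‖oC Ω σ p‖ ^ (1 / (m : ℝ)) * md p w)) ∧
        ((∃ B : ℝ, 1 ≤ B ∧ ∀ᶠ y in 𝓝 (0 : ℂ × ℂ), ∀ w, ACoef (formT L hΩ) χ y * md y w ≤ B * G (χ.σ y) (fderiv ℂ χ.σ y w)) →
          ∃ A : ℝ, 1 ≤ A ∧ ∀ᶠ p in 𝓝 (0 : ℂ × ℂ), ∀ w,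
            ‖oC Ω σ p‖ ^ (1 / (m : ℝ)) * md p w ≤ A * G (L (σ p)) (L (fderiv ℂ σ p w))) := by
  have hcone : IsCone (L.symm ⁻¹' X : Set (EN N)) := isCone_transport L hX
  have hg := germ_transport L hc
  have : FiniteDimensional ℂ V := L.symm.toLinearEquiv.finiteDimensional
  have : CompleteSpace V := FiniteDimensional.complete ℂ V
  have hσ0 : ∀ᶠ p in 𝓝 (0 : ℂ × ℂ), AnalyticAt ℂ σ p ∧ ∀ᶠ q in 𝓝 p, σ q ∈ X :=
    hc.σ_an.eventually_analyticAt.and hc.σ_mem.eventually_nhds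
  obtain ⟨χ, r, a, hr, hall⟩ := exists_chartP hcone hg (S := fun p => (AnalyticAt ℂ σ p ∧ ∀ᶠ q in 𝓝 p, σ q ∈ X) ∧ S p) (hσ0.and hS)
  have hrC : (r : ℂ) ≠ 0 := by exact_mod_cast hr.ne'
  refine ⟨χ, r, a, hr, fun p hp => ⟨(hall p hp).1, (hall p hp).2.2.1, (hall p hp).2.2.2.2.2⟩, fun md hmd R hR h1 h2 => ?_⟩
  have hall' : ∀ p ∈ ball (0 : ℂ × ℂ) 2, a p ≠ 0 ∧ AnalyticAt ℂ a p ∧
      χ.σ p = a p • L (σ ((r : ℂ) • p)) ∧ AnalyticAt ℂ (fun p => L (σ p)) ((r : ℂ) • p) ∧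
        (AnalyticAt ℂ σ ((r : ℂ) • p) ∧ ∀ᶠ q in 𝓝 ((r : ℂ) • p), σ q ∈ X) := fun p hp =>
    ⟨(hall p hp).1, (hall p hp).2.1, (hall p hp).2.2.1, (hall p hp).2.2.2.1, (hall p hp).2.2.2.2.1⟩
  -- the metric
  have hGt : ∀ p ∈ ball (0 : ℂ × ℂ) 2, ∀ w, G (χ.σ p) (fderiv ℂ χ.σ p w) =
      r * G (L (σ ((r : ℂ) • p))) (L (fderiv ℂ σ ((r : ℂ) • p) w)) := by
    intro p hp w
    obtain ⟨b1, b2, b3, b4, b5, b6⟩ := hall' p hp
    have hmem : L (σ ((r : ℂ) • p)) ∈ (L.symm ⁻¹' X : Set (EN N)) := by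
      show L.symm (L (σ ((r : ℂ) • p))) ∈ X
      rw [L.symm_apply_apply]
      exact b6.self_of_nhds
    rw [(ACoef_germ L hX hm hΩ hr hall' hp).1 w, b3, hG.inv _ hmem _ _ _ b1, hG.hom _ hmem, Complex.norm_real, Real.norm_of_nonneg hr.le]
  -- the norm of the parametrisation
  set n₀ : ℝ := ‖L (σ 0)‖ with hn₀
  have hn₀0 : 0 < n₀ := norm_pos_iff.2 fun h0 => hc.ne (L.map_eq_zero_iff.1 h0)
  have hmR : (0 : ℝ) < (m : ℝ) := by exact_mod_cast hm
  have hjm : 0 ≤ (j : ℝ) / m := by positivity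
  have hcont : ContinuousAt (fun p => ‖L (σ p)‖) 0 := (hg.σ_an.continuousAt).norm
  have f1 : ∀ᶠ p in 𝓝 (0 : ℂ × ℂ), n₀ / 2 < ‖L (σ p)‖ := hcont.eventually (lt_mem_nhds (by linarith only [hn₀0]))
  have f2 : ∀ᶠ p in 𝓝 (0 : ℂ × ℂ), ‖L (σ p)‖ < n₀ + 1 := hcont.eventually (gt_mem_nhds (by linarith only))
  set A₁ : ℝ := (n₀ / 2) ^ ((j : ℝ) / m) with hA₁
  set A₂ : ℝ := (n₀ + 1) ^ ((j : ℝ) / m) with hA₂
  have hA₁0 : 0 < A₁ := Real.rpow_pos_of_pos (by linarith only [hn₀0]) _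
  have hA₂0 : 0 < A₂ := Real.rpow_pos_of_pos (by linarith only [hn₀0]) _
  have hinv : Tendsto (fun p : ℂ × ℂ => (r : ℂ)⁻¹ • p) (𝓝 0) (𝓝 0) := by
    have h3 : Continuous (fun p : ℂ × ℂ => (r : ℂ)⁻¹ • p) := by fun_prop
    have := h3.tendsto 0
    rwa [smul_zero] at this
  have hb : ∀ᶠ p in 𝓝 (0 : ℂ × ℂ), (r : ℂ)⁻¹ • p ∈ ball (0 : ℂ × ℂ) 2 := hinv.eventually (ball_mem_nhds 0 (by norm_num))
  have hrr : ∀ p : ℂ × ℂ, (r : ℂ) • ((r : ℂ)⁻¹ • p) = p := fun p => by rw [smul_smul, mul_inv_cancel₀ hrC, one_smul]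
  constructor
  · rintro ⟨B₁, hB₁, hev⟩
    refine ⟨max 1 (B₁ * r * A₂ * R), le_max_left _ _, ?_⟩
    filter_upwards [hinv.eventually hev, hb, f2] with p e1 e2 e3 w
    have e4 := e1 w
    rw [hGt _ e2, (ACoef_germ L hX hm hΩ hr hall' e2).2, hrr] at e4
    have e5 : ‖L (σ p)‖ ^ ((j : ℝ) / m) ≤ A₂ := Real.rpow_le_rpow (norm_nonneg _) e3.le hjm
    have e6 : md ((r : ℂ)⁻¹ • p) w ≤ R * md p w := by
      have := h1 ((r : ℂ)⁻¹ • p) w
      rwa [hrr] at this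
    have e7 : 0 ≤ md p w := hmd p w
    have e8 : 0 ≤ ‖oC Ω σ p‖ ^ (1 / (m : ℝ)) := Real.rpow_nonneg (norm_nonneg _) _
    have e9 : 0 ≤ ‖L (σ p)‖ ^ ((j : ℝ) / m) := Real.rpow_nonneg (norm_nonneg _) _
    have e10 : 0 ≤ md ((r : ℂ)⁻¹ • p) w := hmd _ w
    have e11 : r * G (L (σ p)) (L (fderiv ℂ σ p w)) ≤ r * (B₁ * r * A₂ * R * (‖oC Ω σ p‖ ^ (1 / (m : ℝ)) * md p w)) := by
      refine e4.trans ?_
      calc B₁ * (r ^ 2 * (‖oC Ω σ p‖ ^ (1 / (m : ℝ)) * ‖L (σ p)‖ ^ ((j : ℝ) / m)) * md ((r : ℂ)⁻¹ • p) w)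
          ≤ B₁ * (r ^ 2 * (‖oC Ω σ p‖ ^ (1 / (m : ℝ)) * A₂) * (R * md p w)) := by gcongr
        _ = _ := by ring
    have e12 : G (L (σ p)) (L (fderiv ℂ σ p w)) ≤ B₁ * r * A₂ * R * (‖oC Ω σ p‖ ^ (1 / (m : ℝ)) * md p w) :=
      le_of_mul_le_mul_left e11 hr
    exact e12.trans (mul_le_mul_of_nonneg_right (le_max_right _ _) (mul_nonneg e8 e7))
  · rintro ⟨B₁, hB₁, hev⟩
    refine ⟨max 1 (B₁ * R / (r * A₁)), le_max_left _ _, ?_⟩
    filter_upwards [hinv.eventually hev, hb, f1, hc.σ_mem] with p e1 e2 e3 e0 w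
    have e4 := e1 w
    rw [hGt _ e2, (ACoef_germ L hX hm hΩ hr hall' e2).2, hrr] at e4
    have e5 : A₁ ≤ ‖L (σ p)‖ ^ ((j : ℝ) / m) := Real.rpow_le_rpow (by linarith only [hn₀0]) e3.le hjm
    have e6 : md p w ≤ R * md ((r : ℂ)⁻¹ • p) w := by
      have := h2 ((r : ℂ)⁻¹ • p) w
      rwa [hrr] at this
    have e7 : 0 ≤ md p w := hmd p w
    have e8 : 0 ≤ ‖oC Ω σ p‖ ^ (1 / (m : ℝ)) := Real.rpow_nonneg (norm_nonneg _) _
    have e10 : 0 ≤ md ((r : ℂ)⁻¹ • p) w := hmd _ w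
    have hmem : L (σ p) ∈ (L.symm ⁻¹' X : Set (EN N)) := by
      show L.symm (L (σ p)) ∈ X
      rw [L.symm_apply_apply]
      exact e0
    have e9 : 0 ≤ G (L (σ p)) (L (fderiv ℂ σ p w)) := hG.nonneg _ hmem _
    have e11 : r * (r * A₁ * (‖oC Ω σ p‖ ^ (1 / (m : ℝ)) * md p w)) ≤ r * (B₁ * R * G (L (σ p)) (L (fderiv ℂ σ p w))) := by
      calc r * (r * A₁ * (‖oC Ω σ p‖ ^ (1 / (m : ℝ)) * md p w))
          = r ^ 2 * (‖oC Ω σ p‖ ^ (1 / (m : ℝ)) * A₁) * md p w := by ring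
        _ ≤ r ^ 2 * (‖oC Ω σ p‖ ^ (1 / (m : ℝ)) * ‖L (σ p)‖ ^ ((j : ℝ) / m)) * (R * md ((r : ℂ)⁻¹ • p) w) := by gcongr
        _ = R * (r ^ 2 * (‖oC Ω σ p‖ ^ (1 / (m : ℝ)) * ‖L (σ p)‖ ^ ((j : ℝ) / m)) * md ((r : ℂ)⁻¹ • p) w) := by ring
        _ ≤ R * (B₁ * (r * G (L (σ p)) (L (fderiv ℂ σ p w)))) := mul_le_mul_of_nonneg_left e4 (by linarith only [hR])
        _ = _ := by ring
    have e12 := le_of_mul_le_mul_left e11 hr
    have e13 : 0 < r * A₁ := by positivity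
    calc ‖oC Ω σ p‖ ^ (1 / (m : ℝ)) * md p w = (r * A₁)⁻¹ * (r * A₁ * (‖oC Ω σ p‖ ^ (1 / (m : ℝ)) * md p w)) := by
          field_simp
      _ ≤ (r * A₁)⁻¹ * (B₁ * R * G (L (σ p)) (L (fderiv ℂ σ p w))) := mul_le_mul_of_nonneg_left e12 (by positivity)
      _ = B₁ * R / (r * A₁) * G (L (σ p)) (L (fderiv ℂ σ p w)) := by ring
      _ ≤ _ := mul_le_mul_of_nonneg_right (le_max_right _ _) e9

end transfer

end Pool.Agent.H36.TB

end
end

section

/-!
# Fermat covers: the dimension is monotone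

For homogeneous prime ideals `P ≤ Q` the transcendence degree of the function field of `Q` is at
most the transcendence degree of the function field of `P`: coordinates whose ratios are
algebraically independent on the variety of `Q` have the same property on the variety of `P`.
-/

noncomputable section

namespace Pool.Agent.H62.FC

open MvPolynomial
open Pool.Agent.H17GT (coordFun)
open Pool.Agent.H17LG.Variety (FunField)

variable {N : ℕ} {P : Ideal (MvPolynomial (Fin (N + 1)) ℂ)}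

/-- Coordinates which are algebraically independent on the smaller variety are so on the larger
one. -/
private lemma Trdeg_indep {K L : Type} [Field K] [Algebra ℂ K] [Field L] [Algebra ℂ L] {k : ℕ}
    {j : Fin (N + 1)} {x : Fin (N + 1) → K} {y : Fin (N + 1) → L} (hx : x j = 1) (hy : y j = 1)
    (h : ∀ (n : ℕ) (G : MvPolynomial (Fin (N + 1)) ℂ), G.IsHomogeneous n → aeval x G = 0 →
      aeval y G = 0) {J : Fin k → Fin (N + 1)} (hJ : AlgebraicIndependent ℂ fun i => y (J i)) :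
    AlgebraicIndependent ℂ fun i => x (J i) := by
  rw [algebraicIndependent_iff] at hJ ⊢
  intro p hp
  apply hJ
  set Af : Fin (k + 1) → MvPolynomial (Fin (N + 1)) ℂ := Fin.cons (X j) fun i => X (J i) with hAf
  have hAfhom : ∀ i, IsWeightedHomogeneous (1 : Fin (N + 1) → ℕ) (Af i) 1 := by
    intro i
    refine Fin.cases ?_ (fun i => ?_) i
    · exact isHomogeneous_X ℂ j
    · exact isHomogeneous_X ℂ (J i)
  have key : ∀ {K : Type} [Field K] [Algebra ℂ K] {x : Fin (N + 1) → K}, x j = 1 →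
      aeval x (Pool.Agent.H92.GT.hmg p Af) = aeval (fun i => x (J i)) p := by
    intro K _ _ x hx
    rw [Pool.Agent.H92.GT.map_hmg]
    have h0 : aeval x (Af 0) = 1 := by
      change aeval x (X j) = 1
      rw [aeval_X, hx]
    rw [Pool.Agent.H92.GT.hmg_eq p (by rw [h0]; exact one_ne_zero), h0, one_pow, one_mul]
    congr 2
    funext i
    change aeval x (X (J i)) / 1 = x (J i)
    rw [aeval_X, div_one]
  rw [← key hy]
  exact h _ _ (Pool.Agent.H92.GT.hmg_isWeightedHomogeneous p hAfhom) (by rw [key hx, hp])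

theorem trdeg_mono [P.IsPrime] {Q : Ideal (MvPolynomial (Fin (N + 1)) ℂ)} [Q.IsPrime]
    (hP : Homog P) (hQ : Homog Q) (hPQ : P ≤ Q) {r w : ℕ} (hr : ∃ z : Fin r → FunField P,
      IsTranscendenceBasis ℂ z) (hw : ∃ z : Fin w → FunField Q, IsTranscendenceBasis ℂ z) :
    w ≤ r := by
  rcases w with - | w
  · exact Nat.zero_le _
  obtain ⟨z, hz⟩ := hw
  obtain ⟨z', hz'⟩ := hr
  obtain ⟨j, hj⟩ := Pool.Agent.H92.GT.Proj.exists_coordFun_ne_zero Q (k := w) z hz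
  have hj' : coordFun P j ≠ 0 := by
    intro h0
    apply hj
    have h1 := (Pool.Agent.H92.GT.Proj.aeval_coordFun_eq_zero_iff P (X j)).1
      (by rw [aeval_X]; exact h0)
    have h2 := (Pool.Agent.H92.GT.Proj.aeval_coordFun_eq_zero_iff Q (X j)).2 (hPQ h1)
    rwa [aeval_X] at h2
  obtain ⟨y, hy1, hygen, hyker⟩ := Pool.Agent.H92.GT.Proj.proj_point Q hj
  obtain ⟨x, hx1, -, hxker⟩ := Pool.Agent.H92.GT.Proj.proj_point P hj'
  have halg : Algebra.IsAlgebraic (IntermediateField.adjoin ℂ (Set.range y))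
      (H17GT.functionField Q) := by
    rw [hygen]
    exact ⟨fun f => isAlgebraic_algebraMap (⟨f, IntermediateField.mem_top⟩ :
      (⊤ : IntermediateField ℂ (H17GT.functionField Q)))⟩
  obtain ⟨J, hJ⟩ := Pool.Agent.H92.GT.exists_index halg (z := z) hz
  have hind : AlgebraicIndependent ℂ fun i => x (J i) :=
    Trdeg_indep hx1 hy1 (fun n G hG h => (hyker n G hG).2 (hPQ ((hxker n G hG).1 h))) hJ.1
  have h1 := hind.cardinalMk_le_trdeg
  have h2 := IsTranscendenceBasis.cardinalMk_eq_trdeg (R := ℂ) (A := H17GT.functionField P)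
    (x := z') hz'
  rw [← h2, Cardinal.mk_fin, Cardinal.mk_fin, Nat.cast_le] at h1
  exact h1

end Pool.Agent.H62.FC

end
end

section

/-!
# The dimension of a proper closed subvariety is smaller

Start as in the proof of `trdeg_mono` (`Pool/Agent/H62/FC/Trdeg.lean`): `j` with `coordFun Q j ≠ 0` (from `hX`:
`aeval_coordFun_eq_zero_iff Q (X j)`), so `coordFun P j ≠ 0`; `proj_point` gives `y` in `K_Q = functionField Q` and `x` in
`K_P = functionField P` with `y j = 1`, `x j = 1`, and `aeval y G = 0 ↔ G ∈ Q`, `aeval x G = 0 ↔ G ∈ P` for forms `G`;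
`exists_index` (needs `halg`) gives `J : Fin w → Fin (N + 1)` such that `y ∘ J` is a transcendence basis of `K_Q`, and
`x ∘ J` is algebraically independent (`Trdeg_indep` is private there: copy it).

(a) For ALL polynomials `H` (not only forms): `aeval x H = 0 → aeval y H = 0`: let `d` be the total degree of `H`; the form
`H' = ∑ k ≤ d, X j ^ (d - k) * homogeneousComponent k H` has degree `d` and `aeval x H' = aeval x H` as `x j = 1`, the same for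
`y` (`sum_homogeneousComponent`).  So `H' ∈ P ≤ Q` and `aeval y H = 0`.

(b) By `trdeg_mono`, `w ≤ r`.  Suppose `w = r`.  There is `F ∈ Q`, `F ∉ P`, and by `Homog Q` one may take `F` a form (some
homogeneous component of `F` is not in `P`, all are in `Q`).  `f = aeval x F ≠ 0` and `aeval y F = 0`.  `f` is algebraic
over `A = Algebra.adjoin ℂ (range (x ∘ J))`, because `x ∘ J` is algebraically independent with `w = r = trdeg` elements
(otherwise `f` together with `x ∘ J` would be algebraically independent with `r + 1` elements: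
`AlgebraicIndependent.cardinalMk_le_trdeg`; or: a finite algebraically independent family with `trdeg` elements is a
transcendence basis).  As `f ≠ 0` and `A` is a domain: there is a polynomial `q` over `A` with `q.coeff 0 ≠ 0` and
`aeval f q = 0` (`exists_nonzero_coeff_and_aeval_eq_zero`).  Every coefficient of `q` is `aeval (x ∘ J) (c i)` with
`c i : MvPolynomial (Fin w) ℂ`, `c 0 ≠ 0`.  Let `H = ∑ i, rename J (c i) * F ^ i`: `aeval x H = 0`, so by (a)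
`aeval y H = 0`; but `aeval y F = 0`, so `aeval y H = aeval (y ∘ J) (c 0) ≠ 0` (independence of `y ∘ J`): contradiction.
-/

open MvPolynomial
open Pool.Agent.H17GT (coordFun)
open Pool.Agent.H17LG.Variety (FunField)
open Pool.Agent.H62.FC (Homog trdeg_mono)

noncomputable section

namespace Pool.Agent.H17BP

variable {N : ℕ} {P Q : Ideal (MvPolynomial (Fin (N + 1)) ℂ)}

/-- Coordinates which are algebraically independent on the smaller variety are so on the larger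
one. -/
private lemma TrdegLt_indep {K L : Type} [Field K] [Algebra ℂ K] [Field L] [Algebra ℂ L] {k : ℕ}
    {x : Fin (N + 1) → K} {y : Fin (N + 1) → L}
    (h : ∀ G : MvPolynomial (Fin (N + 1)) ℂ, aeval x G = 0 → aeval y G = 0)
    {J : Fin k → Fin (N + 1)} (hJ : AlgebraicIndependent ℂ fun i => y (J i)) :
    AlgebraicIndependent ℂ fun i => x (J i) := by
  rw [algebraicIndependent_iff] at hJ ⊢
  intro p hp
  apply hJ
  have h1 : aeval y (rename J p) = 0 := by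
    apply h
    rw [aeval_rename]
    exact hp
  rw [aeval_rename] at h1
  exact h1

private lemma TrdegLt_hom {K L : Type} [Field K] [Algebra ℂ K] [Field L] [Algebra ℂ L]
    {j : Fin (N + 1)} {x : Fin (N + 1) → K} {y : Fin (N + 1) → L} (hx : x j = 1) (hy : y j = 1)
    (h : ∀ (n : ℕ) (G : MvPolynomial (Fin (N + 1)) ℂ), G.IsHomogeneous n → aeval x G = 0 →
      aeval y G = 0) (H : MvPolynomial (Fin (N + 1)) ℂ) (hH : aeval x H = 0) : aeval y H = 0 := by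
  have key : ∀ {K : Type} [Field K] [Algebra ℂ K] {x : Fin (N + 1) → K}, x j = 1 →
      aeval x (∑ k ∈ Finset.range (H.totalDegree + 1),
        X j ^ (H.totalDegree - k) * homogeneousComponent k H) = aeval x H := by
    intro K _ _ x hx
    conv_rhs => rw [← MvPolynomial.sum_homogeneousComponent H]
    rw [map_sum, map_sum]
    refine Finset.sum_congr rfl fun k _ => ?_
    rw [map_mul, map_pow, aeval_X, hx, one_pow, one_mul]
  rw [← key hy]
  refine h H.totalDegree _ ?_ (by rw [key hx, hH])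
  apply MvPolynomial.IsHomogeneous.sum
  intro d hd
  have h1 : d ≤ H.totalDegree := Nat.lt_succ_iff.1 (Finset.mem_range.1 hd)
  have h2 := (MvPolynomial.isHomogeneous_X_pow (R := ℂ) j (H.totalDegree - d)).mul
    (MvPolynomial.homogeneousComponent_isHomogeneous d H)
  rwa [Nat.sub_add_cancel h1] at h2

private lemma TrdegLt_core {K L : Type} [Field K] [Algebra ℂ K] [Field L] [Algebra ℂ L] {w : ℕ}
    {x : Fin (N + 1) → K} {y : Fin (N + 1) → L} {J : Fin w → Fin (N + 1)}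
    (hxJ : IsTranscendenceBasis ℂ fun i => x (J i)) (hyJ : AlgebraicIndependent ℂ fun i => y (J i))
    (hxy : ∀ H : MvPolynomial (Fin (N + 1)) ℂ, aeval x H = 0 → aeval y H = 0)
    {F : MvPolynomial (Fin (N + 1)) ℂ} (hF : aeval x F ≠ 0) (hF' : aeval y F = 0) : False := by
  have halg := hxJ.isAlgebraic
  obtain ⟨q, hq0, hq⟩ := (halg.isAlgebraic (aeval x F)).exists_nonzero_coeff_and_aeval_eq_zero
    (mem_nonZeroDivisors_of_ne_zero hF)
  have hc : ∀ u : Algebra.adjoin ℂ (Set.range fun i => x (J i)),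
      ∃ c : MvPolynomial (Fin w) ℂ, aeval (fun i => x (J i)) c = (u : K) := by
    have h1 : ∀ u ∈ Algebra.adjoin ℂ (Set.range fun i => x (J i)),
        ∃ c : MvPolynomial (Fin w) ℂ, aeval (fun i => x (J i)) c = u := by
      intro u hu
      rw [Algebra.adjoin_range_eq_range_aeval] at hu
      exact hu
    exact fun u => h1 _ u.2
  choose c hc using hc
  have h1 : aeval x (∑ i ∈ Finset.range (q.natDegree + 1), rename J (c (q.coeff i)) * F ^ i) = 0 := by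
    rw [map_sum, ← hq, Polynomial.aeval_eq_sum_range]
    refine Finset.sum_congr rfl fun i _ => ?_
    rw [map_mul, map_pow, aeval_rename, Algebra.smul_def]
    congr 1
    exact hc _
  have h2 := hxy _ h1
  rw [map_sum, Finset.sum_range_succ', Finset.sum_eq_zero, zero_add, map_mul, map_pow, pow_zero,
    mul_one, aeval_rename] at h2
  · rw [algebraicIndependent_iff] at hyJ
    have h3 : c (q.coeff 0) = 0 := hyJ _ h2
    have h4 := hc (q.coeff 0)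
    rw [h3, map_zero] at h4
    exact hq0 (Subtype.ext h4.symm)
  · intro i _
    rw [map_mul, map_pow, hF', zero_pow (Nat.succ_ne_zero i), mul_zero]

theorem trdeg_lt [P.IsPrime] [Q.IsPrime] (hP : Homog P) (hQ : Homog Q) (hPQ : P ≤ Q) (hne : ¬ Q ≤ P)
    (hX : ∃ i, (X i : MvPolynomial (Fin (N + 1)) ℂ) ∉ Q) {r w : ℕ}
    (hr : ∃ z : Fin r → FunField P, IsTranscendenceBasis ℂ z)
    (hw : ∃ z : Fin w → FunField Q, IsTranscendenceBasis ℂ z) : w < r := by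
  refine lt_of_le_of_ne (trdeg_mono hP hQ hPQ hr hw) ?_
  rintro rfl
  obtain ⟨z, hz⟩ := hw
  obtain ⟨z', hz'⟩ := hr
  obtain ⟨j, hj0⟩ := hX
  have hj : coordFun Q j ≠ 0 := by
    intro h0
    exact hj0 ((Pool.Agent.H92.GT.Proj.aeval_coordFun_eq_zero_iff Q (X j)).1
      (by rw [aeval_X]; exact h0))
  have hj' : coordFun P j ≠ 0 := by
    intro h0
    apply hj
    have h1 := (Pool.Agent.H92.GT.Proj.aeval_coordFun_eq_zero_iff P (X j)).1
      (by rw [aeval_X]; exact h0)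
    have h2 := (Pool.Agent.H92.GT.Proj.aeval_coordFun_eq_zero_iff Q (X j)).2 (hPQ h1)
    rwa [aeval_X] at h2
  obtain ⟨y, hy1, hygen, hyker⟩ := Pool.Agent.H92.GT.Proj.proj_point Q hj
  obtain ⟨x, hx1, -, hxker⟩ := Pool.Agent.H92.GT.Proj.proj_point P hj'
  have halg : Algebra.IsAlgebraic (IntermediateField.adjoin ℂ (Set.range y))
      (H17GT.functionField Q) := by
    rw [hygen]
    exact ⟨fun f => isAlgebraic_algebraMap (⟨f, IntermediateField.mem_top⟩ :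
      (⊤ : IntermediateField ℂ (H17GT.functionField Q)))⟩
  obtain ⟨J, hJ⟩ := Pool.Agent.H92.GT.exists_index halg (z := z) hz
  have hxy : ∀ H : MvPolynomial (Fin (N + 1)) ℂ, aeval x H = 0 → aeval y H = 0 :=
    TrdegLt_hom hx1 hy1 fun n G hG h => (hyker n G hG).2 (hPQ ((hxker n G hG).1 h))
  have hind : AlgebraicIndependent ℂ fun i => x (J i) := TrdegLt_indep hxy hJ.1
  have h2 := IsTranscendenceBasis.cardinalMk_eq_trdeg (R := ℂ) (A := H17GT.functionField P)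
    (x := z') hz'
  have hbasis : IsTranscendenceBasis ℂ fun i => x (J i) :=
    hind.isTranscendenceBasis_of_trdeg_le_of_finite h2.ge
  obtain ⟨F₀, hF₀Q, hF₀P⟩ := Set.not_subset.1 hne
  obtain ⟨n, hn⟩ : ∃ n, homogeneousComponent n F₀ ∉ P := by
    by_contra hcon
    push Not at hcon
    apply hF₀P
    change F₀ ∈ P
    rw [← MvPolynomial.sum_homogeneousComponent F₀]
    exact Ideal.sum_mem _ fun i _ => hcon i
  have hFQ := hQ F₀ hF₀Q n
  exact TrdegLt_core hbasis hJ.1 hxy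
    (fun h => hn ((hxker n _ (homogeneousComponent_isHomogeneous n F₀)).1 h))
    ((hyker n _ (homogeneousComponent_isHomogeneous n F₀)).2 hFQ)

end Pool.Agent.H17BP

end
end

section

/-!
# MQ CDefs: the invariant part of an algebraic curve
-/

set_option autoImplicit false

open Topology Filter MvPolynomial Asymptotics

noncomputable section

namespace Pool.Agent.MQ

open Pool.Agent.H36.BP (EN)
open Pool.Agent.H17BP (IsChart Pr)
open Pool.Agent.H17EF (coneE)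

variable {M : ℕ}

/-- through `x` there is a piece of a leaf which is contained in `{R = 0}` -/
def InvAt (P : Ideal (MvPolynomial (Fin (M + 1)) ℂ)) (FF : Set (EN M × EN M)) (R : MvPolynomial (Fin (M + 1)) ℂ) (x : EN M) : Prop :=
  ∃ γ : ℂ → EN M, AnalyticAt ℂ γ 0 ∧ γ 0 = x ∧ (∀ᶠ t in 𝓝 (0 : ℂ), γ t ∈ coneE P ∧ (γ t, deriv γ t) ∈ FF ∧ eval (γ t).ofLp R = 0) ∧
    ∃ᶠ t in 𝓝 (0 : ℂ), ¬ Pr (γ t) x

/-- through `p` there is a curve tangent to `v` which is contained in `{q = 0}` -/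
def LeafIn (v : ℂ × ℂ → ℂ × ℂ) (q : ℂ × ℂ → ℂ) (p : ℂ × ℂ) : Prop :=
  ∃ γ : ℂ → ℂ × ℂ, AnalyticAt ℂ γ 0 ∧ γ 0 = p ∧
    (∀ᶠ t in 𝓝 (0 : ℂ), (v (γ t)).1 * (deriv γ t).2 = (v (γ t)).2 * (deriv γ t).1 ∧ q (γ t) = 0) ∧ ∃ᶠ t in 𝓝 (0 : ℂ), γ t ≠ p

end Pool.Agent.MQ

end
end

section

/-!
# MQ/LeafReg: the leaves of a regular foliation in the zero set of a function
-/

set_option autoImplicit false

open Topology Filter MvPolynomial Asymptotics

noncomputable section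

namespace Pool.Agent.MQ

namespace LeafReg

theorem deriv_fst {γ : ℂ → ℂ × ℂ} {t : ℂ} (h : AnalyticAt ℂ γ t) : deriv (fun s => (γ s).1) t = (deriv γ t).1 := by
  have h1 : HasDerivAt γ (deriv γ t) t := h.differentiableAt.hasDerivAt
  exact ((ContinuousLinearMap.fst ℂ ℂ ℂ).hasFDerivAt.comp_hasDerivAt t h1).deriv

/-- a function which vanishes on a leaf through `p` vanishes on the whole line -/
theorem zero_of_leaf {q : ℂ × ℂ → ℂ} {ρ : ℝ} (hq : ∀ p ∈ Metric.ball (0 : ℂ × ℂ) ρ, AnalyticAt ℂ q p) {p : ℂ × ℂ} (hp : p ∈ Metric.ball (0 : ℂ × ℂ) ρ)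
    (h : LeafIn (fun _ => (0, 1)) q p) : ∀ y ∈ Metric.ball (0 : ℂ) ρ, q (p.1, y) = 0 := by
  obtain ⟨γ, hγ, h0, he, hf⟩ := h
  have hp1 : p.1 ∈ Metric.ball (0 : ℂ) ρ := by
    rw [mem_ball_zero_iff] at hp ⊢
    exact lt_of_le_of_lt (norm_fst_le p) hp
  have hp2 : p.2 ∈ Metric.ball (0 : ℂ) ρ := by
    rw [mem_ball_zero_iff] at hp ⊢
    exact lt_of_le_of_lt (norm_snd_le p) hp
  have hg : AnalyticAt ℂ (fun t => (γ t).1) 0 := (ContinuousLinearMap.fst ℂ ℂ ℂ).analyticAt _ |>.comp hγ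
  have hk : AnalyticAt ℂ (fun t => (γ t).2) 0 := (ContinuousLinearMap.snd ℂ ℂ ℂ).analyticAt _ |>.comp hγ
  have hd : ∀ᶠ t in 𝓝 (0 : ℂ), deriv (fun s => (γ s).1) t = 0 := by
    filter_upwards [he, hγ.eventually_analyticAt] with t ht hat
    rw [deriv_fst hat]
    have := ht.1
    simpa using this.symm
  have hc : ∀ᶠ t in 𝓝 (0 : ℂ), (γ t).1 = p.1 := by
    obtain ⟨r, hr, hall⟩ := Metric.eventually_nhds_iff_ball.1 (hd.and hg.eventually_analyticAt)
    refine Metric.eventually_nhds_iff_ball.2 ⟨r, hr, fun t ht => ?_⟩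
    have h1 := Metric.isOpen_ball.is_const_of_deriv_eq_zero (f := fun s => (γ s).1) (convex_ball (0 : ℂ) r).isPreconnected
      (fun s hs => (hall s hs).2.differentiableAt.differentiableWithinAt) (fun s hs => (hall s hs).1) ht (Metric.mem_ball_self hr)
    have h2 : (γ t).1 = (γ 0).1 := h1
    rw [h2, h0]
  have hk2 : 𝓝 p.2 ≤ map (fun t => (γ t).2) (𝓝 0) := by
    rcases hk.eventually_constant_or_nhds_le_map_nhds with h1 | h1
    · exfalso
      refine hf ?_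
      filter_upwards [hc, h1] with t a b
      simp only [not_not]
      rw [h0] at b
      exact Prod.ext a b
    · rwa [h0] at h1
  have hz : ∀ᶠ y in 𝓝 p.2, q (p.1, y) = 0 := by
    refine hk2 ?_
    change ∀ᶠ t in 𝓝 (0 : ℂ), q (p.1, (γ t).2) = 0
    filter_upwards [he, hc] with t a b
    rw [← b]
    exact a.2
  have ha : AnalyticOnNhd ℂ (fun y => q (p.1, y)) (Metric.ball 0 ρ) := by
    intro y hy
    have h1 : AnalyticAt ℂ (fun y : ℂ => (p.1, y)) y := analyticAt_const.prod analyticAt_id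
    refine AnalyticAt.fun_comp (f := fun y : ℂ => (p.1, y)) ?_ h1
    refine hq _ ?_
    rw [mem_ball_zero_iff] at hp1 hy ⊢
    exact max_lt hp1 hy
  exact fun y hy => ha.eqOn_zero_of_preconnected_of_eventuallyEq_zero (convex_ball _ _).isPreconnected hp2 hz hy

theorem leaf_of_zero {q : ℂ × ℂ → ℂ} {ρ : ℝ} {p : ℂ × ℂ} (hp : p ∈ Metric.ball (0 : ℂ × ℂ) ρ)
    (h : ∀ y ∈ Metric.ball (0 : ℂ) ρ, q (p.1, y) = 0) : LeafIn (fun _ => (0, 1)) q p := by
  have hp2 : p.2 ∈ Metric.ball (0 : ℂ) ρ := by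
    rw [mem_ball_zero_iff] at hp ⊢
    exact lt_of_le_of_lt (norm_snd_le p) hp
  have hd : ∀ t : ℂ, HasDerivAt (fun t : ℂ => (p.1, p.2 + t)) ((0 : ℂ), (1 : ℂ)) t := fun t =>
    (hasDerivAt_const t p.1).prodMk ((hasDerivAt_id t).const_add p.2)
  refine ⟨fun t => (p.1, p.2 + t), analyticAt_const.prod (analyticAt_const.add analyticAt_id), by simp, ?_, ?_⟩
  · have h1 : ∀ᶠ t in 𝓝 (0 : ℂ), p.2 + t ∈ Metric.ball (0 : ℂ) ρ := by
      have hcont : Continuous fun t : ℂ => p.2 + t := by fun_prop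
      have h2 := hcont.tendsto 0
      simp only [add_zero] at h2
      exact h2.eventually (Metric.isOpen_ball.mem_nhds hp2)
    filter_upwards [h1] with t ht
    rw [(hd t).deriv]
    exact ⟨by simp, h _ ht⟩
  · intro hcon
    have h1 : ∀ᶠ t : ℂ in 𝓝[≠] 0, t ≠ 0 := self_mem_nhdsWithin
    have h2 : ∀ᶠ t : ℂ in 𝓝[≠] 0, ¬ ((p.1, p.2 + t) ≠ p) := nhdsWithin_le_nhds hcon
    obtain ⟨t, ht1, ht2⟩ := (h2.and h1).exists
    apply ht1
    intro he
    have := congrArg Prod.snd he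
    simp at this
    exact ht2 this

end LeafReg

open LeafReg

/-- **Module C2.** -/
theorem leaf_regular {q : ℂ × ℂ → ℂ} (hq : AnalyticAt ℂ q 0) (hq0 : ∃ᶠ p in 𝓝 (0 : ℂ × ℂ), q p ≠ 0) :
    (∀ᶠ p in 𝓝 (0 : ℂ × ℂ), ¬ LeafIn (fun _ => (0, 1)) q p) ∨ ∀ᶠ p in 𝓝 (0 : ℂ × ℂ), (LeafIn (fun _ => (0, 1)) q p ↔ p.1 = 0) := by
  obtain ⟨ρ, hρ, hball⟩ := Metric.eventually_nhds_iff_ball.1 hq.eventually_analyticAt
  have hiff : ∀ p ∈ Metric.ball (0 : ℂ × ℂ) ρ, (LeafIn (fun _ => (0, 1)) q p ↔ ∀ y ∈ Metric.ball (0 : ℂ) ρ, q (p.1, y) = 0) :=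
    fun p hp => ⟨zero_of_leaf hball hp, leaf_of_zero hp⟩
  have hmem : ∀ᶠ p in 𝓝 (0 : ℂ × ℂ), p ∈ Metric.ball (0 : ℂ × ℂ) ρ := Metric.ball_mem_nhds _ hρ
  -- other lines are not contained in the zero set
  have hiso : ∀ᶠ x in 𝓝[≠] (0 : ℂ), ¬ ∀ y ∈ Metric.ball (0 : ℂ) ρ, q (x, y) = 0 := by
    by_contra hcon
    have hfr : ∃ᶠ x in 𝓝[≠] (0 : ℂ), ∀ y ∈ Metric.ball (0 : ℂ) ρ, q (x, y) = 0 := by
      rw [Filter.not_eventually] at hcon
      exact hcon.mono fun x hx => not_not.1 hx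
    apply hq0
    filter_upwards [hmem] with p hp
    rw [not_not]
    have hp1 : p.1 ∈ Metric.ball (0 : ℂ) ρ := by
      rw [mem_ball_zero_iff] at hp ⊢
      exact lt_of_le_of_lt (norm_fst_le p) hp
    have hp2 : p.2 ∈ Metric.ball (0 : ℂ) ρ := by
      rw [mem_ball_zero_iff] at hp ⊢
      exact lt_of_le_of_lt (norm_snd_le p) hp
    have ha : AnalyticOnNhd ℂ (fun x => q (x, p.2)) (Metric.ball 0 ρ) := by
      intro x hx
      have h1 : AnalyticAt ℂ (fun x : ℂ => (x, p.2)) x := analyticAt_id.prod analyticAt_const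
      refine AnalyticAt.fun_comp (f := fun x : ℂ => (x, p.2)) ?_ h1
      refine hball _ ?_
      rw [mem_ball_zero_iff] at hp2 hx ⊢
      exact max_lt hx hp2
    exact ha.eqOn_zero_of_preconnected_of_frequently_eq_zero (convex_ball _ _).isPreconnected (Metric.mem_ball_self hρ)
      (hfr.mono fun x hx => hx _ hp2) hp1
  rw [eventually_nhdsWithin_iff] at hiso
  have hfst : Tendsto (fun p : ℂ × ℂ => p.1) (𝓝 0) (𝓝 (0 : ℂ)) := continuous_fst.tendsto' _ _ rfl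
  have hiso2 : ∀ᶠ p : ℂ × ℂ in 𝓝 0, p.1 ≠ 0 → ¬ ∀ y ∈ Metric.ball (0 : ℂ) ρ, q (p.1, y) = 0 := by
    filter_upwards [hfst.eventually hiso] with p hp h1 using hp h1
  by_cases h0 : ∀ y ∈ Metric.ball (0 : ℂ) ρ, q (0, y) = 0
  · right
    filter_upwards [hmem, hiso2] with p hp h1
    rw [hiff p hp]
    constructor
    · intro h2
      by_contra h3
      exact h1 h3 h2
    · intro h2
      rw [h2]
      exact h0
  · left
    filter_upwards [hmem, hiso2] with p hp h1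
    rw [hiff p hp]
    by_cases h2 : p.1 = 0
    · rw [h2]; exact h0
    · exact h1 h2

end Pool.Agent.MQ

end
end

section

/-!
# SY EiA: the metric of the nodal case on a closed cone in `EN N`
-/

set_option autoImplicit false

open Topology Filter Metric

namespace Pool.Agent.SY

open Pool.Agent.H36.BP (EN fs wd Sub MetricData mt Curve)
open Pool.Agent.H17BP (Pr)
open Pool.Agent.H14.PP (IsCone)

private theorem EiA_sub_mono {u : ℂ → ℝ} {z : ℂ} {c c' : ℝ} (h : Sub u z c) (hc : c' ≤ c) : Sub u z c' :=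
  ⟨h.1, fun t ht => h.2 t (lt_of_lt_of_le ht hc)⟩

private theorem EiA_proj {N : ℕ} {x : EN N} (hx : x ≠ 0) (v : EN N) :
    ∃ a : ℂ, ‖v - a • x‖ = ‖x‖ * fs x v := by
  have hxx : (inner ℂ x x : ℂ) ≠ 0 := by
    rw [Ne, inner_self_eq_zero]
    exact hx
  have hxn : 0 < ‖x‖ := norm_pos_iff.mpr hx
  set a : ℂ := inner ℂ x v / inner ℂ x x with ha
  refine ⟨a, ?_⟩
  have ho : inner ℂ x (v - a • x) = (0 : ℂ) := by
    rw [inner_sub_right, inner_smul_right, ha]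
    field_simp
    ring
  have h1 : wd x (v - a • x) = ‖x‖ * ‖v - a • x‖ := by
    unfold wd
    rw [ho, norm_zero, ← mul_pow]
    rw [show (‖x‖ * ‖v - a • x‖) ^ 2 - (0 : ℝ) ^ 2 = (‖x‖ * ‖v - a • x‖) ^ 2 by ring]
    exact Real.sqrt_sq (by positivity)
  have h2 : wd x (v - a • x) = wd x v := by
    have h := Pool.Agent.H36.BP.wd_inv x v 1 (-a)
    rw [one_smul, one_smul, norm_one, neg_smul, ← sub_eq_add_neg] at h
    rw [h]
    ring
  rw [h2] at h1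
  unfold fs
  rw [h1]
  field_simp

private theorem EiA_deriv {N : ℕ} {H : ℂ → EN N} {r : ℝ} (hr : 0 < r) (hd : DifferentiableOn ℂ H (ball 0 r)) (h0 : H 0 ≠ 0)
    (hp : ∀ z ∈ ball (0 : ℂ) r, Pr (H z) (H 0)) : ∃ a : ℂ, deriv H 0 = a • H 0 := by
  have hxx : (inner ℂ (H 0) (H 0) : ℂ) ≠ 0 := by
    rw [Ne, inner_self_eq_zero]
    exact h0
  have hD : HasDerivAt H (deriv H 0) 0 := (hd.differentiableAt (ball_mem_nhds 0 hr)).hasDerivAt
  have h1 : HasDerivAt (fun w => (innerSL ℂ (H 0)) (H w)) ((innerSL ℂ (H 0)) (deriv H 0)) 0 :=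
    (innerSL ℂ (H 0)).hasFDerivAt.comp_hasDerivAt 0 hD
  have h2 : HasDerivAt (fun w => ((innerSL ℂ (H 0)) (H w) / inner ℂ (H 0) (H 0)) • H 0)
      (((innerSL ℂ (H 0)) (deriv H 0) / inner ℂ (H 0) (H 0)) • H 0) 0 := (h1.div_const _).smul_const _
  have h3 : H =ᶠ[𝓝 0] fun w => ((innerSL ℂ (H 0)) (H w) / inner ℂ (H 0) (H 0)) • H 0 := by
    filter_upwards [ball_mem_nhds (0 : ℂ) hr] with w hw
    obtain ⟨c, _, hc⟩ := hp w hw
    rw [innerSL_apply_apply, hc, inner_smul_right]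
    congr 1
    field_simp
  have h4 := h2.congr_of_eventuallyEq h3
  exact ⟨_, hD.unique h4⟩

/-- MODULE EiA: the metric of the nodal case on a closed cone in `EN N`. -/
theorem energy_of_metric {N : ℕ} {X T : Set (EN N)} (hX : IsCone X) {G : EN N → EN N → ℝ} {ρ : EN N → ℝ} {M : ℕ} {c₀ C : ℝ}
    (hM : MetricData X (X ∩ T) G ρ M c₀ C) (hT : ∀ x ∈ T, ∀ c : ℂ, c ≠ 0 → c • x ∈ T) :
    ∃ C' : ℝ, Energy X T (fun x => ‖x‖) ρ M c₀ C' (mt G) := by
  have _ := hT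
  refine ⟨max C 1, ?_⟩
  have hC1 : 1 ≤ max C 1 := le_max_right _ _
  have hCC : C ≤ max C 1 := le_max_left _ _
  refine ⟨hM.c₀_pos, by linarith, ?_, ?_, ?_, ?_, ?_, ?_, ?_⟩
  · intro F hF z
    exact hM.nonneg _ (hF.mem z) _
  · intro F hF z a ha
    have h1 := Pool.Agent.H36.BP.mt_usc hM isOpen_univ (F := F) ⟨hF.diff.differentiableOn, fun z _ => hF.mem z⟩
    have h2 := h1 z (Set.mem_univ z) a ha
    rwa [nhdsWithin_univ] at h2
  · intro F hF a b _ z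
    have h1 := Pool.Agent.H36.BP.mt_comp hM (F := F) (φ := fun w => a * w + b) (z := z) (hF.diff _)
      (by fun_prop) (hF.mem _)
    have h2 : deriv (fun w : ℂ => a * w + b) z = a := by
      have h3 : HasDerivAt (fun w : ℂ => a * w + b) a z := by
        simpa using ((hasDerivAt_id z).const_mul a).add_const b
      exact h3.deriv
    rw [h2] at h1
    exact h1
  · intro F hF h hh h0 z
    exact Pool.Agent.H36.BP.mt_smul hM (hF.diff z) (hh z) (hF.mem z) (h0 z)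
  · intro F hF z hz
    have hA : AnalyticAt ℂ F z := hF.diff.analyticAt z
    refine EiA_sub_mono (hM.sub F z hA (Eventually.of_forall hF.mem) hz) ?_
    have := mul_le_mul_of_nonneg_right hCC (sq_nonneg (mt G F z))
    linarith
  · intro F hF z
    have hx : F z ≠ 0 := hM.ne _ (hF.mem z)
    obtain ⟨a, ha⟩ := EiA_proj hx (deriv F z)
    refine ⟨a, ?_⟩
    have h1 := hM.lower (F z) (hF.mem z) (deriv F z)
    have hg : 0 ≤ G (F z) (deriv F z) := hM.nonneg _ (hF.mem z) _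
    rw [ha]
    show ρ (F z) ^ M * (‖F z‖ * fs (F z) (deriv F z)) ≤ max C 1 * ‖F z‖ * G (F z) (deriv F z)
    have h2 : ρ (F z) ^ M * (‖F z‖ * fs (F z) (deriv F z)) = ‖F z‖ * (ρ (F z) ^ M * fs (F z) (deriv F z)) := by ring
    rw [h2, mul_assoc]
    have h3 : ‖F z‖ * (ρ (F z) ^ M * fs (F z) (deriv F z)) ≤ ‖F z‖ * G (F z) (deriv F z) :=
      mul_le_mul_of_nonneg_left h1 (norm_nonneg _)
    have h4 : 0 ≤ ‖F z‖ * G (F z) (deriv F z) := mul_nonneg (norm_nonneg _) hg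
    nlinarith
  · intro l hl r A ε hr hε F H hF _ hB hc hH
    obtain ⟨h, hh, hlim⟩ := hc
    have := hl
    have hcur : ∀ᶠ n in l, Curve X (ball 0 r) (fun z => h n z • F n z) := by
      filter_upwards [hF, hh] with n hn hn2
      exact ⟨hn2.1.smul hn.diff.differentiableOn, fun z hz => hX.smul_mem _ (hn.mem z) _ (hn2.2 z hz)⟩
    have hmem : (0 : ℂ) ∈ ball (0 : ℂ) r := mem_ball_self hr
    have hge : ∀ᶠ n in l, ε ≤ mt G (fun z => h n z • F n z) 0 := by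
      filter_upwards [hF, hh, hB] with n hn hn2 hn3
      rw [Pool.Agent.H36.BP.mt_smul hM (hn.diff 0) (hn2.1.differentiableAt (ball_mem_nhds 0 hr)) (hn.mem 0)
        (hn2.2 0 hmem)]
      exact hn3
    have hHε : ε ≤ mt G H 0 :=
      Pool.Agent.H36.BP.mt_limit hM (F := fun n z => h n z • F n z) hr hcur hlim (hH 0 hmem) hge
    have hHd : DifferentiableOn ℂ H (ball 0 r) := hlim.differentiableOn (hcur.mono fun n hn => hn.1) isOpen_ball
    constructor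
    · by_contra hcon
      push Not at hcon
      have h0 : mt G H 0 = 0 := hM.zero H 0 (hHd.analyticAt (ball_mem_nhds 0 hr)) (by
        filter_upwards [ball_mem_nhds (0 : ℂ) hr] with z hz
        exact ⟨hH z hz, hH z hz, hcon z hz⟩)
      linarith
    · by_contra hcon
      push Not at hcon
      obtain ⟨a, ha⟩ := EiA_deriv hr hHd (hM.ne _ (hH 0 hmem)) (fun z hz => hcon z hz 0 hmem)
      have h0 := Pool.Agent.H36.BP.mt_const hM (hH 0 hmem) ha
      linarith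

end Pool.Agent.SY

end
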