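import Pool.Agent.H94.G6.M16
import Pool.Agent.H94.G6.M40
import Pool.Agent.H94.G6.M65
import Pool.Agent.H94.G6.M67
import Pool.Agent.H94.G6.M76

/-! The parts of this file: H36.BP.Lim, H36.BP.Brody, SY.EiL, SY.EiL1, SY.EiD, SY.EiS. -/

section

/-!
# BP Lim: the limit curve

Along the ultrafilter `𝒰 = hyperfilter ℕ`: for every natural `R ≥ 1` the curves `F_n^R = exp(g_n^R) F_n` (`n ≥ R`) converge locally uniformly on `ball 0 R` to `H_R` (`montel_ultrafilter`), `|H_R 0| ≥ c_R > 0`.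
`F_n^R` and `F_n^S` are proportional at every point, hence all 2x2 minors of `(H_R z, H_S z)` vanish.  Near every `z` with `|z| < R` the function `H_R` does not vanish identically
(identity theorem on the ball), so `H_R w = (w - z)^k φ(w)`, `φ(z) ≠ 0` (`AnalyticAt.exists_eventuallyEq_pow_smul_nonzero_iff`): define `f z = [φ z] ∈ ℙ^N`; it is independent of `R` and holomorphic
(`HolomorphicInto f univ`), and `[H_R w] = f w` where `H_R w ≠ 0`.  `exists_global_lift` gives an entire lift `H` of `f`.  Near every `z₀` with `|z₀| < R`: `H_R w = (w - z₀)^k • u w • H w` with `u` holomorphic without zeros near `z₀`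
(compare `H` and `φ`: both without zeros and proportional); absorb `u` into `H` to apply `hur` near `z₀` (`u w • H w ∈ K` iff `H w ∈ K`).
`H w ∈ closure K` for all `w`: limit of points `F_n^R w ∈ K` where `H_R w ≠ 0`, elsewhere by continuity.
* `A = {z : H z ∉ K}` is open (`hur`) and closed (`rel_open` and continuity of `H`), so `A = ∅` or `A = univ`.
* `A = univ` is impossible: `H_1 → ` near `0`, `H_1 w ≠ 0` and `H_1 w = u w • H w ∉ K`, `lim` gives `mt G (F_n^1) 0 < 1/2` eventually, but `mt G (F_n^1) 0 = mt G (F_n) 0 = 1` (`mt_smul`).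
* so `H z ∈ K` for all `z`; `mt G H 0 = mt G (u • H) 0 = mt G H_1 0 ≥ 1` (`mt_smul`, `mt_limit`).
(`EuclideanSpace ℂ (Fin (N+1))` versus `Fin (N+1) → ℂ`: `WithLp.toLp 2`, `WithLp.ofLp`, both continuous linear.)
-/

set_option autoImplicit false

namespace Pool.Agent.H36.BP

open Filter Topology Metric

variable {N : ℕ}

variable {K B : Set (EN N)} {G : EN N → EN N → ℝ} {ρ : EN N → ℝ} {M : ℕ} {c₀ C : ℝ}

/-- The coordinate `i`. -/
private noncomputable def Lim_pr (i : Fin (N + 1)) : EN N →L[ℂ] ℂ := EuclideanSpace.proj i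

private lemma Lim_exists_coord {w : EN N} (hw : w ≠ 0) : ∃ j, w j ≠ 0 := by
  by_contra h
  push Not at h
  apply hw
  ext j
  exact h j

private lemma Lim_prop {v w : EN N} (hw : w ≠ 0) (h : ∀ i j, v i * w j = v j * w i) :
    ∃ c : ℂ, v = c • w := by
  obtain ⟨j, hj⟩ := Lim_exists_coord hw
  refine ⟨v j / w j, ?_⟩
  ext i
  rw [PiLp.smul_apply, smul_eq_mul, div_mul_eq_mul_div, eq_div_iff hj]
  exact h i j

private lemma Lim_cont_minor {X : Type} [TopologicalSpace X] {f g : X → EN N} {x : X}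
    (hf : ContinuousAt f x) (hg : ContinuousAt g x) (i j : Fin (N + 1)) :
    ContinuousAt (fun y => f y i * g y j - f y j * g y i) x := by
  have hc : ∀ (f : X → EN N), ContinuousAt f x → ∀ i, ContinuousAt (fun y => f y i) x := by
    intro f hf i
    exact (Lim_pr i).continuous.continuousAt.comp hf
  exact ((hc f hf i).mul (hc g hg j)).sub ((hc f hf j).mul (hc g hg i))

/-- Gluing of local lifts. -/
private lemma Lim_glue (Hs : ℕ → ℂ → EN N)
    (hd : ∀ R : ℕ, DifferentiableOn ℂ (Hs R) (ball 0 (R + 1))) (h0 : ∀ R, Hs R 0 ≠ 0)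
    (hp : ∀ (R S : ℕ) (z : ℂ), z ∈ ball (0 : ℂ) (R + 1) → z ∈ ball (0 : ℂ) (S + 1) →
      ∀ i j, Hs R z i * Hs S z j = Hs R z j * Hs S z i) :
    ∃ H : ℂ → EN N, Differentiable ℂ H ∧ (∀ z, H z ≠ 0) ∧
      ∀ (R : ℕ), ∀ z₀ ∈ ball (0 : ℂ) (R + 1), ∃ (k : ℕ) (u : ℂ → ℂ), AnalyticAt ℂ u z₀ ∧
        u z₀ ≠ 0 ∧ ∀ᶠ w in 𝓝 z₀, Hs R w = (w - z₀) ^ k • (u w • H w) := by
  classical
  -- local factorisation
  have hfac : ∀ (R : ℕ), ∀ z₀ ∈ ball (0 : ℂ) (R + 1), ∃ (k : ℕ) (φ : ℂ → EN N),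
      AnalyticAt ℂ φ z₀ ∧ φ z₀ ≠ 0 ∧ ∀ᶠ w in 𝓝 z₀, Hs R w = (w - z₀) ^ k • φ w := by
    intro R z₀ hz₀
    have ha : AnalyticAt ℂ (Hs R) z₀ := (hd R).analyticAt (isOpen_ball.mem_nhds hz₀)
    rw [ha.exists_eventuallyEq_pow_smul_nonzero_iff]
    intro hcon
    have hon : AnalyticOnNhd ℂ (Hs R) (ball 0 (R + 1)) := fun w hw =>
      (hd R).analyticAt (isOpen_ball.mem_nhds hw)
    have h1 := hon.eqOn_zero_of_preconnected_of_eventuallyEq_zero
      (convex_ball (0 : ℂ) (R + 1)).isPreconnected hz₀ hcon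
    exact h0 R (h1 (mem_ball_self (by positivity)))
  have hmem : ∀ z : ℂ, z ∈ ball (0 : ℂ) ((⌈‖z‖⌉₊ : ℕ) + 1) := by
    intro z
    rw [mem_ball_zero_iff]
    have := Nat.le_ceil ‖z‖
    linarith
  choose k φ hφa hφ0 hφe using fun z : ℂ => hfac ⌈‖z‖⌉₊ z (hmem z)
  -- any local factor is proportional to φ
  have hcmp : ∀ (R : ℕ), ∀ z₀ ∈ ball (0 : ℂ) (R + 1), ∀ (m : ℕ) (ψ : ℂ → EN N),
      AnalyticAt ℂ ψ z₀ → (∀ᶠ w in 𝓝 z₀, Hs R w = (w - z₀) ^ m • ψ w) →
      ∀ᶠ z in 𝓝 z₀, ∀ i j, φ z z i * ψ z j = φ z z j * ψ z i := by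
    intro R z₀ hz₀ m ψ hψa hψe
    filter_upwards [hψe.eventually_nhds, hψa.eventually_analyticAt,
      isOpen_ball.mem_nhds hz₀] with z h1 h2 h3 i j
    -- near z
    have h4 : ∀ᶠ w in 𝓝[≠] z, φ z w i * ψ w j - φ z w j * ψ w i = 0 := by
      have hne0 : ∀ᶠ w in 𝓝[≠] z, w ≠ z₀ := by
        by_cases hz : z = z₀
        · rw [hz]
          exact self_mem_nhdsWithin
        · exact (eventually_ne_nhds hz).filter_mono nhdsWithin_le_nhds
      filter_upwards [h1.filter_mono nhdsWithin_le_nhds, hne0, self_mem_nhdsWithin,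
        (hφe z).filter_mono nhdsWithin_le_nhds,
        nhdsWithin_le_nhds (isOpen_ball.mem_nhds (hmem z)),
        nhdsWithin_le_nhds (isOpen_ball.mem_nhds h3)] with w a1 a2 a3 a4 a5 a6
      have h5 := hp ⌈‖z‖⌉₊ R w a5 a6 i j
      rw [a4, a1] at h5
      simp only [PiLp.smul_apply, smul_eq_mul] at h5
      have h6 : (w - z) ^ k z ≠ 0 := pow_ne_zero _ (sub_ne_zero.2 a3)
      have h7 : (w - z₀) ^ m ≠ 0 := pow_ne_zero _ (sub_ne_zero.2 a2)
      have h8 : (w - z) ^ k z * (w - z₀) ^ m * (φ z w i * ψ w j - φ z w j * ψ w i) = 0 := by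
        linear_combination h5
      rcases mul_eq_zero.1 h8 with h | h
      · exact absurd h (mul_ne_zero h6 h7)
      · exact h
    have h5 : Tendsto (fun w => φ z w i * ψ w j - φ z w j * ψ w i) (𝓝[≠] z)
        (𝓝 (φ z z i * ψ z j - φ z z j * ψ z i)) :=
      ((Lim_cont_minor (hφa z).continuousAt h2.continuousAt i j).tendsto).mono_left
        nhdsWithin_le_nhds
    have h6 : Tendsto (fun w => φ z w i * ψ w j - φ z w j * ψ w i) (𝓝[≠] z) (𝓝 0) :=
      (tendsto_congr' h4).2 tendsto_const_nhds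
    exact sub_eq_zero.1 (tendsto_nhds_unique h5 h6)
  have hofne : ∀ v : EN N, v ≠ 0 → v.ofLp ≠ 0 := by
    intro v hv h
    apply hv
    ext j
    exact congrFun h j
  set f : ℂ → Pool.Agent.H17.PN N := fun z => Projectivization.mk ℂ (φ z z).ofLp
    (hofne _ (hφ0 z)) with hf
  have hfhol : Pool.Agent.H17.HolomorphicInto f Set.univ := by
    intro z₀ _
    refine ⟨fun w => (φ z₀ w).ofLp, ?_, ?_⟩
    · rw [analyticAt_pi_iff]
      intro j
      exact ((Lim_pr j).analyticAt _).comp (hφa z₀)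
    · filter_upwards [hcmp ⌈‖z₀‖⌉₊ z₀ (hmem z₀) (k z₀) (φ z₀) (hφa z₀) (hφe z₀),
        (hφa z₀).continuousAt.eventually_ne (hφ0 z₀)] with z h1 h2
      refine ⟨hofne _ h2, ?_⟩
      obtain ⟨c, hc⟩ := Lim_prop h2 h1
      rw [hf, Projectivization.mk_eq_mk_iff']
      exact ⟨c, by rw [hc]; rfl⟩
  obtain ⟨x, hx⟩ := Pool.Agent.H17.exists_global_lift hfhol
  refine ⟨fun z => WithLp.toLp 2 (fun j => (x j : ℂ → ℂ) z), ?_, ?_, ?_⟩
  · have h1 : Differentiable ℂ (fun z => (fun j => (x j : ℂ → ℂ) z)) :=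
      differentiable_pi.2 fun j => (x j).diff
    exact (PiLp.continuousLinearEquiv 2 ℂ (fun _ : Fin (N + 1) => ℂ)).symm.differentiable.comp h1
  · intro z h
    obtain ⟨h1, _⟩ := hx z
    apply h1
    funext j
    exact congrArg (fun v : EN N => v j) h
  · intro R z₀ hz₀
    obtain ⟨m, ψ, hψa, hψ0, hψe⟩ := hfac R z₀ hz₀
    have hH : ∀ z, ∀ i j, φ z z i * (x j : ℂ → ℂ) z = φ z z j * (x i : ℂ → ℂ) z := by
      intro z i j
      obtain ⟨h1, h2⟩ := hx z
      obtain ⟨c, hc, h3⟩ := Pool.Agent.H17.mk_eq_mk_cross h2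
      have e1 : φ z z i = c * (x i : ℂ → ℂ) z := h3 i
      have e2 : φ z z j = c * (x j : ℂ → ℂ) z := h3 j
      rw [e1, e2]
      ring
    have hprop : ∀ᶠ z in 𝓝 z₀, ∀ i j, ψ z i * (x j : ℂ → ℂ) z = ψ z j * (x i : ℂ → ℂ) z := by
      filter_upwards [hcmp R z₀ hz₀ m ψ hψa hψe] with z h1 i j
      obtain ⟨l, hl⟩ := Lim_exists_coord (hφ0 z)
      have e1 := h1 l i
      have e2 := h1 l j
      have e3 := hH z l i
      have e4 := hH z l j
      have h5 : (φ z z l) * (φ z z l) * (ψ z i * (x j : ℂ → ℂ) z) =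
          (φ z z l) * (φ z z l) * (ψ z j * (x i : ℂ → ℂ) z) := by
        linear_combination (φ z z l * (x j : ℂ → ℂ) z) * e1 - (φ z z l * (x i : ℂ → ℂ) z) * e2 +
          (φ z z i * ψ z l) * e4 - (φ z z j * ψ z l) * e3
      exact mul_left_cancel₀ (mul_ne_zero hl hl) h5
    obtain ⟨l, hl⟩ : ∃ l, (x l : ℂ → ℂ) z₀ ≠ 0 := by
      obtain ⟨h1, _⟩ := hx z₀
      by_contra hcon
      push Not at hcon
      exact h1 (funext hcon)
    have hψl : AnalyticAt ℂ (fun z => ψ z l) z₀ :=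
      ((Lim_pr l).analyticAt _).comp hψa
    have hloc : ∀ᶠ w in 𝓝 z₀, ψ w = (ψ w l / (x l : ℂ → ℂ) w) •
        (WithLp.toLp 2 (fun j => (x j : ℂ → ℂ) w) : EN N) := by
      filter_upwards [hprop, (x l).diff.continuous.continuousAt.eventually_ne hl] with w h1 h2
      ext i
      rw [PiLp.smul_apply, smul_eq_mul, div_mul_eq_mul_div, eq_div_iff h2]
      exact h1 i l
    refine ⟨m, fun w => ψ w l / (x l : ℂ → ℂ) w, hψl.div ((x l).analyticAt z₀) hl, ?_, ?_⟩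
    · intro h
      apply hψ0
      rw [hloc.self_of_nhds]
      have h' : ψ z₀ l / (x l : ℂ → ℂ) z₀ = 0 := h
      rw [h', zero_smul]
    · filter_upwards [hψe, hloc] with w h1 h2
      rw [h1]
      exact congrArg _ h2

/-- the limit curve, with the growth -/
theorem limit_curve2 (hM : MetricData K B G ρ M c₀ C) (F : ℕ → ℂ → EN N) (hF : ∀ n : ℕ, Curve K (ball 0 (n + 1)) (F n))
    (h0 : ∀ n, mt G (F n) 0 = 1) (c' : ℕ → ℝ) (hc' : ∀ R, 1 ≤ R → 0 < c' R)
    (hchar : ∀ R : ℕ, 1 ≤ R → ∀ n, R ≤ n → ∃ g : ℂ → ℂ, Differentiable ℂ g ∧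
      (∀ z ∈ ball (0 : ℂ) R, ‖Complex.exp (g z) • F n z‖ ≤ 1) ∧ c' R ≤ ‖Complex.exp (g 0) • F n 0‖) :
    ∃ H : ℂ → EN N, Differentiable ℂ H ∧ (∀ z, H z ∈ K) ∧ 1 ≤ mt G H 0 ∧ ∀ R : ℕ, 1 ≤ R → ∃ HR : ℂ → EN N, DifferentiableOn ℂ HR (ball 0 R) ∧
      (∀ z ∈ ball (0 : ℂ) R, ‖HR z‖ ≤ 1) ∧ c' R ≤ ‖HR 0‖ ∧ ∀ z ∈ ball (0 : ℂ) R, HR z = 0 ∨ ∃ k : ℂ, k ≠ 0 ∧ H z = k • HR z := by
  classical
  set 𝒰 : Ultrafilter ℕ := hyperfilter ℕ with h𝒰
  have h𝒰top : (𝒰 : Filter ℕ) ≤ atTop := by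
    rw [← Nat.cofinite_eq_atTop]
    exact hyperfilter_le_cofinite
  -- the normalised curves
  set c : ℕ → ℝ := fun R => c' (R + 1) with hcdef
  have hc : ∀ R, 0 < c R := fun R => hc' (R + 1) (by omega)
  have hch : ∀ R : ℕ, ∃ g : ℕ → ℂ → ℂ, ∀ n, R + 1 ≤ n → Differentiable ℂ (g n) ∧
      (∀ z ∈ ball (0 : ℂ) (R + 1), ‖Complex.exp (g n z) • F n z‖ ≤ 1) ∧
      c R ≤ ‖Complex.exp (g n 0) • F n 0‖ := by
    intro R
    have h1 := hchar (R + 1) (by omega)
    refine ⟨fun n => if h : R + 1 ≤ n then (h1 n h).choose else 0, fun n hn => ?_⟩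
    have h2 := (h1 n hn).choose_spec
    simp only [hn, dite_true]
    refine ⟨h2.1, fun z hz => h2.2.1 z ?_, h2.2.2⟩
    push_cast
    exact hz
  choose g hg using hch
  set Fr : ℕ → ℕ → ℂ → EN N := fun R n z => Complex.exp (g R n z) • F n z with hFr
  have hFrK : ∀ R n : ℕ, R + 1 ≤ n → Curve K (ball 0 (R + 1)) (Fr R n) := by
    intro R n hn
    have hsub : ball (0 : ℂ) (R + 1) ⊆ ball 0 (n + 1) := by
      apply ball_subset_ball
      have : (R : ℝ) ≤ n := by exact_mod_cast (by omega : R ≤ n)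
      linarith
    refine ⟨?_, fun z hz => ?_⟩
    · exact ((hg R n hn).1.cexp.differentiableOn).smul ((hF n).1.mono hsub)
    · exact hM.smul _ ((hF n).2 z (hsub hz)) _ (Complex.exp_ne_zero _)
  have hev : ∀ R : ℕ, ∀ᶠ n in (𝒰 : Filter ℕ), R + 1 ≤ n := fun R =>
    h𝒰top (eventually_ge_atTop (R + 1))
  have hmont : ∀ R : ℕ, ∃ h : ℂ → EN N, DifferentiableOn ℂ h (ball 0 (R + 1)) ∧
      TendstoLocallyUniformlyOn (Fr R) h (𝒰 : Filter ℕ) (ball 0 (R + 1)) := by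
    intro R
    refine Pool.Agent.H17.montel_ultrafilter 𝒰 (B := 1) ?_ ?_
    · filter_upwards [hev R] with n hn
      exact (hFrK R n hn).1
    · filter_upwards [hev R] with n hn
      exact (hg R n hn).2.1
  choose Hs hHd hHc using hmont
  have hpt : ∀ (R : ℕ), ∀ z ∈ ball (0 : ℂ) (R + 1), Tendsto (fun n => Fr R n z) (𝒰 : Filter ℕ)
      (𝓝 (Hs R z)) := fun R z hz => (hHc R).tendsto_at hz
  have hz0 : ∀ R : ℕ, (0 : ℂ) ∈ ball (0 : ℂ) (R + 1) := fun R => mem_ball_self (by positivity)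
  have hHc0 : ∀ R, c R ≤ ‖Hs R 0‖ := by
    intro R
    have h1 := (hpt R 0 (hz0 R)).norm
    refine ge_of_tendsto h1 ?_
    filter_upwards [hev R] with n hn
    exact (hg R n hn).2.2
  have hHb : ∀ R : ℕ, ∀ z ∈ ball (0 : ℂ) (R + 1), ‖Hs R z‖ ≤ 1 := by
    intro R z hz
    refine le_of_tendsto (hpt R z hz).norm ?_
    filter_upwards [hev R] with n hn
    exact (hg R n hn).2.1 z hz
  have hH0 : ∀ R, Hs R 0 ≠ 0 := by
    intro R h
    have h2 := hHc0 R
    rw [h, norm_zero] at h2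
    exact absurd (hc R) (not_lt.2 h2)
  have hprop : ∀ (R S : ℕ) (z : ℂ), z ∈ ball (0 : ℂ) (R + 1) → z ∈ ball (0 : ℂ) (S + 1) →
      ∀ i j, Hs R z i * Hs S z j = Hs R z j * Hs S z i := by
    intro R S z hR hS i j
    have hco : ∀ (T : ℕ), z ∈ ball (0 : ℂ) (T + 1) → ∀ i, Tendsto (fun n => Fr T n z i)
        (𝒰 : Filter ℕ) (𝓝 (Hs T z i)) := fun T hT i =>
      ((Lim_pr i).continuous.tendsto _).comp (hpt T z hT)
    have h1 : Tendsto (fun n => Fr R n z i * Fr S n z j) (𝒰 : Filter ℕ)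
        (𝓝 (Hs R z i * Hs S z j)) := (hco R hR i).mul (hco S hS j)
    have h2 : Tendsto (fun n => Fr R n z j * Fr S n z i) (𝒰 : Filter ℕ)
        (𝓝 (Hs R z j * Hs S z i)) := (hco R hR j).mul (hco S hS i)
    refine tendsto_nhds_unique h1 (h2.congr fun n => ?_)
    simp only [hFr, PiLp.smul_apply, smul_eq_mul]
    ring
  obtain ⟨H, hHdiff, hHne, hHloc⟩ := Lim_glue Hs hHd hH0 hprop
  -- membership is invariant under scaling
  have hsm : ∀ (x : EN N) (a : ℂ), a ≠ 0 → (a • x ∈ K ↔ x ∈ K) := by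
    intro x a ha
    refine ⟨fun h => ?_, fun h => hM.smul x h a ha⟩
    have := hM.smul _ h a⁻¹ (inv_ne_zero ha)
    rwa [smul_smul, inv_mul_cancel₀ ha, one_smul] at this
  have hsmc : ∀ (x : EN N) (a : ℂ), a ≠ 0 → x ∈ closure K → a • x ∈ closure K := by
    intro x a ha hx
    exact map_mem_closure (continuous_const_smul a) hx fun y hy => hM.smul y hy a ha
  have hHcl1 : ∀ (R : ℕ), ∀ z ∈ ball (0 : ℂ) (R + 1), Hs R z ∈ closure K := by
    intro R z hz
    refine mem_closure_of_tendsto (hpt R z hz) ?_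
    filter_upwards [hev R] with n hn
    exact (hFrK R n hn).2 z hz
  have hmem : ∀ z : ℂ, z ∈ ball (0 : ℂ) ((⌈‖z‖⌉₊ : ℕ) + 1) := by
    intro z
    rw [mem_ball_zero_iff]
    have := Nat.le_ceil ‖z‖
    linarith
  have hHcl : ∀ z, H z ∈ closure K := by
    intro z₀
    obtain ⟨k, u, hua, hu0, hue⟩ := hHloc _ z₀ (hmem z₀)
    have h1 : ∀ᶠ w in 𝓝[≠] z₀, H w ∈ closure K := by
      filter_upwards [hue.filter_mono nhdsWithin_le_nhds, self_mem_nhdsWithin,
        (hua.continuousAt.eventually_ne hu0).filter_mono nhdsWithin_le_nhds,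
        nhdsWithin_le_nhds (isOpen_ball.mem_nhds (hmem z₀))] with w a1 a2 a3 a4
      have h2 := hHcl1 _ w a4
      rw [a1, smul_smul] at h2
      have h3 : (w - z₀) ^ k * u w ≠ 0 := mul_ne_zero (pow_ne_zero _ (sub_ne_zero.2 a2)) a3
      have h4 := hsmc _ _ (inv_ne_zero h3) h2
      rwa [smul_smul, inv_mul_cancel₀ h3, one_smul] at h4
    have h2 : Tendsto H (𝓝[≠] z₀) (𝓝 (H z₀)) :=
      (hHdiff.continuous.tendsto z₀).mono_left nhdsWithin_le_nhds
    exact isClosed_closure.mem_of_tendsto h2 h1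
  -- the set of points outside K is open
  have hopen : IsOpen {z : ℂ | H z ∉ K} := by
    rw [isOpen_iff_mem_nhds]
    intro z₀ hz₀
    obtain ⟨k, u, hua, hu0, hue⟩ := hHloc _ z₀ (hmem z₀)
    have hball := isOpen_ball.mem_nhds (hmem z₀)
    obtain ⟨s, hs, hsub⟩ := Metric.eventually_nhds_iff_ball.1
      ((hue.and hua.eventually_analyticAt).and hball)
    have hd : DifferentiableOn ℂ (fun w => u w • H w) (ball z₀ s) := fun w hw =>
      (((hsub w hw).1.2.differentiableAt).smul (hHdiff w)).differentiableWithinAt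
    have hconv : TendstoLocallyUniformlyOn (Fr ⌈‖z₀‖⌉₊) (fun z => (z - z₀) ^ k • (u z • H z))
        (𝒰 : Filter ℕ) (ball z₀ s) :=
      ((hHc ⌈‖z₀‖⌉₊).mono fun w hw => (hsub w hw).2).congr_right fun w hw => (hsub w hw).1.1
    have hcur : ∀ᶠ n in (𝒰 : Filter ℕ), Curve K (ball z₀ s) (Fr ⌈‖z₀‖⌉₊ n) := by
      filter_upwards [hev ⌈‖z₀‖⌉₊] with n hn
      exact ⟨(hFrK _ n hn).1.mono fun w hw => (hsub w hw).2,
        fun w hw => (hFrK _ n hn).2 w (hsub w hw).2⟩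
    have h1 := hM.hur (𝒰 : Filter ℕ) inferInstance (Fr ⌈‖z₀‖⌉₊) (fun w => u w • H w) k z₀ s hs hcur
      hd hconv (smul_ne_zero hu0 (hHne z₀)) (fun h => hz₀ ((hsm _ _ hu0).1 h))
    filter_upwards [h1, hua.continuousAt.eventually_ne hu0] with w a1 a2
    exact fun h => a1 ((hsm _ _ a2).2 h)
  have hclosed : IsClosed {z : ℂ | H z ∉ K} := by
    rw [← isOpen_compl_iff, isOpen_iff_mem_nhds]
    intro z₀ hz₀
    have hz₀' : H z₀ ∈ K := not_not.1 hz₀
    have h1 := hHdiff.continuous.continuousAt.eventually (hM.rel_open _ hz₀')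
    filter_upwards [h1] with w hw
    exact not_not.2 (hw (hHcl w))
  -- the first curve near the origin
  obtain ⟨k, u, hua, hu0, hue⟩ := hHloc 0 0 (hz0 0)
  have hmt : ∀ n, 0 + 1 ≤ n → mt G (Fr 0 n) 0 = 1 := by
    intro n hn
    have hFn : DifferentiableAt ℂ (F n) 0 :=
      (hF n).1.differentiableAt (isOpen_ball.mem_nhds (hz0 n))
    have h1 := mt_smul hM hFn ((hg 0 n hn).1.cexp.differentiableAt (x := 0)) ((hF n).2 0 (hz0 n))
      (Complex.exp_ne_zero _)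
    rw [hFr, h1, h0]
  have hball := isOpen_ball.mem_nhds (hz0 0)
  obtain ⟨s, hs, hsub⟩ := Metric.eventually_nhds_iff_ball.1 (hue.and hball)
  have hcur0 : ∀ᶠ n in (𝒰 : Filter ℕ), Curve K (ball 0 s) (Fr 0 n) := by
    filter_upwards [hev 0] with n hn
    exact ⟨(hFrK _ n hn).1.mono fun w hw => (hsub w hw).2,
      fun w hw => (hFrK _ n hn).2 w (hsub w hw).2⟩
  have hconv0 : TendstoLocallyUniformlyOn (Fr 0) (Hs 0) (𝒰 : Filter ℕ) (ball 0 s) :=
    (hHc 0).mono fun w hw => (hsub w hw).2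
  have hAK : ∀ z, H z ∈ K := by
    rcases isClopen_iff.1 ⟨hclosed, hopen⟩ with h | h
    · intro z
      by_contra hz
      have : z ∈ {z : ℂ | H z ∉ K} := hz
      rw [h] at this
      exact this
    · exfalso
      have hout : ∀ z ∈ ball (0 : ℂ) s, Hs 0 z ∉ K := by
        intro z hz hzK
        have h1 := hM.ne _ hzK
        have h2 := (hsub z hz).1
        rw [smul_smul] at h2
        have h3 : (z - 0) ^ k * u z ≠ 0 := by
          intro h3
          rw [h3, zero_smul] at h2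
          exact h1 h2
        rw [h2, hsm _ _ h3] at hzK
        have h4 : z ∈ {z : ℂ | H z ∉ K} := by rw [h]; trivial
        exact h4 hzK
      have h1 := hM.lim (𝒰 : Filter ℕ) inferInstance (Fr 0) (Hs 0) 0 s hs hcur0 hconv0 (hH0 0)
        hout (1 / 2) (by norm_num)
      obtain ⟨n, h2, h3⟩ := (h1.and (hev 0)).exists
      rw [hmt n h3] at h2
      norm_num at h2
  refine ⟨H, hHdiff, hAK, ?_, fun R hR => ?_⟩
  swap
  · obtain ⟨S, rfl⟩ : ∃ S, R = S + 1 := ⟨R - 1, by omega⟩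
    push_cast
    refine ⟨Hs S, hHd S, hHb S, hHc0 S, fun z hz => ?_⟩
    obtain ⟨k, u, hua, hu0, hue⟩ := hHloc S z hz
    have h1 := hue.self_of_nhds
    rcases Nat.eq_zero_or_pos k with hk | hk
    · right
      subst hk
      rw [pow_zero, one_smul] at h1
      exact ⟨(u z)⁻¹, inv_ne_zero hu0, by rw [h1, smul_smul, inv_mul_cancel₀ hu0, one_smul]⟩
    · left
      rw [h1, sub_self, zero_pow hk.ne', zero_smul]
  have hκ0 : (0 - 0 : ℂ) ^ k * u 0 ≠ 0 := by
    intro h3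
    have h2 := hue.self_of_nhds
    rw [smul_smul, h3, zero_smul] at h2
    exact hH0 0 h2
  have h0K : Hs 0 0 ∈ K := by
    have h2 := hue.self_of_nhds
    rw [smul_smul] at h2
    rw [h2, hsm _ _ hκ0]
    exact hAK 0
  have h1 : 1 ≤ mt G (Hs 0) 0 := mt_limit hM hs hcur0 hconv0 h0K (by
    filter_upwards [hev 0] with n hn
    exact (hmt n hn).ge)
  have h2 : Hs 0 =ᶠ[𝓝 0] fun w => ((w - 0) ^ k * u w) • H w := by
    filter_upwards [hue] with w hw
    rw [hw, smul_smul]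
  have h3 : mt G (Hs 0) 0 = mt G (fun w => ((w - 0) ^ k * u w) • H w) 0 := by
    unfold mt
    rw [h2.deriv_eq, h2.self_of_nhds]
  have h4 := mt_smul hM (F := H) (k := fun w => (w - 0) ^ k * u w) (z := 0) (hHdiff 0)
    (by
      have : DifferentiableAt ℂ u 0 := hua.differentiableAt
      fun_prop) (hAK 0) hκ0
  rw [h3, h4] at h1
  exact h1

end Pool.Agent.H36.BP

end

section

/-!
# BP Brody: the Brody step

Otherwise `rescale`, `char_bound` (with `R ≤ n`: `Curve K (ball 0 (R+1))`), `limit_curve` give an entire curve `H` with `mt G H 0 ≥ 1`.  If `H` is not constant in projective space then it lies in `B`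
(`BrodyMod`) and `mt G H 0 = 0` (`zero`).  If it is constant, `H w = c(w) H 0` for all `w`, then `H' 0` is a multiple of `H 0` (`H' 0 = lim (H w - H 0)/w`, closed line) and `mt G H 0 = 0` (`mt_const`).
-/

set_option autoImplicit false

namespace Pool.Agent.H36.BP

open Filter Topology Metric

variable {N : ℕ}

variable {K B : Set (EN N)} {G : EN N → EN N → ℝ} {ρ : EN N → ℝ} {M : ℕ} {c₀ C : ℝ}

/-- the derivative of a curve on a line is on the line -/
theorem Brody_deriv_line {H : ℂ → EN N} {z₀ : ℂ} (hH : DifferentiableAt ℂ H z₀) (h : ∀ z, ∃ c : ℂ, H z = c • H z₀) :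
    ∃ a : ℂ, deriv H z₀ = a • H z₀ := by
  have hcl : IsClosed ((ℂ ∙ H z₀ : Submodule ℂ (EN N)) : Set (EN N)) := Submodule.closed_of_finiteDimensional _
  have hmem : deriv H z₀ ∈ (ℂ ∙ H z₀ : Submodule ℂ (EN N)) := by
    have ht := (hasDerivAt_iff_tendsto_slope.mp hH.hasDerivAt)
    refine hcl.mem_of_tendsto ht (Filter.Eventually.of_forall fun z => ?_)
    obtain ⟨c, hc⟩ := h z
    rw [slope_def_module]
    refine Submodule.smul_mem _ _ (Submodule.sub_mem _ ?_ (Submodule.mem_span_singleton_self _))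
    rw [hc]
    exact Submodule.smul_mem _ _ (Submodule.mem_span_singleton_self _)
  obtain ⟨a, ha⟩ := Submodule.mem_span_singleton.mp hmem
  exact ⟨a, ha.symm⟩

/-- the Brody step: only entire curves of order at most two are needed -/
theorem brody_bound2 (hM : MetricData K B G ρ M c₀ C) (hB : BrodyMod2 K B) :
    ∃ L : ℝ, 0 < L ∧ ∀ F, Curve K (ball 0 1) F → mt G F 0 ≤ L := by
  by_contra hcon
  have hunb : ∀ L : ℝ, ∃ F, Curve K (ball 0 1) F ∧ L < mt G F 0 := by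
    intro L
    by_contra h
    push Not at h
    apply hcon
    refine ⟨max L 1, lt_of_lt_of_le one_pos (le_max_right _ _), fun F hF => ?_⟩
    exact (h F hF).trans (le_max_left _ _)
  choose F hF1 hF2 hF3 using fun n => rescale hM hunb n
  obtain ⟨C₁, hC₁, hch⟩ := char_bound2 hM
  obtain ⟨H, hH, hHK, hH0, hHR⟩ := limit_curve2 hM F hF1 hF2 (fun R => Real.exp (-(C₁ * (1 + (R : ℝ) ^ 2)))) (fun R _ => Real.exp_pos _) (by
    intro R hR n hn
    have hR0 : (0 : ℝ) < R := by exact_mod_cast hR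
    have hle : (R : ℝ) + 1 ≤ n + 1 := by
      have : (R : ℝ) ≤ n := by exact_mod_cast hn
      linarith
    have hsub : ball (0 : ℂ) (R + 1) ⊆ ball (0 : ℂ) (n + 1) := ball_subset_ball hle
    exact hch R hR0 (F n) ⟨(hF1 n).1.mono hsub, fun z hz => (hF1 n).2 z (hsub hz)⟩ (hF2 n) (fun z hz => hF3 n z (hsub hz)))
  -- the growth of the limit curve
  have hord : OrdTwo H := by
    refine ⟨5 * C₁, fun r hr => ?_⟩
    set R : ℕ := ⌈r⌉₊ with hR
    have h1 : 1 ≤ R := Nat.one_le_iff_ne_zero.mpr (by rw [hR]; exact (Nat.ceil_pos.mpr hr).ne')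
    have h2 : r ≤ R := Nat.le_ceil r
    have h3 : (R : ℝ) < r + 1 := Nat.ceil_lt_add_one hr.le
    obtain ⟨HR, h4, h5, h6, h7⟩ := hHR R h1
    have hsub : ball (0 : ℂ) r ⊆ ball (0 : ℂ) R := ball_subset_ball h2
    refine ⟨HR, h4.mono hsub, fun z hz => h5 z (hsub hz), le_trans (Real.exp_le_exp.mpr ?_) h6, fun z hz => h7 z (hsub hz)⟩
    have h8 : (1 + (R : ℝ) ^ 2) ≤ 5 * (1 + r ^ 2) := by nlinarith [sq_nonneg (r - 1)]
    have h9 := mul_le_mul_of_nonneg_left h8 hC₁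
    linarith
  have hzero : mt G H 0 = 0 := by
    by_cases hc : ∃ z w, ∀ c : ℂ, H z ≠ c • H w
    · exact hM.zero H 0 (hH.analyticAt 0) (Filter.Eventually.of_forall fun z => ⟨hHK z, hB H hH hHK hc hord z⟩)
    · push Not at hc
      obtain ⟨a, ha⟩ := Brody_deriv_line (hH 0) (fun z => hc z 0)
      exact mt_const hM (hHK 0) ha
  linarith

theorem brody_bound (hM : MetricData K B G ρ M c₀ C) (hB : BrodyMod K B) :
    ∃ L : ℝ, 0 < L ∧ ∀ F, Curve K (ball 0 1) F → mt G F 0 ≤ L :=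
  brody_bound2 hM fun F h1 h2 h3 _ => hB F h1 h2 h3

end Pool.Agent.H36.BP

end

section

/-!
# SY EiL: uniqueness of the lift of an entire curve to the blow-up

Two lifts are proportional off a discrete set, hence everywhere; the factor is locally a quotient of two holomorphic functions.
-/

set_option autoImplicit false

open Topology Filter Metric

noncomputable section

namespace Pool.Agent.SY

open Pool.Agent.H17BP (Surface)
open Pool.Agent.H62.BU (blow total Ker phi)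

/-- Two nowhere vanishing entire curves which are proportional off a discrete set differ by a nowhere vanishing entire factor. -/
private lemma eilu_factor {W : Type} [NormedAddCommGroup W] [NormedSpace ℂ W] {Φ Ψ : ℂ → W} (hΦ : Differentiable ℂ Φ)
    (hΨ : Differentiable ℂ Ψ) (hΦ0 : ∀ z, Φ z ≠ 0) (hΨ0 : ∀ z, Ψ z ≠ 0) (h : ∀ z, ∃ᶠ y in 𝓝[≠] z, ∃ c : ℂ, Φ y = c • Ψ y) :
    ∃ u : ℂ → ℂ, Differentiable ℂ u ∧ (∀ z, u z ≠ 0) ∧ ∀ z, Φ z = u z • Ψ z := by
  have hex : ∀ z, ∃ c : ℂ, Φ z = c • Ψ z := by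
    intro z
    obtain ⟨L, -, hL⟩ := exists_dual_vector ℂ (Ψ z) (norm_ne_zero_iff.mpr (hΨ0 z))
    have hL0 : L (Ψ z) ≠ 0 := by
      rw [hL]
      exact Complex.ofReal_ne_zero.mpr (norm_ne_zero_iff.mpr (hΨ0 z))
    have hkey : L (Ψ z) • Φ z = L (Φ z) • Ψ z := by
      by_contra hne
      have hc : ContinuousAt (fun y => L (Ψ y) • Φ y - L (Φ y) • Ψ y) z :=
        ((L.continuous.continuousAt.comp (hΨ z).continuousAt).smul (hΦ z).continuousAt).sub
          ((L.continuous.continuousAt.comp (hΦ z).continuousAt).smul (hΨ z).continuousAt)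
      have h1 : ∀ᶠ y in 𝓝[≠] z, L (Ψ y) • Φ y - L (Φ y) • Ψ y ≠ 0 :=
        (hc.eventually_ne (sub_ne_zero.mpr hne)).filter_mono nhdsWithin_le_nhds
      obtain ⟨y, ⟨c, hy⟩, hy2⟩ := ((h z).and_eventually h1).exists
      apply hy2
      rw [hy, map_smul, smul_smul, smul_eq_mul, mul_comm c, sub_self]
    refine ⟨L (Φ z) / L (Ψ z), ?_⟩
    rw [div_eq_inv_mul, mul_smul, ← hkey, smul_smul, inv_mul_cancel₀ hL0, one_smul]
  choose u hu using hex
  refine ⟨u, fun z => ?_, fun z h0 => hΦ0 z (by rw [hu z, h0, zero_smul]), hu⟩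
  obtain ⟨L, -, hL⟩ := exists_dual_vector ℂ (Ψ z) (norm_ne_zero_iff.mpr (hΨ0 z))
  have hL0 : L (Ψ z) ≠ 0 := by
    rw [hL]
    exact Complex.ofReal_ne_zero.mpr (norm_ne_zero_iff.mpr (hΨ0 z))
  have hd1 : DifferentiableAt ℂ (fun y => L (Φ y)) z := L.differentiableAt.comp z (hΦ z)
  have hd2 : DifferentiableAt ℂ (fun y => L (Ψ y)) z := L.differentiableAt.comp z (hΨ z)
  refine (hd1.div hd2 hL0).congr_of_eventuallyEq ?_
  filter_upwards [hd2.continuousAt.eventually_ne hL0] with y hy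
  change u y = L (Φ y) / L (Ψ y)
  rw [hu y, map_smul, smul_eq_mul, mul_div_cancel_right₀ _ hy]

variable {V : Type} [NormedAddCommGroup V] [NormedSpace ℂ V] {ι : Type} [Fintype ι] {l : ι → V →L[ℂ] ℂ} {X T : Set V} {q : V}

theorem liftB_unique (hX : Surface X) (hl : Ker l q) (hTX : T ⊆ X) (hT : ∀ x ∈ T, ∀ c : ℂ, c ≠ 0 → c • x ∈ T) (hq : q ∈ T) {F : ℂ → V}
    (hF : Ent X T F) {Φ Ψ : ℂ → ι → V} (h1 : IsLiftB l X T F Φ) (h2 : IsLiftB l X T F Ψ) :
    ∃ u : ℂ → ℂ, Differentiable ℂ u ∧ (∀ z, u z ≠ 0) ∧ ∀ z, Φ z = u z • Ψ z := by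
  have hF0 : ∀ z, F z ≠ 0 := fun z h => hX.zero (h ▸ hF.mem z)
  obtain ⟨hΦ, h, hh, hhΦ⟩ := h1
  obtain ⟨hΨ, k, hk, hkΨ⟩ := h2
  obtain ⟨z₀, hz₀⟩ := hF.out
  -- some coordinate of `phi l (F z)` does not vanish identically
  obtain ⟨b, hb⟩ : ∃ b, l b (F z₀) ≠ 0 := by
    by_contra hcon
    push Not at hcon
    obtain ⟨c, hc⟩ := (hl (F z₀)).mp hcon
    have hc0 : c ≠ 0 := by
      rintro rfl
      exact hF0 z₀ (by rw [hc, zero_smul])
    exact hz₀ (hc ▸ hT q hq c hc0)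
  have hfa : AnalyticOnNhd ℂ (fun z => l b (F z)) Set.univ := fun z _ =>
    ((l b).differentiable.comp hF.diff).analyticAt z
  have hne : ∀ z, ∀ᶠ y in 𝓝[≠] z, l b (F y) ≠ 0 := by
    intro z
    rcases (hfa z (Set.mem_univ z)).eventually_eq_zero_or_eventually_ne_zero with hz | hz
    · exact absurd (hfa.eqOn_zero_of_preconnected_of_eventuallyEq_zero isPreconnected_univ (Set.mem_univ z) hz (Set.mem_univ z₀)) hb
    · exact hz
  refine eilu_factor hΦ.diff hΨ.diff (fun z => (hΦ.mem z).2) (fun z => (hΨ.mem z).2) fun z => ?_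
  refine Eventually.frequently ?_
  filter_upwards [hne z] with y hy
  have hh0 : h y ≠ 0 := by
    intro h0
    have h3 := hhΦ y
    rw [h0, zero_smul] at h3
    have h4 : l b (F y) • F y = 0 := congrFun h3 b
    exact smul_ne_zero hy (hF0 y) h4
  refine ⟨(h y)⁻¹ * k y, ?_⟩
  rw [mul_smul, ← hkΨ y, hhΦ y, smul_smul, inv_mul_cancel₀ hh0, one_smul]

end Pool.Agent.SY

end
end

section

/-!
# SY EiL1: existence of the lift of an entire curve to the blow-up

The entire functions `l b (F z)` are divided by an entire function whose orders are the minima of their orders (Weierstrass' theorem).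
-/

set_option autoImplicit false

open Topology Filter Metric

noncomputable section

namespace Pool.Agent.SY

open Pool.Agent.H17BP (Surface)
open Pool.Agent.H62.BU (blow total Ker phi dense)

private lemma eil_quot {f w : ℂ → ℂ} {z₀ : ℂ} {n : ℕ} (hf : AnalyticAt ℂ f z₀) (hw : AnalyticAt ℂ w z₀)
    (hn : analyticOrderAt w z₀ = n) (h : (n : ℕ∞) ≤ analyticOrderAt f z₀) :
    ∃ q : ℂ → ℂ, AnalyticAt ℂ q z₀ ∧ ∀ᶠ z in 𝓝 z₀, f z = q z * w z := by
  obtain ⟨g, hg, hfg⟩ := (natCast_le_analyticOrderAt hf).mp h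
  obtain ⟨u, hu, hu0, hwu⟩ := hw.analyticOrderAt_eq_natCast.mp hn
  refine ⟨fun z => g z / u z, hg.div hu hu0, ?_⟩
  filter_upwards [hfg, hwu, hu.continuousAt.eventually_ne hu0] with z h1 h2 h3
  rw [h1, h2, smul_eq_mul, smul_eq_mul]
  field_simp

/-- Entire functions, not all zero, divided by their greatest common divisor. -/
private lemma eil_gcd {ι : Type} [Fintype ι] {f : ι → ℂ → ℂ} (hf : ∀ b, Differentiable ℂ (f b)) {z₀ : ℂ} (h0 : ∃ b, f b z₀ ≠ 0) :
    ∃ (w : ℂ → ℂ) (k : ι → ℂ → ℂ), Differentiable ℂ w ∧ (∀ b, Differentiable ℂ (k b)) ∧ (∀ b z, f b z = k b z * w z) ∧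
      (∀ z, ∃ b, k b z ≠ 0) ∧ ∀ z, ∀ᶠ y in 𝓝[≠] z, w y ≠ 0 := by
  classical
  obtain ⟨b₀, hb₀⟩ := h0
  have hfa : ∀ b z, AnalyticAt ℂ (f b) z := fun b z => (hf b).analyticAt z
  have hfin : ∀ z, analyticOrderAt (f b₀) z ≠ ⊤ := fun z =>
    Pool.Agent.H17.EntFun.order_ne_top (f := ⟨f b₀, hf b₀⟩) ((Pool.Agent.H17.EntFun.ne_zero_iff _).mpr ⟨z₀, hb₀⟩) z
  -- the minimal order
  set m : ℂ → ℕ∞ := fun z => Finset.univ.inf (fun b => analyticOrderAt (f b) z) with hm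
  have hmle : ∀ z b, m z ≤ analyticOrderAt (f b) z := fun z b => Finset.inf_le (Finset.mem_univ b)
  have hmfin : ∀ z, m z ≠ ⊤ := fun z h => hfin z (top_le_iff.mp (h ▸ hmle z b₀))
  set D : ℂ → ℕ := fun z => (m z).toNat with hD
  have hDm : ∀ z, (D z : ℕ∞) = m z := fun z => ENat.natCast_toNat (hmfin z)
  have hmex : ∀ z, ∃ b, analyticOrderAt (f b) z = m z := by
    intro z
    obtain ⟨b, -, hb⟩ := Finset.exists_mem_eq_inf (Finset.univ : Finset ι) ⟨b₀, Finset.mem_univ _⟩ (fun b => analyticOrderAt (f b) z)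
    exact ⟨b, hb.symm⟩
  have hne : ∀ z, ∀ᶠ y in 𝓝[≠] z, f b₀ y ≠ 0 := by
    intro z
    rcases (hfa b₀ z).eventually_eq_zero_or_eventually_ne_zero with h | h
    · exact absurd (analyticOrderAt_eq_top.mpr h) (hfin z)
    · exact h
  have hD0 : ∀ z, f b₀ z ≠ 0 → D z = 0 := by
    intro z hz
    have h1 := hmle z b₀
    rw [(hfa b₀ z).analyticOrderAt_eq_zero.mpr hz, ← hDm z] at h1
    exact_mod_cast le_antisymm h1 zero_le
  have hDfin : ∀ R : ℝ, {z ∈ Metric.closedBall (0 : ℂ) R | D z ≠ 0}.Finite := by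
    intro R
    by_contra hinf
    obtain ⟨y, -, hy⟩ := Set.Infinite.exists_accPt_of_subset_isCompact hinf
      (isCompact_closedBall (0 : ℂ) R) (fun z hz => hz.1)
    rw [accPt_iff_frequently_nhdsNE] at hy
    obtain ⟨z, hz1, hz2⟩ := (hy.and_eventually (hne y)).exists
    exact hz1.2 (hD0 z hz2)
  obtain ⟨w, hw⟩ := Pool.Agent.H17.exists_entire_with_orders D hDfin
  have hwa : ∀ z, AnalyticAt ℂ (w : ℂ → ℂ) z := fun z => w.analyticAt z
  have hwne : ∀ z, ∀ᶠ y in 𝓝[≠] z, (w : ℂ → ℂ) y ≠ 0 := by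
    intro z
    rcases (hwa z).eventually_eq_zero_or_eventually_ne_zero with h | h
    · have h1 := analyticOrderAt_eq_top.mpr h
      rw [hw z] at h1
      exact absurd h1 (ENat.natCast_ne_top _)
    · exact h
  choose q hqa hqe using fun b z => eil_quot (hfa b z) (hwa z) (hw z) ((hDm z).le.trans (hmle z b))
  set k : ι → ℂ → ℂ := fun b z => q b z z with hk
  have hkloc : ∀ b z, k b =ᶠ[𝓝 z] q b z := by
    intro b z
    filter_upwards [eventually_nhdsWithin_iff.mp (hwne z), hqe b z] with y h1 h2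
    by_cases hy : y = z
    · rw [hy]
    · have h3 : f b y = q b y y * (w : ℂ → ℂ) y := (hqe b y).self_of_nhds
      exact mul_right_cancel₀ (h1 hy) (h3.symm.trans h2)
  refine ⟨w, k, w.diff, fun b z => ((hkloc b z).differentiableAt_iff).mpr (hqa b z).differentiableAt,
    fun b z => (hqe b z).self_of_nhds, fun z => ?_, hwne⟩
  obtain ⟨b, hb⟩ := hmex z
  refine ⟨b, ?_⟩
  have h1 : analyticOrderAt (f b) z = analyticOrderAt (fun y => q b z y * (w : ℂ → ℂ) y) z := analyticOrderAt_congr (hqe b z)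
  have h2 : analyticOrderAt (fun y => q b z y * (w : ℂ → ℂ) y) z = analyticOrderAt (q b z) z + analyticOrderAt (w : ℂ → ℂ) z :=
    analyticOrderAt_mul (hqa b z) (hwa z)
  rw [h1, h2, hw z, ← hDm z] at hb
  have h3 : analyticOrderAt (q b z) z = 0 := by
    have h4 : analyticOrderAt (q b z) z + (D z : ℕ∞) = 0 + (D z : ℕ∞) := by rw [hb, zero_add]
    exact (ENat.add_left_injective_of_ne_top (ENat.natCast_ne_top _)) h4
  exact (hqa b z).analyticOrderAt_eq_zero.mp h3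

variable {V : Type} [NormedAddCommGroup V] [NormedSpace ℂ V] {ι : Type} [Fintype ι] {l : ι → V →L[ℂ] ℂ} {X T : Set V} {q : V}

theorem exists_liftB (hX : Surface X) (hl : Ker l q) (hTX : T ⊆ X) (hT : ∀ x ∈ T, ∀ c : ℂ, c ≠ 0 → c • x ∈ T) (hq : q ∈ T) {F : ℂ → V}
    (hF : Ent X T F) : ∃ Φ, IsLiftB l X T F Φ := by
  have hF0 : ∀ z, F z ≠ 0 := fun z h => hX.zero (h ▸ hF.mem z)
  obtain ⟨z₀, hz₀⟩ := hF.out
  have h0 : ∃ b, l b (F z₀) ≠ 0 := by
    by_contra hcon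
    push Not at hcon
    obtain ⟨c, hc⟩ := (hl (F z₀)).mp hcon
    have hc0 : c ≠ 0 := by
      rintro rfl
      exact hF0 z₀ (by rw [hc, zero_smul])
    exact hz₀ (hc ▸ hT q hq c hc0)
  have hfd : ∀ b, Differentiable ℂ (fun z => l b (F z)) := fun b => (l b).differentiable.comp hF.diff
  obtain ⟨w, k, hwd, hkd, hkf, hk0, hwne⟩ := eil_gcd hfd h0
  have hphi : ∀ z, phi l (F z) = w z • (fun b => k b z • F z) := by
    intro z
    funext b
    change l b (F z) • F z = w z • (k b z • F z)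
    rw [hkf b z, smul_smul, mul_comm]
  have hΦ0 : ∀ z, (fun b => k b z • F z) ≠ (0 : ι → V) := by
    intro z h
    obtain ⟨b, hb⟩ := hk0 z
    exact smul_ne_zero hb (hF0 z) (congrFun h b)
  have hΦd : Differentiable ℂ (fun z => (fun b => k b z • F z : ι → V)) := differentiable_pi.mpr fun b => (hkd b).smul hF.diff
  refine ⟨fun z b => k b z • F z, ⟨hΦd, fun z => ⟨?_, hΦ0 z⟩, z₀, ?_⟩, w, hwd, hphi⟩
  · have hc : Tendsto (fun z => (fun b => k b z • F z : ι → V)) (𝓝[≠] z) (𝓝 (fun b => k b z • F z)) :=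
      (hΦd z).continuousAt.tendsto.mono_left nhdsWithin_le_nhds
    refine mem_closure_of_tendsto hc ?_
    filter_upwards [hwne z] with y hy
    refine ⟨F y, hF.mem y, ?_, (w y)⁻¹, inv_ne_zero hy, ?_⟩
    · obtain ⟨b, hb⟩ := hk0 y
      exact ⟨b, by rw [hkf b y]; exact mul_ne_zero hb hy⟩
    · rw [hphi y, smul_smul, inv_mul_cancel₀ hy, one_smul]
  · rintro ⟨-, h⟩
    obtain ⟨b, hb⟩ := hk0 z₀
    have h1 : k b z₀ • F z₀ ∈ T := h b (smul_ne_zero hb (hF0 z₀))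
    have h2 := hT _ h1 (k b z₀)⁻¹ (inv_ne_zero hb)
    rw [smul_smul, inv_mul_cancel₀ hb, one_smul] at h2
    exact hz₀ h2

end Pool.Agent.SY

end
end

section

/-!
# SY EiD: the metric of the blow-up on the curves downstairs

The value does not depend on the lift; it is compatible with affine changes of the parameter and with units.
-/

set_option autoImplicit false

open Topology Filter Metric

noncomputable section

namespace Pool.Agent.SY

open Pool.Agent.H36.BP (EN)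
open Pool.Agent.H17BP (Surface)
open Pool.Agent.H62.BU (blow total Ker phi)

variable {V : Type} [NormedAddCommGroup V] [NormedSpace ℂ V] {ι : Type} [Fintype ι] {l : ι → V →L[ℂ] ℂ} {X T : Set V} {q : V}

theorem down_eq {N' : ℕ} {L' : (ι → V) ≃L[ℂ] EN N'} {rho : (ι → V) → ℝ} {M : ℕ} {c₀ C : ℝ} {g : (ℂ → ι → V) → ℂ → ℝ}
    (hX : Surface X) (hl : Ker l q) (hTX : T ⊆ X) (hT : ∀ x ∈ T, ∀ c : ℂ, c ≠ 0 → c • x ∈ T) (hq : q ∈ T)
    (E : Energy (blow l X) (total l X T) (fun y => ‖L' y‖) rho M c₀ C g) {F : ℂ → V} (hF : Ent X T F) {Φ : ℂ → ι → V}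
    (h1 : IsLiftB l X T F Φ) : down l X T g F = g Φ := by
  have hex : ∃ Φ, IsLiftB l X T F Φ := ⟨Φ, h1⟩
  have h2 : down l X T g F = g hex.choose := by
    unfold down
    rw [dif_pos hex]
  obtain ⟨u, hu, hu0, huΦ⟩ := liftB_unique hX hl hTX hT hq hF hex.choose_spec h1
  rw [h2, show hex.choose = fun z => u z • Φ z from funext huΦ]
  exact funext fun z => E.unit Φ h1.1 u hu hu0 z

private lemma eid_aff_ent {W : Type} [NormedAddCommGroup W] [NormedSpace ℂ W] {X T : Set W} {F : ℂ → W} (hF : Ent X T F) {a b : ℂ}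
    (ha : a ≠ 0) : Ent X T (fun w => F (a * w + b)) := by
  refine ⟨hF.diff.comp ((differentiable_id.const_mul a).add_const b), fun z => hF.mem _, ?_⟩
  obtain ⟨z, hz⟩ := hF.out
  refine ⟨(z - b) / a, ?_⟩
  rwa [mul_div_cancel₀ _ ha, sub_add_cancel]

theorem down_aff {N' : ℕ} {L' : (ι → V) ≃L[ℂ] EN N'} {rho : (ι → V) → ℝ} {M : ℕ} {c₀ C : ℝ} {g : (ℂ → ι → V) → ℂ → ℝ}
    (hX : Surface X) (hl : Ker l q) (hTX : T ⊆ X) (hT : ∀ x ∈ T, ∀ c : ℂ, c ≠ 0 → c • x ∈ T) (hq : q ∈ T)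
    (E : Energy (blow l X) (total l X T) (fun y => ‖L' y‖) rho M c₀ C g) {F : ℂ → V} (hF : Ent X T F) {a b : ℂ} (ha : a ≠ 0) (z : ℂ) :
    down l X T g (fun w => F (a * w + b)) z = ‖a‖ * down l X T g F (a * z + b) := by
  obtain ⟨Φ, hΦ, h, hh, hhΦ⟩ := exists_liftB hX hl hTX hT hq hF
  have h2 : IsLiftB l X T (fun w => F (a * w + b)) (fun w => Φ (a * w + b)) :=
    ⟨eid_aff_ent hΦ ha, fun w => h (a * w + b), hh.comp ((differentiable_id.const_mul a).add_const b), fun w => hhΦ _⟩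
  rw [down_eq hX hl hTX hT hq E (eid_aff_ent hF ha) h2, down_eq hX hl hTX hT hq E hF ⟨hΦ, h, hh, hhΦ⟩]
  exact E.aff Φ hΦ a b ha z

theorem down_unit {N' : ℕ} {L' : (ι → V) ≃L[ℂ] EN N'} {rho : (ι → V) → ℝ} {M : ℕ} {c₀ C : ℝ} {g : (ℂ → ι → V) → ℂ → ℝ}
    (hX : Surface X) (hl : Ker l q) (hTX : T ⊆ X) (hT : ∀ x ∈ T, ∀ c : ℂ, c ≠ 0 → c • x ∈ T) (hq : q ∈ T)
    (E : Energy (blow l X) (total l X T) (fun y => ‖L' y‖) rho M c₀ C g) {F : ℂ → V} (hF : Ent X T F) {h : ℂ → ℂ}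
    (hh : Differentiable ℂ h) (h0 : ∀ z, h z ≠ 0) (z : ℂ) :
    down l X T g (fun w => h w • F w) z = down l X T g F z := by
  obtain ⟨Φ, hΦ, k, hk, hkΦ⟩ := exists_liftB hX hl hTX hT hq hF
  have h1 : Ent X T (fun w => h w • F w) := by
    refine ⟨fun w => (hh w).smul (hF.diff w), fun w => hX.smul _ (hF.mem w) _ (h0 w), ?_⟩
    obtain ⟨w, hw⟩ := hF.out
    refine ⟨w, fun hc => hw ?_⟩
    have h3 := hT _ hc (h w)⁻¹ (inv_ne_zero (h0 w))
    rwa [smul_smul, inv_mul_cancel₀ (h0 w), one_smul] at h3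
  have h2 : IsLiftB l X T (fun w => h w • F w) Φ := by
    refine ⟨hΦ, fun w => h w ^ 2 * k w, fun w => ((hh w).pow 2).mul (hk w), fun w => ?_⟩
    rw [mul_smul, ← hkΦ w]
    funext b
    simp only [phi, Pi.smul_apply, map_smul, smul_eq_mul, smul_smul]
    congr 1
    ring
  rw [down_eq hX hl hTX hT hq E h1 h2, down_eq hX hl hTX hT hq E hF ⟨hΦ, k, hk, hkΦ⟩]

end Pool.Agent.SY

end
end

section

/-!
# SY EiS: the curvature of the metric downstairs

Near `z₀` every component of the lift is `Φ w b = k b w • F w` with `k b` analytic, `k = (k b)_b ≠ 0`, so `|L' (Φ w)| = |k w| |L (F w)|`.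
`|k|` has a lower support of exponent `0` (Cauchy-Schwarz), hence so has `|k|^c₀`; multiply the property `sub` of `g Φ` by it.
-/

set_option autoImplicit false

open Topology Filter Metric

noncomputable section

namespace Pool.Agent.SY

open Pool.Agent.H36.BP (EN fs wd Sub)
open Pool.Agent.H17BP (Pr Surface IsForm NoZeros NodalAt Eqs IsChart ResAt)
open Pool.Agent.H62.BU (blow total Ker phi)

variable {V : Type} [NormedAddCommGroup V] [NormedSpace ℂ V] {ι : Type} [Fintype ι] {l : ι → V →L[ℂ] ℂ} {X T : Set V} {q : V}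

private theorem ne_of_mem (hX : Surface X) {x : V} (hx : x ∈ X) : x ≠ 0 := fun h => hX.zero (h ▸ hx)

/-- the norm of a holomorphic vector -/
theorem sub_norm_pi {k : ι → ℂ → ℂ} {z₀ : ℂ} (hk : ∀ b, AnalyticAt ℂ (k b) z₀) (h0 : ∃ b, k b z₀ ≠ 0) :
    Sub (fun w => ‖(WithLp.toLp 2 (fun b => k b w) : EuclideanSpace ℂ ι)‖) z₀ 0 := by
  set U : ℂ → EuclideanSpace ℂ ι := fun w => WithLp.toLp 2 (fun b => k b w) with hU
  have hU0 : U z₀ ≠ 0 := by
    intro h
    obtain ⟨b, hb⟩ := h0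
    apply hb
    have := congrArg (fun v : EuclideanSpace ℂ ι => v b) h
    exact this
  have hn : 0 < ‖U z₀‖ := norm_pos_iff.mpr hU0
  set f : ℂ → ℂ := fun w => inner ℂ (U z₀) (U w) / (‖U z₀‖ : ℂ) with hf
  have hfa : AnalyticAt ℂ f z₀ := by
    refine AnalyticAt.div ?_ analyticAt_const (by exact_mod_cast hn.ne')
    have h1 : (fun w => (inner ℂ (U z₀) (U w) : ℂ)) = fun w => ∑ b, k b w * (starRingEnd ℂ) (k b z₀) := by
      funext w
      rw [PiLp.inner_apply]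
      rfl
    rw [h1]
    exact Finset.analyticAt_fun_sum _ fun b _ => (hk b).mul analyticAt_const
  have hf0 : ‖f z₀‖ = ‖U z₀‖ := by
    rw [hf]
    simp only
    rw [norm_div, inner_self_eq_norm_sq_to_K, norm_pow, Complex.norm_real]
    simp only [Complex.coe_algebraMap, Complex.norm_real, norm_norm]
    field_simp
  have hf1 : f z₀ ≠ 0 := by
    rw [← norm_pos_iff, hf0]
    exact hn
  refine (Pool.Agent.H36.BP.Sub.of_holo hfa hf1).mono hf0 (Eventually.of_forall fun w => ?_)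
  rw [hf]
  simp only
  rw [norm_div, Complex.norm_real, norm_norm, div_le_iff₀ hn, mul_comm]
  exact norm_inner_le_norm _ _

/-- the multiplier of the lift does not vanish identically near any point -/
theorem lift_ne (hX : Surface X) (hl : Ker l q) (hT : ∀ x ∈ T, ∀ c : ℂ, c ≠ 0 → c • x ∈ T) (hq : q ∈ T) {F : ℂ → V}
    (hF : Ent X T F) {Φ : ℂ → ι → V} {h : ℂ → ℂ} (hh : Differentiable ℂ h) (hphi : ∀ z, phi l (F z) = h z • Φ z) (z₀ : ℂ) :
    ∀ᶠ z in 𝓝[≠] z₀, h z ≠ 0 := by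
  rcases (hh.analyticAt z₀).eventually_eq_zero_or_eventually_ne_zero with h1 | h1
  · exfalso
    have h2 : ∀ z, h z = 0 := by
      intro z
      have h3 : AnalyticOnNhd ℂ h Set.univ := fun w _ => hh.analyticAt w
      exact h3.eqOn_zero_of_preconnected_of_eventuallyEq_zero isPreconnected_univ (Set.mem_univ z₀) h1 (Set.mem_univ z)
    obtain ⟨z, hz⟩ := hF.out
    apply hz
    have hne : F z ≠ 0 := ne_of_mem hX (hF.mem z)
    have h4 : ∀ b, l b (F z) = 0 := by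
      intro b
      have h5 := congrFun (hphi z) b
      rw [h2 z, zero_smul] at h5
      have h6 : l b (F z) • F z = 0 := h5
      exact (smul_eq_zero.mp h6).resolve_right hne
    obtain ⟨c, hc⟩ := (hl (F z)).mp h4
    have hc0 : c ≠ 0 := by
      rintro rfl
      rw [zero_smul] at hc
      exact hne hc
    rw [hc]
    exact hT q hq c hc0
  · exact h1

/-- the components of the lift are holomorphic multiples of `F` -/
theorem lift_comp {N : ℕ} (L : V ≃L[ℂ] EN N) (hX : Surface X) (hl : Ker l q) (hT : ∀ x ∈ T, ∀ c : ℂ, c ≠ 0 → c • x ∈ T) (hq : q ∈ T)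
    {F : ℂ → V} (hF : Ent X T F) {Φ : ℂ → ι → V} (h1 : IsLiftB l X T F Φ) (z₀ : ℂ) :
    ∃ k : ι → ℂ → ℂ, (∀ b, AnalyticAt ℂ (k b) z₀) ∧ (∃ b, k b z₀ ≠ 0) ∧ ∀ᶠ w in 𝓝 z₀, ∀ b, Φ w b = k b w • F w := by
  obtain ⟨hΦ, h, hh, hphi⟩ := h1
  haveI : FiniteDimensional ℂ V := L.symm.toLinearEquiv.finiteDimensional
  haveI : CompleteSpace V := FiniteDimensional.complete ℂ V
  have hne : F z₀ ≠ 0 := ne_of_mem hX (hF.mem z₀)
  have hLne : L (F z₀) ≠ 0 := fun h0 => hne (by simpa using congrArg L.symm h0)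
  obtain ⟨i, hi⟩ : ∃ i, L (F z₀) i ≠ 0 := by
    by_contra hcon
    push Not at hcon
    exact hLne (by ext i; exact hcon i)
  set e : V →L[ℂ] ℂ := (EuclideanSpace.proj i : EN N →L[ℂ] ℂ).comp (L : V →L[ℂ] EN N) with he
  have he0 : e (F z₀) ≠ 0 := hi
  have hFa : AnalyticAt ℂ F z₀ := hF.diff.analyticAt z₀
  have hΦa : ∀ b, AnalyticAt ℂ (fun w => Φ w b) z₀ := by
    intro b
    exact ((ContinuousLinearMap.proj (R := ℂ) (φ := fun _ : ι => V) b).analyticAt _).comp (hΦ.diff.analyticAt z₀)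
  have hka : ∀ b, AnalyticAt ℂ (fun w => e (Φ w b) / e (F w)) z₀ := by
    intro b
    exact ((e.analyticAt _).comp (hΦa b)).div ((e.analyticAt _).comp hFa) he0
  have hev : ∀ᶠ w in 𝓝 z₀, ∀ b, Φ w b = (e (Φ w b) / e (F w)) • F w := by
    rw [eventually_all]
    intro b
    have h2 : AnalyticAt ℂ (fun w => (e (Φ w b) / e (F w)) • F w) z₀ := (hka b).smul hFa
    have h3 : ∀ᶠ w in 𝓝[≠] z₀, Φ w b = (e (Φ w b) / e (F w)) • F w := by
      have h4 : ∀ᶠ w in 𝓝 z₀, e (F w) ≠ 0 := ((e.analyticAt _).comp hFa).continuousAt.eventually_ne he0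
      filter_upwards [lift_ne hX hl hT hq hF hh hphi z₀, h4.filter_mono nhdsWithin_le_nhds] with w h5 h6
      have h7 : l b (F w) • F w = h w • Φ w b := congrFun (hphi w) b
      have h8 : Φ w b = ((h w)⁻¹ * l b (F w)) • F w := by
        rw [mul_smul, h7, smul_smul, inv_mul_cancel₀ h5, one_smul]
      rw [h8, map_smul, smul_eq_mul, mul_div_assoc, div_self h6, mul_one]
    exact ((hΦa b).frequently_eq_iff_eventually_eq h2).mp h3.frequently
  refine ⟨fun b w => e (Φ w b) / e (F w), hka, ?_, hev⟩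
  by_contra hcon
  push Not at hcon
  have h2 : Φ z₀ = 0 := by
    funext b
    have h3 := hev.self_of_nhds b
    rw [h3, hcon b, zero_smul]
    rfl
  exact (hΦ.mem z₀).2 h2

/-- MODULE EiS: the curvature -/
theorem down_sub {N N' : ℕ} {L : V ≃L[ℂ] EN N} {L' : (ι → V) ≃L[ℂ] EN N'} (hL : ∀ y, ‖L' y‖ ^ 2 = ∑ b, ‖L (y b)‖ ^ 2)
    {rho : (ι → V) → ℝ} {M : ℕ} {c₀ C : ℝ} {g : (ℂ → ι → V) → ℂ → ℝ}
    (hX : Surface X) (hl : Ker l q) (hTX : T ⊆ X) (hT : ∀ x ∈ T, ∀ c : ℂ, c ≠ 0 → c • x ∈ T) (hq : q ∈ T)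
    (E : Energy (blow l X) (total l X T) (fun y => ‖L' y‖) rho M c₀ C g) {F : ℂ → V} (hF : Ent X T F) (z : ℂ)
    (hz : 0 < down l X T g F z) :
    Sub (fun w => down l X T g F w * ‖L (F w)‖ ^ (-c₀)) z (-(C * down l X T g F z ^ 2)) := by
  obtain ⟨Φ, hΦ⟩ := exists_liftB hX hl hTX hT hq hF
  rw [down_eq hX hl hTX hT hq E hF hΦ] at hz ⊢
  obtain ⟨k, hka, hk0, hk⟩ := lift_comp L hX hl hT hq hF hΦ z
  have h1 := E.sub Φ hΦ.1 z hz
  have h2 := (sub_norm_pi hka hk0).rpow E.c₀_pos.le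
  have h3 := h1.mul h2
  rw [mul_zero, add_zero] at h3
  refine h3.congr ?_
  have hpos : ∀ᶠ w in 𝓝 z, (WithLp.toLp 2 (fun b => k b w) : EuclideanSpace ℂ ι) ≠ 0 := by
    obtain ⟨b, hb⟩ := hk0
    filter_upwards [(hka b).continuousAt.eventually_ne hb] with w hw h0
    exact hw (congrArg (fun v : EuclideanSpace ℂ ι => v b) h0)
  filter_upwards [hk, hpos] with w hw hw0
  set U : EuclideanSpace ℂ ι := WithLp.toLp 2 (fun b => k b w) with hU
  have hUn : 0 < ‖U‖ := norm_pos_iff.mpr hw0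
  have hLF : 0 < ‖L (F w)‖ := by
    refine norm_pos_iff.mpr fun h0 => ne_of_mem hX (hF.mem w) ?_
    simpa using congrArg L.symm h0
  have h4 : ‖L' (Φ w)‖ = ‖U‖ * ‖L (F w)‖ := by
    have h5 : ‖L' (Φ w)‖ ^ 2 = (‖U‖ * ‖L (F w)‖) ^ 2 := by
      rw [hL, mul_pow, EuclideanSpace.norm_sq_eq, Finset.sum_mul]
      refine Finset.sum_congr rfl fun b _ => ?_
      rw [hw b, map_smul, norm_smul, mul_pow]
    exact (pow_left_inj₀ (norm_nonneg _) (by positivity) two_ne_zero).mp h5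
  rw [h4, Real.mul_rpow hUn.le hLF.le]
  have h6 : ‖U‖ ^ (-c₀) * ‖U‖ ^ c₀ = 1 := by
    rw [← Real.rpow_add hUn, neg_add_cancel, Real.rpow_zero]
  calc g Φ w * (‖U‖ ^ (-c₀) * ‖L (F w)‖ ^ (-c₀)) * ‖U‖ ^ c₀ = g Φ w * ‖L (F w)‖ ^ (-c₀) * (‖U‖ ^ (-c₀) * ‖U‖ ^ c₀) := by ring
    _ = g Φ w * ‖L (F w)‖ ^ (-c₀) := by rw [h6, mul_one]

end Pool.Agent.SY

end
end
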