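import Pool.Agent.H94.G6.M123
import Pool.Agent.H94.G6.M28
import Pool.Agent.H94.G6.M34
import Pool.Agent.H94.G6.M63
import Pool.Agent.H94.G6.M66
import Pool.Agent.H94.G6.M77

/-! The parts of this file: H68.KR.KODL, MQ3.GlobE, MQ3.GlobO, SY.EiW. -/

section

/-!
# KR KODL: Kodaira's lemma with logarithmic poles
-/

set_option autoImplicit false

open MvPolynomial
open Pool.Agent.H23.Fano (Form regularForms PrimeDivisorOver)
open Pool.Agent.H17GT (coordFun functionField)
open Pool.Agent.H17LG.Variety (FunField ratio PoleAtMost IsLogGeneralType)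

noncomputable section

namespace Pool.Agent.H68.KR

variable {N : ℕ} (P : Ideal (MvPolynomial (Fin (N + 1)) ℂ)) [P.IsPrime]

private theorem X_coordFun_ne {l : Fin (N + 1)} (h : coordFun P l ≠ 0) : X l ∉ P := by
  intro hX
  apply h
  rw [coordFun, Ideal.Quotient.eq_zero_iff_mem.2 hX, map_zero]

private theorem X_coordFun_ne' {l : Fin (N + 1)} (h : X l ∉ P) : coordFun P l ≠ 0 := by
  intro h0
  apply h
  rw [coordFun] at h0
  have h10 : Ideal.Quotient.mk P (X l) = 0 :=
    (IsFractionRing.injective (MvPolynomial (Fin (N + 1)) ℂ ⧸ P)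
      (FractionRing (MvPolynomial (Fin (N + 1)) ℂ ⧸ P))) (by rw [h0, map_zero])
  exact Ideal.Quotient.eq_zero_iff_mem.1 h10

private theorem X_ord_aeval {K : Type} [Field K] [Algebra ℂ K] {n s : ℕ} (D : PrimeDivisorOver K n)
    (y : Fin s → K) (hy : ∀ i, 0 ≤ D.ord (y i)) (Q : MvPolynomial (Fin s) ℂ) :
    0 ≤ D.ord (aeval y Q) := by
  induction Q using MvPolynomial.induction_on with
  | C a =>
    rw [aeval_C]
    exact D.ord_const a
  | add p q hp hq =>
    rw [map_add]
    exact D.ord.map_le_add hp hq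
  | mul_X p i hp =>
    rw [map_mul, aeval_X, D.ord.map_mul]
    exact add_nonneg hp (hy i)

private theorem X_ord_prod {K : Type} [Field K] [Algebra ℂ K] {n : ℕ} (D : PrimeDivisorOver K n)
    {ι : Type} (S : Finset ι) (y : ι → K) (hy : ∀ i ∈ S, 0 ≤ D.ord (y i)) :
    0 ≤ D.ord (∏ i ∈ S, y i) := by
  classical
  induction S using Finset.induction_on with
  | empty => rw [Finset.prod_empty, D.ord.map_one]
  | insert a S ha ih =>
    rw [Finset.prod_insert ha, D.ord.map_mul]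
    exact add_nonneg (hy a (Finset.mem_insert_self _ _))
      (ih fun i hi => hy i (Finset.mem_insert_of_mem hi))

private theorem X_solve {K : Type} [Field K] {n : ℕ} {A : ℕ → K} {ξ : K} (c : K)
    (h : ∑ j ∈ Finset.range (n + 1), A j * ξ ^ j = 0) :
    c * A 0 = ξ * (-∑ j ∈ Finset.range n, c * A (j + 1) * ξ ^ j) := by
  rw [Finset.sum_range_succ', pow_zero, mul_one] at h
  have h7 : A 0 = -∑ j ∈ Finset.range n, A (j + 1) * ξ ^ (j + 1) := by
    linear_combination h
  rw [h7, mul_neg, mul_neg, Finset.mul_sum, Finset.mul_sum]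
  congr 1
  refine Finset.sum_congr rfl fun j _ => ?_
  ring

/-- Kodaira's lemma. -/
theorem kodaira_log {k : ℕ} (z : Fin (k + 1) → FunField P) (hz : IsTranscendenceBasis ℂ z) {n : ℕ}
    {Bd : PrimeDivisorOver (FunField P) n → Prop} (hgt : IsLogGeneralType Bd) :
    ∃ ω : Form (FunField P) n, ω ≠ 0 ∧ ∃ (M : ℕ) (H : FunField P) (o : Fin (N + 1)), 1 ≤ M ∧ H ≠ 0 ∧
      X o ∉ P ∧ ∀ l, X l ∉ P → ∀ D : PrimeDivisorOver (FunField P) n,
        (¬ Bd D → PoleAtMost 0 D M (H * ratio P l o) ω) ∧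
          (Bd D → PoleAtMost M D M (H * ratio P l o) ω) := by
  classical
  obtain ⟨m, hm, ω, hω, r, f, hf, hpole, halg⟩ := hgt
  obtain ⟨x, hx0, -, -, -, hx5, hx6⟩ := exists_point P z hz
  obtain ⟨o, ho⟩ : ∃ i, x i ≠ 0 := by
    by_contra hcon
    push Not at hcon
    exact hx0 (funext hcon)
  have hoP : X o ∉ P := X_coordFun_ne P fun h => ho ((hx5 o).2 h)
  have hx7 : ∀ l, X l ∉ P → x l ≠ 0 := fun l hl h => X_coordFun_ne' P hl ((hx5 l).1 h)
  have hξ : ∀ l, X l ∉ P → ratio P o l ≠ 0 := by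
    intro l hl
    rw [← hx6]
    exact div_ne_zero ho (hx7 l hl)
  have hex : ∀ l : Fin (N + 1), ∃ (D n : ℕ) (a : ℕ → MvPolynomial (Fin (r + 1)) ℂ),
      (∀ k, (a k).IsHomogeneous D) ∧ aeval f (a 0) ≠ 0 ∧ (X l ∉ P → 1 ≤ D ∧
        ∑ k ∈ Finset.range (n + 1), aeval f (a k) * ratio P o l ^ k = 0) := by
    intro l
    by_cases hl : X l ∈ P
    · refine ⟨0, 0, fun _ => 1, fun _ => isHomogeneous_one _ _, ?_, fun h => absurd hl h⟩
      rw [map_one]
      exact one_ne_zero
    · obtain ⟨D, n, a, h1, h2, h3, h4⟩ := exists_relation hf (hξ l hl)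
        (halg.isAlgebraic (ratio P o l))
      exact ⟨D, n, a, h2, h3, fun _ => ⟨h1, h4⟩⟩
  choose d nn a ha ha0 hrel using hex
  refine ⟨ω, hω, m * ∑ l, d l, ∏ l, aeval f (a l 0), o, ?_, ?_, hoP, ?_⟩
  · have h1 : 1 ≤ d o := (hrel o hoP).1
    have h2 : d o ≤ ∑ l, d l := Finset.single_le_sum (f := d) (fun i _ => Nat.zero_le _)
      (Finset.mem_univ o)
    exact Nat.mul_pos hm (by omega)
  · exact Finset.prod_ne_zero_iff.2 fun l _ => ha0 l
  · intro l' hl' D
    obtain ⟨t, ht⟩ := D.exists_uniformizer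
    -- the common part
    have hmain : ∀ e : ℕ, (∀ i, ∃ (g : FunField P) (η : Form (FunField P) n),
        η ∈ regularForms n D.localRing ∧ ω = g • η ∧ 0 ≤ D.ord (f i * (t ^ e * g) ^ m)) →
        ∃ (g : FunField P) (η : Form (FunField P) n), η ∈ regularForms n D.localRing ∧ ω = g • η ∧
          0 ≤ D.ord ((∏ l, aeval f (a l 0)) * ratio P l' o * (t ^ e * g) ^ (m * ∑ l, d l)) := by
      intro e h1
      choose g η hη hωg hord using h1
      obtain ⟨i₀, hi₀⟩ := Finite.exists_max fun i => D.ord (g i)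
      have h2 : ∀ i, 0 ≤ D.ord ((t ^ e * g i₀) ^ m * f i) := by
        intro i
        refine le_trans (hord i) ?_
        rw [D.ord.map_mul, D.ord.map_mul, D.ord.map_pow, D.ord.map_pow, D.ord.map_mul, D.ord.map_mul,
          add_comm]
        gcongr
        exact hi₀ i
      have h3 : ∀ l j, 0 ≤ D.ord ((t ^ e * g i₀) ^ (m * d l) * aeval f (a l j)) := by
        intro l j
        have h4 := eval₂_of_isHomogeneous (algebraMap ℂ (FunField P)) (ha l j) ((t ^ e * g i₀) ^ m) f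
        rw [pow_mul]
        have h5 := X_ord_aeval D (fun i => (t ^ e * g i₀) ^ m * f i) h2 (a l j)
        rw [aeval_def, h4] at h5
        exact h5
      obtain ⟨l, hlP, hl⟩ := exists_good_coordinate P z hz D
      have h4 : D.ord (ratio P o l) ≤ D.ord ((t ^ e * g i₀) ^ (m * d l) * aeval f (a l 0)) := by
        have h6 := X_solve ((t ^ e * g i₀) ^ (m * d l)) (hrel l hlP).2
        rw [h6, D.ord.map_mul]
        refine le_add_of_nonneg_right ?_
        rw [D.ord.map_neg]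
        refine D.ord.map_le_sum fun j _ => ?_
        rw [D.ord.map_mul, D.ord.map_pow]
        exact add_nonneg (h3 l (j + 1)) (nsmul_nonneg (hl o) j)
      have h5 : D.ord (ratio P o l) ≤
          D.ord ((t ^ e * g i₀) ^ (m * ∑ l, d l) * ∏ l, aeval f (a l 0)) := by
        have h6 : (t ^ e * g i₀) ^ (m * ∑ l, d l) * ∏ l, aeval f (a l 0) =
            ∏ l, ((t ^ e * g i₀) ^ (m * d l) * aeval f (a l 0)) := by
          rw [Finset.prod_mul_distrib, Finset.prod_pow_eq_pow_sum, Finset.mul_sum]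
        rw [h6, ← Finset.mul_prod_erase _ _ (Finset.mem_univ l), D.ord.map_mul]
        exact le_add_of_le_of_nonneg h4 (X_ord_prod D _ _ fun i _ => h3 i 0)
      refine ⟨g i₀, η i₀, hη i₀, hωg i₀, ?_⟩
      have h6 : (∏ l, aeval f (a l 0)) * ratio P l' o * (t ^ e * g i₀) ^ (m * ∑ l, d l) =
          ((t ^ e * g i₀) ^ (m * ∑ l, d l) * ∏ l, aeval f (a l 0)) * ratio P l' o := by ring
      rw [h6, D.ord.map_mul]
      have h7 : ratio P o l * ratio P l' o = ratio P l' l := by
        rw [← hx6, ← hx6, ← hx6]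
        have := hx7 l hlP
        field_simp
      calc (0 : WithTop ℤ) ≤ D.ord (ratio P l' l) := hl l'
        _ = D.ord (ratio P o l) + D.ord (ratio P l' o) := by rw [← h7, D.ord.map_mul]
        _ ≤ _ := by gcongr
    constructor
    · intro hB
      obtain ⟨g, η, h1, h2, h3⟩ := hmain 0 (by
        intro i
        obtain ⟨g, η, h2, h3, h4⟩ := (hpole i D).1 hB
        refine ⟨g, η, h2, h3, ?_⟩
        rw [pow_zero, one_mul]
        rw [Nat.cast_zero, add_zero] at h4
        exact h4)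
      refine ⟨g, η, h1, h2, ?_⟩
      rw [Nat.cast_zero, add_zero]
      rw [pow_zero, one_mul] at h3
      exact h3
    · intro hB
      obtain ⟨g, η, h1, h2, h3⟩ := hmain 1 (by
        intro i
        obtain ⟨g, η, h2, h3, h4⟩ := (hpole i D).2 hB
        refine ⟨g, η, h2, h3, ?_⟩
        have h5 : f i * (t ^ 1 * g) ^ m = f i * g ^ m * t ^ m := by ring
        rw [h5, D.ord.map_mul, D.ord.map_pow t, ht, nsmul_one]
        exact h4)
      refine ⟨g, η, h1, h2, ?_⟩
      have h5 : (∏ l, aeval f (a l 0)) * ratio P l' o * (t ^ 1 * g) ^ (m * ∑ l, d l) =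
          (∏ l, aeval f (a l 0)) * ratio P l' o * g ^ (m * ∑ l, d l) * t ^ (m * ∑ l, d l) := by ring
      rw [h5, D.ord.map_mul, D.ord.map_pow t, ht, nsmul_one] at h3
      exact h3

end Pool.Agent.H68.KR

end
end

section

/-!
# MQ3 GlobE: the energy of a lift

`F`, `G` are entire without zeros, `|h| |G| ≤ K |F| ^ d` with an entire function `h`.  `2 En F R = avg_R log |F| - avg_1 log |F|` (Green), and
`avg_R log |h| ≥ avg_1 log |h|` (Jensen), so `En G R ≤ d En F R + C`.
-/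

set_option autoImplicit false

open Topology Filter Metric MeasureTheory Laplacian

noncomputable section

namespace Pool.Agent.MQ3

open Pool.Agent.H36.BP (EN)
open Pool.Agent.H30M (tau avg rhoR rhoR_nonneg continuous_rhoR hcs_rhoR int_rhoR green_tau pl_tau tau_nonneg integrable_mul_log)
open Pool.Agent.MQ (lam En)

variable {N N' : ℕ}

theorem contDiff_log_norm {F : ℂ → EN N} (hF : Differentiable ℂ F) (h0 : ∀ z, F z ≠ 0) : ContDiff ℝ 2 fun z => Real.log ‖F z‖ :=
  contDiff_iff_contDiffAt.2 fun z => (Pool.Agent.MQ.lap_log_norm (hF.analyticAt z) (h0 z)).1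

/-- the energy is the growth of the mean of `log |F|` -/
theorem two_en {F : ℂ → EN N} (hF : Differentiable ℂ F) (h0 : ∀ z, F z ≠ 0) {R : ℝ} (hR : 1 ≤ R) :
    2 * En F R = avg R (fun z => Real.log ‖F z‖) - avg 1 fun z => Real.log ‖F z‖ := by
  rw [← green_tau hR (contDiff_log_norm hF h0), En, ← integral_const_mul]
  refine integral_congr_ae (Eventually.of_forall fun z => ?_)
  simp only [(Pool.Agent.MQ.lap_log_norm (hF.analyticAt z) (h0 z)).2]
  ring

/-- the zeros of an entire function have measure zero -/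
theorem ae_ne {h : ℂ → ℂ} (hh : Differentiable ℂ h) (hh0 : ∃ z, h z ≠ 0) : ∀ᵐ z : ℂ, h z ≠ 0 := by
  obtain ⟨w, hw⟩ := hh0
  have h1 : AnalyticOnNhd ℂ h Set.univ := fun z _ => hh.analyticAt z
  have h2 : h ⁻¹' {0}ᶜ ∈ codiscreteWithin (Set.univ : Set ℂ) := h1.preimage_zero_mem_codiscrete (x := w) hw
  have h3 := ae_restrict_le_codiscreteWithin (μ := (volume : Measure ℂ)) MeasurableSet.univ h2
  rw [Measure.restrict_univ] at h3
  exact h3

/-- **the energy of a lift** -/
theorem en_le {F : ℂ → EN N} {G : ℂ → EN N'} {h : ℂ → ℂ} {K : ℝ} {d : ℕ} (hF : Differentiable ℂ F) (hF0 : ∀ z, F z ≠ 0) (hG : Differentiable ℂ G)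
    (hG0 : ∀ z, G z ≠ 0) (hh : Differentiable ℂ h) (hh0 : ∃ z, h z ≠ 0) (hle : ∀ z, ‖h z‖ * ‖G z‖ ≤ K * ‖F z‖ ^ d) :
    ∃ C : ℝ, ∀ R, 1 ≤ R → En G R ≤ d * En F R + C := by
  have hK : 0 < K := by
    obtain ⟨w, hw⟩ := hh0
    have h1 : 0 < ‖h w‖ * ‖G w‖ := mul_pos (norm_pos_iff.2 hw) (norm_pos_iff.2 (hG0 w))
    exact pos_of_mul_pos_left (h1.trans_le (hle w)) (by positivity)
  have hFl := (contDiff_log_norm hF hF0).continuous
  have hGl := (contDiff_log_norm hG hG0).continuous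
  have ho : ∀ z, analyticOrderAt h z ≠ ⊤ := by
    obtain ⟨w, hw⟩ := hh0
    have hw' : analyticOrderAt h w ≠ ⊤ := by
      rw [(hh.analyticAt w).analyticOrderAt_eq_zero.2 hw]
      simp
    intro z
    exact (show AnalyticOnNhd ℂ h Set.univ from fun z _ => hh.analyticAt z).analyticOrderAt_ne_top_of_isPreconnected isPreconnected_univ
      (Set.mem_univ w) (Set.mem_univ z) hw'
  refine ⟨(2 * Real.pi * Real.log K + d * avg 1 (fun z => Real.log ‖F z‖) - avg 1 (fun z => Real.log ‖h z‖) - avg 1 fun z => Real.log ‖G z‖) / 2,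
    fun R hR => ?_⟩
  have i1 : Integrable fun z => rhoR R z * Real.log ‖G z‖ :=
    ((continuous_rhoR R).mul hGl).integrable_of_hasCompactSupport ((hcs_rhoR hR).mul_right)
  have i2 : Integrable fun z => rhoR R z * Real.log ‖F z‖ :=
    ((continuous_rhoR R).mul hFl).integrable_of_hasCompactSupport ((hcs_rhoR hR).mul_right)
  have i3 : Integrable fun z => rhoR R z * Real.log ‖h z‖ :=
    integrable_mul_log (continuous_rhoR R) (hcs_rhoR hR) (fun z _ => hh.analyticAt z) fun z _ => ho z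
  have i4 : Integrable fun z => rhoR R z * Real.log K :=
    ((continuous_rhoR R).mul continuous_const).integrable_of_hasCompactSupport ((hcs_rhoR hR).mul_right)
  have h1 : avg R (fun z => Real.log ‖G z‖) ≤
      2 * Real.pi * Real.log K + d * avg R (fun z => Real.log ‖F z‖) - avg R fun z => Real.log ‖h z‖ := by
    have h2 : ∫ z, (rhoR R z * Real.log K + d * (rhoR R z * Real.log ‖F z‖) - rhoR R z * Real.log ‖h z‖) =
        2 * Real.pi * Real.log K + d * avg R (fun z => Real.log ‖F z‖) - avg R fun z => Real.log ‖h z‖ := by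
      have j1 : Integrable fun z => rhoR R z * Real.log K + d * (rhoR R z * Real.log ‖F z‖) := i4.add (i2.const_mul _)
      rw [integral_sub j1 i3, integral_add i4 (i2.const_mul _), integral_const_mul, integral_mul_const, int_rhoR hR]
      rfl
    rw [← h2]
    refine integral_mono_ae i1 ((i4.add (i2.const_mul _)).sub i3) ?_
    filter_upwards [ae_ne hh hh0] with z hz
    have h3 : 0 < ‖h z‖ := norm_pos_iff.2 hz
    have h4 : 0 < ‖G z‖ := norm_pos_iff.2 (hG0 z)
    have h5 : 0 < ‖F z‖ := norm_pos_iff.2 (hF0 z)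
    have h6 := Real.log_le_log (by positivity) (hle z)
    rw [Real.log_mul h3.ne' h4.ne', Real.log_mul hK.ne' (by positivity), Real.log_pow] at h6
    have h7 : Real.log ‖G z‖ ≤ Real.log K + d * Real.log ‖F z‖ - Real.log ‖h z‖ := by linarith
    calc rhoR R z * Real.log ‖G z‖ ≤ rhoR R z * (Real.log K + d * Real.log ‖F z‖ - Real.log ‖h z‖) :=
          mul_le_mul_of_nonneg_left h7 (rhoR_nonneg R z)
      _ = _ := by ring
  have h2 := two_en hF hF0 hR
  have h3 := two_en hG hG0 hR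
  have h4 := pl_tau hR hh hh0
  have h5 : 0 ≤ 2 * Real.pi * ∑ᶠ z, (analyticOrderNatAt h z : ℝ) * tau R z :=
    mul_nonneg (by positivity) (finsum_nonneg fun z => mul_nonneg (by positivity) (tau_nonneg hR z))
  have h6 : (d : ℝ) * (2 * En F R) = d * (avg R (fun z => Real.log ‖F z‖) - avg 1 fun z => Real.log ‖F z‖) := by rw [h2]
  linarith

end Pool.Agent.MQ3

end
end

section

/-!
# MQ3 GlobO: the surface on which `{RD = 0}` has normal crossings (helper22's form)

`NCOver P RD`: a smooth closed surface (cone) `Y` in a finite dimensional space, the relation `Ov y x` (the point `y` of `Y` lies over the point `x` of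
`coneE P`), the total transform `D` of `{RD = 0}` is nodal at every point.  `NCOver.Lift`: the lift of a curve.
-/

set_option autoImplicit false

open Topology Filter Metric MvPolynomial MeasureTheory

noncomputable section

namespace Pool.Agent.MQ3

open Pool.Agent.H36.BP (EN fs)
open Pool.Agent.H17BP (Surface IsChart NodalAt Pr)
open Pool.Agent.H17EF (coneE)
open Pool.Agent.MQ (lam En)

variable {M : ℕ} {P : Ideal (MvPolynomial (Fin (M + 1)) ℂ)} {RD : MvPolynomial (Fin (M + 1)) ℂ}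

/-- a smooth surface over `coneE P` on which `{RD = 0}` has normal crossings -/
structure NCOver (P : Ideal (MvPolynomial (Fin (M + 1)) ℂ)) (RD : MvPolynomial (Fin (M + 1)) ℂ) where
  V : Type
  [ng : NormedAddCommGroup V]
  [ns : NormedSpace ℂ V]
  [fd : FiniteDimensional ℂ V]
  Y : Set V
  D : Set V
  /-- `y` lies over `x` -/
  Ov : V → EN M → Prop
  N : ℕ
  /-- an injective map to a Hermitian space, in order to speak of the energy of curves in `Y` -/
  e : V →L[ℂ] EN N
  e_inj : Function.Injective e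
  /-- the factor for the energy of the lift -/
  A : ℝ
  surf : Surface Y
  D_smul : ∀ y ∈ D, ∀ c : ℂ, c ≠ 0 → c • y ∈ D
  nodal : ∀ y ∈ Y, NodalAt Y D y
  mem : ∀ y x, Ov y x → y ∈ Y ∧ x ∈ coneE P
  germ : ∀ y ∈ Y, ∃ π : V → EN M, AnalyticAt ℂ π y ∧ ∀ᶠ y' in 𝓝 y, y' ∈ Y → Ov y' (π y')
  uniq : ∀ y y' x x', Pr y y' → Ov y x → Ov y' x' → Pr x x'
  div : ∀ y x, Ov y x → (y ∈ D ↔ eval x.ofLp RD = 0)
  /-- off the divisor the map to `coneE P` is immersive -/
  imm : ∀ σ τ, IsChart Y σ τ → σ 0 ∉ D → ∀ ρ : ℂ × ℂ → EN M, AnalyticAt ℂ ρ 0 → (∀ᶠ p in 𝓝 (0 : ℂ × ℂ), Ov (σ p) (ρ p)) →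
    ∀ (w : ℂ × ℂ) (a : ℂ), fderiv ℂ ρ 0 w = a • ρ 0 → w = 0

attribute [instance] NCOver.ng NCOver.ns NCOver.fd

/-- the curve `G` in `Y` lies over `F` -/
structure NCOver.Lift (S : NCOver P RD) (F : ℂ → EN M) (G : ℂ → S.V) : Prop where
  an : ∀ z, AnalyticAt ℂ G z
  ov : ∀ z, S.Ov (G z) (F z)
  en : ∃ B : ℝ, ∀ R, 1 ≤ R → En (fun z => S.e (G z)) R ≤ S.A * En F R + B

end Pool.Agent.MQ3

end
end

section

/-!
# SY EiW: the lower bound of the metric of the blow-up
-/

set_option autoImplicit false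

open Topology Filter Metric

noncomputable section

namespace Pool.Agent.SY

open Pool.Agent.H36.BP (EN fs wd Sub)
open Pool.Agent.H17BP (Pr Surface IsForm NoZeros Eqs IsChart)
open Pool.Agent.H14.PP (IsCone)
open Pool.Agent.H14.KB (rhoS)
open Pool.Agent.H62.BU (blow total Ker phi)

variable {V : Type} [NormedAddCommGroup V] [NormedSpace ℂ V]
variable {ι : Type} [Fintype ι] {l : ι → V →L[ℂ] ℂ} {X T : Set V} {q : V}

/-- The relative size of homogeneous functions is invariant. -/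
theorem rhoS_smul_eq {W : Type} [NormedAddCommGroup W] [NormedSpace ℂ W] {κ : Type} [Fintype κ] {Q : κ → W → ℂ} {D : ℕ}
    (hQs : ∀ i (c : ℂ) x, Q i (c • x) = c ^ D * Q i x) {c : ℂ} (hc : c ≠ 0) (x : W) :
    rhoS Q D (c • x) = rhoS Q D x := by
  unfold rhoS
  have h1 : (fun i => Q i (c • x)) = c ^ D • fun i => Q i x := by
    funext i
    rw [hQs]
    rfl
  have h2 : 0 < ‖c‖ ^ D := pow_pos (norm_pos_iff.mpr hc) D
  rw [h1, norm_smul, norm_smul, norm_pow, mul_pow, mul_div_mul_left _ _ h2.ne']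

/-- MODULE EiW: the lower bound (compare `H14/KB/KobK.lean`, `kobK_blow`) -/
theorem down_lower {N' : ℕ} {L' : (ι → V) ≃L[ℂ] EN N'} {κ : Type} [Fintype κ] {Q : κ → V → ℂ} {D : ℕ} {M : ℕ} {c₀ C : ℝ}
    {g : (ℂ → ι → V) → ℂ → ℝ} (hX : Surface X) (hl : Ker l q) (he : Eqs X T Q D) (hq : q ∈ T) (hM : 1 ≤ M)
    (E : Energy (blow l X) (total l X T) (fun y => ‖L' y‖) (rhoS (fun (p : κ × ι) (y : ι → V) => Q p.1 (y p.2)) D) M c₀ C g)
    {F : ℂ → V} (hF : Ent X T F) (z : ℂ) :
    ∃ a : ℂ, rhoS Q D (F z) ^ M * ‖deriv F z - a • F z‖ ≤ C * ‖F z‖ * down l X T g F z := by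
  have hTX := he.sub
  have hT : ∀ x ∈ T, ∀ c : ℂ, c ≠ 0 → c • x ∈ T := he.cone hX.smul
  have hex : ∃ Φ, IsLiftB l X T F Φ := exists_liftB hX hl hTX hT hq hF
  have hd : down l X T g F = g hex.choose := by
    unfold down
    exact dif_pos hex
  obtain ⟨hΦ, h, hh, hphi⟩ := hex.choose_spec
  rw [hd]
  set Φ := hex.choose
  have hF0 : F z ≠ 0 := fun h0 => hX.zero (h0 ▸ hF.mem z)
  by_cases hFT : F z ∈ T
  · refine ⟨0, ?_⟩
    have h1 : rhoS Q D (F z) = 0 := by
      unfold rhoS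
      have h2 : (fun i => Q i (F z)) = 0 := funext fun i => ((he.mem_iff _).1 hFT).2 i
      rw [h2, norm_zero, zero_div]
    rw [h1, zero_pow (by omega), zero_mul]
    exact mul_nonneg (mul_nonneg E.C_pos.le (norm_nonneg _)) (E.nonneg Φ hΦ z)
  -- some `l b (F z)` is not `0`
  have hlb : ∃ b, l b (F z) ≠ 0 := by
    by_contra hcon
    push Not at hcon
    obtain ⟨c, e⟩ := (hl (F z)).1 hcon
    have hc : c ≠ 0 := by
      rintro rfl
      rw [zero_smul] at e
      exact hF0 e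
    exact hFT (e ▸ hT q hq c hc)
  have : Nonempty ι := ⟨hlb.choose⟩
  obtain ⟨b, hbmax⟩ := Finite.exists_max fun b => ‖l b (F z)‖
  have hb : l b (F z) ≠ 0 := by
    obtain ⟨b', hb'⟩ := hlb
    have h3 := hbmax b'
    intro h0
    rw [h0, norm_zero] at h3
    exact hb' (norm_le_zero_iff.mp h3)
  have hb0 : 0 < ‖l b (F z)‖ := norm_pos_iff.mpr hb
  have hpne : phi l (F z) ≠ 0 := H62.BU.phi_ne ⟨b, hb⟩
  have hhz : h z ≠ 0 := by
    intro h0
    rw [hphi z, h0, zero_smul] at hpne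
    exact hpne rfl
  have hhz0 : 0 < ‖h z‖ := norm_pos_iff.mpr hhz
  -- the lower bound upstairs
  obtain ⟨a', ha'⟩ := E.lower Φ hΦ z
  have hFd : HasDerivAt F (deriv F z) z := (hF.diff z).hasDerivAt
  have hhd : HasDerivAt h (deriv h z) z := (hh z).hasDerivAt
  have hΦd : HasDerivAt Φ (deriv Φ z) z := (hΦ.diff z).hasDerivAt
  have hΦb : HasDerivAt (fun w => Φ w b) (deriv Φ z b) z := (hasDerivAt_pi.1 hΦd) b
  -- the derivative of the identity `l b (F) F = h Φ_b`
  have h3 : l b (deriv F z) • F z + l b (F z) • deriv F z = deriv h z • Φ z b + h z • deriv Φ z b := by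
    have h4 : HasDerivAt (fun w => l b (F w) • F w) (l b (F z) • deriv F z + l b (deriv F z) • F z) z := by
      have h5 : HasDerivAt (fun w => l b (F w)) (l b (deriv F z)) z :=
        (l b).hasFDerivAt.comp_hasDerivAt z hFd
      exact h5.smul hFd
    have h6 : HasDerivAt (fun w => h w • Φ w b) (h z • deriv Φ z b + deriv h z • Φ z b) z :=
      hhd.smul hΦb
    have h7 : (fun w => l b (F w) • F w) = fun w => h w • Φ w b := by
      funext w
      exact congrFun (hphi w) b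
    rw [h7] at h4
    have h8 := h4.unique h6
    rw [add_comm, h8, add_comm]
  have hzb : l b (F z) • F z = h z • Φ z b := congrFun (hphi z) b
  refine ⟨a' + deriv h z / h z - l b (deriv F z) / l b (F z), ?_⟩
  set a : ℂ := a' + deriv h z / h z - l b (deriv F z) / l b (F z) with ha
  have h4 : h z • (deriv Φ z b - a' • Φ z b) = l b (F z) • (deriv F z - a • F z) := by
    have e1 : l b (F z) * a = (a' + deriv h z / h z) * l b (F z) - l b (deriv F z) := by
      rw [ha]
      field_simp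
    have e2 : l b (F z) • (deriv F z - a • F z) = l b (F z) • deriv F z + l b (deriv F z) • F z -
        (a' + deriv h z / h z) • (l b (F z) • F z) := by
      rw [smul_sub, smul_smul, e1, smul_smul]
      module
    rw [e2, add_comm (l b (F z) • deriv F z), h3, hzb, smul_smul]
    have e3 : (a' + deriv h z / h z) * h z = a' * h z + deriv h z := by
      field_simp
    rw [e3]
    module
  have h5 : ‖l b (F z)‖ * ‖deriv F z - a • F z‖ ≤ ‖h z‖ * ‖deriv Φ z - a' • Φ z‖ := by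
    rw [← norm_smul, ← h4, norm_smul]
    exact mul_le_mul_of_nonneg_left (norm_le_pi_norm (deriv Φ z - a' • Φ z) b) (norm_nonneg _)
  have h6 : ‖h z‖ * ‖Φ z‖ ≤ ‖l b (F z)‖ * ‖F z‖ := by
    rw [← norm_smul, ← hphi z]
    refine (pi_norm_le_iff_of_nonneg (by positivity)).mpr fun b' => ?_
    show ‖l b' (F z) • F z‖ ≤ _
    rw [norm_smul]
    exact mul_le_mul_of_nonneg_right (hbmax b') (norm_nonneg _)
  have h7 := H14.KB.rhoS_phi (l := l) he.smul hF0 hb hbmax
  have h8 : rhoS (fun (p : κ × ι) (y : ι → V) => Q p.1 (y p.2)) D (phi l (F z)) =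
      rhoS (fun (p : κ × ι) (y : ι → V) => Q p.1 (y p.2)) D (Φ z) := by
    rw [hphi z]
    exact rhoS_smul_eq (fun p c y => he.smul p.1 c (y p.2)) hhz (Φ z)
  rw [h8] at h7
  have h9 : rhoS Q D (F z) ^ M ≤ rhoS (fun (p : κ × ι) (y : ι → V) => Q p.1 (y p.2)) D (Φ z) ^ M :=
    pow_le_pow_left₀ (H14.KB.rhoS_nonneg _ _ _) h7 M
  have hg0 := E.nonneg Φ hΦ z
  have h10 : ‖l b (F z)‖ * (rhoS Q D (F z) ^ M * ‖deriv F z - a • F z‖) ≤
      ‖l b (F z)‖ * (C * ‖F z‖ * g Φ z) := by
    calc ‖l b (F z)‖ * (rhoS Q D (F z) ^ M * ‖deriv F z - a • F z‖)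
        = rhoS Q D (F z) ^ M * (‖l b (F z)‖ * ‖deriv F z - a • F z‖) := by ring
      _ ≤ rhoS (fun (p : κ × ι) (y : ι → V) => Q p.1 (y p.2)) D (Φ z) ^ M * (‖h z‖ * ‖deriv Φ z - a' • Φ z‖) :=
          mul_le_mul h9 h5 (by positivity) (pow_nonneg (H14.KB.rhoS_nonneg _ _ _) _)
      _ = ‖h z‖ * (rhoS (fun (p : κ × ι) (y : ι → V) => Q p.1 (y p.2)) D (Φ z) ^ M * ‖deriv Φ z - a' • Φ z‖) := by ring
      _ ≤ ‖h z‖ * (C * ‖Φ z‖ * g Φ z) := mul_le_mul_of_nonneg_left ha' hhz0.le
      _ = C * g Φ z * (‖h z‖ * ‖Φ z‖) := by ring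
      _ ≤ C * g Φ z * (‖l b (F z)‖ * ‖F z‖) :=
          mul_le_mul_of_nonneg_left h6 (mul_nonneg E.C_pos.le hg0)
      _ = ‖l b (F z)‖ * (C * ‖F z‖ * g Φ z) := by ring
  exact le_of_mul_le_mul_left h10 hb0

end Pool.Agent.SY

end
end
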