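import Mathlib

/-! The parts of this file: H92.GGL.AnnMean, H92.GGL.AnnJensen, H62.FC.NevDefs, H62.FC.Nev0, H62.FC.IterDeriv, SG.Neck, SG51.GA, SG51.Alg. -/

section

/-!
# Circle means of `log ‖v‖` for a holomorphic function without zeros on an annulus
-/

open Complex MeasureTheory Metric Set Topology Filter

namespace Pool.Agent.H92.GGL

/-- A continuous logarithm of a holomorphic function is holomorphic. -/
lemma analyticAt_of_exp_eq {h G : ℂ → ℂ} {τ : ℂ} (hh : ContinuousAt h τ) (hG : AnalyticAt ℂ G τ)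
    (he : ∀ᶠ w in 𝓝 τ, exp (h w) = G w) : AnalyticAt ℂ h τ := by
  have hG0 : G τ ≠ 0 := by
    rw [← he.self_of_nhds]
    exact exp_ne_zero _
  have h1 : AnalyticAt ℂ (fun w => h τ + log (G w / G τ)) τ := by
    refine analyticAt_const.add (AnalyticAt.clog ?_ ?_)
    · exact hG.div analyticAt_const hG0
    · rw [div_self hG0]
      exact one_mem_slitPlane
  refine h1.congr ?_
  have h2 : ∀ᶠ w in 𝓝 τ, ‖h w - h τ‖ < Real.pi := by
    have h3 : ContinuousAt (fun w => ‖h w - h τ‖) τ := (hh.sub continuousAt_const).norm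
    refine h3.eventually_lt continuousAt_const ?_
    simpa using Real.pi_pos
  filter_upwards [he, h2] with w hw hw2
  have h4 : G w / G τ = exp (h w - h τ) := by
    rw [exp_sub, hw, he.self_of_nhds]
  have h5 := (abs_im_le_norm (h w - h τ)).trans_lt hw2
  rw [abs_lt] at h5
  rw [h4, log_exp h5.1 h5.2.le]
  ring

/-- **The mean is an affine function of `log r`.** -/
theorem circleAverage_log_norm_affine {v : ℂ → ℂ} {r₁ R₁ : ℝ} (hr₁ : 0 < r₁)
    (hv : ∀ z, r₁ < ‖z‖ → ‖z‖ < R₁ → AnalyticAt ℂ v z)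
    (hv0 : ∀ z, r₁ < ‖z‖ → ‖z‖ < R₁ → v z ≠ 0) :
    ∃ a b : ℝ, ∀ r, r₁ < r → r < R₁ →
      Real.circleAverage (fun z => Real.log ‖v z‖) 0 r = a + b * Real.log r := by
  rcases le_or_gt R₁ r₁ with hle | hlt
  · exact ⟨0, 0, fun r h1 h2 => absurd (h1.trans h2) (not_lt.mpr hle)⟩
  have hR₁ : 0 < R₁ := hr₁.trans hlt
  set V : Set ℂ := {τ | Real.log r₁ < τ.re ∧ τ.re < Real.log R₁} with hV
  have hVo : IsOpen V := by
    refine (isOpen_lt continuous_const continuous_re).inter (isOpen_lt continuous_re continuous_const)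
  have hVconv : Convex ℝ V := by
    have h1 : V = {τ : ℂ | Real.log r₁ < τ.re} ∩ {τ : ℂ | τ.re < Real.log R₁} := rfl
    rw [h1]
    exact (convex_halfSpace_re_gt _).inter (convex_halfSpace_re_lt _)
  have hlog : Real.log r₁ < Real.log R₁ := Real.log_lt_log hr₁ hlt
  have hVne : V.Nonempty := by
    refine ⟨(((Real.log r₁ + Real.log R₁) / 2 : ℝ) : ℂ), ?_, ?_⟩ <;> simp only [ofReal_re] <;> linarith
  have hnorm : ∀ τ ∈ V, r₁ < ‖exp τ‖ ∧ ‖exp τ‖ < R₁ := by
    intro τ hτ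
    rw [norm_exp]
    constructor
    · rw [← Real.exp_log hr₁]
      exact Real.exp_lt_exp.mpr hτ.1
    · rw [← Real.exp_log hR₁]
      exact Real.exp_lt_exp.mpr hτ.2
  have hGan : ∀ τ ∈ V, AnalyticAt ℂ (fun τ => v (exp τ)) τ := by
    intro τ hτ
    obtain ⟨h1, h2⟩ := hnorm τ hτ
    exact (hv _ h1 h2).fun_comp analyticAt_cexp
  have hsc : IsSimplyConnected V := by
    have : ContractibleSpace V := hVconv.contractibleSpace hVne
    exact SimplyConnectedSpace.ofContractible V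
  obtain ⟨h, hc, he⟩ := exists_continuousOn_eqOn_exp_comp hsc hVo (g := fun τ => v (exp τ))
    (fun τ hτ => (hGan τ hτ).continuousAt.continuousWithinAt) (by
      rintro ⟨τ, hτ, h0⟩
      obtain ⟨h1, h2⟩ := hnorm τ hτ
      exact hv0 _ h1 h2 h0)
  have hhan : ∀ τ ∈ V, AnalyticAt ℂ h τ := by
    intro τ hτ
    refine analyticAt_of_exp_eq (hc.continuousAt (hVo.mem_nhds hτ)) (hGan τ hτ) ?_
    filter_upwards [hVo.mem_nhds hτ] with w hw
    exact he hw
  have hshift : ∀ τ ∈ V, τ + 2 * Real.pi * I ∈ V := by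
    intro τ hτ
    have h1 : (τ + 2 * Real.pi * I).re = τ.re := by simp
    rw [hV, mem_ofPred_eq, h1]
    exact hτ
  -- the difference is constant
  obtain ⟨δ, hδ⟩ : ∃ δ : ℂ, ∀ τ ∈ V, h (τ + 2 * Real.pi * I) - h τ = δ := by
    have hd : ∀ τ ∈ V, HasDerivAt (fun τ => h (τ + 2 * Real.pi * I) - h τ)
        (deriv h (τ + 2 * Real.pi * I) - deriv h τ) τ := by
      intro τ hτ
      refine HasDerivAt.sub ?_ (hhan τ hτ).differentiableAt.hasDerivAt
      exact HasDerivAt.comp_add_const τ _ (hhan _ (hshift τ hτ)).differentiableAt.hasDerivAt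
    have hexp1 : ∀ τ ∈ V, exp (h (τ + 2 * Real.pi * I) - h τ) = 1 := by
      intro τ hτ
      have h1 := he hτ
      have h2 := he (hshift τ hτ)
      simp only [Function.comp_apply] at h1 h2
      rw [exp_sub, h1, h2, exp_periodic, div_self]
      rw [← h1]
      exact exp_ne_zero _
    refine hVo.exists_is_const_of_deriv_eq_zero hVconv.isPreconnected
      (f := fun τ => h (τ + 2 * Real.pi * I) - h τ)
      (fun τ hτ => (hd τ hτ).differentiableAt.differentiableWithinAt) ?_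
    intro τ hτ
    have h1 := (hd τ hτ).cexp
    have h2 : HasDerivAt (fun τ => exp (h (τ + 2 * Real.pi * I) - h τ)) 0 τ := by
      refine (hasDerivAt_const τ (1 : ℂ)).congr_of_eventuallyEq ?_
      filter_upwards [hVo.mem_nhds hτ] with w hw
      exact hexp1 w hw
    have h3 := h1.unique h2
    rw [hexp1 τ hτ, one_mul] at h3
    rw [(hd τ hτ).deriv, h3]
    rfl
  -- the mean as an integral of `h`
  have hmemV : ∀ (σ θ : ℝ), Real.log r₁ < σ → σ < Real.log R₁ → (σ : ℂ) + θ * I ∈ V := by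
    intro σ θ h1 h2
    rw [hV, mem_ofPred_eq]
    simpa using ⟨h1, h2⟩
  have hmean : ∀ σ : ℝ, Real.log r₁ < σ → σ < Real.log R₁ →
      Real.circleAverage (fun z => Real.log ‖v z‖) 0 (Real.exp σ) =
        (2 * Real.pi)⁻¹ * (∫ θ in (0 : ℝ)..(2 * Real.pi), h (σ + θ * I)).re := by
    intro σ h1 h2
    have hcont : Continuous fun θ : ℝ => h (σ + θ * I) := by
      rw [continuous_iff_continuousAt]
      intro θ
      exact ContinuousAt.comp (f := fun θ : ℝ => (σ : ℂ) + θ * I) (g := h)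
        (hhan _ (hmemV σ θ h1 h2)).continuousAt (by fun_prop)
    rw [Real.circleAverage_def, smul_eq_mul]
    congr 1
    have h3 : ∫ θ in (0 : ℝ)..(2 * Real.pi), Real.log ‖v (circleMap 0 (Real.exp σ) θ)‖ =
        ∫ θ in (0 : ℝ)..(2 * Real.pi), (h (σ + θ * I)).re := by
      refine intervalIntegral.integral_congr fun θ _ => ?_
      have h4 : circleMap 0 (Real.exp σ) θ = exp (σ + θ * I) := by
        rw [circleMap_zero, exp_add, ofReal_exp]
      have h5 := he (hmemV σ θ h1 h2)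
      simp only [Function.comp_apply] at h5
      rw [h4, ← h5, norm_exp, Real.log_exp]
    rw [h3]
    have h6 := (reCLM).intervalIntegral_comp_comm (hcont.intervalIntegrable 0 (2 * Real.pi))
      (μ := volume)
    simpa using h6
  -- Cauchy's theorem
  have hcauchy : ∀ σ₁ σ₂ : ℝ, Real.log r₁ < σ₁ → σ₁ < Real.log R₁ → Real.log r₁ < σ₂ →
      σ₂ < Real.log R₁ → (∫ θ in (0 : ℝ)..(2 * Real.pi), h (σ₂ + θ * I)) -
        (∫ θ in (0 : ℝ)..(2 * Real.pi), h (σ₁ + θ * I)) = (σ₂ - σ₁) * δ * (-I) := by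
    intro σ₁ σ₂ h1 h2 h3 h4
    have hrect := integral_boundary_rect_eq_zero_of_differentiableOn h (σ₁ : ℂ)
      (σ₂ + (2 * Real.pi : ℝ) * I) (by
        intro τ hτ
        apply DifferentiableAt.differentiableWithinAt
        refine (hhan τ ?_).differentiableAt
        have h5 : τ.re ∈ uIcc σ₁ σ₂ := by
          have := hτ.1
          simpa using this
        rw [hV, mem_ofPred_eq]
        rcases le_total σ₁ σ₂ with h6 | h6
        · rw [uIcc_of_le h6] at h5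
          exact ⟨h1.trans_le h5.1, h5.2.trans_lt h4⟩
        · rw [uIcc_of_ge h6] at h5
          exact ⟨h3.trans_le h5.1, h5.2.trans_lt h2⟩)
    have e1 : ((σ₂ : ℂ) + (2 * Real.pi : ℝ) * I).re = σ₂ := by simp
    have e2 : ((σ₂ : ℂ) + (2 * Real.pi : ℝ) * I).im = 2 * Real.pi := by simp
    rw [e1, e2] at hrect
    simp only [ofReal_re, ofReal_im, ofReal_zero, zero_mul, add_zero, smul_eq_mul] at hrect
    have e3 : ∫ x in σ₁..σ₂, h (x + (2 * Real.pi : ℝ) * I) =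
        (∫ x in σ₁..σ₂, h x) + (σ₂ - σ₁) * δ := by
      have h5 : ∫ x in σ₁..σ₂, h (x + (2 * Real.pi : ℝ) * I) = ∫ x in σ₁..σ₂, (h x + δ) := by
        refine intervalIntegral.integral_congr fun x hx => ?_
        have hxV : (x : ℂ) ∈ V := by
          rw [hV, mem_ofPred_eq, ofReal_re]
          rcases le_total σ₁ σ₂ with h6 | h6
          · rw [uIcc_of_le h6] at hx
            exact ⟨h1.trans_le hx.1, hx.2.trans_lt h4⟩
          · rw [uIcc_of_ge h6] at hx
            exact ⟨h3.trans_le hx.1, hx.2.trans_lt h2⟩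
        have h7 := hδ x hxV
        rw [← h7]
        push_cast
        ring
      rw [h5, intervalIntegral.integral_add, intervalIntegral.integral_const]
      · rw [real_smul]
        push_cast
        ring
      · apply ContinuousOn.intervalIntegrable
        intro x hx
        have hxV : (x : ℂ) ∈ V := by
          rw [hV, mem_ofPred_eq, ofReal_re]
          rcases le_total σ₁ σ₂ with h6 | h6
          · rw [uIcc_of_le h6] at hx
            exact ⟨h1.trans_le hx.1, hx.2.trans_lt h4⟩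
          · rw [uIcc_of_ge h6] at hx
            exact ⟨h3.trans_le hx.1, hx.2.trans_lt h2⟩
        exact (ContinuousAt.comp (f := fun x : ℝ => (x : ℂ)) (g := h) (hhan _ hxV).continuousAt
          (by fun_prop)).continuousWithinAt
      · exact intervalIntegrable_const
    rw [e3] at hrect
    have h8 : I * ((∫ θ in (0 : ℝ)..(2 * Real.pi), h (σ₂ + θ * I)) -
        (∫ θ in (0 : ℝ)..(2 * Real.pi), h (σ₁ + θ * I))) = (σ₂ - σ₁) * δ := by
      linear_combination hrect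
    have h9 : I * I = -1 := I_mul_I
    linear_combination (-I) * h8 + ((∫ θ in (0 : ℝ)..(2 * Real.pi), h (σ₂ + θ * I)) -
        (∫ θ in (0 : ℝ)..(2 * Real.pi), h (σ₁ + θ * I))) * h9
  -- conclusion
  set σ₀ : ℝ := (Real.log r₁ + Real.log R₁) / 2 with hσ₀
  have hσ₀1 : Real.log r₁ < σ₀ := by linarith
  have hσ₀2 : σ₀ < Real.log R₁ := by linarith
  refine ⟨(2 * Real.pi)⁻¹ * (∫ θ in (0 : ℝ)..(2 * Real.pi), h (σ₀ + θ * I)).re -
    σ₀ * ((2 * Real.pi)⁻¹ * (δ * (-I)).re), (2 * Real.pi)⁻¹ * (δ * (-I)).re, ?_⟩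
  intro r hr1 hr2
  have hr0 : 0 < r := hr₁.trans hr1
  have h1 : Real.log r₁ < Real.log r := Real.log_lt_log hr₁ hr1
  have h2 : Real.log r < Real.log R₁ := Real.log_lt_log hr0 hr2
  have h3 := hmean (Real.log r) h1 h2
  rw [Real.exp_log hr0] at h3
  rw [h3]
  have h4 := congrArg Complex.re (hcauchy σ₀ (Real.log r) hσ₀1 hσ₀2 h1 h2)
  have h5 : (((Real.log r : ℂ) - σ₀) * δ * (-I)).re = (Real.log r - σ₀) * (δ * (-I)).re := by
    rw [mul_assoc, ← ofReal_sub, re_ofReal_mul]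
  rw [h5, sub_re] at h4
  linear_combination (2 * Real.pi)⁻¹ * h4

end Pool.Agent.H92.GGL

end

section

/-!
# Jensen's formula on a punctured disc
-/

open Complex MeasureTheory Metric Set Topology Filter

namespace Pool.Agent.H92.GGL

/-- The order of a meromorphic function as an integer. -/
noncomputable def ordZ (u : ℂ → ℂ) (s : ℂ) : ℤ := (meromorphicOrderAt u s).untop₀

lemma ordZ_cast {u : ℂ → ℂ} {s : ℂ} (h : meromorphicOrderAt u s ≠ ⊤) :
    (ordZ u s : WithTop ℤ) = meromorphicOrderAt u s := by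
  unfold ordZ
  exact WithTop.coe_untop₀_of_ne_top h

/-- There are finitely many zeros and poles in an annulus. -/
lemma finite_ordZ {u : ℂ → ℂ} {R₀ a b : ℝ} (ha : 0 < a) (hb : b < R₀)
    (hu : ∀ z, 0 < ‖z‖ → ‖z‖ < R₀ → MeromorphicAt u z) :
    {s : ℂ | a ≤ ‖s‖ ∧ ‖s‖ ≤ b ∧ ordZ u s ≠ 0}.Finite := by
  set K : Set ℂ := {s : ℂ | a ≤ ‖s‖ ∧ ‖s‖ ≤ b} with hK
  have hKc : IsCompact K := by
    refine (isCompact_closedBall (0 : ℂ) b).of_isClosed_subset ?_ ?_
    · exact (isClosed_le continuous_const continuous_norm).inter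
        (isClosed_le continuous_norm continuous_const)
    · intro s hs
      rw [mem_closedBall_zero_iff]
      exact hs.2
  have hm : MeromorphicOn u K := fun z hz => hu z (ha.trans_le hz.1) (hz.2.trans_lt hb)
  refine ((MeromorphicOn.divisor u K).finiteSupport hKc).subset ?_
  rintro s ⟨h1, h2, h3⟩
  rw [Function.mem_support, MeromorphicOn.divisor_apply hm ⟨h1, h2⟩]
  exact h3

/-- The formula on an annulus. -/
lemma circleAverage_annulus {u : ℂ → ℂ} {R₀ r₁ R₁ : ℝ} (hr₁ : 0 < r₁) (hR₁ : R₁ < R₀)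
    (hu : ∀ z, 0 < ‖z‖ → ‖z‖ < R₀ → MeromorphicAt u z)
    (ho : ∀ z, 0 < ‖z‖ → ‖z‖ < R₀ → meromorphicOrderAt u z ≠ ⊤)
    (S : Finset ℂ) (hS : ∀ s, s ∈ S ↔ (r₁ < ‖s‖ ∧ ‖s‖ < R₁) ∧ ordZ u s ≠ 0) :
    ∃ a b : ℝ, ∀ r, r₁ < r → r < R₁ →
      Real.circleAverage (fun z => Real.log ‖u z‖) 0 r =
        a + b * Real.log r + ∑ s ∈ S, ordZ u s * Real.posLog (‖s‖ / r) := by
  set U : Set ℂ := {s : ℂ | r₁ < ‖s‖ ∧ ‖s‖ < R₁} with hU
  have hm : MeromorphicOn u U := fun z hz => hu z (hr₁.trans hz.1) (hz.2.trans hR₁)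
  have hdiv : ∀ s, MeromorphicOn.divisor u U s = if s ∈ U then ordZ u s else 0 := by
    intro s
    split_ifs with h
    · rw [MeromorphicOn.divisor_apply hm h]
      rfl
    · exact Function.locallyFinsuppWithin.apply_eq_zero_of_notMem _ h
  have hsupp : (MeromorphicOn.divisor u U).support ⊆ (S : Set ℂ) := by
    intro s hs
    rw [Function.mem_support, hdiv] at hs
    split_ifs at hs with h
    · exact (hS s).mpr ⟨h, hs⟩
    · exact absurd rfl hs
  have hfin : (MeromorphicOn.divisor u U).support.Finite := S.finite_toSet.subset hsupp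
  obtain ⟨v, hv, hv0, hfv⟩ := hm.extract_zeros_poles
    (fun z => ho z (hr₁.trans z.2.1) (z.2.2.trans hR₁)) hfin
  have hlog := MeromorphicOn.extract_zeros_poles_log hv0 hfv
  obtain ⟨a, b, hab⟩ := circleAverage_log_norm_affine (v := v) hr₁
    (fun z h1 h2 => hv z ⟨h1, h2⟩) (fun z h1 h2 => hv0 ⟨z, h1, h2⟩)
  refine ⟨a, b + ∑ s ∈ S, (ordZ u s : ℝ), ?_⟩
  intro r h1 h2
  have hr0 : 0 < r := hr₁.trans h1
  have hsum : ∑ᶠ s, (fun z : ℂ => (MeromorphicOn.divisor u U s : ℝ) * Real.log ‖z - s‖) =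
      fun z => ∑ s ∈ S, (ordZ u s : ℝ) * Real.log ‖z - s‖ := by
    have h3 : ∑ᶠ s, (fun z : ℂ => (MeromorphicOn.divisor u U s : ℝ) * Real.log ‖z - s‖) =
        ∑ s ∈ S, (fun z : ℂ => (MeromorphicOn.divisor u U s : ℝ) * Real.log ‖z - s‖) := by
      apply finsum_eq_sum_of_support_subset
      intro s hs
      apply hsupp
      rw [Function.mem_support] at hs ⊢
      intro h
      apply hs
      funext z
      rw [h]
      simp
    rw [h3]
    funext z
    rw [Finset.sum_apply]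
    refine Finset.sum_congr rfl fun s hs => ?_
    have h4 : s ∈ U := ((hS s).mp hs).1
    rw [hdiv, if_pos h4]
  have hcongr : Real.circleAverage (fun z => Real.log ‖u z‖) 0 r =
      Real.circleAverage ((fun z => ∑ s ∈ S, (ordZ u s : ℝ) * Real.log ‖z - s‖) +
        fun z => Real.log ‖v z‖) 0 r := by
    apply Real.circleAverage_congr_codiscreteWithin
    · rw [← hsum]
      refine Filter.EventuallyEq.filter_mono (l := codiscreteWithin U) hlog (codiscreteWithin_mono ?_)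
      intro z hz
      rw [mem_sphere_zero_iff_norm, abs_of_pos hr0] at hz
      rw [hU, mem_ofPred_eq, hz]
      exact ⟨h1, h2⟩
    · exact hr0.ne'
  have hint1 : ∀ s : ℂ, CircleIntegrable (fun z => Real.log ‖z - s‖) 0 r := fun s =>
    circleIntegrable_log_norm_sub_const r
  have hint : CircleIntegrable (fun z => ∑ s ∈ S, (ordZ u s : ℝ) * Real.log ‖z - s‖) 0 r := by
    refine CircleIntegrable.fun_sum S fun s _ => ?_
    exact (hint1 s).const_fun_smul (a := (ordZ u s : ℝ))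
  have hintv : CircleIntegrable (fun z => Real.log ‖v z‖) 0 r := by
    apply MeromorphicOn.circleIntegrable_log_norm
    intro z hz
    rw [mem_sphere_zero_iff_norm, abs_of_pos hr0] at hz
    refine (hv z ?_).meromorphicAt
    rw [hU, mem_ofPred_eq, hz]
    exact ⟨h1, h2⟩
  rw [hcongr, Real.circleAverage_add hint hintv, hab r h1 h2, Real.circleAverage_fun_sum]
  · have h4 : ∀ s ∈ S, Real.circleAverage (fun z => (ordZ u s : ℝ) * Real.log ‖z - s‖) 0 r =
        ordZ u s * (Real.log r + Real.posLog (‖s‖ / r)) := by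
      intro s _
      have h5 := Real.circleAverage_fun_smul (a := (ordZ u s : ℝ))
        (f := fun z => Real.log ‖z - s‖) (c := 0) (R := r)
      simp only [smul_eq_mul] at h5
      rw [h5, circleAverage_log_norm_sub_const_eq_log_radius_add_posLog hr0.ne', zero_sub, norm_neg,
        inv_mul_eq_div]
    rw [Finset.sum_congr rfl h4]
    simp only [mul_add, Finset.sum_add_distrib, ← Finset.sum_mul, add_mul]
    ring
  · intro s _
    exact (hint1 s).const_fun_smul (a := (ordZ u s : ℝ))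

/-- **Jensen's formula on a punctured disc.** -/
theorem jensen_punctured {u : ℂ → ℂ} {R₀ R₁ : ℝ} (hR₁ : R₁ < R₀)
    (hu : ∀ z, 0 < ‖z‖ → ‖z‖ < R₀ → MeromorphicAt u z)
    (ho : ∀ z, 0 < ‖z‖ → ‖z‖ < R₀ → meromorphicOrderAt u z ≠ ⊤) :
    ∃ A B : ℝ, ∀ r, 0 < r → r < R₁ → ∀ S : Finset ℂ, (∀ s ∈ S, ‖s‖ < R₁) →
      (∀ s, r < ‖s‖ → ‖s‖ < R₁ → ordZ u s ≠ 0 → s ∈ S) →
      Real.circleAverage (fun z => Real.log ‖u z‖) 0 r =
        A + B * Real.log r + ∑ s ∈ S, ordZ u s * Real.posLog (‖s‖ / r) := by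
  classical
  rcases le_or_gt R₁ 0 with hle | hR1pos
  · exact ⟨0, 0, fun r h1 h2 => absurd (h1.trans h2) (not_lt.mpr hle)⟩
  -- the finite sets of zeros
  have hfin : ∀ r : ℝ, 0 < r → {s : ℂ | (r < ‖s‖ ∧ ‖s‖ < R₁) ∧ ordZ u s ≠ 0}.Finite := by
    intro r hr
    refine (finite_ordZ hr hR₁ hu).subset ?_
    rintro s ⟨⟨h1, h2⟩, h3⟩
    exact ⟨h1.le, h2.le, h3⟩
  -- independence of the set
  have hindep : ∀ r, 0 < r → ∀ S : Finset ℂ, (∀ s ∈ S, ‖s‖ < R₁) →
      (∀ s, r < ‖s‖ → ‖s‖ < R₁ → ordZ u s ≠ 0 → s ∈ S) → ∀ S' : Finset ℂ,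
      (∀ s ∈ S', ‖s‖ < R₁) → (∀ s, r < ‖s‖ → ‖s‖ < R₁ → ordZ u s ≠ 0 → s ∈ S') →
      ∑ s ∈ S, ordZ u s * Real.posLog (‖s‖ / r) = ∑ s ∈ S', ordZ u s * Real.posLog (‖s‖ / r) := by
    intro r hr S hS1 hS2 S' hS'1 hS'2
    have hz : ∀ s, (ordZ u s : ℝ) * Real.posLog (‖s‖ / r) ≠ 0 → r < ‖s‖ ∧ ordZ u s ≠ 0 := by
      intro s hs
      refine ⟨?_, fun h => hs (by rw [h]; simp)⟩
      by_contra h
      apply hs
      have h1 : |‖s‖ / r| ≤ 1 := by
        rw [abs_of_nonneg (by positivity), div_le_one hr]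
        exact not_lt.mp h
      rw [Real.posLog_eq_zero_iff _ |>.mpr h1, mul_zero]
    have h1 : ∀ T : Finset ℂ, (∀ s ∈ T, ‖s‖ < R₁) →
        (∀ s, r < ‖s‖ → ‖s‖ < R₁ → ordZ u s ≠ 0 → s ∈ T) →
        ∑ s ∈ T, (ordZ u s : ℝ) * Real.posLog (‖s‖ / r) =
          ∑ s ∈ (hfin r hr).toFinset, (ordZ u s : ℝ) * Real.posLog (‖s‖ / r) := by
      intro T hT1 hT2
      symm
      apply Finset.sum_subset_zero_on_sdiff
      · intro s hs
        obtain ⟨⟨h1, h2⟩, h3⟩ := (hfin r hr).mem_toFinset.mp hs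
        exact hT2 s h1 h2 h3
      · intro s hs
        rw [Finset.mem_sdiff] at hs
        by_contra h
        apply hs.2
        obtain ⟨h2, h3⟩ := hz s h
        exact (hfin r hr).mem_toFinset.mpr ⟨⟨h2, hT1 s hs.1⟩, h3⟩
      · intro s _
        rfl
    rw [h1 S hS1 hS2, h1 S' hS'1 hS'2]
  -- the formula on annuli
  have hann : ∀ r₁ : ℝ, 0 < r₁ → ∃ a b : ℝ, ∀ r, r₁ < r → r < R₁ → ∀ S : Finset ℂ,
      (∀ s ∈ S, ‖s‖ < R₁) → (∀ s, r < ‖s‖ → ‖s‖ < R₁ → ordZ u s ≠ 0 → s ∈ S) →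
      Real.circleAverage (fun z => Real.log ‖u z‖) 0 r =
        a + b * Real.log r + ∑ s ∈ S, ordZ u s * Real.posLog (‖s‖ / r) := by
    intro r₁ hr₁
    obtain ⟨a, b, hab⟩ := circleAverage_annulus hr₁ hR₁ hu ho (hfin r₁ hr₁).toFinset
      (fun s => (hfin r₁ hr₁).mem_toFinset)
    refine ⟨a, b, fun r h1 h2 S hS1 hS2 => ?_⟩
    rw [hab r h1 h2]
    congr 1
    refine hindep r (hr₁.trans h1) _ ?_ ?_ S hS1 hS2
    · intro s hs
      exact ((hfin r₁ hr₁).mem_toFinset.mp hs).1.2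
    · intro s h3 h4 h5
      exact (hfin r₁ hr₁).mem_toFinset.mpr ⟨⟨h1.trans h3, h4⟩, h5⟩
  -- reference points
  obtain ⟨A, B, hAB⟩ := hann (R₁ / 4) (by positivity)
  refine ⟨A, B, fun r h1 h2 S hS1 hS2 => ?_⟩
  obtain ⟨a, b, hab⟩ := hann (min (r / 2) (R₁ / 8)) (by positivity)
  have hmin1 : min (r / 2) (R₁ / 8) < r := (min_le_left _ _).trans_lt (by linarith)
  have hmin2 : min (r / 2) (R₁ / 8) < R₁ / 3 := (min_le_right _ _).trans_lt (by linarith)
  have hmin3 : min (r / 2) (R₁ / 8) < R₁ / 2 := (min_le_right _ _).trans_lt (by linarith)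
  have hT : ∀ (ρ : ℝ) (hρ : 0 < ρ), (∀ s ∈ (hfin ρ hρ).toFinset, ‖s‖ < R₁) ∧
      (∀ s, ρ < ‖s‖ → ‖s‖ < R₁ → ordZ u s ≠ 0 → s ∈ (hfin ρ hρ).toFinset) := by
    intro ρ hρ
    refine ⟨fun s hs => ((hfin ρ hρ).mem_toFinset.mp hs).1.2, fun s h3 h4 h5 => ?_⟩
    exact (hfin ρ hρ).mem_toFinset.mpr ⟨⟨h3, h4⟩, h5⟩
  have h3pos : 0 < R₁ / 3 := by positivity
  have h2pos : 0 < R₁ / 2 := by positivity
  have e1 := hAB (R₁ / 3) (by linarith) (by linarith) _ (hT _ h3pos).1 (hT _ h3pos).2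
  have e2 := hAB (R₁ / 2) (by linarith) (by linarith) _ (hT _ h2pos).1 (hT _ h2pos).2
  have e3 := hab (R₁ / 3) hmin2 (by linarith) _ (hT _ h3pos).1 (hT _ h3pos).2
  have e4 := hab (R₁ / 2) hmin3 (by linarith) _ (hT _ h2pos).1 (hT _ h2pos).2
  have e5 : A + B * Real.log (R₁ / 3) = a + b * Real.log (R₁ / 3) := by linarith
  have e6 : A + B * Real.log (R₁ / 2) = a + b * Real.log (R₁ / 2) := by linarith
  have e7 : Real.log (R₁ / 3) < Real.log (R₁ / 2) := Real.log_lt_log h3pos (by linarith)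
  have e8 : (B - b) * (Real.log (R₁ / 2) - Real.log (R₁ / 3)) = 0 := by linear_combination e6 - e5
  have e9 : B = b := by
    rcases mul_eq_zero.mp e8 with h | h
    · linarith
    · linarith
  have e10 : A = a := by
    rw [e9] at e5
    linarith
  rw [hab r hmin1 h2 S hS1 hS2, e9, e10]

end Pool.Agent.H92.GGL

end

section

/-!
# Nevanlinna theory at a puncture: definitions

Circle means and counting functions near the puncture `0`, with the variable `x = log (1 / r)`.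
-/

open Filter Topology MeasureTheory
open Pool.Agent.H92.GGL (ordZ)

noncomputable section

namespace Pool.Agent.H62.FC

/-- `u` is meromorphic and not identically zero on the punctured disc of radius `R₀`. -/
structure MeroPunct (R₀ : ℝ) (u : ℂ → ℂ) : Prop where
  mero : ∀ z, 0 < ‖z‖ → ‖z‖ < R₀ → MeromorphicAt u z
  ord : ∀ z, 0 < ‖z‖ → ‖z‖ < R₀ → meromorphicOrderAt u z ≠ ⊤

/-- The weighted counting function of the annulus `r < ‖s‖ < R₁`. -/
def cnt (w : ℂ → ℝ) (R₁ r : ℝ) : ℝ :=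
  ∑ᶠ s ∈ {s : ℂ | r < ‖s‖ ∧ ‖s‖ < R₁}, w s * Real.log (‖s‖ / r)

/-- The weight `w` has locally finite support in the punctured disc of radius `R₀`. -/
def LocFin (R₀ : ℝ) (w : ℂ → ℝ) : Prop :=
  ∀ r b : ℝ, 0 < r → b < R₀ → {s : ℂ | r ≤ ‖s‖ ∧ ‖s‖ ≤ b ∧ w s ≠ 0}.Finite

/-- The mean on the circle of radius `exp (-x)`. -/
def mean (g : ℂ → ℝ) (x : ℝ) : ℝ := Real.circleAverage g 0 (Real.exp (-x))

/-- The characteristic function near the puncture. -/
def nevT (u : ℂ → ℂ) (R₁ x : ℝ) : ℝ :=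
  mean (fun z => Real.posLog ‖u z‖) x + cnt (fun s => max (-(ordZ u s : ℝ)) 0) R₁ (Real.exp (-x))

/-- `S` is negligible with respect to `T`, outside a set of finite measure. -/
def Negl (R₁ : ℝ) (T S : ℝ → ℝ) : Prop :=
  ∀ ε : ℝ, 0 < ε → ∃ (C : ℝ) (E : Set ℝ), volume E ≠ ⊤ ∧
    ∀ x, Real.exp (-x) < R₁ → x ∉ E → S x ≤ ε * T x + C * (1 + |x|)

/-- The Wronskian. -/
def wronsk {n : ℕ} (u : Fin n → ℂ → ℂ) (z : ℂ) : ℂ :=
  (Matrix.of fun i j : Fin n => iteratedDeriv i (u j) z).det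

/-- `f` is, up to a discrete set, meromorphic at `0`. -/
def PunctMero (f : ℂ → ℂ) : Prop :=
  ∃ v : ℂ → ℂ, MeromorphicAt v 0 ∧ ∀ᶠ z in 𝓝[≠] (0 : ℂ), f =ᶠ[𝓝[≠] z] v

end Pool.Agent.H62.FC

end
end

section

/-!
# Nevanlinna theory at a puncture: counting functions and the first main theorem
-/

noncomputable section

namespace Pool.Agent.H62.FC

open Filter Topology MeasureTheory
open Pool.Agent.H92.GGL (ordZ finite_ordZ jensen_punctured)

variable {R₀ R₁ : ℝ}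

theorem cnt_eq_sum {w : ℂ → ℝ} {r : ℝ} {T : Finset ℂ}
    (hT : ∀ s, r < ‖s‖ → ‖s‖ < R₁ → w s ≠ 0 → s ∈ T) (hr : 0 < r) :
    cnt w R₁ r = ∑ s ∈ T with r < ‖s‖ ∧ ‖s‖ < R₁, w s * Real.log (‖s‖ / r) := by
  unfold cnt
  apply finsum_mem_eq_sum_of_inter_support_eq
  ext s
  simp only [Set.mem_inter_iff, Set.mem_ofPred_eq, Finset.coe_filter, Function.mem_support]
  constructor
  · rintro ⟨⟨h1, h2⟩, h3⟩
    exact ⟨⟨hT s h1 h2 (fun h => h3 (by rw [h, zero_mul])), h1, h2⟩, h3⟩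
  · rintro ⟨⟨_, h1, h2⟩, h3⟩
    exact ⟨⟨h1, h2⟩, h3⟩

private theorem Nev0_exists {w : ℂ → ℝ} (h : R₁ < R₀) (hw : LocFin R₀ w) {r : ℝ} (hr : 0 < r) :
    ∃ T : Finset ℂ, ∀ s, r < ‖s‖ → ‖s‖ < R₁ → w s ≠ 0 → s ∈ T :=
  ⟨(hw r R₁ hr h).toFinset, fun _ h1 h2 h3 => (hw r R₁ hr h).mem_toFinset.mpr ⟨h1.le, h2.le, h3⟩⟩

private theorem Nev0_exists2 {w w' : ℂ → ℝ} (h : R₁ < R₀) (hw : LocFin R₀ w)
    (hw' : LocFin R₀ w') {r : ℝ} (hr : 0 < r) :
    ∃ T : Finset ℂ, (∀ s, r < ‖s‖ → ‖s‖ < R₁ → w s ≠ 0 → s ∈ T) ∧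
      ∀ s, r < ‖s‖ → ‖s‖ < R₁ → w' s ≠ 0 → s ∈ T := by
  classical
  obtain ⟨T, hT⟩ := Nev0_exists h hw hr
  obtain ⟨T', hT'⟩ := Nev0_exists h hw' hr
  exact ⟨T ∪ T', fun s h1 h2 h3 => Finset.mem_union_left _ (hT s h1 h2 h3),
    fun s h1 h2 h3 => Finset.mem_union_right _ (hT' s h1 h2 h3)⟩

theorem cnt_add {w w' : ℂ → ℝ} (h : R₁ < R₀) (hw : LocFin R₀ w) (hw' : LocFin R₀ w') {r : ℝ}
    (hr : 0 < r) : cnt (fun s => w s + w' s) R₁ r = cnt w R₁ r + cnt w' R₁ r := by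
  obtain ⟨T, hT, hT'⟩ := Nev0_exists2 h hw hw' hr
  rw [cnt_eq_sum hT hr, cnt_eq_sum hT' hr, cnt_eq_sum (w := fun s => w s + w' s) (T := T) ?_ hr,
    ← Finset.sum_add_distrib]
  · exact Finset.sum_congr rfl fun s _ => add_mul _ _ _
  · intro s h1 h2 h3
    by_cases h4 : w s = 0
    · refine hT' s h1 h2 fun h5 => h3 ?_
      rw [h4, h5, add_zero]
    · exact hT s h1 h2 h4

theorem cnt_mul {w : ℂ → ℝ} (c : ℝ) {r : ℝ} (h : R₁ < R₀) (hw : LocFin R₀ w) (hr : 0 < r) :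
    cnt (fun s => c * w s) R₁ r = c * cnt w R₁ r := by
  obtain ⟨T, hT⟩ := Nev0_exists h hw hr
  rw [cnt_eq_sum hT hr, cnt_eq_sum (w := fun s => c * w s) (T := T) ?_ hr, Finset.mul_sum]
  · exact Finset.sum_congr rfl fun s _ => mul_assoc _ _ _
  · intro s h1 h2 h3
    refine hT s h1 h2 fun h4 => h3 ?_
    rw [h4, mul_zero]

theorem cnt_mono {w w' : ℂ → ℝ} (h : R₁ < R₀) (hw : LocFin R₀ w) (hw' : LocFin R₀ w') {r : ℝ}
    (hr : 0 < r) (hle : ∀ s, r < ‖s‖ → ‖s‖ < R₁ → w s ≤ w' s) : cnt w R₁ r ≤ cnt w' R₁ r := by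
  obtain ⟨T, hT, hT'⟩ := Nev0_exists2 h hw hw' hr
  rw [cnt_eq_sum hT hr, cnt_eq_sum hT' hr]
  refine Finset.sum_le_sum fun s hs => ?_
  obtain ⟨_, h1, h2⟩ := Finset.mem_filter.mp hs
  refine mul_le_mul_of_nonneg_right (hle s h1 h2) (Real.log_nonneg ?_)
  rw [one_le_div hr]
  exact h1.le

theorem cnt_nonneg {w : ℂ → ℝ} {r : ℝ} (hr : 0 < r) (hw : ∀ s, 0 ≤ w s) : 0 ≤ cnt w R₁ r := by
  unfold cnt
  refine finsum_nonneg fun s => finsum_nonneg fun hs => ?_
  refine mul_nonneg (hw s) (Real.log_nonneg ?_)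
  rw [one_le_div hr]
  exact hs.1.le

/-- change of the outer radius -/
theorem cnt_radius {w : ℂ → ℝ} {R₂ : ℝ} (h1 : 0 < R₁) (h12 : R₁ ≤ R₂) (h : R₂ < R₀)
    (hw : LocFin R₀ w) :
    ∃ C : ℝ, ∀ x, Real.exp (-x) < R₁ →
      |cnt w R₂ (Real.exp (-x)) - cnt w R₁ (Real.exp (-x))| ≤ C * (1 + |x|) := by
  classical
  set T₀ : Finset ℂ := (hw R₁ R₂ h1 h).toFinset with hT₀
  refine ⟨∑ s ∈ T₀, |w s| * (|Real.log ‖s‖| + 1), fun x hx => ?_⟩
  have hr : 0 < Real.exp (-x) := Real.exp_pos _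
  obtain ⟨T', hT'⟩ := Nev0_exists h hw hr
  set T : Finset ℂ := T' ∪ T₀ with hTdef
  have hT : ∀ s, Real.exp (-x) < ‖s‖ → ‖s‖ < R₂ → w s ≠ 0 → s ∈ T :=
    fun s h3 h4 h5 => Finset.mem_union_left _ (hT' s h3 h4 h5)
  rw [cnt_eq_sum hT hr, cnt_eq_sum (R₁ := R₁) (T := T)
    (fun s h3 h4 h5 => hT s h3 (h4.trans_le h12) h5) hr, Finset.sum_filter, Finset.sum_filter,
    ← Finset.sum_sub_distrib]
  refine (Finset.abs_sum_le_sum_abs _ _).trans ?_
  have hsub : T₀ ⊆ T := Finset.subset_union_right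
  have hz : ∀ s ∈ T, s ∉ T₀ →
      |(if Real.exp (-x) < ‖s‖ ∧ ‖s‖ < R₂ then w s * Real.log (‖s‖ / Real.exp (-x)) else 0) -
        (if Real.exp (-x) < ‖s‖ ∧ ‖s‖ < R₁ then w s * Real.log (‖s‖ / Real.exp (-x)) else 0)| =
        0 := by
    intro s _ hs
    by_cases hws : w s = 0
    · simp [hws]
    by_cases hs1 : ‖s‖ < R₁
    · have hs2 : ‖s‖ < R₂ := hs1.trans_le h12
      simp [hs1, hs2]
    · by_cases hs2 : ‖s‖ < R₂
      · exact absurd ((hw R₁ R₂ h1 h).mem_toFinset.mpr ⟨not_lt.mp hs1, hs2.le, hws⟩) hs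
      · simp [hs1, hs2]
  rw [← Finset.sum_subset hsub hz, Finset.sum_mul]
  refine Finset.sum_le_sum fun s hs => ?_
  obtain ⟨hs1, hs2, hs3⟩ := (hw R₁ R₂ h1 h).mem_toFinset.mp hs
  have hs0 : 0 < ‖s‖ := h1.trans_le hs1
  have hb : |w s * Real.log (‖s‖ / Real.exp (-x))| ≤
      |w s| * (|Real.log ‖s‖| + 1) * (1 + |x|) := by
    rw [Real.log_div hs0.ne' hr.ne', Real.log_exp, sub_neg_eq_add, abs_mul, mul_assoc]
    refine mul_le_mul_of_nonneg_left ((abs_add_le _ _).trans ?_) (abs_nonneg _)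
    have h4 := abs_nonneg (Real.log ‖s‖)
    have h5 := abs_nonneg x
    nlinarith [mul_nonneg h4 h5]
  have hnn : 0 ≤ |w s| * (|Real.log ‖s‖| + 1) * (1 + |x|) := by positivity
  have hns : ¬ (Real.exp (-x) < ‖s‖ ∧ ‖s‖ < R₁) := fun h6 => not_lt.mpr hs1 h6.2
  rw [if_neg hns, sub_zero]
  split_ifs with h6
  · exact hb
  · rw [abs_zero]
    exact hnn

theorem MeroPunct.locFin {u : ℂ → ℂ} (hu : MeroPunct R₀ u) : LocFin R₀ (fun s => (ordZ u s : ℝ)) := by
  intro r b hr hb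
  refine (finite_ordZ hr hb hu.mero).subset ?_
  rintro s ⟨h1, h2, h3⟩
  exact ⟨h1, h2, fun h => h3 (by change ((ordZ u s : ℤ) : ℝ) = 0; rw [h]; simp)⟩

theorem MeroPunct.jensen {u : ℂ → ℂ} (hu : MeroPunct R₀ u) (h1 : 0 < R₁) (h : R₁ < R₀) :
    ∃ A B : ℝ, ∀ x, Real.exp (-x) < R₁ →
      mean (fun z => Real.log ‖u z‖) x = A + B * x + cnt (fun s => (ordZ u s : ℝ)) R₁ (Real.exp (-x)) := by
  classical
  obtain ⟨A, B, hAB⟩ := jensen_punctured h hu.mero hu.ord
  refine ⟨A, -B, fun x hx => ?_⟩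
  have hr : 0 < Real.exp (-x) := Real.exp_pos _
  obtain ⟨T, hT⟩ := Nev0_exists h hu.locFin hr
  have hT' : ∀ s, Real.exp (-x) < ‖s‖ → ‖s‖ < R₁ → ordZ u s ≠ 0 →
      s ∈ T.filter (fun s => Real.exp (-x) < ‖s‖ ∧ ‖s‖ < R₁) := by
    intro s h3 h4 h5
    exact Finset.mem_filter.mpr ⟨hT s h3 h4 (by exact_mod_cast h5), h3, h4⟩
  unfold mean
  rw [hAB (Real.exp (-x)) hr hx _ (fun s hs => (Finset.mem_filter.mp hs).2.2) hT',
    cnt_eq_sum hT hr, Real.log_exp]
  have e : ∀ s ∈ T.filter (fun s => Real.exp (-x) < ‖s‖ ∧ ‖s‖ < R₁),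
      (ordZ u s : ℝ) * Real.posLog (‖s‖ / Real.exp (-x)) =
      (ordZ u s : ℝ) * Real.log (‖s‖ / Real.exp (-x)) := by
    intro s hs
    have h3 := (Finset.mem_filter.mp hs).2.1
    have h4 : 1 ≤ |‖s‖ / Real.exp (-x)| := by
      rw [abs_of_nonneg (by positivity), one_le_div hr]
      exact h3.le
    rw [Real.posLog_eq_log h4]
  rw [Finset.sum_congr rfl e]
  ring

private theorem Nev0_mem {u : ℂ → ℂ} (hu : MeroPunct R₀ u) {x : ℝ} (hx : Real.exp (-x) < R₀) :
    MeromorphicOn u (Metric.sphere 0 |Real.exp (-x)|) := by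
  intro z hz
  rw [mem_sphere_zero_iff_norm, abs_of_pos (Real.exp_pos _)] at hz
  exact hu.mero z (by rw [hz]; exact Real.exp_pos _) (by rw [hz]; exact hx)

theorem MeroPunct.circleIntegrable_log {u : ℂ → ℂ} (hu : MeroPunct R₀ u) {x : ℝ}
    (hx : Real.exp (-x) < R₀) : CircleIntegrable (fun z => Real.log ‖u z‖) 0 (Real.exp (-x)) :=
  (Nev0_mem hu hx).circleIntegrable_log_norm

theorem MeroPunct.circleIntegrable_posLog {u : ℂ → ℂ} (hu : MeroPunct R₀ u) {x : ℝ}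
    (hx : Real.exp (-x) < R₀) : CircleIntegrable (fun z => Real.posLog ‖u z‖) 0 (Real.exp (-x)) :=
  (Nev0_mem hu hx).circleIntegrable_posLog_norm

theorem MeroPunct.mul {u v : ℂ → ℂ} (hu : MeroPunct R₀ u) (hv : MeroPunct R₀ v) :
    MeroPunct R₀ (fun z => u z * v z) where
  mero z h1 h2 := (hu.mero z h1 h2).mul (hv.mero z h1 h2)
  ord z h1 h2 := by
    have e : meromorphicOrderAt (fun z => u z * v z) z =
        meromorphicOrderAt u z + meromorphicOrderAt v z :=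
      meromorphicOrderAt_mul (hu.mero z h1 h2) (hv.mero z h1 h2)
    rw [e]
    exact WithTop.add_ne_top.mpr ⟨hu.ord z h1 h2, hv.ord z h1 h2⟩

private theorem Nev0_ord_inv (u : ℂ → ℂ) (z : ℂ) :
    meromorphicOrderAt (fun z => (u z)⁻¹) z = -meromorphicOrderAt u z :=
  meromorphicOrderAt_inv

theorem MeroPunct.inv {u : ℂ → ℂ} (hu : MeroPunct R₀ u) : MeroPunct R₀ (fun z => (u z)⁻¹) where
  mero z h1 h2 := (hu.mero z h1 h2).inv
  ord z h1 h2 := by
    rw [Nev0_ord_inv]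
    intro h
    have h3 := hu.ord z h1 h2
    obtain ⟨k, hk⟩ := WithTop.ne_top_iff_exists.mp h3
    rw [← hk] at h
    exact absurd h (by exact WithTop.coe_ne_top (a := -k))

private theorem Nev0_ordZ_inv {u : ℂ → ℂ} {z : ℂ} (h : meromorphicOrderAt u z ≠ ⊤) :
    ordZ (fun z => (u z)⁻¹) z = -ordZ u z := by
  unfold Pool.Agent.H92.GGL.ordZ
  rw [Nev0_ord_inv]
  obtain ⟨k, hk⟩ := WithTop.ne_top_iff_exists.mp h
  rw [← hk]
  have e : -((k : ℤ) : WithTop ℤ) = ((-k : ℤ) : WithTop ℤ) := rfl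
  rw [e, WithTop.untop₀_coe, WithTop.untop₀_coe]

theorem nevT_nonneg (u : ℂ → ℂ) (R₁ x : ℝ) : 0 ≤ nevT u R₁ x := by
  unfold nevT mean
  refine add_nonneg (Real.circleAverage_nonneg_of_nonneg fun z _ => Real.posLog_nonneg)
    (cnt_nonneg (Real.exp_pos _) fun s => le_max_right _ _)

private theorem Nev0_locFin_comp {w : ℂ → ℝ} (hw : LocFin R₀ w) {f : ℝ → ℝ} (hf : f 0 = 0) :
    LocFin R₀ (fun s => f (w s)) := by
  intro r b hr hb
  refine (hw r b hr hb).subset ?_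
  rintro s ⟨h1, h2, h3⟩
  refine ⟨h1, h2, fun h => h3 ?_⟩
  change f (w s) = 0
  rw [h, hf]

private theorem Nev0_cnt_congr {w w' : ℂ → ℝ} {r : ℝ}
    (hle : ∀ s, r < ‖s‖ → ‖s‖ < R₁ → w s = w' s) : cnt w R₁ r = cnt w' R₁ r := by
  unfold cnt
  refine finsum_congr fun s => finsum_congr fun hs => ?_
  rw [hle s hs.1 hs.2]

/-- the characteristic function of the inverse -/
private theorem Nev0_inv {u : ℂ → ℂ} (hu : MeroPunct R₀ u) (h : R₁ < R₀) {x : ℝ}
    (hx : Real.exp (-x) < R₁) :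
    nevT (fun z => (u z)⁻¹) R₁ x = mean (fun z => Real.posLog ‖u z‖⁻¹) x +
      cnt (fun s => max (ordZ u s : ℝ) 0) R₁ (Real.exp (-x)) := by
  unfold nevT
  congr 1
  · congr 1
    funext z
    rw [norm_inv]
  · refine Nev0_cnt_congr fun s h1 h2 => ?_
    rw [Nev0_ordZ_inv (hu.ord s ((Real.exp_pos _).trans h1) (h2.trans h))]
    push_cast
    rw [neg_neg]

/-- first main theorem for `0` and `∞` -/
theorem MeroPunct.nevT_inv {u : ℂ → ℂ} (hu : MeroPunct R₀ u) (h1 : 0 < R₁) (h : R₁ < R₀) :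
    ∃ C : ℝ, ∀ x, Real.exp (-x) < R₁ →
      |nevT (fun z => (u z)⁻¹) R₁ x - nevT u R₁ x| ≤ C * (1 + |x|) := by
  obtain ⟨A, B, hAB⟩ := hu.jensen h1 h
  refine ⟨|A| + |B|, fun x hx => ?_⟩
  have hr : 0 < Real.exp (-x) := Real.exp_pos _
  have hx0 : Real.exp (-x) < R₀ := hx.trans h
  have hJ := hAB x hx
  have e1 : mean (fun z => Real.log ‖u z‖) x = mean (fun z => Real.posLog ‖u z‖) x -
      mean (fun z => Real.posLog ‖u z‖⁻¹) x := by
    unfold mean
    rw [← Real.circleAverage_fun_sub (hu.circleIntegrable_posLog hx0)]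
    · congr 1
      funext z
      rw [Real.posLog_sub_posLog_inv]
    · have := hu.inv.circleIntegrable_posLog hx0
      simpa only [norm_inv] using this
  have e2 : cnt (fun s => max (ordZ u s : ℝ) 0) R₁ (Real.exp (-x)) =
      cnt (fun s => (ordZ u s : ℝ)) R₁ (Real.exp (-x)) +
      cnt (fun s => max (-(ordZ u s : ℝ)) 0) R₁ (Real.exp (-x)) := by
    rw [← cnt_add h hu.locFin (Nev0_locFin_comp (f := fun t => max (-t) 0) hu.locFin (by simp)) hr]
    refine Nev0_cnt_congr fun s _ _ => ?_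
    rcases le_total (ordZ u s : ℝ) 0 with h3 | h3
    · rw [max_eq_right h3, max_eq_left (neg_nonneg.mpr h3), add_neg_cancel]
    · rw [max_eq_left h3, max_eq_right (neg_nonpos.mpr h3), add_zero]
  have e3 : nevT (fun z => (u z)⁻¹) R₁ x - nevT u R₁ x = -(A + B * x) := by
    rw [Nev0_inv hu h hx, nevT, e2]
    rw [e1] at hJ
    linarith
  rw [e3, abs_neg]
  have h4 := abs_nonneg A
  have h5 := abs_nonneg B
  have h6 := abs_nonneg x
  calc |A + B * x| ≤ |A| + |B * x| := abs_add_le _ _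
    _ = |A| + |B| * |x| := by rw [abs_mul]
    _ ≤ (|A| + |B|) * (1 + |x|) := by nlinarith [mul_nonneg h4 h6]

/-- the mean of `|log |u||` and the number of zeros and poles -/
theorem MeroPunct.mean_abs_add_cnt {u : ℂ → ℂ} (hu : MeroPunct R₀ u) (h1 : 0 < R₁) (h : R₁ < R₀) :
    ∃ C : ℝ, ∀ x, Real.exp (-x) < R₁ →
      mean (fun z => |Real.log ‖u z‖|) x + cnt (fun s => |(ordZ u s : ℝ)|) R₁ (Real.exp (-x)) ≤
        2 * nevT u R₁ x + C * (1 + |x|) := by
  obtain ⟨C, hC⟩ := hu.nevT_inv h1 h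
  refine ⟨C, fun x hx => ?_⟩
  have hr : 0 < Real.exp (-x) := Real.exp_pos _
  have hx0 : Real.exp (-x) < R₀ := hx.trans h
  have e1 : mean (fun z => |Real.log ‖u z‖|) x = mean (fun z => Real.posLog ‖u z‖) x +
      mean (fun z => Real.posLog ‖u z‖⁻¹) x := by
    unfold mean
    rw [← Real.circleAverage_fun_add (hu.circleIntegrable_posLog hx0)]
    · congr 1
      funext z
      have h2 := Real.half_mul_log_add_log_abs (x := ‖u z‖)
      have h3 := Real.posLog_sub_posLog_inv (x := ‖u z‖)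
      linarith
    · have := hu.inv.circleIntegrable_posLog hx0
      simpa only [norm_inv] using this
  have e2 : cnt (fun s => |(ordZ u s : ℝ)|) R₁ (Real.exp (-x)) =
      cnt (fun s => max (ordZ u s : ℝ) 0) R₁ (Real.exp (-x)) +
      cnt (fun s => max (-(ordZ u s : ℝ)) 0) R₁ (Real.exp (-x)) := by
    rw [← cnt_add h (Nev0_locFin_comp (f := fun t => max t 0) hu.locFin (by simp))
      (Nev0_locFin_comp (f := fun t => max (-t) 0) hu.locFin (by simp)) hr]
    refine Nev0_cnt_congr fun s _ _ => ?_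
    rcases le_total (ordZ u s : ℝ) 0 with h3 | h3
    · rw [max_eq_right h3, max_eq_left (neg_nonneg.mpr h3), zero_add, abs_of_nonpos h3]
    · rw [max_eq_left h3, max_eq_right (neg_nonpos.mpr h3), add_zero, abs_of_nonneg h3]
  have h2 := (abs_le.mp (hC x hx)).2
  have e3 : mean (fun z => |Real.log ‖u z‖|) x +
      cnt (fun s => |(ordZ u s : ℝ)|) R₁ (Real.exp (-x)) =
      nevT u R₁ x + nevT (fun z => (u z)⁻¹) R₁ x := by
    rw [e1, e2, Nev0_inv hu h hx, nevT]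
    ring
  rw [e3]
  linarith

end Pool.Agent.H62.FC

end
end

section

/-!
# FC: lemma on the logarithmic derivative, higher derivatives
-/

noncomputable section

namespace Pool.Agent.H62.FC

open Filter Topology MeasureTheory
open Pool.Agent.H92.GGL (ordZ)

/-! ### The punctured disc -/

private lemma iterDeriv_preconn (R₀ : ℝ) (hR₀ : 0 < R₀) :
    IsPreconnected {z : ℂ | 0 < ‖z‖ ∧ ‖z‖ < R₀} := by
  have h1 : IsPreconnected ({z : ℂ | z.re < Real.log R₀}) :=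
    (convex_halfSpace_re_lt (Real.log R₀)).isPreconnected
  have h2 := h1.image Complex.exp Complex.continuous_exp.continuousOn
  have h3 : Complex.exp '' {z : ℂ | z.re < Real.log R₀} = {z : ℂ | 0 < ‖z‖ ∧ ‖z‖ < R₀} := by
    ext z
    constructor
    · rintro ⟨w, hw, rfl⟩
      refine ⟨by rw [Complex.norm_exp]; exact Real.exp_pos _, ?_⟩
      rw [Complex.norm_exp]
      calc Real.exp w.re < Real.exp (Real.log R₀) := Real.exp_lt_exp.2 hw
        _ = R₀ := Real.exp_log hR₀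
    · rintro ⟨hz0, hz1⟩
      refine ⟨Complex.log z, ?_, Complex.exp_log (norm_pos_iff.1 hz0)⟩
      change (Complex.log z).re < _
      rw [Complex.log_re]
      exact Real.log_lt_log hz0 hz1
  rwa [h3] at h2

/-- a meromorphic function on the punctured disc is either of finite order everywhere, or it
vanishes off a discrete set -/
lemma iterDeriv_dich {R₀ : ℝ} (hR₀ : 0 < R₀) {w : ℂ → ℂ}
    (hw : ∀ z, 0 < ‖z‖ → ‖z‖ < R₀ → MeromorphicAt w z) :
    MeroPunct R₀ w ∨ ∀ z, 0 < ‖z‖ → ‖z‖ < R₀ → ∀ᶠ ζ in 𝓝[≠] z, w ζ = 0 := by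
  by_cases h : ∀ z, 0 < ‖z‖ → ‖z‖ < R₀ → meromorphicOrderAt w z ≠ ⊤
  · exact Or.inl ⟨hw, h⟩
  · right
    push Not at h
    obtain ⟨z₀, h1, h2, h3⟩ := h
    intro z hz1 hz2
    rw [← meromorphicOrderAt_eq_top_iff]
    by_contra h4
    have hm : MeromorphicOn w {z : ℂ | 0 < ‖z‖ ∧ ‖z‖ < R₀} := fun y hy => hw y hy.1 hy.2
    exact hm.meromorphicOrderAt_ne_top_of_isPreconnected (iterDeriv_preconn R₀ hR₀)
      ⟨hz1, hz2⟩ ⟨h1, h2⟩ h4 h3

/-! ### Means -/

lemma iterDeriv_cod {R₀ x : ℝ} (hx : Real.exp (-x) < R₀) {P : ℂ → Prop}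
    (hP : ∀ z, 0 < ‖z‖ → ‖z‖ < R₀ → ∀ᶠ ζ in 𝓝[≠] z, P ζ) :
    ∀ᶠ z in codiscreteWithin (Metric.sphere (0 : ℂ) |Real.exp (-x)|), P z := by
  rw [Filter.Eventually, mem_codiscreteWithin_iff_forall_mem_nhdsNE]
  intro z hz
  rw [mem_sphere_zero_iff_norm, abs_of_pos (Real.exp_pos _)] at hz
  filter_upwards [hP z (by rw [hz]; exact Real.exp_pos _) (by rw [hz]; exact hx)] with ζ hζ
  exact Or.inl hζ

lemma iterDeriv_mean_mono {f g : ℂ → ℝ} {x : ℝ}
    (hf : CircleIntegrable f 0 (Real.exp (-x))) (hg : CircleIntegrable g 0 (Real.exp (-x)))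
    (h : ∀ᶠ z in codiscreteWithin (Metric.sphere (0 : ℂ) |Real.exp (-x)|), f z ≤ g z) :
    mean f x ≤ mean g x := by
  have he : f =ᶠ[codiscreteWithin (Metric.sphere (0 : ℂ) |Real.exp (-x)|)]
      fun z => min (f z) (g z) := by
    filter_upwards [h] with z hz
    exact (min_eq_left hz).symm
  unfold mean
  rw [Real.circleAverage_congr_codiscreteWithin he (Real.exp_pos _).ne']
  exact Real.circleAverage_mono (hf.congr_codiscreteWithin he) hg fun z _ => min_le_right _ _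

lemma iterDeriv_mean_zero {f : ℂ → ℝ} {x : ℝ}
    (h : ∀ᶠ z in codiscreteWithin (Metric.sphere (0 : ℂ) |Real.exp (-x)|), f z = 0) :
    mean f x = 0 := by
  unfold mean
  have he : f =ᶠ[codiscreteWithin (Metric.sphere (0 : ℂ) |Real.exp (-x)|)] fun _ => 0 := h
  rw [Real.circleAverage_congr_codiscreteWithin he (Real.exp_pos _).ne',
    Real.circleAverage_const]

lemma iterDeriv_mean_add {f g : ℂ → ℝ} {x : ℝ}
    (hf : CircleIntegrable f 0 (Real.exp (-x))) (hg : CircleIntegrable g 0 (Real.exp (-x))) :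
    mean (fun z => f z + g z) x = mean f x + mean g x :=
  Real.circleAverage_fun_add hf hg

lemma iterDeriv_posLog_le {a b c : ℂ} (hb : b ≠ 0) :
    Real.posLog ‖a / c‖ ≤ Real.posLog ‖a / b‖ + Real.posLog ‖b / c‖ := by
  have h : a / c = (a / b) * (b / c) := by
    rw [div_mul_div_comm, mul_comm b c, mul_div_mul_right _ _ hb]
  rw [h, norm_mul]
  exact Real.posLog_mul

/-! ### Orders -/

private lemma iterDeriv_ord_nonneg {f : ℂ → ℂ} {s : ℂ} (hf : MeromorphicAt f s)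
    (h : 0 ≤ meromorphicOrderAt f s) : 0 ≤ meromorphicOrderAt (deriv f) s := by
  have h1 : f =ᶠ[𝓝[≠] s] toMeromorphicNFAt f s := hf.eq_nhdsNE_toMeromorphicNFAt
  have h2 : 0 ≤ meromorphicOrderAt (toMeromorphicNFAt f s) s := by
    rwa [← meromorphicOrderAt_congr h1]
  have h3 : AnalyticAt ℂ (toMeromorphicNFAt f s) s :=
    meromorphicNFAt_toMeromorphicNFAt.meromorphicOrderAt_nonneg_iff_analyticAt.1 h2
  rw [meromorphicOrderAt_congr h1.nhdsNE_deriv]
  exact h3.deriv.meromorphicOrderAt_nonneg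

lemma iterDeriv_mero {u : ℂ → ℂ} {s : ℂ} (hu : MeromorphicAt u s) (l : ℕ) :
    MeromorphicAt (iteratedDeriv l u) s := by
  rw [iteratedDeriv_eq_iterate]
  exact hu.iterated_deriv

private lemma iterDeriv_ord {u : ℂ → ℂ} {s : ℂ} (hu : MeromorphicAt u s) (l : ℕ) :
    (0 ≤ meromorphicOrderAt u s → 0 ≤ meromorphicOrderAt (iteratedDeriv l u) s) ∧
    ∀ n : ℤ, n < 0 → meromorphicOrderAt u s = n →
      meromorphicOrderAt (iteratedDeriv l u) s = ((n - l : ℤ) : WithTop ℤ) := by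
  induction l with
  | zero =>
    rw [iteratedDeriv_zero]
    exact ⟨id, fun n _ hn => by simpa using hn⟩
  | succ l ih =>
    rw [iteratedDeriv_succ]
    refine ⟨fun h => iterDeriv_ord_nonneg (iterDeriv_mero hu l) (ih.1 h), fun n hn hn' => ?_⟩
    have h1 := ih.2 n hn hn'
    have h2 : ((n - l : ℤ) : ℂ) ≠ 0 := by
      have : (n - l : ℤ) ≠ 0 := by omega
      exact_mod_cast this
    rw [meromorphicOrderAt_deriv_eq_sub_one h2 h1]
    congr 1
    push_cast
    ring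

private lemma iterDeriv_pole {u : ℂ → ℂ} {s : ℂ} (hu : MeromorphicAt u s)
    (ho : meromorphicOrderAt u s ≠ ⊤) (l : ℕ)
    (hv : meromorphicOrderAt (iteratedDeriv l u) s ≠ ⊤) :
    max (-(ordZ (iteratedDeriv l u) s : ℝ)) 0 ≤ ((l : ℝ) + 1) * max (-(ordZ u s : ℝ)) 0 := by
  have h1 := Pool.Agent.H92.GGL.ordZ_cast ho
  have h2 := Pool.Agent.H92.GGL.ordZ_cast hv
  obtain ⟨h3, h4⟩ := iterDeriv_ord hu l
  rcases le_or_gt 0 (ordZ u s) with h0 | h0
  · have h5 : 0 ≤ meromorphicOrderAt (iteratedDeriv l u) s := by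
      apply h3
      rw [← h1]
      exact_mod_cast h0
    rw [← h2] at h5
    have h6 : 0 ≤ ordZ (iteratedDeriv l u) s := by exact_mod_cast h5
    have h7 : (0 : ℝ) ≤ (ordZ (iteratedDeriv l u) s : ℝ) := by exact_mod_cast h6
    rw [max_eq_right (by linarith)]
    positivity
  · have h5 := h4 _ h0 h1.symm
    rw [← h2] at h5
    have h6 : ordZ (iteratedDeriv l u) s = ordZ u s - l := by exact_mod_cast h5
    have h7 : (ordZ (iteratedDeriv l u) s : ℝ) = (ordZ u s : ℝ) - l := by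
      rw [h6]; push_cast; ring
    have h8 : (ordZ u s : ℝ) ≤ -1 := by
      have : ordZ u s ≤ -1 := by omega
      exact_mod_cast this
    have hl : (0 : ℝ) ≤ l := Nat.cast_nonneg l
    rw [h7, max_eq_left (by linarith), max_eq_left (by linarith)]
    nlinarith

private lemma iterDeriv_locFin {R₀ : ℝ} {u : ℂ → ℂ} (hu : MeroPunct R₀ u) :
    LocFin R₀ fun s => max (-(ordZ u s : ℝ)) 0 := by
  intro r b hr hb
  refine (MeroPunct.locFin hu r b hr hb).subset ?_
  rintro s ⟨h1, h2, h3⟩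
  refine ⟨h1, h2, fun h0 => h3 ?_⟩
  simp only at h0
  simp [h0]

/-! ### The characteristic of a derivative -/

lemma iterDeriv_nevT {R₀ R₁ : ℝ} (h : R₁ < R₀) {u : ℂ → ℂ}
    (hu : MeroPunct R₀ u) (l : ℕ) (hv : MeroPunct R₀ (iteratedDeriv l u)) {x : ℝ}
    (hx : Real.exp (-x) < R₁) :
    nevT (iteratedDeriv l u) R₁ x ≤ ((l : ℝ) + 1) * nevT u R₁ x +
      mean (fun z => Real.posLog ‖iteratedDeriv l u z / u z‖) x := by
  have hx0 : Real.exp (-x) < R₀ := hx.trans h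
  have iv := MeroPunct.circleIntegrable_posLog hv hx0
  have iu := MeroPunct.circleIntegrable_posLog hu hx0
  have ivu : CircleIntegrable (fun z => Real.posLog ‖iteratedDeriv l u z / u z‖) 0
      (Real.exp (-x)) := by
    have := MeroPunct.circleIntegrable_posLog
      (MeroPunct.mul hv (MeroPunct.inv hu)) hx0
    simpa only [div_eq_mul_inv] using this
  have hm : mean (fun z => Real.posLog ‖iteratedDeriv l u z‖) x ≤
      mean (fun z => Real.posLog ‖iteratedDeriv l u z / u z‖) x +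
        mean (fun z => Real.posLog ‖u z‖) x := by
    rw [← iterDeriv_mean_add ivu iu]
    refine iterDeriv_mean_mono iv (CircleIntegrable.fun_add ivu iu) ?_
    refine iterDeriv_cod hx0 (P := fun z => Real.posLog ‖iteratedDeriv l u z‖ ≤
      Real.posLog ‖iteratedDeriv l u z / u z‖ + Real.posLog ‖u z‖) fun z hz1 hz2 => ?_
    filter_upwards [(meromorphicOrderAt_ne_top_iff_eventually_ne_zero (hu.mero z hz1 hz2)).1
      (hu.ord z hz1 hz2)] with ζ hζ
    have := iterDeriv_posLog_le (a := iteratedDeriv l u ζ) (b := u ζ) (c := 1) hζ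
    simpa using this
  have hu0 : 0 ≤ mean (fun z => Real.posLog ‖u z‖) x :=
    Real.circleAverage_nonneg_of_nonneg fun z _ => Real.posLog_nonneg
  have hc : cnt (fun s => max (-(ordZ (iteratedDeriv l u) s : ℝ)) 0) R₁ (Real.exp (-x)) ≤
      ((l : ℝ) + 1) * cnt (fun s => max (-(ordZ u s : ℝ)) 0) R₁ (Real.exp (-x)) := by
    rw [← cnt_mul _ h (iterDeriv_locFin hu) (Real.exp_pos _)]
    refine cnt_mono h (iterDeriv_locFin hv) ?_ (Real.exp_pos _) fun s hs1 hs2 => ?_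
    · intro r b hr hb
      refine (iterDeriv_locFin hu r b hr hb).subset ?_
      rintro s ⟨g1, g2, g3⟩
      refine ⟨g1, g2, fun h0 => g3 ?_⟩
      simp only at h0
      simp only [h0, mul_zero]
    · have hs0 : 0 < ‖s‖ := (Real.exp_pos _).trans hs1
      have hs3 : ‖s‖ < R₀ := hs2.trans h
      exact iterDeriv_pole (hu.mero s hs0 hs3) (hu.ord s hs0 hs3) l (hv.ord s hs0 hs3)
  have hl : (0 : ℝ) ≤ l := Nat.cast_nonneg l
  unfold nevT
  nlinarith [mul_nonneg hl hu0]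

end Pool.Agent.H62.FC

end
end

section

/-!
# SG Neck: the estimate on the neck

`t` is holomorphic in the annulus `ρ < ‖h‖ < δ₁`, `U` is comparable to `‖h‖ ^ e * max 1 (‖h‖ ^ (1 - k) * ‖t' h‖)` (from below only to
`‖h‖ ^ e * (‖h‖ ^ (1 - k) * ‖t' h‖)`) and has the maximum principle up to a constant.  If `e < 1 + k` then `‖h‖ ^ (1 - k) * ‖t' h‖` is bounded.
-/

set_option autoImplicit false

open Topology Filter Metric MeasureTheory

namespace Pool.Agent.SG

/-- the Cauchy formula in an annulus -/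
theorem cauchy_annulus {f : ℂ → ℂ} {r R : ℝ} (hr : 0 < r) (hd : ∀ z : ℂ, r ≤ ‖z‖ → ‖z‖ ≤ R → DifferentiableAt ℂ f z)
    {w : ℂ} (hw : r < ‖w‖) (hw' : ‖w‖ < R) :
    (∮ z in C(0, R), (z - w)⁻¹ • f z) - (∮ z in C(0, r), (z - w)⁻¹ • f z) = (2 * Real.pi * Complex.I : ℂ) * f w := by
  have hrR : r ≤ R := (hw.trans hw').le
  have hR : 0 < R := hr.trans (hw.trans hw')
  set g : ℂ → ℂ := dslope f w with hg
  have hgc : ContinuousOn g (closedBall (0 : ℂ) R \ ball 0 r) := by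
    intro z hz
    have h1 : DifferentiableAt ℂ f z := hd z (by simpa using hz.2) (by simpa using hz.1)
    by_cases hzw : z = w
    · subst hzw
      exact (continuousAt_dslope_same.2 h1).continuousWithinAt
    · exact ((continuousAt_dslope_of_ne hzw).2 h1.continuousAt).continuousWithinAt
  have h1 : (∮ z in C(0, R), g z) = ∮ z in C(0, r), g z := by
    refine Complex.circleIntegral_eq_of_differentiable_on_annulus_off_countable hr hrR (s := {w}) (Set.countable_singleton _) hgc ?_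
    rintro z ⟨⟨hz1, hz2⟩, hz3⟩
    have hz3' : z ≠ w := by simpa using hz3
    have hz1' : ‖z‖ < R := by simpa using hz1
    have hz2' : r < ‖z‖ := by simpa using hz2
    exact (differentiableAt_dslope_of_ne hz3').2 (hd z hz2'.le hz1'.le)
  have key : ∀ ρ : ℝ, 0 < ρ → r ≤ ρ → ρ ≤ R → ρ ≠ ‖w‖ →
      (∮ z in C(0, ρ), g z) = (∮ z in C(0, ρ), (z - w)⁻¹ • f z) - (∮ z in C(0, ρ), (z - w)⁻¹) • f w := by
    intro ρ hρ h2 h3 h4
    have hne : ∀ z ∈ sphere (0 : ℂ) ρ, z ≠ w := by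
      rintro z hz rfl
      exact h4 (by simpa using hz.symm)
    have hc1 : ContinuousOn (fun z : ℂ => (z - w)⁻¹) (sphere (0 : ℂ) ρ) :=
      ContinuousOn.inv₀ (by fun_prop) fun z hz => sub_ne_zero.2 (hne z hz)
    have hcf : ContinuousOn f (sphere (0 : ℂ) ρ) := fun z hz =>
      (hd z (by simpa [mem_sphere_iff_norm.1 hz] using (by simpa using hz : ‖z‖ = ρ) ▸ h2) (by simpa using (by simpa using hz : ‖z‖ = ρ) ▸ h3)).continuousAt.continuousWithinAt
    have h5 : (∮ z in C(0, ρ), g z) = ∮ z in C(0, ρ), ((z - w)⁻¹ • f z - (z - w)⁻¹ • f w) := by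
      refine circleIntegral.integral_congr hρ.le fun z hz => ?_
      simp only [hg]
      rw [dslope_of_ne _ (hne z hz), slope_def_module, smul_sub]
    rw [h5, circleIntegral.integral_sub, circleIntegral.integral_smul_const]
    · exact (hc1.smul hcf).circleIntegrable hρ.le
    · exact (hc1.smul continuousOn_const).circleIntegrable hρ.le
  have h2 := key R hR hrR le_rfl hw'.ne'
  have h3 := key r hr le_rfl hrR hw.ne
  have h4 : (∮ z in C(0, R), (z - w)⁻¹) = 2 * Real.pi * Complex.I :=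
    circleIntegral.integral_sub_inv_of_mem_ball (by simpa using hw')
  have h5 : (∮ z in C(0, r), (z - w)⁻¹) = 0 := by
    refine Complex.circleIntegral_eq_zero_of_differentiable_on_off_countable hr.le Set.countable_empty ?_ ?_
    · refine ContinuousOn.inv₀ (by fun_prop) fun z hz => ?_
      rw [sub_ne_zero]
      rintro rfl
      have : ‖z‖ ≤ r := by simpa using hz
      linarith
    · rintro z ⟨hz, -⟩
      have hz' : ‖z‖ < r := by simpa using hz
      have : z - w ≠ 0 := by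
        rw [sub_ne_zero]
        rintro rfl
        linarith
      exact (differentiableAt_id.sub_const w).inv this
  rw [h2, h3, h4, h5] at h1
  simp only [smul_eq_mul] at h1 ⊢
  linear_combination h1

/-- the derivative on an inner circle, from the bounds on the boundary of the annulus -/
theorem deriv_annulus_le {t : ℂ → ℂ} {r δ K T C₀ : ℝ} (hr : 0 < r) (hK : 1 < K) (hKr : K * r ≤ δ / 2)
    (hd : ∀ z : ℂ, r ≤ ‖z‖ → ‖z‖ ≤ δ → AnalyticAt ℂ t z) (h0 : ∀ z : ℂ, ‖z‖ = δ → ‖deriv t z‖ ≤ C₀)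
    (hT : ∀ z : ℂ, ‖z‖ = r → ‖deriv t z‖ ≤ T) {w : ℂ} (hw : ‖w‖ = K * r) : ‖deriv t w‖ ≤ 2 * C₀ + T / (K * (K - 1)) := by
  have hKr0 : 0 < K * r := by positivity
  have hδ : 0 < δ := by linarith only [hKr, hKr0]
  have hrw : r < ‖w‖ := by rw [hw]; nlinarith only [hr, hK]
  have hwδ : ‖w‖ < δ := by rw [hw]; linarith
  have hrδ : r ≤ δ := (hrw.trans hwδ).le
  have hw0 : w ≠ 0 := by
    rw [← norm_pos_iff]
    exact hr.trans hrw
  have hT0 : 0 ≤ T := (norm_nonneg _).trans (hT (r : ℂ) (by simp [abs_of_pos hr]))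
  have hC0 : 0 ≤ C₀ := (norm_nonneg _).trans (h0 (δ : ℂ) (by simp [abs_of_pos hδ]))
  have hdf : ∀ z : ℂ, r ≤ ‖z‖ → ‖z‖ ≤ δ → DifferentiableAt ℂ (deriv t) z := fun z h1 h2 => (hd z h1 h2).deriv.differentiableAt
  have h1 := cauchy_annulus (f := deriv t) hr hdf hrw hwδ
  have hπ : (0 : ℝ) < Real.pi := Real.pi_pos
  -- the outer circle
  have h2 : ‖∮ z in C(0, δ), (z - w)⁻¹ • deriv t z‖ ≤ 2 * Real.pi * δ * (2 / δ * C₀) := by
    refine circleIntegral.norm_integral_le_of_norm_le_const hδ.le fun z hz => ?_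
    have hz' : ‖z‖ = δ := by simpa using hz
    rw [norm_smul, norm_inv]
    have h3 : δ / 2 ≤ ‖z - w‖ := by
      have := norm_sub_norm_le z w
      rw [hz', hw] at this
      linarith only [hKr, this]
    refine mul_le_mul ?_ (h0 z hz') (norm_nonneg _) (by positivity)
    rw [inv_le_comm₀ (by linarith only [hr, hKr, hw, hrw, h3, half_pos hδ]) (by positivity)]
    rw [inv_div]
    exact h3
  -- the inner circle
  have hint : (∮ z in C(0, r), deriv t z) = 0 := by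
    refine circleIntegral.integral_eq_zero_of_hasDerivWithinAt' (f := t) fun z hz => ?_
    have hz' : ‖z‖ = r := by simpa [abs_of_pos hr] using hz
    exact (hd z hz'.ge (by rw [hz']; exact hrδ)).differentiableAt.hasDerivAt.hasDerivWithinAt
  have hcf : ContinuousOn (deriv t) (sphere (0 : ℂ) r) := fun z hz => by
    have hz' : ‖z‖ = r := by simpa using hz
    exact (hdf z hz'.ge (by rw [hz']; exact hrδ)).continuousAt.continuousWithinAt
  have hne : ∀ z ∈ sphere (0 : ℂ) r, z ≠ w := by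
    rintro z hz rfl
    have hz' : ‖z‖ = r := by simpa using hz
    linarith only [hrw, hz']
  have hc1 : ContinuousOn (fun z : ℂ => (z - w)⁻¹) (sphere (0 : ℂ) r) :=
    ContinuousOn.inv₀ (by fun_prop) fun z hz => sub_ne_zero.2 (hne z hz)
  have h3 : (∮ z in C(0, r), (z - w)⁻¹ • deriv t z) = ∮ z in C(0, r), (w⁻¹ * z * (z - w)⁻¹) • deriv t z := by
    have h4 : (∮ z in C(0, r), (w⁻¹ * z * (z - w)⁻¹) • deriv t z) = ∮ z in C(0, r), ((z - w)⁻¹ • deriv t z + w⁻¹ • deriv t z) := by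
      refine circleIntegral.integral_congr hr.le fun z hz => ?_
      have hzw : z - w ≠ 0 := sub_ne_zero.2 (hne z hz)
      simp only [smul_eq_mul]
      field_simp
      ring
    rw [h4, circleIntegral.integral_add, circleIntegral.integral_smul, hint, smul_zero, add_zero]
    · exact (hc1.smul hcf).circleIntegrable hr.le
    · have h5 : ContinuousOn (fun z => w⁻¹ • deriv t z) (sphere (0 : ℂ) r) := by
        simp only [smul_eq_mul]
        exact continuousOn_const.mul hcf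
      exact h5.circleIntegrable hr.le
  have h4 : ‖∮ z in C(0, r), (z - w)⁻¹ • deriv t z‖ ≤ 2 * Real.pi * r * (1 / (K * ((K - 1) * r)) * T) := by
    rw [h3]
    refine circleIntegral.norm_integral_le_of_norm_le_const hr.le fun z hz => ?_
    have hz' : ‖z‖ = r := by simpa using hz
    rw [norm_smul, norm_mul, norm_mul, norm_inv, norm_inv, hz', hw]
    have h5 : (K - 1) * r ≤ ‖z - w‖ := by
      have := norm_sub_norm_le w z
      rw [hz', hw, norm_sub_rev] at this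
      linarith only [this]
    have h6 : 0 < (K - 1) * r := mul_pos (by linarith only [hK]) hr
    refine mul_le_mul ?_ (hT z hz') (norm_nonneg _) (by positivity)
    calc (K * r)⁻¹ * r * ‖z - w‖⁻¹ ≤ (K * r)⁻¹ * r * ((K - 1) * r)⁻¹ := by
          gcongr
      _ = 1 / (K * ((K - 1) * r)) := by
          have : K - 1 ≠ 0 := by linarith only [hK]
          field_simp
  have h5 : ‖(2 * Real.pi * Complex.I : ℂ) * deriv t w‖ = 2 * Real.pi * ‖deriv t w‖ := by
    rw [norm_mul, norm_mul, norm_mul, Complex.norm_I, mul_one, Complex.norm_real, Real.norm_eq_abs, abs_of_pos hπ]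
    norm_num
  have h6 : 2 * Real.pi * ‖deriv t w‖ ≤ 2 * Real.pi * δ * (2 / δ * C₀) + 2 * Real.pi * r * (1 / (K * ((K - 1) * r)) * T) := by
    rw [← h5, ← h1]
    exact (norm_sub_le _ _).trans (add_le_add h2 h4)
  have h7 : 2 * Real.pi * δ * (2 / δ * C₀) + 2 * Real.pi * r * (1 / (K * ((K - 1) * r)) * T) =
      2 * Real.pi * (2 * C₀ + T / (K * (K - 1))) := by
    have : K - 1 ≠ 0 := by linarith only [hK]
    field_simp
  rw [h7] at h6
  exact le_of_mul_le_mul_left h6 (by positivity)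

/-- **Neck.**  The estimate on the neck, with uniform constants. -/
theorem neck {c C C₀ δ k e : ℝ} (hc : 0 < c) (hC : 0 < C) (hC₀ : 0 ≤ C₀) (hδ : 0 < δ) (hk1 : k ≤ 1) (he : e < 1 + k) :
    ∃ K C₁ : ℝ, 1 < K ∧ 0 < C₁ ∧ ∀ (ρ : ℝ) (t : ℂ → ℂ) (U : ℂ → ℝ), 0 ≤ ρ →
      (∀ h : ℂ, ρ < ‖h‖ → ‖h‖ ≤ δ → AnalyticAt ℂ t h) →
      (∀ h : ℂ, ‖h‖ = δ → ‖deriv t h‖ ≤ C₀) →
      (∀ h : ℂ, ρ < ‖h‖ → ‖h‖ ≤ δ → c * (‖h‖ ^ e * (‖h‖ ^ (1 - k) * ‖deriv t h‖)) ≤ U h) →
      (∀ h : ℂ, ρ < ‖h‖ → ‖h‖ ≤ δ → U h ≤ C * (‖h‖ ^ e * max 1 (‖h‖ ^ (1 - k) * ‖deriv t h‖))) →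
      (∀ (h : ℂ) (r : ℝ), 0 < r → ‖h‖ ≤ r → r ≤ δ → ∃ y : ℂ, ‖y‖ = r ∧ U h ≤ C * U y) →
      ∀ h : ℂ, ρ < ‖h‖ → K * ‖h‖ ≤ δ / 2 → ‖h‖ ^ (1 - k) * ‖deriv t h‖ ≤ C₁ ∧ U h ≤ C₁ * ‖h‖ ^ e := by
  -- the choice of `K`
  obtain ⟨K, hK2, hKe⟩ : ∃ K : ℝ, 2 ≤ K ∧ C ^ 2 * (K ^ e * (K ^ (1 - k) / (K * (K - 1)))) ≤ c / 2 := by
    have h1 : Tendsto (fun K : ℝ => 2 * C ^ 2 * K ^ (-(1 + k - e))) atTop (𝓝 (2 * C ^ 2 * 0)) :=
      (tendsto_rpow_neg_atTop (by linarith)).const_mul _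
    rw [mul_zero] at h1
    obtain ⟨K, hK, hK2⟩ := ((h1.eventually_lt_const (show 0 < c / 2 by positivity)).and (eventually_ge_atTop 2)).exists
    refine ⟨K, hK2, le_trans ?_ hK.le⟩
    have hK0 : 0 < K := by linarith only [hK2]
    have h2 : K ^ e * (K ^ (1 - k) / (K * (K - 1))) ≤ 2 * K ^ (-(1 + k - e)) := by
      have h3 : 1 / (K * (K - 1)) ≤ 2 * K ^ (-2 : ℝ) := by
        rw [Real.rpow_neg hK0.le, Real.rpow_two, div_le_iff₀ (by nlinarith only [hK2])]
        have : (2 : ℝ) * (K ^ 2)⁻¹ * (K * (K - 1)) = 2 * (K - 1) / K := by field_simp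
        rw [this, le_div_iff₀ hK0]
        linarith only [hK2]
      calc K ^ e * (K ^ (1 - k) / (K * (K - 1))) = K ^ e * K ^ (1 - k) * (1 / (K * (K - 1))) := by ring
        _ ≤ K ^ e * K ^ (1 - k) * (2 * K ^ (-2 : ℝ)) := by gcongr
        _ = 2 * (K ^ e * K ^ (1 - k) * K ^ (-2 : ℝ)) := by ring
        _ = 2 * K ^ (-(1 + k - e)) := by
          rw [← Real.rpow_add hK0, ← Real.rpow_add hK0]
          congr 2
          ring
    nlinarith only [h2, sq_nonneg C, mul_le_mul_of_nonneg_left h2 (sq_nonneg C)]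
  have hK0 : 0 < K := by linarith
  set D : ℝ := C ^ 2 * (K ^ e * (1 + δ ^ (1 - k) * (2 * C₀))) with hD
  have hD0 : 0 < D := by positivity
  refine ⟨K, 2 * D / c + C * (1 + 2 * D / c), by linarith only [hK2], by positivity, ?_⟩
  intro ρ t U hρ hta hδb hlow hup hmax
  -- the bound on a circle
  have main : ∀ h : ℂ, ρ < ‖h‖ → K * ‖h‖ ≤ δ / 2 → ‖h‖ ^ (1 - k) * ‖deriv t h‖ ≤ 2 * D / c := by
    intro h hh hKh
    set r : ℝ := ‖h‖ with hr
    have hr0 : 0 < r := lt_of_le_of_lt hρ hh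
    have hrδ : r ≤ δ := by nlinarith only [hδ, hKh, hK2, hρ, hh]
    have hcont : ContinuousOn (fun z => ‖deriv t z‖) (sphere (0 : ℂ) r) := by
      intro z hz
      have hz' : ‖z‖ = r := by simpa using hz
      exact ((hta z (by rw [hz']; exact hh) (by rw [hz']; exact hrδ)).deriv.continuousAt.norm).continuousWithinAt
    obtain ⟨z₀, hz₀, hzmax⟩ := (isCompact_sphere (0 : ℂ) r).exists_isMaxOn (NormedSpace.sphere_nonempty.2 hr0.le) hcont
    have hz₀' : ‖z₀‖ = r := by simpa using hz₀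
    set T : ℝ := ‖deriv t z₀‖ with hTdef
    have hT0 : 0 ≤ T := norm_nonneg _
    have hT : ∀ z : ℂ, ‖z‖ = r → ‖deriv t z‖ ≤ T := fun z hz => hzmax (by simpa using hz)
    have h1 : c * (r ^ e * (r ^ (1 - k) * T)) ≤ U z₀ := by
      have := hlow z₀ (by rw [hz₀']; exact hh) (by rw [hz₀']; exact hrδ)
      rwa [hz₀'] at this
    have hKr0 : 0 < K * r := by positivity
    obtain ⟨y, hy, hUy⟩ := hmax z₀ (K * r) hKr0 (by rw [hz₀']; nlinarith only [hKr0, hK2, hρ, hh]) (by linarith only [hKh, hKr0])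
    have hρy : ρ < ‖y‖ := by rw [hy]; nlinarith only [hh, hKr0, hK2, hρ]
    have h2 := hup y hρy (by rw [hy]; linarith only [hKh, hKr0])
    have h3 : ‖deriv t y‖ ≤ 2 * C₀ + T / (K * (K - 1)) :=
      deriv_annulus_le hr0 (by linarith) hKh (fun z h4 h5 => hta z (by linarith only [hh, h4]) h5) hδb hT hy
    rw [hy] at h2
    have h4 : (K * r) ^ (1 - k) * ‖deriv t y‖ ≤ δ ^ (1 - k) * (2 * C₀) + K ^ (1 - k) / (K * (K - 1)) * (r ^ (1 - k) * T) := by
      have h5 : (K * r) ^ (1 - k) ≤ δ ^ (1 - k) := Real.rpow_le_rpow hKr0.le (by linarith only [hKh, hKr0]) (by linarith only [hk1])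
      calc (K * r) ^ (1 - k) * ‖deriv t y‖ ≤ (K * r) ^ (1 - k) * (2 * C₀ + T / (K * (K - 1))) := by gcongr
        _ = (K * r) ^ (1 - k) * (2 * C₀) + (K * r) ^ (1 - k) * (T / (K * (K - 1))) := by ring
        _ ≤ δ ^ (1 - k) * (2 * C₀) + (K * r) ^ (1 - k) * (T / (K * (K - 1))) := by gcongr
        _ = δ ^ (1 - k) * (2 * C₀) + K ^ (1 - k) / (K * (K - 1)) * (r ^ (1 - k) * T) := by
          rw [Real.mul_rpow hK0.le hr0.le]
          ring
    have hx0 : 0 ≤ r ^ (1 - k) * T := by positivity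
    have hq0 : 0 ≤ K ^ (1 - k) / (K * (K - 1)) := div_nonneg (by positivity) (mul_nonneg hK0.le (by linarith only [hK2]))
    have h5 : max 1 ((K * r) ^ (1 - k) * ‖deriv t y‖) ≤
        1 + δ ^ (1 - k) * (2 * C₀) + K ^ (1 - k) / (K * (K - 1)) * (r ^ (1 - k) * T) := by
      refine max_le ?_ ?_
      · have : 0 ≤ δ ^ (1 - k) * (2 * C₀) := by positivity
        nlinarith only [this, hq0, hx0, mul_nonneg hq0 hx0]
      · linarith only [h4]
    have h6 : c * (r ^ e * (r ^ (1 - k) * T)) ≤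
        r ^ e * (D + C ^ 2 * (K ^ e * (K ^ (1 - k) / (K * (K - 1)))) * (r ^ (1 - k) * T)) := by
      calc c * (r ^ e * (r ^ (1 - k) * T)) ≤ C * U y := h1.trans hUy
        _ ≤ C * (C * ((K * r) ^ e * max 1 ((K * r) ^ (1 - k) * ‖deriv t y‖))) := by gcongr
        _ ≤ C * (C * ((K * r) ^ e * (1 + δ ^ (1 - k) * (2 * C₀) + K ^ (1 - k) / (K * (K - 1)) * (r ^ (1 - k) * T)))) := by gcongr
        _ = r ^ e * (D + C ^ 2 * (K ^ e * (K ^ (1 - k) / (K * (K - 1)))) * (r ^ (1 - k) * T)) := by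
          rw [Real.mul_rpow hK0.le hr0.le, hD]
          ring
    have hre : 0 < r ^ e := Real.rpow_pos_of_pos hr0 _
    have h7 : c * (r ^ (1 - k) * T) ≤ D + C ^ 2 * (K ^ e * (K ^ (1 - k) / (K * (K - 1)))) * (r ^ (1 - k) * T) := by
      refine le_of_mul_le_mul_left ?_ hre
      calc r ^ e * (c * (r ^ (1 - k) * T)) = c * (r ^ e * (r ^ (1 - k) * T)) := by ring
        _ ≤ _ := h6
    have h8 : c * (r ^ (1 - k) * T) ≤ D + c / 2 * (r ^ (1 - k) * T) := by
      refine h7.trans ?_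
      gcongr
    have h9 : r ^ (1 - k) * T ≤ 2 * D / c := by
      rw [le_div_iff₀ hc]
      linarith only [h8]
    refine le_trans ?_ h9
    have := hT h rfl
    gcongr
  intro h hh hKh
  have h1 := main h hh hKh
  have h0 : 0 < ‖h‖ := lt_of_le_of_lt hρ hh
  have h2 : 0 ≤ C * (1 + 2 * D / c) := by positivity
  refine ⟨by linarith only [h1, h2], ?_⟩
  have h3 : ‖h‖ ≤ δ := by nlinarith only [hδ, hKh, hK2, hρ, hh]
  have h4 : max 1 (‖h‖ ^ (1 - k) * ‖deriv t h‖) ≤ 1 + 2 * D / c := by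
    refine max_le ?_ (by linarith only [h1])
    have : 0 ≤ 2 * D / c := by positivity
    linarith only [this]
  calc U h ≤ C * (‖h‖ ^ e * max 1 (‖h‖ ^ (1 - k) * ‖deriv t h‖)) := hup h hh h3
    _ ≤ C * (‖h‖ ^ e * (1 + 2 * D / c)) := by gcongr
    _ = C * (1 + 2 * D / c) * ‖h‖ ^ e := by ring
    _ ≤ (2 * D / c + C * (1 + 2 * D / c)) * ‖h‖ ^ e := by
      have : 0 ≤ 2 * D / c := by positivity
      gcongr
      linarith only [this]

end Pool.Agent.SG

end

section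

/-!
# SG51 GA: the polynomial algebra of the root (nodal case)

`x = A / P`, `y = B / P`, `P` monic of degree `M`, `P 0 = 0`, `A`, `B` of degree `M + 1`.  The numerator of the
derivative of `A / P` is `wr A P`.
-/

set_option autoImplicit false

open Polynomial Filter Topology

noncomputable section

namespace Pool.Agent.SG51

/-- a power of the distance times a nonvanishing factor tends to `0` only if the exponent is positive -/
theorem exponent_pos {r : ℂ} {e : ℝ} {h : ℂ → ℝ} {h₀ : ℝ} (hh : Tendsto h (𝓝[≠] r) (𝓝 h₀)) (h0 : 0 < h₀)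
    (ht : Tendsto (fun u => ‖u - r‖ ^ e * h u) (𝓝[≠] r) (𝓝 0)) : 0 < e := by
  by_contra hcon
  push Not at hcon
  have h1 : ∀ᶠ u in 𝓝[≠] r, h₀ / 2 < h u := hh.eventually (lt_mem_nhds (by linarith))
  have h2 : ∀ᶠ u in 𝓝[≠] r, ‖u - r‖ ^ e * h u < h₀ / 2 := ht.eventually (gt_mem_nhds (by linarith))
  have h3 : ∀ᶠ u in 𝓝[≠] r, ‖u - r‖ < 1 := by
    have : ∀ᶠ u in 𝓝 r, ‖u - r‖ < 1 := by
      have h5 : Tendsto (fun u : ℂ => ‖u - r‖) (𝓝 r) (𝓝 0) := by
        have : Continuous (fun u : ℂ => ‖u - r‖) := by fun_prop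
        have h6 := this.tendsto r
        simpa using h6
      exact h5.eventually (gt_mem_nhds one_pos)
    exact this.filter_mono nhdsWithin_le_nhds
  have h4 : ∀ᶠ u in 𝓝[≠] r, u ≠ r := self_mem_nhdsWithin
  obtain ⟨u, hu1, hu2, hu3, hu4⟩ := (h1.and (h2.and (h3.and h4))).exists
  have hpos : 0 < ‖u - r‖ := norm_pos_iff.2 (sub_ne_zero.2 hu4)
  have h7 : 1 ≤ ‖u - r‖ ^ e := Real.one_le_rpow_of_pos_of_le_one_of_nonpos hpos hu3.le hcon
  nlinarith

/-- factorisation at a point -/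
theorem exists_factor {A : ℂ[X]} (hA : A ≠ 0) (r : ℂ) :
    ∃ A₁ : ℂ[X], A = (X - C r) ^ rootMultiplicity r A * A₁ ∧ A₁.eval r ≠ 0 := by
  obtain ⟨q, hq, hq2⟩ := exists_eq_pow_rootMultiplicity_mul_and_not_dvd A hA r
  exact ⟨q, hq, fun h => hq2 (dvd_iff_isRoot.2 h)⟩

theorem tendsto_norm_eval (A : ℂ[X]) (r : ℂ) : Tendsto (fun u => ‖A.eval u‖) (𝓝[≠] r) (𝓝 ‖A.eval r‖) := by
  have : Continuous (fun u => ‖A.eval u‖) := by fun_prop
  exact (this.tendsto r).mono_left nhdsWithin_le_nhds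

section final

variable {A B P : ℂ[X]} {M : ℕ}

end final

end Pool.Agent.SG51

end
end

section

/-!
# SG Alg: step 4 of the plan of line G

`y = Y / P ^ d`, `P` monic of degree `M`, `P 0 = 0`, `Y` monic of degree `d * M + 1`.  If `‖y‖ ^ a * ‖y'‖ ≤ C * ‖P‖ ^ b` near the roots
of `P`, `a ≥ 0`, `b > 0`, then `P = X ^ M` and `Y = X ^ (d * M + 1)`.
-/

set_option autoImplicit false

open Polynomial Filter Topology

noncomputable section

namespace Pool.Agent.SG51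

/-- the numerator of the derivative of `Y / P ^ d` -/
def wd (d : ℕ) (Y P : ℂ[X]) : ℂ[X] := derivative Y * P - C (d : ℂ) * (Y * derivative P)

theorem deriv_div_pow {Y P : ℂ[X]} {d : ℕ} {u : ℂ} (hu : P.eval u ≠ 0) :
    deriv (fun u => Y.eval u / P.eval u ^ d) u = (wd d Y P).eval u / P.eval u ^ (d + 1) := by
  have h1 : HasDerivAt (fun u => Y.eval u) ((derivative Y).eval u) u := Y.hasDerivAt u
  have h2 : HasDerivAt (fun u => P.eval u ^ d) ((d : ℂ) * P.eval u ^ (d - 1) * (derivative P).eval u) u := (P.hasDerivAt u).pow d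
  have h3 : HasDerivAt (fun u => Y.eval u / P.eval u ^ d) _ u := h1.div h2 (pow_ne_zero _ hu)
  rw [h3.deriv]
  simp only [wd, eval_sub, eval_mul, eval_C]
  rcases Nat.eq_zero_or_pos d with h0 | h0
  · rw [h0]
    simp
    field_simp
  · obtain ⟨d', rfl⟩ : ∃ d', d = d' + 1 := ⟨d - 1, by omega⟩
    rw [Nat.add_sub_cancel]
    field_simp
    ring

theorem wd_factor {Y P : ℂ[X]} (hY : Y ≠ 0) (hP : P ≠ 0) {d : ℕ} {r : ℂ}
    (hlt : rootMultiplicity r Y < d * rootMultiplicity r P) (hm : 1 ≤ rootMultiplicity r P) :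
    ∃ W₁ : ℂ[X], wd d Y P = (X - C r) ^ (rootMultiplicity r Y + rootMultiplicity r P - 1) * W₁ ∧ W₁.eval r ≠ 0 := by
  obtain ⟨A₁, hA1, hA2⟩ := exists_factor hY r
  obtain ⟨P₁, hP1, hP2⟩ := exists_factor hP r
  set a := rootMultiplicity r Y with ha
  set m := rootMultiplicity r P with hmd
  obtain ⟨m', hm'⟩ : ∃ m', m = m' + 1 := ⟨m - 1, by omega⟩
  refine ⟨C ((a : ℂ) - d * m) * A₁ * P₁ + (X - C r) * (derivative A₁ * P₁ - C (d : ℂ) * (A₁ * derivative P₁)), ?_, ?_⟩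
  · rw [wd, hA1, hP1, hm']
    rcases Nat.eq_zero_or_pos a with h0 | h0
    · rw [h0]
      simp only [pow_zero, one_mul, Nat.cast_zero, zero_add, Nat.add_sub_cancel]
      rw [derivative_mul, derivative_pow, derivative_sub, derivative_X, derivative_C]
      simp only [Nat.add_sub_cancel, map_natCast, Nat.cast_add, Nat.cast_one, map_sub, map_add, map_one, map_zero, map_mul]
      ring
    · obtain ⟨a', ha'⟩ : ∃ a', a = a' + 1 := ⟨a - 1, by omega⟩
      rw [ha']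
      rw [derivative_mul, derivative_mul, derivative_pow, derivative_pow, derivative_sub, derivative_X, derivative_C]
      have e : a' + 1 + (m' + 1) - 1 = a' + m' + 1 := by omega
      rw [e]
      simp only [Nat.add_sub_cancel, map_natCast, Nat.cast_add, Nat.cast_one, map_sub, map_add, map_one, map_mul]
      ring
  · simp only [eval_add, eval_mul, eval_C, eval_sub, eval_X, sub_self, zero_mul, add_zero]
    have : ((a : ℂ) - d * m) ≠ 0 := by
      rw [sub_ne_zero]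
      exact_mod_cast hlt.ne
    exact mul_ne_zero (mul_ne_zero this hA2) hP2

/-- `y = Y / P ^ d` has no pole at the root `r` of `P` -/
theorem le_mult {Y P : ℂ[X]} (hY : Y ≠ 0) (hP : P ≠ 0) {d : ℕ} {a b K : ℝ} {r : ℂ} (hr : P.eval r = 0) (ha : 0 ≤ a) (hb : 0 < b)
    (h : ∀ᶠ u in 𝓝[≠] r, ‖Y.eval u / P.eval u ^ d‖ ^ a * ‖deriv (fun u => Y.eval u / P.eval u ^ d) u‖ ≤ K * ‖P.eval u‖ ^ b) :
    d * rootMultiplicity r P ≤ rootMultiplicity r Y := by
  by_contra hcon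
  push Not at hcon
  have hm : 1 ≤ rootMultiplicity r P := (rootMultiplicity_pos hP).2 hr
  obtain ⟨Y₁, hY1, hY2⟩ := exists_factor hY r
  obtain ⟨P₁, hP1, hP2⟩ := exists_factor hP r
  obtain ⟨W₁, hW1, hW2⟩ := wd_factor hY hP hcon hm
  set q := rootMultiplicity r Y with hq
  set p := rootMultiplicity r P with hp
  have key : 0 < a * ((q : ℝ) - d * p) + ((q : ℝ) - d * p - 1) := by
    have hh : Tendsto (fun u => (‖Y₁.eval u‖ / ‖P₁.eval u‖ ^ d) ^ a * (‖W₁.eval u‖ / ‖P₁.eval u‖ ^ (d + 1))) (𝓝[≠] r)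
        (𝓝 ((‖Y₁.eval r‖ / ‖P₁.eval r‖ ^ d) ^ a * (‖W₁.eval r‖ / ‖P₁.eval r‖ ^ (d + 1)))) := by
      refine Tendsto.mul ?_ ((tendsto_norm_eval W₁ r).div ((tendsto_norm_eval P₁ r).pow (d + 1)) (by positivity))
      exact ((tendsto_norm_eval Y₁ r).div ((tendsto_norm_eval P₁ r).pow d) (by positivity)).rpow_const (Or.inl (by positivity))
    refine exponent_pos hh (by positivity) ?_
    have hlim : Tendsto (fun u => K * ‖P.eval u‖ ^ b) (𝓝[≠] r) (𝓝 0) := by
      have h1 := ((tendsto_norm_eval P r).rpow_const (p := b) (Or.inr hb.le)).const_mul K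
      rwa [hr, norm_zero, Real.zero_rpow hb.ne', mul_zero] at h1
    refine tendsto_of_tendsto_of_tendsto_of_le_of_le' tendsto_const_nhds hlim (Eventually.of_forall fun u => by positivity) ?_
    have h4 : ∀ᶠ u in 𝓝[≠] r, u ≠ r := self_mem_nhdsWithin
    have h5 : ∀ᶠ u in 𝓝[≠] r, P₁.eval u ≠ 0 := by
      have : Continuous (fun u => P₁.eval u) := by fun_prop
      exact (this.continuousAt.eventually_ne hP2).filter_mono nhdsWithin_le_nhds
    filter_upwards [h4, h5, h] with u hu hu5 hu6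
    have hpos : 0 < ‖u - r‖ := norm_pos_iff.2 (sub_ne_zero.2 hu)
    have hPu : P.eval u ≠ 0 := by
      rw [hP1, eval_mul, eval_pow, eval_sub, eval_X, eval_C]
      exact mul_ne_zero (pow_ne_zero _ (sub_ne_zero.2 hu)) hu5
    refine le_of_eq_of_le ?_ hu6
    rw [deriv_div_pow hPu]
    have e1 : ‖Y.eval u‖ = ‖u - r‖ ^ (q : ℝ) * ‖Y₁.eval u‖ := by
      conv_lhs => rw [hY1]
      simp
    have e2 : ‖P.eval u‖ = ‖u - r‖ ^ (p : ℝ) * ‖P₁.eval u‖ := by
      conv_lhs => rw [hP1]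
      simp
    have e3 : ‖(wd d Y P).eval u‖ = ‖u - r‖ ^ ((q : ℝ) + p - 1) * ‖W₁.eval u‖ := by
      rw [hW1]
      simp only [eval_mul, eval_pow, eval_sub, eval_X, eval_C, norm_mul, norm_pow]
      congr 1
      rw [← Real.rpow_natCast]
      congr 1
      have : 1 ≤ q + p := by omega
      push_cast [Nat.cast_sub this]
      ring
    have e4 : ∀ k : ℕ, (‖u - r‖ ^ (p : ℝ) * ‖P₁.eval u‖) ^ k = ‖u - r‖ ^ ((k : ℝ) * p) * ‖P₁.eval u‖ ^ k := by
      intro k
      rw [mul_pow, mul_comm (k : ℝ) (p : ℝ), Real.rpow_mul hpos.le, Real.rpow_natCast, Real.rpow_natCast]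
    rw [norm_div, norm_div, norm_pow, norm_pow, e1, e2, e3, e4, e4]
    have f1 : (‖u - r‖ ^ (q : ℝ) * ‖Y₁.eval u‖ / (‖u - r‖ ^ ((d : ℝ) * p) * ‖P₁.eval u‖ ^ d)) ^ a =
        ‖u - r‖ ^ (a * ((q : ℝ) - d * p)) * (‖Y₁.eval u‖ / ‖P₁.eval u‖ ^ d) ^ a := by
      rw [mul_div_mul_comm, ← Real.rpow_sub hpos, Real.mul_rpow (by positivity) (by positivity), ← Real.rpow_mul hpos.le]
      ring_nf
    have f2 : ‖u - r‖ ^ ((q : ℝ) + p - 1) * ‖W₁.eval u‖ / (‖u - r‖ ^ (((d + 1 : ℕ) : ℝ) * p) * ‖P₁.eval u‖ ^ (d + 1)) =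
        ‖u - r‖ ^ ((q : ℝ) - d * p - 1) * (‖W₁.eval u‖ / ‖P₁.eval u‖ ^ (d + 1)) := by
      rw [mul_div_mul_comm, ← Real.rpow_sub hpos]
      push_cast
      ring_nf
    rw [f1, f2, Real.rpow_add hpos]
    ring
  have h1 : (q : ℝ) < d * p := by exact_mod_cast hcon
  nlinarith

/-- **Step 4.** -/
theorem alg {P Y : ℂ[X]} {M d : ℕ} (hP : P.Monic) (hPd : P.natDegree = M) (h0 : P.eval 0 = 0) (hY : Y.Monic) (hYd : Y.natDegree = d * M + 1)
    {a b : ℝ} (ha : 0 ≤ a) (hb : 0 < b)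
    (h : ∀ r, P.eval r = 0 → ∃ K : ℝ, ∀ᶠ u in 𝓝[≠] r,
      ‖Y.eval u / P.eval u ^ d‖ ^ a * ‖deriv (fun u => Y.eval u / P.eval u ^ d) u‖ ≤ K * ‖P.eval u‖ ^ b) :
    P = X ^ M ∧ Y = X ^ (d * M + 1) := by
  classical
  have hP0 := hP.ne_zero
  have hY0 := hY.ne_zero
  have hdvd : P ^ d ∣ Y := by
    rw [(IsAlgClosed.splits (P ^ d)).dvd_iff_roots_le_roots (pow_ne_zero _ hP0) hY0, Multiset.le_iff_count]
    intro r
    rw [roots_pow, Multiset.count_nsmul, count_roots, count_roots]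
    by_cases hr : P.eval r = 0
    · obtain ⟨K, hK⟩ := h r hr
      exact le_mult (K := K) hY0 hP0 hr ha hb hK
    · rw [rootMultiplicity_eq_zero hr, mul_zero]
      exact Nat.zero_le _
  obtain ⟨L, hL⟩ := hdvd
  have hPdm : (P ^ d).Monic := hP.pow d
  have hLm : L.Monic := hPdm.of_mul_monic_left (by rw [← hL]; exact hY)
  have hLd : L.natDegree = 1 := by
    have h1 : Y.natDegree = (P ^ d).natDegree + L.natDegree := by rw [hL, hPdm.natDegree_mul hLm]
    rw [hP.natDegree_pow, hPd, hYd] at h1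
    omega
  have hLX : L = X + C (L.coeff 0) := by
    have h1 := eq_X_add_C_of_natDegree_le_one hLd.le
    have h2 : L.coeff 1 = 1 := by rw [← hLd]; exact hLm.coeff_natDegree
    rw [h2, C_1, one_mul] at h1
    exact h1
  have hroot : ∀ r, P.eval r = 0 → r + L.coeff 0 = 0 := by
    intro r hr
    obtain ⟨K, hK⟩ := h r hr
    have hne : ∀ᶠ u in 𝓝[≠] r, P.eval u ≠ 0 := by
      obtain ⟨P₁, hP1, hP2⟩ := exists_factor hP0 r
      have h5 : ∀ᶠ u in 𝓝[≠] r, P₁.eval u ≠ 0 := by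
        have : Continuous (fun u => P₁.eval u) := by fun_prop
        exact (this.continuousAt.eventually_ne hP2).filter_mono nhdsWithin_le_nhds
      have h6 : ∀ᶠ u in 𝓝[≠] r, u ≠ r := self_mem_nhdsWithin
      filter_upwards [h5, h6] with u hu5 hu6
      rw [hP1, eval_mul, eval_pow, eval_sub, eval_X, eval_C]
      exact mul_ne_zero (pow_ne_zero _ (sub_ne_zero.2 hu6)) hu5
    have hev : ∀ u, P.eval u ≠ 0 → Y.eval u / P.eval u ^ d = u + L.coeff 0 := by
      intro u hu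
      rw [hL, eval_mul, eval_pow, hLX]
      simp only [eval_add, eval_X, eval_C, coeff_add, coeff_X_zero, coeff_C_zero, zero_add]
      field_simp
    have hbd : ∀ᶠ u in 𝓝[≠] r, ‖u + L.coeff 0‖ ^ a ≤ K * ‖P.eval u‖ ^ b := by
      have hne' : ∀ᶠ u in 𝓝[≠] r, ∀ᶠ v in 𝓝 u, P.eval v ≠ 0 := by
        filter_upwards [hne] with u hu
        have : Continuous (fun u => P.eval u) := by fun_prop
        exact this.continuousAt.eventually_ne hu
      filter_upwards [hK, hne, hne'] with u h1 h2 h3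
      rw [hev u h2] at h1
      have h4 : deriv (fun u => Y.eval u / P.eval u ^ d) u = 1 := by
        have h5 : (fun u => Y.eval u / P.eval u ^ d) =ᶠ[𝓝 u] fun v => v + L.coeff 0 := by
          filter_upwards [h3] with v hv
          exact hev v hv
        rw [h5.deriv_eq]
        simp
      rwa [h4, norm_one, mul_one] at h1
    have hlim : Tendsto (fun u => K * ‖P.eval u‖ ^ b) (𝓝[≠] r) (𝓝 0) := by
      have h1 := ((tendsto_norm_eval P r).rpow_const (p := b) (Or.inr hb.le)).const_mul K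
      rwa [hr, norm_zero, Real.zero_rpow hb.ne', mul_zero] at h1
    have hz : Tendsto (fun u : ℂ => ‖u + L.coeff 0‖ ^ a) (𝓝[≠] r) (𝓝 0) :=
      tendsto_of_tendsto_of_tendsto_of_le_of_le' tendsto_const_nhds hlim (Eventually.of_forall fun u => by positivity) hbd
    have hc : Tendsto (fun u : ℂ => ‖u + L.coeff 0‖ ^ a) (𝓝[≠] r) (𝓝 (‖r + L.coeff 0‖ ^ a)) := by
      have h1 : Continuous (fun u : ℂ => ‖u + L.coeff 0‖) := by fun_prop
      exact ((h1.tendsto r).mono_left nhdsWithin_le_nhds).rpow_const (Or.inr ha)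
    have h1 := tendsto_nhds_unique hc hz
    rcases ha.eq_or_lt with h2 | h2
    · rw [← h2, Real.rpow_zero] at h1
      exact absurd h1 one_ne_zero
    · exact norm_eq_zero.1 ((Real.rpow_eq_zero (norm_nonneg _) h2.ne').1 h1)
  have hc0 : L.coeff 0 = 0 := by
    have := hroot 0 h0
    rwa [zero_add] at this
  have hLX' : L = X := by rw [hLX, hc0, C_0, add_zero]
  have hPX : P = X ^ M := by
    have hr0 : ∀ r ∈ P.roots, r = 0 := by
      intro r hr
      have h5 := hroot r ((mem_roots hP0).1 hr)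
      rwa [hc0, add_zero] at h5
    have hcard : Multiset.card P.roots = M := by
      rw [← hPd]
      exact (IsAlgClosed.splits P).natDegree_eq_card_roots.symm
    have h6 : P.roots = Multiset.replicate M 0 := Multiset.eq_replicate.2 ⟨hcard, hr0⟩
    have h7 := (IsAlgClosed.splits P).eq_prod_roots_of_monic hP
    rw [h7, h6]
    simp
  refine ⟨hPX, ?_⟩
  rw [hL, hLX', hPX, ← pow_mul, ← pow_succ, mul_comm M d]

end Pool.Agent.SG51

end
end
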