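import Pool.Agent.H94.G6.M14
import Pool.Agent.H94.G6.M31
import Pool.Agent.H94.G6.M36
import Pool.Agent.H94.G6.M38
import Pool.Agent.H94.G6.M40

/-! The parts of this file: H17BP.MapIdeal, H62.FC.Extend, H62.FC.PunctMero, MW.Ord2, H36.TB.Defs_1, SY.BdZ, SY.EiN. -/

section

/-!
# The ideal of a holomorphic map

`mapIdeal f U`: the polynomials which vanish on the cone over `f U`.

* `mem_mapIdeal_form`: `eval_smul_form`; `VanishesAt Q x` is `eval x.rep Q = 0`; take `c = 1` for one direction.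
* `mapIdeal_homog`: for fixed `z ∈ U`: `eval (c • x) Q = ∑ k, c ^ k * eval x (homogeneousComponent k Q)` is a polynomial in `c`
  which vanishes for all `c`, so all coefficients vanish (e.g. `Polynomial.funext`, or the lemma
  `Pool.Agent.H62.FC.eval_homogeneousComponent_eq_zero` in `Pool/Agent/H62/FC/CurveIdeal.lean`).
* `mapIdeal_isPrime`: `1` is not in it (`U ≠ ∅`).  Let `A * B ∈ I`, `A ∉ I`, `B ∉ I`.  There are homogeneous components `A_k`,
  `B_l` not in `I` (`sum_homogeneousComponent`, ideal), i.e. `VanishesAt A_k (f z)` fails for some `z ∈ U`.  For a form `R` the set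
  of the `z₀ ∈ U` with `VanishesAt R (f z)` for all `z` near `z₀` is open, and so is the set of the `z₀ ∈ U` with
  `¬ VanishesAt R (f z)` for all `z ≠ z₀` near `z₀`; they cover `U` (local lift `φ` of `f`, `z ↦ eval (φ z) R` is analytic at
  `z₀`, `AnalyticAt.eventually_eq_zero_or_eventually_ne_zero`, `vanishesAt_mk`); `U` is preconnected, so one of them is `U`;
  if `R ∉ I` it is the second one.  So near a point `z₀ ∈ U`, for `z ≠ z₀`, both `A_k` and `B_l` do not vanish at `f z`.  For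
  such a `z ∈ U` the polynomials `c ↦ eval (c • x) A`, `c ↦ eval (c • x) B` (`x = (f z).rep`) are not zero (their coefficients at
  `c ^ k`, `c ^ l` are `eval x A_k ≠ 0`, `eval x B_l ≠ 0`), their product is zero for all `c`: contradiction.
-/

open Topology Filter MvPolynomial

noncomputable section

namespace Pool.Agent.H17BP

open Pool.Agent.H17 (PN VanishesAt ZariskiClosedIn HolomorphicInto puncturedDisc)
open Pool.Agent.H62.FC (Homog)

variable {N : ℕ} {f : ℂ → PN N} {U : Set ℂ}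

/-- The ideal of the polynomials which vanish on the cone over `f U`. -/
def mapIdeal (f : ℂ → PN N) (U : Set ℂ) : Ideal (MvPolynomial (Fin (N + 1)) ℂ) where
  carrier := {Q | ∀ z ∈ U, ∀ c : ℂ, eval (c • (f z).rep) Q = 0}
  add_mem' := by
    intro A B hA hB z hz c
    rw [map_add, hA z hz c, hB z hz c, add_zero]
  zero_mem' := by
    intro z _ c
    rw [map_zero]
  smul_mem' := by
    intro A B hB z hz c
    rw [smul_eq_mul, map_mul, hB z hz c, mul_zero]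

/-- The polynomial `c ↦ Q (c x)`. -/
private def MapIdeal_poly (x : Fin (N + 1) → ℂ) (Q : MvPolynomial (Fin (N + 1)) ℂ) : Polynomial ℂ :=
  ∑ k ∈ Finset.range (Q.totalDegree + 1), Polynomial.C (eval x (homogeneousComponent k Q)) * Polynomial.X ^ k

private lemma MapIdeal_poly_eval (x : Fin (N + 1) → ℂ) (Q : MvPolynomial (Fin (N + 1)) ℂ) (c : ℂ) :
    (MapIdeal_poly x Q).eval c = eval (c • x) Q := by
  conv_rhs => rw [← MvPolynomial.sum_homogeneousComponent Q]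
  rw [MapIdeal_poly, Polynomial.eval_finsetSum, map_sum]
  refine Finset.sum_congr rfl fun k _ => ?_
  rw [eval_smul_form (homogeneousComponent_isHomogeneous k Q)]
  rw [Polynomial.eval_mul, Polynomial.eval_C, Polynomial.eval_pow, Polynomial.eval_X, mul_comm]

private lemma MapIdeal_poly_coeff (x : Fin (N + 1) → ℂ) (Q : MvPolynomial (Fin (N + 1)) ℂ) (n : ℕ) :
    (MapIdeal_poly x Q).coeff n = eval x (homogeneousComponent n Q) := by
  rw [MapIdeal_poly, Polynomial.finsetSum_coeff]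
  simp only [Polynomial.coeff_C_mul, Polynomial.coeff_X_pow]
  by_cases hn : n ∈ Finset.range (Q.totalDegree + 1)
  · rw [Finset.sum_eq_single n]
    · simp
    · intro b _ hb
      rw [if_neg hb.symm, mul_zero]
    · intro h
      exact absurd hn h
  · rw [Finset.sum_eq_zero, homogeneousComponent_eq_zero, map_zero]
    · rw [Finset.mem_range] at hn
      omega
    · intro k hk
      rw [if_neg, mul_zero]
      rintro rfl
      exact hn hk

private lemma MapIdeal_comp {x : Fin (N + 1) → ℂ} {Q : MvPolynomial (Fin (N + 1)) ℂ}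
    (h : ∀ c : ℂ, eval (c • x) Q = 0) (n : ℕ) : eval x (homogeneousComponent n Q) = 0 := by
  have h1 : MapIdeal_poly x Q = 0 := by
    apply Polynomial.funext
    intro c
    rw [MapIdeal_poly_eval, h c, Polynomial.eval_zero]
  rw [← MapIdeal_poly_coeff, h1, Polynomial.coeff_zero]

theorem mem_mapIdeal_form {d : ℕ} {Q : MvPolynomial (Fin (N + 1)) ℂ} (hQ : Q.IsHomogeneous d) :
    Q ∈ mapIdeal f U ↔ ∀ z ∈ U, VanishesAt Q (f z) := by
  constructor
  · intro h z hz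
    have h1 := h z hz 1
    rw [one_smul] at h1
    exact h1
  · intro h z hz c
    have h1 : eval (f z).rep Q = 0 := h z hz
    rw [eval_smul_form hQ, h1, mul_zero]

theorem mapIdeal_homog : Homog (mapIdeal f U) := by
  intro Q hQ n z hz c
  rw [eval_smul_form (homogeneousComponent_isHomogeneous n Q), MapIdeal_comp (hQ z hz) n, mul_zero]

private lemma MapIdeal_analytic {φ : ℂ → Fin (N + 1) → ℂ} {z₀ : ℂ} (hφ : AnalyticAt ℂ φ z₀)
    (R : MvPolynomial (Fin (N + 1)) ℂ) : AnalyticAt ℂ (fun z => eval (φ z) R) z₀ := by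
  have hi : ∀ i, AnalyticAt ℂ (fun z => φ z i) z₀ := fun i =>
    (ContinuousLinearMap.proj (R := ℂ) (φ := fun _ : Fin (N + 1) => ℂ) i).analyticAt _ |>.comp hφ
  induction R using MvPolynomial.induction_on with
  | C a =>
    simp only [eval_C]
    exact analyticAt_const
  | add p q hp hq =>
    simp only [map_add]
    exact hp.add hq
  | mul_X p i hp =>
    simp only [map_mul, eval_X]
    exact hp.mul (hi i)

private lemma MapIdeal_notMem (hUc : IsPreconnected U) (hf : HolomorphicInto f U)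
    {d : ℕ} {R : MvPolynomial (Fin (N + 1)) ℂ} (hR : R.IsHomogeneous d) (hRI : R ∉ mapIdeal f U) {z₀ : ℂ}
    (hz₀ : z₀ ∈ U) : ∀ᶠ z in 𝓝[≠] z₀, ¬ VanishesAt R (f z) := by
  have hu : IsOpen {x : ℂ | ∀ᶠ z in 𝓝 x, VanishesAt R (f z)} := isOpen_setOfPred_eventually_nhds
  have hv : IsOpen {x : ℂ | ∀ᶠ z in 𝓝[≠] x, ¬ VanishesAt R (f z)} := isOpen_setOfPred_eventually_nhdsWithin
  have hcov : U ⊆ {x : ℂ | ∀ᶠ z in 𝓝 x, VanishesAt R (f z)} ∪
      {x : ℂ | ∀ᶠ z in 𝓝[≠] x, ¬ VanishesAt R (f z)} := by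
    intro z₁ hz₁
    obtain ⟨φ, hφ, he⟩ := hf z₁ hz₁
    rcases (MapIdeal_analytic hφ R).eventually_eq_zero_or_eventually_ne_zero with h | h
    · left
      change ∀ᶠ z in 𝓝 z₁, VanishesAt R (f z)
      filter_upwards [h, he] with z h1 h2
      obtain ⟨h3, h4⟩ := h2
      rw [h4, vanishesAt_mk hR]
      exact h1
    · right
      change ∀ᶠ z in 𝓝[≠] z₁, ¬ VanishesAt R (f z)
      filter_upwards [h, he.filter_mono nhdsWithin_le_nhds] with z h1 h2
      obtain ⟨h3, h4⟩ := h2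
      rw [h4, vanishesAt_mk hR]
      exact h1
  by_contra hcon
  have h1 : z₀ ∈ {x : ℂ | ∀ᶠ z in 𝓝 x, VanishesAt R (f z)} := (hcov hz₀).resolve_right hcon
  apply hRI
  rw [mem_mapIdeal_form hR]
  intro z hz
  rcases hcov hz with h2 | h2
  · have h3 : ∀ᶠ w in 𝓝 z, VanishesAt R (f w) := h2
    exact h3.self_of_nhds
  · exfalso
    obtain ⟨w, -, hw1, hw2⟩ := hUc _ _ hu hv hcov ⟨z₀, hz₀, h1⟩ ⟨z, hz, h2⟩
    have h3 : ∀ᶠ z in 𝓝 w, VanishesAt R (f z) := hw1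
    have h4 : ∀ᶠ z in 𝓝[≠] w, ¬ VanishesAt R (f z) := hw2
    obtain ⟨t, ht1, ht2⟩ := ((h3.filter_mono nhdsWithin_le_nhds).and h4).exists
    exact ht2 ht1

theorem mapIdeal_isPrime (hUo : IsOpen U) (hUc : IsPreconnected U) (hne : U.Nonempty) (hf : HolomorphicInto f U) :
    (mapIdeal f U).IsPrime := by
  obtain ⟨z₀, hz₀⟩ := hne
  have hcomp : ∀ A : MvPolynomial (Fin (N + 1)) ℂ, A ∉ mapIdeal f U →
      ∃ k, homogeneousComponent k A ∉ mapIdeal f U := by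
    intro A hA
    by_contra hcon
    push Not at hcon
    apply hA
    rw [← MvPolynomial.sum_homogeneousComponent A]
    exact Ideal.sum_mem _ fun i _ => hcon i
  refine ⟨?_, ?_⟩
  · intro htop
    have h1 : (1 : MvPolynomial (Fin (N + 1)) ℂ) ∈ mapIdeal f U := by
      rw [htop]
      trivial
    have h2 := h1 z₀ hz₀ 1
    rw [map_one] at h2
    exact one_ne_zero h2
  · intro A B hAB
    by_contra hcon
    push Not at hcon
    obtain ⟨k, hk⟩ := hcomp A hcon.1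
    obtain ⟨l, hl⟩ := hcomp B hcon.2
    have h1 := MapIdeal_notMem hUc hf (homogeneousComponent_isHomogeneous k A) hk hz₀
    have h2 := MapIdeal_notMem hUc hf (homogeneousComponent_isHomogeneous l B) hl hz₀
    have h3' : ∀ᶠ z in 𝓝 z₀, z ∈ U := hUo.mem_nhds hz₀
    have h3 : ∀ᶠ z in 𝓝[≠] z₀, z ∈ U := h3'.filter_mono nhdsWithin_le_nhds
    obtain ⟨z, ⟨h4, h5⟩, h6⟩ := ((h1.and h2).and h3).exists
    have h7 : MapIdeal_poly (f z).rep A * MapIdeal_poly (f z).rep B = 0 := by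
      apply Polynomial.funext
      intro c
      rw [Polynomial.eval_mul, MapIdeal_poly_eval, MapIdeal_poly_eval, ← map_mul, Polynomial.eval_zero]
      exact hAB z h6 c
    rcases mul_eq_zero.1 h7 with h8 | h8
    · apply h4
      change eval (f z).rep (homogeneousComponent k A) = 0
      rw [← MapIdeal_poly_coeff, h8, Polynomial.coeff_zero]
    · apply h5
      change eval (f z).rep (homogeneousComponent l B) = 0
      rw [← MapIdeal_poly_coeff, h8, Polynomial.coeff_zero]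

theorem exists_X_notMem (hne : U.Nonempty) : ∃ i, (X i : MvPolynomial (Fin (N + 1)) ℂ) ∉ mapIdeal f U := by
  obtain ⟨z, hz⟩ := hne
  by_contra hcon
  push Not at hcon
  apply (f z).rep_nonzero
  funext i
  have h1 := hcon i z hz 1
  rw [one_smul, eval_X] at h1
  exact h1

theorem mem_variety_mapIdeal {z : ℂ} (hz : z ∈ U) : f z ∈ variety (mapIdeal f U) := by
  refine ⟨fun Q hQ n hn => (mem_mapIdeal_form hn).1 hQ z hz, fun m => m.elim0⟩

theorem le_mapIdeal {P : Ideal (MvPolynomial (Fin (N + 1)) ℂ)} (hP : Homog P) (h : ∀ z ∈ U, f z ∈ variety P) :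
    P ≤ mapIdeal f U := by
  intro Q hQ
  rw [← MvPolynomial.sum_homogeneousComponent Q]
  refine Ideal.sum_mem _ fun i _ => ?_
  rw [mem_mapIdeal_form (homogeneousComponent_isHomogeneous i Q)]
  exact fun z hz => (h z hz).1 _ (hP Q hQ i) i (homogeneousComponent_isHomogeneous i Q)

end Pool.Agent.H17BP

end
end

section

/-!
# Extension of a holomorphic map into projective space across a puncture
-/

noncomputable section

namespace Pool.Agent.H62.FC

open Pool.Agent.H62.FC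
open MvPolynomial Topology Filter
open Pool.Agent.H17 (PN VanishesAt ZariskiClosedIn HolomorphicInto puncturedDisc)

variable {N : ℕ}

/-- A meromorphic function of order at least `n` is `z ^ n` times an analytic function. -/
private theorem Extend_factor {v : ℂ → ℂ} (hv : MeromorphicAt v 0) {n : ℤ}
    (hn : (n : WithTop ℤ) ≤ meromorphicOrderAt v 0) :
    ∃ w : ℂ → ℂ, AnalyticAt ℂ w 0 ∧ (∀ᶠ z in 𝓝[≠] (0 : ℂ), v z = z ^ n * w z) ∧
      (meromorphicOrderAt v 0 = n → w 0 ≠ 0) := by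
  by_cases h : meromorphicOrderAt v 0 = ⊤
  · refine ⟨fun _ => 0, analyticAt_const, ?_, ?_⟩
    · rw [meromorphicOrderAt_eq_top_iff] at h
      filter_upwards [h] with z hz
      rw [hz, mul_zero]
    · intro h'
      rw [h] at h'
      exact absurd h' (by simp)
  · obtain ⟨k, hk⟩ := WithTop.ne_top_iff_exists.mp h
    rw [← hk] at hn
    have hnk : n ≤ k := by exact_mod_cast hn
    obtain ⟨g, hg, hg0, hge⟩ := (meromorphicOrderAt_eq_int_iff hv).mp hk.symm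
    refine ⟨fun z => z ^ (k - n).toNat * g z, ?_, ?_, ?_⟩
    · exact (analyticAt_id.pow _).mul hg
    · filter_upwards [hge, self_mem_nhdsWithin] with z hz hz0
      have hz0' : z ≠ 0 := hz0
      rw [hz, sub_zero, smul_eq_mul, ← mul_assoc, ← zpow_natCast z, ← zpow_add₀ hz0',
        Int.toNat_of_nonneg (by omega)]
      congr 2
      ring
    · intro h'
      rw [← hk] at h'
      have : k = n := by exact_mod_cast h'
      subst this
      simpa using hg0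

/-- The representative of a point given by homogeneous coordinates. -/
private theorem Extend_rep {x : PN N} {u : Fin (N + 1) → ℂ} (hu : u ≠ 0)
    (hx : x = Projectivization.mk ℂ u hu) : ∃ c : ℂ, c ≠ 0 ∧ ∀ i, x.rep i = c * u i := by
  have h1 : Projectivization.mk ℂ x.rep x.rep_nonzero = Projectivization.mk ℂ u hu := by
    rw [Projectivization.mk_rep, hx]
  rw [Projectivization.mk_eq_mk_iff'] at h1
  obtain ⟨a, ha⟩ := h1
  refine ⟨a, ?_, fun i => ?_⟩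
  · rintro rfl
    exact x.rep_nonzero (by rw [← ha, zero_smul])
  · rw [← ha]
    rfl

/-- **Extension criterion.** -/
theorem exists_extension {f : ℂ → PN N} (hf : HolomorphicInto f puncturedDisc)
    {i₀ : Fin (N + 1)} (h0 : ∀ᶠ z in 𝓝[≠] (0 : ℂ), ∀ᶠ ζ in 𝓝[≠] z, (f ζ).rep i₀ ≠ 0)
    (h : ∀ i, PunctMero (fun z => (f z).rep i / (f z).rep i₀)) :
    ∃ g : ℂ → PN N, HolomorphicInto g (Metric.ball 0 1) ∧ ∀ z ∈ puncturedDisc, g z = f z := by
  classical
  choose v hv hvf using h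
  -- the minimal order
  obtain ⟨j₁, -, hj₁⟩ := (Finset.univ : Finset (Fin (N + 1))).exists_min_image
    (fun j => meromorphicOrderAt (v j) 0) ⟨i₀, Finset.mem_univ _⟩
  have hne : meromorphicOrderAt (v i₀) 0 ≠ ⊤ := by
    intro htop
    rw [meromorphicOrderAt_eq_top_iff] at htop
    have h1 : ∀ᶠ z in 𝓝[≠] (0 : ℂ), ∀ᶠ ζ in 𝓝[≠] z, v i₀ ζ = 0 := by
      have h2 : ∀ᶠ z in 𝓝 (0 : ℂ), z ≠ 0 → v i₀ z = 0 := eventually_nhdsWithin_iff.mp htop
      have h3 := h2.eventually_nhds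
      filter_upwards [h3.filter_mono nhdsWithin_le_nhds, self_mem_nhdsWithin] with z hz hz0
      have hz0' : z ≠ 0 := hz0
      have h4 : ∀ᶠ ζ in 𝓝 z, ζ ≠ 0 := isOpen_ne.mem_nhds hz0'
      have h5 : ∀ᶠ ζ in 𝓝 z, v i₀ ζ = 0 := by
        filter_upwards [hz, h4] with ζ ha hb
        exact ha hb
      exact h5.filter_mono nhdsWithin_le_nhds
    obtain ⟨z, ha, hb, hc⟩ := (h1.and (h0.and (hvf i₀))).exists
    obtain ⟨ζ, hd, he, hg⟩ := (ha.and (hb.and hc)).exists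
    have hg' : (f ζ).rep i₀ / (f ζ).rep i₀ = v i₀ ζ := hg
    rw [hd, div_self he] at hg'
    exact one_ne_zero hg'
  have hne1 : meromorphicOrderAt (v j₁) 0 ≠ ⊤ :=
    ne_top_of_le_ne_top hne (hj₁ i₀ (Finset.mem_univ _))
  obtain ⟨n, hn⟩ := WithTop.ne_top_iff_exists.mp hne1
  have hw : ∀ j, ∃ w : ℂ → ℂ, AnalyticAt ℂ w 0 ∧ (∀ᶠ z in 𝓝[≠] (0 : ℂ), v j z = z ^ n * w z) ∧
      (meromorphicOrderAt (v j) 0 = n → w 0 ≠ 0) := fun j =>
    Extend_factor (hv j) (by rw [hn]; exact hj₁ j (Finset.mem_univ _))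
  choose w hwan hwv hw0 using hw
  have hw1 : w j₁ 0 ≠ 0 := hw0 j₁ hn.symm
  -- the local statement near the puncture
  have hmain : ∀ᶠ z in 𝓝[≠] (0 : ℂ), ∃ hh : (fun j => w j z) ≠ 0,
      f z = Projectivization.mk ℂ (fun j => w j z) hh := by
    have a1 : ∀ᶠ z in 𝓝[≠] (0 : ℂ), ∀ j, ∀ᶠ ζ in 𝓝 z, v j ζ = ζ ^ n * w j ζ := by
      rw [eventually_all]
      intro j
      have h2 : ∀ᶠ z in 𝓝 (0 : ℂ), z ≠ 0 → v j z = z ^ n * w j z :=
        eventually_nhdsWithin_iff.mp (hwv j)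
      have h3 := h2.eventually_nhds
      filter_upwards [h3.filter_mono nhdsWithin_le_nhds, self_mem_nhdsWithin] with z hz hz0
      have hz0' : z ≠ 0 := hz0
      have h4 : ∀ᶠ ζ in 𝓝 z, ζ ≠ 0 := isOpen_ne.mem_nhds hz0'
      filter_upwards [hz, h4] with ζ ha hb
      exact ha hb
    have a2 : ∀ᶠ z in 𝓝[≠] (0 : ℂ), ∀ j,
        (fun ζ => (f ζ).rep j / (f ζ).rep i₀) =ᶠ[𝓝[≠] z] v j := by
      rw [eventually_all]
      exact hvf
    have a3 : ∀ᶠ z in 𝓝[≠] (0 : ℂ), ∀ j, AnalyticAt ℂ (w j) z := by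
      rw [eventually_all]
      exact fun j => (hwan j).eventually_analyticAt.filter_mono nhdsWithin_le_nhds
    have a4 : ∀ᶠ z in 𝓝[≠] (0 : ℂ), w j₁ z ≠ 0 :=
      ((hwan j₁).continuousAt.eventually_ne hw1).filter_mono nhdsWithin_le_nhds
    have a5 : ∀ᶠ z in 𝓝[≠] (0 : ℂ), z ∈ puncturedDisc := by
      filter_upwards [mem_nhdsWithin_of_mem_nhds (Metric.ball_mem_nhds (0 : ℂ) one_pos),
        self_mem_nhdsWithin] with z h1 h2
      exact ⟨h1, h2⟩
    filter_upwards [a1, a2, a3, a4, a5, h0, self_mem_nhdsWithin] with z b1 b2 b3 b4 b5 b6 b7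
    obtain ⟨φ, hφ, hφf⟩ := hf z b5
    have hφ1 : ∀ i, AnalyticAt ℂ (fun z => φ z i) z := fun i => (analyticAt_pi_iff.mp hφ) i
    have hcross : ∀ i j, φ z i * w j z = φ z j * w i z := by
      intro i j
      have hev : (fun ζ => φ ζ i * w j ζ - φ ζ j * w i ζ) =ᶠ[𝓝[≠] z] fun _ => (0 : ℂ) := by
        have b1' : ∀ᶠ ζ in 𝓝[≠] z, ∀ j, v j ζ = ζ ^ n * w j ζ := by
          rw [eventually_all]
          exact fun j => (b1 j).filter_mono nhdsWithin_le_nhds
        have b2' : ∀ᶠ ζ in 𝓝[≠] z, ∀ j, (f ζ).rep j / (f ζ).rep i₀ = v j ζ := by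
          rw [eventually_all]
          exact b2
        filter_upwards [b1', b2', b6, hφf.filter_mono nhdsWithin_le_nhds] with ζ c1 c2 c3 c4
        obtain ⟨hφ0, hfφ⟩ := c4
        obtain ⟨c, hc, hrep⟩ := Extend_rep hφ0 hfφ
        have key : ∀ j, φ ζ j = φ ζ i₀ * (ζ ^ n * w j ζ) := by
          intro j
          have e1 := c2 j
          rw [c1 j, hrep j, hrep i₀, mul_div_mul_left _ _ hc] at e1
          have e2 : φ ζ i₀ ≠ 0 := by
            intro e3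
            apply c3
            rw [hrep i₀, e3, mul_zero]
          rw [div_eq_iff e2] at e1
          rw [e1, mul_comm]
        rw [key i, key j]
        ring
      have hcont : ContinuousAt (fun ζ => φ ζ i * w j ζ - φ ζ j * w i ζ) z :=
        (((hφ1 i).mul (b3 j)).sub ((hφ1 j).mul (b3 i))).continuousAt
      have h1 : Tendsto (fun ζ => φ ζ i * w j ζ - φ ζ j * w i ζ) (𝓝[≠] z)
          (𝓝 (φ z i * w j z - φ z j * w i z)) := hcont.tendsto.mono_left nhdsWithin_le_nhds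
      have h2 : Tendsto (fun ζ => φ ζ i * w j ζ - φ ζ j * w i ζ) (𝓝[≠] z) (𝓝 0) :=
        tendsto_const_nhds.congr' hev.symm
      exact sub_eq_zero.mp (tendsto_nhds_unique h1 h2)
    have hwz : (fun j => w j z) ≠ 0 := fun hh => b4 (congrFun hh j₁)
    refine ⟨hwz, ?_⟩
    obtain ⟨hφ0, hfφ⟩ := hφf.self_of_nhds
    rw [hfφ, Projectivization.mk_eq_mk_iff']
    refine ⟨φ z j₁ / w j₁ z, ?_⟩
    funext j
    simp only [Pi.smul_apply, smul_eq_mul]
    rw [div_mul_eq_mul_div, div_eq_iff b4]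
    exact hcross j₁ j
  -- the extension
  have hv0 : (fun j => w j 0) ≠ 0 := fun h => hw1 (congrFun h j₁)
  set g : ℂ → PN N := Function.update f 0 (Projectivization.mk ℂ (fun j => w j 0) hv0) with hg
  have hgf : ∀ z, z ≠ 0 → g z = f z := fun z hz => by
    rw [hg, Function.update_of_ne hz]
  refine ⟨g, ?_, fun z hz => hgf z fun h => hz.2 (by simp [h])⟩
  intro z₀ hz₀
  by_cases h00 : z₀ = 0
  · subst h00
    refine ⟨fun z => (fun j => w j z), analyticAt_pi_iff.mpr hwan, ?_⟩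
    filter_upwards [eventually_nhdsWithin_iff.mp hmain] with z hz
    by_cases hz0 : z = 0
    · subst hz0
      exact ⟨hv0, by rw [hg, Function.update_self]⟩
    · obtain ⟨h1, h2⟩ := hz hz0
      exact ⟨h1, by rw [hgf z hz0, h2]⟩
  · obtain ⟨φ, hφ, hφf⟩ := hf z₀ ⟨hz₀, by simpa using h00⟩
    refine ⟨φ, hφ, ?_⟩
    have h1 : ∀ᶠ z in 𝓝 z₀, z ∈ ({0}ᶜ : Set ℂ) := isOpen_compl_singleton.mem_nhds h00
    filter_upwards [hφf, h1] with z hz hz'
    rw [hgf z hz']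
    exact hz

end Pool.Agent.H62.FC

end
end

section

/-!
# Functions meromorphic at the puncture: closure properties
-/

open Filter Topology MeasureTheory
open Pool.Agent.H92.GGL (ordZ)

noncomputable section

namespace Pool.Agent.H62.FC

theorem PunctMero.mul {f g : ℂ → ℂ} (hf : PunctMero f) (hg : PunctMero g) :
    PunctMero (fun z => f z * g z) := by
  obtain ⟨v, hv, hfv⟩ := hf
  obtain ⟨w, hw, hgw⟩ := hg
  refine ⟨fun z => v z * w z, hv.mul hw, ?_⟩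
  filter_upwards [hfv, hgw] with z h1 h2
  filter_upwards [h1, h2] with ζ h3 h4
  rw [h3, h4]

theorem PunctMero.inv {f : ℂ → ℂ} (hf : PunctMero f) : PunctMero (fun z => (f z)⁻¹) := by
  obtain ⟨v, hv, hfv⟩ := hf
  refine ⟨fun z => (v z)⁻¹, hv.inv, ?_⟩
  filter_upwards [hfv] with z h1
  filter_upwards [h1] with ζ h3
  rw [h3]

/-- a bound for a root -/
private lemma norm_le_of_pow_le {w : ℂ} {C : ℝ} {M : ℕ} (hM : 0 < M) (hC : 1 ≤ C)
    (h : ‖w ^ M‖ ≤ C) : ‖w‖ ≤ C := by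
  rw [norm_pow] at h
  by_contra hlt
  have hlt := not_le.1 hlt
  have h1 : (1 : ℝ) ≤ ‖w‖ := by linarith
  have h2 : ‖w‖ ≤ ‖w‖ ^ M := le_self_pow₀ h1 hM.ne'
  linarith

theorem PunctMero.root {R₀ : ℝ} (hR₀ : 0 < R₀) {f : ℂ → ℂ} (hf : MeroPunct R₀ f) {M : ℕ}
    (hM : 0 < M) (h : PunctMero (fun z => f z ^ M)) : PunctMero f := by
  obtain ⟨v, hv, hfv⟩ := h
  -- the punctured disc
  have hU0 : ∀ᶠ z in 𝓝[≠] (0 : ℂ), 0 < ‖z‖ ∧ ‖z‖ < R₀ := by
    have h1 : ∀ᶠ z in 𝓝 (0 : ℂ), ‖z‖ < R₀ := by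
      filter_upwards [Metric.ball_mem_nhds (0 : ℂ) hR₀] with z hz
      simpa using hz
    filter_upwards [h1.filter_mono nhdsWithin_le_nhds, self_mem_nhdsWithin] with z h2 h3
    exact ⟨norm_pos_iff.mpr h3, h2⟩
  -- `v` is not identically zero
  have hvtop : meromorphicOrderAt v 0 ≠ ⊤ := by
    intro htop
    have h0 : ∀ᶠ z in 𝓝[≠] (0 : ℂ), v z = 0 := meromorphicOrderAt_eq_top_iff.1 htop
    have h0' : ∀ᶠ z in 𝓝[≠] (0 : ℂ), ∀ᶠ ζ in 𝓝[≠] z, v ζ = 0 := by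
      have h2 := eventually_eventually_nhdsWithin.2 h0
      filter_upwards [h2, self_mem_nhdsWithin] with z hz hz0
      have h4 : ∀ᶠ ζ in 𝓝 z, v ζ = 0 := by
        have h5 : 𝓝[{(0 : ℂ)}ᶜ] z = 𝓝 z :=
          IsOpen.nhdsWithin_eq isOpen_compl_singleton hz0
        rwa [h5] at hz
      exact h4.filter_mono nhdsWithin_le_nhds
    obtain ⟨z, hz1, hz2, hz3⟩ := ((hU0.and (hfv.and h0'))).exists
    refine hf.ord z hz1.1 hz1.2 ?_
    rw [meromorphicOrderAt_eq_top_iff]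
    filter_upwards [hz2, hz3] with ζ h1 h2
    rw [h2] at h1
    exact (pow_eq_zero_iff hM.ne').1 h1
  have hvan : ∀ᶠ z in 𝓝[≠] (0 : ℂ), AnalyticAt ℂ v z := hv.eventually_analyticAt
  have hvne : ∀ᶠ z in 𝓝[≠] (0 : ℂ), v z ≠ 0 :=
    (meromorphicOrderAt_ne_top_iff_eventually_ne_zero hv).1 hvtop
  obtain ⟨k, hk, -, hvk⟩ := (meromorphicOrderAt_ne_top_iff hv).1 hvtop
  set n : ℤ := (meromorphicOrderAt v 0).untop₀ with hn
  have hkb : ∀ᶠ z in 𝓝 (0 : ℂ), ‖k z‖ ≤ ‖k 0‖ + 1 := by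
    have h1 := hk.continuousAt.norm.tendsto
    filter_upwards [h1.eventually_lt_const (lt_add_one ‖k 0‖)] with z hz using hz.le
  have h1b : ∀ᶠ z in 𝓝 (0 : ℂ), ‖z‖ < 1 := by
    filter_upwards [Metric.ball_mem_nhds (0 : ℂ) one_pos] with z hz
    simpa using hz
  -- everything in one punctured disc
  have hall : ∀ᶠ z in 𝓝[≠] (0 : ℂ), (0 < ‖z‖ ∧ ‖z‖ < R₀) ∧
      ((fun z => f z ^ M) =ᶠ[𝓝[≠] z] v) ∧ AnalyticAt ℂ v z ∧ v z ≠ 0 ∧
        v z = z ^ n * k z ∧ ‖k z‖ ≤ ‖k 0‖ + 1 ∧ ‖z‖ < 1 := by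
    filter_upwards [hU0, hfv, hvan, hvne, hvk, hkb.filter_mono nhdsWithin_le_nhds,
      h1b.filter_mono nhdsWithin_le_nhds] with z a1 a2 a3 a4 a5 a6 a7
    refine ⟨a1, a2, a3, a4, ?_, a6, a7⟩
    rw [a5, sub_zero, smul_eq_mul]
  obtain ⟨ε, hε, hε'⟩ := Metric.mem_nhdsWithin_iff.1 hall
  have hD : ∀ z : ℂ, 0 < ‖z‖ → ‖z‖ < ε → (0 < ‖z‖ ∧ ‖z‖ < R₀) ∧
      ((fun z => f z ^ M) =ᶠ[𝓝[≠] z] v) ∧ AnalyticAt ℂ v z ∧ v z ≠ 0 ∧
        v z = z ^ n * k z ∧ ‖k z‖ ≤ ‖k 0‖ + 1 ∧ ‖z‖ < 1 := by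
    intro z hz1 hz2
    exact hε' ⟨by simpa using hz2, norm_pos_iff.1 hz1⟩
  -- the normal form
  set U : Set ℂ := {z | 0 < ‖z‖ ∧ ‖z‖ < R₀} with hU
  have hfU : MeromorphicOn f U := fun z hz => hf.mero z hz.1 hz.2
  set g : ℂ → ℂ := toMeromorphicNFOn f U with hg
  have hgf : ∀ z : ℂ, 0 < ‖z‖ → ‖z‖ < ε → g =ᶠ[𝓝[≠] z] f := fun z h1 h2 =>
    hfU.toMeromorphicNFOn_eq_self_on_nhdsNE (hD z h1 h2).1
  have hgan : ∀ z : ℂ, 0 < ‖z‖ → ‖z‖ < ε → AnalyticAt ℂ g z := by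
    intro z h1 h2
    obtain ⟨b1, b2, b3, b4, -, -, -⟩ := hD z h1 h2
    have hm := hf.mero z b1.1 b1.2
    have e1 : meromorphicOrderAt (fun z => f z ^ M) z = M * meromorphicOrderAt f z :=
      meromorphicOrderAt_pow hm
    have e2 : meromorphicOrderAt (fun z => f z ^ M) z = 0 := by
      rw [meromorphicOrderAt_congr b2]
      exact b3.meromorphicNFAt.meromorphicOrderAt_eq_zero_iff.2 b4
    have e3 : meromorphicOrderAt f z = 0 := by
      rw [e2] at e1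
      rcases mul_eq_zero.1 e1.symm with h3 | h3
      · exact absurd (by exact_mod_cast h3) hM.ne'
      · exact h3
    have hnf : MeromorphicNFAt g z := meromorphicNFOn_toMeromorphicNFOn f U b1
    refine hnf.meromorphicOrderAt_nonneg_iff_analyticAt.1 ?_
    rw [meromorphicOrderAt_congr (hgf z h1 h2), e3]
  have hgM : ∀ z : ℂ, 0 < ‖z‖ → ‖z‖ < ε → g z ^ M = v z := by
    intro z h1 h2
    obtain ⟨-, b2, b3, -, -, -, -⟩ := hD z h1 h2
    have c1 : (fun ζ => g ζ ^ M) =ᶠ[𝓝[≠] z] v := by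
      filter_upwards [hgf z h1 h2, b2] with ζ h3 h4
      rw [h3]; exact h4
    have c2 : ContinuousAt (fun ζ => g ζ ^ M) z := ((hgan z h1 h2).pow M).continuousAt
    exact tendsto_nhds_unique_of_eventuallyEq (c2.tendsto.mono_left nhdsWithin_le_nhds)
      (b3.continuousAt.tendsto.mono_left nhdsWithin_le_nhds) c1
  -- multiply by a power of `z`
  set m : ℕ := n.natAbs with hm
  obtain ⟨w, hw, hwg⟩ := Pool.Agent.H92.GGL.meromorphicAt_of_bounded
    (u := fun z => z ^ m * g z) (ε := ε) (M := ‖k 0‖ + 1) hε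
    (fun z h1 h2 => (analyticAt_id.pow m).mul (hgan z h1 h2)) (by
      intro z h1 h2
      obtain ⟨-, -, -, -, b5, b6, b7⟩ := hD z h1 h2
      refine norm_le_of_pow_le hM (by linarith [norm_nonneg (k 0)]) ?_
      have hz : z ≠ 0 := norm_pos_iff.1 h1
      have e1 : (z ^ m * g z) ^ M = z ^ ((m * M : ℕ) + n : ℤ) * k z := by
        rw [mul_pow, hgM z h1 h2, b5, zpow_add₀ hz, zpow_natCast, pow_mul]
        ring
      have e2 : (0 : ℤ) ≤ ((m * M : ℕ) : ℤ) + n := by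
        have h3 : m ≤ m * M := Nat.le_mul_of_pos_right m hM
        omega
      obtain ⟨q, hq⟩ := Int.eq_ofNat_of_zero_le e2
      rw [e1, hq, zpow_natCast, norm_mul, norm_pow]
      have h4 : ‖z‖ ^ q ≤ 1 := pow_le_one₀ (norm_nonneg z) b7.le
      calc ‖z‖ ^ q * ‖k z‖ ≤ 1 * (‖k 0‖ + 1) :=
            mul_le_mul h4 b6 (norm_nonneg _) zero_le_one
        _ = ‖k 0‖ + 1 := one_mul _)
  refine ⟨fun z => (z ^ m)⁻¹ * w z, (((analyticAt_id.pow m).meromorphicAt).inv).mul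
    hw.meromorphicAt, ?_⟩
  have hεe : ∀ᶠ z in 𝓝[≠] (0 : ℂ), 0 < ‖z‖ ∧ ‖z‖ < ε := by
    filter_upwards [(Metric.ball_mem_nhds (0 : ℂ) hε : _) |> mem_nhdsWithin_of_mem_nhds,
      self_mem_nhdsWithin] with z h1 h2
    exact ⟨norm_pos_iff.mpr h2, by simpa using h1⟩
  filter_upwards [hεe] with z hz
  have hz0 : z ≠ 0 := norm_pos_iff.1 hz.1
  have h5 : ∀ᶠ ζ in 𝓝[≠] z, ζ ≠ 0 :=
    (isOpen_compl_singleton.mem_nhds hz0 : ({(0 : ℂ)}ᶜ : Set ℂ) ∈ 𝓝 z) |>
      mem_nhdsWithin_of_mem_nhds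
  filter_upwards [hgf z hz.1 hz.2, h5] with ζ h6 h7
  rw [hwg ζ h7, ← h6, ← mul_assoc, inv_mul_cancel₀ (pow_ne_zero m h7), one_mul]

end Pool.Agent.H62.FC

end
end

section

/-!
# MW Ord2: the initial form of a germ in two variables and the blow-up

`ord_blow`: if `f = O (‖x‖ ^ p)` then `f (x, x (c + w)) = x ^ p * h` with `h (0, w) = ∑ γ j (c + w) ^ j`, `f (x y, y) = y ^ p * h` with
`h (w, 0) = ∑ γ j w ^ (p - j)`, and `f = O (‖x‖ ^ (p + 1))` if `γ = 0`.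
-/

set_option autoImplicit false

open Topology Filter Asymptotics

noncomputable section

namespace Pool.Agent.MW

open Pool.Agent.H17BP (bl blInf bl_zero blInf_zero analyticAt_bl analyticAt_blInf)

/-- the homogeneous polynomial `∑ j ≤ p, γ j * a ^ (p - j) * b ^ j` -/
def hpol (γ : ℕ → ℂ) (p : ℕ) (a b : ℂ) : ℂ := ∑ j ∈ Finset.range (p + 1), γ j * a ^ (p - j) * b ^ j

theorem multi_hpol {p : ℕ} (q : ContinuousMultilinearMap ℂ (fun _ : Fin p => ℂ × ℂ) ℂ) :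
    ∃ γ : ℕ → ℂ, ∀ a b : ℂ, q (fun _ => (a, b)) = hpol γ p a b := by
  classical
  refine ⟨fun j => ∑ S : Finset (Fin p) with S.card = p - j, if j ≤ p then
    q (S.piecewise (fun _ => ((1 : ℂ), (0 : ℂ))) (fun _ => ((0 : ℂ), (1 : ℂ)))) else 0, fun a b => ?_⟩
  have h1 : (fun _ : Fin p => (a, b)) = (fun _ : Fin p => a • ((1 : ℂ), (0 : ℂ))) + fun _ : Fin p => b • ((0 : ℂ), (1 : ℂ)) := by
    funext i
    simp
  have h2 : q (fun _ => (a, b)) = ∑ S : Finset (Fin p), a ^ S.card * b ^ (p - S.card) *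
      q (S.piecewise (fun _ => ((1 : ℂ), (0 : ℂ))) (fun _ => ((0 : ℂ), (1 : ℂ)))) := by
    rw [h1]
    have h3 := q.toMultilinearMap.map_add_univ (fun _ : Fin p => a • ((1 : ℂ), (0 : ℂ))) (fun _ : Fin p => b • ((0 : ℂ), (1 : ℂ)))
    rw [ContinuousMultilinearMap.coe_coe] at h3
    rw [h3]
    refine Finset.sum_congr rfl fun S _ => ?_
    have h4 : (S.piecewise (fun _ : Fin p => a • ((1 : ℂ), (0 : ℂ))) (fun _ : Fin p => b • ((0 : ℂ), (1 : ℂ)))) =
        fun i => (if i ∈ S then a else b) • (S.piecewise (fun _ : Fin p => ((1 : ℂ), (0 : ℂ))) (fun _ => ((0 : ℂ), (1 : ℂ)))) i := by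
      funext i
      by_cases hi : i ∈ S
      · simp [Finset.piecewise, hi]
      · simp [Finset.piecewise, hi]
    have h5 : ∏ i : Fin p, (if i ∈ S then a else b) = a ^ S.card * b ^ (p - S.card) := by
      rw [Finset.prod_ite, Finset.prod_const, Finset.prod_const]
      congr 2
      · simp
      · have h6 : (Finset.univ.filter fun i : Fin p => i ∉ S) = Sᶜ := by
          ext i
          simp
        rw [h6, Finset.card_compl, Fintype.card_fin]
    rw [h4, q.map_smul_univ, h5, smul_eq_mul]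
  rw [h2, hpol]
  have h7 : ∀ j ∈ Finset.range (p + 1), (∑ S : Finset (Fin p) with S.card = p - j, if j ≤ p then
      q (S.piecewise (fun _ => ((1 : ℂ), (0 : ℂ))) (fun _ => ((0 : ℂ), (1 : ℂ)))) else 0) * a ^ (p - j) * b ^ j =
      ∑ S : Finset (Fin p) with p - S.card = j, a ^ S.card * b ^ (p - S.card) *
      q (S.piecewise (fun _ => ((1 : ℂ), (0 : ℂ))) (fun _ => ((0 : ℂ), (1 : ℂ)))) := by
    intro j hj
    have hj' : j ≤ p := Nat.lt_succ_iff.1 (Finset.mem_range.1 hj)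
    rw [Finset.sum_mul, Finset.sum_mul]
    refine Finset.sum_congr ?_ ?_
    · ext S
      have h8 : S.card ≤ p := by
        have := S.card_le_univ
        simpa using this
      simp only [Finset.mem_filter, Finset.mem_univ, true_and]
      omega
    · intro S hS
      have h8 : p - S.card = j := by simpa using hS
      have h9 : S.card ≤ p := by
        have := S.card_le_univ
        simpa using this
      have h10 : S.card = p - j := by omega
      rw [if_pos hj', h8, h10]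
      ring
  rw [Finset.sum_congr rfl h7]
  symm
  refine Finset.sum_fiberwise_of_maps_to (s := Finset.univ) (t := Finset.range (p + 1)) (g := fun S : Finset (Fin p) => p - S.card) ?_ _
  intro S _
  rw [Finset.mem_range]
  omega

theorem exists_init {f : ℂ × ℂ → ℂ} (hf : AnalyticAt ℂ f 0) {p : ℕ} (hO : f =O[𝓝 0] fun x => ‖x‖ ^ p) :
    ∃ γ : ℕ → ℂ, (fun x => f x - hpol γ p x.1 x.2) =O[𝓝 0] fun x => ‖x‖ ^ (p + 1) := by
  obtain ⟨q, hq⟩ := hf
  have h0 : ∀ k, k < p → ∀ y, q k (fun _ => y) = 0 := by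
    intro k
    induction k using Nat.strong_induction_on with
    | _ k ih =>
    intro hk y
    have h1 := hq.isBigO_sub_partialSum_pow (k + 1)
    have h2 : (fun y => (q k fun _ => y)) =O[𝓝 0] fun y => ‖y‖ ^ (k + 1) := by
      have h3 : f =O[𝓝 0] fun x => ‖x‖ ^ (k + 1) := hO.trans (by
        refine IsBigO.of_bound 1 ?_
        filter_upwards [Metric.ball_mem_nhds (0 : ℂ × ℂ) one_pos] with x hx
        rw [mem_ball_zero_iff] at hx
        rw [one_mul, norm_pow, norm_norm, norm_pow, norm_norm]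
        exact pow_le_pow_of_le_one (norm_nonneg _) hx.le hk)
      have h4 : (fun y => (q k fun _ => y)) = fun y => f y - (f (0 + y) - q.partialSum (k + 1) y) := by
        funext y
        rw [FormalMultilinearSeries.partialSum, Finset.sum_range_succ, Finset.sum_eq_zero, zero_add, zero_add]
        · ring
        · intro i hi
          have hi' := Finset.mem_range.1 hi
          exact ih i hi' (hi'.trans hk) y
      rw [h4]
      exact h3.sub h1
    exact h2.continuousMultilinearMap_apply_eq_zero y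
  obtain ⟨γ, hγ⟩ := multi_hpol (q p)
  refine ⟨γ, ?_⟩
  have h1 := hq.isBigO_sub_partialSum_pow (p + 1)
  refine h1.congr_left fun y => ?_
  rw [FormalMultilinearSeries.partialSum, Finset.sum_range_succ, Finset.sum_eq_zero, zero_add, zero_add]
  · have h2 := hγ y.1 y.2
    rw [← h2]
  · intro i hi
    exact h0 i (Finset.mem_range.1 hi) y

theorem exists_div_pow {g : ℂ × ℂ → ℂ} (hg : AnalyticAt ℂ g 0) {p : ℕ} (hO : g =O[𝓝 0] fun x => x.1 ^ p) :
    ∃ h : ℂ × ℂ → ℂ, AnalyticAt ℂ h 0 ∧ ∀ᶠ x in 𝓝 (0 : ℂ × ℂ), g x = x.1 ^ p * h x := by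
  by_cases h0 : ∀ᶠ x in 𝓝 (0 : ℂ × ℂ), g x = 0
  · refine ⟨fun _ => 0, analyticAt_const, ?_⟩
    filter_upwards [h0] with x hx
    rw [hx, mul_zero]
  obtain ⟨a, g', hg', hev, hne⟩ := Pool.Agent.H22.HF.exists_div hg h0
  have hpa : p ≤ a := by
    by_contra hlt
    push Not at hlt
    apply hne
    obtain ⟨C, hC⟩ := hO.bound
    have h1 : ∀ᶠ x in 𝓝 (0 : ℂ × ℂ), ContinuousAt g' x := hg'.eventually_analyticAt.mono fun x hx => hx.continuousAt
    have h2 : ∀ᶠ x in 𝓝 (0 : ℂ × ℂ), x.1 ≠ 0 → ‖g' x‖ ≤ C * ‖x.1‖ := by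
      filter_upwards [hC, hev, Metric.ball_mem_nhds (0 : ℂ × ℂ) one_pos] with x h3 h4 h5 h6
      rw [mem_ball_zero_iff] at h5
      have h7 : ‖x.1‖ ≤ 1 := (norm_fst_le x).trans h5.le
      rw [h4, norm_mul, norm_pow, norm_pow] at h3
      have h8 : 0 < ‖x.1‖ := norm_pos_iff.2 h6
      have h9 : ‖x.1‖ ^ p = ‖x.1‖ ^ a * ‖x.1‖ ^ (p - a) := by
        rw [← pow_add]
        congr 1
        omega
      have h11 : ‖x.1‖ ^ (p - a) ≤ ‖x.1‖ := by
        calc ‖x.1‖ ^ (p - a) ≤ ‖x.1‖ ^ 1 := pow_le_pow_of_le_one h8.le h7 (by omega)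
          _ = ‖x.1‖ := pow_one _
      have h12 : 0 < ‖x.1‖ ^ a := pow_pos h8 a
      have h13 : ‖g' x‖ ≤ C * ‖x.1‖ ^ (p - a) := by
        have h14 : ‖x.1‖ ^ a * ‖g' x‖ ≤ ‖x.1‖ ^ a * (C * ‖x.1‖ ^ (p - a)) := by
          calc ‖x.1‖ ^ a * ‖g' x‖ ≤ C * ‖x.1‖ ^ p := h3
            _ = ‖x.1‖ ^ a * (C * ‖x.1‖ ^ (p - a)) := by rw [h9]; ring
        exact le_of_mul_le_mul_left h14 h12
      have h15 : 0 < ‖x.1‖ ^ (p - a) := pow_pos h8 _
      have hC0 : 0 ≤ C := by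
        by_contra hneg
        push Not at hneg
        have : C * ‖x.1‖ ^ (p - a) < 0 := mul_neg_of_neg_of_pos hneg h15
        linarith [norm_nonneg (g' x)]
      exact h13.trans (mul_le_mul_of_nonneg_left h11 hC0)
    have h3 : ∀ᶠ w in 𝓝 (0 : ℂ), (∀ᶠ s in 𝓝 (0 : ℂ), s ≠ 0 → ‖g' (s, w)‖ ≤ C * ‖s‖) ∧ ContinuousAt g' (0, w) := by
      have h4 : ∀ᶠ x in 𝓝 (0 : ℂ) ×ˢ 𝓝 (0 : ℂ), (x.2 ≠ 0 → ‖g' (x.2, x.1)‖ ≤ C * ‖x.2‖) := by
        have h5 : Tendsto (fun x : ℂ × ℂ => (x.2, x.1)) (𝓝 (0 : ℂ) ×ˢ 𝓝 (0 : ℂ)) (𝓝 (0 : ℂ × ℂ)) := by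
          rw [← nhds_prod_eq]
          exact (continuous_snd.prodMk continuous_fst).tendsto' _ _ rfl
        exact h5.eventually h2
      have h6 : Tendsto (fun w : ℂ => ((0 : ℂ), w)) (𝓝 0) (𝓝 0) := (Continuous.prodMk_right (0 : ℂ)).tendsto' _ _ rfl
      exact h4.curry.and (h6.eventually h1)
    filter_upwards [h3] with w hw
    have h4 : Tendsto (fun s : ℂ => g' (s, w)) (𝓝[≠] 0) (𝓝 (g' (0, w))) := by
      have h5 : Tendsto (fun s : ℂ => (s, w)) (𝓝 0) (𝓝 ((0 : ℂ), w)) := (Continuous.prodMk_left w).tendsto' _ _ rfl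
      exact (hw.2.tendsto.comp h5).mono_left nhdsWithin_le_nhds
    have h5 : Tendsto (fun s : ℂ => g' (s, w)) (𝓝[≠] 0) (𝓝 0) := by
      refine squeeze_zero_norm' (a := fun s : ℂ => C * ‖s‖) ?_ ?_
      · rw [eventually_nhdsWithin_iff]
        filter_upwards [hw.1] with s hs hs0
        exact hs hs0
      · have h6 : Tendsto (fun s : ℂ => C * ‖s‖) (𝓝 0) (𝓝 (C * ‖(0 : ℂ)‖)) := (continuous_const.mul continuous_norm).tendsto 0
        rw [norm_zero, mul_zero] at h6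
        exact h6.mono_left nhdsWithin_le_nhds
    exact tendsto_nhds_unique h4 h5
  refine ⟨fun x => x.1 ^ (a - p) * g' x, (analyticAt_fst.pow _).mul hg', ?_⟩
  filter_upwards [hev] with x hx
  rw [hx, ← mul_assoc, ← pow_add]
  congr 2
  omega

/-- the value on the exceptional curve -/
theorem exc_value {g h P : ℂ × ℂ → ℂ} {p : ℕ} (hh : AnalyticAt ℂ h 0) (he : ∀ᶠ x in 𝓝 (0 : ℂ × ℂ), g x = x.1 ^ p * h x)
    (hP : Continuous P) (hO : (fun x => g x - x.1 ^ p * P x) =O[𝓝 0] fun x : ℂ × ℂ => x.1 ^ (p + 1)) :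
    ∀ᶠ w in 𝓝 (0 : ℂ), h (0, w) = P (0, w) := by
  obtain ⟨C, hC⟩ := hO.bound
  have h1 : ∀ᶠ x in 𝓝 (0 : ℂ × ℂ), ContinuousAt h x := hh.eventually_analyticAt.mono fun x hx => hx.continuousAt
  have h2 : ∀ᶠ x in 𝓝 (0 : ℂ × ℂ), x.1 ≠ 0 → ‖h x - P x‖ ≤ C * ‖x.1‖ := by
    filter_upwards [hC, he] with x h3 h4 h6
    have h8 : 0 < ‖x.1‖ := norm_pos_iff.2 h6
    rw [h4, ← mul_sub, norm_mul, norm_pow, norm_pow] at h3
    have h12 : 0 < ‖x.1‖ ^ p := pow_pos h8 p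
    refine le_of_mul_le_mul_left ?_ h12
    calc ‖x.1‖ ^ p * ‖h x - P x‖ ≤ C * ‖x.1‖ ^ (p + 1) := h3
      _ = ‖x.1‖ ^ p * (C * ‖x.1‖) := by rw [pow_succ]; ring
  have h3 : ∀ᶠ w in 𝓝 (0 : ℂ), (∀ᶠ s in 𝓝 (0 : ℂ), s ≠ 0 → ‖h (s, w) - P (s, w)‖ ≤ C * ‖s‖) ∧ ContinuousAt h (0, w) := by
    have h4 : ∀ᶠ x in 𝓝 (0 : ℂ) ×ˢ 𝓝 (0 : ℂ), (x.2 ≠ 0 → ‖h (x.2, x.1) - P (x.2, x.1)‖ ≤ C * ‖x.2‖) := by
      have h5 : Tendsto (fun x : ℂ × ℂ => (x.2, x.1)) (𝓝 (0 : ℂ) ×ˢ 𝓝 (0 : ℂ)) (𝓝 (0 : ℂ × ℂ)) := by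
        rw [← nhds_prod_eq]
        exact (continuous_snd.prodMk continuous_fst).tendsto' _ _ rfl
      exact h5.eventually h2
    have h6 : Tendsto (fun w : ℂ => ((0 : ℂ), w)) (𝓝 0) (𝓝 0) := (Continuous.prodMk_right (0 : ℂ)).tendsto' _ _ rfl
    exact h4.curry.and (h6.eventually h1)
  filter_upwards [h3] with w hw
  have h4 : Tendsto (fun s : ℂ => h (s, w) - P (s, w)) (𝓝[≠] 0) (𝓝 (h (0, w) - P (0, w))) := by
    have h5 : Tendsto (fun s : ℂ => (s, w)) (𝓝 0) (𝓝 ((0 : ℂ), w)) := (Continuous.prodMk_left w).tendsto' _ _ rfl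
    exact ((hw.2.tendsto.comp h5).sub ((hP.tendsto _).comp h5)).mono_left nhdsWithin_le_nhds
  have h5 : Tendsto (fun s : ℂ => h (s, w) - P (s, w)) (𝓝[≠] 0) (𝓝 0) := by
    refine squeeze_zero_norm' (a := fun s : ℂ => C * ‖s‖) ?_ ?_
    · rw [eventually_nhdsWithin_iff]
      filter_upwards [hw.1] with s hs hs0
      exact hs hs0
    · have h6 : Tendsto (fun s : ℂ => C * ‖s‖) (𝓝 0) (𝓝 (C * ‖(0 : ℂ)‖)) := (continuous_const.mul continuous_norm).tendsto 0
      rw [norm_zero, mul_zero] at h6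
      exact h6.mono_left nhdsWithin_le_nhds
  exact sub_eq_zero.1 (tendsto_nhds_unique h4 h5)

theorem norm_bl_le (c : ℂ) : ∀ᶠ x in 𝓝 (0 : ℂ × ℂ), ‖bl c x‖ ≤ (2 + ‖c‖) * ‖x.1‖ := by
  filter_upwards [Metric.ball_mem_nhds (0 : ℂ × ℂ) one_pos] with x hx
  rw [mem_ball_zero_iff] at hx
  have h1 : ‖x.2‖ ≤ 1 := (norm_snd_le x).trans hx.le
  rw [bl, Prod.norm_mk, norm_mul]
  refine max_le ?_ ?_
  · nlinarith [norm_nonneg x.1, norm_nonneg c]
  · have h2 : ‖c + x.2‖ ≤ ‖c‖ + 1 := (norm_add_le _ _).trans (by linarith)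
    nlinarith [norm_nonneg x.1, norm_nonneg c]

theorem hpol_bl (γ : ℕ → ℂ) (p : ℕ) (x c : ℂ) : hpol γ p x (x * c) = x ^ p * hpol γ p 1 c := by
  unfold hpol
  rw [Finset.mul_sum]
  refine Finset.sum_congr rfl fun j hj => ?_
  have h1 : j ≤ p := Nat.lt_succ_iff.1 (Finset.mem_range.1 hj)
  have h2 : x ^ p = x ^ (p - j) * x ^ j := by
    rw [← pow_add]
    congr 1
    omega
  rw [h2, one_pow, mul_pow]
  ring

theorem hpol_swap (γ : ℕ → ℂ) (p : ℕ) (a b : ℂ) : hpol γ p a b = hpol (fun j => γ (p - j)) p b a := by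
  unfold hpol
  rw [← Finset.sum_range_reflect]
  refine Finset.sum_congr rfl fun j hj => ?_
  have h1 : j ≤ p := Nat.lt_succ_iff.1 (Finset.mem_range.1 hj)
  have h2 : p + 1 - 1 - j = p - j := by omega
  have h3 : p - (p - j) = j := by omega
  rw [h2, h3]
  ring

theorem bl_chart {f : ℂ × ℂ → ℂ} (hf : AnalyticAt ℂ f 0) {p : ℕ} {γ : ℕ → ℂ} (hO : f =O[𝓝 0] fun x => ‖x‖ ^ p)
    (hγ : (fun x => f x - hpol γ p x.1 x.2) =O[𝓝 0] fun x => ‖x‖ ^ (p + 1)) (c : ℂ) :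
    ∃ h : ℂ × ℂ → ℂ, AnalyticAt ℂ h 0 ∧ (∀ᶠ x in 𝓝 (0 : ℂ × ℂ), f (bl c x) = x.1 ^ p * h x) ∧
      ∀ᶠ w in 𝓝 (0 : ℂ), h (0, w) = hpol γ p 1 (c + w) := by
  have ht : Tendsto (bl c) (𝓝 0) (𝓝 0) := by
    have := (analyticAt_bl c 0).continuousAt.tendsto
    rwa [bl_zero] at this
  have hg : AnalyticAt ℂ (fun x => f (bl c x)) 0 := by
    have h1 : AnalyticAt ℂ f (bl c 0) := by rw [bl_zero]; exact hf
    exact AnalyticAt.comp (g := f) (f := bl c) h1 (analyticAt_bl c 0)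
  have hpow : ∀ k : ℕ, (fun x : ℂ × ℂ => ‖bl c x‖ ^ k) =O[𝓝 0] fun x : ℂ × ℂ => x.1 ^ k := by
    intro k
    refine IsBigO.of_bound ((2 + ‖c‖) ^ k) ?_
    filter_upwards [norm_bl_le c] with x hx
    rw [norm_pow, norm_norm, norm_pow, ← mul_pow]
    exact pow_le_pow_left₀ (norm_nonneg _) hx k
  have h1 : (fun x => f (bl c x)) =O[𝓝 0] fun x : ℂ × ℂ => x.1 ^ p := (hO.comp_tendsto ht).trans (hpow p)
  obtain ⟨h, hh, he⟩ := exists_div_pow hg h1
  refine ⟨h, hh, he, ?_⟩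
  have h2 := exc_value (g := fun x => f (bl c x)) (P := fun x : ℂ × ℂ => hpol γ p 1 (c + x.2)) hh he ?_ ?_
  · simpa using h2
  · unfold hpol
    fun_prop
  · refine (((hγ.comp_tendsto ht).trans (hpow (p + 1)))).congr_left fun x => ?_
    simp only [Function.comp_apply, bl]
    rw [hpol_bl]

/-- the blow-up of a germ which vanishes of order `≥ p` -/
theorem ord_blow {f : ℂ × ℂ → ℂ} (hf : AnalyticAt ℂ f 0) {p : ℕ} (hO : f =O[𝓝 0] fun x => ‖x‖ ^ p) :
    ∃ γ : ℕ → ℂ,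
      (∀ c : ℂ, ∃ h : ℂ × ℂ → ℂ, AnalyticAt ℂ h 0 ∧ (∀ᶠ x in 𝓝 (0 : ℂ × ℂ), f (bl c x) = x.1 ^ p * h x) ∧
        ∀ᶠ w in 𝓝 (0 : ℂ), h (0, w) = hpol γ p 1 (c + w)) ∧
      (∃ h : ℂ × ℂ → ℂ, AnalyticAt ℂ h 0 ∧ (∀ᶠ x in 𝓝 (0 : ℂ × ℂ), f (blInf x) = x.2 ^ p * h x) ∧
        ∀ᶠ w in 𝓝 (0 : ℂ), h (w, 0) = hpol γ p w 1) ∧
      ((∀ j ≤ p, γ j = 0) → f =O[𝓝 0] fun x => ‖x‖ ^ (p + 1)) := by
  obtain ⟨γ, hγ⟩ := exists_init hf hO
  refine ⟨γ, fun c => bl_chart hf hO hγ c, ?_, ?_⟩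
  · have hsw : AnalyticAt ℂ (fun x : ℂ × ℂ => (x.2, x.1)) 0 := analyticAt_snd.prod analyticAt_fst
    have hst : Tendsto (fun x : ℂ × ℂ => (x.2, x.1)) (𝓝 0) (𝓝 0) := (continuous_snd.prodMk continuous_fst).tendsto' _ _ rfl
    have hf' : AnalyticAt ℂ (fun x : ℂ × ℂ => f (x.2, x.1)) 0 := by
      have h1 : AnalyticAt ℂ f ((fun x : ℂ × ℂ => (x.2, x.1)) 0) := hf
      exact AnalyticAt.comp (g := f) (f := fun x : ℂ × ℂ => (x.2, x.1)) h1 hsw
    have hn : ∀ x : ℂ × ℂ, ‖((x.2, x.1) : ℂ × ℂ)‖ = ‖x‖ := fun x => by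
      rw [Prod.norm_mk, Prod.norm_def, max_comm]
    have hO' : (fun x : ℂ × ℂ => f (x.2, x.1)) =O[𝓝 0] fun x => ‖x‖ ^ p := by
      refine (hO.comp_tendsto hst).congr (fun x => rfl) fun x => ?_
      simp only [Function.comp_apply, hn]
    have hγ' : (fun x : ℂ × ℂ => f (x.2, x.1) - hpol (fun j => γ (p - j)) p x.1 x.2) =O[𝓝 0] fun x => ‖x‖ ^ (p + 1) := by
      refine (hγ.comp_tendsto hst).congr (fun x => ?_) fun x => ?_
      · simp only [Function.comp_apply]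
        rw [← hpol_swap]
      · simp only [Function.comp_apply, hn]
    obtain ⟨h, hh, he, hw⟩ := bl_chart hf' hO' hγ' 0
    refine ⟨fun x => h (x.2, x.1), ?_, ?_, ?_⟩
    · have h1 : AnalyticAt ℂ h ((fun x : ℂ × ℂ => (x.2, x.1)) 0) := hh
      exact AnalyticAt.comp (g := h) (f := fun x : ℂ × ℂ => (x.2, x.1)) h1 hsw
    · filter_upwards [hst.eventually he] with x hx
      rw [← hx]
      simp only [bl, blInf, zero_add]
      congr 2
      ring
    · filter_upwards [hw] with w hw'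
      rw [hw', zero_add, ← hpol_swap]
  · intro h0
    refine hγ.congr_left fun x => ?_
    have h1 : hpol γ p x.1 x.2 = 0 := Finset.sum_eq_zero fun j hj => by
      rw [h0 j (Nat.lt_succ_iff.1 (Finset.mem_range.1 hj)), zero_mul, zero_mul]
    rw [h1, sub_zero]

end Pool.Agent.MW

end
end

section

/-!
# TB Defs: two-sided bounds of the metric

`oC Ω σ p` is the coefficient of the form in the parametrisation `σ`, `sm κ p w` the model of the metric near a smooth point of `T = {s = 0}`,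
where `p = (s, t)`: the maximum of `‖s'‖` and `‖s‖ ^ (1 - κ) * ‖t'‖`.

`EnergyB`: the energy `g` with
* the unreduced weight `pn`, a continuous function, homogeneous of degree `D₁` (`D₁ = 2 ^ (number of the blow-ups)`), `pn = ‖·‖` in the nodal case,
  `pn = pn' ∘ phi l` for a blow-up;
* the curvature with respect to this weight, with the exponent `θ * j / (m * D₁)`;
* the upper bound `ub`, along every entire curve, by the coefficient of the form and `pn ^ (j / (m * D₁))`.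

`TBAt`: the two-sided bound of the metric at a point `x` where `T` is smooth.
-/

set_option autoImplicit false

open Topology Filter Metric

namespace Pool.Agent.H36.TB

open Pool.Agent.H36.BP (EN fs wd Sub)
open Pool.Agent.H17BP (Pr Surface IsForm NoZeros Eqs IsChart)
open Pool.Agent.SY (Ent Energy ModelS)

/-- a metric along entire curves, with the unreduced weight -/
structure EnergyB {V : Type} [NormedAddCommGroup V] [NormedSpace ℂ V] (X T : Set V) (m j : ℕ) (Ω : V → V → V → ℂ) (nu rho : V → ℝ)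
    (M : ℕ) (c₀ C : ℝ) (g : (ℂ → V) → ℂ → ℝ) (pn : V → ℝ) (D₁ : ℕ) (θ : ℝ) : Prop extends Energy X T nu rho M c₀ C g where
  one_le : 1 ≤ D₁
  pn_cont : Continuous pn
  pn_nonneg : ∀ x, 0 ≤ pn x
  pn_smul : ∀ (c : ℂ) x, pn (c • x) = ‖c‖ ^ D₁ * pn x
  subP : ∀ F, Ent X T F → ∀ z, 0 < g F z →
    Sub (fun w => g F w * pn (F w) ^ (-(θ * j / (m * D₁)))) z (-(C * g F z ^ 2))
  ub : ∀ F, Ent X T F → ∀ z₀ σ τ, IsChart X σ τ → σ 0 = F z₀ →
    ∃ B : ℝ, 0 < B ∧ ∀ᶠ z in 𝓝 z₀, g F z ≤ B * ‖oC Ω σ (τ (F z))‖ ^ (1 / (m : ℝ)) * pn (F z) ^ ((j : ℝ) / (m * D₁))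

/-- the two-sided bound of the metric at the point `x`, where `T` is smooth -/
def TBAt {V : Type} [NormedAddCommGroup V] [NormedSpace ℂ V] (X T : Set V) (m : ℕ) (Ω : V → V → V → ℂ) (g : (ℂ → V) → ℂ → ℝ)
    (pn : V → ℝ) (κ : ℝ) (x : V) : Prop :=
  ∀ σ τ, IsChart X σ τ → σ 0 = x → (∀ᶠ p in 𝓝 (0 : ℂ × ℂ), (σ p ∈ T ↔ p.1 = 0)) →
    ∃ B : ℝ, 1 ≤ B ∧ ∀ᶠ y in 𝓝 x, B⁻¹ ≤ pn y ∧ pn y ≤ B ∧ ∀ F, Ent X T F → ∀ z, F z = y →
      ‖oC Ω σ (τ y)‖ ^ (1 / (m : ℝ)) * sm κ (τ y) (deriv (fun w => τ (F w)) z) ≤ B * g F z ∧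
      g F z ≤ B * (‖oC Ω σ (τ y)‖ ^ (1 / (m : ℝ)) * sm κ (τ y) (deriv (fun w => τ (F w)) z))

end Pool.Agent.H36.TB

end

section

/-!
# SY BdZ: Zalcman's rescaling with the metric `g`, in a small disc
-/

set_option autoImplicit false

open Topology Filter Metric

noncomputable section

namespace Pool.Agent.SY

open Pool.Agent.H36.BP (EN)

variable {N : ℕ} {X T : Set (EN N)} {rho : EN N → ℝ} {M : ℕ} {c₀ C : ℝ} {g : (ℂ → EN N) → ℂ → ℝ}

/-- product of a nonnegative upper semicontinuous function and a nonnegative continuous function -/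
private theorem usc_mul' {α : Type*} [TopologicalSpace α] {S : Set α} {u k : α → ℝ} (hu : UpperSemicontinuousOn u S)
    (hk : ContinuousOn k S) (hu0 : ∀ x ∈ S, 0 ≤ u x) (hk0 : ∀ x ∈ S, 0 ≤ k x) :
    UpperSemicontinuousOn (fun x => u x * k x) S := by
  intro x hx y hy
  have ht : Tendsto (fun ε : ℝ => (u x + ε) * (k x + ε)) (𝓝[>] 0) (𝓝 ((u x + 0) * (k x + 0))) := by
    apply tendsto_nhdsWithin_of_tendsto_nhds
    have hc : Continuous (fun ε : ℝ => (u x + ε) * (k x + ε)) := by fun_prop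
    exact hc.tendsto 0
  have hy' : (u x + 0) * (k x + 0) < y := by simpa using hy
  obtain ⟨ε, hε1, hε2⟩ := ((ht.eventually_lt_const hy').and self_mem_nhdsWithin).exists
  have hε : (0 : ℝ) < ε := hε2
  have h1 : ∀ᶠ x' in 𝓝[S] x, u x' < u x + ε := hu x hx _ (by linarith)
  have h2 : ∀ᶠ x' in 𝓝[S] x, k x' < k x + ε := (hk x hx).eventually_lt_const (by linarith)
  filter_upwards [h1, h2, self_mem_nhdsWithin] with x' h1' h2' hx'
  refine lt_of_le_of_lt ?_ hε1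
  exact mul_le_mul h1'.le h2'.le (hk0 x' hx') (by linarith [hu0 x hx])

/-- Zalcman's rescaling with the metric `g`, in the disc of radius `s / 2` about `zc` -/
theorem rescale_g_loc {nu : EN N → ℝ} (E : Energy X T nu rho M c₀ C g) {F : ℂ → EN N} (hF : Ent X T F) (k : ℕ) {zc : ℂ} {s : ℝ} (hs : 0 < s)
    (hz : 4 * ((k : ℝ) + 1) < s * g F zc) :
    ∃ (ρ : ℝ) (b : ℂ), 0 < ρ ∧ 4 * ((k : ℝ) + 1) * ρ < s ∧ ‖b - zc‖ ≤ s / 2 ∧ g (fun w => F ((ρ : ℂ) * w + b)) 0 = 1 ∧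
      ∀ z ∈ ball (0 : ℂ) (k + 1), g (fun w => F ((ρ : ℂ) * w + b)) z ≤ 2 := by
  have hn : (0 : ℝ) ≤ k := Nat.cast_nonneg k
  obtain ⟨u, hu⟩ : ∃ u : ℂ → ℝ, u = fun z => g F (zc + z) * (s / 2 - ‖z‖) := ⟨_, rfl⟩
  have husc : UpperSemicontinuousOn u (closedBall (0 : ℂ) (s / 2)) := by
    rw [hu]
    refine usc_mul' ?_ (by fun_prop) (fun x _ => E.nonneg F hF _) ?_
    · intro x _ y hy
      have h1 : Tendsto (fun z : ℂ => zc + z) (𝓝 x) (𝓝 (zc + x)) := by
        have hc : Continuous (fun z : ℂ => zc + z) := by fun_prop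
        exact hc.tendsto x
      exact mem_nhdsWithin_of_mem_nhds (h1.eventually (E.usc F hF (zc + x) y hy))
    · intro x hx
      have : ‖x‖ ≤ s / 2 := by simpa using hx
      linarith
  have h0m : (0 : ℂ) ∈ closedBall (0 : ℂ) (s / 2) := mem_closedBall_self (by positivity)
  obtain ⟨z₀, hz₀, hmax⟩ := husc.exists_isMaxOn ⟨0, h0m⟩ (isCompact_closedBall _ _)
  have hz₀n : ‖z₀‖ ≤ s / 2 := by simpa using hz₀
  have h0 : u 0 ≤ u z₀ := hmax h0m
  have hu0 : u 0 = s * g F zc / 2 := by simp only [hu, norm_zero, add_zero]; ring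
  have hm : 2 * ((k : ℝ) + 1) < u z₀ := by rw [hu0] at h0; linarith
  obtain ⟨d, hd⟩ : ∃ d : ℝ, d = s / 2 - ‖z₀‖ := ⟨_, rfl⟩
  have hd0 : 0 ≤ d := by rw [hd]; linarith
  have hd1 : d ≤ s / 2 := by rw [hd]; linarith [norm_nonneg z₀]
  obtain ⟨a, ha⟩ : ∃ a : ℝ, a = g F (zc + z₀) := ⟨_, rfl⟩
  have ha0 : 0 ≤ a := by rw [ha]; exact E.nonneg F hF _
  have huz : u z₀ = a * d := by rw [hu, ha, hd]
  have hmd : 2 * ((k : ℝ) + 1) < a * d := by rw [← huz]; exact hm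
  have hpos : 0 < a * d := by linarith
  have hapos : 0 < a := by
    rcases ha0.lt_or_eq with h | h
    · exact h
    · rw [← h] at hpos; simp at hpos
  have hdpos : 0 < d := by
    rcases hd0.lt_or_eq with h | h
    · exact h
    · rw [← h] at hpos; simp at hpos
  have hbig : 4 * ((k : ℝ) + 1) < a * s := by
    have h1 : a * d ≤ a * (s / 2) := mul_le_mul_of_nonneg_left hd1 hapos.le
    linarith
  have hac : (((a⁻¹ : ℝ)) : ℂ) ≠ 0 := by exact_mod_cast inv_ne_zero hapos.ne'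
  have haff : ∀ z, g (fun w => F (((a⁻¹ : ℝ) : ℂ) * w + (zc + z₀))) z = a⁻¹ * g F (((a⁻¹ : ℝ) : ℂ) * z + (zc + z₀)) := by
    intro z
    rw [E.aff F hF _ _ hac z, Complex.norm_real, Real.norm_of_nonneg (by positivity)]
  refine ⟨a⁻¹, zc + z₀, inv_pos.2 hapos, ?_, ?_, ?_, ?_⟩
  · rw [← div_eq_mul_inv, div_lt_iff₀ hapos, mul_comm s a]
    exact hbig
  · rw [add_sub_cancel_left]
    exact hz₀n
  · rw [haff, mul_zero, zero_add, ← ha]
    exact inv_mul_cancel₀ hapos.ne'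
  · intro ζ hζ
    have hζn : ‖ζ‖ < k + 1 := by simpa using hζ
    obtain ⟨y, hy⟩ : ∃ y : ℂ, y = z₀ + ((a⁻¹ : ℝ) : ℂ) * ζ := ⟨_, rfl⟩
    have h1 : ‖y‖ ≤ ‖z₀‖ + a⁻¹ * ‖ζ‖ := by
      rw [hy]
      calc ‖z₀ + ((a⁻¹ : ℝ) : ℂ) * ζ‖ ≤ ‖z₀‖ + ‖((a⁻¹ : ℝ) : ℂ) * ζ‖ := norm_add_le _ _
        _ = ‖z₀‖ + a⁻¹ * ‖ζ‖ := by
          rw [norm_mul, Complex.norm_real, Real.norm_of_nonneg (by positivity)]
    have h2 : a⁻¹ * ‖ζ‖ ≤ d / 2 := by
      rw [inv_mul_le_iff₀ hapos]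
      linarith
    have h3 : ‖z₀‖ = s / 2 - d := by rw [hd]; ring
    have h4 : ‖y‖ ≤ s / 2 - d / 2 := by linarith
    have hyb : y ∈ closedBall (0 : ℂ) (s / 2) := by
      rw [mem_closedBall_zero_iff]
      linarith
    have h5 : u y ≤ u z₀ := hmax hyb
    have h6 : u y = g F (zc + y) * (s / 2 - ‖y‖) := by rw [hu]
    rw [h6, huz] at h5
    have h7 : 0 ≤ g F (zc + y) := E.nonneg F hF _
    have h8 : g F (zc + y) * (d / 2) ≤ a * d := le_trans (mul_le_mul_of_nonneg_left (by linarith) h7) h5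
    have h9 : g F (zc + y) ≤ 2 * a := by
      by_contra hc
      push Not at hc
      have : 2 * a * (d / 2) < g F (zc + y) * (d / 2) := mul_lt_mul_of_pos_right hc (by linarith)
      linarith
    rw [haff, inv_mul_le_iff₀ hapos]
    have h10 : ((a⁻¹ : ℝ) : ℂ) * ζ + (zc + z₀) = zc + y := by rw [hy]; ring
    rw [h10]
    linarith

end Pool.Agent.SY

end
end

section

/-!
# SY EiN: the metric along entire curves, the nodal case

`H14.KB.nodal_metric` gives the metric on the cone `L.symm ⁻¹' X` in `EN N`, `energy_of_metric` the metric along the entire curves in it; both are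
pulled back by `L`.
-/

set_option autoImplicit false

open Topology Filter Metric

noncomputable section

namespace Pool.Agent.SY

open Pool.Agent.H36.BP (EN fs wd Sub MetricData mt Curve)
open Pool.Agent.H17BP (Pr Surface IsForm NoZeros NodalAt Eqs IsChart)
open Pool.Agent.H14.PP (IsCone)

variable {V : Type} [NormedAddCommGroup V] [NormedSpace ℂ V]

/-- curves in the transported cone -/
theorem ent_transport {N : ℕ} (L : V ≃L[ℂ] EN N) {X T : Set V} {F : ℂ → V} (hF : Ent X T F) :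
    Ent (L.symm ⁻¹' X : Set (EN N)) (L.symm ⁻¹' T) (fun z => L (F z)) := by
  refine ⟨(L : V →L[ℂ] EN N).differentiable.comp hF.diff, fun z => ?_, ?_⟩
  · show L.symm (L (F z)) ∈ X
    rw [L.symm_apply_apply]
    exact hF.mem z
  · obtain ⟨z, hz⟩ := hF.out
    refine ⟨z, fun h => hz ?_⟩
    have h1 : L.symm (L (F z)) ∈ T := h
    rwa [L.symm_apply_apply] at h1

/-- transport of the energy by a linear equivalence -/
theorem energy_transport {N : ℕ} (L : V ≃L[ℂ] EN N) {X T : Set V} {rho' : EN N → ℝ} {rho : V → ℝ} {M : ℕ} {c₀ C : ℝ}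
    {g' : (ℂ → EN N) → ℂ → ℝ} (E : Energy (L.symm ⁻¹' X : Set (EN N)) (L.symm ⁻¹' T) (fun x => ‖x‖) rho' M c₀ C g')
    {A K₁ : ℝ} (hA : 0 ≤ A) (hK₁ : 0 ≤ K₁) (h0 : ∀ x ∈ X, 0 ≤ rho x) (hr' : ∀ x ∈ X, 0 ≤ rho' (L x)) (hr : ∀ x ∈ X, rho x ≤ A * rho' (L x))
    (hb : ∀ x ∈ X, rho x ≤ K₁) :
    ∃ C' : ℝ, Energy X T (fun x => ‖L x‖) rho (M + 1) c₀ C' (fun F => g' (fun z => L (F z))) := by
  set a₁ : ℝ := ‖(L : V →L[ℂ] EN N)‖ with ha₁
  set a₂ : ℝ := ‖(L.symm : EN N →L[ℂ] V)‖ with ha₂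
  have ha₁0 : 0 ≤ a₁ := norm_nonneg _
  have ha₂0 : 0 ≤ a₂ := norm_nonneg _
  set C' : ℝ := max C (K₁ * (A ^ M * (a₂ * (C * a₁)))) with hC'
  have hCC : C ≤ C' := le_max_left _ _
  refine ⟨C', E.c₀_pos, E.C_pos.trans_le hCC, fun F hF z => E.nonneg _ (ent_transport L hF) z,
    fun F hF z a ha => E.usc _ (ent_transport L hF) z a ha, fun F hF a b ha z => E.aff _ (ent_transport L hF) a b ha z, ?_, ?_, ?_, ?_⟩
  · intro F hF h hh h0' z
    have h1 := E.unit _ (ent_transport L hF) h hh h0' z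
    have h2 : (fun w => L (h w • F w)) = fun w => h w • L (F w) := by
      funext w
      rw [map_smul]
    show g' (fun w => L (h w • F w)) z = _
    rw [h2]
    exact h1
  · intro F hF z hz
    obtain ⟨h1, h2⟩ := E.sub _ (ent_transport L hF) z hz
    refine ⟨h1, fun t ht => h2 t (lt_of_lt_of_le ht ?_)⟩
    have h3 := mul_le_mul_of_nonneg_right hCC (sq_nonneg (g' (fun z => L (F z)) z))
    linarith
  · intro F hF z
    obtain ⟨a, ha⟩ := E.lower _ (ent_transport L hF) z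
    refine ⟨a, ?_⟩
    have hFX := hF.mem z
    have hd : deriv (fun z => L (F z)) z = L (deriv F z) := by
      have h2 : HasDerivAt (fun z => L (F z)) (L (deriv F z)) z :=
        (L : V →L[ℂ] EN N).hasFDerivAt.comp_hasDerivAt z (hF.diff z).hasDerivAt
      exact h2.deriv
    rw [hd] at ha
    have h2 : L (deriv F z) - a • L (F z) = L (deriv F z - a • F z) := by
      rw [map_sub, map_smul]
    rw [h2] at ha
    have h3 : ‖deriv F z - a • F z‖ ≤ a₂ * ‖L (deriv F z - a • F z)‖ := by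
      have := (L.symm : EN N →L[ℂ] V).le_opNorm (L (deriv F z - a • F z))
      have e : (L.symm : EN N →L[ℂ] V) (L (deriv F z - a • F z)) = deriv F z - a • F z :=
        L.symm_apply_apply _
      rwa [e] at this
    have h4 : ‖L (F z)‖ ≤ a₁ * ‖F z‖ := (L : V →L[ℂ] EN N).le_opNorm _
    have h5 := hr _ hFX
    have h6 := hb _ hFX
    have h7 := h0 _ hFX
    have h8 := hr' _ hFX
    have hg : 0 ≤ g' (fun z => L (F z)) z := E.nonneg _ (ent_transport L hF) z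
    have hC0 := E.C_pos.le
    calc rho (F z) ^ (M + 1) * ‖deriv F z - a • F z‖
        = rho (F z) * (rho (F z) ^ M * ‖deriv F z - a • F z‖) := by rw [pow_succ]; ring
      _ ≤ K₁ * ((A * rho' (L (F z))) ^ M * (a₂ * ‖L (deriv F z - a • F z)‖)) := by gcongr
      _ = K₁ * (A ^ M * (a₂ * (rho' (L (F z)) ^ M * ‖L (deriv F z - a • F z)‖))) := by
          rw [mul_pow]; ring
      _ ≤ K₁ * (A ^ M * (a₂ * (C * ‖L (F z)‖ * g' (fun z => L (F z)) z))) := by gcongr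
      _ ≤ K₁ * (A ^ M * (a₂ * (C * (a₁ * ‖F z‖) * g' (fun z => L (F z)) z))) := by gcongr
      _ = K₁ * (A ^ M * (a₂ * (C * a₁))) * ‖F z‖ * g' (fun z => L (F z)) z := by ring
      _ ≤ C' * ‖F z‖ * g' (fun z => L (F z)) z := by
          have h9 : K₁ * (A ^ M * (a₂ * (C * a₁))) ≤ C' := le_max_right _ _
          gcongr
  · intro l hl r A' ε hr0 hε F H hF hA' hB hc hH
    obtain ⟨h, hh, hlim⟩ := hc
    have hlim' : TendstoLocallyUniformlyOn (fun n z => h n z • L (F n z)) (fun z => L (H z)) l (ball 0 r) := by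
      have h1 : TendstoLocallyUniformlyOn (fun n z => L (h n z • F n z)) (fun z => L (H z)) l (ball 0 r) := by
        intro U hU x hx
        have h2 : UniformContinuous (fun y : V => L y) := (L : V →L[ℂ] EN N).uniformContinuous
        obtain ⟨t, ht, h3⟩ := hlim _ (h2 hU) x hx
        exact ⟨t, ht, h3⟩
      have h2 : (fun n z => L (h n z • F n z)) = fun n z => h n z • L (F n z) := by
        funext n z
        rw [map_smul]
      rwa [h2] at h1
    obtain ⟨⟨z, hz, hzT⟩, ⟨x, hx, y, hy, hxy⟩⟩ := E.lim l hl r A' ε hr0 hε (fun n z => L (F n z)) (fun z => L (H z))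
      (hF.mono fun n hn => ent_transport L hn) hA' hB ⟨h, hh, hlim'⟩ (fun z hz => by
        show L.symm (L (H z)) ∈ X
        rw [L.symm_apply_apply]
        exact hH z hz)
    refine ⟨⟨z, hz, fun h1 => hzT ?_⟩, ⟨x, hx, y, hy, fun h1 => hxy ?_⟩⟩
    · show L.symm (L (H z)) ∈ T
      rwa [L.symm_apply_apply]
    · obtain ⟨c, hc, e⟩ := h1
      exact ⟨c, hc, by show L (H x) = c • L (H y); rw [e, map_smul]⟩

def EiN_Q {κ : Type} [Fintype κ] (Q : κ → V → ℂ) (x : V) : EuclideanSpace ℂ κ := WithLp.toLp 2 (fun i => Q i x)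

end Pool.Agent.SY

end
end
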