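import Pool.Agent.H94.G6.M08
import Pool.Agent.H94.G6.M10
import Pool.Agent.H94.G6.M46
import Pool.Agent.H94.G6.M51
import Pool.Agent.H94.G6.M53
import Pool.Agent.H94.G6.M58
import Pool.Agent.H94.G6.M67

/-! The parts of this file: H13.CV.RatB, H22.WL.Proj, H5.BD.AHalf, H5.BD.AFin, H62.BU.Main, H5.BD.CAff, MQ.CoreD, MQ3.LogS0. -/

section

/-!
# CV RatB: rational function fields

Let `K = ℂ(t)`; `t` is transcendental (`hK.exists_tr`: if `t` were algebraic then all elements of `K` would be algebraic).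
(1) `mob`: `IntermediateField.adjoin ℂ {t'} = ⊤` for `t' = t - c`, `t⁻¹`, `c t` (`c ≠ 0`): `t` is in `adjoin ℂ {t'}`.
(2) `oz_eq`: if `adjoin ℂ {s} = ⊤` then there is at most one place with `0 < ord s`, and `oz E s = 1` there (`sum_le` with `L = ⊤ = ℂ(s)`, `finrank ⊤ K = 1`, or with `T = {E}` and `T = {E, E'}`).  The same
for `ord s < 0` and `oz E s = -1` (`s⁻¹`).
(3) Given places `E₁ ≠ E₂` there is `s` with `adjoin ℂ {s} = ⊤`, `0 < ord_{E₁} s`, `ord_{E₂} s < 0`: replacing `t` by `t⁻¹` if necessary we may assume that `t` has a value `c₂` at `E₂` (`exists_value`), replacing it by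
`(t - c₂)⁻¹` we may assume that `ord_{E₂} t < 0`; by (2) `t` has no pole at `E₁`, so it has a value `c₁`: `s = t - c₁`.
(4) If all places in `B` are among two places `E₁, E₂`: if `E₁ ≠ E₂` take `t' = s` as in (3); if `E₁ = E₂` choose `t' = t - c` or `t` with `oz E₁ t' ≠ 0`.  If `B` is empty: `t' = t`.
(5) Otherwise there are three different places `E₁, E₂, E₃` in `B`.  `s` as in (3); at `E₃` it has no pole and no zero (2), so it has a value `c ≠ 0`; replace `s` by `s / c`, so that the value at `E₃` is `1`.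
`lgt_of_forms` with `m = 1`, `ω = dx s`, `f₀ = s⁻¹`, `f₁ = (s - 1)⁻¹`; `f₁ / f₀ = s / (s - 1)` is not a constant.  Check at a place `E` with `pole_mk` (`p = 1` in `B`, `p = 0` otherwise):
* `0 < ord s`: `E = E₁`, `oz E s = 1`, `oz E f₀ = -1`, `oz E f₁ = 0`: `-1 + (1 - 1) + 1 ≥ 0`.
* `ord s < 0`: `E = E₂`, `oz E s = -1`, `oz E f₀ = oz E f₁ = 1`: `1 + (-1 - 1) + 1 ≥ 0`.
* otherwise `s` has a value `c ≠ 0` at `E`; `dx s = dx (s - c)` (`dx_sub_const`) and `oz E (s - c) = 1` by (2).  If `c = 1` then `E = E₃` by (2) for `s - 1`: `oz E f₁ = -1`, `oz E f₀ = 0`: `-1 + 0 + 1 ≥ 0`.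
If `c ≠ 1`: `oz E f₀ = oz E f₁ = 0`.
-/

set_option autoImplicit false

open Pool.Agent.H23.Fano (PrimeDivisorOver Form regularForms)
open Pool.Agent.H17LG.Variety (PoleAtMost IsLogGeneralType)

noncomputable section

namespace Pool.Agent.H13.CV

variable {K : Type} [Field K] [Algebra ℂ K]

private lemma tr_of_top (hK : CurveField K) {t : K} (ht : IntermediateField.adjoin ℂ {t} = ⊤) : Transcendental ℂ t := by
  by_contra hal
  obtain ⟨c, hc⟩ : ∃ c : ℂ, t = algebraMap ℂ K c := by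
    by_contra h
    push Not at h
    exact hal (transcendental_of_not_const h)
  obtain ⟨x, hx⟩ := hK.exists_tr
  have h1 : IntermediateField.adjoin ℂ {t} = (⊥ : IntermediateField ℂ K) := by
    rw [IntermediateField.adjoin_simple_eq_bot_iff, IntermediateField.mem_bot]
    exact ⟨c, hc.symm⟩
  have h2 : x ∈ (⊥ : IntermediateField ℂ K) := by
    rw [← h1, ht]
    exact IntermediateField.mem_top
  rw [IntermediateField.mem_bot] at h2
  obtain ⟨d, hd⟩ := h2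
  exact hx (hd ▸ isAlgebraic_algebraMap d)

private lemma gen_top (hK : CurveField K) {t : K} (ht : IntermediateField.adjoin ℂ {t} = ⊤) : Gen (⊤ : IntermediateField ℂ K) t :=
  ⟨tr_of_top hK ht, ht.symm⟩

private lemma fin_top : FiniteDimensional (⊤ : IntermediateField ℂ K) K :=
  Module.finite_of_finrank_pos (by rw [IntermediateField.finrank_top]; norm_num)

private lemma one_le_oz {s : K} (hs : Gen (⊤ : IntermediateField ℂ K) s) {E : Place K} (hE : 0 < E.ord s) : 1 ≤ oz E s :=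
  (pos_iff.1 hE).resolve_left hs.ne_zero

private lemma oz_zero_eq {s : K} (hs : Gen (⊤ : IntermediateField ℂ K) s) {E : Place K} (hE : 0 < E.ord s) : oz E s = 1 := by
  have := fin_top (K := K)
  have h1 := sum_le hs {E} (by
    intro E' hE'
    rw [Finset.mem_singleton] at hE'
    rwa [hE'])
  rw [Finset.sum_singleton, IntermediateField.finrank_top] at h1
  have h2 := one_le_oz hs hE
  push_cast at h1
  omega

private lemma zero_uniq {s : K} (hs : Gen (⊤ : IntermediateField ℂ K) s) {E E' : Place K} (hE : 0 < E.ord s) (hE' : 0 < E'.ord s) : E = E' := by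
  classical
  by_contra hne
  have := fin_top (K := K)
  have h1 := sum_le hs {E, E'} (by
    intro E'' hE''
    rw [Finset.mem_insert, Finset.mem_singleton] at hE''
    rcases hE'' with h | h
    · rwa [h]
    · rwa [h])
  rw [Finset.sum_pair hne, IntermediateField.finrank_top] at h1
  have h2 := one_le_oz hs hE
  have h3 := one_le_oz hs hE'
  push_cast at h1
  omega

private lemma oz_pole_eq {s : K} (hs : Gen (⊤ : IntermediateField ℂ K) s) {E : Place K} (hE : E.ord s < 0) : oz E s = -1 := by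
  have h1 := oz_zero_eq hs.inv ((inv_pos_iff hs.ne_zero).2 hE)
  rw [oz_inv] at h1
  omega

private lemma pole_uniq {s : K} (hs : Gen (⊤ : IntermediateField ℂ K) s) {E E' : Place K} (hE : E.ord s < 0) (hE' : E'.ord s < 0) : E = E' :=
  zero_uniq hs.inv ((inv_pos_iff hs.ne_zero).2 hE) ((inv_pos_iff hs.ne_zero).2 hE')

private lemma pole_sub {s : K} {E : Place K} (hE : E.ord s < 0) (c : ℂ) : E.ord (s - algebraMap ℂ K c) < 0 := by
  by_contra h
  push Not at h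
  have h1 := nonneg_add h (const_nonneg E c)
  rw [sub_add_cancel] at h1
  exact absurd hE (not_lt.2 h1)

private lemma oz_sub {s : K} (hs : Gen (⊤ : IntermediateField ℂ K) s) {E : Place K} {a b : ℂ} (h : 0 < E.ord (s - algebraMap ℂ K a)) (hab : a ≠ b) :
    oz E (s - algebraMap ℂ K b) = 0 := by
  have h1 : oz E (s - algebraMap ℂ K a) = 1 := oz_zero_eq (hs.sub_const a) h
  have h2 : (algebraMap ℂ K (a - b)) ≠ 0 := by
    rw [Ne, map_eq_zero, sub_eq_zero]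
    exact hab
  have h3 := (oz_add_of_lt E h2 (hs.sub_const a).ne_zero (by rw [oz_const, h1]; norm_num)).2
  rw [oz_const] at h3
  rw [← h3]
  congr 1
  rw [map_sub]
  ring

private lemma exists_two (hK : CurveField K) {t : K} (ht : Gen (⊤ : IntermediateField ℂ K) t) {E₁ E₂ : Place K} (hne : E₁ ≠ E₂) :
    ∃ s : K, Gen (⊤ : IntermediateField ℂ K) s ∧ 0 < E₁.ord s ∧ E₂.ord s < 0 := by
  obtain ⟨t', ht', hp⟩ : ∃ t' : K, Gen (⊤ : IntermediateField ℂ K) t' ∧ E₂.ord t' < 0 := by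
    by_cases h : E₂.ord t < 0
    · exact ⟨t, ht, h⟩
    · push Not at h
      obtain ⟨c, hc⟩ := exists_value hK h
      refine ⟨(t - algebraMap ℂ K c)⁻¹, (ht.sub_const c).inv, ?_⟩
      rw [neg_iff, oz_inv, oz_zero_eq (ht.sub_const c) hc]
      norm_num
  have h1 : 0 ≤ E₁.ord t' := by
    by_contra h
    push Not at h
    exact hne (pole_uniq ht' h hp)
  obtain ⟨c, hc⟩ := exists_value hK h1
  exact ⟨t' - algebraMap ℂ K c, ht'.sub_const c, hc, pole_sub hp c⟩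

private lemma lgt_three (hK : CurveField K) {B : Place K → Prop} {s : K} (hs : Gen (⊤ : IntermediateField ℂ K) s) {E₁ E₂ E₃ : Place K}
    (hB₁ : B E₁) (hB₂ : B E₂) (hB₃ : B E₃) (h13 : E₁ ≠ E₃) (h23 : E₂ ≠ E₃) (h1 : 0 < E₁.ord s) (h2 : E₂.ord s < 0) : IsLogGeneralType B := by
  have h3 : 0 ≤ E₃.ord s := by
    by_contra h
    push Not at h
    exact h23 (pole_uniq hs h2 h)
  obtain ⟨c, hc⟩ := exists_value hK h3
  have hc0 : c ≠ 0 := by
    rintro rfl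
    rw [map_zero, sub_zero] at hc
    exact h13 (zero_uniq hs h1 hc)
  have h1' : 0 < E₁.ord (s - algebraMap ℂ K 0) := by rwa [map_zero, sub_zero]
  have hs0 : s ≠ 0 := hs.ne_zero
  have hsc : s - algebraMap ℂ K c ≠ 0 := (hs.sub_const c).ne_zero
  -- the orders of the two forms
  have key : ∀ E : Place K, (¬ B E → PoleAtMost 0 E 1 s⁻¹ (dx s) ∧ PoleAtMost 0 E 1 (s - algebraMap ℂ K c)⁻¹ (dx s)) ∧
      (B E → PoleAtMost 1 E 1 s⁻¹ (dx s) ∧ PoleAtMost 1 E 1 (s - algebraMap ℂ K c)⁻¹ (dx s)) := by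
    intro E
    by_cases hpos : 0 < E.ord s
    · obtain rfl := zero_uniq hs h1 hpos
      have e1 := oz_zero_eq hs h1
      have e2 := oz_sub hs h1' hc0.symm
      refine ⟨fun h => absurd hB₁ h, fun _ => ⟨pole_mk _ hs0 (Or.inr ?_), pole_mk _ hs0 (Or.inr ?_)⟩⟩
      · rw [oz_inv, e1]; norm_num
      · rw [oz_inv, e2, e1]; norm_num
    by_cases hneg : E.ord s < 0
    · obtain rfl := pole_uniq hs h2 hneg
      have e1 := oz_pole_eq hs h2
      have e2 := oz_pole_eq (hs.sub_const c) (pole_sub h2 c)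
      refine ⟨fun h => absurd hB₂ h, fun _ => ⟨pole_mk _ hs0 (Or.inr ?_), pole_mk _ hs0 (Or.inr ?_)⟩⟩
      · rw [oz_inv, e1]; norm_num
      · rw [oz_inv, e2, e1]; norm_num
    push Not at hneg
    obtain ⟨c', hc'⟩ := exists_value hK hneg
    have hc'0 : c' ≠ 0 := by
      rintro rfl
      rw [map_zero, sub_zero] at hc'
      exact hpos hc'
    have e0 : oz E s = 0 := by
      have := oz_sub hs hc' hc'0
      rwa [map_zero, sub_zero] at this
    have e1 : oz E (s - algebraMap ℂ K c') = 1 := oz_zero_eq (hs.sub_const c') hc'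
    have hsc' : s - algebraMap ℂ K c' ≠ 0 := (hs.sub_const c').ne_zero
    rw [← dx_sub_const s c']
    by_cases hcc : c' = c
    · subst hcc
      obtain rfl := zero_uniq (hs.sub_const c') hc hc'
      refine ⟨fun h => absurd hB₃ h, fun _ => ⟨pole_mk _ hsc' (Or.inr ?_), pole_mk _ hsc' (Or.inr ?_)⟩⟩
      · rw [oz_inv, e0, e1]; norm_num
      · rw [oz_inv, e1]; norm_num
    · have e2 : oz E (s - algebraMap ℂ K c) = 0 := oz_sub hs hc' hcc
      refine ⟨fun _ => ⟨pole_mk _ hsc' (Or.inr ?_), pole_mk _ hsc' (Or.inr ?_)⟩, fun _ => ⟨pole_mk _ hsc' (Or.inr ?_), pole_mk _ hsc' (Or.inr ?_)⟩⟩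
      · rw [oz_inv, e0, e1]; norm_num
      · rw [oz_inv, e2, e1]; norm_num
      · rw [oz_inv, e0, e1]; norm_num
      · rw [oz_inv, e2, e1]; norm_num
  refine lgt_of_forms hK (dx_ne_zero hs.tr) le_rfl (inv_ne_zero hs0) (f₁ := (s - algebraMap ℂ K c)⁻¹) ?_
    (fun E => ⟨fun h => ((key E).1 h).1, fun h => ((key E).2 h).1⟩) (fun E => ⟨fun h => ((key E).1 h).2, fun h => ((key E).2 h).2⟩)
  apply tr_of_oz_ne (E := E₁)
  rw [oz_div E₁ (inv_ne_zero hsc) (inv_ne_zero hs0), oz_inv, oz_inv, oz_sub hs h1' hc0.symm, oz_zero_eq hs h1]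
  norm_num

theorem rat_cases (hK : CurveField K) {t : K} (ht : IntermediateField.adjoin ℂ {t} = ⊤) (B : Place K → Prop) :
    IsLogGeneralType B ∨ ∃ t' : K, IntermediateField.adjoin ℂ {t'} = ⊤ ∧ ∀ E, B E → oz E t' ≠ 0 := by
  have hg := gen_top hK ht
  by_cases h3 : ∃ E₁ E₂ E₃ : Place K, B E₁ ∧ B E₂ ∧ B E₃ ∧ E₁ ≠ E₂ ∧ E₁ ≠ E₃ ∧ E₂ ≠ E₃
  · left
    obtain ⟨E₁, E₂, E₃, hB₁, hB₂, hB₃, h12, h13, h23⟩ := h3
    obtain ⟨s, hs, h1, h2⟩ := exists_two hK hg h12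
    exact lgt_three hK hs hB₁ hB₂ hB₃ h13 h23 h1 h2
  right
  by_cases h2 : ∃ E₁ E₂ : Place K, B E₁ ∧ B E₂ ∧ E₁ ≠ E₂
  · obtain ⟨E₁, E₂, hB₁, hB₂, h12⟩ := h2
    obtain ⟨s, hs, h1, h2⟩ := exists_two hK hg h12
    refine ⟨s, hs.eq.symm, fun E hE => ?_⟩
    by_cases hE1 : E = E₁
    · rw [hE1, oz_zero_eq hs h1]
      norm_num
    by_cases hE2 : E = E₂
    · rw [hE2, oz_pole_eq hs h2]
      norm_num
    exact absurd ⟨E₁, E₂, E, hB₁, hB₂, hE, h12, fun h => hE1 h.symm, fun h => hE2 h.symm⟩ h3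
  by_cases h1 : ∃ E₁ : Place K, B E₁
  · obtain ⟨E₁, hB₁⟩ := h1
    have hall : ∀ E, B E → E = E₁ := fun E hE => by
      by_contra hne
      exact h2 ⟨E, E₁, hE, hB₁, hne⟩
    by_cases hneg : E₁.ord t < 0
    · refine ⟨t, ht, fun E hE => ?_⟩
      rw [hall E hE, oz_pole_eq hg hneg]
      norm_num
    · push Not at hneg
      obtain ⟨c, hc⟩ := exists_value hK hneg
      refine ⟨t - algebraMap ℂ K c, (hg.sub_const c).eq.symm, fun E hE => ?_⟩
      rw [hall E hE, oz_zero_eq (hg.sub_const c) hc]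
      norm_num
  · exact ⟨t, ht, fun E hE => absurd ⟨E, hE⟩ h1⟩

end Pool.Agent.H13.CV

end
end

section

/-!
# WL Proj: complements in surfaces with nonpositively curved pseudo-lengths, in the projective space
-/

set_option autoImplicit false

open Topology Filter MvPolynomial Metric

noncomputable section

namespace Pool.Agent.H22.WL

open Pool.Agent.H17 (PN VanishesAt HolomorphicInto ZariskiClosedIn puncturedDisc)
open Pool.Agent.H36.BP (EN)
open Pool.Agent.H14.V (IsLift)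

variable {N : ℕ} {P : Ideal (MvPolynomial (Fin (N + 1)) ℂ)} {s : ℕ} {G : Fin s → MvPolynomial (Fin (N + 1)) ℂ} {d : Fin s → ℕ}

theorem vanishesAt_lift {F : ℂ → EN N} {f : ℂ → PN N} (hF : IsLift F f) {Q : MvPolynomial (Fin (N + 1)) ℂ} {m : ℕ} (hQ : Q.IsHomogeneous m)
    (z : ℂ) : VanishesAt Q (f z) ↔ eval (F z).ofLp Q = 0 := by
  obtain ⟨h, h'⟩ := hF.2 z
  rw [h', Pool.Agent.H17.vanishesAt_mk_iff hQ]

/-- the form on `EN N` -/
def evF (Q : MvPolynomial (Fin (N + 1)) ℂ) (x : EN N) : ℂ := eval x.ofLp Q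

theorem evF_diff (Q : MvPolynomial (Fin (N + 1)) ℂ) : Differentiable ℂ (evF Q) := by
  intro x
  have h := AnalyticAt.aeval_mvPolynomial (𝕜 := ℂ) (f := fun y : EN N => y.ofLp) (z := x) (fun i =>
    (EuclideanSpace.proj (𝕜 := ℂ) i : EN N →L[ℂ] ℂ).analyticAt x) Q
  have h2 : AnalyticAt ℂ (fun y : EN N => eval y.ofLp Q) x := by simpa [MvPolynomial.aeval_eq_eval] using h
  exact h2.differentiableAt

theorem evF_smul {Q : MvPolynomial (Fin (N + 1)) ℂ} {m : ℕ} (hQ : Q.IsHomogeneous m) (c : ℂ) (x : EN N) :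
    evF Q (c • x) = c ^ m * evF Q x := by
  unfold evF
  exact Pool.Agent.H17.eval_smul_of_isHomogeneous hQ c x.ofLp


end Pool.Agent.H22.WL

end
end

section

/-!
# BD AHalf: the limit at the boundary of the disc where `g` follows `f`

Let `s = r / 32`, so `‖z' n‖ = R n - 4 s`.  `lim_trans` gives `F` (for `f n`, `a n = φ n (z' n)`) and `G` (for `g n`, `a n = z' n`).
Let `‖ζ‖ ≤ s` and let `n` be large (`R n ≥ r`).  `‖ζ + z' n‖ + s ≤ R n - 2 s < R n`, so `Fol.folAt` gives `FolAt` (radius `s`) at the point `ζ + z' n`, in particular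
`dist (ev (g n) (ζ + z' n)) (ev (f n) (φ n (ζ + z' n))) ≤ ε` and `‖φ n (ζ + z' n) - φ n (z' n)‖ ≤ r₂ / 4`.
(1) Let `φ∞ ζ` be the limit of `φ n (ζ + z' n) - φ n (z' n)` along `𝒰` (`exists_lim_bdd`; `φ∞ 0 = 0`; for `‖ζ‖ > s` put `φ∞ ζ = 0`).  By `tendsto_at` and the above
`FolAt ev r₂ s ε F G 0 φ∞`.
(2) `decay`: `ρ (f n) (φ n (ζ + z' n)) (g n) (ζ + z' n) ≤ B exp (-κ ((R n - s)² - (R n - 3 s)²)) = B exp (-κ (4 s R n - 8 s²)) → 0`.  By `small`, for every `η > 0` and almost all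
`n`: `ev (g n) (ζ + z' n)` has distance `≤ η` to a point of `Z`, or to `ev (f n) w` with `w ∈ closedBall (φ n (ζ + z' n)) r₂`.  In the second case
`dist (ev (f n) w) (ev (f n) (φ n (ζ + z' n))) ≤ η + ε`, so by `emb` `c ‖w - φ n (ζ + z' n)‖ ≤ η + ε ≤ c r₂ / 32` for small `η`, so `‖w - φ n (z' n)‖ ≤ r₂ / 32 + r₂ / 4 ≤ r₂`.
As `𝒰` is an ultrafilter one of the two cases holds for `𝒰`-almost all `n`.  If for every `η` it is the first case then `ev G ζ ∈ closure Z = Z`; otherwise for all small `η` it is the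
second case (if it holds for `η` it holds for larger `η`; so if the first case fails for one `η₀` then the second case holds for all `η ≤ η₀`), and then, with `w - φ n (z' n) → w∞`
(`exists_lim_bdd`), `dist (ev G ζ) (ev F w∞) ≤ η` with `w∞ ∈ closedBall 0 r₂`; as the plaque `Pl ev r₂ F 0` is compact, `ev G ζ ∈ Pl ev r₂ F 0`.
So for `‖ζ‖ ≤ s`: `ev G ζ ∈ Z` or `ev G ζ ∈ Pl ev r₂ F 0`.
(3) The limit of `z₁ n - z' n` is a point `a`, `‖a‖ ≤ r / 4 ≤ r₃`; for `w ∈ closedBall 0 r₂`: `ε ≤ dist (ev G a) (ev F w)` (`tendsto_at`; `far` for `w + φ n (z' n)`).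
So `ev G a ∉ Pl ev r₂ F 0`.
(4) If not all `ev G z` are in `Z` then by `dense` `ev G z ∉ Z` for all `z ≠ 0` near `0`, so `ev G z ∈ Pl ev r₂ F 0` for all `z ≠ 0` near `0`, and by `ident`
(`z₀ = 0`, `w₀ = 0`, `z₁ = 0`; `dist (ev G 0) (ev F 0) ≤ ε` by (1)) `ev G a ∈ Pl ev r₂ F 0`: contradiction to (3).
(5) If also all `ev F z` are in `Z` then `iso` (with (1), `φ∞ 0 = 0`) gives `ev G a ∈ Pl ev r₂ F 0`: contradiction to (3).
-/

set_option autoImplicit false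

open Topology Filter Metric

namespace Pool.Agent.H5.BD

variable {Y ι : Type} [MetricSpace Y] {S : Set ι} {ev : ι → ℂ → Y} {Z : Set Y} {ρ : ι → ℂ → ι → ℂ → ℝ} {L c r₂ r₃ κ r ε B : ℝ}

/-- the data of the limit at the boundary of the disc -/
private structure HLim (S : Set ι) (ev : ι → ℂ → Y) (r₂ r ε : ℝ) (𝒰 : Ultrafilter ℕ) (f g : ℕ → ι) (R : ℕ → ℝ) (φ : ℕ → ℂ → ℂ)
    (z' z₁ : ℕ → ℂ) (F G : ι) : Prop where
  hF : F ∈ S
  hG : G ∈ S
  hR : Tendsto R 𝒰 atTop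
  hf : ∀ᶠ n in (𝒰 : Filter ℕ), f n ∈ S
  hg : ∀ᶠ n in (𝒰 : Filter ℕ), g n ∈ S
  bad : ∀ᶠ n in (𝒰 : Filter ℕ), Bad ev r₂ r ε (R n) (f n) (g n) (φ n) (z' n) (z₁ n)
  limF : ∀ z, Tendsto (fun n => ev (f n) (z + φ n (z' n))) 𝒰 (𝓝 (ev F z))
  limG : ∀ z, Tendsto (fun n => ev (g n) (z + z' n)) 𝒰 (𝓝 (ev G z))

private theorem Bad.half_folAt {f g : ι} {R : ℝ} {φ : ℂ → ℂ} {z' z₁ : ℂ} (h : Bad ev r₂ r ε R f g φ z' z₁) (hr : 0 < r) {ζ : ℂ}
    (hζ : ‖ζ‖ ≤ r / 32) : FolAt ev r₂ (r / 32) ε f g (ζ + z') φ := by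
  refine h.fol.folAt (by linarith) (by linarith) ?_ le_rfl
  have h1 := norm_add_le ζ z'
  have h2 := h.norm
  linarith

private theorem Bad.half_close {f g : ι} {R : ℝ} {φ : ℂ → ℂ} {z' z₁ : ℂ} (h : Bad ev r₂ r ε R f g φ z' z₁) (hr : 0 < r) {ζ : ℂ}
    (hζ : ‖ζ‖ ≤ r / 32) : dist (ev g (ζ + z')) (ev f (φ (ζ + z'))) ≤ ε :=
  (h.half_folAt hr hζ (ζ + z') (mem_closedBall_self (by linarith))).1

private theorem Bad.half_cont {f g : ι} {R : ℝ} {φ : ℂ → ℂ} {z' z₁ : ℂ} (h : Bad ev r₂ r ε R f g φ z' z₁) (hr : 0 < r) {ζ : ℂ}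
    (hζ : ‖ζ‖ ≤ r / 32) : ‖φ (ζ + z') - φ z'‖ ≤ r₂ / 4 := by
  have h0 : ‖(0 : ℂ)‖ ≤ r / 32 := by rw [norm_zero]; linarith
  have h1 := (h.half_folAt hr h0 (ζ + z') (by
    rw [mem_closedBall, dist_eq_norm]
    simpa using hζ)).2
  rwa [zero_add] at h1

/-- (1) -/
private theorem HLim.fol (h : BFlow S ev Z ρ L c r₂ r₃ κ) (hr : 0 < r) {𝒰 : Ultrafilter ℕ} {f g : ℕ → ι}
    {R : ℕ → ℝ} {φ : ℕ → ℂ → ℂ} {z' z₁ : ℕ → ℂ} {F G : ι} (H : HLim S ev r₂ r ε 𝒰 f g R φ z' z₁ F G) :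
    ∃ ψ : ℂ → ℂ, ψ 0 = 0 ∧ FolAt ev r₂ (r / 32) ε F G 0 ψ := by
  have hex : ∀ ζ : ℂ, ∃ b : ℂ, ‖ζ‖ ≤ r / 32 → ‖b‖ ≤ r₂ / 4 ∧ Tendsto (fun n => φ n (ζ + z' n) - φ n (z' n)) 𝒰 (𝓝 b) := by
    intro ζ
    by_cases hζ : ‖ζ‖ ≤ r / 32
    · obtain ⟨b, hb, hb'⟩ := exists_lim_bdd 𝒰 (b := fun n => φ n (ζ + z' n) - φ n (z' n)) (C := r₂ / 4)
        (H.bad.mono fun n hn => hn.half_cont hr hζ)
      exact ⟨b, fun _ => ⟨hb, hb'⟩⟩
    · exact ⟨0, fun h0 => absurd h0 hζ⟩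
  choose ψ hψ using hex
  have h0 : ψ 0 = 0 := by
    have h1 := (hψ 0 (by rw [norm_zero]; linarith)).2
    have h2 : Tendsto (fun n => φ n (0 + z' n) - φ n (z' n)) 𝒰 (𝓝 0) := by simp
    exact tendsto_nhds_unique h1 h2
  refine ⟨ψ, h0, fun z hz => ?_⟩
  have hz' : ‖z‖ ≤ r / 32 := by simpa using hz
  refine ⟨?_, by rw [h0, sub_zero]; exact (hψ z hz').1⟩
  have h1 := h.tendsto_at 𝒰 (a := fun n => φ n (z' n)) H.hf H.limF (hψ z hz').2
  have h2 : Tendsto (fun n => dist (ev (g n) (z + z' n)) (ev (f n) (φ n (z + z' n) - φ n (z' n) + φ n (z' n)))) 𝒰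
      (𝓝 (dist (ev G z) (ev F (ψ z)))) := (H.limG z).dist h1
  refine le_of_tendsto h2 (H.bad.mono fun n hn => ?_)
  rw [sub_add_cancel]
  exact hn.half_close hr hz'

/-- the decay of `ρ` -/
private theorem HLim.rho_le (h : BFlow S ev Z ρ L c r₂ r₃ κ) (ha : Adm S ev Z ρ L c r₂ r₃ κ r ε B) {𝒰 : Ultrafilter ℕ} {f g : ℕ → ι}
    {R : ℕ → ℝ} {φ : ℕ → ℂ → ℂ} {z' z₁ : ℕ → ℂ} {F G : ι} (H : HLim S ev r₂ r ε 𝒰 f g R φ z' z₁ F G) {ζ : ℂ} (hζ : ‖ζ‖ ≤ r / 32)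
    {δ : ℝ} (hδ : 0 < δ) : ∀ᶠ n in (𝒰 : Filter ℕ), ρ (f n) (φ n (ζ + z' n)) (g n) (ζ + z' n) ≤ δ := by
  have hr : 0 < r := ha.cst.r_pos
  have hκ : 0 < κ := h.κ_pos
  have h1 : Tendsto (fun n => B * Real.exp (-(κ * (r / 8)) * R n + κ * (r ^ 2 / 128))) 𝒰 (𝓝 (B * 0)) := by
    refine Tendsto.const_mul B (Real.tendsto_exp_atBot.comp ?_)
    refine tendsto_atBot_add_const_right _ _ ?_
    exact H.hR.const_mul_atTop_of_neg (by
      have : 0 < κ * (r / 8) := by positivity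
      linarith)
  rw [mul_zero] at h1
  filter_upwards [H.hf, H.hg, H.bad, H.hR.eventually_ge_atTop r, h1.eventually (gt_mem_nhds hδ)] with n h2 h3 h4 h5 h6
  have h7 : ‖ζ + z' n‖ ≤ R n - 3 * (r / 32) := by
    have h8 := norm_add_le ζ (z' n)
    have h9 := h4.norm
    linarith
  have h8 : ζ + z' n ∈ ball (0 : ℂ) (R n) := by
    rw [mem_ball_zero_iff]
    linarith
  refine (ha.decay (f n) h2 (g n) h3 (φ n) (R n) h5 h4.fol _ h8).trans (le_trans ?_ h6.le)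
  refine mul_le_mul_of_nonneg_left (Real.exp_le_exp.2 ?_) ha.B_nonneg
  have h9 : ‖ζ + z' n‖ ^ 2 ≤ (R n - 3 * (r / 32)) ^ 2 := pow_le_pow_left₀ (norm_nonneg _) h7 2
  nlinarith [mul_le_mul_of_nonneg_left h9 hκ.le]

/-- (2) -/
private theorem HLim.mem (h : BFlow S ev Z ρ L c r₂ r₃ κ) (ha : Adm S ev Z ρ L c r₂ r₃ κ r ε B) {𝒰 : Ultrafilter ℕ} {f g : ℕ → ι}
    {R : ℕ → ℝ} {φ : ℕ → ℂ → ℂ} {z' z₁ : ℕ → ℂ} {F G : ι} (H : HLim S ev r₂ r ε 𝒰 f g R φ z' z₁ F G) {ζ : ℂ} (hζ : ‖ζ‖ ≤ r / 32) :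
    ev G ζ ∈ Z ∨ ev G ζ ∈ Pl ev r₂ F 0 := by
  have hr : 0 < r := ha.cst.r_pos
  have hr₂ : 0 < r₂ := h.r₂_pos
  have hc : 0 < c := h.c_pos
  have hcr : 0 < c * r₂ := mul_pos hc hr₂
  have hε := ha.cst.hε
  have hor : ∀ η : ℝ, 0 < η → (∀ᶠ n in (𝒰 : Filter ℕ), ∃ y ∈ Z, dist (ev (g n) (ζ + z' n)) y ≤ η) ∨
      ∀ᶠ n in (𝒰 : Filter ℕ), ∃ w ∈ closedBall (φ n (ζ + z' n)) r₂, dist (ev (g n) (ζ + z' n)) (ev (f n) w) ≤ η := by
    intro η hη
    obtain ⟨δ, hδ, hδ'⟩ := ha.small η hη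
    refine Ultrafilter.eventually_or.1 ?_
    filter_upwards [H.hf, H.hg, H.bad, H.rho_le h ha hζ hδ] with n h2 h3 h4 h5
    exact hδ' (f n) h2 (g n) h3 _ _ (h4.half_folAt hr hζ) h5
  by_cases hA : ∀ η : ℝ, 0 < η → ∀ᶠ n in (𝒰 : Filter ℕ), ∃ y ∈ Z, dist (ev (g n) (ζ + z' n)) y ≤ η
  · left
    rw [← h.closed.closure_eq, Metric.mem_closure_iff]
    intro η hη
    obtain ⟨n, ⟨y, hy, hy'⟩, hn⟩ := ((hA (η / 3) (by linarith)).and
      ((H.limG ζ).eventually (Metric.ball_mem_nhds (ev G ζ) (show 0 < η / 3 by linarith)))).exists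
    refine ⟨y, hy, ?_⟩
    have h1 := dist_triangle_left (ev G ζ) y (ev (g n) (ζ + z' n))
    linarith
  · right
    obtain ⟨η₀, hη₀'⟩ := not_forall.1 hA
    obtain ⟨hη₀, hA'⟩ := Classical.not_imp.1 hη₀'
    have hB : ∀ η : ℝ, 0 < η → η ≤ η₀ → ∀ᶠ n in (𝒰 : Filter ℕ), ∃ w ∈ closedBall (φ n (ζ + z' n)) r₂,
        dist (ev (g n) (ζ + z' n)) (ev (f n) w) ≤ η := by
      intro η hη hle
      refine (hor η hη).resolve_left fun hcon => hA' (hcon.mono fun n hn => ?_)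
      obtain ⟨y, hy, hy'⟩ := hn
      exact ⟨y, hy, hy'.trans hle⟩
    have hcomp : IsCompact (Pl ev r₂ F 0) := (isCompact_closedBall (0 : ℂ) r₂).image (h.continuous H.hF)
    rw [← hcomp.isClosed.closure_eq, Metric.mem_closure_iff]
    intro η hη
    set η₁ : ℝ := min (η / 2) (min η₀ (c * r₂ / 64)) with hη₁
    have h1 : 0 < η₁ := lt_min (by linarith) (lt_min hη₀ (by linarith))
    have h2 : η₁ ≤ η / 2 := min_le_left _ _
    have h3 : η₁ ≤ η₀ := (min_le_right _ _).trans (min_le_left _ _)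
    have h4 : η₁ ≤ c * r₂ / 64 := (min_le_right _ _).trans (min_le_right _ _)
    obtain ⟨w, hw⟩ := Filter.skolem.1 (hB η₁ h1 h3)
    have h5 : ∀ᶠ n in (𝒰 : Filter ℕ), ‖w n - φ n (z' n)‖ ≤ r₂ := by
      filter_upwards [H.hf, H.bad, hw] with n h6 h7 h8
      obtain ⟨h9, h10⟩ := h8
      rw [mem_closedBall, dist_eq_norm] at h9
      have h11 := h.emb (f n) h6 (w n) (φ n (ζ + z' n)) (by linarith)
      have h12 := h7.half_close hr hζ
      have h13 := dist_triangle_left (ev (f n) (w n)) (ev (f n) (φ n (ζ + z' n))) (ev (g n) (ζ + z' n))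
      have h14 : c * ‖w n - φ n (ζ + z' n)‖ ≤ c * (r₂ / 32) := by linarith
      have h15 : ‖w n - φ n (ζ + z' n)‖ ≤ r₂ / 32 := le_of_mul_le_mul_left h14 hc
      have h16 := h7.half_cont hr hζ
      have h17 := norm_add_le (w n - φ n (ζ + z' n)) (φ n (ζ + z' n) - φ n (z' n))
      rw [sub_add_sub_cancel] at h17
      linarith
    obtain ⟨w₀, hw₀, hlim⟩ := exists_lim_bdd 𝒰 h5
    have h6 := h.tendsto_at 𝒰 (a := fun n => φ n (z' n)) H.hf H.limF hlim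
    have h7 : Tendsto (fun n => dist (ev (g n) (ζ + z' n)) (ev (f n) (w n - φ n (z' n) + φ n (z' n)))) 𝒰
        (𝓝 (dist (ev G ζ) (ev F w₀))) := (H.limG ζ).dist h6
    have h8 : dist (ev G ζ) (ev F w₀) ≤ η₁ := by
      refine le_of_tendsto h7 (hw.mono fun n hn => ?_)
      rw [sub_add_cancel]
      exact hn.2
    exact ⟨ev F w₀, ⟨w₀, by simpa using hw₀, rfl⟩, by linarith⟩

/-- (3) -/
private theorem HLim.far (h : BFlow S ev Z ρ L c r₂ r₃ κ) (ha : Adm S ev Z ρ L c r₂ r₃ κ r ε B) {𝒰 : Ultrafilter ℕ} {f g : ℕ → ι}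
    {R : ℕ → ℝ} {φ : ℕ → ℂ → ℂ} {z' z₁ : ℕ → ℂ} {F G : ι} (H : HLim S ev r₂ r ε 𝒰 f g R φ z' z₁ F G) :
    ∃ a ∈ closedBall (0 : ℂ) r₃, ev G a ∉ Pl ev r₂ F 0 := by
  have hr : 0 < r := ha.cst.r_pos
  obtain ⟨a, ha1, hlim⟩ := exists_lim_bdd 𝒰 (b := fun n => z₁ n - z' n) (C := r / 4) (H.bad.mono fun n hn => hn.dist_le)
  have hle := ha.cst.r_le₃
  refine ⟨a, by rw [mem_closedBall_zero_iff]; linarith, ?_⟩
  rintro ⟨w, hw, hwa⟩
  have h1 := h.tendsto_at 𝒰 (a := z') H.hg H.limG hlim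
  have h2 : Tendsto (fun n => dist (ev (g n) (z₁ n - z' n + z' n)) (ev (f n) (w + φ n (z' n)))) 𝒰
      (𝓝 (dist (ev G a) (ev F w))) := h1.dist (H.limF w)
  have h3 : ε ≤ dist (ev G a) (ev F w) := by
    refine ge_of_tendsto h2 (H.bad.mono fun n hn => ?_)
    rw [sub_add_cancel]
    refine (hn.far (w + φ n (z' n)) ?_).le
    rw [mem_closedBall, dist_eq_norm, add_sub_cancel_right]
    simpa using hw
  rw [hwa, dist_self] at h3
  have := ha.cst.ε_pos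
  linarith

theorem Adm.half (h : BFlow S ev Z ρ L c r₂ r₃ κ) (ha : Adm S ev Z ρ L c r₂ r₃ κ r ε B) (𝒰 : Ultrafilter ℕ)
    (h𝒰 : (𝒰 : Filter ℕ) ≤ atTop) {f g : ℕ → ι} {R : ℕ → ℝ} {φ : ℕ → ℂ → ℂ} {z' z₁ : ℕ → ℂ} (hR : Tendsto R 𝒰 atTop)
    (hf : ∀ᶠ n in (𝒰 : Filter ℕ), f n ∈ S) (hg : ∀ᶠ n in (𝒰 : Filter ℕ), g n ∈ S)
    (hbad : ∀ᶠ n in (𝒰 : Filter ℕ), Bad ev r₂ r ε (R n) (f n) (g n) (φ n) (z' n) (z₁ n)) :
    ∃ F ∈ S, ∃ G ∈ S, (∀ z, Tendsto (fun n => ev (f n) (z + φ n (z' n))) 𝒰 (𝓝 (ev F z))) ∧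
      (∀ z, Tendsto (fun n => ev (g n) (z + z' n)) 𝒰 (𝓝 (ev G z))) ∧ (∀ z, ev G z ∈ Z) ∧ ¬ ∀ z, ev F z ∈ Z := by
  classical
  obtain ⟨F, hF, limF⟩ := h.lim_trans 𝒰 h𝒰 f (fun n => φ n (z' n)) hf
  obtain ⟨G, hG, limG⟩ := h.lim_trans 𝒰 h𝒰 g z' hg
  have H : HLim S ev r₂ r ε 𝒰 f g R φ z' z₁ F G := ⟨hF, hG, hR, hf, hg, hbad, limF, limG⟩
  have hr : 0 < r := ha.cst.r_pos
  obtain ⟨ψ, hψ0, hψ⟩ := H.fol h hr
  obtain ⟨a, ha1, hfar⟩ := H.far h ha
  have hGZ : ∀ z, ev G z ∈ Z := by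
    refine (h.dense G hG).resolve_right fun hd => hfar ?_
    have h0 : dist (ev G 0) (ev F 0) ≤ ε := by
      have h1 := (hψ 0 (mem_closedBall_self (by linarith))).1
      rwa [hψ0] at h1
    have h1 : ∀ᶠ z in 𝓝[≠] (0 : ℂ), ev G z ∈ Pl ev r₂ F 0 := by
      have h2 : ∀ᶠ z in 𝓝[≠] (0 : ℂ), z ∈ closedBall (0 : ℂ) (r / 32) :=
        nhdsWithin_le_nhds (closedBall_mem_nhds _ (by linarith))
      filter_upwards [hd 0, h2] with z h3 h4
      exact (H.mem h ha (by simpa using h4)).resolve_left h3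
    exact ha.ident F hF G hG 0 0 h0 0 (mem_closedBall_self h.r₃_pos.le) h1.frequently a ha1
  refine ⟨F, hF, G, hG, limF, limG, hGZ, fun hFZ => hfar ?_⟩
  have h1 := ha.iso F hF G hG hFZ hGZ 0 ψ hψ a ha1
  rwa [hψ0] at h1

end Pool.Agent.H5.BD

end

section

/-!
# BD AFin: two curves which are close on a large disc are the same up to a change of the variable

`claimE`.  Otherwise for every `n` there are `E n ∈ S` (in `Z`), `g n ∈ S` with `dist (ev (E n) z) (ev (g n) z) ≤ 1 / (n + 1)` on `closedBall 0 n`, not `Rel (E n) (g n)`.  For `n` with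
`1 / (n + 1) ≤ ε`, `r ≤ n`: `fol_id` and `exists_bad` (with `R₀ = n`).  The first alternative is impossible by `rel_of_all` (`E n` is in `Z`).  So there are `R n ≥ n`, `φ n`, `z' n`, `z₁ n` as
in `Bad`; `half` (`𝒰 = hyperfilter ℕ`) gives `F`, a limit of translates of the `E n`, not in `Z`: contradiction (`Z` is closed).

`main`.  Let `n₀, ε₂` be as in `claimE`.  Otherwise for every `n` there are `f n, g n ∈ S`, `dist ≤ 1 / (n + 1)` on `closedBall 0 n`, neither `Rel (f n) (g n)` nor `Rel (g n) (f n)`.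
For large `n` not all `ev (g n) z` are in `Z`: otherwise `claimE` (with `E = g n`, `g = f n`, `dist_comm`) gives `Rel (g n) (f n)`.  As before `exists_bad`: the first alternative is
impossible by `rel_of_all` (`hZ` holds because `g n` is not in `Z`), so `half` applies: `G ∈ S` is a limit of `ev (g n) (z + z' n)`, and in `Z`.  For almost all `n` (`unif`)
`dist (ev (g n) (z + z' n)) (ev G z) ≤ ε₂` on `closedBall 0 n₀`; with `g' ∈ S`, `ev g' z = ev (g n) (z + z' n)` (`trans`), `claimE` gives `Rel G g'`, so all `ev g' z` are in `Z`,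
so all `ev (g n) z` are in `Z`: contradiction.
-/

set_option autoImplicit false

open Topology Filter Metric

namespace Pool.Agent.H5.BD

variable {Y ι : Type} [MetricSpace Y] {S : Set ι} {ev : ι → ℂ → Y} {Z : Set Y} {ρ : ι → ℂ → ι → ℂ → ℝ} {L c r₂ r₃ κ r ε B : ℝ}

/-- a following function on a large disc which cannot be extended -/
theorem afin_bad (h : BFlow S ev Z ρ L c r₂ r₃ κ) (ha : Adm S ev Z ρ L c r₂ r₃ κ r ε B) {f g : ι} (hf : f ∈ S) (hg : g ∈ S) {n : ℕ} (hn : r ≤ n)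
    (hd : ∀ z ∈ closedBall (0 : ℂ) n, dist (ev f z) (ev g z) ≤ ε) (hZ : (∀ z, ev g z ∈ Z) → ∀ z, ev f z ∈ Z) (hnot : ¬ Rel ev r₂ r f g) :
    ∃ (R : ℝ) (φ : ℂ → ℂ) (z' z₁ : ℂ), (n : ℝ) ≤ R ∧ Bad ev r₂ r ε R f g φ z' z₁ := by
  rcases exists_bad h ha.cst hf hg hn ⟨id, fol_id ha.cst hd⟩ with h1 | h1
  · exact absurd (ha.rel_of_all h hf hg h1 hZ) hnot
  · exact h1

theorem afin_tendsto {R : ℕ → ℝ} {N : ℕ} (hR : ∀ n, N ≤ n → (n : ℝ) ≤ R n) : Tendsto R (hyperfilter ℕ : Filter ℕ) atTop := by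
  have h1 : Tendsto R atTop atTop := by
    refine tendsto_atTop_mono' atTop ?_ tendsto_natCast_atTop_atTop
    filter_upwards [eventually_ge_atTop N] with n hn
    exact hR n hn
  exact h1.mono_left Nat.hyperfilter_le_atTop

/-- a large number -/
theorem afin_large (a : ℝ) {e : ℝ} (he : 0 < e) : ∃ N : ℕ, ∀ n : ℕ, N ≤ n → a ≤ n ∧ 1 / ((n : ℝ) + 1) ≤ e := by
  obtain ⟨N₁, h₁⟩ := exists_nat_ge a
  obtain ⟨N₂, h₂⟩ := exists_nat_one_div_lt he
  refine ⟨N₁ + N₂, fun n hn => ⟨?_, ?_⟩⟩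
  · have : (N₁ : ℝ) ≤ n := by exact_mod_cast (by omega : N₁ ≤ n)
    linarith
  · have h3 : (N₂ : ℝ) ≤ n := by exact_mod_cast (by omega : N₂ ≤ n)
    refine le_trans ?_ h₂.le
    apply one_div_le_one_div_of_le
    · positivity
    · linarith

theorem Adm.claimE (h : BFlow S ev Z ρ L c r₂ r₃ κ) (ha : Adm S ev Z ρ L c r₂ r₃ κ r ε B) :
    ∃ n₀ ε₂ : ℝ, 0 < ε₂ ∧ ∀ E ∈ S, (∀ z, ev E z ∈ Z) → ∀ g ∈ S, (∀ z ∈ closedBall (0 : ℂ) n₀, dist (ev E z) (ev g z) ≤ ε₂) →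
      Rel ev r₂ r E g := by
  by_contra hcon
  have key : ∀ n : ℕ, ∃ E g : ι, E ∈ S ∧ (∀ z, ev E z ∈ Z) ∧ g ∈ S ∧
      (∀ z ∈ closedBall (0 : ℂ) n, dist (ev E z) (ev g z) ≤ 1 / ((n : ℝ) + 1)) ∧ ¬ Rel ev r₂ r E g := by
    intro n
    by_contra h1
    apply hcon
    refine ⟨n, 1 / ((n : ℝ) + 1), by positivity, fun E hE hEZ g hg hd => ?_⟩
    by_contra h2
    exact h1 ⟨E, g, hE, hEZ, hg, hd, h2⟩
  choose E g hE hEZ hg hd hnot using key
  obtain ⟨N, hN⟩ := afin_large r ha.cst.ε_pos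
  have hbad : ∀ n : ℕ, ∃ (R : ℝ) (φ : ℂ → ℂ) (z' z₁ : ℂ), N ≤ n → ((n : ℝ) ≤ R ∧ Bad ev r₂ r ε R (E n) (g n) φ z' z₁) := by
    intro n
    by_cases hn : N ≤ n
    · obtain ⟨R, φ, z', z₁, h1, h2⟩ := afin_bad h ha (hE n) (hg n) (hN n hn).1 (fun z hz => (hd n z hz).trans (hN n hn).2)
        (fun _ => hEZ n) (hnot n)
      exact ⟨R, φ, z', z₁, fun _ => ⟨h1, h2⟩⟩
    · exact ⟨0, id, 0, 0, fun h1 => absurd h1 hn⟩
  choose R φ z' z₁ hb using hbad
  have hev : ∀ᶠ n in (hyperfilter ℕ : Filter ℕ), N ≤ n := Nat.hyperfilter_le_atTop (eventually_ge_atTop N)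
  obtain ⟨F, _, G, _, hF, _, _, hnF⟩ := ha.half h (hyperfilter ℕ) Nat.hyperfilter_le_atTop (afin_tendsto fun n hn => (hb n hn).1)
    (Eventually.of_forall hE) (Eventually.of_forall hg) (hev.mono fun n hn => (hb n hn).2)
  exact hnF fun z => h.closed.mem_of_tendsto (hF z) (Eventually.of_forall fun n => hEZ n _)

theorem BFlow.main (h : BFlow S ev Z ρ L c r₂ r₃ κ) :
    ∃ n₁ ε₁ r : ℝ, 0 < ε₁ ∧ 0 < r ∧ ∀ f ∈ S, ∀ g ∈ S, (∀ z ∈ closedBall (0 : ℂ) n₁, dist (ev f z) (ev g z) ≤ ε₁) →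
      Rel ev r₂ r f g ∨ Rel ev r₂ r g f := by
  obtain ⟨r, ε, B, ha⟩ := h.exists_adm
  obtain ⟨n₀, ε₂, hε₂, hclaim⟩ := ha.claimE h
  by_contra hcon
  have key : ∀ n : ℕ, ∃ f g : ι, f ∈ S ∧ g ∈ S ∧
      (∀ z ∈ closedBall (0 : ℂ) n, dist (ev f z) (ev g z) ≤ 1 / ((n : ℝ) + 1)) ∧ ¬ (Rel ev r₂ r f g ∨ Rel ev r₂ r g f) := by
    intro n
    by_contra h1
    apply hcon
    refine ⟨n, 1 / ((n : ℝ) + 1), r, by positivity, ha.cst.r_pos, fun f hf g hg hd => ?_⟩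
    by_contra h2
    exact h1 ⟨f, g, hf, hg, hd, h2⟩
  choose f g hf hg hd hnot using key
  obtain ⟨N, hN⟩ := afin_large (max r n₀) (lt_min ha.cst.ε_pos hε₂)
  have hgZ : ∀ n, N ≤ n → ¬ ∀ z, ev (g n) z ∈ Z := by
    intro n hn hall
    apply hnot n
    right
    refine hclaim (g n) (hg n) hall (f n) (hf n) fun z hz => ?_
    rw [dist_comm]
    refine (hd n z ?_).trans ((hN n hn).2.trans (min_le_right _ _))
    exact closedBall_subset_closedBall ((le_max_right _ _).trans (hN n hn).1) hz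
  have hbad : ∀ n : ℕ, ∃ (R : ℝ) (φ : ℂ → ℂ) (z' z₁ : ℂ), N ≤ n → ((n : ℝ) ≤ R ∧ Bad ev r₂ r ε R (f n) (g n) φ z' z₁) := by
    intro n
    by_cases hn : N ≤ n
    · obtain ⟨R, φ, z', z₁, h1, h2⟩ := afin_bad h ha (hf n) (hg n) ((le_max_left _ _).trans (hN n hn).1)
        (fun z hz => (hd n z hz).trans ((hN n hn).2.trans (min_le_left _ _))) (fun h1 => absurd h1 (hgZ n hn))
        (fun h1 => hnot n (Or.inl h1))
      exact ⟨R, φ, z', z₁, fun _ => ⟨h1, h2⟩⟩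
    · exact ⟨0, id, 0, 0, fun h1 => absurd h1 hn⟩
  choose R φ z' z₁ hb using hbad
  have hev : ∀ᶠ n in (hyperfilter ℕ : Filter ℕ), N ≤ n := Nat.hyperfilter_le_atTop (eventually_ge_atTop N)
  obtain ⟨F, _, G, hG, _, hlim, hGZ, _⟩ := ha.half h (hyperfilter ℕ) Nat.hyperfilter_le_atTop (afin_tendsto fun n hn => (hb n hn).1)
    (Eventually.of_forall hf) (Eventually.of_forall hg) (hev.mono fun n hn => (hb n hn).2)
  have hu := h.unif (hyperfilter ℕ) (Eventually.of_forall hg) hG hlim n₀ hε₂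
  obtain ⟨n, hn, hun⟩ := (hev.and hu).exists
  obtain ⟨g', hg', hgt⟩ := h.trans (g n) (hg n) (z' n)
  obtain ⟨ψ, hψ, _, _⟩ := hclaim G hG hGZ g' hg' fun z hz => by
    rw [hgt, dist_comm]
    exact (hun z hz).le
  apply hgZ n hn
  intro z
  have h1 : ev g' (z - z' n) ∈ Z := by
    rw [hψ]
    exact hGZ _
  rw [hgt, sub_add_cancel] at h1
  exact h1

end Pool.Agent.H5.BD

end

section

/-!
# BU Main: the blow-up of a surface at a point, in terms of the definitions of `H17BP.Surf`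
-/

set_option autoImplicit false

namespace Pool.Agent.H62.BU

open Filter Topology

variable {V : Type} [NormedAddCommGroup V] [NormedSpace ℂ V] {ι : Type} [Fintype ι] {l : ι → V →L[ℂ] ℂ} {X B : Set V} {q : V}

theorem toChart {X : Set V} {σ : ℂ × ℂ → V} {τ : V → ℂ × ℂ} (h : Pool.Agent.H17BP.IsChart X σ τ) : IsChart X σ τ :=
  ⟨h.σ_an, h.σ_mem, h.ne, h.τ_an, h.left, h.right, h.inv⟩

theorem ofChart {X : Set V} {σ : ℂ × ℂ → V} {τ : V → ℂ × ℂ} (h : IsChart X σ τ) : Pool.Agent.H17BP.IsChart X σ τ :=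
  ⟨h.σ_an, h.σ_mem, h.ne, h.τ_an, h.left, h.right, h.inv⟩

theorem toSurface {X : Set V} (h : Pool.Agent.H17BP.Surface X) : Surface X :=
  ⟨h.zero, h.smul, h.closed, fun x hx => by
    obtain ⟨σ, τ, h1, h2⟩ := h.chart x hx
    exact ⟨σ, τ, toChart h1, h2⟩⟩

theorem toForm {X : Set V} {m j : ℕ} {Ω : V → V → V → ℂ} (h : Pool.Agent.H17BP.IsForm X m j Ω) : IsForm X m j Ω :=
  ⟨fun x hx v w hv hw => h.add_smul x hx v hv w hw, fun x hx v w hv hw => h.det x hx v hv w hw,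
    fun x hx v w hv hw => h.scale x hx v hv w hw, h.analytic⟩

theorem ofForm {X : Set V} {m j : ℕ} {Ω : V → V → V → ℂ} (h : IsForm X m j Ω) : Pool.Agent.H17BP.IsForm X m j Ω :=
  ⟨fun x hx v hv w hw => h.add_smul x hx v w hv hw, fun x hx v hv w hw => h.det x hx v w hv hw,
    fun x hx v hv w hw => h.scale x hx v w hv hw, h.analytic⟩

/-- linear forms whose common kernel is the line through `q` -/
theorem exists_forms [FiniteDimensional ℂ V] (q : V) : ∃ (r : ℕ) (l : Fin r → V →L[ℂ] ℂ), Ker l q := by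
  let W : Submodule ℂ V := Submodule.span ℂ {q}
  let e := Module.finBasis ℂ (V ⧸ W)
  refine ⟨_, fun b => LinearMap.toContinuousLinearMap ((e.coord b).comp W.mkQ), fun v => ?_⟩
  constructor
  · intro h
    have h1 : W.mkQ v = 0 := by
      rw [← e.forall_coord_eq_zero_iff]
      intro b
      have := h b
      simpa using this
    rw [Submodule.mkQ_apply, Submodule.Quotient.mk_eq_zero, Submodule.mem_span_singleton] at h1
    obtain ⟨c, hc⟩ := h1
    exact ⟨c, hc.symm⟩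
  · rintro ⟨c, rfl⟩ b
    have h1 : W.mkQ (c • q) = 0 := by
      rw [Submodule.mkQ_apply, Submodule.Quotient.mk_eq_zero]
      exact W.smul_mem c (Submodule.mem_span_singleton_self q)
    have h2 : ((e.coord b).comp W.mkQ) (c • q) = 0 := by
      rw [LinearMap.comp_apply, h1, map_zero]
    simpa using h2

/-- (2) the form on the blow-up -/
theorem form [FiniteDimensional ℂ V] (hX : Pool.Agent.H17BP.Surface X) {m j : ℕ} {Ω : V → V → V → ℂ} (hΩ : Pool.Agent.H17BP.IsForm X m j Ω) :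
    Pool.Agent.H17BP.IsForm (blow l X) (2 * m) j (om l j Ω) :=
  ofForm (isForm_om (toSurface hX) (toForm hΩ))

/-- (3) the form on the blow-up has no zeros off the total transform -/
theorem noZeros (hX : Pool.Agent.H17BP.Surface X) {m j : ℕ} {Ω : V → V → V → ℂ} (hΩ : Pool.Agent.H17BP.IsForm X m j Ω)
    (hB : ∀ x ∈ B, ∀ c : ℂ, c ≠ 0 → c • x ∈ B) (hl : Ker l q) (hq : q ∈ B) (hn : Pool.Agent.H17BP.NoZeros X B Ω) :
    Pool.Agent.H17BP.NoZeros (blow l X) (total l X B) (om l j Ω) := by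
  have h1 := noZero_om (toSurface hX) (toForm hΩ) hB (fun v hv => (hl v).mp hv) hq
    (fun x hx hxB v w hv hw => hn x hx hxB v hv w hw)
  exact fun y hy hyB v hv w hw => h1 y hy hyB v w hv hw

/-- (6) the components of a point of the blow-up are in the surface, and proportional -/
theorem components (hX : Pool.Agent.H17BP.Surface X) {y : ι → V} (hy : y ∈ blow l X) {b : ι} (hb : y b ≠ 0) :
    y b ∈ X ∧ ∀ b', ∃ c : ℂ, y b' = c • y b :=
  ⟨comp_mem (toSurface hX) y hy hb, fun b' => comp_smul y hy hb b'⟩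

end Pool.Agent.H62.BU

end

section

/-!
# BD CAff: the change of the variable is affine
-/

set_option autoImplicit false

open Topology Filter Metric

namespace Pool.Agent.H5.BD

open Pool.Agent.H36.BP (EN fs wd)
open Pool.Agent.H14.PP (IsCone Chart Form Tan aCoef jac)
open Pool.Agent.H62.EF (MN pr det2)

variable {N : ℕ} {X : Set (EN N)} {A : Atlas X} {c L r₀ c₁ K₀ r₂ r₃ ε₃ K : ℝ}

/-- an entire function which is locally Lipschitz with a uniform constant is affine -/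
theorem affine_of_lip {ψ : ℂ → ℂ} {r B : ℝ} (hr : 0 < r) (hB : 0 ≤ B) (hψ : Differentiable ℂ ψ) (hl : ∀ z z', ‖z - z'‖ ≤ r → ‖ψ z - ψ z'‖ ≤ B * ‖z - z'‖) :
    ∃ a, ∀ z, ψ z = a * z + ψ 0 := by
  have h1 : ∀ z, ‖deriv ψ z‖ ≤ B := by
    intro z
    refine (hψ z).hasDerivAt.le_of_lip' hB ?_
    filter_upwards [closedBall_mem_nhds z hr] with w hw
    exact hl w z (by rwa [mem_closedBall, dist_eq_norm] at hw)
  have h2 : Differentiable ℂ (deriv ψ) := fun z => (hψ.analyticAt z).deriv.differentiableAt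
  have h3 : ∀ z, deriv ψ z = deriv ψ 0 := fun z => h2.apply_eq_apply_of_bounded
    (isBounded_iff_forall_norm_le.2 ⟨B, by rintro _ ⟨w, rfl⟩; exact h1 w⟩) z 0
  refine ⟨deriv ψ 0, fun z => ?_⟩
  have h4 : ∀ z, HasDerivAt (fun z => ψ z - deriv ψ 0 * z) 0 z := by
    intro z
    have h5 := (hψ z).hasDerivAt.sub ((hasDerivAt_id z).const_mul (deriv ψ 0))
    rw [h3 z, mul_one, sub_self] at h5
    exact h5
  have h6 := is_const_of_deriv_eq_zero (fun z => (h4 z).differentiableAt) (fun z => (h4 z).deriv) z 0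
  simp only [mul_zero, sub_zero] at h6
  rw [← h6]
  ring

theorem MC.rel_affine (h : MC A c L r₀ c₁ K₀ r₂ r₃ ε₃ K) {r : ℝ} (hr : 0 < r) {F G : ℂ → EN N} (hF : F ∈ BC X c L) (hG : G ∈ BC X c L)
    (hrel : Rel evp r₂ r F G) : ∃ a b : ℂ, a ≠ 0 ∧ ‖b‖ ≤ r₂ ∧ ∀ z, evp G z = evp F (a * z + b) := by
  obtain ⟨ψ, hψ, hψr, hψ0⟩ := hrel
  have hK : 0 < K := lt_of_lt_of_le one_pos (h.lc.one_le.trans h.le_K)
  have hL := h.lc.L_pos
  have hr₂ := h.r₂_pos
  have hr₃ := h.r₃_pos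
  have hlip : ∀ z z', ‖z - z'‖ ≤ r → ‖ψ z - ψ z'‖ ≤ (2 * L * K) * ‖z - z'‖ := by
    intro z z' hz
    have h1 := h.emb F hF (ψ z) (ψ z') ((hψr z z' hz).trans (by linarith))
    have h2 := h.lc.lip G hG z z'
    have h3 : dist (pr (F (ψ z))) (pr (F (ψ z'))) = dist (pr (G z)) (pr (G z')) := by
      have e1 : pr (G z) = pr (F (ψ z)) := hψ z
      have e2 : pr (G z') = pr (F (ψ z')) := hψ z'
      rw [e1, e2]
    rw [h3] at h1
    have h4 := h1.trans h2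
    rw [inv_mul_le_iff₀ hK] at h4
    linarith
  have hdiff : Differentiable ℂ ψ := by
    intro z₀
    have e0 : pr (G z₀) = pr (F (ψ z₀)) := hψ z₀
    obtain ⟨e, ψ', hm⟩ := h.matching F hF G hG (ψ z₀) z₀ (by rw [e0, dist_self]; exact h.ε₃_pos.le)
    have heq : ψ =ᶠ[𝓝 z₀] ψ' := by
      filter_upwards [ball_mem_nhds z₀ hr, ball_mem_nhds z₀ (by positivity : (0 : ℝ) < 2 * r₃)] with z hz hz'
      rw [mem_ball, dist_eq_norm] at hz
      have hw : ψ z ∈ closedBall (ψ z₀) (2 * r₂) := by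
        rw [mem_closedBall, dist_eq_norm]
        exact (hψr z z₀ hz.le).trans (by linarith)
      have h1 := hm.near z hz' (ψ z) hw
      have h2 := A.le_dist _ _ _ (hm.goodF _ hw) (hm.goodG z hz')
      have e1 : pr (G z) = pr (F (ψ z)) := hψ z
      rw [e1, dist_self, mul_zero] at h2
      have h3 : ‖qc A (A.idx (pr (F (ψ z₀)))) F (ψ z) - qc A (A.idx (pr (F (ψ z₀)))) G z‖ ≤ 0 := h2
      have h4 : ‖ψ z - ψ' z‖ ≤ 0 := h1.trans (by nlinarith [norm_nonneg (qc A (A.idx (pr (F (ψ z₀)))) F (ψ z) - qc A (A.idx (pr (F (ψ z₀)))) G z)])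
      exact sub_eq_zero.1 (norm_le_zero_iff.1 h4)
    exact ((hm.hol z₀ (mem_ball_self (by positivity))).differentiableAt (ball_mem_nhds z₀ (by positivity))).congr_of_eventuallyEq heq
  obtain ⟨a, ha⟩ := affine_of_lip hr (by positivity) hdiff hlip
  refine ⟨a, ψ 0, ?_, hψ0, fun z => ?_⟩
  · rintro rfl
    have h1 := h.emb G hG r₂ 0 (by
      rw [sub_zero, Complex.norm_real, Real.norm_eq_abs, abs_of_pos hr₂]
      linarith)
    have e1 : pr (G r₂) = pr (F (ψ r₂)) := hψ r₂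
    have e2 : pr (G 0) = pr (F (ψ 0)) := hψ 0
    rw [e1, e2, ha r₂, zero_mul, zero_add, dist_self, sub_zero, Complex.norm_real, Real.norm_eq_abs, abs_of_pos hr₂] at h1
    have h2 : 0 < K⁻¹ * r₂ := by positivity
    linarith
  · rw [hψ z, ha z]

end Pool.Agent.H5.BD

end

section

/-!
# MQ CoreD: an atlas along a curve, in one variable

The plane is covered by finitely many open sets `U i`.  `e i` is the logarithm of the length of the section in the box `i` (with the weight of the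
invariant curve), `η i` the local field: the conjugate of the meromorphic function `D i` outside the core of the box, a `C¹` modification of it in the core.
-/

set_option autoImplicit false

open Topology Filter Metric MeasureTheory Laplacian

noncomputable section

namespace Pool.Agent.MQ

open Pool.Agent.H30M (LogSing)

/-- **An atlas along a curve**, `l` is the density.  The sets `{χ i = 1}` cover the plane; `bound`: the functions `e i - e j` are bounded where `χ i = 1`,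
`χ j ≠ 0`.  `comp`: `grad (e i) + η i` is (outside the singularities) independent of `i`. -/
structure Patches (l : ℂ → ℝ) {ι : Type} (U : ι → Set ℂ) (χ e : ι → ℂ → ℝ) (η : ι → ℂ → ℂ) (C : ℝ) : Prop where
  isOpen : ∀ i, IsOpen (U i)
  smooth : ∀ i, ContDiff ℝ 2 (χ i)
  nonneg : ∀ i z, 0 ≤ χ i z
  le_one : ∀ i z, χ i z ≤ 1
  supp : ∀ i, tsupport (χ i) ⊆ U i
  gr_le : ∀ i z, ‖gr (χ i) z‖ ≤ C * l z
  cover : ∀ z, ∃ i, χ i z = 1
  log : ∀ i, ∀ z ∈ U i, ∃ c : ℝ, LogSing (e i) c z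
  field : ∀ i, ContDiffOn ℝ 1 (η i) (U i)
  field_le : ∀ i, ∀ z ∈ U i, ‖η i z‖ ≤ C * l z
  comp : ∀ i j, ∀ z ∈ U i, z ∈ U j → ∀ᶠ w in 𝓝[≠] z, gr (e i) w + η i w = gr (e j) w + η j w
  bound : ∀ i j z, χ i z = 1 → z ∈ tsupport (χ j) → ContDiffAt ℝ 2 (e i) z → ContDiffAt ℝ 2 (e j) z → |e i z - e j z| ≤ C

end Pool.Agent.MQ

end
end

section

/-!
# MQ3 LogS0: logarithmic singularities, general lemmas

`log ‖f‖` for a vector valued analytic function `f` (Euclidean norm), for a pair of analytic functions, for `ζ'` (`ztv`); the coefficient is `≥ 0` if the function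
is bounded above.
-/

set_option autoImplicit false

open Topology Filter Metric

noncomputable section

namespace Pool.Agent.MQ3

open Pool.Agent.H30M

/-- `log ‖f‖`, `f` analytic with values in a complex inner product space -/
theorem logSing_norm {E : Type*} [NormedAddCommGroup E] [InnerProductSpace ℂ E] [CompleteSpace E] {f : ℂ → E} {z : ℂ} (hf : AnalyticAt ℂ f z)
    (h : ∃ᶠ w in 𝓝 z, f w ≠ 0) : ∃ k : ℕ, LogSing (fun w => Real.log ‖f w‖) k z := by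
  obtain ⟨k, g, hg, hg0, he⟩ := hf.exists_eventuallyEq_pow_smul_nonzero_iff.2 (by
    intro h0
    exact h (h0.mono fun w hw h1 => h1 hw))
  refine ⟨k, fun w => Real.log ‖g w‖, ?_, ?_⟩
  · have h1 : ContDiffAt ℝ 2 g z := (hg.contDiffAt (n := 2)).restrict_scalars ℝ
    exact (h1.norm ℂ hg0).log (norm_ne_zero_iff.2 hg0)
  · have h3 : ∀ᶠ w in 𝓝[≠] z, g w ≠ 0 := (hg.continuousAt.eventually_ne hg0).filter_mono nhdsWithin_le_nhds
    filter_upwards [he.filter_mono nhdsWithin_le_nhds, h3, self_mem_nhdsWithin] with w e hne hw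
    have hz : ‖w - z‖ ≠ 0 := norm_ne_zero_iff.2 (sub_ne_zero.2 hw)
    rw [e, norm_smul, norm_pow, Real.log_mul (pow_ne_zero _ hz) (norm_ne_zero_iff.2 hne), Real.log_pow]

/-- scalar functions -/
theorem logSing_log {g : ℂ → ℂ} {z : ℂ} (hg : AnalyticAt ℂ g z) (h : ∃ᶠ w in 𝓝 z, g w ≠ 0) : ∃ k : ℕ, LogSing (fun w => Real.log ‖g w‖) k z :=
  logSing_norm hg h

/-- the coefficient is nonnegative if the function is bounded above near the point -/
theorem logSing_nonneg {w : ℂ → ℝ} {c B : ℝ} {z : ℂ} (h : LogSing w c z) (hB : ∃ᶠ ζ in 𝓝[≠] z, w ζ ≤ B) : 0 ≤ c := by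
  by_contra hc
  push Not at hc
  obtain ⟨s, hs, h1⟩ := h
  have h2 : ∀ᶠ ζ in 𝓝[≠] z, s z - 1 < s ζ :=
    (hs.continuousAt.tendsto.eventually (lt_mem_nhds (by linarith))).filter_mono nhdsWithin_le_nhds
  have h3 : Tendsto (fun ζ : ℂ => Real.log ‖ζ - z‖) (𝓝[≠] z) atBot := by
    refine Real.tendsto_log_nhdsGT_zero.comp ?_
    refine tendsto_nhdsWithin_iff.2 ⟨?_, ?_⟩
    · have h4 : Tendsto (fun ζ : ℂ => ‖ζ - z‖) (𝓝 z) (𝓝 ‖z - z‖) := (by fun_prop : Continuous fun ζ : ℂ => ‖ζ - z‖).tendsto z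
      rw [sub_self, norm_zero] at h4
      exact h4.mono_left nhdsWithin_le_nhds
    · filter_upwards [self_mem_nhdsWithin] with ζ hζ
      exact norm_pos_iff.2 (sub_ne_zero.2 hζ)
  have h4 : Tendsto (fun ζ : ℂ => c * Real.log ‖ζ - z‖) (𝓝[≠] z) atTop := h3.const_mul_atBot_of_neg hc
  have h5 : ∀ᶠ ζ in 𝓝[≠] z, B - s z + 1 < c * Real.log ‖ζ - z‖ := h4.eventually_gt_atTop _
  refine hB ?_
  filter_upwards [h1, h2, h5] with ζ e1 e2 e3 e4
  rw [e1] at e4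
  linarith

end Pool.Agent.MQ3

end
end
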