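import Pool.Agent.H94.G6.M13
import Pool.Agent.H94.G6.M51
import Pool.Agent.H94.G6.M57

/-! The parts of this file: H14.KB.KobFinal, H7.Bir.Open, SY.RDefs. -/

section

/-!
# Pseudo Brody hyperbolic surfaces are Kobayashi hyperbolic modulo a proper closed subset
-/

open Topology Filter MvPolynomial Metric

noncomputable section

namespace Pool.Agent.H14.KB

open Pool.Agent
open Pool.Agent.H17 (PN VanishesAt ZariskiClosedIn HolomorphicInto puncturedDisc)

variable {N : ℕ} {P : Ideal (MvPolynomial (Fin (N + 1)) ℂ)}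

/-- `X` is Kobayashi hyperbolic modulo the set of the zeros of `Q`, a form of degree `D`: for every
holomorphic map `f` from the unit disc to `X`, with a lift `F` near `0`, the length of the derivative
of `f` at `0` with respect to the Fubini–Study metric (that is, the distance of `F' 0` from the line
through `F 0`, divided by the norm of `F 0`), multiplied by a power of `|Q (F 0)| / |F 0| ^ D`, is at
most `C`. -/
def KobayashiHyperbolicModulo (X : Set (PN N)) (Q : MvPolynomial (Fin (N + 1)) ℂ) (D : ℕ) : Prop :=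
  ∃ (M : ℕ) (C : ℝ), ∀ (f : ℂ → PN N) (F : ℂ → Fin (N + 1) → ℂ), HolomorphicInto f (ball 0 1) →
    (∀ z ∈ ball (0 : ℂ) 1, f z ∈ X) → AnalyticAt ℂ F 0 →
    (∀ᶠ z in 𝓝 (0 : ℂ), ∃ h : F z ≠ 0, f z = Projectivization.mk ℂ (F z) h) →
    ∃ a : ℂ, (‖eval (F 0) Q‖ / ‖F 0‖ ^ D) ^ M * ‖deriv F 0 - a • F 0‖ ≤ C * ‖F 0‖

end Pool.Agent.H14.KB

end
end

section

/-!
# Bir Open: the four properties for Zariski open subsets of projective varieties

`open_four`: if the closed subvariety `X` of `ℙ^N` has the properties of the conjecture with the exceptional set `Ξ`, then every nonempty Zariski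
open subset `U` of `X` has them with the exceptional set `Ξ ∩ U`.  `bir_open_four`: if `X` has the properties, then every quasi-projective variety
which is birational to `X` has them.
-/

set_option autoImplicit false

open Topology Filter MvPolynomial

noncomputable section

namespace Pool.Agent.H7.Bir

open Pool.Agent.H17 (PN VanishesAt HolomorphicInto puncturedDisc ZariskiClosedIn)
open Pool.Agent.H17GT (coordFun)
open Pool.Agent.H17LG.Variety (FunField IsLogGeneralType)
open Pool.Agent.H62.FC (Homog)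
open Pool.Agent.H62.SA (locVar OnBd)

variable {N M : ℕ}

/-- The properties of the conjecture for the quasi-projective variety `U = locVar P G`, with the exceptional set `Ξ`. -/
structure GGLOpen (P : Ideal (MvPolynomial (Fin (N + 1)) ℂ)) [P.IsPrime] {s : ℕ} (G : Fin s → MvPolynomial (Fin (N + 1)) ℂ)
    (Ξ : Set (PN N)) : Prop where
  closed : ZariskiClosedIn (locVar P G) Ξ
  proper : Ξ ≠ locVar P G
  logGeneralType : ∀ w, 1 ≤ w → (∃ z : Fin w → FunField P, IsTranscendenceBasis ℂ z) → IsLogGeneralType (OnBd P G (k := w))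
  picard : ∀ f : ℂ → PN N, HolomorphicInto f puncturedDisc → (∀ z ∈ puncturedDisc, f z ∈ locVar P G) →
    (∃ z ∈ puncturedDisc, f z ∉ Ξ) →
    ∃ g : ℂ → PN N, HolomorphicInto g (Metric.ball 0 1) ∧ ∀ z ∈ puncturedDisc, g z = f z
  brody : ∀ f : ℂ → PN N, HolomorphicInto f Set.univ → (∀ z, f z ∈ locVar P G) → (∃ z w, f z ≠ f w) → ∀ z, f z ∈ Ξ
  strongly : ∀ (Q : Ideal (MvPolynomial (Fin (N + 1)) ℂ)) [Q.IsPrime], Homog Q → P ≤ Q → ¬ locVar Q G ⊆ Ξ →
    ∀ w, 1 ≤ w → (∃ z : Fin w → FunField Q, IsTranscendenceBasis ℂ z) → IsLogGeneralType (OnBd Q G (k := w))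

end Pool.Agent.H7.Bir

end
end

section

/-!
# SY RDefs: the conclusion
-/

set_option autoImplicit false

open MvPolynomial

namespace Pool.Agent.SY

open Pool.Agent.H17 (PN VanishesAt)
open Pool.Agent.H62.FC (Homog)
open Pool.Agent.H62.SA (locVar OnBd)
open Pool.Agent.H62.Qe (IsEtaleOver)
open Pool.Agent.H7.Bir (GGLOpen)
open Pool.Agent.H17LG.Variety (FunField IsLogGeneralType)
open Pool.Agent.H17EF (projVar)
open Pool.Agent.H14.KB (KobayashiHyperbolicModulo)

variable {N : ℕ}

/-- The conclusion, for the surface `X` given by `P`: the properties of the Green–Griffiths–Lang conjecture (`GGLOpen`) hold for `X` and for all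
quasi-projective surfaces which dominate `X`, or virtually dominate `X`. -/
structure IsHyperbolicSurface (P : Ideal (MvPolynomial (Fin (N + 1)) ℂ)) [P.IsPrime] : Prop where
  /-- every quasi-projective surface `U = locVar R G` with a dominant rational map to `X` (for instance `X` itself) has the properties of the
  conjecture, with some exceptional set `Ξ` -/
  dominating : ∀ (M s : ℕ) (R : Ideal (MvPolynomial (Fin (M + 1)) ℂ)) [R.IsPrime] (G : Fin s → MvPolynomial (Fin (M + 1)) ℂ),
    Homog R → (∀ i, ∃ e, (G i).IsHomogeneous e) → (locVar R G).Nonempty → (∃ z : Fin 2 → FunField R, IsTranscendenceBasis ℂ z) →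
    Nonempty (FunField P →ₐ[ℂ] FunField R) → ∃ Ξ : Set (PN M), GGLOpen R G Ξ
  /-- every quasi-projective surface `U = locVar R G` of log general type with a finite étale covering `U' = locVar P' G'` (given by a regular
  map `q` of the closures with `q⁻¹ (U) = U'`) and a dominant rational map from `U'` to `X` has the properties of the conjecture -/
  virtual : ∀ (M L s s' : ℕ) (P' : Ideal (MvPolynomial (Fin (M + 1)) ℂ)) [P'.IsPrime] (R : Ideal (MvPolynomial (Fin (L + 1)) ℂ)) [R.IsPrime]
    (G : Fin s → MvPolynomial (Fin (L + 1)) ℂ) (G' : Fin s' → MvPolynomial (Fin (M + 1)) ℂ) (q : PN M → PN L),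
    Homog P' → Homog R → (∀ i, ∃ e, (G i).IsHomogeneous e) → (∀ i, ∃ e, (G' i).IsHomogeneous e) → (∃ i, G i ∉ R) →
    (∃ z : Fin 2 → FunField P', IsTranscendenceBasis ℂ z) → (∃ z : Fin 2 → FunField R, IsTranscendenceBasis ℂ z) →
    Nonempty (FunField P →ₐ[ℂ] FunField P') → IsEtaleOver R P' G G' q → IsLogGeneralType (OnBd R G (k := 2)) → ∃ Ξ : Set (PN L), GGLOpen R G Ξ
  /-- the Kobayashi metric of `X` is bounded below by a power of `|Q|`, for a form `Q` which is not `0` on `X` -/
  kobayashi : ∃ (Q : MvPolynomial (Fin (N + 1)) ℂ) (D : ℕ), Q.IsHomogeneous D ∧ (∃ x ∈ projVar P, ¬ VanishesAt Q x) ∧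
    KobayashiHyperbolicModulo (projVar P) Q D

end Pool.Agent.SY

end
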