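import Mathlib

/-! The parts of this file: H30M.Calc, H30M.Green. -/

section

/-!
# Calculus of gradients and Laplacians on the complex plane
-/

set_option autoImplicit false

open MeasureTheory Complex Set Filter Topology Laplacian InnerProductSpace

namespace Pool.Agent.H30M

/-- scalar product of gradients -/
noncomputable def gg (u v : ℂ → ℝ) (z : ℂ) : ℝ :=
  fderiv ℝ u z 1 * fderiv ℝ v z 1 + fderiv ℝ u z I * fderiv ℝ v z I

theorem fderiv_comp_real {φ : ℝ → ℝ} {u : ℂ → ℝ} {z : ℂ} (hφ : DifferentiableAt ℝ φ (u z))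
    (hu : DifferentiableAt ℝ u z) (v : ℂ) :
    fderiv ℝ (fun w => φ (u w)) z v = deriv φ (u z) * fderiv ℝ u z v := by
  have h := hφ.hasDerivAt.comp_hasFDerivAt z hu.hasFDerivAt
  have h' : HasFDerivAt (fun w => φ (u w)) (deriv φ (u z) • fderiv ℝ u z) z := h
  rw [h'.fderiv]
  simp

end Pool.Agent.H30M

end

section

/-!
# Green's identities for test functions on the complex plane
-/

set_option autoImplicit false

open MeasureTheory Complex Set Filter Topology Laplacian InnerProductSpace

namespace Pool.Agent.H30M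

/-- The Laplacian of a `C²` function by partial derivatives. -/
theorem lap_eq {u : ℂ → ℝ} {z : ℂ} (hu : ContDiffAt ℝ 2 u z) :
    Δ u z = fderiv ℝ (fun w => fderiv ℝ u w 1) z 1 + fderiv ℝ (fun w => fderiv ℝ u w I) z I := by
  have hd : DifferentiableAt ℝ (fderiv ℝ u) z := (hu.fderiv_right (m := 1) (by norm_num)).differentiableAt (by norm_num)
  have key : ∀ v : ℂ, fderiv ℝ (fun w => fderiv ℝ u w v) z v = iteratedFDeriv ℝ 2 u z ![v, v] := by
    intro v
    rw [iteratedFDeriv_two_apply]
    rw [fderiv_clm_apply hd (by fun_prop)]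
    simp
  rw [laplacian_eq_iteratedFDeriv_complexPlane, key, key]

theorem contDiffAt_d {u : ℂ → ℝ} {z : ℂ} (hu : ContDiffAt ℝ 2 u z) (v : ℂ) :
    ContDiffAt ℝ 1 (fun w => fderiv ℝ u w v) z :=
  (hu.fderiv_right (m := 1) (by norm_num)).clm_apply contDiffAt_const

end Pool.Agent.H30M

end
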