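import Pool.Agent.H94.G6.M13
import Pool.Agent.H94.G6.M30
import Pool.Agent.H94.G6.M32
import Pool.Agent.H94.G6.M72

/-! The parts of this file: H36.TB.CmpCh, H36.TB.CmpNo, H36.TB.Met. -/

section

/-!
# TB CmpCh: comparison of the model metrics of two charts
-/

set_option autoImplicit false

open Topology Filter Metric

namespace Pool.Agent.H36.TB

open Pool.Agent.H36.BP
open Pool.Agent.H14.PP

variable {N : ℕ} {X K T : Set (EN N)} {m j : ℕ}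

/-! ## two charts -/

theorem ch_pt (χ χ' : Chart X) {y : ℂ × ℂ} (hy : y ∈ ball (0 : ℂ × ℂ) 2) (hU : χ.σ y ∈ χ'.U) :
    χ'.q (χ.σ y) ∈ ball (0 : ℂ × ℂ) 2 ∧ χ'.σ (χ'.q (χ.σ y)) ∈ χ.U ∧
      χ.q (χ'.σ (χ'.q (χ.σ y))) = y ∧ ∃ c : ℂ, c ≠ 0 ∧ χ'.σ (χ'.q (χ.σ y)) = c • χ.σ y := by
  obtain ⟨h1, h2, h3⟩ := χ.σ_mem y hy
  obtain ⟨h4, c, hc, h5⟩ := χ'.surj _ h1 hU
  have h6 : χ'.σ (χ'.q (χ.σ y)) = c⁻¹ • χ.σ y := by
    conv_rhs => rw [h5]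
    rw [smul_smul, inv_mul_cancel₀ hc, one_smul]
  have hc' : c⁻¹ ≠ 0 := inv_ne_zero hc
  refine ⟨h4, ?_, ?_, c⁻¹, hc', h6⟩
  · rw [h6]
    exact χ.smul_U _ h2 _ hc'
  · rw [h6, χ.q_smul _ h2 _ hc', h3]

theorem ch_an (χ χ' : Chart X) {y : ℂ × ℂ} (hy : y ∈ ball (0 : ℂ × ℂ) 2)
    (hU : χ.σ y ∈ χ'.U) : AnalyticAt ℂ (fun y => χ'.q (χ.σ y)) y :=
  AnalyticAt.comp (g := χ'.q) (f := χ.σ) (χ'.q_an _ hU) (χ.σ_an y hy)

theorem ch_near (χ χ' : Chart X) {y : ℂ × ℂ} (hy : y ∈ ball (0 : ℂ × ℂ) 2)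
    (hU : χ.σ y ∈ χ'.U) : ∀ᶠ z in 𝓝 y, z ∈ ball (0 : ℂ × ℂ) 2 ∧ χ.σ z ∈ χ'.U := by
  have h1 : ∀ᶠ z in 𝓝 y, z ∈ ball (0 : ℂ × ℂ) 2 := isOpen_ball.mem_nhds hy
  have h2 : ∀ᶠ x in 𝓝 (χ.σ y), x ∈ χ'.U := χ'.isOpen_U.mem_nhds hU
  exact h1.and ((χ.σ_an y hy).continuousAt.tendsto.eventually h2)

/-- the two changes of charts are inverse to each other -/
theorem ch_inv (χ χ' : Chart X) {y : ℂ × ℂ} (hy : y ∈ ball (0 : ℂ × ℂ) 2) (hU : χ.σ y ∈ χ'.U) (w : ℂ × ℂ) :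
    fderiv ℂ (fun y => χ.q (χ'.σ y)) (χ'.q (χ.σ y)) (fderiv ℂ (fun y => χ'.q (χ.σ y)) y w) = w := by
  obtain ⟨a1, a2, a3, -⟩ := ch_pt χ χ' hy hU
  have hτ := ch_an χ χ' hy hU
  have hη := ch_an χ' χ a1 a2
  have hid : ∀ᶠ z in 𝓝 y, χ.q (χ'.σ (χ'.q (χ.σ z))) = z := by
    filter_upwards [ch_near χ χ' hy hU] with z hz
    exact (ch_pt χ χ' hz.1 hz.2).2.2.1
  have h1 : HasFDerivAt ((fun y => χ.q (χ'.σ y)) ∘ fun y => χ'.q (χ.σ y))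
      ((fderiv ℂ (fun y => χ.q (χ'.σ y)) (χ'.q (χ.σ y))).comp (fderiv ℂ (fun y => χ'.q (χ.σ y)) y)) y :=
    HasFDerivAt.comp (f := fun y => χ'.q (χ.σ y)) y hη.differentiableAt.hasFDerivAt hτ.differentiableAt.hasFDerivAt
  have h2 : HasFDerivAt ((fun y => χ.q (χ'.σ y)) ∘ fun y => χ'.q (χ.σ y)) (ContinuousLinearMap.id ℂ (ℂ × ℂ)) y :=
    (hasFDerivAt_id y).congr_of_eventuallyEq hid
  have h3 := h1.unique h2
  have h4 := congrArg (fun L : (ℂ × ℂ) →L[ℂ] (ℂ × ℂ) => L w) h3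
  simpa using h4

/-! ## the coefficients -/

theorem ACoef_cmp (hX : IsCone X) (hK : IsOpenPart X K) (hm : 1 ≤ m) (Ω : Form K m j) (χ χ' : Chart X) {p : ℂ × ℂ}
    (hp : p ∈ ball (0 : ℂ × ℂ) 2) (hU : χ.σ p ∈ χ'.U) :
    ∃ B : ℝ, 1 ≤ B ∧ ∀ᶠ y in 𝓝 p, χ.σ y ∈ K → ACoef Ω χ y ≤ B * ACoef Ω χ' (χ'.q (χ.σ y)) ∧
      ACoef Ω χ' (χ'.q (χ.σ y)) ≤ B * ACoef Ω χ y := by
  set τ : ℂ × ℂ → ℂ × ℂ := fun y => χ'.q (χ.σ y) with hτ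
  have hJ : jac τ p ≠ 0 := jac_ne_zero hX χ χ' hp hU
  have hτa : AnalyticAt ℂ τ p := ch_an χ χ' hp hU
  have hJc : ContinuousAt (fun y => ‖jac τ y‖) p := by
    have h1 : ContinuousAt (fderiv ℂ τ) p := hτa.fderiv.continuousAt
    have h2 : ∀ w : ℂ × ℂ, ContinuousAt (fun y => fderiv ℂ τ y w) p := fun w => h1.clm_apply continuousAt_const
    unfold jac
    exact ((((h2 (1, 0)).fst.mul (h2 (0, 1)).snd).sub ((h2 (0, 1)).fst.mul (h2 (1, 0)).snd))).norm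
  set a : ℝ := ‖jac τ p‖ with ha
  have ha0 : 0 < a := norm_pos_iff.2 hJ
  refine ⟨1 + (a + 1) + 2 / a, by have : 0 < 2 / a := by positivity
                                  linarith, ?_⟩
  have e1 : ∀ᶠ y in 𝓝 p, a / 2 < ‖jac τ y‖ := hJc.eventually (lt_mem_nhds (by linarith))
  have e2 : ∀ᶠ y in 𝓝 p, ‖jac τ y‖ < a + 1 := hJc.eventually (gt_mem_nhds (by linarith))
  filter_upwards [e1, e2, ch_near χ χ' hp hU] with y h1 h2 h3 hyK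
  have h4 := ACoef_trans hX hK hm Ω χ χ' h3.1 hyK h3.2
  have h5 : 0 ≤ ACoef Ω χ' (χ'.q (χ.σ y)) := ACoef_nonneg Ω χ' _
  have h6 : 0 ≤ ACoef Ω χ y := ACoef_nonneg Ω χ _
  have h7 : 0 < 2 / a := by positivity
  constructor
  · rw [h4]
    refine mul_le_mul_of_nonneg_right ?_ h5
    have : ‖jac (fun y => χ'.q (χ.σ y)) y‖ < a + 1 := h2
    linarith
  · have h8 : a / 2 * ACoef Ω χ' (χ'.q (χ.σ y)) ≤ ACoef Ω χ y := by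
      rw [h4]
      exact mul_le_mul_of_nonneg_right h1.le h5
    calc ACoef Ω χ' (χ'.q (χ.σ y)) = 2 / a * (a / 2 * ACoef Ω χ' (χ'.q (χ.σ y))) := by field_simp
      _ ≤ 2 / a * ACoef Ω χ y := mul_le_mul_of_nonneg_left h8 h7.le
      _ ≤ (1 + (a + 1) + 2 / a) * ACoef Ω χ y := mul_le_mul_of_nonneg_right (by linarith) h6

/-! ## smooth points -/

/-- one direction -/
theorem sm_chart (hX : IsCone X) (χ χ' : Chart X) {t₀ : ℂ} (ht₀ : ‖t₀‖ < 2) (hU : χ.σ (0, t₀) ∈ χ'.U)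
    (h0 : ∀ᶠ t in 𝓝 t₀, (χ'.q (χ.σ (0, t))).1 = 0) :
    ∃ B : ℝ, 1 ≤ B ∧ ∀ᶠ y in 𝓝 ((0 : ℂ), t₀), ∀ κ : ℝ, 0 ≤ κ → κ ≤ 1 / 4 → ∀ w,
      sm κ (χ'.q (χ.σ y)) (fderiv ℂ (fun y => χ'.q (χ.σ y)) y w) ≤ B * sm κ y w := by
  have hp : ((0 : ℂ), t₀) ∈ ball (0 : ℂ × ℂ) 2 := by
    rw [mem_ball_zero_iff, Prod.norm_def]
    simpa using ht₀
  obtain ⟨C, hC, hev⟩ := TE_local (ch_an χ χ' hp hU) (jac_ne_zero hX χ χ' hp hU) h0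
  refine ⟨4 * C ^ 2, by nlinarith, ?_⟩
  have e1 : ∀ᶠ y : ℂ × ℂ in 𝓝 ((0 : ℂ), t₀), ‖y.1‖ < 1 := by
    have h1 : ContinuousAt (fun y : ℂ × ℂ => ‖y.1‖) ((0 : ℂ), t₀) := continuous_fst.norm.continuousAt
    exact h1.eventually (gt_mem_nhds (by simp))
  filter_upwards [hev, e1] with y h1 h2 κ hκ0 hκ w
  exact sm_change hC hκ0 hκ h1 h2.le w

/-- the axis of a chart in another chart -/
theorem axis_chart (hX : IsCone X) (hT : ∀ x ∈ T, ∀ c : ℂ, c ≠ 0 → c • x ∈ T) (χ χ' : Chart X) {nd nd' : Bool}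
    (h : HasType T χ nd) (h' : HasType T χ' nd') {t₀ : ℂ} (ht₀ : ‖t₀‖ < 2) (hnd : nd = true → t₀ ≠ 0)
    (hU : χ.σ (0, t₀) ∈ χ'.U) :
    ∃ b : Bool, (b = true → nd' = true) ∧ (∀ᶠ t in 𝓝 t₀, ((χ'.orient b).q (χ.σ (0, t))).1 = 0) ∧
      (nd' = true → ((χ'.orient b).q (χ.σ (0, t₀))).2 ≠ 0) := by
  have hp : ((0 : ℂ), t₀) ∈ ball (0 : ℂ × ℂ) 2 := by
    rw [mem_ball_zero_iff, Prod.norm_def]
    simpa using ht₀
  have hτc : ContinuousAt (fun y => χ'.q (χ.σ y)) (0, t₀) := (ch_an χ χ' hp hU).continuousAt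
  have hpt : Tendsto (fun t : ℂ => ((0 : ℂ), t)) (𝓝 t₀) (𝓝 ((0 : ℂ), t₀)) := by
    have hc : Continuous fun t : ℂ => ((0 : ℂ), t) := by fun_prop
    exact hc.tendsto t₀
  have hkey : ∀ᶠ t in 𝓝 t₀, (χ'.q (χ.σ (0, t))).1 = 0 ∨
      (nd' = true ∧ (χ'.q (χ.σ (0, t))).2 = 0) := by
    filter_upwards [hpt.eventually (ch_near χ χ' hp hU)] with t ht
    have hxX := (χ.σ_mem _ ht.1).1
    have hxT : χ.σ (0, t) ∈ T := (h _ ht.1).2 (Or.inl rfl)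
    have h3 := (χ'.sigma_mem_iff hxX ht.2 hT).2 hxT
    exact (h' _ (χ'.surj _ hxX ht.2).1).1 h3
  have eF : χ'.orient false = χ' := by simp [Chart.orient]
  have eT : χ'.orient true = χ'.swap := by simp [Chart.orient]
  by_cases hn : nd' = true
  · by_cases h2 : (χ'.q (χ.σ (0, t₀))).2 = 0
    · have h1 : (χ'.q (χ.σ (0, t₀))).1 ≠ 0 := by
        intro h1
        exact not_node hX hT χ χ' h (hn ▸ h') (t₀ := t₀) ht₀ hnd hU (Prod.ext h1 h2)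
      have hne : ∀ᶠ t in 𝓝 t₀, (χ'.q (χ.σ (0, t))).1 ≠ 0 :=
        hpt.eventually (hτc.fst.eventually_ne h1)
      refine ⟨true, fun _ => hn, ?_, fun _ => ?_⟩
      · rw [eT]
        filter_upwards [hkey, hne] with t ht1 ht2
        rcases ht1 with ht1 | ht1
        · exact absurd ht1 ht2
        · exact ht1.2
      · rw [eT]
        exact h1
    · have hne : ∀ᶠ t in 𝓝 t₀, (χ'.q (χ.σ (0, t))).2 ≠ 0 :=
        hpt.eventually (hτc.snd.eventually_ne h2)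
      refine ⟨false, fun h => absurd h (by decide), ?_, fun _ => ?_⟩
      · rw [eF]
        filter_upwards [hkey, hne] with t ht1 ht2
        rcases ht1 with ht1 | ht1
        · exact ht1
        · exact absurd ht1.2 ht2
      · rw [eF]
        exact h2
  · refine ⟨false, fun h => absurd h (by decide), ?_, fun h => absurd h hn⟩
    rw [eF]
    filter_upwards [hkey] with t ht1
    rcases ht1 with ht1 | ht1
    · exact ht1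
    · exact absurd ht1.1 hn

theorem orient_q (b : Bool) (χ : Chart X) (x : EN N) : (χ.orient b).q x = ori b (χ.q x) := by
  cases b
  · rfl
  · rfl

theorem orient_U (b : Bool) (χ : Chart X) : (χ.orient b).U = χ.U := by
  cases b
  · rfl
  · rfl

theorem norm_ori (b : Bool) (p : ℂ × ℂ) : ‖ori b p‖ = ‖p‖ := by
  cases b
  · simp [ori]
  · simp only [ori, if_true, Prod.norm_def, Prod.fst_swap, Prod.snd_swap]
    exact max_comm _ _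

theorem sg_ori {b nd : Bool} (hb : b = true → nd = true) (κ : ℝ) (p w : ℂ × ℂ) : sg nd κ (ori b p) (ori b w) = sg nd κ p w := by
  cases b
  · rfl
  · have h := hb rfl
    subst h
    rw [sg_true, sg_true]
    exact sn_swap κ p w

theorem fderiv_ori (b : Bool) {f : ℂ × ℂ → ℂ × ℂ} {y : ℂ × ℂ} (hf : DifferentiableAt ℂ f y) (w : ℂ × ℂ) :
    fderiv ℂ (fun y => ori b (f y)) y w = ori b (fderiv ℂ f y w) := by
  cases b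
  · rfl
  · have h1 : HasFDerivAt (fun y => ori true (f y))
        (((ContinuousLinearMap.snd ℂ ℂ ℂ).prod (ContinuousLinearMap.fst ℂ ℂ ℂ)).comp (fderiv ℂ f y)) y := by
      have h2 : HasFDerivAt (fun p : ℂ × ℂ => ori true p)
          ((ContinuousLinearMap.snd ℂ ℂ ℂ).prod (ContinuousLinearMap.fst ℂ ℂ ℂ)) (f y) :=
        ((ContinuousLinearMap.snd ℂ ℂ ℂ).prod (ContinuousLinearMap.fst ℂ ℂ ℂ)).hasFDerivAt
      exact HasFDerivAt.comp (g := fun p : ℂ × ℂ => ori true p) (f := f) y h2 hf.hasFDerivAt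
    rw [h1.fderiv]
    rfl

/-- **Comparison at a smooth point of the curve.** -/
theorem cmp_smooth (hX : IsCone X) (hT : ∀ x ∈ T, ∀ c : ℂ, c ≠ 0 → c • x ∈ T) (χ χ' : Chart X) {nd nd' : Bool}
    (h : HasType T χ nd) (h' : HasType T χ' nd') {t₀ : ℂ} (ht₀ : ‖t₀‖ < 2) (hnd : nd = true → t₀ ≠ 0)
    (hU : χ.σ (0, t₀) ∈ χ'.U) :
    ∃ B : ℝ, 1 ≤ B ∧ ∀ᶠ y in 𝓝 ((0 : ℂ), t₀), ‖χ'.q (χ.σ y)‖ ≤ 1 → ∀ κ : ℝ, 0 ≤ κ → κ ≤ 1 / 4 → ∀ w,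
      sm κ y w ≤ B * sg nd' κ (χ'.q (χ.σ y)) (fderiv ℂ (fun y => χ'.q (χ.σ y)) y w) ∧
      sg nd' κ (χ'.q (χ.σ y)) (fderiv ℂ (fun y => χ'.q (χ.σ y)) y w) ≤ B * sm κ y w := by
  have hp : ((0 : ℂ), t₀) ∈ ball (0 : ℂ × ℂ) 2 := by
    rw [mem_ball_zero_iff, Prod.norm_def]
    simpa using ht₀
  obtain ⟨b, hb, h0, h2⟩ := axis_chart hX hT χ χ' h h' ht₀ hnd hU
  set χ₂ := χ'.orient b with hχ₂
  have hU₂ : χ.σ (0, t₀) ∈ χ₂.U := by rw [hχ₂, orient_U]; exact hU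
  have h'₂ : HasType T χ₂ nd' := hasType_orient h' hb
  obtain ⟨B₁, hB₁, hev₁⟩ := sm_chart hX χ χ₂ ht₀ hU₂ h0
  -- the inverse change
  obtain ⟨a1, a2, a3, -⟩ := ch_pt χ χ₂ hp hU₂
  set t₁ : ℂ := (χ₂.q (χ.σ (0, t₀))).2 with ht₁
  have hp₁ : χ₂.q (χ.σ (0, t₀)) = ((0 : ℂ), t₁) := Prod.ext h0.self_of_nhds rfl
  rw [hp₁] at a1 a2 a3
  have ht₁' : ‖t₁‖ < 2 := by
    rw [mem_ball_zero_iff, Prod.norm_def] at a1
    exact (le_max_right _ _).trans_lt a1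
  have h0' : ∀ᶠ t in 𝓝 t₁, (χ.q (χ₂.σ (0, t))).1 = 0 := by
    have hpt : Tendsto (fun t : ℂ => ((0 : ℂ), t)) (𝓝 t₁) (𝓝 ((0 : ℂ), t₁)) := by
      have hc : Continuous fun t : ℂ => ((0 : ℂ), t) := by fun_prop
      exact hc.tendsto t₁
    have hηc : ContinuousAt (fun y => χ.q (χ₂.σ y)) (0, t₁) := (ch_an χ₂ χ a1 a2).continuousAt
    have hne : ∀ᶠ t in 𝓝 t₁, nd = true → (χ.q (χ₂.σ (0, t))).2 ≠ 0 := by
      by_cases hn : nd = true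
      · have h3 : (χ.q (χ₂.σ (0, t₁))).2 ≠ 0 := by
          rw [a3]
          exact hnd hn
        exact (hpt.eventually (hηc.snd.eventually_ne h3)).mono fun t ht _ => ht
      · exact Eventually.of_forall fun t hq => absurd hq hn
    filter_upwards [hpt.eventually (ch_near χ₂ χ a1 a2), hne] with t ht ht2
    have hxX := (χ₂.σ_mem _ ht.1).1
    have hxT : χ₂.σ (0, t) ∈ T := (h'₂ _ ht.1).2 (Or.inl rfl)
    have h3 := (χ.sigma_mem_iff hxX ht.2 hT).2 hxT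
    rcases (h _ (χ.surj _ hxX ht.2).1).1 h3 with h4 | h4
    · exact h4
    · exact absurd h4.2 (ht2 h4.1)
  obtain ⟨B₂, hB₂, hev₂⟩ := sm_chart hX χ₂ χ ht₁' a2 h0'
  have hτc : ContinuousAt (fun y => χ₂.q (χ.σ y)) ((0 : ℂ), t₀) := (ch_an χ χ₂ hp hU₂).continuousAt
  have hev₂' : ∀ᶠ y in 𝓝 ((0 : ℂ), t₀), ∀ κ : ℝ, 0 ≤ κ → κ ≤ 1 / 4 → ∀ w,
      sm κ (χ.q (χ₂.σ (χ₂.q (χ.σ y)))) (fderiv ℂ (fun y => χ.q (χ₂.σ y)) (χ₂.q (χ.σ y)) w) ≤ B₂ * sm κ (χ₂.q (χ.σ y)) w := by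
    have h3 : Tendsto (fun y => χ₂.q (χ.σ y)) (𝓝 ((0 : ℂ), t₀)) (𝓝 ((0 : ℂ), t₁)) := by
      have := hτc.tendsto
      rwa [hp₁] at this
    exact h3.eventually hev₂
  -- the lower bound of the second coordinate
  obtain ⟨β, hβ0, hβ1, hβ⟩ : ∃ β : ℝ, 0 < β ∧ β ≤ 1 ∧ ∀ᶠ y in 𝓝 ((0 : ℂ), t₀), nd' = true → β ≤ ‖(χ₂.q (χ.σ y)).2‖ := by
    by_cases hn : nd' = true
    · have h3 : 0 < ‖t₁‖ := norm_pos_iff.2 (h2 hn)
      refine ⟨min 1 (‖t₁‖ / 2), lt_min one_pos (by linarith), min_le_left _ _, ?_⟩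
      have h4 : ∀ᶠ y in 𝓝 ((0 : ℂ), t₀), ‖t₁‖ / 2 < ‖(χ₂.q (χ.σ y)).2‖ :=
        hτc.snd.norm.eventually (lt_mem_nhds (by
          show ‖t₁‖ / 2 < ‖(χ₂.q (χ.σ (0, t₀))).2‖
          rw [← ht₁]
          linarith))
      exact h4.mono fun y hy _ => (min_le_right _ _).trans hy.le
    · exact ⟨1, one_pos, le_rfl, Eventually.of_forall fun y hy => absurd hy hn⟩
  refine ⟨max (B₂ / β) B₁, le_max_of_le_right hB₁, ?_⟩
  filter_upwards [hev₁, hev₂', hβ, ch_near χ χ₂ hp hU₂] with y e1 e2 e3 e4 hy1 κ hκ0 hκ w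
  obtain ⟨b1, b2, b3, -⟩ := ch_pt χ χ₂ e4.1 e4.2
  have f1 := e1 κ hκ0 hκ w
  have f2 := e2 κ hκ0 hκ (fderiv ℂ (fun y => χ₂.q (χ.σ y)) y w)
  rw [b3, ch_inv χ χ₂ e4.1 e4.2] at f2
  have g1 : (fun y => χ₂.q (χ.σ y)) = fun y => ori b (χ'.q (χ.σ y)) := by
    funext y
    rw [hχ₂, orient_q]
  have hU' : χ.σ y ∈ χ'.U := by
    have := e4.2
    rwa [hχ₂, orient_U] at this
  have g2 : fderiv ℂ (fun y => χ₂.q (χ.σ y)) y w = ori b (fderiv ℂ (fun y => χ'.q (χ.σ y)) y w) := by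
    rw [g1]
    exact fderiv_ori b (ch_an χ χ' e4.1 hU').differentiableAt w
  have g3 : χ₂.q (χ.σ y) = ori b (χ'.q (χ.σ y)) := by rw [hχ₂, orient_q]
  have hn1 : ‖(χ₂.q (χ.σ y)).2‖ ≤ 1 := (norm_snd_le _).trans (by rw [g3, norm_ori]; exact hy1)
  obtain ⟨g4, g5⟩ := sg_sm (w := fderiv ℂ (fun y => χ₂.q (χ.σ y)) y w) hκ0 hκ hn1 hβ0 hβ1 e3
  rw [g3, g2, sg_ori hb] at g4 g5
  rw [g3, g2] at f1 f2
  have s0 := sm_nonneg κ y w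
  have s1 := sg_nonneg nd' κ (χ'.q (χ.σ y)) (fderiv ℂ (fun y => χ'.q (χ.σ y)) y w)
  constructor
  · calc sm κ y w ≤ B₂ * sm κ (ori b (χ'.q (χ.σ y))) (ori b (fderiv ℂ (fun y => χ'.q (χ.σ y)) y w)) := f2
      _ = B₂ / β * (β * sm κ (ori b (χ'.q (χ.σ y))) (ori b (fderiv ℂ (fun y => χ'.q (χ.σ y)) y w))) := by
          field_simp
      _ ≤ B₂ / β * sg nd' κ (χ'.q (χ.σ y)) (fderiv ℂ (fun y => χ'.q (χ.σ y)) y w) :=
          mul_le_mul_of_nonneg_left g4 (by positivity)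
      _ ≤ _ := mul_le_mul_of_nonneg_right (le_max_left _ _) s1
  · exact (g5.trans f1).trans (mul_le_mul_of_nonneg_right (le_max_right _ _) s0)

end Pool.Agent.H36.TB

end

section

/-!
# TB CmpNo: comparison of the model metrics of two charts at a node
-/

set_option autoImplicit false

open Topology Filter Metric

namespace Pool.Agent.H36.TB

open Pool.Agent.H36.BP
open Pool.Agent.H14.PP

variable {N : ℕ} {X K T : Set (EN N)} {m j : ℕ}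

private theorem CmpNo_zero_mem : (0 : ℂ × ℂ) ∈ ball (0 : ℂ × ℂ) 2 := mem_ball_self (by norm_num)

/-- a node is a node in every chart -/
theorem node_chart (hX : IsCone X) (hT : ∀ x ∈ T, ∀ c : ℂ, c ≠ 0 → c • x ∈ T) (χ χ' : Chart X) {nd' : Bool}
    (h : HasType T χ true) (h' : HasType T χ' nd') (hU : χ.σ 0 ∈ χ'.U) : nd' = true ∧ χ'.q (χ.σ 0) = 0 := by
  obtain ⟨a1, a2, a3, c, hc, a4⟩ := ch_pt χ χ' CmpNo_zero_mem hU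
  have hT0 : χ.σ 0 ∈ T := (h 0 CmpNo_zero_mem).2 (Or.inl rfl)
  have hT1 : χ'.σ (χ'.q (χ.σ 0)) ∈ T := by
    rw [a4]
    exact hT _ hT0 c hc
  set p' := χ'.q (χ.σ 0) with hp'
  -- it is enough to show that the point is a node
  by_contra hcon
  have hall : ∃ b : Bool, (b = true → nd' = true) ∧ (ori b p').1 = 0 ∧ (nd' = true → (ori b p').2 ≠ 0) := by
    rcases (h' _ a1).1 hT1 with h1 | h1
    · refine ⟨false, fun h => absurd h (by decide), h1, fun hn => ?_⟩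
      intro h2
      exact hcon ⟨hn, Prod.ext h1 h2⟩
    · refine ⟨true, fun _ => h1.1, h1.2, fun hn => ?_⟩
      intro h2
      exact hcon ⟨hn, Prod.ext h2 h1.2⟩
  obtain ⟨b, hb, h1, h2⟩ := hall
  set χ₂ := χ'.orient b with hχ₂
  have h'₂ : HasType T χ₂ nd' := hasType_orient h' hb
  set t₁ : ℂ := (ori b p').2 with ht₁
  have hp₁ : ori b p' = ((0 : ℂ), t₁) := Prod.ext h1 rfl
  have hσ : χ₂.σ (0, t₁) = χ'.σ p' := by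
    rw [← hp₁, hχ₂]
    cases b
    · rfl
    · show χ'.σ (ori true p').swap = χ'.σ p'
      rfl
  have ht₁' : ‖t₁‖ < 2 := by
    have h3 : ‖ori b p'‖ < 2 := by
      rw [norm_ori]
      exact mem_ball_zero_iff.1 a1
    rw [hp₁, Prod.norm_def] at h3
    exact (le_max_right _ _).trans_lt h3
  refine not_node hX hT χ₂ χ h'₂ h ht₁' h2 (by rw [hσ]; exact a2) ?_
  rw [hσ]
  exact a3

private theorem CmpNo_TE {τ : ℂ × ℂ → ℂ × ℂ} (hτ : AnalyticAt ℂ τ 0) (hJ : jac τ 0 ≠ 0)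
    (h1 : ∀ᶠ t in 𝓝 (0 : ℂ), (τ (0, t)).1 = 0) :
    ∃ C : ℝ, 1 ≤ C ∧ ∀ᶠ p in 𝓝 (0 : ℂ × ℂ), ‖(τ p).1‖ ≤ 2 * C * ‖p.1‖ ∧ ‖(fderiv ℂ τ p (1, 0)).1‖ ≤ C ∧
      ‖(fderiv ℂ τ p (0, 1)).1‖ ≤ C * ‖p.1‖ ∧ ‖(fderiv ℂ τ p (0, 1)).2‖ ≤ C := by
  obtain ⟨C, hC, hev⟩ := TE_local (t₀ := 0) hτ hJ h1
  refine ⟨C, hC, ?_⟩
  have e1 : ∀ᶠ y : ℂ × ℂ in 𝓝 ((0 : ℂ × ℂ)), ‖y.1‖ < 1 := by
    have h1 : ContinuousAt (fun y : ℂ × ℂ => ‖y.1‖) (0 : ℂ × ℂ) := continuous_fst.norm.continuousAt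
    exact h1.eventually (gt_mem_nhds (by simp))
  have hev' : ∀ᶠ p in 𝓝 (0 : ℂ × ℂ), TEmap C τ p := hev
  filter_upwards [hev', e1] with p h h2
  obtain ⟨a1, a2, a3, a4, a5, a6, a7⟩ := h
  have hs0 := norm_nonneg p.1
  refine ⟨?_, a5, a1, a7⟩
  have h8 := (abs_le.1 a3).2
  have h9 : ‖(fderiv ℂ τ p (1, 0)).1‖ * ‖p.1‖ ≤ C * ‖p.1‖ := mul_le_mul_of_nonneg_right a5 hs0
  have h10 : C * ‖p.1‖ ^ 2 ≤ C * ‖p.1‖ := by
    have : ‖p.1‖ ^ 2 ≤ ‖p.1‖ := by nlinarith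
    exact mul_le_mul_of_nonneg_left this (by linarith)
  linarith

private theorem CmpNo_fderiv_swap {τ : ℂ × ℂ → ℂ × ℂ} {p : ℂ × ℂ} (hτ : DifferentiableAt ℂ τ p.swap) (w : ℂ × ℂ) :
    fderiv ℂ (fun y : ℂ × ℂ => (τ y.swap).swap) p w = (fderiv ℂ τ p.swap w.swap).swap := by
  let S : (ℂ × ℂ) →L[ℂ] (ℂ × ℂ) := (ContinuousLinearMap.snd ℂ ℂ ℂ).prod (ContinuousLinearMap.fst ℂ ℂ ℂ)
  have hS : ∀ y : ℂ × ℂ, S y = y.swap := fun y => rfl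
  have h1 : HasFDerivAt (fun y : ℂ × ℂ => S (τ (S y))) (S.comp ((fderiv ℂ τ (S p)).comp S)) p := by
    have h2 : HasFDerivAt (fun y : ℂ × ℂ => τ (S y)) ((fderiv ℂ τ (S p)).comp S) p :=
      HasFDerivAt.comp (g := τ) (f := fun y : ℂ × ℂ => S y) p hτ.hasFDerivAt S.hasFDerivAt
    exact HasFDerivAt.comp (g := fun y => S y) (f := fun y : ℂ × ℂ => τ (S y)) p S.hasFDerivAt h2
  have h3 : fderiv ℂ (fun y : ℂ × ℂ => (τ y.swap).swap) p = S.comp ((fderiv ℂ τ (S p)).comp S) := h1.fderiv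
  rw [h3]
  rfl

/-- one direction, at a node, for the charts where the axes correspond -/
private theorem CmpNo_one {τ : ℂ × ℂ → ℂ × ℂ} (hτ : AnalyticAt ℂ τ 0) (hJ : jac τ 0 ≠ 0)
    (h1 : ∀ᶠ t in 𝓝 (0 : ℂ), (τ (0, t)).1 = 0) (h2 : ∀ᶠ s in 𝓝 (0 : ℂ), (τ (s, 0)).2 = 0) :
    ∃ B : ℝ, 1 ≤ B ∧ ∀ᶠ y in 𝓝 (0 : ℂ × ℂ), ∀ κ : ℝ, 0 ≤ κ → κ ≤ 1 / 4 → ∀ w,
      sn κ (τ y) (fderiv ℂ τ y w) ≤ B * sn κ y w := by
  obtain ⟨C₁, hC₁, hev₁⟩ := CmpNo_TE hτ hJ h1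
  -- the exchanged map
  set τ' : ℂ × ℂ → ℂ × ℂ := fun y => (τ y.swap).swap with hτ'
  have hsw : AnalyticAt ℂ (fun p : ℂ × ℂ => p.swap) 0 := by
    have : (fun p : ℂ × ℂ => p.swap) = fun p => (p.2, p.1) := rfl
    rw [this]
    exact AnalyticAt.prod analyticAt_snd analyticAt_fst
  have hsw' : ∀ q : ℂ × ℂ, AnalyticAt ℂ (fun p : ℂ × ℂ => p.swap) q := fun q => by
    have : (fun p : ℂ × ℂ => p.swap) = fun p => (p.2, p.1) := rfl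
    rw [this]
    exact AnalyticAt.prod analyticAt_snd analyticAt_fst
  have hτ'a : AnalyticAt ℂ τ' 0 := by
    have h3 : AnalyticAt ℂ (fun y : ℂ × ℂ => τ y.swap) 0 :=
      AnalyticAt.comp (g := τ) (f := fun p : ℂ × ℂ => p.swap) (by exact hτ) hsw
    exact AnalyticAt.comp (g := fun p : ℂ × ℂ => p.swap) (f := fun y : ℂ × ℂ => τ y.swap) (hsw' _) h3
  have hJ' : jac τ' 0 ≠ 0 := by
    have e : ∀ w : ℂ × ℂ, fderiv ℂ τ' 0 w = (fderiv ℂ τ 0 w.swap).swap := fun w => CmpNo_fderiv_swap (p := 0) hτ.differentiableAt w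
    unfold jac
    rw [e, e]
    show (fderiv ℂ τ 0 (0, 1)).2 * (fderiv ℂ τ 0 (1, 0)).1 - (fderiv ℂ τ 0 (1, 0)).2 * (fderiv ℂ τ 0 (0, 1)).1 ≠ 0
    unfold jac at hJ
    intro h0
    apply hJ
    linear_combination h0
  obtain ⟨C₂, hC₂, hev₂⟩ := CmpNo_TE hτ'a hJ' h2
  have hev₂' : ∀ᶠ p in 𝓝 (0 : ℂ × ℂ), ‖(τ' p.swap).1‖ ≤ 2 * C₂ * ‖p.swap.1‖ ∧ ‖(fderiv ℂ τ' p.swap (1, 0)).1‖ ≤ C₂ ∧
      ‖(fderiv ℂ τ' p.swap (0, 1)).1‖ ≤ C₂ * ‖p.swap.1‖ ∧ ‖(fderiv ℂ τ' p.swap (0, 1)).2‖ ≤ C₂ := by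
    have h3 : Tendsto (fun p : ℂ × ℂ => p.swap) (𝓝 0) (𝓝 0) := hsw.continuousAt.tendsto
    exact h3.eventually hev₂
  have hdiff : ∀ᶠ p in 𝓝 (0 : ℂ × ℂ), DifferentiableAt ℂ τ p := hτ.eventually_analyticAt.mono fun p hp => hp.differentiableAt
  have hb : ∀ᶠ p in 𝓝 (0 : ℂ × ℂ), ‖p‖ < 1 := by
    have h3 : ContinuousAt (fun y : ℂ × ℂ => ‖y‖) (0 : ℂ × ℂ) := continuous_norm.continuousAt
    exact h3.eventually (gt_mem_nhds (by simp))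
  set C : ℝ := 2 * max C₁ C₂ with hC
  have hm1 : C₁ ≤ max C₁ C₂ := le_max_left _ _
  have hm2 : C₂ ≤ max C₁ C₂ := le_max_right _ _
  have hC1 : 1 ≤ C := by linarith
  refine ⟨2 * C ^ 2, by nlinarith, ?_⟩
  filter_upwards [hev₁, hev₂', hdiff, hb] with p a b hd hp κ hκ0 hκ w
  obtain ⟨a1, a2, a3, a4⟩ := a
  obtain ⟨b1, b2, b3, b4⟩ := b
  have e : ∀ w : ℂ × ℂ, fderiv ℂ τ' p.swap w = (fderiv ℂ τ p w.swap).swap := fun w => by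
    have h3 := CmpNo_fderiv_swap (τ := τ) (p := p.swap) (by rw [Prod.swap_swap]; exact hd) w
    rw [Prod.swap_swap] at h3
    exact h3
  rw [e] at b2 b3 b4
  have hp1 : ‖p.1‖ ≤ 1 := (norm_fst_le p).trans hp.le
  have hp2 : ‖p.2‖ ≤ 1 := (norm_snd_le p).trans hp.le
  have n1 := norm_nonneg p.1
  have n2 := norm_nonneg p.2
  refine sn_change hC1 hκ0 hκ hp1 hp2 ?_ ?_ ?_ ?_ ?_ ?_ w
  · refine a1.trans (mul_le_mul_of_nonneg_right ?_ n1)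
    linarith
  · have b1' : ‖(τ p).2‖ ≤ 2 * C₂ * ‖p.2‖ := by
      have h4 : (τ' p.swap).1 = (τ p).2 := by
        show (τ p.swap.swap).swap.1 = _
        rw [Prod.swap_swap]
        rfl
      rw [h4] at b1
      exact b1
    refine b1'.trans (mul_le_mul_of_nonneg_right ?_ n2)
    linarith
  · linarith
  · linarith
  · refine a3.trans (mul_le_mul_of_nonneg_right ?_ n1)
    linarith
  · have b3' : ‖(fderiv ℂ τ p (1, 0)).2‖ ≤ C₂ * ‖p.2‖ := b3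
    refine b3'.trans (mul_le_mul_of_nonneg_right ?_ n2)
    linarith

/-- the axes correspond after an exchange of the coordinates -/
private theorem CmpNo_axes {τ : ℂ × ℂ → ℂ × ℂ} (hτ : AnalyticAt ℂ τ 0) (hJ : jac τ 0 ≠ 0)
    (hax : ∀ᶠ p in 𝓝 (0 : ℂ × ℂ), (p.1 = 0 ∨ p.2 = 0) → ((τ p).1 = 0 ∨ (τ p).2 = 0)) :
    ∃ b : Bool, (∀ᶠ t in 𝓝 (0 : ℂ), (ori b (τ (0, t))).1 = 0) ∧ ∀ᶠ s in 𝓝 (0 : ℂ), (ori b (τ (s, 0))).2 = 0 := by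
  have hv : Tendsto (fun t : ℂ => ((0 : ℂ), t)) (𝓝 0) (𝓝 (0 : ℂ × ℂ)) := by
    have hc : Continuous fun t : ℂ => ((0 : ℂ), t) := by fun_prop
    exact hc.tendsto 0
  have hh : Tendsto (fun s : ℂ => (s, (0 : ℂ))) (𝓝 0) (𝓝 (0 : ℂ × ℂ)) := by
    have hc : Continuous fun s : ℂ => (s, (0 : ℂ)) := by fun_prop
    exact hc.tendsto 0
  have av : AnalyticAt ℂ (fun t : ℂ => τ (0, t)) 0 :=
    AnalyticAt.comp (g := τ) (f := fun t : ℂ => ((0 : ℂ), t)) (by exact hτ) (analyticAt_const.prod analyticAt_id)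
  have ah : AnalyticAt ℂ (fun s : ℂ => τ (s, 0)) 0 :=
    AnalyticAt.comp (g := τ) (f := fun s : ℂ => (s, (0 : ℂ))) (by exact hτ) (analyticAt_id.prod analyticAt_const)
  have av1 : AnalyticAt ℂ (fun t : ℂ => (τ (0, t)).1) 0 :=
    AnalyticAt.comp (g := fun x : ℂ × ℂ => x.1) (f := fun t : ℂ => τ (0, t)) analyticAt_fst av
  have av2 : AnalyticAt ℂ (fun t : ℂ => (τ (0, t)).2) 0 :=
    AnalyticAt.comp (g := fun x : ℂ × ℂ => x.2) (f := fun t : ℂ => τ (0, t)) analyticAt_snd av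
  have ah1 : AnalyticAt ℂ (fun s : ℂ => (τ (s, 0)).1) 0 :=
    AnalyticAt.comp (g := fun x : ℂ × ℂ => x.1) (f := fun s : ℂ => τ (s, 0)) analyticAt_fst ah
  have ah2 : AnalyticAt ℂ (fun s : ℂ => (τ (s, 0)).2) 0 :=
    AnalyticAt.comp (g := fun x : ℂ × ℂ => x.2) (f := fun s : ℂ => τ (s, 0)) analyticAt_snd ah
  have hbot : ¬ ∀ᶠ t in 𝓝[≠] (0 : ℂ), False := by
    intro h
    rw [eventually_false_iff_eq_bot] at h
    exact (inferInstance : (𝓝[≠] (0 : ℂ)).NeBot).ne h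
  have hv12 : (∀ᶠ t in 𝓝 (0 : ℂ), (τ (0, t)).1 = 0) ∨ ∀ᶠ t in 𝓝 (0 : ℂ), (τ (0, t)).2 = 0 := by
    rcases av1.eventually_eq_zero_or_eventually_ne_zero with h1 | h1
    · exact Or.inl h1
    rcases av2.eventually_eq_zero_or_eventually_ne_zero with h2 | h2
    · exact Or.inr h2
    exfalso
    refine hbot ?_
    filter_upwards [h1, h2, (hv.eventually hax).filter_mono nhdsWithin_le_nhds] with t b1 b2 b3
    rcases b3 (Or.inl rfl) with b4 | b4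
    · exact b1 b4
    · exact b2 b4
  have hh12 : (∀ᶠ s in 𝓝 (0 : ℂ), (τ (s, 0)).1 = 0) ∨ ∀ᶠ s in 𝓝 (0 : ℂ), (τ (s, 0)).2 = 0 := by
    rcases ah1.eventually_eq_zero_or_eventually_ne_zero with h1 | h1
    · exact Or.inl h1
    rcases ah2.eventually_eq_zero_or_eventually_ne_zero with h2 | h2
    · exact Or.inr h2
    exfalso
    refine hbot ?_
    filter_upwards [h1, h2, (hh.eventually hax).filter_mono nhdsWithin_le_nhds] with t b1 b2 b3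
    rcases b3 (Or.inr rfl) with b4 | b4
    · exact b1 b4
    · exact b2 b4
  -- the derivatives along the axes
  have dv : HasDerivAt (fun t : ℂ => τ (0, t)) (fderiv ℂ τ 0 (0, 1)) 0 := by
    have h1 : HasDerivAt (fun t : ℂ => ((0 : ℂ), t)) ((0 : ℂ), (1 : ℂ)) 0 := (hasDerivAt_const _ _).prodMk (hasDerivAt_id _)
    have h2 : HasFDerivAt τ (fderiv ℂ τ 0) ((fun t : ℂ => ((0 : ℂ), t)) 0) := hτ.differentiableAt.hasFDerivAt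
    exact h2.comp_hasDerivAt 0 h1
  have dh : HasDerivAt (fun s : ℂ => τ (s, 0)) (fderiv ℂ τ 0 (1, 0)) 0 := by
    have h1 : HasDerivAt (fun s : ℂ => (s, (0 : ℂ))) ((1 : ℂ), (0 : ℂ)) 0 := (hasDerivAt_id _).prodMk (hasDerivAt_const _ _)
    have h2 : HasFDerivAt τ (fderiv ℂ τ 0) ((fun s : ℂ => (s, (0 : ℂ))) 0) := hτ.differentiableAt.hasFDerivAt
    exact HasFDerivAt.comp_hasDerivAt (f := fun s : ℂ => (s, (0 : ℂ))) (0 : ℂ) h2 h1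
  have zero_of : ∀ {f : ℂ → ℂ × ℂ} {d : ℂ × ℂ}, HasDerivAt f d 0 → ((∀ᶠ t in 𝓝 (0 : ℂ), (f t).1 = 0) → d.1 = 0) ∧
      ((∀ᶠ t in 𝓝 (0 : ℂ), (f t).2 = 0) → d.2 = 0) := by
    intro f d hd
    have d1 : HasDerivAt (fun t => (f t).1) d.1 0 := by
      have := (ContinuousLinearMap.fst ℂ ℂ ℂ).hasFDerivAt.comp_hasDerivAt (0 : ℂ) hd
      exact this
    have d2 : HasDerivAt (fun t => (f t).2) d.2 0 := by
      have := (ContinuousLinearMap.snd ℂ ℂ ℂ).hasFDerivAt.comp_hasDerivAt (0 : ℂ) hd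
      exact this
    constructor
    · intro h
      exact d1.unique ((hasDerivAt_const (0 : ℂ) (0 : ℂ)).congr_of_eventuallyEq h)
    · intro h
      exact d2.unique ((hasDerivAt_const (0 : ℂ) (0 : ℂ)).congr_of_eventuallyEq h)
  rcases hv12 with h1 | h1
  · rcases hh12 with h2 | h2
    · exfalso
      apply hJ
      unfold jac
      rw [(zero_of dv).1 h1, (zero_of dh).1 h2]
      ring
    · exact ⟨false, h1, h2⟩
  · rcases hh12 with h2 | h2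
    · exact ⟨true, h1, h2⟩
    · exfalso
      apply hJ
      unfold jac
      rw [(zero_of dv).2 h1, (zero_of dh).2 h2]
      ring

/-- one direction, at a node -/
theorem sn_chart (hX : IsCone X) (hT : ∀ x ∈ T, ∀ c : ℂ, c ≠ 0 → c • x ∈ T) (χ χ' : Chart X)
    (h : HasType T χ true) (h' : HasType T χ' true) (hU : χ.σ 0 ∈ χ'.U) (h0 : χ'.q (χ.σ 0) = 0) :
    ∃ B : ℝ, 1 ≤ B ∧ ∀ᶠ y in 𝓝 (0 : ℂ × ℂ), ∀ κ : ℝ, 0 ≤ κ → κ ≤ 1 / 4 → ∀ w,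
      sn κ (χ'.q (χ.σ y)) (fderiv ℂ (fun y => χ'.q (χ.σ y)) y w) ≤ B * sn κ y w := by
  have hτa := ch_an χ χ' CmpNo_zero_mem hU
  have hJ := jac_ne_zero hX χ χ' CmpNo_zero_mem hU
  have hax : ∀ᶠ p in 𝓝 (0 : ℂ × ℂ), (p.1 = 0 ∨ p.2 = 0) → ((χ'.q (χ.σ p)).1 = 0 ∨ (χ'.q (χ.σ p)).2 = 0) := by
    filter_upwards [ch_near χ χ' CmpNo_zero_mem hU] with p hp hp2
    obtain ⟨b1, b2, b3, c, hc, b4⟩ := ch_pt χ χ' hp.1 hp.2
    have b5 : χ.σ p ∈ T := (h _ hp.1).2 (by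
      rcases hp2 with h3 | h3
      · exact Or.inl h3
      · exact Or.inr ⟨rfl, h3⟩)
    have b6 : χ'.σ (χ'.q (χ.σ p)) ∈ T := by
      rw [b4]
      exact hT _ b5 c hc
    rcases (h' _ b1).1 b6 with b7 | b7
    · exact Or.inl b7
    · exact Or.inr b7.2
  have _ := h0
  obtain ⟨b, e1, e2⟩ := CmpNo_axes hτa hJ hax
  set τ₂ : ℂ × ℂ → ℂ × ℂ := fun y => (χ'.orient b).q (χ.σ y) with hτ₂
  have hτ₂e : τ₂ = fun y => ori b (χ'.q (χ.σ y)) := by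
    funext y
    rw [hτ₂]
    exact orient_q b χ' _
  have hU₂ : χ.σ 0 ∈ (χ'.orient b).U := by rw [orient_U]; exact hU
  obtain ⟨B, hB, hev⟩ := CmpNo_one (τ := τ₂) (ch_an χ (χ'.orient b) CmpNo_zero_mem hU₂)
    (jac_ne_zero hX χ (χ'.orient b) CmpNo_zero_mem hU₂) (by
      rw [hτ₂e]
      exact e1) (by
      rw [hτ₂e]
      exact e2)
  refine ⟨B, hB, ?_⟩
  filter_upwards [hev, ch_near χ χ' CmpNo_zero_mem hU] with y h1 h2 κ hκ0 hκ w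
  have h3 := h1 κ hκ0 hκ w
  have h4 : fderiv ℂ τ₂ y w = ori b (fderiv ℂ (fun y => χ'.q (χ.σ y)) y w) := by
    rw [hτ₂e]
    exact fderiv_ori b (ch_an χ χ' h2.1 h2.2).differentiableAt w
  rw [h4, hτ₂e, ← sg_true, ← sg_true, sg_ori (fun _ => rfl)] at h3
  rwa [sg_true, sg_true] at h3

/-- **Comparison at a node of the curve.** -/
theorem cmp_node (hX : IsCone X) (hT : ∀ x ∈ T, ∀ c : ℂ, c ≠ 0 → c • x ∈ T) (χ χ' : Chart X) {nd' : Bool}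
    (h : HasType T χ true) (h' : HasType T χ' nd') (hU : χ.σ 0 ∈ χ'.U) :
    ∃ B : ℝ, 1 ≤ B ∧ ∀ᶠ y in 𝓝 (0 : ℂ × ℂ), ∀ κ : ℝ, 0 ≤ κ → κ ≤ 1 / 4 → ∀ w,
      sn κ y w ≤ B * sg nd' κ (χ'.q (χ.σ y)) (fderiv ℂ (fun y => χ'.q (χ.σ y)) y w) ∧
      sg nd' κ (χ'.q (χ.σ y)) (fderiv ℂ (fun y => χ'.q (χ.σ y)) y w) ≤ B * sn κ y w := by
  obtain ⟨hn, h0⟩ := node_chart hX hT χ χ' h h' hU
  subst hn
  obtain ⟨a1, a2, a3, -⟩ := ch_pt χ χ' CmpNo_zero_mem hU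
  rw [h0] at a1 a2 a3
  obtain ⟨B₁, hB₁, hev₁⟩ := sn_chart hX hT χ χ' h h' hU h0
  obtain ⟨B₂, hB₂, hev₂⟩ := sn_chart hX hT χ' χ h' h a2 a3
  have hτc : Tendsto (fun y => χ'.q (χ.σ y)) (𝓝 (0 : ℂ × ℂ)) (𝓝 0) := by
    have := (ch_an χ χ' CmpNo_zero_mem hU).continuousAt.tendsto
    rwa [h0] at this
  refine ⟨max B₂ B₁, le_max_of_le_right hB₁, ?_⟩
  filter_upwards [hev₁, hτc.eventually hev₂, ch_near χ χ' CmpNo_zero_mem hU] with y e1 e2 e4 κ hκ0 hκ w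
  obtain ⟨b1, b2, b3, -⟩ := ch_pt χ χ' e4.1 e4.2
  have f1 := e1 κ hκ0 hκ w
  have f2 := e2 κ hκ0 hκ (fderiv ℂ (fun y => χ'.q (χ.σ y)) y w)
  rw [b3, ch_inv χ χ' e4.1 e4.2] at f2
  rw [sg_true]
  have s0 := sn_nonneg κ y w
  have s1 := sn_nonneg κ (χ'.q (χ.σ y)) (fderiv ℂ (fun y => χ'.q (χ.σ y)) y w)
  exact ⟨f2.trans (mul_le_mul_of_nonneg_right (le_max_left _ _) s1), f1.trans (mul_le_mul_of_nonneg_right (le_max_right _ _) s0)⟩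

end Pool.Agent.H36.TB

end

section

/-!
# TB Met: the metric theorem with two-sided bounds
-/

set_option autoImplicit false

open Topology Filter Metric

namespace Pool.Agent.H36.TB

open Pool.Agent.H36.BP
open Pool.Agent.H14.PP

variable {N : ℕ} {W : Type*} [NormedAddCommGroup W] [InnerProductSpace ℂ W]
  {X K T : Set (EN N)} {m j : ℕ} {Q : EN N → W} {D : ℕ}

theorem sg_le_norm (nd : Bool) {κ : ℝ} (hκ : κ ≤ 1 / 4) {p w : ℂ × ℂ} (hp : ‖p‖ ≤ 1) : sg nd κ p w ≤ ‖w‖ := by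
  have h1 : ‖p.1‖ ≤ 1 := (norm_fst_le p).trans hp
  have h2 : ‖p.2‖ ≤ 1 := (norm_snd_le p).trans hp
  have w1 : ‖w.1‖ ≤ ‖w‖ := norm_fst_le w
  have w2 : ‖w.2‖ ≤ ‖w‖ := norm_snd_le w
  have e1 : ‖p.1‖ ^ (1 - κ) ≤ 1 := Real.rpow_le_one (norm_nonneg _) h1 (by linarith)
  have e2 : ‖p.2‖ ^ (1 - κ) ≤ 1 := Real.rpow_le_one (norm_nonneg _) h2 (by linarith)
  unfold sg
  refine max_le ?_ ?_
  · refine (mul_le_of_le_one_left (norm_nonneg _) ?_).trans w1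
    split_ifs
    · exact e2
    · exact le_rfl
  · exact (mul_le_of_le_one_left (norm_nonneg _) e1).trans w2

/-- the trivial comparison -/
theorem cmp_triv (χ χ' : Chart X) (nd : Bool) {κ : ℝ} (hκ : κ ≤ 1 / 4) {p : ℂ × ℂ} (hp : p ∈ ball (0 : ℂ × ℂ) 2) (hU : χ.σ p ∈ χ'.U) :
    ∃ B : ℝ, 1 ≤ B ∧ ∀ᶠ y in 𝓝 p, ‖χ'.q (χ.σ y)‖ ≤ 1 → ∀ w,
      sg nd κ (χ'.q (χ.σ y)) (fderiv ℂ (fun y => χ'.q (χ.σ y)) y w) ≤ B * ‖w‖ := by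
  have h1 : ContinuousAt (fderiv ℂ (fun y => χ'.q (χ.σ y))) p := (ch_an χ χ' hp hU).fderiv.continuousAt
  have h2 : ∀ᶠ y in 𝓝 p, ‖fderiv ℂ (fun y => χ'.q (χ.σ y)) y‖ < ‖fderiv ℂ (fun y => χ'.q (χ.σ y)) p‖ + 1 :=
    h1.norm.eventually (gt_mem_nhds (by linarith))
  refine ⟨‖fderiv ℂ (fun y => χ'.q (χ.σ y)) p‖ + 1, by linarith [norm_nonneg (fderiv ℂ (fun y => χ'.q (χ.σ y)) p)], ?_⟩
  filter_upwards [h2] with y hy hy1 w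
  refine (sg_le_norm nd hκ hy1).trans ?_
  exact ((fderiv ℂ (fun y => χ'.q (χ.σ y)) y).le_opNorm w).trans (mul_le_mul_of_nonneg_right hy.le (norm_nonneg _))

section off

variable {Ω : Form K m j} {n : ℕ} {χ : Fin n → Chart X} {nd : Fin n → Bool} {P : Par} {M₀ : ℕ} {δ c₁ c : ℝ}

/-- the lower bound off `T` -/
theorem GG_off (hX : IsCone X) (hK : IsOpenPart X K) (hKT : ∀ x ∈ X, x ∉ K → x ∈ T) (hQ : IsEq X T Q D)
    (χ₀ : Chart X) {p : ℂ × ℂ} (hp : p ∈ ball (0 : ℂ × ℂ) 2) (hpT : χ₀.σ p ∉ T) :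
    ∃ B : ℝ, 1 ≤ B ∧ ∀ᶠ y in 𝓝 p, ∀ w,
      ACoef Ω χ₀ y * ‖w‖ ≤ B * GG Ω χ nd P Q D (M₀ + 1) δ c₁ (χ₀.σ y) (fderiv ℂ χ₀.σ y w) := by
  have hpK : χ₀.σ p ∈ K := by
    by_contra h
    exact hpT (hKT _ (χ₀.σ_mem p hp).1 h)
  set a := ACoef Ω χ₀ p with ha
  have ha0 : 0 ≤ a := ACoef_nonneg _ _ _
  have e1 : ∀ᶠ y in 𝓝 p, ACoef Ω χ₀ y < a + 1 := (continuousAt_ACoef hK Ω χ₀ hp hpK).eventually (gt_mem_nhds (by linarith))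
  set R := rho Q D (χ₀.σ p) with hR
  have hR0 : 0 < R := by
    refine lt_of_le_of_ne (rho_nonneg _ _ _) fun h => hpT ?_
    exact (hQ.mem_iff _).2 ⟨(χ₀.σ_mem p hp).1, (rho_eq_zero_iff (χ₀.sigma_ne_zero hX hp)).1 h.symm⟩
  have e2 : ∀ᶠ y in 𝓝 p, R / 2 < rho Q D (χ₀.σ y) := by
    have h1 : ContinuousAt (fun y => rho Q D (χ₀.σ y)) p :=
      ContinuousAt.comp (g := rho Q D) (continuousAt_rho hQ.analytic (χ₀.sigma_ne_zero hX hp)) (χ₀.σ_an p hp).continuousAt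
    exact h1.eventually (lt_mem_nhds (by linarith))
  have hq : ContinuousAt (fun y => ‖fderiv ℂ χ₀.q (χ₀.σ y)‖ * ‖χ₀.σ y‖) p := by
    have h1 : ContinuousAt (fun y => fderiv ℂ χ₀.q (χ₀.σ y)) p :=
      ContinuousAt.comp (g := fderiv ℂ χ₀.q) (χ₀.q_an _ (χ₀.σ_mem p hp).2.1).fderiv.continuousAt (χ₀.σ_an p hp).continuousAt
    exact h1.norm.mul (χ₀.σ_an p hp).continuousAt.norm
  set S := ‖fderiv ℂ χ₀.q (χ₀.σ p)‖ * ‖χ₀.σ p‖ with hS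
  have hS0 : 0 ≤ S := by positivity
  have e3 : ∀ᶠ y in 𝓝 p, ‖fderiv ℂ χ₀.q (χ₀.σ y)‖ * ‖χ₀.σ y‖ < S + 1 := hq.eventually (gt_mem_nhds (by linarith))
  set C : ℝ := (a + 1) * (S + 1) / (R / 2) ^ (M₀ + 1) with hC
  have hC0 : 0 ≤ C := by positivity
  refine ⟨max 1 C, le_max_left _ _, ?_⟩
  filter_upwards [e1, e2, e3, isOpen_ball.mem_nhds hp] with y h1 h2 h3 h4 w
  have hy0 : χ₀.σ y ≠ 0 := χ₀.sigma_ne_zero hX h4
  have hyn : 0 < ‖χ₀.σ y‖ := norm_pos_iff.2 hy0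
  set v := fderiv ℂ χ₀.σ y w with hv
  have hG := pieceG_le_GG (Ω := Ω) (χ := χ) (nd := nd) (P := P) (Q := Q) (D := D) (M' := M₀ + 1) (δ := δ) (c₁ := c₁) none
    (χ₀.σ y) v
  have hG' : rho Q D (χ₀.σ y) ^ (M₀ + 1) * fs (χ₀.σ y) v ≤ GG Ω χ nd P Q D (M₀ + 1) δ c₁ (χ₀.σ y) v := hG
  have hG0 : 0 ≤ GG Ω χ nd P Q D (M₀ + 1) δ c₁ (χ₀.σ y) v := GG_nonneg _ _
  have hfs := fs_nonneg (χ₀.σ y) v
  have h5 : ‖w‖ ≤ (S + 1) * fs (χ₀.σ y) v := by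
    have h6 : fderiv ℂ χ₀.q (χ₀.σ y) v = w := χ₀.fderiv_sigma h4 w
    have h7 : fderiv ℂ χ₀.q (χ₀.σ y) (v - (inner ℂ (χ₀.σ y) v / (‖χ₀.σ y‖ : ℂ) ^ 2) • χ₀.σ y) = w := by
      rw [map_sub, map_smul, χ₀.fderiv_q_self (χ₀.σ_mem y h4).2.1, smul_zero, sub_zero, h6]
    calc ‖w‖ = ‖fderiv ℂ χ₀.q (χ₀.σ y) (v - (inner ℂ (χ₀.σ y) v / (‖χ₀.σ y‖ : ℂ) ^ 2) • χ₀.σ y)‖ := by rw [h7]
      _ ≤ ‖fderiv ℂ χ₀.q (χ₀.σ y)‖ * ‖v - (inner ℂ (χ₀.σ y) v / (‖χ₀.σ y‖ : ℂ) ^ 2) • χ₀.σ y‖ :=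
          (fderiv ℂ χ₀.q (χ₀.σ y)).le_opNorm _
      _ = ‖fderiv ℂ χ₀.q (χ₀.σ y)‖ * ‖χ₀.σ y‖ * fs (χ₀.σ y) v := by
          rw [fs_eq hy0]
          field_simp
      _ ≤ (S + 1) * fs (χ₀.σ y) v := mul_le_mul_of_nonneg_right h3.le hfs
  have h8 : (R / 2) ^ (M₀ + 1) ≤ rho Q D (χ₀.σ y) ^ (M₀ + 1) := pow_le_pow_left₀ (by positivity) h2.le _
  have hpos : 0 < (R / 2) ^ (M₀ + 1) := by positivity
  have h9 : fs (χ₀.σ y) v ≤ GG Ω χ nd P Q D (M₀ + 1) δ c₁ (χ₀.σ y) v / (R / 2) ^ (M₀ + 1) := by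
    rw [le_div_iff₀ hpos, mul_comm]
    exact (mul_le_mul_of_nonneg_right h8 hfs).trans hG'
  calc ACoef Ω χ₀ y * ‖w‖ ≤ (a + 1) * ((S + 1) * fs (χ₀.σ y) v) :=
        mul_le_mul h1.le h5 (norm_nonneg _) (by linarith)
    _ ≤ (a + 1) * ((S + 1) * (GG Ω χ nd P Q D (M₀ + 1) δ c₁ (χ₀.σ y) v / (R / 2) ^ (M₀ + 1))) := by gcongr
    _ = C * GG Ω χ nd P Q D (M₀ + 1) δ c₁ (χ₀.σ y) v := by rw [hC]; ring
    _ ≤ _ := mul_le_mul_of_nonneg_right (le_max_right _ _) hG0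

end off

end Pool.Agent.H36.TB

end
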