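import Pool.Agent.H94.G6.M28
import Pool.Agent.H94.G6.M30
import Pool.Agent.H94.G6.M32
import Pool.Agent.H94.G6.M34

/-! The parts of this file: H14.PP.GRules, H36.TB.MetA, H14.PP.NearBounds_1, H14.PP.Metric, H17EF.Closed. -/

section

/-!
# BPm GRules: the metric, homogeneity, invariance, vanishing along `T`

* `GG_smul`: every piece is homogeneous (`fs_smul_right`, `pM_smul`, linearity of `fderiv`),
  `Real.mul_iSup_of_nonneg`.
* `GG_scale`: every piece is invariant (`fs_inv`, `rho_smul`, `smul_U`, `q_smul`,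
  `Chart.fderiv_q_smul`, `IsCone.smul_mem` (for `c` and `c⁻¹`, so membership in `X` and `U` is
  equivalent)).
* `GG_zero`: let `F` be a curve in `T` near `z₀`, `x = F z₀`. The far piece vanishes: `Q x = 0`, so
  `rho = 0` and `M' ≥ 1`. Near piece `i` (at `x` with `x ∈ U`, `‖q x‖ ≤ 1`): `s, t` the components of
  `q ∘ F`, analytic at `z₀`, `fderiv ℂ q x (F' z₀) = (s', t')` (`Chart.curve`). Near `z₀`,
  `F z = c z • σ (q (F z)) ∈ T`, `T` is a cone (`IsEq.smul_mem`), so `σ (q (F z)) ∈ T`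
  and by `HasType` `s z = 0` (or `nd = true` and `t z = 0`). If `nd = false`: `s = 0` near `z₀`, so
  `s' = 0` and `pN = 0`, `pT = ‖0‖^(1-κ) * .. = 0`. If `nd = true`: if `t z₀ ≠ 0` then `s = 0` near
  `z₀`, same conclusion; if `s z₀ ≠ 0` then `t = 0` near `z₀`, symmetric; if `s z₀ = t z₀ = 0` then both
  pieces contain the factor `0^(1-κ) = 0`.
-/

open Topology Filter Metric

namespace Pool.Agent.H14.PP

open Pool.Agent.H36.BP

variable {N : ℕ} {W : Type*} [NormedAddCommGroup W] [InnerProductSpace ℂ W]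
  {X K T : Set (EN N)} {m j : ℕ} {Ω : Form K m j} {n : ℕ} {χ : Fin n → Chart X}
  {nd : Fin n → Bool} {P : Par} {Q : EN N → W} {D M' : ℕ} {δ c₁ : ℝ}

private theorem GRules_piece_smul (k : Option (Fin n)) (x v : EN N) (c : ℂ) :
    pieceG Ω χ nd P Q D M' δ c₁ k x (c • v) = ‖c‖ * pieceG Ω χ nd P Q D M' δ c₁ k x v := by
  cases k with
  | none =>
    simp only [pieceG]
    rw [fs_smul_right]
    ring
  | some i =>
    simp only [pieceG, nearG]
    split_ifs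
    · rw [map_smul, pM_smul]
      ring
    · ring

theorem GG_smul (x v : EN N) (c : ℂ) :
    GG Ω χ nd P Q D M' δ c₁ x (c • v) = ‖c‖ * GG Ω χ nd P Q D M' δ c₁ x v := by
  unfold GG
  rw [Real.mul_iSup_of_nonneg (norm_nonneg c)]
  exact iSup_congr fun k => GRules_piece_smul k x v c

private theorem GRules_piece_scale (hX : IsCone X) (hQ : IsEq X T Q D) {x : EN N} (hx : x ∈ X)
    (v : EN N) {c : ℂ} (a : ℂ) (hc : c ≠ 0) (k : Option (Fin n)) :
    pieceG Ω χ nd P Q D M' δ c₁ k (c • x) (c • v + a • x) =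
      pieceG Ω χ nd P Q D M' δ c₁ k x v := by
  cases k with
  | none =>
    simp only [pieceG]
    rw [rho_smul hQ.smul hc, fs_inv (hX.ne_zero hx) v hc a]
  | some i =>
    simp only [pieceG, nearG]
    rw [rho_smul hQ.smul hc]
    by_cases hU : x ∈ (χ i).U
    · have hU' : c • x ∈ (χ i).U := (χ i).smul_U x hU c hc
      have hX' : c • x ∈ X := hX.smul_mem x hx c hc
      rw [(χ i).q_smul x hU c hc, (χ i).fderiv_q_smul hU v hc a]
      simp only [hU, hU', hX', hx]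
    · have hU' : c • x ∉ (χ i).U := by
        intro h
        apply hU
        have h1 := (χ i).smul_U _ h c⁻¹ (inv_ne_zero hc)
        rwa [smul_smul, inv_mul_cancel₀ hc, one_smul] at h1
      rw [if_neg fun h => hU' h.2.1, if_neg fun h => hU h.2.1]

theorem GG_scale (hX : IsCone X) (hQ : IsEq X T Q D) {x : EN N} (hx : x ∈ X) (v : EN N) {c : ℂ}
    (a : ℂ) (hc : c ≠ 0) : GG Ω χ nd P Q D M' δ c₁ (c • x) (c • v + a • x) =
      GG Ω χ nd P Q D M' δ c₁ x v := by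
  unfold GG
  exact iSup_congr fun k => GRules_piece_scale hX hQ hx v a hc k

private theorem GRules_pN_zero (nd : Bool) (P : Par) (s t : ℂ) : pN nd P s t 0 = 0 := by
  unfold pN
  rw [norm_zero, mul_zero, zero_mul, zero_mul]

private theorem GRules_pN_zero' {P : Par} (hκ : P.κ ≤ 1 / 4) (s s' : ℂ) : pN true P s 0 s' = 0 := by
  have h1 : (1 : ℝ) - P.κ ≠ 0 := by linarith
  unfold pN
  rw [if_pos rfl, norm_zero, Real.zero_rpow h1, zero_mul, zero_mul, zero_mul, zero_mul]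

/-- the piece vanishes along a curve in `T` -/
private theorem GRules_pM_zero {nd : Bool} {P : Par} (hκ : P.κ ≤ 1 / 4) {s t : ℂ → ℂ} {z₀ : ℂ}
    (hs : AnalyticAt ℂ s z₀) (ht : AnalyticAt ℂ t z₀)
    (h : ∀ᶠ z in 𝓝 z₀, s z = 0 ∨ (nd = true ∧ t z = 0)) :
    pM nd P (s z₀, t z₀) (deriv s z₀, deriv t z₀) = 0 := by
  have key0 : ∀ u : ℂ → ℂ, (∀ᶠ z in 𝓝 z₀, u z = 0) → u z₀ = 0 ∧ deriv u z₀ = 0 := by
    intro u hu
    refine ⟨hu.self_of_nhds, ?_⟩
    have h1 : u =ᶠ[𝓝 z₀] fun _ => (0 : ℂ) := hu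
    rw [h1.deriv_eq, deriv_const]
  have h1κ : (1 : ℝ) - P.κ ≠ 0 := by linarith
  cases nd with
  | false =>
    have h1 : ∀ᶠ z in 𝓝 z₀, s z = 0 := by
      filter_upwards [h] with z hz
      rcases hz with hz | ⟨hz, -⟩
      · exact hz
      · exact absurd hz (by decide)
    obtain ⟨e1, e2⟩ := key0 s h1
    unfold pM
    simp only
    rw [e1, e2, GRules_pN_zero]
    unfold pT
    rw [if_neg (by decide), norm_zero, Real.zero_rpow h1κ, zero_mul, zero_mul, max_self]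
  | true =>
    have hpT : ∀ a b d : ℂ, pT true P a b d = pN true P b a d := by
      intro a b d
      unfold pT
      rw [if_pos rfl]
    by_cases ht0 : t z₀ = 0
    · by_cases hs0 : s z₀ = 0
      · unfold pM
        simp only
        rw [hpT, hs0, ht0, GRules_pN_zero' hκ, GRules_pN_zero' hκ, max_self]
      · have h1 : ∀ᶠ z in 𝓝 z₀, t z = 0 := by
          filter_upwards [h, hs.continuousAt.eventually_ne hs0] with z hz hz'
          rcases hz with hz | ⟨-, hz⟩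
          · exact absurd hz hz'
          · exact hz
        obtain ⟨e1, e2⟩ := key0 t h1
        unfold pM
        simp only
        rw [hpT, e1, e2, GRules_pN_zero' hκ, GRules_pN_zero, max_self]
    · have h1 : ∀ᶠ z in 𝓝 z₀, s z = 0 := by
        filter_upwards [h, ht.continuousAt.eventually_ne ht0] with z hz hz'
        rcases hz with hz | ⟨-, hz⟩
        · exact hz
        · exact absurd hz hz'
      obtain ⟨e1, e2⟩ := key0 s h1
      unfold pM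
      simp only
      rw [hpT, e1, e2, GRules_pN_zero' hκ, GRules_pN_zero, max_self]

private theorem GRules_near_zero (hX : IsCone X) (hQ : IsEq X T Q D) (hκ : P.κ ≤ 1 / 4)
    (hT : ∀ i, HasType T (χ i) (nd i)) {F : ℂ → EN N} {z₀ : ℂ} (hF : CurveAt T F z₀) (i : Fin n) :
    nearG Ω χ nd P Q D δ i (F z₀) (deriv F z₀) = 0 := by
  unfold nearG
  split_ifs with hcond
  · obtain ⟨-, hU, -, -⟩ := hcond
    have hTX : T ⊆ X := fun y hy => ((hQ.mem_iff y).mp hy).1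
    obtain ⟨h1, h2, c, hc, hc0, h3⟩ := (χ i).curve hX (hF.mono hTX) hU
    have hs : AnalyticAt ℂ (fun z => ((χ i).q (F z)).1) z₀ := by
      have h4 : AnalyticAt ℂ (fun p : ℂ × ℂ => p.1) ((fun z => (χ i).q (F z)) z₀) := analyticAt_fst
      exact AnalyticAt.comp (g := fun p : ℂ × ℂ => p.1) (f := fun z => (χ i).q (F z)) h4 h1
    have ht : AnalyticAt ℂ (fun z => ((χ i).q (F z)).2) z₀ := by
      have h4 : AnalyticAt ℂ (fun p : ℂ × ℂ => p.2) ((fun z => (χ i).q (F z)) z₀) := analyticAt_snd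
      exact AnalyticAt.comp (g := fun p : ℂ × ℂ => p.2) (f := fun z => (χ i).q (F z)) h4 h1
    have h5 : ∀ᶠ z in 𝓝 z₀, ((χ i).q (F z)).1 = 0 ∨ (nd i = true ∧ ((χ i).q (F z)).2 = 0) := by
      filter_upwards [h3, hc.continuousAt.eventually_ne hc0, hF.2] with z hz hcz hzT
      obtain ⟨hz1, hz2⟩ := hz
      apply (hT i _ hz1).mp
      have h6 := hQ.smul_mem hX hzT (inv_ne_zero hcz)
      rw [hz2, smul_smul, inv_mul_cancel₀ hcz, one_smul] at h6
      exact h6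
    have h7 : fderiv ℂ (χ i).q (F z₀) (deriv F z₀) =
        (deriv (fun z => ((χ i).q (F z)).1) z₀, deriv (fun z => ((χ i).q (F z)).2) z₀) := by
      rw [← h2]
      have hd : HasDerivAt (fun z => (χ i).q (F z)) (deriv (fun z => (χ i).q (F z)) z₀) z₀ :=
        h1.differentiableAt.hasDerivAt
      ext
      · exact (hasFDerivAt_fst.comp_hasDerivAt z₀ hd).deriv.symm
      · exact (hasFDerivAt_snd.comp_hasDerivAt z₀ hd).deriv.symm
    have h8 := GRules_pM_zero hκ hs ht h5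
    rw [h7]
    have h9 : (χ i).q (F z₀) = (((χ i).q (F z₀)).1, ((χ i).q (F z₀)).2) := rfl
    rw [h9, h8, mul_zero]
  · rfl

theorem GG_zero (hX : IsCone X) (hQ : IsEq X T Q D) (hM' : 1 ≤ M') (hκ : P.κ ≤ 1 / 4)
    (hT : ∀ i, HasType T (χ i) (nd i)) {F : ℂ → EN N} {z₀ : ℂ} (hF : CurveAt T F z₀) :
    GG Ω χ nd P Q D M' δ c₁ (F z₀) (deriv F z₀) = 0 := by
  obtain ⟨k, hk⟩ := exists_GG_eq (Ω := Ω) (χ := χ) (nd := nd) (P := P) (Q := Q) (D := D)
    (M' := M') (δ := δ) (c₁ := c₁) (F z₀) (deriv F z₀)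
  rw [hk]
  cases k with
  | none =>
    simp only [pieceG]
    have h1 : Q (F z₀) = 0 := ((hQ.mem_iff _).mp hF.mem).2
    have h2 : rho Q D (F z₀) = 0 := by
      unfold rho
      rw [h1, norm_zero, zero_div]
    rw [h2, zero_pow (by omega), zero_mul]
  | some i =>
    simp only [pieceG]
    rw [GRules_near_zero hX hQ hκ hT hF i, mul_zero]

end Pool.Agent.H14.PP

end

section

/-!
# TB MetA: the metric of `H14.PP.exists_metric` with its data

The same proof, with the exponent `c₀` given (`0 < c₀ < j / m`) and `κ` small; the atlas and the parameters are in the conclusion.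
-/

set_option autoImplicit false

open Topology Filter Metric

namespace Pool.Agent.H36.TB

open Pool.Agent.H36.BP
open Pool.Agent.H14.PP

variable {N : ℕ} {W : Type*} [NormedAddCommGroup W] [InnerProductSpace ℂ W]
  {X K T : Set (EN N)} {m j : ℕ} {Q : EN N → W} {D : ℕ}

/-- the data of the metric -/
structure MetP (X K T : Set (EN N)) (m j : ℕ) (Ω : Form K m j) (Q : EN N → W) (D : ℕ) (n : ℕ) (χ : Fin n → Chart X) (nd : Fin n → Bool)
    (P : Par) (M₀ : ℕ) (δ c₁ c : ℝ) : Prop where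
  ty : ∀ i, HasType T (χ i) (nd i)
  conv : ConvPar P
  δ_pos : 0 < δ
  δ_le : δ ≤ 1
  cov : ∀ x ∈ X, rho Q D x ≤ δ → ∃ i, x ∈ (χ i).U ∧ ‖(χ i).q x‖ < 1 / 2
  c₁_pos : 0 < c₁
  c_pos : 0 < c
  low : ∀ (i : Fin n) (F : ℂ → EN N) (z₀ : ℂ),
      CurveAt K F z₀ → F z₀ ∈ (χ i).U → ‖(χ i).q (F z₀)‖ ≤ 1 → rho Q D (F z₀) ≤ δ →
      c * rho Q D (F z₀) ^ M₀ * fs (F z₀) (deriv F z₀) ≤
        nearG Ω χ nd P Q D δ i (F z₀) (deriv F z₀)

end Pool.Agent.H36.TB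

end

section

/-!
# BPm NearBounds: upper and lower bounds for the metric near `T`

`b` analytic on the bidisc with `b = gD d^(m-1) * aCoef` on `{σ p ∈ K}` (`PoleBound`). For
`‖p‖ ≤ 1`: `small nd p ≤ ‖gD d p‖ ≤ 1` (`gD d p` is a product of some of the coordinates; if
`d.2 = true` then `nd = true`; if `nd = false` and `d.1 = true` it is `p.1`, `small = ‖p.1‖`).
* Upper bound (`ACoef_le`): `‖aCoef p‖ = ‖b p‖/‖gD d p‖^(m-1) ≤ A/‖gD d p‖^(m-1)`, so
  `ACoef p ≤ C ‖gD d p‖^(-((m-1)/m))` (`‖σ‖` bounded above on the closed bidisc).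
* `near_upper`: hence `ACoef p ≤ C small^(-1)`, `rho^2 ≤ C^2 small` (`rho_chart_le`: if `nd = true`
  `rho ≤ C ‖p.1‖, C ‖p.2‖`; if `nd = false` `rho ≤ C ‖p.1‖` and `‖p.1‖^2 ≤ ‖p.1‖`), and
  `pM ≤ 2 ‖w‖` (`pM_le`). If `small nd p = 0` then `rho = 0` and the left side is `0`.
* `near_lower`: `b p ≠ 0` if `σ p ∉ T` (then `σ p ∈ K`, `gD ≠ 0` because `σ p ∈ K` means no
  `D`-coordinate vanishes, `aCoef_ne_zero`), that is if `p.1 ≠ 0` and (`nd = true → p.2 ≠ 0`). So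
  `‖b p‖ ≥ c small^k` (`Pool.Agent.H62.BP.lower_smooth`, `lower_node`), `‖aCoef p‖ ≥ ‖b p‖`,
  `ACoef p ≥ c' small^k` (`small ≤ 1`, `‖σ‖` bounded below, `1 ≤ m`), and
  `pM nd P p w ≥ small nd p * ‖w‖ * exp (-K-1)` (`le_pM_false`, `le_pM_true`). Finally
  `small ≥ rho^2/C^2`: `M₀ = 2 (k + 1)`.
-/

open Topology Filter Metric

namespace Pool.Agent.H14.PP

open Pool.Agent.H36.BP

variable {N : ℕ} {W : Type*} [NormedAddCommGroup W] [InnerProductSpace ℂ W]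
  {X K T : Set (EN N)} {Q : EN N → W} {D m j : ℕ}

private theorem NearBounds_rho (hX : IsCone X) (hQ : IsEq X T Q D) (χ : Chart X) {nd : Bool}
    (h : HasType T χ nd) : ∃ C : ℝ, 0 < C ∧ ∀ p ∈ closedBall (0 : ℂ × ℂ) 1,
      0 ≤ rho Q D (χ.σ p) ∧ rho Q D (χ.σ p) ^ 2 ≤ C * small nd p := by
  obtain ⟨C, hC, hr⟩ := rho_chart_le hX hQ χ h
  refine ⟨C ^ 2, by positivity, fun p hp => ?_⟩
  obtain ⟨-, -, h1, h2⟩ := NearBounds_mem hp
  have h0 : 0 ≤ rho Q D (χ.σ p) := by unfold rho; positivity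
  refine ⟨h0, ?_⟩
  obtain ⟨r1, r2⟩ := hr p hp
  have n1 := norm_nonneg p.1
  have n2 := norm_nonneg p.2
  unfold small
  split_ifs with hnd
  · have r3 := r2 hnd
    calc rho Q D (χ.σ p) ^ 2 = rho Q D (χ.σ p) * rho Q D (χ.σ p) := sq _
      _ ≤ (C * ‖p.1‖) * (C * ‖p.2‖) := mul_le_mul r1 r3 h0 (by positivity)
      _ = C ^ 2 * (‖p.1‖ * ‖p.2‖) := by ring
  · calc rho Q D (χ.σ p) ^ 2 = rho Q D (χ.σ p) * rho Q D (χ.σ p) := sq _
      _ ≤ (C * ‖p.1‖) * (C * ‖p.1‖) := mul_le_mul r1 r1 h0 (by positivity)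
      _ = C ^ 2 * (‖p.1‖ * ‖p.1‖) := by ring
      _ ≤ C ^ 2 * (‖p.1‖ * 1) := by gcongr
      _ = C ^ 2 * ‖p.1‖ := by ring

theorem near_upper (hX : IsCone X) (hQ : IsEq X T Q D) (hm : 1 ≤ m) (Ω : Form K m j)
    (hΩ : Ω.PoleBound X) (χ : Chart X) {P : Par} (hP : ConvPar P) {nd : Bool} {d : Bool × Bool}
    (h : HasType T χ nd) (hd : DType K χ d) (hdn : d.2 = true → nd = true) :
    ∃ C : ℝ, 0 < C ∧ ∀ p ∈ closedBall (0 : ℂ × ℂ) 1, χ.σ p ∈ K → ∀ w,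
      rho Q D (χ.σ p) ^ 2 * (ACoef Ω χ p * pM nd P p w) ≤ C * ‖w‖ := by
  obtain ⟨C1, hC1, hA⟩ := ACoef_le hX hm Ω hΩ χ hd
  obtain ⟨C2, hC2, hr⟩ := NearBounds_rho hX hQ χ h
  have hm0 : (0 : ℝ) < m := by exact_mod_cast hm
  have hm1 : (1 : ℝ) ≤ m := by exact_mod_cast hm
  refine ⟨C2 * C1 * 2, by positivity, fun p hp hpK w => ?_⟩
  obtain ⟨hg0, hg1⟩ := NearBounds_gD χ hd hp hpK
  obtain ⟨hs0, hsg, hs1⟩ := NearBounds_small hdn hp
  obtain ⟨hr0, hr2⟩ := hr p hp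
  have h1 : ACoef Ω χ p ≤ C1 * ‖gD d p‖⁻¹ := by
    refine (hA p hp hpK).trans (mul_le_mul_of_nonneg_left ?_ hC1.le)
    rw [← Real.rpow_neg_one]
    refine Real.rpow_le_rpow_of_exponent_ge hg0 hg1 ?_
    rw [neg_le_neg_iff, div_le_one hm0]
    linarith
  have h2 : rho Q D (χ.σ p) ^ 2 ≤ C2 * ‖gD d p‖ := hr2.trans (mul_le_mul_of_nonneg_left hsg hC2.le)
  have h3 : pM nd P p w ≤ 2 * ‖w‖ := pM_le hP nd (NearBounds_mem hp).2.1 w
  have h4 : 0 ≤ pM nd P p w := pM_nonneg (zero_le_one.trans hP.M_ge) nd p w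
  have h5 : 0 ≤ ACoef Ω χ p := ACoef_nonneg Ω χ p
  have hgi : 0 ≤ ‖gD d p‖⁻¹ := inv_nonneg.2 hg0.le
  calc rho Q D (χ.σ p) ^ 2 * (ACoef Ω χ p * pM nd P p w)
      ≤ (C2 * ‖gD d p‖) * ((C1 * ‖gD d p‖⁻¹) * (2 * ‖w‖)) := by
        refine mul_le_mul h2 (mul_le_mul h1 h3 h4 (by positivity)) (by positivity) (by positivity)
    _ = C2 * C1 * 2 * ‖w‖ * (‖gD d p‖ * ‖gD d p‖⁻¹) := by ring
    _ = C2 * C1 * 2 * ‖w‖ := by rw [mul_inv_cancel₀ hg0.ne', mul_one]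

private theorem NearBounds_b (hX : IsCone X) (hK : IsOpenPart X K) (hKT : ∀ x ∈ X, x ∉ K → x ∈ T)
    (Ω : Form K m j) (hΩ : Ω.NoZeroOff T) (χ : Chart X) {nd : Bool} {d : Bool × Bool}
    (h : HasType T χ nd) (hd : DType K χ d) {b : ℂ × ℂ → ℂ}
    (hb : ∀ p ∈ ball (0 : ℂ × ℂ) 2, AnalyticAt ℂ b p)
    (hbe : ∀ p ∈ ball (0 : ℂ × ℂ) 2, χ.σ p ∈ K → b p = gD d p ^ (m - 1) * aCoef Ω χ p) :
    ∃ (c : ℝ) (k : ℕ), 0 < c ∧ ∀ p ∈ closedBall (0 : ℂ × ℂ) 1, c * small nd p ^ k ≤ ‖b p‖ := by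
  have hball : ∀ s t : ℂ, ‖s‖ < 2 → ‖t‖ < 2 → (s, t) ∈ ball (0 : ℂ × ℂ) 2 := by
    intro s t hs ht
    rw [mem_ball_zero_iff, Prod.norm_def]
    exact max_lt hs ht
  have hne : ∀ p ∈ ball (0 : ℂ × ℂ) 2, ¬ (p.1 = 0 ∨ (nd = true ∧ p.2 = 0)) → b p ≠ 0 := by
    intro p hp hp0
    have hT : χ.σ p ∉ T := fun hT => hp0 ((h p hp).1 hT)
    have hpK : χ.σ p ∈ K := by
      by_contra hpK
      exact hT (hKT _ (χ.σ_mem p hp).1 hpK)
    rw [hbe p hp hpK]
    refine mul_ne_zero (pow_ne_zero _ ?_) (aCoef_ne_zero hX hK Ω χ hΩ hp hpK hT)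
    have h3 : ¬ ((d.1 = true ∧ p.1 = 0) ∨ (d.2 = true ∧ p.2 = 0)) := fun h' => (hd p hp).2 h' hpK
    rw [not_or] at h3
    unfold gD
    refine mul_ne_zero ?_ ?_
    · split_ifs with h'
      · exact fun h0 => h3.1 ⟨h', h0⟩
      · exact one_ne_zero
    · split_ifs with h'
      · exact fun h0 => h3.2 ⟨h', h0⟩
      · exact one_ne_zero
  cases nd with
  | true =>
    obtain ⟨c, k, hc, -, hck⟩ := Pool.Agent.H62.BP.lower_node (a := b)
      (fun s t hs ht => hb _ (hball s t hs ht))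
      (fun s t hs ht hs0 ht0 => hne _ (hball s t hs ht) (by
        rintro (h' | ⟨-, h'⟩)
        · exact hs0 h'
        · exact ht0 h'))
    refine ⟨c, k, hc, fun p hp => ?_⟩
    obtain ⟨-, -, h1, h2⟩ := NearBounds_mem hp
    have := hck p.1 p.2 h1 h2
    unfold small
    rw [if_pos rfl]
    exact this
  | false =>
    obtain ⟨c, k, hc, hck⟩ := Pool.Agent.H62.BP.lower_smooth (a := b)
      (fun s t hs ht => hb _ (hball s t (hs.trans_lt one_lt_two) (ht.trans_lt one_lt_two)))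
      (fun s t hs ht hs0 => hne _ (hball s t (hs.trans_lt one_lt_two) (ht.trans_lt one_lt_two)) (by
        rintro (h' | ⟨h', -⟩)
        · exact hs0 h'
        · exact absurd h' (by simp)))
    refine ⟨c, k, hc, fun p hp => ?_⟩
    obtain ⟨-, -, h1, h2⟩ := NearBounds_mem hp
    have := hck p.1 p.2 h1 h2
    unfold small
    rw [if_neg (by simp)]
    exact this

theorem near_lower (hX : IsCone X) (hK : IsOpenPart X K) (hKT : ∀ x ∈ X, x ∉ K → x ∈ T)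
    (hQ : IsEq X T Q D) (hm : 1 ≤ m) (Ω : Form K m j) (hΩ : Ω.NoZeroOff T)
    (hΩ' : Ω.PoleBound X) (χ : Chart X) {P : Par} (hP : ConvPar P) {nd : Bool} {d : Bool × Bool}
    (h : HasType T χ nd) (hd : DType K χ d) (hdn : d.2 = true → nd = true) :
    ∃ (M₀ : ℕ) (c : ℝ), 0 < c ∧ ∀ p ∈ closedBall (0 : ℂ × ℂ) 1, χ.σ p ∈ K → ∀ w,
      c * rho Q D (χ.σ p) ^ M₀ * ‖w‖ ≤ ACoef Ω χ p * pM nd P p w := by
  obtain ⟨a, A, ha, hA, hσ⟩ := NearBounds_sigma hX χ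
  obtain ⟨b, hb, hbe⟩ := hΩ' χ d hd
  obtain ⟨c0, k, hc0, hck⟩ := NearBounds_b hX hK hKT Ω hΩ χ h hd hb hbe
  obtain ⟨C2, hC2, hr⟩ := NearBounds_rho hX hQ χ h
  have hm0 : (0 : ℝ) < m := by exact_mod_cast hm
  have hm1 : (1 : ℝ) ≤ m := by exact_mod_cast hm
  have hc1 : 0 < c0 ^ (1 / (m : ℝ)) * a ^ ((j : ℝ) / m) := by positivity
  refine ⟨2 * (k + 1), c0 ^ (1 / (m : ℝ)) * a ^ ((j : ℝ) / m) * Real.exp (-P.K - 1) / C2 ^ (k + 1),
    by positivity, fun p hp hpK w => ?_⟩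
  obtain ⟨hg0, hg1⟩ := NearBounds_gD χ hd hp hpK
  obtain ⟨hs0, hsg, hs1⟩ := NearBounds_small hdn hp
  obtain ⟨hr0, hr2⟩ := hr p hp
  have hp1 := (NearBounds_mem hp).2.1
  have hsk0 : 0 ≤ small nd p ^ k := pow_nonneg hs0 k
  have hsk1 : small nd p ^ k ≤ 1 := pow_le_one₀ hs0 hs1
  -- lower bound of the coefficient
  have e1 : c0 * small nd p ^ k ≤ ‖aCoef Ω χ p‖ := by
    refine (hck p hp).trans ?_
    rw [hbe p (NearBounds_mem hp).1 hpK, norm_mul, norm_pow]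
    exact mul_le_of_le_one_left (norm_nonneg _) (pow_le_one₀ hg0.le hg1)
  have e2 : c0 ^ (1 / (m : ℝ)) * small nd p ^ k ≤ ‖aCoef Ω χ p‖ ^ (1 / (m : ℝ)) := by
    refine le_trans ?_ (Real.rpow_le_rpow (by positivity) e1 (by positivity))
    rw [Real.mul_rpow hc0.le hsk0]
    refine mul_le_mul_of_nonneg_left ?_ (by positivity)
    rcases hsk0.eq_or_lt with h0 | h0
    · rw [← h0]
      exact Real.rpow_nonneg le_rfl _
    · calc small nd p ^ k = (small nd p ^ k) ^ (1 : ℝ) := (Real.rpow_one _).symm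
        _ ≤ (small nd p ^ k) ^ (1 / (m : ℝ)) := by
          refine Real.rpow_le_rpow_of_exponent_ge h0 hsk1 ?_
          rw [div_le_one hm0]
          exact hm1
  have e3 : a ^ ((j : ℝ) / m) ≤ ‖χ.σ p‖ ^ ((j : ℝ) / m) :=
    Real.rpow_le_rpow ha.le (hσ p hp).1 (by positivity)
  have e4 : c0 ^ (1 / (m : ℝ)) * small nd p ^ k * a ^ ((j : ℝ) / m) ≤ ACoef Ω χ p := by
    unfold ACoef
    exact mul_le_mul e2 e3 (by positivity) (by positivity)
  -- lower bound of the piece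
  have e5 : small nd p * ‖w‖ * Real.exp (-P.K - 1) ≤ pM nd P p w := by
    cases nd with
    | true =>
      have := le_pM_true hP hp1 w
      unfold small
      rw [if_pos rfl]
      exact this
    | false =>
      have := le_pM_false hP hp1 w
      unfold small
      rw [if_neg (by simp)]
      exact this
  have e6 : rho Q D (χ.σ p) ^ (2 * (k + 1)) ≤ C2 ^ (k + 1) * small nd p ^ (k + 1) := by
    rw [pow_mul, ← mul_pow]
    exact pow_le_pow_left₀ (by positivity) hr2 _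
  have e7 : 0 ≤ ACoef Ω χ p := ACoef_nonneg Ω χ p
  have hCk : 0 < C2 ^ (k + 1) := by positivity
  calc c0 ^ (1 / (m : ℝ)) * a ^ ((j : ℝ) / m) * Real.exp (-P.K - 1) / C2 ^ (k + 1) *
        rho Q D (χ.σ p) ^ (2 * (k + 1)) * ‖w‖
      ≤ c0 ^ (1 / (m : ℝ)) * a ^ ((j : ℝ) / m) * Real.exp (-P.K - 1) / C2 ^ (k + 1) *
        (C2 ^ (k + 1) * small nd p ^ (k + 1)) * ‖w‖ := by gcongr
    _ = (c0 ^ (1 / (m : ℝ)) * small nd p ^ k * a ^ ((j : ℝ) / m)) *
          (small nd p * ‖w‖ * Real.exp (-P.K - 1)) := by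
        rw [pow_succ (small nd p) k]
        field_simp
    _ ≤ ACoef Ω χ p * pM nd P p w := mul_le_mul e4 e5 (by positivity) e7

end Pool.Agent.H14.PP

end

section

/-!
# The metric theorem
-/

open Topology Filter Metric

namespace Pool.Agent.H14.PP

open Pool.Agent.H36.BP

variable {N : ℕ} {W : Type*} [NormedAddCommGroup W] [InnerProductSpace ℂ W]
  {X K T : Set (EN N)} {m j : ℕ} {Q : EN N → W} {D : ℕ}

/-- a common upper bound -/
lemma exists_ub {n : ℕ} (f : Fin n → ℝ) : ∃ C : ℝ, 1 ≤ C ∧ ∀ i, f i ≤ C := by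
  refine ⟨1 + ∑ i, |f i|, ?_, fun i => ?_⟩
  · have : 0 ≤ ∑ i, |f i| := Finset.sum_nonneg fun i _ => abs_nonneg _
    linarith
  · have h1 : |f i| ≤ ∑ i, |f i| :=
      Finset.single_le_sum (f := fun i => |f i|) (fun i _ => abs_nonneg _) (Finset.mem_univ i)
    have h2 := le_abs_self (f i)
    linarith

/-- a common positive lower bound -/
lemma exists_lb {n : ℕ} (f : Fin n → ℝ) (hf : ∀ i, 0 < f i) :
    ∃ c : ℝ, 0 < c ∧ c ≤ 1 ∧ ∀ i, c ≤ f i := by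
  obtain ⟨C, hC, hCf⟩ := exists_ub fun i => (f i)⁻¹
  refine ⟨C⁻¹, by positivity, inv_le_one_of_one_le₀ hC, fun i => ?_⟩
  exact inv_le_of_inv_le₀ (hf i) (hCf i)

/-- a common upper bound for natural numbers -/
lemma exists_nat_ub {n : ℕ} (f : Fin n → ℕ) : ∃ M : ℕ, ∀ i, f i ≤ M :=
  ⟨Finset.univ.sup f, fun i => Finset.le_sup (Finset.mem_univ i)⟩

section chart

variable {Ω : Form K m j} {n : ℕ} {χ : Fin n → Chart X} {nd : Fin n → Bool} {P : Par}
  {M' : ℕ} {δ c₁ : ℝ}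

/-- upper bound of the near metrics -/
lemma near_fs_upper (hX : IsCone X) (hK : IsOpenPart X K) (hQ : IsEq X T Q D) (hm : 1 ≤ m)
    (hΩ : Ω.PoleBound X) (hP : ConvPar P) {d : Fin n → Bool × Bool}
    (h : ∀ i, HasType T (χ i) (nd i)) (hd : ∀ i, DType K (χ i) (d i))
    (hdn : ∀ i, (d i).2 = true → nd i = true) {CE : ℝ}
    (hCE : ∀ i, ∀ x ∈ X, x ∈ (χ i).U → ‖(χ i).q x‖ ≤ 1 → ∀ v,
      ‖fderiv ℂ (χ i).q x v‖ ≤ CE * fs x v) :
    ∃ C : ℝ, 0 < C ∧ ∀ (δ : ℝ) (i : Fin n), ∀ x ∈ K, ∀ v,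
      rho Q D x ^ 2 * nearG Ω χ nd P Q D δ i x v ≤ C * fs x v := by
  choose CN hCN hup using fun i => near_upper hX hQ hm Ω hΩ (χ i) hP (h i) (hd i) (hdn i)
  obtain ⟨C, hC1, hC⟩ := exists_ub CN
  obtain ⟨CE', hCE1, hCE'⟩ : ∃ CE', 1 ≤ CE' ∧ CE ≤ CE' := ⟨max CE 1, le_max_right _ _,
    le_max_left _ _⟩
  refine ⟨C * CE', by positivity, fun δ i x hx v => ?_⟩
  have hfs := fs_nonneg x v
  by_cases hmem : x ∈ X ∧ x ∈ (χ i).U ∧ ‖(χ i).q x‖ ≤ 1 ∧ rho Q D x ≤ δ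
  · obtain ⟨h1, h2, h3, h4⟩ := hmem
    rw [nearG_of_mem h1 h2 h3 h4]
    have h5 := hup i ((χ i).q x) (by simpa using h3)
      (((χ i).sigma_mem_iff h1 h2 hK.smul_mem).mpr hx) (fderiv ℂ (χ i).q x v)
    rw [(χ i).rho_sigma hQ.smul h1 h2] at h5
    refine h5.trans ?_
    have h6 := hCE i x h1 h2 h3 v
    have h7 : CE * fs x v ≤ CE' * fs x v := by gcongr
    calc CN i * ‖fderiv ℂ (χ i).q x v‖ ≤ C * (CE' * fs x v) := by
          have := hC i
          have := (hCN i).le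
          gcongr
          exact h6.trans h7
      _ = C * CE' * fs x v := by ring
  · have h5 : nearG Ω χ nd P Q D δ i x v = 0 := by
      unfold nearG
      rw [if_neg hmem]
    rw [h5, mul_zero]
    positivity

/-- lower bound of the near metrics along curves -/
lemma near_fs_lower (hX : IsCone X) (hK : IsOpenPart X K) (hKT : ∀ x ∈ X, x ∉ K → x ∈ T)
    (hQ : IsEq X T Q D) (hm : 1 ≤ m) (hΩ : Ω.NoZeroOff T)
    (hΩ' : Ω.PoleBound X) (hP : ConvPar P) {d : Fin n → Bool × Bool}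
    (h : ∀ i, HasType T (χ i) (nd i)) (hd : ∀ i, DType K (χ i) (d i))
    (hdn : ∀ i, (d i).2 = true → nd i = true) {CE : ℝ}
    (hCE : ∀ i, ∀ (F : ℂ → EN N) (z₀ : ℂ), CurveAt X F z₀ → F z₀ ∈ (χ i).U →
      ‖(χ i).q (F z₀)‖ ≤ 1 →
        fs (F z₀) (deriv F z₀) ≤ CE * ‖deriv (fun z => (χ i).q (F z)) z₀‖) :
    ∃ (M₀ : ℕ) (c : ℝ), 0 < c ∧ ∀ (δ : ℝ), δ ≤ 1 → ∀ (i : Fin n) (F : ℂ → EN N) (z₀ : ℂ),
      CurveAt K F z₀ → F z₀ ∈ (χ i).U → ‖(χ i).q (F z₀)‖ ≤ 1 → rho Q D (F z₀) ≤ δ →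
      c * rho Q D (F z₀) ^ M₀ * fs (F z₀) (deriv F z₀) ≤
        nearG Ω χ nd P Q D δ i (F z₀) (deriv F z₀) := by
  choose Ms cs hcs hlow using fun i =>
    near_lower hX hK hKT hQ hm Ω hΩ hΩ' (χ i) hP (h i) (hd i) (hdn i)
  obtain ⟨M₀, hM₀⟩ := exists_nat_ub Ms
  obtain ⟨c, hc, -, hcc⟩ := exists_lb cs hcs
  obtain ⟨CE', hCE1, hCE'⟩ : ∃ CE', 1 ≤ CE' ∧ CE ≤ CE' := ⟨max CE 1, le_max_right _ _,
    le_max_left _ _⟩
  have hCE0 : 0 < CE' := by linarith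
  refine ⟨M₀, c / CE', by positivity, fun δ hδ i F z₀ hF hU hq hρ => ?_⟩
  have hFX : CurveAt X F z₀ := hF.mono hK.subset
  have hρ0 := rho_nonneg Q D (F z₀)
  rw [nearG_of_mem hFX.mem hU hq hρ]
  have h5 := hlow i ((χ i).q (F z₀)) (by simpa using hq)
    (((χ i).sigma_mem_iff hFX.mem hU hK.smul_mem).mpr hF.mem) (fderiv ℂ (χ i).q (F z₀) (deriv F z₀))
  rw [(χ i).rho_sigma hQ.smul hFX.mem hU] at h5
  refine le_trans ?_ h5
  obtain ⟨-, h6, -⟩ := (χ i).curve hX hFX hU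
  rw [← h6]
  have h7 := hCE i F z₀ hFX hU hq
  have h8 : fs (F z₀) (deriv F z₀) ≤ CE' * ‖deriv (fun z => (χ i).q (F z)) z₀‖ :=
    h7.trans (by gcongr)
  have h9 : rho Q D (F z₀) ^ M₀ ≤ rho Q D (F z₀) ^ Ms i :=
    pow_le_pow_of_le_one hρ0 (hρ.trans hδ) (hM₀ i)
  calc c / CE' * rho Q D (F z₀) ^ M₀ * fs (F z₀) (deriv F z₀)
      ≤ c / CE' * rho Q D (F z₀) ^ M₀ * (CE' * ‖deriv (fun z => (χ i).q (F z)) z₀‖) := by gcongr
    _ = c * rho Q D (F z₀) ^ M₀ * ‖deriv (fun z => (χ i).q (F z)) z₀‖ := by field_simp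
    _ ≤ cs i * rho Q D (F z₀) ^ Ms i * ‖deriv (fun z => (χ i).q (F z)) z₀‖ := by
        have h10 := hcc i
        have h11 := (hcs i).le
        have h12 : 0 ≤ ‖deriv (fun z => (χ i).q (F z)) z₀‖ := norm_nonneg _
        have h13 := pow_nonneg hρ0 (Ms i)
        have h14 := pow_nonneg hρ0 M₀
        exact mul_le_mul_of_nonneg_right (mul_le_mul h10 h9 h14 h11) h12

/-- at the boundary of a chart another chart has a larger metric -/
lemma near_boundary (hX : IsCone X) (hK : IsOpenPart X K) (hQ : IsEq X T Q D) {r' : ℝ}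
    (hdom : ∀ (i : Fin n) (p w : ℂ × ℂ), ‖p‖ = 1 → small (nd i) p ≤ r' →
      (χ i).σ p ∈ K → 0 < ACoef Ω (χ i) p * pM (nd i) P p w →
      ∃ k, (χ i).σ p ∈ (χ k).U ∧ ‖(χ k).q ((χ i).σ p)‖ < 1 / 2 ∧
        ACoef Ω (χ i) p * pM (nd i) P p w <
          ACoef Ω (χ k) ((χ k).q ((χ i).σ p)) * pM (nd k) P ((χ k).q ((χ i).σ p))
            (fderiv ℂ (fun y => (χ k).q ((χ i).σ y)) p w))
    {δ : ℝ} (hsm : ∀ i, ∀ p ∈ closedBall (0 : ℂ × ℂ) 1, rho Q D ((χ i).σ p) ≤ δ →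
      small (nd i) p ≤ r')
    {i : Fin n} {F : ℂ → EN N} {z₀ : ℂ} (hF : CurveAt K F z₀)
    (hpos : 0 < nearG Ω χ nd P Q D δ i (F z₀) (deriv F z₀))
    (hq : ‖(χ i).q (F z₀)‖ = 1) :
    ∃ k, nearG Ω χ nd P Q D δ i (F z₀) (deriv F z₀) <
      nearG Ω χ nd P Q D δ k (F z₀) (deriv F z₀) := by
  have hFX : CurveAt X F z₀ := hF.mono hK.subset
  obtain ⟨h1, h2, h3, h4⟩ := mem_of_nearG_pos hpos
  rw [nearG_of_mem h1 h2 h3 h4] at hpos ⊢
  have hρσ := (χ i).rho_sigma hQ.smul h1 h2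
  have hσK := ((χ i).sigma_mem_iff h1 h2 hK.smul_mem).mpr hF.mem
  obtain ⟨k, hk1, hk2, hk3⟩ := hdom i ((χ i).q (F z₀)) _ hq
    (hsm i _ (by simpa using h3) (by rw [hρσ]; exact h4)) hσK hpos
  refine ⟨k, ?_⟩
  obtain ⟨hqan, hqd, c, hc, hc0, hev⟩ := (χ i).curve hX hFX h2
  obtain ⟨hball, hFz⟩ := hev.self_of_nhds
  -- `F z₀` is in the chart `k`
  have hUk : F z₀ ∈ (χ k).U := by
    rw [hFz]
    exact (χ k).smul_U _ hk1 _ hc0
  have hqk : (χ k).q (F z₀) = (χ k).q ((χ i).σ ((χ i).q (F z₀))) := by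
    conv_lhs => rw [hFz]
    exact (χ k).q_smul _ hk1 _ hc0
  have hqk1 : ‖(χ k).q (F z₀)‖ ≤ 1 := by
    rw [hqk]
    linarith
  rw [nearG_of_mem h1 hUk hqk1 h4, hqk]
  refine lt_of_lt_of_eq hk3 ?_
  congr 2
  -- the derivative
  have hev2 : (fun z => (χ k).q (F z)) =ᶠ[𝓝 z₀]
      fun z => (χ k).q ((χ i).σ ((χ i).q (F z))) := by
    have h5 : ∀ᶠ z in 𝓝 z₀, F z ∈ (χ k).U :=
      hF.1.continuousAt.eventually ((χ k).isOpen_U.mem_nhds hUk)
    have h6 : ∀ᶠ z in 𝓝 z₀, c z ≠ 0 := hc.continuousAt.eventually_ne hc0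
    filter_upwards [hev, h5, h6] with z h7 h8 h9
    obtain ⟨h10, h11⟩ := h7
    have h12 : (χ i).σ ((χ i).q (F z)) = (c z)⁻¹ • F z := by
      conv_rhs => rw [h11]
      rw [smul_smul, inv_mul_cancel₀ h9, one_smul]
    rw [h12, (χ k).q_smul _ h8 _ (inv_ne_zero h9)]
  obtain ⟨-, hqkd, -⟩ := (χ k).curve hX hFX hUk
  rw [← hqkd, hev2.deriv_eq, ← hqd]
  have hτ : DifferentiableAt ℂ (fun y => (χ k).q ((χ i).σ y)) ((χ i).q (F z₀)) := by
    refine (AnalyticAt.fun_comp ?_ ((χ i).σ_an _ hball)).differentiableAt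
    exact (χ k).q_an _ hk1
  exact (fderiv_comp_deriv (f := fun z => (χ i).q (F z)) z₀ hτ hqan.differentiableAt).symm

end chart

end Pool.Agent.H14.PP

end

section

/-!
# EF Closed: unions of closed subsets of a projective variety
-/

set_option autoImplicit false

open Topology Filter MvPolynomial

noncomputable section

namespace Pool.Agent.H17EF

open Pool.Agent.H17 (PN VanishesAt HolomorphicInto ZariskiClosedIn)
open Pool.Agent.H62.FC (Homog)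

variable {N : ℕ} {P : Ideal (MvPolynomial (Fin (N + 1)) ℂ)}

/-- A form which is not in the homogeneous prime ideal `P` does not vanish at some point of the variety of `P`. -/
theorem exists_point [hPp : P.IsPrime] (hP : Homog P) (hX : ∃ i, (X i : MvPolynomial (Fin (N + 1)) ℂ) ∉ P)
    {Q : MvPolynomial (Fin (N + 1)) ℂ} (hQP : Q ∉ P) {n : ℕ} (hQ : Q.IsHomogeneous n) : ∃ x ∈ projVar P, ¬ VanishesAt Q x := by
  obtain ⟨i, hi⟩ := hX
  have h1 : Q * X i ∉ P := fun h => (hPp.mem_or_mem h).elim hQP hi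
  obtain ⟨x, hx, hx'⟩ : ∃ x : Fin (N + 1) → ℂ, (∀ R ∈ P, eval x R = 0) ∧ eval x (Q * X i) ≠ 0 := by
    by_contra hcon
    push Not at hcon
    apply h1
    rw [← hPp.radical, ← MvPolynomial.vanishingIdeal_zeroLocus_eq_radical (K := ℂ) P, MvPolynomial.mem_vanishingIdeal_iff]
    intro x hx
    rw [MvPolynomial.mem_zeroLocus_iff] at hx
    rw [MvPolynomial.aeval_eq_eval]
    exact hcon x fun R hR => by
      have := hx R hR
      rwa [MvPolynomial.aeval_eq_eval] at this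
  rw [map_mul, eval_X] at hx'
  have hx0 : x ≠ 0 := by
    rintro rfl
    simp at hx'
  refine ⟨Projectivization.mk ℂ x hx0, (mk_mem_projVar hP hx0).2 ⟨hx0, hx⟩, ?_⟩
  unfold VanishesAt
  obtain ⟨a, ha, hrep⟩ := Pool.Agent.H36.BP.rep_mk hx0
  rw [hrep, mk_mem_projVar.eval_smul_form' hQ]
  exact mul_ne_zero (pow_ne_zero n ha) (left_ne_zero_of_mul hx')

/-- if the variety of `P` is not empty, some coordinate is not in `P` -/
theorem exists_coord {x : PN N} (hx : x ∈ projVar P) : ∃ i, (X i : MvPolynomial (Fin (N + 1)) ℂ) ∉ P := by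
  by_contra hcon
  push Not at hcon
  apply x.rep_nonzero
  funext i
  have := hx _ (hcon i) 1 (isHomogeneous_X ℂ i)
  unfold VanishesAt at this
  simpa using this

theorem closed_union {X A B : Set (PN N)} (hA : ZariskiClosedIn X A) (hB : ZariskiClosedIn X B) : ZariskiClosedIn X (A ∪ B) := by
  obtain ⟨S, hS, rfl⟩ := hA
  obtain ⟨T, hT, rfl⟩ := hB
  refine ⟨{R | ∃ Q ∈ S, ∃ Q' ∈ T, R = Q * Q'}, ?_, ?_⟩
  · rintro _ ⟨Q, hQ, Q', hQ', rfl⟩
    obtain ⟨n, hn⟩ := hS Q hQ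
    obtain ⟨m, hm⟩ := hT Q' hQ'
    exact ⟨n + m, hn.mul hm⟩
  · ext x
    constructor
    · rintro (⟨hx, h⟩ | ⟨hx, h⟩)
      · refine ⟨hx, ?_⟩
        rintro _ ⟨Q, hQ, Q', hQ', rfl⟩
        unfold VanishesAt
        have := h Q hQ
        unfold VanishesAt at this
        rw [map_mul, this, zero_mul]
      · refine ⟨hx, ?_⟩
        rintro _ ⟨Q, hQ, Q', hQ', rfl⟩
        unfold VanishesAt
        have := h Q' hQ'
        unfold VanishesAt at this
        rw [map_mul, this, mul_zero]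
    · rintro ⟨hx, h⟩
      by_cases hA : ∀ Q ∈ S, VanishesAt Q x
      · exact Or.inl ⟨hx, hA⟩
      · right
        refine ⟨hx, fun Q' hQ' => ?_⟩
        push Not at hA
        obtain ⟨Q, hQ, hQx⟩ := hA
        have := h (Q * Q') ⟨Q, hQ, Q', hQ', rfl⟩
        unfold VanishesAt at this hQx ⊢
        rw [map_mul] at this
        exact (mul_eq_zero.1 this).resolve_left hQx

theorem closed_biUnion {X : Set (PN N)} {ι : Type*} {I : Set ι} (hI : I.Finite) {A : ι → Set (PN N)}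
    (hA : ∀ i ∈ I, ZariskiClosedIn X (A i)) : ZariskiClosedIn X (⋃ i ∈ I, A i) := by
  induction I, hI using Set.Finite.induction_on with
  | empty =>
    refine ⟨{1}, ?_, ?_⟩
    · intro R hR
      rw [Set.mem_singleton_iff.1 hR]
      exact ⟨0, isHomogeneous_one _ _⟩
    · ext x
      simp [VanishesAt]
  | @insert a s _ _ ih =>
    rw [Set.biUnion_insert]
    exact closed_union (hA a (Set.mem_insert _ _)) (ih fun i hi => hA i (Set.mem_insert_of_mem _ hi))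

/-- a product of forms -/
theorem exists_prod [hPp : P.IsPrime] {ι : Type*} {I : Set ι} (hI : I.Finite) {A : ι → Set (PN N)}
    (hA : ∀ i ∈ I, ∃ (R : MvPolynomial (Fin (N + 1)) ℂ) (n : ℕ), R.IsHomogeneous n ∧ R ∉ P ∧ ∀ x ∈ A i, VanishesAt R x) :
    ∃ (R : MvPolynomial (Fin (N + 1)) ℂ) (n : ℕ), R.IsHomogeneous n ∧ R ∉ P ∧ ∀ x ∈ ⋃ i ∈ I, A i, VanishesAt R x := by
  induction I, hI using Set.Finite.induction_on with
  | empty =>
    refine ⟨1, 0, isHomogeneous_one _ _, fun h => hPp.ne_top ((Ideal.eq_top_iff_one P).2 h), ?_⟩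
    intro x hx
    simp at hx
  | @insert a s _ _ ih =>
    obtain ⟨R, n, hR, hRP, h⟩ := ih fun i hi => hA i (Set.mem_insert_of_mem _ hi)
    obtain ⟨R', n', hR', hRP', h'⟩ := hA a (Set.mem_insert _ _)
    refine ⟨R' * R, n' + n, hR'.mul hR, fun hm => (hPp.mem_or_mem hm).elim hRP' hRP, ?_⟩
    rw [Set.biUnion_insert]
    rintro x (hx | hx)
    · have := h' x hx
      unfold VanishesAt at this ⊢
      rw [map_mul, this, zero_mul]
    · have := h x hx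
      unfold VanishesAt at this ⊢
      rw [map_mul, this, mul_zero]

/-- The Zariski closure of the image of a map. -/
def zariskiClosure (f : ℂ → PN N) : Set (PN N) :=
  {x | ∀ (Q : MvPolynomial (Fin (N + 1)) ℂ) (n : ℕ), Q.IsHomogeneous n → (∀ z, VanishesAt Q (f z)) → VanishesAt Q x}

theorem closed_zariskiClosure {f : ℂ → PN N} (hf : ∀ z, f z ∈ projVar P) : ZariskiClosedIn (projVar P) (zariskiClosure f) := by
  refine ⟨{Q | (∃ n, Q.IsHomogeneous n) ∧ ∀ z, VanishesAt Q (f z)}, fun Q hQ => hQ.1, ?_⟩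
  ext x
  constructor
  · intro hx
    refine ⟨fun Q hQ n hn => hx Q n hn fun z => hf z Q hQ n hn, fun Q hQ => ?_⟩
    obtain ⟨n, hn⟩ := hQ.1
    exact hx Q n hn hQ.2
  · rintro ⟨-, hx⟩ Q n hn hQ
    exact hx Q ⟨⟨n, hn⟩, hQ⟩

end Pool.Agent.H17EF

end
end
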