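import Mathlib

/-! The parts of this file: H13.SM.Inv, H13.SM.Null, H62.Log.Hurwitz, H7.Gtu.Res, H74.NB.CC, H74.NB.Dec, TN.Osg. -/

section

/-!
# The implicit function theorem for polynomials, with coordinates as parameters

PROOF.  The gradients `g j = fun i => eval w (pderiv i (f j))` are linearly independent in `ι → ℂ`,
`j : Fin c`.  Extend them by standard basis vectors to a basis: with `s = Set.range g`,
`t = s ∪ Set.range (fun i => Pi.single i 1)` take `s ⊆ B ⊆ t` linearly independent with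
`t ⊆ span B` (`exists_linearIndependent_extension`), so `B` is a basis of `ι → ℂ`, `|B| = c + n`, and
`B \ s` consists of `n` standard basis vectors `Pi.single (I k) 1`.
Let `Φ y = (fun j => eval y (f j), fun k => y (I k) - w (I k))`.  It is analytic, `Φ w = 0` and its
derivative at `w`, `v ↦ (∑ i, g j i * v i, v (I k))`, is injective: if it kills `v` then
`∑ i, u i * v i = 0` for all `u ∈ B`, hence for all `u`, so `v = 0`.  By dimension it is a linear
equivalence.  Let `Ψ` be the local inverse (`HasStrictFDerivAt.toOpenPartialHomeomorph`), analytic at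
`0` (`OpenPartialHomeomorph.hasFPowerSeriesAt_symm` / `analyticAt_symm`); `σ u = Ψ (0, u)`.
-/

open MvPolynomial Topology

noncomputable section

namespace Pool.Agent.H13.SM

/-- The derivative of the evaluation map of a polynomial. -/
theorem Inv_hasFDerivAt_eval {ι : Type} [Fintype ι] (p : MvPolynomial ι ℂ) (w : ι → ℂ) :
    HasFDerivAt (fun y : ι → ℂ => eval y p)
      (∑ i, eval w (pderiv i p) • (ContinuousLinearMap.proj i : (ι → ℂ) →L[ℂ] ℂ)) w := by
  classical
  induction p using MvPolynomial.induction_on with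
  | C a =>
    have h := hasFDerivAt_const (𝕜 := ℂ) a w
    have h2 : HasFDerivAt (fun y : ι → ℂ => eval y (C a : MvPolynomial ι ℂ)) (0 : (ι → ℂ) →L[ℂ] ℂ) w := by
      simpa using h
    refine h2.congr_fderiv ?_
    ext v
    simp
  | add p q hp hq =>
    have h := hp.add hq
    have h2 : (fun y : ι → ℂ => eval y (p + q)) = (fun y => eval y p) + fun y => eval y q := by
      funext y
      exact map_add _ _ _
    rw [h2]
    refine h.congr_fderiv ?_
    ext v
    simp [Finset.sum_add_distrib, add_mul]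
  | mul_X p n hp =>
    have h1 : HasFDerivAt (fun y : ι → ℂ => y n)
        (ContinuousLinearMap.proj n : (ι → ℂ) →L[ℂ] ℂ) w := hasFDerivAt_apply n w
    have h := hp.mul h1
    have h2 : (fun y : ι → ℂ => eval y (p * X n)) = (fun y => eval y p) * fun y => y n := by
      funext y
      simp only [map_mul, eval_X, Pi.mul_apply]
    rw [h2]
    refine h.congr_fderiv ?_
    ext v
    simp only [Derivation.leibniz, pderiv_X, smul_eq_mul, map_add, map_mul, eval_X,
      FunLike.coe_add, FunLike.coe_smul, Pi.add_apply, Pi.smul_apply, ContinuousLinearMap.proj_apply,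
      sum_apply, add_mul]
    rw [Finset.sum_add_distrib]
    congr 1
    · rw [Finset.sum_eq_single n]
      · simp
      · intro b _ hb
        simp [hb.symm]
      · intro h; exact absurd (Finset.mem_univ n) h
    · rw [Finset.mul_sum]
      exact Finset.sum_congr rfl fun i _ => by ring

/-- Completion of independent vectors by standard basis vectors. -/
theorem Inv_exists_coords {ι : Type} [Fintype ι] {c n : ℕ} (hcn : c + n = Fintype.card ι)
    {g : Fin c → ι → ℂ} (hli : LinearIndependent ℂ g) :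
    ∃ I : Fin n → ι, ∀ v : ι → ℂ, (∀ j, ∑ i, g j i * v i = 0) → (∀ k, v (I k) = 0) → v = 0 := by
  classical
  set S : Submodule ℂ (ι → ℂ) := Submodule.span ℂ (Set.range g) with hS
  have hfS : Module.finrank ℂ S = c := by
    rw [hS, finrank_span_eq_card hli, Fintype.card_fin]
  have hfW : Module.finrank ℂ ((ι → ℂ) ⧸ S) = n := by
    have h := Submodule.finrank_quotient_add_finrank S
    rw [hfS, Module.finrank_fintype_fun_eq_card] at h
    omega
  let q : ι → (ι → ℂ) ⧸ S := fun i => S.mkQ (Pi.single i 1)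
  have hspan : Submodule.span ℂ (Set.range q) = ⊤ := by
    have h1 : Set.range q = S.mkQ '' Set.range (fun i : ι => (Pi.single i (1 : ℂ) : ι → ℂ)) := by
      rw [← Set.range_comp]; rfl
    rw [h1, Submodule.span_image]
    have h2 : Submodule.span ℂ (Set.range (fun i : ι => (Pi.single i (1 : ℂ) : ι → ℂ))) = ⊤ := by
      have := (Pi.basisFun ℂ ι).span_eq
      convert this using 2
      ext i
      simp
    rw [h2, Submodule.map_top, Submodule.range_mkQ]
  obtain ⟨κ, a, ha, hsp, hlin⟩ := exists_linearIndependent' ℂ q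
  have hb := Module.Basis.mk hlin (by rw [hsp, hspan])
  have : Finite κ := Finite.of_injective a ha
  have : Fintype κ := Fintype.ofFinite κ
  have hcard : Fintype.card κ = n := by
    rw [← hfW, Module.finrank_eq_card_basis hb]
  let e : Fin n ≃ κ := (Fintype.equivFinOfCardEq hcard).symm
  refine ⟨fun k => a (e k), fun v hv1 hv2 => ?_⟩
  -- the functional
  let φ : (ι → ℂ) →ₗ[ℂ] ℂ := ∑ i, v i • (LinearMap.proj i : (ι → ℂ) →ₗ[ℂ] ℂ)
  have hφ : ∀ u : ι → ℂ, φ u = ∑ i, v i * u i := by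
    intro u
    simp [φ]
  have hφS : S ≤ LinearMap.ker φ := by
    rw [hS, Submodule.span_le]
    rintro _ ⟨j, rfl⟩
    rw [SetLike.mem_coe, LinearMap.mem_ker, hφ, ← hv1 j]
    exact Finset.sum_congr rfl fun i _ => mul_comm _ _
  let ψ : ((ι → ℂ) ⧸ S) →ₗ[ℂ] ℂ := S.liftQ φ hφS
  have hψ : ∀ u, ψ (S.mkQ u) = φ u := fun u => by simp [ψ]
  have hψ0 : ψ = 0 := by
    apply LinearMap.ext_on_range (v := q ∘ a)
    · rw [hsp, hspan]
    · intro k
      obtain ⟨k', rfl⟩ := e.surjective k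
      show ψ (S.mkQ (Pi.single (a (e k')) 1)) = 0
      rw [hψ, hφ, Finset.sum_eq_single (a (e k'))]
      · rw [hv2 k', zero_mul]
      · intro b _ hb
        rw [Pi.single_eq_of_ne hb, mul_zero]
      · intro h; exact absurd (Finset.mem_univ _) h
  ext i
  have h3 : φ (Pi.single i 1) = 0 := by rw [← hψ, hψ0]; rfl
  rw [hφ, Finset.sum_eq_single i] at h3
  · simpa using h3
  · intro b _ hb
    rw [Pi.single_eq_of_ne hb, mul_zero]
  · intro h; exact absurd (Finset.mem_univ _) h

theorem exists_implicit {ι : Type} [Fintype ι] {c n : ℕ} (hcn : c + n = Fintype.card ι)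
    {f : Fin c → MvPolynomial ι ℂ} {w : ι → ℂ} (hf : ∀ j, eval w (f j) = 0)
    (hli : LinearIndependent ℂ fun (j : Fin c) (i : ι) => eval w (pderiv i (f j))) :
    ∃ (I : Fin n → ι) (σ : (Fin n → ℂ) → ι → ℂ), AnalyticAt ℂ σ 0 ∧ σ 0 = w ∧
      (∀ᶠ u in 𝓝 0, (∀ j, eval (σ u) (f j) = 0) ∧ ∀ k, σ u (I k) = w (I k) + u k) ∧
      ∀ᶠ y in 𝓝 w, (∀ j, eval y (f j) = 0) → y = σ (fun k => y (I k) - w (I k)) := by
  classical
  obtain ⟨I, hI⟩ := Inv_exists_coords hcn hli
  let Φ : (ι → ℂ) → (Fin c → ℂ) × (Fin n → ℂ) :=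
    fun y => (fun j => eval y (f j), fun k => y (I k) - w (I k))
  have hΦan : AnalyticAt ℂ Φ w := by
    apply AnalyticAt.prod
    · rw [analyticAt_pi_iff]
      intro j
      exact AnalyticOnNhd.eval_mvPolynomial (f j) w (Set.mem_univ _)
    · rw [analyticAt_pi_iff]
      intro k
      exact ((ContinuousLinearMap.proj (I k) : (ι → ℂ) →L[ℂ] ℂ).analyticAt w).sub analyticAt_const
  have hΦw : Φ w = 0 := by
    apply Prod.ext
    · funext j; exact hf j
    · funext k; exact sub_self _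
  let L : (ι → ℂ) →L[ℂ] (Fin c → ℂ) × (Fin n → ℂ) :=
    (ContinuousLinearMap.pi fun j => ∑ i, eval w (pderiv i (f j)) •
      (ContinuousLinearMap.proj i : (ι → ℂ) →L[ℂ] ℂ)).prod
      (ContinuousLinearMap.pi fun k => (ContinuousLinearMap.proj (I k) : (ι → ℂ) →L[ℂ] ℂ))
  have hL : HasFDerivAt Φ L w := by
    apply HasFDerivAt.prodMk
    · rw [hasFDerivAt_pi]
      intro j
      exact Inv_hasFDerivAt_eval (f j) w
    · rw [hasFDerivAt_pi]
      intro k
      exact (hasFDerivAt_apply (I k) w).sub_const _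
  have hLinj : Function.Injective (L : (ι → ℂ) →ₗ[ℂ] (Fin c → ℂ) × (Fin n → ℂ)) := by
    rw [injective_iff_map_eq_zero]
    intro v hv
    apply hI v
    · intro j
      have h1 := congrFun (congrArg Prod.fst hv) j
      simpa [L] using h1
    · intro k
      have h1 := congrFun (congrArg Prod.snd hv) k
      simpa [L] using h1
  have hdim : Module.finrank ℂ (ι → ℂ) = Module.finrank ℂ ((Fin c → ℂ) × (Fin n → ℂ)) := by
    rw [Module.finrank_prod, Module.finrank_fintype_fun_eq_card, Module.finrank_fintype_fun_eq_card,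
      Module.finrank_fintype_fun_eq_card, Fintype.card_fin, Fintype.card_fin, hcn]
  let Le : (ι → ℂ) ≃ₗ[ℂ] (Fin c → ℂ) × (Fin n → ℂ) :=
    LinearEquiv.ofInjectiveOfFinrankEq (L : (ι → ℂ) →ₗ[ℂ] (Fin c → ℂ) × (Fin n → ℂ)) hLinj hdim
  let Lc : (ι → ℂ) ≃L[ℂ] (Fin c → ℂ) × (Fin n → ℂ) := Le.toContinuousLinearEquiv
  have hLc : (Lc : (ι → ℂ) →L[ℂ] (Fin c → ℂ) × (Fin n → ℂ)) = L := by
    ext1 v; rfl
  have hL' : HasFDerivAt Φ (Lc : (ι → ℂ) →L[ℂ] (Fin c → ℂ) × (Fin n → ℂ)) w := by
    rw [hLc]; exact hL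
  have hcd : ContDiffAt ℂ ⊤ Φ w := hΦan.contDiffAt
  have hs := hcd.hasStrictFDerivAt' hL' (by simp)
  let Ψ := hs.localInverse Φ Lc w
  have hΨan : AnalyticAt ℂ Ψ 0 := by
    have h1 : ContDiffAt ℂ ⊤ (hcd.localInverse hL' (by simp)) (Φ w) := hcd.to_localInverse hL' (by simp)
    rw [hΦw] at h1
    have h2 := contDiffWithinAt_omega_iff_analyticWithinAt.1 (contDiffWithinAt_univ.2 h1)
    exact analyticWithinAt_univ.1 h2
  have hright : ∀ᶠ y in 𝓝 (0 : (Fin c → ℂ) × (Fin n → ℂ)), Φ (Ψ y) = y := by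
    have := hs.eventually_right_inverse
    rwa [hΦw] at this
  have hleft : ∀ᶠ y in 𝓝 w, Ψ (Φ y) = y := hs.eventually_left_inverse
  have hΨ0 : Ψ 0 = w := by
    have := hleft.self_of_nhds
    rwa [hΦw] at this
  have hemb : AnalyticAt ℂ (fun u : Fin n → ℂ => ((0 : Fin c → ℂ), u)) 0 :=
    analyticAt_const.prod analyticAt_id
  have hcont : Filter.Tendsto (fun u : Fin n → ℂ => ((0 : Fin c → ℂ), u)) (𝓝 0) (𝓝 0) := by
    have := hemb.continuousAt
    exact this
  refine ⟨I, fun u => Ψ (0, u), ?_, hΨ0, ?_, ?_⟩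
  · exact AnalyticAt.comp (g := Ψ) (f := fun u : Fin n → ℂ => ((0 : Fin c → ℂ), u)) hΨan hemb
  · filter_upwards [hcont.eventually hright] with u hu
    constructor
    · intro j
      exact congrFun (congrArg Prod.fst hu) j
    · intro k
      have := congrFun (congrArg Prod.snd hu) k
      have h' : Ψ (0, u) (I k) - w (I k) = u k := this
      rw [← h']; ring
  · filter_upwards [hleft] with y hy hy0
    rw [← hy]
    congr 1
    show Φ y = (0, fun k => Ψ (Φ y) (I k) - w (I k))
    rw [hy]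
    apply Prod.ext
    · funext j; exact hy0 j
    · rfl

end Pool.Agent.H13.SM

end
end

section

/-!
# The zero set of an analytic function is a null set

PROOF.  `h` is analytic on a ball of radius `r` around `0` (`AnalyticAt.eventually_analyticAt`; sup norm,
the ball is convex), and since it is not eventually `0` there is `v` with `‖v‖ < r / 2`, `h v ≠ 0`;
`v ≠ 0` since `h 0 = 0`.  By continuity there is `0 < δ ≤ r / 2` with `h (p + v) ≠ 0` for `‖p‖ < δ`.  Take
`W = Metric.ball 0 δ`, `Z' = {x ∈ W | h x = 0}`, measurable since `W \ Z' = {x ∈ W | h x ≠ 0}` is open.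
By `MeasureTheory.ae_mem_of_ae_add_linearMap_mem` for `L : ℂ →ₗ[ℝ] (Fin n → ℂ)`, `t ↦ t • v`, and
`s = Z'ᶜ`, it is enough that for every `y` the set `{t : ℂ | y + t • v ∈ Z'}` is null.  If it is not
empty, let `p = y + t₀ • v ∈ Z'`; the set is the translate by `t₀` of a subset of
`{s ∈ D | h (p + s • v) = 0}`, `D = {s : ℂ | ‖p + s • v‖ < r}`.  `D` is open and convex, contains `0` and
`1`, and `g s = h (p + s • v)` is analytic on `D` with `g 1 ≠ 0`.  So the zeros of `g` in `D` are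
isolated (`AnalyticOnNhd.eqOn_zero_of_preconnected_of_frequently_eq_zero`,
`AnalyticAt.eventually_eq_zero_or_eventually_ne_zero`) and the zero set is null: it is codiscrete in `D`
(`AnalyticOnNhd.preimage_zero_mem_codiscreteWithin` or similar) and
`MeasureTheory.ae_restrict_le_codiscreteWithin`; or it is countable.
-/

open Topology MeasureTheory

noncomputable section

namespace Pool.Agent.H13.SM

private theorem Null_line {n : ℕ} {h : (Fin n → ℂ) → ℂ} {r : ℝ} {v p : Fin n → ℂ}
    (hball : ∀ y ∈ Metric.ball (0 : Fin n → ℂ) r, AnalyticAt ℂ h y)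
    (hpv : p + v ∈ Metric.ball (0 : Fin n → ℂ) r) (hv : h (p + v) ≠ 0) :
    ∀ᵐ s : ℂ, p + s • v ∈ Metric.ball (0 : Fin n → ℂ) r → h (p + s • v) ≠ 0 := by
  have hline : Continuous fun s : ℂ => p + s • v :=
    continuous_const.add (continuous_id.smul continuous_const)
  have hDo : IsOpen {s : ℂ | p + s • v ∈ Metric.ball (0 : Fin n → ℂ) r} :=
    Metric.isOpen_ball.preimage hline
  have hDc : Convex ℝ {s : ℂ | p + s • v ∈ Metric.ball (0 : Fin n → ℂ) r} := by
    intro x hx y hy a b ha hb hab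
    have h1 := (convex_ball (0 : Fin n → ℂ) r) hx hy ha hb hab
    have h2 : a • (p + x • v) + b • (p + y • v) = p + (a • x + b • y) • v := by
      have h3 : (a + b) • p = p := by rw [hab, one_smul]
      calc a • (p + x • v) + b • (p + y • v) = (a + b) • p + (a • x + b • y) • v := by
            rw [smul_add, smul_add, add_smul, add_smul, smul_assoc, smul_assoc]
            abel
        _ = _ := by rw [h3]
    rw [h2] at h1
    exact h1
  have hg : AnalyticOnNhd ℂ (fun s : ℂ => h (p + s • v))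
      {s : ℂ | p + s • v ∈ Metric.ball (0 : Fin n → ℂ) r} := by
    intro s hs
    have h1 : AnalyticAt ℂ (fun s : ℂ => p + s • v) s :=
      analyticAt_const.add (analyticAt_id.smul analyticAt_const)
    exact AnalyticAt.comp (g := h) (f := fun s : ℂ => p + s • v) (hball _ hs) h1
  have h1D : (1 : ℂ) ∈ {s : ℂ | p + s • v ∈ Metric.ball (0 : Fin n → ℂ) r} := by
    show p + (1 : ℂ) • v ∈ Metric.ball (0 : Fin n → ℂ) r
    rw [one_smul]
    exact hpv
  rcases hg.eqOn_zero_or_eventually_ne_zero_of_preconnected hDc.isPreconnected with h2 | h2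
  · exfalso
    have h3 := h2 h1D
    apply hv
    simpa using h3
  · have h3 := ae_restrict_le_codiscreteWithin (μ := (volume : Measure ℂ)) hDo.measurableSet h2
    exact (ae_restrict_iff' hDo.measurableSet).1 h3

theorem exists_null {n : ℕ} {h : (Fin n → ℂ) → ℂ} (hh : AnalyticAt ℂ h 0) (h0 : h 0 = 0)
    (hne : ¬ ∀ᶠ u in 𝓝 0, h u = 0) :
    ∃ W ∈ 𝓝 (0 : Fin n → ℂ), volume {u | u ∈ W ∧ h u = 0} = 0 := by
  obtain ⟨r, hr, hball⟩ := Metric.eventually_nhds_iff_ball.1 hh.eventually_analyticAt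
  have hex : ∃ v ∈ Metric.ball (0 : Fin n → ℂ) (r / 2), h v ≠ 0 := by
    by_contra hcon
    push Not at hcon
    exact hne (Filter.mem_of_superset (Metric.ball_mem_nhds 0 (half_pos hr)) fun u hu => hcon u hu)
  obtain ⟨v, hvr, hv⟩ := hex
  have hvr' : v ∈ Metric.ball (0 : Fin n → ℂ) r := Metric.ball_subset_ball (by linarith) hvr
  have hcont : ContinuousAt (fun p : Fin n → ℂ => h (p + v)) 0 := by
    have h1 : ContinuousAt h ((0 : Fin n → ℂ) + v) := by
      rw [zero_add]
      exact (hball v hvr').continuousAt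
    exact ContinuousAt.comp (g := h) (f := fun p : Fin n → ℂ => p + v) h1
      (continuousAt_id.add continuousAt_const)
  have hev : ∀ᶠ p in 𝓝 (0 : Fin n → ℂ), h (p + v) ≠ 0 := hcont.eventually_ne (by rwa [zero_add])
  obtain ⟨δ0, hδ0, hδ⟩ := Metric.eventually_nhds_iff_ball.1 hev
  have hδpos : 0 < min δ0 (r / 2) := lt_min hδ0 (half_pos hr)
  have hsub : Metric.ball (0 : Fin n → ℂ) (min δ0 (r / 2)) ⊆ Metric.ball 0 r :=
    Metric.ball_subset_ball ((min_le_right _ _).trans (by linarith))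
  refine ⟨Metric.ball 0 (min δ0 (r / 2)), Metric.ball_mem_nhds 0 hδpos, ?_⟩
  have hZm : MeasurableSet {u : Fin n → ℂ | u ∈ Metric.ball (0 : Fin n → ℂ) (min δ0 (r / 2)) ∧ h u = 0} := by
    have hc : ContinuousOn h (Metric.ball (0 : Fin n → ℂ) (min δ0 (r / 2))) :=
      fun u hu => (hball u (hsub hu)).continuousAt.continuousWithinAt
    have ho : IsOpen (Metric.ball (0 : Fin n → ℂ) (min δ0 (r / 2)) ∩ h ⁻¹' {0}ᶜ) :=
      hc.isOpen_inter_preimage Metric.isOpen_ball isOpen_compl_singleton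
    have he : {u : Fin n → ℂ | u ∈ Metric.ball (0 : Fin n → ℂ) (min δ0 (r / 2)) ∧ h u = 0} =
        Metric.ball (0 : Fin n → ℂ) (min δ0 (r / 2)) \
          (Metric.ball (0 : Fin n → ℂ) (min δ0 (r / 2)) ∩ h ⁻¹' {0}ᶜ) := by
      ext u
      constructor
      · rintro ⟨h1, h2⟩
        exact ⟨h1, fun h3 => h3.2 h2⟩
      · rintro ⟨h1, h2⟩
        refine ⟨h1, ?_⟩
        by_contra h3
        exact h2 ⟨h1, h3⟩
    rw [he]
    exact Metric.isOpen_ball.measurableSet.diff ho.measurableSet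
  have key : ∀ᵐ y : Fin n → ℂ, y ∈ {u : Fin n → ℂ | u ∈ Metric.ball (0 : Fin n → ℂ) (min δ0 (r / 2)) ∧ h u = 0}ᶜ := by
    refine ae_mem_of_ae_add_linearMap_mem (LinearMap.toSpanSingleton ℂ (Fin n → ℂ) v) volume volume
      hZm.compl fun y => ?_
    by_cases hy : ∃ t0 : ℂ, y + t0 • v ∈ {u : Fin n → ℂ | u ∈ Metric.ball (0 : Fin n → ℂ) (min δ0 (r / 2)) ∧ h u = 0}
    · obtain ⟨t0, hp1, -⟩ := hy
      have hp2 : ‖y + t0 • v‖ < min δ0 (r / 2) := by simpa using hp1
      have hpv : (y + t0 • v) + v ∈ Metric.ball (0 : Fin n → ℂ) r := by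
        rw [mem_ball_zero_iff]
        have h1 := norm_add_le (y + t0 • v) v
        have h2 : ‖v‖ < r / 2 := by simpa using hvr
        have h3 : min δ0 (r / 2) ≤ r / 2 := min_le_right _ _
        linarith
      have hne1 : h ((y + t0 • v) + v) ≠ 0 :=
        hδ _ (Metric.ball_subset_ball (min_le_left _ _) hp1)
      have h1 := Null_line hball hpv hne1
      have h2 := (measurePreserving_sub_right (volume : Measure ℂ) t0).quasiMeasurePreserving.ae h1
      filter_upwards [h2] with t ht hZ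
      have h3 : y + t0 • v + (t - t0) • v = y + t • v := by
        rw [sub_smul]
        abel
      rw [h3] at ht
      have h4 : y + (LinearMap.toSpanSingleton ℂ (Fin n → ℂ) v) t = y + t • v := by
        rw [LinearMap.toSpanSingleton_apply]
      rw [h4] at hZ
      exact ht (hsub hZ.1) hZ.2
    · refine Filter.Eventually.of_forall fun t hZ => hy ⟨t, ?_⟩
      have h4 : y + (LinearMap.toSpanSingleton ℂ (Fin n → ℂ) v) t = y + t • v := by
        rw [LinearMap.toSpanSingleton_apply]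
      rw [h4] at hZ
      exact hZ
  have h5 := mem_ae_iff.1 key
  have h6 : {y : Fin n → ℂ | y ∈ {u : Fin n → ℂ | u ∈ Metric.ball (0 : Fin n → ℂ) (min δ0 (r / 2)) ∧ h u = 0}ᶜ}ᶜ =
      {u : Fin n → ℂ | u ∈ Metric.ball (0 : Fin n → ℂ) (min δ0 (r / 2)) ∧ h u = 0} :=
    compl_compl _
  rw [h6] at h5
  exact h5

end Pool.Agent.H13.SM

end
end

section

/-!
# Hurwitz' theorem along an ultrafilter
-/

open Topology Filter

namespace Pool.Agent.H62.Log

/-- **Hurwitz' theorem.**  A limit of holomorphic functions without zeros is identically zero or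
has no zeros. -/
theorem hurwitz {α : Type*} (𝒰 : Ultrafilter α) {φ : α → ℂ → ℂ} {ψ : ℂ → ℂ} {a : ℂ} {r : ℝ}
    (h1 : ∀ᶠ k in (𝒰 : Filter α), DifferentiableOn ℂ (φ k) (Metric.ball a r))
    (h2 : ∀ᶠ k in (𝒰 : Filter α), ∀ z ∈ Metric.ball a r, φ k z ≠ 0)
    (hψ : DifferentiableOn ℂ ψ (Metric.ball a r))
    (hconv : ∀ (z : α → ℂ) (z₀ : ℂ), z₀ ∈ Metric.ball a r → Tendsto z (𝒰 : Filter α) (𝓝 z₀) →
      Tendsto (fun k => φ k (z k)) (𝒰 : Filter α) (𝓝 (ψ z₀))) :
    (∀ z ∈ Metric.ball a r, ψ z = 0) ∨ ∀ z ∈ Metric.ball a r, ψ z ≠ 0 := by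
  have han : AnalyticOnNhd ℂ ψ (Metric.ball a r) := hψ.analyticOnNhd Metric.isOpen_ball
  rcases han.eqOn_zero_or_eventually_ne_zero_of_preconnected
    (convex_ball a r).isPreconnected with h0 | h0
  · exact Or.inl h0
  right
  intro z₀ hz₀ hψ0
  have hev : ∀ᶠ z in 𝓝[≠] z₀, ψ z ≠ 0 := by
    rcases (han z₀ hz₀).eventually_eq_zero_or_eventually_ne_zero with h3 | h3
    · exfalso
      have h5 : {z | ψ z ≠ 0} ∈ codiscreteWithin (Metric.ball a r) := h0
      have h6 := (mem_codiscreteWithin.mp h5) z₀ hz₀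
      rw [disjoint_principal_right] at h6
      have h7 : ∀ᶠ z in 𝓝[≠] z₀, z ∈ Metric.ball a r := by
        have := Metric.isOpen_ball.mem_nhds hz₀
        exact nhdsWithin_le_nhds this
      have h8 := h3.filter_mono (nhdsWithin_le_nhds (s := {z₀}ᶜ))
      have h6' : ∀ᶠ z in 𝓝[≠] z₀, z ∈ (Metric.ball a r \ {z | ψ z ≠ 0})ᶜ := h6
      obtain ⟨z, hz1, hz2, hz3⟩ := (h6'.and (h7.and h8)).exists
      exact hz1 ⟨hz2, fun h => h hz3⟩
    · exact h3
  obtain ⟨s, hs0, hs1, hs2⟩ : ∃ s > 0, Metric.closedBall z₀ s ⊆ Metric.ball a r ∧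
      ∀ z ∈ Metric.sphere z₀ s, ψ z ≠ 0 := by
    obtain ⟨s₁, hs₁, hs₁'⟩ := Metric.isOpen_iff.mp Metric.isOpen_ball z₀ hz₀
    obtain ⟨s₂, hs₂, hs₂'⟩ := Metric.mem_nhdsWithin_iff.mp hev
    refine ⟨min s₁ s₂ / 2, by positivity, ?_, ?_⟩
    · refine (Metric.closedBall_subset_ball ?_).trans hs₁'
      have := min_le_left s₁ s₂
      have : 0 < min s₁ s₂ := lt_min hs₁ hs₂
      linarith
    · intro z hz
      have h3 : 0 < min s₁ s₂ := lt_min hs₁ hs₂
      have h4 := min_le_right s₁ s₂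
      rw [mem_sphere_iff_norm] at hz
      refine hs₂' ⟨?_, ?_⟩
      · rw [mem_ball_iff_norm, hz]
        linarith
      · intro h5
        rw [Set.mem_singleton_iff] at h5
        rw [h5, sub_self, norm_zero] at hz
        linarith
  have hcomp : IsCompact (Metric.sphere z₀ s) := isCompact_sphere z₀ s
  have hne : (Metric.sphere z₀ s).Nonempty := NormedSpace.sphere_nonempty.mpr hs0.le
  have hcont : ContinuousOn (fun z => ‖ψ z‖) (Metric.sphere z₀ s) :=
    (hψ.continuousOn.mono (Metric.sphere_subset_closedBall.trans hs1)).norm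
  obtain ⟨z₁, hz₁, hmin⟩ := hcomp.exists_isMinOn hne hcont
  set m : ℝ := ‖ψ z₁‖ with hm
  have hmpos : 0 < m := norm_pos_iff.mpr (hs2 z₁ hz₁)
  have hlow : ∀ᶠ k in (𝒰 : Filter α), ∀ z ∈ Metric.sphere z₀ s, m / 2 ≤ ‖φ k z‖ := by
    by_contra hcon
    rw [← Ultrafilter.eventually_not] at hcon
    push Not at hcon
    choose! w hw using fun (k : α) (h : ∃ z ∈ Metric.sphere z₀ s, ‖φ k z‖ < m / 2) => h
    have hw1 : ∀ᶠ k in (𝒰 : Filter α), w k ∈ Metric.sphere z₀ s := hcon.mono fun k hk => (hw k hk).1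
    have hw2 : ∀ᶠ k in (𝒰 : Filter α), ‖φ k (w k)‖ < m / 2 := hcon.mono fun k hk => (hw k hk).2
    obtain ⟨z', hz'mem, hz'⟩ : ∃ z' ∈ Metric.sphere z₀ s, Tendsto w (𝒰 : Filter α) (𝓝 z') := by
      obtain ⟨l, hl1, hl2⟩ := hcomp.ultrafilter_le_nhds (𝒰.map w) (by
        rw [le_principal_iff]
        exact hw1)
      exact ⟨l, hl1, hl2⟩
    have h3 := (hconv w z' (hs1 (Metric.sphere_subset_closedBall hz'mem)) hz').norm
    have h4 := le_of_tendsto h3 (hw2.mono fun k hk => hk.le)
    have h5 : m ≤ ‖ψ z'‖ := hmin hz'mem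
    linarith
  have hball : Metric.closedBall z₀ s ⊆ Metric.ball a r := hs1
  have hlow2 : ∀ᶠ k in (𝒰 : Filter α), m / 2 ≤ ‖φ k z₀‖ := by
    filter_upwards [h1, h2, hlow] with k hk1 hk2 hk3
    have h3 : DiffContOnCl ℂ (fun z => (φ k z)⁻¹) (Metric.ball z₀ s) := by
      apply DifferentiableOn.diffContOnCl
      have h4 : closure (Metric.ball z₀ s) ⊆ Metric.ball a r :=
        Metric.closure_ball_subset_closedBall.trans hball
      exact (hk1.mono h4).fun_inv fun z hz => hk2 z (h4 hz)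
    have h4 := Complex.norm_le_of_forall_mem_frontier_norm_le (Metric.isBounded_ball) h3
      (C := (m / 2)⁻¹) (by
        intro z hz
        rw [frontier_ball z₀ hs0.ne'] at hz
        rw [norm_inv]
        have := hk3 z hz
        gcongr) (z := z₀) (subset_closure (Metric.mem_ball_self hs0))
    rw [norm_inv] at h4
    have h5 : 0 < ‖φ k z₀‖ := norm_pos_iff.mpr (hk2 z₀ hz₀)
    rwa [inv_le_inv₀ h5 (by positivity)] at h4
  have h3 := (hconv (fun _ => z₀) z₀ hz₀ tendsto_const_nhds).norm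
  have h4 := ge_of_tendsto h3 hlow2
  rw [hψ0, norm_zero] at h4
  linarith

end Pool.Agent.H62.Log

end

section

/-!
# Gtu Res: residue fields of discrete valuations and algebraic extensions

Let `L` be an algebraic extension of `K`, and let `v` be a valuation of `L` which is nonnegative on `ℂ`.  If there are `n` elements of the valuation
ring of `L` with algebraically independent residue classes, then there are `n` such elements in `K`.
-/

set_option autoImplicit false

open Polynomial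

noncomputable section

namespace Pool.Agent.H7.Gtu

variable {K L : Type} [Field K] [Algebra ℂ K] [Field L] [Algebra ℂ L]

/-- Transcendence degrees of algebraic extensions. -/
theorem exists_indep {κ κ' : Type} [CommRing κ] [IsDomain κ] [CommRing κ'] [IsDomain κ'] [Algebra ℂ κ] [Algebra ℂ κ'] (f : κ →ₐ[ℂ] κ')
    (hf : Function.Injective f) (halg : ∀ y, ∃ q : κ[X], q ≠ 0 ∧ q.eval₂ (f : κ →+* κ') y = 0) {n : ℕ} {s : Fin n → κ'}
    (hs : AlgebraicIndependent ℂ s) : ∃ t : Fin n → κ, AlgebraicIndependent ℂ t := by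
  let _ : Algebra κ κ' := f.toRingHom.toAlgebra
  have _ : IsScalarTower ℂ κ κ' := IsScalarTower.of_algebraMap_eq fun c => (f.commutes c).symm
  have _ : FaithfulSMul κ κ' := (faithfulSMul_iff_algebraMap_injective _ _).2 hf
  have _ : Algebra.IsAlgebraic κ κ' := by
    refine ⟨fun y => ?_⟩
    obtain ⟨q, hq0, hq⟩ := halg y
    exact ⟨q, hq0, hq⟩
  have _ : FaithfulSMul ℂ κ := (faithfulSMul_iff_algebraMap_injective _ _).2 (algebraMap ℂ _).injective
  obtain ⟨ι, x, hx⟩ := exists_isTranscendenceBasis' ℂ κ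
  have hx' : IsTranscendenceBasis ℂ (algebraMap κ κ' ∘ x) := hx.algebraMap_comp
  have h1 := hs.lift_cardinalMk_le_trdeg
  have h2 := hx'.lift_cardinalMk_eq_trdeg
  rw [← h2] at h1
  obtain ⟨φ⟩ := Cardinal.lift_mk_le'.1 h1
  exact ⟨x ∘ φ, hx.1.comp φ φ.injective⟩

/-- The valuation ring. -/
def vring (v : AddValuation L (WithTop ℤ)) (hv : ∀ c : ℂ, 0 ≤ v (algebraMap ℂ L c)) : Subalgebra ℂ L where
  carrier := {x | 0 ≤ v x}
  mul_mem' := by
    intro a b ha hb
    change 0 ≤ v (a * b)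
    rw [v.map_mul]
    exact add_nonneg ha hb
  add_mem' := by
    intro a b ha hb
    exact (le_min ha hb).trans (v.map_add a b)
  algebraMap_mem' := hv

/-- The maximal ideal. -/
def vmax (v : AddValuation L (WithTop ℤ)) (hv : ∀ c : ℂ, 0 ≤ v (algebraMap ℂ L c)) : Ideal (vring v hv) where
  carrier := {x | 0 < v (x : L)}
  add_mem' := by
    intro a b ha hb
    exact (lt_min ha hb).trans_le (v.map_add a b)
  zero_mem' := by
    change 0 < v (0 : L)
    rw [v.map_zero]
    exact WithTop.coe_lt_top 0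
  smul_mem' := by
    intro c x hx
    change 0 < v ((c : L) * x)
    rw [v.map_mul]
    exact lt_of_lt_of_le hx (le_add_of_nonneg_left c.2)

instance vmax_isPrime (v : AddValuation L (WithTop ℤ)) (hv : ∀ c : ℂ, 0 ≤ v (algebraMap ℂ L c)) : (vmax v hv).IsPrime where
  ne_top' := by
    rw [Ideal.ne_top_iff_one]
    intro h
    have h1 : 0 < v (1 : L) := h
    rw [v.map_one] at h1
    exact lt_irrefl _ h1
  mem_or_mem' := by
    intro x y hxy
    have h1 : 0 < v ((x : L) * y) := hxy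
    rw [v.map_mul] at h1
    by_contra hcon
    push Not at hcon
    have h2 : v (x : L) = 0 := le_antisymm (not_lt.1 hcon.1) x.2
    have h3 : v (y : L) = 0 := le_antisymm (not_lt.1 hcon.2) y.2
    rw [h2, h3, add_zero] at h1
    exact lt_irrefl _ h1

/-- The residue field. -/
abbrev vres (v : AddValuation L (WithTop ℤ)) (hv : ∀ c : ℂ, 0 ≤ v (algebraMap ℂ L c)) : Type := vring v hv ⧸ vmax v hv

section Ext

variable [Algebra K L] [IsScalarTower ℂ K L]

/-- The restriction of the valuation. -/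
def vcom (K : Type) [Field K] [Algebra K L] (v : AddValuation L (WithTop ℤ)) : AddValuation K (WithTop ℤ) := v.comap (algebraMap K L)

omit [Algebra ℂ K] [Algebra ℂ L] [IsScalarTower ℂ K L] in
theorem vcom_apply (v : AddValuation L (WithTop ℤ)) (x : K) : vcom K v x = v (algebraMap K L x) := rfl

theorem vcom_const {v : AddValuation L (WithTop ℤ)} (hv : ∀ c : ℂ, 0 ≤ v (algebraMap ℂ L c)) (c : ℂ) :
    0 ≤ vcom K v (algebraMap ℂ K c) := by
  rw [vcom_apply, ← IsScalarTower.algebraMap_apply]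
  exact hv c

/-- The map of the valuation rings. -/
def vmap (v : AddValuation L (WithTop ℤ)) (hv : ∀ c : ℂ, 0 ≤ v (algebraMap ℂ L c)) :
    vring (vcom K v) (vcom_const hv) →ₐ[ℂ] vring v hv where
  toFun x := ⟨algebraMap K L x, x.2⟩
  map_one' := Subtype.ext (map_one (algebraMap K L))
  map_mul' _ _ := Subtype.ext (map_mul (algebraMap K L) _ _)
  map_zero' := Subtype.ext (map_zero (algebraMap K L))
  map_add' _ _ := Subtype.ext (map_add (algebraMap K L) _ _)
  commutes' c := Subtype.ext (IsScalarTower.algebraMap_apply ℂ K L c).symm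

/-- The map of the residue fields. -/
def rmap (v : AddValuation L (WithTop ℤ)) (hv : ∀ c : ℂ, 0 ≤ v (algebraMap ℂ L c)) :
    vres (vcom K v) (vcom_const hv) →ₐ[ℂ] vres v hv :=
  Ideal.quotientMapₐ (vmax v hv) (vmap v hv) fun _ hx => hx

theorem rmap_mk (v : AddValuation L (WithTop ℤ)) (hv : ∀ c : ℂ, 0 ≤ v (algebraMap ℂ L c)) (x : vring (vcom K v) (vcom_const hv)) :
    rmap (K := K) v hv (Ideal.Quotient.mk _ x) = Ideal.Quotient.mk _ (vmap v hv x) := rfl

theorem rmap_injective (v : AddValuation L (WithTop ℤ)) (hv : ∀ c : ℂ, 0 ≤ v (algebraMap ℂ L c)) :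
    Function.Injective (rmap (K := K) v hv) := by
  rw [injective_iff_map_eq_zero]
  intro x hx
  obtain ⟨x, rfl⟩ := Ideal.Quotient.mk_surjective x
  rw [rmap_mk, Ideal.Quotient.eq_zero_iff_mem] at hx
  rw [Ideal.Quotient.eq_zero_iff_mem]
  exact hx

/-- The extension of the residue fields is algebraic. -/
theorem rmap_algebraic [Algebra.IsAlgebraic K L] (v : AddValuation L (WithTop ℤ)) (hv : ∀ c : ℂ, 0 ≤ v (algebraMap ℂ L c)) (y : vres v hv) :
    ∃ q : (vres (vcom K v) (vcom_const hv))[X], q ≠ 0 ∧ q.eval₂ (rmap (K := K) v hv : vres (vcom K v) (vcom_const hv) →+* vres v hv) y = 0 := by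
  obtain ⟨x, rfl⟩ := Ideal.Quotient.mk_surjective y
  obtain ⟨p, hp0, hp⟩ := Algebra.IsAlgebraic.isAlgebraic (R := K) (x : L)
  obtain ⟨i, hi, hmin⟩ := Finset.exists_min_image p.support (fun i => vcom K v (p.coeff i)) (Polynomial.support_nonempty.2 hp0)
  have hc0 : p.coeff i ≠ 0 := Polynomial.mem_support_iff.1 hi
  have hq : C (p.coeff i)⁻¹ * p ∈ Polynomial.lifts (algebraMap (vring (vcom K v) (vcom_const hv)) K) := by
    rw [Polynomial.lifts_iff_coeff_lifts]
    intro n
    rw [Polynomial.coeff_C_mul]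
    have h1 : 0 ≤ vcom K v ((p.coeff i)⁻¹ * p.coeff n) := by
      by_cases hn : p.coeff n = 0
      · rw [hn, mul_zero, AddValuation.map_zero]
        exact le_top
      · have h2 := hmin n (Polynomial.mem_support_iff.2 hn)
        have h3 : vcom K v (p.coeff i) + vcom K v ((p.coeff i)⁻¹ * p.coeff n) = vcom K v (p.coeff n) := by
          rw [← AddValuation.map_mul, mul_inv_cancel_left₀ hc0]
        rw [← h3] at h2
        have h4 : vcom K v (p.coeff i) ≠ ⊤ := (AddValuation.ne_top_iff _).2 hc0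
        have h5 : vcom K v (p.coeff i) + 0 ≤ vcom K v (p.coeff i) + vcom K v ((p.coeff i)⁻¹ * p.coeff n) := by rwa [add_zero]
        exact (WithTop.add_le_add_iff_left h4).1 h5
    exact ⟨⟨_, h1⟩, rfl⟩
  obtain ⟨Q, hQ⟩ := (Polynomial.mem_lifts _).1 hq
  refine ⟨Q.map (Ideal.Quotient.mk _), ?_, ?_⟩
  · intro h0
    have h1 : (Q.map (Ideal.Quotient.mk (vmax (vcom K v) (vcom_const hv)))).coeff i = 0 := by rw [h0, Polynomial.coeff_zero]
    have h2 : (Q.coeff i : K) = 1 := by
      have h3 : (Q.map (algebraMap (vring (vcom K v) (vcom_const hv)) K)).coeff i = (C (p.coeff i)⁻¹ * p).coeff i := by rw [hQ]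
      rw [Polynomial.coeff_map, Polynomial.coeff_C_mul, inv_mul_cancel₀ hc0] at h3
      exact h3
    have h4 : Q.coeff i = 1 := Subtype.ext h2
    rw [Polynomial.coeff_map, h4, map_one] at h1
    exact one_ne_zero h1
  · rw [Polynomial.eval₂_map]
    have h1 : (rmap (K := K) v hv : vres (vcom K v) (vcom_const hv) →+* vres v hv).comp (Ideal.Quotient.mk _) =
        (Ideal.Quotient.mk (vmax v hv)).comp (vmap (K := K) v hv : _ →+* vring v hv) := rfl
    rw [h1, ← Polynomial.hom_eval₂]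
    have h2 : Q.eval₂ (vmap (K := K) v hv : vring (vcom K v) (vcom_const hv) →+* vring v hv) x = 0 := by
      apply Subtype.ext
      have h3 : ((Q.eval₂ (vmap (K := K) v hv : vring (vcom K v) (vcom_const hv) →+* vring v hv) x : vring v hv) : L) =
          Q.eval₂ ((algebraMap K L).comp (algebraMap (vring (vcom K v) (vcom_const hv)) K)) (x : L) :=
        Polynomial.hom_eval₂ Q (vmap (K := K) v hv : vring (vcom K v) (vcom_const hv) →+* vring v hv) (algebraMap (vring v hv) L) x
      rw [h3, ← Polynomial.eval₂_map, hQ, Polynomial.eval₂_mul]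
      have h4 : p.eval₂ (algebraMap K L) (x : L) = 0 := hp
      rw [h4, mul_zero]
      rfl
    rw [h2, map_zero]

/-- **Residual independence goes down.** -/
theorem exists_residue [Algebra.IsAlgebraic K L] (v : AddValuation L (WithTop ℤ)) (hv : ∀ c : ℂ, 0 ≤ v (algebraMap ℂ L c)) {n : ℕ}
    (h : ∃ s : Fin n → L, (∀ i, 0 ≤ v (s i)) ∧ ∀ p : MvPolynomial (Fin n) ℂ, p ≠ 0 → v (MvPolynomial.aeval s p) = 0) :
    ∃ s : Fin n → K, (∀ i, 0 ≤ v (algebraMap K L (s i))) ∧
      ∀ p : MvPolynomial (Fin n) ℂ, p ≠ 0 → v (algebraMap K L (MvPolynomial.aeval s p)) = 0 := by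
  obtain ⟨s, hs, hp⟩ := h
  -- the residue classes of the given elements
  have hs' : AlgebraicIndependent ℂ (fun i => (Ideal.Quotient.mk (vmax v hv) (⟨s i, hs i⟩ : vring v hv))) := by
    rw [algebraicIndependent_iff]
    intro p hp0
    by_contra hne
    have h1 : MvPolynomial.aeval (fun i => (Ideal.Quotient.mk (vmax v hv) (⟨s i, hs i⟩ : vring v hv))) p =
        Ideal.Quotient.mk (vmax v hv) (MvPolynomial.aeval (fun i => (⟨s i, hs i⟩ : vring v hv)) p) := by
      have h2 := MvPolynomial.comp_aeval (fun i => (⟨s i, hs i⟩ : vring v hv)) (Ideal.Quotient.mkₐ ℂ (vmax v hv))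
      exact (DFunLike.congr_fun h2 p).symm
    rw [h1, Ideal.Quotient.eq_zero_iff_mem] at hp0
    have h3 : ((MvPolynomial.aeval (fun i => (⟨s i, hs i⟩ : vring v hv)) p : vring v hv) : L) = MvPolynomial.aeval s p := by
      have h2 := MvPolynomial.comp_aeval (fun i => (⟨s i, hs i⟩ : vring v hv)) (vring v hv).val
      exact DFunLike.congr_fun h2 p
    have h4 : 0 < v ((MvPolynomial.aeval (fun i => (⟨s i, hs i⟩ : vring v hv)) p : vring v hv) : L) := hp0
    rw [h3, hp p hne] at h4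
    exact lt_irrefl _ h4
  obtain ⟨x, h3⟩ := exists_indep (rmap (K := K) v hv) (rmap_injective v hv) (rmap_algebraic (K := K) v hv) hs'
  choose y hy using fun i => Ideal.Quotient.mk_surjective (x i)
  refine ⟨fun i => (y i : K), fun i => (y i).2, fun p hp0 => ?_⟩
  have h4 : Ideal.Quotient.mk (vmax (vcom K v) (vcom_const hv)) (MvPolynomial.aeval y p) ≠ 0 := by
    have h5 := MvPolynomial.comp_aeval y (Ideal.Quotient.mkₐ ℂ (vmax (vcom K v) (vcom_const hv)))
    have h6 : Ideal.Quotient.mk (vmax (vcom K v) (vcom_const hv)) (MvPolynomial.aeval y p) =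
        MvPolynomial.aeval (fun i => Ideal.Quotient.mkₐ ℂ (vmax (vcom K v) (vcom_const hv)) (y i)) p := DFunLike.congr_fun h5 p
    have h7 : (fun i => Ideal.Quotient.mkₐ ℂ (vmax (vcom K v) (vcom_const hv)) (y i)) = x := funext hy
    rw [h6, h7]
    intro h8
    exact hp0 ((algebraicIndependent_iff.1 h3) p h8)
  have h5 : ((MvPolynomial.aeval y p : vring (vcom K v) (vcom_const hv)) : K) = MvPolynomial.aeval (fun i => (y i : K)) p := by
    have h2 := MvPolynomial.comp_aeval y (vring (vcom K v) (vcom_const hv)).val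
    exact DFunLike.congr_fun h2 p
  rw [← h5]
  refine le_antisymm (not_lt.1 fun h6 => h4 ?_) (MvPolynomial.aeval y p : vring (vcom K v) (vcom_const hv)).2
  rw [Ideal.Quotient.eq_zero_iff_mem]
  exact h6

end Ext

end Pool.Agent.H7.Gtu

end
end

section

/-!
# NB CC: continuous convergence along an ultrafilter, difference quotients, Weierstrass factorisation

`CC 𝒰 F f Ω`: `F n (z n) → f z₀` along `𝒰` for all `z n → z₀ ∈ Ω`.
-/

set_option autoImplicit false
set_option linter.unusedSectionVars false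

open Topology Filter Metric

namespace Pool.Agent.H74.NB

variable {E : Type*} [NormedAddCommGroup E] [NormedSpace ℂ E]

/-- continuous convergence along an ultrafilter -/
def CC (𝒰 : Ultrafilter ℕ) (F : ℕ → ℂ → E) (f : ℂ → E) (Ω : Set ℂ) : Prop :=
  ∀ z₀ ∈ Ω, ∀ z : ℕ → ℂ, Tendsto z 𝒰 (𝓝 z₀) → Tendsto (fun n => F n (z n)) 𝒰 (𝓝 (f z₀))

variable {𝒰 : Ultrafilter ℕ} {F : ℕ → ℂ → E} {f : ℂ → E} {Ω : Set ℂ}

theorem CC.mono (h : CC 𝒰 F f Ω) {Ω' : Set ℂ} (hs : Ω' ⊆ Ω) : CC 𝒰 F f Ω' := fun z₀ hz₀ => h z₀ (hs hz₀)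

theorem CC.congr (h : CC 𝒰 F f Ω) {f' : ℂ → E} (he : ∀ z ∈ Ω, f z = f' z) : CC 𝒰 F f' Ω := by
  intro z₀ hz₀ z hz
  rw [← he z₀ hz₀]
  exact h z₀ hz₀ z hz

/-- compactness: a sequence in a compact set has a limit along the ultrafilter -/
theorem exists_lim {X : Type*} [TopologicalSpace X] {K : Set X} (hK : IsCompact K) {x : ℕ → X}
    (hx : ∀ᶠ n in (𝒰 : Filter ℕ), x n ∈ K) : ∃ x₀ ∈ K, Tendsto x 𝒰 (𝓝 x₀) := by
  obtain ⟨l, hl1, hl2⟩ := hK.ultrafilter_le_nhds (𝒰.map x) (by
    rw [le_principal_iff]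
    exact hx)
  exact ⟨l, hl1, hl2⟩

/-- an event which holds along every convergent sequence in a compact set holds uniformly -/
theorem unif_of_seq {K : Set ℂ} (hK : IsCompact K) {p : ℕ → ℂ → Prop}
    (h : ∀ z₀ ∈ K, ∀ z : ℕ → ℂ, (∀ᶠ n in (𝒰 : Filter ℕ), z n ∈ K) → Tendsto z 𝒰 (𝓝 z₀) → ∃ᶠ n in (𝒰 : Filter ℕ), p n (z n)) :
    ∀ᶠ n in (𝒰 : Filter ℕ), ∀ z ∈ K, p n z := by
  by_contra hcon
  rw [← Ultrafilter.eventually_not] at hcon
  push Not at hcon
  choose! w hw using fun (k : ℕ) (h : ∃ z ∈ K, ¬ p k z) => h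
  have hw1 : ∀ᶠ k in (𝒰 : Filter ℕ), w k ∈ K := hcon.mono fun k hk => (hw k hk).1
  have hw2 : ∀ᶠ k in (𝒰 : Filter ℕ), ¬ p k (w k) := hcon.mono fun k hk => (hw k hk).2
  obtain ⟨z₀, hz₀, hz⟩ := exists_lim hK hw1
  obtain ⟨n, h1, h2⟩ := ((h z₀ hz₀ w hw1 hz).and_eventually hw2).exists
  exact h2 h1

theorem CC.unif (h : CC 𝒰 F f Ω) (hf : ContinuousOn f Ω) (hΩ : IsOpen Ω) {K : Set ℂ} (hK : IsCompact K) (hKΩ : K ⊆ Ω) {ε : ℝ}
    (hε : 0 < ε) : ∀ᶠ n in (𝒰 : Filter ℕ), ∀ z ∈ K, ‖F n z - f z‖ < ε := by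
  refine unif_of_seq hK fun z₀ hz₀ z _ hz => ?_
  have h1 := h z₀ (hKΩ hz₀) z hz
  have h2 : Tendsto (fun n => f (z n)) 𝒰 (𝓝 (f z₀)) := ((hf.continuousAt (hΩ.mem_nhds (hKΩ hz₀))).tendsto).comp hz
  have h3 : Tendsto (fun n => ‖F n (z n) - f (z n)‖) 𝒰 (𝓝 0) := by
    have := (h1.sub h2).norm
    simpa using this
  exact (h3.eventually (gt_mem_nhds hε)).frequently

/-- values near a compact set stay away from zero -/
theorem CC.ne_zero (h : CC 𝒰 F f Ω) (hf0 : ∀ z ∈ Ω, f z ≠ 0) {K : Set ℂ} (hK : IsCompact K) (hKΩ : K ⊆ Ω) :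
    ∀ᶠ n in (𝒰 : Filter ℕ), ∀ z ∈ K, F n z ≠ 0 := by
  refine unif_of_seq hK fun z₀ hz₀ z _ hz => ?_
  exact ((h z₀ (hKΩ hz₀) z hz).eventually_ne (hf0 z₀ (hKΩ hz₀))).frequently

/-- the maximum principle: convergence on spheres gives convergence inside -/
theorem CC.of_sphere [CompleteSpace E] {w : ℂ} {r : ℝ} (hF : ∀ᶠ n in (𝒰 : Filter ℕ), DifferentiableOn ℂ (F n) (ball w r))
    (hf : DifferentiableOn ℂ f (ball w r))
    (hs : ∀ s, 0 < s → s < r → ∀ z₀ ∈ sphere w s, ∀ z : ℕ → ℂ, (∀ᶠ n in (𝒰 : Filter ℕ), z n ∈ sphere w s) → Tendsto z 𝒰 (𝓝 z₀) →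
      Tendsto (fun n => F n (z n)) 𝒰 (𝓝 (f z₀))) : CC 𝒰 F f (ball w r) := by
  intro z₀ hz₀ z hz
  have hr : 0 < r := pos_of_mem_ball hz₀
  obtain ⟨s, hs1, hs2⟩ := exists_between (show max (dist z₀ w) 0 < r from max_lt hz₀ hr)
  have hs0 : 0 < s := (le_max_right _ _).trans_lt hs1
  have hzs : z₀ ∈ ball w s := (le_max_left _ _).trans_lt hs1
  have hsub : closedBall w s ⊆ ball w r := closedBall_subset_ball hs2
  have hD : ∀ᶠ n in (𝒰 : Filter ℕ), DifferentiableOn ℂ (fun z => F n z - f z) (ball w r) := hF.mono fun n hn => hn.sub hf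
  have hz2 : Tendsto (fun n => F n (z n) - f (z n)) 𝒰 (𝓝 0) := by
    rw [NormedAddGroup.tendsto_nhds_zero]
    intro ε hε
    have h1 : ∀ᶠ n in (𝒰 : Filter ℕ), ∀ z ∈ sphere w s, ‖F n z - f z‖ < ε / 2 := by
      refine unif_of_seq (isCompact_sphere w s) fun y₀ hy₀ y hy1 hy2 => ?_
      have h2 := hs s hs0 hs2 y₀ hy₀ y hy1 hy2
      have hy₀' : y₀ ∈ ball w r := hsub (sphere_subset_closedBall hy₀)
      have h3 : Tendsto (fun n => f (y n)) 𝒰 (𝓝 (f y₀)) :=
        ((hf.continuousOn.continuousAt (isOpen_ball.mem_nhds hy₀')).tendsto).comp hy2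
      have h4 : Tendsto (fun n => ‖F n (y n) - f (y n)‖) 𝒰 (𝓝 0) := by
        have := (h2.sub h3).norm
        simpa using this
      exact (h4.eventually (gt_mem_nhds (half_pos hε))).frequently
    filter_upwards [h1, hD, hz.eventually (isOpen_ball.mem_nhds hzs)] with n h2 h3 h4
    have h5 : DiffContOnCl ℂ (fun z => F n z - f z) (ball w s) :=
      (h3.mono (closure_ball_subset_closedBall.trans hsub)).diffContOnCl
    have h6 := Complex.norm_le_of_forall_mem_frontier_norm_le isBounded_ball h5 (C := ε / 2) (by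
      intro y hy
      rw [frontier_ball w hs0.ne'] at hy
      exact (h2 y hy).le) (subset_closure h4)
    linarith
  have h7 : Tendsto (fun n => f (z n)) 𝒰 (𝓝 (f z₀)) :=
    ((hf.continuousOn.continuousAt (isOpen_ball.mem_nhds hz₀)).tendsto).comp hz
  have := hz2.add h7
  simpa using this

/-- difference quotients converge -/
theorem CC.dslope [CompleteSpace E] {w : ℂ} {r : ℝ} (hF : ∀ᶠ n in (𝒰 : Filter ℕ), DifferentiableOn ℂ (F n) (ball w r))
    (hf : DifferentiableOn ℂ f (ball w r)) (h : CC 𝒰 F f (ball w r)) {a : ℕ → ℂ} (ha : Tendsto a 𝒰 (𝓝 w)) :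
    CC 𝒰 (fun n => dslope (F n) (a n)) (dslope f w) (ball w r) := by
  rcases le_or_gt r 0 with hr | hr
  · intro z₀ hz₀
    exact absurd (pos_of_mem_ball hz₀) (not_lt.2 hr)
  have hwr : ball w r ∈ 𝓝 w := ball_mem_nhds w hr
  refine CC.of_sphere ?_ ((Complex.differentiableOn_dslope hwr).2 hf) ?_
  · filter_upwards [hF, ha.eventually (isOpen_ball.mem_nhds (mem_ball_self hr))] with n h1 h2
    exact (Complex.differentiableOn_dslope (isOpen_ball.mem_nhds h2)).2 h1
  · intro s hs0 hsr z₀ hz₀ z hz1 hz2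
    have hz0 : z₀ ≠ w := by
      rintro rfl
      simp [hs0.ne] at hz₀
    have hz₀' : z₀ ∈ ball w r := closedBall_subset_ball hsr (sphere_subset_closedBall hz₀)
    have h1 := h z₀ hz₀' z hz2
    have h2 := h w (mem_ball_self hr) a ha
    have h3 : Tendsto (fun n => (z n - a n)⁻¹ • (F n (z n) - F n (a n))) 𝒰 (𝓝 ((z₀ - w)⁻¹ • (f z₀ - f w))) :=
      ((hz2.sub ha).inv₀ (sub_ne_zero.2 hz0)).smul (h1.sub h2)
    rw [dslope_of_ne _ hz0, slope_def_module]
    refine h3.congr' ?_
    have h4 : ∀ᶠ n in (𝒰 : Filter ℕ), z n - a n ≠ 0 := (hz2.sub ha).eventually_ne (sub_ne_zero.2 hz0)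
    filter_upwards [h4] with n h5
    rw [dslope_of_ne _ (sub_ne_zero.1 h5), slope_def_module]

theorem dslope_pow_smul [CompleteSpace E] {w : ℂ} {g : ℂ → E} (hg : DifferentiableAt ℂ g w) (M : ℕ) :
    dslope (fun z => (z - w) ^ (M + 1) • g z) w = fun z => (z - w) ^ M • g z := by
  have h1 : (fun z => (z - w) ^ (M + 1) • g z) = fun z => (z - w) • ((z - w) ^ M • g z) := by
    funext z
    rw [smul_smul, ← pow_succ']
  have hd : HasDerivAt (fun z => (z - w) • ((z - w) ^ M • g z)) ((w - w) ^ M • g w) w := by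
    have h2 : DifferentiableAt ℂ (fun z => (z - w) ^ M • g z) w := by
      exact DifferentiableAt.smul (by fun_prop) hg
    have h3 : HasDerivAt (fun z => (z - w) • ((z - w) ^ M • g z))
        ((w - w) • deriv (fun z => (z - w) ^ M • g z) w + (1 : ℂ) • ((w - w) ^ M • g w)) w :=
      ((hasDerivAt_id w).sub_const w).smul h2.hasDerivAt
    rwa [sub_self, zero_smul, zero_add, one_smul, ← sub_self w] at h3
  funext z
  by_cases hz : z = w
  · subst hz
    rw [h1, dslope_same, hd.deriv]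
  · rw [dslope_of_ne _ hz, slope_def_module]
    simp only [sub_self, ne_eq, Nat.add_eq_zero_iff, one_ne_zero, and_false, not_false_eq_true, zero_pow, zero_smul, sub_zero]
    rw [smul_smul, pow_succ', ← mul_assoc, inv_mul_cancel₀ (sub_ne_zero.2 hz), one_mul]

/-- Hurwitz: a zero of the limit is a limit of zeros -/
theorem exists_zero {w : ℂ} {r : ℝ} (hr : 0 < r) {h : ℕ → ℂ → ℂ} {ψ : ℂ → ℂ}
    (hd : ∀ᶠ n in (𝒰 : Filter ℕ), DifferentiableOn ℂ (h n) (ball w r)) (hψ : DifferentiableOn ℂ ψ (ball w r)) (hc : CC 𝒰 h ψ (ball w r))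
    (h0 : ψ w = 0) (h1 : ∃ᶠ z in 𝓝 w, ψ z ≠ 0) :
    ∃ a : ℕ → ℂ, Tendsto a 𝒰 (𝓝 w) ∧ ∀ᶠ n in (𝒰 : Filter ℕ), h n (a n) = 0 := by
  have hev : ∀ ε : ℝ, 0 < ε → ε ≤ r → ∀ᶠ n in (𝒰 : Filter ℕ), ∃ z ∈ ball w ε, h n z = 0 := by
    intro ε hε hεr
    by_contra hcon
    rw [← Ultrafilter.eventually_not] at hcon
    push Not at hcon
    have hsub : ball w ε ⊆ ball w r := ball_subset_ball hεr
    rcases Pool.Agent.H62.Log.hurwitz 𝒰 (hd.mono fun n hn => hn.mono hsub) hcon (hψ.mono hsub)
      (fun z z₀ hz₀ hz => hc z₀ (hsub hz₀) z hz) with h2 | h2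
    · obtain ⟨z, hz1, hz2⟩ := (h1.and_eventually (ball_mem_nhds w hε)).exists
      exact hz1 (h2 z hz2)
    · exact h2 w (mem_ball_self hε) h0
  have hmin : ∀ n : ℕ, DifferentiableOn ℂ (h n) (ball w r) → (∃ z ∈ ball w (r / 2), h n z = 0) →
      ∃ z ∈ closedBall w (r / 2), h n z = 0 ∧ ∀ y ∈ closedBall w (r / 2), h n y = 0 → dist z w ≤ dist y w := by
    intro n hn hz
    have hK : IsCompact {z | z ∈ closedBall w (r / 2) ∧ h n z = 0} := by
      have h3 : ContinuousOn (h n) (closedBall w (r / 2)) :=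
        hn.continuousOn.mono (closedBall_subset_ball (by linarith))
      have h4 : IsClosed (closedBall w (r / 2) ∩ h n ⁻¹' {0}) := h3.preimage_isClosed_of_isClosed isClosed_closedBall isClosed_singleton
      exact (isCompact_closedBall w (r / 2)).inter_right h4 |>.of_isClosed_subset h4 (fun z hz => ⟨hz.1, hz⟩)
    obtain ⟨z, hz1, hz2⟩ := hz
    obtain ⟨y, hy1, hy2⟩ := hK.exists_isMinOn ⟨z, ball_subset_closedBall hz1, hz2⟩ (f := fun z => dist z w)
      (continuous_id.dist continuous_const).continuousOn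
    exact ⟨y, hy1.1, hy1.2, fun x hx1 hx2 => hy2 ⟨hx1, hx2⟩⟩
  have hgood : ∀ᶠ n in (𝒰 : Filter ℕ), ∃ z ∈ closedBall w (r / 2), h n z = 0 ∧
      ∀ y ∈ closedBall w (r / 2), h n y = 0 → dist z w ≤ dist y w := by
    filter_upwards [hd, hev (r / 2) (by positivity) (by linarith)] with n h2 h3
    exact hmin n h2 h3
  choose! a ha using fun (n : ℕ) (h : ∃ z ∈ closedBall w (r / 2), h n z = 0 ∧
    ∀ y ∈ closedBall w (r / 2), h n y = 0 → dist z w ≤ dist y w) => h
  refine ⟨a, ?_, hgood.mono fun n hn => (ha n hn).2.1⟩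
  rw [Metric.tendsto_nhds]
  intro ε hε
  filter_upwards [hgood, hev (min ε (r / 2)) (by positivity) ((min_le_right _ _).trans (by linarith))] with n h2 h3
  obtain ⟨z, hz1, hz2⟩ := h3
  have h4 : dist z w < min ε (r / 2) := hz1
  have h5 := (ha n h2).2.2 z (mem_closedBall.2 ((h4.trans_le (min_le_right _ _)).le)) hz2
  exact h5.trans_lt (h4.trans_le (min_le_left _ _))

/-- **Weierstrass factorisation along an ultrafilter.** -/
theorem weier {w : ℂ} {r : ℝ} (hr : 0 < r) {k : ℂ → ℂ} (hk : DifferentiableOn ℂ k (ball w r)) (hk0 : k w ≠ 0) :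
    ∀ (M : ℕ) {h : ℕ → ℂ → ℂ}, (∀ᶠ n in (𝒰 : Filter ℕ), DifferentiableOn ℂ (h n) (ball w r)) →
      CC 𝒰 h (fun z => (z - w) ^ M * k z) (ball w r) →
      ∃ (a : ℕ → ℕ → ℂ) (q : ℕ → ℂ → ℂ), (∀ i, Tendsto (a i) 𝒰 (𝓝 w)) ∧
        (∀ᶠ n in (𝒰 : Filter ℕ), DifferentiableOn ℂ (q n) (ball w r)) ∧
        (∀ᶠ n in (𝒰 : Filter ℕ), ∀ z, h n z = (∏ i ∈ Finset.range M, (z - a i n)) * q n z) ∧ CC 𝒰 q k (ball w r) := by
  intro M
  induction M with
  | zero =>
    intro h hd hc
    exact ⟨fun _ _ => w, h, fun _ => tendsto_const_nhds, hd, Eventually.of_forall fun n z => by simp, hc.congr fun z _ => by simp⟩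
  | succ M ih =>
    intro h hd hc
    have hwr : ball w r ∈ 𝓝 w := ball_mem_nhds w hr
    have hψ : DifferentiableOn ℂ (fun z => (z - w) ^ (M + 1) * k z) (ball w r) := by
      exact DifferentiableOn.mul (by fun_prop) hk
    obtain ⟨a, ha1, ha2⟩ := exists_zero hr hd hψ hc (by simp) (by
      have h1 : ∀ᶠ z in 𝓝[≠] w, z ≠ w ∧ k z ≠ 0 :=
        (eventually_mem_nhdsWithin.mono fun z hz => hz).and
          (nhdsWithin_le_nhds ((hk.continuousOn.continuousAt hwr).eventually_ne hk0))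
      have h2 : ∀ᶠ z in 𝓝[≠] w, (z - w) ^ (M + 1) * k z ≠ 0 :=
        h1.mono fun z hz => mul_ne_zero (pow_ne_zero _ (sub_ne_zero.2 hz.1)) hz.2
      exact h2.frequently.filter_mono nhdsWithin_le_nhds)
    have hkd : DifferentiableAt ℂ k w := hk.differentiableAt hwr
    have hc' : CC 𝒰 (fun n => _root_.dslope (h n) (a n)) (fun z => (z - w) ^ M * k z) (ball w r) := by
      refine (CC.dslope hd hψ hc ha1).congr fun z _ => ?_
      have := dslope_pow_smul (E := ℂ) hkd M
      simp only [smul_eq_mul] at this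
      rw [this]
    have hd' : ∀ᶠ n in (𝒰 : Filter ℕ), DifferentiableOn ℂ (_root_.dslope (h n) (a n)) (ball w r) := by
      filter_upwards [hd, ha1.eventually (isOpen_ball.mem_nhds (mem_ball_self hr))] with n h1 h2
      exact (Complex.differentiableOn_dslope (isOpen_ball.mem_nhds h2)).2 h1
    obtain ⟨b, q, hb, hq1, hq2, hq3⟩ := ih hd' hc'
    refine ⟨fun i => if i = M then a else b i, q, ?_, hq1, ?_, hq3⟩
    · intro i
      by_cases hi : i = M
      · simpa [hi] using ha1
      · simpa [hi] using hb i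
    · filter_upwards [hq2, ha2] with n h1 h2 z
      have h3 : (z - a n) * _root_.dslope (h n) (a n) z = h n z := by
        have := sub_smul_dslope (h n) (a n) z
        rw [smul_eq_mul, h2, sub_zero] at this
        exact this
      rw [Finset.prod_range_succ, ← h3, h1 z]
      have h4 : ∏ i ∈ Finset.range M, (z - (fun i => if i = M then a else b i) i n) = ∏ i ∈ Finset.range M, (z - b i n) := by
        refine Finset.prod_congr rfl fun i hi => ?_
        have : i ≠ M := (Finset.mem_range.1 hi).ne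
        simp [this]
      rw [h4]
      simp
      ring

end Pool.Agent.H74.NB

end

section

/-!
# NB Dec: the rescaling at a bubble point

`Obj 𝒰 Φ w M G r`: holomorphic vector functions `Φ n` without zeros converge to `(z - w) ^ M • G z`, `G w ≠ 0`.
If `M ≥ 1`, there are centres `b n → w` and radii `ρ n → 0` such that `ρ n ^ (-M) • Φ n (b n + ρ n ζ)` converges on all of `ℂ` to a vector of
polynomials of degree `M` with leading coefficient `G w`, which is not `(ζ - β) ^ M • G w`.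
-/

set_option autoImplicit false
set_option linter.unusedSectionVars false

open Topology Filter Metric

namespace Pool.Agent.H74.NB

variable {E : Type*} [NormedAddCommGroup E] [NormedSpace ℂ E]

/-- vector functions without zeros whose limit has a zero of order `M` at `w` -/
structure Obj (𝒰 : Ultrafilter ℕ) (Φ : ℕ → ℂ → E) (w : ℂ) (M : ℕ) (G : ℂ → E) (r : ℝ) : Prop where
  pos : 0 < r
  hol : ∀ᶠ n in (𝒰 : Filter ℕ), DifferentiableOn ℂ (Φ n) (ball w r)
  nz : ∀ᶠ n in (𝒰 : Filter ℕ), ∀ z ∈ ball w r, Φ n z ≠ 0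
  cc : CC 𝒰 Φ (fun z => (z - w) ^ M • G z) (ball w r)
  holG : DifferentiableOn ℂ G (ball w r)
  nzG : G w ≠ 0

/-- iterated difference quotients -/
noncomputable def it (F : ℂ → E) (a : ℕ → ℂ) : ℕ → ℂ → E
  | 0 => F
  | j + 1 => _root_.dslope (it F a j) (a j)

theorem newton (F : ℂ → E) (a : ℕ → ℂ) (M : ℕ) (z : ℂ) :
    F z = ∑ j ∈ Finset.range M, (∏ i ∈ Finset.range j, (z - a i)) • it F a j (a j) + (∏ i ∈ Finset.range M, (z - a i)) • it F a M z := by
  induction M with
  | zero => simp [it]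
  | succ M ih =>
    rw [Finset.sum_range_succ, Finset.prod_range_succ, mul_smul]
    have h1 : (z - a M) • it F a (M + 1) z = it F a M z - it F a M (a M) := sub_smul_dslope (it F a M) (a M) z
    rw [h1, smul_sub, add_assoc, add_sub_cancel, ← ih]

variable [CompleteSpace E] {𝒰 : Ultrafilter ℕ}

theorem cc_it {w : ℂ} {r : ℝ} (hr : 0 < r) {M : ℕ} {F : ℕ → ℂ → E} {g : ℂ → E} {a : ℕ → ℕ → ℂ} (ha : ∀ i, Tendsto (a i) 𝒰 (𝓝 w))
    (hF : ∀ᶠ n in (𝒰 : Filter ℕ), DifferentiableOn ℂ (F n) (ball w r)) (hg : DifferentiableOn ℂ g (ball w r))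
    (hc : CC 𝒰 F (fun z => (z - w) ^ M • g z) (ball w r)) :
    ∀ j k, j + k = M → (∀ᶠ n in (𝒰 : Filter ℕ), DifferentiableOn ℂ (it (F n) (fun i => a i n) j) (ball w r)) ∧
      CC 𝒰 (fun n => it (F n) (fun i => a i n) j) (fun z => (z - w) ^ k • g z) (ball w r) := by
  intro j
  induction j with
  | zero =>
    intro k hk
    rw [zero_add] at hk
    subst hk
    exact ⟨hF, hc⟩
  | succ j ih =>
    intro k hk
    obtain ⟨h1, h2⟩ := ih (k + 1) (by omega)
    refine ⟨?_, ?_⟩
    · filter_upwards [h1, (ha j).eventually (isOpen_ball.mem_nhds (mem_ball_self hr))] with n h3 h4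
      exact (Complex.differentiableOn_dslope (isOpen_ball.mem_nhds h4)).2 h3
    · refine (CC.dslope h1 ?_ h2 (ha j)).congr fun z _ => ?_
      · exact DifferentiableOn.smul (by fun_prop) hg
      · rw [dslope_pow_smul (hg.differentiableAt (ball_mem_nhds w hr)) k]

end Pool.Agent.H74.NB

end

section

/-!
# TN Osg: bounded separately holomorphic functions of several variables are analytic

Induction on the number of variables, for all complex Banach spaces `E` at once.  For `f : ℂ × (Fin k → ℂ) → E` put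
`G y = (θ ↦ f (a + ρ e^(iθ), y))`, a function with values in the Banach space of the bounded continuous functions `ℝ → E`; it is bounded and separately
holomorphic (`osg_unif`: the Schwarz lemma and the Cauchy formula are uniform in `θ`), so analytic by induction, and
`2 π i f (z, y) = ∫ (D (X - z)⁻¹) (θ) • G y (θ) dθ` with `X - z` in the Banach algebra of the bounded continuous functions `ℝ → ℂ`.
-/

set_option autoImplicit false

open Topology Filter Metric

namespace Pool.Agent.TN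

/-- a bounded function of one variable with values in a space of bounded functions which is pointwise holomorphic is holomorphic -/
private theorem osg_unif {T : Type*} [TopologicalSpace T] {E : Type*} [NormedAddCommGroup E] [NormedSpace ℂ E] [CompleteSpace E]
    {φ : ℂ → BoundedContinuousFunction T E} {s M : ℝ} (hs : 0 < s) (hM : ∀ t ∈ ball (0:ℂ) s, ‖φ t‖ ≤ M)
    (hd : ∀ θ, ∀ t ∈ ball (0:ℂ) s, DifferentiableAt ℂ (fun t => φ t θ) t) : DifferentiableAt ℂ φ 0 := by
  have hM0 : 0 ≤ M := (norm_nonneg _).trans (hM 0 (mem_ball_self hs))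
  have hcont : ContinuousOn φ (ball (0:ℂ) s) := by
    intro t0 ht0
    have ht0' : dist t0 0 < s := ht0
    set s' : ℝ := s - dist t0 0 with hs'
    have hs0 : 0 < s' := by linarith
    have hsub : ball t0 s' ⊆ ball (0:ℂ) s := by
      intro w hw
      have hw' : dist w t0 < s' := hw
      have := dist_triangle w t0 0
      rw [mem_ball]
      linarith
    have key : ∀ t ∈ ball t0 s', dist (φ t) (φ t0) ≤ (2 * M) / s' * dist t t0 := by
      intro t ht
      rw [BoundedContinuousFunction.dist_le (by positivity)]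
      intro θ
      refine Complex.dist_le_div_mul_dist_of_mapsTo_ball (f := fun t => φ t θ)
        (fun x hx => (hd θ x (hsub hx)).differentiableWithinAt) ?_ ht
      intro w hw
      rw [mem_closedBall, dist_eq_norm]
      calc ‖φ w θ - φ t0 θ‖ ≤ ‖φ w θ‖ + ‖φ t0 θ‖ := norm_sub_le _ _
        _ ≤ M + M := add_le_add (((φ w).norm_coe_le_norm θ).trans (hM w (hsub hw))) (((φ t0).norm_coe_le_norm θ).trans (hM t0 ht0))
        _ = 2 * M := by ring
    refine ContinuousAt.continuousWithinAt ?_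
    show Tendsto φ (𝓝 t0) (𝓝 (φ t0))
    rw [tendsto_iff_dist_tendsto_zero]
    have ht : Tendsto (fun t : ℂ => (2 * M) / s' * dist t t0) (𝓝 t0) (𝓝 0) := by
      have e1 : Tendsto (fun t : ℂ => (2 * M) / s' * dist t t0) (𝓝 t0) (𝓝 ((2 * M) / s' * dist t0 t0)) :=
        ((continuous_const.mul (continuous_id.dist continuous_const)).tendsto t0)
      simpa using e1
    refine squeeze_zero' (Eventually.of_forall fun _ => dist_nonneg) ?_ ht
    filter_upwards [ball_mem_nhds t0 hs0] with t ht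
    exact key t ht
  set R : NNReal := ⟨s / 2, by positivity⟩ with hRd
  have hR : (0:ℝ) < R := by show 0 < s / 2; positivity
  have hRs : (R:ℝ) < s := by show s / 2 < s; linarith
  have hsph : closedBall (0:ℂ) R ⊆ ball 0 s := closedBall_subset_ball hRs
  have hci : CircleIntegrable φ 0 R := by
    refine ContinuousOn.circleIntegrable hR.le ?_
    exact hcont.mono (sphere_subset_closedBall.trans hsph)
  have hps := hasFPowerSeriesOn_cauchy_integral hci (by exact_mod_cast hR)
  have hana : AnalyticAt ℂ (fun w => (2 * Real.pi * Complex.I : ℂ)⁻¹ • ∮ z in C(0, R), (z - w)⁻¹ • φ z) 0 := hps.analyticAt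
  refine (hana.congr ?_).differentiableAt
  filter_upwards [ball_mem_nhds (0:ℂ) hR] with w hw
  show (2 * Real.pi * Complex.I : ℂ)⁻¹ • (∮ z in C(0, R), (z - w)⁻¹ • φ z) = φ w
  ext θ
  have hint : CircleIntegrable (fun z => (z - w)⁻¹ • φ z) 0 R := by
    refine ContinuousOn.circleIntegrable hR.le ?_
    have hinv : ContinuousOn (fun z : ℂ => (z - w)⁻¹) (sphere (0:ℂ) (R:ℝ)) := by
      refine ContinuousOn.inv₀ (by fun_prop) ?_
      intro z hz h0
      have hz' : dist z 0 = (R:ℝ) := hz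
      have hw' : dist w 0 < (R:ℝ) := hw
      rw [sub_eq_zero.1 h0] at hz'
      exact absurd hz' hw'.ne
    exact hinv.smul (hcont.mono (sphere_subset_closedBall.trans hsph))
  have hev : (∮ z in C(0, R), (z - w)⁻¹ • φ z) θ = ∮ z in C(0, R), (z - w)⁻¹ • φ z θ := by
    have h := ContinuousLinearMap.intervalIntegral_comp_comm (BoundedContinuousFunction.evalCLM ℂ (β := E) θ) hint.out
    rw [circleIntegral, circleIntegral]
    exact h.symm
  have hcf : (∮ z in C(0, R), (z - w)⁻¹ • φ z θ) = (2 * Real.pi * Complex.I : ℂ) • φ w θ :=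
    DifferentiableOn.circleIntegral_sub_inv_smul (f := fun z => φ z θ)
      (fun x hx => (hd θ x (hsph hx)).differentiableWithinAt) hw
  show (2 * Real.pi * Complex.I : ℂ)⁻¹ • ((∮ z in C(0, R), (z - w)⁻¹ • φ z) θ) = φ w θ
  rw [hev, hcf, smul_smul, inv_mul_cancel₀ Complex.two_pi_I_ne_zero, one_smul]

/-- the bilinear map `(g, h) ↦ ∫ g h` -/
private theorem osg_bil (E : Type*) [NormedAddCommGroup E] [NormedSpace ℂ E] :
    ∃ B : (BoundedContinuousFunction ℝ ℂ) →L[ℂ] (BoundedContinuousFunction ℝ E) →L[ℂ] E,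
      ∀ g h, B g h = ∫ θ in (0:ℝ)..2 * Real.pi, g θ • h θ := by
  have hcont : ∀ (g : BoundedContinuousFunction ℝ ℂ) (h : BoundedContinuousFunction ℝ E), Continuous (fun θ : ℝ => g θ • h θ) :=
    fun g h => g.continuous.smul h.continuous
  let L0 : (BoundedContinuousFunction ℝ ℂ) →ₗ[ℂ] (BoundedContinuousFunction ℝ E) →ₗ[ℂ] E :=
    LinearMap.mk₂ ℂ (fun g h => ∫ θ in (0:ℝ)..2 * Real.pi, g θ • h θ)
      (by
        intro g g' h
        rw [← intervalIntegral.integral_add ((hcont g h).intervalIntegrable _ _) ((hcont g' h).intervalIntegrable _ _)]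
        congr 1
        funext θ
        rw [BoundedContinuousFunction.add_apply, add_smul])
      (by
        intro c g h
        rw [← intervalIntegral.integral_smul]
        congr 1
        funext θ
        rw [BoundedContinuousFunction.smul_apply, smul_assoc])
      (by
        intro g h h'
        rw [← intervalIntegral.integral_add ((hcont g h).intervalIntegrable _ _) ((hcont g h').intervalIntegrable _ _)]
        congr 1
        funext θ
        rw [BoundedContinuousFunction.add_apply, smul_add])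
      (by
        intro c g h
        rw [← intervalIntegral.integral_smul]
        congr 1
        funext θ
        rw [BoundedContinuousFunction.smul_apply, smul_comm])
  have hpi : (0:ℝ) ≤ 2 * Real.pi := by positivity
  refine ⟨L0.mkContinuous₂ (2 * Real.pi) ?_, fun g h => rfl⟩
  intro g h
  show ‖∫ θ in (0:ℝ)..2 * Real.pi, g θ • h θ‖ ≤ _
  refine (intervalIntegral.norm_integral_le_of_norm_le_const (C := ‖g‖ * ‖h‖) ?_).trans (le_of_eq ?_)
  · intro θ _
    rw [norm_smul]
    exact mul_le_mul (g.norm_coe_le_norm _) (h.norm_coe_le_norm _) (norm_nonneg _) (norm_nonneg _)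
  · rw [sub_zero, abs_of_nonneg hpi]
    ring

/-- inversion in the algebra of bounded continuous functions -/
private theorem osg_inv {u : BoundedContinuousFunction ℝ ℂ} (hu : IsUnit u) (p : ℝ) : (Ring.inverse u) p = (u p)⁻¹ := by
  have h := Ring.mul_inverse_cancel u hu
  have h2 : u p * (Ring.inverse u) p = 1 := by
    rw [← BoundedContinuousFunction.mul_apply, h]; rfl
  exact (inv_eq_of_mul_eq_one_right h2).symm

private theorem osg_unit {c : ℂ} {ρ : ℝ} (hρ : 0 < ρ) :
    ∃ u : BoundedContinuousFunction ℝ ℂ, IsUnit u ∧ ∀ p, u p = circleMap c ρ p - c := by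
  have hn : ∀ θ : ℝ, ‖circleMap c ρ θ - c‖ = ρ := by
    intro θ
    rw [← dist_eq_norm]
    have := circleMap_mem_sphere c hρ.le θ
    exact this
  have hne : ∀ θ : ℝ, circleMap c ρ θ - c ≠ 0 := by
    intro θ h0
    have := hn θ
    rw [h0, norm_zero] at this
    exact hρ.ne this
  have hct : Continuous (fun p : ℝ => circleMap c ρ p - c) := (continuous_circleMap c ρ).sub continuous_const
  let u : BoundedContinuousFunction ℝ ℂ := BoundedContinuousFunction.ofNormedAddCommGroup (fun p => circleMap c ρ p - c) hct ρ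
    (fun p => (hn _).le)
  let v : BoundedContinuousFunction ℝ ℂ := BoundedContinuousFunction.ofNormedAddCommGroup (fun p => (circleMap c ρ p - c)⁻¹)
    (hct.inv₀ fun p => hne _) ρ⁻¹ (fun p => by rw [norm_inv, hn])
  refine ⟨u, ?_, fun p => rfl⟩
  refine IsUnit.of_mul_eq_one v ?_
  ext p
  show (circleMap c ρ p - c) * (circleMap c ρ p - c)⁻¹ = 1
  exact mul_inv_cancel₀ (hne _)

/-- the step of the induction -/
private theorem osg_step {k : ℕ} {E : Type*} [NormedAddCommGroup E] [NormedSpace ℂ E] [CompleteSpace E]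
    (IH : ∀ {f : (Fin k → ℂ) → BoundedContinuousFunction ℝ E} {w : Fin k → ℂ} {r M : ℝ}, 0 < r →
      (∀ y ∈ ball w r, ‖f y‖ ≤ M) → (∀ y ∈ ball w r, ∀ l : Fin k, DifferentiableAt ℂ (fun t : ℂ => f (y + t • Pi.single l 1)) 0) →
      AnalyticAt ℂ f w)
    {f : ℂ × (Fin k → ℂ) → E} {w : ℂ × (Fin k → ℂ)} {r M : ℝ} (hr : 0 < r)
    (hM : ∀ y ∈ ball w r, ‖f y‖ ≤ M) (h1 : ∀ y ∈ ball w r, DifferentiableAt ℂ (fun t : ℂ => f (y.1 + t, y.2)) 0)
    (h2 : ∀ y ∈ ball w r, ∀ l : Fin k, DifferentiableAt ℂ (fun t : ℂ => f (y.1, y.2 + t • Pi.single l 1)) 0) : AnalyticAt ℂ f w := by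
  obtain ⟨a, b⟩ := w
  have hmem : ∀ z ∈ ball a r, ∀ y ∈ ball b r, (z, y) ∈ ball (a, b) r := by
    intro z hz y hy
    rw [mem_ball, Prod.dist_eq]
    exact max_lt hz hy
  have hM' : ∀ z ∈ ball a r, ∀ y ∈ ball b r, ‖f (z, y)‖ ≤ M := fun z hz y hy => hM _ (hmem z hz y hy)
  have h1' : ∀ y ∈ ball b r, DifferentiableOn ℂ (fun z => f (z, y)) (ball a r) := by
    intro y hy z hz
    refine DifferentiableAt.differentiableWithinAt ?_
    have h0 := h1 _ (hmem z hz y hy)
    have e : (fun z' : ℂ => f (z', y)) = (fun t : ℂ => f (z + t, y)) ∘ (fun z' => z' - z) := by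
      funext z'
      show f (z', y) = f (z + (z' - z), y)
      rw [add_sub_cancel]
    rw [e]
    refine DifferentiableAt.comp z ?_ (differentiableAt_id.sub_const z)
    simpa using h0
  set ρ : ℝ := r / 2 with hρd
  have hρ : 0 < ρ := by positivity
  have hρr : ρ < r := by rw [hρd]; linarith
  have ha : ∀ θ, circleMap a ρ θ ∈ ball a r := fun θ => by
    have h := circleMap_mem_sphere a hρ.le θ
    rw [mem_ball, mem_sphere.1 h]; exact hρr
  have hHc : ∀ y ∈ ball b r, Continuous (fun θ : ℝ => f (circleMap a ρ θ, y)) := by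
    intro y hy
    exact (h1' y hy).continuousOn.comp_continuous (continuous_circleMap a ρ) ha
  classical
  let G : (Fin k → ℂ) → BoundedContinuousFunction ℝ E := fun y =>
    if hy : y ∈ ball b r then
      BoundedContinuousFunction.ofNormedAddCommGroup (fun θ => f (circleMap a ρ θ, y)) (hHc y hy) M (fun θ => hM' _ (ha θ) y hy)
    else 0
  have hG : ∀ y ∈ ball b r, ∀ θ, G y θ = f (circleMap a ρ θ, y) := by
    intro y hy θ
    show (if hy : y ∈ ball b r then
      BoundedContinuousFunction.ofNormedAddCommGroup (fun θ => f (circleMap a ρ θ, y)) (hHc y hy) M (fun θ => hM' _ (ha θ) y hy)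
      else 0) θ = _
    rw [dif_pos hy]
    rfl
  have hM0 : 0 ≤ M := (norm_nonneg _).trans (hM (a, b) (mem_ball_self hr))
  have hGM : ∀ y ∈ ball b r, ‖G y‖ ≤ M := by
    intro y hy
    rw [BoundedContinuousFunction.norm_le hM0]
    intro θ
    rw [hG y hy]
    exact hM' _ (ha θ) y hy
  have hGa : AnalyticAt ℂ G b := by
    refine IH hr hGM ?_
    intro y hy l
    have hy' : dist y b < r := hy
    have hsub : ∀ t ∈ ball (0:ℂ) (r - dist y b), y + t • (Pi.single l 1 : Fin k → ℂ) ∈ ball b r := by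
      intro t ht
      have ht' : ‖t‖ < r - dist y b := by simpa using ht
      rw [mem_ball]
      have hd : dist (y + t • (Pi.single l 1 : Fin k → ℂ)) y ≤ ‖t‖ := by
        rw [dist_eq_norm, add_sub_cancel_left, norm_smul]
        have : ‖(Pi.single l 1 : Fin k → ℂ)‖ ≤ 1 := by
          rw [pi_norm_le_iff_of_nonneg zero_le_one]
          intro i
          by_cases hi : i = l
          · subst hi; simp
          · simp [Pi.single_eq_of_ne hi]
        calc ‖t‖ * ‖(Pi.single l 1 : Fin k → ℂ)‖ ≤ ‖t‖ * 1 := mul_le_mul_of_nonneg_left this (norm_nonneg _)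
          _ = ‖t‖ := mul_one _
      have := dist_triangle (y + t • (Pi.single l 1 : Fin k → ℂ)) y b
      linarith
    refine osg_unif (s := r - dist y b) (M := M) (by linarith) (fun t ht => hGM _ (hsub t ht)) ?_
    intro θ t ht
    have h0 := h2 (circleMap a ρ θ, y + t • (Pi.single l 1 : Fin k → ℂ)) (hmem _ (ha θ) _ (hsub t ht)) l
    have e : (fun t' : ℂ => G (y + t' • (Pi.single l 1 : Fin k → ℂ)) θ) =ᶠ[𝓝 t]
        (fun s : ℂ => f (circleMap a ρ θ, y + t • (Pi.single l 1 : Fin k → ℂ) + s • (Pi.single l 1 : Fin k → ℂ))) ∘ (fun t' => t' - t) := by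
      filter_upwards [isOpen_ball.mem_nhds ht] with t' ht'
      rw [hG _ (hsub t' ht')]
      show f _ = f _
      congr 2
      rw [add_assoc, ← add_smul, add_sub_cancel]
    refine DifferentiableAt.congr_of_eventuallyEq ?_ e
    refine DifferentiableAt.comp t ?_ (differentiableAt_id.sub_const t)
    simpa using h0
  obtain ⟨B, hB⟩ := osg_bil E
  obtain ⟨u, hu, hu'⟩ := osg_unit (c := a) hρ
  have hder : Continuous (deriv (circleMap a ρ)) := by
    have : deriv (circleMap a ρ) = fun θ => circleMap 0 ρ θ * Complex.I := by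
      funext θ; exact deriv_circleMap a ρ θ
    rw [this]
    exact (continuous_circleMap 0 ρ).mul continuous_const
  have hdn : ∀ θ : ℝ, ‖deriv (circleMap a ρ) θ‖ ≤ ρ := by
    intro θ
    rw [deriv_circleMap, norm_mul, Complex.norm_I, mul_one, norm_circleMap_zero, abs_of_pos hρ]
  let D : BoundedContinuousFunction ℝ ℂ := BoundedContinuousFunction.ofNormedAddCommGroup (deriv (circleMap a ρ)) hder ρ hdn
  let U : ℂ × (Fin k → ℂ) → BoundedContinuousFunction ℝ ℂ := fun p => u - (p.1 - a) • (1 : BoundedContinuousFunction ℝ ℂ)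
  have hU0 : U (a, b) = u := by show u - (a - a) • _ = u; rw [sub_self, zero_smul, sub_zero]
  have hUa : AnalyticAt ℂ U (a, b) := analyticAt_const.sub ((analyticAt_fst.sub analyticAt_const).smul analyticAt_const)
  have hUi : AnalyticAt ℂ (fun p => Ring.inverse (U p)) (a, b) := by
    have h := analyticAt_inverse (𝕜 := ℂ) hu.unit
    rw [IsUnit.unit_spec, ← hU0] at h
    exact h.comp hUa
  have hGb : AnalyticAt ℂ (fun p : ℂ × (Fin k → ℂ) => G p.2) (a, b) :=
    AnalyticAt.comp (show AnalyticAt ℂ G ((a, b) : ℂ × (Fin k → ℂ)).2 from hGa) analyticAt_snd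
  have hW : AnalyticAt ℂ (fun p : ℂ × (Fin k → ℂ) => B (D * Ring.inverse (U p)) (G p.2)) (a, b) := by
    have hD : AnalyticAt ℂ (fun p : ℂ × (Fin k → ℂ) => D * Ring.inverse (U p)) (a, b) := analyticAt_const.mul hUi
    have hBa : AnalyticAt ℂ (fun q : BoundedContinuousFunction ℝ ℂ × BoundedContinuousFunction ℝ E => B q.1 q.2)
        ((fun p : ℂ × (Fin k → ℂ) => (D * Ring.inverse (U p), G p.2)) (a, b)) := B.analyticAt_bilinear _
    exact AnalyticAt.comp (f := fun p : ℂ × (Fin k → ℂ) => (D * Ring.inverse (U p), G p.2)) hBa (hD.prod hGb)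
  have hWc : AnalyticAt ℂ (fun p : ℂ × (Fin k → ℂ) => (2 * Real.pi * Complex.I : ℂ)⁻¹ • B (D * Ring.inverse (U p)) (G p.2)) (a, b) :=
    analyticAt_const.smul hW
  refine hWc.congr ?_
  have evU : ∀ᶠ p in 𝓝 (a, b), IsUnit (U p) := by
    have h := hUa.continuousAt.eventually (Units.isOpen.mem_nhds (show U (a, b) ∈ {x | IsUnit x} by rw [hU0]; exact hu))
    exact h
  have evB : ∀ᶠ p : ℂ × (Fin k → ℂ) in 𝓝 (a, b), p.1 ∈ ball a ρ ∧ p.2 ∈ ball b r :=
    ((continuous_fst.tendsto (a, b)).eventually (ball_mem_nhds a hρ)).and ((continuous_snd.tendsto (a, b)).eventually (ball_mem_nhds b hr))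
  filter_upwards [evU, evB] with p hpU hpB
  obtain ⟨z, y⟩ := p
  obtain ⟨hz, hy⟩ := hpB
  simp only at hz hy
  have c1 : (∮ ζ in C(a, ρ), (ζ - z)⁻¹ • f (ζ, y)) = (2 * Real.pi * Complex.I : ℂ) • f (z, y) :=
    DifferentiableOn.circleIntegral_sub_inv_smul (f := fun ζ => f (ζ, y)) ((h1' y hy).mono (closedBall_subset_ball hρr)) hz
  have hBv : B (D * Ring.inverse (U (z, y))) (G y) = (2 * Real.pi * Complex.I : ℂ) • f (z, y) := by
    rw [hB, ← c1, circleIntegral]
    congr 1
    funext θ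
    rw [BoundedContinuousFunction.mul_apply, osg_inv hpU, hG y hy]
    have eU : (U (z, y)) θ = circleMap a ρ θ - z := by
      show u θ - (z - a) * 1 = _
      rw [hu' θ]; ring
    rw [eU]
    show (deriv (circleMap a ρ) θ * (circleMap a ρ θ - z)⁻¹) • f (circleMap a ρ θ, y) = _
    rw [mul_smul]
  show _ • B (D * Ring.inverse (U (z, y))) (G y) = f (z, y)
  rw [hBv, smul_smul, inv_mul_cancel₀ Complex.two_pi_I_ne_zero, one_smul]

theorem osgood_pi {n : ℕ} {E : Type*} [NormedAddCommGroup E] [NormedSpace ℂ E] [CompleteSpace E] {f : (Fin n → ℂ) → E} {w : Fin n → ℂ} {r M : ℝ} (hr : 0 < r)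
    (hM : ∀ y ∈ ball w r, ‖f y‖ ≤ M) (h : ∀ y ∈ ball w r, ∀ l : Fin n, DifferentiableAt ℂ (fun t : ℂ => f (y + t • Pi.single l 1)) 0) : AnalyticAt ℂ f w := by
  induction n generalizing E r M with
  | zero =>
    have e : f = fun _ => f w := by
      funext y
      congr 1
      funext i
      exact i.elim0
    rw [e]
    exact analyticAt_const
  | succ k ih =>
    have hmem : ∀ z ∈ ball (w 0) r, ∀ y ∈ ball (fun i : Fin k => w i.succ) r, (Fin.cons z y : Fin (k + 1) → ℂ) ∈ ball w r := by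
      intro z hz y hy
      rw [mem_ball, dist_pi_lt_iff hr]
      rw [mem_ball, dist_pi_lt_iff hr] at hy
      intro i
      refine Fin.cases ?_ ?_ i
      · exact hz
      · intro j
        exact hy j
    have hmem2 : ∀ p ∈ ball ((w 0, fun i : Fin k => w i.succ) : ℂ × (Fin k → ℂ)) r, (Fin.cons p.1 p.2 : Fin (k + 1) → ℂ) ∈ ball w r := by
      intro p hp
      rw [mem_ball, Prod.dist_eq, max_lt_iff] at hp
      exact hmem p.1 hp.1 p.2 hp.2
    have hg : AnalyticAt ℂ (fun p : ℂ × (Fin k → ℂ) => f (Fin.cons p.1 p.2 : Fin (k + 1) → ℂ)) (w 0, fun i : Fin k => w i.succ) := by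
      refine osg_step (fun {_ _ _ _} hr hM h => ih hr hM h) (M := M) hr (fun p hp => hM _ (hmem2 p hp)) ?_ ?_
      · intro p hp
        have h0 := h _ (hmem2 p hp) 0
        have e : (fun t : ℂ => f (Fin.cons (p.1 + t) p.2 : Fin (k + 1) → ℂ)) =
            (fun t : ℂ => f ((Fin.cons p.1 p.2 : Fin (k + 1) → ℂ) + t • Pi.single 0 1)) := by
          funext t
          congr 1
          funext i
          refine Fin.cases ?_ ?_ i
          · simp
          · intro j
            simp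
        show DifferentiableAt ℂ (fun t : ℂ => f (Fin.cons (p.1 + t) p.2 : Fin (k + 1) → ℂ)) 0
        rw [e]
        exact h0
      · intro p hp l
        have h0 := h _ (hmem2 p hp) l.succ
        have e : (fun t : ℂ => f (Fin.cons p.1 (p.2 + t • (Pi.single l 1 : Fin k → ℂ)) : Fin (k + 1) → ℂ)) =
            (fun t : ℂ => f ((Fin.cons p.1 p.2 : Fin (k + 1) → ℂ) + t • Pi.single l.succ 1)) := by
          funext t
          congr 1
          funext i
          refine Fin.cases ?_ ?_ i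
          · simp
          · intro j
            simp [Pi.single_apply]
        show DifferentiableAt ℂ (fun t : ℂ => f (Fin.cons p.1 (p.2 + t • (Pi.single l 1 : Fin k → ℂ)) : Fin (k + 1) → ℂ)) 0
        rw [e]
        exact h0
    let π : (Fin (k + 1) → ℂ) →L[ℂ] ℂ × (Fin k → ℂ) :=
      (ContinuousLinearMap.proj 0).prod (ContinuousLinearMap.pi fun i : Fin k => ContinuousLinearMap.proj i.succ)
    have e : f = (fun p : ℂ × (Fin k → ℂ) => f (Fin.cons p.1 p.2 : Fin (k + 1) → ℂ)) ∘ π := by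
      funext y
      show f y = f (Fin.cons (y 0) (fun i : Fin k => y i.succ) : Fin (k + 1) → ℂ)
      congr 1
      funext i
      refine Fin.cases ?_ ?_ i
      · rfl
      · intro j
        rfl
    rw [e]
    exact AnalyticAt.comp (show AnalyticAt ℂ (fun p : ℂ × (Fin k → ℂ) => f (Fin.cons p.1 p.2 : Fin (k + 1) → ℂ)) (π w) from hg) (π.analyticAt w)

theorem osgood_prod {k : ℕ} {E : Type*} [NormedAddCommGroup E] [NormedSpace ℂ E] [CompleteSpace E] {f : ℂ × (Fin k → ℂ) → E} {w : ℂ × (Fin k → ℂ)} {r M : ℝ} (hr : 0 < r)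
    (hM : ∀ y ∈ ball w r, ‖f y‖ ≤ M) (h1 : ∀ y ∈ ball w r, DifferentiableAt ℂ (fun t : ℂ => f (y.1 + t, y.2)) 0)
    (h2 : ∀ y ∈ ball w r, ∀ l : Fin k, DifferentiableAt ℂ (fun t : ℂ => f (y.1, y.2 + t • Pi.single l 1)) 0) : AnalyticAt ℂ f w :=
  osg_step (fun {_ _ _ _} hr hM h => osgood_pi hr hM h) hr hM h1 h2

end Pool.Agent.TN

end
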