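import Pool.Agent.H94.G6.M04
import Pool.Agent.H94.G6.M11
import Pool.Agent.H94.G6.M18
import Pool.Agent.H94.G6.M27
import Pool.Agent.H94.G6.M38
import Pool.Agent.H94.G6.M43
import Pool.Agent.H94.G6.M44

/-! The parts of this file: H13.SM.Bdd, H13.SM.Open, H13.SM.Dense, H13.SM.Aff, H17.Modulus, H13.OT.Std, H17BP.Same, H14.V.Up, H62.FC.Components, MQ.KF, MQ2.AlgConv, MQ3.WPoly, SG51.GC, SG.LimV, SY.BdP, SY.EiQ. -/

section

/-!
# The projection is proper with finite fibres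

PROOF.  For every `i` let `p i` be the monic polynomial of `exists_monic hint (X i)`.  By `root_at` (with
`Z = X i`), for every point `w` of the variety `w i` is a root of `(p i).map (eval y)`, `y j = eval w (B
j)`, a monic polynomial.

`finite_fiber`: for fixed `y` there are finitely many roots for each `i` (`Set.Finite.pi`,
`Polynomial.finite_setOf_isRoot` or `Multiset`/`rootSet`).

`bdd_near`: a root `t` of a monic polynomial `t^d + c_{d-1} t^{d-1} + ... + c_0` satisfies `‖t‖ ≤ 1 +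
∑ ‖c_k‖` (if `‖t‖ > 1` divide `t^d = -∑ c_k t^k` by `t^{d-1}`; or `Polynomial.IsRoot.norm_lt_cauchyBound`),
and the `c_k` are continuous functions of `y`, so they are bounded near `y₀`; take the maximum over `i`.
-/

open MvPolynomial Topology

noncomputable section

namespace Pool.Agent.H13.SM

variable {ι K : Type} [Field K] [Algebra ℂ K]

private theorem Bdd_root {q : Polynomial ℂ} (hq : q.Monic) {t : ℂ} (ht : q.eval t = 0) :
    ‖t‖ ≤ ∑ k ∈ Finset.range q.natDegree, ‖q.coeff k‖ + 1 := by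
  have h1 := Polynomial.IsRoot.norm_lt_cauchyBound hq.ne_zero ht
  have h2 : Polynomial.cauchyBound q ≤ ∑ k ∈ Finset.range q.natDegree, ‖q.coeff k‖₊ + 1 := by
    unfold Polynomial.cauchyBound
    rw [hq.leadingCoeff, nnnorm_one, div_one]
    gcongr
    exact Finset.sup_le fun k hk => Finset.single_le_sum (f := fun k => ‖q.coeff k‖₊) (fun _ _ => zero_le) hk
  have h3 : ‖t‖₊ ≤ ∑ k ∈ Finset.range q.natDegree, ‖q.coeff k‖₊ + 1 := h1.le.trans h2
  have h4 : (‖t‖₊ : ℝ) ≤ ((∑ k ∈ Finset.range q.natDegree, ‖q.coeff k‖₊ + 1 : NNReal) : ℝ) := by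
    exact_mod_cast h3
  rw [NNReal.coe_add, NNReal.coe_sum, NNReal.coe_one] at h4
  exact h4

theorem finite_fiber [Finite ι] {a : ι → K} {n : ℕ} {b : Fin n → K}
    {B : Fin n → MvPolynomial ι ℂ} (hB : ∀ j, aeval a (B j) = b j)
    (hint : ∀ i, IsIntegral (Algebra.adjoin ℂ (Set.range b)) (a i)) (y₀ : Fin n → ℂ) :
    {w | w ∈ pts a ∧ ∀ j, eval w (B j) = y₀ j}.Finite := by
  choose p hpm hp using fun i => exists_monic hint (X i : MvPolynomial ι ℂ)
  have hfin : {w : ι → ℂ | ∀ i, w i ∈ {t : ℂ | ((p i).map (eval y₀)).IsRoot t}}.Finite :=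
    Set.Finite.pi' fun i => Polynomial.finite_setOfPred_isRoot ((hpm i).map _).ne_zero
  refine hfin.subset ?_
  rintro w ⟨hw, hwy⟩ i
  have h1 := root_at hB (hp i) hw
  rw [eval_X] at h1
  have h2 : (fun j => eval w (B j)) = y₀ := funext hwy
  rw [h2] at h1
  exact h1

theorem bdd_near [Finite ι] {a : ι → K} {n : ℕ} {b : Fin n → K}
    {B : Fin n → MvPolynomial ι ℂ} (hB : ∀ j, aeval a (B j) = b j)
    (hint : ∀ i, IsIntegral (Algebra.adjoin ℂ (Set.range b)) (a i)) (y₀ : Fin n → ℂ) :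
    ∃ C : ℝ, ∀ᶠ y in 𝓝 y₀, ∀ w ∈ pts a, (∀ j, eval w (B j) = y j) → ∀ i, ‖w i‖ ≤ C := by
  choose p hpm hp using fun i => exists_monic hint (X i : MvPolynomial ι ℂ)
  cases nonempty_fintype ι
  have hcont : ∀ i, Continuous fun y : Fin n → ℂ =>
      ∑ k ∈ Finset.range (p i).natDegree, ‖eval y ((p i).coeff k)‖ + 1 := by
    intro i
    exact (continuous_finsetSum _ fun k _ => (MvPolynomial.continuous_eval _).norm).add continuous_const
  have hS : ∀ i, 0 ≤ ∑ k ∈ Finset.range (p i).natDegree, ‖eval y₀ ((p i).coeff k)‖ + 1 := by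
    intro i
    positivity
  refine ⟨∑ i, (∑ k ∈ Finset.range (p i).natDegree, ‖eval y₀ ((p i).coeff k)‖ + 1 + 1), ?_⟩
  have hev : ∀ᶠ y in 𝓝 y₀, ∀ i, ∑ k ∈ Finset.range (p i).natDegree, ‖eval y ((p i).coeff k)‖ + 1 <
      ∑ k ∈ Finset.range (p i).natDegree, ‖eval y₀ ((p i).coeff k)‖ + 1 + 1 := by
    rw [Filter.eventually_all]
    intro i
    exact (hcont i).continuousAt.eventually_lt continuousAt_const (by simp)
  filter_upwards [hev] with y hy w hw hwy i
  have h1 := root_at hB (hp i) hw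
  rw [eval_X] at h1
  have h2 : (fun j => eval w (B j)) = y := funext hwy
  rw [h2] at h1
  have h3 := Bdd_root ((hpm i).map (eval y)) h1
  rw [(hpm i).natDegree_map] at h3
  simp only [Polynomial.coeff_map] at h3
  refine (h3.trans (hy i).le).trans ?_
  exact Finset.single_le_sum (f := fun i => ∑ k ∈ Finset.range (p i).natDegree, ‖eval y₀ ((p i).coeff k)‖ + 1 + 1)
    (fun i _ => by have := hS i; positivity) (Finset.mem_univ i)

end Pool.Agent.H13.SM

end
end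

section

/-!
# The projection is open

PROOF of `exists_small_root`.  All roots with `ε ≤ ‖t‖` would give `ε ^ d ≤ ∏ ‖t‖ = ‖p.coeff 0‖`
(`Polynomial.coeff_zero_eq_prod_roots_of_monic_of_splits` or similar, `d = p.natDegree`).

PROOF of `exists_separating`.  For every point `w'` of the finite set `F` with `w' ≠ w` choose `i` with
`w' i ≠ w i` and let `u w' = C (w i - w' i)⁻¹ * (X i - C (w' i))`: it is `1` at `w` and `0` at `w'`.
`Z = 1 - ∏_{w' ∈ F, w' ≠ w} u w'`.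

PROOF of `open_at`.  Let `y₀ j = eval w (B j)`.  Let `Z` be separating for the fibre over `y₀`
(`finite_fiber`) and let `μ` be as in `exists_lift` for `Z`.  `U` contains an open `U₀ ∋ w`.  Let `C` be
as in `bdd_near`.  The set `L = {w' ∈ pts a | w' ∉ U₀, ∀ i, ‖w' i‖ ≤ C}` is compact
(`isClosed_pts`, bounded), and the continuous function
`w' ↦ ∑ j, ‖eval w' (B j) - y₀ j‖ + ‖eval w' Z‖` is positive on it (a zero would be a point of the
fibre with `Z = 0`, so it would be `w ∈ U₀`), so it is `≥ δ > 0` on `L` (if `L` is empty take `δ = 1`).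
`(μ.map (eval y₀)).eval 0 = 0` by `root_at` (`eval w Z = 0`), so the coefficient
`eval y (μ.coeff 0)` tends to `0` as `y → y₀` and `1 ≤ μ.natDegree` (`μ` is monic and a specialisation
has a root).  So for `y` near `y₀`: `∑ j, ‖y j - y₀ j‖ < δ / 2`, the bound of `bdd_near` holds and
`‖eval y (μ.coeff 0)‖ < (δ / 2) ^ μ.natDegree`.  By `exists_small_root` there is a root `T` of
`μ.map (eval y)` (monic of the same degree) with `‖T‖ < δ / 2`, and by `exists_lift` a point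
`w' ∈ pts a` with `eval w' (B j) = y j`, `eval w' Z = T`.  It is not in `L`, so it is in `U₀`.
-/

open MvPolynomial Topology

noncomputable section

namespace Pool.Agent.H13.SM

variable {ι K : Type} [Field K] [Algebra ℂ K]

private theorem pow_le_prod_norm {ε : ℝ} (hε : 0 < ε) (s : Multiset ℂ) :
    (∀ t ∈ s, ε ≤ ‖t‖) → ε ^ s.card ≤ ‖s.prod‖ := by
  induction s using Multiset.induction_on with
  | empty => intro _; simp
  | cons a s ih =>
    intro h
    rw [Multiset.card_cons, Multiset.prod_cons, norm_mul, pow_succ']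
    exact mul_le_mul (h a (Multiset.mem_cons_self a s))
      (ih fun t ht => h t (Multiset.mem_cons_of_mem ht)) (by positivity) (norm_nonneg _)

theorem exists_small_root {p : Polynomial ℂ} (hp : p.Monic) (hd : 1 ≤ p.natDegree) {ε : ℝ}
    (hε : 0 < ε) (h : ‖p.coeff 0‖ < ε ^ p.natDegree) : ∃ t : ℂ, p.eval t = 0 ∧ ‖t‖ < ε := by
  have _ := hd
  by_contra hcon
  push Not at hcon
  have hs : p.Splits := IsAlgClosed.splits p
  have h1 : p.coeff 0 = (-1) ^ p.natDegree * p.roots.prod :=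
    hs.coeff_zero_eq_prod_roots_of_monic hp
  have h2 : ε ^ p.roots.card ≤ ‖p.roots.prod‖ :=
    pow_le_prod_norm hε _ fun t ht => hcon t (Polynomial.isRoot_of_mem_roots ht)
  rw [← hs.natDegree_eq_card_roots] at h2
  rw [h1, norm_mul, norm_pow, norm_neg, norm_one, one_pow, one_mul] at h
  exact absurd h2 (not_le.2 h)

theorem exists_separating {F : Set (ι → ℂ)} (hF : F.Finite) (w : ι → ℂ) :
    ∃ Z : MvPolynomial ι ℂ, eval w Z = 0 ∧ ∀ w' ∈ F, w' ≠ w → eval w' Z ≠ 0 := by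
  classical
  have h1 : ∀ w' : ι → ℂ, w' ≠ w → ∃ Y : MvPolynomial ι ℂ, eval w Y = 1 ∧ eval w' Y = 0 := by
    intro w' hne
    obtain ⟨i, hi⟩ := Function.ne_iff.1 hne
    refine ⟨C (w i - w' i)⁻¹ * (X i - C (w' i)), ?_, ?_⟩
    · have h3 : w i - w' i ≠ 0 := sub_ne_zero.2 (Ne.symm hi)
      simp [h3]
    · simp
  choose! u hu1 hu0 using h1
  refine ⟨1 - ∏ w' ∈ hF.toFinset.filter (fun w' => w' ≠ w), u w', ?_, ?_⟩
  · rw [map_sub, map_one, map_prod, Finset.prod_eq_one, sub_self]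
    intro w' hw'
    exact hu1 w' (Finset.mem_filter.1 hw').2
  · intro w' hw' hne
    rw [map_sub, map_one, map_prod,
      Finset.prod_eq_zero (Finset.mem_filter.2 ⟨hF.mem_toFinset.2 hw', hne⟩) (hu0 w' hne), sub_zero]
    exact one_ne_zero

/-- The finite projection `w ↦ (B j)(w)` is open. -/
theorem open_at [Finite ι] {a : ι → K} {n : ℕ} {b : Fin n → K} (hb : AlgebraicIndependent ℂ b)
    {B : Fin n → MvPolynomial ι ℂ} (hB : ∀ j, aeval a (B j) = b j)
    (hint : ∀ i, IsIntegral (Algebra.adjoin ℂ (Set.range b)) (a i)) {w : ι → ℂ} (hw : w ∈ pts a)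
    {U : Set (ι → ℂ)} (hU : U ∈ 𝓝 w) :
    (fun w' j => eval w' (B j)) '' (pts a ∩ U) ∈ 𝓝 (fun j => eval w (B j)) := by
  have hF := finite_fiber hB hint (fun j => eval w (B j))
  obtain ⟨Z, hZw, hZ⟩ := exists_separating hF w
  obtain ⟨μ, hμm, hμr, hμl⟩ := exists_lift hb hB hint Z
  obtain ⟨U₀, hU₀U, hU₀o, hwU₀⟩ := mem_nhds_iff.1 hU
  obtain ⟨C, hC⟩ := bdd_near hB hint (fun j => eval w (B j))
  have hroot := root_at hB hμr hw
  rw [hZw] at hroot
  have hdeg : 1 ≤ μ.natDegree := by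
    by_contra hlt
    have h0 : μ = 1 := by
      rw [Nat.not_le, Nat.lt_one_iff] at hlt
      exact Polynomial.eq_one_of_monic_natDegree_zero hμm hlt
    rw [h0, Polynomial.map_one, Polynomial.eval_one] at hroot
    exact one_ne_zero hroot
  -- the compact set of the points outside `U₀`
  have hLc : IsCompact ({w' : ι → ℂ | w' ∈ pts a ∧ w' ∉ U₀ ∧ ∀ i, ‖w' i‖ ≤ C}) := by
    have hK : IsCompact (Set.pi Set.univ fun _ : ι => Metric.closedBall (0 : ℂ) C) :=
      isCompact_univ_pi fun _ => isCompact_closedBall _ _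
    refine hK.of_isClosed_subset ?_ ?_
    · have e1 : {w' : ι → ℂ | w' ∈ pts a ∧ w' ∉ U₀ ∧ ∀ i, ‖w' i‖ ≤ C} =
          pts a ∩ (U₀ᶜ ∩ ⋂ i, {w' : ι → ℂ | ‖w' i‖ ≤ C}) := by
        ext w'
        simp only [Set.mem_ofPred_eq, Set.mem_inter_iff, Set.mem_compl_iff, Set.mem_iInter]
      rw [e1]
      refine (isClosed_pts a).inter (hU₀o.isClosed_compl.inter (isClosed_iInter fun i => ?_))
      exact isClosed_le ((continuous_apply i).norm) continuous_const
    · intro w' hw' i _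
      rw [mem_closedBall_zero_iff]
      exact hw'.2.2 i
  have hgc : Continuous fun w' : ι → ℂ =>
      (∑ j, ‖eval w' (B j) - eval w (B j)‖) + ‖eval w' Z‖ :=
    (continuous_finsetSum _ fun j _ =>
      ((MvPolynomial.continuous_eval (B j)).sub continuous_const).norm).add
      (MvPolynomial.continuous_eval Z).norm
  have hδ : ∃ δ : ℝ, 0 < δ ∧ ∀ w' ∈ {w' : ι → ℂ | w' ∈ pts a ∧ w' ∉ U₀ ∧ ∀ i, ‖w' i‖ ≤ C},
      δ ≤ (∑ j, ‖eval w' (B j) - eval w (B j)‖) + ‖eval w' Z‖ := by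
    rcases Set.eq_empty_or_nonempty
      {w' : ι → ℂ | w' ∈ pts a ∧ w' ∉ U₀ ∧ ∀ i, ‖w' i‖ ≤ C} with he | hne
    · refine ⟨1, one_pos, fun w' hw' => ?_⟩
      rw [he] at hw'
      exact absurd hw' (Set.notMem_empty _)
    · obtain ⟨w₁, hw₁, hmin⟩ := hLc.exists_isMinOn hne hgc.continuousOn
      refine ⟨_, ?_, fun w' hw' => hmin hw'⟩
      by_contra hle
      have hs0 : 0 ≤ ∑ j, ‖eval w₁ (B j) - eval w (B j)‖ :=
        Finset.sum_nonneg fun _ _ => norm_nonneg _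
      have hz0 : 0 ≤ ‖eval w₁ Z‖ := norm_nonneg _
      have hs : ∑ j, ‖eval w₁ (B j) - eval w (B j)‖ = 0 := by linarith [not_lt.1 hle]
      have hz : ‖eval w₁ Z‖ = 0 := by linarith [not_lt.1 hle]
      rw [Finset.sum_eq_zero_iff_of_nonneg fun _ _ => norm_nonneg _] at hs
      have hfib : ∀ j, eval w₁ (B j) = eval w (B j) := fun j =>
        sub_eq_zero.1 (norm_eq_zero.1 (hs j (Finset.mem_univ j)))
      have hww : w₁ = w := by
        by_contra hne1
        exact hZ w₁ ⟨hw₁.1, hfib⟩ hne1 (norm_eq_zero.1 hz)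
      exact hw₁.2.1 (hww ▸ hwU₀)
  obtain ⟨δ, hδ0, hδL⟩ := hδ
  have hev2 : ∀ᶠ y : Fin n → ℂ in 𝓝 (fun j => eval w (B j)),
      ∑ j, ‖y j - eval w (B j)‖ < δ / 2 := by
    have hc : Continuous fun y : Fin n → ℂ => ∑ j, ‖y j - eval w (B j)‖ :=
      continuous_finsetSum _ fun j _ => ((continuous_apply j).sub continuous_const).norm
    have h0 : ∑ j, ‖(fun j => eval w (B j)) j - eval w (B j)‖ < δ / 2 := by
      have : ∑ j, ‖(fun j => eval w (B j)) j - eval w (B j)‖ = 0 :=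
        Finset.sum_eq_zero fun j _ => by rw [sub_self, norm_zero]
      rw [this]
      linarith
    exact hc.continuousAt.eventually (gt_mem_nhds h0)
  have hev3 : ∀ᶠ y : Fin n → ℂ in 𝓝 (fun j => eval w (B j)),
      ‖eval y (μ.coeff 0)‖ < (δ / 2) ^ μ.natDegree := by
    have hc : Continuous fun y : Fin n → ℂ => ‖eval y (μ.coeff 0)‖ :=
      (MvPolynomial.continuous_eval (μ.coeff 0)).norm
    have h0 : ‖eval (fun j => eval w (B j)) (μ.coeff 0)‖ < (δ / 2) ^ μ.natDegree := by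
      have h1 : eval (fun j => eval w (B j)) (μ.coeff 0) = 0 := by
        rw [← Polynomial.coeff_map, Polynomial.coeff_zero_eq_eval_zero]
        exact hroot
      rw [h1, norm_zero]
      positivity
    exact hc.continuousAt.eventually (gt_mem_nhds h0)
  filter_upwards [hC, hev2, hev3] with y hy1 hy2 hy3
  have hnd : (μ.map (eval y)).natDegree = μ.natDegree := hμm.natDegree_map _
  obtain ⟨T, hT0, hTs⟩ := exists_small_root (hμm.map (eval y)) (by rw [hnd]; exact hdeg)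
    (half_pos hδ0) (by rw [hnd, Polynomial.coeff_map]; exact hy3)
  obtain ⟨w', hw'a, hw'B, hw'Z⟩ := hμl y T hT0
  have hin : w' ∈ U₀ := by
    by_contra hout
    have h1 := hδL w' ⟨hw'a, hout, hy1 w' hw'a hw'B⟩
    have h2 : ∑ j, ‖eval w' (B j) - eval w (B j)‖ = ∑ j, ‖y j - eval w (B j)‖ :=
      Finset.sum_congr rfl fun j _ => by rw [hw'B j]
    rw [h2, hw'Z] at h1
    linarith
  exact ⟨w', ⟨hw'a, hU₀U hin⟩, _root_.funext fun j => hw'B j⟩

end Pool.Agent.H13.SM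

end
end

section

/-!
# A function which is not zero does not vanish near a point

PROOF of `not_eventually_zero`.  Take `b, B` as in `exists_noether`.  Let `ζ = aeval a Q ≠ 0`, integral
over `R' = Algebra.adjoin ℂ (Set.range b) ≃ MvPolynomial (Fin n) ℂ`, hence algebraic, so there is
`q : Polynomial R'` with `q.coeff 0 ≠ 0` and `aeval ζ q = 0`
(`IsAlgebraic.exists_nonzero_coeff_and_aeval_eq_zero`); transport it to
`q : Polynomial (MvPolynomial (Fin n) ℂ)` with `q.coeff 0 ≠ 0` and `(q.map (aeval b)).eval ζ = 0`.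
(Or take `μ` of `exists_monic`, `μ = X ^ k * q` with `q.coeff 0 ≠ 0`; `ζ ^ k * q(ζ) = 0`.)
If `Q = 0` on the points of the variety in the neighbourhood `U` of `w` then by `root_at`
`eval y (q.coeff 0) = 0` for all `y` in the image of `pts a ∩ U`, a neighbourhood of `y₀` by `open_at`.
A polynomial which vanishes in a neighbourhood of a point is zero (identity theorem
`AnalyticOnNhd.eq_of_eventuallyEq` and `MvPolynomial.funext`), contradiction.
-/

open MvPolynomial Topology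

noncomputable section

namespace Pool.Agent.H13.SM

variable {ι K : Type} [Field K] [Algebra ℂ K]

theorem eq_zero_of_eventually {n : ℕ} {p : MvPolynomial (Fin n) ℂ} {y₀ : Fin n → ℂ}
    (h : ∀ᶠ y in 𝓝 y₀, eval y p = 0) : p = 0 := by
  have h1 : (fun y : Fin n → ℂ => eval y p) = fun y => eval y (0 : MvPolynomial (Fin n) ℂ) := by
    refine AnalyticOnNhd.eq_of_eventuallyEq (AnalyticOnNhd.eval_mvPolynomial p)
      (AnalyticOnNhd.eval_mvPolynomial 0) (z₀ := y₀) ?_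
    filter_upwards [h] with y hy
    rw [hy, map_zero]
  exact MvPolynomial.funext fun x => congrFun h1 x

theorem not_eventually_zero [Finite ι] {a : ι → K}
    (ha : IntermediateField.adjoin ℂ (Set.range a) = ⊤) {n : ℕ} {z : Fin n → K}
    (hz : IsTranscendenceBasis ℂ z) {w : ι → ℂ} (hw : w ∈ pts a) {Q : MvPolynomial ι ℂ}
    (hQ : aeval a Q ≠ 0) : ¬ ∀ᶠ y in 𝓝 w, y ∈ pts a → eval y Q = 0 := by
  intro h
  obtain ⟨b, B, hb, hB, hint⟩ := exists_noether ha hz
  obtain ⟨p, hp, hp0⟩ := exists_monic hint Q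
  have hpne : p ≠ 0 := hp.ne_zero
  obtain ⟨q, hq⟩ : (Polynomial.X : Polynomial (MvPolynomial (Fin n) ℂ)) ^ p.natTrailingDegree ∣ p := by
    rw [Polynomial.X_pow_dvd_iff]
    intro d hd
    exact Polynomial.coeff_eq_zero_of_lt_natTrailingDegree hd
  have hq0 : q.coeff 0 ≠ 0 := by
    have h1 : p.coeff p.natTrailingDegree ≠ 0 :=
      Polynomial.coeff_natTrailingDegree_ne_zero.mpr hpne
    intro h2
    apply h1
    have h3 : p.coeff (0 + p.natTrailingDegree) =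
        (Polynomial.X ^ p.natTrailingDegree * q).coeff (0 + p.natTrailingDegree) := by
      rw [← hq]
    rw [Polynomial.coeff_X_pow_mul, h2, zero_add] at h3
    exact h3
  have hqroot : (q.map (aeval b : MvPolynomial (Fin n) ℂ →ₐ[ℂ] K).toRingHom).eval (aeval a Q) = 0 := by
    rw [hq, Polynomial.map_mul, Polynomial.map_pow, Polynomial.map_X, Polynomial.eval_mul,
      Polynomial.eval_pow, Polynomial.eval_X] at hp0
    exact (mul_eq_zero.mp hp0).resolve_left (pow_ne_zero _ hQ)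
  apply hq0
  apply eq_zero_of_eventually (y₀ := fun j => eval w (B j))
  have hU : {y : ι → ℂ | y ∈ pts a → eval y Q = 0} ∈ 𝓝 w := h
  filter_upwards [open_at hb hB hint hw hU] with y hy
  obtain ⟨w', ⟨hw', hU'⟩, rfl⟩ := hy
  have h1 := root_at hB hqroot hw'
  rw [hU' hw', ← Polynomial.coeff_zero_eq_eval_zero, Polynomial.coeff_map] at h1
  exact h1

end Pool.Agent.H13.SM

end
end

section

/-!
# A chart at a smooth point of an affine variety

PROOF.  Let `I, σ` be as in `exists_implicit` (the `f j` vanish at `w` since `w ∈ pts a`).  Only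
`∀ᶠ u in 𝓝 0, σ u ∈ pts a` is left, and the last clause.

The ideal `{Q | aeval a Q = 0}` is generated by finitely many `g 1, ..., g r` (noetherian).  Suppose
that `h u = eval (σ u) (g k)` is not eventually `0` near `0` for some `k`; `h` is analytic at `0` and
`h 0 = eval w (g k) = 0`.  Let `W` be as in `exists_null`; shrink it to an open neighbourhood of `0` on
which `σ` is analytic.  The points `y ∈ pts a` near `w`, say `y ∈ U`, are `σ (u y)` with
`u y k = y (I k) - w (I k)`, `u y ∈ W`, and `h (u y) = eval y (g k) = 0`.  So with `b, B` of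
`exists_noether` the image of `pts a ∩ U` under `y ↦ (eval y (B j))_j` is contained in the image of the
null set `{u ∈ W | h u = 0}` under the map `u ↦ (eval (σ u) (B j))_j`, which is differentiable on `W`:
it is null (`MeasureTheory.addHaar_image_eq_zero_of_differentiableOn_of_addHaar_eq_zero`, over `ℝ`).  But
it is a neighbourhood of a point by `open_at`, so it has positive measure (`IsOpen.measure_pos`).
So all `g k` vanish on `σ u` for `u` near `0`, hence all `Q` with `aeval a Q = 0` do (`Q = ∑ c_k g k`,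
`Submodule.span_induction` or `Ideal.mem_span_range_iff_exists_fun`).

Last clause: if `eval (σ u) Q = 0` for `u` near `0` then, as `u y → 0` for `y → w`, `eval y Q = 0` for
`y ∈ pts a` near `w`, against `not_eventually_zero`.
-/

open MvPolynomial Topology

noncomputable section

namespace Pool.Agent.H13.SM

variable {ι K : Type} [Field K] [Algebra ℂ K]

/-- A polynomial which vanishes at the generic point vanishes along the chart. -/
private theorem Aff_key [Fintype ι] {a : ι → K}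
    (ha : IntermediateField.adjoin ℂ (Set.range a) = ⊤)
    {n : ℕ} {z : Fin n → K} (hz : IsTranscendenceBasis ℂ z)
    {w : ι → ℂ} (hw : w ∈ pts a) {I : Fin n → ι} {σ : (Fin n → ℂ) → ι → ℂ}
    (hσ : AnalyticAt ℂ σ 0) (hσ0 : σ 0 = w)
    (hpt : ∀ᶠ y in 𝓝 w, y ∈ pts a → y = σ (fun k => y (I k) - w (I k)))
    (Q : MvPolynomial ι ℂ) (hQ : aeval a Q = 0) : ∀ᶠ u in 𝓝 0, eval (σ u) Q = 0 := by
  classical
  by_contra hne
  obtain ⟨b, B, hb, hB, hint⟩ := exists_noether ha hz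
  have hcont : ∀ R : MvPolynomial ι ℂ, AnalyticAt ℂ (fun y : ι → ℂ => eval y R) (σ 0) := by
    intro R
    exact AnalyticOnNhd.eval_mvPolynomial R (σ 0) (Set.mem_univ _)
  have hh : AnalyticAt ℂ (fun u => eval (σ u) Q) 0 :=
    AnalyticAt.fun_comp (f := σ) (g := fun y : ι → ℂ => eval y Q) (hcont Q) hσ
  have h0 : eval (σ 0) Q = 0 := by
    rw [hσ0]
    exact hw Q hQ
  obtain ⟨W, hW, hnull⟩ := exists_null hh h0 hne
  -- an open neighbourhood on which `σ` is analytic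
  have hWσ : ∀ᶠ u in 𝓝 (0 : Fin n → ℂ), u ∈ W ∧ AnalyticAt ℂ σ u :=
    (Filter.eventually_of_mem hW fun u hu => hu).and hσ.eventually_analyticAt
  obtain ⟨W', hW'sub, hW'open, hW'0⟩ := mem_nhds_iff.1 hWσ
  have hκ : Filter.Tendsto (fun (y : ι → ℂ) (k : Fin n) => y (I k) - w (I k)) (𝓝 w) (𝓝 0) := by
    have hc : Continuous fun (y : ι → ℂ) (k : Fin n) => y (I k) - w (I k) := by fun_prop
    have := hc.tendsto w
    have h00 : (fun k : Fin n => w (I k) - w (I k)) = 0 := by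
      ext k
      simp
    rwa [h00] at this
  have hU : {y : ι → ℂ | (y ∈ pts a → y = σ (fun k => y (I k) - w (I k))) ∧
      (fun k => y (I k) - w (I k)) ∈ W'} ∈ 𝓝 w :=
    hpt.and (hκ (hW'open.mem_nhds hW'0))
  have himg := open_at hb hB hint hw hU
  set N : Set (Fin n → ℂ) := {u | u ∈ W' ∧ eval (σ u) Q = 0} with hN
  have hNnull : MeasureTheory.volume N = 0 := by
    refine MeasureTheory.measure_mono_null ?_ hnull
    rintro u ⟨hu, hu'⟩
    exact ⟨(hW'sub hu).1, hu'⟩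
  have hdiff : DifferentiableOn ℝ (fun (u : Fin n → ℂ) (j : Fin n) => eval (σ u) (B j)) N := by
    intro u hu
    have hσu : AnalyticAt ℂ σ u := (hW'sub hu.1).2
    have hF : AnalyticAt ℂ (fun (u : Fin n → ℂ) (j : Fin n) => eval (σ u) (B j)) u := by
      refine analyticAt_pi_iff.2 fun j => ?_
      exact AnalyticAt.fun_comp (f := σ) (g := fun y : ι → ℂ => eval y (B j))
        (AnalyticOnNhd.eval_mvPolynomial (B j) (σ u) (Set.mem_univ _)) hσu
    exact (hF.differentiableAt.restrictScalars ℝ).differentiableWithinAt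
  have h1 := MeasureTheory.addHaar_image_eq_zero_of_differentiableOn_of_addHaar_eq_zero
    MeasureTheory.volume hdiff hNnull
  have h2 : (fun (w' : ι → ℂ) (j : Fin n) => eval w' (B j)) '' (pts a ∩
      {y : ι → ℂ | (y ∈ pts a → y = σ (fun k => y (I k) - w (I k))) ∧
      (fun k => y (I k) - w (I k)) ∈ W'}) ⊆
      (fun (u : Fin n → ℂ) (j : Fin n) => eval (σ u) (B j)) '' N := by
    rintro _ ⟨y, ⟨hya, hy1, hy2⟩, rfl⟩
    have hy := hy1 hya
    refine ⟨fun k => y (I k) - w (I k), ⟨hy2, ?_⟩, ?_⟩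
    · rw [← hy]
      exact hya Q hQ
    · simp only
      rw [← hy]
  have h3 : MeasureTheory.volume ((fun (w' : ι → ℂ) (j : Fin n) => eval w' (B j)) '' (pts a ∩
      {y : ι → ℂ | (y ∈ pts a → y = σ (fun k => y (I k) - w (I k))) ∧
      (fun k => y (I k) - w (I k)) ∈ W'})) = 0 :=
    MeasureTheory.measure_mono_null h2 h1
  exact (MeasureTheory.Measure.measure_pos_of_mem_nhds MeasureTheory.volume himg).ne' h3

theorem exists_chart [Fintype ι] {a : ι → K} (ha : IntermediateField.adjoin ℂ (Set.range a) = ⊤)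
    {n : ℕ} {z : Fin n → K} (hz : IsTranscendenceBasis ℂ z) {c : ℕ}
    (hcn : c + n = Fintype.card ι) {f : Fin c → MvPolynomial ι ℂ} (hf : ∀ j, aeval a (f j) = 0)
    {w : ι → ℂ} (hw : w ∈ pts a)
    (hli : LinearIndependent ℂ fun (j : Fin c) (i : ι) => eval w (pderiv i (f j))) :
    ∃ (I : Fin n → ι) (σ : (Fin n → ℂ) → ι → ℂ), AnalyticAt ℂ σ 0 ∧ σ 0 = w ∧
      (∀ᶠ u in 𝓝 0, σ u ∈ pts a ∧ ∀ k, σ u (I k) = w (I k) + u k) ∧
      (∀ᶠ y in 𝓝 w, y ∈ pts a → y = σ (fun k => y (I k) - w (I k))) ∧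
      ∀ Q : MvPolynomial ι ℂ, aeval a Q ≠ 0 → ¬ ∀ᶠ u in 𝓝 0, eval (σ u) Q = 0 := by
  obtain ⟨I, σ, hσ, hσ0, hev, hnear⟩ := exists_implicit hcn (fun j => hw (f j) (hf j)) hli
  have hpt : ∀ᶠ y in 𝓝 w, y ∈ pts a → y = σ (fun k => y (I k) - w (I k)) := by
    filter_upwards [hnear] with y hy hya
    exact hy fun j => hya (f j) (hf j)
  have key := Aff_key ha hz hw hσ hσ0 hpt
  have hall : ∀ᶠ u in 𝓝 (0 : Fin n → ℂ), σ u ∈ pts a := by
    obtain ⟨S, hS⟩ := IsNoetherian.noetherian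
      (RingHom.ker ((aeval a : MvPolynomial ι ℂ →ₐ[ℂ] K) : MvPolynomial ι ℂ →+* K))
    have h1 : ∀ᶠ u in 𝓝 (0 : Fin n → ℂ), ∀ g ∈ S, eval (σ u) g = 0 := by
      rw [Filter.eventually_all_finset]
      intro g hg
      refine key g ?_
      have : g ∈ RingHom.ker ((aeval a : MvPolynomial ι ℂ →ₐ[ℂ] K) : MvPolynomial ι ℂ →+* K) := by
        rw [← hS]
        exact Submodule.subset_span hg
      simpa [RingHom.mem_ker] using this
    filter_upwards [h1] with u hu Q hQ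
    have hle : RingHom.ker ((aeval a : MvPolynomial ι ℂ →ₐ[ℂ] K) : MvPolynomial ι ℂ →+* K) ≤
        RingHom.ker (eval (σ u)) := by
      rw [← hS]
      refine Ideal.span_le.2 fun g hg => ?_
      exact hu g hg
    exact hle (by simpa [RingHom.mem_ker] using hQ)
  refine ⟨I, σ, hσ, hσ0, ?_, hpt, ?_⟩
  · filter_upwards [hall, hev] with u hu1 hu2
    exact ⟨hu1, hu2.2⟩
  · intro Q hQ hz0
    refine not_eventually_zero ha hz hw hQ ?_
    have hκ : Filter.Tendsto (fun (y : ι → ℂ) (k : Fin n) => y (I k) - w (I k)) (𝓝 w) (𝓝 0) := by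
      have hc : Continuous fun (y : ι → ℂ) (k : Fin n) => y (I k) - w (I k) := by fun_prop
      have := hc.tendsto w
      have h00 : (fun k : Fin n => w (I k) - w (I k)) = 0 := by
        ext k
        simp
      rwa [h00] at this
    filter_upwards [hpt, hκ.eventually hz0] with y hy1 hy2 hya
    have hy := hy1 hya
    rw [hy]
    exact hy2

end Pool.Agent.H13.SM

end
end

section

/-!
# The uniform modulus of continuity of holomorphic discs
-/

open Topology Filter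

namespace Pool.Agent.H17

variable {N : ℕ}

/-- Composition with a holomorphic function. -/
lemma HolomorphicInto.comp {f : ℂ → PN N} {V U : Set ℂ} (hf : HolomorphicInto f V) {u : ℂ → ℂ}
    (hu : ∀ z ∈ U, AnalyticAt ℂ u z) (hUV : ∀ z ∈ U, u z ∈ V) :
    HolomorphicInto (fun z => f (u z)) U := by
  intro z₀ hz₀
  obtain ⟨φ, hφ, he⟩ := hf (u z₀) (hUV z₀ hz₀)
  exact ⟨fun z => φ (u z), hφ.comp (hu z₀ hz₀), (hu z₀ hz₀).continuousAt.eventually he⟩

end Pool.Agent.H17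

end

section

/-!
# Lifts bounded on discs and the characteristic

`F` is a lift (zeros allowed) of a curve on the disc of radius `R`, `‖F‖ ≤ 1`, `F 0 ≠ 0`; `F₀` is a lift without zeros.  Then the
mean value of `log ‖F₀‖` over the circle of radius `r < R` is at most `log ‖F₀ 0‖ - log ‖F 0‖` (Jensen's formula).
-/

set_option autoImplicit false

namespace Pool.Agent.H13.OT

open Filter Topology Metric Real
open Pool.Agent.H17BP

variable {V : Type} [NormedAddCommGroup V] [NormedSpace ℂ V]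

/-- the mean value of `log |φ|` over a circle is at least the value in the centre -/
theorem log_le_average {φ : ℂ → ℂ} {r : ℝ} (hr : 0 < r) (h : AnalyticOnNhd ℂ φ (closedBall 0 r)) (h0 : φ 0 ≠ 0) :
    Real.log ‖φ 0‖ ≤ circleAverage (fun z => Real.log ‖φ z‖) 0 r := by
  have hrr : |r| = r := abs_of_pos hr
  have h1 : AnalyticOnNhd ℂ φ (closedBall 0 |r|) := by rwa [hrr]
  have h2 := h1.circleAverage_log_norm hr.ne' h0
  rw [h2]
  have h3 : 0 ≤ ∑ᶠ u, MeromorphicOn.divisor φ (closedBall 0 |r|) u * Real.log (r * ‖0 - u‖⁻¹) := by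
    refine finsum_nonneg fun u => ?_
    by_cases hu : u ∈ closedBall (0 : ℂ) |r|
    · have h4 : (0 : ℤ) ≤ MeromorphicOn.divisor φ (closedBall 0 |r|) u :=
        (MeromorphicOn.AnalyticOnNhd.divisor_nonneg h1) u
      have h5 : (0 : ℝ) ≤ MeromorphicOn.divisor φ (closedBall 0 |r|) u := by exact_mod_cast h4
      refine mul_nonneg h5 ?_
      by_cases hu0 : u = 0
      · simp [hu0]
      · apply Real.log_nonneg
        have h6 : 0 < ‖0 - u‖ := by simpa using hu0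
        rw [← div_eq_mul_inv, le_div_iff₀ h6, one_mul]
        rw [mem_closedBall, dist_zero_right, hrr] at hu
        simpa using hu
    · have : MeromorphicOn.divisor φ (closedBall 0 |r|) u = 0 := by
        exact Function.locallyFinsuppWithin.apply_eq_zero_of_notMem _ hu
      rw [this]
      simp
  linarith

theorem average_le {f F F₀ : ℂ → V} {ρ r : ℝ} (hr : 0 < r) (hrρ : r < ρ) (hF : DifferentiableOn ℂ F (ball 0 ρ))
    (hF1 : ∀ z ∈ ball (0 : ℂ) ρ, ‖F z‖ ≤ 1) (h0 : F 0 ≠ 0) (hFf : ∀ z ∈ ball (0 : ℂ) ρ, F z = 0 ∨ Pr (f z) (F z))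
    (hF₀ : DifferentiableOn ℂ F₀ (ball 0 ρ)) (hF₀f : ∀ z ∈ ball (0 : ℂ) ρ, F₀ z ≠ 0 ∧ Pr (f z) (F₀ z)) :
    circleAverage (fun z => Real.log ‖F₀ z‖) 0 r ≤ Real.log ‖F₀ 0‖ - Real.log ‖F 0‖ := by
  classical
  have hex : ∀ z : ℂ, ∃ a : ℂ, z ∈ ball (0 : ℂ) ρ → F z = a • F₀ z := by
    intro z
    by_cases hz : z ∈ ball (0 : ℂ) ρ
    · rcases hFf z hz with h | ⟨c, hc, h⟩
      · exact ⟨0, fun _ => by rw [h, zero_smul]⟩
      · obtain ⟨-, c', hc', h'⟩ := hF₀f z hz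
        refine ⟨c⁻¹ * c', fun _ => ?_⟩
        rw [mul_smul, ← h', h, smul_smul, inv_mul_cancel₀ hc, one_smul]
    · exact ⟨0, fun h => absurd h hz⟩
  choose φ heq using hex
  have hloc' : ∀ z₀ ∈ ball (0 : ℂ) ρ, AnalyticAt ℂ φ z₀ := by
    intro z₀ hz₀
    have hne : F₀ z₀ ≠ 0 := (hF₀f z₀ hz₀).1
    obtain ⟨ℓ, -, hℓ⟩ := exists_dual_vector ℂ (F₀ z₀) (norm_ne_zero_iff.2 hne)
    have hℓ0 : ℓ (F₀ z₀) ≠ 0 := by
      rw [hℓ]
      exact Complex.ofReal_ne_zero.2 (norm_ne_zero_iff.2 hne)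
    have hnhds : ball (0 : ℂ) ρ ∈ 𝓝 z₀ := isOpen_ball.mem_nhds hz₀
    have ha : AnalyticAt ℂ (fun z => ℓ (F z)) z₀ := by
      have h1 : DifferentiableOn ℂ (fun z => ℓ (F z)) (ball 0 ρ) := fun z hz =>
        (ℓ.differentiableAt.comp_differentiableWithinAt z (hF z hz))
      exact h1.analyticAt hnhds
    have ha₀ : AnalyticAt ℂ (fun z => ℓ (F₀ z)) z₀ := by
      have h1 : DifferentiableOn ℂ (fun z => ℓ (F₀ z)) (ball 0 ρ) := fun z hz =>
        (ℓ.differentiableAt.comp_differentiableWithinAt z (hF₀ z hz))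
      exact h1.analyticAt hnhds
    refine (ha.div ha₀ hℓ0).congr ?_
    filter_upwards [hnhds, ha₀.continuousAt.eventually_ne hℓ0] with z hz h1
    simp only [Pi.div_apply]
    rw [heq z hz, map_smul, smul_eq_mul, mul_div_cancel_right₀ _ h1]
  have hnorm : ∀ z ∈ ball (0 : ℂ) ρ, ‖φ z‖ * ‖F₀ z‖ ≤ 1 := by
    intro z hz
    rw [← norm_smul, ← heq z hz]
    exact hF1 z hz
  have h0m : (0 : ℂ) ∈ ball (0 : ℂ) ρ := mem_ball_self (hr.trans hrρ)
  have hφ0 : φ 0 ≠ 0 := by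
    intro h
    apply h0
    rw [heq 0 h0m, h, zero_smul]
  have hsub : closedBall (0 : ℂ) r ⊆ ball 0 ρ := closedBall_subset_ball hrρ
  have hsph : sphere (0 : ℂ) |r| ⊆ ball 0 ρ := by
    rw [abs_of_pos hr]
    exact sphere_subset_closedBall.trans hsub
  have hφan : AnalyticOnNhd ℂ φ (closedBall 0 r) := fun z hz => hloc' z (hsub hz)
  have hφsp : AnalyticOnNhd ℂ φ (sphere 0 |r|) := fun z hz => hloc' z (hsph hz)
  have hJ := log_le_average hr hφan hφ0
  -- the zeros of `φ` on the circle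
  set f₁ : ℂ → ℝ := fun z => if φ z = 0 then -Real.log ‖F₀ z‖ else Real.log ‖φ z‖ with hf₁
  have hcod : (fun z => Real.log ‖φ z‖) =ᶠ[codiscreteWithin (sphere (0 : ℂ) |r|)] f₁ := by
    have h1 : ∀ᶠ z in codiscreteWithin (closedBall (0 : ℂ) r), φ z ≠ 0 := by
      have h2 : φ ⁻¹' {0}ᶜ ∈ codiscreteWithin (closedBall (0 : ℂ) r) :=
        hφan.preimage_zero_mem_codiscreteWithin (x := 0) hφ0 (mem_closedBall_self hr.le)
          (isConnected_closedBall hr.le)
      exact h2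
    have h3 : ∀ᶠ z in codiscreteWithin (sphere (0 : ℂ) |r|), φ z ≠ 0 := by
      refine (codiscreteWithin_mono ?_) h1
      rw [abs_of_pos hr]
      exact sphere_subset_closedBall
    filter_upwards [h3] with z hz
    rw [hf₁]
    simp [hz]
  have hint : CircleIntegrable (fun z => Real.log ‖φ z‖) 0 r := hφsp.meromorphicOn.circleIntegrable_log_norm
  have hint₁ : CircleIntegrable f₁ 0 r := hint.congr_codiscreteWithin hcod
  have havg : circleAverage (fun z => Real.log ‖φ z‖) 0 r = circleAverage f₁ 0 r :=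
    circleAverage_congr_codiscreteWithin hcod hr.ne'
  have hHint : CircleIntegrable (fun z => Real.log ‖F₀ z‖) 0 r := by
    refine ContinuousOn.circleIntegrable' ?_
    exact ((hF₀.continuousOn.mono hsph).norm).log fun z hz => norm_ne_zero_iff.mpr (hF₀f z (hsph hz)).1
  have hle : circleAverage (fun z => Real.log ‖F₀ z‖) 0 r ≤ circleAverage (fun z => -f₁ z) 0 r := by
    refine circleAverage_mono hHint hint₁.neg fun z hz => ?_
    by_cases h : φ z = 0
    · simp [hf₁, h]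
    · have h1 : 0 < ‖φ z‖ := norm_pos_iff.mpr h
      have h2 : 0 < ‖F₀ z‖ := norm_pos_iff.mpr (hF₀f z (hsph hz)).1
      have h3 := hnorm z (hsph hz)
      have h4 : Real.log (‖φ z‖ * ‖F₀ z‖) ≤ 0 := Real.log_nonpos (by positivity) h3
      rw [Real.log_mul h1.ne' h2.ne'] at h4
      simp only [hf₁, h, if_false]
      linarith
  have hneg : circleAverage (fun z => -f₁ z) 0 r = -circleAverage f₁ 0 r := by
    have h := circleAverage_fun_smul (a := (-1 : ℝ)) (f := f₁) (c := 0) (R := r)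
    simpa using h
  have h5 : Real.log ‖F 0‖ = Real.log ‖φ 0‖ + Real.log ‖F₀ 0‖ := by
    rw [heq 0 h0m, norm_smul, Real.log_mul (norm_ne_zero_iff.mpr hφ0) (norm_ne_zero_iff.mpr (hF₀f 0 h0m).1)]
  rw [hneg, ← havg] at hle
  linarith

end Pool.Agent.H13.OT

end

section

/-!
# The same exceptional set

If holomorphic maps from the punctured disc to a surface extend, unless they are maps into a hypersurface, then they
extend unless they are maps into the set which contains the entire curves.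
-/

open Topology Filter MvPolynomial

noncomputable section

namespace Pool.Agent.H17BP

open Pool.Agent.H17 (PN VanishesAt ZariskiClosedIn HolomorphicInto puncturedDisc)

variable {N : ℕ} {P : Ideal (MvPolynomial (Fin (N + 1)) ℂ)}

theorem isPreconnected_puncturedDisc : IsPreconnected puncturedDisc := by
  have h : puncturedDisc = Complex.exp '' {z : ℂ | z.re < 0} := by
    ext z
    constructor
    · rintro ⟨h1, h2⟩
      have h3 : z ≠ 0 := h2
      refine ⟨Complex.log z, ?_, Complex.exp_log h3⟩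
      rw [mem_ball_zero_iff] at h1
      change (Complex.log z).re < 0
      rw [Complex.log_re]
      exact Real.log_neg (norm_pos_iff.mpr h3) h1
    · rintro ⟨w, hw, rfl⟩
      refine ⟨?_, Complex.exp_ne_zero w⟩
      rw [mem_ball_zero_iff, Complex.norm_exp]
      have h1 := Real.exp_lt_exp.mpr hw
      rwa [Real.exp_zero] at h1
  rw [h]
  exact (convex_halfSpace_re_lt 0).isPreconnected.image Complex.exp Complex.continuous_exp.continuousOn

end Pool.Agent.H17BP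

end
end

section

/-!
# V Up: an entire curve with bounded derivative has order at most two
-/

set_option autoImplicit false

open Topology Filter Metric

namespace Pool.Agent.H14.V

open Pool.Agent.H36.BP (EN)

variable {N : ℕ}

theorem norm_le_ofLp (x : EN N) : ‖x‖ ≤ Real.sqrt (N + 1) * ‖x.ofLp‖ := by
  rw [EuclideanSpace.norm_eq]
  have h1 : ∑ i, ‖x i‖ ^ 2 ≤ (N + 1) * ‖x.ofLp‖ ^ 2 := by
    calc ∑ i, ‖x i‖ ^ 2 ≤ ∑ _i : Fin (N + 1), ‖x.ofLp‖ ^ 2 :=
          Finset.sum_le_sum fun i _ => pow_le_pow_left₀ (norm_nonneg _) (norm_le_pi_norm x.ofLp i) 2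
      _ = (N + 1) * ‖x.ofLp‖ ^ 2 := by simp
  calc Real.sqrt (∑ i, ‖x i‖ ^ 2) ≤ Real.sqrt ((N + 1) * ‖x.ofLp‖ ^ 2) := Real.sqrt_le_sqrt h1
    _ = Real.sqrt (N + 1) * ‖x.ofLp‖ := by rw [Real.sqrt_mul (by positivity), Real.sqrt_sq (norm_nonneg _)]

/-- from the maximum norm to the Euclidean norm -/
theorem average_toLp {F : ℂ → Fin (N + 1) → ℂ} (hF : Differentiable ℂ F) (h0 : ∀ z, F z ≠ 0) {A : ℝ}
    (hA : ∀ r : ℝ, 0 < r → Real.circleAverage (fun z => Real.log ‖F z‖) 0 r ≤ A * (1 + r ^ 2)) :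
    ∃ A' : ℝ, ∀ r : ℝ, 0 < r → Real.circleAverage (fun z => Real.log ‖(WithLp.toLp 2 (F z) : EN N)‖) 0 r ≤ A' * (1 + r ^ 2) := by
  obtain ⟨K, hK⟩ : ∃ K : ℝ, K = |Real.log (Real.sqrt (N + 1))| := ⟨_, rfl⟩
  refine ⟨A + K, fun r hr => ?_⟩
  have h0' : ∀ z, (WithLp.toLp 2 (F z) : EN N) ≠ 0 := fun z h => h0 z (WithLp.toLp_injective 2 h)
  have hc : Continuous fun z => (WithLp.toLp 2 (F z) : EN N) := (PiLp.continuous_toLp 2 _).comp hF.continuous
  have h1 : Real.circleAverage (fun z => Real.log ‖(WithLp.toLp 2 (F z) : EN N)‖) 0 r ≤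
      Real.circleAverage (fun z => Real.log ‖F z‖ + K) 0 r := by
    refine Real.circleAverage_mono (hc.norm.log fun z => norm_ne_zero_iff.2 (h0' z)).continuousOn.circleIntegrable'
      ((hF.continuous.norm.log fun z => norm_ne_zero_iff.2 (h0 z)).add continuous_const).continuousOn.circleIntegrable' fun z _ => ?_
    have h2 := norm_le_ofLp (WithLp.toLp 2 (F z) : EN N)
    have h3 : 0 < ‖F z‖ := norm_pos_iff.2 (h0 z)
    have h4 : (0 : ℝ) < Real.sqrt (N + 1) := by positivity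
    have h5 := Real.log_le_log (norm_pos_iff.2 (h0' z)) h2
    rw [Real.log_mul h4.ne' (by simpa using h3.ne')] at h5
    have h6 := le_abs_self (Real.log (Real.sqrt (N + 1)))
    rw [← hK] at h6
    show Real.log ‖(WithLp.toLp 2 (F z) : EN N)‖ ≤ Real.log ‖F z‖ + K
    linarith
  have h2 : Real.circleAverage (fun z => Real.log ‖F z‖ + K) 0 r = Real.circleAverage (fun z => Real.log ‖F z‖) 0 r + K := by
    rw [Real.circleAverage_fun_add (hF.continuous.norm.log fun z => norm_ne_zero_iff.2 (h0 z)).continuousOn.circleIntegrable'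
      (circleIntegrable_const _ _ _), Real.circleAverage_const]
  have h3 := hA r hr
  have h4 : 0 ≤ K * r ^ 2 := by rw [hK]; positivity
  nlinarith

end Pool.Agent.H14.V

end

section

/-! # Fermat covers: homogeneity and grading of minimal primes -/

noncomputable section

namespace Pool.Agent.H62.FC

open MvPolynomial

private lemma Components_core {M : Type} [AddCommMonoid M] [LinearOrder M]
    [IsOrderedCancelAddMonoid M] {σ : Type} (w : σ → M) {P : Ideal (MvPolynomial σ ℂ)}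
    {G : Set (MvPolynomial σ ℂ)} (hP : P ∈ (Ideal.span G).minimalPrimes)
    (hG : ∀ g ∈ G, ∀ m, weightedHomogeneousComponent w m g ∈ P) :
    ∀ p ∈ P, ∀ m, weightedHomogeneousComponent w m p ∈ P := by
  classical
  let _ : GradedAlgebra (weightedHomogeneousSubmodule ℂ w) := weightedGradedAlgebra ℂ w
  have hprime : P.IsPrime := hP.1.1
  set Q : Ideal (MvPolynomial σ ℂ) :=
    (P.homogeneousCore (weightedHomogeneousSubmodule ℂ w)).toIdeal with hQ
  have hQprime : Q.IsPrime := hprime.homogeneousCore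
  have hQP : Q ≤ P := Ideal.toIdeal_homogeneousCore_le _ P
  have hGQ : Ideal.span G ≤ Q := by
    rw [Ideal.span_le]
    intro g hg
    rw [← sum_weightedHomogeneousComponent w g,
      finsum_eq_sum _ (weightedHomogeneousComponent_finsupp g)]
    refine Q.sum_mem fun m _ => ?_
    exact Ideal.mem_homogeneousCore_of_homogeneous_of_mem
      ⟨m, weightedHomogeneousComponent_mem w g m⟩ (hG g hg m)
  have hPQ : P ≤ Q := hP.2 ⟨hQprime, hGQ⟩ hQP
  have heq : Q = P := le_antisymm hQP hPQ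
  have hhom : P.IsHomogeneous (weightedHomogeneousSubmodule ℂ w) := by
    rw [← heq]
    exact HomogeneousIdeal.isHomogeneous _
  intro p hp m
  exact weightedHomogeneousComponent_mem_of_mem ℂ w hhom hp m

variable {N : ℕ} {κ : Type} {A : κ → MvPolynomial (Fin (N + 1)) ℂ} {e : κ → ℕ}
  {P : Ideal (MvPolynomial (Fin (N + 1)) ℂ)}

theorem homog_of_minimal (hA : ∀ l, (A l).IsHomogeneous (e l))
    (hP : P ∈ (Ideal.span (Set.range A)).minimalPrimes) : Homog P := by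
  classical
  intro p hp n
  refine Components_core (w := (1 : Fin (N + 1) → ℕ)) hP ?_ p hp n
  rintro g ⟨l, rfl⟩ m
  have h1 : A l ∈ P := hP.1.2 (Ideal.subset_span ⟨l, rfl⟩)
  have h2 : weightedHomogeneousComponent (1 : Fin (N + 1) → ℕ) m (A l) =
      if m = e l then A l else 0 := by
    have h3 := homogeneousComponent_of_mem (m := m)
      ((mem_homogeneousSubmodule _ _).2 (hA l))
    rw [homogeneousComponent] at h3
    exact h3
  rw [h2]
  split_ifs
  · exact h1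
  · exact P.zero_mem

end Pool.Agent.H62.FC

end
end

section

/-!
# MQ/KF: forms along a curve

`ldr Q d F`: the modulus of the logarithmic derivative of the form `Q` of degree `d` along `F`.  `k2_form`, `k2_crv`: the mean of `log (1 + ldr)` over the
annulus `R < |z| < e R` is at most `C + 4 π log (1 + En F R)`.
-/

set_option autoImplicit false

open Topology Filter Metric MvPolynomial MeasureTheory

noncomputable section

namespace Pool.Agent.MQ

open Pool.Agent.H36.BP (EN)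

variable {M : ℕ} {P : Ideal (MvPolynomial (Fin (M + 1)) ℂ)} {FF : Set (EN M × EN M)}

/-! ## forms -/

theorem nt_form_le {d : ℕ} {Q : MvPolynomial (Fin (M + 1)) ℂ} (hQ : Q.IsHomogeneous d) :
    ∃ C : ℝ, 1 ≤ C ∧ ∀ x : EN M, ‖eval x.ofLp Q‖ ≤ C * ‖x‖ ^ d := by
  refine ⟨1 + ∑ m ∈ Q.support, ‖coeff m Q‖, by
    have : 0 ≤ ∑ m ∈ Q.support, ‖coeff m Q‖ := Finset.sum_nonneg fun _ _ => norm_nonneg _
    linarith, fun x => ?_⟩
  have h1 : ‖eval x.ofLp Q‖ ≤ (∑ m ∈ Q.support, ‖coeff m Q‖) * ‖x‖ ^ d := by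
    rw [MvPolynomial.eval_eq', Finset.sum_mul]
    refine (norm_sum_le _ _).trans (Finset.sum_le_sum fun m hm => ?_)
    rw [norm_mul, norm_prod]
    refine mul_le_mul_of_nonneg_left ?_ (norm_nonneg _)
    have hdeg : ∑ i, m i = d := by
      have := hQ (MvPolynomial.mem_support_iff.1 hm)
      rw [Finsupp.weight_apply] at this
      simpa [Finsupp.sum_fintype] using this
    rw [← hdeg, ← Finset.prod_pow_eq_pow_sum]
    refine Finset.prod_le_prod (fun _ _ => norm_nonneg _) fun i _ => ?_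
    rw [norm_pow]
    exact pow_le_pow_left₀ (norm_nonneg _) (PiLp.norm_apply_le x i) _
  have h2 : 0 ≤ ‖x‖ ^ d := by positivity
  linarith

/-! ## the logarithmic derivative -/

end Pool.Agent.MQ

end
end

section

/-!
# MQ2 AlgConv: a formal solution of an analytic equation converges

`f (t, ∑ c i t^i) = 0` formally, `f` analytic and not `0`: the series `∑ c i t^i` converges.
-/

set_option autoImplicit false

open Topology Filter Asymptotics

noncomputable section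

namespace Pool.Agent.MQ2.AC

open Pool.Agent.MQ (jet)

/-! ## divisibility by `t ^ n` -/

/-- `g` is divisible by `t ^ n` near `0` -/
def Dv (n : ℕ) (g : ℂ → ℂ) : Prop := ∃ k : ℂ → ℂ, AnalyticAt ℂ k 0 ∧ ∀ᶠ t in 𝓝 (0 : ℂ), g t = t ^ n * k t

/-- `g` has a zero of order `n` at `0` -/
def Oq (n : ℕ) (g : ℂ → ℂ) : Prop := ∃ k : ℂ → ℂ, AnalyticAt ℂ k 0 ∧ k 0 ≠ 0 ∧ ∀ᶠ t in 𝓝 (0 : ℂ), g t = t ^ n * k t

theorem Dv.congr {n : ℕ} {g h : ℂ → ℂ} (hg : Dv n g) (e : ∀ᶠ t in 𝓝 (0 : ℂ), h t = g t) : Dv n h := by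
  obtain ⟨k, h1, h2⟩ := hg
  exact ⟨k, h1, by filter_upwards [h2, e] with t a b; rw [b, a]⟩

theorem Dv.add {n : ℕ} {g h : ℂ → ℂ} (hg : Dv n g) (hh : Dv n h) : Dv n fun t => g t + h t := by
  obtain ⟨k, h1, h2⟩ := hg
  obtain ⟨l, h3, h4⟩ := hh
  exact ⟨fun t => k t + l t, h1.add h3, by filter_upwards [h2, h4] with t a b; rw [a, b]; ring⟩

theorem Dv.sub {n : ℕ} {g h : ℂ → ℂ} (hg : Dv n g) (hh : Dv n h) : Dv n fun t => g t - h t := by
  obtain ⟨k, h1, h2⟩ := hg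
  obtain ⟨l, h3, h4⟩ := hh
  exact ⟨fun t => k t - l t, h1.sub h3, by filter_upwards [h2, h4] with t a b; rw [a, b]; ring⟩

theorem Dv.mono {m n : ℕ} (hmn : m ≤ n) {g : ℂ → ℂ} (hg : Dv n g) : Dv m g := by
  obtain ⟨k, h1, h2⟩ := hg
  obtain ⟨d, rfl⟩ := Nat.exists_eq_add_of_le hmn
  exact ⟨fun t => t ^ d * k t, (analyticAt_id.pow d).mul h1, by filter_upwards [h2] with t a; rw [a, pow_add]; ring⟩

theorem Dv.pow_mul {n : ℕ} (a : ℕ) {g : ℂ → ℂ} (hg : Dv n g) : Dv (a + n) fun t => t ^ a * g t := by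
  obtain ⟨k, h1, h2⟩ := hg
  exact ⟨k, h1, by filter_upwards [h2] with t a; rw [a, pow_add]; ring⟩

theorem Dv.zero {n : ℕ} {g : ℂ → ℂ} (hg : Dv (n + 1) g) : g 0 = 0 := by
  obtain ⟨k, _, h2⟩ := hg
  rw [h2.self_of_nhds, zero_pow (Nat.succ_ne_zero n), zero_mul]

theorem Dv.isBigO {n : ℕ} {g : ℂ → ℂ} (hg : Dv n g) : g =O[𝓝 0] fun t => t ^ n := by
  obtain ⟨k, h1, h2⟩ := hg
  have h3 : k =O[𝓝 0] fun _ => (1 : ℂ) := h1.continuousAt.isBigO_one ℂ
  have h4 : (fun t : ℂ => t ^ n * k t) =O[𝓝 0] fun t => t ^ n * 1 := (isBigO_refl _ _).mul h3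
  refine (h4.congr' ?_ ?_)
  · filter_upwards [h2] with t a
    rw [a]
  · filter_upwards with t
    rw [mul_one]

theorem not_eventually_iff {g : ℂ → ℂ} (hg : AnalyticAt ℂ g 0) (h : ¬ ∀ᶠ t in 𝓝 (0 : ℂ), g t = 0) : ∃ n, Oq n g := by
  have h1 : analyticOrderAt g 0 ≠ ⊤ := fun h2 => h (analyticOrderAt_eq_top.1 h2)
  obtain ⟨n, hn⟩ := ENat.ne_top_iff_exists.1 h1
  obtain ⟨k, hk, hk0, he⟩ := (hg.analyticOrderAt_eq_natCast).1 hn.symm
  exact ⟨n, k, hk, hk0, by filter_upwards [he] with t a; rw [a, sub_zero, smul_eq_mul]⟩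

theorem Oq.dv_iff {n m : ℕ} {g : ℂ → ℂ} (h : Oq n g) (hd : Dv m g) : m ≤ n := by
  by_contra hlt
  rw [not_le] at hlt
  obtain ⟨k, h1, h2, h3⟩ := h
  obtain ⟨l, h4, h5⟩ := hd
  obtain ⟨d, rfl⟩ := Nat.exists_eq_add_of_lt hlt
  have h6 : ∀ᶠ t in 𝓝[≠] (0 : ℂ), k t = t ^ (d + 1) * l t := by
    filter_upwards [h3.filter_mono nhdsWithin_le_nhds, h5.filter_mono nhdsWithin_le_nhds, self_mem_nhdsWithin] with t a b ht
    have ht' : t ^ n ≠ 0 := pow_ne_zero _ ht
    have : t ^ n * k t = t ^ n * (t ^ (d + 1) * l t) := by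
      rw [← a, b]; ring
    exact mul_left_cancel₀ ht' this
  have h7 : Tendsto k (𝓝[≠] 0) (𝓝 (k 0)) := h1.continuousAt.tendsto.mono_left nhdsWithin_le_nhds
  have h8 : Tendsto (fun t : ℂ => t ^ (d + 1) * l t) (𝓝[≠] 0) (𝓝 ((0 : ℂ) ^ (d + 1) * l 0)) :=
    ((continuousAt_id.pow _).mul h4.continuousAt).tendsto.mono_left nhdsWithin_le_nhds
  have h9 := tendsto_nhds_unique (h7.congr' h6) h8
  rw [zero_pow (Nat.succ_ne_zero d), zero_mul] at h9
  exact h2 h9

theorem dv_of_isBigO {n : ℕ} {g : ℂ → ℂ} (hg : AnalyticAt ℂ g 0) (h : g =O[𝓝[≠] 0] fun t => t ^ n) : Dv n g := by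
  by_cases h0 : ∀ᶠ t in 𝓝 (0 : ℂ), g t = 0
  · exact ⟨fun _ => 0, analyticAt_const, by filter_upwards [h0] with t a; rw [a, mul_zero]⟩
  · obtain ⟨m, k, h1, h2, h3⟩ := not_eventually_iff hg h0
    by_cases hmn : n ≤ m
    · exact Dv.mono hmn ⟨k, h1, h3⟩
    · exfalso
      rw [not_le] at hmn
      obtain ⟨d, rfl⟩ := Nat.exists_eq_add_of_lt hmn
      obtain ⟨C, hC⟩ := h.bound
      have h4 : ∀ᶠ t in 𝓝[≠] (0 : ℂ), ‖k t‖ ≤ C * ‖t‖ ^ (d + 1) := by
        filter_upwards [hC, h3.filter_mono nhdsWithin_le_nhds, self_mem_nhdsWithin] with t a b ht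
        have ht' : 0 < ‖t‖ ^ m := pow_pos (norm_pos_iff.2 ht) _
        rw [b, norm_mul, norm_pow, norm_pow, show m + d + 1 = m + (d + 1) by ring, pow_add] at a
        have : ‖t‖ ^ m * ‖k t‖ ≤ ‖t‖ ^ m * (C * ‖t‖ ^ (d + 1)) := by linarith
        exact le_of_mul_le_mul_left this ht'
      have h5 : Tendsto (fun t : ℂ => C * ‖t‖ ^ (d + 1)) (𝓝[≠] 0) (𝓝 0) := by
        have h6 : Continuous fun t : ℂ => C * ‖t‖ ^ (d + 1) := by fun_prop
        have h7 := h6.tendsto 0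
        simp only [norm_zero, zero_pow (Nat.succ_ne_zero d), mul_zero] at h7
        exact h7.mono_left nhdsWithin_le_nhds
      have h8 : Tendsto k (𝓝[≠] 0) (𝓝 0) := squeeze_zero_norm' h4 h5
      have h9 : Tendsto k (𝓝[≠] 0) (𝓝 (k 0)) := h1.continuousAt.tendsto.mono_left nhdsWithin_le_nhds
      exact h2 (tendsto_nhds_unique h9 h8)

theorem Dv.cancel {a b : ℕ} {g : ℂ → ℂ} (hg : AnalyticAt ℂ g 0) (h : Dv (a + b) fun t => t ^ a * g t) : Dv b g := by
  obtain ⟨k, h1, h2⟩ := h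
  refine dv_of_isBigO hg ?_
  have h3 : (fun t : ℂ => t ^ b * k t) =O[𝓝[≠] 0] fun t => t ^ b := by
    have : Dv b fun t => t ^ b * k t := ⟨k, h1, Eventually.of_forall fun t => rfl⟩
    exact this.isBigO.mono nhdsWithin_le_nhds
  refine h3.congr' ?_ EventuallyEq.rfl
  filter_upwards [h2.filter_mono nhdsWithin_le_nhds, self_mem_nhdsWithin] with t e ht
  have ht' : t ^ a ≠ 0 := pow_ne_zero _ ht
  refine (mul_left_cancel₀ ht' ?_).symm
  rw [e]; ring

/-! ## substitution -/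

variable {F : ℂ × ℂ → ℂ} {p q : ℂ → ℂ}

theorem analytic_subst (hF : AnalyticAt ℂ F 0) (hp : AnalyticAt ℂ p 0) (hp0 : p 0 = 0) : AnalyticAt ℂ (fun t => F (t, p t)) 0 := by
  have h : ((0 : ℂ), p 0) = 0 := by simp [hp0]
  exact AnalyticAt.fun_comp (g := F) (f := fun t : ℂ => (t, p t)) (by rw [h]; exact hF) (analyticAt_id.prod hp)

theorem tendsto_subst (hp : AnalyticAt ℂ p 0) (hp0 : p 0 = 0) : Tendsto (fun t : ℂ => (t, p t)) (𝓝 0) (𝓝 0) := by
  have h : ContinuousAt (fun t : ℂ => (t, p t)) 0 := continuousAt_id.prodMk hp.continuousAt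
  have h2 : ((0 : ℂ), p 0) = 0 := by simp [hp0]
  have h3 := h.tendsto
  simp only [h2] at h3
  exact h3

/-- Lipschitz -/
theorem dv_subst (hF : AnalyticAt ℂ F 0) (hp : AnalyticAt ℂ p 0) (hp0 : p 0 = 0) (hq : AnalyticAt ℂ q 0) (hq0 : q 0 = 0) {n : ℕ}
    (h : Dv n fun t => p t - q t) : Dv n fun t => F (t, p t) - F (t, q t) := by
  refine dv_of_isBigO ((analytic_subst hF hp hp0).sub (analytic_subst hF hq hq0)) ?_
  obtain ⟨K, s, hs, hK⟩ := hF.hasStrictFDerivAt.exists_lipschitzOnWith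
  refine IsBigO.trans (IsBigO.of_bound (K : ℝ) ?_) (h.isBigO.mono nhdsWithin_le_nhds)
  filter_upwards [((tendsto_subst hp hp0).eventually hs).filter_mono nhdsWithin_le_nhds,
    ((tendsto_subst hq hq0).eventually hs).filter_mono nhdsWithin_le_nhds] with t a b
  have := hK.dist_le_mul _ a _ b
  rw [dist_eq_norm, dist_eq_norm, Prod.mk_sub_mk, sub_self, Prod.norm_mk, norm_zero, max_eq_right (norm_nonneg _)] at this
  exact this

/-- the derivative in the second variable -/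
def dyF (F : ℂ × ℂ → ℂ) (x : ℂ × ℂ) : ℂ := fderiv ℂ F x (0, 1)

theorem analytic_dyF {x : ℂ × ℂ} (hF : AnalyticAt ℂ F x) : AnalyticAt ℂ (dyF F) x :=
  (ContinuousLinearMap.apply ℂ ℂ ((0 : ℂ), (1 : ℂ))).analyticAt _ |>.comp hF.fderiv

theorem hasDerivAt_snd {t y : ℂ} (hF : AnalyticAt ℂ F (t, y)) : HasDerivAt (fun y => F (t, y)) (dyF F (t, y)) y := by
  have h1 : HasDerivAt (fun y : ℂ => (t, y)) ((0 : ℂ), (1 : ℂ)) y := (hasDerivAt_const y t).prodMk (hasDerivAt_id y)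
  exact hF.differentiableAt.hasFDerivAt.comp_hasDerivAt y h1

/-- Taylor's formula -/
theorem dv_taylor (hF : AnalyticAt ℂ F 0) (hp : AnalyticAt ℂ p 0) (hp0 : p 0 = 0) (hq : AnalyticAt ℂ q 0) (hq0 : q 0 = 0) {n : ℕ}
    (h : Dv n fun t => q t - p t) : Dv (n + n) fun t => F (t, q t) - F (t, p t) - dyF F (t, p t) * (q t - p t) := by
  have hdF := analytic_dyF hF
  refine dv_of_isBigO (((analytic_subst hF hq hq0).sub (analytic_subst hF hp hp0)).sub ((analytic_subst hdF hp hp0).mul (hq.sub hp))) ?_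
  obtain ⟨K, s, hs, hK⟩ := hdF.hasStrictFDerivAt.exists_lipschitzOnWith
  obtain ⟨r, hr, hball⟩ := Metric.eventually_nhds_iff_ball.1 (hF.eventually_analyticAt.and hs)
  have e1 : (fun t => (q t - p t) * (q t - p t)) =O[𝓝[≠] 0] fun t : ℂ => t ^ (n + n) := by
    simp only [pow_add]
    exact (h.isBigO.mul h.isBigO).mono nhdsWithin_le_nhds
  refine IsBigO.trans (IsBigO.of_bound (K : ℝ) ?_) e1
  have c1 : ∀ᶠ t in 𝓝 (0 : ℂ), ‖t‖ < r ∧ ‖p t‖ < r / 2 ∧ ‖q t - p t‖ < r / 2 := by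
    have a1 : Tendsto (fun t : ℂ => ‖t‖) (𝓝 0) (𝓝 0) := by simpa using (continuous_norm (E := ℂ)).tendsto 0
    have a2 : Tendsto (fun t : ℂ => ‖p t‖) (𝓝 0) (𝓝 0) := by simpa [hp0] using hp.continuousAt.norm.tendsto
    have a3 : Tendsto (fun t : ℂ => ‖q t - p t‖) (𝓝 0) (𝓝 0) := by simpa [hp0, hq0] using (hq.continuousAt.sub hp.continuousAt).norm.tendsto
    exact (a1.eventually (gt_mem_nhds hr)).and ((a2.eventually (gt_mem_nhds (half_pos hr))).and (a3.eventually (gt_mem_nhds (half_pos hr))))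
  filter_upwards [c1.filter_mono nhdsWithin_le_nhds] with t ht
  obtain ⟨t1, t2, t3⟩ := ht
  have hmem : ∀ y ∈ Metric.closedBall (p t) ‖q t - p t‖, ((t, y) : ℂ × ℂ) ∈ Metric.ball (0 : ℂ × ℂ) r := by
    intro y hy
    rw [mem_closedBall_iff_norm] at hy
    rw [mem_ball_zero_iff, Prod.norm_mk]
    refine max_lt t1 ?_
    calc ‖y‖ = ‖(y - p t) + p t‖ := by ring_nf
      _ ≤ ‖y - p t‖ + ‖p t‖ := norm_add_le _ _
      _ < r := by linarith
  have hpm : p t ∈ Metric.closedBall (p t) ‖q t - p t‖ := Metric.mem_closedBall_self (norm_nonneg _)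
  have hqm : q t ∈ Metric.closedBall (p t) ‖q t - p t‖ := by rw [mem_closedBall_iff_norm]
  have key := Convex.norm_image_sub_le_of_norm_hasDerivWithin_le (f := fun y => F (t, y) - dyF F (t, p t) * y)
    (f' := fun y => dyF F (t, y) - dyF F (t, p t)) (C := K * ‖q t - p t‖) (s := Metric.closedBall (p t) ‖q t - p t‖) (x := p t) (y := q t)
    (fun y hy => by
      have h1 := hasDerivAt_snd (hball _ (hmem y hy)).1
      have h2 : HasDerivAt (fun y : ℂ => dyF F (t, p t) * y) (dyF F (t, p t)) y := by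
        simpa using (hasDerivAt_id y).const_mul (dyF F (t, p t))
      exact (h1.sub h2).hasDerivWithinAt)
    (fun y hy => by
      have h1 := hK.dist_le_mul _ (hball _ (hmem y hy)).2 _ (hball _ (hmem _ hpm)).2
      rw [dist_eq_norm, dist_eq_norm, Prod.mk_sub_mk, sub_self, Prod.norm_mk, norm_zero, max_eq_right (norm_nonneg _)] at h1
      refine h1.trans (mul_le_mul_of_nonneg_left ?_ K.2)
      rwa [mem_closedBall_iff_norm] at hy)
    (convex_closedBall _ _) hpm hqm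
  have e2 : F (t, q t) - F (t, p t) - dyF F (t, p t) * (q t - p t) = F (t, q t) - dyF F (t, p t) * q t - (F (t, p t) - dyF F (t, p t) * p t) := by ring
  rw [e2, norm_mul]
  refine key.trans (le_of_eq ?_)
  ring

/-- division of a function of two variables, pointwise criterion -/
theorem exists_div_pow {H : ℂ × ℂ → ℂ} (hH : AnalyticAt ℂ H 0) {k : ℕ} (h : ∀ᶠ u in 𝓝 (0 : ℂ), Dv k fun t => H (t, u)) :
    ∃ G : ℂ × ℂ → ℂ, AnalyticAt ℂ G 0 ∧ ∀ᶠ x in 𝓝 (0 : ℂ × ℂ), H x = x.1 ^ k * G x := by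
  by_cases h0 : ∀ᶠ x in 𝓝 (0 : ℂ × ℂ), H x = 0
  · exact ⟨fun _ => 0, analyticAt_const, by filter_upwards [h0] with x a; rw [a, mul_zero]⟩
  · obtain ⟨a, G, hG, he, hn⟩ := Pool.Agent.H22.HF.exists_div hH h0
    have hak : k ≤ a := by
      have hc : Tendsto (fun u : ℂ => ((0 : ℂ), u)) (𝓝 0) (𝓝 0) := (by fun_prop : Continuous fun u : ℂ => ((0 : ℂ), u)).tendsto' _ _ rfl
      have h1 : ∀ᶠ u in 𝓝 (0 : ℂ), (∀ᶠ x in 𝓝 ((0 : ℂ), u), H x = x.1 ^ a * G x) ∧ AnalyticAt ℂ G (0, u) :=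
        (hc.eventually he.eventually_nhds).and (hc.eventually hG.eventually_analyticAt)
      have h2 : ∃ᶠ u in 𝓝 (0 : ℂ), G (0, u) ≠ 0 := by simpa [Filter.not_eventually] using hn
      obtain ⟨u, hu, ⟨h3, h4⟩, h5⟩ := (h2.and_eventually (h1.and h)).exists
      have hl : AnalyticAt ℂ (fun t : ℂ => (t, u)) 0 := analyticAt_id.prod analyticAt_const
      have h6 : Oq a fun t => H (t, u) := by
        refine ⟨fun t => G (t, u), AnalyticAt.fun_comp (g := G) (f := fun t : ℂ => (t, u)) h4 hl, hu, ?_⟩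
        exact (hl.continuousAt.tendsto.eventually h3)
      exact h6.dv_iff h5
    obtain ⟨d, rfl⟩ := Nat.exists_eq_add_of_le hak
    exact ⟨fun x => x.1 ^ d * G x, (analyticAt_fst.pow d).mul hG, by filter_upwards [he] with x a; rw [a, pow_add]; ring⟩

/-! ## jets -/

theorem analytic_jet (c : ℕ → ℂ) (n : ℕ) (t : ℂ) : AnalyticAt ℂ (jet c n) t := by
  unfold Pool.Agent.MQ.jet
  exact Finset.analyticAt_fun_sum _ fun i _ => analyticAt_const.mul (analyticAt_id.pow i)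

theorem jet_zero {c : ℕ → ℂ} (hc : c 0 = 0) (n : ℕ) : jet c n 0 = 0 := by
  unfold Pool.Agent.MQ.jet
  rw [Finset.sum_range_succ']
  simp [hc]

theorem jet_add (c : ℕ → ℂ) (n m : ℕ) (t : ℂ) : jet c (n + m) t = jet c n t + t ^ (n + 1) * ∑ i ∈ Finset.range m, c (n + 1 + i) * t ^ i := by
  unfold Pool.Agent.MQ.jet
  rw [show n + m + 1 = (n + 1) + m by ring, Finset.sum_range_add, Finset.mul_sum]
  congr 1
  refine Finset.sum_congr rfl fun i _ => ?_
  rw [pow_add]; ring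

theorem dv_jet (c : ℕ → ℂ) (n m : ℕ) : Dv (n + 1) fun t => jet c (n + m) t - jet c n t := by
  refine ⟨fun t => ∑ i ∈ Finset.range m, c (n + 1 + i) * t ^ i, ?_, Eventually.of_forall fun t => ?_⟩
  · exact Finset.analyticAt_fun_sum _ fun i _ => analyticAt_const.mul (analyticAt_id.pow i)
  · simp only [jet_add]; ring

theorem dv_jet' (c : ℕ → ℂ) {e n m : ℕ} (hn : e ≤ n) (hm : e ≤ m) : Dv (e + 1) fun t => jet c n t - jet c m t := by
  obtain ⟨a, rfl⟩ := Nat.exists_eq_add_of_le hn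
  obtain ⟨b, rfl⟩ := Nat.exists_eq_add_of_le hm
  refine ((dv_jet c e a).sub (dv_jet c e b)).congr (Eventually.of_forall fun t => ?_)
  ring

/-- `F` vanishes along the formal curve -/
def Flat (c : ℕ → ℂ) (F : ℂ × ℂ → ℂ) : Prop := ∀ n, Dv (n + 1) fun t => F (t, jet c n t)

theorem exists_flat {c : ℕ → ℂ} (hc : c 0 = 0) (N : ℕ) : ∀ {g : ℂ × ℂ → ℂ}, AnalyticAt ℂ g 0 → Flat c g → (Oq N fun y => g (0, y)) →
    ∃ F : ℂ × ℂ → ℂ, AnalyticAt ℂ F 0 ∧ Flat c F ∧ ¬ Flat c (dyF F) := by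
  induction N with
  | zero =>
    intro g hg hf ho
    exfalso
    obtain ⟨k, _, hk0, hk⟩ := ho
    have h1 := (hf 0).zero
    simp only [jet_zero hc] at h1
    have h2 := hk.self_of_nhds
    simp only at h2
    rw [h1, pow_zero, one_mul] at h2
    exact hk0 h2.symm
  | succ N ih =>
    intro g hg hf ho
    by_cases hd : Flat c (dyF g)
    · refine ih (analytic_dyF hg) hd ?_
      obtain ⟨k, hk, hk0, he⟩ := ho
      refine ⟨fun y => (N + 1) * k y + y * deriv k y, (analyticAt_const.mul hk).add (analyticAt_id.mul hk.deriv), ?_, ?_⟩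
      · simp only [zero_mul, add_zero]
        exact mul_ne_zero (by exact_mod_cast Nat.succ_ne_zero N) hk0
      · have hc2 : Tendsto (fun u : ℂ => ((0 : ℂ), u)) (𝓝 0) (𝓝 0) := (by fun_prop : Continuous fun u : ℂ => ((0 : ℂ), u)).tendsto' _ _ rfl
        filter_upwards [he.eventually_nhds, hc2.eventually hg.eventually_analyticAt, hk.eventually_analyticAt] with y a b d
        have h1 := hasDerivAt_snd b
        have h2 : HasDerivAt (fun y : ℂ => y ^ (N + 1) * k y) (((N + 1 : ℕ) : ℂ) * y ^ N * k y + y ^ (N + 1) * deriv k y) y := by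
          have h3 : HasDerivAt (fun y : ℂ => y ^ (N + 1) * k y) _ y := (hasDerivAt_pow (N + 1) y).mul d.differentiableAt.hasDerivAt
          refine h3.congr_deriv ?_
          simp
        have h4 := (h1.congr_of_eventuallyEq (f₁ := fun y => y ^ (N + 1) * k y) (by filter_upwards [a] with z hz; rw [hz])).unique h2
        rw [h4]
        push_cast
        ring
    · exact ⟨g, hg, hf, hd⟩

/-- the main step -/
theorem main {F : ℂ × ℂ → ℂ} (hF : AnalyticAt ℂ F 0) {c : ℕ → ℂ} (hc : c 0 = 0) (hf : Flat c F) (hd : ¬ Flat c (dyF F)) :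
    ∃ s : ℂ → ℂ, AnalyticAt ℂ s 0 ∧ s 0 = 0 ∧ ∀ n, Dv (n + 1) fun t => s t - jet c n t := by
  have hdF := analytic_dyF hF
  -- the order `e` of `∂F/∂y` along the curve
  obtain ⟨e, U, hU, hU0, he, hUe⟩ : ∃ (e : ℕ) (U : ℂ → ℂ), AnalyticAt ℂ U 0 ∧ U 0 ≠ 0 ∧ True ∧
      ∀ᶠ t in 𝓝 (0 : ℂ), dyF F (t, jet c (2 * e + 1) t) = t ^ e * U t := by
    rw [Flat, not_forall] at hd
    obtain ⟨J, hJ⟩ := hd
    have ha : AnalyticAt ℂ (fun t => dyF F (t, jet c J t)) 0 := analytic_subst hdF (analytic_jet c J 0) (jet_zero hc J)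
    obtain ⟨e, ho⟩ := not_eventually_iff ha fun h => hJ ⟨fun _ => 0, analyticAt_const, by filter_upwards [h] with t a; rw [a, mul_zero]⟩
    have heJ : e ≤ J := by
      by_contra hlt
      rw [not_le] at hlt
      obtain ⟨k, h1, h2, h3⟩ := ho
      exact hJ (Dv.mono hlt ⟨k, h1, h3⟩)
    obtain ⟨U₀, h1, h2, h3⟩ := ho
    obtain ⟨κ, h4, h5⟩ := dv_subst hdF (analytic_jet c (2 * e + 1) 0) (jet_zero hc _) (analytic_jet c J 0) (jet_zero hc J)
      (dv_jet' c (e := e) (n := 2 * e + 1) (m := J) (by omega) heJ)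
    refine ⟨e, fun t => U₀ t + t * κ t, h1.add (analyticAt_id.mul h4), ?_, trivial, ?_⟩
    · simpa using h2
    · filter_upwards [h3, h5] with t a b
      have : dyF F (t, jet c (2 * e + 1) t) = (dyF F (t, jet c (2 * e + 1) t) - dyF F (t, jet c J t)) + dyF F (t, jet c J t) := by ring
      rw [this, b, a, pow_succ]
      ring
  set p : ℂ → ℂ := jet c (2 * e + 1) with hp
  have hpa : AnalyticAt ℂ p 0 := analytic_jet c _ 0
  have hp0 : p 0 = 0 := jet_zero hc _
  -- the function `H (t, u) = F (t, p t + t ^ (e + 1) u)`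
  set H : ℂ × ℂ → ℂ := fun x => F (x.1, p x.1 + x.1 ^ (e + 1) * x.2) with hH
  have hm0 : AnalyticAt ℂ (fun x : ℂ × ℂ => (x.1, p x.1 + x.1 ^ (e + 1) * x.2)) 0 := by
    have h1 : AnalyticAt ℂ (fun x : ℂ × ℂ => p x.1) 0 := AnalyticAt.fun_comp (g := p) (f := fun x : ℂ × ℂ => x.1) (x := 0) hpa analyticAt_fst
    exact analyticAt_fst.prod (h1.add ((analyticAt_fst.pow _).mul analyticAt_snd))
  have hHa : AnalyticAt ℂ H 0 := by
    have h2 : ((0 : ℂ × ℂ).1, p (0 : ℂ × ℂ).1 + (0 : ℂ × ℂ).1 ^ (e + 1) * (0 : ℂ × ℂ).2) = 0 := by simp [hp0]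
    exact AnalyticAt.fun_comp (g := F) (f := fun x : ℂ × ℂ => (x.1, p x.1 + x.1 ^ (e + 1) * x.2)) (by rw [h2]; exact hF) hm0
  have hT : ∀ u : ℂ, Dv (2 * e + 2) fun t => H (t, u) - t ^ (2 * e + 1) * (U t * u) := by
    intro u
    have hqa : AnalyticAt ℂ (fun t => p t + t ^ (e + 1) * u) 0 := hpa.add ((analyticAt_id.pow _).mul analyticAt_const)
    have hq0 : (fun t => p t + t ^ (e + 1) * u) 0 = 0 := by simp [hp0]
    have h1 := dv_taylor (n := e + 1) hF hpa hp0 hqa hq0 ⟨fun _ => u, analyticAt_const, Eventually.of_forall fun t => by ring⟩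
    have h2 := hf (2 * e + 1)
    rw [show e + 1 + (e + 1) = 2 * e + 2 by ring] at h1
    rw [show 2 * e + 1 + 1 = 2 * e + 2 by ring] at h2
    refine (h1.add h2).congr ?_
    filter_upwards [hUe] with t ht
    rw [← hp, ht]
    simp only [hH]
    ring
  obtain ⟨G, hG, hGe⟩ := exists_div_pow hHa (k := 2 * e + 1) (Eventually.of_forall fun u => by
    have h1 : Dv (2 * e + 1) fun t => t ^ (2 * e + 1) * (U t * u) := ⟨fun t => U t * u, hU.mul analyticAt_const, Eventually.of_forall fun t => rfl⟩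
    refine (((hT u).mono (by omega)).add h1).congr (Eventually.of_forall fun t => ?_)
    ring)
  -- `G (0, u) = U (0) u`
  have hG0 : ∀ᶠ u in 𝓝 (0 : ℂ), G (0, u) = U 0 * u := by
    have hc : Tendsto (fun u : ℂ => ((0 : ℂ), u)) (𝓝 0) (𝓝 0) := (by fun_prop : Continuous fun u : ℂ => ((0 : ℂ), u)).tendsto' _ _ rfl
    filter_upwards [hc.eventually hGe.eventually_nhds, hc.eventually hG.eventually_analyticAt] with u h1 h2
    have hl : AnalyticAt ℂ (fun t : ℂ => (t, u)) 0 := analyticAt_id.prod analyticAt_const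
    have h3 : AnalyticAt ℂ (fun t => G (t, u)) 0 := AnalyticAt.fun_comp (g := G) (f := fun t : ℂ => (t, u)) h2 hl
    have h4 : Dv ((2 * e + 1) + 1) fun t => t ^ (2 * e + 1) * (G (t, u) - U t * u) := by
      refine (hT u).congr ?_
      filter_upwards [hl.continuousAt.tendsto.eventually h1] with t ht
      rw [ht]
      ring
    have h5 := (h4.cancel (h3.sub (hU.mul analyticAt_const))).zero
    exact sub_eq_zero.1 h5
  have hG00 : G 0 = 0 := by
    have h1 : G (0, 0) = U 0 * 0 := hG0.self_of_nhds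
    rw [mul_zero] at h1
    exact h1
  -- the inverse of `(t, u) ↦ (t, G (t, u))`
  set Ψ : ℂ × ℂ → ℂ × ℂ := fun x => (x.1, G x) with hΨ
  have hΨa : AnalyticAt ℂ Ψ 0 := analyticAt_fst.prod hG
  have hΨd : HasFDerivAt Ψ ((ContinuousLinearMap.fst ℂ ℂ ℂ).prod (fderiv ℂ G 0)) 0 := hasFDerivAt_fst.prodMk hG.differentiableAt.hasFDerivAt
  have hdG : fderiv ℂ G 0 (0, 1) = U 0 := by
    have h1 : HasDerivAt (fun u => G (0, u)) (dyF G (0, 0)) 0 := hasDerivAt_snd (F := G) (t := 0) (y := 0) hG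
    have h2 : HasDerivAt (fun u : ℂ => U 0 * u) (U 0) 0 := by simpa using (hasDerivAt_id (0 : ℂ)).const_mul (U 0)
    exact h1.unique (h2.congr_of_eventuallyEq hG0)
  obtain ⟨Θ, hΘ, hΘ1, hΘ2, hΘ0⟩ := Pool.Agent.H62.BU.local_inverse hΨa (by
    intro v hv
    rw [hΨd.fderiv] at hv
    simp only [ContinuousLinearMap.prod_apply, ContinuousLinearMap.coe_fst', Prod.mk_eq_zero] at hv
    obtain ⟨a1, a2⟩ := hv
    have a3 : v = v.2 • ((0, 1) : ℂ × ℂ) := by ext <;> simp [a1]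
    rw [a3, map_smul, smul_eq_mul, mul_eq_zero, hdG] at a2
    rcases a2 with a2 | a2
    · rw [a3, a2, zero_smul]
    · exact absurd a2 hU0)
  have hΨ0 : Ψ 0 = 0 := by ext <;> simp [hΨ, hG00]
  rw [hΨ0] at hΘ hΘ2 hΘ0
  set T : ℂ × ℂ → ℂ := fun x => (Θ x).2 with hTd
  have hTa : AnalyticAt ℂ T 0 := AnalyticAt.fun_comp (g := Prod.snd) (f := Θ) analyticAt_snd hΘ
  have hua : AnalyticAt ℂ (fun t => T (t, 0)) 0 := analytic_subst (p := fun _ => 0) hTa analyticAt_const rfl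
  have hu0 : T (0, 0) = 0 := by
    have : Θ (0, 0) = 0 := hΘ0
    simp [hTd, this]
  refine ⟨fun t => p t + t ^ (e + 1) * T (t, 0), hpa.add ((analyticAt_id.pow _).mul hua), by simp [hp0], fun n => ?_⟩
  -- the jets in terms of `u`
  set w : ℂ → ℂ := fun t => t ^ (e + 1) * ∑ i ∈ Finset.range n, c (2 * e + 1 + 1 + i) * t ^ i with hw
  have hwa : AnalyticAt ℂ w 0 := (analyticAt_id.pow _).mul (Finset.analyticAt_fun_sum _ fun i _ => analyticAt_const.mul (analyticAt_id.pow i))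
  have hw0 : w 0 = 0 := by simp [hw]
  have hjet : ∀ t, jet c (2 * e + 1 + n) t = p t + t ^ (e + 1) * w t := by
    intro t
    rw [jet_add, hw]
    simp only
    rw [show 2 * e + 1 + 1 = (e + 1) + (e + 1) by ring, pow_add]
    ring
  have hGw : Dv (n + 1) fun t => G (t, w t) := by
    refine Dv.cancel (a := 2 * e + 1) (analytic_subst hG hwa hw0) ?_
    have h1 := hf (2 * e + 1 + n)
    rw [show 2 * e + 1 + n + 1 = 2 * e + 1 + (n + 1) by ring] at h1
    refine h1.congr ?_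
    filter_upwards [(tendsto_subst hwa hw0).eventually hGe] with t ht
    simp only [hH] at ht
    rw [hjet, ← ht]
  have hGw0 : G (0, w 0) = 0 := by rw [hw0]; exact hG00
  have h2 : Dv (n + 1) fun t => T (t, G (t, w t)) - T (t, 0) :=
    dv_subst hTa (analytic_subst hG hwa hw0) hGw0 analyticAt_const rfl (hGw.congr (Eventually.of_forall fun t => by simp))
  have h3 : ∀ᶠ t in 𝓝 (0 : ℂ), T (t, G (t, w t)) = w t := by
    filter_upwards [(tendsto_subst hwa hw0).eventually hΘ1] with t ht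
    have : Θ (t, G (t, w t)) = (t, w t) := ht
    simp [hTd, this]
  have h4 : Dv (n + 1) fun t => t ^ (e + 1) * (T (t, G (t, w t)) - T (t, 0)) := (h2.pow_mul (e + 1)).mono (by omega)
  have h5 := dv_jet' c (e := n) (n := 2 * e + 1 + n) (m := n) (by omega) le_rfl
  refine (h5.sub h4).congr ?_
  filter_upwards [h3] with t ht
  rw [ht, hjet]
  ring

end Pool.Agent.MQ2.AC

namespace Pool.Agent.MQ2

open Pool.Agent.MQ (jet)
open AC

/-- a formal solution of an analytic equation converges -/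
theorem conv_of_alg {f : ℂ × ℂ → ℂ} (hf : AnalyticAt ℂ f 0) (hne : ¬ ∀ᶠ p in 𝓝 (0 : ℂ × ℂ), f p = 0) {c : ℕ → ℂ} (hc : c 0 = 0)
    (h : ∀ n, (fun t => f (t, jet c n t)) =O[𝓝 0] fun t : ℂ => t ^ (n + 1)) :
    ∃ s : ℂ → ℂ, AnalyticAt ℂ s 0 ∧ s 0 = 0 ∧ (∀ n, (fun t => s t - jet c n t) =O[𝓝 0] fun t : ℂ => t ^ (n + 1)) ∧
      ∀ᶠ t in 𝓝 (0 : ℂ), f (t, s t) = 0 := by
  have hflat : Flat c f := fun n => dv_of_isBigO (analytic_subst hf (analytic_jet c n 0) (jet_zero hc n)) ((h n).mono nhdsWithin_le_nhds)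
  obtain ⟨m, g, hg, hge, hgn⟩ := Pool.Agent.H22.HF.exists_div hf hne
  have hgflat : Flat c g := by
    intro n
    have h1 : Dv (n + 1) fun t => g (t, jet c (n + m) t) := by
      refine Dv.cancel (a := m) (analytic_subst hg (analytic_jet c _ 0) (jet_zero hc _)) ?_
      refine ((hflat (n + m)).mono (by omega)).congr ?_
      filter_upwards [(tendsto_subst (analytic_jet c (n + m) 0) (jet_zero hc _)).eventually hge] with t ht
      exact ht.symm
    have h2 := dv_subst hg (analytic_jet c (n + m) 0) (jet_zero hc _) (analytic_jet c n 0) (jet_zero hc _) (dv_jet c n m)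
    refine (h1.sub h2).congr (Eventually.of_forall fun t => ?_)
    ring
  have hl : AnalyticAt ℂ (fun y : ℂ => ((0 : ℂ), y)) 0 := analyticAt_const.prod analyticAt_id
  have hg0 : AnalyticAt ℂ (fun y => g (0, y)) 0 := AnalyticAt.fun_comp (g := g) (f := fun y : ℂ => ((0 : ℂ), y)) hg hl
  obtain ⟨N, hN⟩ := not_eventually_iff hg0 hgn
  obtain ⟨F, hF, hFf, hFd⟩ := exists_flat hc N hg hgflat hN
  obtain ⟨s, hs, hs0, hsn⟩ := AC.main hF hc hFf hFd
  refine ⟨s, hs, hs0, fun n => (hsn n).isBigO, ?_⟩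
  by_contra hcon
  obtain ⟨e, he⟩ := not_eventually_iff (analytic_subst hf hs hs0) hcon
  have h1 := dv_subst hf hs hs0 (analytic_jet c e 0) (jet_zero hc _) (hsn e)
  have h2 : Dv (e + 1) fun t => f (t, s t) := by
    refine (h1.add (hflat e)).congr (Eventually.of_forall fun t => ?_)
    ring
  have := he.dv_iff h2
  omega

end Pool.Agent.MQ2

end
end

section

/-!
# MQ3 WPoly: the boxes of the normal crossings model

A parametrization `ρ` of the surface over the closed unit bidisc, with values in `coneE P` only there, and immersive off the axes, is an `NCBox`.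
-/

set_option autoImplicit false

open Topology Filter Metric MvPolynomial

noncomputable section

namespace Pool.Agent.MQ3

open Pool.Agent.H36.BP (EN)

variable {N : ℕ} {P : Ideal (MvPolynomial (Fin (N + 1)) ℂ)}

theorem analyticAt_evalE {E : Type*} [NormedAddCommGroup E] [NormedSpace ℂ E] {f : E → EN N} {x : E} (hf : AnalyticAt ℂ f x)
    (Q : MvPolynomial (Fin (N + 1)) ℂ) : AnalyticAt ℂ (fun y => eval (f y).ofLp Q) x := by
  have h1 : ∀ i, AnalyticAt ℂ (fun y => (f y).ofLp i) x := fun i =>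
    ((EuclideanSpace.proj i : EN N →L[ℂ] ℂ).analyticAt _).comp hf
  induction Q using MvPolynomial.induction_on with
  | C a => simpa using (analyticAt_const : AnalyticAt ℂ (fun _ : E => a) x)
  | add p q hp hq => simpa using hp.fun_add hq
  | mul_X p i hp => simpa using hp.fun_mul (h1 i)

end Pool.Agent.MQ3

end
end

section

/-!
# SG51 GC: the limit of the rescaled curves in a chart, and the inequality of the maximum principle

`Res 𝒰 Φ ℓ x₀ m c lam P N`: the rescaled functions `Φ n (c n + lam n * u)` converge, in the sense of `H48.GB.scale`.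
`Yn ℓ Φ n z = (ℓ (Φ n z))⁻¹ • Φ n z` is the normalised curve.
-/

set_option autoImplicit false
set_option linter.unusedSectionVars false

open Topology Filter Metric

noncomputable section

namespace Pool.Agent.SG51

open Pool.Agent.H74.NB

variable {E : Type*} [NormedAddCommGroup E] [NormedSpace ℂ E] {𝒰 : Ultrafilter ℕ}

/-- derivatives converge -/
theorem cc_deriv [CompleteSpace E] {F : ℕ → ℂ → E} {f : ℂ → E} {Ω : Set ℂ}
    (hF : ∀ z₀ ∈ Ω, ∃ ε : ℝ, 0 < ε ∧ ball z₀ ε ⊆ Ω ∧ ∀ᶠ n in (𝒰 : Filter ℕ), DifferentiableOn ℂ (F n) (ball z₀ ε))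
    (hf : DifferentiableOn ℂ f Ω) (h : CC 𝒰 F f Ω) : CC 𝒰 (fun n => deriv (F n)) (deriv f) Ω := by
  intro z₀ hz₀ z hz
  obtain ⟨ε, hε, hs, hd⟩ := hF z₀ hz₀
  have h1 := CC.dslope hd (hf.mono hs) (h.mono hs) hz z₀ (mem_ball_self hε) z hz
  rw [dslope_same] at h1
  refine h1.congr fun n => ?_
  exact dslope_same (F n) (z n)

/-- the rescaled data -/
structure Res (𝒰 : Ultrafilter ℕ) (Φ : ℕ → ℂ → E) (ℓ : E →L[ℂ] ℂ) (x₀ : E) (w : ℂ) (r : ℝ) (m : ℕ) (c : ℕ → ℂ) (lam : ℕ → ℝ) (P : ℂ → ℂ)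
    (N : ℂ → E) : Prop where
  r_pos : 0 < r
  hol : ∀ᶠ n in (𝒰 : Filter ℕ), DifferentiableOn ℂ (Φ n) (ball w r)
  c_lim : Tendsto c 𝒰 (𝓝 w)
  pos : ∀ᶠ n in (𝒰 : Filter ℕ), 0 < lam n
  lim : Tendsto lam 𝒰 (𝓝 0)
  ℓx : ℓ x₀ = 1
  ccP : CC 𝒰 (fun n u => ((lam n : ℂ) ^ m)⁻¹ * ℓ (Φ n (c n + lam n * u))) P Set.univ
  ccN : CC 𝒰 (fun n u => ((lam n : ℂ) ^ (m + 1))⁻¹ • (Φ n (c n + lam n * u) - ℓ (Φ n (c n + lam n * u)) • x₀)) N Set.univ
  P_diff : Differentiable ℂ P
  N_diff : Differentiable ℂ N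

/-- the normalised curve -/
def Yn (ℓ : E →L[ℂ] ℂ) (Φ : ℕ → ℂ → E) (n : ℕ) (z : ℂ) : E := (ℓ (Φ n z))⁻¹ • Φ n z

section res

variable {Φ : ℕ → ℂ → E} {ℓ : E →L[ℂ] ℂ} {x₀ : E} {w : ℂ} {r : ℝ} {m : ℕ} {c : ℕ → ℂ} {lam : ℕ → ℝ} {P : ℂ → ℂ} {N : ℂ → E}

theorem Res.isOpen (h : Res 𝒰 Φ ℓ x₀ w r m c lam P N) : IsOpen {u | P u ≠ 0} :=
  isOpen_ne_fun h.P_diff.continuous continuous_const

theorem Res.tendsto_point (h : Res 𝒰 Φ ℓ x₀ w r m c lam P N) {u₀ : ℂ} {u : ℕ → ℂ} (hu : Tendsto u 𝒰 (𝓝 u₀)) :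
    Tendsto (fun n => c n + lam n * u n) 𝒰 (𝓝 w) := by
  have h1 : Tendsto (fun n => (lam n : ℂ) * u n) 𝒰 (𝓝 ((0 : ℂ) * u₀)) :=
    ((Complex.continuous_ofReal.tendsto' 0 0 (by simp)).comp h.lim).mul hu
  have := h.c_lim.add h1
  simpa using this

theorem Res.ne_zero (h : Res 𝒰 Φ ℓ x₀ w r m c lam P N) {u₀ : ℂ} (hu₀ : P u₀ ≠ 0) {u : ℕ → ℂ} (hu : Tendsto u 𝒰 (𝓝 u₀)) :
    ∀ᶠ n in (𝒰 : Filter ℕ), ℓ (Φ n (c n + lam n * u n)) ≠ 0 := by
  filter_upwards [(h.ccP u₀ (Set.mem_univ _) u hu).eventually_ne hu₀] with n hn h0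
  rw [h0, mul_zero] at hn
  exact hn rfl

/-- the displacement -/
theorem Res.ccρ (h : Res 𝒰 Φ ℓ x₀ w r m c lam P N) :
    CC 𝒰 (fun n u => (lam n : ℂ)⁻¹ • (Yn ℓ Φ n (c n + lam n * u) - x₀)) (fun u => (P u)⁻¹ • N u) {u | P u ≠ 0} := by
  intro u₀ hu₀ u hu
  have h1 := h.ccP u₀ (Set.mem_univ _) u hu
  have h2 := h.ccN u₀ (Set.mem_univ _) u hu
  refine ((h1.inv₀ hu₀).smul h2).congr' ?_
  filter_upwards [h.pos, h.ne_zero hu₀ hu] with n h3 h4
  have h5 : (lam n : ℂ) ≠ 0 := by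
    rw [Ne, Complex.ofReal_eq_zero]
    exact h3.ne'
  rw [Yn, smul_smul, smul_sub, smul_sub, smul_smul, smul_smul]
  congr 1
  · congr 1
    rw [pow_succ]
    field_simp
  · congr 1
    rw [pow_succ]
    field_simp

theorem Res.ccY (h : Res 𝒰 Φ ℓ x₀ w r m c lam P N) :
    CC 𝒰 (fun n u => Yn ℓ Φ n (c n + lam n * u)) (fun _ => x₀) {u | P u ≠ 0} := by
  intro u₀ hu₀ u hu
  have h1 := h.ccρ u₀ hu₀ u hu
  have h2 : Tendsto (fun n => (lam n : ℂ)) 𝒰 (𝓝 0) := (Complex.continuous_ofReal.tendsto' 0 0 (by simp)).comp h.lim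
  have h3 := (h2.smul h1).add_const x₀
  rw [zero_smul, zero_add] at h3
  refine h3.congr' ?_
  filter_upwards [h.pos] with n h3
  have h5 : (lam n : ℂ) ≠ 0 := by
    rw [Ne, Complex.ofReal_eq_zero]
    exact h3.ne'
  rw [smul_inv_smul₀ h5, sub_add_cancel]

/-- the limit in a chart -/
theorem Res.ccQ (h : Res 𝒰 Φ ℓ x₀ w r m c lam P N) {F : Type*} [NormedAddCommGroup F] [NormedSpace ℂ F] {q : E → F}
    (hq : AnalyticAt ℂ q x₀) (hq0 : q x₀ = 0) :
    CC 𝒰 (fun n u => (lam n : ℂ)⁻¹ • q (Yn ℓ Φ n (c n + lam n * u))) (fun u => fderiv ℂ q x₀ ((P u)⁻¹ • N u)) {u | P u ≠ 0} := by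
  intro u₀ hu₀ u hu
  have h1 := h.ccρ u₀ hu₀ u hu
  have h2 : HasFDerivWithinAt q (fderiv ℂ q x₀) Set.univ x₀ := hq.differentiableAt.hasFDerivAt.hasFDerivWithinAt
  have h3 : Tendsto (fun n => ‖(lam n : ℂ)⁻¹‖) 𝒰 atTop := by
    have h4 : Tendsto lam 𝒰 (𝓝[>] 0) := tendsto_nhdsWithin_iff.2 ⟨h.lim, h.pos⟩
    refine (tendsto_inv_nhdsGT_zero.comp h4).congr' ?_
    filter_upwards [h.pos] with n hn
    rw [Function.comp_apply, norm_inv, Complex.norm_real, Real.norm_of_nonneg hn.le]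
  have h0 : Tendsto (fun n => Yn ℓ Φ n (c n + lam n * u n) - x₀) 𝒰 (𝓝 0) := by
    have := (h.ccY u₀ hu₀ u hu).sub_const x₀
    rwa [sub_self] at this
  have h5 := h2.lim (c := fun n => (lam n : ℂ)⁻¹) (d := fun n => Yn ℓ Φ n (c n + lam n * u n) - x₀) h0
    (Eventually.of_forall fun _ => Set.mem_univ _) h1
  refine h5.congr fun n => ?_
  rw [add_sub_cancel, hq0, sub_zero]

/-- the rescaled chart functions are differentiable -/
theorem Res.diffQ (h : Res 𝒰 Φ ℓ x₀ w r m c lam P N) {F : Type*} [NormedAddCommGroup F] [NormedSpace ℂ F] [CompleteSpace F] {q : E → F}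
    (hq : AnalyticAt ℂ q x₀) :
    ∀ z₀ ∈ {u | P u ≠ 0}, ∃ ε : ℝ, 0 < ε ∧ ball z₀ ε ⊆ {u | P u ≠ 0} ∧
      ∀ᶠ n in (𝒰 : Filter ℕ), DifferentiableOn ℂ (fun u => (lam n : ℂ)⁻¹ • q (Yn ℓ Φ n (c n + lam n * u))) (ball z₀ ε) := by
  intro z₀ hz₀
  obtain ⟨ε, hε, hs⟩ := Metric.isOpen_iff.1 h.isOpen z₀ hz₀
  have hK : closedBall z₀ (ε / 2) ⊆ {u | P u ≠ 0} := (closedBall_subset_ball (by linarith)).trans hs
  obtain ⟨δ, hδ, hqd⟩ := Metric.eventually_nhds_iff_ball.1 (hq.eventually_analyticAt)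
  have e1 : ∀ᶠ n in (𝒰 : Filter ℕ), ∀ u ∈ closedBall z₀ (ε / 2), ℓ (Φ n (c n + lam n * u)) ≠ 0 := by
    refine unif_of_seq (isCompact_closedBall _ _) fun y₀ hy₀ y _ hy => ?_
    exact (h.ne_zero (hK hy₀) hy).frequently
  have e2 : ∀ᶠ n in (𝒰 : Filter ℕ), ∀ u ∈ closedBall z₀ (ε / 2), Yn ℓ Φ n (c n + lam n * u) ∈ ball x₀ δ := by
    refine unif_of_seq (isCompact_closedBall _ _) fun y₀ hy₀ y _ hy => ?_
    exact ((h.ccY y₀ (hK hy₀) y hy).eventually (ball_mem_nhds x₀ hδ)).frequently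
  have e3 : ∀ᶠ n in (𝒰 : Filter ℕ), ∀ u ∈ closedBall z₀ (ε / 2), c n + lam n * u ∈ ball w r := by
    refine unif_of_seq (isCompact_closedBall _ _) fun y₀ hy₀ y _ hy => ?_
    exact ((h.tendsto_point hy).eventually (ball_mem_nhds w h.r_pos)).frequently
  refine ⟨ε / 2, by positivity, ball_subset_closedBall.trans hK, ?_⟩
  filter_upwards [e1, e2, e3, h.hol] with n h1 h2 h3 h4 u hu
  have hu' := ball_subset_closedBall hu
  have d1 : DifferentiableAt ℂ (fun u => Φ n (c n + lam n * u)) u :=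
    (h4.differentiableAt (isOpen_ball.mem_nhds (h3 u hu'))).comp u (by fun_prop)
  have d2 : DifferentiableAt ℂ (fun u => ℓ (Φ n (c n + lam n * u))) u := ℓ.differentiableAt.comp u d1
  have d3 : DifferentiableAt ℂ (fun u => Yn ℓ Φ n (c n + lam n * u)) u := (d2.inv (h1 u hu')).smul d1
  have d4 : DifferentiableAt ℂ q (Yn ℓ Φ n (c n + lam n * u)) := (hqd _ (h2 u hu')).differentiableAt
  exact ((d4.comp u d3).const_smul _).differentiableWithinAt

theorem Res.ccQ' (h : Res 𝒰 Φ ℓ x₀ w r m c lam P N) {F : Type*} [NormedAddCommGroup F] [NormedSpace ℂ F] [CompleteSpace F] {q : E → F}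
    (hq : AnalyticAt ℂ q x₀) (hq0 : q x₀ = 0) :
    CC 𝒰 (fun n u => deriv (fun z => q (Yn ℓ Φ n z)) (c n + lam n * u)) (deriv fun u => fderiv ℂ q x₀ ((P u)⁻¹ • N u))
      {u | P u ≠ 0} := by
  have h1 := cc_deriv (h.diffQ hq) (f := fun u => fderiv ℂ q x₀ ((P u)⁻¹ • N u)) (by
    intro u hu
    have d1 : DifferentiableAt ℂ (fun u => (P u)⁻¹ • N u) u := ((h.P_diff u).inv hu).smul (h.N_diff u)
    exact ((fderiv ℂ q x₀).differentiableAt.comp u d1).differentiableWithinAt) (h.ccQ hq hq0)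
  intro u₀ hu₀ u hu
  refine (h1 u₀ hu₀ u hu).congr' ?_
  filter_upwards [h.pos] with n hn
  have h5 : (lam n : ℂ) ≠ 0 := by
    rw [Ne, Complex.ofReal_eq_zero]
    exact hn.ne'
  have e1 : deriv (fun u => (lam n : ℂ)⁻¹ • q (Yn ℓ Φ n (c n + lam n * u))) (u n) =
      (lam n : ℂ)⁻¹ • deriv (fun u => q (Yn ℓ Φ n (c n + lam n * u))) (u n) := by
    exact deriv_const_smul_field _ _
  have e2 : deriv (fun u => q (Yn ℓ Φ n (c n + lam n * u))) (u n) = (lam n : ℂ) • deriv (fun z => q (Yn ℓ Φ n z)) (c n + lam n * u n) := by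
    have e3 := deriv_comp_mul_left (lam n : ℂ) (fun z => q (Yn ℓ Φ n (c n + z))) (u n)
    rw [e3]
    congr 1
    exact deriv_comp_const_add (f := fun z => q (Yn ℓ Φ n z)) (c n) (lam n * u n)
  rw [e1, e2, inv_smul_smul₀ h5]

end res

end Pool.Agent.SG51

end
end

section

/-!
# SG LimV: the limit of the projection is determined by the limit of the coordinates
-/

set_option autoImplicit false

open Topology Filter Metric

noncomputable section

namespace Pool.Agent.SG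

open Pool.Agent.H17BP (IsChart Surface)
open Pool.Agent.SG51 (Res Yn)

variable {E : Type} [NormedAddCommGroup E] [NormedSpace ℂ E] {𝒰 : Ultrafilter ℕ} {Φ : ℕ → ℂ → E} {ℓ : E →L[ℂ] ℂ} {w : ℂ} {r : ℝ} {m : ℕ}
  {c : ℕ → ℂ} {lam : ℕ → ℝ} {P : ℂ → ℂ} {N : ℂ → E} {X : Set E} {σ : ℂ × ℂ → E} {τ : E → ℂ × ℂ}

theorem lim_vec [CompleteSpace E] (hX : Surface X) (hσ : IsChart X σ τ) (h : Res 𝒰 Φ ℓ (σ 0) w r m c lam P N)
    (hΦX : ∀ᶠ n in (𝒰 : Filter ℕ), ∀ z ∈ ball w r, Φ n z ∈ X) :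
    ∃ L : ℂ × ℂ →L[ℂ] E, ∀ u : ℂ, P u ≠ 0 → (P u)⁻¹ • N u = L (fderiv ℂ τ (σ 0) ((P u)⁻¹ • N u)) := by
  set ψ : ℂ × ℂ → E := fun p => (ℓ (σ p))⁻¹ • σ p with hψ
  have hτ0 : τ (σ 0) = 0 := hσ.left.self_of_nhds
  have hℓ0 : ℓ (σ 0) ≠ 0 := by
    rw [h.ℓx]
    exact one_ne_zero
  have hψa : AnalyticAt ℂ ψ 0 := (((ℓ.analyticAt _).comp hσ.σ_an).inv hℓ0).smul hσ.σ_an
  have hψ0 : ψ 0 = σ 0 := by rw [hψ]; simp only; rw [h.ℓx, inv_one, one_smul]
  have hψτ : AnalyticAt ℂ (fun e => ψ (τ e)) (σ 0) := by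
    refine AnalyticAt.comp (g := ψ) (f := τ) ?_ hσ.τ_an
    rw [hτ0]
    exact hψa
  set q : E → E := fun e => ψ (τ e) - σ 0 with hq
  have hqa : AnalyticAt ℂ q (σ 0) := hψτ.sub analyticAt_const
  have hq0 : q (σ 0) = 0 := by rw [hq]; simp only; rw [hτ0, hψ0, sub_self]
  have hDq : ∀ v : E, fderiv ℂ q (σ 0) v = fderiv ℂ ψ 0 (fderiv ℂ τ (σ 0) v) := by
    intro v
    have h1 : HasFDerivAt ψ (fderiv ℂ ψ 0) (τ (σ 0)) := by
      rw [hτ0]
      exact hψa.differentiableAt.hasFDerivAt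
    have h2 := (h1.comp (σ 0) hσ.τ_an.differentiableAt.hasFDerivAt).sub_const (σ 0)
    have h3 : HasFDerivAt q ((fderiv ℂ ψ 0).comp (fderiv ℂ τ (σ 0))) (σ 0) := h2
    rw [h3.fderiv]
    rfl
  refine ⟨fderiv ℂ ψ 0, fun u hu => ?_⟩
  rw [← hDq]
  have t1 := h.ccρ u hu (fun _ => u) tendsto_const_nhds
  have t2 := h.ccQ hqa hq0 u hu (fun _ => u) tendsto_const_nhds
  refine tendsto_nhds_unique t1 (t2.congr' ?_)
  have t3 := h.tendsto_point (u := fun _ => u) (u₀ := u) tendsto_const_nhds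
  have t4 := h.ccY u hu (fun _ => u) tendsto_const_nhds
  have t5 : ContinuousAt (fun e => ℓ (σ (τ e))) (σ 0) := by
    refine ℓ.continuous.continuousAt.comp (ContinuousAt.comp (g := σ) (f := τ) ?_ hσ.τ_an.continuousAt)
    rw [hτ0]
    exact hσ.σ_an.continuousAt
  have t6 : ∀ᶠ e in 𝓝 (σ 0), ℓ (σ (τ e)) ≠ 0 := t5.eventually_ne (by rw [hτ0, h.ℓx]; exact one_ne_zero)
  filter_upwards [h.ne_zero hu (u := fun _ => u) tendsto_const_nhds, t3.eventually (ball_mem_nhds w h.r_pos), hΦX, t4.eventually hσ.right,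
    t4.eventually t6] with n h1 h2 h3 h4 h5
  have h6 : Yn ℓ Φ n (c n + lam n * u) ∈ X := hX.smul _ (h3 _ h2) _ (inv_ne_zero h1)
  obtain ⟨c', hc', h7⟩ := h4 h6
  have h8 : ℓ (Yn ℓ Φ n (c n + lam n * u)) = 1 := by
    rw [Yn, map_smul, smul_eq_mul, inv_mul_cancel₀ h1]
  have h9 : c' * ℓ (σ (τ (Yn ℓ Φ n (c n + lam n * u)))) = 1 := by
    rw [← smul_eq_mul, ← map_smul, ← h7, h8]
  have h10 : c' = (ℓ (σ (τ (Yn ℓ Φ n (c n + lam n * u)))))⁻¹ := eq_inv_of_mul_eq_one_left h9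
  congr 1
  rw [hq]
  simp only
  congr 1
  rw [hψ]
  simp only
  rw [← h10, ← h7]

end Pool.Agent.SG

end
end

section

/-!
# SY BdP: every rescaling at a bubble point has a polynomial limit

`poly_lim`: if `Φ n → (z - w) ^ m • G z` near `w`, `b n → w`, `ρ n → 0`, then suitable multiples of `Φ n (b n + ρ n * ζ)` converge on `ℂ` to a
nonzero vector of polynomials of degree at most `m`.
-/

set_option autoImplicit false

open Topology Filter Metric Polynomial

noncomputable section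

namespace Pool.Agent.SY

open Pool.Agent.H74.NB (CC Obj vec vec_apply it newton weier cc_it exists_lim)

variable {N : ℕ} {𝒰 : Ultrafilter ℕ}

/-- compactness of the vectors of polynomials of degree at most `m` -/
theorem exists_poly_lim {m : ℕ} (p : ℕ → Fin (N + 1) → ℂ[X]) (hd : ∀ n i, (p n i).natDegree ≤ m)
    (h0 : ∀ᶠ n in (𝒰 : Filter ℕ), ∃ i, p n i ≠ 0) :
    ∃ (l : ℕ → ℝ) (P : Fin (N + 1) → ℂ[X]), (∀ᶠ n in (𝒰 : Filter ℕ), 0 < l n) ∧ (∃ i, P i ≠ 0) ∧ (∀ i, (P i).natDegree ≤ m) ∧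
      ∀ (ζ₀ : ℂ) (ζ : ℕ → ℂ), Tendsto ζ 𝒰 (𝓝 ζ₀) → Tendsto (fun n => (l n : ℂ) • vec (p n) (ζ n)) 𝒰 (𝓝 (vec P ζ₀)) := by
  set L : ℕ → ℝ := fun n => ∑ i, ∑ k ∈ Finset.range (m + 1), ‖(p n i).coeff k‖ with hL
  have hL0 : ∀ n, 0 ≤ L n := fun n => Finset.sum_nonneg fun i _ => Finset.sum_nonneg fun k _ => norm_nonneg _
  have hle : ∀ n i, ∀ k ∈ Finset.range (m + 1), ‖(p n i).coeff k‖ ≤ L n := by
    intro n i k hk
    refine (Finset.single_le_sum (f := fun k => ‖(p n i).coeff k‖) (fun k _ => norm_nonneg _) hk).trans ?_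
    exact Finset.single_le_sum (f := fun i => ∑ k ∈ Finset.range (m + 1), ‖(p n i).coeff k‖)
      (fun i _ => Finset.sum_nonneg fun k _ => norm_nonneg _) (Finset.mem_univ i)
  have hLp : ∀ᶠ n in (𝒰 : Filter ℕ), 0 < L n := by
    filter_upwards [h0] with n hn
    obtain ⟨i, hi⟩ := hn
    have h1 : (p n i).coeff (p n i).natDegree ≠ 0 := by
      rw [Polynomial.coeff_natDegree]
      exact Polynomial.leadingCoeff_ne_zero.2 hi
    exact (norm_pos_iff.2 h1).trans_le (hle n i _ (Finset.mem_range.2 (Nat.lt_succ_of_le (hd n i))))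
  have hq : ∀ i, ∀ k ∈ Finset.range (m + 1), ∃ x : ℂ, Tendsto (fun n => (((L n)⁻¹ : ℝ) : ℂ) * (p n i).coeff k) 𝒰 (𝓝 x) := by
    intro i k hk
    obtain ⟨x, -, hx⟩ := exists_lim (𝒰 := 𝒰) (isCompact_closedBall (0 : ℂ) 1) (x := fun n => (((L n)⁻¹ : ℝ) : ℂ) * (p n i).coeff k) (by
      filter_upwards [hLp] with n hn
      rw [mem_closedBall_zero_iff, norm_mul, Complex.norm_real, Real.norm_of_nonneg (inv_nonneg.2 hn.le), inv_mul_le_iff₀ hn, mul_one]
      exact hle n i k hk)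
    exact ⟨x, hx⟩
  choose! q hq using hq
  have hcoef : ∀ i, ∀ k ∈ Finset.range (m + 1), (∑ k ∈ Finset.range (m + 1), C (q i k) * X ^ k : ℂ[X]).coeff k = q i k := by
    intro i k hk
    rw [Polynomial.finsetSum_coeff, Finset.sum_eq_single k]
    · rw [Polynomial.coeff_C_mul, Polynomial.coeff_X_pow, if_pos rfl, mul_one]
    · intro j _ hj
      rw [Polynomial.coeff_C_mul, Polynomial.coeff_X_pow, if_neg (Ne.symm hj), mul_zero]
    · intro h
      exact absurd hk h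
  have hone : ∑ i, ∑ k ∈ Finset.range (m + 1), ‖q i k‖ = 1 := by
    have h1 : Tendsto (fun n => ∑ i, ∑ k ∈ Finset.range (m + 1), ‖(((L n)⁻¹ : ℝ) : ℂ) * (p n i).coeff k‖) 𝒰
        (𝓝 (∑ i, ∑ k ∈ Finset.range (m + 1), ‖q i k‖)) :=
      tendsto_finsetSum _ fun i _ => tendsto_finsetSum _ fun k hk => (hq i k hk).norm
    refine tendsto_nhds_unique h1 (Tendsto.congr' ?_ tendsto_const_nhds)
    filter_upwards [hLp] with n hn
    have h2 : ∀ i k, ‖(((L n)⁻¹ : ℝ) : ℂ) * (p n i).coeff k‖ = (L n)⁻¹ * ‖(p n i).coeff k‖ := by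
      intro i k
      rw [norm_mul, Complex.norm_real, Real.norm_of_nonneg (inv_nonneg.2 hn.le)]
    simp only [h2, ← Finset.mul_sum]
    exact (inv_mul_cancel₀ hn.ne').symm
  refine ⟨fun n => (L n)⁻¹, fun i => ∑ k ∈ Finset.range (m + 1), C (q i k) * X ^ k, ?_, ?_, ?_, ?_⟩
  · exact hLp.mono fun n hn => inv_pos.2 hn
  · by_contra hcon
    push Not at hcon
    have h1 : ∀ i, ∀ k ∈ Finset.range (m + 1), ‖q i k‖ = 0 := by
      intro i k hk
      rw [← hcoef i k hk, hcon i, Polynomial.coeff_zero, norm_zero]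
    have h2 : ∑ i : Fin (N + 1), ∑ k ∈ Finset.range (m + 1), ‖q i k‖ = 0 :=
      Finset.sum_eq_zero fun i _ => Finset.sum_eq_zero fun k hk => h1 i k hk
    rw [hone] at h2
    exact one_ne_zero h2
  · intro i
    refine Polynomial.natDegree_sum_le_of_forall_le _ _ fun k hk => ?_
    exact (Polynomial.natDegree_C_mul_X_pow_le _ _).trans (Nat.lt_succ_iff.1 (Finset.mem_range.1 hk))
  · intro ζ₀ ζ hζ
    have h1 : ∀ i, Tendsto (fun n => (((L n)⁻¹ : ℝ) : ℂ) * (p n i).eval (ζ n)) 𝒰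
        (𝓝 ((∑ k ∈ Finset.range (m + 1), C (q i k) * X ^ k : ℂ[X]).eval ζ₀)) := by
      intro i
      have h2 : (∑ k ∈ Finset.range (m + 1), C (q i k) * X ^ k : ℂ[X]).eval ζ₀ = ∑ k ∈ Finset.range (m + 1), q i k * ζ₀ ^ k := by
        simp [Polynomial.eval_finsetSum]
      rw [h2]
      have h3 : (fun n => (((L n)⁻¹ : ℝ) : ℂ) * (p n i).eval (ζ n)) =
          fun n => ∑ k ∈ Finset.range (m + 1), ((((L n)⁻¹ : ℝ) : ℂ) * (p n i).coeff k) * ζ n ^ k := by
        funext n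
        rw [Polynomial.eval_eq_sum_range' (Nat.lt_succ_of_le (hd n i)), Finset.mul_sum]
        exact Finset.sum_congr rfl fun k _ => by ring
      rw [h3]
      exact tendsto_finsetSum _ fun k hk => (hq i k hk).mul (hζ.pow k)
    have h2 : Tendsto (fun n => (fun i => (((L n)⁻¹ : ℝ) : ℂ) * (p n i).eval (ζ n) : Fin (N + 1) → ℂ)) 𝒰
        (𝓝 (fun i => (∑ k ∈ Finset.range (m + 1), C (q i k) * X ^ k : ℂ[X]).eval ζ₀)) := tendsto_pi_nhds.2 h1
    exact ((PiLp.continuous_toLp 2 (fun _ : Fin (N + 1) => ℂ)).tendsto _).comp h2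

/-- **Every rescaling at a bubble point has a polynomial limit.** -/
theorem poly_lim {Φ : ℕ → ℂ → EuclideanSpace ℂ (Fin (N + 1))} {w : ℂ} {m : ℕ} {G : ℂ → EuclideanSpace ℂ (Fin (N + 1))} {r : ℝ}
    (h : Obj 𝒰 Φ w m G r) {b : ℕ → ℂ} {ρ : ℕ → ℝ} (hb : Tendsto b 𝒰 (𝓝 w)) (hρ : Tendsto ρ 𝒰 (𝓝 0)) :
    ∃ (l : ℕ → ℝ) (P : Fin (N + 1) → ℂ[X]), (∀ᶠ n in (𝒰 : Filter ℕ), 0 < l n) ∧ (∃ i, P i ≠ 0) ∧ (∀ i, (P i).natDegree ≤ m) ∧
      CC 𝒰 (fun n ζ => (l n : ℂ) • Φ n (b n + ρ n * ζ)) (vec P) Set.univ := by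
  obtain ⟨ℓ, hℓ⟩ : ∃ ℓ : EuclideanSpace ℂ (Fin (N + 1)) →L[ℂ] ℂ, ℓ (G w) = 1 := by
    obtain ⟨g, -, hg⟩ := exists_dual_vector ℂ (G w) (norm_ne_zero_iff.2 h.nzG)
    refine ⟨((‖G w‖ : ℂ))⁻¹ • g, ?_⟩
    have : ((‖G w‖ : ℂ)) ≠ 0 := by
      rw [Ne, Complex.ofReal_eq_zero, norm_eq_zero]
      exact h.nzG
    rw [smul_apply, hg, smul_eq_mul]
    exact inv_mul_cancel₀ this
  have hk : DifferentiableOn ℂ (fun z => ℓ (G z)) (ball w r) := ℓ.differentiable.comp_differentiableOn h.holG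
  obtain ⟨r₁, hr₁, hr₁r, hk0⟩ : ∃ r₁, 0 < r₁ ∧ r₁ ≤ r ∧ ∀ z ∈ ball w r₁, ℓ (G z) ≠ 0 := by
    have h1 : ∀ᶠ z in 𝓝 w, ℓ (G z) ≠ 0 :=
      (hk.continuousOn.continuousAt (ball_mem_nhds w h.pos)).eventually_ne (by rw [hℓ]; exact one_ne_zero)
    obtain ⟨s, hs, hs'⟩ := Metric.mem_nhds_iff.1 h1
    exact ⟨min s r, lt_min hs h.pos, min_le_right _ _, fun z hz => hs' (ball_subset_ball (min_le_left _ _) hz)⟩
  have hsub : ball w r₁ ⊆ ball w r := ball_subset_ball hr₁r
  obtain ⟨a, q, ha, hq1, hq2, hq3⟩ := weier (𝒰 := 𝒰) hr₁ (hk.mono hsub) (hk0 w (mem_ball_self hr₁)) m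
    (h := fun n z => ℓ (Φ n z)) (h.hol.mono fun n hn => (ℓ.differentiable.comp_differentiableOn hn).mono hsub) (by
      intro z₀ hz₀ z hz
      have h1 := (ℓ.continuous.tendsto _).comp (h.cc z₀ (hsub hz₀) z hz)
      simpa [Function.comp_def] using h1)
  set r₂ : ℝ := r₁ / 2 with hr₂
  have hr₂0 : 0 < r₂ := by positivity
  have hsub2 : ball w r₂ ⊆ ball w r₁ := ball_subset_ball (by linarith)
  have hqn : ∀ᶠ n in (𝒰 : Filter ℕ), ∀ z ∈ ball w r₂, q n z ≠ 0 := by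
    have h1 := hq3.ne_zero hk0 (isCompact_closedBall w r₂) (closedBall_subset_ball (by linarith))
    exact h1.mono fun n hn z hz => hn z (ball_subset_closedBall hz)
  set F : ℕ → ℂ → EuclideanSpace ℂ (Fin (N + 1)) := fun n z => (q n z)⁻¹ • Φ n z with hFdef
  set g : ℂ → EuclideanSpace ℂ (Fin (N + 1)) := fun z => (ℓ (G z))⁻¹ • G z with hgdef
  have hgw : g w = G w := by simp [hgdef, hℓ]
  have hFd : ∀ᶠ n in (𝒰 : Filter ℕ), DifferentiableOn ℂ (F n) (ball w r₂) := by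
    filter_upwards [hqn, hq1, h.hol] with n h1 h2 h3
    exact ((h2.mono hsub2).inv h1).smul (h3.mono (hsub2.trans hsub))
  have hgd : DifferentiableOn ℂ g (ball w r₂) :=
    ((hk.mono (hsub2.trans hsub)).inv fun z hz => hk0 z (hsub2 hz)).smul (h.holG.mono (hsub2.trans hsub))
  have hFc : CC 𝒰 F (fun z => (z - w) ^ m • g z) (ball w r₂) := by
    intro z₀ hz₀ z hz
    have h1 := ((hq3 z₀ (hsub2 hz₀) z hz).inv₀ (hk0 z₀ (hsub2 hz₀))).smul (h.cc z₀ (hsub (hsub2 hz₀)) z hz)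
    have h2 : (ℓ (G z₀))⁻¹ • (z₀ - w) ^ m • G z₀ = (z₀ - w) ^ m • g z₀ := by
      rw [hgdef, smul_comm]
    rw [h2] at h1
    exact h1
  have hit := cc_it hr₂0 ha hFd hgd hFc
  set c : ℕ → ℕ → EuclideanSpace ℂ (Fin (N + 1)) := fun j n => it (F n) (fun i => a i n) j (a j n) with hcdef
  have hS : CC 𝒰 (fun n => it (F n) (fun i => a i n) m) g (ball w r₂) :=
    ((hit m 0 (by omega)).2).congr fun z _ => by simp
  -- the polynomials
  set A : ℕ → ℕ → ℂ[X] := fun k n => C (b n - a k n) + C (ρ n : ℂ) * X with hA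
  set p : ℕ → Fin (N + 1) → ℂ[X] := fun n i => ∑ j ∈ Finset.range m, (∏ k ∈ Finset.range j, A k n) * C (c j n i) +
    (∏ k ∈ Finset.range m, A k n) * C (G w i) with hp
  have hAd : ∀ k n, (A k n).natDegree ≤ 1 := by
    intro k n
    refine (Polynomial.natDegree_add_le _ _).trans (max_le ?_ ?_)
    · rw [Polynomial.natDegree_C]
      exact zero_le_one
    · exact (Polynomial.natDegree_C_mul_le _ _).trans Polynomial.natDegree_X_le
  have hAp : ∀ j n, (∏ k ∈ Finset.range j, A k n).natDegree ≤ j := by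
    intro j n
    refine (Polynomial.natDegree_prod_le _ _).trans ?_
    refine (Finset.sum_le_sum fun k _ => hAd k n).trans ?_
    simp
  have hpd : ∀ n i, (p n i).natDegree ≤ m := by
    intro n i
    refine (Polynomial.natDegree_add_le _ _).trans (max_le ?_ ?_)
    · refine Polynomial.natDegree_sum_le_of_forall_le _ _ fun j hj => ?_
      exact (Polynomial.natDegree_mul_C_le _ _).trans ((hAp j n).trans (Finset.mem_range.1 hj).le)
    · exact (Polynomial.natDegree_mul_C_le _ _).trans (hAp m n)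
  have hpe : ∀ n (ζ : ℂ), vec (p n) ζ = ∑ j ∈ Finset.range m, (∏ k ∈ Finset.range j, (b n + ρ n * ζ - a k n)) • c j n +
      (∏ k ∈ Finset.range m, (b n + ρ n * ζ - a k n)) • G w := by
    intro n ζ
    have h1 : ∀ k, (A k n).eval ζ = b n + ρ n * ζ - a k n := by
      intro k
      rw [hA]
      simp only [Polynomial.eval_add, Polynomial.eval_C, Polynomial.eval_mul, Polynomial.eval_X]
      ring
    ext i
    rw [vec_apply, hp]
    simp [Polynomial.eval_finsetSum, Polynomial.eval_prod, h1]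
  have hx : ∀ {ζ₀ : ℂ} {ζ : ℕ → ℂ}, Tendsto ζ 𝒰 (𝓝 ζ₀) → Tendsto (fun n => b n + ρ n * ζ n) 𝒰 (𝓝 w) := by
    intro ζ₀ ζ hζ
    have h1 : Tendsto (fun n => (ρ n : ℂ) * ζ n) 𝒰 (𝓝 ((0 : ℂ) * ζ₀)) :=
      ((Complex.continuous_ofReal.tendsto' 0 0 (by simp)).comp hρ).mul hζ
    have := hb.add h1
    simpa using this
  set e : ℕ → ℂ → EuclideanSpace ℂ (Fin (N + 1)) := fun n z => it (F n) (fun i => a i n) m z - G w with he
  have hkey : ∀ᶠ n in (𝒰 : Filter ℕ), ∀ ζ : ℂ, b n + ρ n * ζ ∈ ball w r₂ →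
      F n (b n + ρ n * ζ) = vec (p n) ζ + ℓ (F n (b n + ρ n * ζ)) • e n (b n + ρ n * ζ) := by
    filter_upwards [hqn, hq2] with n h1 h2 ζ h3
    have h4 : ℓ (F n (b n + ρ n * ζ)) = ∏ k ∈ Finset.range m, (b n + ρ n * ζ - a k n) := by
      have h5 := h2 (b n + ρ n * ζ)
      rw [hFdef]
      simp only [map_smul, smul_eq_mul]
      rw [h5]
      field_simp [h1 _ h3]
    rw [h4, hpe, he, smul_sub]
    conv_lhs => rw [newton (F n) (fun i => a i n) m (b n + ρ n * ζ)]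
    abel
  have het : ∀ {ζ₀ : ℂ} {ζ : ℕ → ℂ}, Tendsto ζ 𝒰 (𝓝 ζ₀) → Tendsto (fun n => e n (b n + ρ n * ζ n)) 𝒰 (𝓝 0) := by
    intro ζ₀ ζ hζ
    have h1 := (hS w (mem_ball_self hr₂0) _ (hx hζ)).sub_const (G w)
    rw [hgw, sub_self] at h1
    exact h1
  have hFf : ∀ {ζ₀ : ℂ} {ζ : ℕ → ℂ}, Tendsto ζ 𝒰 (𝓝 ζ₀) → ∀ᶠ n in (𝒰 : Filter ℕ), (1 - ℓ (e n (b n + ρ n * ζ n)) ≠ 0) ∧
      F n (b n + ρ n * ζ n) = vec (p n) (ζ n) + ((1 - ℓ (e n (b n + ρ n * ζ n)))⁻¹ * ℓ (vec (p n) (ζ n))) • e n (b n + ρ n * ζ n) := by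
    intro ζ₀ ζ hζ
    have h1 : Tendsto (fun n => 1 - ℓ (e n (b n + ρ n * ζ n))) 𝒰 (𝓝 1) := by
      have h2 := ((ℓ.continuous.tendsto _).comp (het hζ)).const_sub 1
      rw [map_zero, sub_zero] at h2
      exact h2
    filter_upwards [h1.eventually_ne one_ne_zero, hkey, (hx hζ).eventually (ball_mem_nhds w hr₂0)] with n h2 h3 h4
    refine ⟨h2, ?_⟩
    have h5 := h3 (ζ n) h4
    have h6 : ℓ (F n (b n + ρ n * ζ n)) = (1 - ℓ (e n (b n + ρ n * ζ n)))⁻¹ * ℓ (vec (p n) (ζ n)) := by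
      generalize F n (b n + ρ n * ζ n) = x at h5 ⊢
      have h7 := congrArg ℓ h5
      rw [map_add, map_smul, smul_eq_mul] at h7
      rw [eq_inv_mul_iff_mul_eq₀ h2]
      linear_combination h7
    rw [← h6]
    exact h5
  -- the polynomials are not zero
  have hp0 : ∀ᶠ n in (𝒰 : Filter ℕ), ∃ i, p n i ≠ 0 := by
    filter_upwards [hFf (ζ := fun _ => 0) tendsto_const_nhds, hqn, h.nz, (hx (ζ := fun _ => (0 : ℂ)) tendsto_const_nhds).eventually
      (ball_mem_nhds w hr₂0)] with n h1 h2 h3 h4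
    by_contra hcon
    push Not at hcon
    have h5 : vec (p n) 0 = 0 := by
      ext i
      rw [vec_apply, hcon i]
      simp
    have h6 : F n (b n + ρ n * 0) = 0 := by
      rw [h1.2, h5, map_zero]
      simp
    exact smul_ne_zero (inv_ne_zero (h2 _ h4)) (h3 _ (hsub (hsub2 h4))) h6
  obtain ⟨l, P, hl, hP0, hPd, hPl⟩ := exists_poly_lim p hpd hp0
  refine ⟨l, P, hl, hP0, hPd, ?_⟩
  intro ζ₀ _ ζ hζ
  have h1 := hPl ζ₀ ζ hζ
  have h2 : Tendsto (fun n => (l n : ℂ) • F n (b n + ρ n * ζ n)) 𝒰 (𝓝 (vec P ζ₀)) := by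
    have h3 : Tendsto (fun n => (l n : ℂ) • vec (p n) (ζ n) + ((1 - ℓ (e n (b n + ρ n * ζ n)))⁻¹ * ℓ ((l n : ℂ) • vec (p n) (ζ n))) •
        e n (b n + ρ n * ζ n)) 𝒰 (𝓝 (vec P ζ₀ + ((1 - ℓ 0)⁻¹ * ℓ (vec P ζ₀)) • 0)) := by
      refine h1.add (Tendsto.smul (Tendsto.mul (Tendsto.inv₀ (((ℓ.continuous.tendsto _).comp (het hζ)).const_sub 1) ?_)
        ((ℓ.continuous.tendsto _).comp h1)) (het hζ))
      rw [map_zero, sub_zero]
      exact one_ne_zero
    rw [smul_zero, add_zero] at h3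
    refine h3.congr' ?_
    filter_upwards [hFf hζ] with n h4
    rw [h4.2, smul_add, map_smul, smul_eq_mul, smul_smul]
    congr 2
    ring
  have h3 := (hq3 w (mem_ball_self hr₁) _ (hx hζ)).smul h2
  beta_reduce at h3
  rw [hℓ, one_smul] at h3
  refine h3.congr' ?_
  filter_upwards [hqn, (hx hζ).eventually (ball_mem_nhds w hr₂0)] with n h4 h5
  rw [hFdef]
  simp only
  rw [smul_comm (q n (b n + ρ n * ζ n)), smul_smul (q n (b n + ρ n * ζ n)), mul_inv_cancel₀ (h4 _ h5), one_smul]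

end Pool.Agent.SY

end
end

section

/-!
# SY EiQ: the Euclidean norm on the product
-/

set_option autoImplicit false

noncomputable section

namespace Pool.Agent.SY

open Pool.Agent.H36.BP (EN)

variable {V : Type} [NormedAddCommGroup V] [NormedSpace ℂ V]

/-- The Euclidean norm on the product. -/
theorem exists_equiv_sum {N : ℕ} (L : V ≃L[ℂ] EN N) (r : ℕ) (hr : 0 < r) :
    ∃ (N' : ℕ) (L' : (Fin r → V) ≃L[ℂ] EN N'), ∀ y, ‖L' y‖ ^ 2 = ∑ b, ‖L (y b)‖ ^ 2 := by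
  have hpos : 0 < Module.finrank ℂ (PiLp 2 (fun _ : Fin r => EN N)) := by
    have : Nonempty (Fin r) := ⟨⟨0, hr⟩⟩
    have : Nontrivial (PiLp 2 (fun _ : Fin r => EN N)) :=
      (WithLp.equiv 2 (∀ _ : Fin r, EN N)).nontrivial
    exact Module.finrank_pos
  obtain ⟨N', hN'⟩ : ∃ N', Module.finrank ℂ (PiLp 2 (fun _ : Fin r => EN N)) = N' + 1 :=
    ⟨_, (Nat.succ_pred_eq_of_pos hpos).symm⟩
  let B := (stdOrthonormalBasis ℂ (PiLp 2 (fun _ : Fin r => EN N))).reindex (finCongr hN')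
  refine ⟨N', (ContinuousLinearEquiv.piCongrRight (fun _ : Fin r => L)).trans
    ((PiLp.continuousLinearEquiv 2 ℂ (fun _ : Fin r => EN N)).symm.trans B.repr.toContinuousLinearEquiv), fun y => ?_⟩
  have h1 : ‖((ContinuousLinearEquiv.piCongrRight (fun _ : Fin r => L)).trans
    ((PiLp.continuousLinearEquiv 2 ℂ (fun _ : Fin r => EN N)).symm.trans B.repr.toContinuousLinearEquiv)) y‖ =
      ‖(WithLp.toLp 2 (fun b => L (y b)) : PiLp 2 (fun _ : Fin r => EN N))‖ := by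
    exact B.repr.norm_map _
  rw [h1, PiLp.norm_sq_eq_of_L2]

end Pool.Agent.SY

end
end
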