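import Pool.Agent.H94.G6.M100
import Pool.Agent.H94.G6.M35
import Pool.Agent.H94.G6.M45
import Pool.Agent.H94.G6.M69
import Pool.Agent.H94.G6.M81

/-! The parts of this file: H36.TB.MetB, H36.TB.Met_1, H13.SM.Grad_1, H13.SM.Cone, H13.SM.Surf_1, H90.SG.Poly. -/

section

/-!
# TB MetB: two-sided bounds of the metric near a point of a chart
-/

set_option autoImplicit false

open Topology Filter Metric

namespace Pool.Agent.H36.TB

open Pool.Agent.H36.BP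
open Pool.Agent.H14.PP

variable {N : ℕ} {W : Type*} [NormedAddCommGroup W] [InnerProductSpace ℂ W]
  {X K T : Set (EN N)} {m j : ℕ} {Q : EN N → W} {D : ℕ}

/-- the derivative of the coordinates of the chart `χ` on a vector which comes from the chart `χ₀` -/
theorem fderiv_two (χ₀ χ : Chart X) {y : ℂ × ℂ} (hy : y ∈ ball (0 : ℂ × ℂ) 2) (hU : χ₀.σ y ∈ χ.U) (w : ℂ × ℂ) :
    fderiv ℂ χ.q (χ₀.σ y) (fderiv ℂ χ₀.σ y w) = fderiv ℂ (fun y => χ.q (χ₀.σ y)) y w := by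
  have h1 : HasFDerivAt χ.q (fderiv ℂ χ.q (χ₀.σ y)) (χ₀.σ y) := (χ.q_an _ hU).differentiableAt.hasFDerivAt
  have h2 : HasFDerivAt χ₀.σ (fderiv ℂ χ₀.σ y) y := (χ₀.σ_an y hy).differentiableAt.hasFDerivAt
  have h3 : HasFDerivAt (fun y => χ.q (χ₀.σ y)) ((fderiv ℂ χ.q (χ₀.σ y)).comp (fderiv ℂ χ₀.σ y)) y :=
    HasFDerivAt.comp (g := χ.q) (f := χ₀.σ) y h1 h2
  rw [h3.fderiv]
  rfl

/-- the curve in the direction `w` -/
theorem curve_dir (hK : IsOpenPart X K) (χ₀ : Chart X) {y : ℂ × ℂ} (hy : y ∈ ball (0 : ℂ × ℂ) 2) (hyK : χ₀.σ y ∈ K) (w : ℂ × ℂ) :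
    ∃ F : ℂ → EN N, CurveAt K F 0 ∧ F 0 = χ₀.σ y ∧ deriv F 0 = fderiv ℂ χ₀.σ y w := χ₀.tan hK hy hyK w

variable {Ω : Form K m j} {n : ℕ} {χ : Fin n → Chart X} {nd : Fin n → Bool} {P : Par} {M₀ : ℕ} {δ c₁ c : ℝ}

/-- the value of the near piece -/
theorem nearG_two (χ₀ : Chart X) {i : Fin n} {y : ℂ × ℂ} (hy : y ∈ ball (0 : ℂ × ℂ) 2)
    (hU : χ₀.σ y ∈ (χ i).U) (hq : ‖(χ i).q (χ₀.σ y)‖ ≤ 1) (hρ : rho Q D (χ₀.σ y) ≤ δ) (w : ℂ × ℂ) :
    nearG Ω χ nd P Q D δ i (χ₀.σ y) (fderiv ℂ χ₀.σ y w) = ACoef Ω (χ i) ((χ i).q (χ₀.σ y)) *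
      pM (nd i) P ((χ i).q (χ₀.σ y)) (fderiv ℂ (fun y => (χ i).q (χ₀.σ y)) y w) := by
  rw [nearG_of_mem (χ₀.σ_mem y hy).1 hU hq hρ, fderiv_two χ₀ (χ i) hy hU w]

/-- upper bound of a near piece -/
theorem near_le (hX : IsCone X) (hK : IsOpenPart X K) (hm : 1 ≤ m) (hM : MetP X K T m j Ω Q D n χ nd P M₀ δ c₁ c) (χ₀ : Chart X) {p : ℂ × ℂ}
    (hp : p ∈ ball (0 : ℂ × ℂ) 2) {md : ℂ × ℂ → ℂ × ℂ → ℝ} (hmd : ∀ y w, 0 ≤ md y w) (i : Fin n)
    (hc : χ₀.σ p ∈ (χ i).U → ∃ B : ℝ, 1 ≤ B ∧ ∀ᶠ y in 𝓝 p, ‖(χ i).q (χ₀.σ y)‖ ≤ 1 → ∀ w,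
      sg (nd i) P.κ ((χ i).q (χ₀.σ y)) (fderiv ℂ (fun y => (χ i).q (χ₀.σ y)) y w) ≤ B * md y w) :
    ∃ B : ℝ, 1 ≤ B ∧ ∀ᶠ y in 𝓝 p, χ₀.σ y ∈ K → ∀ w,
      nearG Ω χ nd P Q D δ i (χ₀.σ y) (fderiv ℂ χ₀.σ y w) ≤ B * (ACoef Ω χ₀ y * md y w) := by
  have hnn : ∀ y w, 0 ≤ ACoef Ω χ₀ y * md y w := fun y w => mul_nonneg (ACoef_nonneg _ _ _) (hmd y w)
  by_cases hS : χ₀.σ p ∈ (χ i).U ∧ ‖(χ i).q (χ₀.σ p)‖ ≤ 1
  · obtain ⟨B₁, hB₁, e1⟩ := hc hS.1
    obtain ⟨B₂, hB₂, e2⟩ := ACoef_cmp hX hK hm Ω χ₀ (χ i) hp hS.1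
    refine ⟨B₂ * (2 * B₁), by nlinarith, ?_⟩
    filter_upwards [e1, e2, ch_near χ₀ (χ i) hp hS.1] with y h1 h2 h3 hyK w
    by_cases hdom : ‖(χ i).q (χ₀.σ y)‖ ≤ 1 ∧ rho Q D (χ₀.σ y) ≤ δ
    · rw [nearG_two χ₀ h3.1 h3.2 hdom.1 hdom.2]
      obtain ⟨-, a2⟩ := h2 hyK
      have a3 := (pM_sg hM.conv (nd i) hdom.1 (fderiv ℂ (fun y => (χ i).q (χ₀.σ y)) y w)).2
      have a4 := h1 hdom.1 w
      have a5 : 0 ≤ pM (nd i) P ((χ i).q (χ₀.σ y)) (fderiv ℂ (fun y => (χ i).q (χ₀.σ y)) y w) :=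
        pM_nonneg (zero_le_one.trans hM.conv.M_ge) _ _ _
      calc ACoef Ω (χ i) ((χ i).q (χ₀.σ y)) * pM (nd i) P ((χ i).q (χ₀.σ y)) (fderiv ℂ (fun y => (χ i).q (χ₀.σ y)) y w)
          ≤ (B₂ * ACoef Ω χ₀ y) * (2 * (B₁ * md y w)) :=
            mul_le_mul a2 (a3.trans (mul_le_mul_of_nonneg_left a4 (by norm_num))) a5
              (mul_nonneg (by linarith) (ACoef_nonneg _ _ _))
        _ = B₂ * (2 * B₁) * (ACoef Ω χ₀ y * md y w) := by ring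
    · have h5 : nearG Ω χ nd P Q D δ i (χ₀.σ y) (fderiv ℂ χ₀.σ y w) = 0 := by
        unfold nearG
        rw [if_neg]
        rintro ⟨-, -, a3, a4⟩
        exact hdom ⟨a3, a4⟩
      rw [h5]
      have := hnn y w
      positivity
  · refine ⟨1, le_rfl, ?_⟩
    have hcl := (χ i).isClosed hX (zero_le_one) (by norm_num : (1 : ℝ) < 2)
    have hnot : χ₀.σ p ∉ insert (0 : EN N) {x | x ∈ X ∧ x ∈ (χ i).U ∧ ‖(χ i).q x‖ ≤ 1} := by
      rintro (h0 | ⟨-, h1, h2⟩)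
      · exact χ₀.sigma_ne_zero hX hp h0
      · exact hS ⟨h1, h2⟩
    have hev : ∀ᶠ y in 𝓝 p, χ₀.σ y ∉ insert (0 : EN N) {x | x ∈ X ∧ x ∈ (χ i).U ∧ ‖(χ i).q x‖ ≤ 1} :=
      (χ₀.σ_an p hp).continuousAt.eventually (hcl.isOpen_compl.mem_nhds hnot)
    filter_upwards [hev] with y hy hyK w
    have h5 : nearG Ω χ nd P Q D δ i (χ₀.σ y) (fderiv ℂ χ₀.σ y w) = 0 := by
      unfold nearG
      rw [if_neg]
      rintro ⟨a1, a2, a3, -⟩
      exact hy (Or.inr ⟨a1, a2, a3⟩)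
    rw [h5, one_mul]
    exact hnn y w

/-- lower bound of the near piece of a chart which contains the point -/
theorem le_near (hX : IsCone X) (hK : IsOpenPart X K) (hm : 1 ≤ m) (hQ : IsEq X T Q D) (hM : MetP X K T m j Ω Q D n χ nd P M₀ δ c₁ c)
    (χ₀ : Chart X) {p : ℂ × ℂ}
    (hp : p ∈ ball (0 : ℂ × ℂ) 2) {md : ℂ × ℂ → ℂ × ℂ → ℝ} (i : Fin n)
    (hU : χ₀.σ p ∈ (χ i).U) (hq : ‖(χ i).q (χ₀.σ p)‖ < 1) (hρ : rho Q D (χ₀.σ p) < δ)
    (hc : ∃ B : ℝ, 1 ≤ B ∧ ∀ᶠ y in 𝓝 p, ‖(χ i).q (χ₀.σ y)‖ ≤ 1 → ∀ w,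
      md y w ≤ B * sg (nd i) P.κ ((χ i).q (χ₀.σ y)) (fderiv ℂ (fun y => (χ i).q (χ₀.σ y)) y w)) :
    ∃ B : ℝ, 1 ≤ B ∧ ∀ᶠ y in 𝓝 p, χ₀.σ y ∈ K → ∀ w,
      ACoef Ω χ₀ y * md y w ≤ B * nearG Ω χ nd P Q D δ i (χ₀.σ y) (fderiv ℂ χ₀.σ y w) := by
  obtain ⟨B₁, hB₁, e1⟩ := hc
  obtain ⟨B₂, hB₂, e2⟩ := ACoef_cmp hX hK hm Ω χ₀ (χ i) hp hU
  have e3 : ∀ᶠ y in 𝓝 p, ‖(χ i).q (χ₀.σ y)‖ < 1 := (ch_an χ₀ (χ i) hp hU).continuousAt.norm.eventually (gt_mem_nhds hq)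
  have e4 : ∀ᶠ y in 𝓝 p, rho Q D (χ₀.σ y) < δ := by
    have h1 : ContinuousAt (fun y => rho Q D (χ₀.σ y)) p :=
      ContinuousAt.comp (g := rho Q D) (continuousAt_rho hQ.analytic (χ₀.sigma_ne_zero hX hp)) (χ₀.σ_an p hp).continuousAt
    exact h1.eventually (gt_mem_nhds hρ)
  set b : ℝ := Real.exp (-P.K - 1) with hb
  have hb0 : 0 < b := Real.exp_pos _
  refine ⟨max 1 (B₂ * (B₁ / b)), le_max_left _ _, ?_⟩
  filter_upwards [e1, e2, e3, e4, ch_near χ₀ (χ i) hp hU] with y h1 h2 h3 h4 h5 hyK w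
  rw [nearG_two χ₀ h5.1 h5.2 h3.le h4.le]
  obtain ⟨a1, -⟩ := h2 hyK
  have a3 := (pM_sg hM.conv (nd i) h3.le (fderiv ℂ (fun y => (χ i).q (χ₀.σ y)) y w)).1
  have a4 := h1 h3.le w
  have a5 : 0 ≤ pM (nd i) P ((χ i).q (χ₀.σ y)) (fderiv ℂ (fun y => (χ i).q (χ₀.σ y)) y w) :=
    pM_nonneg (zero_le_one.trans hM.conv.M_ge) _ _ _
  have a6 : 0 ≤ ACoef Ω (χ i) ((χ i).q (χ₀.σ y)) := ACoef_nonneg _ _ _
  have a7 : 0 ≤ ACoef Ω χ₀ y := ACoef_nonneg _ _ _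
  have a8 : md y w ≤ B₁ / b * pM (nd i) P ((χ i).q (χ₀.σ y)) (fderiv ℂ (fun y => (χ i).q (χ₀.σ y)) y w) := by
    refine a4.trans ?_
    rw [div_mul_eq_mul_div, le_div_iff₀ hb0, mul_assoc]
    refine mul_le_mul_of_nonneg_left ?_ (by linarith)
    rw [mul_comm]
    exact a3
  calc ACoef Ω χ₀ y * md y w ≤ ACoef Ω χ₀ y *
        (B₁ / b * pM (nd i) P ((χ i).q (χ₀.σ y)) (fderiv ℂ (fun y => (χ i).q (χ₀.σ y)) y w)) := mul_le_mul_of_nonneg_left a8 a7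
    _ ≤ (B₂ * ACoef Ω (χ i) ((χ i).q (χ₀.σ y))) *
        (B₁ / b * pM (nd i) P ((χ i).q (χ₀.σ y)) (fderiv ℂ (fun y => (χ i).q (χ₀.σ y)) y w)) := by
          refine mul_le_mul_of_nonneg_right a1 ?_
          have : 0 ≤ B₁ / b := by positivity
          positivity
    _ = B₂ * (B₁ / b) * (ACoef Ω (χ i) ((χ i).q (χ₀.σ y)) *
        pM (nd i) P ((χ i).q (χ₀.σ y)) (fderiv ℂ (fun y => (χ i).q (χ₀.σ y)) y w)) := by ring
    _ ≤ _ := mul_le_mul_of_nonneg_right (le_max_right _ _) (mul_nonneg a6 a5)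

/-- the far piece is bounded by the near piece -/
theorem far_le (hX : IsCone X) (hK : IsOpenPart X K) (hQ : IsEq X T Q D) (hM : MetP X K T m j Ω Q D n χ nd P M₀ δ c₁ c)
    (χ₀ : Chart X) {p : ℂ × ℂ} (hp : p ∈ ball (0 : ℂ × ℂ) 2) (i : Fin n)
    (hU : χ₀.σ p ∈ (χ i).U) (hq : ‖(χ i).q (χ₀.σ p)‖ < 1) (hρ : rho Q D (χ₀.σ p) < δ) :
    ∀ᶠ y in 𝓝 p, χ₀.σ y ∈ K → ∀ w, rho Q D (χ₀.σ y) ^ (M₀ + 1) * fs (χ₀.σ y) (fderiv ℂ χ₀.σ y w) ≤
      δ / c * nearG Ω χ nd P Q D δ i (χ₀.σ y) (fderiv ℂ χ₀.σ y w) := by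
  have e3 : ∀ᶠ y in 𝓝 p, ‖(χ i).q (χ₀.σ y)‖ < 1 := (ch_an χ₀ (χ i) hp hU).continuousAt.norm.eventually (gt_mem_nhds hq)
  have e4 : ∀ᶠ y in 𝓝 p, rho Q D (χ₀.σ y) < δ := by
    have h1 : ContinuousAt (fun y => rho Q D (χ₀.σ y)) p :=
      ContinuousAt.comp (g := rho Q D) (continuousAt_rho hQ.analytic (χ₀.sigma_ne_zero hX hp)) (χ₀.σ_an p hp).continuousAt
    exact h1.eventually (gt_mem_nhds hρ)
  filter_upwards [e3, e4, ch_near χ₀ (χ i) hp hU] with y h3 h4 h5 hyK w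
  obtain ⟨F, hF, hF0, hFd⟩ := curve_dir hK χ₀ h5.1 hyK w
  have h6 := hM.low i F 0 hF (by rw [hF0]; exact h5.2) (by rw [hF0]; exact h3.le) (by rw [hF0]; exact h4.le)
  rw [hF0, hFd] at h6
  have hρ0 := rho_nonneg Q D (χ₀.σ y)
  have hfs := fs_nonneg (χ₀.σ y) (fderiv ℂ χ₀.σ y w)
  have hc := hM.c_pos
  have hδ := hM.δ_pos
  have h7 : 0 ≤ rho Q D (χ₀.σ y) ^ M₀ * fs (χ₀.σ y) (fderiv ℂ χ₀.σ y w) := by positivity
  calc rho Q D (χ₀.σ y) ^ (M₀ + 1) * fs (χ₀.σ y) (fderiv ℂ χ₀.σ y w)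
      = rho Q D (χ₀.σ y) * (rho Q D (χ₀.σ y) ^ M₀ * fs (χ₀.σ y) (fderiv ℂ χ₀.σ y w)) := by rw [pow_succ]; ring
    _ ≤ δ * (rho Q D (χ₀.σ y) ^ M₀ * fs (χ₀.σ y) (fderiv ℂ χ₀.σ y w)) := mul_le_mul_of_nonneg_right h4.le h7
    _ = δ / c * (c * rho Q D (χ₀.σ y) ^ M₀ * fs (χ₀.σ y) (fderiv ℂ χ₀.σ y w)) := by field_simp
    _ ≤ _ := mul_le_mul_of_nonneg_left h6 (by positivity)

/-- the bound of all pieces gives the bound of the metric -/
theorem GG_le {p : ℂ × ℂ} (χ₀ : Chart X) (hc₁ : 0 < c₁) {E : ℂ × ℂ → ℂ × ℂ → ℝ} (hE : ∀ y w, 0 ≤ E y w)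
    (hnear : ∀ i, ∃ B : ℝ, 1 ≤ B ∧ ∀ᶠ y in 𝓝 p, χ₀.σ y ∈ K → ∀ w,
      nearG Ω χ nd P Q D δ i (χ₀.σ y) (fderiv ℂ χ₀.σ y w) ≤ B * E y w)
    (hfar : ∃ B : ℝ, 1 ≤ B ∧ ∀ᶠ y in 𝓝 p, χ₀.σ y ∈ K → ∀ w,
      rho Q D (χ₀.σ y) ^ (M₀ + 1) * fs (χ₀.σ y) (fderiv ℂ χ₀.σ y w) ≤ B * E y w) :
    ∃ B : ℝ, 1 ≤ B ∧ ∀ᶠ y in 𝓝 p, χ₀.σ y ∈ K → ∀ w,
      GG Ω χ nd P Q D (M₀ + 1) δ c₁ (χ₀.σ y) (fderiv ℂ χ₀.σ y w) ≤ B * E y w := by
  choose Bs hBs hev using hnear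
  obtain ⟨B', hB', hev'⟩ := hfar
  obtain ⟨B'', hB'', hBB⟩ := exists_ub Bs
  refine ⟨max B' (c₁ * B''), le_max_of_le_left hB', ?_⟩
  filter_upwards [eventually_all.2 hev, hev'] with y h1 h2 hyK w
  obtain ⟨k, hk⟩ := exists_GG_eq (Ω := Ω) (χ := χ) (nd := nd) (P := P) (Q := Q) (D := D) (M' := M₀ + 1) (δ := δ) (c₁ := c₁)
    (χ₀.σ y) (fderiv ℂ χ₀.σ y w)
  rw [hk]
  have hE0 := hE y w
  match k with
  | none => exact (h2 hyK w).trans (mul_le_mul_of_nonneg_right (le_max_left _ _) hE0)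
  | some i =>
    show c₁ * nearG Ω χ nd P Q D δ i (χ₀.σ y) (fderiv ℂ χ₀.σ y w) ≤ _
    calc c₁ * nearG Ω χ nd P Q D δ i (χ₀.σ y) (fderiv ℂ χ₀.σ y w) ≤ c₁ * (Bs i * E y w) :=
          mul_le_mul_of_nonneg_left (h1 i hyK w) hc₁.le
      _ ≤ c₁ * (B'' * E y w) := mul_le_mul_of_nonneg_left (mul_le_mul_of_nonneg_right (hBB i) hE0) hc₁.le
      _ = c₁ * B'' * E y w := by ring
      _ ≤ _ := mul_le_mul_of_nonneg_right (le_max_right _ _) hE0

/-- **The two-sided bound near a point of `T`** with a model `md` which is comparable to the models of the charts. -/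
theorem two_sided (hX : IsCone X) (hK : IsOpenPart X K) (hm : 1 ≤ m) (hQ : IsEq X T Q D) (hM : MetP X K T m j Ω Q D n χ nd P M₀ δ c₁ c)
    (χ₀ : Chart X) {p : ℂ × ℂ} (hp : p ∈ ball (0 : ℂ × ℂ) 2) (hpT : χ₀.σ p ∈ T) {md : ℂ × ℂ → ℂ × ℂ → ℝ} (hmd : ∀ y w, 0 ≤ md y w)
    (hc : ∀ i, χ₀.σ p ∈ (χ i).U → ∃ B : ℝ, 1 ≤ B ∧ ∀ᶠ y in 𝓝 p, ‖(χ i).q (χ₀.σ y)‖ ≤ 1 → ∀ w,
      md y w ≤ B * sg (nd i) P.κ ((χ i).q (χ₀.σ y)) (fderiv ℂ (fun y => (χ i).q (χ₀.σ y)) y w) ∧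
      sg (nd i) P.κ ((χ i).q (χ₀.σ y)) (fderiv ℂ (fun y => (χ i).q (χ₀.σ y)) y w) ≤ B * md y w) :
    ∃ B : ℝ, 1 ≤ B ∧ ∀ᶠ y in 𝓝 p, χ₀.σ y ∈ K → ∀ w,
      ACoef Ω χ₀ y * md y w ≤ B * GG Ω χ nd P Q D (M₀ + 1) δ c₁ (χ₀.σ y) (fderiv ℂ χ₀.σ y w) ∧
      GG Ω χ nd P Q D (M₀ + 1) δ c₁ (χ₀.σ y) (fderiv ℂ χ₀.σ y w) ≤ B * (ACoef Ω χ₀ y * md y w) := by
  have hρ0 : rho Q D (χ₀.σ p) = 0 := (rho_eq_zero_iff (χ₀.sigma_ne_zero hX hp)).2 ((hQ.mem_iff _).1 hpT).2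
  have hρδ : rho Q D (χ₀.σ p) < δ := by rw [hρ0]; exact hM.δ_pos
  obtain ⟨i, hi1, hi2⟩ := hM.cov _ (χ₀.σ_mem p hp).1 hρδ.le
  have hi3 : ‖(χ i).q (χ₀.σ p)‖ < 1 := by linarith
  have hcl : ∀ i, χ₀.σ p ∈ (χ i).U → ∃ B : ℝ, 1 ≤ B ∧ ∀ᶠ y in 𝓝 p, ‖(χ i).q (χ₀.σ y)‖ ≤ 1 → ∀ w,
      sg (nd i) P.κ ((χ i).q (χ₀.σ y)) (fderiv ℂ (fun y => (χ i).q (χ₀.σ y)) y w) ≤ B * md y w := by
    intro i hi
    obtain ⟨B, hB, h⟩ := hc i hi
    exact ⟨B, hB, h.mono fun y hy h1 w => (hy h1 w).2⟩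
  have hnear := fun i => near_le hX hK hm hM χ₀ hp hmd i (hcl i)
  have hfar : ∃ B : ℝ, 1 ≤ B ∧ ∀ᶠ y in 𝓝 p, χ₀.σ y ∈ K → ∀ w,
      rho Q D (χ₀.σ y) ^ (M₀ + 1) * fs (χ₀.σ y) (fderiv ℂ χ₀.σ y w) ≤ B * (ACoef Ω χ₀ y * md y w) := by
    obtain ⟨B, hB, h⟩ := hnear i
    have hcpos := hM.c_pos
    have hδ := hM.δ_pos
    have hδc : 0 ≤ δ / c := by positivity
    refine ⟨max 1 (δ / c * B), le_max_left _ _, ?_⟩
    filter_upwards [h, far_le hX hK hQ hM χ₀ hp i hi1 hi3 hρδ] with y h1 h2 hyK w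
    have h3 : 0 ≤ ACoef Ω χ₀ y * md y w := mul_nonneg (ACoef_nonneg _ _ _) (hmd y w)
    calc _ ≤ δ / c * nearG Ω χ nd P Q D δ i (χ₀.σ y) (fderiv ℂ χ₀.σ y w) := h2 hyK w
      _ ≤ δ / c * (B * (ACoef Ω χ₀ y * md y w)) := mul_le_mul_of_nonneg_left (h1 hyK w) hδc
      _ = δ / c * B * (ACoef Ω χ₀ y * md y w) := by ring
      _ ≤ _ := mul_le_mul_of_nonneg_right (le_max_right _ _) h3
  obtain ⟨B₁, hB₁, h₁⟩ := GG_le χ₀ hM.c₁_pos (E := fun y w => ACoef Ω χ₀ y * md y w)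
    (fun y w => mul_nonneg (ACoef_nonneg _ _ _) (hmd y w)) hnear hfar
  obtain ⟨B₂, hB₂, h₂⟩ := le_near hX hK hm hQ hM χ₀ hp (md := md) i hi1 hi3 hρδ (by
    obtain ⟨B, hB, h⟩ := hc i hi1
    exact ⟨B, hB, h.mono fun y hy h1 w => (hy h1 w).1⟩)
  have hc₁ := hM.c₁_pos
  refine ⟨max B₁ (B₂ / c₁), le_max_of_le_left hB₁, ?_⟩
  filter_upwards [h₁, h₂] with y a1 a2 hyK w
  have hG0 : 0 ≤ GG Ω χ nd P Q D (M₀ + 1) δ c₁ (χ₀.σ y) (fderiv ℂ χ₀.σ y w) := GG_nonneg _ _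
  have h3 : 0 ≤ ACoef Ω χ₀ y * md y w := mul_nonneg (ACoef_nonneg _ _ _) (hmd y w)
  constructor
  · have h4 := pieceG_le_GG (Ω := Ω) (χ := χ) (nd := nd) (P := P) (Q := Q) (D := D) (M' := M₀ + 1) (δ := δ) (c₁ := c₁) (some i)
      (χ₀.σ y) (fderiv ℂ χ₀.σ y w)
    have h5 : c₁ * nearG Ω χ nd P Q D δ i (χ₀.σ y) (fderiv ℂ χ₀.σ y w) ≤
        GG Ω χ nd P Q D (M₀ + 1) δ c₁ (χ₀.σ y) (fderiv ℂ χ₀.σ y w) := h4
    calc ACoef Ω χ₀ y * md y w ≤ B₂ * nearG Ω χ nd P Q D δ i (χ₀.σ y) (fderiv ℂ χ₀.σ y w) := a2 hyK w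
      _ = B₂ / c₁ * (c₁ * nearG Ω χ nd P Q D δ i (χ₀.σ y) (fderiv ℂ χ₀.σ y w)) := by field_simp
      _ ≤ B₂ / c₁ * GG Ω χ nd P Q D (M₀ + 1) δ c₁ (χ₀.σ y) (fderiv ℂ χ₀.σ y w) := mul_le_mul_of_nonneg_left h5 (by positivity)
      _ ≤ _ := mul_le_mul_of_nonneg_right (le_max_right _ _) hG0
  · exact (a1 hyK w).trans (mul_le_mul_of_nonneg_right (le_max_left _ _) h3)

end Pool.Agent.H36.TB

end

section

/-!
# TB Met: the metric theorem with two-sided bounds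
-/

set_option autoImplicit false

open Topology Filter Metric

namespace Pool.Agent.H36.TB

open Pool.Agent.H36.BP
open Pool.Agent.H14.PP

variable {N : ℕ} {W : Type*} [NormedAddCommGroup W] [InnerProductSpace ℂ W]
  {X K T : Set (EN N)} {m j : ℕ} {Q : EN N → W} {D : ℕ}

section off

variable {Ω : Form K m j} {n : ℕ} {χ : Fin n → Chart X} {nd : Fin n → Bool} {P : Par} {M₀ : ℕ} {δ c₁ c : ℝ}

/-- the upper bound by the coefficient of the form -/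
theorem GG_ub (hX : IsCone X) (hK : IsOpenPart X K) (hKT : ∀ x ∈ X, x ∉ K → x ∈ T) (hm : 1 ≤ m) (hQ : IsEq X T Q D)
    (hΩ : Ω.NoZeroOff T) (hM : MetP X K T m j Ω Q D n χ nd P M₀ δ c₁ c)
    (χ₀ : Chart X) {p : ℂ × ℂ} (hp : p ∈ ball (0 : ℂ × ℂ) 2) :
    ∃ B : ℝ, 1 ≤ B ∧ ∀ᶠ y in 𝓝 p, χ₀.σ y ∈ K → ∀ w,
      GG Ω χ nd P Q D (M₀ + 1) δ c₁ (χ₀.σ y) (fderiv ℂ χ₀.σ y w) ≤ B * (ACoef Ω χ₀ y * ‖w‖) := by
  have hnear := fun i => near_le hX hK hm hM χ₀ hp (md := fun _ w => ‖w‖) (fun _ w => norm_nonneg w) i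
    (fun hU => cmp_triv χ₀ (χ i) (nd i) hM.conv.κ_le hp hU)
  refine GG_le χ₀ hM.c₁_pos (E := fun y w => ACoef Ω χ₀ y * ‖w‖) (fun y w => mul_nonneg (ACoef_nonneg _ _ _) (norm_nonneg _)) hnear ?_
  by_cases hpT : χ₀.σ p ∈ T
  · have hρ0 : rho Q D (χ₀.σ p) = 0 := (rho_eq_zero_iff (χ₀.sigma_ne_zero hX hp)).2 ((hQ.mem_iff _).1 hpT).2
    have hρδ : rho Q D (χ₀.σ p) < δ := by rw [hρ0]; exact hM.δ_pos
    obtain ⟨i, hi1, hi2⟩ := hM.cov _ (χ₀.σ_mem p hp).1 hρδ.le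
    have hi3 : ‖(χ i).q (χ₀.σ p)‖ < 1 := by linarith
    obtain ⟨B, hB, h⟩ := hnear i
    have hcpos := hM.c_pos
    have hδ := hM.δ_pos
    have hδc : 0 ≤ δ / c := by positivity
    refine ⟨max 1 (δ / c * B), le_max_left _ _, ?_⟩
    filter_upwards [h, far_le hX hK hQ hM χ₀ hp i hi1 hi3 hρδ] with y h1 h2 hyK w
    have h3 : 0 ≤ ACoef Ω χ₀ y * ‖w‖ := mul_nonneg (ACoef_nonneg _ _ _) (norm_nonneg w)
    calc _ ≤ δ / c * nearG Ω χ nd P Q D δ i (χ₀.σ y) (fderiv ℂ χ₀.σ y w) := h2 hyK w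
      _ ≤ δ / c * (B * (ACoef Ω χ₀ y * ‖w‖)) := mul_le_mul_of_nonneg_left (h1 hyK w) hδc
      _ = δ / c * B * (ACoef Ω χ₀ y * ‖w‖) := by ring
      _ ≤ _ := mul_le_mul_of_nonneg_right (le_max_right _ _) h3
  · have hpK : χ₀.σ p ∈ K := by
      by_contra h
      exact hpT (hKT _ (χ₀.σ_mem p hp).1 h)
    have hA : 0 < ACoef Ω χ₀ p := (ACoef_pos_iff hX hm Ω χ₀ hp).2 (aCoef_ne_zero hX hK Ω χ₀ hΩ hp hpK hpT)
    set a := ACoef Ω χ₀ p with ha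
    have e1 : ∀ᶠ y in 𝓝 p, a / 2 < ACoef Ω χ₀ y := (continuousAt_ACoef hK Ω χ₀ hp hpK).eventually (lt_mem_nhds (by linarith))
    set R := rho Q D (χ₀.σ p) with hR
    have e2 : ∀ᶠ y in 𝓝 p, rho Q D (χ₀.σ y) < R + 1 := by
      have h1 : ContinuousAt (fun y => rho Q D (χ₀.σ y)) p :=
        ContinuousAt.comp (g := rho Q D) (continuousAt_rho hQ.analytic (χ₀.sigma_ne_zero hX hp)) (χ₀.σ_an p hp).continuousAt
      exact h1.eventually (gt_mem_nhds (by linarith))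
    set S := ‖fderiv ℂ χ₀.σ p‖ with hS
    have e3 : ∀ᶠ y in 𝓝 p, ‖fderiv ℂ χ₀.σ y‖ < S + 1 := (χ₀.σ_an p hp).fderiv.continuousAt.norm.eventually (gt_mem_nhds (by linarith))
    set b := ‖χ₀.σ p‖ with hb
    have hb0 : 0 < b := norm_pos_iff.2 (χ₀.sigma_ne_zero hX hp)
    have e4 : ∀ᶠ y in 𝓝 p, b / 2 < ‖χ₀.σ y‖ := (χ₀.σ_an p hp).continuousAt.norm.eventually (lt_mem_nhds (by linarith))
    have hR0 : 0 ≤ R := rho_nonneg _ _ _
    have hS0 : 0 ≤ S := norm_nonneg _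
    set C : ℝ := (R + 1) ^ (M₀ + 1) * ((S + 1) / (b / 2)) * (2 / a) with hC
    refine ⟨max 1 C, le_max_left _ _, ?_⟩
    filter_upwards [e1, e2, e3, e4] with y h1 h2 h3 h4 _ w
    have hy0 : χ₀.σ y ≠ 0 := by
      intro h0
      rw [h0, norm_zero] at h4
      linarith
    have hw0 := norm_nonneg w
    have h5 : fs (χ₀.σ y) (fderiv ℂ χ₀.σ y w) ≤ (S + 1) / (b / 2) * ‖w‖ := by
      refine (fs_le hy0 _).trans ?_
      have h6 : ‖fderiv ℂ χ₀.σ y w‖ ≤ (S + 1) * ‖w‖ :=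
        ((fderiv ℂ χ₀.σ y).le_opNorm w).trans (mul_le_mul_of_nonneg_right h3.le hw0)
      calc ‖fderiv ℂ χ₀.σ y w‖ / ‖χ₀.σ y‖ ≤ ((S + 1) * ‖w‖) / (b / 2) :=
            div_le_div₀ (by positivity) h6 (by positivity) h4.le
        _ = (S + 1) / (b / 2) * ‖w‖ := by ring
    have h6 : rho Q D (χ₀.σ y) ^ (M₀ + 1) ≤ (R + 1) ^ (M₀ + 1) := pow_le_pow_left₀ (rho_nonneg _ _ _) h2.le _
    have h7 : ‖w‖ ≤ 2 / a * (ACoef Ω χ₀ y * ‖w‖) := by
      have h8 : a / 2 * ‖w‖ ≤ ACoef Ω χ₀ y * ‖w‖ := mul_le_mul_of_nonneg_right h1.le hw0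
      calc ‖w‖ = 2 / a * (a / 2 * ‖w‖) := by field_simp
        _ ≤ _ := mul_le_mul_of_nonneg_left h8 (by positivity)
    calc rho Q D (χ₀.σ y) ^ (M₀ + 1) * fs (χ₀.σ y) (fderiv ℂ χ₀.σ y w)
        ≤ (R + 1) ^ (M₀ + 1) * ((S + 1) / (b / 2) * ‖w‖) := mul_le_mul h6 h5 (fs_nonneg _ _) (by positivity)
      _ ≤ (R + 1) ^ (M₀ + 1) * ((S + 1) / (b / 2) * (2 / a * (ACoef Ω χ₀ y * ‖w‖))) := by gcongr
      _ = C * (ACoef Ω χ₀ y * ‖w‖) := by rw [hC]; ring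
      _ ≤ _ := mul_le_mul_of_nonneg_right (le_max_right _ _) (mul_nonneg (ACoef_nonneg _ _ _) hw0)

end off

end Pool.Agent.H36.TB

end

section

/-!
# Gradients

`conTan P x` is the tangent space at `x` of the affine cone of `P`.

PROOF of `exists_indep`.  Let `G = span {∇Q(x) | Q ∈ P}` in `Fin (N + 1) → ℂ`.  `conTan P x` is its
annihilator for the pairing `∑ i, v i * u i`, so `finrank G + finrank (conTan P x) = N + 1`
(`Submodule.finrank_add_finrank_dualAnnihilator_eq`, or rank-nullity: let `u_1, .., u_r` be a basis of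
`G` among the `∇Q(x)`; `conTan P x` is the kernel of `v ↦ (∑ i, v i * u_k i)_k`, so
`N + 1 - r ≤ finrank (conTan P x) ≤ n + 1`, `N - n ≤ r`).  The gradients form a spanning set of `G`, so
it contains a basis (`exists_linearIndependent'` or `exists_linearIndependent_extension`); take
`N - n` of its elements.

PROOF of `indep_snoc`.  Let `∑ j, c j • ∇(f j)(w) + e • single l 1 = 0`.  Apply the pairing with `w`:
`∑ i, w i * ∂_i (f j)(w) = 0` (`euler`) and `w l = 1`, so `e = 0`; then all `c j = 0`.  (Gradient of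
`X l - 1` at `w` is `Pi.single l 1`.)
-/

open MvPolynomial
open Pool.Agent.H62.FC (Homog)

noncomputable section

namespace Pool.Agent.H13.SM

variable {N : ℕ} {P : Ideal (MvPolynomial (Fin (N + 1)) ℂ)}

theorem exists_indep {n : ℕ} {x : Fin (N + 1) → ℂ}
    (h : Module.finrank ℂ (conTan P x) ≤ n + 1) :
    ∃ f : Fin (N - n) → MvPolynomial (Fin (N + 1)) ℂ, (∀ j, f j ∈ P) ∧
      LinearIndependent ℂ fun (j : Fin (N - n)) (i : Fin (N + 1)) => eval x (pderiv i (f j)) := by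
  classical
  obtain ⟨b, hbS, hspan, hli⟩ := exists_linearIndependent ℂ
    {u : Fin (N + 1) → ℂ | ∃ Q ∈ P, (fun i => eval x (pderiv i Q)) = u}
  have hfin : Finite b := hli.finite
  have : Fintype b := Fintype.ofFinite b
  let φ : (Fin (N + 1) → ℂ) →ₗ[ℂ] (b → ℂ) :=
    LinearMap.pi fun u => ∑ i, (u : Fin (N + 1) → ℂ) i • (LinearMap.proj i)
  have hφ : ∀ v (u : b), φ v u = ∑ i, (u : Fin (N + 1) → ℂ) i * v i := by
    intro v u
    simp [φ, LinearMap.sum_apply]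
  have hker : LinearMap.ker φ ≤ conTan P x := by
    intro v hv Q hQ
    have hv' : ∀ u : b, ∑ i, (u : Fin (N + 1) → ℂ) i * v i = 0 := fun u => by
      rw [← hφ, LinearMap.mem_ker.mp hv, Pi.zero_apply]
    let ψ : (Fin (N + 1) → ℂ) →ₗ[ℂ] ℂ := ∑ i, v i • (LinearMap.proj i)
    have hψ : ∀ u, ψ u = ∑ i, v i * u i := by
      intro u
      simp [ψ, LinearMap.sum_apply]
    have h1 : Submodule.span ℂ b ≤ LinearMap.ker ψ := by
      rw [Submodule.span_le]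
      intro u hu
      rw [SetLike.mem_coe, LinearMap.mem_ker, hψ, ← hv' ⟨u, hu⟩]
      exact Finset.sum_congr rfl fun i _ => mul_comm _ _
    have h2 : (fun i => eval x (pderiv i Q)) ∈ Submodule.span ℂ b := by
      rw [hspan]
      exact Submodule.subset_span ⟨Q, hQ, rfl⟩
    have h3 := LinearMap.mem_ker.mp (h1 h2)
    rwa [hψ] at h3
  have hrk := LinearMap.finrank_range_add_finrank_ker φ
  have h1 : Module.finrank ℂ (LinearMap.range φ) ≤ Fintype.card b := by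
    have := Submodule.finrank_le (LinearMap.range φ)
    rwa [Module.finrank_fintype_fun_eq_card] at this
  have h2 := Submodule.finrank_mono hker
  rw [Module.finrank_fintype_fun_eq_card, Fintype.card_fin] at hrk
  have hcard : Fintype.card (Fin (N - n)) ≤ Fintype.card b := by
    rw [Fintype.card_fin]
    omega
  obtain ⟨e⟩ := Function.Embedding.nonempty_of_card_le hcard
  choose g hg using fun u : b => hbS u.2
  refine ⟨fun j => g (e j), fun j => (hg (e j)).1, ?_⟩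
  have h3 := hli.comp e e.injective
  have h4 : (fun (j : Fin (N - n)) (i : Fin (N + 1)) => eval x (pderiv i (g (e j)))) =
      (Subtype.val : b → Fin (N + 1) → ℂ) ∘ e := by
    funext j
    exact (hg (e j)).2
  rw [h4]
  exact h3

theorem indep_snoc (hP : Homog P) {w : Fin (N + 1) → ℂ} (hw : ∀ Q ∈ P, eval w Q = 0)
    {l : Fin (N + 1)} (hl : w l = 1) {c : ℕ} {f : Fin c → MvPolynomial (Fin (N + 1)) ℂ}
    (hf : ∀ j, f j ∈ P)
    (hli : LinearIndependent ℂ fun (j : Fin c) (i : Fin (N + 1)) => eval w (pderiv i (f j))) :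
    LinearIndependent ℂ fun (j : Fin (c + 1)) (i : Fin (N + 1)) =>
      eval w (pderiv i ((Fin.snoc f (X l - 1) : Fin (c + 1) → MvPolynomial (Fin (N + 1)) ℂ) j)) := by
  classical
  have h1 : (fun (j : Fin (c + 1)) (i : Fin (N + 1)) =>
      eval w (pderiv i ((Fin.snoc f (X l - 1) : Fin (c + 1) → MvPolynomial (Fin (N + 1)) ℂ) j))) =
      (Fin.snoc (fun (j : Fin c) (i : Fin (N + 1)) => eval w (pderiv i (f j)))
        (Pi.single l 1 : Fin (N + 1) → ℂ) : Fin (c + 1) → Fin (N + 1) → ℂ) := by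
    funext j
    refine Fin.lastCases ?_ (fun k => ?_) j
    · funext i
      rw [Fin.snoc_last, Fin.snoc_last, map_sub, pderiv_X, Pi.single_apply, Pi.single_apply]
      simp only [pderiv_one, sub_zero]
      by_cases h : i = l
      · rw [if_pos h.symm, if_pos h, map_one]
      · rw [if_neg fun h' => h h'.symm, if_neg h, map_zero]
    · funext i
      rw [Fin.snoc_castSucc, Fin.snoc_castSucc]
  rw [h1, linearIndependent_finSnoc]
  refine ⟨hli, fun hmem => ?_⟩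
  let ψ : (Fin (N + 1) → ℂ) →ₗ[ℂ] ℂ := ∑ i, w i • (LinearMap.proj i)
  have hψ : ∀ u, ψ u = ∑ i, w i * u i := by
    intro u
    simp [ψ, LinearMap.sum_apply]
  have h2 : Submodule.span ℂ (Set.range fun (j : Fin c) (i : Fin (N + 1)) =>
      eval w (pderiv i (f j))) ≤ LinearMap.ker ψ := by
    rw [Submodule.span_le]
    rintro _ ⟨j, rfl⟩
    rw [SetLike.mem_coe, LinearMap.mem_ker, hψ]
    exact euler hP hw (hf j)
  have h3 := LinearMap.mem_ker.mp (h2 hmem)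
  rw [hψ, Finset.sum_eq_single l] at h3
  · rw [Pi.single_eq_same, mul_one, hl] at h3
    exact one_ne_zero h3
  · intro i _ hi
    rw [Pi.single_eq_of_ne hi, mul_zero]
  · intro h
    exact absurd (Finset.mem_univ l) h

end Pool.Agent.H13.SM

end
end

section

/-!
# Charts of the affine cone of a smooth projective variety

PROOF.  `X l ∉ P` as `x l ≠ 0`, so `coordFun P l ≠ 0` (`coordFun_ne_zero_iff`).  Let `w = (x l)⁻¹ • x`: a
point of the cone (`cone_smul`) with `w l = 1`, so `w ∈ pts a`, `a i = ratio P i l` (`mem_pts_iff`).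
`a` generates the field (`adjoin_ratio`).  By `exists_indep` (at `w`) there are `f : Fin (N - n) → _` in
`P`, by `indep_snoc` the family `f, X l - 1` has independent gradients at `w` and all of its members
vanish at `a` (`gen_eq_zero_iff` for homogeneous components; or: `aeval a (f j) = 0` because
of `Homog P`; prove it as in `mem_pts_iff`).  `(N - n + 1) + n = N + 1` by `trdeg_le`.  Let `I, τ` be the
chart of `exists_chart`, and `σ u = x l • τ u`.  Then `σ 0 = x l • w = x`; `σ u` is in the cone and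
`σ u l = x l * τ u l = x l` (`mem_pts_iff`); `σ u (I k) = x l * (w (I k) + u k) = x (I k) + x l * u k`.
For `y` near `x` in the cone: `y l ≠ 0`, `y' = (y l)⁻¹ • y` is in `pts a` and near `w`, so
`y' = τ (fun k => y' (I k) - w (I k))`, and `y = y l • y' = (y l / x l) • σ (...)`, where
`y' (I k) - w (I k) = y (I k) / y l - x (I k) / x l`.
Last clause: for a form `Q` of degree `d` not in `P`, `aeval a Q = gen P l Q ≠ 0` and
`eval (σ u) Q = x l ^ d * eval (τ u) Q`.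
-/

open MvPolynomial Topology
open Pool.Agent.H17GT (coordFun functionField)
open Pool.Agent.H17LG.Variety (FunField ratio)
open Pool.Agent.H62.FC (Homog)

noncomputable section

namespace Pool.Agent.H13.SM

variable {N : ℕ} {P : Ideal (MvPolynomial (Fin (N + 1)) ℂ)}

private theorem Cone_aeval_mem [P.IsPrime] (hP : Homog P) {l : Fin (N + 1)} (h : coordFun P l ≠ 0)
    {Q : MvPolynomial (Fin (N + 1)) ℂ} (hQ : Q ∈ P) : aeval (fun i => ratio P i l) Q = 0 := by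
  rw [← MvPolynomial.sum_homogeneousComponent Q, map_sum]
  refine Finset.sum_eq_zero fun d _ => ?_
  exact (Pool.Agent.H17R.gen_eq_zero_iff h (MvPolynomial.homogeneousComponent_isHomogeneous d Q)).2
    (hP Q hQ d)

private theorem Cone_eval_smul {Q : MvPolynomial (Fin (N + 1)) ℂ} {d : ℕ} (hQ : Q.IsHomogeneous d)
    (c : ℂ) (y : Fin (N + 1) → ℂ) : eval (c • y) Q = c ^ d * eval y Q := by
  have h1 := Pool.Agent.H92.GT.Proj.aeval_scale hQ (c := c) (x := y)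
  have h2 : ∀ z : Fin (N + 1) → ℂ, aeval z Q = eval z Q := fun z => by
    rw [MvPolynomial.aeval_eq_eval]
  rw [h2, h2] at h1
  exact h1

theorem exists_coneChart [P.IsPrime] (hP : Homog P) {n : ℕ} {z : Fin n → FunField P}
    (hz : IsTranscendenceBasis ℂ z)
    (hsm : ∀ y : Fin (N + 1) → ℂ, y ≠ 0 → (∀ Q ∈ P, eval y Q = 0) →
      Module.finrank ℂ (conTan P y) ≤ n + 1)
    {x : Fin (N + 1) → ℂ} (hx : ∀ Q ∈ P, eval x Q = 0) {l : Fin (N + 1)} (hl : x l ≠ 0) :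
    ∃ (I : Fin n → Fin (N + 1)) (σ : (Fin n → ℂ) → Fin (N + 1) → ℂ),
      AnalyticAt ℂ σ 0 ∧ σ 0 = x ∧
      (∀ᶠ u in 𝓝 0, (∀ Q ∈ P, eval (σ u) Q = 0) ∧ σ u l = x l ∧
        ∀ k, σ u (I k) = x (I k) + x l * u k) ∧
      (∀ᶠ y in 𝓝 x, (∀ Q ∈ P, eval y Q = 0) →
        y = (y l / x l) • σ (fun k => y (I k) / y l - x (I k) / x l)) ∧
      ∀ (d : ℕ) (Q : MvPolynomial (Fin (N + 1)) ℂ), Q.IsHomogeneous d → Q ∉ P →
        ¬ ∀ᶠ u in 𝓝 0, eval (σ u) Q = 0 := by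
  have hXl : (X l : MvPolynomial (Fin (N + 1)) ℂ) ∉ P := by
    intro h
    have h1 := hx _ h
    rw [eval_X] at h1
    exact hl h1
  have hcf : coordFun P l ≠ 0 := Pool.Agent.H17R.coordFun_ne_zero_iff.2 hXl
  obtain ⟨w, hw⟩ : ∃ w : Fin (N + 1) → ℂ, w = (x l)⁻¹ • x := ⟨_, rfl⟩
  have hwP : ∀ Q ∈ P, eval w Q = 0 := by
    rw [hw]
    exact cone_smul hP hx _
  have hwl : w l = 1 := by
    rw [hw, Pi.smul_apply, smul_eq_mul, inv_mul_cancel₀ hl]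
  have hwk : ∀ i, x l * w i = x i := by
    intro i
    rw [hw, Pi.smul_apply, smul_eq_mul, mul_inv_cancel_left₀ hl]
  have hwx : x l • w = x := by
    rw [hw, smul_inv_smul₀ hl]
  have hw0 : w ≠ 0 := by
    intro h
    rw [h, Pi.zero_apply] at hwl
    exact zero_ne_one hwl
  have hwp : w ∈ pts (fun i => ratio P i l) := (mem_pts_iff hP hcf).2 ⟨hwl, hwP⟩
  obtain ⟨f, hf, hli⟩ := exists_indep (hsm w hw0 hwP)
  have hli' := indep_snoc hP hwP hwl hf hli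
  have hnN : n ≤ N := trdeg_le hcf hz
  have hf' : ∀ j, aeval (fun i => ratio P i l)
      ((Fin.snoc f (X l - 1) : Fin (N - n + 1) → MvPolynomial (Fin (N + 1)) ℂ) j) = 0 := by
    intro j
    refine Fin.lastCases ?_ (fun j => ?_) j
    · rw [Fin.snoc_last, map_sub, aeval_X, map_one, Pool.Agent.H17R.ratio_self hcf, sub_self]
    · rw [Fin.snoc_castSucc]
      exact Cone_aeval_mem hP hcf (hf j)
  obtain ⟨I, τ, hτa, hτ0, hτ1, hτ2, hτ3⟩ := exists_chart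
    (Pool.Agent.H17R.adjoin_ratio hcf) hz (c := N - n + 1) (by rw [Fintype.card_fin]; omega)
    hf' hwp hli'
  refine ⟨I, fun u => x l • τ u, ?_, ?_, ?_, ?_, ?_⟩
  · exact (analyticAt_const (v := x l)).smul hτa
  · simp only [hτ0]
    exact hwx
  · filter_upwards [hτ1] with u hu
    obtain ⟨h1, h2⟩ := hu
    obtain ⟨h3, h4⟩ := (mem_pts_iff hP hcf).1 h1
    refine ⟨cone_smul hP h4 _, ?_, fun k => ?_⟩
    · rw [Pi.smul_apply, smul_eq_mul, h3, mul_one]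
    · rw [Pi.smul_apply, smul_eq_mul, h2 k, mul_add, hwk]
  · have hc : ContinuousAt (fun y : Fin (N + 1) → ℂ => (y l)⁻¹ • y) x := by
      have h1 : ContinuousAt (fun y : Fin (N + 1) → ℂ => y l) x :=
        (continuous_apply l).continuousAt
      exact (h1.inv₀ hl).smul continuousAt_id
    have hc' : Filter.Tendsto (fun y : Fin (N + 1) → ℂ => (y l)⁻¹ • y) (𝓝 x) (𝓝 w) := by
      rw [hw]
      exact hc
    have hne : ∀ᶠ y in 𝓝 x, (y : Fin (N + 1) → ℂ) l ≠ 0 :=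
      (continuous_apply l).continuousAt.eventually_ne hl
    filter_upwards [hc'.eventually hτ2, hne] with y hy hyl hyP
    have h1 : (y l)⁻¹ • y ∈ pts (fun i => ratio P i l) := by
      rw [mem_pts_iff hP hcf]
      refine ⟨?_, cone_smul hP hyP _⟩
      rw [Pi.smul_apply, smul_eq_mul, inv_mul_cancel₀ hyl]
    have h2 := hy h1
    have h3 : (fun k => ((y l)⁻¹ • y) (I k) - w (I k)) =
        fun k => y (I k) / y l - x (I k) / x l := by
      funext k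
      rw [hw, Pi.smul_apply, Pi.smul_apply, smul_eq_mul, smul_eq_mul, div_eq_inv_mul,
        div_eq_inv_mul]
    rw [h3] at h2
    rw [← h2, smul_smul, smul_smul]
    have h4 : y l / x l * x l * (y l)⁻¹ = 1 := by
      field_simp
    rw [h4, one_smul]
  · intro d Q hQ hQP hev
    have h1 : aeval (fun i => ratio P i l) Q ≠ 0 := fun h =>
      hQP ((Pool.Agent.H17R.gen_eq_zero_iff hcf hQ).1 h)
    refine hτ3 Q h1 ?_
    filter_upwards [hev] with u hu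
    rw [Cone_eval_smul hQ] at hu
    exact (mul_eq_zero.1 hu).resolve_left (pow_ne_zero _ hl)

end Pool.Agent.H13.SM

end
end

section

/-!
# The cone of a smooth projective surface is a `Surface`

`IsChart` and `Surface` are the definitions of `Pool.Agent.H17BP.Surf`.
-/

open MvPolynomial Topology Filter
open Pool.Agent.H17GT (coordFun functionField)
open Pool.Agent.H17LG.Variety (FunField ratio)
open Pool.Agent.H62.FC (Homog)
open Pool.Agent.H17BP (IsChart Surface Pr)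

noncomputable section

namespace Pool.Agent.H13.SM

variable {N : ℕ} {P : Ideal (MvPolynomial (Fin (N + 1)) ℂ)}

/-- The chart with the coordinate ratios `x i / x l`, `x j / x l` as parameters. -/
theorem exists_ratioChart [P.IsPrime] (hP : Homog P) {z : Fin 2 → FunField P}
    (hz : IsTranscendenceBasis ℂ z)
    (hsm : ∀ y ∈ cone P, Module.finrank ℂ (conTan P y) ≤ 3)
    {x : Fin (N + 1) → ℂ} (hx : x ∈ cone P) {l : Fin (N + 1)} (hl : x l ≠ 0) :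
    ∃ (i j : Fin (N + 1)) (σ : ℂ × ℂ → Fin (N + 1) → ℂ),
      IsChart (cone P) σ (fun y => (y i / y l - x i / x l, y j / y l - x j / x l)) ∧ σ 0 = x ∧
      (∀ᶠ p in 𝓝 (0 : ℂ × ℂ), σ p l = x l ∧ σ p i = x i + x l * p.1 ∧ σ p j = x j + x l * p.2) ∧
      (∀ᶠ y in 𝓝 x, (∀ Q ∈ P, eval y Q = 0) →
        y = (y l / x l) • σ (y i / y l - x i / x l, y j / y l - x j / x l)) ∧
      ∀ (d : ℕ) (Q : MvPolynomial (Fin (N + 1)) ℂ), Q.IsHomogeneous d → Q ∉ P →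
        ¬ ∀ᶠ p in 𝓝 (0 : ℂ × ℂ), eval (σ p) Q = 0 := by
  obtain ⟨I, σ, h1, h2, h3, h4, h5⟩ := exists_coneChart hP hz (fun y hy hy' => hsm y ⟨hy, hy'⟩)
    hx.2 hl
  -- the linear isomorphism `ℂ × ℂ → (Fin 2 → ℂ)`
  have hvan : ∀ p : ℂ × ℂ, AnalyticAt ℂ (fun q : ℂ × ℂ => (![q.1, q.2] : Fin 2 → ℂ)) p := by
    intro p
    refine AnalyticAt.pi fun k => ?_
    fin_cases k
    · exact analyticAt_fst
    · exact analyticAt_snd
  have hv0 : (![(0 : ℂ × ℂ).1, (0 : ℂ × ℂ).2] : Fin 2 → ℂ) = 0 := by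
    funext k
    fin_cases k <;> rfl
  have hvt : Tendsto (fun q : ℂ × ℂ => (![q.1, q.2] : Fin 2 → ℂ)) (𝓝 0) (𝓝 0) := by
    have := (hvan 0).continuousAt.tendsto
    rwa [hv0] at this
  have hl1 : ∀ᶠ y in 𝓝 x, y l ≠ 0 :=
    (continuous_apply l).continuousAt.eventually_ne hl
  have hvec : ∀ y : Fin (N + 1) → ℂ, (fun k => y (I k) / y l - x (I k) / x l) =
      (![y (I 0) / y l - x (I 0) / x l, y (I 1) / y l - x (I 1) / x l] : Fin 2 → ℂ) := by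
    intro y
    funext k
    fin_cases k <;> rfl
  have h4' : ∀ᶠ y in 𝓝 x, (∀ Q ∈ P, eval y Q = 0) →
      y = (y l / x l) • σ ![y (I 0) / y l - x (I 0) / x l, y (I 1) / y l - x (I 1) / x l] := by
    filter_upwards [h4] with y hy hy'
    have := hy hy'
    rwa [hvec] at this
  have hσ0 : σ ![(0 : ℂ × ℂ).1, (0 : ℂ × ℂ).2] = x := by rw [hv0, h2]
  refine ⟨I 0, I 1, fun p => σ ![p.1, p.2], ?_, hσ0, ?_, h4', ?_⟩
  · refine ⟨?_, ?_, ?_, ?_, ?_, ?_, ?_⟩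
    · have h6 : AnalyticAt ℂ σ ((fun q : ℂ × ℂ => (![q.1, q.2] : Fin 2 → ℂ)) 0) := by
        simpa only [hv0] using h1
      exact AnalyticAt.comp (g := σ) (f := fun q : ℂ × ℂ => (![q.1, q.2] : Fin 2 → ℂ)) h6 (hvan 0)
    · filter_upwards [hvt.eventually h3] with p hp
      refine ⟨?_, hp.1⟩
      intro h6
      apply hl
      rw [← hp.2.1, h6]
      rfl
    · rw [hσ0]
      exact hx.1
    · rw [hσ0]
      have hpr : ∀ i : Fin (N + 1), AnalyticAt ℂ (fun y : Fin (N + 1) → ℂ => y i) x := fun i =>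
        (ContinuousLinearMap.proj (R := ℂ) (φ := fun _ : Fin (N + 1) => ℂ) i).analyticAt x
      exact (((hpr _).div (hpr l) hl).sub analyticAt_const).prod
        (((hpr _).div (hpr l) hl).sub analyticAt_const)
    · filter_upwards [hvt.eventually h3] with p hp
      have e0 := hp.2.2 0
      have e1 := hp.2.2 1
      simp only [Matrix.cons_val_zero, Matrix.cons_val_one] at e0 e1
      ext
      · change σ ![p.1, p.2] (I 0) / σ ![p.1, p.2] l - x (I 0) / x l = p.1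
        rw [e0, hp.2.1]
        field_simp
        ring
      · change σ ![p.1, p.2] (I 1) / σ ![p.1, p.2] l - x (I 1) / x l = p.2
        rw [e1, hp.2.1]
        field_simp
        ring
    · rw [hσ0]
      filter_upwards [h4', hl1] with y hy hyl hyX
      exact ⟨y l / x l, div_ne_zero hyl hl, hy hyX.2⟩
    · rw [hσ0]
      have h7 : ∀ᶠ p in 𝓝 (x, (1 : ℂ)), p.2 ≠ 0 := by
        have : ContinuousAt (fun p : (Fin (N + 1) → ℂ) × ℂ => p.2) (x, (1 : ℂ)) :=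
          continuousAt_snd
        exact this.eventually_ne one_ne_zero
      filter_upwards [h7] with p hp
      simp only [Pi.smul_apply, smul_eq_mul]
      rw [mul_div_mul_left _ _ hp, mul_div_mul_left _ _ hp]
  · filter_upwards [hvt.eventually h3] with p hp
    have e0 := hp.2.2 0
    have e1 := hp.2.2 1
    simp only [Matrix.cons_val_zero, Matrix.cons_val_one] at e0 e1
    exact ⟨hp.2.1, e0, e1⟩
  · intro d Q hQ hQP h8
    refine h5 d Q hQ hQP ?_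
    -- transport back along the inverse isomorphism
    have hpt : Tendsto (fun u : Fin 2 → ℂ => ((u 0, u 1) : ℂ × ℂ)) (𝓝 0) (𝓝 0) := by
      have : Continuous (fun u : Fin 2 → ℂ => ((u 0, u 1) : ℂ × ℂ)) := by fun_prop
      exact this.tendsto' _ _ rfl
    filter_upwards [hpt.eventually h8] with u hu
    have h9 : (![u 0, u 1] : Fin 2 → ℂ) = u := by
      funext k
      fin_cases k <;> rfl
    simpa only [h9] using hu

theorem surface_cone [P.IsPrime] (hP : Homog P) {z : Fin 2 → FunField P}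
    (hz : IsTranscendenceBasis ℂ z) (hsm : ∀ y ∈ cone P, Module.finrank ℂ (conTan P y) ≤ 3) :
    Surface (cone P) := by
  refine ⟨fun h => h.1 rfl, ?_, ?_, ?_⟩
  · intro x hx c hc
    exact ⟨smul_ne_zero hc hx.1, cone_smul hP hx.2 c⟩
  · intro x hx h0
    refine ⟨h0, fun Q hQ => ?_⟩
    have h1 : IsClosed {y : Fin (N + 1) → ℂ | eval y Q = 0} :=
      isClosed_eq (MvPolynomial.continuous_eval Q) continuous_const
    have h2 : cone P ⊆ {y : Fin (N + 1) → ℂ | eval y Q = 0} := fun y hy => hy.2 Q hQ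
    exact h1.closure_subset_iff.2 h2 hx
  · intro x hx
    obtain ⟨l, hl⟩ : ∃ l, x l ≠ 0 := by
      by_contra h
      push Not at h
      exact hx.1 (funext h)
    obtain ⟨i, j, σ, h1, h2, -⟩ := exists_ratioChart hP hz hsm hx hl
    exact ⟨σ, _, h1, h2⟩

/-- A form which does not vanish on the surface is not identically zero in any chart. -/
theorem frequently_ne_zero [P.IsPrime] (hP : Homog P) {z : Fin 2 → FunField P}
    (hz : IsTranscendenceBasis ℂ z) (hsm : ∀ y ∈ cone P, Module.finrank ℂ (conTan P y) ≤ 3)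
    {σ : ℂ × ℂ → Fin (N + 1) → ℂ} {τ : (Fin (N + 1) → ℂ) → ℂ × ℂ} (h : IsChart (cone P) σ τ)
    {d : ℕ} {Q : MvPolynomial (Fin (N + 1)) ℂ} (hQ : Q.IsHomogeneous d) (hQP : Q ∉ P) :
    ∃ᶠ p in 𝓝 (0 : ℂ × ℂ), eval (σ p) Q ≠ 0 := by
  intro h8
  have hS := surface_cone hP hz hsm
  have hx : σ 0 ∈ cone P := h.σ_mem.self_of_nhds
  obtain ⟨l, hl⟩ : ∃ l, σ 0 l ≠ 0 := by
    by_contra h'
    push Not at h'
    exact hx.1 (funext h')
  obtain ⟨i, j, σ', h1, h2, -, -, h5⟩ := exists_ratioChart hP hz hsm hx hl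
  obtain ⟨θ, hθ, hPr⟩ := IsChart.trans hS.smul h h1 (by rw [h2]; exact Pr.refl _)
  refine h5 d Q hQ hQP ?_
  filter_upwards [hPr, hθ.tendsto.eventually h8] with p hp hp'
  push Not at hp'
  obtain ⟨c, hc, hpc⟩ := hp
  have h9 : eval (c • σ (θ p)) Q = c ^ d * eval (σ (θ p)) Q := by
    have h10 := Pool.Agent.H92.GT.Proj.aeval_scale (K := ℂ) hQ c (σ (θ p))
    rw [MvPolynomial.aeval_eq_eval, MvPolynomial.aeval_eq_eval] at h10
    exact h10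
  rw [hpc, h9, hp', mul_zero]

end Pool.Agent.H13.SM

end
end

section

/-!
# SG: models on the cone of a projective surface, the curve is given by one form
-/

set_option autoImplicit false

open Topology Filter Metric MvPolynomial

noncomputable section

namespace Pool.Agent.H90.SG

open Pool.Agent.H36.BP (EN)
open Pool.Agent.H17BP (Surface IsForm NoZeros Eqs IsChart)
open Pool.Agent.H62.FC (Homog)
open Pool.Agent.H17LG.Variety (FunField)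
open Pool.Agent.H13.SM (conTan cone)
open Pool.Agent.H17EF (coneE LE)
open Pool.Agent.SY (ModelS)

section transport

variable {V V' : Type} [NormedAddCommGroup V] [NormedSpace ℂ V] [NormedAddCommGroup V'] [NormedSpace ℂ V']

/-- charts under a linear isomorphism -/
theorem isChart_transport (L : V ≃L[ℂ] V') {X : Set V} {σ : ℂ × ℂ → V} {τ : V → ℂ × ℂ} (h : IsChart X σ τ) :
    IsChart (L.symm ⁻¹' X) (fun p => L (σ p)) (fun y => τ (L.symm y)) where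
  σ_an := ((L : V →L[ℂ] V').analyticAt _).comp h.σ_an
  σ_mem := h.σ_mem.mono fun p hp => by
    rw [Set.mem_preimage, ContinuousLinearEquiv.symm_apply_apply]
    exact hp
  ne := fun e => h.ne ((map_eq_zero_iff L L.injective).1 e)
  τ_an := by
    have h1 : AnalyticAt ℂ τ (L.symm (L (σ 0))) := by
      rw [ContinuousLinearEquiv.symm_apply_apply]
      exact h.τ_an
    exact AnalyticAt.fun_comp (g := τ) h1 ((L.symm : V' →L[ℂ] V).analyticAt _)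
  left := h.left.mono fun p hp => by rw [ContinuousLinearEquiv.symm_apply_apply, hp]
  right := by
    have h1 : Tendsto (fun y => L.symm y) (𝓝 (L (σ 0))) (𝓝 (σ 0)) := by
      have := L.symm.continuous.tendsto (L (σ 0))
      rwa [ContinuousLinearEquiv.symm_apply_apply] at this
    filter_upwards [h1.eventually h.right] with y hy hyX
    obtain ⟨c, hc, hcy⟩ := hy hyX
    refine ⟨c, hc, ?_⟩
    have h2 := congrArg L hcy
    rwa [ContinuousLinearEquiv.apply_symm_apply, map_smul] at h2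
  inv := by
    have h1 : Tendsto (fun p : V' × ℂ => (L.symm p.1, p.2)) (𝓝 (L (σ 0), (1 : ℂ))) (𝓝 (σ 0, (1 : ℂ))) := by
      have h2 : Continuous (fun p : V' × ℂ => (L.symm p.1, p.2)) := by fun_prop
      have h3 := h2.tendsto (L (σ 0), (1 : ℂ))
      simpa only [ContinuousLinearEquiv.symm_apply_apply] using h3
    filter_upwards [h1.eventually h.inv] with p hp
    rw [map_smul]
    exact hp

/-- charts under the inverse of a linear isomorphism -/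
theorem isChart_transport_symm (L : V ≃L[ℂ] V') {X : Set V} {σ : ℂ × ℂ → V'} {τ : V' → ℂ × ℂ} (h : IsChart (L.symm ⁻¹' X) σ τ) :
    IsChart X (fun p => L.symm (σ p)) (fun y => τ (L y)) := by
  have h1 := isChart_transport L.symm h
  have h2 : (L.symm.symm ⁻¹' (L.symm ⁻¹' X) : Set V) = X := by
    ext x
    simp
  rw [h2] at h1
  exact h1

theorem surface_transport (L : V ≃L[ℂ] V') {X : Set V} (h : Surface X) : Surface (L.symm ⁻¹' X) where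
  zero := by
    rw [Set.mem_preimage, map_zero]
    exact h.zero
  smul := fun x hx c hc => by
    rw [Set.mem_preimage, map_smul]
    exact h.smul _ hx c hc
  closed := fun x hx hx0 => by
    rw [Set.mem_preimage]
    refine h.closed _ ?_ fun e => hx0 ((map_eq_zero_iff L.symm L.symm.injective).1 e)
    have h1 : Set.MapsTo (fun y => L.symm y) (L.symm ⁻¹' X) X := fun y hy => hy
    exact h1.closure L.symm.continuous hx
  chart := fun x hx => by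
    obtain ⟨σ, τ, h1, h2⟩ := h.chart _ hx
    refine ⟨_, _, isChart_transport L h1, ?_⟩
    show L (σ 0) = x
    rw [h2, ContinuousLinearEquiv.apply_symm_apply]

end transport

variable {N : ℕ} {P : Ideal (MvPolynomial (Fin (N + 1)) ℂ)}

/-- the cone of a smooth projective surface -/
theorem surface_coneE [P.IsPrime] (hP : Homog P) {z : Fin 2 → FunField P} (hz : IsTranscendenceBasis ℂ z)
    (hsm : ∀ y : Fin (N + 1) → ℂ, y ≠ 0 → (∀ Q ∈ P, eval y Q = 0) → Module.finrank ℂ (conTan P y) ≤ 3) : Surface (coneE P) :=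
  surface_transport (LE N) (Pool.Agent.H13.SM.surface_cone hP hz fun y hy => hsm y hy.1 hy.2)

/-- a form which is not in the ideal does not vanish on any chart -/
theorem thin_coneE [P.IsPrime] (hP : Homog P) {z : Fin 2 → FunField P} (hz : IsTranscendenceBasis ℂ z)
    (hsm : ∀ y : Fin (N + 1) → ℂ, y ≠ 0 → (∀ Q ∈ P, eval y Q = 0) → Module.finrank ℂ (conTan P y) ≤ 3)
    {Q : MvPolynomial (Fin (N + 1)) ℂ} {D : ℕ} (hQ : Q.IsHomogeneous D) (hQP : Q ∉ P) {σ : ℂ × ℂ → EN N} {τ : EN N → ℂ × ℂ}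
    (h : IsChart (coneE P) σ τ) : ∃ᶠ p in 𝓝 (0 : ℂ × ℂ), eval (σ p).ofLp Q ≠ 0 :=
  Pool.Agent.H13.SM.frequently_ne_zero hP hz (fun y hy => hsm y hy.1 hy.2) (isChart_transport_symm (LE N) h) hQ hQP

/-- the equation of a curve on the surface -/
theorem eqs_coneE {Q : MvPolynomial (Fin (N + 1)) ℂ} {D : ℕ} (hD : 1 ≤ D) (hQ : Q.IsHomogeneous D) :
    Eqs (coneE P) {x | x ∈ coneE P ∧ eval x.ofLp Q = 0} (fun (_ : Unit) (x : EN N) => eval x.ofLp Q) D where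
  pos := hD
  an := fun _ x => by
    have h : ∀ i : Fin (N + 1), AnalyticAt ℂ (fun y : EN N => y.ofLp i) x := fun i =>
      (EuclideanSpace.proj (𝕜 := ℂ) i).analyticAt x
    have := AnalyticAt.aeval_mvPolynomial (𝕜 := ℂ) h Q
    simpa [MvPolynomial.aeval_eq_eval] using this
  smul := fun _ c x => by
    have h1 : (c • x).ofLp = c • x.ofLp := rfl
    show eval (c • x).ofLp Q = c ^ D * eval x.ofLp Q
    rw [h1]
    exact Pool.Agent.H17EF.eval_smul_form hQ c x.ofLp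
  mem_iff := fun x => ⟨fun h => ⟨h.1, fun _ => h.2⟩, fun h => ⟨h.1, h.2 ()⟩⟩
  gen := fun x hx => ⟨(), Eventually.of_forall fun y hy h => ⟨hy, h⟩⟩

/-- **The model**: a smooth projective surface, a form without zeros outside the curve `{Q = 0}`. -/
theorem modelS_coneE [P.IsPrime] (hP : Homog P) {z : Fin 2 → FunField P} (hz : IsTranscendenceBasis ℂ z)
    (hsm : ∀ y : Fin (N + 1) → ℂ, y ≠ 0 → (∀ Q ∈ P, eval y Q = 0) → Module.finrank ℂ (conTan P y) ≤ 3)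
    {Q : MvPolynomial (Fin (N + 1)) ℂ} {D : ℕ} (hD : 1 ≤ D) (hQ : Q.IsHomogeneous D) (hQP : Q ∉ P) {m j : ℕ} (hm : 1 ≤ m) (hj : 1 ≤ j)
    {Ω : EN N → EN N → EN N → ℂ} (hΩ : IsForm (coneE P) m j Ω) (hnz : NoZeros (coneE P) {x | x ∈ coneE P ∧ eval x.ofLp Q = 0} Ω) :
    ModelS (coneE P) {x | x ∈ coneE P ∧ eval x.ofLp Q = 0} m j Ω (fun (_ : Unit) (x : EN N) => eval x.ofLp Q) D where
  surf := surface_coneE hP hz hsm
  one_m := hm
  one_j := hj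
  form := hΩ
  noZeros := hnz
  eqs := eqs_coneE hD hQ
  thin := fun _ _ h => (thin_coneE hP hz hsm hQ hQP h).mono fun _ hp hT => hp hT.2

end Pool.Agent.H90.SG

end
end
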