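import Pool.Agent.H94.G6.M02
import Pool.Agent.H94.G6.M14
import Pool.Agent.H94.G6.M32
import Pool.Agent.H94.G6.M39

/-! The parts of this file: H17BP.DBlow, H17BP.SmoothF, H17BP.NF_1, H17BP.ArtA_1, H17BP.PowF, H17BP.Art. -/

section

/-!
# The exceptional curves in the charts of the blow-up

Let `D₁, D₂` be local coordinates.  `D₁ ∘ bl c = x E₁`, `D₂ ∘ bl c = x E₂` (`exists_div_x`), with
`E_i (0, w) = dx D_i 0 + (c + w) dy D_i 0`, so `E_i 0 = dx D_i 0 + c dy D_i 0` and `dy E_i 0 = dy D_i 0`.  Not both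
`E_i 0` vanish and if `E_1 0 = 0` then `dy D_1 0 ≠ 0` (otherwise also `dx D_1 0 = 0`), so `(x, E₁)` are local
coordinates (`coord_iff`: `dx x = 1, dy x = 0`, determinant `dy E₁ 0 ≠ 0`).  So:
* `E₁ 0 ≠ 0`, `E₂ 0 ≠ 0`: take `D = x.2`, `b' = 0`, `u = E₁ ^ a E₂ ^ b`;
* `E₁ 0 = 0`: `D = E₁`, `b' = a`, `u = E₂ ^ b`;
* `E₂ 0 = 0`: `D = E₂`, `b' = b`, `u = E₁ ^ a`.
For `blInf` use `blInf = swap ∘ bl 0 ∘ swap` and the coordinates `D_i ∘ swap`.
-/

open Topology Filter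

noncomputable section

namespace Pool.Agent.H17BP

private theorem DBlow_lin (D : ℂ × ℂ → ℂ) (k : ℂ) :
    fderiv ℂ D 0 (1, k) = dx D 0 + k * dy D 0 := by
  have h1 : ((1, k) : ℂ × ℂ) = (1, 0) + k • ((0, 1) : ℂ × ℂ) := by
    ext <;> simp
  rw [h1, map_add, map_smul, smul_eq_mul]
  rfl

private theorem DBlow_div {D : ℂ × ℂ → ℂ} (hD : AnalyticAt ℂ D 0) (hD0 : D 0 = 0) (c : ℂ) :
    ∃ E : ℂ × ℂ → ℂ, AnalyticAt ℂ E 0 ∧ (∀ᶠ x in 𝓝 (0 : ℂ × ℂ), D (bl c x) = x.1 * E x) ∧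
      E 0 = dx D 0 + c * dy D 0 ∧ dy E 0 = dy D 0 := by
  have hbl0 : ∀ y : ℂ, bl c (0, y) = 0 := by
    intro y
    simp [bl]
  have hf : AnalyticAt ℂ (fun x => D (bl c x)) 0 := by
    have h1 : AnalyticAt ℂ D (bl c 0) := by rw [bl_zero]; exact hD
    exact h1.comp (analyticAt_bl c 0)
  obtain ⟨E, hE, hfE⟩ := exists_div_x hf (Eventually.of_forall fun y => by
    change D (bl c (0, y)) = 0
    rw [hbl0, hD0])
  have hfE' : ∀ᶠ x in 𝓝 (0 : ℂ × ℂ), D (bl c x) = x.1 * E x := hfE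
  have hcur : Tendsto (fun w : ℂ => ((0, w) : ℂ × ℂ)) (𝓝 0) (𝓝 0) := by
    have : Continuous fun w : ℂ => ((0, w) : ℂ × ℂ) := by fun_prop
    exact this.tendsto' 0 0 rfl
  have hline : ∀ᶠ w in 𝓝 (0 : ℂ), E (0, w) = dx D 0 + (c + w) * dy D 0 := by
    filter_upwards [hcur.eventually hfE'.eventually_nhds, hcur.eventually hE.eventually_analyticAt]
      with w h1 h2
    -- the derivative of `t ↦ D (bl c (t, w))` at `0`
    have hγ : HasDerivAt (fun t : ℂ => bl c (t, w)) (1, c + w) 0 := by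
      have h3 : HasDerivAt (fun t : ℂ => t) 1 (0 : ℂ) := hasDerivAt_id 0
      have h4 : HasDerivAt (fun t : ℂ => t * (c + w)) (c + w) (0 : ℂ) := by
        simpa using h3.mul_const (c + w)
      exact h3.prodMk h4
    have hD1 : HasFDerivAt D (fderiv ℂ D 0) (bl c (0, w)) := by
      rw [hbl0]
      exact hD.differentiableAt.hasFDerivAt
    have h5 : HasDerivAt (fun t : ℂ => D (bl c (t, w))) (fderiv ℂ D 0 (1, c + w)) 0 :=
      hD1.comp_hasDerivAt (0 : ℂ) hγ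
    -- the derivative of `t ↦ t * E (t, w)`
    have hδ : HasDerivAt (fun t : ℂ => ((t, w) : ℂ × ℂ)) (1, 0) 0 :=
      (hasDerivAt_id 0).prodMk (hasDerivAt_const (0 : ℂ) w)
    have h6 : HasDerivAt (fun t : ℂ => E (t, w)) (fderiv ℂ E (0, w) (1, 0)) 0 :=
      (h2.differentiableAt.hasFDerivAt).comp_hasDerivAt (0 : ℂ) hδ
    have h7 : HasDerivAt (fun t : ℂ => t * E (t, w)) (1 * E (0, w) + 0 * fderiv ℂ E (0, w) (1, 0)) 0 :=
      (hasDerivAt_id (0 : ℂ)).mul h6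
    have h8 : (fun t : ℂ => t * E (t, w)) =ᶠ[𝓝 0] fun t : ℂ => D (bl c (t, w)) := by
      have h9 : Tendsto (fun t : ℂ => ((t, w) : ℂ × ℂ)) (𝓝 0) (𝓝 (0, w)) := by
        have : Continuous fun t : ℂ => ((t, w) : ℂ × ℂ) := by fun_prop
        exact this.tendsto' 0 (0, w) rfl
      filter_upwards [h9.eventually h1] with t ht
      exact ht.symm
    have h10 := (h5.congr_of_eventuallyEq h8).unique h7
    rw [DBlow_lin] at h10
    rw [h10]
    ring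
  refine ⟨E, hE, hfE', ?_, ?_⟩
  · have h1 : E (0, 0) = dx D 0 + (c + 0) * dy D 0 := hline.self_of_nhds
    rw [add_zero] at h1
    exact h1
  · have hδ : HasDerivAt (fun t : ℂ => ((0, t) : ℂ × ℂ)) (0, 1) 0 :=
      (hasDerivAt_const (0 : ℂ) 0).prodMk (hasDerivAt_id 0)
    have h1 : HasDerivAt (fun t : ℂ => E (0, t)) (fderiv ℂ E 0 (0, 1)) 0 :=
      (hE.differentiableAt.hasFDerivAt (x := ((0, 0) : ℂ × ℂ))).comp_hasDerivAt (0 : ℂ) hδ
    have h2 : HasDerivAt (fun t : ℂ => dx D 0 + (c + t) * dy D 0) (dy D 0) 0 := by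
      have h3 := (((hasDerivAt_id (0 : ℂ)).const_add c).mul_const (dy D 0)).const_add (dx D 0)
      simpa using h3
    have h4 : (fun t : ℂ => dx D 0 + (c + t) * dy D 0) =ᶠ[𝓝 0] fun t : ℂ => E (0, t) :=
      hline.mono fun t ht => ht.symm
    exact (h1.congr_of_eventuallyEq h4).unique h2

private theorem DBlow_fst : dx (fun x : ℂ × ℂ => x.1) 0 = 1 ∧ dy (fun x : ℂ × ℂ => x.1) 0 = 0 := by
  constructor
  · unfold dx
    rw [show (fun x : ℂ × ℂ => x.1) = Prod.fst from rfl, fderiv_fst]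
    rfl
  · unfold dy
    rw [show (fun x : ℂ × ℂ => x.1) = Prod.fst from rfl, fderiv_fst]
    rfl

private theorem DBlow_coord {E : ℂ × ℂ → ℂ} (hE : AnalyticAt ℂ E 0) (h0 : E 0 = 0) (h1 : dy E 0 ≠ 0) :
    Coord (fun x => x.1) E := by
  rw [coord_iff analyticAt_fst hE rfl h0, DBlow_fst.1, DBlow_fst.2, one_mul, zero_mul, sub_zero]
  exact h1

theorem mono_bl {D₁ D₂ : ℂ × ℂ → ℂ} (h : Coord D₁ D₂) (a b : ℕ) (c : ℂ) :
    ∃ (D : ℂ × ℂ → ℂ) (b' : ℕ) (u : ℂ × ℂ → ℂ), Coord (fun x => x.1) D ∧ AnalyticAt ℂ u 0 ∧ u 0 ≠ 0 ∧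
      ∀ᶠ x in 𝓝 (0 : ℂ × ℂ), D₁ (bl c x) ^ a * D₂ (bl c x) ^ b = x.1 ^ (a + b) * D x ^ b' * u x := by
  obtain ⟨hA1, hA2, hz1, hz2⟩ := h.parts
  have hdet := (coord_iff hA1 hA2 hz1 hz2).1 h
  obtain ⟨E₁, hE1, hf1, hv1, hd1⟩ := DBlow_div hA1 hz1 c
  obtain ⟨E₂, hE2, hf2, hv2, hd2⟩ := DBlow_div hA2 hz2 c
  by_cases h1 : E₁ 0 = 0
  · have hy1 : dy D₁ 0 ≠ 0 := by
      intro h3
      apply hdet
      rw [h1, h3, mul_zero, add_zero] at hv1
      rw [← hv1, h3]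
      ring
    have h2 : E₂ 0 ≠ 0 := by
      intro h3
      apply hdet
      rw [h1] at hv1
      rw [h3] at hv2
      linear_combination (-(dy D₂ 0)) * hv1 + dy D₁ 0 * hv2
    refine ⟨E₁, a, fun x => E₂ x ^ b, DBlow_coord hE1 h1 (by rw [hd1]; exact hy1), hE2.pow b,
      pow_ne_zero _ h2, ?_⟩
    filter_upwards [hf1, hf2] with x hx1 hx2
    rw [hx1, hx2]
    ring
  · by_cases h2 : E₂ 0 = 0
    · have hy2 : dy D₂ 0 ≠ 0 := by
        intro h3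
        apply hdet
        rw [h2, h3, mul_zero, add_zero] at hv2
        rw [← hv2, h3]
        ring
      refine ⟨E₂, b, fun x => E₁ x ^ a, DBlow_coord hE2 h2 (by rw [hd2]; exact hy2), hE1.pow a,
        pow_ne_zero _ h1, ?_⟩
      filter_upwards [hf1, hf2] with x hx1 hx2
      rw [hx1, hx2]
      ring
    · refine ⟨fun x => x.2, 0, fun x => E₁ x ^ a * E₂ x ^ b, coord_fst_snd, (hE1.pow a).mul (hE2.pow b),
        mul_ne_zero (pow_ne_zero _ h1) (pow_ne_zero _ h2), ?_⟩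
      filter_upwards [hf1, hf2] with x hx1 hx2
      rw [hx1, hx2]
      ring

private theorem DBlow_swap : Bihol (Prod.swap : ℂ × ℂ → ℂ × ℂ) := by
  have h : AnalyticAt ℂ (Prod.swap : ℂ × ℂ → ℂ × ℂ) 0 := by
    change AnalyticAt ℂ (fun x : ℂ × ℂ => (x.2, x.1)) 0
    exact analyticAt_snd.prod analyticAt_fst
  exact ⟨h, rfl, Prod.swap, h, rfl, Eventually.of_forall fun x => Prod.swap_swap x,
    Eventually.of_forall fun x => Prod.swap_swap x⟩

theorem mono_blInf {D₁ D₂ : ℂ × ℂ → ℂ} (h : Coord D₁ D₂) (a b : ℕ) :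
    ∃ (D : ℂ × ℂ → ℂ) (b' : ℕ) (u : ℂ × ℂ → ℂ), Coord (fun x => x.2) D ∧ AnalyticAt ℂ u 0 ∧ u 0 ≠ 0 ∧
      ∀ᶠ x in 𝓝 (0 : ℂ × ℂ), D₁ (blInf x) ^ a * D₂ (blInf x) ^ b = x.2 ^ (a + b) * D x ^ b' * u x := by
  have hc : Coord (D₁ ∘ Prod.swap) (D₂ ∘ Prod.swap) := Bihol.comp h DBlow_swap
  obtain ⟨D, b', u, h1, h2, h3, h4⟩ := mono_bl hc a b 0
  refine ⟨D ∘ Prod.swap, b', u ∘ Prod.swap, Bihol.comp h1 DBlow_swap, ?_, h3, ?_⟩
  · have h5 : AnalyticAt ℂ u (Prod.swap (0 : ℂ × ℂ)) := h2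
    exact h5.comp DBlow_swap.an
  · filter_upwards [DBlow_swap.tendsto.eventually h4] with x hx
    have h6 : Prod.swap (bl 0 (Prod.swap x)) = blInf x := by
      unfold bl blInf
      simp [mul_comm]
    simp only [Function.comp_apply, h6] at hx ⊢
    exact hx

end Pool.Agent.H17BP

end
end

section

/-!
# The implicit function theorem for a smooth germ

`F 0 = 0`, `dx F 0 ≠ 0`.  `(F, y)` are local coordinates (`coord_iff`), let `(X(z, y), y')` be the inverse germ: the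
second component of the inverse is `y`, so with `ψ y = X (0, y)`: `F (ψ y, y) = 0` for small `y`, `ψ 0 = 0`, `ψ`
analytic.  Then `F (x + ψ y, y)` vanishes at `x = 0`, so `F (x + ψ y, y) = x u'(x, y)` (`exists_div_x`), hence
`F (x, y) = (x - ψ y) u (x, y)` with `u (x, y) = u' (x - ψ y, y)`, and `u 0 = dx F 0 ≠ 0` (differentiate in `x`).
If `ψ = 0` near `0`: first case; otherwise `ψ y = y ^ k v y` with `k ≥ 1`, `v 0 ≠ 0`
(`AnalyticAt.exists_eventuallyEq_pow_smul_nonzero_iff`).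
`exists_root`: the same for `dy F 0 ≠ 0`: `F (x, ρ x) = 0`.
-/

open Topology Filter

noncomputable section

namespace Pool.Agent.H17BP

private theorem SmoothF_root {F : ℂ × ℂ → ℂ} (hF : AnalyticAt ℂ F 0) (h0 : F 0 = 0) (h1 : dx F 0 ≠ 0) :
    ∃ ψ : ℂ → ℂ, AnalyticAt ℂ ψ 0 ∧ ψ 0 = 0 ∧ ∀ᶠ y in 𝓝 (0 : ℂ), F (ψ y, y) = 0 := by
  have hT : AnalyticAt ℂ (fun x : ℂ × ℂ => x.2) 0 := analyticAt_snd
  have hd : HasFDerivAt (fun x : ℂ × ℂ => x.2) (ContinuousLinearMap.snd ℂ ℂ ℂ) 0 := hasFDerivAt_snd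
  have hc : Coord F (fun x => x.2) := by
    rw [coord_iff hF hT h0 rfl]
    have e1 : dx (fun x : ℂ × ℂ => x.2) 0 = 0 := by
      unfold dx; rw [hd.fderiv]; simp
    have e2 : dy (fun x : ℂ × ℂ => x.2) 0 = 1 := by
      unfold dy; rw [hd.fderiv]; simp
    rw [e1, e2, mul_one, mul_zero, sub_zero]
    exact h1
  obtain ⟨θ', hθ, -, h4⟩ := Bihol.exists_inv hc
  have hline : AnalyticAt ℂ (fun y : ℂ => ((0 : ℂ), y)) 0 := analyticAt_const.prod analyticAt_id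
  have hline0 : (fun y : ℂ => ((0 : ℂ), y)) 0 = 0 := rfl
  have hline2 : Tendsto (fun y : ℂ => ((0 : ℂ), y)) (𝓝 0) (𝓝 0) := hline.continuousAt.tendsto
  refine ⟨fun y => (θ' (0, y)).1, ?_, ?_, ?_⟩
  · have h5 : AnalyticAt ℂ θ' ((fun y : ℂ => ((0 : ℂ), y)) 0) := hθ.an
    have h6 := AnalyticAt.comp (g := θ') (f := fun y : ℂ => ((0 : ℂ), y)) h5 hline
    exact analyticAt_fst.comp h6
  · show (θ' (0, 0)).1 = 0
    have : θ' (0, 0) = 0 := hθ.zero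
    rw [this]; rfl
  · filter_upwards [hline2.eventually h4] with y hy
    have h7 := congrArg Prod.fst hy
    have h8 := congrArg Prod.snd hy
    simp only at h7 h8
    have h9 : ((θ' (0, y)).1, y) = θ' (0, y) := Prod.ext rfl h8.symm
    rw [h9]
    exact h7

theorem smooth_normal {F : ℂ × ℂ → ℂ} (hF : AnalyticAt ℂ F 0) (h0 : F 0 = 0) (h1 : dx F 0 ≠ 0) :
    ∃ u : ℂ × ℂ → ℂ, AnalyticAt ℂ u 0 ∧ u 0 ≠ 0 ∧
      ((∀ᶠ x in 𝓝 (0 : ℂ × ℂ), F x = x.1 * u x) ∨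
        ∃ (k : ℕ) (v : ℂ → ℂ), AnalyticAt ℂ v 0 ∧ v 0 ≠ 0 ∧
          ∀ᶠ x in 𝓝 (0 : ℂ × ℂ), F x = (x.1 - x.2 ^ (k + 1) * v x.2) * u x) := by
  obtain ⟨ψ, hψ, hψ0, hroot⟩ := SmoothF_root hF h0 h1
  have hψ2 : AnalyticAt ℂ (fun x : ℂ × ℂ => ψ x.2) 0 := by
    have h2 : AnalyticAt ℂ ψ ((fun x : ℂ × ℂ => x.2) 0) := hψ
    exact AnalyticAt.comp (g := ψ) (f := fun x : ℂ × ℂ => x.2) h2 analyticAt_snd
  have hp : AnalyticAt ℂ (fun x : ℂ × ℂ => (x.1 + ψ x.2, x.2)) 0 := (analyticAt_fst.add hψ2).prod analyticAt_snd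
  have hm : AnalyticAt ℂ (fun x : ℂ × ℂ => (x.1 - ψ x.2, x.2)) 0 := (analyticAt_fst.sub hψ2).prod analyticAt_snd
  have hp0 : (fun x : ℂ × ℂ => (x.1 + ψ x.2, x.2)) 0 = 0 := by
    simp [hψ0]
  have hm0 : (fun x : ℂ × ℂ => (x.1 - ψ x.2, x.2)) 0 = 0 := by
    simp [hψ0]
  have hmt : Tendsto (fun x : ℂ × ℂ => (x.1 - ψ x.2, x.2)) (𝓝 0) (𝓝 0) := by
    have h2 := hm.continuousAt.tendsto
    have e : ((0 : ℂ × ℂ).1 - ψ (0 : ℂ × ℂ).2, (0 : ℂ × ℂ).2) = 0 := hm0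
    rwa [e] at h2
  have hF1 : AnalyticAt ℂ (fun x : ℂ × ℂ => F (x.1 + ψ x.2, x.2)) 0 := by
    have h2 : AnalyticAt ℂ F ((fun x : ℂ × ℂ => (x.1 + ψ x.2, x.2)) 0) := by rw [hp0]; exact hF
    exact AnalyticAt.comp (g := F) (f := fun x : ℂ × ℂ => (x.1 + ψ x.2, x.2)) h2 hp
  obtain ⟨g, hg, hgF⟩ := exists_div_x hF1 (by
    filter_upwards [hroot] with y hy
    simpa using hy)
  have hu : AnalyticAt ℂ (fun x : ℂ × ℂ => g (x.1 - ψ x.2, x.2)) 0 := by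
    have h2 : AnalyticAt ℂ g ((fun x : ℂ × ℂ => (x.1 - ψ x.2, x.2)) 0) := by rw [hm0]; exact hg
    exact AnalyticAt.comp (g := g) (f := fun x : ℂ × ℂ => (x.1 - ψ x.2, x.2)) h2 hm
  have hFu : ∀ᶠ x in 𝓝 (0 : ℂ × ℂ), F x = (x.1 - ψ x.2) * g (x.1 - ψ x.2, x.2) := by
    filter_upwards [hmt.eventually hgF] with x hx
    simpa using hx
  have hu0 : g ((0 : ℂ × ℂ).1 - ψ (0 : ℂ × ℂ).2, (0 : ℂ × ℂ).2) ≠ 0 := by
    intro hcon
    apply h1
    have hline : AnalyticAt ℂ (fun t : ℂ => (t, (0 : ℂ))) 0 := analyticAt_id.prod analyticAt_const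
    have hline0 : (fun t : ℂ => (t, (0 : ℂ))) 0 = 0 := rfl
    have hline2 : Tendsto (fun t : ℂ => (t, (0 : ℂ))) (𝓝 0) (𝓝 0) := hline.continuousAt.tendsto
    have hld : HasDerivAt (fun t : ℂ => (t, (0 : ℂ))) ((1 : ℂ), (0 : ℂ)) 0 :=
      (hasDerivAt_id (0 : ℂ)).prodMk (hasDerivAt_const (0 : ℂ) (0 : ℂ))
    have e1 : HasDerivAt (fun t : ℂ => F (t, 0)) (dx F 0) 0 := by
      have h2 : HasFDerivAt F (fderiv ℂ F 0) ((fun t : ℂ => (t, (0 : ℂ))) 0) := hF.differentiableAt.hasFDerivAt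
      exact h2.comp_hasDerivAt (f := fun t : ℂ => (t, (0 : ℂ))) 0 hld
    have e2 : HasDerivAt (fun t : ℂ => (t - ψ 0) * g (t - ψ 0, 0)) 0 0 := by
      have h3 : DifferentiableAt ℂ (fun t : ℂ => g (t - ψ 0, 0)) 0 := by
        have h4 : AnalyticAt ℂ (fun x : ℂ × ℂ => g (x.1 - ψ x.2, x.2)) ((fun t : ℂ => (t, (0 : ℂ))) 0) := hu
        exact (AnalyticAt.comp (g := fun x : ℂ × ℂ => g (x.1 - ψ x.2, x.2)) (f := fun t : ℂ => (t, (0 : ℂ))) h4
          hline).differentiableAt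
      have h5 := ((hasDerivAt_id (0 : ℂ)).sub_const (ψ 0)).mul h3.hasDerivAt
      have h6 : g ((0 : ℂ) - ψ 0, 0) = 0 := hcon
      have h7 : HasDerivAt (fun t : ℂ => (t - ψ 0) * g (t - ψ 0, 0))
        (1 * g ((0 : ℂ) - ψ 0, 0) + ((0 : ℂ) - ψ 0) * deriv (fun t : ℂ => g (t - ψ 0, 0)) 0) 0 := h5
      have h8 : 1 * g ((0 : ℂ) - ψ 0, 0) + ((0 : ℂ) - ψ 0) * deriv (fun t : ℂ => g (t - ψ 0, 0)) 0 = 0 := by
        rw [h6, hψ0]; ring
      rw [h8] at h7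
      exact h7
    have e3 : (fun t : ℂ => F (t, 0)) =ᶠ[𝓝 0] fun t : ℂ => (t - ψ 0) * g (t - ψ 0, 0) := hline2.eventually hFu
    exact e1.unique (e2.congr_of_eventuallyEq e3)
  refine ⟨fun x => g (x.1 - ψ x.2, x.2), hu, hu0, ?_⟩
  have hsnd : Tendsto (fun x : ℂ × ℂ => x.2) (𝓝 0) (𝓝 0) := continuous_snd.tendsto (0 : ℂ × ℂ)
  by_cases hz : ∀ᶠ y in 𝓝 (0 : ℂ), ψ y = 0
  · left
    filter_upwards [hFu, hsnd.eventually hz] with x hx hy
    rw [hx, hy, sub_zero]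
  · right
    obtain ⟨n, v, hv, hv0, hev⟩ := hψ.exists_eventuallyEq_pow_smul_nonzero_iff.2 hz
    cases n with
    | zero =>
      exfalso
      have := hev.self_of_nhds
      rw [hψ0] at this
      simp at this
      exact hv0 this.symm
    | succ k =>
      refine ⟨k, v, hv, hv0, ?_⟩
      filter_upwards [hFu, hsnd.eventually hev] with x hx hy
      rw [sub_zero, smul_eq_mul] at hy
      rw [← hy]
      exact hx

theorem exists_root {F : ℂ × ℂ → ℂ} (hF : AnalyticAt ℂ F 0) (h0 : F 0 = 0) (h1 : dy F 0 ≠ 0) :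
    ∃ ρ : ℂ → ℂ, AnalyticAt ℂ ρ 0 ∧ ρ 0 = 0 ∧ ∀ᶠ x in 𝓝 (0 : ℂ), F (x, ρ x) = 0 := by
  have hs : AnalyticAt ℂ (fun x : ℂ × ℂ => (x.2, x.1)) 0 := analyticAt_snd.prod analyticAt_fst
  have hs0 : (fun x : ℂ × ℂ => (x.2, x.1)) 0 = 0 := rfl
  have hF' : AnalyticAt ℂ (fun x : ℂ × ℂ => F (x.2, x.1)) 0 := by
    have h2 : AnalyticAt ℂ F ((fun x : ℂ × ℂ => (x.2, x.1)) 0) := by rw [hs0]; exact hF
    exact AnalyticAt.comp (g := F) (f := fun x : ℂ × ℂ => (x.2, x.1)) h2 hs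
  have hd : dx (fun x : ℂ × ℂ => F (x.2, x.1)) 0 = dy F 0 := by
    have h3 : HasFDerivAt (fun x : ℂ × ℂ => (x.2, x.1))
        ((ContinuousLinearMap.snd ℂ ℂ ℂ).prod (ContinuousLinearMap.fst ℂ ℂ ℂ)) 0 :=
      hasFDerivAt_snd.prodMk hasFDerivAt_fst
    have h4 : HasFDerivAt F (fderiv ℂ F 0) ((fun x : ℂ × ℂ => (x.2, x.1)) 0) := hF.differentiableAt.hasFDerivAt
    have h5 := h4.comp (0 : ℂ × ℂ) h3
    unfold dx dy
    have h6 : fderiv ℂ (fun x : ℂ × ℂ => F (x.2, x.1)) 0 = (fderiv ℂ F 0).comp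
        ((ContinuousLinearMap.snd ℂ ℂ ℂ).prod (ContinuousLinearMap.fst ℂ ℂ ℂ)) := h5.fderiv
    rw [h6]
    simp
  obtain ⟨ψ, h2, h3, h4⟩ := SmoothF_root hF' h0 (by rw [hd]; exact h1)
  exact ⟨ψ, h2, h3, h4⟩

end Pool.Agent.H17BP

end
end

section

/-!
# The normal form of a germ of order `k + 1` in the second variable

`IsNF k c W`: `W = ∑_{j < k} c_j(x) y^j + y^(k+1) U` with `U` a unit (no term `y^k`).

`exists_taylor`: induction on `m`: `φ (x, y) - φ (x, 0)` is divisible by `y` (`exists_div_y`), `c_0 x = φ (x, 0)`.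

`exists_nf`.  Let `φ (0, y)` have order `k + 1` at `y = 0`.  Let `G = dy (dy … φ)` (`k` times), analytic at `0`
(`analyticAt_dy`).  The restriction of `G` to `x = 0` is the `k`-th derivative of `y ↦ φ (0, y)`, so `G 0 = 0` and
`dy G 0 = (k+1)-th derivative = (k+1)! * (leading coefficient) ≠ 0`.  `exists_root`: `G (x, ρ x) = 0`, `ρ 0 = 0`.
Let `φ' (x, y) = φ (x, y + ρ x)`; `∂_y^k φ' (x, 0) = G (x, ρ x) = 0`.  `exists_taylor` with `m = k + 1` for `φ'`: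
`φ' = ∑_{j ≤ k} c_j(x) y^j + y^(k+1) U`, and `k! c_k(x) = ∂_y^k φ' (x, 0) = 0`, so `c_k = 0` near `0`.
`c_j 0 = 0` for `j < k` and `U 0 ≠ 0` because `φ' (0, y) = φ (0, y)` (as `ρ 0 = 0`) has order exactly `k + 1`.
(One can avoid iterated derivatives: apply `exists_taylor` to `Φ (x, s, …)`; any proof is fine. A possible one:
write `φ = ∑_{j ≤ k} a_j(x) y^j + y^(k+1) V`, and note that the coefficient of `y^k` of `φ (x, y + s)` is
`A (x, s) = ∑_j a_j(x) C(j,k) s^(j-k) + …` — it is an analytic function of `(x, s)` with `A (0, 0) = 0` and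
`∂_s A (0, 0) = (k+1) V(0, 0) ≠ 0`.)
-/

open Topology Filter

noncomputable section

namespace Pool.Agent.H17BP

theorem exists_taylor (m : ℕ) : ∀ {φ : ℂ × ℂ → ℂ}, AnalyticAt ℂ φ 0 → ∃ (c : ℕ → ℂ → ℂ) (U : ℂ × ℂ → ℂ),
    (∀ j, AnalyticAt ℂ (c j) 0) ∧ AnalyticAt ℂ U 0 ∧
      ∀ᶠ x in 𝓝 (0 : ℂ × ℂ), φ x = ∑ j ∈ Finset.range m, c j x.1 * x.2 ^ j + x.2 ^ m * U x := by
  induction m with
  | zero =>
    intro φ hφ
    refine ⟨fun _ _ => 0, φ, fun _ => analyticAt_const, hφ, Eventually.of_forall fun x => ?_⟩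
    rw [Finset.sum_range_zero, pow_zero, one_mul, zero_add]
  | succ m ih =>
    intro φ hφ
    obtain ⟨c, U, hc, hU, he⟩ := ih hφ
    have hU0 : AnalyticAt ℂ (fun x : ℂ => U (x, 0)) 0 := by
      have h1 : AnalyticAt ℂ (fun x : ℂ => (x, (0 : ℂ))) 0 := analyticAt_id.prod analyticAt_const
      exact AnalyticAt.comp_of_eq (g := U) (f := fun x : ℂ => (x, (0 : ℂ))) hU h1 rfl
    have hU1 : AnalyticAt ℂ (fun z : ℂ × ℂ => U (z.1, 0)) 0 := by
      have h2 : AnalyticAt ℂ (fun x : ℂ => U (x, 0)) ((fun z : ℂ × ℂ => z.1) 0) := hU0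
      exact h2.comp analyticAt_fst
    obtain ⟨g, hg, hge⟩ := exists_div_y (f := fun z : ℂ × ℂ => U z - U (z.1, 0)) (hU.sub hU1)
      (Eventually.of_forall fun x => sub_self _)
    refine ⟨fun j => if j = m then fun x => U (x, 0) else c j, g, ?_, hg, ?_⟩
    · intro j
      dsimp only
      split_ifs
      · exact hU0
      · exact hc j
    · filter_upwards [he, hge] with z hz hz'
      rw [hz, Finset.sum_range_succ]
      have e1 : ∑ j ∈ Finset.range m, (if j = m then fun x => U (x, 0) else c j) z.1 * z.2 ^ j =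
          ∑ j ∈ Finset.range m, c j z.1 * z.2 ^ j := by
        refine Finset.sum_congr rfl fun j hj => ?_
        rw [if_neg (Finset.mem_range.1 hj).ne]
      rw [e1, if_pos rfl]
      have e2 : U z = U (z.1, 0) + z.2 * g z := by
        rw [smul_eq_mul] at hz'
        linear_combination hz'
      rw [e2]
      ring

private theorem NF_iter_an (n : ℕ) : ∀ {f : ℂ × ℂ → ℂ} {z : ℂ × ℂ}, AnalyticAt ℂ f z → AnalyticAt ℂ (dy^[n] f) z := by
  induction n with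
  | zero => intro f z h; exact h
  | succ n ih =>
    intro f z h
    rw [Function.iterate_succ_apply']
    exact analyticAt_dy (ih h)

private theorem NF_deriv {f : ℂ × ℂ → ℂ} {x y : ℂ} (h : AnalyticAt ℂ f (x, y)) :
    deriv (fun t : ℂ => f (x, t)) y = dy f (x, y) := by
  have h1 : HasFDerivAt f (fderiv ℂ f (x, y)) (x, y) := h.differentiableAt.hasFDerivAt
  have h2 : HasDerivAt (fun t : ℂ => (x, t)) ((0 : ℂ), (1 : ℂ)) y :=
    (hasDerivAt_const y x).prodMk (hasDerivAt_id y)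
  have h3 : HasDerivAt (fun t : ℂ => f (x, t)) (fderiv ℂ f (x, y) ((0 : ℂ), (1 : ℂ))) y :=
    HasFDerivAt.comp_hasDerivAt y h1 h2
  exact h3.deriv

private theorem NF_iter (n : ℕ) : ∀ {f : ℂ × ℂ → ℂ} {x y : ℂ}, AnalyticAt ℂ f (x, y) →
    iteratedDeriv n (fun t : ℂ => f (x, t)) y = (dy^[n] f) (x, y) := by
  induction n with
  | zero => intro f x y _; rw [iteratedDeriv_zero]; rfl
  | succ n ih =>
    intro f x y h
    rw [iteratedDeriv_succ, Function.iterate_succ_apply', ← NF_deriv (NF_iter_an n h)]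
    refine Filter.EventuallyEq.deriv_eq ?_
    have ht : Tendsto (fun t : ℂ => (x, t)) (𝓝 y) (𝓝 (x, y)) :=
      (continuous_const.prodMk continuous_id).tendsto y
    filter_upwards [ht.eventually h.eventually_analyticAt] with t ht'
    exact ih ht'

theorem exists_nf {k : ℕ} {φ : ℂ × ℂ → ℂ} (hφ : AnalyticAt ℂ φ 0)
    (ho : analyticOrderAt (fun y : ℂ => φ (0, y)) 0 = ((k + 1 : ℕ) : ℕ∞)) :
    ∃ ρ : ℂ → ℂ, AnalyticAt ℂ ρ 0 ∧ ρ 0 = 0 ∧ ∃ c : ℕ → ℂ → ℂ,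
      IsNF k c (fun x => φ (x.1, x.2 + ρ x.1)) := by
  have hφ' : AnalyticAt ℂ φ ((0 : ℂ), (0 : ℂ)) := hφ
  have hw : AnalyticAt ℂ (fun y : ℂ => φ (0, y)) 0 := by
    have h1 : AnalyticAt ℂ (fun y : ℂ => ((0 : ℂ), y)) 0 := analyticAt_const.prod analyticAt_id
    have h2 : AnalyticAt ℂ φ ((fun y : ℂ => ((0 : ℂ), y)) 0) := hφ
    exact h2.comp h1
  obtain ⟨g, hg, hg0, hge⟩ := hw.analyticOrderAt_eq_natCast.1 ho
  have hge' : ∀ᶠ y in 𝓝 (0 : ℂ), φ (0, y) = ∑ j ∈ Finset.range (k + 1), (fun _ : ℕ => (0 : ℂ)) j * y ^ j +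
      y ^ (k + 1) * g y := by
    filter_upwards [hge] with y hy
    rw [hy, sub_zero, smul_eq_mul, Finset.sum_eq_zero (fun j _ => zero_mul _), zero_add]
  have hd1 : iteratedDeriv (k + 1) (fun y : ℂ => φ (0, y)) 0 ≠ 0 := by
    rw [NF_coef (k + 1) (fun _ => 0) g _ hg hge']
    exact mul_ne_zero (by exact_mod_cast (Nat.factorial_ne_zero _)) hg0
  have hd0 : ∀ j < k + 1, iteratedDeriv j (fun y : ℂ => φ (0, y)) 0 = 0 := by
    intro j hj
    rw [NF_coef' (k + 1) j hj (fun _ => 0) g _ hg hge', mul_zero]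
  have hG0 : (dy^[k] φ) 0 = 0 := by
    have h := NF_iter k hφ'
    rw [hd0 k (Nat.lt_succ_self k)] at h
    exact h.symm
  have hG1 : dy (dy^[k] φ) 0 ≠ 0 := by
    have h := NF_iter (k + 1) hφ'
    rw [Function.iterate_succ_apply'] at h
    intro h'
    exact hd1 (h.trans h')
  obtain ⟨ρ, hρ, hρ0, hρe⟩ := exists_root (NF_iter_an k hφ) hG0 hG1
  have hψ : AnalyticAt ℂ (fun x : ℂ × ℂ => φ (x.1, x.2 + ρ x.1)) 0 := by
    have h1 : AnalyticAt ℂ (fun x : ℂ × ℂ => ρ x.1) 0 := by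
      have h2 : AnalyticAt ℂ ρ ((fun z : ℂ × ℂ => z.1) 0) := hρ
      exact h2.comp analyticAt_fst
    have h3 : AnalyticAt ℂ (fun x : ℂ × ℂ => (x.1, x.2 + ρ x.1)) 0 :=
      analyticAt_fst.prod (analyticAt_snd.add h1)
    refine AnalyticAt.comp_of_eq (g := φ) (f := fun x : ℂ × ℂ => (x.1, x.2 + ρ x.1)) hφ h3 ?_
    simp [hρ0]
  obtain ⟨c, U, hc, hU, he⟩ := exists_taylor (k + 1) hψ
  -- slices
  have hslice : ∀ᶠ x in 𝓝 (0 : ℂ), ∀ᶠ y in 𝓝 (0 : ℂ), φ (x, y + ρ x) =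
      ∑ j ∈ Finset.range (k + 1), c j x * y ^ j + y ^ (k + 1) * U (x, y) := by
    have he' : ∀ᶠ z in 𝓝 ((0 : ℂ), (0 : ℂ)), φ (z.1, z.2 + ρ z.1) =
      ∑ j ∈ Finset.range (k + 1), c j z.1 * z.2 ^ j + z.2 ^ (k + 1) * U z := he
    exact he'.curry_nhds
  have hUs : ∀ᶠ x in 𝓝 (0 : ℂ), AnalyticAt ℂ (fun y : ℂ => U (x, y)) 0 := by
    have ht : Tendsto (fun x : ℂ => (x, (0 : ℂ))) (𝓝 0) (𝓝 ((0 : ℂ), (0 : ℂ))) :=
      (continuous_id.prodMk continuous_const).tendsto 0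
    have hU' : AnalyticAt ℂ U ((0 : ℂ), (0 : ℂ)) := hU
    filter_upwards [ht.eventually hU'.eventually_analyticAt] with x hx
    have h1 : AnalyticAt ℂ (fun y : ℂ => (x, y)) 0 := analyticAt_const.prod analyticAt_id
    have h2 : AnalyticAt ℂ U ((fun y : ℂ => (x, y)) 0) := hx
    exact h2.comp h1
  have hφs : ∀ᶠ x in 𝓝 (0 : ℂ), AnalyticAt ℂ φ (x, ρ x) := by
    have ht : Tendsto (fun x : ℂ => (x, ρ x)) (𝓝 0) (𝓝 ((0 : ℂ), (0 : ℂ))) := by
      have := (continuousAt_id (x := (0 : ℂ))).prodMk hρ.continuousAt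
      have h2 := this.tendsto
      simp only [id_eq, hρ0] at h2
      exact h2
    exact ht.eventually hφ'.eventually_analyticAt
  have hck : ∀ᶠ x in 𝓝 (0 : ℂ), c k x = 0 := by
    filter_upwards [hslice, hUs, hφs, hρe] with x h1 h2 h3 h4
    have h5 := NF_coef' (k + 1) k (Nat.lt_succ_self k) (fun j => c j x) (fun y => U (x, y))
      (fun y => φ (x, y + ρ x)) h2 h1
    have h6 : iteratedDeriv k (fun y => φ (x, y + ρ x)) 0 = 0 := by
      rw [iteratedDeriv_comp_add_const k (fun y => φ (x, y)) (ρ x)]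
      dsimp only
      rw [zero_add, NF_iter k h3]
      exact h4
    rw [h6] at h5
    have h7 := h5.symm
    rcases mul_eq_zero.1 h7 with h8 | h8
    · exact absurd h8 (by exact_mod_cast (Nat.factorial_ne_zero _))
    · exact h8
  have hs0 := hslice.self_of_nhds
  have hU0a := hUs.self_of_nhds
  rw [hρ0] at hs0
  simp only [add_zero] at hs0
  refine ⟨ρ, hρ, hρ0, c, ?_, U, hU, ?_, ?_⟩
  · intro j hj
    refine ⟨hc j, ?_⟩
    have h5 := NF_coef' (k + 1) j (by omega) (fun j => c j 0) (fun y => U (0, y)) (fun y => φ (0, y)) hU0a hs0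
    rw [hd0 j (by omega)] at h5
    rcases mul_eq_zero.1 h5.symm with h8 | h8
    · exact absurd h8 (by exact_mod_cast (Nat.factorial_ne_zero _))
    · exact h8
  · have h5 := NF_coef (k + 1) (fun j => c j 0) (fun y => U (0, y)) (fun y => φ (0, y)) hU0a hs0
    intro h6
    apply hd1
    rw [h5]
    have h7 : U ((0 : ℂ), (0 : ℂ)) = 0 := h6
    rw [h7, mul_zero]
  · have hf : Tendsto (fun z : ℂ × ℂ => z.1) (𝓝 0) (𝓝 (0 : ℂ)) := continuous_fst.tendsto _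
    filter_upwards [he, hf.eventually hck] with z hz hz'
    rw [hz, Finset.sum_range_succ, hz', zero_mul, add_zero]

end Pool.Agent.H17BP

end
end

section

/-!
# Resolution of the singularities of a plane curve germ: the inner induction

`claim_inner`, strong induction on `K`.  `g = D₁^a D₂^b (W u)`.
1. Some `j < k` has `analyticOrderAt (c j) 0 < k + 1 - j`: `exists_slice` gives `SliceLE k W` (`v = (1, v)`), hence
   `SliceLE k (W u)` (the slice of the unit `u` has order `0`; `analyticOrderAt_mul`), and `hk` finishes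
   (`W u` is analytic at `0`: it agrees near `0` with `(∑ …) u`; note `W` itself is only eventually equal to an analytic
   function, which suffices).
2. Otherwise `nf_blow` applies.  `S = {c₀ | P c₀ = 0}`, `P c₀ = ∑ γ_j c₀^j + U₀ c₀^(k+1)`, is finite
   (`finite_roots`); use `uniform`.  For every `c₀`: near `0`, with `mono_bl`,
   `g (bl c₀ x) = x^(a+b) D^b' e ⬝ x^(k+1) ψ u'` (`u' = u ∘ bl c₀`), that is
   `x^(a+b+k+1) D^b' (ψ u' e)`, with `(x, D)` local coordinates and `e, u'` units.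
   * `c₀ ∉ S`: `ψ 0 = P c₀ ≠ 0`: `Mono`.
   * `c₀ ∈ S`, some `γ_j ≠ 0` (`j < k`): by `order_root` the slice of `ψ` along `(0, 1)` has order `≤ k`: `hk` for
     `ψ u' e` and the coordinates `(x, D)`.
   * `c₀ ∈ S`, all `γ_j = 0`: then `U₀ c₀^(k+1) = 0`, so `c₀ = 0`, and `IsNF k c' ψ`; for the given `j` with
     `analyticOrderAt (c j) 0 = K`: `K = (k+1-j) + ord (c' j)`, so `ord (c' j) = K' < K`: induction hypothesis with
     `W := ψ`, the unit `u' e` and the coordinates `(x, D)`.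
   * the chart `blInf`: `mono_blInf`, `g (blInf x) = y^(a+b+k+1) D^b' (ψ u' e)` with `ψ 0 ≠ 0`: `Mono` (coordinates
     `(y, D)`).
-/

open Topology Filter

noncomputable section

namespace Pool.Agent.H17BP

/-- The order of some slice is at most `m`. -/
def SliceLE (m : ℕ) (φ : ℂ × ℂ → ℂ) : Prop :=
  ∃ v : ℂ × ℂ, analyticOrderAt (fun z : ℂ => φ (z * v.1, z * v.2)) 0 ≤ (m : ℕ∞)

/-- The induction hypothesis of the resolution theorem. -/
def Claim (m : ℕ) : Prop :=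
  ∀ φ : ℂ × ℂ → ℂ, AnalyticAt ℂ φ 0 → SliceLE m φ → ∀ D₁ D₂, Coord D₁ D₂ → ∀ a b : ℕ,
    ∃ N, ResN N (fun x => D₁ x ^ a * D₂ x ^ b * φ x)

/-- slices are analytic -/
theorem ArtA_slice_an {φ : ℂ × ℂ → ℂ} (hφ : AnalyticAt ℂ φ 0) (v : ℂ × ℂ) :
    AnalyticAt ℂ (fun z : ℂ => φ (z * v.1, z * v.2)) 0 := by
  have h1 : AnalyticAt ℂ (fun z : ℂ => (z * v.1, z * v.2)) 0 :=
    (analyticAt_id.mul analyticAt_const).prod (analyticAt_id.mul analyticAt_const)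
  have h2 : AnalyticAt ℂ φ ((fun z : ℂ => (z * v.1, z * v.2)) 0) := by
    have h3 : (fun z : ℂ => (z * v.1, z * v.2)) 0 = 0 := by simp
    rw [h3]
    exact hφ
  exact AnalyticAt.comp (g := φ) (f := fun z : ℂ => (z * v.1, z * v.2)) h2 h1

/-- a unit does not change the order of a slice -/
theorem ArtA_slice_mul {φ u : ℂ × ℂ → ℂ} (hφ : AnalyticAt ℂ φ 0) (hu : AnalyticAt ℂ u 0) (hu0 : u 0 ≠ 0)
    {m : ℕ} (h : SliceLE m φ) : SliceLE m (fun x => φ x * u x) := by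
  obtain ⟨v, hv⟩ := h
  refine ⟨v, ?_⟩
  have h1 := ArtA_slice_an hφ v
  have h2 := ArtA_slice_an hu v
  have h3 : analyticOrderAt (fun z : ℂ => u (z * v.1, z * v.2)) 0 = 0 := by
    rw [h2.analyticOrderAt_eq_zero]
    have h5 : ((0 : ℂ) * v.1, (0 : ℂ) * v.2) = 0 := by simp
    rw [h5]
    exact hu0
  have h4 : (fun z : ℂ => (fun x => φ x * u x) (z * v.1, z * v.2)) =
      (fun z : ℂ => φ (z * v.1, z * v.2)) * fun z : ℂ => u (z * v.1, z * v.2) := rfl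
  rw [h4, analyticOrderAt_mul h1 h2, h3, add_zero]
  exact hv

/-- functions in normal form are analytic -/
theorem ArtA_nf_an {k : ℕ} {c : ℕ → ℂ → ℂ} {W : ℂ × ℂ → ℂ} (h : IsNF k c W) : AnalyticAt ℂ W 0 := by
  obtain ⟨h1, U, hU, -, h2⟩ := h
  have h3 : AnalyticAt ℂ (fun x : ℂ × ℂ => ∑ j ∈ Finset.range k, c j x.1 * x.2 ^ j + x.2 ^ (k + 1) * U x) 0 := by
    refine AnalyticAt.add ?_ ((analyticAt_snd.pow _).mul hU)
    refine Finset.analyticAt_fun_sum _ fun j hj => ?_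
    have h4 : AnalyticAt ℂ (c j) ((fun x : ℂ × ℂ => x.1) 0) := (h1 j (Finset.mem_range.1 hj)).1
    exact (AnalyticAt.comp (g := c j) (f := fun x : ℂ × ℂ => x.1) h4 analyticAt_fst).mul (analyticAt_snd.pow _)
  exact h3.congr (h2.mono fun x hx => hx.symm)

/-- composition of a unit with a chart -/
theorem ArtA_comp_an {u : ℂ × ℂ → ℂ} {β : ℂ × ℂ → ℂ × ℂ} (hu : AnalyticAt ℂ u 0) (hβ : AnalyticAt ℂ β 0)
    (h0 : β 0 = 0) : AnalyticAt ℂ (fun x => u (β x)) 0 := by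
  have h1 : AnalyticAt ℂ u (β 0) := by
    rw [h0]
    exact hu
  exact AnalyticAt.comp (g := u) (f := β) h1 hβ

theorem claim_inner {k : ℕ} (hk : Claim k) (K : ℕ) : ∀ {c : ℕ → ℂ → ℂ} {W : ℂ × ℂ → ℂ}, IsNF k c W →
    (∃ j < k, analyticOrderAt (c j) 0 = (K : ℕ∞)) → ∀ {D₁ D₂ : ℂ × ℂ → ℂ}, Coord D₁ D₂ → ∀ (a b : ℕ)
    {u : ℂ × ℂ → ℂ}, AnalyticAt ℂ u 0 → u 0 ≠ 0 →
    ∃ N, ResN N (fun x => D₁ x ^ a * D₂ x ^ b * (W x * u x)) := by
  induction K using Nat.strong_induction_on with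
  | _ K ih =>
  intro c W hW hj D₁ D₂ hD a b u hu hu0
  have hWan := ArtA_nf_an hW
  by_cases hs : ∃ j < k, analyticOrderAt (c j) 0 < ((k + 1 - j : ℕ) : ℕ∞)
  · obtain ⟨v, hv⟩ := exists_slice hW hs
    have h1 : SliceLE k W := by
      refine ⟨(1, v), ?_⟩
      simpa using hv
    exact hk _ (hWan.mul hu) (ArtA_slice_mul hWan hu hu0 h1) D₁ D₂ hD a b
  · push Not at hs
    obtain ⟨γ, U₀, c', hU₀, hc', hψ, ψ', hψ', hψ'0, hψ'e⟩ := nf_blow hW hs
    have hpart : ∀ c₀ : ℂ, ∃ (D : ℂ × ℂ → ℂ) (b' : ℕ) (e ψ : ℂ × ℂ → ℂ), Coord (fun x => x.1) D ∧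
        AnalyticAt ℂ e 0 ∧ e 0 ≠ 0 ∧ AnalyticAt ℂ ψ 0 ∧
        (∀ᶠ x in 𝓝 (0 : ℂ × ℂ), D₁ (bl c₀ x) ^ a * D₂ (bl c₀ x) ^ b * (W (bl c₀ x) * u (bl c₀ x)) =
          x.1 ^ (a + b + (k + 1)) * D x ^ b' * (ψ x * e x)) ∧
        (∀ᶠ w in 𝓝 (0 : ℂ), ψ (0, w) =
          ∑ j ∈ Finset.range k, γ j * (c₀ + w) ^ j + U₀ * (c₀ + w) ^ (k + 1)) ∧
        (c₀ = 0 → (∀ j < k, γ j = 0) → IsNF k c' ψ) := by
      intro c₀
      obtain ⟨D, b', e, hDc, he, he0, hee⟩ := mono_bl hD a b c₀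
      obtain ⟨ψ, hψa, hψe, hψw, hψn⟩ := hψ c₀
      have hu' := ArtA_comp_an hu (analyticAt_bl c₀ 0) (bl_zero c₀)
      refine ⟨D, b', fun x => u (bl c₀ x) * e x, ψ, hDc, hu'.mul he, ?_, hψa, ?_, hψw, hψn⟩
      · simp only [bl_zero]
        exact mul_ne_zero hu0 he0
      · filter_upwards [hee, hψe] with x h1 h2
        rw [h1, h2, pow_add x.1 (a + b) (k + 1)]
        ring
    have hval : ∀ (c₀ : ℂ) (ψ : ℂ × ℂ → ℂ), (∀ᶠ w in 𝓝 (0 : ℂ), ψ (0, w) =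
        ∑ j ∈ Finset.range k, γ j * (c₀ + w) ^ j + U₀ * (c₀ + w) ^ (k + 1)) →
        ψ 0 = ∑ j ∈ Finset.range k, γ j * c₀ ^ j + U₀ * c₀ ^ (k + 1) := by
      intro c₀ ψ h
      have h1 := h.self_of_nhds
      simp only [add_zero] at h1
      exact h1
    refine uniform (S := {c₀ : ℂ | ∑ j ∈ Finset.range k, γ j * c₀ ^ j + U₀ * c₀ ^ (k + 1) = 0})
      (finite_roots hU₀) ?_ ?_ ?_
    · intro c₀ hc₀
      obtain ⟨D, b', e, ψ, hDc, he, he0, hψa, hψe, hψw, -⟩ := hpart c₀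
      refine ⟨fun x => x.1, D, a + b + (k + 1), b', fun x => ψ x * e x, hDc, hψa.mul he, ?_, hψe⟩
      refine mul_ne_zero ?_ he0
      rw [hval c₀ ψ hψw]
      exact hc₀
    · intro c₀ hc₀
      obtain ⟨D, b', e, ψ, hDc, he, he0, hψa, hψe, hψw, hψn⟩ := hpart c₀
      by_cases hγ : ∃ j < k, γ j ≠ 0
      · have h1 : SliceLE k ψ := by
          refine ⟨(0, 1), ?_⟩
          have h2 := order_root hU₀ hγ c₀
          have h3 : analyticOrderAt (fun z : ℂ => ψ (z * (0, (1 : ℂ)).1, z * ((0 : ℂ), (1 : ℂ)).2)) 0 =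
              analyticOrderAt (fun w : ℂ => ∑ j ∈ Finset.range k, γ j * (c₀ + w) ^ j +
                U₀ * (c₀ + w) ^ (k + 1)) 0 := by
            refine analyticOrderAt_congr ?_
            filter_upwards [hψw] with w hw
            simpa using hw
          exact h3.trans_le h2
        obtain ⟨N, hN⟩ := hk _ (hψa.mul he) (ArtA_slice_mul hψa he he0 h1) _ _ hDc (a + b + (k + 1)) b'
        exact ⟨N, hN.congr hψe⟩
      · push Not at hγ
        have hz : c₀ = 0 := by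
          have h1 : ∑ j ∈ Finset.range k, γ j * c₀ ^ j + U₀ * c₀ ^ (k + 1) = 0 := hc₀
          rw [Finset.sum_eq_zero (fun j hj => by rw [hγ j (Finset.mem_range.1 hj), zero_mul]), zero_add] at h1
          rcases mul_eq_zero.1 h1 with h2 | h2
          · exact absurd h2 hU₀
          · exact eq_zero_of_pow_eq_zero h2
        have hn := hψn hz hγ
        obtain ⟨j, hjk, hjK⟩ := hj
        obtain ⟨hc1, hc2, hc3⟩ := hc' j hjk
        obtain ⟨h4, h5⟩ := ArtA_order hc1 hc3 hjK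
        obtain ⟨N, hN⟩ := ih (K - (k + 1 - j)) (by omega) hn ⟨j, hjk, h5⟩ hDc (a + b + (k + 1)) b' he he0
        exact ⟨N, hN.congr hψe⟩
    · obtain ⟨D, b', e, hDc, he, he0, hee⟩ := mono_blInf hD a b
      have hu' := ArtA_comp_an hu (analyticAt_blInf 0) blInf_zero
      refine ⟨0, ResN.of_mono ⟨fun x => x.2, D, a + b + (k + 1), b', fun x => ψ' x * (u (blInf x) * e x), hDc,
        hψ'.mul (hu'.mul he), ?_, ?_⟩ 0⟩
      · refine mul_ne_zero hψ'0 (mul_ne_zero ?_ he0)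
        simp only [blInf_zero]
        exact hu0
      · filter_upwards [hee, hψ'e] with x h1 h2
        simp only [Function.comp_apply]
        rw [h1, h2, pow_add x.2 (a + b) (k + 1)]
        ring

end Pool.Agent.H17BP

end
end

section

/-!
# A power of a smooth germ times exceptional curves

Let `θ'` be the inverse of the coordinate change `θ = (D₁, D₂)`; by `ResN.of_comp` (with `θ'`) it is enough to treat
`g ∘ θ' = x^a y^b (F ∘ θ')^n (u ∘ θ')`, and `F' = F ∘ θ'` has `F' 0 = 0` and a non-zero partial derivative (chain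
rule: `fderiv F' 0 = fderiv F 0 ∘ fderiv θ' 0` and `fderiv θ' 0` is surjective).
If `dx F' 0 ≠ 0`: `smooth_normal`: either `F' = x u'`: `Mono` with `S = x, T = y`, exponents `a + n`, `b`; or
`F' = (x - y^(k+1) v) u'`: `res_tangent`.
If `dy F' 0 ≠ 0`: compose with the swap (a `Bihol` map, `ResN.of_comp`) and exchange `a` and `b`.
-/

open Topology Filter

noncomputable section

namespace Pool.Agent.H17BP

private theorem PowF_lin (L : ℂ × ℂ →L[ℂ] ℂ) (h1 : L (1, 0) = 0) (h2 : L (0, 1) = 0) (w : ℂ × ℂ) : L w = 0 := by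
  have e : w = w.1 • ((1 : ℂ), (0 : ℂ)) + w.2 • ((0 : ℂ), (1 : ℂ)) := by
    ext <;> simp
  rw [e, map_add, map_smul, map_smul, h1, h2]
  simp

private theorem PowF_an {f : ℂ × ℂ → ℂ} (hf : AnalyticAt ℂ f 0) {θ : ℂ × ℂ → ℂ × ℂ} (hθ : Bihol θ) :
    AnalyticAt ℂ (fun x => f (θ x)) 0 := by
  have h2 : AnalyticAt ℂ f (θ 0) := by rw [hθ.zero]; exact hf
  exact AnalyticAt.comp (g := f) (f := θ) h2 hθ.an

private theorem PowF_x {F : ℂ × ℂ → ℂ} (hF : AnalyticAt ℂ F 0) (h0 : F 0 = 0) (h1 : dx F 0 ≠ 0) (a b n : ℕ)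
    {u : ℂ × ℂ → ℂ} (hu : AnalyticAt ℂ u 0) (hu0 : u 0 ≠ 0) :
    ∃ N, ResN N (fun x => x.1 ^ a * x.2 ^ b * F x ^ n * u x) := by
  obtain ⟨w, hw, hw0, h | ⟨k, v, hv, hv0, h⟩⟩ := smooth_normal hF h0 h1
  · refine ⟨0, fun x => x.1, fun x => x.2, a + n, b, fun x => w x ^ n * u x, coord_fst_snd, (hw.pow n).mul hu,
      mul_ne_zero (pow_ne_zero n hw0) hu0, ?_⟩
    filter_upwards [h] with x hx
    rw [hx]; ring
  · refine ⟨k + 1, (res_tangent k hv hv0 a b n (u := fun x => w x ^ n * u x) ((hw.pow n).mul hu)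
      (mul_ne_zero (pow_ne_zero n hw0) hu0)).congr ?_⟩
    filter_upwards [h] with x hx
    rw [hx, mul_pow]; ring

private theorem PowF_xy {F : ℂ × ℂ → ℂ} (hF : AnalyticAt ℂ F 0) (h0 : F 0 = 0) (h1 : dx F 0 ≠ 0 ∨ dy F 0 ≠ 0)
    (a b n : ℕ) {u : ℂ × ℂ → ℂ} (hu : AnalyticAt ℂ u 0) (hu0 : u 0 ≠ 0) :
    ∃ N, ResN N (fun x => x.1 ^ a * x.2 ^ b * F x ^ n * u x) := by
  rcases h1 with h1 | h1
  · exact PowF_x hF h0 h1 a b n hu hu0
  · have hs : Bihol (fun x : ℂ × ℂ => (x.2, x.1)) := coord_fst_snd.symm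
    have hd : dx (fun x : ℂ × ℂ => F (x.2, x.1)) 0 = dy F 0 := by
      have h3 : HasFDerivAt (fun x : ℂ × ℂ => (x.2, x.1))
          ((ContinuousLinearMap.snd ℂ ℂ ℂ).prod (ContinuousLinearMap.fst ℂ ℂ ℂ)) 0 :=
        hasFDerivAt_snd.prodMk hasFDerivAt_fst
      have h4 : HasFDerivAt F (fderiv ℂ F 0) ((fun x : ℂ × ℂ => (x.2, x.1)) 0) := hF.differentiableAt.hasFDerivAt
      have h5 := h4.comp (0 : ℂ × ℂ) h3
      unfold dx dy
      have h6 : fderiv ℂ (fun x : ℂ × ℂ => F (x.2, x.1)) 0 = (fderiv ℂ F 0).comp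
          ((ContinuousLinearMap.snd ℂ ℂ ℂ).prod (ContinuousLinearMap.fst ℂ ℂ ℂ)) := h5.fderiv
      rw [h6]
      simp
    obtain ⟨N, hN⟩ := PowF_x (PowF_an hF hs) h0 (by rw [hd]; exact h1) b a n (PowF_an hu hs) hu0
    refine ⟨N, ResN.of_comp hs (hN.congr (Eventually.of_forall fun x => ?_))⟩
    simp only [Function.comp_apply]
    ring

theorem res_pow {F : ℂ × ℂ → ℂ} (hF : AnalyticAt ℂ F 0) (h0 : F 0 = 0) (h1 : dx F 0 ≠ 0 ∨ dy F 0 ≠ 0)
    {D₁ D₂ : ℂ × ℂ → ℂ} (hD : Coord D₁ D₂) (a b n : ℕ) {u : ℂ × ℂ → ℂ} (hu : AnalyticAt ℂ u 0)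
    (hu0 : u 0 ≠ 0) : ∃ N, ResN N (fun x => D₁ x ^ a * D₂ x ^ b * F x ^ n * u x) := by
  have hD' : Bihol (fun x => (D₁ x, D₂ x)) := hD
  obtain ⟨θ', hθ', h3, h4⟩ := hD'.exists_inv
  have hF' := PowF_an hF hθ'
  have h1' : dx (fun x => F (θ' x)) 0 ≠ 0 ∨ dy (fun x => F (θ' x)) 0 ≠ 0 := by
    by_contra hcon
    rw [not_or, not_not, not_not] at hcon
    have hz := PowF_lin (fderiv ℂ (fun x => F (θ' x)) 0) hcon.1 hcon.2
    have hev : F =ᶠ[𝓝 0] (fun x => F (θ' x)) ∘ (fun x => (D₁ x, D₂ x)) := by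
      filter_upwards [h3] with x hx
      simp only [Function.comp_apply]
      rw [hx]
    have h5 : HasFDerivAt (fun x => F (θ' x)) (fderiv ℂ (fun x => F (θ' x)) 0) ((fun x => (D₁ x, D₂ x)) 0) := by
      have h8 : (fun x => (D₁ x, D₂ x)) (0 : ℂ × ℂ) = 0 := hD'.zero
      rw [h8]
      exact hF'.differentiableAt.hasFDerivAt
    have h6 := h5.comp (0 : ℂ × ℂ) hD'.an.differentiableAt.hasFDerivAt
    have h7 := (h6.congr_of_eventuallyEq hev).fderiv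
    rcases h1 with h1 | h1
    · apply h1
      unfold dx
      rw [h7]
      exact hz _
    · apply h1
      unfold dy
      rw [h7]
      exact hz _
  obtain ⟨N, hN⟩ := PowF_xy hF' (by simp only [hθ'.zero]; exact h0) h1' a b n (PowF_an hu hθ')
    (by simp only [hθ'.zero]; exact hu0)
  refine ⟨N, ResN.of_comp hθ' (hN.congr ?_)⟩
  filter_upwards [h4] with x hx
  have e1 : D₁ (θ' x) = x.1 := congrArg Prod.fst hx
  have e2 : D₂ (θ' x) = x.2 := congrArg Prod.snd hx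
  simp only [Function.comp_apply]
  rw [e1, e2]

end Pool.Agent.H17BP

end
end

section

/-!
# Resolution of the singularities of a plane curve germ

`claim_zero`: a slice of order `0` means `φ 0 ≠ 0` (the slice at `z = 0` is `φ 0`): `Mono`, `ResN 0`.
`claim_succ`: let the slice of `φ` along `v` have order `≤ k + 1`.  If it is `≤ k`: `hk`.  So let it be `k + 1`; then
`v ≠ 0` (the slice along `0` is constant: order `0` or `⊤`).  `exists_lin`: `θ` with `θ (0, y) = y v`, so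
`φ₁ = φ ∘ θ` has `analyticOrderAt (fun y => φ₁ (0, y)) 0 = k + 1`; `exists_nf`: with
`θ₂ (x, y) = (x, y + ρ x)` (`bihol_shift`) `φ₁ ∘ θ₂` is `IsNF k c`.  Let `Θ = θ ∘ θ₂`; by `ResN.of_comp` it is enough
to treat `(D₁ ∘ Θ)^a (D₂ ∘ Θ)^b (φ ∘ Θ)`, with `φ ∘ Θ` in normal form `IsNF k c` and `Coord (D₁ ∘ Θ) (D₂ ∘ Θ)`
(`Bihol.comp`).  If some `c j`, `j < k`, has finite order: `claim_inner` with `u = 1`.  Otherwise all `c j` vanish
near `0` and `φ ∘ Θ = y^(k+1) U` near `0` (the condition near `x = 0` pulls back to the product neighbourhood):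
`res_pow` with `F = x.2` (`dy F 0 = 1`), `n = k + 1`.
-/

open Topology Filter

noncomputable section

namespace Pool.Agent.H17BP

theorem claim_zero : Claim 0 := by
  intro φ hφ hs D₁ D₂ hD a b
  obtain ⟨v, hv⟩ := hs
  have h1 : analyticOrderAt (fun z : ℂ => φ (z * v.1, z * v.2)) 0 = 0 := by
    simpa using hv
  rw [(ArtA_slice_an hφ v).analyticOrderAt_eq_zero] at h1
  have h2 : ((0 : ℂ) * v.1, (0 : ℂ) * v.2) = 0 := by simp
  rw [h2] at h1
  exact ⟨0, D₁, D₂, a, b, φ, hD, hφ, h1, Eventually.of_forall fun x => rfl⟩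

theorem claim_succ {k : ℕ} (hk : Claim k) : Claim (k + 1) := by
  intro φ hφ hs D₁ D₂ hD a b
  by_cases hs1 : SliceLE k φ
  · exact hk φ hφ hs1 D₁ D₂ hD a b
  obtain ⟨v, hv⟩ := hs
  have hv1 : ((k : ℕ) : ℕ∞) < analyticOrderAt (fun z : ℂ => φ (z * v.1, z * v.2)) 0 := by
    by_contra h
    push Not at h
    exact hs1 ⟨v, h⟩
  have hv2 : analyticOrderAt (fun z : ℂ => φ (z * v.1, z * v.2)) 0 = ((k + 1 : ℕ) : ℕ∞) := by
    refine le_antisymm hv ?_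
    have h1 := Order.add_one_le_of_lt hv1
    exact_mod_cast h1
  have hv0 : v ≠ 0 := by
    intro h
    subst h
    have h1 := ArtA_slice_an hφ 0
    have h2 : analyticOrderAt (fun z : ℂ => φ (z * (0 : ℂ × ℂ).1, z * (0 : ℂ × ℂ).2)) 0 ≠ ⊤ := by
      rw [hv2]
      exact ENat.natCast_ne_top _
    have h3 : analyticOrderAt (fun z : ℂ => φ (z * (0 : ℂ × ℂ).1, z * (0 : ℂ × ℂ).2)) 0 ≠ 0 := by
      rw [hv2]
      exact_mod_cast Nat.succ_ne_zero k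
    rw [Ne, h1.analyticOrderAt_eq_zero, not_not] at h3
    rw [Ne, analyticOrderAt_eq_top] at h2
    refine h2 (Eventually.of_forall fun z => ?_)
    simpa using h3
  obtain ⟨θ, hθ, hθy⟩ := exists_lin hv0
  have hφ1 : AnalyticAt ℂ (fun x => φ (θ x)) 0 := ArtA_comp_an hφ hθ.an hθ.zero
  have ho : analyticOrderAt (fun y : ℂ => (fun x => φ (θ x)) (0, y)) 0 = ((k + 1 : ℕ) : ℕ∞) := by
    have h1 : (fun y : ℂ => (fun x => φ (θ x)) (0, y)) = fun z : ℂ => φ (z * v.1, z * v.2) := by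
      funext y
      simp only [hθy]
    rw [h1]
    exact hv2
  obtain ⟨ρ, hρ, hρ0, c, hc⟩ := exists_nf hφ1 ho
  have hθ2 := bihol_shift hρ hρ0
  have hΘ := hθ.comp hθ2
  obtain ⟨Θ, hΘe⟩ : ∃ Θ : ℂ × ℂ → ℂ × ℂ, Θ = θ ∘ fun x : ℂ × ℂ => (x.1, x.2 + ρ x.1) := ⟨_, rfl⟩
  rw [← hΘe] at hΘ
  have hc' : IsNF k c (φ ∘ Θ) := by
    rw [hΘe]
    exact hc
  have hDΘ : Coord (D₁ ∘ Θ) (D₂ ∘ Θ) := Bihol.comp hD hΘ
  have hfin : ∃ N, ResN N ((fun x => D₁ x ^ a * D₂ x ^ b * φ x) ∘ Θ) := by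
    by_cases hf : ∃ j < k, analyticOrderAt (c j) 0 ≠ ⊤
    · obtain ⟨j, hjk, hj⟩ := hf
      obtain ⟨K, hK⟩ := ENat.ne_top_iff_exists.1 hj
      obtain ⟨N, hN⟩ := claim_inner hk K hc' ⟨j, hjk, hK.symm⟩ hDΘ a b (u := fun _ => 1) analyticAt_const
        one_ne_zero
      refine ⟨N, hN.congr (Eventually.of_forall fun x => ?_)⟩
      simp
    · push Not at hf
      obtain ⟨-, U, hU, hU0, hUe⟩ := hc'
      have h1 : ∀ᶠ x in 𝓝 (0 : ℂ × ℂ), ∀ j ∈ Finset.range k, c j x.1 = 0 := by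
        rw [Finset.eventually_all]
        intro j hj
        have h2 := analyticOrderAt_eq_top.1 (hf j (Finset.mem_range.1 hj))
        have h3 : Tendsto (fun x : ℂ × ℂ => x.1) (𝓝 0) (𝓝 0) := continuous_fst.tendsto 0
        exact h3.eventually h2
      obtain ⟨N, hN⟩ := res_pow (F := fun x : ℂ × ℂ => x.2) analyticAt_snd rfl (Or.inr (by
        have h2 : fderiv ℂ (fun x : ℂ × ℂ => x.2) 0 = ContinuousLinearMap.snd ℂ ℂ ℂ := fderiv_snd
        unfold dy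
        rw [h2]
        simp)) hDΘ a b (k + 1) hU hU0
      refine ⟨N, hN.congr ?_⟩
      filter_upwards [hUe, h1] with x h2 h3
      simp only [Function.comp_apply] at h2 ⊢
      rw [h2, Finset.sum_eq_zero (fun j hj => by rw [h3 j hj, zero_mul]), zero_add]
      ring
  obtain ⟨N, hN⟩ := hfin
  exact ⟨N, ResN.of_comp hΘ hN⟩

theorem claim (m : ℕ) : Claim m := by
  induction m with
  | zero => exact claim_zero
  | succ k ih => exact claim_succ ih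

/-- **Resolution of a plane curve germ** by finitely many point blow-ups. -/
theorem exists_resN {g : ℂ × ℂ → ℂ} (hg : AnalyticAt ℂ g 0) (h : ¬ ∀ᶠ x in 𝓝 (0 : ℂ × ℂ), g x = 0) :
    ∃ n, ResN n g := by
  obtain ⟨m, v, hv⟩ := exists_slice_of_ne hg h
  obtain ⟨N, hN⟩ := claim m g hg ⟨v, hv⟩ _ _ coord_fst_snd 0 0
  exact ⟨N, hN.congr (Eventually.of_forall fun x => by simp)⟩

end Pool.Agent.H17BP

end
end
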