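import Pool.Agent.H94.G6.M28
import Pool.Agent.H94.G6.M40
import Pool.Agent.H94.G6.M57
import Pool.Agent.H94.G6.M58
import Pool.Agent.H94.G6.M67
import Pool.Agent.H94.G6.M74

/-! The parts of this file: E1.ChowC, H17BP.ResS, H62.BU.SurfB, H17BP.BlowM. -/

section

/-!
# E1 ChowC: a curve in a surface, given locally by one equation, is covered by finitely many discs

`Z ⊆ X` is a subcone of the cone of a smooth closed surface, given near every point by one equation `g = 0`, `g` not identically zero.  Then there are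
finitely many analytic discs `γ i : closedBall 0 1 → Z` such that every point of `Z` is a multiple of a point `γ i z`, `|z| ≤ 1/2`.
-/

set_option autoImplicit false

open Topology Filter Metric

noncomputable section

namespace Pool.Agent.E1

open Pool.Agent.H17BP (Surface IsChart LocalEq ResN)

variable {V : Type} [NormedAddCommGroup V] [NormedSpace ℂ V]

/-- the discs over a neighbourhood of a point of the surface -/
theorem discs_near [CompleteSpace V] {X Z : Set V} (hZX : Z ⊆ X) (hZs : ∀ x ∈ Z, ∀ c : ℂ, c ≠ 0 → c • x ∈ Z)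
    (hdisc : ∀ (n : ℕ) (g : ℂ × ℂ → ℂ), ResN n g → ∀ W ∈ 𝓝 (0 : ℂ × ℂ),
      ∃ (r : ℕ) (c : Fin r → ℂ → ℂ × ℂ), (∀ i, AnalyticOnNhd ℂ (c i) (closedBall 0 1)) ∧
      (∀ i, ∀ z ∈ closedBall (0 : ℂ) 1, c i z ∈ W ∧ g (c i z) = 0) ∧
      ∀ᶠ p in 𝓝 (0 : ℂ × ℂ), g p = 0 → ∃ i, ∃ z ∈ closedBall (0 : ℂ) (1 / 2), c i z = p)
    {σ : ℂ × ℂ → V} {τ : V → ℂ × ℂ} {g : ℂ × ℂ → ℂ} (hσ : IsChart X σ τ) (hg : LocalEq Z σ g) (hne : ¬ ∀ᶠ p in 𝓝 (0 : ℂ × ℂ), g p = 0) :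
    ∃ T : Set (ℂ → V), T.Finite ∧ (∀ γ ∈ T, AnalyticOnNhd ℂ γ (closedBall 0 1) ∧ ∀ z ∈ closedBall (0 : ℂ) 1, γ z ∈ Z) ∧
      ∀ᶠ y in 𝓝 (σ 0), y ∈ Z → ∃ γ ∈ T, ∃ z ∈ closedBall (0 : ℂ) (1 / 2), ∃ c : ℂ, c ≠ 0 ∧ γ z = c • y := by
  obtain ⟨n, hn⟩ := Pool.Agent.H17BP.exists_resN hg.1 hne
  have hW : {p : ℂ × ℂ | AnalyticAt ℂ σ p ∧ (σ p ∈ Z ↔ g p = 0)} ∈ 𝓝 (0 : ℂ × ℂ) :=
    hσ.σ_an.eventually_analyticAt.and hg.2
  obtain ⟨r, c, hc1, hc2, hc3⟩ := hdisc n g hn _ hW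
  have hτ0 : τ (σ 0) = 0 := hσ.left.self_of_nhds
  have hτ : Tendsto τ (𝓝 (σ 0)) (𝓝 0) := by
    have h1 := hσ.τ_an.continuousAt.tendsto
    rwa [hτ0] at h1
  refine ⟨Set.range fun i => σ ∘ c i, Set.finite_range _, ?_, ?_⟩
  · rintro γ ⟨i, rfl⟩
    refine ⟨fun z hz => ?_, fun z hz => ?_⟩
    · exact AnalyticAt.comp (hc2 i z hz).1.1 (hc1 i z hz)
    · exact (hc2 i z hz).1.2.2 (hc2 i z hz).2
  · filter_upwards [hσ.right, hτ.eventually hc3, hτ.eventually hg.2] with y h1 h2 h3 hy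
    obtain ⟨a, ha, hya⟩ := h1 (hZX hy)
    have h4 : σ (τ y) = a⁻¹ • y := by
      conv_rhs => rw [hya]
      rw [smul_smul, inv_mul_cancel₀ ha, one_smul]
    have h5 : σ (τ y) ∈ Z := by
      rw [h4]
      exact hZs y hy _ (inv_ne_zero ha)
    obtain ⟨i, z, hz, hcz⟩ := h2 (h3.1 h5)
    refine ⟨_, ⟨i, rfl⟩, z, hz, a⁻¹, inv_ne_zero ha, ?_⟩
    simp only [Function.comp_apply]
    rw [hcz, h4]

/-- **The cover.** -/
theorem exists_discs [FiniteDimensional ℂ V] {X Z : Set V} (hX : Surface X) (hZX : Z ⊆ X) (hZs : ∀ x ∈ Z, ∀ c : ℂ, c ≠ 0 → c • x ∈ Z)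
    (hdisc : ∀ (n : ℕ) (g : ℂ × ℂ → ℂ), ResN n g → ∀ W ∈ 𝓝 (0 : ℂ × ℂ),
      ∃ (r : ℕ) (c : Fin r → ℂ → ℂ × ℂ), (∀ i, AnalyticOnNhd ℂ (c i) (closedBall 0 1)) ∧
      (∀ i, ∀ z ∈ closedBall (0 : ℂ) 1, c i z ∈ W ∧ g (c i z) = 0) ∧
      ∀ᶠ p in 𝓝 (0 : ℂ × ℂ), g p = 0 → ∃ i, ∃ z ∈ closedBall (0 : ℂ) (1 / 2), c i z = p)
    (hloc : ∀ x ∈ X, ∃ (σ : ℂ × ℂ → V) (τ : V → ℂ × ℂ) (g : ℂ × ℂ → ℂ), IsChart X σ τ ∧ σ 0 = x ∧ LocalEq Z σ g ∧
      ¬ ∀ᶠ p in 𝓝 (0 : ℂ × ℂ), g p = 0) :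
    ∃ (r : ℕ) (γ : Fin r → ℂ → V), (∀ i, AnalyticOnNhd ℂ (γ i) (closedBall 0 1)) ∧
      (∀ i, ∀ z ∈ closedBall (0 : ℂ) 1, γ i z ∈ Z) ∧
      ∀ x ∈ Z, ∃ i, ∃ z ∈ closedBall (0 : ℂ) (1 / 2), ∃ c : ℂ, c ≠ 0 ∧ γ i z = c • x := by
  have : ProperSpace V := FiniteDimensional.proper ℂ V
  have : CompleteSpace V := FiniteDimensional.complete ℂ V
  have hK : IsCompact (X ∩ sphere (0 : V) 1) := by
    refine (isCompact_sphere (0 : V) 1).of_isClosed_subset ?_ Set.inter_subset_right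
    refine isClosed_of_closure_subset fun x hx => ?_
    have h1 : x ∈ sphere (0 : V) 1 := by
      have h2 : closure (X ∩ sphere (0 : V) 1) ⊆ sphere (0 : V) 1 := closure_minimal Set.inter_subset_right isClosed_sphere
      exact h2 hx
    have h3 : x ≠ 0 := by
      rintro rfl
      simp at h1
    exact ⟨hX.closed x (closure_mono Set.inter_subset_left hx) h3, h1⟩
  obtain ⟨T, hT1, hT2, hT3⟩ : ∃ T : Set (ℂ → V), T.Finite ∧ (∀ γ ∈ T, AnalyticOnNhd ℂ γ (closedBall 0 1) ∧ ∀ z ∈ closedBall (0 : ℂ) 1, γ z ∈ Z) ∧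
      ∀ y ∈ X ∩ sphere (0 : V) 1, y ∈ Z → ∃ γ ∈ T, ∃ z ∈ closedBall (0 : ℂ) (1 / 2), ∃ c : ℂ, c ≠ 0 ∧ γ z = c • y := by
    refine hK.induction_on (p := fun S : Set V => ∃ T : Set (ℂ → V), T.Finite ∧
      (∀ γ ∈ T, AnalyticOnNhd ℂ γ (closedBall 0 1) ∧ ∀ z ∈ closedBall (0 : ℂ) 1, γ z ∈ Z) ∧
      ∀ y ∈ S, y ∈ Z → ∃ γ ∈ T, ∃ z ∈ closedBall (0 : ℂ) (1 / 2), ∃ c : ℂ, c ≠ 0 ∧ γ z = c • y) ?_ ?_ ?_ ?_
    · exact ⟨∅, Set.finite_empty, by simp, by simp⟩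
    · rintro s t hst ⟨T, h1, h2, h3⟩
      exact ⟨T, h1, h2, fun y hy => h3 y (hst hy)⟩
    · rintro s t ⟨T, h1, h2, h3⟩ ⟨T', h1', h2', h3'⟩
      refine ⟨T ∪ T', h1.union h1', ?_, ?_⟩
      · rintro γ (h | h)
        · exact h2 γ h
        · exact h2' γ h
      · rintro y (h | h) hy
        · obtain ⟨γ, h4, h5⟩ := h3 y h hy
          exact ⟨γ, Or.inl h4, h5⟩
        · obtain ⟨γ, h4, h5⟩ := h3' y h hy
          exact ⟨γ, Or.inr h4, h5⟩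
    · rintro x ⟨hx, -⟩
      obtain ⟨σ, τ, g, h1, h2, h3, h4⟩ := hloc x hx
      obtain ⟨T, h5, h6, h7⟩ := discs_near hZX hZs hdisc h1 h3 h4
      rw [h2] at h7
      exact ⟨_, mem_nhdsWithin_of_mem_nhds h7, T, h5, h6, fun y hy => hy⟩
  obtain ⟨r, e⟩ := Finite.exists_equiv_fin (α := T) (h := hT1)
  obtain ⟨e⟩ := e
  refine ⟨r, fun i => (e.symm i).1, fun i => (hT2 _ (e.symm i).2).1, fun i => (hT2 _ (e.symm i).2).2, fun x hx => ?_⟩
  have hx0 : x ≠ 0 := by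
    rintro rfl
    exact hX.zero (hZX hx)
  have hn : (‖x‖ : ℂ) ≠ 0 := by
    simpa using hx0
  have h1 : (‖x‖ : ℂ)⁻¹ • x ∈ Z := hZs x hx _ (inv_ne_zero hn)
  have h2 : (‖x‖ : ℂ)⁻¹ • x ∈ sphere (0 : V) 1 := by
    rw [mem_sphere_zero_iff_norm, norm_smul, norm_inv, Complex.norm_real, norm_norm]
    exact inv_mul_cancel₀ (norm_ne_zero_iff.2 hx0)
  obtain ⟨γ, hγ, z, hz, c, hc, hcz⟩ := hT3 _ ⟨hZX h1, h2⟩ h1
  refine ⟨e ⟨γ, hγ⟩, z, hz, c * (‖x‖ : ℂ)⁻¹, mul_ne_zero hc (inv_ne_zero hn), ?_⟩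
  simp only [Equiv.symm_apply_apply]
  rw [hcz, smul_smul]

end Pool.Agent.E1

end
end

section

/-!
# The resolution number at a point of the surface

* `ResAt.chart`: let `σ, τ, g` be as in `ResAt`; `σ' p = c • σ (θ p)`, `c ≠ 0` near `0` (`IsChart.trans`).  As `B` is a cone,
  `σ' p ∈ B ↔ σ (θ p) ∈ B ↔ g (θ p) = 0`: `g ∘ θ` is a local equation, `ResN.comp`.
* `ResAt.pr`: `IsChart.scale` of the chart (the value at `0` is `a • x = y`) and `ResAt.chart`.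
* `ResAt.near`: for `y ∈ X` near `x`: `y = c • σ (τ y)`, `p = τ y` near `0` (`τ x = 0`); `p ≠ 0` because `y` is not proportional
  to `x = σ 0`.  `IsChart.near`: `x ↦ σ (p + x)` is a chart at `σ p`, `g (p + ·)` a local equation
  (`eventually_eventually_nhds`), `Mono` by `ResN.near`.  So `ResAt X B (σ p) 0`, then `ResAt.pr`.
* `exists_resAt`: choose a chart `σ` at `x` (`Surface.chart`) and `i` (`Eqs.gen`); `g p = Q i (σ p)` is analytic at `0`, and for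
  `p` near `0`: `σ p ∈ B ↔ g p = 0` (`mem_iff`, `gen`); `g` does not vanish identically near `0` by `thin`; `exists_resN`.
* `ResAt.of_notMem`: `x ∉ B`: with `i` and `g` as before, `g 0 = Q i x ≠ 0` (otherwise `x ∈ B` by `gen`,
  `self_of_nhds`), so `Mono g` with `a = b = 0`.
* `ResAt.nodal`: `g = S^a T^b u`.  Let `θ = (S, T)`, `θ'` the inverse germ; the chart `σ ∘ θ'` (`IsChart.comp`), in
  which `B` is given by `g (θ' x) = x.1^a x.2^b u(θ' x) = 0`.  If `a = b = 0`: not in `B` near `0`; `b = 0`, `a ≠ 0`: `x.1 = 0`;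
  `a ≠ 0`, `b ≠ 0`: `x.1 x.2 = 0`; `a = 0`, `b ≠ 0`: exchange `S`, `T` (`Coord.symm`).
-/

open Topology Filter

noncomputable section

namespace Pool.Agent.H17BP

variable {V : Type} [NormedAddCommGroup V] [NormedSpace ℂ V] {X B : Set V} {σ' : ℂ × ℂ → V} {τ' : V → ℂ × ℂ}
  {x y : V} {n k : ℕ}

theorem ResAt.mono_le (h : ResAt X B x n) (hnk : n ≤ k) : ResAt X B x k := by
  obtain ⟨σ, τ, g, h1, h2, h3, h4⟩ := h
  exact ⟨σ, τ, g, h1, h2, h3, h4.mono_le hnk⟩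

private theorem ResS_pr_mem (hB : ∀ x ∈ B, ∀ c : ℂ, c ≠ 0 → c • x ∈ B) (h : Pr x y) : x ∈ B ↔ y ∈ B := by
  obtain ⟨c, hc, rfl⟩ := h
  refine ⟨fun h1 => ?_, fun h1 => hB _ h1 c hc⟩
  have h2 := hB _ h1 c⁻¹ (inv_ne_zero hc)
  rwa [smul_smul, inv_mul_cancel₀ hc, one_smul] at h2

theorem ResAt.chart (hX : ∀ x ∈ X, ∀ c : ℂ, c ≠ 0 → c • x ∈ X) (hB : ∀ x ∈ B, ∀ c : ℂ, c ≠ 0 → c • x ∈ B)
    (h : ResAt X B x n) (h' : IsChart X σ' τ') (h0 : Pr (σ' 0) x) : ∃ g, LocalEq B σ' g ∧ ResN n g := by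
  obtain ⟨σ, τ, g, hc, hx, hg, hr⟩ := h
  rw [← hx] at h0
  obtain ⟨θ, hθ, hev⟩ := IsChart.trans hX hc h' h0
  refine ⟨g ∘ θ, ⟨?_, ?_⟩, hr.comp hθ⟩
  · have h1 : AnalyticAt ℂ g (θ 0) := by rw [hθ.zero]; exact hg.1
    exact h1.comp hθ.an
  · filter_upwards [hev, hθ.tendsto.eventually hg.2] with p hp1 hp2
    rw [ResS_pr_mem hB hp1]
    exact hp2

theorem ResAt.pr (hX : ∀ x ∈ X, ∀ c : ℂ, c ≠ 0 → c • x ∈ X) (hB : ∀ x ∈ B, ∀ c : ℂ, c ≠ 0 → c • x ∈ B)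
    (h : ResAt X B x n) (hy : Pr y x) : ResAt X B y n := by
  obtain ⟨σ, τ, g, hc, hx, hg, hr⟩ := h
  obtain ⟨a, ha, rfl⟩ := hy
  refine ⟨fun p => a • σ p, fun y => τ (a⁻¹ • y), g, hc.scale hX ha, ?_, ⟨hg.1, ?_⟩, hr⟩
  · show a • σ 0 = a • x
    rw [hx]
  · filter_upwards [hg.2] with p hp
    rw [ResS_pr_mem hB (⟨a, ha, rfl⟩ : Pr (a • σ p) (σ p))]
    exact hp

/-- Near `x` the curve is a monomial in local coordinates at all points different from `x`. -/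
theorem ResAt.near [FiniteDimensional ℂ V] (hX : ∀ x ∈ X, ∀ c : ℂ, c ≠ 0 → c • x ∈ X) (hB : ∀ x ∈ B, ∀ c : ℂ, c ≠ 0 → c • x ∈ B)
    (h : ResAt X B x n) : ∀ᶠ y in 𝓝 x, y ∈ X → ¬ Pr y x → ResAt X B y 0 := by
  obtain ⟨σ, τ, g, hc, hx, hg, hr⟩ := h
  have hτ0 : τ (σ 0) = 0 := hc.left.self_of_nhds
  have hτ : Tendsto τ (𝓝 (σ 0)) (𝓝 0) := by
    have h1 := hc.τ_an.continuousAt.tendsto
    rwa [hτ0] at h1
  have hadd : ∀ p : ℂ × ℂ, Tendsto (fun x : ℂ × ℂ => p + x) (𝓝 0) (𝓝 p) := fun p => by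
    have h1 : Continuous fun x : ℂ × ℂ => p + x := by fun_prop
    have h2 := h1.tendsto 0
    simpa using h2
  have e1 : ∀ᶠ p in 𝓝 (0 : ℂ × ℂ), LocalEq B (fun x => σ (p + x)) (fun x => g (p + x)) := by
    filter_upwards [hg.1.eventually_analyticAt, eventually_eventually_nhds.2 hg.2] with p hp1 hp2
    refine ⟨?_, (hadd p).eventually hp2⟩
    have h1 : AnalyticAt ℂ (fun x : ℂ × ℂ => p + x) 0 := analyticAt_const.add analyticAt_id
    have h2 : AnalyticAt ℂ g ((fun x : ℂ × ℂ => p + x) 0) := by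
      simp only [add_zero]
      exact hp1
    exact h2.comp h1
  have e2 : ∀ᶠ p in 𝓝 (0 : ℂ × ℂ), p ≠ 0 → Mono fun x => g (p + x) :=
    eventually_nhdsWithin_iff.1 (ResN.near hr)
  have e3 : ∀ᶠ p in 𝓝 (0 : ℂ × ℂ), p ≠ 0 → ResAt X B (σ p) 0 := by
    filter_upwards [hc.near, e1, e2] with p hp1 hp2 hp3 hp0
    exact ⟨_, _, _, hp1, by simp, hp2, hp3 hp0⟩
  rw [← hx]
  filter_upwards [hc.right, hτ.eventually e3] with y hy1 hy2 hyX hyn
  obtain ⟨c, hc0, hyc⟩ := hy1 hyX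
  have hne : τ y ≠ 0 := by
    intro h0
    rw [h0] at hyc
    exact hyn ⟨c, hc0, hyc⟩
  exact (hy2 hne).pr hX hB ⟨c, hc0, hyc⟩

private theorem ResS_localEq (hX : Surface X) {κ : Type} {Q : κ → V → ℂ} {D : ℕ} (hE : Eqs X B Q D)
    (hx : x ∈ X) : ∃ σ τ g, IsChart X σ τ ∧ σ 0 = x ∧ LocalEq B σ g := by
  obtain ⟨σ, τ, hc, hσ⟩ := hX.chart x hx
  obtain ⟨i, hi⟩ := hE.gen x hx
  refine ⟨σ, τ, fun p => Q i (σ p), hc, hσ, (hE.an i (σ 0)).comp hc.σ_an, ?_⟩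
  have ht : Tendsto σ (𝓝 0) (𝓝 x) := by
    have h1 := hc.σ_an.continuousAt.tendsto
    rwa [hσ] at h1
  filter_upwards [hc.σ_mem, ht.eventually hi] with p hp1 hp2
  exact ⟨fun h => ((hE.mem_iff _).1 h).2 i, fun h => hp2 hp1 h⟩

theorem exists_resAt (hX : Surface X) {κ : Type} {Q : κ → V → ℂ} {D : ℕ} (hE : Eqs X B Q D)
    (ht : ∀ σ τ, IsChart X σ τ → ∃ᶠ p in 𝓝 (0 : ℂ × ℂ), σ p ∉ B) (hx : x ∈ X) : ∃ n, ResAt X B x n := by
  obtain ⟨σ, τ, g, hc, hσ, hg⟩ := ResS_localEq hX hE hx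
  have hne : ¬ ∀ᶠ p in 𝓝 (0 : ℂ × ℂ), g p = 0 := by
    intro h0
    have h1 := ht σ τ hc
    refine h1 ?_
    filter_upwards [hg.2, h0] with p hp1 hp2 hp3
    exact hp3 (hp1.2 hp2)
  obtain ⟨n, hn⟩ := exists_resN hg.1 hne
  exact ⟨n, σ, τ, g, hc, hσ, hg, hn⟩

theorem ResAt.of_notMem (hX : Surface X) {κ : Type} {Q : κ → V → ℂ} {D : ℕ} (hE : Eqs X B Q D) (hx : x ∈ X)
    (hB : x ∉ B) : ResAt X B x 0 := by
  obtain ⟨σ, τ, g, hc, hσ, hg⟩ := ResS_localEq hX hE hx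
  have h1 := hg.2.self_of_nhds
  rw [hσ] at h1
  have hne : g 0 ≠ 0 := fun h0 => hB (h1.2 h0)
  have hm : Mono g := ⟨_, _, 0, 0, g, coord_fst_snd, hg.1, hne, Eventually.of_forall fun p => by simp⟩
  exact ⟨σ, τ, g, hc, hσ, hg, hm⟩

private theorem ResS_nodal_aux {σ : ℂ × ℂ → V} {τ : V → ℂ × ℂ} {g : ℂ × ℂ → ℂ} (hc : IsChart X σ τ)
    (hx : σ 0 = x) (hg : LocalEq B σ g) {S T u : ℂ × ℂ → ℂ} {a b : ℕ} (hST : Coord S T)
    (hu : AnalyticAt ℂ u 0) (hu0 : u 0 ≠ 0) (hev : ∀ᶠ x in 𝓝 0, g x = S x ^ a * T x ^ b * u x)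
    (hab : a = 0 → b = 0) : NodalAt X B x := by
  have hθ : Bihol fun x => (S x, T x) := hST
  obtain ⟨θ', hθ', h1, h2⟩ := hθ.exists_inv
  have hne : ∀ᶠ p in 𝓝 (0 : ℂ × ℂ), u p ≠ 0 := hu.continuousAt.eventually_ne hu0
  have hkey : ∀ᶠ p in 𝓝 (0 : ℂ × ℂ), (σ (θ' p) ∈ B ↔ p.1 ^ a * p.2 ^ b = 0) := by
    filter_upwards [hθ'.tendsto.eventually hg.2, hθ'.tendsto.eventually hev, hθ'.tendsto.eventually hne, h2]
      with p hp1 hp2 hp3 hp4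
    have e1 : S (θ' p) = p.1 := congrArg Prod.fst hp4
    have e2 : T (θ' p) = p.2 := congrArg Prod.snd hp4
    rw [hp1, hp2, e1, e2, mul_eq_zero]
    exact ⟨fun h => h.resolve_right hp3, Or.inl⟩
  refine ⟨_, _, hc.comp hθ' hθ h2 h1, ?_, ?_⟩
  · show σ (θ' 0) = x
    rw [hθ'.zero, hx]
  · by_cases ha : a = 0
    · left
      have hb := hab ha
      subst ha
      subst hb
      filter_upwards [hkey] with p hp h3
      have h4 := hp.1 h3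
      simp at h4
    · right
      by_cases hb : b = 0
      · left
        subst hb
        filter_upwards [hkey] with p hp
        rw [hp, pow_zero, mul_one]
        exact ⟨fun h => eq_zero_of_pow_eq_zero h, fun h => by rw [h, zero_pow ha]⟩
      · right
        filter_upwards [hkey] with p hp
        rw [hp, mul_eq_zero, mul_eq_zero]
        refine or_congr ?_ ?_
        · exact ⟨fun h => eq_zero_of_pow_eq_zero h, fun h => by rw [h, zero_pow ha]⟩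
        · exact ⟨fun h => eq_zero_of_pow_eq_zero h, fun h => by rw [h, zero_pow hb]⟩

theorem ResAt.nodal (h : ResAt X B x 0) : NodalAt X B x := by
  obtain ⟨σ, τ, g, hc, hx, hg, hr⟩ := h
  obtain ⟨S, T, a, b, u, hST, hu, hu0, hev⟩ := (hr : Mono g)
  by_cases hab : a = 0 → b = 0
  · exact ResS_nodal_aux hc hx hg hST hu hu0 hev hab
  · push Not at hab
    refine ResS_nodal_aux hc hx hg hST.symm hu hu0 (a := b) (b := a) ?_ (fun h => absurd h hab.2)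
    filter_upwards [hev] with p hp
    rw [hp, mul_comm (S p ^ a)]

end Pool.Agent.H17BP

end
end

section

/-!
# BU SurfB: the blow-up is a surface (proof: header of `Cov.lean`)

`blow_local`: the local form of a curve.  `f` is a local equation of `B` in the chart `σ` at `q`: at every point of the blow-up there is a chart in which the total transform has the local equation `f ∘ σ⁻¹`-pullback:
* off the exceptional curve: chart `c • phi l (σ p)`, `σ` a chart of `X` at `x`, and (near `0`) the point is in `total` iff `σ p ∈ B`;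
* over `q`: chart `c • σ1`, `σ1 (u, v) ∈ total ↔ σ (e (u, u v)) ∈ B`, for a linear isomorphism `e`.
-/

set_option autoImplicit false

namespace Pool.Agent.H62.BU

open Filter Topology

variable {V : Type*} [NormedAddCommGroup V] [NormedSpace ℂ V] {ι : Type*} [Fintype ι]
variable {l : ι → V →L[ℂ] ℂ} {X : Set V} {σ : ℂ × ℂ → V} {τ : V → ℂ × ℂ}

private theorem SurfB_smul_mem {B : Set V} (hB : ∀ x ∈ B, ∀ c : ℂ, c ≠ 0 → c • x ∈ B) {c : ℂ} (hc : c ≠ 0) (x : V) :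
    c • x ∈ B ↔ x ∈ B := by
  refine ⟨fun h => ?_, fun h => hB x h c hc⟩
  have h1 := hB _ h c⁻¹ (inv_ne_zero hc)
  rwa [smul_smul, inv_mul_cancel₀ hc, one_smul] at h1

private theorem SurfB_fderiv (h : IsChart X σ τ) (e : (ℂ × ℂ) ≃L[ℂ] (ℂ × ℂ)) (w : ℂ × ℂ) :
    fderiv ℂ (fun p => σ (e p)) 0 w = fderiv ℂ σ 0 (e w) := by
  have h1 : DifferentiableAt ℂ σ (e 0) := by
    rw [map_zero]
    exact h.σ_an.differentiableAt
  have h2 : HasFDerivAt (fun p => σ (e p)) ((fderiv ℂ σ (e 0)).comp (e : (ℂ × ℂ) →L[ℂ] (ℂ × ℂ))) 0 :=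
    h1.hasFDerivAt.comp 0 e.hasFDerivAt
  rw [h2.fderiv]
  simp [map_zero]

/-- chart of the blow-up at a point over `q` -/
private theorem SurfB_exc [FiniteDimensional ℂ V] (hX : Surface X) {q : V} (hl : Ker l q) (h : IsChart X σ τ) (h0 : σ 0 = q)
    {w : ℂ × ℂ} (hw : w ≠ 0) {c : ℂ} (hc : c ≠ 0) :
    ∃ (e : (ℂ × ℂ) ≃L[ℂ] (ℂ × ℂ)) (σ1 : ℂ × ℂ → ι → V) (τ1 : (ι → V) → ℂ × ℂ), IsChart (blow l X) σ1 τ1 ∧
      (σ1 0 = c • fun b => l b (fderiv ℂ σ 0 w) • q) ∧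
      ∀ᶠ p in 𝓝 (0 : ℂ × ℂ), c • phi l (σ (e (p.1, p.1 * p.2))) = p.1 • σ1 p := by
  obtain ⟨e, he⟩ := exists_equiv hw
  obtain ⟨σ1, τ1, h1, h2, h3⟩ := chart_exc hX hl (h.comp_linear e) (by simp only [map_zero]; exact h0)
  refine ⟨e, _, _, h1.scale blow_smul hc, ?_, ?_⟩
  · rw [h3]
    simp only [SurfB_fderiv h e, he]
  · filter_upwards [h2] with p hp
    rw [hp, smul_comm]

theorem surface_blow [FiniteDimensional ℂ V] (hX : Surface X) {q : V} (hl : Ker l q) (hq : q ∈ X) : Surface (blow l X) := by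
  refine ⟨blow_zero, blow_smul, blow_closed, fun y hy => ?_⟩
  obtain ⟨σ, τ, h, h0⟩ := hX.chart q hq
  rcases blow_cover hX hl h h0 y hy with hd | ⟨w, hw, c, hc, rfl⟩
  · obtain ⟨x, hx, ⟨b, hb⟩, c, hc, rfl⟩ := hd
    obtain ⟨σ', τ', h', h0'⟩ := hX.chart x hx
    have hb' : l b (σ' 0) ≠ 0 := by rw [h0']; exact hb
    refine ⟨_, _, (chart_off hX h' hb').scale blow_smul hc, ?_⟩
    simp only [h0']
  · obtain ⟨e, σ1, τ1, h1, h2, -⟩ := SurfB_exc hX hl h h0 hw hc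
    exact ⟨σ1, τ1, h1, h2⟩

theorem mem_total_iff {B : Set V} (hX : Surface X) (hB : ∀ x ∈ B, ∀ c : ℂ, c ≠ 0 → c • x ∈ B) (y : ι → V) (hy : y ∈ blow l X) {b : ι} (hb : y b ≠ 0) :
    y ∈ total l X B ↔ y b ∈ B := by
  refine ⟨fun h => h.2 b hb, fun h => ⟨hy, fun b' hb' => ?_⟩⟩
  obtain ⟨c, hc⟩ := comp_smul y hy hb b'
  have hc0 : c ≠ 0 := by
    rintro rfl
    rw [zero_smul] at hc
    exact hb' hc
  rw [hc]
  exact hB _ h c hc0

theorem blow_local [FiniteDimensional ℂ V] (hX : Surface X) {q : V} (hl : Ker l q) (h : IsChart X σ τ) (h0 : σ 0 = q) {B : Set V}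
    (hB : ∀ x ∈ B, ∀ c : ℂ, c ≠ 0 → c • x ∈ B) (y : ι → V) (hy : y ∈ blow l X) :
    (∃ σ' τ', IsChart X σ' τ' ∧ (∃ b, l b (σ' 0) ≠ 0) ∧ ∃ σ1 τ1, IsChart (blow l X) σ1 τ1 ∧ σ1 0 = y ∧
      (∃ c : ℂ, c ≠ 0 ∧ ∀ p, σ1 p = c • phi l (σ' p)) ∧ ∀ᶠ p in 𝓝 (0 : ℂ × ℂ), (σ1 p ∈ total l X B ↔ σ' p ∈ B)) ∨
    ∃ (e : (ℂ × ℂ) ≃L[ℂ] (ℂ × ℂ)) (σ1 : ℂ × ℂ → ι → V) (τ1 : (ι → V) → ℂ × ℂ), IsChart (blow l X) σ1 τ1 ∧ σ1 0 = y ∧
      ∀ᶠ p in 𝓝 (0 : ℂ × ℂ), (σ1 p ∈ total l X B ↔ σ (e (p.1, p.1 * p.2)) ∈ B) := by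
  rcases blow_cover hX hl h h0 y hy with hd | ⟨w, hw, c, hc, rfl⟩
  · left
    obtain ⟨x, hx, ⟨b, hb⟩, c, hc, rfl⟩ := hd
    obtain ⟨σ', τ', h', h0'⟩ := hX.chart x hx
    have hb' : l b (σ' 0) ≠ 0 := by rw [h0']; exact hb
    have h1 := (chart_off hX h' hb').scale blow_smul hc
    refine ⟨σ', τ', h', ⟨b, hb'⟩, _, _, h1, by simp only [h0'], ⟨c, hc, fun p => rfl⟩, ?_⟩
    have hcont : ContinuousAt (fun p => l b (σ' p)) 0 :=
      (l b).continuous.continuousAt.comp h'.σ_an.continuousAt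
    filter_upwards [h1.σ_mem, h'.σ_mem, hcont.eventually_ne hb'] with p hp hp' hpb
    have hne : σ' p ≠ 0 := fun h0 => hX.zero (h0 ▸ hp')
    have hval : (c • phi l (σ' p)) b = (c * l b (σ' p)) • σ' p := by
      simp only [phi, Pi.smul_apply, smul_smul]
    have hk : c * l b (σ' p) ≠ 0 := mul_ne_zero hc hpb
    have hvne : (c • phi l (σ' p)) b ≠ 0 := by
      rw [hval]
      exact smul_ne_zero hk hne
    rw [mem_total_iff hX hB _ hp hvne, hval]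
    exact SurfB_smul_mem hB hk _
  · right
    obtain ⟨e, σ1, τ1, h1, h2, h3⟩ := SurfB_exc hX hl h h0 hw hc
    refine ⟨e, σ1, τ1, h1, h2, ?_⟩
    have hq0 : σ 0 ≠ 0 := h.ne
    obtain ⟨Λ, -, hΛ⟩ := exists_dual_vector ℂ (σ 0) (norm_ne_zero_iff.mpr hq0)
    have hΛ0 : Λ (σ 0) ≠ 0 := by
      rw [hΛ]
      simpa using hq0
    have hinner : AnalyticAt ℂ (fun p : ℂ × ℂ => e (p.1, p.1 * p.2)) 0 := by
      have h4 : AnalyticAt ℂ (fun p : ℂ × ℂ => (p.1, p.1 * p.2)) 0 :=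
        analyticAt_fst.prod (analyticAt_fst.mul analyticAt_snd)
      exact ((e : (ℂ × ℂ) →L[ℂ] (ℂ × ℂ)).analyticAt _).comp h4
    have hz : e ((0 : ℂ × ℂ).1, (0 : ℂ × ℂ).1 * (0 : ℂ × ℂ).2) = 0 := by simp
    have hσe : AnalyticAt ℂ (fun p : ℂ × ℂ => σ (e (p.1, p.1 * p.2))) 0 := by
      refine AnalyticAt.fun_comp (g := σ) ?_ hinner
      rw [hz]
      exact h.σ_an
    have hcomp : ∀ b, AnalyticAt ℂ (fun p => σ1 p b) 0 := fun b =>
      ((ContinuousLinearMap.proj (R := ℂ) (φ := fun _ : ι => V) b).analyticAt _).comp h1.σ_an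
    have hG : ∀ b, AnalyticAt ℂ (fun p : ℂ × ℂ => Λ (σ (e (p.1, p.1 * p.2))) • σ1 p b - Λ (σ1 p b) • σ (e (p.1, p.1 * p.2))) 0 := by
      intro b
      exact (((Λ.analyticAt _).comp hσe).smul (hcomp b)).sub (((Λ.analyticAt _).comp (hcomp b)).smul hσe)
    have hG0 : ∀ b, ∀ᶠ p in 𝓝 (0 : ℂ × ℂ), Λ (σ (e (p.1, p.1 * p.2))) • σ1 p b - Λ (σ1 p b) • σ (e (p.1, p.1 * p.2)) = 0 := by
      intro b
      have h5 : ∀ᶠ p in 𝓝 (0 : ℂ × ℂ), p.1 ≠ 0 →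
          Λ (σ (e (p.1, p.1 * p.2))) • σ1 p b - Λ (σ1 p b) • σ (e (p.1, p.1 * p.2)) = 0 := by
        filter_upwards [h3] with p hp hp1
        have h6 : σ1 p = p.1⁻¹ • (c • phi l (σ (e (p.1, p.1 * p.2)))) := by
          rw [hp, smul_smul, inv_mul_cancel₀ hp1, one_smul]
        have h7 : σ1 p b = (p.1⁻¹ * (c * l b (σ (e (p.1, p.1 * p.2))))) • σ (e (p.1, p.1 * p.2)) := by
          rw [h6]
          simp only [phi, Pi.smul_apply, smul_smul]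
        rw [h7, map_smul, smul_eq_mul, smul_smul, mul_comm, sub_self]
      filter_upwards [(hG b).eventually_analyticAt, h5.eventually_nhds] with p hp1 hp2
      have h8 : ∃ᶠ p' in 𝓝 p, p'.1 ≠ 0 := by
        have h9 : Dense (({0}ᶜ : Set ℂ) ×ˢ (Set.univ : Set ℂ)) := (dense_compl_singleton (0 : ℂ)).prod dense_univ
        have h10 := mem_closure_iff_frequently.mp (h9 p)
        refine h10.mono fun p' hp' => ?_
        exact hp'.1
      have h11 := (h8.and_eventually hp2).mono fun p' hp' => hp'.2 hp'.1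
      exact tendsto_nhds_unique_of_frequently_eq hp1.continuousAt tendsto_const_nhds h11
    have hΛe : ∀ᶠ p in 𝓝 (0 : ℂ × ℂ), Λ (σ (e (p.1, p.1 * p.2))) ≠ 0 := by
      have h12 : ContinuousAt (fun p : ℂ × ℂ => Λ (σ (e (p.1, p.1 * p.2)))) 0 :=
        ((Λ.analyticAt _).comp hσe).continuousAt
      refine h12.eventually_ne ?_
      rw [hz]
      exact hΛ0
    filter_upwards [h1.σ_mem, eventually_all.mpr hG0, hΛe] with p hp hpG hpΛ
    obtain ⟨b, hb⟩ := exists_ne (σ1 p) hp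
    have h13 : σ1 p b = ((Λ (σ (e (p.1, p.1 * p.2))))⁻¹ * Λ (σ1 p b)) • σ (e (p.1, p.1 * p.2)) := by
      rw [mul_smul, ← sub_eq_zero.mp (hpG b), smul_smul, inv_mul_cancel₀ hpΛ, one_smul]
    have hk : (Λ (σ (e (p.1, p.1 * p.2))))⁻¹ * Λ (σ1 p b) ≠ 0 := by
      intro h14
      rw [h14, zero_smul] at h13
      exact hb h13
    rw [mem_total_iff hX hB _ hp hb, h13]
    exact SurfB_smul_mem hB hk _

end Pool.Agent.H62.BU

end

section

/-!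
# The blow-up of a model at a point of the curve

* `exists_forms`: choose a continuous linear form `Λ` with `Λ q = 1` and a basis of `V` with coordinate forms `e_i`
  (`Module.finBasis`, `LinearMap.toContinuousLinearMap`); `l i v = e_i (v - Λ v • q)`.  All `l i v = 0` iff `v = Λ v • q`.
* `eqs_blow`: `mem_iff` is `H62.BU.total_eq`.  `gen` at `y ∈ blow`: choose `b` with `y b ≠ 0` (`exists_ne`) and `i` for the
  point `y b ∈ X`.  For `y'` near `y` in the blow-up: `y' b ≠ 0`, `y' b ∈ X` near `y b`; `Q i (y' b) = 0` gives `y' b ∈ B`,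
  so `y' ∈ total` (`mem_total_iff`).
* `thin_blow`: let `σ1` be a chart of the blow-up, `y = σ1 0`; take a chart `σ` of `X` at `q` and the chart of
  `H62.BU.blow_local` at `y`; by `IsChart.trans` (and the cone property of `total`) it is enough to treat this chart (if
  `σ1 p ∈ total` for all `p` near `0` then the same holds for the other chart: `Pr (σ1' p) (σ1 (θ p))`, `θ p → 0`).
  First case: `thin` for the chart `σ'` of `X`.  Second case: otherwise `σ (e (p.1, p.1 * p.2)) ∈ B` for all `p` near `0`; so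
  for a local equation `g` of `B` in the chart `σ` (`Eqs.gen`, `g = Q i ∘ σ`) `g (e (s, s * t)) = 0` for small `s, t`.
  `g ∘ e` is analytic on a ball around `0` and vanishes at `(s, u)` for small `s` and `|u| < δ |s|`, i.e. near the point
  `(s₀, 0)`, `s₀ ≠ 0` small; identity theorem on the ball (`AnalyticOnNhd.eqOn_zero_of_preconnected_of_eventuallyEq_zero`):
  `g ∘ e = 0` near `0`, `g = 0` near `0`, against `thin` for `σ`.
* `resAt_blow`: let `σ, τ, g` be as in `ResAt X B q (n + 1)`.  As `Mono g` would give `ResAt X B q 0`, `ResN n (g ∘ β)` for all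
  `BChart β`.  `H62.BU.blow_local` with the chart `σ` at `y`: second case: `β p = e (p.1, p.1 * p.2)` is a `BChart`
  (`e` is `Bihol`, `β = e ∘ bl 0 ∘ id`), `g ∘ β` is a local equation of `total` in the chart `σ1`.  First case:
  `x = σ' 0`, `y = c • phi l x`, `¬ Pr x q` because `l b x ≠ 0`; if `ResAt X B x k` then (`ResAt.chart`) there is `g` with
  `LocalEq B σ' g`, `ResN k g`, and `LocalEq (total l X B) σ1 g`.
-/

open Topology Filter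

noncomputable section

namespace Pool.Agent.H17BP

open Pool.Agent.H62.BU (blow total Ker phi om)

variable {V : Type} [NormedAddCommGroup V] [NormedSpace ℂ V] {ι : Type} [Fintype ι] {l : ι → V →L[ℂ] ℂ}
  {X B : Set V} {q : V} {m j : ℕ} {Ω : V → V → V → ℂ} {κ : Type} {Q : κ → V → ℂ} {D : ℕ}

theorem exists_forms [FiniteDimensional ℂ V] (hq : q ≠ 0) : ∃ (r : ℕ) (l : Fin r → V →L[ℂ] ℂ), Ker l q := by
  obtain ⟨Λ, hΛ⟩ := exists_dual_vector ℂ q (norm_ne_zero_iff.mpr hq)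
  have hΛ0 : Λ q ≠ 0 := by
    rw [hΛ.2]
    simpa using hq
  obtain ⟨b, hb⟩ : ∃ b : Module.Basis (Fin (Module.finrank ℂ V)) ℂ V, b = Module.finBasis ℂ V :=
    ⟨_, rfl⟩
  refine ⟨Module.finrank ℂ V, fun i => (LinearMap.toContinuousLinearMap (b.coord i)).comp
    (Λ q • ContinuousLinearMap.id ℂ V - Λ.smulRight q), fun v => ?_⟩
  have hl : ∀ i, ((LinearMap.toContinuousLinearMap (b.coord i)).comp
      (Λ q • ContinuousLinearMap.id ℂ V - Λ.smulRight q)) v = b.coord i (Λ q • v - Λ v • q) := by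
    intro i
    simp
  constructor
  · intro h
    have h1 : Λ q • v - Λ v • q = 0 := by
      rw [← b.forall_coord_eq_zero_iff]
      intro i
      rw [← hl i]
      exact h i
    refine ⟨(Λ q)⁻¹ * Λ v, ?_⟩
    rw [mul_smul, ← sub_eq_zero.1 h1, smul_smul, inv_mul_cancel₀ hΛ0, one_smul]
  · rintro ⟨c, hc⟩ i
    rw [hl i]
    have h1 : Λ q • v - Λ v • q = 0 := by
      rw [hc, map_smul, smul_eq_mul, smul_smul, mul_comm, sub_self]
    rw [h1, map_zero]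

private theorem BlowM_proj {κ' : Type} (b : ι) {R : κ' → V → ℂ} {i : κ'} {x : ι → V}
    (h : AnalyticAt ℂ (R i) (x b)) : AnalyticAt ℂ (fun y : ι → V => R i (y b)) x :=
  AnalyticAt.comp (g := R i) (f := fun y : ι → V => y b) h
    ((ContinuousLinearMap.proj (R := ℂ) (φ := fun _ : ι => V) b).analyticAt x)

theorem eqs_blow (hX : Surface X) (hE : Eqs X B Q D) :
    Eqs (blow l X) (total l X B) (fun (p : κ × ι) (y : ι → V) => Q p.1 (y p.2)) D := by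
  have hX' := surface_iff.2 hX
  refine ⟨hE.pos, fun i x => BlowM_proj i.2 (hE.an i.1 _), fun i c x => hE.smul i.1 c _,
    fun y => ?_, fun y hy => ?_⟩
  · rw [H62.BU.total_eq hX' (by have := hE.pos; omega) hE.smul hE.mem_iff]
    exact ⟨fun h => ⟨h.1, fun i => h.2 i.1 i.2⟩, fun h => ⟨h.1, fun i b => h.2 (i, b)⟩⟩
  · obtain ⟨b, hb⟩ := H62.BU.exists_ne y hy
    obtain ⟨i, hi⟩ := hE.gen (y b) (H62.BU.comp_mem hX' y hy hb)
    refine ⟨(i, b), ?_⟩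
    have h1 : Tendsto (fun y' : ι → V => y' b) (𝓝 y) (𝓝 (y b)) := (continuous_apply b).tendsto y
    filter_upwards [h1.eventually hi, h1.eventually_ne hb] with y' h2 h3 hy' hQ
    rw [H62.BU.mem_total_iff hX' (hE.cone hX.smul) y' hy' h3]
    exact h2 (H62.BU.comp_mem hX' y' hy' h3) hQ

/-- a local equation -/
private theorem BlowM_eq (hE : Eqs X B Q D) {σ : ℂ × ℂ → V} {τ : V → ℂ × ℂ} (h : IsChart X σ τ) :
    ∃ g, LocalEq B σ g := by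
  obtain ⟨i, hi⟩ := hE.gen (σ 0) h.σ_mem.self_of_nhds
  refine ⟨fun p => Q i (σ p), (hE.an i _).comp h.σ_an, ?_⟩
  have h1 : Tendsto σ (𝓝 0) (𝓝 (σ 0)) := h.σ_an.continuousAt
  filter_upwards [h1.eventually hi, h.σ_mem] with p h2 h3
  exact ⟨fun h4 => ((hE.mem_iff _).1 h4).2 i, fun h4 => h2 h3 h4⟩

/-- a germ which vanishes after the blow-up vanishes -/
private theorem BlowM_van {G : ℂ × ℂ → ℂ} (hG : AnalyticAt ℂ G 0)
    (h : ∀ᶠ p : ℂ × ℂ in 𝓝 0, G (p.1, p.1 * p.2) = 0) : ∀ᶠ p in 𝓝 (0 : ℂ × ℂ), G p = 0 := by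
  obtain ⟨r, hr, hGr⟩ := hG.exists_ball_analyticOnNhd
  have ht : Tendsto (fun s : ℂ => ((s, 0) : ℂ × ℂ)) (𝓝[≠] 0) (𝓝 0) := by
    have h1 : Tendsto (fun s : ℂ => ((s, 0) : ℂ × ℂ)) (𝓝 0) (𝓝 (0, 0)) :=
      (continuous_id.prodMk continuous_const).tendsto 0
    exact h1.mono_left nhdsWithin_le_nhds
  obtain ⟨s, ⟨h1, h2⟩, h3⟩ := ((ht.eventually (h.eventually_nhds.and (Metric.ball_mem_nhds 0 hr))).and
    (self_mem_nhdsWithin : ∀ᶠ s in 𝓝[≠] (0 : ℂ), s ∈ ({0}ᶜ : Set ℂ))).exists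
  have hs : s ≠ 0 := h3
  have hψ : Tendsto (fun w : ℂ × ℂ => ((w.1, w.2 / w.1) : ℂ × ℂ)) (𝓝 (s, 0)) (𝓝 (s, 0)) := by
    have h4 : ContinuousAt (fun w : ℂ × ℂ => ((w.1, w.2 / w.1) : ℂ × ℂ)) (s, 0) :=
      continuousAt_fst.prodMk (continuousAt_snd.div continuousAt_fst hs)
    have h5 := h4.tendsto
    simp only [zero_div] at h5
    exact h5
  have hne : ∀ᶠ w : ℂ × ℂ in 𝓝 (s, 0), w.1 ≠ 0 := continuousAt_fst.eventually_ne hs
  have h6 : G =ᶠ[𝓝 (s, 0)] 0 := by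
    filter_upwards [hψ.eventually h1, hne] with w h7 h8
    rw [mul_div_cancel₀ _ h8] at h7
    exact h7
  have h7 := hGr.eqOn_zero_of_preconnected_of_eventuallyEq_zero
    (convex_ball (0 : ℂ × ℂ) r).isPreconnected h2 h6
  filter_upwards [Metric.ball_mem_nhds (0 : ℂ × ℂ) hr] with p hp
  exact h7 hp

private theorem BlowM_tendsto (e : (ℂ × ℂ) ≃L[ℂ] (ℂ × ℂ)) : Tendsto (fun p => e p) (𝓝 0) (𝓝 0) := by
  have h1 : Tendsto (fun p : ℂ × ℂ => e p) (𝓝 0) (𝓝 (e 0)) := e.continuous.tendsto 0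
  rwa [map_zero] at h1

/-- `B` is a proper subset also after the blow-up -/
private theorem BlowM_thin (hE : Eqs X B Q D) {σ : ℂ × ℂ → V} {τ : V → ℂ × ℂ} (h : IsChart X σ τ)
    (ht : ∃ᶠ p in 𝓝 (0 : ℂ × ℂ), σ p ∉ B) (e : (ℂ × ℂ) ≃L[ℂ] (ℂ × ℂ)) :
    ∃ᶠ p in 𝓝 (0 : ℂ × ℂ), σ (e (p.1, p.1 * p.2)) ∉ B := by
  intro hcon
  simp only [not_not] at hcon
  obtain ⟨g, hg, hgB⟩ := BlowM_eq hE h
  have hm : Tendsto (fun p : ℂ × ℂ => e (p.1, p.1 * p.2)) (𝓝 0) (𝓝 0) := by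
    refine (BlowM_tendsto e).comp ?_
    have h1 : Continuous (fun p : ℂ × ℂ => ((p.1, p.1 * p.2) : ℂ × ℂ)) := by fun_prop
    have h2 := h1.tendsto 0
    have e0 : ((0 : ℂ × ℂ).1, (0 : ℂ × ℂ).1 * (0 : ℂ × ℂ).2) = (0 : ℂ × ℂ) := by
      ext <;> simp
    rwa [e0] at h2
  have hG : AnalyticAt ℂ (fun p => g (e p)) 0 := by
    have h1 : AnalyticAt ℂ g (e 0) := by rw [map_zero]; exact hg
    exact h1.comp (e.toContinuousLinearMap.analyticAt 0)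
  have h1 : ∀ᶠ p : ℂ × ℂ in 𝓝 0, g (e (p.1, p.1 * p.2)) = 0 := by
    filter_upwards [hcon, hm.eventually hgB] with p h2 h3
    exact h3.1 h2
  have h2 := BlowM_van hG h1
  have h3 : ∀ᶠ p in 𝓝 (0 : ℂ × ℂ), g p = 0 := by
    filter_upwards [(BlowM_tendsto e.symm).eventually h2] with p h4
    rwa [ContinuousLinearEquiv.apply_symm_apply] at h4
  refine ht ?_
  filter_upwards [h3, hgB] with p h4 h5
  exact not_not.2 (h5.2 h4)

theorem thin_blow [FiniteDimensional ℂ V] (hX : Surface X) (hE : Eqs X B Q D)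
    (ht : ∀ σ τ, IsChart X σ τ → ∃ᶠ p in 𝓝 (0 : ℂ × ℂ), σ p ∉ B) (hl : Ker l q) (hq : q ∈ B)
    {σ1 : ℂ × ℂ → ι → V} {τ1 : (ι → V) → ℂ × ℂ} (h : IsChart (blow l X) σ1 τ1) :
    ∃ᶠ p in 𝓝 (0 : ℂ × ℂ), σ1 p ∉ total l X B := by
  have hX' := surface_iff.2 hX
  have hBc := hE.cone hX.smul
  have htc : ∀ x ∈ total l X B, ∀ c : ℂ, c ≠ 0 → c • x ∈ total l X B :=
    (eqs_blow (l := l) hX hE).cone H62.BU.blow_smul
  obtain ⟨σ, τ, hσ, hσ0⟩ := hX.chart q (hE.sub hq)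
  -- it is enough to treat one chart
  have key : ∀ {σ2 : ℂ × ℂ → ι → V} {τ2 : (ι → V) → ℂ × ℂ}, IsChart (blow l X) σ2 τ2 →
      σ2 0 = σ1 0 → (∃ᶠ p in 𝓝 (0 : ℂ × ℂ), σ2 p ∉ total l X B) →
      ∃ᶠ p in 𝓝 (0 : ℂ × ℂ), σ1 p ∉ total l X B := by
    intro σ2 τ2 h2 h20 hfr hcon
    simp only [not_not] at hcon
    obtain ⟨θ, hθ, hp⟩ := IsChart.trans H62.BU.blow_smul h h2 (by rw [h20]; exact Pr.refl _)
    refine hfr ?_
    filter_upwards [hp, hθ.tendsto.eventually hcon] with p h3 h4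
    obtain ⟨c, hc, h5⟩ := h3
    rw [not_not, h5]
    exact htc _ h4 c hc
  rcases H62.BU.blow_local hX' hl (chart_iff.2 hσ) hσ0 hBc (σ1 0) h.σ_mem.self_of_nhds with
    ⟨σ', τ', h1, -, σ2, τ2, h2, h3, -, h4⟩ | ⟨e, σ2, τ2, h2, h3, h4⟩
  · refine key (chart_iff.1 h2) h3 ?_
    refine ((ht σ' τ' (chart_iff.1 h1)).and_eventually h4).mono ?_
    rintro p ⟨h5, h6⟩ h7
    exact h5 (h6.1 h7)
  · refine key (chart_iff.1 h2) h3 ?_
    refine ((BlowM_thin hE hσ (ht σ τ hσ) e).and_eventually h4).mono ?_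
    rintro p ⟨h5, h6⟩ h7
    exact h5 (h6.1 h7)

private theorem BlowM_bihol (e : (ℂ × ℂ) ≃L[ℂ] (ℂ × ℂ)) : Bihol (fun x => e x) :=
  ⟨e.toContinuousLinearMap.analyticAt 0, map_zero e, fun x => e.symm x,
    e.symm.toContinuousLinearMap.analyticAt 0, map_zero e.symm,
    Eventually.of_forall fun x => e.symm_apply_apply x,
    Eventually.of_forall fun x => e.apply_symm_apply x⟩

theorem resAt_blow [FiniteDimensional ℂ V] (hX : Surface X) (hE : Eqs X B Q D) (hl : Ker l q) (hq : q ∈ B) {n : ℕ}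
    (hn : ResAt X B q (n + 1)) (h0 : ¬ ResAt X B q 0) {y : ι → V} (hy : y ∈ blow l X) :
    ResAt (blow l X) (total l X B) y n ∨ ∃ x ∈ X, ¬ Pr x q ∧ Pr y (phi l x) ∧
      ∀ k, ResAt X B x k → ResAt (blow l X) (total l X B) y k := by
  obtain ⟨σ, τ, g, hσ, hσ0, hg, hN⟩ := hn
  have hN' : ∀ β, BChart β → ResN n (g ∘ β) := by
    rcases hN with hN | hN
    · exact absurd ⟨σ, τ, g, hσ, hσ0, hg, hN⟩ h0
    · exact hN
  rcases H62.BU.blow_local (surface_iff.2 hX) hl (chart_iff.2 hσ) hσ0 (hE.cone hX.smul) y hy with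
    ⟨σ', τ', h1, ⟨b, hb⟩, σ1, τ1, h2, h3, ⟨c, hc, hc2⟩, h4⟩ | ⟨e, σ1, τ1, h2, h3, h4⟩
  · right
    have h1' := chart_iff.1 h1
    refine ⟨σ' 0, h1'.σ_mem.self_of_nhds, ?_, ⟨c, hc, ?_⟩, fun k hk => ?_⟩
    · rintro ⟨a, -, ha⟩
      have h5 : l b q = 0 := (hl q).2 ⟨1, (one_smul _ _).symm⟩ b
      rw [ha, map_smul, h5, smul_zero] at hb
      exact hb rfl
    · rw [← h3]
      exact hc2 0
    · obtain ⟨g', ⟨hg1, hg2⟩, hg3⟩ := hk.chart hX.smul (hE.cone hX.smul) h1' (Pr.refl _)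
      refine ⟨σ1, τ1, g', chart_iff.1 h2, h3, ⟨hg1, ?_⟩, hg3⟩
      filter_upwards [hg2, h4] with p h5 h6
      exact h6.trans h5
  · left
    obtain ⟨β, hβ⟩ : ∃ β : ℂ × ℂ → ℂ × ℂ, β = fun p => e (p.1, p.1 * p.2) := ⟨_, rfl⟩
    have hBC : BChart β := by
      refine ⟨fun x => e x, fun x => x, BlowM_bihol e, Bihol.id, Eventually.of_forall fun x => ?_⟩
      rw [hβ]
      simp only [bl, zero_add]
    refine ⟨σ1, τ1, g ∘ β, chart_iff.1 h2, h3, ⟨?_, ?_⟩, hN' β hBC⟩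
    · have h5 : AnalyticAt ℂ g (β 0) := by rw [hBC.zero]; exact hg.1
      exact h5.comp hBC.an
    · filter_upwards [hBC.tendsto.eventually hg.2, h4] with p h5 h6
      rw [h6]
      rw [hβ] at h5 ⊢
      exact h5

end Pool.Agent.H17BP

end
end
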