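import Pool.Agent.H94.G6.M42
import Pool.Agent.H94.G6.M46
import Pool.Agent.H94.G6.M69
import Pool.Agent.H94.G6.M75
import Pool.Agent.H94.G6.M92

/-! The parts of this file: H17EF.Up, H19OL.Norm, H7.Qup.Bd, H14.V.MainV_2. -/

section

/-!
# EF Up: an entire curve with bounded derivative has order at most two
-/

set_option autoImplicit false

namespace Pool.Agent.H17EF

open Pool.Agent.H36.BP Metric Filter Topology

variable {N : ℕ}

/-- an entire curve with bounded derivative has `T_f(r) = O(r²)` -/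
theorem ordTwo_of_fs {F : ℂ → EN N} (hF : Differentiable ℂ F) (h0 : ∀ z, F z ≠ 0) {L : ℝ}
    (hL : ∀ z, fs (F z) (deriv F z) ≤ L) : OrdTwo F := by
  obtain ⟨a, ha⟩ : ∃ a : ℝ, a = L ^ 2 / 2 + 1 := ⟨_, rfl⟩
  have ha0 : 0 < a := by rw [ha]; positivity
  refine ⟨a + 2 + |Real.log ‖F 0‖|, fun r hr => ?_⟩
  have hlogc : Continuous fun z => Real.log ‖F z‖ := by
    refine Continuous.log hF.continuous.norm fun z => ?_
    exact norm_ne_zero_iff.2 (h0 z)
  obtain ⟨p, hp⟩ := exists_poly_re hr (u := fun z => Real.log ‖F z‖ + 1) (hlogc.add continuous_const).continuousOn one_pos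
  have hlt : ∀ z : ℂ, ‖z‖ = r → Real.log ‖F z‖ ≤ (p.eval z).re ∧ (p.eval z).re ≤ Real.log ‖F z‖ + 2 := by
    intro z hz
    have := abs_lt.1 (hp z hz)
    constructor <;> linarith [this.1, this.2]
  have hpd : Differentiable ℂ fun z : ℂ => p.eval z := p.differentiable
  -- the upper bound at the centre
  have hval : (p.eval 0).re ≤ Real.log ‖F 0‖ + 2 + a * r ^ 2 := by
    set u : ℂ → ℝ := fun z => ‖F z‖ ^ (-1 : ℝ) * ‖Complex.exp (p.eval z)‖ * Real.exp (a * ‖z‖ ^ 2) with hu
    have hmax := max_principle (S := closedBall (0 : ℂ) r) (U := ball (0 : ℂ) r) (isCompact_closedBall _ _) isOpen_ball ball_subset_closedBall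
      (u := u) ?_ ?_ (A := Real.exp (2 + a * r ^ 2)) (Real.exp_pos _).le ?_ 0 (mem_closedBall_self hr.le)
    · rw [hu] at hmax
      simp only [norm_zero] at hmax
      rw [Real.rpow_neg_one, Complex.norm_exp, ← Real.exp_log (norm_pos_iff.2 (h0 0)), ← Real.exp_neg, ← Real.exp_add, ← Real.exp_add,
        Real.exp_le_exp] at hmax
      nlinarith
    · apply ContinuousOn.upperSemicontinuousOn
      apply Continuous.continuousOn
      have h1 : Continuous fun z => ‖F z‖ ^ (-1 : ℝ) :=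
        hF.continuous.norm.rpow_const fun z => Or.inl (norm_ne_zero_iff.2 (h0 z))
      have h2 : Continuous fun z : ℂ => ‖Complex.exp (p.eval z)‖ := by
        have := hpd.continuous
        fun_prop
      have h3 : Continuous fun z : ℂ => Real.exp (a * ‖z‖ ^ 2) := by fun_prop
      exact (h1.mul h2).mul h3
    · intro z _ _
      have s1 := Sub.norm_rpow (hF.analyticAt z) (h0 z) (-1)
      have s2 := Sub.of_holo (h := fun z => Complex.exp (p.eval z)) (z₀ := z) ((hpd.analyticAt z).cexp) (Complex.exp_ne_zero _)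
      have s3 := Sub.exp_sq (t := fun z => z) (z₀ := z) analyticAt_id a
      refine ⟨_, ?_, (s1.mul s2).mul s3⟩
      have h10 : deriv (fun z : ℂ => z) z = 1 := deriv_id z
      rw [h10, norm_one]
      have h11 := hL z
      have h12 : fs (F z) (deriv F z) ^ 2 ≤ L ^ 2 := pow_le_pow_left₀ (fs_nonneg _ _) h11 2
      rw [ha]
      nlinarith
    · intro z hz
      have hzn : ‖z‖ = r := by
        have h13 := hz.1
        have h14 := hz.2
        simp only [mem_closedBall, mem_ball, dist_zero_right, not_lt] at h13 h14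
        exact le_antisymm h13 h14
      have h1 := (hlt z hzn).2
      rw [hu]
      simp only
      rw [Real.rpow_neg_one, Complex.norm_exp, hzn]
      have h2 : ‖F z‖⁻¹ = Real.exp (-Real.log ‖F z‖) := by
        rw [Real.exp_neg, Real.exp_log (norm_pos_iff.2 (h0 z))]
      rw [h2, ← Real.exp_add, ← Real.exp_add]
      apply Real.exp_le_exp.2
      linarith
  refine ⟨fun z => Complex.exp (-p.eval z) • F z, ?_, ?_, ?_, ?_⟩
  · have h1 : Differentiable ℂ fun z => Complex.exp (-p.eval z) := by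
      fun_prop
    exact (h1.smul hF).differentiableOn
  · intro z hz
    have hd : DiffContOnCl ℂ (fun z => Complex.exp (-p.eval z) • F z) (ball 0 r) := by
      have h1 : Differentiable ℂ fun z => Complex.exp (-p.eval z) := by
        fun_prop
      exact (h1.smul hF).diffContOnCl
    refine Complex.norm_le_of_forall_mem_frontier_norm_le isBounded_ball hd ?_ (subset_closure hz)
    intro ζ hζ
    rw [frontier_ball _ hr.ne', mem_sphere_zero_iff_norm] at hζ
    rw [norm_smul, Complex.norm_exp, Complex.neg_re]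
    have h2 := (hlt ζ hζ).1
    have h3 : ‖F ζ‖ ≤ Real.exp (p.eval ζ).re := by
      rw [← Real.exp_log (norm_pos_iff.2 (h0 ζ))]
      exact Real.exp_le_exp.2 h2
    calc Real.exp (-(p.eval ζ).re) * ‖F ζ‖ ≤ Real.exp (-(p.eval ζ).re) * Real.exp (p.eval ζ).re :=
          mul_le_mul_of_nonneg_left h3 (Real.exp_pos _).le
      _ = 1 := by rw [← Real.exp_add]; simp
  · rw [norm_smul, Complex.norm_exp, Complex.neg_re]
    have h5 : ‖F 0‖ = Real.exp (Real.log ‖F 0‖) := (Real.exp_log (norm_pos_iff.2 (h0 0))).symm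
    rw [h5, ← Real.exp_add, Real.exp_le_exp, Real.log_exp]
    have h8 : 0 ≤ |Real.log ‖F 0‖| * (1 + r ^ 2) := by positivity
    nlinarith [sq_nonneg r]
  · intro z _
    refine Or.inr ⟨Complex.exp (p.eval z), Complex.exp_ne_zero _, ?_⟩
    rw [smul_smul, ← Complex.exp_add]
    simp

end Pool.Agent.H17EF

end

section

/-!
# OL Norm: the norm of a form under a generically finite rational map

`exists_norm_form`: let `X'` and `X` be the varieties of the prime ideals `P'` and `P`, of the same dimension, and let forms `γ i` define a dominant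
rational map from `X'` to `X`.  For each form `R'` which does not vanish on `X'` there is a form `R` which does not vanish on `X`, with
`R (γ y) = 0` for all points `y` of `X'` with `R' y = 0`.
-/

set_option autoImplicit false

open MvPolynomial

noncomputable section

namespace Pool.Agent.H19OL

open Pool.Agent.H17GT (coordFun functionField)
open Pool.Agent.H17LG.Variety (FunField ratio)
open Pool.Agent.H62.FC (Homog)
open Pool.Agent.H17R (gen gen_eq_zero_iff ratio_self adjoin_ratio coordFun_ne_zero_iff)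
open Pool.Agent.H7.Bir (aeval_comp aeval_div funIso exists_quot vals)

/-- An extension of fields with the same finite transcendence degree is algebraic. -/
theorem alg_of_trdeg {K L : Type} [Field K] [Field L] [Algebra ℂ K] [Algebra ℂ L] [Algebra K L] [IsScalarTower ℂ K L] {k : ℕ}
    {z : Fin k → K} (hz : IsTranscendenceBasis ℂ z) {z' : Fin k → L} (hz' : IsTranscendenceBasis ℂ z') :
    Algebra.IsAlgebraic K L := by
  have h1 := trdeg_add_eq ℂ K (A := L)
  rw [← hz.cardinalMk_eq_trdeg, ← hz'.cardinalMk_eq_trdeg] at h1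
  rw [← trdeg_eq_zero_iff]
  have h2 : Cardinal.mk (Fin k) < Cardinal.aleph0 := Cardinal.mk_lt_aleph0
  have h3 : Cardinal.mk (Fin k) + Algebra.trdeg K L = Cardinal.mk (Fin k) + 0 := by rw [h1, add_zero]
  exact Cardinal.eq_of_add_eq_add_left h3 h2

variable {N M : ℕ}

/-- The field generated by the coordinates. -/
theorem adjoin_self {L : Type} [Field L] [Algebra ℂ L] (x : Fin (N + 1) → L) :
    IntermediateField.adjoin ℂ (Set.range fun i => (⟨x i, IntermediateField.subset_adjoin ℂ _ ⟨i, rfl⟩⟩ :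
      IntermediateField.adjoin ℂ (Set.range x))) = ⊤ := by
  apply IntermediateField.lift_injective
  rw [IntermediateField.lift_adjoin, IntermediateField.lift_top]
  congr 1
  ext y
  constructor
  · rintro ⟨_, ⟨i, rfl⟩, rfl⟩
    exact ⟨i, rfl⟩
  · rintro ⟨i, rfl⟩
    exact ⟨_, ⟨i, rfl⟩, rfl⟩

/-- The norm of a form, for the points with `y j ≠ 0`. -/
theorem exists_norm_aux {P : Ideal (MvPolynomial (Fin (N + 1)) ℂ)} [P.IsPrime] {P' : Ideal (MvPolynomial (Fin (M + 1)) ℂ)}
    [P'.IsPrime] {k : ℕ} {z : Fin k → FunField P} (hz : IsTranscendenceBasis ℂ z) {z' : Fin k → FunField P'}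
    (hz' : IsTranscendenceBasis ℂ z') {D : ℕ} {γ : Fin (N + 1) → MvPolynomial (Fin (M + 1)) ℂ} (hγ : ∀ i, (γ i).IsHomogeneous D)
    (hmaps : ∀ n Q, Q.IsHomogeneous n → (aeval γ Q ∈ P' ↔ Q ∈ P)) {i₀ : Fin (N + 1)} (hi₀ : X i₀ ∉ P)
    {n : ℕ} {R' : MvPolynomial (Fin (M + 1)) ℂ} (hR' : R'.IsHomogeneous n) (hR'P : R' ∉ P') {j : Fin (M + 1)} (hj : X j ∉ P') :
    ∃ (R : MvPolynomial (Fin (N + 1)) ℂ) (d : ℕ), R.IsHomogeneous d ∧ R ∉ P ∧
      ∀ y : Fin (M + 1) → ℂ, y j ≠ 0 → (∀ Q ∈ P', eval y Q = 0) → eval y R' = 0 → eval (vals γ y) R = 0 := by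
  have hcj : coordFun P' j ≠ 0 := coordFun_ne_zero_iff.2 hj
  set η : Fin (M + 1) → FunField P' := fun i => ratio P' i j with hη
  have hη1 : η j = 1 := ratio_self hcj
  have hγ₀ : γ i₀ ∉ P' := by
    intro h
    apply hi₀
    rw [← hmaps 1 _ (isHomogeneous_X ℂ i₀), aeval_X]
    exact h
  have hc : aeval η (γ i₀) ≠ 0 := fun h0 => hγ₀ ((gen_eq_zero_iff hcj (hγ i₀)).1 h0)
  set x : Fin (N + 1) → FunField P' := fun i => aeval η (γ i) / aeval η (γ i₀) with hx
  have hx1 : x i₀ = 1 := div_self hc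
  have hcomp : ∀ (n : ℕ) (R : MvPolynomial (Fin (N + 1)) ℂ), R.IsHomogeneous n →
      aeval η (aeval γ R) = aeval η (γ i₀) ^ n * aeval x R := by
    intro n R hR
    rw [aeval_comp, aeval_div hR hc]
  have hker : ∀ (n : ℕ) (G : MvPolynomial (Fin (N + 1)) ℂ), G.IsHomogeneous n → (aeval x G = 0 ↔ G ∈ P) := by
    intro n G hG
    rw [← hmaps n G hG, ← gen_eq_zero_iff hcj (hG.aeval γ hγ)]
    change _ ↔ aeval η (aeval γ G) = 0
    rw [hcomp n G hG, mul_eq_zero]
    exact ⟨Or.inr, fun h => h.resolve_left (pow_ne_zero _ hc)⟩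
  -- the subfield generated by the coordinates of the image
  set F : IntermediateField ℂ (FunField P') := IntermediateField.adjoin ℂ (Set.range x) with hF
  set x' : Fin (N + 1) → F := fun i => ⟨x i, IntermediateField.subset_adjoin ℂ _ ⟨i, rfl⟩⟩ with hx'
  have hadj : IntermediateField.adjoin ℂ (Set.range x') = ⊤ := adjoin_self x
  have hval : ∀ G : MvPolynomial (Fin (N + 1)) ℂ, ((aeval x' G : F) : FunField P') = aeval x G := by
    intro G
    have h1 := DFunLike.congr_fun (MvPolynomial.comp_aeval x' F.val) G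
    exact h1
  have hx'1 : x' i₀ = 1 := Subtype.ext hx1
  obtain ⟨e⟩ := funIso (coordFun_ne_zero_iff.2 hi₀) hx'1 hadj fun n G hG => by
    rw [← hker n G hG, ← hval G]
    exact Subtype.ext_iff
  have halg : Algebra.IsAlgebraic F (FunField P') := alg_of_trdeg (e.isTranscendenceBasis hz) hz'
  -- the equation of `R'`
  set s : FunField P' := aeval η R' with hs
  have hs0 : s ≠ 0 := fun h0 => hR'P ((gen_eq_zero_iff hcj hR').1 h0)
  have hint : IsIntegral F s := (halg.isAlgebraic s).isIntegral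
  set p := minpoly F s with hp
  set m := p.natDegree with hm
  obtain ⟨D₁, α, hα, hα0, hα1⟩ := exists_quot hx'1 hadj (fun i : Fin (m + 1) => p.coeff (i : ℕ)) (j' := Fin.last m) (by
    have h1 := minpoly.monic hint
    exact h1)
  have hα0' : aeval x (α (Fin.last m)) ≠ 0 := by
    rw [← hval]
    exact fun h => hα0 (Subtype.ext h)
  have hrel : ∑ i : Fin (m + 1), aeval x (α i) * s ^ (i : ℕ) = 0 := by
    have h1 := minpoly.aeval F s
    rw [Polynomial.aeval_eq_sum_range, ← Fin.sum_univ_eq_sum_range (fun i => p.coeff i • s ^ i)] at h1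
    have h2 : ∀ i : Fin (m + 1), aeval x (α i) * s ^ (i : ℕ) = aeval x (α (Fin.last m)) * (p.coeff (i : ℕ) • s ^ (i : ℕ)) := by
      intro i
      have h3 := congrArg (fun t : F => (t : FunField P')) (hα1 i)
      simp only [MulMemClass.coe_mul, hval] at h3
      rw [← h3, Algebra.smul_def]
      change _ = _ * (((p.coeff (i : ℕ) : F) : FunField P') * _)
      ring
    have h4 : ∑ i : Fin (m + 1), aeval x (α (Fin.last m)) * (p.coeff (i : ℕ) • s ^ (i : ℕ)) =
        aeval x (α (Fin.last m)) * ∑ i : Fin (m + 1), p.coeff (i : ℕ) • s ^ (i : ℕ) := (Finset.mul_sum _ _ _).symm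
    rw [Finset.sum_congr rfl fun i _ => h2 i, h4, h1, mul_zero]
  have hα00 : aeval x (α 0) ≠ 0 := by
    have h3 := congrArg (fun t : F => (t : FunField P')) (hα1 0)
    simp only [MulMemClass.coe_mul, hval] at h3
    rw [← h3]
    refine mul_ne_zero ?_ hα0'
    have h4 : p.coeff 0 ≠ 0 := minpoly.coeff_zero_ne_zero hint hs0
    intro h5
    exact h4 (Subtype.ext h5)
  -- the form
  set G : MvPolynomial (Fin (M + 1)) ℂ := ∑ i : Fin (m + 1), aeval γ (α i) * R' ^ (i : ℕ) * X j ^ (n * (m - i)) with hG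
  have hGhom : G.IsHomogeneous (D * D₁ + n * m) := by
    refine IsHomogeneous.sum _ _ _ fun i _ => ?_
    have h1 := ((((hα i).aeval γ hγ).mul (hR'.pow (i : ℕ))).mul ((isHomogeneous_X ℂ j).pow (n * (m - i))))
    have h2 : D * D₁ + n * (i : ℕ) + 1 * (n * (m - i)) = D * D₁ + n * m := by
      have h3 : (i : ℕ) ≤ m := Nat.lt_succ_iff.1 i.2
      rw [one_mul, add_assoc, ← mul_add, Nat.add_sub_cancel' h3]
    rw [h2] at h1
    exact h1
  have hGP : G ∈ P' := by
    rw [← gen_eq_zero_iff hcj hGhom]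
    change aeval η G = 0
    rw [hG, map_sum]
    have h1 : ∀ i : Fin (m + 1), aeval η (aeval γ (α i) * R' ^ (i : ℕ) * X j ^ (n * (m - i))) =
        aeval η (γ i₀) ^ D₁ * (aeval x (α i) * s ^ (i : ℕ)) := by
      intro i
      rw [map_mul, map_mul, map_pow, map_pow, aeval_X, hη1, one_pow, mul_one, hcomp D₁ _ (hα i)]
      ring
    have h2 : ∑ i : Fin (m + 1), aeval η (γ i₀) ^ D₁ * (aeval x (α i) * s ^ (i : ℕ)) =
        aeval η (γ i₀) ^ D₁ * ∑ i : Fin (m + 1), aeval x (α i) * s ^ (i : ℕ) := (Finset.mul_sum _ _ _).symm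
    rw [Finset.sum_congr rfl fun i _ => h1 i, h2, hrel, mul_zero]
  refine ⟨α 0, D₁, hα 0, fun h => hα00 ((hker D₁ _ (hα 0)).2 h), fun y hyj hy hyR => ?_⟩
  have h1 := hy G hGP
  rw [hG, map_sum, Fin.sum_univ_succ] at h1
  have h2 : ∀ i : Fin m, eval y (aeval γ (α i.succ) * R' ^ ((i.succ : Fin (m + 1)) : ℕ) * X j ^ (n * (m - (i.succ : Fin (m + 1))))) = 0 := by
    intro i
    rw [map_mul, map_mul, map_pow, hyR, Fin.val_succ, zero_pow (Nat.succ_ne_zero _), mul_zero, zero_mul]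
  rw [Finset.sum_eq_zero fun i _ => h2 i, add_zero, map_mul, map_mul, map_pow, map_pow, eval_X, Fin.val_zero, pow_zero,
    mul_one, mul_eq_zero] at h1
  have h3 : eval y (aeval γ (α 0)) = 0 := h1.resolve_right (pow_ne_zero _ hyj)
  have h4 : eval y (aeval γ (α 0)) = eval (vals γ y) (α 0) := aeval_comp (K := ℂ) y γ (α 0)
  rw [← h4]
  exact h3

/-- **The norm of a form.** -/
theorem exists_norm_form {P : Ideal (MvPolynomial (Fin (N + 1)) ℂ)} [P.IsPrime] {P' : Ideal (MvPolynomial (Fin (M + 1)) ℂ)}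
    [P'.IsPrime] {k : ℕ} (hz : ∃ z : Fin (k + 1) → FunField P, IsTranscendenceBasis ℂ z)
    (hz' : ∃ z : Fin (k + 1) → FunField P', IsTranscendenceBasis ℂ z) {D : ℕ}
    {γ : Fin (N + 1) → MvPolynomial (Fin (M + 1)) ℂ} (hγ : ∀ i, (γ i).IsHomogeneous D)
    (hmaps : ∀ n Q, Q.IsHomogeneous n → (aeval γ Q ∈ P' ↔ Q ∈ P))
    {n : ℕ} {R' : MvPolynomial (Fin (M + 1)) ℂ} (hR' : R'.IsHomogeneous n) (hR'P : R' ∉ P') :
    ∃ (R : MvPolynomial (Fin (N + 1)) ℂ) (d : ℕ), R.IsHomogeneous d ∧ R ∉ P ∧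
      ∀ y : Fin (M + 1) → ℂ, y ≠ 0 → (∀ Q ∈ P', eval y Q = 0) → eval y R' = 0 → eval (vals γ y) R = 0 := by
  classical
  obtain ⟨z, hz⟩ := hz
  obtain ⟨z', hz'⟩ := hz'
  obtain ⟨i₀, hi₀⟩ := Pool.Agent.H92.GT.Proj.exists_coordFun_ne_zero P z hz
  have hi₀' : X i₀ ∉ P := coordFun_ne_zero_iff.1 hi₀
  have h1 : ∀ j : Fin (M + 1), ∃ (R : MvPolynomial (Fin (N + 1)) ℂ) (d : ℕ), R.IsHomogeneous d ∧ R ∉ P ∧
      ∀ y : Fin (M + 1) → ℂ, y j ≠ 0 → (∀ Q ∈ P', eval y Q = 0) → eval y R' = 0 → eval (vals γ y) R = 0 := by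
    intro j
    by_cases hj : X j ∈ P'
    · refine ⟨1, 0, isHomogeneous_one _ _, fun h => (Ideal.ne_top_iff_one P).1 (Ideal.IsPrime.ne_top inferInstance) h, fun y hyj hy => ?_⟩
      have h2 := hy _ hj
      rw [eval_X] at h2
      exact absurd h2 hyj
    · exact exists_norm_aux hz hz' hγ hmaps hi₀' hR' hR'P hj
  choose R d hR hRP hRy using h1
  refine ⟨∏ j, R j, ∑ j, d j, IsHomogeneous.prod _ _ _ fun j _ => hR j, ?_, fun y hy hyP hyR => ?_⟩
  · intro h
    obtain ⟨j, -, hj⟩ := (Ideal.IsPrime.prod_mem_iff (p := P)).1 h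
    exact hRP j hj
  · obtain ⟨j, hj⟩ := Function.ne_iff.1 hy
    rw [map_prod]
    exact Finset.prod_eq_zero (Finset.mem_univ j) (hRy j y hj hyP hyR)

end Pool.Agent.H19OL

end
end

section

/-!
# Qup Bd: the boundary and dominant regular maps

`exists_compat`: a dominant regular map `p : U' → U` gives an embedding `e` of the function field of `U` in the function field of `U'`.  `onBd_over`: if the
prime divisor `E` over `U'` lies over the prime divisor `D` over `U` and `D` is centred on the boundary of `U`, then `E` is centred on the boundary of `U'`.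
`logGT_up`: if `U` is of log general type, and `U'` has the same dimension, then `U'` is of log general type.
-/

set_option autoImplicit false

open MvPolynomial

noncomputable section

namespace Pool.Agent.H7.Qup

open Pool.Agent.H17 (PN VanishesAt)
open Pool.Agent.H17GT (coordFun)
open Pool.Agent.H17LG.Variety (FunField ratio IsLogGeneralType)
open Pool.Agent.H23.Fano (PrimeDivisorOver)
open Pool.Agent.H62.SA (locVar OnBd)
open Pool.Agent.H17R (gen gen_eq_zero_iff ratio_self coordFun_ne_zero_iff gen_change exists_center ord_gen_nonneg ratio_ne_zero_iff)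

variable {N M : ℕ} {P : Ideal (MvPolynomial (Fin (N + 1)) ℂ)} {P' : Ideal (MvPolynomial (Fin (M + 1)) ℂ)} {s s' : ℕ}
  {G : Fin s → MvPolynomial (Fin (N + 1)) ℂ} {G' : Fin s' → MvPolynomial (Fin (M + 1)) ℂ} {p : PN M → PN N}

theorem ratio_change' [P.IsPrime] {i i₀ i₁ : Fin (N + 1)} (h₁ : coordFun P i₁ ≠ 0) :
    ratio P i i₀ = ratio P i₁ i₀ * ratio P i i₁ := by
  apply Subtype.ext
  change coordFun P i / coordFun P i₀ =
    coordFun P i₁ / coordFun P i₀ * (coordFun P i / coordFun P i₁)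
  rw [div_mul_div_comm, mul_comm (coordFun P i₁) (coordFun P i), mul_div_mul_right _ _ h₁]

theorem exists_coord {y : PN M} (hy : y ∈ locVar P' G') : ∃ j, (X j : MvPolynomial (Fin (M + 1)) ℂ) ∉ P' := by
  by_contra hcon
  push Not at hcon
  have h1 : ∀ i, y.rep i = 0 := by
    intro i
    have h2 := hy.1 _ (hcon i) 1 (isHomogeneous_X ℂ i)
    unfold VanishesAt at h2
    rwa [eval_X] at h2
  exact y.rep_nonzero (funext h1)

/-- The polynomials which vanish at the centre of `E`. -/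
def ctr [P.IsPrime] {w : ℕ} (E : PrimeDivisorOver (FunField P) w) {j : Fin (N + 1)} (h : ∀ i, 0 ≤ E.ord (ratio P i j)) :
    Ideal (MvPolynomial (Fin (N + 1)) ℂ) where
  carrier := {R | 0 < E.ord (gen P j R)}
  add_mem' := by
    intro a b ha hb
    change 0 < E.ord (aeval _ (a + b))
    rw [map_add]
    exact (lt_min ha hb).trans_le (E.ord.map_add _ _)
  zero_mem' := by
    change 0 < E.ord (aeval _ 0)
    rw [map_zero, E.ord.map_zero]
    exact WithTop.coe_lt_top 0
  smul_mem' := by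
    intro c x hx
    change 0 < E.ord (aeval _ (c * x))
    rw [map_mul, E.ord.map_mul]
    exact lt_of_lt_of_le hx (le_add_of_nonneg_left (ord_gen_nonneg E h c))

theorem mem_ctr [P.IsPrime] {w : ℕ} {E : PrimeDivisorOver (FunField P) w} {j : Fin (N + 1)} {h : ∀ i, 0 ≤ E.ord (ratio P i j)}
    {R : MvPolynomial (Fin (N + 1)) ℂ} : R ∈ ctr E h ↔ 0 < E.ord (gen P j R) := Iff.rfl

theorem notMem_ctr [P.IsPrime] {w : ℕ} {E : PrimeDivisorOver (FunField P) w} {j : Fin (N + 1)} {h : ∀ i, 0 ≤ E.ord (ratio P i j)}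
    {R : MvPolynomial (Fin (N + 1)) ℂ} : R ∉ ctr E h ↔ E.ord (gen P j R) = 0 := by
  rw [mem_ctr, not_lt]
  exact ⟨fun h1 => le_antisymm h1 (ord_gen_nonneg E h R), fun h1 => h1.le⟩

instance ctr_isPrime [P.IsPrime] {w : ℕ} (E : PrimeDivisorOver (FunField P) w) {j : Fin (N + 1)} (h : ∀ i, 0 ≤ E.ord (ratio P i j)) :
    (ctr E h).IsPrime where
  ne_top' := by
    rw [Ideal.ne_top_iff_one, notMem_ctr]
    unfold gen
    rw [map_one, E.ord.map_one]
  mem_or_mem' := by
    intro a b hab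
    by_contra hcon
    rw [not_or, notMem_ctr, notMem_ctr] at hcon
    rw [mem_ctr] at hab
    unfold gen at hab hcon
    rw [map_mul, E.ord.map_mul, hcon.1, hcon.2, add_zero] at hab
    exact lt_irrefl _ hab

/-- Points of the centre. -/
theorem exists_ctr_point [P.IsPrime] {w : ℕ} (E : PrimeDivisorOver (FunField P) w) {j : Fin (N + 1)} (hj : coordFun P j ≠ 0)
    (h : ∀ i, 0 ≤ E.ord (ratio P i j)) {R : MvPolynomial (Fin (N + 1)) ℂ} (hR : R ∉ ctr E h) :
    ∃ v : Fin (N + 1) → ℂ, v ≠ 0 ∧ (∀ Q ∈ ctr E h, eval v Q = 0) ∧ eval v R ≠ 0 := by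
  rw [← MvPolynomial.IsPrime.vanishingIdeal_zeroLocus (K := ℂ) (ctr E h), MvPolynomial.mem_vanishingIdeal_iff] at hR
  push Not at hR
  obtain ⟨v, hv, hvR⟩ := hR
  rw [MvPolynomial.aeval_eq_eval] at hvR
  have hv' : ∀ Q ∈ ctr E h, eval v Q = 0 := fun Q hQ => by
    have h1 := hv Q hQ
    rwa [MvPolynomial.aeval_eq_eval] at h1
  refine ⟨v, ?_, hv', hvR⟩
  rintro rfl
  have h1 : (X j - 1 : MvPolynomial (Fin (N + 1)) ℂ) ∈ ctr E h := by
    rw [mem_ctr]
    unfold gen
    rw [map_sub, aeval_X, ratio_self hj, map_one, sub_self, E.ord.map_zero]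
    exact WithTop.coe_lt_top 0
  have h2 := hv' _ h1
  rw [map_sub, eval_X, map_one] at h2
  norm_num at h2

theorem le_ctr [P.IsPrime] {w : ℕ} {E : PrimeDivisorOver (FunField P) w} {j : Fin (N + 1)} (hj : coordFun P j ≠ 0)
    {h : ∀ i, 0 ≤ E.ord (ratio P i j)} {n : ℕ} {R : MvPolynomial (Fin (N + 1)) ℂ} (hR : R.IsHomogeneous n) (hRP : R ∈ P) : R ∈ ctr E h := by
  rw [mem_ctr, (gen_eq_zero_iff hj hR).2 hRP, E.ord.map_zero]
  exact WithTop.coe_lt_top 0

end Pool.Agent.H7.Qup

end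
end

section

/-!
# V MainV: entire curves in surfaces of general type, in the projective space
-/

set_option autoImplicit false

open Topology Filter MvPolynomial Metric

noncomputable section

namespace Pool.Agent.H14.V

open Pool.Agent.H17 (PN VanishesAt HolomorphicInto ZariskiClosedIn puncturedDisc)
open Pool.Agent.H62.FC (Homog)
open Pool.Agent.H17BP (Surface IsForm)
open Pool.Agent.H17LG.Variety (FunField IsLogGeneralType)
open Pool.Agent.H13.SM (cone)
open Pool.Agent.H36.BP (EN fs wd formT isCone_transport tan_transport OrdTwo)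
open Pool.Agent.H14.PP (IsCone Chart Form)
open Pool.Agent.H17EF (projVar coneE LE GT prP prP_injective mk_symm mk_mem_projVar)
open Pool.Agent.H62.EF (MN pr Charts)
open Pool.Agent.H92.TH (SymDiff)

variable {N : ℕ}

/-- The entire curves `f` in `X` with `c ≤ |f'| ≤ L`. -/
def boundedDistortion (X : Set (PN N)) (c L : ℝ) : Set (ℂ → PN N) :=
  {f | (∀ z, f z ∈ X) ∧ ∃ F, IsLift F f ∧ ∀ z, c ≤ fs (F z) (deriv F z) ∧ fs (F z) (deriv F z) ≤ L}

/-- The entire curve `f` is tangent to the symmetric differential `θ`. -/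
def TangentTo {X : Set (EN N)} {m : ℕ} (θ : SymDiff X m) (f : ℂ → PN N) : Prop :=
  ∃ F, IsLift F f ∧ ∀ z, θ.toFun (F z) (deriv F z) = 0

/-- The map `f` is doubly periodic. -/
def DoublyPeriodic (f : ℂ → PN N) : Prop :=
  ∃ ω₁ ω₂ : ℂ, LinearIndependent ℝ ![ω₁, ω₂] ∧ ∀ z, f (z + ω₁) = f z ∧ f (z + ω₂) = f z

/-- The map `f` lies in a hypersurface which does not contain the variety of `P`. -/
def Degenerate (P : Ideal (MvPolynomial (Fin (N + 1)) ℂ)) (f : ℂ → PN N) : Prop :=
  ∃ (Q : MvPolynomial (Fin (N + 1)) ℂ) (d : ℕ), Q.IsHomogeneous d ∧ Q ∉ P ∧ ∀ z, VanishesAt Q (f z)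

theorem IsLift.holomorphicInto {F : ℂ → EN N} {f : ℂ → PN N} (h : IsLift F f) : HolomorphicInto f Set.univ := by
  intro z _
  refine ⟨fun z => (LE N).symm (F z), (((LE N).symm : EN N →L[ℂ] (Fin (N + 1) → ℂ)).analyticAt _).comp (h.1.analyticAt z), ?_⟩
  exact Eventually.of_forall fun w => h.2 w

theorem IsLift.ne_zero {F : ℂ → EN N} {f : ℂ → PN N} (h : IsLift F f) (z : ℂ) : F z ≠ 0 := by
  obtain ⟨h1, -⟩ := h.2 z
  exact fun h2 => h1 (by rw [h2]; rfl)

theorem IsLift.prP {F : ℂ → EN N} {f : ℂ → PN N} (h : IsLift F f) (z : ℂ) : prP (f z) = pr (F z) := by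
  obtain ⟨h1, h2⟩ := h.2 z
  rw [h2]
  exact mk_symm (F := F z) h1

theorem isLift_mk {F : ℂ → EN N} (hF : Differentiable ℂ F) (h0 : ∀ z, (F z).ofLp ≠ 0) :
    IsLift F fun z => Projectivization.mk ℂ (F z).ofLp (h0 z) :=
  ⟨hF, fun z => ⟨h0 z, rfl⟩⟩

variable {P : Ideal (MvPolynomial (Fin (N + 1)) ℂ)} 

theorem IsLift.mem_iff (hP : Homog P) {F : ℂ → EN N} {f : ℂ → PN N} (h : IsLift F f) (z : ℂ) :
    f z ∈ projVar P ↔ F z ∈ coneE P := by
  obtain ⟨h1, h2⟩ := h.2 z
  rw [h2, mk_mem_projVar hP h1]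
  rfl

theorem doublyPeriodic_of {F : ℂ → EN N} {f : ℂ → PN N} (h : IsLift F f) (hF : ∃ ω₁ ω₂ : ℂ, LinearIndependent ℝ ![ω₁, ω₂] ∧
      ∀ z, pr (F (z + ω₁)) = pr (F z) ∧ pr (F (z + ω₂)) = pr (F z)) : DoublyPeriodic f := by
  obtain ⟨ω₁, ω₂, h1, h2⟩ := hF
  refine ⟨ω₁, ω₂, h1, fun z => ⟨prP_injective ?_, prP_injective ?_⟩⟩
  · rw [h.prP, h.prP, (h2 z).1]
  · rw [h.prP, h.prP, (h2 z).2]

end Pool.Agent.H14.V

end
end
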