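import Pool.Agent.H94.G6.M102

/-! The parts of this file: AD.T.Defs, AD.T.Null. -/

section

/-!
# AD T Defs: symmetric differentials and holomorphic maps to complex tori, in any dimension
-/

set_option autoImplicit false

open Topology Filter

namespace Pool.Agent.AD

open Pool.Agent.H36.BP (EN)
open Pool.Agent.H14.PP (Tan)
open Pool.Agent.H17 (PN)
open Pool.Agent.H14.V (IsLift)

variable {N : ℕ}

/-- A symmetric differential of degree `m` on the projective manifold whose cone is `X`: a function on the tangent bundle (in the language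
of the cone), homogeneous of degree `m` on the tangent spaces, which is holomorphic on the tangent bundle of `ℂ^k` for every holomorphic
map from an open subset of `ℂ^k` to the manifold, for all `k`. -/
structure SymDiff (X : Set (EN N)) (m : ℕ) where
  /-- the differential -/
  toFun : EN N → EN N → ℂ
  add_smul : ∀ x v, Tan X x v → ∀ a : ℂ, toFun x (v + a • x) = toFun x v
  smul : ∀ x v, Tan X x v → ∀ a : ℂ, toFun x (a • v) = a ^ m * toFun x v
  scale : ∀ x v, Tan X x v → ∀ c : ℂ, c ≠ 0 → toFun (c • x) (c • v) = toFun x v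
  analytic : ∀ (k : ℕ) (φ : (Fin k → ℂ) → EN N) (p w : Fin k → ℂ), AnalyticAt ℂ φ p → (∀ᶠ y in 𝓝 p, φ y ∈ X) →
    AnalyticAt ℂ (fun y : (Fin k → ℂ) × (Fin k → ℂ) => toFun (φ y.1) (fderiv ℂ φ y.1 y.2)) (p, w)

/-- The entire curve `f` is tangent to the symmetric differential `θ`. -/
def TangentTo {X : Set (EN N)} {m : ℕ} (θ : SymDiff X m) (f : ℂ → PN N) : Prop :=
  ∃ F, IsLift F f ∧ ∀ z, θ.toFun (F z) (deriv F z) = 0

/-- `u` is a holomorphic map from the closed subset `X` of `ℙ^N` to `ℂ^g / Λ`: near every point it is given by `g` holomorphic functions of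
the homogeneous coordinates. -/
def IsHolomorphicTorusMap {g : ℕ} (X : Set (PN N)) (Λ : AddSubgroup (Fin g → ℂ)) (u : PN N → (Fin g → ℂ) ⧸ Λ) : Prop :=
  ∀ (x : Fin (N + 1) → ℂ) (hx : x ≠ 0), Projectivization.mk ℂ x hx ∈ X → ∃ v : (Fin (N + 1) → ℂ) → (Fin g → ℂ), AnalyticAt ℂ v x ∧
    ∀ᶠ y in 𝓝 x, ∀ hy : y ≠ 0, Projectivization.mk ℂ y hy ∈ X → u (Projectivization.mk ℂ y hy) = (v y : (Fin g → ℂ) ⧸ Λ)

end Pool.Agent.AD

end

section

/-!
# AD T Null: null classes, ampleness of the Plücker line bundle
-/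

open MvPolynomial
open Pool.Agent.H17 (PN)
open Pool.Agent.H17EF (projVar coneE)
open Pool.Agent.H22.W (PseudoLength)
open Pool.Agent.H14.V (IsNull)

noncomputable section

namespace Pool.Agent.AD

variable {N : ℕ}

/-- The classes of curves which are null for a pseudo-length of nonpositive curvature, or tangent to the members of a
finite family of symmetric differentials, or in a fibre of a holomorphic map to a complex torus, on the variety of `P`. -/
inductive NullClass (P : Ideal (MvPolynomial (Fin (N + 1)) ℂ)) : Set (ℂ → PN N) → Prop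
  | length (ν : PseudoLength (coneE P)) : NullClass P {f | IsNull ν f}
  | differentials (k : ℕ) (m : Fin k → ℕ) (hm : ∀ j, 1 ≤ m j) (θ : ∀ j, SymDiff (coneE P) (m j)) :
      NullClass P {f | ∀ j, TangentTo (θ j) f}
  | torus (g : ℕ) (Λ : AddSubgroup (Fin g → ℂ)) (hΛ : DiscreteTopology Λ) (u : PN N → (Fin g → ℂ) ⧸ Λ)
      (hu : IsHolomorphicTorusMap (projVar P) Λ u) : NullClass P {f | ∀ z w, u (f z) = u (f w)}

end Pool.Agent.AD

end
end
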