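import Pool.Agent.H94.G6.H14.PP.Defs_1
import Pool.Agent.H94.G6.M11
import Pool.Agent.H94.G6.M14
import Pool.Agent.H94.G6.M36
import Pool.Agent.H94.G6.M39
import Pool.Agent.H94.G6.M44
import Pool.Agent.H94.G6.M48

/-! The parts of this file: E1.Disc, H90.SG.Order, H92.GGL.NevMero, H62.FC.CharMero, UC.Ch, SY.BdR, UC.G1. -/

section

/-!
# E1 Disc: the zeros of a germ in two variables are covered by finitely many discs
-/

set_option autoImplicit false

open Topology Filter Metric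

noncomputable section

namespace Pool.Agent.E1

open Pool.Agent.H17BP

/-- the properties of a disc -/
def DiscIn (g : ℂ × ℂ → ℂ) (W : Set (ℂ × ℂ)) (c : ℂ → ℂ × ℂ) : Prop :=
  AnalyticOnNhd ℂ c (closedBall 0 1) ∧ ∀ z ∈ closedBall (0 : ℂ) 1, c z ∈ W ∧ g (c z) = 0

theorem disc_axis {g : ℂ × ℂ → ℂ} {θ : ℂ × ℂ → ℂ × ℂ} (hθ : AnalyticAt ℂ θ 0) (h0 : θ 0 = 0) {e : ℂ × ℂ} {W : Set (ℂ × ℂ)}
    (hW : W ∈ 𝓝 (0 : ℂ × ℂ)) (hz : ∀ᶠ z in 𝓝 (0 : ℂ), g (θ (z • e)) = 0) :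
    ∃ δ : ℝ, 0 < δ ∧ DiscIn g W fun z => θ (((δ : ℂ) * z) • e) := by
  have ht : Tendsto (fun z : ℂ => z • e) (𝓝 0) (𝓝 0) := by
    have h : ContinuousAt (fun z : ℂ => z • e) 0 := by fun_prop
    have h1 := h.tendsto
    rwa [zero_smul] at h1
  have hθt : Tendsto θ (𝓝 0) (𝓝 0) := by
    have h := hθ.continuousAt.tendsto
    rwa [h0] at h
  obtain ⟨δ₀, hδ₀, h1⟩ := Metric.eventually_nhds_iff_ball.1 ((ht.eventually hθ.eventually_analyticAt).and (hz.and ((hθt.comp ht).eventually hW)))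
  have hδ : 0 < δ₀ / 2 := by positivity
  have hin : ∀ z ∈ closedBall (0 : ℂ) 1, ((δ₀ / 2 : ℝ) : ℂ) * z ∈ ball (0 : ℂ) δ₀ := by
    intro z hz
    rw [mem_closedBall, dist_zero_right] at hz
    rw [mem_ball, dist_zero_right, norm_mul, Complex.norm_real, Real.norm_of_nonneg hδ.le]
    calc δ₀ / 2 * ‖z‖ ≤ δ₀ / 2 * 1 := by gcongr
      _ < δ₀ := by linarith
  refine ⟨δ₀ / 2, hδ, fun z hz => ?_, fun z hz => ?_⟩
  · refine AnalyticAt.fun_comp (g := θ) (f := fun z : ℂ => (((δ₀ / 2 : ℝ) : ℂ) * z) • e) (h1 _ (hin z hz)).1 ?_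
    fun_prop
  · exact ⟨(h1 _ (hin z hz)).2.2, (h1 _ (hin z hz)).2.1⟩

theorem disc_const {g : ℂ × ℂ → ℂ} {W : Set (ℂ × ℂ)} (hW : W ∈ 𝓝 (0 : ℂ × ℂ)) (h0 : g 0 = 0) : DiscIn g W fun _ => 0 :=
  ⟨analyticOnNhd_const, fun _ _ => ⟨mem_of_mem_nhds hW, h0⟩⟩

/-- the case of a monomial -/
theorem disc_mono {g : ℂ × ℂ → ℂ} (hg : Mono g) {W : Set (ℂ × ℂ)} (hW : W ∈ 𝓝 (0 : ℂ × ℂ)) :
    ∃ C : Set (ℂ → ℂ × ℂ), C.Finite ∧ (∀ c ∈ C, DiscIn g W c) ∧
      ∀ᶠ p in 𝓝 (0 : ℂ × ℂ), g p = 0 → ∃ c ∈ C, ∃ z ∈ closedBall (0 : ℂ) (1 / 2), c z = p := by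
  obtain ⟨S, T, a, b, u, hST, hu, hu0, hgu⟩ := hg
  obtain ⟨θ, hθ, h1, h2⟩ := Bihol.exists_inv hST
  have hθt := hθ.tendsto
  have hun : ∀ᶠ p in 𝓝 (0 : ℂ × ℂ), u p ≠ 0 := hu.continuousAt.eventually_ne hu0
  have hST0 : Tendsto (fun p => (S p, T p)) (𝓝 0) (𝓝 0) := hST.tendsto
  -- the axis `S = 0`
  have hA : ∃ C : Set (ℂ → ℂ × ℂ), C.Finite ∧ (∀ c ∈ C, DiscIn g W c) ∧
      ∀ᶠ p in 𝓝 (0 : ℂ × ℂ), g p = 0 → S p = 0 → a ≠ 0 → ∃ c ∈ C, ∃ z ∈ closedBall (0 : ℂ) (1 / 2), c z = p := by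
    by_cases ha : a = 0
    · exact ⟨∅, Set.finite_empty, fun c hc => absurd hc (Set.notMem_empty _), Eventually.of_forall fun p _ _ h => absurd ha h⟩
    · obtain ⟨δ, hδ, hd⟩ := disc_axis (g := g) (e := ((0, 1) : ℂ × ℂ)) hθ.an hθ.zero hW (by
        have ht : Tendsto (fun z : ℂ => z • ((0, 1) : ℂ × ℂ)) (𝓝 0) (𝓝 0) := by
          have h : ContinuousAt (fun z : ℂ => z • ((0, 1) : ℂ × ℂ)) 0 := by fun_prop
          have h1 := h.tendsto
          rwa [zero_smul] at h1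
        filter_upwards [ht.eventually (hθt.eventually hgu), ht.eventually h2] with z g1 g2
        have g3 : S (θ (z • ((0, 1) : ℂ × ℂ))) = 0 := by
          have := congrArg Prod.fst g2
          simpa using this
        rw [g1, g3, zero_pow ha, zero_mul, zero_mul])
      refine ⟨{fun z => θ (((δ : ℂ) * z) • ((0, 1) : ℂ × ℂ))}, Set.finite_singleton _, fun c hc => by rw [Set.mem_singleton_iff.1 hc]; exact hd, ?_⟩
      have hsmall : ∀ᶠ p in 𝓝 (0 : ℂ × ℂ), ‖T p‖ < δ / 2 := by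
        have h3 : Tendsto (fun p => ‖T p‖) (𝓝 0) (𝓝 0) := by
          have h4 : Tendsto (fun p => ((S p, T p) : ℂ × ℂ).2) (𝓝 0) (𝓝 0) := (continuous_snd.tendsto (0 : ℂ × ℂ)).comp hST0
          simpa using h4.norm
        exact h3.eventually (gt_mem_nhds (by positivity))
      filter_upwards [h1, hsmall] with p g1 g2 _ g3 _
      refine ⟨_, Set.mem_singleton _, T p / δ, ?_, ?_⟩
      · rw [mem_closedBall, dist_zero_right, norm_div, Complex.norm_real, Real.norm_of_nonneg hδ.le, div_le_iff₀ hδ]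
        linarith
      · have hδ' : (δ : ℂ) ≠ 0 := by exact_mod_cast hδ.ne'
        have g4 : ((δ : ℂ) * (T p / δ)) • ((0, 1) : ℂ × ℂ) = (S p, T p) := by
          rw [mul_div_cancel₀ _ hδ', g3]
          simp
        show θ (((δ : ℂ) * (T p / δ)) • ((0, 1) : ℂ × ℂ)) = p
        rw [g4]
        exact g1
  have hB : ∃ C : Set (ℂ → ℂ × ℂ), C.Finite ∧ (∀ c ∈ C, DiscIn g W c) ∧
      ∀ᶠ p in 𝓝 (0 : ℂ × ℂ), g p = 0 → T p = 0 → b ≠ 0 → ∃ c ∈ C, ∃ z ∈ closedBall (0 : ℂ) (1 / 2), c z = p := by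
    by_cases hb : b = 0
    · exact ⟨∅, Set.finite_empty, fun c hc => absurd hc (Set.notMem_empty _), Eventually.of_forall fun p _ _ h => absurd hb h⟩
    · obtain ⟨δ, hδ, hd⟩ := disc_axis (g := g) (e := ((1, 0) : ℂ × ℂ)) hθ.an hθ.zero hW (by
        have ht : Tendsto (fun z : ℂ => z • ((1, 0) : ℂ × ℂ)) (𝓝 0) (𝓝 0) := by
          have h : ContinuousAt (fun z : ℂ => z • ((1, 0) : ℂ × ℂ)) 0 := by fun_prop
          have h1 := h.tendsto
          rwa [zero_smul] at h1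
        filter_upwards [ht.eventually (hθt.eventually hgu), ht.eventually h2] with z g1 g2
        have g3 : T (θ (z • ((1, 0) : ℂ × ℂ))) = 0 := by
          have := congrArg Prod.snd g2
          simpa using this
        rw [g1, g3, zero_pow hb, mul_zero, zero_mul])
      refine ⟨{fun z => θ (((δ : ℂ) * z) • ((1, 0) : ℂ × ℂ))}, Set.finite_singleton _, fun c hc => by rw [Set.mem_singleton_iff.1 hc]; exact hd, ?_⟩
      have hsmall : ∀ᶠ p in 𝓝 (0 : ℂ × ℂ), ‖S p‖ < δ / 2 := by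
        have h3 : Tendsto (fun p => ‖S p‖) (𝓝 0) (𝓝 0) := by
          have h4 : Tendsto (fun p => ((S p, T p) : ℂ × ℂ).1) (𝓝 0) (𝓝 0) := (continuous_fst.tendsto (0 : ℂ × ℂ)).comp hST0
          simpa using h4.norm
        exact h3.eventually (gt_mem_nhds (by positivity))
      filter_upwards [h1, hsmall] with p g1 g2 _ g3 _
      refine ⟨_, Set.mem_singleton _, S p / δ, ?_, ?_⟩
      · rw [mem_closedBall, dist_zero_right, norm_div, Complex.norm_real, Real.norm_of_nonneg hδ.le, div_le_iff₀ hδ]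
        linarith
      · have hδ' : (δ : ℂ) ≠ 0 := by exact_mod_cast hδ.ne'
        have g4 : ((δ : ℂ) * (S p / δ)) • ((1, 0) : ℂ × ℂ) = (S p, T p) := by
          rw [mul_div_cancel₀ _ hδ', g3]
          simp
        show θ (((δ : ℂ) * (S p / δ)) • ((1, 0) : ℂ × ℂ)) = p
        rw [g4]
        exact g1
  obtain ⟨CA, hCA, hCA1, hCA2⟩ := hA
  obtain ⟨CB, hCB, hCB1, hCB2⟩ := hB
  refine ⟨CA ∪ CB, hCA.union hCB, fun c hc => hc.elim (hCA1 c) (hCB1 c), ?_⟩
  filter_upwards [hCA2, hCB2, hgu, hun] with p g1 g2 g3 g4 g5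
  have g6 : S p ^ a * T p ^ b = 0 := by
    rw [g3] at g5
    exact (mul_eq_zero.1 g5).resolve_right g4
  rcases mul_eq_zero.1 g6 with g7 | g7
  · have ha : a ≠ 0 := by
      rintro rfl
      rw [pow_zero] at g7
      exact one_ne_zero g7
    obtain ⟨c, hc, z, hz, he⟩ := g1 g5 (pow_eq_zero_iff ha |>.1 g7) ha
    exact ⟨c, Or.inl hc, z, hz, he⟩
  · have hb : b ≠ 0 := by
      rintro rfl
      rw [pow_zero] at g7
      exact one_ne_zero g7
    obtain ⟨c, hc, z, hz, he⟩ := g2 g5 (pow_eq_zero_iff hb |>.1 g7) hb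
    exact ⟨c, Or.inr hc, z, hz, he⟩

theorem disc_set (n : ℕ) : ∀ {g : ℂ × ℂ → ℂ}, ResN n g → ∀ {W : Set (ℂ × ℂ)}, W ∈ 𝓝 (0 : ℂ × ℂ) →
    ∃ C : Set (ℂ → ℂ × ℂ), C.Finite ∧ (∀ c ∈ C, DiscIn g W c) ∧
      ∀ᶠ p in 𝓝 (0 : ℂ × ℂ), g p = 0 → ∃ c ∈ C, ∃ z ∈ closedBall (0 : ℂ) (1 / 2), c z = p := by
  induction n with
  | zero => exact fun hg _ hW => disc_mono hg hW
  | succ n ih =>
    intro g hg W hW
    rcases hg with hg | hg
    · exact disc_mono hg hW
    -- the points of the exceptional curve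
    have hpt : ∀ β : ℂ × ℂ → ℂ × ℂ, BChart β → (∀ x, AnalyticAt ℂ β x) → β 0 = 0 →
        ∃ (C : Set (ℂ → ℂ × ℂ)) (ε : ℝ), C.Finite ∧ (∀ c ∈ C, DiscIn g W c) ∧ 0 < ε ∧
          ∀ x : ℂ × ℂ, ‖x‖ < ε → g (β x) = 0 → ∃ c ∈ C, ∃ z ∈ closedBall (0 : ℂ) (1 / 2), c z = β x := by
      intro β hβ han h0
      have hβt : Tendsto β (𝓝 0) (𝓝 0) := by
        have h := (han 0).continuousAt.tendsto
        rwa [h0] at h
      obtain ⟨C, hC, hC1, hC2⟩ := ih (hg β hβ) (W := β ⁻¹' W) (hβt hW)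
      obtain ⟨ε, hε, h1⟩ := Metric.eventually_nhds_iff_ball.1 hC2
      refine ⟨(fun c => β ∘ c) '' C, ε, hC.image _, ?_, hε, ?_⟩
      · rintro _ ⟨c, hc, rfl⟩
        obtain ⟨h2, h3⟩ := hC1 c hc
        exact ⟨fun z hz => (han _).comp (h2 z hz), fun z hz => h3 z hz⟩
      · intro x hx hgx
        obtain ⟨c, hc, z, hz, he⟩ := h1 x (by rwa [mem_ball, dist_zero_right]) hgx
        exact ⟨β ∘ c, ⟨c, hc, rfl⟩, z, hz, congrArg β he⟩
    obtain ⟨Ci, εi, hCi, hCi1, hεi, hCi2⟩ := hpt blInf bchart_blInf (fun x => analyticAt_blInf x) blInf_zero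
    choose! Cb εb hCb hCb1 hεb hCb2 using fun t : ℂ => hpt (bl t) (bchart_bl t) (fun x => analyticAt_bl t x) (bl_zero t)
    obtain ⟨F, -, hF⟩ := (isCompact_closedBall (0 : ℂ) (1 / εi)).elim_nhds_subcover (fun t => ball t (εb t)) fun t _ => ball_mem_nhds t (hεb t)
    -- the constant disc
    have h0c : ∃ C0 : Set (ℂ → ℂ × ℂ), C0.Finite ∧ (∀ c ∈ C0, DiscIn g W c) ∧
        (g 0 = 0 → ∃ c ∈ C0, ∃ z ∈ closedBall (0 : ℂ) (1 / 2), c z = 0) := by
      by_cases hg0 : g 0 = 0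
      · exact ⟨{fun _ => 0}, Set.finite_singleton _, fun c hc => by rw [Set.mem_singleton_iff.1 hc]; exact disc_const hW hg0,
          fun _ => ⟨_, Set.mem_singleton _, 0, mem_closedBall_self (by norm_num), rfl⟩⟩
      · exact ⟨∅, Set.finite_empty, fun c hc => absurd hc (Set.notMem_empty _), fun h => absurd h hg0⟩
    obtain ⟨C0, hC0, hC01, hC02⟩ := h0c
    refine ⟨C0 ∪ Ci ∪ ⋃ t ∈ F, Cb t, (hC0.union hCi).union (F.finite_toSet.biUnion fun t _ => hCb t), ?_, ?_⟩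
    · intro c hc
      rcases hc with (hc | hc) | hc
      · exact hC01 c hc
      · exact hCi1 c hc
      · rw [Set.mem_iUnion₂] at hc
        obtain ⟨t, -, hct⟩ := hc
        exact hCb1 t c hct
    · have hsm : ∀ᶠ p in 𝓝 (0 : ℂ × ℂ), ‖p‖ < εi ∧ ∀ t ∈ F, ‖p‖ < εb t := by
        have h1 : ∀ ε : ℝ, 0 < ε → ∀ᶠ p in 𝓝 (0 : ℂ × ℂ), ‖p‖ < ε := fun ε hε => by
          filter_upwards [ball_mem_nhds (0 : ℂ × ℂ) hε] with p hp
          rwa [mem_ball, dist_zero_right] at hp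
        exact (h1 _ hεi).and ((Finset.eventually_all F).2 fun t _ => h1 _ (hεb t))
      filter_upwards [hsm] with p ⟨hp1, hp2⟩ hgp
      by_cases hp0 : p = 0
      · rw [hp0] at hgp ⊢
        obtain ⟨c, hc, z, hz, he⟩ := hC02 hgp
        exact ⟨c, Or.inl (Or.inl hc), z, hz, he⟩
      have hn1 : ‖p.1‖ ≤ ‖p‖ := norm_fst_le p
      have hn2 : ‖p.2‖ ≤ ‖p‖ := norm_snd_le p
      by_cases hlt : ‖p.1‖ < εi * ‖p.2‖
      · have h2 : p.2 ≠ 0 := by
          intro h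
          rw [h, norm_zero, mul_zero] at hlt
          exact absurd hlt (not_lt.2 (norm_nonneg _))
        have h3 : 0 < ‖p.2‖ := norm_pos_iff.2 h2
        have h4 : blInf (p.1 / p.2, p.2) = p := by
          rw [blInf]
          ext
          · exact div_mul_cancel₀ _ h2
          · rfl
        obtain ⟨c, hc, z, hz, he⟩ := hCi2 (p.1 / p.2, p.2) (by
          rw [Prod.norm_def]
          refine max_lt ?_ (lt_of_le_of_lt hn2 hp1)
          show ‖p.1 / p.2‖ < εi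
          rw [norm_div, div_lt_iff₀ h3]
          exact hlt) (by rw [h4]; exact hgp)
        exact ⟨c, Or.inl (Or.inr hc), z, hz, by rw [he, h4]⟩
      · rw [not_lt] at hlt
        have h2 : p.1 ≠ 0 := by
          intro h
          rw [h, norm_zero] at hlt
          have h5 : ‖p.2‖ ≤ 0 := by
            by_contra h6
            rw [not_le] at h6
            have := mul_pos hεi h6
            linarith
          exact hp0 (Prod.ext h (norm_le_zero_iff.1 h5))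
        have h3 : 0 < ‖p.1‖ := norm_pos_iff.2 h2
        have h4 : p.2 / p.1 ∈ closedBall (0 : ℂ) (1 / εi) := by
          rw [mem_closedBall, dist_zero_right, norm_div, div_le_div_iff₀ h3 hεi]
          linarith
        obtain ⟨t, ht, htt⟩ := Set.mem_iUnion₂.1 (hF h4)
        have h5 : bl t (p.1, p.2 / p.1 - t) = p := by
          rw [bl]
          ext
          · rfl
          · show p.1 * (t + (p.2 / p.1 - t)) = p.2
            rw [add_sub_cancel, mul_div_cancel₀ _ h2]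
        obtain ⟨c, hc, z, hz, he⟩ := hCb2 t (p.1, p.2 / p.1 - t) (by
          rw [Prod.norm_def]
          refine max_lt (lt_of_le_of_lt hn1 (hp2 t ht)) ?_
          show ‖p.2 / p.1 - t‖ < εb t
          rwa [mem_ball, dist_eq_norm] at htt) (by rw [h5]; exact hgp)
        exact ⟨c, Or.inr (Set.mem_iUnion₂.2 ⟨t, ht, hc⟩), z, hz, by rw [he, h5]⟩

/-- **The zeros of a germ are covered by finitely many discs.** -/
theorem disc_cover (n : ℕ) {g : ℂ × ℂ → ℂ} (hg : ResN n g) {W : Set (ℂ × ℂ)} (hW : W ∈ 𝓝 (0 : ℂ × ℂ)) :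
    ∃ (r : ℕ) (c : Fin r → ℂ → ℂ × ℂ), (∀ i, AnalyticOnNhd ℂ (c i) (closedBall 0 1)) ∧
      (∀ i, ∀ z ∈ closedBall (0 : ℂ) 1, c i z ∈ W ∧ g (c i z) = 0) ∧
      ∀ᶠ p in 𝓝 (0 : ℂ × ℂ), g p = 0 → ∃ i, ∃ z ∈ closedBall (0 : ℂ) (1 / 2), c i z = p := by
  obtain ⟨C, hC, hC1, hC2⟩ := disc_set n hg hW
  obtain ⟨r, c, -, hcr⟩ := hC.fin_param
  have h1 : ∀ i, DiscIn g W (c i) := fun i => hC1 _ (hcr ▸ Set.mem_range_self i)
  refine ⟨r, c, fun i => (h1 i).1, fun i => (h1 i).2, ?_⟩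
  filter_upwards [hC2] with p hp hgp
  obtain ⟨d, hd, z, hz, he⟩ := hp hgp
  rw [← hcr] at hd
  obtain ⟨i, rfl⟩ := hd
  exact ⟨i, z, hz, he⟩

end Pool.Agent.E1

end
end

section

/-!
# SG Order: a germ without zeros off `{p.1 = 0}` is a power of `p.1` times a unit
-/

set_option autoImplicit false

open Topology Filter Metric

noncomputable section

namespace Pool.Agent.H90.SG

open Pool.Agent.H17BP (exists_div_x)

/-- a germ which is not divisible by `p.1` and has no zeros off `{p.1 = 0}` is a unit -/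
theorem ne_zero_of_not_div {g : ℂ × ℂ → ℂ} (hg : AnalyticAt ℂ g 0) (h0 : ∀ᶠ p in 𝓝 (0 : ℂ × ℂ), p.1 ≠ 0 → g p ≠ 0)
    (h1 : ¬ ∀ᶠ y in 𝓝 (0 : ℂ), g (0, y) = 0) : g 0 ≠ 0 := by
  -- a ball in which everything is good
  obtain ⟨ε, hε, hb⟩ := Metric.eventually_nhds_iff_ball.1 (hg.eventually_analyticAt.and h0)
  have hmem : ∀ {s y : ℂ}, ‖s‖ < ε → ‖y‖ < ε → (s, y) ∈ ball (0 : ℂ × ℂ) ε := by
    intro s y hs hy
    rw [mem_ball_zero_iff, Prod.norm_def]
    exact max_lt hs hy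
  -- isolated zero on the line `{p.1 = 0}`
  have han : AnalyticAt ℂ (fun y : ℂ => g (0, y)) 0 := by
    have h2 : AnalyticAt ℂ (fun y : ℂ => ((0 : ℂ), y)) 0 := analyticAt_const.prod analyticAt_id
    exact AnalyticAt.fun_comp (g := g) (f := fun y : ℂ => ((0 : ℂ), y)) hg h2
  have hiso : ∀ᶠ y in 𝓝[≠] (0 : ℂ), g (0, y) ≠ 0 := han.eventually_eq_zero_or_eventually_ne_zero.resolve_left h1
  rw [eventually_nhdsWithin_iff] at hiso
  obtain ⟨ε', hε', hb'⟩ := Metric.eventually_nhds_iff_ball.1 hiso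
  obtain ⟨ρ, hρ, hρε, hρε'⟩ : ∃ ρ : ℝ, 0 < ρ ∧ ρ < ε ∧ ρ < ε' :=
    ⟨min ε ε' / 2, by positivity, by linarith [min_le_left ε ε', lt_min hε hε'], by linarith [min_le_right ε ε', lt_min hε hε']⟩
  have hne : ∀ y ∈ sphere (0 : ℂ) ρ, g (0, y) ≠ 0 := by
    intro y hy
    have hy1 : ‖y‖ = ρ := by simpa using hy
    refine hb' y (by rw [mem_ball_zero_iff, hy1]; exact hρε') ?_
    rintro rfl
    rw [norm_zero] at hy1
    exact hρ.ne hy1
  have hgc : ContinuousOn g (ball (0 : ℂ × ℂ) ε) := fun p hp => (hb p hp).1.continuousAt.continuousWithinAt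
  -- the minimum on the circle
  have hcs : ContinuousOn (fun y : ℂ => ‖g (0, y)‖) (sphere (0 : ℂ) ρ) := by
    refine ContinuousOn.norm (hgc.comp (by fun_prop) fun y hy => ?_)
    have hy1 : ‖y‖ = ρ := by simpa using hy
    exact hmem (by rw [norm_zero]; exact hε) (by rw [hy1]; exact hρε)
  obtain ⟨y₀, hy₀, hmin⟩ := (isCompact_sphere (0 : ℂ) ρ).exists_isMinOn (NormedSpace.sphere_nonempty.2 hρ.le) hcs
  set m : ℝ := ‖g (0, y₀)‖ with hm
  have hm0 : 0 < m := norm_pos_iff.2 (hne y₀ hy₀)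
  -- uniform lower bound on the circle for small `s`
  have hunif : ∀ᶠ s in 𝓝 (0 : ℂ), ∀ y ∈ sphere (0 : ℂ) ρ, m / 2 < ‖g (s, y)‖ := by
    refine (isCompact_sphere (0 : ℂ) ρ).eventually_forall_of_forall_eventually fun y hy => ?_
    have hy1 : ‖y‖ = ρ := by simpa using hy
    have h2 : ContinuousAt (fun q : ℂ × ℂ => ‖g (q.1, q.2)‖) ((0 : ℂ), y) :=
      (hb (0, y) (hmem (by rw [norm_zero]; exact hε) (by rw [hy1]; exact hρε))).1.continuousAt.norm
    have h3 : m / 2 < ‖g (0, y)‖ := by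
      have h4 : m ≤ ‖g (0, y)‖ := hmin hy
      linarith
    exact h2.eventually (lt_mem_nhds h3)
  -- the minimum principle for `s ≠ 0`
  have hlow : ∀ᶠ s in 𝓝[≠] (0 : ℂ), m / 2 ≤ ‖g (s, 0)‖ := by
    rw [eventually_nhdsWithin_iff]
    filter_upwards [hunif, ball_mem_nhds (0 : ℂ) hε] with s hs hsε hs0
    have hsε' : ‖s‖ < ε := by simpa using hsε
    have hnz : ∀ y ∈ closedBall (0 : ℂ) ρ, g (s, y) ≠ 0 := by
      intro y hy
      have hy1 : ‖y‖ ≤ ρ := by simpa using hy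
      exact (hb (s, y) (hmem hsε' (lt_of_le_of_lt hy1 hρε))).2 hs0
    have hd : DiffContOnCl ℂ (fun y : ℂ => (g (s, y))⁻¹) (ball (0 : ℂ) ρ) := by
      refine DifferentiableOn.diffContOnCl ?_
      rw [closure_ball (0 : ℂ) hρ.ne']
      intro y hy
      have hy1 : ‖y‖ ≤ ρ := by simpa using hy
      have h2 : DifferentiableAt ℂ (fun y : ℂ => g (s, y)) y := by
        have h3 : DifferentiableAt ℂ (fun y : ℂ => (s, y)) y := by fun_prop
        exact DifferentiableAt.comp (g := g) y (hb (s, y) (hmem hsε' (lt_of_le_of_lt hy1 hρε))).1.differentiableAt h3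
      exact (h2.inv (hnz y hy)).differentiableWithinAt
    have h5 := Complex.norm_le_of_forall_mem_frontier_norm_le isBounded_ball hd (C := 2 / m) (fun y hy => ?_)
      (subset_closure (mem_ball_self (x := (0 : ℂ)) hρ))
    · rw [norm_inv] at h5
      have h6 : 0 < ‖g (s, 0)‖ := norm_pos_iff.2 (hnz 0 (mem_closedBall_self hρ.le))
      rw [inv_le_comm₀ h6 (by positivity)] at h5
      calc m / 2 = (2 / m)⁻¹ := by rw [inv_div]
        _ ≤ ‖g (s, 0)‖ := h5
    · rw [frontier_ball (0 : ℂ) hρ.ne'] at hy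
      rw [norm_inv, inv_le_comm₀ (norm_pos_iff.2 (hnz y (sphere_subset_closedBall hy))) (by positivity), inv_div]
      exact (hs y hy).le
  have hlim : Tendsto (fun s : ℂ => ‖g (s, 0)‖) (𝓝[≠] 0) (𝓝 ‖g 0‖) := by
    have h2 : ContinuousAt (fun s : ℂ => ‖g (s, 0)‖) 0 := by
      refine ContinuousAt.norm (ContinuousAt.comp (g := g) (f := fun s : ℂ => (s, (0 : ℂ))) ?_ (by fun_prop))
      exact hg.continuousAt
    exact h2.tendsto.mono_left nhdsWithin_le_nhds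
  have h7 : m / 2 ≤ ‖g 0‖ := ge_of_tendsto hlim hlow
  exact norm_pos_iff.1 (by linarith)

/-- **The order lemma.** -/
theorem exists_order {f : ℂ × ℂ → ℂ} (hf : AnalyticAt ℂ f 0) (h0 : ∀ᶠ p in 𝓝 (0 : ℂ × ℂ), p.1 ≠ 0 → f p ≠ 0) :
    ∃ (μ : ℕ) (u : ℂ × ℂ → ℂ), AnalyticAt ℂ u 0 ∧ u 0 ≠ 0 ∧ ∀ᶠ p in 𝓝 (0 : ℂ × ℂ), f p = p.1 ^ μ * u p := by
  classical
  -- the order on the line `{p.2 = 0}`
  have hline : Tendsto (fun z : ℂ => (z, (0 : ℂ))) (𝓝 0) (𝓝 (0 : ℂ × ℂ)) := by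
    have : Continuous fun z : ℂ => (z, (0 : ℂ)) := by fun_prop
    exact this.tendsto 0
  have han : ∀ {g : ℂ × ℂ → ℂ}, AnalyticAt ℂ g 0 → AnalyticAt ℂ (fun z : ℂ => g (z, 0)) 0 := by
    intro g hg
    have h2 : AnalyticAt ℂ (fun z : ℂ => (z, (0 : ℂ))) 0 := analyticAt_id.prod analyticAt_const
    exact AnalyticAt.fun_comp (g := g) (f := fun z : ℂ => (z, (0 : ℂ))) hg h2
  have hne : ¬ ∀ᶠ z in 𝓝 (0 : ℂ), f (z, 0) = 0 := by
    intro h2
    have h3 := hline.eventually h0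
    have h4 : ∀ᶠ z in 𝓝[≠] (0 : ℂ), False := by
      filter_upwards [h2.filter_mono nhdsWithin_le_nhds, h3.filter_mono nhdsWithin_le_nhds, self_mem_nhdsWithin] with z g1 g2 g3
      exact g2 g3 g1
    rw [eventually_false_iff_eq_bot] at h4
    exact (NormedField.nhdsNE_neBot (0 : ℂ)).ne h4
  obtain ⟨K, w, hw, hw0, hwe⟩ := (han hf).exists_eventuallyEq_pow_smul_nonzero_iff.2 hne
  -- the divisors
  obtain ⟨A, hA⟩ : ∃ A : ℕ → Prop, A = fun n => ∃ g : ℂ × ℂ → ℂ, AnalyticAt ℂ g 0 ∧ ∀ᶠ p in 𝓝 (0 : ℂ × ℂ), f p = p.1 ^ n * g p := ⟨_, rfl⟩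
  have hA0 : A 0 := by
    rw [hA]
    exact ⟨f, hf, Eventually.of_forall fun p => by rw [pow_zero, one_mul]⟩
  have hAK : ∀ n, A n → n ≤ K := by
    rw [hA]
    rintro n ⟨g, hg, hge⟩
    by_contra hn
    push Not at hn
    obtain ⟨d, rfl⟩ : ∃ d, n = K + (d + 1) := ⟨n - K - 1, by omega⟩
    have h2 : ∀ᶠ z in 𝓝[≠] (0 : ℂ), w z = z ^ (d + 1) * g (z, 0) := by
      filter_upwards [(hline.eventually hge).filter_mono nhdsWithin_le_nhds, hwe.filter_mono nhdsWithin_le_nhds, self_mem_nhdsWithin]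
        with z g1 g2 g3
      have g3' : z ≠ 0 := g3
      have g4 : z ^ K * w z = z ^ K * (z ^ (d + 1) * g (z, 0)) := by
        have g5 : f (z, 0) = z ^ K * w z := by simpa using g2
        rw [← g5, g1, pow_add, mul_assoc]
      exact mul_left_cancel₀ (pow_ne_zero K g3') g4
    have h3 : Tendsto (fun z => w z) (𝓝[≠] 0) (𝓝 (w 0)) := hw.continuousAt.tendsto.mono_left nhdsWithin_le_nhds
    have h4 : Tendsto (fun z : ℂ => z ^ (d + 1) * g (z, 0)) (𝓝[≠] 0) (𝓝 0) := by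
      have h5 : ContinuousAt (fun z : ℂ => z ^ (d + 1) * g (z, 0)) 0 := (continuousAt_id.pow _).mul (han hg).continuousAt
      have h6 := h5.tendsto.mono_left (nhdsWithin_le_nhds (s := {(0 : ℂ)}ᶜ))
      simpa using h6
    exact hw0 (tendsto_nhds_unique (h3.congr' h2) h4)
  obtain ⟨μ, hμ1, hμ2⟩ : ∃ μ, A μ ∧ ¬ A (μ + 1) := by
    by_contra hcon
    push Not at hcon
    have h2 : ∀ n, A n := fun n => Nat.rec hA0 (fun n ih => hcon n ih) n
    have := hAK _ (h2 (K + 1))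
    omega
  rw [hA] at hμ1 hμ2
  obtain ⟨u, hu, hue⟩ := hμ1
  refine ⟨μ, u, hu, ne_zero_of_not_div hu ?_ ?_, hue⟩
  · filter_upwards [hue, h0] with p g1 g2 g3 g4
    refine g2 g3 ?_
    rw [g1, g4, mul_zero]
  · intro h2
    obtain ⟨v, hv, hve⟩ := exists_div_x hu h2
    refine hμ2 ⟨v, hv, ?_⟩
    filter_upwards [hue, hve] with p g1 g2
    rw [g1, g2, smul_eq_mul, pow_succ, mul_assoc]

end Pool.Agent.H90.SG

end
end

section

/-!
# A meromorphic function on a punctured disc with characteristic `O (log (1 / r))`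
-/

open Complex MeasureTheory Metric Set Topology Filter

namespace Pool.Agent.H92.GGL

lemma exists_radius {P : Set ℂ} (hP : P.Finite) (h0 : ∀ s ∈ P, 0 < ‖s‖) :
    ∃ ε : ℝ, 0 < ε ∧ ∀ s ∈ P, ε ≤ ‖s‖ := by
  rcases hP.toFinset.eq_empty_or_nonempty with h | h
  · refine ⟨1, one_pos, fun s hs => ?_⟩
    have : s ∈ hP.toFinset := hP.mem_toFinset.mpr hs
    rw [h] at this
    exact absurd this (Finset.notMem_empty s)
  · obtain ⟨s₀, hs₀, hmin⟩ := hP.toFinset.exists_min_image (fun s => ‖s‖) h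
    exact ⟨‖s₀‖, h0 s₀ (hP.mem_toFinset.mp hs₀), fun s hs => hmin s (hP.mem_toFinset.mpr hs)⟩

/-- The order of the difference with a constant. -/
lemma neg_ordZ_sub_const_le {u : ℂ → ℂ} {s c : ℂ} (hu : MeromorphicAt u s)
    (ho : meromorphicOrderAt u s ≠ ⊤) (hc : meromorphicOrderAt (fun z => u z - c) s ≠ ⊤) :
    max (-(ordZ (fun z => u z - c) s : ℝ)) 0 ≤ max (-(ordZ u s : ℝ)) 0 := by
  have h1 : min (meromorphicOrderAt u s) (meromorphicOrderAt (fun _ : ℂ => -c) s) ≤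
      meromorphicOrderAt (fun z => u z - c) s := by
    have h2 := meromorphicOrderAt_add hu (MeromorphicAt.const (-c) s)
    have h3 : (u + fun _ : ℂ => -c) = fun z => u z - c := by
      funext z
      simp [sub_eq_add_neg]
    rwa [h3] at h2
  have h4 : (0 : WithTop ℤ) ≤ meromorphicOrderAt (fun _ : ℂ => -c) s :=
    (analyticAt_const).meromorphicOrderAt_nonneg
  have h5 : min (ordZ u s) 0 ≤ ordZ (fun z => u z - c) s := by
    have h6 : min (meromorphicOrderAt u s) 0 ≤ meromorphicOrderAt (fun z => u z - c) s :=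
      (min_le_min_left _ h4).trans h1
    rw [← ordZ_cast ho, ← ordZ_cast hc] at h6
    exact_mod_cast h6
  have h7 : (min (ordZ u s : ℝ) 0) ≤ ordZ (fun z => u z - c) s := by exact_mod_cast h5
  refine max_le ?_ (le_max_right _ _)
  rcases le_total (ordZ u s : ℝ) 0 with h8 | h8
  · rw [min_eq_left h8] at h7
    exact le_trans (by linarith) (le_max_left _ _)
  · rw [min_eq_right h8] at h7
    exact le_trans (by linarith) (le_max_right _ _)

end Pool.Agent.H92.GGL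

end

section

/-!
# FC, module CharMero: small characteristic implies meromorphic at the puncture
-/

open Complex MeasureTheory Metric Set Topology Filter
open Pool.Agent.H92.GGL

noncomputable section

namespace Pool.Agent.H62.FC

/-- A set of points of a punctured disc with small counting function for arbitrarily small
radii is finite. -/
private lemma CharMero_finite_of_count {P : Set ℂ} {C D : ℝ} (hP : ∀ s ∈ P, 0 < ‖s‖)
    (h : ∀ r₁, 0 < r₁ → ∃ r, 0 < r ∧ r < r₁ ∧ ∀ S : Finset ℂ, (∀ s ∈ S, s ∈ P) →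
      ∑ s ∈ S, Real.posLog (‖s‖ / r) ≤ C - D * Real.log r) : P.Finite := by
  by_contra hinf
  obtain ⟨n₀, hn₀⟩ := exists_nat_gt D
  obtain ⟨S, hSP, hScard⟩ := (Set.not_finite.mp hinf).exists_subset_card_eq (n₀ + 1)
  have hSne : S.Nonempty := by
    rw [← Finset.card_pos, hScard]
    omega
  obtain ⟨s₀, hs₀, hmin⟩ := S.exists_min_image (fun s => ‖s‖) hSne
  set δ := ‖s₀‖ with hδ
  have hδ0 : 0 < δ := hP s₀ (hSP hs₀)
  set n : ℝ := ((n₀ + 1 : ℕ) : ℝ) with hn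
  have hnD : 1 < n - D := by
    rw [hn]
    push_cast
    linarith
  have hnpos : 0 ≤ n := Nat.cast_nonneg _
  set t₀ : ℝ := max (1 + -Real.log δ) (|C - n * Real.log δ| + 1) with ht₀
  obtain ⟨r, hr0, hr1, hr⟩ := h (Real.exp (-t₀)) (Real.exp_pos _)
  set t : ℝ := -Real.log r with ht
  have hrt : r = Real.exp (-t) := by
    rw [ht, neg_neg, Real.exp_log hr0]
  have htt : t₀ < t := by
    have := Real.log_lt_log hr0 hr1
    rw [Real.log_exp] at this
    linarith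
  have ht1 : -Real.log δ < t := by
    have h1 := le_max_left (1 + -Real.log δ) (|C - n * Real.log δ| + 1)
    linarith
  have ht3 : |C - n * Real.log δ| + 1 ≤ t := (le_max_right _ _).trans htt.le
  have hr2 : Real.exp (-t) < δ := by
    rw [← Real.exp_log hδ0]
    exact Real.exp_lt_exp.mpr (by linarith)
  have h1 := hr S (fun s hs => hSP hs)
  rw [hrt, Real.log_exp] at h1
  have h2 : n * (Real.log δ + t) ≤ ∑ s ∈ S, Real.posLog (‖s‖ / Real.exp (-t)) := by
    have h3 : ∑ _s ∈ S, (Real.log δ + t) = n * (Real.log δ + t) := by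
      rw [Finset.sum_const, hScard, nsmul_eq_mul]
    rw [← h3]
    refine Finset.sum_le_sum fun s hs => ?_
    have h4 : δ ≤ ‖s‖ := hmin s hs
    have h5 : Real.log δ + t = Real.log (δ / Real.exp (-t)) := by
      rw [Real.log_div hδ0.ne' (Real.exp_pos _).ne', Real.log_exp]
      ring
    rw [h5]
    refine le_trans ?_ (le_max_right _ _)
    refine Real.log_le_log (by positivity) ?_
    gcongr
  have h6 : (n - D) * t ≤ C - n * Real.log δ := by linarith
  have h7 : t ≤ (n - D) * t := by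
    have : 0 ≤ t := by
      have := abs_nonneg (C - n * Real.log δ)
      linarith
    nlinarith
  have h8 := le_abs_self (C - n * Real.log δ)
  linarith

private theorem CharMero_core {u : ℂ → ℂ} {R₀ R₁ : ℝ} (hR₁0 : 0 < R₁) (hR₁ : R₁ < R₀)
    (hu : ∀ z, 0 < ‖z‖ → ‖z‖ < R₀ → MeromorphicAt u z) {C D : ℝ}
    (hT : ∀ r₁, 0 < r₁ → ∃ r, 0 < r ∧ r < r₁ ∧ r < R₁ ∧
      ∀ S : Finset ℂ, (∀ s ∈ S, 0 < ‖s‖ ∧ ‖s‖ < R₁) →
      Real.circleAverage (fun z => Real.posLog ‖u z‖) 0 r +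
        ∑ s ∈ S, max (-(ordZ u s : ℝ)) 0 * Real.posLog (‖s‖ / r) ≤ C - D * Real.log r) :
    PunctMero u := by
  classical
  set Ω : Set ℂ := {z : ℂ | 0 < ‖z‖ ∧ ‖z‖ < R₀} with hΩ
  have hΩo : IsOpen Ω := isOpen_punctured R₀
  have hm : MeromorphicOn u Ω := fun z hz => hu z hz.1 hz.2
  -- the constant case
  by_cases hconst : ∃ c, ∃ z ∈ Ω, meromorphicOrderAt (fun z => u z - c) z = ⊤
  · obtain ⟨c, z₀, hz₀, hc⟩ := hconst
    have hmc : MeromorphicOn (fun z => u z - c) Ω := fun z hz =>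
      (hm z hz).sub (MeromorphicAt.const c z)
    have hall : ∀ z ∈ Ω, meromorphicOrderAt (fun z => u z - c) z = ⊤ := by
      intro z hz
      by_contra h
      exact (hmc.meromorphicOrderAt_ne_top_of_isPreconnected (isPreconnected_punctured R₀) hz
        hz₀ h) hc
    refine ⟨fun _ => c, MeromorphicAt.const c 0, ?_⟩
    filter_upwards [punctured_mem (hR₁0.trans hR₁)] with z hz
    have h3 := hall z hz
    rw [meromorphicOrderAt_eq_top_iff] at h3
    filter_upwards [h3] with w hw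
    exact sub_eq_zero.mp hw
  push Not at hconst
  have hord : ∀ z ∈ Ω, meromorphicOrderAt u z ≠ ⊤ := by
    intro z hz
    have := hconst 0 z hz
    simpa using this
  have hsub : ∀ s : ℂ, 0 < ‖s‖ → ‖s‖ < R₁ → s ∈ Ω := fun s h1 h2 => ⟨h1, h2.trans hR₁⟩
  -- integrability
  have hsph : ∀ r, 0 < r → r < R₁ → MeromorphicOn u (sphere 0 |r|) := by
    intro r h1 h2 z hz
    rw [mem_sphere_zero_iff_norm, abs_of_pos h1] at hz
    exact hm z (hsub z (by rw [hz]; exact h1) (by rw [hz]; exact h2))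
  have hposnn : ∀ r, 0 < r → r < R₁ → 0 ≤ Real.circleAverage (fun z => Real.posLog ‖u z‖) 0 r := by
    intro r h1 h2
    exact Real.circleAverage_nonneg_of_nonneg fun z _ => Real.posLog_nonneg
  -- finitely many poles
  have hpoles : {s : ℂ | (0 < ‖s‖ ∧ ‖s‖ < R₁) ∧ ordZ u s < 0}.Finite := by
    refine CharMero_finite_of_count (C := C) (D := D) (fun s hs => hs.1.1) ?_
    intro r₁ hr₁
    obtain ⟨r, h1, h1', h2, hTr⟩ := hT r₁ hr₁
    refine ⟨r, h1, h1', fun S hS => ?_⟩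
    have h3 := hTr S (fun s hs => (hS s hs).1)
    have h4 := hposnn r h1 h2
    refine le_trans ?_ (le_trans (by linarith) h3) (b := ∑ s ∈ S, max (-(ordZ u s : ℝ)) 0 *
      Real.posLog (‖s‖ / r))
    refine Finset.sum_le_sum fun s hs => ?_
    have h5 : ordZ u s ≤ -1 := by
      have := (hS s hs).2
      omega
    have h6 : (ordZ u s : ℝ) ≤ -1 := by exact_mod_cast h5
    have h7 : (1 : ℝ) ≤ max (-(ordZ u s : ℝ)) 0 := le_max_of_le_left (by linarith)
    have h8 : 0 ≤ Real.posLog (‖s‖ / r) := Real.posLog_nonneg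
    nlinarith
  -- finitely many zeros of `u - c`
  have hzeros : ∀ c : ℂ, {s : ℂ | (0 < ‖s‖ ∧ ‖s‖ < R₁) ∧ 0 < ordZ (fun z => u z - c) s}.Finite := by
    intro c
    have hmc : ∀ z, 0 < ‖z‖ → ‖z‖ < R₀ → MeromorphicAt (fun z => u z - c) z := fun z h1 h2 =>
      (hu z h1 h2).sub (MeromorphicAt.const c z)
    obtain ⟨A, B, hJ⟩ := jensen_punctured hR₁ hmc (fun z h1 h2 => hconst c z ⟨h1, h2⟩)
    refine CharMero_finite_of_count (C := C + Real.posLog ‖c‖ + Real.log 2 - A) (D := D + B)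
      (fun s hs => hs.1.1) ?_
    intro r₁ hr₁
    obtain ⟨r, h1, h1', h2, hTr⟩ := hT r₁ hr₁
    refine ⟨r, h1, h1', fun S hS => ?_⟩
    have hfin := finite_ordZ (a := r) (b := R₁) h1 hR₁ hmc
    set S' : Finset ℂ := S ∪ hfin.toFinset.filter (fun s => ‖s‖ < R₁) with hS'
    have hS'1 : ∀ s ∈ S', 0 < ‖s‖ ∧ ‖s‖ < R₁ := by
      intro s hs
      rw [hS', Finset.mem_union, Finset.mem_filter, hfin.mem_toFinset] at hs
      rcases hs with hs | hs
      · exact (hS s hs).1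
      · exact ⟨h1.trans_le hs.1.1, hs.2⟩
    have hS'2 : ∀ s, r < ‖s‖ → ‖s‖ < R₁ → ordZ (fun z => u z - c) s ≠ 0 → s ∈ S' := by
      intro s h3 h4 h5
      rw [hS', Finset.mem_union, Finset.mem_filter, hfin.mem_toFinset]
      exact Or.inr ⟨⟨h3.le, h4.le, h5⟩, h4⟩
    have h3 := hJ r h1 h2 S' (fun s hs => (hS'1 s hs).2) hS'2
    have h4 := hTr S' hS'1
    -- comparison of the means
    have hsphc : MeromorphicOn (fun z => u z - c) (sphere 0 |r|) := fun z hz =>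
      (hsph r h1 h2 z hz).sub (MeromorphicAt.const c z)
    have h5 : Real.circleAverage (fun z => Real.log ‖u z - c‖) 0 r ≤
        Real.circleAverage (fun z => Real.posLog ‖u z‖) 0 r + (Real.posLog ‖c‖ + Real.log 2) := by
      have h6 : Real.circleAverage (fun z => Real.posLog ‖u z‖ + (Real.posLog ‖c‖ + Real.log 2)) 0 r =
          Real.circleAverage (fun z => Real.posLog ‖u z‖) 0 r +
            (Real.posLog ‖c‖ + Real.log 2) := by
        rw [Real.circleAverage_fun_add (MeromorphicOn.circleIntegrable_posLog_norm (hsph r h1 h2))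
          (circleIntegrable_const _ _ _), Real.circleAverage_const]
      rw [← h6]
      refine Real.circleAverage_mono (MeromorphicOn.circleIntegrable_log_norm hsphc) ?_ ?_
      · exact (MeromorphicOn.circleIntegrable_posLog_norm (hsph r h1 h2)).fun_add
          (circleIntegrable_const _ _ _)
      · intro z _
        have h7 : Real.log ‖u z - c‖ ≤ Real.posLog ‖u z - c‖ := le_max_right _ _
        have h8 := Real.posLog_norm_add_le (u z) (-c)
        rw [norm_neg, ← sub_eq_add_neg] at h8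
        linarith
    -- comparison of the sums
    have h6 : ∑ s ∈ S, Real.posLog (‖s‖ / r) ≤
        ∑ s ∈ S', (ordZ (fun z => u z - c) s : ℝ) * Real.posLog (‖s‖ / r) +
        ∑ s ∈ S', max (-(ordZ u s : ℝ)) 0 * Real.posLog (‖s‖ / r) := by
      rw [← Finset.sum_add_distrib]
      have h7 : ∑ s ∈ S, Real.posLog (‖s‖ / r) ≤
          ∑ s ∈ S', max (ordZ (fun z => u z - c) s : ℝ) 0 * Real.posLog (‖s‖ / r) := by
        refine le_trans (b := ∑ s ∈ S, max (ordZ (fun z => u z - c) s : ℝ) 0 *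
          Real.posLog (‖s‖ / r)) ?_ ?_
        · refine Finset.sum_le_sum fun s hs => ?_
          have h8 : 1 ≤ ordZ (fun z => u z - c) s := by
            have := (hS s hs).2
            omega
          have h9 : (1 : ℝ) ≤ ordZ (fun z => u z - c) s := by exact_mod_cast h8
          have h10 : (1 : ℝ) ≤ max (ordZ (fun z => u z - c) s : ℝ) 0 := le_max_of_le_left h9
          have h11 : 0 ≤ Real.posLog (‖s‖ / r) := Real.posLog_nonneg
          nlinarith
        · refine Finset.sum_le_sum_of_subset_of_nonneg Finset.subset_union_left ?_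
          intro s _ _
          exact mul_nonneg (le_max_right _ _) Real.posLog_nonneg
      refine h7.trans (Finset.sum_le_sum fun s hs => ?_)
      have hs' := hS'1 s hs
      have h8 := neg_ordZ_sub_const_le (hu s hs'.1 (hs'.2.trans hR₁)) (hord s (hsub s hs'.1 hs'.2))
        (hconst c s (hsub s hs'.1 hs'.2))
      rw [← add_mul]
      refine mul_le_mul_of_nonneg_right ?_ Real.posLog_nonneg
      have h9 : max (ordZ (fun z => u z - c) s : ℝ) 0 = ordZ (fun z => u z - c) s +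
          max (-(ordZ (fun z => u z - c) s : ℝ)) 0 := by
        rcases le_total (ordZ (fun z => u z - c) s : ℝ) 0 with h | h
        · rw [max_eq_right h, max_eq_left (by linarith)]
          ring
        · rw [max_eq_left h, max_eq_right (by linarith)]
          ring
      rw [h9]
      linarith
    linarith
  -- the normal form
  set v : ℂ → ℂ := toMeromorphicNFOn u Ω with hv
  have hvNF : MeromorphicNFOn v Ω := meromorphicNFOn_toMeromorphicNFOn u Ω
  have huv : ∀ z ∈ Ω, u =ᶠ[𝓝[≠] z] v := fun z hz =>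
    (hm.toMeromorphicNFOn_eq_self_on_nhdsNE hz).symm
  obtain ⟨ε₁, hε₁, hε₁P⟩ := exists_radius hpoles (fun s hs => hs.1.1)
  have hnonneg : ∀ z, 0 < ‖z‖ → ‖z‖ < min ε₁ R₁ → 0 ≤ meromorphicOrderAt u z := by
    intro z h1 h2
    have h3 : ‖z‖ < ε₁ := h2.trans_le (min_le_left _ _)
    have h4 : ‖z‖ < R₁ := h2.trans_le (min_le_right _ _)
    by_contra h
    push Not at h
    have h5 : ordZ u z < 0 := by
      rw [← ordZ_cast (hord z (hsub z h1 h4))] at h
      exact_mod_cast h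
    exact absurd (hε₁P z ⟨⟨h1, h4⟩, h5⟩) (not_le.mpr h3)
  have hvan : ∀ z, 0 < ‖z‖ → ‖z‖ < min ε₁ R₁ → AnalyticAt ℂ v z := by
    intro z h1 h2
    have hz : z ∈ Ω := hsub z h1 (h2.trans_le (min_le_right _ _))
    rw [← (hvNF hz).meromorphicOrderAt_nonneg_iff_analyticAt, ← meromorphicOrderAt_congr (huv z hz)]
    exact hnonneg z h1 h2
  have hmin : 0 < min ε₁ R₁ := lt_min hε₁ hR₁0
  have hmero : MeromorphicAt v 0 := by
    refine meromorphicAt_of_omits hmin hvan fun c => ?_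
    obtain ⟨δ, hδ, hδP⟩ := exists_radius (hzeros c) (fun s hs => hs.1.1)
    refine ⟨min δ (min ε₁ R₁), lt_min hδ hmin, fun z h1 h2 hzc => ?_⟩
    have h3 : ‖z‖ < δ := h2.trans_le (min_le_left _ _)
    have h4 : ‖z‖ < min ε₁ R₁ := h2.trans_le (min_le_right _ _)
    have h5 : ‖z‖ < R₁ := h4.trans_le (min_le_right _ _)
    have hz : z ∈ Ω := hsub z h1 h5
    have h6 : AnalyticAt ℂ (fun w => v w - c) z := (hvan z h1 h4).sub analyticAt_const
    have h7 : (fun w => u w - c) =ᶠ[𝓝[≠] z] fun w => v w - c := by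
      filter_upwards [huv z hz] with w hw
      rw [hw]
    have h8 : 0 < ordZ (fun w => u w - c) z := by
      have h9 : 0 < meromorphicOrderAt (fun w => u w - c) z := by
        rw [meromorphicOrderAt_congr h7, ← tendsto_zero_iff_meromorphicOrderAt_pos h6.meromorphicAt]
        have h10 := h6.continuousAt.tendsto
        simp only [hzc, sub_self] at h10
        exact h10.mono_left nhdsWithin_le_nhds
      rw [← ordZ_cast (hconst c z hz)] at h9
      exact_mod_cast h9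
    exact absurd (hδP z ⟨⟨h1, h5⟩, h8⟩) (not_le.mpr h3)
  refine ⟨v, hmero, ?_⟩
  filter_upwards [punctured_mem (hR₁0.trans hR₁)] with z hz
  exact huv z hz

theorem punctMero_of_nevT {R₀ R₁ : ℝ} (h1 : 0 < R₁) (h : R₁ < R₀) {u : ℂ → ℂ}
    (hu : MeroPunct R₀ u) {C : ℝ} {E : Set ℝ} (hE : volume E ≠ ⊤)
    (hT : ∀ x, Real.exp (-x) < R₁ → x ∉ E → nevT u R₁ x ≤ C * (1 + |x|)) : PunctMero u := by
  classical
  refine CharMero_core h1 h hu.mero (C := C) (D := C) ?_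
  intro r₁ hr₁
  -- a good radius
  set a : ℝ := max 0 (max (-Real.log r₁) (-Real.log R₁)) with ha
  obtain ⟨x, hxa, hxE⟩ : ∃ x, a < x ∧ x ∉ E := by
    by_contra hcon
    push Not at hcon
    have h2 : Set.Ioi a ⊆ E := fun x hx => hcon x hx
    have h3 := measure_mono (μ := volume) h2
    rw [Real.volume_Ioi] at h3
    exact hE (top_le_iff.mp h3)
  have hx0 : 0 < x := lt_of_le_of_lt (le_max_left _ _) hxa
  have hxr : -Real.log r₁ < x :=
    lt_of_le_of_lt ((le_max_left _ _).trans (le_max_right _ _)) hxa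
  have hxR : -Real.log R₁ < x :=
    lt_of_le_of_lt ((le_max_right _ _).trans (le_max_right _ _)) hxa
  have hr1 : Real.exp (-x) < r₁ := by
    rw [← Real.exp_log hr₁]
    exact Real.exp_lt_exp.mpr (by linarith)
  have hr2 : Real.exp (-x) < R₁ := by
    rw [← Real.exp_log h1]
    exact Real.exp_lt_exp.mpr (by linarith)
  refine ⟨Real.exp (-x), Real.exp_pos _, hr1, hr2, fun S hS => ?_⟩
  have h2 := hT x hr2 hxE
  rw [abs_of_pos hx0] at h2
  rw [Real.log_exp]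
  set r : ℝ := Real.exp (-x) with hr
  have hr0 : 0 < r := Real.exp_pos _
  -- the counting function as a finite sum
  have hfin := finite_ordZ (a := r) (b := R₁) hr0 h hu.mero
  set T : Finset ℂ := hfin.toFinset.filter (fun s => r < ‖s‖ ∧ ‖s‖ < R₁) with hTd
  have hcnt : cnt (fun s => max (-(ordZ u s : ℝ)) 0) R₁ r =
      ∑ s ∈ T, max (-(ordZ u s : ℝ)) 0 * Real.log (‖s‖ / r) := by
    unfold cnt
    refine finsum_mem_eq_sum_of_inter_support_eq _ ?_
    ext s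
    simp only [Set.mem_inter_iff, Function.mem_support, Finset.mem_coe, hTd, Finset.mem_filter,
      Set.Finite.mem_toFinset]
    constructor
    · rintro ⟨⟨h3, h4⟩, h5⟩
      refine ⟨⟨⟨h3.le, h4.le, ?_⟩, h3, h4⟩, h5⟩
      intro h6
      apply h5
      rw [h6]
      simp
    · rintro ⟨⟨_, h3, h4⟩, h5⟩
      exact ⟨⟨h3, h4⟩, h5⟩
  have hle : ∑ s ∈ S, max (-(ordZ u s : ℝ)) 0 * Real.posLog (‖s‖ / r) ≤
      ∑ s ∈ T, max (-(ordZ u s : ℝ)) 0 * Real.log (‖s‖ / r) := by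
    have h3 : ∑ s ∈ T, max (-(ordZ u s : ℝ)) 0 * Real.log (‖s‖ / r) =
        ∑ s ∈ T, max (-(ordZ u s : ℝ)) 0 * Real.posLog (‖s‖ / r) := by
      refine Finset.sum_congr rfl fun s hs => ?_
      have hs' : r < ‖s‖ := (Finset.mem_filter.mp hs).2.1
      have h4 : Real.posLog (‖s‖ / r) = Real.log (‖s‖ / r) := by
        refine max_eq_right (Real.log_nonneg ?_)
        rw [one_le_div hr0]
        exact hs'.le
      rw [h4]
    rw [h3]
    have h4 : ∑ s ∈ T, max (-(ordZ u s : ℝ)) 0 * Real.posLog (‖s‖ / r) =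
        ∑ s ∈ S ∪ T, max (-(ordZ u s : ℝ)) 0 * Real.posLog (‖s‖ / r) := by
      refine Finset.sum_subset Finset.subset_union_right ?_
      intro s hs hsT
      have hsS : s ∈ S := by
        rcases Finset.mem_union.mp hs with h5 | h5
        · exact h5
        · exact absurd h5 hsT
      have hsn := hS s hsS
      by_cases h5 : r < ‖s‖
      · have h6 : ordZ u s = 0 := by
          by_contra h6
          apply hsT
          rw [hTd, Finset.mem_filter, hfin.mem_toFinset]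
          exact ⟨⟨h5.le, hsn.2.le, h6⟩, h5, hsn.2⟩
        rw [h6]
        simp
      · have h6 : Real.posLog (‖s‖ / r) = 0 := by
          rw [Real.posLog_eq_zero_iff, abs_of_nonneg (by positivity), div_le_one hr0]
          exact not_lt.mp h5
        rw [h6, mul_zero]
    rw [h4]
    exact Finset.sum_le_sum_of_subset_of_nonneg Finset.subset_union_left
      fun s _ _ => mul_nonneg (le_max_right _ _) Real.posLog_nonneg
  have h3 : nevT u R₁ x = Real.circleAverage (fun z => Real.posLog ‖u z‖) 0 r +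
      cnt (fun s => max (-(ordZ u s : ℝ)) 0) R₁ r := rfl
  rw [h3, hcnt] at h2
  linarith

end Pool.Agent.H62.FC

end
end

section

/-!
# UC Ch: a chart on an open cone
-/

set_option autoImplicit false

open Topology Filter Metric

noncomputable section

namespace Pool.Agent.UC

open Pool.Agent.H17BP (Surface IsForm IsChart Tan)

variable {V : Type} [NormedAddCommGroup V] [NormedSpace ℂ V] [FiniteDimensional ℂ V] {X : Set V}

/-- A chart on an open cone. `U` is a given neighbourhood of `0` (where the equations of `Mon` hold). -/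
theorem exists_cone (hX : Surface X) {σ : ℂ × ℂ → V} {τ : V → ℂ × ℂ} (h : IsChart X σ τ) {U : Set (ℂ × ℂ)} (hU : U ∈ 𝓝 (0 : ℂ × ℂ)) :
    ∃ (W : Set V) (T : V → ℂ × ℂ) (H : V → ℂ), IsOpen W ∧ σ 0 ∈ W ∧ T (σ 0) = 0 ∧
      (∀ y ∈ W, ∀ c : ℂ, c ≠ 0 → c • y ∈ W ∧ T (c • y) = T y ∧ H (c • y) = c * H y) ∧
      (∀ y ∈ W, AnalyticAt ℂ T y ∧ AnalyticAt ℂ H y ∧ H y ≠ 0 ∧ T y ∈ U) ∧ ∀ y ∈ W, y ∈ X → y = H y • σ (T y) := by
  -- a linear form with value `1` at `σ 0`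
  obtain ⟨l, hl⟩ : ∃ l : V →L[ℂ] ℂ, l (σ 0) = 1 := by
    obtain ⟨g, hg⟩ := SeparatingDual.exists_ne_zero (R := ℂ) h.ne
    refine ⟨(g (σ 0))⁻¹ • g, ?_⟩
    simp [hg]
  -- the normalisation
  obtain ⟨n, hn⟩ : ∃ n : V → V, n = fun y => (l y)⁻¹ • y := ⟨_, rfl⟩
  have hn0 : n (σ 0) = σ 0 := by rw [hn]; simp [hl]
  have hnan : ∀ y, l y ≠ 0 → AnalyticAt ℂ n y := by
    intro y hy
    rw [hn]
    exact ((l.analyticAt y).inv hy).smul analyticAt_id
  have hln : ∀ y, l y ≠ 0 → l (n y) = 1 := by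
    intro y hy
    rw [hn]
    simp [hy]
  have hτ0 : τ (σ 0) = 0 := h.left.self_of_nhds
  -- the good points of the chart
  have hσ : ∀ᶠ p in 𝓝 (0 : ℂ × ℂ), AnalyticAt ℂ σ p ∧ l (σ p) ≠ 0 ∧ p ∈ U := by
    have h1 : ContinuousAt (fun p => l (σ p)) 0 := l.continuous.continuousAt.comp h.σ_an.continuousAt
    have h2 : l (σ 0) ≠ 0 := by rw [hl]; exact one_ne_zero
    exact h.σ_an.eventually_analyticAt.and ((h1.eventually_ne h2).and hU)
  have hB : ∀ᶠ y in 𝓝 (σ 0), AnalyticAt ℂ τ y ∧ (AnalyticAt ℂ σ (τ y) ∧ l (σ (τ y)) ≠ 0 ∧ τ y ∈ U) ∧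
      (y ∈ X → ∃ c : ℂ, c ≠ 0 ∧ y = c • σ (τ y)) := by
    have h1 : Tendsto τ (𝓝 (σ 0)) (𝓝 0) := by
      have h3 := h.τ_an.continuousAt.tendsto
      rwa [hτ0] at h3
    exact h.τ_an.eventually_analyticAt.and ((h1.eventually hσ).and h.right)
  obtain ⟨B, hB1, hBo, hB0⟩ := _root_.eventually_nhds_iff.1 hB
  have hopen : IsOpen {y | l y ≠ 0} := isOpen_ne_fun l.continuous continuous_const
  have hncont : ContinuousOn n {y | l y ≠ 0} := fun y hy => (hnan y hy).continuousAt.continuousWithinAt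
  refine ⟨{y | l y ≠ 0} ∩ n ⁻¹' B, fun y => τ (n y), fun y => l y * (l (σ (τ (n y))))⁻¹, hncont.isOpen_inter_preimage hopen hBo, ?_, ?_, ?_, ?_, ?_⟩
  · refine ⟨?_, ?_⟩
    · show l (σ 0) ≠ 0
      rw [hl]
      exact one_ne_zero
    · show n (σ 0) ∈ B
      rw [hn0]
      exact hB0
  · show τ (n (σ 0)) = 0
    rw [hn0, hτ0]
  · rintro y ⟨hy1, hy2⟩ c hc
    have hy1' : l y ≠ 0 := hy1
    have e : n (c • y) = n y := by
      rw [hn]
      simp only [map_smul, smul_eq_mul, mul_inv, smul_smul]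
      congr 1
      field_simp
    refine ⟨⟨?_, ?_⟩, ?_, ?_⟩
    · show l (c • y) ≠ 0
      rw [map_smul, smul_eq_mul]
      exact mul_ne_zero hc hy1'
    · show n (c • y) ∈ B
      rw [e]
      exact hy2
    · show τ (n (c • y)) = τ (n y)
      rw [e]
    · show l (c • y) * (l (σ (τ (n (c • y)))))⁻¹ = c * (l y * (l (σ (τ (n y))))⁻¹)
      rw [e, map_smul, smul_eq_mul, mul_assoc]
  · rintro y ⟨hy1, hy2⟩
    have hy1' : l y ≠ 0 := hy1
    obtain ⟨h1, ⟨h2, h3, h4⟩, -⟩ := hB1 (n y) hy2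
    have hT : AnalyticAt ℂ (fun y => τ (n y)) y := h1.fun_comp (hnan y hy1')
    refine ⟨hT, ?_, mul_ne_zero hy1' (inv_ne_zero h3), h4⟩
    refine (l.analyticAt y).mul (AnalyticAt.inv ?_ h3)
    have h5 : AnalyticAt ℂ (fun y => σ (τ (n y))) y := AnalyticAt.fun_comp (g := σ) (f := fun y => τ (n y)) h2 hT
    exact (l.analyticAt _).fun_comp h5
  · rintro y ⟨hy1, hy2⟩ hyX
    have hy1' : l y ≠ 0 := hy1
    obtain ⟨-, ⟨-, h3, -⟩, h5⟩ := hB1 (n y) hy2
    have hnX : n y ∈ X := by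
      rw [hn]
      exact hX.smul y hyX _ (inv_ne_zero hy1')
    obtain ⟨c, hc, hc2⟩ := h5 hnX
    have h6 : c * l (σ (τ (n y))) = 1 := by
      have h7 := congrArg l hc2
      rw [hln y hy1', map_smul, smul_eq_mul] at h7
      exact h7.symm
    have h8 : (l (σ (τ (n y))))⁻¹ = c := inv_eq_of_mul_eq_one_left h6
    show y = (l y * (l (σ (τ (n y))))⁻¹) • σ (τ (n y))
    rw [h8, mul_smul, ← hc2, hn]
    simp only [smul_smul]
    rw [mul_inv_cancel₀ hy1', one_smul]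

end Pool.Agent.UC

end
end

section

/-!
# SY BdR: a vector of polynomials with values in the cone gives a rational curve
-/

set_option autoImplicit false

open Topology Filter Metric Polynomial

noncomputable section

namespace Pool.Agent.SY

open Pool.Agent.H74.NB (vec vec_apply vec_differentiable exists_factor vec_ne_zero)
open Pool.Agent.H36.BP (EN)
open Pool.Agent.H14.PP (IsCone)
open Pool.Agent.UC (RatC)

variable {N : ℕ}

theorem cone_mem_of_frequently {X : Set (EN N)} (hX : IsCone X) {z : ℂ} {F : ℂ → EN N} (hF : ContinuousAt F z) (hz : F z ≠ 0)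
    (h : ∃ᶠ y in 𝓝 z, F y ∈ X) : F z ∈ X := by
  have h1 : F z ∈ closure (insert 0 X) := by
    rw [mem_closure_iff_frequently]
    exact hF.tendsto.frequently (h.mono fun y hy => Set.mem_insert_of_mem _ hy)
  rw [hX.closed.closure_eq] at h1
  exact h1.resolve_left hz

theorem vec_reflect {d : ℕ} (K : Fin (N + 1) → ℂ[X]) (hK : ∀ i, (K i).natDegree ≤ d) (z : ℂ) (hz : z ≠ 0) :
    vec K z = z ^ d • vec (fun i => (K i).reflect d) z⁻¹ := by
  ext i
  have : Invertible z := invertibleOfNonzero hz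
  have h1 := Polynomial.eval₂_reflect_mul_pow (RingHom.id ℂ) z d (K i) (hK i)
  rw [invOf_eq_inv] at h1
  simp only [PiLp.smul_apply, vec_apply, smul_eq_mul, Polynomial.eval]
  rw [← h1, mul_comm]

theorem poly_ev_ne {c : ℂ[X]} (hc : c ≠ 0) (z : ℂ) : ∀ᶠ y in 𝓝[≠] z, c.eval y ≠ 0 := by
  have e2 : ((c.roots.toFinset.erase z : Finset ℂ) : Set ℂ)ᶜ ∈ 𝓝 z :=
    (Finset.isClosed _).isOpen_compl.mem_nhds (by simp)
  filter_upwards [self_mem_nhdsWithin, mem_nhdsWithin_of_mem_nhds e2] with y hy1 hy2 hy3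
  refine hy2 ?_
  rw [Finset.mem_coe, Finset.mem_erase, Multiset.mem_toFinset]
  exact ⟨hy1, (Polynomial.mem_roots hc).2 hy3⟩

/-- a vector of polynomials of degree at most `m` with values in the cone is a multiple of a rational curve of degree at most `m` -/
theorem ratC_of_poly {X : Set (EN N)} (hX : IsCone X) {m : ℕ} {P : Fin (N + 1) → ℂ[X]} (h0 : ∃ i, P i ≠ 0)
    (hd : ∀ i, (P i).natDegree ≤ m) (hPX : ∀ z, vec P z ≠ 0 → vec P z ∈ X) :
    ∃ (c : ℂ[X]) (d : ℕ) (K K' : ℂ → EN N), c ≠ 0 ∧ d ≤ m ∧ RatC X d K K' ∧ (∀ z, vec P z = c.eval z • K z) ∧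
      (d = 0 → ∀ z w, K z = K w) := by
  obtain ⟨c, K, hcm, hcK, hK⟩ := exists_factor P h0
  have hc0 : c ≠ 0 := hcm.ne_zero
  have hveq : ∀ ζ, vec P ζ = c.eval ζ • vec K ζ := by
    intro ζ
    ext i
    rw [vec_apply, hcK i, Polynomial.eval_mul]
    rfl
  have hvK : ∀ a, vec K a ≠ 0 := fun a => by
    obtain ⟨i, hi⟩ := hK a
    exact vec_ne_zero hi
  have hmem : ∀ z, vec K z ∈ X := by
    intro z
    refine cone_mem_of_frequently hX (vec_differentiable K).continuous.continuousAt (hvK z) ?_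
    have e1 : ∀ᶠ y in 𝓝[≠] z, vec K y ∈ X := by
      filter_upwards [poly_ev_ne hc0 z] with y hy
      have e2 := hX.smul_mem _ (hPX y (by rw [hveq]; exact smul_ne_zero hy (hvK y))) (c.eval y)⁻¹ (inv_ne_zero hy)
      rwa [hveq, smul_smul, inv_mul_cancel₀ hy, one_smul] at e2
    exact e1.frequently.filter_mono nhdsWithin_le_nhds
  obtain ⟨i₁, hi₁m, hi₁⟩ := Finset.exists_max_image ((Finset.univ : Finset (Fin (N + 1))).filter fun i => K i ≠ 0)
    (fun i => (K i).natDegree) (by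
      obtain ⟨i, hi⟩ := hK 0
      refine ⟨i, Finset.mem_filter.2 ⟨Finset.mem_univ _, fun h1 => hi ?_⟩⟩
      rw [h1, Polynomial.eval_zero])
  have hKi : K i₁ ≠ 0 := (Finset.mem_filter.1 hi₁m).2
  obtain ⟨d, hdd⟩ : ∃ d, d = (K i₁).natDegree := ⟨_, rfl⟩
  have hKd : ∀ i, (K i).natDegree ≤ d := by
    intro i
    by_cases h1 : K i = 0
    · rw [h1, Polynomial.natDegree_zero]
      exact Nat.zero_le _
    · exact hdd ▸ hi₁ i (Finset.mem_filter.2 ⟨Finset.mem_univ _, h1⟩)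
  have hdm : d ≤ m := by
    have h1 := hd i₁
    rw [hcK i₁, Polynomial.natDegree_mul hc0 hKi] at h1
    omega
  have hK'0 : vec (fun i => (K i).reflect d) 0 ≠ 0 := by
    refine vec_ne_zero (i := i₁) ?_
    rw [← Polynomial.coeff_zero_eq_eval_zero, Polynomial.coeff_reflect, Polynomial.revAt_le (Nat.zero_le d), Nat.sub_zero, hdd,
      Polynomial.coeff_natDegree]
    exact Polynomial.leadingCoeff_ne_zero.2 hKi
  have hmem' : ∀ z, z ≠ 0 → vec (fun i => (K i).reflect d) z ∈ X := by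
    intro z hz
    have e1 := vec_reflect K hKd z⁻¹ (inv_ne_zero hz)
    rw [inv_inv] at e1
    have e2 : vec (fun i => (K i).reflect d) z = z ^ d • vec K z⁻¹ := by
      rw [e1, smul_smul, ← mul_pow, mul_inv_cancel₀ hz, one_pow, one_smul]
    rw [e2]
    exact hX.smul_mem _ (hmem _) _ (pow_ne_zero _ hz)
  refine ⟨c, d, vec K, vec (fun i => (K i).reflect d), hc0, hdm, ⟨vec_differentiable _, vec_differentiable _, hmem, fun z => ?_,
    fun z hz => vec_reflect K hKd z hz⟩, hveq, fun h1 z w => ?_⟩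
  · by_cases hz : z = 0
    · subst hz
      refine cone_mem_of_frequently hX (vec_differentiable _).continuous.continuousAt hK'0 ?_
      have e1 : ∀ᶠ y in 𝓝[≠] (0 : ℂ), vec (fun i => (K i).reflect d) y ∈ X := by
        filter_upwards [self_mem_nhdsWithin] with y hy
        exact hmem' y hy
      exact e1.frequently.filter_mono nhdsWithin_le_nhds
    · exact hmem' z hz
  · ext i
    have h2 : (K i).natDegree ≤ 0 := h1 ▸ hKd i
    rw [vec_apply, vec_apply, Polynomial.eq_C_of_natDegree_le_zero h2, Polynomial.eval_C, Polynomial.eval_C]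

end Pool.Agent.SY

end
end

section

/-!
# UC G1: tangent vectors in a chart
-/

set_option autoImplicit false

open Topology Filter Metric

noncomputable section

namespace Pool.Agent.UC

open Pool.Agent.H17BP (Surface IsForm IsChart Tan)

variable {V : Type} [NormedAddCommGroup V] [NormedSpace ℂ V] [FiniteDimensional ℂ V] {X : Set V} {κ : Type} {Q : κ → V → ℂ} {e m j : ℕ}
  {Ω : V → V → V → ℂ}

private theorem G1_pair (L : (ℂ × ℂ) →L[ℂ] V) (w : ℂ × ℂ) : L w = w.1 • L (1, 0) + w.2 • L (0, 1) := by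
  rw [← map_smul, ← map_smul, ← map_add]
  congr 1
  ext
  · simp
  · simp

theorem tan_span (hX : Surface X) {σ : ℂ × ℂ → V} {τ : V → ℂ × ℂ} (h : IsChart X σ τ) :
    ∀ᶠ p in 𝓝 (0 : ℂ × ℂ), ∀ c : ℂ, c ≠ 0 → ∀ v ∈ Tan X (c • σ p), ∃ α a b : ℂ,
      v = α • (c • σ p) + c • (a • fderiv ℂ σ p (1, 0) + b • fderiv ℂ σ p (0, 1)) := by
  obtain ⟨ℓ, hℓ⟩ := exists_dual_vector ℂ (σ 0) (norm_ne_zero_iff.mpr h.ne)
  have hℓ0 : ℓ (σ 0) ≠ 0 := by
    rw [hℓ.2]
    simpa using h.ne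
  have hσc : Tendsto σ (𝓝 0) (𝓝 (σ 0)) := h.σ_an.continuousAt
  have h1 : ∀ᶠ p in 𝓝 (0 : ℂ × ℂ), AnalyticAt ℂ σ p := h.σ_an.eventually_analyticAt
  have h2 : ∀ᶠ p in 𝓝 (0 : ℂ × ℂ), ℓ (σ p) ≠ 0 := by
    have : ContinuousAt (fun p => ℓ (σ p)) 0 := ℓ.continuous.continuousAt.comp h.σ_an.continuousAt
    exact this.eventually_ne hℓ0
  have h3 : ∀ᶠ p in 𝓝 (0 : ℂ × ℂ), AnalyticAt ℂ τ (σ p) := hσc.eventually h.τ_an.eventually_analyticAt
  have h4 : ∀ᶠ p in 𝓝 (0 : ℂ × ℂ), ∀ᶠ y in 𝓝 (σ p), y ∈ X → ∃ c : ℂ, c ≠ 0 ∧ y = c • σ (τ y) :=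
    hσc.eventually (eventually_eventually_nhds.2 h.right)
  filter_upwards [h1, h2, h3, h4, h.left] with p p1 p2 p3 p4 p5
  rintro c hc v ⟨γ, hγ, hγX, hγ0, hγd⟩
  have hδ : AnalyticAt ℂ (fun z => c⁻¹ • γ z) 0 := AnalyticAt.fun_smul analyticAt_const hγ
  have hδ0 : c⁻¹ • γ 0 = σ p := by rw [hγ0, smul_smul, inv_mul_cancel₀ hc, one_smul]
  have hδX : ∀ᶠ z in 𝓝 (0 : ℂ), c⁻¹ • γ z ∈ X := hγX.mono fun z hz => hX.smul _ hz _ (inv_ne_zero hc)
  have hδd : HasDerivAt (fun z => c⁻¹ • γ z) (c⁻¹ • v) 0 := by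
    have := hγ.differentiableAt.hasDerivAt.const_smul c⁻¹
    rwa [hγd] at this
  have hδt : Tendsto (fun z => c⁻¹ • γ z) (𝓝 0) (𝓝 (σ p)) := by
    have := hδ.continuousAt.tendsto
    rwa [hδ0] at this
  have h5 : ∀ᶠ z in 𝓝 (0 : ℂ), ∃ k : ℂ, k ≠ 0 ∧ c⁻¹ • γ z = k • σ (τ (c⁻¹ • γ z)) := by
    filter_upwards [hδt.eventually p4, hδX] with z hz1 hz2
    exact hz1 hz2
  -- the derivative of `σ (τ (δ z))`
  have hτd : HasFDerivAt τ (fderiv ℂ τ (σ p)) ((fun z => c⁻¹ • γ z) 0) := by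
    rw [show (fun z => c⁻¹ • γ z) 0 = σ p from hδ0]
    exact p3.differentiableAt.hasFDerivAt
  have h6 : HasDerivAt (fun z => τ (c⁻¹ • γ z)) (fderiv ℂ τ (σ p) (c⁻¹ • v)) 0 := hτd.comp_hasDerivAt 0 hδd
  have hσd : HasFDerivAt σ (fderiv ℂ σ p) ((fun z => τ (c⁻¹ • γ z)) 0) := by
    rw [show (fun z => τ (c⁻¹ • γ z)) 0 = p by simp only [hδ0, p5]]
    exact p1.differentiableAt.hasFDerivAt
  set w : ℂ × ℂ := fderiv ℂ τ (σ p) (c⁻¹ • v) with hw
  have h7 : HasDerivAt (fun z => σ (τ (c⁻¹ • γ z))) (fderiv ℂ σ p w) 0 := hσd.comp_hasDerivAt 0 h6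
  have h8 : HasDerivAt (fun z => ℓ (c⁻¹ • γ z)) (ℓ (c⁻¹ • v)) 0 := ℓ.hasFDerivAt.comp_hasDerivAt 0 hδd
  have h9 : HasDerivAt (fun z => ℓ (σ (τ (c⁻¹ • γ z)))) (ℓ (fderiv ℂ σ p w)) 0 := ℓ.hasFDerivAt.comp_hasDerivAt 0 h7
  have h11 : ∀ᶠ z in 𝓝 (0 : ℂ), ℓ (σ (τ (c⁻¹ • γ z))) ≠ 0 := by
    refine h9.continuousAt.eventually_ne ?_
    simp only [hδ0, p5]
    exact p2
  have h12 : HasDerivAt (fun z => ℓ (c⁻¹ • γ z) / ℓ (σ (τ (c⁻¹ • γ z))))
      ((ℓ (c⁻¹ • v) * ℓ (σ p) - ℓ (σ p) * ℓ (fderiv ℂ σ p w)) / ℓ (σ p) ^ 2) 0 := by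
    have := h8.div h9 (by simp only [hδ0, p5]; exact p2)
    simp only [hδ0, p5] at this
    exact this
  set k' : ℂ := (ℓ (c⁻¹ • v) * ℓ (σ p) - ℓ (σ p) * ℓ (fderiv ℂ σ p w)) / ℓ (σ p) ^ 2 with hk'
  have h13 : HasDerivAt (fun z => (ℓ (c⁻¹ • γ z) / ℓ (σ (τ (c⁻¹ • γ z)))) • σ (τ (c⁻¹ • γ z))) (fderiv ℂ σ p w + k' • σ p) 0 := by
    have := h12.smul h7
    simp only [hδ0, p5, div_self p2, one_smul] at this
    exact this
  have h14 : (fun z => c⁻¹ • γ z) =ᶠ[𝓝 0] fun z => (ℓ (c⁻¹ • γ z) / ℓ (σ (τ (c⁻¹ • γ z)))) • σ (τ (c⁻¹ • γ z)) := by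
    filter_upwards [h5, h11] with z hz1 hz2
    obtain ⟨k, -, hk⟩ := hz1
    have : ℓ (c⁻¹ • γ z) = k * ℓ (σ (τ (c⁻¹ • γ z))) := by
      conv_lhs => rw [hk]
      rw [map_smul, smul_eq_mul]
    rw [this, mul_div_assoc, div_self hz2, mul_one]
    exact hk
  have h15 : c⁻¹ • v = fderiv ℂ σ p w + k' • σ p := hδd.unique (h13.congr_of_eventuallyEq h14)
  refine ⟨k', w.1, w.2, ?_⟩
  have h16 : v = c • (c⁻¹ • v) := by rw [smul_smul, mul_inv_cancel₀ hc, one_smul]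
  rw [h16, h15, G1_pair (fderiv ℂ σ p) w, smul_add, add_comm]
  congr 1
  rw [smul_smul, smul_smul, mul_comm]

end Pool.Agent.UC

end
end
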