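import Pool.Agent.H94.G6.M02
import Pool.Agent.H94.G6.M19
import Pool.Agent.H94.G6.M33

/-! The parts of this file: MQ3.Sat, MQ3.Glue. -/

section

/-!
# MQ3 Sat: saturation

A pair of germs in two variables without common zeros off the axes is a monomial times a pair with an isolated zero.  Application: the pull-back of
`A dy - B dx` under a map which is étale off the axes.
-/

set_option autoImplicit false

open Topology Filter

noncomputable section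

namespace Pool.Agent.MQ3

open Pool.Agent.H17BP (exists_div_x exists_div_y ArtA_order)

private theorem Sat_diag {f : ℂ × ℂ → ℂ} (hf : AnalyticAt ℂ f 0) : AnalyticAt ℂ (fun z : ℂ => f (z, z)) 0 := by
  have h1 : AnalyticAt ℂ (fun z : ℂ => (z, z)) 0 := analyticAt_id.prod analyticAt_id
  exact AnalyticAt.comp (g := f) (f := fun z : ℂ => (z, z)) hf h1

private theorem Sat_fst {f : ℂ × ℂ → ℂ} (hf : AnalyticAt ℂ f 0) : AnalyticAt ℂ (fun z : ℂ => f (z, 0)) 0 := by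
  have h1 : AnalyticAt ℂ (fun z : ℂ => (z, (0 : ℂ))) 0 := analyticAt_id.prod analyticAt_const
  exact AnalyticAt.comp (g := f) (f := fun z : ℂ => (z, (0 : ℂ))) hf h1

private theorem Sat_snd {f : ℂ × ℂ → ℂ} (hf : AnalyticAt ℂ f 0) : AnalyticAt ℂ (fun z : ℂ => f (0, z)) 0 := by
  have h1 : AnalyticAt ℂ (fun z : ℂ => ((0 : ℂ), z)) 0 := analyticAt_const.prod analyticAt_id
  exact AnalyticAt.comp (g := f) (f := fun z : ℂ => ((0 : ℂ), z)) hf h1

private theorem Sat_diag_tendsto : Tendsto (fun z : ℂ => ((z, z) : ℂ × ℂ)) (𝓝 0) (𝓝 0) := by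
  have h : Continuous fun z : ℂ => ((z, z) : ℂ × ℂ) := by fun_prop
  exact h.tendsto 0

/-- the order of the restriction to the diagonal after division by a coordinate -/
private theorem Sat_order {f g : ℂ × ℂ → ℂ} {l : ℂ × ℂ → ℂ} (hl : ∀ z : ℂ, l (z, z) = z) (hg : AnalyticAt ℂ g 0) (h : ∀ᶠ x in 𝓝 (0 : ℂ × ℂ), f x = l x * g x)
    {N : ℕ} (hN : analyticOrderAt (fun z : ℂ => f (z, z)) 0 = (N : ℕ∞)) :
    1 ≤ N ∧ analyticOrderAt (fun z : ℂ => g (z, z)) 0 = ((N - 1 : ℕ) : ℕ∞) := by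
  have h1 : ∀ᶠ z in 𝓝 (0 : ℂ), f (z, z) = z ^ 1 * g (z, z) := by
    filter_upwards [Sat_diag_tendsto.eventually h] with z hz
    rw [hz, hl, pow_one]
  exact ArtA_order (Sat_diag hg) h1 hN

private theorem Sat_ax {f : ℂ → ℂ} (hf : AnalyticAt ℂ f 0) (h : ¬ ∀ᶠ y in 𝓝 (0 : ℂ), f y = 0) : ∀ᶠ y in 𝓝 (0 : ℂ), y ≠ 0 → f y ≠ 0 := by
  rcases hf.eventually_eq_zero_or_eventually_ne_zero with h1 | h1
  · exact absurd h1 h
  · exact eventually_nhdsWithin_iff.1 h1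

private theorem Sat_main (N : ℕ) : ∀ {c₁ c₂ : ℂ × ℂ → ℂ}, AnalyticAt ℂ c₁ 0 → AnalyticAt ℂ c₂ 0 →
    (∀ᶠ p in 𝓝 (0 : ℂ × ℂ), p.1 * p.2 ≠ 0 → c₁ p ≠ 0 ∨ c₂ p ≠ 0) →
    (analyticOrderAt (fun z : ℂ => c₁ (z, z)) 0 = (N : ℕ∞) ∨ analyticOrderAt (fun z : ℂ => c₂ (z, z)) 0 = (N : ℕ∞)) →
    ∃ (i j : ℕ) (v₁ v₂ : ℂ × ℂ → ℂ), AnalyticAt ℂ v₁ 0 ∧ AnalyticAt ℂ v₂ 0 ∧
      (∀ᶠ p in 𝓝 (0 : ℂ × ℂ), c₁ p = p.1 ^ i * p.2 ^ j * v₁ p ∧ c₂ p = p.1 ^ i * p.2 ^ j * v₂ p) ∧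
      ∀ᶠ p in 𝓝 (0 : ℂ × ℂ), p ≠ 0 → v₁ p ≠ 0 ∨ v₂ p ≠ 0 := by
  induction N with
  | zero =>
    intro c₁ c₂ h1 h2 h hN
    refine ⟨0, 0, c₁, c₂, h1, h2, Eventually.of_forall fun p => by simp, ?_⟩
    rcases hN with hN | hN
    · have h3 : c₁ 0 ≠ 0 := by
        have := (Sat_diag h1).analyticOrderAt_eq_zero.1 (by exact_mod_cast hN)
        exact this
      filter_upwards [h1.continuousAt.eventually_ne h3] with p hp _
      exact Or.inl hp
    · have h3 : c₂ 0 ≠ 0 := by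
        have := (Sat_diag h2).analyticOrderAt_eq_zero.1 (by exact_mod_cast hN)
        exact this
      filter_upwards [h2.continuousAt.eventually_ne h3] with p hp _
      exact Or.inr hp
  | succ N ih =>
    intro c₁ c₂ h1 h2 h hN
    by_cases hx : (∀ᶠ y in 𝓝 (0 : ℂ), c₁ (0, y) = 0) ∧ ∀ᶠ y in 𝓝 (0 : ℂ), c₂ (0, y) = 0
    · obtain ⟨g₁, hg₁, e₁⟩ := exists_div_x h1 hx.1
      obtain ⟨g₂, hg₂, e₂⟩ := exists_div_x h2 hx.2
      have hN' : analyticOrderAt (fun z : ℂ => g₁ (z, z)) 0 = (N : ℕ∞) ∨ analyticOrderAt (fun z : ℂ => g₂ (z, z)) 0 = (N : ℕ∞) := by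
        rcases hN with hN | hN
        · exact Or.inl (Sat_order (l := fun x => x.1) (fun z => rfl) hg₁ e₁ hN).2
        · exact Or.inr (Sat_order (l := fun x => x.1) (fun z => rfl) hg₂ e₂ hN).2
      obtain ⟨i, j, v₁, v₂, hv₁, hv₂, he, hz⟩ := ih hg₁ hg₂ (by
        filter_upwards [h, e₁, e₂] with p hp hp1 hp2 hne
        rcases hp hne with h3 | h3
        · left
          rintro h4
          exact h3 (by rw [hp1, h4, smul_zero])
        · right
          rintro h4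
          exact h3 (by rw [hp2, h4, smul_zero])) hN'
      refine ⟨i + 1, j, v₁, v₂, hv₁, hv₂, ?_, hz⟩
      filter_upwards [he, e₁, e₂] with p hp hp1 hp2
      constructor
      · rw [hp1, hp.1, smul_eq_mul, pow_succ]; ring
      · rw [hp2, hp.2, smul_eq_mul, pow_succ]; ring
    by_cases hy : (∀ᶠ x in 𝓝 (0 : ℂ), c₁ (x, 0) = 0) ∧ ∀ᶠ x in 𝓝 (0 : ℂ), c₂ (x, 0) = 0
    · obtain ⟨g₁, hg₁, e₁⟩ := exists_div_y h1 hy.1
      obtain ⟨g₂, hg₂, e₂⟩ := exists_div_y h2 hy.2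
      have hN' : analyticOrderAt (fun z : ℂ => g₁ (z, z)) 0 = (N : ℕ∞) ∨ analyticOrderAt (fun z : ℂ => g₂ (z, z)) 0 = (N : ℕ∞) := by
        rcases hN with hN | hN
        · exact Or.inl (Sat_order (l := fun x => x.2) (fun z => rfl) hg₁ e₁ hN).2
        · exact Or.inr (Sat_order (l := fun x => x.2) (fun z => rfl) hg₂ e₂ hN).2
      obtain ⟨i, j, v₁, v₂, hv₁, hv₂, he, hz⟩ := ih hg₁ hg₂ (by
        filter_upwards [h, e₁, e₂] with p hp hp1 hp2 hne
        rcases hp hne with h3 | h3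
        · left
          rintro h4
          exact h3 (by rw [hp1, h4, smul_zero])
        · right
          rintro h4
          exact h3 (by rw [hp2, h4, smul_zero])) hN'
      refine ⟨i, j + 1, v₁, v₂, hv₁, hv₂, ?_, hz⟩
      filter_upwards [he, e₁, e₂] with p hp hp1 hp2
      constructor
      · rw [hp1, hp.1, smul_eq_mul, pow_succ]; ring
      · rw [hp2, hp.2, smul_eq_mul, pow_succ]; ring
    -- neither axis divides both
    refine ⟨0, 0, c₁, c₂, h1, h2, Eventually.of_forall fun p => by simp, ?_⟩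
    have hX : ∀ᶠ y in 𝓝 (0 : ℂ), y ≠ 0 → c₁ (0, y) ≠ 0 ∨ c₂ (0, y) ≠ 0 := by
      rcases not_and_or.1 hx with h3 | h3
      · filter_upwards [Sat_ax (Sat_snd h1) h3] with y hy h4
        exact Or.inl (hy h4)
      · filter_upwards [Sat_ax (Sat_snd h2) h3] with y hy h4
        exact Or.inr (hy h4)
    have hY : ∀ᶠ x in 𝓝 (0 : ℂ), x ≠ 0 → c₁ (x, 0) ≠ 0 ∨ c₂ (x, 0) ≠ 0 := by
      rcases not_and_or.1 hy with h3 | h3
      · filter_upwards [Sat_ax (Sat_fst h1) h3] with y hy h4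
        exact Or.inl (hy h4)
      · filter_upwards [Sat_ax (Sat_fst h2) h3] with y hy h4
        exact Or.inr (hy h4)
    have t1 : Tendsto (fun p : ℂ × ℂ => p.1) (𝓝 0) (𝓝 0) := by simpa using continuous_fst.tendsto (0 : ℂ × ℂ)
    have t2 : Tendsto (fun p : ℂ × ℂ => p.2) (𝓝 0) (𝓝 0) := by simpa using continuous_snd.tendsto (0 : ℂ × ℂ)
    filter_upwards [h, t2.eventually hX, t1.eventually hY] with p hp hpX hpY hp0
    by_cases h3 : p.1 = 0
    · have h4 : p.2 ≠ 0 := fun h4 => hp0 (Prod.ext h3 h4)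
      have h5 : p = (0, p.2) := Prod.ext h3 rfl
      have := hpX h4
      rwa [← h5] at this
    · by_cases h4 : p.2 = 0
      · have h5 : p = (p.1, 0) := Prod.ext rfl h4
        have := hpY h3
        rwa [← h5] at this
      · exact hp (mul_ne_zero h3 h4)

/-- **Saturation**: a pair without common zeros off the axes is a monomial times a pair with an isolated zero. -/
theorem exists_sat {c₁ c₂ : ℂ × ℂ → ℂ} (h₁ : AnalyticAt ℂ c₁ 0) (h₂ : AnalyticAt ℂ c₂ 0)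
    (h : ∀ᶠ p in 𝓝 (0 : ℂ × ℂ), p.1 * p.2 ≠ 0 → c₁ p ≠ 0 ∨ c₂ p ≠ 0) :
    ∃ (i j : ℕ) (v₁ v₂ : ℂ × ℂ → ℂ), AnalyticAt ℂ v₁ 0 ∧ AnalyticAt ℂ v₂ 0 ∧
      (∀ᶠ p in 𝓝 (0 : ℂ × ℂ), c₁ p = p.1 ^ i * p.2 ^ j * v₁ p ∧ c₂ p = p.1 ^ i * p.2 ^ j * v₂ p) ∧
      ∀ᶠ p in 𝓝 (0 : ℂ × ℂ), p ≠ 0 → v₁ p ≠ 0 ∨ v₂ p ≠ 0 := by
  by_cases ht : analyticOrderAt (fun z : ℂ => c₁ (z, z)) 0 = ⊤ ∧ analyticOrderAt (fun z : ℂ => c₂ (z, z)) 0 = ⊤
  · exfalso
    have e1 := analyticOrderAt_eq_top.1 ht.1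
    have e2 := analyticOrderAt_eq_top.1 ht.2
    have h3 : ∀ᶠ z in 𝓝 (0 : ℂ), z = 0 := by
      filter_upwards [e1, e2, Sat_diag_tendsto.eventually h] with z hz1 hz2 hz3
      by_contra hz
      rcases hz3 (mul_ne_zero hz hz) with h4 | h4
      · exact h4 hz1
      · exact h4 hz2
    have h4 : ∀ᶠ z in 𝓝[≠] (0 : ℂ), False := by
      filter_upwards [h3.filter_mono nhdsWithin_le_nhds, self_mem_nhdsWithin] with z hz hz'
      exact hz' hz
    exact (NormedField.nhdsNE_neBot (0 : ℂ)).ne (Filter.eventually_false_iff_eq_bot.1 h4)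
  · rcases not_and_or.1 ht with h3 | h3
    · obtain ⟨N, hN⟩ := ENat.ne_top_iff_exists.1 h3
      exact Sat_main N h₁ h₂ h (Or.inl hN.symm)
    · obtain ⟨N, hN⟩ := ENat.ne_top_iff_exists.1 h3
      exact Sat_main N h₁ h₂ h (Or.inr hN.symm)

/-- Saturation at a point of one axis only. -/
theorem exists_sat_fst {c₁ c₂ : ℂ × ℂ → ℂ} (h₁ : AnalyticAt ℂ c₁ 0) (h₂ : AnalyticAt ℂ c₂ 0)
    (h : ∀ᶠ p in 𝓝 (0 : ℂ × ℂ), p.1 ≠ 0 → c₁ p ≠ 0 ∨ c₂ p ≠ 0) :
    ∃ (i : ℕ) (v₁ v₂ : ℂ × ℂ → ℂ), AnalyticAt ℂ v₁ 0 ∧ AnalyticAt ℂ v₂ 0 ∧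
      (∀ᶠ p in 𝓝 (0 : ℂ × ℂ), c₁ p = p.1 ^ i * v₁ p ∧ c₂ p = p.1 ^ i * v₂ p) ∧
      ∀ᶠ p in 𝓝 (0 : ℂ × ℂ), p ≠ 0 → v₁ p ≠ 0 ∨ v₂ p ≠ 0 := by
  obtain ⟨i, j, v₁, v₂, a1, a2, he, hz⟩ := exists_sat h₁ h₂ (h.mono fun p hp hne => hp (left_ne_zero_of_mul hne))
  have hj : j = 0 := by
    by_contra hj
    have t1 : Tendsto (fun x : ℂ => ((x, 0) : ℂ × ℂ)) (𝓝 0) (𝓝 0) := by
      have h : Continuous fun x : ℂ => ((x, 0) : ℂ × ℂ) := by fun_prop
      exact h.tendsto 0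
    have h3 : ∀ᶠ x in 𝓝 (0 : ℂ), x = 0 := by
      filter_upwards [t1.eventually h, t1.eventually he] with x hx1 hx2
      by_contra hx
      simp only [zero_pow hj, mul_zero, zero_mul] at hx2
      rcases hx1 hx with h4 | h4
      · exact h4 hx2.1
      · exact h4 hx2.2
    have h4 : ∀ᶠ z in 𝓝[≠] (0 : ℂ), False := by
      filter_upwards [h3.filter_mono nhdsWithin_le_nhds, self_mem_nhdsWithin] with z hz hz'
      exact hz' hz
    exact (NormedField.nhdsNE_neBot (0 : ℂ)).ne (Filter.eventually_false_iff_eq_bot.1 h4)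
  subst hj
  refine ⟨i, v₁, v₂, a1, a2, ?_, hz⟩
  filter_upwards [he] with p hp
  simpa using hp

/-- the coefficients of the pull-back of `A dy - B dx` under `φ` -/
def pb (A B : ℂ × ℂ → ℂ) (φ : ℂ × ℂ → ℂ × ℂ) (p w : ℂ × ℂ) : ℂ := A p * (fderiv ℂ φ p w).2 - B p * (fderiv ℂ φ p w).1

/-- off the common zeros of `A`, `B` and the zeros of the Jacobian the pull-back of `A dy - B dx` has no zeros -/
theorem pb_ne {A B : ℂ × ℂ → ℂ} {φ : ℂ × ℂ → ℂ × ℂ} {p : ℂ × ℂ} (hA : A p ≠ 0 ∨ B p ≠ 0)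
    (hJ : (fderiv ℂ φ p (1, 0)).1 * (fderiv ℂ φ p (0, 1)).2 - (fderiv ℂ φ p (1, 0)).2 * (fderiv ℂ φ p (0, 1)).1 ≠ 0) :
    pb A B φ p (1, 0) ≠ 0 ∨ pb A B φ p (0, 1) ≠ 0 := by
  by_contra hcon
  push Not at hcon
  obtain ⟨h1, h2⟩ := hcon
  unfold pb at h1 h2
  have h3 : A p * ((fderiv ℂ φ p (1, 0)).1 * (fderiv ℂ φ p (0, 1)).2 - (fderiv ℂ φ p (1, 0)).2 * (fderiv ℂ φ p (0, 1)).1) = 0 := by
    linear_combination (fderiv ℂ φ p (1, 0)).1 * h2 - (fderiv ℂ φ p (0, 1)).1 * h1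
  have h4 : B p * ((fderiv ℂ φ p (1, 0)).1 * (fderiv ℂ φ p (0, 1)).2 - (fderiv ℂ φ p (1, 0)).2 * (fderiv ℂ φ p (0, 1)).1) = 0 := by
    linear_combination (fderiv ℂ φ p (1, 0)).2 * h2 - (fderiv ℂ φ p (0, 1)).2 * h1
  rcases hA with hA | hA
  · exact (mul_ne_zero hA hJ) h3
  · exact (mul_ne_zero hA hJ) h4

theorem pb_add_smul (A B : ℂ × ℂ → ℂ) (φ : ℂ × ℂ → ℂ × ℂ) (p w : ℂ × ℂ) : pb A B φ p w = w.1 * pb A B φ p (1, 0) + w.2 * pb A B φ p (0, 1) := by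
  have h : w = w.1 • ((1 : ℂ), (0 : ℂ)) + w.2 • ((0 : ℂ), (1 : ℂ)) := by
    ext <;> simp
  have h1 : fderiv ℂ φ p w = w.1 • fderiv ℂ φ p (1, 0) + w.2 • fderiv ℂ φ p (0, 1) := by
    conv_lhs => rw [h]
    rw [map_add, map_smul, map_smul]
  unfold pb
  rw [h1]
  simp only [Prod.fst_add, Prod.snd_add, Prod.smul_fst, Prod.smul_snd, smul_eq_mul]
  ring

theorem analyticAt_pb {A B : ℂ × ℂ → ℂ} {φ : ℂ × ℂ → ℂ × ℂ} {p : ℂ × ℂ} (hA : AnalyticAt ℂ A p) (hB : AnalyticAt ℂ B p) (hφ : AnalyticAt ℂ φ p) (w : ℂ × ℂ) :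
    AnalyticAt ℂ (fun q => pb A B φ q w) p := by
  have h1 : AnalyticAt ℂ (fun q => fderiv ℂ φ q w) p := ((ContinuousLinearMap.apply ℂ (ℂ × ℂ) w).analyticAt (fderiv ℂ φ p)).comp hφ.fderiv
  have h2 : AnalyticAt ℂ (fun q => (fderiv ℂ φ q w).1) p := (ContinuousLinearMap.fst ℂ ℂ ℂ).analyticAt _ |>.comp h1
  have h3 : AnalyticAt ℂ (fun q => (fderiv ℂ φ q w).2) p := (ContinuousLinearMap.snd ℂ ℂ ℂ).analyticAt _ |>.comp h1
  exact (hA.mul h3).sub (hB.mul h2)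

end Pool.Agent.MQ3

end
end

section

/-!
# MQ3 Glue: functions off the axes which extend locally, and the global saturation of a vector field along the axes
-/

set_option autoImplicit false

open Topology Filter Metric

noncomputable section

namespace Pool.Agent.MQ3

/-- the points off the axes are dense -/
theorem freq_off (p : ℂ × ℂ) : ∃ᶠ q in 𝓝 p, q.1 * q.2 ≠ 0 := by
  have hd : ∀ z : ℂ, ∃ᶠ w in 𝓝 z, w ≠ 0 := by
    intro z
    have h1 : ∀ᶠ w in 𝓝[≠] z, w ≠ 0 := by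
      by_cases hz : z = 0
      · subst hz
        exact eventually_mem_nhdsWithin
      · have h2 : ∀ᶠ w in 𝓝 z, w ≠ 0 := isOpen_ne.mem_nhds hz
        exact h2.filter_mono nhdsWithin_le_nhds
    exact h1.frequently.filter_mono nhdsWithin_le_nhds
  rw [Filter.frequently_iff]
  intro U hU
  rw [nhds_prod_eq, mem_prod_iff] at hU
  obtain ⟨U1, hU1, U2, hU2, hU⟩ := hU
  obtain ⟨x, hx, hx0⟩ := (Filter.frequently_iff.1 (hd p.1)) hU1
  obtain ⟨y, hy, hy0⟩ := (Filter.frequently_iff.1 (hd p.2)) hU2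
  exact ⟨(x, y), hU ⟨hx, hy⟩, mul_ne_zero hx0 hy0⟩

section

variable {F : Type*} [NormedAddCommGroup F] [NormedSpace ℂ F] [CompleteSpace F]

omit [NormedSpace ℂ F] [CompleteSpace F] in
/-- continuous functions which agree off the axes agree -/
theorem eq_of_off {f g : ℂ × ℂ → F} {q : ℂ × ℂ} (hf : ContinuousAt f q) (hg : ContinuousAt g q)
    (h : ∀ᶠ q' in 𝓝 q, q'.1 * q'.2 ≠ 0 → f q' = g q') : f q = g q := by
  by_contra hcon
  have h1 : ∀ᶠ q' in 𝓝 q, f q' - g q' ≠ 0 := (hf.sub hg).eventually_ne (sub_ne_zero.2 hcon)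
  obtain ⟨q', h2, h3, h4⟩ := ((freq_off q).and_eventually (h.and h1)).exists
  exact h4 (sub_eq_zero.2 (h3 h2))

/-- analytic germs which agree off the axes agree -/
theorem eventuallyEq_of_off {f g : ℂ × ℂ → F} {q : ℂ × ℂ} (hf : AnalyticAt ℂ f q) (hg : AnalyticAt ℂ g q)
    (h : ∀ᶠ q' in 𝓝 q, q'.1 * q'.2 ≠ 0 → f q' = g q') : ∀ᶠ q' in 𝓝 q, f q' = g q' := by
  filter_upwards [hf.eventually_analyticAt, hg.eventually_analyticAt, eventually_eventually_nhds.2 h] with q' h1 h2 h3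
  exact eq_of_off h1.continuousAt h2.continuousAt h3

/-- gluing of local extensions over the axes -/
theorem glue {U : Set (ℂ × ℂ)} (hU : IsOpen U) {B : ℂ × ℂ → F}
    (hloc : ∀ p ∈ U, ∃ φ : ℂ × ℂ → F, AnalyticAt ℂ φ p ∧ ∀ᶠ q in 𝓝 p, q.1 * q.2 ≠ 0 → φ q = B q) :
    ∃ B' : ℂ × ℂ → F, (∀ p ∈ U, AnalyticAt ℂ B' p) ∧ ∀ p ∈ U, p.1 * p.2 ≠ 0 → B' p = B p := by
  choose! φ hφ1 hφ2 using hloc
  refine ⟨fun p => φ p p, fun p hp => ?_, fun p hp h0 => (hφ2 p hp).self_of_nhds h0⟩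
  refine (hφ1 p hp).congr ?_
  filter_upwards [hU.mem_nhds hp, (hφ1 p hp).eventually_analyticAt, eventually_eventually_nhds.2 (hφ2 p hp)] with q hq h1 h2
  refine eq_of_off h1.continuousAt (hφ1 q hq).continuousAt ?_
  filter_upwards [h2, hφ2 q hq] with q' h3 h4 h0
  rw [h3 h0, h4 h0]

end

/-- **Riemann's extension theorem over the axes** in an open set. -/
theorem exists_ext {U : Set (ℂ × ℂ)} (hU : IsOpen U) {B : ℂ × ℂ → ℂ} (hB : ∀ p ∈ U, p.1 * p.2 ≠ 0 → AnalyticAt ℂ B p) {C : ℝ}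
    (hC : ∀ p ∈ U, p.1 * p.2 ≠ 0 → ‖B p‖ ≤ C) :
    ∃ B' : ℂ × ℂ → ℂ, (∀ p ∈ U, AnalyticAt ℂ B' p) ∧ ∀ p ∈ U, p.1 * p.2 ≠ 0 → B' p = B p := by
  refine glue hU fun p hp => ?_
  refine Pool.Agent.TG.riemann_one (h := fun q : ℂ × ℂ => q.1 * q.2) (M := C) (analyticAt_fst.mul analyticAt_snd) ?_ ?_ ?_
  · intro h
    exact (freq_off p) (h.mono fun q hq h' => h' hq)
  · filter_upwards [hU.mem_nhds hp] with q hq h0
    exact hB q hq h0
  · filter_upwards [hU.mem_nhds hp] with q hq h0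
    exact hC q hq h0

/-- a function of two variables has no isolated zero -/
theorem ne_of_isolated {u : ℂ × ℂ → ℂ} {q₀ : ℂ × ℂ} (hu : AnalyticAt ℂ u q₀) (h : ∀ᶠ q in 𝓝 q₀, q ≠ q₀ → u q ≠ 0) : u q₀ ≠ 0 := by
  obtain ⟨R, hR, hb⟩ := Metric.eventually_nhds_iff_ball.1 (h.and hu.eventually_analyticAt)
  set r := R / 2 with hr
  have hr0 : 0 < r := by positivity
  have hmem : ∀ s τ : ℂ, ‖s‖ ≤ r → ‖τ‖ < r → (q₀.1 + s, q₀.2 + τ) ∈ ball q₀ R := by
    intro s τ hs hτ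
    rw [mem_ball, Prod.dist_eq, max_lt_iff, dist_self_add_left, dist_self_add_left]
    exact ⟨by linarith, by linarith⟩
  -- the minimum on the circle
  have hcomp : IsCompact (sphere (0 : ℂ) r) := isCompact_sphere 0 r
  have hne : (sphere (0 : ℂ) r).Nonempty := NormedSpace.sphere_nonempty.2 hr0.le
  have hcont : ∀ s τ : ℂ, ‖s‖ ≤ r → ‖τ‖ < r → ContinuousAt (fun x : ℂ × ℂ => u (q₀.1 + x.2, q₀.2 + x.1)) (τ, s) := by
    intro s τ hs hτ
    have h1 : ContinuousAt u (q₀.1 + s, q₀.2 + τ) := (hb _ (hmem s τ hs hτ)).2.continuousAt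
    exact ContinuousAt.comp (f := fun x : ℂ × ℂ => (q₀.1 + x.2, q₀.2 + x.1)) (x := (τ, s)) h1 (by fun_prop)
  obtain ⟨s₀, hs₀, hmin⟩ := hcomp.exists_isMinOn (f := fun s => ‖u (q₀.1 + s, q₀.2)‖) hne (by
    intro s hs
    have hs' : ‖s‖ ≤ r := (mem_sphere_zero_iff_norm.1 hs).le
    have h1 := hcont s 0 hs' (by simpa using hr0)
    have h2 : ContinuousAt (fun s : ℂ => u (q₀.1 + s, q₀.2 + 0)) s := ContinuousAt.comp (f := fun s : ℂ => ((0 : ℂ), s)) (x := s) h1 (by fun_prop)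
    simp only [add_zero] at h2
    exact h2.norm.continuousWithinAt)
  set m := ‖u (q₀.1 + s₀, q₀.2)‖ with hm
  have hm0 : 0 < m := by
    rw [hm, norm_pos_iff]
    have h1 : (q₀.1 + s₀, q₀.2) ∈ ball q₀ R := by
      have := hmem s₀ 0 (mem_sphere_zero_iff_norm.1 hs₀).le (by simpa using hr0)
      simpa using this
    refine (hb _ h1).1 fun h2 => ?_
    have h3 : q₀.1 + s₀ = q₀.1 := congrArg Prod.fst h2
    have h4 : s₀ = 0 := by simpa using h3
    rw [h4, mem_sphere_zero_iff_norm, norm_zero] at hs₀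
    linarith
  have hev : ∀ᶠ τ in 𝓝 (0 : ℂ), ∀ s ∈ sphere (0 : ℂ) r, m / 2 < ‖u (q₀.1 + s, q₀.2 + τ)‖ := by
    refine hcomp.eventually_forall_of_forall_eventually fun s hs => ?_
    have hs' : ‖s‖ ≤ r := (mem_sphere_zero_iff_norm.1 hs).le
    refine (hcont s 0 hs' (by simpa using hr0)).norm.eventually_const_lt ?_
    have h1 : m ≤ ‖u (q₀.1 + s, q₀.2)‖ := hmin hs
    simp only [add_zero]
    linarith
  have hlow : ∀ᶠ τ in 𝓝[≠] (0 : ℂ), m / 2 ≤ ‖u (q₀.1, q₀.2 + τ)‖ := by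
    have h1 : ∀ᶠ τ in 𝓝 (0 : ℂ), ‖τ‖ < r := by
      have := ball_mem_nhds (0 : ℂ) hr0
      filter_upwards [this] with τ hτ
      simpa using hτ
    filter_upwards [hev.filter_mono nhdsWithin_le_nhds, h1.filter_mono nhdsWithin_le_nhds, self_mem_nhdsWithin] with τ h2 h3 h4
    have h4' : τ ≠ 0 := h4
    have hnz : ∀ s : ℂ, ‖s‖ ≤ r → u (q₀.1 + s, q₀.2 + τ) ≠ 0 := by
      intro s hs
      refine (hb _ (hmem s τ hs h3)).1 fun h5 => ?_
      have h6 : q₀.2 + τ = q₀.2 := congrArg Prod.snd h5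
      exact h4' (by simpa using h6)
    have hd : ∀ s : ℂ, ‖s‖ ≤ r → DifferentiableAt ℂ (fun s => (u (q₀.1 + s, q₀.2 + τ))⁻¹) s := by
      intro s hs
      have h5 : DifferentiableAt ℂ u (q₀.1 + s, q₀.2 + τ) := (hb _ (hmem s τ hs h3)).2.differentiableAt
      have h6 : DifferentiableAt ℂ (fun s : ℂ => (q₀.1 + s, q₀.2 + τ)) s :=
        (differentiableAt_id.const_add q₀.1).prodMk (differentiableAt_const _)
      have h7 : DifferentiableAt ℂ (fun s => u (q₀.1 + s, q₀.2 + τ)) s := h5.comp s h6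
      exact h7.inv (hnz s hs)
    have hdc : DiffContOnCl ℂ (fun s => (u (q₀.1 + s, q₀.2 + τ))⁻¹) (ball (0 : ℂ) r) := by
      refine ⟨fun s hs => (hd s (by simpa using (mem_ball_zero_iff.1 hs).le)).differentiableWithinAt, ?_⟩
      rw [closure_ball _ hr0.ne']
      exact fun s hs => (hd s (by simpa using hs)).continuousAt.continuousWithinAt
    have hmax := Complex.norm_le_of_forall_mem_frontier_norm_le (U := ball (0 : ℂ) r) isBounded_ball hdc (C := (m / 2)⁻¹) (by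
      intro s hs
      rw [frontier_ball _ hr0.ne'] at hs
      rw [norm_inv]
      exact inv_anti₀ (by positivity) (h2 s hs).le) (z := 0) (subset_closure (mem_ball_self hr0))
    simp only [add_zero, norm_inv] at hmax
    have h8 : 0 < ‖u (q₀.1, q₀.2 + τ)‖ := by
      have := hnz 0 (by simpa using hr0.le)
      simp only [add_zero] at this
      exact norm_pos_iff.2 this
    exact (inv_le_inv₀ h8 (by positivity)).1 hmax
  have hlim : Tendsto (fun τ : ℂ => ‖u (q₀.1, q₀.2 + τ)‖) (𝓝[≠] 0) (𝓝 ‖u q₀‖) := by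
    have h1 := hcont 0 0 (by simpa using hr0.le) (by simpa using hr0)
    have h2 : ContinuousAt (fun τ : ℂ => u (q₀.1 + 0, q₀.2 + τ)) 0 := ContinuousAt.comp (f := fun τ : ℂ => (τ, (0 : ℂ))) (x := 0) h1 (by fun_prop)
    simp only [add_zero] at h2
    have h3 := h2.norm.tendsto
    simp only [add_zero] at h3
    exact h3.mono_left nhdsWithin_le_nhds
  have h9 := ge_of_tendsto hlim hlow
  intro h10
  rw [h10, norm_zero] at h9
  linarith

/-- saturation at a point -/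
theorem exists_sat_at {c : ℂ × ℂ → ℂ × ℂ} {q₀ : ℂ × ℂ} (hc : AnalyticAt ℂ c q₀) (h : ∀ᶠ p in 𝓝 q₀, p.1 * p.2 ≠ 0 → c p ≠ 0) :
    ∃ (i j : ℕ) (v : ℂ × ℂ → ℂ × ℂ), AnalyticAt ℂ v q₀ ∧ (q₀.1 ≠ 0 → i = 0) ∧ (q₀.2 ≠ 0 → j = 0) ∧
      (∀ᶠ p in 𝓝 q₀, c p = (p.1 ^ i * p.2 ^ j) • v p) ∧ ∀ᶠ p in 𝓝 q₀, p ≠ q₀ → v p ≠ 0 := by
  have hne : ∀ x : ℂ × ℂ, (x ≠ 0 ↔ x.1 ≠ 0 ∨ x.2 ≠ 0) := by
    intro x
    rw [Ne, Prod.ext_iff, not_and_or]
    rfl
  have hf : AnalyticAt ℂ (fun p => (c p).1) q₀ := analyticAt_fst.fun_comp hc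
  have hs : AnalyticAt ℂ (fun p => (c p).2) q₀ := analyticAt_snd.fun_comp hc
  by_cases h1 : q₀.1 = 0
  · by_cases h2 : q₀.2 = 0
    · have h0 : q₀ = 0 := Prod.ext h1 h2
      subst h0
      obtain ⟨i, j, v₁, v₂, g1, g2, g3, g4⟩ := exists_sat hf hs (by
        filter_upwards [h] with p hp h5
        exact (hne _).1 (hp h5))
      refine ⟨i, j, fun p => (v₁ p, v₂ p), g1.prod g2, fun h => absurd h1 h, fun h => absurd h2 h, ?_, ?_⟩
      · filter_upwards [g3] with p hp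
        exact Prod.ext (by rw [Prod.smul_fst, smul_eq_mul]; exact hp.1) (by rw [Prod.smul_snd, smul_eq_mul]; exact hp.2)
      · filter_upwards [g4] with p hp h5
        exact (hne _).2 (hp h5)
    · -- translated
      have htr : AnalyticAt ℂ (fun p : ℂ × ℂ => q₀ + p) 0 := analyticAt_const.add analyticAt_id
      have htr' : AnalyticAt ℂ (fun p : ℂ × ℂ => p - q₀) q₀ := analyticAt_id.sub analyticAt_const
      have htt : Tendsto (fun p : ℂ × ℂ => q₀ + p) (𝓝 0) (𝓝 q₀) := by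
        have := htr.continuousAt.tendsto
        simpa using this
      have htt' : Tendsto (fun p : ℂ × ℂ => p - q₀) (𝓝 q₀) (𝓝 0) := by
        have := htr'.continuousAt.tendsto
        simpa using this
      have hf' : AnalyticAt ℂ (fun p => (c (q₀ + p)).1) 0 := by
        refine AnalyticAt.fun_comp (g := fun p => (c p).1) (f := fun p : ℂ × ℂ => q₀ + p) ?_ htr
        simpa using hf
      have hs' : AnalyticAt ℂ (fun p => (c (q₀ + p)).2) 0 := by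
        refine AnalyticAt.fun_comp (g := fun p => (c p).2) (f := fun p : ℂ × ℂ => q₀ + p) ?_ htr
        simpa using hs
      obtain ⟨i, v₁, v₂, g1, g2, g3, g4⟩ := exists_sat_fst hf' hs' (by
        have h3 : ∀ᶠ p in 𝓝 q₀, p.2 ≠ 0 := continuous_snd.continuousAt.eventually_ne h2
        filter_upwards [htt.eventually h, htt.eventually h3] with p hp h4 h5
        refine (hne _).1 (hp (mul_ne_zero ?_ h4))
        rw [Prod.fst_add, h1, zero_add]
        exact h5)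
      refine ⟨i, 0, fun p => (v₁ (p - q₀), v₂ (p - q₀)), ?_, fun h => absurd h1 h, fun _ => rfl, ?_, ?_⟩
      · refine AnalyticAt.prod ?_ ?_
        · exact AnalyticAt.fun_comp (g := v₁) (f := fun p : ℂ × ℂ => p - q₀) (by simpa using g1) htr'
        · exact AnalyticAt.fun_comp (g := v₂) (f := fun p : ℂ × ℂ => p - q₀) (by simpa using g2) htr'
      · filter_upwards [htt'.eventually g3] with p hp
        rw [add_sub_cancel, Prod.fst_sub, h1, sub_zero] at hp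
        rw [pow_zero, mul_one]
        exact Prod.ext (by rw [Prod.smul_fst, smul_eq_mul]; exact hp.1) (by rw [Prod.smul_snd, smul_eq_mul]; exact hp.2)
      · filter_upwards [htt'.eventually g4] with p hp h5
        exact (hne _).2 (hp (sub_ne_zero.2 h5))
  · by_cases h2 : q₀.2 = 0
    · -- swapped and translated
      have hsw : AnalyticAt ℂ (fun p : ℂ × ℂ => q₀ + (p.2, p.1)) 0 := analyticAt_const.add (analyticAt_snd.prod analyticAt_fst)
      have hsw' : AnalyticAt ℂ (fun p : ℂ × ℂ => ((p - q₀).2, (p - q₀).1)) q₀ := by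
        have h3 : AnalyticAt ℂ (fun p : ℂ × ℂ => p - q₀) q₀ := analyticAt_id.sub analyticAt_const
        exact (analyticAt_snd.fun_comp h3).prod (analyticAt_fst.fun_comp h3)
      have hz : q₀ + (((0 : ℂ × ℂ)).2, ((0 : ℂ × ℂ)).1) = q₀ := by
        ext <;> simp
      have hz' : (((q₀ - q₀).2, (q₀ - q₀).1) : ℂ × ℂ) = 0 := by
        ext <;> simp
      have htt : Tendsto (fun p : ℂ × ℂ => q₀ + (p.2, p.1)) (𝓝 0) (𝓝 q₀) := by
        have := hsw.continuousAt.tendsto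
        rwa [hz] at this
      have htt' : Tendsto (fun p : ℂ × ℂ => ((p - q₀).2, (p - q₀).1)) (𝓝 q₀) (𝓝 0) := by
        have := hsw'.continuousAt.tendsto
        rwa [hz'] at this
      have hf' : AnalyticAt ℂ (fun p : ℂ × ℂ => (c (q₀ + (p.2, p.1))).1) 0 := by
        refine AnalyticAt.fun_comp (g := fun p => (c p).1) (f := fun p : ℂ × ℂ => q₀ + (p.2, p.1)) ?_ hsw
        rw [hz]
        exact hf
      have hs' : AnalyticAt ℂ (fun p : ℂ × ℂ => (c (q₀ + (p.2, p.1))).2) 0 := by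
        refine AnalyticAt.fun_comp (g := fun p => (c p).2) (f := fun p : ℂ × ℂ => q₀ + (p.2, p.1)) ?_ hsw
        rw [hz]
        exact hs
      obtain ⟨j, v₁, v₂, g1, g2, g3, g4⟩ := exists_sat_fst hf' hs' (by
        have h3 : ∀ᶠ p in 𝓝 q₀, p.1 ≠ 0 := continuous_fst.continuousAt.eventually_ne h1
        filter_upwards [htt.eventually h, htt.eventually h3] with p hp h4 h5
        refine (hne _).1 (hp (mul_ne_zero h4 ?_))
        rw [Prod.snd_add, h2, zero_add]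
        exact h5)
      refine ⟨0, j, fun p => (v₁ ((p - q₀).2, (p - q₀).1), v₂ ((p - q₀).2, (p - q₀).1)), ?_, fun _ => rfl, fun h => absurd h2 h, ?_, ?_⟩
      · refine AnalyticAt.prod ?_ ?_
        · exact AnalyticAt.fun_comp (g := v₁) (f := fun p : ℂ × ℂ => ((p - q₀).2, (p - q₀).1)) (by rw [hz']; exact g1) hsw'
        · exact AnalyticAt.fun_comp (g := v₂) (f := fun p : ℂ × ℂ => ((p - q₀).2, (p - q₀).1)) (by rw [hz']; exact g2) hsw'
      · filter_upwards [htt'.eventually g3] with p hp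
        have h3 : q₀ + (((p - q₀).2, (p - q₀).1) : ℂ × ℂ).swap = p := by
          ext <;> simp
        have h4 : q₀ + ((((p - q₀).2, (p - q₀).1) : ℂ × ℂ).2, (((p - q₀).2, (p - q₀).1) : ℂ × ℂ).1) = p := h3
        rw [h4] at hp
        simp only [Prod.snd_sub, h2, sub_zero] at hp
        rw [pow_zero, one_mul]
        refine Prod.ext ?_ ?_
        · rw [Prod.smul_fst, smul_eq_mul]
          simp only [Prod.snd_sub, h2, sub_zero]
          exact hp.1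
        · rw [Prod.smul_snd, smul_eq_mul]
          simp only [Prod.snd_sub, h2, sub_zero]
          exact hp.2
      · filter_upwards [htt'.eventually g4] with p hp h5
        refine (hne _).2 (hp fun h6 => h5 ?_)
        have h7 : (p - q₀).2 = 0 := congrArg Prod.fst h6
        have h8 : (p - q₀).1 = 0 := congrArg Prod.snd h6
        exact sub_eq_zero.1 (Prod.ext h8 h7)
    · refine ⟨0, 0, c, hc, fun _ => rfl, fun _ => rfl, Eventually.of_forall fun p => by simp, ?_⟩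
      filter_upwards [h, continuous_fst.continuousAt.eventually_ne h1, continuous_snd.continuousAt.eventually_ne h2] with p h3 h4 h5 _
      exact h3 (mul_ne_zero h4 h5)

/-- the exponent along an axis is unique -/
theorem exp_unique {x : ℂ × ℂ → ℂ} {q : ℂ × ℂ} (hx : ContinuousAt x q) (hx0 : x q = 0) (hxne : ∀ p : ℂ × ℂ, p.1 * p.2 ≠ 0 → x p ≠ 0) {a b : ℂ × ℂ → ℂ × ℂ}
    (ha : ContinuousAt a q) (hb : ContinuousAt b q) (ha0 : a q ≠ 0) {i j : ℕ} (hij : i ≤ j)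
    (h : ∀ᶠ p in 𝓝 q, x p ^ i • a p = x p ^ j • b p) : i = j := by
  have h1 : a q = x q ^ (j - i) • b q := by
    refine eq_of_off ha ((hx.pow _).smul hb) ?_
    filter_upwards [h] with p hp h0
    have h2 : x p ^ i ≠ 0 := pow_ne_zero _ (hxne p h0)
    have h3 : x p ^ j = x p ^ i * x p ^ (j - i) := by
      rw [← pow_add]
      congr 1
      omega
    rw [h3, mul_smul] at hp
    exact smul_right_injective _ h2 hp
  by_contra hcon
  rw [hx0, zero_pow (by omega), zero_smul] at h1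
  exact ha0 h1

/-- a locally constant function on a preconnected set -/
theorem const_of_loc {S : Set ℂ} (hS : IsPreconnected S) {f : ℂ → ℕ} (h : ∀ t ∈ S, ∀ᶠ t' in 𝓝 t, t' ∈ S → f t' = f t) :
    ∀ t ∈ S, ∀ t' ∈ S, f t = f t' := by
  intro t ht t' ht'
  refine hS.constant (f := f) ?_ ht ht'
  intro t ht
  have h1 : ∀ᶠ t' in 𝓝[S] t, f t' = f t := by
    rw [eventually_nhdsWithin_iff]
    exact h t ht
  exact (continuousWithinAt_const (b := f t)).congr_of_eventuallyEq h1 rfl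

/-- **Global saturation along the axes.** -/
theorem exists_sat_global {U : Set (ℂ × ℂ)} (hU : IsOpen U) (h0 : (0 : ℂ × ℂ) ∈ U) (hS : IsPreconnected {t : ℂ | ((0 : ℂ), t) ∈ U})
    (hS' : IsPreconnected {s : ℂ | (s, (0 : ℂ)) ∈ U}) {c : ℂ × ℂ → ℂ × ℂ} (hc : ∀ p ∈ U, AnalyticAt ℂ c p)
    (hne : ∀ p ∈ U, p.1 * p.2 ≠ 0 → c p ≠ 0) :
    ∃ (i j : ℕ) (v : ℂ × ℂ → ℂ × ℂ), (∀ p ∈ U, AnalyticAt ℂ v p) ∧ (∀ p ∈ U, c p = (p.1 ^ i * p.2 ^ j) • v p) ∧
      ∀ p ∈ U, ∀ᶠ q in 𝓝 p, q ≠ p → v q ≠ 0 := by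
  have hloc := fun p (hp : p ∈ U) => exists_sat_at (hc p hp) (by
    filter_upwards [hU.mem_nhds hp] with q hq h1
    exact hne q hq h1)
  choose! I J V hV hI hJ hcV hiso using hloc
  -- the exponent of the first axis
  have hIc : ∀ t ∈ {t : ℂ | ((0 : ℂ), t) ∈ U}, ∀ t' ∈ {t : ℂ | ((0 : ℂ), t) ∈ U}, I (0, t) = I (0, t') := by
    refine const_of_loc (f := fun t => I (0, t)) hS fun t ht => ?_
    have hct : ContinuousAt (fun t' : ℂ => ((0 : ℂ), t')) t := by fun_prop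
    have h1 := hct.eventually (eventually_eventually_nhds.2 (hcV _ ht))
    have h2 := hct.eventually (eventually_eventually_nhds.2 (hiso _ ht))
    have h3 := hct.eventually (hV _ ht).eventually_analyticAt
    filter_upwards [h1, h2, h3] with t' g1 g2 g3 ht'
    by_cases htt : t' = t
    · rw [htt]
    -- a point near `t'` where everything is nonzero
    have hct' : ContinuousAt (fun t' : ℂ => ((0 : ℂ), t')) t' := by fun_prop
    have k1 := hct'.eventually (eventually_eventually_nhds.2 g1)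
    have k2 := hct'.eventually g2
    have k3 := hct'.eventually g3.eventually_analyticAt
    have k4 := hct'.eventually (eventually_eventually_nhds.2 (hcV _ ht'))
    have k5 := hct'.eventually (hiso _ ht')
    have k6 := hct'.eventually (hV _ ht').eventually_analyticAt
    have k7 : ∀ᶠ t'' in 𝓝[≠] t', t'' ≠ 0 := by
      by_cases hz : t' = 0
      · subst hz
        exact eventually_mem_nhdsWithin
      · have h2 : ∀ᶠ w in 𝓝 t', w ≠ 0 := isOpen_ne.mem_nhds hz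
        exact h2.filter_mono nhdsWithin_le_nhds
    have k8 : ∀ᶠ t'' in 𝓝[≠] t', t'' ≠ t' := eventually_mem_nhdsWithin
    have k9 : ∀ᶠ t'' in 𝓝 t', t'' ≠ t := isOpen_ne.mem_nhds htt
    obtain ⟨t'', m1, m2, m3, m4, m5, m6, m7, m8, m9⟩ := ((k1.filter_mono nhdsWithin_le_nhds).and ((k2.filter_mono nhdsWithin_le_nhds).and
      ((k3.filter_mono nhdsWithin_le_nhds).and ((k4.filter_mono nhdsWithin_le_nhds).and ((k5.filter_mono nhdsWithin_le_nhds).and
      ((k6.filter_mono nhdsWithin_le_nhds).and (k7.and (k8.and (k9.filter_mono nhdsWithin_le_nhds))))))))).exists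
    have m2' : V (0, t) (0, t'') ≠ 0 := m2 fun h => m9 (congrArg Prod.snd h)
    have m5' : V (0, t') (0, t'') ≠ 0 := m5 fun h => m8 (congrArg Prod.snd h)
    have hxc : ContinuousAt (fun p : ℂ × ℂ => p.1) ((0 : ℂ), t'') := by fun_prop
    have hac : ∀ j : ℕ, ContinuousAt (fun p : ℂ × ℂ => p.2 ^ j • V (0, t) p) ((0 : ℂ), t'') := fun j =>
      (by fun_prop : ContinuousAt (fun p : ℂ × ℂ => p.2 ^ j) ((0 : ℂ), t'')).smul m3.continuousAt
    have hbc : ∀ j : ℕ, ContinuousAt (fun p : ℂ × ℂ => p.2 ^ j • V (0, t') p) ((0 : ℂ), t'') := fun j =>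
      (by fun_prop : ContinuousAt (fun p : ℂ × ℂ => p.2 ^ j) ((0 : ℂ), t'')).smul m6.continuousAt
    have ha0 : ((0 : ℂ), t'').2 ^ J (0, t) • V (0, t) (0, t'') ≠ 0 := smul_ne_zero (pow_ne_zero _ m7) m2'
    have hb0 : ((0 : ℂ), t'').2 ^ J (0, t') • V (0, t') (0, t'') ≠ 0 := smul_ne_zero (pow_ne_zero _ m7) m5'
    have heq : ∀ᶠ p in 𝓝 ((0 : ℂ), t''), p.1 ^ I (0, t) • (p.2 ^ J (0, t) • V (0, t) p) = p.1 ^ I (0, t') • (p.2 ^ J (0, t') • V (0, t') p) := by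
      filter_upwards [m1, m4] with p e1 e2
      rw [smul_smul, smul_smul, ← e1, ← e2]
    rcases le_total (I (0, t)) (I (0, t')) with hle | hle
    · exact (exp_unique hxc rfl (fun p hp => left_ne_zero_of_mul hp) (hac _) (hbc _) ha0 hle heq).symm
    · exact exp_unique hxc rfl (fun p hp => left_ne_zero_of_mul hp) (hbc _) (hac _) hb0 hle (heq.mono fun p hp => hp.symm)
  -- the exponent of the second axis
  have hJc : ∀ s ∈ {s : ℂ | (s, (0 : ℂ)) ∈ U}, ∀ s' ∈ {s : ℂ | (s, (0 : ℂ)) ∈ U}, J (s, 0) = J (s', 0) := by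
    refine const_of_loc (f := fun s => J (s, 0)) hS' fun t ht => ?_
    have hct : ContinuousAt (fun t' : ℂ => (t', (0 : ℂ))) t := by fun_prop
    have h1 := hct.eventually (eventually_eventually_nhds.2 (hcV _ ht))
    have h2 := hct.eventually (eventually_eventually_nhds.2 (hiso _ ht))
    have h3 := hct.eventually (hV _ ht).eventually_analyticAt
    filter_upwards [h1, h2, h3] with t' g1 g2 g3 ht'
    by_cases htt : t' = t
    · rw [htt]
    have hct' : ContinuousAt (fun t' : ℂ => (t', (0 : ℂ))) t' := by fun_prop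
    have k1 := hct'.eventually (eventually_eventually_nhds.2 g1)
    have k2 := hct'.eventually g2
    have k3 := hct'.eventually g3.eventually_analyticAt
    have k4 := hct'.eventually (eventually_eventually_nhds.2 (hcV _ ht'))
    have k5 := hct'.eventually (hiso _ ht')
    have k6 := hct'.eventually (hV _ ht').eventually_analyticAt
    have k7 : ∀ᶠ t'' in 𝓝[≠] t', t'' ≠ 0 := by
      by_cases hz : t' = 0
      · subst hz
        exact eventually_mem_nhdsWithin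
      · have h2 : ∀ᶠ w in 𝓝 t', w ≠ 0 := isOpen_ne.mem_nhds hz
        exact h2.filter_mono nhdsWithin_le_nhds
    have k8 : ∀ᶠ t'' in 𝓝[≠] t', t'' ≠ t' := eventually_mem_nhdsWithin
    have k9 : ∀ᶠ t'' in 𝓝 t', t'' ≠ t := isOpen_ne.mem_nhds htt
    obtain ⟨t'', m1, m2, m3, m4, m5, m6, m7, m8, m9⟩ := ((k1.filter_mono nhdsWithin_le_nhds).and ((k2.filter_mono nhdsWithin_le_nhds).and
      ((k3.filter_mono nhdsWithin_le_nhds).and ((k4.filter_mono nhdsWithin_le_nhds).and ((k5.filter_mono nhdsWithin_le_nhds).and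
      ((k6.filter_mono nhdsWithin_le_nhds).and (k7.and (k8.and (k9.filter_mono nhdsWithin_le_nhds))))))))).exists
    have m2' : V (t, 0) (t'', 0) ≠ 0 := m2 fun h => m9 (congrArg Prod.fst h)
    have m5' : V (t', 0) (t'', 0) ≠ 0 := m5 fun h => m8 (congrArg Prod.fst h)
    have hxc : ContinuousAt (fun p : ℂ × ℂ => p.2) (t'', (0 : ℂ)) := by fun_prop
    have hac : ∀ j : ℕ, ContinuousAt (fun p : ℂ × ℂ => p.1 ^ j • V (t, 0) p) (t'', (0 : ℂ)) := fun j =>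
      (by fun_prop : ContinuousAt (fun p : ℂ × ℂ => p.1 ^ j) (t'', (0 : ℂ))).smul m3.continuousAt
    have hbc : ∀ j : ℕ, ContinuousAt (fun p : ℂ × ℂ => p.1 ^ j • V (t', 0) p) (t'', (0 : ℂ)) := fun j =>
      (by fun_prop : ContinuousAt (fun p : ℂ × ℂ => p.1 ^ j) (t'', (0 : ℂ))).smul m6.continuousAt
    have ha0 : (t'', (0 : ℂ)).1 ^ I (t, 0) • V (t, 0) (t'', 0) ≠ 0 := smul_ne_zero (pow_ne_zero _ m7) m2'
    have hb0 : (t'', (0 : ℂ)).1 ^ I (t', 0) • V (t', 0) (t'', 0) ≠ 0 := smul_ne_zero (pow_ne_zero _ m7) m5'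
    have heq : ∀ᶠ p in 𝓝 (t'', (0 : ℂ)), p.2 ^ J (t, 0) • (p.1 ^ I (t, 0) • V (t, 0) p) = p.2 ^ J (t', 0) • (p.1 ^ I (t', 0) • V (t', 0) p) := by
      filter_upwards [m1, m4] with p e1 e2
      rw [smul_smul, smul_smul, mul_comm (p.2 ^ J (t, 0)), mul_comm (p.2 ^ J (t', 0)), ← e1, ← e2]
    rcases le_total (J (t, 0)) (J (t', 0)) with hle | hle
    · exact (exp_unique hxc rfl (fun p hp => right_ne_zero_of_mul hp) (hac _) (hbc _) ha0 hle heq).symm
    · exact exp_unique hxc rfl (fun p hp => right_ne_zero_of_mul hp) (hbc _) (hac _) hb0 hle (heq.mono fun p hp => hp.symm)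
  set i := I 0 with hi
  set j := J 0 with hj
  have hI' : ∀ p ∈ U, p.1 = 0 → I p = i := by
    intro p hp h1
    have h2 : p = (0, p.2) := Prod.ext h1 rfl
    rw [h2] at hp ⊢
    exact hIc _ hp 0 h0
  have hJ' : ∀ p ∈ U, p.2 = 0 → J p = j := by
    intro p hp h1
    have h2 : p = (p.1, 0) := Prod.ext rfl h1
    rw [h2] at hp ⊢
    exact hJc _ hp 0 h0
  -- the local form of the quotient
  have hφ : ∀ p ∈ U, ∃ g : ℂ × ℂ → ℂ, AnalyticAt ℂ g p ∧ g p ≠ 0 ∧ ∀ᶠ q in 𝓝 p, q.1 * q.2 ≠ 0 → g q • V p q = (q.1 ^ i * q.2 ^ j)⁻¹ • c q := by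
    intro p hp
    have hg1 : ∃ g₁ : ℂ × ℂ → ℂ, AnalyticAt ℂ g₁ p ∧ g₁ p ≠ 0 ∧ ∀ q : ℂ × ℂ, q.1 * q.2 ≠ 0 → g₁ q = (q.1 ^ i)⁻¹ * q.1 ^ I p := by
      by_cases h1 : p.1 = 0
      · refine ⟨fun _ => 1, analyticAt_const, one_ne_zero, fun q hq => ?_⟩
        rw [hI' p hp h1, inv_mul_cancel₀ (pow_ne_zero _ (left_ne_zero_of_mul hq))]
      · refine ⟨fun q => (q.1 ^ i)⁻¹, (analyticAt_fst.pow i).inv (pow_ne_zero _ h1), inv_ne_zero (pow_ne_zero _ h1), fun q hq => ?_⟩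
        rw [hI p hp h1, pow_zero, mul_one]
    have hg2 : ∃ g₂ : ℂ × ℂ → ℂ, AnalyticAt ℂ g₂ p ∧ g₂ p ≠ 0 ∧ ∀ q : ℂ × ℂ, q.1 * q.2 ≠ 0 → g₂ q = (q.2 ^ j)⁻¹ * q.2 ^ J p := by
      by_cases h1 : p.2 = 0
      · refine ⟨fun _ => 1, analyticAt_const, one_ne_zero, fun q hq => ?_⟩
        rw [hJ' p hp h1, inv_mul_cancel₀ (pow_ne_zero _ (right_ne_zero_of_mul hq))]
      · refine ⟨fun q => (q.2 ^ j)⁻¹, (analyticAt_snd.pow j).inv (pow_ne_zero _ h1), inv_ne_zero (pow_ne_zero _ h1), fun q hq => ?_⟩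
        rw [hJ p hp h1, pow_zero, mul_one]
    obtain ⟨g₁, a1, a2, a3⟩ := hg1
    obtain ⟨g₂, b1, b2, b3⟩ := hg2
    refine ⟨fun q => g₁ q * g₂ q, a1.mul b1, mul_ne_zero a2 b2, ?_⟩
    filter_upwards [hcV p hp] with q hq h3
    show (g₁ q * g₂ q) • V p q = _
    rw [hq, smul_smul, a3 q h3, b3 q h3]
    congr 1
    rw [mul_inv]
    ring
  obtain ⟨v, hv1, hv2⟩ := glue (B := fun q => (q.1 ^ i * q.2 ^ j)⁻¹ • c q) hU (fun p hp => by
    obtain ⟨g, g1, -, g3⟩ := hφ p hp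
    exact ⟨fun q => g q • V p q, g1.smul (hV p hp), g3⟩)
  have hnear : ∀ p ∈ U, ∃ g : ℂ × ℂ → ℂ, AnalyticAt ℂ g p ∧ g p ≠ 0 ∧ ∀ᶠ q in 𝓝 p, v q = g q • V p q := by
    intro p hp
    obtain ⟨g, g1, g2, g3⟩ := hφ p hp
    refine ⟨g, g1, g2, eventuallyEq_of_off (hv1 p hp) (g1.smul (hV p hp)) ?_⟩
    filter_upwards [g3, hU.mem_nhds hp] with q hq hqU h1
    rw [hv2 q hqU h1]
    exact (hq h1).symm
  refine ⟨i, j, v, hv1, fun p hp => ?_, fun p hp => ?_⟩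
  · refine eq_of_off (f := c) (g := fun p => (p.1 ^ i * p.2 ^ j) • v p) (hc p hp).continuousAt ?_ ?_
    · exact (by fun_prop : ContinuousAt (fun p : ℂ × ℂ => p.1 ^ i * p.2 ^ j) p).smul (hv1 p hp).continuousAt
    · filter_upwards [hU.mem_nhds hp] with q hq h1
      rw [hv2 q hq h1, smul_smul, mul_inv_cancel₀ (mul_ne_zero (pow_ne_zero _ (left_ne_zero_of_mul h1)) (pow_ne_zero _ (right_ne_zero_of_mul h1))), one_smul]
  · obtain ⟨g, g1, g2, g3⟩ := hnear p hp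
    filter_upwards [g3, g1.continuousAt.eventually_ne g2, hiso p hp] with q h1 h2 h3 h4
    rw [h1]
    exact smul_ne_zero h2 (h3 h4)

end Pool.Agent.MQ3

end
end
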