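import Pool.Agent.H94.G6.M17
import Pool.Agent.H94.G6.M21
import Pool.Agent.H94.G6.M26
import Pool.Agent.H94.G6.M31
import Pool.Agent.H94.G6.M48
import Pool.Agent.H94.G6.M61
import Pool.Agent.H94.G6.MQ3.Lift

/-! The parts of this file: MQ3.WBxA, MQ3.Fr_1, MQ3.WBx, MQ3.Branch. -/

section

/-!
# MQ3 WBxA: the tangent spaces of a surface in a parametrization which is an immersion at a point
-/

set_option autoImplicit false

open Topology Filter

noncomputable section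

namespace Pool.Agent.MQ3

open Pool.Agent.H36.BP (EN)
open Pool.Agent.H14.PP (Tan)
open Pool.Agent.H17BP (Surface)

variable {N : ℕ} {X : Set (EN N)} {ρ : ℂ × ℂ → EN N} {p : ℂ × ℂ}

/-- The tangent vectors of the cone at `ρ p` are the vectors `Dρ w + a ρ p`, if the differential of `ρ` is injective modulo `ρ p`. -/
theorem span_of_indep (hX : Surface X) (hρ : AnalyticAt ℂ ρ p) (hm : ∀ᶠ q in 𝓝 p, ρ q ∈ X)
    (hi : ∀ (w : ℂ × ℂ) (a : ℂ), fderiv ℂ ρ p w = a • ρ p → w = 0) {v : EN N} (hv : Tan X (ρ p) v) :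
    ∃ (w : ℂ × ℂ) (a : ℂ), v = fderiv ℂ ρ p w + a • ρ p := by
  obtain ⟨σ, τ, hσ, h0⟩ := hX.chart (ρ p) hm.self_of_nhds
  have hs := (Pool.Agent.E1.ResL_span hσ).self_of_nhds
  have hin := (Pool.Agent.E1.ResL_indep hσ).self_of_nhds
  rw [h0] at hs hin
  have huniq : ∀ (u u' : ℂ × ℂ) (a a' : ℂ), fderiv ℂ σ 0 u + a • ρ p = fderiv ℂ σ 0 u' + a' • ρ p → u = u' := by
    intro u u' a a' h
    have h1 : fderiv ℂ σ 0 (u - u') = (a' - a) • ρ p := by
      rw [map_sub, sub_smul, sub_eq_iff_eq_add, sub_add_eq_add_sub, eq_sub_iff_add_eq, h]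
      abel
    exact sub_eq_zero.1 (hin _ _ h1)
  choose B c hB using fun w : ℂ × ℂ => hs _ (Pool.Agent.E1.ResL_tan hρ hm w)
  let L : (ℂ × ℂ) →ₗ[ℂ] (ℂ × ℂ) :=
    { toFun := B
      map_add' := fun w w' => by
        refine huniq _ _ (c (w + w')) (c w + c w') ?_
        rw [← hB, map_add, hB w, hB w', map_add, add_smul]
        abel
      map_smul' := fun a w => by
        refine huniq _ _ (c (a • w)) (a * c w) ?_
        rw [← hB, map_smul, hB w, RingHom.id_apply, map_smul, smul_add, smul_smul] }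
  have hLi : Function.Injective L := by
    rw [injective_iff_map_eq_zero]
    intro w hw
    have h1 : B w = 0 := hw
    have h2 := hB w
    rw [h1, map_zero, zero_add] at h2
    exact hi w _ h2
  obtain ⟨u, a, hu⟩ := hs v hv
  obtain ⟨w, hw⟩ := (LinearMap.injective_iff_surjective.1 hLi) u
  have hw' : B w = u := hw
  refine ⟨w, a - c w, ?_⟩
  rw [hB w, hw', hu, sub_smul]
  abel

end Pool.Agent.MQ3

end
end

section

/-!
# MQ3 Fr: the slopes of a symmetric differential with respect to three linear forms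

`l : Fin 3 → EN N →L[ℂ] ℂ`; `om l i x v = l₀ x * l_i v - l_i x * l₀ v` is `l₀² d (l_i / l₀)`.  In a chart `σ` the vector fields `v₁`, `v₂` are dual to
`om l 1`, `om l 2`, up to the factor `dl`.  The slopes of `θ` are the roots of `s ↦ θ (σ p; Dσ (v₁ + s v₂))`.
-/

set_option autoImplicit false

open Topology Filter Metric

noncomputable section

namespace Pool.Agent.MQ3

open Pool.Agent.H36.BP (EN)
open Pool.Agent.H14.PP (Tan)
open Pool.Agent.H17BP (IsChart)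
open Pool.Agent.E1 (ResL_tan ResL_span ResL_indep ResX_family)

variable {N : ℕ} {X : Set (EN N)} {m : ℕ}

/-! ### the differential in a chart -/

/-- `θ` in a chart is a binary form with analytic coefficients -/
theorem exists_form_coef (θ : WDiff X m) {σ : ℂ × ℂ → EN N} (hσ : AnalyticAt ℂ σ 0) (hX : ∀ᶠ p in 𝓝 (0 : ℂ × ℂ), σ p ∈ X) :
    ∃ c : ℕ → ℂ × ℂ → ℂ, (∀ k, AnalyticAt ℂ (c k) 0) ∧
      ∀ᶠ p in 𝓝 (0 : ℂ × ℂ), ∀ v : ℂ × ℂ, θ.toFun (σ p) (fderiv ℂ σ p v) = ∑ k ∈ Finset.range (m + 1), c k p * v.1 ^ k * v.2 ^ (m - k) := by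
  have hhom : ∀ᶠ p in 𝓝 (0 : ℂ × ℂ), ∀ (c : ℂ) (v : ℂ × ℂ), θ.toFun (σ p) (fderiv ℂ σ p (c • v)) = c ^ m * θ.toFun (σ p) (fderiv ℂ σ p v) := by
    filter_upwards [hσ.eventually_analyticAt, eventually_eventually_nhds.2 hX] with p hp hpX c v
    rw [map_smul, θ.smul _ _ (ResL_tan hp hpX v)]
  obtain ⟨A, hA, hA'⟩ := ResX_family (m := m) (a := fun q => θ.toFun (σ q.1) (fderiv ℂ σ q.1 q.2)) (θ.res_analytic hσ hX) hhom
  refine ⟨fun k p => (A p).coeff k, hA, ?_⟩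
  filter_upwards [hA', hhom] with p ⟨h1, h2, h3⟩ h4 v
  by_cases hv : v.2 = 0
  · have h5 : v = v.1 • ((1 : ℂ), (0 : ℂ)) := by
      ext
      · simp
      · simp [hv]
    rw [Finset.sum_eq_single m]
    · rw [h5, h4]
      simp only [Prod.smul_fst, smul_eq_mul, mul_one, Prod.smul_snd, mul_zero, Nat.sub_self, pow_zero]
      rw [h3, mul_comm]
    · intro k hk hkm
      have : m - k ≠ 0 := by
        have := Finset.mem_range.1 hk
        omega
      rw [hv, zero_pow this, mul_zero]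
    · intro h
      exact absurd (Finset.mem_range.2 (Nat.lt_succ_self m)) h
  · have h5 : v = v.2 • ((v.1 / v.2, (1 : ℂ)) : ℂ × ℂ) := by
      ext
      · simp only [Prod.smul_fst, smul_eq_mul]
        field_simp
      · simp
    conv_lhs => rw [h5, h4]
    have h6 := h2 (v.1 / v.2)
    rw [← h6, Polynomial.eval_eq_sum_range' (Nat.lt_succ_of_le h1), Finset.mul_sum]
    refine Finset.sum_congr rfl fun k hk => ?_
    have hk' : k ≤ m := Nat.lt_succ_iff.1 (Finset.mem_range.1 hk)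
    have h7 : v.2 ^ m = v.2 ^ k * v.2 ^ (m - k) := by
      rw [← pow_add]
      congr 1
      omega
    rw [h7, div_pow]
    field_simp

/-- the slopes of `θ` in a chart: the roots of a polynomial with analytic coefficients -/
theorem exists_fam (θ : WDiff X m) (l : LF N) {σ : ℂ × ℂ → EN N} (hσ : AnalyticAt ℂ σ 0) (hX : ∀ᶠ p in 𝓝 (0 : ℂ × ℂ), σ p ∈ X) :
    ∃ A : ℂ × ℂ → Polynomial ℂ, (∀ k, AnalyticAt ℂ (fun p => (A p).coeff k) 0) ∧
      ∀ᶠ p in 𝓝 (0 : ℂ × ℂ), (A p).natDegree ≤ m ∧ (∀ s, (A p).eval s = θ.toFun (σ p) (fderiv ℂ σ p (v₁ l σ p + s • v₂ l σ p))) ∧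
        (A p).coeff m = θ.toFun (σ p) (fderiv ℂ σ p (v₂ l σ p)) := by
  have hhom : ∀ᶠ p in 𝓝 (0 : ℂ × ℂ), ∀ (c : ℂ) (v : ℂ × ℂ), θ.toFun (σ p) (fderiv ℂ σ p ((c • v).2 • v₁ l σ p + (c • v).1 • v₂ l σ p)) =
      c ^ m * θ.toFun (σ p) (fderiv ℂ σ p (v.2 • v₁ l σ p + v.1 • v₂ l σ p)) := by
    filter_upwards [hσ.eventually_analyticAt, eventually_eventually_nhds.2 hX] with p hp hpX c v
    have h1 : (c • v).2 • v₁ l σ p + (c • v).1 • v₂ l σ p = c • (v.2 • v₁ l σ p + v.1 • v₂ l σ p) := by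
      simp only [Prod.smul_fst, Prod.smul_snd, smul_eq_mul, smul_add, smul_smul]
    rw [h1, map_smul, θ.smul _ _ (ResL_tan hp hpX _)]
  have hana : ∀ v : ℂ × ℂ, AnalyticAt ℂ (fun q : (ℂ × ℂ) × (ℂ × ℂ) => θ.toFun (σ q.1) (fderiv ℂ σ q.1 (q.2.2 • v₁ l σ q.1 + q.2.1 • v₂ l σ q.1))) (0, v) := by
    intro v
    have hG : AnalyticAt ℂ (fun q : (ℂ × ℂ) × (ℂ × ℂ) => (q.1, q.2.2 • v₁ l σ q.1 + q.2.1 • v₂ l σ q.1)) (0, v) := by
      have h1 : AnalyticAt ℂ (fun q : (ℂ × ℂ) × (ℂ × ℂ) => v₁ l σ q.1) (0, v) :=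
        AnalyticAt.comp (g := v₁ l σ) (f := fun q : (ℂ × ℂ) × (ℂ × ℂ) => q.1) (x := (0, v)) (analyticAt_v₁ l hσ) analyticAt_fst
      have h2 : AnalyticAt ℂ (fun q : (ℂ × ℂ) × (ℂ × ℂ) => v₂ l σ q.1) (0, v) :=
        AnalyticAt.comp (g := v₂ l σ) (f := fun q : (ℂ × ℂ) × (ℂ × ℂ) => q.1) (x := (0, v)) (analyticAt_v₂ l hσ) analyticAt_fst
      have h3 : AnalyticAt ℂ (fun q : (ℂ × ℂ) × (ℂ × ℂ) => q.2.2) (0, v) :=
        ((ContinuousLinearMap.snd ℂ ℂ ℂ).comp (ContinuousLinearMap.snd ℂ (ℂ × ℂ) (ℂ × ℂ))).analyticAt _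
      have h4 : AnalyticAt ℂ (fun q : (ℂ × ℂ) × (ℂ × ℂ) => q.2.1) (0, v) :=
        ((ContinuousLinearMap.fst ℂ ℂ ℂ).comp (ContinuousLinearMap.snd ℂ (ℂ × ℂ) (ℂ × ℂ))).analyticAt _
      exact analyticAt_fst.prod ((h3.smul h1).add (h4.smul h2))
    have h0 := θ.res_analytic hσ hX (v.2 • v₁ l σ 0 + v.1 • v₂ l σ 0)
    exact AnalyticAt.comp (g := fun q : (ℂ × ℂ) × (ℂ × ℂ) => θ.toFun (σ q.1) (fderiv ℂ σ q.1 q.2))
      (f := fun q : (ℂ × ℂ) × (ℂ × ℂ) => (q.1, q.2.2 • v₁ l σ q.1 + q.2.1 • v₂ l σ q.1)) (x := (0, v)) h0 hG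
  obtain ⟨A, hA, hA'⟩ := ResX_family (m := m) (a := fun q => θ.toFun (σ q.1) (fderiv ℂ σ q.1 (q.2.2 • v₁ l σ q.1 + q.2.1 • v₂ l σ q.1))) hana hhom
  refine ⟨A, hA, ?_⟩
  filter_upwards [hA'] with p ⟨h1, h2, h3⟩
  refine ⟨h1, fun s => ?_, ?_⟩
  · have := h2 s
    simpa using this
  · simpa using h3

end Pool.Agent.MQ3

end
end

section

/-!
# MQ3 WBx: from a normal crossings box to the sheets of the web

`ρ` is a parametrization of a surface over the closed unit bidisc, an immersion off the axes, such that the points `ρ p` off the axes are good for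
`θ`: the polynomials of the slopes satisfy the hypotheses of `exists_webBox`, and the curves tangent to `θ` satisfy `Crv`.
-/

set_option autoImplicit false

open Topology Filter Metric

noncomputable section

namespace Pool.Agent.MQ3

open Pool.Agent.H36.BP (EN)
open Pool.Agent.H14.PP (Tan)
open Pool.Agent.H17BP (Surface IsChart)
open Pool.Agent.E1 (ResL_tan)

variable {N : ℕ} {X : Set (EN N)} {m : ℕ}

/-! ### analyticity -/

/-- A symmetric differential in a parametrization is analytic. -/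
theorem analyticAt_theta (θ : WDiff X m) {ρ : ℂ × ℂ → EN N} {p : ℂ × ℂ} (hρ : AnalyticAt ℂ ρ p) (hX : ∀ᶠ q in 𝓝 p, ρ q ∈ X)
    {w : ℂ × ℂ → ℂ × ℂ} (hw : AnalyticAt ℂ w p) : AnalyticAt ℂ (fun q => θ.toFun (ρ q) (fderiv ℂ ρ q (w q))) p := by
  have hl : AnalyticAt ℂ (fun q : ℂ × ℂ => p + q) 0 := analyticAt_const.add analyticAt_id
  have hσ : AnalyticAt ℂ (fun q => ρ (p + q)) 0 := by
    have h1 : AnalyticAt ℂ ρ (p + 0) := by rwa [add_zero]
    exact AnalyticAt.comp (g := ρ) (f := fun q : ℂ × ℂ => p + q) (x := 0) h1 hl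
  have ht : Tendsto (fun q : ℂ × ℂ => p + q) (𝓝 0) (𝓝 p) := by
    have := hl.continuousAt.tendsto
    rwa [add_zero] at this
  have h1 := θ.res_analytic hσ (ht.eventually hX) (w p)
  have h2 : AnalyticAt ℂ (fun q : ℂ × ℂ => (q - p, w q)) p := (analyticAt_id.sub analyticAt_const).prod hw
  have h3 : AnalyticAt ℂ (fun q : (ℂ × ℂ) × (ℂ × ℂ) => θ.toFun (ρ (p + q.1)) (fderiv ℂ (fun q => ρ (p + q)) q.1 q.2)) (p - p, w p) := by
    rw [sub_self]
    exact h1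
  have h4 := AnalyticAt.comp (g := fun q : (ℂ × ℂ) × (ℂ × ℂ) => θ.toFun (ρ (p + q.1)) (fderiv ℂ (fun q => ρ (p + q)) q.1 q.2))
    (f := fun q : ℂ × ℂ => (q - p, w q)) (x := p) h3 h2
  refine h4.congr (Eventually.of_forall fun q => ?_)
  show θ.toFun (ρ (p + (q - p))) (fderiv ℂ (fun q => ρ (p + q)) (q - p) (w q)) = _
  rw [fderiv_comp_add_left, add_sub_cancel]

theorem v₁_shift (l : LF N) (ρ : ℂ × ℂ → EN N) (p q : ℂ × ℂ) : v₁ l (fun q => ρ (p + q)) q = v₁ l ρ (p + q) := by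
  simp only [v₁, ca, cb, fderiv_comp_add_left]

theorem v₂_shift (l : LF N) (ρ : ℂ × ℂ → EN N) (p q : ℂ × ℂ) : v₂ l (fun q => ρ (p + q)) q = v₂ l ρ (p + q) := by
  simp only [v₂, ca, cb, fderiv_comp_add_left]

/-- the polynomial of the slopes of `θ` -/
def sP (θ : WDiff X m) (l : LF N) (ρ : ℂ × ℂ → EN N) (p : ℂ × ℂ) : Polynomial ℂ :=
  Lagrange.interpolate (Finset.range (m + 1)) (fun j : ℕ => (j : ℂ))
    fun j : ℕ => θ.toFun (ρ p) (fderiv ℂ ρ p (v₁ l ρ p + (j : ℂ) • v₂ l ρ p))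

/-- the coefficients of the polynomial of the slopes -/
def sA (θ : WDiff X m) (l : LF N) (ρ : ℂ × ℂ → EN N) (k : ℕ) (p : ℂ × ℂ) : ℂ := (sP θ l ρ p).coeff k

theorem analyticAt_sA (θ : WDiff X m) (l : LF N) {ρ : ℂ × ℂ → EN N} {p : ℂ × ℂ} (hρ : AnalyticAt ℂ ρ p) (hX : ∀ᶠ q in 𝓝 p, ρ q ∈ X) (k : ℕ) :
    AnalyticAt ℂ (sA θ l ρ k) p := by
  have h1 : sA θ l ρ k = fun p => ∑ j ∈ Finset.range (m + 1), θ.toFun (ρ p) (fderiv ℂ ρ p (v₁ l ρ p + ((j : ℕ) : ℂ) • v₂ l ρ p)) *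
      (Lagrange.basis (Finset.range (m + 1)) (fun j : ℕ => (j : ℂ)) j).coeff k := by
    funext p
    rw [sA, sP, Lagrange.interpolate_apply, Polynomial.finsetSum_coeff]
    refine Finset.sum_congr rfl fun j _ => ?_
    rw [Polynomial.coeff_C_mul]
  rw [h1]
  refine Finset.analyticAt_fun_sum _ fun j _ => AnalyticAt.mul ?_ analyticAt_const
  exact analyticAt_theta θ hρ hX ((analyticAt_v₁ l hρ).fun_add (analyticAt_v₂ l hρ).fun_const_smul)

theorem sP_spec (θ : WDiff X m) (l : LF N) {ρ : ℂ × ℂ → EN N} {p : ℂ × ℂ} (hρ : AnalyticAt ℂ ρ p) (hX : ∀ᶠ q in 𝓝 p, ρ q ∈ X) :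
    (sP θ l ρ p).natDegree ≤ m ∧ (∀ s, (sP θ l ρ p).eval s = θ.toFun (ρ p) (fderiv ℂ ρ p (v₁ l ρ p + s • v₂ l ρ p))) ∧
      sA θ l ρ m p = θ.toFun (ρ p) (fderiv ℂ ρ p (v₂ l ρ p)) := by
  have hl : AnalyticAt ℂ (fun q : ℂ × ℂ => p + q) 0 := analyticAt_const.add analyticAt_id
  have hσ : AnalyticAt ℂ (fun q => ρ (p + q)) 0 := by
    have h1 : AnalyticAt ℂ ρ (p + 0) := by rwa [add_zero]
    exact AnalyticAt.comp (g := ρ) (f := fun q : ℂ × ℂ => p + q) (x := 0) h1 hl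
  have ht : Tendsto (fun q : ℂ × ℂ => p + q) (𝓝 0) (𝓝 p) := by
    have := hl.continuousAt.tendsto
    rwa [add_zero] at this
  obtain ⟨A, -, hA⟩ := exists_fam θ l hσ (ht.eventually hX)
  obtain ⟨h1, h2, h3⟩ := hA.self_of_nhds
  rw [v₂_shift, fderiv_comp_add_left, add_zero] at h3
  have h2' : ∀ s, (A 0).eval s = θ.toFun (ρ p) (fderiv ℂ ρ p (v₁ l ρ p + s • v₂ l ρ p)) := by
    intro s
    rw [h2 s, v₁_shift, v₂_shift, fderiv_comp_add_left, add_zero]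
  have h4 : A 0 = sP θ l ρ p := by
    refine Lagrange.eq_interpolate_of_eval_eq _ ?_ ?_ ?_
    · intro i _ j _ hij
      exact Nat.cast_injective hij
    · rw [Finset.card_range]
      exact lt_of_le_of_lt (Polynomial.degree_le_of_natDegree_le h1) (by exact_mod_cast Nat.lt_succ_self m)
    · intro j _
      exact h2' _
  rw [sA, ← h4]
  exact ⟨h1, h2', h3⟩

theorem Pe_sA (θ : WDiff X m) (l : LF N) {ρ : ℂ × ℂ → EN N} {p : ℂ × ℂ} (hρ : AnalyticAt ℂ ρ p) (hX : ∀ᶠ q in 𝓝 p, ρ q ∈ X) (t : ℂ) :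
    Pe m (sA θ l ρ) p t = θ.toFun (ρ p) (fderiv ℂ ρ p (v₁ l ρ p + t • v₂ l ρ p)) := by
  obtain ⟨h1, h2, -⟩ := sP_spec θ l hρ hX
  rw [← h2 t, Polynomial.eval_eq_sum_range' (Nat.lt_succ_of_le h1), Pe]
  rfl

/-! ### the box -/

/-- A parametrization of the surface over the closed unit bidisc, an immersion off the axes. -/
structure NCBox (X : Set (EN N)) (ρ : ℂ × ℂ → EN N) : Prop where
  an : ∀ p : ℂ × ℂ, ‖p.1‖ ≤ 1 → ‖p.2‖ ≤ 1 → AnalyticAt ℂ ρ p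
  mem : ∀ p : ℂ × ℂ, ‖p.1‖ ≤ 1 → ‖p.2‖ ≤ 1 → ∀ᶠ q in 𝓝 p, ρ q ∈ X
  indep : ∀ p ∈ DS, ∀ (w : ℂ × ℂ) (a : ℂ), fderiv ℂ ρ p w = a • ρ p → w = 0

variable {ρ : ℂ × ℂ → EN N}

theorem NCBox.an' (hb : NCBox X ρ) {p : ℂ × ℂ} (hp : p ∈ DS) : AnalyticAt ℂ ρ p := hb.an p hp.1.2.le hp.2.2.le

theorem NCBox.mem' (hb : NCBox X ρ) {p : ℂ × ℂ} (hp : p ∈ DS) : ∀ᶠ q in 𝓝 p, ρ q ∈ X := hb.mem p hp.1.2.le hp.2.2.le

theorem NCBox.span (hb : NCBox X ρ) (hX : Surface X) {p : ℂ × ℂ} (hp : p ∈ DS) (v : EN N) (hv : Tan X (ρ p) v) :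
    ∃ (w : ℂ × ℂ) (a : ℂ), v = fderiv ℂ ρ p w + a • ρ p := span_of_indep hX (hb.an' hp) (hb.mem' hp) (hb.indep p hp) hv

theorem NCBox.dl_ne (hb : NCBox X ρ) (hX : Surface X) {l : LF N} {p : ℂ × ℂ} (hp : p ∈ DS) (hG : GA X l (ρ p)) : dl l ρ p ≠ 0 :=
  (ga_chart (fun v => ResL_tan (hb.an' hp) (hb.mem' hp) v) (hb.span hX hp) (hb.indep p hp)).1 hG

theorem NCBox.lead_ne (hb : NCBox X ρ) (hX : Surface X) (hm : 1 ≤ m) {θ : WDiff X m} {l : LF N} {p : ℂ × ℂ} (hp : p ∈ DS)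
    (hG : GA X l (ρ p)) (hG' : GB θ l (ρ p)) : sA θ l ρ m p ≠ 0 := by
  rw [(sP_spec θ l (hb.an' hp) (hb.mem' hp)).2.2]
  exact (gb_chart hm (fun v => ResL_tan (hb.an' hp) (hb.mem' hp) v) (hb.span hX hp) (hb.indep p hp) (hb.dl_ne hX hp hG)).1 hG'

theorem isPreconnected_DS : IsPreconnected DS := by
  have h : DS = pexp '' HH := by
    ext p
    constructor
    · intro hp
      obtain ⟨q, hq, h⟩ := exists_pexp hp
      exact ⟨q, hq, h⟩
    · rintro ⟨q, hq, rfl⟩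
      exact pexp_mem hq
  rw [h]
  refine convex_HH.isPreconnected.image _ ?_
  unfold pexp
  fun_prop

theorem NCBox.bound (hb : NCBox X ρ) (θ : WDiff X m) (l : LF N) : ∃ C : ℝ, ∀ i ≤ m, ∀ p ∈ DS, ‖sA θ l ρ i p‖ ≤ C := by
  have hc : ContinuousOn (fun p => fun i : Fin (m + 1) => sA θ l ρ i p) (closedBall (0 : ℂ × ℂ) 1) := by
    intro p hp
    rw [mem_closedBall_zero_iff] at hp
    have h1 : ‖p.1‖ ≤ 1 := (norm_fst_le p).trans hp
    have h2 : ‖p.2‖ ≤ 1 := (norm_snd_le p).trans hp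
    refine ContinuousAt.continuousWithinAt (continuousAt_pi.2 fun i => ?_)
    exact (analyticAt_sA θ l (hb.an p h1 h2) (hb.mem p h1 h2) i).continuousAt
  obtain ⟨C, hC⟩ := (isCompact_closedBall (0 : ℂ × ℂ) 1).exists_bound_of_continuousOn hc
  refine ⟨C, fun i hi p hp => ?_⟩
  have h1 : p ∈ closedBall (0 : ℂ × ℂ) 1 := by
    rw [mem_closedBall_zero_iff]
    exact max_le hp.1.2.le hp.2.2.le
  exact (norm_le_pi_norm (fun i : Fin (m + 1) => sA θ l ρ i p) ⟨i, Nat.lt_succ_of_le hi⟩).trans (hC p h1)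

end Pool.Agent.MQ3

end
end

section

/-!
# MQ3 Branch: the sheet of a web in a monomial chart

`Dm w w'` = the domain `|s ^ w.1 t ^ w'.1| < 1`, `|s ^ w.2 t ^ w'.2| < 1` of the monomial chart.  Bounded functions of the sheet `k` are analytic
functions on `Dm w w'`; the foliation of the sheet is given by a vector field on `Dm w w'` with isolated zeros.
-/

set_option autoImplicit false

open Topology Filter

noncomputable section

namespace Pool.Agent.MQ3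

variable {p : ℕ} {T : Fin p → ℂ × ℂ → ℂ} {a b : Equiv.Perm (Fin p)} {k : Fin p} {w w' : ℕ × ℕ}

/-- the domain of the monomial chart -/
def Dm (w w' : ℕ × ℕ) : Set (ℂ × ℂ) := {q | ‖q.1 ^ w.1 * q.2 ^ w'.1‖ < 1 ∧ ‖q.1 ^ w.2 * q.2 ^ w'.2‖ < 1}

/-- the linear map -/
def ln (w w' : ℕ × ℕ) (P : ℂ × ℂ) : ℂ × ℂ := (P.1 * w.1 + P.2 * w'.1, P.1 * w.2 + P.2 * w'.2)

theorem isOpen_Dm : IsOpen (Dm w w') := by
  have h1 : Continuous fun q : ℂ × ℂ => ‖q.1 ^ w.1 * q.2 ^ w'.1‖ := by fun_prop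
  have h2 : Continuous fun q : ℂ × ℂ => ‖q.1 ^ w.2 * q.2 ^ w'.2‖ := by fun_prop
  exact (isOpen_lt h1 continuous_const).inter (isOpen_lt h2 continuous_const)

theorem mono_mem_DS {q : ℂ × ℂ} (hq : q ∈ Dm w w') (h0 : q.1 * q.2 ≠ 0) : mono w w' q ∈ DS :=
  mem_DS.2 ⟨hq, mul_ne_zero (mul_ne_zero (pow_ne_zero _ (left_ne_zero_of_mul h0)) (pow_ne_zero _ (right_ne_zero_of_mul h0)))
    (mul_ne_zero (pow_ne_zero _ (left_ne_zero_of_mul h0)) (pow_ne_zero _ (right_ne_zero_of_mul h0)))⟩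

theorem pexp_ln (P : ℂ × ℂ) : pexp (ln w w' P) = mono w w' (pexp P) := by
  unfold pexp ln mono
  refine Prod.ext ?_ ?_ <;>
  · simp only
    rw [Complex.exp_add, mul_comm P.1, mul_comm P.2, Complex.exp_nat_mul, Complex.exp_nat_mul]

theorem mem_HH_iff (v : ℂ × ℂ) : v ∈ HH ↔ pexp v ∈ DD := by
  unfold HH DD pexp
  rw [Set.mem_ofPred_eq, Set.mem_ofPred_eq]
  simp only [Complex.norm_exp, Real.exp_lt_one_iff]

theorem ln_mem_iff (P : ℂ × ℂ) : ln w w' P ∈ HH ↔ pexp P ∈ Dm w w' := by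
  rw [mem_HH_iff, pexp_ln]
  rfl

theorem pexp_off (P : ℂ × ℂ) : (pexp P).1 * (pexp P).2 ≠ 0 := mul_ne_zero (Complex.exp_ne_zero _) (Complex.exp_ne_zero _)

theorem zero_mem_Dm (hd : dt w w' ≠ 0) : (0 : ℂ × ℂ) ∈ Dm w w' := by
  have h : ∀ m n : ℕ, (m ≠ 0 ∨ n ≠ 0) → ‖(0 : ℂ × ℂ).1 ^ m * (0 : ℂ × ℂ).2 ^ n‖ < 1 := by
    intro m n hmn
    rcases hmn with h | h
    · simp [zero_pow h]
    · simp [zero_pow h]
  unfold dt at hd
  refine ⟨h _ _ ?_, h _ _ ?_⟩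
  · by_contra hcon
    push Not at hcon
    rw [hcon.1, hcon.2] at hd
    simp at hd
  · by_contra hcon
    push Not at hcon
    rw [hcon.1, hcon.2] at hd
    simp at hd

theorem convex_pow (m n : ℕ) : Convex ℝ {t : ℂ | ‖(0 : ℂ) ^ m * t ^ n‖ < 1} := by
  by_cases hm : m = 0
  · subst hm
    by_cases hn : n = 0
    · subst hn
      simp [convex_empty]
    · have h : {t : ℂ | ‖(0 : ℂ) ^ 0 * t ^ n‖ < 1} = Metric.ball 0 1 := by
        ext t
        rw [Set.mem_ofPred_eq, pow_zero, one_mul, norm_pow, mem_ball_zero_iff]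
        exact pow_lt_one_iff_of_nonneg (norm_nonneg _) hn
      rw [h]
      exact convex_ball (0 : ℂ) 1
  · have h : {t : ℂ | ‖(0 : ℂ) ^ m * t ^ n‖ < 1} = Set.univ := by
      ext t
      simp [zero_pow hm]
    rw [h]
    exact convex_univ

theorem conn_Dm₁ : IsPreconnected {t : ℂ | ((0 : ℂ), t) ∈ Dm w w'} := ((convex_pow w.1 w'.1).inter (convex_pow w.2 w'.2)).isPreconnected

theorem conn_Dm₂ : IsPreconnected {s : ℂ | (s, (0 : ℂ)) ∈ Dm w w'} := by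
  have h : {s : ℂ | (s, (0 : ℂ)) ∈ Dm w w'} = {s : ℂ | ‖(0 : ℂ) ^ w'.1 * s ^ w.1‖ < 1} ∩ {s : ℂ | ‖(0 : ℂ) ^ w'.2 * s ^ w.2‖ < 1} := by
    ext s
    unfold Dm
    simp only [Set.mem_inter_iff, Set.mem_ofPred_eq]
    rw [mul_comm (s ^ w.1), mul_comm (s ^ w.2)]
  rw [h]
  exact ((convex_pow w'.1 w.1).inter (convex_pow w'.2 w.2)).isPreconnected

/-- shift of the linear map -/
theorem ln_per (P : ℂ × ℂ) (m n : ℤ) : ln w w' (P + per m n) = ln w w' P + per (m * w.1 + n * w'.1) (m * w.2 + n * w'.2) := by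
  unfold ln per
  refine Prod.ext ?_ ?_ <;>
  · simp only [Prod.fst_add, Prod.snd_add]
    push_cast
    ring

theorem per_zsmul {S : ℂ × ℂ → ℂ} {c : ℤ × ℤ} (h : ∀ v ∈ HH, S (v + per c.1 c.2) = S v) (m : ℤ) : ∀ v ∈ HH, S (v + per (m * c.1) (m * c.2)) = S v := by
  induction m with
  | zero =>
    intro v _
    rw [zero_mul, zero_mul, per_zero, add_zero]
  | succ n ih =>
    intro v hv
    have h1 : v + per (((n : ℤ) + 1) * c.1) (((n : ℤ) + 1) * c.2) = v + per (n * c.1) (n * c.2) + per c.1 c.2 := by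
      rw [add_assoc, ← per_add]
      congr 2 <;> ring
    rw [h1, h _ (HH_add_per hv _ _), ih v hv]
  | pred n ih =>
    intro v hv
    have h1 := h _ (HH_add_per hv ((-(n : ℤ) - 1) * c.1) ((-(n : ℤ) - 1) * c.2))
    have h2 : v + per ((-(n : ℤ) - 1) * c.1) ((-(n : ℤ) - 1) * c.2) + per c.1 c.2 = v + per (-(n : ℤ) * c.1) (-(n : ℤ) * c.2) := by
      rw [add_assoc, ← per_add]
      congr 2 <;> ring
    rw [h2, ih v hv] at h1
    exact h1.symm

/-- **Functions of the sheet in the chart.** -/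
theorem exists_pull {S : ℂ × ℂ → ℂ} (hS : ∀ v ∈ HH, AnalyticAt ℂ S v) (h1 : ∀ v ∈ HH, S (v + per w.1 w.2) = S v)
    (h2 : ∀ v ∈ HH, S (v + per w'.1 w'.2) = S v) {C : ℝ} (hC : ∀ v ∈ HH, ‖S v‖ ≤ C) :
    ∃ B : ℂ × ℂ → ℂ, (∀ q ∈ Dm w w', AnalyticAt ℂ B q) ∧ ∀ P, ln w w' P ∈ HH → B (pexp P) = S (ln w w' P) := by
  have hinv : ∀ P, ln w w' P ∈ HH → ∀ m n : ℤ, S (ln w w' (P + per m n)) = S (ln w w' P) := by
    intro P hP m n
    have h3 := per_zsmul (c := ((w.1 : ℤ), (w.2 : ℤ))) h1 m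
    have h4 := per_zsmul (c := ((w'.1 : ℤ), (w'.2 : ℤ))) h2 n
    rw [ln_per, per_add, ← add_assoc, h4 _ (HH_add_per hP _ _), h3 _ hP]
  set B0 : ℂ × ℂ → ℂ := fun q => S (ln w w' (Complex.log q.1, Complex.log q.2)) with hB0
  have hval : ∀ P, ln w w' P ∈ HH → B0 (pexp P) = S (ln w w' P) := by
    intro P hP
    obtain ⟨m, n, hmn⟩ := exists_per (v := P) (v' := (Complex.log (pexp P).1, Complex.log (pexp P).2))
      (Complex.exp_log (Complex.exp_ne_zero _)) (Complex.exp_log (Complex.exp_ne_zero _))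
    show S (ln w w' (Complex.log (pexp P).1, Complex.log (pexp P).2)) = _
    rw [hmn, hinv P hP]
  have hlog : ∀ q ∈ Dm w w', q.1 * q.2 ≠ 0 → pexp (Complex.log q.1, Complex.log q.2) = q := fun q _ h0 =>
    Prod.ext (Complex.exp_log (left_ne_zero_of_mul h0)) (Complex.exp_log (right_ne_zero_of_mul h0))
  obtain ⟨B, hB1, hB2⟩ := exists_ext (U := Dm w w') (B := B0) (C := C) isOpen_Dm (fun q₀ hq₀ h0 => by
    have h01 := left_ne_zero_of_mul h0
    have h02 := right_ne_zero_of_mul h0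
    have hl1 : AnalyticAt ℂ (fun p : ℂ × ℂ => Complex.log (p.1 / q₀.1) + Complex.log q₀.1) q₀ := by
      have hs : q₀.1 / q₀.1 ∈ Complex.slitPlane := by rw [div_self h01]; exact Complex.one_mem_slitPlane
      exact ((analyticAt_fst.div_const).clog hs).add analyticAt_const
    have hl2 : AnalyticAt ℂ (fun p : ℂ × ℂ => Complex.log (p.2 / q₀.2) + Complex.log q₀.2) q₀ := by
      have hs : q₀.2 / q₀.2 ∈ Complex.slitPlane := by rw [div_self h02]; exact Complex.one_mem_slitPlane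
      exact ((analyticAt_snd.div_const).clog hs).add analyticAt_const
    have hl := hl1.prod hl2
    have hln : AnalyticAt ℂ (fun p : ℂ × ℂ => ln w w' (Complex.log (p.1 / q₀.1) + Complex.log q₀.1, Complex.log (p.2 / q₀.2) + Complex.log q₀.2)) q₀ :=
      ((hl1.mul analyticAt_const).add (hl2.mul analyticAt_const)).prod ((hl1.mul analyticAt_const).add (hl2.mul analyticAt_const))
    have hexp : ∀ q : ℂ × ℂ, q.1 ≠ 0 → q.2 ≠ 0 → pexp (Complex.log (q.1 / q₀.1) + Complex.log q₀.1, Complex.log (q.2 / q₀.2) + Complex.log q₀.2) = q := by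
      intro q g1 g2
      refine Prod.ext ?_ ?_
      · show Complex.exp (Complex.log (q.1 / q₀.1) + Complex.log q₀.1) = q.1
        rw [Complex.exp_add, Complex.exp_log (div_ne_zero g1 h01), Complex.exp_log h01, div_mul_cancel₀ _ h01]
      · show Complex.exp (Complex.log (q.2 / q₀.2) + Complex.log q₀.2) = q.2
        rw [Complex.exp_add, Complex.exp_log (div_ne_zero g2 h02), Complex.exp_log h02, div_mul_cancel₀ _ h02]
    have hmem : ln w w' (Complex.log (q₀.1 / q₀.1) + Complex.log q₀.1, Complex.log (q₀.2 / q₀.2) + Complex.log q₀.2) ∈ HH := by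
      rw [ln_mem_iff, hexp q₀ h01 h02]
      exact hq₀
    have hcomp : AnalyticAt ℂ (fun p : ℂ × ℂ => S (ln w w' (Complex.log (p.1 / q₀.1) + Complex.log q₀.1, Complex.log (p.2 / q₀.2) + Complex.log q₀.2))) q₀ :=
      AnalyticAt.fun_comp (g := S)
        (f := fun p : ℂ × ℂ => ln w w' (Complex.log (p.1 / q₀.1) + Complex.log q₀.1, Complex.log (p.2 / q₀.2) + Complex.log q₀.2)) (hS _ hmem) hln
    refine hcomp.congr ?_
    filter_upwards [isOpen_Dm.mem_nhds hq₀, continuous_fst.continuousAt.eventually_ne h01, continuous_snd.continuousAt.eventually_ne h02] with q g1 g2 g3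
    have h3 := hval (Complex.log (q.1 / q₀.1) + Complex.log q₀.1, Complex.log (q.2 / q₀.2) + Complex.log q₀.2) (by
      rw [ln_mem_iff, hexp q g2 g3]
      exact g1)
    rw [hexp q g2 g3] at h3
    exact h3.symm) (fun q hq h0 => by
    have h3 := hval (Complex.log q.1, Complex.log q.2) (by rw [ln_mem_iff, hlog q hq h0]; exact hq)
    rw [hlog q hq h0] at h3
    rw [h3]
    exact hC _ (by rw [ln_mem_iff, hlog q hq h0]; exact hq))
  exact ⟨B, hB1, fun P hP => by rw [hB2 _ ((ln_mem_iff P).1 hP) (pexp_off P), hval P hP]⟩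

theorem Basis.per₁ (hB : Basis a b k w w') (h : WebBox p T a b) {v : ℂ × ℂ} (hv : v ∈ HH) : T k (v + per w.1 w.2) = T k v := by
  rw [h.mon k hv, hB.mem]

theorem Basis.per₂ (hB : Basis a b k w w') (h : WebBox p T a b) {v : ℂ × ℂ} (hv : v ∈ HH) : T k (v + per w'.1 w'.2) = T k v := by
  rw [h.mon k hv, hB.mem']

theorem pexp_per (v : ℂ × ℂ) (m n : ℤ) : pexp (v + per m n) = pexp v := Prod.ext (exp_per₁ v m n) (exp_per₂ v m n)

theorem analyticAt_pexp (v : ℂ × ℂ) : AnalyticAt ℂ pexp v := by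
  unfold pexp
  exact (analyticAt_fst.cexp).prod (analyticAt_snd.cexp)

theorem analyticAt_mono (q : ℂ × ℂ) : AnalyticAt ℂ (mono w w') q :=
  ((analyticAt_fst.pow _).mul (analyticAt_snd.pow _)).prod ((analyticAt_fst.pow _).mul (analyticAt_snd.pow _))

theorem fderiv_mono (q u : ℂ × ℂ) : fderiv ℂ (mono w w') q u =
    (w.1 * q.1 ^ (w.1 - 1) * q.2 ^ w'.1 * u.1 + w'.1 * q.1 ^ w.1 * q.2 ^ (w'.1 - 1) * u.2,
      w.2 * q.1 ^ (w.2 - 1) * q.2 ^ w'.2 * u.1 + w'.2 * q.1 ^ w.2 * q.2 ^ (w'.2 - 1) * u.2) :=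
  fderiv_mchart w.1 w'.1 w.2 w'.2 q u

/-- the Jacobian of the monomial chart -/
theorem jac_mono (q : ℂ × ℂ) : q.1 * q.2 * ((fderiv ℂ (mono w w') q (1, 0)).1 * (fderiv ℂ (mono w w') q (0, 1)).2 -
    (fderiv ℂ (mono w w') q (1, 0)).2 * (fderiv ℂ (mono w w') q (0, 1)).1) = dt w w' * (mono w w' q).1 * (mono w w' q).2 := by
  have hp : ∀ (n : ℕ) (z : ℂ), (n : ℂ) * z ^ (n - 1) * z = n * z ^ n := by
    intro n z
    rcases n with _ | n
    · simp
    · rw [Nat.add_sub_cancel, pow_succ]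
      ring
  rw [fderiv_mono, fderiv_mono, dt_cast]
  unfold mono
  simp only [mul_one, mul_zero, add_zero, zero_add]
  linear_combination (hp w.1 q.1) * (q.2 ^ w'.1) * (w'.2 * q.1 ^ w.2 * q.2 ^ (w'.2 - 1) * q.2)
    + (w.1 * q.1 ^ w.1 * q.2 ^ w'.1 * q.1 ^ w.2) * (hp w'.2 q.2)
    - (hp w.2 q.1) * (q.2 ^ w'.2) * (w'.1 * q.1 ^ w.1 * q.2 ^ (w'.1 - 1) * q.2)
    - (w.2 * q.1 ^ w.2 * q.2 ^ w'.2 * q.1 ^ w.1) * (hp w'.1 q.2)

theorem jac_mono_ne (hd : dt w w' ≠ 0) {q : ℂ × ℂ} (h0 : q.1 * q.2 ≠ 0) : (fderiv ℂ (mono w w') q (1, 0)).1 * (fderiv ℂ (mono w w') q (0, 1)).2 -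
    (fderiv ℂ (mono w w') q (1, 0)).2 * (fderiv ℂ (mono w w') q (0, 1)).1 ≠ 0 := by
  intro h
  have h1 := jac_mono (w := w) (w' := w') q
  rw [h, mul_zero] at h1
  have h2 : ((dt w w' : ℤ) : ℂ) ≠ 0 := by exact_mod_cast hd
  have h3 := left_ne_zero_of_mul h0
  have h4 := right_ne_zero_of_mul h0
  refine (mul_ne_zero (mul_ne_zero h2 ?_) ?_) h1.symm
  · exact mul_ne_zero (pow_ne_zero _ h3) (pow_ne_zero _ h4)
  · exact mul_ne_zero (pow_ne_zero _ h3) (pow_ne_zero _ h4)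

/-- **The foliation of a sheet in a monomial chart.** -/
theorem exists_field (h : WebBox p T a b) (hB : Basis a b k w w') {F : ℂ × ℂ → ℂ} {V₁ V₂ : ℂ × ℂ → ℂ × ℂ} (hF : ∀ x ∈ DD, AnalyticAt ℂ F x)
    (hV₁ : ∀ x ∈ DD, AnalyticAt ℂ V₁ x) (hV₂ : ∀ x ∈ DD, AnalyticAt ℂ V₂ x) (hF0 : ∀ x ∈ DS, F x ≠ 0)
    (hδ : ∀ x ∈ DS, (V₁ x).1 * (V₂ x).2 - (V₁ x).2 * (V₂ x).1 ≠ 0) {C : ℝ} (hC : ∀ v ∈ HH, ‖F (pexp v) * T k v‖ ≤ C) :
    ∃ (i j : ℕ) (X : ℂ × ℂ → ℂ × ℂ), (∀ q ∈ Dm w w', AnalyticAt ℂ X q) ∧ (∀ q ∈ Dm w w', ∀ᶠ q' in 𝓝 q, q' ≠ q → X q' ≠ 0) ∧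
      ∀ P, ln w w' P ∈ HH → ∀ u : ℂ × ℂ,
        F (pexp (ln w w' P)) * ((V₁ (pexp (ln w w' P)) + T k (ln w w' P) • V₂ (pexp (ln w w' P))).1 * (fderiv ℂ (mono w w') (pexp P) u).2 -
          (V₁ (pexp (ln w w' P)) + T k (ln w w' P) • V₂ (pexp (ln w w' P))).2 * (fderiv ℂ (mono w w') (pexp P) u).1) =
        (pexp P).1 ^ i * (pexp P).2 ^ j * ((X (pexp P)).1 * u.2 - (X (pexp P)).2 * u.1) := by
  obtain ⟨B, hB1, hB2⟩ := exists_pull (w := w) (w' := w') (S := fun v => F (pexp v) * T k v) (fun v hv =>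
    ((hF _ ((mem_HH_iff v).1 hv)).fun_comp (analyticAt_pexp v)).fun_mul (h.an k v hv)) (fun v hv => by rw [pexp_per, hB.per₁ h hv])
    (fun v hv => by rw [pexp_per, hB.per₂ h hv]) hC
  -- the direction field upstairs
  set D : ℂ × ℂ → ℂ × ℂ := fun q => F (mono w w' q) • V₁ (mono w w' q) + B q • V₂ (mono w w' q) with hD
  have hDa : ∀ q ∈ Dm w w', AnalyticAt ℂ D q := by
    intro q hq
    have h1 := analyticAt_mono (w := w) (w' := w') q
    exact (((hF _ hq).fun_comp h1).fun_smul ((hV₁ _ hq).fun_comp h1)).fun_add ((hB1 q hq).fun_smul ((hV₂ _ hq).fun_comp h1))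
  have hlift : ∀ q ∈ Dm w w', q.1 * q.2 ≠ 0 → ∃ P, pexp P = q ∧ ln w w' P ∈ HH := by
    intro q hq h0
    have h3 : pexp (Complex.log q.1, Complex.log q.2) = q := Prod.ext (Complex.exp_log (left_ne_zero_of_mul h0)) (Complex.exp_log (right_ne_zero_of_mul h0))
    exact ⟨_, h3, by rw [ln_mem_iff, h3]; exact hq⟩
  have hDP : ∀ P, ln w w' P ∈ HH → D (pexp P) = F (pexp (ln w w' P)) • (V₁ (pexp (ln w w' P)) + T k (ln w w' P) • V₂ (pexp (ln w w' P))) := by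
    intro P hP
    rw [hD]
    simp only
    rw [hB2 P hP, ← pexp_ln, smul_add, smul_smul]
  have hDne : ∀ q ∈ Dm w w', q.1 * q.2 ≠ 0 → (D q).1 ≠ 0 ∨ (D q).2 ≠ 0 := by
    intro q hq h0
    obtain ⟨P, rfl, hP⟩ := hlift q hq h0
    rw [hDP P hP]
    have hx : pexp (ln w w' P) ∈ DS := pexp_mem hP
    have h1 := hF0 _ hx
    have h2 := hδ _ hx
    by_contra hcon
    push Not at hcon
    simp only [Prod.smul_fst, Prod.smul_snd, Prod.fst_add, Prod.snd_add, smul_eq_mul] at hcon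
    have h3 := (mul_eq_zero.1 hcon.1).resolve_left h1
    have h4 := (mul_eq_zero.1 hcon.2).resolve_left h1
    apply h2
    linear_combination (V₂ (pexp (ln w w' P))).2 * h3 - (V₂ (pexp (ln w w' P))).1 * h4
  -- the pulled back form
  obtain ⟨i, j, v, hv1, hv2, hv3⟩ := exists_sat_global isOpen_Dm (zero_mem_Dm hB.det) conn_Dm₁ conn_Dm₂
    (c := fun q => (pb (fun q => (D q).1) (fun q => (D q).2) (mono w w') q (0, 1), -pb (fun q => (D q).1) (fun q => (D q).2) (mono w w') q (1, 0)))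
    (fun q hq => by
      have h1 := analyticAt_pb (A := fun q => (D q).1) (B := fun q => (D q).2) (φ := mono w w') (analyticAt_fst.fun_comp (hDa q hq))
        (analyticAt_snd.fun_comp (hDa q hq)) (analyticAt_mono q)
      exact (h1 (0, 1)).prod (h1 (1, 0)).fun_neg) (fun q hq h0 h1 => by
      rcases pb_ne (A := fun q => (D q).1) (B := fun q => (D q).2) (hDne q hq h0) (jac_mono_ne hB.det h0) with h2 | h2
      · exact h2 (neg_eq_zero.1 (congrArg Prod.snd h1))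
      · exact h2 (congrArg Prod.fst h1))
  refine ⟨i, j, v, hv1, hv3, fun P hP u => ?_⟩
  have hq := (ln_mem_iff P).1 hP
  have h1 := hv2 _ hq
  have h2 := congrArg Prod.fst h1
  have h3 := congrArg Prod.snd h1
  simp only [Prod.smul_fst, Prod.smul_snd, smul_eq_mul] at h2 h3
  have h4 := pb_add_smul (fun q => (D q).1) (fun q => (D q).2) (mono w w') (pexp P) u
  have h5 : pb (fun q => (D q).1) (fun q => (D q).2) (mono w w') (pexp P) u = F (pexp (ln w w' P)) *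
      ((V₁ (pexp (ln w w' P)) + T k (ln w w' P) • V₂ (pexp (ln w w' P))).1 * (fderiv ℂ (mono w w') (pexp P) u).2 -
          (V₁ (pexp (ln w w' P)) + T k (ln w w' P) • V₂ (pexp (ln w w' P))).2 * (fderiv ℂ (mono w w') (pexp P) u).1) := by
    unfold pb
    simp only [hDP P hP, Prod.smul_fst, Prod.smul_snd, smul_eq_mul]
    ring
  rw [← h5, h4, h2]
  linear_combination (-u.1) * h3

end Pool.Agent.MQ3

end
end
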