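import Pool.Agent.H94.G6.M01
import Pool.Agent.H94.G6.M14
import Pool.Agent.H94.G6.M19
import Pool.Agent.H94.G6.M33

/-! The parts of this file: MQ.SNTube, MQ2.EquP, MQ2.Hart, SB.Api, SG.RDef, SG.Sec. -/

section

/-!
# MQ/SNTube: saddle-nodes, estimates in a thin tube around the formal weak separatrix

The constant does not depend on the order `N` of the contact.
-/

set_option autoImplicit false

open Topology Filter Asymptotics Complex Set ComplexConjugate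

noncomputable section

namespace Pool.Agent.MQ

/-- the potential -/
def pot (α : ℕ → ℂ) (k : ℕ) (x : ℂ) : ℂ := PP α k x / x ^ k

/-- the square of the modulus of the potential, scaled -/
def scl (α : ℕ → ℂ) (k : ℕ) (ρ : ℝ) : ℝ := ρ ^ (2 * k) / ‖PP α k 0‖ ^ 2

theorem small_pow {C : ℝ} {n : ℕ} (hn : 1 ≤ n) {m : ℝ} (hm : 0 < m) : ∀ᶠ ρ in 𝓝[>] (0 : ℝ), C * ρ ^ n ≤ m := by
  have h : Tendsto (fun ρ : ℝ => C * ρ ^ n) (𝓝 0) (𝓝 0) := by
    have hc : Continuous (fun ρ : ℝ => C * ρ ^ n) := by fun_prop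
    have := hc.tendsto 0
    simpa [zero_pow (by omega : n ≠ 0)] using this
  have h2 : ∀ᶠ ρ in 𝓝 (0 : ℝ), C * ρ ^ n < m := h (Iio_mem_nhds hm)
  filter_upwards [h2.filter_mono nhdsWithin_le_nhds] with ρ hρ using le_of_lt hρ

theorem pow_isBigO {m n : ℕ} (h : m ≤ n) : (fun x : ℂ => x ^ n) =O[𝓝 0] fun x : ℂ => x ^ m := by
  refine IsBigO.of_bound 1 ?_
  have h1 : ∀ᶠ x : ℂ in 𝓝 0, ‖x‖ < 1 := by
    filter_upwards [Metric.ball_mem_nhds (0 : ℂ) one_pos] with x hx using by simpa using hx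
  filter_upwards [h1] with x hx
  rw [norm_pow, norm_pow, one_mul]
  exact pow_le_pow_of_le_one (norm_nonneg _) hx.le h

theorem jet_sub_isBigO (c : ℕ → ℂ) {k J : ℕ} (hkJ : k ≤ J) : (fun x : ℂ => jet c J x - jet c k x) =O[𝓝 0] fun x : ℂ => x ^ (k + 1) := by
  induction J, hkJ using Nat.le_induction with
  | base => simpa using isBigO_zero _ _
  | succ n hn ih =>
    have e : (fun x : ℂ => jet c (n + 1) x - jet c k x) = fun x => (jet c n x - jet c k x) + c (n + 1) * x ^ (n + 1) := by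
      funext x
      rw [jet, Finset.sum_range_succ, ← jet]
      ring
    rw [e]
    refine ih.add ?_
    have h1 : (fun x : ℂ => x ^ (n + 1)) =O[𝓝 0] fun x : ℂ => x ^ (k + 1) := pow_isBigO (by omega)
    exact h1.const_mul_left _

/-- the position of the shell -/
theorem scl_pos {α : ℕ → ℂ} {k : ℕ} (hk : 1 ≤ k) (h0 : α 0 ≠ 0) (r : ℝ) : ∀ᶠ ρ in 𝓝[>] (0 : ℝ), ∀ x : ℂ, ‖x‖ ≤ r →
    1 ≤ scl α k ρ * ‖pot α k x‖ ^ 2 → ‖x‖ ≤ 2 * ρ ∧ (scl α k ρ * ‖pot α k x‖ ^ 2 ≤ 2 → ρ / 2 ≤ ‖x‖) := by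
  have hP0 : 0 < ‖PP α k 0‖ := norm_pos_iff.2 (PP_zero hk h0)
  have hPc : Continuous (PP α k) := (PP_differentiable α k).continuous
  obtain ⟨B, hB⟩ := (isCompact_closedBall (0 : ℂ) r).bddAbove_image (f := fun x => ‖PP α k x‖) hPc.norm.continuousOn
  set B' := max B ‖PP α k 0‖ with hB'
  have hB'0 : 0 < B' := lt_of_lt_of_le hP0 (le_max_right _ _)
  have h1 : ∀ᶠ x in 𝓝 (0 : ℂ), ‖PP α k 0‖ / (4 / 3) < ‖PP α k x‖ ∧ ‖PP α k x‖ < 2 * ‖PP α k 0‖ := by
    have ht : Tendsto (fun x => ‖PP α k x‖) (𝓝 0) (𝓝 ‖PP α k 0‖) := hPc.norm.tendsto 0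
    exact (ht.eventually (lt_mem_nhds (by rw [div_lt_iff₀ (by norm_num)]; linarith))).and (ht.eventually (gt_mem_nhds (by linarith)))
  obtain ⟨r1, hr1, h1'⟩ := Metric.eventually_nhds_iff_ball.1 h1
  have h2 : ∀ᶠ ρ in 𝓝[>] (0 : ℝ), (B' / ‖PP α k 0‖) * ρ ^ k ≤ (r1 / 2) ^ k := small_pow hk (by positivity)
  filter_upwards [h2, self_mem_nhdsWithin] with ρ hρ hρ0 x hx hs
  have hρ0' : 0 < ρ := hρ0
  have hx0 : x ≠ 0 := by
    rintro rfl
    have : pot α k 0 = 0 := by simp [pot, zero_pow (by omega : k ≠ 0)]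
    rw [this] at hs
    simp at hs
    linarith
  have hxp : 0 < ‖x‖ := norm_pos_iff.2 hx0
  have hxk : 0 < ‖x‖ ^ k := by positivity
  have e1 : scl α k ρ * ‖pot α k x‖ ^ 2 = (ρ ^ k * ‖PP α k x‖ / (‖PP α k 0‖ * ‖x‖ ^ k)) ^ 2 := by
    rw [scl, pot, norm_div, norm_pow]
    field_simp
    ring
  rw [e1] at hs ⊢
  have hq0 : 0 ≤ ρ ^ k * ‖PP α k x‖ / (‖PP α k 0‖ * ‖x‖ ^ k) := by positivity
  have hq1 : 1 ≤ ρ ^ k * ‖PP α k x‖ / (‖PP α k 0‖ * ‖x‖ ^ k) := by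
    by_contra h
    push Not at h
    have : (ρ ^ k * ‖PP α k x‖ / (‖PP α k 0‖ * ‖x‖ ^ k)) ^ 2 < 1 := by nlinarith
    linarith
  rw [le_div_iff₀ (by positivity), one_mul] at hq1
  have hPx : ‖PP α k x‖ ≤ B' := (hB ⟨x, by simpa using hx, rfl⟩).trans (le_max_left _ _)
  have hxr : ‖x‖ < r1 := by
    have h3 : ‖x‖ ^ k ≤ (r1 / 2) ^ k := by
      refine le_trans ?_ hρ
      rw [div_mul_eq_mul_div, le_div_iff₀ hP0]
      calc ‖x‖ ^ k * ‖PP α k 0‖ = ‖PP α k 0‖ * ‖x‖ ^ k := mul_comm _ _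
        _ ≤ ρ ^ k * ‖PP α k x‖ := hq1
        _ ≤ ρ ^ k * B' := mul_le_mul_of_nonneg_left hPx (by positivity)
        _ = B' * ρ ^ k := mul_comm _ _
    have h4 : ‖x‖ ≤ r1 / 2 := le_of_pow_le_pow_left₀ (by omega) (by positivity) h3
    linarith
  obtain ⟨g1, g2⟩ := h1' x (by simpa using hxr)
  constructor
  · have h3 : ‖x‖ ^ k ≤ (2 * ρ) ^ k := by
      have h4 : ‖PP α k 0‖ * ‖x‖ ^ k ≤ ‖PP α k 0‖ * (2 * ρ ^ k) := by
        calc ‖PP α k 0‖ * ‖x‖ ^ k ≤ ρ ^ k * ‖PP α k x‖ := hq1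
          _ ≤ ρ ^ k * (2 * ‖PP α k 0‖) := mul_le_mul_of_nonneg_left g2.le (by positivity)
          _ = _ := by ring
      have h5 : ‖x‖ ^ k ≤ 2 * ρ ^ k := le_of_mul_le_mul_left h4 hP0
      refine h5.trans ?_
      rw [mul_pow]
      have h6 : (2 : ℝ) ≤ 2 ^ k := by
        calc (2 : ℝ) = 2 ^ 1 := (pow_one _).symm
          _ ≤ 2 ^ k := pow_le_pow_right₀ one_le_two hk
      exact mul_le_mul_of_nonneg_right h6 (by positivity)
    exact le_of_pow_le_pow_left₀ (by omega) (by positivity) h3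
  · intro hs2
    have h3 : (ρ / 2) ^ k ≤ ‖x‖ ^ k := by
      by_contra h
      push Not at h
      have h4 : ‖x‖ ^ k < ρ ^ k / 2 := by
        refine h.trans_le ?_
        rw [div_pow]
        have h6 : (2 : ℝ) ≤ 2 ^ k := by
          calc (2 : ℝ) = 2 ^ 1 := (pow_one _).symm
            _ ≤ 2 ^ k := pow_le_pow_right₀ one_le_two hk
        exact div_le_div_of_nonneg_left (by positivity) (by norm_num) h6
      have h5 : 3 / 2 < ρ ^ k * ‖PP α k x‖ / (‖PP α k 0‖ * ‖x‖ ^ k) := by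
        rw [lt_div_iff₀ (by positivity)]
        have h7 : ‖PP α k 0‖ < ‖PP α k x‖ * (4 / 3) := by
          rwa [div_lt_iff₀ (by norm_num)] at g1
        have h8 : ‖PP α k 0‖ * ‖x‖ ^ k < ‖PP α k 0‖ * (ρ ^ k / 2) := mul_lt_mul_of_pos_left h4 hP0
        have h9 : ρ ^ k * ‖PP α k 0‖ < ρ ^ k * (‖PP α k x‖ * (4 / 3)) := mul_lt_mul_of_pos_left h7 (by positivity)
        nlinarith
      nlinarith
    exact le_of_pow_le_pow_left₀ (by omega) (by positivity) h3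

theorem re_conj_nonneg {A B : ℂ} (h : ‖A - B‖ ≤ ‖B‖) : 0 ≤ (conj A * B).re := by
  have e : (conj A * B).re = ‖B‖ ^ 2 + (conj (A - B) * B).re := by
    rw [Complex.sq_norm, Complex.normSq_apply]
    simp only [mul_re, conj_re, conj_im, map_sub, sub_re, sub_im]
    ring
  have h1 : |(conj (A - B) * B).re| ≤ ‖B‖ * ‖B‖ := by
    refine (Complex.abs_re_le_norm _).trans ?_
    rw [norm_mul, RCLike.norm_conj]
    exact mul_le_mul_of_nonneg_right h (norm_nonneg _)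
  have h2 := neg_abs_le (conj (A - B) * B).re
  rw [e]
  nlinarith

/-- **The estimates in the tube.** -/
theorem sn_tube {k : ℕ} (hk : 1 ≤ k) {a b : ℂ × ℂ → ℂ} (ha : AnalyticAt ℂ a 0) (hb : AnalyticAt ℂ b 0) (ha0 : a 0 ≠ 0)
    (hb0 : fderiv ℂ b 0 (0, 1) ≠ 0) {c : ℕ → ℂ} (hc : c 0 = 0)
    (hJ : ∀ J, (fun t => b (t, jet c J t) - deriv (jet c J) t * (t ^ (k + 1) * a (t, jet c J t))) =O[𝓝 0] fun t : ℂ => t ^ (J + 1)) (ε : ℂ) :
    ∃ (C : ℝ) (α : ℕ → ℂ), 0 < C ∧ α 0 ≠ 0 ∧ ∀ N : ℕ, ∀ᶠ ρ in 𝓝[>] (0 : ℝ), ∀ p : ℂ × ℂ, ‖p.1‖ ≤ 2 * ρ →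
      ‖p.2 - jet c (N + 3 * k + 3) p.1‖ ≤ ρ ^ (N + 2 * k + 2) →
      (ρ / 2 ≤ ‖p.1‖ → ∀ w : ℂ, ‖dlt k a b ε p * w - DD α k p.1 * a p * w‖ ≤ C * ‖(pot α k p.1)⁻¹‖ * ‖DD α k p.1 * a p * w‖ ∧
        ‖DD α k p.1 * a p * w * (pot α k p.1)⁻¹‖ ≤ C * ‖p.1 ^ k * a p * w‖) ∧
      (ρ ^ (N + 2 * k + 2) ≤ 2 * ‖p.2 - jet c (N + 3 * k + 3) p.1‖ → ρ / 2 ≤ ‖p.1‖ → ∀ w : ℂ,
        ‖yv k a b c (N + 3 * k + 3) p / (p.2 - jet c (N + 3 * k + 3) p.1) * w - DD α k p.1 * a p * w‖ ≤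
          C * ‖(pot α k p.1)⁻¹‖ * ‖DD α k p.1 * a p * w‖) ∧
      (ρ ^ (N + 2 * k + 2) ≤ 2 * ‖p.2 - jet c (N + 3 * k + 3) p.1‖ → ∀ w : ℂ,
        0 ≤ (conj (yv k a b c (N + 3 * k + 3) p / (p.2 - jet c (N + 3 * k + 3) p.1) * w) * (dlt k a b ε p * w)).re) := by
  obtain ⟨C1, α, hC1, hα, h1⟩ := sn_est1 hk ha hb ha0 hb0 hc ε
  obtain ⟨C2, hC2, h2⟩ := sn_est2 (k := k) ha hb hc ε
  have hδ : ContinuousAt (dlt k a b ε) 0 := by
    unfold dlt
    have hda : ContinuousAt (fun p => fderiv ℂ a p (1, 0)) 0 := (an_fderiv_apply ha _).continuousAt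
    have hdb : ContinuousAt (fun p => fderiv ℂ b p (0, 1)) 0 := (an_fderiv_apply hb _).continuousAt
    exact (((continuousAt_const).mul ((continuousAt_fst.pow k).mul ha.continuousAt)).add ((continuousAt_fst.pow (k + 1)).mul hda)).add hdb
  have hδ0 : dlt k a b ε 0 ≠ 0 := by
    unfold dlt
    simpa [zero_pow (by omega : k ≠ 0)] using hb0
  set m : ℝ := ‖dlt k a b ε 0‖ / 2 with hm
  have hm0 : 0 < m := half_pos (norm_pos_iff.2 hδ0)
  have hP0 : 0 < ‖PP α k 0‖ := norm_pos_iff.2 (PP_zero hk hα)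
  have h3 : ∀ᶠ p in 𝓝 (0 : ℂ × ℂ), m ≤ ‖dlt k a b ε p‖ := by
    filter_upwards [hδ.norm.eventually (lt_mem_nhds (show m < ‖dlt k a b ε 0‖ by rw [hm]; linarith))] with p hp using hp.le
  have ht1 : Tendsto (fun p : ℂ × ℂ => p.1) (𝓝 0) (𝓝 0) := continuous_fst.tendsto 0
  have h4 : ∀ᶠ p : ℂ × ℂ in 𝓝 0, ‖PP α k 0‖ / 2 ≤ ‖PP α k p.1‖ ∧ ‖PP α k p.1‖ ≤ 2 * ‖PP α k 0‖ ∧ ‖DD α k p.1‖ ≤ ‖DD α k 0‖ + 1 := by
    have e1 : Tendsto (fun x => ‖PP α k x‖) (𝓝 0) (𝓝 ‖PP α k 0‖) := (PP_differentiable α k).continuous.norm.tendsto 0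
    have e2 : Tendsto (fun x => ‖DD α k x‖) (𝓝 0) (𝓝 ‖DD α k 0‖) := (DD_differentiable α k).continuous.norm.tendsto 0
    filter_upwards [ht1.eventually (e1.eventually (lt_mem_nhds (show ‖PP α k 0‖ / 2 < ‖PP α k 0‖ by linarith))),
      ht1.eventually (e1.eventually (gt_mem_nhds (show ‖PP α k 0‖ < 2 * ‖PP α k 0‖ by linarith))),
      ht1.eventually (e2.eventually (gt_mem_nhds (lt_add_one ‖DD α k 0‖)))] with p q1 q2 q3 using ⟨q1.le, q2.le, q3.le⟩
  set Ca : ℝ := C1 * (2 + 2 ^ k) with hCa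
  set Cb : ℝ := C2 * (1 + 2 ^ k) + 1 with hCb
  set κ : ℝ := m / (2 ^ k * 4 * ‖PP α k 0‖) with hκ
  have hκ0 : 0 < κ := by positivity
  have hCa0 : 0 < Ca := by positivity
  have hCb0 : 0 < Cb := by positivity
  refine ⟨(Ca + Cb) / κ + 2 * (‖DD α k 0‖ + 1) / ‖PP α k 0‖, α, by positivity, hα, fun N => ?_⟩
  set J := N + 3 * k + 3 with hJdef
  set n := N + 2 * k + 2 with hn
  obtain ⟨C3, hC3, h5⟩ := (jet_sub_isBigO c (show k ≤ J by omega)).exists_pos
  obtain ⟨C4, hC4, h6⟩ := (hJ J).exists_pos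
  rw [isBigOWith_iff] at h5 h6
  have hU : ∀ᶠ p in 𝓝 (0 : ℂ × ℂ), (‖DD α k p.1 * a p - dlt k a b ε p‖ ≤ C1 * (‖p.2 - jet c k p.1‖ + ‖p.1‖ ^ k)) ∧
      (‖yv k a b c J p - yv k a b c J (p.1, jet c J p.1) - dlt k a b ε p * (p.2 - jet c J p.1)‖ ≤
        C2 * (‖p.2 - jet c J p.1‖ + ‖p.1‖ ^ k) * ‖p.2 - jet c J p.1‖) ∧ m ≤ ‖dlt k a b ε p‖ ∧
      (‖PP α k 0‖ / 2 ≤ ‖PP α k p.1‖ ∧ ‖PP α k p.1‖ ≤ 2 * ‖PP α k 0‖ ∧ ‖DD α k p.1‖ ≤ ‖DD α k 0‖ + 1) ∧
      ‖jet c J p.1 - jet c k p.1‖ ≤ C3 * ‖p.1 ^ (k + 1)‖ ∧ ‖yv k a b c J (p.1, jet c J p.1)‖ ≤ C4 * ‖p.1 ^ (J + 1)‖ :=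
    h1.and ((h2 J).and (h3.and (h4.and ((ht1.eventually h5).and (ht1.eventually h6)))))
  have hT := tube_small hc J (show 1 ≤ n by omega) hU
  have s1 : ∀ᶠ ρ in 𝓝[>] (0 : ℝ), (C3 * 2 ^ (k + 1)) * ρ ^ 1 ≤ 1 := small_pow le_rfl one_pos
  have s2 : ∀ᶠ ρ in 𝓝[>] (0 : ℝ), (C4 * 2 ^ (J + 1)) * ρ ^ 2 ≤ 1 / 2 := small_pow (by norm_num) (by norm_num)
  have s3 : ∀ᶠ ρ in 𝓝[>] (0 : ℝ), Ca * ρ ^ k ≤ m / 2 := small_pow hk (by positivity)
  have s4 : ∀ᶠ ρ in 𝓝[>] (0 : ℝ), Cb * ρ ^ k ≤ m := small_pow hk hm0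
  have s5 : ∀ᶠ ρ in 𝓝[>] (0 : ℝ), ρ < 1 := nhdsWithin_le_nhds (Iio_mem_nhds one_pos)
  filter_upwards [hT, s1, s2, s3, s4, s5, self_mem_nhdsWithin] with ρ hT t1 t2 t3 t4 t5 t6 p hp1 hp2
  have hρ0 : 0 < ρ := t6
  obtain ⟨q1, q2, q3, ⟨q4, q5, q6⟩, q7, q8⟩ := hT p hp1 hp2
  clear hT hU h1 h2 h3 h4 h5 h6
  set x := p.1 with hx
  set Y := p.2 - jet c J x with hY
  have hρk : 0 < ρ ^ k := pow_pos hρ0 k
  have hρn : ρ ^ n ≤ ρ ^ k := pow_le_pow_of_le_one hρ0.le t5.le (by omega)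
  have hxk : ‖x‖ ^ k ≤ 2 ^ k * ρ ^ k := by
    rw [← mul_pow]
    exact pow_le_pow_left₀ (norm_nonneg _) hp1 k
  have e1 : ‖p.2 - jet c k x‖ ≤ 2 * ρ ^ k := by
    have e2 : p.2 - jet c k x = Y + (jet c J x - jet c k x) := by rw [hY]; ring
    rw [e2]
    refine (norm_add_le _ _).trans ?_
    have e3 : C3 * ‖x ^ (k + 1)‖ ≤ ρ ^ k := by
      rw [norm_pow]
      have e4 : ‖x‖ ^ (k + 1) ≤ 2 ^ (k + 1) * ρ ^ (k + 1) := by
        rw [← mul_pow]
        exact pow_le_pow_left₀ (norm_nonneg _) hp1 _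
      calc C3 * ‖x‖ ^ (k + 1) ≤ C3 * (2 ^ (k + 1) * ρ ^ (k + 1)) := mul_le_mul_of_nonneg_left e4 hC3.le
        _ = ((C3 * 2 ^ (k + 1)) * ρ ^ 1) * ρ ^ k := by ring
        _ ≤ 1 * ρ ^ k := mul_le_mul_of_nonneg_right t1 hρk.le
        _ = ρ ^ k := one_mul _
    linarith [q7, hp2]
  have E1 : ‖DD α k x * a p - dlt k a b ε p‖ ≤ Ca * ρ ^ k := by
    refine q1.trans ?_
    calc C1 * (‖p.2 - jet c k x‖ + ‖x‖ ^ k) ≤ C1 * (2 * ρ ^ k + 2 ^ k * ρ ^ k) :=
          mul_le_mul_of_nonneg_left (add_le_add e1 hxk) hC1.le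
      _ = Ca * ρ ^ k := by rw [hCa]; ring
  have E2 : ρ ^ n ≤ 2 * ‖Y‖ → ‖yv k a b c J p - dlt k a b ε p * Y‖ ≤ Cb * ρ ^ k * ‖Y‖ := by
    intro hYn
    have e2 : yv k a b c J p - dlt k a b ε p * Y = (yv k a b c J p - yv k a b c J (x, jet c J x) - dlt k a b ε p * Y) +
      yv k a b c J (x, jet c J x) := by ring
    rw [e2]
    refine (norm_add_le _ _).trans ?_
    have e3 : C4 * ‖x ^ (J + 1)‖ ≤ ρ ^ k * ‖Y‖ := by
      rw [norm_pow]
      have e4 : ‖x‖ ^ (J + 1) ≤ 2 ^ (J + 1) * ρ ^ (J + 1) := by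
        rw [← mul_pow]
        exact pow_le_pow_left₀ (norm_nonneg _) hp1 _
      have e5 : ρ ^ (J + 1) = ρ ^ 2 * (ρ ^ k * ρ ^ n) := by
        rw [← pow_add, ← pow_add]
        congr 1
        omega
      have e6 : 0 < ρ ^ k * ρ ^ n := by positivity
      calc C4 * ‖x‖ ^ (J + 1) ≤ C4 * (2 ^ (J + 1) * ρ ^ (J + 1)) := mul_le_mul_of_nonneg_left e4 hC4.le
        _ = ((C4 * 2 ^ (J + 1)) * ρ ^ 2) * (ρ ^ k * ρ ^ n) := by rw [e5]; ring
        _ ≤ 1 / 2 * (ρ ^ k * ρ ^ n) := mul_le_mul_of_nonneg_right t2 e6.le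
        _ = ρ ^ k * (ρ ^ n / 2) := by ring
        _ ≤ ρ ^ k * ‖Y‖ := mul_le_mul_of_nonneg_left (by linarith) hρk.le
    have e7 : C2 * (‖Y‖ + ‖x‖ ^ k) * ‖Y‖ ≤ C2 * (1 + 2 ^ k) * ρ ^ k * ‖Y‖ := by
      refine mul_le_mul_of_nonneg_right ?_ (norm_nonneg _)
      calc C2 * (‖Y‖ + ‖x‖ ^ k) ≤ C2 * (ρ ^ k + 2 ^ k * ρ ^ k) :=
            mul_le_mul_of_nonneg_left (add_le_add (hp2.trans hρn) hxk) hC2.le
        _ = _ := by ring
    have e8 : Cb * ρ ^ k * ‖Y‖ = C2 * (1 + 2 ^ k) * ρ ^ k * ‖Y‖ + ρ ^ k * ‖Y‖ := by rw [hCb]; ring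
    rw [e8]
    exact add_le_add (q2.trans e7) (q8.trans e3)
  have E3 : m / 2 ≤ ‖DD α k x * a p‖ := by
    have e2 := norm_sub_norm_le (dlt k a b ε p) (dlt k a b ε p - DD α k x * a p)
    rw [sub_sub_cancel, norm_sub_rev] at e2
    linarith
  have E4 : ρ / 2 ≤ ‖x‖ → (ρ / 2) ^ k / (2 * ‖PP α k 0‖) ≤ ‖(pot α k x)⁻¹‖ := by
    intro hxl
    rw [pot, norm_inv, norm_div, norm_pow, inv_div]
    have hPx : 0 < ‖PP α k x‖ := by linarith
    exact div_le_div₀ (by positivity) (pow_le_pow_left₀ (by positivity) hxl k) hPx q5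
  have E5 : ρ / 2 ≤ ‖x‖ → ∀ w : ℂ, κ * (ρ ^ k * ‖w‖) ≤ ‖(pot α k x)⁻¹‖ * ‖DD α k x * a p * w‖ := by
    intro hxl w
    rw [norm_mul (DD α k x * a p)]
    calc κ * (ρ ^ k * ‖w‖) = ((ρ / 2) ^ k / (2 * ‖PP α k 0‖)) * (m / 2 * ‖w‖) := by
          rw [hκ, div_pow]; field_simp; ring
      _ ≤ ‖(pot α k x)⁻¹‖ * (‖DD α k x * a p‖ * ‖w‖) :=
          mul_le_mul (E4 hxl) (mul_le_mul_of_nonneg_right E3 (norm_nonneg _)) (by positivity) (norm_nonneg _)
  have hDP : 0 ≤ 2 * (‖DD α k 0‖ + 1) / ‖PP α k 0‖ := by positivity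
  have hfin : ρ / 2 ≤ ‖x‖ → ∀ w : ℂ, (Ca + Cb) * (ρ ^ k * ‖w‖) ≤
      ((Ca + Cb) / κ + 2 * (‖DD α k 0‖ + 1) / ‖PP α k 0‖) * ‖(pot α k x)⁻¹‖ * ‖DD α k x * a p * w‖ := by
    intro hxl w
    have e2 := E5 hxl w
    have e3 : (Ca + Cb) * (ρ ^ k * ‖w‖) = (Ca + Cb) / κ * (κ * (ρ ^ k * ‖w‖)) := by field_simp
    rw [e3, mul_assoc]
    have e4 : 0 ≤ ‖(pot α k x)⁻¹‖ * ‖DD α k x * a p * w‖ := by positivity
    calc (Ca + Cb) / κ * (κ * (ρ ^ k * ‖w‖)) ≤ (Ca + Cb) / κ * (‖(pot α k x)⁻¹‖ * ‖DD α k x * a p * w‖) :=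
          mul_le_mul_of_nonneg_left e2 (by positivity)
      _ ≤ _ := mul_le_mul_of_nonneg_right (by linarith) e4
  refine ⟨fun hxl w => ⟨?_, ?_⟩, fun hYn hxl w => ?_, fun hYn w => ?_⟩
  · refine le_trans ?_ (hfin hxl w)
    rw [← sub_mul, norm_mul, norm_sub_rev, ← mul_assoc]
    refine mul_le_mul_of_nonneg_right (E1.trans ?_) (norm_nonneg _)
    exact mul_le_mul_of_nonneg_right (by linarith) hρk.le
  · have hPx : 0 < ‖PP α k x‖ := by linarith
    have e2 : ‖DD α k x * a p * w * (pot α k x)⁻¹‖ = ‖DD α k x‖ / ‖PP α k x‖ * ‖x ^ k * a p * w‖ := by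
      rw [pot, inv_div]
      simp only [norm_mul, norm_div, norm_pow]
      field_simp
    rw [e2]
    refine mul_le_mul_of_nonneg_right ?_ (norm_nonneg _)
    have e3 : ‖DD α k x‖ / ‖PP α k x‖ ≤ (‖DD α k 0‖ + 1) / (‖PP α k 0‖ / 2) := div_le_div₀ (by positivity) q6 (by positivity) q4
    have e4 : (‖DD α k 0‖ + 1) / (‖PP α k 0‖ / 2) = 2 * (‖DD α k 0‖ + 1) / ‖PP α k 0‖ := by field_simp
    have e5 : 0 ≤ (Ca + Cb) / κ := by positivity
    linarith
  · refine le_trans ?_ (hfin hxl w)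
    have hYp : 0 < ‖Y‖ := by
      have := pow_pos hρ0 n
      linarith
    have hY0 : Y ≠ 0 := norm_pos_iff.1 hYp
    have e2 : yv k a b c J p / Y * w - DD α k x * a p * w =
      ((yv k a b c J p - dlt k a b ε p * Y) / Y - (DD α k x * a p - dlt k a b ε p)) * w := by
      field_simp
      ring
    rw [e2, norm_mul, ← mul_assoc]
    refine mul_le_mul_of_nonneg_right ((norm_sub_le _ _).trans ?_) (norm_nonneg _)
    have e3 : ‖(yv k a b c J p - dlt k a b ε p * Y) / Y‖ ≤ Cb * ρ ^ k := by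
      rw [norm_div, div_le_iff₀ hYp]
      exact E2 hYn
    linarith
  · have hYp : 0 < ‖Y‖ := by
      have := pow_pos hρ0 n
      linarith
    have hY0 : Y ≠ 0 := norm_pos_iff.1 hYp
    apply re_conj_nonneg
    rw [← sub_mul, norm_mul, norm_mul]
    refine mul_le_mul_of_nonneg_right ?_ (norm_nonneg _)
    have e2 : yv k a b c J p / Y - dlt k a b ε p = (yv k a b c J p - dlt k a b ε p * Y) / Y := by
      field_simp
    rw [e2, norm_div, div_le_iff₀ hYp]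
    refine (E2 hYn).trans ?_
    exact mul_le_mul_of_nonneg_right (t4.trans q3) hYp.le

end Pool.Agent.MQ

end
end

section

/-!
# MQ2 EquP: a family of graphs over the punctured disc has an analytic equation

`equ_poly`: `Z` is near every point of the closed polydisc outside `{x = 0}` empty or a graph, and empty near the points `(0, y)`, `y ≠ 0`: then
`∏ (y - y_i (x))` extends to an analytic function at `0`.  `equ_graph`: the implicit function.
-/

set_option autoImplicit false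

open Topology Filter Metric Polynomial

noncomputable section

namespace Pool.Agent.MQ2

/-! ## the implicit function -/

/-! ## the fibres -/

open Classical in
/-- the fibre of `Z` over `x` in the closed disc of radius `r` -/
def fibE (Z : Set (ℂ × ℂ)) (r : ℝ) (x : ℂ) : Finset ℂ :=
  if h : {y : ℂ | ‖y‖ ≤ r ∧ (x, y) ∈ Z}.Finite then h.toFinset else ∅

/-- near the points over `x` the set is empty or a graph -/
def LocE (Z : Set (ℂ × ℂ)) (r : ℝ) (x : ℂ) : Prop := ∀ y : ℂ, ‖y‖ ≤ r →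
  (∀ᶠ w in 𝓝 (x, y), w ∉ Z) ∨ (‖y‖ < r ∧ ∃ φ : ℂ → ℂ, AnalyticAt ℂ φ x ∧ φ x = y ∧ ∀ᶠ w in 𝓝 (x, y), (w ∈ Z ↔ w.2 = φ w.1))

variable {Z : Set (ℂ × ℂ)} {r : ℝ}

theorem LocE.finite {x : ℂ} (h : LocE Z r x) : {y : ℂ | ‖y‖ ≤ r ∧ (x, y) ∈ Z}.Finite := by
  have hK : IsCompact (closedBall (0 : ℂ) r) := isCompact_closedBall 0 r
  have h1 : (closedBall (0 : ℂ) r ∩ {y | (x, y) ∈ Z}).Finite := by
    refine hK.induction_on (p := fun s => (s ∩ {y | (x, y) ∈ Z}).Finite) ?_ ?_ ?_ ?_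
    · simp
    · intro s t hst ht
      exact ht.subset (Set.inter_subset_inter_left _ hst)
    · intro s t hs ht
      rw [Set.union_inter_distrib_right]
      exact hs.union ht
    · intro y hy
      have hy' : ‖y‖ ≤ r := by simpa using hy
      have hc : Tendsto (fun y' : ℂ => (x, y')) (𝓝 y) (𝓝 (x, y)) := (Continuous.prodMk_right x).tendsto y
      rcases h y hy' with h2 | ⟨-, φ, -, hφ, h2⟩
      · refine ⟨{y' | (x, y') ∉ Z}, mem_nhdsWithin_of_mem_nhds (hc.eventually h2), ?_⟩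
        refine Set.finite_empty.subset ?_
        rintro y' ⟨h3, h4⟩
        exact h3 h4
      · refine ⟨{y' | (x, y') ∈ Z ↔ y' = φ x}, mem_nhdsWithin_of_mem_nhds (hc.eventually h2), ?_⟩
        refine (Set.finite_singleton (φ x)).subset ?_
        rintro y' ⟨h3, h4⟩
        exact h3.1 h4
  refine h1.subset ?_
  rintro y ⟨h2, h3⟩
  exact ⟨by simpa using h2, h3⟩

theorem LocE.mem {x : ℂ} (h : LocE Z r x) {y : ℂ} : y ∈ fibE Z r x ↔ ‖y‖ ≤ r ∧ (x, y) ∈ Z := by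
  unfold fibE
  rw [dif_pos h.finite, Set.Finite.mem_toFinset]
  rfl

/-- the local structure -/
theorem LocE.loc {x₀ : ℂ} (h : LocE Z r x₀) (hn : ∀ᶠ x in 𝓝 x₀, LocE Z r x) :
    ∃ φ : ℂ → ℂ → ℂ, (∀ y ∈ fibE Z r x₀, AnalyticAt ℂ (φ y) x₀) ∧
      ∀ᶠ x in 𝓝 x₀, Set.InjOn (fun y => φ y x) (fibE Z r x₀ : Set ℂ) ∧ fibE Z r x = (fibE Z r x₀).image fun y => φ y x := by
  have h1 : ∀ y, ∃ φ : ℂ → ℂ, y ∈ fibE Z r x₀ → ‖y‖ < r ∧ AnalyticAt ℂ φ x₀ ∧ φ x₀ = y ∧ ∀ᶠ w in 𝓝 (x₀, y), (w ∈ Z ↔ w.2 = φ w.1) := by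
    intro y
    by_cases hy : y ∈ fibE Z r x₀
    · obtain ⟨hy1, hy2⟩ := h.mem.1 hy
      rcases h y hy1 with h2 | ⟨h2, φ, h3, h4, h5⟩
      · exact absurd hy2 h2.self_of_nhds
      · exact ⟨φ, fun _ => ⟨h2, h3, h4, h5⟩⟩
    · exact ⟨0, fun h => absurd h hy⟩
  choose φ hφ using h1
  refine ⟨φ, fun y hy => (hφ y hy).2.1, ?_⟩
  have ha : ∀ᶠ x in 𝓝 x₀, ∀ y ∈ closedBall (0 : ℂ) r, (x, y) ∈ Z → ∃ y₀ ∈ fibE Z r x₀, y = φ y₀ x := by
    refine (isCompact_closedBall (0 : ℂ) r).eventually_forall_of_forall_eventually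
      (P := fun x y => (x, y) ∈ Z → ∃ y₀ ∈ fibE Z r x₀, y = φ y₀ x) ?_
    intro y hy
    have hy' : ‖y‖ ≤ r := by simpa using hy
    by_cases hyF : y ∈ fibE Z r x₀
    · filter_upwards [(hφ y hyF).2.2.2] with w hw hwZ
      exact ⟨y, hyF, hw.1 hwZ⟩
    · rcases h y hy' with h2 | ⟨-, φ', -, h4, h5⟩
      · filter_upwards [h2] with w hw hwZ
        exact absurd hwZ hw
      · have h6 := h5.self_of_nhds.2 h4.symm
        exact absurd (h.mem.2 ⟨hy', h6⟩) hyF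
  have hb : ∀ᶠ x in 𝓝 x₀, ∀ y₀ ∈ fibE Z r x₀, (x, φ y₀ x) ∈ Z ∧ ‖φ y₀ x‖ < r := by
    refine (Filter.eventually_all_finset _).2 fun y₀ hy₀ => ?_
    obtain ⟨h2, h3, h4, h5⟩ := hφ y₀ hy₀
    have ht : Tendsto (fun x => (x, φ y₀ x)) (𝓝 x₀) (𝓝 (x₀, y₀)) := by
      have := (continuousAt_id.prodMk h3.continuousAt).tendsto
      simpa [h4] using this
    have hn' : ∀ᶠ x in 𝓝 x₀, ‖φ y₀ x‖ < r := h3.continuousAt.norm.eventually (gt_mem_nhds (by
      show ‖φ y₀ x₀‖ < r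
      rw [h4]
      exact h2))
    filter_upwards [ht.eventually h5, hn'] with x hx hx'
    exact ⟨hx.2 rfl, hx'⟩
  have hc : ∀ᶠ x in 𝓝 x₀, ∀ y ∈ fibE Z r x₀, ∀ y' ∈ fibE Z r x₀, y ≠ y' → φ y x ≠ φ y' x := by
    refine (Filter.eventually_all_finset _).2 fun y hy => (Filter.eventually_all_finset _).2 fun y' hy' => ?_
    by_cases hyy : y = y'
    · exact Eventually.of_forall fun x h => absurd hyy h
    · obtain ⟨-, h3, h4, -⟩ := hφ y hy
      obtain ⟨-, h3', h4', -⟩ := hφ y' hy'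
      have h6 : ∀ᶠ x in 𝓝 x₀, φ y x - φ y' x ≠ 0 := (h3.continuousAt.sub h3'.continuousAt).eventually_ne (by
        show φ y x₀ - φ y' x₀ ≠ 0
        rw [h4, h4']
        exact sub_ne_zero.2 hyy)
      filter_upwards [h6] with x hx _
      exact sub_ne_zero.1 hx
  filter_upwards [ha, hb, hc, hn] with x hxa hxb hxc hxn
  refine ⟨fun y hy y' hy' hyy => ?_, ?_⟩
  · by_contra hne
    exact hxc y hy y' hy' hne hyy
  · ext y
    rw [hxn.mem, Finset.mem_image]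
    constructor
    · rintro ⟨h2, h3⟩
      obtain ⟨y₀, hy₀, h4⟩ := hxa y (by simpa using h2) h3
      exact ⟨y₀, hy₀, h4.symm⟩
    · rintro ⟨y₀, hy₀, rfl⟩
      exact ⟨(hxb y₀ hy₀).2.le, (hxb y₀ hy₀).1⟩

/-! ## the polynomial of the fibre -/

variable (Z r) in
/-- the polynomial of the fibre -/
def pE (x : ℂ) : ℂ[X] := ∏ w ∈ fibE Z r x, (X - C w)

theorem pE_eval (x v : ℂ) : (pE Z r x).eval v = ∏ w ∈ fibE Z r x, (v - w) := by
  unfold pE
  rw [eval_prod]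
  exact Finset.prod_congr rfl fun w _ => by rw [eval_sub, eval_X, eval_C]

theorem pE_natDegree (x : ℂ) : (pE Z r x).natDegree = (fibE Z r x).card := by
  unfold pE
  rw [natDegree_prod_of_monic _ _ fun w _ => monic_X_sub_C w]
  simp

theorem pE_derivative {x y : ℂ} (hy : y ∈ fibE Z r x) : (pE Z r x).derivative.eval y ≠ 0 := by
  classical
  have h1 : pE Z r x = (X - C y) * ∏ w ∈ (fibE Z r x).erase y, (X - C w) := (Finset.mul_prod_erase _ _ hy).symm
  rw [h1, derivative_mul, eval_add, eval_mul, eval_mul, eval_prod]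
  simp only [derivative_sub, derivative_X, derivative_C, sub_zero, eval_one, one_mul, eval_sub, eval_X, eval_C, sub_self, zero_mul, add_zero]
  refine Finset.prod_ne_zero_iff.2 fun w hw => ?_
  exact sub_ne_zero.2 (Finset.ne_of_mem_erase hw).symm

theorem LocE.analyticAt {x₀ : ℂ} (h : LocE Z r x₀) (hn : ∀ᶠ x in 𝓝 x₀, LocE Z r x) (v : ℂ) : AnalyticAt ℂ (fun x => (pE Z r x).eval v) x₀ := by
  obtain ⟨φ, hφ, hev⟩ := h.loc hn
  have h1 : AnalyticAt ℂ (fun x => ∏ y ∈ fibE Z r x₀, (v - φ y x)) x₀ :=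
    Finset.analyticAt_fun_prod _ fun y hy => analyticAt_const.sub (hφ y hy)
  refine h1.congr ?_
  filter_upwards [hev] with x hx
  rw [pE_eval, hx.2, Finset.prod_image fun y hy y' hy' => hx.1 hy hy']

theorem LocE.card {x₀ : ℂ} (h : LocE Z r x₀) (hn : ∀ᶠ x in 𝓝 x₀, LocE Z r x) : ∀ᶠ x in 𝓝 x₀, (fibE Z r x).card = (fibE Z r x₀).card := by
  obtain ⟨φ, hφ, hev⟩ := h.loc hn
  filter_upwards [hev] with x hx
  rw [hx.2, Finset.card_image_of_injOn hx.1]

/-! ## the theorem -/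

/-- **The equation of a family of graphs.** -/
theorem equ_poly {Z : Set (ℂ × ℂ)} {s r : ℝ} (hs : 0 < s) (hr : 0 < r)
    (hloc : ∀ x y : ℂ, x ≠ 0 → ‖x‖ < s → ‖y‖ ≤ r → (∀ᶠ w in 𝓝 (x, y), w ∉ Z) ∨
      (‖y‖ < r ∧ ∃ φ : ℂ → ℂ, AnalyticAt ℂ φ x ∧ φ x = y ∧ ∀ᶠ w in 𝓝 (x, y), (w ∈ Z ↔ w.2 = φ w.1)))
    (h0 : ∀ y : ℂ, y ≠ 0 → ‖y‖ ≤ r → ∀ᶠ w in 𝓝 ((0 : ℂ), y), w ∉ Z) :
    ∃ g : ℂ × ℂ → ℂ, AnalyticAt ℂ g 0 ∧ (∃ᶠ p in 𝓝 (0 : ℂ × ℂ), g p ≠ 0) ∧
      ∀ᶠ p in 𝓝 (0 : ℂ × ℂ), p ≠ 0 → (g p = 0 ↔ p ∈ Z) ∧ (g p = 0 → fderiv ℂ g p ≠ 0) := by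
  set D : Set ℂ := {z : ℂ | 0 < ‖z‖ ∧ ‖z‖ < s} with hD
  have hDo : IsOpen D := Pool.Agent.H92.GGL.isOpen_punctured s
  have hDc : IsPreconnected D := Pool.Agent.H92.GGL.isPreconnected_punctured s
  have hL : ∀ x ∈ D, LocE Z r x := fun x hx y hy => hloc x y (norm_pos_iff.1 hx.1) hx.2 hy
  have hLn : ∀ x ∈ D, ∀ᶠ w in 𝓝 x, LocE Z r w := fun x hx => by
    filter_upwards [hDo.mem_nhds hx] with w hw
    exact hL w hw
  -- the number of the points of the fibre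
  have hx₁ : ((s / 2 : ℝ) : ℂ) ∈ D := by
    have h1 : ‖((s / 2 : ℝ) : ℂ)‖ = s / 2 := by rw [Complex.norm_real, Real.norm_of_nonneg (by positivity)]
    exact ⟨by rw [h1]; positivity, by rw [h1]; linarith⟩
  set m : ℕ := (fibE Z r ((s / 2 : ℝ) : ℂ)).card with hm
  have hcard : ∀ x ∈ D, (fibE Z r x).card = m := by
    intro x hx
    refine hDc.constant (f := fun x => (fibE Z r x).card) (fun w hw => ?_) hx hx₁
    exact (continuousAt_const.congr ((hL w hw).card (hLn w hw) |>.mono fun _ h => h.symm)).continuousWithinAt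
  set v : ℕ → ℂ := fun k => (k : ℂ) with hv
  have hvi : Set.InjOn v (Finset.range (m + 1) : Set ℕ) := fun a _ b _ hab => Nat.cast_injective hab
  -- the values
  set e : ℕ → ℂ → ℂ := fun k x => (pE Z r x).eval (v k) with he
  set Γ : ℕ → ℂ → ℂ := fun k => Function.update (e k) 0 (limUnder (𝓝[≠] 0) (e k)) with hΓ
  have hball : ∀ x ∈ ball (0 : ℂ) s \ {0}, x ∈ D := fun x hx => ⟨norm_pos_iff.2 hx.2, by simpa using hx.1⟩
  have hΓd : ∀ k, DifferentiableOn ℂ (Γ k) (ball 0 s) := by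
    intro k
    refine Complex.differentiableOn_update_limUnder_of_bddAbove (ball_mem_nhds 0 hs) ?_ ?_
    · intro x hx
      exact ((hL x (hball x hx)).analyticAt (hLn x (hball x hx)) (v k)).differentiableAt.differentiableWithinAt
    · refine ⟨(‖v k‖ + r) ^ m, ?_⟩
      rintro _ ⟨x, hx, rfl⟩
      show ‖(pE Z r x).eval (v k)‖ ≤ _
      rw [pE_eval, norm_prod, ← hcard x (hball x hx)]
      refine (Finset.prod_le_prod (fun _ _ => norm_nonneg _) fun w hw => ?_).trans (le_of_eq (Finset.prod_const _))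
      exact (norm_sub_le _ _).trans (add_le_add le_rfl ((hL x (hball x hx)).mem.1 hw).1)
  have hΓa : ∀ k, ∀ x ∈ ball (0 : ℂ) s, AnalyticAt ℂ (Γ k) x := fun k x hx => (hΓd k).analyticAt (isOpen_ball.mem_nhds hx)
  have hΓe : ∀ k, ∀ x, x ≠ 0 → Γ k x = (pE Z r x).eval (v k) := fun k x hx => Function.update_of_ne hx _ _
  set g : ℂ × ℂ → ℂ := fun p => ∑ k ∈ Finset.range (m + 1), Γ k p.1 * (Lagrange.basis (Finset.range (m + 1)) v k).eval p.2 with hg
  have hga : ∀ p : ℂ × ℂ, ‖p.1‖ < s → AnalyticAt ℂ g p := by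
    intro p hp
    refine Finset.analyticAt_fun_sum _ fun k _ => ?_
    have h1 : AnalyticAt ℂ (fun p : ℂ × ℂ => Γ k p.1) p := (hΓa k p.1 (by simpa using hp)).comp analyticAt_fst
    have h2 : AnalyticAt ℂ (fun p : ℂ × ℂ => (Lagrange.basis (Finset.range (m + 1)) v k).eval p.2) p :=
      ((Lagrange.basis (Finset.range (m + 1)) v k).differentiable.analyticAt p.2).comp analyticAt_snd
    exact h1.mul h2
  have hge : ∀ x ∈ D, ∀ y, g (x, y) = (pE Z r x).eval y := by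
    intro x hx y
    have hdeg : (pE Z r x).degree < ((Finset.range (m + 1)).card : WithBot ℕ) := by
      refine lt_of_le_of_lt degree_le_natDegree ?_
      rw [pE_natDegree, hcard x hx, Finset.card_range]
      exact_mod_cast Nat.lt_succ_self m
    have h1 := Lagrange.eq_interpolate hvi hdeg
    rw [Lagrange.interpolate_apply] at h1
    conv_rhs => rw [h1]
    rw [eval_finsetSum]
    refine Finset.sum_congr rfl fun k _ => ?_
    rw [eval_mul, eval_C, hΓe k x (norm_pos_iff.1 hx.1)]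
  -- the fibre over `0`
  have hsmall : ∀ ε : ℝ, 0 < ε → ∀ᶠ x in 𝓝 (0 : ℂ), ∀ y ∈ closedBall (0 : ℂ) r ∩ {y | ε ≤ ‖y‖}, (x, y) ∉ Z := by
    intro ε hε
    have hK : IsCompact (closedBall (0 : ℂ) r ∩ {y | ε ≤ ‖y‖}) := (isCompact_closedBall 0 r).inter_right (isClosed_le continuous_const continuous_norm)
    refine hK.eventually_forall_of_forall_eventually (P := fun x y => (x, y) ∉ Z) ?_
    rintro y ⟨hy1, hy2⟩
    have hy2' : ε ≤ ‖y‖ := hy2
    exact h0 y (norm_pos_iff.1 (by linarith)) (by simpa using hy1)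
  have hg0 : ∀ y : ℂ, y ≠ 0 → g (0, y) ≠ 0 := by
    intro y hy
    have hyp : 0 < ‖y‖ := norm_pos_iff.2 hy
    have hcont : Tendsto (fun x : ℂ => ‖g (x, y)‖) (𝓝[≠] 0) (𝓝 ‖g (0, y)‖) := by
      have h1 : ContinuousAt g ((0 : ℂ), y) := (hga (0, y) (by simpa using hs)).continuousAt
      have h2 : Tendsto (fun x : ℂ => (x, y)) (𝓝 0) (𝓝 (0, y)) := (Continuous.prodMk_left y).tendsto 0
      exact ((h1.tendsto.comp h2).norm).mono_left nhdsWithin_le_nhds
    have hlow : ∀ᶠ x in 𝓝[≠] (0 : ℂ), (‖y‖ / 2) ^ m ≤ ‖g (x, y)‖ := by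
      filter_upwards [nhdsWithin_le_nhds (hsmall (‖y‖ / 2) (by positivity)), nhdsWithin_le_nhds (ball_mem_nhds (0 : ℂ) hs), self_mem_nhdsWithin]
        with x hx1 hx2 hx3
      have hxD : x ∈ D := hball x ⟨hx2, hx3⟩
      rw [hge x hxD, pE_eval, norm_prod, ← hcard x hxD, ← Finset.prod_const]
      refine Finset.prod_le_prod (fun _ _ => by positivity) fun w hw => ?_
      obtain ⟨hw1, hw2⟩ := (hL x hxD).mem.1 hw
      have hw3 : ‖w‖ < ‖y‖ / 2 := by
        by_contra hcon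
        push Not at hcon
        exact hx1 w ⟨by simpa using hw1, hcon⟩ hw2
      have := norm_sub_norm_le y w
      linarith
    have h1 := ge_of_tendsto hcont hlow
    have h2 : 0 < (‖y‖ / 2) ^ m := by positivity
    exact norm_pos_iff.1 (by linarith)
  refine ⟨g, hga 0 (by simpa using hs), ?_, ?_⟩
  · have h1 : Tendsto (fun y : ℂ => ((0 : ℂ), y)) (𝓝[≠] 0) (𝓝 (0 : ℂ × ℂ)) := ((Continuous.prodMk_right (0 : ℂ)).tendsto 0).mono_left nhdsWithin_le_nhds
    have h2 : ∀ᶠ y in 𝓝[≠] (0 : ℂ), g (0, y) ≠ 0 := by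
      filter_upwards [self_mem_nhdsWithin] with y hy
      exact hg0 y hy
    exact h1.frequently h2.frequently
  · filter_upwards [ball_mem_nhds (0 : ℂ × ℂ) (lt_min hs hr)] with p hp hp0
    obtain ⟨x, y⟩ := p
    rw [mem_ball_zero_iff, Prod.norm_def, max_lt_iff] at hp
    have hxs : ‖x‖ < s := lt_of_lt_of_le hp.1 (min_le_left _ _)
    have hyr : ‖y‖ < r := lt_of_lt_of_le hp.2 (min_le_right _ _)
    rcases eq_or_ne x 0 with rfl | hx
    · have hy : y ≠ 0 := by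
        rintro rfl
        exact hp0 rfl
      have h1 := hg0 y hy
      have h2 : ((0 : ℂ), y) ∉ Z := (h0 y hy hyr.le).self_of_nhds
      exact ⟨⟨fun h => absurd h h1, fun h => absurd h h2⟩, fun h => absurd h h1⟩
    · have hxD : x ∈ D := ⟨norm_pos_iff.2 hx, hxs⟩
      have hiff : g (x, y) = 0 ↔ y ∈ fibE Z r x := by
        rw [hge x hxD, pE_eval, Finset.prod_eq_zero_iff]
        constructor
        · rintro ⟨w, hw, h1⟩
          rwa [sub_eq_zero.1 h1]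
        · intro h1
          exact ⟨y, h1, sub_self y⟩
      refine ⟨?_, fun h1 h2 => ?_⟩
      · rw [hiff, (hL x hxD).mem]
        exact ⟨fun h => h.2, fun h => ⟨hyr.le, h⟩⟩
      · have h3 : HasDerivAt (fun y' : ℂ => g (x, y')) ((pE Z r x).derivative.eval y) y := by
          have h4 := (pE Z r x).hasDerivAt y
          refine h4.congr_of_eventuallyEq (Eventually.of_forall fun y' => ?_)
          exact hge x hxD y'
        have h4 : HasFDerivAt g (fderiv ℂ g (x, y)) (x, y) := (hga (x, y) hxs).differentiableAt.hasFDerivAt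
        have h5 : HasDerivAt (fun y' : ℂ => (x, y')) ((0 : ℂ), (1 : ℂ)) y := (hasDerivAt_const y x).prodMk (hasDerivAt_id y)
        have h6 : HasDerivAt (fun y' : ℂ => g (x, y')) (fderiv ℂ g (x, y) (0, 1)) y := h4.comp_hasDerivAt y h5
        have h7 := h3.unique h6
        rw [h2] at h7
        exact pE_derivative (hiff.1 h1) h7

end Pool.Agent.MQ2

end
end

section

/-!
# MQ2 Hart: the theorem of Hartogs for an isolated point
-/

set_option autoImplicit false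

open Topology Filter Metric

noncomputable section

namespace Pool.Agent.MQ2

open Pool.Agent.H22.HF

/-- A function which is analytic off the origin of `ℂ × ℂ` extends. -/
theorem hartogs {f : ℂ × ℂ → ℂ} (hf : ∀ᶠ p in 𝓝 (0 : ℂ × ℂ), p ≠ 0 → AnalyticAt ℂ f p) :
    ∃ F : ℂ × ℂ → ℂ, AnalyticAt ℂ F 0 ∧ ∀ᶠ p in 𝓝 (0 : ℂ × ℂ), p ≠ 0 → F p = f p := by
  obtain ⟨δ, hδ, hball⟩ := Metric.eventually_nhds_iff_ball.mp hf
  obtain ⟨ρ, hρ, hρδ⟩ : ∃ ρ : ℝ, 0 < ρ ∧ ρ < δ := ⟨δ / 2, by linarith, by linarith⟩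
  have han : ∀ x t : ℂ, ‖x‖ < δ → ‖t‖ < δ → (x, t) ≠ (0 : ℂ × ℂ) → AnalyticAt ℂ f (x, t) := fun x t hx ht h0 => by
    refine hball _ ?_ h0
    rw [mem_ball_zero_iff, Prod.norm_def]
    exact max_lt hx ht
  let F : ℂ × ℂ → ℂ := fun p => (2 * Real.pi * Complex.I)⁻¹ * ∮ t in C(0, ρ), f (p.1, t) / (t - p.2)
  have hF : ∀ p : ℂ × ℂ, ‖p.1‖ < δ → ‖p.2‖ < ρ → AnalyticAt ℂ F p := by
    intro p h1 h2
    refine analyticAt_const.mul (analyticAt_circleIntegral (F := fun z : (ℂ × ℂ) × ℂ => f (z.1.1, z.2) / (z.2 - z.1.2)) hρ ?_)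
    intro t ht
    rw [mem_sphere_zero_iff_norm] at ht
    have ht0 : t ≠ 0 := by
      rintro rfl
      rw [norm_zero] at ht
      exact hρ.ne ht
    have ha : AnalyticAt ℂ f (p.1, t) := han _ _ h1 (by rw [ht]; exact hρδ) (fun h => ht0 (congrArg Prod.snd h))
    have hpr : AnalyticAt ℂ (fun z : (ℂ × ℂ) × ℂ => ((z.1.1, z.2) : ℂ × ℂ)) (p, t) := (analyticAt_fst.comp analyticAt_fst).prod analyticAt_snd
    refine (AnalyticAt.comp (g := f) (f := fun z : (ℂ × ℂ) × ℂ => ((z.1.1, z.2) : ℂ × ℂ)) (x := (p, t)) ha hpr).div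
      (analyticAt_snd.sub (analyticAt_snd.comp analyticAt_fst)) ?_
    show t - p.2 ≠ 0
    intro h
    rw [sub_eq_zero] at h
    rw [← h, ht] at h2
    exact lt_irrefl _ h2
  have heq : ∀ p : ℂ × ℂ, ‖p.1‖ < δ → ‖p.2‖ < ρ → p.1 ≠ 0 → F p = f p := by
    rintro ⟨x, y⟩ h1 h2 h0
    have hd : DifferentiableOn ℂ (fun t => f (x, t)) (closedBall 0 ρ) := by
      intro t ht
      rw [mem_closedBall_zero_iff] at ht
      have ha : AnalyticAt ℂ f (x, t) := han _ _ h1 (lt_of_le_of_lt ht hρδ) (fun h => h0 (congrArg Prod.fst h))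
      have h3 : AnalyticAt ℂ (fun t : ℂ => ((x, t) : ℂ × ℂ)) t := analyticAt_const.prod analyticAt_id
      exact (AnalyticAt.comp (g := f) (f := fun t : ℂ => ((x, t) : ℂ × ℂ)) ha h3).differentiableAt.differentiableWithinAt
    have hc : DiffContOnCl ℂ (fun t => f (x, t)) (ball 0 ρ) := (hd.mono (closure_ball_subset_closedBall)).diffContOnCl
    have h4 := hc.two_pi_i_inv_smul_circleIntegral_sub_inv_smul (w := y) (by rwa [mem_ball_zero_iff])
    show (2 * Real.pi * Complex.I)⁻¹ * (∮ t in C(0, ρ), f (x, t) / (t - y)) = f (x, y)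
    rw [← h4, smul_eq_mul]
    congr 1
    refine circleIntegral.integral_congr hρ.le fun t _ => ?_
    simp only [smul_eq_mul]
    rw [div_eq_inv_mul]
  refine ⟨F, hF 0 (by simpa using hδ) (by simpa using hρ), ?_⟩
  filter_upwards [ball_mem_nhds (0 : ℂ × ℂ) hρ] with p hp h0
  rw [mem_ball_zero_iff, Prod.norm_def, max_lt_iff] at hp
  rcases ne_or_eq p.1 0 with h1 | h1
  · exact heq p (hp.1.trans hρδ) hp.2 h1
  · -- the line `x = 0`
    obtain ⟨x, y⟩ := p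
    simp only at h1 hp
    subst h1
    have hline : ∀ g : ℂ × ℂ → ℂ, ContinuousAt g (0, y) → Tendsto (fun x : ℂ => g (x, y)) (𝓝[≠] 0) (𝓝 (g (0, y))) := fun g hg => by
      have h2 : Tendsto (fun x : ℂ => ((x, y) : ℂ × ℂ)) (𝓝[≠] 0) (𝓝 (0, y)) := by
        have h3 : Continuous fun x : ℂ => ((x, y) : ℂ × ℂ) := by fun_prop
        exact (h3.tendsto 0).mono_left nhdsWithin_le_nhds
      exact hg.tendsto.comp h2
    have hcF := hline F (hF (0, y) (by simpa using hδ) hp.2).continuousAt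
    have hcf := hline f (han 0 y (by simpa using hδ) (hp.2.trans hρδ) h0).continuousAt
    refine tendsto_nhds_unique hcF (hcf.congr' ?_)
    have hb : ∀ᶠ x in 𝓝[≠] (0 : ℂ), ‖x‖ < δ := by
      filter_upwards [nhdsWithin_le_nhds (ball_mem_nhds (0 : ℂ) hδ)] with x hx
      rwa [mem_ball_zero_iff] at hx
    filter_upwards [hb, self_mem_nhdsWithin] with x hx hx0
    exact (heq (x, y) hx hp.2 hx0).symm

end Pool.Agent.MQ2

end
end

section

/-!
# SB Api: coefficients of formal power series in two variables, of their transforms by the blow-up and by the swap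
-/

set_option autoImplicit false

open MvPowerSeries

noncomputable section

namespace Pool.Agent.SB

theorem ex_eq (d : Fin 2 →₀ ℕ) : ex (d 0) (d 1) = d := by
  ext i
  fin_cases i <;> simp [ex]

@[simp] theorem ex_zero (i j : ℕ) : ex i j 0 = i := by simp [ex]

@[simp] theorem ex_one (i j : ℕ) : ex i j 1 = j := by simp [ex]

theorem ex_inj {i j k l : ℕ} : ex i j = ex k l ↔ i = k ∧ j = l := by
  constructor
  · intro h
    exact ⟨by simpa using DFunLike.congr_fun h 0, by simpa using DFunLike.congr_fun h 1⟩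
  · rintro ⟨rfl, rfl⟩
    rfl

theorem ex_le {i j k l : ℕ} : ex i j ≤ ex k l ↔ i ≤ k ∧ j ≤ l := by
  constructor
  · intro h
    exact ⟨by simpa using h 0, by simpa using h 1⟩
  · rintro ⟨h0, h1⟩ s
    fin_cases s
    · simpa using h0
    · simpa using h1

theorem ex_sub (i j k l : ℕ) : ex i j - ex k l = ex (i - k) (j - l) := by
  ext s
  fin_cases s <;> simp [ex]

theorem ex_add (i j k l : ℕ) : ex i j + ex k l = ex (i + k) (j + l) := by
  ext s
  fin_cases s <;> simp [ex]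

theorem cf_ext {a b : R2} (h : ∀ i j, cf a i j = cf b i j) : a = b := by
  ext d
  have := h (d 0) (d 1)
  rwa [cf, cf, ex_eq] at this

theorem cf_add (a b : R2) (i j : ℕ) : cf (a + b) i j = cf a i j + cf b i j := by
  simp [cf]

theorem cf_sub (a b : R2) (i j : ℕ) : cf (a - b) i j = cf a i j - cf b i j := by
  simp [cf]

theorem cf_C_mul (t : ℂ) (a : R2) (i j : ℕ) : cf (C t * a) i j = t * cf a i j := by
  simp [cf]

theorem cf_mul (a b : R2) (i j : ℕ) :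
    cf (a * b) i j = ∑ p ∈ Finset.HasAntidiagonal.antidiagonal i, ∑ q ∈ Finset.HasAntidiagonal.antidiagonal j, cf a p.1 q.1 * cf b p.2 q.2 := by
  classical
  rw [cf, coeff_mul, ← Finset.sum_product']
  refine Finset.sum_bij' (fun p _ => ((p.1 0, p.2 0), (p.1 1, p.2 1))) (fun r _ => (ex r.1.1 r.2.1, ex r.1.2 r.2.2)) ?_ ?_ ?_ ?_ ?_
  · intro p hp
    rw [Finset.HasAntidiagonal.mem_antidiagonal] at hp
    simp only [Finset.mem_product, Finset.HasAntidiagonal.mem_antidiagonal]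
    exact ⟨by simpa using DFunLike.congr_fun hp 0, by simpa using DFunLike.congr_fun hp 1⟩
  · intro r hr
    simp only [Finset.mem_product, Finset.HasAntidiagonal.mem_antidiagonal] at hr
    rw [Finset.HasAntidiagonal.mem_antidiagonal, ex_add, hr.1, hr.2]
  · intro p _
    simp only [ex_eq]
  · intro r _
    simp
  · intro p _
    simp only [cf, ex_eq]

theorem cf_X0_pow_mul (n : ℕ) (a : R2) (i j : ℕ) : cf (X 0 ^ n * a) i j = if n ≤ i then cf a (i - n) j else 0 := by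
  have h : (Finsupp.single (0 : Fin 2) n : Fin 2 →₀ ℕ) = ex n 0 := by simp [ex]
  rw [cf, X_pow_eq, coeff_monomial_mul, h, ex_sub]
  by_cases hn : n ≤ i
  · rw [if_pos (ex_le.2 ⟨hn, Nat.zero_le _⟩), if_pos hn, one_mul, Nat.sub_zero, cf]
  · rw [if_neg (fun hh => hn (ex_le.1 hh).1), if_neg hn]

theorem cf_X0_mul (a : R2) (i j : ℕ) : cf (X 0 * a) i j = if 1 ≤ i then cf a (i - 1) j else 0 := by
  simpa using cf_X0_pow_mul 1 a i j

theorem cf_X1_pow_mul (n : ℕ) (a : R2) (i j : ℕ) : cf (X 1 ^ n * a) i j = if n ≤ j then cf a i (j - n) else 0 := by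
  have h : (Finsupp.single (1 : Fin 2) n : Fin 2 →₀ ℕ) = ex 0 n := by simp [ex]
  rw [cf, X_pow_eq, coeff_monomial_mul, h, ex_sub]
  by_cases hn : n ≤ j
  · rw [if_pos (ex_le.2 ⟨Nat.zero_le _, hn⟩), if_pos hn, one_mul, Nat.sub_zero, cf]
  · rw [if_neg (fun hh => hn (ex_le.1 hh).2), if_neg hn]

theorem cf_X1_mul (a : R2) (i j : ℕ) : cf (X 1 * a) i j = if 1 ≤ j then cf a i (j - 1) else 0 := by
  simpa using cf_X1_pow_mul 1 a i j

theorem X0_pow_dvd_iff (n : ℕ) (a : R2) : X 0 ^ n ∣ a ↔ ∀ i j, i < n → cf a i j = 0 := by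
  rw [X_pow_dvd_iff]
  constructor
  · intro h i j hi
    exact h _ (by simpa using hi)
  · intro h d hd
    have := h (d 0) (d 1) hd
    rwa [cf, ex_eq] at this

theorem X0_dvd_iff (a : R2) : X 0 ∣ a ↔ ∀ j, cf a 0 j = 0 := by
  rw [← pow_one (X 0 : R2), X0_pow_dvd_iff]
  constructor
  · intro h j
    exact h 0 j one_pos
  · intro h i j hi
    obtain rfl : i = 0 := by omega
    exact h j

theorem cf_sw (a : R2) (i j : ℕ) : cf (sw a) i j = cf a j i := by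
  have h : ex i j = Finsupp.embDomain (Equiv.swap (0 : Fin 2) 1).toEmbedding (ex j i) := by
    rw [Finsupp.embDomain_eq_mapDomain]
    simp only [ex, Finsupp.mapDomain_add, Finsupp.mapDomain_single, Equiv.coe_toEmbedding, Equiv.swap_apply_left, Equiv.swap_apply_right]
    rw [add_comm]
  rw [cf, cf, h]
  exact coeff_embDomain_rename (Equiv.swap (0 : Fin 2) 1).toEmbedding a (ex j i)

theorem sw_sw (a : R2) : sw (sw a) = a := cf_ext fun i j => by rw [cf_sw, cf_sw]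

theorem ord_sw {l : ℕ} {a : R2} : Ord l (sw a) ↔ Ord l a := by
  constructor
  · intro h i j hij
    rw [← cf_sw]
    exact h j i (by omega)
  · intro h i j hij
    rw [cf_sw]
    exact h j i (by omega)

/-- the coefficients of the powers of `y + t` -/
theorem cf_pow_add (t : ℂ) (n i j : ℕ) : cf ((X 1 + C t : R2) ^ n) i j = if i = 0 then (n.choose j : ℂ) * t ^ (n - j) else 0 := by
  induction n generalizing i j with
  | zero =>
    rw [pow_zero, cf, coeff_one]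
    by_cases hi : i = 0
    · subst hi
      by_cases hj : j = 0
      · subst hj
        have : ex 0 0 = 0 := by simp [ex]
        simp [this]
      · have : ex 0 j ≠ 0 := fun h => hj (by simpa using DFunLike.congr_fun h 1)
        obtain ⟨k, rfl⟩ := Nat.exists_eq_succ_of_ne_zero hj
        simp [this]
    · have : ex i j ≠ 0 := fun h => hi (by simpa using DFunLike.congr_fun h 0)
      simp [this, hi]
  | succ n ih =>
    rw [pow_succ', add_mul, cf_add, cf_X1_mul, cf_C_mul, ih, ih]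
    by_cases hi : i = 0
    · subst hi
      rcases Nat.eq_zero_or_pos j with rfl | hj
      · simp only [if_true, Nat.choose_zero_right, Nat.cast_one, one_mul, Nat.sub_zero]
        simp [pow_succ']
      · obtain ⟨k, rfl⟩ : ∃ k, j = k + 1 := ⟨j - 1, by omega⟩
        rw [Nat.choose_succ_succ', Nat.cast_add, Nat.add_sub_cancel, show n + 1 - (k + 1) = n - k by omega]
        simp only [if_true, le_add_iff_nonneg_left, Nat.zero_le]
        by_cases hk : k + 1 ≤ n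
        · have : t ^ (n - k) = t * t ^ (n - (k + 1)) := by
            rw [← pow_succ']
            congr 1
            omega
          rw [this]
          ring
        · rw [Nat.choose_eq_zero_of_lt (by omega : n < k + 1)]
          simp
    · simp [hi]

/-- the coefficients of the blow-up -/
theorem cf_bl (t : ℂ) (a : R2) (i j : ℕ) :
    cf (bl t a) i j = ∑ k ∈ Finset.range (i + 1), cf a (i - k) k * (k.choose j : ℂ) * t ^ (k - j) := by
  classical
  have hterm : ∀ d : Fin 2 →₀ ℕ, coeff (ex i j) (d.prod fun s e => ((![X 0, X 0 * (X 1 + C t)] : Fin 2 → R2) s) ^ e) =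
      if d 0 + d 1 = i then ((d 1).choose j : ℂ) * t ^ (d 1 - j) else 0 := by
    intro d
    have h1 : (d.prod fun s e => ((![X 0, X 0 * (X 1 + C t)] : Fin 2 → R2) s) ^ e) = X 0 ^ (d 0 + d 1) * (X 1 + C t) ^ (d 1) := by
      rw [Finsupp.prod_fintype _ _ (fun s => pow_zero _), Fin.prod_univ_two]
      simp only [Matrix.cons_val_zero, Matrix.cons_val_one]
      rw [mul_pow, pow_add]
      ring
    rw [h1]
    have h2 := cf_X0_pow_mul (d 0 + d 1) ((X 1 + C t : R2) ^ (d 1)) i j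
    rw [cf] at h2
    rw [h2]
    by_cases h : d 0 + d 1 = i
    · rw [if_pos h.le, if_pos h, cf_pow_add, if_pos (by omega)]
    · by_cases h' : d 0 + d 1 ≤ i
      · rw [if_pos h', if_neg h, cf_pow_add, if_neg (by omega)]
      · rw [if_neg h', if_neg h]
  rw [cf, bl, substAlgHom_apply, coeff_subst (hasSubst_bl t)]
  have hinj : Set.InjOn (fun k : ℕ => ex (i - k) k) (Finset.range (i + 1) : Set ℕ) := fun k _ l _ h => (ex_inj.1 h).2
  rw [finsum_eq_sum_of_support_subset (s := (Finset.range (i + 1)).image fun k => ex (i - k) k)]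
  · rw [Finset.sum_image (fun k hk l hl h => hinj hk hl h)]
    refine Finset.sum_congr rfl fun k hk => ?_
    rw [Finset.mem_range] at hk
    rw [hterm]
    have h3 : ex (i - k) k 0 + ex (i - k) k 1 = i := by
      rw [ex_zero, ex_one]
      omega
    rw [if_pos h3, ex_one, smul_eq_mul, cf]
    ring
  · intro d hd
    rw [Function.mem_support, hterm] at hd
    have h4 : d 0 + d 1 = i := by
      by_contra h
      rw [if_neg h, smul_zero] at hd
      exact hd rfl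
    rw [Finset.mem_coe, Finset.mem_image]
    refine ⟨d 1, Finset.mem_range.2 (by omega), ?_⟩
    rw [show i - d 1 = d 0 by omega, ex_eq]

/-- the coefficients of the strict transform -/
theorem cf_of_bl {t : ℂ} {l : ℕ} {a u : R2} (h : X 0 ^ l * u = bl t a) (i j : ℕ) :
    cf u i j = ∑ k ∈ Finset.range (i + l + 1), cf a (i + l - k) k * (k.choose j : ℂ) * t ^ (k - j) := by
  rw [← cf_bl t a (i + l) j, ← h, cf_X0_pow_mul, if_pos (Nat.le_add_left _ _), Nat.add_sub_cancel]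

/-- the strict transform exists -/
theorem exists_bl (t : ℂ) {l : ℕ} {a : R2} (h : Ord l a) : ∃ u, X 0 ^ l * u = bl t a := by
  have : X 0 ^ l ∣ bl t a := by
    rw [X0_pow_dvd_iff]
    intro i j hi
    rw [cf_bl]
    refine Finset.sum_eq_zero fun k hk => ?_
    rw [Finset.mem_range] at hk
    rw [h (i - k) k (by omega)]
    simp
  obtain ⟨u, hu⟩ := this
  exact ⟨u, hu.symm⟩

/-- on the exceptional line it is a polynomial of degree at most `l` -/
theorem cf_zero_of_bl {t : ℂ} {l : ℕ} {a u : R2} (h : X 0 ^ l * u = bl t a) {j : ℕ} (hj : l < j) : cf u 0 j = 0 := by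
  rw [cf_of_bl h]
  refine Finset.sum_eq_zero fun k hk => ?_
  rw [Finset.mem_range] at hk
  rw [Nat.choose_eq_zero_of_lt (by omega : k < j)]
  simp

/-- its leading part vanishes only if the order is bigger -/
theorem ord_succ_of_dvd {t : ℂ} {l : ℕ} {a u : R2} (ha : Ord l a) (h : X 0 ^ l * u = bl t a) (hu : X 0 ∣ u) : Ord (l + 1) a := by
  rw [X0_dvd_iff] at hu
  have key : ∀ n j : ℕ, l - n ≤ j → j ≤ l → cf a (l - j) j = 0 := by
    intro n
    induction n with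
    | zero =>
      intro j h1 h2
      obtain rfl : j = l := by omega
      have h3 := hu j
      rw [cf_of_bl h, Finset.sum_eq_single j] at h3
      · simpa using h3
      · intro k hk hkj
        rw [Finset.mem_range] at hk
        rw [Nat.choose_eq_zero_of_lt (by omega : k < j)]
        simp
      · intro hj
        exact absurd (Finset.mem_range.2 (by omega)) hj
    | succ n ih =>
      intro j h1 h2
      by_cases h3 : l - n ≤ j
      · exact ih j h3 h2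
      have h4 := hu j
      rw [cf_of_bl h, Finset.sum_eq_single j] at h4
      · simpa using h4
      · intro k hk hkj
        rw [Finset.mem_range] at hk
        rcases lt_or_gt_of_ne hkj with h5 | h5
        · rw [Nat.choose_eq_zero_of_lt h5]
          simp
        · rw [Nat.zero_add, ih k (by omega) (by omega)]
          simp
      · intro hj
        exact absurd (Finset.mem_range.2 (by omega)) hj
  intro i j hij
  by_cases h1 : i + j < l
  · exact ha i j h1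
  have h2 := key l j (by omega) (by omega)
  rwa [show l - j = i by omega] at h2

end Pool.Agent.SB

end
end

section

/-!
# SG RDef: linear forms
-/

set_option autoImplicit false

namespace Pool.Agent.SG

open Pool.Agent.H36.BP (EN)

/-- the linear form with the coefficients `c` -/
noncomputable def lf {N : ℕ} (c : Fin (N + 1) → ℂ) (x : EN N) : ℂ := ∑ i, c i * x i

end Pool.Agent.SG

end

section

/-!
# SG Sec: the secant cone of a null curve

`secant`: `T` is a curve on the surface `X`, the pseudo-length vanishes on the curve germs in `T`.  If the first axis of the chart `σ` is not null,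
there are no points of `T` in a small cone around the first axis.
-/

set_option autoImplicit false

open Topology Filter Metric

noncomputable section

namespace Pool.Agent.SG

open Pool.Agent.H17BP (IsChart)
open Pool.Agent.H36.BP (EN)
open Pool.Agent.H14.PP (CurveAt)

variable {N : ℕ} {X T : Set (EN N)}

/-- the tangent vectors in a chart -/
theorem tan_of_chart {σ : ℂ × ℂ → EN N} {τ : EN N → ℂ × ℂ} (hσ : IsChart X σ τ) :
    ∀ᶠ p in 𝓝 (0 : ℂ × ℂ), ∀ w : ℂ × ℂ, Pool.Agent.H14.PP.Tan X (σ p) (fderiv ℂ σ p w) := by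
  filter_upwards [hσ.σ_an.eventually_analyticAt, hσ.σ_mem.eventually_nhds] with p h1 h2 w
  have h3 : HasDerivAt (fun y : ℂ => p + y • w) w 0 := by
    have := ((hasDerivAt_id (0 : ℂ)).smul_const w).const_add p
    simpa using this
  have h4 : AnalyticAt ℂ (fun y : ℂ => p + y • w) 0 := by fun_prop
  have h0 : p + (0 : ℂ) • w = p := by rw [zero_smul, add_zero]
  have h5 : AnalyticAt ℂ σ (p + (0 : ℂ) • w) := by rw [h0]; exact h1
  refine ⟨fun y => σ (p + y • w), ⟨AnalyticAt.fun_comp (g := σ) (f := fun y : ℂ => p + y • w) h5 h4, ?_⟩, by simp, ?_⟩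
  · have h6 : Tendsto (fun y : ℂ => p + y • w) (𝓝 0) (𝓝 p) := by
      have := h4.continuousAt.tendsto
      rwa [h0] at this
    exact h6.eventually h2
  · have h7 : HasFDerivAt σ (fderiv ℂ σ p) (p + (0 : ℂ) • w) := by
      rw [h0]
      exact h1.differentiableAt.hasFDerivAt
    exact (h7.comp_hasDerivAt (0 : ℂ) h3).deriv

end Pool.Agent.SG

end
end
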