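import Pool.Agent.H94.G6.M28
import Pool.Agent.H94.G6.M30
import Pool.Agent.H94.G6.M31
import Pool.Agent.H94.G6.M57
import Pool.Agent.H94.G6.M67
import Pool.Agent.H94.G6.M68

/-! The parts of this file: H17BP.TrP, H36.TB.Co, H5.BD.CAtlB, H5.BD.CAtlA, H5.BD.CAtl. -/

section

/-!
# Lifting holomorphic maps from a punctured disc to the blow-up

Let `f`, `r` be as in `Picard X B`, `A = {z | z ≠ 0 ∧ ‖z‖ < r}` (open and preconnected; e.g. the image of a half plane under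
`exp`, or `isPreconnected_compl_singleton...` for the ball minus a point; the library has it for complements of countable
sets: `IsConnected ... (Set.Countable.isPathConnected_compl_of_one_lt_rank)`; there may be the version for open connected
sets minus a countable set).
* `f` is not proportional to `q` near any point of `A`: let `A₁` be the set of the `z₀ ∈ A` with `Pr (f z) q` for `z` near `z₀`,
  `A₂` the set of the `z₀ ∈ A` with `¬ Pr (f z) q` for all `z ≠ z₀` near `z₀`.  Both are open, `A = A₁ ∪ A₂`: for a local lift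
  `F` of `f` and the forms `l b`: `Pr (f z) q ↔ ∀ b, l b (F z) = 0` near `z₀` (`Ker`, `F z ≠ 0`, `q ≠ 0`), and
  `AnalyticAt.eventually_eq_zero_or_eventually_ne_zero` for the finitely many functions `l b ∘ F`.  `A₁ ∩ A₂ = ∅`.  If
  `A₁ = A` then all `f z` are in `B` (`q ∈ B`, cone), against the hypothesis.  So `A₂ = A`.
* For `z₀ ∈ A` let `F` be a local lift at `z₀`; `lift_curve` gives `k` and `G` analytic at `z₀`, `G z ∈ blow`,
  `phi l (F z) = (z - z₀)^k • G z` near `z₀`.  For `z ≠ z₀` near `z₀`: `Pr (phi l (f z)) (G z)` (`phi_smul`).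
  Define `h z = phi l (f z)` if `¬ Pr (f z) q`, and `h z = G_z z` with such a `G_z` at the point `z` otherwise
  (`Classical.choose`).  `HolP h z₀` for `z₀ ∈ A` with the lift `G`: for `z ≠ z₀` near `z₀` we have `h z = phi l (f z)`; at
  `z₀` itself: if `Pr (f z₀) q` then `h z₀ = G z₀` for the chosen `G` (use the chosen `G` as the lift), otherwise
  `h z₀ = phi l (f z₀)`, `G z₀` is proportional to it (`k = 0` since `phi l (F z₀) ≠ 0`).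
  `h z ∈ blow` for `z ∈ A`.  Second claim of `exists_lift` (`z ∈ A`, `h z b ≠ 0`): if `¬ Pr (f z) q` then
  `h z b = l b (f z) • f z`.  If `Pr (f z) q`: `phi l (F w) = (w - z)^k • G w` for `w` near `z`, with `G = G_z`, so
  `l b (F w) • F w = (w - z)^k • G w b`; for every continuous linear form `Λ` and `w ≠ z` near `z`:
  `Λ (F w) • G w b = Λ (G w b) • F w`, hence in the limit `w → z`: `Λ (F z) • G z b = Λ (G z b) • F z`; with `Λ (F z) ≠ 0`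
  (`exists_dual_vector`) the vector `G z b = h z b ≠ 0` is proportional to `F z`, hence to `f z`.
* `picard_blow`: `h z ∉ total` if `f z ∉ B` (`exists_ne`, second claim, `mem_total_iff`).  Apply `hp` to `h`: there is `G` analytic at
  `0`, `G 0 ≠ 0`, `Pr (h z) (G z)` for `z ≠ 0` near `0`.  Let `G 0 b ≠ 0`, `F z = G z b`.  For `z ≠ 0` near `0`: `G z b ≠ 0`,
  so `h z b ≠ 0` and `Pr (f z) (h z b)`, `Pr (h z b) (G z b)`.
-/

open Topology Filter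

noncomputable section

namespace Pool.Agent.H17BP

open Pool.Agent.H62.BU (blow total Ker phi)

variable {V : Type} [NormedAddCommGroup V] [NormedSpace ℂ V] {ι : Type} [Fintype ι] {l : ι → V →L[ℂ] ℂ}
  {X B : Set V} {q : V}

private theorem TrP_preconnected (r : ℝ) : IsPreconnected {z : ℂ | z ≠ 0 ∧ ‖z‖ < r} := by
  by_cases hr : 0 < r
  · have h1 : IsPreconnected {w : ℂ | w.re < Real.log r} := (convex_halfSpace_re_lt (Real.log r)).isPreconnected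
    have h2 := h1.image Complex.exp Complex.continuous_exp.continuousOn
    have h3 : Complex.exp '' {w : ℂ | w.re < Real.log r} = {z : ℂ | z ≠ 0 ∧ ‖z‖ < r} := by
      ext z
      constructor
      · rintro ⟨w, hw, rfl⟩
        refine ⟨Complex.exp_ne_zero w, ?_⟩
        rw [Complex.norm_exp]
        have h4 : w.re < Real.log r := hw
        calc Real.exp w.re < Real.exp (Real.log r) := Real.exp_lt_exp.2 h4
          _ = r := Real.exp_log hr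
      · rintro ⟨hz, hzr⟩
        refine ⟨Complex.log z, ?_, Complex.exp_log hz⟩
        show (Complex.log z).re < Real.log r
        rw [Complex.log_re]
        exact Real.log_lt_log (norm_pos_iff.2 hz) hzr
    rwa [h3] at h2
  · have h1 : {z : ℂ | z ≠ 0 ∧ ‖z‖ < r} = ∅ := by
      ext z
      simp only [Set.mem_ofPred_eq, Set.mem_empty_iff_false, iff_false, not_and]
      intro _ h
      exact hr ((norm_nonneg z).trans_lt h)
    rw [h1]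
    exact isPreconnected_empty

omit [Fintype ι] in
private theorem TrP_forms (hl : Ker l q) {x y : V} (h : Pr x y) (hy : y ≠ 0) : Pr x q ↔ ∀ b, l b y = 0 := by
  constructor
  · intro hx b
    obtain ⟨c, hc, e⟩ := h.symm.trans hx
    rw [e, map_smul, (hl q).2 ⟨1, (one_smul _ _).symm⟩ b, smul_zero]
  · intro hb
    obtain ⟨c, hc⟩ := (hl y).1 hb
    refine h.trans ⟨c, ?_, hc⟩
    rintro rfl
    rw [zero_smul] at hc
    exact hy hc

private theorem TrP_dichotomy (hl : Ker l q) {f : ℂ → V} {z₀ : ℂ} (hf : HolP f z₀) :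
    (∀ᶠ z in 𝓝 z₀, Pr (f z) q) ∨ ∀ᶠ z in 𝓝[≠] z₀, ¬ Pr (f z) q := by
  obtain ⟨F, hF, hF0, hfF⟩ := hf
  have hne : ∀ᶠ z in 𝓝 z₀, F z ≠ 0 := hF.continuousAt.eventually_ne hF0
  have han : ∀ b, AnalyticAt ℂ (fun z => l b (F z)) z₀ := fun b => ((l b).analyticAt (F z₀)).comp hF
  by_cases h : ∀ b, ∀ᶠ z in 𝓝 z₀, l b (F z) = 0
  · left
    filter_upwards [hne, hfF, eventually_all.2 h] with z h1 h2 h3
    exact (TrP_forms hl h2 h1).2 h3
  · right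
    obtain ⟨b, hb⟩ := not_forall.1 h
    have h1 := (han b).eventually_eq_zero_or_eventually_ne_zero.resolve_left hb
    filter_upwards [h1, hne.filter_mono nhdsWithin_le_nhds, hfF.filter_mono nhdsWithin_le_nhds] with z h2 h3 h4 h5
    exact h2 ((TrP_forms hl h4 h3).1 h5 b)

/-- A holomorphic map which is proportional to `q` only at isolated points. -/
theorem isolated_of_notMem (hl : Ker l q) (hB : ∀ x ∈ B, ∀ c : ℂ, c ≠ 0 → c • x ∈ B) (hq : q ∈ B)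
    (hq0 : q ≠ 0) {r : ℝ} {f : ℂ → V} (hf : ∀ z : ℂ, z ≠ 0 → ‖z‖ < r → HolP f z)
    (hfB : ∃ z : ℂ, z ≠ 0 ∧ ‖z‖ < r ∧ f z ∉ B) :
    ∀ z₀ : ℂ, z₀ ≠ 0 → ‖z₀‖ < r → ∀ᶠ z in 𝓝[≠] z₀, ¬ Pr (f z) q := by
  intro z₀ hz₀ hz₀r
  refine (TrP_dichotomy hl (hf z₀ hz₀ hz₀r)).resolve_left fun h => ?_
  have hu : IsOpen {z : ℂ | ∀ᶠ w in 𝓝 z, Pr (f w) q} := isOpen_setOfPred_eventually_nhds
  have hv : IsOpen {z : ℂ | ∀ᶠ w in 𝓝[≠] z, ¬ Pr (f w) q} := by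
    rw [isOpen_iff_eventually]
    intro z hz
    have h1 : ∀ᶠ w in 𝓝[≠] z, ¬ Pr (f w) q := hz
    rw [eventually_nhdsWithin_iff] at h1
    filter_upwards [eventually_eventually_nhds.2 h1] with y hy
    by_cases hyz : y = z
    · rw [hyz]
      exact hz
    · have h2 : ∀ᶠ w in 𝓝 y, w ≠ z := eventually_ne_nhds hyz
      have h3 : ∀ᶠ w in 𝓝 y, ¬ Pr (f w) q := by
        filter_upwards [hy, h2] with w h4 h5
        exact h4 h5
      exact h3.filter_mono nhdsWithin_le_nhds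
  have huv : Disjoint {z : ℂ | ∀ᶠ w in 𝓝 z, Pr (f w) q} {z : ℂ | ∀ᶠ w in 𝓝[≠] z, ¬ Pr (f w) q} := by
    rw [Set.disjoint_left]
    intro z h1 h2
    have h3 : ∀ᶠ w in 𝓝 z, Pr (f w) q := h1
    have h4 : ∀ᶠ w in 𝓝[≠] z, ¬ Pr (f w) q := h2
    obtain ⟨w, h5, h6⟩ := ((h3.filter_mono nhdsWithin_le_nhds).and h4).exists
    exact h6 h5
  have hsub : {z : ℂ | z ≠ 0 ∧ ‖z‖ < r} ⊆ {z : ℂ | ∀ᶠ w in 𝓝 z, Pr (f w) q} := by
    refine IsPreconnected.subset_left_of_subset_union hu hv huv ?_ ⟨z₀, ⟨hz₀, hz₀r⟩, h⟩ (TrP_preconnected r)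
    intro z hz
    exact TrP_dichotomy hl (hf z hz.1 hz.2)
  obtain ⟨z, h1, h2, h3⟩ := hfB
  have h4 : ∀ᶠ w in 𝓝 z, Pr (f w) q := hsub ⟨h1, h2⟩
  obtain ⟨c, hc, e⟩ := h4.self_of_nhds
  exact h3 (e ▸ hB q hq c hc)

private theorem TrP_phi {x y : V} {c : ℂ} (h : x = c • y) : phi l x = c ^ 2 • phi l y := by
  rw [h, H62.BU.phi_smul]

/-- The local lift. -/
private theorem TrP_local (hX : Surface X) (hl : Ker l q) {r : ℝ} {f : ℂ → V}
    (hf : ∀ z : ℂ, z ≠ 0 → ‖z‖ < r → HolP f z ∧ f z ∈ X)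
    (hi : ∀ z₀ : ℂ, z₀ ≠ 0 → ‖z₀‖ < r → ∀ᶠ z in 𝓝[≠] z₀, ¬ Pr (f z) q) {z₀ : ℂ} (hz₀ : z₀ ≠ 0)
    (hz₀r : ‖z₀‖ < r) :
    ∃ (F : ℂ → V) (G : ℂ → ι → V) (k : ℕ), AnalyticAt ℂ F z₀ ∧ F z₀ ≠ 0 ∧ (∀ᶠ z in 𝓝 z₀, Pr (f z) (F z)) ∧
      AnalyticAt ℂ G z₀ ∧ (∀ᶠ z in 𝓝 z₀, G z ∈ blow l X) ∧
      ∀ᶠ z in 𝓝 z₀, phi l (F z) = (z - z₀) ^ k • G z := by
  obtain ⟨F, hF, hF0, hfF⟩ := (hf z₀ hz₀ hz₀r).1
  have hA : ∀ᶠ z in 𝓝 z₀, z ≠ 0 ∧ ‖z‖ < r :=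
    (eventually_ne_nhds hz₀).and (continuous_norm.continuousAt.eventually_lt_const hz₀r)
  have hFX : ∀ᶠ z in 𝓝 z₀, F z ∈ X := by
    filter_upwards [hfF, hA] with z h1 h2
    exact (Pr.mem_iff hX.smul h1).1 (hf z h2.1 h2.2).2
  have hne : ∃ᶠ z in 𝓝[≠] z₀, ∃ b, l b (F z) ≠ 0 := by
    refine Eventually.frequently ?_
    filter_upwards [hi z₀ hz₀ hz₀r, hfF.filter_mono nhdsWithin_le_nhds,
      (hF.continuousAt.eventually_ne hF0).filter_mono nhdsWithin_le_nhds] with z h1 h2 h3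
    by_contra h4
    push Not at h4
    exact h1 ((TrP_forms hl h2 h3).2 h4)
  obtain ⟨k, G, hG, hGb, hGe⟩ := H62.BU.lift_curve hF hFX hne
  exact ⟨F, G, k, hF, hF0, hfF, hG, hGb, hGe⟩

private theorem TrP_prop {F : ℂ → V} {G : ℂ → ι → V} {k : ℕ} {z : ℂ} (hF : AnalyticAt ℂ F z)
    (hF0 : F z ≠ 0) (hG : AnalyticAt ℂ G z) (h : ∀ᶠ w in 𝓝 z, phi l (F w) = (w - z) ^ k • G w) {b : ι}
    (hb : G z b ≠ 0) : Pr (F z) (G z b) := by
  obtain ⟨Λ, hΛ1, hΛ2⟩ := exists_dual_vector ℂ (F z) (norm_ne_zero_iff.mpr hF0)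
  have hΛ : Λ (F z) ≠ 0 := by
    rw [hΛ2]
    simpa using hF0
  have hGb : ContinuousAt (fun w => G w b) z := (continuous_apply b).continuousAt.comp hG.continuousAt
  have h1 : Tendsto (fun w => Λ (F w) • G w b) (𝓝[≠] z) (𝓝 (Λ (F z) • G z b)) := by
    refine Tendsto.mono_left ?_ nhdsWithin_le_nhds
    exact ((Λ.continuous.continuousAt.comp hF.continuousAt).smul hGb).tendsto
  have h2 : Tendsto (fun w => Λ (G w b) • F w) (𝓝[≠] z) (𝓝 (Λ (G z b) • F z)) := by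
    refine Tendsto.mono_left ?_ nhdsWithin_le_nhds
    exact ((Λ.continuous.continuousAt.comp hGb).smul hF.continuousAt).tendsto
  have h3 : ∀ᶠ w in 𝓝[≠] z, Λ (F w) • G w b = Λ (G w b) • F w := by
    filter_upwards [h.filter_mono nhdsWithin_le_nhds, self_mem_nhdsWithin] with w h4 h5
    have h6 : (w - z) ^ k ≠ 0 := pow_ne_zero _ (sub_ne_zero.2 h5)
    have h7 : l b (F w) • F w = (w - z) ^ k • G w b := congrFun h4 b
    have h8 : (w - z) ^ k • (Λ (F w) • G w b) = (w - z) ^ k • (Λ (G w b) • F w) := by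
      have h9 : (w - z) ^ k * Λ (G w b) = l b (F w) * Λ (F w) := by
        have h10 := congrArg Λ h7
        rw [map_smul, map_smul, smul_eq_mul, smul_eq_mul] at h10
        exact h10.symm
      rw [smul_comm, ← h7, smul_smul ((w - z) ^ k), h9, smul_smul, mul_comm]
    exact (smul_right_injective V h6) h8
  have h4 : Λ (F z) • G z b = Λ (G z b) • F z :=
    tendsto_nhds_unique_of_eventuallyEq h1 h2 h3
  have h5 : G z b = ((Λ (F z))⁻¹ * Λ (G z b)) • F z := by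
    rw [mul_smul, ← h4, smul_smul, inv_mul_cancel₀ hΛ, one_smul]
  refine Pr.symm ⟨(Λ (F z))⁻¹ * Λ (G z b), ?_, h5⟩
  intro h0
  rw [h0, zero_smul] at h5
  exact hb h5

/-- The lift of a holomorphic map to the blow-up. -/
theorem exists_lift (hX : Surface X) (hl : Ker l q) (hq0 : q ≠ 0) {r : ℝ} {f : ℂ → V}
    (hf : ∀ z : ℂ, z ≠ 0 → ‖z‖ < r → HolP f z ∧ f z ∈ X)
    (hi : ∀ z₀ : ℂ, z₀ ≠ 0 → ‖z₀‖ < r → ∀ᶠ z in 𝓝[≠] z₀, ¬ Pr (f z) q) :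
    ∃ h : ℂ → ι → V, (∀ z : ℂ, z ≠ 0 → ‖z‖ < r → HolP h z ∧ h z ∈ blow l X) ∧
      ∀ z : ℂ, z ≠ 0 → ‖z‖ < r → ∀ b, h z b ≠ 0 → Pr (f z) (h z b) := by
  classical
  have hloc : ∀ z₀ : ℂ, ∃ (F : ℂ → V) (G : ℂ → ι → V) (k : ℕ), z₀ ≠ 0 → ‖z₀‖ < r →
      AnalyticAt ℂ F z₀ ∧ F z₀ ≠ 0 ∧ (∀ᶠ z in 𝓝 z₀, Pr (f z) (F z)) ∧
      AnalyticAt ℂ G z₀ ∧ (∀ᶠ z in 𝓝 z₀, G z ∈ blow l X) ∧
      ∀ᶠ z in 𝓝 z₀, phi l (F z) = (z - z₀) ^ k • G z := by
    intro z₀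
    by_cases h : z₀ ≠ 0 ∧ ‖z₀‖ < r
    · obtain ⟨F, G, k, h1⟩ := TrP_local hX hl hf hi h.1 h.2
      exact ⟨F, G, k, fun _ _ => h1⟩
    · exact ⟨fun _ => 0, fun _ _ => 0, 0, fun h1 h2 => absurd ⟨h1, h2⟩ h⟩
  choose F G k hFG using hloc
  have hf0 : ∀ z : ℂ, z ≠ 0 → ‖z‖ < r → f z ≠ 0 := fun z h1 h2 h3 => hX.zero (h3 ▸ (hf z h1 h2).2)
  refine ⟨fun z => if ∃ b, l b (f z) ≠ 0 then phi l (f z) else G z z, ?_, ?_⟩
  · intro z₀ hz₀ hz₀r
    obtain ⟨hF, hF0, hfF, hG, hGb, hGe⟩ := hFG z₀ hz₀ hz₀r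
    have hA : ∀ᶠ z in 𝓝 z₀, z ≠ 0 ∧ ‖z‖ < r :=
      (eventually_ne_nhds hz₀).and (continuous_norm.continuousAt.eventually_lt_const hz₀r)
    refine ⟨⟨G z₀, hG, hGb.self_of_nhds.2, ?_⟩, ?_⟩
    · have hi' : ∀ᶠ z in 𝓝 z₀, z ≠ z₀ → ¬ Pr (f z) q := by
        have := hi z₀ hz₀ hz₀r
        rwa [eventually_nhdsWithin_iff] at this
      filter_upwards [hfF, hGe, hi', hA] with z h1 h2 h3 h4
      split_ifs with h5
      · obtain ⟨c, hc, e⟩ := h1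
        have h6 : phi l (f z) = (c ^ 2 * (z - z₀) ^ k z₀) • G z₀ z := by
          rw [TrP_phi e, h2, smul_smul]
        refine ⟨_, ?_, h6⟩
        intro h7
        rw [h7, zero_smul] at h6
        exact H62.BU.phi_ne h5 h6
      · push Not at h5
        have h6 : z = z₀ := by
          by_contra h7
          exact h3 h7 ((TrP_forms hl (Pr.refl (f z)) (hf0 z h4.1 h4.2)).2 h5)
        rw [h6]
        exact Pr.refl _
    · show (if ∃ b, l b (f z₀) ≠ 0 then phi l (f z₀) else G z₀ z₀) ∈ blow l X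
      split_ifs with h5
      · exact H62.BU.dense_sub (H62.BU.phi_mem_dense (hf z₀ hz₀ hz₀r).2 h5)
      · exact hGb.self_of_nhds
  · intro z hz hzr b
    obtain ⟨hF, hF0, hfF, hG, hGb, hGe⟩ := hFG z hz hzr
    simp only
    split_ifs with h5
    · intro h6
      have h7 : phi l (f z) b = l b (f z) • f z := rfl
      rw [h7] at h6 ⊢
      have h8 : l b (f z) ≠ 0 := by
        intro h9
        rw [h9, zero_smul] at h6
        exact h6 rfl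
      exact Pr.symm ⟨_, h8, rfl⟩
    · intro h6
      exact (hfF.self_of_nhds).trans (TrP_prop hF hF0 hG hGe h6)

end Pool.Agent.H17BP

end
end

section

/-!
# TB Co: transformation of the coefficient of the form

If `ψ p = c p • σ (χ p)` then `c p ^ j * oC Ω ψ p = (det χ') ^ m * oC Ω σ (χ p)`.
-/

set_option autoImplicit false

open Topology Filter Metric

noncomputable section

namespace Pool.Agent.H36.TB

open Pool.Agent.H17BP (Pr Surface IsForm NoZeros Eqs IsChart Tan chart_iff surface_iff isForm_iff)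
open Pool.Agent.H62.BU (blow total phi om)

variable {V : Type} [NormedAddCommGroup V] [NormedSpace ℂ V]

theorem co_pair (L : (ℂ × ℂ) →L[ℂ] V) (w : ℂ × ℂ) : L w = w.1 • L (1, 0) + w.2 • L (0, 1) := by
  rw [← map_smul, ← map_smul, ← map_add]
  congr 1
  ext
  · simp
  · simp

theorem tan_fd {X : Set V} {φ : ℂ × ℂ → V} {p : ℂ × ℂ} (hφ : AnalyticAt ℂ φ p) (h : ∀ᶠ y in 𝓝 p, φ y ∈ X) (w : ℂ × ℂ) :
    fderiv ℂ φ p w ∈ Tan X (φ p) := H62.BU.tan_fderiv hφ h w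

theorem tan_sm {X : Set V} (hX : ∀ x ∈ X, ∀ c : ℂ, c ≠ 0 → c • x ∈ X) {x v : V} (hv : v ∈ Tan X x) {c : ℂ} (hc : c ≠ 0) :
    c • v ∈ Tan X (c • x) := by
  obtain ⟨γ, hγ, hmem, h0, hd⟩ := hv
  refine ⟨fun z => c • γ z, analyticAt_const.smul hγ, ?_, by show c • γ 0 = c • x; rw [h0], ?_⟩
  · filter_upwards [hmem] with z hz
    exact hX _ hz c hc
  · have h1 : HasDerivAt γ v 0 := by
      rw [← hd]; exact hγ.differentiableAt.hasDerivAt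
    exact (h1.const_smul c).deriv

/-- the Jacobian -/
def jc (χ : ℂ × ℂ → ℂ × ℂ) (p : ℂ × ℂ) : ℂ :=
  (fderiv ℂ χ p (1, 0)).1 * (fderiv ℂ χ p (0, 1)).2 - (fderiv ℂ χ p (1, 0)).2 * (fderiv ℂ χ p (0, 1)).1

theorem jc_cont {χ : ℂ × ℂ → ℂ × ℂ} {p : ℂ × ℂ} (hχ : AnalyticAt ℂ χ p) : ContinuousAt (jc χ) p := by
  have h1 : ContinuousAt (fderiv ℂ χ) p := hχ.fderiv.continuousAt
  have h2 : ∀ w, ContinuousAt (fun y => fderiv ℂ χ y w) p := fun w => h1.clm_apply continuousAt_const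
  exact ((h2 _).fst.mul (h2 _).snd).sub ((h2 _).snd.mul (h2 _).fst)

/-- transformation of the coefficient -/
theorem oC_comp {X : Set V} (hX : ∀ x ∈ X, ∀ c : ℂ, c ≠ 0 → c • x ∈ X) {m j : ℕ} {Ω : V → V → V → ℂ} (hΩ : IsForm X m j Ω)
    {σ ψ : ℂ × ℂ → V} {c : ℂ × ℂ → ℂ} {χ : ℂ × ℂ → ℂ × ℂ} {p : ℂ × ℂ} (hc : AnalyticAt ℂ c p) (hχ : AnalyticAt ℂ χ p)
    (hσ : AnalyticAt ℂ σ (χ p)) (hσX : ∀ᶠ y in 𝓝 (χ p), σ y ∈ X) (h0 : c p ≠ 0) (h : ∀ᶠ y in 𝓝 p, ψ y = c y • σ (χ y)) :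
    c p ^ j * oC Ω ψ p = jc χ p ^ m * oC Ω σ (χ p) := by
  have hD : ∀ w, fderiv ℂ ψ p w = c p • fderiv ℂ σ (χ p) (fderiv ℂ χ p w) + (fderiv ℂ c p w) • σ (χ p) := by
    intro w
    have hD1 : HasFDerivAt (fun y => σ (χ y)) ((fderiv ℂ σ (χ p)).comp (fderiv ℂ χ p)) p :=
      HasFDerivAt.comp (g := σ) (f := χ) p hσ.differentiableAt.hasFDerivAt hχ.differentiableAt.hasFDerivAt
    have hD2 : HasFDerivAt (fun y => c y • σ (χ y))
        (c p • ((fderiv ℂ σ (χ p)).comp (fderiv ℂ χ p)) + (fderiv ℂ c p).smulRight (σ (χ p))) p :=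
      hc.differentiableAt.hasFDerivAt.smul hD1
    have hD3 := hD2.congr_of_eventuallyEq h
    rw [hD3.fderiv]
    rfl
  have hx : σ (χ p) ∈ X := hσX.self_of_nhds
  set x : V := σ (χ p) with hxd
  set A : ℂ × ℂ := fderiv ℂ χ p (1, 0) with hA
  set B : ℂ × ℂ := fderiv ℂ χ p (0, 1) with hB
  have ht : ∀ w, fderiv ℂ σ (χ p) w ∈ Tan X x := fun w => tan_fd hσ hσX w
  have hV : fderiv ℂ ψ p (1, 0) = c p • fderiv ℂ σ (χ p) A + (fderiv ℂ c p (1, 0) * (c p)⁻¹) • (c p • x) := by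
    rw [hD (1, 0), smul_smul _ (c p) x, mul_assoc, inv_mul_cancel₀ h0, mul_one]
  have hW : fderiv ℂ ψ p (0, 1) = c p • fderiv ℂ σ (χ p) B + (fderiv ℂ c p (0, 1) * (c p)⁻¹) • (c p • x) := by
    rw [hD (0, 1), smul_smul _ (c p) x, mul_assoc, inv_mul_cancel₀ h0, mul_one]
  have hcx : c p • x ∈ X := hX _ hx _ h0
  have h1 := hΩ.add_smul (c p • x) hcx _ (tan_sm hX (ht A) h0) _ (tan_sm hX (ht B) h0) (fderiv ℂ c p (1, 0) * (c p)⁻¹)
    (fderiv ℂ c p (0, 1) * (c p)⁻¹)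
  have h2 := hΩ.scale x hx _ (ht A) _ (ht B) (c p) h0
  have h3 := hΩ.det x hx _ (ht (1, 0)) _ (ht (0, 1)) A.1 A.2 B.1 B.2
  rw [← co_pair, ← co_pair] at h3
  have h4 : oC Ω ψ p = Ω (c p • x) (c p • fderiv ℂ σ (χ p) A) (c p • fderiv ℂ σ (χ p) B) := by
    unfold oC
    rw [h.self_of_nhds, ← hxd, hV, hW]
    exact h1
  rw [h4, h2, h3]
  rfl

/-- a map into the surface in a chart -/
theorem exists_fac {X : Set V} (hX : ∀ x ∈ X, ∀ c : ℂ, c ≠ 0 → c • x ∈ X) {σ : ℂ × ℂ → V} {τ : V → ℂ × ℂ} (h : IsChart X σ τ)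
    {ψ : ℂ × ℂ → V} {a : ℂ} (ha : a ≠ 0) (hψ : AnalyticAt ℂ ψ 0) (hψX : ∀ᶠ p in 𝓝 (0 : ℂ × ℂ), ψ p ∈ X) (hψ0 : ψ 0 = a • σ 0) :
    ∃ c : ℂ × ℂ → ℂ, AnalyticAt ℂ c 0 ∧ c 0 = a ∧ AnalyticAt ℂ (fun p => τ (a⁻¹ • ψ p)) 0 ∧ τ (a⁻¹ • ψ 0) = 0 ∧
      ∀ᶠ p in 𝓝 (0 : ℂ × ℂ), ψ p = c p • σ (τ (a⁻¹ • ψ p)) := by
  obtain ⟨Λ, -, hΛ⟩ := exists_dual_vector ℂ (σ 0) (norm_ne_zero_iff.mpr h.ne)
  have hΛ0 : Λ (σ 0) ≠ 0 := by
    rw [hΛ]
    exact Complex.ofReal_ne_zero.mpr (norm_ne_zero_iff.mpr h.ne)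
  have e0 : a⁻¹ • ψ 0 = σ 0 := by rw [hψ0, smul_smul, inv_mul_cancel₀ ha, one_smul]
  have eτ : τ (a⁻¹ • ψ 0) = 0 := by rw [e0]; exact h.left.self_of_nhds
  have hψ' : AnalyticAt ℂ (fun p => a⁻¹ • ψ p) 0 := analyticAt_const.smul hψ
  have hτ : AnalyticAt ℂ (fun p => τ (a⁻¹ • ψ p)) 0 := by
    have h1 : AnalyticAt ℂ τ (a⁻¹ • ψ 0) := by rw [e0]; exact h.τ_an
    exact AnalyticAt.comp (g := τ) (f := fun p => a⁻¹ • ψ p) h1 hψ'
  have hσ : AnalyticAt ℂ (fun p => σ (τ (a⁻¹ • ψ p))) 0 := by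
    have h1 : AnalyticAt ℂ σ (τ (a⁻¹ • ψ 0)) := by rw [eτ]; exact h.σ_an
    exact AnalyticAt.comp (g := σ) (f := fun p => τ (a⁻¹ • ψ p)) h1 hτ
  have hden : AnalyticAt ℂ (fun p => Λ (σ (τ (a⁻¹ • ψ p)))) 0 := (Λ.analyticAt _).comp hσ
  have hden0 : Λ (σ (τ (a⁻¹ • ψ 0))) ≠ 0 := by rw [eτ]; exact hΛ0
  refine ⟨fun p => Λ (ψ p) / Λ (σ (τ (a⁻¹ • ψ p))), ((Λ.analyticAt _).comp hψ).div hden hden0, ?_, hτ, eτ, ?_⟩
  · show Λ (ψ 0) / Λ (σ (τ (a⁻¹ • ψ 0))) = a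
    rw [eτ, hψ0, map_smul, smul_eq_mul, mul_div_cancel_right₀ _ hΛ0]
  · have ht : Tendsto (fun p => a⁻¹ • ψ p) (𝓝 0) (𝓝 (σ 0)) := by
      have := hψ'.continuousAt.tendsto
      rwa [e0] at this
    filter_upwards [ht.eventually h.right, hψX, hden.continuousAt.eventually_ne hden0] with p h1 h2 h3
    obtain ⟨c, -, hc⟩ := h1 (hX _ h2 _ (inv_ne_zero ha))
    have h4 : ψ p = (a * c) • σ (τ (a⁻¹ • ψ p)) := by
      rw [mul_smul, ← hc, smul_smul, mul_inv_cancel₀ ha, one_smul]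
    have h5 : Λ (ψ p) / Λ (σ (τ (a⁻¹ • ψ p))) = a * c := by
      rw [div_eq_iff h3]
      conv_lhs => rw [h4]
      rw [map_smul, smul_eq_mul]
    rw [h5]
    exact h4

/-- the coefficient in a map into the surface is at most a constant times the coefficient in the chart -/
theorem oC_le [FiniteDimensional ℂ V] {X : Set V} (hX : ∀ x ∈ X, ∀ c : ℂ, c ≠ 0 → c • x ∈ X) {m j : ℕ} {Ω : V → V → V → ℂ} (hΩ : IsForm X m j Ω)
    {σ : ℂ × ℂ → V} {τ : V → ℂ × ℂ} (h : IsChart X σ τ) {ψ : ℂ × ℂ → V} {a : ℂ} (ha : a ≠ 0) (hψ : AnalyticAt ℂ ψ 0)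
    (hψX : ∀ᶠ p in 𝓝 (0 : ℂ × ℂ), ψ p ∈ X) (hψ0 : ψ 0 = a • σ 0) :
    ∃ B : ℝ, 0 < B ∧ ∀ᶠ p in 𝓝 (0 : ℂ × ℂ), ‖oC Ω ψ p‖ ≤ B * ‖oC Ω σ (τ (a⁻¹ • ψ p))‖ := by
  have : CompleteSpace V := FiniteDimensional.complete ℂ V
  obtain ⟨c, hc, hc0, hτ, hτ0, hfac⟩ := exists_fac hX h ha hψ hψX hψ0
  set χ : ℂ × ℂ → ℂ × ℂ := fun p => τ (a⁻¹ • ψ p) with hχ
  have hcne : c 0 ≠ 0 := by rw [hc0]; exact ha
  have hq : ContinuousAt (fun p => jc χ p ^ m / c p ^ j) 0 :=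
    ((jc_cont hτ).pow m).div (hc.continuousAt.pow j) (pow_ne_zero _ hcne)
  have hχt : Tendsto χ (𝓝 0) (𝓝 0) := by
    have h1 : Tendsto χ (𝓝 0) (𝓝 (χ 0)) := hτ.continuousAt
    have h2 : χ 0 = 0 := hτ0
    rwa [h2] at h1
  refine ⟨‖jc χ 0 ^ m / c 0 ^ j‖ + 1, by positivity, ?_⟩
  filter_upwards [hq.norm.eventually_lt_const (lt_add_one _), hfac.eventually_nhds, hc.eventually_analyticAt,
    hτ.eventually_analyticAt, hχt.eventually h.σ_an.eventually_analyticAt, hχt.eventually h.σ_mem.eventually_nhds,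
    hc.continuousAt.eventually_ne hcne] with p h1 h2 h3 h4 h5 h6 h7
  have h8 := oC_comp hX hΩ h3 h4 h5 h6 h7 h2
  have h9 : oC Ω ψ p = jc χ p ^ m / c p ^ j * oC Ω σ (χ p) := by
    rw [div_mul_eq_mul_div, ← h8, mul_div_cancel_left₀ _ (pow_ne_zero _ h7)]
  rw [h9, norm_mul]
  exact mul_le_mul_of_nonneg_right h1.le (norm_nonneg _)

variable {ι : Type} [Fintype ι] {l : ι → V →L[ℂ] ℂ} {X : Set V}

/-- the coefficient of the form on the blow-up -/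
theorem oC_om (hX : Surface X) {m j : ℕ} {Ω : V → V → V → ℂ} (hΩ : IsForm X m j Ω) {σ₁ : ℂ × ℂ → ι → V} {p : ℂ × ℂ}
    (hσ : AnalyticAt ℂ σ₁ p) (hmem : ∀ᶠ y in 𝓝 p, σ₁ y ∈ blow l X) {b : ι} (hb : σ₁ p b ≠ 0) :
    oC (om l j Ω) σ₁ p = l b (σ₁ p b) ^ j * oC Ω (fun y => σ₁ y b) p ^ 2 := by
  have h4 : ∀ w : ℂ × ℂ, fderiv ℂ (fun y => σ₁ y b) p w = (fderiv ℂ σ₁ p w) b := by
    intro w
    have h5 := hσ.differentiableAt.hasFDerivAt
    have h6 : HasFDerivAt (fun y => σ₁ y b)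
        ((ContinuousLinearMap.proj (R := ℂ) (φ := fun _ : ι => V) b).comp (fderiv ℂ σ₁ p)) p :=
      ((ContinuousLinearMap.proj (R := ℂ) (φ := fun _ : ι => V) b).hasFDerivAt (x := σ₁ p)).comp p h5
    rw [h6.fderiv]
    rfl
  unfold oC
  rw [h4, h4]
  exact H62.BU.om_eq (surface_iff.2 hX) (isForm_iff.2 hΩ) hmem.self_of_nhds (H62.BU.tan_fderiv hσ hmem (1, 0))
    (H62.BU.tan_fderiv hσ hmem (0, 1)) hb

end Pool.Agent.H36.TB

end
end

section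

/-!
# BD CAtlB: changes of charts

Let `τ p = χ'.q (χ.σ p)` and `P = {p | ‖p‖ ≤ 1 / 2 ∧ χ.σ p ∈ χ'.U ∧ ‖χ'.q (χ.σ p)‖ ≤ 1 / 2}`.  If `Good χ x` and `Good χ' x` then `χ.q x ∈ P` and `τ (χ.q x) = χ'.q x` (`x = a • χ.σ (χ.q x)`,
`q_smul`).  `τ` is analytic at the points of `P` (`σ_an`, `q_an`), `jac τ p ≠ 0` for `p ∈ P` (`jac_ne_zero` in `H14/PP/NodeGerm.lean`), and `P` is compact: it is closed because
`{x ∈ X | x ∈ χ'.U, ‖χ'.q x‖ ≤ 1 / 2}` is closed in `X` (see `H14/PP/ChartClosed.lean`; or: if `x n ∈ X ∩ χ'.U`, `‖χ'.q (x n)‖ ≤ 1 / 2`, `x n → x ∈ X` then `x n = a n • χ'.σ (χ'.q (x n))`,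
`χ'.q (x n) → p'`, `‖p'‖ ≤ 1 / 2` along an ultrafilter, `a n` converges because `χ'.σ p' ≠ 0` and `‖x‖ ≠ 0`, so `x = a • χ'.σ p'`, `a ≠ 0`, is in `χ'.U`).
`‖fderiv τ p‖` and `‖jac τ p‖⁻¹` are continuous on `P`, hence bounded.
Second order: otherwise there are `p n, p' n ∈ P` with `‖τ (p' n) - τ (p n) - Dτ_{p n} (p' n - p n)‖ > n ‖p' n - p n‖²`; along an ultrafilter `p n → p`, `p' n → p'` in `P`.  The left hand side is bounded
(`fderiv` is bounded on `P`, `τ` too), so `p = p'`.  `τ` is analytic near `p`; on a small ball around `p` `fderiv τ` is Lipschitz with a constant `M`, so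
`‖τ y - τ x - Dτ_x (y - x)‖ ≤ M ‖y - x‖²` there (mean value inequality for `y ↦ τ y - Dτ_x y` on the segment).  Contradiction for `n > M`.
-/

set_option autoImplicit false

open Topology Filter Metric

namespace Pool.Agent.H5.BD

open Pool.Agent.H36.BP (EN fs wd)
open Pool.Agent.H14.PP (IsCone Chart Form Tan aCoef jac)
open Pool.Agent.H62.EF (MN pr det2)

variable {N : ℕ} {X : Set (EN N)}

/-- the common domain of two charts -/
private def CAtlB_P {X : Set (EN N)} (χ χ' : Chart X) : Set (ℂ × ℂ) :=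
  {p | ‖p‖ ≤ 1 / 2 ∧ χ.σ p ∈ χ'.U ∧ ‖χ'.q (χ.σ p)‖ ≤ 1 / 2}

private theorem CAtlB_ball {χ χ' : Chart X} {p : ℂ × ℂ} (hp : p ∈ CAtlB_P χ χ') : p ∈ ball (0 : ℂ × ℂ) 2 := by
  rw [mem_ball, dist_zero_right]
  linarith [hp.1]

private theorem CAtlB_compact (hX : IsCone X) (χ χ' : Chart X) : IsCompact (CAtlB_P χ χ') := by
  have hcomp : IsCompact (closedBall (0 : ℂ × ℂ) (1 / 2)) := isCompact_closedBall _ _
  have hcont : ContinuousOn χ.σ (closedBall (0 : ℂ × ℂ) (1 / 2)) := fun p hp =>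
    (χ.σ_an p (closedBall_subset_ball (by norm_num) hp)).continuousAt.continuousWithinAt
  have hcl := Pool.Agent.H14.PP.Chart.isClosed hX χ' (r := 1 / 2) (by norm_num) (by norm_num)
  have h1 : IsClosed (closedBall (0 : ℂ × ℂ) (1 / 2) ∩ χ.σ ⁻¹' (insert (0 : EN N) {x | x ∈ X ∧ x ∈ χ'.U ∧ ‖χ'.q x‖ ≤ 1 / 2})) :=
    hcont.preimage_isClosed_of_isClosed isClosed_closedBall hcl
  have h2 : CAtlB_P χ χ' = closedBall (0 : ℂ × ℂ) (1 / 2) ∩
      χ.σ ⁻¹' (insert (0 : EN N) {x | x ∈ X ∧ x ∈ χ'.U ∧ ‖χ'.q x‖ ≤ 1 / 2}) := by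
    ext p
    constructor
    · rintro ⟨h3, h4, h5⟩
      refine ⟨mem_closedBall_zero_iff.2 h3, Or.inr ⟨(χ.σ_mem p ?_).1, h4, h5⟩⟩
      rw [mem_ball, dist_zero_right]
      linarith
    · rintro ⟨h3, h4⟩
      have h5 : p ∈ ball (0 : ℂ × ℂ) 2 := closedBall_subset_ball (by norm_num) h3
      rcases h4 with h4 | h4
      · exact absurd h4 (χ.sigma_ne_zero hX h5)
      · exact ⟨mem_closedBall_zero_iff.1 h3, h4.2.1, h4.2.2⟩
  rw [h2]
  exact hcomp.of_isClosed_subset h1 Set.inter_subset_left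

private theorem CAtlB_an {χ χ' : Chart X} {p : ℂ × ℂ} (hp : p ∈ CAtlB_P χ χ') : AnalyticAt ℂ (fun y => χ'.q (χ.σ y)) p :=
  AnalyticAt.comp (g := χ'.q) (f := χ.σ) (χ'.q_an _ hp.2.1) (χ.σ_an p (CAtlB_ball hp))

private theorem CAtlB_mem (χ χ' : Chart X) {x : EN N} (h : Good χ x) (h' : Good χ' x) :
    χ.q x ∈ CAtlB_P χ χ' ∧ χ'.q (χ.σ (χ.q x)) = χ'.q x := by
  obtain ⟨h1, c, hc, h2⟩ := χ.surj x h.1 h.2.1
  have h3 : χ.σ (χ.q x) = c⁻¹ • x := by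
    conv_rhs => rw [h2]
    rw [smul_smul, inv_mul_cancel₀ hc, one_smul]
  have hc' : c⁻¹ ≠ 0 := inv_ne_zero hc
  have h4 : χ'.q (χ.σ (χ.q x)) = χ'.q x := by rw [h3, χ'.q_smul x h'.2.1 _ hc']
  refine ⟨⟨h.2.2, ?_, ?_⟩, h4⟩
  · rw [h3]; exact χ'.smul_U x h'.2.1 _ hc'
  · rw [h4]; exact h'.2.2

/-- the second order estimate near a point -/
private theorem CAtlB_taylor {τ : ℂ × ℂ → ℂ × ℂ} {p : ℂ × ℂ} (h : AnalyticAt ℂ τ p) :
    ∃ (r M : ℝ), 0 < r ∧ 0 ≤ M ∧ ∀ x ∈ ball p r, ∀ y ∈ ball p r, ‖τ y - τ x - fderiv ℂ τ x (y - x)‖ ≤ M * ‖y - x‖ ^ 2 := by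
  have h1 : ContDiffAt ℂ 1 (fderiv ℂ τ) p := h.fderiv.contDiffAt
  obtain ⟨K, t, ht, hK⟩ := h1.exists_lipschitzOnWith
  obtain ⟨r, hr, hrt⟩ := Metric.mem_nhds_iff.1 (Filter.inter_mem ht h.eventually_analyticAt)
  refine ⟨r, K, hr, K.2, fun x hx y hy => ?_⟩
  have hseg : segment ℝ x y ⊆ ball p r := (convex_ball p r).segment_subset hx hy
  have h2 : ∀ z ∈ segment ℝ x y, HasFDerivWithinAt τ (fderiv ℂ τ z) (segment ℝ x y) z := fun z hz =>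
    (hrt (hseg hz)).2.differentiableAt.hasFDerivAt.hasFDerivWithinAt
  have h3 : ∀ z ∈ segment ℝ x y, ‖fderiv ℂ τ z - fderiv ℂ τ x‖ ≤ K * ‖y - x‖ := by
    intro z hz
    refine (hK.norm_sub_le (hrt (hseg hz)).1 (hrt hx).1).trans ?_
    exact mul_le_mul_of_nonneg_left (norm_sub_le_of_mem_segment hz) K.2
  have h4 := Convex.norm_image_sub_le_of_norm_hasFDerivWithin_le' h2 h3 (convex_segment x y) (left_mem_segment ℝ x y)
    (right_mem_segment ℝ x y)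
  calc ‖τ y - τ x - fderiv ℂ τ x (y - x)‖ ≤ K * ‖y - x‖ * ‖y - x‖ := h4
    _ = K * ‖y - x‖ ^ 2 := by ring

/-- the second order estimate on a compact set -/
private theorem CAtlB_second {τ : ℂ × ℂ → ℂ × ℂ} {P : Set (ℂ × ℂ)} (hP : IsCompact P) (h : ∀ p ∈ P, AnalyticAt ℂ τ p) :
    ∃ C : ℝ, 0 ≤ C ∧ ∀ x ∈ P, ∀ y ∈ P, ‖τ y - τ x - fderiv ℂ τ x (y - x)‖ ≤ C * ‖y - x‖ ^ 2 := by
  have hcont : ContinuousOn (fun z : (ℂ × ℂ) × (ℂ × ℂ) => ‖τ z.2 - τ z.1 - fderiv ℂ τ z.1 (z.2 - z.1)‖) (P ×ˢ P) := by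
    have hτ : ContinuousOn τ P := fun p hp => (h p hp).continuousAt.continuousWithinAt
    have hd : ContinuousOn (fderiv ℂ τ) P := fun p hp => (h p hp).fderiv.continuousAt.continuousWithinAt
    have h1 : ContinuousOn (fun z : (ℂ × ℂ) × (ℂ × ℂ) => τ z.2) (P ×ˢ P) := hτ.comp continuousOn_snd fun z hz => hz.2
    have h2 : ContinuousOn (fun z : (ℂ × ℂ) × (ℂ × ℂ) => τ z.1) (P ×ˢ P) := hτ.comp continuousOn_fst fun z hz => hz.1
    have h3 : ContinuousOn (fun z : (ℂ × ℂ) × (ℂ × ℂ) => fderiv ℂ τ z.1) (P ×ˢ P) := hd.comp continuousOn_fst fun z hz => hz.1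
    exact ((h1.sub h2).sub (h3.clm_apply (continuousOn_snd.sub continuousOn_fst))).norm
  have key : ∃ C : ℝ, 0 ≤ C ∧ ∀ z ∈ P ×ˢ P, ‖τ z.2 - τ z.1 - fderiv ℂ τ z.1 (z.2 - z.1)‖ ≤ C * ‖z.2 - z.1‖ ^ 2 := by
    refine (hP.prod hP).induction_on (p := fun s => ∃ C : ℝ, 0 ≤ C ∧ ∀ z ∈ s, ‖τ z.2 - τ z.1 - fderiv ℂ τ z.1 (z.2 - z.1)‖ ≤ C * ‖z.2 - z.1‖ ^ 2)
      ⟨0, le_rfl, fun z hz => absurd hz (Set.notMem_empty z)⟩ ?_ ?_ ?_
    · rintro s t hst ⟨C, hC, hC'⟩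
      exact ⟨C, hC, fun z hz => hC' z (hst hz)⟩
    · rintro s t ⟨C, hC, hC'⟩ ⟨D, hD, hD'⟩
      refine ⟨C + D, by linarith, fun z hz => ?_⟩
      rcases hz with hz | hz
      · exact (hC' z hz).trans (mul_le_mul_of_nonneg_right (by linarith) (by positivity))
      · exact (hD' z hz).trans (mul_le_mul_of_nonneg_right (by linarith) (by positivity))
    · rintro ⟨p, p'⟩ hpp
      by_cases hne : p = p'
      · subst hne
        obtain ⟨r, M, hr, hM, hrM⟩ := CAtlB_taylor (h p hpp.1)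
        refine ⟨ball p r ×ˢ ball p r, mem_nhdsWithin_of_mem_nhds (prod_mem_nhds (ball_mem_nhds p hr) (ball_mem_nhds p hr)), M, hM, ?_⟩
        rintro z hz
        exact hrM z.1 hz.1 z.2 hz.2
      · have hd : 0 < ‖p' - p‖ := norm_pos_iff.2 (sub_ne_zero.2 (Ne.symm hne))
        set F : (ℂ × ℂ) × (ℂ × ℂ) → ℝ := fun z => ‖τ z.2 - τ z.1 - fderiv ℂ τ z.1 (z.2 - z.1)‖ with hF
        have h1 : ∀ᶠ z in 𝓝[P ×ˢ P] (p, p'), F z < F (p, p') + 1 := (hcont _ hpp).eventually_lt_const (by linarith)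
        have h2 : ContinuousAt (fun z : (ℂ × ℂ) × (ℂ × ℂ) => ‖z.2 - z.1‖) (p, p') := by fun_prop
        have h3 : ∀ᶠ z in 𝓝 (p, p'), ‖p' - p‖ / 2 < ‖(z : (ℂ × ℂ) × (ℂ × ℂ)).2 - z.1‖ := h2.eventually_const_lt (by show ‖p' - p‖ / 2 < ‖p' - p‖; linarith)
        have hF0 : 0 ≤ F (p, p') := norm_nonneg _
        refine ⟨{z | F z < F (p, p') + 1 ∧ ‖p' - p‖ / 2 < ‖z.2 - z.1‖}, h1.and (mem_nhdsWithin_of_mem_nhds h3),
          (F (p, p') + 1) / (‖p' - p‖ / 2) ^ 2, by positivity, ?_⟩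
        rintro z ⟨hz1, hz2⟩
        have h4 : (‖p' - p‖ / 2) ^ 2 ≤ ‖z.2 - z.1‖ ^ 2 := pow_le_pow_left₀ (by positivity) hz2.le 2
        have h5 : (F (p, p') + 1) / (‖p' - p‖ / 2) ^ 2 * (‖p' - p‖ / 2) ^ 2 = F (p, p') + 1 := by
          field_simp
        have h6 : (F (p, p') + 1) / (‖p' - p‖ / 2) ^ 2 * (‖p' - p‖ / 2) ^ 2 ≤ (F (p, p') + 1) / (‖p' - p‖ / 2) ^ 2 * ‖z.2 - z.1‖ ^ 2 :=
          mul_le_mul_of_nonneg_left h4 (by positivity)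
        rw [h5] at h6
        exact hz1.le.trans h6
  obtain ⟨C, hC, hC'⟩ := key
  exact ⟨C, hC, fun x hx y hy => hC' (x, y) ⟨hx, hy⟩⟩

theorem chart_trans (hX : IsCone X) (χ χ' : Chart X) : ∃ C : ℝ, 1 ≤ C ∧
    (∀ x, Good χ x → Good χ' x → ‖fderiv ℂ (fun p => χ'.q (χ.σ p)) (χ.q x)‖ ≤ C ∧
      1 ≤ C * ‖jac (fun p => χ'.q (χ.σ p)) (χ.q x)‖) ∧
    ∀ x y, Good χ x → Good χ' x → Good χ y → Good χ' y →
      ‖χ'.q y - χ'.q x - fderiv ℂ (fun p => χ'.q (χ.σ p)) (χ.q x) (χ.q y - χ.q x)‖ ≤ C * ‖χ.q y - χ.q x‖ ^ 2 := by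
  have hP := CAtlB_compact hX χ χ'
  set τ : ℂ × ℂ → ℂ × ℂ := fun p => χ'.q (χ.σ p) with hτ
  have han : ∀ p ∈ CAtlB_P χ χ', AnalyticAt ℂ τ p := fun p hp => CAtlB_an hp
  have hfd : ContinuousOn (fderiv ℂ τ) (CAtlB_P χ χ') := fun p hp => (han p hp).fderiv.continuousAt.continuousWithinAt
  obtain ⟨C₁, hC₁⟩ := hP.exists_bound_of_continuousOn hfd
  have hjc : ContinuousOn (jac τ) (CAtlB_P χ χ') := by
    unfold jac
    have h1 : ∀ v : ℂ × ℂ, ContinuousOn (fun p => fderiv ℂ τ p v) (CAtlB_P χ χ') := fun v => hfd.clm_apply continuousOn_const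
    exact ((h1 (1, 0)).fst.mul (h1 (0, 1)).snd).sub ((h1 (0, 1)).fst.mul (h1 (1, 0)).snd)
  have hj0 : ∀ p ∈ CAtlB_P χ χ', jac τ p ≠ 0 := fun p hp => Pool.Agent.H14.PP.jac_ne_zero hX χ χ' (CAtlB_ball hp) hp.2.1
  obtain ⟨C₂, hC₂⟩ := hP.exists_bound_of_continuousOn (hjc.inv₀ hj0)
  obtain ⟨C₃, hC₃, hC₃'⟩ := CAtlB_second hP han
  refine ⟨1 + |C₁| + |C₂| + C₃, by have := abs_nonneg C₁; have := abs_nonneg C₂; linarith, fun x hx hx' => ⟨?_, ?_⟩, fun x y hx hx' hy hy' => ?_⟩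
  · have h1 := hC₁ _ (CAtlB_mem χ χ' hx hx').1
    have h2 := le_abs_self C₁
    have h3 := abs_nonneg C₂
    linarith
  · have hm := (CAtlB_mem χ χ' hx hx').1
    have h1 := hC₂ _ hm
    have h2 := le_abs_self C₂
    have h3 := abs_nonneg C₁
    have h4 : 0 < ‖jac τ (χ.q x)‖ := norm_pos_iff.2 (hj0 _ hm)
    rw [Pi.inv_apply, norm_inv, inv_le_iff_one_le_mul₀ h4] at h1
    refine h1.trans (mul_le_mul_of_nonneg_right ?_ h4.le)
    linarith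
  · obtain ⟨hm, he⟩ := CAtlB_mem χ χ' hx hx'
    obtain ⟨hm', he'⟩ := CAtlB_mem χ χ' hy hy'
    have h1 := hC₃' _ hm _ hm'
    have h2 : τ (χ.q x) = χ'.q x := he
    have h3 : τ (χ.q y) = χ'.q y := he'
    rw [h2, h3] at h1
    refine h1.trans (mul_le_mul_of_nonneg_right ?_ (by positivity))
    have h4 := abs_nonneg C₁
    have h5 := abs_nonneg C₂
    linarith

end Pool.Agent.H5.BD

end

section

/-!
# BD CAtlA: a finite cover by charts; a chart is bi-Lipschitz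

`exists_cover`.  For `x₀ ∈ X` let `χ` be a chart with `x₀ ∈ χ.U`, `χ.q x₀ = 0` (`Charts`).  `{y ∈ χ.U | ‖χ.q y‖ < 1 / 2}` is a neighbourhood of `x₀` and closed under multiplication by non-zero
constants (`smul_U`, `q_smul`), so by `near_of_pr` there is `d x₀ > 0` such that `Good χ y` for all `y ∈ X` with `dist (pr y) (pr x₀) < 2 d x₀`.  The compact set `pr '' X` (`isCompact_pr`) is covered by
finitely many balls `ball (pr (x i)) (d (x i))`, `i : Fin n`, `n ≥ 1` (add one if necessary; `X` is not empty).  `δ = min (d (x i))`, and `idx y` is an `i` with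
`dist y (pr (x i)) < d (x i)` if there is one, and arbitrary otherwise.

`chart_bilip`.  Let `P = closedBall (0 : ℂ × ℂ) (1 / 2)`.  If `Good χ x` then `x = a • χ.σ (χ.q x)`, `a ≠ 0` (`surj`), so `pr x = pr (χ.σ (χ.q x))` (`pr_smul`), `χ.q x ∈ P`.
(a) Lipschitz: `dist (pr y) (pr y') = √2 wd y y' / (‖y‖ ‖y'‖)` (`dist_pr`) `≤ √2 ‖y - y'‖ / ‖y'‖`-like (`wd y y' = wd y (y' - y) ≤ ‖y‖ ‖y' - y‖`), `‖χ.σ p‖` is bounded below on `P`, and
`χ.σ` is Lipschitz on the convex compact set `P` (analytic on `ball 0 2`).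
(b) Otherwise there are `p n, p' n ∈ P` with `‖p n - p' n‖ > n * dist (pr (χ.σ (p n))) (pr (χ.σ (p' n)))`; along an ultrafilter `p n → p`, `p' n → p'`; `pr (χ.σ p) = pr (χ.σ p')`, so `χ.σ p` is a
multiple of `χ.σ p'` (`pr_eq_iff`) and `p = χ.q (χ.σ p) = p'`.  Let `x₀ = χ.σ p`.  For a matrix `y` near `pr x₀` let `Q y = χ.q (y ⬝ x₀)`, `(y ⬝ x₀) i = ∑ j, y (i, j) * x₀ j`: `y ↦ y ⬝ x₀` is linear,
`(pr x) ⬝ x₀ = (⟨x, x₀⟩ / ‖x‖²) • x` (compare `H62/EF/Loc.lean`), `(pr x₀) ⬝ x₀ = x₀`, so `Q` is analytic at `pr x₀`, hence Lipschitz near `pr x₀`, and `χ.q x = Q (pr x)` for `x ∈ χ.U` with `pr x` near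
`pr x₀`.  So `‖p n - p' n‖ ≤ K dist (pr (χ.σ (p n))) (pr (χ.σ (p' n)))` for almost all `n`: contradiction.
-/

set_option autoImplicit false

open Topology Filter Metric

namespace Pool.Agent.H5.BD

open Pool.Agent.H36.BP (EN fs wd)
open Pool.Agent.H14.PP (IsCone Chart Form Tan aCoef jac)
open Pool.Agent.H62.EF (MN pr det2 Charts)

variable {N : ℕ} {X : Set (EN N)}

/-- the points near a point of the cone are in the middle of a chart -/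
private theorem CAtlA_near (hX : IsCone X) (hch : Charts X) {x₀ : EN N} (hx₀ : x₀ ∈ X) :
    ∃ (χ : Chart X) (δ : ℝ), 0 < δ ∧ ∀ y ∈ X, dist (pr y) (pr x₀) < δ → Good χ y := by
  obtain ⟨χ, hU, hq⟩ := hch x₀ hx₀
  have hV : {y | y ∈ χ.U ∧ ‖χ.q y‖ < 1 / 2} ∈ 𝓝 x₀ := by
    have h1 : ∀ᶠ y in 𝓝 x₀, y ∈ χ.U := χ.isOpen_U.mem_nhds hU
    have h2 : ∀ᶠ y in 𝓝 x₀, ‖χ.q y‖ < 1 / 2 := by
      have hc : ContinuousAt (fun y => ‖χ.q y‖) x₀ := (χ.q_an x₀ hU).continuousAt.norm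
      apply hc.eventually_lt_const
      change ‖χ.q x₀‖ < 1 / 2
      rw [hq, norm_zero]
      norm_num
    exact h1.and h2
  obtain ⟨δ, hδ, h⟩ := Pool.Agent.H62.EF.near_of_pr (hX.ne_zero hx₀) hV
  refine ⟨χ, δ, hδ, fun y hy hd => ?_⟩
  obtain ⟨c, hc, hcU, hcq⟩ := h y (hX.ne_zero hy) hd
  have hy' : c⁻¹ • (c • y) = y := by
    rw [smul_smul, inv_mul_cancel₀ hc, one_smul]
  have hyU : y ∈ χ.U := by
    rw [← hy']
    exact χ.smul_U _ hcU _ (inv_ne_zero hc)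
  refine ⟨hy, hyU, ?_⟩
  rw [← χ.q_smul y hyU c hc]
  exact hcq.le

theorem exists_cover (hX : IsCone X) (hch : Charts X) (hne : X.Nonempty) :
    ∃ (n : ℕ) (χ : Fin n → Chart X) (idx : MN N → Fin n) (δ : ℝ), 0 < δ ∧
      ∀ x ∈ X, ∀ y ∈ X, dist (pr x) (pr y) ≤ δ → Good (χ (idx (pr x))) y := by
  classical
  choose! χ d hd hgood using fun x : X => CAtlA_near hX hch x.2
  obtain ⟨t, ht⟩ := (Pool.Agent.H62.EF.isCompact_pr hX).elim_finite_subcover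
    (fun x : X => ball (pr (x : EN N)) (d x / 2)) (fun _ => isOpen_ball) (by
      rintro _ ⟨x, hx, rfl⟩
      rw [Set.mem_iUnion]
      exact ⟨⟨x, hx⟩, mem_ball_self (half_pos (hd _))⟩)
  have htne : t.Nonempty := by
    obtain ⟨x, hx⟩ := hne
    have := ht (Set.mem_image_of_mem pr hx)
    rw [Set.mem_iUnion₂] at this
    obtain ⟨i, hi, -⟩ := this
    exact ⟨i, hi⟩
  obtain ⟨m, hm, hmin⟩ := t.exists_min_image (fun x => d x / 2) htne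
  have hcard : 0 < t.card := htne.card_pos
  let e : Fin t.card ≃ t := t.equivFin.symm
  let idx : MN N → Fin t.card := fun y =>
    if h : ∃ i : Fin t.card, dist y (pr ((e i : X) : EN N)) < d (e i) / 2 then h.choose else ⟨0, hcard⟩
  refine ⟨t.card, fun i => χ (e i), idx, d m / 2, half_pos (hd m), ?_⟩
  intro x hx y hy hxy
  have hex : ∃ i : Fin t.card, dist (pr x) (pr ((e i : X) : EN N)) < d (e i) / 2 := by
    have := ht (Set.mem_image_of_mem pr hx)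
    rw [Set.mem_iUnion₂] at this
    obtain ⟨i, hi, hb⟩ := this
    refine ⟨e.symm ⟨i, hi⟩, ?_⟩
    rw [Equiv.apply_symm_apply]
    exact hb
  have hidx : idx (pr x) = hex.choose := dif_pos hex
  have hspec := hex.choose_spec
  rw [← hidx] at hspec
  apply hgood
  · exact hy
  · have h1 : d m / 2 ≤ d (e (idx (pr x))) / 2 := hmin _ (e (idx (pr x))).2
    calc dist (pr y) (pr ((e (idx (pr x)) : X) : EN N))
        ≤ dist (pr y) (pr x) + dist (pr x) (pr ((e (idx (pr x)) : X) : EN N)) := dist_triangle _ _ _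
      _ < d m / 2 + d (e (idx (pr x))) / 2 := by
          rw [dist_comm (pr y) (pr x)]
          exact add_lt_add_of_le_of_lt hxy hspec
      _ ≤ d (e (idx (pr x))) / 2 + d (e (idx (pr x))) / 2 := by linarith
      _ = d (e (idx (pr x))) := add_halves _

private theorem CAtlA_sub {p : ℂ × ℂ} (hp : p ∈ closedBall (0 : ℂ × ℂ) (1 / 2)) :
    p ∈ ball (0 : ℂ × ℂ) 2 :=
  closedBall_subset_ball (by norm_num) hp

private theorem CAtlA_cont (χ : Chart X) : ContinuousOn χ.σ (closedBall (0 : ℂ × ℂ) (1 / 2)) :=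
  fun p hp => (χ.σ_an p (CAtlA_sub hp)).continuousAt.continuousWithinAt

/-- the parametrization is Lipschitz -/
private theorem CAtlA_lip (χ : Chart X) : ∃ K : ℝ, 0 ≤ K ∧ ∀ p ∈ closedBall (0 : ℂ × ℂ) (1 / 2),
    ∀ p' ∈ closedBall (0 : ℂ × ℂ) (1 / 2), ‖χ.σ p' - χ.σ p‖ ≤ K * ‖p' - p‖ := by
  have hcont : ContinuousOn (fun p => ‖fderiv ℂ χ.σ p‖) (closedBall (0 : ℂ × ℂ) (1 / 2)) :=
    fun p hp => (χ.σ_an p (CAtlA_sub hp)).fderiv.continuousAt.norm.continuousWithinAt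
  obtain ⟨K, hK⟩ := (isCompact_closedBall (0 : ℂ × ℂ) (1 / 2)).exists_bound_of_continuousOn hcont
  refine ⟨max K 0, le_max_right _ _, fun p hp p' hp' => ?_⟩
  have := (convex_closedBall (0 : ℂ × ℂ) (1 / 2)).norm_image_sub_le_of_norm_fderiv_le (𝕜 := ℂ) (f := χ.σ)
    (C := max K 0) (fun y hy => (χ.σ_an y (CAtlA_sub hy)).differentiableAt)
    (fun y hy => by
      have := hK y hy
      rw [norm_norm] at this
      exact this.trans (le_max_left _ _)) hp hp'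
  exact this

private theorem CAtlA_upper (hX : IsCone X) (χ : Chart X) : ∃ C : ℝ, 0 ≤ C ∧
    ∀ p ∈ closedBall (0 : ℂ × ℂ) (1 / 2), ∀ p' ∈ closedBall (0 : ℂ × ℂ) (1 / 2),
      dist (pr (χ.σ p)) (pr (χ.σ p')) ≤ C * ‖p - p'‖ := by
  obtain ⟨K, hK0, hK⟩ := CAtlA_lip χ
  obtain ⟨q, hq, hmin⟩ := (isCompact_closedBall (0 : ℂ × ℂ) (1 / 2)).exists_isMinOn
    ⟨0, mem_closedBall_self (by norm_num)⟩ (CAtlA_cont χ).norm
  have hm : 0 < ‖χ.σ q‖ := norm_pos_iff.2 (χ.sigma_ne_zero hX (CAtlA_sub hq))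
  refine ⟨Real.sqrt 2 * K / ‖χ.σ q‖, by positivity, fun p hp p' hp' => ?_⟩
  have h1 : χ.σ p ≠ 0 := χ.sigma_ne_zero hX (CAtlA_sub hp)
  have h2 : χ.σ p' ≠ 0 := χ.sigma_ne_zero hX (CAtlA_sub hp')
  have hwd : Pool.Agent.H36.BP.wd (χ.σ p) (χ.σ p') ≤ ‖χ.σ p‖ * ‖χ.σ p' - χ.σ p‖ := by
    have h3 := Pool.Agent.H36.BP.wd_inv (χ.σ p) (χ.σ p') 1 (-1)
    rw [one_smul, one_smul, neg_one_smul, ← sub_eq_add_neg, norm_one, one_pow, one_mul] at h3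
    rw [← h3]
    exact Pool.Agent.H36.BP.wd_le _ _
  have hmp : ‖χ.σ q‖ ≤ ‖χ.σ p'‖ := hmin hp'
  have hp0 : 0 < ‖χ.σ p‖ := norm_pos_iff.2 h1
  have hp0' : 0 < ‖χ.σ p'‖ := norm_pos_iff.2 h2
  rw [Pool.Agent.H62.EF.dist_pr h1 h2]
  calc Real.sqrt 2 * (Pool.Agent.H36.BP.wd (χ.σ p) (χ.σ p') / (‖χ.σ p‖ * ‖χ.σ p'‖))
      ≤ Real.sqrt 2 * ((‖χ.σ p‖ * ‖χ.σ p' - χ.σ p‖) / (‖χ.σ p‖ * ‖χ.σ p'‖)) := by
        gcongr
    _ = Real.sqrt 2 * (‖χ.σ p' - χ.σ p‖ / ‖χ.σ p'‖) := by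
        rw [mul_div_mul_left _ _ hp0.ne']
    _ ≤ Real.sqrt 2 * (K * ‖p' - p‖ / ‖χ.σ q‖) := by
        gcongr
        exact hK p hp p' hp'
    _ = Real.sqrt 2 * K / ‖χ.σ q‖ * ‖p - p'‖ := by
        rw [norm_sub_rev p' p]
        ring

/-- the product of a matrix and the vector `x₀` -/
private noncomputable def CAtlA_mul (x₀ : EN N) : MN N →ₗ[ℂ] EN N where
  toFun y := WithLp.toLp 2 fun i => ∑ j, y (i, j) * x₀ j
  map_add' y z := by
    ext i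
    simp [add_mul, Finset.sum_add_distrib]
  map_smul' c y := by
    ext i
    simp [Finset.mul_sum, mul_assoc]

private theorem CAtlA_mul_pr (x₀ x : EN N) :
    CAtlA_mul x₀ (pr x) = (inner ℂ x x₀ / ((‖x‖ ^ 2 : ℝ) : ℂ)) • x := by
  ext i
  simp only [CAtlA_mul, pr, LinearMap.coe_mk, AddHom.coe_mk, PiLp.smul_apply, smul_eq_mul]
  rw [PiLp.inner_apply, Finset.sum_div, Finset.sum_mul]
  refine Finset.sum_congr rfl fun j _ => ?_
  simp only [RCLike.inner_apply]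
  ring

private theorem CAtlA_mul_self {x₀ : EN N} (hx₀ : x₀ ≠ 0) : CAtlA_mul x₀ (pr x₀) = x₀ := by
  rw [CAtlA_mul_pr]
  have h1 : inner ℂ x₀ x₀ = ((‖x₀‖ ^ 2 : ℝ) : ℂ) := by
    rw [inner_self_eq_norm_sq_to_K]
    push_cast
    rfl
  rw [h1, div_self, one_smul]
  have : ‖x₀‖ ≠ 0 := norm_ne_zero_iff.2 hx₀
  exact_mod_cast pow_ne_zero 2 this

private theorem CAtlA_local (hX : IsCone X) (χ : Chart X) {a : ℂ × ℂ}
    (ha : a ∈ closedBall (0 : ℂ × ℂ) (1 / 2)) :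
    ∃ K : ℝ, ∀ᶠ p : (ℂ × ℂ) × (ℂ × ℂ) in 𝓝 (a, a), p.1 ∈ ball (0 : ℂ × ℂ) 2 → p.2 ∈ ball (0 : ℂ × ℂ) 2 →
      ‖p.1 - p.2‖ ≤ K * dist (pr (χ.σ p.1)) (pr (χ.σ p.2)) := by
  have haB := CAtlA_sub ha
  have hx₀ : χ.σ a ≠ 0 := χ.sigma_ne_zero hX haB
  set x₀ := χ.σ a with hx₀def
  let L : MN N →L[ℂ] EN N := LinearMap.toContinuousLinearMap (CAtlA_mul x₀)
  have hL : ∀ y, L y = CAtlA_mul x₀ y := fun y => rfl
  have hLx : L (pr x₀) = x₀ := by rw [hL, CAtlA_mul_self hx₀]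
  have hQan : AnalyticAt ℂ (fun y => χ.q (L y)) (pr x₀) := by
    have h1 : AnalyticAt ℂ χ.q (L (pr x₀)) := by
      rw [hLx]
      exact χ.q_an _ (χ.σ_mem a haB).2.1
    exact h1.comp (L.analyticAt _)
  obtain ⟨K, s, hs, hK⟩ := hQan.hasStrictFDerivAt.exists_lipschitzOnWith
  have hcpr : ContinuousAt (fun p => pr (χ.σ p)) a :=
    ContinuousAt.comp (g := pr) (Pool.Agent.H62.EF.continuousAt_pr hx₀) (χ.σ_an a haB).continuousAt
  have h1 : ∀ᶠ p in 𝓝 a, pr (χ.σ p) ∈ s := hcpr hs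
  have h2 : ∀ᶠ p in 𝓝 a, L (pr (χ.σ p)) ≠ 0 := by
    have hc : ContinuousAt (fun p => L (pr (χ.σ p))) a :=
      ContinuousAt.comp (g := L) L.continuous.continuousAt hcpr
    apply hc.eventually_ne
    rw [← hx₀def, hLx]
    exact hx₀
  have h3 : ∀ p, p ∈ ball (0 : ℂ × ℂ) 2 → L (pr (χ.σ p)) ≠ 0 → χ.q (L (pr (χ.σ p))) = p := by
    intro p hp hne
    rw [hL, CAtlA_mul_pr] at hne ⊢
    have hc : inner ℂ (χ.σ p) x₀ / ((‖χ.σ p‖ ^ 2 : ℝ) : ℂ) ≠ 0 := by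
      intro h0
      rw [h0, zero_smul] at hne
      exact hne rfl
    rw [χ.q_smul _ (χ.σ_mem p hp).2.1 _ hc]
    exact (χ.σ_mem p hp).2.2
  refine ⟨K, ?_⟩
  have h12 := h1.and h2
  rw [nhds_prod_eq]
  filter_upwards [h12.prod_mk h12] with p hp hp1 hp2
  have h4 := hK.dist_le_mul _ hp.1.1 _ hp.2.1
  simp only [h3 p.1 hp1 hp.1.2, h3 p.2 hp2 hp.2.2] at h4
  rw [dist_eq_norm p.1 p.2] at h4
  exact h4

private theorem CAtlA_lower (hX : IsCone X) (χ : Chart X) : ∃ C : ℝ,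
    ∀ p ∈ closedBall (0 : ℂ × ℂ) (1 / 2), ∀ p' ∈ closedBall (0 : ℂ × ℂ) (1 / 2),
      ‖p - p'‖ ≤ C * dist (pr (χ.σ p)) (pr (χ.σ p')) := by
  by_contra hcon
  push Not at hcon
  choose p hp p' hp' hlt using fun n : ℕ => hcon n
  have hcomp : IsCompact (closedBall (0 : ℂ × ℂ) (1 / 2) ×ˢ closedBall (0 : ℂ × ℂ) (1 / 2)) :=
    (isCompact_closedBall _ _).prod (isCompact_closedBall _ _)
  obtain ⟨⟨a, b⟩, ⟨ha, hb⟩, φ, hφ, hlim⟩ := hcomp.tendsto_subseq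
    (x := fun n => (p n, p' n)) (fun n => ⟨hp n, hp' n⟩)
  have hlim' : Tendsto (fun n => (p (φ n), p' (φ n))) atTop (𝓝 (a, b)) := hlim
  have hla : Tendsto (fun n => p (φ n)) atTop (𝓝 a) :=
    (continuous_fst.tendsto (a, b)).comp hlim'
  have hlb : Tendsto (fun n => p' (φ n)) atTop (𝓝 b) :=
    (continuous_snd.tendsto (a, b)).comp hlim'
  have hφt : Tendsto (fun n => ((φ n : ℕ) : ℝ)) atTop atTop :=
    tendsto_natCast_atTop_atTop.comp hφ.tendsto_atTop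
  have hca : ∀ c ∈ closedBall (0 : ℂ × ℂ) (1 / 2), ContinuousAt (fun p => pr (χ.σ p)) c := fun c hc =>
    ContinuousAt.comp (g := pr) (Pool.Agent.H62.EF.continuousAt_pr (χ.sigma_ne_zero hX (CAtlA_sub hc)))
      (χ.σ_an c (CAtlA_sub hc)).continuousAt
  have hab : a = b := by
    have hd : Tendsto (fun n => dist (pr (χ.σ (p (φ n)))) (pr (χ.σ (p' (φ n))))) atTop
        (𝓝 (dist (pr (χ.σ a)) (pr (χ.σ b)))) :=
      ((hca a ha).tendsto.comp hla).dist ((hca b hb).tendsto.comp hlb)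
    have hd0 : Tendsto (fun n => dist (pr (χ.σ (p (φ n)))) (pr (χ.σ (p' (φ n))))) atTop (𝓝 0) := by
      refine squeeze_zero' (Eventually.of_forall fun n => dist_nonneg) ?_
        (tendsto_inv_atTop_zero.comp hφt)
      filter_upwards [hφt.eventually_gt_atTop 0] with n hn
      have h1 := hlt (φ n)
      have h2 : ‖p (φ n) - p' (φ n)‖ ≤ 1 := by
        have h3 := mem_closedBall_zero_iff.1 (hp (φ n))
        have h4 := mem_closedBall_zero_iff.1 (hp' (φ n))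
        calc ‖p (φ n) - p' (φ n)‖ ≤ ‖p (φ n)‖ + ‖p' (φ n)‖ := norm_sub_le _ _
          _ ≤ 1 / 2 + 1 / 2 := add_le_add h3 h4
          _ = 1 := by norm_num
      simp only [Function.comp_apply]
      rw [← one_div, le_div_iff₀ hn, mul_comm]
      exact (h1.trans_le h2).le
    have h0 : dist (pr (χ.σ a)) (pr (χ.σ b)) = 0 := tendsto_nhds_unique hd hd0
    obtain ⟨c, hc, hcab⟩ := (Pool.Agent.H62.EF.pr_eq_iff (χ.sigma_ne_zero hX (CAtlA_sub ha))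
      (χ.sigma_ne_zero hX (CAtlA_sub hb))).1 (dist_eq_zero.1 h0)
    have h1 := (χ.σ_mem a (CAtlA_sub ha)).2.2
    have h2 := (χ.σ_mem b (CAtlA_sub hb)).2
    rw [← h1, hcab, χ.q_smul _ h2.1 c hc, h2.2]
  subst hab
  obtain ⟨K, hK⟩ := CAtlA_local hX χ ha
  obtain ⟨n, hn, hnK⟩ := ((hlim'.eventually hK).and (hφt.eventually_ge_atTop K)).exists
  have h1 := hn (CAtlA_sub (hp _)) (CAtlA_sub (hp' _))
  have h2 := hlt (φ n)
  have h3 : K * dist (pr (χ.σ (p (φ n)))) (pr (χ.σ (p' (φ n)))) ≤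
      (φ n : ℝ) * dist (pr (χ.σ (p (φ n)))) (pr (χ.σ (p' (φ n)))) :=
    mul_le_mul_of_nonneg_right hnK dist_nonneg
  exact absurd (h1.trans h3) (not_le.2 h2)

theorem chart_bilip (hX : IsCone X) (χ : Chart X) : ∃ C : ℝ, 1 ≤ C ∧ ∀ x y, Good χ x → Good χ y →
    dist (pr x) (pr y) ≤ C * ‖χ.q x - χ.q y‖ ∧ ‖χ.q x - χ.q y‖ ≤ C * dist (pr x) (pr y) := by
  obtain ⟨C₁, -, h₁⟩ := CAtlA_upper hX χ
  obtain ⟨C₂, h₂⟩ := CAtlA_lower hX χ
  have hg : ∀ x, Good χ x → χ.q x ∈ closedBall (0 : ℂ × ℂ) (1 / 2) ∧ pr x = pr (χ.σ (χ.q x)) := by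
    rintro x ⟨hx, hU, hq⟩
    refine ⟨mem_closedBall_zero_iff.2 hq, ?_⟩
    obtain ⟨-, c, hc, hxc⟩ := χ.surj x hx hU
    rw [← Pool.Agent.H62.EF.pr_smul (χ.σ (χ.q x)) hc, ← hxc]
  refine ⟨max 1 (max C₁ C₂), le_max_left _ _, fun x y hx hy => ?_⟩
  obtain ⟨hqx, hpx⟩ := hg x hx
  obtain ⟨hqy, hpy⟩ := hg y hy
  constructor
  · rw [hpx, hpy]
    refine (h₁ _ hqx _ hqy).trans ?_
    exact mul_le_mul_of_nonneg_right ((le_max_left _ _).trans (le_max_right _ _)) (norm_nonneg _)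
  · rw [hpx, hpy]
    refine (h₂ _ hqx _ hqy).trans ?_
    exact mul_le_mul_of_nonneg_right ((le_max_right _ _).trans (le_max_right _ _)) dist_nonneg

end Pool.Agent.H5.BD

end

section

/-!
# BD CAtl: the atlas
-/

set_option autoImplicit false

open Topology Filter Metric

namespace Pool.Agent.H5.BD

open Pool.Agent.H36.BP (EN fs wd)
open Pool.Agent.H14.PP (IsCone Chart Form Tan aCoef jac)
open Pool.Agent.H62.EF (MN pr det2 Charts)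

variable {N : ℕ} {X : Set (EN N)}

theorem exists_atlas (hX : IsCone X) (hch : Charts X) (hne : X.Nonempty) : Nonempty (Atlas X) := by
  obtain ⟨n, χ, idx, δ, hδ, hgood⟩ := exists_cover hX hch hne
  choose C₁ h1 h2 using fun i => chart_bilip hX (χ i)
  choose C₂ h3 h4 h5 using fun (i j : Fin n) => chart_trans hX (χ i) (χ j)
  have hC₁ : ∀ i, C₁ i ≤ ∑ i, C₁ i := fun i => Finset.single_le_sum (f := C₁) (fun i _ => zero_le_one.trans (h1 i)) (Finset.mem_univ i)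
  have hC₂ : ∀ i j, C₂ i j ≤ ∑ i, ∑ j, C₂ i j := fun i j =>
    (Finset.single_le_sum (f := C₂ i) (fun j _ => zero_le_one.trans (h3 i j)) (Finset.mem_univ j)).trans
      (Finset.single_le_sum (f := fun i => ∑ j, C₂ i j) (fun i _ => Finset.sum_nonneg fun j _ => zero_le_one.trans (h3 i j)) (Finset.mem_univ i))
  have hs₁ : 0 ≤ ∑ i, C₁ i := Finset.sum_nonneg fun i _ => zero_le_one.trans (h1 i)
  have hs₂ : 0 ≤ ∑ i, ∑ j, C₂ i j := Finset.sum_nonneg fun i _ => Finset.sum_nonneg fun j _ => zero_le_one.trans (h3 i j)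
  set C : ℝ := 1 + ∑ i, C₁ i + ∑ i, ∑ j, C₂ i j with hC
  refine ⟨⟨n, χ, idx, δ, C, hδ, by linarith, hgood, fun i x y hx hy => ?_, fun i x y hx hy => ?_, fun i j x hx hy => ?_, fun i j x hx hy => ?_,
    fun i j x y hx hx' hy hy' => ?_⟩⟩
  · exact (h2 i x y hx hy).1.trans (mul_le_mul_of_nonneg_right (by linarith [hC₁ i]) (norm_nonneg _))
  · exact (h2 i x y hx hy).2.trans (mul_le_mul_of_nonneg_right (by linarith [hC₁ i]) dist_nonneg)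
  · exact (h4 i j x hx hy).1.trans (by linarith [hC₂ i j])
  · exact (h4 i j x hx hy).2.trans (mul_le_mul_of_nonneg_right (by linarith [hC₂ i j]) (norm_nonneg _))
  · exact (h5 i j x y hx hx' hy hy').trans (mul_le_mul_of_nonneg_right (by linarith [hC₂ i j]) (by positivity))

end Pool.Agent.H5.BD

end
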