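import Pool.Agent.H94.G6.M28
import Pool.Agent.H94.G6.M62
import Pool.Agent.H94.G6.M63

/-! The parts of this file: MQ3.WBxC, MQ3.Defs, MQ3.NDefs, MQ3.WtN3. -/

section

/-!
# MQ3 WBxC: the curves tangent to `θ` in a normal crossings box

`F z = c • ρ (P z)`; the slope `slp l F` is the value of `om l 2 / om l 1` on `(F, F')`, extended to the isolated points with `P' = 0`.
-/

set_option autoImplicit false

open Topology Filter Metric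

noncomputable section

namespace Pool.Agent.MQ3

open Pool.Agent.H36.BP (EN)
open Pool.Agent.H14.PP (Tan)
open Pool.Agent.H17BP (Surface IsChart)
open Pool.Agent.E1 (ResL_tan)

variable {N : ℕ} {X : Set (EN N)} {m : ℕ} {ρ : ℂ × ℂ → EN N} {F : ℂ → EN N} {P : ℂ → ℂ × ℂ} {z : ℂ}

/-- the derivative of a curve on the cone in a parametrization -/
theorem curve_deriv (hF : AnalyticAt ℂ F z) (hP : AnalyticAt ℂ P z) (hρ : AnalyticAt ℂ ρ (P z)) (h0 : ρ (P z) ≠ 0)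
    (hFP : ∀ᶠ w in 𝓝 z, ∃ c : ℂ, c ≠ 0 ∧ F w = c • ρ (P w)) :
    ∃ c a : ℂ, c ≠ 0 ∧ F z = c • ρ (P z) ∧ deriv F z = c • fderiv ℂ ρ (P z) (deriv P z) + a • ρ (P z) := by
  obtain ⟨f, hf⟩ : ∃ f : EN N →L[ℂ] ℂ, f (ρ (P z)) ≠ 0 := SeparatingDual.exists_ne_zero h0
  have hρP : AnalyticAt ℂ (fun w => ρ (P w)) z := AnalyticAt.comp (g := ρ) (f := P) hρ hP
  have hfa : AnalyticAt ℂ (fun w => f (ρ (P w))) z := (f.analyticAt _).comp hρP
  have hfF : AnalyticAt ℂ (fun w => f (F w)) z := (f.analyticAt _).comp hF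
  set c : ℂ → ℂ := fun w => f (F w) / f (ρ (P w)) with hcd
  have hc : AnalyticAt ℂ c z := hfF.fun_div hfa hf
  have hne : ∀ᶠ w in 𝓝 z, f (ρ (P w)) ≠ 0 := hfa.continuousAt.eventually_ne hf
  have hcw : ∀ w, f (ρ (P w)) ≠ 0 → ∀ c' : ℂ, F w = c' • ρ (P w) → c w = c' := by
    intro w h3 c' h2
    show f (F w) / f (ρ (P w)) = c'
    rw [h2, map_smul, smul_eq_mul, mul_div_assoc, div_self h3, mul_one]
  have hev : ∀ᶠ w in 𝓝 z, F w = c w • ρ (P w) := by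
    filter_upwards [hFP, hne] with w ⟨c', h1, h2⟩ h3
    rw [hcw w h3 c' h2, h2]
  have h1 : HasDerivAt F (c z • fderiv ℂ ρ (P z) (deriv P z) + deriv c z • ρ (P z)) z := by
    have h2 : HasDerivAt (fun w => ρ (P w)) (fderiv ℂ ρ (P z) (deriv P z)) z :=
      hρ.differentiableAt.hasFDerivAt.comp_hasDerivAt z hP.differentiableAt.hasDerivAt
    exact (hc.differentiableAt.hasDerivAt.fun_smul h2).congr_of_eventuallyEq hev
  obtain ⟨c', hc', h3⟩ := hFP.self_of_nhds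
  have h4 := hcw z hf c' h3
  refine ⟨c', deriv c z, hc', h3, ?_⟩
  rw [h1.deriv, h4]

/-- `om l 2 / om l 1` on the curve -/
def gm (l : LF N) (F : ℂ → EN N) (z : ℂ) : ℂ := om l 2 (F z) (deriv F z) / om l 1 (F z) (deriv F z)

theorem meromorphicAt_gm (l : LF N) (hF : AnalyticAt ℂ F z) : MeromorphicAt (gm l F) z := by
  have h1 : ∀ i, AnalyticAt ℂ (fun w => om l i (F w) (deriv F w)) z := by
    intro i
    have h2 : ∀ j, AnalyticAt ℂ (fun q => l j (F q)) z := fun j => ((l j).analyticAt _).comp hF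
    have h3 : ∀ j, AnalyticAt ℂ (fun q => l j (deriv F q)) z := fun j => ((l j).analyticAt _).comp hF.deriv
    exact ((h2 0).mul (h3 i)).sub ((h2 i).mul (h3 0))
  exact (h1 2).meromorphicAt.fun_div (h1 1).meromorphicAt

theorem analyticAt_gm (l : LF N) (hF : AnalyticAt ℂ F z) (h : om l 1 (F z) (deriv F z) ≠ 0) : AnalyticAt ℂ (gm l F) z := by
  have h1 : ∀ i, AnalyticAt ℂ (fun w => om l i (F w) (deriv F w)) z := by
    intro i
    have h2 : ∀ j, AnalyticAt ℂ (fun q => l j (F q)) z := fun j => ((l j).analyticAt _).comp hF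
    have h3 : ∀ j, AnalyticAt ℂ (fun q => l j (deriv F q)) z := fun j => ((l j).analyticAt _).comp hF.deriv
    exact ((h2 0).mul (h3 i)).sub ((h2 i).mul (h3 0))
  exact (h1 2).fun_div (h1 1) h

theorem NCBox.slope (hb : NCBox X ρ) (hX : Surface X) {θ : WDiff X m} {l : LF N} (hF : AnalyticAt ℂ F z)
    (hP : AnalyticAt ℂ P z) (hFP : ∀ᶠ w in 𝓝 z, ∃ c : ℂ, c ≠ 0 ∧ F w = c • ρ (P w)) (hz : P z ∈ DS) (hGA : GA X l (ρ (P z))) (hGB : GB θ l (ρ (P z)))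
    (ht : θ.toFun (F z) (deriv F z) = 0) :
    (om l 1 (F z) (deriv F z) = 0 ↔ deriv P z = 0) ∧ (deriv P z ≠ 0 → gm l F z ∈ NS θ l (ρ (P z))) ∧
      ∃ a : ℂ, deriv P z = a • (v₁ l ρ (P z) + gm l F z • v₂ l ρ (P z)) ∧ (a = 0 ↔ deriv P z = 0) := by
  have hρ := hb.an' hz
  have hmem := hb.mem' hz
  have h0 : ρ (P z) ≠ 0 := fun h => hX.zero (h ▸ hmem.self_of_nhds)
  obtain ⟨c, a, hc, h1, h2⟩ := curve_deriv hF hP hρ h0 hFP
  have hT := ResL_tan hρ hmem (deriv P z)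
  have h3 : deriv F z = c • fderiv ℂ ρ (P z) (deriv P z) + (a / c) • (c • ρ (P z)) := by
    rw [h2, smul_smul, div_mul_cancel₀ _ hc]
  have hom : ∀ i, om l i (F z) (deriv F z) = c ^ 2 * om l i (ρ (P z)) (fderiv ℂ ρ (P z) (deriv P z)) := by
    intro i
    rw [h3, h1, om_add_smul, om_smul_smul]
  have hc2 : c ^ 2 ≠ 0 := pow_ne_zero 2 hc
  have hθ : θ.toFun (ρ (P z)) (fderiv ℂ ρ (P z) (deriv P z)) = 0 := by
    rw [h3, h1, θ.add_smul _ _ (tan_smul hX.smul hT hc), θ.scale_eq_zero hT hc] at ht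
    exact ht
  have hd := hb.dl_ne hX hz hGA
  have h4 : om l 1 (ρ (P z)) (fderiv ℂ ρ (P z) (deriv P z)) = 0 ↔ deriv P z = 0 := by
    constructor
    · intro h5
      obtain ⟨a', ha'⟩ := hGB _ hT h5 hθ
      exact hb.indep _ hz _ a' ha'
    · intro h5
      rw [h5, map_zero]
      simp [om]
  have h5 : om l 1 (F z) (deriv F z) = 0 ↔ deriv P z = 0 := by
    rw [hom, mul_eq_zero, or_iff_right hc2, h4]
  have h6 : ∀ h : deriv P z ≠ 0, om l 2 (ρ (P z)) (fderiv ℂ ρ (P z) (deriv P z)) = gm l F z * om l 1 (ρ (P z)) (fderiv ℂ ρ (P z) (deriv P z)) := by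
    intro h
    have h7 : om l 1 (ρ (P z)) (fderiv ℂ ρ (P z) (deriv P z)) ≠ 0 := fun h8 => h (h4.1 h8)
    rw [gm, hom, hom, mul_div_mul_left _ _ hc2, div_mul_cancel₀ _ h7]
  refine ⟨h5, fun h => ⟨_, hT, fun h8 => h (h4.1 h8), h6 h, hθ⟩, ?_⟩
  by_cases h : deriv P z = 0
  · exact ⟨0, by rw [h, zero_smul], by simp [h]⟩
  · have h7 : om l 1 (ρ (P z)) (fderiv ℂ ρ (P z) (deriv P z)) ≠ 0 := fun h8 => h (h4.1 h8)
    refine ⟨(dl l ρ (P z))⁻¹ * om l 1 (ρ (P z)) (fderiv ℂ ρ (P z) (deriv P z)), ?_, ?_⟩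
    · have h8 := dl_smul l ρ (P z) (deriv P z)
      rw [h6 h] at h8
      rw [← smul_smul, smul_add, smul_smul _ (gm l F z), mul_comm _ (gm l F z), ← h8, smul_smul, inv_mul_cancel₀ hd, one_smul]
    · constructor
      · intro h8
        exact absurd h8 (mul_ne_zero (inv_ne_zero hd) h7)
      · intro h8
        exact absurd h8 h

/-- the slope of the curve -/
def slp (l : LF N) (F : ℂ → EN N) (z : ℂ) : ℂ := limUnder (𝓝[≠] z) (gm l F)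

theorem slp_eq {g : ℂ → ℂ} {l : LF N} (hg : AnalyticAt ℂ g z) (h : gm l F =ᶠ[𝓝[≠] z] g) : slp l F =ᶠ[𝓝 z] g := by
  have h1 : ∀ᶠ w in 𝓝 z, w ≠ z → gm l F w = g w := eventually_nhdsWithin_iff.1 h
  filter_upwards [eventually_eventually_nhds.2 h1, hg.eventually_analyticAt] with w hw hgw
  have h2 : ∀ᶠ u in 𝓝[≠] w, gm l F u = g u := by
    rcases eq_or_ne w z with rfl | hwz
    · exact h
    · filter_upwards [hw.filter_mono nhdsWithin_le_nhds, (eventually_ne_nhds hwz).filter_mono nhdsWithin_le_nhds] with u hu hu'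
      exact hu hu'
  have h3 : Tendsto g (𝓝[≠] w) (𝓝 (g w)) := hgw.continuousAt.tendsto.mono_left nhdsWithin_le_nhds
  exact (h3.congr' (h2.mono fun _ h => h.symm)).limUnder_eq

theorem slp_eq_gm {l : LF N} (hF : AnalyticAt ℂ F z) (h : om l 1 (F z) (deriv F z) ≠ 0) : slp l F z = gm l F z :=
  (slp_eq (analyticAt_gm l hF h) EventuallyEq.rfl).self_of_nhds

/-- a branch of the logarithm of an analytic function -/
theorem exists_log_branch {x : ℂ → ℂ} (hx : AnalyticAt ℂ x z) (h0 : x z ≠ 0) {ξ : ℂ} (hξ : Complex.exp ξ = x z) :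
    ∃ Ξ : ℂ → ℂ, AnalyticAt ℂ Ξ z ∧ Ξ z = ξ ∧ ∀ᶠ w in 𝓝 z, Complex.exp (Ξ w) = x w := by
  have h1 : x z / x z = 1 := div_self h0
  refine ⟨fun w => ξ + Complex.log (x w / x z), ?_, ?_, ?_⟩
  · refine analyticAt_const.add (AnalyticAt.clog (hx.fun_div analyticAt_const h0) ?_)
    rw [h1]
    exact Complex.one_mem_slitPlane
  · show ξ + Complex.log (x z / x z) = ξ
    rw [h1, Complex.log_one, add_zero]
  · filter_upwards [hx.continuousAt.eventually_ne h0] with w hw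
    rw [Complex.exp_add, Complex.exp_log (div_ne_zero hw h0), hξ, mul_div_cancel₀ _ h0]

/-- **The slope is one of the sheets.** -/
theorem NCBox.slope_sheet (hb : NCBox X ρ) (hX : Surface X) {θ : WDiff X m} {l : LF N} (hG : ∀ p ∈ DS, GoodPt θ l (ρ p)) {e : ℕ}
    {T : Fin e → ℂ × ℂ → ℂ} (hTa : ∀ k, ∀ v ∈ HH, AnalyticAt ℂ (T k) v) (hT : ∀ v ∈ HH, ∀ t, t ∈ NS θ l (ρ (pexp v)) → ∃ k, T k v = t)
    (hF : AnalyticAt ℂ F z) (hP : AnalyticAt ℂ P z) (hFP : ∀ᶠ w in 𝓝 z, ∃ c : ℂ, c ≠ 0 ∧ F w = c • ρ (P w)) (hz : P z ∈ DS)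
    (ht : ∀ᶠ w in 𝓝 z, θ.toFun (F w) (deriv F w) = 0) (hnc : ∀ᶠ w in 𝓝[≠] z, deriv P w ≠ 0) {ξ η : ℂ} (hξ : Complex.exp ξ = (P z).1)
    (hη : Complex.exp η = (P z).2) : AnalyticAt ℂ (slp l F) z ∧ ∃ k, slp l F z = T k (ξ, η) := by
  obtain ⟨Ξ, h1, h2, h3⟩ := exists_log_branch (analyticAt_fst.fun_comp hP) hz.1.1 hξ
  obtain ⟨H, h4, h5, h6⟩ := exists_log_branch (analyticAt_snd.fun_comp hP) hz.2.1 hη
  have hv : ((ξ, η) : ℂ × ℂ) ∈ HH := by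
    refine ⟨?_, ?_⟩
    · have := hz.1.2
      rw [← hξ, Complex.norm_exp, Real.exp_lt_one_iff] at this
      exact this
    · have := hz.2.2
      rw [← hη, Complex.norm_exp, Real.exp_lt_one_iff] at this
      exact this
  have hvz : ((Ξ z, H z) : ℂ × ℂ) = (ξ, η) := by rw [h2, h5]
  have hΞH : AnalyticAt ℂ (fun w => (Ξ w, H w)) z := h1.prod h4
  have hHH : ∀ᶠ w in 𝓝 z, ((Ξ w, H w) : ℂ × ℂ) ∈ HH := by
    refine hΞH.continuousAt.eventually_mem ?_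
    rw [hvz]
    exact isOpen_HH.mem_nhds hv
  have hDS : ∀ᶠ w in 𝓝 z, P w ∈ DS := hP.continuousAt.eventually_mem (isOpen_DS.mem_nhds hz)
  have hTg : ∀ k, AnalyticAt ℂ (fun w => T k (Ξ w, H w)) z := fun k =>
    AnalyticAt.comp (g := T k) (f := fun w => (Ξ w, H w)) (by rw [hvz]; exact hTa k _ hv) hΞH
  have hex : ∀ᶠ w in 𝓝[≠] z, ∃ k, gm l F w = T k (Ξ w, H w) := by
    filter_upwards [hnc, (eventually_eventually_nhds.2 hFP).filter_mono nhdsWithin_le_nhds, ht.filter_mono nhdsWithin_le_nhds,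
      hHH.filter_mono nhdsWithin_le_nhds, hDS.filter_mono nhdsWithin_le_nhds, h3.filter_mono nhdsWithin_le_nhds,
      h6.filter_mono nhdsWithin_le_nhds, hF.eventually_analyticAt.filter_mono nhdsWithin_le_nhds,
      hP.eventually_analyticAt.filter_mono nhdsWithin_le_nhds] with w w1 w2 w3 w4 w5 w6 w7 w8 w9
    have h7 := (hb.slope hX w8 w9 w2 w5 (hG _ w5).1 (hG _ w5).2.1 w3).2.1 w1
    have h8 : pexp (Ξ w, H w) = P w := by
      ext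
      · exact w6
      · exact w7
    rw [← h8] at h7
    obtain ⟨k, hk⟩ := hT _ w4 _ h7
    exact ⟨k, hk.symm⟩
  obtain ⟨k, hk⟩ : ∃ k, ∃ᶠ w in 𝓝[≠] z, gm l F w = T k (Ξ w, H w) := by
    by_contra hcon
    push Not at hcon
    have h7 : ∀ᶠ w in 𝓝[≠] z, ∀ k, ¬ gm l F w = T k (Ξ w, H w) := eventually_all.2 fun k => hcon k
    obtain ⟨w, ⟨k, hw⟩, hw'⟩ := (hex.and h7).exists
    exact hw' k hw
  have hk' := ((meromorphicAt_gm l hF).frequently_eq_iff_eventuallyEq (hTg k).meromorphicAt).1 hk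
  have h7 := slp_eq (hTg k) hk'
  refine ⟨(hTg k).congr h7.symm, k, ?_⟩
  have h8 : slp l F z = T k (Ξ z, H z) := h7.self_of_nhds
  rw [h8, hvz]

/-- **The curves tangent to `θ` in a normal crossings box.** -/
theorem NCBox.crv (hb : NCBox X ρ) (hX : Surface X) {θ : WDiff X m} {l : LF N} (hG : ∀ p ∈ DS, GoodPt θ l (ρ p)) {e : ℕ}
    {T : Fin e → ℂ × ℂ → ℂ} (hTa : ∀ k, ∀ v ∈ HH, AnalyticAt ℂ (T k) v) (hT : ∀ v ∈ HH, ∀ t, t ∈ NS θ l (ρ (pexp v)) → ∃ k, T k v = t)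
    {U : Set ℂ} (hU : IsOpen U) (hF : ∀ z ∈ U, AnalyticAt ℂ F z) (hP : ∀ z ∈ U, AnalyticAt ℂ P z) (hPD : ∀ z ∈ U, P z ∈ DD)
    (hne : ∀ z ∈ U, ∀ᶠ w in 𝓝[≠] z, (P w).1 ≠ 0 ∧ (P w).2 ≠ 0) (hFP : ∀ z ∈ U, ∃ c : ℂ, c ≠ 0 ∧ F z = c • ρ (P z))
    (ht : ∀ z ∈ U, θ.toFun (F z) (deriv F z) = 0) (hnc : ∀ z ∈ U, ∀ᶠ w in 𝓝[≠] z, deriv P w ≠ 0) :
    Crv T U (fun z => (P z).1) (fun z => (P z).2) (slp l F) ∧
      (∀ z ∈ U, P z ∈ DS → deriv P z ≠ 0 → om l 1 (F z) (deriv F z) ≠ 0 ∧ slp l F z = gm l F z) ∧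
      ∀ z ∈ U, P z ∈ DS → ∃ a : ℂ, deriv P z = a • (v₁ l ρ (P z) + slp l F z • v₂ l ρ (P z)) ∧ (a = 0 ↔ deriv P z = 0) := by
  have hFP' : ∀ z ∈ U, ∀ᶠ w in 𝓝 z, ∃ c : ℂ, c ≠ 0 ∧ F w = c • ρ (P w) := fun z hz => by
    filter_upwards [hU.mem_nhds hz] with w hw using hFP w hw
  have ht' : ∀ z ∈ U, ∀ᶠ w in 𝓝 z, θ.toFun (F w) (deriv F w) = 0 := fun z hz => by
    filter_upwards [hU.mem_nhds hz] with w hw using ht w hw
  have hds : ∀ z ∈ U, (P z).1 ≠ 0 → (P z).2 ≠ 0 → P z ∈ DS := fun z hz h1 h2 => ⟨⟨h1, (hPD z hz).1⟩, h2, (hPD z hz).2⟩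
  have hsl : ∀ z ∈ U, P z ∈ DS → deriv P z ≠ 0 → om l 1 (F z) (deriv F z) ≠ 0 ∧ slp l F z = gm l F z := by
    intro z hz hzD hz'
    obtain ⟨h1, -, -⟩ := hb.slope hX (hF z hz) (hP z hz) (hFP' z hz) hzD (hG _ hzD).1 (hG _ hzD).2.1 (ht z hz)
    have h2 : om l 1 (F z) (deriv F z) ≠ 0 := fun h => hz' (h1.1 h)
    exact ⟨h2, slp_eq_gm (hF z hz) h2⟩
  refine ⟨⟨hU, fun z hz => analyticAt_fst.fun_comp (hP z hz), fun z hz => analyticAt_snd.fun_comp (hP z hz), fun z hz => (hPD z hz).1,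
    fun z hz => (hPD z hz).2, hne, fun z hz h1 h2 => ?_, fun z hz h1 h2 ξ η hξ hη => ?_⟩, hsl, fun z hz hzD => ?_⟩
  · exact (hb.slope_sheet hX hG hTa hT (hF z hz) (hP z hz) (hFP' z hz) (hds z hz h1 h2) (ht' z hz) (hnc z hz) (Complex.exp_log h1) (Complex.exp_log h2)).1
  · exact (hb.slope_sheet hX hG hTa hT (hF z hz) (hP z hz) (hFP' z hz) (hds z hz h1 h2) (ht' z hz) (hnc z hz) hξ hη).2
  · obtain ⟨h1, -, a, h2, h3⟩ := hb.slope hX (hF z hz) (hP z hz) (hFP' z hz) hzD (hG _ hzD).1 (hG _ hzD).2.1 (ht z hz)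
    by_cases h : deriv P z = 0
    · exact ⟨0, by rw [h, zero_smul], by simp [h]⟩
    · exact ⟨a, by rw [(hsl z hz hzD h).2]; exact h2, h3⟩

end Pool.Agent.MQ3

end
end

section

/-!
# MQ3 Defs: webs over one box, the normal crossings model

`P` is the ideal of a smooth projective surface, `coneE P` its cone, `θ` a symmetric differential of degree `m` (possibly not reduced), `l : LF M` three linear
forms; the slope of a tangent vector `v` at `x` is `om l 2 x v / om l 1 x v`.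
`BoxWeb θ l ρ`: the sheets of the web over the parametrization `ρ` of the bidisc; `MChart W`: a monomial chart `mono w w' : Dm w w' → DD` with the vector field `X`
of the foliation of a sheet; `BCrv θ l ρ F U p`: the curve `F` is `ρ ∘ p` on `U`.
-/

set_option autoImplicit false

open Topology Filter Metric MvPolynomial MeasureTheory

noncomputable section

namespace Pool.Agent.MQ3

open Pool.Agent.H36.BP (EN fs)
open Pool.Agent.H14.PP (Tan)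
open Pool.Agent.H17BP (Surface)
open Pool.Agent.H17EF (projVar coneE)
open Pool.Agent.H30M (tau)
open Pool.Agent.MQ (lam En)

variable {M : ℕ} {X : Set (EN M)} {m : ℕ} {θ : WDiff X m} {l : LF M} {ρ : ℂ × ℂ → EN M}

/-! ## the web over one box -/

/-- the sheets of the web over the parametrization `ρ`: the slopes `T k` over the product of two half planes; `sA θ l ρ m` is the leading coefficient -/
structure BoxWeb (θ : WDiff X m) (l : LF M) (ρ : ℂ × ℂ → EN M) where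
  surf : Surface X
  hm : 1 ≤ m
  box : NCBox X ρ
  good : ∀ p ∈ DS, GoodPt θ l (ρ p)
  e : ℕ
  T : Fin e → ℂ × ℂ → ℂ
  a : Equiv.Perm (Fin e)
  b : Equiv.Perm (Fin e)
  web : WebBox e T a b
  ns : ∀ v ∈ HH, ∀ t, t ∈ NS θ l (ρ (pexp v)) ↔ ∃ k, T k v = t
  bdd : ∃ C : ℝ, ∀ k, ∀ v ∈ HH, ‖sA θ l ρ m (pexp v) * T k v‖ ≤ C

/-- A monomial chart: the sheet `k`, the basis `w, w'` of its stabilizer, the vector field `v` with isolated zeros which defines the foliation of the sheet. -/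
structure MChart (W : BoxWeb θ l ρ) where
  k : Fin W.e
  w : ℕ × ℕ
  w' : ℕ × ℕ
  basis : Basis W.a W.b k w w'
  pos : 0 < dt w w'
  i : ℕ
  j : ℕ
  v : ℂ × ℂ → ℂ × ℂ
  v_an : ∀ q ∈ Dm w w', AnalyticAt ℂ v q
  v_iso : ∀ q ∈ Dm w w', ∀ᶠ q' in 𝓝 q, q' ≠ q → v q' ≠ 0
  v_eq : ∀ P, ln w w' P ∈ HH → ∀ u : ℂ × ℂ,
    sA θ l ρ m (pexp (ln w w' P)) * ((v₁ l ρ (pexp (ln w w' P)) + W.T k (ln w w' P) • v₂ l ρ (pexp (ln w w' P))).1 *
      (fderiv ℂ (mono w w') (pexp P) u).2 -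
      (v₁ l ρ (pexp (ln w w' P)) + W.T k (ln w w' P) • v₂ l ρ (pexp (ln w w' P))).2 * (fderiv ℂ (mono w w') (pexp P) u).1) =
    (pexp P).1 ^ i * (pexp P).2 ^ j * ((v (pexp P)).1 * u.2 - (v (pexp P)).2 * u.1)

/-- the curve in the box -/
structure BCrv (θ : WDiff X m) (l : LF M) (ρ : ℂ × ℂ → EN M) (F : ℂ → EN M) (U : Set ℂ) (p : ℂ → ℂ × ℂ) : Prop where
  isOpen : IsOpen U
  F_an : ∀ z, AnalyticAt ℂ F z
  tan : ∀ z ∈ U, θ.toFun (F z) (deriv F z) = 0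
  p_an : ∀ z ∈ U, AnalyticAt ℂ p z
  mem : ∀ z ∈ U, p z ∈ DD
  ne : ∀ z ∈ U, ∀ᶠ w in 𝓝[≠] z, (p w).1 ≠ 0 ∧ (p w).2 ≠ 0
  nc : ∀ z ∈ U, ∀ᶠ w in 𝓝[≠] z, deriv p w ≠ 0
  eq : ∀ z ∈ U, ∃ c : ℂ, c ≠ 0 ∧ F z = c • ρ (p z)

section

variable {W : BoxWeb θ l ρ}

/-- the map to the box -/
def MChart.κ (c : MChart W) (q : ℂ × ℂ) : ℂ × ℂ := mono c.w c.w' q

/-- the domain -/
def MChart.D (c : MChart W) : Set (ℂ × ℂ) := Dm c.w c.w'

/-- the part of the plane where the curve lifts to the chart -/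
def MChart.Om (c : MChart W) (F : ℂ → EN M) (U : Set ℂ) (p : ℂ → ℂ × ℂ) : Set ℂ :=
  MQ3.Om W.T c.k c.w c.w' U (fun z => (p z).1) (fun z => (p z).2) (slp l F)

/-- the lift -/
def MChart.lf (c : MChart W) (F : ℂ → EN M) (U : Set ℂ) (p : ℂ → ℂ × ℂ) (z : ℂ) : ℂ × ℂ :=
  (MQ3.sl W.T c.k c.w c.w' U (fun z => (p z).1) (fun z => (p z).2) (slp l F) z,
    MQ3.tl W.T c.k c.w c.w' U (fun z => (p z).1) (fun z => (p z).2) (slp l F) z)

end

/-- The monomial charts over a box: representatives of the orbits of the sheets, fans of bases. -/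
structure WebOver (W : BoxWeb θ l ρ) where
  ι : Type
  [fin : Fintype ι]
  c : ι → MChart W
  /-- two charts belong to the same sheet or to sheets of different orbits -/
  orb : ∀ i j, (c i).k = (c j).k ∨ ∀ r s : ℤ, (W.a ^ r * W.b ^ s) (c i).k ≠ (c j).k
  /-- charts of the same sheet: the same cone, or one after the other -/
  fan : ∀ i j, i ≠ j → (c i).k = (c j).k → 0 ≤ dt (c i).w' (c j).w ∨ 0 ≤ dt (c j).w' (c i).w
  cover : ∀ (F : ℂ → EN M) (U : Set ℂ) (p : ℂ → ℂ × ℂ), BCrv θ l ρ F U p → ∀ z ∈ U, ∃ i, z ∈ (c i).Om F U p ∧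
    ‖((c i).lf F U p z).1‖ ≤ 1 ∧ ‖((c i).lf F U p z).2‖ ≤ 1

attribute [instance] WebOver.fin

/-! ## the model of the surface on which `{RD = 0}` has normal crossings -/

/-- Finitely many parametrizations `ρ i` of the surface by the bidisc, which are immersive off the axes; `B i` is the part of the bidisc which is used, `C i` a
compact subset; `rel i p j q`: the two points are the same point of the blown-up surface. -/
structure NCModel (P : Ideal (MvPolynomial (Fin (M + 1)) ℂ)) (RD : MvPolynomial (Fin (M + 1)) ℂ) where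
  ι : Type
  [fin : Fintype ι]
  ρ : ι → ℂ × ℂ → EN M
  B : ι → Set (ℂ × ℂ)
  C : ι → Set (ℂ × ℂ)
  rel : ι → ℂ × ℂ → ι → ℂ × ℂ → Prop
  box : ∀ i, NCBox (coneE P) (ρ i)
  good : ∀ i, ∀ p ∈ DS, eval (ρ i p).ofLp RD ≠ 0
  isOpen : ∀ i, IsOpen (B i)
  sub : ∀ i, B i ⊆ DD
  compact : ∀ i, IsCompact (C i)
  C_sub : ∀ i, C i ⊆ B i
  /-- in `B i` both axes belong to the divisor -/
  div : ∀ i, ∀ p ∈ B i, eval (ρ i p).ofLp RD = 0 ↔ p.1 * p.2 = 0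
  /-- a crossing point is used in only one box, and this box is the whole bidisc -/
  corner : ∀ i, (0 : ℂ × ℂ) ∈ B i → B i = DD ∧ ∀ j p, p ∈ B j → rel i 0 j p → j = i ∧ p = 0
  /-- a box which is not centered at a crossing point contains no point of the second axis -/
  side : ∀ i, (0 : ℂ × ℂ) ∉ B i → ∀ p ∈ B i, p.2 ≠ 0
  refl : ∀ i, ∀ p ∈ B i, ∀ q ∈ B i, rel i p i q ↔ p = q
  symm : ∀ i j p q, p ∈ B i → q ∈ B j → rel i p j q → rel j q i p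
  trans : ∀ i j k p q r, p ∈ B i → q ∈ B j → r ∈ B k → rel i p j q → rel j q k r → rel i p k r
  iso : ∀ i j, ∀ p ∈ B i, ∀ q ∈ B j, rel i p j q → ∃ Φ : ℂ × ℂ → ℂ × ℂ, AnalyticAt ℂ Φ p ∧ Φ p = q ∧ (fderiv ℂ Φ p).det ≠ 0 ∧
    (∀ᶠ x in 𝓝 p, rel i x j (Φ x)) ∧ ∀ᶠ x in 𝓝 p, ∃ c : ℂ, c ≠ 0 ∧ ρ i x = c • ρ j (Φ x)
  sep : ∀ i j, ∀ p ∈ B i, ∀ q ∈ B j, ¬ rel i p j q → ∀ᶠ x in 𝓝 (p, q), ¬ rel i x.1 j x.2

attribute [instance] NCModel.fin

/-- The curve in the boxes of the model. -/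
structure NCLift {P : Ideal (MvPolynomial (Fin (M + 1)) ℂ)} {RD : MvPolynomial (Fin (M + 1)) ℂ} (X : NCModel P RD) (F : ℂ → EN M) where
  U : X.ι → Set ℂ
  p : X.ι → ℂ → ℂ × ℂ
  isOpen : ∀ i, IsOpen (U i)
  an : ∀ i, ∀ z ∈ U i, AnalyticAt ℂ (p i) z
  mem : ∀ i, ∀ z ∈ U i, p i z ∈ X.B i
  eq : ∀ i, ∀ z ∈ U i, ∃ c : ℂ, c ≠ 0 ∧ F z = c • X.ρ i (p i z)
  closed : ∀ i, ∀ K ⊆ X.B i, IsCompact K → IsClosed {z | z ∈ U i ∧ p i z ∈ K}
  cover : ∀ z, ∃ i, z ∈ U i ∧ p i z ∈ X.C i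
  rel : ∀ i j z, z ∈ U i → z ∈ U j → X.rel i (p i z) j (p j z)
  full : ∀ i j z, z ∈ U i → ∀ q ∈ X.B j, X.rel i (p i z) j q → z ∈ U j ∧ p j z = q

/-- The density `lm` bounds the curve in the boxes; `A` and `CK` will not depend on the curve. -/
structure NCDens {P : Ideal (MvPolynomial (Fin (M + 1)) ℂ)} {RD : MvPolynomial (Fin (M + 1)) ℂ} {X : NCModel P RD} {F : ℂ → EN M} (Y : NCLift X F)
    (A : ℝ) (CK : X.ι → Set (ℂ × ℂ) → ℝ) (lm : ℂ → ℝ) : Prop where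
  cont : Continuous lm
  le : ∀ z, lam F z ≤ lm z
  energy : ∃ K : ℝ, ∀ R, 1 ≤ R → ∫ z, tau R z * lm z ^ 2 ≤ A * En F R + K
  deriv_le : ∀ i, ∀ K ⊆ X.B i, IsCompact K → ∀ z ∈ Y.U i, Y.p i z ∈ K → ‖deriv (Y.p i) z‖ ≤ CK i K * lm z

end Pool.Agent.MQ3

end
end

section

/-!
# MQ3 NDefs: the web over the whole model, the potentials of the boxes, regular points, the cover

* `Web X θ l`: the charts over all boxes of the model `X`; `S.ι` is the set of all charts, `S.D k` the domain of the chart `k`, `S.σ k` its map to the surface.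
* `S.Om Y k`, `S.lf Y k`: the lift of the curve to the chart `k`.
* `hA`, `hB u`: the vectors `(y x', x y', 0)` and `(u', u x', u y')`; the potential of a box is the logarithm of the length of such a vector plus the logarithm of
  the section `W` of `m K - j H`.
* `RegA`, `RegB`: regular chart points (off the curve `{Ra = 0}`, on it).
* `Cov`: finitely many polydiscs `P` (centers `Q j`, in charts) and `N` (centers `y k`, in boxes).
-/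

set_option autoImplicit false

open Topology Filter Metric MvPolynomial MeasureTheory Laplacian

noncomputable section

namespace Pool.Agent.MQ3

open Pool.Agent.H36.BP (EN fs)
open Pool.Agent.H14.PP (Tan)
open Pool.Agent.H17BP (Surface IsForm)
open Pool.Agent.H17EF (projVar coneE)
open Pool.Agent.H30M (tau LogSing)
open Pool.Agent.MQ (lam En ztv dvg gr dv)

/-! ## vectors -/

/-- `(y x', x y', 0)` -/
def hA (p w : ℂ × ℂ) : EN 2 := WithLp.toLp 2 ![p.2 * w.1, p.1 * w.2, 0]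

/-- `(u', u x', u y')` -/
def hB (u : ℂ × ℂ → ℂ) (p w : ℂ × ℂ) : EN 2 := WithLp.toLp 2 ![fderiv ℂ u p w, u p * w.1, u p * w.2]

/-- the vector of a box: `hA` or `hB u` -/
def hN : Option (ℂ × ℂ → ℂ) → ℂ × ℂ → ℂ × ℂ → EN 2
  | none => hA
  | some u => hB u

variable {M : ℕ} {P : Ideal (MvPolynomial (Fin (M + 1)) ℂ)} {RD : MvPolynomial (Fin (M + 1)) ℂ} {m : ℕ}

/-! ## curves -/

/-- the curves of the theorem: lifts of nonconstant entire curves of order two in the surface, null for `θ`, not contained in `{RD = 0}` -/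
structure WCrv (θ : WDiff (coneE P) m) (RD : MvPolynomial (Fin (M + 1)) ℂ) (F : ℂ → EN M) : Prop where
  hom : ∃ d, RD.IsHomogeneous d
  diff : Differentiable ℂ F
  mem : ∀ z, F z ∈ coneE P
  tan : ∀ z, θ.toFun (F z) (deriv F z) = 0
  ord : ∃ A : ℝ, ∀ r : ℝ, 0 < r → Real.circleAverage (fun z => Real.log ‖F z‖) 0 r ≤ A * (1 + r ^ 2)
  nc : ∃ z w, ∀ c : ℂ, F z ≠ c • F w
  ne : ∃ z, eval (F z).ofLp RD ≠ 0

/-- moreover the curve is not contained in `{Ra = 0}` -/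
structure RCrv (θ : WDiff (coneE P) m) (RD Ra : MvPolynomial (Fin (M + 1)) ℂ) (F : ℂ → EN M) : Prop extends WCrv θ RD F where
  homR : ∃ d, Ra.IsHomogeneous d
  neR : ∃ z, eval (F z).ofLp Ra ≠ 0

/-- the form `Ra` does not vanish identically in any box -/
def RNe (X : NCModel P RD) (Ra : MvPolynomial (Fin (M + 1)) ℂ) : Prop := ∀ i, ∀ p ∈ DD, ∃ᶠ x in 𝓝 p, eval (X.ρ i x).ofLp Ra ≠ 0

/-! ## the web over the model -/

/-- the charts over all boxes -/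
structure Web (X : NCModel P RD) (θ : WDiff (coneE P) m) (l : LF M) where
  W : ∀ i, BoxWeb θ l (X.ρ i)
  V : ∀ i, WebOver (W i)

variable {X : NCModel P RD} {θ : WDiff (coneE P) m} {l : LF M}

/-- the set of all charts -/
def Web.ι (S : Web X θ l) : Type := Σ i : X.ι, (S.V i).ι

instance (S : Web X θ l) : Fintype S.ι := inferInstanceAs (Fintype (Σ i : X.ι, (S.V i).ι))

/-- the chart `k` -/
def Web.c (S : Web X θ l) (k : S.ι) : MChart (S.W k.1) := (S.V k.1).c k.2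

/-- the map of the chart `k` to its box -/
def Web.κ (S : Web X θ l) (k : S.ι) : ℂ × ℂ → ℂ × ℂ := (S.c k).κ

/-- the vector field of the chart `k` -/
def Web.v (S : Web X θ l) (k : S.ι) : ℂ × ℂ → ℂ × ℂ := (S.c k).v

/-- the map of the chart `k` to the surface -/
def Web.σ (S : Web X θ l) (k : S.ι) (q : ℂ × ℂ) : EN M := X.ρ k.1 (S.κ k q)

/-- the part of the chart `k` over the part `B` of the box -/
def Web.D (S : Web X θ l) (k : S.ι) : Set (ℂ × ℂ) := {q | q ∈ (S.c k).D ∧ S.κ k q ∈ X.B k.1}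

/-- the compact part of the chart `k` -/
def Web.cp (S : Web X θ l) (k : S.ι) : Set (ℂ × ℂ) := {q | ‖q.1‖ ≤ 1 ∧ ‖q.2‖ ≤ 1 ∧ S.κ k q ∈ X.C k.1}

/-- the part of the plane where the curve lifts to the chart `k` -/
def Web.Om (S : Web X θ l) {F : ℂ → EN M} (Y : NCLift X F) (k : S.ι) : Set ℂ := (S.c k).Om F (Y.U k.1) (Y.p k.1)

/-- the lift of the curve to the chart `k` -/
def Web.lf (S : Web X θ l) {F : ℂ → EN M} (Y : NCLift X F) (k : S.ι) : ℂ → ℂ × ℂ := (S.c k).lf F (Y.U k.1) (Y.p k.1)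

/-! ## the weight -/

open Classical in
/-- `F = cf ρ (p)` in the box `i` -/
def cf {F : ℂ → EN M} (Y : NCLift X F) (i : X.ι) (z : ℂ) : ℂ :=
  if h : ∃ c : ℂ, c ≠ 0 ∧ F z = c • X.ρ i (Y.p i z) then h.choose else 1

/-- the value of the form `Wf` on `cf ∂₁ρ`, `cf ∂₂ρ`: a holomorphic function on `U i` -/
def wt (Wf : EN M → EN M → EN M → ℂ) {F : ℂ → EN M} (Y : NCLift X F) (i : X.ι) (z : ℂ) : ℂ :=
  Wf (F z) (cf Y i z • fderiv ℂ (X.ρ i) (Y.p i z) (1, 0)) (cf Y i z • fderiv ℂ (X.ρ i) (Y.p i z) (0, 1))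

/-- the holomorphic part of the potential of a box -/
def eH (H : ℂ × ℂ → ℂ × ℂ → EN 2) (Wf : EN M → EN M → EN M → ℂ) (mK : ℕ) {F : ℂ → EN M} (Y : NCLift X F) (i : X.ι) (z : ℂ) : ℝ :=
  Real.log ‖H (Y.p i z) (deriv (Y.p i) z)‖ + 1 / mK * Real.log ‖wt Wf Y i z‖

/-- the potential of a box -/
def eN (H : ℂ × ℂ → ℂ × ℂ → EN 2) (Wf : EN M → EN M → EN M → ℂ) (mK jH : ℕ) {F : ℂ → EN M} (Y : NCLift X F) (i : X.ι) (z : ℂ) : ℝ :=
  eH H Wf mK Y i z + jH / mK * Real.log ‖F z‖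

/-- the potential of a special point; `g` is the equation of the invariant curve -/
def eP (S : Web X θ l) (g : ℂ × ℂ → ℂ) (Wf : EN M → EN M → EN M → ℂ) (mK jH : ℕ) {F : ℂ → EN M} (Y : NCLift X F) (k : S.ι) (z : ℂ) : ℝ :=
  Real.log ‖ztv (S.v k) (S.lf Y k) z‖ + Real.log ‖jc (S.κ k) (S.lf Y k z)‖ + Real.log ‖g (S.lf Y k z)‖ + 1 / mK * Real.log ‖wt Wf Y k.1 z‖ +
    jH / mK * Real.log ‖F z‖

/-- `Θ` in the chart `k` -/
def ThC (S : Web X θ l) (Wf : EN M → EN M → EN M → ℂ) (mK : ℕ) {F : ℂ → EN M} (Y : NCLift X F) (k : S.ι) (z : ℂ) : ℂ :=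
  deriv (ztv (S.v k) (S.lf Y k)) z / ztv (S.v k) (S.lf Y k) z + dvg (S.v k) (S.lf Y k z) * ztv (S.v k) (S.lf Y k) z +
    deriv (fun w => jc (S.κ k) (S.lf Y k w)) z / jc (S.κ k) (S.lf Y k z) + 1 / mK * (deriv (wt Wf Y k.1) z / wt Wf Y k.1 z)

/-- `Θ` is the function of all charts -/
def IsTh (S : Web X θ l) (Wf : EN M → EN M → EN M → ℂ) (mK : ℕ) {F : ℂ → EN M} (Y : NCLift X F) (Θ : ℂ → ℂ) : Prop :=
  ∀ k, ∀ z ∈ S.Om Y k, ∀ᶠ w in 𝓝[≠] z, Θ w = ThC S Wf mK Y k w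

/-- the weight is not identically zero along the curve -/
def WNe (Wf : EN M → EN M → EN M → ℂ) {F : ℂ → EN M} (Y : NCLift X F) : Prop := ∀ i, ∀ z ∈ Y.U i, ∀ᶠ w in 𝓝[≠] z, wt Wf Y i w ≠ 0

/-! ## regular chart points -/

/-- a regular point off the curve `{Ra = 0}`: transversal to the axis, or the axis is invariant -/
structure RegA (S : Web X θ l) (Ra : MvPolynomial (Fin (M + 1)) ℂ) (k : S.ι) (q : ℂ × ℂ) : Prop where
  mem : q ∈ S.D k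
  v_ne : S.v k q ≠ 0
  ne : q ≠ 0
  ax₁ : q.1 = 0 → (S.v k q).1 ≠ 0 ∨ ∀ᶠ x in 𝓝 q, x.1 = 0 → (S.v k x).1 = 0
  ax₂ : q.2 = 0 → (S.v k q).2 ≠ 0 ∨ ∀ᶠ x in 𝓝 q, x.2 = 0 → (S.v k x).2 = 0
  alg : ∀ᶠ x in 𝓝 q, x.1 * x.2 ≠ 0 → eval (S.σ k x).ofLp Ra ≠ 0

/-- a regular point on the curve `{Ra = 0}`, off the axes -/
structure RegB (S : Web X θ l) (Ra : MvPolynomial (Fin (M + 1)) ℂ) (k : S.ι) (q : ℂ × ℂ) : Prop where
  mem : q ∈ S.D k
  v_ne : S.v k q ≠ 0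
  ne : q.1 * q.2 ≠ 0
  crv : ∃ G : ℂ × ℂ → ℂ, AnalyticAt ℂ G q ∧ G q = 0 ∧ fderiv ℂ G q ≠ 0 ∧ (∀ᶠ x in 𝓝 q, eval (S.σ k x).ofLp Ra = 0 ↔ G x = 0) ∧
    (fderiv ℂ G q (S.v k q) ≠ 0 ∨ ∀ᶠ x in 𝓝 q, G x = 0 → fderiv ℂ G x (S.v k x) = 0)

/-- a regular chart point -/
def Reg (S : Web X θ l) (Ra : MvPolynomial (Fin (M + 1)) ℂ) (k : S.ι) (q : ℂ × ℂ) : Prop := RegA S Ra k q ∨ RegB S Ra k q

/-! ## the invariant curve and changes of vectors -/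

/-- near `q` the function `g` is a reduced equation of the invariant part of `{RD Ra = 0}` -/
def InvAt (S : Web X θ l) (Ra : MvPolynomial (Fin (M + 1)) ℂ) (k : S.ι) (q : ℂ × ℂ) (g : ℂ × ℂ → ℂ) : Prop :=
  AnalyticAt ℂ g q ∧ (∀ᶠ x in 𝓝 q, g x = 0 → fderiv ℂ g x ≠ 0) ∧
    (∃ c : ℂ × ℂ → ℂ, AnalyticAt ℂ c q ∧ ∀ᶠ x in 𝓝 q, fderiv ℂ g x (S.v k x) = c x * g x) ∧
    ∃ h : ℂ × ℂ → ℂ, AnalyticAt ℂ h q ∧ (∀ᶠ x in 𝓝 q, eval (S.σ k x).ofLp (RD * Ra) = 0 ↔ g x * h x = 0) ∧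
      ∀ᶠ x in 𝓝 q, h x = 0 → g x ≠ 0 ∧ fderiv ℂ h x (S.v k x) ≠ 0

/-- under the map `Φ` the vectors `H`, `H'` are related by invertible matrices -/
def VRel (H H' : ℂ × ℂ → ℂ × ℂ → EN 2) (Φ : ℂ × ℂ → ℂ × ℂ) (p : ℂ × ℂ) : Prop :=
  ∃ A A' : ℂ × ℂ → EN 2 →L[ℂ] EN 2, AnalyticAt ℂ A p ∧ AnalyticAt ℂ A' p ∧
    ∀ᶠ x in 𝓝 p, ∀ w, H' (Φ x) (fderiv ℂ Φ x w) = A x (H x w) ∧ H x w = A' x (H' (Φ x) (fderiv ℂ Φ x w))

/-- the change of boxes of `NCModel.iso` -/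
structure Chg (X : NCModel P RD) (i j : X.ι) (Φ : ℂ × ℂ → ℂ × ℂ) (p : ℂ × ℂ) : Prop where
  mem : p ∈ X.B i
  mem' : Φ p ∈ X.B j
  an : AnalyticAt ℂ Φ p
  det : (fderiv ℂ Φ p).det ≠ 0
  rel : ∀ᶠ x in 𝓝 p, X.rel i x j (Φ x)
  eq : ∀ᶠ x in 𝓝 p, ∃ c : ℂ, c ≠ 0 ∧ X.ρ i x = c • X.ρ j (Φ x)

/-! ## the cover -/

/-- The polydiscs `P` (in charts, radius `r j`, core of radius `s j`) and `N` (in boxes, radius `t k`; `u k = none`: off the curve `{Ra = 0}`, or all lifts on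
the curve are in the cores). -/
structure Cov (S : Web X θ l) (Ra : MvPolynomial (Fin (M + 1)) ℂ) where
  nP : ℕ
  ck : Fin nP → S.ι
  Q : Fin nP → ℂ × ℂ
  r : Fin nP → ℝ
  s : Fin nP → ℝ
  nN : ℕ
  b : Fin nN → X.ι
  y : Fin nN → ℂ × ℂ
  t : Fin nN → ℝ
  u : Fin nN → Option (ℂ × ℂ → ℂ)
  s_pos : ∀ j, 0 < s j
  s_lt : ∀ j, s j < r j
  Q_mem : ∀ j, Q j ∈ S.cp (ck j)
  P_sub : ∀ j, closedBall (Q j) (r j) ⊆ S.D (ck j)
  P_reg : ∀ j, ∀ x ∈ closedBall (Q j) (r j), x ≠ Q j → Reg S Ra (ck j) x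
  t_pos : ∀ k, 0 < t k
  N_sub : ∀ k, closedBall (y k) (t k) ⊆ X.B (b k)
  /-- the second type: a polydisc off the axes with a reduced equation of the curve -/
  N_B : ∀ k, ∀ u', u k = some u' → closedBall (y k) (t k) ⊆ DS ∧ AnalyticOnNhd ℂ u' (closedBall (y k) (t k)) ∧
    ∀ p ∈ closedBall (y k) (t k), ∀ᶠ x in 𝓝 p, (eval (X.ρ (b k) x).ofLp Ra = 0 ↔ u' x = 0) ∧ (u' x = 0 → fderiv ℂ u' x ≠ 0)
  /-- compact sets of regular chart points over the polydisc `k` -/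
  K : (k : Fin nN) → (S.V (b k)).ι → Set (ℂ × ℂ)
  K_compact : ∀ k a, IsCompact (K k a)
  K_A : ∀ k a, u k = none → ∀ q ∈ K k a, RegA S Ra ⟨b k, a⟩ q ∧ S.κ ⟨b k, a⟩ q ∈ closedBall (y k) (t k)
  K_B : ∀ k a u', u k = some u' → ∀ q ∈ K k a, Reg S Ra ⟨b k, a⟩ q ∧ S.κ ⟨b k, a⟩ q ∈ closedBall (y k) (t k)
  cover : ∀ F : ℂ → EN M, WCrv θ RD F → ∀ Y : NCLift X F, ∀ z, ∃ k, z ∈ Y.U (b k) ∧ Y.p (b k) z ∈ ball (y k) (t k / 4)
  disj : ∀ F : ℂ → EN M, WCrv θ RD F → ∀ Y : NCLift X F, ∀ j j', j ≠ j' → ∀ z, z ∈ S.Om Y (ck j) → S.lf Y (ck j) z ∈ closedBall (Q j) (r j) →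
    z ∈ S.Om Y (ck j') → S.lf Y (ck j') z ∉ closedBall (Q j') (r j')
  lift : ∀ F : ℂ → EN M, WCrv θ RD F → ∀ Y : NCLift X F, ∀ k, ∀ z ∈ Y.U (b k), Y.p (b k) z ∈ closedBall (y k) (t k) →
    (∀ j, z ∈ S.Om Y (ck j) → S.lf Y (ck j) z ∉ ball (Q j) (s j)) → ∃ a, z ∈ S.Om Y ⟨b k, a⟩ ∧ S.lf Y ⟨b k, a⟩ z ∈ K k a

variable {S : Web X θ l} {Ra : MvPolynomial (Fin (M + 1)) ℂ}

/-- the part of the plane in the closed core `j` -/
def Cov.core (C : Cov S Ra) {F : ℂ → EN M} (Y : NCLift X F) (j : Fin C.nP) : Set ℂ :=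
  {z | z ∈ S.Om Y (C.ck j) ∧ S.lf Y (C.ck j) z ∈ closedBall (C.Q j) (C.s j)}

/-- the open set of the special point `j` -/
def Cov.UP (C : Cov S Ra) {F : ℂ → EN M} (Y : NCLift X F) (j : Fin C.nP) : Set ℂ :=
  {z | z ∈ S.Om Y (C.ck j) ∧ S.lf Y (C.ck j) z ∈ ball (C.Q j) (C.r j)}

/-- the open set of the box `k` -/
def Cov.UN (C : Cov S Ra) {F : ℂ → EN M} (Y : NCLift X F) (k : Fin C.nN) : Set ℂ :=
  {z | z ∈ Y.U (C.b k) ∧ Y.p (C.b k) z ∈ ball (C.y k) (C.t k) ∧ ∀ j, z ∉ C.core Y j}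

/-- the vector of the box `k` -/
def Cov.H (C : Cov S Ra) (k : Fin C.nN) : ℂ × ℂ → ℂ × ℂ → EN 2 := hN (C.u k)

/-- `lm` is a density for the cover; the constant `A` does not depend on the curve -/
structure Dens (C : Cov S Ra) {F : ℂ → EN M} (Y : NCLift X F) (A : ℝ) (lm : ℂ → ℝ) : Prop where
  cont : Continuous lm
  le : ∀ z, lam F z ≤ lm z
  energy : ∃ K : ℝ, ∀ R, 1 ≤ R → ∫ z, tau R z * lm z ^ 2 ≤ A * En F R + K
  box : ∀ k, ∀ z ∈ Y.U (C.b k), Y.p (C.b k) z ∈ closedBall (C.y k) (C.t k) → ‖deriv (Y.p (C.b k)) z‖ ≤ lm z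
  chart : ∀ k a, ∀ z ∈ S.Om Y ⟨C.b k, a⟩, S.lf Y ⟨C.b k, a⟩ z ∈ C.K k a → ‖deriv (S.lf Y ⟨C.b k, a⟩) z‖ ≤ lm z
  pt : ∀ j, ∀ z ∈ S.Om Y (C.ck j), S.lf Y (C.ck j) z ∈ closedBall (C.Q j) (C.r j) → ‖deriv (S.lf Y (C.ck j)) z‖ ≤ lm z

/-- the equations at the special points -/
structure PG (C : Cov S Ra) (g : Fin C.nP → ℂ × ℂ → ℂ) : Prop where
  an : ∀ j, AnalyticAt ℂ (g j) (C.Q j)
  inv : ∀ j, ∀ x ∈ closedBall (C.Q j) (C.r j), x ≠ C.Q j → InvAt S Ra (C.ck j) x (g j)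

/-- the vector field at the special point `j`, with the center at `0` -/
def Cov.vj (C : Cov S Ra) (j : Fin C.nP) (x : ℂ × ℂ) : ℂ × ℂ := S.v (C.ck j) (C.Q j + x)

/-- the Jacobian at the special point `j` -/
def Cov.Jj (C : Cov S Ra) (j : Fin C.nP) (x : ℂ × ℂ) : ℂ := jc (S.κ (C.ck j)) (C.Q j + x)

/-- the curve at the special point `j` -/
def Cov.pj (C : Cov S Ra) {F : ℂ → EN M} (Y : NCLift X F) (j : Fin C.nP) (z : ℂ) : ℂ × ℂ := S.lf Y (C.ck j) z - C.Q j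

end Pool.Agent.MQ3

end
end

section

/-!
# MQ3 WtN3: the weight along a curve, from `IsForm`

`F = cf ρ (p)` with `cf` analytic; `wt = cf ^ (-j) Wf (ρ; ∂₁ρ, ∂₂ρ) (p)`.
-/

set_option autoImplicit false

open Topology Filter Metric MvPolynomial

noncomputable section

namespace Pool.Agent.MQ3

open Pool.Agent.H36.BP (EN)
open Pool.Agent.H17BP (Surface IsForm)
open Pool.Agent.H17EF (projVar coneE)

variable {M : ℕ} {P : Ideal (MvPolynomial (Fin (M + 1)) ℂ)} {RD : MvPolynomial (Fin (M + 1)) ℂ} {X : NCModel P RD}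
  {F : ℂ → EN M} {Wf : EN M → EN M → EN M → ℂ} {mK jH : ℕ}

theorem cf_spec (Y : NCLift X F) {i : X.ι} {z : ℂ} (hz : z ∈ Y.U i) : cf Y i z ≠ 0 ∧ F z = cf Y i z • X.ρ i (Y.p i z) := by
  have h : ∃ c : ℂ, c ≠ 0 ∧ F z = c • X.ρ i (Y.p i z) := Y.eq i z hz
  unfold cf
  rw [dif_pos h]
  exact h.choose_spec

theorem wtn_lt {i : X.ι} {p : ℂ × ℂ} (hp : p ∈ X.B i) : ‖p.1‖ < 1 ∧ ‖p.2‖ < 1 := X.sub i hp

theorem wtn_rho_an {i : X.ι} {p : ℂ × ℂ} (hp : p ∈ X.B i) : AnalyticAt ℂ (X.ρ i) p :=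
  (X.box i).an p (wtn_lt hp).1.le (wtn_lt hp).2.le

theorem wtn_rho_mem {i : X.ι} {p : ℂ × ℂ} (hp : p ∈ X.B i) : ∀ᶠ q in 𝓝 p, X.ρ i q ∈ coneE P :=
  (X.box i).mem p (wtn_lt hp).1.le (wtn_lt hp).2.le

theorem wtn_rho_ne (hX : Surface (coneE P)) {i : X.ι} {p : ℂ × ℂ} (hp : p ∈ X.B i) : X.ρ i p ≠ 0 := fun h =>
  hX.zero (h ▸ (wtn_rho_mem hp).self_of_nhds)

/-- the factor is determined by one coordinate -/
theorem cf_eq (Y : NCLift X F) {i : X.ι} {z : ℂ} (hz : z ∈ Y.U i) {k : Fin (M + 1)} (hk : X.ρ i (Y.p i z) k ≠ 0) :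
    cf Y i z = F z k / X.ρ i (Y.p i z) k := by
  have h1 := congrArg (fun v : EN M => v k) (cf_spec Y hz).2
  have h2 : F z k = cf Y i z * X.ρ i (Y.p i z) k := h1
  rw [h2, mul_div_cancel_right₀ _ hk]

theorem wtn_coord {f : ℂ → EN M} {z : ℂ} (hf : AnalyticAt ℂ f z) (k : Fin (M + 1)) : AnalyticAt ℂ (fun w => f w k) z :=
  AnalyticAt.comp (g := fun v : EN M => (EuclideanSpace.proj k : EN M →L[ℂ] ℂ) v) ((EuclideanSpace.proj k : EN M →L[ℂ] ℂ).analyticAt _) hf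

theorem cf_an (hX : Surface (coneE P)) (hF : Differentiable ℂ F) (Y : NCLift X F) {i : X.ι} {z : ℂ} (hz : z ∈ Y.U i) : AnalyticAt ℂ (cf Y i) z := by
  obtain ⟨k, hk⟩ : ∃ k, X.ρ i (Y.p i z) k ≠ 0 := by
    by_contra hcon
    push Not at hcon
    exact wtn_rho_ne hX (Y.mem i z hz) (by ext k; exact hcon k)
  have h1 : AnalyticAt ℂ (fun w => X.ρ i (Y.p i w)) z := AnalyticAt.comp (g := X.ρ i) (f := Y.p i) (wtn_rho_an (Y.mem i z hz)) (Y.an i z hz)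
  have h2 : AnalyticAt ℂ (fun w => F w k / X.ρ i (Y.p i w) k) z := (wtn_coord (hF.analyticAt z) k).fun_div (wtn_coord h1 k) hk
  refine h2.congr ?_
  filter_upwards [(Y.isOpen i).mem_nhds hz, (wtn_coord h1 k).continuousAt.eventually_ne hk] with w hw hw'
  exact (cf_eq Y hw hw').symm

/-- the tangent vectors of the box, for a multiple of the parametrization -/
theorem wtn_tan (hX : Surface (coneE P)) {i : X.ι} {p : ℂ × ℂ} (hp : p ∈ X.B i) {c : ℂ} (hc : c ≠ 0) (v : ℂ × ℂ) :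
    c • fderiv ℂ (X.ρ i) p v ∈ Pool.Agent.H17BP.Tan (coneE P) (c • X.ρ i p) := by
  have h0 : p + (0 : ℂ) • v = p := by simp
  have hl : AnalyticAt ℂ (fun t : ℂ => p + t • v) 0 := by fun_prop
  have hρ : AnalyticAt ℂ (X.ρ i) (p + (0 : ℂ) • v) := by
    rw [h0]
    exact wtn_rho_an hp
  have ha : AnalyticAt ℂ (fun t : ℂ => X.ρ i (p + t • v)) 0 := AnalyticAt.comp (g := X.ρ i) (f := fun t : ℂ => p + t • v) hρ hl
  have ht : Tendsto (fun t : ℂ => p + t • v) (𝓝 0) (𝓝 p) := by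
    have := hl.continuousAt.tendsto
    rwa [h0] at this
  refine ⟨fun t => c • X.ρ i (p + t • v), (analyticAt_const (v := c)).fun_smul ha, ?_, ?_, ?_⟩
  · filter_upwards [ht.eventually (wtn_rho_mem hp)] with t h1
    exact hX.smul _ h1 c hc
  · show c • X.ρ i (p + (0 : ℂ) • v) = _
    rw [h0]
  · have h1 : HasFDerivAt (X.ρ i) (fderiv ℂ (X.ρ i) p) (p + (0 : ℂ) • v) := by
      rw [h0]
      exact (wtn_rho_an hp).differentiableAt.hasFDerivAt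
    have h2 : HasDerivAt (fun t : ℂ => p + t • v) v 0 := by
      have h3 : HasDerivAt (fun t : ℂ => t • v) ((1 : ℂ) • v) 0 := (hasDerivAt_id (0 : ℂ)).smul_const v
      rw [one_smul] at h3
      exact h3.const_add p
    exact ((h1.comp_hasDerivAt (0 : ℂ) h2).const_smul c).deriv

/-- the value of the form in the box -/
theorem wt_eq (hX : Surface (coneE P)) (hW : IsForm (coneE P) mK jH Wf) (Y : NCLift X F) {i : X.ι} {z : ℂ} (hz : z ∈ Y.U i) :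
    wt Wf Y i z = (cf Y i z ^ jH)⁻¹ * Wf (X.ρ i (Y.p i z)) (fderiv ℂ (X.ρ i) (Y.p i z) (1, 0)) (fderiv ℂ (X.ρ i) (Y.p i z) (0, 1)) := by
  have hm := Y.mem i z hz
  obtain ⟨hc, he⟩ := cf_spec Y hz
  have h1 := wtn_tan hX hm one_ne_zero (1, 0)
  have h2 := wtn_tan hX hm one_ne_zero (0, 1)
  rw [one_smul, one_smul] at h1 h2
  have h3 := hW.scale _ (wtn_rho_mem hm).self_of_nhds _ h1 _ h2 (cf Y i z) hc
  rw [← he] at h3
  unfold wt
  rw [← h3, ← mul_assoc, inv_mul_cancel₀ (pow_ne_zero _ hc), one_mul]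

theorem wt_an (hX : Surface (coneE P)) (hm : 1 ≤ mK) (hW : IsForm (coneE P) mK jH Wf) (hF : Differentiable ℂ F) (Y : NCLift X F) (i : X.ι) :
    ∀ z ∈ Y.U i, AnalyticAt ℂ (wt Wf Y i) z := by
  intro z hz
  have hp := Y.mem i z hz
  have h1 := cf_an hX hF Y hz
  have h2 : AnalyticAt ℂ (fun w => (cf Y i w ^ jH)⁻¹) z := (h1.fun_pow jH).fun_inv (pow_ne_zero _ (cf_spec Y hz).1)
  have h3 := hW.analytic (X.ρ i) (Y.p i z) (wtn_rho_an hp) (wtn_rho_mem hp)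
  have h4 : AnalyticAt ℂ (fun w => Wf (X.ρ i (Y.p i w)) (fderiv ℂ (X.ρ i) (Y.p i w) (1, 0)) (fderiv ℂ (X.ρ i) (Y.p i w) (0, 1))) z :=
    AnalyticAt.comp (g := fun y => Wf (X.ρ i y) (fderiv ℂ (X.ρ i) y (1, 0)) (fderiv ℂ (X.ρ i) y (0, 1))) (f := Y.p i) h3 (Y.an i z hz)
  refine (h2.fun_mul h4).congr ?_
  filter_upwards [(Y.isOpen i).mem_nhds hz] with w hw
  exact (wt_eq hX hW Y hw).symm

/-- a change of boxes at every common point -/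
theorem exists_chg {F : ℂ → EN M} (Y : NCLift X F) {i j : X.ι} {z : ℂ} (hi : z ∈ Y.U i) (hj : z ∈ Y.U j) :
    ∃ Φ, Chg X i j Φ (Y.p i z) ∧ Φ (Y.p i z) = Y.p j z := by
  obtain ⟨Φ, h1, h2, h3, h4, h5⟩ := X.iso i j _ (Y.mem i z hi) _ (Y.mem j z hj) (Y.rel i j z hi hj)
  exact ⟨Φ, ⟨Y.mem i z hi, h2 ▸ Y.mem j z hj, h1, h3, h4, h5⟩, h2⟩

/-- the transformation rule -/
theorem wt_chg (hX : Surface (coneE P)) (hm : 1 ≤ mK) (hW : IsForm (coneE P) mK jH Wf) (hF : Differentiable ℂ F) (Y : NCLift X F) {i j : X.ι} {z : ℂ}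
    (hi : z ∈ Y.U i) (hj : z ∈ Y.U j) {Φ : ℂ × ℂ → ℂ × ℂ} (hΦ : Chg X i j Φ (Y.p i z)) (h0 : Φ (Y.p i z) = Y.p j z) :
    ∀ᶠ w in 𝓝 z, Y.p j w = Φ (Y.p i w) ∧ wt Wf Y i w = jc Φ (Y.p i w) ^ mK * wt Wf Y j w := by
  have hpt : Tendsto (Y.p i) (𝓝 z) (𝓝 (Y.p i z)) := (Y.an i z hi).continuousAt.tendsto
  have hB : ∀ᶠ x in 𝓝 (Y.p i z), Φ x ∈ X.B j := hΦ.an.continuousAt.eventually ((X.isOpen j).mem_nhds hΦ.mem')
  filter_upwards [(Y.isOpen i).mem_nhds hi, hpt.eventually hB, hpt.eventually hΦ.rel, hpt.eventually hΦ.eq.eventually_nhds,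
    hpt.eventually hΦ.an.eventually_analyticAt] with w hwi h1 h2 h3 h4
  obtain ⟨hwj, h5⟩ := Y.full i j w hwi _ h1 h2
  refine ⟨h5, ?_⟩
  set x := Y.p i w with hx
  have hxB : x ∈ X.B i := Y.mem i w hwi
  obtain ⟨k, hk⟩ : ∃ k, X.ρ j (Φ x) k ≠ 0 := by
    by_contra hcon
    push Not at hcon
    exact wtn_rho_ne hX h1 (by ext k; exact hcon k)
  have hρj : AnalyticAt ℂ (X.ρ j) (Φ x) := wtn_rho_an h1
  have hρi : AnalyticAt ℂ (X.ρ i) x := wtn_rho_an hxB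
  have hρΦ : AnalyticAt ℂ (fun y => X.ρ j (Φ y)) x := AnalyticAt.comp (g := X.ρ j) (f := Φ) hρj h4
  have hco : ∀ {f : ℂ × ℂ → EN M} {y : ℂ × ℂ}, AnalyticAt ℂ f y → AnalyticAt ℂ (fun y => f y k) y := fun hf =>
    AnalyticAt.comp (g := fun v : EN M => (EuclideanSpace.proj k : EN M →L[ℂ] ℂ) v) ((EuclideanSpace.proj k : EN M →L[ℂ] ℂ).analyticAt _) hf
  -- the factor
  set a : ℂ × ℂ → ℂ := fun y => X.ρ i y k / X.ρ j (Φ y) k with ha
  have haan : AnalyticAt ℂ a x := (hco hρi).fun_div (hco hρΦ) hk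
  have heq : X.ρ i =ᶠ[𝓝 x] fun y => a y • X.ρ j (Φ y) := by
    filter_upwards [h3, (hco hρΦ).continuousAt.eventually_ne hk] with y h6 h7
    obtain ⟨c, hc, h8⟩ := h6
    have h9 : X.ρ i y k = c * X.ρ j (Φ y) k := by
      rw [h8]
      rfl
    have h10 : a y = c := by
      show X.ρ i y k / X.ρ j (Φ y) k = c
      rw [h9, mul_div_cancel_right₀ _ h7]
    rw [h10]
    exact h8
  have ha0 : a x ≠ 0 := by
    intro h6
    have h7 := heq.self_of_nhds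
    simp only [h6, zero_smul] at h7
    exact wtn_rho_ne hX hxB h7
  have hder : HasFDerivAt (X.ρ i) (a x • ((fderiv ℂ (X.ρ j) (Φ x)).comp (fderiv ℂ Φ x)) + (fderiv ℂ a x).smulRight (X.ρ j (Φ x))) x :=
    (haan.differentiableAt.hasFDerivAt.smul (hρj.differentiableAt.hasFDerivAt.comp x h4.differentiableAt.hasFDerivAt)).congr_of_eventuallyEq heq
  obtain ⟨hci, hei⟩ := cf_spec Y hwi
  obtain ⟨hcj, hej⟩ := cf_spec Y hwj
  have hcc : cf Y j w = cf Y i w * a x := by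
    have h6 : F w = (cf Y i w * a x) • X.ρ j (Y.p j w) := by
      have h8 : X.ρ i x = a x • X.ρ j (Φ x) := heq.self_of_nhds
      rw [h5, mul_smul, ← h8]
      exact hei
    have h7 : (cf Y j w - cf Y i w * a x) • X.ρ j (Y.p j w) = 0 := by
      rw [sub_smul, ← h6, ← hej, sub_self]
    exact sub_eq_zero.1 ((smul_eq_zero.1 h7).resolve_right (wtn_rho_ne hX (Y.mem j w hwj)))
  set c := cf Y j w with hc
  have hFx : F w ∈ coneE P := by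
    rw [hei]
    exact hX.smul _ (wtn_rho_mem hxB).self_of_nhds _ hci
  have hFj : F w = c • X.ρ j (Φ x) := by rw [← h5]; exact hej
  -- the derivatives
  have hvec : ∀ v : ℂ × ℂ, cf Y i w • fderiv ℂ (X.ρ i) x v =
      c • fderiv ℂ (X.ρ j) (Φ x) (fderiv ℂ Φ x v) + (cf Y i w * fderiv ℂ a x v / c) • F w := by
    intro v
    rw [hder.fderiv]
    have h6 : (a x • ((fderiv ℂ (X.ρ j) (Φ x)).comp (fderiv ℂ Φ x)) + (fderiv ℂ a x).smulRight (X.ρ j (Φ x))) v =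
        a x • fderiv ℂ (X.ρ j) (Φ x) (fderiv ℂ Φ x v) + fderiv ℂ a x v • X.ρ j (Φ x) := rfl
    rw [h6, smul_add, smul_smul, ← hcc, smul_smul, hFj, smul_smul, div_mul_cancel₀ _ hcj]
  have hT : ∀ v : ℂ × ℂ, c • fderiv ℂ (X.ρ j) (Φ x) v ∈ Pool.Agent.H17BP.Tan (coneE P) (F w) := fun v => by
    rw [hFj]
    exact wtn_tan hX h1 hcj v
  have hsplit : ∀ v : ℂ × ℂ, c • fderiv ℂ (X.ρ j) (Φ x) v =
      v.1 • (c • fderiv ℂ (X.ρ j) (Φ x) (1, 0)) + v.2 • (c • fderiv ℂ (X.ρ j) (Φ x) (0, 1)) := by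
    intro v
    have h6 : v = v.1 • ((1 : ℂ), (0 : ℂ)) + v.2 • ((0 : ℂ), (1 : ℂ)) := by
      ext <;> simp
    conv_lhs => rw [h6, map_add, map_smul, map_smul]
    rw [smul_add, smul_comm c v.1, smul_comm c v.2]
  unfold wt
  rw [← hx, hvec, hvec, hW.add_smul _ hFx _ (hT _) _ (hT _), hsplit (fderiv ℂ Φ x (1, 0)), hsplit (fderiv ℂ Φ x (0, 1)),
    hW.det _ hFx _ (hT _) _ (hT _), h5]
  unfold jc
  congr 2
  ring

end Pool.Agent.MQ3

end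
end
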