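import Pool.Agent.H94.G6.M41
import Pool.Agent.H94.G6.M49
import Pool.Agent.H94.G6.M59
import Pool.Agent.H94.G6.M64
import Pool.Agent.H94.G6.M69
import Pool.Agent.H94.G6.M70
import Pool.Agent.H94.G6.M71
import Pool.Agent.H94.G6.M73
import Pool.Agent.H94.G6.M75
import Pool.Agent.H94.G6.M77
import Pool.Agent.H94.G6.M78
import Pool.Agent.H94.G6.M79
import Pool.Agent.H94.G6.M81

/-! The parts of this file: AD.W.Def, H13.CV.StrA, MQ2.Cong, H36.TB.EnT, MQ3.NLoc, MQ3.NLocB, SG.RSec. -/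

section

/-!
# AD W Def: pseudo-lengths in charts of dimension `d`

The structure `H22.W.PseudoLength` does not depend on the dimension; here the facts which use charts are proved for `AD.Chart`.
-/

set_option autoImplicit false

open Topology Filter Metric

namespace Pool.Agent.AD

open Pool.Agent.H36.BP (EN fs wd)
open Pool.Agent.H14.PP (IsCone Tan CurveAt IsOpenPart)
open Pool.Agent.H22.W (PseudoLength isOpenPart_self tan_smul tan_mem tan_curve tan_entire fs_scale)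

variable {N d : ℕ} {X : Set (EN N)}

/-- the tangent vectors in a chart -/
theorem tan_chart (hX : IsCone X) (χ : Chart d X) {x v : EN N} (h : Tan X x v) (hU : x ∈ χ.U) :
    χ.q x ∈ ball (0 : Vd d) 2 ∧ ∃ c a : ℂ, c ≠ 0 ∧ x = c • χ.σ (χ.q x) ∧
      v = c • fderiv ℂ χ.σ (χ.q x) (fderiv ℂ χ.q x v) + a • x := by
  obtain ⟨F, hF, h0, h1⟩ := h
  subst h0
  obtain ⟨hq, hq', c, hc, hc0, hev⟩ := χ.curve hX hF hU
  obtain ⟨hball, heq⟩ := hev.self_of_nhds
  refine ⟨hball, c 0, deriv c 0 / c 0, hc0, heq, ?_⟩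
  have hs : AnalyticAt ℂ χ.σ (χ.q (F 0)) := χ.σ_an _ hball
  have h2 : HasDerivAt (fun z => χ.σ (χ.q (F z))) (fderiv ℂ χ.σ (χ.q (F 0)) (deriv (fun z => χ.q (F z)) 0)) 0 :=
    hs.differentiableAt.hasFDerivAt.comp_hasDerivAt (0 : ℂ) hq.differentiableAt.hasDerivAt
  have h3 : HasDerivAt (fun z => c z • χ.σ (χ.q (F z))) (c 0 • fderiv ℂ χ.σ (χ.q (F 0)) (deriv (fun z => χ.q (F z)) 0) +
      deriv c 0 • χ.σ (χ.q (F 0))) 0 := hc.differentiableAt.hasDerivAt.smul h2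
  have h4 : deriv F 0 = c 0 • fderiv ℂ χ.σ (χ.q (F 0)) (deriv (fun z => χ.q (F z)) 0) +
      deriv c 0 • χ.σ (χ.q (F 0)) := by
    have h5 : F =ᶠ[𝓝 0] fun z => c z • χ.σ (χ.q (F z)) := hev.mono fun z hz => hz.2
    rw [h5.deriv_eq]
    exact h3.deriv
  rw [h1] at h4 hq'
  rw [← hq']
  have h6 : (deriv c 0 / c 0) • F 0 = deriv c 0 • χ.σ (χ.q (F 0)) := by
    conv_lhs => rw [heq]
    rw [smul_smul, div_mul_cancel₀ _ hc0]
  rw [h6]
  exact h4

theorem tan_sigma (hX : IsCone X) (χ : Chart d X) {p : Vd d} (hp : p ∈ ball (0 : Vd d) 2) (w : Vd d) :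
    Tan X (χ.σ p) (fderiv ℂ χ.σ p w) := χ.tan (isOpenPart_self hX) hp (χ.σ_mem p hp).1 _

end Pool.Agent.AD

end

section

/-!
# CV StrA: forms which vanish on an entire curve in a curve

`form_of_curve`: let `Q` define a curve, `f : ℂ → openVar Q H` a non-constant entire curve, `R` a form which vanishes at all `f z`.  Then `R ∈ Q`: let `J = mapIdeal f univ` (`Pool/Agent/H17BP/MapIdeal.lean`):
homogeneous, prime (`mapIdeal_isPrime`), `Q ≤ J` (`le_mapIdeal`), `R ∈ J`, `exists_X_notMem`.  If `R ∉ Q` then `trdeg_lt` (`Pool/Agent/H17BP/TrdegLt.lean`; `exists_fin_basis`) shows that `FunField J` has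
transcendence degree `0`, so `variety J` is one point (`eq_of_trdeg_zero`), and `f` is constant (`mem_variety_mapIdeal`): contradiction.  (See the end of the proof of `picard_of_form` in `Pool/Agent/H17BP/Same.lean`.)
-/

set_option autoImplicit false

open Topology Filter MvPolynomial
open Pool.Agent.H17 (PN VanishesAt ZariskiClosedIn HolomorphicInto puncturedDisc)
open Pool.Agent.H17LG.Variety (FunField IsLogGeneralType)
open Pool.Agent.H62.FC (Homog)
open Pool.Agent.H17R (openVar)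

noncomputable section

namespace Pool.Agent.H13.CV

variable {N : ℕ}

theorem form_of_curve0 (Q : Ideal (MvPolynomial (Fin (N + 1)) ℂ)) [Q.IsPrime] (hQ : Homog Q)
    (hz : ∃ z : Fin 1 → FunField Q, IsTranscendenceBasis ℂ z) {f : ℂ → PN N} (hf : HolomorphicInto f Set.univ)
    (hfQ : ∀ z, ∀ R ∈ Q, ∀ n, R.IsHomogeneous n → VanishesAt R (f z)) (hne : ∃ z w, f z ≠ f w) {d : ℕ} {R : MvPolynomial (Fin (N + 1)) ℂ} (hR : R.IsHomogeneous d)
    (hfR : ∀ z, VanishesAt R (f z)) : R ∈ Q := by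
  by_contra hRQ
  set J := Pool.Agent.H17BP.mapIdeal f Set.univ with hJ
  have hJp : J.IsPrime := Pool.Agent.H17BP.mapIdeal_isPrime isOpen_univ isPreconnected_univ Set.univ_nonempty hf
  have hJX : ∃ i, (X i : MvPolynomial (Fin (N + 1)) ℂ) ∉ J := Pool.Agent.H17BP.exists_X_notMem Set.univ_nonempty
  have hJh : Homog J := Pool.Agent.H17BP.mapIdeal_homog
  have hQJ : Q ≤ J := Pool.Agent.H17BP.le_mapIdeal hQ fun z _ => ⟨hfQ z, fun m => m.elim0⟩
  have hRJ : R ∈ J := (Pool.Agent.H17BP.mem_mapIdeal_form hR).2 fun z _ => hfR z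
  obtain ⟨w, hw⟩ := Pool.Agent.H62.FC.exists_fin_basis (P := J) hJX
  have hlt : w < 1 := Pool.Agent.H17BP.trdeg_lt hQ hJh hQJ (fun h => hRQ (h hRJ)) hJX hz hw
  have hw0 : w = 0 := by omega
  subst hw0
  obtain ⟨a, b, hab⟩ := hne
  exact hab (Pool.Agent.H17BP.eq_of_trdeg_zero hJh hJX hw _ (Pool.Agent.H17BP.mem_variety_mapIdeal (Set.mem_univ a)) _
    (Pool.Agent.H17BP.mem_variety_mapIdeal (Set.mem_univ b)))

end Pool.Agent.H13.CV

end
end

section

/-!
# MQ2 Cong: the package depends only on the germ of `v`; bigger classes are stronger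
-/

set_option autoImplicit false

open Topology Filter Metric MeasureTheory Asymptotics Laplacian

noncomputable section

namespace Pool.Agent.MQ2

open Pool.Agent.H36.BP (EN)
open Pool.Agent.H30M (tau LogSing)
open Pool.Agent.MQ

theorem Good.mono {P P' : (ℂ × ℂ → ℂ) → (ℂ × ℂ → ℂ) → Prop} (h : ∀ g J, P g J → P' g J) {v : ℂ × ℂ → ℂ × ℂ} (hv : Good P' v) : Good P v := by
  obtain ⟨m, c, hc, hg⟩ := hv
  exact ⟨m, c, hc, fun g J hP => hg g J (h g J hP)⟩

end Pool.Agent.MQ2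

end
end

section

/-!
# TB EnT: descent of the two-sided bound at the points which are not blown up

Near `x`, `l b x ≠ 0`, the chart upstairs is `σ₁ = phi l ∘ σ`, `τ₁ y = τ ((l b x)⁻¹ • y b)` (`chart_off`); the coefficient upstairs is the square of the
coefficient downstairs (`oC_phi`).  The lift of `F` is normalised so that `Φ z = phi l (F z)`.
-/

set_option autoImplicit false

open Topology Filter Metric

noncomputable section

namespace Pool.Agent.H36.TB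

open Pool.Agent.H36.BP (EN fs wd Sub)
open Pool.Agent.H17BP (Pr Surface IsForm NoZeros Eqs IsChart chart_iff surface_iff isForm_iff)
open Pool.Agent.H14.KB (rhoS)
open Pool.Agent.H62.BU (blow total Ker phi om)
open Pool.Agent.SY (Ent Energy ModelS IsLiftB down down_eq exists_liftB)

variable {V : Type} [NormedAddCommGroup V] [NormedSpace ℂ V] {ι : Type} [Fintype ι] {l : ι → V →L[ℂ] ℂ} {X T : Set V} {q : V}

/-- off the exceptional curve the coefficient of the form upstairs is the square of the coefficient downstairs -/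
theorem oC_phi (hX : Surface X) {m j : ℕ} {Ω : V → V → V → ℂ} (hΩ : IsForm X m j Ω) {σ : ℂ × ℂ → V} {p : ℂ × ℂ}
    (hσ : AnalyticAt ℂ σ p) (hmem : ∀ᶠ y in 𝓝 p, σ y ∈ X) {b : ι} (hb : l b (σ p) ≠ 0) :
    oC (om l j Ω) (fun y => phi l (σ y)) p = oC Ω σ p ^ 2 := by
  have hlb : AnalyticAt ℂ (fun y => l b (σ y)) p := ((l b).analyticAt _).comp hσ
  have h1 : AnalyticAt ℂ (fun y => phi l (σ y)) p := by
    refine AnalyticAt.pi fun b' => ?_
    exact (((l b').analyticAt _).comp hσ).smul hσ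
  have h2 : ∀ᶠ y in 𝓝 p, phi l (σ y) ∈ blow l X := by
    filter_upwards [hmem, hlb.continuousAt.eventually_ne hb] with y h3 h4
    exact H62.BU.dense_sub (H62.BU.phi_mem_dense h3 ⟨b, h4⟩)
  have hne : σ p ≠ 0 := fun h0 => hX.zero (h0 ▸ hmem.self_of_nhds)
  have h3 : phi l (σ p) b ≠ 0 := smul_ne_zero hb hne
  rw [oC_om (σ₁ := fun y => phi l (σ y)) hX hΩ h1 h2 h3]
  have h4 := oC_comp (ψ := fun y => phi l (σ y) b) (σ := σ) (c := fun y => l b (σ y)) (χ := fun y => y) hX.smul hΩ hlb analyticAt_id hσ hmem hb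
    (Eventually.of_forall fun y => rfl)
  have h5 : jc (fun y : ℂ × ℂ => y) p = 1 := by
    unfold jc
    rw [fderiv_fun_id]
    simp
  rw [h5, one_pow, one_mul] at h4
  have h6 : l b (phi l (σ p) b) = l b (σ p) ^ 2 := by
    show l b (l b (σ p) • σ p) = _
    rw [map_smul, smul_eq_mul, sq]
  rw [h6, ← h4, mul_pow, ← pow_mul, ← pow_mul, mul_comm 2 j]

/-- MODULE EnT: descent of the two-sided bound at the points which are not blown up. -/
theorem tbAt_blow [FiniteDimensional ℂ V] {r : ℕ} {l : Fin r → V →L[ℂ] ℂ} {m j : ℕ} {Ω : V → V → V → ℂ} {κ : Type} [Fintype κ]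
    {Q : κ → V → ℂ} {D : ℕ} (h : ModelS X T m j Ω Q D) (hl : Ker l q) (hq : q ∈ T) {N' : ℕ}
    {L' : (Fin r → V) ≃L[ℂ] EN N'} {M : ℕ} {c₀ C θ k : ℝ} {g : (ℂ → Fin r → V) → ℂ → ℝ}
    {pn : (Fin r → V) → ℝ} {D₁ : ℕ}
    (E : EnergyB (blow l X) (total l X T) (2 * m) j (om l j Ω) (fun y => ‖L' y‖)
      (rhoS (fun (p : κ × Fin r) (y : Fin r → V) => Q p.1 (y p.2)) D) M c₀ C g pn D₁ θ) {x : V} (hx : x ∈ X) (hxq : ¬ Pr x q)
    (ht : TBAt (blow l X) (total l X T) (2 * m) (om l j Ω) g pn k (phi l x)) :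
    TBAt X T m Ω (down l X T g) (fun x => pn (phi l x)) k x := by
  intro σ τ hσ hσ0 hT0
  have hX := h.surf
  have hXs := hX.smul
  have hTX : T ⊆ X := h.eqs.sub
  have hT := h.eqs.cone h.surf.smul
  have hm := h.one_m
  have E' := E.toEnergy
  have : CompleteSpace V := FiniteDimensional.complete ℂ V
  have hx0 : x ≠ 0 := fun h0 => hX.zero (h0 ▸ hx)
  -- some `l b x ≠ 0`
  obtain ⟨b, hb⟩ : ∃ b, l b x ≠ 0 := by
    by_contra hcon
    push Not at hcon
    obtain ⟨c, hc⟩ := (hl x).mp hcon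
    refine hxq ⟨c, ?_, hc⟩
    rintro rfl
    rw [zero_smul] at hc
    exact hx0 hc
  have hbσ : l b (σ 0) ≠ 0 := by rw [hσ0]; exact hb
  have h₁ : IsChart (blow l X) (fun p => phi l (σ p)) (fun y => τ ((l b (σ 0))⁻¹ • y b)) :=
    chart_iff.1 (H62.BU.chart_off (surface_iff.2 hX) (chart_iff.2 hσ) hbσ)
  set a : ℂ := l b (σ 0) with ha
  have hlσ : ∀ᶠ p in 𝓝 (0 : ℂ × ℂ), l b (σ p) ≠ 0 := by
    have h1 : ContinuousAt (fun p => l b (σ p)) 0 := (l b).continuous.continuousAt.comp hσ.σ_an.continuousAt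
    exact h1.eventually_ne hbσ
  have hT1 : ∀ᶠ p in 𝓝 (0 : ℂ × ℂ), (phi l (σ p) ∈ total l X T ↔ p.1 = 0) := by
    filter_upwards [hT0, hσ.σ_mem, hlσ] with p h1 h2 h3
    have h4 : phi l (σ p) ∈ blow l X := H62.BU.dense_sub (H62.BU.phi_mem_dense h2 ⟨b, h3⟩)
    have h5 : phi l (σ p) b ≠ 0 := smul_ne_zero h3 fun h0 => hX.zero (h0 ▸ h2)
    rw [← h1, H62.BU.mem_total_iff (surface_iff.2 hX) hT _ h4 h5]
    show l b (σ p) • σ p ∈ T ↔ _
    refine ⟨fun h6 => ?_, fun h6 => hT _ h6 _ h3⟩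
    have h7 := hT _ h6 _ (inv_ne_zero h3)
    rwa [smul_smul, inv_mul_cancel₀ h3, one_smul] at h7
  obtain ⟨B, hB, hev⟩ := ht _ _ h₁ (by show phi l (σ 0) = phi l x; rw [hσ0]) hT1
  refine ⟨B, hB, ?_⟩
  -- the neighbourhood downstairs
  have hphic : Tendsto (phi l) (𝓝 x) (𝓝 (phi l x)) :=
    (continuous_pi fun b => (l b).continuous.smul continuous_id : Continuous (phi l)).tendsto x
  have hpair : Tendsto (fun y => (y, a⁻¹ * l b y)) (𝓝 x) (𝓝 (σ 0, (1 : ℂ))) := by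
    have h1 : Tendsto (fun y => (y, a⁻¹ * l b y)) (𝓝 x) (𝓝 (x, a⁻¹ * l b x)) :=
      (tendsto_id).prodMk_nhds (((l b).continuous.tendsto x).const_mul _)
    have h2 : a⁻¹ * l b x = 1 := by rw [ha, hσ0, inv_mul_cancel₀ hb]
    rw [h2] at h1
    rw [hσ0]
    exact h1
  have hτt : Tendsto τ (𝓝 x) (𝓝 0) := by
    have h1 : Tendsto τ (𝓝 (σ 0)) (𝓝 (τ (σ 0))) := hσ.τ_an.continuousAt
    rwa [hσ.left.self_of_nhds, hσ0] at h1
  filter_upwards [hphic.eventually hev, hpair.eventually hσ.inv.eventually_nhds, (l b).continuous.continuousAt.eventually_ne hb,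
    hτt.eventually hσ.σ_an.eventually_analyticAt, hτt.eventually hσ.σ_mem.eventually_nhds, hτt.eventually hlσ] with y h1 h2 h3 h4 h5 h6
  refine ⟨h1.1, h1.2.1, fun F hF z hFz => ?_⟩
  have hlc := h1.2.2
  -- the lift
  obtain ⟨Φ, hΦ, f, hf, hphi⟩ := exists_liftB hX hl hTX hT hq hF
  have hfz : f z ≠ 0 := by
    intro h0
    have h7 := congrFun (hphi z) b
    rw [h0, zero_smul, hFz] at h7
    have h8 : l b y • y = 0 := h7
    have h9 : y ≠ 0 := by
      rw [← hFz]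
      exact fun h0 => hX.zero (h0 ▸ hF.mem z)
    exact smul_ne_zero h3 h9 h8
  set Ψ : ℂ → Fin r → V := fun w => f z • Φ w with hΨ
  have hΨE : Ent (blow l X) (total l X T) Ψ := by
    refine ⟨fun w => (differentiableAt_const (f z)).smul (hΦ.diff w), fun w => H62.BU.blow_smul _ (hΦ.mem w) _ hfz, ?_⟩
    obtain ⟨w, hw⟩ := hΦ.out
    refine ⟨w, fun hc => hw ?_⟩
    have h7 := (Pool.Agent.H17BP.eqs_blow (l := l) hX h.eqs).cone H62.BU.blow_smul _ hc (f z)⁻¹ (inv_ne_zero hfz)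
    have h8 : (f z)⁻¹ • Ψ w = Φ w := by
      show (f z)⁻¹ • (f z • Φ w) = Φ w
      rw [smul_smul, inv_mul_cancel₀ hfz, one_smul]
    rwa [h8] at h7
  have hΨp : ∀ w, phi l (F w) = (f w / f z) • Ψ w := by
    intro w
    show _ = (f w / f z) • (f z • Φ w)
    rw [smul_smul, div_mul_cancel₀ _ hfz]
    exact hphi w
  have hΨL : IsLiftB l X T F Ψ := ⟨hΨE, fun w => f w / f z, hf.div_const _, hΨp⟩
  rw [down_eq hX hl hTX hT hq E' hF hΨL]
  have hΨz : Ψ z = phi l y := by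
    rw [← hFz, hphi z]
  have hm2 := hlc Ψ hΨE z hΨz
  -- the point
  have e1 : τ (a⁻¹ • phi l y b) = τ y := by
    have h7 := h2.self_of_nhds
    show τ (a⁻¹ • (l b y • y)) = τ y
    rw [smul_smul]
    exact h7
  -- the derivative
  have hFt : Tendsto F (𝓝 z) (𝓝 y) := by
    rw [← hFz]
    exact (hF.diff z).continuousAt
  have hft : Tendsto (fun w => f w / f z) (𝓝 z) (𝓝 1) := by
    have h7 : Tendsto f (𝓝 z) (𝓝 (f z)) := (hf z).continuousAt
    have h8 := h7.div_const (f z)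
    rwa [div_self hfz] at h8
  have e2 : deriv (fun w => τ (a⁻¹ • Ψ w b)) z = deriv (fun w => τ (F w)) z := by
    refine Filter.EventuallyEq.deriv_eq ?_
    have h7 : Tendsto (fun w => (F w, a⁻¹ * (l b (F w) / (f w / f z)))) (𝓝 z) (𝓝 (y, a⁻¹ * l b y)) := by
      refine hFt.prodMk_nhds (Tendsto.const_mul _ ?_)
      have h8 : Tendsto (fun w => l b (F w)) (𝓝 z) (𝓝 (l b y)) := ((l b).continuous.tendsto y).comp hFt
      have h9 := h8.div hft one_ne_zero
      rwa [div_one] at h9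
    filter_upwards [h7.eventually h2, hft.eventually_ne one_ne_zero] with w h8 h9
    have h10 : Ψ w b = (l b (F w) / (f w / f z)) • F w := by
      have h11 : l b (F w) • F w = (f w / f z) • Ψ w b := congrFun (hΨp w) b
      rw [div_eq_inv_mul, mul_smul, h11, smul_smul, inv_mul_cancel₀ h9, one_smul]
    show τ (a⁻¹ • Ψ w b) = τ (F w)
    rw [h10, smul_smul]
    exact h8
  -- the coefficient
  have e3 : ‖oC (om l j Ω) (fun p => phi l (σ p)) (τ y)‖ ^ (1 / ((2 * m : ℕ) : ℝ)) = ‖oC Ω σ (τ y)‖ ^ (1 / (m : ℝ)) := by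
    rw [oC_phi hX h.form h4 h5 h6, norm_pow, ← Real.rpow_natCast, ← Real.rpow_mul (norm_nonneg _)]
    congr 1
    have hm' : (m : ℝ) ≠ 0 := by
      have : m ≠ 0 := by omega
      exact_mod_cast this
    push_cast
    field_simp
  rw [e1, e2, e3] at hm2
  exact hm2

end Pool.Agent.H36.TB

end
end

section

/-!
# MQ3 NLoc: the local form of the potentials at a regular chart point
-/

set_option autoImplicit false

open Topology Filter Metric MvPolynomial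

noncomputable section

namespace Pool.Agent.MQ3

open Pool.Agent.H36.BP (EN)
open Pool.Agent.H17EF (coneE)

variable {M : ℕ} {P : Ideal (MvPolynomial (Fin (M + 1)) ℂ)} {RD : MvPolynomial (Fin (M + 1)) ℂ} {m : ℕ} {X : NCModel P RD} {θ : WDiff (coneE P) m}
  {l : LF M} {S : Web X θ l} {Ra : MvPolynomial (Fin (M + 1)) ℂ}

/-! ### charts -/

private theorem NLoc_dt (k : S.ι) : dt (S.c k).w (S.c k).w' ≠ 0 := (S.c k).pos.ne'

private theorem NLoc_an (k : S.ι) (q : ℂ × ℂ) : AnalyticAt ℂ (S.κ k) q := analyticAt_mono q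

private theorem NLoc_open (k : S.ι) : IsOpen (S.D k) :=
  isOpen_Dm.inter ((X.isOpen k.1).preimage (continuous_iff_continuousAt.2 fun q => (NLoc_an k q).continuousAt))

private theorem NLoc_v {k : S.ι} {q : ℂ × ℂ} (hq : q ∈ S.D k) : AnalyticAt ℂ (S.v k) q := (S.c k).v_an q hq.1

private theorem NLoc_mono {w w' : ℕ × ℕ} (hd : dt w w' ≠ 0) (x : ℂ × ℂ) : (mono w w' x).1 * (mono w w' x).2 = 0 ↔ x.1 * x.2 = 0 := by
  constructor
  · intro h
    by_contra h0
    have h1 := left_ne_zero_of_mul h0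
    have h2 := right_ne_zero_of_mul h0
    exact mul_ne_zero (mul_ne_zero (pow_ne_zero _ h1) (pow_ne_zero _ h2)) (mul_ne_zero (pow_ne_zero _ h1) (pow_ne_zero _ h2)) h
  · intro h
    show (x.1 ^ w.1 * x.2 ^ w'.1) * (x.1 ^ w.2 * x.2 ^ w'.2) = 0
    have h1 : (x.1 ^ w.1 * x.2 ^ w'.1) * (x.1 ^ w.2 * x.2 ^ w'.2) = x.1 ^ (w.1 + w.2) * x.2 ^ (w'.1 + w'.2) := by
      rw [pow_add, pow_add]
      ring
    rw [h1]
    rcases mul_eq_zero.1 h with h2 | h2
    · have h3 : w.1 + w.2 ≠ 0 := by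
        intro h4
        apply hd
        have h5 : w.1 = 0 := by omega
        have h6 : w.2 = 0 := by omega
        simp [dt, h5, h6]
      rw [h2, zero_pow h3, zero_mul]
    · have h3 : w'.1 + w'.2 ≠ 0 := by
        intro h4
        apply hd
        have h5 : w'.1 = 0 := by omega
        have h6 : w'.2 = 0 := by omega
        simp [dt, h5, h6]
      rw [h2, zero_pow h3, mul_zero]

/-- the zeros of `RD Ra` upstairs -/
private theorem NLoc_zero {k : S.ι} {x : ℂ × ℂ} (hx : x ∈ S.D k) :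
    eval (S.σ k x).ofLp (RD * Ra) = 0 ↔ x.1 * x.2 = 0 ∨ eval (S.σ k x).ofLp Ra = 0 := by
  rw [map_mul, mul_eq_zero]
  have h1 : eval (S.σ k x).ofLp RD = 0 ↔ (S.κ k x).1 * (S.κ k x).2 = 0 := X.div k.1 _ hx.2
  rw [h1]
  have h2 : (S.κ k x).1 * (S.κ k x).2 = 0 ↔ x.1 * x.2 = 0 := NLoc_mono (NLoc_dt k) x
  rw [h2]

private theorem NLoc_fst (x w : ℂ × ℂ) : fderiv ℂ (fun y : ℂ × ℂ => y.1) x w = w.1 := by
  rw [fderiv_fst]
  rfl

private theorem NLoc_snd (x w : ℂ × ℂ) : fderiv ℂ (fun y : ℂ × ℂ => y.2) x w = w.2 := by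
  rw [fderiv_snd]
  rfl

private theorem NLoc_one (x w : ℂ × ℂ) : fderiv ℂ (fun _ : ℂ × ℂ => (1 : ℂ)) x w = 0 := by
  simp

/-! ### the equations -/

/-- no invariant curve, a transversal curve `{h = 0}` -/
private theorem NLoc_trans {k : S.ι} {q : ℂ × ℂ} {h : ℂ × ℂ → ℂ} (hh : AnalyticAt ℂ h q)
    (hZ : ∀ᶠ x in 𝓝 q, eval (S.σ k x).ofLp (RD * Ra) = 0 ↔ h x = 0) (ht : ∀ᶠ x in 𝓝 q, h x = 0 → fderiv ℂ h x (S.v k x) ≠ 0) :
    InvAt S Ra k q fun _ => 1 := by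
  refine ⟨analyticAt_const, Eventually.of_forall fun x hx => absurd hx one_ne_zero, ⟨fun _ => 0, analyticAt_const, Eventually.of_forall fun x => ?_⟩,
    h, hh, ?_, ?_⟩
  · rw [NLoc_one, zero_mul]
  · filter_upwards [hZ] with x hx
    rw [hx, one_mul]
  · filter_upwards [ht] with x hx h0
    exact ⟨one_ne_zero, hx h0⟩

/-- an invariant curve `{g = 0}` -/
private theorem NLoc_inv {k : S.ι} {q : ℂ × ℂ} {g c : ℂ × ℂ → ℂ} (hg : AnalyticAt ℂ g q) (hd : ∀ᶠ x in 𝓝 q, fderiv ℂ g x ≠ 0) (hc : AnalyticAt ℂ c q)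
    (hcg : ∀ᶠ x in 𝓝 q, fderiv ℂ g x (S.v k x) = c x * g x) (hZ : ∀ᶠ x in 𝓝 q, eval (S.σ k x).ofLp (RD * Ra) = 0 ↔ g x = 0) : InvAt S Ra k q g := by
  refine ⟨hg, hd.mono fun x hx _ => hx, ⟨c, hc, hcg⟩, fun _ => 1, analyticAt_const, ?_, Eventually.of_forall fun x hx => absurd hx one_ne_zero⟩
  filter_upwards [hZ] with x hx
  rw [hx, mul_one]

/-- the canonical equation at a regular point off the curve, with the local form of the vector -/
theorem nloc_A0 {k : S.ι} {q : ℂ × ℂ} (hq : RegA S Ra k q) : ∃ (g : ℂ × ℂ → ℂ) (N : ℂ × ℂ → ℂ × ℂ), InvAt S Ra k q g ∧ AnalyticAt ℂ N q ∧ N q ≠ 0 ∧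
    ∀ᶠ x in 𝓝 q, hv2 (S.κ k) (S.v k) x = (jc (S.κ k) x * g x) • N x := by
  have hD : ∀ᶠ x in 𝓝 q, x ∈ S.D k := (NLoc_open k).mem_nhds hq.mem
  have hva := NLoc_v hq.mem
  have hd := NLoc_dt k
  have c1 : ContinuousAt (fun x : ℂ × ℂ => x.1) q := continuousAt_fst
  have c2 : ContinuousAt (fun x : ℂ × ℂ => x.2) q := continuousAt_snd
  have hv1 : ContinuousAt (fun x : ℂ × ℂ => (S.v k x).1) q := (analyticAt_fst.fun_comp hva).continuousAt
  have hv2' : ContinuousAt (fun x : ℂ × ℂ => (S.v k x).2) q := (analyticAt_snd.fun_comp hva).continuousAt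
  have hone : Lv (S.v k) q ≠ 0 → ∃ N : ℂ × ℂ → ℂ × ℂ, AnalyticAt ℂ N q ∧ N q ≠ 0 ∧
      ∀ᶠ x in 𝓝 q, hv2 (S.κ k) (S.v k) x = (jc (S.κ k) x * (1 : ℂ)) • N x := fun h =>
    nc_A (w := (S.c k).w) (w' := (S.c k).w') hd (g := fun _ => 1) (U := Lv (S.v k)) (analyticAt_Lv hva) h
      (Eventually.of_forall fun x => by rw [one_smul])
  by_cases h1 : q.1 = 0
  · -- the first axis
    have h2 : q.2 ≠ 0 := fun h2 => hq.ne (Prod.ext h1 h2)
    have e2 : ∀ᶠ x in 𝓝 q, x.2 ≠ 0 := c2.eventually_ne h2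
    have hZ : ∀ᶠ x in 𝓝 q, eval (S.σ k x).ofLp (RD * Ra) = 0 ↔ x.1 = 0 := by
      filter_upwards [hD, e2, hq.alg] with x hx hx2 hx3
      rw [NLoc_zero hx]
      constructor
      · intro h
        by_contra h0
        rcases h with h | h
        · exact mul_ne_zero h0 hx2 h
        · exact hx3 (mul_ne_zero h0 hx2) h
      · intro h
        left
        rw [h, zero_mul]
    rcases hq.ax₁ h1 with ht | hi
    · obtain ⟨N, hN, hN0, hNe⟩ := hone (Lv_trans₁ h2 ht)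
      refine ⟨fun _ => 1, N, NLoc_trans analyticAt_fst hZ ?_, hN, hN0, hNe⟩
      filter_upwards [hv1.eventually_ne ht] with x hx _
      rw [NLoc_fst]
      exact hx
    · obtain ⟨U, hU, hU0, hUe⟩ := Lv_inv₁ hva h1 hq.v_ne hi
      obtain ⟨N, hN, hN0, hNe⟩ := nc_A (w := (S.c k).w) (w' := (S.c k).w') hd (g := fun x => x.1) hU hU0 hUe
      obtain ⟨c, hc, hce⟩ := exists_div₁ (analyticAt_fst.fun_comp hva) h1 hi
      refine ⟨fun x => x.1, N, NLoc_inv analyticAt_fst (Eventually.of_forall fun x hx => ?_) hc ?_ hZ, hN, hN0, hNe⟩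
      · have h3 := NLoc_fst x (1, 0)
        rw [hx] at h3
        exact one_ne_zero h3.symm
      · filter_upwards [hce] with x hx
        rw [NLoc_fst, hx, smul_eq_mul, mul_comm]
  by_cases h2 : q.2 = 0
  · -- the second axis
    have e1 : ∀ᶠ x in 𝓝 q, x.1 ≠ 0 := c1.eventually_ne h1
    have hZ : ∀ᶠ x in 𝓝 q, eval (S.σ k x).ofLp (RD * Ra) = 0 ↔ x.2 = 0 := by
      filter_upwards [hD, e1, hq.alg] with x hx hx2 hx3
      rw [NLoc_zero hx]
      constructor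
      · intro h
        by_contra h0
        rcases h with h | h
        · exact mul_ne_zero hx2 h0 h
        · exact hx3 (mul_ne_zero hx2 h0) h
      · intro h
        left
        rw [h, mul_zero]
    rcases hq.ax₂ h2 with ht | hi
    · obtain ⟨N, hN, hN0, hNe⟩ := hone (Lv_trans₂ h1 ht)
      refine ⟨fun _ => 1, N, NLoc_trans analyticAt_snd hZ ?_, hN, hN0, hNe⟩
      filter_upwards [hv2'.eventually_ne ht] with x hx _
      rw [NLoc_snd]
      exact hx
    · obtain ⟨U, hU, hU0, hUe⟩ := Lv_inv₂ hva h2 hq.v_ne hi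
      obtain ⟨N, hN, hN0, hNe⟩ := nc_A (w := (S.c k).w) (w' := (S.c k).w') hd (g := fun x => x.2) hU hU0 hUe
      obtain ⟨c, hc, hce⟩ := exists_div₂ (analyticAt_snd.fun_comp hva) h2 hi
      refine ⟨fun x => x.2, N, NLoc_inv analyticAt_snd (Eventually.of_forall fun x hx => ?_) hc ?_ hZ, hN, hN0, hNe⟩
      · have h3 := NLoc_snd x (0, 1)
        rw [hx] at h3
        exact one_ne_zero h3.symm
      · filter_upwards [hce] with x hx
        rw [NLoc_snd, hx, smul_eq_mul, mul_comm]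
  · -- off the axes
    have h0 : q.1 * q.2 ≠ 0 := mul_ne_zero h1 h2
    obtain ⟨N, hN, hN0, hNe⟩ := hone (Lv_off h0 hq.v_ne)
    refine ⟨fun _ => 1, N, NLoc_trans (h := fun _ => 1) analyticAt_const ?_ (Eventually.of_forall fun x hx => absurd hx one_ne_zero), hN, hN0, hNe⟩
    filter_upwards [hD, hq.alg, (c1.mul c2).eventually_ne h0] with x hx hx2 hx3
    rw [NLoc_zero hx]
    constructor
    · rintro (h | h)
      · exact absurd h hx3
      · exact absurd h (hx2 hx3)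
    · intro h
      exact absurd h one_ne_zero

theorem exists_invAt {k : S.ι} {q : ℂ × ℂ} (hq : Reg S Ra k q) : ∃ g, InvAt S Ra k q g := by
  rcases hq with hq | hq
  · obtain ⟨g, -, h, -⟩ := nloc_A0 hq
    exact ⟨g, h⟩
  · have hD : ∀ᶠ x in 𝓝 q, x ∈ S.D k := (NLoc_open k).mem_nhds hq.mem
    have hva := NLoc_v hq.mem
    obtain ⟨G, hG, hG0, hdG, hGZ, hGi⟩ := hq.crv
    have hdGe : ∀ᶠ x in 𝓝 q, fderiv ℂ G x ≠ 0 := hG.fderiv.continuousAt.eventually_ne hdG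
    have h0 : ∀ᶠ x : ℂ × ℂ in 𝓝 q, x.1 * x.2 ≠ 0 := (continuousAt_fst.mul continuousAt_snd).eventually_ne hq.ne
    have hZ : ∀ᶠ x in 𝓝 q, eval (S.σ k x).ofLp (RD * Ra) = 0 ↔ G x = 0 := by
      filter_upwards [hD, h0, hGZ] with x hx hx2 hx3
      rw [NLoc_zero hx, or_iff_right hx2, hx3]
    rcases hGi with ht | hi
    · refine ⟨_, NLoc_trans hG hZ ?_⟩
      filter_upwards [(analyticAt_fderiv_app hG hva).continuousAt.eventually_ne ht] with x hx _
      exact hx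
    · obtain ⟨c, hc, hce⟩ := exists_cof hG hG0 hdG hva hi
      refine ⟨G, NLoc_inv hG hdGe hc ?_ hZ⟩
      filter_upwards [hce] with x hx
      rw [hx, mul_comm]

/-! ### uniqueness -/

/-- if `g` has no zero at `q`, then `g'` has none -/
private theorem NLoc_ne {k : S.ι} {q : ℂ × ℂ} (hq : q ∈ S.D k) {g g' : ℂ × ℂ → ℂ} (h : InvAt S Ra k q g) (h' : InvAt S Ra k q g') (h0 : g q ≠ 0) : g' q ≠ 0 := by
  intro h0'
  obtain ⟨hg, -, -, e, he, heZ, het⟩ := h
  obtain ⟨hg', hr', ⟨c', -, hc'⟩, e', he', heZ', -⟩ := h'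
  have hdg' := hr'.self_of_nhds h0'
  have h1 : ∀ᶠ x in 𝓝 q, g' x = 0 → e x = 0 := by
    filter_upwards [heZ, heZ', hg.continuousAt.eventually_ne h0] with x x1 x2 x3 x4
    have h2 : eval (S.σ k x).ofLp (RD * Ra) = 0 := x2.2 (by rw [x4, zero_mul])
    exact (mul_eq_zero.1 (x1.1 h2)).resolve_left x3
  obtain ⟨a, ha, hae⟩ := exists_quot_smooth hg' h0' hdg' he h1
  have he0 : e q = 0 := h1.self_of_nhds h0'
  have h2 := (het.self_of_nhds he0).2
  apply h2
  have h3 : e =ᶠ[𝓝 q] fun x => g' x * a x := by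
    filter_upwards [hae] with x hx
    rw [hx, smul_eq_mul]
  have h4 := (hg'.differentiableAt.hasFDerivAt.mul ha.differentiableAt.hasFDerivAt).congr_of_eventuallyEq h3
  rw [h4.fderiv]
  have h5 := hc'.self_of_nhds
  rw [h0', mul_zero] at h5
  simp [h0', h5]

/-- two local equations -/
theorem invAt_unit {k : S.ι} {q : ℂ × ℂ} (hv : S.v k q ≠ 0) (hq : q ∈ S.D k) {g g' : ℂ × ℂ → ℂ} (h : InvAt S Ra k q g) (h' : InvAt S Ra k q g') :
    ∃ u : ℂ × ℂ → ℂ, AnalyticAt ℂ u q ∧ u q ≠ 0 ∧ ∀ᶠ x in 𝓝 q, g' x = u x * g x := by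
  by_cases h0 : g q = 0
  · have h0' : g' q = 0 := by
      by_contra h1
      exact NLoc_ne hq h' h h1 h0
    obtain ⟨hg, hr, -, e, he, heZ, het⟩ := h
    obtain ⟨hg', hr', -, e', he', heZ', het'⟩ := h'
    have he0 : e q ≠ 0 := fun h1 => (het.self_of_nhds h1).1 h0
    have he0' : e' q ≠ 0 := fun h1 => (het'.self_of_nhds h1).1 h0'
    have h1 : ∀ᶠ x in 𝓝 q, g x = 0 → g' x = 0 := by
      filter_upwards [heZ, heZ', he'.continuousAt.eventually_ne he0'] with x x1 x2 x3 x4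
      have h2 : eval (S.σ k x).ofLp (RD * Ra) = 0 := x1.2 (by rw [x4, zero_mul])
      exact (mul_eq_zero.1 (x2.1 h2)).resolve_right x3
    obtain ⟨a, ha, hae⟩ := exists_quot_smooth hg h0 (hr.self_of_nhds h0) hg' h1
    refine ⟨a, ha, fun ha0 => ?_, ?_⟩
    · have h3 : g' =ᶠ[𝓝 q] fun x => g x * a x := by
        filter_upwards [hae] with x hx
        rw [hx, smul_eq_mul]
      have h4 := (hg.differentiableAt.hasFDerivAt.mul ha.differentiableAt.hasFDerivAt).congr_of_eventuallyEq h3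
      apply hr'.self_of_nhds h0'
      rw [h4.fderiv]
      refine ContinuousLinearMap.ext fun w => ?_
      simp [h0, ha0]
    · filter_upwards [hae] with x hx
      rw [hx, smul_eq_mul, mul_comm]
  · have h0' := NLoc_ne hq h h' h0
    refine ⟨fun x => g' x / g x, h'.1.fun_div h.1 h0, div_ne_zero h0' h0, ?_⟩
    filter_upwards [h.1.continuousAt.eventually_ne h0] with x hx
    rw [div_mul_cancel₀ _ hx]

/-! ### the vector -/

/-- the vectors with the third coordinate `0` -/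
private def NLoc_emb : ℂ × ℂ →L[ℂ] EN 2 :=
  LinearMap.toContinuousLinearMap
    { toFun := fun a => WithLp.toLp 2 ![a.1, a.2, 0]
      map_add' := fun a b => by
        ext i
        fin_cases i <;> simp
      map_smul' := fun c a => by
        ext i
        fin_cases i <;> simp }

private theorem NLoc_emb_apply (a : ℂ × ℂ) : NLoc_emb a = WithLp.toLp 2 ![a.1, a.2, 0] := rfl

private theorem NLoc_emb_ne {a : ℂ × ℂ} (h : a ≠ 0) : NLoc_emb a ≠ 0 := by
  intro h0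
  rw [NLoc_emb_apply] at h0
  apply h
  have h1 := congrArg (fun x : EN 2 => x.ofLp 0) h0
  have h2 := congrArg (fun x : EN 2 => x.ofLp 1) h0
  exact Prod.ext (by simpa using h1) (by simpa using h2)

theorem nloc_A {k : S.ι} {q : ℂ × ℂ} (hq : RegA S Ra k q) {g : ℂ × ℂ → ℂ} (hg : InvAt S Ra k q g) :
    ∃ L : ℂ × ℂ → EN 2, AnalyticAt ℂ L q ∧ L q ≠ 0 ∧ ∀ᶠ x in 𝓝 q, hA (S.κ k x) (fderiv ℂ (S.κ k) x (S.v k x)) = (jc (S.κ k) x * g x) • L x := by
  obtain ⟨g₀, N, hg₀, hN, hN0, hNe⟩ := nloc_A0 hq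
  obtain ⟨u, hu, hu0, hue⟩ := invAt_unit hq.v_ne hq.mem hg₀ hg
  refine ⟨fun x => (u x)⁻¹ • NLoc_emb (N x), (hu.fun_inv hu0).fun_smul ((NLoc_emb.analyticAt _).fun_comp hN),
    smul_ne_zero (inv_ne_zero hu0) (NLoc_emb_ne hN0), ?_⟩
  filter_upwards [hNe, hue, hu.continuousAt.eventually_ne hu0] with x h1 h2 h3
  have h4 : hA (S.κ k x) (fderiv ℂ (S.κ k) x (S.v k x)) = NLoc_emb (hv2 (S.κ k) (S.v k) x) := rfl
  rw [h4, h1, map_smul, h2, smul_smul]
  congr 1
  field_simp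

end Pool.Agent.MQ3

end
end

section

/-!
# MQ3 NLocB: the local form of the potential of a box of the second type, at a chart point off the axes
-/

set_option autoImplicit false

open Topology Filter Metric MvPolynomial MeasureTheory Laplacian

noncomputable section

namespace Pool.Agent.MQ3

open Pool.Agent.H36.BP (EN fs)
open Pool.Agent.H17EF (projVar coneE)

/-! ### vectors with three coordinates -/

theorem an_vec3 {a b c : ℂ × ℂ → ℂ} {q : ℂ × ℂ} (ha : AnalyticAt ℂ a q) (hb : AnalyticAt ℂ b q) (hc : AnalyticAt ℂ c q) :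
    AnalyticAt ℂ (fun x => (WithLp.toLp 2 ![a x, b x, c x] : EN 2)) q := by
  have h1 : AnalyticAt ℂ (fun x => (![a x, b x, c x] : Fin 3 → ℂ)) q := by
    rw [analyticAt_pi_iff]
    intro i
    fin_cases i
    · exact ha
    · exact hb
    · exact hc
  exact ((PiLp.continuousLinearEquiv 2 ℂ (fun _ : Fin 3 => ℂ)).symm.toContinuousLinearMap.analyticAt _).comp h1

theorem vec3_eq_zero {a b c : ℂ} (h : (WithLp.toLp 2 ![a, b, c] : EN 2) = 0) : a = 0 ∧ b = 0 ∧ c = 0 := by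
  have h1 : (![a, b, c] : Fin 3 → ℂ) = 0 := congrArg (fun v : EN 2 => v.ofLp) h
  exact ⟨congrFun h1 0, congrFun h1 1, congrFun h1 2⟩

theorem smul_vec3 (t a b c : ℂ) : t • (WithLp.toLp 2 ![a, b, c] : EN 2) = WithLp.toLp 2 ![t * a, t * b, t * c] := by
  rw [← WithLp.toLp_smul]
  congr 1
  ext i
  fin_cases i <;> rfl

/-! ### smooth curves -/

/-- division with the derivative at the point -/
theorem quot_fderiv {P : ℂ × ℂ} {G f a : ℂ × ℂ → ℂ} (hG : AnalyticAt ℂ G P) (hG0 : G P = 0) (ha : AnalyticAt ℂ a P) (h : ∀ᶠ Q in 𝓝 P, f Q = G Q • a Q) :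
    ∀ w, fderiv ℂ f P w = a P * fderiv ℂ G P w := by
  intro w
  have h1 : HasFDerivAt (fun Q => G Q * a Q) (G P • fderiv ℂ a P + a P • fderiv ℂ G P) P :=
    hG.differentiableAt.hasFDerivAt.mul ha.differentiableAt.hasFDerivAt
  have h2 : f =ᶠ[𝓝 P] fun Q => G Q * a Q := h
  rw [h2.fderiv_eq, h1.fderiv, hG0]
  simp

theorem quot_ne {P : ℂ × ℂ} {G f a : ℂ × ℂ → ℂ} (hf : fderiv ℂ f P ≠ 0) (h : ∀ w, fderiv ℂ f P w = a P * fderiv ℂ G P w) : a P ≠ 0 := by
  intro h0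
  apply hf
  ext1
  · ext1
    rw [ContinuousLinearMap.comp_apply, h, h0, zero_mul]
    rfl
  · ext1
    rw [ContinuousLinearMap.comp_apply, h, h0, zero_mul]
    rfl

variable {M : ℕ} {P : Ideal (MvPolynomial (Fin (M + 1)) ℂ)} {RD : MvPolynomial (Fin (M + 1)) ℂ} {m : ℕ} {X : NCModel P RD} {θ : WDiff (coneE P) m}
  {l : LF M} {S : Web X θ l} {Ra : MvPolynomial (Fin (M + 1)) ℂ}

theorem nloc_B {k : S.ι} {q : ℂ × ℂ} (hq : Reg S Ra k q) (hq' : q.1 * q.2 ≠ 0) {u : ℂ × ℂ → ℂ} (hu : AnalyticAt ℂ u (S.κ k q))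
    (hu0 : ∀ᶠ p in 𝓝 (S.κ k q), (eval (X.ρ k.1 p).ofLp Ra = 0 ↔ u p = 0) ∧ (u p = 0 → fderiv ℂ u p ≠ 0)) {g : ℂ × ℂ → ℂ} (hg : InvAt S Ra k q g) :
    ∃ L : ℂ × ℂ → EN 2, AnalyticAt ℂ L q ∧ L q ≠ 0 ∧ ∀ᶠ x in 𝓝 q, hB u (S.κ k x) (fderiv ℂ (S.κ k) x (S.v k x)) = (jc (S.κ k) x * g x) • L x := by
  have hmem : q ∈ S.D k := by
    rcases hq with h | h
    · exact h.mem
    · exact h.mem
  have hv0 : S.v k q ≠ 0 := by
    rcases hq with h | h
    · exact h.v_ne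
    · exact h.v_ne
  have hv : AnalyticAt ℂ (S.v k) q := (S.c k).v_an q hmem.1
  have hκ : ∀ x, AnalyticAt ℂ (S.κ k) x := fun x => analyticAt_mono x
  have hκt : Tendsto (S.κ k) (𝓝 q) (𝓝 (S.κ k q)) := (hκ q).continuousAt
  have hκ0 : (S.κ k q).1 * (S.κ k q).2 ≠ 0 := by
    have h1 : q.1 ≠ 0 := left_ne_zero_of_mul hq'
    have h2 : q.2 ≠ 0 := right_ne_zero_of_mul hq'
    exact mul_ne_zero (mul_ne_zero (pow_ne_zero _ h1) (pow_ne_zero _ h2)) (mul_ne_zero (pow_ne_zero _ h1) (pow_ne_zero _ h2))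
  have hJ : jc (S.κ k) q ≠ 0 := by
    intro h0
    have h1 := jc_mono (w := (S.c k).w) (w' := (S.c k).w') q
    have h2 : jc (mono (S.c k).w (S.c k).w') q = 0 := h0
    rw [h2, mul_zero] at h1
    have h3 : ((dt (S.c k).w (S.c k).w' : ℤ) : ℂ) ≠ 0 := by
      exact_mod_cast (S.c k).pos.ne'
    exact mul_ne_zero h3 hκ0 h1.symm
  have hJa : AnalyticAt ℂ (jc (S.κ k)) q := jc_an (hκ q)
  -- the divisor is empty near `q`
  have hRD : ∀ᶠ x in 𝓝 q, eval (S.σ k x).ofLp RD ≠ 0 := by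
    have h1 : ∀ᶠ x in 𝓝 q, S.κ k x ∈ X.B k.1 := hκt.eventually ((X.isOpen k.1).mem_nhds hmem.2)
    have h2 : ∀ᶠ x in 𝓝 q, (S.κ k x).1 * (S.κ k x).2 ≠ 0 := by
      have h3 : ContinuousAt (fun x => (S.κ k x).1 * (S.κ k x).2) q := (hκ q).continuousAt.fst.mul (hκ q).continuousAt.snd
      exact h3.eventually_ne hκ0
    filter_upwards [h1, h2] with x h3 h4 h5
    exact h4 ((X.div k.1 _ h3).1 h5)
  have hU : AnalyticAt ℂ (fun x => u (S.κ k x)) q := hu.fun_comp (hκ q)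
  have hRU : ∀ᶠ x in 𝓝 q, (eval (S.σ k x).ofLp Ra = 0 ↔ u (S.κ k x) = 0) := by
    filter_upwards [hκt.eventually hu0] with x hx
    exact hx.1
  have hdU : ∀ᶠ x in 𝓝 q, fderiv ℂ (fun y => u (S.κ k y)) x (S.v k x) = fderiv ℂ u (S.κ k x) (fderiv ℂ (S.κ k) x (S.v k x)) := by
    filter_upwards [hκt.eventually hu.eventually_analyticAt] with x hx
    have h1 : HasFDerivAt (fun y => u (S.κ k y)) ((fderiv ℂ u (S.κ k x)).comp (fderiv ℂ (S.κ k) x)) x :=
      hx.differentiableAt.hasFDerivAt.comp x (hκ x).differentiableAt.hasFDerivAt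
    rw [h1.fderiv]
    rfl
  obtain ⟨hga, hgr, ⟨c, hca, hc⟩, h, hha, hgh, hhr⟩ := hg
  have hgh' : ∀ᶠ x in 𝓝 q, (u (S.κ k x) = 0 ↔ g x * h x = 0) := by
    filter_upwards [hRD, hRU, hgh] with x h1 h2 h3
    rw [← h3, ← h2, map_mul, mul_eq_zero, or_iff_right h1]
  -- the vector
  have hκv := analyticAt_fderiv_app (hκ q) hv
  have hE : AnalyticAt ℂ (fun x => hB u (S.κ k x) (fderiv ℂ (S.κ k) x (S.v k x))) q := by
    have h1 : AnalyticAt ℂ (fun x => (WithLp.toLp 2 ![fderiv ℂ (fun y => u (S.κ k y)) x (S.v k x), u (S.κ k x) * (fderiv ℂ (S.κ k) x (S.v k x)).1,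
        u (S.κ k x) * (fderiv ℂ (S.κ k) x (S.v k x)).2] : EN 2)) q :=
      an_vec3 (analyticAt_fderiv_app hU hv) (hU.mul (analyticAt_fst.fun_comp hκv)) (hU.mul (analyticAt_snd.fun_comp hκv))
    refine h1.congr ?_
    filter_upwards [hdU] with x hx
    rw [hx]
    rfl
  -- the case of a unit `g`
  have hunit : g q ≠ 0 → hB u (S.κ k q) (fderiv ℂ (S.κ k) q (S.v k q)) ≠ 0 →
      ∃ L : ℂ × ℂ → EN 2, AnalyticAt ℂ L q ∧ L q ≠ 0 ∧ ∀ᶠ x in 𝓝 q, hB u (S.κ k x) (fderiv ℂ (S.κ k) x (S.v k x)) = (jc (S.κ k) x * g x) • L x := by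
    intro h1 h2
    have h3 : jc (S.κ k) q * g q ≠ 0 := mul_ne_zero hJ h1
    refine ⟨fun x => (jc (S.κ k) x * g x)⁻¹ • hB u (S.κ k x) (fderiv ℂ (S.κ k) x (S.v k x)), ((hJa.mul hga).inv h3).smul hE,
      smul_ne_zero (inv_ne_zero h3) h2, ?_⟩
    filter_upwards [(hJa.mul hga).continuousAt.eventually_ne h3] with x hx
    have hx' : jc (S.κ k) x * g x ≠ 0 := hx
    rw [smul_smul, mul_inv_cancel₀ hx', one_smul]
  by_cases hU0 : u (S.κ k q) = 0
  · -- the curve goes through `q`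
    have hdu : fderiv ℂ u (S.κ k q) ≠ 0 := hu0.self_of_nhds.2 hU0
    have hB' : RegB S Ra k q := by
      rcases hq with h1 | h1
      · exact absurd (hRU.self_of_nhds.2 hU0) (h1.alg.self_of_nhds hq')
      · exact h1
    obtain ⟨G, hGa, hG0, hdG, hGR, hGv⟩ := hB'.crv
    have hUG : ∀ᶠ x in 𝓝 q, (u (S.κ k x) = 0 ↔ G x = 0) := by
      filter_upwards [hRU, hGR] with x h1 h2
      rw [← h1, h2]
    have hdU0 : fderiv ℂ (fun y => u (S.κ k y)) q ≠ 0 := by
      intro h1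
      have h2 : fderiv ℂ (fun y => u (S.κ k y)) q = (fderiv ℂ u (S.κ k q)).comp (fderiv ℂ (S.κ k) q) :=
        (hu.differentiableAt.hasFDerivAt.comp q (hκ q).differentiableAt.hasFDerivAt).fderiv
      apply hdu
      have hinj : Function.Injective (fderiv ℂ (S.κ k) q) := by
        rw [injective_iff_map_eq_zero]
        intro w hw
        exact eq_zero_of_jc hJ hw
      have hsurj : Function.Surjective (fderiv ℂ (S.κ k) q) := by
        have h3 : Function.Injective ((fderiv ℂ (S.κ k) q : ℂ × ℂ →L[ℂ] ℂ × ℂ) : ℂ × ℂ →ₗ[ℂ] ℂ × ℂ) := hinj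
        exact LinearMap.injective_iff_surjective.1 h3
      have key : ∀ y : ℂ × ℂ, fderiv ℂ u (S.κ k q) y = 0 := by
        intro y
        obtain ⟨w, hw⟩ := hsurj y
        have h4 := congrArg (fun L : ℂ × ℂ →L[ℂ] ℂ => L w) (h2.symm.trans h1)
        simpa [hw] using h4
      exact ContinuousLinearMap.ext key
    obtain ⟨b, hba, hb⟩ := exists_quot_smooth hGa hG0 hdG hU (by filter_upwards [hUG] with x hx using hx.2)
    have hdb := quot_fderiv hGa hG0 hba hb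
    have hbq : b q ≠ 0 := quot_ne hdU0 hdb
    rcases hGv with ht | hi
    · -- transversal
      have htU : fderiv ℂ (fun y => u (S.κ k y)) q (S.v k q) ≠ 0 := by
        rw [hdb]
        exact mul_ne_zero hbq ht
      apply hunit
      · intro hg0
        have h1 : fderiv ℂ g q (S.v k q) = 0 := by rw [hc.self_of_nhds, hg0, mul_zero]
        obtain ⟨a', ha', h2⟩ := exists_quot_smooth hga hg0 (hgr.self_of_nhds hg0) hU (by
          filter_upwards [hgh'] with x hx h3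
          rw [hx, h3, zero_mul])
        have h3 := quot_fderiv hga hg0 ha' h2
        exact htU (by rw [h3, h1, mul_zero])
      · intro h1
        exact htU (by rw [hdU.self_of_nhds]; exact (vec3_eq_zero h1).1)
    · -- invariant
      have hinvU : ∀ᶠ x in 𝓝 q, u (S.κ k x) = 0 → fderiv ℂ (fun y => u (S.κ k y)) x (S.v k x) = 0 := by
        have h1 : ∀ᶠ x in 𝓝 q, ∀ᶠ y in 𝓝 x, u (S.κ k y) = G y • b y := eventually_eventually_nhds.2 hb
        filter_upwards [h1, hUG, hi, hGa.eventually_analyticAt, hba.eventually_analyticAt] with x h2 h3 h4 h5 h6 h7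
        have h8 : G x = 0 := h3.1 h7
        rw [quot_fderiv h5 h8 h6 h2, h4 h8, mul_zero]
      obtain ⟨a, haa, ha⟩ := exists_cof hU hU0 hdU0 hv hinvU
      have hhq : h q ≠ 0 := by
        intro hh0
        obtain ⟨hg1, hd1⟩ := hhr.self_of_nhds hh0
        have hdh : fderiv ℂ h q ≠ 0 := fun h1 => hd1 (by rw [h1]; rfl)
        obtain ⟨a', ha', h2⟩ := exists_quot_smooth hha hh0 hdh hU (by
          filter_upwards [hgh'] with x hx h3
          rw [hx, h3, mul_zero])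
        have h3 := quot_fderiv hha hh0 ha' h2
        have h4 := h3 (S.v k q)
        rw [hinvU.self_of_nhds hU0] at h4
        exact quot_ne hdU0 h3 ((mul_eq_zero.1 h4.symm).resolve_right hd1)
      have hg0 : g q = 0 := (mul_eq_zero.1 (hgh'.self_of_nhds.1 hU0)).resolve_right hhq
      obtain ⟨a', ha', h2⟩ := exists_quot_smooth hga hg0 (hgr.self_of_nhds hg0) hU (by
        filter_upwards [hgh'] with x hx h3
        rw [hx, h3, zero_mul])
      have h3 := quot_fderiv hga hg0 ha' h2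
      have ha'q : a' q ≠ 0 := quot_ne hdU0 h3
      refine ⟨fun x => ((jc (S.κ k) x)⁻¹ * a' x) • (WithLp.toLp 2 ![a x, (fderiv ℂ (S.κ k) x (S.v k x)).1, (fderiv ℂ (S.κ k) x (S.v k x)).2] : EN 2),
        ((hJa.inv hJ).mul ha').smul (an_vec3 haa (analyticAt_fst.fun_comp hκv) (analyticAt_snd.fun_comp hκv)),
        smul_ne_zero (mul_ne_zero (inv_ne_zero hJ) ha'q) ?_, ?_⟩
      · intro h4
        obtain ⟨-, h5, h6⟩ := vec3_eq_zero h4
        exact hv0 (eq_zero_of_jc hJ (Prod.ext h5 h6))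
      · filter_upwards [hdU, ha, h2, hJa.continuousAt.eventually_ne hJ] with x h4 h5 h6 h7
        have h8 : hB u (S.κ k x) (fderiv ℂ (S.κ k) x (S.v k x)) =
            u (S.κ k x) • (WithLp.toLp 2 ![a x, (fderiv ℂ (S.κ k) x (S.v k x)).1, (fderiv ℂ (S.κ k) x (S.v k x)).2] : EN 2) := by
          rw [smul_vec3]
          unfold hB
          rw [← h4, h5]
        rw [h8, smul_smul]
        congr 1
        rw [h6, smul_eq_mul]
        field_simp
  · -- the curve does not go through `q`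
    have hg0 : g q ≠ 0 := fun h1 => hU0 (hgh'.self_of_nhds.2 (by rw [h1, zero_mul]))
    refine hunit hg0 fun h1 => ?_
    obtain ⟨-, h2, h3⟩ := vec3_eq_zero h1
    exact hv0 (eq_zero_of_jc hJ (Prod.ext ((mul_eq_zero.1 h2).resolve_left hU0) ((mul_eq_zero.1 h3).resolve_left hU0)))

end Pool.Agent.MQ3

end
end

section

/-!
# SG RSec: the tangent direction of a null curve
-/

set_option autoImplicit false

open Topology Filter Metric

noncomputable section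

namespace Pool.Agent.SG

open Pool.Agent.H17BP (Surface IsChart Pr)
open Pool.Agent.H36.BP (EN)
open Pool.Agent.H14.PP (CurveAt IsCone)
open Pool.Agent.H22.W (PseudoLength tan_curve)
open Pool.Agent.UC (exists_cone)

variable {N : ℕ} {X : Set (EN N)}

theorem isCone_of_surface (hX : Surface X) : IsCone X := by
  refine ⟨hX.zero, hX.smul, ?_⟩
  rw [← closure_subset_iff_isClosed]
  intro x hx
  by_cases h0 : x = 0
  · exact Or.inl h0
  · refine Or.inr (hX.closed x ?_ h0)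
    rw [Set.insert_eq, closure_union, closure_singleton] at hx
    rcases hx with hx | hx
    · exact absurd hx h0
    · exact hx

/-- the coordinates on an open cone, along the chart -/
private theorem rsec_left {σ : ℂ × ℂ → EN N} {τ : EN N → ℂ × ℂ} (hσ : IsChart X σ τ) {W : Set (EN N)} {T : EN N → ℂ × ℂ} {H : EN N → ℂ}
    (hW : IsOpen W) (h0W : σ 0 ∈ W) (hT0 : T (σ 0) = 0) (hTH : ∀ y ∈ W, AnalyticAt ℂ T y ∧ AnalyticAt ℂ H y)
    (hy : ∀ y ∈ W, y ∈ X → y = H y • σ (T y)) : ∀ᶠ p in 𝓝 (0 : ℂ × ℂ), σ p ∈ W ∧ T (σ p) = p := by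
  have hσt : Tendsto σ (𝓝 0) (𝓝 (σ 0)) := hσ.σ_an.continuousAt.tendsto
  have hH0 : H (σ 0) = 1 := by
    have h1 := hy _ h0W hσ.σ_mem.self_of_nhds
    rw [hT0] at h1
    have h2 : (H (σ 0) - 1) • σ 0 = 0 := by rw [sub_smul, one_smul, ← h1, sub_self]
    rcases smul_eq_zero.1 h2 with h3 | h3
    · exact sub_eq_zero.1 h3
    · exact absurd h3 hσ.ne
  have hTt : Tendsto (fun p => T (σ p)) (𝓝 0) (𝓝 0) := by
    have h1 := (hTH _ h0W).1.continuousAt.tendsto.comp hσt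
    rw [hT0] at h1
    exact h1
  have hpair : Tendsto (fun p => (σ (T (σ p)), H (σ p))) (𝓝 0) (𝓝 (σ 0, (1 : ℂ))) := by
    have h1 := (hTH _ h0W).2.continuousAt.tendsto.comp hσt
    rw [hH0] at h1
    exact (hσt.comp hTt).prodMk_nhds h1
  filter_upwards [hσt.eventually (hW.mem_nhds h0W), hσ.σ_mem, hσ.left, hTt.eventually hσ.left, hpair.eventually hσ.inv] with p g1 g2 g3 g4 g5
  refine ⟨g1, ?_⟩
  have g6 := hy _ g1 g2
  rw [← g6] at g5
  rw [← g4, ← g5, g3]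

/-- the tangent direction of a null curve, in the coordinates of a chart -/
theorem null_axis (n : PseudoLength X) {σ : ℂ × ℂ → EN N} {τ : EN N → ℂ × ℂ} (hσ : IsChart X σ τ) {c : ℂ → ℂ × ℂ} (hc : AnalyticAt ℂ c 0)
    (hc0 : c 0 = 0) (hnull : ∀ᶠ z in 𝓝 (0 : ℂ), n.toFun (σ (c z)) (fderiv ℂ σ (c z) (deriv c z)) = 0) {𝒰 : Ultrafilter ℕ} {s t v : ℕ → ℂ}
    (ht : Tendsto t 𝒰 (𝓝 0)) (hv : Tendsto v 𝒰 (𝓝 0)) (hs0 : ∀ᶠ k in (𝒰 : Filter ℕ), s k ≠ 0)
    (hcv : ∀ᶠ k in (𝒰 : Filter ℕ), c (v k) = (s k, s k * t k)) : n.toFun (σ 0) (fderiv ℂ σ 0 (1, 0)) = 0 := by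
  have hct : Tendsto c (𝓝 0) (𝓝 0) := by
    have := hc.continuousAt.tendsto
    rwa [hc0] at this
  -- the coordinates
  have ha : AnalyticAt ℂ (fun z => (c z).1) 0 := analyticAt_fst.fun_comp hc
  have hb : AnalyticAt ℂ (fun z => (c z).2) 0 := analyticAt_snd.fun_comp hc
  have hane : ¬ ∀ᶠ z in 𝓝 (0 : ℂ), (c z).1 = 0 := by
    intro h2
    obtain ⟨k, hk1, hk2, hk3⟩ := ((hv.eventually h2).and (hcv.and hs0)).exists
    rw [hk2] at hk1
    exact hk3 hk1
  obtain ⟨d, a₁, ha₁, ha₁0, hae⟩ : ∃ (d : ℕ) (a₁ : ℂ → ℂ), AnalyticAt ℂ a₁ 0 ∧ a₁ 0 ≠ 0 ∧ ∀ᶠ z in 𝓝 (0 : ℂ), (c z).1 = z ^ d * a₁ z := by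
    obtain ⟨d, a₁, h2, h3, h4⟩ := ha.exists_eventuallyEq_pow_smul_nonzero_iff.2 hane
    refine ⟨d, a₁, h2, h3, h4.mono fun z hz => ?_⟩
    simpa using hz
  have hd : d ≠ 0 := by
    rintro rfl
    have h2 := hae.self_of_nhds
    rw [hc0, pow_zero, one_mul] at h2
    exact ha₁0 h2.symm
  obtain ⟨e, he, he0, hbe⟩ : ∃ e : ℂ → ℂ, AnalyticAt ℂ e 0 ∧ e 0 = 0 ∧ ∀ᶠ z in 𝓝 (0 : ℂ), (c z).2 = z ^ d * e z := by
    by_cases hbne : ∀ᶠ z in 𝓝 (0 : ℂ), (c z).2 = 0
    · refine ⟨fun _ => 0, analyticAt_const, rfl, hbne.mono fun z hz => ?_⟩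
      rw [hz, mul_zero]
    · obtain ⟨q, b₁, h2, h3, h4⟩ := hb.exists_eventuallyEq_pow_smul_nonzero_iff.2 hbne
      have h5 : d < q := by
        by_contra hqd
        push Not at hqd
        have h6 : ∀ᶠ k in (𝒰 : Filter ℕ), ‖b₁ (v k)‖ ≤ ‖t k‖ * ‖a₁ (v k)‖ := by
          have h8 : ∀ᶠ z in 𝓝 (0 : ℂ), ‖z‖ ≤ 1 := by
            filter_upwards [closedBall_mem_nhds (0 : ℂ) one_pos] with z hz
            rwa [mem_closedBall_zero_iff] at hz
          filter_upwards [hcv, hv.eventually hae, hv.eventually h4, hv.eventually h8, hs0] with k g1 g2 g3 g4 g0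
          have g5 : ‖(c (v k)).2‖ = ‖t k‖ * ‖(c (v k)).1‖ := by
            rw [g1, norm_mul, mul_comm]
          rw [g2, g3, sub_zero, smul_eq_mul, norm_mul, norm_mul, norm_pow, norm_pow] at g5
          have g6 : v k ≠ 0 := by
            intro h0
            rw [h0, hc0] at g1
            exact g0 (congrArg Prod.fst g1).symm
          have g7 : 0 < ‖v k‖ := norm_pos_iff.2 g6
          have g8 : ‖v k‖ ^ d ≤ ‖v k‖ ^ q := pow_le_pow_of_le_one g7.le g4 hqd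
          have g9 : 0 < ‖v k‖ ^ q := pow_pos g7 q
          have g10 : ‖v k‖ ^ q * ‖b₁ (v k)‖ ≤ ‖v k‖ ^ q * (‖t k‖ * ‖a₁ (v k)‖) := by
            have g11 : 0 ≤ ‖t k‖ * ‖a₁ (v k)‖ := by positivity
            nlinarith [mul_le_mul_of_nonneg_right g8 g11]
          exact le_of_mul_le_mul_left g10 g9
        have h7 : Tendsto (fun k => ‖b₁ (v k)‖) 𝒰 (𝓝 ‖b₁ 0‖) := (h2.continuousAt.tendsto.comp hv).norm
        have h8 : Tendsto (fun k : ℕ => ‖t k‖ * ‖a₁ (v k)‖) 𝒰 (𝓝 (‖(0 : ℂ)‖ * ‖a₁ 0‖)) :=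
          ht.norm.mul (ha₁.continuousAt.tendsto.comp hv).norm
        rw [norm_zero, zero_mul] at h8
        have h9 := le_of_tendsto_of_tendsto h7 h8 h6
        exact h3 (norm_le_zero_iff.1 h9)
      obtain ⟨q', hq'⟩ : ∃ q', q = d + (q' + 1) := ⟨q - d - 1, by omega⟩
      refine ⟨fun z => z ^ (q' + 1) * b₁ z, ((analyticAt_id.pow _).mul h2), by simp, h4.mono fun z hz => ?_⟩
      rw [hz, hq', sub_zero, smul_eq_mul, pow_add, mul_assoc]
  -- the derivative of the curve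
  obtain ⟨w, hw⟩ : ∃ w : ℂ → ℂ × ℂ, w = fun z => ((d : ℂ) * a₁ z + z * deriv a₁ z, (d : ℂ) * e z + z * deriv e z) := ⟨_, rfl⟩
  have hwc : ContinuousAt w 0 := by
    rw [hw]
    have h2 : ContinuousAt (deriv a₁) 0 := ha₁.deriv.continuousAt
    have h3 : ContinuousAt (deriv e) 0 := he.deriv.continuousAt
    exact ((continuousAt_const.mul ha₁.continuousAt).add (continuousAt_id.mul h2)).prodMk
      ((continuousAt_const.mul he.continuousAt).add (continuousAt_id.mul h3))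
  have hw0 : w 0 = ((d : ℂ) * a₁ 0) • ((1 : ℂ), (0 : ℂ)) := by
    rw [hw]
    simp [he0]
  have hpow : ∀ {g : ℂ → ℂ} {z : ℂ}, DifferentiableAt ℂ g z → HasDerivAt (fun y => y ^ d * g y) (z ^ (d - 1) * ((d : ℂ) * g z + z * deriv g z)) z := by
    intro g z hg
    have h2 := (hasDerivAt_pow d z).mul hg.hasDerivAt
    refine h2.congr_deriv ?_
    obtain ⟨d', rfl⟩ : ∃ d', d = d' + 1 := ⟨d - 1, by omega⟩
    rw [Nat.add_sub_cancel]
    ring
  have hcd : ∀ᶠ z in 𝓝 (0 : ℂ), deriv c z = z ^ (d - 1) • w z := by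
    filter_upwards [hae.eventually_nhds, hbe.eventually_nhds, ha₁.eventually_analyticAt, he.eventually_analyticAt] with z g1 g2 g3 g4
    have g5 : HasDerivAt (fun y => (y ^ d * a₁ y, y ^ d * e y)) (z ^ (d - 1) * ((d : ℂ) * a₁ z + z * deriv a₁ z),
        z ^ (d - 1) * ((d : ℂ) * e z + z * deriv e z)) z := (hpow g3.differentiableAt).prodMk (hpow g4.differentiableAt)
    have g6 : c =ᶠ[𝓝 z] fun y => (y ^ d * a₁ y, y ^ d * e y) := by
      filter_upwards [g1, g2] with y hy1 hy2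
      exact Prod.ext hy1 hy2
    rw [g6.deriv_eq, g5.deriv, hw]
    simp [Prod.smul_mk]
  -- the curve is null
  have hnull' : ∀ᶠ z in 𝓝[≠] (0 : ℂ), n.toFun (σ (c z)) (fderiv ℂ σ (c z) (w z)) = 0 := by
    rw [eventually_nhdsWithin_iff]
    filter_upwards [hnull, hcd, hct.eventually (tan_of_chart hσ)] with z g1 g2 g5 hz
    rw [g2, map_smul, n.smul _ _ (g5 _)] at g1
    rcases mul_eq_zero.1 g1 with g15 | g15
    · exact absurd (norm_eq_zero.1 g15) (pow_ne_zero _ hz)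
    · exact g15
  -- the limit
  have hlim : Tendsto (fun z => n.toFun (σ (c z)) (fderiv ℂ σ (c z) (w z))) (𝓝[≠] (0 : ℂ)) (𝓝 (n.toFun (σ 0) (fderiv ℂ σ 0 (w 0)))) := by
    have g1 : Tendsto (fun z => σ (c z)) (𝓝 0) (𝓝 (σ 0)) := hσ.σ_an.continuousAt.tendsto.comp hct
    have g2 : ContinuousAt (fderiv ℂ σ) 0 := hσ.σ_an.fderiv.continuousAt
    have g4 : Tendsto (fun z => fderiv ℂ σ (c z)) (𝓝 0) (𝓝 (fderiv ℂ σ 0)) := g2.tendsto.comp hct
    have g3 : Tendsto (fun z => fderiv ℂ σ (c z) (w z)) (𝓝 0) (𝓝 (fderiv ℂ σ 0 (w 0))) :=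
      ((isBoundedBilinearMap_apply (𝕜 := ℂ) (E := ℂ × ℂ) (F := EN N)).continuous.tendsto (fderiv ℂ σ 0, w 0)).comp (g4.prodMk_nhds hwc.tendsto)
    exact n.tendsto (Eventually.filter_mono nhdsWithin_le_nhds ((hct.eventually (tan_of_chart hσ)).mono fun z hz => hz _))
      ((tan_of_chart hσ).self_of_nhds _) (g1.mono_left nhdsWithin_le_nhds) (g3.mono_left nhdsWithin_le_nhds)
  have h2 : n.toFun (σ 0) (fderiv ℂ σ 0 (w 0)) = 0 :=
    tendsto_nhds_unique hlim (tendsto_const_nhds.congr' (hnull'.mono fun z hz => hz.symm))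
  rw [hw0, map_smul, n.smul _ _ ((tan_of_chart hσ).self_of_nhds _)] at h2
  rcases mul_eq_zero.1 h2 with h3 | h3
  · rw [norm_eq_zero] at h3
    rcases mul_eq_zero.1 h3 with h4 | h4
    · exact absurd (show d = 0 by exact_mod_cast h4) hd
    · exact absurd h4 ha₁0
  · exact h3

/-- **The tangent direction of a null curve.** -/
theorem sec_curve (hX : Surface X) (n : PseudoLength X) {γ : ℂ → EN N} (hγ : AnalyticAt ℂ γ 0) (hγX : ∀ᶠ z in 𝓝 (0 : ℂ), γ z ∈ X)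
    (hn : ∀ᶠ z in 𝓝 (0 : ℂ), n.toFun (γ z) (deriv γ z) = 0) {σ : ℂ × ℂ → EN N} {τ : EN N → ℂ × ℂ} (hσ : IsChart X σ τ) (h0 : Pr (γ 0) (σ 0))
    (𝒰 : Ultrafilter ℕ) {s t : ℕ → ℂ} {v : ℕ → ℂ} (hs : Tendsto s 𝒰 (𝓝 0)) (ht : Tendsto t 𝒰 (𝓝 0)) (hv : Tendsto v 𝒰 (𝓝 0))
    (hs0 : ∀ᶠ k in (𝒰 : Filter ℕ), s k ≠ 0) (hp : ∀ᶠ k in (𝒰 : Filter ℕ), Pr (γ (v k)) (σ (s k, s k * t k))) :
    n.toFun (σ 0) (fderiv ℂ σ 0 (1, 0)) = 0 := by
  obtain ⟨W, T, H, hW, h0W, hT0, hcone, han, hy⟩ := exists_cone hX hσ (U := Set.univ) univ_mem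
  have hleft := rsec_left hσ hW h0W hT0 (fun y hy => ⟨(han y hy).1, (han y hy).2.1⟩) hy
  have hcX := isCone_of_surface hX
  obtain ⟨a₀, ha₀, hγ0⟩ := h0
  have hγW0 : γ 0 ∈ W := by rw [hγ0]; exact (hcone _ h0W a₀ ha₀).1
  have hTγ0 : T (γ 0) = 0 := by rw [hγ0, (hcone _ h0W a₀ ha₀).2.1, hT0]
  have hγW : ∀ᶠ z in 𝓝 (0 : ℂ), γ z ∈ W := hγ.continuousAt.tendsto.eventually (hW.mem_nhds hγW0)
  have hc : AnalyticAt ℂ (fun z => T (γ z)) 0 := (han _ hγW0).1.fun_comp hγ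
  have hct : Tendsto (fun z => T (γ z)) (𝓝 0) (𝓝 0) := by
    have := hc.continuousAt.tendsto
    rwa [hTγ0] at this
  refine null_axis n hσ hc hTγ0 ?_ ht hv hs0 ?_
  · filter_upwards [hγW.eventually_nhds, hγX.eventually_nhds, hn, hγ.eventually_analyticAt, hct.eventually (tan_of_chart hσ),
      hct.eventually hσ.σ_an.eventually_analyticAt] with z g1 g2 g3 g4 g5 g6
    have g7 := g1.self_of_nhds
    have g8 : γ =ᶠ[𝓝 z] fun y => H (γ y) • σ (T (γ y)) := by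
      filter_upwards [g1, g2] with y k1 k2
      exact hy _ k1 k2
    have g9 : HasDerivAt (fun y => H (γ y)) (deriv (fun y => H (γ y)) z) z :=
      ((han _ g7).2.1.fun_comp g4).differentiableAt.hasDerivAt
    have g10 : HasDerivAt (fun y => T (γ y)) (deriv (fun y => T (γ y)) z) z :=
      ((han _ g7).1.fun_comp g4).differentiableAt.hasDerivAt
    have g11 : HasDerivAt (fun y => σ (T (γ y))) (fderiv ℂ σ (T (γ z)) (deriv (fun y => T (γ y)) z)) z :=
      g6.differentiableAt.hasFDerivAt.comp_hasDerivAt z g10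
    have g12 : deriv γ z = H (γ z) • fderiv ℂ σ (T (γ z)) (deriv (fun y => T (γ y)) z) + deriv (fun y => H (γ y)) z • σ (T (γ z)) := by
      rw [g8.deriv_eq]
      exact (g9.smul g11).deriv
    have g8z : γ z = H (γ z) • σ (T (γ z)) := g8.self_of_nhds
    rw [g12] at g3
    have g13 := n.inv hcX (g5 (deriv (fun y => T (γ y)) z)) (han _ g7).2.2.1 (deriv (fun y => H (γ y)) z)
    rw [← g13, ← g8z]
    exact g3
  · have h1 : Tendsto (fun k => (s k, s k * t k)) 𝒰 (𝓝 (0 : ℂ × ℂ)) := by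
      have h2 := hs.prodMk_nhds (hs.mul ht)
      have h3 : ((0 : ℂ), (0 : ℂ) * 0) = 0 := by simp
      rwa [h3] at h2
    filter_upwards [hp, h1.eventually hleft] with k g1 g2
    obtain ⟨a, ha, hk⟩ := g1
    rw [hk, (hcone _ g2.1 a ha).2.1, g2.2]

end Pool.Agent.SG

end
end
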