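import Pool.Agent.H94.G6.M101
import Pool.Agent.H94.G6.M103
import Pool.Agent.H94.G6.M82

/-! The parts of this file: AD.Cone, AD.T.Sym, AD.T.Torus, AD.T.Proj, AD.T.NullB. -/

section

/-!
# AD Cone: charts of the cone of a smooth projective variety of dimension `n`
-/

set_option autoImplicit false

open MvPolynomial Topology Filter Metric

namespace Pool.Agent.AD

open Pool.Agent.H36.BP (EN)
open Pool.Agent.H14.PP (IsCone)
open Pool.Agent.H62.FC (Homog)
open Pool.Agent.H17LG.Variety (FunField)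
open Pool.Agent.H13.SM (conTan cone cone_smul exists_coneChart)
open Pool.Agent.H17EF (LE coneE)

variable {N : ℕ} {P : Ideal (MvPolynomial (Fin (N + 1)) ℂ)}

theorem isCone_coneE (hP : Homog P) : IsCone (coneE P) := by
  refine ⟨?_, ?_, ?_⟩
  · intro h
    exact h.1 (map_zero _)
  · intro x hx c hc
    show (LE N).symm (c • x) ∈ cone P
    rw [map_smul]
    exact ⟨smul_ne_zero hc hx.1, cone_smul hP hx.2 c⟩
  · have h1 : insert (0 : EN N) (coneE P) = insert (0 : EN N) (⋂ Q ∈ P, {y : EN N | eval ((LE N).symm y) Q = 0}) := by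
      ext y
      by_cases h0 : y = 0
      · simp [h0]
      · have h2 : (LE N).symm y ≠ 0 := fun h => h0 ((LE N).symm.map_eq_zero_iff.1 h)
        constructor
        · rintro (h | h)
          · exact absurd h h0
          · right
            simp only [Set.mem_iInter]
            intro Q hQ
            exact h.2 Q hQ
        · rintro (h | h)
          · exact absurd h h0
          · right
            simp only [Set.mem_iInter] at h
            exact ⟨h2, fun Q hQ => h Q hQ⟩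
    rw [h1, Set.insert_eq]
    refine isClosed_singleton.union (isClosed_biInter fun Q _ => ?_)
    exact isClosed_eq ((MvPolynomial.continuous_eval Q).comp (LE N).symm.continuous) continuous_const

/-- The chart with the coordinate ratios `x (I k) / x l` as parameters. -/
theorem exists_ratioGerm [P.IsPrime] (hP : Homog P) {n : ℕ} {z : Fin n → FunField P} (hz : IsTranscendenceBasis ℂ z)
    (hsm : ∀ y : Fin (N + 1) → ℂ, y ≠ 0 → (∀ Q ∈ P, eval y Q = 0) → Module.finrank ℂ (conTan P y) ≤ n + 1)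
    {x : EN N} (hx : x ∈ coneE P) {l : Fin (N + 1)} (hl : (LE N).symm x l ≠ 0) :
    ∃ (I : Fin n → Fin (N + 1)) (σ : Vd n → EN N),
      IsGerm (coneE P) σ (fun y k => (LE N).symm y (I k) / (LE N).symm y l - (LE N).symm x (I k) / (LE N).symm x l) ∧ σ 0 = x := by
  obtain ⟨I, σ, h1, h2, h3, h4, -⟩ := exists_coneChart hP hz hsm hx.2 hl
  have hL : ∀ y : Fin (N + 1) → ℂ, (LE N).symm ((LE N) y) = y := (LE N).symm_apply_apply
  have hσ0 : (LE N) (σ 0) = x := by rw [h2, ContinuousLinearEquiv.apply_symm_apply]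
  refine ⟨I, fun u => (LE N) (σ u), ⟨?_, ?_, ?_, ?_, ?_, ?_⟩, hσ0⟩
  · exact (((LE N) : (Fin (N + 1) → ℂ) →L[ℂ] EN N).analyticAt _).comp h1
  · filter_upwards [h3] with u hu
    show (LE N).symm ((LE N) (σ u)) ∈ cone P
    rw [hL]
    refine ⟨?_, hu.1⟩
    intro h0
    apply hl
    rw [← hu.2.1, h0]
    rfl
  · show AnalyticAt ℂ _ ((LE N) (σ 0))
    rw [hσ0]
    have hpr : ∀ i : Fin (N + 1), AnalyticAt ℂ (fun y : EN N => (LE N).symm y i) x := fun i =>
      ((ContinuousLinearMap.proj (R := ℂ) (φ := fun _ : Fin (N + 1) => ℂ) i).comp ((LE N).symm : EN N →L[ℂ] (Fin (N + 1) → ℂ))).analyticAt x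
    exact AnalyticAt.pi fun k => ((hpr _).div (hpr l) hl).sub analyticAt_const
  · filter_upwards [h3] with u hu
    funext k
    simp only [hL]
    rw [hu.2.1, hu.2.2 k]
    field_simp
    ring
  · rw [hσ0]
    have ht : Tendsto (fun y : EN N => (LE N).symm y) (𝓝 x) (𝓝 ((LE N).symm x)) := (LE N).symm.continuous.tendsto x
    have hne : ∀ᶠ y in 𝓝 ((LE N).symm x), (y : Fin (N + 1) → ℂ) l ≠ 0 := (continuous_apply l).continuousAt.eventually_ne hl
    filter_upwards [ht.eventually h4, ht.eventually hne] with y hy hyl hyX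
    refine ⟨(LE N).symm y l / (LE N).symm x l, div_ne_zero hyl hl, ?_⟩
    have h5 := hy hyX.2
    rw [← map_smul, ← h5, ContinuousLinearEquiv.apply_symm_apply]
  · rw [hσ0]
    have h7 : ∀ᶠ p in 𝓝 (x, (1 : ℂ)), p.2 ≠ 0 := by
      have : ContinuousAt (fun p : EN N × ℂ => p.2) (x, (1 : ℂ)) := continuousAt_snd
      exact this.eventually_ne one_ne_zero
    filter_upwards [h7] with p hp
    funext k
    simp only [map_smul, Pi.smul_apply, smul_eq_mul]
    rw [mul_div_mul_left _ _ hp]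

theorem charts_coneE [P.IsPrime] (hP : Homog P) {n : ℕ} {z : Fin n → FunField P} (hz : IsTranscendenceBasis ℂ z)
    (hsm : ∀ y : Fin (N + 1) → ℂ, y ≠ 0 → (∀ Q ∈ P, eval y Q = 0) → Module.finrank ℂ (conTan P y) ≤ n + 1) :
    Charts n (coneE P) := by
  intro x hx
  obtain ⟨l, hl⟩ : ∃ l, (LE N).symm x l ≠ 0 := by
    by_contra h
    push Not at h
    exact hx.1 (funext h)
  obtain ⟨I, σ, hg, h0⟩ := exists_ratioGerm hP hz hsm hx hl
  obtain ⟨χ, h1, h2⟩ := exists_chart_of_germ (isCone_coneE hP) hg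
  rw [h0] at h1 h2
  exact ⟨χ, h1, h2⟩

end Pool.Agent.AD

end

section

/-!
# AD T Sym: the pseudo-length of a family of symmetric differentials, in any dimension

`n (x, v) ^ 2 = ∑ j, ‖θ_j (x, v)‖ ^ (2 / m_j)`.  Port of `H22/W/Sym.lean`.
-/

set_option autoImplicit false

open Topology Filter Metric

namespace Pool.Agent.AD

open Pool.Agent.H36.BP (EN fs wd)
open Pool.Agent.H14.PP (IsCone Tan CurveAt IsOpenPart)
open Pool.Agent.H22.W (PseudoLength isOpenPart_self tan_smul tan_mem tan_curve tan_entire rpow_le_avg)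

variable {N : ℕ}

variable {X : Set (EN N)} {d m : ℕ}

/-- the value of a symmetric differential on the derivative of a curve is holomorphic -/
theorem SymDiff.curve_an (θ : SymDiff X m) {F : ℂ → EN N} {z₀ : ℂ} (hF : CurveAt X F z₀) :
    AnalyticAt ℂ (fun z => θ.toFun (F z) (deriv F z)) z₀ := by
  have hev : AnalyticAt ℂ (fun t : Fin 1 → ℂ => t 0) (fun _ => z₀) :=
    (ContinuousLinearMap.proj (R := ℂ) (φ := fun _ : Fin 1 => ℂ) 0).analyticAt _
  have hφ : AnalyticAt ℂ (fun t : Fin 1 → ℂ => F (t 0)) (fun _ => z₀) :=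
    AnalyticAt.comp (g := F) (f := fun t : Fin 1 → ℂ => t 0) hF.1 hev
  have h1 := θ.analytic 1 (fun t => F (t 0)) (fun _ => z₀) (fun _ => 1) hφ (by
    have h2 : Tendsto (fun t : Fin 1 → ℂ => t 0) (𝓝 (fun _ => z₀)) (𝓝 z₀) := hev.continuousAt.tendsto
    exact h2.eventually hF.2)
  have h3 : AnalyticAt ℂ (fun z : ℂ => ((fun _ => z : Fin 1 → ℂ), (fun _ => 1 : Fin 1 → ℂ))) z₀ := by
    refine AnalyticAt.prod ?_ analyticAt_const
    exact AnalyticAt.pi fun _ => analyticAt_id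
  have h4 := AnalyticAt.comp (g := fun y : (Fin 1 → ℂ) × (Fin 1 → ℂ) => θ.toFun (F (y.1 0)) (fderiv ℂ (fun t : Fin 1 → ℂ => F (t 0)) y.1 y.2))
    (f := fun z : ℂ => ((fun _ => z : Fin 1 → ℂ), (fun _ => 1 : Fin 1 → ℂ))) h1 h3
  refine h4.congr ?_
  filter_upwards [hF.1.eventually_analyticAt] with z hz
  show θ.toFun (F z) (fderiv ℂ (fun t : Fin 1 → ℂ => F (t 0)) (fun _ => z) (fun _ => 1)) = θ.toFun (F z) (deriv F z)
  congr 1
  have h5 : HasFDerivAt (fun t : Fin 1 → ℂ => F (t 0)) ((fderiv ℂ F z).comp (ContinuousLinearMap.proj (R := ℂ) (φ := fun _ : Fin 1 => ℂ) 0))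
      (fun _ => z) :=
    HasFDerivAt.comp (g := F) (f := fun t : Fin 1 → ℂ => t 0) (fun _ => z) hz.differentiableAt.hasFDerivAt
      (ContinuousLinearMap.proj (R := ℂ) (φ := fun _ : Fin 1 => ℂ) 0).hasFDerivAt
  rw [h5.fderiv]
  simp

/-- the expression of the differential in a chart -/
noncomputable def tC (θ : SymDiff X m) (χ : Chart d X) (y : Vd d × Vd d) : ℂ := θ.toFun (χ.σ y.1) (fderiv ℂ χ.σ y.1 y.2)

theorem tC_an (θ : SymDiff X m) (χ : Chart d X) {p : Vd d} (hp : p ∈ ball (0 : Vd d) 2) (w : Vd d) :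
    AnalyticAt ℂ (tC θ χ) (p, w) := by
  refine θ.analytic d χ.σ p w (χ.σ_an p hp) ?_
  filter_upwards [isOpen_ball.mem_nhds hp] with y hy
  exact (χ.σ_mem y hy).1

theorem SymDiff.eq_tC (hX : IsCone X) (θ : SymDiff X m) (χ : Chart d X) {x v : EN N} (h : Tan X x v) (hU : x ∈ χ.U) :
    θ.toFun x v = tC θ χ (χ.q x, fderiv ℂ χ.q x v) := by
  obtain ⟨hb, c, a, hc, h1, h2⟩ := tan_chart hX χ h hU
  have ht := tan_sigma hX χ hb (fderiv ℂ χ.q x v)
  have ht' : Tan X x (c • fderiv ℂ χ.σ (χ.q x) (fderiv ℂ χ.q x v)) := by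
    have := tan_smul hX ht hc
    rwa [← h1] at this
  have h3 : θ.toFun x v = θ.toFun x (c • fderiv ℂ χ.σ (χ.q x) (fderiv ℂ χ.q x v)) := by
    conv_lhs => rw [h2]
    exact θ.add_smul _ _ ht' a
  have h4 := θ.scale _ _ ht c hc
  rw [← h1] at h4
  rw [h3, h4]
  rfl

theorem SymDiff.continuousOn (hX : IsCone X) (hch : Charts d X) (θ : SymDiff X m) :
    ContinuousOn (fun p : EN N × EN N => θ.toFun p.1 p.2) {p | Tan X p.1 p.2} := by
  rintro ⟨x₀, v₀⟩ h₀
  have h₀' : Tan X x₀ v₀ := h₀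
  obtain ⟨χ, hU, hq0⟩ := hch x₀ (tan_mem h₀')
  have hq := χ.q_an x₀ hU
  have hp : χ.q x₀ ∈ ball (0 : Vd d) 2 := by
    rw [hq0]
    exact mem_ball_self two_pos
  have h1 : Tendsto (fun y : EN N × EN N => χ.q y.1) (𝓝 (x₀, v₀)) (𝓝 (χ.q x₀)) :=
    hq.continuousAt.tendsto.comp continuousAt_fst.tendsto
  have h2 : Tendsto (fun y : EN N × EN N => fderiv ℂ χ.q y.1) (𝓝 (x₀, v₀)) (𝓝 (fderiv ℂ χ.q x₀)) :=
    hq.fderiv.continuousAt.tendsto.comp continuousAt_fst.tendsto
  have hcb : Continuous fun p : (EN N →L[ℂ] (Vd d)) × EN N => p.1 p.2 := isBoundedBilinearMap_apply.continuous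
  have h3 : Tendsto (fun y : EN N × EN N => fderiv ℂ χ.q y.1 y.2) (𝓝 (x₀, v₀)) (𝓝 (fderiv ℂ χ.q x₀ v₀)) :=
    (hcb.tendsto (fderiv ℂ χ.q x₀, v₀)).comp (h2.prodMk_nhds continuousAt_snd.tendsto)
  have h4 : Tendsto (fun y : EN N × EN N => tC θ χ (χ.q y.1, fderiv ℂ χ.q y.1 y.2)) (𝓝 (x₀, v₀))
      (𝓝 (tC θ χ (χ.q x₀, fderiv ℂ χ.q x₀ v₀))) :=
    (tC_an θ χ hp (fderiv ℂ χ.q x₀ v₀)).continuousAt.tendsto.comp (h1.prodMk_nhds h3)
  have h5 : θ.toFun x₀ v₀ = tC θ χ (χ.q x₀, fderiv ℂ χ.q x₀ v₀) := SymDiff.eq_tC hX θ χ h₀' hU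
  show Tendsto (fun p : EN N × EN N => θ.toFun p.1 p.2) (𝓝[{p | Tan X p.1 p.2}] (x₀, v₀)) (𝓝 (θ.toFun x₀ v₀))
  rw [h5]
  refine (h4.mono_left nhdsWithin_le_nhds).congr' ?_
  have h6 : ∀ᶠ y : EN N × EN N in 𝓝 (x₀, v₀), y.1 ∈ χ.U := continuousAt_fst.eventually (χ.isOpen_U.mem_nhds hU)
  filter_upwards [nhdsWithin_le_nhds h6, self_mem_nhdsWithin] with y hy1 hy2
  exact (SymDiff.eq_tC hX θ χ hy2 hy1).symm

theorem pow_two_div {m : ℕ} (hm : 1 ≤ m) {t : ℝ} (ht : 0 ≤ t) : (t ^ m) ^ ((2 : ℝ) / m) = t ^ 2 := by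
  have hm0 : (m : ℝ) ≠ 0 := by exact_mod_cast (by omega : m ≠ 0)
  rw [← Real.rpow_natCast, ← Real.rpow_mul ht, mul_div_cancel₀ _ hm0, ← Real.rpow_natCast]
  norm_num

/-- **The pseudo-length of a family of symmetric differentials.** -/
noncomputable def symLength (hX : IsCone X) (hch : Charts d X) {k : ℕ} {m : Fin k → ℕ} (hm : ∀ j, 1 ≤ m j)
    (θ : ∀ j, SymDiff X (m j)) : PseudoLength X where
  toFun x v := Real.sqrt (∑ j, ‖(θ j).toFun x v‖ ^ ((2 : ℝ) / m j))
  nonneg _ _ _ := Real.sqrt_nonneg _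
  add_smul x v h a := by
    have h1 : ∀ j, (θ j).toFun x (v + a • x) = (θ j).toFun x v := fun j => (θ j).add_smul x v h a
    simp only [h1]
  smul x v h a := by
    have h1 : ∀ j, ‖(θ j).toFun x (a • v)‖ ^ ((2 : ℝ) / m j) = ‖a‖ ^ 2 * ‖(θ j).toFun x v‖ ^ ((2 : ℝ) / m j) := fun j => by
      rw [(θ j).smul x v h a, norm_mul, norm_pow, Real.mul_rpow (by positivity) (norm_nonneg _),
        pow_two_div (hm j) (norm_nonneg _)]
    simp only [h1]
    rw [← Finset.mul_sum, Real.sqrt_mul (by positivity), Real.sqrt_sq (norm_nonneg _)]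
  scale x v h c hc := by
    have h1 : ∀ j, (θ j).toFun (c • x) (c • v) = (θ j).toFun x v := fun j => (θ j).scale x v h c hc
    simp only [h1]
  continuous := by
    refine Real.continuous_sqrt.comp_continuousOn (continuousOn_finsetSum _ fun j _ => ?_)
    refine (SymDiff.continuousOn hX hch (θ j)).norm.rpow_const fun x _ => Or.inr ?_
    positivity
  curved U F hU hF hFX c r hr hc := by
    have h0 : ∀ z, 0 ≤ ∑ j, ‖(θ j).toFun (F z) (deriv F z)‖ ^ ((2 : ℝ) / m j) := fun z =>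
      Finset.sum_nonneg fun j _ => Real.rpow_nonneg (norm_nonneg _) _
    simp only [Real.sq_sqrt (h0 _)]
    have han : ∀ j, AnalyticOnNhd ℂ (fun z => (θ j).toFun (F z) (deriv F z)) (closedBall c r) := by
      intro j z hz
      have hz' : U ∈ 𝓝 z := hU.mem_nhds (hc hz)
      refine (θ j).curve_an ⟨hF.analyticAt hz', ?_⟩
      filter_upwards [hz'] with w hw using hFX w hw
    have hsum : Real.circleAverage (fun z => ∑ j, ‖(θ j).toFun (F z) (deriv F z)‖ ^ ((2 : ℝ) / m j)) c r =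
        ∑ j, Real.circleAverage (fun z => ‖(θ j).toFun (F z) (deriv F z)‖ ^ ((2 : ℝ) / m j)) c r := by
      refine Real.circleAverage_fun_sum fun j _ => ?_
      have h2 : sphere c |r| ⊆ closedBall c r := by
        rw [abs_of_pos hr]
        exact sphere_subset_closedBall
      refine ContinuousOn.circleIntegrable' ?_
      exact ((han j).continuousOn.mono h2).norm.rpow_const fun x _ => Or.inr (by positivity)
    rw [hsum]
    refine Finset.sum_le_sum fun j _ => rpow_le_avg hr ?_ (han j)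
    have h3 : (0 : ℝ) < m j := by exact_mod_cast (by have := hm j; omega : 0 < m j)
    positivity

theorem symLength_zero (hX : IsCone X) (hch : Charts d X) {k : ℕ} {m : Fin k → ℕ} (hm : ∀ j, 1 ≤ m j)
    (θ : ∀ j, SymDiff X (m j)) {x v : EN N} : (symLength hX hch hm θ).toFun x v = 0 ↔ ∀ j, (θ j).toFun x v = 0 := by
  have h0 : ∀ j, 0 ≤ ‖(θ j).toFun x v‖ ^ ((2 : ℝ) / m j) := fun j => Real.rpow_nonneg (norm_nonneg _) _
  show Real.sqrt (∑ j, ‖(θ j).toFun x v‖ ^ ((2 : ℝ) / m j)) = 0 ↔ _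
  rw [Real.sqrt_eq_zero (Finset.sum_nonneg fun j _ => h0 j), Finset.sum_eq_zero_iff_of_nonneg fun j _ => h0 j]
  constructor
  · intro h j
    have h1 := h j (Finset.mem_univ j)
    have h3 : (0 : ℝ) < m j := by exact_mod_cast (by have := hm j; omega : 0 < m j)
    rw [Real.rpow_eq_zero (norm_nonneg _) (by positivity)] at h1
    exact norm_eq_zero.1 h1
  · intro h j _
    have h3 : (0 : ℝ) < m j := by exact_mod_cast (by have := hm j; omega : 0 < m j)
    rw [h j, norm_zero, Real.zero_rpow (by positivity)]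

end Pool.Agent.AD

end

section

/-!
# AD T Torus: holomorphic maps to complex tori

`u : X → ℂ^g / Λ` is holomorphic, `Λ` discrete.  The components of `du` are symmetric differentials of degree one; an entire curve `F` with
`du (F') = 0` lies in a fibre of `u`.
-/

set_option autoImplicit false

open Topology Filter Metric MvPolynomial

namespace Pool.Agent.AD

attribute [-instance] ProperSMul.toContinuousSMul

open Pool.Agent.H36.BP (EN fs wd)
open Pool.Agent.H14.PP (IsCone Tan CurveAt IsOpenPart)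
open Pool.Agent.H22.W (PseudoLength isOpenPart_self tan_smul tan_mem tan_curve tan_entire)
open Pool.Agent.H17 (PN HolomorphicInto)
open Pool.Agent.H62.FC (Homog)
open Pool.Agent.H17EF (projVar coneE LE mk_mem_projVar mem_coneE)
open Pool.Agent.H14.V (IsLift)

variable {N g : ℕ}

/-- `u` is a holomorphic map from the variety with the cone `X` to `ℂ^g / Λ` -/
structure TorusMapV (X : Set (EN N)) (Λ : AddSubgroup (Fin g → ℂ)) (u : EN N → (Fin g → ℂ)) : Prop where
  smul : ∀ x ∈ X, ∀ c : ℂ, c ≠ 0 → u (c • x) - u x ∈ Λ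
  loc : ∀ x ∈ X, ∃ v : EN N → (Fin g → ℂ), AnalyticAt ℂ v x ∧ ∀ᶠ y in 𝓝 x, y ∈ X → u y - v y ∈ Λ

/-- a discrete subgroup -/
def DiscreteSub (Λ : AddSubgroup (Fin g → ℂ)) : Prop := ∃ δ : ℝ, 0 < δ ∧ ∀ l ∈ Λ, ‖l‖ < δ → l = 0

variable {X : Set (EN N)} {Λ : AddSubgroup (Fin g → ℂ)} {u : EN N → (Fin g → ℂ)}

open Classical in
/-- a local lift of `u` at `x` -/
noncomputable def TorusMapV.lift (hu : TorusMapV X Λ u) (x : EN N) : EN N → (Fin g → ℂ) :=
  if h : x ∈ X then (hu.loc x h).choose else fun _ => 0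

theorem TorusMapV.lift_an (hu : TorusMapV X Λ u) {x : EN N} (hx : x ∈ X) : AnalyticAt ℂ (hu.lift x) x := by
  unfold TorusMapV.lift
  rw [dif_pos hx]
  exact (hu.loc x hx).choose_spec.1

theorem TorusMapV.lift_mem (hu : TorusMapV X Λ u) {x : EN N} (hx : x ∈ X) : ∀ᶠ y in 𝓝 x, y ∈ X → u y - hu.lift x y ∈ Λ := by
  unfold TorusMapV.lift
  rw [dif_pos hx]
  exact (hu.loc x hx).choose_spec.2

/-- a continuous function with values in a discrete subgroup is locally constant -/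
theorem eventually_const_of_mem (hΛ : DiscreteSub Λ) {h : ℂ → (Fin g → ℂ)} {z₀ : ℂ} (hc : ContinuousAt h z₀)
    (hm : ∀ᶠ z in 𝓝 z₀, h z ∈ Λ) : ∀ᶠ z in 𝓝 z₀, h z = h z₀ := by
  obtain ⟨δ, hδ, hd⟩ := hΛ
  have h1 : ∀ᶠ z in 𝓝 z₀, ‖h z - h z₀‖ < δ := by
    have h2 := hc.eventually (ball_mem_nhds (h z₀) hδ)
    filter_upwards [h2] with z hz
    rw [← dist_eq_norm]
    exact hz
  filter_upwards [h1, hm] with z hz1 hz2
  exact sub_eq_zero.1 (hd _ (Λ.sub_mem hz2 hm.self_of_nhds) hz1)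

/-- two functions which differ locally by an element of a discrete subgroup have the same derivative -/
theorem deriv_eq_of_mem (hΛ : DiscreteSub Λ) {h k : ℂ → (Fin g → ℂ)} {z₀ : ℂ} (hh : AnalyticAt ℂ h z₀) (hk : AnalyticAt ℂ k z₀)
    (hm : ∀ᶠ z in 𝓝 z₀, h z - k z ∈ Λ) : deriv h z₀ = deriv k z₀ := by
  have h1 := eventually_const_of_mem hΛ (hh.sub hk).continuousAt hm
  have h2 : (fun z => h z) =ᶠ[𝓝 z₀] fun z => (h z₀ - k z₀) + k z := by
    filter_upwards [h1] with z hz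
    have hz' : h z - k z = h z₀ - k z₀ := hz
    rw [← hz']
    abel
  rw [show deriv h z₀ = deriv (fun z => (h z₀ - k z₀) + k z) z₀ from h2.deriv_eq, deriv_const_add]

theorem deriv_comp_lift {v : EN N → (Fin g → ℂ)} {F : ℂ → EN N} {z₀ : ℂ} (hF : AnalyticAt ℂ F z₀) (hv : AnalyticAt ℂ v (F z₀)) :
    deriv (fun z => v (F z)) z₀ = fderiv ℂ v (F z₀) (deriv F z₀) :=
  (hv.differentiableAt.hasFDerivAt.comp_hasDerivAt z₀ hF.differentiableAt.hasDerivAt).deriv

/-- the differential of `u` -/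
noncomputable def TorusMapV.du (hu : TorusMapV X Λ u) (x w : EN N) : Fin g → ℂ := fderiv ℂ (hu.lift x) x w

/-- the differential can be computed with every local lift -/
theorem TorusMapV.du_eq (hu : TorusMapV X Λ u) (hΛ : DiscreteSub Λ) {x w : EN N} (hw : Tan X x w) {v : EN N → (Fin g → ℂ)}
    (hv : AnalyticAt ℂ v x) (hvu : ∀ᶠ y in 𝓝 x, y ∈ X → u y - v y ∈ Λ) : hu.du x w = fderiv ℂ v x w := by
  have hx : x ∈ X := tan_mem hw
  obtain ⟨F, hF, h0, hd⟩ := hw
  subst h0 hd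
  have hl := hu.lift_an hx
  have h1 := deriv_eq_of_mem (Λ := Λ) hΛ (h := fun z => hu.lift (F 0) (F z)) (k := fun z => v (F z)) (z₀ := 0)
    (AnalyticAt.comp (g := hu.lift (F 0)) (f := F) hl hF.1) (AnalyticAt.comp (g := v) (f := F) hv hF.1) (by
      have hc : Tendsto F (𝓝 0) (𝓝 (F 0)) := hF.1.continuousAt.tendsto
      filter_upwards [hc.eventually hvu, hc.eventually (hu.lift_mem hx), hF.2] with z h2 h3 h4
      have h5 := Λ.sub_mem (h2 h4) (h3 h4)
      have h6 : hu.lift (F 0) (F z) - v (F z) = (u (F z) - v (F z)) - (u (F z) - hu.lift (F 0) (F z)) := by abel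
      rw [h6]
      exact h5)
  rw [deriv_comp_lift hF.1 hl, deriv_comp_lift hF.1 hv] at h1
  exact h1

/-- the differential along a holomorphic map -/
theorem tan_fderiv {k : ℕ} {φ : (Fin k → ℂ) → EN N} {y : Fin k → ℂ} (hφ : AnalyticAt ℂ φ y) (hX : ∀ᶠ x in 𝓝 y, φ x ∈ X) (w : Fin k → ℂ) :
    Tan X (φ y) (fderiv ℂ φ y w) := by
  have hl : AnalyticAt ℂ (fun z : ℂ => y + z • w) 0 := by fun_prop
  have h0 : y + (0 : ℂ) • w = y := by simp
  have hφ' : AnalyticAt ℂ φ (y + (0 : ℂ) • w) := by rwa [h0]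
  refine ⟨fun z => φ (y + z • w), ⟨AnalyticAt.comp (g := φ) (f := fun z : ℂ => y + z • w) hφ' hl, ?_⟩, by simp, ?_⟩
  · have h1 : Tendsto (fun z : ℂ => y + z • w) (𝓝 0) (𝓝 y) := by
      have := hl.continuousAt.tendsto
      rwa [h0] at this
    exact h1.eventually hX
  · have h1 : HasFDerivAt φ (fderiv ℂ φ y) (y + (0 : ℂ) • w) := by
      rw [h0]
      exact hφ.differentiableAt.hasFDerivAt
    have h2 : HasDerivAt (fun z : ℂ => y + z • w) w 0 := by
      have h3 : HasDerivAt (fun z : ℂ => z • w) ((1 : ℂ) • w) 0 := (hasDerivAt_id (0 : ℂ)).smul_const w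
      rw [one_smul] at h3
      exact h3.const_add y
    exact (h1.comp_hasDerivAt (0 : ℂ) h2).deriv

theorem TorusMapV.du_self (hu : TorusMapV X Λ u) (hΛ : DiscreteSub Λ) (hX : IsCone X) {x : EN N} (hx : x ∈ X) : hu.du x x = 0 := by
  have hl := hu.lift_an hx
  have h1 : AnalyticAt ℂ (fun z : ℂ => (1 + z) • x) 0 := by fun_prop
  have h00 : (fun z : ℂ => (1 + z) • x) 0 = x := by simp
  have hl' : AnalyticAt ℂ (hu.lift x) ((fun z : ℂ => (1 + z) • x) 0) := by rwa [h00]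
  have hne : ∀ᶠ z : ℂ in 𝓝 0, 1 + z ≠ 0 := by
    apply ContinuousAt.eventually_ne
    · fun_prop
    · simp
  have hc : Tendsto (fun z : ℂ => (1 + z) • x) (𝓝 0) (𝓝 x) := by
    have := h1.continuousAt.tendsto
    simpa using this
  have h2 := deriv_eq_of_mem (Λ := Λ) hΛ (h := fun z : ℂ => hu.lift x ((1 + z) • x)) (k := fun _ => u x) (z₀ := 0)
    (AnalyticAt.comp (g := hu.lift x) (f := fun z : ℂ => (1 + z) • x) hl' h1) analyticAt_const (by
      filter_upwards [hc.eventually (hu.lift_mem hx), hne] with z h3 h4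
      have h5 := h3 (hX.smul_mem x hx _ h4)
      have h6 := Λ.sub_mem (hu.smul x hx (1 + z) h4) h5
      have h7 : hu.lift x ((1 + z) • x) - u x = (u ((1 + z) • x) - u x) - (u ((1 + z) • x) - hu.lift x ((1 + z) • x)) := by abel
      rw [h7]
      exact h6)
  rw [deriv_const] at h2
  have h3 : HasDerivAt (fun z : ℂ => (1 + z) • x) x 0 := by
    have h1 : HasDerivAt (fun h : ℂ => 1 + h) 1 0 := by
      simpa using (hasDerivAt_id (0 : ℂ)).const_add (1 : ℂ)
    have h2 : HasDerivAt (fun h : ℂ => (1 + h) • x) ((1 : ℂ) • x) 0 := h1.smul_const x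
    rwa [one_smul] at h2
  have h4 : HasFDerivAt (hu.lift x) (fderiv ℂ (hu.lift x) x) ((fun z : ℂ => (1 + z) • x) 0) := by
    rw [h00]
    exact hl.differentiableAt.hasFDerivAt
  have h5 := (h4.comp_hasDerivAt (0 : ℂ) h3).deriv
  unfold TorusMapV.du
  rw [← h5]
  exact h2

/-- **The components of the differential are symmetric differentials of degree one.** -/
noncomputable def TorusMapV.symDiff (hu : TorusMapV X Λ u) (hΛ : DiscreteSub Λ) (hX : IsCone X) (j : Fin g) : SymDiff X 1 where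
  toFun x w := hu.du x w j
  add_smul x v h a := by
    have h1 : hu.du x (v + a • x) = hu.du x v + a • hu.du x x := by
      unfold TorusMapV.du
      rw [map_add, map_smul]
    rw [h1, hu.du_self hΛ hX (tan_mem h), smul_zero, add_zero]
  smul x v _ a := by
    have h1 : hu.du x (a • v) = a • hu.du x v := by
      unfold TorusMapV.du
      rw [map_smul]
    rw [h1, pow_one]
    rfl
  scale x v h c hc := by
    have hx := tan_mem h
    have hl := hu.lift_an hx
    have h0 : c⁻¹ • (c • x) = x := by rw [smul_smul, inv_mul_cancel₀ hc, one_smul]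
    have h1 : AnalyticAt ℂ (fun y : EN N => c⁻¹ • y) (c • x) := by fun_prop
    have hl' : AnalyticAt ℂ (hu.lift x) ((fun y : EN N => c⁻¹ • y) (c • x)) := by
      show AnalyticAt ℂ (hu.lift x) (c⁻¹ • (c • x))
      rwa [h0]
    have ht : Tendsto (fun y : EN N => c⁻¹ • y) (𝓝 (c • x)) (𝓝 x) := by
      have := h1.continuousAt.tendsto
      rwa [h0] at this
    have h2 := hu.du_eq hΛ (tan_smul hX h hc) (v := fun y => hu.lift x (c⁻¹ • y))
      (AnalyticAt.comp (g := hu.lift x) (f := fun y : EN N => c⁻¹ • y) hl' h1) (by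
        filter_upwards [ht.eventually (hu.lift_mem hx)] with y h3 hy
        have h4 := hX.smul_mem y hy c⁻¹ (inv_ne_zero hc)
        have h5 := Λ.sub_mem (h3 h4) (hu.smul y hy c⁻¹ (inv_ne_zero hc))
        have h6 := Λ.add_mem (h3 h4) (Λ.neg_mem (hu.smul y hy c⁻¹ (inv_ne_zero hc)))
        have h7 : u y - hu.lift x (c⁻¹ • y) = (u (c⁻¹ • y) - hu.lift x (c⁻¹ • y)) + -(u (c⁻¹ • y) - u y) := by abel
        rw [h7]
        exact h6)
    rw [h2]
    have h8 : HasFDerivAt (fun y : EN N => hu.lift x (c⁻¹ • y)) ((fderiv ℂ (hu.lift x) x).comp (c⁻¹ • ContinuousLinearMap.id ℂ (EN N))) (c • x) := by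
      have h9 : HasFDerivAt (hu.lift x) (fderiv ℂ (hu.lift x) x) ((fun y : EN N => c⁻¹ • y) (c • x)) := by
        show HasFDerivAt (hu.lift x) (fderiv ℂ (hu.lift x) x) (c⁻¹ • (c • x))
        rw [h0]
        exact hl.differentiableAt.hasFDerivAt
      exact h9.comp (c • x) ((hasFDerivAt_id (c • x)).const_smul c⁻¹)
    rw [h8.fderiv]
    show (fderiv ℂ (hu.lift x) x (c⁻¹ • (c • v))) j = (fderiv ℂ (hu.lift x) x v) j
    rw [smul_smul, inv_mul_cancel₀ hc, one_smul]
  analytic k φ p w hφ hφX := by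
    have hx : φ p ∈ X := hφX.self_of_nhds
    have hl := hu.lift_an hx
    have hcomp : AnalyticAt ℂ (fun y => hu.lift (φ p) (φ y)) p := AnalyticAt.comp (g := hu.lift (φ p)) (f := φ) hl hφ
    have h1 : AnalyticAt ℂ (fun y : (Fin k → ℂ) × (Fin k → ℂ) => fderiv ℂ (fun y => hu.lift (φ p) (φ y)) y.1 y.2) (p, w) := by
      have h2 : AnalyticAt ℂ (fun y : (Fin k → ℂ) × (Fin k → ℂ) => fderiv ℂ (fun y => hu.lift (φ p) (φ y)) y.1) (p, w) :=
        AnalyticAt.comp (g := fderiv ℂ (fun y => hu.lift (φ p) (φ y))) (f := fun y : (Fin k → ℂ) × (Fin k → ℂ) => y.1) hcomp.fderiv analyticAt_fst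
      exact AnalyticAt.comp (g := fun q : ((Fin k → ℂ) →L[ℂ] (Fin g → ℂ)) × (Fin k → ℂ) => q.1 q.2)
        (f := fun y : (Fin k → ℂ) × (Fin k → ℂ) => (fderiv ℂ (fun y => hu.lift (φ p) (φ y)) y.1, y.2))
        ((ContinuousLinearMap.id ℂ ((Fin k → ℂ) →L[ℂ] (Fin g → ℂ))).analyticAt_bilinear _) (h2.prod analyticAt_snd)
    have h3 : AnalyticAt ℂ (fun y : (Fin k → ℂ) × (Fin k → ℂ) => (fderiv ℂ (fun y => hu.lift (φ p) (φ y)) y.1 y.2) j) (p, w) :=
      AnalyticAt.comp (g := fun v : Fin g → ℂ => v j) (f := fun y : (Fin k → ℂ) × (Fin k → ℂ) => fderiv ℂ (fun y => hu.lift (φ p) (φ y)) y.1 y.2)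
        ((ContinuousLinearMap.proj (R := ℂ) (φ := fun _ : Fin g => ℂ) j).analyticAt _) h1
    refine h3.congr ?_
    have hφc : Tendsto (fun y : (Fin k → ℂ) × (Fin k → ℂ) => φ y.1) (𝓝 (p, w)) (𝓝 (φ p)) :=
      hφ.continuousAt.tendsto.comp continuousAt_fst.tendsto
    have e1 : ∀ᶠ y : (Fin k → ℂ) × (Fin k → ℂ) in 𝓝 (p, w), AnalyticAt ℂ (hu.lift (φ p)) (φ y.1) := hφc.eventually hl.eventually_analyticAt
    have e2 : ∀ᶠ y : (Fin k → ℂ) × (Fin k → ℂ) in 𝓝 (p, w), ∀ᶠ x in 𝓝 (φ y.1), x ∈ X → u x - hu.lift (φ p) x ∈ Λ :=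
      hφc.eventually (hu.lift_mem hx).eventually_nhds
    have hfst : Tendsto (fun y : (Fin k → ℂ) × (Fin k → ℂ) => y.1) (𝓝 (p, w)) (𝓝 p) := continuousAt_fst.tendsto
    have e3 : ∀ᶠ y : (Fin k → ℂ) × (Fin k → ℂ) in 𝓝 (p, w), AnalyticAt ℂ φ y.1 := hfst.eventually hφ.eventually_analyticAt
    have e4 : ∀ᶠ y : (Fin k → ℂ) × (Fin k → ℂ) in 𝓝 (p, w), ∀ᶠ x in 𝓝 y.1, φ x ∈ X := hfst.eventually hφX.eventually_nhds
    filter_upwards [e1, e2, e3, e4] with y h4 h5 h6 h7
    rw [hu.du_eq hΛ (tan_fderiv h6 h7 y.2) h4 h5]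
    have h8 : HasFDerivAt (fun x => hu.lift (φ p) (φ x)) ((fderiv ℂ (hu.lift (φ p)) (φ y.1)).comp (fderiv ℂ φ y.1)) y.1 :=
      HasFDerivAt.comp (g := hu.lift (φ p)) (f := φ) y.1 h4.differentiableAt.hasFDerivAt h6.differentiableAt.hasFDerivAt
    rw [h8.fderiv]
    rfl

/-- **An entire curve with `du (F') = 0` lies in a fibre of `u`.** -/
theorem TorusMapV.fibre_of_du (hu : TorusMapV X Λ u) (hΛ : DiscreteSub Λ) {F : ℂ → EN N} (hF : Differentiable ℂ F) (hFX : ∀ z, F z ∈ X)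
    (h0 : ∀ z, hu.du (F z) (deriv F z) = 0) (z w : ℂ) : u (F z) - u (F w) ∈ Λ := by
  have hlc : IsLocallyConstant fun z => (QuotientAddGroup.mk (u (F z)) : (Fin g → ℂ) ⧸ Λ) := by
    rw [IsLocallyConstant.iff_eventually_eq]
    intro z₀
    have hx := hFX z₀
    have hl := hu.lift_an hx
    have hc : Tendsto F (𝓝 z₀) (𝓝 (F z₀)) := hF.continuous.tendsto z₀
    obtain ⟨h, hh⟩ : ∃ h : ℂ → (Fin g → ℂ), h = fun z => hu.lift (F z₀) (F z) := ⟨_, rfl⟩
    have hder : ∀ᶠ z in 𝓝 z₀, deriv h z = 0 ∧ DifferentiableAt ℂ h z := by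
      filter_upwards [hc.eventually hl.eventually_analyticAt, hc.eventually (hu.lift_mem hx).eventually_nhds] with z h1 h2
      have h3 : AnalyticAt ℂ h z := by
        rw [hh]
        exact AnalyticAt.comp (g := hu.lift (F z₀)) (f := F) h1 (hF.analyticAt z)
      refine ⟨?_, h3.differentiableAt⟩
      rw [hh, deriv_comp_lift (hF.analyticAt z) h1, ← hu.du_eq hΛ (tan_entire hF hFX z) h1 h2]
      exact h0 z
    obtain ⟨r, hr, hball⟩ := Metric.eventually_nhds_iff_ball.1 hder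
    have hconst : ∀ z ∈ ball z₀ r, h z = h z₀ := by
      intro z hz
      exact (convex_ball z₀ r).is_const_of_fderivWithin_eq_zero (𝕜 := ℂ) (fun y hy => (hball y hy).2.differentiableWithinAt)
        (fun y hy => by
          rw [fderivWithin_of_isOpen isOpen_ball hy]
          ext1
          exact (hball y hy).1) hz (mem_ball_self hr)
    filter_upwards [hc.eventually (hu.lift_mem hx), isOpen_ball.mem_nhds (mem_ball_self hr)] with z h1 h2
    have h3 := h1 (hFX z)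
    have h4 := (hu.lift_mem hx).self_of_nhds hx
    have h5 : hu.lift (F z₀) (F z) = hu.lift (F z₀) (F z₀) := by
      have := hconst z h2
      rwa [hh] at this
    rw [h5] at h3
    rw [QuotientAddGroup.eq]
    have h6 := Λ.sub_mem h4 h3
    have h7 : -u (F z) + u (F z₀) = (u (F z₀) - hu.lift (F z₀) (F z₀)) - (u (F z) - hu.lift (F z₀) (F z₀)) := by abel
    rw [h7]
    exact h6
  have h1 := hlc.apply_eq_of_preconnectedSpace w z
  rw [QuotientAddGroup.eq] at h1
  rwa [neg_add_eq_sub] at h1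

end Pool.Agent.AD

end

section

/-!
# AD T Proj: pseudo-lengths from holomorphic maps to tori and from symmetric differentials, on projective manifolds
-/

set_option autoImplicit false

open Topology Filter Metric MvPolynomial

noncomputable section

namespace Pool.Agent.AD

open Pool.Agent.H36.BP (EN fs wd)
open Pool.Agent.H14.PP (IsCone Tan CurveAt)
open Pool.Agent.H22.W (PseudoLength)
open Pool.Agent.H17 (PN HolomorphicInto)
open Pool.Agent.H62.FC (Homog)
open Pool.Agent.H17EF (projVar coneE LE mk_mem_projVar mem_coneE)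
open Pool.Agent.H14.V (IsLift IsNull)

variable {N g : ℕ} {P : Ideal (MvPolynomial (Fin (N + 1)) ℂ)}

open Classical in
/-- the map to the torus as a function on the cone -/
def uV (Λ : AddSubgroup (Fin g → ℂ)) (u : PN N → (Fin g → ℂ) ⧸ Λ) (y : EN N) : Fin g → ℂ :=
  if h : (LE N).symm y ≠ 0 then Quotient.out (u (Projectivization.mk ℂ ((LE N).symm y) h)) else 0

theorem uV_eq (Λ : AddSubgroup (Fin g → ℂ)) (u : PN N → (Fin g → ℂ) ⧸ Λ) {y : EN N} (h : (LE N).symm y ≠ 0) :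
    ((uV Λ u y : Fin g → ℂ) : (Fin g → ℂ) ⧸ Λ) = u (Projectivization.mk ℂ ((LE N).symm y) h) := by
  unfold uV
  rw [dif_pos h]
  exact Quotient.out_eq _

theorem sub_mem_iff {Λ : AddSubgroup (Fin g → ℂ)} {a b : Fin g → ℂ} :
    a - b ∈ Λ ↔ ((a : Fin g → ℂ) : (Fin g → ℂ) ⧸ Λ) = (b : (Fin g → ℂ) ⧸ Λ) := by
  rw [QuotientAddGroup.eq, ← neg_mem_iff]
  constructor
  · intro h
    convert h using 1
    abel
  · intro h
    convert h using 1
    abel

theorem torusMapV (hP : Homog P) {Λ : AddSubgroup (Fin g → ℂ)} {u : PN N → (Fin g → ℂ) ⧸ Λ}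
    (hu : IsHolomorphicTorusMap (projVar P) Λ u) : TorusMapV (coneE P) Λ (uV Λ u) := by
  constructor
  · intro x hx c hc
    have h1 : (LE N).symm x ≠ 0 := hx.1
    have h2 : (LE N).symm (c • x) ≠ 0 := by
      rw [map_smul]
      exact smul_ne_zero hc h1
    rw [sub_mem_iff, uV_eq Λ u h1, uV_eq Λ u h2]
    congr 1
    rw [Projectivization.mk_eq_mk_iff']
    exact ⟨c, (map_smul _ _ _).symm⟩
  · intro x hx
    obtain ⟨h1, h2⟩ := (mem_coneE hP).1 hx
    obtain ⟨v, hv, hv'⟩ := hu _ h1 h2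
    refine ⟨fun y => v ((LE N).symm y), ?_, ?_⟩
    · exact AnalyticAt.comp (g := v) (f := fun y : EN N => (LE N).symm y) hv (((LE N).symm : EN N →L[ℂ] (Fin (N + 1) → ℂ)).analyticAt x)
    · have h3 : Tendsto (fun y : EN N => (LE N).symm y) (𝓝 x) (𝓝 ((LE N).symm x)) := (LE N).symm.continuous.tendsto x
      filter_upwards [h3.eventually hv'] with y hy hyX
      obtain ⟨h4, h5⟩ := (mem_coneE hP).1 hyX
      rw [sub_mem_iff, uV_eq Λ u h4]
      exact hy h4 h5

theorem discreteSub_of (Λ : AddSubgroup (Fin g → ℂ)) [DiscreteTopology Λ] : DiscreteSub Λ := by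
  have h1 : ({0} : Set Λ) ∈ 𝓝 (0 : Λ) := by
    rw [nhds_discrete]
    exact Set.mem_singleton 0
  obtain ⟨δ, hδ, h⟩ := Metric.mem_nhds_iff.1 h1
  refine ⟨δ, hδ, fun l hl hn => ?_⟩
  have h2 : (⟨l, hl⟩ : Λ) ∈ ball (0 : Λ) δ := by
    rw [mem_ball, Subtype.dist_eq]
    simpa [dist_eq_norm] using hn
  have h3 := h h2
  rw [Set.mem_singleton_iff] at h3
  exact congrArg Subtype.val h3

/-- **The pseudo-length of a holomorphic map to a torus.** -/
theorem exists_torusLength {d : ℕ} (hP : Homog P) (hch : Charts d (coneE P)) {Λ : AddSubgroup (Fin g → ℂ)} [DiscreteTopology Λ]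
    {u : PN N → (Fin g → ℂ) ⧸ Λ} (hu : IsHolomorphicTorusMap (projVar P) Λ u) :
    ∃ n : PseudoLength (coneE P), ∀ f : ℂ → PN N, (∀ z, f z ∈ projVar P) → IsNull n f → ∀ z w, u (f z) = u (f w) := by
  have hX := isCone_coneE hP
  have hΛ := discreteSub_of Λ
  have hT := torusMapV hP hu
  refine ⟨symLength hX hch (m := fun _ : Fin g => 1) (fun _ => le_rfl) (fun j => hT.symDiff hΛ hX j), fun f hfX hnull z w => ?_⟩
  obtain ⟨F, hF, h0⟩ := hnull
  have hFX : ∀ z, F z ∈ coneE P := fun z => (hF.mem_iff hP z).1 (hfX z)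
  have h1 : ∀ z, hT.du (F z) (deriv F z) = 0 := fun z => by
    funext j
    exact (symLength_zero hX hch (fun _ => le_rfl) (fun j => hT.symDiff hΛ hX j)).1 (h0 z) j
  have h2 := hT.fibre_of_du hΛ hF.1 hFX h1 z w
  have hne : ∀ z, (LE N).symm (F z) ≠ 0 := fun z => (hFX z).1
  rw [sub_mem_iff, uV_eq Λ u (hne z), uV_eq Λ u (hne w)] at h2
  obtain ⟨h3, h3'⟩ := hF.2 z
  obtain ⟨h4, h4'⟩ := hF.2 w
  rw [h3', h4']
  exact h2

/-- **The pseudo-length of a family of symmetric differentials.** -/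
theorem exists_symLength {d : ℕ} (hP : Homog P) (hch : Charts d (coneE P)) {k : ℕ} {m : Fin k → ℕ} (hm : ∀ j, 1 ≤ m j)
    (θ : ∀ j, SymDiff (coneE P) (m j)) :
    ∃ n : PseudoLength (coneE P), ∀ f : ℂ → PN N, IsNull n f → ∀ j, TangentTo (θ j) f := by
  have hX := isCone_coneE hP
  refine ⟨symLength hX hch hm θ, fun f hnull j => ?_⟩
  obtain ⟨F, hF, h0⟩ := hnull
  exact ⟨F, hF, fun z => (symLength_zero hX hch hm θ).1 (h0 z) j⟩

end Pool.Agent.AD

end
end

section

/-!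
# AD T NullB: pseudo-lengths for null classes, curves with bounded distortion, hyperbolicity for tori without elliptic curves
-/

open MvPolynomial
open Pool.Agent.H17 (PN VanishesAt ZariskiClosedIn HolomorphicInto puncturedDisc)
open Pool.Agent.H62.FC (Homog)
open Pool.Agent.H17LG.Variety (FunField)
open Pool.Agent.H13.SM (conTan)
open Pool.Agent.H17EF (projVar coneE)
open Pool.Agent.H22.W (PseudoLength)
open Pool.Agent.H14.V (boundedDistortion DoublyPeriodic Degenerate IsNull)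

noncomputable section

namespace Pool.Agent.AD

variable {N n : ℕ} {P : Ideal (MvPolynomial (Fin (N + 1)) ℂ)} [P.IsPrime]

/-- a pseudo-length with smaller null class -/
theorem exists_length (hP : Homog P) {z : Fin n → FunField P} (hz : IsTranscendenceBasis ℂ z)
    (hsmooth : ∀ x : Fin (N + 1) → ℂ, x ≠ 0 → (∀ Q ∈ P, eval x Q = 0) → Module.finrank ℂ (conTan P x) ≤ n + 1)
    {A : Set (ℂ → PN N)} (hA : NullClass P A) :
    ∃ ν : PseudoLength (coneE P), ∀ f : ℂ → PN N, (∀ z, f z ∈ projVar P) → IsNull ν f → f ∈ A := by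
  have hch := charts_coneE hP hz hsmooth
  cases hA with
  | length ν => exact ⟨ν, fun f _ hf => hf⟩
  | differentials k m hm θ =>
    obtain ⟨ν, hν⟩ := exists_symLength hP hch hm θ
    exact ⟨ν, fun f _ hf => hν f hf⟩
  | torus g Λ hΛ u hu => exact exists_torusLength hP hch hu

end Pool.Agent.AD

end
end
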