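import Pool.Agent.H94.G6.M34
import Pool.Agent.H94.G6.M54
import Pool.Agent.H94.G6.M62
import Pool.Agent.H94.G6.M63

/-! The parts of this file: MQ2.RegE, MQ2.TTrA, MQ3.SecMul, MQ3.WebR_1, MQ3.WBx_1. -/

section

/-!
# MQ2 RegE: the field at regular points

`g` is a reduced equation of a curve which is invariant under `v`: `dg (v) = c g`.  Along a curve `p' = ζ' v (p)` this is `(g ∘ p)' = ζ' c g (p)`; so `g (p z) ≠ 0`
where `v (p z) ≠ 0`, if `g ∘ p` is not `0`, and `DD = (div v - c) ζ'`.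
-/

set_option autoImplicit false

open Topology Filter Metric MeasureTheory Asymptotics Laplacian

noncomputable section

namespace Pool.Agent.MQ2

open Pool.Agent.H36.BP (EN)
open Pool.Agent.H30M (tau LogSing)
open Pool.Agent.MQ

namespace RegE

/-- `y' = h y` and `y z = 0` give `y = 0` near `z` -/
theorem eventually_zero_of_ode {y h : ℂ → ℂ} {z : ℂ} (hy : AnalyticAt ℂ y z) (hh : AnalyticAt ℂ h z)
    (hd : ∀ᶠ w in 𝓝 z, deriv y w = h w * y w) (h0 : y z = 0) : ∀ᶠ w in 𝓝 z, y w = 0 := by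
  have h1 := hy.analyticOrderAt_deriv_add_one
  have h2 : (fun w => y w - y z) = y := by
    funext w
    rw [h0, sub_zero]
  rw [h2, analyticOrderAt_congr (f := deriv y) (g := fun w => h w * y w) hd] at h1
  have h3 : analyticOrderAt (fun w => h w * y w) z = analyticOrderAt h z + analyticOrderAt y z := analyticOrderAt_mul hh hy
  rw [h3] at h1
  rw [← analyticOrderAt_eq_top]
  by_contra h4
  obtain ⟨n, hn⟩ := ENat.ne_top_iff_exists.1 h4
  rw [← hn] at h1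
  have h5 : ((n : ℕ∞)) + 1 ≤ n := by
    calc ((n : ℕ∞)) + 1 ≤ analyticOrderAt h z + n + 1 := by gcongr; exact le_add_self
      _ = n := h1
  have h6 : ((n + 1 : ℕ) : ℕ∞) ≤ (n : ℕ) := by exact_mod_cast h5
  have h7 : n + 1 ≤ n := by exact_mod_cast h6
  omega

/-- what holds on a small closed polydisc -/
structure Reg (v : ℂ × ℂ → ℂ × ℂ) (g c : ℂ × ℂ → ℂ) (r : ℝ) : Prop where
  van : ∀ q ∈ closedBall (0 : ℂ × ℂ) r, AnalyticAt ℂ v q
  gan : ∀ q ∈ closedBall (0 : ℂ × ℂ) r, AnalyticAt ℂ g q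
  can : ∀ q ∈ closedBall (0 : ℂ × ℂ) r, AnalyticAt ℂ c q
  iso : ∀ q ∈ closedBall (0 : ℂ × ℂ) r, q ≠ 0 → v q ≠ 0
  cof : ∀ q ∈ closedBall (0 : ℂ × ℂ) r, fderiv ℂ g q (v q) = c q * g q

theorem exists_reg {v : ℂ × ℂ → ℂ × ℂ} {g : ℂ × ℂ → ℂ} (hv : AnalyticAt ℂ v 0) (hiso : ∀ᶠ p in 𝓝 (0 : ℂ × ℂ), p ≠ 0 → v p ≠ 0) (hg : Wt v g) :
    ∃ c : ℂ × ℂ → ℂ, ∀ᶠ r in 𝓝[>] (0 : ℝ), Reg v g c r := by
  obtain ⟨c, hc, hcof⟩ := hg.cof
  refine ⟨c, ?_⟩
  have h1 : ∀ᶠ q in 𝓝 (0 : ℂ × ℂ), AnalyticAt ℂ v q ∧ AnalyticAt ℂ g q ∧ AnalyticAt ℂ c q ∧ (q ≠ 0 → v q ≠ 0) ∧ fderiv ℂ g q (v q) = c q * g q := by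
    filter_upwards [hv.eventually_analyticAt, hg.an.eventually_analyticAt, hc.eventually_analyticAt, hiso, hcof] with q a1 a2 a3 a4 a5
    exact ⟨a1, a2, a3, a4, a5⟩
  obtain ⟨ε, hε, hε'⟩ := Metric.eventually_nhds_iff_ball.1 h1
  filter_upwards [Ioo_mem_nhdsGT hε] with r hr
  have h2 : ∀ q ∈ closedBall (0 : ℂ × ℂ) r, q ∈ ball (0 : ℂ × ℂ) ε := fun q hq => closedBall_subset_ball hr.2 hq
  exact ⟨fun q hq => (hε' q (h2 q hq)).1, fun q hq => (hε' q (h2 q hq)).2.1, fun q hq => (hε' q (h2 q hq)).2.2.1,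
    fun q hq => (hε' q (h2 q hq)).2.2.2.1, fun q hq => (hε' q (h2 q hq)).2.2.2.2⟩

variable {v : ℂ × ℂ → ℂ × ℂ} {g c : ℂ × ℂ → ℂ} {r : ℝ} {Om : Set ℂ} {p : ℂ → ℂ × ℂ}

/-- `p' = ζ' v (p)` -/
theorem deriv_eq (hp : Crv1 v r Om p) {z : ℂ} (hz : z ∈ Om) (hv : v (p z) ≠ 0) : deriv p z = ztv v p z • v (p z) :=
  Prod.ext (by rw [Prod.smul_fst, smul_eq_mul]; exact hp.deriv_fst hz hv) (by rw [Prod.smul_snd, smul_eq_mul]; exact hp.deriv_snd hz hv)

theorem ev_v_ne (h : Reg v g c r) (hp : Crv1 v r Om p) {z : ℂ} (hz : z ∈ Om) (hv : v (p z) ≠ 0) : ∀ᶠ w in 𝓝 z, w ∈ Om ∧ v (p w) ≠ 0 := by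
  have h1 : ContinuousAt (fun w => v (p w)) z :=
    ContinuousAt.comp (f := p) (g := v) (h.van _ (ball_subset_closedBall (hp.mem z hz))).continuousAt (hp.an z hz).continuousAt
  exact (hp.isOpen.eventually_mem hz).and (h1.eventually_ne hv)

theorem deriv_g (h : Reg v g c r) (hp : Crv1 v r Om p) {z : ℂ} (hz : z ∈ Om) (hv : v (p z) ≠ 0) :
    deriv (fun w => g (p w)) z = ztv v p z * c (p z) * g (p z) := by
  have hb := ball_subset_closedBall (hp.mem z hz)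
  have h1 : HasDerivAt (fun w => g (p w)) (fderiv ℂ g (p z) (deriv p z)) z :=
    (h.gan _ hb).differentiableAt.hasFDerivAt.comp_hasDerivAt z (hp.an z hz).differentiableAt.hasDerivAt
  rw [h1.deriv, deriv_eq hp hz hv, map_smul, h.cof _ hb, smul_eq_mul, mul_assoc]

theorem g_ne (h : Reg v g c r) (hp : Crv1 v r Om p) (hf : ∀ z ∈ Om, ∃ᶠ w in 𝓝 z, g (p w) ≠ 0) {z : ℂ} (hz : z ∈ Om) (hv : v (p z) ≠ 0) :
    g (p z) ≠ 0 := by
  intro h0
  have hb := ball_subset_closedBall (hp.mem z hz)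
  have hga : AnalyticAt ℂ (fun w => g (p w)) z := (h.gan _ hb).comp (hp.an z hz)
  have hca : AnalyticAt ℂ (fun w => c (p w)) z := (h.can _ hb).comp (hp.an z hz)
  have hzt := hp.an_ztv hz (h.van _ hb) hv
  have h1 : ∀ᶠ w in 𝓝 z, g (p w) = 0 := by
    refine eventually_zero_of_ode hga (hzt.mul hca) ?_ h0
    filter_upwards [ev_v_ne h hp hz hv] with w hw
    exact deriv_g h hp hw.1 hw.2
  obtain ⟨w, hw1, hw2⟩ := ((hf z hz).and_eventually h1).exists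
  exact hw1 hw2

theorem DD_eq (h : Reg v g c r) (hp : Crv1 v r Om p) (hf : ∀ z ∈ Om, ∃ᶠ w in 𝓝 z, g (p w) ≠ 0) {z : ℂ} (hz : z ∈ Om) (hv : v (p z) ≠ 0) :
    DDv v g p z = (dvg v (p z) - c (p z)) * ztv v p z := by
  rw [DDv, deriv_g h hp hz hv, mul_div_assoc, div_self (g_ne h hp hf hz hv)]
  ring

theorem dvg_an (h : Reg v g c r) {q : ℂ × ℂ} (hq : q ∈ closedBall (0 : ℂ × ℂ) r) : AnalyticAt ℂ (fun q => dvg v q - c q) q := by
  have h1 : AnalyticAt ℂ (fderiv ℂ v) q := (h.van q hq).fderiv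
  have h2 : AnalyticAt ℂ (fun q => (fderiv ℂ v q (1, 0)).1) q := analyticAt_fst.comp (((ContinuousLinearMap.apply ℂ (ℂ × ℂ) ((1, 0) : ℂ × ℂ)).analyticAt _).comp h1)
  have h3 : AnalyticAt ℂ (fun q => (fderiv ℂ v q (0, 1)).2) q := analyticAt_snd.comp (((ContinuousLinearMap.apply ℂ (ℂ × ℂ) ((0, 1) : ℂ × ℂ)).analyticAt _).comp h1)
  exact (h2.add h3).sub (h.can q hq)

end RegE

open RegE in
/-- the field in the form `(div v - c) ζ'`, analytic where `v ≠ 0` -/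
theorem DD_cof {v : ℂ × ℂ → ℂ × ℂ} {g : ℂ × ℂ → ℂ} (hv : AnalyticAt ℂ v 0) (hiso : ∀ᶠ p in 𝓝 (0 : ℂ × ℂ), p ≠ 0 → v p ≠ 0) (hg : Wt v g) :
    ∀ᶠ r in 𝓝[>] (0 : ℝ), ∃ h : ℂ × ℂ → ℂ, AnalyticOnNhd ℂ h (closedBall 0 r) ∧ ∀ (Om : Set ℂ) (p : ℂ → ℂ × ℂ), Crv1 v r Om p →
      (∀ z ∈ Om, ∃ᶠ w in 𝓝 z, g (p w) ≠ 0) → ∀ z ∈ Om, v (p z) ≠ 0 → g (p z) ≠ 0 ∧ AnalyticAt ℂ (ztv v p) z ∧
        ∀ᶠ w in 𝓝 z, DDv v g p w = h (p w) * ztv v p w := by
  obtain ⟨c, hc⟩ := exists_reg hv hiso hg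
  filter_upwards [hc] with r h
  refine ⟨fun q => dvg v q - c q, fun q hq => dvg_an h hq, fun Om p hp hf z hz hvz => ⟨g_ne h hp hf hz hvz,
    hp.an_ztv hz (h.van _ (ball_subset_closedBall (hp.mem z hz))) hvz, ?_⟩⟩
  filter_upwards [ev_v_ne h hp hz hvz] with w hw
  exact DD_eq h hp hf hw.1 hw.2

open RegE in
/-- off the center everything is bounded -/
theorem DD_bound {v : ℂ × ℂ → ℂ × ℂ} {g : ℂ × ℂ → ℂ} (hv : AnalyticAt ℂ v 0) (hiso : ∀ᶠ p in 𝓝 (0 : ℂ × ℂ), p ≠ 0 → v p ≠ 0) (hg : Wt v g) :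
    ∀ᶠ r in 𝓝[>] (0 : ℝ), ∀ s, 0 < s ∨ v 0 ≠ 0 → ∃ C : ℝ, 0 < C ∧ ∀ (Om : Set ℂ) (p : ℂ → ℂ × ℂ), Crv1 v r Om p →
      (∀ z ∈ Om, ∃ᶠ w in 𝓝 z, g (p w) ≠ 0) → ∀ z ∈ Om, p z ∉ ball (0 : ℂ × ℂ) s → ‖ztv v p z‖ ≤ C * ‖deriv p z‖ ∧ ‖DDv v g p z‖ ≤ C * ‖deriv p z‖ := by
  obtain ⟨c, hc⟩ := exists_reg hv hiso hg
  filter_upwards [hc] with r h s hs
  have hcp : IsCompact (closedBall (0 : ℂ × ℂ) r ∩ (ball (0 : ℂ × ℂ) s)ᶜ) := (isCompact_closedBall _ _).inter_right isOpen_ball.isClosed_compl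
  have hv0 : ∀ q ∈ closedBall (0 : ℂ × ℂ) r ∩ (ball (0 : ℂ × ℂ) s)ᶜ, v q ≠ 0 := by
    intro q hq
    by_cases hq0 : q = 0
    · rcases hs with hs | hs
      · rw [hq0] at hq
        exact absurd (mem_ball_self hs) hq.2
      · rw [hq0]
        exact hs
    · exact h.iso q hq.1 hq0
  obtain ⟨C₁, hC₁⟩ : ∃ C₁ : ℝ, ∀ q ∈ closedBall (0 : ℂ × ℂ) r ∩ (ball (0 : ℂ × ℂ) s)ᶜ, ‖dvg v q - c q‖ ≤ C₁ :=
    hcp.exists_bound_of_continuousOn fun q hq => (dvg_an h hq.1).continuousAt.continuousWithinAt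
  obtain ⟨m, hm0, hm⟩ : ∃ m : ℝ, 0 < m ∧ ∀ q ∈ closedBall (0 : ℂ × ℂ) r ∩ (ball (0 : ℂ × ℂ) s)ᶜ, m ≤ ‖v q‖ := by
    rcases (closedBall (0 : ℂ × ℂ) r ∩ (ball (0 : ℂ × ℂ) s)ᶜ).eq_empty_or_nonempty with he | hne
    · refine ⟨1, one_pos, fun q hq => ?_⟩
      rw [he] at hq
      exact hq.elim
    · obtain ⟨q, hq, hmin⟩ := hcp.exists_isMinOn hne (f := fun q => ‖v q‖) (fun q hq => (h.van q hq.1).continuousAt.norm.continuousWithinAt)
      exact ⟨‖v q‖, norm_pos_iff.2 (hv0 q hq), fun q hq => hmin hq⟩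
  refine ⟨(|C₁| + 1) / m, by positivity, fun Om p hp hf z hz hpz => ?_⟩
  have hS : p z ∈ closedBall (0 : ℂ × ℂ) r ∩ (ball (0 : ℂ × ℂ) s)ᶜ := ⟨ball_subset_closedBall (hp.mem z hz), hpz⟩
  have h1 : ‖ztv v p z‖ ≤ ‖deriv p z‖ / m := by
    rw [le_div_iff₀ hm0, deriv_eq hp hz (hv0 _ hS), norm_smul]
    exact mul_le_mul_of_nonneg_left (hm _ hS) (norm_nonneg _)
  have h2 : ‖dvg v (p z) - c (p z)‖ ≤ |C₁| + 1 := (hC₁ _ hS).trans ((le_abs_self _).trans (by linarith))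
  constructor
  · calc ‖ztv v p z‖ ≤ ‖deriv p z‖ / m := h1
      _ = 1 / m * ‖deriv p z‖ := by ring
      _ ≤ (|C₁| + 1) / m * ‖deriv p z‖ := by
        gcongr
        linarith [abs_nonneg C₁]
  · rw [DD_eq h hp hf hz (hv0 _ hS), norm_mul]
    calc ‖dvg v (p z) - c (p z)‖ * ‖ztv v p z‖ ≤ (|C₁| + 1) * (‖deriv p z‖ / m) := mul_le_mul h2 h1 (norm_nonneg _) (by positivity)
      _ = (|C₁| + 1) / m * ‖deriv p z‖ := by ring

end Pool.Agent.MQ2

end
end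

section

/-!
# MQ2 TTrA: the field in other coordinates
-/

set_option autoImplicit false

open Topology Filter Metric

noncomputable section

namespace Pool.Agent.MQ2

open Pool.Agent.MQ

namespace TTr

/-- the Jacobian determinant -/
def Dt (θ : ℂ × ℂ → ℂ × ℂ) (q : ℂ × ℂ) : ℂ :=
  (fderiv ℂ θ q (1, 0)).1 * (fderiv ℂ θ q (0, 1)).2 - (fderiv ℂ θ q (0, 1)).1 * (fderiv ℂ θ q (1, 0)).2

theorem clm_apply (A : ℂ × ℂ →L[ℂ] ℂ × ℂ) (w : ℂ × ℂ) : A w = w.1 • A (1, 0) + w.2 • A (0, 1) := by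
  rw [← map_smul, ← map_smul, ← map_add]
  congr 1
  ext <;> simp

theorem hasFDerivAt_Dt {θ : ℂ × ℂ → ℂ × ℂ} {q : ℂ × ℂ} (hθ : AnalyticAt ℂ θ q) (w : ℂ × ℂ) :
    fderiv ℂ (Dt θ) q w = (fderiv ℂ (fderiv ℂ θ) q w (1, 0)).1 * (fderiv ℂ θ q (0, 1)).2 + (fderiv ℂ θ q (1, 0)).1 * (fderiv ℂ (fderiv ℂ θ) q w (0, 1)).2 -
      ((fderiv ℂ (fderiv ℂ θ) q w (0, 1)).1 * (fderiv ℂ θ q (1, 0)).2 + (fderiv ℂ θ q (0, 1)).1 * (fderiv ℂ (fderiv ℂ θ) q w (1, 0)).2) := by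
  have hA : HasFDerivAt (fderiv ℂ θ) (fderiv ℂ (fderiv ℂ θ) q) q := hθ.fderiv.differentiableAt.hasFDerivAt
  have h1 : ∀ e : ℂ × ℂ, HasFDerivAt (fun q => fderiv ℂ θ q e) ((ContinuousLinearMap.apply ℂ (ℂ × ℂ) e).comp (fderiv ℂ (fderiv ℂ θ) q)) q := fun e =>
    (ContinuousLinearMap.apply ℂ (ℂ × ℂ) e).hasFDerivAt.comp q hA
  have hf : ∀ e : ℂ × ℂ, HasFDerivAt (fun q => (fderiv ℂ θ q e).1)
      ((ContinuousLinearMap.fst ℂ ℂ ℂ).comp ((ContinuousLinearMap.apply ℂ (ℂ × ℂ) e).comp (fderiv ℂ (fderiv ℂ θ) q))) q := fun e =>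
    (ContinuousLinearMap.fst ℂ ℂ ℂ).hasFDerivAt.comp q (h1 e)
  have hs : ∀ e : ℂ × ℂ, HasFDerivAt (fun q => (fderiv ℂ θ q e).2)
      ((ContinuousLinearMap.snd ℂ ℂ ℂ).comp ((ContinuousLinearMap.apply ℂ (ℂ × ℂ) e).comp (fderiv ℂ (fderiv ℂ θ) q))) q := fun e =>
    (ContinuousLinearMap.snd ℂ ℂ ℂ).hasFDerivAt.comp q (h1 e)
  have h2 := ((hf (1, 0)).mul (hs (0, 1))).sub ((hf (0, 1)).mul (hs (1, 0)))
  have h3 : HasFDerivAt (Dt θ) _ q := h2
  rw [h3.fderiv]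
  simp
  ring

theorem analyticAt_Dt {θ : ℂ × ℂ → ℂ × ℂ} {q : ℂ × ℂ} (hθ : AnalyticAt ℂ θ q) : AnalyticAt ℂ (Dt θ) q := by
  have h1 : ∀ e : ℂ × ℂ, AnalyticAt ℂ (fun q => fderiv ℂ θ q e) q := fun e => ((ContinuousLinearMap.apply ℂ (ℂ × ℂ) e).analyticAt _).comp hθ.fderiv
  exact ((analyticAt_fst.comp (h1 (1, 0))).mul (analyticAt_snd.comp (h1 (0, 1)))).sub ((analyticAt_fst.comp (h1 (0, 1))).mul (analyticAt_snd.comp (h1 (1, 0))))

/-- **the divergence in other coordinates** -/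
theorem dvg_tr {θ v V : ℂ × ℂ → ℂ × ℂ} {q : ℂ × ℂ} (hθ : AnalyticAt ℂ θ q) (hv : AnalyticAt ℂ v q) (hV : AnalyticAt ℂ V (θ q))
    (h : ∀ᶠ w in 𝓝 q, V (θ w) = fderiv ℂ θ w (v w)) : dvg V (θ q) * Dt θ q = dvg v q * Dt θ q + fderiv ℂ (Dt θ) q (v q) := by
  have hA : HasFDerivAt (fderiv ℂ θ) (fderiv ℂ (fderiv ℂ θ) q) q := hθ.fderiv.differentiableAt.hasFDerivAt
  have hsym : ∀ x y, fderiv ℂ (fderiv ℂ θ) q x y = fderiv ℂ (fderiv ℂ θ) q y x := by
    have h0 : ContDiffAt ℂ ⊤ θ q := hθ.contDiffAt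
    have h1 : IsSymmSndFDerivAt ℂ θ q := h0.isSymmSndFDerivAt (by simp)
    exact fun x y => h1 x y
  have h1 : HasFDerivAt (fun w => V (θ w)) ((fderiv ℂ V (θ q)).comp (fderiv ℂ θ q)) q :=
    hV.differentiableAt.hasFDerivAt.comp q hθ.differentiableAt.hasFDerivAt
  have h2 := hA.clm_apply hv.differentiableAt.hasFDerivAt
  have h3 := h1.unique (h2.congr_of_eventuallyEq h)
  have e1 := congrArg (fun T : ℂ × ℂ →L[ℂ] ℂ × ℂ => T (1, 0)) h3
  have e2 := congrArg (fun T : ℂ × ℂ →L[ℂ] ℂ × ℂ => T (0, 1)) h3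
  simp only [ContinuousLinearMap.coe_comp, Function.comp_apply, add_apply, ContinuousLinearMap.flip_apply] at e1 e2
  rw [clm_apply (fderiv ℂ V (θ q)) (fderiv ℂ θ q (1, 0)), clm_apply (fderiv ℂ θ q) (fderiv ℂ v q (1, 0)), hsym (1, 0) (v q)] at e1
  rw [clm_apply (fderiv ℂ V (θ q)) (fderiv ℂ θ q (0, 1)), clm_apply (fderiv ℂ θ q) (fderiv ℂ v q (0, 1)), hsym (0, 1) (v q)] at e2
  have e11 := congrArg Prod.fst e1
  have e12 := congrArg Prod.snd e1
  have e21 := congrArg Prod.fst e2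
  have e22 := congrArg Prod.snd e2
  simp only [Prod.fst_add, Prod.snd_add, Prod.smul_fst, Prod.smul_snd, smul_eq_mul] at e11 e12 e21 e22
  rw [hasFDerivAt_Dt hθ]
  unfold dvg Dt
  linear_combination (fderiv ℂ θ q (0, 1)).2 * e11 - (fderiv ℂ θ q (1, 0)).2 * e21 + (fderiv ℂ θ q (1, 0)).1 * e22 - (fderiv ℂ θ q (0, 1)).1 * e12

/-- `V ≠ 0` where `v ≠ 0` -/
theorem V_ne {θ v V : ℂ × ℂ → ℂ × ℂ} {q : ℂ × ℂ} (hD : Dt θ q ≠ 0) (h : V (θ q) = fderiv ℂ θ q (v q)) (hv : v q ≠ 0) : V (θ q) ≠ 0 := by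
  intro h0
  rw [h, clm_apply] at h0
  have h1 := congrArg Prod.fst h0
  have h2 := congrArg Prod.snd h0
  simp only [Prod.fst_add, Prod.snd_add, Prod.smul_fst, Prod.smul_snd, smul_eq_mul, Prod.fst_zero, Prod.snd_zero] at h1 h2
  unfold Dt at hD
  have h3 : (v q).1 * ((fderiv ℂ θ q (1, 0)).1 * (fderiv ℂ θ q (0, 1)).2 - (fderiv ℂ θ q (0, 1)).1 * (fderiv ℂ θ q (1, 0)).2) = 0 := by
    linear_combination (fderiv ℂ θ q (0, 1)).2 * h1 - (fderiv ℂ θ q (0, 1)).1 * h2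
  have h4 : (v q).2 * ((fderiv ℂ θ q (1, 0)).1 * (fderiv ℂ θ q (0, 1)).2 - (fderiv ℂ θ q (0, 1)).1 * (fderiv ℂ θ q (1, 0)).2) = 0 := by
    linear_combination (fderiv ℂ θ q (1, 0)).1 * h2 - (fderiv ℂ θ q (1, 0)).2 * h1
  exact hv (Prod.ext ((mul_eq_zero.1 h3).resolve_right hD) ((mul_eq_zero.1 h4).resolve_right hD))

/-- what holds at the points of a small closed polydisc; `ϑ` is the inverse of `θ` -/
structure Pt (θ ϑ v V : ℂ × ℂ → ℂ × ℂ) (g G J K u κ : ℂ × ℂ → ℂ) (q : ℂ × ℂ) : Prop where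
  θan : AnalyticAt ℂ θ q
  inv : ∀ᶠ w in 𝓝 q, ϑ (θ w) = w
  ϑan : AnalyticAt ℂ ϑ (θ q)
  D_ne : Dt θ q ≠ 0
  van : AnalyticAt ℂ v q
  Van : AnalyticAt ℂ V (θ q)
  push : ∀ᶠ w in 𝓝 q, V (θ w) = fderiv ℂ θ w (v w)
  gan : AnalyticAt ℂ g q
  Gan : AnalyticAt ℂ G (θ q)
  uan : AnalyticAt ℂ u q
  u_ne : u q ≠ 0
  g_eq : ∀ᶠ w in 𝓝 q, g w = G (θ w) * u w
  Jan : AnalyticAt ℂ J q
  κan : AnalyticAt ℂ κ q
  J_eq : J q = K (θ q) * κ q

/-- the inverse is a local diffeomorphism: the determinant is not zero -/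
theorem Dt_ne {θ ϑ : ℂ × ℂ → ℂ × ℂ} {q : ℂ × ℂ} (hθ : AnalyticAt ℂ θ q) (hϑ : AnalyticAt ℂ ϑ (θ q)) (h : ∀ᶠ w in 𝓝 q, ϑ (θ w) = w) : Dt θ q ≠ 0 := by
  have h1 : HasFDerivAt (fun w => ϑ (θ w)) ((fderiv ℂ ϑ (θ q)).comp (fderiv ℂ θ q)) q :=
    hϑ.differentiableAt.hasFDerivAt.comp q hθ.differentiableAt.hasFDerivAt
  have h2 : HasFDerivAt (fun w => ϑ (θ w)) (ContinuousLinearMap.id ℂ (ℂ × ℂ)) q := (hasFDerivAt_id q).congr_of_eventuallyEq h
  have h3 := h1.unique h2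
  intro h0
  have key : ∀ w, fderiv ℂ θ q w = 0 → w = 0 := by
    intro w hw
    have := congrArg (fun T : ℂ × ℂ →L[ℂ] ℂ × ℂ => T w) h3
    simp only [ContinuousLinearMap.coe_comp, Function.comp_apply, hw, map_zero, ContinuousLinearMap.id_apply] at this
    exact this.symm
  unfold Dt at h0
  by_cases h4 : (fderiv ℂ θ q (0, 1)).2 = 0 ∧ (fderiv ℂ θ q (1, 0)).2 = 0
  · -- second components vanish
    have h5 : fderiv ℂ θ q ((fderiv ℂ θ q (0, 1)).1, -(fderiv ℂ θ q (1, 0)).1) = 0 := by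
      rw [clm_apply]
      ext
      · simp only [Prod.fst_add, Prod.smul_fst, smul_eq_mul, Prod.fst_zero]
        ring
      · simp only [Prod.snd_add, Prod.smul_snd, smul_eq_mul, Prod.snd_zero, h4.1, h4.2]
        ring
    have h6 := key _ h5
    have h6' : (fderiv ℂ θ q (0, 1)).1 = 0 := congrArg Prod.fst h6
    have h7 : fderiv ℂ θ q (0, 1) = 0 := Prod.ext h6' h4.1
    have h8 := key _ h7
    simp at h8
  · have h5 : fderiv ℂ θ q ((fderiv ℂ θ q (0, 1)).2, -(fderiv ℂ θ q (1, 0)).2) = 0 := by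
      rw [clm_apply]
      ext
      · simp only [Prod.fst_add, Prod.smul_fst, smul_eq_mul, Prod.fst_zero]
        linear_combination h0
      · simp only [Prod.snd_add, Prod.smul_snd, smul_eq_mul, Prod.snd_zero]
        ring
    have h6 := key _ h5
    have h6' : (fderiv ℂ θ q (0, 1)).2 = 0 := congrArg Prod.fst h6
    have h6'' : -(fderiv ℂ θ q (1, 0)).2 = 0 := congrArg Prod.snd h6
    exact h4 ⟨h6', neg_eq_zero.1 h6''⟩

variable {θ ϑ v V : ℂ × ℂ → ℂ × ℂ} {g G J K u κ : ℂ × ℂ → ℂ} {r R : ℝ} {Om Om' : Set ℂ} {p : ℂ → ℂ × ℂ}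

theorem deriv_θp {z : ℂ} (hθ : AnalyticAt ℂ θ (p z)) (hp : AnalyticAt ℂ p z) : deriv (fun w => θ (p w)) z = fderiv ℂ θ (p z) (deriv p z) :=
  (hθ.differentiableAt.hasFDerivAt.comp_hasDerivAt z hp.differentiableAt.hasDerivAt).deriv

/-- the parameter `ζ'` is the same -/
theorem ztv_tr {z : ℂ} (hq : Pt θ ϑ v V g G J K u κ (p z)) (hp : Crv1 v r Om p) (hP : Crv1 V R Om' fun w => θ (p w)) (hz : z ∈ Om) (hz' : z ∈ Om')
    (hv : v (p z) ≠ 0) : ztv V (fun w => θ (p w)) z = ztv v p z := by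
  have h1 := hq.push.self_of_nhds
  have hV := V_ne hq.D_ne h1 hv
  have h2 := RegE.deriv_eq hP hz' hV
  have h3 : deriv (fun w => θ (p w)) z = ztv v p z • V (θ (p z)) := by
    rw [deriv_θp hq.θan (hp.an z hz), RegE.deriv_eq hp hz hv, map_smul, h1]
  rw [h2] at h3
  exact smul_left_injective ℂ hV h3

/-- the difference of the fields -/
def hh (θ : ℂ × ℂ → ℂ × ℂ) (u : ℂ × ℂ → ℂ) (p : ℂ → ℂ × ℂ) (z : ℂ) : ℂ :=
  deriv (fun w => Dt θ (p w)) z / Dt θ (p z) + deriv (fun w => u (p w)) z / u (p z)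

theorem analyticAt_hh {z : ℂ} (hq : Pt θ ϑ v V g G J K u κ (p z)) (hp : AnalyticAt ℂ p z) : AnalyticAt ℂ (hh θ u p) z := by
  have h1 : AnalyticAt ℂ (fun w => Dt θ (p w)) z := (analyticAt_Dt hq.θan).comp hp
  have h2 : AnalyticAt ℂ (fun w => u (p w)) z := hq.uan.comp hp
  exact (h1.deriv.div h1 hq.D_ne).add (h2.deriv.div h2 hq.u_ne)

/-- **the field in other coordinates** -/
theorem DDv_tr {z : ℂ} (hq : Pt θ ϑ v V g G J K u κ (p z)) (hp : Crv1 v r Om p) (hP : Crv1 V R Om' fun w => θ (p w)) (hz : z ∈ Om) (hz' : z ∈ Om')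
    (hv : v (p z) ≠ 0) (hg : g (p z) ≠ 0) : DDv V G (fun w => θ (p w)) z = DDv v g p z + hh θ u p z := by
  have hpz := hp.an z hz
  have hD : HasDerivAt (fun w => Dt θ (p w)) (fderiv ℂ (Dt θ) (p z) (deriv p z)) z :=
    (analyticAt_Dt hq.θan).differentiableAt.hasFDerivAt.comp_hasDerivAt z hpz.differentiableAt.hasDerivAt
  have h1 := dvg_tr hq.θan hq.van hq.Van hq.push
  have h2 := RegE.deriv_eq hp hz hv
  have hθp : AnalyticAt ℂ (fun w => θ (p w)) z := hq.θan.comp hpz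
  have hGp : AnalyticAt ℂ (fun w => G (θ (p w))) z := AnalyticAt.comp (f := fun w => θ (p w)) hq.Gan hθp
  have hup : AnalyticAt ℂ (fun w => u (p w)) z := hq.uan.comp hpz
  have e1 : (fun w => g (p w)) =ᶠ[𝓝 z] fun w => G (θ (p w)) * u (p w) := hpz.continuousAt.eventually hq.g_eq
  have e2 : g (p z) = G (θ (p z)) * u (p z) := e1.self_of_nhds
  have hG : G (θ (p z)) ≠ 0 := fun h0 => hg (by rw [e2, h0, zero_mul])
  have hDer : deriv (fun w => g (p w)) z = deriv (fun w => G (θ (p w))) z * u (p z) + G (θ (p z)) * deriv (fun w => u (p w)) z := by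
    rw [e1.deriv_eq]
    exact (hGp.differentiableAt.hasDerivAt.mul hup.differentiableAt.hasDerivAt).deriv
  unfold DDv hh
  rw [ztv_tr hq hp hP hz hz' hv, hDer, e2, hD.deriv, h2, map_smul, smul_eq_mul]
  have hDn := hq.D_ne
  have hun := hq.u_ne
  have h3 : fderiv ℂ (Dt θ) (p z) (v (p z)) = (dvg V (θ (p z)) - dvg v (p z)) * Dt θ (p z) := by linear_combination -h1
  rw [h3]
  field_simp
  ring

end TTr

end Pool.Agent.MQ2

end
end

section

/-!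
# MQ3 SecMul: the distinct roots of a family of monic polynomials over a convex set

`Ω` open and convex, the coefficients analytic on `Ω`, exactly `e` distinct roots at every point: the `e` roots are analytic functions on `Ω`,
everywhere distinct, with constant multiplicities.
-/

set_option autoImplicit false
set_option linter.unusedSectionVars false

open Topology Filter Metric

noncomputable section

namespace Pool.Agent.MQ.AJ

variable {d e : ℕ}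

section

variable {E : Type*} [NormedAddCommGroup E] [NormedSpace ℂ E] {Ω : Set E}

/-- a continuous selection of roots is a permutation -/
theorem exists_perm {E : Type*} [TopologicalSpace E] {Ω : Set E} (hΩ : IsPreconnected Ω) {F G : E → Fin e → ℂ} (hF : ContinuousOn F Ω)
    (hG : ContinuousOn G Ω) (hFi : ∀ ω ∈ Ω, Function.Injective (F ω)) (hGi : ∀ ω ∈ Ω, Function.Injective (G ω))
    (h : ∀ ω ∈ Ω, ∀ j, ∃ k, G ω j = F ω k) : ∃ σ : Equiv.Perm (Fin e), ∀ ω ∈ Ω, ∀ j, G ω j = F ω (σ j) := by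
  classical
  rcases Set.eq_empty_or_nonempty Ω with he | ⟨ω₀, hω₀⟩
  · refine ⟨1, fun ω hω => ?_⟩
    rw [he] at hω
    exact absurd hω (Set.notMem_empty ω)
  have hex : ∀ j, ∃ k, ∀ ω ∈ Ω, G ω j = F ω k := by
    intro j
    have h1 : ∀ ω : E, ∃ k, ω ∈ Ω → G ω j = F ω k := by
      intro ω
      by_cases hω : ω ∈ Ω
      · obtain ⟨k, hk⟩ := h ω hω j
        exact ⟨k, fun _ => hk⟩
      · exact ⟨j, fun h => absurd h hω⟩
    choose f hf using h1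
    have hc : ContinuousOn f Ω := by
      intro ω hω
      have h1 : ∀ᶠ ω' in 𝓝[Ω] ω, f ω' = f ω := by
        have h2 : ∀ k, k ≠ f ω → ∀ᶠ ω' in 𝓝[Ω] ω, G ω' j ≠ F ω' k := by
          intro k hk
          have h3 : ContinuousWithinAt (fun ω' => G ω' j - F ω' k) Ω ω :=
            ((continuous_apply j).continuousAt.comp_continuousWithinAt (hG ω hω)).sub
              ((continuous_apply k).continuousAt.comp_continuousWithinAt (hF ω hω))
          have h4 : G ω j - F ω k ≠ 0 := by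
            intro h5
            apply hk
            apply hFi ω hω
            rw [← sub_eq_zero.1 h5, hf ω hω]
          filter_upwards [h3.eventually_ne h4] with ω' h5 h6
          exact h5 (by rw [h6, sub_self])
        have h3 : ∀ᶠ ω' in 𝓝[Ω] ω, ∀ k, k ≠ f ω → G ω' j ≠ F ω' k := by
          rw [Filter.eventually_all]
          intro k
          by_cases hk : k = f ω
          · exact Eventually.of_forall fun ω' h => absurd hk h
          · filter_upwards [h2 k hk] with ω' h _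
            exact h
        filter_upwards [h3, self_mem_nhdsWithin] with ω' h4 h5
        by_contra h6
        exact h4 _ h6 (hf ω' h5)
      exact (continuousWithinAt_const (b := f ω)).congr_of_eventuallyEq h1 rfl
    refine ⟨f ω₀, fun ω hω => ?_⟩
    rw [← hΩ.constant hc hω hω₀]
    exact hf ω hω
  choose s hs using hex
  have hsi : Function.Injective s := by
    intro a b hab
    apply hGi ω₀ hω₀
    rw [hs a ω₀ hω₀, hs b ω₀ hω₀, hab]
  exact ⟨Equiv.ofBijective s (Finite.injective_iff_bijective.1 hsi), fun ω hω j => hs j ω hω⟩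

/-- **The distinct roots over a convex set, with multiplicities.** -/
theorem exists_sections_mul (hΩ : IsOpen Ω) (hc : Convex ℝ Ω) {p : Fin d → E → ℂ} (hp : ∀ i, ∀ ω ∈ Ω, AnalyticAt ℂ (p i) ω)
    (hs : ∀ ω ∈ Ω, ∀ l : Fin d → ℂ, (∀ t, pv d (fun i => p i ω) t = ∏ j, (t - l j)) → (Finset.univ.image l).card = e) :
    ∃ (T : E → Fin e → ℂ) (μ : Fin e → ℕ), (∀ k, 1 ≤ μ k) ∧ (∀ ω ∈ Ω, AnalyticAt ℂ T ω) ∧ (∀ ω ∈ Ω, Function.Injective (T ω)) ∧
      ∀ ω ∈ Ω, ∀ t, pv d (fun i => p i ω) t = ∏ k, (t - T ω k) ^ μ k := by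
  classical
  rcases Set.eq_empty_or_nonempty Ω with he | ⟨ω₀, hω₀⟩
  · refine ⟨0, fun _ => 1, fun _ => le_rfl, fun ω hω => ?_, fun ω hω => ?_, fun ω hω => ?_⟩ <;>
    · rw [he] at hω
      exact absurd hω (Set.notMem_empty ω)
  -- roots
  choose l hl using fun x : E => exists_roots fun i => p i x
  have hm' : ∀ x : E, ∃ m : Fin e → ℂ, x ∈ Ω →
      Function.Injective m ∧ (∀ j, ∃ k, l x j = m k) ∧ ∀ k, ∃ j, m k = l x j := by
    intro x
    by_cases h : x ∈ Ω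
    · obtain ⟨m, h1⟩ := exists_distinct (hs x h (l x) (hl x))
      exact ⟨m, fun _ => h1⟩
    · exact ⟨0, fun h' => absurd h' h⟩
  choose m hm using hm'
  -- power sums
  choose S hSa hS using fun k => exists_psum (d := d) k
  have hSx : ∀ k {x : E}, x ∈ Ω → AnalyticAt ℂ (fun y => ∑ j, l y j ^ k) x := by
    intro k x hx
    have h1 : (fun y => ∑ j, l y j ^ k) = fun y => S k (fun i => p i y) := by
      funext y
      exact hS k _ _ (hl y)
    rw [h1]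
    exact (hSa k _).fun_comp (analyticAt_pi_iff.2 fun i => hp i x hx)
  -- the coefficients of the reduced polynomial
  have hqa : ∀ i : Fin e, ∀ y ∈ Ω, AnalyticAt ℂ (fun y => (mp (m y)).coeff i) y := by
    intro i y hy
    obtain ⟨h3, h4, h5⟩ := hm y hy
    refine solve_analytic (A := fun y => Matrix.of fun i j : Fin e => ∑ k, l y k ^ ((i : ℕ) + j)) (b := fun y i => -∑ k, l y k ^ ((i : ℕ) + e))
      (c := fun y i => (mp (m y)).coeff i) ?_ ?_ (hankel_det h3 h4 h5) ?_ i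
    · intro a b
      exact hSx _ hy
    · intro a
      exact (hSx _ hy).fun_neg
    · filter_upwards [hΩ.mem_nhds hy] with y' h6
      obtain ⟨h8, h9, -⟩ := hm y' h6
      exact hankel_solve h8 h9
  have hq : ∀ y, ∀ t, pv e (fun i : Fin e => (mp (m y)).coeff i) t = ∏ j, (t - m y j) := fun y t => pv_coeff _ _
  have hsimp : Simp Ω (fun (i : Fin e) y => (mp (m y)).coeff i) := by
    intro y hy l' hl'
    exact inj_of_prod (hm y hy).1 fun t => by rw [← hl', hq]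
  obtain ⟨T, hTa, hTr⟩ := exists_sections hΩ hc hqa hsimp
  have hTp : ∀ y ∈ Ω, ∀ t, ∏ j, (t - T y j) = ∏ j, (t - m y j) := by
    intro y hy t
    rw [← hq y t]
    exact (pv_of_rm (hTr y hy) t).symm
  have hTi : ∀ y ∈ Ω, Function.Injective (T y) := fun y hy => inj_of_prod (hm y hy).1 (hTp y hy)
  have hT1 : ∀ y ∈ Ω, (∀ j, ∃ k, l y j = T y k) ∧ ∀ k, ∃ j, T y k = l y j := by
    intro y hy
    obtain ⟨h7, h8, h9⟩ := hm y hy
    have h10 := hTp y hy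
    refine ⟨fun j => ?_, fun k => ?_⟩
    · obtain ⟨k, hk⟩ := h8 j
      have h11 := h10 (m y k)
      rw [Finset.prod_eq_zero (f := fun j => m y k - m y j) (Finset.mem_univ k) (sub_self _)] at h11
      obtain ⟨k', -, hk'⟩ := Finset.prod_eq_zero_iff.1 h11
      exact ⟨k', by rw [hk]; exact sub_eq_zero.1 hk'⟩
    · have h11 := h10 (T y k)
      rw [Finset.prod_eq_zero (f := fun j => T y k - T y j) (Finset.mem_univ k) (sub_self _)] at h11
      obtain ⟨k', -, hk'⟩ := Finset.prod_eq_zero_iff.1 h11.symm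
      obtain ⟨j, hj⟩ := h9 k'
      exact ⟨j, by rw [← hj]; exact sub_eq_zero.1 hk'⟩
  -- multiplicities are continuous
  have hmc : ∀ k, ∀ s ∈ Ω, ContinuousAt (fun s => (mu (l s) (T s) k : ℂ)) s := by
    intro k s hsU
    refine (solve_analytic (A := fun s : E => (Matrix.vandermonde (T s)).transpose) (b := fun s i => ∑ j, l s j ^ (i : ℕ))
      (c := fun s k => (mu (l s) (T s) k : ℂ)) ?_ ?_ ?_ ?_ k).continuousAt
    · intro i j
      simp only [Matrix.transpose_apply, Matrix.vandermonde_apply]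
      exact ((analyticAt_pi_iff.1 (hTa s hsU)) j).fun_pow _
    · intro i
      exact hSx i hsU
    · rw [Matrix.det_transpose]
      exact Matrix.det_vandermonde_ne_zero_iff.2 (hTi s hsU)
    · filter_upwards [hΩ.mem_nhds hsU] with s' hs'
      funext i
      have h3 := sum_mu (hTi s' hs') (hT1 s' hs').1 (fun t => t ^ (i : ℕ))
      rw [h3, Matrix.mulVec, dotProduct]
      refine Finset.sum_congr rfl fun k _ => ?_
      rw [Matrix.transpose_apply, Matrix.vandermonde_apply, mul_comm]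
  have hconst : ∀ k, ∀ s ∈ Ω, mu (l s) (T s) k = mu (l ω₀) (T ω₀) k := by
    intro k s hsU
    have hcc : ContinuousOn (fun s => mu (l s) (T s) k) Ω := by
      intro s hsU
      have h1 : ContinuousAt (fun s => (mu (l s) (T s) k : ℂ)) s := hmc k s hsU
      have h2 : IsClosedEmbedding (fun k : ℕ => (k : ℂ)) := by
        have h3 := Complex.isometry_ofReal.isClosedEmbedding.comp Nat.isClosedEmbedding_coe_real
        exact h3
      exact (h2.isInducing.continuousAt_iff.2 h1).continuousWithinAt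
    exact hc.isPreconnected.constant hcc hsU hω₀
  refine ⟨T, fun k => mu (l ω₀) (T ω₀) k, fun k => mu_pos (hT1 ω₀ hω₀).2 k, hTa, hTi, fun ω hω t => ?_⟩
  rw [hl, prod_mu (hTi ω hω) (hT1 ω hω).1 (fun z => t - z)]
  exact Finset.prod_congr rfl fun k _ => by rw [hconst k ω hω]

end

end Pool.Agent.MQ.AJ

end
end

section

/-!
# MQ3 WebR: the sheets of a (non-reduced) web over a normal crossing point

`∑ A i (x, y) t ^ i` (`i ≤ m`), bounded analytic coefficients off the axes of the unit bidisc, leading coefficient without zeros and exactly `e`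
distinct roots off the axes: over the product of two half planes the roots are the sheets of a web box, with constant multiplicities.
-/

set_option autoImplicit false

open Topology Filter Polynomial

noncomputable section

namespace Pool.Agent.MQ3

open Pool.Agent.MQ.AJ

variable {m e : ℕ} {A : ℕ → ℂ × ℂ → ℂ}

theorem Pe_eq {p : ℂ × ℂ} (h : A m p ≠ 0) (t : ℂ) : Pe m A p t = A m p * pv m (fun i : Fin m => A i p / A m p) t := by
  rw [Pe, Finset.sum_range_succ, Finset.sum_range, pv, mul_add, Finset.mul_sum, add_comm]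
  congr 1
  refine Finset.sum_congr rfl fun i _ => ?_
  rw [← mul_assoc, mul_div_cancel₀ _ h]

/-- **The sheets over the product of two half planes.** -/
theorem exists_webBox (hA : ∀ i ≤ m, ∀ p ∈ DS, AnalyticAt ℂ (A i) p) {C : ℝ} (hb : ∀ i ≤ m, ∀ p ∈ DS, ‖A i p‖ ≤ C) (hm : ∀ p ∈ DS, A m p ≠ 0)
    (he : ∀ p ∈ DS, {t | Pe m A p t = 0}.ncard = e) :
    ∃ (T : Fin e → ℂ × ℂ → ℂ) (a b : Equiv.Perm (Fin e)) (μ : Fin e → ℕ), WebBox e T a b ∧ (∀ k, 1 ≤ μ k) ∧ (∀ k, μ (a k) = μ k) ∧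
      (∀ k, μ (b k) = μ k) ∧ (∀ v ∈ HH, ∀ t, Pe m A (pexp v) t = A m (pexp v) * ∏ k, (t - T k v) ^ μ k) ∧
      (∀ v ∈ HH, ∀ t, Pe m A (pexp v) t = 0 ↔ ∃ k, T k v = t) ∧ ∃ C' : ℝ, ∀ k, ∀ v ∈ HH, ‖A m (pexp v) * T k v‖ ≤ C' := by
  classical
  have hpe : ∀ v, AnalyticAt ℂ pexp v := fun v => by
    unfold pexp
    exact (analyticAt_fst.cexp).prod (analyticAt_snd.cexp)
  have hp : ∀ i : Fin m, ∀ v ∈ HH, AnalyticAt ℂ (fun v => A i (pexp v) / A m (pexp v)) v := by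
    intro i v hv
    exact ((hA i i.2.le _ (pexp_mem hv)).fun_comp (hpe v)).fun_div ((hA m le_rfl _ (pexp_mem hv)).fun_comp (hpe v)) (hm _ (pexp_mem hv))
  obtain ⟨T, μ, hμ, hTa, hTi, hT⟩ := exists_sections_mul (e := e) isOpen_HH convex_HH hp (fun v hv l hl => by
    have h1 : {t | Pe m A (pexp v) t = 0} = ((Finset.univ.image l : Finset ℂ) : Set ℂ) := by
      ext t
      rw [Set.mem_ofPred_eq, Pe_eq (hm _ (pexp_mem hv)), hl t, mul_eq_zero, or_iff_right (hm _ (pexp_mem hv)), Finset.prod_eq_zero_iff]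
      simp only [Finset.mem_univ, true_and, Finset.coe_image, Finset.coe_univ, Set.image_univ, Set.mem_range, sub_eq_zero]
      exact ⟨fun ⟨j, h⟩ => ⟨j, h.symm⟩, fun ⟨j, h⟩ => ⟨j, h.symm⟩⟩
    rw [← he _ (pexp_mem hv), h1, Set.ncard_coe_finset])
  have hroot : ∀ v ∈ HH, ∀ t, Pe m A (pexp v) t = A m (pexp v) * ∏ k, (t - T v k) ^ μ k := by
    intro v hv t
    rw [Pe_eq (hm _ (pexp_mem hv)), hT v hv t]
  have hroot' : ∀ v ∈ HH, ∀ t, Pe m A (pexp v) t = 0 ↔ ∃ k, T v k = t := by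
    intro v hv t
    rw [hroot v hv t, mul_eq_zero, or_iff_right (hm _ (pexp_mem hv)), Finset.prod_eq_zero_iff]
    constructor
    · rintro ⟨k, -, hk⟩
      exact ⟨k, (sub_eq_zero.1 (pow_eq_zero_iff (by have := hμ k; omega) |>.1 hk)).symm⟩
    · rintro ⟨k, hk⟩
      exact ⟨k, Finset.mem_univ k, by rw [hk, sub_self, zero_pow (by have := hμ k; omega)]⟩
  have hshift : ∀ c : ℂ × ℂ, (∀ v ∈ HH, v + c ∈ HH) → (∀ v, pexp (v + c) = pexp v) →
      ∃ σ : Equiv.Perm (Fin e), (∀ v ∈ HH, ∀ k, T (v + c) k = T v (σ k)) ∧ ∀ k, μ (σ k) = μ k := by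
    intro c hc1 hc2
    obtain ⟨σ, hσ⟩ := exists_perm (F := T) (G := fun v => T (v + c)) convex_HH.isPreconnected (fun v hv => (hTa v hv).continuousAt.continuousWithinAt)
      (fun v hv => by
        have h1 : ContinuousAt T (v + c) := (hTa _ (hc1 v hv)).continuousAt
        exact (ContinuousAt.comp (f := fun v => v + c) h1 (by fun_prop)).continuousWithinAt) hTi (fun v hv => hTi _ (hc1 v hv)) (fun v hv j => by
        have h1 := (hroot' _ (hc1 v hv) (T (v + c) j)).2 ⟨j, rfl⟩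
        rw [hc2] at h1
        obtain ⟨k, hk⟩ := (hroot' v hv _).1 h1
        exact ⟨k, hk.symm⟩)
    refine ⟨σ, hσ, fun k => ?_⟩
    have h0 := HH_mem
    set v : ℂ × ℂ := ((-1 : ℂ), (-1 : ℂ)) with hv
    refine (mult_eq (c := T v) (c' := fun j => T (v + c) j) (hTi v h0) (hTi _ (hc1 v h0)) (n := μ) (n' := μ) (fun t => ?_) (hσ v h0 k).symm)
    have h1 := hroot v h0 t
    have h2 := hroot _ (hc1 v h0) t
    rw [hc2, h1] at h2
    exact mul_left_cancel₀ (hm _ (pexp_mem h0)) h2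
  obtain ⟨a, ha1, ha2⟩ := hshift (per 1 0) (fun v hv => HH_add_per hv 1 0) pexp_per₁
  obtain ⟨b, hb1, hb2⟩ := hshift (per 0 1) (fun v hv => HH_add_per hv 0 1) pexp_per₂
  refine ⟨fun k v => T v k, a, b, μ, ⟨fun k v hv => analyticAt_pi_iff.1 (hTa v hv) k, fun v hv i j hij => hTi v hv hij, fun k v hv => ha1 v hv k,
    fun k v hv => hb1 v hv k⟩, hμ, ha2, hb2, hroot, hroot', 1 + m * (1 + C) ^ m, fun k v hv => ?_⟩
  refine root_bound' (fun i hi => hb i hi _ (pexp_mem hv)) ((hroot' v hv _).2 ⟨k, rfl⟩) ?_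
  rcases Nat.eq_zero_or_pos m with hm0 | hm0
  · exfalso
    subst hm0
    have h1 := (hroot' v hv (T v k)).2 ⟨k, rfl⟩
    rw [Pe, Finset.sum_range_one, pow_zero, mul_one] at h1
    exact hm _ (pexp_mem hv) h1
  · exact hm0

end Pool.Agent.MQ3

end
end

section

/-!
# MQ3 WBx: from a normal crossings box to the sheets of the web

`ρ` is a parametrization of a surface over the closed unit bidisc, an immersion off the axes, such that the points `ρ p` off the axes are good for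
`θ`: the polynomials of the slopes satisfy the hypotheses of `exists_webBox`, and the curves tangent to `θ` satisfy `Crv`.
-/

set_option autoImplicit false

open Topology Filter Metric

noncomputable section

namespace Pool.Agent.MQ3

open Pool.Agent.H36.BP (EN)
open Pool.Agent.H14.PP (Tan)
open Pool.Agent.H17BP (Surface IsChart)
open Pool.Agent.E1 (ResL_tan)

variable {N : ℕ} {X : Set (EN N)} {m : ℕ}

/-! ### analyticity -/

/-! ### the box -/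

variable {ρ : ℂ × ℂ → EN N}

/-- the roots are the slopes of the null directions -/
theorem NCBox.roots_eq (hb : NCBox X ρ) (hX : Surface X) (hm : 1 ≤ m) (θ : WDiff X m) {l : LF N} {p : ℂ × ℂ} (hp : p ∈ DS)
    (hG : GA X l (ρ p)) : {t | Pe m (sA θ l ρ) p t = 0} = NS θ l (ρ p) := by
  have hd := hb.dl_ne hX hp hG
  have hT : ∀ w, Tan X (ρ p) (fderiv ℂ ρ p w) := fun w => ResL_tan (hb.an' hp) (hb.mem' hp) w
  ext t
  rw [Set.mem_ofPred_eq, Pe_sA θ l (hb.an' hp) (hb.mem' hp)]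
  constructor
  · intro h
    refine ⟨_, hT _, ?_, ?_, h⟩
    · rw [map_add, map_smul, om_add, om_smul, om_v₁_1, om_v₂_1, mul_zero, add_zero]
      exact hd
    · rw [map_add, map_smul, om_add, om_smul, om_add, om_smul, om_v₁_1, om_v₂_1, om_v₁_2, om_v₂_2]
      ring
  · rintro ⟨v, hv, h1, h2, h3⟩
    obtain ⟨w, a, rfl⟩ := hb.span hX hp v hv
    rw [om_add_smul] at h1 h2
    rw [om_add_smul] at h2
    rw [θ.add_smul _ _ (hT w)] at h3
    have h4 := dl_smul l ρ p w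
    rw [h2] at h4
    have h5 : dl l ρ p • w = om l 1 (ρ p) (fderiv ℂ ρ p w) • (v₁ l ρ p + t • v₂ l ρ p) := by
      rw [h4, smul_add, smul_smul, mul_comm t]
    have h6 : θ.toFun (ρ p) (fderiv ℂ ρ p (dl l ρ p • w)) = 0 := by
      rw [map_smul, θ.smul _ _ (hT w), h3, mul_zero]
    rw [h5, map_smul, θ.smul _ _ (hT _)] at h6
    exact (mul_eq_zero.1 h6).resolve_left (pow_ne_zero _ h1)

/-- the number of the null directions is constant off the axes -/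
theorem NCBox.ncard_const (hb : NCBox X ρ) {θ : WDiff X m} {l : LF N} (hG : ∀ p ∈ DS, GoodPt θ l (ρ p)) :
    ∃ e : ℕ, ∀ p ∈ DS, (NS θ l (ρ p)).ncard = e := by
  obtain ⟨p₀, hp₀⟩ : DS.Nonempty := ⟨_, pexp_mem HH_mem⟩
  refine ⟨(NS θ l (ρ p₀)).ncard, fun p hp => ?_⟩
  refine isPreconnected_DS.constant (f := fun p => (NS θ l (ρ p)).ncard) ?_ hp hp₀
  intro q hq
  have h1 := (hG q hq).2.2.2
  have h2 : ∀ᶠ q' in 𝓝 q, (NS θ l (ρ q')).ncard = (NS θ l (ρ q)).ncard := by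
    filter_upwards [(hb.an' hq).continuousAt.eventually h1, hb.mem' hq] with q' h3 h4
    exact h3 h4
  exact (tendsto_nhds_of_eventually_eq h2).mono_left nhdsWithin_le_nhds

/-- **The sheets of the web over a normal crossings box.** -/
theorem NCBox.exists_sheets (hb : NCBox X ρ) (hX : Surface X) (hm : 1 ≤ m) {θ : WDiff X m} {l : LF N} (hG : ∀ p ∈ DS, GoodPt θ l (ρ p)) :
    ∃ (e : ℕ) (T : Fin e → ℂ × ℂ → ℂ) (a b : Equiv.Perm (Fin e)) (μ : Fin e → ℕ), (∀ p ∈ DS, (NS θ l (ρ p)).ncard = e) ∧ WebBox e T a b ∧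
      (∀ k, 1 ≤ μ k) ∧ (∀ k, μ (a k) = μ k) ∧ (∀ k, μ (b k) = μ k) ∧
      (∀ v ∈ HH, ∀ t, Pe m (sA θ l ρ) (pexp v) t = sA θ l ρ m (pexp v) * ∏ k, (t - T k v) ^ μ k) ∧
      (∀ v ∈ HH, ∀ t, t ∈ NS θ l (ρ (pexp v)) ↔ ∃ k, T k v = t) ∧ ∃ C' : ℝ, ∀ k, ∀ v ∈ HH, ‖sA θ l ρ m (pexp v) * T k v‖ ≤ C' := by
  obtain ⟨e, he⟩ := hb.ncard_const hG
  obtain ⟨C, hC⟩ := hb.bound θ l
  obtain ⟨T, a, b, μ, h1, h2, h3, h4, h5, h6, h7⟩ := exists_webBox (m := m) (e := e) (A := sA θ l ρ)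
    (fun i _ p hp => analyticAt_sA θ l (hb.an' hp) (hb.mem' hp) i) hC (fun p hp => hb.lead_ne hX hm hp (hG p hp).1 (hG p hp).2.1)
    (fun p hp => by rw [hb.roots_eq hX hm θ hp (hG p hp).1, he p hp])
  refine ⟨e, T, a, b, μ, he, h1, h2, h3, h4, h5, fun v hv t => ?_, h7⟩
  rw [← h6 v hv t, ← hb.roots_eq hX hm θ (pexp_mem hv) (hG _ (pexp_mem hv)).1]
  rfl

end Pool.Agent.MQ3

end
end
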