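import Pool.Agent.H94.G6.M106
import Pool.Agent.H94.G6.M69
import Pool.Agent.H94.G6.M71
import Pool.Agent.H94.G6.M75
import Pool.Agent.H94.G6.M77
import Pool.Agent.H94.G6.M81
import Pool.Agent.H94.G6.M90
import Pool.Agent.H94.G6.MQ.SNLocN

/-! The parts of this file: H36.BPL.BlowK, H7.Qup.Hom, MQ2.TSN, SY.EiM. -/

section

/-!
# BPL BlowK: blow-up of an open surface

`K₁ = total l X K` is the preimage of `K` in the blow-up.
-/

set_option autoImplicit false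

namespace Pool.Agent.H36.BPL

open Filter Topology Metric
open Pool.Agent.H17BP (Surface IsChart IsForm NoZeros NodalAt Pr HolP Picard)
open Pool.Agent.H36.BP (OrdTwo)
open Pool.Agent.H62.BU (blow total Ker phi om)

variable {V : Type} [NormedAddCommGroup V] [NormedSpace ℂ V] {ι : Type} [Fintype ι] {l : ι → V →L[ℂ] ℂ} {X K T : Set V} {q : V}

theorem mem_totalK (hX : Surface X) (hK : ∀ x ∈ K, ∀ c : ℂ, c ≠ 0 → c • x ∈ K) {y : ι → V} (hy : y ∈ blow l X) {b : ι} (hb : y b ≠ 0) :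
    y ∈ total l X K ↔ y b ∈ K :=
  Pool.Agent.H62.BU.mem_total_iff (Pool.Agent.H17BP.surface_iff.2 hX) hK y hy hb

theorem total_smul (hK : ∀ x ∈ K, ∀ c : ℂ, c ≠ 0 → c • x ∈ K) {y : ι → V} (hy : y ∈ total l X K) {c : ℂ} (hc : c ≠ 0) : c • y ∈ total l X K := by
  refine ⟨Pool.Agent.H62.BU.blow_smul y hy.1 c hc, fun b hb => ?_⟩
  have h1 : y b ≠ 0 := fun h => hb (by rw [Pi.smul_apply, h, smul_zero])
  exact hK _ (hy.2 b h1) c hc

theorem comp_mem (hX : Surface X) {y : ι → V} (hy : y ∈ blow l X) {b : ι} (hb : y b ≠ 0) : y b ∈ X :=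
  Pool.Agent.H62.BU.comp_mem (Pool.Agent.H17BP.surface_iff.2 hX) y hy hb

theorem openPart_blow (hX : Surface X) (hK : OpenPart X K) : OpenPart (blow l X) (total l X K) where
  sub := fun y hy => hy.1
  smul := fun y hy c hc => total_smul hK.smul hy hc
  eqn y hy := by
    obtain ⟨b, hb⟩ := Pool.Agent.H62.BU.exists_ne y hy
    obtain ⟨h, hh, hhe⟩ := hK.eqn (y b) (comp_mem hX hy hb)
    have hpr : AnalyticAt ℂ (fun y : ι → V => y b) y := (ContinuousLinearMap.proj (R := ℂ) (φ := fun _ : ι => V) b).analyticAt y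
    refine ⟨fun y => h (y b), AnalyticAt.comp (g := h) (f := fun y : ι → V => y b) hh hpr, ?_⟩
    have hct : Tendsto (fun y : ι → V => y b) (𝓝 y) (𝓝 (y b)) := (continuous_apply b).tendsto y
    filter_upwards [hct.eventually hhe, hct.eventually_ne hb] with y' h1 h2 h3
    rw [mem_totalK hX hK.smul h3 h2]
    exact h1 (comp_mem hX h3 h2)

theorem affProper_blow {M : ℕ} {Φ : V → Fin M → ℂ} (hX : Surface X) (hK : OpenPart X K) (hΦ : AffProper X K Φ) :
    ∃ Ψ : (ι → V) → Fin M → ℂ, AffProper (blow l X) (total l X K) Ψ := by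
  classical
  -- a component which is not zero
  have hex : ∀ y : ι → V, ∃ x : V, y ∈ blow l X → x ≠ 0 ∧ ∃ b, x = y b := by
    intro y
    by_cases hy : y ∈ blow l X
    · obtain ⟨b, hb⟩ := Pool.Agent.H62.BU.exists_ne y hy
      exact ⟨y b, fun _ => ⟨hb, b, rfl⟩⟩
    · exact ⟨0, fun h => absurd h hy⟩
  choose P hP using hex
  have hPb : ∀ y ∈ total l X K, ∀ b, y b ≠ 0 → Φ (P y) = Φ (y b) := by
    intro y hy b hb
    obtain ⟨h1, b', h2⟩ := hP y hy.1
    obtain ⟨c, hc⟩ := Pool.Agent.H62.BU.comp_smul y hy.1 hb b'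
    have hc0 : c ≠ 0 := by
      rintro rfl
      rw [zero_smul] at hc
      exact h1 (h2.trans hc)
    rw [h2, hc]
    exact hΦ.smul _ (hy.2 b hb) c hc0
  have hKX : ∀ y ∈ total l X K, ∀ b, y b ≠ 0 → y b ∈ K := fun y hy b hb => hy.2 b hb
  refine ⟨fun y => Φ (P y), ?_, ?_, ?_, ?_, ?_⟩
  · intro y hy c hc
    obtain ⟨b, hb⟩ := Pool.Agent.H62.BU.exists_ne y hy.1
    have h1 : (c • y) b ≠ 0 := smul_ne_zero hc hb
    show Φ (P (c • y)) = Φ (P y)
    rw [hPb _ (total_smul hK.smul hy hc) b h1, hPb y hy b hb]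
    exact hΦ.smul _ (hKX y hy b hb) c hc
  · intro y hy
    obtain ⟨b, hb⟩ := Pool.Agent.H62.BU.exists_ne y hy.1
    have h1 : ContinuousWithinAt (fun y : ι → V => Φ (y b)) (total l X K ∩ {y | y b ≠ 0}) y := by
      refine ContinuousWithinAt.comp (t := K) (hΦ.cont (y b) (hKX y hy b hb)) (continuous_apply b).continuousWithinAt ?_
      rintro y' ⟨h2, h3⟩
      exact hKX y' h2 b h3
    have h2 : {y : ι → V | y b ≠ 0} ∈ 𝓝 y := (continuous_apply b).continuousAt.eventually_ne hb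
    have h3 : ContinuousWithinAt (fun y : ι → V => Φ (P y)) (total l X K ∩ {y | y b ≠ 0}) y := by
      refine h1.congr ?_ (hPb y hy b hb)
      rintro y' ⟨h4, h5⟩
      exact hPb y' h4 b h5
    exact (continuousWithinAt_inter h2).mp h3
  · intro F z₀ hF hFK
    have hy : F z₀ ∈ total l X K := hFK.self_of_nhds
    obtain ⟨b, hb⟩ := Pool.Agent.H62.BU.exists_ne (F z₀) hy.1
    have hFb : AnalyticAt ℂ (fun z => F z b) z₀ := (analyticAt_pi_iff.1 hF) b
    have hne : ∀ᶠ z in 𝓝 z₀, F z b ≠ 0 := hFb.continuousAt.eventually_ne hb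
    refine (hΦ.hol (fun z => F z b) z₀ hFb ?_).congr ?_
    · filter_upwards [hFK, hne] with z h1 h2
      exact hKX _ h1 b h2
    · filter_upwards [hFK, hne] with z h1 h2
      exact (hPb _ h1 b h2).symm
  · intro y hy hyK R
    obtain ⟨b, hb⟩ := Pool.Agent.H62.BU.exists_ne y hy
    have hbK : y b ∉ K := fun h => hyK ((mem_totalK hX hK.smul hy hb).mpr h)
    have hct : Tendsto (fun y : ι → V => y b) (𝓝 y) (𝓝 (y b)) := (continuous_apply b).tendsto y
    filter_upwards [hct.eventually (hΦ.proper (y b) (comp_mem hX hy hb) hbK R), hct.eventually_ne hb] with y' h1 h2 h3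
    rw [hPb y' h3 b h2]
    exact h1 (hKX y' h3 b h2)
  · intro F z₀ hF hFX
    have hy : F z₀ ∈ blow l X := hFX.self_of_nhds
    obtain ⟨b, hb⟩ := Pool.Agent.H62.BU.exists_ne (F z₀) hy
    have hFb : AnalyticAt ℂ (fun z => F z b) z₀ := (analyticAt_pi_iff.1 hF) b
    have hne : ∀ᶠ z in 𝓝 z₀, F z b ≠ 0 := hFb.continuousAt.eventually_ne hb
    have hX' : ∀ᶠ z in 𝓝 z₀, F z b ∈ X := by
      filter_upwards [hFX, hne] with z h1 h2
      exact comp_mem hX h1 h2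
    rcases hΦ.iso (fun z => F z b) z₀ hFb hX' with h | h
    · left
      filter_upwards [h, hFX, hne] with z h1 h2 h3 h4
      exact h1 ((mem_totalK hX hK.smul h2 h3).mp h4)
    · right
      filter_upwards [h, hFX.filter_mono nhdsWithin_le_nhds, hne.filter_mono nhdsWithin_le_nhds] with z h1 h2 h3
      exact (mem_totalK hX hK.smul h2 h3).mpr h1

/-- the order of the projection of a curve in the blow-up -/
theorem ordTwo_comp {h : ℂ → ι → V} (hmem : ∀ z, h z ∈ blow l X) {b : ℂ → ι} (hbne : ∀ z, h z (b z) ≠ 0) (hord : OrdTwo h) :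
    OrdTwo (fun z => h z (b z)) := by
  obtain ⟨C₀, hC⟩ := hord
  refine ⟨C₀, fun r hr => ?_⟩
  obtain ⟨F, h1, h2, h3, h4⟩ := hC r hr
  have hF0 : 0 < ‖F 0‖ := lt_of_lt_of_le (Real.exp_pos _) h3
  obtain ⟨b₀, hb₀⟩ : ∃ b₀, ‖F 0‖ ≤ ‖F 0 b₀‖ := by
    by_contra hcon
    push Not at hcon
    exact lt_irrefl _ ((pi_norm_lt_iff hF0).mpr hcon)
  refine ⟨fun z => F z b₀, fun z hz => ?_, fun z hz => (norm_le_pi_norm (F z) b₀).trans (h2 z hz), h3.trans hb₀, fun z hz => ?_⟩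
  · have h5 := h1 z hz
    rw [differentiableWithinAt_pi] at h5
    exact h5 b₀
  · by_cases h0 : F z b₀ = 0
    · exact Or.inl h0
    right
    rcases h4 z hz with h5 | ⟨c, hc, h5⟩
    · exact absurd (by rw [h5]; rfl) h0
    have e1 : h z b₀ = c • F z b₀ := congrFun h5 b₀
    have h6 : h z b₀ ≠ 0 := by
      rw [e1]
      exact smul_ne_zero hc h0
    obtain ⟨c', e2⟩ := Pool.Agent.H62.BU.comp_smul (h z) (hmem z) h6 (b z)
    have hc' : c' ≠ 0 := by
      intro h0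
      rw [h0, zero_smul] at e2
      exact hbne z e2
    exact ⟨c' * c, mul_ne_zero hc' hc, by simp only; rw [e2, e1, smul_smul]⟩

/-- entire curves in the blow-up -/
theorem brodyK_blow (hX : Surface X) (hl : Ker l q) (hKs : ∀ x ∈ K, ∀ c : ℂ, c ≠ 0 → c • x ∈ K)
    (hT : ∀ x ∈ T, ∀ c : ℂ, c ≠ 0 → c • x ∈ T) (hq : q ∈ T) (hb : Brody2 K T) : Brody2 (total l X K) (total l X T) := by
  have hX' : Pool.Agent.H62.BU.Surface X := Pool.Agent.H17BP.surface_iff.2 hX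
  intro h hh hmemK hord hex z w
  have hmem : ∀ z, h z ∈ blow l X := fun z => (hmemK z).1
  obtain ⟨z₁, hz₁⟩ := hex
  choose b hbne using fun z => Pool.Agent.H62.BU.exists_ne (h z) (hmem z)
  have hfK : ∀ z, h z (b z) ∈ K := fun z => (hmemK z).2 _ (hbne z)
  have hfB : ∀ z, h z ∈ total l X T ↔ h z (b z) ∈ T := fun z =>
    Pool.Agent.H62.BU.mem_total_iff hX' hT (h z) (hmem z) (hbne z)
  have hHol : ∀ z₀, HolP (fun z => h z (b z)) z₀ := by
    intro z₀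
    obtain ⟨H, hHan, hH0, hHe⟩ := hh z₀
    obtain ⟨b₀, hb₀⟩ := Function.ne_iff.1 hH0
    have hb₀' : H z₀ b₀ ≠ 0 := hb₀
    have han : AnalyticAt ℂ (fun z => H z b₀) z₀ := (analyticAt_pi_iff.1 hHan) b₀
    refine ⟨fun z => H z b₀, han, hb₀', ?_⟩
    filter_upwards [hHe, han.continuousAt.eventually_ne hb₀'] with z hz hz0
    obtain ⟨c, hc, e⟩ := hz
    have e1 : h z b₀ = c • H z b₀ := congrFun e b₀
    have h1 : h z b₀ ≠ 0 := by
      rw [e1]
      exact smul_ne_zero hc hz0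
    obtain ⟨c', e2⟩ := Pool.Agent.H62.BU.comp_smul (h z) (hmem z) h1 (b z)
    have hc' : c' ≠ 0 := by
      intro h0
      rw [h0, zero_smul] at e2
      exact hbne z e2
    refine ⟨c' * c, mul_ne_zero hc' hc, ?_⟩
    show h z (b z) = (c' * c) • H z b₀
    rw [e2, e1, smul_smul]
  have hall := hb (fun z => h z (b z)) hHol hfK (ordTwo_comp hmem hbne hord) ⟨z₁, fun hmemB => hz₁ ((hfB z₁).2 hmemB)⟩
  have hl' : ∀ z, ∃ b', l b' (h z (b z)) ≠ 0 := by
    intro z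
    by_contra hcon
    push Not at hcon
    obtain ⟨c, e⟩ := (hl (h z (b z))).1 hcon
    have hc : c ≠ 0 := by
      intro h0
      rw [h0, zero_smul] at e
      exact hbne z e
    have h1 : h z (b z) ∈ T := by
      rw [e]
      exact hT q hq c hc
    obtain ⟨d, hd, e'⟩ := hall z₁ z
    apply hz₁
    rw [hfB z₁]
    have e'' : h z₁ (b z₁) = d • h z (b z) := e'
    rw [e'']
    exact hT _ h1 d hd
  have hphi : ∀ z, Pr (h z) (phi l (h z (b z))) := by
    intro z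
    obtain ⟨b', hb'⟩ := hl' z
    exact ⟨(l (b z) (h z (b z)))⁻¹, inv_ne_zero (Pool.Agent.H62.BU.ne_of_ne (h z) (hmem z) (hbne z) hb'),
      Pool.Agent.H62.BU.eq_phi (h z) (hmem z) (hbne z) hb'⟩
  have hpp : Pr (phi l (h z (b z))) (phi l (h w (b w))) := by
    obtain ⟨c, hc, e⟩ := hall z w
    have e' : h z (b z) = c • h w (b w) := e
    refine ⟨c ^ 2, pow_ne_zero 2 hc, ?_⟩
    rw [e', Pool.Agent.H62.BU.phi_smul]
  exact ((hphi z).trans hpp).trans (hphi w).symm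

/-- descent of the extension property -/
theorem picardK_blow (hX : Surface X) (hl : Ker l q) (hKX : K ⊆ X) (hKs : ∀ x ∈ K, ∀ c : ℂ, c ≠ 0 → c • x ∈ K) (hTX : T ⊆ X)
    (hT : ∀ x ∈ T, ∀ c : ℂ, c ≠ 0 → c • x ∈ T) (hq : q ∈ T) (hp : Picard (total l X K) (total l X T)) : Picard K T := by
  intro r hr f hf hfB
  have hq0 : q ≠ 0 := fun h => hX.zero (h ▸ hTX hq)
  have hi := Pool.Agent.H17BP.isolated_of_notMem hl hT hq hq0 (fun z h1 h2 => (hf z h1 h2).1) hfB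
  obtain ⟨h, h1, h2⟩ := Pool.Agent.H17BP.exists_lift hX hl hq0 (fun z hz hzr => ⟨(hf z hz hzr).1, hKX (hf z hz hzr).2⟩) hi
  obtain ⟨z, hz, hzr, hzB⟩ := hfB
  have h1K : ∀ z : ℂ, z ≠ 0 → ‖z‖ < r → HolP h z ∧ h z ∈ total l X K := by
    intro z hz hzr
    refine ⟨(h1 z hz hzr).1, (h1 z hz hzr).2, fun b hb => ?_⟩
    obtain ⟨c, hc, e⟩ := (h2 z hz hzr b hb).symm
    rw [e]
    exact hKs _ (hf z hz hzr).2 c hc
  obtain ⟨G, hG, hG0, hGe⟩ := hp r hr h h1K ⟨z, hz, hzr, fun h3 => by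
    obtain ⟨b, hb⟩ := Pool.Agent.H62.BU.exists_ne (h z) h3.1
    obtain ⟨c, hc, e⟩ := h2 z hz hzr b hb
    exact hzB (e ▸ hT _ (h3.2 b hb) c hc)⟩
  obtain ⟨b, hb⟩ : ∃ b, G 0 b ≠ 0 := by
    by_contra h3
    push Not at h3
    exact hG0 (funext h3)
  have hGb : AnalyticAt ℂ (fun w => G w b) 0 := (analyticAt_pi_iff.1 hG) b
  refine ⟨fun w => G w b, hGb, hb, ?_⟩
  have hlt : ∀ᶠ w in 𝓝 (0 : ℂ), ‖w‖ < r :=
    continuous_norm.continuousAt.eventually_lt_const (by simpa using hr)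
  filter_upwards [hGe, self_mem_nhdsWithin, hlt.filter_mono nhdsWithin_le_nhds,
    (hGb.continuousAt.eventually_ne hb).filter_mono nhdsWithin_le_nhds] with w h3 h4 h5 h6
  obtain ⟨c, hc, e⟩ := h3
  have h7 : h w b = c • G w b := by
    rw [e]
    rfl
  exact (h2 w h4 h5 b (by rw [h7]; exact smul_ne_zero hc h6)).trans ⟨c, hc, h7⟩

end Pool.Agent.H36.BPL

end

section

/-!
# Qup Hom: the embedding of the function fields given by a dominant regular map
-/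

set_option autoImplicit false

open MvPolynomial

noncomputable section

namespace Pool.Agent.H7.Qup

open Pool.Agent.H17 (PN VanishesAt)
open Pool.Agent.H17GT (coordFun)
open Pool.Agent.H17LG.Variety (FunField ratio)
open Pool.Agent.H62.FC (Homog)
open Pool.Agent.H17R (gen gen_eq_zero_iff ratio_self adjoin_ratio coordFun_ne_zero_iff)
open Pool.Agent.H7.Bir (exists_form aeval_comp aeval_div)

variable {N M : ℕ}

/-- A homomorphism from a function field with given values at the coordinates. -/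
theorem exists_hom_val {Q : Ideal (MvPolynomial (Fin (N + 1)) ℂ)} [Q.IsPrime] {j : Fin (N + 1)} (hj : coordFun Q j ≠ 0)
    {L : Type} [Field L] [Algebra ℂ L] {x : Fin (N + 1) → L} (hx : x j = 1)
    (h : ∀ (n : ℕ) (R : MvPolynomial (Fin (N + 1)) ℂ), R.IsHomogeneous n → (aeval x R = 0 ↔ R ∈ Q)) :
    ∃ e : FunField Q →ₐ[ℂ] L, ∀ i, e (ratio Q i j) = x i := by
  set ξ : Fin (N + 1) → FunField Q := fun i => ratio Q i j with hξ
  have hker : ∀ R : MvPolynomial (Fin (N + 1)) ℂ, aeval ξ R = 0 ↔ aeval x R = 0 := by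
    intro R
    obtain ⟨D, h1⟩ := exists_form j R
    obtain ⟨R', h2, h3⟩ := h1 D le_rfl
    rw [← h3 _ ξ (ratio_self hj), ← h3 _ x hx, h D R' h2]
    exact gen_eq_zero_iff hj h2
  set f : MvPolynomial (Fin (N + 1)) ℂ →ₐ[ℂ] (aeval ξ : MvPolynomial (Fin (N + 1)) ℂ →ₐ[ℂ] FunField Q).range :=
    (aeval ξ : MvPolynomial (Fin (N + 1)) ℂ →ₐ[ℂ] FunField Q).rangeRestrict with hf
  have hfs : Function.Surjective f := AlgHom.rangeRestrict_surjective _
  have hfv : ∀ R, ((f R : (aeval ξ : MvPolynomial (Fin (N + 1)) ℂ →ₐ[ℂ] FunField Q).range) : FunField Q) = aeval ξ R := fun R => rfl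
  have hle : RingHom.ker f.toRingHom ≤ RingHom.ker (aeval x : MvPolynomial (Fin (N + 1)) ℂ →ₐ[ℂ] L).toRingHom := by
    intro R hR
    have h1 : f R = 0 := hR
    have h2 : aeval ξ R = 0 := by
      rw [← hfv, h1]
      rfl
    exact (hker R).1 h2
  set g := AlgHom.liftOfSurjective f hfs (aeval x) hle with hg
  have hgv : ∀ R, g (f R) = aeval x R := fun R => AlgHom.liftOfSurjective_apply f hfs (aeval x) hle R
  have hgi : Function.Injective g := by
    rw [injective_iff_map_eq_zero]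
    intro a ha
    obtain ⟨R, rfl⟩ := hfs a
    rw [hgv] at ha
    exact Subtype.ext ((hker R).2 ha)
  have hfr : IsFractionRing (aeval ξ : MvPolynomial (Fin (N + 1)) ℂ →ₐ[ℂ] FunField Q).range (FunField Q) := by
    refine IsFractionRing.of_field _ _ fun z => ?_
    have hz : z ∈ IntermediateField.adjoin ℂ (Set.range ξ) := by
      rw [adjoin_ratio hj]
      trivial
    obtain ⟨r, s, hrs⟩ := (IntermediateField.mem_adjoin_range_iff ℂ ξ z).1 hz
    exact ⟨f r, f s, hrs⟩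
  refine ⟨IsFractionRing.liftAlgHom hgi, fun i => ?_⟩
  rw [IsFractionRing.liftAlgHom_apply]
  have h1 : ratio Q i j = algebraMap (aeval ξ : MvPolynomial (Fin (N + 1)) ℂ →ₐ[ℂ] FunField Q).range (FunField Q) (f (X i)) := by
    change _ = aeval ξ (X i)
    rw [aeval_X]
  rw [h1, IsFractionRing.lift_algebraMap]
  change g (f (X i)) = _
  rw [hgv, aeval_X]

end Pool.Agent.H7.Qup

end
end

section

/-!
# MQ2 TSN: a saddle-node with both axes in the weight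
-/

set_option autoImplicit false

open Topology Filter Metric MeasureTheory Asymptotics Laplacian

noncomputable section

namespace Pool.Agent.MQ2

open Pool.Agent.H36.BP (EN)
open Pool.Agent.H30M (tau LogSing)
open Pool.Agent.MQ

/-- the field depends only on the values of the weight in the ball -/
theorem DDv_congr_weight {v : ℂ × ℂ → ℂ × ℂ} {g g' : ℂ × ℂ → ℂ} {r : ℝ} {Om : Set ℂ} {p : ℂ → ℂ × ℂ} (hc : Crv1 v r Om p)
    (h : ∀ q ∈ ball (0 : ℂ × ℂ) r, g q = g' q) {z : ℂ} (hz : z ∈ Om) : DDv v g p z = DDv v g' p z := by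
  have e : (fun w => g (p w)) =ᶠ[𝓝 z] fun w => g' (p w) := by
    filter_upwards [hc.isOpen.mem_nhds hz] with w hw
    exact h _ (hc.mem w hw)
  unfold DDv
  rw [e.deriv_eq, h _ (hc.mem z hz)]

theorem LocalN1.congr_weight {v : ℂ × ℂ → ℂ × ℂ} {g g' : ℂ × ℂ → ℂ} {r : ℝ} {Om : Set ℂ} {p : ℂ → ℂ × ℂ} (hc : Crv1 v r Om p)
    (h : ∀ q ∈ ball (0 : ℂ × ℂ) r, g q = g' q) {I Λ : ℝ → ℝ} {s δ : ℝ} (hN : LocalN1 v g' Om p I Λ s δ) : LocalN1 v g Om p I Λ s δ := by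
  obtain ⟨C, η, err, h1, h2, h3, h4, h5⟩ := hN
  refine ⟨C, η, err, h1, h2, h3, fun z hz hz' => ?_, h5⟩
  rw [DDv_congr_weight hc h hz]
  exact h4 z hz hz'

/-- small radii -/
theorem ev_closedBall {Q : ℂ × ℂ → Prop} (h : ∀ᶠ q in 𝓝 (0 : ℂ × ℂ), Q q) : ∀ᶠ r in 𝓝[>] (0 : ℝ), ∀ q ∈ closedBall (0 : ℂ × ℂ) r, Q q := by
  obtain ⟨e, he, h1⟩ := Metric.eventually_nhds_iff_ball.1 h
  filter_upwards [mem_nhdsWithin_of_mem_nhds (gt_mem_nhds he)] with r hr q hq
  exact h1 q (closedBall_subset_ball hr hq)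

/-- the package of a saddle-node with both axes in the weight: every positive error -/
theorem locX_sn {k : ℕ} (hk : 1 ≤ k) {a b : ℂ × ℂ → ℂ} (ha : AnalyticAt ℂ a 0) (hb : AnalyticAt ℂ b 0) (ha0 : a 0 ≠ 0) (hb0 : b 0 ≠ 0)
    {g J : ℂ × ℂ → ℂ} (hg : ∀ᶠ p in 𝓝 (0 : ℂ × ℂ), g p = p.1 * p.2) (hJ : ∀ᶠ p in 𝓝 (0 : ℂ × ℂ), J p = p.1 ^ (k + 1))
    (hW : Wt (fun p => (p.1 ^ (k + 1) * a p, p.2 * b p)) g) :
    ∀ᶠ r in 𝓝[>] (0 : ℝ), ∀ s, 0 < s → ∀ B, 0 ≤ B → ∀ (lm : ℂ → ℝ) (Om : Set ℂ) (p : ℂ → ℂ × ℂ), Crv1 (fun p => (p.1 ^ (k + 1) * a p, p.2 * b p)) r Om p →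
      (∀ z ∈ Om, ∃ᶠ w in 𝓝 z, g (p w) ≠ 0) → Continuous lm → (∀ z, 0 ≤ lm z) → (∀ z ∈ Om, ‖deriv p z‖ ≤ B * lm z) → ∀ δ, 0 < δ →
        LocX (fun p => (p.1 ^ (k + 1) * a p, p.2 * b p)) g J Om p lm s 1 δ := by
  set v : ℂ × ℂ → ℂ × ℂ := fun p => (p.1 ^ (k + 1) * a p, p.2 * b p) with hv
  have hvan : AnalyticAt ℂ v 0 := ((analyticAt_fst.pow _).mul ha).prod (analyticAt_snd.mul hb)
  have hiso : ∀ᶠ q in 𝓝 (0 : ℂ × ℂ), q ≠ 0 → v q ≠ 0 := by
    filter_upwards [ha.continuousAt.eventually_ne ha0, hb.continuousAt.eventually_ne hb0] with q h1 h2 h3 h4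
    have h5 : q.1 ^ (k + 1) * a q = 0 := congrArg Prod.fst h4
    have h6 : q.2 * b q = 0 := congrArg Prod.snd h4
    refine h3 (Prod.ext ?_ ((mul_eq_zero.1 h6).resolve_right h2))
    exact pow_eq_zero_iff (by omega) |>.1 ((mul_eq_zero.1 h5).resolve_right h1)
  filter_upwards [ev_closedBall ha.eventually_analyticAt, ev_closedBall hb.eventually_analyticAt, ev_closedBall (ha.continuousAt.eventually_ne ha0),
    ev_closedBall (hb.continuousAt.eventually_ne hb0), ev_closedBall hg, ev_closedBall hJ, ev_closedBall hiso, DD_cof hvan hiso hW, self_mem_nhdsWithin]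
    with r a1 a2 a3 a4 a5 a6 a7 a8 a9
  intro s hs B hB lm Om p hc hgne hlc hl0 hp δ hδ
  obtain ⟨_, -, h1⟩ := a8
  have hmem : ∀ z ∈ Om, p z ∈ closedBall (0 : ℂ × ℂ) r := fun z hz => ball_subset_closedBall (hc.mem z hz)
  have hgz : ∀ z ∈ Om, p z ≠ 0 → g (p z) ≠ 0 := fun z hz h0 => (h1 Om p hc hgne z hz (a7 _ (hmem z hz) h0)).1
  have hgz' : ∀ z ∈ Om, p z ≠ 0 → (fun q : ℂ × ℂ => q.1 * q.2) (p z) ≠ 0 := by
    intro z hz h0
    have := hgz z hz h0
    rwa [a5 _ (hmem z hz)] at this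
  have hN := localN1_saddleNode (g := fun q => q.1 * q.2) (g₁ := fun q => q.1) hc hk a1 a2 a3 a4 (fun _ => rfl) (fun _ => rfl) (Or.inl fun _ => rfl) hgz' hlc hp
    (I := fun R => ∫ z, tau R z * lm z ^ 2) (Λ := fun R => ∫ z, ‖gr (tau R) z‖ * lm z) (fun R _ => le_rfl)
    (fun R _ => integral_nonneg fun z => mul_nonneg (norm_nonneg _) (hl0 z)) hs hδ
  have hN' : LocalN1 v g Om p (fun R => ∫ z, tau R z * lm z ^ 2) (fun R => ∫ z, ‖gr (tau R) z‖ * lm z) s δ :=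
    LocalN1.congr_weight hc (fun q hq => a5 q (ball_subset_closedBall hq)) hN
  -- the pointwise bound
  have hr : 0 < r := a9
  obtain ⟨Cb, hCb⟩ := (isCompact_closedBall (0 : ℂ × ℂ) r).bddAbove_image (f := fun q => ‖b q‖⁻¹)
    (ContinuousOn.inv₀ (fun q hq => (a2 q hq).continuousAt.norm.continuousWithinAt) fun q hq => norm_ne_zero_iff.2 (a4 q hq))
  have hCb0 : 0 ≤ Cb := by
    have h0 : (0 : ℂ × ℂ) ∈ closedBall (0 : ℂ × ℂ) r := mem_closedBall_self hr.le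
    exact (inv_nonneg.2 (norm_nonneg (b 0))).trans (hCb ⟨0, h0, rfl⟩)
  refine locX_of_localN1 (C₁ := Cb * r ^ (k + 2) * B) hB (by positivity) hlc hl0 hp hN' fun z hz hzt => ?_
  have hz' := hmem z hz
  rw [a5 _ hz', a6 _ hz']
  by_cases hy : (p z).2 = 0
  · rw [hy, mul_zero, norm_zero, mul_zero, zero_mul]
    exact mul_nonneg (by positivity) (hl0 z)
  · have hy0 : 0 < ‖(p z).2‖ := norm_pos_iff.2 hy
    have hb' : 0 < ‖b (p z)‖ := norm_pos_iff.2 (a4 _ hz')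
    have hv2 : (v (p z)).2 ≠ 0 := mul_ne_zero hy (a4 _ hz')
    rw [ztv_snd hv2]
    have hv2' : (v (p z)).2 = (p z).2 * b (p z) := rfl
    rw [hv2', norm_div, norm_mul, norm_mul, norm_pow]
    have h2 : ‖(p z).1‖ ≤ r := by
      have := norm_fst_le (p z)
      rw [mem_closedBall_zero_iff] at hz'
      linarith
    have h3 : ‖(deriv p z).2‖ ≤ B * lm z := (norm_snd_le _).trans (hp z hz)
    have h4 : ‖b (p z)‖⁻¹ ≤ Cb := hCb ⟨p z, hz', rfl⟩
    have h5 : ‖(p z).1‖ ^ (k + 2) ≤ r ^ (k + 2) := pow_le_pow_left₀ (norm_nonneg _) h2 _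
    have e : ‖(deriv p z).2‖ / (‖(p z).2‖ * ‖b (p z)‖) * (‖(p z).1‖ * ‖(p z).2‖) * ‖(p z).1‖ ^ (k + 1) =
        ‖b (p z)‖⁻¹ * ‖(p z).1‖ ^ (k + 2) * ‖(deriv p z).2‖ := by
      rw [pow_succ' _ (k + 1)]
      field_simp
    rw [e]
    have hBl : 0 ≤ B * lm z := mul_nonneg hB (hl0 z)
    calc ‖b (p z)‖⁻¹ * ‖(p z).1‖ ^ (k + 2) * ‖(deriv p z).2‖ ≤ Cb * r ^ (k + 2) * (B * lm z) :=
          mul_le_mul (mul_le_mul h4 h5 (by positivity) hCb0) h3 (norm_nonneg _) (by positivity)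
      _ = Cb * r ^ (k + 2) * B * lm z := by ring

theorem good_sn {k : ℕ} (hk : 1 ≤ k) {a b : ℂ × ℂ → ℂ} (ha : AnalyticAt ℂ a 0) (hb : AnalyticAt ℂ b 0) (ha0 : a 0 ≠ 0) (hb0 : b 0 ≠ 0) :
    Good (fun g J => (∀ᶠ p in 𝓝 (0 : ℂ × ℂ), g p = p.1 * p.2) ∧ ∀ᶠ p in 𝓝 (0 : ℂ × ℂ), J p = p.1 ^ (k + 1))
      fun p => (p.1 ^ (k + 1) * a p, p.2 * b p) := by
  refine ⟨0, fun i => i.elim0, fun i => i.elim0, fun g J hP hW hJ => ?_⟩
  filter_upwards [locX_sn hk ha hb ha0 hb0 hP.1 hP.2 hW] with r hr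
  intro s hs hsr B hB
  refine ⟨1, 1, zero_le_one, zero_le_one, fun d n q ψ hd hn hq hψ _ M F Q lm Om p hD => ?_⟩
  have hd' : (0 : ℝ) < d := by exact_mod_cast hd
  have hn' : (0 : ℝ) < n := by exact_mod_cast hn
  exact hr s hs B hB lm Om p hD.crv hD.g_ne hD.lm_cont hD.lm_nonneg hD.lm_ge _ (by positivity)

end Pool.Agent.MQ2

end
end

section

/-!
# SY EiM: limits of entire curves, the metric of the blow-up

Along an ultrafilter the lifts `Φ n` of the curves `F n`, normalised by units (`char_fun`), converge near `0` to a curve `Ψ` of the blow-up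
(`montel_ultrafilter`).  The components of `Ψ z` are multiples of `H z` (`lift_prop`), so the property `lim` upstairs gives `H z ∉ T` for some `z`.
If all the `H z` are proportional, then they are not multiples of `q`, and `Ψ z` is proportional to `phi l (H z)`: `Ψ` is constant, a contradiction.
-/

set_option autoImplicit false

open Topology Filter Metric

noncomputable section

namespace Pool.Agent.SY

open Pool.Agent.H36.BP (EN fs wd Sub)
open Pool.Agent.H17BP (Pr Surface)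
open Pool.Agent.H62.BU (blow total Ker phi)

variable {V : Type} [NormedAddCommGroup V] [NormedSpace ℂ V] {ι : Type} [Fintype ι] {l : ι → V →L[ℂ] ℂ} {X T : Set V} {q : V}

/-- the multiplier of the lift does not vanish identically near any point -/
private theorem eim_ne (hX : Surface X) (hl : Ker l q) (hT : ∀ x ∈ T, ∀ c : ℂ, c ≠ 0 → c • x ∈ T) (hq : q ∈ T) {F : ℂ → V}
    (hF : Ent X T F) {Φ : ℂ → ι → V} {h : ℂ → ℂ} (hh : Differentiable ℂ h) (hphi : ∀ z, phi l (F z) = h z • Φ z) (z₀ : ℂ) :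
    ∀ᶠ z in 𝓝[≠] z₀, h z ≠ 0 := by
  rcases (hh.analyticAt z₀).eventually_eq_zero_or_eventually_ne_zero with h1 | h1
  · exfalso
    have h2 : ∀ z, h z = 0 := by
      intro z
      have h3 : AnalyticOnNhd ℂ h Set.univ := fun w _ => hh.analyticAt w
      exact h3.eqOn_zero_of_preconnected_of_eventuallyEq_zero isPreconnected_univ (Set.mem_univ z₀) h1 (Set.mem_univ z)
    obtain ⟨z, hz⟩ := hF.out
    apply hz
    have hne : F z ≠ 0 := fun h0 => hX.zero (h0 ▸ hF.mem z)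
    have h4 : ∀ b, l b (F z) = 0 := by
      intro b
      have h5 := congrFun (hphi z) b
      rw [h2 z, zero_smul] at h5
      have h6 : l b (F z) • F z = 0 := h5
      exact (smul_eq_zero.mp h6).resolve_right hne
    obtain ⟨c, hc⟩ := (hl (F z)).mp h4
    have hc0 : c ≠ 0 := by
      rintro rfl
      rw [zero_smul] at hc
      exact hne hc
    rw [hc]
    exact hT q hq c hc0
  · exact h1

/-- the components of the lift are proportional to the curve -/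
theorem lift_prop (hX : Surface X) (hl : Ker l q) (hT : ∀ x ∈ T, ∀ c : ℂ, c ≠ 0 → c • x ∈ T) (hq : q ∈ T) {F : ℂ → V}
    (hF : Ent X T F) {Φ : ℂ → ι → V} (h1 : IsLiftB l X T F Φ) (Λ : V →L[ℂ] ℂ) (b : ι) (z₀ : ℂ) :
    Λ (Φ z₀ b) • F z₀ = Λ (F z₀) • Φ z₀ b := by
  obtain ⟨hΦ, h, hh, hphi⟩ := h1
  have hc1 : Continuous F := hF.diff.continuous
  have hc2 : Continuous (fun z => Φ z b) := (continuous_apply b).comp hΦ.diff.continuous
  have h2 : Tendsto (fun z => Λ (Φ z b) • F z) (𝓝[≠] z₀) (𝓝 (Λ (Φ z₀ b) • F z₀)) :=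
    ((Λ.continuous.comp hc2).smul hc1).continuousAt.tendsto.mono_left nhdsWithin_le_nhds
  have h3 : Tendsto (fun z => Λ (F z) • Φ z b) (𝓝[≠] z₀) (𝓝 (Λ (F z₀) • Φ z₀ b)) :=
    ((Λ.continuous.comp hc1).smul hc2).continuousAt.tendsto.mono_left nhdsWithin_le_nhds
  refine tendsto_nhds_unique_of_eventuallyEq h2 h3 ?_
  filter_upwards [eim_ne hX hl hT hq hF hh hphi z₀] with z hz
  have h4 : l b (F z) • F z = h z • Φ z b := congrFun (hphi z) b
  have h5 : Φ z b = ((h z)⁻¹ * l b (F z)) • F z := by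
    rw [mul_smul, h4, smul_smul, inv_mul_cancel₀ hz, one_smul]
  rw [h5, map_smul, smul_smul, smul_eq_mul, mul_comm]

/-- MODULE EiM: limits -/
theorem down_lim [FiniteDimensional ℂ V] {N' : ℕ} {L' : (ι → V) ≃L[ℂ] EN N'} {rho : (ι → V) → ℝ} {M : ℕ} {c₀ C : ℝ} {g : (ℂ → ι → V) → ℂ → ℝ}
    (hX : Surface X) (hl : Ker l q) (hTX : T ⊆ X) (hT : ∀ x ∈ T, ∀ c : ℂ, c ≠ 0 → c • x ∈ T) (hq : q ∈ T)
    (E : Energy (blow l X) (total l X T) (fun y => ‖L' y‖) rho M c₀ C g)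
    (u : Filter ℕ) (hu : u.NeBot) (r A ε : ℝ) (hr : 0 < r) (hε : 0 < ε) (F : ℕ → ℂ → V) (H : ℂ → V) (hF : ∀ᶠ n in u, Ent X T (F n))
    (hA : ∀ᶠ n in u, ∀ z ∈ ball (0 : ℂ) r, down l X T g (F n) z ≤ A) (hB : ∀ᶠ n in u, ε ≤ down l X T g (F n) 0)
    (hc : ∃ h : ℕ → ℂ → ℂ, (∀ᶠ n in u, DifferentiableOn ℂ (h n) (ball 0 r) ∧ ∀ z ∈ ball (0 : ℂ) r, h n z ≠ 0) ∧
      TendstoLocallyUniformlyOn (fun n z => h n z • F n z) H u (ball 0 r))
    (hH : ∀ z ∈ ball (0 : ℂ) r, H z ∈ X) :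
    (∃ z ∈ ball (0 : ℂ) r, H z ∉ T) ∧ ∃ z ∈ ball (0 : ℂ) r, ∃ w ∈ ball (0 : ℂ) r, ¬ Pr (H z) (H w) := by
  classical
  have : CompleteSpace V := FiniteDimensional.complete ℂ V
  have : CompleteSpace (ι → V) := FiniteDimensional.complete ℂ (ι → V)
  have : ProperSpace (ι → V) := FiniteDimensional.proper ℂ (ι → V)
  have hX' := Pool.Agent.H62.BU.toSurface hX
  -- the lifts
  have hΦex : ∀ n, ∃ Φ : ℂ → ι → V, Ent X T (F n) → IsLiftB l X T (F n) Φ := by
    intro n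
    by_cases h : Ent X T (F n)
    · obtain ⟨Φ, hΦ⟩ := exists_liftB hX hl hTX hT hq h
      exact ⟨Φ, fun _ => hΦ⟩
    · exact ⟨fun _ => 0, fun h' => absurd h' h⟩
  choose Φ hΦ using hΦex
  -- the units
  have hr' : 0 < r / 2 := half_pos hr
  have hsub : closedBall (0 : ℂ) (r / 2) ⊆ ball 0 r := closedBall_subset_ball (half_lt_self hr)
  set c' : ℝ := Real.exp (-(1 + Real.log (A / ε * Real.exp 1 * Real.exp ((C * A ^ 2 + 1) * (r / 2) ^ 2))) / c₀) with hc'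
  have hc'0 : 0 < c' := Real.exp_pos _
  have hvex : ∀ n, ∃ v : ℂ → ℂ, Ent X T (F n) → (∀ z ∈ ball (0 : ℂ) r, down l X T g (F n) z ≤ A) → ε ≤ down l X T g (F n) 0 →
      Differentiable ℂ v ∧ (∀ z ∈ ball (0 : ℂ) (r / 2), ‖Complex.exp (v z) • L' (Φ n z)‖ ≤ 1) ∧
      c' ≤ ‖Complex.exp (v 0) • L' (Φ n 0)‖ := by
    intro n
    by_cases h : Ent X T (F n) ∧ (∀ z ∈ ball (0 : ℂ) r, down l X T g (F n) z ≤ A) ∧ ε ≤ down l X T g (F n) 0
    · obtain ⟨h1, h2, h3⟩ := h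
      have h4 := hΦ n h1
      rw [down_eq hX hl hTX hT hq E h1 h4] at h2 h3
      obtain ⟨v, hv⟩ := char_fun (N := N') (F := fun z => L' (Φ n z)) (m := g (Φ n)) E.c₀_pos E.C_pos.le hr' hε
        ((L' : (ι → V) →L[ℂ] EN N').differentiable.comp h4.1.diff)
        (fun z h0 => (h4.1.mem z).2 (by simpa using congrArg L'.symm h0))
        (fun z _ a ha => nhdsWithin_le_nhds (E.usc _ h4.1 z a ha)) (fun z hz => h2 z (hsub hz)) h3
        (fun z _ hz => E.sub _ h4.1 z hz)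
      exact ⟨v, fun _ _ _ => hv⟩
    · exact ⟨fun _ => 0, fun h1 h2 h3 => absurd ⟨h1, h2, h3⟩ h⟩
  choose v hv using hvex
  -- the limit upstairs
  set 𝒰 : Ultrafilter ℕ := Ultrafilter.of u with h𝒰
  have h𝒰u : (𝒰 : Filter ℕ) ≤ u := Ultrafilter.of_le u
  have hev : ∀ᶠ n in (𝒰 : Filter ℕ), Ent X T (F n) ∧ (∀ z ∈ ball (0 : ℂ) r, down l X T g (F n) z ≤ A) ∧
      ε ≤ down l X T g (F n) 0 := h𝒰u (hF.and (hA.and hB))
  have hd : ∀ᶠ n in (𝒰 : Filter ℕ), DifferentiableOn ℂ (fun z => Complex.exp (v n z) • Φ n z) (ball 0 (r / 2)) := by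
    filter_upwards [hev] with n hn
    exact ((hv n hn.1 hn.2.1 hn.2.2).1.cexp.smul (hΦ n hn.1).1.diff).differentiableOn
  have hbd : ∀ᶠ n in (𝒰 : Filter ℕ), ∀ z ∈ ball (0 : ℂ) (r / 2),
      ‖Complex.exp (v n z) • Φ n z‖ ≤ ‖(L'.symm : EN N' →L[ℂ] (ι → V))‖ := by
    filter_upwards [hev] with n hn z hz
    have h4 : Complex.exp (v n z) • Φ n z = (L'.symm : EN N' →L[ℂ] (ι → V)) (Complex.exp (v n z) • L' (Φ n z)) := by
      rw [map_smul]
      simp
    rw [h4]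
    calc ‖(L'.symm : EN N' →L[ℂ] (ι → V)) (Complex.exp (v n z) • L' (Φ n z))‖
        ≤ ‖(L'.symm : EN N' →L[ℂ] (ι → V))‖ * ‖Complex.exp (v n z) • L' (Φ n z)‖ :=
          (L'.symm : EN N' →L[ℂ] (ι → V)).le_opNorm _
      _ ≤ ‖(L'.symm : EN N' →L[ℂ] (ι → V))‖ * 1 :=
          mul_le_mul_of_nonneg_left ((hv n hn.1 hn.2.1 hn.2.2).2.1 z hz) (norm_nonneg _)
      _ = _ := mul_one _
  obtain ⟨Ψ, hΨd, hΨc⟩ := Pool.Agent.H17.montel_ultrafilter 𝒰 hd hbd
  have h0mem : (0 : ℂ) ∈ ball (0 : ℂ) (r / 2) := mem_ball_self hr'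
  have hpt : ∀ z ∈ ball (0 : ℂ) (r / 2), Tendsto (fun n => Complex.exp (v n z) • Φ n z) (𝒰 : Filter ℕ) (𝓝 (Ψ z)) :=
    fun z hz => hΨc.tendsto_at hz
  have hΨ0 : Ψ 0 ≠ 0 := by
    have h1 : Tendsto (fun n => ‖L' (Complex.exp (v n 0) • Φ n 0)‖) (𝒰 : Filter ℕ) (𝓝 ‖L' (Ψ 0)‖) :=
      ((L'.continuous.tendsto _).comp (hpt 0 h0mem)).norm
    have h2 : c' ≤ ‖L' (Ψ 0)‖ := by
      refine ge_of_tendsto h1 ?_
      filter_upwards [hev] with n hn
      rw [map_smul]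
      exact (hv n hn.1 hn.2.1 hn.2.2).2.2
    intro h3
    rw [h3, map_zero, norm_zero] at h2
    linarith
  have hcont : ContinuousAt Ψ 0 := (hΨd.differentiableAt (isOpen_ball.mem_nhds h0mem)).continuousAt
  obtain ⟨s, hs, hsb⟩ := Metric.eventually_nhds_iff_ball.1 ((hcont.eventually_ne hΨ0).and (isOpen_ball.mem_nhds h0mem))
  have hsr : ∀ z ∈ ball (0 : ℂ) s, z ∈ ball (0 : ℂ) r := fun z hz => hsub (ball_subset_closedBall (hsb z hz).2)
  have hmem : ∀ z ∈ ball (0 : ℂ) s, Ψ z ∈ blow l X := by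
    intro z hz
    refine Pool.Agent.H62.BU.blow_closed _ ?_ (hsb z hz).1
    refine mem_closure_of_tendsto (hpt z (hsb z hz).2) ?_
    filter_upwards [hev] with n hn
    exact Pool.Agent.H62.BU.blow_smul _ ((hΦ n hn.1).1.mem z) _ (Complex.exp_ne_zero _)
  obtain ⟨⟨p, hp, hpT⟩, ⟨a, ha, b, hb, hab⟩⟩ := E.lim (𝒰 : Filter ℕ) inferInstance s A ε hs hε Φ Ψ
    (hev.mono fun n hn => (hΦ n hn.1).1)
    (by
      filter_upwards [hev] with n hn z hz
      rw [← down_eq hX hl hTX hT hq E hn.1 (hΦ n hn.1)]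
      exact hn.2.1 z (hsr z hz))
    (by
      filter_upwards [hev] with n hn
      rw [← down_eq hX hl hTX hT hq E hn.1 (hΦ n hn.1)]
      exact hn.2.2)
    ⟨fun n z => Complex.exp (v n z), by
      filter_upwards [hev] with n hn
      exact ⟨(hv n hn.1 hn.2.1 hn.2.2).1.cexp.differentiableOn, fun z _ => Complex.exp_ne_zero _⟩,
      hΨc.mono fun w hw => (hsb w hw).2⟩
    hmem
  -- the components of the limit
  obtain ⟨h, hh1, hh2⟩ := hc
  have hH0 : ∀ z ∈ ball (0 : ℂ) s, H z ≠ 0 := fun z hz h0 => hX.zero (h0 ▸ hH z (hsr z hz))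
  have hcomp : ∀ z ∈ ball (0 : ℂ) s, ∀ b, ∃ c : ℂ, Ψ z b = c • H z := by
    intro z hz b
    have hHz := hH0 z hz
    obtain ⟨Λ, hΛ⟩ := exists_dual_vector ℂ (H z) (norm_ne_zero_iff.mpr hHz)
    have hΛ0 : Λ (H z) ≠ 0 := by
      rw [hΛ.2]
      simpa using hHz
    have hlimH : Tendsto (fun n => h n z • F n z) (𝒰 : Filter ℕ) (𝓝 (H z)) := (hh2.tendsto_at (hsr z hz)).mono_left h𝒰u
    have hlimΨ : Tendsto (fun n => Complex.exp (v n z) • Φ n z b) (𝒰 : Filter ℕ) (𝓝 (Ψ z b)) :=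
      ((continuous_apply b).tendsto _).comp (hpt z (hsb z hz).2)
    have h1 : Λ (Ψ z b) • H z = Λ (H z) • Ψ z b := by
      refine tendsto_nhds_unique_of_eventuallyEq (((Λ.continuous.tendsto _).comp hlimΨ).smul hlimH)
        (((Λ.continuous.tendsto _).comp hlimH).smul hlimΨ) ?_
      filter_upwards [hev] with n hn
      have h2 := lift_prop hX hl hT hq hn.1 (hΦ n hn.1) Λ b z
      simp only [Function.comp_apply, map_smul, smul_eq_mul]
      calc (Complex.exp (v n z) * Λ (Φ n z b)) • h n z • F n z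
          = (Complex.exp (v n z) * h n z) • (Λ (Φ n z b) • F n z) := by
            simp only [smul_smul]
            congr 1
            ring
        _ = (Complex.exp (v n z) * h n z) • (Λ (F n z) • Φ n z b) := by rw [h2]
        _ = (h n z * Λ (F n z)) • Complex.exp (v n z) • Φ n z b := by
            simp only [smul_smul]
            congr 1
            ring
    refine ⟨(Λ (H z))⁻¹ * Λ (Ψ z b), ?_⟩
    rw [mul_smul, h1, smul_smul, inv_mul_cancel₀ hΛ0, one_smul]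
  have hout : ∀ z ∈ ball (0 : ℂ) s, Ψ z ∉ total l X T → H z ∉ T := by
    intro z hz hz1 hz2
    apply hz1
    refine ⟨hmem z hz, fun b hb => ?_⟩
    obtain ⟨c, hc⟩ := hcomp z hz b
    have hc0 : c ≠ 0 := by
      rintro rfl
      rw [zero_smul] at hc
      exact hb hc
    rw [hc]
    exact hT _ hz2 c hc0
  refine ⟨⟨p, hsr p hp, hout p hp hpT⟩, ?_⟩
  by_contra hcon
  push Not at hcon
  apply hab
  -- the limit is determined by the curve downstairs
  have key : ∀ z ∈ ball (0 : ℂ) s, Pr (Ψ z) (phi l (H z)) := by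
    intro z hz
    have hHT : H z ∉ T := by
      intro h1
      obtain ⟨c, hc0, hc⟩ := hcon p (hsr p hp) z (hsr z hz)
      apply hout p hp hpT
      rw [hc]
      exact hT _ h1 c hc0
    have hlb : ∃ b', l b' (H z) ≠ 0 := by
      by_contra hcon'
      push Not at hcon'
      obtain ⟨c, e⟩ := (hl (H z)).1 hcon'
      have hc : c ≠ 0 := by
        rintro rfl
        rw [zero_smul] at e
        exact hH0 z hz e
      exact hHT (e ▸ hT q hq c hc)
    obtain ⟨b', hb'⟩ := hlb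
    obtain ⟨b, hb⟩ := Pool.Agent.H62.BU.exists_ne _ (hmem z hz)
    obtain ⟨c, hc⟩ := hcomp z hz b
    have hc0 : c ≠ 0 := by
      rintro rfl
      rw [zero_smul] at hc
      exact hb hc
    have h1 : l b' (Ψ z b) ≠ 0 := by
      rw [hc, map_smul]
      exact smul_ne_zero hc0 hb'
    have h2 := Pool.Agent.H62.BU.eq_phi _ (hmem z hz) hb h1
    have h3 := Pool.Agent.H62.BU.ne_of_ne _ (hmem z hz) hb h1
    refine ⟨(l b (Ψ z b))⁻¹ * c ^ 2, mul_ne_zero (inv_ne_zero h3) (pow_ne_zero 2 hc0), ?_⟩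
    calc Ψ z = (l b (Ψ z b))⁻¹ • phi l (Ψ z b) := h2
      _ = (l b (Ψ z b))⁻¹ • (c ^ 2 • phi l (H z)) := by rw [← Pool.Agent.H62.BU.phi_smul, ← hc]
      _ = _ := by rw [smul_smul]
  obtain ⟨c, hc0, hc⟩ := hcon a (hsr a ha) b (hsr b hb)
  have h1 : Pr (phi l (H a)) (phi l (H b)) :=
    ⟨c ^ 2, pow_ne_zero 2 hc0, by rw [hc, Pool.Agent.H62.BU.phi_smul]⟩
  exact (key a ha).trans (h1.trans (key b hb).symm)

end Pool.Agent.SY

end
end
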