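import Pool.Agent.H94.G6.H7.Qup.Rel
import Pool.Agent.H94.G6.M107
import Pool.Agent.H94.G6.M82
import Pool.Agent.H94.G6.M87
import Pool.Agent.H94.G6.M98

/-! The parts of this file: H13.CV.Strong, H7.Qup.Bd_1, H7.Qup.Main, H66.SD.Dom. -/

section

/-!
# CV Strong: the closed subvarieties which are not contained in the exceptional set

`strongly_of_brody`: `Ξ` is Zariski closed in `openVar P H`: `Ξ = {x ∈ openVar P H | all forms of S vanish at x}` (see the definition of `ZariskiClosedIn`).  Let `Q ⊇ P` be as in the field `strongly` of `GGLWith`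
(`Pool/Agent/H17R/Defs.lean`), of dimension `w`.  If `Q ≤ P` then `Q = P` and `hlgt` applies.  Otherwise `w < 2` by `trdeg_lt`, so `w = 1` (`1 ≤ w`).  If `Q` is not of log general type then there is a non-constant entire
curve in `openVar Q H` (`exists_entire_of_not_lgt`), it is in `openVar P H`, so in `Ξ` by `hbr`; so all forms of `S` vanish on it, so they are in `Q` by `form_of_curve`, so `openVar Q H ⊆ Ξ`: contradiction.
-/

set_option autoImplicit false

open Topology Filter MvPolynomial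
open Pool.Agent.H17 (PN VanishesAt ZariskiClosedIn HolomorphicInto puncturedDisc)
open Pool.Agent.H17LG.Variety (FunField IsLogGeneralType)
open Pool.Agent.H62.FC (Homog)
open Pool.Agent.H17R (openVar)
open Pool.Agent.H62.SA (locVar OnBd)

noncomputable section

namespace Pool.Agent.H13.CV

variable {N : ℕ}

/-- the version for the complement of the common zeros of forms -/
theorem strongly_of_brodyL (P : Ideal (MvPolynomial (Fin (N + 1)) ℂ)) [P.IsPrime] (hP : Homog P) (hz : ∃ z : Fin 2 → FunField P, IsTranscendenceBasis ℂ z)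
    {s : ℕ} {G : Fin s → MvPolynomial (Fin (N + 1)) ℂ} (hG : ∀ m, ∃ d, (G m).IsHomogeneous d) {Ξ : Set (PN N)} (hΞ : ZariskiClosedIn (locVar P G) Ξ)
    (hlgt : IsLogGeneralType (OnBd P G (k := 2)))
    (hbr : ∀ f : ℂ → PN N, HolomorphicInto f Set.univ → (∀ z, f z ∈ locVar P G) → (∃ z w, f z ≠ f w) → ∀ z, f z ∈ Ξ)
    (Q : Ideal (MvPolynomial (Fin (N + 1)) ℂ)) [Q.IsPrime] (hQ : Homog Q) (hPQ : P ≤ Q) (hQΞ : ¬ locVar Q G ⊆ Ξ) (w : ℕ) (hw : 1 ≤ w)
    (hz' : ∃ z : Fin w → FunField Q, IsTranscendenceBasis ℂ z) : IsLogGeneralType (OnBd Q G (k := w)) := by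
  have hsub : locVar Q G ⊆ locVar P G := fun x hx => ⟨fun R hR n hn => hx.1 R (hPQ hR) n hn, hx.2⟩
  have hX : ∃ i, (X i : MvPolynomial (Fin (N + 1)) ℂ) ∉ Q := by
    obtain ⟨x, hx, _⟩ := Set.not_subset.1 hQΞ
    by_contra hcon
    push Not at hcon
    apply x.rep_nonzero
    funext i
    have h1 : VanishesAt (X i : MvPolynomial (Fin (N + 1)) ℂ) x := hx.1 _ (hcon i) 1 (isHomogeneous_X ℂ i)
    have h2 : eval x.rep (X i : MvPolynomial (Fin (N + 1)) ℂ) = 0 := h1
    rw [eval_X] at h2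
    exact h2
  by_cases hle : Q ≤ P
  · have hEq : P = Q := le_antisymm hPQ hle
    subst hEq
    have h1 : w ≤ 2 := Pool.Agent.H62.FC.trdeg_mono hP hP le_rfl hz hz'
    have h2 : 2 ≤ w := Pool.Agent.H62.FC.trdeg_mono hP hP le_rfl hz' hz
    obtain rfl : w = 2 := le_antisymm h1 h2
    exact hlgt
  · have hlt : w < 2 := Pool.Agent.H17BP.trdeg_lt hP hQ hPQ hle hX hz hz'
    obtain rfl : w = 1 := by omega
    by_contra hl
    obtain ⟨f, hf, hfQ, hne⟩ := exists_entire_of_not_lgtL Q hX hz' hG hl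
    have hΞf : ∀ z, f z ∈ Ξ := hbr f hf (fun z => hsub (hfQ z)) hne
    obtain ⟨S, hS, hSΞ⟩ := hΞ
    apply hQΞ
    intro x hx
    rw [hSΞ]
    refine ⟨hsub hx, fun R hR => ?_⟩
    obtain ⟨n, hn⟩ := hS R hR
    have hRf : ∀ z, VanishesAt R (f z) := by
      intro z
      have h3 := hΞf z
      rw [hSΞ] at h3
      exact h3.2 R hR
    exact hx.1 R (form_of_curve0 Q hQ hz' hf (fun z => (hfQ z).1) hne hn hRf) n hn

end Pool.Agent.H13.CV

end
end

section

/-!
# Qup Bd: the boundary and dominant regular maps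

`exists_compat`: a dominant regular map `p : U' → U` gives an embedding `e` of the function field of `U` in the function field of `U'`.  `onBd_over`: if the
prime divisor `E` over `U'` lies over the prime divisor `D` over `U` and `D` is centred on the boundary of `U`, then `E` is centred on the boundary of `U'`.
`logGT_up`: if `U` is of log general type, and `U'` has the same dimension, then `U'` is of log general type.
-/

set_option autoImplicit false

open MvPolynomial

noncomputable section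

namespace Pool.Agent.H7.Qup

open Pool.Agent.H17 (PN VanishesAt vanishesAt_mk_iff)
open Pool.Agent.H17GT (coordFun)
open Pool.Agent.H17LG.Variety (FunField ratio IsLogGeneralType)
open Pool.Agent.H23.Fano (PrimeDivisorOver)
open Pool.Agent.H62.FC (Homog)
open Pool.Agent.H62.SA (locVar OnBd)
open Pool.Agent.H17R (gen gen_eq_zero_iff ratio_self coordFun_ne_zero_iff gen_change exists_center ord_gen_nonneg ratio_ne_zero_iff)
open Pool.Agent.H7.Bir (vals rmap mem_of_open)

variable {N M : ℕ} {P : Ideal (MvPolynomial (Fin (N + 1)) ℂ)} {P' : Ideal (MvPolynomial (Fin (M + 1)) ℂ)} {s s' : ℕ}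
  {G : Fin s → MvPolynomial (Fin (N + 1)) ℂ} {G' : Fin s' → MvPolynomial (Fin (M + 1)) ℂ} {p : PN M → PN N}

/-- The embedding of the function fields corresponds to the map `p`. -/
def Compat (P : Ideal (MvPolynomial (Fin (N + 1)) ℂ)) [P.IsPrime] (P' : Ideal (MvPolynomial (Fin (M + 1)) ℂ)) [P'.IsPrime]
    (G' : Fin s' → MvPolynomial (Fin (M + 1)) ℂ) (p : PN M → PN N) (e : FunField P →ₐ[ℂ] FunField P') : Prop :=
  ∀ (D : ℕ) (γ : Fin (N + 1) → MvPolynomial (Fin (M + 1)) ℂ), Rep P' G' p D γ → (∃ y ∈ locVar P' G', vals γ y.rep ≠ 0) →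
    ∀ j', X j' ∉ P' → ∀ i₀, X i₀ ∉ P → ∀ i, e (ratio P i i₀) * gen P' j' (γ i₀) = gen P' j' (γ i)

theorem exists_compat [P.IsPrime] [P'.IsPrime] (hp : IsDominantMap P P' G G' p) (hP' : Homog P')
    (hG' : ∀ m, ∃ n, (G' m).IsHomogeneous n) (hne : (locVar P' G').Nonempty) :
    ∃ e : FunField P →ₐ[ℂ] FunField P', Compat P P' G' p e := by
  obtain ⟨y₀, hy₀⟩ := hne
  have hne : (locVar P' G').Nonempty := ⟨y₀, hy₀⟩
  obtain ⟨j₁, hj₁⟩ := exists_coord hy₀
  obtain ⟨i₁, hi₁⟩ := exists_coord (hp.maps y₀ hy₀)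
  obtain ⟨D₁, γ₁, hγ₁, hv₁⟩ := hp.exists_rep hy₀
  have hcj : coordFun P' j₁ ≠ 0 := coordFun_ne_zero_iff.2 hj₁
  have hci : coordFun P i₁ ≠ 0 := coordFun_ne_zero_iff.2 hi₁
  have hmaps := hp.maps_iff hP' hG' hγ₁ ⟨y₀, hy₀, hv₁⟩
  have hγi : ∀ i, X i ∉ P → γ₁ i ∉ P' := by
    intro i hi h
    apply hi
    rw [← hmaps 1 _ (isHomogeneous_X ℂ i), aeval_X]
    exact h
  have hc : gen P' j₁ (γ₁ i₁) ≠ 0 := fun h0 => hγi i₁ hi₁ ((gen_eq_zero_iff hcj (hγ₁.hom i₁)).1 h0)
  set x : Fin (N + 1) → FunField P' := fun i => gen P' j₁ (γ₁ i) / gen P' j₁ (γ₁ i₁) with hx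
  have hx1 : x i₁ = 1 := div_self hc
  have hker : ∀ (n : ℕ) (R : MvPolynomial (Fin (N + 1)) ℂ), R.IsHomogeneous n → (aeval x R = 0 ↔ R ∈ P) := by
    intro n R hR
    rw [← hmaps n R hR, ← gen_eq_zero_iff hcj (aeval_homog hγ₁.hom hR)]
    have h1 : gen P' j₁ (aeval γ₁ R) = gen P' j₁ (γ₁ i₁) ^ n * aeval x R := by
      unfold gen
      rw [Pool.Agent.H7.Bir.aeval_comp]
      exact Pool.Agent.H7.Bir.aeval_div hR hc _
    rw [h1, mul_eq_zero]
    exact ⟨Or.inr, fun h => h.resolve_left (pow_ne_zero _ hc)⟩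
  obtain ⟨e, he⟩ := exists_hom_val hci hx1 hker
  refine ⟨e, ?_⟩
  intro D γ hγ hγne j' hj' i₀ hi₀ i
  have hcj' : coordFun P' j' ≠ 0 := coordFun_ne_zero_iff.2 hj'
  have hci' : coordFun P i₀ ≠ 0 := coordFun_ne_zero_iff.2 hi₀
  -- change of the tuple
  have hrel : ∀ k l, gen P' j' (γ₁ k) * gen P' j' (γ l) = gen P' j' (γ₁ l) * gen P' j' (γ k) := by
    intro k l
    have h1 : γ₁ k * γ l - γ₁ l * γ k ∈ P' := by
      have hhom : (γ₁ k * γ l - γ₁ l * γ k).IsHomogeneous (D₁ + D) := ((hγ₁.hom k).mul (hγ.hom l)).sub ((hγ₁.hom l).mul (hγ.hom k))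
      refine mem_of_open hP' hG' hne hhom fun y hy => ?_
      unfold VanishesAt
      rw [map_sub, map_mul, map_mul, hγ₁.prop hγ hy k l, sub_self]
    have hhom : (γ₁ k * γ l - γ₁ l * γ k).IsHomogeneous (D₁ + D) := ((hγ₁.hom k).mul (hγ.hom l)).sub ((hγ₁.hom l).mul (hγ.hom k))
    have h2 := (gen_eq_zero_iff hcj' hhom).2 h1
    unfold gen at h2 ⊢
    rw [map_sub, map_mul, map_mul] at h2
    exact sub_eq_zero.1 h2
  -- change of the coordinate
  have hch : ∀ k, gen P' j₁ (γ₁ k) = ratio P' j' j₁ ^ D₁ * gen P' j' (γ₁ k) := fun k => gen_change hcj' (hγ₁.hom k)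
  have hr0 : ratio P' j' j₁ ≠ 0 := (ratio_ne_zero_iff hcj).2 hcj'
  have hg0 : gen P' j' (γ₁ i₀) ≠ 0 := fun h0 => hγi i₀ hi₀ ((gen_eq_zero_iff hcj' (hγ₁.hom i₀)).1 h0)
  have h3 : e (ratio P i i₁) = e (ratio P i₀ i₁) * e (ratio P i i₀) := by
    rw [← map_mul, ← ratio_change' hci']
  have h4 : gen P' j₁ (γ₁ i) = gen P' j₁ (γ₁ i₀) * e (ratio P i i₀) := by
    rw [he, he] at h3
    change gen P' j₁ (γ₁ i) / gen P' j₁ (γ₁ i₁) = gen P' j₁ (γ₁ i₀) / gen P' j₁ (γ₁ i₁) * e (ratio P i i₀) at h3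
    rw [div_mul_eq_mul_div, div_left_inj' hc] at h3
    exact h3
  have h5 : gen P' j' (γ₁ i) = gen P' j' (γ₁ i₀) * e (ratio P i i₀) := by
    rw [hch, hch, mul_assoc] at h4
    exact mul_left_cancel₀ (pow_ne_zero _ hr0) h4
  have h6 := hrel i i₀
  rw [h5, mul_assoc] at h6
  exact mul_left_cancel₀ hg0 h6

/-- **The boundary is mapped to the boundary.** -/
theorem onBd_over [P.IsPrime] [P'.IsPrime] (hp : IsDominantMap P P' G G' p) (hP' : Homog P')
    (hG : ∀ m, ∃ n, (G m).IsHomogeneous n) (hG' : ∀ m, ∃ n, (G' m).IsHomogeneous n)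
    {e : FunField P →ₐ[ℂ] FunField P'} (he : Compat P P' G' p e) {k : ℕ} {D : PrimeDivisorOver (FunField P) k}
    {E : PrimeDivisorOver (FunField P') k} {r : ℕ} (hr : 0 < r)
    (hDE : ∀ f : FunField P, f ≠ 0 → ∃ n : ℤ, D.ord f = n ∧ E.ord (e f) = ((r * n : ℤ) : WithTop ℤ)) (hne : (locVar P' G').Nonempty)
    (hD : OnBd P G D) : OnBd P' G' E := by
  obtain ⟨y₀, hy₀⟩ := hne
  obtain ⟨j₁, hj₁⟩ := exists_coord hy₀
  obtain ⟨j', hj', hE⟩ := exists_center E (coordFun_ne_zero_iff.2 hj₁)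
  refine ⟨j', hj', hE, fun m => ?_⟩
  by_contra hcon
  have h1 : G' m ∉ ctr E hE := hcon
  obtain ⟨v, hv0, hv, hvG⟩ := exists_ctr_point E hj' hE h1
  set y : PN M := Projectivization.mk ℂ v hv0 with hy
  have hyU : y ∈ locVar P' G' := by
    refine ⟨fun Q hQ n hn => ?_, m, ?_⟩
    · rw [hy, vanishesAt_mk_iff hn]
      exact hv _ (le_ctr hj' hn hQ)
    · obtain ⟨d, hd⟩ := hG' m
      rw [hy, vanishesAt_mk_iff hd]
      exact hvG
  obtain ⟨Dγ, γ, hγ, hvγ⟩ := hp.exists_rep hyU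
  have hval : ∀ {n : ℕ} {R : MvPolynomial (Fin (M + 1)) ℂ}, R.IsHomogeneous n → eval y.rep R ≠ 0 → E.ord (gen P' j' R) = 0 := by
    intro n R hR hyR
    rw [← notMem_ctr (h := hE)]
    intro h2
    apply hyR
    have h3 := (vanishesAt_mk_iff hR v hv0).2 (hv R h2)
    exact h3
  obtain ⟨i₁, hi₁⟩ : ∃ i, eval y.rep (γ i) ≠ 0 := by
    by_contra hcon
    push Not at hcon
    exact hvγ (funext hcon)
  have hγi : E.ord (gen P' j' (γ i₁)) = 0 := hval (hγ.hom i₁) hi₁
  have hmaps := hp.maps_iff hP' hG' hγ ⟨y, hyU, hvγ⟩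
  have hXi : X i₁ ∉ P := by
    intro h2
    rw [← hmaps 1 _ (isHomogeneous_X ℂ i₁), aeval_X] at h2
    exact hi₁ (hyU.1 _ h2 _ (hγ.hom i₁))
  have hci : coordFun P i₁ ≠ 0 := coordFun_ne_zero_iff.2 hXi
  have hXj' : X j' ∉ P' := coordFun_ne_zero_iff.1 hj'
  have hcomp := he Dγ γ hγ ⟨y, hyU, hvγ⟩ j' hXj' i₁ hXi
  have hgne : gen P' j' (γ i₁) ≠ 0 := by
    intro h2
    rw [h2, E.ord.map_zero] at hγi
    exact WithTop.top_ne_zero hγi
  -- from `E` to `D`
  have hnn : ∀ f : FunField P, 0 ≤ E.ord (e f) → 0 ≤ D.ord f := by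
    intro f hf
    by_cases hf0 : f = 0
    · rw [hf0, D.ord.map_zero]
      exact le_top
    · obtain ⟨n, hn, hn'⟩ := hDE f hf0
      rw [hn'] at hf
      rw [hn]
      have h2 : (0 : ℤ) ≤ r * n := by exact_mod_cast hf
      have h3 : (0 : ℤ) ≤ n := nonneg_of_mul_nonneg_right h2 (by exact_mod_cast hr)
      exact_mod_cast h3
  have hzz : ∀ f : FunField P, E.ord (e f) = 0 → D.ord f = 0 := by
    intro f hf
    by_cases hf0 : f = 0
    · rw [hf0, map_zero, E.ord.map_zero] at hf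
      exact absurd hf WithTop.top_ne_zero
    · obtain ⟨n, hn, hn'⟩ := hDE f hf0
      rw [hn'] at hf
      rw [hn]
      have h2 : (r : ℤ) * n = 0 := by exact_mod_cast hf
      have h3 : n = 0 := by
        rcases mul_eq_zero.1 h2 with h4 | h4
        · omega
        · exact h4
      rw [h3]
      rfl
  have hD1 : ∀ i, 0 ≤ D.ord (ratio P i i₁) := by
    intro i
    apply hnn
    have h2 := congrArg E.ord (hcomp i)
    rw [E.ord.map_mul, hγi, add_zero] at h2
    rw [h2]
    exact ord_gen_nonneg E hE _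
  -- a form `G m` which does not vanish at the image
  obtain ⟨-, m₁, hm₁⟩ := hp.maps y hyU
  obtain ⟨d, hd⟩ := hG m₁
  have h5 : E.ord (gen P' j' (aeval γ (G m₁))) = 0 := by
    refine hval (aeval_homog hγ.hom hd) fun h6 => hm₁ ?_
    rw [hγ.vanishes_iff hyU hvγ hd]
    exact h6
  have h6 : e (gen P i₁ (G m₁)) * gen P' j' (γ i₁) ^ d = gen P' j' (aeval γ (G m₁)) := by
    have h7 : ∀ i, e (ratio P i i₁) = gen P' j' (γ i) / gen P' j' (γ i₁) := fun i => by
      rw [eq_div_iff hgne]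
      exact hcomp i
    have h8 : e (gen P i₁ (G m₁)) = aeval (fun i => gen P' j' (γ i) / gen P' j' (γ i₁)) (G m₁) := by
      unfold gen
      have h9 : e (aeval (fun i => ratio P i i₁) (G m₁)) = aeval (fun i => e (ratio P i i₁)) (G m₁) := by
        rw [← AlgHom.comp_apply, MvPolynomial.comp_aeval]
      rw [h9]
      congr 2
      funext i
      exact h7 i
    have h10 : gen P' j' (aeval γ (G m₁)) = gen P' j' (γ i₁) ^ d * aeval (fun i => gen P' j' (γ i) / gen P' j' (γ i₁)) (G m₁) := by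
      unfold gen
      rw [Pool.Agent.H7.Bir.aeval_comp]
      exact Pool.Agent.H7.Bir.aeval_div hd hgne _
    rw [h8, h10, mul_comm]
  have h7 : D.ord (gen P i₁ (G m₁)) = 0 := by
    apply hzz
    have h8 := congrArg E.ord h6
    rw [E.ord.map_mul, E.ord.map_pow, hγi, smul_zero, add_zero, h5] at h8
    exact h8
  -- compare with the coordinate `j`
  obtain ⟨j, hj, hDj, hDG⟩ := hD
  have h8 : D.ord (ratio P i₁ j) = 0 := by
    have h9 : ratio P j j = ratio P i₁ j * ratio P j i₁ := ratio_change' hci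
    have h10 := congrArg D.ord h9
    rw [ratio_self hj, D.ord.map_one, D.ord.map_mul] at h10
    refine le_antisymm ?_ (hDj i₁)
    rw [h10]
    exact le_add_of_nonneg_right (hD1 j)
  have h9 := hDG m₁
  have h10 : gen P j (G m₁) = ratio P i₁ j ^ d * gen P i₁ (G m₁) := gen_change hci hd
  change 0 < D.ord (gen P j (G m₁)) at h9
  rw [h10, D.ord.map_mul, D.ord.map_pow, h8, smul_zero, zero_add, h7] at h9
  exact lt_irrefl _ h9

/-- **Log general type goes up along dominant regular maps.** -/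
theorem logGT_up [P.IsPrime] [P'.IsPrime] (hp : IsDominantMap P P' G G' p) (hP' : Homog P')
    (hG : ∀ m, ∃ n, (G m).IsHomogeneous n) (hG' : ∀ m, ∃ n, (G' m).IsHomogeneous n) (hne : (locVar P' G').Nonempty) {k : ℕ}
    (hz : ∃ z : Fin k → FunField P, IsTranscendenceBasis ℂ z) (hz' : ∃ z : Fin k → FunField P', IsTranscendenceBasis ℂ z)
    (h : IsLogGeneralType (OnBd P G (k := k))) : IsLogGeneralType (OnBd P' G' (k := k)) := by
  obtain ⟨e, he⟩ := exists_compat hp hP' hG' hne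
  let _ : Algebra (FunField P) (FunField P') := e.toRingHom.toAlgebra
  have _ : IsScalarTower ℂ (FunField P) (FunField P') := IsScalarTower.of_algebraMap_eq fun c => (e.commutes c).symm
  have _ : Algebra.IsAlgebraic (FunField P) (FunField P') := by
    obtain ⟨z, hz⟩ := hz
    obtain ⟨z', hz'⟩ := hz'
    have h1 := trdeg_add_eq ℂ (FunField P) (A := FunField P')
    rw [← hz.cardinalMk_eq_trdeg, ← hz'.cardinalMk_eq_trdeg] at h1
    rw [← trdeg_eq_zero_iff]
    have h2 : Cardinal.mk (Fin k) < Cardinal.aleph0 := Cardinal.mk_lt_aleph0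
    have h3 : Cardinal.mk (Fin k) + Algebra.trdeg (FunField P) (FunField P') = Cardinal.mk (Fin k) + 0 := by rw [h1, add_zero]
    exact Cardinal.eq_of_add_eq_add_left h3 h2
  exact isLGT_of_algebraic hz (fun D E r hDE hD => onBd_over hp hP' hG hG' he hDE.1 hDE.2 hne hD) h

end Pool.Agent.H7.Qup

end
end

section

/-!
# Qup Main: the properties of the conjecture go up along dominant regular maps of quasi-projective surfaces

`open_dominant`: let `p : U' → U` be a dominant regular map of quasi-projective surfaces.  If `U` has the four properties then so has `U'`.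
-/

set_option autoImplicit false

open Topology Filter MvPolynomial

noncomputable section

namespace Pool.Agent.H7.Qup

open Pool.Agent.H17 (PN VanishesAt HolomorphicInto puncturedDisc vanishesAt_mk_iff ZariskiClosedIn)
open Pool.Agent.H17LG.Variety (FunField IsLogGeneralType)
open Pool.Agent.H62.FC (Homog)
open Pool.Agent.H62.SA (locVar OnBd)
open Pool.Agent.H17EF (projVar)
open Pool.Agent.H7.Bir (GGLOpen mem_of_open vals rmap pn_identity punctured_open)

variable {N M : ℕ} {P : Ideal (MvPolynomial (Fin (N + 1)) ℂ)} {P' : Ideal (MvPolynomial (Fin (M + 1)) ℂ)} {s s' : ℕ}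
  {G : Fin s → MvPolynomial (Fin (N + 1)) ℂ} {G' : Fin s' → MvPolynomial (Fin (M + 1)) ℂ} {p : PN M → PN N}

theorem IsDominantMap.nonempty [P.IsPrime] (hp : IsDominantMap P P' G G' p) : (locVar P' G').Nonempty := by
  by_contra hcon
  rw [Set.not_nonempty_iff_eq_empty] at hcon
  refine (Ideal.ne_top_iff_one P).1 (Ideal.IsPrime.ne_top inferInstance) (hp.dense 1 0 (isHomogeneous_one _ _) fun y hy => ?_)
  rw [hcon] at hy
  exact absurd hy (Set.notMem_empty y)

/-- **Dominant regular maps of quasi-projective surfaces.** -/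
theorem open_dominant {P : Ideal (MvPolynomial (Fin (N + 1)) ℂ)} [P.IsPrime] {P' : Ideal (MvPolynomial (Fin (M + 1)) ℂ)} [P'.IsPrime]
    (hP' : Homog P') (hz : ∃ z : Fin 2 → FunField P, IsTranscendenceBasis ℂ z)
    (hz' : ∃ z' : Fin 2 → FunField P', IsTranscendenceBasis ℂ z') {s s' : ℕ}
    {G : Fin s → MvPolynomial (Fin (N + 1)) ℂ} {G' : Fin s' → MvPolynomial (Fin (M + 1)) ℂ} (hG : ∀ m, ∃ n, (G m).IsHomogeneous n)
    (hG' : ∀ m, ∃ n, (G' m).IsHomogeneous n) {p : PN M → PN N} (hp : IsDominantMap P P' G G' p) {Ξ : Set (PN N)}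
    (h : GGLOpen P G Ξ) : ∃ Ξ' : Set (PN M), GGLOpen P' G' Ξ' := by
  have hne := hp.nonempty
  obtain ⟨y₀, hy₀⟩ := hne
  have hne : (locVar P' G').Nonempty := ⟨y₀, hy₀⟩
  obtain ⟨z, hz1⟩ := hz
  obtain ⟨z', hz1'⟩ := hz'
  -- a form which vanishes on the exceptional set
  obtain ⟨S, hS, hΞS⟩ := h.closed
  obtain ⟨x₁, hx₁, R, hRS, hRx₁⟩ : ∃ x ∈ locVar P G, ∃ R ∈ S, ¬ VanishesAt R x := by
    by_contra hcon
    push Not at hcon
    apply h.proper
    rw [hΞS]
    ext y
    exact ⟨fun hy => hy.1, fun hy => ⟨hy, fun R hR => hcon y hy R hR⟩⟩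
  obtain ⟨nR, hnR⟩ := hS R hRS
  have hRP : R ∉ P := fun h1 => hRx₁ (hx₁.1 R h1 nR hnR)
  have hRv : ∀ x ∈ Ξ, VanishesAt R x := by
    intro x hx
    rw [hΞS] at hx
    exact hx.2 R hRS
  -- the equations of the coordinates
  obtain ⟨j, hj⟩ := exists_coord hy₀
  choose m D₁ α hα hαP hrel using exists_eq hp hP' hG' hne hz1 hz1' hj
  obtain ⟨D, γ, hγ, hv⟩ := hp.exists_rep hy₀
  have hmaps := hp.maps_iff hP' hG' hγ ⟨y₀, hy₀, hv⟩
  obtain ⟨k₀, hk₀⟩ : ∃ k, eval y₀.rep (γ k) ≠ 0 := by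
    by_contra hcon
    push Not at hcon
    exact hv (funext hcon)
  have hkP : γ k₀ ∉ P' := fun h1 => hk₀ (hy₀.1 _ h1 D (hγ.hom k₀))
  set B : MvPolynomial (Fin (N + 1)) ℂ := R * ∏ i, α i (Fin.last (m i)) with hB
  have hBhom : B.IsHomogeneous (nR + ∑ i, D₁ i) := hnR.mul (IsHomogeneous.prod _ _ _ fun i _ => hα i _)
  have hBP : B ∉ P := by
    intro h1
    rcases Ideal.IsPrime.mem_or_mem inferInstance h1 with h2 | h2
    · exact hRP h2
    · obtain ⟨i, -, h3⟩ := (Ideal.IsPrime.prod_mem_iff (p := P)).1 h2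
      exact hαP i h3
  set T : MvPolynomial (Fin (M + 1)) ℂ := aeval γ B * γ k₀ * X j with hT
  have hThom : T.IsHomogeneous (D * (nR + ∑ i, D₁ i) + D + 1) := ((aeval_homog hγ.hom hBhom).mul (hγ.hom k₀)).mul (isHomogeneous_X ℂ j)
  have hTP : T ∉ P' := by
    intro h1
    rcases Ideal.IsPrime.mem_or_mem inferInstance h1 with h2 | h2
    · rcases Ideal.IsPrime.mem_or_mem inferInstance h2 with h3 | h3
      · exact hBP ((hmaps _ B hBhom).1 h3)
      · exact hkP h3
    · exact hj h2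
  -- points outside of the exceptional set
  have key : ∀ y ∈ locVar P' G', ¬ VanishesAt T y → y.rep j ≠ 0 ∧ ¬ VanishesAt R (p y) ∧ ∀ i, ¬ VanishesAt (α i (Fin.last (m i))) (p y) := by
    intro y hy hTy
    unfold VanishesAt at hTy
    rw [hT, map_mul, map_mul, mul_eq_zero, mul_eq_zero, not_or, not_or, eval_X] at hTy
    obtain ⟨⟨h1, h2⟩, h3⟩ := hTy
    have h4 : vals γ y.rep ≠ 0 := fun h0 => h2 (congrFun h0 k₀)
    have h5 : ¬ VanishesAt B (p y) := by
      rw [hγ.vanishes_iff hy h4 hBhom]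
      exact h1
    unfold VanishesAt at h5
    rw [hB, map_mul, mul_eq_zero, not_or, map_prod, Finset.prod_eq_zero_iff] at h5
    push Not at h5
    exact ⟨h3, h5.1, fun i => h5.2 i (Finset.mem_univ i)⟩
  -- the exceptional set
  refine ⟨{x | x ∈ locVar P' G' ∧ VanishesAt T x}, ?_⟩
  have hclosed : ZariskiClosedIn (locVar P' G') {x | x ∈ locVar P' G' ∧ VanishesAt T x} := by
    refine ⟨{T}, fun R hR => ?_, ?_⟩
    · rw [Set.mem_singleton_iff.1 hR]
      exact ⟨_, hThom⟩
    · ext x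
      constructor
      · rintro ⟨h1, h2⟩
        refine ⟨h1, fun R hR => ?_⟩
        rw [Set.mem_singleton_iff.1 hR]
        exact h2
      · rintro ⟨h1, h2⟩
        exact ⟨h1, h2 T rfl⟩
  have hgt : IsLogGeneralType (K := FunField P') (k := 2) (OnBd P' G') :=
    logGT_up hp hP' hG hG' hne ⟨z, hz1⟩ ⟨z', hz1'⟩ (h.logGeneralType 2 (by norm_num) ⟨z, hz1⟩)
  have hbrody : ∀ f : ℂ → PN M, HolomorphicInto f Set.univ → (∀ z, f z ∈ locVar P' G') → (∃ z w, f z ≠ f w) →
      ∀ z, f z ∈ {x | x ∈ locVar P' G' ∧ VanishesAt T x} := by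
    intro f hf hfU hfn z₀
    refine ⟨hfU z₀, ?_⟩
    by_contra hTz
    obtain ⟨h1, h2, h3⟩ := key _ (hfU z₀) hTz
    have hg : HolomorphicInto (fun z => p (f z)) Set.univ := holo_comp hp isOpen_univ hf fun z _ => hfU z
    have hconst : ∀ z w, p (f z) = p (f w) := by
      by_contra hcon
      push Not at hcon
      exact h2 (hRv _ (h.brody _ hg (fun z => hp.maps _ (hfU z)) hcon z₀))
    obtain ⟨φ, hφ, he⟩ := hf z₀ (Set.mem_univ z₀)
    have hφj : φ z₀ j ≠ 0 := by
      obtain ⟨h7, h8⟩ := he.self_of_nhds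
      obtain ⟨a, ha⟩ := Projectivization.exists_smul_eq_mk_rep ℂ (φ z₀) h7
      have h9 : (f z₀).rep = (a : ℂ) • φ z₀ := by rw [h8]; exact ha.symm
      rw [h9] at h1
      exact right_ne_zero_of_mul h1
    have hnear : ∀ᶠ z in 𝓝 z₀, f z = (fun _ => f z₀) z := by
      refine const_near hrel hφ he (Eventually.of_forall hfU) hφj (p (f z₀)).rep_nonzero h3 (Eventually.of_forall fun z => ?_)
      rw [(p (f z₀)).mk_rep]
      exact hconst z z₀
    have hc : HolomorphicInto (fun _ : ℂ => f z₀) Set.univ := by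
      intro z _
      exact ⟨fun _ => (f z₀).rep, analyticAt_const, Eventually.of_forall fun _ => ⟨(f z₀).rep_nonzero, (f z₀).mk_rep.symm⟩⟩
    have h4 := pn_identity isPreconnected_univ hf hc (Set.mem_univ z₀) hnear
    obtain ⟨z, w, hzw⟩ := hfn
    exact hzw ((h4 z (Set.mem_univ z)).trans (h4 w (Set.mem_univ w)).symm)
  refine ⟨hclosed, ?_, ?_, ?_, hbrody, ?_⟩
  · intro heq
    apply hTP
    refine mem_of_open hP' hG' hne hThom fun x hx => ?_
    rw [← heq] at hx
    exact hx.2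
  · intro w _ hw
    obtain rfl := Pool.Agent.H17EF.two_of_basis ⟨z', hz1'⟩ hw
    exact hgt
  · rintro f hf hfU ⟨z₀, hz₀, hfz₀⟩
    have hTz : ¬ VanishesAt T (f z₀) := fun h1 => hfz₀ ⟨hfU z₀ hz₀, h1⟩
    obtain ⟨h1, h2, h3⟩ := key _ (hfU z₀ hz₀) hTz
    have hg : HolomorphicInto (fun z => p (f z)) puncturedDisc := holo_comp hp punctured_open hf hfU
    obtain ⟨ĝ, hĝ, hgg⟩ := h.picard _ hg (fun z hz => hp.maps _ (hfU z hz)) ⟨z₀, hz₀, fun h4 => h2 (hRv _ h4)⟩
    obtain ⟨ψ, hψ, hψg⟩ := hĝ 0 (Metric.mem_ball_self one_pos)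
    refine extend_of_alg hrel hf hfU hψ ?_ fun i hi => ?_
    · filter_upwards [hψg, Metric.ball_mem_nhds (0 : ℂ) one_pos] with z h4 h5 h6
      obtain ⟨h7, h8⟩ := h4
      exact ⟨h7, by rw [← h8, hgg z ⟨h5, h6⟩]⟩
    · apply h3 i
      have h4 := Pool.Agent.H36.BP.vanish_identity (convex_ball (0 : ℂ) 1).isPreconnected hĝ (S := {α i (Fin.last (m i))}) (by
        intro Q hQ
        rw [Set.mem_singleton_iff] at hQ
        subst hQ
        exact ⟨_, hα i _⟩) (Metric.mem_ball_self one_pos) (by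
        filter_upwards [hi, hψg] with z h5 h6 Q hQ
        rw [Set.mem_singleton_iff] at hQ
        subst hQ
        obtain ⟨h7, h8⟩ := h6
        rw [h8, vanishesAt_mk_iff (hα i _)]
        exact h5) z₀ hz₀.1 _ rfl
      rw [hgg z₀ hz₀] at h4
      exact h4
  · intro Q _ hQ hPQ hsub w hw hzw
    exact Pool.Agent.H13.CV.strongly_of_brodyL P' hP' ⟨z', hz1'⟩ hG' hclosed hgt hbrody Q hQ hPQ hsub w hw hzw

end Pool.Agent.H7.Qup

end
end

section

/-!
# SD Dom: quasi-projective surfaces which dominate a projective surface by a rational map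

`dom_open_four`: let the closed surface `X` of `ℙ^N` given by `P` have the properties of the Green–Griffiths–Lang conjecture.  Then every
quasi-projective surface `U` whose function field contains the function field of `X` has them (there is a dominant rational map `U ⇢ X`).
-/

set_option autoImplicit false

open Topology Filter MvPolynomial

noncomputable section

namespace Pool.Agent.H66.SD

open Pool.Agent.H17 (PN VanishesAt HolomorphicInto puncturedDisc vanishesAt_mk_iff ZariskiClosedIn)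
open Pool.Agent.H17GT (coordFun)
open Pool.Agent.H17LG.Variety (FunField ratio IsLogGeneralType)
open Pool.Agent.H17R (gen gen_eq_zero_iff ratio_self adjoin_ratio coordFun_ne_zero_iff)
open Pool.Agent.H62.FC (Homog)
open Pool.Agent.H62.SA (locVar OnBd)
open Pool.Agent.H17EF (projVar)
open Pool.Agent.H7.Bir
open Pool.Agent.H7.Qup (IsDominantMap open_dominant)

variable {N M : ℕ}

/-- no condition -/
def one (N : ℕ) : Fin 1 → MvPolynomial (Fin (N + 1)) ℂ := fun _ => 1

theorem one_homog (N : ℕ) : ∀ m, ∃ n, (one N m).IsHomogeneous n := fun _ => ⟨0, isHomogeneous_one _ _⟩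

theorem locVar_one (P : Ideal (MvPolynomial (Fin (N + 1)) ℂ)) : locVar P (one N) = projVar P := by
  ext x
  refine ⟨fun h => h.1, fun h => ⟨h, 0, ?_⟩⟩
  unfold VanishesAt one
  rw [map_one]
  exact one_ne_zero

theorem onBd_one (P : Ideal (MvPolynomial (Fin (N + 1)) ℂ)) [P.IsPrime] {k : ℕ} :
    OnBd P (one N) (k := k) = fun _ => False := by
  funext E
  refine eq_false ?_
  rintro ⟨j, -, -, h⟩
  have h1 := h 0
  unfold one at h1
  rw [map_one, AddValuation.map_one] at h1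
  exact lt_irrefl _ h1

theorem ggl_of_open {P : Ideal (MvPolynomial (Fin (N + 1)) ℂ)} [P.IsPrime] {Ξ : Set (PN N)} (h : GGLOpen P (one N) Ξ) : GGL P Ξ := by
  obtain ⟨h1, h2, h3, h4, h5, h6⟩ := h
  rw [locVar_one] at h1 h2
  refine ⟨h1, h2, fun w hw hz => ?_, fun f hf hfX hfΞ => ?_, fun f hf hfX hfn => ?_, fun Q _ hQ hPQ hsub w hw hz => ?_⟩
  · have h := h3 w hw hz
    rwa [onBd_one] at h
  · exact h4 f hf (fun z hz => by rw [locVar_one]; exact hfX z hz) hfΞ
  · exact h5 f hf (fun z => by rw [locVar_one]; exact hfX z) hfn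
  · have h := h6 Q hQ hPQ (by rw [locVar_one]; exact hsub) w hw hz
    rwa [onBd_one] at h

theorem projVar_nonempty {P : Ideal (MvPolynomial (Fin (N + 1)) ℂ)} [P.IsPrime] (hP : Homog P) {j : Fin (N + 1)} (hj : X j ∉ P) :
    (projVar P).Nonempty := by
  by_contra hcon
  rw [Set.not_nonempty_iff_eq_empty] at hcon
  refine hj (Pool.Agent.H62.FC.mem_of_vanishes hP (S := ∅) (fun i hi => absurd hi (Finset.notMem_empty i)) ⟨j, hj⟩
    (isHomogeneous_X ℂ j) fun y hy => ?_)
  have h1 : y ∈ projVar P := hy.1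
  rw [hcon] at h1
  exact absurd h1 (Set.notMem_empty y)

/-- indices of the coordinates of the Segre space -/
def idx (N M : ℕ) : Fin (N + 1) × Fin (M + 1) ≃ Fin ((N + 1) * M + N + 1) := finProdFinEquiv

/-- the columns -/
def col (N M : ℕ) (k : Fin (M + 1)) : Fin (N + 1) → MvPolynomial (Fin ((N + 1) * M + N + 1)) ℂ := fun i => X (idx N M (i, k))

theorem col_homog (k : Fin (M + 1)) (i : Fin (N + 1)) : (col N M k i).IsHomogeneous 1 := isHomogeneous_X ℂ _

theorem exists_col (y : PN ((N + 1) * M + N)) : ∃ k, vals (col N M k) y.rep ≠ 0 := by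
  by_contra hcon
  push Not at hcon
  refine y.rep_nonzero (funext fun l => ?_)
  have h1 := congrFun (hcon ((idx N M).symm l).2) ((idx N M).symm l).1
  unfold vals col at h1
  rw [eval_X] at h1
  have h2 : idx N M (((idx N M).symm l).1, ((idx N M).symm l).2) = l := (idx N M).apply_symm_apply l
  rw [h2] at h1
  exact h1

/-- the projection -/
def prj (N M : ℕ) (y : PN ((N + 1) * M + N)) : PN N := rmap (col N M (exists_col y).choose) y

/-- rank one -/
def RankOne (Q : Ideal (MvPolynomial (Fin ((N + 1) * M + N + 1)) ℂ)) : Prop :=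
  ∀ i i' k k', X (idx N M (i, k)) * X (idx N M (i', k')) - X (idx N M (i', k)) * X (idx N M (i, k')) ∈ Q

theorem prj_eq {Q : Ideal (MvPolynomial (Fin ((N + 1) * M + N + 1)) ℂ)} (hQ : RankOne Q) {y : PN ((N + 1) * M + N)}
    (hy : y ∈ projVar Q) {k : Fin (M + 1)} (hk : vals (col N M k) y.rep ≠ 0) : prj N M y = rmap (col N M k) y := by
  have h' := (exists_col (N := N) (M := M) y).choose_spec
  set k' := (exists_col (N := N) (M := M) y).choose with hk'
  change rmap (col N M k') y = _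
  unfold Pool.Agent.H7.Bir.rmap
  rw [dif_pos h', dif_pos hk, Projectivization.mk_eq_mk_iff']
  obtain ⟨i₀, hi₀⟩ : ∃ i, vals (col N M k) y.rep i ≠ 0 := by
    by_contra hcon
    push Not at hcon
    exact hk (funext hcon)
  refine ⟨vals (col N M k') y.rep i₀ / vals (col N M k) y.rep i₀, ?_⟩
  funext i
  have h1 := hy _ (hQ i i₀ k k') 2 (((isHomogeneous_X ℂ _).mul (isHomogeneous_X ℂ _)).sub ((isHomogeneous_X ℂ _).mul (isHomogeneous_X ℂ _)))
  unfold VanishesAt at h1
  rw [map_sub, map_mul, map_mul, eval_X, eval_X, eval_X, eval_X] at h1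
  have h2 : ∀ i k, vals (col N M k) y.rep i = y.rep (idx N M (i, k)) := fun i k => by
    unfold vals col
    rw [eval_X]
  rw [Pi.smul_apply, smul_eq_mul, h2, h2, h2, h2]
  rw [h2] at hi₀
  field_simp
  linear_combination h1

variable {P : Ideal (MvPolynomial (Fin (N + 1)) ℂ)} [P.IsPrime] {P' : Ideal (MvPolynomial (Fin (M + 1)) ℂ)} [P'.IsPrime]

section graph

variable (φ : FunField P →ₐ[ℂ] FunField P') (j : Fin (N + 1)) (j' : Fin (M + 1))

/-- the generic point of the graph -/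
def gpt : Fin ((N + 1) * M + N + 1) → FunField P' := fun l =>
  φ (ratio P ((idx N M).symm l).1 j) * ratio P' ((idx N M).symm l).2 j'

theorem gpt_idx (i : Fin (N + 1)) (k : Fin (M + 1)) : gpt φ j j' (idx N M (i, k)) = φ (ratio P i j) * ratio P' k j' := by
  unfold gpt
  rw [Equiv.symm_apply_apply]

theorem rankOne : RankOne (pointIdeal (gpt φ j j')) := by
  intro i i' k k'
  rw [mem_pointIdeal_form _ (((isHomogeneous_X ℂ _).mul (isHomogeneous_X ℂ _)).sub ((isHomogeneous_X ℂ _).mul (isHomogeneous_X ℂ _)) :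
    (X (idx N M (i, k)) * X (idx N M (i', k')) - X (idx N M (i', k)) * X (idx N M (i, k')) :
      MvPolynomial (Fin ((N + 1) * M + N + 1)) ℂ).IsHomogeneous (1 + 1))]
  simp only [map_sub, map_mul, aeval_X, gpt_idx]
  ring

theorem aeval_col (k : Fin (M + 1)) {n : ℕ} {R : MvPolynomial (Fin (N + 1)) ℂ} (hR : R.IsHomogeneous n) :
    aeval (gpt φ j j') (aeval (col N M k) R) = φ (gen P j R) * ratio P' k j' ^ n := by
  rw [aeval_comp]
  have h1 : (fun i => aeval (gpt φ j j') (col N M k i)) = fun i => φ (ratio P i j) * ratio P' k j' := by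
    funext i
    unfold col
    rw [aeval_X, gpt_idx]
  rw [h1, aeval_scale' hR (ratio P' k j') fun i => φ (ratio P i j)]
  congr 1
  have h2 := DFunLike.congr_fun (MvPolynomial.comp_aeval (fun i => ratio P i j) φ) R
  exact h2.symm

theorem mem_col_iff (hj : coordFun P j ≠ 0) (hj' : coordFun P' j' ≠ 0) {n : ℕ} {R : MvPolynomial (Fin (N + 1)) ℂ} (hR : R.IsHomogeneous n) :
    aeval (col N M j') R ∈ pointIdeal (gpt φ j j') ↔ R ∈ P := by
  rw [mem_pointIdeal_form _ (hR.aeval (col N M j') (col_homog j')), aeval_col φ j j' j' hR, ratio_self hj', one_pow, mul_one,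
    map_eq_zero_iff φ φ.toRingHom.injective, gen_eq_zero_iff hj hR]

theorem mem_col (hj : coordFun P j ≠ 0) (k : Fin (M + 1)) {n : ℕ} {R : MvPolynomial (Fin (N + 1)) ℂ} (hR : R.IsHomogeneous n) (hRP : R ∈ P) :
    aeval (col N M k) R ∈ pointIdeal (gpt φ j j') := by
  rw [mem_pointIdeal_form _ (hR.aeval (col N M k) (col_homog k)), aeval_col φ j j' k hR, (gen_eq_zero_iff hj hR).2 hRP, map_zero, zero_mul]

theorem corner (hj : coordFun P j ≠ 0) (hj' : coordFun P' j' ≠ 0) : gpt φ j j' (idx N M (j, j')) = 1 := by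
  rw [gpt_idx, ratio_self hj, ratio_self hj', map_one, one_mul]

theorem corner_notMem (hj : coordFun P j ≠ 0) (hj' : coordFun P' j' ≠ 0) : X (idx N M (j, j')) ∉ pointIdeal (gpt φ j j') := by
  rw [mem_pointIdeal_form _ (isHomogeneous_X ℂ _), aeval_X, corner φ j j' hj hj']
  exact one_ne_zero

theorem prj_dominant (hj : coordFun P j ≠ 0) (hj' : coordFun P' j' ≠ 0) :
    IsDominantMap P (pointIdeal (gpt φ j j')) (one N) (one ((N + 1) * M + N)) (prj N M) := by
  have hmaps : ∀ y ∈ locVar (pointIdeal (gpt φ j j')) (one ((N + 1) * M + N)), prj N M y ∈ locVar P (one N) := by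
    intro y hy
    rw [locVar_one] at hy ⊢
    obtain ⟨k, hk⟩ := exists_col (N := N) (M := M) y
    rw [prj_eq (rankOne φ j j') hy hk]
    intro R hR n hRn
    rw [vanishesAt_rmap hk hRn]
    exact hy _ (mem_col φ j j' hj k hRn hR) _ (hRn.aeval (col N M k) (col_homog k))
  refine ⟨hmaps, fun y hy => ?_, fun Q n hQ h => ?_⟩
  · obtain ⟨k, hk⟩ := exists_col (N := N) (M := M) y
    refine ⟨1, col N M k, col_homog k, hk, fun y' hy' hk' => ?_⟩
    rw [locVar_one] at hy'
    exact prj_eq (rankOne φ j j') hy' hk'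
  · have h1 : aeval (col N M j') Q * X (idx N M (j, j')) ∈ pointIdeal (gpt φ j j') := by
      have hne : (locVar (pointIdeal (gpt φ j j')) (one ((N + 1) * M + N))).Nonempty := by
        rw [locVar_one]
        exact projVar_nonempty (homog_pointIdeal _) (corner_notMem φ j j' hj hj')
      refine mem_of_open (homog_pointIdeal _) (one_homog _) hne
        ((hQ.aeval (col N M j') (col_homog j')).mul (isHomogeneous_X ℂ _)) fun y hy => ?_
      have hy' := hy
      rw [locVar_one] at hy'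
      unfold VanishesAt
      rw [map_mul]
      by_cases hk : vals (col N M j') y.rep = 0
      · have h2 := congrFun hk j
        unfold vals col at h2
        rw [h2]
        exact mul_zero _
      · have h2 := h y hy
        rw [prj_eq (rankOne φ j j') hy' hk, vanishesAt_rmap hk hQ] at h2
        rw [show eval y.rep (aeval (col N M j') Q) = 0 from h2, zero_mul]
    rcases Ideal.IsPrime.mem_or_mem inferInstance h1 with h2 | h2
    · exact (mem_col_iff φ j j' hj hj' hQ).1 h2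
    · exact absurd h2 (corner_notMem φ j j' hj hj')

theorem graph_field (hj : coordFun P j ≠ 0) (hj' : coordFun P' j' ≠ 0) :
    Nonempty (FunField (pointIdeal (gpt φ j j')) ≃ₐ[ℂ] FunField P') := by
  have hcoord : coordFun (pointIdeal (gpt φ j j')) (idx N M (j, j')) ≠ 0 :=
    coordFun_ne_zero_iff.2 (corner_notMem φ j j' hj hj')
  refine funIso hcoord (corner φ j j' hj hj') ?_ fun n G hG => (mem_pointIdeal_form _ hG).symm
  rw [eq_top_iff, ← adjoin_ratio hj', IntermediateField.adjoin_le_iff]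
  rintro _ ⟨k, rfl⟩
  refine IntermediateField.subset_adjoin ℂ _ ⟨idx N M (j, k), ?_⟩
  rw [gpt_idx, ratio_self hj, map_one, one_mul]

end graph

/-- **The properties of the conjecture for all quasi-projective surfaces which dominate `X` by a rational map.** -/
theorem dom_open_four (hP' : Homog P') (hz : ∃ z : Fin 2 → FunField P, IsTranscendenceBasis ℂ z)
    (hP : Homog P) (hz' : ∃ z : Fin 2 → FunField P', IsTranscendenceBasis ℂ z) (φ : FunField P →ₐ[ℂ] FunField P') {s : ℕ}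
    {G : Fin s → MvPolynomial (Fin (M + 1)) ℂ} (hG : ∀ m, ∃ n, (G m).IsHomogeneous n) (hne : (locVar P' G).Nonempty)
    {Ξ : Set (PN N)} (h : GGL P Ξ) : ∃ Ξ' : Set (PN M), GGLOpen P' G Ξ' := by
  obtain ⟨z, hz⟩ := hz
  obtain ⟨z', hz'⟩ := hz'
  obtain ⟨j, hj⟩ := Pool.Agent.H92.GT.Proj.exists_coordFun_ne_zero P z hz
  obtain ⟨j', hj'⟩ := Pool.Agent.H92.GT.Proj.exists_coordFun_ne_zero P' z' hz'
  obtain ⟨e⟩ := graph_field φ j j' hj hj'
  have hne1 : (locVar P (one N)).Nonempty := by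
    rw [locVar_one]
    exact projVar_nonempty hP (coordFun_ne_zero_iff.1 hj)
  have h1 : GGLOpen P (one N) (Ξ ∩ locVar P (one N)) := open_four hP (one_homog N) hne1 h
  obtain ⟨Ξ₁, h2⟩ := open_dominant (homog_pointIdeal (gpt φ j j')) ⟨z, hz⟩ ⟨e.symm ∘ z', e.symm.isTranscendenceBasis hz'⟩ (one_homog N)
    (one_homog _) (prj_dominant φ j j' hj hj') h1
  exact bir_open_four (homog_pointIdeal (gpt φ j j')) ⟨1, e.symm ∘ z', e.symm.isTranscendenceBasis hz'⟩ hP' e.symm hG hne (ggl_of_open h2)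

end Pool.Agent.H66.SD

end
end
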