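import Pool.Agent.H94.G6.M41
import Pool.Agent.H94.G6.M45
import Pool.Agent.H94.G6.M49
import Pool.Agent.H94.G6.M68
import Pool.Agent.H94.G6.M79
import Pool.Agent.H94.G6.M96

/-! The parts of this file: H22.W.Zal, SY.A, SY.BdN. -/

section

/-!
# W Zal: curves of bounded length have bounded derivative

Let `n` be a nonpositively curved pseudo-length such that no nonconstant Brody curve has length zero.  Then the entire curves `F` in `X` with
`n (F') ≤ 1` have `fs (F, F') ≤ L`.  The proof is the one of `H92/TH/Zal.lean` (symmetric differentials).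
-/

set_option autoImplicit false

open Topology Filter Metric

namespace Pool.Agent.H22.W

open Pool.Agent.H36.BP (EN fs wd)
open Pool.Agent.H14.PP (IsCone Chart Form Tan CurveAt IsOpenPart)
open Pool.Agent.H62.EF (Charts)

variable {N : ℕ} {X : Set (EN N)}

/-- the length of the derivative does not depend on the lift -/
theorem PseudoLength.lift_eq (hX : IsCone X) (n : PseudoLength X) {F G : ℂ → EN N} {z : ℂ} (hF : CurveAt X F z) (hG : CurveAt X G z)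
    (h : ∀ᶠ w in 𝓝 z, ∃ c : ℂ, c ≠ 0 ∧ F w = c • G w) : n.toFun (F z) (deriv F z) = n.toFun (G z) (deriv G z) := by
  have hG0 : G z ≠ 0 := hX.ne_zero hG.2.self_of_nhds
  obtain ⟨i, hi⟩ : ∃ i, G z i ≠ 0 := by
    by_contra hcon
    push Not at hcon
    exact hG0 (by ext i; simpa using hcon i)
  have hFi : DifferentiableAt ℂ (fun w => F w i) z :=
    (EuclideanSpace.proj (𝕜 := ℂ) i : EN N →L[ℂ] ℂ).differentiableAt.comp z hF.1.differentiableAt
  have hGi : DifferentiableAt ℂ (fun w => G w i) z :=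
    (EuclideanSpace.proj (𝕜 := ℂ) i : EN N →L[ℂ] ℂ).differentiableAt.comp z hG.1.differentiableAt
  obtain ⟨c, hc⟩ : ∃ c : ℂ → ℂ, c = fun w => F w i / G w i := ⟨_, rfl⟩
  have hcd : DifferentiableAt ℂ c z := by rw [hc]; exact hFi.div hGi hi
  have hne : ∀ᶠ w in 𝓝 z, G w i ≠ 0 := hGi.continuousAt.eventually_ne hi
  have hev : ∀ᶠ w in 𝓝 z, c w ≠ 0 ∧ F w = c w • G w := by
    filter_upwards [h, hne] with w hw hwi
    obtain ⟨b, hb, hFw⟩ := hw
    have h1 : c w = b := by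
      rw [hc]
      show F w i / G w i = b
      rw [hFw, PiLp.smul_apply, smul_eq_mul, mul_div_cancel_right₀ _ hwi]
    rw [h1]
    exact ⟨hb, hFw⟩
  have hd : deriv F z = c z • deriv G z + deriv c z • G z := by
    have h1 : F =ᶠ[𝓝 z] fun w => c w • G w := hev.mono fun w hw => hw.2
    rw [h1.deriv_eq]
    exact (hcd.hasDerivAt.smul hG.1.differentiableAt.hasDerivAt).deriv
  obtain ⟨hc0, hFz⟩ := hev.self_of_nhds
  rw [hd, hFz]
  exact n.inv hX (tan_curve hG) hc0 _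

/-- The values of the length on the derivatives of a convergent sequence of curves. -/
theorem PseudoLength.tendsto_curve (n : PseudoLength X) {l : Filter ℕ} {φ : ℕ → ℂ → EN N} {ψ : ℂ → EN N}
    {z₀ : ℂ} {r : ℝ} (hr : 0 < r) (hφ : ∀ᶠ k in l, DifferentiableOn ℂ (φ k) (ball z₀ r) ∧ ∀ z ∈ ball z₀ r, φ k z ∈ X)
    (hψ : DifferentiableOn ℂ ψ (ball z₀ r)) (hψX : ∀ z ∈ ball z₀ r, ψ z ∈ X) (hlim : TendstoLocallyUniformlyOn φ ψ l (ball z₀ r)) :
    Tendsto (fun k => n.toFun (φ k z₀) (deriv (φ k) z₀)) l (𝓝 (n.toFun (ψ z₀) (deriv ψ z₀))) := by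
  have hz₀ : z₀ ∈ ball z₀ r := mem_ball_self hr
  have hnb : ball z₀ r ∈ 𝓝 z₀ := isOpen_ball.mem_nhds hz₀
  have h1 : Tendsto (fun k => φ k z₀) l (𝓝 (ψ z₀)) := hlim.tendsto_at hz₀
  have h2 : Tendsto (fun k => deriv (φ k) z₀) l (𝓝 (deriv ψ z₀)) := by
    have h3 := hlim.deriv (hφ.mono fun k hk => hk.1) isOpen_ball
    exact h3.tendsto_at hz₀
  refine n.tendsto ?_ (tan_curve ⟨hψ.analyticAt hnb, ?_⟩) h1 h2
  · filter_upwards [hφ] with k hk
    refine tan_curve ⟨hk.1.analyticAt hnb, ?_⟩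
    filter_upwards [hnb] with z hz using hk.2 z hz
  · filter_upwards [hnb] with z hz using hψX z hz

/-- The chain rule for affine maps. -/
theorem PseudoLength.comp_affine (n : PseudoLength X) {F : ℂ → EN N} (hF : Differentiable ℂ F) (hFX : ∀ z, F z ∈ X) (a b z : ℂ) :
    n.toFun (F (b + a * z)) (deriv (fun ζ => F (b + a * ζ)) z) = ‖a‖ * n.toFun (F (b + a * z)) (deriv F (b + a * z)) := by
  have h1 : HasDerivAt (fun ζ : ℂ => b + a * ζ) a z := by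
    simpa using ((hasDerivAt_id z).const_mul a).const_add b
  have h2 : deriv (fun ζ => F (b + a * ζ)) z = a • deriv F (b + a * z) :=
    ((hF (b + a * z)).hasDerivAt.scomp z h1).deriv
  rw [h2]
  exact n.smul _ _ (tan_entire hF hFX _) a

end Pool.Agent.H22.W

end

section

/-!
# SY A: a bound of the metric along the entire curves of constant length one
-/

set_option autoImplicit false

open Topology Filter Metric

noncomputable section

namespace Pool.Agent.SY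

open Pool.Agent.H36.BP (EN fs wd Sub OrdTwo)
open Pool.Agent.H14.PP (IsCone CurveAt)
open Pool.Agent.H22.W (PseudoLength tan_entire)

variable {N : ℕ} {X T : Set (EN N)} {rho : EN N → ℝ} {M : ℕ} {c₀ C : ℝ} {g : (ℂ → EN N) → ℂ → ℝ}

/-- product of a nonnegative upper semicontinuous function and a nonnegative continuous function -/
private theorem usc_mul {α : Type*} [TopologicalSpace α] {S : Set α} {u k : α → ℝ} (hu : UpperSemicontinuousOn u S)
    (hk : ContinuousOn k S) (hu0 : ∀ x ∈ S, 0 ≤ u x) (hk0 : ∀ x ∈ S, 0 ≤ k x) :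
    UpperSemicontinuousOn (fun x => u x * k x) S := by
  intro x hx y hy
  have ht : Tendsto (fun ε : ℝ => (u x + ε) * (k x + ε)) (𝓝[>] 0) (𝓝 ((u x + 0) * (k x + 0))) := by
    apply tendsto_nhdsWithin_of_tendsto_nhds
    have hc : Continuous (fun ε : ℝ => (u x + ε) * (k x + ε)) := by fun_prop
    exact hc.tendsto 0
  have hy' : (u x + 0) * (k x + 0) < y := by simpa using hy
  obtain ⟨ε, hε1, hε2⟩ := ((ht.eventually_lt_const hy').and self_mem_nhdsWithin).exists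
  have hε : (0 : ℝ) < ε := hε2
  have h1 : ∀ᶠ x' in 𝓝[S] x, u x' < u x + ε := hu x hx _ (by linarith)
  have h2 : ∀ᶠ x' in 𝓝[S] x, k x' < k x + ε := (hk x hx).eventually_lt_const (by linarith)
  filter_upwards [h1, h2, self_mem_nhdsWithin] with x' h1' h2' hx'
  refine lt_of_le_of_lt ?_ hε1
  exact mul_le_mul h1'.le h2'.le (hk0 x' hx') (by linarith [hu0 x hx])

theorem Ent.comp_affine {V : Type} [NormedAddCommGroup V] [NormedSpace ℂ V] {X T : Set V} {F : ℂ → V} (hF : Ent X T F) {a : ℂ}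
    (ha : a ≠ 0) (b : ℂ) : Ent X T (fun w => F (a * w + b)) := by
  refine ⟨?_, fun z => hF.mem _, ?_⟩
  · exact hF.diff.comp ((differentiable_id.const_mul a).add_const b)
  · obtain ⟨z, hz⟩ := hF.out
    refine ⟨(z - b) / a, ?_⟩
    have h1 : a * ((z - b) / a) + b = z := by
      field_simp
      ring
    show F (a * ((z - b) / a) + b) ∉ T
    rw [h1]
    exact hz

/-- Zalcman's rescaling with the metric `g` -/
theorem rescale_g {nu : EN N → ℝ} (E : Energy X T nu rho M c₀ C g) {F : ℂ → EN N} (hF : Ent X T F) (k : ℕ) {zc : ℂ}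
    (hz : 4 * ((k : ℝ) + 1) < g F zc) :
    ∃ (a : ℝ) (b : ℂ), 4 * ((k : ℝ) + 1) < a ∧ g (fun w => F (((a⁻¹ : ℝ) : ℂ) * w + b)) 0 = 1 ∧
      ∀ z ∈ ball (0 : ℂ) (k + 1), g (fun w => F (((a⁻¹ : ℝ) : ℂ) * w + b)) z ≤ 2 := by
  have hn : (0 : ℝ) ≤ k := Nat.cast_nonneg k
  obtain ⟨u, hu⟩ : ∃ u : ℂ → ℝ, u = fun z => g F (zc + z) * (1 / 2 - ‖z‖) := ⟨_, rfl⟩
  have husc : UpperSemicontinuousOn u (closedBall (0 : ℂ) (1 / 2)) := by
    rw [hu]
    refine usc_mul ?_ (by fun_prop) (fun x _ => E.nonneg F hF _) ?_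
    · intro x _ y hy
      have h1 : Tendsto (fun z : ℂ => zc + z) (𝓝 x) (𝓝 (zc + x)) := by
        have hc : Continuous (fun z : ℂ => zc + z) := by fun_prop
        exact hc.tendsto x
      exact mem_nhdsWithin_of_mem_nhds (h1.eventually (E.usc F hF (zc + x) y hy))
    · intro x hx
      have : ‖x‖ ≤ 1 / 2 := by simpa using hx
      linarith
  obtain ⟨z₀, hz₀, hmax⟩ := husc.exists_isMaxOn ⟨0, by simp⟩ (isCompact_closedBall _ _)
  have hz₀n : ‖z₀‖ ≤ 1 / 2 := by simpa using hz₀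
  have h0 : u 0 ≤ u z₀ := hmax (by simp : (0 : ℂ) ∈ closedBall (0 : ℂ) (1 / 2))
  have hu0 : u 0 = g F zc / 2 := by simp only [hu, norm_zero, add_zero]; ring
  have hm : 2 * ((k : ℝ) + 1) < u z₀ := by rw [hu0] at h0; linarith
  obtain ⟨d, hd⟩ : ∃ d : ℝ, d = 1 / 2 - ‖z₀‖ := ⟨_, rfl⟩
  have hd0 : 0 ≤ d := by rw [hd]; linarith
  have hd1 : d ≤ 1 / 2 := by rw [hd]; linarith [norm_nonneg z₀]
  obtain ⟨a, ha⟩ : ∃ a : ℝ, a = g F (zc + z₀) := ⟨_, rfl⟩
  have ha0 : 0 ≤ a := by rw [ha]; exact E.nonneg F hF _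
  have huz : u z₀ = a * d := by rw [hu, ha, hd]
  have hmd : 2 * ((k : ℝ) + 1) < a * d := by rw [← huz]; exact hm
  have hpos : 0 < a * d := by linarith
  have hapos : 0 < a := by
    rcases ha0.lt_or_eq with h | h
    · exact h
    · rw [← h] at hpos; simp at hpos
  have hdpos : 0 < d := by
    rcases hd0.lt_or_eq with h | h
    · exact h
    · rw [← h] at hpos; simp at hpos
  have hbig : 4 * ((k : ℝ) + 1) < a := by
    have h1 : a * d ≤ a * (1 / 2) := mul_le_mul_of_nonneg_left hd1 hapos.le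
    linarith
  have hac : (((a⁻¹ : ℝ)) : ℂ) ≠ 0 := by exact_mod_cast inv_ne_zero hapos.ne'
  have haff : ∀ z, g (fun w => F (((a⁻¹ : ℝ) : ℂ) * w + (zc + z₀))) z = a⁻¹ * g F (((a⁻¹ : ℝ) : ℂ) * z + (zc + z₀)) := by
    intro z
    rw [E.aff F hF _ _ hac z, Complex.norm_real, Real.norm_of_nonneg (by positivity)]
  refine ⟨a, zc + z₀, hbig, ?_, ?_⟩
  · rw [haff, mul_zero, zero_add, ← ha]
    exact inv_mul_cancel₀ hapos.ne'
  · intro ζ hζ
    have hζn : ‖ζ‖ < k + 1 := by simpa using hζ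
    obtain ⟨y, hy⟩ : ∃ y : ℂ, y = z₀ + ((a⁻¹ : ℝ) : ℂ) * ζ := ⟨_, rfl⟩
    have h1 : ‖y‖ ≤ ‖z₀‖ + a⁻¹ * ‖ζ‖ := by
      rw [hy]
      calc ‖z₀ + ((a⁻¹ : ℝ) : ℂ) * ζ‖ ≤ ‖z₀‖ + ‖((a⁻¹ : ℝ) : ℂ) * ζ‖ := norm_add_le _ _
        _ = ‖z₀‖ + a⁻¹ * ‖ζ‖ := by
          rw [norm_mul, Complex.norm_real, Real.norm_of_nonneg (by positivity)]
    have h2 : a⁻¹ * ‖ζ‖ ≤ d / 2 := by
      rw [inv_mul_le_iff₀ hapos]
      linarith
    have h3 : ‖z₀‖ = 1 / 2 - d := by rw [hd]; ring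
    have h4 : ‖y‖ ≤ 1 / 2 - d / 2 := by linarith
    have hyb : y ∈ closedBall (0 : ℂ) (1 / 2) := by
      rw [mem_closedBall_zero_iff]
      linarith
    have h5 : u y ≤ u z₀ := hmax hyb
    have h6 : u y = g F (zc + y) * (1 / 2 - ‖y‖) := by rw [hu]
    rw [h6, huz] at h5
    have h7 : 0 ≤ g F (zc + y) := E.nonneg F hF _
    have h8 : g F (zc + y) * (d / 2) ≤ a * d := le_trans (mul_le_mul_of_nonneg_left (by linarith) h7) h5
    have h9 : g F (zc + y) ≤ 2 * a := by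
      by_contra hc
      push Not at hc
      have : 2 * a * (d / 2) < g F (zc + y) * (d / 2) := mul_lt_mul_of_pos_right hc (by linarith)
      linarith
    rw [haff, inv_mul_le_iff₀ hapos]
    have h10 : ((a⁻¹ : ℝ) : ℂ) * ζ + (zc + z₀) = zc + y := by rw [hy]; ring
    rw [h10]
    linarith

/-- MODULE A: a bound of `g` -/
theorem bound_g (hX : IsCone X) (hTs : ∀ x ∈ T, ∀ c : ℂ, c ≠ 0 → c • x ∈ T) (E : Energy X T (fun x => ‖x‖) rho M c₀ C g) (n : PseudoLength X)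
    (hnull : ∀ F : ℂ → EN N, Differentiable ℂ F → (∀ z, F z ∈ X) → OrdTwo F → (∀ z, n.toFun (F z) (deriv F z) = 0) →
      (∀ z, F z ∈ T) ∨ ∀ z w, ∃ c : ℂ, F z = c • F w) :
    ∃ C₁ : ℝ, 0 < C₁ ∧ ∀ F, Cls T n F → ∀ z, g F z ≤ C₁ := by
  by_contra hcon
  push Not at hcon
  have hbig : ∀ k : ℕ, ∃ F : ℂ → EN N, Cls T n F ∧ ∃ z, 4 * ((k : ℝ) + 1) < g F z := fun k => hcon _ (by positivity)
  choose F hF zc hzc using hbig
  have hresc := fun k => rescale_g E (hF k).1 k (hzc k)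
  choose a b ha h1 h2 using hresc
  have ha0 : ∀ k, 0 < a k := fun k => lt_trans (by positivity) (ha k)
  have hac : ∀ k, ((((a k)⁻¹ : ℝ)) : ℂ) ≠ 0 := fun k => by exact_mod_cast inv_ne_zero (ha0 k).ne'
  obtain ⟨G, hG⟩ : ∃ G : ℕ → ℂ → EN N, G = fun k w => F k ((((a k)⁻¹ : ℝ) : ℂ) * w + b k) := ⟨_, rfl⟩
  have hGE : ∀ k, Ent X T (G k) := by
    intro k
    rw [hG]
    exact (hF k).1.comp_affine (hac k) (b k)
  have hGn : ∀ k ζ, n.toFun (G k ζ) (deriv (G k) ζ) = (a k)⁻¹ := by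
    intro k ζ
    have h3 := n.comp_affine (hF k).1.diff (hF k).1.mem (((a k)⁻¹ : ℝ) : ℂ) (b k) ζ
    have h4 : G k = fun ζ => F k (b k + (((a k)⁻¹ : ℝ) : ℂ) * ζ) := by
      rw [hG]
      funext ζ
      show F k ((((a k)⁻¹ : ℝ) : ℂ) * ζ + b k) = _
      rw [add_comm]
    rw [h4]
    rw [show n.toFun ((fun ζ => F k (b k + (((a k)⁻¹ : ℝ) : ℂ) * ζ)) ζ) (deriv (fun ζ => F k (b k + (((a k)⁻¹ : ℝ) : ℂ) * ζ)) ζ) = _ from h3,
      Complex.norm_real, Real.norm_of_nonneg (inv_nonneg.mpr (ha0 k).le), (hF k).2, mul_one]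
  have h0' : ∀ k, (1 : ℝ) ≤ g (G k) 0 := by
    intro k
    rw [hG]
    exact (h1 k).ge
  have hA' : ∀ k : ℕ, ∀ z ∈ ball (0 : ℂ) (k + 1), g (G k) z ≤ 2 := by
    intro k z hz
    rw [hG]
    exact h2 k z hz
  obtain ⟨𝒰, h𝒰⟩ : ∃ 𝒰 : Ultrafilter ℕ, 𝒰 = hyperfilter ℕ := ⟨_, rfl⟩
  have hle : (𝒰 : Filter ℕ) ≤ atTop := by rw [h𝒰]; exact Nat.hyperfilter_le_atTop
  have hainv : Tendsto (fun k => (a k)⁻¹) 𝒰 (𝓝 0) := by
    have hρ : Tendsto (fun k : ℕ => (k : ℝ) + 1) 𝒰 atTop :=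
      (tendsto_atTop_add_const_right _ _ tendsto_natCast_atTop_atTop).mono_left hle
    have h3 : Tendsto a 𝒰 atTop := by
      refine tendsto_atTop_mono (fun k => ?_) hρ
      have := ha k
      have h4 : (0 : ℝ) ≤ k := Nat.cast_nonneg k
      linarith
    exact tendsto_inv_atTop_zero.comp h3
  obtain ⟨H, hH, hHX, hord, hHT, ⟨z₁, w₁, hne⟩, hlim⟩ := exists_limit hX hTs E 𝒰 hle G hGE one_pos hA' h0'
  have hloc : ∀ z₀ : ℂ, ∀ᶠ z in 𝓝[≠] z₀, n.toFun (H z) (deriv H z) = 0 := by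
    intro z₀
    obtain ⟨R, hR⟩ := exists_nat_gt ‖z₀‖
    have hR1 : 1 ≤ R := by
      by_contra hc
      have : R = 0 := by omega
      rw [this, Nat.cast_zero] at hR
      linarith [norm_nonneg z₀]
    obtain ⟨v, HR, hv, hconv, hdiff, -, hfac⟩ := hlim R hR1
    have hz₀ : z₀ ∈ ball (0 : ℂ) R := by rwa [mem_ball_zero_iff]
    obtain ⟨k, w, hw, hw0, hev⟩ := hfac z₀ hz₀
    have hwev : ∀ᶠ z in 𝓝 z₀, w z ≠ 0 := hw.continuousAt.eventually_ne hw0
    have hbev : ∀ᶠ z in 𝓝 z₀, z ∈ ball (0 : ℂ) R := isOpen_ball.mem_nhds hz₀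
    obtain ⟨s, hs, hball⟩ := Metric.eventually_nhds_iff_ball.1 (hev.and (hwev.and hbev))
    have hnear : ∀ᶠ z in 𝓝[≠] z₀, z ∈ ball z₀ s := mem_nhdsWithin_of_mem_nhds (isOpen_ball.mem_nhds (mem_ball_self hs))
    filter_upwards [hnear, self_mem_nhdsWithin] with z hz hzne
    have hzne' : z ≠ z₀ := hzne
    have hdist : 0 < dist z z₀ := dist_pos.2 hzne'
    have hzs : dist z z₀ < s := hz
    obtain ⟨r, hr⟩ : ∃ r : ℝ, r = min (s - dist z z₀) (dist z z₀) := ⟨_, rfl⟩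
    have hr0 : 0 < r := by rw [hr]; exact lt_min (by linarith) hdist
    have hsub : ∀ y ∈ ball z r, y ∈ ball z₀ s ∧ y ≠ z₀ := by
      intro y hy
      have h3 : dist y z < r := hy
      have h4 : r ≤ s - dist z z₀ := by rw [hr]; exact min_le_left _ _
      have h5 : r ≤ dist z z₀ := by rw [hr]; exact min_le_right _ _
      refine ⟨?_, ?_⟩
      · have := dist_triangle y z z₀
        rw [mem_ball]
        linarith
      · rintro rfl
        rw [dist_comm] at h3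
        linarith
    have hsubR : ball z r ⊆ ball (0 : ℂ) R := fun y hy => (hball y (hsub y hy).1).2.2
    have hrel : ∀ y ∈ ball z r, ∃ c : ℂ, c ≠ 0 ∧ HR y = c • H y := by
      intro y hy
      obtain ⟨h3, h4⟩ := hsub y hy
      obtain ⟨h5, h6, -⟩ := hball y h3
      refine ⟨(y - z₀) ^ k * w y, mul_ne_zero (pow_ne_zero _ (sub_ne_zero.2 h4)) h6, ?_⟩
      rw [h5, smul_smul]
    have hHRX : ∀ y ∈ ball z r, HR y ∈ X := by
      intro y hy
      obtain ⟨c, hc, h3⟩ := hrel y hy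
      rw [h3]
      exact hX.smul_mem _ (hHX y) c hc
    have hnb : ball z r ∈ 𝓝 z := isOpen_ball.mem_nhds (mem_ball_self hr0)
    have hφ : ∀ᶠ j in (𝒰 : Filter ℕ), DifferentiableOn ℂ (fun z => Complex.exp (v j z) • G j z) (ball z r) ∧
        ∀ y ∈ ball z r, (fun z => Complex.exp (v j z) • G j z) y ∈ X := by
      filter_upwards [hv] with j hj
      refine ⟨?_, fun y _ => hX.smul_mem _ ((hGE j).mem y) _ (Complex.exp_ne_zero _)⟩
      exact ((hj.1.cexp).smul (hGE j).diff).differentiableOn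
    have h3 := n.tendsto_curve hr0 hφ (hdiff.mono hsubR) hHRX (hconv.mono hsubR)
    have h4 : ∀ᶠ j in (𝒰 : Filter ℕ), n.toFun ((fun z => Complex.exp (v j z) • G j z) z) (deriv (fun z => Complex.exp (v j z) • G j z) z) = (a j)⁻¹ := by
      filter_upwards [hv] with j hj
      rw [← hGn j z]
      refine n.lift_eq hX ⟨((hj.1.cexp).smul (hGE j).diff).analyticAt z, ?_⟩ ⟨(hGE j).diff.analyticAt z, Eventually.of_forall (hGE j).mem⟩ ?_
      · exact Eventually.of_forall fun y => hX.smul_mem _ ((hGE j).mem y) _ (Complex.exp_ne_zero _)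
      · exact Eventually.of_forall fun y => ⟨_, Complex.exp_ne_zero _, rfl⟩
    have h5 : n.toFun (HR z) (deriv HR z) = 0 := tendsto_nhds_unique h3 (hainv.congr' (h4.mono fun j hj => hj.symm))
    rw [← h5]
    symm
    refine n.lift_eq hX ⟨(hdiff.mono hsubR).analyticAt hnb, ?_⟩ ⟨hH.analyticAt z, Eventually.of_forall hHX⟩ ?_
    · filter_upwards [hnb] with y hy using hHRX y hy
    · filter_upwards [hnb] with y hy using hrel y hy
  have hn0 : ∀ z, n.toFun (H z) (deriv H z) = 0 := by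
    intro z₀
    have hc := (n.continuous_curve hH hHX).tendsto z₀
    have h3 : Tendsto (fun z => n.toFun (H z) (deriv H z)) (𝓝[≠] z₀) (𝓝 (n.toFun (H z₀) (deriv H z₀))) := hc.mono_left nhdsWithin_le_nhds
    have h4 : Tendsto (fun z => n.toFun (H z) (deriv H z)) (𝓝[≠] z₀) (𝓝 0) :=
      tendsto_const_nhds.congr' ((hloc z₀).mono fun z hz => hz.symm)
    exact tendsto_nhds_unique h3 h4
  rcases hnull H hH hHX hord hn0 with h | h
  · obtain ⟨z, hz⟩ := hHT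
    exact hz (h z)
  · obtain ⟨c, hc⟩ := h z₁ w₁
    exact hne c hc

end Pool.Agent.SY

end
end

section

/-!
# SY BdN: step (a), `g (F n)` is bounded near a bubble when the rational curves lie in `T`

`bound_near`: `Φ n = (unit) • F n` converges to `(z - w) ^ m • G z` near `w`, `G w ≠ 0`, and the rational curves of degree at most `m` in `X` lie
in `T`.  Then `g (F n)` is bounded near `w`.  Otherwise rescale at the maximum of `g` (Zalcman): the limit of the rescaled curves is neither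
constant nor contained in `T` (`exists_limit`), and it is a rational curve of degree at most `m` (`poly_lim`, `ratC_of_poly`).
-/

set_option autoImplicit false

open Topology Filter Metric

noncomputable section

namespace Pool.Agent.SY

open Pool.Agent.H36.BP (EN OrdTwo)
open Pool.Agent.H14.PP (IsCone)
open Pool.Agent.H74.NB (CC Obj vec)
open Pool.Agent.H62.EF (pr pr_smul pr_eq_iff continuousAt_pr)
open Pool.Agent.UC (RatC)

variable {N : ℕ} {X T : Set (EN N)} {rho : EN N → ℝ} {M : ℕ} {c₀ C : ℝ} {g : (ℂ → EN N) → ℂ → ℝ}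

theorem bound_near_unif {ι : Type*} {l : Filter ι} (hX : IsCone X) (hTs : ∀ x ∈ T, ∀ c : ℂ, c ≠ 0 → c • x ∈ T)
    (E : Energy X T (fun x => ‖x‖) rho M c₀ C g)
    {F : ι → ℂ → EN N} (hF : ∀ᶠ n in l, Ent X T (F n)) {Φ : ι → ℂ → EN N} {w : ℂ} {m : ℕ} {G : ℂ → EN N} {r : ℝ} (hr : 0 < r)
    (hΦ : ∀ᶠ n in l, DifferentiableOn ℂ (Φ n) (ball w r) ∧ ∀ z ∈ ball w r, ∃ c : ℂ, c ≠ 0 ∧ Φ n z = c • F n z)
    (hG : DifferentiableOn ℂ G (ball w r)) (hG0 : G w ≠ 0)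
    (hlim : ∀ ε : ℝ, 0 < ε → ∀ᶠ n in l, ∀ z ∈ ball w r, ‖Φ n z - (z - w) ^ m • G z‖ < ε)
    (hrat : ∀ (d : ℕ) (K K' : ℂ → EN N), 1 ≤ d → d ≤ m → RatC X d K K' → ∀ z, K z ∈ T) :
    ∃ s B : ℝ, 0 < s ∧ s ≤ r ∧ ∀ᶠ n in l, ∀ z ∈ ball w s, g (F n) z ≤ B := by
  by_contra hcon
  push Not at hcon
  have hX0 : ∀ x ∈ X, x ≠ 0 := fun x hx h => hX.zero_notMem (h ▸ hx)
  have hch : ∀ j : ℕ, ∃ n : ι, Ent X T (F n) ∧ (DifferentiableOn ℂ (Φ n) (ball w r) ∧ ∀ z ∈ ball w r, ∃ c : ℂ, c ≠ 0 ∧ Φ n z = c • F n z) ∧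
      (∀ z ∈ ball w r, ‖Φ n z - (z - w) ^ m • G z‖ < 1 / ((j : ℝ) + 1)) ∧
      ∃ z ∈ ball w (r / ((j : ℝ) + 1)), 4 * ((j : ℝ) + 1) / (r / ((j : ℝ) + 1)) < g (F n) z := by
    intro j
    have h1 : (0 : ℝ) ≤ j := Nat.cast_nonneg j
    have h2 := hcon (r / ((j : ℝ) + 1)) (4 * ((j : ℝ) + 1) / (r / ((j : ℝ) + 1))) (by positivity) (div_le_self hr.le (by linarith))
    obtain ⟨n, ⟨⟨h3, h4⟩, h5⟩, h6⟩ := (h2.and_eventually ((hF.and hΦ).and (hlim (1 / ((j : ℝ) + 1)) (by positivity)))).exists.imp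
      fun n hn => (⟨⟨⟨hn.2.1.1, hn.2.1.2⟩, hn.2.2⟩, hn.1⟩ : ((Ent X T (F n) ∧ _) ∧ _) ∧ _)
    exact ⟨n, h3, h4, h5, h6⟩
  choose n hE hΦn hun z hz hbig using hch
  have hj0 : ∀ j : ℕ, (0 : ℝ) < (j : ℝ) + 1 := fun j => by positivity
  have hs0 : ∀ j : ℕ, 0 < r / ((j : ℝ) + 1) := fun j => div_pos hr (hj0 j)
  have hresc := fun j : ℕ => rescale_g_loc E (hE j) j (zc := z j) (hs0 j) (by
    have := hbig j
    rw [div_lt_iff₀ (hs0 j)] at this
    rw [mul_comm (r / ((j : ℝ) + 1))]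
    exact this)
  choose ρ b hρ hρs hbz h1 h2 using hresc
  obtain ⟨𝒰, h𝒰⟩ : ∃ 𝒰 : Ultrafilter ℕ, 𝒰 = hyperfilter ℕ := ⟨_, rfl⟩
  have hle : (𝒰 : Filter ℕ) ≤ atTop := by rw [h𝒰]; exact Nat.hyperfilter_le_atTop
  have hj : Tendsto (fun j : ℕ => r / ((j : ℝ) + 1)) 𝒰 (𝓝 0) := by
    have h3 : Tendsto (fun k : ℕ => (k : ℝ) + 1) 𝒰 atTop :=
      (tendsto_atTop_add_const_right _ _ tendsto_natCast_atTop_atTop).mono_left hle
    exact h3.const_div_atTop r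
  have hone : Tendsto (fun j : ℕ => 1 / ((j : ℝ) + 1)) 𝒰 (𝓝 0) := by
    have h3 : Tendsto (fun k : ℕ => (k : ℝ) + 1) 𝒰 atTop :=
      (tendsto_atTop_add_const_right _ _ tendsto_natCast_atTop_atTop).mono_left hle
    exact h3.const_div_atTop 1
  have hρt : Tendsto ρ 𝒰 (𝓝 0) := by
    refine squeeze_zero (fun j => (hρ j).le) (fun j => ?_) hj
    have h3 := hρs j
    have h4 : (0 : ℝ) ≤ j := Nat.cast_nonneg j
    have h5 := hρ j
    nlinarith
  have hbt : Tendsto b 𝒰 (𝓝 w) := by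
    rw [tendsto_iff_norm_sub_tendsto_zero]
    have h3 := hj.const_mul (2 : ℝ)
    rw [mul_zero] at h3
    refine squeeze_zero (fun j => norm_nonneg _) (fun j => ?_) h3
    have h4 := hbz j
    have h5 : ‖z j - w‖ < r / ((j : ℝ) + 1) := by
      have := hz j
      rwa [mem_ball_iff_norm] at this
    have h6 : b j - w = (b j - z j) + (z j - w) := by ring
    rw [h6]
    refine (norm_add_le _ _).trans ?_
    have h7 := hs0 j
    linarith
  -- the rescaled curves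
  have hρc : ∀ j, ((ρ j : ℝ) : ℂ) ≠ 0 := fun j => by exact_mod_cast (hρ j).ne'
  obtain ⟨F', hF'⟩ : ∃ F' : ℕ → ℂ → EN N, F' = fun j ζ => F (n j) ((ρ j : ℂ) * ζ + b j) := ⟨_, rfl⟩
  have hF'E : ∀ j, Ent X T (F' j) := by
    intro j
    rw [hF']
    refine ⟨(hE j).diff.comp ((differentiable_id.const_mul _).add_const _), fun ζ => (hE j).mem _, ?_⟩
    obtain ⟨y, hy⟩ := (hE j).out
    refine ⟨(y - b j) / ρ j, ?_⟩
    have h3 : (ρ j : ℂ) * ((y - b j) / ρ j) + b j = y := by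
      field_simp [hρc j]
      ring
    show F (n j) ((ρ j : ℂ) * ((y - b j) / ρ j) + b j) ∉ T
    rw [h3]
    exact hy
  obtain ⟨H, hH, hHX, -, hHT, ⟨z₁, w₁, hne⟩, hlimH⟩ := exists_limit hX hTs E 𝒰 hle F' hF'E one_pos (A := 2)
    (fun j ζ hζ => by rw [hF']; exact h2 j ζ hζ) (fun j => by rw [hF']; exact (h1 j).ge)
  -- the polynomial limit
  have hobj : Obj 𝒰 (fun j => Φ (n j)) w m G r := by
    refine ⟨hr, Eventually.of_forall fun j => (hΦn j).1, Eventually.of_forall fun j y hy => ?_, ?_, hG, hG0⟩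
    · obtain ⟨c, hc, h3⟩ := (hΦn j).2 y hy
      rw [h3]
      exact smul_ne_zero hc (hX0 _ ((hE j).mem y))
    · intro y₀ hy₀ y hy
      have h3 : ContinuousAt (fun z => (z - w) ^ m • G z) y₀ := by
        have h4 : ContinuousAt G y₀ := hG.continuousOn.continuousAt (isOpen_ball.mem_nhds hy₀)
        fun_prop
      have h4 : Tendsto (fun j => (y j - w) ^ m • G (y j)) 𝒰 (𝓝 ((y₀ - w) ^ m • G y₀)) := h3.tendsto.comp hy
      have h5 : Tendsto (fun j => Φ (n j) (y j) - (y j - w) ^ m • G (y j)) 𝒰 (𝓝 0) := by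
        rw [tendsto_zero_iff_norm_tendsto_zero]
        refine squeeze_zero' (Eventually.of_forall fun j => norm_nonneg _) ?_ hone
        filter_upwards [hy.eventually (isOpen_ball.mem_nhds hy₀)] with j hyj
        exact (hun j _ hyj).le
      have h6 := h5.add h4
      simpa using h6
  obtain ⟨l', P, hl', hP0, hPd, hPl⟩ := poly_lim hobj hbt hρt
  have hmem : ∀ ζ : ℂ, ∀ᶠ j in (𝒰 : Filter ℕ), b j + ρ j * ζ ∈ ball w r := by
    intro ζ
    have h3 : Tendsto (fun j => b j + ρ j * ζ) 𝒰 (𝓝 (w + (0 : ℂ) * ζ)) :=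
      hbt.add (((Complex.continuous_ofReal.tendsto' 0 0 (by simp)).comp hρt).mul_const ζ)
    rw [zero_mul, add_zero] at h3
    exact h3.eventually (ball_mem_nhds w hr)
  have hrel : ∀ ζ : ℂ, ∀ᶠ j in (𝒰 : Filter ℕ), ∃ c : ℂ, c ≠ 0 ∧ (l' j : ℂ) • Φ (n j) (b j + ρ j * ζ) = c • F' j ζ := by
    intro ζ
    filter_upwards [hmem ζ, hl'] with j h3 h4
    obtain ⟨c, hc, h5⟩ := (hΦn j).2 _ h3
    refine ⟨l' j * c, mul_ne_zero (by exact_mod_cast h4.ne') hc, ?_⟩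
    rw [h5, smul_smul, hF', add_comm (b j)]
  have hPt : ∀ ζ : ℂ, Tendsto (fun j => (l' j : ℂ) • Φ (n j) (b j + ρ j * ζ)) 𝒰 (𝓝 (vec P ζ)) := fun ζ =>
    hPl ζ (Set.mem_univ _) (fun _ => ζ) tendsto_const_nhds
  have hPX : ∀ ζ, vec P ζ ≠ 0 → vec P ζ ∈ X := by
    intro ζ hζ
    have h3 : vec P ζ ∈ insert 0 X := by
      refine hX.closed.mem_of_tendsto (hPt ζ) ?_
      filter_upwards [hrel ζ] with j hj'
      obtain ⟨c, hc, h4⟩ := hj'
      rw [h4]
      exact Set.mem_insert_of_mem _ (hX.smul_mem _ ((hF'E j).mem ζ) c hc)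
    exact h3.resolve_left hζ
  obtain ⟨c, d, K, K', hc0, hdm, hRat, hPK, hd0⟩ := ratC_of_poly hX hP0 hPd hPX
  -- the two limits coincide
  have hloc : ∀ z₀ : ℂ, ∀ᶠ ζ in 𝓝[≠] z₀, pr (H ζ) = pr (K ζ) := by
    intro z₀
    obtain ⟨R, hR⟩ := exists_nat_gt ‖z₀‖
    have hR1 : 1 ≤ R := by
      by_contra hc
      have : R = 0 := by omega
      rw [this, Nat.cast_zero] at hR
      linarith [norm_nonneg z₀]
    obtain ⟨v, HR, hv, hconv, hdiff, -, hfac⟩ := hlimH R hR1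
    have hz₀ : z₀ ∈ ball (0 : ℂ) R := by rwa [mem_ball_zero_iff]
    obtain ⟨k, u, hu, hu0, hev⟩ := hfac z₀ hz₀
    have hwev : ∀ᶠ z in 𝓝 z₀, u z ≠ 0 := hu.continuousAt.eventually_ne hu0
    have hbev : ∀ᶠ z in 𝓝 z₀, z ∈ ball (0 : ℂ) R := isOpen_ball.mem_nhds hz₀
    filter_upwards [mem_nhdsWithin_of_mem_nhds hev, mem_nhdsWithin_of_mem_nhds hwev, mem_nhdsWithin_of_mem_nhds hbev,
      poly_ev_ne hc0 z₀, self_mem_nhdsWithin] with ζ g1 g2 g3 g4 g5
    have g5' : ζ ≠ z₀ := g5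
    have g1' : HR ζ = (ζ - z₀) ^ k • (u ζ • H ζ) := g1
    have g2' : u ζ ≠ 0 := g2
    have g3' : ζ ∈ ball (0 : ℂ) R := g3
    have g6 : (ζ - z₀) ^ k * u ζ ≠ 0 := mul_ne_zero (pow_ne_zero _ (sub_ne_zero.2 g5')) g2'
    rw [smul_smul] at g1'
    have g7 : HR ζ ≠ 0 := by
      rw [g1']
      exact smul_ne_zero g6 (hX0 _ (hHX ζ))
    have g8 : vec P ζ ≠ 0 := by
      rw [hPK]
      exact smul_ne_zero g4 (hX0 _ (hRat.mem ζ))
    have g9 : Tendsto (fun j => pr (F' j ζ)) 𝒰 (𝓝 (pr (H ζ))) := by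
      have k1 : Tendsto (fun j => pr (Complex.exp (v j ζ) • F' j ζ)) 𝒰 (𝓝 (pr (HR ζ))) :=
        (continuousAt_pr g7).tendsto.comp (hconv.tendsto_at g3')
      rw [g1', pr_smul _ g6] at k1
      refine k1.congr fun j => ?_
      rw [pr_smul _ (Complex.exp_ne_zero _)]
    have g10 : Tendsto (fun j => pr (F' j ζ)) 𝒰 (𝓝 (pr (K ζ))) := by
      have k1 : Tendsto (fun j => pr ((l' j : ℂ) • Φ (n j) (b j + ρ j * ζ))) 𝒰 (𝓝 (pr (vec P ζ))) :=
        (continuousAt_pr g8).tendsto.comp (hPt ζ)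
      rw [hPK, pr_smul _ g4] at k1
      refine k1.congr' ?_
      filter_upwards [hrel ζ] with j hj'
      obtain ⟨c', hc', k2⟩ := hj'
      rw [k2, pr_smul _ hc']
    exact tendsto_nhds_unique g9 g10
  have hall : ∀ ζ : ℂ, ∃ a : ℂ, a ≠ 0 ∧ H ζ = a • K ζ := by
    intro ζ
    have g1 : Tendsto (fun y => pr (H y)) (𝓝[≠] ζ) (𝓝 (pr (H ζ))) :=
      ((continuousAt_pr (hX0 _ (hHX ζ))).tendsto.comp (hH.continuous.tendsto ζ)).mono_left nhdsWithin_le_nhds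
    have g2 : Tendsto (fun y => pr (K y)) (𝓝[≠] ζ) (𝓝 (pr (K ζ))) :=
      ((continuousAt_pr (hX0 _ (hRat.mem ζ))).tendsto.comp (hRat.diff.continuous.tendsto ζ)).mono_left nhdsWithin_le_nhds
    exact (pr_eq_iff (hX0 _ (hHX ζ)) (hX0 _ (hRat.mem ζ))).1 (tendsto_nhds_unique (g1.congr' (hloc ζ)) g2)
  by_cases hd : d = 0
  · obtain ⟨a, ha, h3⟩ := hall z₁
    obtain ⟨a', ha', h4⟩ := hall w₁
    refine hne (a * a'⁻¹) ?_
    rw [h3, h4, smul_smul, mul_assoc, inv_mul_cancel₀ ha', mul_one, hd0 hd z₁ w₁]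
  · obtain ⟨y, hy⟩ := hHT
    obtain ⟨a, ha, h3⟩ := hall y
    refine hy ?_
    rw [h3]
    exact hTs _ (hrat d K K' (Nat.one_le_iff_ne_zero.2 hd) hdm hRat y) a ha

/-- Step (a), for `Obj`. -/
theorem bound_near_obj {𝒰 : Ultrafilter ℕ} (hX : IsCone X) (hTs : ∀ x ∈ T, ∀ c : ℂ, c ≠ 0 → c • x ∈ T)
    (E : Energy X T (fun x => ‖x‖) rho M c₀ C g)
    {F : ℕ → ℂ → EN N} (hF : ∀ᶠ n in (𝒰 : Filter ℕ), Ent X T (F n)) {Φ : ℕ → ℂ → EN N} {w : ℂ} {m : ℕ} {G : ℂ → EN N} {r : ℝ}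
    (h : Obj 𝒰 Φ w m G r) (hΦ : ∀ᶠ n in (𝒰 : Filter ℕ), ∀ z ∈ ball w r, ∃ c : ℂ, c ≠ 0 ∧ Φ n z = c • F n z)
    (hrat : ∀ (d : ℕ) (K K' : ℂ → EN N), 1 ≤ d → d ≤ m → RatC X d K K' → ∀ z, K z ∈ T) :
    ∃ s B : ℝ, 0 < s ∧ s ≤ r ∧ ∀ᶠ n in (𝒰 : Filter ℕ), ∀ z ∈ ball w s, g (F n) z ≤ B := by
  have hr2 : 0 < r / 2 := by have := h.pos; positivity
  have hsub : ball w (r / 2) ⊆ ball w r := ball_subset_ball (by linarith)
  have hcl : closedBall w (r / 2) ⊆ ball w r := closedBall_subset_ball (by linarith)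
  have hcont : ContinuousOn (fun z => (z - w) ^ m • G z) (ball w r) := by
    have h1 : ContinuousOn (fun z : ℂ => (z - w) ^ m) (ball w r) := by fun_prop
    exact h1.smul h.holG.continuousOn
  obtain ⟨s, B, hs, hsr, h2⟩ := bound_near_unif hX hTs E hF hr2 (Φ := Φ) (G := G) (w := w) (m := m)
    (by filter_upwards [h.hol, hΦ] with n h3 h4 using ⟨h3.mono hsub, fun z hz => h4 z (hsub hz)⟩) (h.holG.mono hsub) h.nzG (fun ε hε => by
      filter_upwards [h.cc.unif hcont isOpen_ball (isCompact_closedBall w (r / 2)) hcl hε] with n hn z hz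
      exact hn z (ball_subset_closedBall hz)) hrat
  exact ⟨s, B, hs, hsr.trans (by linarith), h2⟩

end Pool.Agent.SY

end
end
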