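import Pool.Agent.H94.G6.M28
import Pool.Agent.H94.G6.M45
import Pool.Agent.H94.G6.M55
import Pool.Agent.H94.G6.M61
import Pool.Agent.H94.G6.M66
import Pool.Agent.H94.G6.M68
import Pool.Agent.H94.G6.M70

/-! The parts of this file: H62.Et.Defs, H62.Et.Hat, H68.KR.MainG, MQ.MLog, MQ2.TConv, MQ3.Par. -/

section

/-!
# Et Defs: finite etale coverings of projective varieties
-/

set_option autoImplicit false

open Topology Filter MvPolynomial

noncomputable section

namespace Pool.Agent.H62.Et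

open Pool.Agent.H17 (PN VanishesAt HolomorphicInto)
open Pool.Agent.H17EF (LE)
open Pool.Agent.H62.EF (MN pr)

variable {N M : ℕ}

/-- the embedding of the projective space in the space of matrices -/
def pn (x : PN N) : MN N := pr ((LE N) x.rep)

end Pool.Agent.H62.Et

end
end

section

/-!
# Et Hat: the embedding of the projective space in the space of matrices

`pn x = pr ((LE N) x.rep)`.  Everything from Pool.Agent.H62.EF.PrA: `pr_smul`, `pr_eq_iff`, `continuousAt_pr`, `isCompact_pr`, `near_of_pr`.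
* `pn_mk`: `Projectivization.exists_smul_eq_mk_rep` and `pr_smul`.
* `pn_injective`: `pr_eq_iff` and `Projectivization.mk_eq_mk_iff'`, `Projectivization.mk_rep`.
* `pn_near`: `near_of_pr` at `(LE N) x` with the preimage of `U` under `(LE N).symm`; `x' = c • y.rep`.
* `pn_continuousAt`: `pn_mk`, `continuousAt_pr`, congruence near `a` (use `hf.self_of_nhds` for `φ a ≠ 0`).
* `pn_continuous`: `HolomorphicInto f univ` gives local analytic lifts.
* `isCompact_pn`: `pn '' projVar P = pr '' coneE P` (`mem_coneE`), and `coneE P` is a cone which is closed together with `0` (structure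
  `Pool.Agent.H14.PP.IsCone`: zero_notMem, smul_mem, closed; the set `{y | ∀ Q ∈ P, eval ((LE N).symm y) Q = 0}` is closed and equal to `insert 0 (coneE P)`,
  or take closed = zeros of the ideal; if `0` is not a zero of `P` then `P = ⊤` and everything is empty), `isCompact_pr`.
-/

set_option autoImplicit false

open Topology Filter MvPolynomial

noncomputable section

namespace Pool.Agent.H62.Et

open Pool.Agent.H17 (PN VanishesAt HolomorphicInto)
open Pool.Agent.H62.FC (Homog)
open Pool.Agent.H17EF (projVar LE coneE mem_coneE)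
open Pool.Agent.H62.EF (MN pr)

variable {N : ℕ}

private theorem LE_ne {x : Fin (N + 1) → ℂ} (hx : x ≠ 0) : (LE N) x ≠ 0 := by
  intro h
  apply hx
  have := congrArg (LE N).symm h
  rwa [ContinuousLinearEquiv.symm_apply_apply, map_zero] at this

private theorem mk_smul_eq {x : Fin (N + 1) → ℂ} (hx : x ≠ 0) {c : ℂ} (h : c • x ≠ 0) :
    Projectivization.mk ℂ (c • x) h = Projectivization.mk ℂ x hx := by
  rw [Projectivization.mk_eq_mk_iff']
  exact ⟨c, rfl⟩

theorem pn_mk {x : Fin (N + 1) → ℂ} (hx : x ≠ 0) : pn (Projectivization.mk ℂ x hx) = pr ((LE N) x) := by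
  obtain ⟨a, ha, hrep⟩ := Pool.Agent.H36.BP.rep_mk hx
  unfold pn
  rw [hrep, map_smul]
  exact Pool.Agent.H62.EF.pr_smul _ ha

theorem pn_injective : Function.Injective (pn (N := N)) := by
  intro x y h
  have hx := x.rep_nonzero
  have hy := y.rep_nonzero
  obtain ⟨c, hc, e⟩ := (Pool.Agent.H62.EF.pr_eq_iff (LE_ne hx) (LE_ne hy)).1 h
  have e2 : x.rep = c • y.rep := by
    have := congrArg (LE N).symm e
    rwa [map_smul, ContinuousLinearEquiv.symm_apply_apply, ContinuousLinearEquiv.symm_apply_apply] at this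
  rw [← x.mk_rep, ← y.mk_rep, Projectivization.mk_eq_mk_iff']
  exact ⟨c, e2.symm⟩

theorem pn_near {x : Fin (N + 1) → ℂ} (hx : x ≠ 0) {U : Set (Fin (N + 1) → ℂ)} (hU : U ∈ 𝓝 x) :
    ∃ δ : ℝ, 0 < δ ∧ ∀ y : PN N, dist (pn y) (pn (Projectivization.mk ℂ x hx)) < δ → ∃ x' ∈ U, ∃ h : x' ≠ 0, y = Projectivization.mk ℂ x' h := by
  have hU' : (LE N).symm ⁻¹' U ∈ 𝓝 ((LE N) x) := by
    refine (LE N).symm.continuous.continuousAt.preimage_mem_nhds ?_
    rwa [ContinuousLinearEquiv.symm_apply_apply]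
  obtain ⟨δ, hδ, h⟩ := Pool.Agent.H62.EF.near_of_pr (LE_ne hx) hU'
  refine ⟨δ, hδ, fun y hy => ?_⟩
  rw [pn_mk hx] at hy
  obtain ⟨c, hc, hcU⟩ := h ((LE N) y.rep) (LE_ne y.rep_nonzero) hy
  rw [Set.mem_preimage, map_smul, ContinuousLinearEquiv.symm_apply_apply] at hcU
  have h0 : c • y.rep ≠ 0 := smul_ne_zero hc y.rep_nonzero
  refine ⟨c • y.rep, hcU, h0, ?_⟩
  rw [mk_smul_eq y.rep_nonzero h0, y.mk_rep]

theorem pn_continuousAt {A : Type} [TopologicalSpace A] {φ : A → Fin (N + 1) → ℂ} {a : A} (hφ : ContinuousAt φ a) {f : A → PN N}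
    (hf : ∀ᶠ b in 𝓝 a, ∃ h : φ b ≠ 0, f b = Projectivization.mk ℂ (φ b) h) : ContinuousAt (fun b => pn (f b)) a := by
  obtain ⟨h0, -⟩ := hf.self_of_nhds
  have h1 : ContinuousAt (fun b => pr ((LE N) (φ b))) a :=
    ContinuousAt.comp (g := pr) (f := fun b => (LE N) (φ b)) (Pool.Agent.H62.EF.continuousAt_pr (LE_ne h0))
      ((LE N).continuous.continuousAt.comp hφ)
  refine h1.congr ?_
  filter_upwards [hf] with b hb
  obtain ⟨h, e⟩ := hb
  rw [e, pn_mk h]

theorem pn_continuous {f : ℂ → PN N} (hf : HolomorphicInto f Set.univ) : Continuous fun z => pn (f z) := by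
  rw [continuous_iff_continuousAt]
  intro z
  obtain ⟨φ, h1, h2⟩ := hf z (Set.mem_univ z)
  exact pn_continuousAt h1.continuousAt h2

private theorem isCone_coneE {P : Ideal (MvPolynomial (Fin (N + 1)) ℂ)} (hP : Homog P) :
    Pool.Agent.H14.PP.IsCone (coneE P) where
  zero_notMem h := by
    obtain ⟨h1, -⟩ := (mem_coneE hP).1 h
    exact h1 (map_zero _)
  smul_mem x hx c hc := by
    obtain ⟨h1, h2⟩ := (mem_coneE hP).1 hx
    refine (mem_coneE hP).2 ?_
    have h3 : (LE N).symm (c • x) = c • (LE N).symm x := map_smul _ _ _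
    have h4 : (LE N).symm (c • x) ≠ 0 := by
      rw [h3]
      exact smul_ne_zero hc h1
    refine ⟨h4, ?_⟩
    have h5 : Projectivization.mk ℂ ((LE N).symm (c • x)) h4 = Projectivization.mk ℂ ((LE N).symm x) h1 := by
      rw [Projectivization.mk_eq_mk_iff']
      exact ⟨c, h3.symm⟩
    rw [h5]
    exact h2
  closed := by
    by_cases h0 : ∀ Q ∈ P, eval (0 : Fin (N + 1) → ℂ) Q = 0
    · have e : insert 0 (coneE P) = ⋂ Q ∈ P, {y | eval ((LE N).symm y) Q = 0} := by
        ext y
        rw [Set.mem_insert_iff, Set.mem_iInter₂]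
        constructor
        · rintro (rfl | hy)
          · intro Q hQ
            rw [Set.mem_ofPred_eq, map_zero]
            exact h0 Q hQ
          · intro Q hQ
            exact hy.2 Q hQ
        · intro h
          by_cases hy : (LE N).symm y = 0
          · left
            have := congrArg (LE N) hy
            rwa [ContinuousLinearEquiv.apply_symm_apply, map_zero] at this
          · right
            exact ⟨hy, fun Q hQ => h Q hQ⟩
      rw [e]
      refine isClosed_biInter fun Q _ => ?_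
      refine isClosed_eq ?_ continuous_const
      exact (MvPolynomial.continuous_eval Q).comp (LE N).symm.continuous
    · have e : coneE P = ∅ := by
        rw [Set.eq_empty_iff_forall_notMem]
        intro y hy
        apply h0
        intro Q hQ
        have h1 := hP Q hQ 0
        rw [homogeneousComponent_zero] at h1
        have h2 := hy.2 _ h1
        rw [eval_C] at h2
        have h3 : eval (0 : Fin (N + 1) → ℂ) Q = coeff 0 Q := by
          rw [← constantCoeff_eq, MvPolynomial.eval_zero]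
        rw [h3, h2]
      rw [e]
      simp

theorem isCompact_pn {P : Ideal (MvPolynomial (Fin (N + 1)) ℂ)} (hP : Homog P) : IsCompact (pn '' projVar P) := by
  have e : pn '' projVar P = pr '' coneE P := by
    ext m
    constructor
    · rintro ⟨x, hx, rfl⟩
      refine ⟨(LE N) x.rep, (mem_coneE hP).2 ?_, rfl⟩
      have h1 : (LE N).symm ((LE N) x.rep) = x.rep := ContinuousLinearEquiv.symm_apply_apply _ _
      have h2 : (LE N).symm ((LE N) x.rep) ≠ 0 := by
        rw [h1]
        exact x.rep_nonzero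
      refine ⟨h2, ?_⟩
      have h3 : Projectivization.mk ℂ ((LE N).symm ((LE N) x.rep)) h2 = x := by
        refine Eq.trans ?_ x.mk_rep
        rw [Projectivization.mk_eq_mk_iff']
        exact ⟨1, by rw [one_smul, h1]⟩
      rw [h3]
      exact hx
    · rintro ⟨y, hy, rfl⟩
      obtain ⟨h, h'⟩ := (mem_coneE hP).1 hy
      refine ⟨_, h', ?_⟩
      rw [pn_mk h, ContinuousLinearEquiv.apply_symm_apply]
  rw [e]
  exact Pool.Agent.H62.EF.isCompact_pr (isCone_coneE hP)

end Pool.Agent.H62.Et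

end
end

section

/-!
# KR MainG: open surfaces of log general type carry a section of `M (K + D) - H` with poles of order at most `M`

The boundary `D = X ∩ {H₀ = 0}` of the smooth surface `X` is an arbitrary curve.
-/

set_option autoImplicit false

open MvPolynomial Topology Filter
open Pool.Agent.H17BP (Tan IsForm NoZeros)

noncomputable section

namespace Pool.Agent.H68.KR

variable {N : ℕ} (P : Ideal (MvPolynomial (Fin (N + 1)) ℂ))

variable {P}

variable {M a : ℕ} {t₀ : Fin 3 → Fin (N + 1)} {A B : MvPolynomial (Fin (N + 1)) ℂ}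

/-- Local extensions exist along all analytic maps into the open part. -/
theorem exists_ext_map {K : Set (Fin (N + 1) → ℂ)} (hA : A.IsHomogeneous a)
    (hB : B.IsHomogeneous (a + 3 * M + 1)) (hsm : ∀ x ∈ K, ∃ t σ, CChart P x t σ)
    (hext : ∀ x ∈ K, ∀ t σ, CChart P x t σ → ∃ Φ, Ext M t₀ A B σ Φ 0)
    {φ : ℂ × ℂ → Fin (N + 1) → ℂ} {p : ℂ × ℂ} (hφ : AnalyticAt ℂ φ p)
    (hφP : ∀ᶠ u in 𝓝 p, ∀ Q ∈ P, eval (φ u) Q = 0) (hφK : φ p ∈ K) :
    ∃ Ψ, Ext M t₀ A B φ Ψ p := by
  obtain ⟨t, σ, hch⟩ := hsm _ hφK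
  obtain ⟨Φ, hΦ⟩ := hext _ hφK t σ hch
  obtain ⟨κ, c, hκ, hc, hκ0, hc1, he⟩ := hch.param hφ rfl hφP
  refine ⟨_, Ext.comp hA hB hc (by rw [hc1]; exact one_ne_zero) hκ ?_ (Φ := Φ) ?_ he⟩
  · rw [hκ0]
    exact hch.an
  · rw [hκ0]
    exact hΦ

variable (P)

end Pool.Agent.H68.KR

end
end

section

/-!
# MQ MLog: the averages of `log (1 + lam)`
-/

set_option autoImplicit false

open MeasureTheory Topology Filter Metric Laplacian Set

noncomputable section

namespace Pool.Agent.MQ

open Pool.Agent.H30M (tau rhoR avg rho tau_nonneg contDiff_tau hcs_tau green_tau rhoR_nonneg)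

variable {N M : ℕ}

/-- `rho` is bounded -/
theorem exists_rho_le : ∃ K : ℝ, 0 ≤ K ∧ ∀ z, rho z ≤ K := by
  have hcs : HasCompactSupport rho := by
    have := Pool.Agent.H30M.hcs_rhoR (R := 1) le_rfl
    rwa [Pool.Agent.H30M.rhoR_one] at this
  obtain ⟨K, hK⟩ := Pool.Agent.H30M.continuous_rho.bounded_above_of_compact_support hcs
  refine ⟨|K|, abs_nonneg K, fun z => ?_⟩
  have := hK z
  rw [Real.norm_eq_abs] at this
  exact (le_abs_self _).trans (this.trans (le_abs_self K))

/-- the average of the square of a density is controlled by its energy on a larger disc -/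
theorem exists_avg_sq_le : ∃ K : ℝ, 0 ≤ K ∧ ∀ {l : ℂ → ℝ}, Continuous l → ∀ R, 1 ≤ R →
    avg R (fun z => l z ^ 2) ≤ K / R ^ 2 * ∫ z, tau (Real.exp 2 * R) z * l z ^ 2 := by
  obtain ⟨K, hK0, hK⟩ := exists_rho_le
  refine ⟨K, hK0, fun {l} hl0 R hR => ?_⟩
  have hR0 : 0 < R := by linarith
  have he : 1 ≤ Real.exp 2 * R := by
    have := Real.one_le_exp (zero_le_two (α := ℝ))
    nlinarith
  have hc : Continuous fun z => l z ^ 2 := hl0.pow 2
  unfold Pool.Agent.H30M.avg
  rw [← integral_const_mul]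
  refine integral_mono (((Pool.Agent.H30M.continuous_rhoR R).mul hc).integrable_of_hasCompactSupport ((Pool.Agent.H30M.hcs_rhoR hR).mul_right))
    ((((contDiff_tau _).continuous.mul hc).integrable_of_hasCompactSupport ((hcs_tau he).mul_right)).const_mul _) fun z => ?_
  have hl : 0 ≤ l z ^ 2 := sq_nonneg _
  have h1 : rhoR R z ≤ K / R ^ 2 * tau (Real.exp 2 * R) z := by
    have hKR : 0 ≤ K / R ^ 2 := by positivity
    by_cases hz : ‖z‖ ≤ Real.exp 1 * R
    · have h2 := Pool.Agent.H30M.one_le_tau hR hz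
      have h3 : rhoR R z ≤ K / R ^ 2 := div_le_div_of_nonneg_right (hK _) (by positivity)
      nlinarith
    · rw [Pool.Agent.H30M.rhoR_eq_zero hR (Or.inr (not_le.1 hz).le)]
      exact mul_nonneg hKR (tau_nonneg he z)
  calc rhoR R z * l z ^ 2 ≤ (K / R ^ 2 * tau (Real.exp 2 * R) z) * l z ^ 2 := mul_le_mul_of_nonneg_right h1 hl
    _ = _ := by ring

/-- V8 for an arbitrary density -/
theorem mlog_gen {l : ℂ → ℝ} (hc : Continuous l) (h0 : ∀ z, 0 ≤ l z) {A : ℝ} (hA : ∀ R, 1 ≤ R → ∫ z, tau R z * l z ^ 2 ≤ A * R ^ 2) :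
    ∃ C, ∀ R, 1 ≤ R → avg R (fun z => Real.log (1 + l z)) ≤ C := by
  obtain ⟨K, hK0, hK⟩ := exists_avg_sq_le
  have hc2 : Continuous fun z => l z ^ 2 := hc.pow 2
  refine ⟨2 * Real.pi + K * (|A| * Real.exp 2 ^ 2), fun R hR => ?_⟩
  have hR0 : 0 < R := by linarith
  have he : 1 ≤ Real.exp 2 * R := by
    have := Real.one_le_exp (zero_le_two (α := ℝ))
    nlinarith
  have h1 : avg R (fun z => l z ^ 2) ≤ K * (|A| * Real.exp 2 ^ 2) := by
    refine (hK hc R hR).trans ?_
    have h2 : ∫ z, tau (Real.exp 2 * R) z * l z ^ 2 ≤ |A| * (Real.exp 2 * R) ^ 2 :=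
      (hA _ he).trans (mul_le_mul_of_nonneg_right (le_abs_self A) (sq_nonneg _))
    calc K / R ^ 2 * ∫ z, tau (Real.exp 2 * R) z * l z ^ 2 ≤ K / R ^ 2 * (|A| * (Real.exp 2 * R) ^ 2) :=
          mul_le_mul_of_nonneg_left h2 (by positivity)
      _ = K * (|A| * Real.exp 2 ^ 2) := by
        field_simp
  have hci : ∀ {f : ℂ → ℝ}, Continuous f → Integrable fun z => rhoR R z * f z := fun hf =>
    ((Pool.Agent.H30M.continuous_rhoR R).mul hf).integrable_of_hasCompactSupport ((Pool.Agent.H30M.hcs_rhoR hR).mul_right)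
  have hlog : Continuous fun z => Real.log (1 + l z) :=
    (continuous_const.add hc).log fun z => (add_pos_of_pos_of_nonneg one_pos (h0 z)).ne'
  have h3 : avg R (fun z => Real.log (1 + l z)) ≤ ∫ z, (rhoR R z + rhoR R z * l z ^ 2) := by
    unfold Pool.Agent.H30M.avg
    refine integral_mono (hci hlog) ((by simpa using hci continuous_const (f := fun _ => (1 : ℝ)) : Integrable fun z => rhoR R z).add (hci hc2)) fun z => ?_
    have h4 := h0 z
    have h5 : Real.log (1 + l z) ≤ 1 + l z ^ 2 := by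
      have := Real.log_le_sub_one_of_pos (add_pos_of_pos_of_nonneg one_pos h4)
      nlinarith [sq_nonneg (l z - 1)]
    calc rhoR R z * Real.log (1 + l z) ≤ rhoR R z * (1 + l z ^ 2) := mul_le_mul_of_nonneg_left h5 (rhoR_nonneg R z)
      _ = _ := by ring
  rw [integral_add (by simpa using hci continuous_const (f := fun _ => (1 : ℝ))) (hci hc2), Pool.Agent.H30M.int_rhoR hR] at h3
  exact h3.trans (by
    have : ∫ z, rhoR R z * l z ^ 2 = avg R (fun z => l z ^ 2) := rfl
    rw [this]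
    linarith)

end Pool.Agent.MQ

end
end

section

/-!
# MQ2 TConv: a convergent weak separatrix is an invariant curve
-/

set_option autoImplicit false

open Topology Filter Metric Asymptotics

noncomputable section

namespace Pool.Agent.MQ2

open Pool.Agent.MQ (jet)
open AC (dv_of_isBigO not_eventually_iff dv_subst analytic_subst)

theorem AC_dv_deriv {n : ℕ} {g : ℂ → ℂ} (hg : AC.Dv (n + 1) g) : AC.Dv n (deriv g) := by
  obtain ⟨k, h1, h2⟩ := hg
  refine ⟨fun t => ((n : ℂ) + 1) * k t + t * deriv k t, (analyticAt_const.mul h1).add (analyticAt_id.mul h1.deriv), ?_⟩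
  filter_upwards [h2.eventually_nhds, h1.eventually_analyticAt] with t e1 e2
  have e3 : HasDerivAt (fun t : ℂ => t ^ (n + 1) * k t) (((n + 1 : ℕ) : ℂ) * t ^ n * k t + t ^ (n + 1) * deriv k t) t := by
    have e4 : HasDerivAt (fun t : ℂ => t ^ (n + 1)) (((n + 1 : ℕ) : ℂ) * t ^ n) t := by simpa using hasDerivAt_pow (n + 1) t
    exact e4.mul e2.differentiableAt.hasDerivAt
  have e5 : g =ᶠ[𝓝 t] fun t => t ^ (n + 1) * k t := e1
  rw [e5.deriv_eq, e3.deriv]
  push_cast
  ring

/-- a flat analytic function is `0` -/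
theorem eventually_zero_of_dv {g : ℂ → ℂ} (hg : AnalyticAt ℂ g 0) (h : ∀ n, AC.Dv n g) : ∀ᶠ t in 𝓝 (0 : ℂ), g t = 0 := by
  by_contra h0
  obtain ⟨n, hn⟩ := not_eventually_iff hg h0
  have := hn.dv_iff (h (n + 1))
  omega

/-- a convergent weak separatrix is the invariant curve `y = s (x)` -/
theorem exists_conv {k : ℕ} {a b : ℂ × ℂ → ℂ} (ha : AnalyticAt ℂ a 0) (hb : AnalyticAt ℂ b 0) {c : ℕ → ℂ} (hc : c 0 = 0)
    (hJ : ∀ J, (fun t => b (t, jet c J t) - deriv (jet c J) t * (t ^ (k + 1) * a (t, jet c J t))) =O[𝓝 0] fun t : ℂ => t ^ (J + 1))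
    {γ : ℂ → ℂ × ℂ} (hγ : AnalyticAt ℂ γ 0) (h : ∀ N, (fun t => γ t - (t, jet c N t)) =O[𝓝 0] fun t : ℂ => t ^ (N + 1)) :
    ∃ s : ℂ → ℂ, AnalyticAt ℂ s 0 ∧ s 0 = 0 ∧ ∀ᶠ x in 𝓝 (0 : ℂ), b (x, s x) = deriv s x * (x ^ (k + 1) * a (x, s x)) := by
  set s : ℂ → ℂ := fun t => (γ t).2 with hsd
  have hs : AnalyticAt ℂ s 0 := analyticAt_snd.comp hγ
  have hsN : ∀ N, AC.Dv (N + 1) fun t => s t - jet c N t := by
    intro N
    refine dv_of_isBigO (hs.sub (AC.analytic_jet c N 0)) ?_
    have h1 : (fun t => s t - jet c N t) =O[𝓝 0] fun t : ℂ => t ^ (N + 1) := by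
      refine IsBigO.trans (IsBigO.of_bound 1 (Eventually.of_forall fun t => ?_)) (h N)
      rw [one_mul]
      exact norm_snd_le (γ t - (t, jet c N t))
    exact h1.mono nhdsWithin_le_nhds
  have hs0 : s 0 = 0 := by
    have h1 := (hsN 0).zero
    rw [AC.jet_zero hc, sub_zero] at h1
    exact h1
  refine ⟨s, hs, hs0, ?_⟩
  have hFa : AnalyticAt ℂ (fun t => b (t, s t) - deriv s t * (t ^ (k + 1) * a (t, s t))) 0 :=
    (analytic_subst hb hs hs0).sub (hs.deriv.mul ((analyticAt_id.pow (k + 1)).mul (analytic_subst ha hs hs0)))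
  have hz := eventually_zero_of_dv hFa (by
    intro n
    have hj := AC.analytic_jet c n 0
    have hj0 := AC.jet_zero hc n
    -- the jet equation
    have e1 : AC.Dv (n + 1) fun t => b (t, jet c n t) - deriv (jet c n) t * (t ^ (k + 1) * a (t, jet c n t)) :=
      dv_of_isBigO ((analytic_subst hb hj hj0).sub (hj.deriv.mul ((analyticAt_id.pow (k + 1)).mul (analytic_subst ha hj hj0)))) ((hJ n).mono nhdsWithin_le_nhds)
    have e2 : AC.Dv (n + 1) fun t => b (t, s t) - b (t, jet c n t) := dv_subst hb hs hs0 hj hj0 (hsN n)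
    have e3 : AC.Dv (n + 1) fun t => a (t, s t) - a (t, jet c n t) := dv_subst ha hs hs0 hj hj0 (hsN n)
    have e4 : AC.Dv n (deriv fun t => s t - jet c n t) := AC_dv_deriv (hsN n)
    have e5 : AC.Dv n fun t => deriv s t - deriv (jet c n) t := by
      refine e4.congr ?_
      filter_upwards [hs.eventually_analyticAt, hj.eventually_analyticAt] with t a1 a2
      rw [deriv_fun_sub a1.differentiableAt a2.differentiableAt]
    have hmul : ∀ {m : ℕ} {g f : ℂ → ℂ}, AC.Dv m g → AnalyticAt ℂ f 0 → AC.Dv m fun t => g t * f t := by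
      rintro m g f ⟨κ, a1, a2⟩ hf
      exact ⟨fun t => κ t * f t, a1.mul hf, by filter_upwards [a2] with t a3; rw [a3]; ring⟩
    have e6 : AC.Dv n fun t => (deriv s t - deriv (jet c n) t) * (t ^ (k + 1) * a (t, s t)) :=
      hmul e5 ((analyticAt_id.pow (k + 1)).mul (analytic_subst ha hs hs0))
    have e7 : AC.Dv n fun t => (a (t, s t) - a (t, jet c n t)) * (deriv (jet c n) t * t ^ (k + 1)) :=
      hmul (e3.mono (Nat.le_succ n)) (hj.deriv.mul (analyticAt_id.pow (k + 1)))
    refine ((((e1.mono (Nat.le_succ n)).add (e2.mono (Nat.le_succ n))).sub e6).sub e7).congr (Eventually.of_forall fun t => ?_)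
    ring)
  filter_upwards [hz] with t ht
  exact sub_eq_zero.1 ht

end Pool.Agent.MQ2

end
end

section

/-!
# MQ3 Par: parallel vector fields with isolated zeros differ by a unit
-/

set_option autoImplicit false

open Topology Filter Metric

noncomputable section

namespace Pool.Agent.MQ3

/-- Hartogs at any point -/
theorem hartogs_at {f : ℂ × ℂ → ℂ} {q : ℂ × ℂ} (hf : ∀ᶠ p in 𝓝[≠] q, AnalyticAt ℂ f p) :
    ∃ F : ℂ × ℂ → ℂ, AnalyticAt ℂ F q ∧ ∀ᶠ p in 𝓝[≠] q, F p = f p := by
  have h1 : Tendsto (fun x : ℂ × ℂ => q + x) (𝓝 0) (𝓝 q) := by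
    have : Continuous fun x : ℂ × ℂ => q + x := by fun_prop
    have h := this.tendsto 0
    rwa [add_zero] at h
  have h2 : Tendsto (fun x : ℂ × ℂ => x - q) (𝓝 q) (𝓝 0) := by
    have : Continuous fun x : ℂ × ℂ => x - q := by fun_prop
    have h := this.tendsto q
    rwa [sub_self] at h
  obtain ⟨F, hF, hF'⟩ := Pool.Agent.MQ2.hartogs (f := fun x => f (q + x)) (by
    filter_upwards [h1.eventually (eventually_nhdsWithin_iff.1 hf)] with x hx h0
    have h3 : AnalyticAt ℂ f (q + x) := hx (by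
      intro h
      exact h0 (by simpa using h))
    exact AnalyticAt.comp (g := f) (f := fun x : ℂ × ℂ => q + x) (x := x) h3 (analyticAt_const.add analyticAt_id))
  refine ⟨fun p => F (p - q), ?_, ?_⟩
  · have h3 : AnalyticAt ℂ F (q - q) := by rwa [sub_self]
    exact AnalyticAt.comp (g := F) (f := fun x : ℂ × ℂ => x - q) (x := q) h3 (analyticAt_id.sub analyticAt_const)
  · rw [eventually_nhdsWithin_iff]
    filter_upwards [h2.eventually hF'] with p hp hpq
    rw [hp (sub_ne_zero.2 hpq), add_sub_cancel]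

/-- Two parallel vector fields with isolated zeros differ by a unit. -/
theorem par_unit {V V' : ℂ × ℂ → ℂ × ℂ} {q : ℂ × ℂ} (hV : AnalyticAt ℂ V q) (hV' : AnalyticAt ℂ V' q) (h0 : ∀ᶠ x in 𝓝[≠] q, V x ≠ 0)
    (h0' : ∀ᶠ x in 𝓝[≠] q, V' x ≠ 0) (h : ∀ᶠ x in 𝓝 q, x.1 * x.2 ≠ 0 → (V x).1 * (V' x).2 = (V x).2 * (V' x).1) :
    ∃ f : ℂ × ℂ → ℂ, AnalyticAt ℂ f q ∧ f q ≠ 0 ∧ ∀ᶠ x in 𝓝 q, V x = f x • V' x := by
  classical
  have a1 : ∀ {V : ℂ × ℂ → ℂ × ℂ} {x : ℂ × ℂ}, AnalyticAt ℂ V x → AnalyticAt ℂ (fun x => (V x).1) x := fun h => analyticAt_fst.fun_comp h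
  have a2 : ∀ {V : ℂ × ℂ → ℂ × ℂ} {x : ℂ × ℂ}, AnalyticAt ℂ V x → AnalyticAt ℂ (fun x => (V x).2) x := fun h => analyticAt_snd.fun_comp h
  have hpar : ∀ᶠ x in 𝓝 q, (V x).1 * (V' x).2 = (V x).2 * (V' x).1 :=
    eventuallyEq_of_off ((a1 hV).fun_mul (a2 hV')) ((a2 hV).fun_mul (a1 hV')) h
  set f : ℂ × ℂ → ℂ := fun x => if (V' x).1 ≠ 0 then (V x).1 / (V' x).1 else (V x).2 / (V' x).2 with hf
  have hne : ∀ x : ℂ × ℂ, x ≠ 0 → x.1 ≠ 0 ∨ x.2 ≠ 0 := by
    intro x hx
    by_contra hcon
    rw [not_or, not_not, not_not] at hcon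
    exact hx (Prod.ext hcon.1 hcon.2)
  have hfa : ∀ᶠ x in 𝓝[≠] q, AnalyticAt ℂ f x := by
    filter_upwards [h0', (eventually_eventually_nhds.2 hpar).filter_mono nhdsWithin_le_nhds, hV.eventually_analyticAt.filter_mono nhdsWithin_le_nhds,
      hV'.eventually_analyticAt.filter_mono nhdsWithin_le_nhds] with x h1 h2 h3 h4
    by_cases h5 : (V' x).1 = 0
    · have h6 : (V' x).2 ≠ 0 := (hne _ h1).resolve_left (fun h => h h5)
      refine ((a2 h3).fun_div (a2 h4) h6).congr ?_
      filter_upwards [h2, (a2 h4).continuousAt.eventually_ne h6] with y hy h7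
      by_cases h8 : (V' y).1 = 0
      · simp only [hf, h8, ne_eq, not_true_eq_false, if_false]
      · simp only [hf, ne_eq, h8, not_false_eq_true, if_true]
        rw [div_eq_div_iff h7 h8]
        exact hy.symm
    · refine ((a1 h3).fun_div (a1 h4) h5).congr ?_
      filter_upwards [(a1 h4).continuousAt.eventually_ne h5] with y h7
      simp only [hf, ne_eq, h7, not_false_eq_true, if_true]
  obtain ⟨G, hG, hG'⟩ := hartogs_at hfa
  have hrel : ∀ᶠ x in 𝓝[≠] q, V x = G x • V' x := by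
    filter_upwards [hG', h0', hpar.filter_mono nhdsWithin_le_nhds] with x h1 h2 h3
    rw [h1]
    by_cases h5 : (V' x).1 = 0
    · have h6 : (V' x).2 ≠ 0 := (hne _ h2).resolve_left (fun h => h h5)
      have h7 : f x = (V x).2 / (V' x).2 := by simp only [hf, h5, ne_eq, not_true_eq_false, if_false]
      rw [h7]
      refine Prod.ext ?_ ?_
      · rw [Prod.smul_fst, smul_eq_mul, h5, mul_zero]
        rw [h5, mul_zero] at h3
        exact (mul_eq_zero.1 h3).resolve_right h6
      · rw [Prod.smul_snd, smul_eq_mul, div_mul_cancel₀ _ h6]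
    · have h7 : f x = (V x).1 / (V' x).1 := by simp only [hf, ne_eq, h5, not_false_eq_true, if_true]
      rw [h7]
      refine Prod.ext ?_ ?_
      · rw [Prod.smul_fst, smul_eq_mul, div_mul_cancel₀ _ h5]
      · rw [Prod.smul_snd, smul_eq_mul, div_mul_eq_mul_div, h3, mul_div_cancel_right₀ _ h5]
  have hG0 : G q ≠ 0 := by
    refine ne_of_isolated hG ?_
    have h1 : ∀ᶠ x in 𝓝[≠] q, G x ≠ 0 := by
      filter_upwards [hrel, h0] with x h1 h2 h3
      rw [h3, zero_smul] at h1
      exact h2 h1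
    exact eventually_nhdsWithin_iff.1 h1
  refine ⟨G, hG, hG0, ?_⟩
  have h1 : AnalyticAt ℂ (fun x => G x • V' x) q := hG.fun_smul hV'
  haveI := Module.punctured_nhds_neBot ℂ (ℂ × ℂ) q
  have hq : V q = G q • V' q :=
    tendsto_nhds_unique_of_eventuallyEq (hV.continuousAt.tendsto.mono_left nhdsWithin_le_nhds) (h1.continuousAt.tendsto.mono_left nhdsWithin_le_nhds) hrel
  filter_upwards [eventually_nhdsWithin_iff.1 hrel] with x h2
  by_cases hx : x = q
  · rw [hx]
    exact hq
  · exact h2 hx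

end Pool.Agent.MQ3

end
end
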