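import Pool.Agent.H94.G6.M34
import Pool.Agent.H94.G6.M48
import Pool.Agent.H94.G6.M95

/-! The parts of this file: MQ.Shell_1, MQ2.SepC. -/

section

/-!
# MQ Shell: the logarithm of a form with high contact with an axis, in a shell around the axis

`q (x, y)` is the form in the coordinates of the box, `q (0, y) = c y ^ n + …`.
-/

set_option autoImplicit false

open MeasureTheory Topology Filter Metric Laplacian

noncomputable section

namespace Pool.Agent.MQ.AxisA

open Pool.Agent.H36.BP (EN fs)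
open Pool.Agent.MQ

/-- **The shell lemma.** -/
theorem shell {q : ℂ × ℂ → ℂ} (hq : AnalyticAt ℂ q 0) {n : ℕ} (hn : 1 ≤ n) (hord : analyticOrderAt (fun t => q (0, t)) 0 = n) {ψ : ℂ × ℂ → ℝ}
    (hψ : ContDiffAt ℝ 1 ψ 0) (d : ℕ) {K : ℝ} (hK : 0 ≤ K) {s : ℝ} (hs : 0 < s) :
    ∃ ρ η : ℝ, 0 < η ∧ 2 * η ≤ ρ ∧ ρ < s ∧ ∀ c : ℝ, 0 < c → ∃ b₀ : ℝ, ∀ {M : ℕ} {F : ℂ → EN M} (_ : Differentiable ℂ F) (_ : ∀ z, F z ≠ 0)
      {g : ℂ → ℂ} {U : Set ℂ} {x y a b : ℂ → ℂ} {rho : ℝ} (_ : Axis0 U x y a b K rho)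
      (_ : ∀ z ∈ U, ‖g z‖ * Real.exp (d * ψ (x z, y z)) = c * ‖q (x z, y z)‖ * ‖F z‖ ^ d),
      ∀ z ∈ U, ‖x z‖ ≤ η → ρ / 2 ≤ ‖y z‖ → ‖y z‖ ≤ ρ → g z ≠ 0 ∧ b₀ ≤ lu F g d z ∧ lu F g d z ≤ b₀ + 2 * n ∧
        (n / 2) * ‖b z‖ ≤ ‖gr (lu F g d) z‖ := by
  have hn0 : (1 : ℝ) ≤ n := by exact_mod_cast hn
  have hd0 : (0 : ℝ) ≤ d := Nat.cast_nonneg d
  set ε : ℝ := 1 / (8 * (1 + K)) with hε
  have hε0 : 0 < ε := by positivity
  -- the function `ψ` near `0`
  obtain ⟨C, hC0, hCb⟩ : ∃ C : ℝ, 0 < C ∧ ∀ᶠ p in 𝓝 (0 : ℂ × ℂ), DifferentiableAt ℝ ψ p ∧ ‖fderiv ℝ ψ p‖ ≤ C := by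
    refine ⟨‖fderiv ℝ ψ 0‖ + 1, by positivity, ?_⟩
    have h1 : ContinuousAt (fun p => ‖fderiv ℝ ψ p‖) 0 := (hψ.fderiv_right (m := 0) (by norm_num)).continuousAt.norm
    filter_upwards [hψ.eventually (by simp), h1.eventually (gt_mem_nhds (lt_add_one _))] with p h2 h3
    exact ⟨h2.differentiableAt (by norm_num), h3.le⟩
  have hψc : ∀ᶠ p in 𝓝 (0 : ℂ × ℂ), |ψ p - ψ 0| ≤ 1 / (2 * ((d : ℝ) + 1)) := by
    have h1 : ContinuousAt (fun p => |ψ p - ψ 0|) 0 := (hψ.continuousAt.sub continuousAt_const).abs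
    have h2 : |ψ 0 - ψ 0| < 1 / (2 * ((d : ℝ) + 1)) := by
      rw [sub_self, abs_zero]
      positivity
    filter_upwards [h1.eventually (gt_mem_nhds h2)] with p hp
    exact hp.le
  obtain ⟨t, ht0, ht⟩ := Metric.eventually_nhds_iff_ball.1 (hCb.and (hψc.and hq.eventually_analyticAt))
  -- the radius
  have hsmall : ∀ᶠ r in 𝓝[>] (0 : ℝ), 0 < r ∧ r < s ∧ r < t ∧ ((d : ℝ) + 1) * C * (1 + K) * r ≤ 1 / 4 := by
    have h1 : Tendsto (fun r : ℝ => ((d : ℝ) + 1) * C * (1 + K) * r) (𝓝[>] 0) (𝓝 0) := by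
      have h2 : Tendsto (fun r : ℝ => ((d : ℝ) + 1) * C * (1 + K) * r) (𝓝 0) (𝓝 (((d : ℝ) + 1) * C * (1 + K) * 0)) :=
        (continuous_const.mul continuous_id).tendsto 0
      rw [mul_zero] at h2
      exact h2.mono_left nhdsWithin_le_nhds
    filter_upwards [self_mem_nhdsWithin, mem_nhdsWithin_of_mem_nhds (gt_mem_nhds hs), mem_nhdsWithin_of_mem_nhds (gt_mem_nhds ht0),
      h1.eventually (gt_mem_nhds (show (0 : ℝ) < 1 / 4 by norm_num))] with r h2 h3 h4 h5
    exact ⟨h2, h3, h4, h5.le⟩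
  obtain ⟨ρ, ⟨hρ0, hρs, hρt, hρC⟩, η, b₀, hη0, hη2, hreg⟩ := (hsmall.and (reg2 hq hn hord hε0)).exists
  refine ⟨ρ, η, hη0, hη2, hρs, fun c hc => ⟨b₀ + Real.log c - d * ψ 0 - n / 2, ?_⟩⟩
  intro M F hF h0 g U x y a b rho hA hrel z hz hx1 hy1 hy2
  obtain ⟨q0, q1, q2, q3, q4⟩ := hreg (x z) (y z) hx1 hy1 hy2
  have hηρ : η ≤ ρ := by linarith
  have hpt : (x z, y z) ∈ ball (0 : ℂ × ℂ) t := by
    rw [mem_ball_zero_iff, Prod.norm_def]
    exact max_lt (lt_of_le_of_lt (hx1.trans hηρ) hρt) (lt_of_le_of_lt hy2 hρt)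
  obtain ⟨⟨p1, p2⟩, p3, p4⟩ := ht _ hpt
  have hFp : 0 < ‖F z‖ := norm_pos_iff.2 (h0 z)
  have hy0 : y z ≠ 0 := norm_pos_iff.1 (by linarith)
  have hg0 : g z ≠ 0 := by
    intro h
    have h1 := hrel z hz
    rw [h, norm_zero, zero_mul] at h1
    have h2 : 0 < c * ‖q (x z, y z)‖ * ‖F z‖ ^ d := mul_pos (mul_pos hc (norm_pos_iff.2 q0)) (pow_pos hFp d)
    linarith
  -- the formula for `lu`
  have hxc := (hA.hx z hz)
  have hyc := (hA.hy z hz)
  have hqan : AnalyticAt ℂ (fun w => q (x w, y w)) z := AnalyticAt.fun_comp (g := q) (f := fun w => (x w, y w)) p4 (hxc.prod hyc)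
  have hform : ∀ w ∈ U, q (x w, y w) ≠ 0 → lu F g d w = Real.log c + Real.log ‖q (x w, y w)‖ - d * ψ (x w, y w) := by
    intro w hw hqw
    have h1 := hrel w hw
    have h2 : 0 < ‖F w‖ := norm_pos_iff.2 (h0 w)
    have h3 : 0 < c * ‖q (x w, y w)‖ * ‖F w‖ ^ d := mul_pos (mul_pos hc (norm_pos_iff.2 hqw)) (pow_pos h2 d)
    have h4 : ‖g w‖ ≠ 0 := by
      intro h5
      rw [h5, zero_mul] at h1
      linarith
    have h5 := congrArg Real.log h1
    rw [Real.log_mul h4 (Real.exp_pos _).ne', Real.log_exp, Real.log_mul (mul_pos hc (norm_pos_iff.2 hqw)).ne' (pow_pos h2 d).ne',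
      Real.log_mul hc.ne' (norm_ne_zero_iff.2 hqw), Real.log_pow] at h5
    unfold lu
    linarith
  have hev : lu F g d =ᶠ[𝓝 z] fun w => (Real.log c + Real.log ‖q (x w, y w)‖) - d * ψ (x w, y w) := by
    filter_upwards [hA.isOpen.mem_nhds hz, hqan.continuousAt.eventually_ne q0] with w h1 h2
    exact hform w h1 h2
  have hval := hform z hz q0
  have hψz : |(d : ℝ) * (ψ (x z, y z) - ψ 0)| ≤ n / 2 := by
    rw [abs_mul, Nat.abs_cast]
    have h1 : (d : ℝ) * |ψ (x z, y z) - ψ 0| ≤ d * (1 / (2 * ((d : ℝ) + 1))) := mul_le_mul_of_nonneg_left p3 hd0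
    have h2 : (d : ℝ) * (1 / (2 * ((d : ℝ) + 1))) ≤ 1 / 2 := by
      rw [mul_one_div, div_le_div_iff₀ (by positivity) (by norm_num)]
      linarith
    linarith
  have hψz' := abs_le.1 hψz
  refine ⟨hg0, ?_, ?_, ?_⟩
  · rw [hval]
    linarith [hψz'.2]
  · rw [hval]
    linarith [hψz'.1]
  · -- the gradient
    have hd1 : DifferentiableAt ℝ (fun w => Real.log ‖q (x w, y w)‖) z :=
      (Pool.Agent.H30M.contDiffAt_log_norm hqan q0).differentiableAt (by norm_num)
    have hd2 : DifferentiableAt ℝ (fun w => ψ (x w, y w)) z := by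
      have h1 : DifferentiableAt ℝ (fun w => (x w, y w)) z :=
        (hxc.differentiableAt.restrictScalars ℝ).prodMk (hyc.differentiableAt.restrictScalars ℝ)
      exact DifferentiableAt.comp (g := ψ) z p1 h1
    have e1 : gr (lu F g d) z = (starRingEnd ℂ) (deriv (fun w => q (x w, y w)) z / q (x z, y z)) - (d : ℂ) * gr (fun w => ψ (x w, y w)) z := by
      have hd3 : DifferentiableAt ℝ (fun w => Real.log c + Real.log ‖q (x w, y w)‖) z := hd1.const_add _
      rw [gr_congr hev, gr_sub hd3 (hd2.const_mul (d : ℝ)), gr_add (u := fun _ => Real.log c) (differentiableAt_const _) hd1, gr_const, zero_add,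
        gr_const_mul (d : ℝ) hd2, gr_log_norm hqan.differentiableAt q0]
      push_cast
      rfl
    have hp : x z ≠ 0 ∨ y z ≠ 0 := Or.inr hy0
    have ha := hA.ab z hz hp
    -- the derivative of `q (x, y)`
    have e2 : deriv (fun w => q (x w, y w)) z = fderiv ℂ q (x z, y z) (1, 0) * (x z * a z) + fderiv ℂ q (x z, y z) (0, 1) * (y z * b z) := by
      have h1 : HasDerivAt (fun w => (x w, y w)) (deriv x z, deriv y z) z := hxc.differentiableAt.hasDerivAt.prodMk hyc.differentiableAt.hasDerivAt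
      have h2 : HasDerivAt (fun w => q (x w, y w)) (fderiv ℂ q (x z, y z) (deriv x z, deriv y z)) z :=
        p4.differentiableAt.hasFDerivAt.comp_hasDerivAt z h1
      have h3 : ((deriv x z, deriv y z) : ℂ × ℂ) = deriv x z • ((1, 0) : ℂ × ℂ) + deriv y z • ((0, 1) : ℂ × ℂ) := by simp
      rw [h2.deriv, h3, map_add, map_smul, map_smul, smul_eq_mul, smul_eq_mul, hA.dx z hz hp, hA.dy z hz hp]
      ring
    have hqn : 0 < ‖q (x z, y z)‖ := norm_pos_iff.2 q0
    have e3 : ((n : ℝ) - 1 / 8) * ‖b z‖ ≤ ‖deriv (fun w => q (x w, y w)) z / q (x z, y z)‖ := by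
      have h1 : deriv (fun w => q (x w, y w)) z / q (x z, y z) = n * b z +
          ((y z * fderiv ℂ q (x z, y z) (0, 1) - n * q (x z, y z)) / q (x z, y z) * b z + x z * fderiv ℂ q (x z, y z) (1, 0) / q (x z, y z) * a z) := by
        rw [e2]
        field_simp
        ring
      have h2 : ‖(y z * fderiv ℂ q (x z, y z) (0, 1) - n * q (x z, y z)) / q (x z, y z) * b z‖ ≤ ε * ‖b z‖ := by
        rw [norm_mul, norm_div]
        exact mul_le_mul_of_nonneg_right ((div_le_iff₀ hqn).2 q4) (norm_nonneg _)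
      have h3 : ‖x z * fderiv ℂ q (x z, y z) (1, 0) / q (x z, y z) * a z‖ ≤ ε * (K * ‖b z‖) := by
        rw [norm_mul, norm_div, norm_mul]
        exact mul_le_mul ((div_le_iff₀ hqn).2 q3) ha (norm_nonneg _) hε0.le
      have h4 : ε * ‖b z‖ + ε * (K * ‖b z‖) = 1 / 8 * ‖b z‖ := by
        have hK1 : (1 + K) ≠ 0 := by positivity
        rw [hε]
        field_simp
      have h5 : ‖(n : ℂ) * b z‖ = n * ‖b z‖ := by
        rw [norm_mul, Complex.norm_natCast]
      have h6 := norm_sub_norm_le ((n : ℂ) * b z) (-((y z * fderiv ℂ q (x z, y z) (0, 1) - n * q (x z, y z)) / q (x z, y z) * b z +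
        x z * fderiv ℂ q (x z, y z) (1, 0) / q (x z, y z) * a z))
      rw [norm_neg, sub_neg_eq_add, ← h1, h5] at h6
      have h7 := norm_add_le ((y z * fderiv ℂ q (x z, y z) (0, 1) - n * q (x z, y z)) / q (x z, y z) * b z)
        (x z * fderiv ℂ q (x z, y z) (1, 0) / q (x z, y z) * a z)
      linarith
    have e4 : ‖(d : ℂ) * gr (fun w => ψ (x w, y w)) z‖ ≤ n / 4 * ‖b z‖ := by
      have h1 := norm_gr_comp_le p1 hxc hyc p2
      have h2 : ‖deriv x z‖ ≤ ρ * (K * ‖b z‖) := by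
        rw [hA.dx z hz hp, norm_mul]
        exact mul_le_mul (hx1.trans hηρ) ha (norm_nonneg _) hρ0.le
      have h3 : ‖deriv y z‖ ≤ ρ * ‖b z‖ := by
        rw [hA.dy z hz hp, norm_mul]
        exact mul_le_mul_of_nonneg_right hy2 (norm_nonneg _)
      have hb := norm_nonneg (b z)
      have h4 : max ‖deriv x z‖ ‖deriv y z‖ ≤ ρ * ((1 + K) * ‖b z‖) := by
        refine max_le (h2.trans ?_) (h3.trans ?_)
        · refine mul_le_mul_of_nonneg_left ?_ hρ0.le
          linarith only [hb]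
        · refine mul_le_mul_of_nonneg_left ?_ hρ0.le
          linarith only [mul_nonneg hK hb]
      have h5 : ((d : ℝ) + 1) * (C * max ‖deriv x z‖ ‖deriv y z‖) ≤ 1 / 4 * ‖b z‖ := by
        calc ((d : ℝ) + 1) * (C * max ‖deriv x z‖ ‖deriv y z‖) ≤ ((d : ℝ) + 1) * (C * (ρ * ((1 + K) * ‖b z‖))) :=
              mul_le_mul_of_nonneg_left (mul_le_mul_of_nonneg_left h4 hC0.le) (by positivity)
          _ = ((d : ℝ) + 1) * C * (1 + K) * ρ * ‖b z‖ := by ring
          _ ≤ 1 / 4 * ‖b z‖ := mul_le_mul_of_nonneg_right hρC hb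
      rw [norm_mul, Complex.norm_natCast]
      have h6 : (d : ℝ) * ‖gr (fun w => ψ (x w, y w)) z‖ ≤ ((d : ℝ) + 1) * (C * max ‖deriv x z‖ ‖deriv y z‖) :=
        mul_le_mul (by linarith only) h1 (norm_nonneg _) (by positivity)
      have h7 : (1 / 4 : ℝ) * ‖b z‖ ≤ n / 4 * ‖b z‖ := mul_le_mul_of_nonneg_right (by linarith only [hn0]) hb
      linarith only [h5, h6, h7]
    rw [e1]
    have h6 := norm_sub_norm_le ((starRingEnd ℂ) (deriv (fun w => q (x w, y w)) z / q (x z, y z))) ((d : ℂ) * gr (fun w => ψ (x w, y w)) z)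
    rw [RCLike.norm_conj] at h6
    have hb := norm_nonneg (b z)
    have h7 : (n / 2 : ℝ) * ‖b z‖ ≤ ((n : ℝ) - 1 / 8 - n / 4) * ‖b z‖ := mul_le_mul_of_nonneg_right (by linarith only [hn0]) hb
    linarith only [h6, h7, e3, e4]

end Pool.Agent.MQ.AxisA

end
end

section

/-!
# MQ2 SepC: formal separatrices under the blow-up
-/

set_option autoImplicit false

open Topology Filter Metric MeasureTheory Asymptotics Laplacian

noncomputable section

namespace Pool.Agent.MQ2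

open Pool.Agent.MQ

namespace SepAux

/-! ### orders of germs -/

theorem isBigO_pow_iff {g : ℂ → ℂ} (hg : AnalyticAt ℂ g 0) (n : ℕ) :
    (g =O[𝓝 0] fun t : ℂ => t ^ n) ↔ (n : ℕ∞) ≤ analyticOrderAt g 0 := by
  constructor
  · intro h
    by_contra hlt
    rw [not_le] at hlt
    obtain ⟨m, hm⟩ : ∃ m : ℕ, analyticOrderAt g 0 = m := ENat.ne_top_iff_exists.1 (ne_top_of_lt hlt) |>.imp fun _ h => h.symm
    rw [hm, Nat.cast_lt] at hlt
    obtain ⟨q, hq, hq0, hgq⟩ := (hg.analyticOrderAt_eq_natCast).1 hm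
    have h1 : (fun z : ℂ => (z - 0) ^ m • q z) =O[𝓝 0] fun t : ℂ => t ^ n :=
      IsBigO.congr' h hgq (Eventually.of_forall fun _ => rfl)
    obtain ⟨B, hB⟩ := h1.bound
    have h2 : ∀ᶠ z in 𝓝[≠] (0 : ℂ), ‖q z‖ ≤ B * ‖z‖ ^ (n - m) := by
      filter_upwards [nhdsWithin_le_nhds hB, self_mem_nhdsWithin] with z hz hz0
      have hz0' : 0 < ‖z‖ := norm_pos_iff.2 hz0
      rw [sub_zero, norm_smul, norm_pow, norm_pow] at hz
      have h3 : ‖z‖ ^ n = ‖z‖ ^ m * ‖z‖ ^ (n - m) := by rw [← pow_add]; congr 1; omega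
      rw [h3] at hz
      have h4 : ‖z‖ ^ m * ‖q z‖ ≤ ‖z‖ ^ m * (B * ‖z‖ ^ (n - m)) := by linarith
      exact le_of_mul_le_mul_left h4 (pow_pos hz0' m)
    have h3 : Tendsto (fun z : ℂ => B * ‖z‖ ^ (n - m)) (𝓝[≠] 0) (𝓝 0) := by
      have h4 : Tendsto (fun z : ℂ => B * ‖z‖ ^ (n - m)) (𝓝 0) (𝓝 (B * ‖(0 : ℂ)‖ ^ (n - m))) :=
        (continuous_const.mul (continuous_norm.pow _)).tendsto 0
      rw [norm_zero, zero_pow (by omega), mul_zero] at h4
      exact h4.mono_left nhdsWithin_le_nhds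
    have h4 : Tendsto (fun z : ℂ => ‖q z‖) (𝓝[≠] 0) (𝓝 ‖q 0‖) := hq.continuousAt.norm.tendsto.mono_left nhdsWithin_le_nhds
    have h5 := le_of_tendsto_of_tendsto h4 h3 h2
    exact hq0 (norm_le_zero_iff.1 h5)
  · intro h
    obtain ⟨q, hq, hgq⟩ := (natCast_le_analyticOrderAt hg).1 h
    have h1 : (fun z : ℂ => (z - 0) ^ n • q z) =O[𝓝 0] fun t : ℂ => t ^ n := by
      have h2 : q =O[𝓝 0] fun _ : ℂ => (1 : ℂ) := hq.continuousAt.isBigO_one ℂ
      have h3 := (isBigO_refl (fun t : ℂ => t ^ n) (𝓝 0)).mul h2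
      simpa [smul_eq_mul] using h3
    exact IsBigO.congr' h1 (hgq.mono fun z hz => hz.symm) (Eventually.of_forall fun _ => rfl)

theorem pow_mono {E : Type} [NormedAddCommGroup E] {f : ℂ → E} {n k : ℕ} (h : f =O[𝓝 0] fun t : ℂ => t ^ n) (hk : k ≤ n) :
    f =O[𝓝 0] fun t : ℂ => t ^ k := by
  refine h.trans ?_
  have h1 : (fun t : ℂ => t ^ n) = fun t => t ^ k * t ^ (n - k) := by
    funext t
    rw [← pow_add]
    congr 1
    omega
  rw [h1]
  have h2 : (fun t : ℂ => t ^ (n - k)) =O[𝓝 0] fun _ : ℂ => (1 : ℂ) := (continuous_pow (n - k)).continuousAt.isBigO_one ℂ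
  simpa using (isBigO_refl (fun t : ℂ => t ^ k) (𝓝 0)).mul h2

/-- an analytic function along two curves with contact -/
theorem comp_sub {E F : Type} [NormedAddCommGroup E] [NormedSpace ℂ E] [NormedAddCommGroup F] [NormedSpace ℂ F] [CompleteSpace F]
    {q : E → F} {a b : ℂ → E} (ha : ContinuousAt a 0) (hb : ContinuousAt b 0) (hab : a 0 = b 0) (hq : AnalyticAt ℂ q (b 0)) {n : ℕ}
    (h : (fun t => a t - b t) =O[𝓝 0] fun t : ℂ => t ^ n) : (fun t => q (a t) - q (b t)) =O[𝓝 0] fun t : ℂ => t ^ n := by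
  have h1 := hq.hasStrictFDerivAt.isBigO_sub
  have h2 : Tendsto (fun t : ℂ => (a t, b t)) (𝓝 0) (𝓝 (b 0, b 0)) := by
    have := ha.tendsto.prodMk_nhds hb.tendsto
    rwa [hab] at this
  exact (h1.comp_tendsto h2).trans h

theorem analyticAt_be (t : ℂ) (p : ℂ × ℂ) : AnalyticAt ℂ (be t) p :=
  analyticAt_fst.prod (analyticAt_fst.mul (analyticAt_snd.add analyticAt_const))

theorem be_zero (t : ℂ) : be t 0 = 0 := by
  simp [be]

variable {v w : ℂ × ℂ → ℂ × ℂ} {c : ℕ → ℂ → ℂ × ℂ}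

theorem coh' (hc : Sep v c) {N N' : ℕ} (h : N ≤ N') : (fun t => c N' t - c N t) =O[𝓝 0] fun t : ℂ => t ^ (N + 1) := by
  induction N', h using Nat.le_induction with
  | base => simpa using isBigO_zero (fun t : ℂ => t ^ (N + 1)) (𝓝 0)
  | succ k hk ih =>
    have h1 := pow_mono (hc.coh k) (show N + 1 ≤ k + 1 by omega)
    refine (h1.add ih).congr_left fun t => ?_
    abel

theorem ev_comp (hc : Sep v c) (N : ℕ) {p : ℂ × ℂ → Prop} (h : ∀ᶠ q in 𝓝 (0 : ℂ × ℂ), p q) : ∀ᶠ t in 𝓝 (0 : ℂ), p (c N t) := by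
  have h1 := (hc.an N).continuousAt.tendsto
  rw [hc.zero N] at h1
  exact h1.eventually h

theorem q_coh (hc : Sep v c) {q : ℂ × ℂ → ℂ} (hq : AnalyticAt ℂ q 0) {N N' : ℕ} (h : N ≤ N') :
    (fun t => q (c N' t) - q (c N t)) =O[𝓝 0] fun t : ℂ => t ^ (N + 1) := by
  refine comp_sub (hc.an N').continuousAt (hc.an N).continuousAt ?_ ?_ (coh' hc h)
  · rw [hc.zero, hc.zero]
  · rw [hc.zero]
    exact hq

theorem q_an (hc : Sep v c) {q : ℂ × ℂ → ℂ} (hq : AnalyticAt ℂ q 0) (N : ℕ) : AnalyticAt ℂ (fun t => q (c N t)) 0 :=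
  AnalyticAt.comp_of_eq (f := c N) hq (hc.an N) (hc.zero N)

/-- the order of a function which does not vanish on the formal curve is finally constant -/
theorem order_of (hc : Sep v c) {q : ℂ × ℂ → ℂ} (hq : AnalyticAt ℂ q 0) (h : ¬ FZero c q) :
    ∃ n' : ℕ, ∀ N, n' ≤ N → analyticOrderAt (fun t => q (c N t)) 0 = n' := by
  unfold FZero at h
  push Not at h
  obtain ⟨N₀, h0⟩ := h
  rw [isBigO_pow_iff (q_an hc hq N₀), not_le] at h0
  obtain ⟨n', hn'⟩ : ∃ m : ℕ, analyticOrderAt (fun t => q (c N₀ t)) 0 = m :=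
    ENat.ne_top_iff_exists.1 (ne_top_of_lt h0) |>.imp fun _ h => h.symm
  rw [hn', Nat.cast_lt] at h0
  refine ⟨n', fun N hN => ?_⟩
  have h1 : (fun t => q (c N t) - q (c N₀ t)) =O[𝓝 0] fun t : ℂ => t ^ (n' + 1) := by
    rcases le_total N₀ N with h2 | h2
    · exact pow_mono (q_coh hc hq h2) (by omega)
    · have h3 := pow_mono (q_coh hc hq h2) (show n' + 1 ≤ N + 1 by omega)
      refine (h3.neg_left).congr_left fun t => ?_
      ring
  have han : AnalyticAt ℂ (fun t => q (c N t) - q (c N₀ t)) 0 := (q_an hc hq N).sub (q_an hc hq N₀)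
  rw [isBigO_pow_iff han] at h1
  have h4 : (fun t => q (c N t)) = (fun t => q (c N₀ t)) + fun t => q (c N t) - q (c N₀ t) := by
    funext t
    simp
  rw [h4, analyticOrderAt_add_eq_left_of_lt, hn']
  rw [hn']
  refine lt_of_lt_of_le ?_ h1
  exact_mod_cast Nat.lt_succ_self n'

theorem be_coh (t : ℂ) {a b : ℂ → ℂ × ℂ} (ha : ContinuousAt a 0) (hb : ContinuousAt b 0) (hab : a 0 = b 0) {n : ℕ}
    (h : (fun z => a z - b z) =O[𝓝 0] fun z : ℂ => z ^ n) : (fun z => be t (a z) - be t (b z)) =O[𝓝 0] fun z : ℂ => z ^ n :=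
  comp_sub ha hb hab (analyticAt_be t _) h

end SepAux

open SepAux

variable {v w : ℂ × ℂ → ℂ × ℂ} {c : ℕ → ℂ → ℂ × ℂ}

theorem sep_child {e ι : ℕ} {t : ℂ} {v w : ℂ × ℂ → ℂ × ℂ} (hv : AnalyticAt ℂ v 0) (hw : Child e ι t v w) {c : ℕ → ℂ → ℂ × ℂ} (hc : Sep w c)
    (hx : ¬ FZero c fun p => p.1) : Sep v fun N z => be t (c N z) := by
  refine ⟨fun N => ?_, fun N => ?_, fun N => ?_, fun N => ?_, ?_, ?_⟩
  · exact AnalyticAt.comp (g := be t) (f := c N) (analyticAt_be t _) (hc.an N)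
  · rw [hc.zero, be_zero]
  · exact be_coh t (hc.an _).continuousAt (hc.an _).continuousAt (by rw [hc.zero, hc.zero]) (hc.coh N)
  · have h1 : (fun z => (v (be t (c N z))).1 * (deriv (fun z => be t (c N z)) z).2 - (v (be t (c N z))).2 * (deriv (fun z => be t (c N z)) z).1) =ᶠ[𝓝 0]
        fun z => (c N z).1 ^ (e + 1) * ((w (c N z)).1 * (deriv (c N) z).2 - (w (c N z)).2 * (deriv (c N) z).1) := by
      filter_upwards [ev_comp hc N hw.fst, ev_comp hc N hw.snd, (hc.an N).eventually_analyticAt] with z h1 h2 h3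
      have h4 : HasDerivAt (c N) (deriv (c N) z) z := h3.differentiableAt.hasDerivAt
      have h5 : HasDerivAt (fun z => (c N z).1) (deriv (c N) z).1 z := h4.fst
      have h6 : HasDerivAt (fun z => (c N z).2) (deriv (c N) z).2 z := h4.snd
      have h7 : HasDerivAt (fun z => be t (c N z))
          ((deriv (c N) z).1, (deriv (c N) z).1 * ((c N z).2 + t) + (c N z).1 * (deriv (c N) z).2) z :=
        h5.prodMk (h5.mul (h6.add_const t))
      rw [h7.deriv, h2, h1]
      ring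
    refine IsBigO.congr' ?_ h1.symm (Eventually.of_forall fun _ => rfl)
    have h2 : (fun z => (c N z).1 ^ (e + 1)) =O[𝓝 0] fun _ : ℂ => (1 : ℂ) := by
      have h3 : ContinuousAt (fun z => (c N z).1 ^ (e + 1)) 0 := ((hc.an N).continuousAt.fst).pow _
      exact h3.isBigO_one ℂ
    simpa using h2.mul (hc.tan N)
  · unfold FZero at hx
    push Not at hx
    obtain ⟨N, hN⟩ := hx
    refine ⟨N, fun h => hN ?_⟩
    exact (isBigO_prod_left.1 h).1
  · intro R hR hRne hRz
    have h1 : AnalyticAt ℂ (fun p => R (be t p)) 0 := AnalyticAt.comp_of_eq (f := be t) hR (analyticAt_be t 0) (be_zero t)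
    have h2 : ∃ᶠ p in 𝓝 (0 : ℂ × ℂ), R (be t p) ≠ 0 := by
      intro hcon
      apply hRne
      obtain ⟨ρ, hρ, hball⟩ := Metric.eventually_nhds_iff_ball.1 hR.eventually_analyticAt
      obtain ⟨δ, hδ, hzero⟩ := Metric.eventually_nhds_iff_ball.1 hcon
      push Not at hzero
      -- a point of the sector
      set x₀ : ℂ := ((min (δ / 2) (ρ / (2 * (1 + ‖t‖))) : ℝ) : ℂ) with hx₀
      have hpos : 0 < min (δ / 2) (ρ / (2 * (1 + ‖t‖))) := lt_min (by linarith) (by positivity)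
      have hnx : ‖x₀‖ = min (δ / 2) (ρ / (2 * (1 + ‖t‖))) := by
        rw [hx₀, Complex.norm_real, Real.norm_of_nonneg hpos.le]
      have hx0 : x₀ ≠ 0 := norm_pos_iff.1 (by rw [hnx]; exact hpos)
      have hxδ : ‖x₀‖ < δ := by
        rw [hnx]
        exact (min_le_left _ _).trans_lt (by linarith)
      have hxρ : ‖x₀‖ * (1 + ‖t‖) < ρ := by
        have h3 : ‖x₀‖ ≤ ρ / (2 * (1 + ‖t‖)) := by
          rw [hnx]
          exact min_le_right _ _
        have h4 : 0 < 1 + ‖t‖ := by positivity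
        calc ‖x₀‖ * (1 + ‖t‖) ≤ ρ / (2 * (1 + ‖t‖)) * (1 + ‖t‖) := by gcongr
          _ = ρ / 2 := by field_simp
          _ < ρ := by linarith
      have hmem : ((x₀, x₀ * t) : ℂ × ℂ) ∈ ball (0 : ℂ × ℂ) ρ := by
        rw [mem_ball_zero_iff, Prod.norm_def, max_lt_iff, norm_mul]
        constructor
        · nlinarith [norm_nonneg x₀, norm_nonneg t]
        · nlinarith [norm_nonneg x₀, norm_nonneg t]
      have hnear : R =ᶠ[𝓝 ((x₀, x₀ * t) : ℂ × ℂ)] fun _ => 0 := by
        have h3 : ContinuousAt (fun p : ℂ × ℂ => ((p.1, p.2 / p.1 - t) : ℂ × ℂ)) (x₀, x₀ * t) := by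
          refine continuousAt_fst.prodMk ?_
          exact (continuousAt_snd.div continuousAt_fst hx0).sub continuousAt_const
        have h4 : ((x₀, x₀ * t / x₀ - t) : ℂ × ℂ) ∈ ball (0 : ℂ × ℂ) δ := by
          rw [mul_div_cancel_left₀ _ hx0, sub_self, mem_ball_zero_iff, Prod.norm_def, norm_zero, max_lt_iff]
          exact ⟨hxδ, hδ⟩
        have h5 := h3.eventually (isOpen_ball.mem_nhds h4)
        have h6 : ∀ᶠ p : ℂ × ℂ in 𝓝 (x₀, x₀ * t), p.1 ≠ 0 := continuousAt_fst.eventually_ne hx0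
        filter_upwards [h5, h6] with p h7 h8
        have h9 := hzero _ h7
        have h10 : be t (p.1, p.2 / p.1 - t) = p := by
          unfold be
          refine Prod.ext rfl ?_
          simp only [sub_add_cancel]
          exact mul_div_cancel₀ _ h8
        rwa [h10] at h9
      have h3 : AnalyticOnNhd ℂ R (ball (0 : ℂ × ℂ) ρ) := fun p hp => hball p hp
      have h4 := h3.eqOn_of_preconnected_of_eventuallyEq analyticOnNhd_const (convex_ball (0 : ℂ × ℂ) ρ).isPreconnected hmem hnear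
      filter_upwards [ball_mem_nhds (0 : ℂ × ℂ) hρ] with p hp
      exact not_not.2 (h4 hp)
    obtain ⟨γ, hγ, hγc⟩ := hc.alg (fun p => R (be t p)) h1 h2 hRz
    have hγ0 : γ 0 = 0 := by
      have h3 := (hγc 0).bound
      obtain ⟨B, hB⟩ := h3
      have h4 := hB.self_of_nhds
      simp only [hc.zero, sub_zero, zero_add, pow_one, norm_zero, mul_zero] at h4
      exact norm_le_zero_iff.1 h4
    refine ⟨fun z => be t (γ z), AnalyticAt.comp (g := be t) (f := γ) (analyticAt_be t _) hγ, fun N => ?_⟩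
    exact be_coh t hγ.continuousAt (hc.an N).continuousAt (by rw [hγ0, hc.zero]) (hγc N)

theorem sep_swap {v : ℂ × ℂ → ℂ × ℂ} {c : ℕ → ℂ → ℂ × ℂ} (hc : Sep (swv v) c) : Sep v fun N z => (c N z).swap := by
  have hsw : ∀ p : ℂ × ℂ, AnalyticAt ℂ (fun p : ℂ × ℂ => p.swap) p := fun p => analyticAt_snd.prod analyticAt_fst
  have hO : ∀ {f : ℂ → ℂ × ℂ} {n : ℕ}, ((fun z => (f z).swap) =O[𝓝 0] fun z : ℂ => z ^ n) ↔ (f =O[𝓝 0] fun z : ℂ => z ^ n) := by
    intro f n
    constructor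
    · intro h
      exact h.norm_left.congr_left (fun z => by simp [Prod.norm_def, max_comm]) |>.of_norm_left
    · intro h
      exact h.norm_left.congr_left (fun z => by simp [Prod.norm_def, max_comm]) |>.of_norm_left
  refine ⟨fun N => ?_, fun N => ?_, fun N => ?_, fun N => ?_, ?_, ?_⟩
  · exact AnalyticAt.comp (g := fun p : ℂ × ℂ => p.swap) (f := c N) (hsw _) (hc.an N)
  · rw [hc.zero]
    rfl
  · exact (hO (f := fun z => c (N + 1) z - c N z)).2 (hc.coh N)
  · have h1 : (fun z => (v ((c N z).swap)).1 * (deriv (fun z => (c N z).swap) z).2 - (v ((c N z).swap)).2 * (deriv (fun z => (c N z).swap) z).1) =ᶠ[𝓝 0]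
        fun z => -((swv v (c N z)).1 * (deriv (c N) z).2 - (swv v (c N z)).2 * (deriv (c N) z).1) := by
      filter_upwards [(hc.an N).eventually_analyticAt] with z h3
      have h4 : HasDerivAt (c N) (deriv (c N) z) z := h3.differentiableAt.hasDerivAt
      have h7 : HasDerivAt (fun z => (c N z).swap) ((deriv (c N) z).2, (deriv (c N) z).1) z := h4.snd.prodMk h4.fst
      rw [h7.deriv]
      simp only [swv, Prod.fst_swap, Prod.snd_swap]
      ring
    exact IsBigO.congr' (hc.tan N).neg_left h1.symm (Eventually.of_forall fun _ => rfl)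
  · obtain ⟨N, hN⟩ := hc.nc
    exact ⟨N, fun h => hN ((hO (f := c N)).1 h)⟩
  · intro R hR hRne hRz
    have h1 : AnalyticAt ℂ (fun p : ℂ × ℂ => R p.swap) 0 := AnalyticAt.comp_of_eq (f := fun p : ℂ × ℂ => p.swap) hR (hsw 0) rfl
    have h2 : ∃ᶠ p in 𝓝 (0 : ℂ × ℂ), R p.swap ≠ 0 := by
      intro hcon
      apply hRne
      have h3 : Tendsto (fun p : ℂ × ℂ => p.swap) (𝓝 0) (𝓝 0) := continuous_swap.tendsto' _ _ rfl
      filter_upwards [h3.eventually hcon] with p hp
      simpa using hp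
    obtain ⟨γ, hγ, hγc⟩ := hc.alg (fun p => R p.swap) h1 h2 hRz
    refine ⟨fun z => (γ z).swap, AnalyticAt.comp (g := fun p : ℂ × ℂ => p.swap) (f := γ) (hsw _) hγ, fun N => ?_⟩
    exact (hO (f := fun z => γ z - c N z)).2 (hγc N)

/-- a separatrix in the exceptional line: the line is invariant, and the weight vanishes on it -/
theorem sep_exc {e ι : ℕ} {t : ℂ} {v w : ℂ × ℂ → ℂ × ℂ} (hw : Child e ι t v w) {c : ℕ → ℂ → ℂ × ℂ} (hc : Sep w c) (hx : FZero c fun p => p.1)
    {g' : ℂ × ℂ → ℂ} (hg' : AnalyticAt ℂ g' 0) : FZero c fun p => p.1 ^ ι * g' p := by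
  rcases hw.inv with ⟨rfl, -⟩ | ⟨-, hne⟩
  · intro N
    have h1 : (fun z => g' (c N z)) =O[𝓝 0] fun _ : ℂ => (1 : ℂ) := (q_an hc hg' N).continuousAt.isBigO_one ℂ
    have h2 := (hx N).mul h1
    simpa using h2
  · exfalso
    -- the order of `y`
    obtain ⟨N₀, hN₀⟩ := hc.nc
    have hy : ¬ FZero c fun p => p.2 := fun h => hN₀ (isBigO_prod_left.2 ⟨hx N₀, h N₀⟩)
    obtain ⟨j, hj⟩ := order_of hc (q := fun p => p.2) analyticAt_snd hy
    -- the order of `w₁ (0, y)`
    set f : ℂ → ℂ := fun y => (w (0, y)).1 with hf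
    have hfa : AnalyticAt ℂ f 0 := by
      have h1 : AnalyticAt ℂ (fun y : ℂ => w (0, y)) 0 :=
        AnalyticAt.comp_of_eq (f := fun y : ℂ => ((0 : ℂ), y)) hw.an (analyticAt_const.prod analyticAt_id) rfl
      exact AnalyticAt.comp (g := Prod.fst) (f := fun y : ℂ => w (0, y)) analyticAt_fst h1
    have hfo : analyticOrderAt f 0 ≠ ⊤ := by
      intro h
      rw [analyticOrderAt_eq_top] at h
      have h1 : ∀ᶠ y in 𝓝[≠] (0 : ℂ), f y = 0 := nhdsWithin_le_nhds h
      obtain ⟨y, h2, h3⟩ := (h1.and hne).exists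
      exact h3 h2
    obtain ⟨k, hk⟩ := ENat.ne_top_iff_exists.1 hfo
    -- far out
    set N := max j (k * j + j) + 1 with hN
    have hjN : j ≤ N := by omega
    have hjo := hj N hjN
    have hyan : AnalyticAt ℂ (fun z => (c N z).2) 0 := q_an hc (q := fun p => p.2) analyticAt_snd N
    have hxan : AnalyticAt ℂ (fun z => (c N z).1) 0 := q_an hc (q := fun p => p.1) analyticAt_fst N
    have hj1 : 1 ≤ j := by
      by_contra hcon
      have h0 : j = 0 := by omega
      rw [h0, Nat.cast_zero, analyticOrderAt_eq_zero] at hjo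
      rcases hjo with h | h
      · exact h hyan
      · apply h
        change (c N 0).2 = 0
        rw [hc.zero]
        rfl
    have hdy : analyticOrderAt (fun z => (deriv (c N) z).2) 0 = (j - 1 : ℕ) := by
      have h1 : (fun z => (deriv (c N) z).2) =ᶠ[𝓝 0] deriv (fun z => (c N z).2) := by
        filter_upwards [(hc.an N).eventually_analyticAt] with z h3
        have h4 : HasDerivAt (c N) (deriv (c N) z) z := h3.differentiableAt.hasDerivAt
        exact (HasDerivAt.deriv h4.snd).symm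
      rw [analyticOrderAt_congr h1]
      have h2 := hyan.analyticOrderAt_deriv_add_one
      have h3 : (fun z => (c N z).2 - (c N 0).2) = fun z => (c N z).2 := by
        funext z
        rw [hc.zero]
        simp
      rw [h3, hjo] at h2
      have h4 : analyticOrderAt (deriv fun z => (c N z).2) 0 ≠ ⊤ := by
        intro h
        rw [h] at h2
        simp at h2
      obtain ⟨l, hl⟩ := ENat.ne_top_iff_exists.1 h4
      rw [← hl] at h2 ⊢
      have h5 : l + 1 = j := by exact_mod_cast h2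
      have h6 : l = j - 1 := by omega
      rw [h6]
    have hfy : analyticOrderAt (fun z => f ((c N z).2)) 0 = (k * j : ℕ) := by
      have h1 := AnalyticAt.analyticOrderAt_comp (f := f) (g := fun z => (c N z).2) (z₀ := 0)
        (by
          have : (c N 0).2 = 0 := by rw [hc.zero]; rfl
          rw [this]
          exact hfa) hyan
      have h2 : (f ∘ fun z => (c N z).2) = fun z => f ((c N z).2) := rfl
      have h3 : (c N 0).2 = 0 := by rw [hc.zero]; rfl
      rw [h2] at h1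
      rw [h1, h3, ← hk]
      have h4 : (fun z => (c N z).2 - 0) = fun z => (c N z).2 := by
        funext z
        rw [sub_zero]
      rw [h4, hjo]
      push_cast
      rfl
    -- the tangency
    have htan : (fun z => f ((c N z).2) * (deriv (c N) z).2) =O[𝓝 0] fun z : ℂ => z ^ N := by
      have hd : AnalyticAt ℂ (fun z => deriv (c N) z) 0 := (hc.an N).deriv
      have hb1 : (fun z => (deriv (c N) z).2) =O[𝓝 0] fun _ : ℂ => (1 : ℂ) := hd.continuousAt.snd.isBigO_one ℂ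
      have hw0 : AnalyticAt ℂ w (c N 0) := by rw [hc.zero]; exact hw.an
      have hwc : ContinuousAt (fun z => w (c N z)) 0 := hw0.continuousAt.comp (hc.an N).continuousAt
      have hb2 : (fun z => (w (c N z)).2) =O[𝓝 0] fun _ : ℂ => (1 : ℂ) := hwc.snd.isBigO_one ℂ
      have h1 : (fun z => (w (c N z)).1 - f ((c N z).2)) =O[𝓝 0] fun z : ℂ => z ^ (N + 1) := by
        have h2 : (fun z => (w (c N z)) - w (0, (c N z).2)) =O[𝓝 0] fun z : ℂ => z ^ (N + 1) := by
          refine comp_sub (hc.an N).continuousAt (continuousAt_const.prodMk (hc.an N).continuousAt.snd) ?_ ?_ ?_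
          · rw [hc.zero]
            rfl
          · have : ((0 : ℂ), (c N 0).2) = (0 : ℂ × ℂ) := by rw [hc.zero]; rfl
            rw [this]
            exact hw.an
          · refine (isBigO_prod_left (f' := fun z => (c N z).1 - 0) (g' := fun z => (c N z).2 - (c N z).2)).2 ⟨?_, ?_⟩
            · simpa using hx N
            · simpa using isBigO_zero (fun t : ℂ => t ^ (N + 1)) (𝓝 0)
        exact (isBigO_prod_left.1 h2).1
      have h3 : (fun z => (deriv (c N) z).1) =O[𝓝 0] fun z : ℂ => z ^ N := by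
        have h4 : (fun z => (deriv (c N) z).1) =ᶠ[𝓝 0] deriv (fun z => (c N z).1) := by
          filter_upwards [(hc.an N).eventually_analyticAt] with z h3
          have h4 : HasDerivAt (c N) (deriv (c N) z) z := h3.differentiableAt.hasDerivAt
          exact (HasDerivAt.deriv h4.fst).symm
        refine IsBigO.congr' ?_ h4.symm (Eventually.of_forall fun _ => rfl)
        rw [isBigO_pow_iff hxan.deriv]
        have h5 := hxan.analyticOrderAt_deriv_add_one
        have h6 : (fun z => (c N z).1 - (c N 0).1) = fun z => (c N z).1 := by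
          funext z
          rw [hc.zero]
          simp
        rw [h6] at h5
        have h7 : ((N + 1 : ℕ) : ℕ∞) ≤ analyticOrderAt (fun z => (c N z).1) 0 := (isBigO_pow_iff hxan _).1 (hx N)
        rw [← h5] at h7
        rcases eq_or_ne (analyticOrderAt (deriv fun z => (c N z).1) 0) ⊤ with h8 | h8
        · rw [h8]
          exact le_top
        · obtain ⟨l, hl⟩ := ENat.ne_top_iff_exists.1 h8
          rw [← hl] at h7 ⊢
          have h9 : N + 1 ≤ l + 1 := by exact_mod_cast h7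
          exact_mod_cast (by omega : N ≤ l)
      have h4 := hc.tan N
      have h5 : (fun z => (w (c N z)).2 * (deriv (c N) z).1) =O[𝓝 0] fun z : ℂ => z ^ N := by simpa using hb2.mul h3
      have h6 : (fun z => ((w (c N z)).1 - f ((c N z).2)) * (deriv (c N) z).2) =O[𝓝 0] fun z : ℂ => z ^ N := by
        simpa using (pow_mono h1 (Nat.le_succ N)).mul hb1
      refine ((h4.add h5).sub h6).congr_left fun z => ?_
      ring
    have hprod : analyticOrderAt (fun z => f ((c N z).2) * (deriv (c N) z).2) 0 = ((k * j + (j - 1) : ℕ) : ℕ∞) := by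
      have h1 : AnalyticAt ℂ (fun z => f ((c N z).2)) 0 := by
        refine AnalyticAt.comp_of_eq (f := fun z => (c N z).2) hfa hyan ?_
        rw [hc.zero]
        rfl
      have h2 : AnalyticAt ℂ (fun z => (deriv (c N) z).2) 0 :=
        AnalyticAt.comp (g := Prod.snd) (f := fun z => deriv (c N) z) analyticAt_snd (hc.an N).deriv
      have h3 := analyticOrderAt_mul h1 h2
      have h4 : ((fun z => f ((c N z).2)) * fun z => (deriv (c N) z).2) = fun z => f ((c N z).2) * (deriv (c N) z).2 := rfl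
      rw [h4] at h3
      rw [h3, hfy, hdy]
      push_cast
      rfl
    have hpan : AnalyticAt ℂ (fun z => f ((c N z).2) * (deriv (c N) z).2) 0 := by
      have h1 : AnalyticAt ℂ (fun z => f ((c N z).2)) 0 := by
        refine AnalyticAt.comp_of_eq (f := fun z => (c N z).2) hfa hyan ?_
        rw [hc.zero]
        rfl
      have h2 : AnalyticAt ℂ (fun z => (deriv (c N) z).2) 0 :=
        AnalyticAt.comp (g := Prod.snd) (f := fun z => deriv (c N) z) analyticAt_snd (hc.an N).deriv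
      exact h1.mul h2
    rw [isBigO_pow_iff hpan, hprod] at htan
    have : N ≤ k * j + (j - 1) := by exact_mod_cast htan
    omega

theorem fzero_child {ι m : ℕ} {t : ℂ} {w : ℂ × ℂ → ℂ × ℂ} {c : ℕ → ℂ → ℂ × ℂ} (hc : Sep w c) (hx : ¬ FZero c fun p => p.1) {g g' : ℂ × ℂ → ℂ}
    (hg' : AnalyticAt ℂ g' 0) (hm : ∀ᶠ p in 𝓝 (0 : ℂ × ℂ), g (be t p) = p.1 ^ m * g' p) (h : FZero (fun N z => be t (c N z)) g) :
    FZero c fun p => p.1 ^ ι * g' p := by
  obtain ⟨j, hj⟩ := order_of hc (q := fun p => p.1) analyticAt_fst hx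
  intro N
  -- the order of `g'` far out
  set N' := N + m * j + j with hN'
  have hxan : AnalyticAt ℂ (fun z => (c N' z).1) 0 := q_an hc (q := fun p => p.1) analyticAt_fst N'
  have h1 : (fun z => (c N' z).1 ^ m * g' (c N' z)) =O[𝓝 0] fun z : ℂ => z ^ (N' + 1) :=
    IsBigO.congr' (h N') (ev_comp hc N' hm) (Eventually.of_forall fun _ => rfl)
  have h2 : (fun z => g' (c N' z)) =O[𝓝 0] fun z : ℂ => z ^ (N + 1) := by
    rw [isBigO_pow_iff (q_an hc hg' N')]
    have hpm : AnalyticAt ℂ (fun z => (c N' z).1 ^ m * g' (c N' z)) 0 := (hxan.pow m).mul (q_an hc hg' N')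
    rw [isBigO_pow_iff hpm] at h1
    have h3 : analyticOrderAt (fun z => (c N' z).1 ^ m * g' (c N' z)) 0 = ((m * j : ℕ) : ℕ∞) + analyticOrderAt (fun z => g' (c N' z)) 0 := by
      have h4 := analyticOrderAt_mul (hxan.pow m) (q_an hc hg' N')
      have h5 := analyticOrderAt_pow hxan (n := m)
      have h6 : ((fun z => (c N' z).1) ^ m * fun z => g' (c N' z)) = fun z => (c N' z).1 ^ m * g' (c N' z) := rfl
      rw [h6] at h4
      rw [h4, h5, hj N' (by omega)]
      simp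
    rw [h3] at h1
    rcases eq_or_ne (analyticOrderAt (fun z => g' (c N' z)) 0) ⊤ with h8 | h8
    · rw [h8]
      exact le_top
    · obtain ⟨l, hl⟩ := ENat.ne_top_iff_exists.1 h8
      rw [← hl] at h1 ⊢
      have h9 : N' + 1 ≤ m * j + l := by exact_mod_cast h1
      exact_mod_cast (by omega : N + 1 ≤ l)
  have h3 : (fun z => g' (c N z)) =O[𝓝 0] fun z : ℂ => z ^ (N + 1) := by
    have h4 := q_coh hc hg' (show N ≤ N' by omega)
    refine (h2.sub h4).congr_left fun z => ?_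
    ring
  have h4 : (fun z => (c N z).1 ^ ι) =O[𝓝 0] fun _ : ℂ => (1 : ℂ) := by
    have h5 : ContinuousAt (fun z => (c N z).1 ^ ι) 0 := ((hc.an N).continuousAt.fst).pow _
    exact h5.isBigO_one ℂ
  simpa using h4.mul h3

/-- for the final step: the order is finite if `q` does not vanish on the formal curve -/
theorem hasOrd_of {v : ℂ × ℂ → ℂ × ℂ} {c : ℕ → ℂ → ℂ × ℂ} (hc : Sep v c) {q : ℂ × ℂ → ℂ} (hq : AnalyticAt ℂ q 0) (h : ¬ FZero c q) {n : ℕ}
    (hn : (fun t => q (c n t)) =O[𝓝 0] fun t : ℂ => t ^ n) : HasOrd c q n := by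
  obtain ⟨n', hn'⟩ := order_of hc hq h
  refine ⟨n', ?_, hn'⟩
  by_contra hcon
  push Not at hcon
  rw [isBigO_pow_iff (q_an hc hq n), hn' n hcon.le] at hn
  have : n ≤ n' := by exact_mod_cast hn
  omega

end Pool.Agent.MQ2

end
end
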