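import Pool.Agent.H94.G6.M111
import Pool.Agent.H94.G6.M41
import Pool.Agent.H94.G6.M45
import Pool.Agent.H94.G6.M59
import Pool.Agent.H94.G6.M66
import Pool.Agent.H94.G6.M73
import Pool.Agent.H94.G6.M78
import Pool.Agent.H94.G6.M81
import Pool.Agent.H94.G6.M86

/-! The parts of this file: H13.OT.Wrap_1, H14.KB.KobBrody, H17BP.SameK, AD.T.NCProof, MQ.AsmB0, MQ2.LeafN, MQ3.GInvNC, H36.TB.EnM, H90.SG.DefT, SG.BuM, MQ3.FibN, MQ3.GInvNG, MQ3.LocU. -/

section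

/-!
# Entire curves of order two in projective spaces
-/

set_option autoImplicit false

namespace Pool.Agent.H13.OT

open Filter Topology Metric
open Pool.Agent.H17BP (Pr HolP)
open Pool.Agent.H17 (PN HolomorphicInto EntFun exists_global_lift ZariskiClosedIn)
open Pool.Agent.H36.BP (OrdTwo)
open Pool.Agent.H36.BPL (Brody2)

variable {N : ℕ}

theorem mk_eq_of_pr {x y : Fin (N + 1) → ℂ} (h : Pr x y) (hx : x ≠ 0) (hy : y ≠ 0) :
    Projectivization.mk ℂ x hx = Projectivization.mk ℂ y hy := by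
  obtain ⟨c, hc, h⟩ := h
  rw [Projectivization.mk_eq_mk_iff']
  exact ⟨c, h.symm⟩

theorem pr_of_mk_eq {x y : Fin (N + 1) → ℂ} (hx : x ≠ 0) (hy : y ≠ 0)
    (h : Projectivization.mk ℂ x hx = Projectivization.mk ℂ y hy) : Pr x y := by
  rw [Projectivization.mk_eq_mk_iff'] at h
  obtain ⟨a, ha⟩ := h
  refine ⟨a, ?_, ha.symm⟩
  rintro rfl
  rw [zero_smul] at ha
  exact hx ha.symm

/-- the map into the projective space of a map into the cone is holomorphic -/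
theorem holomorphicInto_mk {f : ℂ → Fin (N + 1) → ℂ} (hf0 : ∀ z, f z ≠ 0) (hf : ∀ z, HolP f z) :
    HolomorphicInto (fun z => Projectivization.mk ℂ (f z) (hf0 z)) Set.univ := by
  intro z₀ _
  obtain ⟨G, hG, hG0, he⟩ := hf z₀
  refine ⟨G, hG, ?_⟩
  filter_upwards [he, hG.continuousAt.eventually_ne hG0] with z h1 h2
  exact ⟨h2, mk_eq_of_pr h1 (hf0 z) h2⟩

/-- the definition with bounded lifts on discs implies the definition with the characteristic function -/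
theorem OrdTwo.orderTwo {f : ℂ → Fin (N + 1) → ℂ} (hf0 : ∀ z, f z ≠ 0) (hf : ∀ z, HolP f z) (h : OrdTwo f) :
    OrderTwo (fun z => Projectivization.mk ℂ (f z) (hf0 z)) := by
  obtain ⟨x, hx⟩ := exists_global_lift (holomorphicInto_mk hf0 hf)
  set F₀ : ℂ → Fin (N + 1) → ℂ := fun z j => (x j : ℂ → ℂ) z with hF₀
  have hdiff : Differentiable ℂ F₀ := by
    rw [differentiable_pi]
    intro j
    exact (x j).2
  have hlift : ∀ z, F₀ z ≠ 0 ∧ Pr (f z) (F₀ z) := by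
    intro z
    obtain ⟨h1, h2⟩ := hx z
    exact ⟨h1, pr_of_mk_eq (hf0 z) h1 h2⟩
  obtain ⟨C0, hC0⟩ := h
  refine ⟨F₀, |Real.log ‖F₀ 0‖| + 3 * |C0|, hdiff, hx, fun r hr => ?_⟩
  obtain ⟨F, hF, hF1, hF0, hFf⟩ := hC0 (r + 1) (by linarith)
  have hF0' : F 0 ≠ 0 := by
    intro h0
    rw [h0, norm_zero] at hF0
    exact absurd hF0 (not_le.2 (Real.exp_pos _))
  have h1 := average_le hr (lt_add_one r) hF hF1 hF0' hFf hdiff.differentiableOn fun z _ => hlift z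
  have h2 : -(C0 * (1 + (r + 1) ^ 2)) ≤ Real.log ‖F 0‖ := by
    rw [Real.le_log_iff_exp_le (norm_pos_iff.2 hF0')]
    exact hF0
  have h3 : C0 * (1 + (r + 1) ^ 2) ≤ 3 * |C0| * (1 + r ^ 2) := by
    have h4 : C0 ≤ |C0| := le_abs_self _
    have h5 : 0 ≤ |C0| := abs_nonneg _
    have h6 : 1 + (r + 1) ^ 2 ≤ 3 * (1 + r ^ 2) := by nlinarith [sq_nonneg (r - 1)]
    calc C0 * (1 + (r + 1) ^ 2) ≤ |C0| * (1 + (r + 1) ^ 2) := mul_le_mul_of_nonneg_right h4 (by positivity)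
      _ ≤ |C0| * (3 * (1 + r ^ 2)) := mul_le_mul_of_nonneg_left h6 h5
      _ = _ := by ring
  have h7 : Real.log ‖F₀ 0‖ ≤ |Real.log ‖F₀ 0‖| * (1 + r ^ 2) := by
    have h8 : Real.log ‖F₀ 0‖ ≤ |Real.log ‖F₀ 0‖| := le_abs_self _
    have h9 : 0 ≤ |Real.log ‖F₀ 0‖| := abs_nonneg _
    nlinarith [sq_nonneg r]
  have h10 : (|Real.log ‖F₀ 0‖| + 3 * |C0|) * (1 + r ^ 2) = |Real.log ‖F₀ 0‖| * (1 + r ^ 2) + 3 * |C0| * (1 + r ^ 2) := by
    ring
  rw [h10]
  linarith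

/-- The hypothesis on maps into the projective space gives the hypothesis on maps into the cone: `U` is a set of points in the
projective space and `K` a set of representatives of points of `U`; the curves of order two in `U` are in `Ξ` and the
representatives in `K` of points of `Ξ` are in `B`. -/
theorem brody2_of_curves {U Ξ : Set (PN N)} {K B : Set (Fin (N + 1) → ℂ)} (h0 : ∀ x ∈ K, x ≠ 0)
    (hU : ∀ (x : Fin (N + 1) → ℂ) (hx : x ≠ 0), x ∈ K → Projectivization.mk ℂ x hx ∈ U)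
    (hB : ∀ (x : Fin (N + 1) → ℂ) (hx : x ≠ 0), x ∈ K → Projectivization.mk ℂ x hx ∈ Ξ → x ∈ B)
    (h : ∀ f : ℂ → PN N, HolomorphicInto f Set.univ → OrderTwo f → (∀ z, f z ∈ U) → (∃ z w, f z ≠ f w) → ∀ z, f z ∈ Ξ) :
    Brody2 K B := by
  rintro f hf hfK h2 ⟨z₁, hz₁⟩ z w
  by_contra hzw
  have hf0 : ∀ z, f z ≠ 0 := fun z => h0 _ (hfK z)
  apply hz₁
  refine hB (f z₁) (hf0 z₁) (hfK z₁) (h (fun z => Projectivization.mk ℂ (f z) (hf0 z)) (holomorphicInto_mk hf0 hf)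
    (OrdTwo.orderTwo hf0 hf h2) (fun z => hU _ (hf0 z) (hfK z)) ⟨z, w, fun he => hzw (pr_of_mk_eq _ _ he)⟩ z₁)

end Pool.Agent.H13.OT

end

section

/-!
# Kobayashi hyperbolicity modulo a curve implies Brody hyperbolicity modulo this curve
-/

open Topology Filter MvPolynomial Metric

noncomputable section

namespace Pool.Agent.H14.KB

open Pool.Agent Pool.Agent.H17BP
open Pool.Agent.H17 (PN VanishesAt ZariskiClosedIn HolomorphicInto puncturedDisc)

variable {N : ℕ}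

/-- a curve whose derivative is proportional to it is constant as a map into projective space -/
theorem const_of_deriv {F : ℂ → Fin (N + 1) → ℂ} {z₁ : ℂ} (hF : AnalyticAt ℂ F z₁) (h0 : F z₁ ≠ 0)
    (h : ∀ᶠ z in 𝓝 z₁, ∃ a : ℂ, deriv F z = a • F z) :
    ∀ᶠ z in 𝓝 z₁, ∃ c : ℂ, c ≠ 0 ∧ F z = c • F z₁ := by
  obtain ⟨j, hj⟩ : ∃ j, F z₁ j ≠ 0 := by
    by_contra hcon
    push Not at hcon
    exact h0 (funext hcon)
  have hFj : ∀ i, AnalyticAt ℂ (fun z => F z i) z₁ := fun i => (analyticAt_pi_iff.1 hF) i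
  have hjne : ∀ᶠ z in 𝓝 z₁, F z j ≠ 0 := (hFj j).continuousAt.eventually_ne hj
  obtain ⟨r, hr, hball⟩ := Metric.eventually_nhds_iff_ball.1 (h.and (hjne.and hF.eventually_analyticAt))
  have hconst : ∀ i, ∀ z ∈ ball z₁ r, F z i / F z j = F z₁ i / F z₁ j := by
    intro i z hz
    have hd : ∀ w ∈ ball z₁ r, HasDerivAt (fun w => F w i / F w j) 0 w := by
      intro w hw
      obtain ⟨⟨a, ha⟩, h1, h2⟩ := hball w hw
      have h3 := hasDerivAt_pi.1 h2.differentiableAt.hasDerivAt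
      have h4 := (h3 i).div (h3 j) h1
      have h5 : (deriv F w i * F w j - F w i * deriv F w j) / F w j ^ 2 = 0 := by
        rw [ha]
        simp only [Pi.smul_apply, smul_eq_mul]
        rw [div_eq_zero_iff]
        left
        ring
      rw [h5] at h4
      exact h4
    have hdiff : DifferentiableOn ℂ (fun w => F w i / F w j) (ball z₁ r) := fun w hw =>
      (hd w hw).differentiableAt.differentiableWithinAt
    exact (convex_ball z₁ r).is_const_of_fderivWithin_eq_zero hdiff (fun w hw => by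
      rw [fderivWithin_of_isOpen isOpen_ball hw]
      ext
      rw [(hd w hw).hasFDerivAt.fderiv]
      simp) hz (mem_ball_self hr)
  filter_upwards [ball_mem_nhds z₁ hr] with z hz
  obtain ⟨-, h1, -⟩ := hball z hz
  refine ⟨F z j / F z₁ j, div_ne_zero h1 hj, ?_⟩
  funext i
  have h2 := hconst i z hz
  simp only [Pi.smul_apply, smul_eq_mul]
  rw [div_eq_div_iff h1 hj] at h2
  field_simp
  linear_combination h2

/-- **Kobayashi hyperbolicity modulo a curve implies Brody hyperbolicity modulo this curve.** -/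
theorem brody_of_kobayashi {U : Set (PN N)} {Q : MvPolynomial (Fin (N + 1)) ℂ} {D : ℕ}
    (hQ : Q.IsHomogeneous D) (h : KobayashiHyperbolicModulo U Q D) {f : ℂ → PN N}
    (hf : HolomorphicInto f Set.univ) (hfU : ∀ z, f z ∈ U) (hne : ∃ z w, f z ≠ f w) (z : ℂ) :
    VanishesAt Q (f z) := by
  by_contra hz
  obtain ⟨M, C, hk⟩ := h
  obtain ⟨F, hF, hFf⟩ := hf z (Set.mem_univ z)
  have hF0 : F z ≠ 0 := hFf.self_of_nhds.choose
  have hQz : eval (F z) Q ≠ 0 := by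
    obtain ⟨h1, h2⟩ := hFf.self_of_nhds
    intro h3
    apply hz
    rw [h2]
    exact (vanishesAt_mk hQ h1).2 h3
  have hQan : AnalyticAt ℂ (fun w => eval (F w) Q) z := by
    have := AnalyticAt.aeval_mvPolynomial (𝕜 := ℂ) (fun i => (analyticAt_pi_iff.1 hF) i) Q
    simpa [MvPolynomial.aeval_eq_eval] using this
  -- the derivative is proportional to the curve
  have key : ∀ᶠ w in 𝓝 z, ∃ a : ℂ, deriv F w = a • F w := by
    filter_upwards [hFf.eventually_nhds, hQan.continuousAt.eventually_ne hQz, hF.eventually_analyticAt,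
      hF.continuousAt.eventually_ne hF0] with w h1 h2 h3 h4
    set t : ℝ := ‖eval (F w) Q‖ / ‖F w‖ ^ D with ht
    have hFw : 0 < ‖F w‖ := norm_pos_iff.2 h4
    have ht0 : 0 < t := div_pos (norm_pos_iff.2 h2) (pow_pos hFw _)
    have hbd : ∀ R : ℝ, 0 < R → ∃ a : ℂ, ‖deriv F w - a • F w‖ ≤ (C * ‖F w‖ / t ^ M) / R := by
      intro R hR
      have hRc : (R : ℂ) ≠ 0 := by exact_mod_cast hR.ne'
      have haff : ∀ u : ℂ, AnalyticAt ℂ (fun u : ℂ => w + R * u) u := fun u =>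
        analyticAt_const.add (analyticAt_const.mul analyticAt_id)
      have htd : Tendsto (fun u : ℂ => w + R * u) (𝓝 0) (𝓝 w) := by
        have := (haff 0).continuousAt.tendsto
        simpa using this
      obtain ⟨a, ha⟩ := hk (fun u => f (w + R * u)) (fun u => F (w + R * u)) (by
        intro u _
        obtain ⟨φ, hφ, he⟩ := hf (w + R * u) (Set.mem_univ _)
        exact ⟨fun u => φ (w + R * u), AnalyticAt.comp (g := φ) (f := fun u : ℂ => w + R * u) hφ (haff u),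
          (haff u).continuousAt.tendsto.eventually he⟩) (fun u _ => hfU _)
        (AnalyticAt.comp (g := F) (f := fun u : ℂ => w + R * u) (by simpa using h3) (haff 0))
        (htd.eventually h1)
      have hd : HasDerivAt (fun u : ℂ => F (w + R * u)) ((R : ℂ) • deriv F w) 0 := by
        have h5 : HasDerivAt (fun u : ℂ => w + R * u) (R : ℂ) 0 := by
          simpa using ((hasDerivAt_id (0 : ℂ)).const_mul (R : ℂ)).const_add w
        have h6 : HasDerivAt F (deriv F w) ((fun u : ℂ => w + R * u) 0) := by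
          simpa using h3.differentiableAt.hasDerivAt
        exact h6.scomp 0 h5
      rw [hd.deriv] at ha
      simp only [mul_zero, add_zero] at ha
      refine ⟨a / R, ?_⟩
      have h5 : (R : ℂ) • deriv F w - a • F w = (R : ℂ) • (deriv F w - (a / R) • F w) := by
        rw [smul_sub, smul_smul, mul_div_cancel₀ _ hRc]
      rw [h5, norm_smul, Complex.norm_real, Real.norm_of_nonneg hR.le, ← ht] at ha
      rw [le_div_iff₀ hR, le_div_iff₀ (pow_pos ht0 M)]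
      calc ‖deriv F w - (a / R) • F w‖ * R * t ^ M = t ^ M * (R * ‖deriv F w - (a / R) • F w‖) := by ring
        _ ≤ C * ‖F w‖ := ha
    have hcl : IsClosed ((ℂ ∙ F w : Submodule ℂ (Fin (N + 1) → ℂ)) : Set (Fin (N + 1) → ℂ)) :=
      Submodule.closed_of_finiteDimensional _
    have hmem : deriv F w ∈ (ℂ ∙ F w : Submodule ℂ (Fin (N + 1) → ℂ)) := by
      have h5 : ∀ n : ℕ, ∃ a : ℂ, ‖deriv F w - a • F w‖ ≤ (C * ‖F w‖ / t ^ M) / ((n : ℝ) + 1) := fun n =>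
        hbd _ (by positivity)
      choose a ha using h5
      have h6 : Tendsto (fun n => a n • F w) atTop (𝓝 (deriv F w)) := by
        rw [tendsto_iff_norm_sub_tendsto_zero]
        refine squeeze_zero (fun n => norm_nonneg _) (fun n => ?_)
          (tendsto_const_div_atTop_nhds_zero_nat (C * ‖F w‖ / t ^ M) |>.comp (tendsto_add_atTop_nat 1))
        have := ha n
        rw [norm_sub_rev]
        simpa using this
      exact hcl.mem_of_tendsto h6 (Filter.Eventually.of_forall fun n =>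
        Submodule.smul_mem _ _ (Submodule.mem_span_singleton_self _))
    obtain ⟨a, ha⟩ := Submodule.mem_span_singleton.1 hmem
    exact ⟨a, ha.symm⟩
  have hloc : ∀ᶠ w in 𝓝 z, f w = f z := by
    filter_upwards [const_of_deriv hF hF0 key, hFf] with w h1 h2
    obtain ⟨c, hc, h3⟩ := h1
    obtain ⟨h4, h5⟩ := h2
    obtain ⟨h6, h7⟩ := hFf.self_of_nhds
    rw [h5, h7, Projectivization.mk_eq_mk_iff']
    exact ⟨c, h3.symm⟩
  have hall := Pool.Agent.H36.BP.const_identity isPreconnected_univ hf (Set.mem_univ z) hloc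
  obtain ⟨u, w, huw⟩ := hne
  exact huw ((hall u (Set.mem_univ u)).trans (hall w (Set.mem_univ w)).symm)

end Pool.Agent.H14.KB

end
end

section

/-!
# The same exceptional set, for complements of hypersurface sections
-/

open Topology Filter MvPolynomial

noncomputable section

namespace Pool.Agent.H17BP

open Pool.Agent.H17 (PN VanishesAt ZariskiClosedIn HolomorphicInto puncturedDisc)
open Pool.Agent.H62.FC (Homog)
open Pool.Agent.H17R (openVar)

variable {N : ℕ} {P I : Ideal (MvPolynomial (Fin (N + 1)) ℂ)} {b : ℕ} {H : Fin b → MvPolynomial (Fin (N + 1)) ℂ}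
  {e : Fin b → ℕ}

theorem cone_smul' (hP : Homog P) : ∀ x ∈ cone P, ∀ c : ℂ, c ≠ 0 → c • x ∈ cone P := by
  intro x hx c hc
  refine ⟨smul_ne_zero hc hx.1, fun Q hQ => ?_⟩
  rw [← MvPolynomial.sum_homogeneousComponent Q, map_sum]
  refine Finset.sum_eq_zero fun i _ => ?_
  rw [eval_smul_form (homogeneousComponent_isHomogeneous i Q), hx.2 _ (hP Q hQ i), mul_zero]

theorem cone_closed : ∀ x ∈ closure (cone P), x ≠ 0 → x ∈ cone P := by
  intro x hx h0
  refine ⟨h0, fun Q hQ => ?_⟩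
  have h1 : IsClosed {y : Fin (N + 1) → ℂ | eval y Q = 0} :=
    isClosed_eq (MvPolynomial.continuous_eval Q) continuous_const
  have h2 : cone P ⊆ {y : Fin (N + 1) → ℂ | eval y Q = 0} := fun y hy => hy.2 Q hQ
  exact h1.closure_subset_iff.2 h2 hx

/-- Extension of a holomorphic map from the punctured disc to the projective space. -/
theorem extend_of_picard {K B : Set (Fin (N + 1) → ℂ)} (hpic : Picard K B) {f : ℂ → PN N}
    (hf : HolomorphicInto f puncturedDisc) (hfK : ∀ z ∈ puncturedDisc, (f z).rep ∈ K)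
    (hfB : ∃ z ∈ puncturedDisc, (f z).rep ∉ B) :
    ∃ g : ℂ → PN N, HolomorphicInto g (Metric.ball 0 1) ∧ ∀ z ∈ puncturedDisc, g z = f z := by
  classical
  obtain ⟨z₁, hz₁, hz₁B⟩ := hfB
  have hball : ∀ z : ℂ, z ≠ 0 → ‖z‖ < 1 → z ∈ puncturedDisc := fun z h0 h1 => ⟨by simpa using h1, h0⟩
  have hball' : ∀ z ∈ puncturedDisc, z ≠ 0 ∧ ‖z‖ < 1 := fun z hz => ⟨hz.2, by simpa using hz.1⟩
  obtain ⟨F, hF, hF0, he⟩ := hpic 1 one_pos (fun z => (f z).rep)
    (fun z h0 h1 => ⟨holP_rep hf (hball z h0 h1), hfK z (hball z h0 h1)⟩)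
    ⟨z₁, (hball' z₁ hz₁).1, (hball' z₁ hz₁).2, hz₁B⟩
  refine ⟨fun z => if z = 0 then Projectivization.mk ℂ (F 0) hF0 else f z, ?_, ?_⟩
  · intro z₀ hz₀
    by_cases h0 : z₀ = 0
    · subst h0
      refine ⟨F, hF, ?_⟩
      rw [eventually_nhdsWithin_iff] at he
      filter_upwards [he, hF.continuousAt.eventually_ne hF0] with z h1 h2
      refine ⟨h2, ?_⟩
      by_cases h3 : z = 0
      · subst h3
        rw [if_pos rfl]
      · rw [if_neg h3, ← (h1 h3).mk_eq (f z).rep_nonzero h2, Projectivization.mk_rep]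
    · obtain ⟨φ, hφ, hφe⟩ := hf z₀ ⟨hz₀, h0⟩
      refine ⟨φ, hφ, ?_⟩
      filter_upwards [hφe, isOpen_compl_singleton.mem_nhds (show z₀ ∈ ({0} : Set ℂ)ᶜ from h0)] with z h1 h2
      obtain ⟨h3, h4⟩ := h1
      have h5 : z ≠ 0 := h2
      exact ⟨h3, by rw [if_neg h5, h4]⟩
  · intro z hz
    exact if_neg hz.2

end Pool.Agent.H17BP

end
end

section

/-!
# AD T NCProof: the main theorem
-/

open MvPolynomial
open Pool.Agent.H17 (PN VanishesAt ZariskiClosedIn HolomorphicInto puncturedDisc)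
open Pool.Agent.H17LG.Variety (FunField IsLogGeneralType)
open Pool.Agent.H13.SM (conTan)
open Pool.Agent.H17EF (projVar)
open Pool.Agent.H62.SA (OnBd locVar)

noncomputable section

namespace Pool.Agent.AD.NC

variable {N s : ℕ}

theorem isOfLogGeneralType_zero (P : Ideal (MvPolynomial (Fin (N + 1)) ℂ)) [P.IsPrime] (G : Fin 0 → MvPolynomial (Fin (N + 1)) ℂ)
    (k : ℕ) : IsOfLogGeneralType P G k ↔ IsLogGeneralType (K := FunField P) (k := k) fun _ => False := by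
  unfold IsOfLogGeneralType
  rw [Finset.univ_eq_empty, Finset.prod_empty, Pool.Agent.H17EF.onBd_one]

end Pool.Agent.AD.NC

end
end

section

/-!
# MQ AsmB0: regularity of the local functions of a box along a curve
-/

set_option autoImplicit false

open Topology Filter Metric MvPolynomial Asymptotics MeasureTheory Laplacian

noncomputable section

namespace Pool.Agent.MQ

open Pool.Agent.H36.BP (EN)
open Pool.Agent.H17BP (IsChart IsForm Surface)
open Pool.Agent.H17EF (eval_smul_form)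

variable {M : ℕ} {P : Ideal (MvPolynomial (Fin (M + 1)) ℂ)} {FF : Set (EN M × EN M)}

/-- evaluation of a form at an analytic map -/
theorem analyticAt_evalE {E : Type} [NormedAddCommGroup E] [NormedSpace ℂ E] {γ : E → EN M} {z₀ : E} (h : AnalyticAt ℂ γ z₀)
    (Q : MvPolynomial (Fin (M + 1)) ℂ) : AnalyticAt ℂ (fun z => eval (γ z).ofLp Q) z₀ := by
  have h1 : ∀ i, AnalyticAt ℂ (fun z => (γ z).ofLp i) z₀ := fun i =>
    ((EuclideanSpace.proj i : EN M →L[ℂ] ℂ).analyticAt (γ z₀)).comp h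
  refine (AnalyticAt.aeval_mvPolynomial h1 Q).congr (Eventually.of_forall fun y => ?_)
  exact congrArg (fun f : MvPolynomial (Fin (M + 1)) ℂ →+* ℂ => f Q) (MvPolynomial.coe_aeval_eq_eval (γ y).ofLp)

theorem eval_smulE {Q : MvPolynomial (Fin (M + 1)) ℂ} {d : ℕ} (hQ : Q.IsHomogeneous d) (c : ℂ) (x : EN M) :
    eval (c • x).ofLp Q = c ^ d * eval x.ofLp Q := by
  rw [← eval_smul_form hQ]
  rfl

namespace GBox

variable (B : GBox P FF)

end GBox

end Pool.Agent.MQ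

end
end

section

/-!
# MQ2 LeafN: all points of a leaf are points of leaves; equations of leaves are invariant
-/

set_option autoImplicit false

open Topology Filter Metric

noncomputable section

namespace Pool.Agent.MQ2

open Pool.Agent.MQ

/-- the points of a leaf -/
theorem leafIn_shift {v : ℂ × ℂ → ℂ × ℂ} {q : ℂ × ℂ → ℂ} {γ : ℂ → ℂ × ℂ} (hγ : AnalyticAt ℂ γ 0)
    (he : ∀ᶠ t in 𝓝 (0 : ℂ), (v (γ t)).1 * (deriv γ t).2 = (v (γ t)).2 * (deriv γ t).1 ∧ q (γ t) = 0) (hf : ∃ᶠ t in 𝓝 (0 : ℂ), γ t ≠ γ 0) :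
    ∀ᶠ t in 𝓝 (0 : ℂ), LeafIn v q (γ t) := by
  obtain ⟨ρ, hρ, hall⟩ := Metric.eventually_nhds_iff_ball.1 (he.and hγ.eventually_analyticAt)
  refine Metric.eventually_nhds_iff_ball.2 ⟨ρ, hρ, fun s hs => ?_⟩
  have hst : Tendsto (fun t : ℂ => s + t) (𝓝 0) (𝓝 s) := (by fun_prop : Continuous fun t : ℂ => s + t).tendsto' _ _ (add_zero s)
  refine ⟨fun t => γ (s + t), ?_, by simp, ?_, ?_⟩
  · refine AnalyticAt.fun_comp (g := γ) (f := fun t => s + t) ?_ (by fun_prop)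
    rw [add_zero]
    exact (hall s hs).2
  · filter_upwards [hst.eventually (isOpen_ball.mem_nhds hs)] with t ht
    rw [deriv_comp_const_add]
    exact (hall _ ht).1
  · intro hcon
    have h1 : ∀ᶠ t in 𝓝 s, γ t = γ s := by
      have h2 : Tendsto (fun t : ℂ => t - s) (𝓝 s) (𝓝 0) := (by fun_prop : Continuous fun t : ℂ => t - s).tendsto' _ _ (sub_self s)
      filter_upwards [h2.eventually hcon] with t ht
      simpa using ht
    have han : AnalyticOnNhd ℂ γ (ball 0 ρ) := fun t ht => (hall t ht).2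
    have h3 := han.eqOn_of_preconnected_of_eventuallyEq (analyticOnNhd_const (v := γ s)) (convex_ball (0 : ℂ) ρ).isPreconnected hs h1
    apply hf
    filter_upwards [isOpen_ball.mem_nhds (mem_ball_self hρ)] with t ht
    rw [not_not, h3 ht, h3 (mem_ball_self hρ)]

end Pool.Agent.MQ2

end
end

section

/-!
# MQ3 GInvNC: a formal curve in an algebraic curve is a leaf in it
-/

set_option autoImplicit false

open Topology Filter Metric Asymptotics

noncomputable section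

namespace Pool.Agent.MQ3

open Pool.Agent.MQ Pool.Agent.MQ2 Pool.Agent.MQ2.SepAux

/-- the derivative of a germ of order `n + 1` -/
private theorem deriv_isBigO {u : ℂ → ℂ} (hu : AnalyticAt ℂ u 0) {n : ℕ} (h : u =O[𝓝 0] fun t : ℂ => t ^ (n + 1)) :
    (deriv u) =O[𝓝 0] fun t : ℂ => t ^ n := by
  rw [isBigO_pow_iff hu] at h
  obtain ⟨q, hq, huq⟩ := (natCast_le_analyticOrderAt hu).1 h
  have h1 : ∀ᶠ t in 𝓝 (0 : ℂ), deriv u t = t ^ n * (((n + 1 : ℕ) : ℂ) * q t + t * deriv q t) := by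
    filter_upwards [huq.eventually_nhds, hq.eventually_analyticAt] with t ht hqt
    have h2 : u =ᶠ[𝓝 t] fun z => z ^ (n + 1) * q z := by
      filter_upwards [ht] with z hz
      rw [hz, sub_zero, smul_eq_mul]
    rw [h2.deriv_eq]
    have h3 : HasDerivAt (fun z : ℂ => z ^ (n + 1) * q z) (((n + 1 : ℕ) : ℂ) * t ^ n * q t + t ^ (n + 1) * deriv q t) t :=
      (hasDerivAt_pow (n + 1) t).mul hqt.differentiableAt.hasDerivAt
    rw [h3.deriv]
    ring
  have h2' : ContinuousAt (fun t : ℂ => ((n + 1 : ℕ) : ℂ) * q t + t * deriv q t) 0 :=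
    (continuousAt_const.mul hq.continuousAt).add (continuousAt_id.mul hq.deriv.continuousAt)
  have h2 : (fun t : ℂ => ((n + 1 : ℕ) : ℂ) * q t + t * deriv q t) =O[𝓝 0] fun _ : ℂ => (1 : ℂ) := h2'.isBigO_one ℂ
  have h3 := (isBigO_refl (fun t : ℂ => t ^ n) (𝓝 0)).mul h2
  refine IsBigO.congr' h3 (h1.mono fun t ht => ht.symm) (Eventually.of_forall fun t => mul_one _)

/-- a germ of infinite order -/
private theorem zero_of_all {u : ℂ → ℂ} (hu : AnalyticAt ℂ u 0) (h : ∀ n : ℕ, u =O[𝓝 0] fun t : ℂ => t ^ n) : ∀ᶠ t in 𝓝 (0 : ℂ), u t = 0 := by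
  rw [← analyticOrderAt_eq_top]
  by_contra hcon
  obtain ⟨n, hn⟩ := ENat.ne_top_iff_exists.1 hcon
  have h1 := (isBigO_pow_iff hu (n + 1)).1 (h (n + 1))
  rw [← hn, Nat.cast_le] at h1
  omega

/-- a formal curve in `{f = 0}` lies in every curve which contains the leaves in `{f = 0}` -/
theorem fzero_leaf {v : ℂ × ℂ → ℂ × ℂ} (hv : AnalyticAt ℂ v 0) {c : ℕ → ℂ → ℂ × ℂ} (hc : Sep v c) {f : ℂ × ℂ → ℂ} (hf : AnalyticAt ℂ f 0)
    (hf0 : ∃ᶠ p in 𝓝 (0 : ℂ × ℂ), f p ≠ 0) (hz : FZero c f) {g : ℂ × ℂ → ℂ} (hg : AnalyticAt ℂ g 0)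
    (hgz : ∀ᶠ p in 𝓝 (0 : ℂ × ℂ), p ≠ 0 → LeafIn v f p → g p = 0) : FZero c g := by
  obtain ⟨γ, hγ, hγc⟩ := hc.alg f hf hf0 hz
  have hγ0 : γ 0 = 0 := by
    obtain ⟨B, hB⟩ := (hγc 0).bound
    have h1 := hB.self_of_nhds
    rw [hc.zero, sub_zero, zero_add, pow_one, norm_zero, mul_zero] at h1
    exact norm_le_zero_iff.1 h1
  -- functions along the two curves
  have hcomp : ∀ {q : ℂ × ℂ → ℂ}, AnalyticAt ℂ q 0 → ∀ N, (fun t => q (γ t) - q (c N t)) =O[𝓝 0] fun t : ℂ => t ^ (N + 1) := by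
    intro q hq N
    refine comp_sub hγ.continuousAt (hc.an N).continuousAt ?_ ?_ (hγc N)
    · rw [hγ0, hc.zero]
    · rw [hc.zero]; exact hq
  have han : ∀ {q : ℂ × ℂ → ℂ}, AnalyticAt ℂ q 0 → AnalyticAt ℂ (fun t => q (γ t)) 0 := fun {q} hq => AnalyticAt.comp_of_eq (f := γ) hq hγ hγ0
  have hzero : ∀ {q : ℂ × ℂ → ℂ}, AnalyticAt ℂ q 0 → FZero c q → ∀ᶠ t in 𝓝 (0 : ℂ), q (γ t) = 0 := by
    intro q hq hq0
    refine zero_of_all (han hq) fun n => ?_
    have h1 := (hcomp hq n).add (hq0 n)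
    refine pow_mono (h1.congr_left fun t => ?_) (Nat.le_succ n)
    ring
  have hf1 := hzero hf hz
  -- the curve is tangent to `v`
  have hγ1 : AnalyticAt ℂ (fun t => (γ t).1) 0 := analyticAt_fst.comp hγ
  have hγ2 : AnalyticAt ℂ (fun t => (γ t).2) 0 := analyticAt_snd.comp hγ
  have hc1 : ∀ N, AnalyticAt ℂ (fun t => (c N t).1) 0 := fun N => analyticAt_fst.comp (hc.an N)
  have hc2 : ∀ N, AnalyticAt ℂ (fun t => (c N t).2) 0 := fun N => analyticAt_snd.comp (hc.an N)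
  have hv1 : AnalyticAt ℂ (fun p => (v p).1) 0 := analyticAt_fst.comp hv
  have hv2 : AnalyticAt ℂ (fun p => (v p).2) 0 := analyticAt_snd.comp hv
  have hd1 : ∀ {a : ℂ → ℂ × ℂ}, AnalyticAt ℂ a 0 → ∀ᶠ t in 𝓝 (0 : ℂ), (deriv a t).1 = deriv (fun t => (a t).1) t ∧ (deriv a t).2 = deriv (fun t => (a t).2) t := by
    intro a ha
    filter_upwards [ha.eventually_analyticAt] with t ht
    have h1 := ht.differentiableAt.hasDerivAt
    exact ⟨(HasDerivAt.deriv h1.fst).symm, (HasDerivAt.deriv h1.snd).symm⟩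
  have hdd : ∀ N, (fun t => deriv (fun t => (γ t).1) t - deriv (fun t => (c N t).1) t) =O[𝓝 0] fun t : ℂ => t ^ N := by
    intro N
    have h1 : (fun t => (γ t).1 - (c N t).1) =O[𝓝 0] fun t : ℂ => t ^ (N + 1) := by
      refine IsBigO.trans ?_ (hγc N)
      exact IsBigO.of_bound 1 (Eventually.of_forall fun t => by
        rw [one_mul]; exact norm_fst_le (γ t - c N t))
    have h2 := deriv_isBigO (hγ1.sub (hc1 N)) h1
    refine IsBigO.congr' h2 ?_ EventuallyEq.rfl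
    filter_upwards [hγ1.eventually_analyticAt, (hc1 N).eventually_analyticAt] with t ht ht'
    exact deriv_fun_sub ht.differentiableAt ht'.differentiableAt
  have hdd2 : ∀ N, (fun t => deriv (fun t => (γ t).2) t - deriv (fun t => (c N t).2) t) =O[𝓝 0] fun t : ℂ => t ^ N := by
    intro N
    have h1 : (fun t => (γ t).2 - (c N t).2) =O[𝓝 0] fun t : ℂ => t ^ (N + 1) := by
      refine IsBigO.trans ?_ (hγc N)
      exact IsBigO.of_bound 1 (Eventually.of_forall fun t => by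
        rw [one_mul]; exact norm_snd_le (γ t - c N t))
    have h2 := deriv_isBigO (hγ2.sub (hc2 N)) h1
    refine IsBigO.congr' h2 ?_ EventuallyEq.rfl
    filter_upwards [hγ2.eventually_analyticAt, (hc2 N).eventually_analyticAt] with t ht ht'
    exact deriv_fun_sub ht.differentiableAt ht'.differentiableAt
  have hW : ∀ᶠ t in 𝓝 (0 : ℂ), (v (γ t)).1 * deriv (fun t => (γ t).2) t - (v (γ t)).2 * deriv (fun t => (γ t).1) t = 0 := by
    refine zero_of_all (((han hv1).mul hγ2.deriv).sub ((han hv2).mul hγ1.deriv)) fun N => ?_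
    have b1 : (fun t => deriv (fun t => (γ t).2) t) =O[𝓝 0] fun _ : ℂ => (1 : ℂ) := hγ2.deriv.continuousAt.isBigO_one ℂ
    have b2 : (fun t => deriv (fun t => (γ t).1) t) =O[𝓝 0] fun _ : ℂ => (1 : ℂ) := hγ1.deriv.continuousAt.isBigO_one ℂ
    have b3 : (fun t => (v (c N t)).1) =O[𝓝 0] fun _ : ℂ => (1 : ℂ) := (q_an hc hv1 N).continuousAt.isBigO_one ℂ
    have b4 : (fun t => (v (c N t)).2) =O[𝓝 0] fun _ : ℂ => (1 : ℂ) := (q_an hc hv2 N).continuousAt.isBigO_one ℂ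
    have e1 := (pow_mono (hcomp hv1 N) (Nat.le_succ N)).mul b1
    have e2 := (pow_mono (hcomp hv2 N) (Nat.le_succ N)).mul b2
    have e3 := b3.mul (hdd2 N)
    have e4 := b4.mul (hdd N)
    simp only [mul_one, one_mul] at e1 e2 e3 e4
    have e5 : (fun t => (v (c N t)).1 * deriv (fun t => (c N t).2) t - (v (c N t)).2 * deriv (fun t => (c N t).1) t) =O[𝓝 0] fun t : ℂ => t ^ N := by
      refine IsBigO.congr' (hc.tan N) ?_ EventuallyEq.rfl
      filter_upwards [hd1 (hc.an N)] with t ht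
      rw [ht.1, ht.2]
    have e6 := ((e1.add e3).sub (e2.add e4)).add e5
    refine e6.congr_left fun t => ?_
    ring
  have he : ∀ᶠ t in 𝓝 (0 : ℂ), (v (γ t)).1 * (deriv γ t).2 = (v (γ t)).2 * (deriv γ t).1 ∧ f (γ t) = 0 := by
    filter_upwards [hW, hd1 hγ, hf1] with t h1 h2 h3
    refine ⟨?_, h3⟩
    rw [h2.1, h2.2]
    exact sub_eq_zero.1 h1
  -- it is not constant
  have hnc : ∃ᶠ t in 𝓝 (0 : ℂ), γ t ≠ γ 0 := by
    intro hcon
    obtain ⟨N, hN⟩ := hc.nc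
    apply hN
    have h1 := (hγc N).neg_left
    refine IsBigO.congr' h1 ?_ EventuallyEq.rfl
    filter_upwards [hcon] with t ht
    rw [not_not] at ht
    rw [ht, hγ0, zero_sub, neg_neg]
  have hL := leafIn_shift hγ he hnc
  have hg1 : ∀ᶠ t in 𝓝 (0 : ℂ), g (γ t) = 0 := by
    rw [← (han hg).frequently_zero_iff_eventually_zero]
    have h0 : ∀ᶠ t in 𝓝[≠] (0 : ℂ), γ t ≠ 0 := by
      rcases hγ.eventually_eq_or_eventually_ne (analyticAt_const (v := (0 : ℂ × ℂ))) with h | h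
      · exfalso
        apply hnc
        filter_upwards [h] with t ht
        rw [not_not, ht, hγ0]
      · exact h
    have h2 : Tendsto γ (𝓝[≠] (0 : ℂ)) (𝓝 0) := by
      have := hγ.continuousAt.tendsto
      rw [hγ0] at this
      exact this.mono_left nhdsWithin_le_nhds
    refine Eventually.frequently ?_
    filter_upwards [h0, h2.eventually hgz, nhdsWithin_le_nhds hL] with t h3 h4 h5
    exact h4 h3 h5
  intro N
  refine ((hcomp hg N).neg_left.congr' ?_ EventuallyEq.rfl)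
  filter_upwards [hg1] with t ht
  rw [ht]
  ring

end Pool.Agent.MQ3

end
end

section

/-!
# TB EnM: the maximum principle for the weighted energy
-/

set_option autoImplicit false

open Topology Filter Metric

noncomputable section

namespace Pool.Agent.H36.TB

open Pool.Agent.H36.BP (EN fs wd Sub)
open Pool.Agent.H17BP (Pr Surface IsForm NoZeros NodalAt Eqs IsChart ResAt)
open Pool.Agent.SY (Ent Energy ModelS)

variable {V : Type} [NormedAddCommGroup V] [NormedSpace ℂ V] {X T : Set V}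

/-- the coefficient of the form is continuous -/
theorem oC_continuousAt {m j : ℕ} {Ω : V → V → V → ℂ} (hΩ : IsForm X m j Ω) {σ : ℂ × ℂ → V} {τ : V → ℂ × ℂ} (hσ : IsChart X σ τ) :
    ContinuousAt (oC Ω σ) 0 :=
  (hΩ.analytic σ 0 hσ.σ_an hσ.σ_mem).continuousAt

/-- The weighted energy is upper semicontinuous, with the value `0` at the zeros of the weight. -/
theorem weighted_usc {nu rho : V → ℝ} {m j : ℕ} {Ω : V → V → V → ℂ} {M : ℕ} {c₀ C θ : ℝ} {g : (ℂ → V) → ℂ → ℝ} {pn : V → ℝ} {D₁ : ℕ}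
    (hX : Surface X) (hΩ : IsForm X m j Ω) (hm : 1 ≤ m) (hj : 1 ≤ j) (hθ : 0 < θ) (hθ1 : θ < 1)
    (E : EnergyB X T m j Ω nu rho M c₀ C g pn D₁ θ) {F : ℂ → V} (hF : Ent X T F) :
    UpperSemicontinuous fun z => g F z * pn (F z) ^ (-(θ * j / (m * D₁))) := by
  have hm0 : (0 : ℝ) < m := by exact_mod_cast hm
  have hj0 : (0 : ℝ) < j := by exact_mod_cast hj
  have hD0 : (0 : ℝ) < D₁ := by exact_mod_cast E.one_le
  obtain ⟨γ, hγ⟩ : ∃ γ : ℝ, γ = θ * j / (m * D₁) := ⟨_, rfl⟩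
  have hγ0 : 0 < γ := by rw [hγ]; positivity
  rw [← hγ]
  intro z₀ b hb
  have hpc : ContinuousAt (fun z => pn (F z)) z₀ := E.pn_cont.continuousAt.comp hF.diff.continuous.continuousAt
  rcases (E.pn_nonneg (F z₀)).eq_or_lt with h0 | h0
  · -- a zero of the weight
    have hb0 : 0 < b := by
      have h1 : g F z₀ * pn (F z₀) ^ (-γ) = 0 := by
        rw [← h0, Real.zero_rpow (by linarith), mul_zero]
      have h2 : g F z₀ * pn (F z₀) ^ (-γ) < b := hb
      rwa [h1] at h2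
    obtain ⟨σ, τ, hσ, hσ0⟩ := hX.chart (F z₀) (hF.mem z₀)
    obtain ⟨B, hB, hub⟩ := E.ub F hF z₀ σ τ hσ hσ0
    have hτ : Tendsto (fun z => τ (F z)) (𝓝 z₀) (𝓝 0) := by
      have h1 : ContinuousAt τ (F z₀) := by
        have h2 := hσ.τ_an.continuousAt
        rwa [hσ0] at h2
      have h2 : τ (F z₀) = 0 := by
        rw [← hσ0]
        exact hσ.left.self_of_nhds
      have h3 : ContinuousAt (fun z => τ (F z)) z₀ := ContinuousAt.comp (f := F) (g := τ) h1 hF.diff.continuous.continuousAt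
      have h4 : Tendsto (fun z => τ (F z)) (𝓝 z₀) (𝓝 (τ (F z₀))) := h3
      rwa [h2] at h4
    have hoc : ∀ᶠ z in 𝓝 z₀, ‖oC Ω σ (τ (F z))‖ ≤ ‖oC Ω σ 0‖ + 1 := by
      have h1 := ((oC_continuousAt hΩ hσ).norm.tendsto.comp hτ).eventually (gt_mem_nhds (show ‖oC Ω σ 0‖ < ‖oC Ω σ 0‖ + 1 by linarith))
      exact h1.mono fun z hz => le_of_lt hz
    have he : 0 < (j : ℝ) / (m * D₁) - γ := by
      have h1 : γ = θ * ((j : ℝ) / (m * D₁)) := by rw [hγ]; ring
      have h2 : 0 < (j : ℝ) / (m * D₁) := by positivity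
      rw [h1]
      nlinarith
    have hlim : Tendsto (fun z => B * (‖oC Ω σ 0‖ + 1) ^ (1 / (m : ℝ)) * pn (F z) ^ ((j : ℝ) / (m * D₁) - γ)) (𝓝 z₀) (𝓝 0) := by
      have h1 : Tendsto (fun z => pn (F z) ^ ((j : ℝ) / (m * D₁) - γ)) (𝓝 z₀) (𝓝 ((0 : ℝ) ^ ((j : ℝ) / (m * D₁) - γ))) := by
        have h2 : Tendsto (fun z => pn (F z)) (𝓝 z₀) (𝓝 0) := by
          have h3 := hpc.tendsto
          rwa [← h0] at h3
        exact h2.rpow_const (Or.inr he.le)
      rw [Real.zero_rpow he.ne'] at h1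
      have h2 := h1.const_mul (B * (‖oC Ω σ 0‖ + 1) ^ (1 / (m : ℝ)))
      rwa [mul_zero] at h2
    filter_upwards [hub, hoc, hlim.eventually (gt_mem_nhds hb0)] with z h1 h2 h3
    show g F z * pn (F z) ^ (-γ) < b
    rcases (E.pn_nonneg (F z)).eq_or_lt with h4 | h4
    · rw [← h4, Real.zero_rpow (by linarith), mul_zero]
      exact hb0
    · refine lt_of_le_of_lt ?_ h3
      have h5 : ‖oC Ω σ (τ (F z))‖ ^ (1 / (m : ℝ)) ≤ (‖oC Ω σ 0‖ + 1) ^ (1 / (m : ℝ)) :=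
        Real.rpow_le_rpow (norm_nonneg _) h2 (by positivity)
      have h6 : pn (F z) ^ ((j : ℝ) / (m * D₁)) * pn (F z) ^ (-γ) = pn (F z) ^ ((j : ℝ) / (m * D₁) - γ) := by
        rw [← Real.rpow_add h4, sub_eq_add_neg]
      calc g F z * pn (F z) ^ (-γ) ≤ B * ‖oC Ω σ (τ (F z))‖ ^ (1 / (m : ℝ)) * pn (F z) ^ ((j : ℝ) / (m * D₁)) * pn (F z) ^ (-γ) :=
            mul_le_mul_of_nonneg_right h1 (Real.rpow_nonneg h4.le _)
        _ = B * ‖oC Ω σ (τ (F z))‖ ^ (1 / (m : ℝ)) * pn (F z) ^ ((j : ℝ) / (m * D₁) - γ) := by rw [mul_assoc, h6]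
        _ ≤ B * (‖oC Ω σ 0‖ + 1) ^ (1 / (m : ℝ)) * pn (F z) ^ ((j : ℝ) / (m * D₁) - γ) := by gcongr
  · -- the weight is positive
    have hwc : ContinuousAt (fun z => pn (F z) ^ (-γ)) z₀ := hpc.rpow_const (Or.inl h0.ne')
    have hw0 : 0 < pn (F z₀) ^ (-γ) := Real.rpow_pos_of_pos h0 _
    have hb' : g F z₀ * pn (F z₀) ^ (-γ) < b := hb
    have hg0 := E.nonneg F hF z₀
    -- choose `a > g` and `ω > weight` with `a ω < b`
    obtain ⟨a, ha1, ha2⟩ : ∃ a, g F z₀ < a ∧ a * pn (F z₀) ^ (-γ) < b := by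
      have h1 : g F z₀ < b / pn (F z₀) ^ (-γ) := by rwa [lt_div_iff₀ hw0]
      obtain ⟨a, h2, h3⟩ := exists_between h1
      exact ⟨a, h2, by rwa [lt_div_iff₀ hw0] at h3⟩
    have ha0 : 0 < a := lt_of_le_of_lt hg0 ha1
    have h2 : ∀ᶠ z in 𝓝 z₀, a * pn (F z) ^ (-γ) < b := (hwc.const_mul a |>.tendsto).eventually (gt_mem_nhds ha2)
    filter_upwards [E.usc F hF z₀ a ha1, h2, hpc.eventually (lt_mem_nhds h0)] with z h3 h4 h5
    exact lt_of_le_of_lt (mul_le_mul_of_nonneg_right h3.le (Real.rpow_nonneg h5.le _)) h4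

end Pool.Agent.H36.TB

end
end

section

/-!
# SG DefT: the two-sided bound of the weighted energy in a sector
-/

set_option autoImplicit false

open Topology Filter Metric

noncomputable section

namespace Pool.Agent.H90.SG

open Pool.Agent.H36.TB (oC sm)
open Pool.Agent.SY (Ent)

variable {V : Type} [NormedAddCommGroup V] [NormedSpace ℂ V]

/-- The two-sided bound of the weighted energy in the sector `‖p.2‖ < ε ‖p.1‖` of the chart `(σ, τ)` at the point `σ 0`: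
`s = p.1`, `t = p.2 / p.1`. -/
def TBSec (X T : Set V) (m j : ℕ) (Ω : V → V → V → ℂ) (θ k : ℝ) (σ : ℂ × ℂ → V) (τ : V → ℂ × ℂ) (g : (ℂ → V) → ℂ → ℝ) (pn : V → ℝ)
    (D₁ : ℕ) : Prop :=
  ∃ ε B : ℝ, 0 < ε ∧ 1 ≤ B ∧ ∀ F, Ent X T F → ∀ z c : ℂ, c ≠ 0 → ‖c⁻¹ • F z - σ 0‖ < ε → (τ (c⁻¹ • F z)).1 ≠ 0 →
    ‖(τ (c⁻¹ • F z)).2‖ < ε * ‖(τ (c⁻¹ • F z)).1‖ →
    DifferentiableAt ℂ (fun w => τ (c⁻¹ • F w)) z ∧
    ‖(τ (c⁻¹ • F z)).1‖ ^ (1 + (1 - θ) * j / (2 * m)) * ‖oC Ω σ (τ (c⁻¹ • F z))‖ ^ (1 / (m : ℝ)) *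
      sm k ((τ (c⁻¹ • F z)).1, (τ (c⁻¹ • F z)).2 / (τ (c⁻¹ • F z)).1)
        (deriv (fun w => (τ (c⁻¹ • F w)).1) z, deriv (fun w => (τ (c⁻¹ • F w)).2 / (τ (c⁻¹ • F w)).1) z) * ‖c‖ ^ (-(θ * j / m)) ≤
      B * (g F z * pn (F z) ^ (-(θ * j / (m * D₁)))) ∧
    g F z * pn (F z) ^ (-(θ * j / (m * D₁))) ≤
      B * (‖(τ (c⁻¹ • F z)).1‖ ^ (1 + (1 - θ) * j / (2 * m)) * ‖oC Ω σ (τ (c⁻¹ • F z))‖ ^ (1 / (m : ℝ)) *
      sm k ((τ (c⁻¹ • F z)).1, (τ (c⁻¹ • F z)).2 / (τ (c⁻¹ • F z)).1)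
        (deriv (fun w => (τ (c⁻¹ • F w)).1) z, deriv (fun w => (τ (c⁻¹ • F w)).2 / (τ (c⁻¹ • F w)).1) z) * ‖c‖ ^ (-(θ * j / m)))

end Pool.Agent.H90.SG

end
end

section

/-!
# SG BuM: the maximum principle for the weighted energy, with a local bound of the energy
-/

set_option autoImplicit false

open Topology Filter Metric

noncomputable section

namespace Pool.Agent.SG

open Pool.Agent.H36.TB (EnergyB oC weighted_usc)
open Pool.Agent.H36.BP (EN fs wd Sub Sub.mul Sub.anti Sub.exp_sq max_principle)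
open Pool.Agent.H17BP (Pr Surface IsForm NoZeros NodalAt Eqs IsChart ResAt)
open Pool.Agent.SY (Ent Energy ModelS)

variable {V : Type} [NormedAddCommGroup V] [NormedSpace ℂ V] {X T : Set V}

/-- The maximum principle for the weighted energy.  `A` is a bound of the energy on the disc. -/
theorem maxP_loc {nu rho : V → ℝ} {m j : ℕ} {Ω : V → V → V → ℂ} {M : ℕ} {c₀ C θ : ℝ} {g : (ℂ → V) → ℂ → ℝ} {pn : V → ℝ} {D₁ : ℕ}
    (hX : Surface X) (hΩ : IsForm X m j Ω) (hm : 1 ≤ m) (hj : 1 ≤ j) (hθ : 0 < θ) (hθ1 : θ < 1)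
    (E : EnergyB X T m j Ω nu rho M c₀ C g pn D₁ θ) {A : ℝ} {F : ℂ → V} (hF : Ent X T F) {w : ℂ} {R : ℝ}
    (hA : ∀ z ∈ ball w R, g F z ≤ A) (hR : 0 < R)
    {z : ℂ} (hz : z ∈ ball w R) :
    ∃ y ∈ sphere w R, g F z * pn (F z) ^ (-(θ * j / (m * D₁))) * Real.exp (C * A ^ 2 * ‖z - w‖ ^ 2) ≤
      g F y * pn (F y) ^ (-(θ * j / (m * D₁))) * Real.exp (C * A ^ 2 * R ^ 2) := by
  have husc := weighted_usc hX hΩ hm hj hθ hθ1 E hF
  have hsub := E.subP F hF
  obtain ⟨v, hv⟩ : ∃ v : ℂ → ℝ, v = fun z => g F z * pn (F z) ^ (-(θ * j / (m * D₁))) := ⟨_, rfl⟩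
  have hv' : ∀ z, g F z * pn (F z) ^ (-(θ * j / (m * D₁))) = v z := fun z => by rw [hv]
  rw [← hv] at husc hsub
  simp only [hv']
  have hv0 : ∀ z, 0 ≤ v z := fun z => by
    rw [hv]
    exact mul_nonneg (E.nonneg F hF z) (Real.rpow_nonneg (E.pn_nonneg _) _)
  have hC := E.C_pos
  have hA0 : 0 ≤ A := (E.nonneg F hF w).trans (hA w (mem_ball_self hR))
  -- the maximum over the circle
  obtain ⟨y, hy, hmax⟩ := UpperSemicontinuousOn.exists_isMaxOn (NormedSpace.sphere_nonempty.2 hR.le) (isCompact_sphere w R)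
    (husc.upperSemicontinuousOn (sphere w R))
  refine ⟨y, hy, ?_⟩
  have key : ∀ ε : ℝ, 0 < ε → v z * Real.exp ((C * A ^ 2 + ε) * ‖z - w‖ ^ 2) ≤ v y * Real.exp ((C * A ^ 2 + ε) * R ^ 2) := by
    intro ε hε
    have hec : Continuous fun z : ℂ => Real.exp ((C * A ^ 2 + ε) * ‖z - w‖ ^ 2) := by fun_prop
    have h1 : UpperSemicontinuousOn (fun z => v z * Real.exp ((C * A ^ 2 + ε) * ‖z - w‖ ^ 2)) (closedBall w R) := by
      intro x _ b hb
      have hb' : v x * Real.exp ((C * A ^ 2 + ε) * ‖x - w‖ ^ 2) < b := hb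
      have hE : 0 < Real.exp ((C * A ^ 2 + ε) * ‖x - w‖ ^ 2) := Real.exp_pos _
      obtain ⟨a, ha1, ha2⟩ : ∃ a, v x < a ∧ a * Real.exp ((C * A ^ 2 + ε) * ‖x - w‖ ^ 2) < b := by
        have h1 : v x < b / Real.exp ((C * A ^ 2 + ε) * ‖x - w‖ ^ 2) := by rwa [lt_div_iff₀ hE]
        obtain ⟨a, h2, h3⟩ := exists_between h1
        exact ⟨a, h2, by rwa [lt_div_iff₀ hE] at h3⟩
      have h2 : ∀ᶠ z in 𝓝 x, a * Real.exp ((C * A ^ 2 + ε) * ‖z - w‖ ^ 2) < b :=
        ((hec.continuousAt.const_mul a).tendsto).eventually (gt_mem_nhds ha2)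
      refine Filter.Eventually.filter_mono nhdsWithin_le_nhds ?_
      filter_upwards [husc x a ha1, h2] with z h3 h4
      exact lt_of_le_of_lt (mul_le_mul_of_nonneg_right (le_of_lt h3) (Real.exp_pos _).le) h4
    refine max_principle (isCompact_closedBall w R) isOpen_ball ball_subset_closedBall h1 (fun x hx hpos => ?_)
      (mul_nonneg (hv0 y) (Real.exp_pos _).le) (fun x hx => ?_) z (ball_subset_closedBall hz)
    · have hvx : 0 < v x := by
        by_contra hcon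
        have h2 : v x = 0 := le_antisymm (not_lt.1 hcon) (hv0 x)
        rw [h2, zero_mul] at hpos
        exact lt_irrefl _ hpos
      have hgx : 0 < g F x := by
        rcases (E.nonneg F hF x).eq_or_lt with h2 | h2
        · exfalso
          rw [hv] at hvx
          simp only [← h2, zero_mul] at hvx
          exact lt_irrefl _ hvx
        · exact h2
      refine ⟨ε, hε, ?_⟩
      have h2 := (hsub x hgx).mul (Sub.exp_sq (t := fun z : ℂ => z - w) (z₀ := x) (by fun_prop) (C * A ^ 2 + ε))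
      refine h2.anti ?_
      have h3 : deriv (fun z : ℂ => z - w) x = 1 := by simp
      rw [h3, norm_one, one_pow, mul_one]
      have h4 : g F x ^ 2 ≤ A ^ 2 := pow_le_pow_left₀ hgx.le (hA x hx) 2
      nlinarith
    · have h2 : x ∈ sphere w R := by
        rw [mem_sphere]
        refine le_antisymm (mem_closedBall.1 hx.1) (not_lt.1 fun h => hx.2 (mem_ball.2 h))
      have h3 : v x ≤ v y := hmax h2
      have h4 : ‖x - w‖ = R := by rw [← dist_eq_norm]; exact mem_sphere.1 h2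
      rw [h4]
      exact mul_le_mul_of_nonneg_right h3 (Real.exp_pos _).le
  -- the limit
  have hl1 : Tendsto (fun ε : ℝ => v z * Real.exp ((C * A ^ 2 + ε) * ‖z - w‖ ^ 2)) (𝓝[>] 0) (𝓝 (v z * Real.exp (C * A ^ 2 * ‖z - w‖ ^ 2))) := by
    have h1 : Continuous fun ε : ℝ => v z * Real.exp ((C * A ^ 2 + ε) * ‖z - w‖ ^ 2) := by fun_prop
    have h2 := h1.tendsto 0
    rw [add_zero] at h2
    exact h2.mono_left nhdsWithin_le_nhds
  have hl2 : Tendsto (fun ε : ℝ => v y * Real.exp ((C * A ^ 2 + ε) * R ^ 2)) (𝓝[>] 0) (𝓝 (v y * Real.exp (C * A ^ 2 * R ^ 2))) := by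
    have h1 : Continuous fun ε : ℝ => v y * Real.exp ((C * A ^ 2 + ε) * R ^ 2) := by fun_prop
    have h2 := h1.tendsto 0
    rw [add_zero] at h2
    exact h2.mono_left nhdsWithin_le_nhds
  exact le_of_tendsto_of_tendsto hl1 hl2 (eventually_nhdsWithin_of_forall fun ε hε => key ε hε)

/-- The maximum principle for the weighted energy `U`, with a constant: `U z ≤ K * U y` for some point `y` of the circle of radius `r ≤ R`. -/
theorem maxU {nu rho : V → ℝ} {m j : ℕ} {Ω : V → V → V → ℂ} {M : ℕ} {c₀ C θ : ℝ} {g : (ℂ → V) → ℂ → ℝ} {pn : V → ℝ} {D₁ : ℕ}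
    (hX : Surface X) (hΩ : IsForm X m j Ω) (hm : 1 ≤ m) (hj : 1 ≤ j) (hθ : 0 < θ) (hθ1 : θ < 1)
    (E : EnergyB X T m j Ω nu rho M c₀ C g pn D₁ θ) {A : ℝ} {F : ℂ → V} (hF : Ent X T F) {w : ℂ} {R : ℝ}
    (hA : ∀ z ∈ ball w R, g F z ≤ A) {r : ℝ} (hr : 0 < r) (hrR : r ≤ R) {z : ℂ} (hz : z ∈ closedBall w r) :
    ∃ y ∈ sphere w r, g F z * pn (F z) ^ (-(θ * j / (m * D₁))) ≤
      Real.exp (C * A ^ 2 * R ^ 2) * (g F y * pn (F y) ^ (-(θ * j / (m * D₁)))) := by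
  have hU : ∀ x, 0 ≤ g F x * pn (F x) ^ (-(θ * j / (m * D₁))) := fun x =>
    mul_nonneg (E.nonneg F hF x) (Real.rpow_nonneg (E.pn_nonneg _) _)
  have hCA : 0 ≤ C * A ^ 2 := mul_nonneg E.C_pos.le (sq_nonneg _)
  have h1 : (1 : ℝ) ≤ Real.exp (C * A ^ 2 * R ^ 2) := Real.one_le_exp (mul_nonneg hCA (sq_nonneg _))
  rcases (mem_closedBall.1 hz).lt_or_eq with h2 | h2
  · obtain ⟨y, hy, h3⟩ := maxP_loc hX hΩ hm hj hθ hθ1 E hF (fun x hx => hA x (ball_subset_ball hrR hx)) hr (mem_ball.2 h2)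
    refine ⟨y, hy, ?_⟩
    have h4 : (1 : ℝ) ≤ Real.exp (C * A ^ 2 * ‖z - w‖ ^ 2) := Real.one_le_exp (mul_nonneg hCA (sq_nonneg _))
    have h5 : Real.exp (C * A ^ 2 * r ^ 2) ≤ Real.exp (C * A ^ 2 * R ^ 2) :=
      Real.exp_le_exp.2 (mul_le_mul_of_nonneg_left (pow_le_pow_left₀ hr.le hrR 2) hCA)
    calc g F z * pn (F z) ^ (-(θ * j / (m * D₁))) ≤ g F z * pn (F z) ^ (-(θ * j / (m * D₁))) * Real.exp (C * A ^ 2 * ‖z - w‖ ^ 2) :=
          le_mul_of_one_le_right (hU z) h4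
      _ ≤ g F y * pn (F y) ^ (-(θ * j / (m * D₁))) * Real.exp (C * A ^ 2 * r ^ 2) := h3
      _ ≤ g F y * pn (F y) ^ (-(θ * j / (m * D₁))) * Real.exp (C * A ^ 2 * R ^ 2) := mul_le_mul_of_nonneg_left h5 (hU y)
      _ = Real.exp (C * A ^ 2 * R ^ 2) * (g F y * pn (F y) ^ (-(θ * j / (m * D₁)))) := mul_comm _ _
  · refine ⟨z, mem_sphere.2 h2, ?_⟩
    have h3 := mul_le_mul_of_nonneg_right h1 (hU z)
    rwa [one_mul] at h3

end Pool.Agent.SG

end
end

section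

/-!
# MQ3 FibN: the chart map is locally invertible off the axes
-/

set_option autoImplicit false

open Topology Filter Metric MvPolynomial

noncomputable section

namespace Pool.Agent.MQ3

open Pool.Agent.H36.BP (EN)
open Pool.Agent.H17EF (coneE)

/-- a map with nonzero Jacobian has a local inverse -/
theorem loc_inv {κ : ℂ × ℂ → ℂ × ℂ} {q : ℂ × ℂ} (hκ : AnalyticAt ℂ κ q)
    (h : (fderiv ℂ κ q (1, 0)).1 * (fderiv ℂ κ q (0, 1)).2 - (fderiv ℂ κ q (1, 0)).2 * (fderiv ℂ κ q (0, 1)).1 ≠ 0) :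
    ∃ ψ : ℂ × ℂ → ℂ × ℂ, AnalyticAt ℂ ψ (κ q) ∧ ψ (κ q) = q ∧ (∀ᶠ p in 𝓝 (κ q), κ (ψ p) = p) ∧ ∀ᶠ x in 𝓝 q, ψ (κ x) = x := by
  have hinj : Function.Injective (fderiv ℂ κ q : (ℂ × ℂ) →ₗ[ℂ] (ℂ × ℂ)) := by
    rw [← LinearMap.ker_eq_bot, LinearMap.ker_eq_bot']
    intro v hv
    have e : v = v.1 • ((1 : ℂ), (0 : ℂ)) + v.2 • ((0 : ℂ), (1 : ℂ)) := by
      refine Prod.ext ?_ ?_ <;> simp
    have h1 : v.1 • fderiv ℂ κ q (1, 0) + v.2 • fderiv ℂ κ q (0, 1) = 0 := by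
      rw [← map_smul, ← map_smul, ← map_add, ← e]
      exact hv
    have h2 : v.1 * (fderiv ℂ κ q (1, 0)).1 + v.2 * (fderiv ℂ κ q (0, 1)).1 = 0 := congrArg Prod.fst h1
    have h3 : v.1 * (fderiv ℂ κ q (1, 0)).2 + v.2 * (fderiv ℂ κ q (0, 1)).2 = 0 := congrArg Prod.snd h1
    refine Prod.ext ?_ ?_
    · exact (mul_eq_zero.1 (show v.1 * ((fderiv ℂ κ q (1, 0)).1 * (fderiv ℂ κ q (0, 1)).2 -
        (fderiv ℂ κ q (1, 0)).2 * (fderiv ℂ κ q (0, 1)).1) = 0 by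
          linear_combination (fderiv ℂ κ q (0, 1)).2 * h2 - (fderiv ℂ κ q (0, 1)).1 * h3)).resolve_right h
    · exact (mul_eq_zero.1 (show v.2 * ((fderiv ℂ κ q (1, 0)).1 * (fderiv ℂ κ q (0, 1)).2 -
        (fderiv ℂ κ q (1, 0)).2 * (fderiv ℂ κ q (0, 1)).1) = 0 by
          linear_combination (fderiv ℂ κ q (1, 0)).1 * h3 - (fderiv ℂ κ q (1, 0)).2 * h2)).resolve_right h
  obtain ⟨i, hi⟩ : ∃ i : (ℂ × ℂ) ≃L[ℂ] (ℂ × ℂ), (i : (ℂ × ℂ) →L[ℂ] (ℂ × ℂ)) = fderiv ℂ κ q :=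
    ⟨(LinearEquiv.ofInjectiveEndo (fderiv ℂ κ q : (ℂ × ℂ) →ₗ[ℂ] (ℂ × ℂ)) hinj).toContinuousLinearEquiv, by
      apply ContinuousLinearMap.ext
      intro x
      rfl⟩
  have hd : HasFDerivAt κ (i : (ℂ × ℂ) →L[ℂ] (ℂ × ℂ)) q := by
    rw [hi]
    exact hκ.differentiableAt.hasFDerivAt
  have hs : HasStrictFDerivAt κ (i : (ℂ × ℂ) →L[ℂ] (ℂ × ℂ)) q := hκ.hasStrictFDerivAt.congr_fderiv hd.fderiv
  have hsrc := hs.mem_toOpenPartialHomeomorph_source
  have hco := hs.toOpenPartialHomeomorph_coe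
  refine ⟨(hs.toOpenPartialHomeomorph κ).symm, ?_, ?_, ?_, ?_⟩
  · have h1 : AnalyticAt ℂ (hs.toOpenPartialHomeomorph κ).symm (hs.toOpenPartialHomeomorph κ q) := by
      refine OpenPartialHomeomorph.analyticAt_symm' (i := i) _ hsrc ?_ ?_
      · rw [hco]
        exact hκ
      · rw [hco]
        exact hd.fderiv
    rwa [hco] at h1
  · have h1 := (hs.toOpenPartialHomeomorph κ).left_inv hsrc
    rwa [hco] at h1
  · have h1 := (hs.toOpenPartialHomeomorph κ).eventually_right_inverse ((hs.toOpenPartialHomeomorph κ).map_source hsrc)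
    rwa [hco] at h1
  · have h1 := (hs.toOpenPartialHomeomorph κ).eventually_left_inverse hsrc
    rwa [hco] at h1

variable {M : ℕ} {P : Ideal (MvPolynomial (Fin (M + 1)) ℂ)} {RD : MvPolynomial (Fin (M + 1)) ℂ} {m : ℕ} {X : NCModel P RD} {θ : WDiff (coneE P) m}
  {l : LF M} {S : Web X θ l}

/-- off the axes the chart map is locally invertible -/
theorem fib_iso {k : S.ι} {q : ℂ × ℂ} (_hq : q ∈ S.D k) (h0 : q.1 * q.2 ≠ 0) : ∃ ψ : ℂ × ℂ → ℂ × ℂ, AnalyticAt ℂ ψ (S.κ k q) ∧ ψ (S.κ k q) = q ∧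
    (∀ᶠ p in 𝓝 (S.κ k q), S.κ k (ψ p) = p) ∧ ∀ᶠ x in 𝓝 q, ψ (S.κ k x) = x :=
  loc_inv (κ := S.κ k) (analyticAt_mono q) (jac_mono_ne (S.c k).pos.ne' h0)

end Pool.Agent.MQ3

end
end

section

/-!
# MQ3 GInvNG: the forms `RD` and `Ra` in a chart

The zeros of `RD` are the axes; off the axes the map of the chart is a local isomorphism, so `RD Ra` is not identically zero near any point.
-/

set_option autoImplicit false

open Topology Filter Metric MvPolynomial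

noncomputable section

namespace Pool.Agent.MQ3

open Pool.Agent.H36.BP (EN)
open Pool.Agent.H17EF (coneE)

variable {M : ℕ} {P : Ideal (MvPolynomial (Fin (M + 1)) ℂ)} {RD : MvPolynomial (Fin (M + 1)) ℂ} {m : ℕ} {X : NCModel P RD} {θ : WDiff (coneE P) m}
  {l : LF M} {S : Web X θ l} {Ra : MvPolynomial (Fin (M + 1)) ℂ}

/-- off the axes the monomial map is open -/
theorem mono_map_nhds {w w' : ℕ × ℕ} (h : 0 < dt w w') {x : ℂ × ℂ} (hx : x.1 * x.2 ≠ 0) : map (mono w w') (𝓝 x) = 𝓝 (mono w w' x) := by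
  have h1 : HasStrictFDerivAt (mono w w') (fderiv ℂ (mono w w') x) x := (analyticAt_mono x).hasStrictFDerivAt
  have hJ : jc (mono w w') x ≠ 0 := by
    have e1 : mono w w' = mchart w.1 w'.1 w.2 w'.2 := rfl
    have e2 : w'.1 * w.2 < w.1 * w'.2 := by
      unfold dt at h
      have h3 : (w.2 : ℤ) * w'.1 < w.1 * w'.2 := by linarith
      have h4 : w.2 * w'.1 < w.1 * w'.2 := by exact_mod_cast h3
      rwa [mul_comm w.2] at h4
    unfold jc
    rw [e1, jac_mchart e2]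
    refine mul_ne_zero (mul_ne_zero ?_ (pow_ne_zero _ (left_ne_zero_of_mul hx))) (pow_ne_zero _ (right_ne_zero_of_mul hx))
    exact Nat.cast_ne_zero.2 (Nat.sub_ne_zero_of_lt e2)
  refine h1.map_nhds_eq_of_surj ?_
  rw [LinearMap.range_eq_top]
  intro y
  refine ⟨((y.1 * (fderiv ℂ (mono w w') x (0, 1)).2 - y.2 * (fderiv ℂ (mono w w') x (0, 1)).1) / jc (mono w w') x,
    (y.2 * (fderiv ℂ (mono w w') x (1, 0)).1 - y.1 * (fderiv ℂ (mono w w') x (1, 0)).2) / jc (mono w w') x), ?_⟩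
  show fderiv ℂ (mono w w') x _ = y
  rw [split_vec]
  ext
  · simp only [Prod.fst_add, Prod.smul_fst, smul_eq_mul]
    rw [div_mul_eq_mul_div, div_mul_eq_mul_div, ← add_div, div_eq_iff hJ]
    unfold jc
    ring
  · simp only [Prod.snd_add, Prod.smul_snd, smul_eq_mul]
    rw [div_mul_eq_mul_div, div_mul_eq_mul_div, ← add_div, div_eq_iff hJ]
    unfold jc
    ring

/-- a chart point -/
theorem gn_v_an {k : S.ι} {q : ℂ × ℂ} (hq : q ∈ S.D k) : AnalyticAt ℂ (S.v k) q := (S.c k).v_an q hq.1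

theorem gn_v_iso {k : S.ι} {q : ℂ × ℂ} (hq : q ∈ S.D k) : ∀ᶠ x in 𝓝 q, x ≠ q → S.v k x ≠ 0 := (S.c k).v_iso q hq.1

theorem gn_κ_an (k : S.ι) (q : ℂ × ℂ) : AnalyticAt ℂ (S.κ k) q := analyticAt_mono q

theorem gn_D_open (k : S.ι) : IsOpen (S.D k) :=
  isOpen_Dm.inter ((X.isOpen k.1).preimage (continuous_iff_continuousAt.2 fun q => (gn_κ_an k q).continuousAt))

theorem gn_σ_an {k : S.ι} {q : ℂ × ℂ} (hq : q ∈ S.D k) (Q : MvPolynomial (Fin (M + 1)) ℂ) : AnalyticAt ℂ (fun x => eval (S.σ k x).ofLp Q) q := by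
  have h1 : S.κ k q ∈ DD := X.sub k.1 hq.2
  have h2 : AnalyticAt ℂ (X.ρ k.1) (S.κ k q) := (X.box k.1).an _ h1.1.le h1.2.le
  exact analyticAt_evalE (AnalyticAt.comp (g := X.ρ k.1) (f := S.κ k) h2 (gn_κ_an k q)) Q

theorem gn_freq (hRa : RNe X Ra) {k : S.ι} {q : ℂ × ℂ} (hq : q ∈ S.D k) : ∃ᶠ x in 𝓝 q, eval (S.σ k x).ofLp Ra ≠ 0 ∧ eval (S.σ k x).ofLp (RD * Ra) ≠ 0 := by
  intro hcon
  have hm : ∀ᶠ x in 𝓝 q, x ∈ S.D k := (gn_D_open k).mem_nhds hq
  obtain ⟨x, hx0, hxD, hx⟩ := ((freq_off q).and_eventually (hm.and (eventually_eventually_nhds.2 hcon))).exists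
  have hx1 : S.κ k x ∈ DD := X.sub k.1 hxD.2
  apply hRa k.1 (S.κ k x) hx1
  have h1 : ∀ᶠ y in 𝓝 x, ¬ eval (X.ρ k.1 (S.κ k y)).ofLp Ra ≠ 0 := by
    have h2 : ∀ᶠ y : ℂ × ℂ in 𝓝 x, y.1 * y.2 ≠ 0 := (continuous_fst.mul continuous_snd).continuousAt.eventually_ne hx0
    filter_upwards [h2, hx, (gn_D_open k).mem_nhds hxD] with y y1 y2 y3 y4
    apply y2
    refine ⟨y4, ?_⟩
    rw [map_mul]
    exact mul_ne_zero (X.good k.1 _ (mono_mem_DS y3.1 y1)) y4
  have h3 := mono_map_nhds (S.c k).pos hx0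
  have h4 : ∀ᶠ p in map (mono (S.c k).w (S.c k).w') (𝓝 x), ¬ eval (X.ρ k.1 p).ofLp Ra ≠ 0 := eventually_map.2 h1
  rw [h3] at h4
  exact h4

end Pool.Agent.MQ3

end
end

section

/-!
# MQ3 LocU: a reduced equation of the curve `{Ra = 0}` in a box, from a regular chart point of the second type

`u = G ∘ ψ`, `ψ` a local inverse of the map of the chart to its box.
-/

set_option autoImplicit false

open Topology Filter Metric MvPolynomial

noncomputable section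

namespace Pool.Agent.MQ3

open Pool.Agent.H36.BP (EN fs)
open Pool.Agent.H17EF (projVar coneE)

variable {M : ℕ} {P : Ideal (MvPolynomial (Fin (M + 1)) ℂ)} {RD : MvPolynomial (Fin (M + 1)) ℂ} {m : ℕ} {X : NCModel P RD} {θ : WDiff (coneE P) m}
  {l : LF M} {S : Web X θ l} {Ra : MvPolynomial (Fin (M + 1)) ℂ}

theorem locU_of {κ ψ : ℂ × ℂ → ℂ × ℂ} {G e : ℂ × ℂ → ℂ} {q : ℂ × ℂ} (hψ : AnalyticAt ℂ ψ (κ q)) (hψq : ψ (κ q) = q) (h1 : ∀ᶠ p in 𝓝 (κ q), κ (ψ p) = p)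
    (h2 : ∀ᶠ x in 𝓝 q, ψ (κ x) = x) (hκ : AnalyticAt ℂ κ q) (hG : AnalyticAt ℂ G q) (hG' : fderiv ℂ G q ≠ 0) (he : ∀ᶠ x in 𝓝 q, e (κ x) = 0 ↔ G x = 0) :
    ∃ u : ℂ × ℂ → ℂ, AnalyticAt ℂ u (κ q) ∧ ∀ᶠ p in 𝓝 (κ q), (e p = 0 ↔ u p = 0) ∧ (u p = 0 → fderiv ℂ u p ≠ 0) := by
  have hψt : Tendsto ψ (𝓝 (κ q)) (𝓝 q) := by
    have h3 := hψ.continuousAt.tendsto
    rwa [hψq] at h3
  have hGa : AnalyticAt ℂ G (ψ (κ q)) := by rwa [hψq]
  refine ⟨fun p => G (ψ p), AnalyticAt.comp (g := G) (f := ψ) hGa hψ, ?_⟩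
  have hGn : ∀ᶠ x in 𝓝 q, fderiv ℂ G x ≠ 0 := hG.fderiv.continuousAt.eventually_ne hG'
  filter_upwards [h1, hψt.eventually he, hψt.eventually hGn, hψt.eventually h2.eventually_nhds, hψ.eventually_analyticAt, hψt.eventually hκ.eventually_analyticAt,
    hψt.eventually hG.eventually_analyticAt] with p hp hp1 hp2 hp3 hp4 hp5 hp6
  rw [hp] at hp1
  refine ⟨hp1, fun _ h0 => hp2 ?_⟩
  have h3 : fderiv ℂ (fun p => G (ψ p)) p = (fderiv ℂ G (ψ p)).comp (fderiv ℂ ψ p) := fderiv_comp p hp6.differentiableAt hp4.differentiableAt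
  have h4 : (fderiv ℂ ψ p).comp (fderiv ℂ κ (ψ p)) = ContinuousLinearMap.id ℂ (ℂ × ℂ) := by
    have h5 : HasFDerivAt (fun x => ψ (κ x)) ((fderiv ℂ ψ p).comp (fderiv ℂ κ (ψ p))) (ψ p) := by
      have h6 : HasFDerivAt ψ (fderiv ℂ ψ p) (κ (ψ p)) := by
        rw [hp]
        exact hp4.differentiableAt.hasFDerivAt
      exact HasFDerivAt.comp (g := ψ) (f := κ) (ψ p) h6 hp5.differentiableAt.hasFDerivAt
    exact h5.unique ((hasFDerivAt_id (ψ p)).congr_of_eventuallyEq hp3)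
  have h5 : ((fderiv ℂ G (ψ p)).comp (fderiv ℂ ψ p)).comp (fderiv ℂ κ (ψ p)) = fderiv ℂ G (ψ p) := by
    rw [ContinuousLinearMap.comp_assoc, h4, ContinuousLinearMap.comp_id]
  rw [← h3, h0, ContinuousLinearMap.zero_comp] at h5
  exact h5.symm

/-- the map of a chart to its box is analytic -/
theorem κ_analyticAt (k : S.ι) (q : ℂ × ℂ) : AnalyticAt ℂ (S.κ k) q := by
  show AnalyticAt ℂ (mono (S.c k).w (S.c k).w') q
  exact ((analyticAt_fst.pow _).mul (analyticAt_snd.pow _)).prod ((analyticAt_fst.pow _).mul (analyticAt_snd.pow _))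

/-- **LocU**, from the local inverse of `fib_iso`: `locU_of_fib h (fib_iso h.mem h.ne)`. -/
theorem locU_of_fib {k : S.ι} {q : ℂ × ℂ} (h : RegB S Ra k q)
    (hfib : ∃ ψ : ℂ × ℂ → ℂ × ℂ, AnalyticAt ℂ ψ (S.κ k q) ∧ ψ (S.κ k q) = q ∧ (∀ᶠ p in 𝓝 (S.κ k q), S.κ k (ψ p) = p) ∧ ∀ᶠ x in 𝓝 q, ψ (S.κ k x) = x) :
    ∃ u : ℂ × ℂ → ℂ, AnalyticAt ℂ u (S.κ k q) ∧ ∀ᶠ p in 𝓝 (S.κ k q), (eval (X.ρ k.1 p).ofLp Ra = 0 ↔ u p = 0) ∧ (u p = 0 → fderiv ℂ u p ≠ 0) := by
  obtain ⟨ψ, h1, h2, h3, h4⟩ := hfib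
  obtain ⟨G, h5, -, h6, h7, -⟩ := h.crv
  exact locU_of (e := fun p => eval (X.ρ k.1 p).ofLp Ra) h1 h2 h3 h4 (κ_analyticAt k q) h5 h6 h7

end Pool.Agent.MQ3

end
end
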