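import Pool.Agent.H94.G6.M102
import Pool.Agent.H94.G6.M105
import Pool.Agent.H94.G6.M109
import Pool.Agent.H94.G6.M110
import Pool.Agent.H94.G6.M112

/-! The parts of this file: H62.Qe.Dom, H23.GU.Down, SG.BubB. -/

section

/-!
# Qe Dom: the forms which define a regular map (adapted from `Pool.Agent.H62.Et.Dom`)
-/

set_option autoImplicit false

open Topology Filter MvPolynomial

noncomputable section

namespace Pool.Agent.H62.Qe

open Pool.Agent.H17 (PN VanishesAt HolomorphicInto)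
open Pool.Agent.H62.FC (Homog)
open Pool.Agent.H17EF (projVar)
open Pool.Agent.H62.EF (MN)
open Pool.Agent.H62.Et (pn pn_mk pn_injective pn_near pn_continuousAt pn_continuous isCompact_pn)
open Pool.Agent.H17LG.Variety (FunField)
open Pool.Agent.H17 (vanishesAt_mk_iff)
open Pool.Agent.H7.Bir (vals rmap)

variable {N M : ℕ} {P : Ideal (MvPolynomial (Fin (N + 1)) ℂ)} {P' : Ideal (MvPolynomial (Fin (M + 1)) ℂ)} {p : PN M → PN N}

private theorem Dom_aeval_homog {γ : Fin (N + 1) → MvPolynomial (Fin (M + 1)) ℂ} {D : ℕ} (hγ : ∀ i, (γ i).IsHomogeneous D) {n : ℕ}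
    {Q : MvPolynomial (Fin (N + 1)) ℂ} (hQ : Q.IsHomogeneous n) : (aeval γ Q).IsHomogeneous (D * n) :=
  hQ.aeval _ hγ

private theorem Dom_smul {n : ℕ} {Q : MvPolynomial (Fin (N + 1)) ℂ} (hQ : Q.IsHomogeneous n) (c : ℂ) (x : Fin (N + 1) → ℂ) :
    eval (c • x) Q = c ^ n * eval x Q :=
  Pool.Agent.H17BP.eval_smul_form hQ c x

/-- two systems of forms which represent `p` are proportional at every point -/
private theorem Dom_prop {γ γ' : Fin (N + 1) → MvPolynomial (Fin (M + 1)) ℂ}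
    (hrep : ∀ y ∈ projVar P', vals γ y.rep ≠ 0 → p y = rmap γ y) (hrep' : ∀ y ∈ projVar P', vals γ' y.rep ≠ 0 → p y = rmap γ' y)
    {y : PN M} (hy : y ∈ projVar P') (i j : Fin (N + 1)) :
    eval y.rep (γ i) * eval y.rep (γ' j) = eval y.rep (γ j) * eval y.rep (γ' i) := by
  by_cases h1 : vals γ y.rep = 0
  · have h2 : ∀ i, eval y.rep (γ i) = 0 := fun i => congrFun h1 i
    rw [h2 i, h2 j]
    ring
  by_cases h3 : vals γ' y.rep = 0
  · have h2 : ∀ i, eval y.rep (γ' i) = 0 := fun i => congrFun h3 i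
    rw [h2 i, h2 j]
    ring
  have h4 : rmap γ y = rmap γ' y := by
    rw [← hrep y hy h1, ← hrep' y hy h3]
  unfold Pool.Agent.H7.Bir.rmap at h4
  rw [dif_pos h1, dif_pos h3, Projectivization.mk_eq_mk_iff'] at h4
  obtain ⟨a, ha⟩ := h4
  have h5 : ∀ i, eval y.rep (γ i) = a * eval y.rep (γ' i) := fun i => (congrFun ha i).symm
  rw [h5 i, h5 j]
  ring

/-- forms which represent `p` near some point define a dominant rational map -/
theorem dominant [P.IsPrime] [P'.IsPrime] (hP : Homog P) (hP' : Homog P') (hX : ∃ i, (X i : MvPolynomial (Fin (N + 1)) ℂ) ∉ P)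
    (hp : IsReg P P' p) {D : ℕ} {γ : Fin (N + 1) → MvPolynomial (Fin (M + 1)) ℂ} (hγ : ∀ i, (γ i).IsHomogeneous D)
    (hrep : ∀ y ∈ projVar P', vals γ y.rep ≠ 0 → p y = rmap γ y) (hne : ∃ y ∈ projVar P', vals γ y.rep ≠ 0) (n : ℕ)
    (Q : MvPolynomial (Fin (N + 1)) ℂ) (hQ : Q.IsHomogeneous n) : aeval γ Q ∈ P' ↔ Q ∈ P := by
  obtain ⟨y₀, hy₀, hne⟩ := hne
  have hX' := Pool.Agent.H17EF.exists_coord hy₀
  constructor
  · intro h
    by_contra hQP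
    obtain ⟨x, hx, hxQ⟩ := Pool.Agent.H17EF.exists_point hP hX hQP hQ
    obtain ⟨y', hy', rfl⟩ := hp.surj x hx
    obtain ⟨D', γ', hγ', hne', hrep'⟩ := hp.regular y' hy'
    obtain ⟨j, hj⟩ : ∃ j, eval y₀.rep (γ j) ≠ 0 := by
      by_contra hcon
      push Not at hcon
      exact hne (funext hcon)
    have hjP : γ j ∉ P' := fun h1 => hj (hy₀ _ h1 D (hγ j))
    have hmem : γ j ^ n * aeval γ' Q ∈ P' := by
      by_contra h1
      have h2 : (γ j ^ n * aeval γ' Q).IsHomogeneous (D * n + D' * n) := ((hγ j).pow n).mul (Dom_aeval_homog hγ' hQ)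
      obtain ⟨y, hy, hyn⟩ := Pool.Agent.H17EF.exists_point hP' hX' h1 h2
      apply hyn
      have h3 : eval y.rep (aeval γ Q) = 0 := hy _ h _ (Dom_aeval_homog hγ hQ)
      unfold VanishesAt
      rw [map_mul, map_pow, Pool.Agent.H7.Bir.eval_comp, ← Dom_smul hQ]
      have h4 : eval y.rep (γ j) • vals γ' y.rep = eval y.rep (γ' j) • vals γ y.rep := by
        funext i
        have h5 := Dom_prop hrep hrep' hy j i
        change eval y.rep (γ j) * eval y.rep (γ' i) = eval y.rep (γ' j) * eval y.rep (γ i)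
        rw [h5, mul_comm]
      rw [h4, Dom_smul hQ, ← Pool.Agent.H7.Bir.eval_comp, h3, mul_zero]
    rcases Ideal.IsPrime.mem_or_mem inferInstance hmem with h1 | h1
    · exact hjP (Ideal.IsPrime.mem_of_pow_mem inferInstance n h1)
    · apply hxQ
      rw [hrep' y' hy' hne', Pool.Agent.H7.Bir.vanishesAt_rmap hne' hQ]
      exact hy' _ h1 _ (Dom_aeval_homog hγ' hQ)
  · intro h
    by_contra hcon
    obtain ⟨y, hy, hyn⟩ := Pool.Agent.H17EF.exists_point hP' hX' hcon (Dom_aeval_homog hγ hQ)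
    apply hyn
    by_cases h1 : vals γ y.rep = 0
    · unfold VanishesAt
      rw [Pool.Agent.H7.Bir.eval_comp, h1]
      have h2 : eval (p y).rep Q = 0 := hp.maps y hy Q h n hQ
      have h3 := Dom_smul hQ 0 (p y).rep
      rw [zero_smul, h2, mul_zero] at h3
      exact h3
    · rw [← Pool.Agent.H7.Bir.vanishesAt_rmap h1 hQ, ← hrep y hy h1]
      exact hp.maps y hy Q h n hQ

/-- finitely many systems of forms represent `p` -/
theorem exists_cover (hP' : Homog P') (hp : IsReg P P' p) : ∃ (n : ℕ) (D : Fin n → ℕ) (γ : Fin n → Fin (N + 1) → MvPolynomial (Fin (M + 1)) ℂ),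
    (∀ k i, (γ k i).IsHomogeneous (D k)) ∧ (∀ k, ∃ y ∈ projVar P', vals (γ k) y.rep ≠ 0) ∧
    (∀ k, ∀ y ∈ projVar P', vals (γ k) y.rep ≠ 0 → p y = rmap (γ k) y) ∧ ∀ y ∈ projVar P', ∃ k, vals (γ k) y.rep ≠ 0 := by
  have hloc : ∀ m ∈ pn '' projVar P', ∃ (D : ℕ) (γ : Fin (N + 1) → MvPolynomial (Fin (M + 1)) ℂ) (δ : ℝ), (∀ i, (γ i).IsHomogeneous D) ∧
      (∃ y ∈ projVar P', vals γ y.rep ≠ 0) ∧ (∀ y ∈ projVar P', vals γ y.rep ≠ 0 → p y = rmap γ y) ∧ 0 < δ ∧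
      ∀ y : PN M, dist (pn y) m < δ → vals γ y.rep ≠ 0 := by
    rintro _ ⟨y, hy, rfl⟩
    obtain ⟨D, γ, hγ, hne, hrep⟩ := hp.regular y hy
    have hU : {x : Fin (M + 1) → ℂ | vals γ x ≠ 0} ∈ 𝓝 y.rep := by
      have hc : Continuous (vals γ) := continuous_pi fun i => MvPolynomial.continuous_eval (γ i)
      exact (isOpen_ne.preimage hc).mem_nhds hne
    obtain ⟨δ, hδ, hnear⟩ := pn_near y.rep_nonzero hU
    refine ⟨D, γ, δ, hγ, ⟨y, hy, hne⟩, hrep, hδ, fun y' hy' => ?_⟩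
    have hmk : Projectivization.mk ℂ y.rep y.rep_nonzero = y := Projectivization.mk_rep y
    obtain ⟨x', hx', hx0, rfl⟩ := hnear y' (by rw [hmk]; exact hy')
    obtain ⟨a, ha⟩ := Projectivization.exists_smul_eq_mk_rep ℂ x' hx0
    have h1 : (Projectivization.mk ℂ x' hx0).rep = (a : ℂ) • x' := ha.symm
    rw [h1, Pool.Agent.H7.Bir.vals_smul hγ]
    exact smul_ne_zero (pow_ne_zero _ a.ne_zero) hx'
  choose! D γ δ h1 h2 h3 h4 h5 using hloc
  obtain ⟨t, ht, hcov⟩ := (isCompact_pn hP').elim_nhds_subcover (fun m => Metric.ball m (δ m)) fun m hm => Metric.ball_mem_nhds m (h4 m hm)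
  refine ⟨t.card, fun k => D (t.equivFin.symm k : MN M), fun k => γ (t.equivFin.symm k : MN M), fun k i => h1 _ (ht _ (t.equivFin.symm k).2) i,
    fun k => h2 _ (ht _ (t.equivFin.symm k).2), fun k => h3 _ (ht _ (t.equivFin.symm k).2), fun y hy => ?_⟩
  have h6 := hcov (Set.mem_image_of_mem pn hy)
  rw [Set.mem_iUnion₂] at h6
  obtain ⟨m, hm, hmy⟩ := h6
  refine ⟨t.equivFin ⟨m, hm⟩, ?_⟩
  change vals (γ (t.equivFin.symm (t.equivFin ⟨m, hm⟩) : MN M)) y.rep ≠ 0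
  rw [Equiv.symm_apply_apply]
  exact h5 m (ht m hm) y hmy

/-- The forms with `T (x) = 0` for all `x = p y` with `R' (y) = 0`. -/
theorem exists_image_form {P : Ideal (MvPolynomial (Fin (N + 1)) ℂ)} [P.IsPrime] {P' : Ideal (MvPolynomial (Fin (M + 1)) ℂ)} [P'.IsPrime]
    (hP : Homog P) (hP' : Homog P') (hX : ∃ i, (X i : MvPolynomial (Fin (N + 1)) ℂ) ∉ P) (hz : ∃ z : Fin 2 → FunField P, IsTranscendenceBasis ℂ z)
    (hz' : ∃ z' : Fin 2 → FunField P', IsTranscendenceBasis ℂ z') {p : PN M → PN N} (hp : IsReg P P' p) {n' : ℕ}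
    {R' : MvPolynomial (Fin (M + 1)) ℂ} (hR' : R'.IsHomogeneous n') (hRP' : R' ∉ P') :
    ∃ (T : MvPolynomial (Fin (N + 1)) ℂ) (n : ℕ), T.IsHomogeneous n ∧ T ∉ P ∧ ∀ y ∈ projVar P', VanishesAt R' y → VanishesAt T (p y) := by
  classical
  obtain ⟨n, D, γ, hγ, hγne, hrep, hcov⟩ := exists_cover hP' hp
  choose R m hR hRP hRev using fun k => Pool.Agent.H19OL.exists_norm_form hz hz' (hγ k)
    (dominant hP hP' hX hp (hγ k) (hrep k) (hγne k)) hR' hRP'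
  refine ⟨∏ k, R k, ∑ k, m k, MvPolynomial.IsHomogeneous.prod _ _ _ fun k _ => hR k, ?_, ?_⟩
  · intro h
    obtain ⟨k, -, hk⟩ := ((inferInstance : P.IsPrime).prod_mem_iff).1 h
    exact hRP k hk
  · intro y hy hyR
    obtain ⟨k, hk⟩ := hcov y hy
    have h1 : VanishesAt (R k) (p y) := by
      rw [hrep k y hy hk]
      unfold Pool.Agent.H7.Bir.rmap
      rw [dif_pos hk, vanishesAt_mk_iff (hR k)]
      refine hRev k y.rep y.rep_nonzero (fun Q hQ => ?_) hyR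
      rw [← MvPolynomial.sum_homogeneousComponent Q, map_sum]
      exact Finset.sum_eq_zero fun i _ => hy _ (hP' Q hQ i) i (homogeneousComponent_isHomogeneous i Q)
    unfold VanishesAt at h1 ⊢
    rw [map_prod]
    exact Finset.prod_eq_zero (Finset.mem_univ k) h1

end Pool.Agent.H62.Qe

end
end

section

/-!
# GU Down: the properties `GGLC` descend along finite étale coverings of projective varieties; varieties which virtually dominate `X`

`gglc_down`: let `X' → X` be a finite étale covering of projective varieties, `X` of general type.  If `X'` has the properties `GGLC` (with an exceptional set),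
then so has `X`.
`gglc_virtual`: let `Y` be a projective variety of general type with a finite étale covering `Y' → Y` such that `Y'` has the dimension of `X` and a dominant rational map
to `X`.  If `X` has the properties `GGLC` then so has `Y`.
-/

set_option autoImplicit false

open Topology Filter MvPolynomial

noncomputable section

namespace Pool.Agent.H23.GU

open Pool.Agent.H17 (PN VanishesAt HolomorphicInto puncturedDisc vanishesAt_mk_iff ZariskiClosedIn)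
open Pool.Agent.H17LG.Variety (FunField IsLogGeneralType)
open Pool.Agent.H62.FC (Homog)
open Pool.Agent.H62.SA (locVar)
open Pool.Agent.H62.Qe (IsReg IsEtaleOver exists_cover dominant)
open Pool.Agent.H17EF (projVar)
open Pool.Agent.H7.Bir (vals rmap)

variable {N M L : ℕ}

variable {P : Ideal (MvPolynomial (Fin (N + 1)) ℂ)} {P' : Ideal (MvPolynomial (Fin (M + 1)) ℂ)} {p : PN M → PN N}

/-- The image of a hypersurface lies in a hypersurface. -/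
theorem exists_image_form [P.IsPrime] [P'.IsPrime] (hP : Homog P) (hP' : Homog P') (hX : ∃ i, (X i : MvPolynomial (Fin (N + 1)) ℂ) ∉ P) {k : ℕ}
    (hz : ∃ z : Fin (k + 1) → FunField P, IsTranscendenceBasis ℂ z)
    (hz' : ∃ z' : Fin (k + 1) → FunField P', IsTranscendenceBasis ℂ z') (hp : IsReg P P' p) {n' : ℕ}
    {R' : MvPolynomial (Fin (M + 1)) ℂ} (hR' : R'.IsHomogeneous n') (hRP' : R' ∉ P') :
    ∃ (T : MvPolynomial (Fin (N + 1)) ℂ) (n : ℕ), T.IsHomogeneous n ∧ T ∉ P ∧ ∀ y ∈ projVar P', VanishesAt R' y → VanishesAt T (p y) := by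
  classical
  obtain ⟨n, D, γ, hγ, hγne, hrep, hcov⟩ := exists_cover hP' hp
  choose R m hR hRP hRev using fun k => Pool.Agent.H19OL.exists_norm_form hz hz' (hγ k)
    (dominant hP hP' hX hp (hγ k) (hrep k) (hγne k)) hR' hRP'
  refine ⟨∏ k, R k, ∑ k, m k, MvPolynomial.IsHomogeneous.prod _ _ _ fun k _ => hR k, ?_, ?_⟩
  · intro h
    obtain ⟨k, -, hk⟩ := ((inferInstance : P.IsPrime).prod_mem_iff).1 h
    exact hRP k hk
  · intro y hy hyR
    obtain ⟨k, hk⟩ := hcov y hy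
    have h1 : VanishesAt (R k) (p y) := by
      rw [hrep k y hy hk]
      unfold Pool.Agent.H7.Bir.rmap
      rw [dif_pos hk, vanishesAt_mk_iff (hR k)]
      refine hRev k y.rep y.rep_nonzero (fun Q hQ => ?_) hyR
      rw [← MvPolynomial.sum_homogeneousComponent Q, map_sum]
      exact Finset.sum_eq_zero fun i _ => hy _ (hP' Q hQ i) i (homogeneousComponent_isHomogeneous i Q)
    unfold VanishesAt at h1 ⊢
    rw [map_prod]
    exact Finset.prod_eq_zero (Finset.mem_univ k) h1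

end Pool.Agent.H23.GU

end
end

section

/-!
# SG BubB: the hypotheses of the core theorem at a bubble

`bub_data`: `Φ n → z ^ M • G z` near `0`, entire curves in `X`; `U n z = g (Φ n) z * pn (Φ n z) ^ (-(θ j / (m D₁)))` satisfies the maximum
principle (`maxU`, with the local bound `bound_near` of the energy) and the two-sided bound in the sector, in which the coefficient of the form is
replaced by `s ^ μ`.
-/

set_option autoImplicit false

open Topology Filter Metric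

noncomputable section

namespace Pool.Agent.SG

open Pool.Agent.H36.BP (EN)
open Pool.Agent.H36.TB (EnergyB oC sm)
open Pool.Agent.H14.PP (IsCone)
open Pool.Agent.H17BP (Surface IsChart IsForm)
open Pool.Agent.H74.NB (CC Obj)
open Pool.Agent.UC (RatC)
open Pool.Agent.SY (Ent Energy bound_near_obj)
open Pool.Agent.H90.SG (TBSec)

variable {N : ℕ} {X T : Set (EN N)}

/-- the coefficient of the form in the sector, with exponents -/
theorem oC_rpow {m μ : ℕ} (hm : 1 ≤ m) {B s o : ℝ} (hs : 0 ≤ s) (ho : 0 ≤ o) (hB : 1 ≤ B) (h1 : s ^ μ ≤ B * o) (h2 : o ≤ B * s ^ μ) :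
    s ^ ((μ : ℝ) / m) ≤ B * o ^ (1 / (m : ℝ)) ∧ o ^ (1 / (m : ℝ)) ≤ B * s ^ ((μ : ℝ) / m) := by
  have hm0 : (0 : ℝ) < m := by exact_mod_cast hm
  have hm1 : (1 : ℝ) / m ≤ 1 := by
    rw [div_le_one hm0]
    exact_mod_cast hm
  have he : 0 ≤ (1 : ℝ) / m := by positivity
  have hB0 : 0 ≤ B := by linarith
  have hBp : B ^ (1 / (m : ℝ)) ≤ B := by
    have h3 := Real.rpow_le_rpow_of_exponent_le hB hm1
    rwa [Real.rpow_one] at h3
  have hsm : s ^ ((μ : ℝ) / m) = (s ^ μ) ^ (1 / (m : ℝ)) := by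
    rw [← Real.rpow_natCast, ← Real.rpow_mul hs]
    congr 1
    ring
  rw [hsm]
  constructor
  · refine (Real.rpow_le_rpow (by positivity) h1 he).trans ?_
    rw [Real.mul_rpow hB0 ho]
    exact mul_le_mul_of_nonneg_right hBp (Real.rpow_nonneg ho _)
  · refine (Real.rpow_le_rpow ho h2 he).trans ?_
    rw [Real.mul_rpow hB0 (by positivity)]
    exact mul_le_mul_of_nonneg_right hBp (Real.rpow_nonneg (by positivity) _)

/-- **The hypotheses of the core theorem.** -/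
theorem bub_data {m j : ℕ} {Ω : EN N → EN N → EN N → ℂ} {rho : EN N → ℝ} {ME : ℕ} {c₀ C θ k : ℝ} {g : (ℂ → EN N) → ℂ → ℝ} {pn : EN N → ℝ}
    {D₁ : ℕ} (hc : IsCone X) (hX : Surface X) (hΩ : IsForm X m j Ω) (hm : 1 ≤ m) (hj : 1 ≤ j) (hTs : ∀ x ∈ T, ∀ c : ℂ, c ≠ 0 → c • x ∈ T)
    (hθ : 0 < θ) (hθ1 : θ < 1)
    (E : EnergyB X T m j Ω (fun x => ‖x‖) rho ME c₀ C g pn D₁ θ) {σ : ℂ × ℂ → EN N} {τ : EN N → ℂ × ℂ}
    (hσ : IsChart X σ τ) (ht : TBSec X T m j Ω θ k σ τ g pn D₁)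
    {𝒰 : Ultrafilter ℕ} {Φ : ℕ → ℂ → EN N} {G : ℂ → EN N} {r : ℝ} {M : ℕ} (hobj : Obj 𝒰 Φ 0 M G r)
    (hΦ : ∀ᶠ n in (𝒰 : Filter ℕ), Ent X T (Φ n)) (hrat : ∀ (d : ℕ) (K K' : ℂ → EN N), 1 ≤ d → d ≤ M → RatC X d K K' → ∀ z, K z ∈ T)
    {μ : ℕ} (hord : ∃ B : ℝ, 1 ≤ B ∧ ∀ᶠ p in 𝓝 (0 : ℂ × ℂ), ‖p.1‖ ^ μ ≤ B * ‖oC Ω σ (p.1, p.1 * p.2)‖ ∧
      ‖oC Ω σ (p.1, p.1 * p.2)‖ ≤ B * ‖p.1‖ ^ μ) :
    ∃ (U : ℕ → ℂ → ℝ) (r₁ C₁ ε B : ℝ), 0 < r₁ ∧ r₁ ≤ r ∧ 0 < C₁ ∧ 0 < ε ∧ 1 ≤ B ∧ (∀ᶠ n in (𝒰 : Filter ℕ), ∀ z, 0 ≤ U n z) ∧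
      (∀ᶠ n in (𝒰 : Filter ℕ), ∀ (w : ℂ) (ρ : ℝ), 0 < ρ → closedBall w ρ ⊆ ball 0 r₁ → ∀ z ∈ closedBall w ρ,
        ∃ y ∈ sphere w ρ, U n z ≤ C₁ * U n y) ∧
      ∀ᶠ n in (𝒰 : Filter ℕ), ∀ (z c : ℂ), c ≠ 0 → ‖c⁻¹ • Φ n z - σ 0‖ < ε → (τ (c⁻¹ • Φ n z)).1 ≠ 0 →
        ‖(τ (c⁻¹ • Φ n z)).2‖ < ε * ‖(τ (c⁻¹ • Φ n z)).1‖ →
        DifferentiableAt ℂ (fun w => τ (c⁻¹ • Φ n w)) z ∧
        ‖(τ (c⁻¹ • Φ n z)).1‖ ^ (1 + (1 - θ) * j / (2 * m) + μ / m) *
          sm k ((τ (c⁻¹ • Φ n z)).1, (τ (c⁻¹ • Φ n z)).2 / (τ (c⁻¹ • Φ n z)).1)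
            (deriv (fun w => (τ (c⁻¹ • Φ n w)).1) z, deriv (fun w => (τ (c⁻¹ • Φ n w)).2 / (τ (c⁻¹ • Φ n w)).1) z) * ‖c‖ ^ (-(θ * j / m)) ≤
          B * U n z ∧
        U n z ≤ B * (‖(τ (c⁻¹ • Φ n z)).1‖ ^ (1 + (1 - θ) * j / (2 * m) + μ / m) *
          sm k ((τ (c⁻¹ • Φ n z)).1, (τ (c⁻¹ • Φ n z)).2 / (τ (c⁻¹ • Φ n z)).1)
            (deriv (fun w => (τ (c⁻¹ • Φ n w)).1) z, deriv (fun w => (τ (c⁻¹ • Φ n w)).2 / (τ (c⁻¹ • Φ n w)).1) z) * ‖c‖ ^ (-(θ * j / m))) := by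
  obtain ⟨r₁, A, hr₁, hr₁r, hA⟩ := bound_near_obj hc hTs E.toEnergy hΦ hobj (hΦ.mono fun n _ z _ => ⟨1, one_ne_zero, (one_smul _ _).symm⟩) hrat
  obtain ⟨ε₀, B₀, hε₀, hB₀, htb⟩ := ht
  obtain ⟨B₁, hB₁, hord⟩ := hord
  -- the neighbourhood of the sector
  obtain ⟨δ, hδ, hδ'⟩ := Metric.eventually_nhds_iff_ball.1 hord
  have hτ0 : τ (σ 0) = 0 := hσ.left.self_of_nhds
  have hτc : ∀ᶠ y in 𝓝 (σ 0), ‖(τ y).1‖ < δ := by
    have h1 : ContinuousAt (fun y => ‖(τ y).1‖) (σ 0) := (hσ.τ_an.continuousAt.fst).norm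
    have h2 : ‖(τ (σ 0)).1‖ < δ := by
      rw [hτ0]
      simpa using hδ
    exact h1.eventually_lt_const h2
  obtain ⟨ε₁, hε₁, hε₁'⟩ := Metric.eventually_nhds_iff_ball.1 hτc
  refine ⟨fun n z => g (Φ n) z * pn (Φ n z) ^ (-(θ * j / (m * D₁))), r₁, Real.exp (C * A ^ 2 * r₁ ^ 2), min ε₀ (min ε₁ δ), B₁ * B₀, hr₁, hr₁r,
    Real.exp_pos _, lt_min hε₀ (lt_min hε₁ hδ), ?_, ?_, ?_, ?_⟩
  · nlinarith
  · filter_upwards [hΦ] with n hn z
    exact mul_nonneg (E.nonneg _ hn z) (Real.rpow_nonneg (E.pn_nonneg _) _)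
  · filter_upwards [hΦ, hA] with n hn hAn w ρ hρ hsub z hz
    have hρr : ρ ≤ r₁ := by
      have h1 : w + ρ ∈ ball (0 : ℂ) r₁ := hsub (by rw [mem_closedBall, dist_eq_norm, add_sub_cancel_left, Complex.norm_real, Real.norm_of_nonneg hρ.le])
      have h2 : w - ρ ∈ ball (0 : ℂ) r₁ := hsub (by
        rw [mem_closedBall, dist_eq_norm, sub_sub_cancel_left, norm_neg, Complex.norm_real, Real.norm_of_nonneg hρ.le])
      rw [mem_ball_zero_iff] at h1 h2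
      have h3 : ‖(w + ρ) - (w - ρ)‖ ≤ ‖w + ρ‖ + ‖w - ρ‖ := norm_sub_le _ _
      have h4 : (w + ρ) - (w - ρ) = ((2 * ρ : ℝ) : ℂ) := by
        push_cast
        ring
      rw [h4, Complex.norm_real, Real.norm_of_nonneg (by positivity)] at h3
      linarith
    obtain ⟨y, hy, h1⟩ := maxU hX hΩ hm hj hθ hθ1 E hn (w := w) (R := ρ) (A := A)
      (fun x hx => hAn x (hsub (ball_subset_closedBall hx))) hρ le_rfl hz
    refine ⟨y, hy, h1.trans ?_⟩
    refine mul_le_mul_of_nonneg_right (Real.exp_le_exp.2 ?_) (mul_nonneg (E.nonneg _ hn y) (Real.rpow_nonneg (E.pn_nonneg _) _))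
    exact mul_le_mul_of_nonneg_left (pow_le_pow_left₀ hρ.le hρr 2) (mul_nonneg E.C_pos.le (sq_nonneg _))
  · filter_upwards [hΦ] with n hn z c hc0 h1 h2 h3
    have h1a : ‖c⁻¹ • Φ n z - σ 0‖ < ε₀ := h1.trans_le (min_le_left _ _)
    have h1b : ‖c⁻¹ • Φ n z - σ 0‖ < ε₁ := h1.trans_le ((min_le_right _ _).trans (min_le_left _ _))
    have hp0 : 0 < ‖(τ (c⁻¹ • Φ n z)).1‖ := norm_pos_iff.2 h2
    have h3a : ‖(τ (c⁻¹ • Φ n z)).2‖ < ε₀ * ‖(τ (c⁻¹ • Φ n z)).1‖ :=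
      h3.trans_le (mul_le_mul_of_nonneg_right (min_le_left _ _) hp0.le)
    have h3b : ‖(τ (c⁻¹ • Φ n z)).2‖ < δ * ‖(τ (c⁻¹ • Φ n z)).1‖ :=
      h3.trans_le (mul_le_mul_of_nonneg_right ((min_le_right _ _).trans (min_le_right _ _)) hp0.le)
    obtain ⟨g1, g2, g3⟩ := htb (Φ n) hn z c hc0 h1a h2 h3a
    have g4 : ‖(τ (c⁻¹ • Φ n z)).1‖ < δ := hε₁' _ (by rw [mem_ball, dist_eq_norm]; exact h1b)
    generalize hpdef : τ (c⁻¹ • Φ n z) = p at h2 hp0 h3b g2 g3 g4 ⊢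
    have g5 := hδ' (p.1, p.2 / p.1) (by
      rw [mem_ball_zero_iff, Prod.norm_def]
      refine max_lt g4 ?_
      rw [norm_div, div_lt_iff₀ hp0]
      exact h3b)
    have g6 : (p.1, p.1 * (p.2 / p.1)) = p := by
      rw [mul_div_cancel₀ _ h2]
    simp only [g6] at g5
    obtain ⟨g7, g8⟩ := oC_rpow hm (norm_nonneg p.1) (norm_nonneg _) hB₁ g5.1 g5.2
    have e1 : ‖p.1‖ ^ (1 + (1 - θ) * j / (2 * m) + (μ : ℝ) / m) = ‖p.1‖ ^ (1 + (1 - θ) * j / (2 * m)) * ‖p.1‖ ^ ((μ : ℝ) / m) :=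
      Real.rpow_add hp0 _ _
    rw [e1]
    have hx0 : 0 ≤ ‖p.1‖ ^ (1 + (1 - θ) * (j : ℝ) / (2 * m)) := Real.rpow_nonneg (norm_nonneg _) _
    have hy0 : 0 ≤ sm k (p.1, p.2 / p.1) (deriv (fun w => (τ (c⁻¹ • Φ n w)).1) z, deriv (fun w => (τ (c⁻¹ • Φ n w)).2 / (τ (c⁻¹ • Φ n w)).1) z) :=
      le_max_of_le_left (norm_nonneg _)
    have hz0 : 0 ≤ ‖c‖ ^ (-(θ * j / m)) := Real.rpow_nonneg (norm_nonneg _) _
    generalize ‖p.1‖ ^ (1 + (1 - θ) * (j : ℝ) / (2 * m)) = x at hx0 g2 g3 ⊢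
    generalize sm k (p.1, p.2 / p.1) (deriv (fun w => (τ (c⁻¹ • Φ n w)).1) z, deriv (fun w => (τ (c⁻¹ • Φ n w)).2 / (τ (c⁻¹ • Φ n w)).1) z) = y
      at hy0 g2 g3 ⊢
    generalize ‖c‖ ^ (-(θ * j / m)) = t at hz0 g2 g3 ⊢
    generalize ‖oC Ω σ p‖ ^ (1 / (m : ℝ)) = o at g7 g8 g2 g3
    generalize ‖p.1‖ ^ ((μ : ℝ) / m) = q at g7 g8 ⊢
    generalize g (Φ n) z * pn (Φ n z) ^ (-(θ * j / (m * D₁))) = V at g2 g3 ⊢
    refine ⟨g1, ?_, ?_⟩
    · calc x * q * y * t = q * (x * y * t) := by ring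
        _ ≤ (B₁ * o) * (x * y * t) := mul_le_mul_of_nonneg_right g7 (by positivity)
        _ = B₁ * (x * o * y * t) := by ring
        _ ≤ B₁ * (B₀ * V) := mul_le_mul_of_nonneg_left g2 (by linarith)
        _ = B₁ * B₀ * V := by ring
    · calc V ≤ B₀ * (x * o * y * t) := g3
        _ = B₀ * (o * (x * y * t)) := by ring
        _ ≤ B₀ * ((B₁ * q) * (x * y * t)) := by
            refine mul_le_mul_of_nonneg_left (mul_le_mul_of_nonneg_right g8 (by positivity)) (by linarith)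
        _ = B₁ * B₀ * (x * q * y * t) := by ring

end Pool.Agent.SG

end
end
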