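import Mathlib

/-! The parts of this file: EG.LE.Har, H17EF.Ord, H17GT.ModTRANS, H22.TB.OfSheets, H22.W.Pow, H23.NE.Lim3, H36.BPL.Start, H62.FC.CircuitDefs, H62.FC.Circuit, H62.FC.Lattice, H62.Qe.TopQ, H99.Cover.Basic, MQ.Ext, MQ.Ker, MQ.LeafDisc, MQ3.EnL, SG.Alg, SG.DuvZ, SG.LimC, SG.LimP, SG.RSyl, SG.Tot. -/

section

/-!
# EG LE Har: the Harnack inequality

Proof (helper41):
Let a = H c, Re a > 0.  phi z := (H z - a) / (H z + conj a) is holomorphic on the ball (Re (H z + conj a) > 0), maps it to the unit disc (‖w - a‖ < ‖w + conj a‖ for Re w, Re a > 0), phi c = 0.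
Schwarz lemma (Complex.norm_le_norm_of_mapsTo_ball_self / dist_le_mul_div_dist, applied on ball c r): ‖phi z‖ ≤ s := ‖z - c‖ / r < 1.
So ‖H z - a‖ ≤ s ‖H z + conj a‖.  Write H z = x + i y', a = x0 + i y0: (x - x0)^2 + (y' - y0)^2 ≤ s^2 ((x + x0)^2 + (y' - y0)^2), hence (x - x0)^2 ≤ s^2 (x + x0)^2 (s < 1), so
x0 - x ≤ s (x + x0), x ≥ x0 (1 - s) / (1 + s).
-/

set_option autoImplicit false

open Topology Filter Metric Set

namespace Pool.Agent.EG.LE

theorem harnack {H : ℂ → ℂ} {c : ℂ} {r : ℝ} (hr : 0 < r) (hH : DifferentiableOn ℂ H (ball c r)) (hpos : ∀ z ∈ ball c r, 0 < (H z).re) {z : ℂ}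
    (hz : z ∈ ball c r) : (H c).re * ((r - ‖z - c‖) / (r + ‖z - c‖)) ≤ (H z).re := by
  have hcb : c ∈ ball c r := mem_ball_self hr
  have hx0 := hpos c hcb
  have hden : ∀ w ∈ ball c r, H w + (starRingEnd ℂ) (H c) ≠ 0 := by
    intro w hw h0
    have h1 := congrArg Complex.re h0
    simp only [Complex.add_re, Complex.conj_re, Complex.zero_re] at h1
    have := hpos w hw
    linarith
  have hd : DifferentiableOn ℂ (fun w => (H w - H c) / (H w + (starRingEnd ℂ) (H c))) (ball c r) :=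
    (hH.sub_const _).div (hH.add_const _) hden
  have hsq : ∀ w, Complex.normSq (H w + (starRingEnd ℂ) (H c)) - Complex.normSq (H w - H c) =
      4 * (H w).re * (H c).re := by
    intro w
    rw [Complex.normSq_apply, Complex.normSq_apply]
    simp only [Complex.add_re, Complex.conj_re, Complex.sub_re, Complex.sub_im, Complex.add_im,
      Complex.conj_im]
    ring
  have hm : MapsTo (fun w => (H w - H c) / (H w + (starRingEnd ℂ) (H c))) (ball c r)
      (closedBall ((H c - H c) / (H c + (starRingEnd ℂ) (H c))) 1) := by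
    intro w hw
    rw [sub_self, zero_div, mem_closedBall, dist_zero_right, norm_div]
    have h1 : ‖H w - H c‖ ≤ ‖H w + (starRingEnd ℂ) (H c)‖ := by
      rw [← abs_norm (H w - H c), ← abs_norm (H w + (starRingEnd ℂ) (H c)), ← sq_le_sq,
        ← Complex.normSq_eq_norm_sq, ← Complex.normSq_eq_norm_sq]
      have h2 := hsq w
      have h3 := mul_pos (hpos w hw) hx0
      nlinarith
    exact div_le_one_of_le₀ h1 (norm_nonneg _)
  have hS := Complex.dist_le_div_mul_dist_of_mapsTo_ball hd hm hz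
  simp only [sub_self, zero_div, dist_zero_right, norm_div] at hS
  rw [dist_eq_norm] at hS
  set t := ‖z - c‖ with ht
  have ht0 : 0 ≤ t := norm_nonneg _
  have htr : t < r := by
    rw [mem_ball, dist_eq_norm] at hz
    exact hz
  have hzp := hpos z hz
  have hnp : 0 < ‖H z + (starRingEnd ℂ) (H c)‖ := norm_pos_iff.2 (hden z hz)
  rw [div_le_iff₀ hnp] at hS
  have hS2 : r * ‖H z - H c‖ ≤ t * ‖H z + (starRingEnd ℂ) (H c)‖ := by
    have h1 := mul_le_mul_of_nonneg_left hS hr.le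
    have h2 : r * (1 / r * t * ‖H z + (starRingEnd ℂ) (H c)‖) =
        t * ‖H z + (starRingEnd ℂ) (H c)‖ := by
      field_simp
    linarith
  have hS3 : r ^ 2 * Complex.normSq (H z - H c) ≤
      t ^ 2 * Complex.normSq (H z + (starRingEnd ℂ) (H c)) := by
    rw [Complex.normSq_eq_norm_sq, Complex.normSq_eq_norm_sq, ← mul_pow, ← mul_pow]
    exact pow_le_pow_left₀ (by positivity) hS2 2
  rw [Complex.normSq_apply, Complex.normSq_apply] at hS3
  simp only [Complex.add_re, Complex.conj_re, Complex.sub_re, Complex.sub_im, Complex.add_im,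
    Complex.conj_im] at hS3
  set x := (H z).re
  set x0 := (H c).re
  set y := (H z).im
  set y0 := (H c).im
  have hS4 : (r * (x0 - x)) ^ 2 ≤ (t * (x + x0)) ^ 2 := by
    have h1 : 0 ≤ (r ^ 2 - t ^ 2) * (y - y0) ^ 2 := by
      apply mul_nonneg _ (sq_nonneg _)
      nlinarith
    nlinarith
  have hS5 : r * (x0 - x) ≤ t * (x + x0) :=
    (abs_le_of_sq_le_sq' hS4 (by positivity)).2
  rw [← mul_div_assoc, div_le_iff₀ (by linarith)]
  nlinarith

end Pool.Agent.EG.LE

end

section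

/-!
# EF Ord: an entire curve with `T_f(r) = O(r²)` has bounded lifts on discs

The converse of `Pool.Agent.H13.OT.OrdTwo.orderTwo`.
-/

set_option autoImplicit false

namespace Pool.Agent.H17EF

open Metric Filter Topology

/-- real parts of polynomials are dense in the continuous real functions on a circle -/
theorem exists_poly_re {u : ℂ → ℝ} {r : ℝ} (hr : 0 < r) (hu : ContinuousOn u (sphere 0 r)) {ε : ℝ} (hε : 0 < ε) :
    ∃ p : Polynomial ℂ, ∀ z : ℂ, ‖z‖ = r → |(p.eval z).re - u z| < ε := by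
  have : Fact (0 < 2 * Real.pi) := ⟨Real.two_pi_pos⟩
  -- the function on the circle
  let c : AddCircle (2 * Real.pi) → ℂ := fun θ => (r : ℂ) * (AddCircle.toCircle θ : ℂ)
  have hc : Continuous c := by
    apply continuous_const.mul
    exact continuous_subtype_val.comp AddCircle.continuous_toCircle
  have hcn : ∀ θ, c θ ∈ sphere (0 : ℂ) r := by
    intro θ
    rw [mem_sphere_zero_iff_norm]
    simp only [c, norm_mul, Complex.norm_real, Circle.norm_coe, mul_one, Real.norm_of_nonneg hr.le]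
  have hcs : ∀ z : ℂ, ‖z‖ = r → ∃ θ, c θ = z := by
    intro z hz
    refine ⟨((Complex.arg z : ℝ) : AddCircle (2 * Real.pi)), ?_⟩
    have h1 : AddCircle.toCircle ((Complex.arg z : ℝ) : AddCircle (2 * Real.pi)) = Circle.exp (Complex.arg z) := by
      rw [AddCircle.toCircle_apply_mk]
      congr 1
      field_simp
    simp only [c]
    rw [h1, Circle.coe_exp, ← hz, Complex.norm_mul_exp_arg_mul_I]
  let φ : C(AddCircle (2 * Real.pi), ℂ) := ⟨fun θ => ((u (c θ) : ℝ) : ℂ), by
    apply Complex.continuous_ofReal.comp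
    exact hu.comp_continuous hc hcn⟩
  have hφ : φ ∈ (Submodule.span ℂ (Set.range <| @fourier (2 * Real.pi))).topologicalClosure := by
    rw [span_fourier_closure_eq_top]
    trivial
  rw [← SetLike.mem_coe, Submodule.topologicalClosure_coe, Metric.mem_closure_iff] at hφ
  obtain ⟨T, hT, hTd⟩ := hφ ε hε
  -- the real part of a trigonometric polynomial
  have key : ∀ T ∈ Submodule.span ℂ (Set.range <| @fourier (2 * Real.pi)), ∀ a : ℂ, ∃ p : Polynomial ℂ,
      ∀ θ, (a * T θ).re = (p.eval (c θ)).re := by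
    intro T hT
    induction hT using Submodule.span_induction with
    | mem T hT =>
      obtain ⟨n, rfl⟩ := hT
      intro a
      have hfou : ∀ (m : ℕ) (θ : AddCircle (2 * Real.pi)), fourier (m : ℤ) θ = (c θ / r) ^ m := by
        intro m θ
        have h1 : c θ / r = (AddCircle.toCircle θ : ℂ) := by
          simp only [c]
          rw [mul_div_assoc, mul_comm, div_mul_cancel₀]
          exact_mod_cast hr.ne'
        rw [h1, fourier_apply, natCast_zsmul, AddCircle.toCircle_nsmul]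
        simp
      rcases Int.eq_nat_or_neg n with ⟨m, rfl | rfl⟩
      · refine ⟨Polynomial.C (a * ((r : ℂ)⁻¹) ^ m) * Polynomial.X ^ m, fun θ => ?_⟩
        rw [hfou]
        simp only [Polynomial.eval_mul, Polynomial.eval_C, Polynomial.eval_pow, Polynomial.eval_X]
        rw [div_eq_mul_inv, mul_pow]
        congr 1
        ring
      · refine ⟨Polynomial.C ((starRingEnd ℂ a) * ((r : ℂ)⁻¹) ^ m) * Polynomial.X ^ m, fun θ => ?_⟩
        rw [fourier_neg, hfou]
        simp only [Polynomial.eval_mul, Polynomial.eval_C, Polynomial.eval_pow, Polynomial.eval_X]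
        have h1 : a * (starRingEnd ℂ) ((c θ / r) ^ m) = (starRingEnd ℂ) ((starRingEnd ℂ a) * (c θ / r) ^ m) := by
          rw [map_mul, Complex.conj_conj]
        rw [h1, Complex.conj_re, div_eq_mul_inv, mul_pow]
        congr 1
        ring
    | zero =>
      intro a
      exact ⟨0, fun θ => by simp⟩
    | add S T _ _ hS hT =>
      intro a
      obtain ⟨p, hp⟩ := hS a
      obtain ⟨q, hq⟩ := hT a
      refine ⟨p + q, fun θ => ?_⟩
      rw [Polynomial.eval_add, Complex.add_re, ← hp, ← hq, ContinuousMap.add_apply, mul_add, Complex.add_re]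
    | smul b T _ hT =>
      intro a
      obtain ⟨p, hp⟩ := hT (a * b)
      refine ⟨p, fun θ => ?_⟩
      rw [← hp, ContinuousMap.smul_apply, smul_eq_mul, mul_assoc]
  obtain ⟨p, hp⟩ := key T hT 1
  refine ⟨p, fun z hz => ?_⟩
  obtain ⟨θ, rfl⟩ := hcs z hz
  rw [← hp θ, one_mul]
  have h1 : ‖(φ - T) θ‖ ≤ ‖φ - T‖ := (φ - T).norm_coe_le_norm θ
  rw [← dist_eq_norm] at h1
  have h2 : ‖(φ - T) θ‖ < ε := h1.trans_lt hTd
  have h3 : ((φ - T) θ).re = u (c θ) - (T θ).re := by
    rw [ContinuousMap.sub_apply, Complex.sub_re]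
    simp only [φ, ContinuousMap.coe_mk, Complex.ofReal_re]
  have h4 := Complex.abs_re_le_norm ((φ - T) θ)
  rw [h3] at h4
  rw [abs_sub_comm]
  exact h4.trans_lt h2

end Pool.Agent.H17EF

end

section

/-!
# Generic translations
-/

open MvPolynomial Cardinal

noncomputable section

namespace Pool.Agent.H17GT

variable {K : Type} [Field K] [Algebra ℂ K]

/-- linear substitution -/
def subst {N : ℕ} (h : Matrix (Fin (N + 1)) (Fin (N + 1)) ℂ) (G : MvPolynomial (Fin (N + 1)) ℂ) :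
    MvPolynomial (Fin (N + 1)) ℂ :=
  aeval (fun i => ∑ j, C (h i j) * X j) G

/-! ### Algebraically independent families over a countable subfield -/

/-! ### Substitutions -/

/-! ### Derivations and coefficients -/

/-! ### Smoothness -/

end Pool.Agent.H17GT

end
end

section

/-!
# TB OfSheets: from the finitely many maps to the properties (i), (ii), (iii), (iv) for curves; birational invariance
-/

set_option autoImplicit false

open MvPolynomial Topology Filter

noncomputable section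

namespace Pool.Agent.H22.TB

variable {N : ℕ}

theorem eq_of_basis {K : Type} [Field K] [Algebra ℂ K] {a b : ℕ} {z : Fin a → K} {z' : Fin b → K} (hz : IsTranscendenceBasis ℂ z)
    (hz' : IsTranscendenceBasis ℂ z') : a = b := by
  have h := hz.cardinalMk_eq hz'
  simpa using h

end Pool.Agent.H22.TB

end
end

section

/-!
# W Pow: powers of the modulus of a holomorphic function have the sub-mean value property
-/

set_option autoImplicit false

open Topology Filter Metric

namespace Pool.Agent.H22.W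

theorem log_le_avg {h : ℂ → ℂ} {c : ℂ} {r : ℝ} (hr : 0 < r) (hh : AnalyticOnNhd ℂ h (closedBall c r)) (h0 : h c ≠ 0) :
    Real.log ‖h c‖ ≤ Real.circleAverage (fun z => Real.log ‖h z‖) c r := by
  have hr' : |r| = r := abs_of_pos hr
  rw [AnalyticOnNhd.circleAverage_log_norm hr.ne' (by rwa [hr']) h0]
  have h1 : 0 ≤ ∑ᶠ u, MeromorphicOn.divisor h (closedBall c |r|) u * Real.log (r * ‖c - u‖⁻¹) := by
    refine finsum_nonneg fun u => ?_
    rw [hr']
    by_cases hu : u ∈ closedBall c r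
    · refine mul_nonneg ?_ ?_
      · have := MeromorphicOn.AnalyticOnNhd.divisor_nonneg hh u
        exact_mod_cast this
      · rcases eq_or_ne u c with rfl | huc
        · rw [sub_self, norm_zero, inv_zero, mul_zero, Real.log_zero]
        · have h2 : 0 < ‖c - u‖ := norm_pos_iff.2 (sub_ne_zero.2 huc.symm)
          have h3 : ‖c - u‖ ≤ r := by
            rw [← dist_eq_norm, dist_comm]
            exact hu
          apply Real.log_nonneg
          rw [← div_eq_mul_inv, one_le_div h2]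
          exact h3
    · have h4 : MeromorphicOn.divisor h (closedBall c r) u = 0 := Function.locallyFinsuppWithin.apply_eq_zero_of_notMem _ hu
      rw [h4, Int.cast_zero, zero_mul]
  linarith

theorem rpow_le_avg {h : ℂ → ℂ} {c : ℂ} {r p : ℝ} (hr : 0 < r) (hp : 0 < p) (hh : AnalyticOnNhd ℂ h (closedBall c r)) :
    ‖h c‖ ^ p ≤ Real.circleAverage (fun z => ‖h z‖ ^ p) c r := by
  have hr' : |r| = r := abs_of_pos hr
  rcases eq_or_ne (h c) 0 with h0 | h0
  · rw [h0, norm_zero, Real.zero_rpow hp.ne']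
    exact Real.circleAverage_nonneg_of_nonneg fun x _ => Real.rpow_nonneg (norm_nonneg _) _
  obtain ⟨a, ha⟩ : ∃ a : ℝ, a = ‖h c‖ := ⟨_, rfl⟩
  have ha0 : 0 < a := by rw [ha]; exact norm_pos_iff.2 h0
  have hlog := log_le_avg hr hh h0
  obtain ⟨f₂, hf₂⟩ : ∃ f₂ : ℂ → ℝ, f₂ = fun z => (a ^ p * (1 - p * Real.log a)) + (a ^ p * p) * Real.log ‖h z‖ := ⟨_, rfl⟩
  obtain ⟨f₃, hf₃⟩ : ∃ f₃ : ℂ → ℝ, ∀ z, f₃ z = if h z = 0 then 0 else f₂ z := ⟨_, fun _ => rfl⟩
  have hsub : sphere c |r| ⊆ closedBall c r := by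
    rw [hr']
    exact sphere_subset_closedBall
  have hci : CircleIntegrable (fun z => Real.log ‖h z‖) c r :=
    (hh.mono hsub).meromorphicOn.circleIntegrable_log_norm
  have hci2 : CircleIntegrable (fun z => (a ^ p * p) * Real.log ‖h z‖) c r := hci.const_mul (a ^ p * p)
  have hf₂i : CircleIntegrable f₂ c r := by
    rw [hf₂]
    exact (circleIntegrable_const _ _ _).add hci2
  have hco : f₂ =ᶠ[codiscreteWithin (sphere c |r|)] f₃ := by
    have h1 := hh.preimage_zero_mem_codiscreteWithin h0 (mem_closedBall_self hr.le)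
      ⟨⟨c, mem_closedBall_self hr.le⟩, (convex_closedBall c r).isPreconnected⟩
    filter_upwards [codiscreteWithin_mono hsub h1] with z hz
    have hz' : h z ≠ 0 := hz
    rw [hf₃, if_neg hz']
  have hf₃i : CircleIntegrable f₃ c r := hf₂i.congr_codiscreteWithin hco
  have hcont : ContinuousOn (fun z => ‖h z‖ ^ p) (sphere c |r|) := by
    have h1 : ContinuousOn h (sphere c |r|) := hh.continuousOn.mono hsub
    exact h1.norm.rpow_const fun x _ => Or.inr hp.le
  have h1 : Real.circleAverage f₃ c r ≤ Real.circleAverage (fun z => ‖h z‖ ^ p) c r := by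
    refine Real.circleAverage_mono hf₃i hcont.circleIntegrable' fun z _ => ?_
    rw [hf₃]
    split_ifs with hz
    · exact Real.rpow_nonneg (norm_nonneg _) _
    · rw [hf₂]
      have hz0 : 0 < ‖h z‖ := norm_pos_iff.2 hz
      have h2 : ‖h z‖ ^ p = a ^ p * Real.exp (p * (Real.log ‖h z‖ - Real.log a)) := by
        rw [Real.rpow_def_of_pos hz0, Real.rpow_def_of_pos ha0, ← Real.exp_add]
        congr 1
        ring
      have h3 := Real.add_one_le_exp (p * (Real.log ‖h z‖ - Real.log a))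
      have h4 : 0 < a ^ p := Real.rpow_pos_of_pos ha0 p
      have h5 := mul_le_mul_of_nonneg_left h3 h4.le
      show (a ^ p * (1 - p * Real.log a)) + (a ^ p * p) * Real.log ‖h z‖ ≤ ‖h z‖ ^ p
      rw [h2]
      refine le_trans (le_of_eq ?_) h5
      ring
  refine le_trans ?_ h1
  rw [← Real.circleAverage_congr_codiscreteWithin hco hr.ne', hf₂]
  have h2 : Real.circleAverage (fun z => (a ^ p * (1 - p * Real.log a)) + (a ^ p * p) * Real.log ‖h z‖) c r =
      (a ^ p * (1 - p * Real.log a)) + (a ^ p * p) * Real.circleAverage (fun z => Real.log ‖h z‖) c r := by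
    rw [Real.circleAverage_fun_add (circleIntegrable_const _ _ _) hci2, Real.circleAverage_const]
    have h3 : (fun z => (a ^ p * p) * Real.log ‖h z‖) = fun z => (a ^ p * p) • (fun z => Real.log ‖h z‖) z := rfl
    rw [h3, Real.circleAverage_fun_smul, smul_eq_mul]
  rw [h2, ← ha]
  rw [← ha] at hlog
  have h4 : 0 < a ^ p := Real.rpow_pos_of_pos ha0 p
  have h5 := mul_le_mul_of_nonneg_left hlog (by positivity : 0 ≤ a ^ p * p)
  linarith

end Pool.Agent.H22.W

end

section

/-!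
# NE Lim3: the limit of the two-sided bound

`s n ~ lam n * y`, `s' n → y'`, `g n ~ lam n ^ M * p`, `c |s|^a |s'| g^(-b) ≤ U ≤ C lam^(a - bM)`: then `c |y|^a |y'| ≤ C p^b`.
-/

set_option autoImplicit false

open Topology Filter

namespace Pool.Agent.H23.NE

theorem step3 {𝒰 : Filter ℕ} [𝒰.NeBot] {lam : ℕ → ℝ} (hlam : ∀ᶠ n in 𝒰, 0 < lam n) {s s' : ℕ → ℂ} {g U : ℕ → ℝ} {y y' : ℂ} {a b c C M p : ℝ}
    (ha : 0 ≤ a) (hs : Tendsto (fun n => s n / lam n) 𝒰 (𝓝 y)) (hs' : Tendsto s' 𝒰 (𝓝 y'))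
    (hg : Tendsto (fun n => g n / lam n ^ M) 𝒰 (𝓝 p)) (hp : 0 < p)
    (hlow : ∀ᶠ n in 𝒰, c * ‖s n‖ ^ a * ‖s' n‖ * g n ^ (-b) ≤ U n) (hup : ∀ᶠ n in 𝒰, U n ≤ C * lam n ^ (a - b * M)) :
    c * ‖y‖ ^ a * ‖y'‖ ≤ C * p ^ b := by
  have h1 : Tendsto (fun n => ‖s n / lam n‖ ^ a) 𝒰 (𝓝 (‖y‖ ^ a)) := hs.norm.rpow_const (Or.inr ha)
  have h2 : Tendsto (fun n => (g n / lam n ^ M) ^ (-b)) 𝒰 (𝓝 (p ^ (-b))) := hg.rpow_const (Or.inl hp.ne')
  have h3 : Tendsto (fun n => c * ‖s n / lam n‖ ^ a * ‖s' n‖ * (g n / lam n ^ M) ^ (-b)) 𝒰 (𝓝 (c * ‖y‖ ^ a * ‖y'‖ * p ^ (-b))) :=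
    ((h1.const_mul c).mul hs'.norm).mul h2
  have h4 : c * ‖y‖ ^ a * ‖y'‖ * p ^ (-b) ≤ C := by
    refine le_of_tendsto h3 ?_
    filter_upwards [hlam, hlow, hup, hg.eventually (lt_mem_nhds (half_lt_self hp))] with n h5 h6 h7 h8
    have hl : 0 < lam n ^ (a - b * M) := Real.rpow_pos_of_pos h5 _
    have hlM : 0 < lam n ^ M := Real.rpow_pos_of_pos h5 _
    have hg0 : 0 < g n := by
      by_contra h9
      push Not at h9
      have : g n / lam n ^ M ≤ 0 := div_nonpos_of_nonpos_of_nonneg h9 hlM.le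
      linarith [half_pos hp]
    have h9 : ‖s n / lam n‖ ^ a = ‖s n‖ ^ a * lam n ^ (-a) := by
      rw [norm_div, Complex.norm_real, Real.norm_of_nonneg h5.le, Real.div_rpow (norm_nonneg _) h5.le, Real.rpow_neg h5.le, div_eq_mul_inv]
    have h10 : (g n / lam n ^ M) ^ (-b) = g n ^ (-b) * lam n ^ (b * M) := by
      rw [Real.div_rpow hg0.le hlM.le, ← Real.rpow_mul h5.le, div_eq_mul_inv, ← Real.rpow_neg h5.le]
      congr 2
      ring
    have h11 : lam n ^ (-a) * lam n ^ (b * M) = (lam n ^ (a - b * M))⁻¹ := by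
      rw [← Real.rpow_add h5, ← Real.rpow_neg h5.le]
      congr 1
      ring
    calc c * ‖s n / lam n‖ ^ a * ‖s' n‖ * (g n / lam n ^ M) ^ (-b)
        = (c * ‖s n‖ ^ a * ‖s' n‖ * g n ^ (-b)) * (lam n ^ (-a) * lam n ^ (b * M)) := by rw [h9, h10]; ring
      _ = (c * ‖s n‖ ^ a * ‖s' n‖ * g n ^ (-b)) * (lam n ^ (a - b * M))⁻¹ := by rw [h11]
      _ ≤ (C * lam n ^ (a - b * M)) * (lam n ^ (a - b * M))⁻¹ := by
          have := h6.trans h7
          have h12 : 0 ≤ (lam n ^ (a - b * M))⁻¹ := (inv_pos.2 hl).le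
          exact mul_le_mul_of_nonneg_right this h12
      _ = C := by rw [mul_assoc, mul_inv_cancel₀ hl.ne', mul_one]
  have h5 : p ^ (-b) * p ^ b = 1 := by
    rw [← Real.rpow_add hp, neg_add_cancel, Real.rpow_zero]
  have h6 : 0 < p ^ b := Real.rpow_pos_of_pos hp _
  calc c * ‖y‖ ^ a * ‖y'‖ = (c * ‖y‖ ^ a * ‖y'‖ * p ^ (-b)) * p ^ b := by rw [mul_assoc (c * ‖y‖ ^ a * ‖y'‖), h5, mul_one]
    _ ≤ C * p ^ b := mul_le_mul_of_nonneg_right h4 h6.le

end Pool.Agent.H23.NE

end

section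

/-!
# BPL Start: from the extension theorem for models to complements of hypersurface sections

`P` is the ideal of a smooth closed surface in `ℙ^N`, `H m` are forms (`b` of them, `b = 0` is the closed case) and
`coneK P H` is the cone over the complement of the hypersurfaces `H m = 0`.
-/

set_option autoImplicit false

open Topology Filter MvPolynomial

noncomputable section

namespace Pool.Agent.H36.BPL

variable {N : ℕ} {P : Ideal (MvPolynomial (Fin (N + 1)) ℂ)} {b : ℕ} {H : Fin b → MvPolynomial (Fin (N + 1)) ℂ}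

theorem analyticAt_form (Q : MvPolynomial (Fin (N + 1)) ℂ) (x : Fin (N + 1) → ℂ) :
    AnalyticAt ℂ (fun y : Fin (N + 1) → ℂ => eval y Q) x := by
  have h : ∀ i : Fin (N + 1), AnalyticAt ℂ (fun y : Fin (N + 1) → ℂ => y i) x := fun i =>
    (ContinuousLinearMap.proj (R := ℂ) (φ := fun _ : Fin (N + 1) => ℂ) i).analyticAt x
  have := AnalyticAt.aeval_mvPolynomial (𝕜 := ℂ) h Q
  simpa [MvPolynomial.aeval_eq_eval] using this

end Pool.Agent.H36.BPL

end
end

section

/-!
# Circuits of a family of vectors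
-/

namespace Pool.Agent.H62.FC

/-- A minimal linearly dependent finite set of indices. -/
def IsCircuit (F : Type*) {V ι : Type*} [Field F] [AddCommGroup V] [Module F V] (y : ι → V)
    (ρ : Finset ι) : Prop :=
  ¬ LinearIndepOn F y (ρ : Set ι) ∧ ∀ τ ⊂ ρ, LinearIndepOn F y (τ : Set ι)

end Pool.Agent.H62.FC

end

section

/-!
# Circuits: level sums and the normal form
-/

noncomputable section

namespace Pool.Agent.H62.FC

private theorem Circuit_rel {F V ι : Type*} [Field F] [AddCommGroup V] [Module F V] {y : ι → V}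
    {ρ : Finset ι} (hρ : IsCircuit F y ρ) :
    ∃ b : ι → F, (∀ i ∈ ρ, b i ≠ 0) ∧ ∑ i ∈ ρ, b i • y i = 0 := by
  classical
  have h := hρ.1
  rw [linearIndepOn_finset_iff] at h
  push Not at h
  obtain ⟨b, hb, i, hi, hbi⟩ := h
  refine ⟨b, fun j hj hbj => ?_, hb⟩
  have h2 := hρ.2 (ρ.erase j) (Finset.erase_ssubset hj)
  rw [linearIndepOn_finset_iff] at h2
  have h3 : ∑ i ∈ ρ.erase j, b i • y i = 0 := by
    have := Finset.add_sum_erase ρ (fun i => b i • y i) hj
    simp only [hbj, zero_smul, zero_add] at this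
    rw [this, hb]
  have hij : i ≠ j := fun e => hbi (e ▸ hbj)
  exact hbi (h2 b h3 i (Finset.mem_erase.2 ⟨hij, hi⟩))

private theorem Circuit_exists {F V ι : Type*} [Field F] [AddCommGroup V] [Module F V]
    {y : ι → V} {S : Finset ι} (hS : ¬ LinearIndepOn F y (S : Set ι)) :
    ∃ ρ ⊆ S, IsCircuit F y ρ := by
  classical
  induction S using Finset.strongInduction with
  | H S ih =>
    by_cases h : ∃ τ ⊂ S, ¬ LinearIndepOn F y (τ : Set ι)
    · obtain ⟨τ, hτ, hd⟩ := h
      obtain ⟨ρ, h1, h2⟩ := ih τ hτ hd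
      exact ⟨ρ, h1.trans hτ.1, h2⟩
    · push Not at h
      exact ⟨S, subset_rfl, hS, h⟩

theorem sum_level_eq_zero {F V ι : Type*} [Field F] [AddCommGroup V] [Module F V] {y : ι → V}
    {α : Type*} [DecidableEq α] {ν : ι → α}
    {S : Finset ι} (hν : ∀ ρ ⊆ S, IsCircuit F y ρ → ∀ i ∈ ρ, ∀ j ∈ ρ, ν i = ν j) {c : ι → F}
    (h : ∑ i ∈ S, c i • y i = 0) (v : α) : ∑ i ∈ S with ν i = v, c i • y i = 0 := by
  classical
  obtain ⟨N, hN⟩ : ∃ N, N = (S.filter fun i => c i ≠ 0).card := ⟨_, rfl⟩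
  induction N using Nat.strong_induction_on generalizing c with
  | _ N ih =>
    by_cases h0 : ∀ i ∈ S, c i = 0
    · refine Finset.sum_eq_zero fun i hi => ?_
      rw [h0 i (Finset.mem_filter.1 hi).1, zero_smul]
    · push Not at h0
      obtain ⟨i0, hi0, hci0⟩ := h0
      have hdep : ¬ LinearIndepOn F y ((S.filter fun i => c i ≠ 0 : Finset ι) : Set ι) := by
        rw [linearIndepOn_finset_iff]
        intro hli
        refine hci0 (hli c ?_ i0 (Finset.mem_filter.2 ⟨hi0, hci0⟩))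
        rw [← h, Finset.sum_filter]
        refine Finset.sum_congr rfl fun i _ => ?_
        by_cases hc : c i = 0
        · simp [hc]
        · rw [if_pos hc]
      obtain ⟨ρ, hρS', hρ⟩ := Circuit_exists hdep
      obtain ⟨b, hb, hb0⟩ := Circuit_rel hρ
      have hρS : ρ ⊆ S := hρS'.trans (Finset.filter_subset _ _)
      have hne : ρ.Nonempty := by
        rw [Finset.nonempty_iff_ne_empty]
        rintro rfl
        exact hρ.1 (by rw [Finset.coe_empty]; exact linearIndepOn_empty F y)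
      obtain ⟨i, hi⟩ := hne
      have hbi := hb i hi
      have key : ∀ T : Finset ι, T ⊆ S → ∑ j ∈ T, (c j - c i / b i * (if j ∈ ρ then b j else 0)) • y j =
          ∑ j ∈ T, c j • y j - (c i / b i) • ∑ j ∈ T ∩ ρ, b j • y j := by
        intro T _
        rw [Finset.smul_sum, ← Finset.sum_ite_mem T ρ, ← Finset.sum_sub_distrib]
        refine Finset.sum_congr rfl fun j _ => ?_
        by_cases hj : j ∈ ρ
        · rw [if_pos hj, if_pos hj, sub_smul, mul_smul]
        · rw [if_neg hj, if_neg hj, mul_zero, sub_zero, sub_zero]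
      have hc' : ∑ j ∈ S, (c j - c i / b i * (if j ∈ ρ then b j else 0)) • y j = 0 := by
        rw [key S subset_rfl, h, Finset.inter_eq_right.2 hρS, hb0, smul_zero, sub_zero]
      have hlt : (S.filter fun j => c j - c i / b i * (if j ∈ ρ then b j else 0) ≠ 0).card < N := by
        rw [hN]
        refine Finset.card_lt_card ⟨?_, ?_⟩
        · intro j hj
          rw [Finset.mem_filter] at hj ⊢
          refine ⟨hj.1, fun hcj => hj.2 ?_⟩
          have hjρ : j ∉ ρ := fun hjρ => (Finset.mem_filter.1 (hρS' hjρ)).2 hcj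
          rw [if_neg hjρ, hcj, mul_zero, sub_zero]
        · intro hsub
          have := hsub (hρS' hi)
          rw [Finset.mem_filter] at this
          refine this.2 ?_
          rw [if_pos hi, div_mul_cancel₀ _ hbi, sub_self]
      have h1 := ih _ hlt hc' rfl
      rw [key (S.filter fun i => ν i = v) (Finset.filter_subset _ _)] at h1
      have h2 : ∑ j ∈ (S.filter fun i => ν i = v) ∩ ρ, b j • y j = 0 := by
        by_cases hvi : ν i = v
        · have : (S.filter fun i => ν i = v) ∩ ρ = ρ := by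
            refine Finset.inter_eq_right.2 fun j hj => Finset.mem_filter.2 ⟨hρS hj, ?_⟩
            rw [hν ρ hρS hρ j hj i hi, hvi]
          rw [this, hb0]
        · refine Finset.sum_eq_zero fun j hj => ?_
          rw [Finset.mem_inter, Finset.mem_filter] at hj
          exact absurd (by rw [← hj.1.2, hν ρ hρS hρ i hi j hj.2]) hvi
      rwa [h2, smul_zero, sub_zero] at h1

end Pool.Agent.H62.FC

end
end

section

/-! # Fermat covers: integer relations -/

noncomputable section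

namespace Pool.Agent.H62.FC

private lemma Lattice_span {I : Type*} {Γ : Set (I → ℤ)} {x : I → ℚ}
    (hx : x ∈ Submodule.span ℚ ((fun (y : I → ℤ) (l : I) => (y l : ℚ)) '' Γ)) :
    ∃ M : ℕ, 0 < M ∧ ∃ z ∈ AddSubgroup.closure Γ, ∀ l, (M : ℚ) * x l = (z l : ℚ) := by
  induction hx using Submodule.span_induction with
  | mem x hx =>
    obtain ⟨γ, hγ, rfl⟩ := hx
    exact ⟨1, one_pos, γ, AddSubgroup.subset_closure hγ, fun l => by simp⟩
  | zero => exact ⟨1, one_pos, 0, zero_mem _, fun l => by simp⟩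
  | add x y _ _ h1 h2 =>
    obtain ⟨M₁, hM₁, z₁, hz₁, e₁⟩ := h1
    obtain ⟨M₂, hM₂, z₂, hz₂, e₂⟩ := h2
    refine ⟨M₁ * M₂, Nat.mul_pos hM₁ hM₂, M₂ • z₁ + M₁ • z₂,
      add_mem (nsmul_mem hz₁ _) (nsmul_mem hz₂ _), fun l => ?_⟩
    have h1 := e₁ l
    have h2 := e₂ l
    rw [Pi.add_apply, Pi.add_apply, Pi.smul_apply, Pi.smul_apply, nsmul_eq_mul, nsmul_eq_mul]
    push_cast
    rw [← h1, ← h2]
    ring
  | smul q x _ h1 =>
    obtain ⟨M, hM, z, hz, e⟩ := h1
    refine ⟨M * q.den, Nat.mul_pos hM q.den_pos, q.num • z, zsmul_mem hz _, fun l => ?_⟩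
    have h1 := e l
    have h2 : (q.den : ℚ) * q = q.num := Rat.den_mul_eq_num q
    simp only [Pi.smul_apply, smul_eq_mul, Nat.cast_mul, Int.cast_mul]
    rw [← h1, ← h2]
    ring

theorem exists_combination {I : Type*} [Fintype I] [DecidableEq I] {Γ : Set (I → ℤ)} {i j : I}
    (h : ∀ n : I → ℤ, (∀ γ ∈ Γ, ∑ l, n l * γ l = 0) → n i = n j) :
    ∃ M : ℕ, 0 < M ∧
      (M : ℤ) • (Pi.single i 1 - Pi.single j 1 : I → ℤ) ∈ AddSubgroup.closure Γ := by
  classical
  have key : (fun l => (((Pi.single i 1 - Pi.single j 1 : I → ℤ) l : ℤ) : ℚ)) ∈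
      Submodule.span ℚ ((fun (y : I → ℤ) (l : I) => (y l : ℚ)) '' Γ) := by
    by_contra hcon
    obtain ⟨f, hf, hle⟩ := Submodule.exists_le_ker_of_notMem hcon
    -- the coefficients of the functional
    have hsum : ∀ x : I → ℚ, f x = ∑ l, f (Pi.single l 1) * x l := by
      intro x
      conv_lhs => rw [pi_eq_sum_univ' x]
      rw [map_sum]
      refine Finset.sum_congr rfl fun l _ => ?_
      rw [map_smul, smul_eq_mul, mul_comm]
    -- a common denominator
    obtain ⟨b, hb⟩ := IsLocalization.exist_integer_multiples_of_finite (nonZeroDivisors ℤ)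
      (fun l : I => f (Pi.single l 1))
    choose n hn using hb
    have hn' : ∀ l, (n l : ℚ) = (b : ℤ) * f (Pi.single l 1) := by
      intro l
      have h1 := hn l
      rw [Algebra.smul_def] at h1
      simpa using h1
    have hb0 : ((b : ℤ) : ℚ) ≠ 0 := by
      have := nonZeroDivisors.ne_zero b.2
      exact_mod_cast this
    have h1 : ∀ γ ∈ Γ, ∑ l, n l * γ l = 0 := by
      intro γ hγ
      have h2 : f (fun l => (γ l : ℚ)) = 0 := by
        have := hle (Submodule.subset_span ⟨γ, hγ, rfl⟩)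
        simpa using this
      rw [hsum] at h2
      have h3 : ((∑ l, n l * γ l : ℤ) : ℚ) = 0 := by
        push_cast
        simp_rw [hn', mul_assoc]
        rw [← Finset.mul_sum, h2, mul_zero]
      exact_mod_cast h3
    have h2 := h n h1
    apply hf
    rw [hsum]
    have h3 : f (Pi.single i 1) = f (Pi.single j 1) := by
      have h4 := hn' i
      have h5 := hn' j
      rw [h2, h5] at h4
      exact (mul_left_cancel₀ hb0 h4).symm
    simp only [Pi.sub_apply, Int.cast_sub, mul_sub, Finset.sum_sub_distrib, Pi.single_apply,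
      Int.cast_ite, Int.cast_one, Int.cast_zero, mul_ite, mul_one, mul_zero, Finset.sum_ite_eq',
      Finset.mem_univ, if_true]
    rw [h3, sub_self]
  obtain ⟨M, hM, z, hz, hzM⟩ := Lattice_span key
  refine ⟨M, hM, ?_⟩
  have : (M : ℤ) • (Pi.single i 1 - Pi.single j 1 : I → ℤ) = z := by
    funext l
    have h1 := hzM l
    rw [Pi.smul_apply, smul_eq_mul]
    exact_mod_cast h1
  rw [this]
  exact hz

end Pool.Agent.H62.FC

end
end

section

/-!
# Qe TopQ: maps which are local homeomorphisms over an open set, and lifts of continuous maps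
-/

set_option autoImplicit false

open Topology Filter

namespace Pool.Agent.H62.Qe

/-- A continuous map which is injective near `e` and has a local section through `e` is a homeomorphism near `e`. -/
theorem exists_localHomeo {E Y : Type} [TopologicalSpace E] [TopologicalSpace Y] {p : E → Y} (hp : Continuous p) {e : E}
    (hinj : ∀ᶠ q in 𝓝 (e, e), p q.1 = p q.2 → q.1 = q.2)
    (hsec : ∃ s : Y → E, s (p e) = e ∧ ∀ᶠ y in 𝓝 (p e), ContinuousAt s y ∧ p (s y) = y) :
    ∃ φ : OpenPartialHomeomorph E Y, e ∈ φ.source ∧ p = φ := by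
  obtain ⟨s, hse, hs⟩ := hsec
  obtain ⟨V, hVs, hVo, heV⟩ := eventually_nhds_iff.1 hs
  have h1 : {q : E × E | p q.1 = p q.2 → q.1 = q.2} ∈ 𝓝 e ×ˢ 𝓝 e := by
    rw [← nhds_prod_eq]
    exact hinj
  obtain ⟨U₁, hU₁, hU₁s⟩ := Filter.mem_prod_self_iff.1 h1
  obtain ⟨U, hUU₁, hUo, heU⟩ := mem_nhds_iff.1 hU₁
  have hU : ∀ e₁ ∈ U, ∀ e₂ ∈ U, p e₁ = p e₂ → e₁ = e₂ := fun e₁ h₁ e₂ h₂ => hU₁s (Set.mk_mem_prod (hUU₁ h₁) (hUU₁ h₂))
  have hsV : ContinuousOn s V := fun y hy => (hVs y hy).1.continuousWithinAt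
  have hW : IsOpen (V ∩ s ⁻¹' U) := hsV.isOpen_inter_preimage hVo hUo
  have hU₀ : IsOpen (U ∩ p ⁻¹' (V ∩ s ⁻¹' U)) := hUo.inter (hW.preimage hp)
  have hleft : ∀ e' ∈ U ∩ p ⁻¹' (V ∩ s ⁻¹' U), s (p e') = e' := fun e' he' =>
    hU _ he'.2.2 _ he'.1 (hVs _ he'.2.1).2
  refine ⟨
    { toFun := p
      invFun := s
      source := U ∩ p ⁻¹' (V ∩ s ⁻¹' U)
      target := V ∩ s ⁻¹' U
      map_source' := fun e' he' => he'.2
      map_target' := fun y hy => by
        refine ⟨hy.2, ?_⟩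
        show p (s y) ∈ V ∩ s ⁻¹' U
        rw [(hVs y hy.1).2]
        exact hy
      left_inv' := hleft
      right_inv' := fun y hy => (hVs y hy.1).2
      open_source := hU₀
      open_target := hW
      continuousOn_toFun := hp.continuousOn
      continuousOn_invFun := hsV.mono Set.inter_subset_left }, ?_, rfl⟩
  refine ⟨heU, heV, ?_⟩
  show s (p e) ∈ U
  rw [hse]
  exact heU

variable {E Y : Type} [TopologicalSpace E] [TopologicalSpace Y] [T2Space E] [T2Space Y] [CompactSpace E] {p : E → Y}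

/-- Existence and uniqueness of the lifts of maps of the plane. -/
theorem exists_unique_lift (hp : Continuous p) {s : Set Y}
    (h : ∀ e : E, p e ∈ s → ∃ φ : OpenPartialHomeomorph E Y, e ∈ φ.source ∧ p = φ)
    {f : ℂ → Y} (hf : Continuous f) (hfs : ∀ z, f z ∈ s) {a : ℂ} {e₀ : E} (he : p e₀ = f a) :
    ∃! F : C(ℂ, E), F a = e₀ ∧ p ∘ F = f := by
  have hl : IsLocalHomeomorphOn p (p ⁻¹' s) := fun e he => h e he
  have hc : IsCoveringMapOn p s := IsCoveringMapOn.of_isLocalHomeomorphOn hp hl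
  exact hc.existsUnique_continuousMap_lifts (⟨f, hf⟩ : C(ℂ, Y)) he hfs

/-- Lifts of maps of the plane. -/
theorem exists_lift_plane (hp : Continuous p) {s : Set Y}
    (h : ∀ e : E, p e ∈ s → ∃ φ : OpenPartialHomeomorph E Y, e ∈ φ.source ∧ p = φ)
    {f : ℂ → Y} (hf : Continuous f) (hfs : ∀ z, f z ∈ s) {a : ℂ} {e₀ : E} (he : p e₀ = f a) :
    ∃ g : ℂ → E, Continuous g ∧ g a = e₀ ∧ ∀ z, p (g z) = f z := by
  obtain ⟨F, ⟨h1, hF⟩, -⟩ := exists_unique_lift hp h hf hfs he
  exact ⟨F, F.continuous, h1, fun z => congrFun hF z⟩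

/-- Two lifts which agree at a point are equal. -/
theorem lift_unique (hp : Continuous p) {s : Set Y}
    (h : ∀ e : E, p e ∈ s → ∃ φ : OpenPartialHomeomorph E Y, e ∈ φ.source ∧ p = φ)
    {f : ℂ → Y} (hf : Continuous f) (hfs : ∀ z, f z ∈ s) {g g' : ℂ → E} (hg : Continuous g) (hg' : Continuous g')
    (h1 : ∀ z, p (g z) = f z) (h2 : ∀ z, p (g' z) = f z) {a : ℂ} (ha : g a = g' a) (z : ℂ) : g z = g' z := by
  have h3 := (exists_unique_lift hp h hf hfs (h1 a)).unique (y₁ := (⟨g, hg⟩ : C(ℂ, E))) (y₂ := (⟨g', hg'⟩ : C(ℂ, E)))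
    ⟨rfl, funext h1⟩ ⟨ha.symm, funext h2⟩
  exact congrArg (fun F : C(ℂ, E) => F z) h3

omit [T2Space E] in
/-- The fibres are finite. -/
theorem finite_fibre (hp : Continuous p) {s : Set Y}
    (h : ∀ e : E, p e ∈ s → ∃ φ : OpenPartialHomeomorph E Y, e ∈ φ.source ∧ p = φ) {y : Y} (hy : y ∈ s) :
    (p ⁻¹' {y}).Finite := by
  refine (isClosed_singleton.preimage hp).isCompact.finite (IsDiscrete.of_openPartialHomeomorph p subset_rfl fun e he => ?_)
  obtain ⟨φ, h1, h2⟩ := h e (by rw [show p e = y from he]; exact hy)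
  exact ⟨φ, h1, h2.symm⟩

/-- **Periodic lifts.**  A periodic map has a lift which is periodic for a multiple of the period. -/
theorem exists_lift_periodic (hp : Continuous p) (hsu : Function.Surjective p) {s : Set Y}
    (h : ∀ e : E, p e ∈ s → ∃ φ : OpenPartialHomeomorph E Y, e ∈ φ.source ∧ p = φ)
    {f : ℂ → Y} (hf : Continuous f) (hfs : ∀ z, f z ∈ s) {c : ℂ} (hfc : ∀ z, f (z + c) = f z) :
    ∃ (g : ℂ → E) (k : ℕ), Continuous g ∧ (∀ z, p (g z) = f z) ∧ 1 ≤ k ∧ ∀ z, g (z + k * c) = g z := by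
  obtain ⟨e₀, he₀⟩ := hsu (f 0)
  obtain ⟨g, hg, -, hgf⟩ := exists_lift_plane hp h hf hfs he₀
  have hper : ∀ (n : ℕ) (z : ℂ), f (z + n * c) = f z := by
    intro n
    induction n with
    | zero => intro z; simp
    | succ n ih =>
      intro z
      rw [← hfc z, ← ih (z + c)]
      congr 1
      push_cast
      ring
  have hfin : (p ⁻¹' {f 0}).Finite := finite_fibre hp h (hfs 0)
  have hmaps : ∀ n : ℕ, g (n * c) ∈ p ⁻¹' {f 0} := by
    intro n
    have h1 := hper n 0
    rw [zero_add] at h1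
    change p (g (n * c)) = f 0
    rw [hgf, h1]
  obtain ⟨m, n, hmn, hval⟩ : ∃ m n : ℕ, m < n ∧ g (m * c) = g (n * c) := by
    have : ¬ Function.Injective fun n : ℕ => (⟨g (n * c), hmaps n⟩ : (p ⁻¹' {f 0})) := by
      intro hinj
      have := hfin.to_subtype
      exact not_injective_infinite_finite _ hinj
    rw [Function.not_injective_iff] at this
    obtain ⟨a, b, hab, hne⟩ := this
    have hab' : g (a * c) = g (b * c) := congrArg Subtype.val hab
    rcases lt_or_gt_of_ne hne with hlt | hlt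
    · exact ⟨a, b, hlt, hab'⟩
    · exact ⟨b, a, hlt, hab'.symm⟩
  refine ⟨g, n - m, hg, hgf, by omega, fun z => ?_⟩
  have hgn : ∀ q : ℕ, Continuous fun z => g (z + q * c) := fun q => hg.comp (continuous_id.add continuous_const)
  have h3 : ∀ z, g (z + m * c) = g (z + n * c) := by
    intro z
    refine lift_unique hp h hf hfs (hgn m) (hgn n) (fun z => ?_) (fun z => ?_) (a := 0) ?_ z
    · rw [hgf, hper]
    · rw [hgf, hper]
    · simpa using hval
  have h4 := h3 (z - m * c)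
  rw [sub_add_cancel] at h4
  rw [h4]
  congr 1
  rw [Nat.cast_sub hmn.le]
  ring

end Pool.Agent.H62.Qe

end

section

set_option autoImplicit false

/-!
# Basic facts on the total space, and a criterion for non-hyperbolicity
-/

open MvPolynomial Topology Filter

namespace Pool.Agent.H99.Cover

variable {N : ℕ} {ι : Type}

/-- The exponential of the inverse takes every non-zero value near zero. -/
lemma exists_seq_exp_inv (σ : ℂ) (hσ : σ ≠ 0) :
    ∃ zs : ℕ → ℂ, Tendsto zs atTop (𝓝 0) ∧ ∀ᶠ n in atTop, zs n ≠ 0 ∧ Complex.exp (zs n)⁻¹ = σ := by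
  have h : Tendsto (fun n : ℕ => Complex.log σ + n * (2 * Real.pi * Complex.I)) atTop
      (Bornology.cobounded ℂ) := by
    rw [← tendsto_norm_atTop_iff_cobounded]
    have h1 : Tendsto (fun n : ℕ => (n : ℝ) * (2 * Real.pi) - ‖Complex.log σ‖) atTop atTop := by
      refine tendsto_atTop_add_const_right _ _ ?_
      exact (tendsto_natCast_atTop_atTop).atTop_mul_const (by positivity)
    refine tendsto_atTop_mono ?_ h1
    intro n
    have h2 : ‖(n : ℂ) * (2 * Real.pi * Complex.I)‖ = n * (2 * Real.pi) := by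
      rw [norm_mul, norm_mul, norm_mul]
      simp [Real.pi_pos.le, abs_of_nonneg]
    have h3 : ‖(n : ℂ) * (2 * Real.pi * Complex.I)‖ ≤
        ‖Complex.log σ + n * (2 * Real.pi * Complex.I)‖ + ‖Complex.log σ‖ := by
      have := norm_sub_le (Complex.log σ + n * (2 * Real.pi * Complex.I)) (Complex.log σ)
      simpa using this
    linarith
  refine ⟨fun n => (Complex.log σ + n * (2 * Real.pi * Complex.I))⁻¹,
    Filter.tendsto_inv₀_cobounded.comp h, ?_⟩
  have hne : ∀ᶠ n : ℕ in atTop, Complex.log σ + n * (2 * Real.pi * Complex.I) ≠ 0 := by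
    have h5 := h.eventually (Bornology.eventually_ne_cobounded (0 : ℂ))
    exact h5
  filter_upwards [hne] with n hn
  refine ⟨inv_ne_zero hn, ?_⟩
  rw [inv_inv, Complex.exp_add, Complex.exp_log hσ, Complex.exp_nat_mul_two_pi_mul_I, mul_one]

end Pool.Agent.H99.Cover

end

section

/-!
# MQ Ext: extension by zero of `φ (p z)` from an open set
-/

set_option autoImplicit false

open Topology Filter Metric Set

noncomputable section

namespace Pool.Agent.MQ

/-- `φ ∘ p` on `U`, extended by `0` -/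
def ext (U : Set ℂ) (p : ℂ → ℂ × ℂ) (φ : ℂ × ℂ → ℝ) : ℂ → ℝ := U.indicator fun z => φ (p z)

variable {U : Set ℂ} {p : ℂ → ℂ × ℂ} {r s : ℝ} {φ : ℂ × ℂ → ℝ}

end Pool.Agent.MQ

end
end

section

/-!
# MQ Ker: the Jensen kernel `2 ε² / (|w|² + ε²)²` on `ℂ`: mass `2 π`, approximate identity
-/

set_option autoImplicit false

open MeasureTheory Filter Topology Set

namespace Pool.Agent.MQ

/-! ### Polar coordinates with a logarithmic radius -/

private theorem polar_integrable {f : ℂ → ℝ} (hf : Integrable f) :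
    IntegrableOn (fun p : ℝ × ℝ => p.1 * f (Complex.polarCoord.symm p)) (Ioi (0 : ℝ) ×ˢ Ioo (-Real.pi) Real.pi) (volume.prod volume) := by
  have h1 : Integrable (fun p : ℝ × ℝ => f (Complex.measurableEquivRealProd.symm p)) :=
    (Complex.volume_preserving_equiv_real_prod.symm).integrable_comp_of_integrable hf
  have h2 := (integrableOn_image_iff_integrableOn_abs_det_fderiv_smul (volume : Measure (ℝ × ℝ))
    (s := polarCoord.target) (f := polarCoord.symm) (f' := fderivPolarCoordSymm) polarCoord.open_target.measurableSet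
    (fun p _ => (hasFDerivAt_polarCoord_symm p).hasFDerivWithinAt) polarCoord.symm.injOn
    (fun p : ℝ × ℝ => f (Complex.measurableEquivRealProd.symm p))).1 h1.integrableOn
  have h3 : IntegrableOn (fun p : ℝ × ℝ => p.1 * f (Complex.polarCoord.symm p)) polarCoord.target volume := by
    refine h2.congr_fun ?_ polarCoord.open_target.measurableSet
    intro p hp
    have hp1 : (0 : ℝ) < p.1 := hp.1
    simp only [det_fderivPolarCoordSymm, smul_eq_mul, abs_of_pos hp1]
    rfl
  exact h3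

theorem polar_radial (g : ℝ → ℝ) (u : ℂ → ℝ) (hint : Integrable (fun z : ℂ => g (Real.log ‖z‖) / ‖z‖ ^ 2 * u z)) :
    ∫ z : ℂ, g (Real.log ‖z‖) / ‖z‖ ^ 2 * u z = 2 * Real.pi * ∫ s : ℝ, g s * Real.circleAverage u 0 (Real.exp s) := by
  have h1 := Complex.integral_comp_polarCoord_symm (fun z : ℂ => g (Real.log ‖z‖) / ‖z‖ ^ 2 * u z)
  rw [← h1]
  have h2 := setIntegral_prod _ (polar_integrable hint)
  have h3 : ∫ p in polarCoord.target, p.1 • (g (Real.log ‖Complex.polarCoord.symm p‖) / ‖Complex.polarCoord.symm p‖ ^ 2 * u (Complex.polarCoord.symm p)) =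
      ∫ r in Ioi (0 : ℝ), ∫ θ in Ioo (-Real.pi) Real.pi,
        r * (g (Real.log ‖Complex.polarCoord.symm (r, θ)‖) / ‖Complex.polarCoord.symm (r, θ)‖ ^ 2 * u (Complex.polarCoord.symm (r, θ))) := h2
  rw [h3]
  have h4 : ∀ r ∈ Ioi (0 : ℝ), ∫ θ in Ioo (-Real.pi) Real.pi,
        r * (g (Real.log ‖Complex.polarCoord.symm (r, θ)‖) / ‖Complex.polarCoord.symm (r, θ)‖ ^ 2 * u (Complex.polarCoord.symm (r, θ))) =
      r⁻¹ * (2 * Real.pi * (g (Real.log r) * Real.circleAverage u 0 r)) := by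
    intro r hr
    have hr0 : (0 : ℝ) < r := hr
    have e1 : ∀ θ : ℝ, r * (g (Real.log ‖Complex.polarCoord.symm (r, θ)‖) / ‖Complex.polarCoord.symm (r, θ)‖ ^ 2 * u (Complex.polarCoord.symm (r, θ))) =
        r⁻¹ * g (Real.log r) * u (circleMap 0 r θ) := by
      intro θ
      have e2 : Complex.polarCoord.symm (r, θ) = circleMap 0 r θ := by
        rw [Complex.polarCoord_symm_apply, circleMap, Complex.exp_mul_I]
        simp
      have e3 : ‖circleMap 0 r θ‖ = r := by simp [abs_of_pos hr0]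
      rw [e2, e3]
      field_simp
    simp only [e1]
    rw [integral_const_mul, ← integral_Ioc_eq_integral_Ioo, ← intervalIntegral.integral_of_le (by linarith [Real.pi_pos])]
    have e4 : ∫ θ in (-Real.pi)..Real.pi, u (circleMap 0 r θ) = 2 * Real.pi * Real.circleAverage u 0 r := by
      have hper : (fun θ => u (circleMap 0 r θ)).Periodic (2 * Real.pi) := fun x => by simp [periodic_circleMap 0 r x]
      have e5 := hper.intervalIntegral_add_eq (-Real.pi) 0
      rw [show -Real.pi + 2 * Real.pi = Real.pi by ring, zero_add] at e5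
      rw [e5, Real.circleAverage_def, smul_eq_mul]
      have := Real.pi_ne_zero
      field_simp
    rw [e4]
    ring
  rw [setIntegral_congr_fun measurableSet_Ioi h4]
  have h5 := integral_image_eq_integral_abs_deriv_smul (s := univ) (f := Real.exp) (f' := Real.exp) MeasurableSet.univ
    (fun x _ => (Real.hasDerivAt_exp x).hasDerivWithinAt) Real.exp_injective.injOn
    (fun r : ℝ => r⁻¹ * (2 * Real.pi * (g (Real.log r) * Real.circleAverage u 0 r)))
  rw [image_univ, Real.range_exp, setIntegral_univ] at h5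
  rw [h5, ← integral_const_mul]
  refine integral_congr_ae (Eventually.of_forall fun s => ?_)
  have := Real.exp_pos s
  simp only [smul_eq_mul, Real.log_exp, abs_of_pos this]
  field_simp

end Pool.Agent.MQ

end

section

/-!
# MQ C3 `LeafDisc`: an invariant disc through `0`

If infinitely many invariant points accumulate at `0` then they lie on one disc `c` of the zero set of `q`; all derivatives `v^j q` vanish along `c`.
If `c` is transversal to `v` at some point then all partial derivatives of `q` vanish along `c`, so `q = 0`.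
-/

set_option autoImplicit false

open Topology Filter MvPolynomial Asymptotics

noncomputable section

namespace Pool.Agent.MQ

theorem ld_clm {E F : Type*} [NormedAddCommGroup E] [NormedSpace ℂ E] [NormedAddCommGroup F] [NormedSpace ℂ F] {G : Type*} [NormedAddCommGroup G]
    [NormedSpace ℂ G] {L : E → F →L[ℂ] G} {v : E → F} {p : E} (hL : AnalyticAt ℂ L p) (hv : AnalyticAt ℂ v p) : AnalyticAt ℂ (fun x => L x (v x)) p :=
  AnalyticAt.fun_comp (g := fun q : (F →L[ℂ] G) × F => (ContinuousLinearMap.id ℂ (F →L[ℂ] G)) q.1 q.2) (f := fun x => (L x, v x))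
    ((ContinuousLinearMap.id ℂ (F →L[ℂ] G)).analyticAt_bilinear _) (hL.prod hv)

namespace LdK

variable {v : ℂ × ℂ → ℂ × ℂ} {c : ℂ → ℂ × ℂ}

end LdK

/-- two independent vectors -/
theorem ld_lin {L : ℂ × ℂ →L[ℂ] ℂ} {a b : ℂ × ℂ} (ha : L a = 0) (hb : L b = 0) (hJ : a.1 * b.2 - a.2 * b.1 ≠ 0) : L = 0 := by
  have h : ∀ x : ℂ × ℂ, L x = x.1 * L (1, 0) + x.2 * L (0, 1) := by
    intro x
    have h1 : x = x.1 • ((1 : ℂ), (0 : ℂ)) + x.2 • ((0 : ℂ), (1 : ℂ)) := by ext <;> simp
    conv_lhs => rw [h1]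
    rw [map_add, map_smul, map_smul, smul_eq_mul, smul_eq_mul]
  rw [h] at ha hb
  have e1 : L (1, 0) = 0 := by
    have : (a.1 * b.2 - a.2 * b.1) * L (1, 0) = 0 := by linear_combination b.2 * ha - a.2 * hb
    exact (mul_eq_zero.1 this).resolve_left hJ
  have e2 : L (0, 1) = 0 := by
    have : (a.1 * b.2 - a.2 * b.1) * L (0, 1) = 0 := by linear_combination a.1 * hb - b.1 * ha
    exact (mul_eq_zero.1 this).resolve_left hJ
  refine ContinuousLinearMap.ext fun x => ?_
  rw [h, e1, e2]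
  simp

/-- the derivative of `f ∘ c`, where `f` vanishes along `c` -/
theorem ld_chain {f : ℂ × ℂ → ℂ} {c : ℂ → ℂ × ℂ} {t : ℂ} (hf : AnalyticAt ℂ f (c t)) (hc : AnalyticAt ℂ c t) (h : ∀ᶠ s in 𝓝 t, f (c s) = 0) :
    fderiv ℂ f (c t) (deriv c t) = 0 := by
  have h1 : HasDerivAt (fun s => f (c s)) (fderiv ℂ f (c t) (deriv c t)) t :=
    hf.differentiableAt.hasFDerivAt.comp_hasDerivAt t hc.differentiableAt.hasDerivAt
  have h2 : HasDerivAt (fun s => f (c s)) 0 t := (hasDerivAt_const t (0 : ℂ)).congr_of_eventuallyEq h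
  exact h1.unique h2

namespace LdK

variable {v : ℂ × ℂ → ℂ × ℂ} {c : ℂ → ℂ × ℂ}

end LdK

/-- a curve which is not constant -/
theorem ld_deriv_ne {γ : ℂ → ℂ × ℂ} (hγ : AnalyticAt ℂ γ 0) (h : ∃ᶠ t in 𝓝 (0 : ℂ), γ t ≠ γ 0) : ∀ᶠ t in 𝓝[≠] (0 : ℂ), deriv γ t ≠ 0 := by
  refine (hγ.deriv.eventually_eq_zero_or_eventually_ne_zero).resolve_left fun h0 => ?_
  obtain ⟨δ, hδ, hb⟩ := Metric.eventually_nhds_iff_ball.1 (h0.and hγ.eventually_analyticAt)
  refine h (Metric.eventually_nhds_iff_ball.2 ⟨δ, hδ, fun t ht => ?_⟩)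
  rw [not_not]
  exact Metric.isOpen_ball.is_const_of_deriv_eq_zero (convex_ball (0 : ℂ) δ).isPreconnected
    (fun x hx => (hb x hx).2.differentiableAt.differentiableWithinAt) (fun x hx => (hb x hx).1) ht (Metric.mem_ball_self hδ)

end Pool.Agent.MQ

end
end

section

/-!
# MQ3 EnL: the energy of the coordinates of a monomial chart
-/

set_option autoImplicit false

open MeasureTheory Topology Filter Metric Laplacian

noncomputable section

namespace Pool.Agent.MQ3

variable {U V : Set ℂ} {x y s t : ℂ → ℂ} {l : ℂ → ℝ}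

theorem rpow_two_inv {u : ℝ} (hu : 0 < u) {a : ℕ} (ha : 1 ≤ a) : (u ^ a) ^ (2 * (1 / (a : ℝ)) - 2) = u ^ 2 * ((u ^ a) ^ 2)⁻¹ := by
  have ha' : (0 : ℝ) < a := by exact_mod_cast ha
  have h1 : 0 < u ^ a := by positivity
  rw [Real.rpow_sub h1, Real.rpow_two, div_eq_mul_inv]
  congr 1
  rw [← Real.rpow_natCast u a, ← Real.rpow_mul hu.le, ← Real.rpow_natCast u 2]
  congr 1
  push_cast
  field_simp

/-- logarithmic derivative of a monomial -/
theorem dlog_mono (hV : IsOpen V) (hs : DifferentiableOn ℂ s V) (ht : DifferentiableOn ℂ t V) {a b : ℕ} (hx : ∀ z ∈ V, x z = s z ^ a * t z ^ b) {z : ℂ}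
    (hz : z ∈ V) (hs0 : s z ≠ 0) (ht0 : t z ≠ 0) : deriv x z / x z = a * (deriv s z / s z) + b * (deriv t z / t z) := by
  have hsd := (hs.differentiableAt (hV.mem_nhds hz)).hasDerivAt
  have htd := (ht.differentiableAt (hV.mem_nhds hz)).hasDerivAt
  have h1 : HasDerivAt (fun w => s w ^ a * t w ^ b) (a * s z ^ (a - 1) * deriv s z * t z ^ b + s z ^ a * (b * t z ^ (b - 1) * deriv t z)) z :=
    (hsd.fun_pow a).mul (htd.fun_pow b)
  have e : x =ᶠ[𝓝 z] fun w => s w ^ a * t w ^ b := by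
    filter_upwards [hV.mem_nhds hz] with w hw
    exact hx w hw
  rw [e.deriv_eq, h1.deriv, hx z hz]
  have hsa : ((a : ℂ) * s z ^ (a - 1)) * s z = a * s z ^ a := by
    rcases Nat.eq_zero_or_pos a with h | h
    · simp [h]
    · rw [mul_assoc, ← pow_succ, Nat.sub_add_cancel h]
  have htb : ((b : ℂ) * t z ^ (b - 1)) * t z = b * t z ^ b := by
    rcases Nat.eq_zero_or_pos b with h | h
    · simp [h]
    · rw [mul_assoc, ← pow_succ, Nat.sub_add_cancel h]
  have h2 : s z ^ a ≠ 0 := pow_ne_zero _ hs0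
  have h3 : t z ^ b ≠ 0 := pow_ne_zero _ ht0
  rw [div_eq_iff (mul_ne_zero h2 h3)]
  have e1 : (a * s z ^ (a - 1) * deriv s z * t z ^ b) * s z = (a : ℂ) * (deriv s z) * s z ^ a * t z ^ b := by
    calc _ = ((a : ℂ) * s z ^ (a - 1)) * s z * (deriv s z * t z ^ b) := by ring
      _ = _ := by rw [hsa]; ring
  have e2 : (s z ^ a * (b * t z ^ (b - 1) * deriv t z)) * t z = (b : ℂ) * (deriv t z) * s z ^ a * t z ^ b := by
    calc _ = ((b : ℂ) * t z ^ (b - 1)) * t z * (deriv t z * s z ^ a) := by ring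
      _ = _ := by rw [htb]; ring
  have e1' : a * s z ^ (a - 1) * deriv s z * t z ^ b = (a : ℂ) * (deriv s z / s z) * (s z ^ a * t z ^ b) := by
    refine mul_right_cancel₀ hs0 ?_
    rw [e1]
    field_simp
  have e2' : s z ^ a * (b * t z ^ (b - 1) * deriv t z) = (b : ℂ) * (deriv t z / t z) * (s z ^ a * t z ^ b) := by
    refine mul_right_cancel₀ ht0 ?_
    rw [e2]
    field_simp
  rw [e1', e2']
  ring

theorem coef_ge {u α β : ℝ} (hu : 0 < u) (hu1 : u ≤ 1) (h1 : α - β ≤ 2) (h2 : β - α ≤ 2) : u ^ 2 / 4 ≤ u ^ α * u ^ β / (u ^ α + u ^ β) ^ 2 := by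
  have key : ∀ {α β : ℝ}, α - β ≤ 2 → β ≤ α → u ^ 2 / 4 ≤ u ^ α * u ^ β / (u ^ α + u ^ β) ^ 2 := by
    intro α β h1 h
    have hA := Real.rpow_pos_of_pos hu α
    have hB := Real.rpow_pos_of_pos hu β
    have hAB : u ^ α ≤ u ^ β := Real.rpow_le_rpow_of_exponent_ge hu hu1 h
    have h3 : (u ^ α + u ^ β) ^ 2 ≤ 4 * (u ^ β) ^ 2 := by nlinarith
    have h4 : u ^ α = u ^ (α - β) * u ^ β := by rw [← Real.rpow_add hu]; congr 1; ring
    have h5 : u ^ (2 : ℝ) ≤ u ^ (α - β) := Real.rpow_le_rpow_of_exponent_ge hu hu1 h1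
    rw [Real.rpow_two] at h5
    rw [div_le_div_iff₀ (by norm_num) (by positivity)]
    calc u ^ 2 * (u ^ α + u ^ β) ^ 2 ≤ u ^ 2 * (4 * (u ^ β) ^ 2) := mul_le_mul_of_nonneg_left h3 (by positivity)
      _ ≤ u ^ (α - β) * (4 * (u ^ β) ^ 2) := mul_le_mul_of_nonneg_right h5 (by positivity)
      _ = u ^ α * u ^ β * 4 := by rw [h4]; ring
  rcases le_total β α with h | h
  · exact key h1 h
  · have := key h2 h
    rwa [mul_comm (u ^ β), add_comm (u ^ β)] at this

/-- the pointwise estimate, `x = s ^ a` -/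
theorem pt_R (hV : IsOpen V) (hs : DifferentiableOn ℂ s V) {a : ℕ} (ha : 1 ≤ a) (hx : ∀ z ∈ V, x z = s z ^ a) {z : ℂ} (hz : z ∈ V)
    (hs0 : s z ≠ 0) : ‖deriv s z‖ ^ 2 ≤ ‖x z‖ ^ (2 * (1 / (a : ℝ)) - 2) * ‖deriv x z‖ ^ 2 := by
  have hu : 0 < ‖s z‖ := norm_pos_iff.2 hs0
  have h1 := dlog_mono (x := x) (t := s) (b := 0) hV hs hs (a := a) (fun z hz => by rw [hx z hz, pow_zero, mul_one]) hz hs0 hs0
  have hx0 : x z ≠ 0 := by rw [hx z hz]; exact pow_ne_zero _ hs0
  have h2 : ‖deriv x z‖ = a * (‖deriv s z‖ / ‖s z‖) * ‖s z‖ ^ a := by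
    have h3 : deriv x z = (a * (deriv s z / s z)) * s z ^ a := by
      rw [div_eq_iff hx0, hx z hz] at h1
      rw [h1]
      simp
    rw [h3, norm_mul, norm_mul, norm_pow, norm_div, Complex.norm_natCast]
  have ha' : (1 : ℝ) ≤ a := by exact_mod_cast ha
  rw [h2, hx z hz, norm_pow, rpow_two_inv hu ha]
  have h4 : ‖s z‖ ^ 2 * ((‖s z‖ ^ a) ^ 2)⁻¹ * (a * (‖deriv s z‖ / ‖s z‖) * ‖s z‖ ^ a) ^ 2 = (a : ℝ) ^ 2 * ‖deriv s z‖ ^ 2 := by
    field_simp
  rw [h4]
  have h5 : (1 : ℝ) ≤ (a : ℝ) ^ 2 := by nlinarith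
  nlinarith [sq_nonneg ‖deriv s z‖]

end Pool.Agent.MQ3

end
end

section

/-!
# SG Alg: the algebra of the rescaled limit
-/

set_option autoImplicit false

open Topology Filter Metric Polynomial

noncomputable section

namespace Pool.Agent.SG

/-- At a root `r` of `P` of order `p` the polynomial `Y` vanishes to order at least `p`, if `|Y/P|^a |(Y/P)'| → 0`. -/
private theorem alg_mult {P Y : Polynomial ℂ} (hP : P ≠ 0) (hY : Y ≠ 0) {a : ℝ} (ha : 0 < a) {r : ℂ}
    (h : Tendsto (fun u : ℂ => ‖Y.eval u / P.eval u‖ ^ a * ‖deriv (fun z => Y.eval z / P.eval z) u‖) (𝓝[≠] r) (𝓝 0)) :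
    P.rootMultiplicity r ≤ Y.rootMultiplicity r := by
  by_contra hlt
  push Not at hlt
  obtain ⟨P₁, hP1, hP1r⟩ := P.exists_eq_pow_rootMultiplicity_mul_and_not_dvd hP r
  obtain ⟨Y₁, hY1, hY1r⟩ := Y.exists_eq_pow_rootMultiplicity_mul_and_not_dvd hY r
  obtain ⟨p, hp⟩ : ∃ p, p = P.rootMultiplicity r := ⟨_, rfl⟩
  obtain ⟨q, hq⟩ : ∃ q, q = Y.rootMultiplicity r := ⟨_, rfl⟩
  rw [← hp] at hP1 hlt
  rw [← hq] at hY1 hlt
  have hP0 : P₁.eval r ≠ 0 := fun h0 => hP1r (dvd_iff_isRoot.2 h0)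
  have hY0 : Y₁.eval r ≠ 0 := fun h0 => hY1r (dvd_iff_isRoot.2 h0)
  obtain ⟨m, hm⟩ : ∃ m, p = q + (m + 1) := ⟨p - q - 1, by omega⟩
  -- near `r` the quotient is `(u - r)^(-(m+1)) g u`
  obtain ⟨g, hg⟩ : ∃ g : ℂ → ℂ, g = fun u => Y₁.eval u / P₁.eval u := ⟨_, rfl⟩
  have hgan : AnalyticAt ℂ g r := by
    rw [hg]
    exact (Y₁.differentiable.analyticAt r).div (P₁.differentiable.analyticAt r) hP0
  have hg0 : g r ≠ 0 := by
    rw [hg]
    exact div_ne_zero hY0 hP0
  have hPne : ∀ᶠ u in 𝓝 r, P₁.eval u ≠ 0 := P₁.continuous.continuousAt.eventually_ne hP0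
  have hquot : ∀ u : ℂ, u ≠ r → Y.eval u / P.eval u = (u - r) ^ (-((m : ℤ) + 1)) * g u := by
    intro u hu
    have hu' : u - r ≠ 0 := sub_ne_zero.2 hu
    rw [hP1, hY1, hm, hg]
    simp only [eval_mul, eval_pow, eval_sub, eval_X, eval_C]
    have e1 : (u - r) ^ ((m : ℤ) + 1) = (u - r) ^ (m + 1) := by
      rw [← zpow_natCast]; push_cast; rfl
    rw [zpow_neg, e1, pow_add, mul_assoc, mul_div_mul_left _ _ (pow_ne_zero _ hu'), ← div_div, div_right_comm, div_eq_inv_mul]
  -- lower bounds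
  have hd : ∀ᶠ u in 𝓝[≠] r, deriv (fun z => Y.eval z / P.eval z) u =
      (u - r) ^ (-((m : ℤ) + 2)) * (-((m : ℂ) + 1) * g u + (u - r) * deriv g u) := by
    filter_upwards [self_mem_nhdsWithin, mem_nhdsWithin_of_mem_nhds hgan.eventually_analyticAt] with u hu hgu
    have hu1 : u ≠ r := hu
    have hu' : u - r ≠ 0 := sub_ne_zero.2 hu1
    have e1 : (fun z => Y.eval z / P.eval z) =ᶠ[𝓝 u] fun z => (z - r) ^ (-((m : ℤ) + 1)) * g z := by
      filter_upwards [isOpen_ne.mem_nhds hu1] with z hz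
      exact hquot z hz
    rw [e1.deriv_eq]
    have e2 : HasDerivAt (fun z : ℂ => (z - r) ^ (-((m : ℤ) + 1))) (((-((m : ℤ) + 1) : ℤ) : ℂ) * (u - r) ^ (-((m : ℤ) + 1) - 1) * 1) u := by
      have e3 := (hasDerivAt_zpow (-((m : ℤ) + 1)) (u - r) (Or.inl hu')).comp u ((hasDerivAt_id u).sub_const r)
      exact e3
    have e4 : HasDerivAt g (deriv g u) u := hgu.differentiableAt.hasDerivAt
    have e7 : HasDerivAt (fun z : ℂ => (z - r) ^ (-((m : ℤ) + 1)) * g z)
        ((((-((m : ℤ) + 1) : ℤ) : ℂ) * (u - r) ^ (-((m : ℤ) + 1) - 1) * 1) * g u + (u - r) ^ (-((m : ℤ) + 1)) * deriv g u) u := e2.mul e4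
    rw [e7.deriv]
    have e5 : (-((m : ℤ) + 1) - 1) = -((m : ℤ) + 2) := by ring
    have e6 : (u - r) ^ (-((m : ℤ) + 1)) = (u - r) ^ (-((m : ℤ) + 2)) * (u - r) := by
      rw [← zpow_add_one₀ hu']
      congr 1
    rw [e5, e6]
    push_cast
    ring
  -- the product stays away from zero
  have hlow : ∃ c : ℝ, 0 < c ∧ ∀ᶠ u in 𝓝[≠] r, c ≤ ‖Y.eval u / P.eval u‖ ^ a * ‖deriv (fun z => Y.eval z / P.eval z) u‖ := by
    have hgn : 0 < ‖g r‖ := norm_pos_iff.2 hg0
    have f1 : ∀ᶠ u in 𝓝 r, ‖g r‖ / 2 < ‖g u‖ :=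
      hgan.continuousAt.norm.eventually_const_lt (by linarith)
    have f2 : ∀ᶠ u in 𝓝 r, ‖g r‖ / 2 < ‖-((m : ℂ) + 1) * g u + (u - r) * deriv g u‖ := by
      have f3 : ContinuousAt (fun u => ‖-((m : ℂ) + 1) * g u + (u - r) * deriv g u‖) r :=
        ((continuousAt_const.mul hgan.continuousAt).add
          ((continuousAt_id.sub continuousAt_const).mul hgan.deriv.continuousAt)).norm
      refine f3.eventually_const_lt ?_
      simp only [sub_self, zero_mul, add_zero, norm_mul, norm_neg]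
      have f4 : (1 : ℝ) ≤ ‖(m : ℂ) + 1‖ := by
        have f5 : ((m : ℂ) + 1) = ((m + 1 : ℕ) : ℂ) := by push_cast; ring
        rw [f5, Complex.norm_natCast]
        exact_mod_cast Nat.succ_le_succ (Nat.zero_le m)
      nlinarith
    have f6 : ∀ᶠ u in 𝓝 r, ‖u - r‖ < 1 := by
      have := ball_mem_nhds r one_pos
      filter_upwards [this] with u hu
      rwa [mem_ball, dist_eq_norm] at hu
    refine ⟨(‖g r‖ / 2) ^ a * (‖g r‖ / 2), by positivity, ?_⟩
    filter_upwards [self_mem_nhdsWithin, hd, mem_nhdsWithin_of_mem_nhds f1, mem_nhdsWithin_of_mem_nhds f2,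
      mem_nhdsWithin_of_mem_nhds f6] with u g1 g2 g3 g4 g5
    have g1' : u ≠ r := g1
    have hpos : 0 < ‖u - r‖ := norm_pos_iff.2 (sub_ne_zero.2 g1')
    have hz : ∀ k : ℕ, 1 ≤ ‖(u - r) ^ (-((m : ℤ) + k))‖ := by
      intro k
      rw [norm_zpow, zpow_neg, ← inv_zpow, ← Nat.cast_add, zpow_natCast]
      exact one_le_pow₀ ((one_le_inv₀ hpos).2 g5.le)
    rw [g2, hquot u g1', norm_mul, norm_mul]
    have k1 := hz 1
    have k2 := hz 2
    push_cast at k1 k2
    have k3 : ‖g r‖ / 2 ≤ ‖(u - r) ^ (-((m : ℤ) + 1))‖ * ‖g u‖ := by nlinarith [norm_nonneg (g u)]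
    have k4 : ‖g r‖ / 2 ≤ ‖(u - r) ^ (-((m : ℤ) + 2))‖ * ‖-((m : ℂ) + 1) * g u + (u - r) * deriv g u‖ := by
      nlinarith [norm_nonneg (-((m : ℂ) + 1) * g u + (u - r) * deriv g u)]
    have k5 : (‖g r‖ / 2) ^ a ≤ (‖(u - r) ^ (-((m : ℤ) + 1))‖ * ‖g u‖) ^ a :=
      Real.rpow_le_rpow (by positivity) k3 ha.le
    exact mul_le_mul k5 k4 (by positivity) (by positivity)
  obtain ⟨c, hc, hc2⟩ := hlow
  have h3 := h.eventually_lt_const hc
  obtain ⟨u, hu1, hu2⟩ := (hc2.and h3).exists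
  linarith

/-- MODULE Alg. -/
theorem alg {M : ℕ} {P Y : Polynomial ℂ} (hP : P.Monic) (hPd : P.natDegree = M) (hY : Y.Monic)
    (hYd : Y.natDegree = M + 1) (hP0 : P.eval 0 = 0) {a b : ℝ} (ha : 0 < a) (hb : 0 < b)
    (h : ∀ R : ℝ, ∃ C : ℝ, ∀ u : ℂ, ‖u‖ < R → P.eval u ≠ 0 → Y.eval u ≠ 0 →
      ‖Y.eval u / P.eval u‖ ^ a * ‖deriv (fun z => Y.eval z / P.eval z) u‖ ≤ C * ‖P.eval u‖ ^ b) :
    P = X ^ M ∧ Y = X ^ (M + 1) := by
  have hPn : P ≠ 0 := hP.ne_zero
  have hYn : Y ≠ 0 := hY.ne_zero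
  -- the punctured limit at a root
  have hlim : ∀ r : ℂ, P.eval r = 0 →
      Tendsto (fun u : ℂ => ‖Y.eval u / P.eval u‖ ^ a * ‖deriv (fun z => Y.eval z / P.eval z) u‖) (𝓝[≠] r) (𝓝 0) := by
    intro r hr
    obtain ⟨C, hC⟩ := h (‖r‖ + 1)
    have e1 : ∀ᶠ u in 𝓝 r, ‖u‖ < ‖r‖ + 1 := continuous_norm.continuousAt.eventually_lt_const (by linarith)
    have e2 : ∀ A : Polynomial ℂ, A ≠ 0 → ∀ᶠ u in 𝓝[≠] r, A.eval u ≠ 0 := by
      intro A hA
      have e3 : ((A.roots.toFinset.erase r : Finset ℂ) : Set ℂ)ᶜ ∈ 𝓝 r :=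
        (Finset.isClosed _).isOpen_compl.mem_nhds (by simp)
      filter_upwards [self_mem_nhdsWithin, mem_nhdsWithin_of_mem_nhds e3] with y hy1 hy2 hy3
      refine hy2 ?_
      rw [Finset.mem_coe, Finset.mem_erase, Multiset.mem_toFinset]
      exact ⟨hy1, (mem_roots hA).2 hy3⟩
    have e4 : Tendsto (fun u : ℂ => C * ‖P.eval u‖ ^ b) (𝓝[≠] r) (𝓝 0) := by
      have e5 : ContinuousAt (fun u : ℂ => C * ‖P.eval u‖ ^ b) r :=
        continuousAt_const.mul (P.continuous.continuousAt.norm.rpow_const (Or.inr hb.le))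
      have e6 := e5.tendsto
      simp only [hr, norm_zero] at e6
      rw [Real.zero_rpow hb.ne', mul_zero] at e6
      exact e6.mono_left nhdsWithin_le_nhds
    refine tendsto_of_tendsto_of_tendsto_of_le_of_le' tendsto_const_nhds e4 ?_ ?_
    · exact Eventually.of_forall fun u => by positivity
    · filter_upwards [mem_nhdsWithin_of_mem_nhds e1, e2 P hPn, e2 Y hYn] with u g1 g2 g3
      exact hC u g1 g2 g3
  -- `P` divides `Y`
  have hdvd : P ∣ Y := by
    classical
    rw [IsAlgClosed.dvd_iff_roots_le_roots hPn hYn, Multiset.le_iff_count]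
    intro r
    rw [count_roots, count_roots]
    by_cases hr : P.eval r = 0
    · exact alg_mult hPn hYn ha (hlim r hr)
    · rw [rootMultiplicity_eq_zero hr]
      exact Nat.zero_le _
  obtain ⟨S, hS⟩ := hdvd
  have hSm : S.Monic := by
    have := hY
    rw [hS] at this
    exact hP.of_mul_monic_left this
  have hSd : S.natDegree = 1 := by
    have e1 := hP.natDegree_mul hSm
    rw [← hS, hYd, hPd] at e1
    omega
  obtain ⟨c, hc⟩ : ∃ c : ℂ, S = X + C c := ⟨S.coeff 0, hSm.eq_X_add_C hSd⟩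
  -- the roots of `P` are `-c`
  have hroot : ∀ r : ℂ, P.eval r = 0 → r = -c := by
    intro r hr
    by_contra hne
    have hrc : r + c ≠ 0 := fun h0 => hne (eq_neg_of_add_eq_zero_left h0)
    have e1 : (fun u : ℂ => ‖Y.eval u / P.eval u‖ ^ a * ‖deriv (fun z => Y.eval z / P.eval z) u‖) =ᶠ[𝓝[≠] r]
        fun u => ‖u + c‖ ^ a := by
      have e2 : ∀ᶠ u in 𝓝[≠] r, P.eval u ≠ 0 := by
        have e3 : ((P.roots.toFinset.erase r : Finset ℂ) : Set ℂ)ᶜ ∈ 𝓝 r :=
          (Finset.isClosed _).isOpen_compl.mem_nhds (by simp)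
        filter_upwards [self_mem_nhdsWithin, mem_nhdsWithin_of_mem_nhds e3] with y hy1 hy2 hy3
        refine hy2 ?_
        rw [Finset.mem_coe, Finset.mem_erase, Multiset.mem_toFinset]
        exact ⟨hy1, (mem_roots hPn).2 hy3⟩
      filter_upwards [e2] with u hu
      have e4 : ∀ z : ℂ, P.eval z ≠ 0 → Y.eval z / P.eval z = z + c := by
        intro z hz
        rw [hS, hc, eval_mul, mul_div_cancel_left₀ _ hz]
        simp
      have e5 : (fun z => Y.eval z / P.eval z) =ᶠ[𝓝 u] fun z => z + c := by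
        filter_upwards [P.continuous.continuousAt.eventually_ne hu] with z hz
        exact e4 z hz
      rw [e5.deriv_eq, e4 u hu]
      simp
    have e6 : Tendsto (fun u : ℂ => ‖u + c‖ ^ a) (𝓝[≠] r) (𝓝 (‖r + c‖ ^ a)) := by
      have e7 : ContinuousAt (fun u : ℂ => ‖u + c‖ ^ a) r :=
        (continuousAt_id.add continuousAt_const).norm.rpow_const (Or.inr ha.le)
      exact e7.tendsto.mono_left nhdsWithin_le_nhds
    have e8 := tendsto_nhds_unique ((hlim r hr).congr' e1) e6
    have e9 : 0 < ‖r + c‖ ^ a := Real.rpow_pos_of_pos (norm_pos_iff.2 hrc) _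
    linarith
  have hc0 : c = 0 := by
    have := hroot 0 hP0
    exact neg_eq_zero.1 this.symm
  have hPX : P = X ^ M := by
    have e1 : P.roots = Multiset.replicate M 0 := by
      rw [Multiset.eq_replicate]
      refine ⟨?_, ?_⟩
      · rw [← hPd]
        exact (IsAlgClosed.splits P).natDegree_eq_card_roots.symm
      · intro r hr
        rw [hroot r ((mem_roots hPn).1 hr), hc0, neg_zero]
    have e2 := (IsAlgClosed.splits P).eq_prod_roots_of_monic hP
    rw [e1] at e2
    rw [e2]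
    simp
  refine ⟨hPX, ?_⟩
  rw [hS, hc, hc0, hPX]
  simp [pow_succ]

end Pool.Agent.SG

end
end

section

/-!
# SG DuvZ: a bounded function with the sub-mean property which tends to zero at both ends of the strip direction

If `ψ ≥ 0` is continuous and bounded on `ℂ`, is at most its mean over every circle about `z₀`, and `ψ z → 0` as `|re z| → ∞`, uniformly, then `ψ z₀ = 0`.
-/

set_option autoImplicit false

open Topology Filter Metric MeasureTheory

namespace Pool.Agent.SG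

/-- for all `θ` outside a countable set the circle points go to infinity in the real direction -/
private theorem dz_ae_cos : ∀ᵐ θ : ℝ, Real.cos θ ≠ 0 := by
  have h : {θ : ℝ | Real.cos θ = 0} ⊆ Set.range fun k : ℤ => (2 * (k : ℝ) + 1) * Real.pi / 2 := by
    intro θ hθ
    obtain ⟨k, hk⟩ := Real.cos_eq_zero_iff.1 hθ
    exact ⟨k, hk.symm⟩
  have h2 : (volume : Measure ℝ) {θ : ℝ | Real.cos θ = 0} = 0 :=
    ((Set.countable_range _).mono h).measure_zero _
  rw [ae_iff]
  simpa using h2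

/-- MODULE DuvZ. -/
theorem duv_zero {ψ : ℂ → ℝ} (hc : Continuous ψ) (h0 : ∀ z, 0 ≤ ψ z) {B : ℝ} (hB : ∀ z, ψ z ≤ B) {z₀ : ℂ}
    (hsub : ∀ r : ℝ, 0 < r → ψ z₀ ≤ Real.circleAverage ψ z₀ r) (hlim : ∀ ε : ℝ, 0 < ε → ∃ L : ℝ, ∀ z : ℂ, L ≤ |z.re| → ψ z ≤ ε) :
    ψ z₀ = 0 := by
  have key : Tendsto (fun n : ℕ => ∫ θ in (0 : ℝ)..2 * Real.pi, ψ (circleMap z₀ n θ)) atTop (𝓝 (∫ _ in (0 : ℝ)..2 * Real.pi, (0 : ℝ))) := by
    refine intervalIntegral.tendsto_integral_filter_of_dominated_convergence (fun _ => B) ?_ ?_ ?_ ?_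
    · exact Eventually.of_forall fun n => (hc.comp (continuous_circleMap z₀ n)).aestronglyMeasurable
    · refine Eventually.of_forall fun n => Eventually.of_forall fun θ _ => ?_
      rw [Real.norm_of_nonneg (h0 _)]
      exact hB _
    · exact intervalIntegrable_const
    · filter_upwards [dz_ae_cos] with θ hθ _
      rw [Metric.tendsto_atTop]
      intro ε hε
      obtain ⟨L, hL⟩ := hlim (ε / 2) (by linarith)
      obtain ⟨N, hN⟩ := exists_nat_gt ((L + |z₀.re|) / |Real.cos θ|)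
      refine ⟨N, fun n hn => ?_⟩
      have hcos : 0 < |Real.cos θ| := abs_pos.2 hθ
      have h1 : L + |z₀.re| < n * |Real.cos θ| := by
        have h2 : (L + |z₀.re|) / |Real.cos θ| < n := hN.trans_le (by exact_mod_cast hn)
        rwa [div_lt_iff₀ hcos] at h2
      have h3 : (circleMap z₀ n θ).re = z₀.re + n * Real.cos θ := by
        simp [circleMap, Complex.exp_re]
      have h4 : L ≤ |(circleMap z₀ n θ).re| := by
        rw [h3]
        have h5 : |(n : ℝ) * Real.cos θ| = n * |Real.cos θ| := by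
          rw [abs_mul, abs_of_nonneg (Nat.cast_nonneg n)]
        have h6 : |(n : ℝ) * Real.cos θ| - |z₀.re| ≤ |z₀.re + n * Real.cos θ| := by
          have h7 := abs_sub_abs_le_abs_sub ((n : ℝ) * Real.cos θ) (-z₀.re)
          rw [abs_neg] at h7
          have h8 : (n : ℝ) * Real.cos θ - -z₀.re = z₀.re + n * Real.cos θ := by ring
          rwa [h8] at h7
        rw [h5] at h6
        linarith
      have h9 := hL _ h4
      rw [Real.dist_eq, sub_zero, abs_of_nonneg (h0 _)]
      linarith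
  have e0 : (∫ _ in (0 : ℝ)..2 * Real.pi, (0 : ℝ)) = 0 := by simp
  rw [e0] at key
  have key2 : Tendsto (fun n : ℕ => Real.circleAverage ψ z₀ n) atTop (𝓝 0) := by
    have e1 := key.const_mul (2 * Real.pi)⁻¹
    rw [mul_zero] at e1
    exact e1
  have h1 : ∀ᶠ n : ℕ in atTop, ψ z₀ ≤ Real.circleAverage ψ z₀ n := by
    filter_upwards [eventually_gt_atTop 0] with n hn
    exact hsub n (by exact_mod_cast hn)
  exact le_antisymm (ge_of_tendsto key2 h1) (h0 z₀)

end Pool.Agent.SG

end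

section

/-!
# SG LimC: two polynomial lemmas
-/

set_option autoImplicit false

open Topology Filter Metric Polynomial

noncomputable section

namespace Pool.Agent.SG

/-- a polynomial `A` of smaller degree with `A' Y = A Y'` is zero -/
theorem nk_wron {A Y : ℂ[X]} (hY : Y.Monic) (hd : A.natDegree < Y.natDegree) (h : derivative A * Y = A * derivative Y) : A = 0 := by
  by_contra hA
  obtain ⟨e, he⟩ : ∃ e, Y.natDegree = e + 1 := ⟨Y.natDegree - 1, by omega⟩
  have hc : A.coeff A.natDegree ≠ 0 := by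
    rw [coeff_natDegree]
    exact leadingCoeff_ne_zero.2 hA
  have hY1 : Y.coeff (e + 1) = 1 := by
    rw [← he]
    exact hY.coeff_natDegree
  have h2 : (A * derivative Y).coeff (A.natDegree + e) = A.coeff A.natDegree * ((e : ℂ) + 1) := by
    rw [coeff_mul_add_eq_of_natDegree_le le_rfl ((natDegree_derivative_le Y).trans (by omega)), coeff_derivative, hY1, one_mul]
  rcases Nat.eq_zero_or_pos A.natDegree with h0 | h0
  · have h3 : derivative A = 0 := by
      rw [eq_C_of_natDegree_eq_zero h0, derivative_C]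
    rw [← h, h3, zero_mul, coeff_zero] at h2
    have h4 : ((e : ℂ) + 1) ≠ 0 := by exact_mod_cast Nat.succ_ne_zero e
    exact (mul_ne_zero hc h4) h2.symm
  · obtain ⟨d, hd'⟩ : ∃ d, A.natDegree = d + 1 := ⟨A.natDegree - 1, by omega⟩
    have h3 : (derivative A * Y).coeff (d + (e + 1)) = (A.coeff (d + 1) * ((d : ℂ) + 1)) * 1 := by
      rw [coeff_mul_add_eq_of_natDegree_le ((natDegree_derivative_le A).trans (by omega)) he.le, coeff_derivative, hY1]
    rw [h, show d + (e + 1) = A.natDegree + e by omega, h2, hd', mul_one] at h3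
    rw [hd'] at hc
    have h4 := mul_left_cancel₀ hc h3
    have h5 : (e : ℂ) = d := add_right_cancel h4
    have h6 : e = d := by exact_mod_cast h5
    omega

/-- two polynomials which agree outside a disc are equal -/
theorem nk_eq {A B : ℂ[X]} {R : ℝ} (h : ∀ u : ℂ, R < ‖u‖ → A.eval u = B.eval u) : A = B := by
  refine Polynomial.eq_of_infinite_eval_eq A B ?_
  have h1 : Set.Infinite {u : ℂ | R < ‖u‖} := by
    have h2 : Set.Infinite (Set.Ioi (max R 0)) := Set.Ioi_infinite _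
    refine Set.infinite_of_injOn_mapsTo (f := fun x : ℝ => (x : ℂ)) (Complex.ofReal_injective.injOn) ?_ h2
    intro x hx
    have hx1 : max R 0 < x := hx
    show R < ‖(x : ℂ)‖
    rw [Complex.norm_real, Real.norm_of_nonneg ((le_max_right R 0).trans hx1.le)]
    exact (le_max_left R 0).trans_lt hx1
  exact h1.mono fun u hu => h u hu

/-- the limit of `t_n` is constant, so zero -/
theorem nk_zero {P A Y : ℂ[X]} (hY : Y.Monic) (hd : A.natDegree < Y.natDegree) {R : ℝ} (hP : ∀ u : ℂ, R < ‖u‖ → P.eval u ≠ 0)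
    (h : ∀ u : ℂ, R < ‖u‖ → deriv (fun z => A.eval z / P.eval z) u * (Y.eval u / P.eval u) =
      A.eval u / P.eval u * deriv (fun z => Y.eval z / P.eval z) u) : A = 0 := by
  refine nk_wron hY hd (nk_eq (R := R) fun u hu => ?_)
  have h1 := hP u hu
  have h2 := h u hu
  have h3 : ∀ B : ℂ[X], deriv (fun z => B.eval z / P.eval z) u =
      ((derivative B).eval u * P.eval u - B.eval u * (derivative P).eval u) / P.eval u ^ 2 := fun B => by
    rw [deriv_fun_div B.differentiableAt P.differentiableAt h1, Polynomial.deriv, Polynomial.deriv]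
  rw [h3 A, h3 Y, div_mul_div_comm, div_mul_div_comm, div_eq_div_iff (mul_ne_zero (pow_ne_zero _ h1) h1)
    (mul_ne_zero h1 (pow_ne_zero _ h1))] at h2
  rw [eval_mul, eval_mul]
  have h4 : P.eval u ^ 4 * ((derivative A).eval u * Y.eval u - A.eval u * (derivative Y).eval u) = 0 := by
    linear_combination h2
  have h5 := (mul_eq_zero.1 h4).resolve_left (pow_ne_zero _ h1)
  exact sub_eq_zero.1 h5

/-- vector coefficients of a polynomial function which vanishes off `0` are zero -/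
theorem nk_vec {N m : ℕ} {A : ℕ → EuclideanSpace ℂ (Fin (N + 1))} {w : EuclideanSpace ℂ (Fin (N + 1))}
    (h : ∀ u : ℂ, u ≠ 0 → ∑ j ∈ Finset.range m, u ^ j • A j + u ^ m • w = 0) : ∀ j ∈ Finset.range m, A j = 0 := by
  intro j hj
  ext i
  set p : ℂ[X] := ∑ j ∈ Finset.range m, C (A j i) * X ^ j + C (w i) * X ^ m with hp
  have h1 : p = 0 := by
    refine nk_eq (R := 0) fun u hu => ?_
    have h2 := h u (norm_pos_iff.1 hu)
    have h3 := congrArg (fun v : EuclideanSpace ℂ (Fin (N + 1)) => v i) h2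
    simp only [PiLp.add_apply, PiLp.smul_apply, PiLp.zero_apply, WithLp.ofLp_sum, Finset.sum_apply, smul_eq_mul] at h3
    rw [hp, eval_zero]
    simp only [eval_add, eval_finsetSum, eval_mul, eval_C, eval_pow, eval_X]
    rw [← h3]
    congr 1
    · exact Finset.sum_congr rfl fun j _ => mul_comm _ _
    · exact mul_comm _ _
  have h2 : p.coeff j = A j i := by
    rw [hp, coeff_add, finsetSum_coeff, coeff_C_mul_X_pow]
    have hjm : j < m := Finset.mem_range.1 hj
    rw [if_neg (by omega), add_zero, Finset.sum_eq_single j]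
    · rw [coeff_C_mul_X_pow, if_pos rfl]
    · intro b _ hb
      rw [coeff_C_mul_X_pow, if_neg (Ne.symm hb)]
    · intro h3
      exact absurd hj h3
  rw [← h2, h1, coeff_zero]
  rfl

end Pool.Agent.SG

end
end

section

/-!
# SG LimP: monic polynomials given by their coefficients
-/

set_option autoImplicit false

open Topology Filter Metric Polynomial

noncomputable section

namespace Pool.Agent.SG

theorem pl_deg (n : ℕ) (f : ℕ → ℂ) : (∑ j ∈ Finset.range n, C (f j) * X ^ j : ℂ[X]).degree < n := by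
  refine mem_degreeLT.1 (Submodule.sum_mem _ fun j hj => mem_degreeLT.2 ?_)
  exact (degree_C_mul_X_pow_le j (f j)).trans_lt (by exact_mod_cast Finset.mem_range.1 hj)

theorem pl_monic (n : ℕ) (f : ℕ → ℂ) : (∑ j ∈ Finset.range n, C (f j) * X ^ j + X ^ n : ℂ[X]).Monic := by
  rw [add_comm]
  exact monic_X_pow_add (pl_deg n f)

theorem pl_natDegree (n : ℕ) (f : ℕ → ℂ) : (∑ j ∈ Finset.range n, C (f j) * X ^ j + X ^ n : ℂ[X]).natDegree = n := by
  refine natDegree_eq_of_degree_eq_some ?_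
  rw [add_comm, degree_add_eq_left_of_degree_lt (by rw [degree_X_pow]; exact pl_deg n f), degree_X_pow]

theorem pl_natDegree_lt {n : ℕ} (hn : n ≠ 0) (f : ℕ → ℂ) : (∑ j ∈ Finset.range n, C (f j) * X ^ j : ℂ[X]).natDegree < n := by
  rcases eq_or_ne (∑ j ∈ Finset.range n, C (f j) * X ^ j : ℂ[X]) 0 with h | h
  · rw [h, natDegree_zero]
    exact Nat.pos_of_ne_zero hn
  · exact (natDegree_lt_iff_degree_lt h).2 (pl_deg n f)

theorem pl_eval0 (n : ℕ) (f : ℕ → ℂ) (u : ℂ) : (∑ j ∈ Finset.range n, C (f j) * X ^ j : ℂ[X]).eval u = ∑ j ∈ Finset.range n, u ^ j * f j := by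
  rw [eval_finsetSum]
  refine Finset.sum_congr rfl fun j _ => ?_
  rw [eval_mul, eval_C, eval_pow, eval_X, mul_comm]

theorem pl_eval (n : ℕ) (f : ℕ → ℂ) (u : ℂ) :
    (∑ j ∈ Finset.range n, C (f j) * X ^ j + X ^ n : ℂ[X]).eval u = ∑ j ∈ Finset.range n, u ^ j * f j + u ^ n := by
  rw [eval_add, pl_eval0, eval_pow, eval_X]

theorem pl_coeff {n : ℕ} {f : ℕ → ℂ} (h : (∑ j ∈ Finset.range n, C (f j) * X ^ j + X ^ n : ℂ[X]) = X ^ n) : ∀ j ∈ Finset.range n, f j = 0 := by
  intro j hj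
  have h1 : (∑ j ∈ Finset.range n, C (f j) * X ^ j : ℂ[X]) = 0 := by
    rwa [add_eq_right] at h
  have h2 : (∑ j ∈ Finset.range n, C (f j) * X ^ j : ℂ[X]).coeff j = f j := by
    rw [finsetSum_coeff, Finset.sum_eq_single j]
    · rw [coeff_C_mul_X_pow, if_pos rfl]
    · intro b _ hb
      rw [coeff_C_mul_X_pow, if_neg (Ne.symm hb)]
    · intro h3
      exact absurd hj h3
  rw [← h2, h1, coeff_zero]

theorem pl_roots {p : ℂ[X]} (hp : p ≠ 0) : ∃ R : ℝ, ∀ u : ℂ, R < ‖u‖ → p.eval u ≠ 0 := by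
  have h1 : Set.Finite {u : ℂ | p.IsRoot u} := finite_setOfPred_isRoot hp
  obtain ⟨R, hR⟩ := h1.isBounded.subset_closedBall (0 : ℂ)
  refine ⟨R, fun u hu h0 => ?_⟩
  have h2 := hR (show u ∈ {u : ℂ | p.IsRoot u} from h0)
  rw [mem_closedBall_zero_iff] at h2
  linarith

end Pool.Agent.SG

end
end

section

/-!
# SG RSyl: the equation of a rational plane curve

The resultant of the polynomials `y₀ a₁ - y₁ a₀` and `y₀ a₂ - y₂ a₀`.
-/

set_option autoImplicit false

open Topology Filter Metric MvPolynomial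

noncomputable section

namespace Pool.Agent.SG

/-- the minor -/
private def RSyl_mn (a : Fin 3 → Polynomial ℂ) (i : Fin 3) : Polynomial (MvPolynomial (Fin 3) ℂ) :=
  Polynomial.C (X 0) * (a i).map MvPolynomial.C - Polynomial.C (X i) * (a 0).map MvPolynomial.C

private theorem RSyl_coeff (a : Fin 3 → Polynomial ℂ) (i : Fin 3) (k : ℕ) : ((RSyl_mn a i).coeff k).IsHomogeneous 1 := by
  unfold RSyl_mn
  rw [Polynomial.coeff_sub, Polynomial.coeff_C_mul, Polynomial.coeff_C_mul, Polynomial.coeff_map, Polynomial.coeff_map]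
  refine MvPolynomial.IsHomogeneous.sub (R := ℂ) ?_ ?_
  · have h := (MvPolynomial.isHomogeneous_X ℂ (0 : Fin 3)).mul (MvPolynomial.isHomogeneous_C (Fin 3) ((a i).coeff k))
    rwa [add_zero] at h
  · have h := (MvPolynomial.isHomogeneous_X ℂ i).mul (MvPolynomial.isHomogeneous_C (Fin 3) ((a 0).coeff k))
    rwa [add_zero] at h

/-- the minor at a point -/
private def RSyl_mnY (a : Fin 3 → Polynomial ℂ) (i : Fin 3) (y : Fin 3 → ℂ) : Polynomial ℂ :=
  Polynomial.C (y 0) * a i - Polynomial.C (y i) * a 0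

private theorem RSyl_map (a : Fin 3 → Polynomial ℂ) (i : Fin 3) (y : Fin 3 → ℂ) :
    (RSyl_mn a i).map (MvPolynomial.eval y) = RSyl_mnY a i y := by
  unfold RSyl_mn RSyl_mnY
  have h : ∀ q : Polynomial ℂ, (q.map (MvPolynomial.C : ℂ →+* MvPolynomial (Fin 3) ℂ)).map (MvPolynomial.eval y) = q := by
    intro q
    rw [Polynomial.map_map]
    have h1 : (MvPolynomial.eval y).comp (MvPolynomial.C : ℂ →+* MvPolynomial (Fin 3) ℂ) = RingHom.id ℂ := by
      ext x
      simp
    rw [h1, Polynomial.map_id]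
  rw [Polynomial.map_sub, Polynomial.map_mul, Polynomial.map_mul, h, h, Polynomial.map_C, Polynomial.map_C, eval_X, eval_X]

private theorem RSyl_deg {d : ℕ} {a : Fin 3 → Polynomial ℂ} (ha : ∀ i, (a i).natDegree ≤ d) (i : Fin 3) (y : Fin 3 → ℂ) :
    (RSyl_mnY a i y).natDegree ≤ d := by
  unfold RSyl_mnY
  exact (Polynomial.natDegree_sub_le _ _).trans (max_le ((Polynomial.natDegree_C_mul_le _ _).trans (ha i))
    ((Polynomial.natDegree_C_mul_le _ _).trans (ha 0)))

private theorem RSyl_eval (a : Fin 3 → Polynomial ℂ) (i : Fin 3) (y : Fin 3 → ℂ) (u : ℂ) :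
    (RSyl_mnY a i y).eval u = 0 ↔ y 0 * (a i).eval u = y i * (a 0).eval u := by
  simp only [RSyl_mnY, Polynomial.eval_sub, Polynomial.eval_mul, Polynomial.eval_C, sub_eq_zero]

private theorem RSyl_coeffY (a : Fin 3 → Polynomial ℂ) (i : Fin 3) (y : Fin 3 → ℂ) (k : ℕ) :
    (RSyl_mnY a i y).coeff k = 0 ↔ y 0 * (a i).coeff k = y i * (a 0).coeff k := by
  simp only [RSyl_mnY, Polynomial.coeff_sub, Polynomial.coeff_C_mul, sub_eq_zero]

/-- the determinant of a matrix of forms of degree one -/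
private theorem RSyl_det {n : ℕ} (M : Matrix (Fin n) (Fin n) (MvPolynomial (Fin 3) ℂ)) (h : ∀ i j, (M i j).IsHomogeneous 1) :
    M.det.IsHomogeneous n := by
  rw [Matrix.det_apply]
  refine MvPolynomial.IsHomogeneous.sum _ _ _ fun σ _ => ?_
  have h1 : (∏ i, M (σ i) i).IsHomogeneous (∑ _i : Fin n, 1) := MvPolynomial.IsHomogeneous.prod _ _ _ fun i _ => h _ _
  rw [Finset.sum_const, Finset.card_univ, Fintype.card_fin, smul_eq_mul, mul_one] at h1
  rcases Int.units_eq_one_or (Equiv.Perm.sign σ) with h2 | h2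
  · rw [h2, one_smul]
    exact h1
  · rw [h2, Units.neg_smul, one_smul]
    exact h1.neg

private theorem RSyl_homog {d : ℕ} {f g : Polynomial (MvPolynomial (Fin 3) ℂ)} (hf : ∀ k, (f.coeff k).IsHomogeneous 1)
    (hg : ∀ k, (g.coeff k).IsHomogeneous 1) : (Polynomial.resultant f g d d).IsHomogeneous (2 * d) := by
  rw [two_mul]
  unfold Polynomial.resultant
  refine RSyl_det _ fun i j => ?_
  induction j using Fin.addCases with
  | left j =>
    simp only [Polynomial.sylvester, Matrix.of_apply, Fin.addCases_left]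
    split_ifs
    · exact hg _
    · exact MvPolynomial.isHomogeneous_zero _ _ _
  | right j =>
    simp only [Polynomial.sylvester, Matrix.of_apply, Fin.addCases_right]
    split_ifs
    · exact hf _
    · exact MvPolynomial.isHomogeneous_zero _ _ _

/-- a common root, from the vanishing of the resultant -/
private theorem RSyl_root {d : ℕ} (hd : 1 ≤ d) {f g : Polynomial ℂ} (hf : f.natDegree = d) (hg : g.natDegree ≤ d)
    (h : Polynomial.resultant f g d d = 0) : ∃ z, f.eval z = 0 ∧ g.eval z = 0 := by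
  have h1 := Polynomial.resultant_eq_prod_eval f g d hg (IsAlgClosed.splits f)
  rw [hf, h] at h1
  have hf0 : f ≠ 0 := by
    rintro rfl
    rw [Polynomial.natDegree_zero] at hf
    omega
  have h2 : (f.roots.map fun z => g.eval z).prod = 0 := by
    rcases mul_eq_zero.1 h1.symm with h3 | h3
    · exact absurd h3 (pow_ne_zero _ (Polynomial.leadingCoeff_ne_zero.2 hf0))
    · exact h3
  obtain ⟨z, hz, hz2⟩ := Multiset.mem_map.1 (Multiset.prod_eq_zero_iff.1 h2)
  exact ⟨z, (Polynomial.mem_roots hf0).1 hz, hz2⟩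

/-- **The equation of a rational plane curve.** -/
theorem exists_det {d : ℕ} (hd : 1 ≤ d) (a : Fin 3 → Polynomial ℂ) (ha : ∀ i, (a i).natDegree ≤ d) :
    ∃ G : MvPolynomial (Fin 3) ℂ, G.IsHomogeneous (2 * d) ∧ ∀ y : Fin 3 → ℂ, eval y G = 0 ↔
      (∃ u : ℂ, y 0 * (a 1).eval u = y 1 * (a 0).eval u ∧ y 0 * (a 2).eval u = y 2 * (a 0).eval u) ∨
      (y 0 * (a 1).coeff d = y 1 * (a 0).coeff d ∧ y 0 * (a 2).coeff d = y 2 * (a 0).coeff d) := by
  refine ⟨Polynomial.resultant (RSyl_mn a 1) (RSyl_mn a 2) d d, RSyl_homog (RSyl_coeff a 1) (RSyl_coeff a 2), fun y => ?_⟩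
  have h1 : MvPolynomial.eval y (Polynomial.resultant (RSyl_mn a 1) (RSyl_mn a 2) d d) =
      Polynomial.resultant (RSyl_mnY a 1 y) (RSyl_mnY a 2 y) d d := by
    rw [← Polynomial.resultant_map_map, RSyl_map, RSyl_map]
  rw [h1]
  constructor
  · intro h
    by_cases hb : (RSyl_mnY a 1 y).natDegree = d
    · obtain ⟨z, h2, h3⟩ := RSyl_root hd hb (RSyl_deg ha 2 y) h
      exact Or.inl ⟨z, (RSyl_eval a 1 y z).1 h2, (RSyl_eval a 2 y z).1 h3⟩
    · by_cases hc : (RSyl_mnY a 2 y).natDegree = d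
      · have h4 := h
        rw [Polynomial.resultant_comm] at h4
        have h5 := (mul_eq_zero.1 h4).resolve_left (pow_ne_zero _ (neg_ne_zero.2 one_ne_zero))
        obtain ⟨z, h2, h3⟩ := RSyl_root hd hc (RSyl_deg ha 1 y) h5
        exact Or.inl ⟨z, (RSyl_eval a 1 y z).1 h3, (RSyl_eval a 2 y z).1 h2⟩
      · have h2 := Polynomial.coeff_eq_zero_of_natDegree_lt (lt_of_le_of_ne (RSyl_deg ha 1 y) hb)
        have h3 := Polynomial.coeff_eq_zero_of_natDegree_lt (lt_of_le_of_ne (RSyl_deg ha 2 y) hc)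
        exact Or.inr ⟨(RSyl_coeffY a 1 y d).1 h2, (RSyl_coeffY a 2 y d).1 h3⟩
  · rintro (⟨z, h2, h3⟩ | ⟨h2, h3⟩)
    · obtain ⟨u, v, -, -, huv⟩ := Polynomial.exists_mul_add_mul_eq_C_resultant (RSyl_mnY a 1 y) (RSyl_mnY a 2 y)
        (RSyl_deg ha 1 y) (RSyl_deg ha 2 y) (Or.inl (by omega : d ≠ 0))
      have h4 := congrArg (fun q : Polynomial ℂ => q.eval z) huv
      simp only [Polynomial.eval_add, Polynomial.eval_mul, Polynomial.eval_C] at h4
      rw [← h4, (RSyl_eval a 1 y z).2 h2, (RSyl_eval a 2 y z).2 h3, zero_mul, zero_mul, add_zero]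
    · have hlt : ∀ {f : Polynomial ℂ}, f.natDegree ≤ d → f.coeff d = 0 → f.natDegree < d := by
        intro f hf h0
        refine lt_of_le_of_ne hf fun he => ?_
        have h5 : f.leadingCoeff = 0 := by
          rw [Polynomial.leadingCoeff, he]
          exact h0
        rw [Polynomial.leadingCoeff_eq_zero.1 h5, Polynomial.natDegree_zero] at he
        omega
      exact Polynomial.resultant_eq_zero_of_lt_lt _ _ _ _ (hlt (RSyl_deg ha 1 y) ((RSyl_coeffY a 1 y d).2 h2))
        (hlt (RSyl_deg ha 2 y) ((RSyl_coeffY a 2 y d).2 h3))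

end Pool.Agent.SG

end
end

section

/-!
# SG Tot: the total transform near a point of the exceptional curve

`total_exc`: if `T` has no points in a small cone around the first axis of the chart `σ` at `q`, then the total transform of `T` is, near the point of
the exceptional curve which corresponds to the first axis, the exceptional curve `{p.1 = 0}`.
`lin_cone`: the hyperplane `l = 0`.
-/

set_option autoImplicit false

open Topology Filter Metric

noncomputable section

namespace Pool.Agent.SG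

variable {V : Type} [NormedAddCommGroup V] [NormedSpace ℂ V] {X T : Set V}

/-- a linear form which is not zero on the axis -/
theorem lin_cone {σ : ℂ × ℂ → V} (hσ : AnalyticAt ℂ σ 0) {l : V →L[ℂ] ℂ} (h0 : l (σ 0) = 0) (h1 : l (fderiv ℂ σ 0 (1, 0)) ≠ 0) :
    ∃ ε : ℝ, 0 < ε ∧ ∀ᶠ p in 𝓝 (0 : ℂ × ℂ), ‖p.2‖ < ε * ‖p.1‖ → l (σ p) ≠ 0 := by
  obtain ⟨A, hA⟩ : ∃ A : ℂ × ℂ →L[ℂ] ℂ, A = l.comp (fderiv ℂ σ 0) := ⟨_, rfl⟩
  have hd : HasFDerivAt (fun p => l (σ p)) A 0 := by
    rw [hA]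
    exact l.hasFDerivAt.comp (0 : ℂ × ℂ) hσ.differentiableAt.hasFDerivAt
  have h1' : 0 < ‖A (1, 0)‖ := by
    rw [hA]
    exact norm_pos_iff.2 h1
  set a : ℝ := ‖A (1, 0)‖ with ha
  have hε : 0 < min 1 (a / (4 * (‖A‖ + 1))) := lt_min one_pos (by positivity)
  refine ⟨min 1 (a / (4 * (‖A‖ + 1))), hε, ?_⟩
  have h2 : ∀ᶠ p in 𝓝 (0 : ℂ × ℂ), ‖l (σ p) - A p‖ ≤ a / 4 * ‖p‖ := by
    have h3 := hd.isLittleO.def (show 0 < a / 4 by positivity)
    filter_upwards [h3] with p hp
    simpa [h0] using hp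
  filter_upwards [h2] with p hp hp2 hp3
  have h4 : ‖p.2‖ < ‖p.1‖ := by
    have h5 : min 1 (a / (4 * (‖A‖ + 1))) * ‖p.1‖ ≤ 1 * ‖p.1‖ := mul_le_mul_of_nonneg_right (min_le_left _ _) (norm_nonneg _)
    linarith
  have h5 : ‖p‖ = ‖p.1‖ := by
    rw [Prod.norm_def]
    exact max_eq_left h4.le
  rw [hp3, zero_sub, norm_neg, h5] at hp
  have h6 : p = p.1 • ((1 : ℂ), (0 : ℂ)) + ((0 : ℂ), p.2) := by
    ext <;> simp
  have h7 : A p = p.1 • A (1, 0) + A (0, p.2) := by
    conv_lhs => rw [h6]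
    rw [map_add, map_smul]
  have h8 : ‖A (0, p.2)‖ ≤ ‖A‖ * ‖p.2‖ := by
    refine (A.le_opNorm _).trans_eq ?_
    rw [Prod.norm_def]
    simp
  have h9 : ‖A‖ * ‖p.2‖ ≤ a / 4 * ‖p.1‖ := by
    have h10 : ‖p.2‖ ≤ a / (4 * (‖A‖ + 1)) * ‖p.1‖ :=
      hp2.le.trans (mul_le_mul_of_nonneg_right (min_le_right _ _) (norm_nonneg _))
    have h11 : 0 ≤ ‖A‖ := norm_nonneg _
    calc ‖A‖ * ‖p.2‖ ≤ (‖A‖ + 1) * (a / (4 * (‖A‖ + 1)) * ‖p.1‖) := by
          refine mul_le_mul (by linarith) h10 (norm_nonneg _) (by positivity)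
      _ = a / 4 * ‖p.1‖ := by
          field_simp
  have h12 : ‖p.1 • A (1, 0)‖ = ‖p.1‖ * a := norm_smul _ _
  have h13 : ‖p.1 • A (1, 0)‖ ≤ ‖A p‖ + ‖A (0, p.2)‖ := by
    have : p.1 • A (1, 0) = A p - A (0, p.2) := by rw [h7, add_sub_cancel_right]
    rw [this]
    exact norm_sub_le _ _
  have h14 : 0 < ‖p.1‖ := (norm_nonneg _).trans_lt h4
  nlinarith

variable {ι : Type} [Fintype ι] {l : ι → V →L[ℂ] ℂ}

end Pool.Agent.SG

end
end
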