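import Pool.Agent.H94.G6.M106
import Pool.Agent.H94.G6.M110
import Pool.Agent.H94.G6.M41
import Pool.Agent.H94.G6.M42
import Pool.Agent.H94.G6.M51
import Pool.Agent.H94.G6.M77
import Pool.Agent.H94.G6.M81

/-! The parts of this file: H36.TB.EnX, H62.Qe.Loc, H62.Qe.Lift, MQ.Sieg, MQ3.GReg0, SG.BoxA, SG.Box. -/

section

/-!
# TB EnX: the chart of the blow-up at a point of the exceptional curve

With `m p = (p.1, p.1 * p.2)`: `phi l (σ (m p)) = p.1 • σ₁ p`, `(σ₁ p) b = R p • σ (m p)`, `l b (σ (m p)) = p.1 * R p`, `R 0 ≠ 0`.  The factor `R` cancels in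
`om l j Ω (σ₁ p) (∂₁ σ₁) (∂₂ σ₁) = l b (R σ) ^ j * Ω (R σ) (R Dσ (1, p.2)) (R Dσ (0, p.1)) ^ 2 = p.1 ^ (2 m + j) * (coefficient of Ω at m p) ^ 2`.
-/

set_option autoImplicit false
set_option linter.unusedSectionVars false

open Topology Filter Metric

noncomputable section

namespace Pool.Agent.H36.TB

open Pool.Agent.H17BP (Surface IsForm IsChart surface_iff chart_iff isForm_iff)
open Pool.Agent.H62.BU (blow total Ker phi om)

/-- cancellation of the first coordinate -/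
theorem cancel_fst {E : Type*} [NormedAddCommGroup E] [NormedSpace ℂ E] [CompleteSpace E] {f g : ℂ × ℂ → E} (hf : AnalyticAt ℂ f 0)
    (hg : AnalyticAt ℂ g 0) (h : ∀ᶠ p in 𝓝 (0 : ℂ × ℂ), p.1 • f p = p.1 • g p) : ∀ᶠ p in 𝓝 (0 : ℂ × ℂ), f p = g p := by
  filter_upwards [hf.eventually_analyticAt, hg.eventually_analyticAt, h.eventually_nhds] with p h1 h2 h3
  by_cases h4 : p.1 = 0
  · have a3 : Tendsto (fun u : ℂ => ((u, p.2) : ℂ × ℂ)) (𝓝[≠] 0) (𝓝 p) := by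
      have : Tendsto (fun u : ℂ => ((u, p.2) : ℂ × ℂ)) (𝓝 0) (𝓝 (0, p.2)) :=
        (continuous_id.prodMk continuous_const).tendsto 0
      have e : ((0 : ℂ), p.2) = p := by rw [← h4]
      rw [e] at this
      exact this.mono_left nhdsWithin_le_nhds
    refine tendsto_nhds_unique ((h1.continuousAt.tendsto.comp a3).congr' ?_) (h2.continuousAt.tendsto.comp a3)
    filter_upwards [a3.eventually h3, self_mem_nhdsWithin] with u hu hu0
    exact smul_right_injective E (r := u) hu0 hu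
  · exact smul_right_injective E (r := p.1) h4 h3.self_of_nhds

/-- scaling of tangent vectors -/
theorem tan_smul {W : Type*} [NormedAddCommGroup W] [NormedSpace ℂ W] {Y : Set W}
    (hY : ∀ x ∈ Y, ∀ c : ℂ, c ≠ 0 → c • x ∈ Y) {x v : W} (hv : Pool.Agent.H62.BU.Tan Y x v) {c : ℂ} (hc : c ≠ 0) :
    Pool.Agent.H62.BU.Tan Y (c • x) (c • v) := by
  obtain ⟨γ, hγ, hmem, h0, hd⟩ := hv
  refine ⟨fun z => c • γ z, analyticAt_const.smul hγ, ?_, by show c • γ 0 = c • x; rw [h0], ?_⟩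
  · filter_upwards [hmem] with z hz
    exact hY _ hz c hc
  · have h1 : HasDerivAt γ v 0 := by
      rw [← hd]; exact hγ.differentiableAt.hasDerivAt
    exact (h1.const_smul c).deriv

variable {V : Type} [NormedAddCommGroup V] [NormedSpace ℂ V] {ι : Type} [Fintype ι] {l : ι → V →L[ℂ] ℂ} {X T : Set V} {q : V}

theorem exists_chart_exc_eq [FiniteDimensional ℂ V] (hX : Surface X) (hl : Ker l q) {m j : ℕ} {Ω : V → V → V → ℂ} (hΩ : IsForm X m j Ω)
    {σ : ℂ × ℂ → V} {τ : V → ℂ × ℂ} (h : IsChart X σ τ) (h0 : σ 0 = q) :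
    ∃ (σ₁ : ℂ × ℂ → ι → V) (τ₁ : (ι → V) → ℂ × ℂ), IsChart (blow l X) σ₁ τ₁ ∧
      (∀ᶠ p in 𝓝 (0 : ℂ × ℂ), phi l (σ (p.1, p.1 * p.2)) = p.1 • σ₁ p) ∧ (σ₁ 0 = fun b => l b (fderiv ℂ σ 0 (1, 0)) • q) ∧
      ∀ᶠ p in 𝓝 (0 : ℂ × ℂ), oC (om l j Ω) σ₁ p = p.1 ^ (2 * m + j) * oC Ω σ (p.1, p.1 * p.2) ^ 2 := by
  have : CompleteSpace V := FiniteDimensional.complete ℂ V
  have hX' := surface_iff.2 hX
  have hΩ' := isForm_iff.2 hΩ
  obtain ⟨σ₁, τ₁, h1, h2, h3⟩ := Pool.Agent.H62.BU.chart_exc hX' hl (chart_iff.2 h) h0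
  refine ⟨σ₁, τ₁, chart_iff.1 h1, h2, h3, ?_⟩
  have hq0 : q ≠ 0 := h0 ▸ h.ne
  obtain ⟨b, hb⟩ : ∃ b, l b (fderiv ℂ σ 0 (1, 0)) ≠ 0 := by
    by_contra hcon
    push Not at hcon
    refine h1.ne ?_
    rw [h3]
    funext b
    simp [hcon b]
  obtain ⟨Λ, hΛ⟩ : ∃ Λ : V →L[ℂ] ℂ, Λ q ≠ 0 := by
    obtain ⟨Λ, hΛ⟩ := exists_dual_vector ℂ q (norm_ne_zero_iff.mpr hq0)
    refine ⟨Λ, ?_⟩
    rw [hΛ.2]
    simpa using hq0
  obtain ⟨mm, hmm⟩ : ∃ mm : ℂ × ℂ → ℂ × ℂ, ∀ p, mm p = (p.1, p.1 * p.2) := ⟨fun p => (p.1, p.1 * p.2), fun p => rfl⟩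
  have hmd : ∀ p, HasFDerivAt mm ((ContinuousLinearMap.fst ℂ ℂ ℂ).prod
      (p.1 • ContinuousLinearMap.snd ℂ ℂ ℂ + p.2 • ContinuousLinearMap.fst ℂ ℂ ℂ)) p := fun p => by
    have e0 : mm = fun p => (p.1, p.1 * p.2) := funext hmm
    rw [e0]
    exact hasFDerivAt_fst.prodMk (hasFDerivAt_fst.mul hasFDerivAt_snd)
  have hm_an : ∀ p, AnalyticAt ℂ mm p := fun p => by
    have e0 : mm = fun p => (p.1, p.1 * p.2) := funext hmm
    rw [e0]
    exact analyticAt_fst.prod (analyticAt_fst.mul analyticAt_snd)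
  have hm0 : mm 0 = 0 := by rw [hmm]; simp
  have hmt : Tendsto mm (𝓝 0) (𝓝 0) := by
    have := (hm_an 0).continuousAt.tendsto
    rwa [hm0] at this
  have h2' : ∀ᶠ p in 𝓝 (0 : ℂ × ℂ), phi l (σ (mm p)) = p.1 • σ₁ p := by
    filter_upwards [h2] with p hp
    rw [hmm, hp]
  have hσm : AnalyticAt ℂ (fun p => σ (mm p)) 0 := AnalyticAt.comp (by rw [hm0]; exact h.σ_an) (hm_an 0)
  have hσb : AnalyticAt ℂ (fun p => σ₁ p b) 0 :=
    AnalyticAt.comp (g := fun y : ι → V => y b) ((ContinuousLinearMap.proj (R := ℂ) (φ := fun _ : ι => V) b).analyticAt _) h1.σ_an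
  -- the factor `R`
  obtain ⟨R, hR⟩ : ∃ R : ℂ × ℂ → ℂ, ∀ p, R p = Λ (σ₁ p b) / Λ (σ (mm p)) := ⟨_, fun p => rfl⟩
  have hΛσ : AnalyticAt ℂ (fun p => Λ (σ (mm p))) 0 := (Λ.analyticAt _).comp hσm
  have hΛσ0 : Λ (σ (mm 0)) ≠ 0 := by rw [hm0, h0]; exact hΛ
  have hR_an : AnalyticAt ℂ R 0 := by
    have e0 : R = fun p => Λ (σ₁ p b) / Λ (σ (mm p)) := funext hR
    rw [e0]
    exact ((Λ.analyticAt _).comp hσb).div hΛσ hΛσ0
  have hR0 : R 0 ≠ 0 := by
    rw [hR, hm0, h0, h3, map_smul, smul_eq_mul, mul_div_assoc, div_self hΛ, mul_one]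
    exact hb
  have hB : ∀ᶠ p in 𝓝 (0 : ℂ × ℂ), l b (σ (mm p)) = p.1 * R p := by
    filter_upwards [h2', hΛσ.continuousAt.eventually_ne hΛσ0] with p g1 g2
    have g3 := congrArg Λ (congrFun g1 b)
    simp only [phi, Pi.smul_apply, map_smul, smul_eq_mul] at g3
    rw [hR, mul_div_assoc', eq_div_iff g2]
    exact g3
  have hA : ∀ᶠ p in 𝓝 (0 : ℂ × ℂ), σ₁ p b = R p • σ (mm p) := by
    refine cancel_fst hσb (hR_an.smul hσm) ?_
    filter_upwards [h2', hB] with p g1 g2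
    have g3 := congrFun g1 b
    simp only [phi, Pi.smul_apply] at g3
    rw [← g3, g2, smul_smul]
  filter_upwards [hA.eventually_nhds, hB, h1.σ_an.eventually_analyticAt, h1.σ_mem.eventually_nhds, hR_an.eventually_analyticAt,
    hR_an.continuousAt.eventually_ne hR0, hmt.eventually h.σ_an.eventually_analyticAt, hmt.eventually h.σ_mem.eventually_nhds,
    hmt.eventually (h.σ_an.continuousAt.eventually_ne h.ne)] with p g1 g2 g3 g4 g5 g6 g7 g8 g9
  have gx : σ (mm p) ∈ X := g8.self_of_nhds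
  have gσ : ∀ w : ℂ × ℂ, Pool.Agent.H62.BU.Tan X (σ (mm p)) (fderiv ℂ σ (mm p) w) := fun w =>
    Pool.Agent.H62.BU.tan_fderiv g7 g8 w
  have hder : ∀ w : ℂ × ℂ, (fderiv ℂ σ₁ p w) b =
      R p • fderiv ℂ σ (mm p) (w.1, p.1 * w.2 + p.2 * w.1) + fderiv ℂ R p w • σ (mm p) := by
    intro w
    have a1 : HasFDerivAt (fun y => σ₁ y b) ((ContinuousLinearMap.proj (R := ℂ) (φ := fun _ : ι => V) b).comp (fderiv ℂ σ₁ p)) p :=
      ((ContinuousLinearMap.proj (R := ℂ) (φ := fun _ : ι => V) b).hasFDerivAt (x := σ₁ p)).comp p g3.differentiableAt.hasFDerivAt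
    have a2 : HasFDerivAt (fun y => σ (mm y)) ((fderiv ℂ σ (mm p)).comp ((ContinuousLinearMap.fst ℂ ℂ ℂ).prod
      (p.1 • ContinuousLinearMap.snd ℂ ℂ ℂ + p.2 • ContinuousLinearMap.fst ℂ ℂ ℂ))) p :=
      g7.differentiableAt.hasFDerivAt.comp p (hmd p)
    have a3 := g5.differentiableAt.hasFDerivAt.smul a2
    have a4 : (fun y => σ₁ y b) =ᶠ[𝓝 p] fun y => R y • σ (mm y) := g1
    have a5 := (a1.congr_of_eventuallyEq a4.symm).unique a3
    have a6 := congrArg (fun A : (ℂ × ℂ) →L[ℂ] V => A w) a5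
    simpa using a6
  have e1 := hder (1, 0)
  have e2 := hder (0, 1)
  simp only [mul_zero, zero_add, mul_one, add_zero] at e1 e2
  have hy : σ₁ p b ≠ 0 := by
    rw [g1.self_of_nhds]
    exact smul_ne_zero g6 g9
  have hRx : R p • σ (mm p) ∈ X := hX.smul _ gx _ g6
  have hom : oC (om l j Ω) σ₁ p = l b (σ₁ p b) ^ j * Ω (σ₁ p b) ((fderiv ℂ σ₁ p (1, 0)) b) ((fderiv ℂ σ₁ p (0, 1)) b) ^ 2 :=
    Pool.Agent.H62.BU.om_eq hX' hΩ' g4.self_of_nhds (Pool.Agent.H62.BU.tan_fderiv g3 g4 (1, 0))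
      (Pool.Agent.H62.BU.tan_fderiv g3 g4 (0, 1)) hy
  have k1 := hΩ'.add_smul (R p • σ (mm p)) hRx (R p • fderiv ℂ σ (mm p) (1, p.2)) (R p • fderiv ℂ σ (mm p) (0, p.1))
    (tan_smul hX.smul (gσ _) g6) (tan_smul hX.smul (gσ _) g6) (fderiv ℂ R p (1, 0) / R p) (fderiv ℂ R p (0, 1) / R p)
  rw [smul_smul, smul_smul, div_mul_cancel₀ _ g6, div_mul_cancel₀ _ g6] at k1
  have k2 := hΩ'.scale (σ (mm p)) gx (fderiv ℂ σ (mm p) (1, p.2)) (fderiv ℂ σ (mm p) (0, p.1)) (gσ _) (gσ _) (R p) g6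
  have k3 := hΩ'.det (σ (mm p)) gx (fderiv ℂ σ (mm p) (1, 0)) (fderiv ℂ σ (mm p) (0, 1)) (gσ _) (gσ _) 1 p.2 0 p.1
  have k4 : (1 : ℂ) • fderiv ℂ σ (mm p) (1, 0) + p.2 • fderiv ℂ σ (mm p) (0, 1) = fderiv ℂ σ (mm p) (1, p.2) := by
    rw [← map_smul, ← map_smul, ← map_add]
    congr 1
    simp
  have k5 : (0 : ℂ) • fderiv ℂ σ (mm p) (1, 0) + p.1 • fderiv ℂ σ (mm p) (0, 1) = fderiv ℂ σ (mm p) (0, p.1) := by
    rw [← map_smul, ← map_smul, ← map_add]
    congr 1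
    simp
  rw [k4, k5, one_mul, mul_zero, sub_zero] at k3
  have k6 : l b (R p • σ (mm p)) = R p ^ 2 * p.1 := by
    rw [map_smul, smul_eq_mul, g2]
    ring
  rw [hom, g1.self_of_nhds, e1, e2, k1, k6]
  have k7 : (oC Ω σ (p.1, p.1 * p.2)) = Ω (σ (mm p)) (fderiv ℂ σ (mm p) (1, 0)) (fderiv ℂ σ (mm p) (0, 1)) := by
    rw [oC, hmm]
  rw [k7]
  have k8 : p.1 ^ m * Ω (σ (mm p)) (fderiv ℂ σ (mm p) (1, 0)) (fderiv ℂ σ (mm p) (0, 1)) =
      R p ^ j * Ω (R p • σ (mm p)) (R p • fderiv ℂ σ (mm p) (1, p.2)) (R p • fderiv ℂ σ (mm p) (0, p.1)) := by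
    rw [k2, k3]
  have k9 : p.1 ^ (2 * m + j) * Ω (σ (mm p)) (fderiv ℂ σ (mm p) (1, 0)) (fderiv ℂ σ (mm p) (0, 1)) ^ 2 =
      p.1 ^ j * (p.1 ^ m * Ω (σ (mm p)) (fderiv ℂ σ (mm p) (1, 0)) (fderiv ℂ σ (mm p) (0, 1))) ^ 2 := by
    ring
  rw [k9, k8]
  ring

end Pool.Agent.H36.TB

end
end

section

/-!
# Qe Loc: a map which is etale over an open subset is a local homeomorphism over it (adapted from `Pool.Agent.H62.Et.Loc`)
-/

set_option autoImplicit false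

open Topology Filter MvPolynomial

noncomputable section

namespace Pool.Agent.H62.Qe

open Pool.Agent.H17 (PN VanishesAt HolomorphicInto)
open Pool.Agent.H62.FC (Homog)
open Pool.Agent.H17EF (projVar LE)
open Pool.Agent.H7.Bir (vals rmap)
open Pool.Agent.H62.EF (MN pr)
open Pool.Agent.H62.SA (locVar)
open Pool.Agent.H62.Et (pn pn_mk pn_injective pn_near pn_continuousAt pn_continuous isCompact_pn)

variable {N M : ℕ} {P : Ideal (MvPolynomial (Fin (N + 1)) ℂ)} {P' : Ideal (MvPolynomial (Fin (M + 1)) ℂ)} {p : PN M → PN N}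

/-- the product of a matrix with a vector -/
private def mA (x₀ : Fin (N + 1) → ℂ) (m : MN N) : Fin (N + 1) → ℂ := fun i => ∑ j, m (i, j) * x₀ j

/-- the scalar product of `x₀` with the product of the matrix with `x₀` -/
private def mB (x₀ : Fin (N + 1) → ℂ) (m : MN N) : ℂ := ∑ i, (starRingEnd ℂ) (x₀ i) * mA x₀ m i

private def sA (x₀ x : Fin (N + 1) → ℂ) : ℂ := ∑ i, (starRingEnd ℂ) (x₀ i) * x i

private theorem continuous_mA (x₀ : Fin (N + 1) → ℂ) : Continuous (mA x₀) := by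
  refine continuous_pi fun i => ?_
  refine continuous_finsetSum _ fun j _ => ?_
  exact (PiLp.continuous_apply 2 _ (i, j)).mul continuous_const

private theorem continuous_mB (x₀ : Fin (N + 1) → ℂ) : Continuous (mB x₀) := by
  refine continuous_finsetSum _ fun i _ => ?_
  exact continuous_const.mul ((continuous_apply i).comp (continuous_mA x₀))

private theorem sA_self (x : Fin (N + 1) → ℂ) : sA x x = ((‖(LE N) x‖ ^ 2 : ℝ) : ℂ) := by
  rw [EuclideanSpace.norm_sq_eq, sA, Complex.ofReal_sum]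
  refine Finset.sum_congr rfl fun i _ => ?_
  rw [Complex.conj_mul']
  push_cast
  rfl

private theorem sA_self_ne {x : Fin (N + 1) → ℂ} (hx : x ≠ 0) : sA x x ≠ 0 := by
  rw [sA_self]
  have h1 : (LE N) x ≠ 0 := fun h => hx ((LE N).map_eq_zero_iff.mp h)
  have h2 : ‖(LE N) x‖ ≠ 0 := norm_ne_zero_iff.mpr h1
  exact_mod_cast pow_ne_zero 2 h2

private theorem mA_pr (x₀ x : Fin (N + 1) → ℂ) : mA x₀ (pr ((LE N) x)) = (sA x x₀ / sA x x) • x := by
  funext i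
  rw [sA_self]
  simp only [mA, Pi.smul_apply, smul_eq_mul]
  rw [div_mul_eq_mul_div, sA, Finset.sum_mul, Finset.sum_div]
  refine Finset.sum_congr rfl fun j _ => ?_
  have h1 : (pr ((LE N) x)) (i, j) = x i * (starRingEnd ℂ) (x j) / ((‖(LE N) x‖ ^ 2 : ℝ) : ℂ) := rfl
  rw [h1]
  ring

private theorem mB_pr (x₀ x : Fin (N + 1) → ℂ) : mB x₀ (pr ((LE N) x)) = sA x x₀ / sA x x * sA x₀ x := by
  rw [mB, mA_pr]
  rw [show sA x₀ x = ∑ i, (starRingEnd ℂ) (x₀ i) * x i from rfl, Finset.mul_sum]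
  refine Finset.sum_congr rfl fun i _ => ?_
  rw [Pi.smul_apply, smul_eq_mul]
  ring

/-- a representative of the line depending continuously on the matrix -/
private theorem exists_nu {x₀ : Fin (N + 1) → ℂ} (hx₀ : x₀ ≠ 0) : ∃ ν : MN N → Fin (N + 1) → ℂ,
    ν (pn (Projectivization.mk ℂ x₀ hx₀)) = x₀ ∧ ∀ᶠ m in 𝓝 (pn (Projectivization.mk ℂ x₀ hx₀)), ContinuousAt ν m ∧
      ∀ y : PN N, pn y = m → ∃ h : ν m ≠ 0, y = Projectivization.mk ℂ (ν m) h := by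
  have hS := sA_self_ne hx₀
  refine ⟨fun m => (sA x₀ x₀ / mB x₀ m) • mA x₀ m, ?_, ?_⟩
  · show (sA x₀ x₀ / mB x₀ _) • mA x₀ _ = x₀
    rw [pn_mk, mA_pr, mB_pr, div_self hS, one_mul, one_smul, div_self hS, one_smul]
  · have h1 : mB x₀ (pn (Projectivization.mk ℂ x₀ hx₀)) ≠ 0 := by
      rw [pn_mk, mB_pr, div_self hS, one_mul]
      exact hS
    filter_upwards [(continuous_mB x₀).continuousAt.eventually_ne h1] with m hm
    refine ⟨?_, fun y hy => ?_⟩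
    · exact (continuousAt_const.div (continuous_mB x₀).continuousAt hm).smul (continuous_mA x₀).continuousAt
    · have h2 : m = pr ((LE N) y.rep) := hy.symm
      have h3 : sA y.rep x₀ / sA y.rep y.rep ≠ 0 := by
        intro h
        rw [h2, mB_pr, h, zero_mul] at hm
        exact hm rfl
      have h5 : (sA x₀ x₀ / mB x₀ m) * (sA y.rep x₀ / sA y.rep y.rep) ≠ 0 := mul_ne_zero (div_ne_zero hS hm) h3
      have h6 : (sA x₀ x₀ / mB x₀ m) • mA x₀ m = ((sA x₀ x₀ / mB x₀ m) * (sA y.rep x₀ / sA y.rep y.rep)) • y.rep := by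
        rw [mul_smul, ← mA_pr, ← h2]
      have h7 : (sA x₀ x₀ / mB x₀ m) • mA x₀ m ≠ 0 := by
        rw [h6]
        exact smul_ne_zero h5 y.rep_nonzero
      refine ⟨h7, ?_⟩
      rw [← Projectivization.mk_rep y, Projectivization.mk_eq_mk_iff']
      refine ⟨((sA x₀ x₀ / mB x₀ m) * (sA y.rep x₀ / sA y.rep y.rep))⁻¹, ?_⟩
      show _ • ((sA x₀ x₀ / mB x₀ m) • mA x₀ m) = _
      rw [h6, smul_smul, inv_mul_cancel₀ h5, one_smul]

/-- the covering as a map of subsets of matrix spaces -/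
theorem exists_hat {s s' : ℕ} {G : Fin s → MvPolynomial (Fin (N + 1)) ℂ} {G' : Fin s' → MvPolynomial (Fin (M + 1)) ℂ}
    (hp : IsEtaleOver P P' G G' p) : ∃ ph : (pn '' projVar P') → (pn '' projVar P),
    (∀ (y : PN M) (hy : y ∈ projVar P'), ph ⟨pn y, Set.mem_image_of_mem pn hy⟩ = ⟨pn (p y), Set.mem_image_of_mem pn (hp.reg.maps y hy)⟩) ∧
      Continuous ph ∧ Function.Surjective ph ∧ ∀ e, (ph e : MN N) ∈ pn '' locVar P G →
        ∃ φ : OpenPartialHomeomorph (pn '' projVar P') (pn '' projVar P), e ∈ φ.source ∧ ph = φ := by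
  classical
  -- the point of a matrix
  choose Y hY hYe using fun m : (pn '' projVar P') => m.2
  have hYpn : ∀ (y : PN M) (hy : y ∈ projVar P'), Y ⟨pn y, Set.mem_image_of_mem pn hy⟩ = y := fun y hy =>
    pn_injective (hYe ⟨pn y, Set.mem_image_of_mem pn hy⟩)
  let ph : (pn '' projVar P') → (pn '' projVar P) := fun m => ⟨pn (p (Y m)), Set.mem_image_of_mem pn (hp.reg.maps _ (hY m))⟩
  have hph : ∀ (y : PN M) (hy : y ∈ projVar P'), ph ⟨pn y, Set.mem_image_of_mem pn hy⟩ = ⟨pn (p y), Set.mem_image_of_mem pn (hp.reg.maps y hy)⟩ := by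
    intro y hy
    apply Subtype.ext
    show pn (p (Y _)) = pn (p y)
    rw [hYpn y hy]
  -- the representatives near a point of the covering
  have hνE : ∀ e : (pn '' projVar P'), ∃ ν : (pn '' projVar P') → Fin (M + 1) → ℂ, ν e = (Y e).rep ∧ ContinuousAt ν e ∧
      ∀ᶠ b in 𝓝 e, ∃ h : ν b ≠ 0, Y b = Projectivization.mk ℂ (ν b) h := by
    intro e
    obtain ⟨ν, h1, h2⟩ := exists_nu (Y e).rep_nonzero
    rw [Projectivization.mk_rep, hYe e] at h1 h2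
    refine ⟨fun b => ν b, h1, ?_, ?_⟩
    · exact ContinuousAt.comp (f := Subtype.val) (g := ν) h2.self_of_nhds.1 continuousAt_subtype_val
    · have h3 : Tendsto (Subtype.val : (pn '' projVar P') → MN M) (𝓝 e) (𝓝 (e : MN M)) := continuousAt_subtype_val
      filter_upwards [h3.eventually h2] with b hb
      exact hb.2 (Y b) (hYe b)
  have hcont : Continuous ph := by
    · -- continuity
      rw [continuous_iff_continuousAt]
      intro e
      rw [Topology.IsInducing.subtypeVal.continuousAt_iff]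
      obtain ⟨ν, h1, h2, h3⟩ := hνE e
      obtain ⟨D, γ, hγ, hγ0, hγe⟩ := hp.reg.regular (Y e) (hY e)
      have hc : Continuous fun x : Fin (M + 1) → ℂ => vals γ x := by
        refine continuous_pi fun i => ?_
        exact MvPolynomial.continuous_eval (γ i)
      have h4 : ContinuousAt (fun b => vals γ (ν b)) e := ContinuousAt.comp (g := vals γ) hc.continuousAt h2
      have h5 : ∀ᶠ b in 𝓝 e, vals γ (ν b) ≠ 0 := h4.eventually_ne (by rw [h1]; exact hγ0)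
      refine pn_continuousAt (f := fun b => p (Y b)) h4 ?_
      filter_upwards [h3, h5] with b hb1 hb2
      obtain ⟨hb3, hb4⟩ := hb1
      refine ⟨hb2, ?_⟩
      obtain ⟨a, ha⟩ := Projectivization.exists_smul_eq_mk_rep ℂ (ν b) hb3
      have h6 : vals γ (Y b).rep ≠ 0 := by
        rw [hb4, ← ha]
        show vals γ ((a : ℂ) • ν b) ≠ 0
        rw [Pool.Agent.H7.Bir.vals_smul hγ]
        exact smul_ne_zero (pow_ne_zero _ a.ne_zero) hb2
      show p (Y b) = _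
      rw [hγe (Y b) (hY b) h6, hb4, Pool.Agent.H7.Bir.rmap_mk hγ hb3 hb2]
  refine ⟨ph, hph, hcont, ?_, fun e he => ?_⟩
  rotate_left
  · have heU : Y e ∈ locVar P' G' := by
      refine (hp.inv _ (hY e)).1 ?_
      obtain ⟨x, hx, hxe⟩ := he
      have h1 : x = p (Y e) := pn_injective hxe
      rw [← h1]
      exact hx
    apply exists_localHomeo hcont
    · -- local injectivity
      obtain ⟨ν, h1, h2, h3⟩ := hνE e
      have hmem : Projectivization.mk ℂ (Y e).rep (Y e).rep_nonzero ∈ locVar P' G' := by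
        rw [Projectivization.mk_rep]
        exact heU
      have h4 := hp.locInj (Y e).rep (Y e).rep_nonzero hmem
      have h5 : Tendsto (fun q : (pn '' projVar P') × (pn '' projVar P') => (ν q.1, ν q.2)) (𝓝 (e, e)) (𝓝 ((Y e).rep, (Y e).rep)) := by
        have h6 : ContinuousAt (fun q : (pn '' projVar P') × (pn '' projVar P') => (ν q.1, ν q.2)) (e, e) := by
          refine ContinuousAt.prodMk ?_ ?_
          · exact ContinuousAt.comp (f := Prod.fst) (g := ν) (x := (e, e)) h2 continuousAt_fst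
          · exact ContinuousAt.comp (f := Prod.snd) (g := ν) (x := (e, e)) h2 continuousAt_snd
        have h7 := h6.tendsto
        simp only [h1] at h7
        exact h7
      have h8 : ∀ᶠ q : (pn '' projVar P') × (pn '' projVar P') in 𝓝 (e, e), ∃ h : ν q.1 ≠ 0, Y q.1 = Projectivization.mk ℂ (ν q.1) h :=
        (continuousAt_fst (p := ((e, e) : (pn '' projVar P') × (pn '' projVar P')))).tendsto.eventually h3
      have h9 : ∀ᶠ q : (pn '' projVar P') × (pn '' projVar P') in 𝓝 (e, e), ∃ h : ν q.2 ≠ 0, Y q.2 = Projectivization.mk ℂ (ν q.2) h :=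
        (continuousAt_snd (p := ((e, e) : (pn '' projVar P') × (pn '' projVar P')))).tendsto.eventually h3
      filter_upwards [h5.eventually h4, h8, h9] with q hq1 hq2 hq3 hq4
      obtain ⟨h10, h11⟩ := hq2
      obtain ⟨h12, h13⟩ := hq3
      have h14 : p (Y q.1) = p (Y q.2) := pn_injective (congrArg Subtype.val hq4)
      have h15 := hq1 h10 h12 (by rw [← h11]; exact hY q.1) (by rw [← h13]; exact hY q.2) (by rw [← h11, ← h13]; exact h14)
      apply Subtype.ext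
      rw [← hYe q.1, ← hYe q.2, h11, h13]
      exact congrArg pn h15
    · -- sections
      have hmem : Projectivization.mk ℂ (Y e).rep (Y e).rep_nonzero ∈ locVar P' G' := by
        rw [Projectivization.mk_rep]
        exact heU
      obtain ⟨x, hx, τ, h1, h2, h3, h4⟩ := hp.locSec (Y e).rep (Y e).rep_nonzero hmem
      rw [Projectivization.mk_rep] at h1
      obtain ⟨ν, h5, h6⟩ := exists_nu hx
      rw [← h1] at h5 h6
      -- near the image
      have hpe : (ph e : MN N) = pn (p (Y e)) := rfl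
      have h7 : ∀ᶠ m in 𝓝 (ph e : MN N), ContinuousAt ν m ∧ (∀ y : PN N, pn y = m → ∃ h : ν m ≠ 0, y = Projectivization.mk ℂ (ν m) h) ∧
          ContinuousAt τ (ν m) ∧ ∀ h : ν m ≠ 0, Projectivization.mk ℂ (ν m) h ∈ projVar P →
            ∃ h' : τ (ν m) ≠ 0, Projectivization.mk ℂ (τ (ν m)) h' ∈ projVar P' ∧ p (Projectivization.mk ℂ (τ (ν m)) h') = Projectivization.mk ℂ (ν m) h := by
        rw [hpe]
        have h8 : Tendsto ν (𝓝 (pn (p (Y e)))) (𝓝 x) := by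
          have := h6.self_of_nhds.1.tendsto
          rw [h5] at this
          exact this
        filter_upwards [h6, h8.eventually h2.eventually_analyticAt, h8.eventually h4] with m hm1 hm2 hm3
        exact ⟨hm1.1, hm1.2, hm2.continuousAt, hm3⟩
      -- the statement for the points of the image
      have h8 : ∀ᶠ b in 𝓝 (ph e), ContinuousAt (fun b : (pn '' projVar P) => τ (ν b)) b ∧
          ∃ h' : τ (ν b) ≠ 0, Projectivization.mk ℂ (τ (ν b)) h' ∈ projVar P' ∧ pn (p (Projectivization.mk ℂ (τ (ν b)) h')) = b := by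
        have h9 : Tendsto (Subtype.val : (pn '' projVar P) → MN N) (𝓝 (ph e)) (𝓝 (ph e : MN N)) := continuousAt_subtype_val
        filter_upwards [h9.eventually h7] with b hb
        obtain ⟨hb1, hb2, hb3, hb4⟩ := hb
        obtain ⟨y, hy, hyb⟩ := b.2
        obtain ⟨hb5, hb6⟩ := hb2 y hyb
        obtain ⟨hb7, hb8, hb9⟩ := hb4 hb5 (by rw [← hb6]; exact hy)
        refine ⟨?_, hb7, hb8, ?_⟩
        · have hb10 : ContinuousAt (fun b : (pn '' projVar P) => ν b) b := ContinuousAt.comp (f := Subtype.val) (g := ν) hb1 continuousAt_subtype_val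
          exact ContinuousAt.comp (f := fun b : (pn '' projVar P) => ν b) (g := τ) hb3 hb10
        · rw [hb9, ← hb6]
          exact hyb
      -- the section
      let s : (pn '' projVar P) → (pn '' projVar P') := fun b =>
        if h : ∃ h' : τ (ν b) ≠ 0, Projectivization.mk ℂ (τ (ν b)) h' ∈ projVar P' then
          ⟨pn (Projectivization.mk ℂ (τ (ν b)) h.choose), Set.mem_image_of_mem pn h.choose_spec⟩ else e
      have hs : ∀ b : (pn '' projVar P), ∀ (h : τ (ν b) ≠ 0) (h' : Projectivization.mk ℂ (τ (ν b)) h ∈ projVar P'),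
          s b = ⟨pn (Projectivization.mk ℂ (τ (ν b)) h), Set.mem_image_of_mem pn h'⟩ := by
        intro b h h'
        simp only [s]
        rw [dif_pos ⟨h, h'⟩]
      refine ⟨s, ?_, ?_⟩
      · have h10 : τ (ν (ph e)) = (Y e).rep := by
          rw [hpe, h5, h3]
        have h11 : τ (ν (ph e)) ≠ 0 := by
          rw [h10]
          exact (Y e).rep_nonzero
        have h12 : Projectivization.mk ℂ (τ (ν (ph e))) h11 = Y e := by
          rw [← Projectivization.mk_rep (Y e), Projectivization.mk_eq_mk_iff']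
          exact ⟨1, by rw [one_smul, h10]⟩
        rw [hs (ph e) h11 (by rw [h12]; exact hY e)]
        apply Subtype.ext
        show pn _ = (e : MN M)
        rw [h12, hYe e]
      · filter_upwards [h8.eventually_nhds] with b hb
        refine ⟨?_, ?_⟩
        · rw [Topology.IsInducing.subtypeVal.continuousAt_iff]
          obtain ⟨hb1, hb2, hb3, hb4⟩ := hb.self_of_nhds
          let F : (pn '' projVar P) → PN M := fun b' =>
            if h : ∃ h' : τ (ν b') ≠ 0, Projectivization.mk ℂ (τ (ν b')) h' ∈ projVar P' then Projectivization.mk ℂ (τ (ν b')) h.choose else Y e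
          have hF : (Subtype.val ∘ s) = fun b' => pn (F b') := by
            funext b'
            simp only [Function.comp, s, F]
            split_ifs with h
            · rfl
            · exact (hYe e).symm
          rw [hF]
          refine pn_continuousAt hb1 ?_
          filter_upwards [hb] with b' hb'
          obtain ⟨hb5, hb6, hb7, hb8⟩ := hb'
          refine ⟨hb6, ?_⟩
          simp only [F]
          rw [dif_pos ⟨hb6, hb7⟩]
        · obtain ⟨hb1, hb2, hb3, hb4⟩ := hb.self_of_nhds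
          rw [hs b hb2 hb3, hph _ hb3]
          apply Subtype.ext
          exact hb4
  · rintro ⟨m, x, hx, rfl⟩
    obtain ⟨y, hy, hyx⟩ := hp.reg.surj x hx
    refine ⟨⟨pn y, Set.mem_image_of_mem pn hy⟩, ?_⟩
    rw [hph y hy]
    apply Subtype.ext
    show pn (p y) = pn x
    rw [hyx]

end Pool.Agent.H62.Qe

end
end

section

/-!
# Qe Lift: entire curves and holomorphic maps of the punctured disc in `U` lift to a covering which is etale over `U`
-/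

set_option autoImplicit false

open Topology Filter MvPolynomial

noncomputable section

namespace Pool.Agent.H62.Qe

open Pool.Agent.H17 (PN VanishesAt HolomorphicInto puncturedDisc)
open Pool.Agent.H62.FC (Homog)
open Pool.Agent.H17EF (projVar)
open Pool.Agent.H62.EF (MN)
open Pool.Agent.H62.SA (locVar)
open Pool.Agent.H62.Et (pn pn_mk pn_injective pn_near pn_continuousAt pn_continuous isCompact_pn)

variable {N M : ℕ} {P : Ideal (MvPolynomial (Fin (N + 1)) ℂ)} {P' : Ideal (MvPolynomial (Fin (M + 1)) ℂ)} {p : PN M → PN N}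
  {s s' : ℕ} {G : Fin s → MvPolynomial (Fin (N + 1)) ℂ} {G' : Fin s' → MvPolynomial (Fin (M + 1)) ℂ}

/-- a continuous lift of a holomorphic map is holomorphic -/
theorem holomorphicAt_of_continuousAt (hp : IsEtaleOver P P' G G' p) {f : ℂ → PN N} {z₀ : ℂ}
    (hf : ∃ φ : ℂ → Fin (N + 1) → ℂ, AnalyticAt ℂ φ z₀ ∧ ∀ᶠ z in 𝓝 z₀, ∃ h : φ z ≠ 0, f z = Projectivization.mk ℂ (φ z) h)
    {g : ℂ → PN M} (hg : ContinuousAt (fun z => pn (g z)) z₀) (hgU : g z₀ ∈ locVar P' G') (hgX : ∀ᶠ z in 𝓝 z₀, g z ∈ projVar P')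
    (hgf : ∀ᶠ z in 𝓝 z₀, p (g z) = f z) :
    ∃ φ : ℂ → Fin (M + 1) → ℂ, AnalyticAt ℂ φ z₀ ∧ ∀ᶠ z in 𝓝 z₀, ∃ h : φ z ≠ 0, g z = Projectivization.mk ℂ (φ z) h := by
  have hy₀ : (g z₀).rep ≠ 0 := Projectivization.rep_nonzero _
  have hmk : Projectivization.mk ℂ (g z₀).rep hy₀ = g z₀ := Projectivization.mk_rep _
  obtain ⟨x, hx, τ, h1, hτ, hτx, hsec⟩ := hp.locSec (g z₀).rep hy₀ (by rw [hmk]; exact hgU)
  obtain ⟨φ, hφ, hφf⟩ := hf
  obtain ⟨hφ0, hφz⟩ := hφf.self_of_nhds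
  have h2 : Projectivization.mk ℂ x hx = Projectivization.mk ℂ (φ z₀) hφ0 := by
    rw [← h1, hmk, hgf.self_of_nhds, hφz]
  rw [Projectivization.mk_eq_mk_iff'] at h2
  obtain ⟨c, hc⟩ := h2
  have hc0 : c ≠ 0 := by
    rintro rfl
    rw [zero_smul] at hc
    exact hx hc.symm
  have hφ' : AnalyticAt ℂ (fun z => c • φ z) z₀ := AnalyticAt.fun_const_smul hφ
  have hφc : Tendsto (fun z => c • φ z) (𝓝 z₀) (𝓝 x) := by
    have h3 := hφ'.continuousAt.tendsto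
    rwa [hc] at h3
  have hτc : Tendsto (fun z => τ (c • φ z)) (𝓝 z₀) (𝓝 (g z₀).rep) := by
    have h3 := hτ.continuousAt.tendsto
    rw [hτx] at h3
    exact h3.comp hφc
  refine ⟨fun z => τ (c • φ z), ?_, ?_⟩
  · exact hτ.fun_comp_of_eq hφ' hc
  · have hinj := hp.locInj (g z₀).rep hy₀ (by rw [hmk]; exact hgU)
    rw [nhds_prod_eq, Filter.eventually_iff, Filter.mem_prod_self_iff] at hinj
    obtain ⟨U, hU, hUU⟩ := hinj
    obtain ⟨δ, hδ, hnear⟩ := pn_near hy₀ hU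
    rw [hmk] at hnear
    have h4 : ∀ᶠ z in 𝓝 z₀, dist (pn (g z)) (pn (g z₀)) < δ :=
      hg.tendsto.eventually (Metric.ball_mem_nhds _ hδ)
    filter_upwards [hφf, hφc.eventually hsec, hτc.eventually hU, h4, hgX, hgf] with z h5 h6 h7 h8 hXz hfz
    obtain ⟨h9, h10⟩ := h5
    have h11 : c • φ z ≠ 0 := smul_ne_zero hc0 h9
    have h12 : Projectivization.mk ℂ (c • φ z) h11 = f z := by
      rw [h10, Projectivization.mk_eq_mk_iff']
      exact ⟨c, rfl⟩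
    obtain ⟨h13, h14, h15⟩ := h6 h11 (by rw [h12, ← hfz]; exact hp.reg.maps _ hXz)
    obtain ⟨x', hx'U, hx', hx'g⟩ := hnear (g z) h8
    refine ⟨h13, ?_⟩
    rw [hx'g]
    refine hUU (Set.mk_mem_prod hx'U h7) hx' h13 ?_ h14 ?_
    · rw [← hx'g]
      exact hXz
    · rw [← hx'g, hfz, h15, h12]

theorem lift_entire (hP' : Homog P') (hp : IsEtaleOver P P' G G' p) {f : ℂ → PN N} (hf : HolomorphicInto f Set.univ)
    (hfU : ∀ z, f z ∈ locVar P G) : ∃ g : ℂ → PN M, HolomorphicInto g Set.univ ∧ (∀ z, g z ∈ locVar P' G') ∧ ∀ z, p (g z) = f z := by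
  obtain ⟨ph, hph, hcont, hsurj, hloc⟩ := exists_hat hp
  have : CompactSpace (pn '' projVar P') := isCompact_iff_compactSpace.mp (isCompact_pn hP')
  have hfc : Continuous fun z : ℂ => (⟨pn (f z), Set.mem_image_of_mem pn (hfU z).1⟩ : pn '' projVar P) :=
    Continuous.subtype_mk (pn_continuous hf) _
  obtain ⟨e₀, he₀⟩ := hsurj ⟨pn (f 0), Set.mem_image_of_mem pn (hfU 0).1⟩
  obtain ⟨g₁, hg₁, -, hg₁f⟩ := exists_lift_plane (s := {b : pn '' projVar P | (b : MN N) ∈ pn '' locVar P G}) hcont hloc hfc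
    (fun z => Set.mem_image_of_mem pn (hfU z)) he₀
  have hex : ∀ z : ℂ, ∃ y : PN M, y ∈ projVar P' ∧ pn y = (g₁ z : MN M) := fun z => (g₁ z).2
  choose g hgX hgG using hex
  have hgf : ∀ z, p (g z) = f z := by
    intro z
    apply pn_injective
    have h1 := hph (g z) (hgX z)
    have h2 : (⟨pn (g z), Set.mem_image_of_mem pn (hgX z)⟩ : pn '' projVar P') = g₁ z := Subtype.ext (hgG z)
    rw [h2, hg₁f z] at h1
    exact (congrArg Subtype.val h1).symm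
  have hgU : ∀ z, g z ∈ locVar P' G' := fun z => (hp.inv _ (hgX z)).1 (by rw [hgf z]; exact hfU z)
  have hgc : Continuous fun z => pn (g z) := by
    have h3 : (fun z => pn (g z)) = fun z => (g₁ z : MN M) := funext hgG
    rw [h3]
    exact continuous_subtype_val.comp hg₁
  exact ⟨g, fun z₀ _ => holomorphicAt_of_continuousAt hp (hf z₀ (Set.mem_univ _)) hgc.continuousAt (hgU z₀) (Eventually.of_forall hgX)
    (Eventually.of_forall hgf), hgU, hgf⟩

/-- the homeomorphism of the plane onto the left half plane -/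
private def hp1 (w : ℂ) : ℂ := -Real.exp w.re + w.im * Complex.I

private def hp2 (v : ℂ) : ℂ := Real.log (-v.re) + v.im * Complex.I

private theorem hp1_re (w : ℂ) : (hp1 w).re = -Real.exp w.re := by
  unfold hp1
  rw [Complex.add_re, Complex.neg_re, Complex.ofReal_re, Complex.re_ofReal_mul, Complex.I_re, mul_zero, add_zero]

private theorem hp1_im (w : ℂ) : (hp1 w).im = w.im := by
  unfold hp1
  rw [Complex.add_im, Complex.neg_im, Complex.ofReal_im, Complex.im_ofReal_mul, Complex.I_im, mul_one, neg_zero, zero_add]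

private theorem hp1_hp2 {v : ℂ} (hv : v.re < 0) : hp1 (hp2 v) = v := by
  have h1 : (hp2 v).re = Real.log (-v.re) := by
    unfold hp2
    rw [Complex.add_re, Complex.ofReal_re, Complex.re_ofReal_mul, Complex.I_re, mul_zero, add_zero]
  have h2 : (hp2 v).im = v.im := by
    unfold hp2
    rw [Complex.add_im, Complex.ofReal_im, Complex.im_ofReal_mul, Complex.I_im, mul_one, zero_add]
  apply Complex.ext
  · rw [hp1_re, h1, Real.exp_log (by linarith), neg_neg]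
  · rw [hp1_im, h2]

private theorem hp1_add (w : ℂ) : hp1 (w + 2 * Real.pi * Complex.I) = hp1 w + 2 * Real.pi * Complex.I := by
  have h1 : (2 * Real.pi * Complex.I : ℂ).re = 0 := by simp
  apply Complex.ext
  · rw [hp1_re, Complex.add_re, Complex.add_re, h1, hp1_re, add_zero, add_zero]
  · rw [hp1_im, Complex.add_im, Complex.add_im, hp1_im]

private theorem hp2_add (v : ℂ) (n : ℤ) : hp2 (v + n * (2 * Real.pi * Complex.I)) = hp2 v + n * (2 * Real.pi * Complex.I) := by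
  have h1 : (n * (2 * Real.pi * Complex.I) : ℂ).re = 0 := by simp
  unfold hp2
  rw [Complex.add_re, h1, add_zero, Complex.add_im]
  push_cast
  have h2 : (((n * (2 * Real.pi * Complex.I) : ℂ).im : ℝ) : ℂ) * Complex.I = n * (2 * Real.pi * Complex.I) := by
    have h3 := Complex.re_add_im (n * (2 * Real.pi * Complex.I) : ℂ)
    rw [h1, Complex.ofReal_zero, zero_add] at h3
    exact h3
  rw [add_mul, h2]
  ring

private theorem continuous_hp1 : Continuous hp1 := by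
  unfold hp1
  fun_prop

private theorem continuousAt_hp2 {v : ℂ} (hv : v.re < 0) : ContinuousAt hp2 v := by
  unfold hp2
  refine ContinuousAt.add ?_ ?_
  · refine Complex.continuous_ofReal.continuousAt.comp ?_
    refine ContinuousAt.comp (f := fun v : ℂ => -v.re) (g := Real.log) (Real.continuousAt_log (by linarith)) ?_
    fun_prop
  · fun_prop

theorem pn_continuousOn {f : ℂ → PN N} {D : Set ℂ} (hf : HolomorphicInto f D) {z : ℂ} (hz : z ∈ D) : ContinuousAt (fun z => pn (f z)) z := by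
  obtain ⟨φ, h1, h2⟩ := hf z hz
  exact pn_continuousAt h1.continuousAt h2

private theorem exp_mem {v : ℂ} (hv : v.re < 0) : Complex.exp v ∈ puncturedDisc := by
  refine ⟨?_, Complex.exp_ne_zero v⟩
  rw [mem_ball_zero_iff, Complex.norm_exp]
  exact Real.exp_lt_one_iff.2 hv

theorem lift_punctured (hP' : Homog P') (hp : IsEtaleOver P P' G G' p) {f : ℂ → PN N} (hf : HolomorphicInto f puncturedDisc)
    (hfU : ∀ z ∈ puncturedDisc, f z ∈ locVar P G) : ∃ (k : ℕ) (g : ℂ → PN M), 1 ≤ k ∧ HolomorphicInto g puncturedDisc ∧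
      (∀ z ∈ puncturedDisc, g z ∈ locVar P' G') ∧ ∀ z ∈ puncturedDisc, p (g z) = f (z ^ k) := by
  obtain ⟨ph, hph, hcont, hsurj, hloc⟩ := exists_hat hp
  have : CompactSpace (pn '' projVar P') := isCompact_iff_compactSpace.mp (isCompact_pn hP')
  have hneg : ∀ w, (hp1 w).re < 0 := fun w => by
    rw [hp1_re]
    exact neg_lt_zero.2 (Real.exp_pos _)
  have hmem : ∀ w, Complex.exp (hp1 w) ∈ puncturedDisc := fun w => exp_mem (hneg w)
  have hFc : Continuous fun w : ℂ => pn (f (Complex.exp (hp1 w))) := by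
    rw [continuous_iff_continuousAt]
    intro w
    exact ContinuousAt.comp (g := fun z => pn (f z)) (f := fun w => Complex.exp (hp1 w)) (pn_continuousOn hf (hmem w))
      (Complex.continuous_exp.comp continuous_hp1).continuousAt
  have hfc : Continuous fun w : ℂ => (⟨pn (f (Complex.exp (hp1 w))), Set.mem_image_of_mem pn (hfU _ (hmem w)).1⟩ : pn '' projVar P) :=
    Continuous.subtype_mk hFc _
  have hper : ∀ w : ℂ, (⟨pn (f (Complex.exp (hp1 (w + 2 * Real.pi * Complex.I)))), Set.mem_image_of_mem pn (hfU _ (hmem _)).1⟩ : pn '' projVar P) =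
      ⟨pn (f (Complex.exp (hp1 w))), Set.mem_image_of_mem pn (hfU _ (hmem w)).1⟩ := by
    intro w
    apply Subtype.ext
    show pn (f (Complex.exp (hp1 (w + 2 * Real.pi * Complex.I)))) = pn (f (Complex.exp (hp1 w)))
    rw [hp1_add, Complex.exp_periodic]
  obtain ⟨g₁, k, hg₁, hg₁f, hk, hg₁k⟩ := exists_lift_periodic (s := {b : pn '' projVar P | (b : MN N) ∈ pn '' locVar P G}) hcont hsurj hloc hfc
    (fun w => Set.mem_image_of_mem pn (hfU _ (hmem w))) hper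
  have hg₁p : ∀ (n : ℤ) (w : ℂ), g₁ (w + n * (k * (2 * Real.pi * Complex.I))) = g₁ w := fun n w =>
    Function.Periodic.int_mul (f := g₁) (c := k * (2 * Real.pi * Complex.I)) hg₁k n w
  have hex : ∀ w : ℂ, ∃ y : PN M, y ∈ projVar P' ∧ pn y = (g₁ w : MN M) := fun w => (g₁ w).2
  choose g₂ hg₂X hg₂G using hex
  have hg₂f : ∀ w, p (g₂ w) = f (Complex.exp (hp1 w)) := by
    intro w
    apply pn_injective
    have h1 := hph (g₂ w) (hg₂X w)
    have h2 : (⟨pn (g₂ w), Set.mem_image_of_mem pn (hg₂X w)⟩ : pn '' projVar P') = g₁ w := Subtype.ext (hg₂G w)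
    rw [h2, hg₁f w] at h1
    exact (congrArg Subtype.val h1).symm
  have hkr : (0 : ℝ) < k := by exact_mod_cast hk
  have hre : ∀ z ∈ puncturedDisc, (k * Complex.log z).re < 0 := by
    intro z hz
    have h1 : (k * Complex.log z).re = k * Real.log ‖z‖ := by
      rw [← Complex.ofReal_natCast, Complex.re_ofReal_mul, Complex.log_re]
    rw [h1]
    have h2 : ‖z‖ < 1 := by
      rw [← mem_ball_zero_iff]
      exact hz.1
    have h3 : 0 < ‖z‖ := norm_pos_iff.2 hz.2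
    exact mul_neg_of_pos_of_neg hkr (Real.log_neg h3 h2)
  have hgX : ∀ z, g₂ (hp2 (k * Complex.log z)) ∈ projVar P' := fun z => hg₂X _
  have hgf : ∀ z ∈ puncturedDisc, p (g₂ (hp2 (k * Complex.log z))) = f (z ^ k) := by
    intro z hz
    rw [hg₂f, hp1_hp2 (hre z hz), Complex.exp_nat_mul, Complex.exp_log hz.2]
  have hpow : ∀ z ∈ puncturedDisc, z ^ k ∈ puncturedDisc := by
    intro z hz
    refine ⟨?_, pow_ne_zero k hz.2⟩
    rw [mem_ball_zero_iff, norm_pow]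
    exact pow_lt_one₀ (norm_nonneg z) (by rw [← mem_ball_zero_iff]; exact hz.1) (by omega)
  have hgU : ∀ z ∈ puncturedDisc, g₂ (hp2 (k * Complex.log z)) ∈ locVar P' G' := fun z hz =>
    (hp.inv _ (hgX z)).1 (by rw [hgf z hz]; exact hfU _ (hpow z hz))
  have hopen : IsOpen puncturedDisc := Metric.isOpen_ball.sdiff isClosed_singleton
  refine ⟨k, fun z => g₂ (hp2 (k * Complex.log z)), hk, fun z₀ hz₀ => ?_, hgU, hgf⟩
  have hz0 : z₀ ≠ 0 := hz₀.2
  refine holomorphicAt_of_continuousAt hp (f := fun z => f (z ^ k)) ?_ ?_ (hgU z₀ hz₀) (Eventually.of_forall hgX) ?_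
  · obtain ⟨φ, h1, h2⟩ := hf (z₀ ^ k) (hpow z₀ hz₀)
    have h3 : AnalyticAt ℂ (fun z : ℂ => z ^ k) z₀ := analyticAt_id.pow k
    exact ⟨fun z => φ (z ^ k), AnalyticAt.comp (g := φ) (f := fun z : ℂ => z ^ k) h1 h3, h3.continuousAt.tendsto.eventually h2⟩
  · -- continuity
    have h1 : (fun z => pn (g₂ (hp2 (k * Complex.log z)))) = fun z => (g₁ (hp2 (k * Complex.log z)) : MN M) := funext fun z => hg₂G _
    rw [h1]
    have h2 : ContinuousAt (fun z => (g₁ (hp2 (k * (Complex.log (z / z₀) + Complex.log z₀))) : MN M)) z₀ := by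
      have h3 : ContinuousAt (fun z : ℂ => k * (Complex.log (z / z₀) + Complex.log z₀)) z₀ := by
        refine continuousAt_const.mul (ContinuousAt.add ?_ continuousAt_const)
        refine ContinuousAt.clog ?_ ?_
        · exact continuousAt_id.div continuousAt_const hz0
        · rw [div_self hz0]
          exact Complex.one_mem_slitPlane
      have h4 : (k * (Complex.log (z₀ / z₀) + Complex.log z₀)).re < 0 := by
        rw [div_self hz0, Complex.log_one, zero_add]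
        exact hre z₀ hz₀
      have h5 : ContinuousAt (fun z : ℂ => hp2 (k * (Complex.log (z / z₀) + Complex.log z₀))) z₀ :=
        ContinuousAt.comp (g := hp2) (f := fun z : ℂ => k * (Complex.log (z / z₀) + Complex.log z₀)) (continuousAt_hp2 h4) h3
      exact ContinuousAt.comp (g := fun w => (g₁ w : MN M)) (f := fun z : ℂ => hp2 (k * (Complex.log (z / z₀) + Complex.log z₀)))
        (continuous_subtype_val.comp hg₁).continuousAt h5
    refine h2.congr ?_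
    filter_upwards [isOpen_ne.mem_nhds hz0] with z hz
    have hz' : z ≠ 0 := hz
    have h3 : Complex.exp (Complex.log (z / z₀) + Complex.log z₀) = Complex.exp (Complex.log z) := by
      rw [Complex.exp_add, Complex.exp_log (div_ne_zero hz' hz0), Complex.exp_log hz0, Complex.exp_log hz', div_mul_cancel₀ _ hz0]
    obtain ⟨n, hn⟩ := Complex.exp_eq_exp_iff_exists_int.1 h3
    rw [hn, mul_add]
    have h4 : (k : ℂ) * (n * (2 * Real.pi * Complex.I)) = ((k * n : ℤ) : ℂ) * (2 * Real.pi * Complex.I) := by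
      push_cast
      ring
    rw [h4, hp2_add]
    have h5 : ((k * n : ℤ) : ℂ) * (2 * Real.pi * Complex.I) = n * (k * (2 * Real.pi * Complex.I)) := by
      push_cast
      ring
    rw [h5, hg₁p]
  · filter_upwards [hopen.mem_nhds hz₀] with z hz
    exact hgf z hz

end Pool.Agent.H62.Qe

end
end

section

/-!
# MQ Sieg: forms of degree `d` with contact of order `k d` with finitely many germs of curves
-/

set_option autoImplicit false

open Topology Filter Metric MvPolynomial Asymptotics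

noncomputable section

namespace Pool.Agent.MQ

open Pool.Agent.H36.BP (EN)
open Pool.Agent.H14.PP (analyticAt_evalEN)
open Pool.Agent.H17EF (exists_form_of_conditions)
open Pool.Agent.H17LG.Variety (FunField)

variable {N : ℕ}

/-- an analytic germ whose first `n` derivatives vanish is `O (t ^ n)` -/
theorem isBigO_of_iteratedDeriv {g : ℂ → ℂ} (hg : AnalyticAt ℂ g 0) {n : ℕ} (h : ∀ i < n, iteratedDeriv i g 0 = 0) :
    g =O[𝓝 0] fun t : ℂ => t ^ n := by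
  obtain ⟨q, hq, hgq⟩ := (natCast_le_analyticOrderAt hg).1 ((natCast_le_analyticOrderAt_iff_iteratedDeriv_eq_zero hg).2 h)
  have h1 : (fun z : ℂ => (z - 0) ^ n • q z) =O[𝓝 0] fun t : ℂ => t ^ n := by
    have h2 : q =O[𝓝 0] fun _ : ℂ => (1 : ℂ) := hq.continuousAt.isBigO_one ℂ
    have h3 := (isBigO_refl (fun t : ℂ => t ^ n) (𝓝 0)).mul h2
    simpa [smul_eq_mul] using h3
  exact IsBigO.congr' h1 (hgq.mono fun z hz => hz.symm) (Eventually.of_forall fun _ => rfl)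

/-- **Siegel's lemma.** -/
theorem sieg {P : Ideal (MvPolynomial (Fin (N + 1)) ℂ)} [P.IsPrime] {z : Fin 2 → FunField P} (hz : IsTranscendenceBasis ℂ z)
    (hX : ∃ i, (X i : MvPolynomial (Fin (N + 1)) ℂ) ∉ P) {r : ℕ} (c : ℕ → Fin r → ℂ → EN N) (hc : ∀ n i, AnalyticAt ℂ (c n i) 0) (k : ℕ) :
    ∃ (d : ℕ) (Q : MvPolynomial (Fin (N + 1)) ℂ), 1 ≤ d ∧ Q.IsHomogeneous d ∧ Q ∉ P ∧
      ∀ i, (fun t => eval (c (k * d) i t).ofLp Q) =O[𝓝 0] fun t : ℂ => t ^ (k * d) := by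
  obtain ⟨d, hd, hL⟩ := exists_form_of_conditions hz hX (r * k)
  have han : ∀ (Q : MvPolynomial (Fin (N + 1)) ℂ) (n : ℕ) (i : Fin r), AnalyticAt ℂ (fun t => eval (c n i t).ofLp Q) 0 := fun Q n i =>
    (analyticAt_evalEN Q (c n i 0)).fun_comp (hc n i)
  let e : Fin (r * k * d) ≃ Fin r × Fin (k * d) := (finCongr (mul_assoc r k d)).trans finProdFinEquiv.symm
  let L : MvPolynomial (Fin (N + 1)) ℂ →ₗ[ℂ] (Fin (r * k * d) → ℂ) :=
    { toFun := fun Q t => iteratedDeriv ((e t).2 : ℕ) (fun z => eval (c (k * d) (e t).1 z).ofLp Q) 0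
      map_add' := by
        intro Q R
        funext t
        have e1 : (fun z => eval (c (k * d) (e t).1 z).ofLp (Q + R)) =
            (fun z => eval (c (k * d) (e t).1 z).ofLp Q) + fun z => eval (c (k * d) (e t).1 z).ofLp R := by
          funext z; simp
        rw [e1, iteratedDeriv_add (han Q _ _).contDiffAt (han R _ _).contDiffAt]
        rfl
      map_smul' := by
        intro a Q
        funext t
        have e1 : (fun z => eval (c (k * d) (e t).1 z).ofLp (a • Q)) = a • fun z => eval (c (k * d) (e t).1 z).ofLp Q := by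
          funext z; simp [MvPolynomial.smul_eval]
        rw [e1, iteratedDeriv_const_smul (han Q _ _).contDiffAt]
        rfl }
  obtain ⟨Q, hQ, hQP, hLQ⟩ := hL L
  refine ⟨d, Q, hd, hQ, hQP, fun i => isBigO_of_iteratedDeriv (han Q _ i) fun n hn => ?_⟩
  have h1 := congrFun hLQ (e.symm (i, ⟨n, hn⟩))
  simpa [L] using h1

end Pool.Agent.MQ

end
end

section

/-!
# MQ3 GReg0: the package at a regular point of the vector field, without conditions on separatrices (copy of GReg)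

`ζ'` and `D = h (p) ζ'` are holomorphic, `η = conj D`, no error and no exact term.
-/

set_option autoImplicit false

open Topology Filter Metric MeasureTheory Laplacian

noncomputable section

namespace Pool.Agent.MQ3

open Pool.Agent.H36.BP (EN)
open Pool.Agent.H30M (tau LogSing)
open Pool.Agent.MQ Pool.Agent.MQ2

/-- `log ‖f‖` is bounded above on the small polydiscs -/
private theorem log_bdd {f : ℂ × ℂ → ℂ} (hf : AnalyticAt ℂ f 0) :
    ∃ C : ℝ, 0 ≤ C ∧ ∀ᶠ r in 𝓝[>] (0 : ℝ), ∀ q ∈ ball (0 : ℂ × ℂ) r, f q ≠ 0 → Real.log ‖f q‖ ≤ C := by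
  refine ⟨‖f 0‖ + 1, by positivity, ?_⟩
  have h1 : ∀ᶠ q in 𝓝 (0 : ℂ × ℂ), ‖f q‖ < ‖f 0‖ + 1 := hf.continuousAt.norm.eventually (gt_mem_nhds (by linarith))
  obtain ⟨ε, hε, h2⟩ := Metric.eventually_nhds_iff_ball.1 h1
  filter_upwards [Ioo_mem_nhdsGT hε] with r hr q hq h0
  have h3 := h2 q (ball_subset_ball hr.2.le hq)
  have h4 := Real.log_le_sub_one_of_pos (norm_pos_iff.2 h0)
  linarith

/-- **The package at a regular point.** -/
theorem good_reg0 {v : ℂ × ℂ → ℂ × ℂ} (hv : AnalyticAt ℂ v 0) (h0 : v 0 ≠ 0) {g J : ℂ × ℂ → ℂ} (hg : Wt v g) (hJ : AnalyticAt ℂ J 0) :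
    ∀ᶠ r in 𝓝[>] (0 : ℝ), ∀ s, 0 < s → s < r → ∀ B, 0 ≤ B → ∃ A C₀ : ℝ, 0 ≤ A ∧ 0 ≤ C₀ ∧
      ∀ (d n : ℕ) (q : ℂ × ℂ → ℂ) (ψ : ℂ × ℂ → ℝ), 1 ≤ d → 1 ≤ n → AnalyticAt ℂ q 0 → ContDiffAt ℝ 1 ψ 0 →
        ∀ (M : ℕ) (F : ℂ → EN M) (Q : ℂ → ℂ) (lm : ℂ → ℝ) (Om : Set ℂ) (p : ℂ → ℂ × ℂ), Dat v g r B d q ψ F Q lm Om p →
          LocX v g J Om p lm s A (C₀ * d / n) := by
  have hvne : ∀ᶠ p in 𝓝 (0 : ℂ × ℂ), v p ≠ 0 := hv.continuousAt.eventually_ne h0
  have hiso : ∀ᶠ p in 𝓝 (0 : ℂ × ℂ), p ≠ 0 → v p ≠ 0 := hvne.mono fun p hp _ => hp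
  obtain ⟨Cg, hCg, hg1⟩ := log_bdd hg.an
  obtain ⟨CJ, hCJ, hJ1⟩ := log_bdd hJ
  obtain ⟨ε, hε, hvε⟩ := Metric.eventually_nhds_iff_ball.1 hvne
  filter_upwards [DD_cof hv hiso hg, DD_bound hv hiso hg, hg1, hJ1, Ioo_mem_nhdsGT hε] with r h1 h2 h3 h4 hr s _ _ B hB
  obtain ⟨h, hh, hcof⟩ := h1
  obtain ⟨C, hC, hbd⟩ := h2 0 (Or.inr h0)
  refine ⟨1, 0, zero_le_one, le_rfl, fun d n q ψ _ _ _ _ M F Q lm Om p hD => ?_⟩
  have hvz : ∀ z ∈ Om, v (p z) ≠ 0 := fun z hz => hvε _ (ball_subset_ball hr.2.le (hD.crv.mem z hz))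
  have hreg := fun z hz => hcof Om p hD.crv hD.g_ne z hz (hvz z hz)
  have hbd' : ∀ z ∈ Om, ‖ztv v p z‖ ≤ C * ‖deriv p z‖ ∧ ‖DDv v g p z‖ ≤ C * ‖deriv p z‖ := fun z hz =>
    hbd Om p hD.crv hD.g_ne z hz (by simp)
  have hDan : ∀ z ∈ Om, AnalyticAt ℂ (DDv v g p) z := by
    intro z hz
    obtain ⟨-, ha, hev⟩ := hreg z hz
    have hh' : AnalyticAt ℂ h (p z) := hh _ (ball_subset_closedBall (hD.crv.mem z hz))
    have e : (fun w => h (p w) * ztv v p w) =ᶠ[𝓝 z] DDv v g p := hev.mono fun w hw => hw.symm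
    exact ((hh'.comp (hD.crv.an z hz)).mul ha).congr e
  have hCB : 0 ≤ C * B := mul_nonneg hC.le hB
  refine ⟨Real.log (1 + C * B) + Cg + CJ + C * B, lm, fun z => (starRingEnd ℂ) (DDv v g p z), fun _ => 0, fun _ => 0, ?_, hD.lm_cont, fun z => le_rfl, ?_,
    ?_, continuousOn_const, fun z _ => ⟨0, LogSing.of_contDiffAt contDiffAt_const⟩, fun z _ _ => ⟨rfl, rfl, rfl⟩, ?_, ?_, ?_, ?_⟩
  · have := Real.log_nonneg (show (1 : ℝ) ≤ 1 + C * B by linarith)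
    linarith
  · intro R _
    rw [one_mul]
    have := Real.log_nonneg (show (1 : ℝ) ≤ 1 + C * B by linarith)
    linarith
  · intro z hz
    have h5 : ContDiffAt ℝ 1 (DDv v g p) z := (hDan z hz).contDiffAt.restrict_scalars ℝ
    exact (Complex.conjCLE.contDiff.contDiffAt.comp z h5).contDiffWithinAt
  · intro z hz _
    rw [RCLike.norm_conj]
    have h5 := (hbd' z hz).2
    have h6 := hD.lm_ge z hz
    have h7 : ‖DDv v g p z‖ ≤ C * (B * lm z) := h5.trans (mul_le_mul_of_nonneg_left h6 hC.le)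
    have h8 : C * B * lm z ≤ (Real.log (1 + C * B) + Cg + CJ + C * B) * lm z := by
      refine mul_le_mul_of_nonneg_right ?_ (hD.lm_nonneg z)
      have := Real.log_nonneg (show (1 : ℝ) ≤ 1 + C * B by linarith)
      linarith
    linarith
  · intro z hz _
    have h5 : Δ (fun _ : ℂ => (0 : ℝ)) z = 0 := by simp
    rw [dv_conj (hDan z hz).differentiableAt, h5]
    norm_num
  · intro z hz _ hz1 hz2 hz3
    have h5 := h3 _ (hD.crv.mem z hz) hz2
    have h6 := h4 _ (hD.crv.mem z hz) hz3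
    have h7 : ‖ztv v p z‖ ≤ C * B * lm z := by
      calc ‖ztv v p z‖ ≤ C * ‖deriv p z‖ := (hbd' z hz).1
        _ ≤ C * (B * lm z) := mul_le_mul_of_nonneg_left (hD.lm_ge z hz) hC.le
        _ = _ := by ring
    have h8 : Real.log ‖ztv v p z‖ ≤ Real.log (1 + C * B) + Real.log (1 + lm z) := by
      have hl := hD.lm_nonneg z
      rw [← Real.log_mul (by linarith) (by linarith)]
      refine Real.log_le_log (norm_pos_iff.2 hz1) (h7.trans ?_)
      nlinarith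
    linarith
  · intro R hR
    simp only [mul_zero, integral_zero]
    have h5 : 0 ≤ ∫ z, ‖gr (tau R) z‖ * lm z := integral_nonneg fun z => mul_nonneg (norm_nonneg _) (hD.lm_nonneg z)
    have h6 := Real.log_nonneg (show (1 : ℝ) ≤ 1 + C * B by linarith)
    have h7 : 0 ≤ (Real.log (1 + C * B) + Cg + CJ + C * B) * ∫ z, ‖gr (tau R) z‖ * lm z := mul_nonneg (by linarith) h5
    have h8 : (0 : ℝ) * d / n * (∫ z, tau R z * lm z ^ 2) = 0 := by ring
    rw [h8]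
    linarith

end Pool.Agent.MQ3

end
end

section

/-!
# SG BoxA: the lift of a curve near a point of the exceptional curve

`σ₁` is the chart of the blow-up with `phi l (σ (s, s t)) = s • σ₁ (s, t)`.  A curve `F` near the centre `q` in the sector `‖p.2‖ < ε ‖p.1‖` has a lift
`Φ` with the coordinates `s = p.1`, `t = p.2 / p.1`.
-/

set_option autoImplicit false
set_option linter.unusedVariables false

open Topology Filter Metric

noncomputable section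

namespace Pool.Agent.SG

open Pool.Agent.H17BP (Surface IsChart)
open Pool.Agent.H62.BU (blow total Ker phi phi_smul)
open Pool.Agent.SY (Ent IsLiftB)
open Pool.Agent.H36.TB (cancel_fst)

variable {V : Type} [NormedAddCommGroup V] [NormedSpace ℂ V] {ι : Type} [Fintype ι] {l : ι → V →L[ℂ] ℂ} {X T : Set V} {q : V}

/-- the total transform of `T` near a point of the exceptional curve -/
theorem box_total [CompleteSpace V] (hTs : ∀ x ∈ T, ∀ c : ℂ, c ≠ 0 → c • x ∈ T) (hq : q ∈ T) {σ : ℂ × ℂ → V} {τ : V → ℂ × ℂ}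
    (hσ : IsChart X σ τ) (h0 : σ 0 = q) {σ₁ : ℂ × ℂ → ι → V} {τ₁ : (ι → V) → ℂ × ℂ} (hσ₁ : IsChart (blow l X) σ₁ τ₁)
    (h1 : ∀ᶠ p in 𝓝 (0 : ℂ × ℂ), phi l (σ (p.1, p.1 * p.2)) = p.1 • σ₁ p)
    (hT : ∀ᶠ p in 𝓝 (0 : ℂ × ℂ), p.1 ≠ 0 → σ (p.1, p.1 * p.2) ∉ T) :
    ∀ᶠ p in 𝓝 (0 : ℂ × ℂ), (σ₁ p ∈ total l X T ↔ p.1 = 0) := by
  have hq0 : q ≠ 0 := h0 ▸ hσ.ne
  obtain ⟨Λ, -, hΛ'⟩ := exists_dual_vector ℂ q (norm_ne_zero_iff.mpr hq0)
  have hΛ : Λ q ≠ 0 := by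
    rw [hΛ']
    exact Complex.ofReal_ne_zero.mpr (norm_ne_zero_iff.mpr hq0)
  set mm : ℂ × ℂ → ℂ × ℂ := fun p => (p.1, p.1 * p.2) with hmm
  have hm_an : AnalyticAt ℂ mm 0 := analyticAt_fst.prod (analyticAt_fst.mul analyticAt_snd)
  have hm0 : mm 0 = 0 := by simp [hmm]
  have hσm : AnalyticAt ℂ (fun p => σ (mm p)) 0 := AnalyticAt.comp (by rw [hm0]; exact hσ.σ_an) hm_an
  have hΛσ : AnalyticAt ℂ (fun p => Λ (σ (mm p))) 0 := (Λ.analyticAt _).comp hσm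
  have hΛσ0 : Λ (σ (mm 0)) ≠ 0 := by rw [hm0, h0]; exact hΛ
  have key : ∀ᶠ p in 𝓝 (0 : ℂ × ℂ), ∀ b, Λ (σ (mm p)) • σ₁ p b = Λ (σ₁ p b) • σ (mm p) := by
    rw [eventually_all]
    intro b
    have hσb : AnalyticAt ℂ (fun p => σ₁ p b) 0 :=
      AnalyticAt.comp (g := fun y : ι → V => y b) ((ContinuousLinearMap.proj (R := ℂ) (φ := fun _ : ι => V) b).analyticAt _) hσ₁.σ_an
    refine cancel_fst (hΛσ.smul hσb) (((Λ.analyticAt _).comp hσb).smul hσm) ?_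
    filter_upwards [h1] with p hp
    have h2 : p.1 • σ₁ p b = l b (σ (mm p)) • σ (mm p) := (congrFun hp b).symm
    have h3 : p.1 * Λ (σ₁ p b) = l b (σ (mm p)) * Λ (σ (mm p)) := by
      rw [← smul_eq_mul, ← map_smul, h2, map_smul, smul_eq_mul]
    calc p.1 • (Λ (σ (mm p)) • σ₁ p b) = Λ (σ (mm p)) • (p.1 • σ₁ p b) := by rw [smul_comm]
      _ = (l b (σ (mm p)) * Λ (σ (mm p))) • σ (mm p) := by rw [h2, smul_smul, mul_comm]
      _ = p.1 • (Λ (σ₁ p b) • σ (mm p)) := by rw [← h3, mul_smul]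
  filter_upwards [key, hσ₁.σ_mem, hT, hΛσ.continuousAt.eventually_ne hΛσ0] with p h2 h3 h4 h5
  have h6 : ∀ b, σ₁ p b = (Λ (σ₁ p b) / Λ (σ (mm p))) • σ (mm p) := by
    intro b
    rw [div_eq_inv_mul, mul_smul, ← h2 b, smul_smul, inv_mul_cancel₀ h5, one_smul]
  constructor
  · intro h7
    by_contra h8
    obtain ⟨b, hb⟩ : ∃ b, σ₁ p b ≠ 0 := by
      by_contra hcon
      push Not at hcon
      exact h3.2 (funext hcon)
    have h9 : σ₁ p b ∈ T := h7.2 b hb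
    obtain ⟨k, hk⟩ : ∃ k : ℂ, k = Λ (σ₁ p b) / Λ (σ (mm p)) := ⟨_, rfl⟩
    have h6b : σ₁ p b = k • σ (mm p) := by
      rw [hk]
      exact h6 b
    have h10 : k ≠ 0 := by
      intro h
      apply hb
      rw [h6b, h, zero_smul]
    refine h4 h8 ?_
    have h11 := hTs _ h9 k⁻¹ (inv_ne_zero h10)
    rw [h6b, smul_smul, inv_mul_cancel₀ h10, one_smul] at h11
    exact h11
  · intro h7
    have h8 : σ (mm p) = q := by
      have : mm p = 0 := by simp [hmm, h7]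
      rw [this, h0]
    refine ⟨h3, fun b hb => ?_⟩
    rw [h6 b, h8]
    refine hTs q hq _ ?_
    intro h
    apply hb
    rw [h6 b, h8, h, zero_smul]

/-- the lift near a point of the exceptional curve -/
theorem box_lift (hX : Surface X) (hl : Ker l q) (hTX : T ⊆ X) (hTs : ∀ x ∈ T, ∀ c : ℂ, c ≠ 0 → c • x ∈ T) (hq : q ∈ T)
    {σ : ℂ × ℂ → V} {τ : V → ℂ × ℂ} (hσ : IsChart X σ τ) (h0 : σ 0 = q) {σ₁ : ℂ × ℂ → ι → V} {τ₁ : (ι → V) → ℂ × ℂ}
    (hσ₁ : IsChart (blow l X) σ₁ τ₁) (h1 : ∀ᶠ p in 𝓝 (0 : ℂ × ℂ), phi l (σ (p.1, p.1 * p.2)) = p.1 • σ₁ p) {S : Set (ℂ × ℂ)} (hS : S ∈ 𝓝 0) :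
    ∃ ε : ℝ, 0 < ε ∧ ∀ F, Ent X T F → ∀ z c : ℂ, c ≠ 0 → ‖c⁻¹ • F z - q‖ < ε → (τ (c⁻¹ • F z)).1 ≠ 0 →
      ‖(τ (c⁻¹ • F z)).2‖ < ε * ‖(τ (c⁻¹ • F z)).1‖ →
      ((τ (c⁻¹ • F z)).1, (τ (c⁻¹ • F z)).2 / (τ (c⁻¹ • F z)).1) ∈ S ∧
      DifferentiableAt ℂ (fun w => τ (c⁻¹ • F w)) z ∧
      ∃ Φ, IsLiftB l X T F Φ ∧ Φ z = σ₁ ((τ (c⁻¹ • F z)).1, (τ (c⁻¹ • F z)).2 / (τ (c⁻¹ • F z)).1) ∧
        (∀ᶠ w in 𝓝 z, τ₁ (Φ w) = ((τ (c⁻¹ • F w)).1, (τ (c⁻¹ • F w)).2 / (τ (c⁻¹ • F w)).1)) ∧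
        ∃ d : ℂ, ‖d‖ ≤ 2 ∧ 1 ≤ 2 * ‖d‖ ∧ phi l (F z) =
          ((c * d) ^ 2 * (τ (c⁻¹ • F z)).1) • σ₁ ((τ (c⁻¹ • F z)).1, (τ (c⁻¹ • F z)).2 / (τ (c⁻¹ • F z)).1) := by
  have hq0 : q ≠ 0 := h0 ▸ hσ.ne
  have hτ0 : τ q = 0 := by
    have := hσ.left.self_of_nhds
    rwa [h0] at this
  have hτc : Tendsto τ (𝓝 q) (𝓝 0) := by
    have := hσ.τ_an.continuousAt.tendsto
    rwa [h0, hτ0] at this
  -- the good ball upstairs
  have hinv : ∀ᶠ p in 𝓝 (0 : ℂ × ℂ), ∀ᶠ x in 𝓝 (σ₁ p, (1 : ℂ)), τ₁ (x.2 • x.1) = τ₁ x.1 := by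
    have h2 : Tendsto (fun p => (σ₁ p, (1 : ℂ))) (𝓝 0) (𝓝 (σ₁ 0, (1 : ℂ))) := hσ₁.σ_an.continuousAt.prodMk continuousAt_const
    exact h2.eventually hσ₁.inv.eventually_nhds
  obtain ⟨δ, hδ, hball⟩ := Metric.eventually_nhds_iff_ball.mp
    ((((h1.and hσ₁.σ_an.eventually_continuousAt).and (hσ₁.σ_mem.and hσ₁.left)).and hinv).and hS)
  -- the good ball downstairs
  have hn1 : ∀ᶠ y in 𝓝 q, ‖y‖ ≤ 2 * ‖σ (τ y)‖ ∧ ‖σ (τ y)‖ ≤ 2 * ‖y‖ := by
    have h2 : Tendsto (fun y => ‖σ (τ y)‖) (𝓝 q) (𝓝 ‖q‖) := by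
      have h3 : Tendsto σ (𝓝 0) (𝓝 q) := by
        have := hσ.σ_an.continuousAt.tendsto
        rwa [h0] at this
      exact (h3.comp hτc).norm
    have h4 : Tendsto (fun y : V => ‖y‖) (𝓝 q) (𝓝 ‖q‖) := continuous_norm.tendsto q
    have hpos : 0 < ‖q‖ := norm_pos_iff.mpr hq0
    have h5 : ∀ᶠ y in 𝓝 q, ‖y‖ < (3 / 2) * ‖q‖ := h4.eventually (gt_mem_nhds (by linarith))
    have h6 : ∀ᶠ y in 𝓝 q, (3 / 4) * ‖q‖ < ‖y‖ := h4.eventually (lt_mem_nhds (by linarith))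
    have h7 : ∀ᶠ y in 𝓝 q, ‖σ (τ y)‖ < (3 / 2) * ‖q‖ := h2.eventually (gt_mem_nhds (by linarith))
    have h8 : ∀ᶠ y in 𝓝 q, (3 / 4) * ‖q‖ < ‖σ (τ y)‖ := h2.eventually (lt_mem_nhds (by linarith))
    filter_upwards [h5, h6, h7, h8] with y g1 g2 g3 g4
    exact ⟨by linarith, by linarith⟩
  have hright : ∀ᶠ y in 𝓝 q, y ∈ X → ∃ c : ℂ, c ≠ 0 ∧ y = c • σ (τ y) := by
    have := hσ.right
    rwa [h0] at this
  have hτan : ∀ᶠ y in 𝓝 q, AnalyticAt ℂ τ y := by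
    have := hσ.τ_an.eventually_analyticAt
    rwa [h0] at this
  obtain ⟨ε₁, hε₁, hball₁⟩ := Metric.eventually_nhds_iff_ball.mp
    (((hn1.and hright).and hτan).and (hτc.eventually (Metric.ball_mem_nhds (0 : ℂ × ℂ) hδ)))
  refine ⟨min ε₁ δ, lt_min hε₁ hδ, fun F hF z c hc hz hs ht => ?_⟩
  -- the coordinates at a parameter `w` which satisfies the conditions
  have hgood : ∀ w, ‖c⁻¹ • F w - q‖ < min ε₁ δ → (τ (c⁻¹ • F w)).1 ≠ 0 →
      ‖(τ (c⁻¹ • F w)).2‖ < min ε₁ δ * ‖(τ (c⁻¹ • F w)).1‖ →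
      ((τ (c⁻¹ • F w)).1, (τ (c⁻¹ • F w)).2 / (τ (c⁻¹ • F w)).1) ∈ ball (0 : ℂ × ℂ) δ ∧
      ∃ d : ℂ, d ≠ 0 ∧ ‖d‖ ≤ 2 ∧ 1 ≤ 2 * ‖d‖ ∧ phi l (F w) =
        ((c * d) ^ 2 * (τ (c⁻¹ • F w)).1) • σ₁ ((τ (c⁻¹ • F w)).1, (τ (c⁻¹ • F w)).2 / (τ (c⁻¹ • F w)).1) := by
    intro w hw1 hw2 hw3
    have hy : c⁻¹ • F w ∈ ball q ε₁ := by
      rw [mem_ball, dist_eq_norm]
      exact hw1.trans_le (min_le_left _ _)
    obtain ⟨⟨⟨⟨g1, g2⟩, g3⟩, g4⟩, g5⟩ := hball₁ _ hy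
    have hyX : c⁻¹ • F w ∈ X := hX.smul _ (hF.mem w) _ (inv_ne_zero hc)
    obtain ⟨d, hd0, hd⟩ := g3 hyX
    have hp1 : ‖(τ (c⁻¹ • F w)).1‖ < δ := (norm_fst_le _).trans_lt (by simpa using g5)
    have hp2 : ‖(τ (c⁻¹ • F w)).2 / (τ (c⁻¹ • F w)).1‖ < δ := by
      rw [norm_div, div_lt_iff₀ (norm_pos_iff.mpr hw2)]
      exact hw3.trans_le (mul_le_mul_of_nonneg_right (min_le_right _ _) (norm_nonneg _))
    have hpb : ((τ (c⁻¹ • F w)).1, (τ (c⁻¹ • F w)).2 / (τ (c⁻¹ • F w)).1) ∈ ball (0 : ℂ × ℂ) δ := by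
      rw [mem_ball, dist_zero_right, Prod.norm_def]
      exact max_lt hp1 hp2
    refine ⟨hpb, d, hd0, ?_, ?_, ?_⟩
    · -- ‖d‖ ≤ 2
      have h2 : ‖c⁻¹ • F w‖ = ‖d‖ * ‖σ (τ (c⁻¹ • F w))‖ := by
        conv_lhs => rw [hd]
        rw [norm_smul]
      have h3 : 0 < ‖σ (τ (c⁻¹ • F w))‖ := by
        rw [norm_pos_iff]
        intro h
        rw [h, smul_zero] at hd
        exact hX.zero (hd ▸ hyX)
      rw [h2] at g1
      exact le_of_mul_le_mul_right g1 h3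
    · have h2 : ‖c⁻¹ • F w‖ = ‖d‖ * ‖σ (τ (c⁻¹ • F w))‖ := by
        conv_lhs => rw [hd]
        rw [norm_smul]
      have h3 : 0 < ‖σ (τ (c⁻¹ • F w))‖ := by
        rw [norm_pos_iff]
        intro h
        rw [h, smul_zero] at hd
        exact hX.zero (hd ▸ hyX)
      rw [h2] at g2
      refine le_of_mul_le_mul_right ?_ h3
      linarith
    · have h2 : F w = (c * d) • σ (τ (c⁻¹ • F w)) := by
        rw [mul_smul, ← hd, smul_smul, mul_inv_cancel₀ hc, one_smul]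
      have h3 : ((τ (c⁻¹ • F w)).1, (τ (c⁻¹ • F w)).1 * ((τ (c⁻¹ • F w)).2 / (τ (c⁻¹ • F w)).1)) = τ (c⁻¹ • F w) := by
        rw [mul_div_cancel₀ _ hw2]
      have h4 := (hball _ hpb).1.1.1.1
      simp only at h4
      rw [h3] at h4
      conv_lhs => rw [h2]
      rw [phi_smul, h4, smul_smul]
  obtain ⟨hpz, d, hd0, hd1, hd2, hphi⟩ := hgood z hz hs ht
  have hyb : c⁻¹ • F z ∈ ball q ε₁ := by
    rw [mem_ball, dist_eq_norm]
    exact hz.trans_le (min_le_left _ _)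
  have hdiffP : DifferentiableAt ℂ (fun w => τ (c⁻¹ • F w)) z := by
    have g1 := (hball₁ _ hyb).1.2
    exact g1.differentiableAt.comp z ((hF.diff z).const_smul c⁻¹)
  have hcP : ContinuousAt (fun w => τ (c⁻¹ • F w)) z := hdiffP.continuousAt
  set P : ℂ → ℂ × ℂ := fun w => ((τ (c⁻¹ • F w)).1, (τ (c⁻¹ • F w)).2 / (τ (c⁻¹ • F w)).1) with hP
  have hPc : ContinuousAt P z := by
    have h2 : ContinuousAt (fun w => (τ (c⁻¹ • F w)).1) z := continuous_fst.continuousAt.comp hcP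
    have h3 : ContinuousAt (fun w => (τ (c⁻¹ • F w)).2) z := continuous_snd.continuousAt.comp hcP
    exact h2.prodMk (h3.div h2 hs)
  -- the conditions hold near `z`
  have hev : ∀ᶠ w in 𝓝 z, ∃ k : ℂ, k ≠ 0 ∧ phi l (F w) = k • σ₁ (P w) := by
    have e1 : ∀ᶠ w in 𝓝 z, ‖c⁻¹ • F w - q‖ < min ε₁ δ := by
      have : ContinuousAt (fun w => ‖c⁻¹ • F w - q‖) z := (((hF.diff z).continuousAt.const_smul c⁻¹).sub continuousAt_const).norm
      exact this.eventually (gt_mem_nhds hz)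
    have e2 : ∀ᶠ w in 𝓝 z, (τ (c⁻¹ • F w)).1 ≠ 0 := by
      have h2 : ContinuousAt (fun w => (τ (c⁻¹ • F w)).1) z := continuous_fst.continuousAt.comp hcP
      exact h2.eventually_ne hs
    have e3 : ∀ᶠ w in 𝓝 z, ‖(τ (c⁻¹ • F w)).2‖ < min ε₁ δ * ‖(τ (c⁻¹ • F w)).1‖ := by
      have h2 : ContinuousAt (fun w => min ε₁ δ * ‖(τ (c⁻¹ • F w)).1‖ - ‖(τ (c⁻¹ • F w)).2‖) z :=
        (continuousAt_const.mul (continuous_fst.continuousAt.comp hcP).norm).sub (continuous_snd.continuousAt.comp hcP).norm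
      filter_upwards [h2.eventually (lt_mem_nhds (sub_pos.mpr ht))] with w hw
      exact sub_pos.mp hw
    filter_upwards [e1, e2, e3] with w w1 w2 w3
    obtain ⟨-, d', hd', -, -, h2⟩ := hgood w w1 w2 w3
    exact ⟨_, mul_ne_zero (pow_ne_zero _ (mul_ne_zero hc hd')) w2, h2⟩
  have hσne : σ₁ (P z) ≠ 0 := (hball _ hpz).1.1.2.1.2
  -- the lift
  obtain ⟨Φ₀, hΦ₀, h, hh, hhΦ⟩ := Pool.Agent.SY.exists_liftB hX hl hTX hTs hq hF
  set k₀ : ℂ := (c * d) ^ 2 * (τ (c⁻¹ • F z)).1 with hk₀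
  have hk₀0 : k₀ ≠ 0 := mul_ne_zero (pow_ne_zero _ (mul_ne_zero hc hd0)) hs
  have hhz : h z ≠ 0 := by
    intro h2
    have h3 := hhΦ z
    rw [h2, zero_smul, hphi] at h3
    exact smul_ne_zero hk₀0 hσne h3
  have hΦz : Φ₀ z = ((h z)⁻¹ * k₀) • σ₁ (P z) := by
    have h3 := hhΦ z
    rw [hphi] at h3
    rw [mul_smul, h3, smul_smul, inv_mul_cancel₀ hhz, one_smul]
  set μ : ℂ := (h z)⁻¹ * k₀ with hμ
  have hμ0 : μ ≠ 0 := mul_ne_zero (inv_ne_zero hhz) hk₀0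
  have hμs : ∀ y ∈ blow l X, ∀ a : ℂ, a ≠ 0 → a • y ∈ blow l X := fun y hy a ha => Pool.Agent.H62.BU.blow_smul y hy a ha
  have hlift : IsLiftB l X T F (fun w => μ⁻¹ • Φ₀ w) := by
    refine ⟨⟨hΦ₀.diff.const_smul μ⁻¹, fun w => hμs _ (hΦ₀.mem w) _ (inv_ne_zero hμ0), ?_⟩, fun w => h w * μ, hh.mul_const μ, fun w => ?_⟩
    · obtain ⟨w, hw⟩ := hΦ₀.out
      refine ⟨w, fun hcon => hw ⟨hΦ₀.mem w, fun b hb => ?_⟩⟩
      have h2 : (μ⁻¹ • Φ₀ w) b ≠ 0 := smul_ne_zero (inv_ne_zero hμ0) hb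
      have h3 := hTs _ (hcon.2 b h2) μ hμ0
      rwa [Pi.smul_apply, smul_smul, mul_inv_cancel₀ hμ0, one_smul] at h3
    · rw [hhΦ w, smul_smul, mul_assoc, mul_inv_cancel₀ hμ0, mul_one]
  refine ⟨(hball _ hpz).2, hdiffP, fun w => μ⁻¹ • Φ₀ w, hlift, ?_, ?_, d, hd1, hd2, hphi⟩
  · show μ⁻¹ • Φ₀ z = σ₁ (P z)
    rw [hΦz, smul_smul, inv_mul_cancel₀ hμ0, one_smul]
  · -- the coordinates of the lift
    obtain ⟨Λ, -, hΛ'⟩ := exists_dual_vector ℂ (σ₁ (P z)) (norm_ne_zero_iff.mpr hσne)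
    have hΛ : Λ (σ₁ (P z)) ≠ 0 := by
      rw [hΛ']
      exact Complex.ofReal_ne_zero.mpr (norm_ne_zero_iff.mpr hσne)
    have hσP : ContinuousAt (fun w => σ₁ (P w)) z :=
      ContinuousAt.comp (g := σ₁) (hball _ hpz).1.1.1.2 hPc
    have hΛP : ContinuousAt (fun w => Λ (σ₁ (P w))) z := Λ.continuous.continuousAt.comp hσP
    have hΦc : ContinuousAt (fun w => μ⁻¹ • Φ₀ w) z := (hΦ₀.diff z).continuousAt.const_smul μ⁻¹
    have hφc : ContinuousAt (fun w => Λ (μ⁻¹ • Φ₀ w) / Λ (σ₁ (P w))) z := (Λ.continuous.continuousAt.comp hΦc).div hΛP hΛ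
    have hφ1 : Λ (μ⁻¹ • Φ₀ z) / Λ (σ₁ (P z)) = 1 := by
      rw [hΦz, smul_smul, inv_mul_cancel₀ hμ0, one_smul, div_self hΛ]
    have hpair : Tendsto (fun w => (σ₁ (P w), Λ (μ⁻¹ • Φ₀ w) / Λ (σ₁ (P w)))) (𝓝 z) (𝓝 (σ₁ (P z), (1 : ℂ))) := by
      have h2 : ContinuousAt (fun w => (σ₁ (P w), Λ (μ⁻¹ • Φ₀ w) / Λ (σ₁ (P w)))) z := hσP.prodMk hφc
      have h3 := h2.tendsto
      simp only [hφ1] at h3
      exact h3
    have hinvz := (hball _ hpz).1.2
    have hhne : ∀ᶠ w in 𝓝 z, h w ≠ 0 := (hh z).continuousAt.eventually_ne hhz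
    have hPball : ∀ᶠ w in 𝓝 z, P w ∈ ball (0 : ℂ × ℂ) δ := hPc.eventually (isOpen_ball.mem_nhds hpz)
    filter_upwards [hpair.eventually hinvz, hev, hhne, hPball, hΛP.eventually_ne hΛ] with w g1 g2 g3 g4 g5
    obtain ⟨k, hk, hkw⟩ := g2
    have h2 : μ⁻¹ • Φ₀ w = (μ⁻¹ * ((h w)⁻¹ * k)) • σ₁ (P w) := by
      rw [mul_smul, mul_smul, ← hkw, hhΦ w, smul_smul (h w)⁻¹, inv_mul_cancel₀ g3, one_smul]
    have h3 : Λ (μ⁻¹ • Φ₀ w) / Λ (σ₁ (P w)) = μ⁻¹ * ((h w)⁻¹ * k) := by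
      rw [h2, map_smul, smul_eq_mul, mul_div_assoc, div_self g5, mul_one]
    have h4 : μ⁻¹ • Φ₀ w = (Λ (μ⁻¹ • Φ₀ w) / Λ (σ₁ (P w))) • σ₁ (P w) := by
      rw [h3, h2]
    show τ₁ (μ⁻¹ • Φ₀ w) = P w
    rw [h4]
    rw [g1]
    exact (hball _ g4).1.1.2.2

end Pool.Agent.SG

end
end

section

/-!
# SG Box: the two-sided bound downstairs, in the sector around a direction at the point which is blown up

`x = q` is blown up, `U (F, z) = down g F z * pn (phi l (F z)) ^ (- θ j / (m D))`.  If `c⁻¹ • F z` is near `q` and `p = τ (c⁻¹ • F z)` satisfies `p.1 ≠ 0`,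
`‖p.2‖ < ε ‖p.1‖`, then with `s = p.1`, `t = p.2 / p.1`, up to a factor `B`,
`U = ‖s‖ ^ (1 + (1 - θ) j / (2 m)) * ‖oC Ω σ p‖ ^ (1 / m) * max (‖s'‖, ‖s‖ ^ (1 - k) ‖t'‖) * ‖c‖ ^ (- θ j / m)`.
-/

set_option autoImplicit false
set_option linter.unusedVariables false

open Topology Filter Metric

noncomputable section

namespace Pool.Agent.SG

open Pool.Agent.H36.BP (EN)
open Pool.Agent.H17BP (Surface IsChart IsForm)
open Pool.Agent.H62.BU (blow total Ker phi om)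
open Pool.Agent.SY (Ent IsLiftB down down_eq)
open Pool.Agent.H36.TB (oC sm EnergyB TBAt exists_chart_exc_eq)

/-- a power of a number between `B⁻¹` and `B` -/
theorem rpow_two_sided {B x : ℝ} (hB : 1 ≤ B) (h1 : B⁻¹ ≤ x) (h2 : x ≤ B) (e : ℝ) : x ^ e ≤ B ^ |e| ∧ 1 ≤ B ^ |e| * x ^ e := by
  have hB0 : 0 < B := lt_of_lt_of_le one_pos hB
  have hx0 : 0 < x := lt_of_lt_of_le (inv_pos.mpr hB0) h1
  have hlog : |Real.log x| ≤ Real.log B := by
    rw [abs_le]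
    constructor
    · rw [← Real.log_inv]
      exact Real.log_le_log (inv_pos.mpr hB0) h1
    · exact Real.log_le_log hx0 h2
  have key : |Real.log x * e| ≤ Real.log B * |e| := by
    rw [abs_mul]
    exact mul_le_mul_of_nonneg_right hlog (abs_nonneg e)
  rw [Real.rpow_def_of_pos hx0, Real.rpow_def_of_pos hB0, ← Real.exp_add]
  constructor
  · exact Real.exp_le_exp.mpr ((le_abs_self _).trans key)
  · rw [← Real.exp_zero]
    refine Real.exp_le_exp.mpr ?_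
    have := neg_abs_le (Real.log x * e)
    linarith

variable {V : Type} [NormedAddCommGroup V] [NormedSpace ℂ V] {ι : Type} [Fintype ι] {l : ι → V →L[ℂ] ℂ} {X T : Set V} {q : V}

theorem box [FiniteDimensional ℂ V] {m j : ℕ} {Ω : V → V → V → ℂ} (hX : Surface X) (hΩ : IsForm X m j Ω) (hm : 1 ≤ m) (hl : Ker l q)
    (hTX : T ⊆ X) (hTs : ∀ x ∈ T, ∀ c : ℂ, c ≠ 0 → c • x ∈ T) (hq : q ∈ T) {N' : ℕ} {L' : (ι → V) ≃L[ℂ] EN N'} {rho : (ι → V) → ℝ}
    {M : ℕ} {c₀ C θ k : ℝ} {g : (ℂ → ι → V) → ℂ → ℝ} {pn : (ι → V) → ℝ} {D₁ : ℕ}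
    (E : EnergyB (blow l X) (total l X T) (2 * m) j (om l j Ω) (fun y => ‖L' y‖) rho M c₀ C g pn D₁ θ)
    (ht : ∀ y ∈ blow l X, TBAt (blow l X) (total l X T) (2 * m) (om l j Ω) g pn k y) {σ : ℂ × ℂ → V} {τ : V → ℂ × ℂ}
    (hσ : IsChart X σ τ) (h0 : σ 0 = q) (hT : ∀ᶠ p in 𝓝 (0 : ℂ × ℂ), p.1 ≠ 0 → σ (p.1, p.1 * p.2) ∉ T) :
    ∃ ε B : ℝ, 0 < ε ∧ 1 ≤ B ∧ ∀ F, Ent X T F → ∀ z c : ℂ, c ≠ 0 → ‖c⁻¹ • F z - q‖ < ε → (τ (c⁻¹ • F z)).1 ≠ 0 →
      ‖(τ (c⁻¹ • F z)).2‖ < ε * ‖(τ (c⁻¹ • F z)).1‖ →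
      DifferentiableAt ℂ (fun w => τ (c⁻¹ • F w)) z ∧
      ‖(τ (c⁻¹ • F z)).1‖ ^ (1 + (1 - θ) * j / (2 * m)) * ‖oC Ω σ (τ (c⁻¹ • F z))‖ ^ (1 / (m : ℝ)) *
        sm k ((τ (c⁻¹ • F z)).1, (τ (c⁻¹ • F z)).2 / (τ (c⁻¹ • F z)).1)
          (deriv (fun w => (τ (c⁻¹ • F w)).1) z, deriv (fun w => (τ (c⁻¹ • F w)).2 / (τ (c⁻¹ • F w)).1) z) * ‖c‖ ^ (-(θ * j / m)) ≤
        B * (down l X T g F z * pn (phi l (F z)) ^ (-(θ * j / (m * (2 * D₁ : ℕ))))) ∧
      down l X T g F z * pn (phi l (F z)) ^ (-(θ * j / (m * (2 * D₁ : ℕ)))) ≤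
        B * (‖(τ (c⁻¹ • F z)).1‖ ^ (1 + (1 - θ) * j / (2 * m)) * ‖oC Ω σ (τ (c⁻¹ • F z))‖ ^ (1 / (m : ℝ)) *
        sm k ((τ (c⁻¹ • F z)).1, (τ (c⁻¹ • F z)).2 / (τ (c⁻¹ • F z)).1)
          (deriv (fun w => (τ (c⁻¹ • F w)).1) z, deriv (fun w => (τ (c⁻¹ • F w)).2 / (τ (c⁻¹ • F w)).1) z) * ‖c‖ ^ (-(θ * j / m))) := by
  have : CompleteSpace V := FiniteDimensional.complete ℂ V
  obtain ⟨σ₁, τ₁, hσ₁, h1, -, h3⟩ := exists_chart_exc_eq hX hl hΩ hσ h0
  have hTot := box_total hTs hq hσ h0 hσ₁ h1 hT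
  obtain ⟨B, hB, hev⟩ := ht (σ₁ 0) hσ₁.σ_mem.self_of_nhds σ₁ τ₁ hσ₁ rfl hTot
  have hev' := hσ₁.σ_an.continuousAt.eventually hev
  obtain ⟨ε, hε, hbox⟩ := box_lift hX hl hTX hTs hq hσ h0 hσ₁ h1 ((hev'.and h3).and hσ₁.left)
  have hB0 : 0 < B := lt_of_lt_of_le one_pos hB
  have hm0 : (m : ℝ) ≠ 0 := by
    have : m ≠ 0 := by omega
    exact_mod_cast this
  have hD0 : (D₁ : ℝ) ≠ 0 := by
    have h4 := E.one_le
    have : D₁ ≠ 0 := by omega
    exact_mod_cast this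
  set e : ℝ := -(θ * j / (m * (2 * D₁ : ℕ))) with he
  have heD : (D₁ : ℝ) * e = -(θ * j / (2 * m)) := by
    rw [he]
    push_cast
    field_simp
  set K : ℝ := 2 ^ |-(θ * j / m)| * B ^ |e| with hK
  have hK1 : 1 ≤ K := by
    rw [hK]
    exact one_le_mul_of_one_le_of_one_le (Real.one_le_rpow one_le_two (abs_nonneg _)) (Real.one_le_rpow hB (abs_nonneg _))
  refine ⟨ε, B * K, hε, one_le_mul_of_one_le_of_one_le hB hK1, fun F hF z c hc h4 h5 h6 => ?_⟩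
  obtain ⟨⟨⟨⟨hp1, hp2, hp3⟩, hp4⟩, hp5⟩, hdiff, Φ, hΦ, hΦz, hev2, d, hd1, hd2, hphi⟩ := hbox F hF z c hc h4 h5 h6
  refine ⟨hdiff, ?_⟩
  set p : ℂ × ℂ := τ (c⁻¹ • F z) with hp
  have hd0 : d ≠ 0 := by
    rintro rfl
    rw [norm_zero] at hd2
    linarith
  have hcn : 0 < ‖c‖ := norm_pos_iff.mpr hc
  have hdn : 0 < ‖d‖ := norm_pos_iff.mpr hd0
  have hsn : 0 < ‖p.1‖ := norm_pos_iff.mpr h5
  -- the derivative
  have hder : deriv (fun w => τ₁ (Φ w)) z =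
      (deriv (fun w => (τ (c⁻¹ • F w)).1) z, deriv (fun w => (τ (c⁻¹ • F w)).2 / (τ (c⁻¹ • F w)).1) z) := by
    rw [Filter.EventuallyEq.deriv_eq hev2]
    have g1 : DifferentiableAt ℂ (fun w => (τ (c⁻¹ • F w)).1) z := differentiableAt_fst.comp z hdiff
    have g2 : DifferentiableAt ℂ (fun w => (τ (c⁻¹ • F w)).2) z := differentiableAt_snd.comp z hdiff
    exact (g1.hasDerivAt.prodMk (g2.div g1 h5).hasDerivAt).deriv
  have hp3' := hp3 Φ hΦ.1 z hΦz
  rw [hder, hp5] at hp3'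
  rw [down_eq hX hl hTX hTs hq E.toEnergy hF hΦ]
  have hsp : ((p.1, p.1 * (p.2 / p.1)) : ℂ × ℂ) = p := by
    rw [mul_div_cancel₀ _ h5]
  have hco : ‖oC (om l j Ω) σ₁ (p.1, p.2 / p.1)‖ ^ (1 / ((2 * m : ℕ) : ℝ)) = ‖p.1‖ ^ (1 + (j : ℝ) / (2 * m)) * ‖oC Ω σ p‖ ^ (1 / (m : ℝ)) := by
    rw [hp4]
    simp only [hsp]
    rw [norm_mul, norm_pow, norm_pow, Real.mul_rpow (by positivity) (by positivity), ← Real.rpow_natCast, ← Real.rpow_natCast,
      ← Real.rpow_mul (norm_nonneg _), ← Real.rpow_mul (norm_nonneg _)]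
    congr 2
    · push_cast
      field_simp
    · push_cast
      field_simp
  rw [hco] at hp3'
  -- the weight
  have hwt : pn (phi l (F z)) ^ e = ‖c‖ ^ (-(θ * j / m)) * ‖p.1‖ ^ (-(θ * j / (2 * m))) * (‖d‖ ^ (-(θ * j / m)) * pn (σ₁ (p.1, p.2 / p.1)) ^ e) := by
    rw [hphi, E.pn_smul, Real.mul_rpow (by positivity) (E.pn_nonneg _), ← Real.rpow_natCast, ← Real.rpow_mul (norm_nonneg _), heD,
      norm_mul, norm_pow, norm_mul, Real.mul_rpow (by positivity) (norm_nonneg _), ← Real.rpow_natCast, ← Real.rpow_mul (by positivity),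
      Real.mul_rpow (norm_nonneg _) (norm_nonneg _)]
    have h7 : ((2 : ℕ) : ℝ) * (-(θ * j / (2 * m))) = -(θ * j / m) := by
      push_cast
      field_simp
    rw [h7]
    ring
  rw [hwt]
  set A : ℝ := ‖oC Ω σ p‖ ^ (1 / (m : ℝ)) with hA
  set S : ℝ := sm k (p.1, p.2 / p.1) (deriv (fun w => (τ (c⁻¹ • F w)).1) z, deriv (fun w => (τ (c⁻¹ • F w)).2 / (τ (c⁻¹ • F w)).1) z) with hS
  set R : ℝ := ‖d‖ ^ (-(θ * j / m)) * pn (σ₁ (p.1, p.2 / p.1)) ^ e with hR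
  have hR0 : 0 ≤ R := mul_nonneg (Real.rpow_nonneg (norm_nonneg _) _) (Real.rpow_nonneg (E.pn_nonneg _) _)
  have hd3 := rpow_two_sided (B := 2) (x := ‖d‖) one_le_two (by linarith) hd1 (-(θ * j / m))
  have hp6 := rpow_two_sided hB hp1 hp2 e
  have hRK : R ≤ K := by
    rw [hR, hK]
    exact mul_le_mul hd3.1 hp6.1 (Real.rpow_nonneg (E.pn_nonneg _) _) (by positivity)
  have hRK' : 1 ≤ K * R := by
    have h7 : K * R = (2 ^ |-(θ * j / m)| * ‖d‖ ^ (-(θ * j / m))) * (B ^ |e| * pn (σ₁ (p.1, p.2 / p.1)) ^ e) := by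
      rw [hR, hK]
      ring
    rw [h7]
    exact one_le_mul_of_one_le_of_one_le hd3.2 hp6.2
  have hg0 : 0 ≤ g Φ z := E.toEnergy.nonneg Φ hΦ.1 z
  set P : ℝ := ‖c‖ ^ (-(θ * j / m)) * ‖p.1‖ ^ (-(θ * j / (2 * m))) with hP
  have hP0 : 0 ≤ P := by positivity
  have hpow : ‖p.1‖ ^ (1 + (1 - θ) * j / (2 * m)) = ‖p.1‖ ^ (1 + (j : ℝ) / (2 * m)) * ‖p.1‖ ^ (-(θ * j / (2 * m))) := by
    rw [← Real.rpow_add hsn]
    congr 1
    field_simp
    ring
  have hW : ‖p.1‖ ^ (1 + (1 - θ) * j / (2 * m)) * A * S * ‖c‖ ^ (-(θ * j / m)) = (‖p.1‖ ^ (1 + (j : ℝ) / (2 * m)) * A * S) * P := by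
    rw [hpow, hP]
    ring
  rw [hW]
  set Y : ℝ := ‖p.1‖ ^ (1 + (j : ℝ) / (2 * m)) * A * S with hY
  have hY0 : 0 ≤ Y := by
    have : 0 ≤ S := by
      rw [hS]
      exact le_trans (norm_nonneg _) (le_max_left _ _)
    positivity
  constructor
  · calc Y * P ≤ (B * g Φ z) * P := mul_le_mul_of_nonneg_right hp3'.1 hP0
      _ ≤ (B * g Φ z) * P * (K * R) := le_mul_of_one_le_right (mul_nonneg (mul_nonneg hB0.le hg0) hP0) hRK'
      _ = B * K * (g Φ z * (P * R)) := by ring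
  · calc g Φ z * (P * R) ≤ (B * Y) * (P * K) :=
          mul_le_mul hp3'.2 (mul_le_mul_of_nonneg_left hRK hP0) (mul_nonneg hP0 hR0) (mul_nonneg hB0.le hY0)
      _ = B * K * (Y * P) := by ring

end Pool.Agent.SG

end
end
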