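import Pool.Agent.H94.G6.M04
import Pool.Agent.H94.G6.M38
import Pool.Agent.H94.G6.M42
import Pool.Agent.H94.G6.M49
import Pool.Agent.H94.G6.M70
import Pool.Agent.H94.G6.M74

/-! The parts of this file: E2.Loc, H22.TB.Defs, H82.XB.Coord, MQ3.InvS, MQ3.InvP, MQ3.RegL, SG.NChart, SG.RPrj, UC.FinS. -/

section

/-!
# E2 Loc: the differential of `u` in a chart
-/

set_option autoImplicit false

open Topology Filter Metric

noncomputable section

namespace Pool.Agent.E2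

open Pool.Agent.H36.BP (EN)
open Pool.Agent.H14.PP (Tan)
open Pool.Agent.H17BP (Surface IsChart)

variable {N g : ℕ} {X : Set (EN N)} {Λ : AddSubgroup (Fin g → ℂ)} {u : EN N → (Fin g → ℂ)}

/-- the differential of a chart maps to the tangent spaces -/
theorem tan_fderiv_chart {σ : ℂ × ℂ → EN N} {p : ℂ × ℂ} (hσ : AnalyticAt ℂ σ p) (hX : ∀ᶠ q in 𝓝 p, σ q ∈ X) (v : ℂ × ℂ) :
    Tan X (σ p) (fderiv ℂ σ p v) := by
  have hl : AnalyticAt ℂ (fun z : ℂ => p + z • v) 0 := by fun_prop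
  have h0 : p + (0 : ℂ) • v = p := by simp
  have hσ' : AnalyticAt ℂ σ (p + (0 : ℂ) • v) := by rwa [h0]
  refine ⟨fun z => σ (p + z • v), ⟨AnalyticAt.comp (g := σ) (f := fun z : ℂ => p + z • v) hσ' hl, ?_⟩, by simp, ?_⟩
  · have h1 : Tendsto (fun z : ℂ => p + z • v) (𝓝 0) (𝓝 p) := by
      have := hl.continuousAt.tendsto
      rwa [h0] at this
    exact h1.eventually hX
  · have h1 : HasFDerivAt σ (fderiv ℂ σ p) (p + (0 : ℂ) • v) := by
      rw [h0]
      exact hσ.differentiableAt.hasFDerivAt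
    have h2 : HasDerivAt (fun z : ℂ => p + z • v) v 0 := by
      have h3 : HasDerivAt (fun z : ℂ => z • v) ((1 : ℂ) • v) 0 := (hasDerivAt_id (0 : ℂ)).smul_const v
      rw [one_smul] at h3
      exact h3.const_add p
    exact (h1.comp_hasDerivAt (0 : ℂ) h2).deriv

/-- the tangent spaces in a chart -/
theorem tan_chart (_hX : Surface X) {σ : ℂ × ℂ → EN N} {τ : EN N → ℂ × ℂ} (hσ : IsChart X σ τ) :
    ∀ᶠ p in 𝓝 (0 : ℂ × ℂ), σ p ∈ X ∧ ∀ w, Tan X (σ p) w → ∃ (v : ℂ × ℂ) (a : ℂ), w = fderiv ℂ σ p v + a • σ p := by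
  have hσc : Tendsto σ (𝓝 (0 : ℂ × ℂ)) (𝓝 (σ 0)) := hσ.σ_an.continuousAt.tendsto
  have hne : ∀ᶠ p in 𝓝 (0 : ℂ × ℂ), σ p ≠ 0 := hσ.σ_an.continuousAt.eventually_ne hσ.ne
  filter_upwards [hσc.eventually (Pool.Agent.H36.TB.exists_coef hσ), hσ.σ_mem, hσ.left, hne] with p h1 h2 h3 h4
  refine ⟨h2, fun w hw => ?_⟩
  obtain ⟨F, ⟨hF, hFX⟩, hF0, hFd⟩ := hw
  obtain ⟨c, a, hc, h5, h6⟩ := h1 F 0 hF hFX hF0
  rw [hF0, h3] at h5
  rw [h3] at h6
  have hc1 : c = 1 := by
    by_contra hc1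
    apply h4
    have h7 : (c - 1) • σ p = 0 := by
      rw [sub_smul, one_smul, ← h5, sub_self]
    exact (smul_eq_zero.1 h7).resolve_left (sub_ne_zero.2 hc1)
  rw [hc1, one_smul] at h6
  exact ⟨_, a, hFd ▸ h6⟩

end Pool.Agent.E2

end
end

section

/-!
# TB Defs: three of the properties of the Green-Griffiths-Lang conjecture, and (iv) for curves
-/

set_option autoImplicit false

open MvPolynomial

noncomputable section

namespace Pool.Agent.H22.TB

open Pool.Agent.H17 (PN VanishesAt HolomorphicInto puncturedDisc ZariskiClosedIn)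
open Pool.Agent.H17LG.Variety (FunField IsLogGeneralType)
open Pool.Agent.H62.FC (Homog)
open Pool.Agent.H17EF (projVar)

variable {N : ℕ}

/-- Three of the properties of the conjecture for the closed subvariety of `ℙ^N` given by `P`, with the exceptional set `Ξ`: general type, pseudo Picard
hyperbolic, pseudo Brody hyperbolic; and every closed subvariety of dimension one which is not contained in `Ξ` is of general type. -/
structure GGLC (P : Ideal (MvPolynomial (Fin (N + 1)) ℂ)) [P.IsPrime] (Ξ : Set (PN N)) : Prop where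
  closed : ZariskiClosedIn (projVar P) Ξ
  proper : Ξ ≠ projVar P
  generalType : ∀ w, 1 ≤ w → (∃ z : Fin w → FunField P, IsTranscendenceBasis ℂ z) →
    IsLogGeneralType (K := FunField P) (k := w) fun _ => False
  picard : ∀ f : ℂ → PN N, HolomorphicInto f puncturedDisc → (∀ z ∈ puncturedDisc, f z ∈ projVar P) →
    (∃ z ∈ puncturedDisc, f z ∉ Ξ) →
    ∃ g : ℂ → PN N, HolomorphicInto g (Metric.ball 0 1) ∧ ∀ z ∈ puncturedDisc, g z = f z
  brody : ∀ f : ℂ → PN N, HolomorphicInto f Set.univ → (∀ z, f z ∈ projVar P) → (∃ z w, f z ≠ f w) → ∀ z, f z ∈ Ξ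
  strongly : ∀ (Q : Ideal (MvPolynomial (Fin (N + 1)) ℂ)) [Q.IsPrime], Homog Q → P ≤ Q → ¬ projVar Q ⊆ Ξ →
    (∃ z : Fin 1 → FunField Q, IsTranscendenceBasis ℂ z) → IsLogGeneralType (K := FunField Q) (k := 1) fun _ => False

end Pool.Agent.H22.TB

end
end

section

/-!
# XB Coord: charts with given coordinate functions, the coefficient of a form in another chart
-/

set_option autoImplicit false
set_option linter.unusedSectionVars false

open Topology Filter Metric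

noncomputable section

namespace Pool.Agent.H82.XB

open Pool.Agent.H17BP (IsForm IsChart Bihol)

variable {V : Type} [NormedAddCommGroup V] [NormedSpace ℂ V] {X : Set V} {σ : ℂ × ℂ → V} {τ : V → ℂ × ℂ}

/-- A function, homogeneous of degree `0`, which is biholomorphic in a chart is the coordinate map of a chart. -/
theorem chart_of_coord {f : V → ℂ × ℂ} (h : IsChart X σ τ) (hf : AnalyticAt ℂ f (σ 0)) (hf' : ∀ c : ℂ, c ≠ 0 → ∀ x, f (c • x) = f x)
    (hb : Bihol fun p => f (σ p)) :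
    ∃ θ : ℂ × ℂ → ℂ × ℂ, Bihol θ ∧ IsChart X (fun p => σ (θ p)) f ∧ (∀ᶠ p in 𝓝 (0 : ℂ × ℂ), f (σ (θ p)) = p) := by
  obtain ⟨θ, h1, h2, h3, h4⟩ := hb.inv
  have hθ : Bihol θ := ⟨h1, h2, fun p => f (σ p), hb.an, hb.zero, h4, h3⟩
  have hθt : Tendsto θ (𝓝 0) (𝓝 0) := by
    have := h1.continuousAt.tendsto
    rwa [h2] at this
  have hτ0 : τ (σ 0) = 0 := h.left.self_of_nhds
  have hτ : Tendsto τ (𝓝 (σ 0)) (𝓝 0) := by
    have := h.τ_an.continuousAt.tendsto
    rwa [hτ0] at this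
  refine ⟨θ, hθ, ⟨?_, hθt.eventually h.σ_mem, ?_, ?_, h4, ?_, ?_⟩, h4⟩
  · refine AnalyticAt.comp (g := σ) (f := θ) ?_ h1
    rw [h2]
    exact h.σ_an
  · simp only [h2]
    exact h.ne
  · simp only [h2]
    exact hf
  · simp only [h2]
    filter_upwards [h.right, hτ.eventually h3] with y g1 g2 hyX
    obtain ⟨c, hc, g3⟩ := g1 hyX
    refine ⟨c, hc, ?_⟩
    have g4 : f y = f (σ (τ y)) := by
      conv_lhs => rw [g3]
      exact hf' c hc _
    rw [g4, g2]
    exact g3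
  · have g1 : ∀ᶠ p : V × ℂ in 𝓝 (σ (θ 0), (1 : ℂ)), p.2 ≠ 0 := continuousAt_snd.eventually_ne one_ne_zero
    filter_upwards [g1] with p hp
    exact hf' _ hp _

end Pool.Agent.H82.XB

end
end

section

/-!
# MQ3 InvS: the zeros of a germ in two variables are smooth off the origin
-/

set_option autoImplicit false

open Topology Filter

noncomputable section

namespace Pool.Agent.MQ3

open Pool.Agent.H17BP

/-- bounded functions converge along an ultrafilter -/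
private theorem InvS_lim {U : Ultrafilter (ℂ × ℂ)} {f : ℂ × ℂ → ℂ}
    (h : ∀ᶠ p in (U : Filter (ℂ × ℂ)), ‖f p‖ ≤ 1) : ∃ c : ℂ, Tendsto f U (𝓝 c) := by
  have h1 : ((U.map f : Ultrafilter ℂ) : Filter ℂ) ≤ 𝓟 (Metric.closedBall (0 : ℂ) 1) := by
    rw [Filter.le_principal_iff, Ultrafilter.coe_map, Filter.mem_map]
    filter_upwards [h] with p hp
    simpa using hp
  obtain ⟨c, -, hc⟩ := (isCompact_closedBall (0 : ℂ) 1).ultrafilter_le_nhds (U.map f) h1
  exact ⟨c, hc⟩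

/-- Induction over the resolution of a germ. -/
theorem resN_near (Q : (ℂ × ℂ → ℂ) → ℂ × ℂ → Prop) (h0 : ∀ g, Mono g → ∀ᶠ p in 𝓝[≠] (0 : ℂ × ℂ), Q g p)
    (h1 : ∀ g (c : ℂ) (p : ℂ × ℂ), p.1 ≠ 0 → Q (g ∘ bl c) p → Q g (bl c p))
    (h2 : ∀ g (p : ℂ × ℂ), p.2 ≠ 0 → Q (g ∘ blInf) p → Q g (blInf p)) {n : ℕ} :
    ∀ {g : ℂ × ℂ → ℂ}, ResN n g → ∀ᶠ p in 𝓝[≠] (0 : ℂ × ℂ), Q g p := by
  have key1 : ∀ {g : ℂ × ℂ → ℂ} {U : Ultrafilter (ℂ × ℂ)}, (U : Filter (ℂ × ℂ)) ≤ 𝓝 0 →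
      (∀ᶠ p in (U : Filter (ℂ × ℂ)), ¬ Q g p) → ∀ {c : ℂ}, Tendsto (fun p : ℂ × ℂ => p.2 / p.1) U (𝓝 c) →
      (∀ᶠ p in (U : Filter (ℂ × ℂ)), p.1 ≠ 0) → (∀ᶠ p in 𝓝[≠] (0 : ℂ × ℂ), Q (g ∘ bl c) p) → False := by
    intro g U hU0 hbad c hc hne hih
    have ht1 : Tendsto (fun p : ℂ × ℂ => p.1) U (𝓝 0) := by
      have h2 : Tendsto (fun p : ℂ × ℂ => p.1) (𝓝 0) (𝓝 (0 : ℂ × ℂ).1) := continuous_fst.tendsto 0
      exact h2.mono_left hU0
    have ht2 : Tendsto (fun p : ℂ × ℂ => p.2 / p.1 - c) U (𝓝 0) := by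
      have h2 := hc.sub_const c
      rwa [sub_self] at h2
    have ht : Tendsto (fun p : ℂ × ℂ => (p.1, p.2 / p.1 - c)) U (𝓝[≠] 0) := by
      rw [tendsto_nhdsWithin_iff]
      refine ⟨?_, ?_⟩
      · exact ht1.prodMk_nhds ht2
      · filter_upwards [hne] with p hp
        intro h0
        exact hp (congrArg Prod.fst h0)
    obtain ⟨p, hp1, hp2, hp3⟩ := ((ht.eventually hih).and (hne.and hbad)).exists
    apply hp3
    have h4 : bl c (p.1, p.2 / p.1 - c) = p := by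
      unfold bl
      ext
      · rfl
      · simp only
        field_simp
        ring
    have h5 := h1 g c (p.1, p.2 / p.1 - c) hp2 hp1
    rwa [h4] at h5
  have key2 : ∀ {g : ℂ × ℂ → ℂ} {U : Ultrafilter (ℂ × ℂ)}, (U : Filter (ℂ × ℂ)) ≤ 𝓝 0 →
      (∀ᶠ p in (U : Filter (ℂ × ℂ)), ¬ Q g p) → Tendsto (fun p : ℂ × ℂ => p.1 / p.2) U (𝓝 0) →
      (∀ᶠ p in (U : Filter (ℂ × ℂ)), p.2 ≠ 0) → (∀ᶠ p in 𝓝[≠] (0 : ℂ × ℂ), Q (g ∘ blInf) p) → False := by
    intro g U hU0 hbad hc hne hih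
    have ht1 : Tendsto (fun p : ℂ × ℂ => p.2) U (𝓝 0) := by
      have h2 : Tendsto (fun p : ℂ × ℂ => p.2) (𝓝 0) (𝓝 (0 : ℂ × ℂ).2) := continuous_snd.tendsto 0
      exact h2.mono_left hU0
    have ht : Tendsto (fun p : ℂ × ℂ => (p.1 / p.2, p.2)) U (𝓝[≠] 0) := by
      rw [tendsto_nhdsWithin_iff]
      refine ⟨?_, ?_⟩
      · exact hc.prodMk_nhds ht1
      · filter_upwards [hne] with p hp
        intro h0
        exact hp (congrArg Prod.snd h0)
    obtain ⟨p, hp1, hp2, hp3⟩ := ((ht.eventually hih).and (hne.and hbad)).exists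
    apply hp3
    have h4 : blInf (p.1 / p.2, p.2) = p := by
      unfold blInf
      ext
      · simp only
        field_simp
      · rfl
    have h5 := h2 g (p.1 / p.2, p.2) hp2 hp1
    rwa [h4] at h5
  induction n with
  | zero =>
    intro g h
    exact h0 g h
  | succ n ih =>
    intro g h
    rcases h with h | h
    · exact h0 g h
    · by_contra hne
      have hf : ∃ᶠ p in 𝓝[≠] (0 : ℂ × ℂ), ¬ Q g p := Filter.not_eventually.mp hne
      have hnb := Filter.frequently_iff_neBot.mp hf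
      obtain ⟨U, hU⟩ := Ultrafilter.exists_le (𝓝[≠] (0 : ℂ × ℂ) ⊓ 𝓟 {p | ¬ Q g p})
      have hU1 : (U : Filter (ℂ × ℂ)) ≤ 𝓝[≠] 0 := hU.trans inf_le_left
      have hU0 : (U : Filter (ℂ × ℂ)) ≤ 𝓝 0 := hU1.trans nhdsWithin_le_nhds
      have hbad : ∀ᶠ p in (U : Filter (ℂ × ℂ)), ¬ Q g p := Filter.le_principal_iff.mp (hU.trans inf_le_right)
      have hne0 : ∀ᶠ p in (U : Filter (ℂ × ℂ)), p ≠ 0 := by
        have h1 : ∀ᶠ p in 𝓝[≠] (0 : ℂ × ℂ), p ≠ 0 := eventually_mem_nhdsWithin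
        exact h1.filter_mono hU1
      rcases U.em (fun p => ‖p.2‖ ≤ ‖p.1‖) with h1 | h1
      · have h2 : ∀ᶠ p in (U : Filter (ℂ × ℂ)), p.1 ≠ 0 := by
          filter_upwards [h1, hne0] with p hp1 hp2 h0
          apply hp2
          rw [h0, norm_zero] at hp1
          exact Prod.ext h0 (norm_le_zero_iff.mp hp1)
        obtain ⟨c, hc⟩ := InvS_lim (U := U) (f := fun p => p.2 / p.1) (by
          filter_upwards [h1] with p hp
          rw [norm_div]
          exact div_le_one_of_le₀ hp (norm_nonneg _))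
        exact key1 hU0 hbad hc h2 (ih (h (bl c) (bchart_bl c)))
      · have h2 : ∀ᶠ p in (U : Filter (ℂ × ℂ)), p.2 ≠ 0 := by
          filter_upwards [h1] with p hp1 h0
          apply hp1
          rw [h0, norm_zero]
          exact norm_nonneg _
        obtain ⟨c, hc⟩ := InvS_lim (U := U) (f := fun p => p.1 / p.2) (by
          filter_upwards [h1] with p hp
          rw [norm_div]
          exact div_le_one_of_le₀ (not_le.mp hp).le (norm_nonneg _))
        by_cases hc0 : c = 0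
        · rw [hc0] at hc
          exact key2 hU0 hbad hc h2 (ih (h blInf bchart_blInf))
        · have h3 : ∀ᶠ p in (U : Filter (ℂ × ℂ)), p.1 ≠ 0 := by
            filter_upwards [hc.eventually_ne hc0] with p hp h0
            apply hp
            rw [h0, zero_div]
          have h4 : Tendsto (fun p : ℂ × ℂ => p.2 / p.1) U (𝓝 c⁻¹) := by
            have h5 := hc.inv₀ hc0
            refine h5.congr ?_
            intro p
            rw [inv_div]
          exact key1 hU0 hbad h4 h3 (ih (h (bl c⁻¹) (bchart_bl c⁻¹)))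

/-- near `p` the zero set of `g` is empty or smooth -/
def Sm (g : ℂ × ℂ → ℂ) (p : ℂ × ℂ) : Prop :=
  g p ≠ 0 ∨ ∃ l : ℂ × ℂ → ℂ, AnalyticAt ℂ l p ∧ l p = 0 ∧ fderiv ℂ l p ≠ 0 ∧ ∀ᶠ w in 𝓝 p, (g w = 0 ↔ l w = 0)

/-- transfer under a local isomorphism -/
theorem Sm.map {g : ℂ × ℂ → ℂ} {β γ : ℂ × ℂ → ℂ × ℂ} {x : ℂ × ℂ} (hβ : AnalyticAt ℂ β x) (hγ : AnalyticAt ℂ γ (β x)) (h0 : γ (β x) = x)
    (h1 : ∀ᶠ w in 𝓝 (β x), β (γ w) = w) (h2 : ∀ᶠ y in 𝓝 x, γ (β y) = y) (h : Sm (g ∘ β) x) : Sm g (β x) := by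
  rcases h with h | ⟨l, hl, hl0, hl1, hl2⟩
  · exact Or.inl h
  · refine Or.inr ⟨l ∘ γ, AnalyticAt.comp (by rwa [h0]) hγ, by rw [Function.comp_apply, h0, hl0], ?_, ?_⟩
    · intro h3
      apply hl1
      have h4 : l =ᶠ[𝓝 x] (l ∘ γ) ∘ β := by
        filter_upwards [h2] with y hy
        simp only [Function.comp_apply, hy]
      have h5 : DifferentiableAt ℂ (l ∘ γ) (β x) := (AnalyticAt.comp (by rwa [h0]) hγ).differentiableAt
      rw [h4.fderiv_eq, fderiv_comp x h5 hβ.differentiableAt, h3, ContinuousLinearMap.zero_comp]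
    · have ht : Tendsto γ (𝓝 (β x)) (𝓝 x) := by
        have := hγ.continuousAt.tendsto
        rwa [h0] at this
      filter_upwards [h1, ht.eventually hl2] with w hw1 hw2
      simp only [Function.comp_apply] at hw2 ⊢
      rwa [hw1] at hw2

theorem Sm.mono {g : ℂ × ℂ → ℂ} (h : Mono g) : ∀ᶠ p in 𝓝[≠] (0 : ℂ × ℂ), Sm g p := by
  obtain ⟨S, T, a, b, u, hST, hu, hu0, hgu⟩ := h
  obtain ⟨θ, hθ, h1, h2⟩ := Bihol.exists_inv hST
  have hθ' : AnalyticAt ℂ θ (S 0, T 0) := by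
    have h3 : (S 0, T 0) = (0 : ℂ × ℂ) := hST.zero
    rw [h3]
    exact hθ.an
  have hSa : AnalyticAt ℂ S 0 := (ContinuousLinearMap.fst ℂ ℂ ℂ).analyticAt _ |>.comp hST.an
  have hTa : AnalyticAt ℂ T 0 := (ContinuousLinearMap.snd ℂ ℂ ℂ).analyticAt _ |>.comp hST.an
  have hT0 : T 0 = 0 := congrArg Prod.snd hST.zero
  have hS0 : S 0 = 0 := congrArg Prod.fst hST.zero
  have hθt : Tendsto (fun p => (S p, T p)) (𝓝 0) (𝓝 0) := hST.tendsto
  rw [eventually_nhdsWithin_iff]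
  filter_upwards [hSa.eventually_analyticAt, hTa.eventually_analyticAt, eventually_eventually_nhds.2 h1, hθt.eventually hθ.an.eventually_analyticAt,
    eventually_eventually_nhds.2 hgu, hu.eventually_analyticAt, hu.continuousAt.eventually_ne hu0] with p p1 p2 p3 p4 p5 p6 p7 hp
  have hp0 : p ≠ 0 := hp
  -- the derivatives of `S` and `T` are independent
  have hind : ∀ α β : ℂ, (α ≠ 0 ∨ β ≠ 0) → fderiv ℂ (fun x => α * S x + β * T x) p ≠ 0 := by
    intro α β hαβ h0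
    have hST' : HasFDerivAt (fun x => (S x, T x)) ((fderiv ℂ S p).prod (fderiv ℂ T p)) p :=
      p1.differentiableAt.hasFDerivAt.prodMk p2.differentiableAt.hasFDerivAt
    have h3 : HasFDerivAt (fun x => θ (S x, T x)) ((fderiv ℂ θ (S p, T p)).comp ((fderiv ℂ S p).prod (fderiv ℂ T p))) p :=
      HasFDerivAt.comp p (g := θ) (f := fun x => (S x, T x)) p4.differentiableAt.hasFDerivAt hST'
    have h4 : HasFDerivAt (fun x => θ (S x, T x)) (ContinuousLinearMap.id ℂ (ℂ × ℂ)) p :=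
      (hasFDerivAt_id p).congr_of_eventuallyEq p3
    have h5 := h3.unique h4
    have h6 : HasFDerivAt (fun x => α * S x + β * T x) (α • fderiv ℂ S p + β • fderiv ℂ T p) p := by
      have h7 := (p1.differentiableAt.hasFDerivAt.const_mul α).add (p2.differentiableAt.hasFDerivAt.const_mul β)
      exact h7
    rw [h6.fderiv] at h0
    -- the kernel
    have h8 : ∀ w : ℂ × ℂ, fderiv ℂ θ (S p, T p) (fderiv ℂ S p w, fderiv ℂ T p w) = w := by
      intro w
      have := congrArg (fun L : ℂ × ℂ →L[ℂ] ℂ × ℂ => L w) h5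
      simpa using this
    have h9 : ∀ w : ℂ × ℂ, α * fderiv ℂ S p w + β * fderiv ℂ T p w = 0 := by
      intro w
      have := congrArg (fun L : ℂ × ℂ →L[ℂ] ℂ => L w) h0
      simpa using this
    -- the vectors `(β, -α)` span the image
    have h10 : ∀ w : ℂ × ℂ, ∃ c : ℂ, w = c • fderiv ℂ θ (S p, T p) (β, -α) := by
      intro w
      rcases hαβ with hα | hβ
      · refine ⟨-(fderiv ℂ T p w) / α, ?_⟩
        rw [← map_smul]
        conv_lhs => rw [← h8 w]
        congr 1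
        have := h9 w
        ext
        · simp only [Prod.smul_fst, smul_eq_mul]
          field_simp
          linear_combination this
        · simp only [Prod.smul_snd, smul_eq_mul]
          field_simp
      · refine ⟨(fderiv ℂ S p w) / β, ?_⟩
        rw [← map_smul]
        conv_lhs => rw [← h8 w]
        congr 1
        have := h9 w
        ext
        · simp only [Prod.smul_fst, smul_eq_mul]
          field_simp
        · simp only [Prod.smul_snd, smul_eq_mul]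
          field_simp
          linear_combination this
    obtain ⟨c, hc⟩ := h10 (1, 0)
    obtain ⟨d, hd⟩ := h10 (0, 1)
    set z := fderiv ℂ θ (S p, T p) (β, -α) with hz
    have e1 : c * z.1 = 1 := (congrArg Prod.fst hc).symm
    have e2 : c * z.2 = 0 := (congrArg Prod.snd hc).symm
    have e4 : d * z.2 = 1 := (congrArg Prod.snd hd).symm
    have hc0 : c ≠ 0 := by
      rintro rfl
      rw [zero_mul] at e1
      exact zero_ne_one e1
    have hz2 : z.2 = 0 := (mul_eq_zero.1 e2).resolve_left hc0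
    rw [hz2, mul_zero] at e4
    exact zero_ne_one e4
  have hST0 : S p ≠ 0 ∨ T p ≠ 0 := by
    by_contra hcon
    push Not at hcon
    apply hp0
    have h3 := p3.self_of_nhds
    rw [hcon.1, hcon.2] at h3
    rw [← h3]
    exact hθ.zero
  have hune : ∀ᶠ w in 𝓝 p, u w ≠ 0 := p6.continuousAt.eventually_ne p7
  by_cases hS : S p = 0
  · have hT : T p ≠ 0 := hST0.resolve_left (fun h => h hS)
    rcases Nat.eq_zero_or_pos a with ha | ha
    · left
      rw [p5.self_of_nhds, ha, pow_zero, one_mul]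
      exact mul_ne_zero (pow_ne_zero _ hT) p7
    · right
      refine ⟨S, p1, hS, ?_, ?_⟩
      · have h3 := hind 1 0 (Or.inl one_ne_zero)
        have h4 : (fun x => 1 * S x + 0 * T x) = S := by
          funext x
          ring
        rwa [h4] at h3
      · filter_upwards [p5, hune, p2.continuousAt.eventually_ne hT] with w hw1 hw2 hw3
        rw [hw1, mul_eq_zero, mul_eq_zero]
        constructor
        · rintro ((h | h) | h)
          · exact pow_eq_zero_iff (by omega) |>.1 h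
          · exact absurd h (pow_ne_zero _ hw3)
          · exact absurd h hw2
        · intro h
          left; left
          rw [h, zero_pow (by omega)]
  · by_cases hT : T p = 0
    · rcases Nat.eq_zero_or_pos b with hb | hb
      · left
        rw [p5.self_of_nhds, hb, pow_zero, mul_one]
        exact mul_ne_zero (pow_ne_zero _ hS) p7
      · right
        refine ⟨T, p2, hT, ?_, ?_⟩
        · have h3 := hind 0 1 (Or.inr one_ne_zero)
          have h4 : (fun x => 0 * S x + 1 * T x) = T := by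
            funext x
            ring
          rwa [h4] at h3
        · filter_upwards [p5, hune, p1.continuousAt.eventually_ne hS] with w hw1 hw2 hw3
          rw [hw1, mul_eq_zero, mul_eq_zero]
          constructor
          · rintro ((h | h) | h)
            · exact absurd h (pow_ne_zero _ hw3)
            · exact pow_eq_zero_iff (by omega) |>.1 h
            · exact absurd h hw2
          · intro h
            left; right
            rw [h, zero_pow (by omega)]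
    · left
      rw [p5.self_of_nhds]
      exact mul_ne_zero (mul_ne_zero (pow_ne_zero _ hS) (pow_ne_zero _ hT)) p7

/-- **The zeros of a germ in two variables are smooth off the origin.** -/
theorem sm_off {g : ℂ × ℂ → ℂ} (hg : AnalyticAt ℂ g 0) (h : ∃ᶠ p in 𝓝 (0 : ℂ × ℂ), g p ≠ 0) : ∀ᶠ p in 𝓝 (0 : ℂ × ℂ), p ≠ 0 → Sm g p := by
  obtain ⟨n, hn⟩ := exists_resN hg (fun h' => h (h'.mono fun p hp hne => hne hp))
  have h1 := resN_near Sm (fun g hg => Sm.mono hg) (fun g c p hp hQ => by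
    refine Sm.map (β := bl c) (γ := fun w => (w.1, w.2 / w.1 - c)) (analyticAt_bl c p) ?_ ?_ ?_ ?_ hQ
    · refine analyticAt_fst.prod ((analyticAt_snd.div analyticAt_fst ?_).sub analyticAt_const)
      exact hp
    · simp only [bl]
      ext
      · rfl
      · simp only
        field_simp
        ring
    · have h2 : ∀ᶠ w in 𝓝 (bl c p), w.1 ≠ 0 := continuous_fst.continuousAt.eventually_ne hp
      filter_upwards [h2] with w hw
      simp only [bl]
      ext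
      · rfl
      · simp only
        field_simp
        ring
    · have h2 : ∀ᶠ w in 𝓝 p, w.1 ≠ 0 := continuous_fst.continuousAt.eventually_ne hp
      filter_upwards [h2] with w hw
      simp only [bl]
      ext
      · rfl
      · simp only
        field_simp
        ring) (fun g p hp hQ => by
    refine Sm.map (β := blInf) (γ := fun w => (w.1 / w.2, w.2)) (analyticAt_blInf p) ?_ ?_ ?_ ?_ hQ
    · refine (analyticAt_fst.div analyticAt_snd ?_).prod analyticAt_snd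
      exact hp
    · simp only [blInf]
      ext
      · simp only
        field_simp
      · rfl
    · have h2 : ∀ᶠ w in 𝓝 (blInf p), w.2 ≠ 0 := continuous_snd.continuousAt.eventually_ne hp
      filter_upwards [h2] with w hw
      simp only [blInf]
      ext
      · simp only
        field_simp
      · rfl
    · have h2 : ∀ᶠ w in 𝓝 p, w.2 ≠ 0 := continuous_snd.continuousAt.eventually_ne hp
      filter_upwards [h2] with w hw
      simp only [blInf]
      ext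
      · simp only
        field_simp
      · rfl) hn
  rw [eventually_nhdsWithin_iff] at h1
  exact h1

end Pool.Agent.MQ3

end
end

section

/-!
# MQ3 InvP: regular points of a foliation and a curve

`RegPt v f q`: near `q` the vector field `v` has no zero and the curve `{f = 0}` is empty or smooth, and then it is transversal to `v` at `q` or invariant.
The points which are not regular are isolated (`regPt_off`).
-/

set_option autoImplicit false

open Topology Filter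

noncomputable section

namespace Pool.Agent.MQ3

open Pool.Agent.H17BP (exists_resN Bihol bihol_iff)
open Pool.Agent.MQ (ld_lin ld_chain ld_deriv_ne)

/-- regular points -/
def RegPt (v : ℂ × ℂ → ℂ × ℂ) (f : ℂ × ℂ → ℂ) (q : ℂ × ℂ) : Prop :=
  v q ≠ 0 ∧ (f q ≠ 0 ∨ ∃ G : ℂ × ℂ → ℂ, AnalyticAt ℂ G q ∧ G q = 0 ∧ fderiv ℂ G q ≠ 0 ∧ (∀ᶠ w in 𝓝 q, (f w = 0 ↔ G w = 0)) ∧
    (fderiv ℂ G q (v q) ≠ 0 ∨ ∀ᶠ w in 𝓝 q, G w = 0 → fderiv ℂ G w (v w) = 0))

/-- selection of a curve -/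
theorem curve_sel {f : ℂ × ℂ → ℂ} (hf : AnalyticAt ℂ f 0) (hf0 : ∃ᶠ p in 𝓝 (0 : ℂ × ℂ), f p ≠ 0) {B : ℂ × ℂ → Prop}
    (hB : ∃ᶠ p in 𝓝 (0 : ℂ × ℂ), p ≠ 0 ∧ f p = 0 ∧ B p) :
    ∃ c : ℂ → ℂ × ℂ, AnalyticAt ℂ c 0 ∧ c 0 = 0 ∧ (∀ᶠ t in 𝓝 (0 : ℂ), f (c t) = 0) ∧ ∃ᶠ t in 𝓝 (0 : ℂ), c t ≠ 0 ∧ B (c t) := by
  obtain ⟨n, hn⟩ := exists_resN hf fun h => hf0 (h.mono fun p hp => not_not.2 hp)
  obtain ⟨r, d, hd1, hd2, hd3⟩ := Pool.Agent.E1.disc_cover n hn (W := Set.univ) univ_mem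
  obtain ⟨i, z₀, hz₀, hz0, hfr⟩ : ∃ (i : Fin r) (z₀ : ℂ), z₀ ∈ Metric.closedBall (0 : ℂ) (1 / 2) ∧ d i z₀ = 0 ∧
      ∃ᶠ z in 𝓝 z₀, d i z ≠ 0 ∧ B (d i z) := by
    by_contra hcon
    push Not at hcon
    have h1 : ∀ i : Fin r, ∀ᶠ p in 𝓝 (0 : ℂ × ℂ), ∀ z ∈ Metric.closedBall (0 : ℂ) (1 / 2), d i z = p → ¬ (p ≠ 0 ∧ B p) := by
      intro i
      refine (isCompact_closedBall (0 : ℂ) (1 / 2)).eventually_forall_of_forall_eventually fun z₀ hz₀ => ?_
      have hz1 : z₀ ∈ Metric.closedBall (0 : ℂ) 1 := Metric.closedBall_subset_closedBall (by norm_num) hz₀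
      have hcont : ContinuousAt (d i) z₀ := (hd1 i z₀ hz1).continuousAt
      by_cases h0 : d i z₀ = 0
      · have h2 := hcon i z₀ hz₀ h0
        have h3 : ∀ᶠ x : (ℂ × ℂ) × ℂ in 𝓝 ((0 : ℂ × ℂ), z₀), d i x.2 ≠ 0 → ¬ B (d i x.2) :=
          continuousAt_snd.eventually (p := fun z => d i z ≠ 0 → ¬ B (d i z)) h2
        filter_upwards [h3] with x hx he
        rw [← he]
        exact fun hh => hx hh.1 hh.2
      · have h3 : ContinuousAt (fun x : (ℂ × ℂ) × ℂ => d i x.2 - x.1) ((0 : ℂ × ℂ), z₀) :=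
          (ContinuousAt.comp (f := fun x : (ℂ × ℂ) × ℂ => x.2) (g := d i) hcont continuousAt_snd).sub continuousAt_fst
        have h4 : ∀ᶠ x : (ℂ × ℂ) × ℂ in 𝓝 ((0 : ℂ × ℂ), z₀), d i x.2 - x.1 ≠ 0 := h3.eventually_ne (by simpa using h0)
        filter_upwards [h4] with x hx he
        exact absurd (sub_eq_zero.2 he) hx
    refine hB ?_
    filter_upwards [eventually_all.2 h1, hd3] with p a1 a2 a3
    obtain ⟨i, z, hz, he⟩ := a2 a3.2.1
    exact a1 i z hz he ⟨a3.1, a3.2.2⟩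
  have hz1 : z₀ ∈ Metric.closedBall (0 : ℂ) 1 := Metric.closedBall_subset_closedBall (by norm_num) hz₀
  refine ⟨fun t => d i (z₀ + t), ?_, by simpa using hz0, ?_, ?_⟩
  · refine AnalyticAt.fun_comp (g := d i) (f := fun t : ℂ => z₀ + t) ?_ (analyticAt_const.add analyticAt_id)
    rw [add_zero]
    exact hd1 i z₀ hz1
  · have h1 : ∀ᶠ t in 𝓝 (0 : ℂ), t ∈ Metric.closedBall (0 : ℂ) (1 / 2) := Metric.closedBall_mem_nhds _ (by norm_num)
    filter_upwards [h1] with t ht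
    refine (hd2 i (z₀ + t) ?_).2
    rw [mem_closedBall_zero_iff] at hz₀ ht ⊢
    exact (norm_add_le _ _).trans (by linarith)
  · intro hcon
    apply hfr
    have h1 : Tendsto (fun z : ℂ => z - z₀) (𝓝 z₀) (𝓝 0) := by
      have : ContinuousAt (fun z : ℂ => z - z₀) z₀ := by fun_prop
      simpa using this.tendsto
    filter_upwards [h1.eventually hcon] with z hz
    simpa using hz

/-- a linear form with prescribed independence -/
private theorem InvP_form {L : ℂ × ℂ →L[ℂ] ℂ} (h : L ≠ 0) : ∃ l : ℂ × ℂ →L[ℂ] ℂ, L (1, 0) * l (0, 1) - L (0, 1) * l (1, 0) ≠ 0 := by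
  by_cases h1 : L (1, 0) = 0
  · refine ⟨ContinuousLinearMap.fst ℂ ℂ ℂ, ?_⟩
    intro h2
    apply h
    have h3 : L (0, 1) = 0 := by
      rw [h1] at h2
      simpa using h2
    ext
    · simpa using h1
    · simpa using h3
  · refine ⟨ContinuousLinearMap.snd ℂ ℂ ℂ, ?_⟩
    simpa using h1

/-- A function which vanishes on a curve in a smooth curve vanishes on the smooth curve. -/
theorem smooth_ident {l h : ℂ × ℂ → ℂ} {q : ℂ × ℂ} (hl : AnalyticAt ℂ l q) (hl0 : l q = 0) (hl1 : fderiv ℂ l q ≠ 0) (hh : AnalyticAt ℂ h q)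
    {c : ℂ → ℂ × ℂ} {t₁ : ℂ} (hc : ContinuousAt c t₁) (hct : c t₁ = q) (hne : ∃ᶠ t in 𝓝 t₁, c t ≠ q) (hlc : ∀ᶠ t in 𝓝 t₁, l (c t) = 0)
    (hhc : ∀ᶠ t in 𝓝 t₁, h (c t) = 0) : ∀ᶠ w in 𝓝 q, l w = 0 → h w = 0 := by
  obtain ⟨m, hm⟩ := InvP_form hl1
  set θ : ℂ × ℂ → ℂ × ℂ := fun x => (l (q + x), m x) with hθ
  have hq : Tendsto (fun x : ℂ × ℂ => q + x) (𝓝 0) (𝓝 q) := by
    have : Continuous fun x : ℂ × ℂ => q + x := by fun_prop
    simpa using this.tendsto 0
  have hqa : AnalyticAt ℂ (fun x : ℂ × ℂ => q + x) 0 := analyticAt_const.add analyticAt_id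
  have hl' : AnalyticAt ℂ (fun x : ℂ × ℂ => l (q + x)) 0 := AnalyticAt.fun_comp (g := l) (f := fun x : ℂ × ℂ => q + x) (by rwa [add_zero]) hqa
  have hθa : AnalyticAt ℂ θ 0 := hl'.prod (m.analyticAt 0)
  have hθ0 : θ 0 = 0 := by
    rw [hθ]
    simp [hl0]
  have hd : HasFDerivAt θ ((fderiv ℂ l q).prod m) 0 := by
    have h1 : HasFDerivAt l (fderiv ℂ l q) (q + 0) := by
      rw [add_zero]
      exact hl.differentiableAt.hasFDerivAt
    have h2 : HasFDerivAt (fun x : ℂ × ℂ => q + x) (ContinuousLinearMap.id ℂ (ℂ × ℂ)) 0 := (hasFDerivAt_id (0 : ℂ × ℂ)).const_add q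
    have h3 : HasFDerivAt (fun x : ℂ × ℂ => l (q + x)) ((fderiv ℂ l q).comp (ContinuousLinearMap.id ℂ (ℂ × ℂ))) 0 :=
      HasFDerivAt.comp (0 : ℂ × ℂ) (g := l) (f := fun x : ℂ × ℂ => q + x) h1 h2
    rw [ContinuousLinearMap.comp_id] at h3
    exact h3.prodMk m.hasFDerivAt
  have hB : Bihol θ := by
    rw [bihol_iff hθa hθ0, hd.fderiv]
    simpa using hm
  obtain ⟨θ', a1, a2, a3⟩ := hB.exists_inv
  -- in the coordinates
  have hqθ : AnalyticAt ℂ (fun y => h (q + θ' y)) 0 := by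
    refine AnalyticAt.fun_comp (g := h) (f := fun y => q + θ' y) ?_ (analyticAt_const.add a1.an)
    rwa [a1.zero, add_zero]
  have hH : AnalyticAt ℂ (fun s : ℂ => h (q + θ' (0, s))) 0 := by
    have e1 : AnalyticAt ℂ (fun s : ℂ => ((0, s) : ℂ × ℂ)) 0 := analyticAt_const.prod analyticAt_id
    exact AnalyticAt.fun_comp (g := fun y => h (q + θ' y)) (f := fun s : ℂ => ((0, s) : ℂ × ℂ)) hqθ e1
  have hcq : Tendsto (fun t => c t - q) (𝓝 t₁) (𝓝 0) := by
    have h1 := hc.tendsto.sub_const q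
    rwa [hct, sub_self] at h1
  have hmt : Tendsto (fun t => m (c t - q)) (𝓝 t₁) (𝓝 0) := by
    have h1 := (m.continuous.tendsto 0).comp hcq
    rw [map_zero] at h1
    exact h1
  have hz : ∀ᶠ s in 𝓝 (0 : ℂ), h (q + θ' (0, s)) = 0 := by
    rcases hH.eventually_eq_zero_or_eventually_ne_zero with h1 | h1
    · exact h1
    · exfalso
      rw [eventually_nhdsWithin_iff] at h1
      refine hne ?_
      filter_upwards [hcq.eventually a2, hlc, hhc, hmt.eventually h1] with t t1 t2 t3 t4 t5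
      have e1 : θ (c t - q) = (0, m (c t - q)) := by
        rw [hθ]
        simp only [add_sub_cancel, t2]
      rw [e1] at t1
      have e2 : m (c t - q) ≠ 0 := by
        intro h2
        apply t5
        have e3 : ((0 : ℂ), m (c t - q)) = 0 := by
          rw [h2]
          rfl
        rw [e3, a1.zero] at t1
        exact (sub_eq_zero.1 t1.symm)
      refine t4 e2 ?_
      rw [t1, add_sub_cancel, t3]
  have hwt : Tendsto (fun w : ℂ × ℂ => w - q) (𝓝 q) (𝓝 0) := by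
    have : Continuous fun w : ℂ × ℂ => w - q := by fun_prop
    simpa using this.tendsto q
  have hmw : Tendsto (fun w : ℂ × ℂ => m (w - q)) (𝓝 q) (𝓝 0) := by
    have h1 := (m.continuous.tendsto 0).comp hwt
    rw [map_zero] at h1
    exact h1
  filter_upwards [hwt.eventually a2, hmw.eventually hz] with w w1 w2 w3
  have e1 : θ (w - q) = (0, m (w - q)) := by
    rw [hθ]
    simp only [add_sub_cancel, w3]
  rw [e1] at w1
  rwa [w1, add_sub_cancel] at w2

/-- **The points which are not regular are isolated.** -/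
theorem regPt_off {v : ℂ × ℂ → ℂ × ℂ} {f : ℂ × ℂ → ℂ} (hv : AnalyticAt ℂ v 0) (hv0 : ∀ᶠ p in 𝓝 (0 : ℂ × ℂ), p ≠ 0 → v p ≠ 0) (hf : AnalyticAt ℂ f 0)
    (hf0 : ∃ᶠ p in 𝓝 (0 : ℂ × ℂ), f p ≠ 0) : ∀ᶠ q in 𝓝 (0 : ℂ × ℂ), q ≠ 0 → RegPt v f q := by
  by_contra hcon
  have hbad : ∃ᶠ q in 𝓝 (0 : ℂ × ℂ), q ≠ 0 ∧ f q = 0 ∧ (Sm f q ∧ ¬ RegPt v f q) := by
    have h1 : ∃ᶠ q in 𝓝 (0 : ℂ × ℂ), ¬ (q ≠ 0 → RegPt v f q) := not_eventually.1 hcon
    refine (h1.and_eventually ((sm_off hf hf0).and hv0)).mono ?_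
    rintro q ⟨h2, h3, h4⟩
    push Not at h2
    refine ⟨h2.1, ?_, h3 h2.1, h2.2⟩
    by_contra h5
    exact h2.2 ⟨h4 h2.1, Or.inl h5⟩
  obtain ⟨c, hc, hc0, hfc, hbc⟩ := curve_sel hf hf0 hbad
  have hct : Tendsto c (𝓝 0) (𝓝 0) := by
    have := hc.continuousAt.tendsto
    rwa [hc0] at this
  -- the determinant
  have hvc : AnalyticAt ℂ (fun t => v (c t)) 0 := AnalyticAt.fun_comp (by rw [hc0]; exact hv) hc
  have hJa : AnalyticAt ℂ (fun t => (v (c t)).1 * (deriv c t).2 - (v (c t)).2 * (deriv c t).1) 0 := by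
    have a1 := AnalyticAt.fun_comp (g := fun x : ℂ × ℂ => x.1) (f := fun t => v (c t)) analyticAt_fst hvc
    have a2 := AnalyticAt.fun_comp (g := fun x : ℂ × ℂ => x.2) (f := fun t => v (c t)) analyticAt_snd hvc
    have b1 := AnalyticAt.fun_comp (g := fun x : ℂ × ℂ => x.1) (f := fun t => deriv c t) analyticAt_fst hc.deriv
    have b2 := AnalyticAt.fun_comp (g := fun x : ℂ × ℂ => x.2) (f := fun t => deriv c t) analyticAt_snd hc.deriv
    exact (a1.mul b2).sub (a2.mul b1)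
  have hfc2 : ∀ᶠ t in 𝓝 (0 : ℂ), ∀ᶠ s in 𝓝 t, f (c s) = 0 := eventually_eventually_nhds.2 hfc
  have hca : ∀ᶠ t in 𝓝 (0 : ℂ), AnalyticAt ℂ c t := hc.eventually_analyticAt
  have hva : ∀ᶠ t in 𝓝 (0 : ℂ), AnalyticAt ℂ v (c t) := hct.eventually hv.eventually_analyticAt
  have hne' : ∃ᶠ t in 𝓝[≠] (0 : ℂ), c t ≠ 0 ∧ (Sm f (c t) ∧ ¬ RegPt v f (c t)) := by
    rw [frequently_nhdsWithin_iff]
    refine hbc.mono fun t ht => ⟨ht, ?_⟩
    rintro rfl
    exact ht.1 hc0
  -- at the points which are not regular the determinant vanishes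
  have hJ0 : ∀ᶠ t in 𝓝 (0 : ℂ), (v (c t)).1 * (deriv c t).2 - (v (c t)).2 * (deriv c t).1 = 0 := by
    rcases hJa.eventually_eq_zero_or_eventually_ne_zero with h1 | h1
    · exact h1
    · exfalso
      have h2 : ∀ᶠ t in 𝓝[≠] (0 : ℂ), (∀ᶠ s in 𝓝 t, f (c s) = 0) ∧ AnalyticAt ℂ c t ∧ (c t ≠ 0 → v (c t) ≠ 0) :=
        (hfc2.and (hca.and (hct.eventually hv0))).filter_mono nhdsWithin_le_nhds
      obtain ⟨t, ⟨b0, b1, b2⟩, h3, h4, h5, h6⟩ := (hne'.and_eventually (h1.and h2)).exists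
      have hv1 := h6 b0
      rcases b1 with b1 | ⟨l, l1, l2, l3, l4⟩
      · exact b1 h4.self_of_nhds
      · have e1 : fderiv ℂ l (c t) (v (c t)) = 0 := by
          by_contra h7
          exact b2 ⟨hv1, Or.inr ⟨l, l1, l2, l3, l4, Or.inl h7⟩⟩
        have e2 : fderiv ℂ l (c t) (deriv c t) = 0 := by
          refine ld_chain l1 h5 ?_
          filter_upwards [h4, h5.continuousAt.eventually l4] with s s1 s2
          exact s2.1 s1
        exact l3 (ld_lin e1 e2 h3)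
  have hder : ∀ᶠ t in 𝓝[≠] (0 : ℂ), deriv c t ≠ 0 := ld_deriv_ne hc (by
    refine hbc.mono fun t ht => ?_
    rw [hc0]
    exact ht.1)
  have hder2 : ∀ᶠ t in 𝓝[≠] (0 : ℂ), ∀ᶠ s in 𝓝 t, deriv c s ≠ 0 := by
    have h1 := eventually_eventually_nhdsWithin.2 hder
    have h2 : ∀ᶠ t in 𝓝[≠] (0 : ℂ), t ≠ 0 := self_mem_nhdsWithin
    filter_upwards [h1, h2] with t ht ht0
    have h4 : 𝓝[({0}ᶜ : Set ℂ)] t = 𝓝 t := IsOpen.nhdsWithin_eq isOpen_compl_singleton (by simpa using ht0)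
    rwa [h4] at ht
  have h2 : ∀ᶠ t in 𝓝[≠] (0 : ℂ), (∀ᶠ s in 𝓝 t, f (c s) = 0) ∧ AnalyticAt ℂ c t ∧ (c t ≠ 0 → v (c t) ≠ 0) ∧
      (∀ᶠ s in 𝓝 t, (v (c s)).1 * (deriv c s).2 - (v (c s)).2 * (deriv c s).1 = 0) ∧ AnalyticAt ℂ v (c t) :=
    (hfc2.and (hca.and ((hct.eventually hv0).and ((eventually_eventually_nhds.2 hJ0).and hva)))).filter_mono nhdsWithin_le_nhds
  obtain ⟨t, ⟨b0, b1, b2⟩, h3, h4, h5, h6, h7, h8⟩ := (hne'.and_eventually (hder2.and h2)).exists
  have hv1 := h6 b0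
  rcases b1 with b1 | ⟨l, l1, l2, l3, l4⟩
  · exact b1 h4.self_of_nhds
  · refine b2 ⟨hv1, Or.inr ⟨l, l1, l2, l3, l4, Or.inr ?_⟩⟩
    have hh : AnalyticAt ℂ (fun w => fderiv ℂ l w (v w)) (c t) := by
      exact AnalyticAt.comp (g := fun z : (ℂ × ℂ →L[ℂ] ℂ) × (ℂ × ℂ) => z.1 z.2) (f := fun w => (fderiv ℂ l w, v w))
        (ContinuousLinearMap.analyticAt_bilinear (ContinuousLinearMap.id ℂ (ℂ × ℂ →L[ℂ] ℂ)) _) (l1.fderiv.prod h8)
    have hlc : ∀ᶠ s in 𝓝 t, l (c s) = 0 := by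
      filter_upwards [h4, h5.continuousAt.eventually l4] with s s1 s2
      exact s2.1 s1
    refine smooth_ident l1 l2 l3 hh h5.continuousAt rfl ?_ hlc ?_
    · -- `c` is not constant near `t`
      intro h9
      have h10 : ∀ᶠ s in 𝓝 t, c s = c t := by
        filter_upwards [h9] with s hs using not_not.1 hs
      have h11 : deriv c t = 0 := by
        have e1 : c =ᶠ[𝓝 t] fun _ => c t := h10
        rw [e1.deriv_eq, deriv_const]
      exact h3.self_of_nhds h11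
    · filter_upwards [eventually_eventually_nhds.2 hlc, h3, h7, h5.eventually_analyticAt, h5.continuousAt.eventually l1.eventually_analyticAt] with s s1 s2 s3 s4 s5
      have e2 : fderiv ℂ l (c s) (deriv c s) = 0 := ld_chain s5 s4 s1
      -- `v` is a multiple of the derivative
      obtain ⟨a, ha⟩ : ∃ a : ℂ, v (c s) = a • deriv c s := by
        by_cases h9 : (deriv c s).1 = 0
        · have h10 : (deriv c s).2 ≠ 0 := fun h10 => s2 (Prod.ext h9 h10)
          refine ⟨(v (c s)).2 / (deriv c s).2, ?_⟩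
          ext
          · simp only [Prod.smul_fst, smul_eq_mul, h9, mul_zero]
            rw [h9, mul_zero, sub_zero] at s3
            exact (mul_eq_zero.1 s3).resolve_right h10
          · simp only [Prod.smul_snd, smul_eq_mul]
            field_simp
        · refine ⟨(v (c s)).1 / (deriv c s).1, ?_⟩
          ext
          · simp only [Prod.smul_fst, smul_eq_mul]
            field_simp
          · simp only [Prod.smul_snd, smul_eq_mul]
            field_simp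
            linear_combination -s3
      rw [ha, map_smul, e2, smul_zero]

end Pool.Agent.MQ3

end
end

section

/-!
# MQ3 RegL: the local form of the regular chart points

`q` is a point of the plane, `v` a vector field with at most an isolated zero at `q`, `f` a function, not identically zero near `q`.  The points `x ≠ q` near `q`
are regular: off the axes for `v` and `{f = 0}` (`RegPt`), on the axes: transversal to the axis or the axis is invariant, and the zeros of `f` near `x` are in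
the axes.
-/

set_option autoImplicit false

open Topology Filter

noncomputable section

namespace Pool.Agent.MQ3

/-- the local form of `RegA` -/
def LA (v : ℂ × ℂ → ℂ × ℂ) (f : ℂ × ℂ → ℂ) (x : ℂ × ℂ) : Prop :=
  v x ≠ 0 ∧ x ≠ 0 ∧ (x.1 = 0 → (v x).1 ≠ 0 ∨ ∀ᶠ y in 𝓝 x, y.1 = 0 → (v y).1 = 0) ∧ (x.2 = 0 → (v x).2 ≠ 0 ∨ ∀ᶠ y in 𝓝 x, y.2 = 0 → (v y).2 = 0) ∧
    ∀ᶠ y in 𝓝 x, y.1 * y.2 ≠ 0 → f y ≠ 0

/-- the local form of `RegB` -/
def LB (v : ℂ × ℂ → ℂ × ℂ) (f : ℂ × ℂ → ℂ) (x : ℂ × ℂ) : Prop :=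
  v x ≠ 0 ∧ x.1 * x.2 ≠ 0 ∧ ∃ G : ℂ × ℂ → ℂ, AnalyticAt ℂ G x ∧ G x = 0 ∧ fderiv ℂ G x ≠ 0 ∧ (∀ᶠ w in 𝓝 x, (f w = 0 ↔ G w = 0)) ∧
    (fderiv ℂ G x (v x) ≠ 0 ∨ ∀ᶠ w in 𝓝 x, G w = 0 → fderiv ℂ G w (v w) = 0)

private theorem RegL_shift (q : ℂ × ℂ) : Tendsto (fun x : ℂ × ℂ => x - q) (𝓝 q) (𝓝 0) := by
  have : Continuous fun w : ℂ × ℂ => w - q := by fun_prop
  simpa using this.tendsto q

private theorem RegL_shift' (q x : ℂ × ℂ) : Tendsto (fun y : ℂ × ℂ => y - q) (𝓝 x) (𝓝 (x - q)) := by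
  have : Continuous fun w : ℂ × ℂ => w - q := by fun_prop
  exact this.tendsto x

private theorem RegL_an {E : Type*} [NormedAddCommGroup E] [NormedSpace ℂ E] {f : ℂ × ℂ → E} {q : ℂ × ℂ} (hf : AnalyticAt ℂ f q) :
    AnalyticAt ℂ (fun x => f (q + x)) 0 :=
  AnalyticAt.fun_comp (g := f) (f := fun x : ℂ × ℂ => q + x) (by rwa [add_zero]) (analyticAt_const.add analyticAt_id)

/-- `regPt_off` at any point -/
theorem regPt_off' {v : ℂ × ℂ → ℂ × ℂ} {f : ℂ × ℂ → ℂ} {q : ℂ × ℂ} (hv : AnalyticAt ℂ v q) (hv0 : ∀ᶠ x in 𝓝 q, x ≠ q → v x ≠ 0) (hf : AnalyticAt ℂ f q)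
    (hf0 : ∃ᶠ x in 𝓝 q, f x ≠ 0) : ∀ᶠ x in 𝓝 q, x ≠ q → RegPt v f x := by
  have hq : Tendsto (fun x : ℂ × ℂ => q + x) (𝓝 0) (𝓝 q) := by
    have : Continuous fun x : ℂ × ℂ => q + x := by fun_prop
    simpa using this.tendsto 0
  have h1 := regPt_off (v := fun x => v (q + x)) (f := fun x => f (q + x)) (RegL_an hv) (by
    filter_upwards [hq.eventually hv0] with x hx hx0
    exact hx (by simpa using hx0)) (RegL_an hf) (by
    intro hcon
    apply hf0
    filter_upwards [(RegL_shift q).eventually hcon] with x hx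
    simpa using hx)
  filter_upwards [(RegL_shift q).eventually h1] with x hx hxq
  obtain ⟨r1, r2⟩ := hx (sub_ne_zero.2 hxq)
  simp only [add_sub_cancel] at r1 r2
  refine ⟨r1, r2.imp_right ?_⟩
  rintro ⟨G, g1, g2, g3, g4, g5⟩
  have hsa : AnalyticAt ℂ (fun y : ℂ × ℂ => y - q) x := analyticAt_id.sub analyticAt_const
  have hfd : ∀ y : ℂ × ℂ, fderiv ℂ (fun y : ℂ × ℂ => G (y - q)) y = fderiv ℂ G (y - q) := fun y => by
    have := fderiv_comp_add_right (𝕜 := ℂ) (f := G) (x := y) (-q)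
    simpa [sub_eq_add_neg] using this
  have hqx : Tendsto (fun w : ℂ × ℂ => q + w) (𝓝 (x - q)) (𝓝 x) := by
    have h : Continuous fun w : ℂ × ℂ => q + w := by fun_prop
    have h2 := h.tendsto (x - q)
    simpa using h2
  refine ⟨fun y => G (y - q), AnalyticAt.fun_comp (g := G) g1 hsa, g2, by rwa [hfd], ?_, ?_⟩
  · filter_upwards [(RegL_shift' q x).eventually g4] with y hy
    simpa using hy
  · rcases g5 with g5 | g5
    · left
      rwa [hfd]
    · right
      filter_upwards [(RegL_shift' q x).eventually g5] with y hy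
      simpa [hfd] using hy

/-- on the first axis -/
private theorem RegL_ax {v : ℂ × ℂ → ℂ × ℂ} {f : ℂ × ℂ → ℂ} {q : ℂ × ℂ} (hv : AnalyticAt ℂ v q) (hf : AnalyticAt ℂ f q)
    (hf0 : ∃ᶠ x in 𝓝 q, f x ≠ 0) (hq : q.1 = 0) : ∀ᶠ x in 𝓝 q, x ≠ q → x.1 = 0 →
      ((v x).1 ≠ 0 ∨ ∀ᶠ y in 𝓝 x, y.1 = 0 → (v y).1 = 0) ∧ ∀ᶠ y in 𝓝 x, y.1 ≠ 0 → f y ≠ 0 := by
  have hqe : q = (0, q.2) := Prod.ext hq rfl
  -- the restriction of a function to the axis
  have hres : ∀ {g : ℂ × ℂ → ℂ}, AnalyticAt ℂ g q → AnalyticAt ℂ (fun y : ℂ => g (0, y)) q.2 := by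
    intro g hg
    exact AnalyticAt.fun_comp (g := g) (f := fun y : ℂ => ((0, y) : ℂ × ℂ)) (by rwa [← hqe]) (analyticAt_const.prod analyticAt_id)
  have ht2 : Tendsto (fun x : ℂ × ℂ => x.2) (𝓝 q) (𝓝 q.2) := continuous_snd.tendsto q
  have hne2 : ∀ {x : ℂ × ℂ}, x ≠ q → x.1 = 0 → x.2 ≠ q.2 := fun h1 h2 h3 => h1 (Prod.ext (h2.trans hq.symm) h3)
  have hx : ∀ {x : ℂ × ℂ}, x.1 = 0 → x = (0, x.2) := fun h => Prod.ext h rfl
  -- the vector field
  have hA : ∀ᶠ x in 𝓝 q, x ≠ q → x.1 = 0 → ((v x).1 ≠ 0 ∨ ∀ᶠ y in 𝓝 x, y.1 = 0 → (v y).1 = 0) := by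
    have h1 := hres (g := fun x => (v x).1) (analyticAt_fst.comp hv)
    rcases h1.eventually_eq_zero_or_eventually_ne_zero with h2 | h2
    · have h3 : ∀ᶠ x in 𝓝 q, ∀ᶠ y in 𝓝 x, (v (0, y.2)).1 = 0 := eventually_eventually_nhds.2 (ht2.eventually h2)
      filter_upwards [h3] with x hx1 _ _
      right
      filter_upwards [hx1] with y hy hy0
      rwa [← hx hy0] at hy
    · rw [eventually_nhdsWithin_iff] at h2
      filter_upwards [ht2.eventually h2] with x hx1 hx2 hx3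
      left
      have := hx1 (hne2 hx2 hx3)
      rwa [← hx hx3] at this
  -- the function
  have hB : ∀ᶠ x in 𝓝 q, x ≠ q → x.1 = 0 → ∀ᶠ y in 𝓝 x, y.1 ≠ 0 → f y ≠ 0 := by
    obtain ⟨a, g, hg, hfg, hg0⟩ := Pool.Agent.H22.HF.exists_div (g := fun x : ℂ × ℂ => f (q + x)) (RegL_an hf) (by
      intro hcon
      apply hf0
      filter_upwards [(RegL_shift q).eventually hcon] with x hx
      simpa using hx)
    have hg1 : AnalyticAt ℂ (fun y : ℂ => g (0, y)) 0 :=
      AnalyticAt.fun_comp (g := g) (f := fun y : ℂ => ((0, y) : ℂ × ℂ)) hg (analyticAt_const.prod analyticAt_id)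
    have h2 := hg1.eventually_eq_zero_or_eventually_ne_zero.resolve_left hg0
    rw [eventually_nhdsWithin_iff] at h2
    have ht3 : Tendsto (fun x : ℂ × ℂ => x.2 - q.2) (𝓝 q) (𝓝 0) := by
      have := ht2.sub_const q.2
      rwa [sub_self] at this
    have hfg' := (RegL_shift q).eventually hfg
    filter_upwards [ht3.eventually h2, eventually_eventually_nhds.2 hfg', (RegL_shift q).eventually hg.eventually_analyticAt] with x x1 x2 x3 x4 x5
    have h6 : g (x - q) ≠ 0 := by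
      have h7 := x1 (sub_ne_zero.2 (hne2 x4 x5))
      have h8 : x - q = (0, x.2 - q.2) := by
        ext
        · show x.1 - q.1 = 0
          rw [x5, hq, sub_zero]
        · rfl
      rwa [h8]
    have h7 : ∀ᶠ y in 𝓝 x, g (y - q) ≠ 0 := (RegL_shift' q x).eventually (x3.continuousAt.eventually_ne h6)
    filter_upwards [x2, h7] with y y1 y2 y3
    simp only [add_sub_cancel] at y1
    rw [y1]
    refine mul_ne_zero (pow_ne_zero _ ?_) y2
    show y.1 - q.1 ≠ 0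
    rwa [hq, sub_zero]
  filter_upwards [hA, hB] with x x1 x2 x3 x4
  exact ⟨x1 x3 x4, x2 x3 x4⟩

private theorem RegL_swap_tendsto (x : ℂ × ℂ) : Tendsto (fun y : ℂ × ℂ => y.swap) (𝓝 x) (𝓝 x.swap) := continuous_swap.tendsto x

private theorem RegL_swap_an (x : ℂ × ℂ) : AnalyticAt ℂ (fun y : ℂ × ℂ => y.swap) x :=
  analyticAt_snd.prod analyticAt_fst

/-- **The regular points.** -/
theorem lreg_off {v : ℂ × ℂ → ℂ × ℂ} {f : ℂ × ℂ → ℂ} {q : ℂ × ℂ} (hv : AnalyticAt ℂ v q) (hv0 : ∀ᶠ x in 𝓝 q, x ≠ q → v x ≠ 0) (hf : AnalyticAt ℂ f q)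
    (hf0 : ∃ᶠ x in 𝓝 q, f x ≠ 0) : ∀ᶠ x in 𝓝[≠] q, LA v f x ∨ LB v f x := by
  have h1 : ∀ᶠ x in 𝓝 q, x ≠ q → x.1 = 0 → ((v x).1 ≠ 0 ∨ ∀ᶠ y in 𝓝 x, y.1 = 0 → (v y).1 = 0) ∧ ∀ᶠ y in 𝓝 x, y.1 ≠ 0 → f y ≠ 0 := by
    by_cases hq : q.1 = 0
    · exact RegL_ax hv hf hf0 hq
    · filter_upwards [continuous_fst.continuousAt.eventually_ne hq] with x hx _ hx0
      exact absurd hx0 hx
  have h2 : ∀ᶠ x in 𝓝 q, x ≠ q → x.2 = 0 → ((v x).2 ≠ 0 ∨ ∀ᶠ y in 𝓝 x, y.2 = 0 → (v y).2 = 0) ∧ ∀ᶠ y in 𝓝 x, y.2 ≠ 0 → f y ≠ 0 := by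
    by_cases hq : q.2 = 0
    · have h3 := RegL_ax (v := fun x => (v x.swap).swap) (f := fun x => f x.swap) (q := q.swap)
        (AnalyticAt.fun_comp (g := fun y : ℂ × ℂ => y.swap) (f := fun x : ℂ × ℂ => v x.swap) (RegL_swap_an _)
          (AnalyticAt.fun_comp (g := v) (f := fun x : ℂ × ℂ => x.swap) (by simpa using hv) (RegL_swap_an _)))
        (AnalyticAt.fun_comp (g := f) (f := fun x : ℂ × ℂ => x.swap) (by simpa using hf) (RegL_swap_an _)) (by
          intro hcon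
          apply hf0
          filter_upwards [(RegL_swap_tendsto q).eventually hcon] with x hx
          simpa using hx) hq
      filter_upwards [(RegL_swap_tendsto q).eventually h3] with x hx hx1 hx2
      obtain ⟨a1, a2⟩ := hx (fun h => hx1 (Prod.swap_injective h)) hx2
      refine ⟨a1.imp (fun h => by simpa using h) fun h => ?_, ?_⟩
      · filter_upwards [(RegL_swap_tendsto x).eventually h] with y hy hy0
        simpa using hy hy0
      · filter_upwards [(RegL_swap_tendsto x).eventually a2] with y hy hy0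
        simpa using hy hy0
    · filter_upwards [continuous_snd.continuousAt.eventually_ne hq] with x hx _ hx0
      exact absurd hx0 hx
  have h3 : ∀ᶠ x in 𝓝 q, x ≠ q → x ≠ 0 := by
    by_cases hq : q = 0
    · exact Eventually.of_forall fun x hx => by rwa [hq] at hx
    · filter_upwards [continuous_id.continuousAt.eventually_ne hq] with x hx _
      exact hx
  rw [eventually_nhdsWithin_iff]
  filter_upwards [h1, h2, h3, regPt_off' hv hv0 hf hf0, hf.eventually_analyticAt] with x x1 x2 x3 x4 x5 hxq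
  have hxq' : x ≠ q := hxq
  obtain ⟨r1, r2⟩ := x4 hxq'
  by_cases hax : x.1 * x.2 = 0
  · left
    refine ⟨r1, x3 hxq', fun h => (x1 hxq' h).1, fun h => (x2 hxq' h).1, ?_⟩
    rcases mul_eq_zero.1 hax with h | h
    · filter_upwards [(x1 hxq' h).2] with y hy hy0
      exact hy (left_ne_zero_of_mul hy0)
    · filter_upwards [(x2 hxq' h).2] with y hy hy0
      exact hy (right_ne_zero_of_mul hy0)
  · rcases r2 with r2 | r2
    · left
      refine ⟨r1, x3 hxq', fun h => absurd (by rw [h, zero_mul]) hax, fun h => absurd (by rw [h, mul_zero]) hax, ?_⟩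
      filter_upwards [x5.continuousAt.eventually_ne r2] with y hy _
      exact hy
    · exact Or.inr ⟨r1, hax, r2⟩

end Pool.Agent.MQ3

end
end

section

/-!
# SG NChart: a chart with values in the hyperplane `L = 1` and with the first coordinate `Q / L ^ e`
-/

set_option autoImplicit false
set_option linter.unusedSectionVars false

open Topology Filter Metric

noncomputable section

namespace Pool.Agent.SG

open Pool.Agent.H17BP (IsForm IsChart Bihol bihol_iff Coord coord_iff dx dy)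
open Pool.Agent.H82.XB (chart_of_coord)

variable {V : Type} [NormedAddCommGroup V] [NormedSpace ℂ V] {X : Set V}

/-- a chart multiplied by a function without zeros so that a linear form is `1` -/
theorem chart_unit {σ : ℂ × ℂ → V} {τ : V → ℂ × ℂ} (h : IsChart X σ τ) (hXs : ∀ x ∈ X, ∀ c : ℂ, c ≠ 0 → c • x ∈ X) {L : V →L[ℂ] ℂ}
    (hL : L (σ 0) = 1) : IsChart X (fun p => (L (σ p))⁻¹ • σ p) τ ∧ (∀ᶠ p in 𝓝 (0 : ℂ × ℂ), L ((L (σ p))⁻¹ • σ p) = 1) := by
  have h1 : AnalyticAt ℂ (fun p => L (σ p)) 0 := (L.analyticAt _).comp h.σ_an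
  have h2 : ∀ᶠ p in 𝓝 (0 : ℂ × ℂ), L (σ p) ≠ 0 := h1.continuousAt.eventually_ne (by rw [hL]; exact one_ne_zero)
  have h3 : AnalyticAt ℂ (fun p => (L (σ p))⁻¹) 0 := h1.inv (by rw [hL]; exact one_ne_zero)
  have e0 : (L (σ 0))⁻¹ • σ 0 = σ 0 := by rw [hL, inv_one, one_smul]
  have h4 : Tendsto (fun p => (σ p, (L (σ p))⁻¹)) (𝓝 0) (𝓝 (σ 0, (1 : ℂ))) := by
    refine h.σ_an.continuousAt.tendsto.prodMk_nhds ?_
    have := h3.continuousAt.tendsto
    rwa [hL, inv_one] at this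
  refine ⟨⟨h3.smul h.σ_an, ?_, ?_, ?_, ?_, ?_, ?_⟩, ?_⟩
  · filter_upwards [h.σ_mem, h2] with p hp hp2
    exact hXs _ hp _ (inv_ne_zero hp2)
  · simp only [e0]
    exact h.ne
  · simp only [e0]
    exact h.τ_an
  · filter_upwards [h4.eventually h.inv, h.left] with p hp hp2
    rw [hp, hp2]
  · simp only [e0]
    have hτ : Tendsto τ (𝓝 (σ 0)) (𝓝 0) := by
      have := h.τ_an.continuousAt.tendsto
      rwa [h.left.self_of_nhds] at this
    filter_upwards [h.right, hτ.eventually h2] with y hy hy2 hyX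
    obtain ⟨c, hc, hy3⟩ := hy hyX
    refine ⟨c * L (σ (τ y)), mul_ne_zero hc hy2, ?_⟩
    rw [smul_smul, mul_assoc, mul_inv_cancel₀ hy2, mul_one]
    exact hy3
  · simp only [e0]
    exact h.inv
  · filter_upwards [h2] with p hp
    rw [map_smul, smul_eq_mul, inv_mul_cancel₀ hp]

/-- **A chart with values in the hyperplane `L = 1` and with the first coordinate `Q / L ^ e`.** -/
theorem exists_chart_norm (hXs : ∀ x ∈ X, ∀ c : ℂ, c ≠ 0 → c • x ∈ X) {σ₀ : ℂ × ℂ → V} {τ₀ : V → ℂ × ℂ} (h : IsChart X σ₀ τ₀) {L : V →L[ℂ] ℂ}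
    (hL : L (σ₀ 0) = 1) {Q : V → ℂ} {e : ℕ} (hQ : AnalyticAt ℂ Q (σ₀ 0)) (hQh : ∀ (c : ℂ) y, Q (c • y) = c ^ e * Q y)
    (hQ0 : Q (σ₀ 0) = 0) (hd : fderiv ℂ (fun p => Q (σ₀ p)) 0 ≠ 0) :
    ∃ (σ : ℂ × ℂ → V) (τ : V → ℂ × ℂ), IsChart X σ τ ∧ σ 0 = σ₀ 0 ∧ (∀ᶠ p in 𝓝 (0 : ℂ × ℂ), L (σ p) = 1) ∧
      (∀ y, (τ y).1 = Q y / L y ^ e) ∧ ∀ (c : ℂ) y, c ≠ 0 → τ (c • y) = τ y := by
  have hLan : AnalyticAt ℂ (fun p => L (σ₀ p)) 0 := (L.analyticAt _).comp h.σ_an
  have hQan : AnalyticAt ℂ (fun p => Q (σ₀ p)) 0 := AnalyticAt.comp (g := Q) (f := σ₀) hQ h.σ_an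
  have hLinv : AnalyticAt ℂ (fun p => (L (σ₀ p))⁻¹) 0 := hLan.inv (by rw [hL]; exact one_ne_zero)
  -- the second coordinate, homogeneous of degree `0`
  obtain ⟨t, ht⟩ : ∃ t : V → ℂ × ℂ, t = fun y => τ₀ ((L y)⁻¹ • y) := ⟨_, rfl⟩
  have ht0 : ∀ c : ℂ, c ≠ 0 → ∀ y, t (c • y) = t y := fun c hc y => by
    rw [ht]
    simp only
    congr 1
    rw [map_smul, smul_smul, smul_eq_mul, mul_inv, mul_comm c⁻¹, mul_assoc, inv_mul_cancel₀ hc, mul_one]
  have ht1 : ∀ᶠ p in 𝓝 (0 : ℂ × ℂ), t (σ₀ p) = p := by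
    have h4 : Tendsto (fun p => (σ₀ p, (L (σ₀ p))⁻¹)) (𝓝 0) (𝓝 (σ₀ 0, (1 : ℂ))) := by
      refine h.σ_an.continuousAt.tendsto.prodMk_nhds ?_
      have := hLinv.continuousAt.tendsto
      rwa [hL, inv_one] at this
    filter_upwards [h4.eventually h.inv, h.left] with p hp hp2
    rw [ht]
    simp only
    rw [hp, hp2]
  have htan : AnalyticAt ℂ t (σ₀ 0) := by
    have g1 : AnalyticAt ℂ (fun y => (L y)⁻¹ • y) (σ₀ 0) := ((L.analyticAt _).inv (by rw [hL]; exact one_ne_zero)).smul analyticAt_id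
    have g2 : AnalyticAt ℂ τ₀ ((L (σ₀ 0))⁻¹ • σ₀ 0) := by
      rw [hL, inv_one, one_smul]
      exact h.τ_an
    rw [ht]
    exact AnalyticAt.comp (g := τ₀) (f := fun y => (L y)⁻¹ • y) g2 g1
  -- the first coordinate
  have hs0 : ∀ c : ℂ, c ≠ 0 → ∀ y, Q (c • y) / L (c • y) ^ e = Q y / L y ^ e := fun c hc y => by
    rw [hQh, map_smul, smul_eq_mul, mul_pow, mul_div_mul_left _ _ (pow_ne_zero e hc)]
  have hsan : AnalyticAt ℂ (fun y => Q y / L y ^ e) (σ₀ 0) :=
    hQ.div ((L.analyticAt _).pow e) (by simp only [hL, one_pow]; exact one_ne_zero)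
  obtain ⟨S, hS⟩ : ∃ S : ℂ × ℂ → ℂ, S = fun p => Q (σ₀ p) / L (σ₀ p) ^ e := ⟨_, rfl⟩
  have hSan : AnalyticAt ℂ S 0 := by
    rw [hS]
    exact hQan.div (hLan.pow e) (by simp only [hL, one_pow]; exact one_ne_zero)
  have hS0 : S 0 = 0 := by rw [hS]; simp only [hQ0, zero_div]
  have hSd : fderiv ℂ S 0 = fderiv ℂ (fun p => Q (σ₀ p)) 0 := by
    have g1 : HasFDerivAt (fun p => Q (σ₀ p)) (fderiv ℂ (fun p => Q (σ₀ p)) 0) 0 := hQan.differentiableAt.hasFDerivAt
    have g2 : DifferentiableAt ℂ (fun p => (L (σ₀ p) ^ e)⁻¹) 0 :=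
      ((hLan.pow e).inv (by simp [hL])).differentiableAt
    have g3 := g1.mul g2.hasFDerivAt
    rw [hS]
    have g4 : (fun p => Q (σ₀ p) / L (σ₀ p) ^ e) = (fun p => Q (σ₀ p)) * fun p => (L (σ₀ p) ^ e)⁻¹ := by
      funext p
      simp only [Pi.mul_apply, div_eq_mul_inv]
    rw [g4, g3.fderiv]
    simp only [hQ0, hL, one_pow, inv_one, one_smul]
    refine (congrArg (fun x => x + fderiv ℂ (fun p => Q (σ₀ p)) 0) (zero_smul ℂ (fderiv ℂ (fun p => (L (σ₀ p) ^ e)⁻¹) 0))).trans ?_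
    exact zero_add _
  have key : ∀ (i : ℂ × ℂ →L[ℂ] ℂ), Coord S (fun p => i p) →
      ∃ (σ : ℂ × ℂ → V) (τ : V → ℂ × ℂ), IsChart X σ τ ∧ σ 0 = σ₀ 0 ∧ (∀ᶠ p in 𝓝 (0 : ℂ × ℂ), L (σ p) = 1) ∧
      (∀ y, (τ y).1 = Q y / L y ^ e) ∧ ∀ (c : ℂ) y, c ≠ 0 → τ (c • y) = τ y := by
    intro i hi
    have g0 : AnalyticAt ℂ (fun y => (Q y / L y ^ e, i (t y))) (σ₀ 0) := by
      refine hsan.prod ?_
      exact AnalyticAt.comp (g := fun p => i p) (f := t) (i.analyticAt _) htan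
    have g1 : Bihol fun p => (fun y => (Q y / L y ^ e, i (t y))) (σ₀ p) := by
      refine Bihol.congr hi ?_
      filter_upwards [ht1] with p hp
      simp only [hp, hS]
    have g2 : ∀ c : ℂ, c ≠ 0 → ∀ y, (fun y => (Q y / L y ^ e, i (t y))) (c • y) = (fun y => (Q y / L y ^ e, i (t y))) y := fun c hc y => by
      simp only [hs0 c hc y, ht0 c hc y]
    obtain ⟨θ, hθ, hc, -⟩ := chart_of_coord h g0 g2 g1
    have hσ0 : σ₀ (θ 0) = σ₀ 0 := by rw [hθ.zero]
    have hL' : L ((fun p => σ₀ (θ p)) 0) = 1 := by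
      simp only [hσ0]
      exact hL
    obtain ⟨h5, h6⟩ := chart_unit hc hXs hL'
    refine ⟨_, _, h5, ?_, h6, fun y => rfl, fun c y hc' => g2 c hc' y⟩
    simp only [hσ0, hL, inv_one, one_smul]
  have hdd : fderiv ℂ S 0 (1, 0) ≠ 0 ∨ fderiv ℂ S 0 (0, 1) ≠ 0 := by
    by_contra hcon
    obtain ⟨h1, h2⟩ := not_or.1 hcon
    rw [not_not] at h1 h2
    apply hd
    rw [← hSd]
    ext
    · simpa using h1
    · simpa using h2
  rcases hdd with hdd | hdd
  · refine key (ContinuousLinearMap.snd ℂ ℂ ℂ) ?_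
    refine (bihol_iff (hSan.prod ((ContinuousLinearMap.snd ℂ ℂ ℂ).analyticAt _)) (by simp [hS0])).2 ?_
    have h1 : fderiv ℂ (fun x => (S x, (ContinuousLinearMap.snd ℂ ℂ ℂ) x)) 0 = (fderiv ℂ S 0).prod (ContinuousLinearMap.snd ℂ ℂ ℂ) :=
      (hSan.differentiableAt.hasFDerivAt.prodMk (ContinuousLinearMap.snd ℂ ℂ ℂ).hasFDerivAt).fderiv
    rw [h1]
    simpa using hdd
  · refine key (ContinuousLinearMap.fst ℂ ℂ ℂ) ?_
    refine (bihol_iff (hSan.prod ((ContinuousLinearMap.fst ℂ ℂ ℂ).analyticAt _)) (by simp [hS0])).2 ?_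
    have h1 : fderiv ℂ (fun x => (S x, (ContinuousLinearMap.fst ℂ ℂ ℂ) x)) 0 = (fderiv ℂ S 0).prod (ContinuousLinearMap.fst ℂ ℂ ℂ) :=
      (hSan.differentiableAt.hasFDerivAt.prodMk (ContinuousLinearMap.fst ℂ ℂ ℂ).hasFDerivAt).fderiv
    rw [h1]
    simpa using hdd

end Pool.Agent.SG

end
end

section

/-!
# SG RPrj: the choice of a projection to the plane

Finitely many proper subspaces of the space of the linear forms which vanish at `x` are avoided.
-/

set_option autoImplicit false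

open Topology Filter Metric

noncomputable section

namespace Pool.Agent.SG

open Pool.Agent.H36.BP (EN)
open Pool.Agent.H17BP (Surface IsChart Pr)
open Pool.Agent.UC (RatC)

variable {N : ℕ} {X : Set (EN N)}

/-- every linear form has coefficients -/
private theorem rprj_lf (φ : EN N →ₗ[ℂ] ℂ) : ∃ c : Fin (N + 1) → ℂ, ∀ x, lf c x = φ x := by
  refine ⟨fun i => φ (EuclideanSpace.single i 1), fun x => ?_⟩
  have h : x = ∑ i, x i • (EuclideanSpace.single i (1 : ℂ) : EN N) := by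
    ext j
    simp [Pi.single_apply]
  conv_rhs => rw [h]
  rw [map_sum]
  refine Finset.sum_congr rfl fun i _ => ?_
  rw [map_smul, smul_eq_mul, mul_comm]

/-- a linear form which vanishes at `x` and at none of finitely many vectors which are not multiples of `x` -/
private theorem rprj_avoid {V : Type} [AddCommGroup V] [Module ℂ V] (x : V) {ι : Type} [Finite ι] (v : ι → V)
    (hv : ∀ i, v i ∉ Submodule.span ℂ {x}) : ∃ φ : V →ₗ[ℂ] ℂ, φ x = 0 ∧ ∀ i, φ (v i) ≠ 0 := by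
  obtain ⟨f, hf⟩ := Module.exists_dual_forall_apply_ne_zero (K := ℂ) (fun i => (Submodule.span ℂ {x}).mkQ (v i)) fun i h => hv i (by
    simpa using h)
  refine ⟨f ∘ₗ (Submodule.span ℂ {x}).mkQ, ?_, fun i => hf i⟩
  have : (Submodule.span ℂ {x}).mkQ x = 0 := by simp
  rw [LinearMap.comp_apply, this, map_zero]

/-- the zeros of an entire function in the unit disc -/
private theorem rprj_zeros {f : ℂ → ℂ} (hf : Differentiable ℂ f) {u : ℂ} (hu : f u ≠ 0) : ({z | f z = 0} ∩ closedBall 0 1).Finite := by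
  by_contra hinf
  obtain ⟨x, -, hx⟩ := Set.Infinite.exists_accPt_of_subset_isCompact hinf (isCompact_closedBall (0 : ℂ) 1) Set.inter_subset_right
  have h1 : ∃ᶠ z in 𝓝[≠] x, f z = (fun _ => (0 : ℂ)) z := (accPt_iff_frequently_nhdsNE.1 hx).mono fun z hz => hz.1
  have h2 := AnalyticOnNhd.eq_of_frequently_eq (fun z _ => hf.analyticAt z) (fun z _ => analyticAt_const) h1
  exact hu (congrFun h2 u)

private theorem rprj_finite {f g : ℂ → ℂ} (hf : Differentiable ℂ f) (hg : Differentiable ℂ g) {d : ℕ}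
    (h : ∀ z : ℂ, z ≠ 0 → f z = z ^ d * g z⁻¹) {u : ℂ} (hu : f u ≠ 0) : {z | f z = 0}.Finite := by
  have hg0 : ∃ w, g w ≠ 0 := by
    by_contra! hg0
    have h1 : ∃ᶠ z in 𝓝[≠] (0 : ℂ), f z = (fun _ => (0 : ℂ)) z := by
      refine Eventually.frequently ?_
      filter_upwards [self_mem_nhdsWithin] with z hz
      rw [h z hz, hg0, mul_zero]
    exact hu (congrFun (AnalyticOnNhd.eq_of_frequently_eq (fun z _ => hf.analyticAt z) (fun z _ => analyticAt_const) h1) u)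
  obtain ⟨w, hw⟩ := hg0
  refine ((rprj_zeros hf hu).union ((rprj_zeros hg hw).image fun z => z⁻¹)).subset fun z hz => ?_
  have hz' : f z = 0 := hz
  by_cases h1 : ‖z‖ ≤ 1
  · exact Or.inl ⟨hz, by simpa using h1⟩
  · refine Or.inr ⟨z⁻¹, ⟨?_, ?_⟩, inv_inv z⟩
    · have h0 : z ≠ 0 := by
        rintro rfl
        simp at h1
      rw [h z h0] at hz'
      exact (mul_eq_zero.1 hz').resolve_left (pow_ne_zero _ h0)
    · rw [mem_closedBall_zero_iff, norm_inv]
      exact inv_le_one_of_one_le₀ (le_of_lt (not_le.1 h1))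

/-- the derivative of `τ` is a left inverse of the derivative of `σ` -/
private theorem rprj_left {σ : ℂ × ℂ → EN N} {τ : EN N → ℂ × ℂ} (hσ : IsChart X σ τ) (w : ℂ × ℂ) :
    fderiv ℂ τ (σ 0) (fderiv ℂ σ 0 w) = w := by
  have h1 : HasFDerivAt (fun p => τ (σ p)) ((fderiv ℂ τ (σ 0)).comp (fderiv ℂ σ 0)) 0 :=
    (hσ.τ_an.differentiableAt.hasFDerivAt).comp 0 hσ.σ_an.differentiableAt.hasFDerivAt
  have h2 : HasFDerivAt (fun p : ℂ × ℂ => p) ((fderiv ℂ τ (σ 0)).comp (fderiv ℂ σ 0)) 0 := h1.congr_of_eventuallyEq (hσ.left.mono fun p hp => hp.symm)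
  have h3 := h2.unique (hasFDerivAt_id (𝕜 := ℂ) (0 : ℂ × ℂ))
  exact congrArg (fun L : (ℂ × ℂ) →L[ℂ] ℂ × ℂ => L w) h3

private theorem rprj_radial {σ : ℂ × ℂ → EN N} {τ : EN N → ℂ × ℂ} (hσ : IsChart X σ τ) : fderiv ℂ τ (σ 0) (σ 0) = 0 := by
  have hc : HasDerivAt (fun c : ℂ => c • σ 0) (σ 0) 1 := by
    simpa using (hasDerivAt_id (1 : ℂ)).smul_const (σ 0)
  have hτ : HasFDerivAt τ (fderiv ℂ τ (σ 0)) ((fun c : ℂ => c • σ 0) 1) := by
    simpa using hσ.τ_an.differentiableAt.hasFDerivAt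
  have h1 := hτ.comp_hasDerivAt (1 : ℂ) hc
  have ht : Tendsto (fun c : ℂ => (σ 0, c)) (𝓝 1) (𝓝 (σ 0, 1)) := tendsto_const_nhds.prodMk_nhds tendsto_id
  have h2 : HasDerivAt (fun _ : ℂ => τ (σ 0)) (fderiv ℂ τ (σ 0) (σ 0)) 1 :=
    h1.congr_of_eventuallyEq ((ht.eventually hσ.inv).mono fun c hc => hc.symm)
  exact h2.unique (hasDerivAt_const _ _)

/-- MODULE RPrj: the choice of the projection to the plane.  Finitely many proper subspaces of the space of the linear forms which vanish at `x` are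
avoided. -/
theorem exists_proj (hX : Surface X) {d : ℕ} {K K' : ℂ → EN N} (h : RatC X d K K') {σ : ℂ × ℂ → EN N} {τ : EN N → ℂ × ℂ} (hσ : IsChart X σ τ) :
    ∃ l : Fin 3 → Fin (N + 1) → ℂ, lf (l 0) (σ 0) = 1 ∧ lf (l 1) (σ 0) = 0 ∧ lf (l 2) (σ 0) = 0 ∧
      lf (l 1) (fderiv ℂ σ 0 (1, 0)) * lf (l 2) (fderiv ℂ σ 0 (0, 1)) - lf (l 1) (fderiv ℂ σ 0 (0, 1)) * lf (l 2) (fderiv ℂ σ 0 (1, 0)) ≠ 0 ∧
      (∀ u, lf (l 1) (K u) = 0 → lf (l 2) (K u) = 0 → Pr (K u) (σ 0)) ∧ (lf (l 1) (K' 0) = 0 → lf (l 2) (K' 0) = 0 → Pr (K' 0) (σ 0)) := by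
  classical
  set x := σ 0 with hx
  set v₁ := fderiv ℂ σ 0 (1, 0) with hv₁
  set v₂ := fderiv ℂ σ 0 (0, 1) with hv₂
  have hpr : ∀ y ∈ X, y ∈ Submodule.span ℂ {x} → Pr y x := by
    intro y hy hy'
    obtain ⟨c, hc⟩ := Submodule.mem_span_singleton.1 hy'
    refine ⟨c, ?_, hc.symm⟩
    rintro rfl
    rw [zero_smul] at hc
    exact hX.zero (hc ▸ hy)
  have hD : ∀ y ∈ Submodule.span ℂ {x}, fderiv ℂ τ x y = 0 := by
    intro y hy
    obtain ⟨c, rfl⟩ := Submodule.mem_span_singleton.1 hy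
    rw [map_smul, hx, rprj_radial hσ, smul_zero]
  have hv₁' : v₁ ∉ Submodule.span ℂ {x} := by
    intro hy
    have h1 := hD _ hy
    rw [hx, hv₁, rprj_left hσ] at h1
    simp at h1
  -- the form `l 0`
  obtain ⟨φ₀, hφ₀⟩ : ∃ φ : EN N →ₗ[ℂ] ℂ, φ x = 1 := by
    obtain ⟨f, hf⟩ := Module.exists_dual_forall_apply_ne_zero (K := ℂ) (fun _ : Unit => x) fun _ => hσ.ne
    exact ⟨(f x)⁻¹ • f, by rw [LinearMap.smul_apply, smul_eq_mul, inv_mul_cancel₀ (hf ())]⟩
  -- the form `l 1`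
  obtain ⟨u₀, hu₀⟩ : ∃ u₀ : ℂ, (∃ u, K u ∉ Submodule.span ℂ {x}) → K u₀ ∉ Submodule.span ℂ {x} := by
    by_cases hu : ∃ u, K u ∉ Submodule.span ℂ {x}
    · obtain ⟨u, hu⟩ := hu
      exact ⟨u, fun _ => hu⟩
    · exact ⟨0, fun h => absurd h hu⟩
  obtain ⟨φ₁, hφ₁, hφ₁'⟩ := rprj_avoid x (fun i : Fin 3 => if i = 0 then v₁ else if i = 1 then (if K' 0 ∈ Submodule.span ℂ {x} then v₁ else K' 0)
      else if K u₀ ∈ Submodule.span ℂ {x} then v₁ else K u₀) (by
    intro i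
    split_ifs with h1 h2 h3 h4
    · exact hv₁'
    · exact hv₁'
    · exact h3
    · exact hv₁'
    · exact h4)
  have hφv : φ₁ v₁ ≠ 0 := by simpa using hφ₁' 0
  have hφK' : K' 0 ∉ Submodule.span ℂ {x} → φ₁ (K' 0) ≠ 0 := fun h1 => by simpa [h1] using hφ₁' 1
  have hφK : K u₀ ∉ Submodule.span ℂ {x} → φ₁ (K u₀) ≠ 0 := fun h1 => by simpa [h1] using hφ₁' 2
  -- the zeros
  have hfin : Finite {u : ℂ // φ₁ (K u) = 0 ∧ K u ∉ Submodule.span ℂ {x}} := by
    refine Set.Finite.to_subtype (s := {u : ℂ | φ₁ (K u) = 0 ∧ K u ∉ Submodule.span ℂ {x}}) ?_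
    by_cases hu : ∃ u, K u ∉ Submodule.span ℂ {x}
    · have hL : ∀ F : ℂ → EN N, Differentiable ℂ F → Differentiable ℂ fun z => φ₁ (F z) := fun F hF =>
        (LinearMap.toContinuousLinearMap φ₁).differentiable.comp hF
      refine (rprj_finite (hL K h.diff) (hL K' h.diff') (d := d) (fun z hz => ?_) (hφK (hu₀ hu))).subset fun u hu => hu.1
      rw [h.rel z hz, map_smul, smul_eq_mul]
    · refine Set.finite_empty.subset fun u hu' => (hu ⟨u, hu'.2⟩).elim
  -- the form `l 2`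
  have hw : φ₁ v₁ • v₂ - φ₁ v₂ • v₁ ∉ Submodule.span ℂ {x} := by
    intro hy
    have h1 := hD _ hy
    rw [map_sub, map_smul, map_smul, hx, hv₁, hv₂, rprj_left hσ, rprj_left hσ] at h1
    have h2 := congrArg Prod.snd h1
    simp only [Prod.snd_sub, Prod.smul_snd, smul_eq_mul, mul_one, mul_zero, sub_zero, Prod.snd_zero] at h2
    exact hφv h2
  obtain ⟨φ₂, hφ₂, hφ₂'⟩ := rprj_avoid x (fun i : Option {u : ℂ // φ₁ (K u) = 0 ∧ K u ∉ Submodule.span ℂ {x}} =>
      i.elim (φ₁ v₁ • v₂ - φ₁ v₂ • v₁) fun u => K u.1) (by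
    rintro (_ | u)
    · exact hw
    · exact u.2.2)
  obtain ⟨l₀, hl₀⟩ := rprj_lf φ₀
  obtain ⟨l₁, hl₁⟩ := rprj_lf φ₁
  obtain ⟨l₂, hl₂⟩ := rprj_lf φ₂
  refine ⟨![l₀, l₁, l₂], ?_, ?_, ?_, ?_, ?_, ?_⟩
  · simpa [hl₀] using hφ₀
  · simpa [hl₁] using hφ₁
  · simpa [hl₂] using hφ₂
  · have h1 : φ₂ (φ₁ v₁ • v₂ - φ₁ v₂ • v₁) ≠ 0 := hφ₂' none
    rw [map_sub, map_smul, map_smul, smul_eq_mul, smul_eq_mul] at h1
    simpa [hl₁, hl₂] using h1
  · intro u h1 h2
    have h1' : φ₁ (K u) = 0 := by simpa [hl₁] using h1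
    have h2' : φ₂ (K u) = 0 := by simpa [hl₂] using h2
    refine hpr _ (h.mem u) ?_
    by_contra h3
    exact hφ₂' (some ⟨u, h1', h3⟩) h2'
  · intro h1 h2
    have h1' : φ₁ (K' 0) = 0 := by simpa [hl₁] using h1
    refine hpr _ (h.mem' 0) ?_
    by_contra h3
    exact hφK' h3 h1'

end Pool.Agent.SG

end
end

section

/-!
# UC FinS: a curve of positive length crosses `D` transversally

`chart_curve`: in a chart a curve is `u' z • σ (x z, y z)`.  If `x' 0 = 0` then the curve `u' z • σ (0, y z)` in `D` has the same tangent vector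
at `0`, so its length is zero.
-/

set_option autoImplicit false

open Topology Filter Metric

noncomputable section

namespace Pool.Agent.UC

open Pool.Agent.H17BP (Surface IsForm IsChart)
open Pool.Agent.H36.BP (EN)
open Pool.Agent.H14.PP (IsCone CurveAt)

theorem isCone_of_surface {N : ℕ} {X : Set (EN N)} (hX : Surface X) : IsCone X where
  zero_notMem := hX.zero
  smul_mem := hX.smul
  closed := by
    refine isClosed_of_closure_subset ?_
    intro x hx
    by_cases h0 : x = 0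
    · exact Or.inl h0
    · refine Or.inr (hX.closed x ?_ h0)
      have h1 : closure (insert (0 : EN N) X) = insert 0 (closure X) := by
        rw [Set.insert_eq, closure_union, closure_singleton, ← Set.insert_eq]
      rw [h1] at hx
      exact hx.resolve_left h0

section chart

variable {V : Type} [NormedAddCommGroup V] [NormedSpace ℂ V] [FiniteDimensional ℂ V] {X : Set V}

end chart

variable {N : ℕ} {X : Set (EN N)} {κ : Type} {Q : κ → EN N → ℂ} {e : ℕ}

end Pool.Agent.UC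

end
end
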