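import Pool.Agent.H94.G6.H36.BP.SubD
import Pool.Agent.H94.G6.M13
import Pool.Agent.H94.G6.M14
import Pool.Agent.H94.G6.M24
import Pool.Agent.H94.G6.M92

/-! The parts of this file: H15.V.Liou, H22.W.Liou, H36.BP.ExtB. -/

section

/-!
# V Liou: differentials of bounded weight are constant along entire curves of order two

`F` is an entire curve (without zeros) with `mean log ‖F‖ ≤ A (1 + r²)` over the circles of radius `r`, and `s` is an entire function with
`‖s‖ ≤ C fs (F, F') ^ m`.  Then `s` is constant.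

If not, then the averages of `‖s‖ ^ (2/m)` over large circles are large (`growth`), so the averages of `fs²` over finitely many rotations
are large on `t₁ ≤ ‖z‖ ≤ r` (`riemann`); the product of the functions `‖F (rot z)‖ ^ (1/N)` is compared with the radial function
`β z = b (‖z‖² - t₁² - 2 t₁² log (‖z‖ / t₁))` (`barrier`).
-/

set_option autoImplicit false

open Topology Filter Metric

namespace Pool.Agent.H15.V

attribute [-instance] ProperSMul.toContinuousSMul

open Pool.Agent.H36.BP (EN fs wd Sub)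

variable {N : ℕ}

theorem Sub_prod {ι : Type} (S : Finset ι) {u : ι → ℂ → ℝ} {z₀ : ℂ} {c : ι → ℝ} (h : ∀ j ∈ S, Sub (u j) z₀ (c j)) :
    Sub (fun z => ∏ j ∈ S, u j z) z₀ (∑ j ∈ S, c j) := by
  classical
  induction S using Finset.induction_on with
  | empty =>
    refine (Pool.Agent.H36.BP.Sub.const one_pos z₀).congr (Filter.Eventually.of_forall fun z => ?_)
    simp
  | insert a S ha ih =>
    rw [Finset.sum_insert ha]
    refine ((h a (Finset.mem_insert_self _ _)).mul (ih fun j hj => h j (Finset.mem_insert_of_mem hj))).congr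
      (Filter.Eventually.of_forall fun z => ?_)
    rw [Finset.prod_insert ha]

/-- the radial barrier -/
noncomputable def bar (b t₁ x : ℝ) : ℝ := b * (x ^ 2 - t₁ ^ 2 - 2 * t₁ ^ 2 * Real.log (x / t₁))

theorem bar_nonneg {b t₁ x : ℝ} (hb : 0 ≤ b) (ht : 0 < t₁) (hx : 0 < x) : 0 ≤ bar b t₁ x := by
  refine mul_nonneg hb ?_
  have h1 : 2 * Real.log (x / t₁) = Real.log ((x / t₁) ^ 2) := by
    rw [Real.log_pow]
    norm_num
  have h2 := Real.log_le_sub_one_of_pos (show 0 < (x / t₁) ^ 2 by positivity)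
  have h3 : t₁ ^ 2 * (2 * Real.log (x / t₁)) ≤ t₁ ^ 2 * ((x / t₁) ^ 2 - 1) := by
    rw [h1]
    exact mul_le_mul_of_nonneg_left h2 (by positivity)
  have h4 : t₁ ^ 2 * ((x / t₁) ^ 2 - 1) = x ^ 2 - t₁ ^ 2 := by field_simp
  linarith

theorem bar_self {b t₁ : ℝ} (ht : 0 < t₁) : bar b t₁ t₁ = 0 := by
  rw [bar, div_self ht.ne', Real.log_one]
  ring

theorem Sub_bar {b t₁ : ℝ} (hb : 0 ≤ b) (ht : 0 < t₁) {z₀ : ℂ} (hz : t₁ ≤ ‖z₀‖) :
    Sub (fun z => Real.exp (-bar b t₁ (max ‖z‖ t₁))) z₀ (-b) := by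
  have hz0 : z₀ ≠ 0 := fun h => by rw [h, norm_zero] at hz; linarith
  have h1 : Sub (fun z : ℂ => Real.exp (-b * ‖z‖ ^ 2)) z₀ (-b) := by
    have h := Pool.Agent.H36.BP.Sub.exp_sq (t := fun z : ℂ => z) (z₀ := z₀) analyticAt_id (-b)
    simpa using h
  have h2 : Sub (fun z : ℂ => ‖z‖ ^ (2 * b * t₁ ^ 2)) z₀ 0 := by
    have h := (Pool.Agent.H36.BP.Sub.of_holo (h := fun z : ℂ => z) (z₀ := z₀) analyticAt_id hz0).rpow (r := 2 * b * t₁ ^ 2) (by positivity)
    simpa using h
  have h3 := (h1.mul h2).const_mul (a := Real.exp (b * t₁ ^ 2 - 2 * b * t₁ ^ 2 * Real.log t₁)) (Real.exp_pos _)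
  rw [add_zero] at h3
  have hq : ∀ z : ℂ, z ≠ 0 → Real.exp (b * t₁ ^ 2 - 2 * b * t₁ ^ 2 * Real.log t₁) * (Real.exp (-b * ‖z‖ ^ 2) * ‖z‖ ^ (2 * b * t₁ ^ 2)) =
      Real.exp (-bar b t₁ ‖z‖) := by
    intro z hz
    have hzn := norm_pos_iff.2 hz
    rw [Real.rpow_def_of_pos hzn, ← Real.exp_add, ← Real.exp_add, bar, Real.log_div hzn.ne' ht.ne']
    congr 1
    ring
  have hne : ∀ᶠ z in 𝓝 z₀, z ≠ 0 := isOpen_ne.mem_nhds hz0
  refine h3.mono ?_ ?_
  · show Real.exp _ * _ = _
    rw [hq z₀ hz0, max_eq_left hz]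
  · filter_upwards [hne] with z hz'
    show Real.exp _ * _ ≤ _
    rw [hq z hz', Real.exp_le_exp, neg_le_neg_iff]
    rcases le_total t₁ ‖z‖ with h | h
    · rw [max_eq_left h]
    · rw [max_eq_right h, bar_self ht]
      exact bar_nonneg hb ht (norm_pos_iff.2 hz')

theorem barrier {F : ℂ → EN N} (hF : Differentiable ℂ F) (h0 : ∀ z, F z ≠ 0) {n : ℕ} (hn : 1 ≤ n) {b t₁ r : ℝ} (hb : 0 < b) (ht : 0 < t₁)
    (htr : t₁ < r) (hlow : ∀ z : ℂ, t₁ ≤ ‖z‖ → ‖z‖ ≤ r →
      b ≤ (n : ℝ)⁻¹ * ∑ j ∈ Finset.range n, fs (F (rot n j * z)) (deriv F (rot n j * z)) ^ 2 / 2) :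
    bar b t₁ r ≤ Real.circleAverage (fun z => Real.log ‖F z‖) 0 r - Real.log ‖F 0‖ + 2 := by
  have hr : 0 < r := ht.trans htr
  have hn0 : (0 : ℝ) < n := by exact_mod_cast hn
  obtain ⟨W, hW⟩ : ∃ W : ℂ → ℝ, ∀ z, W z = ∏ j ∈ Finset.range n, ‖F (rot n j * z)‖ ^ ((n : ℝ)⁻¹) := ⟨_, fun _ => rfl⟩
  have hWpos : ∀ z, 0 < W z := fun z => by
    rw [hW]
    exact Finset.prod_pos fun j _ => Real.rpow_pos_of_pos (norm_pos_iff.2 (h0 _)) _
  have hlogW : ∀ z, Real.log (W z) = (n : ℝ)⁻¹ * ∑ j ∈ Finset.range n, Real.log ‖F (rot n j * z)‖ := by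
    intro z
    rw [hW, Real.log_prod (fun j _ => (Real.rpow_pos_of_pos (norm_pos_iff.2 (h0 _)) _).ne'), Finset.mul_sum]
    exact Finset.sum_congr rfl fun j _ => Real.log_rpow (norm_pos_iff.2 (h0 _)) _
  have hcF : ∀ j, Continuous fun z => ‖F (rot n j * z)‖ := fun j =>
    (hF.continuous.comp (continuous_const.mul continuous_id)).norm
  have hWc : Continuous W := by
    have : W = fun z => ∏ j ∈ Finset.range n, ‖F (rot n j * z)‖ ^ ((n : ℝ)⁻¹) := funext hW
    rw [this]
    exact continuous_finsetProd _ fun j _ => (hcF j).rpow_const fun z => Or.inr (inv_pos.2 hn0).le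
  have hlogFc : Continuous fun z => Real.log ‖F z‖ := hF.continuous.norm.log fun z => norm_ne_zero_iff.2 (h0 z)
  have hlogWc : Continuous fun z => Real.log (W z) := hWc.log fun z => (hWpos z).ne'
  have hWsub : ∀ z₀, Sub W z₀ ((n : ℝ)⁻¹ * ∑ j ∈ Finset.range n, fs (F (rot n j * z₀)) (deriv F (rot n j * z₀)) ^ 2 / 2) := by
    intro z₀
    have hj : ∀ j ∈ Finset.range n, Sub (fun z => ‖F (rot n j * z)‖ ^ ((n : ℝ)⁻¹)) z₀
        ((n : ℝ)⁻¹ * fs (F (rot n j * z₀)) (deriv F (rot n j * z₀)) ^ 2 / 2) := by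
      intro j _
      have hd : HasDerivAt (fun z => F (rot n j * z)) (rot n j • deriv F (rot n j * z₀)) z₀ := by
        have h1 : HasDerivAt (fun z : ℂ => rot n j * z) (rot n j) z₀ := by simpa using (hasDerivAt_id z₀).const_mul (rot n j)
        exact HasDerivAt.scomp z₀ (hF (rot n j * z₀)).hasDerivAt h1
      have han : AnalyticAt ℂ (fun z => F (rot n j * z)) z₀ :=
        (hF.comp ((differentiable_const _).mul differentiable_id)).analyticAt z₀
      have h2 := Pool.Agent.H36.BP.Sub.norm_rpow han (h0 _) ((n : ℝ)⁻¹)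
      rw [hd.deriv, Pool.Agent.H36.BP.fs_smul_right, norm_rot, one_mul] at h2
      exact h2
    have h3 := Sub_prod (Finset.range n) hj
    have e : ∑ j ∈ Finset.range n, ((n : ℝ)⁻¹ * fs (F (rot n j * z₀)) (deriv F (rot n j * z₀)) ^ 2 / 2) =
        (n : ℝ)⁻¹ * ∑ j ∈ Finset.range n, fs (F (rot n j * z₀)) (deriv F (rot n j * z₀)) ^ 2 / 2 := by
      rw [Finset.mul_sum]
      exact Finset.sum_congr rfl fun j _ => by ring
    rw [e] at h3
    exact h3.congr (Filter.Eventually.of_forall fun z => (hW z).symm)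
  obtain ⟨g, hg, hgW⟩ := Pool.Agent.H36.BP.circle_approx hr (fun z => Real.log (W z)) hlogWc.continuousOn one_pos
  have hMc : Continuous fun z : ℂ => max ‖z‖ t₁ := continuous_norm.max continuous_const
  have hM0 : ∀ z : ℂ, 0 < max ‖z‖ t₁ := fun z => lt_max_of_lt_right ht
  have hbc : Continuous fun z : ℂ => bar b t₁ (max ‖z‖ t₁) := by
    unfold bar
    refine continuous_const.mul (((hMc.pow 2).sub continuous_const).sub (continuous_const.mul ?_))
    exact (hMc.div_const t₁).log fun z => (div_pos (hM0 z) ht).ne'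
  have key : ∀ ε : ℝ, 0 < ε → Real.log (W 0) - (g 0).re ≤ 1 - bar b t₁ r + ε * r ^ 2 := by
    intro ε hε
    obtain ⟨w, hw⟩ : ∃ w : ℂ → ℝ, ∀ z, w z = W z * ‖Complex.exp (-g z)‖ * Real.exp (-bar b t₁ (max ‖z‖ t₁)) * Real.exp (ε * ‖z‖ ^ 2) :=
      ⟨_, fun _ => rfl⟩
    have hwc : Continuous w := by
      have : w = fun z => W z * ‖Complex.exp (-g z)‖ * Real.exp (-bar b t₁ (max ‖z‖ t₁)) * Real.exp (ε * ‖z‖ ^ 2) := funext hw
      rw [this]
      have h1 : Continuous fun z => ‖Complex.exp (-g z)‖ := (Complex.continuous_exp.comp hg.continuous.neg).norm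
      exact ((hWc.mul h1).mul (Real.continuous_exp.comp hbc.neg)).mul
        (Real.continuous_exp.comp (continuous_const.mul (continuous_norm.pow 2)))
    have hsub : ∀ z ∈ ball (0 : ℂ) r, 0 < w z → ∃ c, 0 < c ∧ Sub w z c := by
      intro z₀ hz₀ _
      rw [mem_ball_zero_iff] at hz₀
      have hS1 := hWsub z₀
      have hS2 : Sub (fun z => ‖Complex.exp (-g z)‖) z₀ 0 :=
        Pool.Agent.H36.BP.Sub.of_holo ((hg.analyticAt z₀).neg.cexp) (Complex.exp_ne_zero _)
      have hS4 : Sub (fun z : ℂ => Real.exp (ε * ‖z‖ ^ 2)) z₀ ε := by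
        have h := Pool.Agent.H36.BP.Sub.exp_sq (t := fun z : ℂ => z) (z₀ := z₀) analyticAt_id ε
        simpa using h
      rcases lt_or_ge ‖z₀‖ t₁ with hlt | hge
      · have hS3 : Sub (fun z => Real.exp (-bar b t₁ (max ‖z‖ t₁))) z₀ 0 := by
          refine (Pool.Agent.H36.BP.Sub.const one_pos z₀).congr ?_
          have hev : ∀ᶠ z in 𝓝 z₀, ‖z‖ < t₁ := (isOpen_lt continuous_norm continuous_const).mem_nhds hlt
          filter_upwards [hev] with z hz
          rw [max_eq_right hz.le, bar_self ht, neg_zero, Real.exp_zero]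
        have hS := ((hS1.mul hS2).mul hS3).mul hS4
        refine ⟨_, ?_, hS.congr (Filter.Eventually.of_forall fun z => (hw z).symm)⟩
        have hnn : 0 ≤ (n : ℝ)⁻¹ * ∑ j ∈ Finset.range n, fs (F (rot n j * z₀)) (deriv F (rot n j * z₀)) ^ 2 / 2 :=
          mul_nonneg (inv_pos.2 hn0).le (Finset.sum_nonneg fun j _ => by positivity)
        linarith
      · have hS3 := Sub_bar hb.le ht hge
        have hS := ((hS1.mul hS2).mul hS3).mul hS4
        refine ⟨_, ?_, hS.congr (Filter.Eventually.of_forall fun z => (hw z).symm)⟩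
        have := hlow z₀ hge hz₀.le
        linarith
    have hmax := Pool.Agent.H36.BP.max_principle (isCompact_closedBall (0 : ℂ) r) isOpen_ball ball_subset_closedBall
      hwc.continuousOn.upperSemicontinuousOn hsub (A := Real.exp (1 - bar b t₁ r + ε * r ^ 2)) (Real.exp_pos _).le (by
        rintro z ⟨hz1, hz2⟩
        have hzr : ‖z‖ = r := by
          rw [mem_closedBall_zero_iff] at hz1
          rw [mem_ball_zero_iff, not_lt] at hz2
          exact le_antisymm hz1 hz2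
        have h1 := hgW z (by rw [mem_sphere_zero_iff_norm]; exact hzr)
        rw [hw, ← Real.exp_log (hWpos z), Complex.norm_exp, ← Real.exp_add, ← Real.exp_add, ← Real.exp_add, hzr,
          max_eq_left htr.le, Real.exp_le_exp]
        have h2 := (abs_le.1 h1).1
        simp only [Complex.neg_re]
        linarith)
    have h1 := hmax 0 (mem_closedBall_self hr.le)
    rw [hw, ← Real.exp_log (hWpos 0), Complex.norm_exp, ← Real.exp_add, ← Real.exp_add, ← Real.exp_add, norm_zero,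
      max_eq_right ht.le, bar_self ht, Real.exp_le_exp] at h1
    simp only [Complex.neg_re] at h1
    linarith
  have key2 : Real.log (W 0) - (g 0).re ≤ 1 - bar b t₁ r := by
    refine le_of_forall_pos_le_add fun δ hδ => ?_
    have h1 := key (δ / r ^ 2) (by positivity)
    rwa [div_mul_cancel₀ _ (by positivity)] at h1
  have hW0 : Real.log (W 0) = Real.log ‖F 0‖ := by
    rw [hlogW]
    simp only [mul_zero, Finset.sum_const, Finset.card_range, nsmul_eq_mul]
    field_simp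
  have hgre : (g 0).re = Real.circleAverage (fun z => (g z).re) 0 r := by
    have hgd : DiffContOnCl ℂ g (ball 0 |r|) := hg.diffContOnCl
    have h1 := hgd.circleAverage
    have h2 := ContinuousLinearMap.circleAverage_comp_comm Complex.reCLM (f := g) (c := (0 : ℂ)) (R := r)
      (hg.continuous.continuousOn.circleIntegrable')
    rw [h1] at h2
    exact h2.symm
  have hav : Real.circleAverage (fun z => (g z).re) 0 r ≤ Real.circleAverage (fun z => Real.log ‖F z‖) 0 r + 1 := by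
    have hlogWint : CircleIntegrable (fun z => Real.log (W z)) 0 r := hlogWc.continuousOn.circleIntegrable'
    have h1 : Real.circleAverage (fun z => (g z).re) 0 r ≤ Real.circleAverage (fun z => Real.log (W z) + 1) 0 r := by
      refine Real.circleAverage_mono (Complex.continuous_re.comp hg.continuous).continuousOn.circleIntegrable'
        (hlogWc.add continuous_const).continuousOn.circleIntegrable' fun z hz => ?_
      rw [abs_of_pos hr] at hz
      have := (abs_le.1 (hgW z hz)).2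
      show (g z).re ≤ Real.log (W z) + 1
      linarith
    have h2 : Real.circleAverage (fun z => Real.log (W z) + 1) 0 r = Real.circleAverage (fun z => Real.log (W z)) 0 r + 1 := by
      rw [Real.circleAverage_fun_add hlogWint (circleIntegrable_const _ _ _), Real.circleAverage_const]
    have h3 : Real.circleAverage (fun z => Real.log (W z)) 0 r = Real.circleAverage (fun z => Real.log ‖F z‖) 0 r := by
      have e1 : (fun z => Real.log (W z)) = fun z => (n : ℝ)⁻¹ • ∑ j ∈ Finset.range n, Real.log ‖F (rot n j * z)‖ := by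
        funext z
        rw [hlogW, smul_eq_mul]
      rw [e1, Real.circleAverage_fun_smul]
      have e2 : (fun z => ∑ j ∈ Finset.range n, Real.log ‖F (rot n j * z)‖) = fun z => ∑ j ∈ Finset.range n, (fun j z => Real.log ‖F (rot n j * z)‖) j z := rfl
      have hint : ∀ j ∈ Finset.range n, CircleIntegrable (fun z => Real.log ‖F (rot n j * z)‖) 0 r := fun j _ =>
        ((hcF j).log fun z => norm_ne_zero_iff.2 (h0 _)).continuousOn.circleIntegrable'
      rw [Real.circleAverage_fun_sum hint]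
      have e3 : ∀ j ∈ Finset.range n, Real.circleAverage (fun z => Real.log ‖F (rot n j * z)‖) 0 r = Real.circleAverage (fun z => Real.log ‖F z‖) 0 r :=
        fun j _ => circleAverage_rot (fun z => Real.log ‖F z‖) n j hr.le
      rw [Finset.sum_congr rfl e3, Finset.sum_const, Finset.card_range, nsmul_eq_mul, smul_eq_mul]
      field_simp
    rw [h2, h3] at h1
    exact h1
  rw [hW0] at key2
  linarith

end Pool.Agent.H15.V

end

section

/-!
# W Liou: sub-mean functions which are bounded by the square of the derivative of a curve of order two are constant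
-/

set_option autoImplicit false

open Topology Filter Metric

namespace Pool.Agent.H22.W

open Pool.Agent.H36.BP (EN fs wd)
open Pool.Agent.H15.V (rot norm_rot riemann bar barrier circleAverage_rot)

variable {N : ℕ}

/-- `u` is continuous, `0 ≤ u ≤ C fs (F, F') ^ 2`, at most its means over circles, and `F` has order at most two: `u` is constant. -/
theorem const_of_orderTwo {F : ℂ → EN N} (hF : Differentiable ℂ F) (h0 : ∀ z, F z ≠ 0) {u : ℂ → ℝ} (hu : Continuous u)
    (hs : SubMean u) (hu0 : ∀ z, 0 ≤ u z) {C : ℝ} (hC : ∀ z, u z ≤ C * fs (F z) (deriv F z) ^ 2) {A : ℝ}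
    (hA : ∀ r : ℝ, 0 < r → Real.circleAverage (fun z => Real.log ‖F z‖) 0 r ≤ A * (1 + r ^ 2)) (z w : ℂ) : u z = u w := by
  obtain ⟨K, hK⟩ : ∃ K : ℝ, K = max C 1 := ⟨_, rfl⟩
  have hK0 : 0 < K := by rw [hK]; exact lt_max_of_lt_right one_pos
  have hle : ∀ z, u z ≤ K * fs (F z) (deriv F z) ^ 2 := fun z => by
    refine (hC z).trans (mul_le_mul_of_nonneg_right ?_ (by positivity))
    rw [hK]
    exact le_max_left _ _
  obtain ⟨b, hb⟩ : ∃ b : ℝ, b = |A| + 1 := ⟨_, rfl⟩
  have hb0 : 0 < b := by rw [hb]; positivity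
  refine const_of_avg hu hs hu0 (K := 2 * b * K + 1) ?_ z w
  by_contra hcon
  push Not at hcon
  obtain ⟨t₀, ht₀⟩ := hcon
  obtain ⟨t₁, ht₁⟩ : ∃ t₁ : ℝ, t₁ = max t₀ 1 := ⟨_, rfl⟩
  have ht : 0 < t₁ := by rw [ht₁]; exact lt_max_of_lt_right one_pos
  have hgrow : ∀ t, t₁ ≤ t → 2 * b * K + 1 ≤ Real.circleAverage u 0 t := fun t h => by
    refine (ht₀ t ?_).le
    rw [ht₁] at h
    exact (le_max_left _ _).trans h
  have hineq : ∀ r, t₁ < r → bar b t₁ r ≤ A * (1 + r ^ 2) - Real.log ‖F 0‖ + 2 := by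
    intro r hr
    obtain ⟨n, hn, hnr⟩ := riemann hu (ht.trans hr) one_pos
    have hn0 : (0 : ℝ) < n := by exact_mod_cast hn
    have h1 := barrier hF h0 hn hb0 ht hr (by
      intro z hz1 hz2
      have h2 := (abs_le.1 (hnr z hz2)).1
      have h3 := hgrow ‖z‖ hz1
      have h4 : (n : ℝ)⁻¹ * ∑ j ∈ Finset.range n, u (rot n j * z) ≤
          (n : ℝ)⁻¹ * ∑ j ∈ Finset.range n, K * fs (F (rot n j * z)) (deriv F (rot n j * z)) ^ 2 :=
        mul_le_mul_of_nonneg_left (Finset.sum_le_sum fun j _ => hle _) (inv_pos.2 hn0).le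
      have h5 : (n : ℝ)⁻¹ * ∑ j ∈ Finset.range n, K * fs (F (rot n j * z)) (deriv F (rot n j * z)) ^ 2 =
          2 * K * ((n : ℝ)⁻¹ * ∑ j ∈ Finset.range n, fs (F (rot n j * z)) (deriv F (rot n j * z)) ^ 2 / 2) := by
        rw [← Finset.mul_sum, ← Finset.sum_div]
        ring
      rw [h5] at h4
      have h6 : 2 * K * b ≤ 2 * K * ((n : ℝ)⁻¹ * ∑ j ∈ Finset.range n, fs (F (rot n j * z)) (deriv F (rot n j * z)) ^ 2 / 2) := by
        linarith
      exact le_of_mul_le_mul_left h6 (by positivity))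
    have h2 := hA r (ht.trans hr)
    linarith
  obtain ⟨D, hD⟩ : ∃ D : ℝ, D = b * t₁ ^ 2 + |A| + |Real.log ‖F 0‖| + 2 := ⟨_, rfl⟩
  have hD0 : 0 < D := by
    have h1 := abs_nonneg A
    have h2 := abs_nonneg (Real.log ‖F 0‖)
    have h3 : 0 < b * t₁ ^ 2 := by positivity
    rw [hD]
    linarith
  obtain ⟨r, hr⟩ : ∃ r : ℝ, r = 2 * b * t₁ + D + 1 + t₁ := ⟨_, rfl⟩
  have hr1 : t₁ < r := by
    have : 0 < 2 * b * t₁ := by positivity
    linarith
  have hr0 : 0 < r := ht.trans hr1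
  have h1 := hineq r hr1
  rw [bar] at h1
  have hlog : Real.log (r / t₁) ≤ r / t₁ := (Real.log_le_sub_one_of_pos (by positivity)).trans (by linarith)
  have h2 : 2 * t₁ ^ 2 * Real.log (r / t₁) ≤ 2 * t₁ * r := by
    calc 2 * t₁ ^ 2 * Real.log (r / t₁) ≤ 2 * t₁ ^ 2 * (r / t₁) := mul_le_mul_of_nonneg_left hlog (by positivity)
      _ = 2 * t₁ * r := by field_simp
  have h3 : b * (r ^ 2 - t₁ ^ 2 - 2 * t₁ * r) ≤ b * (r ^ 2 - t₁ ^ 2 - 2 * t₁ ^ 2 * Real.log (r / t₁)) :=
    mul_le_mul_of_nonneg_left (by linarith) hb0.le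
  have h4 : A * (1 + r ^ 2) ≤ |A| * (1 + r ^ 2) := mul_le_mul_of_nonneg_right (le_abs_self A) (by positivity)
  have h5 := neg_abs_le (Real.log ‖F 0‖)
  have h6 : b * r ^ 2 = |A| * r ^ 2 + r ^ 2 := by rw [hb]; ring
  have h7 : r ^ 2 ≤ 2 * b * t₁ * r + D := by
    rw [hD]
    nlinarith
  have h8 : r ^ 2 = 2 * b * t₁ * r + (D + 1 + t₁) * r := by
    rw [hr]
    ring
  have h9 : D < (D + 1 + t₁) * r := by
    have hr2 : 1 ≤ r := by
      have : 0 < 2 * b * t₁ := by positivity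
      linarith
    nlinarith
  linarith

end Pool.Agent.H22.W

end

section

/-!
# BP ExtB: comparison on annuli

`g, b` from `annulus_approx` for `φ = c₀ log|F|`, `ε = 1`.  `w = Re g + b log|z|`.
(a) for `δ > 0` the function `|F|^(c₀) exp(-w) exp(δ|z|²)` has `Sub` exponent `≥ δ > 0` (`norm_rpow`; `exp(-Re g)|z|^(-b)` is locally the absolute value of a holomorphic function) and is continuous; on both circles it is
`≤ e exp(δ)`; let `δ → 0`.
(b) `u = mt G F |F|^(-c₀) (log 1/|z|)^(-C') |z| exp(w)`, `C' = 4 C L² + 1`: exponent `≥ -C L²/(|z|² log²) + C'/(4|z|² log²) > 0` where `u > 0`.  On the circles `u ≤ e mt G F (log 1/|z|)^(-C') |z| ≤ e L (log 1/|z|)^(-C'-1)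
≤ e L (log 1/r₁)^(-C'-1)`.  (`u` is upper semicontinuous on the closed annulus: `mt_usc` times a continuous nonnegative function.)
-/

set_option autoImplicit false

namespace Pool.Agent.H36.BP

open Filter Topology Metric

variable {N : ℕ}

variable {K B : Set (EN N)} {G : EN N → EN N → ℝ} {ρ : EN N → ℝ} {M : ℕ} {c₀ C : ℝ}

/-- product of a nonnegative upper semicontinuous function and a nonnegative continuous function -/
private theorem extB_usc_mul {α : Type*} [TopologicalSpace α] {S : Set α} {u k : α → ℝ} (hu : UpperSemicontinuousOn u S)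
    (hk : ContinuousOn k S) (hu0 : ∀ x ∈ S, 0 ≤ u x) (hk0 : ∀ x ∈ S, 0 ≤ k x) :
    UpperSemicontinuousOn (fun x => u x * k x) S := by
  intro x hx y hy
  have ht : Tendsto (fun ε : ℝ => (u x + ε) * (k x + ε)) (𝓝[>] 0) (𝓝 ((u x + 0) * (k x + 0))) := by
    apply tendsto_nhdsWithin_of_tendsto_nhds
    have hc : Continuous (fun ε : ℝ => (u x + ε) * (k x + ε)) := by fun_prop
    exact hc.tendsto 0
  have hy' : (u x + 0) * (k x + 0) < y := by simpa using hy
  obtain ⟨ε, hε1, hε2⟩ := ((ht.eventually_lt_const hy').and self_mem_nhdsWithin).exists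
  have hε : (0 : ℝ) < ε := hε2
  have h1 : ∀ᶠ x' in 𝓝[S] x, u x' < u x + ε := hu x hx _ (by linarith)
  have h2 : ∀ᶠ x' in 𝓝[S] x, k x' < k x + ε := (hk x hx).eventually_lt_const (by linarith)
  filter_upwards [h1, h2, self_mem_nhdsWithin] with x' h1' h2' hx'
  refine lt_of_le_of_lt ?_ hε1
  exact mul_le_mul h1'.le h2'.le (hk0 x' hx') (by linarith [hu0 x hx])

/-- `exp (t (Re g + b log|z|))` is locally the absolute value of a holomorphic function -/
private theorem extB_sub_exp {g : ℂ → ℂ} (hg : DifferentiableOn ℂ g {0}ᶜ) (b t : ℝ) {z₀ : ℂ} (hz₀ : z₀ ≠ 0) :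
    Sub (fun z => Real.exp (t * ((g z).re + b * Real.log ‖z‖))) z₀ 0 := by
  have hga : AnalyticAt ℂ g z₀ := hg.analyticAt (isOpen_compl_singleton.mem_nhds hz₀)
  set k : ℂ → ℂ := fun z => Complex.exp ((t : ℂ) * (g z + (b : ℂ) * (Complex.log (z / z₀) + (Real.log ‖z₀‖ : ℂ)))) with hk
  have hlog : AnalyticAt ℂ (fun z : ℂ => Complex.log (z / z₀)) z₀ := by
    have h1 : AnalyticAt ℂ (fun z : ℂ => z / z₀) z₀ := by fun_prop
    refine AnalyticAt.clog h1 ?_
    simp [div_self hz₀]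
  have hka : AnalyticAt ℂ k z₀ := by
    refine AnalyticAt.cexp ?_
    exact analyticAt_const.mul (hga.add (analyticAt_const.mul (hlog.add analyticAt_const)))
  have hk0 : k z₀ ≠ 0 := Complex.exp_ne_zero _
  refine (Sub.of_holo hka hk0).congr ?_
  filter_upwards [isOpen_compl_singleton.mem_nhds hz₀] with z hz
  have hz' : z ≠ 0 := hz
  rw [hk]
  simp only
  rw [Complex.norm_exp]
  congr 1
  have h1 : (Complex.log (z / z₀)).re = Real.log ‖z‖ - Real.log ‖z₀‖ := by
    rw [Complex.log_re, norm_div, Real.log_div (norm_ne_zero_iff.mpr hz') (norm_ne_zero_iff.mpr hz₀)]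
  rw [Complex.re_ofReal_mul, Complex.add_re, Complex.re_ofReal_mul, Complex.add_re, h1, Complex.ofReal_re]
  ring

theorem annulus_bounds (hM : MetricData K B G ρ M c₀ C) {L : ℝ} (hL : 0 < L) {F : ℂ → EN N} (hF : Curve K (ball 0 1 \ {0}) F)
    (hgr : ∀ z : ℂ, z ≠ 0 → ‖z‖ < 1 → mt G F z * (‖z‖ * Real.log (1 / ‖z‖)) ≤ L) {r r₁ : ℝ} (hr : 0 < r) (hr1 : r < r₁) (hr2 : r₁ < 1) :
    ∃ (g : ℂ → ℂ) (b : ℝ), DifferentiableOn ℂ g {0}ᶜ ∧
      ∀ z : ℂ, r ≤ ‖z‖ → ‖z‖ ≤ r₁ → ‖F z‖ ^ c₀ ≤ Real.exp 1 * Real.exp ((g z).re + b * Real.log ‖z‖) ∧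
        mt G F z * Real.log (1 / ‖z‖) ^ (-(4 * C * L ^ 2 + 1)) * ‖z‖ * Real.exp ((g z).re + b * Real.log ‖z‖) ≤
          Real.exp 1 * L * Real.log (1 / r₁) ^ (-(4 * C * L ^ 2 + 2)) * ‖F z‖ ^ c₀ := by
  have hopen : IsOpen (ball (0 : ℂ) 1 \ {0}) := isOpen_ball.sdiff isClosed_singleton
  set S : Set ℂ := {z | r ≤ ‖z‖ ∧ ‖z‖ ≤ r₁} with hS
  set U : Set ℂ := {z | r < ‖z‖ ∧ ‖z‖ < r₁} with hU
  have hr10 : 0 < r₁ := hr.trans hr1
  have hSc : IsCompact S := by
    refine (isCompact_closedBall (0 : ℂ) r₁).of_isClosed_subset ?_ ?_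
    · exact (isClosed_le continuous_const continuous_norm).inter (isClosed_le continuous_norm continuous_const)
    · intro z hz
      simpa using hz.2
  have hUo : IsOpen U := (isOpen_lt continuous_const continuous_norm).inter (isOpen_lt continuous_norm continuous_const)
  have hUS : U ⊆ S := fun z hz => ⟨hz.1.le, hz.2.le⟩
  have hSsub : S ⊆ ball (0 : ℂ) 1 \ {0} := by
    intro z hz
    refine ⟨?_, ?_⟩
    · rw [mem_ball_zero_iff]; exact lt_of_le_of_lt hz.2 hr2
    · rintro rfl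
      have := hz.1
      rw [norm_zero] at this
      linarith
  have hSsph : S \ U ⊆ sphere (0 : ℂ) r ∪ sphere (0 : ℂ) r₁ := by
    intro z hz
    have h1 := hz.1
    have h2 : ¬ (r < ‖z‖ ∧ ‖z‖ < r₁) := hz.2
    rcases h1.1.lt_or_eq with h | h
    · right
      rw [mem_sphere_zero_iff_norm]
      by_contra hne
      exact h2 ⟨h, lt_of_le_of_ne h1.2 hne⟩
    · left
      rw [mem_sphere_zero_iff_norm, h]
  have hsphS : sphere (0 : ℂ) r ∪ sphere (0 : ℂ) r₁ ⊆ S := by
    rintro z (hz | hz)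
    · rw [mem_sphere_zero_iff_norm] at hz
      exact ⟨hz.ge, by rw [hz]; exact hr1.le⟩
    · rw [mem_sphere_zero_iff_norm] at hz
      exact ⟨by rw [hz]; exact hr1.le, hz.le⟩
  have hFK : ∀ z ∈ ball (0 : ℂ) 1 \ {0}, F z ∈ K := hF.2
  have hF0 : ∀ z ∈ ball (0 : ℂ) 1 \ {0}, F z ≠ 0 := fun z hz => hM.ne _ (hFK z hz)
  have hFn : ∀ z ∈ ball (0 : ℂ) 1 \ {0}, 0 < ‖F z‖ := fun z hz => norm_pos_iff.mpr (hF0 z hz)
  have hFc : ContinuousOn F S := hF.1.continuousOn.mono hSsub
  have hFa : ∀ z ∈ ball (0 : ℂ) 1 \ {0}, AnalyticAt ℂ F z := fun z hz => hF.1.analyticAt (hopen.mem_nhds hz)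
  obtain ⟨g, b, hg, hgb⟩ := annulus_approx hr hr1 (fun z => c₀ * Real.log ‖F z‖)
    (by
      refine ContinuousOn.mul continuousOn_const (ContinuousOn.log (hFc.mono hsphS).norm ?_)
      intro z hz
      exact (hFn z (hSsub (hsphS hz))).ne') (ε := 1) one_pos
  set w : ℂ → ℝ := fun z => (g z).re + b * Real.log ‖z‖ with hw
  have hwc : ContinuousOn w S := by
    have h1 : ContinuousOn g S := hg.continuousOn.mono fun z hz => (hSsub hz).2
    refine (Complex.continuous_re.comp_continuousOn h1).add (continuousOn_const.mul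
      (ContinuousOn.log continuous_norm.continuousOn ?_))
    intro z hz
    exact norm_ne_zero_iff.mpr (hSsub hz).2
  have hlogF : ∀ z ∈ ball (0 : ℂ) 1 \ {0}, ‖F z‖ ^ c₀ = Real.exp (c₀ * Real.log ‖F z‖) := by
    intro z hz
    rw [Real.rpow_def_of_pos (hFn z hz), mul_comm]
  have hlogF' : ∀ z ∈ ball (0 : ℂ) 1 \ {0}, ‖F z‖ ^ (-c₀) = Real.exp (-(c₀ * Real.log ‖F z‖)) := by
    intro z hz
    rw [Real.rpow_def_of_pos (hFn z hz)]
    congr 1
    ring
  have hsph1 : ∀ z ∈ S \ U, ‖F z‖ ^ c₀ * Real.exp (-(w z)) ≤ Real.exp 1 := by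
    intro z hz
    rw [hlogF z (hSsub hz.1), ← Real.exp_add, Real.exp_le_exp]
    have := (abs_le.mp (hgb z (hSsph hz))).1
    have hwz : w z = (g z).re + b * Real.log ‖z‖ := rfl
    rw [hwz]
    linarith
  have hsph2 : ∀ z ∈ S \ U, ‖F z‖ ^ (-c₀) * Real.exp (w z) ≤ Real.exp 1 := by
    intro z hz
    rw [hlogF' z (hSsub hz.1), ← Real.exp_add, Real.exp_le_exp]
    have := (abs_le.mp (hgb z (hSsph hz))).2
    have hwz : w z = (g z).re + b * Real.log ‖z‖ := rfl
    rw [hwz]
    linarith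
  -- part (a)
  have hA : ∀ δ : ℝ, 0 < δ → ∀ z ∈ S, ‖F z‖ ^ c₀ * Real.exp (-(w z)) * Real.exp (δ * ‖z‖ ^ 2) ≤ Real.exp 1 * Real.exp δ := by
    intro δ hδ
    refine max_principle hSc hUo hUS ?_ ?_ (by positivity) ?_
    · refine ContinuousOn.upperSemicontinuousOn ?_
      refine ContinuousOn.mul (ContinuousOn.mul ?_ ?_) (by fun_prop)
      · refine ContinuousOn.rpow_const hFc.norm ?_
        intro z hz
        exact Or.inl (hFn z (hSsub hz)).ne'
      · exact Real.continuous_exp.comp_continuousOn hwc.neg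
    · intro z hz _
      have hz' := hSsub (hUS hz)
      refine ⟨c₀ * fs (F z) (deriv F z) ^ 2 / 2 + 0 + δ, ?_, ?_⟩
      · have := hM.c₀_pos
        positivity
      · have h1 := Sub.norm_rpow (hFa z hz') (hF0 z hz') c₀
        have h2 := extB_sub_exp hg b (-1) (z₀ := z) hz'.2
        have h3 := Sub.exp_sq (t := fun z : ℂ => z) (z₀ := z) analyticAt_id δ
        have h4 : (δ * ‖deriv (fun z : ℂ => z) z‖ ^ 2) = δ := by
          rw [deriv_id'']
          simp
        rw [h4] at h3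
        refine ((h1.mul h2).mul h3).congr (Eventually.of_forall fun y => ?_)
        simp only [hw]
        rw [neg_one_mul]
    · intro z hz
      refine mul_le_mul (hsph1 z hz) ?_ (by positivity) (by positivity)
      rw [Real.exp_le_exp]
      have h1 : ‖z‖ ≤ 1 := (hz.1.2.trans_lt hr2).le
      have h2 : ‖z‖ ^ 2 ≤ 1 := by nlinarith [norm_nonneg z]
      nlinarith
  have hA' : ∀ z ∈ S, ‖F z‖ ^ c₀ * Real.exp (-(w z)) ≤ Real.exp 1 := by
    intro z hz
    have ht : Tendsto (fun δ : ℝ => Real.exp 1 * Real.exp δ) (𝓝[>] 0) (𝓝 (Real.exp 1 * Real.exp 0)) := by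
      apply tendsto_nhdsWithin_of_tendsto_nhds
      have hc : Continuous (fun δ : ℝ => Real.exp 1 * Real.exp δ) := by fun_prop
      exact hc.tendsto 0
    rw [Real.exp_zero, mul_one] at ht
    refine ge_of_tendsto ht ?_
    filter_upwards [self_mem_nhdsWithin] with δ hδ
    have hδ' : (0 : ℝ) < δ := hδ
    refine le_trans ?_ (hA δ hδ' z hz)
    refine le_mul_of_one_le_right (by positivity) ?_
    exact Real.one_le_exp (by positivity)
  -- part (b)
  have hC := hM.C_nonneg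
  set C' : ℝ := 4 * C * L ^ 2 + 1 with hC'
  have hC'0 : 0 < C' := by rw [hC']; positivity
  have hlog1 : 0 < Real.log (1 / r₁) := Real.log_pos (by rw [lt_div_iff₀ hr10]; linarith)
  have hlogz : ∀ z ∈ S, Real.log (1 / r₁) ≤ Real.log (1 / ‖z‖) := by
    intro z hz
    have hz0 : 0 < ‖z‖ := hr.trans_le hz.1
    exact Real.log_le_log (by positivity) (one_div_le_one_div_of_le hz0 hz.2)
  have hB : ∀ z ∈ S, mt G F z * (‖F z‖ ^ (-c₀) * Real.log (1 / ‖z‖) ^ (-C') * ‖z‖ * Real.exp (w z)) ≤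
      Real.exp 1 * L * Real.log (1 / r₁) ^ (-(C' + 1)) := by
    refine max_principle hSc hUo hUS ?_ ?_ (by positivity) ?_
    · refine extB_usc_mul ((mt_usc hM hopen hF).mono hSsub) ?_ ?_ ?_
      · refine ContinuousOn.mul (ContinuousOn.mul (ContinuousOn.mul ?_ ?_) (by fun_prop)) ?_
        · refine ContinuousOn.rpow_const hFc.norm ?_
          intro z hz
          exact Or.inl (hFn z (hSsub hz)).ne'
        · refine ContinuousOn.rpow_const ?_ ?_
          · refine ContinuousOn.log ?_ ?_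
            · refine ContinuousOn.div continuousOn_const continuous_norm.continuousOn ?_
              intro z hz
              exact norm_ne_zero_iff.mpr (hSsub hz).2
            · intro z hz
              have hz0 : 0 < ‖z‖ := hr.trans_le hz.1
              positivity
          · intro z hz
            exact Or.inl (hlog1.trans_le (hlogz z hz)).ne'
        · exact Real.continuous_exp.comp_continuousOn hwc
      · intro z hz
        exact mt_nonneg hM (hFK z (hSsub hz))
      · intro z hz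
        have h1 := hlog1.trans_le (hlogz z hz)
        have h2 := hFn z (hSsub hz)
        positivity
    · intro z hz hpos
      have hzS := hUS hz
      have hz' := hSsub hzS
      have hz0 : 0 < ‖z‖ := hr.trans_le hzS.1
      have hz1 : ‖z‖ < 1 := hzS.2.trans_lt hr2
      have hl := hlog1.trans_le (hlogz z hzS)
      have hmt0 : 0 ≤ mt G F z := mt_nonneg hM (hFK z hz')
      have hmtpos : 0 < mt G F z := by
        rcases hmt0.lt_or_eq with h | h
        · exact h
        · rw [← h, zero_mul] at hpos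
          exact absurd hpos (lt_irrefl _)
      have h1 := hM.sub F z (hFa z hz') (by
        filter_upwards [hopen.mem_nhds hz'] with y hy
        exact hFK y hy) hmtpos
      have h2 := Sub.log_rpow (z₀ := z) hz'.2 hz1 hC'0.le
      have h3 := Sub.of_holo (h := fun z : ℂ => z) (z₀ := z) analyticAt_id hz'.2
      have h4 := extB_sub_exp hg b 1 (z₀ := z) hz'.2
      refine ⟨_, ?_, (((h1.mul h2).mul h3).mul h4).congr (Eventually.of_forall fun y => ?_)⟩
      · rw [add_zero, add_zero]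
        have hmtL : mt G F z ≤ L / (‖z‖ * Real.log (1 / ‖z‖)) := by
          rw [le_div_iff₀ (by positivity)]
          exact hgr z hz'.2 hz1
        have hsq : mt G F z ^ 2 ≤ L ^ 2 / (‖z‖ ^ 2 * Real.log (1 / ‖z‖) ^ 2) := by
          calc mt G F z ^ 2 ≤ (L / (‖z‖ * Real.log (1 / ‖z‖))) ^ 2 := pow_le_pow_left₀ hmt0 hmtL 2
            _ = L ^ 2 / (‖z‖ ^ 2 * Real.log (1 / ‖z‖) ^ 2) := by rw [div_pow, mul_pow]
        have h5 : C * mt G F z ^ 2 ≤ C * (L ^ 2 / (‖z‖ ^ 2 * Real.log (1 / ‖z‖) ^ 2)) :=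
          mul_le_mul_of_nonneg_left hsq hC
        have h6 : C' / (4 * ‖z‖ ^ 2 * Real.log (1 / ‖z‖) ^ 2) =
            C * (L ^ 2 / (‖z‖ ^ 2 * Real.log (1 / ‖z‖) ^ 2)) + 1 / (4 * ‖z‖ ^ 2 * Real.log (1 / ‖z‖) ^ 2) := by
          rw [hC']
          field_simp
        rw [h6]
        have h7 : 0 < 1 / (4 * ‖z‖ ^ 2 * Real.log (1 / ‖z‖) ^ 2) := by positivity
        linarith
      · simp only [hw]
        rw [one_mul]
        ring
    · intro z hz
      have hzS := hz.1
      have hz' := hSsub hzS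
      have hz0 : 0 < ‖z‖ := hr.trans_le hzS.1
      have hz1 : ‖z‖ < 1 := hzS.2.trans_lt hr2
      have hl := hlog1.trans_le (hlogz z hzS)
      have hmt0 : 0 ≤ mt G F z := mt_nonneg hM (hFK z hz')
      have h1 : Real.log (1 / ‖z‖) ^ (-C') = Real.log (1 / ‖z‖) * Real.log (1 / ‖z‖) ^ (-(C' + 1)) := by
        have : (-C') = 1 + (-(C' + 1)) := by ring
        rw [this, Real.rpow_add hl, Real.rpow_one]
      have h2 : Real.log (1 / ‖z‖) ^ (-(C' + 1)) ≤ Real.log (1 / r₁) ^ (-(C' + 1)) :=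
        Real.rpow_le_rpow_of_nonpos hlog1 (hlogz z hzS) (by linarith)
      have h3 := hgr z hz'.2 hz1
      have h4 := hsph2 z hz
      have h5 : 0 ≤ Real.log (1 / ‖z‖) ^ (-(C' + 1)) := Real.rpow_nonneg hl.le _
      have h6 : 0 ≤ ‖F z‖ ^ (-c₀) * Real.exp (w z) := by
        have := hFn z hz'
        positivity
      calc mt G F z * (‖F z‖ ^ (-c₀) * Real.log (1 / ‖z‖) ^ (-C') * ‖z‖ * Real.exp (w z))
          = (mt G F z * (‖z‖ * Real.log (1 / ‖z‖))) * (‖F z‖ ^ (-c₀) * Real.exp (w z)) *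
            Real.log (1 / ‖z‖) ^ (-(C' + 1)) := by rw [h1]; ring
        _ ≤ L * Real.exp 1 * Real.log (1 / r₁) ^ (-(C' + 1)) := by
          refine mul_le_mul (mul_le_mul h3 h4 h6 hL.le) h2 h5 (by positivity)
        _ = Real.exp 1 * L * Real.log (1 / r₁) ^ (-(C' + 1)) := by ring
  refine ⟨g, b, hg, fun z hz1 hz2 => ?_⟩
  have hzS : z ∈ S := ⟨hz1, hz2⟩
  have hz' := hSsub hzS
  constructor
  · have h1 := hA' z hzS
    have h2 : ‖F z‖ ^ c₀ = ‖F z‖ ^ c₀ * Real.exp (-(w z)) * Real.exp (w z) := by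
      rw [mul_assoc, ← Real.exp_add]
      simp
    rw [h2]
    exact mul_le_mul_of_nonneg_right h1 (Real.exp_nonneg _)
  · have h1 := hB z hzS
    have h2 : ‖F z‖ ^ (-c₀) * ‖F z‖ ^ c₀ = 1 := by
      rw [← Real.rpow_add (hFn z hz')]
      simp
    have h3 : (4 * C * L ^ 2 + 2) = C' + 1 := by rw [hC']; ring
    rw [h3]
    have h4 : 0 ≤ ‖F z‖ ^ c₀ := Real.rpow_nonneg (norm_nonneg _) _
    calc mt G F z * Real.log (1 / ‖z‖) ^ (-C') * ‖z‖ * Real.exp ((g z).re + b * Real.log ‖z‖)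
        = mt G F z * Real.log (1 / ‖z‖) ^ (-C') * ‖z‖ * Real.exp (w z) * (‖F z‖ ^ (-c₀) * ‖F z‖ ^ c₀) := by
          rw [h2, mul_one]
      _ = mt G F z * (‖F z‖ ^ (-c₀) * Real.log (1 / ‖z‖) ^ (-C') * ‖z‖ * Real.exp (w z)) * ‖F z‖ ^ c₀ := by ring
      _ ≤ Real.exp 1 * L * Real.log (1 / r₁) ^ (-(C' + 1)) * ‖F z‖ ^ c₀ := mul_le_mul_of_nonneg_right h1 h4

end Pool.Agent.H36.BP

end
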