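import Pool.Agent.H94.G6.M116
import Pool.Agent.H94.G6.M51
import Pool.Agent.H94.G6.M66
import Pool.Agent.H94.G6.M79
import Pool.Agent.H94.G6.M96

/-! The parts of this file: H22.W.Scale, SY.C, SG.DuvA, SG.DuvB. -/

section

/-!
# W Scale: curves of order two on surfaces with a nonpositively curved pseudo-length
-/

set_option autoImplicit false

open Topology Filter Metric

namespace Pool.Agent.H22.W

open Pool.Agent.H36.BP (EN fs wd)
open Pool.Agent.H14.PP (IsCone Chart Form Tan)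
open Pool.Agent.H62.EF (Charts)

variable {N : ℕ} {X : Set (EN N)}

/-- the square of the length of the derivative of an entire curve is at most its means over circles -/
theorem subMean_curve (n : PseudoLength X) {F : ℂ → EN N} (hF : Differentiable ℂ F) (hFX : ∀ z, F z ∈ X) :
    SubMean fun z => n.toFun (F z) (deriv F z) ^ 2 := fun c r hr =>
  n.curved Set.univ F isOpen_univ hF.differentiableOn (fun z _ => hFX z) c r hr (Set.subset_univ _)

/-- **The length of the derivative of an entire curve of order two is constant.** -/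
theorem const_length (hX : IsCone X) (hch : Charts X) (n : PseudoLength X) {F : ℂ → EN N} (hF : Differentiable ℂ F)
    (hFX : ∀ z, F z ∈ X) {A : ℝ}
    (hA : ∀ r : ℝ, 0 < r → Real.circleAverage (fun z => Real.log ‖F z‖) 0 r ≤ A * (1 + r ^ 2)) (z w : ℂ) :
    n.toFun (F z) (deriv F z) = n.toFun (F w) (deriv F w) := by
  obtain ⟨C, hC, hb⟩ := n.bound hX hch
  have h0 : ∀ z, F z ≠ 0 := fun z h => hX.zero_notMem (h ▸ hFX z)
  have hn0 : ∀ z, 0 ≤ n.toFun (F z) (deriv F z) := fun z => n.nonneg _ _ (tan_entire hF hFX z)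
  have h1 := const_of_orderTwo hF h0 ((n.continuous_curve hF hFX).pow 2) (subMean_curve n hF hFX)
    (fun z => sq_nonneg _) (C := C ^ 2) (fun z => by
      rw [← mul_pow]
      exact pow_le_pow_left₀ (hn0 z) (hb _ _ (tan_entire hF hFX z)) 2) hA z w
  exact (pow_left_inj₀ (hn0 z) (hn0 w) two_ne_zero).1 h1

/-- a lower bound of the derivative -/
theorem exists_lower (hX : IsCone X) (hch : Charts X) (n : PseudoLength X) {b : ℝ} (hb : 0 < b) :
    ∃ c : ℝ, 0 < c ∧ ∀ F : ℂ → EN N, Differentiable ℂ F → (∀ z, F z ∈ X) →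
      (∀ z, n.toFun (F z) (deriv F z) = b) → ∀ z, c ≤ fs (F z) (deriv F z) := by
  obtain ⟨C, hC, hbd⟩ := n.bound hX hch
  refine ⟨b / C, div_pos hb hC, fun F hF hFX h z => ?_⟩
  have h1 := hbd _ _ (tan_entire hF hFX z)
  rw [h z] at h1
  rw [div_le_iff₀ hC]
  linarith

end Pool.Agent.H22.W

end

section

/-!
# SY C: the good points are everywhere

Entire curves `F` of constant length one and `g F ≤ C₁` which are not contained in `T`: there are `d > 0` and a radius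
`R` such that every disc of radius `R` contains a point `y` with `d ≤ g F y`.  Otherwise there are discs without good
points and with radii tending to infinity; put a nearest good point at the origin.  In the half plane `g F_n` tends to
zero (`decay`), the curves converge (`exists_limit`) to a curve which is not in `T`, against the lower bound.
-/

set_option autoImplicit false

open Topology Filter Metric

namespace Pool.Agent.SY

open Pool.Agent.H36.BP (EN fs wd wd_le fs_inv fs_smul_right Sub Sub.mul Sub.anti Sub.congr Sub.norm_rpow)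
open Pool.Agent.H14.PP (IsCone)
open Pool.Agent.H62.EF (Charts)
open Pool.Agent.H22.W (PseudoLength tan_entire exists_lower)

variable {N : ℕ} {X T : Set (EN N)} {rho : EN N → ℝ} {M : ℕ} {c₀ C : ℝ} {g : (ℂ → EN N) → ℂ → ℝ}

/-- the derivative of `F (a z + b)` -/
theorem deriv_aff {F : ℂ → EN N} (hF : Differentiable ℂ F) (a b z : ℂ) :
    deriv (fun z => F (a * z + b)) z = a • deriv F (a * z + b) := by
  have h1 : HasDerivAt (fun z : ℂ => a * z + b) a z := by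
    simpa using ((hasDerivAt_id z).const_mul a).add_const b
  exact (HasDerivAt.scomp z (hF (a * z + b)).hasDerivAt h1).deriv

theorem Ent.aff {V : Type} [NormedAddCommGroup V] [NormedSpace ℂ V] {X T : Set V} {F : ℂ → V} (hF : Ent X T F)
    {a : ℂ} (ha : a ≠ 0) (b : ℂ) : Ent X T (fun z => F (a * z + b)) :=
  ⟨hF.diff.comp ((differentiable_id.const_mul a).add_const b), fun z => hF.mem _, by
    obtain ⟨z, hz⟩ := hF.out
    refine ⟨(z - b) / a, ?_⟩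
    rwa [mul_div_cancel₀ _ ha, sub_add_cancel]⟩

theorem Cls.aff {n : PseudoLength X} {F : ℂ → EN N} (hF : Cls T n F) {a : ℂ} (ha : ‖a‖ = 1) (b : ℂ) :
    Cls T n (fun z => F (a * z + b)) := by
  have ha0 : a ≠ 0 := fun h => by
    rw [h, norm_zero] at ha
    exact zero_ne_one ha
  refine ⟨hF.1.aff ha0 b, fun z => ?_⟩
  rw [deriv_aff hF.1.diff, n.smul _ _ (tan_entire hF.1.diff hF.1.mem _), ha, one_mul]
  exact hF.2 _

theorem norm_mul_fs_le {x v : EN N} (hx : x ≠ 0) (a : ℂ) : ‖x‖ * fs x v ≤ ‖v - a • x‖ := by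
  have hn : 0 < ‖x‖ := norm_pos_iff.2 hx
  have h1 : fs x (v - a • x) = fs x v := by
    have h2 := fs_inv hx v (c := 1) one_ne_zero (-a)
    rw [one_smul, one_smul, neg_smul, ← sub_eq_add_neg] at h2
    exact h2
  rw [← h1]
  unfold fs
  have h3 := wd_le x (v - a • x)
  rw [← mul_div_assoc, div_le_iff₀ (by positivity)]
  nlinarith only [hn, h3]

/-- the lower bound with the Fubini-Study length -/
theorem Energy.lower_fs (hX : IsCone X) {nu : EN N → ℝ} (E : Energy X T nu rho M c₀ C g) (hρ0 : ∀ x ∈ X, 0 ≤ rho x)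
    {F : ℂ → EN N} (hF : Ent X T F) (z : ℂ) : rho (F z) ^ M * fs (F z) (deriv F z) ≤ C * g F z := by
  have hne : F z ≠ 0 := fun h => hX.zero_notMem (h ▸ hF.mem z)
  have hn : 0 < ‖F z‖ := norm_pos_iff.2 hne
  obtain ⟨a, ha⟩ := E.lower F hF z
  have h1 := mul_le_mul_of_nonneg_left (norm_mul_fs_le (v := deriv F z) hne a)
    (pow_nonneg (hρ0 _ (hF.mem z)) M)
  have h2 : ‖F z‖ * (rho (F z) ^ M * fs (F z) (deriv F z)) ≤ ‖F z‖ * (C * g F z) := by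
    calc ‖F z‖ * (rho (F z) ^ M * fs (F z) (deriv F z)) = rho (F z) ^ M * (‖F z‖ * fs (F z) (deriv F z)) := by ring
      _ ≤ C * ‖F z‖ * g F z := h1.trans ha
      _ = ‖F z‖ * (C * g F z) := by ring
  exact le_of_mul_le_mul_left h2 hn

/-- the metric has large Laplacian where it is small -/
theorem Energy.sub_small (hX : IsCone X) (E : Energy X T (fun x => ‖x‖) rho M c₀ C g) {F : ℂ → EN N} (hF : Ent X T F)
    {c₁ d : ℝ} (hc₁ : 0 < c₁) (h1 : ∀ z, c₁ ≤ fs (F z) (deriv F z)) (hd : C * d ^ 2 ≤ c₀ * c₁ ^ 2 / 4) (z : ℂ)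
    (h0 : 0 < g F z) (h2 : g F z < d) : Sub (g F) z (c₀ * c₁ ^ 2 / 4) := by
  have hne : ∀ w, F w ≠ 0 := fun w h => hX.zero_notMem (h ▸ hF.mem w)
  have h3 := (E.sub F hF z h0).mul (Sub.norm_rpow (hF.diff.analyticAt z) (hne z) c₀)
  have h4 : Sub (g F) z (-(C * g F z ^ 2) + c₀ * fs (F z) (deriv F z) ^ 2 / 2) := by
    refine h3.congr (Eventually.of_forall fun w => ?_)
    have h5 : 0 < ‖F w‖ := norm_pos_iff.2 (hne w)
    show g F w * ‖F w‖ ^ (-c₀) * ‖F w‖ ^ c₀ = g F w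
    rw [mul_assoc, ← Real.rpow_add h5, neg_add_cancel, Real.rpow_zero, mul_one]
  refine h4.anti ?_
  have h5 : g F z ^ 2 ≤ d ^ 2 := by nlinarith only [h0, h2]
  have h6 : c₁ ^ 2 ≤ fs (F z) (deriv F z) ^ 2 := by nlinarith only [hc₁, h1, h1 z]
  nlinarith only [hd, h5, E, h6, mul_le_mul_of_nonneg_left h5 E.C_pos.le, mul_le_mul_of_nonneg_left h6 E.c₀_pos.le]

/-- the good points are everywhere -/
theorem exists_good (hX : IsCone X) (hch : Charts X) (E : Energy X T (fun x => ‖x‖) rho M c₀ C g) (n : PseudoLength X)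
    (hρ0 : ∀ x ∈ X, 0 ≤ rho x) (hρ : ∀ x ∈ X, x ∉ T → 0 < rho x) (hρc : ContinuousOn rho X)
    (hρs : ∀ x ∈ X, ∀ c : ℂ, c ≠ 0 → rho (c • x) = rho x)
    (hTi : ∀ F : ℂ → EN N, Differentiable ℂ F → (∀ z, F z ∈ X) → (∃ z, F z ∉ T) → ∀ z₀, ∀ᶠ z in 𝓝[≠] z₀, F z ∉ T)
    (hTs : ∀ x ∈ T, ∀ c : ℂ, c ≠ 0 → c • x ∈ T)
    {C₁ : ℝ} (hA : ∀ F, Cls T n F → ∀ z, g F z ≤ C₁) :
    ∃ d R : ℝ, 0 < d ∧ 0 < R ∧ ∀ F, Cls T n F → ∀ z, ∃ y, ‖y - z‖ ≤ R ∧ d ≤ g F y := by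
  classical
  obtain ⟨c₁, hc₁, hlow1⟩ := exists_lower hX hch n one_pos
  have hne : ∀ x ∈ X, x ≠ 0 := fun x hx h => hX.zero_notMem (h ▸ hx)
  have hc₀ := E.c₀_pos
  have hC := E.C_pos
  set κ : ℝ := c₀ * c₁ ^ 2 / 4 with hκdef
  have hκ : 0 < κ := by positivity
  set d : ℝ := Real.sqrt (κ / (C + 1)) with hddef
  have hd : 0 < d := Real.sqrt_pos.2 (by positivity)
  have hd2 : C * d ^ 2 ≤ κ := by
    rw [hddef, Real.sq_sqrt (by positivity), ← mul_div_assoc, div_le_iff₀ (by linarith)]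
    nlinarith only [hκ]
  by_contra hcon
  push Not at hcon
  have hcon' : ∀ k : ℕ, ∃ F, Cls T n F ∧ ∃ z, ∀ y, ‖y - z‖ ≤ (k : ℝ) + 1 → g F y < d := by
    intro k
    obtain ⟨F, h1, z, h2⟩ := hcon d ((k : ℝ) + 1) hd (by positivity)
    exact ⟨F, h1, z, h2⟩
  choose F hF z hz using hcon'
  have hA0 : 0 ≤ C₁ := (E.nonneg _ (hF 0).1 0).trans (hA _ (hF 0) 0)
  have hF1 : ∀ k w, c₁ ≤ fs (F k w) (deriv (F k) w) := fun k =>
    hlow1 _ (hF k).1.diff (hF k).1.mem (hF k).2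
  -- the metric is positive somewhere
  have hpos : ∀ k, ∃ p, 0 < g (F k) p := by
    intro k
    obtain ⟨p, hp⟩ := (hF k).1.out
    refine ⟨p, ?_⟩
    have h1 := E.lower_fs hX hρ0 (hF k).1 p
    have h2 : 0 < rho (F k p) ^ M * fs (F k p) (deriv (F k) p) :=
      mul_pos (pow_pos (hρ _ ((hF k).1.mem p) hp) M) (hc₁.trans_le (hF1 k p))
    by_contra h3
    have h4 : g (F k) p ≤ 0 := not_lt.1 h3
    have h5 : C * g (F k) p ≤ 0 := mul_nonpos_of_nonneg_of_nonpos hC.le h4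
    linarith only [h1, h2, h5]
  have husc : ∀ k, UpperSemicontinuous (g (F k)) := fun k w a ha => E.usc _ (hF k).1 w a ha
  have hsub : ∀ k, ∀ w, 0 < g (F k) w → g (F k) w < d → Sub (g (F k)) w κ := fun k w =>
    E.sub_small hX (hF k).1 hc₁ (hF1 k) hd2 w
  -- the nearest good points
  have hgood : ∀ k, ∃ y, d ≤ g (F k) y ∧ (k : ℝ) + 1 ≤ dist (z k) y ∧
      ∀ w, dist (z k) w < dist (z k) y → g (F k) w < d := by
    intro k
    have hcl : IsClosed {y | d ≤ g (F k) y} := (husc k).isClosed_preimage d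
    obtain ⟨p, hp⟩ := hpos k
    obtain ⟨y₀, hy₀⟩ := exists_ge hκ hA0 (husc k) (hA _ (hF k)) (hsub k) hp
    obtain ⟨y, hy, hyd⟩ := hcl.exists_infDist_eq_dist ⟨y₀, hy₀⟩ (z k)
    refine ⟨y, hy, ?_, fun w hw => ?_⟩
    · by_contra h1
      have h2 := hz k y (by rw [← dist_eq_norm, dist_comm]; exact (not_le.1 h1).le)
      exact absurd hy (not_le.2 h2)
    · by_contra h1
      have h2 : w ∈ {y | d ≤ g (F k) y} := not_lt.1 h1
      have h3 := infDist_le_dist_of_mem (x := z k) h2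
      rw [hyd] at h3
      linarith only [hw, h3]
  choose y hyd hyr hyl using hgood
  set ρ : ℕ → ℝ := fun k => dist (z k) (y k) with hρdef
  have hρpos : ∀ k, 0 < ρ k := fun k => lt_of_lt_of_le (by positivity) (hyr k)
  set u : ℕ → ℂ := fun k => (z k - y k) / (ρ k : ℂ) with hu
  have hρc' : ∀ k, (ρ k : ℂ) ≠ 0 := fun k => by exact_mod_cast (hρpos k).ne'
  have hun : ∀ k, ‖u k‖ = 1 := by
    intro k
    rw [hu]
    show ‖(z k - y k) / (ρ k : ℂ)‖ = 1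
    rw [norm_div, Complex.norm_real, Real.norm_of_nonneg (hρpos k).le, ← dist_eq_norm]
    exact div_self (hρpos k).ne'
  have hu0 : ∀ k, u k ≠ 0 := fun k h => by
    have := hun k
    rw [h, norm_zero] at this
    exact zero_ne_one this
  set G : ℕ → ℂ → EN N := fun k ζ => F k (u k * ζ + y k) with hG
  have hGC : ∀ k, Cls T n (G k) := fun k => (hF k).aff (hun k) (y k)
  have hgG : ∀ k ζ, g (G k) ζ = g (F k) (u k * ζ + y k) := by
    intro k ζ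
    rw [hG, E.aff _ (hF k).1 _ _ (hu0 k), hun k, one_mul]
  have hG1 : ∀ k ζ, c₁ ≤ fs (G k ζ) (deriv (G k) ζ) := fun k =>
    hlow1 _ (hGC k).1.diff (hGC k).1.mem (hGC k).2
  have hG0 : ∀ k, d ≤ g (G k) 0 := by
    intro k
    rw [hgG, mul_zero, zero_add]
    exact hyd k
  have hGA : ∀ k ζ, g (G k) ζ ≤ C₁ := fun k ζ => hA _ (hGC k) ζ
  have hGs : ∀ k, ∀ w ∈ ball (ρ k : ℂ) (ρ k), g (G k) w < d := by
    intro k w hw
    rw [hgG]
    apply hyl k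
    have h1 : u k * (ρ k : ℂ) = z k - y k := by
      rw [hu]
      exact div_mul_cancel₀ _ (hρc' k)
    have h2 : z k - (u k * w + y k) = -(u k * (w - ρ k)) := by
      rw [mul_sub, h1]
      ring
    rw [dist_eq_norm, h2, norm_neg, norm_mul, hun k, one_mul, ← dist_eq_norm]
    exact hw
  have hbd : ∀ k, ∀ p ∈ closedBall (ρ k : ℂ) (ρ k),
      g (G k) p ≤ C₁ * Real.exp (-(κ / 2) * (ρ k ^ 2 - ‖p - (ρ k : ℂ)‖ ^ 2)) := fun k =>
    decay (hρpos k) hκ hA0 (E.uscOn (hGC k).1 _) (fun w _ => hGA k w)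
      (fun w hw h0 => E.sub_small hX (hGC k).1 hc₁ (hG1 k) hd2 w h0 (hGs k w hw))
  -- the limit
  obtain ⟨H, hHd, hHX, -, hHT, -, hR⟩ := exists_limit hX hTs E (hyperfilter ℕ) Nat.hyperfilter_le_atTop G
    (fun k => (hGC k).1) hd (fun k w _ => hGA k w) hG0
  obtain ⟨v, HR, hv, hHc, hHRd, -, hloc⟩ := hR 1 le_rfl
  -- a point of the half plane where the limit is not in `T`
  have hmem : (1 / 2 : ℂ) ∈ ball (0 : ℂ) ((1 : ℕ) : ℝ) := by
    rw [mem_ball_zero_iff]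
    norm_num
  obtain ⟨j, w, hw, hw0, hwe⟩ := hloc (1 / 2) hmem
  have hball : ball (1 / 2 : ℂ) (1 / 4) ∈ 𝓝 (1 / 2 : ℂ) := ball_mem_nhds _ (by norm_num)
  obtain ⟨p, ⟨⟨⟨hpT, hpe⟩, hpw⟩, hpb⟩, hpne⟩ := ((((hTi H hHd hHX hHT (1 / 2)).and
    (hwe.filter_mono nhdsWithin_le_nhds)).and
    ((hw.continuousAt.eventually_ne hw0).filter_mono nhdsWithin_le_nhds)).and
    (nhdsWithin_le_nhds hball)).and self_mem_nhdsWithin |>.exists
  have hp1 : p ∈ ball (0 : ℂ) ((1 : ℕ) : ℝ) := by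
    rw [mem_ball_zero_iff]
    have h1 : ‖p - 1 / 2‖ < 1 / 4 := by rw [← dist_eq_norm]; exact hpb
    have h2 : ‖p‖ ≤ ‖p - 1 / 2‖ + ‖(1 / 2 : ℂ)‖ := by
      simpa using norm_add_le (p - 1 / 2) (1 / 2 : ℂ)
    have h3 : ‖(1 / 2 : ℂ)‖ = 1 / 2 := by norm_num
    rw [h3] at h2
    push_cast
    linarith only [h1, h2]
  have hpre : 1 / 4 < p.re := by
    have h1 : ‖p - 1 / 2‖ < 1 / 4 := by rw [← dist_eq_norm]; exact hpb
    have h2 := (Complex.abs_re_le_norm (p - 1 / 2)).trans_lt h1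
    rw [Complex.sub_re] at h2
    norm_num at h2
    have h3 := (abs_lt.1 h2).1
    linarith only [h3]
  have hcp : (p - 1 / 2) ^ j * w p ≠ 0 := mul_ne_zero (pow_ne_zero _ (sub_ne_zero.2 hpne)) hpw
  have hHRp : HR p = ((p - 1 / 2) ^ j * w p) • H p := by rw [hpe, smul_smul]
  have hHRX : HR p ∈ X := by
    rw [hHRp]
    exact hX.smul_mem _ (hHX p) _ hcp
  have hHRT : HR p ∉ T := by
    intro h
    rw [hHRp] at h
    have h1 := hTs _ h _ (inv_ne_zero hcp)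
    rw [smul_smul, inv_mul_cancel₀ hcp, one_smul] at h1
    exact hpT h1
  set q : ℝ := rho (HR p) with hq
  have hq0 : 0 < q := hρ _ hHRX hHRT
  have hconv : Tendsto (fun k => rho (Complex.exp (v k p) • G k p)) (hyperfilter ℕ : Filter ℕ) (𝓝 q) := by
    have h1 : Tendsto (fun k => Complex.exp (v k p) • G k p) (hyperfilter ℕ : Filter ℕ) (𝓝[X] (HR p)) :=
      tendsto_nhdsWithin_iff.2 ⟨hHc.tendsto_at hp1, Eventually.of_forall fun k =>
        hX.smul_mem _ ((hGC k).1.mem p) _ (Complex.exp_ne_zero _)⟩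
    exact (hρc _ hHRX).tendsto.comp h1
  have hlow : ∀ᶠ k in (hyperfilter ℕ : Filter ℕ), (q / 2) ^ M * c₁ ≤ C * g (G k) p := by
    filter_upwards [hconv.eventually (lt_mem_nhds (by linarith only [hq0] : q / 2 < q))] with k hk
    rw [hρs _ ((hGC k).1.mem p) _ (Complex.exp_ne_zero _)] at hk
    refine le_trans ?_ (E.lower_fs hX hρ0 (hGC k).1 p)
    exact mul_le_mul (pow_le_pow_left₀ (by positivity) hk.le M) (hG1 k p) hc₁.le
      (pow_nonneg (hρ0 _ ((hGC k).1.mem p)) M)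
  -- the metric tends to zero at `p`
  have hup : ∀ k : ℕ, g (G k) p ≤ C₁ * Real.exp (-(κ / 2) * ((k : ℝ) / 2 - 1)) := by
    intro k
    have hnorm : ‖p - (ρ k : ℂ)‖ ^ 2 = ‖p‖ ^ 2 - 2 * ρ k * p.re + ρ k ^ 2 := by
      rw [← Complex.normSq_eq_norm_sq, ← Complex.normSq_eq_norm_sq, Complex.normSq_apply,
        Complex.normSq_apply]
      simp only [Complex.sub_re, Complex.sub_im, Complex.ofReal_re, Complex.ofReal_im, sub_zero]
      ring
    have hp2 : ‖p‖ ^ 2 ≤ 1 := by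
      have h1 : ‖p‖ < 1 := by
        rw [mem_ball_zero_iff] at hp1
        simpa using hp1
      exact pow_le_one₀ (norm_nonneg _) h1.le
    have hρn : (k : ℝ) + 1 ≤ ρ k := hyr k
    have h1 : (k : ℝ) / 2 - 1 ≤ ρ k ^ 2 - ‖p - (ρ k : ℂ)‖ ^ 2 := by
      rw [hnorm]
      nlinarith only [hpre, hp2, hρn, hρpos k]
    by_cases hin : p ∈ closedBall (ρ k : ℂ) (ρ k)
    · refine (hbd k p hin).trans (mul_le_mul_of_nonneg_left (Real.exp_le_exp.2 ?_) hA0)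
      nlinarith only [hκ, h1]
    · have h2 : ρ k < ‖p - (ρ k : ℂ)‖ := by
        rw [mem_closedBall, dist_eq_norm] at hin
        exact not_le.1 hin
      have h3 : ρ k ^ 2 < ‖p - (ρ k : ℂ)‖ ^ 2 := by nlinarith only [h2, hρn, hρpos k]
      refine (hGA k p).trans ?_
      refine le_mul_of_one_le_right hA0 (Real.one_le_exp ?_)
      nlinarith only [hκ, h1, h3]
  have hlim0 : Tendsto (fun k : ℕ => C * (C₁ * Real.exp (-(κ / 2) * ((k : ℝ) / 2 - 1)))) atTop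
      (𝓝 (C * (C₁ * 0))) := by
    refine Tendsto.const_mul C (Tendsto.const_mul C₁ (Real.tendsto_exp_atBot.comp ?_))
    have h4 : Tendsto (fun k : ℕ => (k : ℝ) / 2 - 1) atTop atTop :=
      tendsto_atTop_add_const_right _ _
        ((tendsto_natCast_atTop_atTop (R := ℝ)).atTop_div_const two_pos)
    exact h4.const_mul_atTop_of_neg (by linarith only [hκ])
  rw [mul_zero, mul_zero] at hlim0
  have hlim1 : Tendsto (fun k : ℕ => C * (C₁ * Real.exp (-(κ / 2) * ((k : ℝ) / 2 - 1))))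
      (hyperfilter ℕ : Filter ℕ) (𝓝 0) := hlim0.mono_left Nat.hyperfilter_le_atTop
  have hfin : (q / 2) ^ M * c₁ ≤ 0 := by
    refine ge_of_tendsto hlim1 ?_
    filter_upwards [hlow] with k hk
    exact hk.trans (mul_le_mul_of_nonneg_left (hup k) hC.le)
  have : 0 < (q / 2) ^ M * c₁ := by positivity
  linarith only [hfin, this]

end Pool.Agent.SY

end

section

/-!
# SG DuvA: a pseudo-length near a smooth rational curve with self-intersection `-2`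
-/

set_option autoImplicit false

open Topology Filter Metric

noncomputable section

namespace Pool.Agent.SG

open Pool.Agent.H36.BP (EN fs)
open Pool.Agent.H14.PP (IsCone Tan CurveAt)
open Pool.Agent.H17BP (IsChart Pr)
open Pool.Agent.H22.W (PseudoLength tan_curve)
open Pool.Agent.H62.EF (Charts)
open Pool.Agent.SY (norm_mul_fs_le)

variable {N : ℕ} {X : Set (EN N)}

/-- the circle mean is at most the maximum -/
theorem le_of_circleAverage {f : ℂ → ℝ} {c : ℂ} {r B a : ℝ} (hr : 0 < r) (h : a ≤ Real.circleAverage f c r)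
    (hf : ∀ z, ‖z - c‖ = r → f z ≤ B) (hB : 0 ≤ B) : a ≤ B := by
  by_cases hi : CircleIntegrable f c r
  · refine h.trans (Real.circleAverage_mono_on_of_le_circle hi fun z hz => hf z ?_)
    rwa [abs_of_pos hr, mem_sphere_iff_norm] at hz
  · have h1 : Real.circleAverage f c r = 0 := by
      rw [Real.circleAverage_def, intervalIntegral.integral_undef hi, smul_zero]
    linarith

/-- the bound of a pseudo-length by a norm of the tangent vector modulo the point -/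
theorem exists_norm_bound (hX : IsCone X) (hch : Charts X) (n : PseudoLength X) :
    ∃ C : ℝ, 0 < C ∧ ∀ x v, Tan X x v → ∀ α : ℂ, ‖x‖ * n.toFun x v ≤ C * ‖v - α • x‖ := by
  obtain ⟨C, hC, h⟩ := n.bound hX hch
  refine ⟨C, hC, fun x v hv α => ?_⟩
  have hx : x ≠ 0 := hX.ne_zero (Pool.Agent.H22.W.tan_mem hv)
  calc ‖x‖ * n.toFun x v ≤ ‖x‖ * (C * fs x v) := by
        have := h x v hv
        gcongr
    _ = C * (‖x‖ * fs x v) := by ring
    _ ≤ C * ‖v - α • x‖ := by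
        have := norm_mul_fs_le (v := v) hx α
        gcongr

/-- the estimate on the circles -/
theorem duv_circle (hX : IsCone X) (hch : Charts X) (n : PseudoLength X) {σ : ℂ × ℂ → EN N} {τ : EN N → ℂ × ℂ} {Φ G : ℂ × ℂ → EN N}
    {d : ℕ} (h : MinusTwo X σ τ Φ G d) :
    ∃ C ρ : ℝ, 0 < C ∧ 0 < ρ ∧ ρ ≤ 1 / 4 ∧ ∀ (R : ℝ) (q w : ℂ × ℂ) (z : ℂ), 0 < R → R ≤ ρ → ‖q‖ ≤ R / 2 → ‖w‖ = 1 → ‖z‖ = R →
      n.toFun (Φ (q + z • w)) (deriv (fun y : ℂ => Φ (q + y • w)) z) ≤ C * (R + ‖q‖ / R ^ 2) := by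
  obtain ⟨Cn, hCn, hn⟩ := exists_norm_bound hX hch n
  obtain ⟨Cr, hr⟩ := h.rem
  -- the lower bound of `G`
  obtain ⟨g₀, hg₀, hG0⟩ : ∃ g₀ : ℝ, 0 < g₀ ∧ ∀ p : ℂ × ℂ, g₀ * ‖p‖ ^ d ≤ ‖G p‖ := by
    have hc : ContinuousOn (fun p => ‖G p‖) (sphere (0 : ℂ × ℂ) 1) := fun p _ => (h.G_an p).continuousAt.norm.continuousWithinAt
    obtain ⟨p₀, hp₀, hmin⟩ := (isCompact_sphere (0 : ℂ × ℂ) 1).exists_isMinOn (NormedSpace.sphere_nonempty.2 zero_le_one) hc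
    have hp1 : ‖p₀‖ = 1 := by simpa using hp₀
    have hp0 : p₀ ≠ 0 := by
      rw [← norm_pos_iff, hp1]
      exact one_pos
    refine ⟨‖G p₀‖, norm_pos_iff.2 (h.G_ne p₀ hp0), fun p => ?_⟩
    by_cases hp : p = 0
    · rcases Nat.eq_zero_or_pos d with hd | hd
      · subst hd
        have e1 : G p = G p₀ := by
          have e2 := h.G_smul 0 p₀
          rw [zero_smul, pow_zero, one_smul] at e2
          rw [hp, e2]
        rw [e1, pow_zero, mul_one]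
      · rw [hp, norm_zero, zero_pow hd.ne', mul_zero]
        exact norm_nonneg _
    · have hpn : (0 : ℝ) < ‖p‖ := norm_pos_iff.2 hp
      have hpc : ((‖p‖ : ℝ) : ℂ) ≠ 0 := by exact_mod_cast hpn.ne'
      have e1 : p = ((‖p‖ : ℝ) : ℂ) • (((‖p‖ : ℝ) : ℂ)⁻¹ • p) := by
        rw [smul_smul, mul_inv_cancel₀ hpc, one_smul]
      have e2 : ‖(((‖p‖ : ℝ) : ℂ)⁻¹ • p)‖ = 1 := by
        rw [norm_smul, norm_inv, Complex.norm_real, norm_norm, inv_mul_cancel₀ hpn.ne']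
      have e3 : ‖G p‖ = ‖p‖ ^ d * ‖G (((‖p‖ : ℝ) : ℂ)⁻¹ • p)‖ := by
        conv_lhs => rw [e1]
        rw [h.G_smul, norm_smul, norm_pow, Complex.norm_real, norm_norm]
      rw [e3, mul_comm]
      have e4 : ‖G p₀‖ ≤ ‖G (((‖p‖ : ℝ) : ℂ)⁻¹ • p)‖ := hmin (by simpa using e2)
      gcongr
  -- the bound of the derivative of `G`
  obtain ⟨Bg, hBg0, hBg⟩ : ∃ Bg : ℝ, 0 < Bg ∧ ∀ p ∈ closedBall (0 : ℂ × ℂ) 2, ‖fderiv ℂ G p‖ ≤ Bg := by
    have hc : ContinuousOn (fderiv ℂ G) (closedBall (0 : ℂ × ℂ) 2) := fun p _ => (h.G_an p).fderiv.continuousAt.continuousWithinAt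
    obtain ⟨B, hB⟩ := (isCompact_closedBall (0 : ℂ × ℂ) 2).exists_bound_of_continuousOn hc
    exact ⟨|B| + 1, by positivity, fun p hp => (hB p hp).trans ((le_abs_self _).trans (by linarith))⟩
  set Cr' : ℝ := |Cr| + 1 with hCr'
  have hCr0 : 0 < Cr' := by positivity
  have hr' : ∀ p ∈ ball (0 : ℂ × ℂ) 1, ‖Φ p - G p‖ ≤ Cr' * ‖p‖ ^ (d + 2) := by
    intro p hp
    refine (hr p hp).trans ?_
    have : Cr ≤ Cr' := (le_abs_self _).trans (by linarith)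
    gcongr
  -- the choice of `ρ`
  obtain ⟨ρ, hρ0, hρ4, hρ⟩ : ∃ ρ : ℝ, 0 < ρ ∧ ρ ≤ 1 / 4 ∧ ∀ R : ℝ, 0 < R → R ≤ ρ → Cr' * (2 * R) ^ (d + 2) ≤ g₀ * (R / 2) ^ d / 2 := by
    have h1 : Tendsto (fun R : ℝ => Cr' * 2 ^ (d + 2) * R ^ 2 * 2 ^ (d + 1)) (𝓝 0) (𝓝 (Cr' * 2 ^ (d + 2) * 0 ^ 2 * 2 ^ (d + 1))) :=
      ((tendsto_id.pow 2).const_mul _).mul_const _
    have h2 : ∀ᶠ R : ℝ in 𝓝 0, Cr' * 2 ^ (d + 2) * R ^ 2 * 2 ^ (d + 1) < g₀ := by
      refine h1.eventually_lt_const ?_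
      simpa using hg₀
    obtain ⟨ρ, hρ, h3⟩ := Metric.eventually_nhds_iff.1 h2
    refine ⟨min (ρ / 2) (1 / 4), by positivity, min_le_right _ _, fun R hR hR2 => ?_⟩
    have h4 : R < ρ := by
      have := hR2.trans (min_le_left _ _)
      linarith
    have h5 := h3 (y := R) (by rw [dist_zero_right, Real.norm_eq_abs, abs_of_pos hR]; exact h4)
    have h6 : Cr' * (2 * R) ^ (d + 2) = (Cr' * 2 ^ (d + 2) * R ^ 2 * 2 ^ (d + 1)) * ((R / 2) ^ d / 2) := by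
      rw [mul_pow, div_pow, pow_add R d 2, pow_succ (2 : ℝ) d]
      field_simp
    rw [h6]
    have h7 : 0 < (R / 2) ^ d / 2 := by positivity
    nlinarith only [h5, h7]
  set C₁ : ℝ := Bg + Cr' * 2 ^ (d + 2) * (2 + d) with hC₁
  have hC₁0 : 0 < C₁ := by positivity
  refine ⟨Cn * C₁ * (2 ^ (d + 1) / g₀), ρ, by positivity, hρ0, hρ4, ?_⟩
  intro R q w z hR hRρ hq hw hz
  have hR4 : R ≤ 1 / 4 := hRρ.trans hρ4
  have hz0 : z ≠ 0 := by
    rw [← norm_pos_iff, hz]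
    exact hR
  -- the norms of the points
  have hup : ∀ y : ℂ, ‖y‖ ≤ 3 * R / 2 → ‖q + y • w‖ ≤ 2 * R := by
    intro y hy
    refine (norm_add_le _ _).trans ?_
    rw [norm_smul, hw, mul_one]
    linarith only [hq, hy]
  have hball : ∀ y : ℂ, ‖y‖ ≤ 3 * R / 2 → q + y • w ∈ ball (0 : ℂ × ℂ) 1 := by
    intro y hy
    rw [mem_ball_zero_iff]
    exact (hup y hy).trans_lt (by linarith only [hρ0, hρ4, hRρ])
  have hlow : R / 2 ≤ ‖q + z • w‖ := by
    have h1 := norm_sub_norm_le (z • w) (-q)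
    rw [norm_neg, norm_smul, hw, mul_one, hz, sub_neg_eq_add, add_comm (z • w) q] at h1
    linarith only [hq, h1]
  have hp0 : q + z • w ≠ 0 := by
    rw [← norm_pos_iff]
    linarith only [hR, hlow]
  -- the two parts
  have hline : ∀ y : ℂ, AnalyticAt ℂ (fun y : ℂ => q + y • w) y := fun y => by fun_prop
  have hFan : ∀ y : ℂ, ‖y‖ ≤ 3 * R / 2 → AnalyticAt ℂ (fun y : ℂ => Φ (q + y • w)) y := fun y hy =>
    AnalyticAt.fun_comp (g := Φ) (f := fun y : ℂ => q + y • w) (h.an _ (hball y hy)) (hline y)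
  have hGan : ∀ y : ℂ, AnalyticAt ℂ (fun y : ℂ => G (q + y • w)) y := fun y =>
    AnalyticAt.fun_comp (g := G) (f := fun y : ℂ => q + y • w) (h.G_an _) (hline y)
  set H : ℂ → EN N := fun y => Φ (q + y • w) - G (q + y • w) with hH
  have hHan : ∀ y : ℂ, ‖y‖ ≤ 3 * R / 2 → AnalyticAt ℂ H y := fun y hy => (hFan y hy).sub (hGan y)
  have hHle : ∀ y : ℂ, ‖y‖ ≤ 3 * R / 2 → ‖H y‖ ≤ Cr' * (2 * R) ^ (d + 2) := by
    intro y hy
    refine (hr' _ (hball y hy)).trans ?_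
    have := hup y hy
    gcongr
  have hzn : ‖z‖ ≤ 3 * R / 2 := by linarith only [hR, hz]
  have hHd : ‖deriv H z‖ ≤ Cr' * (2 * R) ^ (d + 2) / (R / 2) := by
    refine Complex.norm_deriv_le_of_forall_mem_sphere_norm_le (by positivity) ?_ ?_
    · refine DifferentiableOn.diffContOnCl ?_
      intro y hy
      rw [closure_ball _ (by positivity)] at hy
      refine (hHan y ?_).differentiableAt.differentiableWithinAt
      have h1 : ‖y - z‖ ≤ R / 2 := by rwa [mem_closedBall_iff_norm] at hy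
      have h2 := norm_le_norm_add_norm_sub' y z
      linarith only [hz, h1, h2]
    · intro y hy
      refine hHle y ?_
      have h1 : ‖y - z‖ = R / 2 := by rwa [mem_sphere_iff_norm] at hy
      have h2 := norm_le_norm_add_norm_sub' y z
      linarith only [hz, h1, h2]
  -- the derivative of the homogeneous part
  have hGd : deriv (fun y : ℂ => G (q + y • w)) z - ((d : ℂ) / z) • G (q + z • w) =
      -((z ^ d * (z ^ 2)⁻¹) • fderiv ℂ G (w + z⁻¹ • q) q) := by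
    have e1 : (fun y : ℂ => G (q + y • w)) =ᶠ[𝓝 z] fun y => y ^ d • G (w + y⁻¹ • q) := by
      filter_upwards [isOpen_ne.mem_nhds hz0] with y hy
      rw [← h.G_smul]
      congr 1
      rw [smul_add, smul_smul, mul_inv_cancel₀ hy, one_smul, add_comm]
    have e2 : HasDerivAt (fun y : ℂ => w + y⁻¹ • q) ((-(z ^ 2)⁻¹) • q) z := ((hasDerivAt_inv hz0).smul_const q).const_add w
    have e3 : HasDerivAt (fun y : ℂ => G (w + y⁻¹ • q)) (fderiv ℂ G (w + z⁻¹ • q) ((-(z ^ 2)⁻¹) • q)) z :=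
      (h.G_an (w + z⁻¹ • q)).differentiableAt.hasFDerivAt.comp_hasDerivAt z e2
    have e4 : HasDerivAt (fun y : ℂ => y ^ d • G (w + y⁻¹ • q))
        (z ^ d • (fderiv ℂ G (w + z⁻¹ • q)) (-(z ^ 2)⁻¹ • q) + ((d : ℂ) * z ^ (d - 1)) • G (w + z⁻¹ • q)) z := (hasDerivAt_pow d z).smul e3
    have e5 : G (q + z • w) = z ^ d • G (w + z⁻¹ • q) := e1.self_of_nhds
    rw [e1.deriv_eq, e4.deriv, e5, map_smul]
    have e6 : ((d : ℂ) / z) • z ^ d • G (w + z⁻¹ • q) = ((d : ℂ) * z ^ (d - 1)) • G (w + z⁻¹ • q) := by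
      rw [smul_smul]
      congr 1
      rcases Nat.eq_zero_or_pos d with hd | hd
      · subst hd
        simp
      · obtain ⟨d', rfl⟩ : ∃ d', d = d' + 1 := ⟨d - 1, by omega⟩
        rw [Nat.add_sub_cancel, pow_succ]
        field_simp
    rw [e6, add_sub_cancel_right, neg_smul, smul_neg, smul_smul]
  have hGle : ‖deriv (fun y : ℂ => G (q + y • w)) z - ((d : ℂ) / z) • G (q + z • w)‖ ≤ R ^ d * (‖q‖ / R ^ 2) * Bg := by
    rw [hGd, norm_neg, norm_smul, norm_mul, norm_inv, norm_pow, norm_pow, hz]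
    have e1 : w + z⁻¹ • q ∈ closedBall (0 : ℂ × ℂ) 2 := by
      rw [mem_closedBall_zero_iff]
      refine (norm_add_le _ _).trans ?_
      rw [norm_smul, norm_inv, hz, hw]
      have : R⁻¹ * ‖q‖ ≤ R⁻¹ * (R / 2) := by gcongr
      have e2 : R⁻¹ * (R / 2) = 1 / 2 := by field_simp
      linarith only [hρ0, hρ4, this, e2]
    have e3 : ‖fderiv ℂ G (w + z⁻¹ • q) q‖ ≤ Bg * ‖q‖ := (ContinuousLinearMap.le_opNorm _ _).trans (by
      have := hBg _ e1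
      gcongr)
    calc R ^ d * (R ^ 2)⁻¹ * ‖fderiv ℂ G (w + z⁻¹ • q) q‖ ≤ R ^ d * (R ^ 2)⁻¹ * (Bg * ‖q‖) := by gcongr
      _ = R ^ d * (‖q‖ / R ^ 2) * Bg := by ring
  -- the whole derivative
  have hsum : deriv (fun y : ℂ => Φ (q + y • w)) z = deriv (fun y : ℂ => G (q + y • w)) z + deriv H z := by
    have e1 : (fun y : ℂ => Φ (q + y • w)) = fun y => G (q + y • w) + H y := by
      funext y
      simp [hH]
    rw [e1]
    exact ((hGan z).differentiableAt.hasDerivAt.add (hHan z hzn).differentiableAt.hasDerivAt).deriv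
  have hkey : ‖deriv (fun y : ℂ => Φ (q + y • w)) z - ((d : ℂ) / z) • Φ (q + z • w)‖ ≤ R ^ d * C₁ * (R + ‖q‖ / R ^ 2) := by
    have e1 : deriv (fun y : ℂ => Φ (q + y • w)) z - ((d : ℂ) / z) • Φ (q + z • w) =
        (deriv (fun y : ℂ => G (q + y • w)) z - ((d : ℂ) / z) • G (q + z • w)) + (deriv H z - ((d : ℂ) / z) • H z) := by
      rw [hsum]
      simp only [hH, smul_sub]
      abel
    rw [e1]
    refine (norm_add_le _ _).trans ?_
    have e2 : ‖deriv H z - ((d : ℂ) / z) • H z‖ ≤ Cr' * (2 * R) ^ (d + 2) / (R / 2) + (d / R) * (Cr' * (2 * R) ^ (d + 2)) := by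
      refine (norm_sub_le _ _).trans (add_le_add hHd ?_)
      rw [norm_smul, norm_div, hz, Complex.norm_natCast]
      have := hHle z hzn
      gcongr
    have e3 : Cr' * (2 * R) ^ (d + 2) / (R / 2) + (d / R) * (Cr' * (2 * R) ^ (d + 2)) = R ^ d * (Cr' * 2 ^ (d + 2) * (2 + d)) * R := by
      rw [mul_pow, pow_add R d 2]
      field_simp
    rw [e3] at e2
    have e4 : 0 ≤ ‖q‖ / R ^ 2 := by positivity
    have e5 : 0 ≤ R ^ d * (‖q‖ / R ^ 2) * (Cr' * 2 ^ (d + 2) * (2 + d)) := by positivity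
    have e6 : 0 ≤ R ^ d * Bg * R := by positivity
    calc _ ≤ R ^ d * (‖q‖ / R ^ 2) * Bg + R ^ d * (Cr' * 2 ^ (d + 2) * (2 + d)) * R := add_le_add hGle e2
      _ ≤ R ^ d * C₁ * (R + ‖q‖ / R ^ 2) := by rw [hC₁]; nlinarith only [e5, e6]
  -- the lower bound of the point
  have hΦ : g₀ * (R / 2) ^ d / 2 ≤ ‖Φ (q + z • w)‖ := by
    have e1 : g₀ * (R / 2) ^ d ≤ ‖G (q + z • w)‖ := le_trans (by gcongr) (hG0 _)
    have e2 : ‖H z‖ ≤ g₀ * (R / 2) ^ d / 2 := (hHle z hzn).trans (hρ R hR hRρ)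
    have e3 : ‖G (q + z • w)‖ ≤ ‖Φ (q + z • w)‖ + ‖H z‖ := by
      have e4 : G (q + z • w) = Φ (q + z • w) - H z := by simp [hH]
      rw [e4]
      exact norm_sub_le _ _
    linarith only [e1, e2, e3]
  -- the tangent vector
  have htan : Tan X (Φ (q + z • w)) (deriv (fun y : ℂ => Φ (q + y • w)) z) := by
    have e1 : ∀ᶠ y in 𝓝 z, q + y • w ∈ ball (0 : ℂ × ℂ) 1 ∧ q + y • w ≠ 0 := by
      have e2 : ContinuousAt (fun y : ℂ => q + y • w) z := (hline z).continuousAt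
      exact (e2.eventually (isOpen_ball.mem_nhds (hball z hzn))).and (e2.eventually_ne hp0)
    exact tan_curve ⟨hFan z hzn, e1.mono fun y hy => h.mem _ hy.1 hy.2⟩
  have h1 := hn _ _ htan ((d : ℂ) / z)
  have h2 : 0 ≤ n.toFun (Φ (q + z • w)) (deriv (fun y : ℂ => Φ (q + y • w)) z) := n.nonneg _ _ htan
  have h3 : g₀ * (R / 2) ^ d / 2 * n.toFun (Φ (q + z • w)) (deriv (fun y : ℂ => Φ (q + y • w)) z) ≤
      Cn * (R ^ d * C₁ * (R + ‖q‖ / R ^ 2)) :=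
    calc _ ≤ ‖Φ (q + z • w)‖ * n.toFun (Φ (q + z • w)) (deriv (fun y : ℂ => Φ (q + y • w)) z) := by gcongr
      _ ≤ _ := h1.trans (by gcongr)
  have h4 : 0 < g₀ * (R / 2) ^ d / 2 := by positivity
  refine le_of_mul_le_mul_left (h3.trans (le_of_eq ?_)) h4
  rw [div_pow, pow_succ (2 : ℝ) d]
  field_simp

/-- the tangent vectors in the image of `Φ` -/
theorem MinusTwo.tan {σ : ℂ × ℂ → EN N} {τ : EN N → ℂ × ℂ} {Φ G : ℂ × ℂ → EN N} {d : ℕ} (h : MinusTwo X σ τ Φ G d) {q : ℂ × ℂ} (hq : q ≠ 0)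
    (hq1 : ‖q‖ < 1) (w : ℂ × ℂ) : Tan X (Φ q) (fderiv ℂ Φ q w) := by
  have hq1' : q ∈ ball (0 : ℂ × ℂ) 1 := by rwa [mem_ball_zero_iff]
  have h4 : AnalyticAt ℂ (fun y : ℂ => q + y • w) 0 := by fun_prop
  have h0 : q + (0 : ℂ) • w = q := by rw [zero_smul, add_zero]
  have h5 : AnalyticAt ℂ Φ (q + (0 : ℂ) • w) := by rw [h0]; exact h.an _ hq1'
  refine ⟨fun y => Φ (q + y • w), ⟨AnalyticAt.fun_comp (g := Φ) (f := fun y : ℂ => q + y • w) h5 h4, ?_⟩, by simp, ?_⟩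
  · have h6 : Tendsto (fun y : ℂ => q + y • w) (𝓝 0) (𝓝 q) := by
      have := h4.continuousAt.tendsto
      rwa [h0] at this
    filter_upwards [h6.eventually (isOpen_ball.mem_nhds hq1'), h6.eventually (isOpen_ne.mem_nhds hq)] with y h7 h8
    exact h.mem _ h7 h8
  · have h3 : HasDerivAt (fun y : ℂ => q + y • w) w 0 := by
      have := ((hasDerivAt_id (0 : ℂ)).smul_const w).const_add q
      simpa using this
    have h7 : HasFDerivAt Φ (fderiv ℂ Φ q) (q + (0 : ℂ) • w) := by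
      rw [h0]
      exact (h.an _ hq1').differentiableAt.hasFDerivAt
    exact (h7.comp_hasDerivAt (0 : ℂ) h3).deriv

/-- **Lemma A.** -/
theorem duv_small (hX : IsCone X) (hch : Charts X) (n : PseudoLength X) {σ : ℂ × ℂ → EN N} {τ : EN N → ℂ × ℂ} {Φ G : ℂ × ℂ → EN N}
    {d : ℕ} (h : MinusTwo X σ τ Φ G d) {ε : ℝ} (hε : 0 < ε) :
    ∃ ρ : ℝ, 0 < ρ ∧ ρ ≤ 1 ∧ ∀ q w : ℂ × ℂ, q ≠ 0 → ‖q‖ < ρ → n.toFun (Φ q) (fderiv ℂ Φ q w) ≤ ε * ‖w‖ := by
  obtain ⟨C, ρ₀, hC, hρ₀, hρ₀4, hcirc⟩ := duv_circle hX hch n h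
  set R : ℝ := min ρ₀ (ε / (2 * C)) with hRdef
  have hR : 0 < R := lt_min hρ₀ (by positivity)
  have hRρ : R ≤ ρ₀ := min_le_left _ _
  have hRε : C * R ≤ ε / 2 := by
    have h1 : R ≤ ε / (2 * C) := min_le_right _ _
    rw [le_div_iff₀ (by positivity)] at h1
    linarith only [h1]
  set ρ : ℝ := min (R / 2) (ε * R ^ 2 / (2 * C)) with hρdef
  have hρ : 0 < ρ := lt_min (by positivity) (by positivity)
  have hρR : ρ ≤ R / 2 := min_le_left _ _
  refine ⟨ρ, hρ, by linarith only [hρ₀4, hRρ, hρ, hρR], ?_⟩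
  intro q w hq hqρ
  have hq1 : ‖q‖ < 1 := by linarith only [hρ₀4, hRρ, hρ, hρR, hqρ]
  have hqC : C * (‖q‖ / R ^ 2) ≤ ε / 2 := by
    have h1 : ‖q‖ ≤ ε * R ^ 2 / (2 * C) := (hqρ.trans_le (min_le_right _ _)).le
    rw [le_div_iff₀ (by positivity)] at h1
    rw [← mul_div_assoc, div_le_iff₀ (by positivity)]
    linarith only [h1]
  have hbd : C * (R + ‖q‖ / R ^ 2) ≤ ε := by rw [mul_add]; linarith only [hRε, hqC]
  -- unit vectors
  have key : ∀ w₁ : ℂ × ℂ, ‖w₁‖ = 1 → n.toFun (Φ q) (fderiv ℂ Φ q w₁) ≤ ε := by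
    intro w₁ hw₁
    have hder : ∀ (q' : ℂ × ℂ) (z : ℂ), q' + z • w₁ ∈ ball (0 : ℂ × ℂ) 1 →
        deriv (fun y : ℂ => Φ (q' + y • w₁)) z = fderiv ℂ Φ (q' + z • w₁) w₁ := by
      intro q' z hz
      have h3 : HasDerivAt (fun y : ℂ => q' + y • w₁) w₁ z := by
        have := ((hasDerivAt_id z).smul_const w₁).const_add q'
        simpa using this
      exact ((h.an _ hz).differentiableAt.hasFDerivAt.comp_hasDerivAt z h3).deriv
    by_cases hpar : ∃ z₀ : ℂ, q = z₀ • w₁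
    · obtain ⟨z₀, hz₀⟩ := hpar
      have hz₀n : ‖z₀‖ = ‖q‖ := by rw [hz₀, norm_smul, hw₁, mul_one]
      have hqn : 0 < ‖q‖ := norm_pos_iff.2 hq
      have h1 := hcirc ‖q‖ 0 w₁ z₀ hqn (by linarith) (by rw [norm_zero]; positivity) hw₁ hz₀n
      have h2 : (0 : ℂ × ℂ) + z₀ • w₁ = q := by rw [zero_add, hz₀]
      rw [hder 0 z₀ (by rw [h2, mem_ball_zero_iff]; exact hq1), h2, norm_zero, zero_div, add_zero] at h1
      refine h1.trans ?_
      nlinarith only [hRε, hε, hρ₀4, hRρ, hρR, hqρ, hqn, hC]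
    · push Not at hpar
      have hne : ∀ z : ℂ, q + z • w₁ ≠ 0 := by
        intro z hz
        refine hpar (-z) ?_
        rw [neg_smul]
        exact eq_neg_of_add_eq_zero_left hz
      have hmem : ∀ z : ℂ, ‖z‖ < 1 / 2 → q + z • w₁ ∈ ball (0 : ℂ × ℂ) 1 := by
        intro z hz
        rw [mem_ball_zero_iff]
        refine (norm_add_le _ _).trans_lt ?_
        rw [norm_smul, hw₁, mul_one]
        linarith only [hρ₀4, hRρ, hρ, hρR, hqρ, hz]
      have hline : ∀ y : ℂ, AnalyticAt ℂ (fun y : ℂ => q + y • w₁) y := fun y => by fun_prop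
      have h1 := n.curved (ball 0 (1 / 2)) (fun z : ℂ => Φ (q + z • w₁)) isOpen_ball
        (fun z hz => (AnalyticAt.fun_comp (g := Φ) (f := fun y : ℂ => q + y • w₁) (h.an _ (hmem z (by simpa using hz)))
          (hline z)).differentiableAt.differentiableWithinAt)
        (fun z hz => h.mem _ (hmem z (by simpa using hz)) (hne z)) 0 R hR (closedBall_subset_ball (by linarith only [hρ₀4, hRρ, hρ, hρR]))
      have h2 := le_of_circleAverage (B := ε ^ 2) hR h1 (fun z hz => by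
        rw [sub_zero] at hz
        have h3 := hcirc R q w₁ z hR hRρ (by linarith only [hρR, hqρ]) hw₁ hz
        have h4 : 0 ≤ n.toFun (Φ (q + z • w₁)) (deriv (fun y : ℂ => Φ (q + y • w₁)) z) := by
          rw [hder q z (hmem z (by rw [hz]; linarith only [hρ₀4, hRρ, hρ, hρR]))]
          refine n.nonneg _ _ (h.tan (hne z) ?_ w₁)
          have := hmem z (by rw [hz]; linarith only [hρ₀4, hRρ, hρ, hρR])
          rwa [mem_ball_zero_iff] at this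
        exact pow_le_pow_left₀ h4 (h3.trans hbd) 2) (by positivity)
      have h5 : q + (0 : ℂ) • w₁ = q := by rw [zero_smul, add_zero]
      have h6 := hder q 0 (by rw [h5, mem_ball_zero_iff]; exact hq1)
      simp only [h6, h5] at h2
      exact (pow_le_pow_iff_left₀ (n.nonneg _ _ (h.tan hq hq1 w₁)) hε.le two_ne_zero).1 h2
  by_cases hw : w = 0
  · have h1 := n.smul _ _ (h.tan hq hq1 0) 0
    rw [zero_smul, norm_zero, zero_mul] at h1
    rw [hw, map_zero, h1, norm_zero, mul_zero]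
  · have hwn : 0 < ‖w‖ := norm_pos_iff.2 hw
    have hwc : ((‖w‖ : ℝ) : ℂ) ≠ 0 := by exact_mod_cast hwn.ne'
    have e1 : w = ((‖w‖ : ℝ) : ℂ) • (((‖w‖ : ℝ) : ℂ)⁻¹ • w) := by
      rw [smul_smul, mul_inv_cancel₀ hwc, one_smul]
    have e2 : ‖(((‖w‖ : ℝ) : ℂ)⁻¹ • w)‖ = 1 := by
      rw [norm_smul, norm_inv, Complex.norm_real, norm_norm, inv_mul_cancel₀ hwn.ne']
    have e3 := key _ e2
    have e4 : n.toFun (Φ q) (fderiv ℂ Φ q w) = ‖w‖ * n.toFun (Φ q) (fderiv ℂ Φ q (((‖w‖ : ℝ) : ℂ)⁻¹ • w)) := by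
      conv_lhs => rw [e1]
      rw [map_smul, n.smul _ _ (h.tan hq hq1 _), Complex.norm_real, norm_norm]
    rw [e4, mul_comm]
    gcongr

end Pool.Agent.SG

end
end

section

/-!
# SG DuvB: a pseudo-length at a point of a smooth rational curve with self-intersection `-2`
-/

set_option autoImplicit false

open Topology Filter Metric

noncomputable section

namespace Pool.Agent.SG

open Pool.Agent.H36.BP (EN fs)
open Pool.Agent.H14.PP (IsCone Tan CurveAt)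
open Pool.Agent.H17BP (IsChart Pr)
open Pool.Agent.H22.W (PseudoLength tan_curve)
open Pool.Agent.H62.EF (Charts)

variable {N : ℕ} {X : Set (EN N)}

/-- The length of the derivative depends only on the curve in the projective space. -/
theorem length_pr (hX : IsCone X) (n : PseudoLength X) {F F₁ : ℂ → EN N} {z : ℂ} (hF : CurveAt X F z) (hF₁ : AnalyticAt ℂ F₁ z)
    (hp : ∀ᶠ y in 𝓝 z, Pr (F₁ y) (F y)) : n.toFun (F₁ z) (deriv F₁ z) = n.toFun (F z) (deriv F z) := by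
  have hFX : F z ∈ X := hF.2.self_of_nhds
  have hF0 : F z ≠ 0 := hX.ne_zero hFX
  obtain ⟨L, hL⟩ : ∃ L : EN N →L[ℂ] ℂ, L (F z) ≠ 0 := SeparatingDual.exists_ne_zero (R := ℂ) hF0
  have hLF : AnalyticAt ℂ (fun y => L (F y)) z := (L.analyticAt _).fun_comp hF.1
  have hLF₁ : AnalyticAt ℂ (fun y => L (F₁ y)) z := (L.analyticAt _).fun_comp hF₁
  have hLne : ∀ᶠ y in 𝓝 z, L (F y) ≠ 0 := hLF.continuousAt.eventually_ne hL
  set c : ℂ → ℂ := fun y => L (F₁ y) / L (F y) with hc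
  have hcan : AnalyticAt ℂ c z := hLF₁.div hLF hL
  have he : ∀ᶠ y in 𝓝 z, F₁ y = c y • F y ∧ c y ≠ 0 := by
    filter_upwards [hp, hLne] with y hy hy2
    obtain ⟨a, ha, hay⟩ := hy
    have h1 : c y = a := by
      rw [hc]
      simp only
      rw [hay, map_smul, smul_eq_mul, mul_div_assoc, div_self hy2, mul_one]
    rw [h1]
    exact ⟨hay, ha⟩
  have h1 : deriv F₁ z = c z • deriv F z + deriv c z • F z := by
    have h2 : F₁ =ᶠ[𝓝 z] fun y => c y • F y := he.mono fun y hy => hy.1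
    rw [h2.deriv_eq]
    exact (hcan.differentiableAt.hasDerivAt.smul hF.1.differentiableAt.hasDerivAt).deriv
  have h3 := he.self_of_nhds
  rw [h1, h3.1]
  exact n.inv hX (tan_curve hF) h3.2 _

/-- a branch of the square root -/
theorem exists_sqrt {ξ z₁ : ℂ} (hz : ξ * z₁ ≠ 0) :
    ∃ a : ℂ → ℂ, AnalyticAt ℂ a z₁ ∧ (∀ z, a z ^ 2 = ξ * z) ∧ a z₁ ≠ 0 ∧ deriv a z₁ = ξ / (2 * a z₁) := by
  obtain ⟨a₁, ha₁⟩ := IsAlgClosed.exists_pow_nat_eq (ξ * z₁) (n := 2) (by norm_num)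
  have hz₁ : z₁ ≠ 0 := right_ne_zero_of_mul hz
  have ha₁0 : a₁ ≠ 0 := by
    rintro rfl
    rw [zero_pow two_ne_zero] at ha₁
    exact hz ha₁.symm
  have hsq : ∀ z : ℂ, (a₁ * (z / z₁) ^ ((2 : ℕ) : ℂ)⁻¹) ^ 2 = ξ * z := by
    intro z
    rw [mul_pow, Complex.cpow_nat_inv_pow _ two_ne_zero, ha₁]
    field_simp
  have han : AnalyticAt ℂ (fun z : ℂ => a₁ * (z / z₁) ^ ((2 : ℕ) : ℂ)⁻¹) z₁ := by
    refine analyticAt_const.mul ?_
    refine AnalyticAt.cpow (by fun_prop) analyticAt_const ?_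
    rw [div_self hz₁]
    exact Complex.one_mem_slitPlane
  have hval : a₁ * (z₁ / z₁) ^ ((2 : ℕ) : ℂ)⁻¹ = a₁ := by
    rw [div_self hz₁, Complex.one_cpow, mul_one]
  refine ⟨_, han, hsq, by simpa only [hval] using ha₁0, ?_⟩
  have h1 : HasDerivAt (fun z : ℂ => (a₁ * (z / z₁) ^ ((2 : ℕ) : ℂ)⁻¹) ^ 2) ξ z₁ := by
    have h2 : (fun z : ℂ => (a₁ * (z / z₁) ^ ((2 : ℕ) : ℂ)⁻¹) ^ 2) = fun z => ξ * z := funext hsq
    rw [h2]
    simpa using (hasDerivAt_id z₁).const_mul ξ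
  have h3 := han.differentiableAt.hasDerivAt.pow 2
  have h4 := h1.unique h3
  simp only [hval] at h4 ⊢
  rw [eq_div_iff (by simpa using ha₁0), h4]
  norm_num
  ring

/-- **Lemma B.** -/
theorem duv_axis (hX : IsCone X) (hch : Charts X) (n : PseudoLength X) {σ : ℂ × ℂ → EN N} {τ : EN N → ℂ × ℂ} {Φ G : ℂ × ℂ → EN N}
    {d : ℕ} (h : MinusTwo X σ τ Φ G d) {ε : ℝ} (hε : 0 < ε) :
    ∃ κ : ℝ, 0 < κ ∧ ∀ ξ η : ℂ, ξ ≠ 0 → η ≠ 0 → ‖ξ‖ ≤ κ * ‖η‖ → n.toFun (σ 0) (fderiv ℂ σ 0 (ξ, η)) ^ 2 ≤ ε * (‖ξ‖ * ‖η‖) := by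
  obtain ⟨δ₁, hδ₁, hloc⟩ := Metric.eventually_nhds_iff_ball.1
    (h.rel.and (h.chart.σ_an.eventually_analyticAt.and h.chart.σ_mem.eventually_nhds))
  set δ : ℝ := min δ₁ 1 / 2 with hδdef
  have hδ : 0 < δ := by positivity
  have hδδ₁ : δ < δ₁ := by
    have : min δ₁ 1 ≤ δ₁ := min_le_left _ _
    linarith only [hδdef, hδ, this]
  have hδ1 : δ ≤ 1 := by
    have : min δ₁ 1 ≤ 1 := min_le_right _ _
    linarith only [hδdef, this]
  set c₀ : ℝ := 1 / (2 * δ) + 2 * δ with hc₀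
  have hc₀0 : 0 < c₀ := by positivity
  set ε₁ : ℝ := Real.sqrt (ε / c₀) with hε₁
  have hε₁0 : 0 < ε₁ := Real.sqrt_pos.2 (by positivity)
  have hε₁sq : ε₁ ^ 2 * c₀ = ε := by
    rw [hε₁, Real.sq_sqrt (by positivity)]
    field_simp
  obtain ⟨ρ, hρ, hρ1, hsmall⟩ := duv_small hX hch n h hε₁0
  set m : ℝ := min δ₁ ρ with hm
  have hm0 : 0 < m := lt_min hδ₁ hρ
  refine ⟨min 1 (m ^ 2 / (2 * δ)), lt_min one_pos (by positivity), ?_⟩
  intro ξ η hξ hη hκ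
  have hξn : 0 < ‖ξ‖ := norm_pos_iff.2 hξ
  have hηn : 0 < ‖η‖ := norm_pos_iff.2 hη
  have hκ1 : ‖ξ‖ ≤ ‖η‖ := by
    refine hκ.trans ?_
    have : min 1 (m ^ 2 / (2 * δ)) ≤ 1 := min_le_left _ _
    nlinarith only [hηn, this]
  have hκ2 : ‖ξ‖ * (2 * δ) ≤ m ^ 2 * ‖η‖ := by
    have h1 : min 1 (m ^ 2 / (2 * δ)) ≤ m ^ 2 / (2 * δ) := min_le_right _ _
    have h2 : ‖ξ‖ ≤ m ^ 2 / (2 * δ) * ‖η‖ := hκ.trans (by gcongr)
    calc ‖ξ‖ * (2 * δ) ≤ m ^ 2 / (2 * δ) * ‖η‖ * (2 * δ) := by gcongr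
      _ = m ^ 2 * ‖η‖ := by field_simp
  set r : ℝ := δ / ‖η‖ with hr
  have hr0 : 0 < r := by positivity
  have hrη : r * ‖η‖ = δ := by rw [hr]; field_simp
  have hnorm : ‖((ξ, η) : ℂ × ℂ)‖ = ‖η‖ := by
    rw [Prod.norm_mk]
    exact max_eq_right hκ1
  -- the disc
  have hUo : IsOpen {z : ℂ | z • ((ξ, η) : ℂ × ℂ) ∈ ball (0 : ℂ × ℂ) δ₁} := isOpen_ball.preimage (by fun_prop)
  have hline : ∀ y : ℂ, AnalyticAt ℂ (fun y : ℂ => y • ((ξ, η) : ℂ × ℂ)) y := fun y => by fun_prop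
  have hlined : ∀ y : ℂ, HasDerivAt (fun y : ℂ => y • ((ξ, η) : ℂ × ℂ)) (ξ, η) y := fun y => by
    simpa using (hasDerivAt_id y).smul_const ((ξ, η) : ℂ × ℂ)
  have hFan : ∀ z : ℂ, z • ((ξ, η) : ℂ × ℂ) ∈ ball (0 : ℂ × ℂ) δ₁ → AnalyticAt ℂ (fun z : ℂ => σ (z • ((ξ, η) : ℂ × ℂ))) z := fun z hz =>
    AnalyticAt.fun_comp (g := σ) (f := fun y : ℂ => y • ((ξ, η) : ℂ × ℂ)) (hloc _ hz).2.1 (hline z)
  have hcurve : ∀ z : ℂ, z • ((ξ, η) : ℂ × ℂ) ∈ ball (0 : ℂ × ℂ) δ₁ → CurveAt X (fun z : ℂ => σ (z • ((ξ, η) : ℂ × ℂ))) z := fun z hz =>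
    ⟨hFan z hz, (hline z).continuousAt.eventually (hloc _ hz).2.2⟩
  have hin : ∀ z : ℂ, ‖z‖ ≤ r → z • ((ξ, η) : ℂ × ℂ) ∈ ball (0 : ℂ × ℂ) δ₁ := by
    intro z hz
    rw [mem_ball_zero_iff, norm_smul, hnorm]
    calc ‖z‖ * ‖η‖ ≤ r * ‖η‖ := by gcongr
      _ < δ₁ := by rw [hrη]; exact hδδ₁
  have h1 := n.curved {z : ℂ | z • ((ξ, η) : ℂ × ℂ) ∈ ball (0 : ℂ × ℂ) δ₁} (fun z : ℂ => σ (z • ((ξ, η) : ℂ × ℂ))) hUo
    (fun z hz => (hFan z hz).differentiableAt.differentiableWithinAt)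
    (fun z hz => (hcurve z hz).2.self_of_nhds) 0 r hr0 (fun z hz => hin z (by simpa using hz))
  have h2 : deriv (fun z : ℂ => σ (z • ((ξ, η) : ℂ × ℂ))) 0 = fderiv ℂ σ 0 (ξ, η) := by
    have h3 : HasFDerivAt σ (fderiv ℂ σ 0) ((0 : ℂ) • ((ξ, η) : ℂ × ℂ)) := by
      rw [zero_smul]
      exact h.chart.σ_an.differentiableAt.hasFDerivAt
    exact (h3.comp_hasDerivAt (0 : ℂ) (hlined 0)).deriv
  rw [h2] at h1
  simp only [zero_smul] at h1
  refine le_of_circleAverage hr0 h1 ?_ (by positivity)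
  -- the circle
  intro z₁ hz₁
  rw [sub_zero] at hz₁
  have hz₁0 : z₁ ≠ 0 := by
    rw [← norm_pos_iff, hz₁]
    exact hr0
  obtain ⟨a, ha, hasq, ha0, had⟩ := exists_sqrt (mul_ne_zero hξ hz₁0)
  set a₁ : ℂ := a z₁ with ha₁
  have ha₁n : 0 < ‖a₁‖ := norm_pos_iff.2 ha0
  have ha₁sq : ‖a₁‖ ^ 2 * ‖η‖ = ‖ξ‖ * δ := by
    rw [← norm_pow, hasq z₁, norm_mul, hz₁, mul_assoc, hrη]
  have ha₁m : ‖a₁‖ < m := by
    have h3 : ‖a₁‖ ^ 2 * ‖η‖ * 2 ≤ m ^ 2 * ‖η‖ := by rw [ha₁sq]; linarith only [hκ2]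
    have h4 : ‖a₁‖ ^ 2 * 2 ≤ m ^ 2 := by
      refine le_of_mul_le_mul_right ?_ hηn
      linarith only [hκ2, ha₁sq]
    have h5 : ‖a₁‖ ^ 2 < m ^ 2 := by nlinarith only [h4, hm0]
    exact lt_of_pow_lt_pow_left₀ 2 hm0.le h5
  have hv : ‖η * z₁‖ = δ := by rw [norm_mul, hz₁, mul_comm, hrη]
  -- the lifted curve
  set b : ℂ → ℂ × ℂ := fun z => (a z, a z * (η * z)) with hb
  have hban : AnalyticAt ℂ b z₁ := ha.prod (ha.mul (by fun_prop))
  have hb1 : b z₁ ≠ 0 := by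
    intro h3
    exact ha0 (congrArg Prod.fst h3)
  have hbn : ‖b z₁‖ < m := by
    have h3 : ‖a₁ * (η * z₁)‖ ≤ ‖a₁‖ := by
      rw [norm_mul, hv]
      nlinarith only [hδ1, ha₁n]
    have h4 : ‖b z₁‖ = max ‖a₁‖ ‖a₁ * (η * z₁)‖ := Prod.norm_mk _ _
    rw [h4]
    exact max_lt ha₁m (h3.trans_lt ha₁m)
  have hbρ : ‖b z₁‖ < ρ := hbn.trans_le (min_le_right _ _)
  have hb1' : b z₁ ∈ ball (0 : ℂ × ℂ) 1 := by
    rw [mem_ball_zero_iff]
    linarith
  have hΦan : AnalyticAt ℂ (fun z => Φ (b z)) z₁ := (h.an _ hb1').fun_comp hban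
  have hpr : ∀ᶠ z in 𝓝 z₁, Pr (Φ (b z)) (σ (z • ((ξ, η) : ℂ × ℂ))) := by
    have h3 : ContinuousAt (fun z : ℂ => ((a z, η * z) : ℂ × ℂ)) z₁ := (ha.prod (by fun_prop : AnalyticAt ℂ (fun z : ℂ => η * z) z₁)).continuousAt
    have h4 : ((a z₁, η * z₁) : ℂ × ℂ) ∈ ball (0 : ℂ × ℂ) δ₁ := by
      rw [mem_ball_zero_iff, Prod.norm_mk]
      refine max_lt (ha₁m.trans_le (min_le_left _ _)) ?_
      rw [hv]
      exact hδδ₁
    filter_upwards [h3.eventually (isOpen_ball.mem_nhds h4), ha.continuousAt.eventually_ne ha0] with z h5 h6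
    have h7 := (hloc _ h5).1 h6
    have h8 : ((a z) ^ 2, η * z) = z • ((ξ, η) : ℂ × ℂ) := by
      rw [hasq z, Prod.smul_mk, smul_eq_mul, smul_eq_mul, mul_comm ξ z, mul_comm η z]
    simp only [h8] at h7
    exact h7
  have h3 := length_pr hX n (hcurve z₁ (hin z₁ hz₁.le)) hΦan hpr
  have hbd : HasDerivAt b (ξ / (2 * a₁), ξ / (2 * a₁) * (η * z₁) + a₁ * η) z₁ := by
    have h4 : HasDerivAt a (ξ / (2 * a₁)) z₁ := by
      rw [← had]
      exact ha.differentiableAt.hasDerivAt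
    have h5 : HasDerivAt (fun z : ℂ => η * z) η z₁ := by simpa using (hasDerivAt_id z₁).const_mul η
    exact h4.prodMk (h4.mul h5)
  have h4 : deriv (fun z => Φ (b z)) z₁ = fderiv ℂ Φ (b z₁) (ξ / (2 * a₁), ξ / (2 * a₁) * (η * z₁) + a₁ * η) :=
    ((h.an _ hb1').differentiableAt.hasFDerivAt.comp_hasDerivAt z₁ hbd).deriv
  rw [h4] at h3
  obtain ⟨w, hwdef⟩ : ∃ w : ℂ × ℂ, w = (ξ / (2 * a₁), ξ / (2 * a₁) * (η * z₁) + a₁ * η) := ⟨_, rfl⟩
  rw [← hwdef] at h3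
  have h5 := hsmall (b z₁) w hb1 hbρ
  show n.toFun (σ (z₁ • ((ξ, η) : ℂ × ℂ))) (deriv (fun z : ℂ => σ (z • ((ξ, η) : ℂ × ℂ))) z₁) ^ 2 ≤ ε * (‖ξ‖ * ‖η‖)
  rw [← h3]
  have hn0 : 0 ≤ n.toFun (Φ (b z₁)) (fderiv ℂ Φ (b z₁) w) :=
    n.nonneg _ _ (h.tan hb1 (by rwa [mem_ball_zero_iff] at hb1') _)
  have hw : ‖w‖ ≤ ‖ξ‖ / (2 * ‖a₁‖) + ‖a₁‖ * ‖η‖ := by
    have e1 : ‖ξ / (2 * a₁)‖ = ‖ξ‖ / (2 * ‖a₁‖) := by rw [norm_div, norm_mul]; norm_num
    rw [hwdef, Prod.norm_mk]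
    refine max_le ?_ ?_
    · rw [e1]
      have : 0 ≤ ‖a₁‖ * ‖η‖ := by positivity
      linarith only [this]
    · refine (norm_add_le _ _).trans ?_
      rw [norm_mul, norm_mul a₁ η, hv, e1]
      have : 0 ≤ ‖ξ‖ / (2 * ‖a₁‖) := by positivity
      nlinarith only [hδ1, this]
  have hw2 : ‖w‖ ^ 2 ≤ c₀ * (‖ξ‖ * ‖η‖) := by
    have e1 : (‖ξ‖ / (2 * ‖a₁‖) + ‖a₁‖ * ‖η‖) ^ 2 ≤ 2 * (‖ξ‖ / (2 * ‖a₁‖)) ^ 2 + 2 * (‖a₁‖ * ‖η‖) ^ 2 := by
      nlinarith only [sq_nonneg (‖ξ‖ / (2 * ‖a₁‖) - ‖a₁‖ * ‖η‖)]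
    have e2 : ‖a₁‖ ^ 2 = ‖ξ‖ * δ / ‖η‖ := by
      rw [eq_div_iff hηn.ne', ha₁sq]
    have e3 : 2 * (‖ξ‖ / (2 * ‖a₁‖)) ^ 2 + 2 * (‖a₁‖ * ‖η‖) ^ 2 = c₀ * (‖ξ‖ * ‖η‖) := by
      rw [div_pow, mul_pow, mul_pow, e2, hc₀]
      field_simp
    rw [← e3]
    exact (pow_le_pow_left₀ (norm_nonneg _) hw 2).trans e1
  have h6 : n.toFun (Φ (b z₁)) (fderiv ℂ Φ (b z₁) w) ^ 2 ≤ (ε₁ * ‖w‖) ^ 2 := pow_le_pow_left₀ hn0 h5 2
  refine h6.trans ?_
  rw [mul_pow]
  calc ε₁ ^ 2 * ‖w‖ ^ 2 ≤ ε₁ ^ 2 * (c₀ * (‖ξ‖ * ‖η‖)) := by gcongr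
    _ = ε * (‖ξ‖ * ‖η‖) := by rw [← mul_assoc, hε₁sq]

end Pool.Agent.SG

end
end
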