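import Pool.Agent.H94.G6.M118
import Pool.Agent.H94.G6.M30
import Pool.Agent.H94.G6.M34
import Pool.Agent.H94.G6.M40
import Pool.Agent.H94.G6.M63
import Pool.Agent.H94.G6.M68

/-! The parts of this file: H5.BD.CZ, MQ2.Slope, MQ2.Swap, MQ3.EnK. -/

section

/-!
# BD CZ: the zero set of the form

`mem_ZΩ`: let `Good χ x`, `p = χ.q x`, `x = a • χ.σ p`, `a ≠ 0`.  Every tangent vector at `y = χ.σ p` is `v = dσ_p ξ + b • y` (`Chart.curve` for a curve `F` with `F 0 = y`, `F' 0 = v`: `F z = c z • σ (q (F z))` near `0`,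
`c 0 = 1`), so `Ω y v w = det (ξ, ξ')^m aCoef Ω χ p` (`add_smul`, `det`), and `dσ_p (1, 0)`, `dσ_p (0, 1)` are tangent vectors (`Chart.tan`).  So `Ω y v w = 0` for all tangent `v, w` iff `aCoef Ω χ p = 0`
(`m ≥ 1`).  By `scale` the condition is invariant under `y ↦ a • y` (`Tan` is), and `pr x = pr x'` iff `x, x'` are proportional (`pr_eq_iff`).
`isClosed_ZΩ`: let `y n ∈ ZΩ Ω`, `y n → y`; `y ∈ pr '' X` (compact, `isCompact_pr`), `y = pr x`; let `i = A.idx (pr x)`; for large `n` `y n = pr (x n)`, `x n` good for `i` (`A.good`), `aCoef (q (x n)) = 0`,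
`q (x n) → q x` (`A.le_dist`), `aCoef` is continuous, so `aCoef (q x) = 0`.
`ZΩ_small`: otherwise there are `η > 0`, `i n`, `x n` good for `i n`, with `cf A Ω (i n) (x n) → 0` and no point of `ZΩ Ω` at distance `≤ η` of `pr (x n)`; along an ultrafilter `i n = i` is constant, `p n = q (x n) → p`, `‖p‖ ≤ 1 / 2`;
`‖aCoef Ω (A.χ i) p‖ ‖σ p‖ = 0`, so `aCoef = 0`, `pr (σ p) ∈ ZΩ Ω` and `pr (x n) = pr (σ (p n)) → pr (σ p)`: contradiction.
`ZΩ_dense`: `F` is continuous; near every `z₁` with `i = A.idx (pr (F z₁))` `pr (F z) ∈ ZΩ Ω` iff `aCoef Ω (A.χ i) (qc A i F z) = 0`, an analytic function of `z`; so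
(`AnalyticAt.eventually_eq_zero_or_eventually_ne_zero`) it is `0` near `z₁` or `≠ 0` for `z ≠ z₁` near `z₁`.  Both sets of points `z₁` are open and disjoint, their union is `ℂ` (connected).
-/

set_option autoImplicit false

open Topology Filter Metric

namespace Pool.Agent.H5.BD

open Pool.Agent.H36.BP (EN fs wd)
open Pool.Agent.H14.PP (IsCone Chart Form Tan aCoef jac)
open Pool.Agent.H62.EF (MN pr det2)

variable {N : ℕ} {X : Set (EN N)} {m : ℕ}

/-- the zero set of the form `Ω` in the projective space -/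
def ZΩ (Ω : Form X m 1) : Set (MN N) := {y | ∃ x ∈ X, y = pr x ∧ ∀ v w, Tan X x v → Tan X x w → Ω.toFun x v w = 0}

private theorem cz_open (hX : IsCone X) : Pool.Agent.H14.PP.IsOpenPart X X :=
  ⟨subset_rfl, hX.smul_mem, fun _ _ => Filter.Eventually.of_forall fun _ h => h⟩

private theorem cz_ball {χ : Chart X} {x : EN N} (hx : Good χ x) : χ.q x ∈ ball (0 : ℂ × ℂ) 2 := by
  rw [mem_ball_zero_iff]
  have := hx.2.2
  linarith

private theorem cz_tan_smul (hX : IsCone X) {x v : EN N} (h : Tan X x v) {c : ℂ} (hc : c ≠ 0) :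
    Tan X (c • x) (c • v) := by
  obtain ⟨F, ⟨hF, hFX⟩, h0, h1⟩ := h
  refine ⟨fun z => c • F z, ⟨?_, ?_⟩, ?_, ?_⟩
  · exact AnalyticAt.fun_const_smul hF
  · filter_upwards [hFX] with z hz
    exact hX.smul_mem _ hz c hc
  · simp only [h0]
  · rw [← h1]
    exact (hF.differentiableAt.hasDerivAt.const_smul c).deriv

/-- the tangent vectors in a chart -/
private theorem cz_tan (hX : IsCone X) (χ : Chart X) {p : ℂ × ℂ} (hp : p ∈ ball (0 : ℂ × ℂ) 2) {v : EN N}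
    (hv : Tan X (χ.σ p) v) : ∃ (ξ : ℂ × ℂ) (b : ℂ), v = fderiv ℂ χ.σ p ξ + b • χ.σ p := by
  obtain ⟨F, hF, h0, h1⟩ := hv
  have hσ := χ.σ_mem p hp
  have hU : F 0 ∈ χ.U := by rw [h0]; exact hσ.2.1
  obtain ⟨a1, _, c, hc, hc0, hev⟩ := Chart.curve hX χ hF hU
  have hq0 : χ.q (F 0) = p := by rw [h0]; exact hσ.2.2
  have hne : χ.σ p ≠ 0 := Chart.sigma_ne_zero hX χ hp
  have e0 := hev.self_of_nhds.2
  rw [hq0, h0] at e0
  have hc1 : c 0 = 1 := by
    have h2 : (1 : ℂ) • χ.σ p = c 0 • χ.σ p := by rw [one_smul]; exact e0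
    exact (smul_left_injective ℂ hne h2).symm
  have hσd : DifferentiableAt ℂ χ.σ p := (χ.σ_an p hp).differentiableAt
  have hg : HasDerivAt (fun z => χ.q (F z)) (deriv (fun z => χ.q (F z)) 0) 0 :=
    a1.differentiableAt.hasDerivAt
  have hσF : HasFDerivAt χ.σ (fderiv ℂ χ.σ p) (χ.q (F 0)) := by
    rw [hq0]; exact hσd.hasFDerivAt
  have hcomp : HasDerivAt (fun z => χ.σ (χ.q (F z)))
      (fderiv ℂ χ.σ p (deriv (fun z => χ.q (F z)) 0)) 0 := hσF.comp_hasDerivAt (0 : ℂ) hg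
  have hprod := hc.differentiableAt.hasDerivAt.smul hcomp
  have heq : F =ᶠ[𝓝 0] fun z => c z • χ.σ (χ.q (F z)) := hev.mono fun z hz => hz.2
  have hd := heq.deriv_eq
  have hd2 : deriv (fun z => c z • χ.σ (χ.q (F z))) 0
      = c 0 • fderiv ℂ χ.σ p (deriv (fun z => χ.q (F z)) 0) + deriv c 0 • χ.σ (χ.q (F 0)) :=
    hprod.deriv
  refine ⟨deriv (fun z => χ.q (F z)) 0, deriv c 0, ?_⟩
  rw [← h1, hd, hd2, hc1, one_smul, hq0]

private theorem cz_vanish (hX : IsCone X) (Ω : Form X m 1) (χ : Chart X) {p : ℂ × ℂ}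
    (hp : p ∈ ball (0 : ℂ × ℂ) 2) :
    (∀ v w, Tan X (χ.σ p) v → Tan X (χ.σ p) w → Ω.toFun (χ.σ p) v w = 0) ↔ aCoef Ω χ p = 0 := by
  have hσ := χ.σ_mem p hp
  have ht : ∀ w : ℂ × ℂ, Tan X (χ.σ p) (fderiv ℂ χ.σ p w) := fun w =>
    Chart.tan (cz_open hX) χ hp hσ.1 w
  constructor
  · intro h
    exact h _ _ (ht (1, 0)) (ht (0, 1))
  · intro h v w hv hw
    obtain ⟨ξ, b, rfl⟩ := cz_tan hX χ hp hv
    obtain ⟨ξ', b', rfl⟩ := cz_tan hX χ hp hw
    rw [Ω.add_smul _ hσ.1 _ _ (ht ξ) (ht ξ')]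
    have hl : ∀ ζ : ℂ × ℂ, fderiv ℂ χ.σ p ζ
        = ζ.1 • fderiv ℂ χ.σ p (1, 0) + ζ.2 • fderiv ℂ χ.σ p (0, 1) := by
      intro ζ
      rw [← map_smul, ← map_smul, ← map_add]
      congr 1
      ext <;> simp
    rw [hl ξ, hl ξ', Ω.det _ hσ.1 _ _ (ht (1, 0)) (ht (0, 1))]
    have h2 : Ω.toFun (χ.σ p) (fderiv ℂ χ.σ p (1, 0)) (fderiv ℂ χ.σ p (0, 1)) = 0 := h
    rw [h2, mul_zero]

theorem mem_ZΩ (hX : IsCone X) (hm : 1 ≤ m) (Ω : Form X m 1) (χ : Chart X) {x : EN N} (hx : Good χ x) :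
    pr x ∈ ZΩ Ω ↔ aCoef Ω χ (χ.q x) = 0 := by
  have hp := cz_ball hx
  have hσ := χ.σ_mem _ hp
  have hne : χ.σ (χ.q x) ≠ 0 := Chart.sigma_ne_zero hX χ hp
  obtain ⟨_, a, ha, hxa⟩ := χ.surj x hx.1 hx.2.1
  have hpr : pr x = pr (χ.σ (χ.q x)) := by
    conv_lhs => rw [hxa]
    exact Pool.Agent.H62.EF.pr_smul _ ha
  rw [← cz_vanish hX Ω χ hp]
  constructor
  · rintro ⟨x', hx', he, h⟩ v w hv hw
    rw [hpr] at he
    obtain ⟨c, hc, hc'⟩ := (Pool.Agent.H62.EF.pr_eq_iff hne (fun h0 => hX.zero_notMem (h0 ▸ hx'))).1 he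
    have h1 := Ω.scale _ hσ.1 v w hv hw c⁻¹ (inv_ne_zero hc)
    have h2 : c⁻¹ • χ.σ (χ.q x) = x' := by rw [hc', smul_smul, inv_mul_cancel₀ hc, one_smul]
    have hv' := cz_tan_smul hX hv (inv_ne_zero hc)
    have hw' := cz_tan_smul hX hw (inv_ne_zero hc)
    rw [h2] at hv' hw' h1
    rw [← h1, h _ _ hv' hw', mul_zero]
  · intro h
    exact ⟨χ.σ (χ.q x), hσ.1, hpr, h⟩

private theorem cz_aC (hX : IsCone X) (Ω : Form X m 1) (χ : Chart X) {p : ℂ × ℂ}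
    (hp : p ∈ ball (0 : ℂ × ℂ) 2) : AnalyticAt ℂ (aCoef Ω χ) p :=
  Pool.Agent.H14.PP.aCoef_analytic (cz_open hX) Ω χ hp (χ.σ_mem p hp).1

theorem isClosed_ZΩ (hX : IsCone X) (A : Atlas X) (hm : 1 ≤ m) (Ω : Form X m 1) : IsClosed (ZΩ Ω) := by
  apply IsSeqClosed.isClosed
  intro y y₀ hy hlim
  have hsub : ∀ n, y n ∈ pr '' X := fun n => by
    obtain ⟨x, hx, h, _⟩ := hy n
    exact ⟨x, hx, h.symm⟩
  have h0 : y₀ ∈ pr '' X :=
    (Pool.Agent.H62.EF.isCompact_pr hX).isClosed.mem_of_tendsto hlim (Filter.Eventually.of_forall hsub)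
  obtain ⟨x, hx, rfl⟩ := h0
  choose x' hx' hy' using hsub
  obtain ⟨i, hi⟩ : ∃ i, i = A.idx (pr x) := ⟨_, rfl⟩
  have hgx : Good (A.χ i) x := by
    rw [hi]
    exact A.good x hx x hx (by rw [dist_self]; exact A.δ_pos.le)
  rw [mem_ZΩ hX hm Ω (A.χ i) hgx]
  have hdist : Tendsto (fun n => dist (y n) (pr x)) atTop (𝓝 0) := tendsto_iff_dist_tendsto_zero.1 hlim
  have hg : ∀ᶠ n in atTop, Good (A.χ i) (x' n) := by
    filter_upwards [hdist.eventually (gt_mem_nhds A.δ_pos)] with n hn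
    rw [hi]
    refine A.good x hx (x' n) (hx' n) ?_
    rw [dist_comm, hy' n]
    exact hn.le
  have hq : Tendsto (fun n => (A.χ i).q (x' n)) atTop (𝓝 ((A.χ i).q x)) := by
    rw [tendsto_iff_norm_sub_tendsto_zero]
    have h3 : Tendsto (fun n => A.C * dist (y n) (pr x)) atTop (𝓝 0) := by
      have := hdist.const_mul A.C
      rwa [mul_zero] at this
    refine squeeze_zero' (Filter.Eventually.of_forall fun _ => norm_nonneg _) ?_ h3
    filter_upwards [hg] with n hn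
    have := A.le_dist i (x' n) x hn hgx
    rwa [hy' n] at this
  have hc := ((cz_aC hX Ω (A.χ i) (cz_ball hgx)).continuousAt.tendsto).comp hq
  refine tendsto_nhds_unique hc ?_
  refine tendsto_const_nhds.congr' ?_
  filter_upwards [hg] with n hn
  have h4 := hy n
  rw [← hy' n, mem_ZΩ hX hm Ω (A.χ i) hn] at h4
  exact h4.symm

private theorem cz_small (hX : IsCone X) (hm : 1 ≤ m) (Ω : Form X m 1) (χ : Chart X) {η : ℝ} (hη : 0 < η) :
    ∃ δ : ℝ, 0 < δ ∧ ∀ x, Good χ x → ‖aCoef Ω χ (χ.q x)‖ * ‖χ.σ (χ.q x)‖ ≤ δ →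
      ∃ y ∈ ZΩ Ω, dist (pr x) y ≤ η := by
  have hB : ∀ p ∈ closedBall (0 : ℂ × ℂ) (1 / 2), p ∈ ball (0 : ℂ × ℂ) 2 := fun p hp => by
    rw [mem_closedBall_zero_iff] at hp
    rw [mem_ball_zero_iff]
    linarith
  have hσc : ∀ p ∈ closedBall (0 : ℂ × ℂ) (1 / 2), ContinuousAt χ.σ p := fun p hp =>
    (χ.σ_an p (hB p hp)).continuousAt
  have hprc : ContinuousOn (fun p => pr (χ.σ p)) (closedBall (0 : ℂ × ℂ) (1 / 2)) := fun p hp =>
    (ContinuousAt.comp (Pool.Agent.H62.EF.continuousAt_pr (Chart.sigma_ne_zero hX χ (hB p hp)))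
      (hσc p hp)).continuousWithinAt
  have hfc : ContinuousOn (fun p => ‖aCoef Ω χ p‖ * ‖χ.σ p‖) (closedBall (0 : ℂ × ℂ) (1 / 2)) :=
    fun p hp => ((cz_aC hX Ω χ (hB p hp)).continuousAt.norm.mul (hσc p hp).norm).continuousWithinAt
  obtain ⟨Cs, hCs⟩ : ∃ Cs : Set (MN N), Cs = {y' | ∀ y ∈ ZΩ Ω, η ≤ dist y' y} := ⟨_, rfl⟩
  have hCcl : IsClosed Cs := by
    have h1 : Cs = ⋂ y ∈ ZΩ Ω, {y' | η ≤ dist y' y} := by
      rw [hCs]
      ext y'
      simp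
    rw [h1]
    exact isClosed_biInter fun y _ => isClosed_le continuous_const (continuous_id.dist continuous_const)
  obtain ⟨S, hS⟩ : ∃ S : Set (ℂ × ℂ), S = closedBall (0 : ℂ × ℂ) (1 / 2) ∩ (fun p => pr (χ.σ p)) ⁻¹' Cs :=
    ⟨_, rfl⟩
  have hScl : IsClosed S := by
    rw [hS]
    exact hprc.preimage_isClosed_of_isClosed isClosed_closedBall hCcl
  have hSc : IsCompact S := by
    refine (isCompact_closedBall (0 : ℂ × ℂ) (1 / 2)).of_isClosed_subset hScl ?_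
    rw [hS]
    exact Set.inter_subset_left
  have hgood : ∀ p ∈ closedBall (0 : ℂ × ℂ) (1 / 2), Good χ (χ.σ p) := fun p hp => by
    have h1 := χ.σ_mem p (hB p hp)
    refine ⟨h1.1, h1.2.1, ?_⟩
    rw [h1.2.2]
    exact mem_closedBall_zero_iff.1 hp
  have hpos : ∀ p ∈ S, 0 < ‖aCoef Ω χ p‖ * ‖χ.σ p‖ := by
    intro p hp
    rw [hS] at hp
    have hne : χ.σ p ≠ 0 := Chart.sigma_ne_zero hX χ (hB p hp.1)
    refine mul_pos (norm_pos_iff.2 fun h0 => ?_) (norm_pos_iff.2 hne)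
    have h1 : pr (χ.σ p) ∈ ZΩ Ω := by
      rw [mem_ZΩ hX hm Ω χ (hgood p hp.1), (χ.σ_mem p (hB p hp.1)).2.2]
      exact h0
    have h2 := hp.2
    rw [Set.mem_preimage, hCs] at h2
    have h3 := h2 _ h1
    rw [dist_self] at h3
    linarith
  have hmin : ∃ δ : ℝ, 0 < δ ∧ ∀ p ∈ S, δ < ‖aCoef Ω χ p‖ * ‖χ.σ p‖ := by
    rcases S.eq_empty_or_nonempty with h0 | h0
    · exact ⟨1, one_pos, fun p hp => by rw [h0] at hp; exact absurd hp (Set.notMem_empty p)⟩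
    · have hSsub : S ⊆ closedBall (0 : ℂ × ℂ) (1 / 2) := by
        rw [hS]
        exact Set.inter_subset_left
      obtain ⟨p, hp, hpm⟩ := hSc.exists_isMinOn h0 (hfc.mono hSsub)
      refine ⟨(‖aCoef Ω χ p‖ * ‖χ.σ p‖) / 2, half_pos (hpos p hp), fun p' hp' => ?_⟩
      have h1 : ‖aCoef Ω χ p‖ * ‖χ.σ p‖ ≤ ‖aCoef Ω χ p'‖ * ‖χ.σ p'‖ := hpm hp'
      have h2 := hpos p hp
      linarith
  obtain ⟨δ, hδ, hδ'⟩ := hmin
  refine ⟨δ, hδ, fun x hx hle => ?_⟩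
  have hpx : χ.q x ∈ closedBall (0 : ℂ × ℂ) (1 / 2) := mem_closedBall_zero_iff.2 hx.2.2
  have hnS : χ.q x ∉ S := fun h => absurd hle (not_le.2 (hδ' _ h))
  rw [hS, Set.mem_inter_iff, not_and, Set.mem_preimage, hCs] at hnS
  have h2 := hnS hpx
  obtain ⟨_, a, ha, hxa⟩ := χ.surj x hx.1 hx.2.1
  have hpr : pr x = pr (χ.σ (χ.q x)) := by
    conv_lhs => rw [hxa]
    exact Pool.Agent.H62.EF.pr_smul _ ha
  rw [← hpr] at h2
  by_contra hcon
  apply h2
  intro y hy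
  by_contra h3
  exact hcon ⟨y, hy, (not_le.1 h3).le⟩

theorem ZΩ_small (hX : IsCone X) (A : Atlas X) (hm : 1 ≤ m) (Ω : Form X m 1) {η : ℝ} (hη : 0 < η) :
    ∃ δ : ℝ, 0 < δ ∧ ∀ i x, Good (A.χ i) x → cf A Ω i x ≤ δ → ∃ y ∈ ZΩ Ω, dist (pr x) y ≤ η := by
  choose d hd hd' using fun i => cz_small hX hm Ω (A.χ i) hη
  rcases isEmpty_or_nonempty (Fin A.n) with h0 | h0
  · exact ⟨1, one_pos, fun i => isEmptyElim i⟩
  · obtain ⟨i₀, hi₀⟩ := Finite.exists_min d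
    exact ⟨d i₀, hd i₀, fun i x hx hle => hd' i x hx (hle.trans (hi₀ i))⟩

theorem ZΩ_dense (hX : IsCone X) (A : Atlas X) (hm : 1 ≤ m) (Ω : Form X m 1) {F : ℂ → EN N} (hF : Differentiable ℂ F) (hFX : ∀ z, F z ∈ X) :
    (∀ z, evp F z ∈ ZΩ Ω) ∨ ∀ z₀, ∀ᶠ z in 𝓝[≠] z₀, evp F z ∉ ZΩ Ω := by
  have hne : ∀ z, F z ≠ 0 := fun z h0 => hX.zero_notMem (h0 ▸ hFX z)
  have hcont : Continuous fun z => pr (F z) := continuous_iff_continuousAt.2 fun z =>
    ContinuousAt.comp (g := pr) (f := F) (Pool.Agent.H62.EF.continuousAt_pr (hne z)) hF.continuous.continuousAt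
  have hdich : ∀ z₁, (∀ᶠ z in 𝓝 z₁, evp F z ∈ ZΩ Ω) ∨ ∀ᶠ z in 𝓝[≠] z₁, evp F z ∉ ZΩ Ω := by
    intro z₁
    obtain ⟨i, hi⟩ : ∃ i, i = A.idx (pr (F z₁)) := ⟨_, rfl⟩
    have hg : ∀ᶠ z in 𝓝 z₁, Good (A.χ i) (F z) := by
      have h1 : Tendsto (fun z => dist (pr (F z₁)) (pr (F z))) (𝓝 z₁) (𝓝 0) := by
        have h2 : Continuous fun z => dist (pr (F z₁)) (pr (F z)) := continuous_const.dist hcont
        have h3 := h2.tendsto z₁
        rwa [dist_self] at h3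
      filter_upwards [h1.eventually (gt_mem_nhds A.δ_pos)] with z hz
      rw [hi]
      exact A.good _ (hFX z₁) _ (hFX z) hz.le
    have hg1 := hg.self_of_nhds
    have ha : AnalyticAt ℂ (fun z => aCoef Ω (A.χ i) ((A.χ i).q (F z))) z₁ := by
      have h1 : AnalyticAt ℂ F z₁ := hF.analyticAt z₁
      have h2 : AnalyticAt ℂ (fun z => (A.χ i).q (F z)) z₁ :=
        AnalyticAt.fun_comp ((A.χ i).q_an _ hg1.2.1) h1
      exact AnalyticAt.fun_comp (f := fun z => (A.χ i).q (F z)) (cz_aC hX Ω (A.χ i) (cz_ball hg1)) h2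
    rcases ha.eventually_eq_zero_or_eventually_ne_zero with h | h
    · left
      filter_upwards [h, hg] with z hz hz'
      exact (mem_ZΩ hX hm Ω (A.χ i) hz').2 hz
    · right
      filter_upwards [h, hg.filter_mono nhdsWithin_le_nhds] with z hz hz'
      exact fun h' => hz ((mem_ZΩ hX hm Ω (A.χ i) hz').1 h')
  by_cases hall : ∀ z₀, ∀ᶠ z in 𝓝[≠] z₀, evp F z ∉ ZΩ Ω
  · exact Or.inr hall
  · left
    push Not at hall
    obtain ⟨z₀, hz₀⟩ := hall
    obtain ⟨U, hU⟩ : ∃ U : Set ℂ, U = {z₁ | ∀ᶠ z in 𝓝 z₁, evp F z ∈ ZΩ Ω} := ⟨_, rfl⟩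
    have hUo : IsOpen U := by
      rw [hU, isOpen_iff_mem_nhds]
      intro z hz
      exact eventually_eventually_nhds.2 hz
    have hUc : IsClosed U := by
      rw [← isOpen_compl_iff, isOpen_iff_mem_nhds]
      intro z hz
      rcases hdich z with h | h
      · exact absurd (by rw [hU]; exact h) hz
      · rw [eventually_nhdsWithin_iff] at h
        filter_upwards [h] with z' hz' hz'U
        by_cases he : z' = z
        · rw [he] at hz'U
          exact hz hz'U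
        · have h1 : ∀ᶠ w in 𝓝 z', evp F w ∈ ZΩ Ω := by rw [hU] at hz'U; exact hz'U
          exact hz' he h1.self_of_nhds
    have hUn : U.Nonempty := by
      refine ⟨z₀, ?_⟩
      rcases hdich z₀ with h | h
      · rw [hU]; exact h
      · exact absurd h hz₀
    have huniv : U = Set.univ := IsClopen.eq_univ ⟨hUc, hUo⟩ hUn
    intro z
    have h1 : z ∈ U := by rw [huniv]; exact Set.mem_univ z
    rw [hU] at h1
    exact (show ∀ᶠ w in 𝓝 z, evp F w ∈ ZΩ Ω from h1).self_of_nhds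

end Pool.Agent.H5.BD

end

section

/-!
# MQ2 Slope: the lift of the curve to the blow-up
-/

set_option autoImplicit false

open Topology Filter Metric MeasureTheory Asymptotics Laplacian

noncomputable section

namespace Pool.Agent.MQ2

open Pool.Agent.MQ

/-- an analytic function which is not `0` near `z` has no zeros in a punctured neighbourhood -/
private theorem pun {a : ℂ → ℂ} {z : ℂ} (ha : AnalyticAt ℂ a z) (h : ∃ᶠ w in 𝓝 z, a w ≠ 0) : ∀ᶠ w in 𝓝[≠] z, a w ≠ 0 := by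
  rcases ha.eventually_eq_zero_or_eventually_ne_zero with h1 | h1
  · exact absurd h1 (by
      intro h2
      exact h (h2.mono fun w hw => not_not.2 hw))
  · exact h1

private theorem an_fst {p : ℂ → ℂ × ℂ} {z : ℂ} (hp : AnalyticAt ℂ p z) : AnalyticAt ℂ (fun w => (p w).1) z := analyticAt_fst.comp hp
private theorem an_snd {p : ℂ → ℂ × ℂ} {z : ℂ} (hp : AnalyticAt ℂ p z) : AnalyticAt ℂ (fun w => (p w).2) z := analyticAt_snd.comp hp

theorem slope_val {p : ℂ → ℂ × ℂ} {z : ℂ} (hp : AnalyticAt ℂ p z) (h1 : ∃ᶠ w in 𝓝 z, (p w).1 ≠ 0) {f : ℂ → ℂ} (hf : AnalyticAt ℂ f z)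
    (h2 : ∀ᶠ w in 𝓝 z, (p w).2 = (p w).1 * f w) : slope p z = f z := by
  have hS : HasSlope p z := ⟨h1, f, hf, h2⟩
  have h3 : slope p z = hS.2.choose z := by
    unfold slope
    rw [dif_pos hS]
  obtain ⟨h4, h5⟩ := hS.2.choose_spec
  rw [h3]
  have h6 : ∀ᶠ w in 𝓝[≠] z, hS.2.choose w = f w := by
    filter_upwards [pun (an_fst hp) h1, h5.filter_mono nhdsWithin_le_nhds, h2.filter_mono nhdsWithin_le_nhds] with w h7 h8 h9
    exact mul_left_cancel₀ h7 (h8.symm.trans h9)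
  exact ((h4.frequently_eq_iff_eventually_eq hf).1 h6.frequently).self_of_nhds

theorem HasSlope.snd_eq {p : ℂ → ℂ × ℂ} {z : ℂ} (h : HasSlope p z) (hp : AnalyticAt ℂ p z) : (p z).2 = (p z).1 * slope p z := by
  obtain ⟨h1, f, hf, h2⟩ := h
  rw [slope_val hp h1 hf h2]
  exact h2.self_of_nhds

/-- one of the two quotients is holomorphic -/
theorem slope_dich {p : ℂ → ℂ × ℂ} {z : ℂ} (hp : AnalyticAt ℂ p z) (h : ∃ᶠ w in 𝓝 z, p w ≠ 0) :
    ((∃ᶠ w in 𝓝 z, (p w).1 ≠ 0) ∧ ∃ f : ℂ → ℂ, AnalyticAt ℂ f z ∧ ∀ᶠ w in 𝓝 z, (p w).2 = (p w).1 * f w) ∨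
    ((∃ᶠ w in 𝓝 z, (p w).2 ≠ 0) ∧ ∃ f : ℂ → ℂ, AnalyticAt ℂ f z ∧ f z = 0 ∧ ∀ᶠ w in 𝓝 z, (p w).1 = (p w).2 * f w) := by
  by_cases h1 : ∀ᶠ w in 𝓝 z, (p w).1 = 0
  · right
    refine ⟨?_, fun _ => 0, analyticAt_const, rfl, ?_⟩
    · intro h2
      refine h ?_
      filter_upwards [h1, h2] with w h3 h4
      exact not_not.2 (Prod.ext h3 (not_not.1 h4))
    · filter_upwards [h1] with w h3
      rw [h3, mul_zero]
  by_cases h2 : ∀ᶠ w in 𝓝 z, (p w).2 = 0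
  · left
    refine ⟨fun h3 => h1 (h3.mono fun w hw => not_not.1 hw), fun _ => 0, analyticAt_const, ?_⟩
    filter_upwards [h2] with w h3
    rw [h3, mul_zero]
  obtain ⟨m, a, ha, ha0, ha1⟩ := (an_fst hp).exists_eventuallyEq_pow_smul_nonzero_iff.2 h1
  obtain ⟨n, b, hb, hb0, hb1⟩ := (an_snd hp).exists_eventuallyEq_pow_smul_nonzero_iff.2 h2
  by_cases hmn : m ≤ n
  · left
    refine ⟨fun h3 => h1 (h3.mono fun w hw => not_not.1 hw), fun w => (w - z) ^ (n - m) * (b w / a w), ?_, ?_⟩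
    · exact ((analyticAt_id.sub analyticAt_const).pow _).mul (hb.div ha ha0)
    · filter_upwards [ha1, hb1, ha.continuousAt.eventually_ne ha0] with w h3 h4 h5
      rw [h3, h4, smul_eq_mul, smul_eq_mul]
      have h6 : (w - z) ^ n = (w - z) ^ m * (w - z) ^ (n - m) := by rw [← pow_add, Nat.add_sub_cancel' hmn]
      rw [h6]
      field_simp
  · right
    have hnm : n < m := not_le.1 hmn
    refine ⟨fun h3 => h2 (h3.mono fun w hw => not_not.1 hw), fun w => (w - z) ^ (m - n) * (a w / b w), ?_, ?_, ?_⟩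
    · exact ((analyticAt_id.sub analyticAt_const).pow _).mul (ha.div hb hb0)
    · simp only [sub_self]
      rw [zero_pow (Nat.sub_ne_zero_of_lt hnm), zero_mul]
    · filter_upwards [ha1, hb1, hb.continuousAt.eventually_ne hb0] with w h3 h4 h5
      rw [h3, h4, smul_eq_mul, smul_eq_mul]
      have h6 : (w - z) ^ m = (w - z) ^ n * (w - z) ^ (m - n) := by rw [← pow_add, Nat.add_sub_cancel' hnm.le]
      rw [h6]
      field_simp

private theorem dch {e ι : ℕ} {t : ℂ} {v w : ℂ × ℂ → ℂ × ℂ} (hw : Child e ι t v w) : ∀ᶠ ρ in 𝓝[>] (0 : ℝ), ∀ q ∈ ball (0 : ℂ × ℂ) ρ,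
    AnalyticAt ℂ w q ∧ (v (be t q)).1 = q.1 ^ e * (w q).1 ∧ (v (be t q)).2 = (q.2 + t) * (v (be t q)).1 + q.1 ^ (e + 1) * (w q).2 := by
  have h1 := hw.an.eventually_analyticAt.and (hw.fst.and hw.snd)
  obtain ⟨δ, hδ, h2⟩ := Metric.eventually_nhds_iff_ball.1 h1
  filter_upwards [Ioo_mem_nhdsGT hδ] with ρ h3 q hq
  exact h2 q (ball_subset_ball h3.2.le hq)

/-- the curve in the chart is a curve tangent to the transform -/
theorem crv_child {e ι : ℕ} {t : ℂ} {v w : ℂ × ℂ → ℂ × ℂ} (hw : Child e ι t v w) : ∀ᶠ ρ in 𝓝[>] (0 : ℝ), ∀ (r : ℝ) (Om : Set ℂ) (p : ℂ → ℂ × ℂ),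
    Crv1 v r Om p → (∀ z ∈ Om, ∃ᶠ w in 𝓝 z, p w ≠ 0) → ρ < r → ρ * (ρ + ‖t‖) < r → Crv1 w ρ (Omt Om p t ρ) (pt t p) ∧
      (∀ z ∈ Omt Om p t ρ, ∃ᶠ w in 𝓝 z, pt t p w ≠ 0) ∧
      ∀ z ∈ Omt Om p t ρ, (p z).1 ≠ 0 → v (p z) ≠ 0 → w (pt t p z) ≠ 0 ∧ ztv w (pt t p) z = (p z).1 ^ e * ztv v p z := by
  filter_upwards [dch hw] with ρ hρ r Om p hc hne hρr hρt
  -- the data at a point of `Omt`
  have key : ∀ z ∈ Omt Om p t ρ, ∃ f : ℂ → ℂ, AnalyticAt ℂ f z ∧ (∀ᶠ u in 𝓝 z, (p u).2 = (p u).1 * f u) ∧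
      (∀ᶠ u in 𝓝 z, u ∈ Om ∧ HasSlope p u ∧ slope p u = f u) := by
    rintro z ⟨hz, ⟨h1, f, hf, h2⟩, -, -⟩
    exact ⟨f, hf, h2, Filter.Eventually.and (hc.isOpen.mem_nhds hz) (slope_eq (hc.an z hz) h1 hf h2)⟩
  have hmem : ∀ z ∈ Omt Om p t ρ, pt t p z ∈ ball (0 : ℂ × ℂ) ρ := by
    intro z hz
    rw [mem_ball_zero_iff, Prod.norm_def]
    exact max_lt hz.2.2.1 hz.2.2.2
  have han : ∀ z ∈ Omt Om p t ρ, AnalyticAt ℂ (pt t p) z := by
    intro z hz
    obtain ⟨f, hf, h2, h3⟩ := key z hz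
    have h4 : AnalyticAt ℂ (fun u => ((p u).1, f u - t)) z := (an_fst (hc.an z hz.1)).prod (hf.sub analyticAt_const)
    refine h4.congr ?_
    filter_upwards [h3] with u h5
    exact Prod.ext rfl (by show f u - t = slope p u - t; rw [h5.2.2])
  have hopen : IsOpen (Omt Om p t ρ) := by
    rw [isOpen_iff_eventually]
    intro z hz
    obtain ⟨f, hf, h2, h3⟩ := key z hz
    have h4 : ∀ᶠ u in 𝓝 z, pt t p u ∈ ball (0 : ℂ × ℂ) ρ := (han z hz).continuousAt.eventually (isOpen_ball.mem_nhds (hmem z hz))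
    filter_upwards [h3, h4] with u h5 h6
    rw [mem_ball_zero_iff, Prod.norm_def] at h6
    exact ⟨h5.1, h5.2.1, (le_max_left _ _).trans_lt h6, (le_max_right _ _).trans_lt h6⟩
  -- the first component is not `0` near a point of `Omt`
  have hpun : ∀ z ∈ Omt Om p t ρ, ∀ᶠ u in 𝓝[≠] z, (p u).1 ≠ 0 := fun z hz => pun (an_fst (hc.an z hz.1)) hz.2.1.1
  -- the derivative of `p` in terms of the chart
  have hder : ∀ z ∈ Omt Om p t ρ, (deriv p z).1 = (deriv (pt t p) z).1 ∧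
      (deriv p z).2 = (p z).1 * (deriv (pt t p) z).2 + (deriv (pt t p) z).1 * ((pt t p z).2 + t) := by
    intro z hz
    have h1 : HasDerivAt (pt t p) (deriv (pt t p) z) z := (han z hz).differentiableAt.hasDerivAt
    have h2 : HasDerivAt (fun u => (pt t p u).1) (deriv (pt t p) z).1 z := by
      have h9 := (ContinuousLinearMap.fst ℂ ℂ ℂ).hasFDerivAt (x := pt t p z) |>.comp_hasDerivAt z h1
      exact h9
    have h3 : HasDerivAt (fun u => (pt t p u).2) (deriv (pt t p) z).2 z := by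
      have h9 := (ContinuousLinearMap.snd ℂ ℂ ℂ).hasFDerivAt (x := pt t p z) |>.comp_hasDerivAt z h1
      exact h9
    have h4 : HasDerivAt (fun u => ((pt t p u).1, (pt t p u).1 * ((pt t p u).2 + t)))
        ((deriv (pt t p) z).1, (deriv (pt t p) z).1 * ((pt t p z).2 + t) + (pt t p z).1 * (deriv (pt t p) z).2) z :=
      h2.prodMk (h2.mul (h3.add_const t))
    have h5 : p =ᶠ[𝓝 z] fun u => ((pt t p u).1, (pt t p u).1 * ((pt t p u).2 + t)) := by
      filter_upwards [hopen.mem_nhds hz] with u hu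
      exact (be_pt hu (hc.an u hu.1)).symm
    have h6 : deriv p z = ((deriv (pt t p) z).1, (deriv (pt t p) z).1 * ((pt t p z).2 + t) + (pt t p z).1 * (deriv (pt t p) z).2) :=
      (h4.congr_of_eventuallyEq h5).deriv
    rw [h6]
    refine ⟨rfl, ?_⟩
    show (deriv (pt t p) z).1 * ((pt t p z).2 + t) + (p z).1 * (deriv (pt t p) z).2 = _
    ring
  -- the vector field in the chart
  have hv : ∀ z ∈ Omt Om p t ρ, (v (p z)).1 = (p z).1 ^ e * (w (pt t p z)).1 ∧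
      (v (p z)).2 = ((pt t p z).2 + t) * ((p z).1 ^ e * (w (pt t p z)).1) + (p z).1 ^ (e + 1) * (w (pt t p z)).2 := by
    intro z hz
    obtain ⟨-, h1, h2⟩ := hρ _ (hmem z hz)
    rw [h1, be_pt hz (hc.an z hz.1)] at h2
    rw [be_pt hz (hc.an z hz.1)] at h1
    exact ⟨h1, h2⟩
  have hode1 : ∀ z ∈ Omt Om p t ρ, (p z).1 ≠ 0 → (w (pt t p z)).1 * (deriv (pt t p) z).2 - (w (pt t p z)).2 * (deriv (pt t p) z).1 = 0 := by
    intro z hz h0
    have h1 := hc.ode z hz.1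
    rw [(hder z hz).1, (hder z hz).2, (hv z hz).1, (hv z hz).2] at h1
    have h2 : (p z).1 ^ (e + 1) * ((w (pt t p z)).1 * (deriv (pt t p) z).2 - (w (pt t p z)).2 * (deriv (pt t p) z).1) = 0 := by
      rw [← h1]
      ring
    exact (mul_eq_zero.1 h2).resolve_left (pow_ne_zero _ h0)
  have hcrv : Crv1 w ρ (Omt Om p t ρ) (pt t p) := by
    refine ⟨hopen, han, hmem, ?_, ?_⟩
    · intro s hs
      rcases lt_or_ge s 0 with hs0 | hs0
      · have h1 : {z | z ∈ Omt Om p t ρ ∧ pt t p z ∈ closedBall (0 : ℂ × ℂ) s} = ∅ := by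
          rw [closedBall_eq_empty.2 hs0]
          ext z
          simp
        rw [h1]
        exact isClosed_empty
      have ht := norm_nonneg t
      set s' : ℝ := max s (s * (s + ‖t‖)) with hs'
      have hs'r : s' < r := by
        refine max_lt (hs.trans hρr) (lt_of_le_of_lt ?_ hρt)
        exact mul_le_mul hs.le (by linarith) (by positivity) (by linarith)
      have hsub : {z | z ∈ Omt Om p t ρ ∧ pt t p z ∈ closedBall (0 : ℂ × ℂ) s} ⊆ {z | z ∈ Om ∧ p z ∈ closedBall (0 : ℂ × ℂ) s'} := by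
        rintro z ⟨hz, h1⟩
        refine ⟨hz.1, ?_⟩
        rw [mem_closedBall_zero_iff, Prod.norm_def] at h1 ⊢
        have h2 : ‖(p z).1‖ ≤ s := (le_max_left _ _).trans h1
        have h3 : ‖slope p z - t‖ ≤ s := (le_max_right _ _).trans h1
        refine max_le (h2.trans (le_max_left _ _)) ((le_max_right _ _).trans' ?_)
        rw [hz.2.1.snd_eq (hc.an z hz.1), norm_mul]
        have h4 : ‖slope p z‖ ≤ s + ‖t‖ := by
          calc ‖slope p z‖ = ‖(slope p z - t) + t‖ := by rw [sub_add_cancel]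
            _ ≤ ‖slope p z - t‖ + ‖t‖ := norm_add_le _ _
            _ ≤ s + ‖t‖ := by linarith
        exact mul_le_mul h2 h4 (norm_nonneg _) hs0
      have hbd : ∀ u, ‖slope p u - t‖ ≤ s → ‖slope p u‖ ≤ s + ‖t‖ := by
        intro u hu
        calc ‖slope p u‖ = ‖(slope p u - t) + t‖ := by rw [sub_add_cancel]
          _ ≤ ‖slope p u - t‖ + ‖t‖ := norm_add_le _ _
          _ ≤ s + ‖t‖ := by linarith
      rw [isClosed_iff_frequently]
      intro z hfr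
      by_cases hzS : z ∈ {z | z ∈ Omt Om p t ρ ∧ pt t p z ∈ closedBall (0 : ℂ × ℂ) s}
      · exact hzS
      have hz : z ∈ {z | z ∈ Om ∧ p z ∈ closedBall (0 : ℂ × ℂ) s'} :=
        isClosed_iff_frequently.1 (hc.closed s' hs'r) z (hfr.mono fun u hu => hsub hu)
      have hp := hc.an z hz.1
      have hfr' : ∃ᶠ u in 𝓝[≠] z, u ∈ {z | z ∈ Omt Om p t ρ ∧ pt t p z ∈ closedBall (0 : ℂ × ℂ) s} := by
        rw [frequently_nhdsWithin_iff]
        exact hfr.mono fun u hu => ⟨hu, fun h => hzS (by rw [← (h : u = z)]; exact hu)⟩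
      rcases slope_dich hp (hne z hz.1) with ⟨h1, f, hf, h2⟩ | ⟨h1, f, hf, hf0, h2⟩
      · have h3 := slope_eq hp h1 hf h2
        have h4 : ContinuousAt (fun u => ((p u).1, f u - t)) z := ((an_fst hp).prod (hf.sub analyticAt_const)).continuousAt
        have h5 : ((p z).1, f z - t) ∈ closedBall (0 : ℂ × ℂ) s := by
          by_contra h6
          have h7 : ∀ᶠ u in 𝓝 z, ((p u).1, f u - t) ∈ (closedBall (0 : ℂ × ℂ) s)ᶜ :=
            h4.eventually (isClosed_closedBall.isOpen_compl.mem_nhds h6)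
          obtain ⟨u, hu, h8, h9⟩ := (hfr.and_eventually (h7.and h3)).exists
          refine h8 ?_
          have h10 := hu.2
          rw [pt, h9.2] at h10
          exact h10
        have h6 : pt t p z = ((p z).1, f z - t) := by
          rw [pt, h3.self_of_nhds.2]
        have h7 : ‖(p z).1‖ ≤ s ∧ ‖f z - t‖ ≤ s := by
          rw [mem_closedBall_zero_iff, Prod.norm_def] at h5
          exact ⟨(le_max_left _ _).trans h5, (le_max_right _ _).trans h5⟩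
        refine absurd ⟨⟨hz.1, h3.self_of_nhds.1, h7.1.trans_lt hs, ?_⟩, ?_⟩ hzS
        · rw [h3.self_of_nhds.2]
          exact h7.2.trans_lt hs
        · rw [h6]
          exact h5
      · exfalso
        have h3 : ∀ᶠ u in 𝓝 z, ‖f u‖ * (s + ‖t‖ + 1) < 1 := by
          have h4 : ContinuousAt (fun u => ‖f u‖ * (s + ‖t‖ + 1)) z := hf.continuousAt.norm.mul continuousAt_const
          refine h4.eventually (Iio_mem_nhds ?_)
          show ‖f z‖ * (s + ‖t‖ + 1) < 1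
          rw [hf0, norm_zero, zero_mul]
          exact one_pos
        obtain ⟨u, hu, h4, h5, h6⟩ := (hfr'.and_eventually ((pun (an_snd hp) h1).and
          ((h3.filter_mono nhdsWithin_le_nhds).and (h2.filter_mono nhdsWithin_le_nhds)))).exists
        have h7 := hu.1.2.1.snd_eq (hc.an u hu.1.1)
        have h8 := hu.2
        rw [mem_closedBall_zero_iff, Prod.norm_def] at h8
        have h9 : ‖slope p u‖ ≤ s + ‖t‖ := hbd u ((le_max_right _ _).trans h8)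
        rw [h6, mul_assoc] at h7
        have h10 : f u * slope p u = 1 := (mul_left_cancel₀ h4 (by rw [mul_one]; exact h7)).symm
        have h11 : ‖f u‖ * ‖slope p u‖ = 1 := by rw [← norm_mul, h10, norm_one]
        have h12 : ‖f u‖ * ‖slope p u‖ ≤ ‖f u‖ * (s + ‖t‖ + 1) := mul_le_mul_of_nonneg_left (by linarith) (norm_nonneg _)
        linarith
    · intro z hz
      by_cases h0 : (p z).1 = 0
      · have h1 : AnalyticAt ℂ (fun u => (w (pt t p u)).1 * (deriv (pt t p) u).2 - (w (pt t p u)).2 * (deriv (pt t p) u).1) z := by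
          have h2 : AnalyticAt ℂ (fun u => w (pt t p u)) z := ((hρ _ (hmem z hz)).1).comp (han z hz)
          exact ((an_fst h2).mul (an_snd (han z hz).deriv)).sub ((an_snd h2).mul (an_fst (han z hz).deriv))
        have h3 : ∀ᶠ u in 𝓝[≠] z, (w (pt t p u)).1 * (deriv (pt t p) u).2 - (w (pt t p u)).2 * (deriv (pt t p) u).1 = 0 := by
          have h6 : ∀ᶠ u in 𝓝 z, u ∈ Omt Om p t ρ := hopen.mem_nhds hz
          filter_upwards [hpun z hz, h6.filter_mono nhdsWithin_le_nhds] with u h4 h5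
          exact hode1 u h5 h4
        exact (h1.frequently_zero_iff_eventually_zero.1 h3.frequently).self_of_nhds
      · exact hode1 z hz h0
  refine ⟨hcrv, ?_, ?_⟩
  · intro z hz
    refine hz.2.1.1.mono fun u hu h1 => hu ?_
    exact congrArg Prod.fst h1
  · intro z hz h0 h1
    have h2 : w (pt t p z) ≠ 0 := by
      intro h3
      apply h1
      refine Prod.ext ?_ ?_
      · rw [(hv z hz).1, h3]
        simp
      · rw [(hv z hz).2, h3]
        simp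
    refine ⟨h2, ?_⟩
    have h3 := hc.deriv_fst hz.1 h1
    have h4 := hc.deriv_snd hz.1 h1
    have h5 := hcrv.deriv_fst hz h2
    have h6 := hcrv.deriv_snd hz h2
    rw [(hder z hz).1, (hv z hz).1] at h3
    rw [(hder z hz).2, (hv z hz).2, h3] at h4
    have h7 : (deriv (pt t p) z).2 = (p z).1 ^ e * ztv v p z * (w (pt t p z)).2 := by
      have h8 : (p z).1 * (deriv (pt t p) z).2 = (p z).1 * ((p z).1 ^ e * ztv v p z * (w (pt t p z)).2) := by
        linear_combination h4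
      exact mul_left_cancel₀ h0 h8
    by_cases h8 : (w (pt t p z)).1 = 0
    · have h9 : (w (pt t p z)).2 ≠ 0 := fun h9 => h2 (Prod.ext h8 h9)
      exact mul_right_cancel₀ h9 (h6.symm.trans h7)
    · refine mul_right_cancel₀ h8 (h5.symm.trans (h3.trans ?_))
      ring

end Pool.Agent.MQ2

end
end

section

/-!
# MQ2 Swap: the coordinates exchanged
-/

set_option autoImplicit false

open Topology Filter Metric MeasureTheory Asymptotics Laplacian

noncomputable section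

namespace Pool.Agent.MQ2

open Pool.Agent.H36.BP (EN)
open Pool.Agent.H30M (tau LogSing)
open Pool.Agent.MQ

/-- the exchange of the coordinates -/
def swL : (ℂ × ℂ) ≃L[ℂ] (ℂ × ℂ) := ContinuousLinearEquiv.prodComm ℂ ℂ ℂ

theorem an_swap (p : ℂ × ℂ) : AnalyticAt ℂ (fun q : ℂ × ℂ => q.swap) p := (swL : (ℂ × ℂ) →L[ℂ] (ℂ × ℂ)).analyticAt p

theorem tendsto_swap0 : Tendsto (fun q : ℂ × ℂ => q.swap) (𝓝 0) (𝓝 0) := by
  have h := (continuous_swap (X := ℂ) (Y := ℂ)).tendsto (0 : ℂ × ℂ)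
  exact h

theorem norm_swap' (p : ℂ × ℂ) : ‖p.swap‖ = ‖p‖ := by
  rw [Prod.norm_def, Prod.norm_def, Prod.fst_swap, Prod.snd_swap, max_comm]

theorem hasDerivAt_swap {p : ℂ → ℂ × ℂ} {z : ℂ} {p' : ℂ × ℂ} (h : HasDerivAt p p' z) : HasDerivAt (fun w => (p w).swap) p'.swap z :=
  (swL : (ℂ × ℂ) →L[ℂ] (ℂ × ℂ)).hasFDerivAt.comp_hasDerivAt z h

theorem deriv_swap {p : ℂ → ℂ × ℂ} {z : ℂ} (h : DifferentiableAt ℂ p z) : deriv (fun w => (p w).swap) z = (deriv p z).swap :=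
  (hasDerivAt_swap h.hasDerivAt).deriv

theorem crv_swap {v : ℂ × ℂ → ℂ × ℂ} {r : ℝ} {Om : Set ℂ} {p : ℂ → ℂ × ℂ} (h : Crv1 v r Om p) : Crv1 (swv v) r Om fun z => (p z).swap where
  isOpen := h.isOpen
  an := fun z hz => (an_swap (p z)).comp (h.an z hz)
  mem := fun z hz => by
    have h1 := h.mem z hz
    rw [mem_ball_zero_iff] at h1 ⊢
    rwa [norm_swap']
  closed := fun s hs => by
    have h1 := h.closed s hs
    convert h1 using 4 with z
    rw [mem_closedBall_zero_iff, mem_closedBall_zero_iff, norm_swap']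
  ode := fun z hz => by
    have h1 := h.ode z hz
    rw [deriv_swap (h.an z hz).differentiableAt]
    simp only [swv, Prod.swap_swap, Prod.fst_swap, Prod.snd_swap]
    linear_combination -h1

theorem ztv_swap {v : ℂ × ℂ → ℂ × ℂ} {r : ℝ} {Om : Set ℂ} {p : ℂ → ℂ × ℂ} (h : Crv1 v r Om p) {z : ℂ} (hz : z ∈ Om) (hv : v (p z) ≠ 0) :
    ztv (swv v) (fun z => (p z).swap) z = ztv v p z := by
  have hd := deriv_swap (h.an z hz).differentiableAt
  by_cases h2 : (v (p z)).1 = 0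
  · have h3 : (v (p z)).2 ≠ 0 := fun h3 => hv (Prod.ext h2 h3)
    have h4 : (swv v (p z).swap).1 ≠ 0 := by
      simpa [swv] using h3
    rw [(crv_swap h).ztv_fst hz h4, hd, MQ.ztv_snd h3]
    simp [swv]
  · have h4 : (swv v (p z).swap).2 ≠ 0 := by
      simpa [swv] using h2
    rw [MQ.ztv_snd (v := swv v) (g := fun z => (p z).swap) h4, hd, h.ztv_fst hz h2]
    simp [swv]

theorem fderiv_swap (g : ℂ × ℂ → ℂ) (p w : ℂ × ℂ) : fderiv ℂ (fun q : ℂ × ℂ => g q.swap) p w = fderiv ℂ g p.swap w.swap := by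
  have h : fderiv ℂ (g ∘ swL) p = (fderiv ℂ g (swL p)).comp (swL : (ℂ × ℂ) →L[ℂ] (ℂ × ℂ)) := swL.comp_right_fderiv
  have h' : fderiv ℂ (fun q : ℂ × ℂ => g q.swap) p = (fderiv ℂ g (swL p)).comp (swL : (ℂ × ℂ) →L[ℂ] (ℂ × ℂ)) := h
  rw [h']
  rfl

theorem fderiv_swv {v : ℂ × ℂ → ℂ × ℂ} (p w : ℂ × ℂ) : fderiv ℂ (swv v) p w = (fderiv ℂ v p.swap w.swap).swap := by
  have h : fderiv ℂ ((swL ∘ v) ∘ swL) p = (fderiv ℂ (swL ∘ v) (swL p)).comp (swL : (ℂ × ℂ) →L[ℂ] (ℂ × ℂ)) := swL.comp_right_fderiv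
  have h' : fderiv ℂ (swv v) p = (fderiv ℂ (swL ∘ v) (swL p)).comp (swL : (ℂ × ℂ) →L[ℂ] (ℂ × ℂ)) := h
  rw [h', swL.comp_fderiv]
  rfl

theorem dvg_swap {v : ℂ × ℂ → ℂ × ℂ} (p : ℂ × ℂ) : dvg (swv v) p.swap = dvg v p := by
  unfold dvg
  rw [fderiv_swv, fderiv_swv]
  simp only [Prod.swap_swap, Prod.fst_swap, Prod.snd_swap, Prod.swap_prod_mk]
  ring

theorem Wt.swap {v : ℂ × ℂ → ℂ × ℂ} {g : ℂ × ℂ → ℂ} (h : Wt v g) : Wt (swv v) fun q => g q.swap where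
  an := AnalyticAt.comp (f := fun q : ℂ × ℂ => q.swap) (g := g) (x := 0) h.an (an_swap 0)
  ne := tendsto_swap0.frequently (p := fun q => g q.swap ≠ 0) (by simpa only [Prod.swap_swap] using h.ne)
  cof := by
    obtain ⟨c, hc, h1⟩ := h.cof
    refine ⟨fun q => c q.swap, AnalyticAt.comp (f := fun q : ℂ × ℂ => q.swap) (g := c) (x := 0) hc (an_swap 0), ?_⟩
    filter_upwards [tendsto_swap0.eventually h1] with p hp
    rw [fderiv_swap]
    simpa only [swv, Prod.swap_swap] using hp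
  red := by
    filter_upwards [tendsto_swap0.eventually h.red] with p hp h0 hg hd
    have h1 : p.swap ≠ 0 := by
      intro h2
      apply h0
      rw [← Prod.swap_swap p, h2]
      rfl
    apply hp h1 hg
    ext w
    · have := congrArg (fun L : (ℂ × ℂ) →L[ℂ] ℂ => L ((1 : ℂ), (0 : ℂ)).swap) hd
      have h3 := fderiv_swap g p ((1 : ℂ), (0 : ℂ)).swap
      rw [Prod.swap_swap] at h3
      simpa using h3.symm.trans this
    · have := congrArg (fun L : (ℂ × ℂ) →L[ℂ] ℂ => L ((0 : ℂ), (1 : ℂ)).swap) hd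
      have h3 := fderiv_swap g p ((0 : ℂ), (1 : ℂ)).swap
      rw [Prod.swap_swap] at h3
      simpa using h3.symm.trans this

theorem Iso.swap {v : ℂ × ℂ → ℂ × ℂ} (h : Iso v) : Iso (swv v) := by
  obtain ⟨h1, h2, h3⟩ := h
  refine ⟨?_, ?_, ?_⟩
  · have h4 : AnalyticAt ℂ (fun q : ℂ × ℂ => v q.swap) 0 := AnalyticAt.comp (f := fun q : ℂ × ℂ => q.swap) (g := v) (x := 0) h1 (an_swap 0)
    exact AnalyticAt.comp (f := fun q : ℂ × ℂ => v q.swap) (g := fun q : ℂ × ℂ => q.swap) (x := 0) (an_swap _) h4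
  · show (v (0 : ℂ × ℂ).swap).swap = 0
    rw [show (0 : ℂ × ℂ).swap = 0 from rfl, h2]
    rfl
  · filter_upwards [tendsto_swap0.eventually h3] with p hp h0 hv
    have h5 : p.swap ≠ 0 := by
      intro h2
      apply h0
      rw [← Prod.swap_swap p, h2]
      rfl
    apply hp h5
    rw [← Prod.swap_swap (v p.swap)]
    have h6 : (v p.swap).swap = 0 := hv
    rw [h6]
    rfl

end Pool.Agent.MQ2

end
end

section

/-!
# MQ3 EnK: the energy estimates on compact sets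
-/

set_option autoImplicit false

open MeasureTheory Topology Filter Metric Laplacian

noncomputable section

namespace Pool.Agent.MQ3

open Pool.Agent.MQ
open Pool.Agent.H30M (tau tau_nonneg contDiff_tau hcs_tau)

variable {B : Set (ℂ × ℂ)} {U : Set ℂ} {p : ℂ → ℂ × ℂ} {e : ℝ → ℝ}

/-- the coordinates of a polydisc of radius `s` around `q` -/
def cx (p : ℂ → ℂ × ℂ) (q : ℂ × ℂ) (s : ℝ) (z : ℂ) : ℂ := ((p z).1 - q.1) / s

def cy (p : ℂ → ℂ × ℂ) (q : ℂ × ℂ) (s : ℝ) (z : ℂ) : ℂ := ((p z).2 - q.2) / s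

theorem Kr_eq {q : ℂ × ℂ} {s : ℝ} (hs : 0 < s) (r : ℝ) : Kr U (cx p q s) (cy p q s) r = {z | z ∈ U ∧ p z ∈ closedBall q (r * s)} := by
  ext z
  have h1 : ‖cx p q s z‖ = ‖(p z).1 - q.1‖ / s := by
    unfold cx
    rw [norm_div, Complex.norm_real, Real.norm_of_nonneg hs.le]
  have h2 : ‖cy p q s z‖ = ‖(p z).2 - q.2‖ / s := by
    unfold cy
    rw [norm_div, Complex.norm_real, Real.norm_of_nonneg hs.le]
  simp only [Kr, Set.mem_ofPred_eq, h1, h2, div_le_iff₀ hs]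
  rw [mem_closedBall, dist_eq_norm, Prod.norm_def, Prod.fst_sub, Prod.snd_sub, sup_le_iff]

theorem norm_deriv_pair {z : ℂ} (hp : AnalyticAt ℂ p z) (q : ℂ × ℂ) {s : ℝ} (hs : 0 < s) :
    ‖deriv (cx p q s) z‖ ^ 2 + ‖deriv (cy p q s) z‖ ^ 2 ≤ 2 / s ^ 2 * ‖deriv p z‖ ^ 2 := by
  have h1 : HasDerivAt p (deriv p z) z := hp.differentiableAt.hasDerivAt
  have hx : HasDerivAt (fun w => (p w).1) (deriv p z).1 z := h1.fst
  have hy : HasDerivAt (fun w => (p w).2) (deriv p z).2 z := h1.snd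
  have hx' : deriv (cx p q s) z = (deriv p z).1 / s := ((hx.sub_const q.1).div_const (s : ℂ)).deriv
  have hy' : deriv (cy p q s) z = (deriv p z).2 / s := ((hy.sub_const q.2).div_const (s : ℂ)).deriv
  rw [hx', hy', norm_div, norm_div, Complex.norm_real, Real.norm_of_nonneg hs.le, div_pow, div_pow]
  have h2 : ‖(deriv p z).1‖ ^ 2 ≤ ‖deriv p z‖ ^ 2 := pow_le_pow_left₀ (norm_nonneg _) (norm_fst_le _) 2
  have h3 : ‖(deriv p z).2‖ ^ 2 ≤ ‖deriv p z‖ ^ 2 := pow_le_pow_left₀ (norm_nonneg _) (norm_snd_le _) 2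
  have hs2 : 0 < s ^ 2 := by positivity
  rw [← add_div, div_mul_eq_mul_div, div_le_div_iff_of_pos_right hs2]
  linarith

/-- the density of the second energy -/
def td (x y : ℂ → ℂ) (a b : ℝ) (z : ℂ) : ℝ :=
  ‖x z‖ ^ (2 * a) * ‖y z‖ ^ (2 * b) / (‖x z‖ ^ (2 * a) + ‖y z‖ ^ (2 * b)) ^ 2 * ‖(a : ℂ) * (deriv x z / x z) - b * (deriv y z / y z)‖ ^ 2

theorem td_nonneg (x y : ℂ → ℂ) (a b : ℝ) (z : ℂ) : 0 ≤ td x y a b z := by
  unfold td
  positivity

theorem td_meas {x y : ℂ → ℂ} (hU : IsOpen U) (hx : DifferentiableOn ℂ x U) (hy : DifferentiableOn ℂ y U) {T : Set ℂ} (hT : MeasurableSet T) (hTU : T ⊆ U)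
    (h0 : ∀ z ∈ T, x z ≠ 0 ∧ y z ≠ 0) (a b : ℝ) : AEStronglyMeasurable (T.indicator (td x y a b)) := by
  refine meas_ind hT ?_
  have cx := hx.continuousOn.mono hTU
  have cy := hy.continuousOn.mono hTU
  have dx := (hx.deriv hU).continuousOn.mono hTU
  have dy := (hy.deriv hU).continuousOn.mono hTU
  have c1 := cx.norm.rpow_const (p := 2 * a) fun z hz => Or.inl (norm_ne_zero_iff.2 (h0 z hz).1)
  have c2 := cy.norm.rpow_const (p := 2 * b) fun z hz => Or.inl (norm_ne_zero_iff.2 (h0 z hz).2)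
  refine ((c1.mul c2).div ((c1.add c2).pow 2) fun z hz => ?_).mul
    (((continuousOn_const.mul (dx.div cx fun z hz => (h0 z hz).1)).sub (continuousOn_const.mul (dy.div cy fun z hz => (h0 z hz).2))).norm.pow 2)
  exact pow_ne_zero _ (add_pos (Real.rpow_pos_of_pos (norm_pos_iff.2 (h0 z hz).1) (2 * a)) (Real.rpow_pos_of_pos (norm_pos_iff.2 (h0 z hz).2) (2 * b))).ne'

/-- away from the origin the second density is bounded by the first ones -/
theorem td_le {x y : ℂ → ℂ} {a b c : ℝ} (ha : 0 < a) (ha1 : a ≤ 1) (hb : 0 < b) (hb1 : b ≤ 1) (hc : 0 < c) (hc1 : c ≤ 1) {z : ℂ} (hx : x z ≠ 0) (hy : y z ≠ 0)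
    (hx1 : ‖x z‖ ≤ 1) (hy1 : ‖y z‖ ≤ 1) (hxy : c ≤ ‖x z‖ ∨ c ≤ ‖y z‖) :
    td x y a b z ≤ 2 / c ^ 4 * (‖x z‖ ^ (2 * a - 2) * ‖deriv x z‖ ^ 2 + ‖y z‖ ^ (2 * b - 2) * ‖deriv y z‖ ^ 2) := by
  have hx0 := norm_pos_iff.2 hx
  have hy0 := norm_pos_iff.2 hy
  have hA0 : 0 < ‖x z‖ ^ (2 * a) := Real.rpow_pos_of_pos hx0 _
  have hB0 : 0 < ‖y z‖ ^ (2 * b) := Real.rpow_pos_of_pos hy0 _
  have hA1 : ‖x z‖ ^ (2 * a) ≤ 1 := Real.rpow_le_one hx0.le hx1 (by positivity)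
  have hB1 : ‖y z‖ ^ (2 * b) ≤ 1 := Real.rpow_le_one hy0.le hy1 (by positivity)
  have hAx : ‖x z‖ ^ (2 * a - 2) = ‖x z‖ ^ (2 * a) / ‖x z‖ ^ 2 := by
    rw [Real.rpow_sub hx0]
    norm_num
  have hBy : ‖y z‖ ^ (2 * b - 2) = ‖y z‖ ^ (2 * b) / ‖y z‖ ^ 2 := by
    rw [Real.rpow_sub hy0]
    norm_num
  have hS : c ^ 2 ≤ ‖x z‖ ^ (2 * a) + ‖y z‖ ^ (2 * b) := by
    have key : ∀ (t s : ℝ), 0 < s → s ≤ 1 → c ≤ t → t ≤ 1 → c ^ 2 ≤ t ^ (2 * s) := by
      intro t s hs hs1 hct ht1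
      calc c ^ 2 = c ^ (2 : ℝ) := (Real.rpow_natCast c 2).symm
        _ ≤ c ^ (2 * s) := Real.rpow_le_rpow_of_exponent_ge hc hc1 (by linarith)
        _ ≤ t ^ (2 * s) := Real.rpow_le_rpow hc.le hct (by positivity)
    rcases hxy with h | h
    · have := key _ a ha ha1 h hx1
      linarith
    · have := key _ b hb hb1 h hy1
      linarith
  have hn : ‖(a : ℂ) * (deriv x z / x z) - b * (deriv y z / y z)‖ ^ 2 ≤ 2 * (‖deriv x z‖ ^ 2 / ‖x z‖ ^ 2) + 2 * (‖deriv y z‖ ^ 2 / ‖y z‖ ^ 2) := by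
    have h1 : ‖(a : ℂ) * (deriv x z / x z) - b * (deriv y z / y z)‖ ≤ ‖deriv x z‖ / ‖x z‖ + ‖deriv y z‖ / ‖y z‖ := by
      refine (norm_sub_le _ _).trans (add_le_add ?_ ?_)
      · rw [norm_mul, norm_div, Complex.norm_real, Real.norm_of_nonneg ha.le]
        exact mul_le_of_le_one_left (by positivity) ha1
      · rw [norm_mul, norm_div, Complex.norm_real, Real.norm_of_nonneg hb.le]
        exact mul_le_of_le_one_left (by positivity) hb1
    have h2 := pow_le_pow_left₀ (norm_nonneg _) h1 2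
    rw [← div_pow, ← div_pow]
    nlinarith [sq_nonneg (‖deriv x z‖ / ‖x z‖ - ‖deriv y z‖ / ‖y z‖)]
  unfold td
  set A := ‖x z‖ ^ (2 * a) with hA
  set B' := ‖y z‖ ^ (2 * b) with hB
  have h3 : A * B' / (A + B') ^ 2 ≤ A * B' / c ^ 4 := by
    refine div_le_div_of_nonneg_left (by positivity) (by positivity) ?_
    have : (c ^ 2) ^ 2 ≤ (A + B') ^ 2 := pow_le_pow_left₀ (by positivity) hS 2
    calc c ^ 4 = (c ^ 2) ^ 2 := by ring
      _ ≤ _ := this
  have hX : 0 ≤ ‖deriv x z‖ ^ 2 / ‖x z‖ ^ 2 := by positivity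
  have hY : 0 ≤ ‖deriv y z‖ ^ 2 / ‖y z‖ ^ 2 := by positivity
  calc A * B' / (A + B') ^ 2 * ‖(a : ℂ) * (deriv x z / x z) - b * (deriv y z / y z)‖ ^ 2 ≤
      A * B' / c ^ 4 * (2 * (‖deriv x z‖ ^ 2 / ‖x z‖ ^ 2) + 2 * (‖deriv y z‖ ^ 2 / ‖y z‖ ^ 2)) := mul_le_mul h3 hn (sq_nonneg _) (by positivity)
    _ = 2 / c ^ 4 * (B' * (A * (‖deriv x z‖ ^ 2 / ‖x z‖ ^ 2)) + A * (B' * (‖deriv y z‖ ^ 2 / ‖y z‖ ^ 2))) := by ring
    _ ≤ 2 / c ^ 4 * (1 * (A * (‖deriv x z‖ ^ 2 / ‖x z‖ ^ 2)) + 1 * (B' * (‖deriv y z‖ ^ 2 / ‖y z‖ ^ 2))) := by gcongr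
    _ = _ := by
      rw [hAx, hBy]
      ring

/-- scaling -/
theorem td_scale {x y : ℂ → ℂ} {a b s : ℝ} (ha : 0 < a) (ha1 : a ≤ 1) (hb : 0 < b) (hb1 : b ≤ 1) (hs : 0 < s) (hs1 : s ≤ 1) {z : ℂ} (hx : x z ≠ 0) (hy : y z ≠ 0)
    {X Y : ℂ → ℂ} (hX : ∀ w, X w = x w / s) (hY : ∀ w, Y w = y w / s) : td x y a b z ≤ 1 / s ^ 4 * td X Y a b z := by
  have hX' : X = fun w => x w / s := funext hX
  have hY' : Y = fun w => y w / s := funext hY
  have hsc : (s : ℂ) ≠ 0 := Complex.ofReal_ne_zero.2 hs.ne'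
  have dX : deriv X z / X z = deriv x z / x z := by
    rw [hX', deriv_div_const]
    field_simp
  have dY : deriv Y z / Y z = deriv y z / y z := by
    rw [hY', deriv_div_const]
    field_simp
  have hx0 := norm_pos_iff.2 hx
  have hy0 := norm_pos_iff.2 hy
  have nX : ‖X z‖ = ‖x z‖ / s := by rw [hX, norm_div, Complex.norm_real, Real.norm_of_nonneg hs.le]
  have nY : ‖Y z‖ = ‖y z‖ / s := by rw [hY, norm_div, Complex.norm_real, Real.norm_of_nonneg hs.le]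
  unfold td
  rw [dX, dY, nX, nY, Real.div_rpow hx0.le hs.le, Real.div_rpow hy0.le hs.le]
  have hA0 : 0 < ‖x z‖ ^ (2 * a) := Real.rpow_pos_of_pos hx0 _
  have hB0 : 0 < ‖y z‖ ^ (2 * b) := Real.rpow_pos_of_pos hy0 _
  have key : ∀ t : ℝ, 0 < t → t ≤ 1 → 0 < s ^ (2 * t) ∧ s ^ 2 ≤ s ^ (2 * t) ∧ s ^ (2 * t) ≤ 1 := by
    intro t ht ht1
    refine ⟨Real.rpow_pos_of_pos hs _, ?_, Real.rpow_le_one hs.le hs1 (by positivity)⟩
    calc s ^ 2 = s ^ (2 : ℝ) := (Real.rpow_natCast s 2).symm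
      _ ≤ s ^ (2 * t) := Real.rpow_le_rpow_of_exponent_ge hs hs1 (by linarith)
  obtain ⟨p0, p1, p2⟩ := key a ha ha1
  obtain ⟨q0, q1, q2⟩ := key b hb hb1
  set A := ‖x z‖ ^ (2 * a) with hA
  set B' := ‖y z‖ ^ (2 * b) with hB
  set P := s ^ (2 * a) with hP
  set Q := s ^ (2 * b) with hQ
  rw [← mul_assoc]
  refine mul_le_mul_of_nonneg_right ?_ (sq_nonneg _)
  have h1 : A * B' / (A + B') ^ 2 ≤ A / P * (B' / Q) / (A + B') ^ 2 := by
    refine div_le_div_of_nonneg_right ?_ (by positivity)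
    exact mul_le_mul (le_div_self hA0.le p0 p2) (le_div_self hB0.le q0 q2) hB0.le (by positivity)
  have h2 : s ^ 2 * (A / P + B' / Q) ≤ A + B' := by
    have h3 : s ^ 2 * (A / P) ≤ A := by
      rw [mul_div_assoc', div_le_iff₀ p0]
      nlinarith
    have h4 : s ^ 2 * (B' / Q) ≤ B' := by
      rw [mul_div_assoc', div_le_iff₀ q0]
      nlinarith
    linarith
  have h5 : A / P * (B' / Q) / (A + B') ^ 2 ≤ A / P * (B' / Q) / (s ^ 2 * (A / P + B' / Q)) ^ 2 := by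
    refine div_le_div_of_nonneg_left (by positivity) (by positivity) ?_
    exact pow_le_pow_left₀ (by positivity) h2 2
  refine h1.trans (h5.trans (le_of_eq ?_))
  field_simp

end Pool.Agent.MQ3

end
end
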