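import Pool.Agent.H94.G6.M34
import Pool.Agent.H94.G6.M63
import Pool.Agent.H94.G6.M94
import Pool.Agent.H94.G6.M95

/-! The parts of this file: MQ.Jen, MQ.Charge, MQ.Ax0_1, MQ.LFormT, MQ.LNode. -/

section

/-!
# MQ Jen: the number of zeros of a form along the curve
-/

set_option autoImplicit false

open MeasureTheory Topology Filter Metric Laplacian

namespace Pool.Agent.MQ

open Pool.Agent.H30M (tau rhoR avg rho gg uu II HH tau_nonneg HH_nonneg integrable_tau_mul)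
open Pool.Agent.H36.BP (EN fs)

variable {N : ℕ}

section

variable {F : ℂ → EN N} (hF : Differentiable ℂ F) (h0 : ∀ z, F z ≠ 0)

include hF h0

theorem cg_L : ContDiff ℝ 2 fun z => Real.log ‖F z‖ := by
  rw [contDiff_iff_contDiffAt]
  exact fun z => (lap_log_norm (hF.analyticAt z) (h0 z)).1

theorem cg_lap (z : ℂ) : Δ (fun w => Real.log ‖F w‖) z = 2 * lam F z ^ 2 := (lap_log_norm (hF.analyticAt z) (h0 z)).2

theorem cg_lap_nonneg (z : ℂ) : 0 ≤ Δ (fun w => Real.log ‖F w‖) z := by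
  rw [cg_lap hF h0]; positivity

theorem cg_II (R : ℝ) : II (fun z => Real.log ‖F z‖) R = 2 * En F R := by
  unfold II En
  rw [← integral_const_mul]
  refine integral_congr_ae (Eventually.of_forall fun z => ?_)
  simp only [cg_lap hF h0]
  ring

end

theorem En_nonneg (F : ℂ → EN N) {R : ℝ} (hR : 1 ≤ R) : 0 ≤ En F R :=
  integral_nonneg fun z => mul_nonneg (tau_nonneg hR z) (sq_nonneg _)

theorem cg_le {F : ℂ → EN N} (h0 : ∀ z, F z ≠ 0) {g : ℂ → ℂ} {d : ℕ} (hgF : ∀ z, ‖g z‖ ≤ ‖F z‖ ^ d) (z : ℂ) :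
    ‖g z‖ ≤ Real.exp ((d : ℝ) * Real.log ‖F z‖) := by
  rw [← Real.log_pow, Real.exp_log (pow_pos (norm_pos_iff.2 (h0 z)) d)]
  exact hgF z

end Pool.Agent.MQ

end

section

/-!
# MQ Charge: the energy in a level region of a form along the curve
-/

set_option autoImplicit false

open MeasureTheory Topology Filter Metric Laplacian

namespace Pool.Agent.MQ

open Pool.Agent.H30M (tau rhoR avg rho gg uu II HH tau_nonneg HH_nonneg integrable_tau_mul)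
open Pool.Agent.H36.BP (EN fs)

variable {N : ℕ}

/-- **Charge** -/
theorem charge {F : ℂ → EN N} (hF : Differentiable ℂ F) (h0 : ∀ z, F z ≠ 0) {g : ℂ → ℂ} (hg : Differentiable ℂ g) {d : ℕ}
    (hgF : ∀ z, ‖g z‖ ≤ ‖F z‖ ^ d) {n : ℕ} (hn : 1 ≤ n) (b₀ : ℝ) : ∃ C, ∀ R, 1 ≤ R →
      ∫ z, tau R z * {z | g z ≠ 0 ∧ b₀ ≤ lu F g d z ∧ lu F g d z ≤ b₀ + 2 * n}.indicator (fun z => ‖gr (lu F g d) z‖ ^ 2) z ≤
        12 * n * (d * En F R) + C := by
  set L : ℂ → ℝ := fun z => Real.log ‖F z‖ with hL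
  have hlu : lu F g d = uu L g d := rfl
  by_cases hg0 : ∃ z, g z ≠ 0
  swap
  · push Not at hg0
    refine ⟨0, fun R hR => ?_⟩
    have he : ∀ z, tau R z * {z | g z ≠ 0 ∧ b₀ ≤ lu F g d z ∧ lu F g d z ≤ b₀ + 2 * n}.indicator (fun z => ‖gr (lu F g d) z‖ ^ 2) z = 0 := by
      intro z
      rw [Set.indicator_of_notMem (fun h => h.1 (hg0 z)), mul_zero]
    simp only [he, integral_zero]
    have := En_nonneg F hR
    positivity
  refine ⟨10 * Real.pi * n * (1 / 2 + |b₀| + 2 * n), fun R hR => ?_⟩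
  have hH : ∀ k : ℕ, Integrable fun z => tau R z * HH L g d (b₀ + 2 * k + 1) z := fun k =>
    integrable_tau_mul hR (Pool.Agent.H30M.continuous_HH (cg_L hF h0) hg _)
  have hi : Integrable fun z => ∑ k ∈ Finset.range n, 5 * (tau R z * HH L g d (b₀ + 2 * k + 1) z) :=
    integrable_finsetSum _ fun k _ => (hH k).const_mul _
  have h1 : ∫ z, tau R z * {z | g z ≠ 0 ∧ b₀ ≤ lu F g d z ∧ lu F g d z ≤ b₀ + 2 * n}.indicator (fun z => ‖gr (lu F g d) z‖ ^ 2) z ≤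
      ∫ z, ∑ k ∈ Finset.range n, 5 * (tau R z * HH L g d (b₀ + 2 * k + 1) z) := by
    refine integral_mono_of_nonneg (Eventually.of_forall fun z => mul_nonneg (tau_nonneg hR z) (Set.indicator_nonneg (fun _ _ => by positivity) z)) hi
      (Eventually.of_forall fun z => ?_)
    have ht := tau_nonneg hR z
    by_cases hz : z ∈ {z | g z ≠ 0 ∧ b₀ ≤ lu F g d z ∧ lu F g d z ≤ b₀ + 2 * n}
    · simp only [Set.indicator_of_mem hz]
      obtain ⟨hz0, hz1, hz2⟩ := hz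
      rw [hlu] at hz1 hz2 ⊢
      obtain ⟨k, hk, hk1, hk2⟩ : ∃ k < n, b₀ + 2 * (k : ℝ) ≤ uu L g d z ∧ uu L g d z ≤ b₀ + 2 * k + 2 := by
        have hf1 : ((⌊(uu L g d z - b₀) / 2⌋₊ : ℕ) : ℝ) ≤ (uu L g d z - b₀) / 2 := Nat.floor_le (by linarith)
        have hf2 : (uu L g d z - b₀) / 2 < (⌊(uu L g d z - b₀) / 2⌋₊ : ℕ) + 1 := Nat.lt_floor_add_one _
        by_cases hlt : ⌊(uu L g d z - b₀) / 2⌋₊ < n
        · exact ⟨_, hlt, by linarith, by linarith⟩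
        · refine ⟨n - 1, by omega, ?_, ?_⟩
          · have h3 : (n : ℝ) ≤ (⌊(uu L g d z - b₀) / 2⌋₊ : ℕ) := by exact_mod_cast not_lt.1 hlt
            have h4 : ((n - 1 : ℕ) : ℝ) ≤ n := by exact_mod_cast Nat.sub_le n 1
            linarith
          · have h4 : ((n - 1 : ℕ) : ℝ) = n - 1 := by push_cast [hn]; ring
            rw [h4]; linarith
      have h2 := Pool.Agent.H30M.le_HH (L := L) (d := (d : ℝ)) (b := b₀ + 2 * k + 1) (cg_L hF h0) hg hz0 (by linarith) (by linarith)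
      refine le_trans ?_ (Finset.single_le_sum (f := fun k : ℕ => 5 * (tau R z * HH L g d (b₀ + 2 * k + 1) z))
        (fun j _ => mul_nonneg (by norm_num) (mul_nonneg ht (HH_nonneg _ _ _ _ _))) (Finset.mem_range.2 hk))
      have h3 : ‖gr (uu L g d) z‖ ^ 2 = gg (uu L g d) (uu L g d) z := by
        rw [← ip_self]; rfl
      rw [h3]
      have h4 : gg (uu L g d) (uu L g d) z ≤ 5 * HH L g d (b₀ + 2 * k + 1) z := by linarith
      calc tau R z * gg (uu L g d) (uu L g d) z ≤ tau R z * (5 * HH L g d (b₀ + 2 * k + 1) z) := mul_le_mul_of_nonneg_left h4 ht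
        _ = _ := by ring
    · simp only [Set.indicator_of_notMem hz, mul_zero]
      exact Finset.sum_nonneg fun k _ => mul_nonneg (by norm_num) (mul_nonneg ht (HH_nonneg _ _ _ _ _))
  refine h1.trans ?_
  rw [integral_finsetSum _ fun k _ => (hH k).const_mul _]
  have h2 : ∀ k ∈ Finset.range n, ∫ z, 5 * (tau R z * HH L g d (b₀ + 2 * k + 1) z)
      ≤ 5 * (d * (2 * En F R) + 2 * Real.pi * (1 / 2 + |b₀| + 2 * n)) := by
    intro k hk
    have hkm : (k : ℝ) + 1 ≤ n := by exact_mod_cast Finset.mem_range.1 hk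
    have hk0 : (0 : ℝ) ≤ k := k.cast_nonneg
    rw [integral_const_mul]
    have h5 := Pool.Agent.H30M.key (cg_L hF h0) (cg_lap_nonneg hF h0) hg hg0 (by positivity : (0 : ℝ) ≤ d) (cg_le h0 hgF) (b₀ + 2 * k + 1) hR
    rw [cg_II hF h0] at h5
    refine mul_le_mul_of_nonneg_left (h5.trans ?_) (by norm_num)
    have h3 := Pool.Agent.H30M.ky_const (b₀ + 2 * k + 1)
    have h4 : |b₀ + 2 * k + 1| ≤ |b₀| + (2 * k + 1) := by
      rw [add_assoc]
      refine (abs_add_le _ _).trans ?_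
      rw [abs_of_nonneg (by positivity : (0 : ℝ) ≤ 2 * k + 1)]
    have h5 : Real.log (1 + Real.exp (2 * (b₀ + 2 * k + 1))) / 2 - (b₀ + 2 * k + 1) ≤ 1 / 2 + |b₀| + 2 * n := by linarith
    have := Real.pi_pos
    nlinarith
  refine (Finset.sum_le_sum h2).trans ?_
  rw [Finset.sum_const, Finset.card_range, nsmul_eq_mul]
  have hE := En_nonneg F hR
  have h6 : (0 : ℝ) ≤ n * (d * En F R) := by positivity
  nlinarith

end Pool.Agent.MQ

end

section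

/-!
# MQ Ax0: the cut-off of one axis

The cut-off is `χ = Real.smoothTransition (2 - 2 |x| / η) Real.smoothTransition (2 - 2 |y| / r₀)`.  The field `(1 - χ) conj a` has the divergence `- ∇χ ⬝ conj a`.  The derivative of
the first factor has the good sign, the derivative of the second factor is supported in `|x| ≤ η`, `r₀ / 2 ≤ |y| ≤ r₀`, where `|a| ≤ K |b|` and `|b|` is
bounded by the gradient of `log |g| - d log |F|`.
-/

set_option autoImplicit false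

open MeasureTheory Topology Filter Metric Laplacian

noncomputable section

namespace Pool.Agent.MQ.AxisA

open Pool.Agent.H30M (tau tau_nonneg contDiff_tau hcs_tau deriv_st_eq_zero deriv_st_nonneg)
open Pool.Agent.H36.BP (EN fs)
open Pool.Agent.MQ

/-! ### the cut-off of an axis -/

variable {U : Set ℂ} {x y a b : ℂ → ℂ} {K rho : ℝ} {g : ℂ → ℂ}

/-! ### the field `(1 - χ) conj a` -/

/-! ### the charge -/

variable {N : ℕ} {F : ℂ → EN N}

/-- the integrand of `charge` is integrable -/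
theorem integrable_charge (hF : Differentiable ℂ F) (h0 : ∀ z, F z ≠ 0) (hg : Differentiable ℂ g) (d n : ℕ) (b₀ : ℝ) {R : ℝ} (hR : 1 ≤ R) :
    Integrable fun z => tau R z * {z | g z ≠ 0 ∧ b₀ ≤ lu F g d z ∧ lu F g d z ≤ b₀ + 2 * n}.indicator (fun z => ‖gr (lu F g d) z‖ ^ 2) z := by
  set E : Set ℂ := {z | g z ≠ 0 ∧ b₀ ≤ lu F g d z ∧ lu F g d z ≤ b₀ + 2 * n} with hE
  have hpos : ∀ z, 0 < ‖F z‖ ^ d := fun z => pow_pos (norm_pos_iff.2 (h0 z)) d
  have hexp : ∀ (c : ℝ) (z : ℂ), Real.exp c * ‖F z‖ ^ d = Real.exp (c + d * Real.log ‖F z‖) := by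
    intro c z
    rw [Real.exp_add, ← Real.log_pow, Real.exp_log (hpos z)]
  have hEeq : E = {z | Real.exp b₀ * ‖F z‖ ^ d ≤ ‖g z‖} ∩ {z | ‖g z‖ ≤ Real.exp (b₀ + 2 * n) * ‖F z‖ ^ d} := by
    ext z
    constructor
    · rintro ⟨h1, h2, h3⟩
      have hgp : 0 < ‖g z‖ := norm_pos_iff.2 h1
      unfold lu at h2 h3
      constructor
      · show Real.exp b₀ * ‖F z‖ ^ d ≤ ‖g z‖
        rw [hexp, ← Real.le_log_iff_exp_le hgp]
        linarith
      · show ‖g z‖ ≤ Real.exp (b₀ + 2 * n) * ‖F z‖ ^ d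
        rw [hexp, ← Real.log_le_iff_le_exp hgp]
        linarith
    · rintro ⟨h1, h2⟩
      have h1' : Real.exp b₀ * ‖F z‖ ^ d ≤ ‖g z‖ := h1
      have h2' : ‖g z‖ ≤ Real.exp (b₀ + 2 * n) * ‖F z‖ ^ d := h2
      have hgp : 0 < ‖g z‖ := lt_of_lt_of_le (mul_pos (Real.exp_pos _) (hpos z)) h1'
      rw [hexp, ← Real.le_log_iff_exp_le hgp] at h1'
      rw [hexp, ← Real.log_le_iff_le_exp hgp] at h2'
      refine ⟨norm_pos_iff.1 hgp, ?_, ?_⟩
      · unfold lu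
        linarith
      · unfold lu
        linarith
  have hFc : Continuous fun z => ‖F z‖ := hF.continuous.norm
  have hEc : IsClosed E := by
    rw [hEeq]
    exact (isClosed_le (by fun_prop) hg.continuous.norm).inter (isClosed_le hg.continuous.norm (by fun_prop))
  have hcont : ContinuousOn (fun z => tau R z * ‖gr (lu F g d) z‖ ^ 2) E := by
    intro z hz
    have h1 : ContDiffAt ℝ 1 (lu F g d) z := by
      have h2 : ContDiffAt ℝ 1 (fun z => Real.log ‖g z‖) z :=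
        (Pool.Agent.H30M.contDiffAt_log_norm (hg.analyticAt z) hz.1).of_le (by norm_num)
      have h3 : ContDiffAt ℝ 1 (fun z => Real.log ‖F z‖) z := (cg_L hF h0).contDiffAt.of_le (by norm_num)
      exact h2.sub (contDiffAt_const.mul h3)
    exact ((contDiff_tau R).continuous.continuousAt.mul ((continuousAt_gr h1).norm.pow 2)).continuousWithinAt
  have hK : IsCompact (E ∩ closedBall (0 : ℂ) (Real.exp 1 * R)) := (isCompact_closedBall _ _).inter_left hEc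
  have hI : IntegrableOn (fun z => tau R z * ‖gr (lu F g d) z‖ ^ 2) (E ∩ closedBall (0 : ℂ) (Real.exp 1 * R)) :=
    (hcont.mono Set.inter_subset_left).integrableOn_compact hK
  have hI2 := (integrable_indicator_iff hK.measurableSet).2 hI
  refine hI2.congr (Eventually.of_forall fun z => ?_)
  by_cases hz : z ∈ E
  · by_cases hz2 : z ∈ closedBall (0 : ℂ) (Real.exp 1 * R)
    · simp only [Set.indicator_of_mem (show z ∈ E ∩ closedBall (0 : ℂ) (Real.exp 1 * R) from ⟨hz, hz2⟩), Set.indicator_of_mem hz]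
    · have h1 : tau R z = 0 := Pool.Agent.H30M.tau_eq_zero hR (by
        rw [mem_closedBall, dist_zero_right, not_le] at hz2
        exact hz2.le)
      simp only [Set.indicator_of_notMem (show z ∉ E ∩ closedBall (0 : ℂ) (Real.exp 1 * R) from fun h => hz2 h.2), h1, zero_mul]
  · simp only [Set.indicator_of_notMem (show z ∉ E ∩ closedBall (0 : ℂ) (Real.exp 1 * R) from fun h => hz h.1), Set.indicator_of_notMem hz, mul_zero]

/-- **The integral of `τ ∇χ ⬝ conj a`.** -/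
theorem ax_int {M : ℝ} (hM0 : 0 < M) (hM : ∀ t, deriv Real.smoothTransition t ≤ M) (hF : Differentiable ℂ F) (h0 : ∀ z, F z ≠ 0) (hg : Differentiable ℂ g) {d : ℕ}
    (hgF : ∀ z, ‖g z‖ ≤ ‖F z‖ ^ d) (hK : 0 ≤ K) (h : Axis0 U x y a b K rho) {n : ℕ} (hn : 1 ≤ n) {r₀ η b₀ : ℝ} (hη0 : 0 < η) (hη : η ≤ r₀)
    (hr : r₀ < rho) (hreg : ∀ z ∈ U, ‖x z‖ ≤ η → r₀ / 2 ≤ ‖y z‖ → ‖y z‖ ≤ r₀ → g z ≠ 0 ∧ b₀ ≤ lu F g d z ∧ lu F g d z ≤ b₀ + 2 * n ∧
      (n / 2) * ‖b z‖ ≤ ‖gr (lu F g d) z‖) :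
    ∃ C, ∀ R, 1 ≤ R → ∫ z, tau R z * max 0 (ip (gr (chi U x y η r₀) z) ((starRingEnd ℂ) (a z))) ≤ 96 * M * K * (d / n) * En F R + C := by
  obtain ⟨C, hC⟩ := charge hF h0 hg hgF hn b₀
  have hr0 : 0 < r₀ := lt_of_lt_of_le hη0 hη
  have hn0 : (0 : ℝ) < n := by exact_mod_cast hn
  refine ⟨8 * M * K / n ^ 2 * C, fun R hR => ?_⟩
  have hcont := continuous_ip_chi h hη0 hη hr
  have hint : Integrable fun z => tau R z * max 0 (ip (gr (chi U x y η r₀) z) ((starRingEnd ℂ) (a z))) :=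
    Pool.Agent.H30M.integrable_tau_mul hR (continuous_const.max hcont)
  have hint2 := (integrable_charge hF h0 hg d n b₀ hR).const_mul (8 * M * K / n ^ 2)
  have h1 : ∫ z, tau R z * max 0 (ip (gr (chi U x y η r₀) z) ((starRingEnd ℂ) (a z))) ≤
      ∫ z, 8 * M * K / n ^ 2 * (tau R z * {z | g z ≠ 0 ∧ b₀ ≤ lu F g d z ∧ lu F g d z ≤ b₀ + 2 * n}.indicator (fun z => ‖gr (lu F g d) z‖ ^ 2) z) := by
    refine integral_mono hint hint2 fun z => ?_
    simp only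
    have ht := tau_nonneg hR z
    have hE0 : 0 ≤ {z | g z ≠ 0 ∧ b₀ ≤ lu F g d z ∧ lu F g d z ≤ b₀ + 2 * n}.indicator (fun z => ‖gr (lu F g d) z‖ ^ 2) z :=
      Set.indicator_nonneg (fun _ _ => by positivity) z
    have hc0 : 0 ≤ 8 * M * K / (n : ℝ) ^ 2 := by positivity
    have h2 : max 0 (ip (gr (chi U x y η r₀) z) ((starRingEnd ℂ) (a z))) ≤
        8 * M * K / n ^ 2 * {z | g z ≠ 0 ∧ b₀ ≤ lu F g d z ∧ lu F g d z ≤ b₀ + 2 * n}.indicator (fun z => ‖gr (lu F g d) z‖ ^ 2) z := by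
      by_cases hz : z ∈ U
      · rcases ip_gr_chi_le h hK hM0 hM hη0 hr0 hz with h3 | ⟨h3, h4, h5, h6⟩
        · rw [max_eq_left h3]
          positivity
        · obtain ⟨g1, g2, g3, g4⟩ := hreg z hz h3 h4 h5
          rw [Set.indicator_of_mem (show z ∈ {z | g z ≠ 0 ∧ b₀ ≤ lu F g d z ∧ lu F g d z ≤ b₀ + 2 * n} from ⟨g1, g2, g3⟩)]
          refine max_le (by positivity) (h6.trans ?_)
          have g5 : ((n : ℝ) / 2 * ‖b z‖) ^ 2 ≤ ‖gr (lu F g d) z‖ ^ 2 := pow_le_pow_left₀ (by positivity) g4 2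
          have g6 : 8 * M * K / (n : ℝ) ^ 2 * ((n : ℝ) / 2 * ‖b z‖) ^ 2 = 2 * M * K * ‖b z‖ ^ 2 := by
            field_simp
            ring
          rw [← g6]
          exact mul_le_mul_of_nonneg_left g5 hc0
      · rw [gr_chi_zero h hη0 hη hr (fun h3 => hz h3.1), ip_zero_left, max_self]
        positivity
    calc tau R z * max 0 (ip (gr (chi U x y η r₀) z) ((starRingEnd ℂ) (a z))) ≤ tau R z * (8 * M * K / n ^ 2 *
          {z | g z ≠ 0 ∧ b₀ ≤ lu F g d z ∧ lu F g d z ≤ b₀ + 2 * n}.indicator (fun z => ‖gr (lu F g d) z‖ ^ 2) z) := mul_le_mul_of_nonneg_left h2 ht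
      _ = _ := by ring
  refine h1.trans ?_
  rw [integral_const_mul]
  have h2 := mul_le_mul_of_nonneg_left (hC R hR) (show 0 ≤ 8 * M * K / (n : ℝ) ^ 2 by positivity)
  refine h2.trans (le_of_eq ?_)
  field_simp
  ring

end Pool.Agent.MQ.AxisA

end
end

section

/-!
# MQ/LFormT: saddle-nodes with a formal weak separatrix, the normal bundle half of the local package, in one variable
-/

set_option autoImplicit false

open Topology Filter Asymptotics Complex Set ComplexConjugate Metric MeasureTheory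

noncomputable section

namespace Pool.Agent.MQ

open Pool.Agent.H36.BP (EN fs)
open Pool.Agent.H30M (tau tau_nonneg)

theorem sn_bound {r : ℝ} {E : Type} [NormedAddCommGroup E] {f : ℂ × ℂ → E} (hf : ContinuousOn f (closedBall 0 r)) :
    ∃ C : ℝ, 0 < C ∧ ∀ p ∈ closedBall (0 : ℂ × ℂ) r, ‖f p‖ ≤ C := by
  obtain ⟨C, hC⟩ := (isCompact_closedBall (0 : ℂ × ℂ) r).bddAbove_image hf.norm
  exact ⟨max C 1, lt_of_lt_of_le one_pos (le_max_right _ _), fun p hp => (hC ⟨p, hp, rfl⟩).trans (le_max_left _ _)⟩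

theorem dlt_analytic {k : ℕ} {a b : ℂ × ℂ → ℂ} {p : ℂ × ℂ} (ha : AnalyticAt ℂ a p) (hb : AnalyticAt ℂ b p) (ε : ℂ) : AnalyticAt ℂ (dlt k a b ε) p := by
  unfold dlt
  exact (((analyticAt_const).mul ((analyticAt_fst.pow k).mul ha)).add ((analyticAt_fst.pow (k + 1)).mul (an_fderiv_apply ha _))).add
    (an_fderiv_apply hb _)

theorem v_analytic {k : ℕ} {a b : ℂ × ℂ → ℂ} {v : ℂ × ℂ → ℂ × ℂ} (hv : ∀ p, v p = (p.1 ^ (k + 1) * a p, b p)) {p : ℂ × ℂ} (ha : AnalyticAt ℂ a p)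
    (hb : AnalyticAt ℂ b p) : AnalyticAt ℂ v p := by
  have : v = fun p => (p.1 ^ (k + 1) * a p, b p) := funext hv
  rw [this]
  exact ((analyticAt_fst.pow (k + 1)).mul ha).prod hb

/-- a lower bound of `v` away from `0` -/
theorem v_lower {r t : ℝ} {v : ℂ × ℂ → ℂ × ℂ} (hv : ContinuousOn v (closedBall 0 r)) (hv0 : ∀ p ∈ closedBall (0 : ℂ × ℂ) r, v p = 0 → p = 0)
    (ht : 0 < t) : ∃ m : ℝ, 0 < m ∧ ∀ p ∈ closedBall (0 : ℂ × ℂ) r, p ∉ ball (0 : ℂ × ℂ) t → m ≤ ‖v p‖ := by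
  have hK : IsCompact (closedBall (0 : ℂ × ℂ) r \ ball (0 : ℂ × ℂ) t) := (isCompact_closedBall _ _).diff isOpen_ball
  rcases (closedBall (0 : ℂ × ℂ) r \ ball (0 : ℂ × ℂ) t).eq_empty_or_nonempty with h | h
  · refine ⟨1, one_pos, fun p hp hpt => ?_⟩
    have : p ∈ closedBall (0 : ℂ × ℂ) r \ ball (0 : ℂ × ℂ) t := ⟨hp, hpt⟩
    rw [h] at this
    exact absurd this (notMem_empty _)
  · obtain ⟨p₀, hp₀, hmin⟩ := hK.exists_isMinOn h (hv.norm.mono sdiff_subset)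
    refine ⟨‖v p₀‖, norm_pos_iff.2 fun h0 => ?_, fun p hp hpt => hmin ⟨hp, hpt⟩⟩
    have h1 := hv0 p₀ hp₀.1 h0
    apply hp₀.2
    rw [h1]
    exact mem_ball_self ht

/-- `LocalN1` is monotone in the last constant -/
theorem LocalN1.mono {v : ℂ × ℂ → ℂ × ℂ} {l : ℂ × ℂ → ℂ} {Om : Set ℂ} {g : ℂ → ℂ × ℂ} {I Λ : ℝ → ℝ} {s δ δ' : ℝ} (h : LocalN1 v l Om g I Λ s δ)
    (hI : ∀ R, 1 ≤ R → 0 ≤ I R) (hδ : δ ≤ δ') : LocalN1 v l Om g I Λ s δ' := by
  obtain ⟨C, η, err, h1, h2, h3, h4, h5, h6, h7, h8⟩ := h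
  refine ⟨C, η, err, h1, h2, h3, h4, h5, h6, h7, fun R hR => (h8 R hR).trans ?_⟩
  have := mul_le_mul_of_nonneg_right hδ (hI R hR)
  linarith

/-- `div v ζ' - l' / l = δ ζ'` -/
theorem DDv_eq {k : ℕ} {a b : ℂ × ℂ → ℂ} {v : ℂ × ℂ → ℂ × ℂ} (hv : ∀ p, v p = (p.1 ^ (k + 1) * a p, b p)) {l : ℂ × ℂ → ℂ} {ε : ℂ}
    (hl : ε = 1 ∧ (∀ p, l p = p.1) ∨ ε = 0 ∧ ∀ p, l p = 1) {r : ℝ} {Om : Set ℂ} {g : ℂ → ℂ × ℂ} (hg : Crv1 v r Om g) {z : ℂ} (hz : z ∈ Om)
    (ha : AnalyticAt ℂ a (g z)) (hb : AnalyticAt ℂ b (g z)) (hvz : v (g z) ≠ 0) (hlz : l (g z) ≠ 0) :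
    DDv v l g z = dlt k a b ε (g z) * ztv v g z := by
  have h1 : dvg v (g z) = fderiv ℂ (fun p : ℂ × ℂ => p.1 ^ (k + 1) * a p) (g z) (1, 0) + fderiv ℂ b (g z) (0, 1) := by
    have hA : AnalyticAt ℂ (fun p : ℂ × ℂ => p.1 ^ (k + 1) * a p) (g z) := (analyticAt_fst.pow (k + 1)).mul ha
    have h2 : v = fun p => (p.1 ^ (k + 1) * a p, b p) := funext hv
    have h3 : HasFDerivAt v ((fderiv ℂ (fun p : ℂ × ℂ => p.1 ^ (k + 1) * a p) (g z)).prod (fderiv ℂ b (g z))) (g z) := by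
      rw [h2]
      exact hA.differentiableAt.hasFDerivAt.prodMk hb.differentiableAt.hasFDerivAt
    rw [dvg, h3.fderiv]
    rfl
  have h2 : deriv (fun w => l (g w)) z / l (g z) = ε * ((g z).1 ^ k * a (g z)) * ztv v g z := by
    rcases hl with ⟨h3, h4⟩ | ⟨h3, h4⟩
    · have h5 : (fun w => l (g w)) = fun w => (g w).1 := funext fun w => h4 _
      have hx : (g z).1 ≠ 0 := by rw [← h4]; exact hlz
      rw [h5, deriv_fst' (hg.an z hz).differentiableAt, hg.deriv_fst hz hvz, hv, h4, h3]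
      simp only
      field_simp
      ring
    · have h5 : (fun w => l (g w)) = fun _ => 1 := funext fun w => h4 _
      rw [h5, deriv_const, zero_div, h3]
      ring
  rw [DDv, h1, h2, ← div_eq_dlt (b := b) ha.differentiableAt ε]
  ring

end Pool.Agent.MQ

end
end

section

/-!
# MQ LNode: the normal bundle half of the local package at a node

`η = conj (a_x x' / a + b_y y' / b) + ∑ (1 - χ_i) conj (a_i ζ')`, the sum over the axes which are not in `{l = 0}`.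
-/

set_option autoImplicit false

open Topology Filter Metric MeasureTheory

noncomputable section

namespace Pool.Agent.MQ

open Pool.Agent.H36.BP (EN fs)
open Pool.Agent.H30M (tau tau_nonneg)
open AxisA

/-! ### the node -/

section

variable {v : ℂ × ℂ → ℂ × ℂ} {r : ℝ} {Om : Set ℂ} {g : ℂ → ℂ × ℂ} {a b : ℂ × ℂ → ℂ}

theorem exists_bound {r : ℝ} {f : ℂ × ℂ → ℂ} (hf : ContinuousOn f (closedBall 0 r)) : ∃ C : ℝ, 0 < C ∧ ∀ p ∈ closedBall (0 : ℂ × ℂ) r, ‖f p‖ ≤ C := by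
  obtain ⟨C, hC⟩ := (isCompact_closedBall (0 : ℂ × ℂ) r).exists_bound_of_continuousOn hf
  exact ⟨max C 1, lt_of_lt_of_le one_pos (le_max_right _ _), fun p hp => (hC p hp).trans (le_max_left _ _)⟩

/-- near a point the derivative of `p ↦ p.1 * a p` -/
theorem fderiv_fst_mul {p : ℂ × ℂ} (ha : AnalyticAt ℂ a p) : fderiv ℂ (fun p : ℂ × ℂ => p.1 * a p) p (1, 0) = a p + p.1 * fderiv ℂ a p (1, 0) := by
  have h := (hasFDerivAt_fst (𝕜 := ℂ) (E := ℂ) (F := ℂ) (p := p)).mul ha.differentiableAt.hasFDerivAt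
  rw [show (fun p : ℂ × ℂ => p.1 * a p) = (fun p : ℂ × ℂ => p.1) * a from rfl, h.fderiv]
  simp
  ring

theorem fderiv_snd_mul {p : ℂ × ℂ} (hb : AnalyticAt ℂ b p) : fderiv ℂ (fun p : ℂ × ℂ => p.2 * b p) p (0, 1) = b p + p.2 * fderiv ℂ b p (0, 1) := by
  have h := (hasFDerivAt_snd (𝕜 := ℂ) (E := ℂ) (F := ℂ) (p := p)).mul hb.differentiableAt.hasFDerivAt
  rw [show (fun p : ℂ × ℂ => p.2 * b p) = (fun p : ℂ × ℂ => p.2) * b from rfl, h.fderiv]
  simp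
  ring

theorem dvg_node (hv : ∀ p, v p = (p.1 * a p, p.2 * b p)) {p : ℂ × ℂ} (ha : AnalyticAt ℂ a p) (hb : AnalyticAt ℂ b p) :
    dvg v p = a p + b p + (p.1 * fderiv ℂ a p (1, 0) + p.2 * fderiv ℂ b p (0, 1)) := by
  have e : v = fun p => (p.1 * a p, p.2 * b p) := funext hv
  have h1 : DifferentiableAt ℂ (fun p : ℂ × ℂ => p.1 * a p) p := differentiableAt_fst.mul ha.differentiableAt
  have h2 : DifferentiableAt ℂ (fun p : ℂ × ℂ => p.2 * b p) p := differentiableAt_snd.mul hb.differentiableAt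
  unfold dvg
  rw [e, (h1.hasFDerivAt.prodMk h2.hasFDerivAt).fderiv]
  simp only [ContinuousLinearMap.prod_apply]
  rw [fderiv_fst_mul ha, fderiv_snd_mul hb]
  ring

/-- the part of the field which is bounded everywhere -/
def G0 (a b : ℂ × ℂ → ℂ) (g : ℂ → ℂ × ℂ) (z : ℂ) : ℂ :=
  fderiv ℂ a (g z) (1, 0) * (deriv g z).1 / a (g z) + fderiv ℂ b (g z) (0, 1) * (deriv g z).2 / b (g z)

theorem an_G0 {z : ℂ} (ha : AnalyticAt ℂ a (g z)) (hb : AnalyticAt ℂ b (g z)) (ha0 : a (g z) ≠ 0) (hb0 : b (g z) ≠ 0) (hg : AnalyticAt ℂ g z) :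
    AnalyticAt ℂ (G0 a b g) z := by
  have h1 : AnalyticAt ℂ (fun w => fderiv ℂ a (g w) (1, 0)) z :=
    ((ContinuousLinearMap.apply ℂ ℂ ((1, 0) : ℂ × ℂ)).analyticAt _).comp (ha.fderiv.comp hg)
  have h2 : AnalyticAt ℂ (fun w => fderiv ℂ b (g w) (0, 1)) z :=
    ((ContinuousLinearMap.apply ℂ ℂ ((0, 1) : ℂ × ℂ)).analyticAt _).comp (hb.fderiv.comp hg)
  exact ((h1.mul (an_fst hg.deriv)).div (ha.comp hg) ha0).add ((h2.mul (an_snd hg.deriv)).div (hb.comp hg) hb0)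

/-- the data of a node along a curve -/
structure NodeC (v : ℂ × ℂ → ℂ × ℂ) (r : ℝ) (Om : Set ℂ) (g : ℂ → ℂ × ℂ) (a b : ℂ × ℂ → ℂ) (K : ℝ) : Prop where
  crv : Crv1 v r Om g
  ha : AnalyticOnNhd ℂ a (closedBall 0 r)
  hb : AnalyticOnNhd ℂ b (closedBall 0 r)
  ha0 : ∀ p ∈ closedBall (0 : ℂ × ℂ) r, a p ≠ 0
  hb0 : ∀ p ∈ closedBall (0 : ℂ × ℂ) r, b p ≠ 0
  hv : ∀ p, v p = (p.1 * a p, p.2 * b p)
  hab : ∀ p ∈ closedBall (0 : ℂ × ℂ) r, ‖a p‖ ≤ K * ‖b p‖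
  hba : ∀ p ∈ closedBall (0 : ℂ × ℂ) r, ‖b p‖ ≤ K * ‖a p‖

namespace NodeC

variable {K : ℝ}

theorem memc (h : NodeC v r Om g a b K) {z : ℂ} (hz : z ∈ Om) : g z ∈ closedBall (0 : ℂ × ℂ) r := ball_subset_closedBall (h.crv.mem z hz)

theorem v_ne (h : NodeC v r Om g a b K) {z : ℂ} (hz : z ∈ Om) (hp : (g z).1 ≠ 0 ∨ (g z).2 ≠ 0) : v (g z) ≠ 0 := by
  rw [h.hv]
  intro h1
  rw [Prod.mk_eq_zero] at h1
  rcases hp with hp | hp
  · exact (mul_ne_zero hp (h.ha0 _ (h.memc hz))) h1.1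
  · exact (mul_ne_zero hp (h.hb0 _ (h.memc hz))) h1.2

theorem v_an (h : NodeC v r Om g a b K) {z : ℂ} (hz : z ∈ Om) : AnalyticAt ℂ v (g z) := by
  have e : v = fun p => (p.1 * a p, p.2 * b p) := funext h.hv
  rw [e]
  exact (analyticAt_fst.mul (h.ha _ (h.memc hz))).prod (analyticAt_snd.mul (h.hb _ (h.memc hz)))

theorem an_zt (h : NodeC v r Om g a b K) {z : ℂ} (hz : z ∈ Om) (hp : (g z).1 ≠ 0 ∨ (g z).2 ≠ 0) : AnalyticAt ℂ (ztv v g) z :=
  h.crv.an_ztv hz (h.v_an hz) (h.v_ne hz hp)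

theorem an_al (h : NodeC v r Om g a b K) {z : ℂ} (hz : z ∈ Om) (hp : (g z).1 ≠ 0 ∨ (g z).2 ≠ 0) : AnalyticAt ℂ (fun w => a (g w) * ztv v g w) z :=
  ((h.ha _ (h.memc hz)).comp (h.crv.an z hz)).mul (h.an_zt hz hp)

theorem an_be (h : NodeC v r Om g a b K) {z : ℂ} (hz : z ∈ Om) (hp : (g z).1 ≠ 0 ∨ (g z).2 ≠ 0) : AnalyticAt ℂ (fun w => b (g w) * ztv v g w) z :=
  ((h.hb _ (h.memc hz)).comp (h.crv.an z hz)).mul (h.an_zt hz hp)

theorem dfst (h : NodeC v r Om g a b K) {z : ℂ} (hz : z ∈ Om) (hp : (g z).1 ≠ 0 ∨ (g z).2 ≠ 0) : (deriv g z).1 = (g z).1 * (a (g z) * ztv v g z) := by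
  rw [h.crv.deriv_fst hz (h.v_ne hz hp), h.hv]
  ring

theorem dsnd (h : NodeC v r Om g a b K) {z : ℂ} (hz : z ∈ Om) (hp : (g z).1 ≠ 0 ∨ (g z).2 ≠ 0) : (deriv g z).2 = (g z).2 * (b (g z) * ztv v g z) := by
  rw [h.crv.deriv_snd hz (h.v_ne hz hp), h.hv]
  ring

/-- the axis `{x = 0}` -/
theorem ax₁ (h : NodeC v r Om g a b K) :
    Axis0 Om (fun z => (g z).1) (fun z => (g z).2) (fun z => a (g z) * ztv v g z) (fun z => b (g z) * ztv v g z) K r where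
  isOpen := h.crv.isOpen
  hx := fun z hz => an_fst (h.crv.an z hz)
  hy := fun z hz => an_snd (h.crv.an z hz)
  ha := fun z hz hp => h.an_al hz hp
  hb := fun z hz hp => h.an_be hz hp
  dx := fun z hz hp => by rw [deriv_fst' (h.crv.an z hz).differentiableAt, h.dfst hz hp]
  dy := fun z hz hp => by rw [deriv_snd' (h.crv.an z hz).differentiableAt, h.dsnd hz hp]
  ab := fun z hz _ => by
    rw [norm_mul, norm_mul, ← mul_assoc]
    exact mul_le_mul_of_nonneg_right (h.hab _ (h.memc hz)) (norm_nonneg _)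
  closed := fun s hs => by
    have h1 := h.crv.closed s hs
    convert h1 using 1
    ext z
    simp only [Set.mem_setOf_eq, mem_closedBall, dist_zero_right, Prod.norm_def, max_le_iff]

/-- the axis `{y = 0}` -/
theorem ax₂ (h : NodeC v r Om g a b K) :
    Axis0 Om (fun z => (g z).2) (fun z => (g z).1) (fun z => b (g z) * ztv v g z) (fun z => a (g z) * ztv v g z) K r where
  isOpen := h.crv.isOpen
  hx := fun z hz => an_snd (h.crv.an z hz)
  hy := fun z hz => an_fst (h.crv.an z hz)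
  ha := fun z hz hp => h.an_be hz hp.symm
  hb := fun z hz hp => h.an_al hz hp.symm
  dx := fun z hz hp => by rw [deriv_snd' (h.crv.an z hz).differentiableAt, h.dsnd hz hp.symm]
  dy := fun z hz hp => by rw [deriv_fst' (h.crv.an z hz).differentiableAt, h.dfst hz hp.symm]
  ab := fun z hz _ => by
    rw [norm_mul, norm_mul, ← mul_assoc]
    exact mul_le_mul_of_nonneg_right (h.hba _ (h.memc hz)) (norm_nonneg _)
  closed := fun s hs => by
    have h1 := h.crv.closed s hs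
    convert h1 using 1
    ext z
    simp only [Set.mem_setOf_eq, mem_closedBall, dist_zero_right, Prod.norm_def, max_le_iff]
    tauto

/-- `D` without the part of the equation `l` -/
theorem dvg_zt (h : NodeC v r Om g a b K) {z : ℂ} (hz : z ∈ Om) (hp : (g z).1 ≠ 0 ∨ (g z).2 ≠ 0) :
    dvg v (g z) * ztv v g z = G0 a b g z + (a (g z) * ztv v g z + b (g z) * ztv v g z) := by
  have ha := h.ha0 _ (h.memc hz)
  have hb := h.hb0 _ (h.memc hz)
  rw [dvg_node h.hv (h.ha _ (h.memc hz)) (h.hb _ (h.memc hz))]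
  unfold G0
  rw [h.dfst hz hp, h.dsnd hz hp]
  field_simp
  ring

end NodeC

end

/-- the result of the construction at one axis: `κ = 1` if the axis is not in `{l = 0}`, otherwise `κ = 0` and the field is `0` -/
def Piece (Om : Set ℂ) (g : ℂ → ℂ × ℂ) (α : ℂ → ℂ) (κ : ℂ) (I : ℝ → ℝ) (s δ : ℝ) : Prop :=
  ∃ (C : ℝ) (H : ℂ → ℂ) (err : ℂ → ℝ), 0 ≤ C ∧ (∀ z ∈ Om, ContDiffAt ℝ 1 H z) ∧ Continuous err ∧
      (∀ z ∈ Om, g z ∉ ball (0 : ℂ × ℂ) s → H z = (starRingEnd ℂ) (κ * α z) ∧ err z = 0) ∧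
      (∀ z ∈ Om, ‖H z‖ ≤ C * ‖deriv g z‖) ∧ (∀ z, 0 ≤ err z) ∧ (∀ z ∈ Om, 0 ≤ dv H z + err z) ∧
      ∀ R, 1 ≤ R → ∫ z, tau R z * err z ≤ δ * I R + C

theorem piece_zero {Om : Set ℂ} {g : ℂ → ℂ × ℂ} {α : ℂ → ℂ} {I : ℝ → ℝ} {s δ : ℝ} (hI : ∀ R, 1 ≤ R → 0 ≤ δ * I R) : Piece Om g α 0 I s δ := by
  refine ⟨0, fun _ => 0, fun _ => 0, le_rfl, fun z _ => contDiffAt_const, continuous_const, fun z _ _ => ⟨by simp, rfl⟩, fun z _ => by simp,
    fun z => le_rfl, fun z _ => by simp, fun R hR => ?_⟩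
  simp only [mul_zero, integral_zero, add_zero]
  exact hI R hR

/-- the local package from the pieces of the two axes -/
theorem localN1_of_pieces {v : ℂ × ℂ → ℂ × ℂ} {l : ℂ × ℂ → ℂ} {r : ℝ} {Om : Set ℂ} {g : ℂ → ℂ × ℂ} {G α β : ℂ → ℂ} {κ₁ κ₂ : ℂ} {I Λ : ℝ → ℝ}
    {s δ₁ δ₂ C₀ : ℝ} (hOm : IsOpen Om) (hG : ∀ z ∈ Om, AnalyticAt ℂ G z) (hGb : ∀ z ∈ Om, ‖G z‖ ≤ C₀ * ‖deriv g z‖)
    (hD : ∀ z ∈ Om, g z ∉ ball (0 : ℂ × ℂ) s → DDv v l g z = G z + (κ₁ * α z + κ₂ * β z)) (hΛ : ∀ R, 1 ≤ R → 0 ≤ Λ R)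
    (h₁ : Piece Om g α κ₁ I s δ₁) (h₂ : Piece Om g β κ₂ I s δ₂) : LocalN1 v l Om g I Λ s (δ₁ + δ₂) := by
  obtain ⟨C₁, H₁, e₁, hC₁, a₁, b₁, c₁, d₁, f₁, g₁, i₁⟩ := h₁
  obtain ⟨C₂, H₂, e₂, hC₂, a₂, b₂, c₂, d₂, f₂, g₂, i₂⟩ := h₂
  refine ⟨max C₀ 0 + C₁ + C₂, fun z => (starRingEnd ℂ) (G z) + (H₁ z + H₂ z), fun z => e₁ z + e₂ z, by positivity, ?_, (b₁.add b₂).continuousOn, ?_, ?_,
    fun z _ => add_nonneg (f₁ z) (f₂ z), ?_, ?_⟩
  · intro z hz
    exact ((contDiffAt_conj_holo (hG z hz)).add ((a₁ z hz).add (a₂ z hz))).contDiffWithinAt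
  · intro z hz hs
    refine ⟨?_, ?_⟩
    · simp only [(c₁ z hz hs).1, (c₂ z hz hs).1, hD z hz hs, map_add]
    · simp only [(c₁ z hz hs).2, (c₂ z hz hs).2, add_zero]
  · intro z hz _
    have h1 := d₁ z hz
    have h2 := d₂ z hz
    have h3 := hGb z hz
    have h4 : C₀ * ‖deriv g z‖ ≤ max C₀ 0 * ‖deriv g z‖ := mul_le_mul_of_nonneg_right (le_max_left _ _) (norm_nonneg _)
    calc ‖(starRingEnd ℂ) (G z) + (H₁ z + H₂ z)‖ ≤ ‖G z‖ + (‖H₁ z‖ + ‖H₂ z‖) := by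
          refine (norm_add_le _ _).trans ?_
          rw [RCLike.norm_conj]
          exact add_le_add_right (norm_add_le _ _) _
      _ ≤ (max C₀ 0 + C₁ + C₂) * ‖deriv g z‖ := by nlinarith
  · intro z hz
    have k0 := (contDiffAt_conj_holo (n := 1) (hG z hz)).differentiableAt (by norm_num)
    have k1 := (a₁ z hz).differentiableAt (by norm_num)
    have k2 := (a₂ z hz).differentiableAt (by norm_num)
    have k3 : dv (fun z => (starRingEnd ℂ) (G z) + (H₁ z + H₂ z)) z = dv H₁ z + dv H₂ z := by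
      rw [dv_add (V := fun z => (starRingEnd ℂ) (G z)) (W := fun z => H₁ z + H₂ z) k0 (k1.fun_add k2), dv_add k1 k2,
        dv_conj (hG z hz).differentiableAt, zero_add]
    show 0 ≤ dv (fun z => (starRingEnd ℂ) (G z) + (H₁ z + H₂ z)) z + (e₁ z + e₂ z)
    rw [k3]
    have h1 := g₁ z hz
    have h2 := g₂ z hz
    linarith
  · intro R hR
    have j₁ : Integrable fun z => tau R z * e₁ z := Pool.Agent.H30M.integrable_tau_mul hR b₁
    have j₂ : Integrable fun z => tau R z * e₂ z := Pool.Agent.H30M.integrable_tau_mul hR b₂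
    have h1 : ∫ z in Om, tau R z * (e₁ z + e₂ z) ≤ ∫ z, tau R z * (e₁ z + e₂ z) := by
      refine setIntegral_le_integral ?_ (Eventually.of_forall fun z => mul_nonneg (tau_nonneg hR z) (add_nonneg (f₁ z) (f₂ z)))
      exact (j₁.add j₂).congr (Eventually.of_forall fun z => by simp only [Pi.add_apply, mul_add])
    have h2 : ∫ z, tau R z * (e₁ z + e₂ z) = (∫ z, tau R z * e₁ z) + ∫ z, tau R z * e₂ z := by
      rw [← integral_add j₁ j₂]
      simp only [mul_add]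
    have h3 := i₁ R hR
    have h4 := i₂ R hR
    have h5 : 0 ≤ (max C₀ 0 + C₁ + C₂) * Λ R := mul_nonneg (by positivity) (hΛ R hR)
    have h6 : (0 : ℝ) ≤ max C₀ 0 := le_max_right _ _
    nlinarith

/-- the form `Q` in the shell `r₀ / 2 ≤ |y| ≤ r₀` near the axis `{x = 0}` -/
def ShellAt {M : ℕ} (U : Set ℂ) (x y b : ℂ → ℂ) (F : ℂ → EN M) (Qf : ℂ → ℂ) (d n : ℕ) (s : ℝ) : Prop :=
  ∃ r₀ η b₀ : ℝ, 0 < η ∧ 2 * η ≤ r₀ ∧ r₀ < s ∧ ∀ z ∈ U, ‖x z‖ ≤ η → r₀ / 2 ≤ ‖y z‖ → ‖y z‖ ≤ r₀ → Qf z ≠ 0 ∧ b₀ ≤ lu F Qf d z ∧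
    lu F Qf d z ≤ b₀ + 2 * n ∧ (n / 2) * ‖b z‖ ≤ ‖gr (lu F Qf d) z‖

theorem Piece.mono {Om : Set ℂ} {g : ℂ → ℂ × ℂ} {α : ℂ → ℂ} {κ : ℂ} {I : ℝ → ℝ} {s δ δ' : ℝ} (h : Piece Om g α κ I s δ) (hI : ∀ R, 1 ≤ R → 0 ≤ I R)
    (hδ : δ ≤ δ') : Piece Om g α κ I s δ' := by
  obtain ⟨C, H, e, h1, h2, h3, h4, h5, h6, h7, h8⟩ := h
  exact ⟨C, H, e, h1, h2, h3, h4, h5, h6, h7, fun R hR => (h8 R hR).trans (by
    have := mul_le_mul_of_nonneg_right hδ (hI R hR)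
    linarith)⟩

/-- the logarithmic derivative of the equation of the axes -/
theorem logDeriv_l {Om : Set ℂ} {g : ℂ → ℂ × ℂ} {l l₁ l₂ : ℂ × ℂ → ℂ} {α β κ₁ κ₂ : ℂ} {z : ℂ} (hg : DifferentiableAt ℂ g z)
    (hx : (deriv g z).1 = (g z).1 * α) (hy : (deriv g z).2 = (g z).2 * β) (hl : ∀ p, l p = l₁ p * l₂ p)
    (h₁ : (∀ p, l₁ p = p.1) ∧ κ₁ = 0 ∨ (∀ p, l₁ p = 1) ∧ κ₁ = 1) (h₂ : (∀ p, l₂ p = p.2) ∧ κ₂ = 0 ∨ (∀ p, l₂ p = 1) ∧ κ₂ = 1) (hlz : l (g z) ≠ 0) :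
    deriv (fun w => l (g w)) z / l (g z) = (1 - κ₁) * α + (1 - κ₂) * β := by
  have d₁ : HasDerivAt (fun w => l₁ (g w)) ((1 - κ₁) * α * l₁ (g z)) z := by
    rcases h₁ with ⟨h, k⟩ | ⟨h, k⟩
    · have e : (fun w => l₁ (g w)) = fun w => (g w).1 := funext fun w => h (g w)
      rw [e, h, k]
      have h3 := (ContinuousLinearMap.fst ℂ ℂ ℂ).hasFDerivAt.comp_hasDerivAt z hg.hasDerivAt
      have h4 : (ContinuousLinearMap.fst ℂ ℂ ℂ) (deriv g z) = (1 - 0) * α * (g z).1 := by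
        rw [ContinuousLinearMap.coe_fst', hx]
        ring
      rw [h4] at h3
      exact h3
    · have e : (fun w => l₁ (g w)) = fun w => 1 := funext fun w => h (g w)
      rw [e, k, sub_self, zero_mul, zero_mul]
      exact hasDerivAt_const z 1
  have d₂ : HasDerivAt (fun w => l₂ (g w)) ((1 - κ₂) * β * l₂ (g z)) z := by
    rcases h₂ with ⟨h, k⟩ | ⟨h, k⟩
    · have e : (fun w => l₂ (g w)) = fun w => (g w).2 := funext fun w => h (g w)
      rw [e, h, k]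
      have h3 := (ContinuousLinearMap.snd ℂ ℂ ℂ).hasFDerivAt.comp_hasDerivAt z hg.hasDerivAt
      have h4 : (ContinuousLinearMap.snd ℂ ℂ ℂ) (deriv g z) = (1 - 0) * β * (g z).2 := by
        rw [ContinuousLinearMap.coe_snd', hy]
        ring
      rw [h4] at h3
      exact h3
    · have e : (fun w => l₂ (g w)) = fun w => 1 := funext fun w => h (g w)
      rw [e, k, sub_self, zero_mul, zero_mul]
      exact hasDerivAt_const z 1
  have e : (fun w => l (g w)) = fun w => l₁ (g w) * l₂ (g w) := funext fun w => hl (g w)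
  rw [hl] at hlz
  rw [e, (d₁.fun_mul d₂).deriv, hl, div_eq_iff hlz]
  ring

end Pool.Agent.MQ

end
end
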