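import Pool.Agent.H94.G6.H68.KR.Ch
import Pool.Agent.H94.G6.H68.KR.Pt
import Pool.Agent.H94.G6.M31
import Pool.Agent.H94.G6.M44
import Pool.Agent.H94.G6.M65

/-! The parts of this file: H68.KR.CB4, H68.KR.EV, H68.KR.CB5, H68.KR.EM, H68.KR.PD, H68.KR.JF. -/

section

/-!
# KR CB4: tools for the pole curve

* `exists_direction`: `B` analytic on `ball 0 r` (sup norm).  If for every `m : ℂ` the function `y ↦ B (m y, y)` is
  `0` near `0`, then for `|m| < 1` it is `0` for `|y| < r` (identity theorem).  So `B` vanishes on the open set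
  `{(x, y) | |x| < |y| < r}` (`m = x / y`), which is not empty, hence on `ball 0 r`
  (`AnalyticOnNhd.eqOn_zero_of_preconnected_of_eventuallyEq_zero` in `ℂ × ℂ`).
* `ld_of_vanish`: by `iterate_dy_slice` (valid at the point `(x, y)`) the function `a = A (x, ·)` has
  `iteratedDeriv i a y = 0` for `i < k`, and `b = B (x, ·)` has `iteratedDeriv i b y = 0` for `i < k`,
  `iteratedDeriv k b y ≠ 0`.  So `b z = (z - y)^k b₁ z`, `b₁ y ≠ 0` and `a z = (z - y)^k a₁ z`
  (`natCast_le_analyticOrderAt`, the relation of the order and the derivatives: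
  `natCast_le_analyticOrderAt_iff_iteratedDeriv_eq_zero` or the Taylor series), `q = a₁ / b₁`.
* `ld_of_ne_zero`: `q = A / B`.
* `exists_implicit`: implicit function theorem for `G : ℂ × ℂ → ℂ` analytic at `(x₁, y₁)`, `G (x₁, y₁) = 0`,
  `dy G (x₁, y₁) ≠ 0`: the map `F (x, y) = (x, G (x, y))` is analytic with invertible derivative at `(x₁, y₁)`
  (`(a, b) ↦ (a, G_x a + G_y b)`), so it has a local inverse which is analytic: e.g. `HasStrictFDerivAt` +
  `ContDiffAt.to_localInverse` with smoothness `ω` (`AnalyticAt.contDiffAt`, `ContDiffAt.analyticAt` for `n = ω`),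
  or `OpenPartialHomeomorph.analyticAt_symm`/`hasFPowerSeriesAt_symm`.  `c x = (F⁻¹ (x, 0)).2`.
-/

set_option autoImplicit false

open Topology Filter Metric

noncomputable section

namespace Pool.Agent.H68.KR

private lemma CB4_slice {B : ℂ × ℂ → ℂ} {x y : ℂ} (hB : AnalyticAt ℂ B (x, y)) :
    AnalyticAt ℂ (fun z => B (x, z)) y := by
  have h : AnalyticAt ℂ (fun z : ℂ => ((x, z) : ℂ × ℂ)) y := analyticAt_const.prod analyticAt_id
  exact AnalyticAt.comp (g := B) (f := fun z : ℂ => ((x, z) : ℂ × ℂ)) hB h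

theorem exists_direction {B : ℂ × ℂ → ℂ} (hB : AnalyticAt ℂ B 0)
    (h : ¬ ∀ᶠ u in 𝓝 (0 : ℂ × ℂ), B u = 0) :
    ∃ m : ℂ, ¬ ∀ᶠ y in 𝓝 (0 : ℂ), B (m * y, y) = 0 := by
  by_contra hcon
  push Not at hcon
  obtain ⟨r, hr, hBr⟩ := Metric.eventually_nhds_iff_ball.mp hB.eventually_analyticAt
  have key : ∀ x y : ℂ, ‖x‖ < ‖y‖ → ‖y‖ < r → B (x, y) = 0 := by
    intro x y hxy hy
    have hy0 : y ≠ 0 := by
      intro h0
      rw [h0, norm_zero] at hxy
      exact absurd hxy (not_lt.mpr (norm_nonneg x))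
    have hm : ‖x / y‖ < 1 := by
      rw [norm_div, div_lt_one (norm_pos_iff.mpr hy0)]
      exact hxy
    have han : AnalyticOnNhd ℂ (fun z : ℂ => B (x / y * z, z)) (ball 0 r) := by
      intro z hz
      have h1 : AnalyticAt ℂ (fun z : ℂ => ((x / y * z, z) : ℂ × ℂ)) z :=
        (analyticAt_const.mul analyticAt_id).prod analyticAt_id
      have h2 : ((x / y * z, z) : ℂ × ℂ) ∈ ball (0 : ℂ × ℂ) r := by
        rw [mem_ball_zero_iff] at hz ⊢
        rw [Prod.norm_mk, norm_mul]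
        refine max_lt (lt_of_le_of_lt ?_ hz) hz
        have := norm_nonneg z
        nlinarith
      exact AnalyticAt.comp (g := B) (f := fun z : ℂ => ((x / y * z, z) : ℂ × ℂ)) (hBr _ h2) h1
    have hz := han.eqOn_zero_of_preconnected_of_eventuallyEq_zero
      (convex_ball (0 : ℂ) r).isPreconnected (mem_ball_self hr) (hcon (x / y))
    have h3 := hz (mem_ball_zero_iff.mpr hy)
    simp only [Pi.zero_apply] at h3
    rwa [div_mul_cancel₀ _ hy0] at h3
  apply h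
  have han : AnalyticOnNhd ℂ B (ball 0 r) := fun u hu => hBr u hu
  have hr2 : ‖((r / 2 : ℝ) : ℂ)‖ = r / 2 := by
    rw [Complex.norm_real, Real.norm_of_nonneg (by linarith)]
  have hp : (((0 : ℂ), ((r / 2 : ℝ) : ℂ)) : ℂ × ℂ) ∈ ball (0 : ℂ × ℂ) r := by
    rw [mem_ball_zero_iff, Prod.norm_mk, norm_zero, hr2]
    exact max_lt hr (by linarith)
  have hev : B =ᶠ[𝓝 (((0 : ℂ), ((r / 2 : ℝ) : ℂ)) : ℂ × ℂ)] 0 := by
    have ho : IsOpen {u : ℂ × ℂ | ‖u.1‖ < ‖u.2‖ ∧ ‖u.2‖ < r} := by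
      apply IsOpen.inter
      · exact isOpen_lt continuous_fst.norm continuous_snd.norm
      · exact isOpen_lt continuous_snd.norm continuous_const
    have hm : (((0 : ℂ), ((r / 2 : ℝ) : ℂ)) : ℂ × ℂ) ∈
        {u : ℂ × ℂ | ‖u.1‖ < ‖u.2‖ ∧ ‖u.2‖ < r} := by
      refine ⟨?_, ?_⟩
      · show ‖(0 : ℂ)‖ < ‖((r / 2 : ℝ) : ℂ)‖
        rw [hr2, norm_zero]
        linarith
      · show ‖((r / 2 : ℝ) : ℂ)‖ < r
        rw [hr2]
        linarith
    filter_upwards [ho.mem_nhds hm] with u hu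
    exact key u.1 u.2 hu.1 hu.2
  have hz := han.eqOn_zero_of_preconnected_of_eventuallyEq_zero
    (convex_ball (0 : ℂ × ℂ) r).isPreconnected hp hev
  filter_upwards [ball_mem_nhds (0 : ℂ × ℂ) hr] with u hu
  exact hz hu

theorem ld_of_vanish {A B : ℂ × ℂ → ℂ} {x y : ℂ} (hA : AnalyticAt ℂ A (x, y))
    (hB : AnalyticAt ℂ B (x, y)) {k : ℕ} (h1 : ∀ i < k, (dy^[i] A) (x, y) = 0)
    (h2 : ∀ i < k, (dy^[i] B) (x, y) = 0) (h3 : (dy^[k] B) (x, y) ≠ 0) : LD A B x y := by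
  have ha := CB4_slice hA
  have hb := CB4_slice hB
  have e1 : ∀ i < k, iteratedDeriv i (fun z => A (x, z)) y = 0 := by
    intro i hi
    rw [← iterate_dy_slice hA i]
    exact h1 i hi
  have e2 : ∀ i < k, iteratedDeriv i (fun z => B (x, z)) y = 0 := by
    intro i hi
    rw [← iterate_dy_slice hB i]
    exact h2 i hi
  have e3 : iteratedDeriv k (fun z => B (x, z)) y ≠ 0 := by
    have := iterate_dy_slice hB k
    simp only at this
    rw [← this]
    exact h3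
  have oa : (k : ℕ∞) ≤ analyticOrderAt (fun z => A (x, z)) y :=
    (natCast_le_analyticOrderAt_iff_iteratedDeriv_eq_zero ha).mpr e1
  have ob : (k : ℕ∞) ≤ analyticOrderAt (fun z => B (x, z)) y :=
    (natCast_le_analyticOrderAt_iff_iteratedDeriv_eq_zero hb).mpr e2
  have ob' : ¬ ((k + 1 : ℕ) : ℕ∞) ≤ analyticOrderAt (fun z => B (x, z)) y := by
    intro hle
    exact e3 ((natCast_le_analyticOrderAt_iff_iteratedDeriv_eq_zero hb).mp hle k (Nat.lt_succ_self k))
  obtain ⟨a1, ha1, hea⟩ := (natCast_le_analyticOrderAt ha).mp oa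
  obtain ⟨b1, hb1, heb⟩ := (natCast_le_analyticOrderAt hb).mp ob
  have hb1y : b1 y ≠ 0 := by
    intro h0
    apply ob'
    have ho1 : ((1 : ℕ) : ℕ∞) ≤ analyticOrderAt b1 y := by
      apply (natCast_le_analyticOrderAt_iff_iteratedDeriv_eq_zero hb1).mpr
      intro i hi
      have hi0 : i = 0 := by omega
      subst hi0
      simpa using h0
    obtain ⟨b2, hb2, heb2⟩ := (natCast_le_analyticOrderAt hb1).mp ho1
    refine (natCast_le_analyticOrderAt hb).mpr ⟨b2, hb2, ?_⟩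
    filter_upwards [heb, heb2] with z hz hz2
    rw [hz, hz2, smul_smul, ← pow_add]
  refine ⟨fun z => a1 z / b1 z, ha1.div hb1 hb1y, ?_⟩
  filter_upwards [hea, heb, hb1.continuousAt.eventually_ne hb1y] with z hza hzb hz1
  rw [hza, hzb, smul_eq_mul, smul_eq_mul]
  field_simp

/-- If `B (x, ·)` is not `0` near `y`, there is a first derivative which does not vanish. -/
theorem exists_order {B : ℂ × ℂ → ℂ} {x y : ℂ} (hB : AnalyticAt ℂ B (x, y))
    (h : ¬ ∀ᶠ z in 𝓝 y, B (x, z) = 0) :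
    ∃ k : ℕ, (∀ i < k, (dy^[i] B) (x, y) = 0) ∧ (dy^[k] B) (x, y) ≠ 0 := by
  have hb := CB4_slice hB
  have hne : analyticOrderAt (fun z => B (x, z)) y ≠ ⊤ := by
    intro h0
    exact h (analyticOrderAt_eq_top.mp h0)
  obtain ⟨k, hk⟩ := ENat.ne_top_iff_exists.mp hne
  refine ⟨k, ?_, ?_⟩
  · intro i hi
    rw [iterate_dy_slice hB i]
    exact (natCast_le_analyticOrderAt_iff_iteratedDeriv_eq_zero hb).mp hk.le i hi
  · intro h0
    rw [iterate_dy_slice hB k] at h0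
    have hle : ((k + 1 : ℕ) : ℕ∞) ≤ analyticOrderAt (fun z => B (x, z)) y := by
      apply (natCast_le_analyticOrderAt_iff_iteratedDeriv_eq_zero hb).mpr
      intro i hi
      rcases Nat.lt_succ_iff_lt_or_eq.mp hi with h1 | h1
      · exact (natCast_le_analyticOrderAt_iff_iteratedDeriv_eq_zero hb).mp hk.le i h1
      · rw [h1]
        exact h0
    rw [← hk] at hle
    have : k + 1 ≤ k := by exact_mod_cast hle
    omega

theorem exists_implicit {G : ℂ × ℂ → ℂ} {x₁ y₁ : ℂ} (hG : AnalyticAt ℂ G (x₁, y₁))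
    (h0 : G (x₁, y₁) = 0) (h1 : dy G (x₁, y₁) ≠ 0) :
    ∃ c : ℂ → ℂ, AnalyticAt ℂ c x₁ ∧ c x₁ = y₁ ∧
      ∀ᶠ u in 𝓝 ((x₁, y₁) : ℂ × ℂ), G u = 0 → u.2 = c u.1 := by
  set p : ℂ × ℂ := (x₁, y₁) with hp
  set F : ℂ × ℂ → ℂ × ℂ := fun u => (u.1, G u) with hF
  have hFa : AnalyticAt ℂ F p := analyticAt_fst.prod hG
  set L := fderiv ℂ G p with hL
  have hLy : L (0, 1) ≠ 0 := h1
  have hFd : HasFDerivAt F ((ContinuousLinearMap.fst ℂ ℂ ℂ).prod L) p :=
    hasFDerivAt_fst.prodMk hG.differentiableAt.hasFDerivAt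
  have hLab : ∀ a b : ℂ, L (a, b) = a * L (1, 0) + b * L (0, 1) := by
    intro a b
    have : ((a, b) : ℂ × ℂ) = a • ((1, 0) : ℂ × ℂ) + b • ((0, 1) : ℂ × ℂ) := by
      ext <;> simp
    rw [this, map_add, map_smul, map_smul, smul_eq_mul, smul_eq_mul]
  let e0 : (ℂ × ℂ) ≃ₗ[ℂ] (ℂ × ℂ) :=
    { toFun := fun u => (u.1, L u)
      invFun := fun v => (v.1, (v.2 - v.1 * L (1, 0)) / L (0, 1))
      map_add' := by
        intro u v
        simp
      map_smul' := by
        intro c u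
        simp
      left_inv := by
        intro u
        obtain ⟨a, b⟩ := u
        ext
        · rfl
        · simp only
          rw [hLab a b]
          field_simp
          ring
      right_inv := by
        intro v
        obtain ⟨a, b⟩ := v
        ext
        · rfl
        · simp only
          rw [hLab]
          field_simp
          ring }
  let e : (ℂ × ℂ) ≃L[ℂ] (ℂ × ℂ) := e0.toContinuousLinearEquiv
  have he : (e : (ℂ × ℂ) →L[ℂ] (ℂ × ℂ)) = (ContinuousLinearMap.fst ℂ ℂ ℂ).prod L := by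
    ext <;> rfl
  have hFd' : HasFDerivAt F (e : (ℂ × ℂ) →L[ℂ] (ℂ × ℂ)) p := by
    rw [he]
    exact hFd
  have hc : ContDiffAt ℂ (⊤ : WithTop ℕ∞) F p := hFa.contDiffAt
  have hn : (⊤ : WithTop ℕ∞) ≠ 0 := by
    simp
  have hFp : F p = (x₁, 0) := by
    simp only [hF, hp]
    rw [h0]
  have hinv : AnalyticAt ℂ (hc.localInverse hFd' hn) (x₁, 0) := by
    rw [← hFp]
    exact (hc.to_localInverse hFd' hn).analyticAt
  have hmap : AnalyticAt ℂ (fun x : ℂ => ((x, 0) : ℂ × ℂ)) x₁ := analyticAt_id.prod analyticAt_const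
  have hcomp : AnalyticAt ℂ (fun x : ℂ => hc.localInverse hFd' hn (x, 0)) x₁ :=
    AnalyticAt.comp (g := hc.localInverse hFd' hn) (f := fun x : ℂ => ((x, 0) : ℂ × ℂ)) hinv hmap
  refine ⟨fun x => (hc.localInverse hFd' hn (x, 0)).2, ?_, ?_, ?_⟩
  · exact analyticAt_snd.comp hcomp
  · have := hc.localInverse_apply_image hFd' hn
    rw [hFp] at this
    simp only
    rw [this]
  · have hleft : ∀ᶠ u in 𝓝 p, hc.localInverse hFd' hn (F u) = u :=
      (hc.hasStrictFDerivAt' hFd' hn).eventually_left_inverse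
    filter_upwards [hleft] with u hu hGu
    have h5 : F u = (u.1, 0) := by
      simp only [hF]
      rw [hGu]
    rw [h5] at hu
    rw [hu]

end Pool.Agent.H68.KR

end
end

section

/-!
# KR EV: evaluation of the function field at a generic point with values in a field

`P` is prime, `FunField P` has positive transcendence degree.  Let `x : Fin (N+1) → FunField P` be the point of
`exists_point` (file `Pt`) (`aeval x G = 0 ↔ G ∈ P` for homogeneous `G`, `x i / x j = ratio P i j`,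
`adjoin ℂ {x i / x j} = ⊤`, `x i = 0 ↔ coordFun P i = 0`; `coordFun P i = 0 ↔ X i ∈ P`; note that `FunField P` and
`functionField P` are the same type with the same instances).

For `G : MvPolynomial (Fin (N+1)) ℂ` of total degree `≤ n` let `G^h = hmz l n G` (file `HZ`), homogeneous of degree
`n`.  For a point `y` of a field `F` over `ℂ` with `y l ≠ 0`: `G^h (y) = y_l ^ n G (y / y_l)` (`eval₂_hmz`).  So for a point `y` with the property
`hy : ∀ d Q, Q.IsHomogeneous d → (eval₂ ι y Q = 0 ↔ Q ∈ P)` and `y l ≠ 0`: `G (y / y_l) = 0 ↔ G^h ∈ P`.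

`exists_eval`: choose `l` with `X l ∉ P` (exists, otherwise all `x i = 0` and `adjoin = ⊥`, but there is a transcendental
element `z 0`); then `x l ≠ 0` and `y l ≠ 0`.  By the remark (for `x` and for `y`) the ring homomorphisms
`α : G ↦ G (x / x_l)`, `β : G ↦ G (y / y_l)` of `MvPolynomial` have the same kernel.  So `β` induces an injective ring
homomorphism of the range `A` of `α` into `F` (`RingHom.liftOfSurjective` / `Ideal.Quotient` / by choice), and
`FunField P` is the fraction field of `A` (every element of `adjoin ℂ {x i / x l}` is a quotient of two elements of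
`A`: `IntermediateField.mem_adjoin_range_iff`, or `IsFractionRing.of_field`; the field generated by the `x i / x l`
contains `x i / x j`, so it is `⊤`).  `IsFractionRing.lift`.  Then `E (ratio P i l) = y i / y l` and
`ratio P i j = ratio P i l / ratio P j l` if `X j ∉ P`; if `X j ∈ P`, `ratio P i j = 0` (division by `0`) and `y j = 0`.

`exists_hom_rep`: `f = α G₁ / α G₂`, `α G₂ ≠ 0`; take `n ≥` both total degrees, `A = G₁^h`, `B = G₂^h` (for one `l₀`),
`f * B (x) = A (x)` and then for every `l` with `x l ≠ 0` divide by `x_l ^ n`.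
-/

set_option autoImplicit false

open MvPolynomial
open Pool.Agent.H17GT (coordFun functionField)
open Pool.Agent.H17LG.Variety (FunField ratio)

noncomputable section

namespace Pool.Agent.H68.KR

variable {N : ℕ} (P : Ideal (MvPolynomial (Fin (N + 1)) ℂ)) [P.IsPrime]

theorem coordFun_eq_zero_iff (i : Fin (N + 1)) : coordFun P i = 0 ↔ X i ∈ P := by
  unfold Pool.Agent.H17GT.coordFun
  rw [map_eq_zero_iff _ (IsFractionRing.injective (MvPolynomial (Fin (N + 1)) ℂ ⧸ P)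
    (FractionRing (MvPolynomial (Fin (N + 1)) ℂ ⧸ P))), Ideal.Quotient.eq_zero_iff_mem]

private theorem EV_smul {F : Type} [Field F] (ι : ℂ →+* F) {d : ℕ} {Q : MvPolynomial (Fin (N + 1)) ℂ}
    (hQ : Q.IsHomogeneous d) {l : Fin (N + 1)} (y : Fin (N + 1) → F) :
    eval₂ ι (fun i => y i / y l) Q = (y l)⁻¹ ^ d * eval₂ ι y Q := by
  have h1 : (fun i => y i / y l) = fun i => (y l)⁻¹ * y i := by
    funext i
    rw [div_eq_inv_mul]
  rw [h1, eval₂_of_isHomogeneous ι hQ]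

/-- rational functions as quotients of polynomials in the ratios -/
private theorem EV_quot {x : Fin (N + 1) → FunField P} (hgen : IntermediateField.adjoin ℂ {y | ∃ i j, y = x i / x j} = ⊤)
    {l : Fin (N + 1)} (hl : x l ≠ 0) (f : FunField P) :
    ∃ G₁ G₂ : MvPolynomial (Fin (N + 1)) ℂ, aeval (fun i => x i / x l) G₂ ≠ 0 ∧
      f * aeval (fun i => x i / x l) G₂ = aeval (fun i => x i / x l) G₁ := by
  have hf : f ∈ IntermediateField.adjoin ℂ {y | ∃ i j, y = x i / x j} := by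
    rw [hgen]
    exact IntermediateField.mem_top
  induction hf using IntermediateField.adjoin_induction with
  | mem y hy =>
    obtain ⟨i, j, rfl⟩ := hy
    by_cases hj : x j = 0
    · refine ⟨0, 1, ?_, ?_⟩
      · rw [map_one]
        exact one_ne_zero
      · rw [hj, div_zero, zero_mul, map_zero]
    · refine ⟨X i, X j, ?_, ?_⟩
      · rw [aeval_X]
        exact div_ne_zero hj hl
      · rw [aeval_X, aeval_X]
        field_simp
  | algebraMap c =>
    refine ⟨C c, 1, ?_, ?_⟩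
    · rw [map_one]
      exact one_ne_zero
    · rw [map_one, mul_one, algHom_C]
  | add a b _ _ ha hb =>
    obtain ⟨A₁, A₂, hA, hA'⟩ := ha
    obtain ⟨B₁, B₂, hB, hB'⟩ := hb
    refine ⟨A₁ * B₂ + B₁ * A₂, A₂ * B₂, ?_, ?_⟩
    · rw [map_mul]
      exact mul_ne_zero hA hB
    · rw [map_mul, map_add, map_mul, map_mul, ← hA', ← hB']
      ring
  | inv a _ ha =>
    obtain ⟨A₁, A₂, hA, hA'⟩ := ha
    by_cases h0 : a = 0
    · refine ⟨0, 1, ?_, ?_⟩
      · rw [map_one]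
        exact one_ne_zero
      · rw [h0, inv_zero, zero_mul, map_zero]
    · refine ⟨A₂, A₁, ?_, ?_⟩
      · rw [← hA']
        exact mul_ne_zero h0 hA
      · rw [← hA', ← mul_assoc, inv_mul_cancel₀ h0, one_mul]
  | mul a b _ _ ha hb =>
    obtain ⟨A₁, A₂, hA, hA'⟩ := ha
    obtain ⟨B₁, B₂, hB, hB'⟩ := hb
    refine ⟨A₁ * B₁, A₂ * B₂, ?_, ?_⟩
    · rw [map_mul]
      exact mul_ne_zero hA hB
    · rw [map_mul, map_mul, ← hA', ← hB']
      ring

/-- The evaluation at a generic point with values in `F`. -/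
theorem exists_eval {k : ℕ} (z : Fin (k + 1) → FunField P) (hz : IsTranscendenceBasis ℂ z)
    {F : Type} [Field F] (ι : ℂ →+* F) (y : Fin (N + 1) → F)
    (hy : ∀ (d : ℕ) (Q : MvPolynomial (Fin (N + 1)) ℂ), Q.IsHomogeneous d →
      (eval₂ ι y Q = 0 ↔ Q ∈ P)) :
    ∃ E : FunField P →+* F, (∀ c : ℂ, E (algebraMap ℂ (FunField P) c) = ι c) ∧
      ∀ i j, E (ratio P i j) = y i / y j := by
  obtain ⟨x, hx0, hgen, -, hxP, hxc, hxr⟩ := exists_point P z hz
  obtain ⟨l, hl⟩ : ∃ l, x l ≠ 0 := by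
    by_contra hcon
    push Not at hcon
    exact hx0 (funext hcon)
  have hlP : X l ∉ P := by
    rw [← coordFun_eq_zero_iff, ← hxc]
    exact hl
  have hyl : y l ≠ 0 := by
    intro h0
    apply hlP
    rw [← hy 1 (X l) (isHomogeneous_X ℂ l), eval₂_X]
    exact h0
  -- the two evaluations
  obtain ⟨α, hα⟩ : ∃ α : MvPolynomial (Fin (N + 1)) ℂ →+* FunField P, ∀ G, α G = aeval (fun i => x i / x l) G :=
    ⟨(aeval (fun i => x i / x l) : MvPolynomial (Fin (N + 1)) ℂ →ₐ[ℂ] FunField P).toRingHom, fun G => rfl⟩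
  obtain ⟨β, hβ⟩ : ∃ β : MvPolynomial (Fin (N + 1)) ℂ →+* F, ∀ G, β G = eval₂ ι (fun i => y i / y l) G :=
    ⟨eval₂Hom ι (fun i => y i / y l), fun G => rfl⟩
  have hker : ∀ G, α G = 0 ↔ β G = 0 := by
    intro G
    have h1 := eval₂_hmz ι (le_refl G.totalDegree) hyl
    have h2 := eval₂_hmz (algebraMap ℂ (FunField P)) (le_refl G.totalDegree) hl
    have h3 := hxP _ _ (hmz_isHomogeneous l G.totalDegree G)
    have h4 := hy _ _ (hmz_isHomogeneous l G.totalDegree G)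
    rw [h1] at h4
    rw [aeval_def, h2] at h3
    rw [hα, hβ, aeval_def]
    constructor
    · intro h5
      have h6 := h4.mpr (h3.mp (by rw [h5, mul_zero]))
      exact (mul_eq_zero.mp h6).resolve_left (pow_ne_zero _ hyl)
    · intro h5
      have h6 := h3.mpr (h4.mp (by rw [h5, mul_zero]))
      exact (mul_eq_zero.mp h6).resolve_left (pow_ne_zero _ hl)
  -- the range of `α`
  have hsurj : Function.Surjective α.rangeRestrict := α.rangeRestrict_surjective
  have hker' : RingHom.ker α.rangeRestrict ≤ RingHom.ker β := by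
    intro G hG
    rw [RingHom.mem_ker] at hG ⊢
    rw [← hker]
    exact congrArg Subtype.val hG
  obtain ⟨g, hg⟩ : ∃ g : α.range →+* F, ∀ G, g (α.rangeRestrict G) = β G :=
    ⟨RingHom.liftOfSurjective α.rangeRestrict hsurj ⟨β, hker'⟩, fun G =>
      RingHom.liftOfRightInverse_comp_apply α.rangeRestrict _ (Function.rightInverse_surjInv hsurj) ⟨β, hker'⟩ G⟩
  have hginj : Function.Injective g := by
    rw [injective_iff_map_eq_zero]
    intro a ha
    obtain ⟨G, rfl⟩ := hsurj a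
    rw [hg, ← hker] at ha
    exact Subtype.ext ha
  let _ : Algebra α.range (FunField P) := α.range.subtype.toAlgebra
  have hfaith : FaithfulSMul α.range (FunField P) := by
    rw [faithfulSMul_iff_algebraMap_injective]
    exact Subtype.val_injective
  have hfrac : IsFractionRing α.range (FunField P) := by
    refine IsFractionRing.of_field _ _ fun f => ?_
    obtain ⟨G₁, G₂, h1, h2⟩ := EV_quot P hgen hl f
    refine ⟨α.rangeRestrict G₁, α.rangeRestrict G₂, ?_⟩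
    have e1 : (algebraMap α.range (FunField P)) (α.rangeRestrict G₁) = aeval (fun i => x i / x l) G₁ := hα G₁
    have e2 : (algebraMap α.range (FunField P)) (α.rangeRestrict G₂) = aeval (fun i => x i / x l) G₂ := hα G₂
    rw [e1, e2, ← h2, mul_div_assoc, div_self h1, mul_one]
  obtain ⟨E, hE⟩ : ∃ E : FunField P →+* F, ∀ a : α.range, E a = g a :=
    ⟨IsFractionRing.lift (A := α.range) (K := FunField P) hginj, fun a => IsFractionRing.lift_algebraMap hginj a⟩
  have hEα : ∀ G, E (α G) = β G := fun G => by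
    rw [← hg]
    exact hE (α.rangeRestrict G)
  have hEx : ∀ i, E (x i / x l) = y i / y l := fun i => by
    have h1 := hEα (X i)
    rw [hα, hβ, aeval_X, eval₂_X] at h1
    exact h1
  refine ⟨E, fun c => ?_, fun i j => ?_⟩
  · have h1 := hEα (C c)
    rw [hα, hβ, eval₂_C, algHom_C] at h1
    exact h1
  · have h1 : ratio P i j = (x i / x l) / (x j / x l) := by
      rw [div_div_div_cancel_right₀ hl, hxr]
    rw [h1, map_div₀, hEx, hEx, div_div_div_cancel_right₀ hyl]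

/-- Rational functions are quotients of homogeneous polynomials. -/
theorem exists_hom_rep {k : ℕ} (z : Fin (k + 1) → FunField P) (hz : IsTranscendenceBasis ℂ z)
    (f : FunField P) : ∃ (d : ℕ) (A B : MvPolynomial (Fin (N + 1)) ℂ), A.IsHomogeneous d ∧
      B.IsHomogeneous d ∧ B ∉ P ∧ (f ≠ 0 → A ∉ P) ∧
      ∀ l, X l ∉ P → f * aeval (fun i => ratio P i l) B = aeval (fun i => ratio P i l) A := by
  obtain ⟨x, hx0, hgen, -, hxP, hxc, hxr⟩ := exists_point P z hz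
  obtain ⟨l, hl⟩ : ∃ l, x l ≠ 0 := by
    by_contra hcon
    push Not at hcon
    exact hx0 (funext hcon)
  obtain ⟨G₁, G₂, h1, h2⟩ := EV_quot P hgen hl f
  obtain ⟨n, hn⟩ : ∃ n, n = max G₁.totalDegree G₂.totalDegree := ⟨_, rfl⟩
  have e1 := eval₂_hmz (algebraMap ℂ (FunField P)) (l := l) (n := n) (G := G₁) (by rw [hn]; exact le_max_left _ _) hl
  have e2 := eval₂_hmz (algebraMap ℂ (FunField P)) (l := l) (n := n) (G := G₂) (by rw [hn]; exact le_max_right _ _) hl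
  rw [← aeval_def, ← aeval_def] at e1 e2
  have hH1 := hmz_isHomogeneous l n G₁
  have hH2 := hmz_isHomogeneous l n G₂
  refine ⟨n, hmz l n G₁, hmz l n G₂, hH1, hH2, ?_, ?_, ?_⟩
  · intro hmem
    rw [← hxP _ _ hH2, e2] at hmem
    exact (mul_ne_zero (pow_ne_zero _ hl) h1) hmem
  · intro hf hmem
    rw [← hxP _ _ hH1, e1, ← h2] at hmem
    exact (mul_ne_zero (pow_ne_zero _ hl) (mul_ne_zero hf h1)) hmem
  · intro l' hl'
    have e3 : (fun i => ratio P i l') = fun i => x i / x l' := by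
      funext i
      rw [hxr]
    rw [e3, aeval_def, aeval_def, EV_smul _ hH1, EV_smul _ hH2, ← aeval_def, ← aeval_def, e1, e2, ← h2]
    ring

/-- The evaluation of a quotient of homogeneous polynomials. -/
theorem eval_hom_rep {F : Type} [Field F] (ι : ℂ →+* F) (y : Fin (N + 1) → F)
    (E : FunField P →+* F) (hE : ∀ c : ℂ, E (algebraMap ℂ (FunField P) c) = ι c)
    (hr : ∀ i j, E (ratio P i j) = y i / y j) {l : Fin (N + 1)} (hl : y l ≠ 0) {d : ℕ}
    {A B : MvPolynomial (Fin (N + 1)) ℂ} (hA : A.IsHomogeneous d) (hB : B.IsHomogeneous d)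
    {f : FunField P} (hf : f * aeval (fun i => ratio P i l) B = aeval (fun i => ratio P i l) A) :
    E f * eval₂ ι y B = eval₂ ι y A := by
  have hcomp : E.comp (algebraMap ℂ (FunField P)) = ι := RingHom.ext hE
  have h1 : ∀ G : MvPolynomial (Fin (N + 1)) ℂ, E (aeval (fun i => ratio P i l) G) = eval₂ ι (fun i => y i / y l) G := by
    intro G
    rw [aeval_def, hom_eval₂, hcomp]
    congr 1
    funext i
    exact hr i l
  have h2 := congrArg E hf
  rw [map_mul, h1, h1, EV_smul ι hA, EV_smul ι hB] at h2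
  have h3 : (y l)⁻¹ ^ d ≠ 0 := pow_ne_zero _ (inv_ne_zero hl)
  have h4 : (y l)⁻¹ ^ d * (E f * eval₂ ι y B) = (y l)⁻¹ ^ d * eval₂ ι y A := by
    rw [← h2]
    ring
  exact mul_left_cancel₀ h3 h4

/-- A relation between the coordinate ratios holds at all points. -/
theorem eval_eq_zero_of_relation {k : ℕ} (z : Fin (k + 1) → FunField P) (hz : IsTranscendenceBasis ℂ z)
    {l : Fin (N + 1)} (hl : X l ∉ P) {G : MvPolynomial (Fin (N + 1)) ℂ}
    (hG : aeval (fun i => ratio P i l) G = 0) {x : Fin (N + 1) → ℂ} (hx : ∀ Q ∈ P, eval x Q = 0)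
    (hxl : x l ≠ 0) : eval (fun i => x i / x l) G = 0 := by
  obtain ⟨w, hw0, hgen, -, hwP, hwc, hwr⟩ := exists_point P z hz
  have hwl : w l ≠ 0 := by
    intro h0
    rw [hwc, coordFun_eq_zero_iff] at h0
    exact hl h0
  have e1 := eval₂_hmz (algebraMap ℂ (FunField P)) (le_refl G.totalDegree) hwl
  have e2 : (fun i => ratio P i l) = fun i => w i / w l := by
    funext i
    rw [hwr]
  rw [e2, aeval_def] at hG
  rw [hG, mul_zero, ← aeval_def, hwP _ _ (hmz_isHomogeneous l _ G)] at e1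
  have e3 := hx _ e1
  have e4 := eval₂_hmz (RingHom.id ℂ) (le_refl G.totalDegree) hxl
  have e5 : eval₂ (RingHom.id ℂ) x (hmz l G.totalDegree G) = 0 := e3
  rw [e5] at e4
  exact (mul_eq_zero.mp e4.symm).resolve_left (pow_ne_zero _ hxl)

end Pool.Agent.H68.KR

end
end

section

/-!
# KR CB5: a curve of poles

Proof of `exists_pole_curve` (`A / B` with `B (0, ·) ≠ 0`, no extension at `0`; `U` a neighbourhood of `0`).
Let `r > 0` with `ball 0 r ⊆ U` and `A, B` analytic on `ball 0 r`; `0 < ρ < r` with `B (0, y) ≠ 0` for `0 < |y| ≤ ρ`;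
`0 < δ < r` with `B (x, y) ≠ 0` for `|x| < δ, |y| = ρ` (compactness).  For `|x| < δ` the function `B (x, ·)` is analytic
on `|y| < r`, not `0` on the circle `|y| = ρ`, so it does not vanish identically near any `y`, `|y| < r`.
Let `Bad = {(x, y) | |x| < δ, |y| < ρ, ¬ LD A B x y}` and for `(x, y) ∈ Bad` let `k (x, y)` be the order of
`exists_order`.  `Bad` is not empty: otherwise `extend_of_slices` with `ρ₀ = ρ` applies.  Let `k` be the minimum of the
orders over `Bad`, attained at `(x₁, y₁)`: `dy^[i] B (x₁, y₁) = 0` for `i < k`, `dy^[k] B (x₁, y₁) ≠ 0`, and for every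
`(x, y) ∈ Bad`: `dy^[i] B (x, y) = 0` for all `i < k`.  `k ≥ 1`: if `k = 0` then `ld_of_vanish` with `k = 0` says
`LD A B x₁ y₁`.
Let `G = dy^[k-1] B`, `G (x₁, y₁) = 0`, `dy G (x₁, y₁) = dy^[k] B (x₁, y₁) ≠ 0`: `exists_implicit` gives `c₁`.
Put `c x = c₁ (x₁ + x)`.
Claim: for `x` near `0`, `x ≠ 0`: `(x₁ + x, c x) ∈ Bad`.  The pair `A (x₁ + ·, y₁ + ·), B (x₁ + ·, y₁ + ·)` has no
extension at `0` (otherwise `LD A B x₁ y₁`, `q z = Φ (0, z - y₁)`), so by `extend_of_slices` (contrapositive) for every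
`ρ' > 0` and all `x ≠ 0` near `0` there is `y` with `|y - y₁| < ρ'` and `¬ LD A B (x₁ + x) y` (translate `LD`).  With
`ρ'` and `x` so small that `|x₁ + x| < δ`, `|y| < ρ` and that the point is in the neighbourhood of `exists_implicit`:
`(x₁ + x, y) ∈ Bad`, `G (x₁ + x, y) = 0`, `y = c₁ (x₁ + x) = c x`.
The conclusions: `(x₁, c 0) = (x₁, y₁) ∈ U`; for `i < k`: `dy^[i] B (x₁ + x, c x) = 0` for `x ≠ 0` near `0` (and for
`x = 0`); `dy^[k] B (x₁, c 0) ≠ 0`; if for all `i < k` `dy^[i] A (x₁ + x, c x) = 0` for `x` near `0`, then take one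
`x ≠ 0` near `0` for which all hold and `dy^[k] B (x₁ + x, c x) ≠ 0`: `ld_of_vanish` contradicts `Bad`.

Proof of `exists_curve`.  `m` from `exists_direction`.  `A' (x, y) = A (x + m y, y)`, `B'` similarly; no extension
`Φ'` at `0` (otherwise `Φ (x, y) = Φ' (x - m y, y)`).  Apply `exists_pole_curve` to `A', B'` and the preimage of `U`.
For `θ = shear m x₁ c` and `f' (x, y) = f (x + m y, y)`: `f (θ u) = f' (x₁ + u.1, c u.1 + u.2)`, and for `x` near `0`
`dy^[i] (f ∘ θ) (x, 0) = (dy^[i] f') (x₁ + x, c x)` (`iterate_dy_slice` for both sides, `iteratedDeriv_comp_const_add`;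
the hypothesis of `iterate_dy_slice` holds at `(x, 0)` and `(x₁ + x, c x)` for `x` near `0`).
The `i`-th coefficient of `t2 (f ∘ θ)` is `C (1/i!) * t1 (fun x => dy^[i] (f ∘ θ) (x, 0))`, `0` iff the function is `0`
near `0` (`t1_congr`, `t1_eq_zero_iff`).  So `t2 (B ∘ θ)` has order `k` and `t2 (A ∘ θ)` has a non-zero coefficient of
index `< k` (`PowerSeries.order_eq_nat`, `PowerSeries.order_le`).
-/

set_option autoImplicit false

open Topology Filter Metric

noncomputable section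

namespace Pool.Agent.H68.KR

theorem analyticAt_shift (x₁ y₁ : ℂ) (p : ℂ × ℂ) :
    AnalyticAt ℂ (fun u : ℂ × ℂ => ((x₁ + u.1, y₁ + u.2) : ℂ × ℂ)) p :=
  AnalyticAt.prod (analyticAt_const.add analyticAt_fst) (analyticAt_const.add analyticAt_snd)

theorem ld_shift_of {A B : ℂ × ℂ → ℂ} {x₁ y₁ x y : ℂ}
    (h : LD A B (x₁ + x) (y₁ + y)) :
    LD (fun u => A (x₁ + u.1, y₁ + u.2)) (fun u => B (x₁ + u.1, y₁ + u.2)) x y := by
  obtain ⟨q, hq, he⟩ := h
  refine ⟨fun z => q (y₁ + z), ?_, ?_⟩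
  · have h1 : AnalyticAt ℂ q ((fun z => y₁ + z) y) := hq
    exact AnalyticAt.fun_comp h1 (by fun_prop)
  · have hc : ContinuousAt (fun z : ℂ => y₁ + z) y := by fun_prop
    have ht : Tendsto (fun z : ℂ => y₁ + z) (𝓝 y) (𝓝 (y₁ + y)) := hc
    filter_upwards [ht.eventually he] with z hz
    simpa using hz

theorem ld_of_ext {A B Φ : ℂ × ℂ → ℂ} {x₁ y₁ : ℂ} (hΦ : AnalyticAt ℂ Φ 0)
    (h : ∀ᶠ u in 𝓝 (0 : ℂ × ℂ), A (x₁ + u.1, y₁ + u.2) = B (x₁ + u.1, y₁ + u.2) * Φ u) :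
    LD A B x₁ y₁ := by
  refine ⟨fun z => Φ (0, z - y₁), ?_, ?_⟩
  · have h1 : AnalyticAt ℂ Φ ((fun z : ℂ => ((0 : ℂ), z - y₁)) y₁) := by
      simpa [Prod.zero_eq_mk] using hΦ
    exact AnalyticAt.fun_comp h1 (by fun_prop)
  · have hc : ContinuousAt (fun z : ℂ => ((0 : ℂ), z - y₁)) y₁ := by fun_prop
    have ht : Tendsto (fun z : ℂ => ((0 : ℂ), z - y₁)) (𝓝 y₁) (𝓝 0) := by
      have h2 := hc.tendsto
      simpa [Prod.zero_eq_mk] using h2
    filter_upwards [ht.eventually h] with z hz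
    simpa using hz

theorem eventually_of_punctured {P : ℂ → Prop} (h : ∀ᶠ x in 𝓝[≠] (0 : ℂ), P x) (h0 : P 0) :
    ∀ᶠ x in 𝓝 (0 : ℂ), P x := by
  rw [eventually_nhdsWithin_iff] at h
  filter_upwards [h] with x hx
  by_cases hx0 : x = 0
  · rw [hx0]; exact h0
  · exact hx hx0

/-- The point of minimal order and the implicit function. -/
theorem exists_min {A B : ℂ × ℂ → ℂ} (hA : AnalyticAt ℂ A 0) (hB : AnalyticAt ℂ B 0)
    (hB0 : ¬ ∀ᶠ y in 𝓝 (0 : ℂ), B (0, y) = 0)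
    (hne : ¬ ∃ Φ : ℂ × ℂ → ℂ, AnalyticAt ℂ Φ 0 ∧ ∀ᶠ u in 𝓝 (0 : ℂ × ℂ), A u = B u * Φ u)
    {U : Set (ℂ × ℂ)} (hU : U ∈ 𝓝 (0 : ℂ × ℂ)) :
    ∃ (V : Set (ℂ × ℂ)) (k : ℕ) (x₁ y₁ : ℂ), IsOpen V ∧ ((x₁, y₁) : ℂ × ℂ) ∈ V ∧
      (∀ u ∈ V, AnalyticAt ℂ A u ∧ AnalyticAt ℂ B u ∧ u ∈ U) ∧
      (∀ x y : ℂ, (x, y) ∈ V → ¬ LD A B x y → ∀ i < k, (dy^[i] B) (x, y) = 0) ∧
      ¬ LD A B x₁ y₁ ∧ (dy^[k] B) (x₁, y₁) ≠ 0 ∧ 0 < k ∧
      ¬ ∀ᶠ z in 𝓝 y₁, B (x₁, z) = 0 := by
  obtain ⟨r, hr0, hr⟩ : ∃ r > 0, ∀ u ∈ ball (0 : ℂ × ℂ) r, AnalyticAt ℂ A u ∧ AnalyticAt ℂ B u ∧ u ∈ U := by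
    have h := (hA.eventually_analyticAt.and hB.eventually_analyticAt).and hU
    obtain ⟨r, hr0, hr⟩ := Metric.eventually_nhds_iff_ball.1 h
    exact ⟨r, hr0, fun u hu => ⟨(hr u hu).1.1, (hr u hu).1.2, (hr u hu).2⟩⟩
  have hrr : ∀ x y : ℂ, ‖x‖ < r → ‖y‖ < r → ((x, y) : ℂ × ℂ) ∈ ball (0 : ℂ × ℂ) r := by
    intro x y hx hy
    rw [mem_ball_zero_iff, Prod.norm_def]
    exact max_lt hx hy
  have hb0 : AnalyticAt ℂ (fun y : ℂ => B (0, y)) 0 := by
    have h1 : AnalyticAt ℂ B ((fun y : ℂ => ((0 : ℂ), y)) 0) := by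
      simpa [Prod.zero_eq_mk] using hB
    exact AnalyticAt.fun_comp h1 (by fun_prop)
  obtain ⟨ε, hε0, hε⟩ : ∃ ε > 0, ∀ y : ℂ, ‖y‖ < ε → y ≠ 0 → B (0, y) ≠ 0 := by
    rcases hb0.eventually_eq_zero_or_eventually_ne_zero with h | h
    · exact absurd h hB0
    · rw [eventually_nhdsWithin_iff, Metric.eventually_nhds_iff_ball] at h
      obtain ⟨ε, hε0, hε⟩ := h
      exact ⟨ε, hε0, fun y hy hy0 => hε y (mem_ball_zero_iff.2 hy) hy0⟩
  set ρ : ℝ := min ε r / 2 with hρdef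
  have hm0 : 0 < min ε r := lt_min hε0 hr0
  have hρ0 : 0 < ρ := by positivity
  have hρε : ρ < ε := lt_of_lt_of_le (by rw [hρdef]; linarith) (min_le_left ε r)
  have hρr : ρ < r := lt_of_lt_of_le (by rw [hρdef]; linarith) (min_le_right ε r)
  obtain ⟨δ₀, hδ0, hδ⟩ : ∃ δ₀ > 0, ∀ x : ℂ, ‖x‖ < δ₀ → ∀ y ∈ sphere (0 : ℂ) ρ, B (x, y) ≠ 0 := by
    have h := (isCompact_sphere (0 : ℂ) ρ).eventually_forall_of_forall_eventually
      (x₀ := (0 : ℂ)) (P := fun x y => B (x, y) ≠ 0) (by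
        intro y hy
        have hy' : ‖y‖ = ρ := by simpa using hy
        have hne0 : y ≠ 0 := by
          rintro rfl
          rw [norm_zero] at hy'
          linarith
        have h1 : B (0, y) ≠ 0 := hε y (by rw [hy']; exact hρε) hne0
        have h2 : AnalyticAt ℂ B (0, y) := (hr _ (hrr 0 y (by simpa using hr0) (by rw [hy']; exact hρr))).2.1
        have h3 : ∀ᶠ z in 𝓝 ((0, y) : ℂ × ℂ), B z ≠ 0 := h2.continuousAt.eventually_ne h1
        filter_upwards [h3] with z hz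
        exact hz)
    rw [Metric.eventually_nhds_iff_ball] at h
    obtain ⟨δ₀, hδ0, hδ⟩ := h
    exact ⟨δ₀, hδ0, fun x hx => hδ x (mem_ball_zero_iff.2 hx)⟩
  set δ : ℝ := min δ₀ r with hδdef
  have hδp : 0 < δ := lt_min hδ0 hr0
  have hδr : δ ≤ r := min_le_right _ _
  have hδδ : δ ≤ δ₀ := min_le_left _ _
  have hnz : ∀ x y : ℂ, ‖x‖ < δ → ‖y‖ < r → ¬ ∀ᶠ z in 𝓝 y, B (x, z) = 0 := by
    intro x y hx hy h
    have han : AnalyticOnNhd ℂ (fun z : ℂ => B (x, z)) (ball (0 : ℂ) r) := by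
      intro z hz
      have h1 : AnalyticAt ℂ B ((fun z : ℂ => (x, z)) z) :=
        (hr _ (hrr x z (lt_of_lt_of_le hx hδr) (mem_ball_zero_iff.1 hz))).2.1
      exact AnalyticAt.fun_comp h1 (by fun_prop)
    have h2 := han.eqOn_zero_of_preconnected_of_eventuallyEq_zero
      (convex_ball (0 : ℂ) r).isPreconnected (mem_ball_zero_iff.2 hy) h
    have hρn : ‖(ρ : ℂ)‖ = ρ := by
      rw [Complex.norm_real, Real.norm_of_nonneg hρ0.le]
    have h3 := h2 (x := (ρ : ℂ)) (mem_ball_zero_iff.2 (by rw [hρn]; exact hρr))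
    exact hδ x (lt_of_lt_of_le hx hδδ) (ρ : ℂ) (by simp [hρ0.le]) h3
  have hex : ∃ x y : ℂ, ‖x‖ < δ ∧ ‖y‖ < ρ ∧ ¬ LD A B x y := by
    by_contra hcon
    push Not at hcon
    apply hne
    apply extend_of_slices hA hB hB0 hρ0
    apply Eventually.frequently
    rw [eventually_nhdsWithin_iff, Metric.eventually_nhds_iff_ball]
    exact ⟨δ, hδp, fun x hx _ y hy => hcon x y (mem_ball_zero_iff.1 hx) (mem_ball_zero_iff.1 hy)⟩
  have hord : ∀ x y : ℂ, ‖x‖ < δ → ‖y‖ < ρ →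
      ∃ k : ℕ, (∀ i < k, (dy^[i] B) (x, y) = 0) ∧ (dy^[k] B) (x, y) ≠ 0 := by
    intro x y hx hy
    exact exists_order (hr _ (hrr x y (lt_of_lt_of_le hx hδr) (hy.trans hρr))).2.1
      (hnz x y hx (hy.trans hρr))
  have hK : ∃ k : ℕ, ∃ x y : ℂ, ‖x‖ < δ ∧ ‖y‖ < ρ ∧ ¬ LD A B x y ∧
      (∀ i < k, (dy^[i] B) (x, y) = 0) ∧ (dy^[k] B) (x, y) ≠ 0 := by
    obtain ⟨x, y, hx, hy, hL⟩ := hex
    obtain ⟨k, hk⟩ := hord x y hx hy
    exact ⟨k, x, y, hx, hy, hL, hk⟩
  classical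
  set k := Nat.find hK with hkdef
  obtain ⟨x₁, y₁, hx₁, hy₁, hL₁, hk1, hk2⟩ := Nat.find_spec hK
  rw [← hkdef] at hk1 hk2
  have hmin : ∀ x y : ℂ, ‖x‖ < δ → ‖y‖ < ρ → ¬ LD A B x y → ∀ i < k, (dy^[i] B) (x, y) = 0 := by
    intro x y hx hy hL i hi
    obtain ⟨j, hj1, hj2⟩ := hord x y hx hy
    have hkj : k ≤ j := Nat.find_min' hK ⟨x, y, hx, hy, hL, hj1, hj2⟩
    exact hj1 i (lt_of_lt_of_le hi hkj)
  have hpt := hr _ (hrr x₁ y₁ (lt_of_lt_of_le hx₁ hδr) (hy₁.trans hρr))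
  refine ⟨ball (0 : ℂ) δ ×ˢ ball (0 : ℂ) ρ, k, x₁, y₁, isOpen_ball.prod isOpen_ball, ?_, ?_, ?_,
    hL₁, hk2, ?_, hnz x₁ y₁ hx₁ (hy₁.trans hρr)⟩
  · exact ⟨mem_ball_zero_iff.2 hx₁, mem_ball_zero_iff.2 hy₁⟩
  · intro u hu
    exact hr _ (hrr u.1 u.2 (lt_of_lt_of_le (mem_ball_zero_iff.1 hu.1) hδr)
      ((mem_ball_zero_iff.1 hu.2).trans hρr))
  · intro x y hxy hL
    exact hmin x y (mem_ball_zero_iff.1 hxy.1) (mem_ball_zero_iff.1 hxy.2) hL
  · by_contra h0
    have hk0 : k = 0 := by omega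
    apply hL₁
    apply ld_of_vanish hpt.1 hpt.2.1 (k := k)
    · intro i hi
      omega
    · exact hk1
    · exact hk2

theorem exists_pole_curve {A B : ℂ × ℂ → ℂ} (hA : AnalyticAt ℂ A 0) (hB : AnalyticAt ℂ B 0)
    (hB0 : ¬ ∀ᶠ y in 𝓝 (0 : ℂ), B (0, y) = 0)
    (hne : ¬ ∃ Φ : ℂ × ℂ → ℂ, AnalyticAt ℂ Φ 0 ∧ ∀ᶠ u in 𝓝 (0 : ℂ × ℂ), A u = B u * Φ u)
    {U : Set (ℂ × ℂ)} (hU : U ∈ 𝓝 (0 : ℂ × ℂ)) :
    ∃ (x₁ : ℂ) (c : ℂ → ℂ) (k : ℕ), AnalyticAt ℂ c 0 ∧ ((x₁, c 0) : ℂ × ℂ) ∈ U ∧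
      AnalyticAt ℂ A (x₁, c 0) ∧ AnalyticAt ℂ B (x₁, c 0) ∧
      (∀ i < k, ∀ᶠ x in 𝓝 (0 : ℂ), (dy^[i] B) (x₁ + x, c x) = 0) ∧ (dy^[k] B) (x₁, c 0) ≠ 0 ∧
      ∃ i < k, ¬ ∀ᶠ x in 𝓝 (0 : ℂ), (dy^[i] A) (x₁ + x, c x) = 0 := by
  obtain ⟨V, k, x₁, y₁, hVo, hV1, hV, hmin, hL₁, hk2, hk0, hnz⟩ := exists_min hA hB hB0 hne hU
  obtain ⟨n, rfl⟩ : ∃ n, k = n + 1 := ⟨k - 1, by omega⟩
  have hA1 : AnalyticAt ℂ A (x₁, y₁) := (hV _ hV1).1
  have hB1 : AnalyticAt ℂ B (x₁, y₁) := (hV _ hV1).2.1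
  have hG : AnalyticAt ℂ (dy^[n] B) (x₁, y₁) := analyticAt_iterate_dy hB1 n
  have hk1 := hmin x₁ y₁ hV1 hL₁
  have hG1 : dy (dy^[n] B) (x₁, y₁) ≠ 0 := by
    rw [Function.iterate_succ_apply'] at hk2
    exact hk2
  obtain ⟨c₁, hc₁, hc₁0, hc₁e⟩ := exists_implicit hG (hk1 n (Nat.lt_succ_self n)) hG1
  have hc : AnalyticAt ℂ (fun x : ℂ => c₁ (x₁ + x)) 0 := by
    have h1 : AnalyticAt ℂ c₁ ((fun x : ℂ => x₁ + x) 0) := by simpa using hc₁
    exact AnalyticAt.fun_comp h1 (by fun_prop)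
  have hc0 : (fun x : ℂ => c₁ (x₁ + x)) 0 = y₁ := by simpa using hc₁0
  have hA2 : AnalyticAt ℂ (fun u : ℂ × ℂ => A (x₁ + u.1, y₁ + u.2)) 0 := by
    have h1 : AnalyticAt ℂ A ((fun u : ℂ × ℂ => (x₁ + u.1, y₁ + u.2)) 0) := by simpa using hA1
    exact AnalyticAt.fun_comp h1 (analyticAt_shift x₁ y₁ 0)
  have hB2 : AnalyticAt ℂ (fun u : ℂ × ℂ => B (x₁ + u.1, y₁ + u.2)) 0 := by
    have h1 : AnalyticAt ℂ B ((fun u : ℂ × ℂ => (x₁ + u.1, y₁ + u.2)) 0) := by simpa using hB1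
    exact AnalyticAt.fun_comp h1 (analyticAt_shift x₁ y₁ 0)
  have hB3 : ¬ ∀ᶠ y in 𝓝 (0 : ℂ), (fun u : ℂ × ℂ => B (x₁ + u.1, y₁ + u.2)) (0, y) = 0 := by
    intro h
    apply hnz
    have hcs : ContinuousAt (fun z : ℂ => z - y₁) y₁ := by fun_prop
    have ht : Tendsto (fun z : ℂ => z - y₁) (𝓝 y₁) (𝓝 0) := by
      have h2 := hcs.tendsto
      simpa using h2
    filter_upwards [ht.eventually h] with z hz
    simpa using hz
  have hne2 : ¬ ∃ Φ : ℂ × ℂ → ℂ, AnalyticAt ℂ Φ 0 ∧ ∀ᶠ u in 𝓝 (0 : ℂ × ℂ),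
      (fun u : ℂ × ℂ => A (x₁ + u.1, y₁ + u.2)) u = (fun u : ℂ × ℂ => B (x₁ + u.1, y₁ + u.2)) u * Φ u := by
    rintro ⟨Φ, hΦ, he⟩
    exact hL₁ (ld_of_ext hΦ he)
  obtain ⟨ε, hε0, hε⟩ : ∃ ε > 0, ∀ u ∈ ball ((x₁, y₁) : ℂ × ℂ) ε,
      u ∈ V ∧ ((dy^[n] B) u = 0 → u.2 = c₁ u.1) := by
    have h := (hVo.mem_nhds hV1 : V ∈ 𝓝 ((x₁, y₁) : ℂ × ℂ))
    have h2 : ∀ᶠ u in 𝓝 ((x₁, y₁) : ℂ × ℂ), u ∈ V ∧ ((dy^[n] B) u = 0 → u.2 = c₁ u.1) :=
      Filter.Eventually.and h hc₁e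
    exact Metric.eventually_nhds_iff_ball.1 h2
  have hbad : ∀ᶠ x in 𝓝[≠] (0 : ℂ), ((x₁ + x, c₁ (x₁ + x)) : ℂ × ℂ) ∈ V ∧
      ¬ LD A B (x₁ + x) (c₁ (x₁ + x)) := by
    have h1 : ¬ ∃ᶠ x in 𝓝[≠] (0 : ℂ), ∀ y ∈ ball (0 : ℂ) ε,
        LD (fun u : ℂ × ℂ => A (x₁ + u.1, y₁ + u.2)) (fun u : ℂ × ℂ => B (x₁ + u.1, y₁ + u.2)) x y := by
      intro h
      exact hne2 (extend_of_slices hA2 hB2 hB3 hε0 h)
    rw [Filter.not_frequently] at h1
    have h2 : ∀ᶠ x in 𝓝[≠] (0 : ℂ), x ∈ ball (0 : ℂ) ε :=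
      mem_nhdsWithin_of_mem_nhds (ball_mem_nhds 0 hε0)
    filter_upwards [h1, h2] with x hx hxε
    push Not at hx
    obtain ⟨y, hy, hLy⟩ := hx
    have hmem : ((x₁ + x, y₁ + y) : ℂ × ℂ) ∈ ball ((x₁, y₁) : ℂ × ℂ) ε := by
      rw [mem_ball, Prod.dist_eq]
      simp only [dist_eq_norm, add_sub_cancel_left]
      exact max_lt (mem_ball_zero_iff.1 hxε) (mem_ball_zero_iff.1 hy)
    obtain ⟨hv, himp⟩ := hε _ hmem
    have hLD : ¬ LD A B (x₁ + x) (y₁ + y) := fun h => hLy (ld_shift_of h)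
    have hG0 := hmin _ _ hv hLD n (Nat.lt_succ_self n)
    have hy2 : y₁ + y = c₁ (x₁ + x) := himp hG0
    rw [← hy2]
    exact ⟨hv, hLD⟩
  refine ⟨x₁, fun x => c₁ (x₁ + x), n + 1, hc, ?_, ?_, ?_, ?_, ?_, ?_⟩
  · rw [hc0]; exact (hV _ hV1).2.2
  · rw [hc0]; exact hA1
  · rw [hc0]; exact hB1
  · intro i hi
    apply eventually_of_punctured
    · filter_upwards [hbad] with x hx
      exact hmin _ _ hx.1 hx.2 i hi
    · rw [add_zero, hc0]
      exact hk1 i hi
  · rw [hc0]; exact hk2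
  · by_contra hcon
    push Not at hcon
    have h1 : ∀ᶠ x in 𝓝 (0 : ℂ), ∀ i ∈ Finset.range (n + 1), (dy^[i] A) (x₁ + x, c₁ (x₁ + x)) = 0 := by
      rw [Filter.eventually_all_finset]
      intro i hi
      exact hcon i (Finset.mem_range.1 hi)
    have h2 : ∀ᶠ x in 𝓝 (0 : ℂ), (dy^[n + 1] B) (x₁ + x, c₁ (x₁ + x)) ≠ 0 := by
      have h3 : AnalyticAt ℂ (dy^[n + 1] B) ((fun x : ℂ => (x₁ + x, c₁ (x₁ + x))) 0) := by
        have h4 : ((fun x : ℂ => (x₁ + x, c₁ (x₁ + x))) 0 : ℂ × ℂ) = (x₁, y₁) := by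
          simp [hc₁0]
        rw [h4]
        exact analyticAt_iterate_dy hB1 (n + 1)
      have h5 : AnalyticAt ℂ (fun x : ℂ => ((x₁ + x, c₁ (x₁ + x)) : ℂ × ℂ)) 0 :=
        AnalyticAt.prod (by fun_prop) hc
      have h6 : AnalyticAt ℂ (fun x : ℂ => (dy^[n + 1] B) ((fun x : ℂ => (x₁ + x, c₁ (x₁ + x))) x)) 0 :=
        AnalyticAt.fun_comp (f := fun x : ℂ => ((x₁ + x, c₁ (x₁ + x)) : ℂ × ℂ)) h3 h5
      exact h6.continuousAt.eventually_ne (by simpa [hc₁0] using hk2)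
    have h3 : ∀ᶠ x in 𝓝[≠] (0 : ℂ), False := by
      filter_upwards [hbad, nhdsWithin_le_nhds h1, nhdsWithin_le_nhds h2] with x hx1 hx2 hx3
      apply hx1.2
      apply ld_of_vanish (hV _ hx1.1).1 (hV _ hx1.1).2.1 (k := n + 1)
      · intro i hi
        exact hx2 i (Finset.mem_range.2 hi)
      · intro i hi
        exact hmin _ _ hx1.1 hx1.2 i hi
      · exact hx3
    simpa using h3.exists

/-- The coordinate change `(x, y) ↦ (x₁ + x + m (c x + y), c x + y)`. -/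
def shear (m x₁ : ℂ) (c : ℂ → ℂ) (u : ℂ × ℂ) : ℂ × ℂ :=
  (x₁ + u.1 + m * (c u.1 + u.2), c u.1 + u.2)

theorem iterate_dy_shift {f : ℂ × ℂ → ℂ} {c : ℂ → ℂ} {x₁ : ℂ} (hc : AnalyticAt ℂ c 0)
    (hf : AnalyticAt ℂ f (x₁, c 0)) (i : ℕ) :
    AnalyticAt ℂ (fun u : ℂ × ℂ => f (x₁ + u.1, c u.1 + u.2)) 0 ∧
    ∀ᶠ x in 𝓝 (0 : ℂ), (dy^[i] fun u : ℂ × ℂ => f (x₁ + u.1, c u.1 + u.2)) (x, 0) =
      (dy^[i] f) (x₁ + x, c x) := by
  have hσ : AnalyticAt ℂ (fun u : ℂ × ℂ => ((x₁ + u.1, c u.1 + u.2) : ℂ × ℂ)) 0 := by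
    have h1 : AnalyticAt ℂ (fun u : ℂ × ℂ => c u.1) 0 :=
      AnalyticAt.fun_comp (f := fun u : ℂ × ℂ => u.1) hc analyticAt_fst
    exact AnalyticAt.prod (analyticAt_const.add analyticAt_fst) (h1.add analyticAt_snd)
  have hfσ : AnalyticAt ℂ (fun u : ℂ × ℂ => f (x₁ + u.1, c u.1 + u.2)) 0 :=
    AnalyticAt.fun_comp (f := fun u : ℂ × ℂ => ((x₁ + u.1, c u.1 + u.2) : ℂ × ℂ))
      (by simpa using hf) hσ
  refine ⟨hfσ, ?_⟩
  have ht1 : Tendsto (fun x : ℂ => ((x, 0) : ℂ × ℂ)) (𝓝 0) (𝓝 0) := by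
    have h1 : ContinuousAt (fun x : ℂ => ((x, 0) : ℂ × ℂ)) 0 := by fun_prop
    simpa [Prod.zero_eq_mk] using h1.tendsto
  have ht2 : Tendsto (fun x : ℂ => ((x₁ + x, c x) : ℂ × ℂ)) (𝓝 0) (𝓝 (x₁, c 0)) := by
    have h0 : ContinuousAt c 0 := hc.continuousAt
    have h1 : ContinuousAt (fun x : ℂ => ((x₁ + x, c x) : ℂ × ℂ)) 0 := by fun_prop
    simpa using h1.tendsto
  filter_upwards [ht1.eventually hfσ.eventually_analyticAt, ht2.eventually hf.eventually_analyticAt]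
    with x hx1 hx2
  rw [iterate_dy_slice hx1 i, iterate_dy_slice hx2 i]
  have h3 := congrFun (iteratedDeriv_comp_const_add i (fun y : ℂ => f (x₁ + x, y)) (c x)) 0
  rw [add_zero] at h3
  exact h3

theorem coeff_t2_iff {g : ℂ × ℂ → ℂ} (hg : AnalyticAt ℂ g 0) (i : ℕ) :
    PowerSeries.coeff i (t2 g) = 0 ↔ ∀ᶠ x in 𝓝 (0 : ℂ), (dy^[i] g) (x, 0) = 0 := by
  have h1 : AnalyticAt ℂ (fun x : ℂ => (dy^[i] g) (x, 0)) 0 :=
    AnalyticAt.fun_comp (f := fun x : ℂ => ((x, 0) : ℂ × ℂ))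
      (by simpa [Prod.zero_eq_mk] using analyticAt_iterate_dy hg i)
      (AnalyticAt.prod analyticAt_id analyticAt_const)
  rw [← t1_eq_zero_iff h1, t2, PowerSeries.coeff_mk, mul_eq_zero]
  constructor
  · rintro (h | h)
    · exfalso
      have h2 := congrArg PowerSeries.constantCoeff h
      rw [PowerSeries.constantCoeff_C, map_zero, inv_eq_zero, Nat.cast_eq_zero] at h2
      exact Nat.factorial_ne_zero i h2
    · exact h
  · exact Or.inr

theorem coeff_shear_iff {f : ℂ × ℂ → ℂ} {c : ℂ → ℂ} (m x₁ : ℂ) (hc : AnalyticAt ℂ c 0)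
    (hf : AnalyticAt ℂ (fun u : ℂ × ℂ => f (u.1 + m * u.2, u.2)) (x₁, c 0)) (i : ℕ) :
    PowerSeries.coeff i (t2 fun u => f (shear m x₁ c u)) = 0 ↔
      ∀ᶠ x in 𝓝 (0 : ℂ), (dy^[i] fun u : ℂ × ℂ => f (u.1 + m * u.2, u.2)) (x₁ + x, c x) = 0 := by
  obtain ⟨h1, h2⟩ := iterate_dy_shift (f := fun u : ℂ × ℂ => f (u.1 + m * u.2, u.2)) hc hf i
  have h3 : (fun u => f (shear m x₁ c u)) = fun u : ℂ × ℂ =>
      (fun u : ℂ × ℂ => f (u.1 + m * u.2, u.2)) (x₁ + u.1, c u.1 + u.2) := rfl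
  rw [h3, coeff_t2_iff h1 i]
  exact Filter.eventually_congr (h2.mono fun x hx => by rw [hx])

/-- If `A / B` has no analytic extension at `0`, there are coordinates near a point close to `0` in which `B` is
divisible by a higher power of the second coordinate than `A`. -/
theorem exists_curve {A B : ℂ × ℂ → ℂ} (hA : AnalyticAt ℂ A 0) (hB : AnalyticAt ℂ B 0)
    (hB0 : ¬ ∀ᶠ u in 𝓝 (0 : ℂ × ℂ), B u = 0)
    (hne : ¬ ∃ Φ : ℂ × ℂ → ℂ, AnalyticAt ℂ Φ 0 ∧ ∀ᶠ u in 𝓝 (0 : ℂ × ℂ), A u = B u * Φ u)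
    {U : Set (ℂ × ℂ)} (hU : U ∈ 𝓝 (0 : ℂ × ℂ)) :
    ∃ (m x₁ : ℂ) (c : ℂ → ℂ) (j k : ℕ), AnalyticAt ℂ c 0 ∧ shear m x₁ c 0 ∈ U ∧
      (t2 fun u => A (shear m x₁ c u)).order = j ∧ (t2 fun u => B (shear m x₁ c u)).order = k ∧
      j < k := by
  obtain ⟨m, hm⟩ := exists_direction hB hB0
  have hτ : ∀ p : ℂ × ℂ, AnalyticAt ℂ (fun u : ℂ × ℂ => ((u.1 + m * u.2, u.2) : ℂ × ℂ)) p := fun p =>
    AnalyticAt.prod (analyticAt_fst.add (analyticAt_const.mul analyticAt_snd)) analyticAt_snd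
  have hτ' : ∀ p : ℂ × ℂ, AnalyticAt ℂ (fun u : ℂ × ℂ => ((u.1 - m * u.2, u.2) : ℂ × ℂ)) p := fun p =>
    AnalyticAt.prod (analyticAt_fst.sub (analyticAt_const.mul analyticAt_snd)) analyticAt_snd
  have hA' : AnalyticAt ℂ (fun u : ℂ × ℂ => A (u.1 + m * u.2, u.2)) 0 :=
    AnalyticAt.fun_comp (f := fun u : ℂ × ℂ => ((u.1 + m * u.2, u.2) : ℂ × ℂ))
      (by simpa [Prod.zero_eq_mk] using hA) (hτ 0)
  have hB' : AnalyticAt ℂ (fun u : ℂ × ℂ => B (u.1 + m * u.2, u.2)) 0 :=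
    AnalyticAt.fun_comp (f := fun u : ℂ × ℂ => ((u.1 + m * u.2, u.2) : ℂ × ℂ))
      (by simpa [Prod.zero_eq_mk] using hB) (hτ 0)
  have hB0' : ¬ ∀ᶠ y in 𝓝 (0 : ℂ), (fun u : ℂ × ℂ => B (u.1 + m * u.2, u.2)) (0, y) = 0 := by
    intro h
    apply hm
    filter_upwards [h] with y hy
    simpa using hy
  have hne' : ¬ ∃ Φ : ℂ × ℂ → ℂ, AnalyticAt ℂ Φ 0 ∧ ∀ᶠ u in 𝓝 (0 : ℂ × ℂ),
      (fun u : ℂ × ℂ => A (u.1 + m * u.2, u.2)) u = (fun u : ℂ × ℂ => B (u.1 + m * u.2, u.2)) u * Φ u := by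
    rintro ⟨Φ, hΦ, he⟩
    apply hne
    refine ⟨fun u => Φ (u.1 - m * u.2, u.2), ?_, ?_⟩
    · exact AnalyticAt.fun_comp (f := fun u : ℂ × ℂ => ((u.1 - m * u.2, u.2) : ℂ × ℂ))
        (by simpa [Prod.zero_eq_mk] using hΦ) (hτ' 0)
    · have ht : Tendsto (fun u : ℂ × ℂ => ((u.1 - m * u.2, u.2) : ℂ × ℂ)) (𝓝 0) (𝓝 0) := by
        have h2 := (hτ' 0).continuousAt.tendsto
        simpa [Prod.zero_eq_mk] using h2
      filter_upwards [ht.eventually he] with u hu
      simpa using hu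
  have hU' : (fun u : ℂ × ℂ => ((u.1 + m * u.2, u.2) : ℂ × ℂ)) ⁻¹' U ∈ 𝓝 (0 : ℂ × ℂ) := by
    apply (hτ 0).continuousAt.preimage_mem_nhds
    simpa [Prod.zero_eq_mk] using hU
  obtain ⟨x₁, c, k, hc, hmem, hA1, hB1, hv, hnv, i, hi, hiA⟩ := exists_pole_curve hA' hB' hB0' hne' hU'
  have hcoefA := coeff_shear_iff m x₁ hc hA1
  have hcoefB := coeff_shear_iff m x₁ hc hB1
  have hex : ∃ i, PowerSeries.coeff i (t2 fun u => A (shear m x₁ c u)) ≠ 0 :=
    ⟨i, fun h => hiA ((hcoefA i).1 h)⟩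
  classical
  refine ⟨m, x₁, c, Nat.find hex, k, hc, ?_, ?_, ?_, ?_⟩
  · have h : shear m x₁ c 0 = (x₁ + m * c 0, c 0) := by
      simp [shear]
    rw [h]
    exact hmem
  · rw [PowerSeries.order_eq_nat]
    refine ⟨Nat.find_spec hex, fun l hl => ?_⟩
    have := Nat.find_min hex hl
    push Not at this
    exact this
  · rw [PowerSeries.order_eq_nat]
    refine ⟨fun h => ?_, fun l hl => (hcoefB l).2 (hv l hl)⟩
    have h2 := ((hcoefB k).1 h).self_of_nhds
    rw [add_zero] at h2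
    exact hnv h2
  · exact lt_of_le_of_lt (Nat.find_min' hex fun h => hiA ((hcoefA i).1 h)) hi

end Pool.Agent.H68.KR

end
end

section

/-!
# KR EM: the embedding of the function field given by an analytic map into the cone

Proof of `exists_embedding`.  Let `y i = emb (t2 (φ · i))`.  For every polynomial `Q`:
`eval₂ cst y Q = emb (t2 (fun u => eval (φ u) Q))` (`t2_eval`, `MvPolynomial.hom_eval₂`,
`emb.comp (C.comp C) = cst` by `emb_C_C`).  So for homogeneous `Q`: `eval₂ cst y Q = 0 ↔ Q ∈ P` by `hmem`, `hnd`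
(`emb_injective`, `t2_eq_zero_iff`, `analyticAt_eval`).  `exists_eval` gives `E` with `E (ratio i j) = y i / y j`.
Third statement: choose `l` with `X l ∉ P` (`exists_point`: some `x i ≠ 0`), then `y l ≠ 0`, and use `eval_hom_rep`.
Fourth statement: `y (s 0) ≠ 0`.  For an additive map `D` of the field `LL` with the Leibniz rule:
`D (a / b) = (D a * b - a * D b) / b ^ 2` for `b ≠ 0` (from `a = (a / b) * b`).  So the left hand side is
`(1 / y₀^4) ((DX y₁ y₀ - y₁ DX y₀) (DT y₂ y₀ - y₂ DT y₀) - (DX y₂ y₀ - y₂ DX y₀) (DT y₁ y₀ - y₁ DT y₀))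
  = D3 s y (DX ∘ y) (DT ∘ y) / y₀ ^ 3` (`field_simp; ring`),
and `DX (y i) = emb (pX (t2 (φ · i))) = emb (t2 (dx (φ · i))) = emb (t2 (d1 φ · i))` (`DX_emb`, `t2_dx`, `d1_apply`,
`t2_congr`), similarly `DT`; finally `D3 s y … = emb (t2 (D3 s φ (d1 φ) (d2 φ)))` by `t2_mul`, `t2_add` (and the
consequence `t2_sub`, e.g. from `t2_add`, `t2_mul`, `t2_const (-1)`).
-/

set_option autoImplicit false

open MvPolynomial Topology Filter
open Pool.Agent.H17LG.Variety (FunField ratio)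

noncomputable section

namespace Pool.Agent.H68.KR

private theorem EM_div {F : Type} [Field F] {D : F → F} (hD : ∀ a b, D (a * b) = a * D b + b * D a) (a b : F)
    (hb : b ≠ 0) : D (a / b) = (D a * b - a * D b) / b ^ 2 := by
  have h1 : D a = D (a / b * b) := by rw [div_mul_cancel₀ a hb]
  rw [hD] at h1
  rw [h1, eq_div_iff (pow_ne_zero 2 hb)]
  field_simp
  ring

private theorem EM_jac {F : Type} [Field F] {D D' : F → F} (hD : ∀ a b, D (a * b) = a * D b + b * D a)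
    (hD' : ∀ a b, D' (a * b) = a * D' b + b * D' a) (a b c : F) (ha : a ≠ 0) :
    D (b / a) * D' (c / a) - D (c / a) * D' (b / a) =
      (a * (D b * D' c - D c * D' b) - b * (D a * D' c - D c * D' a) + c * (D a * D' b - D b * D' a)) /
        a ^ 3 := by
  rw [EM_div hD _ _ ha, EM_div hD _ _ ha, EM_div hD' _ _ ha, EM_div hD' _ _ ha]
  field_simp
  ring

private theorem EM_sub {f g : ℂ × ℂ → ℂ} (hf : AnalyticAt ℂ f 0) (hg : AnalyticAt ℂ g 0) :
    t2 (fun u => f u - g u) = t2 f - t2 g := by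
  have h1 : t2 (fun u => (-1 : ℂ) * g u) = - t2 g := by
    rw [t2_mul analyticAt_const hg, t2_const]
    simp
  have h2 := t2_add hf (g := fun u => (-1 : ℂ) * g u) (analyticAt_const.mul hg)
  rw [h1] at h2
  rw [sub_eq_add_neg, ← h2]
  congr 1
  funext u
  ring

private theorem EM_comp {n : ℕ} {ψ : ℂ × ℂ → Fin n → ℂ} (h : AnalyticAt ℂ ψ 0) (i : Fin n) :
    AnalyticAt ℂ (fun u => ψ u i) 0 :=
  (analyticAt_pi_iff.1 h) i

private theorem EM_DX {n : ℕ} {φ : ℂ × ℂ → Fin (n + 1) → ℂ} (hφ : AnalyticAt ℂ φ 0) (i : Fin (n + 1)) :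
    DX (emb (t2 fun u => φ u i)) = emb (t2 fun u => d1 φ u i) := by
  rw [DX_emb, t2_dx (EM_comp hφ i)]
  congr 1
  refine t2_congr ?_
  filter_upwards [hφ.eventually_analyticAt] with u hu
  exact (d1_apply hu i).symm

private theorem EM_DT {n : ℕ} {φ : ℂ × ℂ → Fin (n + 1) → ℂ} (hφ : AnalyticAt ℂ φ 0) (i : Fin (n + 1)) :
    DT (emb (t2 fun u => φ u i)) = emb (t2 fun u => d2 φ u i) := by
  rw [DT_emb, t2_dy (EM_comp hφ i)]
  congr 1
  refine t2_congr ?_
  filter_upwards [hφ.eventually_analyticAt] with u hu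
  exact (d2_apply hu i).symm

private theorem EM_D3 {n : ℕ} {φ ψ χ : ℂ × ℂ → Fin (n + 1) → ℂ} (hφ : AnalyticAt ℂ φ 0)
    (hψ : AnalyticAt ℂ ψ 0) (hχ : AnalyticAt ℂ χ 0) (s : Fin 3 → Fin (n + 1)) :
    emb (t2 fun u => D3 s (φ u) (ψ u) (χ u)) =
      D3 s (fun i => emb (t2 fun u => φ u i)) (fun i => emb (t2 fun u => ψ u i))
        (fun i => emb (t2 fun u => χ u i)) := by
  have hm : ∀ i j, AnalyticAt ℂ (fun u => ψ u i * χ u j) 0 := fun i j =>
    (EM_comp hψ i).mul (EM_comp hχ j)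
  have hd : ∀ i j, AnalyticAt ℂ (fun u => ψ u i * χ u j - ψ u j * χ u i) 0 := fun i j =>
    (hm i j).sub (hm j i)
  have ht : ∀ k i j, AnalyticAt ℂ (fun u => φ u k * (ψ u i * χ u j - ψ u j * χ u i)) 0 := fun k i j =>
    (EM_comp hφ k).mul (hd i j)
  have h1 : ∀ i j, emb (t2 fun u => ψ u i * χ u j - ψ u j * χ u i) =
      emb (t2 fun u => ψ u i) * emb (t2 fun u => χ u j) -
        emb (t2 fun u => ψ u j) * emb (t2 fun u => χ u i) := by
    intro i j
    rw [EM_sub (hm i j) (hm j i), t2_mul (EM_comp hψ i) (EM_comp hχ j),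
      t2_mul (EM_comp hψ j) (EM_comp hχ i), map_sub, map_mul, map_mul]
  have h2 : ∀ k i j, emb (t2 fun u => φ u k * (ψ u i * χ u j - ψ u j * χ u i)) =
      emb (t2 fun u => φ u k) * (emb (t2 fun u => ψ u i) * emb (t2 fun u => χ u j) -
        emb (t2 fun u => ψ u j) * emb (t2 fun u => χ u i)) := by
    intro k i j
    rw [t2_mul (EM_comp hφ k) (hd i j), map_mul, h1]
  have h3 : (fun u => D3 s (φ u) (ψ u) (χ u)) = fun u =>
      (φ u (s 0) * (ψ u (s 1) * χ u (s 2) - ψ u (s 2) * χ u (s 1)) -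
        φ u (s 1) * (ψ u (s 0) * χ u (s 2) - ψ u (s 2) * χ u (s 0))) +
      φ u (s 2) * (ψ u (s 0) * χ u (s 1) - ψ u (s 1) * χ u (s 0)) := rfl
  have h4 : t2 (fun u => D3 s (φ u) (ψ u) (χ u)) =
      t2 (fun u => φ u (s 0) * (ψ u (s 1) * χ u (s 2) - ψ u (s 2) * χ u (s 1))) -
        t2 (fun u => φ u (s 1) * (ψ u (s 0) * χ u (s 2) - ψ u (s 2) * χ u (s 0))) +
      t2 (fun u => φ u (s 2) * (ψ u (s 0) * χ u (s 1) - ψ u (s 1) * χ u (s 0))) := by
    rw [h3, ← EM_sub (ht (s 0) (s 1) (s 2)) (ht (s 1) (s 0) (s 2))]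
    exact t2_add ((ht (s 0) (s 1) (s 2)).sub (ht (s 1) (s 0) (s 2))) (ht (s 2) (s 0) (s 1))
  rw [h4, map_add, map_sub, h2, h2, h2]
  rfl

theorem exists_embedding {N : ℕ} (P : Ideal (MvPolynomial (Fin (N + 1)) ℂ)) [P.IsPrime] {k : ℕ}
    (z : Fin (k + 1) → FunField P) (hz : IsTranscendenceBasis ℂ z) {φ : ℂ × ℂ → Fin (N + 1) → ℂ}
    (hφ : AnalyticAt ℂ φ 0) (hmem : ∀ᶠ u in 𝓝 (0 : ℂ × ℂ), ∀ Q ∈ P, eval (φ u) Q = 0)
    (hnd : ∀ (d : ℕ) (Q : MvPolynomial (Fin (N + 1)) ℂ), Q.IsHomogeneous d → Q ∉ P →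
      ¬ ∀ᶠ u in 𝓝 (0 : ℂ × ℂ), eval (φ u) Q = 0) :
    ∃ E : FunField P →+* LL, (∀ c : ℂ, E (algebraMap ℂ (FunField P) c) = cst c) ∧
      (∀ i j, E (ratio P i j) = emb (t2 fun u => φ u i) / emb (t2 fun u => φ u j)) ∧
      (∀ (d : ℕ) (A B : MvPolynomial (Fin (N + 1)) ℂ) (f : FunField P), A.IsHomogeneous d →
        B.IsHomogeneous d →
        (∀ l, X l ∉ P → f * aeval (fun i => ratio P i l) B = aeval (fun i => ratio P i l) A) →
        E f * emb (t2 fun u => eval (φ u) B) = emb (t2 fun u => eval (φ u) A)) ∧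
      ∀ s : Fin 3 → Fin (N + 1), X (s 0) ∉ P →
        DX (E (ratio P (s 1) (s 0))) * DT (E (ratio P (s 2) (s 0))) -
            DX (E (ratio P (s 2) (s 0))) * DT (E (ratio P (s 1) (s 0))) =
          emb (t2 fun u => D3 s (φ u) (d1 φ u) (d2 φ u)) / emb (t2 fun u => φ u (s 0)) ^ 3 := by
  classical
  set y : Fin (N + 1) → LL := fun i => emb (t2 fun u => φ u i) with hy0
  have key : ∀ Q : MvPolynomial (Fin (N + 1)) ℂ,
      eval₂ cst y Q = emb (t2 fun u => eval (φ u) Q) := by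
    intro Q
    have h1 := MvPolynomial.hom_eval₂ (S₂ := LL) Q ((PowerSeries.C : PowerSeries ℂ →+* PowerSeries (PowerSeries ℂ)).comp
        (PowerSeries.C : ℂ →+* PowerSeries ℂ)) emb (fun i => t2 (fun u => φ u i))
    have h2 : emb.comp ((PowerSeries.C : PowerSeries ℂ →+* PowerSeries (PowerSeries ℂ)).comp
        (PowerSeries.C : ℂ →+* PowerSeries ℂ)) = cst := RingHom.ext fun c => (emb_C_C c)
    rw [h2] at h1
    rw [t2_eval hφ Q]
    exact h1.symm
  have hy : ∀ (d : ℕ) (Q : MvPolynomial (Fin (N + 1)) ℂ), Q.IsHomogeneous d →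
      (eval₂ cst y Q = 0 ↔ Q ∈ P) := by
    intro d Q hQ
    rw [key, map_eq_zero_iff emb emb_injective, t2_eq_zero_iff (analyticAt_eval hφ Q)]
    constructor
    · intro h
      by_contra hc
      exact hnd d Q hQ hc h
    · intro h
      exact hmem.mono fun u hu => hu Q h
  have hyl : ∀ l, X l ∉ P → y l ≠ 0 := by
    intro l hl h0
    apply hl
    rw [← hy 1 (X l) (isHomogeneous_X ℂ l), eval₂_X, h0]
  obtain ⟨l, hl⟩ : ∃ l, X l ∉ P := by
    obtain ⟨x, hx0, -, -, -, hx, -⟩ := exists_point P z hz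
    by_contra hc
    push Not at hc
    apply hx0
    funext i
    exact (hx i).2 ((coordFun_eq_zero_iff P i).2 (hc i))
  obtain ⟨E, hE, hr⟩ := exists_eval P z hz cst y hy
  refine ⟨E, hE, hr, ?_, ?_⟩
  · intro d A B f hA hB hf
    have h1 := eval_hom_rep (F := LL) P cst y E hE hr (hyl l hl) hA hB (hf l hl)
    rw [key, key] at h1
    exact h1
  · intro s hs
    have h0 : y (s 0) ≠ 0 := hyl _ hs
    have hd1 : AnalyticAt ℂ (d1 φ) 0 := analyticAt_d1 hφ
    have hd2 : AnalyticAt ℂ (d2 φ) 0 := analyticAt_d2 hφ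
    have hx : ∀ i, emb (t2 fun u => d1 φ u i) = DX (y i) := fun i => (EM_DX hφ i).symm
    have ht : ∀ i, emb (t2 fun u => d2 φ u i) = DT (y i) := fun i => (EM_DT hφ i).symm
    rw [EM_D3 hφ hd1 hd2 s, hr (s 1) (s 0), hr (s 2) (s 0)]
    have h1 := EM_jac (F := LL) (D := DX) (D' := DT) DX_mul DT_mul (y (s 0)) (y (s 1)) (y (s 2)) h0
    rw [← hx, ← hx, ← hx, ← ht, ← ht, ← ht] at h1
    exact h1

end Pool.Agent.H68.KR

end
end

section

set_option autoImplicit false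

open Pool.Agent.H23.Fano (Form regularForms PrimeDivisorOver)

noncomputable section

namespace Pool.Agent.H68.KR

private def PD_phi : Polynomial ℂ →+* L1 :=
  (HahnSeries.ofPowerSeries ℤ ℂ).comp Polynomial.coeToPowerSeries.ringHom

private theorem PD_phi_C (c : ℂ) : PD_phi (Polynomial.C c) = HahnSeries.C c := by
  simp [PD_phi]

private theorem PD_phi_X : PD_phi Polynomial.X = HahnSeries.single 1 1 := by
  simp [PD_phi]

private theorem PD_phi_injective : Function.Injective PD_phi := by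
  intro p q h
  have h1 := HahnSeries.ofPowerSeries_injective (Γ := ℤ) (R := ℂ) h
  exact Polynomial.coe_injective ℂ h1

private theorem PD_eval_ne (a : ℂ) (p : MvPolynomial (Fin (2 - 1)) ℂ) (hp : p ≠ 0) :
    MvPolynomial.eval₂ (HahnSeries.C : ℂ →+* L1) (fun _ => HahnSeries.C a + HahnSeries.single 1 1) p ≠ 0 := by
  set P : Polynomial ℂ := MvPolynomial.aeval (fun _ => Polynomial.X) p with hP
  have hback : Polynomial.aeval (MvPolynomial.X (R := ℂ) (0 : Fin (2 - 1))) P = p := by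
    have : (Polynomial.aeval (MvPolynomial.X (R := ℂ) (0 : Fin (2 - 1)))).comp
        (MvPolynomial.aeval (fun _ : Fin (2 - 1) => (Polynomial.X : Polynomial ℂ))) =
        AlgHom.id ℂ (MvPolynomial (Fin (2 - 1)) ℂ) := by
      apply MvPolynomial.algHom_ext
      intro i
      have hi : i = 0 := Subsingleton.elim (α := Fin 1) _ _
      simp [hi]
    exact congrArg (fun f => f p) this
  have hP0 : P ≠ 0 := by
    intro h
    rw [h, map_zero] at hback
    exact hp hback.symm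
  have hT : Polynomial.taylor a P ≠ 0 := by
    intro h
    exact hP0 (Polynomial.taylor_injective a (by rw [h, map_zero]))
  have hmain : MvPolynomial.eval₂ (HahnSeries.C : ℂ →+* L1)
      (fun _ => HahnSeries.C a + HahnSeries.single 1 1) p = PD_phi (Polynomial.taylor a P) := by
    have h1 : ∀ q : MvPolynomial (Fin (2 - 1)) ℂ, MvPolynomial.eval₂Hom (HahnSeries.C : ℂ →+* L1)
        (fun _ => HahnSeries.C a + HahnSeries.single 1 1) q =
        (PD_phi.comp ((Polynomial.taylorAlgHom a : Polynomial ℂ →ₐ[ℂ] Polynomial ℂ).toRingHom.comp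
          (MvPolynomial.aeval (fun _ : Fin (2 - 1) => (Polynomial.X : Polynomial ℂ))).toRingHom)) q := by
      intro q
      congr 1
      apply MvPolynomial.ringHom_ext
      · intro c
        simp [PD_phi_C]
      · intro i
        simp [PD_phi_C, PD_phi_X, add_comm]
    have := h1 p
    simpa [hP] using this
  rw [hmain]
  intro h
  exact hT (PD_phi_injective (by rw [h, map_zero]))

theorem exists_primeDivisor {K : Type} [Field K] [Algebra ℂ K] (E : K →+* LL)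
    (hE : ∀ c : ℂ, E (algebraMap ℂ K c) = cst c) (s : K) (a : ℂ) (hs : E s = cst a + xx)
    (hneg : ∃ f : K, vT (E f) < 0) :
    ∃ D : PrimeDivisorOver K 2, ∀ f : K, 0 ≤ D.ord f ↔ 0 ≤ vT (E f) := by
  classical
  set v : AddValuation K (WithTop ℤ) := vT.comap E with hv
  have hvE : ∀ f, v f = vT (E f) := fun f => rfl
  -- integer values
  have hex : ∀ f : K, f ≠ 0 → ∃ n : ℤ, v f = (n : WithTop ℤ) := by
    intro f hf
    have h : v f ≠ ⊤ := by
      intro h
      exact hf (v.top_iff.mp h)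
    exact ⟨(v f).untop h, (WithTop.coe_untop _ _).symm⟩
  choose! val hval using hex
  have hval_mul : ∀ f g : K, f ≠ 0 → g ≠ 0 → val (f * g) = val f + val g := by
    intro f g hf hg
    have h := v.map_mul f g
    rw [hval f hf, hval g hg, hval (f * g) (mul_ne_zero hf hg)] at h
    exact_mod_cast h
  have hval_one : val 1 = 0 := by
    have h := v.map_one
    rw [hval 1 one_ne_zero] at h
    exact_mod_cast h
  have hval_inv : ∀ f : K, f ≠ 0 → val f⁻¹ = - val f := by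
    intro f hf
    have h := hval_mul f f⁻¹ hf (inv_ne_zero hf)
    rw [mul_inv_cancel₀ hf, hval_one] at h
    omega
  have hval_pow : ∀ (f : K) (n : ℕ), f ≠ 0 → val (f ^ n) = n * val f := by
    intro f n hf
    induction n with
    | zero => simp [hval_one]
    | succ n ih =>
      rw [pow_succ, hval_mul _ _ (pow_ne_zero n hf) hf, ih]
      push_cast
      ring
  have hval_zpow : ∀ (f : K) (n : ℤ), f ≠ 0 → val (f ^ n) = n * val f := by
    intro f n hf
    obtain ⟨m, rfl | rfl⟩ := n.eq_nat_or_neg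
    · rw [zpow_natCast, hval_pow f m hf]
    · rw [zpow_neg, zpow_natCast, hval_inv _ (pow_ne_zero m hf), hval_pow f m hf]
      ring
  -- minimal positive value
  have hpos : ∃ n : ℕ, 0 < n ∧ ∃ t : K, t ≠ 0 ∧ val t = n := by
    obtain ⟨f, hf⟩ := hneg
    have hf0 : f ≠ 0 := by
      rintro rfl
      simp at hf
    have h1 : val f < 0 := by
      have h := hval f hf0
      rw [hvE] at h
      rw [h] at hf
      exact_mod_cast hf
    refine ⟨(-val f).toNat, by omega, f⁻¹, inv_ne_zero hf0, ?_⟩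
    rw [hval_inv f hf0]
    omega
  set e := Nat.find hpos with he
  obtain ⟨he0, t, ht0, htv⟩ := Nat.find_spec hpos
  rw [← he] at he0 htv
  have hmin : ∀ (n : ℕ) (f : K), 0 < n → f ≠ 0 → val f = n → e ≤ n :=
    fun n f hn hf h => Nat.find_min' hpos ⟨hn, f, hf, h⟩
  have heZ : (0 : ℤ) < e := by exact_mod_cast he0
  have hdvd : ∀ f : K, f ≠ 0 → val f = e * (val f / e) := by
    intro f hf
    have h1 : val (f * t ^ (-(val f / e))) = val f - (val f / e) * e := by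
      rw [hval_mul _ _ hf (zpow_ne_zero _ ht0), hval_zpow t _ ht0, htv]
      ring
    have h2 : val f - (val f / e) * e = val f % e := by
      have := Int.emod_add_mul_ediv (val f) e
      linarith
    have h3 : 0 ≤ val f % e := Int.emod_nonneg _ (ne_of_gt heZ)
    have h4 : val f % e < e := Int.emod_lt_of_pos _ heZ
    rcases h3.eq_or_lt with h5 | h5
    · have := Int.emod_add_mul_ediv (val f) e
      omega
    · exfalso
      have h6 := hmin (val f % e).toNat (f * t ^ (-(val f / e))) (by omega)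
        (mul_ne_zero hf (zpow_ne_zero _ ht0)) (by rw [h1, h2]; omega)
      omega
  set w : K → WithTop ℤ := fun f => if f = 0 then ⊤ else ((val f / e : ℤ) : WithTop ℤ) with hw
  have hw0 : w 0 = ⊤ := by simp [hw]
  have hwn : ∀ f : K, f ≠ 0 → w f = ((val f / e : ℤ) : WithTop ℤ) := by
    intro f hf
    simp [hw, hf]
  let ord : AddValuation K (WithTop ℤ) := AddValuation.of w hw0
    (by rw [hwn 1 one_ne_zero, hval_one]; simp)
    (by
      intro f g
      by_cases hf : f = 0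
      · subst hf
        rw [zero_add, hw0]
        simp
      by_cases hg : g = 0
      · subst hg
        rw [add_zero, hw0]
        simp
      by_cases hfg : f + g = 0
      · rw [hfg, hw0]
        exact le_top
      have h := v.map_add f g
      rw [hval f hf, hval g hg, hval (f + g) hfg] at h
      rw [hwn f hf, hwn g hg, hwn _ hfg]
      have h' : min (val f) (val g) ≤ val (f + g) := by exact_mod_cast h
      have h1 := hdvd f hf
      have h2 := hdvd g hg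
      have h3 := hdvd (f + g) hfg
      have : min (val f / e) (val g / e) ≤ val (f + g) / e := by
        rcases min_le_iff.mp h' with h4 | h4
        · exact le_trans (min_le_left _ _) (Int.ediv_le_ediv heZ h4)
        · exact le_trans (min_le_right _ _) (Int.ediv_le_ediv heZ h4)
      exact_mod_cast this)
    (by
      intro f g
      by_cases hf : f = 0
      · subst hf
        rw [zero_mul, hw0]
        simp
      by_cases hg : g = 0
      · subst hg
        rw [mul_zero, hw0]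
        simp
      rw [hwn _ (mul_ne_zero hf hg), hwn f hf, hwn g hg, hval_mul f g hf hg]
      have h1 := hdvd f hf
      have h2 : (val f + val g) / (e : ℤ) = val f / e + val g / e := by
        rw [Int.add_ediv_of_dvd_left ⟨_, h1⟩]
      rw [h2]
      push_cast
      rfl)
  have hord : ∀ f, ord f = w f := fun f => rfl
  have hnn : ∀ f : K, 0 ≤ ord f ↔ 0 ≤ vT (E f) := by
    intro f
    rw [hord, ← hvE]
    by_cases hf : f = 0
    · subst hf
      rw [hw0, v.map_zero]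
    rw [hwn f hf, hval f hf]
    have h1 := hdvd f hf
    constructor
    · intro h
      have h' : 0 ≤ val f / (e : ℤ) := by exact_mod_cast h
      have : 0 ≤ val f := by rw [h1]; positivity
      exact_mod_cast this
    · intro h
      have h' : 0 ≤ val f := by exact_mod_cast h
      have : 0 ≤ val f / (e : ℤ) := Int.ediv_nonneg h' heZ.le
      exact_mod_cast this
  have hC : ∀ f : K, ∀ b : L1, b ≠ 0 → E f = HahnSeries.C b → ord f = 0 := by
    intro f b hb hf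
    have h1 : v f = 0 := by rw [hvE, hf, vT_C hb]
    have hf0 : f ≠ 0 := by
      rintro rfl
      rw [v.map_zero] at h1
      exact WithTop.top_ne_zero h1
    rw [hord, hwn f hf0]
    rw [hval f hf0] at h1
    have h2 : val f = 0 := by exact_mod_cast h1
    rw [h2]
    simp
  refine ⟨⟨ord, ?_, ⟨t, ?_⟩, ⟨fun _ => s, ?_, ?_⟩⟩, hnn⟩
  · intro c
    rw [hnn, hE]
    by_cases hc : c = 0
    · subst hc
      simp
    · have : vT (cst c) = 0 := vT_C (a := HahnSeries.C c) (by simpa using hc)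
      rw [this]
  · rw [hord, hwn t ht0, htv, Int.ediv_self (ne_of_gt heZ)]
    rfl
  · intro i
    have : ord s = 0 := by
      apply hC s (HahnSeries.C a + HahnSeries.single 1 1)
      · have h := PD_eval_ne a (MvPolynomial.X 0) (MvPolynomial.X_ne_zero 0)
        simpa using h
      · rw [hs, map_add]
        rfl
    exact this.ge
  · intro p hp
    apply hC _ _ (PD_eval_ne a p hp)
    clear hp
    induction p using MvPolynomial.induction_on with
    | C c => simp [hE, cst]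
    | add p q hp' hq' =>
      rw [map_add, map_add, hp', hq', ← map_add, MvPolynomial.eval₂_add]
    | mul_X p i hp' =>
      rw [map_mul, map_mul, hp', MvPolynomial.aeval_X, MvPolynomial.eval₂_mul, map_mul,
        MvPolynomial.eval₂_X, hs, map_add]
      rfl

end Pool.Agent.H68.KR

end
end

section

/-!
# KR JF: the Jacobian of a rational `2`-form and its order

Proof of `exists_jac`.  `F` is a `K`-module through `E` (inside the proof: `letI := E.toAlgebra`,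
`letI : Algebra ℂ F := (E.comp (algebraMap ℂ K)).toAlgebra`, `IsScalarTower.of_algebraMap_eq`).  `δ_i = D_i ∘ E` is a
derivation `Derivation ℂ K F` (`Derivation.mk'` or by hand; `ℂ`-linear by the Leibniz rule and `hc`).  Let
`l_i = (δ_i).liftKaehlerDifferential : Ω[K⁄ℂ] →ₗ[K] F`, `l_i (d a) = D_i (E a)`.  The map
`(v, w) ↦ l_1 v * l_2 w - l_1 w * l_2 v` is alternating (as an `AlternatingMap K Ω F (Fin 2)`; e.g.
`MultilinearMap.alternatization` or by hand, `Matrix.det` of the `2 × 2` matrix `(l_i (v j))`: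
`(Matrix.detRowAlternating).compLinearMap` with `LinearMap.pi ![l_1, l_2]`, then `Matrix.det_fin_two`), lift it to
`⋀[K]^2 Ω` with `exteriorPower.alternatingMapLinearEquiv`; `J` is this map as additive homomorphism; `Form.mk c a` is
`c • ιMulti (fun i => D (a i))` (see `Pool/Agent/H23/Fano.lean`, `Form.mk`, `ExtPow.wedge`, `d`).

Proof of `pole_free`.  Let `J` be the map of `exists_jac` for `DX`, `DT` (`DX_cst`, `DT_cst`).  The element in question
is `m = E H * (J ω) ^ M`, `ω = Form.mk W a`.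
(1) For `f` with `0 ≤ vT (E f)`: `0 ≤ vT (DX (E f)), vT (DT (E f))`.
(2) If `0 ≤ vT (E f)` for all `f : K`, all factors have order `≥ 0` (`AddValuation.map_mul`, `map_sub`, `map_pow`).
(3) Otherwise let `D` be the prime divisor of `exists_primeDivisor`.  `hpole D` gives `g`, `η` with
`ω = g • η`, `0 ≤ D.ord (H * g ^ M)`.  `vT (J η) ≥ 0`: `AddSubgroup.closure_induction` (generators by (1)).
`m = E H * (E g * J η) ^ M = E (H * g ^ M) * (J η) ^ M`.
-/

set_option autoImplicit false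

open Pool.Agent.H23.Fano (Form regularForms PrimeDivisorOver)
open Pool.Agent.H17LG.Variety (PoleAtMost)

noncomputable section

namespace Pool.Agent.H68.KR

theorem exists_jac {K F : Type} [Field K] [Algebra ℂ K] [Field F] (E : K →+* F) (D₁ D₂ : F →+ F)
    (h₁ : ∀ a b, D₁ (a * b) = a * D₁ b + b * D₁ a) (h₂ : ∀ a b, D₂ (a * b) = a * D₂ b + b * D₂ a)
    (hc₁ : ∀ c : ℂ, D₁ (E (algebraMap ℂ K c)) = 0) (hc₂ : ∀ c : ℂ, D₂ (E (algebraMap ℂ K c)) = 0) :
    ∃ J : Form K 2 →+ F, (∀ (g : K) (η : Form K 2), J (g • η) = E g * J η) ∧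
      ∀ (c : K) (a : Fin 2 → K), J (Form.mk c a) =
        E c * (D₁ (E (a 0)) * D₂ (E (a 1)) - D₁ (E (a 1)) * D₂ (E (a 0))) := by
  let algKF : Algebra K F := E.toAlgebra
  let algCF : Algebra ℂ F := (E.comp (algebraMap ℂ K)).toAlgebra
  have tow : IsScalarTower ℂ K F := IsScalarTower.of_algebraMap_eq (fun _ => rfl)
  have hsmulK : ∀ (k : K) (x : F), k • x = E k * x := fun k x => rfl
  have hsmulC : ∀ (c : ℂ) (x : F), c • x = E (algebraMap ℂ K c) * x := fun c x => rfl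
  have main : ∀ D : F →+ F, (∀ a b, D (a * b) = a * D b + b * D a) →
      (∀ c : ℂ, D (E (algebraMap ℂ K c)) = 0) → ∃ l : Ω[K⁄ℂ] →ₗ[K] F,
        ∀ x : K, l (KaehlerDifferential.D ℂ K x) = D (E x) := by
    intro D h hc
    let δ : Derivation ℂ K F := Derivation.mk'
      { toFun := fun x => D (E x)
        map_add' := fun x y => by rw [map_add, map_add]
        map_smul' := fun c x => by
          rw [Algebra.smul_def, map_mul, h, hc, mul_zero, add_zero, RingHom.id_apply, hsmulC] }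
      (fun x y => by
        change D (E (x * y)) = x • D (E y) + y • D (E x)
        rw [map_mul, h, hsmulK, hsmulK])
    exact ⟨δ.liftKaehlerDifferential, fun x => δ.liftKaehlerDifferential_comp_D x⟩
  obtain ⟨l₁, hl₁⟩ := main D₁ h₁ hc₁
  obtain ⟨l₂, hl₂⟩ := main D₂ h₂ hc₂
  let A : AlternatingMap K Ω[K⁄ℂ] F (Fin 2) :=
    { toFun := fun v => l₁ (v 0) * l₂ (v 1) - l₁ (v 1) * l₂ (v 0)
      map_update_add' := by
        intro _ v i x y
        fin_cases i
        · simp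
          ring
        · simp
          ring
      map_update_smul' := by
        intro _ v i c x
        fin_cases i
        · simp [hsmulK]
          ring
        · simp [hsmulK]
          ring
      map_eq_zero_of_eq' := by
        intro v i j hij hne
        fin_cases i <;> fin_cases j
        · exact absurd rfl hne
        · have h : v 0 = v 1 := hij
          simp only [h]
          ring
        · have h : v 1 = v 0 := hij
          simp only [h]
          ring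
        · exact absurd rfl hne }
  let J₀ : (⋀[K]^2 Ω[K⁄ℂ]) →ₗ[K] F := exteriorPower.alternatingMapLinearEquiv A
  have hJ₀ : ∀ v : Fin 2 → Ω[K⁄ℂ], J₀ (exteriorPower.ιMulti K 2 v) =
      l₁ (v 0) * l₂ (v 1) - l₁ (v 1) * l₂ (v 0) := fun v =>
    exteriorPower.alternatingMapLinearEquiv_apply_ιMulti A v
  let J : Form K 2 →+ F := J₀.toAddMonoidHom
  have hJs : ∀ (g : K) (η : Form K 2), J (g • η) = E g * J η := fun g η => J₀.map_smul g η
  refine ⟨J, hJs, fun c a => ?_⟩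
  have h1 : J (Form.mk c a) = E c * J₀ (exteriorPower.ιMulti K 2 fun i => KaehlerDifferential.D ℂ K (a i)) :=
    J₀.map_smul c _
  rw [h1, hJ₀, hl₁, hl₁, hl₂, hl₂]

private theorem JF_mul {x y : LL} (hx : 0 ≤ vT x) (hy : 0 ≤ vT y) : 0 ≤ vT (x * y) := by
  rw [AddValuation.map_mul]
  exact add_nonneg hx hy

private theorem JF_add {x y : LL} (hx : 0 ≤ vT x) (hy : 0 ≤ vT y) : 0 ≤ vT (x + y) :=
  (le_min hx hy).trans (vT.map_add x y)

private theorem JF_neg {x : LL} (hx : 0 ≤ vT x) : 0 ≤ vT (-x) := by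
  rw [AddValuation.map_neg]
  exact hx

private theorem JF_sub {x y : LL} (hx : 0 ≤ vT x) (hy : 0 ≤ vT y) : 0 ≤ vT (x - y) := by
  have h : x - y = x + -y := sub_eq_add_neg x y
  rw [h]
  exact JF_add hx (JF_neg hy)

private theorem JF_pow {x : LL} (hx : 0 ≤ vT x) (n : ℕ) : 0 ≤ vT (x ^ n) := by
  rw [AddValuation.map_pow]
  exact nsmul_nonneg hx n

private theorem JF_zero : 0 ≤ vT (0 : LL) := by
  rw [AddValuation.map_zero]
  exact le_top

private theorem JF_jac {x y : LL} (hx : 0 ≤ vT x) (hy : 0 ≤ vT y) :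
    0 ≤ vT (DX x * DT y - DX y * DT x) :=
  JF_sub (JF_mul (vT_DX_nonneg hx) (vT_DT_nonneg hy)) (JF_mul (vT_DX_nonneg hy) (vT_DT_nonneg hx))

theorem pole_free {K : Type} [Field K] [Algebra ℂ K] (E : K →+* LL)
    (hE : ∀ c : ℂ, E (algebraMap ℂ K c) = cst c) (s : K) (b : ℂ) (hs : E s = cst b + xx)
    (M : ℕ) (H W : K) (a : Fin 2 → K)
    (hpole : ∀ D : PrimeDivisorOver K 2, PoleAtMost 0 D M H (Form.mk W a)) :
    0 ≤ vT (E H * (E W * (DX (E (a 0)) * DT (E (a 1)) - DX (E (a 1)) * DT (E (a 0)))) ^ M) := by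
  by_cases hall : ∀ f : K, 0 ≤ vT (E f)
  · exact JF_mul (hall H) (JF_pow (JF_mul (hall W) (JF_jac (hall (a 0)) (hall (a 1)))) M)
  · push Not at hall
    obtain ⟨D, hD⟩ := exists_primeDivisor E hE s b hs hall
    have hX : ∀ c : ℂ, DX (E (algebraMap ℂ K c)) = 0 := fun c => by rw [hE]; exact DX_cst c
    have hT : ∀ c : ℂ, DT (E (algebraMap ℂ K c)) = 0 := fun c => by rw [hE]; exact DT_cst c
    obtain ⟨J, hJs, hJm⟩ := exists_jac (F := LL) E DX DT (fun a b => DX_mul a b)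
      (fun a b => DT_mul a b) hX hT
    obtain ⟨g, η, hη, hω, hord⟩ := hpole D
    have hord' : 0 ≤ D.ord (H * g ^ M) := by
      simpa using hord
    have h1 : 0 ≤ vT (E (H * g ^ M)) := (hD _).1 hord'
    have hgen : ∀ ξ : Form K 2, ξ ∈ regularForms 2 D.localRing → 0 ≤ vT (J ξ) := by
      intro ξ hξ
      unfold regularForms at hξ
      induction hξ using AddSubgroup.closure_induction with
      | mem x hx =>
        obtain ⟨c, b', hc, hb', rfl⟩ := hx
        rw [hJm]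
        exact JF_mul ((hD c).1 hc) (JF_jac ((hD _).1 (hb' 0)) ((hD _).1 (hb' 1)))
      | zero => rw [map_zero]; exact JF_zero
      | add x y _ _ hx hy => rw [map_add]; exact JF_add hx hy
      | neg x _ hx => rw [map_neg]; exact JF_neg hx
    have h2 : 0 ≤ vT (J η) := hgen η hη
    rw [← hJm, hω, hJs]
    have h3 : E H * (E g * J η) ^ M = E (H * g ^ M) * J η ^ M := by
      rw [map_mul, map_pow]
      ring
    rw [h3]
    exact JF_mul h1 (JF_pow h2 M)

end Pool.Agent.H68.KR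

end
end
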