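import Pool.Agent.H94.G6.H68.KR.Pt
import Pool.Agent.H94.G6.M16
import Pool.Agent.H94.G6.M62

/-! The parts of this file: H36.BP.Lift, H68.KR.KOD, MQ3.FrE_1. -/

section

/-!
# BP Lift: lifts on discs and punctured discs

Both follow the proof of `Pool.Agent.H17.exists_global_lift` (Weierstrass' theorem `exists_entire_with_orders`: the orders are required on a closed subset where they are locally finite).
Let `j₀` be a coordinate which does not vanish identically near any point (connectedness) and `D z` the order of vanishing at `z` of the `j₀`-th coordinate of a local lift without common zeros.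
* disc: an entire function `w` with `ord_z w = D z` for `|z| ≤ r`, `0` elsewhere; `F_j = w φ_j/φ_(j₀)`.
* punctured disc: the same for `f(1/ζ)` on `|ζ| > 1`: an entire function `w` with order `D(1/ζ)` for `|ζ| ≥ 1/r` and `0` elsewhere; `F_j(z) = w(1/z) φ_j/φ_(j₀)`.
(The sets `{z : D z ≠ 0, |z| ≤ r}` and `{ζ : D(1/ζ) ≠ 0, |ζ| ≥ 1/r}` are locally finite in `ℂ`.)
-/

set_option autoImplicit false

namespace Pool.Agent.H36.BP

open Filter Topology Metric

variable {N : ℕ}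

open Pool.Agent.H17 (PN HolomorphicInto)

/-- common core of both lifting theorems: `w` is a function with the required orders -/
private lemma Lift_core {f : ℂ → PN N} {U V : Set ℂ} (hU : IsOpen U) (hUc : IsPreconnected U)
    (hV : IsOpen V) (hVU : V ⊆ U) (hne : U.Nonempty) (hf : HolomorphicInto f U)
    (hW : ∀ D : ℂ → ℕ, (∀ K : Set ℂ, IsCompact K → K ⊆ U → {z ∈ K | D z ≠ 0}.Finite) →
      ∃ w : ℂ → ℂ, ∀ z ∈ V, AnalyticAt ℂ w z ∧ analyticOrderAt w z = D z) :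
    ∃ F : ℂ → EN N, DifferentiableOn ℂ F V ∧
      ∀ z ∈ V, ∃ h : (F z).ofLp ≠ 0, f z = Projectivization.mk ℂ _ h := by
  classical
  have hf' : ∀ z₀, ∃ φ : ℂ → Fin (N + 1) → ℂ, z₀ ∈ U → (AnalyticAt ℂ φ z₀ ∧
      ∀ᶠ z in 𝓝 z₀, ∃ h : φ z ≠ 0, f z = Projectivization.mk ℂ (φ z) h) := by
    intro z₀
    by_cases h : z₀ ∈ U
    · obtain ⟨φ, h1, h2⟩ := hf z₀ h
      exact ⟨φ, fun _ => ⟨h1, h2⟩⟩
    · exact ⟨fun _ => 0, fun h' => absurd h' h⟩
  choose φ hφ using hf'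
  have hφj : ∀ z₀ ∈ U, ∀ j, AnalyticAt ℂ (fun z => φ z₀ z j) z₀ := fun z₀ hz₀ j =>
    (analyticAt_pi_iff.mp (hφ z₀ hz₀).1) j
  -- comparison of lifts
  have hcmp : ∀ z₀ ∈ U, ∀ᶠ z in 𝓝 z₀, ∃ c : ℂ, c ≠ 0 ∧ ∀ j, φ z₀ z j = c * φ z z j := by
    intro z₀ hz₀
    filter_upwards [(hφ z₀ hz₀).2, hU.mem_nhds hz₀] with z hz hzU
    obtain ⟨h1, h2⟩ := hz
    obtain ⟨h3, h4⟩ := ((hφ z hzU).2).self_of_nhds
    exact Pool.Agent.H17.mk_eq_mk_cross (h2.symm.trans h4)
  have hφ0 : ∀ z₀ ∈ U, φ z₀ z₀ ≠ 0 := fun z₀ hz₀ => ((hφ z₀ hz₀).2).self_of_nhds.1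
  obtain ⟨b, hb⟩ := hne
  obtain ⟨j₀, hj₀⟩ : ∃ j₀, φ b b j₀ ≠ 0 := by
    by_contra h
    push Not at h
    exact hφ0 b hb (funext h)
  -- the coordinate `j₀` does not vanish identically near any point
  set A : Set ℂ := {z₀ | z₀ ∈ U ∧ ∀ᶠ z in 𝓝 z₀, φ z₀ z j₀ = 0} with hA
  set B : Set ℂ := {z₀ | z₀ ∈ U ∧ ∀ᶠ z in 𝓝[≠] z₀, φ z₀ z j₀ ≠ 0} with hB
  have hAopen : IsOpen A := by
    rw [isOpen_iff_mem_nhds]
    rintro z₀ ⟨hz₀U, hz₀⟩
    have h1 : ∀ᶠ z in 𝓝 z₀, φ z z j₀ = 0 := by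
      filter_upwards [hz₀, hcmp z₀ hz₀U] with z h1 h2
      obtain ⟨c, hc, h3⟩ := h2
      have := h3 j₀
      rw [h1] at this
      exact (mul_eq_zero.mp this.symm).resolve_left hc
    filter_upwards [h1.eventually_nhds, hU.mem_nhds hz₀U] with z₁ h2 hz₁U
    refine ⟨hz₁U, ?_⟩
    filter_upwards [h2, hcmp z₁ hz₁U] with z h3 h4
    obtain ⟨c, hc, h5⟩ := h4
    rw [h5, h3, mul_zero]
  have hBopen : IsOpen B := by
    rw [isOpen_iff_mem_nhds]
    rintro z₀ ⟨hz₀U, hz₀⟩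
    have h3 := eventually_nhdsWithin_iff.mp hz₀
    filter_upwards [h3, hcmp z₀ hz₀U, hU.mem_nhds hz₀U] with z h4 h5 hzU
    by_cases hz : z = z₀
    · rw [hz]; exact ⟨hz₀U, hz₀⟩
    · refine ⟨hzU, ?_⟩
      obtain ⟨c, hc, h6⟩ := h5
      rcases (hφj z hzU j₀).eventually_eq_zero_or_eventually_ne_zero with h | h
      · exfalso
        have h8 : φ z z j₀ = 0 := h.self_of_nhds
        apply h4 hz
        rw [h6, h8, mul_zero]
      · exact h
  have hUB : U ⊆ B := by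
    have hdisj : Disjoint B A := by
      rw [Set.disjoint_left]
      rintro z ⟨_, h1⟩ ⟨_, h2⟩
      obtain ⟨y, hy1, hy2⟩ := (h1.and (h2.filter_mono nhdsWithin_le_nhds)).exists
      exact hy1 hy2
    have hcov : U ⊆ B ∪ A := by
      intro z hz
      rcases (hφj z hz j₀).eventually_eq_zero_or_eventually_ne_zero with h | h
      · exact Or.inr ⟨hz, h⟩
      · exact Or.inl ⟨hz, h⟩
    have hbB : b ∈ B := by
      refine ⟨hb, ?_⟩
      rcases (hφj b hb j₀).eventually_eq_zero_or_eventually_ne_zero with h | h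
      · exact absurd h.self_of_nhds hj₀
      · exact h
    exact hUc.subset_left_of_subset_union hBopen hAopen hdisj hcov ⟨b, hb, hbB⟩
  have hne : ∀ z₀ ∈ U, ∀ᶠ z in 𝓝[≠] z₀, φ z₀ z j₀ ≠ 0 := fun z₀ hz₀ => (hUB hz₀).2
  have hfin : ∀ z₀ ∈ U, analyticOrderAt (fun z => φ z₀ z j₀) z₀ ≠ ⊤ := by
    intro z₀ hz₀ h
    rw [analyticOrderAt_eq_top] at h
    obtain ⟨y, hy1, hy2⟩ := ((hne z₀ hz₀).and (h.filter_mono nhdsWithin_le_nhds)).exists
    exact hy1 hy2
  set D : ℂ → ℕ := fun z => analyticOrderNatAt (fun y => φ z y j₀) z with hD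
  have hDord : ∀ z ∈ U, analyticOrderAt (fun y => φ z y j₀) z = D z := fun z hz =>
    (Nat.cast_analyticOrderNatAt (hfin z hz)).symm
  have hDfin : ∀ K : Set ℂ, IsCompact K → K ⊆ U → {z ∈ K | D z ≠ 0}.Finite := by
    intro K hK hKU
    by_contra hinf
    obtain ⟨y, hyK, hy⟩ := Set.Infinite.exists_accPt_of_subset_isCompact hinf hK (fun z hz => hz.1)
    have hyU := hKU hyK
    rw [accPt_iff_frequently_nhdsNE] at hy
    obtain ⟨z, hz1, hz2, hz3, hzU⟩ := (hy.and_eventually ((hne y hyU).and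
      (((hcmp y hyU).filter_mono nhdsWithin_le_nhds).and
        (mem_nhdsWithin_of_mem_nhds (hU.mem_nhds hyU))))).exists
    obtain ⟨c, hc, h4⟩ := hz3
    apply hz1.2
    have h5 : φ z z j₀ ≠ 0 := by
      intro h
      apply hz2
      rw [h4, h, mul_zero]
    have h6 := hDord z hzU
    rw [(hφj z hzU j₀).analyticOrderAt_eq_zero.mpr h5] at h6
    exact_mod_cast h6.symm
  obtain ⟨w, hw⟩ := hW D hDfin
  have hq : ∀ z₀, ∃ q : ℂ → ℂ, z₀ ∈ V → (AnalyticAt ℂ q z₀ ∧ q z₀ ≠ 0 ∧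
      ∀ᶠ z in 𝓝 z₀, w z = q z * φ z₀ z j₀) := by
    intro z₀
    by_cases h : z₀ ∈ V
    · obtain ⟨q, h1⟩ := Pool.Agent.H17.exists_unit_quotient (hw z₀ h).1 (hφj z₀ (hVU h) j₀)
        (hw z₀ h).2 (hDord z₀ (hVU h))
      exact ⟨q, fun _ => h1⟩
    · exact ⟨fun _ => 0, fun h' => absurd h' h⟩
  choose q hq using hq
  set X : Fin (N + 1) → ℂ → ℂ := fun j z => q z z * φ z z j with hX
  have hXloc : ∀ z₀ ∈ V, ∀ j, X j =ᶠ[𝓝 z₀] fun z => q z₀ z * φ z₀ z j := by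
    intro z₀ hz₀ j
    have h1 := eventually_nhdsWithin_iff.mp (hne z₀ (hVU hz₀))
    filter_upwards [h1, hcmp z₀ (hVU hz₀), (hq z₀ hz₀).2.2, hV.mem_nhds hz₀] with z h2 h3 h4 hzV
    by_cases hz : z = z₀
    · rw [hz]
    · obtain ⟨c, hc, h5⟩ := h3
      have h6 := h2 hz
      have h7 : w z = q z z * φ z z j₀ := ((hq z hzV).2.2).self_of_nhds
      have h8 : φ z z j₀ ≠ 0 := by
        intro h
        apply h6
        rw [h5, h, mul_zero]
      have h9 : q z₀ z * c = q z z := by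
        apply mul_right_cancel₀ h8
        rw [← h7, h4, h5]
        ring
      simp only [hX]
      rw [h5, ← h9]
      ring
  have hXdiff : ∀ j, ∀ z₀ ∈ V, DifferentiableAt ℂ (X j) z₀ := by
    intro j z₀ hz₀
    exact (hXloc z₀ hz₀ j).differentiableAt_iff.mpr
      ((hq z₀ hz₀).1.mul (hφj z₀ (hVU hz₀) j)).differentiableAt
  refine ⟨fun z => WithLp.toLp 2 (fun j => X j z), ?_, fun z hz => ?_⟩
  · intro z hz
    apply DifferentiableAt.differentiableWithinAt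
    rw [differentiableAt_euclidean]
    exact fun j => hXdiff j z hz
  · obtain ⟨h1, h2⟩ := ((hφ z (hVU hz)).2).self_of_nhds
    have h3 : (fun j => X j z) = q z z • φ z z := by
      funext j
      rfl
    have h4 : (fun j => X j z) ≠ 0 := by
      rw [h3]
      exact smul_ne_zero (hq z hz).2.1 h1
    refine ⟨h4, ?_⟩
    rw [h2, Projectivization.mk_eq_mk_iff]
    refine ⟨(Units.mk0 (q z z) (hq z hz).2.1)⁻¹, ?_⟩
    change (Units.mk0 (q z z) (hq z hz).2.1)⁻¹ • (fun j => X j z) = φ z z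
    rw [h3, Units.smul_def, smul_smul]
    simp [(hq z hz).2.1]

theorem lift_disc {f : ℂ → PN N} (hf : HolomorphicInto f (ball 0 1)) {r : ℝ} (hr : 0 < r) (hr1 : r < 1) :
    ∃ F : ℂ → EN N, DifferentiableOn ℂ F (ball 0 r) ∧ ∀ z ∈ ball (0 : ℂ) r, ∃ h : (F z).ofLp ≠ 0, f z = Projectivization.mk ℂ _ h := by
  classical
  refine Lift_core isOpen_ball (convex_ball (0 : ℂ) 1).isPreconnected isOpen_ball
    (ball_subset_ball hr1.le) ⟨0, mem_ball_self one_pos⟩ hf ?_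
  intro D hD
  obtain ⟨w, hw⟩ := Pool.Agent.H17.exists_entire_with_orders
    (fun z => if z ∈ closedBall (0 : ℂ) r then D z else 0) (by
      intro R
      refine (hD (closedBall 0 r) (isCompact_closedBall _ _)
        (closedBall_subset_ball hr1)).subset ?_
      rintro z ⟨_, hz⟩
      by_cases h : z ∈ closedBall (0 : ℂ) r
      · simp only [h, if_true] at hz
        exact ⟨h, hz⟩
      · simp [h] at hz)
  refine ⟨w, fun z hz => ⟨w.analyticAt z, ?_⟩⟩
  rw [hw z, if_pos (ball_subset_closedBall hz)]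

/-- the punctured disc is preconnected -/
private lemma Lift_preconn : IsPreconnected (ball (0 : ℂ) 1 \ {0}) := by
  have h1 : ball (0 : ℂ) 1 \ {0} = Complex.exp '' {z : ℂ | z.re < 0} := by
    ext z
    constructor
    · rintro ⟨h1, h2⟩
      have h3 : z ≠ 0 := h2
      refine ⟨Complex.log z, ?_, Complex.exp_log h3⟩
      change (Complex.log z).re < 0
      rw [Complex.log_re]
      exact Real.log_neg (norm_pos_iff.mpr h3) (mem_ball_zero_iff.mp h1)
    · rintro ⟨y, hy, rfl⟩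
      refine ⟨?_, Complex.exp_ne_zero y⟩
      rw [mem_ball_zero_iff, Complex.norm_exp]
      exact Real.exp_lt_one_iff.mpr hy
  rw [h1]
  exact ((convex_halfSpace_re_lt 0).isPreconnected).image _ Complex.continuous_exp.continuousOn

theorem lift_punct {f : ℂ → PN N} (hf : HolomorphicInto f (ball 0 1 \ {0})) {r : ℝ} (hr : 0 < r) (hr1 : r < 1) :
    ∃ F : ℂ → EN N, DifferentiableOn ℂ F (ball 0 r \ {0}) ∧ ∀ z ∈ ball (0 : ℂ) r \ {0}, ∃ h : (F z).ofLp ≠ 0, f z = Projectivization.mk ℂ _ h := by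
  classical
  have hopen : ∀ s : ℝ, IsOpen (ball (0 : ℂ) s \ {0}) := fun s =>
    isOpen_ball.sdiff isClosed_singleton
  refine Lift_core (hopen 1) Lift_preconn (hopen r)
    (Set.sdiff_subset_sdiff_left (ball_subset_ball hr1.le)) ⟨1 / 2, ?_, ?_⟩ hf ?_
  · rw [mem_ball_zero_iff]; norm_num
  · norm_num
  intro D hD
  obtain ⟨w, hw⟩ := Pool.Agent.H17.exists_entire_with_orders
    (fun ζ => if r⁻¹ ≤ ‖ζ‖ then D ζ⁻¹ else 0) (by
      intro R
      set S : ℝ := max R 1 with hS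
      have hS1 : 0 < S := lt_of_lt_of_le one_pos (le_max_right _ _)
      have hK : IsCompact (closedBall (0 : ℂ) r \ ball 0 S⁻¹) :=
        (isCompact_closedBall _ _).diff isOpen_ball
      have hKU : closedBall (0 : ℂ) r \ ball 0 S⁻¹ ⊆ ball 0 1 \ {0} := by
        rintro z ⟨h1, h2⟩
        refine ⟨closedBall_subset_ball hr1 h1, ?_⟩
        rintro rfl
        exact h2 (mem_ball_self (inv_pos.mpr hS1))
      refine ((hD _ hK hKU).image (fun z => z⁻¹)).subset ?_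
      rintro z ⟨hz1, hz⟩
      by_cases h : r⁻¹ ≤ ‖z‖
      · simp only [h, if_true] at hz
        have h0 : 0 < ‖z‖ := lt_of_lt_of_le (inv_pos.mpr hr) h
        refine ⟨z⁻¹, ⟨⟨?_, ?_⟩, hz⟩, inv_inv z⟩
        · rw [mem_closedBall_zero_iff, norm_inv]
          exact inv_le_of_inv_le₀ hr h
        · rw [mem_ball_zero_iff, norm_inv, not_lt]
          apply inv_anti₀ h0
          exact le_trans (mem_closedBall_zero_iff.mp hz1) (le_max_left _ _)
      · simp [h] at hz)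
  refine ⟨fun z => (w : ℂ → ℂ) z⁻¹, fun z hz => ?_⟩
  have hz0 : z ≠ 0 := hz.2
  have hinv : AnalyticAt ℂ (fun z : ℂ => z⁻¹) z := analyticAt_inv hz0
  have hd : deriv (fun z : ℂ => z⁻¹) z ≠ 0 := by
    rw [deriv_inv]
    exact neg_ne_zero.mpr (inv_ne_zero (pow_ne_zero 2 hz0))
  refine ⟨(w.analyticAt z⁻¹).comp hinv, ?_⟩
  have h1 : analyticOrderAt ((w : ℂ → ℂ) ∘ fun z : ℂ => z⁻¹) z = analyticOrderAt (w : ℂ → ℂ) z⁻¹ :=
    analyticOrderAt_comp_of_deriv_ne_zero hinv hd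
  have h2 : r⁻¹ ≤ ‖z⁻¹‖ := by
    rw [norm_inv]
    exact inv_anti₀ (norm_pos_iff.mpr hz0) (mem_ball_zero_iff.mp hz.1).le
  have h3 := hw z⁻¹
  rw [if_pos h2, inv_inv] at h3
  rw [← h3, ← h1]
  rfl

end Pool.Agent.H36.BP

end

section

/-!
# KR KOD: Kodaira's lemma

`exists_relation`.  `ξ` is algebraic over the field `ℂ(φ)`, `φ i = f i / f 0`, hence over the ring `ℂ[φ]` (the field is its
fraction field: `IsFractionRing` instance in the scope `algebraAdjoinAdjoin` of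
`Mathlib/FieldTheory/IntermediateField/Adjoin/Algebra.lean`, `IsFractionRing.isAlgebraic_iff` or
`IsAlgebraic.of…`/clearing denominators).  So there is a polynomial `p ≠ 0` over `ℂ[φ]` with `p (ξ) = 0`; divide by the
power of `T` (`Polynomial.exists_eq_X_pow…`, `p.divX`, or choose `p` of minimal degree; `ξ ≠ 0`): `p.coeff 0 ≠ 0`.
`p.coeff k = aeval φ (g k)` (`Algebra.adjoin_range_eq_range_aeval`).  Let `D ≥ 1` be at least all total degrees,
`a k = hmz 0 D (g k)`: homogeneous of degree `D`, `aeval f (a k) = f 0 ^ D * aeval φ (g k)` (`eval₂_hmz`, `aeval` is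
`eval₂ (algebraMap …)`).

`exists_good_coordinate`.  Let `x` be the point of `exists_point`, `l` with `D.ord (x l)` minimal (finite set,
`Finset.exists_min_image`); `x ≠ 0`, so `x l ≠ 0` (its order is not `⊤`) and `X l ∉ P`; `ratio P i l = x i / x l` has order
`≥ 0`: `D.ord (x i) = D.ord (x i / x l) + D.ord (x l)`.

`kodaira`.  Let `m, ω, r, f` be given by `hgt` (`B` is empty: for all `i`, `D` `PoleAtMost 0 D m (f i) ω`).  Choose `o` with
`X o ∉ P`.  For every `l` with `X l ∉ P` let `ξ l = ratio P o l ≠ 0`, and `D_l ≥ 1`, `n_l`, `a^l` be given by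
`exists_relation` (for other `l` put the factor `1` and `D_l = 0`).
`H = ∏_l aeval f (a^l 0)` over `l` with `X l ∉ P`, `M = m * ∑ D_l ≥ 1`.  `H ≠ 0`.
Let `D` be a prime divisor and `l'` with `X l' ∉ P`.  For every `i` there are `g_i, η_i` with `ω = g_i • η_i`,
`0 ≤ D.ord (f i * g_i ^ m)`.  Let `g = g_i, η = η_i` be those with `D.ord g_i` maximal (it is not `⊤`: `g_i ≠ 0` as
`ω ≠ 0`).  Then `0 ≤ D.ord (f i * g ^ m)` for all `i`.  Hence for `a` homogeneous of degree `d`: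
`aeval f a * g ^ (m d) = aeval (fun i => f i * g ^ m) a` has order `≥ 0` (`eval₂_of_isHomogeneous`; a polynomial with
constant coefficients in elements of the valuation ring, `D.ord_const`, `MvPolynomial.induction_on` or `eval₂_eq` and the sum
formula).  Let `l` be the coordinate of `exists_good_coordinate`.
`aeval f (a^l 0) * g^(m D_l) = - ξ_l * ∑_{k ≥ 1} (aeval f (a^l k) * g^(m D_l)) ξ_l^(k-1)` and `ξ_l = ratio P o l` has
order `≥ 0`, so `D.ord (aeval f (a^l 0) * g^(m D_l)) ≥ D.ord ξ_l`, and the other factors of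
`H * g ^ M = ∏ (aeval f (a^l 0) * g^(m D_l))` have order `≥ 0`.  So
`D.ord (H * ratio P l' o * g ^ M) ≥ D.ord (ratio P o l * ratio P l' o) = D.ord (ratio P l' l) ≥ 0`.
-/

set_option autoImplicit false

open MvPolynomial
open Pool.Agent.H23.Fano (Form regularForms PrimeDivisorOver)
open Pool.Agent.H17GT (coordFun functionField)
open Pool.Agent.H17LG.Variety (FunField ratio PoleAtMost IsLogGeneralType)

noncomputable section

namespace Pool.Agent.H68.KR

theorem exists_relation {K : Type} [Field K] [Algebra ℂ K] {r : ℕ} {f : Fin (r + 1) → K} (hf : f 0 ≠ 0)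
    {ξ : K} (hξ : ξ ≠ 0)
    (halg : IsAlgebraic (IntermediateField.adjoin ℂ (Set.range fun i => f i / f 0)) ξ) :
    ∃ (D n : ℕ) (a : ℕ → MvPolynomial (Fin (r + 1)) ℂ), 1 ≤ D ∧ (∀ k, (a k).IsHomogeneous D) ∧
      aeval f (a 0) ≠ 0 ∧ ∑ k ∈ Finset.range (n + 1), aeval f (a k) * ξ ^ k = 0 := by
  classical
  have halg2 : IsAlgebraic (Algebra.adjoin ℂ (Set.range fun i => f i / f 0)) ξ := by
    open scoped IntermediateField.algebraAdjoinAdjoin in
    exact (IsFractionRing.isAlgebraic_iff (Algebra.adjoin ℂ (Set.range fun i => f i / f 0))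
      (IntermediateField.adjoin ℂ (Set.range fun i => f i / f 0)) K).2 halg
  obtain ⟨p, hp0, hp⟩ := halg2
  obtain ⟨q, hpq, hq⟩ := Polynomial.exists_eq_pow_rootMultiplicity_mul_and_not_dvd p hp0 0
  rw [map_zero, sub_zero] at hpq hq
  rw [Polynomial.X_dvd_iff] at hq
  have hq0 : Polynomial.aeval ξ q = 0 := by
    rw [hpq, map_mul, map_pow, Polynomial.aeval_X] at hp
    exact (mul_eq_zero.1 hp).resolve_left (pow_ne_zero _ hξ)
  have hg : ∀ k, ∃ G : MvPolynomial (Fin (r + 1)) ℂ, aeval (fun i => f i / f 0) G =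
      ((q.coeff k : Algebra.adjoin ℂ (Set.range fun i => f i / f 0)) : K) := by
    intro k
    have h1 : ∀ y ∈ Algebra.adjoin ℂ (Set.range fun i => f i / f 0),
        ∃ G : MvPolynomial (Fin (r + 1)) ℂ, aeval (fun i => f i / f 0) G = y := by
      intro y hy
      rw [Algebra.adjoin_range_eq_range_aeval] at hy
      exact hy
    exact h1 _ (q.coeff k).2
  choose G hG using hg
  refine ⟨1 + ∑ k ∈ Finset.range (q.natDegree + 1), (G k).totalDegree, q.natDegree,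
    fun k => hmz 0 (1 + ∑ k ∈ Finset.range (q.natDegree + 1), (G k).totalDegree) (G k), by omega,
    fun k => hmz_isHomogeneous _ _ _, ?_, ?_⟩
  all_goals
    have key : ∀ k ∈ Finset.range (q.natDegree + 1),
        aeval f (hmz 0 (1 + ∑ k ∈ Finset.range (q.natDegree + 1), (G k).totalDegree) (G k)) =
          f 0 ^ (1 + ∑ k ∈ Finset.range (q.natDegree + 1), (G k).totalDegree) *
            ((q.coeff k : Algebra.adjoin ℂ (Set.range fun i => f i / f 0)) : K) := by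
      intro k hk
      rw [← hG k]
      have h1 : (G k).totalDegree ≤ 1 + ∑ k ∈ Finset.range (q.natDegree + 1), (G k).totalDegree := by
        have := Finset.single_le_sum (f := fun k => (G k).totalDegree)
          (fun i _ => Nat.zero_le _) hk
        exact le_trans this (Nat.le_add_left _ _)
      exact eval₂_hmz (algebraMap ℂ K) h1 hf
  · rw [key 0 (by simp)]
    apply mul_ne_zero (pow_ne_zero _ hf)
    intro h
    exact hq (Subtype.ext h)
  · rw [Finset.sum_congr rfl fun k hk => by rw [key k hk, mul_assoc], ← Finset.mul_sum]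
    have h2 : ∑ k ∈ Finset.range (q.natDegree + 1),
        ((q.coeff k : Algebra.adjoin ℂ (Set.range fun i => f i / f 0)) : K) * ξ ^ k = 0 := by
      rw [← hq0, Polynomial.aeval_eq_sum_range]
      refine Finset.sum_congr rfl fun k _ => ?_
      rw [Algebra.smul_def]
      rfl
    rw [h2, mul_zero]

variable {N : ℕ} (P : Ideal (MvPolynomial (Fin (N + 1)) ℂ)) [P.IsPrime]

private theorem X_coordFun_ne {l : Fin (N + 1)} (h : coordFun P l ≠ 0) : X l ∉ P := by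
  intro hX
  apply h
  rw [coordFun, Ideal.Quotient.eq_zero_iff_mem.2 hX, map_zero]

private theorem X_coordFun_ne' {l : Fin (N + 1)} (h : X l ∉ P) : coordFun P l ≠ 0 := by
  intro h0
  apply h
  rw [coordFun] at h0
  have h10 : Ideal.Quotient.mk P (X l) = 0 :=
    (IsFractionRing.injective (MvPolynomial (Fin (N + 1)) ℂ ⧸ P)
      (FractionRing (MvPolynomial (Fin (N + 1)) ℂ ⧸ P))) (by rw [h0, map_zero])
  exact Ideal.Quotient.eq_zero_iff_mem.1 h10

theorem exists_good_coordinate {k : ℕ} (z : Fin (k + 1) → FunField P) (hz : IsTranscendenceBasis ℂ z)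
    {n : ℕ} (D : PrimeDivisorOver (FunField P) n) :
    ∃ l, X l ∉ P ∧ ∀ i, 0 ≤ D.ord (ratio P i l) := by
  obtain ⟨x, hx0, -, -, -, hx5, hx6⟩ := exists_point P z hz
  obtain ⟨l, hl⟩ := Finite.exists_min fun l => D.ord (x l)
  obtain ⟨i₀, hi₀⟩ : ∃ i, x i ≠ 0 := by
    by_contra hcon
    push Not at hcon
    exact hx0 (funext hcon)
  have hl1 : D.ord (x l) ≠ ⊤ := by
    intro h
    have h1 := hl i₀
    rw [h, top_le_iff] at h1
    exact hi₀ (D.ord.top_iff.1 h1)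
  have hl2 : x l ≠ 0 := by
    intro h
    exact hl1 (by rw [h]; exact D.ord.map_zero)
  refine ⟨l, X_coordFun_ne P fun h => hl2 ((hx5 l).2 h), fun i => ?_⟩
  rw [← hx6]
  have h2 : x i = x i / x l * x l := by field_simp
  have h3 : D.ord (x l) ≤ D.ord (x i) := hl i
  rw [h2, D.ord.map_mul] at h3
  obtain ⟨c, hc⟩ := WithTop.ne_top_iff_exists.1 hl1
  rw [← hc] at h3
  rcases h4 : D.ord (x i / x l) with _ | b
  · exact le_top
  · rw [h4] at h3
    have h5 : (c : WithTop ℤ) ≤ ((b + c : ℤ) : WithTop ℤ) := h3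
    have h6 : c ≤ b + c := WithTop.coe_le_coe.1 h5
    have h7 : 0 ≤ b := by omega
    exact WithTop.coe_le_coe.2 h7

private theorem X_ord_aeval {K : Type} [Field K] [Algebra ℂ K] {n s : ℕ} (D : PrimeDivisorOver K n)
    (y : Fin s → K) (hy : ∀ i, 0 ≤ D.ord (y i)) (Q : MvPolynomial (Fin s) ℂ) :
    0 ≤ D.ord (aeval y Q) := by
  induction Q using MvPolynomial.induction_on with
  | C a =>
    rw [aeval_C]
    exact D.ord_const a
  | add p q hp hq =>
    rw [map_add]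
    exact D.ord.map_le_add hp hq
  | mul_X p i hp =>
    rw [map_mul, aeval_X, D.ord.map_mul]
    exact add_nonneg hp (hy i)

private theorem X_ord_prod {K : Type} [Field K] [Algebra ℂ K] {n : ℕ} (D : PrimeDivisorOver K n)
    {ι : Type} (S : Finset ι) (y : ι → K) (hy : ∀ i ∈ S, 0 ≤ D.ord (y i)) :
    0 ≤ D.ord (∏ i ∈ S, y i) := by
  classical
  induction S using Finset.induction_on with
  | empty => rw [Finset.prod_empty, D.ord.map_one]
  | insert a S ha ih =>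
    rw [Finset.prod_insert ha, D.ord.map_mul]
    exact add_nonneg (hy a (Finset.mem_insert_self _ _))
      (ih fun i hi => hy i (Finset.mem_insert_of_mem hi))

private theorem X_solve {K : Type} [Field K] {n : ℕ} {A : ℕ → K} {ξ : K} (c : K)
    (h : ∑ j ∈ Finset.range (n + 1), A j * ξ ^ j = 0) :
    c * A 0 = ξ * (-∑ j ∈ Finset.range n, c * A (j + 1) * ξ ^ j) := by
  rw [Finset.sum_range_succ', pow_zero, mul_one] at h
  have h7 : A 0 = -∑ j ∈ Finset.range n, A (j + 1) * ξ ^ (j + 1) := by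
    linear_combination h
  rw [h7, mul_neg, mul_neg, Finset.mul_sum, Finset.mul_sum]
  congr 1
  refine Finset.sum_congr rfl fun j _ => ?_
  ring

/-- Kodaira's lemma. -/
theorem kodaira {k : ℕ} (z : Fin (k + 1) → FunField P) (hz : IsTranscendenceBasis ℂ z) {n : ℕ}
    (hgt : IsLogGeneralType (K := FunField P) (k := n) fun _ => False) :
    ∃ ω : Form (FunField P) n, ω ≠ 0 ∧ ∃ (M : ℕ) (H : FunField P) (o : Fin (N + 1)), 1 ≤ M ∧ H ≠ 0 ∧
      X o ∉ P ∧ ∀ l, X l ∉ P → ∀ D : PrimeDivisorOver (FunField P) n,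
        PoleAtMost 0 D M (H * ratio P l o) ω := by
  classical
  obtain ⟨m, hm, ω, hω, r, f, hf, hpole, halg⟩ := hgt
  obtain ⟨x, hx0, -, -, -, hx5, hx6⟩ := exists_point P z hz
  obtain ⟨o, ho⟩ : ∃ i, x i ≠ 0 := by
    by_contra hcon
    push Not at hcon
    exact hx0 (funext hcon)
  have hoP : X o ∉ P := X_coordFun_ne P fun h => ho ((hx5 o).2 h)
  have hx7 : ∀ l, X l ∉ P → x l ≠ 0 := fun l hl h => X_coordFun_ne' P hl ((hx5 l).1 h)
  have hξ : ∀ l, X l ∉ P → ratio P o l ≠ 0 := by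
    intro l hl
    rw [← hx6]
    exact div_ne_zero ho (hx7 l hl)
  have hex : ∀ l : Fin (N + 1), ∃ (D n : ℕ) (a : ℕ → MvPolynomial (Fin (r + 1)) ℂ),
      (∀ k, (a k).IsHomogeneous D) ∧ aeval f (a 0) ≠ 0 ∧ (X l ∉ P → 1 ≤ D ∧
        ∑ k ∈ Finset.range (n + 1), aeval f (a k) * ratio P o l ^ k = 0) := by
    intro l
    by_cases hl : X l ∈ P
    · refine ⟨0, 0, fun _ => 1, fun _ => isHomogeneous_one _ _, ?_, fun h => absurd hl h⟩
      rw [map_one]
      exact one_ne_zero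
    · obtain ⟨D, n, a, h1, h2, h3, h4⟩ := exists_relation hf (hξ l hl)
        (halg.isAlgebraic (ratio P o l))
      exact ⟨D, n, a, h2, h3, fun _ => ⟨h1, h4⟩⟩
  choose d nn a ha ha0 hrel using hex
  refine ⟨ω, hω, m * ∑ l, d l, ∏ l, aeval f (a l 0), o, ?_, ?_, hoP, ?_⟩
  · have h1 : 1 ≤ d o := (hrel o hoP).1
    have h2 : d o ≤ ∑ l, d l := Finset.single_le_sum (f := d) (fun i _ => Nat.zero_le _)
      (Finset.mem_univ o)
    exact Nat.mul_pos hm (by omega)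
  · exact Finset.prod_ne_zero_iff.2 fun l _ => ha0 l
  · intro l' hl' D
    have h1 : ∀ i, ∃ (g : FunField P) (η : Form (FunField P) n), η ∈ regularForms n D.localRing ∧
        ω = g • η ∧ 0 ≤ D.ord (f i * g ^ m) := by
      intro i
      obtain ⟨g, η, h2, h3, h4⟩ := (hpole i D).1 (fun h => h)
      refine ⟨g, η, h2, h3, ?_⟩
      rw [Nat.cast_zero, add_zero] at h4
      exact h4
    choose g η hη hωg hord using h1
    obtain ⟨i₀, hi₀⟩ := Finite.exists_max fun i => D.ord (g i)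
    have h2 : ∀ i, 0 ≤ D.ord (g i₀ ^ m * f i) := by
      intro i
      refine le_trans (hord i) ?_
      rw [D.ord.map_mul, D.ord.map_mul, D.ord.map_pow, D.ord.map_pow, add_comm]
      gcongr
      exact hi₀ i
    have h3 : ∀ l j, 0 ≤ D.ord (g i₀ ^ (m * d l) * aeval f (a l j)) := by
      intro l j
      have h4 := eval₂_of_isHomogeneous (algebraMap ℂ (FunField P)) (ha l j) (g i₀ ^ m) f
      rw [pow_mul]
      have h5 := X_ord_aeval D (fun i => g i₀ ^ m * f i) h2 (a l j)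
      rw [aeval_def, h4] at h5
      exact h5
    obtain ⟨l, hlP, hl⟩ := exists_good_coordinate P z hz D
    have h4 : D.ord (ratio P o l) ≤ D.ord (g i₀ ^ (m * d l) * aeval f (a l 0)) := by
      have h6 := X_solve (g i₀ ^ (m * d l)) (hrel l hlP).2
      rw [h6, D.ord.map_mul]
      refine le_add_of_nonneg_right ?_
      rw [D.ord.map_neg]
      refine D.ord.map_le_sum fun j _ => ?_
      rw [D.ord.map_mul, D.ord.map_pow]
      exact add_nonneg (h3 l (j + 1)) (nsmul_nonneg (hl o) j)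
    have h5 : D.ord (ratio P o l) ≤ D.ord (g i₀ ^ (m * ∑ l, d l) * ∏ l, aeval f (a l 0)) := by
      have h6 : g i₀ ^ (m * ∑ l, d l) * ∏ l, aeval f (a l 0) =
          ∏ l, (g i₀ ^ (m * d l) * aeval f (a l 0)) := by
        rw [Finset.prod_mul_distrib, Finset.prod_pow_eq_pow_sum, Finset.mul_sum]
      rw [h6, ← Finset.mul_prod_erase _ _ (Finset.mem_univ l), D.ord.map_mul]
      exact le_add_of_le_of_nonneg h4 (X_ord_prod D _ _ fun i _ => h3 i 0)
    refine ⟨g i₀, η i₀, hη i₀, hωg i₀, ?_⟩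
    rw [Nat.cast_zero, add_zero]
    have h6 : (∏ l, aeval f (a l 0)) * ratio P l' o * g i₀ ^ (m * ∑ l, d l) =
        (g i₀ ^ (m * ∑ l, d l) * ∏ l, aeval f (a l 0)) * ratio P l' o := by ring
    rw [h6, D.ord.map_mul]
    have h7 : ratio P o l * ratio P l' o = ratio P l' l := by
      rw [← hx6, ← hx6, ← hx6]
      have := hx7 l hlP
      field_simp
    calc (0 : WithTop ℤ) ≤ D.ord (ratio P l' l) := hl l'
      _ = D.ord (ratio P o l) + D.ord (ratio P l' o) := by rw [← h7, D.ord.map_mul]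
      _ ≤ _ := by gcongr

end Pool.Agent.H68.KR

end
end

section

/-!
# MQ3 FrE: three linear forms in general position

`GA`: at `x` the forms `om l 1`, `om l 2` are independent on the tangent space; `GB`: the kernel of `om l 1` is not a null direction of `θ`.  If `θ` is not
zero on a dense subset, then for some `l` the points with `GA` and `GB` are dense.
-/

set_option autoImplicit false

open Topology Filter Metric

noncomputable section

namespace Pool.Agent.MQ3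

open Pool.Agent.H36.BP (EN)
open Pool.Agent.H14.PP (Tan)
open Pool.Agent.H17BP (Surface IsChart LocalEq)
open Pool.Agent.E1 (ResL_tan ResL_span ResL_indep ResX_family)

variable {N : ℕ} {X : Set (EN N)} {m : ℕ}

/-! ### scaling -/

theorem tan_smul_iff (hX : ∀ x ∈ X, ∀ c : ℂ, c ≠ 0 → c • x ∈ X) {x v : EN N} {c : ℂ} (hc : c ≠ 0) : Tan X (c • x) (c • v) ↔ Tan X x v := by
  refine ⟨fun h => ?_, fun h => tan_smul hX h hc⟩
  have := tan_smul hX h (inv_ne_zero hc)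
  rwa [smul_smul, smul_smul, inv_mul_cancel₀ hc, one_smul, one_smul] at this

theorem ga_smul (hX : ∀ x ∈ X, ∀ c : ℂ, c ≠ 0 → c • x ∈ X) {l : LF N} {x : EN N} (h : GA X l x) {c : ℂ} (hc : c ≠ 0) : GA X l (c • x) := by
  intro v hv h1 h2
  have e : v = c • (c⁻¹ • v) := by rw [smul_smul, mul_inv_cancel₀ hc, one_smul]
  rw [e] at hv h1 h2
  rw [om_smul_smul] at h1 h2
  have hc2 : c ^ 2 ≠ 0 := pow_ne_zero 2 hc
  obtain ⟨a, ha⟩ := h _ ((tan_smul_iff hX hc).1 hv) ((mul_eq_zero.1 h1).resolve_left hc2) ((mul_eq_zero.1 h2).resolve_left hc2)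
  exact ⟨a, by rw [e, ha, smul_comm]⟩

theorem gb_smul (hX : ∀ x ∈ X, ∀ c : ℂ, c ≠ 0 → c • x ∈ X) {θ : WDiff X m} {l : LF N} {x : EN N} (h : GB θ l x) {c : ℂ} (hc : c ≠ 0) :
    GB θ l (c • x) := by
  intro v hv h1 h2
  have e : v = c • (c⁻¹ • v) := by rw [smul_smul, mul_inv_cancel₀ hc, one_smul]
  rw [e] at hv h1 h2
  have hv' := (tan_smul_iff hX hc).1 hv
  rw [om_smul_smul] at h1
  rw [θ.scale_eq_zero hv' hc] at h2
  have hc2 : c ^ 2 ≠ 0 := pow_ne_zero 2 hc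
  obtain ⟨a, ha⟩ := h _ hv' ((mul_eq_zero.1 h1).resolve_left hc2) h2
  exact ⟨a, by rw [e, ha, smul_comm]⟩

/-! ### in a chart -/

/-- the product of the two determinants -/
def ph (θ : WDiff X m) (l : LF N) (σ : ℂ × ℂ → EN N) (p : ℂ × ℂ) : ℂ := dl l σ p * θ.toFun (σ p) (fderiv ℂ σ p (v₂ l σ p))

theorem gab_chart (hm : 1 ≤ m) {θ : WDiff X m} {l : LF N} {σ : ℂ × ℂ → EN N} {p : ℂ × ℂ} (hT : ∀ v, Tan X (σ p) (fderiv ℂ σ p v))
    (hsp : ∀ w, Tan X (σ p) w → ∃ (v : ℂ × ℂ) (a : ℂ), w = fderiv ℂ σ p v + a • σ p) (hin : ∀ (v : ℂ × ℂ) (a : ℂ), fderiv ℂ σ p v = a • σ p → v = 0) :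
    (GA X l (σ p) ∧ GB θ l (σ p)) ↔ ph θ l σ p ≠ 0 := by
  rw [ph, mul_ne_zero_iff]
  constructor
  · rintro ⟨h1, h2⟩
    have h3 := (ga_chart hT hsp hin).1 h1
    exact ⟨h3, (gb_chart hm hT hsp hin h3).1 h2⟩
  · rintro ⟨h1, h2⟩
    exact ⟨(ga_chart hT hsp hin).2 h1, (gb_chart hm hT hsp hin h1).2 h2⟩

/-! ### linear forms with given values -/

theorem exists_form {x w₁ w₂ : EN N} (h : LinearIndependent ℂ ![x, w₁, w₂]) (a b c : ℂ) : ∃ f : EN N →L[ℂ] ℂ, f x = a ∧ f w₁ = b ∧ f w₂ = c := by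
  classical
  let g : (Fin 3 → ℂ) →ₗ[ℂ] EN N := Fintype.linearCombination ℂ ![x, w₁, w₂]
  have hg : LinearMap.ker g = ⊥ := LinearMap.ker_eq_bot.2 (linearIndependent_iff_injective_fintypeLinearCombination.1 h)
  obtain ⟨r, hr⟩ := g.exists_leftInverse_of_injective hg
  let k : (Fin 3 → ℂ) →ₗ[ℂ] ℂ := Fintype.linearCombination ℂ ![a, b, c]
  have hv : ∀ i, k (r (![x, w₁, w₂] i)) = ![a, b, c] i := by
    intro i
    have h1 : g (Pi.single i 1) = ![x, w₁, w₂] i := by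
      simp [g, Fintype.linearCombination_apply, Pi.single_apply]
    have h2 : r (![x, w₁, w₂] i) = Pi.single i 1 := by
      rw [← h1]
      exact congrArg (fun f : (Fin 3 → ℂ) →ₗ[ℂ] (Fin 3 → ℂ) => f (Pi.single i 1)) hr
    rw [h2]
    simp [k, Fintype.linearCombination_apply, Pi.single_apply]
  refine ⟨LinearMap.toContinuousLinearMap (k ∘ₗ r), ?_, ?_, ?_⟩
  · exact hv 0
  · exact hv 1
  · exact hv 2

/-- forms in general position with respect to one point -/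
theorem exists_lf {x w₁ w₂ : EN N} (h : LinearIndependent ℂ ![x, w₁, w₂]) {u : ℂ × ℂ} (hu : u ≠ 0) :
    ∃ l : LF N, (-om l 1 x w₂, om l 1 x w₁) = u ∧ om l 1 x w₁ * om l 2 x w₂ - om l 2 x w₁ * om l 1 x w₂ ≠ 0 := by
  obtain ⟨f₀, h0, h0', h0''⟩ := exists_form h 1 0 0
  obtain ⟨f₁, h1, h1', h1''⟩ := exists_form h 0 u.2 (-u.1)
  obtain ⟨f₂, h2, h2', h2''⟩ := exists_form h 0 ((starRingEnd ℂ) u.1) ((starRingEnd ℂ) u.2)
  refine ⟨![f₀, f₁, f₂], ?_, ?_⟩
  · simp only [om, Matrix.cons_val_zero, Matrix.cons_val_one, h0, h0', h0'', h1, h1', h1'']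
    ext <;> simp
  · simp only [om, Matrix.cons_val_zero, Matrix.cons_val_one, Matrix.cons_val, h0, h0', h0'', h1, h1', h1'', h2, h2', h2'']
    intro h3
    apply hu
    have h4 : ((‖u.1‖ ^ 2 + ‖u.2‖ ^ 2 : ℝ) : ℂ) = 0 := by
      have e1 : ((‖u.1‖ ^ 2 : ℝ) : ℂ) = u.1 * (starRingEnd ℂ) u.1 := by
        rw [Complex.mul_conj, Complex.normSq_eq_norm_sq]
      have e2 : ((‖u.2‖ ^ 2 : ℝ) : ℂ) = u.2 * (starRingEnd ℂ) u.2 := by
        rw [Complex.mul_conj, Complex.normSq_eq_norm_sq]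
      rw [Complex.ofReal_add, e1, e2]
      linear_combination h3
    have h5 : ‖u.1‖ ^ 2 + ‖u.2‖ ^ 2 = 0 := by exact_mod_cast h4
    have h6 : ‖u.1‖ = 0 := by nlinarith [sq_nonneg ‖u.1‖, sq_nonneg ‖u.2‖, norm_nonneg u.1]
    have h7 : ‖u.2‖ = 0 := by nlinarith [sq_nonneg ‖u.1‖, sq_nonneg ‖u.2‖, norm_nonneg u.2]
    exact Prod.ext (norm_eq_zero.1 h6) (norm_eq_zero.1 h7)

/-- the forms which are in general position with respect to one point are an open dense set -/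
theorem open_dense_lf {x w₁ w₂ : EN N} (h : LinearIndependent ℂ ![x, w₁, w₂]) {c : ℕ → ℂ} {u : ℂ × ℂ} (hu : u ≠ 0)
    (hcu : ∑ k ∈ Finset.range (m + 1), c k * u.1 ^ k * u.2 ^ (m - k) ≠ 0) :
    IsOpen {l : LF N | (om l 1 x w₁ * om l 2 x w₂ - om l 2 x w₁ * om l 1 x w₂) *
      ∑ k ∈ Finset.range (m + 1), c k * (-om l 1 x w₂) ^ k * (om l 1 x w₁) ^ (m - k) ≠ 0} ∧
    Dense {l : LF N | (om l 1 x w₁ * om l 2 x w₂ - om l 2 x w₁ * om l 1 x w₂) *
      ∑ k ∈ Finset.range (m + 1), c k * (-om l 1 x w₂) ^ k * (om l 1 x w₁) ^ (m - k) ≠ 0} := by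
  set Φ : LF N → ℂ := fun l => (om l 1 x w₁ * om l 2 x w₂ - om l 2 x w₁ * om l 1 x w₂) *
      ∑ k ∈ Finset.range (m + 1), c k * (-om l 1 x w₂) ^ k * (om l 1 x w₁) ^ (m - k) with hΦ
  have hev : ∀ (i : Fin 3) (y : EN N), Differentiable ℂ fun l : LF N => l i y := by
    intro i y
    have h1 : (fun l : LF N => l i y) = fun l => (ContinuousLinearMap.apply ℂ ℂ y) ((ContinuousLinearMap.proj i : LF N →L[ℂ] _) l) := by
      funext l
      simp
    rw [h1]
    exact ((ContinuousLinearMap.apply ℂ ℂ y).comp (ContinuousLinearMap.proj i : LF N →L[ℂ] _)).differentiable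
  have hom : ∀ (i : Fin 3) (y : EN N), Differentiable ℂ fun l : LF N => om l i x y := fun i y =>
    ((hev 0 x).mul (hev i y)).sub ((hev i x).mul (hev 0 y))
  have hd : Differentiable ℂ Φ := by
    refine (((hom 1 w₁).mul (hom 2 w₂)).sub ((hom 2 w₁).mul (hom 1 w₂))).mul ?_
    refine Differentiable.fun_sum fun k _ => ?_
    exact ((differentiable_const _).mul ((hom 1 w₂).neg.pow k)).mul ((hom 1 w₁).pow (m - k))
  refine ⟨isOpen_ne_fun hd.continuous continuous_const, ?_⟩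
  obtain ⟨l', h1, h2⟩ := exists_lf h hu
  have hl' : Φ l' ≠ 0 := by
    refine mul_ne_zero h2 ?_
    have e1 : -om l' 1 x w₂ = u.1 := congrArg Prod.fst h1
    have e2 : om l' 1 x w₁ = u.2 := congrArg Prod.snd h1
    rw [e1, e2]
    exact hcu
  intro l
  rw [mem_closure_iff_frequently]
  -- along the line to `l'`
  have hline : Differentiable ℂ fun s : ℂ => Φ (l + s • (l' - l)) := by
    refine hd.comp ((differentiable_const l).add ?_)
    have h3 := (ContinuousLinearMap.toSpanSingleton ℂ (l' - l)).differentiable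
    exact h3
  have hfr : ∃ᶠ s in 𝓝 (0 : ℂ), Φ (l + s • (l' - l)) ≠ 0 := by
    intro hcon
    have h3 : ∀ᶠ s in 𝓝 (0 : ℂ), Φ (l + s • (l' - l)) = 0 := by
      filter_upwards [hcon] with s hs using not_not.1 hs
    have h4 : (fun s : ℂ => Φ (l + s • (l' - l))) = 0 :=
      AnalyticOnNhd.eq_of_eventuallyEq (𝕜 := ℂ) (z₀ := (0 : ℂ)) (fun s _ => (hline.analyticAt s)) (fun s _ => analyticAt_const) h3
    have h5 := congrFun h4 1
    simp only [one_smul, Pi.zero_apply] at h5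
    apply hl'
    rwa [add_sub_cancel] at h5
  have ht : Tendsto (fun s : ℂ => l + s • (l' - l)) (𝓝 0) (𝓝 l) := by
    have h3 : Continuous fun s : ℂ => l + s • (l' - l) := by fun_prop
    have := h3.tendsto 0
    have e : l + (0 : ℂ) • (l' - l) = l := by
      funext i
      ext y
      simp
    rwa [e] at this
  exact ht.frequently hfr

/-! ### the existence of the linear forms -/

/-- the data of a chart on a ball -/
private theorem FrE_ball (θ : WDiff X m) {σ : ℂ × ℂ → EN N} {τ : EN N → ℂ × ℂ} (hσ : IsChart X σ τ) :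
    ∃ (c : ℕ → ℂ × ℂ → ℂ) (r : ℝ), 0 < r ∧ ∀ p ∈ ball (0 : ℂ × ℂ) r, AnalyticAt ℂ σ p ∧ (∀ᶠ q in 𝓝 p, σ q ∈ X) ∧
      (∀ w, Tan X (σ p) w → ∃ (v : ℂ × ℂ) (a : ℂ), w = fderiv ℂ σ p v + a • σ p) ∧ (∀ (v : ℂ × ℂ) (a : ℂ), fderiv ℂ σ p v = a • σ p → v = 0) ∧
      σ p ≠ 0 ∧ (∀ k ∈ Finset.range (m + 1), AnalyticAt ℂ (c k) p) ∧
      ∀ v : ℂ × ℂ, θ.toFun (σ p) (fderiv ℂ σ p v) = ∑ k ∈ Finset.range (m + 1), c k p * v.1 ^ k * v.2 ^ (m - k) := by
  obtain ⟨c, hc, hc'⟩ := exists_form_coef θ hσ.σ_an hσ.σ_mem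
  have h1 : ∀ᶠ p in 𝓝 (0 : ℂ × ℂ), ∀ k ∈ Finset.range (m + 1), AnalyticAt ℂ (c k) p :=
    (Finset.eventually_all _).2 fun k _ => (hc k).eventually_analyticAt
  have h2 : ∀ᶠ p in 𝓝 (0 : ℂ × ℂ), σ p ≠ 0 := hσ.σ_an.continuousAt.eventually_ne hσ.ne
  obtain ⟨r, hr, h⟩ := Metric.eventually_nhds_iff_ball.1 (hσ.σ_an.eventually_analyticAt.and ((eventually_eventually_nhds.2 hσ.σ_mem).and
    ((ResL_span hσ).and ((ResL_indep hσ).and (h2.and (h1.and hc'))))))
  exact ⟨c, r, hr, h⟩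

private theorem FrE_indep {σ : ℂ × ℂ → EN N} {p : ℂ × ℂ} (h0 : σ p ≠ 0) (hin : ∀ (v : ℂ × ℂ) (a : ℂ), fderiv ℂ σ p v = a • σ p → v = 0) :
    LinearIndependent ℂ ![σ p, fderiv ℂ σ p (1, 0), fderiv ℂ σ p (0, 1)] := by
  rw [Fintype.linearIndependent_iff]
  intro g hg
  rw [Fin.sum_univ_three] at hg
  simp only [Matrix.cons_val_zero, Matrix.cons_val_one, Matrix.cons_val] at hg
  have h1 : fderiv ℂ σ p (g 1, g 2) = (-g 0) • σ p := by
    have e : ((g 1, g 2) : ℂ × ℂ) = g 1 • ((1 : ℂ), (0 : ℂ)) + g 2 • ((0 : ℂ), (1 : ℂ)) := by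
      ext <;> simp
    rw [e, map_add, map_smul, map_smul, neg_smul, eq_neg_iff_add_eq_zero]
    rw [← hg]
    abel
  have h2 := hin _ _ h1
  have h3 : g 1 = 0 := congrArg Prod.fst h2
  have h4 : g 2 = 0 := congrArg Prod.snd h2
  rw [h3, h4, zero_smul, zero_smul, add_zero, add_zero] at hg
  have h5 : g 0 = 0 := (smul_eq_zero.1 hg).resolve_right h0
  intro i
  fin_cases i
  · exact h5
  · exact h3
  · exact h4

private theorem FrE_near (hX : Surface X) (hm : 1 ≤ m) (θ : WDiff X m) (hd : X ⊆ closure {x | x ∈ X ∧ ∃ v, Tan X x v ∧ θ.toFun x v ≠ 0}) {x : EN N}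
    (hx : x ∈ X) : ∃ O : Set (LF N), IsOpen O ∧ Dense O ∧ ∀ᶠ y in 𝓝 x, ∀ l ∈ O, y ∈ X → y ∈ closure {x | x ∈ X ∧ GA X l x ∧ GB θ l x} := by
  obtain ⟨σ, τ, hσ, hσ0⟩ := hX.chart x hx
  obtain ⟨c, r, hr, H⟩ := FrE_ball θ hσ
  have hτ0 : τ (σ 0) = 0 := hσ.left.self_of_nhds
  have hτ : Tendsto τ (𝓝 (σ 0)) (𝓝 0) := by
    have h1 := hσ.τ_an.continuousAt.tendsto
    rwa [hτ0] at h1
  have hball : ∀ᶠ y in 𝓝 (σ 0), τ y ∈ ball (0 : ℂ × ℂ) r := hτ.eventually (ball_mem_nhds 0 hr)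
  -- a point where `θ` is not zero
  obtain ⟨p₀, hp₀, u, hu⟩ : ∃ p ∈ ball (0 : ℂ × ℂ) r, ∃ u : ℂ × ℂ, θ.toFun (σ p) (fderiv ℂ σ p u) ≠ 0 := by
    have h1 : σ 0 ∈ closure {x | x ∈ X ∧ ∃ v, Tan X x v ∧ θ.toFun x v ≠ 0} := by
      rw [hσ0]
      exact hd hx
    obtain ⟨y, ⟨hyX, v, hv, hv0⟩, hyb, hyr⟩ := ((mem_closure_iff_frequently.1 h1).and_eventually (hball.and hσ.right)).exists
    obtain ⟨a, ha, hya⟩ := hyr hyX
    have e : v = a • (a⁻¹ • v) := by rw [smul_smul, mul_inv_cancel₀ ha, one_smul]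
    have hv' : Tan X (σ (τ y)) (a⁻¹ • v) := by
      rw [hya, e] at hv
      exact (tan_smul_iff hX.smul ha).1 hv
    obtain ⟨u, b, hub⟩ := (H _ hyb).2.2.1 _ hv'
    refine ⟨τ y, hyb, u, ?_⟩
    intro h0
    apply hv0
    rw [hya, e, θ.scale_eq_zero hv' ha, hub, θ.add_smul _ _ (ResL_tan (H _ hyb).1 (H _ hyb).2.1 u), h0]
  have Hp₀ := H p₀ hp₀
  have hu0 : u ≠ 0 := by
    rintro rfl
    apply hu
    have h1 := θ.smul _ _ (ResL_tan Hp₀.1 Hp₀.2.1 (0 : ℂ × ℂ)) 0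
    rw [map_zero, smul_zero, zero_pow (by omega), zero_mul] at h1
    rw [map_zero, h1]
  have hind := FrE_indep Hp₀.2.2.2.2.1 Hp₀.2.2.2.1
  rw [Hp₀.2.2.2.2.2.2 u] at hu
  obtain ⟨hO, hD⟩ := open_dense_lf (m := m) hind hu0 hu
  refine ⟨_, hO, hD, ?_⟩
  rw [← hσ0]
  filter_upwards [hball, hσ.right] with y hyb hyr l hl hyX
  -- the analytic function on the ball
  set Φ : ℂ × ℂ → ℂ := fun q => dl l σ q * ∑ k ∈ Finset.range (m + 1), c k q * (v₂ l σ q).1 ^ k * (v₂ l σ q).2 ^ (m - k) with hΦ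
  have hΦa : AnalyticOnNhd ℂ Φ (ball 0 r) := by
    intro q hq
    have Hq := H q hq
    refine (analyticAt_dl l Hq.1).mul (Finset.analyticAt_fun_sum _ fun k hk => ?_)
    exact ((Hq.2.2.2.2.2.1 k hk).mul ((analyticAt_cb l 1 Hq.1).neg.pow k)).mul ((analyticAt_ca l 1 Hq.1).pow (m - k))
  have hΦph : ∀ q ∈ ball (0 : ℂ × ℂ) r, Φ q = ph θ l σ q := by
    intro q hq
    rw [hΦ, ph, (H q hq).2.2.2.2.2.2 (v₂ l σ q)]
  have hfr : ∃ᶠ q in 𝓝 (τ y), Φ q ≠ 0 := by
    intro hcon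
    have h3 : ∀ᶠ q in 𝓝 (τ y), Φ q = 0 := by
      filter_upwards [hcon] with q hq using not_not.1 hq
    have h4 := hΦa.eqOn_zero_of_preconnected_of_eventuallyEq_zero (convex_ball (0 : ℂ × ℂ) r).isPreconnected hyb h3
    exact hl (h4 hp₀)
  obtain ⟨a, ha, hya⟩ := hyr hyX
  have ht : Tendsto (fun q => a • σ q) (𝓝 (τ y)) (𝓝 y) := by
    have h3 : Tendsto (fun q => a • σ q) (𝓝 (τ y)) (𝓝 (a • σ (τ y))) := ((H _ hyb).1.continuousAt.tendsto).const_smul a
    rwa [← hya] at h3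
  rw [mem_closure_iff_frequently]
  refine ht.frequently (p := fun z => z ∈ X ∧ GA X l z ∧ GB θ l z) ?_
  refine (hfr.and_eventually (isOpen_ball.eventually_mem hyb)).mono ?_
  rintro q ⟨hq, hqb⟩
  have Hq := H q hqb
  rw [hΦph q hqb] at hq
  obtain ⟨g1, g2⟩ := (gab_chart hm (fun v => ResL_tan Hq.1 Hq.2.1 v) Hq.2.2.1 Hq.2.2.2.1).2 hq
  exact ⟨hX.smul _ Hq.2.1.self_of_nhds a ha, ga_smul hX.smul g1 ha, gb_smul hX.smul g2 ha⟩

/-- **Linear forms in general position.** -/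
theorem exists_frame (hX : Surface X) (hm : 1 ≤ m) (θ : WDiff X m) (hd : X ⊆ closure {x | x ∈ X ∧ ∃ v, Tan X x v ∧ θ.toFun x v ≠ 0}) :
    ∃ l : LF N, X ⊆ closure {x | x ∈ X ∧ GA X l x ∧ GB θ l x} := by
  have hK : IsCompact (X ∩ sphere (0 : EN N) 1) := by
    refine (isCompact_sphere (0 : EN N) 1).of_isClosed_subset ?_ Set.inter_subset_right
    refine isClosed_of_closure_subset fun x hx => ?_
    have h1 : x ∈ sphere (0 : EN N) 1 := by
      have h2 : closure (X ∩ sphere (0 : EN N) 1) ⊆ sphere (0 : EN N) 1 := closure_minimal Set.inter_subset_right isClosed_sphere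
      exact h2 hx
    have h3 : x ≠ 0 := by
      rintro rfl
      simp at h1
    exact ⟨hX.closed x (closure_mono Set.inter_subset_left hx) h3, h1⟩
  obtain ⟨O, hO, hD, h⟩ : ∃ O : Set (LF N), IsOpen O ∧ Dense O ∧ ∀ y ∈ X ∩ sphere (0 : EN N) 1, ∀ l ∈ O, y ∈ X →
      y ∈ closure {x | x ∈ X ∧ GA X l x ∧ GB θ l x} := by
    refine hK.induction_on (p := fun S : Set (EN N) => ∃ O : Set (LF N), IsOpen O ∧ Dense O ∧ ∀ y ∈ S, ∀ l ∈ O, y ∈ X →
      y ∈ closure {x | x ∈ X ∧ GA X l x ∧ GB θ l x}) ?_ ?_ ?_ ?_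
    · exact ⟨Set.univ, isOpen_univ, dense_univ, by simp⟩
    · rintro s t hst ⟨O, h1, h2, h3⟩
      exact ⟨O, h1, h2, fun y hy => h3 y (hst hy)⟩
    · rintro s t ⟨O, h1, h2, h3⟩ ⟨O', h1', h2', h3'⟩
      refine ⟨O ∩ O', h1.inter h1', h2.inter_of_isOpen_left h2' h1, ?_⟩
      rintro y (h | h) l ⟨hl, hl'⟩ hy
      · exact h3 y h l hl hy
      · exact h3' y h l hl' hy
    · rintro x ⟨hx, -⟩
      obtain ⟨O, h1, h2, h3⟩ := FrE_near hX hm θ hd hx
      exact ⟨_, mem_nhdsWithin_of_mem_nhds h3, O, h1, h2, fun y hy => hy⟩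
  obtain ⟨l, hl⟩ := hD.nonempty
  refine ⟨l, fun x hx => ?_⟩
  have hx0 : x ≠ 0 := by
    rintro rfl
    exact hX.zero hx
  have hn : (‖x‖ : ℂ) ≠ 0 := by
    simpa using hx0
  have h1 : (‖x‖ : ℂ)⁻¹ • x ∈ X := hX.smul x hx _ (inv_ne_zero hn)
  have h2 : (‖x‖ : ℂ)⁻¹ • x ∈ sphere (0 : EN N) 1 := by
    rw [mem_sphere_zero_iff_norm, norm_smul, norm_inv, Complex.norm_real, norm_norm]
    exact inv_mul_cancel₀ (norm_ne_zero_iff.2 hx0)
  have h3 := h _ ⟨h1, h2⟩ l hl h1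
  -- scale back
  have ht : Tendsto (fun y : EN N => (‖x‖ : ℂ) • y) (𝓝 ((‖x‖ : ℂ)⁻¹ • x)) (𝓝 x) := by
    have h4 : Continuous fun y : EN N => (‖x‖ : ℂ) • y := continuous_const_smul _
    have h5 := h4.tendsto ((‖x‖ : ℂ)⁻¹ • x)
    rwa [smul_smul, mul_inv_cancel₀ hn, one_smul] at h5
  rw [mem_closure_iff_frequently] at h3 ⊢
  refine ht.frequently (h3.mono ?_)
  rintro y ⟨hy, g1, g2⟩
  exact ⟨hX.smul y hy _ hn, ga_smul hX.smul g1 hn, gb_smul hX.smul g2 hn⟩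

end Pool.Agent.MQ3

end
end
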