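import Pool.Agent.H94.G6.M119
import Pool.Agent.H94.G6.M123
import Pool.Agent.H94.G6.M45
import Pool.Agent.H94.G6.M81

/-! The parts of this file: H14.KB.KobB, MQ2.SepF, MQ2.SingF, MQ2.StepW, MQ2.StepF, MQ3.AsmI. -/

section

/-!
# From the Brody bound to Kobayashi hyperbolicity
-/

open Filter Topology Metric

noncomputable section

namespace Pool.Agent.H14.KB

open Pool.Agent.H17 (PN HolomorphicInto puncturedDisc)
open Pool.Agent.H36.BP

variable {N : ℕ} {G : EN N → EN N → ℝ} {ρ : EN N → ℝ} {M : ℕ} {c₀ C : ℝ}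

/-- Kobayashi hyperbolicity modulo the exceptional set: all lifts of all discs -/
theorem kobayashi_of_bound {X Z : Set (PN N)} (hM : MetricData (coneOf X) (coneOf Z) G ρ M c₀ C)
    (hB : ∃ L : ℝ, 0 < L ∧ ∀ F, Curve (coneOf X) (ball 0 1) F → mt G F 0 ≤ L) :
    ∃ L : ℝ, 0 < L ∧ ∀ (f : ℂ → PN N) (F : ℂ → EN N), HolomorphicInto f (ball 0 1) → (∀ z ∈ ball (0 : ℂ) 1, f z ∈ X) →
      AnalyticAt ℂ F 0 → (∀ᶠ z in 𝓝 (0 : ℂ), ∃ h : (F z).ofLp ≠ 0, f z = Projectivization.mk ℂ _ h) →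
      ρ (F 0) ^ M * fs (F 0) (deriv F 0) ≤ L := by
  obtain ⟨L, hL, hLb⟩ := hB
  refine ⟨2 * L, by positivity, fun f F hf hfX hF hFf => ?_⟩
  obtain ⟨F₁, hF1d, hF1f⟩ := lift_disc hf (r := 1 / 2) (by norm_num) (by norm_num)
  have h0mem : (0 : ℂ) ∈ ball (0 : ℂ) (1 / 2) := mem_ball_self (by norm_num)
  have hF10 : F₁ 0 ≠ 0 := ne_zero_of_ofLp (hF1f 0 h0mem).choose
  have hF1a : AnalyticAt ℂ F₁ 0 := hF1d.analyticAt (isOpen_ball.mem_nhds h0mem)
  have hF1K : ∀ z ∈ ball (0 : ℂ) (1 / 2), F₁ z ∈ coneOf X := by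
    intro z hz
    obtain ⟨h1, h2⟩ := hF1f z hz
    exact ⟨h1, by rw [← h2]; exact hfX z (ball_subset_ball (by norm_num) hz)⟩
  -- the scaled curve
  have hcur : Curve (coneOf X) (ball 0 1) (fun z => F₁ (z / 2)) := by
    have hh : ∀ z ∈ ball (0 : ℂ) 1, z / 2 ∈ ball (0 : ℂ) (1 / 2) := by
      intro z hz
      rw [mem_ball_zero_iff] at hz ⊢
      rw [norm_div]
      simp only [Complex.norm_ofNat]
      linarith
    refine ⟨fun z hz => ?_, fun z hz => hF1K _ (hh z hz)⟩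
    have h1 : DifferentiableAt ℂ F₁ (z / 2) := hF1d.differentiableAt (isOpen_ball.mem_nhds (hh z hz))
    exact (h1.comp z (differentiableAt_id.div_const 2)).differentiableWithinAt
  have hb := hLb _ hcur
  have hdz : HasDerivAt (fun z : ℂ => z / 2) (1 / 2) 0 := by simpa using (hasDerivAt_id (0 : ℂ)).div_const 2
  have e1 : mt G (fun z => F₁ (z / 2)) 0 = ‖deriv (fun z : ℂ => z / 2) 0‖ * mt G F₁ ((fun z : ℂ => z / 2) 0) := by
    refine mt_comp hM (φ := fun z : ℂ => z / 2) ?_ hdz.differentiableAt ?_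
    · simpa using hF1a.differentiableAt
    · simpa using hF1K 0 h0mem
  rw [hdz.deriv] at e1
  simp only [zero_div] at e1
  have hn : ‖(1 / 2 : ℂ)‖ = 1 / 2 := by norm_num
  rw [hn] at e1
  rw [e1] at hb
  -- comparison of the lifts
  obtain ⟨j, hj⟩ : ∃ j, (F₁ 0) j ≠ 0 := by
    by_contra hcon
    push Not at hcon
    exact hF10 (by ext i; exact hcon i)
  have hc1 : AnalyticAt ℂ (fun w => F₁ w j) 0 := analyticAt_pi_iff.mp (analyticAt_ofLp hF1a) j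
  have hc2 : AnalyticAt ℂ (fun w => F w j) 0 := analyticAt_pi_iff.mp (analyticAt_ofLp hF) j
  set k : ℂ → ℂ := fun w => F w j / F₁ w j with hk
  have hka : AnalyticAt ℂ k 0 := hc2.div hc1 hj
  have hrel : ∀ᶠ w in 𝓝 (0 : ℂ), F w = k w • F₁ w ∧ k w ≠ 0 := by
    filter_upwards [hFf, isOpen_ball.mem_nhds h0mem, hc1.continuousAt.eventually_ne hj] with w h1 h2 h3
    obtain ⟨h4, h5⟩ := h1
    obtain ⟨h6, h7⟩ := hF1f w h2
    rw [h5, Projectivization.mk_eq_mk_iff'] at h7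
    obtain ⟨a, ha⟩ := h7
    have ha' : ∀ i, a * F₁ w i = F w i := fun i => congrFun ha i
    have hka' : k w = a := by
      rw [hk]
      simp only
      rw [← ha' j]
      field_simp
    refine ⟨?_, ?_⟩
    · rw [hka']
      ext i
      exact (ha' i).symm
    · rw [hka']
      rintro rfl
      apply h4
      funext i
      rw [← ha' i, zero_mul]
      rfl
  have hF0 : F 0 ∈ coneOf X := by
    obtain ⟨h1, h2⟩ := hFf.self_of_nhds
    exact ⟨h1, by rw [← h2]; exact hfX 0 (mem_ball_self one_pos)⟩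
  have e2 : mt G F 0 = Pool.Agent.H36.BP.mt G (fun w => k w • F₁ w) 0 := by
    have h1 : F =ᶠ[𝓝 0] fun w => k w • F₁ w := by
      filter_upwards [hrel] with w hw
      exact hw.1
    unfold Pool.Agent.H36.BP.mt
    rw [h1.deriv_eq, h1.self_of_nhds]
  rw [mt_smul hM hF1a.differentiableAt hka.differentiableAt (hF1K 0 h0mem) hrel.self_of_nhds.2] at e2
  have hlow := hM.lower (F 0) hF0 (deriv F 0)
  have : mt G F 0 ≤ 2 * L := by rw [e2]; linarith
  exact hlow.trans this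

end Pool.Agent.H14.KB

end
end

section

/-!
# MQ2 SepF: the formal weak separatrix of a saddle-node, and the axis
-/

set_option autoImplicit false

open Topology Filter Metric Asymptotics

noncomputable section

namespace Pool.Agent.MQ2

open Pool.Agent.MQ (jet)

namespace SepF

theorem nc_aux {f : ℂ → ℂ} : ¬ (fun t : ℂ => (t, f t)) =O[𝓝 0] fun t : ℂ => t ^ (1 + 1) := by
  intro h
  obtain ⟨C, hC⟩ := h.bound
  have h1 : ∀ᶠ t in 𝓝[≠] (0 : ℂ), (1 : ℝ) ≤ C * ‖t‖ := by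
    filter_upwards [hC.filter_mono nhdsWithin_le_nhds, self_mem_nhdsWithin] with t h2 h3
    have h4 : 0 < ‖t‖ := norm_pos_iff.2 h3
    have h5 : ‖t‖ ≤ C * ‖t ^ (1 + 1)‖ := (norm_fst_le (t, f t)).trans h2
    have h6 : ‖t‖ * 1 ≤ ‖t‖ * (C * ‖t‖) := by
      rw [norm_pow] at h5
      linarith [h5, show C * ‖t‖ ^ (1 + 1) = ‖t‖ * (C * ‖t‖) by ring]
    exact le_of_mul_le_mul_left h6 h4
  have h2 : Tendsto (fun t : ℂ => C * ‖t‖) (𝓝[≠] 0) (𝓝 0) := by
    have h3 : Continuous fun t : ℂ => C * ‖t‖ := by fun_prop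
    have h5 := h3.tendsto 0
    simp only [norm_zero, mul_zero] at h5
    exact h5.mono_left nhdsWithin_le_nhds
  have h4 : (1 : ℝ) ≤ 0 := ge_of_tendsto h2 h1
  linarith

theorem isBigO_zero_fst {f : ℂ → ℂ} {n : ℕ} (h : f =O[𝓝 0] fun t : ℂ => t ^ n) : (fun t => ((0 : ℂ), f t)) =O[𝓝 0] fun t : ℂ => t ^ n := by
  obtain ⟨C, hC⟩ := h.bound
  refine IsBigO.of_bound C (hC.mono fun t ht => ?_)
  have h1 : ‖((0 : ℂ), f t)‖ = ‖f t‖ := by
    rw [Prod.norm_def, norm_zero]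
    exact max_eq_right (norm_nonneg _)
  rw [h1]
  exact ht

end SepF

open SepF AC

set_option linter.unusedVariables false in
theorem sep_formal {k : ℕ} (hk : 1 ≤ k) {a b : ℂ × ℂ → ℂ} (ha : AnalyticAt ℂ a 0) (hb : AnalyticAt ℂ b 0) (hb0 : b 0 = 0)
    (hb1 : fderiv ℂ b 0 (0, 1) ≠ 0) {c : ℕ → ℂ} (hc : c 0 = 0)
    (hJ : ∀ J, (fun t => b (t, jet c J t) - deriv (jet c J) t * (t ^ (k + 1) * a (t, jet c J t))) =O[𝓝 0] fun t : ℂ => t ^ (J + 1)) :
    Sep (fun p => (p.1 ^ (k + 1) * a p, b p)) fun N t => (t, jet c N t) := by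
  have hd : ∀ N t, deriv (fun t : ℂ => (t, jet c N t)) t = (1, deriv (jet c N) t) := fun N t =>
    ((hasDerivAt_id t).prodMk (analytic_jet c N t).differentiableAt.hasDerivAt).deriv
  refine ⟨fun N => analyticAt_id.prod (analytic_jet c N 0), fun N => ?_, fun N => ?_, fun N => ?_, ⟨1, nc_aux⟩, fun R hR hne hz => ?_⟩
  · show ((0 : ℂ), jet c N 0) = 0
    rw [jet_zero hc]
    rfl
  · have h1 : (fun t : ℂ => (t, jet c (N + 1) t) - (t, jet c N t)) = fun t => ((0 : ℂ), c (N + 1) * t ^ (N + 1)) := by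
      funext t
      rw [Prod.mk_sub_mk, sub_self]
      have h2 : jet c (N + 1) t - jet c N t = c (N + 1) * t ^ (N + 1) := by
        unfold jet
        rw [Finset.sum_range_succ _ (N + 1)]
        ring
      rw [h2]
    show (fun t : ℂ => (t, jet c (N + 1) t) - (t, jet c N t)) =O[𝓝 0] fun t : ℂ => t ^ (N + 1)
    rw [h1]
    exact isBigO_zero_fst ((isBigO_refl _ _).const_mul_left _)
  · have h1 : (fun t : ℂ => t ^ (N + 1)) =O[𝓝 0] fun t : ℂ => t ^ N := by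
      have h2 : (fun t : ℂ => t) =O[𝓝 0] fun _ : ℂ => (1 : ℂ) := continuousAt_id.isBigO_one ℂ
      have h3 : (fun t : ℂ => t ^ (N + 1)) = fun t => t ^ N * t := by funext t; ring
      rw [h3]
      simpa using (isBigO_refl (fun t : ℂ => t ^ N) (𝓝 0)).mul h2
    refine ((hJ N).neg_left.trans h1).congr_left fun t => ?_
    show -(b (t, jet c N t) - deriv (jet c N) t * (t ^ (k + 1) * a (t, jet c N t))) =
      (t ^ (k + 1) * a (t, jet c N t)) * (deriv (fun t : ℂ => (t, jet c N t)) t).2 - b (t, jet c N t) * (deriv (fun t : ℂ => (t, jet c N t)) t).1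
    rw [hd]
    ring
  · obtain ⟨s, hs, -, h1, -⟩ := conv_of_alg hR (fun h => hne (h.mono fun p hp => not_not.2 hp)) hc hz
    refine ⟨fun t => (t, s t), analyticAt_id.prod hs, fun N => ?_⟩
    have h2 : (fun t : ℂ => (t, s t) - (t, jet c N t)) = fun t => ((0 : ℂ), s t - jet c N t) := by
      funext t
      rw [Prod.mk_sub_mk, sub_self]
    show (fun t : ℂ => (t, s t) - (t, jet c N t)) =O[𝓝 0] fun t : ℂ => t ^ (N + 1)
    rw [h2]
    exact isBigO_zero_fst (h1 N)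

theorem sep_axis {a b : ℂ × ℂ → ℂ} : Sep (fun p => (p.1 * a p, p.2 * b p)) fun _ t => (t, 0) := by
  have hd : ∀ t, deriv (fun t : ℂ => (t, (0 : ℂ))) t = (1, 0) := fun t => ((hasDerivAt_id t).prodMk (hasDerivAt_const t (0 : ℂ))).deriv
  refine ⟨fun N => analyticAt_id.prod analyticAt_const, fun N => rfl, fun N => ?_, fun N => ?_, ⟨1, nc_aux (f := fun _ => 0)⟩, fun R hR hne hz => ?_⟩
  · have h1 : (fun t : ℂ => (t, (0 : ℂ)) - (t, 0)) = fun _ => 0 := by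
      funext t
      rw [sub_self]
    show (fun t : ℂ => (t, (0 : ℂ)) - (t, 0)) =O[𝓝 0] fun t : ℂ => t ^ (N + 1)
    rw [h1]
    exact isBigO_zero _ _
  · refine (isBigO_zero _ _).congr_left fun t => ?_
    show (0 : ℂ) = (t * a (t, 0)) * (deriv (fun t : ℂ => (t, (0 : ℂ))) t).2 - (0 * b (t, 0)) * (deriv (fun t : ℂ => (t, (0 : ℂ))) t).1
    rw [hd]
    ring
  · refine ⟨fun t => (t, 0), analyticAt_id.prod analyticAt_const, fun N => ?_⟩
    have h1 : (fun t : ℂ => (t, (0 : ℂ)) - (t, 0)) = fun _ => 0 := by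
      funext t
      rw [sub_self]
    show (fun t : ℂ => (t, (0 : ℂ)) - (t, 0)) =O[𝓝 0] fun t : ℂ => t ^ (N + 1)
    rw [h1]
    exact isBigO_zero _ _

end Pool.Agent.MQ2

end
end

section

/-!
# MQ2 SingF: finitely many singular directions
-/

set_option autoImplicit false

open Topology Filter Metric MeasureTheory Asymptotics Laplacian

noncomputable section

namespace Pool.Agent.MQ2

open Pool.Agent.MQ

/-- the limit of an eventual identity along `x → 0`, `x ≠ 0` -/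
theorem eq_of_punctured {f g : ℂ → ℂ} {a b : ℂ} (hf : Tendsto f (𝓝[≠] (0 : ℂ)) (𝓝 a)) (hg : Tendsto g (𝓝[≠] (0 : ℂ)) (𝓝 b))
    (h : ∀ᶠ x in 𝓝[≠] (0 : ℂ), f x = g x) : a = b := by
  have h1 : Tendsto g (𝓝[≠] (0 : ℂ)) (𝓝 a) := hf.congr' h
  exact tendsto_nhds_unique h1 hg

theorem child_shift {e ι : ℕ} {v : ℂ × ℂ → ℂ × ℂ} {w : ℂ → ℂ × ℂ → ℂ × ℂ} (hw : ∀ t, Child e ι t v (w t)) (t : ℂ) :
    ∀ᶠ u in 𝓝 (0 : ℂ), w (t + u) 0 = w t (0, u) := by
  have hc : Tendsto (fun u : ℂ => ((0 : ℂ), u)) (𝓝 0) (𝓝 (0 : ℂ × ℂ)) := by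
    have : Continuous fun u : ℂ => ((0 : ℂ), u) := by fun_prop
    exact this.tendsto' 0 0 rfl
  have e1 : ∀ᶠ u in 𝓝 (0 : ℂ), AnalyticAt ℂ (w t) (0, u) := hc.eventually (hw t).an.eventually_analyticAt
  have e2 : ∀ᶠ u in 𝓝 (0 : ℂ), ∀ᶠ p in 𝓝 ((0 : ℂ), u), (v (be t p)).1 = p.1 ^ e * (w t p).1 :=
    hc.eventually (eventually_eventually_nhds.2 (hw t).fst)
  have e3 : ∀ᶠ u in 𝓝 (0 : ℂ), ∀ᶠ p in 𝓝 ((0 : ℂ), u), (v (be t p)).2 = (p.2 + t) * (v (be t p)).1 + p.1 ^ (e + 1) * (w t p).2 :=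
    hc.eventually (eventually_eventually_nhds.2 (hw t).snd)
  filter_upwards [e1, e2, e3] with u h1 h2 h3
  have ca : Tendsto (fun x : ℂ => (x, (0 : ℂ))) (𝓝[≠] (0 : ℂ)) (𝓝 (0 : ℂ × ℂ)) := by
    have : Continuous fun x : ℂ => (x, (0 : ℂ)) := by fun_prop
    exact (this.tendsto' 0 0 rfl).mono_left nhdsWithin_le_nhds
  have cb : Tendsto (fun x : ℂ => (x, u)) (𝓝[≠] (0 : ℂ)) (𝓝 ((0 : ℂ), u)) := by
    have : Continuous fun x : ℂ => (x, u) := by fun_prop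
    exact (this.tendsto 0).mono_left nhdsWithin_le_nhds
  have hx : ∀ᶠ x in 𝓝[≠] (0 : ℂ), x ≠ 0 := eventually_mem_nhdsWithin
  have hbe : ∀ x : ℂ, be (t + u) (x, 0) = be t (x, u) := by
    intro x
    simp [be, add_comm]
  have l1 : Tendsto (fun x : ℂ => w (t + u) (x, 0)) (𝓝[≠] (0 : ℂ)) (𝓝 (w (t + u) 0)) := (hw (t + u)).an.continuousAt.tendsto.comp ca
  have l2 : Tendsto (fun x : ℂ => w t (x, u)) (𝓝[≠] (0 : ℂ)) (𝓝 (w t (0, u))) := h1.continuousAt.tendsto.comp cb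
  have f1 : ∀ᶠ x in 𝓝[≠] (0 : ℂ), (v (be (t + u) (x, 0))).1 = x ^ e * (w (t + u) (x, 0)).1 := ca.eventually (hw (t + u)).fst
  have f2 : ∀ᶠ x in 𝓝[≠] (0 : ℂ), (v (be (t + u) (x, 0))).2 = (0 + (t + u)) * (v (be (t + u) (x, 0))).1 + x ^ (e + 1) * (w (t + u) (x, 0)).2 :=
    ca.eventually (hw (t + u)).snd
  have g1 : ∀ᶠ x in 𝓝[≠] (0 : ℂ), (v (be t (x, u))).1 = x ^ e * (w t (x, u)).1 := cb.eventually h2
  have g2 : ∀ᶠ x in 𝓝[≠] (0 : ℂ), (v (be t (x, u))).2 = (u + t) * (v (be t (x, u))).1 + x ^ (e + 1) * (w t (x, u)).2 := cb.eventually h3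
  refine Prod.ext ?_ ?_
  · refine eq_of_punctured ((continuous_fst.tendsto _).comp l1) ((continuous_fst.tendsto _).comp l2) ?_
    filter_upwards [hx, f1, g1] with x x0 k1 k2
    rw [hbe, k2] at k1
    exact (mul_left_cancel₀ (pow_ne_zero _ x0) k1).symm
  · refine eq_of_punctured ((continuous_snd.tendsto _).comp l1) ((continuous_snd.tendsto _).comp l2) ?_
    filter_upwards [hx, f2, g2] with x x0 k1 k2
    rw [hbe, k2] at k1
    have k3 : x ^ (e + 1) * (w t (x, u)).2 = x ^ (e + 1) * (w (t + u) (x, 0)).2 := by linear_combination k1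
    exact (mul_left_cancel₀ (pow_ne_zero _ x0) k3).symm

/-- `w (1 / u) 0` is `wi (0, u)` up to a linear map -/
theorem child_inf {e ι : ℕ} {v : ℂ × ℂ → ℂ × ℂ} {w : ℂ → ℂ × ℂ → ℂ × ℂ} {wi : ℂ × ℂ → ℂ × ℂ} (hw : ∀ t, Child e ι t v (w t))
    (hwi : Child e ι 0 (swv v) wi) : ∀ᶠ u in 𝓝[≠] (0 : ℂ), w u⁻¹ 0 ≠ 0 := by
  have hc : Tendsto (fun u : ℂ => ((0 : ℂ), u)) (𝓝[≠] (0 : ℂ)) (𝓝 (0 : ℂ × ℂ)) := by
    have : Continuous fun u : ℂ => ((0 : ℂ), u) := by fun_prop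
    exact (this.tendsto' 0 0 rfl).mono_left nhdsWithin_le_nhds
  have e1 : ∀ᶠ u in 𝓝[≠] (0 : ℂ), AnalyticAt ℂ wi (0, u) := hc.eventually hwi.an.eventually_analyticAt
  have e2 : ∀ᶠ u in 𝓝[≠] (0 : ℂ), ∀ᶠ p in 𝓝 ((0 : ℂ), u), (swv v (be 0 p)).1 = p.1 ^ e * (wi p).1 :=
    hc.eventually (eventually_eventually_nhds.2 hwi.fst)
  have e3 : ∀ᶠ u in 𝓝[≠] (0 : ℂ), ∀ᶠ p in 𝓝 ((0 : ℂ), u), (swv v (be 0 p)).2 = (p.2 + 0) * (swv v (be 0 p)).1 + p.1 ^ (e + 1) * (wi p).2 :=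
    hc.eventually (eventually_eventually_nhds.2 hwi.snd)
  have e4 : ∀ᶠ u in 𝓝[≠] (0 : ℂ), ((0 : ℂ), u) ≠ 0 → wi (0, u) ≠ 0 := hc.eventually hwi.iso
  have e5 : ∀ᶠ u in 𝓝[≠] (0 : ℂ), u ≠ 0 := eventually_mem_nhdsWithin
  filter_upwards [e1, e2, e3, e4, e5] with u h1 h2 h3 h4 u0 hcon
  have ca : Tendsto (fun x : ℂ => (x * u, (0 : ℂ))) (𝓝[≠] (0 : ℂ)) (𝓝 (0 : ℂ × ℂ)) := by
    have : Continuous fun x : ℂ => (x * u, (0 : ℂ)) := by fun_prop
    exact (this.tendsto' 0 0 (by simp)).mono_left nhdsWithin_le_nhds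
  have cb : Tendsto (fun x : ℂ => (x, u)) (𝓝[≠] (0 : ℂ)) (𝓝 ((0 : ℂ), u)) := by
    have : Continuous fun x : ℂ => (x, u) := by fun_prop
    exact (this.tendsto 0).mono_left nhdsWithin_le_nhds
  have hx : ∀ᶠ x in 𝓝[≠] (0 : ℂ), x ≠ 0 := eventually_mem_nhdsWithin
  have hbe : ∀ x : ℂ, be u⁻¹ (x * u, 0) = (x * u, x) := by
    intro x
    simp only [be, zero_add, Prod.mk.injEq, true_and]
    field_simp
  have hbe' : ∀ x : ℂ, swv v (be 0 (x, u)) = ((v (x * u, x)).2, (v (x * u, x)).1) := by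
    intro x
    simp [be, swv, Prod.swap]
  have l1 : Tendsto (fun x : ℂ => w u⁻¹ (x * u, 0)) (𝓝[≠] (0 : ℂ)) (𝓝 (w u⁻¹ 0)) := (hw u⁻¹).an.continuousAt.tendsto.comp ca
  have l2 : Tendsto (fun x : ℂ => wi (x, u)) (𝓝[≠] (0 : ℂ)) (𝓝 (wi (0, u))) := h1.continuousAt.tendsto.comp cb
  have lx : Tendsto (fun x : ℂ => x) (𝓝[≠] (0 : ℂ)) (𝓝 0) := nhdsWithin_le_nhds
  have f1 := ca.eventually (hw u⁻¹).fst
  have f2 := ca.eventually (hw u⁻¹).snd
  have g1 := cb.eventually h2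
  have g2 := cb.eventually h3
  simp only [hbe] at f1 f2
  simp only [hbe'] at g1 g2
  have k1 : u ^ e * (w u⁻¹ 0).1 = u * (wi (0, u)).1 + 0 * (wi (0, u)).2 := by
    refine eq_of_punctured (((continuous_fst.tendsto _).comp l1).const_mul (u ^ e))
      ((((continuous_fst.tendsto _).comp l2).const_mul u).add (lx.mul ((continuous_snd.tendsto _).comp l2))) ?_
    filter_upwards [hx, f1, g1, g2] with x x0 a1 b1 b2
    simp only [Function.comp_apply]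
    have : x ^ e * (u ^ e * (w u⁻¹ (x * u, 0)).1) = x ^ e * (u * (wi (x, u)).1 + x * (wi (x, u)).2) := by
      rw [b2, b1, mul_pow] at a1
      linear_combination -a1
    exact mul_left_cancel₀ (pow_ne_zero _ x0) this
  have k2 : u ^ (e + 1) * (w u⁻¹ 0).2 = -(u⁻¹ * (wi (0, u)).2) := by
    refine eq_of_punctured (((continuous_snd.tendsto _).comp l1).const_mul (u ^ (e + 1)))
      (((continuous_snd.tendsto _).comp l2).const_mul u⁻¹).neg ?_
    filter_upwards [hx, f2, g1, g2] with x x0 a1 b1 b2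
    simp only [Function.comp_apply]
    have hu : u⁻¹ * u = 1 := inv_mul_cancel₀ u0
    have : x ^ (e + 1) * (u ^ (e + 1) * (w u⁻¹ (x * u, 0)).2) = x ^ (e + 1) * -(u⁻¹ * (wi (x, u)).2) := by
      rw [b2, mul_pow] at a1
      linear_combination -a1 + (-(v (x * u, x)).2) * hu
    exact mul_left_cancel₀ (pow_ne_zero _ x0) this
  rw [hcon] at k1 k2
  simp only [Prod.fst_zero, Prod.snd_zero, mul_zero, zero_mul, add_zero] at k1 k2
  have m1 : (wi (0, u)).1 = 0 := by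
    rcases mul_eq_zero.1 k1.symm with h | h
    · exact absurd h u0
    · exact h
  have m2 : (wi (0, u)).2 = 0 := by
    have : u⁻¹ * (wi (0, u)).2 = 0 := by
      have := k2.symm
      simpa using this
    rcases mul_eq_zero.1 this with h | h
    · exact absurd h (inv_ne_zero u0)
    · exact h
  exact h4 (fun h => u0 (congrArg Prod.snd h)) (Prod.ext m1 m2)

theorem sing_finite {e ι : ℕ} {v : ℂ × ℂ → ℂ × ℂ} {w : ℂ → ℂ × ℂ → ℂ × ℂ} {wi : ℂ × ℂ → ℂ × ℂ} (hw : ∀ t, Child e ι t v (w t))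
    (hwi : Child e ι 0 (swv v) wi) : {t : ℂ | w t 0 = 0}.Finite := by
  obtain ⟨ε, hε, hb⟩ := Metric.mem_nhdsWithin_iff.1 (child_inf hw hwi)
  have hsub : {t : ℂ | w t 0 = 0} ⊆ closedBall 0 (2 / ε) := by
    intro t ht
    by_contra hcon
    simp only [mem_closedBall, dist_zero_right, not_le] at hcon
    have h1 : 0 < ‖t‖ := lt_trans (by positivity) hcon
    have t0 : t ≠ 0 := norm_pos_iff.1 h1
    have h2 : t⁻¹ ∈ ball (0 : ℂ) ε ∩ {0}ᶜ := by
      refine ⟨?_, inv_ne_zero t0⟩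
      simp only [mem_ball, dist_zero_right, norm_inv]
      rw [inv_lt_comm₀ h1 hε]
      refine lt_of_le_of_lt ?_ hcon
      rw [inv_eq_one_div]
      gcongr
      norm_num
    have h3 : w t⁻¹⁻¹ 0 ≠ 0 := hb h2
    rw [inv_inv] at h3
    exact h3 ht
  by_contra hinf
  obtain ⟨t, -, ht⟩ := Set.Infinite.exists_accPt_of_subset_isCompact hinf (isCompact_closedBall (0 : ℂ) (2 / ε)) hsub
  have h1 : ∀ᶠ u in 𝓝[≠] (0 : ℂ), w (t + u) 0 ≠ 0 := by
    have hc : Tendsto (fun u : ℂ => ((0 : ℂ), u)) (𝓝[≠] (0 : ℂ)) (𝓝 (0 : ℂ × ℂ)) := by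
      have : Continuous fun u : ℂ => ((0 : ℂ), u) := by fun_prop
      exact (this.tendsto' 0 0 rfl).mono_left nhdsWithin_le_nhds
    have e5 : ∀ᶠ u in 𝓝[≠] (0 : ℂ), u ≠ 0 := eventually_mem_nhdsWithin
    filter_upwards [(child_shift hw t).filter_mono nhdsWithin_le_nhds, hc.eventually (hw t).iso, e5] with u a b u0
    rw [a]
    exact b fun h => u0 (congrArg Prod.snd h)
  have h2 : ∀ᶠ s in 𝓝[≠] t, w s 0 ≠ 0 := by
    have hm : Tendsto (fun s : ℂ => s - t) (𝓝[≠] t) (𝓝[≠] (0 : ℂ)) := by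
      refine tendsto_nhdsWithin_iff.2 ⟨?_, ?_⟩
      · have : Continuous fun s : ℂ => s - t := by fun_prop
        simpa using (this.tendsto t).mono_left nhdsWithin_le_nhds
      · filter_upwards [self_mem_nhdsWithin] with s hs
        exact sub_ne_zero.2 hs
    filter_upwards [hm.eventually h1] with s hs
    simpa using hs
  exact (accPt_iff_frequently_nhdsNE.1 ht) (h2.mono fun s hs => by simpa using hs)

end Pool.Agent.MQ2

end
end

section

/-!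
# MQ2 StepW: the package of a chart in exchanged coordinates
-/

set_option autoImplicit false

open Topology Filter Metric MeasureTheory Asymptotics Laplacian

noncomputable section

namespace Pool.Agent.MQ2

open Pool.Agent.H36.BP (EN)
open Pool.Agent.H30M (tau LogSing)
open Pool.Agent.MQ

section

variable {Df Df' : ℂ → ℂ} {ell L L' : ℂ → ℝ} {V V' : Set ℂ} {N : ℝ} {l l' : ℂ → ℝ} {C C' : ℝ} {O K : Set ℂ} {η D X : ℂ → ℂ} {Φ err u : ℂ → ℝ}

theorem Cht.congr (h : Cht Df ell L V N l C O K η D X Φ err u) (h1 : ∀ z ∈ O, Df' z = Df z) (h2 : ∀ z ∈ O, z ∈ V' → z ∈ V ∧ L' z = L z) :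
    Cht Df' ell L' V' N l C O K η D X Φ err u where
  op := h.op
  cl := h.cl
  η_cd := h.η_cd
  err_c := h.err_c
  Φ_ls := h.Φ_ls
  out := h.out
  bd := h.bd
  ineq := h.ineq
  X_an := h.X_an
  X_ne := h.X_ne
  X_V := fun z hz hV => h.X_V z hz (h2 z hz hV).1
  D_eq := fun z hz hX => by rw [h1 z hz, h.D_eq z hz hX]
  ell_eq := h.ell_eq
  u_cd := h.u_cd
  u_gr := h.u_gr
  u_bd := h.u_bd
  up := fun z hz hV hΦ => by
    rw [(h2 z hz hV).2]
    exact h.up z hz (h2 z hz hV).1 hΦ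

theorem Cht.mono (h : Cht Df ell L V N l C O K η D X Φ err u) (hl : ∀ z, l z ≤ l' z) (hl0 : ∀ z, 0 ≤ l z) (hC : C ≤ C') (hC0 : 0 ≤ C) :
    Cht Df ell L V N l' C' O K η D X Φ err u where
  op := h.op
  cl := h.cl
  η_cd := h.η_cd
  err_c := h.err_c
  Φ_ls := h.Φ_ls
  out := h.out
  bd := fun z hz => (h.bd z hz).trans (mul_le_mul hC (hl z) (hl0 z) (hC0.trans hC))
  ineq := h.ineq
  X_an := h.X_an
  X_ne := h.X_ne
  X_V := h.X_V
  D_eq := h.D_eq
  ell_eq := h.ell_eq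
  u_cd := h.u_cd
  u_gr := fun z hz => (h.u_gr z hz).trans (mul_le_mul hC (hl z) (hl0 z) (hC0.trans hC))
  u_bd := fun z hz => (h.u_bd z hz).trans hC
  up := fun z hz hV hΦ => by
    have h1 := h.up z hz hV hΦ
    have h2 : Real.log (1 + l z) ≤ Real.log (1 + l' z) := Real.log_le_log (by linarith [hl0 z]) (by linarith [hl z])
    linarith

end

private theorem ztv_zero {v : ℂ × ℂ → ℂ × ℂ} {p : ℂ → ℂ × ℂ} {z : ℂ} (h : v (p z) = 0) : ztv v p z = 0 := by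
  classical
  unfold ztv
  rw [h]
  simp

theorem ztv_swap' {v : ℂ × ℂ → ℂ × ℂ} {r : ℝ} {Om : Set ℂ} {p : ℂ → ℂ × ℂ} (h : Crv1 v r Om p) {z : ℂ} (hz : z ∈ Om) :
    ztv (swv v) (fun z => (p z).swap) z = ztv v p z := by
  by_cases hv : v (p z) = 0
  · rw [ztv_zero hv, ztv_zero]
    show (v ((p z).swap).swap).swap = 0
    rw [Prod.swap_swap, hv]
    rfl
  · exact ztv_swap h hz hv

theorem DDv_swap' {v : ℂ × ℂ → ℂ × ℂ} {g : ℂ × ℂ → ℂ} {r : ℝ} {Om : Set ℂ} {p : ℂ → ℂ × ℂ} (h : Crv1 v r Om p) {z : ℂ} (hz : z ∈ Om) :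
    DDv (swv v) (fun q => g q.swap) (fun z => (p z).swap) z = DDv v g p z := by
  unfold DDv
  rw [ztv_swap' h hz, dvg_swap]
  simp only [Prod.swap_swap]

theorem Dat.swap {v : ℂ × ℂ → ℂ × ℂ} {g : ℂ × ℂ → ℂ} {r B : ℝ} {d : ℕ} {q : ℂ × ℂ → ℂ} {ψ : ℂ × ℂ → ℝ} {M : ℕ} {F : ℂ → EN M} {Q : ℂ → ℂ} {lm : ℂ → ℝ}
    {Om : Set ℂ} {p : ℂ → ℂ × ℂ} (h : Dat v g r B d q ψ F Q lm Om p) :
    Dat (swv v) (fun p => g p.swap) r B d (fun p => q p.swap) (fun p => ψ p.swap) F Q lm Om fun z => (p z).swap where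
  crv := crv_swap h.crv
  p_ne := fun z hz => (h.p_ne z hz).mono fun w hw h1 => hw (by
    rw [← Prod.swap_swap (p w), h1]
    rfl)
  g_ne := fun z hz => by simpa only [Prod.swap_swap] using h.g_ne z hz
  lm_cont := h.lm_cont
  lm_nonneg := h.lm_nonneg
  lm_ge := fun z hz => by
    rw [deriv_swap (h.crv.an z hz).differentiableAt, norm_swap']
    exact h.lm_ge z hz
  F_diff := h.F_diff
  F_ne := h.F_ne
  lam_le := h.lam_le
  Q_diff := h.Q_diff
  Q_ne := h.Q_ne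
  Q_le := h.Q_le
  Q_eq := by simpa only [Prod.swap_swap] using h.Q_eq

theorem dirP_swap {v : ℂ × ℂ → ℂ × ℂ} {g J : ℂ × ℂ → ℂ} {N r : ℝ} {Con : ℕ → (ℂ × ℂ → ℂ) → Prop} {re B A C₀ : ℝ}
    {O K : Set ℂ → (ℂ → ℂ × ℂ) → Set ℂ} (hO : ∀ Om p, O Om p ⊆ Om)
    (h : DirP (swv v) (fun p => g p.swap) (fun p => J p.swap) N r Con re B A C₀ O K) :
    DirP v g J N r (fun n q => Con n fun p => q p.swap) re B A C₀ (fun Om p => O Om fun z => (p z).swap) fun Om p => K Om fun z => (p z).swap := by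
  intro d n q ψ hd hn hq hψ hCon M F Q lm Om p hDat ell hell l₁ hl₁ hle hEn
  have hq' : AnalyticAt ℂ (fun p : ℂ × ℂ => q p.swap) 0 := AnalyticAt.comp (f := fun q : ℂ × ℂ => q.swap) (g := q) (x := 0) hq (an_swap 0)
  have hψ' : ContDiffAt ℝ 1 (fun p : ℂ × ℂ => ψ p.swap) 0 :=
    ContDiffAt.comp (g := ψ) (f := fun q : ℂ × ℂ => q.swap) 0 hψ (((an_swap 0).contDiffAt (n := 1)).restrict_scalars ℝ)
  have hell' : EllP Om (fun z => (p z).swap) re ell := by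
    intro z hz h0 hb
    have h1 : p z ≠ 0 := fun h2 => h0 (by
      show (p z).swap = 0
      rw [h2]
      rfl)
    have h2 : p z ∈ ball (0 : ℂ × ℂ) re := by
      rw [mem_ball_zero_iff] at hb ⊢
      rwa [norm_swap'] at hb
    rw [hell z hz h1 h2, Prod.fst_swap, Prod.snd_swap, add_comm]
  have hEn' : EnB Om (fun z => (p z).swap) re l₁ := by
    intro z hz hb
    rw [mem_closedBall_zero_iff, norm_swap', ← mem_closedBall_zero_iff] at hb
    exact ⟨(hEn z hz hb).2, (hEn z hz hb).1⟩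
  obtain ⟨C, l, η, D, X, Φ, err, u, h1, h2, h3, h4, h5, h6⟩ := h d n _ _ hd hn hq' hψ' hCon M F Q lm Om _ hDat.swap ell hell' l₁ hl₁ hle hEn'
  refine ⟨C, l, η, D, X, Φ, err, u, h1, h2, h3, h4, h5.congr (fun z hz => (DDv_swap' hDat.crv (hO _ _ hz)).symm) ?_, h6⟩
  intro z hz hV
  obtain ⟨a1, a2, a3, a4⟩ := hV
  have e1 := ztv_swap' hDat.crv a1
  refine ⟨⟨a1, by rw [e1]; exact a2, by simpa only [Prod.swap_swap] using a3, by simpa only [Prod.swap_swap] using a4⟩, ?_⟩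
  unfold LL
  rw [e1]
  simp only [Prod.swap_swap]

end Pool.Agent.MQ2

end
end

section

/-!
# MQ2 StepF: from the charts to `LocX`
-/

set_option autoImplicit false

open Topology Filter Metric MeasureTheory Asymptotics Laplacian

noncomputable section

namespace Pool.Agent.MQ2

open Pool.Agent.H36.BP (EN)
open Pool.Agent.H30M (tau LogSing)
open Pool.Agent.MQ

/-- the conclusion of the package of a chart, for a curve -/
def DirC (v : ℂ × ℂ → ℂ × ℂ) (g J : ℂ × ℂ → ℂ) (N : ℝ) (H : ℂ × ℂ → ℝ) (Om : Set ℂ) (p : ℂ → ℂ × ℂ) (A δ : ℝ) (O K : Set ℂ) (l₁ : ℂ → ℝ) : Prop :=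
  ∃ (C : ℝ) (l : ℂ → ℝ) (η D X : ℂ → ℂ) (Φ err u : ℂ → ℝ), 0 ≤ C ∧ Continuous l ∧ (∀ z, l₁ z ≤ l z) ∧
    (∀ R, 1 ≤ R → ∫ z, tau R z * l z ^ 2 ≤ A * (∫ z, tau R z * l₁ z ^ 2) + C) ∧
    Cht (DDv v g p) (fun z => H (p z)) (LL v g J p) (VV v g J Om p) N l C O K η D X Φ err u ∧
    ∀ R, 1 ≤ R → ∫ z in O, tau R z * err z ≤ δ * (∫ z, tau R z * l₁ z ^ 2) + C * (∫ z, ‖gr (tau R) z‖ * l z) + C

theorem integrable_tau_mul {R : ℝ} (hR : 1 ≤ R) {f : ℂ → ℝ} (hf : Continuous f) : Integrable fun z => tau R z * f z :=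
  ((Pool.Agent.H30M.contDiff_tau R).continuous.mul hf).integrable_of_hasCompactSupport (Pool.Agent.H30M.hcs_tau hR).mul_right

theorem integrable_gr_mul {R : ℝ} (hR : 1 ≤ R) {f : ℂ → ℝ} (hf : Continuous f) : Integrable fun z => ‖gr (tau R) z‖ * f z := by
  have h1 : Continuous (gr (tau R)) := continuous_gr ((Pool.Agent.H30M.contDiff_tau R).of_le (by norm_num))
  exact (h1.norm.mul hf).integrable_of_hasCompactSupport ((hasCompactSupport_gr (Pool.Agent.H30M.hcs_tau hR)).norm.mul_right)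

theorem locX_of_charts {ι : Type} [Fintype ι] {v : ℂ × ℂ → ℂ × ℂ} {g J : ℂ × ℂ → ℂ} {N s te ρb A₁ K₁ Cb : ℝ} {H : ℂ × ℂ → ℝ}
    (hte : te < s) (hH0 : ∀ p : ℂ × ℂ, p ∉ ball (0 : ℂ × ℂ) te → H p = 0) (hρb : ρb < s) {A δ : ι → ℝ} (hA : ∀ i, 0 ≤ A i) (hδ : ∀ i, 0 ≤ δ i)
    {Om : Set ℂ} {p : ℂ → ℂ × ℂ} (hp : ∀ z ∈ Om, AnalyticAt ℂ p z) {O K : ι → Set ℂ} {lm l₁ : ℂ → ℝ} (hlm : ∀ z, 0 ≤ lm z) (hle : ∀ z, lm z ≤ l₁ z)
    (hl₁ : Continuous l₁)
    (hE : ∀ R, 1 ≤ R → ∫ z, tau R z * l₁ z ^ 2 ≤ A₁ * (∫ z, tau R z * lm z ^ 2) + K₁) (hCb : 0 ≤ Cb)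
    (hbase : Cht (DDv v g p) (fun z => H (p z)) (LL v g J p) (VV v g J Om p) N l₁ Cb {z | z ∈ Om ∧ p z ∉ closedBall (0 : ℂ × ℂ) ρb} ∅
          (fun z => (starRingEnd ℂ) (DDv v g p z)) (DDv v g p) (fun _ => 1) (fun _ => 0) (fun _ => 0) fun z => H (p z))
    (hKO : ∀ i, K i ⊆ O i) (hsub : ∀ i, O i ⊆ Om) (hcov : ∀ z ∈ Om, p z ∈ closedBall (0 : ℂ × ℂ) ρb → ∃ i, z ∈ O i)
    (hdisb : ∀ i, ∀ z ∈ K i, p z ∈ closedBall (0 : ℂ × ℂ) ρb) (hdis : ∀ i j, i ≠ j → ∀ z ∈ K i, z ∉ O j)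
    (hdir : ∀ i, DirC v g J N H Om p (A i) (δ i) (O i) (K i) l₁) :
    LocX v g J Om p lm s ((Fintype.card ι + 1) * (1 + ∑ i, A i) * A₁) ((∑ i, δ i) * A₁) := by
  classical
  choose C l η D X Φ err u h1 h2 h3 h4 h5 h6 using hdir
  have hl₁0 : ∀ z, 0 ≤ l₁ z := fun z => (hlm z).trans (hle z)
  have hl0 : ∀ i z, 0 ≤ l i z := fun i z => (hl₁0 z).trans (h3 i z)
  set lt : ℂ → ℝ := fun z => l₁ z + ∑ i, l i z with hlt
  set Ct : ℝ := Cb + ∑ i, C i with hCt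
  have hsum0 : 0 ≤ ∑ i, C i := Finset.sum_nonneg fun i _ => h1 i
  have hCt0 : 0 ≤ Ct := add_nonneg hCb hsum0
  have hlc : ∀ i z, l i z ≤ lt z := fun i z => by
    have a1 : l i z ≤ ∑ i, l i z := Finset.single_le_sum (fun j _ => hl0 j z) (Finset.mem_univ i)
    have := hl₁0 z
    rw [hlt]
    dsimp only
    linarith
  have hlb : ∀ z, l₁ z ≤ lt z := fun z => by
    have a1 : 0 ≤ ∑ i, l i z := Finset.sum_nonneg fun j _ => hl0 j z
    rw [hlt]
    dsimp only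
    linarith
  have hlt0 : ∀ z, 0 ≤ lt z := fun z => (hl₁0 z).trans (hlb z)
  have hCi : ∀ i, C i ≤ Ct := fun i => by
    have a1 : C i ≤ ∑ i, C i := Finset.single_le_sum (fun j _ => h1 j) (Finset.mem_univ i)
    linarith
  have hltc : Continuous lt := hl₁.add (continuous_finsetSum _ fun i _ => h2 i)
  -- the charts
  let OO : Option ι → Set ℂ := fun i => i.elim {z | z ∈ Om ∧ p z ∉ closedBall (0 : ℂ × ℂ) ρb} O
  let KK : Option ι → Set ℂ := fun i => i.elim ∅ K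
  let ηη : Option ι → ℂ → ℂ := fun i => i.elim (fun z => (starRingEnd ℂ) (DDv v g p z)) η
  let DD' : Option ι → ℂ → ℂ := fun i => i.elim (DDv v g p) D
  let XX : Option ι → ℂ → ℂ := fun i => i.elim (fun _ => 1) X
  let ΦΦ : Option ι → ℂ → ℝ := fun i => i.elim (fun _ => 0) Φ
  let ee : Option ι → ℂ → ℝ := fun i => i.elim (fun _ => 0) err
  let uu : Option ι → ℂ → ℝ := fun i => i.elim (fun z => H (p z)) u
  have hch : ∀ i, Cht (DDv v g p) (fun z => H (p z)) (LL v g J p) (VV v g J Om p) N lt Ct (OO i) (KK i) (ηη i) (DD' i) (XX i) (ΦΦ i) (ee i) (uu i) := by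
    rintro (_ | i)
    · exact hbase.mono hlb hl₁0 (by rw [hCt]; linarith) hCb
    · exact (h5 i).mono (hlc i) (hl0 i) (hCi i) (h1 i)
  have hKO' : ∀ i, KK i ⊆ OO i := by
    rintro (_ | i)
    · exact Set.empty_subset _
    · exact hKO i
  have hsub' : ∀ i, OO i ⊆ Om := by
    rintro (_ | i)
    · exact fun z hz => hz.1
    · exact hsub i
  have hcov' : ∀ z ∈ Om, ∃ i, z ∈ OO i := by
    intro z hz
    by_cases hb : p z ∈ closedBall (0 : ℂ × ℂ) ρb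
    · obtain ⟨i, hi⟩ := hcov z hz hb
      exact ⟨some i, hi⟩
    · exact ⟨none, hz, hb⟩
  have hdis' : ∀ i j, i ≠ j → ∀ z ∈ KK i, z ∉ OO j := by
    rintro (_ | i) (_ | j) hij z hz
    · exact absurd rfl hij
    · exact hz.elim
    · exact fun h => h.2 (hdisb i z hz)
    · exact hdis i j (fun h => hij (by rw [h])) z hz
  obtain ⟨η', Φ', err', g1, g2, g3, g4, g5, g6, g7, g8⟩ := glue hch hKO' hsub' hcov' hdis'
  -- the constants
  set cE : ℝ := (Fintype.card ι + 1) * ((1 + ∑ i, A i) * |K₁| + ∑ i, C i) with hcE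
  set cI : ℝ := (∑ i, δ i) * |K₁| + ∑ i, C i with hcI
  have hsA : 0 ≤ ∑ i, A i := Finset.sum_nonneg fun i _ => hA i
  have hsδ : 0 ≤ ∑ i, δ i := Finset.sum_nonneg fun i _ => hδ i
  have hcE0 : 0 ≤ cE := by positivity
  have hcI0 : 0 ≤ cI := by positivity
  have hN0 : 0 ≤ |N| * Ct := mul_nonneg (abs_nonneg _) hCt0
  set Cf : ℝ := (Ct + |N| * Ct) + 2 * Ct + cE + cI with hCf
  have f1 : Ct + |N| * Ct ≤ Cf := by rw [hCf]; linarith
  have f2 : 2 * Ct ≤ Cf := by rw [hCf]; linarith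
  have f3 : cE ≤ Cf := by rw [hCf]; linarith
  have f4 : cI ≤ Cf := by rw [hCf]; linarith
  have f5 : ∑ i, C i ≤ Cf := by rw [hCf]; linarith
  have hCf0 : 0 ≤ Cf := hcE0.trans f3
  refine ⟨Cf, lt, η', Φ', err', hCf0, hltc, fun z => (hle z).trans (hlb z), ?_, fun z hz => (g1 z hz).contDiffWithinAt,
    fun z hz => (g2 z hz).continuousWithinAt, g3, ?_, ?_, g6, ?_, ?_⟩
  · intro R hR
    have a1 : ∀ z, lt z ^ 2 ≤ (Fintype.card ι + 1) * (l₁ z ^ 2 + ∑ i, l i z ^ 2) := by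
      intro z
      have b1 := sq_sum_le_card_mul_sum_sq (s := (Finset.univ : Finset (Option ι))) (f := fun i => i.elim (l₁ z) fun i => l i z)
      rw [Fintype.sum_option, Fintype.sum_option, Finset.card_univ, Fintype.card_option] at b1
      simp only [Option.elim] at b1
      push_cast at b1
      exact b1
    have a2 : ∫ z, tau R z * lt z ^ 2 ≤ ∫ z, tau R z * ((Fintype.card ι + 1) * (l₁ z ^ 2 + ∑ i, l i z ^ 2)) := by
      refine integral_mono (integrable_tau_mul hR (hltc.pow 2)) (integrable_tau_mul hR ?_) fun z => ?_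
      · exact continuous_const.mul ((hl₁.pow 2).add (continuous_finsetSum _ fun i _ => (h2 i).pow 2))
      · exact mul_le_mul_of_nonneg_left (a1 z) (Pool.Agent.H30M.tau_nonneg hR z)
    have a3 : ∫ z, tau R z * ((Fintype.card ι + 1) * (l₁ z ^ 2 + ∑ i, l i z ^ 2)) =
        (Fintype.card ι + 1) * ((∫ z, tau R z * l₁ z ^ 2) + ∑ i, ∫ z, tau R z * l i z ^ 2) := by
      have b1 : ∀ z, tau R z * (((Fintype.card ι : ℝ) + 1) * (l₁ z ^ 2 + ∑ i, l i z ^ 2)) =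
          ((Fintype.card ι : ℝ) + 1) * (tau R z * l₁ z ^ 2 + ∑ i, tau R z * l i z ^ 2) := fun z => by
        rw [← Finset.mul_sum]
        ring
      simp only [b1]
      have i1 : Integrable fun z => tau R z * l₁ z ^ 2 := integrable_tau_mul hR (hl₁.pow 2)
      have i2 : ∀ i ∈ (Finset.univ : Finset ι), Integrable fun z => tau R z * l i z ^ 2 := fun i _ => integrable_tau_mul hR ((h2 i).pow 2)
      rw [integral_const_mul, integral_add i1 (integrable_finsetSum _ i2), integral_finsetSum _ i2]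
    have a4 : ∑ i, ∫ z, tau R z * l i z ^ 2 ≤ ∑ i, (A i * (∫ z, tau R z * l₁ z ^ 2) + C i) := Finset.sum_le_sum fun i _ => h4 i R hR
    rw [Finset.sum_add_distrib, ← Finset.sum_mul] at a4
    have a5 := hE R hR
    have a6 : (0 : ℝ) ≤ Fintype.card ι + 1 := by positivity
    have a7 : K₁ ≤ |K₁| := le_abs_self _
    have a8 : (1 + ∑ i, A i) * (∫ z, tau R z * l₁ z ^ 2) ≤ (1 + ∑ i, A i) * (A₁ * (∫ z, tau R z * lm z ^ 2) + |K₁|) :=
      mul_le_mul_of_nonneg_left (by linarith) (by linarith)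
    calc ∫ z, tau R z * lt z ^ 2 ≤ _ := a2
      _ = _ := a3
      _ ≤ (Fintype.card ι + 1) * ((1 + ∑ i, A i) * (∫ z, tau R z * l₁ z ^ 2) + ∑ i, C i) := mul_le_mul_of_nonneg_left (by linarith) a6
      _ ≤ (Fintype.card ι + 1) * ((1 + ∑ i, A i) * (A₁ * (∫ z, tau R z * lm z ^ 2) + |K₁|) + ∑ i, C i) :=
        mul_le_mul_of_nonneg_left (by linarith) a6
      _ = (Fintype.card ι + 1) * (1 + ∑ i, A i) * A₁ * (∫ z, tau R z * lm z ^ 2) + cE := by rw [hcE]; ring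
      _ ≤ _ := by linarith
  · intro z hz hb
    have hb' : p z ∉ closedBall (0 : ℂ × ℂ) ρb := fun h => hb (closedBall_subset_ball hρb h)
    obtain ⟨b1, b2, b3⟩ := g4 none z ⟨hz, hb'⟩ (Set.notMem_empty z) one_ne_zero
    have e1 : (fun w => H (p w)) =ᶠ[𝓝 z] fun _ => 0 := by
      have c1 : p z ∉ closedBall (0 : ℂ × ℂ) te := fun h => hb (closedBall_subset_ball hte h)
      filter_upwards [(hp z hz).continuousAt.eventually (isClosed_closedBall.isOpen_compl.mem_nhds c1)] with w hw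
      exact hH0 _ fun h => hw (ball_subset_closedBall h)
    have e2 : gr (fun w => H (p w)) z = 0 := by
      rw [gr_congr e1]
      exact gr_const 0 z
    rw [e2, mul_zero, sub_zero] at b1
    have e3 : H (p z) = 0 := e1.self_of_nhds
    rw [e3, mul_zero] at b3
    exact ⟨b1, b2, b3⟩
  · intro z hz _
    exact (g5 z hz).trans (mul_le_mul_of_nonneg_right f1 (hlt0 z))
  · intro z hz hΦz c1 c2 c3
    have b1 := g7 z hz ⟨hz, c1, c2, c3⟩ hΦz
    unfold LL at b1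
    linarith
  · intro R hR
    rw [g8 R hR, Fintype.sum_option]
    have b0 : ∫ z in OO none, tau R z * ee none z = 0 := by
      show ∫ z in OO none, tau R z * (0 : ℝ) = 0
      simp
    rw [b0, zero_add]
    have b1 : ∀ i, ∫ z, ‖gr (tau R) z‖ * l i z ≤ ∫ z, ‖gr (tau R) z‖ * lt z := fun i =>
      integral_mono (integrable_gr_mul hR (h2 i)) (integrable_gr_mul hR hltc) fun z => mul_le_mul_of_nonneg_left (hlc i z) (norm_nonneg _)
    have b2 : ∑ i, ∫ z in OO (some i), tau R z * ee (some i) z ≤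
        ∑ i, (δ i * (∫ z, tau R z * l₁ z ^ 2) + C i * (∫ z, ‖gr (tau R) z‖ * lt z) + C i) := by
      refine Finset.sum_le_sum fun i _ => ?_
      have c1 : C i * (∫ z, ‖gr (tau R) z‖ * l i z) ≤ C i * (∫ z, ‖gr (tau R) z‖ * lt z) := mul_le_mul_of_nonneg_left (b1 i) (h1 i)
      have c2 := h6 i R hR
      exact c2.trans (by linarith)
    refine b2.trans ?_
    rw [Finset.sum_add_distrib, Finset.sum_add_distrib, ← Finset.sum_mul, ← Finset.sum_mul]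
    have b3 : 0 ≤ ∫ z, ‖gr (tau R) z‖ * lt z := integral_nonneg fun z => mul_nonneg (norm_nonneg _) (hlt0 z)
    have b4 : (∑ i, C i) * (∫ z, ‖gr (tau R) z‖ * lt z) ≤ Cf * (∫ z, ‖gr (tau R) z‖ * lt z) := mul_le_mul_of_nonneg_right f5 b3
    have b5 : (∑ i, δ i) * (∫ z, tau R z * l₁ z ^ 2) ≤ (∑ i, δ i) * (A₁ * (∫ z, tau R z * lm z ^ 2) + |K₁|) :=
      mul_le_mul_of_nonneg_left ((hE R hR).trans (by linarith [le_abs_self K₁])) hsδ
    have b6 : (∑ i, δ i) * (A₁ * (∫ z, tau R z * lm z ^ 2) + |K₁|) + ∑ i, C i = (∑ i, δ i) * A₁ * (∫ z, tau R z * lm z ^ 2) + cI := by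
      rw [hcI]
      ring
    linarith

end Pool.Agent.MQ2

end
end

section

/-!
# MQ3 AsmI: the interface of the patches

`Psi` is the common value of `gr e + η`.  `IsPatch` collects what is needed of one patch: the open set `U`, the potential `e`, the field `η`, the error term
`err` with support in the closed core `K`, the density `l`.
-/

set_option autoImplicit false

open Topology Filter Metric MvPolynomial MeasureTheory Laplacian

noncomputable section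

namespace Pool.Agent.MQ3

open Pool.Agent.H36.BP (EN fs)
open Pool.Agent.H30M (tau LogSing)
open Pool.Agent.MQ (lam En gr dv)

variable {M : ℕ}

/-- the common value of `gr e + η` -/
def Psi (mK jH : ℕ) (F : ℂ → EN M) (Θ : ℂ → ℂ) (w : ℂ) : ℂ :=
  (starRingEnd ℂ) (Θ w) + gr (fun w => jH / mK * Real.log ‖F w‖) w

/-- one patch -/
structure IsPatch (F : ℂ → EN M) (Ψ : ℂ → ℂ) (ε₀ : ℝ) (l : ℂ → ℝ) (U : Set ℂ) (e : ℂ → ℝ) (η : ℂ → ℂ) (err : ℂ → ℝ) (K : Set ℂ) (C δ : ℝ) : Prop where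
  isOpen : IsOpen U
  pos : ∀ z ∈ U, ∃ c, 0 ≤ c ∧ LogSing e c z
  field : ContDiffOn ℝ 1 η U
  field_le : ∀ z ∈ U, ‖η z‖ ≤ C * l z
  comp : ∀ z ∈ U, z ∉ K → ∀ᶠ w in 𝓝[≠] z, gr e w + η w = Ψ w
  closed : IsClosed K
  sub : K ⊆ U
  err_cont : ContinuousOn err U
  err_off : ∀ z ∈ U, z ∉ K → err z = 0
  lap : ∀ z ∈ U, ContDiffAt ℝ 2 e z → ε₀ * lam F z ^ 2 ≤ Δ e z + dv η z + err z
  int : ∀ R, 1 ≤ R → ∫ z in U, tau R z * err z ≤ δ * En F R + C * (∫ z, ‖gr (tau R) z‖ * l z) + C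
  up : ∀ z ∈ U, ContDiffAt ℝ 2 e z → e z ≤ C + Real.log (1 + l z)

end Pool.Agent.MQ3

end
end
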