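import Pool.Agent.H94.G6.M101
import Pool.Agent.H94.G6.M111
import Pool.Agent.H94.G6.M121
import Pool.Agent.H94.G6.M124
import Pool.Agent.H94.G6.M125
import Pool.Agent.H94.G6.M46
import Pool.Agent.H94.G6.MQ2.TAxes

/-! The parts of this file: H68.KR.SMC, MQ2.TNode. -/

section

/-!
# KR SMC: smooth surfaces of general type carry a holomorphic section of `M K - H`
-/

set_option autoImplicit false

open MvPolynomial Topology Filter
open Pool.Agent.H17LG.Variety (FunField ratio PoleAtMost IsLogGeneralType)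
open Pool.Agent.H17BP (Tan IsForm NoZeros)
open Pool.Agent.H62.FC (Homog LogGeneralType)
open Pool.Agent.H13.SM (conTan)

noncomputable section

namespace Pool.Agent.H68.KR

variable {N : ℕ} {P : Ideal (MvPolynomial (Fin (N + 1)) ℂ)}

theorem exists_cchart [P.IsPrime] (hP : Homog P) {z : Fin 2 → FunField P}
    (hz : IsTranscendenceBasis ℂ z)
    (hsm : ∀ y : Fin (N + 1) → ℂ, y ≠ 0 → (∀ Q ∈ P, eval y Q = 0) →
      Module.finrank ℂ (conTan P y) ≤ 2 + 1) :
    ∀ x ∈ cone P, ∃ t σ, CChart P x t σ := by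
  intro x hx
  obtain ⟨l, hl⟩ : ∃ l, x l ≠ 0 := by
    by_contra h
    push Not at h
    exact hx.1 (funext h)
  obtain ⟨I, σ, han, h0, hmem, hsurj, hnd⟩ := Pool.Agent.H13.SM.exists_coneChart hP hz hsm hx.2 hl
  -- the linear map `u ↦ ![u.1, u.2]`
  set e : (ℂ × ℂ) → (Fin 2 → ℂ) := fun u => ![u.1, u.2] with he
  have hean : AnalyticAt ℂ e 0 := by
    rw [analyticAt_pi_iff]
    intro i
    fin_cases i
    · exact analyticAt_fst
    · exact analyticAt_snd
  have he0 : e 0 = 0 := by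
    funext i
    fin_cases i <;> rfl
  have het : Tendsto e (𝓝 0) (𝓝 0) := by
    have := hean.continuousAt.tendsto
    rwa [he0] at this
  have hinv : ∀ w : Fin 2 → ℂ, e (w 0, w 1) = w := by
    intro w
    funext i
    fin_cases i <;> rfl
  refine ⟨![l, I 0, I 1], fun u => σ (e u), ?_⟩
  have hm := het.eventually hmem
  refine
    { an := ?_
      zero := ?_
      ne := hl
      mem := hm.mono fun u hu => hu.1
      c0 := hm.mono fun u hu => hu.2.1
      c1 := hm.mono fun u hu => hu.2.2 0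
      c2 := hm.mono fun u hu => hu.2.2 1
      surj := ?_
      nd := ?_ }
  · have h1 : AnalyticAt ℂ σ (e 0) := by rw [he0]; exact han
    exact h1.comp hean
  · simp only [he0, h0]
  · filter_upwards [hsurj] with y hy hyP
    have h1 := hy hyP
    rw [← hinv (fun k => y (I k) / y l - x (I k) / x l)] at h1
    exact h1
  · intro d Q hQ hQP h
    apply hnd d Q hQ hQP
    have hpr : Tendsto (fun w : Fin 2 → ℂ => (w 0, w 1)) (𝓝 0) (𝓝 (0 : ℂ × ℂ)) := by
      have h2 : Continuous fun w : Fin 2 → ℂ => (w 0, w 1) := by fun_prop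
      have := h2.tendsto 0
      exact this
    have h3 := hpr.eventually h
    filter_upwards [h3] with w hw
    rw [hinv] at hw
    exact hw

/-- **Kodaira's lemma for surfaces**: a smooth projective surface of general type has a holomorphic section of
`M K - H` for some `M ≥ 1`, without zeros outside a hypersurface section. -/
theorem exists_form_of_smooth [P.IsPrime] (hP : Homog P) {z : Fin 2 → FunField P}
    (hz : IsTranscendenceBasis ℂ z)
    (hsm : ∀ y : Fin (N + 1) → ℂ, y ≠ 0 → (∀ Q ∈ P, eval y Q = 0) →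
      Module.finrank ℂ (conTan P y) ≤ 2 + 1)
    (hgt : LogGeneralType P ∅ 2) :
    ∃ (M : ℕ) (Om : (Fin (N + 1) → ℂ) → (Fin (N + 1) → ℂ) → (Fin (N + 1) → ℂ) → ℂ) (D₀ : ℕ)
      (Q₀ : MvPolynomial (Fin (N + 1)) ℂ), 1 ≤ M ∧ Q₀.IsHomogeneous D₀ ∧ Q₀ ∉ P ∧
      IsForm {x | x ≠ 0 ∧ ∀ Q ∈ P, eval x Q = 0} M 1 Om ∧
      NoZeros {x | x ≠ 0 ∧ ∀ Q ∈ P, eval x Q = 0}
        {x | (x ≠ 0 ∧ ∀ Q ∈ P, eval x Q = 0) ∧ eval x Q₀ = 0} Om := by
  refine exists_form P hP hz ?_ (exists_cchart hP hz hsm)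
  have h1 : (Pool.Agent.H62.FC.OnBoundary P ∅ (w := 2)) = fun _ => False := by
    funext E
    apply propext
    constructor
    · rintro ⟨j, -, -, i, hi, -⟩
      exact absurd hi (Finset.notMem_empty i)
    · exact False.elim
  have h2 := hgt
  unfold LogGeneralType at h2
  rw [h1] at h2
  exact h2

end Pool.Agent.H68.KR

end
end

section

/-!
# MQ2 TNode: the terminal package at a node with the axis `{x = 0}` in the weight

The weight is `x y` (nothing to do) or `x`: then the axis `{y = 0}` is the separatrix of the package.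
-/

set_option autoImplicit false

open Topology Filter Metric MeasureTheory Asymptotics Laplacian

noncomputable section

namespace Pool.Agent.MQ2

open Pool.Agent.H36.BP (EN)
open Pool.Agent.H30M (tau LogSing)
open Pool.Agent.MQ
open Pool.Agent.MQ.AxisA (shell)

theorem tn_congr {v : ℂ × ℂ → ℂ × ℂ} {g g' : ℂ × ℂ → ℂ} {r : ℝ} {Om : Set ℂ} {p : ℂ → ℂ × ℂ} (hc : Crv1 v r Om p)
    (h : ∀ q ∈ ball (0 : ℂ × ℂ) r, g q = g' q) {I Λ : ℝ → ℝ} {s δ : ℝ} (hN : LocalN1 v g' Om p I Λ s δ) : LocalN1 v g Om p I Λ s δ := by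
  obtain ⟨C, η, err, h1, h2, h3, h4, h5⟩ := hN
  refine ⟨C, η, err, h1, h2, h3, fun z hz hz' => ?_, h5⟩
  have e : (fun w => g (p w)) =ᶠ[𝓝 z] fun w => g' (p w) := by
    filter_upwards [hc.isOpen.mem_nhds hz] with w hw
    exact h _ (hc.mem w hw)
  have e2 : DDv v g p z = DDv v g' p z := by
    unfold DDv
    rw [e.deriv_eq, h _ (hc.mem z hz)]
  rw [e2]
  exact h4 z hz hz'

theorem tn_energy {v : ℂ × ℂ → ℂ × ℂ} {l : ℂ × ℂ → ℂ} {Om : Set ℂ} {g : ℂ → ℂ × ℂ} {I I' Λ : ℝ → ℝ} {s δ : ℝ}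
    (h : LocalN1 v l Om g I Λ s δ) (hI : ∀ R, 1 ≤ R → I R ≤ I' R) (hδ : 0 ≤ δ) : LocalN1 v l Om g I' Λ s δ := by
  obtain ⟨C, η, err, h0, h1, h2, h3, h4, h5, h6, h7⟩ := h
  refine ⟨C, η, err, h0, h1, h2, h3, h4, h5, h6, fun R hR => (h7 R hR).trans ?_⟩
  have := mul_le_mul_of_nonneg_left (hI R hR) hδ
  linarith

theorem En_le_lm {M : ℕ} {F : ℂ → EN M} (hF : Differentiable ℂ F) (h0 : ∀ z, F z ≠ 0) {lm : ℂ → ℝ} (hc : Continuous lm)
    (hle : ∀ z, lam F z ≤ lm z) {R : ℝ} (hR : 1 ≤ R) : En F R ≤ ∫ z, tau R z * lm z ^ 2 := by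
  have ht : Continuous (tau R) := (Pool.Agent.H30M.contDiff_tau R).continuous
  have hcs : HasCompactSupport (tau R) := Pool.Agent.H30M.hcs_tau hR
  refine integral_mono ((ht.mul ((continuous_lam hF h0).pow 2)).integrable_of_hasCompactSupport hcs.mul_right)
    ((ht.mul (hc.pow 2)).integrable_of_hasCompactSupport hcs.mul_right) fun z => ?_
  have h1 : 0 ≤ lam F z := div_nonneg (Real.sqrt_nonneg _) (sq_nonneg _)
  exact mul_le_mul_of_nonneg_left (pow_le_pow_left₀ h1 (hle z) 2) (Pool.Agent.H30M.tau_nonneg hR z)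

/-- **The package at a node.** -/
theorem good_node {a b : ℂ × ℂ → ℂ} (ha : AnalyticAt ℂ a 0) (hb : AnalyticAt ℂ b 0) (ha0 : a 0 ≠ 0) (hb0 : b 0 ≠ 0)
    (hq : ∀ k l : ℕ, 1 ≤ k → 1 ≤ l → k * a 0 ≠ l * b 0) :
    Good (fun g _ => (∀ᶠ p in 𝓝 (0 : ℂ × ℂ), g p = p.1 * p.2) ∨ ∀ᶠ p in 𝓝 (0 : ℂ × ℂ), g p = p.1) fun p => (p.1 * a p, p.2 * b p) := by
  refine ⟨1, fun _ _ t => (t, 0), fun _ => sep_axis, fun g J hgg hw hJ => ?_⟩
  rcases hgg with hg | hg
  · -- a corner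
    have hg' : ∀ᶠ p in 𝓝 (0 : ℂ × ℂ), g p = p.1 * p.2 * (fun _ : ℂ × ℂ => (1 : ℂ)) p := hg.mono fun p hp => by rw [hp, mul_one]
    filter_upwards [corner_pkg ha hb ha0 hb0 hq analyticAt_const one_ne_zero hg' hJ] with r hr s hs hsr B hB
    refine ⟨1, 0, zero_le_one, le_rfl, ?_⟩
    intro d n q ψ _ _ _ _ _ M F Q lm Om p hD
    rw [zero_mul, zero_div]
    exact hr B hB d q ψ M F Q lm Om p hD s
  -- the weight is `x`
  obtain ⟨c₁, hc₁, hmain⟩ := localN1_node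
  have h1 := eventually_cball (ha.eventually_analyticAt.and (hb.eventually_analyticAt.and (hJ.eventually_analyticAt.and
    ((ha.continuousAt.eventually_ne ha0).and ((hb.continuousAt.eventually_ne hb0).and hg)))))
  filter_upwards [h1] with r hr s hs hsr B hB
  have r1 : AnalyticOnNhd ℂ a (closedBall 0 r) := fun p hp => (hr p hp).1
  have r2 : AnalyticOnNhd ℂ b (closedBall 0 r) := fun p hp => (hr p hp).2.1
  have r4 : AnalyticOnNhd ℂ J (closedBall 0 r) := fun p hp => (hr p hp).2.2.1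
  have r5 : ∀ p ∈ closedBall (0 : ℂ × ℂ) r, a p ≠ 0 := fun p hp => (hr p hp).2.2.2.1
  have r6 : ∀ p ∈ closedBall (0 : ℂ × ℂ) r, b p ≠ 0 := fun p hp => (hr p hp).2.2.2.2.1
  have r8 : ∀ p ∈ closedBall (0 : ℂ × ℂ) r, g p = p.1 := fun p hp => (hr p hp).2.2.2.2.2
  obtain ⟨K₁, hK₁, hab⟩ := ratio_bound r1 r2 r6
  obtain ⟨K₂, hK₂, hba⟩ := ratio_bound r2 r1 r5
  obtain ⟨C₂, hC₂, hgJ⟩ := ratio_bound r4 r1 r5
  set K : ℝ := max K₁ K₂ with hK
  have hK0 : 0 < K := lt_max_of_lt_left hK₁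
  refine ⟨1, c₁ * K, zero_le_one, by positivity, ?_⟩
  intro d n q ψ _ hn hqa hψ hord M F Q lm Om p hD
  have hcrv := hD.crv
  have hmem : ∀ z ∈ Om, p z ∈ closedBall (0 : ℂ × ℂ) r := fun z hz => ball_subset_closedBall (hcrv.mem z hz)
  have hN : NodeC (fun p => (p.1 * a p, p.2 * b p)) r Om p a b K :=
    ⟨hcrv, r1, r2, r5, r6, fun _ => rfl, fun p hp => (hab p hp).trans (mul_le_mul_of_nonneg_right (le_max_left _ _) (norm_nonneg _)),
      fun p hp => (hba p hp).trans (mul_le_mul_of_nonneg_right (le_max_right _ _) (norm_nonneg _))⟩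
  -- off the center no curve meets `{x = 0}`
  have hx : ∀ z ∈ Om, ∃ᶠ w in 𝓝 z, (p w).1 ≠ 0 := fun z hz => by
    have h2 : ∀ᶠ w in 𝓝 z, g (p w) = (p w).1 := by
      filter_upwards [hcrv.isOpen.mem_nhds hz] with w hw using r8 _ (hmem w hw)
    exact ((hD.g_ne z hz).and_eventually h2).mono fun w hw h4 => hw.1 (by rw [hw.2, h4])
  have hlz : ∀ z ∈ Om, p z ≠ 0 → (fun q : ℂ × ℂ => q.1) (p z) ≠ 0 := fun z hz hpz h3 => by
    have h4 : (p z).2 ≠ 0 := fun h4 => hpz (Prod.ext h3 h4)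
    obtain ⟨m, k, hm, hk, hmk⟩ := ord_axes hcrv (fun _ => rfl) hz (r1 _ (hmem z hz)).continuousAt (r2 _ (hmem z hz)).continuousAt (hx z hz)
      ((an_snd (hcrv.an z hz)).continuousAt.eventually_ne h4).frequently
    rw [hk.2 h4, Nat.cast_zero, zero_mul] at hmk
    have h5 : m = 0 := by exact_mod_cast (mul_eq_zero.1 hmk).resolve_right (r6 _ (hmem z hz))
    exact hm.1 h5 h3
  -- the order of the form on the axis
  obtain ⟨n', hn', hord'⟩ : HasOrd (fun _ t => (t, 0)) q n := by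
    rcases hord 0 with h2 | h2
    · exfalso
      have h4 : (fun t : ℂ => g (t, 0)) =ᶠ[𝓝 0] fun t => t := by
        have ht : Tendsto (fun t : ℂ => ((t, 0) : ℂ × ℂ)) (𝓝 0) (𝓝 0) := (continuous_id.prodMk continuous_const).tendsto 0
        exact ht.eventually hg
      obtain ⟨N, hN0⟩ := (sep_axis (a := a) (b := b)).nc
      refine hN0 (IsBigO.trans (IsBigO.of_bound 1 (Eventually.of_forall fun t => ?_)) (IsBigO.congr' (h2 N) h4 EventuallyEq.rfl))
      rw [one_mul, Prod.norm_mk, norm_zero]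
      exact max_le le_rfl (norm_nonneg _)
    · exact h2
  have hΛ : ∀ R, 1 ≤ R → 0 ≤ ∫ z, ‖gr (tau R) z‖ * lm z := fun R _ => integral_nonneg fun z => mul_nonneg (norm_nonneg _) (hD.lm_nonneg z)
  obtain ⟨cQ, hcQ, hcc⟩ := hD.Q_eq
  have key := hmain hN hK0.le hD.F_diff hD.F_ne hD.Q_diff hn hD.Q_le (l := fun q => q.1) (l₁ := fun q => q.1) (l₂ := fun _ => 1)
    (fun q => (mul_one _).symm) hs hsr (Or.inl fun _ => rfl) (Or.inr ⟨fun _ => rfl, n', hn', ?_⟩) hlz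
    (Λ := fun R => ∫ z, ‖gr (tau R) z‖ * lm z) hΛ
  · have e : c₁ * K * (d : ℝ) / n = c₁ * K * (d / n) := by ring
    rw [e]
    have hδ : 0 ≤ c₁ * K * ((d : ℝ) / n) := by positivity
    have key2 := tn_congr (g := g) hcrv (fun q hq => r8 q (ball_subset_closedBall hq)) (tn_energy key
      (I' := fun R => ∫ z, tau R z * lm z ^ 2) (fun R hR => En_le_lm hD.F_diff hD.F_ne hD.lm_cont hD.lam_le hR) hδ)
    refine locX_of_localN1 (C₁ := C₂ * B) hB (by positivity) hD.lm_cont hD.lm_nonneg hD.lm_ge key2 fun z hz hzt => ?_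
    rw [r8 _ (hmem z hz)]
    by_cases hxz : (p z).1 = 0
    · rw [hxz, norm_zero, mul_zero, zero_mul]
      exact mul_nonneg (by positivity) (hD.lm_nonneg z)
    · have hap := r5 _ (hmem z hz)
      have e2 : ztv (fun p => (p.1 * a p, p.2 * b p)) p z * (p z).1 * J (p z) = (deriv p z).1 * (J (p z) / a (p z)) := by
        rw [hN.dfst hz (Or.inl hxz)]
        field_simp
      rw [← norm_mul, ← norm_mul, e2, norm_mul, norm_div]
      calc ‖(deriv p z).1‖ * (‖J (p z)‖ / ‖a (p z)‖) ≤ ‖deriv p z‖ * C₂ :=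
            mul_le_mul (norm_fst_le _) (by rw [div_le_iff₀ (norm_pos_iff.2 hap)]; exact hgJ _ (hmem z hz)) (by positivity) (norm_nonneg _)
        _ ≤ B * lm z * C₂ := mul_le_mul_of_nonneg_right (hD.lm_ge z hz) hC₂.le
        _ = _ := by ring
  · have hsw : AnalyticAt ℂ (fun p : ℂ × ℂ => (p.2, p.1)) 0 := analyticAt_snd.prod analyticAt_fst
    have hq' : AnalyticAt ℂ (fun p : ℂ × ℂ => q (p.2, p.1)) 0 :=
      AnalyticAt.comp (g := q) (f := fun p : ℂ × ℂ => (p.2, p.1)) hqa hsw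
    have hψ' : ContDiffAt ℝ 1 (fun p : ℂ × ℂ => ψ (p.2, p.1)) 0 :=
      ContDiffAt.comp (g := ψ) (f := fun p : ℂ × ℂ => (p.2, p.1)) 0 hψ ((hsw.contDiffAt (n := 1)).restrict_scalars ℝ)
    obtain ⟨ρ, η, k1, k2, k3, k4⟩ := shell hq' (hn.trans hn') (hord' n' le_rfl) hψ' d hK0.le hs
    obtain ⟨b₀, k5⟩ := k4 cQ hcQ
    exact ⟨ρ, η, b₀, k1, k2, k3, k5 hD.F_diff hD.F_ne hN.ax₂ hcc⟩

end Pool.Agent.MQ2

end
end
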