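import Pool.Agent.H94.G6.M14
import Pool.Agent.H94.G6.M17
import Pool.Agent.H94.G6.M29
import Pool.Agent.H94.G6.M65

/-! The parts of this file: H5.BD.CDm, H5.BD.CDet, H36.BPL.GPa, H36.BPL.GPb. -/

section

/-!
# BD CDm: the functions `d = qc A i F (ψ z) - qc A i G z` and `Dm`

Let `h : MC ...` with constants `c₁`, `K ≥ K₀ ≥ 1`, `C = A.C`, and `K₂ = 100 C K³ (1 + 1 / c₁)` or a similar constant.
(1) Let `w ∈ closedBall w₀ (2 r₂)` with `dist (pr (G z)) (pr (F w)) ≤ ε`; `‖qc A i F w - qc A i G z‖ ≤ C ε` (`le_dist`, `goodF`, `goodG`), by `near` `‖w - ψ z‖ ≤ K C ε`, and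
`‖qc A i F w - qc A i F (ψ z)‖ ≤ K ‖w - ψ z‖` (mean value inequality on the convex set `closedBall w₀ (2 r₂)`, `der_le` for the good points).  So `‖d z‖ ≤ (1 + K²) C ε`.
(2) `d` is holomorphic on `ball z₀ (2 r₃)`.  For `z ∈ closedBall z₀ (s / 2)` Cauchy's estimate on `ball z (s / 2) ⊆ closedBall z₀ s` gives `‖d' z‖ ≤ 2 (1 + K²) C ε / s`.  `d' = ψ' • p_F' (ψ) - p_G'` with
`p_F' = deriv (qc A i F)`, `p_G' = deriv (qc A i G)` (chain rule).  `det2` is bilinear and alternating, so `det2 (p_F' (ψ z)) (p_G' z) = - det2 (p_F' (ψ z)) (d' z)`, of norm `≤ 2 K ‖d' z‖`.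
(3) `co e (d z) = 0` on `ball z₀ (2 r₃)`, so `co e (d' z) = 0`, `co e (p_G' z) = ψ' z * co e (p_F' (ψ z))`, and (both cases of `e`) `‖Dm z‖ = ‖d z‖ ‖co e (p_G' z)‖`.  By `coF`
`‖co e (p_G' z)‖ ≥ ‖ψ' z‖ / K`, and `c₁ ≤ ‖p_G' z‖ ≤ ‖ψ' z‖ K + ‖d' z‖`; if `‖d' z‖ ≤ c₁ / 2` then `‖ψ' z‖ ≥ c₁ / (2 K)` and `‖d z‖ ≤ (2 K² / c₁) ‖Dm z‖`.
(4) `Dm` is holomorphic.
-/

set_option autoImplicit false

open Topology Filter Metric

namespace Pool.Agent.H5.BD

open Pool.Agent.H36.BP (EN fs wd)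
open Pool.Agent.H14.PP (IsCone Chart Form Tan aCoef jac)
open Pool.Agent.H62.EF (MN pr det2)

variable {N : ℕ} {X : Set (EN N)} {A : Atlas X} {c L r₀ c₁ K₀ r₂ r₃ ε₃ K : ℝ}

/-- bounds for `d` and `Dm` -/
structure DmBound (A : Atlas X) (F G : ℂ → EN N) (i : Fin A.n) (z₀ : ℂ) (ψ : ℂ → ℂ) (s ε K₂ : ℝ) : Prop where
  le : ∀ z ∈ closedBall z₀ s, ‖qc A i F (ψ z) - qc A i G z‖ ≤ K₂ * ε
  angle : ∀ z ∈ closedBall z₀ (s / 2), ‖det2 (deriv (qc A i F) (ψ z)) (deriv (qc A i G) z)‖ ≤ K₂ * (ε / s)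
  lower : K₂ * (ε / s) ≤ 1 → ∀ z ∈ closedBall z₀ (s / 2), ‖qc A i F (ψ z) - qc A i G z‖ ≤ K₂ * ‖Dm A F G i ψ z‖

private theorem CDm_co_fst_snd (e : Bool) (p q : ℂ × ℂ) : co e (p - q) = co e p - co e q := by
  cases e <;> simp [co]

private theorem CDm_det2_norm (a b : ℂ × ℂ) : ‖det2 a b‖ ≤ 2 * ‖a‖ * ‖b‖ := by
  unfold det2
  have h1 : ‖a.1 * b.2‖ ≤ ‖a‖ * ‖b‖ := by
    rw [norm_mul]
    exact mul_le_mul (norm_fst_le a) (norm_snd_le b) (norm_nonneg _) (norm_nonneg _)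
  have h2 : ‖a.2 * b.1‖ ≤ ‖a‖ * ‖b‖ := by
    rw [norm_mul]
    exact mul_le_mul (norm_snd_le a) (norm_fst_le b) (norm_nonneg _) (norm_nonneg _)
  calc ‖a.1 * b.2 - a.2 * b.1‖ ≤ ‖a.1 * b.2‖ + ‖a.2 * b.1‖ := norm_sub_le _ _
    _ ≤ 2 * ‖a‖ * ‖b‖ := by nlinarith

private theorem CDm_det2_co (e : Bool) (d b : ℂ × ℂ) (h : co e d = 0) : ‖det2 d b‖ = ‖d‖ * ‖co e b‖ := by
  cases e
  · have h2 : d.2 = 0 := by simpa [co] using h
    have h3 : ‖d‖ = ‖d.1‖ := by
      rw [Prod.norm_def, h2, norm_zero]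
      exact max_eq_left (norm_nonneg _)
    have h4 : co false b = b.2 := by simp [co]
    unfold det2
    rw [h3, h4, h2, zero_mul, sub_zero, norm_mul]
  · have h2 : d.1 = 0 := by simpa [co] using h
    have h3 : ‖d‖ = ‖d.2‖ := by
      rw [Prod.norm_def, h2, norm_zero]
      exact max_eq_right (norm_nonneg _)
    have h4 : co true b = b.1 := by simp [co]
    unfold det2
    rw [h3, h4, h2, zero_mul, zero_sub, norm_neg, norm_mul]

private theorem CDm_co_deriv (e : Bool) {f : ℂ → ℂ × ℂ} {v : ℂ × ℂ} {z : ℂ} (hf : HasDerivAt f v z) :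
    HasDerivAt (fun z => co e (f z)) (co e v) z := by
  cases e
  · have h1 := (hasFDerivAt_snd (𝕜 := ℂ) (E := ℂ) (F := ℂ) (p := f z)).comp_hasDerivAt z hf
    simpa [co, Function.comp_def] using h1
  · have h1 := (hasFDerivAt_fst (𝕜 := ℂ) (E := ℂ) (F := ℂ) (p := f z)).comp_hasDerivAt z hf
    simpa [co, Function.comp_def] using h1

private theorem CDm_hasDeriv (h : MC A c L r₀ c₁ K₀ r₂ r₃ ε₃ K) {F G : ℂ → EN N} (hF : F ∈ BC X c L) (hG : G ∈ BC X c L)
    {i : Fin A.n} {w₀ z₀ : ℂ} {e : Bool} {ψ : ℂ → ℂ} (hm : Match A r₂ r₃ K F G i w₀ z₀ e ψ) {z : ℂ} (hz : z ∈ ball z₀ (2 * r₃)) :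
    HasDerivAt (fun z => qc A i F (ψ z) - qc A i G z) (deriv ψ z • deriv (qc A i F) (ψ z) - deriv (qc A i G) z) z := by
  have h1 : HasDerivAt ψ (deriv ψ z) z := ((hm.hol z hz).differentiableAt (isOpen_ball.mem_nhds hz)).hasDerivAt
  have hψ : ψ z ∈ closedBall w₀ (2 * r₂) := by
    have := hm.mem z hz
    rw [mem_closedBall] at this ⊢
    have h2 := h.r₂_pos
    linarith
  have h2 : HasDerivAt (qc A i F) (deriv (qc A i F) (ψ z)) (ψ z) :=
    (h.lc.an F hF i _ (hm.goodF _ hψ)).differentiableAt.hasDerivAt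
  have h3 : HasDerivAt (qc A i G) (deriv (qc A i G) z) z :=
    (h.lc.an G hG i _ (hm.goodG _ hz)).differentiableAt.hasDerivAt
  have h4 : HasDerivAt (fun z => qc A i F (ψ z)) (deriv ψ z • deriv (qc A i F) (ψ z)) z := h2.scomp z h1
  exact h4.sub h3

theorem MC.d_hol (h : MC A c L r₀ c₁ K₀ r₂ r₃ ε₃ K) {F G : ℂ → EN N} (hF : F ∈ BC X c L) (hG : G ∈ BC X c L) {i : Fin A.n} {w₀ z₀ : ℂ}
    {e : Bool} {ψ : ℂ → ℂ} (hm : Match A r₂ r₃ K F G i w₀ z₀ e ψ) :
    DifferentiableOn ℂ (fun z => qc A i F (ψ z) - qc A i G z) (ball z₀ (2 * r₃)) := by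
  intro z hz
  exact (CDm_hasDeriv h hF hG hm hz).differentiableAt.differentiableWithinAt

theorem MC.Dm_hol (h : MC A c L r₀ c₁ K₀ r₂ r₃ ε₃ K) {F G : ℂ → EN N} (hF : F ∈ BC X c L) (hG : G ∈ BC X c L) {i : Fin A.n} {w₀ z₀ : ℂ}
    {e : Bool} {ψ : ℂ → ℂ} (hm : Match A r₂ r₃ K F G i w₀ z₀ e ψ) : DifferentiableOn ℂ (Dm A F G i ψ) (ball z₀ (2 * r₃)) := by
  intro z hz
  have h1 : DifferentiableAt ℂ (fun z => qc A i F (ψ z) - qc A i G z) z := (CDm_hasDeriv h hF hG hm hz).differentiableAt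
  have h2 : DifferentiableAt ℂ (deriv (qc A i G)) z := (h.lc.an G hG i _ (hm.goodG _ hz)).deriv.differentiableAt
  have h3 : DifferentiableAt ℂ (Dm A F G i ψ) z := by
    have h4 : DifferentiableAt ℂ (fun z => ((qc A i F (ψ z) - qc A i G z).1 * (deriv (qc A i G) z).2 -
        (qc A i F (ψ z) - qc A i G z).2 * (deriv (qc A i G) z).1)) z :=
      (h1.fst.mul h2.snd).sub (h1.snd.mul h2.fst)
    exact h4
  exact h3.differentiableWithinAt

theorem MC.exists_dmBound (h : MC A c L r₀ c₁ K₀ r₂ r₃ ε₃ K) : ∃ K₂ : ℝ, 1 ≤ K₂ ∧ ∀ F ∈ BC X c L, ∀ G ∈ BC X c L, ∀ i w₀ z₀ e ψ,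
    Match A r₂ r₃ K F G i w₀ z₀ e ψ → ∀ s ε : ℝ, 0 < s → s ≤ r₃ → 0 ≤ ε →
      (∀ z ∈ closedBall z₀ s, ∃ w ∈ closedBall w₀ (2 * r₂), dist (pr (G z)) (pr (F w)) ≤ ε) → DmBound A F G i z₀ ψ s ε K₂ := by
  have hK₀ : 1 ≤ K₀ := h.lc.one_le
  have hK : 1 ≤ K := hK₀.trans h.le_K
  have hC : 1 ≤ A.C := A.one_le
  have hc₁ : 0 < c₁ := h.lc.c₁_pos
  have hr₂ : 0 < r₂ := h.r₂_pos
  have hr₃ : 0 < r₃ := h.r₃_pos
  set M : ℝ := (1 + K ^ 2) * A.C with hMdef
  have hM1 : 1 ≤ M := by rw [hMdef]; nlinarith [sq_nonneg K]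
  have hM0 : 0 < M := by linarith
  have p1 : 0 ≤ 4 * K * M := by positivity
  have p2 : 0 ≤ 4 * M / c₁ := by positivity
  have p3 : 0 ≤ 2 * K ^ 2 / c₁ := by positivity
  refine ⟨M + 4 * K * M + 4 * M / c₁ + 2 * K ^ 2 / c₁, by linarith, ?_⟩
  intro F hF G hG i w₀ z₀ e ψ hm s ε hs hsr hε hw
  have hsub : closedBall z₀ s ⊆ ball z₀ (2 * r₃) := closedBall_subset_ball (by linarith)
  -- (1)
  have hd : ∀ z ∈ closedBall z₀ s, ‖qc A i F (ψ z) - qc A i G z‖ ≤ M * ε := by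
    intro z hz
    obtain ⟨w, hwm, hwd⟩ := hw z hz
    have hzb := hsub hz
    have e1 : ‖qc A i F w - qc A i G z‖ ≤ A.C * ε := by
      have := A.le_dist i (F w) (G z) (hm.goodF w hwm) (hm.goodG z hzb)
      rw [dist_comm] at this
      exact this.trans (mul_le_mul_of_nonneg_left hwd (by linarith))
    have e2 : ‖w - ψ z‖ ≤ K * (A.C * ε) :=
      (hm.near z hzb w hwm).trans (mul_le_mul_of_nonneg_left e1 (by linarith))
    have hψ : ψ z ∈ closedBall w₀ (2 * r₂) := closedBall_subset_closedBall (by linarith) (hm.mem z hzb)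
    have e3 : ‖qc A i F (ψ z) - qc A i F w‖ ≤ K * ‖ψ z - w‖ := by
      refine Convex.norm_image_sub_le_of_norm_deriv_le (𝕜 := ℂ) (s := closedBall w₀ (2 * r₂)) ?_ ?_
        (convex_closedBall _ _) hwm hψ
      · intro x hx
        exact (h.lc.an F hF i x (hm.goodF x hx)).differentiableAt
      · intro x hx
        exact (h.lc.der_le F hF i x (hm.goodF x hx)).trans h.le_K
    have e4 : ‖ψ z - w‖ ≤ K * (A.C * ε) := by rw [norm_sub_rev]; exact e2
    have e5 : qc A i F (ψ z) - qc A i G z = (qc A i F (ψ z) - qc A i F w) + (qc A i F w - qc A i G z) := by abel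
    rw [e5]
    refine (norm_add_le _ _).trans ?_
    have e6 : K * ‖ψ z - w‖ ≤ K * (K * (A.C * ε)) := mul_le_mul_of_nonneg_left e4 (by linarith)
    have e7 : K * (K * (A.C * ε)) + A.C * ε = M * ε := by rw [hMdef]; ring
    linarith
  -- (2)
  have hd' : ∀ z ∈ closedBall z₀ (s / 2), ‖deriv ψ z • deriv (qc A i F) (ψ z) - deriv (qc A i G) z‖ ≤ 2 * M * (ε / s) := by
    intro z hz
    have hzs : closedBall z (s / 2) ⊆ closedBall z₀ s := by
      apply closedBall_subset_closedBall'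
      rw [mem_closedBall] at hz
      linarith
    have hzb : z ∈ ball z₀ (2 * r₃) := hsub (hzs (mem_closedBall_self (by linarith)))
    have h1 := (CDm_hasDeriv h hF hG hm hzb).deriv
    rw [← h1]
    have h2 : DifferentiableOn ℂ (fun z => qc A i F (ψ z) - qc A i G z) (closedBall z (s / 2)) :=
      (h.d_hol hF hG hm).mono (hzs.trans hsub)
    have h3 : DiffContOnCl ℂ (fun z => qc A i F (ψ z) - qc A i G z) (ball z (s / 2)) :=
      h2.diffContOnCl_ball subset_rfl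
    have h4 := Complex.norm_deriv_le_of_forall_mem_sphere_norm_le (by linarith : 0 < s / 2) h3
      (fun u hu => hd u (hzs (sphere_subset_closedBall hu)))
    refine h4.trans (le_of_eq ?_)
    field_simp
  have hψm : ∀ z ∈ closedBall z₀ (s / 2), z ∈ ball z₀ (2 * r₃) ∧ ψ z ∈ closedBall w₀ (2 * r₂) := by
    intro z hz
    have hzb : z ∈ ball z₀ (2 * r₃) := hsub (closedBall_subset_closedBall (by linarith) hz)
    exact ⟨hzb, closedBall_subset_closedBall (by linarith) (hm.mem z hzb)⟩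
  have hεs : 0 ≤ ε / s := by positivity
  refine ⟨?_, ?_, ?_⟩
  · intro z hz
    refine (hd z hz).trans ?_
    apply mul_le_mul_of_nonneg_right _ hε
    linarith
  · intro z hz
    obtain ⟨hzb, hψ⟩ := hψm z hz
    have a1 := hd' z hz
    set a := deriv (qc A i F) (ψ z) with ha
    set b := deriv (qc A i G) z with hb
    set d' := deriv ψ z • a - b with hd'def
    have a2 : det2 a b = - det2 a d' := by
      have : b = deriv ψ z • a - d' := by rw [hd'def]; abel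
      rw [hd'def]
      simp only [det2, Prod.fst_sub, Prod.snd_sub, Prod.smul_fst, Prod.smul_snd, smul_eq_mul]
      ring
    rw [a2, norm_neg]
    have a3 : ‖a‖ ≤ K := (h.lc.der_le F hF i _ (hm.goodF _ hψ)).trans h.le_K
    calc ‖det2 a d'‖ ≤ 2 * ‖a‖ * ‖d'‖ := CDm_det2_norm a d'
      _ ≤ 2 * K * (2 * M * (ε / s)) := by
          apply mul_le_mul _ a1 (norm_nonneg _) (by positivity)
          linarith
      _ = 4 * K * M * (ε / s) := by ring
      _ ≤ (M + 4 * K * M + 4 * M / c₁ + 2 * K ^ 2 / c₁) * (ε / s) := by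
          apply mul_le_mul_of_nonneg_right _ hεs
          linarith
  · intro hsmall z hz
    obtain ⟨hzb, hψ⟩ := hψm z hz
    have a1 := hd' z hz
    have hco0 : co e (qc A i F (ψ z) - qc A i G z) = 0 := by
      rw [CDm_co_fst_snd, hm.eq z hzb, sub_self]
    have hcod : co e (deriv ψ z • deriv (qc A i F) (ψ z) - deriv (qc A i G) z) = 0 := by
      have h1 := CDm_co_deriv e (CDm_hasDeriv h hF hG hm hzb)
      have h2 : HasDerivAt (fun z => co e (qc A i F (ψ z) - qc A i G z)) 0 z := by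
        apply (hasDerivAt_const z (0 : ℂ)).congr_of_eventuallyEq
        filter_upwards [isOpen_ball.mem_nhds hzb] with u hu
        rw [CDm_co_fst_snd, hm.eq u hu, sub_self]
      exact h1.unique h2
    set a := deriv (qc A i F) (ψ z) with ha
    set b := deriv (qc A i G) z with hb
    have a3 : ‖a‖ ≤ K := (h.lc.der_le F hF i _ (hm.goodF _ hψ)).trans h.le_K
    have a4 : c₁ ≤ ‖b‖ := h.lc.der_ge G hG i _ (hm.goodG _ hzb)
    have a5 : 1 ≤ K * ‖co e a‖ := hm.coF _ hψ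
    have a6 : co e b = deriv ψ z * co e a := by
      have : co e (deriv ψ z • a) = deriv ψ z * co e a := by cases e <;> simp [co]
      rw [CDm_co_fst_snd, this] at hcod
      exact (sub_eq_zero.1 hcod).symm
    have a7 : ‖deriv ψ z • a - b‖ ≤ c₁ / 2 := by
      refine a1.trans ?_
      have h1 : 4 * M / c₁ * (ε / s) ≤ 1 := by
        refine le_trans ?_ hsmall
        apply mul_le_mul_of_nonneg_right _ hεs
        linarith
      have h2 : 2 * M * (ε / s) = (c₁ / 2) * (4 * M / c₁ * (ε / s)) := by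
        field_simp
        ring
      rw [h2]
      have := mul_le_mul_of_nonneg_left h1 (by positivity : 0 ≤ c₁ / 2)
      linarith
    have a8 : c₁ / 2 ≤ K * ‖deriv ψ z‖ := by
      have h1 : b = deriv ψ z • a - (deriv ψ z • a - b) := by abel
      have h2 : ‖b‖ ≤ ‖deriv ψ z • a‖ + ‖deriv ψ z • a - b‖ := by
        calc ‖b‖ = ‖deriv ψ z • a - (deriv ψ z • a - b)‖ := by rw [← h1]
          _ ≤ _ := norm_sub_le _ _
      rw [norm_smul] at h2
      have h3 : ‖deriv ψ z‖ * ‖a‖ ≤ ‖deriv ψ z‖ * K := mul_le_mul_of_nonneg_left a3 (norm_nonneg _)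
      nlinarith
    have a9 : c₁ / 2 ≤ K ^ 2 * ‖co e b‖ := by
      rw [a6, norm_mul]
      have h1 : ‖deriv ψ z‖ * 1 ≤ ‖deriv ψ z‖ * (K * ‖co e a‖) := mul_le_mul_of_nonneg_left a5 (norm_nonneg _)
      have h2 : K * (‖deriv ψ z‖ * 1) ≤ K * (‖deriv ψ z‖ * (K * ‖co e a‖)) := mul_le_mul_of_nonneg_left h1 (by linarith)
      calc c₁ / 2 ≤ K * ‖deriv ψ z‖ := a8
        _ = K * (‖deriv ψ z‖ * 1) := by ring
        _ ≤ K * (‖deriv ψ z‖ * (K * ‖co e a‖)) := h2
        _ = K ^ 2 * (‖deriv ψ z‖ * ‖co e a‖) := by ring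
    have a10 : ‖Dm A F G i ψ z‖ = ‖qc A i F (ψ z) - qc A i G z‖ * ‖co e b‖ := by
      unfold Dm
      exact CDm_det2_co e _ _ hco0
    have a11 : ‖qc A i F (ψ z) - qc A i G z‖ ≤ 2 * K ^ 2 / c₁ * ‖Dm A F G i ψ z‖ := by
      rw [a10]
      have h1 : ‖qc A i F (ψ z) - qc A i G z‖ * (c₁ / 2) ≤ ‖qc A i F (ψ z) - qc A i G z‖ * (K ^ 2 * ‖co e b‖) :=
        mul_le_mul_of_nonneg_left a9 (norm_nonneg _)
      have h2 : 2 * K ^ 2 / c₁ * (‖qc A i F (ψ z) - qc A i G z‖ * ‖co e b‖) =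
          (2 / c₁) * (‖qc A i F (ψ z) - qc A i G z‖ * (K ^ 2 * ‖co e b‖)) := by ring
      rw [h2]
      have h3 : ‖qc A i F (ψ z) - qc A i G z‖ = (2 / c₁) * (‖qc A i F (ψ z) - qc A i G z‖ * (c₁ / 2)) := by
        field_simp
      calc ‖qc A i F (ψ z) - qc A i G z‖ = (2 / c₁) * (‖qc A i F (ψ z) - qc A i G z‖ * (c₁ / 2)) := h3
        _ ≤ _ := mul_le_mul_of_nonneg_left h1 (by positivity)
    refine a11.trans ?_
    apply mul_le_mul_of_nonneg_right _ (norm_nonneg _)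
    linarith

end Pool.Agent.H5.BD

end

section

/-!
# BD CDet: comparison of `Dm` with the determinant for the nearest point, in another chart

Let `K₂` be as in `exists_dmBound`, `C = A.C`.  `ε` is small, depending on `s` and `η` (`ε ≤ ε₃`, `ε ≤ A.δ / 2`, `K₂ ε / s ≤ 1`, ...).  Let `F, G, z₀, φ, e, ψ, z, w` be as in the statement,
`k = A.idx (pr (F (φ z₀)))`, `i = A.idx (pr (G z))`, `x = G z`, `y = F w`, `y' = F (ψ z)`, `t = ‖(χ k).q y' - (χ k).q x‖ = ‖qc A k F (ψ z) - qc A k G z‖`.  `FolAt` gives the hypothesis of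
`exists_dmBound` (`φ z ∈ closedBall (φ z₀) (r₂ / 4)`), so `t ≤ K₂ ε`, `t ≤ K₂ ‖Dm z‖`, and `‖det2 (p_F' (ψ z)) g'‖ ≤ K₂ ε / s` where `p_F' = deriv (qc A k F)`, `g' = deriv (qc A k G) z`, `‖g'‖ ≤ K`.
`w ∈ closedBall (φ z) r₂ ⊆ closedBall (φ z₀) (2 r₂)`, so `y` is good for `k` (`goodF`), `x` is good for `k` (`goodG`).
(a) `ψ z ∈ closedBall (φ z) r₂`: by `near` for `φ z`: `‖φ z - ψ z‖ ≤ K ‖qc A k F (φ z) - qc A k G z‖ ≤ K C ε ≤ r₂`.  So `dist (pr x) (pr y) ≤ dist (pr x) (pr y') ≤ C t` (`dist_le`), and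
`‖(χ k).q y - (χ k).q x‖ ≤ C² t`; by `near` `‖w - ψ z‖ ≤ K C² t`.
(b) Let `ν = (χ k).q y - (χ k).q x`, `ν' = (χ k).q y' - (χ k).q x`.  `ν - ν' = p_F (w) - p_F (ψ z) = p_F' (ψ z) (w - ψ z) + E₁`, `‖E₁‖ ≤ K ‖w - ψ z‖²` (`der_lip`; the points are in `ball (φ z₀) (r₀ / 2)`).  So
`‖det2 ν g' - Dm z‖ ≤ (K₂ ε / s) K C² t + 2 K K (K C² t)² ≤ K₃ (ε / s + ε) t`.
(c) `x, y` are good for `i` (`dist (pr x) (pr y) ≤ C t ≤ A.δ`, `A.good`).  `T = fderiv (fun p => (χ i).q ((χ k).σ p)) ((χ k).q x)`: `A.trans` (with `i := k`, `j := i`) `(χ i).q y - (χ i).q x = T ν + E₂`,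
`‖E₂‖ ≤ C ‖ν‖² ≤ C (C² t)²`.  Chain rule: `deriv (qc A i G) z = T g'` (near `z` `qc A i G = (χ i).q ∘ (χ k).σ ∘ qc A k G` because `G = a • (χ k).σ (qc A k G)`).  `det2 (T ν) (T g') = jac * det2 ν g'`
where `jac` is the Jacobian (`T` has the matrix in the definition of `jac`).  So the determinant in the chart `i` differs from `jac * det2 ν g'` by at most `2 C (C² t)² C K`.
(d) Together: `‖det2 ((χ i).q y - (χ i).q x) (deriv (qc A i G) z) - jac * Dm z‖ ≤ K₄ (ε + ε / s) t ≤ K₄ (ε + ε / s) K₂ ‖Dm z‖ ≤ K₄ K₂ C (ε + ε / s) ‖jac‖ ‖Dm z‖` (`jac_ge`).  If `ε` is so small that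
`K₄ K₂ C (ε + ε / s) ≤ 1 - exp (-η)` this gives both inequalities (`1 - exp (-η) ≤ exp η - 1`).
-/

set_option autoImplicit false

open Topology Filter Metric

namespace Pool.Agent.H5.BD

open Pool.Agent.H36.BP (EN fs wd)
open Pool.Agent.H14.PP (IsCone Chart Form Tan aCoef jac)
open Pool.Agent.H62.EF (MN pr det2)

variable {N : ℕ} {X : Set (EN N)} {A : Atlas X} {c L r₀ c₁ K₀ r₂ r₃ ε₃ K : ℝ}

private theorem CDet_norm (a b : ℂ × ℂ) : ‖det2 a b‖ ≤ 2 * (‖a‖ * ‖b‖) := by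
  unfold det2
  have h1 : ‖a.1 * b.2‖ ≤ ‖a‖ * ‖b‖ := by
    rw [norm_mul]
    exact mul_le_mul (norm_fst_le a) (norm_snd_le b) (norm_nonneg _) (norm_nonneg _)
  have h2 : ‖a.2 * b.1‖ ≤ ‖a‖ * ‖b‖ := by
    rw [norm_mul]
    exact mul_le_mul (norm_snd_le a) (norm_fst_le b) (norm_nonneg _) (norm_nonneg _)
  calc ‖a.1 * b.2 - a.2 * b.1‖ ≤ ‖a.1 * b.2‖ + ‖a.2 * b.1‖ := norm_sub_le _ _
    _ ≤ 2 * (‖a‖ * ‖b‖) := by linarith

private theorem CDet_map (T : ℂ × ℂ →L[ℂ] ℂ × ℂ) (a b : ℂ × ℂ) :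
    det2 (T a) (T b) = ((T (1, 0)).1 * (T (0, 1)).2 - (T (0, 1)).1 * (T (1, 0)).2) * det2 a b := by
  have h : ∀ v : ℂ × ℂ, T v = v.1 • T (1, 0) + v.2 • T (0, 1) := by
    intro v
    have h1 : v = v.1 • ((1 : ℂ), (0 : ℂ)) + v.2 • ((0 : ℂ), (1 : ℂ)) := by
      ext <;> simp
    conv_lhs => rw [h1]
    rw [map_add, map_smul, map_smul]
  rw [h a, h b]
  unfold det2
  simp only [Prod.fst_add, Prod.snd_add, Prod.smul_fst, Prod.smul_snd, smul_eq_mul]
  ring

/-- second order Taylor estimate -/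
private theorem CDet_taylor {p : ℂ → ℂ × ℂ} {w₀ : ℂ} {ρ M : ℝ} (hp : ∀ u ∈ ball w₀ ρ, DifferentiableAt ℂ p u)
    (hM : ∀ u ∈ ball w₀ ρ, ∀ u' ∈ ball w₀ ρ, ‖deriv p u - deriv p u'‖ ≤ M * ‖u - u'‖) (hM0 : 0 ≤ M) {w w' : ℂ} (hw : w ∈ ball w₀ ρ)
    (hw' : w' ∈ ball w₀ ρ) : ‖p w - p w' - (w - w') • deriv p w'‖ ≤ M * ‖w - w'‖ ^ 2 := by
  have hconv : Convex ℝ (ball w₀ ρ ∩ closedBall w' ‖w - w'‖) := (convex_ball _ _).inter (convex_closedBall _ _)
  have h1 := hconv.norm_image_sub_le_of_norm_hasDerivWithin_le (𝕜 := ℂ) (f := fun u => p u - u • deriv p w')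
    (f' := fun u => deriv p u - (1 : ℂ) • deriv p w') (C := M * ‖w - w'‖) (x := w') (y := w) ?_ ?_ ?_ ?_
  · have h2 : p w - w • deriv p w' - (p w' - w' • deriv p w') = p w - p w' - (w - w') • deriv p w' := by
      rw [sub_smul]; abel
    rw [h2] at h1
    calc ‖p w - p w' - (w - w') • deriv p w'‖ ≤ M * ‖w - w'‖ * ‖w - w'‖ := h1
      _ = M * ‖w - w'‖ ^ 2 := by ring
  · intro u hu
    exact (((hp u hu.1).hasDerivAt).sub ((hasDerivAt_id u).smul_const (deriv p w'))).hasDerivWithinAt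
  · intro u hu
    rw [one_smul]
    refine (hM u hu.1 w' hw').trans (mul_le_mul_of_nonneg_left ?_ hM0)
    have h3 := hu.2
    rwa [mem_closedBall, dist_eq_norm] at h3
  · exact ⟨hw', mem_closedBall_self (norm_nonneg _)⟩
  · refine ⟨hw, ?_⟩
    rw [mem_closedBall, dist_eq_norm]

/-- the chain rule for the change of charts -/
private theorem CDet_chain (hX : IsCone X) {G : ℂ → EN N} (hG : Differentiable ℂ G) (hGX : ∀ z, G z ∈ X) {χ χ' : Chart X} {z : ℂ}
    (h : Good χ (G z)) (h' : Good χ' (G z)) :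
    deriv (fun z => χ'.q (G z)) z = fderiv ℂ (fun p => χ'.q (χ.σ p)) (χ.q (G z)) (deriv (fun z => χ.q (G z)) z) := by
  have hcurve : Pool.Agent.H14.PP.CurveAt X G z := ⟨hG.analyticAt z, Eventually.of_forall hGX⟩
  obtain ⟨han, -, a, -, -, hev⟩ := χ.curve hX hcurve h.2.1
  have hb : χ.q (G z) ∈ ball (0 : ℂ × ℂ) 2 := (χ.surj _ h.1 h.2.1).1
  obtain ⟨a₀, ha₀, hGz⟩ := (χ.surj _ h.1 h.2.1).2
  have hσU : χ.σ (χ.q (G z)) ∈ χ'.U := by
    have h1 := χ'.smul_U _ h'.2.1 a₀⁻¹ (inv_ne_zero ha₀)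
    rw [hGz] at h1
    rw [smul_smul, inv_mul_cancel₀ ha₀, one_smul] at h1
    convert h1 using 3
  have hd : DifferentiableAt ℂ (fun p => χ'.q (χ.σ p)) (χ.q (G z)) := by
    have h1 : AnalyticAt ℂ (fun p => χ'.q (χ.σ p)) (χ.q (G z)) :=
      AnalyticAt.comp (g := χ'.q) (f := χ.σ) (χ'.q_an _ hσU) (χ.σ_an _ hb)
    exact h1.differentiableAt
  have heq : (fun z => χ'.q (G z)) =ᶠ[𝓝 z] fun z => (fun p => χ'.q (χ.σ p)) (χ.q (G z)) := by
    have hU' : ∀ᶠ u in 𝓝 z, G u ∈ χ'.U := (hG.continuous.continuousAt).eventually_mem (χ'.isOpen_U.mem_nhds h'.2.1)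
    filter_upwards [hev, hU'] with u hu huU
    have ha : a u ≠ 0 := by
      intro h0
      have h1 := hGX u
      rw [hu.2, h0, zero_smul] at h1
      exact hX.zero_notMem h1
    have h1 : χ.σ (χ.q (G u)) ∈ χ'.U := by
      have h2 := χ'.smul_U _ huU (a u)⁻¹ (inv_ne_zero ha)
      have h3 : (a u)⁻¹ • G u = χ.σ (χ.q (G u)) := by
        conv_lhs => rw [hu.2]
        rw [smul_smul, inv_mul_cancel₀ ha, one_smul]
      rwa [h3] at h2
    show χ'.q (G u) = χ'.q (χ.σ (χ.q (G u)))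
    conv_lhs => rw [hu.2]
    exact χ'.q_smul _ h1 _ ha
  rw [heq.deriv_eq]
  exact (hd.hasFDerivAt.comp_hasDerivAt z han.differentiableAt.hasDerivAt).deriv

/-- the numerical conclusion -/
private theorem CDet_num {η a J D E : ℝ} (hJD : 0 ≤ J * D) (h : |a - J * D| ≤ E * (J * D)) (hE : E ≤ 1 - Real.exp (-η)) :
    Real.exp (-η) * (J * D) ≤ a ∧ a ≤ Real.exp η * (J * D) := by
  have h1 : E * (J * D) ≤ (1 - Real.exp (-η)) * (J * D) := mul_le_mul_of_nonneg_right hE hJD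
  have h2 := abs_le.1 (h.trans h1)
  have h3 : 2 ≤ Real.exp η + Real.exp (-η) := by
    linarith [Real.add_one_le_exp η, Real.add_one_le_exp (-η)]
  constructor
  · linarith [h2.1]
  · linarith [h2.2, mul_le_mul_of_nonneg_right h3 hJD]

/-- the estimate for one configuration -/
private theorem CDet_main (hX : IsCone X) (h : MC A c L r₀ c₁ K₀ r₂ r₃ ε₃ K) {K₂ s ε : ℝ} (hK₂ : 1 ≤ K₂) (hs : 0 < s) (hs₃ : s ≤ r₃) (hε : 0 < ε)
    (hε1 : K₂ * (ε / s) ≤ 1) (hε2 : K * (A.C * ε) ≤ r₂) (hε3 : A.C * (K₂ * ε) ≤ A.δ) {F G : ℂ → EN N} (hF : F ∈ BC X c L) (hG : G ∈ BC X c L)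
    {z₀ : ℂ} {φ : ℂ → ℂ} (hfol : FolAt evp r₂ s ε F G z₀ φ) {e : Bool} {ψ : ℂ → ℂ} {k : Fin A.n} (hk : k = A.idx (pr (F (φ z₀))))
    (hm : Match A r₂ r₃ K F G k (φ z₀) z₀ e ψ) (hD : DmBound A F G k z₀ ψ s ε K₂) {z : ℂ} (hz : z ∈ closedBall z₀ (s / 2)) {w : ℂ}
    (hw : w ∈ closedBall (φ z) r₂) (hmin : ∀ w' ∈ closedBall (φ z) r₂, dist (pr (G z)) (pr (F w)) ≤ dist (pr (G z)) (pr (F w'))) {i : Fin A.n}
    (hi : i = A.idx (pr (G z))) :
    ‖det2 (qc A i F w - qc A i G z) (deriv (qc A i G) z) - jac (fun p => (A.χ i).q ((A.χ k).σ p)) (qc A k G z) * Dm A F G k ψ z‖ ≤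
      (K * A.C ^ 2 * K₂ ^ 2 * (ε / s) + (2 * K₀ ^ 2 * K ^ 2 * A.C ^ 4 * K₂ ^ 2 + 2 * K₀ * A.C ^ 6 * K₂ ^ 2) * ε) *
        (‖jac (fun p => (A.χ i).q ((A.χ k).σ p)) (qc A k G z)‖ * ‖Dm A F G k ψ z‖) := by
  have hC : 1 ≤ A.C := A.one_le
  have hK₀ : 1 ≤ K₀ := h.lc.one_le
  have hK : 1 ≤ K := hK₀.trans h.le_K
  have hr₂ := h.r₂_pos
  have hr₃ := h.r₃_pos
  have hzn : ‖z - z₀‖ ≤ s / 2 := by rwa [mem_closedBall, dist_eq_norm] at hz
  have hzs : z ∈ closedBall z₀ s := by rw [mem_closedBall, dist_eq_norm]; linarith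
  have hzb : z ∈ ball z₀ (2 * r₃) := by rw [mem_ball, dist_eq_norm]; linarith
  obtain ⟨hd1, hd2⟩ := hfol z hzs
  have hd1' : dist (pr (G z)) (pr (F (φ z))) ≤ ε := hd1
  have hφz : φ z ∈ closedBall (φ z₀) (2 * r₂) := by rw [mem_closedBall, dist_eq_norm]; linarith
  have hwn : ‖w - φ z‖ ≤ r₂ := by rwa [mem_closedBall, dist_eq_norm] at hw
  have hwn' : ‖w - φ z₀‖ ≤ r₂ + r₂ / 4 := by
    calc ‖w - φ z₀‖ = ‖(w - φ z) + (φ z - φ z₀)‖ := by rw [sub_add_sub_cancel]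
      _ ≤ ‖w - φ z‖ + ‖φ z - φ z₀‖ := norm_add_le _ _
      _ ≤ r₂ + r₂ / 4 := add_le_add hwn hd2
  have hw2 : w ∈ closedBall (φ z₀) (2 * r₂) := by rw [mem_closedBall, dist_eq_norm]; linarith
  have hψm : ‖ψ z - φ z₀‖ ≤ r₂ := by
    have h1 := hm.mem z hzb
    rwa [mem_closedBall, dist_eq_norm] at h1
  have hψ2 : ψ z ∈ closedBall (φ z₀) (2 * r₂) := by rw [mem_closedBall, dist_eq_norm]; linarith
  have gx : Good (A.χ k) (G z) := hm.goodG z hzb
  have gy : Good (A.χ k) (F w) := hm.goodF w hw2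
  have gy' : Good (A.χ k) (F (ψ z)) := hm.goodF (ψ z) hψ2
  have gφ : Good (A.χ k) (F (φ z)) := hm.goodF (φ z) hφz
  obtain ⟨t, ht⟩ : ∃ t : ℝ, t = ‖qc A k F (ψ z) - qc A k G z‖ := ⟨_, rfl⟩
  have ht0 : 0 ≤ t := by rw [ht]; exact norm_nonneg _
  have ht1 : t ≤ K₂ * ε := by rw [ht]; exact hD.le z hzs
  have ht2 : t ≤ K₂ * ‖Dm A F G k ψ z‖ := by rw [ht]; exact hD.lower hε1 z hz
  -- (a)
  have hψφ : ψ z ∈ closedBall (φ z) r₂ := by
    rw [mem_closedBall, dist_eq_norm, norm_sub_rev]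
    have h1 := hm.near z hzb (φ z) hφz
    have h2 : ‖qc A k F (φ z) - qc A k G z‖ ≤ A.C * ε := by
      have h3 := A.le_dist k _ _ gφ gx
      rw [dist_comm] at h3
      exact h3.trans (mul_le_mul_of_nonneg_left hd1' (by linarith))
    exact h1.trans ((mul_le_mul_of_nonneg_left h2 (by linarith)).trans hε2)
  have hxy : dist (pr (G z)) (pr (F w)) ≤ A.C * t := by
    refine (hmin (ψ z) hψφ).trans ?_
    have h1 := A.dist_le k _ _ gx gy'
    rw [norm_sub_rev] at h1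
    rw [ht]
    exact h1
  have hν : ‖qc A k F w - qc A k G z‖ ≤ A.C ^ 2 * t := by
    have h1 := A.le_dist k _ _ gy gx
    rw [dist_comm] at h1
    have h2 := h1.trans (mul_le_mul_of_nonneg_left hxy (by linarith))
    calc ‖qc A k F w - qc A k G z‖ ≤ A.C * (A.C * t) := h2
      _ = A.C ^ 2 * t := by ring
  have hwψ : ‖w - ψ z‖ ≤ K * (A.C ^ 2 * t) :=
    (hm.near z hzb w hw2).trans (mul_le_mul_of_nonneg_left hν (by linarith))
  -- (b)
  have hgoodF : ∀ u ∈ ball (φ z₀) r₀, Good (A.χ k) (F u) := by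
    rw [hk]
    exact h.lc.good F hF _ (hF.2.1 _) (φ z₀) (by rw [dist_self]; have := A.δ_pos; linarith)
  have hr₀ := h.lc.r₀_pos
  have hr₂₀ := h.r₂_le
  have htay : ‖qc A k F w - qc A k F (ψ z) - (w - ψ z) • deriv (qc A k F) (ψ z)‖ ≤ K₀ * ‖w - ψ z‖ ^ 2 := by
    refine CDet_taylor (w₀ := φ z₀) (ρ := r₀ / 2) ?_ ?_ (by linarith) ?_ ?_
    · intro u hu
      exact (h.lc.an F hF k u (hgoodF u (ball_subset_ball (by linarith) hu))).differentiableAt
    · exact h.lc.der_lip F hF k (φ z₀) hgoodF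
    · rw [mem_ball, dist_eq_norm]; linarith
    · rw [mem_ball, dist_eq_norm]; linarith
  obtain ⟨g', hg'⟩ : ∃ g' : ℂ × ℂ, g' = deriv (qc A k G) z := ⟨_, rfl⟩
  have hg'n : ‖g'‖ ≤ K₀ := by rw [hg']; exact h.lc.der_le G hG k z gx
  have hang : ‖det2 (deriv (qc A k F) (ψ z)) g'‖ ≤ K₂ * (ε / s) := by rw [hg']; exact hD.angle z hz
  obtain ⟨E₁, hE₁⟩ : ∃ E₁ : ℂ × ℂ, E₁ = qc A k F w - qc A k F (ψ z) - (w - ψ z) • deriv (qc A k F) (ψ z) := ⟨_, rfl⟩
  obtain ⟨ν, hνd⟩ : ∃ ν : ℂ × ℂ, ν = qc A k F w - qc A k G z := ⟨_, rfl⟩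
  have hν' : ‖ν‖ ≤ A.C ^ 2 * t := by rw [hνd]; exact hν
  have hb1 : det2 ν g' - Dm A F G k ψ z = (w - ψ z) * det2 (deriv (qc A k F) (ψ z)) g' + det2 E₁ g' := by
    rw [hνd, hE₁, hg']
    unfold Dm det2
    simp only [Prod.fst_sub, Prod.snd_sub, Prod.smul_fst, Prod.smul_snd, smul_eq_mul]
    ring
  have hb2 : ‖det2 ν g' - Dm A F G k ψ z‖ ≤ (K * A.C ^ 2 * K₂ * (ε / s) + 2 * K₀ ^ 2 * K ^ 2 * A.C ^ 4 * K₂ * ε) * t := by
    have hwψ2 : ‖w - ψ z‖ ^ 2 ≤ (K * (A.C ^ 2 * t)) ^ 2 := pow_le_pow_left₀ (norm_nonneg _) hwψ 2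
    have h1 : ‖(w - ψ z) * det2 (deriv (qc A k F) (ψ z)) g'‖ ≤ (K * (A.C ^ 2 * t)) * (K₂ * (ε / s)) := by
      rw [norm_mul]
      exact mul_le_mul hwψ hang (norm_nonneg _) (by positivity)
    have h2 : ‖det2 E₁ g'‖ ≤ 2 * ((K₀ * (K * (A.C ^ 2 * t)) ^ 2) * K₀) := by
      refine (CDet_norm _ _).trans (mul_le_mul_of_nonneg_left ?_ (by norm_num))
      refine mul_le_mul ?_ hg'n (norm_nonneg _) (by positivity)
      rw [hE₁]
      exact htay.trans (mul_le_mul_of_nonneg_left hwψ2 (by linarith))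
    have h3 : t ^ 2 ≤ K₂ * ε * t := by rw [pow_two]; exact mul_le_mul_of_nonneg_right ht1 ht0
    rw [hb1]
    calc ‖(w - ψ z) * det2 (deriv (qc A k F) (ψ z)) g' + det2 E₁ g'‖
        ≤ ‖(w - ψ z) * det2 (deriv (qc A k F) (ψ z)) g'‖ + ‖det2 E₁ g'‖ := norm_add_le _ _
      _ ≤ (K * (A.C ^ 2 * t)) * (K₂ * (ε / s)) + 2 * ((K₀ * (K * (A.C ^ 2 * t)) ^ 2) * K₀) := add_le_add h1 h2
      _ = K * A.C ^ 2 * K₂ * (ε / s) * t + 2 * K₀ ^ 2 * K ^ 2 * A.C ^ 4 * t ^ 2 := by ring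
      _ ≤ K * A.C ^ 2 * K₂ * (ε / s) * t + 2 * K₀ ^ 2 * K ^ 2 * A.C ^ 4 * (K₂ * ε * t) := by
          have h4 : 0 ≤ 2 * K₀ ^ 2 * K ^ 2 * A.C ^ 4 := by positivity
          have h5 := mul_le_mul_of_nonneg_left h3 h4
          linarith
      _ = (K * A.C ^ 2 * K₂ * (ε / s) + 2 * K₀ ^ 2 * K ^ 2 * A.C ^ 4 * K₂ * ε) * t := by ring
  -- (c)
  have gxi : Good (A.χ i) (G z) := by
    rw [hi]
    exact A.good _ (hG.2.1 z) _ (hG.2.1 z) (by rw [dist_self]; exact A.δ_pos.le)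
  have gyi : Good (A.χ i) (F w) := by
    rw [hi]
    refine A.good _ (hG.2.1 z) _ (hF.2.1 w) (hxy.trans ((mul_le_mul_of_nonneg_left ht1 (by linarith)).trans hε3))
  obtain ⟨T, hT⟩ : ∃ T : ℂ × ℂ →L[ℂ] ℂ × ℂ, T = fderiv ℂ (fun p => (A.χ i).q ((A.χ k).σ p)) (qc A k G z) := ⟨_, rfl⟩
  obtain ⟨E₂, hE₂⟩ : ∃ E₂ : ℂ × ℂ, E₂ = qc A i F w - qc A i G z - T ν := ⟨_, rfl⟩
  have hE₂n : ‖E₂‖ ≤ A.C ^ 5 * K₂ * ε * t := by
    have h1 := A.trans k i _ _ gx gxi gy gyi
    have h2 : ‖E₂‖ ≤ A.C * ‖ν‖ ^ 2 := by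
      rw [hE₂, hνd, hT]
      exact h1
    have h3 : ‖ν‖ ^ 2 ≤ (A.C ^ 2 * t) ^ 2 := pow_le_pow_left₀ (norm_nonneg _) hν' 2
    have h4 : t ^ 2 ≤ K₂ * ε * t := by rw [pow_two]; exact mul_le_mul_of_nonneg_right ht1 ht0
    calc ‖E₂‖ ≤ A.C * ‖ν‖ ^ 2 := h2
      _ ≤ A.C * (A.C ^ 2 * t) ^ 2 := mul_le_mul_of_nonneg_left h3 (by linarith)
      _ = A.C ^ 5 * t ^ 2 := by ring
      _ ≤ A.C ^ 5 * (K₂ * ε * t) := mul_le_mul_of_nonneg_left h4 (by positivity)
      _ = A.C ^ 5 * K₂ * ε * t := by ring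
  have hchain : deriv (qc A i G) z = T g' := by
    rw [hT, hg']
    exact CDet_chain hX hG.1 hG.2.1 gx gxi
  have hTg : ‖T g'‖ ≤ K₀ := by
    rw [← hchain]
    exact h.lc.der_le G hG i z gxi
  obtain ⟨j, hj⟩ : ∃ j : ℂ, j = jac (fun p => (A.χ i).q ((A.χ k).σ p)) (qc A k G z) := ⟨_, rfl⟩
  have hjT : det2 (T ν) (T g') = j * det2 ν g' := by
    rw [CDet_map, hj, hT]
    rfl
  have hjC : 1 ≤ A.C * ‖j‖ := by
    rw [hj]
    exact A.jac_ge k i _ gx gxi
  -- (d)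
  rw [hchain, ← hj]
  have hd3 : det2 (qc A i F w - qc A i G z) (T g') - j * Dm A F G k ψ z =
      j * (det2 ν g' - Dm A F G k ψ z) + det2 E₂ (T g') := by
    have h1 : det2 (qc A i F w - qc A i G z) (T g') = det2 (T ν) (T g') + det2 E₂ (T g') := by
      rw [hE₂]
      unfold det2
      simp only [Prod.fst_sub, Prod.snd_sub]
      ring
    rw [h1, hjT]
    ring
  rw [hd3]
  obtain ⟨D, hDd⟩ : ∃ D : ℝ, D = ‖Dm A F G k ψ z‖ := ⟨_, rfl⟩
  rw [← hDd] at ht2 ⊢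
  have hD0 : 0 ≤ D := by rw [hDd]; exact norm_nonneg _
  have hj0 : 0 ≤ ‖j‖ := norm_nonneg _
  have hes : 0 ≤ ε / s := by positivity
  have f1 : ‖j * (det2 ν g' - Dm A F G k ψ z)‖ ≤
      ‖j‖ * ((K * A.C ^ 2 * K₂ * (ε / s) + 2 * K₀ ^ 2 * K ^ 2 * A.C ^ 4 * K₂ * ε) * (K₂ * D)) := by
    rw [norm_mul]
    refine mul_le_mul_of_nonneg_left (hb2.trans (mul_le_mul_of_nonneg_left ht2 (by positivity))) hj0
  have f2 : ‖det2 E₂ (T g')‖ ≤ 2 * (A.C ^ 5 * K₂ * ε * (K₂ * D) * K₀) := by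
    refine (CDet_norm _ _).trans (mul_le_mul_of_nonneg_left ?_ (by norm_num))
    refine mul_le_mul (hE₂n.trans (mul_le_mul_of_nonneg_left ht2 (by positivity))) hTg (norm_nonneg _) (by positivity)
  have f3 : 2 * (A.C ^ 5 * K₂ * ε * (K₂ * D) * K₀) ≤ (A.C * ‖j‖) * (2 * (A.C ^ 5 * K₂ * ε * (K₂ * D) * K₀)) :=
    le_mul_of_one_le_left (by positivity) hjC
  calc ‖j * (det2 ν g' - Dm A F G k ψ z) + det2 E₂ (T g')‖
      ≤ ‖j * (det2 ν g' - Dm A F G k ψ z)‖ + ‖det2 E₂ (T g')‖ := norm_add_le _ _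
    _ ≤ ‖j‖ * ((K * A.C ^ 2 * K₂ * (ε / s) + 2 * K₀ ^ 2 * K ^ 2 * A.C ^ 4 * K₂ * ε) * (K₂ * D)) +
        (A.C * ‖j‖) * (2 * (A.C ^ 5 * K₂ * ε * (K₂ * D) * K₀)) := add_le_add f1 (f2.trans f3)
    _ = (K * A.C ^ 2 * K₂ ^ 2 * (ε / s) + (2 * K₀ ^ 2 * K ^ 2 * A.C ^ 4 * K₂ ^ 2 + 2 * K₀ * A.C ^ 6 * K₂ ^ 2) * ε) *
        (‖j‖ * D) := by ring

theorem MC.det_comp (hX : IsCone X) (h : MC A c L r₀ c₁ K₀ r₂ r₃ ε₃ K) {s η : ℝ} (hs : 0 < s) (hs₃ : s ≤ r₃) (hη : 0 < η) :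
    ∃ ε : ℝ, 0 < ε ∧ ε ≤ ε₃ ∧ ∀ F ∈ BC X c L, ∀ G ∈ BC X c L, ∀ z₀ φ, FolAt evp r₂ s ε F G z₀ φ → ∀ e ψ,
      Match A r₂ r₃ K F G (A.idx (pr (F (φ z₀)))) (φ z₀) z₀ e ψ → ∀ z ∈ closedBall z₀ (s / 2), ∀ w ∈ closedBall (φ z) r₂,
      (∀ w' ∈ closedBall (φ z) r₂, dist (pr (G z)) (pr (F w)) ≤ dist (pr (G z)) (pr (F w'))) → ∀ i k J D,
      i = A.idx (pr (G z)) → k = A.idx (pr (F (φ z₀))) → J = ‖jac (fun p => (A.χ i).q ((A.χ k).σ p)) (qc A k G z)‖ → D = ‖Dm A F G k ψ z‖ →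
        Real.exp (-η) * (J * D) ≤ ‖det2 (qc A i F w - qc A i G z) (deriv (qc A i G) z)‖ ∧
          ‖det2 (qc A i F w - qc A i G z) (deriv (qc A i G) z)‖ ≤ Real.exp η * (J * D) := by
  obtain ⟨K₂, hK₂, hbd⟩ := h.exists_dmBound
  have hC : 1 ≤ A.C := A.one_le
  have hK₀ : 1 ≤ K₀ := h.lc.one_le
  have hK : 1 ≤ K := hK₀.trans h.le_K
  have hτ : 0 < 1 - Real.exp (-η) := by
    have h1 : Real.exp (-η) < Real.exp 0 := Real.exp_lt_exp.2 (by linarith)
    rw [Real.exp_zero] at h1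
    linarith
  obtain ⟨M₁, hM₁⟩ : ∃ M₁ : ℝ, M₁ = K * A.C ^ 2 * K₂ ^ 2 := ⟨_, rfl⟩
  obtain ⟨M₂, hM₂⟩ : ∃ M₂ : ℝ, M₂ = 2 * K₀ ^ 2 * K ^ 2 * A.C ^ 4 * K₂ ^ 2 + 2 * K₀ * A.C ^ 6 * K₂ ^ 2 := ⟨_, rfl⟩
  have hM₁0 : 0 < M₁ := by rw [hM₁]; positivity
  have hM₂0 : 0 < M₂ := by rw [hM₂]; positivity
  have hM : 0 < M₁ / s + M₂ := by positivity
  have hr₂ := h.r₂_pos
  have hδ := A.δ_pos
  obtain ⟨ε, hε⟩ : ∃ ε : ℝ, ε = min (min ε₃ (s / K₂)) (min (min (r₂ / (K * A.C)) (A.δ / (A.C * K₂))) ((1 - Real.exp (-η)) / (M₁ / s + M₂))) :=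
    ⟨_, rfl⟩
  have e0 : 0 < ε := by
    rw [hε]
    refine lt_min (lt_min h.ε₃_pos (by positivity)) (lt_min (lt_min (by positivity) (by positivity)) (div_pos hτ hM))
  have e1 : ε ≤ ε₃ := by rw [hε]; exact (min_le_left _ _).trans (min_le_left _ _)
  have e2 : ε ≤ s / K₂ := by rw [hε]; exact (min_le_left _ _).trans (min_le_right _ _)
  have e3 : ε ≤ r₂ / (K * A.C) := by rw [hε]; exact (min_le_right _ _).trans ((min_le_left _ _).trans (min_le_left _ _))
  have e4 : ε ≤ A.δ / (A.C * K₂) := by rw [hε]; exact (min_le_right _ _).trans ((min_le_left _ _).trans (min_le_right _ _))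
  have e5 : ε ≤ (1 - Real.exp (-η)) / (M₁ / s + M₂) := by rw [hε]; exact (min_le_right _ _).trans (min_le_right _ _)
  have e2' : K₂ * (ε / s) ≤ 1 := by
    rw [le_div_iff₀ (by linarith)] at e2
    rw [← mul_div_assoc, div_le_one hs]
    linarith
  have e3' : K * (A.C * ε) ≤ r₂ := by
    rw [le_div_iff₀ (by positivity)] at e3
    linarith
  have e4' : A.C * (K₂ * ε) ≤ A.δ := by
    rw [le_div_iff₀ (by positivity)] at e4
    linarith
  have e5' : M₁ * (ε / s) + M₂ * ε ≤ 1 - Real.exp (-η) := by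
    rw [le_div_iff₀ hM] at e5
    have : M₁ * (ε / s) + M₂ * ε = ε * (M₁ / s + M₂) := by ring
    linarith
  refine ⟨ε, e0, e1, ?_⟩
  intro F hF G hG z₀ φ hfol e ψ hm z hz w hw hmin i k J D hi hk hJ hD
  rw [← hk] at hm
  have hbd' : DmBound A F G k z₀ ψ s ε K₂ := by
    refine hbd F hF G hG k (φ z₀) z₀ e ψ hm s ε hs hs₃ e0.le ?_
    intro z' hz'
    obtain ⟨h1, h2⟩ := hfol z' hz'
    refine ⟨φ z', ?_, h1⟩
    rw [mem_closedBall, dist_eq_norm]
    linarith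
  have hmain := CDet_main hX h hK₂ hs hs₃ e0 e2' e3' e4' hF hG hfol hk hm hbd' hz hw hmin hi
  rw [← hM₁, ← hM₂, ← hJ, ← hD] at hmain
  have hJ0 : 0 ≤ J := by rw [hJ]; exact norm_nonneg _
  have hD0 : 0 ≤ D := by rw [hD]; exact norm_nonneg _
  refine CDet_num (mul_nonneg hJ0 hD0) ?_ e5'
  refine le_trans ?_ hmain
  have h1 := abs_norm_sub_norm_le (det2 (qc A i F w - qc A i G z) (deriv (qc A i G) z))
    (jac (fun p => (A.χ i).q ((A.χ k).σ p)) (qc A k G z) * Dm A F G k ψ z)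
  rw [norm_mul, ← hJ, ← hD] at h1
  exact h1

end Pool.Agent.H5.BD

end

section

/-!
# BPL GPa: orders, residues and Jacobians in `ℂ((X))((T))`
-/

set_option autoImplicit false

noncomputable section

namespace Pool.Agent.H36.BPL

open Pool.Agent.H68.KR

theorem le_vT_iff {F : LL} {n : ℤ} : (n : WithTop ℤ) ≤ vT F ↔ ∀ m : ℤ, m < n → F.coeff m = 0 := by
  rw [vT, HahnSeries.addVal_apply]
  constructor
  · intro h m hm
    by_contra hc
    have h1 : F.orderTop ≤ (m : WithTop ℤ) := HahnSeries.orderTop_le_of_coeff_ne_zero hc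
    have h3 : n ≤ m := by exact_mod_cast h.trans h1
    omega
  · intro h
    by_cases hF : F = 0
    · subst hF
      rw [HahnSeries.orderTop_zero]
      exact le_top
    · rw [HahnSeries.orderTop_of_ne_zero hF]
      by_contra hc
      rw [not_le] at hc
      have h3 : F.isWF_support.min (HahnSeries.support_nonempty_iff.2 hF) < n := by
        exact_mod_cast hc
      exact (Set.IsWF.min_mem F.isWF_support (HahnSeries.support_nonempty_iff.2 hF)) (h _ h3)

theorem le_vT_DT {F : LL} {n : ℤ} (h : (n : WithTop ℤ) ≤ vT F) : ((n - 1 : ℤ) : WithTop ℤ) ≤ vT (DT F) := by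
  rw [le_vT_iff] at h ⊢
  intro m hm
  rw [DT_coeff, h _ (by omega), mul_zero]

theorem le_vT_DX {F : LL} {n : ℤ} (h : (n : WithTop ℤ) ≤ vT F) : (n : WithTop ℤ) ≤ vT (DX F) := by
  rw [le_vT_iff] at h ⊢
  intro m hm
  refine HahnSeries.ext (funext fun k => ?_)
  rw [DX_coeff, h m hm, HahnSeries.coeff_zero, HahnSeries.coeff_zero, mul_zero]

theorem le_vT_mul {F G : LL} {m n : ℤ} (hF : (m : WithTop ℤ) ≤ vT F) (hG : (n : WithTop ℤ) ≤ vT G) :
    ((m + n : ℤ) : WithTop ℤ) ≤ vT (F * G) := by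
  rw [AddValuation.map_mul]
  push_cast
  exact add_le_add hF hG

theorem le_vT_add {F G : LL} {n : ℤ} (hF : (n : WithTop ℤ) ≤ vT F) (hG : (n : WithTop ℤ) ≤ vT G) :
    (n : WithTop ℤ) ≤ vT (F + G) := (le_min hF hG).trans (vT.map_add F G)

theorem le_vT_neg {F : LL} {n : ℤ} (hF : (n : WithTop ℤ) ≤ vT F) : (n : WithTop ℤ) ≤ vT (-F) := by
  rw [AddValuation.map_neg]
  exact hF

theorem le_vT_sub {F G : LL} {n : ℤ} (hF : (n : WithTop ℤ) ≤ vT F) (hG : (n : WithTop ℤ) ≤ vT G) :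
    (n : WithTop ℤ) ≤ vT (F - G) := by
  have h : F - G = F + -G := sub_eq_add_neg F G
  rw [h]
  exact le_vT_add hF (le_vT_neg hG)

theorem le_vT_mono {F : LL} {m n : ℤ} (h : m ≤ n) (hF : (n : WithTop ℤ) ≤ vT F) : (m : WithTop ℤ) ≤ vT F :=
  le_trans (by exact_mod_cast h) hF

theorem eq_zero_of_le {F : LL} (h : ∀ n : ℕ, ((n : ℤ) : WithTop ℤ) ≤ vT F) : F = 0 := by
  refine HahnSeries.ext (funext fun m => ?_)
  have h1 := h (m.toNat + 1)
  rw [le_vT_iff] at h1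
  rw [h1 m (by omega)]
  rfl

/-- the Jacobian of two elements of `ℂ((X))((T))` -/
def JL (F G : LL) : LL := DX F * DT G - DX G * DT F

theorem JL_self (F : LL) : JL F F = 0 := by
  unfold JL
  ring

theorem JL_anti (F G : LL) : JL F G = -JL G F := by
  unfold JL
  ring

theorem JL_add (F F' G : LL) : JL (F + F') G = JL F G + JL F' G := by
  unfold JL
  rw [map_add, map_add]
  ring

theorem JL_mul (F F' G : LL) : JL (F * F') G = F * JL F' G + F' * JL F G := by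
  unfold JL
  rw [DX_mul, DT_mul]
  ring

theorem JL_cst (c : ℂ) (G : LL) : JL (cst c) G = 0 := by
  unfold JL
  rw [DX_cst, DT_cst]
  ring

/-- the order of the Jacobian -/
theorem le_vT_JL {F G : LL} {m n : ℤ} (hF : (m : WithTop ℤ) ≤ vT F) (hG : (n : WithTop ℤ) ≤ vT G) :
    ((m + n - 1 : ℤ) : WithTop ℤ) ≤ vT (JL F G) := by
  unfold JL
  refine le_vT_sub ?_ ?_
  · have h := le_vT_mul (le_vT_DX hF) (le_vT_DT hG)
    have e : m + (n - 1) = m + n - 1 := by ring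
    rwa [e] at h
  · have h := le_vT_mul (le_vT_DX hG) (le_vT_DT hF)
    have e : n + (m - 1) = m + n - 1 := by ring
    rwa [e] at h

theorem JL_nonneg {F G : LL} (hF : 0 ≤ vT F) (hG : 0 ≤ vT G) : 0 ≤ vT (JL F G) := by
  unfold JL
  have h1 := le_vT_mul (m := 0) (n := 0) (vT_DX_nonneg hF) (vT_DT_nonneg hG)
  have h2 := le_vT_mul (m := 0) (n := 0) (vT_DX_nonneg hG) (vT_DT_nonneg hF)
  exact le_vT_sub (n := 0) h1 h2

/-- the order of the Jacobian, the second function has order at least `0` -/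
theorem le_vT_JL' {F G : LL} {m : ℤ} (hF : (m : WithTop ℤ) ≤ vT F) (hG : 0 ≤ vT G) :
    ((m - 1 : ℤ) : WithTop ℤ) ≤ vT (JL F G) := by
  have h := le_vT_JL (n := 0) hF hG
  have e : m + 0 - 1 = m - 1 := by ring
  rwa [e] at h

/-- the residue of a series of order at least `0` is multiplicative -/
theorem res_mul {F G : LL} (hF : 0 ≤ vT F) (hG : 0 ≤ vT G) : (F * G).coeff 0 = F.coeff 0 * G.coeff 0 := by
  have h1 : ((1 : ℤ) : WithTop ℤ) ≤ vT (F - HahnSeries.C (F.coeff 0)) := by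
    rw [le_vT_iff]
    intro m hm
    have h2 : (F - HahnSeries.C (F.coeff 0)).coeff m = F.coeff m - (HahnSeries.C (F.coeff 0) : LL).coeff m := rfl
    rw [h2, HahnSeries.C_apply, HahnSeries.coeff_single]
    rcases lt_or_eq_of_le (by omega : m ≤ 0) with h3 | h3
    · rw [if_neg (by omega), (vT_nonneg_iff F).1 hF m h3, sub_zero]
    · rw [if_pos h3, h3, sub_self]
  have h2 := le_vT_mul (n := 0) h1 hG
  rw [le_vT_iff] at h2
  have h3 := h2 0 (by norm_num)
  have h4 : F * G = HahnSeries.C (F.coeff 0) * G + (F - HahnSeries.C (F.coeff 0)) * G := by ring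
  rw [h4, HahnSeries.coeff_add, h3, add_zero, HahnSeries.C_mul_eq_smul, HahnSeries.coeff_smul, smul_eq_mul]

theorem res_cst (c : ℂ) : (cst c).coeff 0 = HahnSeries.C c := by
  change (HahnSeries.single (0 : ℤ) (HahnSeries.C c)).coeff 0 = _
  rw [HahnSeries.coeff_single, if_pos rfl]

theorem vT_cst_nonneg (c : ℂ) : 0 ≤ vT (cst c) := by
  by_cases hc : c = 0
  · subst hc
    rw [map_zero, AddValuation.map_zero]
    exact le_top
  · have : vT (cst c) = 0 := vT_C (a := HahnSeries.C c) (by simpa using hc)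
    rw [this]

/-- a series of order at least `0` with residue `0` has positive order -/
theorem one_le_of_res {F : LL} (hF : 0 ≤ vT F) (h : F.coeff 0 = 0) : ((1 : ℤ) : WithTop ℤ) ≤ vT F := by
  rw [le_vT_iff]
  intro m hm
  rcases lt_or_eq_of_le (by omega : m ≤ 0) with h3 | h3
  · exact (vT_nonneg_iff F).1 hF m h3
  · rw [h3, h]

theorem vT_eq_zero_of_res {F : LL} (hF : 0 ≤ vT F) (h : F.coeff 0 ≠ 0) : vT F = 0 := by
  refine le_antisymm ?_ hF
  rw [vT, HahnSeries.addVal_apply]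
  exact HahnSeries.orderTop_le_of_coeff_ne_zero h

/-- an element of `ℂ((X))` which is not a constant is transcendental over `ℂ` -/
theorem transc {ρ : L1} (hρ : ∀ c : ℂ, ρ ≠ HahnSeries.C c) (p : Polynomial ℂ) (hp : p ≠ 0) :
    p.eval₂ (HahnSeries.C : ℂ →+* L1) ρ ≠ 0 := by
  induction h : p.natDegree generalizing p with
  | zero =>
    obtain ⟨c, rfl⟩ := Polynomial.natDegree_eq_zero.1 h
    rw [Polynomial.eval₂_C]
    have hc : c ≠ 0 := by
      rintro rfl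
      exact hp (map_zero _)
    simpa using hc
  | succ n ih =>
    have hd : p.degree ≠ 0 := by
      intro h0
      have := Polynomial.natDegree_eq_zero_iff_degree_le_zero.2 h0.le
      omega
    obtain ⟨c, hc⟩ := IsAlgClosed.exists_root p hd
    obtain ⟨q, hq⟩ := Polynomial.dvd_iff_isRoot.2 hc
    have hq0 : q ≠ 0 := by
      rintro rfl
      rw [mul_zero] at hq
      exact hp hq
    have hqn : q.natDegree = n := by
      rw [hq, Polynomial.natDegree_mul (Polynomial.X_sub_C_ne_zero c) hq0, Polynomial.natDegree_X_sub_C] at h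
      omega
    rw [hq, Polynomial.eval₂_mul, Polynomial.eval₂_sub, Polynomial.eval₂_X, Polynomial.eval₂_C]
    exact mul_ne_zero (sub_ne_zero.2 (hρ c)) (ih q hq0 hqn)

end Pool.Agent.H36.BPL

end
end

section

/-!
# BPL GPb: the prime divisor of an embedding of the function field of a surface into `ℂ((X))((T))`
-/

set_option autoImplicit false

noncomputable section

namespace Pool.Agent.H36.BPL

open Pool.Agent.H68.KR
open Pool.Agent.H23.Fano (Form regularForms PrimeDivisorOver)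

variable {K : Type} [Field K] [Algebra ℂ K] (E : K →+* LL)

theorem ll_mul {F : Type} [Field F] {a b : F} (h : a * b = 0) : a = 0 ∨ b = 0 := mul_eq_zero.1 h

omit [Algebra ℂ K] in
theorem nonneg_mul {f g : K} (hf : 0 ≤ vT (E f)) (hg : 0 ≤ vT (E g)) : 0 ≤ vT (E (f * g)) := by
  rw [map_mul, AddValuation.map_mul]
  exact add_nonneg hf hg

omit [Algebra ℂ K] in
theorem nonneg_add {f g : K} (hf : 0 ≤ vT (E f)) (hg : 0 ≤ vT (E g)) : 0 ≤ vT (E (f + g)) := by
  rw [map_add]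
  exact le_vT_add (n := 0) hf hg

variable {E}

/-- the residue of a polynomial -/
theorem res_aeval (hE : ∀ c : ℂ, E (algebraMap ℂ K c) = cst c) {ι : Type} {s : ι → K} (hs : ∀ i, 0 ≤ vT (E (s i))) (p : MvPolynomial ι ℂ) :
    0 ≤ vT (E (MvPolynomial.aeval s p)) ∧
      (E (MvPolynomial.aeval s p)).coeff 0 = MvPolynomial.eval₂ (HahnSeries.C : ℂ →+* L1) (fun i => (E (s i)).coeff 0) p := by
  induction p using MvPolynomial.induction_on with
  | C c =>
    rw [MvPolynomial.aeval_C, hE, MvPolynomial.eval₂_C]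
    exact ⟨vT_cst_nonneg c, res_cst c⟩
  | add p q hp hq =>
    rw [map_add, MvPolynomial.eval₂_add, ← hp.2, ← hq.2]
    exact ⟨nonneg_add E hp.1 hq.1, by rw [map_add, HahnSeries.coeff_add]⟩
  | mul_X p i hp =>
    rw [map_mul, MvPolynomial.aeval_X, MvPolynomial.eval₂_mul, MvPolynomial.eval₂_X, ← hp.2]
    exact ⟨nonneg_mul E hp.1 (hs i), by rw [map_mul, res_mul hp.1 (hs i)]⟩

omit [Algebra ℂ K] in
/-- the value group -/
theorem exists_unif (hneg : ∃ f : K, vT (E f) < 0) :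
    ∃ (e : ℕ) (t : K), 1 ≤ e ∧ t ≠ 0 ∧ vT (E t) = ((e : ℤ) : WithTop ℤ) ∧
      ∀ f, f ≠ 0 → ∃ n : ℤ, vT (E f) = ((e * n : ℤ) : WithTop ℤ) := by
  classical
  set v : AddValuation K (WithTop ℤ) := vT.comap E with hv
  have hvE : ∀ f, v f = vT (E f) := fun f => rfl
  have hex : ∀ f : K, f ≠ 0 → ∃ n : ℤ, v f = (n : WithTop ℤ) := by
    intro f hf
    have h : v f ≠ ⊤ := by
      intro h
      exact hf (v.top_iff.mp h)
    exact ⟨(v f).untop h, (WithTop.coe_untop _ _).symm⟩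
  choose! val hval using hex
  have hval_mul : ∀ f g : K, f ≠ 0 → g ≠ 0 → val (f * g) = val f + val g := by
    intro f g hf hg
    have h := v.map_mul f g
    rw [hval f hf, hval g hg, hval (f * g) (mul_ne_zero hf hg)] at h
    exact_mod_cast h
  have hval_one : val 1 = 0 := by
    have h := v.map_one
    rw [hval 1 one_ne_zero] at h
    exact_mod_cast h
  have hval_inv : ∀ f : K, f ≠ 0 → val f⁻¹ = - val f := by
    intro f hf
    have h := hval_mul f f⁻¹ hf (inv_ne_zero hf)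
    rw [mul_inv_cancel₀ hf, hval_one] at h
    omega
  have hval_pow : ∀ (f : K) (n : ℕ), f ≠ 0 → val (f ^ n) = n * val f := by
    intro f n hf
    induction n with
    | zero => simp [hval_one]
    | succ n ih =>
      rw [pow_succ, hval_mul _ _ (pow_ne_zero n hf) hf, ih]
      push_cast
      ring
  have hval_zpow : ∀ (f : K) (n : ℤ), f ≠ 0 → val (f ^ n) = n * val f := by
    intro f n hf
    obtain ⟨m, rfl | rfl⟩ := n.eq_nat_or_neg
    · rw [zpow_natCast, hval_pow f m hf]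
    · rw [zpow_neg, zpow_natCast, hval_inv _ (pow_ne_zero m hf), hval_pow f m hf]
      ring
  have hpos : ∃ n : ℕ, 0 < n ∧ ∃ t : K, t ≠ 0 ∧ val t = n := by
    obtain ⟨f, hf⟩ := hneg
    have hf0 : f ≠ 0 := by
      rintro rfl
      simp at hf
    have h1 : val f < 0 := by
      have h := hval f hf0
      rw [hvE] at h
      rw [h] at hf
      exact_mod_cast hf
    refine ⟨(-val f).toNat, by omega, f⁻¹, inv_ne_zero hf0, ?_⟩
    rw [hval_inv f hf0]
    omega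
  set e := Nat.find hpos with he
  obtain ⟨he0, t, ht0, htv⟩ := Nat.find_spec hpos
  rw [← he] at he0 htv
  have hmin : ∀ (n : ℕ) (f : K), 0 < n → f ≠ 0 → val f = n → e ≤ n :=
    fun n f hn hf h => Nat.find_min' hpos ⟨hn, f, hf, h⟩
  have heZ : (0 : ℤ) < e := by exact_mod_cast he0
  refine ⟨e, t, he0, ht0, by rw [← hvE, hval t ht0, htv], fun f hf => ⟨val f / e, ?_⟩⟩
  have h1 : val (f * t ^ (-(val f / e))) = val f - (val f / e) * e := by
    rw [hval_mul _ _ hf (zpow_ne_zero _ ht0), hval_zpow t _ ht0, htv]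
    ring
  have h2 : val f - (val f / e) * e = val f % e := by
    have := Int.emod_add_mul_ediv (val f) e
    linarith
  have h3 : 0 ≤ val f % e := Int.emod_nonneg _ (ne_of_gt heZ)
  have h4 : val f % e < e := Int.emod_lt_of_pos _ heZ
  have h7 : val f = e * (val f / e) := by
    rcases h3.eq_or_lt with h5 | h5
    · have := Int.emod_add_mul_ediv (val f) e
      omega
    · exfalso
      have h6 := hmin (val f % e).toNat (f * t ^ (-(val f / e))) (by omega)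
        (mul_ne_zero hf (zpow_ne_zero _ ht0)) (by rw [h1, h2]; omega)
      omega
  rw [← hvE, hval f hf, ← h7]

theorem JL_aeval (hE : ∀ c : ℂ, E (algebraMap ℂ K c) = cst c) (t : K) (p : Polynomial ℂ) (G : LL) :
    JL (E (Polynomial.aeval t p)) G = E (Polynomial.aeval t (Polynomial.derivative p)) * JL (E t) G := by
  induction p using Polynomial.induction_on' with
  | add p q hp hq =>
    simp only [map_add] at hp hq ⊢
    rw [JL_add, hp, hq]
    ring
  | monomial n c =>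
    induction n with
    | zero =>
      rw [Polynomial.monomial_zero_left, Polynomial.aeval_C, hE, JL_cst, Polynomial.derivative_C, map_zero, map_zero]
      ring
    | succ n ih =>
      have h1 : Polynomial.monomial (n + 1) c = Polynomial.monomial n c * Polynomial.X := (Polynomial.monomial_mul_X n c).symm
      rw [h1, Polynomial.derivative_mul, Polynomial.derivative_X, map_mul, map_mul, map_add, map_mul, map_mul, map_add, map_mul, map_mul,
        Polynomial.aeval_X, map_one, map_one, JL_mul, ih]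
      ring

/-- If a Jacobian is not zero, then there is an element of the valuation ring whose residue is not constant. -/
theorem exists_residue (hE : ∀ c : ℂ, E (algebraMap ℂ K c) = cst c) (hJ : ∃ a b : K, JL (E a) (E b) ≠ 0)
    (hneg : ∃ f : K, vT (E f) < 0) : ∃ s : K, 0 ≤ vT (E s) ∧ ∀ c : ℂ, (E s).coeff 0 ≠ HahnSeries.C c := by
  by_contra hcon
  push Not at hcon
  obtain ⟨e, t, he, ht0, ht, hall⟩ := exists_unif hneg
  have htn : 0 ≤ vT (E t) := by
    rw [ht]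
    exact_mod_cast Nat.zero_le e
  -- expansions
  have hexp : ∀ n : ℕ, ∀ f : K, 0 ≤ vT (E f) → ∃ (p : Polynomial ℂ) (g : K), 0 ≤ vT (E g) ∧ f = Polynomial.aeval t p + t ^ n * g := by
    intro n
    induction n with
    | zero => exact fun f hf => ⟨0, f, hf, by simp⟩
    | succ n ih =>
      intro f hf
      obtain ⟨p, g, hg, hfe⟩ := ih f hf
      obtain ⟨c, hc⟩ := hcon g hg
      have h1 : ((1 : ℤ) : WithTop ℤ) ≤ vT (E (g - algebraMap ℂ K c)) := by
        rw [map_sub, hE]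
        refine one_le_of_res (le_vT_sub (n := 0) hg (vT_cst_nonneg c)) ?_
        have h2 : (E g - cst c).coeff 0 = (E g).coeff 0 - (cst c).coeff 0 := rfl
        rw [h2, hc, res_cst, sub_self]
      refine ⟨p + Polynomial.C c * Polynomial.X ^ n, (g - algebraMap ℂ K c) / t, ?_, ?_⟩
      · by_cases h0 : g - algebraMap ℂ K c = 0
        · rw [h0, zero_div, map_zero, AddValuation.map_zero]
          exact le_top
        obtain ⟨k, hk⟩ := hall _ h0
        have h2 : vT (E ((g - algebraMap ℂ K c) / t)) + vT (E t) = vT (E (g - algebraMap ℂ K c)) := by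
          rw [← AddValuation.map_mul, ← map_mul, div_mul_cancel₀ _ ht0]
        have h00 : (g - algebraMap ℂ K c) / t ≠ 0 := div_ne_zero h0 ht0
        obtain ⟨l, hl⟩ := hall _ h00
        rw [hl, ht, hk] at h2
        rw [hk] at h1
        have h3 : 1 ≤ e * k := by exact_mod_cast h1
        have h4 : (e : ℤ) * l + e = e * k := by exact_mod_cast h2
        have h5 : 0 ≤ l := by
          have h6 : (0 : ℤ) < e := by exact_mod_cast he
          have h7 : 0 < k := by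
            by_contra h
            push Not at h
            have := mul_nonpos_of_nonneg_of_nonpos h6.le h
            omega
          have h8 : (e : ℤ) * (l + 1) = e * k := by linarith
          have h9 := mul_left_cancel₀ (ne_of_gt h6) h8
          omega
        rw [hl]
        have h6 : 0 ≤ (e : ℤ) * l := by positivity
        exact_mod_cast h6
      · rw [hfe, map_add, map_mul, map_pow, Polynomial.aeval_X, Polynomial.aeval_C, pow_succ]
        field_simp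
        ring
  -- the Jacobians of elements of the valuation ring are zero
  have hpn : ∀ p : Polynomial ℂ, 0 ≤ vT (E (Polynomial.aeval t p)) := by
    intro p
    induction p using Polynomial.induction_on' with
    | add p q hp hq =>
      rw [map_add]
      exact nonneg_add E hp hq
    | monomial n c =>
      rw [Polynomial.aeval_monomial]
      refine nonneg_mul E (by rw [hE]; exact vT_cst_nonneg c) ?_
      rw [map_pow, AddValuation.map_pow]
      exact nsmul_nonneg htn n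
  have hz : ∀ a b : K, 0 ≤ vT (E a) → 0 ≤ vT (E b) → JL (E a) (E b) = 0 := by
    intro a b ha hb
    apply eq_zero_of_le
    intro n
    obtain ⟨p, a', ha', hae⟩ := hexp (n + 1) a ha
    obtain ⟨q, b', hb', hbe⟩ := hexp (n + 1) b hb
    have htp : ∀ c : K, 0 ≤ vT (E c) → (((n : ℤ) + 1 : ℤ) : WithTop ℤ) ≤ vT (E (t ^ (n + 1) * c)) := by
      intro c hc
      have h1 : (((n : ℤ) + 1 : ℤ) : WithTop ℤ) ≤ vT (E (t ^ (n + 1))) := by
        have h2 : ∀ k : ℕ, ((k : ℤ) : WithTop ℤ) ≤ vT (E (t ^ k)) := by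
          intro k
          induction k with
          | zero => rw [pow_zero, map_one, AddValuation.map_one]; rfl
          | succ k ih =>
            rw [pow_succ, map_mul]
            have h3 : ((1 : ℤ) : WithTop ℤ) ≤ vT (E t) := by
              rw [ht]
              exact_mod_cast he
            have h4 := le_vT_mul ih h3
            push_cast at h4 ⊢
            exact h4
        exact_mod_cast h2 (n + 1)
      rw [map_mul]
      have h3 := le_vT_mul (n := 0) h1 hc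
      rwa [add_zero] at h3
    have hb2 : 0 ≤ vT (E b) := hb
    have hpp := hpn p
    have hqq := hpn q
    have h1 : JL (E a) (E b) = JL (E (t ^ (n + 1) * a')) (E b) - JL (E (t ^ (n + 1) * b')) (E (Polynomial.aeval t p)) := by
      have e1 : E a = E (Polynomial.aeval t p) + E (t ^ (n + 1) * a') := by rw [← map_add, ← hae]
      have e2 : E b = E (Polynomial.aeval t q) + E (t ^ (n + 1) * b') := by rw [← map_add, ← hbe]
      have e3 : JL (E (Polynomial.aeval t p)) (E (Polynomial.aeval t q)) = 0 := by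
        rw [JL_aeval hE, JL_anti (E t), JL_aeval hE, JL_self]
        ring
      have e4 : JL (E (Polynomial.aeval t p)) (E b) = - JL (E (t ^ (n + 1) * b')) (E (Polynomial.aeval t p)) := by
        rw [JL_anti, e2, JL_add, JL_anti (E (Polynomial.aeval t q)), e3]
        ring
      rw [e1, JL_add, e4]
      ring
    rw [h1]
    have e : ((n : ℤ) + 1) - 1 = n := by ring
    refine le_vT_sub ?_ ?_
    · have h2 := le_vT_JL' (htp a' ha') hb2
      rwa [e] at h2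
    · have h2 := le_vT_JL' (htp b' hb') hpp
      rwa [e] at h2
  -- a derivation which vanishes on the valuation ring
  have hder : ∀ G : LL, (∀ a : K, 0 ≤ vT (E a) → JL (E a) G = 0) → ∀ a : K, JL (E a) G = 0 := by
    intro G hG a
    by_cases ha0 : a = 0
    · exact hG a (by rw [ha0, map_zero, AddValuation.map_zero]; exact le_top)
    by_cases ha : 0 ≤ vT (E a)
    · exact hG a ha
    have h1 : 0 ≤ vT (E a⁻¹) := by
      have h2 : vT (E a) + vT (E a⁻¹) = 0 := by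
        rw [← AddValuation.map_mul, ← map_mul, mul_inv_cancel₀ ha0, map_one, AddValuation.map_one]
      obtain ⟨k, hk⟩ := hall a ha0
      obtain ⟨l, hl⟩ := hall a⁻¹ (inv_ne_zero ha0)
      rw [hk] at ha h2
      rw [hl] at h2 ⊢
      have h3 : ¬ (0 : ℤ) ≤ e * k := fun h => ha (by exact_mod_cast h)
      have h4 : (e : ℤ) * k + e * l = 0 := by exact_mod_cast h2
      have h5 : (0 : ℤ) ≤ e * l := by omega
      exact_mod_cast h5
    have h2 := hG _ h1
    have h3 : JL (E (a * a⁻¹)) G = 0 := by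
      rw [mul_inv_cancel₀ ha0]
      have h4 : (1 : K) = algebraMap ℂ K 1 := (map_one _).symm
      rw [h4, hE, JL_cst]
    rw [map_mul, JL_mul, h2] at h3
    have h4 : E a⁻¹ * JL (E a) G = 0 := by
      rw [← h3]
      ring
    rcases ll_mul (F := LL) h4 with h5 | h5
    · exact absurd ((map_eq_zero E).1 h5) (inv_ne_zero ha0)
    · exact h5
  obtain ⟨a, b, hab⟩ := hJ
  apply hab
  refine hder _ (fun a' ha' => ?_) a
  rw [JL_anti, hder (E a') (fun b' hb' => hz b' a' hb' ha') b]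
  ring

/-- The prime divisor of the embedding. -/
theorem exists_primeDivisorG (hE : ∀ c : ℂ, E (algebraMap ℂ K c) = cst c) {s : K} (hs : 0 ≤ vT (E s))
    (hs' : ∀ c : ℂ, (E s).coeff 0 ≠ HahnSeries.C c) (hneg : ∃ f : K, vT (E f) < 0) :
    ∃ (D : PrimeDivisorOver K 2) (e : ℕ), 1 ≤ e ∧ ∀ f : K, f ≠ 0 → ∃ n : ℤ, D.ord f = n ∧ vT (E f) = ((e * n : ℤ) : WithTop ℤ) := by
  classical
  obtain ⟨e, t, he0, ht0, htv, hall⟩ := exists_unif hneg
  have heZ : (0 : ℤ) < e := by exact_mod_cast he0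
  choose! val hval using hall
  have hval_mul : ∀ f g : K, f ≠ 0 → g ≠ 0 → val (f * g) = val f + val g := by
    intro f g hf hg
    have h : vT (E (f * g)) = vT (E f) + vT (E g) := by rw [map_mul, AddValuation.map_mul]
    rw [hval f hf, hval g hg, hval (f * g) (mul_ne_zero hf hg)] at h
    have h1 : (e : ℤ) * val (f * g) = e * val f + e * val g := by exact_mod_cast h
    have h2 : (e : ℤ) * val (f * g) = e * (val f + val g) := by rw [h1, mul_add]
    exact mul_left_cancel₀ (ne_of_gt heZ) h2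
  have hval_one : val 1 = 0 := by
    have h := hval_mul 1 1 one_ne_zero one_ne_zero
    rw [mul_one] at h
    omega
  have hval_add : ∀ f g : K, f ≠ 0 → g ≠ 0 → f + g ≠ 0 → min (val f) (val g) ≤ val (f + g) := by
    intro f g hf hg hfg
    have h : min (vT (E f)) (vT (E g)) ≤ vT (E (f + g)) := by
      rw [map_add]
      exact vT.map_add _ _
    rw [hval f hf, hval g hg, hval (f + g) hfg] at h
    have h' : min ((e : ℤ) * val f) (e * val g) ≤ e * val (f + g) := by exact_mod_cast h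
    rcases min_le_iff.mp h' with h4 | h4
    · exact le_trans (min_le_left _ _) (le_of_mul_le_mul_left h4 heZ)
    · exact le_trans (min_le_right _ _) (le_of_mul_le_mul_left h4 heZ)
  have hval_t : val t = 1 := by
    have h := hval t ht0
    rw [htv] at h
    have h1 : (e : ℤ) = e * val t := by exact_mod_cast h
    have h2 : (e : ℤ) * 1 = e * val t := by rw [mul_one, ← h1]
    exact (mul_left_cancel₀ (ne_of_gt heZ) h2).symm
  set w : K → WithTop ℤ := fun f => if f = 0 then ⊤ else ((val f : ℤ) : WithTop ℤ) with hw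
  have hw0 : w 0 = ⊤ := by simp [hw]
  have hwn : ∀ f : K, f ≠ 0 → w f = ((val f : ℤ) : WithTop ℤ) := by
    intro f hf
    simp [hw, hf]
  let ord : AddValuation K (WithTop ℤ) := AddValuation.of w hw0
    (by rw [hwn 1 one_ne_zero, hval_one]; rfl)
    (by
      intro f g
      by_cases hf : f = 0
      · subst hf
        rw [zero_add, hw0]
        simp
      by_cases hg : g = 0
      · subst hg
        rw [add_zero, hw0]
        simp
      by_cases hfg : f + g = 0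
      · rw [hfg, hw0]
        exact le_top
      rw [hwn f hf, hwn g hg, hwn _ hfg]
      exact_mod_cast hval_add f g hf hg hfg)
    (by
      intro f g
      by_cases hf : f = 0
      · subst hf
        rw [zero_mul, hw0]
        simp
      by_cases hg : g = 0
      · subst hg
        rw [mul_zero, hw0]
        simp
      rw [hwn _ (mul_ne_zero hf hg), hwn f hf, hwn g hg, hval_mul f g hf hg]
      push_cast
      rfl)
  have hord : ∀ f, ord f = w f := fun f => rfl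
  have hnn : ∀ f : K, 0 ≤ vT (E f) → 0 ≤ ord f := by
    intro f h
    rw [hord]
    by_cases hf : f = 0
    · subst hf
      rw [hw0]
      exact le_top
    rw [hval f hf] at h
    rw [hwn f hf]
    have h' : (0 : ℤ) ≤ e * val f := by exact_mod_cast h
    have h2 : 0 ≤ val f := nonneg_of_mul_nonneg_right h' heZ
    exact_mod_cast h2
  have hz : ∀ f : K, vT (E f) = 0 → ord f = 0 := by
    intro f h
    by_cases hf : f = 0
    · subst hf
      rw [map_zero, AddValuation.map_zero] at h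
      exact absurd h WithTop.top_ne_zero
    rw [hord, hwn f hf]
    rw [hval f hf] at h
    have h' : (e : ℤ) * val f = 0 := by exact_mod_cast h
    have h2 : val f = 0 := by
      rcases mul_eq_zero.1 h' with h3 | h3
      · omega
      · exact h3
    rw [h2]
    rfl
  refine ⟨⟨ord, ?_, ⟨t, ?_⟩, ⟨fun _ => s, ?_, ?_⟩⟩, e, he0, ?_⟩
  · intro c
    exact hnn _ (by rw [hE]; exact vT_cst_nonneg c)
  · rw [hord, hwn t ht0, hval_t]
    rfl
  · intro i
    exact hnn s hs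
  · intro p hp
    apply hz
    obtain ⟨h1, h2⟩ := res_aeval (s := fun _ : Fin (2 - 1) => s) hE (fun _ => hs) p
    refine vT_eq_zero_of_res h1 ?_
    rw [h2]
    -- from one variable to a polynomial
    set P : Polynomial ℂ := MvPolynomial.aeval (fun _ => Polynomial.X) p with hP
    have hback : Polynomial.aeval (MvPolynomial.X (R := ℂ) (0 : Fin (2 - 1))) P = p := by
      have : (Polynomial.aeval (MvPolynomial.X (R := ℂ) (0 : Fin (2 - 1)))).comp
          (MvPolynomial.aeval (fun _ : Fin (2 - 1) => (Polynomial.X : Polynomial ℂ))) =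
          AlgHom.id ℂ (MvPolynomial (Fin (2 - 1)) ℂ) := by
        apply MvPolynomial.algHom_ext
        intro i
        have hi : i = 0 := Subsingleton.elim (α := Fin 1) _ _
        simp [hi]
      exact congrArg (fun f => f p) this
    have hP0 : P ≠ 0 := by
      intro h
      rw [h, map_zero] at hback
      exact hp hback.symm
    have hmain : MvPolynomial.eval₂ (HahnSeries.C : ℂ →+* L1) (fun _ => (E s).coeff 0) p =
        P.eval₂ (HahnSeries.C : ℂ →+* L1) ((E s).coeff 0) := by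
      have h1 : ∀ q : MvPolynomial (Fin (2 - 1)) ℂ, MvPolynomial.eval₂Hom (HahnSeries.C : ℂ →+* L1)
          (fun _ => (E s).coeff 0) q =
          ((Polynomial.eval₂RingHom (HahnSeries.C : ℂ →+* L1) ((E s).coeff 0)).comp
            (MvPolynomial.aeval (fun _ : Fin (2 - 1) => (Polynomial.X : Polynomial ℂ))).toRingHom) q := by
        intro q
        congr 1
        apply MvPolynomial.ringHom_ext
        · intro c
          simp
        · intro i
          simp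
      have := h1 p
      simpa [hP] using this
    rw [hmain]
    exact transc hs' P hP0
  · intro f hf
    exact ⟨val f, hwn f hf, hval f hf⟩

end Pool.Agent.H36.BPL

end
end
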