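import Pool.Agent.H94.G6.M119
import Pool.Agent.H94.G6.M127
import Pool.Agent.H94.G6.M48
import Pool.Agent.H94.G6.M71
import Pool.Agent.H94.G6.M79
import Pool.Agent.H94.G6.M90

/-! The parts of this file: H5.BD.CRho_1, H5.BD.CLI, H5.BD.CIso, H5.BD.CSm, H62.EF.PrLip, H5.BD.CLoc, H5.BD.CMat, H62.EF.LimL, H5.BD.CTr, H5.BD.CFlow, H5.BD.CPer, H5.BD.CThin. -/

section

/-!
# BD CRho: the function `rh`

`nearest_spec`: `w' ↦ dist y (pr (F w'))` is continuous on the compact set `closedBall w r₂` (`LC.lip`); `IsCompact.exists_isMinOn`.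
`rh_bdd`: `B₁` bounds `‖aCoef Ω (A.χ i) p‖ * ‖(A.χ i).σ p‖` for all `i` and `‖p‖ ≤ 1 / 2` (compact, `aCoef_analytic` with `K = X`, `σ_an`).  Let `dist (pr (G z)) (pr (F w)) ≤ ε := A.δ`, `i = A.idx (pr (G z))`,
`w' = nearest ..`; `dist (pr (G z)) (pr (F w')) ≤ dist (pr (G z)) (pr (F w)) ≤ A.δ`, so `G z` and `F w'` are good for `i` (`A.good`), so the difference of the coordinates has norm `≤ 1`, the derivative has
norm `≤ K` (`der_le`), the determinant is at most `2 K`: `rh ≤ B₁ (2 K)^m`.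
`coef_trans`: `ACoef_trans` (`H14/PP/FormTrans.lean`) for `K = X`, `p = (A.χ k).q x`: `x = a • (A.χ k).σ p`, so `(A.χ i).q ((A.χ k).σ p) = (A.χ i).q x`; take the `m`-th power (`ACoef = ‖aCoef‖ ^ (1 / m) ‖σ‖ ^ (1 / m)`).
`rh_cmp`: `det_comp` with `η / m`, `w = nearest r₂ F (φ z) (pr (G z))` (`nearest_spec`), `coef_trans` for `x = G z` (good for `k` by `goodG`, good for `i` by `A.good`):
`‖aCoef_k‖ ‖σ_k‖ D ^ m = ‖aCoef_i‖ ‖σ_i‖ (J D) ^ m`.
-/

set_option autoImplicit false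

open Topology Filter Metric

namespace Pool.Agent.H5.BD

open Pool.Agent.H36.BP (EN fs wd)
open Pool.Agent.H14.PP (IsCone Chart Form Tan aCoef jac)
open Pool.Agent.H62.EF (MN pr det2)

variable {N : ℕ} {X : Set (EN N)} {A : Atlas X} {c L r₀ c₁ K₀ r₂ r₃ ε₃ K : ℝ} {m : ℕ}

private theorem CRho_cf_bdd (hX : IsCone X) (A : Atlas X) (Ω : Form X m 1) :
    ∃ B : ℝ, 0 ≤ B ∧ ∀ i x, Good (A.χ i) x → cf A Ω i x ≤ B := by
  have h1 : ∀ i, ∃ b : ℝ, ∀ p ∈ closedBall (0 : ℂ × ℂ) (1 / 2), ‖aCoef Ω (A.χ i) p‖ * ‖(A.χ i).σ p‖ ≤ b := by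
    intro i
    have hc : ContinuousOn (fun p => ‖aCoef Ω (A.χ i) p‖ * ‖(A.χ i).σ p‖) (closedBall (0 : ℂ × ℂ) (1 / 2)) := by
      intro p hp
      have hp' := CRho_sub (mem_closedBall_zero_iff.1 hp)
      have h2 := (Pool.Agent.H14.PP.aCoef_analytic (CRho_open hX) Ω (A.χ i) hp' ((A.χ i).σ_mem p hp').1).continuousAt
      have h3 := ((A.χ i).σ_an p hp').continuousAt
      exact (h2.norm.mul h3.norm).continuousWithinAt
    obtain ⟨b, hb⟩ := (isCompact_closedBall (0 : ℂ × ℂ) (1 / 2)).exists_bound_of_continuousOn hc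
    exact ⟨b, fun p hp => (le_abs_self _).trans (hb p hp)⟩
  choose b hb using h1
  refine ⟨∑ i, |b i|, Finset.sum_nonneg fun i _ => abs_nonneg _, fun i x hx => ?_⟩
  calc cf A Ω i x ≤ b i := hb i _ (mem_closedBall_zero_iff.2 hx.2.2)
    _ ≤ |b i| := le_abs_self _
    _ ≤ ∑ i, |b i| := Finset.single_le_sum (f := fun i => |b i|) (fun _ _ => abs_nonneg _) (Finset.mem_univ i)

theorem rh_bdd (hX : IsCone X) (h : MC A c L r₀ c₁ K₀ r₂ r₃ ε₃ K) (Ω : Form X m 1) : ∃ B ε : ℝ, 0 ≤ B ∧ 0 < ε ∧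
    ∀ F ∈ BC X c L, ∀ G ∈ BC X c L, ∀ w z, dist (evp G z) (evp F w) ≤ ε → 0 ≤ rh A Ω r₂ F w G z ∧ rh A Ω r₂ F w G z ≤ B := by
  obtain ⟨B₁, hB₁, hB⟩ := CRho_cf_bdd hX A Ω
  have hK₀ : 0 ≤ K₀ := zero_le_one.trans h.lc.one_le
  refine ⟨B₁ * (2 * K₀) ^ m, A.δ, by positivity, A.δ_pos, fun F hF G hG w z hd => ?_⟩
  have hGX : G z ∈ X := hG.2.1 z
  obtain ⟨-, hmin⟩ := h.nearest_spec hF w (pr (G z))
  have hd' : dist (pr (G z)) (pr (F (nearest r₂ F w (pr (G z))))) ≤ A.δ :=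
    (hmin w (mem_closedBall_self h.r₂_pos.le)).trans hd
  have hg := CRho_good A hGX
  have hg' : Good (A.χ (A.idx (pr (G z)))) (F (nearest r₂ F w (pr (G z)))) := A.good _ hGX _ (hF.2.1 _) hd'
  constructor
  · exact mul_nonneg (CRho_cf_nonneg _ _ _ _) (pow_nonneg (norm_nonneg _) _)
  · unfold rh
    refine mul_le_mul (hB _ _ hg) (pow_le_pow_left₀ (norm_nonneg _) ?_ _) (pow_nonneg (norm_nonneg _) _) hB₁
    refine (CRho_det _ _).trans ?_
    have h1 : ‖qc A (A.idx (pr (G z))) F (nearest r₂ F w (pr (G z))) - qc A (A.idx (pr (G z))) G z‖ ≤ 1 := by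
      refine (norm_sub_le _ _).trans ?_
      have h2 := hg.2.2
      have h3 := hg'.2.2
      unfold qc
      linarith
    have h2 := h.lc.der_le G hG _ z hg
    calc 2 * (‖qc A (A.idx (pr (G z))) F (nearest r₂ F w (pr (G z))) - qc A (A.idx (pr (G z))) G z‖ *
          ‖deriv (qc A (A.idx (pr (G z))) G) z‖) ≤ 2 * (1 * K₀) := by gcongr
      _ = 2 * K₀ := by ring

theorem coef_trans (hX : IsCone X) (A : Atlas X) (hm : 1 ≤ m) (Ω : Form X m 1) {i k : Fin A.n} {x : EN N} (hk : Good (A.χ k) x)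
    (hi : Good (A.χ i) x) : cf A Ω k x = ‖jac (fun p => (A.χ i).q ((A.χ k).σ p)) ((A.χ k).q x)‖ ^ m * cf A Ω i x := by
  have hp := CRho_sub hk.2.2
  obtain ⟨-, a, ha, hxa⟩ := (A.χ k).surj x hk.1 hk.2.1
  have hσ : (A.χ k).σ ((A.χ k).q x) = a⁻¹ • x := by
    conv_rhs => rw [hxa]
    rw [smul_smul, inv_mul_cancel₀ ha, one_smul]
  have hU : (A.χ k).σ ((A.χ k).q x) ∈ (A.χ i).U := by
    rw [hσ]
    exact (A.χ i).smul_U x hi.2.1 _ (inv_ne_zero ha)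
  have hq : (A.χ i).q ((A.χ k).σ ((A.χ k).q x)) = (A.χ i).q x := by
    rw [hσ, (A.χ i).q_smul x hi.2.1 _ (inv_ne_zero ha)]
  have h1 := Pool.Agent.H14.PP.ACoef_trans hX (CRho_open hX) hm Ω (A.χ k) (A.χ i) hp ((A.χ k).σ_mem _ hp).1 hU
  unfold cf
  rw [← CRho_pow rfl hm Ω (A.χ k), ← CRho_pow rfl hm Ω (A.χ i), h1, mul_pow, hq]

theorem rh_cmp (hX : IsCone X) (h : MC A c L r₀ c₁ K₀ r₂ r₃ ε₃ K) (hm : 1 ≤ m) (Ω : Form X m 1) {s η : ℝ} (hs : 0 < s) (hs₃ : s ≤ r₃)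
    (hη : 0 < η) : ∃ ε : ℝ, 0 < ε ∧ ε ≤ ε₃ ∧ ∀ F ∈ BC X c L, ∀ G ∈ BC X c L, ∀ z₀ φ, FolAt evp r₂ s ε F G z₀ φ → ∀ e ψ,
      Match A r₂ r₃ K F G (A.idx (pr (F (φ z₀)))) (φ z₀) z₀ e ψ → ∀ z ∈ closedBall z₀ (s / 2), ∀ k, k = A.idx (pr (F (φ z₀))) →
        Real.exp (-η) * (cf A Ω k (G z) * ‖Dm A F G k ψ z‖ ^ m) ≤ rh A Ω r₂ F (φ z) G z ∧
          rh A Ω r₂ F (φ z) G z ≤ Real.exp η * (cf A Ω k (G z) * ‖Dm A F G k ψ z‖ ^ m) := by
  have hm0 : (0 : ℝ) < m := by exact_mod_cast hm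
  obtain ⟨ε, hε, hε₃, H⟩ := h.det_comp hX hs hs₃ (div_pos hη hm0)
  refine ⟨ε, hε, hε₃, ?_⟩
  intro F hF G hG z₀ φ hfol e ψ hM z hz k hk
  obtain ⟨hn, hmin⟩ := h.nearest_spec hF (φ z) (pr (G z))
  obtain ⟨hlo, hup⟩ := H F hF G hG z₀ φ hfol e ψ hM z hz (nearest r₂ F (φ z) (pr (G z))) hn hmin
    (A.idx (pr (G z))) k _ _ rfl hk rfl rfl
  have hzb : z ∈ ball z₀ (2 * r₃) := by
    rw [mem_closedBall] at hz
    rw [mem_ball]
    have := h.r₃_pos
    linarith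
  have hgk : Good (A.χ k) (G z) := by
    rw [hk]
    exact hM.goodG z hzb
  have hgi := CRho_good A (hG.2.1 z)
  have hct := coef_trans hX A hm Ω hgk hgi
  have hcf := CRho_cf_nonneg A Ω (A.idx (pr (G z))) (G z)
  have hexp : ∀ t : ℝ, Real.exp (t / m) ^ m = Real.exp t := by
    intro t
    rw [← Real.exp_nat_mul, mul_div_cancel₀ _ hm0.ne']
  have hexp' : Real.exp (-(η / m)) ^ m = Real.exp (-η) := by
    rw [← neg_div, hexp]
  have hkey : ∀ t : ℝ, t ^ m * (cf A Ω k (G z) * ‖Dm A F G k ψ z‖ ^ m) =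
      cf A Ω (A.idx (pr (G z))) (G z) *
        (t * (‖jac (fun p => (A.χ (A.idx (pr (G z)))).q ((A.χ k).σ p)) (qc A k G z)‖ * ‖Dm A F G k ψ z‖)) ^ m := by
    intro t
    rw [hct, mul_pow, mul_pow]
    unfold qc
    ring
  constructor
  · rw [← hexp', hkey]
    unfold rh
    refine mul_le_mul_of_nonneg_left (pow_le_pow_left₀ ?_ hlo _) hcf
    positivity
  · rw [← hexp, hkey]
    unfold rh
    exact mul_le_mul_of_nonneg_left (pow_le_pow_left₀ (norm_nonneg _) hup _) hcf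

end Pool.Agent.H5.BD

end

section

/-!
# BD CLI: the local maximum principle

`κ = K⁻² / 8`.  Given `s ≤ r₃` let `γ = exp (-K⁻² s² / 16)`, `η = K⁻² s² / 128`, `θ = exp (κ (s / 2)²) γ exp (2 η) = exp (-K⁻² s² / 64) < 1`, and `ε` as in `rh_cmp` (for `s`, `η`).
Let `F, G, z₀, φ` be as in the claim, `k = A.idx (pr (F (φ z₀)))`; `dist (pr (G z₀)) (pr (F (φ z₀))) ≤ ε ≤ ε₃` and `matching` give `e, ψ`.  `z₀` is the centre:
`h z = aCoef Ω (A.χ k) (qc A k G z) * (Dm A F G k ψ z) ^ m`, `Fh z = (A.χ k).σ (qc A k G z)`, holomorphic on `ball z₀ s` (`goodG`, `LC.an`, `aCoef_analytic`, `σ_an`, `MC.Dm_hol`; the points `qc A k G z` have norm `≤ 1 / 2`);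
`‖h z‖ ‖Fh z‖ = cf A Ω k (G z) * ‖Dm A F G k ψ z‖ ^ m`.  `Fh z = a • G z` with `a ≠ 0` (`surj`), so `pr (Fh z) = pr (G z)`; for `‖z - z₀‖ = s / 2 ≤ 4 r₂`, `emb`: `dist (pr (G z)) (pr (G z₀)) ≥ K⁻¹ s / 2`, so
by `norm_inner_sq` `‖⟨Fh z₀, Fh z⟩‖² ≤ ‖Fh z₀‖² ‖Fh z‖² (1 - K⁻² s² / 8) ≤ (γ ‖Fh z₀‖ ‖Fh z‖)²`.  `max_ineq` with `r₀ = s / 2`, `r = s`, `c = a`: there is `z` with `‖z - z₀‖ = s / 2` and
`rh (φ z₀) z₀ E z₀ ≤ e^η ‖h z₀‖ ‖Fh z₀‖ E z₀ ≤ e^η exp (κ s² / 4) γ ‖h z‖ ‖Fh z‖ E z ≤ e^(2 η) exp (κ s² / 4) γ rh (φ z) z E z`.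
-/

set_option autoImplicit false

open Topology Filter Metric

namespace Pool.Agent.H5.BD

open Pool.Agent.H36.BP (EN fs wd)
open Pool.Agent.H14.PP (IsCone Chart Form Tan aCoef jac)
open Pool.Agent.H62.EF (MN pr det2)

variable {N : ℕ} {X : Set (EN N)} {A : Atlas X} {c L r₀ c₁ K₀ r₂ r₃ ε₃ K : ℝ} {m : ℕ}

theorem rh_loc (hX : IsCone X) (h : MC A c L r₀ c₁ K₀ r₂ r₃ ε₃ K) (hm : 1 ≤ m) (Ω : Form X m 1) {s : ℝ} (hs : 0 < s) (hs₃ : s ≤ r₃) :
    ∃ θ ε : ℝ, 0 ≤ θ ∧ θ < 1 ∧ 0 < ε ∧ ∀ F ∈ BC X c L, ∀ G ∈ BC X c L, ∀ z₀ φ, FolAt evp r₂ s ε F G z₀ φ → ∀ a : ℂ,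
      ∃ z ∈ closedBall z₀ s, rh A Ω r₂ F (φ z₀) G z₀ * Real.exp (-(K⁻¹ ^ 2 / 8) * ‖z₀ - a‖ ^ 2) ≤
        θ * (rh A Ω r₂ F (φ z) G z * Real.exp (-(K⁻¹ ^ 2 / 8) * ‖z - a‖ ^ 2)) := by
  have hKpos : 0 < K := lt_of_lt_of_le one_pos (h.lc.one_le.trans h.le_K)
  obtain ⟨k2, hk2⟩ : ∃ k2, k2 = K⁻¹ ^ 2 := ⟨_, rfl⟩
  have hk2pos : 0 < k2 := by
    rw [hk2]
    positivity
  have hηpos : 0 < k2 * s ^ 2 / 128 := by positivity
  obtain ⟨ε, hε, hε₃, hcmp⟩ := rh_cmp hX h hm Ω hs hs₃ hηpos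
  refine ⟨Real.exp (-(k2 * s ^ 2 / 64)), ε, (Real.exp_pos _).le, ?_, hε, ?_⟩
  · rw [Real.exp_lt_one_iff]
    have : 0 < k2 * s ^ 2 / 64 := by positivity
    linarith
  intro F hF G hG z₀ φ hfol a
  rw [← hk2]
  have hr₂ := h.r₂_pos
  have hr₃ := h.r₃_pos
  have hr₃₂ := h.r₃_le₂
  obtain ⟨e, ψ, hM⟩ := h.matching F hF G hG (φ z₀) z₀
    ((hfol z₀ (mem_closedBall_self hs.le)).1.trans hε₃)
  have hc := hcmp F hF G hG z₀ φ hfol e ψ hM
  obtain ⟨k, hk⟩ : ∃ k, k = A.idx (pr (F (φ z₀))) := ⟨_, rfl⟩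
  rw [← hk] at hM
  have hc' := fun z hz => hc z hz k hk
  have hgood : ∀ z ∈ ball z₀ s, Good (A.χ k) (G z) := fun z hz =>
    hM.goodG z (ball_subset_ball (by linarith) hz)
  have hp : ∀ z ∈ ball z₀ s, qc A k G z ∈ ball (0 : ℂ × ℂ) 2 := fun z hz => by
    rw [mem_ball_zero_iff]
    exact lt_of_le_of_lt (hgood z hz).2.2 (by norm_num)
  have hK : Pool.Agent.H14.PP.IsOpenPart X X :=
    ⟨subset_rfl, hX.smul_mem, fun x _ => Eventually.of_forall fun y hy => hy⟩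
  have hq : ∀ z ∈ ball z₀ s, AnalyticAt ℂ (qc A k G) z := fun z hz =>
    h.lc.an G hG k z (hgood z hz)
  have hF0 : ∀ z ∈ ball z₀ s, (A.χ k).σ (qc A k G z) ≠ 0 := fun z hz =>
    (A.χ k).sigma_ne_zero hX (hp z hz)
  have hpr : ∀ z ∈ ball z₀ s, pr ((A.χ k).σ (qc A k G z)) = pr (G z) := by
    intro z hz
    obtain ⟨b, hb, hb'⟩ := ((A.χ k).surj (G z) (hgood z hz).1 (hgood z hz).2.1).2
    have h1 : pr (G z) = pr (b • (A.χ k).σ ((A.χ k).q (G z))) := congrArg pr hb'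
    rw [h1, Pool.Agent.H62.EF.pr_smul _ hb]
    rfl
  have hz₀ : z₀ ∈ ball z₀ s := mem_ball_self hs
  have hsph : ∀ z ∈ sphere z₀ (s / 2), z ∈ ball z₀ s := fun z hz => by
    rw [mem_sphere] at hz
    rw [mem_ball, hz]
    linarith
  have hh : DifferentiableOn ℂ (fun z => aCoef Ω (A.χ k) (qc A k G z) * (Dm A F G k ψ z) ^ m)
      (ball z₀ s) := by
    intro z hz
    have h1 : AnalyticAt ℂ (aCoef Ω (A.χ k)) (qc A k G z) :=
      Pool.Agent.H14.PP.aCoef_analytic hK Ω (A.χ k) (hp z hz) ((A.χ k).σ_mem _ (hp z hz)).1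
    have h2 : DifferentiableAt ℂ (fun z => aCoef Ω (A.χ k) (qc A k G z)) z :=
      h1.differentiableAt.comp z (hq z hz).differentiableAt
    have hz3 : z ∈ ball z₀ (2 * r₃) := ball_subset_ball (by linarith) hz
    have h3 : DifferentiableAt ℂ (Dm A F G k ψ) z :=
      ((h.Dm_hol hF hG hM) z hz3).differentiableAt (isOpen_ball.mem_nhds hz3)
    exact (h2.mul (h3.pow m)).differentiableWithinAt
  have hFh : DifferentiableOn ℂ (fun z => (A.χ k).σ (qc A k G z)) (ball z₀ s) := by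
    intro z hz
    exact (((A.χ k).σ_an _ (hp z hz)).differentiableAt.comp z
      (hq z hz).differentiableAt).differentiableWithinAt
  have hγ : ∀ z ∈ sphere z₀ (s / 2), ‖inner ℂ ((A.χ k).σ (qc A k G z₀)) ((A.χ k).σ (qc A k G z))‖ ≤
      Real.exp (-(k2 * s ^ 2 / 16)) * (‖(A.χ k).σ (qc A k G z₀)‖ * ‖(A.χ k).σ (qc A k G z)‖) := by
    intro z hz
    have hz' := hsph z hz
    rw [mem_sphere, dist_comm, dist_eq_norm] at hz
    have h1 := h.emb G hG z₀ z (by rw [hz]; linarith)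
    rw [← hpr z₀ hz₀, ← hpr z hz', hz] at h1
    have h2 : k2 * s ^ 2 / 4 ≤
        dist (pr ((A.χ k).σ (qc A k G z₀))) (pr ((A.χ k).σ (qc A k G z))) ^ 2 := by
      have h3 : (K⁻¹ * (s / 2)) ^ 2 ≤
          dist (pr ((A.χ k).σ (qc A k G z₀))) (pr ((A.χ k).σ (qc A k G z))) ^ 2 :=
        pow_le_pow_left₀ (by positivity) h1 2
      rw [hk2]
      linarith
    have h4 := Pool.Agent.H62.EF.norm_inner_sq (hF0 z₀ hz₀) (hF0 z hz')
    have h5 : 1 - k2 * s ^ 2 / 8 ≤ Real.exp (-(k2 * s ^ 2 / 16)) ^ 2 := by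
      have h6 := Real.add_one_le_exp (-(k2 * s ^ 2 / 8))
      have h7 : Real.exp (-(k2 * s ^ 2 / 16)) ^ 2 = Real.exp (-(k2 * s ^ 2 / 8)) := by
        rw [← Real.exp_nat_mul]
        congr 1
        push_cast
        ring
      rw [h7]
      linarith
    refine le_of_sq_le_sq ?_ (by positivity)
    rw [h4]
    calc ‖(A.χ k).σ (qc A k G z₀)‖ ^ 2 * ‖(A.χ k).σ (qc A k G z)‖ ^ 2 *
          (1 - dist (pr ((A.χ k).σ (qc A k G z₀))) (pr ((A.χ k).σ (qc A k G z))) ^ 2 / 2)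
        ≤ ‖(A.χ k).σ (qc A k G z₀)‖ ^ 2 * ‖(A.χ k).σ (qc A k G z)‖ ^ 2 *
          Real.exp (-(k2 * s ^ 2 / 16)) ^ 2 := by
          refine mul_le_mul_of_nonneg_left ?_ (by positivity)
          linarith
      _ = (Real.exp (-(k2 * s ^ 2 / 16)) *
          (‖(A.χ k).σ (qc A k G z₀)‖ * ‖(A.χ k).σ (qc A k G z)‖)) ^ 2 := by ring
  obtain ⟨z, hz, hmax⟩ := Pool.Agent.H62.EF.max_ineq (by linarith : 0 < s / 2)
    (by linarith : s / 2 < s) hh hFh (hF0 z₀ hz₀) hγ (k2 / 8) a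
  have hzc : z ∈ closedBall z₀ (s / 2) := sphere_subset_closedBall hz
  refine ⟨z, closedBall_subset_closedBall (by linarith) hzc, ?_⟩
  have hQ : ∀ z, ‖aCoef Ω (A.χ k) (qc A k G z) * (Dm A F G k ψ z) ^ m‖ *
      ‖(A.χ k).σ (qc A k G z)‖ = cf A Ω k (G z) * ‖Dm A F G k ψ z‖ ^ m := by
    intro z
    rw [norm_mul, norm_pow]
    unfold cf qc
    ring
  rw [hQ, hQ] at hmax
  have h1 := (hc' z₀ (mem_closedBall_self (by linarith))).2
  have h2 := (hc' z hzc).1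
  obtain ⟨Q₀, hQ₀⟩ : ∃ Q₀, Q₀ = cf A Ω k (G z₀) * ‖Dm A F G k ψ z₀‖ ^ m := ⟨_, rfl⟩
  obtain ⟨Q₁, hQ₁⟩ : ∃ Q₁, Q₁ = cf A Ω k (G z) * ‖Dm A F G k ψ z‖ ^ m := ⟨_, rfl⟩
  rw [← hQ₀] at h1 hmax
  rw [← hQ₁] at h2 hmax
  obtain ⟨E₀, hE₀⟩ : ∃ E₀, E₀ = Real.exp (-(k2 / 8) * ‖z₀ - a‖ ^ 2) := ⟨_, rfl⟩
  obtain ⟨E₁, hE₁⟩ : ∃ E₁, E₁ = Real.exp (-(k2 / 8) * ‖z - a‖ ^ 2) := ⟨_, rfl⟩
  rw [← hE₀, ← hE₁] at hmax ⊢
  have hE₀pos : 0 < E₀ := by
    rw [hE₀]
    exact Real.exp_pos _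
  have hE₁pos : 0 < E₁ := by
    rw [hE₁]
    exact Real.exp_pos _
  have h3 : Q₁ ≤ Real.exp (k2 * s ^ 2 / 128) * rh A Ω r₂ F (φ z) G z := by
    have h4 := mul_le_mul_of_nonneg_left h2 (Real.exp_pos (k2 * s ^ 2 / 128)).le
    rw [← mul_assoc, ← Real.exp_add, add_neg_cancel, Real.exp_zero, one_mul] at h4
    exact h4
  calc rh A Ω r₂ F (φ z₀) G z₀ * E₀ ≤ Real.exp (k2 * s ^ 2 / 128) * Q₀ * E₀ :=
        mul_le_mul_of_nonneg_right h1 hE₀pos.le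
    _ = Real.exp (k2 * s ^ 2 / 128) * (Q₀ * E₀) := by ring
    _ ≤ Real.exp (k2 * s ^ 2 / 128) * (Real.exp (k2 / 8 * (s / 2) ^ 2) *
          Real.exp (-(k2 * s ^ 2 / 16)) * (Q₁ * E₁)) :=
        mul_le_mul_of_nonneg_left hmax (Real.exp_pos _).le
    _ ≤ Real.exp (k2 * s ^ 2 / 128) * (Real.exp (k2 / 8 * (s / 2) ^ 2) *
          Real.exp (-(k2 * s ^ 2 / 16)) *
            (Real.exp (k2 * s ^ 2 / 128) * rh A Ω r₂ F (φ z) G z * E₁)) := by
        refine mul_le_mul_of_nonneg_left ?_ (Real.exp_pos _).le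
        refine mul_le_mul_of_nonneg_left ?_ (by positivity)
        exact mul_le_mul_of_nonneg_right h3 hE₁pos.le
    _ = (Real.exp (k2 * s ^ 2 / 128) * Real.exp (k2 / 8 * (s / 2) ^ 2) *
          Real.exp (-(k2 * s ^ 2 / 16)) * Real.exp (k2 * s ^ 2 / 128)) *
            (rh A Ω r₂ F (φ z) G z * E₁) := by ring
    _ = Real.exp (-(k2 * s ^ 2 / 64)) * (rh A Ω r₂ F (φ z) G z * E₁) := by
        congr 1
        rw [← Real.exp_add, ← Real.exp_add, ← Real.exp_add]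
        congr 1
        ring

end Pool.Agent.H5.BD

end

section

/-!
# BD CIso: curves in `Z` near a generic point of a curve in `Z`

Let `i = A.idx (pr (G 0))`, `π = qc A i G`, analytic at `0` (`LC.an`; `G 0` is good for `i` by `A.good`), `π' 0 ≠ 0` (`der_ge`).  `g = aCoef Ω (A.χ i)` is analytic at `π 0` and not identically `0` near `π 0` (`hΩ`; `‖π 0‖ ≤ 1 / 2`).  By `mem_ZΩ`
`g (π z) = 0` for `z` near `0`.  `exists_isolated` (`H62/EF/IsoA.lean`) with a small `ε ≤ η` (so small that `G z` is good for `i` for `‖z‖ < 2 ε`, `LC.good`: `ε ≤ r₀ / 2`, and `dist (pr (G z)) (pr (G 0)) ≤ A.δ / 2`) gives `z₁`.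
Given `η'` let `δ'` be the number of `exists_isolated` for `ε' = min η' ε`, and `δ = min (A.δ / 2) (δ' / (2 A.C))`.  Let `F` be in `Z` and `dist (evp F w) (evp G z₁) < δ`.  Then `dist (pr (F w)) (pr (G 0)) ≤ A.δ`, so `F w` is good for `i`,
`aCoef Ω (A.χ i) (qc A i F w) = 0` (`mem_ZΩ`), `‖qc A i F w - π z₁‖ ≤ A.C δ < δ'` (`le_dist`), so `qc A i F w = π z'` with `‖z' - z₁‖ < ε'`; `G z'` is good for `i`, and `dist_le` gives `evp F w = evp G z'`.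
-/

set_option autoImplicit false

open Topology Filter Metric

namespace Pool.Agent.H5.BD

open Pool.Agent.H36.BP (EN fs wd)
open Pool.Agent.H14.PP (IsCone Chart Form Tan aCoef jac)
open Pool.Agent.H62.EF (MN pr det2)

variable {N : ℕ} {X : Set (EN N)} {A : Atlas X} {c L r₀ c₁ K₀ r₂ r₃ ε₃ K : ℝ} {m : ℕ}

/-- the form is not identically zero near any point -/
def Thin (Ω : Form X m 1) : Prop := ∀ (χ : Chart X), ∀ p ∈ ball (0 : ℂ × ℂ) 2, ∃ᶠ p' in 𝓝 p, aCoef Ω χ p' ≠ 0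

theorem MC.iso (hX : IsCone X) (h : MC A c L r₀ c₁ K₀ r₂ r₃ ε₃ K) (hm : 1 ≤ m) (Ω : Form X m 1) (hΩ : Thin Ω) :
    ∀ G ∈ BC X c L, (∀ z, evp G z ∈ ZΩ Ω) → ∀ η : ℝ, 0 < η → ∃ z₁ : ℂ, ‖z₁‖ < η ∧ ∀ η' : ℝ, 0 < η' → ∃ δ : ℝ, 0 < δ ∧
      ∀ F ∈ BC X c L, (∀ z, evp F z ∈ ZΩ Ω) → ∀ w, dist (evp F w) (evp G z₁) < δ → ∃ z', ‖z' - z₁‖ < η' ∧ evp F w = evp G z' := by
  intro G hG hGZ η hη
  have hlc := h.lc
  have hδ := A.δ_pos
  have hC : 0 < A.C := lt_of_lt_of_le one_pos A.one_le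
  have hL := hlc.L_pos
  have hr := hlc.r₀_pos
  have hgood : ∀ z : ℂ, ‖z‖ < r₀ → Good (A.χ (A.idx (pr (G 0)))) (G z) := by
    intro z hz
    refine hlc.good G hG (G 0) (hG.2.1 0) 0 ?_ z ?_
    · rw [dist_self]; positivity
    · rw [mem_ball_zero_iff]; exact hz
  have hg0 : Good (A.χ (A.idx (pr (G 0)))) (G 0) := hgood 0 (by rw [norm_zero]; exact hr)
  set i := A.idx (pr (G 0)) with hi
  have hπ : AnalyticAt ℂ (qc A i G) 0 := hlc.an G hG i 0 hg0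
  have hπ' : deriv (qc A i G) 0 ≠ 0 := by
    intro h0
    have h1 := hlc.der_ge G hG i 0 hg0
    rw [h0, norm_zero] at h1
    exact absurd h1 (not_le.2 hlc.c₁_pos)
  have hball : qc A i G 0 ∈ ball (0 : ℂ × ℂ) 2 := by
    rw [mem_ball_zero_iff]
    exact lt_of_le_of_lt hg0.2.2 (by norm_num)
  have hK : Pool.Agent.H14.PP.IsOpenPart X X :=
    ⟨subset_rfl, hX.smul_mem, fun x _ => Filter.Eventually.of_forall fun y hy => hy⟩
  have han : AnalyticAt ℂ (aCoef Ω (A.χ i)) (qc A i G 0) :=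
    Pool.Agent.H14.PP.aCoef_analytic hK Ω (A.χ i) hball ((A.χ i).σ_mem _ hball).1
  have hne : ¬ ∀ᶠ p in 𝓝 (qc A i G 0), aCoef Ω (A.χ i) p = 0 := by
    intro h0
    have h1 := hΩ (A.χ i) (qc A i G 0) hball
    exact h1 (h0.mono fun p hp => not_not.2 hp)
  obtain ⟨z₁, hz₁, hiso⟩ := Pool.Agent.H62.EF.exists_isolated hπ hπ' han hne
    (ε := min η (min (r₀ / 2) (A.δ / (4 * L)))) (by positivity)
  have hz₁η : ‖z₁‖ < η := lt_of_lt_of_le hz₁ (min_le_left _ _)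
  have hz₁r : ‖z₁‖ < r₀ / 2 := lt_of_lt_of_le hz₁ ((min_le_right _ _).trans (min_le_left _ _))
  have hz₁L : ‖z₁‖ < A.δ / (4 * L) := lt_of_lt_of_le hz₁ ((min_le_right _ _).trans (min_le_right _ _))
  refine ⟨z₁, hz₁η, ?_⟩
  intro η' hη'
  obtain ⟨δ', hδ', hp⟩ := hiso (min η' (r₀ / 2)) (by positivity)
  refine ⟨min (A.δ / 2) (δ' / (2 * A.C)), by positivity, ?_⟩
  intro F hF hFZ w hw
  have hw1 : dist (pr (F w)) (pr (G z₁)) < A.δ / 2 := lt_of_lt_of_le hw (min_le_left _ _)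
  have hw2 : dist (pr (F w)) (pr (G z₁)) < δ' / (2 * A.C) := lt_of_lt_of_le hw (min_le_right _ _)
  have h01 : dist (pr (G 0)) (pr (G z₁)) ≤ A.δ / 2 := by
    have h1 := hlc.lip G hG 0 z₁
    have h2 : ‖(0 : ℂ) - z₁‖ = ‖z₁‖ := by rw [zero_sub, norm_neg]
    rw [h2] at h1
    have h3 : ‖z₁‖ * (4 * L) < A.δ := by rwa [lt_div_iff₀ (by positivity)] at hz₁L
    linarith
  have hdist : dist (pr (G 0)) (pr (F w)) ≤ A.δ := by
    have h1 := dist_triangle_right (pr (G 0)) (pr (F w)) (pr (G z₁))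
    linarith
  have hgF : Good (A.χ i) (F w) := A.good (G 0) (hG.2.1 0) (F w) (hF.2.1 w) hdist
  have hgz₁ : Good (A.χ i) (G z₁) := hgood z₁ (by linarith)
  have hzero : aCoef Ω (A.χ i) (qc A i F w) = 0 := (mem_ZΩ hX hm Ω (A.χ i) hgF).1 (hFZ w)
  have hnear : ‖qc A i F w - qc A i G z₁‖ < δ' := by
    have h1 := A.le_dist i (F w) (G z₁) hgF hgz₁
    have h2 : dist (pr (F w)) (pr (G z₁)) * (2 * A.C) < δ' := by rwa [lt_div_iff₀ (by positivity)] at hw2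
    have h3 : 0 ≤ A.C * dist (pr (F w)) (pr (G z₁)) := by positivity
    have h4 : ‖qc A i F w - qc A i G z₁‖ ≤ A.C * dist (pr (F w)) (pr (G z₁)) := h1
    linarith
  obtain ⟨z', hz', heq⟩ := hp (qc A i F w) hnear hzero
  refine ⟨z', lt_of_lt_of_le hz' (min_le_left _ _), ?_⟩
  have hz'r : ‖z'‖ < r₀ := by
    have h1 : ‖z' - z₁‖ < r₀ / 2 := lt_of_lt_of_le hz' (min_le_right _ _)
    have h2 : ‖z'‖ ≤ ‖z' - z₁‖ + ‖z₁‖ := by simpa using norm_add_le (z' - z₁) z₁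
    linarith
  have hgz' : Good (A.χ i) (G z') := hgood z' hz'r
  have h5 := A.dist_le i (F w) (G z') hgF hgz'
  have h6 : (A.χ i).q (F w) - (A.χ i).q (G z') = 0 := sub_eq_zero.2 heq
  rw [h6, norm_zero, mul_zero] at h5
  exact dist_le_zero.1 h5

end Pool.Agent.H5.BD

end

section

/-!
# BD CSm: if `rh` is small then the point is near `Z` or near the plaque; the identity theorem for plaques

`rh_small`: let `K₂` be as in `exists_dmBound`; `ε` is the minimum of the number of `rh_cmp` (for `s` and `η = 1`), of `ε₃` and of `s / K₂`.  Given `η`: let `δ₁` be as in `ZΩ_small` for `η`, and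
`δ = exp (-1) δ₁ (η / (A.C K₂)) ^ m` (half of it if you need a strict inequality).
Let `F, G, z₀, φ` be as in the claim, `k = A.idx (pr (F (φ z₀)))`; `matching` gives `e, ψ` (`FolAt` at `z₀`: `dist ≤ ε ≤ ε₃`).  `rh_cmp` at `z = z₀`: `cf A Ω k (G z₀) ‖Dm z₀‖ ^ m ≤ e δ`.
If `cf A Ω k (G z₀) ≤ δ₁` then `ZΩ_small` (`goodG`) gives the first alternative.  Otherwise `‖Dm z₀‖ ^ m ≤ e δ / δ₁ = (η / (C K₂)) ^ m`, `‖Dm z₀‖ ≤ η / (C K₂)`, so by `lower` (`K₂ ε / s ≤ 1`)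
`‖qc A k F (ψ z₀) - qc A k G z₀‖ ≤ η / C`, and (`dist_le`) `dist (pr (G z₀)) (pr (F (ψ z₀))) ≤ η`, with `ψ z₀ ∈ closedBall (φ z₀) r₂`.

`ident`: `ε = ε₃`; `matching` gives `e, ψ` with `i = A.idx (pr (F w₀))`.  `d z = qc A i F (ψ z) - qc A i G z` is holomorphic on `ball z₀ (2 r₃)` (`MC.d_hol`).  If `z ∈ ball z₀ (2 r₃)` and
`evp G z = evp F w` with `w ∈ closedBall w₀ r₂` then (`le_dist`) `qc A i F w = qc A i G z`, by `near` `w = ψ z`, so `d z = 0`.  The points `z` near `z₁ ∈ closedBall z₀ r₃` are in `ball z₀ (2 r₃)`; so `d` has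
zeros accumulating at `z₁`, hence `d = 0` on the connected set `ball z₀ (2 r₃)` (identity theorem, e.g. `AnalyticOnNhd.eqOn_zero_of_preconnected_of_frequently_eq_zero`).  Then `dist_le` gives
`evp G z = evp F (ψ z)` for `z ∈ closedBall z₀ r₃`, with `ψ z ∈ closedBall w₀ r₂`.
-/

set_option autoImplicit false

open Topology Filter Metric

namespace Pool.Agent.H5.BD

open Pool.Agent.H36.BP (EN fs wd)
open Pool.Agent.H14.PP (IsCone Chart Form Tan aCoef jac)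
open Pool.Agent.H62.EF (MN pr det2)

variable {N : ℕ} {X : Set (EN N)} {A : Atlas X} {c L r₀ c₁ K₀ r₂ r₃ ε₃ K : ℝ} {m : ℕ}

theorem rh_small (hX : IsCone X) (h : MC A c L r₀ c₁ K₀ r₂ r₃ ε₃ K) (hm : 1 ≤ m) (Ω : Form X m 1) {s : ℝ} (hs : 0 < s) (hs₃ : s ≤ r₃) :
    ∃ ε : ℝ, 0 < ε ∧ ∀ η : ℝ, 0 < η → ∃ δ : ℝ, 0 < δ ∧ ∀ F ∈ BC X c L, ∀ G ∈ BC X c L, ∀ z₀ φ, FolAt evp r₂ s ε F G z₀ φ →
      rh A Ω r₂ F (φ z₀) G z₀ ≤ δ → (∃ y ∈ ZΩ Ω, dist (evp G z₀) y ≤ η) ∨ ∃ w ∈ closedBall (φ z₀) r₂, dist (evp G z₀) (evp F w) ≤ η := by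
  obtain ⟨K₂, hK₂, hdm⟩ := h.exists_dmBound
  obtain ⟨ε₁, hε₁, hε₁₃, hcmp⟩ := rh_cmp hX h hm Ω hs hs₃ (η := 1) one_pos
  have hK₂0 : 0 < K₂ := lt_of_lt_of_le one_pos hK₂
  have hC0 : 0 < A.C := lt_of_lt_of_le one_pos A.one_le
  refine ⟨min ε₁ (s / K₂), lt_min hε₁ (by positivity), fun η hη => ?_⟩
  obtain ⟨δ₁, hδ₁, hZ⟩ := ZΩ_small hX A hm Ω hη
  refine ⟨Real.exp (-1) * (δ₁ * (η / (A.C * K₂)) ^ m), by positivity, fun F hF G hG z₀ φ hfol hrh => ?_⟩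
  have hz₀ : z₀ ∈ closedBall z₀ s := mem_closedBall_self hs.le
  have hε0 : 0 ≤ min ε₁ (s / K₂) := (lt_min hε₁ (by positivity)).le
  obtain ⟨e, ψ, hmat⟩ := h.matching F hF G hG (φ z₀) z₀ (((hfol z₀ hz₀).1.trans (min_le_left _ _)).trans hε₁₃)
  have hfol' : FolAt evp r₂ s ε₁ F G z₀ φ := fun z hz => ⟨(hfol z hz).1.trans (min_le_left _ _), (hfol z hz).2⟩
  have h1 := (hcmp F hF G hG z₀ φ hfol' e ψ hmat z₀ (mem_closedBall_self (by positivity)) _ rfl).1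
  set k := A.idx (pr (F (φ z₀))) with hk
  have h2 : cf A Ω k (G z₀) * ‖Dm A F G k ψ z₀‖ ^ m ≤ δ₁ * (η / (A.C * K₂)) ^ m :=
    le_of_mul_le_mul_left (h1.trans hrh) (Real.exp_pos _)
  have hr₂ := h.r₂_pos
  have hr₃ := h.r₃_pos
  have hzb : z₀ ∈ ball z₀ (2 * r₃) := mem_ball_self (by positivity)
  rcases le_or_gt (cf A Ω k (G z₀)) δ₁ with hcase | hcase
  · exact Or.inl (hZ k (G z₀) (hmat.goodG z₀ hzb) hcase)
  · right
    have h3 : δ₁ * ‖Dm A F G k ψ z₀‖ ^ m ≤ δ₁ * (η / (A.C * K₂)) ^ m :=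
      (mul_le_mul_of_nonneg_right hcase.le (by positivity)).trans h2
    have h4 : ‖Dm A F G k ψ z₀‖ ^ m ≤ (η / (A.C * K₂)) ^ m := le_of_mul_le_mul_left h3 hδ₁
    have h5 : ‖Dm A F G k ψ z₀‖ ≤ η / (A.C * K₂) := by
      by_contra hcon
      push Not at hcon
      have h6 := pow_lt_pow_left₀ hcon (by positivity) (show m ≠ 0 by omega)
      linarith
    have hDB := hdm F hF G hG k (φ z₀) z₀ e ψ hmat s (min ε₁ (s / K₂)) hs hs₃ hε0 (fun z hz => by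
      refine ⟨φ z, ?_, (hfol z hz).1⟩
      rw [mem_closedBall, dist_eq_norm]
      have h6 := (hfol z hz).2
      linarith)
    have h7 : K₂ * (min ε₁ (s / K₂) / s) ≤ 1 := by
      have h8 : min ε₁ (s / K₂) / s ≤ (s / K₂) / s := div_le_div_of_nonneg_right (min_le_right _ _) hs.le
      have h9 : K₂ * ((s / K₂) / s) = 1 := by field_simp
      calc K₂ * (min ε₁ (s / K₂) / s) ≤ K₂ * ((s / K₂) / s) := mul_le_mul_of_nonneg_left h8 hK₂0.le
        _ = 1 := h9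
    have h10 := hDB.lower h7 z₀ (mem_closedBall_self (by positivity))
    have h11 : ‖qc A k F (ψ z₀) - qc A k G z₀‖ ≤ η / A.C := by
      calc ‖qc A k F (ψ z₀) - qc A k G z₀‖ ≤ K₂ * ‖Dm A F G k ψ z₀‖ := h10
        _ ≤ K₂ * (η / (A.C * K₂)) := mul_le_mul_of_nonneg_left h5 hK₂0.le
        _ = η / A.C := by field_simp
    have hψ := hmat.mem z₀ hzb
    have hψ2 : ψ z₀ ∈ closedBall (φ z₀) (2 * r₂) := closedBall_subset_closedBall (by linarith) hψ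
    refine ⟨ψ z₀, hψ, ?_⟩
    rw [dist_comm]
    calc dist (evp F (ψ z₀)) (evp G z₀) ≤ A.C * ‖qc A k F (ψ z₀) - qc A k G z₀‖ :=
          A.dist_le k _ _ (hmat.goodF _ hψ2) (hmat.goodG z₀ hzb)
      _ ≤ A.C * (η / A.C) := mul_le_mul_of_nonneg_left h11 hC0.le
      _ = η := by field_simp

theorem MC.ident (hX : IsCone X) (h : MC A c L r₀ c₁ K₀ r₂ r₃ ε₃ K) : ∃ ε : ℝ, 0 < ε ∧ ∀ F ∈ BC X c L, ∀ G ∈ BC X c L, ∀ z₀ w₀,
    dist (evp G z₀) (evp F w₀) ≤ ε → ∀ z₁ ∈ closedBall z₀ r₃, (∃ᶠ z in 𝓝[≠] z₁, evp G z ∈ Pl evp r₂ F w₀) →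
      ∀ z ∈ closedBall z₀ r₃, evp G z ∈ Pl evp r₂ F w₀ := by
  refine ⟨ε₃, h.ε₃_pos, fun F hF G hG z₀ w₀ hd z₁ hz₁ hfreq z hz => ?_⟩
  have hr₂ := h.r₂_pos
  have hr₃ := h.r₃_pos
  obtain ⟨e, ψ, hmat⟩ := h.matching F hF G hG w₀ z₀ hd
  set i := A.idx (pr (F w₀)) with hi
  set d : ℂ → ℂ × ℂ := fun z => qc A i F (ψ z) - qc A i G z with hdd
  have hhol : DifferentiableOn ℂ d (ball z₀ (2 * r₃)) := h.d_hol hF hG hmat
  have han : AnalyticOnNhd ℂ d (ball z₀ (2 * r₃)) := hhol.analyticOnNhd isOpen_ball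
  have hz₁b : z₁ ∈ ball z₀ (2 * r₃) := closedBall_subset_ball (by linarith) hz₁
  have hzb : z ∈ ball z₀ (2 * r₃) := closedBall_subset_ball (by linarith) hz
  have hzero : ∀ y ∈ ball z₀ (2 * r₃), evp G y ∈ Pl evp r₂ F w₀ → d y = 0 := by
    rintro y hy ⟨w, hw, hwy⟩
    have hw2 : w ∈ closedBall w₀ (2 * r₂) := closedBall_subset_closedBall (by linarith) hw
    have h1 : ‖qc A i F w - qc A i G y‖ ≤ 0 := by
      have h2 := A.le_dist i (F w) (G y) (hmat.goodF w hw2) (hmat.goodG y hy)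
      have h3 : dist (pr (F w)) (pr (G y)) = 0 := by
        have h4 : pr (F w) = pr (G y) := hwy
        rw [h4, dist_self]
      rw [h3, mul_zero] at h2
      exact h2
    have h5 := hmat.near y hy w hw2
    have h6 : ‖w - ψ y‖ ≤ 0 := by
      have h7 : ‖qc A i F w - qc A i G y‖ = 0 := le_antisymm h1 (norm_nonneg _)
      rw [h7, mul_zero] at h5
      exact h5
    have h8 : w = ψ y := sub_eq_zero.1 (norm_le_zero_iff.1 h6)
    have h9 : qc A i F w - qc A i G y = 0 := norm_le_zero_iff.1 h1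
    show qc A i F (ψ y) - qc A i G y = 0
    rw [← h8]; exact h9
  have hfreq' : ∃ᶠ y in 𝓝[≠] z₁, d y = 0 := by
    have h1 : ∀ᶠ y in 𝓝[≠] z₁, y ∈ ball z₀ (2 * r₃) := mem_nhdsWithin_of_mem_nhds (isOpen_ball.mem_nhds hz₁b)
    exact (hfreq.and_eventually h1).mono fun y hy => hzero y hy.2 hy.1
  have hEq := han.eqOn_zero_of_preconnected_of_frequently_eq_zero (convex_ball z₀ (2 * r₃)).isPreconnected hz₁b hfreq'
  have hdz : qc A i F (ψ z) - qc A i G z = 0 := hEq hzb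
  have hψ := hmat.mem z hzb
  have hψ2 : ψ z ∈ closedBall w₀ (2 * r₂) := closedBall_subset_closedBall (by linarith) hψ
  have h1 := A.dist_le i (F (ψ z)) (G z) (hmat.goodF _ hψ2) (hmat.goodG z hzb)
  have h2 : (A.χ i).q (F (ψ z)) - (A.χ i).q (G z) = 0 := hdz
  rw [h2, norm_zero, mul_zero] at h1
  exact ⟨ψ z, hψ, dist_le_zero.1 h1⟩

end Pool.Agent.H5.BD

end

section

/-!
# EF PrLip: curves with bounded Fubini-Study derivative are Lipschitz

Let `F` be holomorphic on the open convex set `U`, without zeros, `fs (F z) (F' z) ≤ L`.  The map `z ↦ pr (F z)` is real differentiable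
on `U`, with derivative of norm at most `√2 L`; conclude with the mean value inequality (`Convex.norm_image_sub_le_of_norm_hasFDerivWithin_le`).
The derivative at `z` in the direction `h ∈ ℂ`: by `pr_smul`, `pr (F w) = pr (G w)` with `G w = F w / a(w)` for any holomorphic `a`
without zero; take the constant `a = ‖F z‖`-normalisation and subtract: with `x = F z`, `v = F' z h`, `v' = v - (⟨x, v⟩ / ‖x‖²) x`
(orthogonal to `x`): the derivative of `pr` at `x` in the direction `v` is `(v' x^* + x v'^*) / ‖x‖²`, of norm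
`√2 ‖v'‖ ‖x‖ / ‖x‖² = √2 wd x v / ‖x‖² = √2 fs x v`.
Another way, without computing the derivative: by `dist_pr`, `dist (pr (F z)) (pr (F w)) = √2 wd (F z) (F w) / (‖F z‖ ‖F w‖)` and
`wd (F z) (F w) = wd (F z) (F w - F z)`, so `limsup_{w → z} dist (pr (F z)) (pr (F w)) / ‖w - z‖ ≤ √2 wd (F z) (F' z) / ‖F z‖² ≤ √2 L`;
a map on a segment with this property is Lipschitz with every constant `> √2 L`
(`image_le_of_liminf_slope_right_lt_deriv_boundary` and variants for the real function `t ↦ dist (f z) (f (z + t (w - z)))`, or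
`image_norm_le_of_liminf_right_slope_norm_lt_deriv_boundary`).
-/

set_option autoImplicit false

open Topology Filter Metric

namespace Pool.Agent.H62.EF

open Pool.Agent.H36.BP (EN fs wd wd_cont wd_inv wd_smul_right fs_nonneg)

variable {N : ℕ}

/-- `wd x y = (t - s) wd x (slope)` -/
private theorem wd_slope {G : ℝ → EN N} {s t : ℝ} (h : s < t) :
    wd (G s) (G t) = (t - s) * wd (G s) (slope G s t) := by
  have h1 : G t = (((t - s : ℝ)) : ℂ) • slope G s t + (1 : ℂ) • G s := by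
    have hne : t - s ≠ 0 := by linarith
    rw [slope_def_module, one_smul, Complex.coe_smul, smul_smul, mul_inv_cancel₀ hne, one_smul, sub_add_cancel]
  have h2 : wd (G s) (G t) = wd (G s) ((((t - s : ℝ)) : ℂ) • slope G s t) := by
    have h3 := wd_inv (G s) ((((t - s : ℝ)) : ℂ) • slope G s t) 1 1
    have h4 : (1 : ℂ) • ((((t - s : ℝ)) : ℂ) • slope G s t) + (1 : ℂ) • G s = G t := by
      rw [one_smul ℂ ((((t - s : ℝ)) : ℂ) • slope G s t), ← h1]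
    rw [h4, one_smul, norm_one, one_pow, one_mul] at h3
    exact h3
  rw [h2, wd_smul_right, Complex.norm_real, Real.norm_of_nonneg (by linarith)]

private theorem lim_aux {l : Filter ℝ} {S : ℝ → EN N} {x v : EN N} (h : Tendsto S l (𝓝 v)) :
    Tendsto (fun t => wd x (S t)) l (𝓝 (wd x v)) := by
  have h1 : Tendsto (fun t => (inner ℂ x (S t) : ℂ)) l (𝓝 (inner ℂ x v)) := tendsto_const_nhds.inner h
  have h2 : Tendsto (fun t => ‖x‖ ^ 2 * ‖S t‖ ^ 2 - ‖(inner ℂ x (S t) : ℂ)‖ ^ 2) l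
      (𝓝 (‖x‖ ^ 2 * ‖v‖ ^ 2 - ‖(inner ℂ x v : ℂ)‖ ^ 2)) :=
    ((h.norm.pow 2).const_mul _).sub (h1.norm.pow 2)
  exact h2.sqrt

private theorem lim_aux2 {l : Filter ℝ} {S G : ℝ → EN N} {x v : EN N} (h : Tendsto S l (𝓝 v)) (hG : Tendsto G l (𝓝 x))
    (hx : ‖x‖ ≠ 0) :
    Tendsto (fun t => Real.sqrt 2 * (wd x (S t) / (‖x‖ * ‖G t‖))) l (𝓝 (Real.sqrt 2 * (wd x v / (‖x‖ * ‖x‖)))) := by
  have h1 := lim_aux (x := x) h
  have h2 : Tendsto (fun t => ‖x‖ * ‖G t‖) l (𝓝 (‖x‖ * ‖x‖)) := hG.norm.const_mul _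
  exact (h1.div h2 (mul_ne_zero hx hx)).const_mul _

theorem pr_lipschitz {F : ℂ → EN N} {U : Set ℂ} (hU : IsOpen U) (hUc : Convex ℝ U) (hF : DifferentiableOn ℂ F U)
    (h0 : ∀ z ∈ U, F z ≠ 0) {L : ℝ} (hL : ∀ z ∈ U, fs (F z) (deriv F z) ≤ L) :
    ∀ z ∈ U, ∀ w ∈ U, dist (pr (F z)) (pr (F w)) ≤ 2 * L * ‖z - w‖ := by
  intro z hz w hw
  have hL0 : 0 ≤ L := le_trans (fs_nonneg _ _) (hL z hz)
  obtain ⟨γ, hγ⟩ : ∃ γ : ℝ → ℂ, γ = fun t : ℝ => z + (t : ℂ) * (w - z) := ⟨_, rfl⟩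
  have hγU : ∀ t ∈ Set.Icc (0 : ℝ) 1, γ t ∈ U := by
    intro t ht
    have h1 := hUc hz hw (show 0 ≤ 1 - t by linarith [ht.2]) ht.1 (by ring)
    have h2 : γ t = (1 - t) • z + t • w := by
      rw [hγ]
      simp only [Complex.real_smul]
      push_cast
      ring
    rw [h2]
    exact h1
  have hγ0 : γ 0 = z := by rw [hγ]; simp
  have hγ1 : γ 1 = w := by rw [hγ]; simp
  have hγd : ∀ t, HasDerivAt γ (w - z) t := by
    intro t
    have h1 : HasDerivAt (fun s : ℝ => (s : ℂ)) 1 t := Complex.ofRealCLM.hasDerivAt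
    have h2 := (h1.mul_const (w - z)).const_add z
    rw [one_mul] at h2
    rw [hγ]
    exact h2
  obtain ⟨G, hG⟩ : ∃ G : ℝ → EN N, G = fun t => F (γ t) := ⟨_, rfl⟩
  have hGd : ∀ t ∈ Set.Icc (0 : ℝ) 1, HasDerivAt G ((w - z) • deriv F (γ t)) t := by
    intro t ht
    have h1 : HasDerivAt F (deriv F (γ t)) (γ t) :=
      (hF.differentiableAt (hU.mem_nhds (hγU t ht))).hasDerivAt
    rw [hG]
    exact h1.scomp t (hγd t)
  have hG0 : ∀ t ∈ Set.Icc (0 : ℝ) 1, G t ≠ 0 := by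
    intro t ht
    rw [hG]
    exact h0 _ (hγU t ht)
  have hcont : ContinuousOn (fun t => pr (G t) - pr (G 0)) (Set.Icc 0 1) := by
    intro t ht
    have h1 : ContinuousAt (fun t => pr (G t)) t :=
      ContinuousAt.comp (f := G) (g := pr) (continuousAt_pr (hG0 t ht)) (hGd t ht).continuousAt
    exact (h1.sub continuousAt_const).continuousWithinAt
  have hslope : ∀ x ∈ Set.Ico (0 : ℝ) 1, ∀ r : ℝ, Real.sqrt 2 * (L * ‖w - z‖) < r →
      ∃ᶠ t in 𝓝[>] x, slope (norm ∘ fun t => pr (G t) - pr (G 0)) x t < r := by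
    intro x hx r hr
    have hx1 : x ∈ Set.Icc (0 : ℝ) 1 := ⟨hx.1, hx.2.le⟩
    have hd := hGd x hx1
    have hs : Tendsto (slope G x) (𝓝[>] x) (𝓝 ((w - z) • deriv F (γ x))) :=
      (hasDerivAt_iff_tendsto_slope.1 hd).mono_left (nhdsWithin_mono _ fun t ht => ne_of_gt ht)
    have hc : Tendsto G (𝓝[>] x) (𝓝 (G x)) := hd.continuousAt.tendsto.mono_left nhdsWithin_le_nhds
    have hxn : ‖G x‖ ≠ 0 := norm_ne_zero_iff.2 (hG0 x hx1)
    have hlim : Tendsto (fun t => Real.sqrt 2 * (wd (G x) (slope G x t) / (‖G x‖ * ‖G t‖))) (𝓝[>] x)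
        (𝓝 (Real.sqrt 2 * (wd (G x) ((w - z) • deriv F (γ x)) / (‖G x‖ * ‖G x‖)))) := by
      exact lim_aux2 hs hc hxn
    have hval : Real.sqrt 2 * (wd (G x) ((w - z) • deriv F (γ x)) / (‖G x‖ * ‖G x‖)) ≤
        Real.sqrt 2 * (L * ‖w - z‖) := by
      refine mul_le_mul_of_nonneg_left ?_ (Real.sqrt_nonneg _)
      have h1 := hL (γ x) (hγU x hx1)
      have h2 : G x = F (γ x) := by rw [hG]
      unfold fs at h1
      rw [wd_smul_right, h2, mul_div_assoc, ← pow_two, mul_comm L]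
      exact mul_le_mul_of_nonneg_left h1 (norm_nonneg _)
    have hev : ∀ᶠ t in 𝓝[>] x, Real.sqrt 2 * (wd (G x) (slope G x t) / (‖G x‖ * ‖G t‖)) < r :=
      hlim.eventually (gt_mem_nhds (lt_of_le_of_lt hval hr))
    have hmem : ∀ᶠ t in 𝓝[>] x, t ∈ Set.Ioc x 1 := Ioc_mem_nhdsGT hx.2
    refine Eventually.frequently ?_
    filter_upwards [hev, hmem] with t ht htm
    have hxt : x < t := htm.1
    have ht1 : t ∈ Set.Icc (0 : ℝ) 1 := ⟨le_trans hx.1 hxt.le, htm.2⟩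
    refine lt_of_le_of_lt ?_ ht
    have h1 : ‖pr (G t) - pr (G 0)‖ - ‖pr (G x) - pr (G 0)‖ ≤ dist (pr (G x)) (pr (G t)) := by
      have h2 := norm_sub_norm_le (pr (G t) - pr (G 0)) (pr (G x) - pr (G 0))
      rw [sub_sub_sub_cancel_right, norm_sub_rev (pr (G t)) (pr (G x)), ← dist_eq_norm (pr (G x)) (pr (G t))] at h2
      exact h2
    rw [dist_pr (hG0 x hx1) (hG0 t ht1), wd_slope hxt] at h1
    rw [slope_def_field]
    show (‖pr (G t) - pr (G 0)‖ - ‖pr (G x) - pr (G 0)‖) / (t - x) ≤ _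
    rw [div_le_iff₀ (by linarith)]
    calc ‖pr (G t) - pr (G 0)‖ - ‖pr (G x) - pr (G 0)‖
        ≤ Real.sqrt 2 * ((t - x) * wd (G x) (slope G x t) / (‖G x‖ * ‖G t‖)) := h1
      _ = Real.sqrt 2 * (wd (G x) (slope G x t) / (‖G x‖ * ‖G t‖)) * (t - x) := by ring
  have key : ∀ ε : ℝ, 0 < ε → ‖pr (G 1) - pr (G 0)‖ ≤ Real.sqrt 2 * (L * ‖w - z‖) + ε := by
    intro ε hε
    have h1 := image_norm_le_of_liminf_right_slope_norm_lt_deriv_boundary (a := 0) (b := 1)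
      (f := fun t => pr (G t) - pr (G 0)) (f' := fun _ => Real.sqrt 2 * (L * ‖w - z‖)) hcont hslope
      (B := fun t => (Real.sqrt 2 * (L * ‖w - z‖) + ε) * t) (B' := fun _ => Real.sqrt 2 * (L * ‖w - z‖) + ε)
      (by simp) (by fun_prop)
      (fun x _ => by
        have h2 := (hasDerivAt_id x).const_mul (Real.sqrt 2 * (L * ‖w - z‖) + ε)
        rw [mul_one] at h2
        exact h2.hasDerivWithinAt)
      (fun x _ _ => by linarith) (x := 1) ⟨zero_le_one, le_refl 1⟩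
    rw [mul_one] at h1
    exact h1
  have hfin : ‖pr (G 1) - pr (G 0)‖ ≤ Real.sqrt 2 * (L * ‖w - z‖) := le_of_forall_pos_le_add key
  have hG1 : G 1 = F w := by rw [hG]; show F (γ 1) = F w; rw [hγ1]
  have hG0' : G 0 = F z := by rw [hG]; show F (γ 0) = F z; rw [hγ0]
  rw [hG1, hG0', ← dist_eq_norm, dist_comm] at hfin
  refine hfin.trans ?_
  have hs2 : Real.sqrt 2 ≤ 2 := by
    rw [Real.sqrt_le_left (by norm_num)]
    norm_num
  rw [norm_sub_rev z w, mul_assoc]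
  exact mul_le_mul_of_nonneg_right hs2 (mul_nonneg hL0 (norm_nonneg _))

end Pool.Agent.H62.EF

end

section

/-!
# BD CLoc: uniform bounds for the curves in the charts

`lip`: `pr_lipschitz` (`U = univ`).
Let `C₁ ≥ 1` be larger than the constants of `Chart.exists_fs_bound` (`H14/PP/ChartFs.lean`) for the charts of the atlas.  `r₀ = A.δ / (4 L + 1)`, `c₁ = c / C₁`, `K = max (max 1 (C₁ L)) (4 (C₁ L + 1) / r₀)`.
`good`: `dist (pr x) (pr (F w)) ≤ A.δ / 2 + 2 L r₀ ≤ A.δ` and `A.good`.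
`an`: `F w ∈ (A.χ i).U`, `q_an`, and `F` is analytic.
`der_ge`, `der_le`: `F` is a `CurveAt` (`H14.PP.CurveAt X F w`), `Chart.curve`: `deriv (qc A i F) w = fderiv q (F w) (deriv F w)`; `exists_fs_bound`.
`der_lip`: `deriv (qc A i F)` is holomorphic on `ball w₀ r₀`, of norm `≤ K₁ = C₁ L` there, so (Cauchy's estimate on discs of radius `r₀ / 2 - t`, or `r₀ / 4`) its derivative is bounded by
`4 K₁ / r₀` on `ball w₀ (r₀ / 2)`; mean value inequality on the convex set `ball w₀ (r₀ / 2)`.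
-/

set_option autoImplicit false

open Topology Filter Metric

namespace Pool.Agent.H5.BD

open Pool.Agent.H36.BP (EN fs wd)
open Pool.Agent.H14.PP (IsCone Chart Form Tan aCoef jac)
open Pool.Agent.H62.EF (MN pr det2)

variable {N : ℕ} {X : Set (EN N)}

theorem exists_LC (hX : IsCone X) (A : Atlas X) {c L : ℝ} (hc : 0 < c) (hL : 0 < L) : ∃ r₀ c₁ K : ℝ, LC A c L r₀ c₁ K := by
  have hex : ∀ i : Fin A.n, ∃ C : ℝ, 1 ≤ C ∧
      (∀ x ∈ X, x ∈ (A.χ i).U → ‖(A.χ i).q x‖ ≤ 1 → ∀ v, ‖fderiv ℂ (A.χ i).q x v‖ ≤ C * fs x v) ∧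
      ∀ (F : ℂ → EN N) (z₀ : ℂ), Pool.Agent.H14.PP.CurveAt X F z₀ → F z₀ ∈ (A.χ i).U → ‖(A.χ i).q (F z₀)‖ ≤ 1 →
        fs (F z₀) (deriv F z₀) ≤ C * ‖deriv (fun z => (A.χ i).q (F z)) z₀‖ := fun i =>
    Pool.Agent.H14.PP.Chart.exists_fs_bound hX (A.χ i)
  choose f hf1 hf2 hf3 using hex
  obtain ⟨C₁, hC₁, hfC⟩ : ∃ C₁ : ℝ, 1 ≤ C₁ ∧ ∀ i, f i ≤ C₁ := by
    refine ⟨1 + ∑ i, f i, ?_, fun i => ?_⟩
    · have h0 : 0 ≤ ∑ i, f i := Finset.sum_nonneg fun i _ => zero_le_one.trans (hf1 i)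
      linarith
    · have h0 : f i ≤ ∑ i, f i :=
        Finset.single_le_sum (f := f) (fun j _ => zero_le_one.trans (hf1 j)) (Finset.mem_univ i)
      linarith
  have hC₁0 : 0 < C₁ := by linarith
  have hδ := A.δ_pos
  have hlip : ∀ F ∈ BC X c L, ∀ z w, dist (pr (F z)) (pr (F w)) ≤ 2 * L * ‖z - w‖ := by
    intro F hF z w
    exact Pool.Agent.H62.EF.pr_lipschitz isOpen_univ convex_univ hF.1.differentiableOn
      (fun y _ => hX.ne_zero (hF.2.1 y)) (fun y _ => (hF.2.2 y).2) z (Set.mem_univ z) w (Set.mem_univ w)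
  have hcurve : ∀ F ∈ BC X c L, ∀ z, Pool.Agent.H14.PP.CurveAt X F z := by
    intro F hF z
    exact ⟨hF.1.analyticAt z, Filter.Eventually.of_forall fun y => hF.2.1 y⟩
  have han : ∀ F ∈ BC X c L, ∀ i w, Good (A.χ i) (F w) → AnalyticAt ℂ (qc A i F) w := by
    intro F hF i w hg
    exact (Pool.Agent.H14.PP.Chart.curve hX (A.χ i) (hcurve F hF w) hg.2.1).1
  have hle : ∀ F ∈ BC X c L, ∀ i w, Good (A.χ i) (F w) → ‖deriv (qc A i F) w‖ ≤ C₁ * L := by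
    intro F hF i w hg
    have h1 : deriv (qc A i F) w = fderiv ℂ (A.χ i).q (F w) (deriv F w) :=
      (Pool.Agent.H14.PP.Chart.curve hX (A.χ i) (hcurve F hF w) hg.2.1).2.1
    rw [h1]
    have h2 := hf2 i (F w) hg.1 hg.2.1 (hg.2.2.trans (by norm_num)) (deriv F w)
    have h3 : 0 ≤ fs (F w) (deriv F w) := hc.le.trans (hF.2.2 w).1
    calc ‖fderiv ℂ (A.χ i).q (F w) (deriv F w)‖ ≤ f i * fs (F w) (deriv F w) := h2
      _ ≤ C₁ * fs (F w) (deriv F w) := mul_le_mul_of_nonneg_right (hfC i) h3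
      _ ≤ C₁ * L := mul_le_mul_of_nonneg_left (hF.2.2 w).2 hC₁0.le
  obtain ⟨r₀, hr₀, hr₀e⟩ : ∃ r₀ : ℝ, 0 < r₀ ∧ 2 * L * r₀ ≤ A.δ / 2 := by
    refine ⟨A.δ / (4 * L + 1), by positivity, ?_⟩
    have h1 : 2 * L * (A.δ / (4 * L + 1)) = (2 * L * A.δ) / (4 * L + 1) := by ring
    rw [h1, div_le_div_iff₀ (by positivity) (by norm_num)]
    nlinarith
  have hK1 : (1 : ℝ) ≤ max (max 1 (C₁ * L)) (4 * (C₁ * L + 1) / r₀) := (le_max_left _ _).trans (le_max_left _ _)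
  have hK2 : C₁ * L ≤ max (max 1 (C₁ * L)) (4 * (C₁ * L + 1) / r₀) := (le_max_right _ _).trans (le_max_left _ _)
  have hK3 : 4 * (C₁ * L + 1) / r₀ ≤ max (max 1 (C₁ * L)) (4 * (C₁ * L + 1) / r₀) := le_max_right _ _
  refine ⟨r₀, c / C₁, max (max 1 (C₁ * L)) (4 * (C₁ * L + 1) / r₀), hr₀, by positivity, hK1, hL, hlip, ?_, han, ?_, ?_, ?_⟩
  · intro F hF x hx w₀ hd w hw
    refine A.good x hx (F w) (hF.2.1 w) ?_
    have h1 := hlip F hF w₀ w
    have h2 : ‖w₀ - w‖ ≤ r₀ := by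
      rw [mem_ball, dist_eq_norm] at hw
      rw [norm_sub_rev]
      exact hw.le
    calc dist (pr x) (pr (F w)) ≤ dist (pr x) (pr (F w₀)) + dist (pr (F w₀)) (pr (F w)) := dist_triangle _ _ _
      _ ≤ A.δ / 2 + 2 * L * r₀ := add_le_add hd (h1.trans (mul_le_mul_of_nonneg_left h2 (by positivity)))
      _ ≤ A.δ := by linarith
  · intro F hF i w hg
    have h1 := hf3 i F w (hcurve F hF w) hg.2.1 (hg.2.2.trans (by norm_num))
    rw [div_le_iff₀ hC₁0]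
    calc c ≤ fs (F w) (deriv F w) := (hF.2.2 w).1
      _ ≤ f i * ‖deriv (qc A i F) w‖ := h1
      _ ≤ C₁ * ‖deriv (qc A i F) w‖ := mul_le_mul_of_nonneg_right (hfC i) (norm_nonneg _)
      _ = ‖deriv (qc A i F) w‖ * C₁ := mul_comm _ _
  · intro F hF i w hg
    exact (hle F hF i w hg).trans hK2
  · intro F hF i w₀ hgood w hw w' hw'
    have hdiff : ∀ z ∈ ball w₀ r₀, DifferentiableAt ℂ (deriv (qc A i F)) z := fun z hz =>
      (han F hF i z (hgood z hz)).deriv.differentiableAt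
    have hbd : ∀ z ∈ ball w₀ (r₀ / 2), ‖deriv (deriv (qc A i F)) z‖ ≤ 4 * (C₁ * L + 1) / r₀ := by
      intro z hz
      have hsub : closedBall z (r₀ / 4) ⊆ ball w₀ r₀ := by
        intro y hy
        rw [mem_closedBall] at hy
        rw [mem_ball] at hz ⊢
        have := dist_triangle y z w₀
        linarith
      have h1 : ‖deriv (deriv (qc A i F)) z‖ ≤ (C₁ * L) / (r₀ / 4) := by
        refine Complex.norm_deriv_le_of_forall_mem_sphere_norm_le (by positivity) ?_ ?_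
        · refine DifferentiableOn.diffContOnCl_ball (U := ball w₀ r₀) (fun y hy => (hdiff y hy).differentiableWithinAt) hsub
        · intro y hy
          exact hle F hF i y (hgood y (hsub (sphere_subset_closedBall hy)))
      refine h1.trans ?_
      rw [div_div_eq_mul_div]
      refine div_le_div_of_nonneg_right ?_ hr₀.le
      linarith
    have h2 := Convex.norm_image_sub_le_of_norm_deriv_le (𝕜 := ℂ) (f := deriv (qc A i F)) (s := ball w₀ (r₀ / 2))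
      (C := 4 * (C₁ * L + 1) / r₀)
      (fun z hz => hdiff z (ball_subset_ball (by linarith) hz)) hbd (convex_ball _ _) hw' hw
    exact h2.trans (mul_le_mul_of_nonneg_right hK3 (norm_nonneg _))

end Pool.Agent.H5.BD

end

section

/-!
# BD CMat: matching of the parameters

Let `LC A c L r₀ c₁ K₀`, `C = A.C`, `δ = A.δ`.  Choose (in this order)
`r₂ = min (r₀ / 32) (c₁ / (64 K₀))`, `r₃ = min (r₂) (c₁ r₂ / (64 K₀))` (so `4 r₃ ≤ r₀`, `2 K₀ r₃ ≤ c₁ r₂ / 32`), `ε₃ = min (δ / 2) (c₁ r₂ / (32 C))`, `K = max K₀ (2 C / c₁)`.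
Let `F ∈ BC X c L`, `w₀ ∈ ℂ`, `i = A.idx (pr (F w₀))`.  By `LC.good` (`x = F w₀`) `F w` is good for `i` on `ball w₀ r₀`.  `p = qc A i F` is analytic there.  Let `e` be such that
`‖co e (p' w₀)‖ = ‖p' w₀‖ ≥ c₁` (the norm of `ℂ × ℂ` is the maximum), `u = co e ∘ p`, `u' = co e ∘ p'`; on `ball w₀ (8 r₂)`: `‖u' w - u' w₀‖ ≤ K₀ 8 r₂ ≤ c₁ / 4` (`der_lip`, `8 r₂ ≤ r₀ / 2`).
`exists_inv` with `a = c₁`, `r = 8 r₂`: `(c₁ / 2) ‖w - w'‖ ≤ ‖u w - u w'‖ ≤ ‖p w - p w'‖` on `ball w₀ (8 r₂)`.  `exists_inv` with `r = r₂`: the inverse `ξ` on `ball (u w₀) (c₁ r₂ / 4)` with values in `ball w₀ r₂`.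
`emb`: for `‖z - w‖ ≤ 4 r₂` use this with `w₀ = z`: `(c₁ / 2) ‖z - w‖ ≤ ‖p z - p w‖ ≤ C dist (pr (F z)) (pr (F w))` (`le_dist`).
`matching`: `dist (pr (G z₀)) (pr (F w₀)) ≤ ε₃ ≤ δ / 2`, so `G z` is good for `i` on `ball z₀ r₀` (`LC.good` with `x = F w₀`).  For `z ∈ ball z₀ (2 r₃)`: `‖qc A i G z - qc A i G z₀‖ ≤ K₀ 2 r₃` (mean value
inequality, `der_le`), `‖qc A i G z₀ - p w₀‖ ≤ C ε₃` (`le_dist`), together `< c₁ r₂ / 4`.  So `ψ z = ξ (co e (qc A i G z))` is defined and holomorphic on `ball z₀ (2 r₃)`, with values in `ball w₀ r₂`, and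
`u (ψ z) = co e (qc A i G z)`.
`near`: for `w ∈ closedBall w₀ (2 r₂)`: `(c₁ / 2) ‖w - ψ z‖ ≤ ‖u w - u (ψ z)‖ = ‖co e (p w - qc A i G z)‖ ≤ ‖p w - qc A i G z‖`.
`coF`: `‖u' w‖ ≥ c₁ - c₁ / 4 ≥ c₁ / 2`.
-/

set_option autoImplicit false

open Topology Filter Metric

namespace Pool.Agent.H5.BD

open Pool.Agent.H36.BP (EN fs wd)
open Pool.Agent.H14.PP (IsCone Chart Form Tan aCoef jac)
open Pool.Agent.H62.EF (MN pr det2)

variable {N : ℕ} {X : Set (EN N)}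

private noncomputable def coL (e : Bool) : ℂ × ℂ →L[ℂ] ℂ :=
  if e = true then ContinuousLinearMap.fst ℂ ℂ ℂ else ContinuousLinearMap.snd ℂ ℂ ℂ

private theorem coL_apply (e : Bool) (p : ℂ × ℂ) : coL e p = co e p := by
  unfold coL co
  split_ifs <;> rfl

private theorem norm_co_le (e : Bool) (p : ℂ × ℂ) : ‖co e p‖ ≤ ‖p‖ := by
  unfold co
  split_ifs
  · exact norm_fst_le p
  · exact norm_snd_le p

private theorem co_sub (e : Bool) (p q : ℂ × ℂ) : co e (p - q) = co e p - co e q := by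
  rw [← coL_apply, ← coL_apply, ← coL_apply, map_sub]

private theorem exists_co (p : ℂ × ℂ) : ∃ e, ‖co e p‖ = ‖p‖ := by
  rcases le_total ‖p.1‖ ‖p.2‖ with h | h
  · refine ⟨false, ?_⟩
    simp [co, Prod.norm_def, h]
  · refine ⟨true, ?_⟩
    simp [co, Prod.norm_def, h]

private theorem deriv_co (e : Bool) {p : ℂ → ℂ × ℂ} {w : ℂ} (hp : DifferentiableAt ℂ p w) :
    deriv (fun w => co e (p w)) w = co e (deriv p w) := by
  have h1 : HasDerivAt (fun w => coL e (p w)) (coL e (deriv p w)) w :=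
    (coL e).hasFDerivAt.comp_hasDerivAt w hp.hasDerivAt
  simp only [coL_apply] at h1
  exact h1.deriv

private theorem differentiableAt_co (e : Bool) {p : ℂ → ℂ × ℂ} {w : ℂ}
    (hp : DifferentiableAt ℂ p w) : DifferentiableAt ℂ (fun w => co e (p w)) w := by
  have h1 : HasDerivAt (fun w => coL e (p w)) (coL e (deriv p w)) w :=
    (coL e).hasFDerivAt.comp_hasDerivAt w hp.hasDerivAt
  simp only [coL_apply] at h1
  exact h1.differentiableAt

/-- a coordinate which is an embedding near `w₀` -/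
private theorem exists_coord {A : Atlas X} {c L r₀ c₁ K₀ : ℝ} (H : LC A c L r₀ c₁ K₀)
    {F : ℂ → EN N} (hF : F ∈ BC X c L) {i : Fin A.n} {w₀ : ℂ}
    (hg : ∀ w ∈ ball w₀ r₀, Good (A.χ i) (F w)) :
    ∃ e, c₁ ≤ ‖deriv (fun w => co e (qc A i F w)) w₀‖ ∧
      (∀ w ∈ ball w₀ r₀, deriv (fun w => co e (qc A i F w)) w = co e (deriv (qc A i F) w)) ∧
      DifferentiableOn ℂ (fun w => co e (qc A i F w)) (ball w₀ r₀) ∧
      ∀ w ∈ ball w₀ (r₀ / 2), ‖deriv (fun w => co e (qc A i F w)) w -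
        deriv (fun w => co e (qc A i F w)) w₀‖ ≤ K₀ * ‖w - w₀‖ := by
  have hr := H.r₀_pos
  have hw₀ : w₀ ∈ ball w₀ r₀ := mem_ball_self hr
  have hd : ∀ w ∈ ball w₀ r₀, DifferentiableAt ℂ (qc A i F) w := fun w hw =>
    (H.an F hF i w (hg w hw)).differentiableAt
  obtain ⟨e, he⟩ := exists_co (deriv (qc A i F) w₀)
  refine ⟨e, ?_, fun w hw => deriv_co e (hd w hw), fun w hw =>
    (differentiableAt_co e (hd w hw)).differentiableWithinAt, fun w hw => ?_⟩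
  · rw [deriv_co e (hd w₀ hw₀), he]
    exact H.der_ge F hF i w₀ (hg w₀ hw₀)
  · have hw' : w ∈ ball w₀ r₀ := ball_subset_ball (by linarith) hw
    rw [deriv_co e (hd w hw'), deriv_co e (hd w₀ hw₀), ← co_sub]
    refine (norm_co_le e _).trans (H.der_lip F hF i w₀ hg w hw w₀ (mem_ball_self (by linarith)))

theorem exists_MC (hX : IsCone X) (A : Atlas X) {c L : ℝ} (hc : 0 < c) (hL : 0 < L) :
    ∃ r₀ c₁ K₀ r₂ r₃ ε₃ K : ℝ, MC A c L r₀ c₁ K₀ r₂ r₃ ε₃ K := by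
  obtain ⟨r₀, c₁, K₀, H⟩ := exists_LC hX A hc hL
  have hr₀ := H.r₀_pos
  have hc₁ := H.c₁_pos
  have hK₀ : 0 < K₀ := lt_of_lt_of_le one_pos H.one_le
  have hC : 0 < A.C := lt_of_lt_of_le one_pos A.one_le
  have hδ := A.δ_pos
  obtain ⟨r₂, hr₂⟩ : ∃ r₂, r₂ = min (r₀ / 32) (c₁ / (64 * K₀)) := ⟨_, rfl⟩
  have hr₂_pos : 0 < r₂ := by
    rw [hr₂]
    exact lt_min (by positivity) (by positivity)
  have hr₂_le : 32 * r₂ ≤ r₀ := by
    have := min_le_left (r₀ / 32) (c₁ / (64 * K₀))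
    rw [← hr₂] at this
    linarith
  have hr₂_le' : K₀ * (64 * r₂) ≤ c₁ := by
    have h1 := min_le_right (r₀ / 32) (c₁ / (64 * K₀))
    rw [← hr₂, le_div_iff₀ (by positivity)] at h1
    linarith
  obtain ⟨r₃, hr₃⟩ : ∃ r₃, r₃ = min r₂ (c₁ * r₂ / (64 * K₀)) := ⟨_, rfl⟩
  have hr₃_pos : 0 < r₃ := by
    rw [hr₃]
    exact lt_min hr₂_pos (by positivity)
  have hr₃_le : r₃ ≤ r₂ := by
    rw [hr₃]
    exact min_le_left _ _
  have hr₃_le' : K₀ * (64 * r₃) ≤ c₁ * r₂ := by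
    have h1 := min_le_right r₂ (c₁ * r₂ / (64 * K₀))
    rw [← hr₃, le_div_iff₀ (by positivity)] at h1
    linarith
  obtain ⟨ε₃, hε₃⟩ : ∃ ε₃, ε₃ = min (A.δ / 2) (c₁ * r₂ / (32 * A.C)) := ⟨_, rfl⟩
  have hε₃_pos : 0 < ε₃ := by
    rw [hε₃]
    exact lt_min (by positivity) (by positivity)
  have hε₃_le : ε₃ ≤ A.δ / 2 := by
    rw [hε₃]
    exact min_le_left _ _
  have hε₃_le' : A.C * (32 * ε₃) ≤ c₁ * r₂ := by
    have h1 := min_le_right (A.δ / 2) (c₁ * r₂ / (32 * A.C))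
    rw [← hε₃, le_div_iff₀ (by positivity)] at h1
    linarith
  have hK_C : 2 * A.C / c₁ ≤ max K₀ (2 * A.C / c₁) := le_max_right _ _
  have hK_pos : 0 < max K₀ (2 * A.C / c₁) := lt_of_lt_of_le hK₀ (le_max_left _ _)
  have hmul : ∀ t : ℝ, 0 ≤ t → (2 * A.C / c₁) * t ≤ max K₀ (2 * A.C / c₁) * t := fun t ht =>
    mul_le_mul_of_nonneg_right hK_C ht
  refine ⟨r₀, c₁, K₀, r₂, r₃, ε₃, max K₀ (2 * A.C / c₁), ⟨H, hr₂_pos, hr₃_pos, hε₃_pos,
    le_max_left _ _, by linarith, by linarith, hr₃_le, ?_, ?_⟩⟩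
  · intro F hF z w hzw
    have hFX : ∀ z, F z ∈ X := hF.2.1
    have hg : ∀ w ∈ ball z r₀, Good (A.χ (A.idx (pr (F z)))) (F w) :=
      H.good F hF (F z) (hFX z) z (by rw [dist_self]; positivity)
    obtain ⟨e, h0, -, hdiff, hlip⟩ := exists_coord H hF hg
    have hinv := (exists_inv (u := fun w => co e (qc A (A.idx (pr (F z))) F w)) (w₀ := z)
      (r := 8 * r₂) (a := c₁) (by positivity) hc₁
      (hdiff.mono (ball_subset_ball (by linarith))) h0 ?_).1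
    · have hw : w ∈ ball z (8 * r₂) := by
        rw [mem_ball, dist_comm, dist_eq_norm]
        linarith
      have hz : z ∈ ball z (8 * r₂) := mem_ball_self (by positivity)
      have h1 := hinv z hz w hw
      have h2 : ‖co e (qc A (A.idx (pr (F z))) F z) - co e (qc A (A.idx (pr (F z))) F w)‖ ≤
          A.C * dist (pr (F z)) (pr (F w)) := by
        rw [← co_sub]
        exact (norm_co_le e _).trans (A.le_dist _ _ _ (hg z (mem_ball_self hr₀))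
          (hg w (ball_subset_ball (by linarith) hw)))
      rw [inv_mul_le_iff₀ hK_pos]
      refine le_trans ?_ (hmul _ dist_nonneg)
      rw [div_mul_eq_mul_div, le_div_iff₀ hc₁]
      have h3 := h1.trans h2
      linarith
    · intro w hw
      have hw' : w ∈ ball z (r₀ / 2) := ball_subset_ball (by linarith) hw
      refine (hlip w hw').trans ?_
      rw [mem_ball, dist_eq_norm] at hw
      have h1 : K₀ * ‖w - z‖ ≤ K₀ * (8 * r₂) := mul_le_mul_of_nonneg_left hw.le hK₀.le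
      linarith
  · intro F hF G hG w₀ z₀ hdist
    have hFX : ∀ z, F z ∈ X := hF.2.1
    have hGX : ∀ z, G z ∈ X := hG.2.1
    obtain ⟨i, hi⟩ : ∃ i, i = A.idx (pr (F w₀)) := ⟨_, rfl⟩
    have hgF : ∀ w ∈ ball w₀ r₀, Good (A.χ i) (F w) := by
      rw [hi]
      exact H.good F hF (F w₀) (hFX w₀) w₀ (by rw [dist_self]; positivity)
    have hgG : ∀ z ∈ ball z₀ r₀, Good (A.χ i) (G z) := by
      rw [hi]
      exact H.good G hG (F w₀) (hFX w₀) z₀ (by rw [dist_comm]; linarith)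
    rw [← hi]
    obtain ⟨e, h0, hder, hdiff, hlip⟩ := exists_coord H hF hgF
    have hlip8 : ∀ w ∈ ball w₀ (8 * r₂), ‖deriv (fun w => co e (qc A i F w)) w -
        deriv (fun w => co e (qc A i F w)) w₀‖ ≤ c₁ / 4 := by
      intro w hw
      have hw' : w ∈ ball w₀ (r₀ / 2) := ball_subset_ball (by linarith) hw
      refine (hlip w hw').trans ?_
      rw [mem_ball, dist_eq_norm] at hw
      have h1 : K₀ * ‖w - w₀‖ ≤ K₀ * (8 * r₂) := mul_le_mul_of_nonneg_left hw.le hK₀.le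
      linarith
    have hemb := (exists_inv (u := fun w => co e (qc A i F w)) (w₀ := w₀)
      (r := 8 * r₂) (a := c₁) (by positivity) hc₁
      (hdiff.mono (ball_subset_ball (by linarith))) h0 hlip8).1
    obtain ⟨ξ, hξd, hξ⟩ := (exists_inv (u := fun w => co e (qc A i F w)) (w₀ := w₀)
      (r := r₂) (a := c₁) hr₂_pos hc₁
      (hdiff.mono (ball_subset_ball (by linarith))) h0
      (fun w hw => hlip8 w (ball_subset_ball (by linarith) hw))).2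
    have hdG : ∀ z ∈ ball z₀ r₀, DifferentiableAt ℂ (qc A i G) z := fun z hz =>
      (H.an G hG i z (hgG z hz)).differentiableAt
    have hclose : ∀ z ∈ ball z₀ (2 * r₃), co e (qc A i G z) ∈
        ball (co e (qc A i F w₀)) (c₁ * r₂ / 4) := by
      intro z hz
      have hsub : ball z₀ (2 * r₃) ⊆ ball z₀ r₀ := ball_subset_ball (by linarith)
      have h1 : ‖qc A i G z - qc A i G z₀‖ ≤ K₀ * ‖z - z₀‖ :=
        (convex_ball z₀ (2 * r₃)).norm_image_sub_le_of_norm_deriv_le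
          (fun w hw => hdG w (hsub hw)) (fun w hw => H.der_le G hG i w (hgG w (hsub hw)))
          (mem_ball_self (by positivity)) hz
      have h2 : ‖qc A i G z₀ - qc A i F w₀‖ ≤ A.C * ε₃ :=
        (A.le_dist i _ _ (hgG z₀ (mem_ball_self hr₀)) (hgF w₀ (mem_ball_self hr₀))).trans
          (mul_le_mul_of_nonneg_left hdist hC.le)
      rw [mem_ball, dist_eq_norm] at hz
      have h3 : K₀ * ‖z - z₀‖ ≤ K₀ * (2 * r₃) := mul_le_mul_of_nonneg_left hz.le hK₀.le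
      rw [mem_ball, dist_eq_norm, ← co_sub]
      refine lt_of_le_of_lt (norm_co_le e _) ?_
      have h4 : ‖qc A i G z - qc A i F w₀‖ ≤ ‖qc A i G z - qc A i G z₀‖ +
          ‖qc A i G z₀ - qc A i F w₀‖ := norm_sub_le_norm_sub_add_norm_sub _ _ _
      have h5 : 0 < c₁ * r₂ := by positivity
      linarith
    refine ⟨e, fun z => ξ (co e (qc A i G z)), ⟨?_, ?_, ?_, ?_, ?_, ?_, ?_⟩⟩
    · intro z hz
      have h1 : DifferentiableAt ℂ ξ (co e (qc A i G z)) :=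
        (hξd _ (hclose z hz)).differentiableAt (isOpen_ball.mem_nhds (hclose z hz))
      have h2 : DifferentiableAt ℂ (fun z => co e (qc A i G z)) z :=
        differentiableAt_co e (hdG z (ball_subset_ball (by linarith) hz))
      exact (h1.comp z h2).differentiableWithinAt
    · intro z hz
      exact ball_subset_closedBall (hξ _ (hclose z hz)).1
    · intro z hz
      exact (hξ _ (hclose z hz)).2
    · intro w hw
      exact hgF w (closedBall_subset_ball (by linarith) hw)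
    · intro z hz
      exact hgG z (ball_subset_ball (by linarith) hz)
    · intro z hz w hw
      have h1 := hemb w (closedBall_subset_ball (by linarith) hw) (ξ (co e (qc A i G z)))
        (ball_subset_ball (by linarith) (hξ _ (hclose z hz)).1)
      have h2 := (hξ _ (hclose z hz)).2
      rw [h2, ← co_sub] at h1
      have h3 := h1.trans (norm_co_le e _)
      refine le_trans ?_ (hmul _ (norm_nonneg _))
      rw [div_mul_eq_mul_div, le_div_iff₀ hc₁]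
      have h4 : 1 * ‖qc A i F w - qc A i G z‖ ≤ A.C * ‖qc A i F w - qc A i G z‖ :=
        mul_le_mul_of_nonneg_right A.one_le (norm_nonneg _)
      linarith
    · intro w hw
      have hw8 : w ∈ ball w₀ (8 * r₂) := closedBall_subset_ball (by linarith) hw
      have hwr : w ∈ ball w₀ r₀ := ball_subset_ball (by linarith) hw8
      have h1 := hlip8 w hw8
      have h2 : c₁ / 2 ≤ ‖co e (deriv (qc A i F) w)‖ := by
        rw [← hder w hwr]
        have h3 := norm_sub_norm_le (deriv (fun w => co e (qc A i F w)) w₀)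
          (deriv (fun w => co e (qc A i F w)) w)
        rw [norm_sub_rev] at h3
        linarith
      refine le_trans ?_ (hmul _ (norm_nonneg _))
      rw [div_mul_eq_mul_div, le_div_iff₀ hc₁]
      have h4 : 2 * A.C * (c₁ / 2) ≤ 2 * A.C * ‖co e (deriv (qc A i F) w)‖ :=
        mul_le_mul_of_nonneg_left h2 (by positivity)
      have h5 : 1 * c₁ ≤ A.C * c₁ := mul_le_mul_of_nonneg_right A.one_le hc₁.le
      linarith

end Pool.Agent.H5.BD

end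

section

/-!
# EF LimL: limits of curves with bounded derivative

`F n` is a holomorphic curve in `X` on `ball 0 (ρ n)`, `ρ n → ∞` along the ultrafilter `𝒰`, with `fs (F n z) ((F n)' z) ≤ L` (`L > 0`).

(a) Local: let `z₀ ∈ ℂ`, `r = 1 / (8 L)`.  For `𝒰`-almost all `n` we have `ball z₀ r ⊆ ball 0 (ρ n)`; let `e n = F n z₀ / ‖F n z₀‖`,
`φ n z = (⟨e n, F n z⟩)⁻¹ • F n z` on `ball z₀ r`.  `pr_lipschitz`: `dist (pr (F n z)) (pr (e n)) ≤ 2 L r = 1/4`, so by `norm_inner_sq`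
`‖⟨e n, F n z⟩‖² ≥ ‖F n z‖² / 2`: `φ n` is holomorphic, `‖φ n z‖ ≤ 2`, `⟨e n, φ n z⟩ = 1`.  `e n → e` (compact sphere) and by
`montel_ultrafilter` `φ n → ψ` locally uniformly on `ball z₀ r`, `ψ` holomorphic; `⟨e, ψ z⟩ = 1`, so `ψ z ≠ 0`, and `ψ z ∈ X` because
`insert 0 X` is closed.  `pr (F n z) = pr (φ n z) → pr (ψ z)` (`continuousAt_pr`), and
`fs (F n z) ((F n)' z) = fs (φ n z) ((φ n)' z) → fs (ψ z) (ψ' z)` (`fs (k x) (k v + a x) = fs x v`, see `H36/BP/MtA.lean` and `WdA.lean`;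
`TendstoLocallyUniformlyOn.deriv`).

(b) Global: for every `z` let `y z` be the limit of `pr (F n z)`; by (a) for every `z₀` there is `ψ` holomorphic near `z₀`, without
zeros, with `pr (ψ z) = y z`.  Define `f z : PN N` as the class of `ψ_z z` (the `ψ` chosen at the point `z`); near `z₀`
`f z = [ψ_{z₀} z]` by `pr_eq_iff`, so `f` is `HolomorphicInto` on `univ`; `exists_global_lift` gives an entire lift `G` without zeros,
`pr (G z) = y z`, `G z = c • ψ z` with `c ≠ 0` near `z₀`, so `G z ∈ X`; `fs (G z) (G' z) = fs (ψ z) (ψ' z)` because `G = a ψ` near `z₀` with `a`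
holomorphic without zeros (`a = ⟨e, G⟩`).
-/

set_option autoImplicit false

open Topology Filter Metric

namespace Pool.Agent.H62.EF

open Pool.Agent.H36.BP (EN fs wd)
open Pool.Agent.H14.PP (IsCone)

variable {N : ℕ}

private lemma LimL_ne_zero {X : Set (EN N)} (hX : IsCone X) {x : EN N} (hx : x ∈ X) : x ≠ 0 := by
  rintro rfl
  exact hX.zero_notMem hx

private lemma LimL_fs_cont {x v : EN N} (hx : x ≠ 0) : ContinuousAt (fun p : EN N × EN N => fs p.1 p.2) (x, v) := by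
  unfold fs
  have h1 : ContinuousAt (fun p : EN N × EN N => wd p.1 p.2) (x, v) := Pool.Agent.H36.BP.wd_cont.continuousAt
  have h2 : ContinuousAt (fun p : EN N × EN N => ‖p.1‖ ^ 2) (x, v) := (continuous_fst.norm.pow 2).continuousAt
  exact h1.div h2 (pow_ne_zero 2 (norm_ne_zero_iff.mpr hx))

private lemma LimL_exists_coord {w : EN N} (hw : w ≠ 0) : ∃ j, w j ≠ 0 := by
  by_contra h
  push Not at h
  apply hw
  ext j
  exact h j

private lemma LimL_coord_an {f : ℂ → EN N} {z : ℂ} (hf : AnalyticAt ℂ f z) (i : Fin (N + 1)) :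
    AnalyticAt ℂ (fun w => f w i) z := by
  exact ((EuclideanSpace.proj (𝕜 := ℂ) i : EN N →L[ℂ] ℂ).analyticAt _).comp hf

private lemma LimL_fs_tendsto {x v : EN N} (hx : x ≠ 0) {a b : ℕ → EN N} {l : Filter ℕ} (ha : Tendsto a l (𝓝 x))
    (hb : Tendsto b l (𝓝 v)) : Tendsto (fun n => fs (a n) (b n)) l (𝓝 (fs x v)) := by
  have h1 := ha.prodMk_nhds hb
  have h2 := (LimL_fs_cont (v := v) hx).tendsto.comp h1
  exact h2

private lemma LimL_fs_eq_aux {f g : ℂ → EN N} {k : ℂ → ℂ} {z : ℂ} (hg : AnalyticAt ℂ g z) (hf0 : f z ≠ 0)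
    (hg0 : g z ≠ 0) (hk : AnalyticAt ℂ k z) (h : ∀ᶠ w in 𝓝 z, f w = k w • g w) :
    fs (f z) (deriv f z) = fs (g z) (deriv g z) := by
  have hz : f z = k z • g z := h.self_of_nhds
  have h0 : k z ≠ 0 := by
    intro h1
    apply hf0
    rw [hz, h1, zero_smul]
  have hd : deriv f z = k z • deriv g z + deriv k z • g z := by
    have h1 : f =ᶠ[𝓝 z] fun w => k w • g w := h
    rw [h1.deriv_eq]
    exact (hk.differentiableAt.hasDerivAt.smul hg.differentiableAt.hasDerivAt).deriv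
  rw [hd, hz]
  exact Pool.Agent.H36.BP.fs_inv hg0 _ h0 _

/-- the length of the derivative does not depend on the lift -/
private lemma LimL_fs_eq {f g : ℂ → EN N} {z : ℂ} (hf : AnalyticAt ℂ f z) (hg : AnalyticAt ℂ g z) (hf0 : f z ≠ 0)
    (hg0 : g z ≠ 0) (h : ∀ᶠ w in 𝓝 z, ∃ c : ℂ, c ≠ 0 ∧ f w = c • g w) : fs (f z) (deriv f z) = fs (g z) (deriv g z) := by
  obtain ⟨l, hl⟩ := LimL_exists_coord hg0
  have hgl := LimL_coord_an hg l
  have hfl := LimL_coord_an hf l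
  have ha : AnalyticAt ℂ (fun w => f w l / g w l) z := hfl.div hgl hl
  have he : ∀ᶠ w in 𝓝 z, f w = (f w l / g w l) • g w := by
    filter_upwards [h, hgl.continuousAt.eventually_ne hl] with w h1 h2
    obtain ⟨c, hc, h3⟩ := h1
    have h4 : f w l = c * g w l := by rw [h3]; rfl
    have h2' : g w l ≠ 0 := h2
    rw [h4, mul_div_assoc, div_self h2', mul_one]
    exact h3
  exact LimL_fs_eq_aux hg hf0 hg0 ha he

private lemma LimL_local {X : Set (EN N)} (hX : IsCone X) {L : ℝ} (hL : 0 < L) (𝒰 : Ultrafilter ℕ) (F : ℕ → ℂ → EN N) (ρ : ℕ → ℝ)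
    (hρ : Tendsto ρ 𝒰 atTop) (hF : ∀ᶠ n in (𝒰 : Filter ℕ), DifferentiableOn ℂ (F n) (ball 0 (ρ n)) ∧
      ∀ z ∈ ball (0 : ℂ) (ρ n), F n z ∈ X ∧ fs (F n z) (deriv (F n) z) ≤ L) (z₀ : ℂ) :
    ∃ (r : ℝ) (φ : ℕ → ℂ → EN N) (ψ : ℂ → EN N), 0 < r ∧
        (∀ᶠ n in (𝒰 : Filter ℕ), DifferentiableOn ℂ (F n) (ball z₀ r) ∧ DifferentiableOn ℂ (φ n) (ball z₀ r) ∧
          ∀ z ∈ ball z₀ r, F n z ∈ X ∧ ∃ c : ℂ, c ≠ 0 ∧ φ n z = c • F n z) ∧
        DifferentiableOn ℂ ψ (ball z₀ r) ∧ (∀ z ∈ ball z₀ r, ψ z ∈ X) ∧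
        TendstoLocallyUniformlyOn φ ψ 𝒰 (ball z₀ r) := by
  set r : ℝ := 1 / (8 * L) with hr
  have hr0 : 0 < r := by positivity
  have hz₀ : z₀ ∈ ball z₀ r := mem_ball_self hr0
  have hev : ∀ᶠ n in (𝒰 : Filter ℕ), DifferentiableOn ℂ (F n) (ball z₀ r) ∧
      ∀ z ∈ ball z₀ r, F n z ∈ X ∧ ‖F n z₀‖ * ‖F n z‖ ≤ 2 * ‖inner ℂ (F n z₀) (F n z)‖ := by
    filter_upwards [hF, hρ.eventually_ge_atTop (‖z₀‖ + r)] with n h1 h2
    obtain ⟨h1, h3⟩ := h1
    have hsub : ball z₀ r ⊆ ball 0 (ρ n) := by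
      apply ball_subset_ball'
      rw [dist_zero_right]
      linarith
    refine ⟨h1.mono hsub, fun z hz => ⟨(h3 z (hsub hz)).1, ?_⟩⟩
    have hx0 : F n z₀ ≠ 0 := LimL_ne_zero hX (h3 z₀ (hsub hz₀)).1
    have hy0 : F n z ≠ 0 := LimL_ne_zero hX (h3 z (hsub hz)).1
    have hlip := pr_lipschitz isOpen_ball (convex_ball z₀ r) (h1.mono hsub)
      (fun w hw => LimL_ne_zero hX (h3 w (hsub hw)).1) (fun w hw => (h3 w (hsub hw)).2) z₀ hz₀ z hz
    have h4 : ‖z₀ - z‖ ≤ r := by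
      rw [← dist_eq_norm, dist_comm]
      exact (mem_ball.mp hz).le
    have h5 : dist (pr (F n z₀)) (pr (F n z)) ≤ 1 / 4 := by
      calc dist (pr (F n z₀)) (pr (F n z)) ≤ 2 * L * ‖z₀ - z‖ := hlip
        _ ≤ 2 * L * r := by gcongr
        _ = 1 / 4 := by rw [hr]; field_simp; norm_num
    have h6 := norm_inner_sq hx0 hy0
    have h7 : dist (pr (F n z₀)) (pr (F n z)) ^ 2 ≤ 1 := by
      have := dist_nonneg (x := pr (F n z₀)) (y := pr (F n z))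
      nlinarith
    have h8 : (‖F n z₀‖ * ‖F n z‖) ^ 2 ≤ (2 * ‖inner ℂ (F n z₀) (F n z)‖) ^ 2 := by
      rw [mul_pow, mul_pow, h6]
      have h9 : 0 ≤ ‖F n z₀‖ ^ 2 * ‖F n z‖ ^ 2 := by positivity
      nlinarith
    exact abs_le_of_sq_le_sq' h8 (by positivity) |>.2
  set φ : ℕ → ℂ → EN N := fun n z => (((‖F n z₀‖ : ℝ) : ℂ) / inner ℂ (F n z₀) (F n z)) • F n z with hφ
  have hev2 : ∀ᶠ n in (𝒰 : Filter ℕ), DifferentiableOn ℂ (F n) (ball z₀ r) ∧ DifferentiableOn ℂ (φ n) (ball z₀ r) ∧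
      ∀ z ∈ ball z₀ r, F n z ∈ X ∧ (∃ c : ℂ, c ≠ 0 ∧ φ n z = c • F n z) ∧ ‖φ n z‖ ≤ 2 ∧ 1 ≤ ‖φ n z‖ := by
    filter_upwards [hev] with n h1
    obtain ⟨h1, h2⟩ := h1
    have hx0 : F n z₀ ≠ 0 := LimL_ne_zero hX (h2 z₀ hz₀).1
    have hxn : 0 < ‖F n z₀‖ := norm_pos_iff.mpr hx0
    have hin : ∀ z ∈ ball z₀ r, (inner ℂ (F n z₀) (F n z) : ℂ) ≠ 0 := by
      intro z hz h
      have h3 := (h2 z hz).2
      have hyn : 0 < ‖F n z‖ := norm_pos_iff.mpr (LimL_ne_zero hX (h2 z hz).1)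
      rw [h, norm_zero, mul_zero] at h3
      have : 0 < ‖F n z₀‖ * ‖F n z‖ := mul_pos hxn hyn
      linarith
    refine ⟨h1, ?_, fun z hz => ⟨(h2 z hz).1, ⟨_, ?_, rfl⟩, ?_, ?_⟩⟩
    · have h3 : DifferentiableOn ℂ (fun z => (inner ℂ (F n z₀) (F n z) : ℂ)) (ball z₀ r) :=
        (innerSL ℂ (F n z₀)).differentiable.comp_differentiableOn h1
      have h4 : DifferentiableOn ℂ (fun z => ((‖F n z₀‖ : ℝ) : ℂ) / (inner ℂ (F n z₀) (F n z) : ℂ)) (ball z₀ r) :=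
        (differentiableOn_const _).div h3 hin
      exact h4.smul h1
    · exact div_ne_zero (Complex.ofReal_ne_zero.mpr hxn.ne') (hin z hz)
    · have h3 := (h2 z hz).2
      have h4 : 0 < ‖(inner ℂ (F n z₀) (F n z) : ℂ)‖ := norm_pos_iff.mpr (hin z hz)
      simp only [hφ]
      rw [norm_smul, norm_div, Complex.norm_real, norm_norm, div_mul_eq_mul_div, div_le_iff₀ h4]
      exact h3
    · have h4 : 0 < ‖(inner ℂ (F n z₀) (F n z) : ℂ)‖ := norm_pos_iff.mpr (hin z hz)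
      simp only [hφ]
      rw [norm_smul, norm_div, Complex.norm_real, norm_norm, div_mul_eq_mul_div, le_div_iff₀ h4, one_mul]
      exact norm_inner_le_norm _ _
  obtain ⟨ψ, hψ, hconv⟩ := Pool.Agent.H17.montel_ultrafilter 𝒰 (F := φ) (a := z₀) (r := r) (B := 2)
    (hev2.mono fun n h => h.2.1) (hev2.mono fun n h z hz => ((h.2.2 z hz).2.2.1))
  refine ⟨r, φ, ψ, hr0, hev2.mono fun n h => ⟨h.1, h.2.1, fun z hz => ⟨(h.2.2 z hz).1, (h.2.2 z hz).2.1⟩⟩, hψ, ?_, hconv⟩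
  intro z hz
  have h1 : Tendsto (fun n => φ n z) 𝒰 (𝓝 (ψ z)) := hconv.tendsto_at hz
  have h2 : ψ z ∈ insert 0 X := by
    refine hX.closed.mem_of_tendsto h1 ?_
    filter_upwards [hev2] with n h
    obtain ⟨h3, ⟨c, hc, h4⟩, -⟩ := h.2.2 z hz
    rw [h4]
    exact Or.inr (hX.smul_mem _ h3 c hc)
  have h3 : 1 ≤ ‖ψ z‖ := by
    refine ge_of_tendsto h1.norm ?_
    filter_upwards [hev2] with n h
    exact (h.2.2 z hz).2.2.2
  rcases h2 with h2 | h2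
  · rw [h2, norm_zero] at h3
    linarith
  · exact h2

theorem limit_curves {X : Set (EN N)} (hX : IsCone X) {L : ℝ} (hL : 0 < L) (𝒰 : Ultrafilter ℕ) (F : ℕ → ℂ → EN N) (ρ : ℕ → ℝ)
    (hρ : Tendsto ρ 𝒰 atTop) (hF : ∀ᶠ n in (𝒰 : Filter ℕ), DifferentiableOn ℂ (F n) (ball 0 (ρ n)) ∧
      ∀ z ∈ ball (0 : ℂ) (ρ n), F n z ∈ X ∧ fs (F n z) (deriv (F n) z) ≤ L) :
    ∃ G : ℂ → EN N, Differentiable ℂ G ∧ (∀ z, G z ∈ X) ∧ (∀ z, Tendsto (fun n => pr (F n z)) 𝒰 (𝓝 (pr (G z)))) ∧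
      (∀ z, Tendsto (fun n => fs (F n z) (deriv (F n) z)) 𝒰 (𝓝 (fs (G z) (deriv G z)))) ∧
      ∀ z₀, ∃ (r : ℝ) (φ : ℕ → ℂ → EN N) (ψ : ℂ → EN N), 0 < r ∧
        (∀ᶠ n in (𝒰 : Filter ℕ), DifferentiableOn ℂ (φ n) (ball z₀ r) ∧ ∀ z ∈ ball z₀ r, ∃ c : ℂ, c ≠ 0 ∧ φ n z = c • F n z) ∧
        DifferentiableOn ℂ ψ (ball z₀ r) ∧ (∀ z ∈ ball z₀ r, ∃ c : ℂ, c ≠ 0 ∧ ψ z = c • G z) ∧
        TendstoLocallyUniformlyOn φ ψ 𝒰 (ball z₀ r) := by
  classical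
  choose r φ ψ hr hev hψd hψX hconv using LimL_local hX hL 𝒰 F ρ hρ hF
  have hψ0 : ∀ z₀, ∀ z ∈ ball z₀ (r z₀), ψ z₀ z ≠ 0 := fun z₀ z hz => LimL_ne_zero hX (hψX z₀ z hz)
  have hself : ∀ z, z ∈ ball z (r z) := fun z => mem_ball_self (hr z)
  have hprl : ∀ z₀, ∀ z ∈ ball z₀ (r z₀), Tendsto (fun n => pr (F n z)) 𝒰 (𝓝 (pr (ψ z₀ z))) := by
    intro z₀ z hz
    have h1 : Tendsto (fun n => φ z₀ n z) 𝒰 (𝓝 (ψ z₀ z)) := (hconv z₀).tendsto_at hz
    have h2 : Tendsto (fun n => pr (φ z₀ n z)) 𝒰 (𝓝 (pr (ψ z₀ z))) :=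
      (continuousAt_pr (hψ0 z₀ z hz)).tendsto.comp h1
    refine h2.congr' ?_
    filter_upwards [hev z₀] with n h
    obtain ⟨-, c, hc, h4⟩ := h.2.2 z hz
    rw [h4, pr_smul _ hc]
  have hψan : ∀ z₀, AnalyticAt ℂ (ψ z₀) z₀ := fun z₀ => (hψd z₀).analyticAt (isOpen_ball.mem_nhds (hself z₀))
  have hofne : ∀ v : EN N, v ≠ 0 → v.ofLp ≠ 0 := by
    intro v hv h
    apply hv
    ext j
    exact congrFun h j
  set f : ℂ → Pool.Agent.H17.PN N := fun z => Projectivization.mk ℂ (ψ z z).ofLp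
    (hofne _ (hψ0 z z (hself z))) with hf
  have hfhol : Pool.Agent.H17.HolomorphicInto f Set.univ := by
    intro z₀ _
    refine ⟨fun w => (ψ z₀ w).ofLp, ?_, ?_⟩
    · rw [analyticAt_pi_iff]
      intro j
      exact LimL_coord_an (hψan z₀) j
    · filter_upwards [isOpen_ball.mem_nhds (hself z₀)] with z hz
      have h2 := hψ0 z₀ z hz
      refine ⟨hofne _ h2, ?_⟩
      have h3 : pr (ψ z z) = pr (ψ z₀ z) := tendsto_nhds_unique (hprl z z (hself z)) (hprl z₀ z hz)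
      obtain ⟨c, hc, h4⟩ := (pr_eq_iff (hψ0 z z (hself z)) h2).mp h3
      rw [hf, Projectivization.mk_eq_mk_iff']
      exact ⟨c, by rw [h4]; rfl⟩
  obtain ⟨x, hx⟩ := Pool.Agent.H17.exists_global_lift hfhol
  set G : ℂ → EN N := fun z => WithLp.toLp 2 (fun j => (x j : ℂ → ℂ) z) with hG
  have hGd : Differentiable ℂ G := by
    have h1 : Differentiable ℂ (fun z => (fun j => (x j : ℂ → ℂ) z)) :=
      differentiable_pi.2 fun j => (x j).diff
    exact (PiLp.continuousLinearEquiv 2 ℂ (fun _ : Fin (N + 1) => ℂ)).symm.differentiable.comp h1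
  have hGc : ∀ z, ∃ c : ℂ, c ≠ 0 ∧ ψ z z = c • G z := by
    intro z
    obtain ⟨h1, h2⟩ := hx z
    obtain ⟨c, hc, h3⟩ := Pool.Agent.H17.mk_eq_mk_cross h2
    refine ⟨c, hc, ?_⟩
    ext j
    exact h3 j
  have hGX : ∀ z, G z ∈ X := by
    intro z
    obtain ⟨c, hc, h1⟩ := hGc z
    have h2 := hX.smul_mem _ (hψX z z (hself z)) c⁻¹ (inv_ne_zero hc)
    rwa [h1, smul_smul, inv_mul_cancel₀ hc, one_smul] at h2
  have hG0 : ∀ z, G z ≠ 0 := fun z => LimL_ne_zero hX (hGX z)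
  have hGpr : ∀ z, pr (ψ z z) = pr (G z) := by
    intro z
    obtain ⟨c, hc, h1⟩ := hGc z
    rw [h1, pr_smul _ hc]
  have hlim : ∀ z, Tendsto (fun n => pr (F n z)) 𝒰 (𝓝 (pr (G z))) := by
    intro z
    rw [← hGpr z]
    exact hprl z z (hself z)
  have hprop : ∀ z₀, ∀ z ∈ ball z₀ (r z₀), ∃ c : ℂ, c ≠ 0 ∧ ψ z₀ z = c • G z := by
    intro z₀ z hz
    exact (pr_eq_iff (hψ0 z₀ z hz) (hG0 z)).mp (tendsto_nhds_unique (hprl z₀ z hz) (hlim z))
  refine ⟨G, hGd, hGX, hlim, ?_, ?_⟩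
  · intro z
    have hzb := isOpen_ball.mem_nhds (hself z)
    have h1 : fs (ψ z z) (deriv (ψ z) z) = fs (G z) (deriv G z) := by
      refine LimL_fs_eq (hψan z) (hGd.analyticAt z) (hψ0 z z (hself z)) (hG0 z) ?_
      filter_upwards [hzb] with w hw
      exact hprop z w hw
    rw [← h1]
    have h2 : Tendsto (fun n => φ z n z) 𝒰 (𝓝 (ψ z z)) := (hconv z).tendsto_at (hself z)
    have hd : TendstoLocallyUniformlyOn (deriv ∘ (φ z)) (deriv (ψ z)) 𝒰 (ball z (r z)) :=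
      (hconv z).deriv ((hev z).mono fun n hn => hn.2.1) isOpen_ball
    have h3 : Tendsto (fun n => deriv (φ z n) z) 𝒰 (𝓝 (deriv (ψ z) z)) := hd.tendsto_at (hself z)
    have h4 : Tendsto (fun n => fs (φ z n z) (deriv (φ z n) z)) 𝒰 (𝓝 (fs (ψ z z) (deriv (ψ z) z))) :=
      LimL_fs_tendsto (hψ0 z z (hself z)) h2 h3
    refine h4.congr' ?_
    filter_upwards [hev z] with n h
    obtain ⟨h5, h6, h7⟩ := h
    have hFX := (h7 z (hself z)).1
    obtain ⟨c, hc, h8⟩ := (h7 z (hself z)).2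
    refine LimL_fs_eq (h6.analyticAt hzb) (h5.analyticAt hzb) ?_ (LimL_ne_zero hX hFX) ?_
    · rw [h8]
      exact smul_ne_zero hc (LimL_ne_zero hX hFX)
    · filter_upwards [hzb] with w hw
      exact (h7 w hw).2
  · intro z₀
    refine ⟨r z₀, φ z₀, ψ z₀, hr z₀, ?_, hψd z₀, hprop z₀, hconv z₀⟩
    filter_upwards [hev z₀] with n h
    exact ⟨h.2.1, fun z hz => (h.2.2 z hz).2⟩

end Pool.Agent.H62.EF

end

section

/-!
# BD CTr: translates and limits of curves with bounded distortion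

`bc_trans`: clear (`deriv_comp_add_const`).
`bc_lim`: `limit_curves` (`H62/EF/LimL.lean`) with `ρ n = n` (`h𝒰`) gives `G` entire with values in `X`, `pr (F n z) → pr (G z)`, `fs (F n z) ((F n)' z) → fs (G z) (G' z)`, so `c ≤ fs (G z) (G' z) ≤ L`.
`bc_affine`: if `F ∈ BC X c L`, `‖a‖ = 1`, then `z ↦ F (a z + b)` is in `BC X c L` (`fs x (a • v) = ‖a‖ fs x v`).
-/

set_option autoImplicit false

open Topology Filter Metric

namespace Pool.Agent.H5.BD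

open Pool.Agent.H36.BP (EN fs wd)
open Pool.Agent.H14.PP (IsCone Chart Form Tan aCoef jac)
open Pool.Agent.H62.EF (MN pr det2)

variable {N : ℕ} {X : Set (EN N)} {c L : ℝ}

theorem bc_trans {F : ℂ → EN N} (hF : F ∈ BC X c L) (a : ℂ) : (fun z => F (z + a)) ∈ BC X c L := by
  obtain ⟨h1, h2, h3⟩ := hF
  refine ⟨h1.comp (differentiable_id.add_const a), fun z => h2 (z + a), fun z => ?_⟩
  have h4 : deriv (fun z => F (z + a)) z = deriv F (z + a) := deriv_comp_add_const F a z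
  rw [h4]
  exact h3 (z + a)

theorem bc_lim (hX : IsCone X) (hL : 0 < L) (𝒰 : Ultrafilter ℕ) (h𝒰 : (𝒰 : Filter ℕ) ≤ atTop) (F : ℕ → ℂ → EN N)
    (hF : ∀ᶠ n in (𝒰 : Filter ℕ), F n ∈ BC X c L) : ∃ G ∈ BC X c L, ∀ z, Tendsto (fun n => evp (F n) z) 𝒰 (𝓝 (evp G z)) := by
  obtain ⟨G, hG, hGX, hlim, hfs, -⟩ := Pool.Agent.H62.EF.limit_curves hX hL 𝒰 F (fun n => (n : ℝ))
    (tendsto_natCast_atTop_atTop.mono_left h𝒰)
    (hF.mono fun n hn => ⟨hn.1.differentiableOn, fun z _ => ⟨hn.2.1 z, (hn.2.2 z).2⟩⟩)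
  refine ⟨G, ⟨hG, hGX, fun z => ⟨?_, ?_⟩⟩, hlim⟩
  · exact ge_of_tendsto (hfs z) (hF.mono fun n hn => (hn.2.2 z).1)
  · exact le_of_tendsto (hfs z) (hF.mono fun n hn => (hn.2.2 z).2)

end Pool.Agent.H5.BD

end

section

/-!
# BD CFlow: the family of the curves with bounded distortion
-/

set_option autoImplicit false

open Topology Filter Metric

namespace Pool.Agent.H5.BD

open Pool.Agent.H36.BP (EN fs wd)
open Pool.Agent.H14.PP (IsCone Chart Form Tan aCoef jac)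
open Pool.Agent.H62.EF (MN pr det2)

variable {N : ℕ} {X : Set (EN N)} {A : Atlas X} {c L r₀ c₁ K₀ r₂ r₃ ε₃ K : ℝ} {m : ℕ}

theorem MC.flow (hX : IsCone X) (h : MC A c L r₀ c₁ K₀ r₂ r₃ ε₃ K) (hm : 1 ≤ m) (Ω : Form X m 1) (hΩ : Thin Ω) :
    BFlow (BC X c L) evp (ZΩ Ω) (rh A Ω r₂) (2 * L) K⁻¹ r₂ r₃ (K⁻¹ ^ 2 / 8) where
  L_pos := by have := h.lc.L_pos; positivity
  c_pos := inv_pos.2 (lt_of_lt_of_le one_pos (h.lc.one_le.trans h.le_K))
  r₂_pos := h.r₂_pos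
  r₃_pos := h.r₃_pos
  κ_pos := by
    have : 0 < K := lt_of_lt_of_le one_pos (h.lc.one_le.trans h.le_K)
    positivity
  lip := fun F hF z w => h.lc.lip F hF z w
  emb := fun F hF z w hzw => h.emb F hF z w hzw
  trans := fun F hF a => ⟨_, bc_trans hF a, fun _ => rfl⟩
  lim := fun 𝒰 h𝒰 F hF => bc_lim hX h.lc.L_pos 𝒰 h𝒰 F hF
  closed := isClosed_ZΩ hX A hm Ω
  dense := fun F hF => ZΩ_dense hX A hm Ω hF.1 hF.2.1
  bdd := rh_bdd hX h Ω
  loc := fun s hs hs₃ => rh_loc hX h hm Ω hs hs₃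
  small := fun s hs hs₃ => rh_small hX h hm Ω hs hs₃
  ident := h.ident hX
  iso := h.iso hX hm Ω hΩ

end Pool.Agent.H5.BD

end

section

/-!
# BD CPer: the curves with bounded distortion are doubly periodic, and there are only finitely many of them
-/

set_option autoImplicit false

open Topology Filter Metric

namespace Pool.Agent.H5.BD

open Pool.Agent.H36.BP (EN fs wd)
open Pool.Agent.H14.PP (IsCone Chart Form Tan aCoef jac)
open Pool.Agent.H62.EF (MN pr det2 Charts)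

variable {N : ℕ} {X : Set (EN N)} {A : Atlas X} {c L r₀ c₁ K₀ r₂ r₃ ε₃ K : ℝ} {m : ℕ}

/-- the curves `F` and `G` are the same up to an affine change of the variable -/
def Equi (F G : ℂ → EN N) : Prop := ∃ a b : ℂ, a ≠ 0 ∧ ∀ z, evp F z = evp G (a * z + b)

theorem Equi.symm {F G : ℂ → EN N} (h : Equi F G) : Equi G F := by
  obtain ⟨a, b, ha, h⟩ := h
  refine ⟨a⁻¹, -(a⁻¹ * b), inv_ne_zero ha, fun z => ?_⟩
  rw [h]
  congr 1
  field_simp
  ring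

/-- if the sequence `F n` of curves is arbitrary then two of them are the same up to a change of the variable -/
theorem exists_pair (hX : IsCone X) (h : MC A c L r₀ c₁ K₀ r₂ r₃ ε₃ K) (hm : 1 ≤ m) (Ω : Form X m 1) (hΩ : Thin Ω)
    (F : ℕ → ℂ → EN N) (hF : ∀ n, F n ∈ BC X c L) :
    ∃ k l : ℕ, k ≠ l ∧ ∃ a b : ℂ, a ≠ 0 ∧ ‖b‖ ≤ r₂ ∧ ∀ z, evp (F l) z = evp (F k) (a * z + b) := by
  have hfl := h.flow hX hm Ω hΩ
  obtain ⟨n₁, ε₁, r, hε₁, hr, hmain⟩ := hfl.main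
  obtain ⟨G, hG, hlim⟩ := hfl.lim (hyperfilter ℕ) Nat.hyperfilter_le_atTop F (Eventually.of_forall hF)
  have hu := hfl.unif (hyperfilter ℕ) (f := F) (a := fun _ => 0) (Eventually.of_forall hF) hG (fun z => by simpa using hlim z) n₁
    (half_pos hε₁)
  obtain ⟨k, hk⟩ := hu.exists
  obtain ⟨l, hl, hlk⟩ := (hu.and (Nat.hyperfilter_le_atTop (eventually_gt_atTop k))).exists
  have hkl : k ≠ l := (ne_of_lt hlk)
  have hclose : ∀ z ∈ closedBall (0 : ℂ) n₁, dist (evp (F k) z) (evp (F l) z) ≤ ε₁ := by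
    intro z hz
    have h1 := hk z hz
    have h2 := hl z hz
    rw [add_zero] at h1 h2
    calc dist (evp (F k) z) (evp (F l) z) ≤ dist (evp (F k) z) (evp G z) + dist (evp G z) (evp (F l) z) := dist_triangle _ _ _
      _ ≤ ε₁ / 2 + ε₁ / 2 := by
        rw [dist_comm (evp G z)]
        exact add_le_add h1.le h2.le
      _ = ε₁ := by ring
  rcases hmain (F k) (hF k) (F l) (hF l) hclose with h1 | h1
  · obtain ⟨a, b, ha, hb, hab⟩ := h.rel_affine hr (hF k) (hF l) h1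
    exact ⟨k, l, hkl, a, b, ha, hb, hab⟩
  · obtain ⟨a, b, ha, hb, hab⟩ := h.rel_affine hr (hF l) (hF k) h1
    exact ⟨l, k, hkl.symm, a, b, ha, hb, hab⟩

/-- a curve which is the same up to `z ↦ a z + b` has `a = 1` -/
theorem a_eq_one (h : MC A c L r₀ c₁ K₀ r₂ r₃ ε₃ K) {F : ℂ → EN N} (hF : F ∈ BC X c L) {a b : ℂ} (hab : ∀ z, evp F z = evp F (a * z + b)) :
    a = 1 := by
  by_contra hne
  have hK : 0 < K := lt_of_lt_of_le one_pos (h.lc.one_le.trans h.le_K)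
  have hr₂ := h.r₂_pos
  have ha : a - 1 ≠ 0 := sub_ne_zero.2 hne
  have ha' : 0 < ‖a - 1‖ := norm_pos_iff.2 ha
  -- the fixed point is `-b / (a - 1)`
  obtain ⟨t, ht⟩ : ∃ t : ℂ, t = ((r₂ / ‖a - 1‖ : ℝ) : ℂ) := ⟨_, rfl⟩
  obtain ⟨w, hw⟩ : ∃ w : ℂ, w = t - b / (a - 1) := ⟨_, rfl⟩
  have h1 : a * w + b - w = (a - 1) * t := by
    rw [hw]
    field_simp
    ring
  have h2 : ‖a * w + b - w‖ = r₂ := by
    rw [h1, norm_mul, ht, Complex.norm_real, Real.norm_eq_abs, abs_of_pos (by positivity)]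
    field_simp
  have h3 := h.emb F hF (a * w + b) w (by rw [h2]; linarith)
  have h4 : pr (F w) = pr (F (a * w + b)) := hab w
  rw [h2, h4, dist_self] at h3
  have h5 : 0 < K⁻¹ * r₂ := by positivity
  linarith

/-- there is a period near the line `ℝ u` -/
theorem exists_period (hX : IsCone X) (h : MC A c L r₀ c₁ K₀ r₂ r₃ ε₃ K) (hm : 1 ≤ m) (Ω : Form X m 1) (hΩ : Thin Ω)
    {F : ℂ → EN N} (hF : F ∈ BC X c L) (u : ℂ) : ∃ (t : ℝ) (b : ℂ), 4 * r₂ ≤ |t| ∧ ‖b‖ ≤ r₂ ∧ ∀ z, evp F (z + (t * u + b)) = evp F z := by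
  have hr₂ := h.r₂_pos
  obtain ⟨k, l, hkl, a, b, ha, hb, hab⟩ := exists_pair hX h hm Ω hΩ (fun n z => F (z + ((n * (4 * r₂) : ℝ) : ℂ) * u))
    (fun n => bc_trans hF _)
  have h1 : ∀ z, evp F z = evp F (a * z + (b + ((k * (4 * r₂) : ℝ) : ℂ) * u - a * (((l * (4 * r₂) : ℝ) : ℂ) * u))) := by
    intro z
    have h2 : evp F (z - ((l * (4 * r₂) : ℝ) : ℂ) * u + ((l * (4 * r₂) : ℝ) : ℂ) * u) =
        evp F (a * (z - ((l * (4 * r₂) : ℝ) : ℂ) * u) + b + ((k * (4 * r₂) : ℝ) : ℂ) * u) := hab _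
    rw [sub_add_cancel] at h2
    rw [h2]
    congr 1
    ring
  have ha1 := a_eq_one h hF h1
  subst ha1
  refine ⟨((k : ℝ) - l) * (4 * r₂), b, ?_, hb, fun z => ?_⟩
  · rw [abs_mul, abs_of_pos (by positivity : (0 : ℝ) < 4 * r₂)]
    have h2 : (1 : ℝ) ≤ |(k : ℝ) - l| := by
      have h3 : (k : ℤ) - l ≠ 0 := by
        rw [sub_ne_zero]
        exact_mod_cast hkl
      have h4 : (1 : ℤ) ≤ |(k : ℤ) - l| := Int.one_le_abs h3
      exact_mod_cast h4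
    have h3 : 0 < 4 * r₂ := by positivity
    nlinarith
  · rw [h1 z]
    congr 1
    push_cast
    ring

theorem MC.doubly_periodic (hX : IsCone X) (h : MC A c L r₀ c₁ K₀ r₂ r₃ ε₃ K) (hm : 1 ≤ m) (Ω : Form X m 1) (hΩ : Thin Ω)
    {F : ℂ → EN N} (hF : F ∈ BC X c L) : ∃ ω₁ ω₂ : ℂ, LinearIndependent ℝ ![ω₁, ω₂] ∧
      ∀ z, pr (F (z + ω₁)) = pr (F z) ∧ pr (F (z + ω₂)) = pr (F z) := by
  have hr₂ := h.r₂_pos
  obtain ⟨s, b, hs, hb, h1⟩ := exists_period hX h hm Ω hΩ hF 1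
  obtain ⟨t, d, ht, hd, h2⟩ := exists_period hX h hm Ω hΩ hF Complex.I
  refine ⟨_, _, ?_, fun z => ⟨h1 z, h2 z⟩⟩
  have hb1 := (Complex.abs_re_le_norm b).trans hb
  have hb2 := (Complex.abs_im_le_norm b).trans hb
  have hd1 := (Complex.abs_re_le_norm d).trans hd
  have hd2 := (Complex.abs_im_le_norm d).trans hd
  rw [LinearIndependent.pair_iff]
  intro x y hxy
  have hre : x * (s + b.re) + y * d.re = 0 := by
    have := congrArg Complex.re hxy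
    simp at this
    linarith
  have him : x * b.im + y * (t + d.im) = 0 := by
    have := congrArg Complex.im hxy
    simp at this
    linarith
  have hdet : (s + b.re) * (t + d.im) - b.im * d.re ≠ 0 := by
    intro h0
    have e1 : 3 * r₂ ≤ |s + b.re| := by
      have := abs_sub_abs_le_abs_sub s (-b.re)
      rw [abs_neg, sub_neg_eq_add] at this
      linarith
    have e2 : 3 * r₂ ≤ |t + d.im| := by
      have := abs_sub_abs_le_abs_sub t (-d.im)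
      rw [abs_neg, sub_neg_eq_add] at this
      linarith
    have e3 : (3 * r₂) * (3 * r₂) ≤ |(s + b.re) * (t + d.im)| := by
      rw [abs_mul]
      exact mul_le_mul e1 e2 (by positivity) (abs_nonneg _)
    have e4 : |b.im * d.re| ≤ r₂ * r₂ := by
      rw [abs_mul]
      exact mul_le_mul hb2 hd1 (abs_nonneg _) hr₂.le
    rw [sub_eq_zero.1 h0] at e3
    nlinarith
  have hx : x * ((s + b.re) * (t + d.im) - b.im * d.re) = 0 := by
    linear_combination (t + d.im) * hre - d.re * him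
  have hy : y * ((s + b.re) * (t + d.im) - b.im * d.re) = 0 := by
    linear_combination (s + b.re) * him - b.im * hre
  exact ⟨(mul_eq_zero.1 hx).resolve_right hdet, (mul_eq_zero.1 hy).resolve_right hdet⟩

theorem MC.finite_classes (hX : IsCone X) (h : MC A c L r₀ c₁ K₀ r₂ r₃ ε₃ K) (hm : 1 ≤ m) (Ω : Form X m 1) (hΩ : Thin Ω) :
    ∃ T : Finset (ℂ → EN N), (∀ G ∈ T, G ∈ BC X c L) ∧ ∀ F ∈ BC X c L, ∃ G ∈ T, Equi F G := by
  classical
  by_contra hcon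
  push Not at hcon
  obtain ⟨F, hF, hFF⟩ := exists_seq_of_forall_finset_exists (fun F : ℂ → EN N => F ∈ BC X c L) (fun F G => ¬ Equi G F) fun T hT => by
    obtain ⟨G, hG, h1⟩ := hcon T hT
    exact ⟨G, hG, h1⟩
  obtain ⟨k, l, hkl, a, b, ha, -, hab⟩ := exists_pair hX h hm Ω hΩ F hF
  have h1 : Equi (F l) (F k) := ⟨a, b, ha, hab⟩
  rcases lt_or_gt_of_ne hkl with h2 | h2
  · exact hFF k l h2 h1
  · exact hFF l k h2 h1.symm

/-- **Curves with bounded distortion.** Let `X` be the cone of a smooth projective surface and let `Ω` be a section of `m K - H` which is not identically zero.  The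
entire curves in the surface whose derivative is between `c > 0` and `L` are doubly periodic, and up to `z ↦ a z + b` there are only finitely many of them. -/
theorem bounded_distortion (hX : IsCone X) (hch : Charts X) (hm : 1 ≤ m) (Ω : Form X m 1) (hΩ : Thin Ω) (hc : 0 < c) (hL : 0 < L) :
    (∀ F ∈ BC X c L, ∃ ω₁ ω₂ : ℂ, LinearIndependent ℝ ![ω₁, ω₂] ∧ ∀ z, pr (F (z + ω₁)) = pr (F z) ∧ pr (F (z + ω₂)) = pr (F z)) ∧
      ∃ T : Finset (ℂ → EN N), (∀ G ∈ T, G ∈ BC X c L) ∧ ∀ F ∈ BC X c L, ∃ G ∈ T, Equi F G := by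
  rcases Set.eq_empty_or_nonempty X with h0 | hne
  · have h1 : ∀ F, F ∉ BC X c L := fun F hF => by
      have := hF.2.1 0
      rw [h0] at this
      exact this
    exact ⟨fun F hF => absurd hF (h1 F), ∅, fun G hG => absurd hG (Finset.notMem_empty G), fun F hF => absurd hF (h1 F)⟩
  · obtain ⟨A⟩ := exists_atlas hX hch hne
    obtain ⟨r₀, c₁, K₀, r₂, r₃, ε₃, K, h⟩ := exists_MC hX A hc hL
    exact ⟨fun F hF => h.doubly_periodic hX hm Ω hΩ hF, h.finite_classes hX hm Ω hΩ⟩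

end Pool.Agent.H5.BD

end

section

/-!
# BD CThin: the final form of the theorem on curves with bounded distortion
-/

set_option autoImplicit false

open Topology Filter Metric

namespace Pool.Agent.H5.BD

open Pool.Agent.H36.BP (EN fs wd)
open Pool.Agent.H14.PP (IsCone Chart Form Tan aCoef jac IsOpenPart)
open Pool.Agent.H62.EF (MN pr det2 Charts)

variable {N : ℕ} {X : Set (EN N)} {m : ℕ}

theorem thin_of (hX : IsCone X) (Ω : Form X m 1) {q : EN N → ℂ} {d : ℕ} (hhom : ∀ (c : ℂ) (x : EN N), q (c • x) = c ^ d * q x)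
    (hthin : ∀ x ∈ X, ¬ ∀ᶠ y in 𝓝 x, y ∈ X → q y = 0) (hΩ : Ω.NoZeroOff {x | x ∈ X ∧ q x = 0}) : Thin Ω := by
  intro χ p hp hcon
  have hK : IsOpenPart X X := ⟨subset_rfl, hX.smul_mem, fun _ _ => Eventually.of_forall fun _ h => h⟩
  have h1 : ∀ᶠ p' in 𝓝 p, p' ∈ ball (0 : ℂ × ℂ) 2 ∧ aCoef Ω χ p' = 0 := by
    filter_upwards [hcon, isOpen_ball.mem_nhds hp] with p' h1 h2
    exact ⟨h2, not_not.1 h1⟩
  obtain ⟨h2, h3, h4⟩ := χ.σ_mem p hp
  have h5 : ∀ᶠ p' in 𝓝 p, q (χ.σ p') = 0 := by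
    filter_upwards [h1] with p' hp'
    by_contra hne
    exact Pool.Agent.H14.PP.aCoef_ne_zero hX hK Ω χ hΩ hp'.1 (χ.σ_mem p' hp'.1).1 (fun h => hne h.2) hp'.2
  apply hthin _ h2
  have h6 : Tendsto χ.q (𝓝 (χ.σ p)) (𝓝 p) := by
    have := (χ.q_an _ h3).continuousAt.tendsto
    rwa [h4] at this
  filter_upwards [h6.eventually h5, χ.isOpen_U.mem_nhds h3] with y hy hyU hyX
  obtain ⟨-, a, ha, h7⟩ := χ.surj y hyX hyU
  rw [h7, hhom, hy, mul_zero]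

/-- **Curves with bounded distortion on surfaces of general type.**  Let `X` be the cone of a smooth projective surface, and `Ω` a section of `m K - H` whose zeros are on the
hypersurface section `q = 0`, which contains no open subset of `X`.  Let `0 < c ≤ L`.  Every entire curve in the surface whose derivative is between `c` and `L` is doubly periodic,
and up to `z ↦ a z + b` there are only finitely many of them. -/
theorem curves_of_bounded_distortion (hX : IsCone X) (hch : Charts X) (hm : 1 ≤ m) (Ω : Form X m 1) {q : EN N → ℂ} {d : ℕ}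
    (hhom : ∀ (c : ℂ) (x : EN N), q (c • x) = c ^ d * q x) (hthin : ∀ x ∈ X, ¬ ∀ᶠ y in 𝓝 x, y ∈ X → q y = 0)
    (hΩ : Ω.NoZeroOff {x | x ∈ X ∧ q x = 0}) {c L : ℝ} (hc : 0 < c) (hL : 0 < L) :
    (∀ F ∈ BC X c L, ∃ ω₁ ω₂ : ℂ, LinearIndependent ℝ ![ω₁, ω₂] ∧ ∀ z, pr (F (z + ω₁)) = pr (F z) ∧ pr (F (z + ω₂)) = pr (F z)) ∧
      ∃ T : Finset (ℂ → EN N), (∀ G ∈ T, G ∈ BC X c L) ∧ ∀ F ∈ BC X c L, ∃ G ∈ T, Equi F G :=
  bounded_distortion hX hch hm Ω (thin_of hX Ω hhom hthin hΩ) hc hL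

end Pool.Agent.H5.BD

end
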