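import Pool.Agent.H94.G6.M102
import Pool.Agent.H94.G6.M109
import Pool.Agent.H94.G6.M117
import Pool.Agent.H94.G6.M126
import Pool.Agent.H94.G6.M128
import Pool.Agent.H94.G6.M82
import Pool.Agent.H94.G6.M98

/-! The parts of this file: AD.P.Main, H14.V.MainV_1, H14.V.FourV, SY.Plug_1, SY.DG. -/

section

/-!
# AD P Main: the theorem in all dimensions

The finite set of curves, the exceptional set, entire curves, maps of the punctured disc, discs, subvarieties.
-/

set_option autoImplicit false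

open MvPolynomial Topology Filter Metric

namespace Pool.Agent.AD.P

open Pool.Agent.H17 (PN VanishesAt HolomorphicInto ZariskiClosedIn puncturedDisc vanishesAt_mk_iff)
open Pool.Agent.H62.FC (Homog)
open Pool.Agent.H17LG.Variety (FunField IsLogGeneralType)
open Pool.Agent.H13.SM (cone)
open Pool.Agent.H36.BP (EN fs wd Curve)
open Pool.Agent.H14.PP (IsCone)
open Pool.Agent.H17EF (projVar coneE LE GT prP prP_injective)
open Pool.Agent.H62.EF (pr)

variable {N : ℕ} {P : Ideal (MvPolynomial (Fin (N + 1)) ℂ)}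

/-- subvarieties of dimension one which are not contained in the exceptional set are of general type -/
theorem strongly_one {Ξ : Set (PN N)} (hΞ : ZariskiClosedIn (projVar P) Ξ)
    (hbr : ∀ f : ℂ → PN N, HolomorphicInto f Set.univ → (∀ z, f z ∈ projVar P) → (∃ z w, f z ≠ f w) → ∀ z, f z ∈ Ξ)
    (Q : Ideal (MvPolynomial (Fin (N + 1)) ℂ)) [Q.IsPrime] (hQ : Homog Q) (hPQ : P ≤ Q) (hQΞ : ¬ projVar Q ⊆ Ξ)
    (hz' : ∃ z : Fin 1 → FunField Q, IsTranscendenceBasis ℂ z) : GT Q 1 := by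
  have hsub : projVar Q ⊆ projVar P := fun x hx R hR n hn => hx R (hPQ hR) n hn
  have hX : ∃ i, (X i : MvPolynomial (Fin (N + 1)) ℂ) ∉ Q := by
    obtain ⟨x, hx, _⟩ := Set.not_subset.1 hQΞ
    by_contra hcon
    push Not at hcon
    apply x.rep_nonzero
    funext i
    have h1 : VanishesAt (X i : MvPolynomial (Fin (N + 1)) ℂ) x := hx _ (hcon i) 1 (isHomogeneous_X ℂ i)
    have h2 : eval x.rep (X i : MvPolynomial (Fin (N + 1)) ℂ) = 0 := h1
    rw [eval_X] at h2
    exact h2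
  have hl : IsLogGeneralType (Pool.Agent.H62.SA.OnBd Q (fun _ : Fin 1 => (1 : MvPolynomial (Fin (N + 1)) ℂ)) (k := 1)) := by
    by_contra hl
    obtain ⟨f, hf, hfQ, hne⟩ := Pool.Agent.H13.CV.exists_entire_of_not_lgtL Q hX hz' (G := fun _ : Fin 1 => (1 : MvPolynomial (Fin (N + 1)) ℂ))
      (fun _ => ⟨0, isHomogeneous_one _ _⟩) hl
    rw [Pool.Agent.H17EF.locVar_one] at hfQ
    have hΞf : ∀ z, f z ∈ Ξ := hbr f hf (fun z => hsub (hfQ z)) hne
    obtain ⟨S, hS, hSΞ⟩ := hΞ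
    apply hQΞ
    intro x hx
    rw [hSΞ]
    refine ⟨hsub hx, fun R hR => ?_⟩
    obtain ⟨n, hn⟩ := hS R hR
    have hRf : ∀ z, VanishesAt R (f z) := by
      intro z
      have h3 := hΞf z
      rw [hSΞ] at h3
      exact h3.2 R hR
    exact hx R (Pool.Agent.H13.CV.form_of_curve0 Q hQ hz' hf hfQ hne hn hRf) n hn
  rw [Pool.Agent.H17EF.onBd_one] at hl
  exact hl

end Pool.Agent.AD.P

end

section

/-!
# V MainV: entire curves in surfaces of general type, in the projective space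
-/

set_option autoImplicit false

open Topology Filter MvPolynomial Metric

noncomputable section

namespace Pool.Agent.H14.V

open Pool.Agent.H17 (PN VanishesAt HolomorphicInto ZariskiClosedIn puncturedDisc)
open Pool.Agent.H62.FC (Homog)
open Pool.Agent.H17BP (Surface IsForm)
open Pool.Agent.H17LG.Variety (FunField IsLogGeneralType)
open Pool.Agent.H13.SM (conTan cone)
open Pool.Agent.H36.BP (EN fs wd formT isCone_transport tan_transport OrdTwo)
open Pool.Agent.H14.PP (IsCone Chart Form)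
open Pool.Agent.H17EF (projVar coneE LE GT prP prP_injective mk_symm mk_mem_projVar)
open Pool.Agent.H62.EF (MN pr Charts)
open Pool.Agent.H92.TH (SymDiff)
open Pool.Agent.H5.BD (BC Equi evp)

variable {N : ℕ}

variable {P : Ideal (MvPolynomial (Fin (N + 1)) ℂ)} 

/-- the theorem of helper5 on curves with bounded distortion, for the surface given by `P` -/
theorem bounded [P.IsPrime] {z : Fin 2 → FunField P} (hP : Homog P) (hz : IsTranscendenceBasis ℂ z)
    (hsm : ∀ y : Fin (N + 1) → ℂ, y ≠ 0 → (∀ Q ∈ P, eval y Q = 0) → Module.finrank ℂ (conTan P y) ≤ 3) (hgt : GT P 2)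
    {c : ℝ} (hc : 0 < c) (L : ℝ) :
    (∀ F ∈ BC (coneE P) c L, ∃ ω₁ ω₂ : ℂ, LinearIndependent ℝ ![ω₁, ω₂] ∧
      ∀ z, pr (F (z + ω₁)) = pr (F z) ∧ pr (F (z + ω₂)) = pr (F z)) ∧
      ∃ T : Finset (ℂ → EN N), (∀ G ∈ T, G ∈ BC (coneE P) c L) ∧ ∀ F ∈ BC (coneE P) c L, ∃ G ∈ T, Equi F G := by
  rcases le_or_gt L 0 with hL | hL
  · have h1 : ∀ F, F ∉ BC (coneE P) c L := fun F hF => by
      have := hF.2.2 0
      linarith [this.1, this.2]
    exact ⟨fun F hF => absurd hF (h1 F), ∅, by simp, fun F hF => absurd hF (h1 F)⟩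
  have hS : Surface (cone P) := Pool.Agent.H13.SM.surface_cone hP hz fun y hy => hsm y hy.1 hy.2
  have hLGT : Pool.Agent.H62.FC.LogGeneralType P ∅ 2 := by
    have h1 : (Pool.Agent.H62.FC.OnBoundary P ∅ (w := 2)) = fun _ => False := by
      funext E
      apply propext
      constructor
      · rintro ⟨j, -, -, i, hi, -⟩
        exact absurd hi (Finset.notMem_empty i)
      · exact False.elim
    unfold Pool.Agent.H62.FC.LogGeneralType
    rw [h1]
    exact hgt
  obtain ⟨M, Om, D₀, Q₀, hM, hQ₀, hQ₀P, hOm, hnz⟩ := Pool.Agent.H68.KR.exists_form_of_smooth hP hz (fun y hy hyP => hsm y hy hyP) hLGT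
  have hOm' : IsForm (cone P) M 1 Om := hOm
  refine Pool.Agent.H5.BD.curves_of_bounded_distortion (isCone_transport (LE N) hS) (Pool.Agent.H17EF.charts hS) hM (formT (LE N) hOm')
    (q := fun y => eval ((LE N).symm y) Q₀) (d := D₀) ?_ ?_ ?_ hc hL
  · intro c x
    rw [map_smul, Pool.Agent.H17EF.eval_smul_form hQ₀]
  · intro x hx hev
    obtain ⟨σ, τ, hc, h0⟩ := hS.chart ((LE N).symm x) hx
    have h1 := Pool.Agent.H13.SM.frequently_ne_zero hP hz (fun y hy => hsm y hy.1 hy.2) hc hQ₀ hQ₀P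
    apply h1
    have h2 : Tendsto (fun p => (LE N) (σ p)) (𝓝 (0 : ℂ × ℂ)) (𝓝 x) := by
      have h3 : ContinuousAt (fun p => (LE N) (σ p)) 0 := (LE N).continuous.continuousAt.comp hc.σ_an.continuousAt
      have h4 := h3.tendsto
      rw [h0, ContinuousLinearEquiv.apply_symm_apply] at h4
      exact h4
    filter_upwards [h2.eventually hev, hc.σ_mem] with p hp hp'
    have h5 : (LE N) (σ p) ∈ coneE P := by
      show (LE N).symm ((LE N) (σ p)) ∈ cone P
      rw [ContinuousLinearEquiv.symm_apply_apply]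
      exact hp'
    have h6 := hp h5
    rw [ContinuousLinearEquiv.symm_apply_apply] at h6
    simpa using h6
  · intro x hx hxT v w hv hw hind
    refine hnz ((LE N).symm x) hx ?_ _ (tan_transport (LE N) hv) _ (tan_transport (LE N) hw) ?_
    · rintro ⟨h1, h2⟩
      exact hxT ⟨hx, h2⟩
    · have h3 := hind.map' ((LE N).symm : EN N →ₗ[ℂ] (Fin (N + 1) → ℂ)) (LinearMap.ker_eq_bot.2 (LE N).symm.injective)
      have h4 : (((LE N).symm : EN N →ₗ[ℂ] (Fin (N + 1) → ℂ)) ∘ ![x, v, w] : Fin 3 → Fin (N + 1) → ℂ) =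
          ![(LE N).symm x, (LE N).symm v, (LE N).symm w] := by
        funext i
        fin_cases i <;> rfl
      rw [h4] at h3
      exact h3

/-- curves with bounded distortion, downstairs -/
theorem mem_BC (hP : Homog P) {c L : ℝ} {F : ℂ → EN N} {f : ℂ → PN N} (h : IsLift F f) (hf : ∀ z, f z ∈ projVar P)
    (hF : ∀ z, c ≤ fs (F z) (deriv F z) ∧ fs (F z) (deriv F z) ≤ L) : F ∈ BC (coneE P) c L :=
  ⟨h.1, fun z => (h.mem_iff hP z).1 (hf z), hF⟩

/-- doubly periodic curves with bounded derivative are algebraically degenerate -/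
theorem degenerate_of [P.IsPrime] {z : Fin 2 → FunField P} (hP : Homog P) (hz : IsTranscendenceBasis ℂ z)
    {F : ℂ → EN N} {f : ℂ → PN N} (h : IsLift F f) (hf : ∀ z, f z ∈ projVar P) {L : ℝ} (hL : ∀ z, fs (F z) (deriv F z) ≤ L)
    (hper : DoublyPeriodic f) : Degenerate P f := by
  obtain ⟨ω₁, ω₂, hω, h2⟩ := hper
  have h1 : OrdTwo fun z => (LE N).symm (F z) := Pool.Agent.H17EF.ordTwo_symm (Pool.Agent.H17EF.ordTwo_of_fs h.1 h.ne_zero hL)
  have hperiod : ∀ ω, (∀ z, f (z + ω) = f z) → Pool.Agent.H17EF.IsPeriod (fun z => (LE N).symm (F z)) ω := by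
    intro ω hω z
    obtain ⟨h3, h3'⟩ := h.2 (z + ω)
    obtain ⟨h4, h4'⟩ := h.2 z
    have h5 := hω z
    rw [h3', h4', Projectivization.mk_eq_mk_iff'] at h5
    obtain ⟨a, ha⟩ := h5
    refine ⟨a, ?_, ha.symm⟩
    rintro rfl
    rw [zero_smul] at ha
    exact h3 ha.symm
  obtain ⟨Q, d, hQ, hQP, hQF⟩ := Pool.Agent.H17EF.exists_form_of_periodic hz ((LE N).symm.differentiable.comp h.1)
    (fun z => (h.2 z).1) h1 (fun z Q hQ => ((h.mem_iff hP z).1 (hf z)).2 Q hQ) hω
    (hperiod ω₁ fun z => (h2 z).1) (hperiod ω₂ fun z => (h2 z).2)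
  refine ⟨Q, d, hQ, hQP, fun z => ?_⟩
  obtain ⟨h2, h2'⟩ := h.2 z
  rw [h2']
  obtain ⟨a, ha, hrep⟩ := Pool.Agent.H36.BP.rep_mk h2
  unfold VanishesAt
  rw [hrep, Pool.Agent.H17EF.eval_smul_form hQ]
  have := hQF z
  exact mul_eq_zero_of_right _ this

end Pool.Agent.H14.V

end
end

section

/-!
# V FourV: the four properties
-/

set_option autoImplicit false

open Topology Filter MvPolynomial Metric

noncomputable section

namespace Pool.Agent.H14.V

open Pool.Agent.H17 (PN VanishesAt HolomorphicInto ZariskiClosedIn puncturedDisc)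
open Pool.Agent.H62.FC (Homog)
open Pool.Agent.H17BP (Surface IsForm)
open Pool.Agent.H17LG.Variety (FunField IsLogGeneralType)
open Pool.Agent.H13.SM (conTan cone)
open Pool.Agent.H36.BP (EN fs wd isCone_transport)
open Pool.Agent.H14.PP (IsCone Chart Form)
open Pool.Agent.H17EF (projVar coneE LE GT prP prP_injective mk_symm mk_mem_projVar)
open Pool.Agent.H62.EF (MN pr Charts)
open Pool.Agent.H92.TH (SymDiff)
open Pool.Agent.H5.BD (BC Equi evp)

variable {N : ℕ} {P : Ideal (MvPolynomial (Fin (N + 1)) ℂ)}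

/-- the set of the curves of a finite set of lifts -/
theorem finite_of_lifts (T : Finset (ℂ → EN N)) : {f : ℂ → PN N | ∃ G ∈ T, IsLift G f}.Finite := by
  refine Set.Finite.of_finite_image (f := fun (f : ℂ → PN N) z => prP (f z)) ((T.finite_toSet.image (fun G z => pr (G z))).subset ?_) ?_
  · rintro _ ⟨f, ⟨G, hG, hGf⟩, rfl⟩
    refine ⟨G, hG, ?_⟩
    funext z
    exact (hGf.prP z).symm
  · intro f _ g _ h
    funext z
    exact prP_injective (congrFun h z)

/-- from the equivalence of lifts to the equivalence of curves -/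
theorem eq_of_equi {F G : ℂ → EN N} {f g : ℂ → PN N} (hF : IsLift F f) (hG : IsLift G g) (h : Equi F G) :
    ∃ a b : ℂ, a ≠ 0 ∧ ∀ z, f z = g (a * z + b) := by
  obtain ⟨a, b, ha, h⟩ := h
  refine ⟨a, b, ha, fun z => prP_injective ?_⟩
  rw [hF.prP, hG.prP]
  exact h z

/-- a lift of a curve in `BC` -/
theorem exists_curve (hP : Homog P) {c L : ℝ} {G : ℂ → EN N} (hG : G ∈ BC (coneE P) c L) :
    ∃ g, IsLift G g ∧ ∀ z, g z ∈ projVar P := by
  have h0 : ∀ z, (G z).ofLp ≠ 0 := fun z => (hG.2.1 z).1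
  refine ⟨_, isLift_mk hG.1 h0, fun z => ?_⟩
  exact ((isLift_mk hG.1 h0).mem_iff hP z).2 (hG.2.1 z)

section

variable [P.IsPrime] {z : Fin 2 → FunField P}

/-- **Curves with bounded distortion.** -/
theorem partA (hP : Homog P) (hz : IsTranscendenceBasis ℂ z)
    (hsm : ∀ y : Fin (N + 1) → ℂ, y ≠ 0 → (∀ Q ∈ P, eval y Q = 0) → Module.finrank ℂ (conTan P y) ≤ 3) (hgt : GT P 2)
    {c : ℝ} (hc : 0 < c) (L : ℝ) :
    (∀ f ∈ boundedDistortion (projVar P) c L, DoublyPeriodic f ∧ Degenerate P f) ∧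
    ∃ T : Set (ℂ → PN N), T.Finite ∧ T ⊆ boundedDistortion (projVar P) c L ∧
      ∀ f ∈ boundedDistortion (projVar P) c L, ∃ g ∈ T, ∃ a b : ℂ, a ≠ 0 ∧ ∀ z, f z = g (a * z + b) := by
  obtain ⟨h1, T, hT, h2⟩ := bounded hP hz hsm hgt hc L
  constructor
  · rintro f ⟨hfX, F, hF, hFb⟩
    have h3 := doublyPeriodic_of hF (h1 F (mem_BC hP hF hfX hFb))
    exact ⟨h3, degenerate_of hP hz hF hfX (fun z => (hFb z).2) h3⟩
  · refine ⟨{f | ∃ G ∈ T, IsLift G f}, finite_of_lifts T, ?_, ?_⟩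
    · rintro f ⟨G, hG, hGf⟩
      have h3 := hT G hG
      exact ⟨fun z => (hGf.mem_iff hP z).2 (h3.2.1 z), G, hGf, h3.2.2⟩
    · rintro f ⟨hfX, F, hF, hFb⟩
      obtain ⟨G, hG, hFG⟩ := h2 F (mem_BC hP hF hfX hFb)
      obtain ⟨g, hg, hgX⟩ := exists_curve hP (hT G hG)
      exact ⟨g, ⟨G, hG, hg⟩, eq_of_equi hF hg hFG⟩

end

end Pool.Agent.H14.V

end
end

section

/-!
# SY Plug: the interface of step (b)

`StepB X T n`: the derivative of the curves of length one is bounded near the good points.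
`NoBubbles X T n`: where a sequence of curves of length one converges off a point, it converges at the point (`m = 0`).
The theorem `stepB_of_noBubbles` (module `Joint`) deduces `StepB X T n` from `NoBubbles X T₀ n`, `T₀ ⊆ T`.
`StepBAll P`, `NoBubblesAll P`: the same for every pseudo-length whose null curves of order two lie in a curve.
-/

set_option autoImplicit false

open Topology Filter Metric MvPolynomial

namespace Pool.Agent.SY

open Pool.Agent.H36.BP (EN fs wd Sub OrdTwo)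
open Pool.Agent.H22.W (PseudoLength)
open Pool.Agent.H17 (PN VanishesAt HolomorphicInto)
open Pool.Agent.H13.OT (OrderTwo)
open Pool.Agent.H17EF (projVar coneE)
open Pool.Agent.H14.V (IsNull)

variable {N : ℕ}

/-- Step (b): the derivative is bounded near the good points. -/
def StepB (X T : Set (EN N)) (n : PseudoLength X) : Prop :=
  ∀ (rho : EN N → ℝ) (M : ℕ) (c₀ C : ℝ) (g : (ℂ → EN N) → ℂ → ℝ), Energy X T (fun x => ‖x‖) rho M c₀ C g →
    ∀ C₁ : ℝ, (∀ F, Cls T n F → ∀ z, g F z ≤ C₁) → ∀ d : ℝ, 0 < d → ∀ R : ℝ,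
      ∃ L : ℝ, ∀ F, Cls T n F → d ≤ g F 0 → ∀ z ∈ ball (0 : ℂ) R, fs (F z) (deriv F z) ≤ L

/-- Step (b) for every pseudo-length whose null curves of order two lie in a curve. -/
def StepBAll (P : Ideal (MvPolynomial (Fin (N + 1)) ℂ)) : Prop :=
  ∀ (n : PseudoLength (coneE P)) (R : MvPolynomial (Fin (N + 1)) ℂ) (d : ℕ), R.IsHomogeneous d → R ∉ P → NullIn P n R →
    ∃ (R₀ : MvPolynomial (Fin (N + 1)) ℂ) (d₀ : ℕ), R₀.IsHomogeneous d₀ ∧ R₀ ∉ P ∧
      ∀ (Q : MvPolynomial (Fin (N + 1)) ℂ) (D : ℕ), Q.IsHomogeneous D → Q ∉ P → zer P R₀ ⊆ zer P Q → StepB (coneE P) (zer P Q) n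

end Pool.Agent.SY

end

section

/-!
# SY DG: the curves of the class have bounded distortion, from step (b)
-/

set_option autoImplicit false

open Topology Filter Metric

namespace Pool.Agent.SY

open Pool.Agent.H36.BP (EN fs wd Sub OrdTwo fs_smul_right)
open Pool.Agent.H14.PP (IsCone)
open Pool.Agent.H62.EF (Charts)
open Pool.Agent.H22.W (PseudoLength exists_lower)
open Pool.Agent.H5.BD (BC)

variable {N : ℕ} {X T : Set (EN N)} {rho : EN N → ℝ} {M : ℕ} {c₀ C : ℝ} {g : (ℂ → EN N) → ℂ → ℝ}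

/-- the curves of the class have bounded distortion -/
theorem bounded_distortion_of (hX : IsCone X) (hch : Charts X) (E : Energy X T (fun x => ‖x‖) rho M c₀ C g) (n : PseudoLength X) (hb : StepB X T n)
    (hρ0 : ∀ x ∈ X, 0 ≤ rho x) (hρ : ∀ x ∈ X, x ∉ T → 0 < rho x) (hρc : ContinuousOn rho X)
    (hρs : ∀ x ∈ X, ∀ c : ℂ, c ≠ 0 → rho (c • x) = rho x)
    (hTi : ∀ F : ℂ → EN N, Differentiable ℂ F → (∀ z, F z ∈ X) → (∃ z, F z ∉ T) → ∀ z₀, ∀ᶠ z in 𝓝[≠] z₀, F z ∉ T)
    (hTs : ∀ x ∈ T, ∀ c : ℂ, c ≠ 0 → c • x ∈ T)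
    (hnull : ∀ F : ℂ → EN N, Differentiable ℂ F → (∀ z, F z ∈ X) → OrdTwo F → (∀ z, n.toFun (F z) (deriv F z) = 0) →
      (∀ z, F z ∈ T) ∨ ∀ z w, ∃ c : ℂ, F z = c • F w) :
    ∃ c L : ℝ, 0 < c ∧ ∀ F, Cls T n F → F ∈ BC X c L := by
  obtain ⟨c₁, hc₁, hlow⟩ := exists_lower hX hch n one_pos
  obtain ⟨C₁, -, hA⟩ := bound_g hX hTs E n hnull
  obtain ⟨d, R, hd, hR, hgood⟩ := exists_good hX hch E n hρ0 hρ hρc hρs hTi hTs hA
  obtain ⟨L, hL⟩ := hb rho M c₀ C g E C₁ hA d hd (R + 1)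
  refine ⟨c₁, L, hc₁, fun F hF => ⟨hF.1.diff, hF.1.mem, fun z => ⟨hlow F hF.1.diff hF.1.mem hF.2 z, ?_⟩⟩⟩
  obtain ⟨y, hy, hgy⟩ := hgood F hF z
  have hG : Cls T n (fun w => F (1 * w + y)) := hF.aff norm_one y
  have h1 : d ≤ g (fun w => F (1 * w + y)) 0 := by
    rw [E.aff _ hF.1 _ _ one_ne_zero, norm_one, one_mul, mul_zero, zero_add]
    exact hgy
  have h2 := hL _ hG h1 (z - y) (by
    rw [mem_ball_zero_iff, norm_sub_rev]
    linarith)
  rw [deriv_aff hF.1.diff, fs_smul_right, norm_one, one_mul, one_mul, sub_add_cancel] at h2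
  exact h2

end Pool.Agent.SY

end
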