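import Pool.Agent.H94.G6.M34
import Pool.Agent.H94.G6.M41
import Pool.Agent.H94.G6.M43
import Pool.Agent.H94.G6.M48
import Pool.Agent.H94.G6.M69

/-! The parts of this file: MQ2.CC2A, H90.SG.Smooth, SG.NChN, SG2.Defs, UC.FinA. -/

section

/-!
# MQ2 CC2A: algebraic formal separatrices
-/

set_option autoImplicit false

open Topology Filter Metric MvPolynomial Asymptotics

noncomputable section

namespace Pool.Agent.MQ2

open Pool.Agent.H36.BP (EN)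
open Pool.Agent.MQ

variable {M : ℕ} {P : Ideal (MvPolynomial (Fin (M + 1)) ℂ)} {FF : Set (EN M × EN M)}

/-! ## convergent separatrices -/

namespace SepAux

end SepAux

/-- the formal curve lies in no algebraic curve -/
def NA (P : Ideal (MvPolynomial (Fin (M + 1)) ℂ)) (σ : ℂ × ℂ → EN M) (c : ℕ → ℂ → ℂ × ℂ) : Prop :=
  ∀ (R' : MvPolynomial (Fin (M + 1)) ℂ) (d' : ℕ), R'.IsHomogeneous d' → R' ∉ P → ¬ FZero c fun p => eval (σ p).ofLp R'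

/-- one form for all algebraic formal curves of a finite family -/
theorem exists_alg2 [P.IsPrime] {ι : Type} [Fintype ι] (σ : ι → ℂ × ℂ → EN M) (c : ι → ℕ → ℂ → ℂ × ℂ) :
    ∃ (R : MvPolynomial (Fin (M + 1)) ℂ) (d : ℕ), R.IsHomogeneous d ∧ R ∉ P ∧ ∀ i, NA P (σ i) (c i) ∨
      ∃ (R' : MvPolynomial (Fin (M + 1)) ℂ) (d' : ℕ), R'.IsHomogeneous d' ∧ R' ∉ P ∧ R' ∣ R ∧ FZero (c i) fun p => eval (σ i p).ofLp R' := by
  classical
  have hex : ∀ i, ∃ (R : MvPolynomial (Fin (M + 1)) ℂ) (d : ℕ), R.IsHomogeneous d ∧ R ∉ P ∧ (NA P (σ i) (c i) ∨ FZero (c i) fun p => eval (σ i p).ofLp R) := by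
    intro i
    by_cases h : NA P (σ i) (c i)
    · refine ⟨1, 0, isHomogeneous_one _ _, ?_, Or.inl h⟩
      intro h1
      exact (Ideal.IsPrime.ne_top ‹_›) ((Ideal.eq_top_iff_one _).2 h1)
    · simp only [NA, not_forall, not_not] at h
      obtain ⟨R, d, hR, hP, hn⟩ := h
      exact ⟨R, d, hR, hP, Or.inr hn⟩
  choose R d hR hP h using hex
  refine ⟨∏ i, R i, ∑ i, d i, IsHomogeneous.prod _ _ _ fun i _ => hR i, ?_, fun i => ?_⟩
  · intro hmem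
    obtain ⟨i, -, hi⟩ := (Ideal.IsPrime.prod_mem_iff (p := P)).1 hmem
    exact hP i hi
  · exact (h i).imp_right fun h1 => ⟨R i, d i, hR i, hP i, Finset.dvd_prod_of_mem R (Finset.mem_univ i), h1⟩

end Pool.Agent.MQ2

end
end

section

/-!
# SG Smooth: the two-sided bound of the weighted energy at a smooth point of the curve (no blow-up)
-/

set_option autoImplicit false

open Topology Filter Metric

noncomputable section

namespace Pool.Agent.H90.SG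

open Pool.Agent.H17BP (Surface IsForm IsChart)
open Pool.Agent.H36.TB (oC sm EnergyB TBAt)
open Pool.Agent.SY (Ent)

variable {V : Type} [NormedAddCommGroup V] [NormedSpace ℂ V]

/-- The two-sided bound of the weighted energy near the smooth point `σ 0` of `T = {p.1 = 0}`. -/
def TBNear (X T : Set V) (m j : ℕ) (Ω : V → V → V → ℂ) (θ k : ℝ) (σ : ℂ × ℂ → V) (τ : V → ℂ × ℂ) (g : (ℂ → V) → ℂ → ℝ) (pn : V → ℝ)
    (D₁ : ℕ) : Prop :=
  ∃ ε B : ℝ, 0 < ε ∧ 1 ≤ B ∧ ∀ F, Ent X T F → ∀ z c : ℂ, c ≠ 0 → ‖c⁻¹ • F z - σ 0‖ < ε →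
    DifferentiableAt ℂ (fun w => τ (c⁻¹ • F w)) z ∧
    ‖oC Ω σ (τ (c⁻¹ • F z))‖ ^ (1 / (m : ℝ)) * sm k (τ (c⁻¹ • F z)) (deriv (fun w => τ (c⁻¹ • F w)) z) * ‖c‖ ^ (-(θ * j / m)) ≤
      B * (g F z * pn (F z) ^ (-(θ * j / (m * D₁)))) ∧
    g F z * pn (F z) ^ (-(θ * j / (m * D₁))) ≤
      B * (‖oC Ω σ (τ (c⁻¹ • F z))‖ ^ (1 / (m : ℝ)) * sm k (τ (c⁻¹ • F z)) (deriv (fun w => τ (c⁻¹ • F w)) z) * ‖c‖ ^ (-(θ * j / m)))

/-- a power of a number between `B⁻¹` and `B` -/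
private theorem rpow_two {B x : ℝ} (hB : 1 ≤ B) (h1 : B⁻¹ ≤ x) (h2 : x ≤ B) {e : ℝ} (he : 0 ≤ e) :
    x ^ (-e) ≤ B ^ e ∧ (B ^ e)⁻¹ ≤ x ^ (-e) := by
  have hB0 : 0 < B := lt_of_lt_of_le one_pos hB
  have hx0 : 0 < x := lt_of_lt_of_le (inv_pos.mpr hB0) h1
  rw [Real.rpow_neg hx0.le]
  constructor
  · rw [inv_le_comm₀ (Real.rpow_pos_of_pos hx0 e) (Real.rpow_pos_of_pos hB0 e), ← Real.inv_rpow hB0.le]
    exact Real.rpow_le_rpow (inv_nonneg.2 hB0.le) h1 he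
  · rw [inv_le_inv₀ (Real.rpow_pos_of_pos hB0 e) (Real.rpow_pos_of_pos hx0 e)]
    exact Real.rpow_le_rpow hx0.le h2 he

/-- The bound `TBAt` in terms of the weighted energy. -/
theorem tbNear_of_tbAt {X T : Set V} {m j : ℕ} {Ω : V → V → V → ℂ} {nu rho : V → ℝ} {M : ℕ} {c₀ C θ k : ℝ} {g : (ℂ → V) → ℂ → ℝ}
    {pn : V → ℝ} {D₁ : ℕ} (hX : Surface X) (hTs : ∀ x ∈ T, ∀ c : ℂ, c ≠ 0 → c • x ∈ T) (hm : 1 ≤ m) (hθ : 0 < θ)
    (E : EnergyB X T m j Ω nu rho M c₀ C g pn D₁ θ) {σ : ℂ × ℂ → V} {τ : V → ℂ × ℂ} (hσ : IsChart X σ τ)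
    (ht : TBAt X T m Ω g pn k (σ 0)) (hT : ∀ᶠ p in 𝓝 (0 : ℂ × ℂ), (σ p ∈ T ↔ p.1 = 0)) : TBNear X T m j Ω θ k σ τ g pn D₁ := by
  obtain ⟨B, hB, hev⟩ := ht σ τ hσ rfl hT
  have hB0 : 0 < B := lt_of_lt_of_le one_pos hB
  obtain ⟨ε, hε, hball⟩ := Metric.eventually_nhds_iff_ball.mp (hev.and hσ.τ_an.eventually_analyticAt)
  have hm0 : (0 : ℝ) < m := by
    have : 0 < m := by omega
    exact_mod_cast this
  have hD0 : (0 : ℝ) < D₁ := by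
    have h4 := E.one_le
    have : 0 < D₁ := by omega
    exact_mod_cast this
  set e : ℝ := θ * j / (m * D₁) with he
  have he0 : 0 ≤ e := by positivity
  have hKp : 0 < B ^ e := Real.rpow_pos_of_pos hB0 e
  have hK : 1 ≤ B ^ e := Real.one_le_rpow hB he0
  refine ⟨ε, B * B ^ e, hε, by nlinarith, fun F hF z c hc hz => ?_⟩
  have hy : c⁻¹ • F z ∈ ball (σ 0) ε := by
    rw [mem_ball, dist_eq_norm]
    exact hz
  obtain ⟨⟨hp1, hp2, hp3⟩, hp4⟩ := hball _ hy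
  have hc' : c⁻¹ ≠ 0 := inv_ne_zero hc
  have hF' : Ent X T (fun w => c⁻¹ • F w) := by
    refine ⟨hF.diff.const_smul c⁻¹, fun w => hX.smul _ (hF.mem w) _ hc', ?_⟩
    obtain ⟨w, hw⟩ := hF.out
    refine ⟨w, fun hcon => hw ?_⟩
    have h3 := hTs _ hcon c hc
    rwa [smul_smul, mul_inv_cancel₀ hc, one_smul] at h3
  have hg : g (fun w => c⁻¹ • F w) z = g F z := E.unit F hF (fun _ => c⁻¹) (differentiable_const _) (fun _ => hc') z
  have h5 := hp3 _ hF' z rfl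
  rw [hg] at h5
  obtain ⟨h6, h7⟩ := h5
  have hdiff : DifferentiableAt ℂ (fun w => τ (c⁻¹ • F w)) z := by
    exact hp4.differentiableAt.comp z ((hF.diff z).const_smul c⁻¹)
  have hcn : 0 < ‖c‖ := norm_pos_iff.mpr hc
  have hFz : F z = c • (c⁻¹ • F z) := by rw [smul_smul, mul_inv_cancel₀ hc, one_smul]
  -- the weight
  have hwt : pn (F z) ^ (-e) = ‖c‖ ^ (-(θ * j / m)) * pn (c⁻¹ • F z) ^ (-e) := by
    conv_lhs => rw [hFz]
    rw [E.pn_smul, Real.mul_rpow (by positivity) (E.pn_nonneg _), ← Real.rpow_natCast, ← Real.rpow_mul hcn.le]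
    congr 2
    rw [he]
    field_simp
  obtain ⟨h8, h9⟩ := rpow_two hB hp1 hp2 he0
  have hgn : 0 ≤ g F z := E.nonneg F hF z
  have hcr : 0 ≤ ‖c‖ ^ (-(θ * j / m)) := Real.rpow_nonneg hcn.le _
  set A : ℝ := ‖oC Ω σ (τ (c⁻¹ • F z))‖ ^ (1 / (m : ℝ)) * sm k (τ (c⁻¹ • F z)) (deriv (fun w => τ (c⁻¹ • F w)) z) with hA
  set R : ℝ := pn (c⁻¹ • F z) ^ (-e) with hR
  set c₁ : ℝ := ‖c‖ ^ (-(θ * j / m)) with hc₁
  have hR0 : 0 < R := lt_of_lt_of_le (inv_pos.2 hKp) h9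
  have hA0 : 0 ≤ A := by
    have : 0 ≤ sm k (τ (c⁻¹ • F z)) (deriv (fun w => τ (c⁻¹ • F w)) z) := le_max_of_le_left (norm_nonneg _)
    rw [hA]
    positivity
  refine ⟨hdiff, ?_, ?_⟩
  · rw [hwt]
    have h10 : 1 ≤ B ^ e * R := by
      have := mul_le_mul_of_nonneg_left h9 hKp.le
      rwa [mul_inv_cancel₀ hKp.ne'] at this
    calc A * c₁ ≤ (B * g F z) * c₁ := mul_le_mul_of_nonneg_right h6 hcr
      _ ≤ (B * g F z) * c₁ * (B ^ e * R) := le_mul_of_one_le_right (by positivity) h10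
      _ = B * B ^ e * (g F z * (c₁ * R)) := by ring
  · rw [hwt]
    calc g F z * (c₁ * R) ≤ (B * A) * (c₁ * B ^ e) := by
          exact mul_le_mul h7 (mul_le_mul_of_nonneg_left h8 hcr) (mul_nonneg hcr hR0.le) (by positivity)
      _ = B * B ^ e * (A * c₁) := by ring

end Pool.Agent.H90.SG

end
end

section

/-!
# SG NChN: the two-sided bound at a smooth point of the curve, for the Taylor families `L ∘ G`, `Q ∘ G`, `G - (L ∘ G) • x`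

`x = σ 0`, the chart has values in `L = 1` and the first coordinate `Q / L ^ e` (`exists_chart_norm`).  Off the zeros of `L ∘ G`, where `G / L (G)` is near `x`,
the point `G / L (G) - x` is `σ (s, t) - x` with `s = Q (G) / L (G) ^ e`, and the weighted energy is, up to a factor,
`‖s‖ ^ a * max (‖s'‖, ‖s‖ ^ (1 - k) * ‖t'‖) * ‖L (G)‖ ^ (- θ j / m)`, `a = μ / m`, if the coefficient of the form is `s ^ μ` up to a factor.
-/

set_option autoImplicit false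
set_option linter.unusedVariables false

open Topology Filter Metric

noncomputable section

namespace Pool.Agent.SG

open Pool.Agent.H17BP (Surface IsForm IsChart)
open Pool.Agent.H36.TB (oC sm EnergyB TBAt)
open Pool.Agent.H90.SG (TBNear)
open Pool.Agent.SY (Ent)

variable {V : Type} [NormedAddCommGroup V] [NormedSpace ℂ V]

theorem box_near {X T : Set V} {m j : ℕ} {Ω : V → V → V → ℂ} {nu rho : V → ℝ} {M : ℕ} {c₀ C θ k : ℝ} {g : (ℂ → V) → ℂ → ℝ}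
    {pn : V → ℝ} {D₁ : ℕ} (hX : Surface X) (hTX : T ⊆ X) (hm : 1 ≤ m) (E : EnergyB X T m j Ω nu rho M c₀ C g pn D₁ θ) {σ : ℂ × ℂ → V} {τ : V → ℂ × ℂ}
    (hσ : IsChart X σ τ) (ht : TBNear X T m j Ω θ k σ τ g pn D₁) {L : V →L[ℂ] ℂ} (hLσ : ∀ᶠ p in 𝓝 (0 : ℂ × ℂ), L (σ p) = 1) {Q : V → ℂ} {e : ℕ}
    (hτ : ∀ y, (τ y).1 = Q y / L y ^ e) (hτh : ∀ (c : ℂ) y, c ≠ 0 → τ (c • y) = τ y) {μ : ℕ}
    (hμ : ∃ B : ℝ, 1 ≤ B ∧ ∀ᶠ p in 𝓝 (0 : ℂ × ℂ), ‖p.1‖ ^ μ ≤ B * ‖oC Ω σ p‖ ∧ ‖oC Ω σ p‖ ≤ B * ‖p.1‖ ^ μ) :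
    ∃ ε B : ℝ, 0 < ε ∧ 1 ≤ B ∧ ∀ F, Ent X T F → ∀ (G : ℂ → V) (u : ℂ → ℂ) (z : ℂ), ContinuousAt G z → (∀ᶠ w in 𝓝 z, u w ≠ 0 ∧ G w = u w • F w) →
      L (G z) ≠ 0 → ‖(L (G z))⁻¹ • (G z - L (G z) • σ 0)‖ < ε →
      (L (G z))⁻¹ • (G z - L (G z) • σ 0) = σ (Q (G z) / L (G z) ^ e, (τ (σ 0 + (L (G z))⁻¹ • (G z - L (G z) • σ 0))).2) - σ 0 ∧
      ‖Q (G z) / L (G z) ^ e‖ ^ ((μ : ℝ) / m) * max ‖deriv (fun y => Q (G y) / L (G y) ^ e) z‖ (‖Q (G z) / L (G z) ^ e‖ ^ (1 - k) *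
        ‖deriv (fun y => (τ (σ 0 + (L (G y))⁻¹ • (G y - L (G y) • σ 0))).2) z‖) * ‖L (G z)‖ ^ (-(θ * j / m)) ≤
        B * (g F z * pn (G z) ^ (-(θ * j / (m * D₁)))) ∧
      g F z * pn (G z) ^ (-(θ * j / (m * D₁))) ≤
        B * (‖Q (G z) / L (G z) ^ e‖ ^ ((μ : ℝ) / m) * max ‖deriv (fun y => Q (G y) / L (G y) ^ e) z‖ (‖Q (G z) / L (G z) ^ e‖ ^ (1 - k) *
        ‖deriv (fun y => (τ (σ 0 + (L (G y))⁻¹ • (G y - L (G y) • σ 0))).2) z‖) * ‖L (G z)‖ ^ (-(θ * j / m))) := by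
  obtain ⟨ε₁, B, hε₁, hB, hbd⟩ := ht
  obtain ⟨B₂, hB₂, hμ⟩ := hμ
  have hB0 : 0 < B := lt_of_lt_of_le one_pos hB
  have hB20 : 0 < B₂ := lt_of_lt_of_le one_pos hB₂
  have hL0 : L (σ 0) = 1 := hLσ.self_of_nhds
  have hm0 : (0 : ℝ) < m := by
    have : 0 < m := by omega
    exact_mod_cast this
  have hτc : Tendsto τ (𝓝 (σ 0)) (𝓝 0) := by
    have := hσ.τ_an.continuousAt.tendsto
    rwa [hσ.left.self_of_nhds] at this
  obtain ⟨ε₂, hε₂, hball⟩ := Metric.eventually_nhds_iff_ball.mp (hσ.right.and (hτc.eventually (hLσ.and hμ)))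
  refine ⟨min ε₁ ε₂, B * B₂ ^ (1 / (m : ℝ)), lt_min hε₁ hε₂,
    one_le_mul_of_one_le_of_one_le hB (Real.one_le_rpow hB₂ (by positivity)), fun F hF G u z hGc hu hLz hz => ?_⟩
  obtain ⟨huz, hGz⟩ := hu.self_of_nhds
  have e1 : ∀ v : V, L v ≠ 0 → (L v)⁻¹ • (v - L v • σ 0) = (L v)⁻¹ • v - σ 0 := fun v hv => by
    rw [smul_sub, smul_smul, inv_mul_cancel₀ hv, one_smul]
  have e2 : ∀ v : V, L v ≠ 0 → τ (σ 0 + (L v)⁻¹ • (v - L v • σ 0)) = τ v := fun v hv => by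
    rw [e1 v hv, add_sub_cancel, hτh _ _ (inv_ne_zero hv)]
  have hLGc : ContinuousAt (fun w => L (G w)) z := L.continuous.continuousAt.comp hGc
  have hLn : ∀ᶠ w in 𝓝 z, L (G w) ≠ 0 := hLGc.eventually_ne hLz
  have e3 : deriv (fun y => (τ (σ 0 + (L (G y))⁻¹ • (G y - L (G y) • σ 0))).2) z = deriv (fun y => (τ (G y)).2) z := by
    refine Filter.EventuallyEq.deriv_eq ?_
    filter_upwards [hLn] with w hw
    rw [e2 _ hw]
  have e4 : ∀ w, Q (G w) / L (G w) ^ e = (τ (G w)).1 := fun w => (hτ _).symm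
  rw [e2 _ hLz, e3]
  simp only [e4]
  rw [e1 _ hLz] at hz ⊢
  obtain ⟨c, hc⟩ : ∃ c, c = L (G z) * (u z)⁻¹ := ⟨_, rfl⟩
  have hc0 : c ≠ 0 := by
    rw [hc]
    exact mul_ne_zero hLz (inv_ne_zero huz)
  have e5 : c⁻¹ • F z = (L (G z))⁻¹ • G z := by
    rw [hc, mul_inv, inv_inv, mul_smul, ← hGz]
  have hz1 : ‖c⁻¹ • F z - σ 0‖ < ε₁ := by
    rw [e5]
    exact lt_of_lt_of_le hz (min_le_left _ _)
  obtain ⟨hdiff, h1, h2⟩ := hbd F hF z c hc0 hz1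
  have e6 : τ (c⁻¹ • F z) = τ (G z) := by rw [e5, hτh _ _ (inv_ne_zero hLz)]
  have e7 : (fun w => τ (c⁻¹ • F w)) =ᶠ[𝓝 z] fun w => τ (G w) := by
    filter_upwards [hu] with w hw
    rw [hw.2, hτh _ _ hw.1, hτh _ _ (inv_ne_zero hc0)]
  have hdiff' : DifferentiableAt ℂ (fun w => τ (G w)) z := hdiff.congr_of_eventuallyEq e7.symm
  have e8 : deriv (fun w => τ (c⁻¹ • F w)) z = (deriv (fun y => (τ (G y)).1) z, deriv (fun y => (τ (G y)).2) z) := by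
    rw [e7.deriv_eq]
    have g1 : HasDerivAt (fun w => (τ (G w)).1) (deriv (fun w => τ (G w)) z).1 z :=
      (ContinuousLinearMap.fst ℂ ℂ ℂ).hasFDerivAt.comp_hasDerivAt z hdiff'.hasDerivAt
    have g2 : HasDerivAt (fun w => (τ (G w)).2) (deriv (fun w => τ (G w)) z).2 z :=
      (ContinuousLinearMap.snd ℂ ℂ ℂ).hasFDerivAt.comp_hasDerivAt z hdiff'.hasDerivAt
    rw [g1.deriv, g2.deriv]
  rw [e6, e8] at h1 h2
  simp only [sm] at h1 h2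
  -- the point
  have hyb : (L (G z))⁻¹ • G z ∈ ball (σ 0) ε₂ := by
    rw [mem_ball, dist_eq_norm]
    exact lt_of_lt_of_le hz (min_le_right _ _)
  obtain ⟨hr, hL1, hm1, hm2⟩ := hball _ hyb
  rw [hτh _ _ (inv_ne_zero hLz)] at hL1 hm1 hm2 hr
  have hGX : G z ∈ X := by
    rw [hGz]
    exact hX.smul _ (hF.mem z) _ huz
  obtain ⟨d, hd, hyd⟩ := hr (hX.smul _ hGX _ (inv_ne_zero hLz))
  have hd1 : d = 1 := by
    have h3 : L ((L (G z))⁻¹ • G z) = 1 := by rw [map_smul, smul_eq_mul, inv_mul_cancel₀ hLz]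
    rw [hyd, map_smul, hL1, smul_eq_mul, mul_one] at h3
    exact h3
  refine ⟨?_, ?_⟩
  · rw [hyd, hd1, one_smul]
  -- the weights
  have hcn : 0 < ‖c‖ := norm_pos_iff.mpr hc0
  have hun : 0 < ‖u z‖ := norm_pos_iff.mpr huz
  have hLn0 : 0 < ‖L (G z)‖ := norm_pos_iff.mpr hLz
  have hD0 : (0 : ℝ) < D₁ := by
    have h4 := E.one_le
    have : 0 < D₁ := by omega
    exact_mod_cast this
  have hw : pn (G z) ^ (-(θ * j / (m * D₁))) = ‖u z‖ ^ (-(θ * j / m)) * pn (F z) ^ (-(θ * j / (m * D₁))) := by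
    rw [hGz, E.pn_smul, Real.mul_rpow (by positivity) (E.pn_nonneg _), ← Real.rpow_natCast, ← Real.rpow_mul hun.le]
    congr 2
    field_simp
  have hw2 : ‖L (G z)‖ ^ (-(θ * j / m)) = ‖u z‖ ^ (-(θ * j / m)) * ‖c‖ ^ (-(θ * j / m)) := by
    rw [← Real.mul_rpow hun.le hcn.le, ← norm_mul, hc]
    congr 2
    field_simp
  obtain ⟨S, hS⟩ : ∃ S, S = max ‖deriv (fun y => (τ (G y)).1) z‖ (‖(τ (G z)).1‖ ^ (1 - k) * ‖deriv (fun y => (τ (G y)).2) z‖) := ⟨_, rfl⟩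
  have hS0 : 0 ≤ S := by
    rw [hS]
    exact le_max_of_le_left (norm_nonneg _)
  rw [← hS] at h1 h2 ⊢
  obtain ⟨W, hW⟩ : ∃ W, W = g F z * pn (F z) ^ (-(θ * j / (m * D₁))) := ⟨_, rfl⟩
  rw [← hW] at h1 h2
  have hU : g F z * pn (G z) ^ (-(θ * j / (m * D₁))) = ‖u z‖ ^ (-(θ * j / m)) * W := by rw [hw, hW]; ring
  rw [hU, hw2]
  obtain ⟨O, hO⟩ : ∃ O, O = ‖oC Ω σ (τ (G z))‖ ^ (1 / (m : ℝ)) := ⟨_, rfl⟩
  rw [← hO] at h1 h2
  have hO0 : 0 ≤ O := by rw [hO]; positivity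
  have hpw : ‖(τ (G z)).1‖ ^ ((μ : ℝ) / m) = (‖(τ (G z)).1‖ ^ μ) ^ (1 / (m : ℝ)) := by
    rw [← Real.rpow_natCast, ← Real.rpow_mul (norm_nonneg _)]
    congr 1
    ring
  have hO1 : ‖(τ (G z)).1‖ ^ ((μ : ℝ) / m) ≤ B₂ ^ (1 / (m : ℝ)) * O := by
    rw [hpw, hO, ← Real.mul_rpow hB20.le (norm_nonneg _)]
    exact Real.rpow_le_rpow (by positivity) hm1 (by positivity)
  have hO2 : O ≤ B₂ ^ (1 / (m : ℝ)) * ‖(τ (G z)).1‖ ^ ((μ : ℝ) / m) := by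
    rw [hpw, hO, ← Real.mul_rpow hB20.le (by positivity)]
    exact Real.rpow_le_rpow (norm_nonneg _) hm2 (by positivity)
  have hu0 : 0 ≤ ‖u z‖ ^ (-(θ * j / m)) := Real.rpow_nonneg hun.le _
  have hc1 : 0 ≤ ‖c‖ ^ (-(θ * j / m)) := Real.rpow_nonneg hcn.le _
  have hK0 : 0 ≤ B₂ ^ (1 / (m : ℝ)) := by positivity
  constructor
  · calc ‖(τ (G z)).1‖ ^ ((μ : ℝ) / m) * S * (‖u z‖ ^ (-(θ * j / m)) * ‖c‖ ^ (-(θ * j / m)))
        ≤ (B₂ ^ (1 / (m : ℝ)) * O) * S * (‖u z‖ ^ (-(θ * j / m)) * ‖c‖ ^ (-(θ * j / m))) := by gcongr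
      _ = B₂ ^ (1 / (m : ℝ)) * ‖u z‖ ^ (-(θ * j / m)) * (O * S * ‖c‖ ^ (-(θ * j / m))) := by ring
      _ ≤ B₂ ^ (1 / (m : ℝ)) * ‖u z‖ ^ (-(θ * j / m)) * (B * W) := mul_le_mul_of_nonneg_left h1 (mul_nonneg hK0 hu0)
      _ = B * B₂ ^ (1 / (m : ℝ)) * (‖u z‖ ^ (-(θ * j / m)) * W) := by ring
  · calc ‖u z‖ ^ (-(θ * j / m)) * W ≤ ‖u z‖ ^ (-(θ * j / m)) * (B * (O * S * ‖c‖ ^ (-(θ * j / m)))) := mul_le_mul_of_nonneg_left h2 hu0
      _ ≤ ‖u z‖ ^ (-(θ * j / m)) * (B * ((B₂ ^ (1 / (m : ℝ)) * ‖(τ (G z)).1‖ ^ ((μ : ℝ) / m)) * S * ‖c‖ ^ (-(θ * j / m)))) := by gcongr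
      _ = B * B₂ ^ (1 / (m : ℝ)) * (‖(τ (G z)).1‖ ^ ((μ : ℝ) / m) * S * (‖u z‖ ^ (-(θ * j / m)) * ‖c‖ ^ (-(θ * j / m)))) := by ring

end Pool.Agent.SG

end
end

section

/-!
# SG2 Defs: surfaces with negative curves

`FormOff P m j Ω Q D`: the section `Ω` of `m K - j H` has no zeros on the surface outside `{Q = 0}`.
The point `x` of the surface is
* `Free`: there is such a section with `Q x ≠ 0`;
* `SmoothNeg`: near `x` the curve `{Q = 0}` is smooth, with the reduced equation `Q`, and covered by rational curves, `Ω` vanishes to order at most `μ < m` along it, and the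
  rational curves of degree `d`, `j d ≤ μ`, are contained in `{Q = 0}`;
* `NullPt`: the tangent vectors at `x` have length zero for every pseudo-length.
-/

set_option autoImplicit false

open Topology Filter Metric MvPolynomial

noncomputable section

namespace Pool.Agent.SG2

open Pool.Agent.H36.BP (EN)
open Pool.Agent.H17BP (Pr Surface IsForm NoZeros IsChart)
open Pool.Agent.H22.W (PseudoLength)
open Pool.Agent.H17EF (coneE)
open Pool.Agent.H36.TB (oC)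
open Pool.Agent.UC (RatC)
open Pool.Agent.SY (zer)

variable {N : ℕ}

/-- the section `Ω` of `m K - j H` has no zeros on the surface outside `{Q = 0}` -/
structure FormOff (P : Ideal (MvPolynomial (Fin (N + 1)) ℂ)) (m j : ℕ) (Ω : EN N → EN N → EN N → ℂ) (Q : MvPolynomial (Fin (N + 1)) ℂ) (D : ℕ) :
    Prop where
  one_m : 1 ≤ m
  one_j : 1 ≤ j
  form : IsForm (coneE P) m j Ω
  hom : Q.IsHomogeneous D
  pos : 1 ≤ D
  not_mem : Q ∉ P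
  noZeros : NoZeros (coneE P) (zer P Q) Ω

/-- a point off the negative curves -/
def Free (P : Ideal (MvPolynomial (Fin (N + 1)) ℂ)) (x : EN N) : Prop :=
  ∃ (m j : ℕ) (Ω : EN N → EN N → EN N → ℂ) (Q : MvPolynomial (Fin (N + 1)) ℂ) (D : ℕ), FormOff P m j Ω Q D ∧ eval x.ofLp Q ≠ 0

/-- near `σ 0` the curve `{Q = 0}` is smooth with the reduced equation `Q` and covered by rational curves, `Ω` vanishes to order at most `μ < m` -/
structure NegAt (P : Ideal (MvPolynomial (Fin (N + 1)) ℂ)) (m j : ℕ) (Ω : EN N → EN N → EN N → ℂ) (Q : MvPolynomial (Fin (N + 1)) ℂ) (D μ : ℕ)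
    (σ : ℂ × ℂ → EN N) (τ : EN N → ℂ × ℂ) : Prop where
  off : FormOff P m j Ω Q D
  chart : IsChart (coneE P) σ τ
  red : ∃ R : ℂ × ℂ → ℂ, AnalyticAt ℂ R 0 ∧ R 0 ≠ 0 ∧ ∀ᶠ p in 𝓝 (0 : ℂ × ℂ), eval (σ p).ofLp Q = p.1 * R p
  lt : μ < m
  order : ∃ B : ℝ, ∀ᶠ p in 𝓝 (0 : ℂ × ℂ), ‖p.1‖ ^ μ ≤ B * ‖oC Ω σ p‖
  cover : ∀ᶠ y in 𝓝 (σ 0), y ∈ zer P Q → ∃ (d : ℕ) (K K' : ℂ → EN N) (z : ℂ), 1 ≤ d ∧ RatC (coneE P) d K K' ∧ Pr (K z) y
  rat : ∀ (d : ℕ) (K K' : ℂ → EN N), 1 ≤ d → j * d ≤ μ → RatC (coneE P) d K K' → ∀ z, eval (K z).ofLp Q = 0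

/-- a smooth point of the negative curves -/
def SmoothNeg (P : Ideal (MvPolynomial (Fin (N + 1)) ℂ)) (x : EN N) : Prop :=
  ∃ (m j : ℕ) (Ω : EN N → EN N → EN N → ℂ) (Q : MvPolynomial (Fin (N + 1)) ℂ) (D μ : ℕ) (σ : ℂ × ℂ → EN N) (τ : EN N → ℂ × ℂ),
    NegAt P m j Ω Q D μ σ τ ∧ σ 0 = x

/-- the tangent vectors at `x` have length zero -/
def NullPt (P : Ideal (MvPolynomial (Fin (N + 1)) ℂ)) (x : EN N) : Prop :=
  ∀ (n : PseudoLength (coneE P)) (v : EN N), Pool.Agent.H14.PP.Tan (coneE P) x v → n.toFun x v = 0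

end Pool.Agent.SG2

end
end

section

/-!
# UC FinA: a bubble is an object of the induction
-/

set_option autoImplicit false

open Topology Filter Metric

noncomputable section

namespace Pool.Agent.UC

open Pool.Agent.H17BP (Surface IsForm IsChart Tan Pr)
open Pool.Agent.H74.NB (CC Obj)
open Pool.Agent.H36.BP (EN)
open Pool.Agent.H22.W (PseudoLength)
open Pool.Agent.SY (Cls BubbleAt NoBubbles)

variable {N : ℕ} {X : Set (EN N)}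

theorem obj_of_bubble (hX : Surface X) {T : Set (EN N)} {n : PseudoLength X} {𝒰 : Ultrafilter ℕ} {F : ℕ → ℂ → EN N} {v : ℕ → ℂ → ℂ}
    {H : ℂ → EN N} {u : ℂ → ℂ} {r : ℝ} {M : ℕ} (h : BubbleAt X T n 𝒰 F v H u r M) :
    Obj 𝒰 (fun k z => Complex.exp (v k z) • F k z) 0 M (fun z => u z • H z) r ∧
      ∀ᶠ k in (𝒰 : Filter ℕ), ∀ z ∈ ball (0 : ℂ) r, Complex.exp (v k z) • F k z ∈ X := by
  have h1 : ∀ (G : ℂ → EN N), Cls T n G → ∀ z, G z ≠ 0 := fun G hG z h0 => hX.zero (h0 ▸ hG.1.mem z)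
  refine ⟨⟨h.r_pos, Eventually.of_forall fun k => ?_, Eventually.of_forall fun k z _ => ?_, ?_, ?_, ?_⟩,
    Eventually.of_forall fun k z _ => hX.smul _ ((h.cls k).1.mem z) _ (Complex.exp_ne_zero _)⟩
  · exact ((h.diff_v k).cexp.smul (h.cls k).1.diff).differentiableOn
  · exact smul_ne_zero (Complex.exp_ne_zero _) (h1 _ (h.cls k) z)
  · intro z₀ hz₀ z hz
    have hG : ContinuousOn (fun z => z ^ M • (u z • H z)) (ball 0 r) :=
      (continuous_id.pow M).continuousOn.smul (h.diff_u.continuousOn.smul h.cls_H.1.diff.continuous.continuousOn)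
    have h2 := h.lim.tendsto_comp (hG z₀ hz₀) hz₀ (g := z)
      (tendsto_nhdsWithin_iff.2 ⟨hz, hz.eventually (isOpen_ball.mem_nhds hz₀)⟩)
    simpa only [sub_zero] using h2
  · exact h.diff_u.smul h.cls_H.1.diff.differentiableOn
  · exact smul_ne_zero (h.u_ne 0 (mem_ball_self h.r_pos)) (h1 _ h.cls_H 0)

end Pool.Agent.UC

end
end
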