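import Pool.Agent.H94.G6.M18
import Pool.Agent.H94.G6.M20
import Pool.Agent.H94.G6.M63
import Pool.Agent.H94.G6.M66

/-! The parts of this file: MQ.Sel, MQ3.ThA. -/

section

/-!
# MQ Sel: the choice of the radius

`tau R z = log R - P z + P (z / R)`, `I R = ∫ tau R z * lam z ^ 2`, `L R = ∫ ‖gr (tau R) z‖ * lam z`.  With `s = log R`:
`L ^ 2 ≤ 2 π (s + 1) dI/ds` by the inequality of Cauchy and Schwarz.  If `L ≥ ε I - C` for all large `s`, then
`-1 / (ε I - C) - (ε / 2 π) log (s + 1)` is monotone, a contradiction.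
-/

set_option autoImplicit false

open MeasureTheory Filter Topology Set

noncomputable section

namespace Pool.Agent.MQ.SelA

open Pool.Agent.H30M (Th hasDerivAt_Th Th_nonpos Th_mono Th_nonneg Th_sub_le Th_sub_eq P tau fderiv_tau tau_nonneg le_tau)

/-- the weight -/
def hh (s t : ℝ) : ℝ := Real.smoothTransition t - Real.smoothTransition (t - s)

/-- the test function in terms of `s = log R` -/
def tA (s : ℝ) (z : ℂ) : ℝ := s - Th (Real.log ‖z‖) + Th (Real.log ‖z‖ - s)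

theorem hh_nonneg {s : ℝ} (hs : 0 ≤ s) (t : ℝ) : 0 ≤ hh s t := by
  unfold hh
  have := Real.smoothTransition.monotone (show t - s ≤ t by linarith)
  linarith

theorem hh_le_one {s : ℝ} (t : ℝ) : hh s t ≤ 1 := by
  unfold hh
  have h1 := Real.smoothTransition.nonneg (t - s)
  have h2 := Real.smoothTransition.le_one t
  linarith

theorem hh_of_nonpos {s t : ℝ} (hs : 0 ≤ s) (h : t ≤ 0) : hh s t = 0 := by
  unfold hh
  rw [Real.smoothTransition.zero_of_nonpos h, Real.smoothTransition.zero_of_nonpos (by linarith)]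
  simp

theorem hh_of_ge {s t : ℝ} (hs : 0 ≤ s) (h : s + 1 ≤ t) : hh s t = 0 := by
  unfold hh
  rw [Real.smoothTransition.one_of_one_le (by linarith), Real.smoothTransition.one_of_one_le (by linarith)]
  simp

theorem tA_of_ge {s : ℝ} (hs : 0 ≤ s) {z : ℂ} (h : s + 1 ≤ Real.log ‖z‖) : tA s z = 0 := by
  have h1 := Th_sub_eq (s := Real.log ‖z‖) (t := Real.log ‖z‖ - s) (by linarith) (by linarith)
  unfold tA
  linarith

theorem tA_nonneg {s : ℝ} (hs : 0 ≤ s) (z : ℂ) : 0 ≤ tA s z := by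
  have := Th_sub_le (s := Real.log ‖z‖) (t := Real.log ‖z‖ - s) (by linarith)
  unfold tA
  linarith

theorem tA_le {s : ℝ} (hs : 0 ≤ s) (z : ℂ) : tA s z ≤ s := by
  have := Th_mono (show Real.log ‖z‖ - s ≤ Real.log ‖z‖ by linarith)
  unfold tA
  linarith

theorem continuous_Th : Continuous Th := continuous_iff_continuousAt.2 fun t => (hasDerivAt_Th t).continuousAt

theorem continuous_st : Continuous Real.smoothTransition := Real.smoothTransition.continuous

/-- the energy -/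
def II (lam : ℂ → ℝ) (s : ℝ) : ℝ := ∫ z : ℂ, tA s z * lam z ^ 2

/-- the length -/
def Lam (lam : ℂ → ℝ) (s : ℝ) : ℝ := ∫ z : ℂ, hh s (Real.log ‖z‖) * (lam z / ‖z‖)

variable {lam : ℂ → ℝ}

/-- functions with a bound and compact support -/
theorem integrable_of_bdd {f : ℂ → ℝ} (hm : AEStronglyMeasurable f volume) {M R : ℝ} (h0 : ∀ z, R < ‖z‖ → f z = 0) (hM : ∀ z, |f z| ≤ M) :
    Integrable f := by
  have h1 : Integrable ((Metric.closedBall (0 : ℂ) R).indicator fun _ => M) :=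
    (integrable_indicator_iff measurableSet_closedBall).2 (integrableOn_const (isCompact_closedBall (0 : ℂ) R).measure_lt_top.ne)
  refine h1.mono' hm (Eventually.of_forall fun z => ?_)
  by_cases hz : z ∈ Metric.closedBall (0 : ℂ) R
  · rw [indicator_of_mem hz]
    exact hM z
  · rw [indicator_of_notMem hz, h0 z (by simpa using hz)]
    simp

theorem bdd_of_cont {f : ℂ → ℝ} (hf : Continuous f) (R : ℝ) : ∃ M : ℝ, 0 ≤ M ∧ ∀ z, ‖z‖ ≤ R → |f z| ≤ M := by
  obtain ⟨M, hM⟩ := (isCompact_closedBall (0 : ℂ) R).bddAbove_image (f := fun z => |f z|) (by fun_prop)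
  refine ⟨max M 0, le_max_right _ _, fun z hz => ?_⟩
  exact (hM ⟨z, by simpa using hz, rfl⟩).trans (le_max_left _ _)

@[fun_prop]
theorem measurable_tA (s : ℝ) : Measurable (tA s) := by
  unfold tA
  have h1 : Measurable fun z : ℂ => Real.log ‖z‖ := Real.measurable_log.comp measurable_norm
  exact (measurable_const.sub (continuous_Th.measurable.comp h1)).add (continuous_Th.measurable.comp (h1.sub_const s))

@[fun_prop]
theorem measurable_hh (s : ℝ) : Measurable fun z : ℂ => hh s (Real.log ‖z‖) := by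
  unfold hh
  have h1 : Measurable fun z : ℂ => Real.log ‖z‖ := Real.measurable_log.comp measurable_norm
  exact (continuous_st.measurable.comp h1).sub (continuous_st.measurable.comp (h1.sub_const s))

theorem log_ge_of_exp_lt {z : ℂ} {a : ℝ} (h : Real.exp a < ‖z‖) : a ≤ Real.log ‖z‖ :=
  (Real.le_log_iff_exp_le (lt_trans (Real.exp_pos a) h)).2 h.le

theorem integrable_tA_mul {s : ℝ} (hs : 0 ≤ s) {q : ℂ → ℝ} (hq : Continuous q) : Integrable fun z => tA s z * q z := by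
  obtain ⟨M, hM0, hM⟩ := bdd_of_cont hq (Real.exp (s + 1))
  have h0 : ∀ z : ℂ, Real.exp (s + 1) < ‖z‖ → tA s z = 0 := fun z hz => tA_of_ge hs (log_ge_of_exp_lt hz)
  refine integrable_of_bdd (M := s * M) (R := Real.exp (s + 1)) ((measurable_tA s).aestronglyMeasurable.mul hq.aestronglyMeasurable)
    (fun z hz => ?_) fun z => ?_
  · rw [h0 z hz, zero_mul]
  · rcases le_or_gt ‖z‖ (Real.exp (s + 1)) with h | h
    · rw [abs_mul, abs_of_nonneg (tA_nonneg hs z)]
      exact mul_le_mul (tA_le hs z) (hM z h) (abs_nonneg _) hs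
    · rw [h0 z h, zero_mul, abs_zero]
      positivity

/-- the weight of the derivative of the energy -/
def ww (s : ℝ) (z : ℂ) : ℝ := 1 - Real.smoothTransition (Real.log ‖z‖ - s)

theorem ww_nonneg (s : ℝ) (z : ℂ) : 0 ≤ ww s z := by
  have := Real.smoothTransition.le_one (Real.log ‖z‖ - s)
  unfold ww
  linarith

theorem ww_le_one (s : ℝ) (z : ℂ) : ww s z ≤ 1 := by
  have := Real.smoothTransition.nonneg (Real.log ‖z‖ - s)
  unfold ww
  linarith

theorem hh_le_ww (s : ℝ) (z : ℂ) : hh s (Real.log ‖z‖) ≤ ww s z := by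
  have := Real.smoothTransition.le_one (Real.log ‖z‖)
  unfold ww hh
  linarith

theorem hasDerivAt_tA (s : ℝ) (z : ℂ) : HasDerivAt (fun s => tA s z) (ww s z) s := by
  have h1 : HasDerivAt (fun s => Th (Real.log ‖z‖ - s)) (Real.smoothTransition (Real.log ‖z‖ - s) * (-1)) s :=
    (hasDerivAt_Th (Real.log ‖z‖ - s)).comp s ((hasDerivAt_id s).const_sub (Real.log ‖z‖))
  have h2 := ((hasDerivAt_id s).sub_const (Th (Real.log ‖z‖))).add h1
  have h3 : (1 : ℝ) + Real.smoothTransition (Real.log ‖z‖ - s) * (-1) = ww s z := by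
    unfold ww
    ring
  rw [h3] at h2
  exact h2

theorem ww_eq_zero {s : ℝ} {z : ℂ} (h : Real.exp (s + 1) < ‖z‖) : ww s z = 0 := by
  have := log_ge_of_exp_lt h
  unfold ww
  rw [Real.smoothTransition.one_of_one_le (by linarith)]
  ring

/-- the derivative of the energy -/
theorem hasDerivAt_II (hl : Continuous lam) {s : ℝ} (hs : 0 < s) :
    HasDerivAt (II lam) (∫ z : ℂ, ww s z * lam z ^ 2) s := by
  obtain ⟨M, hM0, hM⟩ := bdd_of_cont (f := fun z => lam z ^ 2) (by fun_prop) (Real.exp (s + 2))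
  have hb : Integrable ((Metric.closedBall (0 : ℂ) (Real.exp (s + 2))).indicator fun _ => M) :=
    (integrable_indicator_iff measurableSet_closedBall).2 (integrableOn_const (isCompact_closedBall (0 : ℂ) _).measure_lt_top.ne)
  have hwm : ∀ s : ℝ, Measurable (ww s) := by
    intro s
    unfold ww
    have h1 : Measurable fun z : ℂ => Real.log ‖z‖ := Real.measurable_log.comp measurable_norm
    exact measurable_const.sub (continuous_st.measurable.comp (h1.sub_const s))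
  refine (hasDerivAt_integral_of_dominated_loc_of_deriv_le (F := fun s z => tA s z * lam z ^ 2) (F' := fun s z => ww s z * lam z ^ 2)
    (s := Ioo 0 (s + 1)) (bound := (Metric.closedBall (0 : ℂ) (Real.exp (s + 2))).indicator fun _ => M) (isOpen_Ioo.mem_nhds ⟨hs, by linarith⟩)
    ?_ ?_ ?_ ?_ hb ?_).2
  · exact Eventually.of_forall fun x => (measurable_tA x).aestronglyMeasurable.mul (by fun_prop)
  · exact integrable_tA_mul hs.le (by fun_prop)
  · exact (hwm s).aestronglyMeasurable.mul (by fun_prop)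
  · refine Eventually.of_forall fun z x hx => ?_
    by_cases hz : z ∈ Metric.closedBall (0 : ℂ) (Real.exp (s + 2))
    · rw [indicator_of_mem hz, norm_mul, Real.norm_eq_abs, Real.norm_eq_abs, abs_of_nonneg (ww_nonneg x z)]
      calc ww x z * |lam z ^ 2| ≤ 1 * M := mul_le_mul (ww_le_one x z) (hM z (by simpa using hz)) (abs_nonneg _) zero_le_one
        _ = M := one_mul M
    · rw [indicator_of_notMem hz, ww_eq_zero, zero_mul, norm_zero]
      have h1 : Real.exp (s + 2) < ‖z‖ := by simpa using hz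
      exact (Real.exp_le_exp.2 (by linarith [hx.2])).trans_lt h1
  · refine Eventually.of_forall fun z x _ => ?_
    exact (hasDerivAt_tA x z).mul_const _

theorem continuous_hh_div (s : ℝ) (hs : 0 ≤ s) {q : ℂ → ℝ} (hq : Continuous q) (k : ℕ) : Integrable fun z : ℂ => hh s (Real.log ‖z‖) * (q z / ‖z‖ ^ k) := by
  obtain ⟨M, hM0, hM⟩ := bdd_of_cont hq (Real.exp (s + 1))
  have h0 : ∀ z : ℂ, Real.exp (s + 1) < ‖z‖ → hh s (Real.log ‖z‖) = 0 := fun z hz => hh_of_ge hs (log_ge_of_exp_lt hz)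
  refine integrable_of_bdd (M := M) (R := Real.exp (s + 1)) ?_ (fun z hz => ?_) fun z => ?_
  · exact ((measurable_hh s).mul (hq.measurable.div (measurable_norm.pow_const k))).aestronglyMeasurable
  · rw [h0 z hz, zero_mul]
  · rcases le_or_gt ‖z‖ 1 with h1 | h1
    · rw [hh_of_nonpos hs (Real.log_nonpos (norm_nonneg z) h1), zero_mul, abs_zero]
      exact hM0
    · rcases le_or_gt ‖z‖ (Real.exp (s + 1)) with h | h
      · rw [abs_mul, abs_of_nonneg (hh_nonneg hs _), abs_div, abs_of_nonneg (pow_nonneg (norm_nonneg z) k)]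
        have h2 : |q z| / ‖z‖ ^ k ≤ |q z| := div_le_self (abs_nonneg _) (one_le_pow₀ h1.le)
        calc hh s (Real.log ‖z‖) * (|q z| / ‖z‖ ^ k) ≤ 1 * |q z| :=
              mul_le_mul (hh_le_one _) h2 (by positivity) zero_le_one
          _ ≤ M := by rw [one_mul]; exact hM z h
      · rw [h0 z h, zero_mul, abs_zero]
        exact hM0

/-- the mass of the weight -/
theorem integral_hh_le {s : ℝ} (hs : 0 ≤ s) : ∫ z : ℂ, hh s (Real.log ‖z‖) * (1 / ‖z‖ ^ 2) ≤ 2 * Real.pi * (s + 1) := by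
  have h1 := integral_fun_norm_addHaar (volume : Measure ℂ) fun r : ℝ => hh s (Real.log r) * (1 / r ^ 2)
  rw [h1]
  have h2 : (volume : Measure ℂ).real (Metric.ball 0 1) = Real.pi := by
    rw [Measure.real, Complex.volume_ball]
    simp
  rw [h2, Complex.finrank_real_complex]
  have h3 : ∫ y in Ioi (0 : ℝ), y ^ (2 - 1) • (hh s (Real.log y) * (1 / y ^ 2)) = ∫ y in Ioi (0 : ℝ), hh s y := by
    have h4 : ∫ y in Ioi (1 : ℝ), y⁻¹ • hh s (Real.log y) = ∫ y in Ioi (Real.log 1), hh s y :=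
      integral_comp_log_Ioi (fun t => hh s t) one_pos
    rw [Real.log_one] at h4
    rw [← h4]
    have h5 : ∫ y in Ioi (0 : ℝ), y ^ (2 - 1) • (hh s (Real.log y) * (1 / y ^ 2)) =
        ∫ y in Ioi (1 : ℝ), y ^ (2 - 1) • (hh s (Real.log y) * (1 / y ^ 2)) := by
      refine setIntegral_eq_of_subset_of_forall_sdiff_eq_zero measurableSet_Ioi (Ioi_subset_Ioi zero_le_one) fun x hx => ?_
      have hx0 : 0 < x := hx.1
      have hx1 : x ≤ 1 := not_lt.1 hx.2
      rw [hh_of_nonpos hs (Real.log_nonpos hx0.le hx1)]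
      simp
    rw [h5]
    refine setIntegral_congr_fun measurableSet_Ioi fun x hx => ?_
    have hx0 : (0 : ℝ) < x := lt_trans one_pos hx
    simp only [smul_eq_mul]
    field_simp
    ring
  rw [h3]
  have h6 : ∫ y in Ioi (0 : ℝ), hh s y ≤ s + 1 := by
    have h7 : ∫ y in Ioi (0 : ℝ), hh s y = ∫ y in Ioc (0 : ℝ) (s + 1), hh s y := by
      refine setIntegral_eq_of_subset_of_forall_sdiff_eq_zero measurableSet_Ioi Ioc_subset_Ioi_self fun x hx => ?_
      refine hh_of_ge hs ?_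
      by_contra h8
      exact hx.2 ⟨hx.1, (not_le.1 h8).le⟩
    rw [h7]
    have hc : Continuous fun y => hh s y := by
      unfold hh
      fun_prop
    have h8 : ∫ y in Ioc (0 : ℝ) (s + 1), hh s y ≤ ∫ y in Ioc (0 : ℝ) (s + 1), (1 : ℝ) := by
      refine setIntegral_mono_on ?_ ?_ measurableSet_Ioc fun x _ => hh_le_one x
      · exact (hc.integrableOn_Icc).mono_set Ioc_subset_Icc_self
      · exact integrableOn_const (by simp)
    refine h8.trans ?_
    rw [setIntegral_const, smul_eq_mul, mul_one, Real.volume_real_Ioc_of_le (by linarith)]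
    linarith
  rw [nsmul_eq_mul, smul_eq_mul]
  have h9 : (0 : ℝ) ≤ 2 * Real.pi := by positivity
  calc ((2 : ℕ) : ℝ) * (Real.pi * ∫ y in Ioi (0 : ℝ), hh s y) = 2 * Real.pi * ∫ y in Ioi (0 : ℝ), hh s y := by push_cast; ring
    _ ≤ 2 * Real.pi * (s + 1) := mul_le_mul_of_nonneg_left h6 h9

/-- **Length and area.** -/
theorem Lam_sq_le (hl : Continuous lam) (hl0 : ∀ z, 0 ≤ lam z) {s : ℝ} (hs : 0 ≤ s) :
    Lam lam s ^ 2 ≤ 2 * Real.pi * (s + 1) * ∫ z : ℂ, ww s z * lam z ^ 2 := by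
  have hJ : Integrable fun z : ℂ => ww s z * lam z ^ 2 := by
    obtain ⟨M, hM0, hM⟩ := bdd_of_cont (f := fun z => lam z ^ 2) (by fun_prop) (Real.exp (s + 1))
    refine integrable_of_bdd (M := M) (R := Real.exp (s + 1)) ?_ (fun z hz => ?_) fun z => ?_
    · have h1 : Measurable (ww s) := by
        unfold ww
        have h1 : Measurable fun z : ℂ => Real.log ‖z‖ := Real.measurable_log.comp measurable_norm
        exact measurable_const.sub (continuous_st.measurable.comp (h1.sub_const s))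
      exact h1.aestronglyMeasurable.mul (by fun_prop)
    · rw [ww_eq_zero hz, zero_mul]
    · rcases le_or_gt ‖z‖ (Real.exp (s + 1)) with h | h
      · rw [abs_mul, abs_of_nonneg (ww_nonneg s z)]
        calc ww s z * |lam z ^ 2| ≤ 1 * M := mul_le_mul (ww_le_one s z) (hM z h) (abs_nonneg _) zero_le_one
          _ = M := one_mul M
      · rw [ww_eq_zero h, zero_mul, abs_zero]
        exact hM0
  have hL : Integrable fun z : ℂ => hh s (Real.log ‖z‖) * (lam z / ‖z‖) := by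
    have := continuous_hh_div s hs hl 1
    simpa using this
  have hA : Integrable fun z : ℂ => hh s (Real.log ‖z‖) * (1 / ‖z‖ ^ 2) := continuous_hh_div s hs continuous_const 2
  have hL0 : 0 ≤ Lam lam s := integral_nonneg fun z => mul_nonneg (hh_nonneg hs _) (div_nonneg (hl0 z) (norm_nonneg z))
  have hJ0 : 0 ≤ ∫ z : ℂ, ww s z * lam z ^ 2 := integral_nonneg fun z => mul_nonneg (ww_nonneg s z) (sq_nonneg _)
  rcases hL0.eq_or_lt with h0 | h0
  · rw [← h0, zero_pow two_ne_zero]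
    have : 0 ≤ 2 * Real.pi * (s + 1) := by positivity
    exact mul_nonneg this hJ0
  · set A : ℝ := 2 * Real.pi * (s + 1) with hAdef
    have hA0 : 0 < A := by positivity
    have key : 2 * Lam lam s ≤ (Lam lam s / A) * A + (A / Lam lam s) * ∫ z : ℂ, ww s z * lam z ^ 2 := by
      set a : ℝ := Lam lam s / A with ha
      have ha0 : 0 < a := by positivity
      have h1 : 2 * Lam lam s ≤ a * (∫ z : ℂ, hh s (Real.log ‖z‖) * (1 / ‖z‖ ^ 2)) + (1 / a) * ∫ z : ℂ, ww s z * lam z ^ 2 := by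
        unfold Lam
        rw [← integral_const_mul, ← integral_const_mul, ← integral_const_mul, ← integral_add (hA.const_mul a) (hJ.const_mul (1 / a))]
        refine integral_mono (hL.const_mul 2) ((hA.const_mul a).add (hJ.const_mul (1 / a))) fun z => ?_
        simp only
        have h2 : hh s (Real.log ‖z‖) * lam z ^ 2 ≤ ww s z * lam z ^ 2 := mul_le_mul_of_nonneg_right (hh_le_ww s z) (sq_nonneg _)
        have h3 : 1 / a * (hh s (Real.log ‖z‖) * lam z ^ 2) ≤ 1 / a * (ww s z * lam z ^ 2) := mul_le_mul_of_nonneg_left h2 (by positivity)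
        have h4 : 2 * (lam z / ‖z‖) ≤ a * (1 / ‖z‖ ^ 2) + 1 / a * lam z ^ 2 := by
          have h5 : 0 ≤ (Real.sqrt a * (1 / ‖z‖) - (1 / Real.sqrt a) * lam z) ^ 2 := sq_nonneg _
          have h6 : Real.sqrt a ^ 2 = a := Real.sq_sqrt ha0.le
          have h7 : 0 < Real.sqrt a := Real.sqrt_pos.2 ha0
          have h9 : Real.sqrt a * (1 / Real.sqrt a) = 1 := mul_one_div_cancel h7.ne'
          have h8 : (Real.sqrt a * (1 / ‖z‖) - (1 / Real.sqrt a) * lam z) ^ 2 =
              a * (1 / ‖z‖ ^ 2) + 1 / a * lam z ^ 2 - 2 * (lam z / ‖z‖) := by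
            rw [sub_sq, mul_pow, mul_pow, h6, div_pow, div_pow, h6, one_pow]
            have h10 : 2 * (Real.sqrt a * (1 / ‖z‖)) * (1 / Real.sqrt a * lam z) = 2 * (Real.sqrt a * (1 / Real.sqrt a)) * (lam z / ‖z‖) := by
              ring
            rw [h10, h9]
            ring
          linarith
        have h5 := mul_le_mul_of_nonneg_left h4 (hh_nonneg hs (Real.log ‖z‖))
        nlinarith [h3, h5]
      refine h1.trans ?_
      have h2 : a * (∫ z : ℂ, hh s (Real.log ‖z‖) * (1 / ‖z‖ ^ 2)) ≤ a * A := mul_le_mul_of_nonneg_left (integral_hh_le hs) ha0.le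
      have h3 : 1 / a = A / Lam lam s := by
        rw [ha, one_div, inv_div]
      rw [h3]
      linarith
    rw [div_mul_cancel₀ _ hA0.ne'] at key
    have key2 : Lam lam s ≤ A / Lam lam s * ∫ z : ℂ, ww s z * lam z ^ 2 := by linarith
    have key3 := mul_le_mul_of_nonneg_left key2 h0.le
    have key4 : Lam lam s * (A / Lam lam s * ∫ z : ℂ, ww s z * lam z ^ 2) = A * ∫ z : ℂ, ww s z * lam z ^ 2 := by
      field_simp
    rw [key4] at key3
    rw [sq]
    exact key3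

/-- **The choice of the radius.** -/
theorem exists_radius (hl : Continuous lam) (hl0 : ∀ z, 0 ≤ lam z) (hI : ∀ M : ℝ, ∃ s, 0 < s ∧ M ≤ II lam s) {ε : ℝ} (hε : 0 < ε)
    (C s₀ : ℝ) : ∃ s, s₀ ≤ s ∧ 0 < s ∧ Lam lam s ≤ ε * II lam s - C := by
  by_contra hcon
  push Not at hcon
  have hder : ∀ s, 0 < s → HasDerivAt (II lam) (∫ z : ℂ, ww s z * lam z ^ 2) s := fun s hs => hasDerivAt_II hl hs
  have hJ0 : ∀ s, 0 ≤ ∫ z : ℂ, ww s z * lam z ^ 2 := fun s => integral_nonneg fun z => mul_nonneg (ww_nonneg s z) (sq_nonneg _)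
  have hmono : ∀ a b, 0 < a → a ≤ b → II lam a ≤ II lam b := by
    intro a b ha hab
    have h1 : MonotoneOn (II lam) (Ioi 0) := by
      refine monotoneOn_of_deriv_nonneg (convex_Ioi 0) (fun x hx => (hder x hx).continuousAt.continuousWithinAt) ?_ ?_
      · rw [interior_Ioi]
        exact fun x hx => (hder x hx).differentiableAt.differentiableWithinAt
      · rw [interior_Ioi]
        intro x hx
        rw [(hder x hx).deriv]
        exact hJ0 x
    exact h1 ha (lt_of_lt_of_le ha hab) hab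
  obtain ⟨s₁, hs₁, hM⟩ := hI ((C + 1) / ε)
  set s₂ : ℝ := max s₁ (max s₀ 1) with hs₂
  have hs₂0 : 0 < s₂ := lt_of_lt_of_le hs₁ (le_max_left _ _)
  have hs₂1 : s₀ ≤ s₂ := (le_max_left _ _).trans (le_max_right _ _)
  have hy : ∀ s, s₂ ≤ s → 1 ≤ ε * II lam s - C := by
    intro s hs
    have h1 := hM.trans (hmono s₁ s hs₁ ((le_max_left _ _).trans hs))
    rw [div_le_iff₀ hε] at h1
    linarith
  set c : ℝ := ε / (2 * Real.pi) with hc
  have hc0 : 0 < c := by positivity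
  set g : ℝ → ℝ := fun s => -(ε * II lam s - C)⁻¹ - c * Real.log (s + 1) with hg
  have hgder : ∀ s, s₂ ≤ s → HasDerivAt g (-(-(ε * (∫ z : ℂ, ww s z * lam z ^ 2)) / (ε * II lam s - C) ^ 2) - c * (1 / (s + 1))) s := by
    intro s hs
    have hs0 : 0 < s := lt_of_lt_of_le hs₂0 hs
    have h1 : HasDerivAt (fun s => ε * II lam s - C) (ε * ∫ z : ℂ, ww s z * lam z ^ 2) s := ((hder s hs0).const_mul ε).sub_const C
    have h2 := h1.fun_inv (by have := hy s hs; linarith)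
    have h3 : HasDerivAt (fun s => Real.log (s + 1)) (1 / (s + 1)) s := by
      have := ((hasDerivAt_id s).add_const 1).log (by simp; linarith)
      simpa using this
    exact h2.neg.sub (h3.const_mul c)
  have hgmono : MonotoneOn g (Ici s₂) := by
    refine monotoneOn_of_deriv_nonneg (convex_Ici s₂) (fun x hx => (hgder x hx).continuousAt.continuousWithinAt) ?_ ?_
    · rw [interior_Ici]
      exact fun x hx => (hgder x (le_of_lt hx)).differentiableAt.differentiableWithinAt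
    · rw [interior_Ici]
      intro x hx
      have hx' : s₂ ≤ x := le_of_lt hx
      have hx0 : 0 < x := lt_of_lt_of_le hs₂0 hx'
      rw [(hgder x hx').deriv]
      have h1 := hcon x (hs₂1.trans hx') hx0
      have h2 := hy x hx'
      have h3 := Lam_sq_le hl hl0 hx0.le
      set y : ℝ := ε * II lam x - C with hydef
      set J : ℝ := ∫ z : ℂ, ww x z * lam z ^ 2 with hJ
      have h4 : y ^ 2 ≤ 2 * Real.pi * (x + 1) * J := by
        have : y ^ 2 ≤ Lam lam x ^ 2 := pow_le_pow_left₀ (by linarith) h1.le 2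
        exact this.trans h3
      have hy0 : 0 < y := by linarith
      have h5 : c * (1 / (x + 1)) ≤ ε * J / y ^ 2 := by
        rw [le_div_iff₀ (by positivity), hc]
        have h6 : ε / (2 * Real.pi) * (1 / (x + 1)) * y ^ 2 ≤ ε / (2 * Real.pi) * (1 / (x + 1)) * (2 * Real.pi * (x + 1) * J) :=
          mul_le_mul_of_nonneg_left h4 (by positivity)
        refine h6.trans (le_of_eq ?_)
        have hpi := Real.pi_ne_zero
        have hx1 : x + 1 ≠ 0 := by linarith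
        field_simp
      have h7 : -(-(ε * J) / y ^ 2) = ε * J / y ^ 2 := by ring
      rw [h7]
      linarith
  -- the logarithm is unbounded
  obtain ⟨s₃, hs₃⟩ : ∃ s₃ : ℝ, s₂ ≤ s₃ ∧ 1 - g s₂ ≤ c * Real.log (s₃ + 1) := by
    refine ⟨max s₂ (Real.exp ((1 - g s₂) / c)), le_max_left _ _, ?_⟩
    have h1 : (1 - g s₂) / c ≤ Real.log (max s₂ (Real.exp ((1 - g s₂) / c)) + 1) := by
      rw [Real.le_log_iff_exp_le (by positivity)]
      have := le_max_right s₂ (Real.exp ((1 - g s₂) / c))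
      linarith
    rw [div_le_iff₀ hc0] at h1
    linarith
  have h1 := hgmono (mem_Ici.2 le_rfl) (mem_Ici.2 hs₃.1) hs₃.1
  have h2 : g s₃ ≤ - (c * Real.log (s₃ + 1)) := by
    have h3 : 0 ≤ (ε * II lam s₃ - C)⁻¹ := inv_nonneg.2 (by linarith [hy s₃ hs₃.1])
    simp only [hg]
    linarith
  linarith [hs₃.2]

/-! ### the official test function -/

theorem tau_eq_tA {R : ℝ} (hR : 1 ≤ R) (z : ℂ) : tau R z = tA (Real.log R) z := by
  have hR0 : 0 < R := lt_of_lt_of_le one_pos hR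
  unfold tau tA P
  rcases eq_or_ne z 0 with rfl | hz
  · have h1 : 0 ≤ Real.log R := Real.log_nonneg hR
    rw [zero_div, norm_zero, Real.log_zero, Th_nonpos (show (0 : ℝ) ≤ 0 from le_rfl), Th_nonpos (show 0 - Real.log R ≤ 0 by linarith)]
  · rw [norm_div, Complex.norm_real, Real.norm_of_nonneg hR0.le, Real.log_div (norm_ne_zero_iff.2 hz) hR0.ne']

theorem norm_gr_tau {R : ℝ} (hR : 1 ≤ R) (z : ℂ) : ‖gr (tau R) z‖ = hh (Real.log R) (Real.log ‖z‖) / ‖z‖ := by
  have hR0 : 0 < R := lt_of_lt_of_le one_pos hR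
  have h3 : ∀ v : ℂ, fderiv ℝ (tau R) z v = -(hh (Real.log R) (Real.log ‖z‖) * (v / z).re) := by
    intro v
    rw [fderiv_tau hR]
    rcases eq_or_ne z 0 with rfl | hz
    · simp
    · have e6 : Real.log ‖z / (R : ℂ)‖ = Real.log ‖z‖ - Real.log R := by
        rw [norm_div, Complex.norm_real, Real.norm_of_nonneg hR0.le, Real.log_div (norm_ne_zero_iff.2 hz) hR0.ne']
      rw [e6]
      unfold hh
      ring
  have h4 : gr (tau R) z = -((hh (Real.log R) (Real.log ‖z‖) : ℝ) : ℂ) * (starRingEnd ℂ) (1 / z) := by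
    apply Complex.ext
    · rw [gr_re, h3]
      simp
    · rw [gr_im, h3]
      simp [Complex.div_re, Complex.inv_im, Complex.inv_re]
  rw [h4, norm_mul, norm_neg, Complex.norm_real, RCLike.norm_conj, norm_div, norm_one,
    Real.norm_of_nonneg (hh_nonneg (Real.log_nonneg hR) _)]
  ring

/-- **The choice of the radius.** -/
theorem sel_of_unbounded (hl : Continuous lam) (hl0 : ∀ z, 0 ≤ lam z) (hI : ∀ M : ℝ, ∃ R : ℝ, 1 < R ∧ M ≤ ∫ z : ℂ, tau R z * lam z ^ 2) {ε : ℝ} (hε : 0 < ε)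
    (C R₀ : ℝ) : ∃ R : ℝ, R₀ ≤ R ∧ 1 < R ∧
      (∫ z : ℂ, ‖gr (tau R) z‖ * lam z) ≤ ε * (∫ z : ℂ, tau R z * lam z ^ 2) - C := by
  have e1 : ∀ R : ℝ, 1 ≤ R → ∫ z : ℂ, tau R z * lam z ^ 2 = II lam (Real.log R) := by
    intro R hR
    unfold II
    exact integral_congr_ae (Eventually.of_forall fun z => by simp only [tau_eq_tA hR])
  have e2 : ∀ R : ℝ, 1 ≤ R → (∫ z : ℂ, ‖gr (tau R) z‖ * lam z) = Lam lam (Real.log R) := by
    intro R hR
    unfold Lam
    refine integral_congr_ae (Eventually.of_forall fun z => ?_)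
    simp only [norm_gr_tau hR]
    ring
  obtain ⟨s, hs1, hs2, hs3⟩ := exists_radius hl hl0 (fun M => by
    obtain ⟨R, hR, hM⟩ := hI M
    exact ⟨Real.log R, Real.log_pos hR, by rw [← e1 R hR.le]; exact hM⟩) hε C R₀
  refine ⟨Real.exp s, ?_, Real.one_lt_exp_iff.2 hs2, ?_⟩
  · have := Real.add_one_le_exp s
    linarith
  · rw [e1 _ (Real.one_lt_exp_iff.2 hs2).le, e2 _ (Real.one_lt_exp_iff.2 hs2).le, Real.log_exp]
    exact hs3

/-- **The choice of the radius.** -/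
theorem _root_.Pool.Agent.MQ.sel {l : ℂ → ℝ} (hc : Continuous l) (h0 : ∀ z, 0 ≤ l z) (hne : ∃ z, l z ≠ 0) {ε : ℝ} (hε : 0 < ε) (C R₀ : ℝ) :
    ∃ R, R₀ ≤ R ∧ 1 ≤ R ∧ (∫ z, ‖gr (tau R) z‖ * l z) + C ≤ ε * ∫ z, tau R z * l z ^ 2 := by
  obtain ⟨a, ha⟩ := hne
  -- the mass of a ball
  set r : ℝ := ‖a‖ + 1 with hr
  have hr1 : 1 ≤ r := by
    have := norm_nonneg a
    linarith
  have hcont : Continuous fun z => l z ^ 2 := by fun_prop
  have hI : IntegrableOn (fun z => l z ^ 2) (Metric.closedBall (0 : ℂ) r) := hcont.continuousOn.integrableOn_compact (isCompact_closedBall _ _)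
  have hpos : 0 < ∫ z in Metric.closedBall (0 : ℂ) r, l z ^ 2 := by
    rw [setIntegral_pos_iff_support_of_nonneg_ae (Eventually.of_forall fun z => sq_nonneg (l z)) hI]
    have h1 : IsOpen ({z | l z ≠ 0} ∩ Metric.ball (0 : ℂ) r) := (isOpen_ne_fun hc continuous_const).inter Metric.isOpen_ball
    have h2 : (a : ℂ) ∈ {z | l z ≠ 0} ∩ Metric.ball (0 : ℂ) r := ⟨ha, by simp [hr]⟩
    refine lt_of_lt_of_le (h1.measure_pos volume ⟨a, h2⟩) (measure_mono fun z hz => ⟨?_, Metric.ball_subset_closedBall hz.2⟩)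
    simp only [Function.mem_support]
    exact pow_ne_zero 2 hz.1
  set m : ℝ := ∫ z in Metric.closedBall (0 : ℂ) r, l z ^ 2 with hm
  have hlow : ∀ R : ℝ, 1 ≤ R → (Real.log R - Real.log r) * m ≤ ∫ z : ℂ, tau R z * l z ^ 2 := by
    intro R hR
    have h1 : ∫ z : ℂ, tau R z * l z ^ 2 = II l (Real.log R) := by
      unfold II
      exact integral_congr_ae (Eventually.of_forall fun z => by simp only [tau_eq_tA hR])
    have hint : Integrable fun z : ℂ => tau R z * l z ^ 2 := by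
      have h2 := integrable_tA_mul (Real.log_nonneg hR) hcont
      exact h2.congr (Eventually.of_forall fun z => by simp only [tau_eq_tA hR])
    have h3 : ∫ z in Metric.closedBall (0 : ℂ) r, tau R z * l z ^ 2 ≤ ∫ z : ℂ, tau R z * l z ^ 2 :=
      setIntegral_le_integral hint (Eventually.of_forall fun z => mul_nonneg (tau_nonneg hR z) (sq_nonneg _))
    refine le_trans ?_ h3
    rw [hm, ← integral_const_mul]
    refine setIntegral_mono_on (hI.const_mul _) hint.integrableOn measurableSet_closedBall fun z hz => ?_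
    exact mul_le_mul_of_nonneg_right (le_tau hR hr1 (by simpa using hz)) (sq_nonneg _)
  obtain ⟨R, hR1, hR2, hR3⟩ := sel_of_unbounded hc h0 (fun M => by
    set R : ℝ := Real.exp (Real.log r + (|M| + 1) / m) with hRdef
    have hlr : 0 ≤ Real.log r := Real.log_nonneg hr1
    have hR : 1 < R := by
      rw [hRdef, Real.one_lt_exp_iff]
      positivity
    refine ⟨R, hR, le_trans ?_ (hlow R hR.le)⟩
    rw [hRdef, Real.log_exp]
    have h1 : (Real.log r + (|M| + 1) / m - Real.log r) * m = |M| + 1 := by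
      field_simp
      ring
    rw [h1]
    have := le_abs_self M
    linarith) hε C R₀
  exact ⟨R, hR1, hR2.le, by linarith⟩

end Pool.Agent.MQ.SelA

end
end

section

/-!
# MQ3 ThA: two parametrizations of a surface near a common point
-/

set_option autoImplicit false

open Topology Filter

noncomputable section

namespace Pool.Agent.MQ3

open Pool.Agent.H36.BP (EN)
open Pool.Agent.H17BP (Surface IsChart IsForm)

variable {N : ℕ} {X : Set (EN N)}

/-- an immersion into the surface, modulo the scaling -/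
structure Imm (X : Set (EN N)) (ρ : ℂ × ℂ → EN N) (Q : ℂ × ℂ) : Prop where
  an : AnalyticAt ℂ ρ Q
  mem : ∀ᶠ q in 𝓝 Q, ρ q ∈ X
  inj : ∀ (w : ℂ × ℂ) (a : ℂ), fderiv ℂ ρ Q w = a • ρ Q → w = 0

theorem ne_coord {x : EN N} (hx : x ≠ 0) : ∃ j, x.ofLp j ≠ 0 := by
  by_contra hcon
  push Not at hcon
  exact hx (by ext j; exact hcon j)

theorem Imm.ne (hX : Surface X) {ρ : ℂ × ℂ → EN N} {Q : ℂ × ℂ} (h : Imm X ρ Q) : ρ Q ≠ 0 := fun h0 => hX.zero (h0 ▸ h.mem.self_of_nhds)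

theorem an_coord {E : Type*} [NormedAddCommGroup E] [NormedSpace ℂ E] {f : E → EN N} {x : E} (hf : AnalyticAt ℂ f x) (j : Fin (N + 1)) :
    AnalyticAt ℂ (fun y => (f y).ofLp j) x :=
  ((EuclideanSpace.proj (𝕜 := ℂ) j : EN N →L[ℂ] ℂ).analyticAt _).comp hf

/-- a pointwise scalar factor is analytic -/
theorem exists_scalar {E : Type*} [NormedAddCommGroup E] [NormedSpace ℂ E] {f g : E → EN N} {x : E} (hf : AnalyticAt ℂ f x) (hg : AnalyticAt ℂ g x) (h0 : g x ≠ 0)
    (h : ∀ᶠ y in 𝓝 x, ∃ c : ℂ, c ≠ 0 ∧ f y = c • g y) : ∃ b : E → ℂ, AnalyticAt ℂ b x ∧ b x ≠ 0 ∧ ∀ᶠ y in 𝓝 x, f y = b y • g y := by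
  obtain ⟨j, hj⟩ := ne_coord h0
  have hj' : ∀ᶠ y in 𝓝 x, (g y).ofLp j ≠ 0 := (an_coord hg j).continuousAt.eventually_ne hj
  have key : ∀ᶠ y in 𝓝 x, (f y).ofLp j / (g y).ofLp j ≠ 0 ∧ f y = ((f y).ofLp j / (g y).ofLp j) • g y := by
    filter_upwards [h, hj'] with y hy hy'
    obtain ⟨c, hc, hcy⟩ := hy
    have h1 : (f y).ofLp j = c * (g y).ofLp j := by
      have := congrArg (fun v : EN N => v.ofLp j) hcy
      simpa using this
    rw [h1, mul_div_cancel_right₀ _ hy']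
    exact ⟨hc, hcy⟩
  exact ⟨fun y => (f y).ofLp j / (g y).ofLp j, (an_coord hf j).div (an_coord hg j) hj, key.self_of_nhds.1, key.mono fun y hy => hy.2⟩

theorem jc_ne_of_inj {κ : ℂ × ℂ → ℂ × ℂ} {Q : ℂ × ℂ} (h : ∀ w, fderiv ℂ κ Q w = 0 → w = 0) : jc κ Q ≠ 0 := by
  intro h0
  rw [jc] at h0
  have h1 : fderiv ℂ κ Q ((fderiv ℂ κ Q (0, 1)).2, -(fderiv ℂ κ Q (1, 0)).2) = 0 := by
    rw [split_vec]
    refine Prod.ext ?_ ?_
    · simp only [Prod.fst_add, Prod.smul_fst, smul_eq_mul, Prod.fst_zero]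
      linear_combination h0
    · simp only [Prod.snd_add, Prod.smul_snd, smul_eq_mul, Prod.snd_zero]
      ring
  have h2 := h _ h1
  have e1 : (fderiv ℂ κ Q (0, 1)).2 = 0 := congrArg Prod.fst h2
  have e2 : (fderiv ℂ κ Q (1, 0)).2 = 0 := by
    have := congrArg Prod.snd h2
    simpa using this
  have h3 : fderiv ℂ κ Q ((fderiv ℂ κ Q (0, 1)).1, -(fderiv ℂ κ Q (1, 0)).1) = 0 := by
    rw [split_vec]
    refine Prod.ext ?_ ?_
    · simp only [Prod.fst_add, Prod.smul_fst, smul_eq_mul, Prod.fst_zero]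
      ring
    · simp only [Prod.snd_add, Prod.smul_snd, smul_eq_mul, Prod.snd_zero]
      rw [e1, e2]
      ring
  have h4 := h _ h3
  have e3 : (fderiv ℂ κ Q (0, 1)).1 = 0 := congrArg Prod.fst h4
  have h5 : fderiv ℂ κ Q (0, 1) = 0 := Prod.ext e3 e1
  have h6 := congrArg Prod.snd (h _ h5)
  exact one_ne_zero h6

/-- the coordinate map composed with an immersion -/
theorem chart_imm {σ : ℂ × ℂ → EN N} {τ : EN N → ℂ × ℂ} (hσ : IsChart X σ τ) {ρ : ℂ × ℂ → EN N} {Q : ℂ × ℂ} (hρ : Imm X ρ Q) (h0 : ρ Q = σ 0) :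
    AnalyticAt ℂ (fun q => τ (ρ q)) Q ∧ τ (ρ Q) = 0 ∧ (∀ᶠ q in 𝓝 Q, ∃ c : ℂ, c ≠ 0 ∧ ρ q = c • σ (τ (ρ q))) ∧
      ∀ w, fderiv ℂ (fun q => τ (ρ q)) Q w = 0 → w = 0 := by
  have hτ : AnalyticAt ℂ τ (ρ Q) := by rw [h0]; exact hσ.τ_an
  have hκ : AnalyticAt ℂ (fun q => τ (ρ q)) Q := AnalyticAt.fun_comp (g := τ) (f := ρ) hτ hρ.an
  have hτ0 : τ (ρ Q) = 0 := by rw [h0]; exact hσ.left.self_of_nhds
  have hc : ∀ᶠ q in 𝓝 Q, ∃ c : ℂ, c ≠ 0 ∧ ρ q = c • σ (τ (ρ q)) := by
    have h1 : Tendsto ρ (𝓝 Q) (𝓝 (σ 0)) := by rw [← h0]; exact hρ.an.continuousAt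
    filter_upwards [h1.eventually hσ.right, hρ.mem] with q h2 h3
    exact h2 h3
  refine ⟨hκ, hτ0, hc, ?_⟩
  have hσκ : AnalyticAt ℂ (fun q => σ (τ (ρ q))) Q := by
    have h1 : AnalyticAt ℂ σ (τ (ρ Q)) := by rw [hτ0]; exact hσ.σ_an
    exact AnalyticAt.fun_comp (g := σ) (f := fun q => τ (ρ q)) h1 hκ
  obtain ⟨b, hb, hb0, hbe⟩ := exists_scalar hρ.an hσκ (by rw [hτ0]; exact hσ.ne) hc
  intro w hw
  have h1 : HasFDerivAt (fun q => b q • σ (τ (ρ q))) _ Q := hb.differentiableAt.hasFDerivAt.smul hσκ.differentiableAt.hasFDerivAt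
  have h2 : fderiv ℂ ρ Q = fderiv ℂ (fun q => b q • σ (τ (ρ q))) Q := Filter.EventuallyEq.fderiv_eq hbe
  have h3 : fderiv ℂ (fun q => σ (τ (ρ q))) Q w = 0 := by
    have h4 : HasFDerivAt (fun q => σ (τ (ρ q))) ((fderiv ℂ σ (τ (ρ Q))).comp (fderiv ℂ (fun q => τ (ρ q)) Q)) Q := by
      have h5 : AnalyticAt ℂ σ (τ (ρ Q)) := by rw [hτ0]; exact hσ.σ_an
      exact h5.differentiableAt.hasFDerivAt.comp Q hκ.differentiableAt.hasFDerivAt
    rw [h4.fderiv, ContinuousLinearMap.comp_apply, hw, map_zero]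
  refine hρ.inj w (fderiv ℂ b Q w / b Q) ?_
  rw [h2, h1.fderiv]
  have h6 := hbe.self_of_nhds
  simp only [add_apply, smul_apply, ContinuousLinearMap.smulRight_apply, h3, smul_zero, zero_add]
  conv_rhs => rw [h6]
  rw [smul_smul, div_mul_cancel₀ _ hb0]

/-- **The change of parametrization.** -/
theorem exists_trans (hX : Surface X) {ρ ρ' : ℂ × ℂ → EN N} {Q Q' : ℂ × ℂ} (hρ : Imm X ρ Q) (hρ' : Imm X ρ' Q') {c : ℂ} (hc : c ≠ 0)
    (h : ρ Q = c • ρ' Q') : ∃ (Ψ : ℂ × ℂ → ℂ × ℂ) (b : ℂ × ℂ → ℂ), AnalyticAt ℂ Ψ Q ∧ Ψ Q = Q' ∧ AnalyticAt ℂ b Q ∧ b Q ≠ 0 ∧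
      (∀ᶠ q in 𝓝 Q, ρ q = b q • ρ' (Ψ q)) ∧ jc Ψ Q ≠ 0 ∧ (∀ w, fderiv ℂ Ψ Q w = 0 → w = 0) ∧
      ∀ᶠ x in 𝓝 (Q, Q'), (∃ a : ℂ, a ≠ 0 ∧ ρ x.1 = a • ρ' x.2) → x.2 = Ψ x.1 := by
  obtain ⟨σ, τ, hσ, h0⟩ := hX.chart (ρ Q) hρ.mem.self_of_nhds
  have hρc : Imm X (fun q => c • ρ' q) Q' := by
    refine ⟨(analyticAt_const (v := c)).fun_smul hρ'.an, hρ'.mem.mono fun q hq => hX.smul _ hq c hc, ?_⟩
    intro w a hw
    have h1 : fderiv ℂ (fun q => c • ρ' q) Q' = c • fderiv ℂ ρ' Q' := (hρ'.an.differentiableAt.hasFDerivAt.const_smul c).fderiv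
    rw [h1, smul_apply, smul_comm a c] at hw
    exact hρ'.inj w a (smul_right_injective _ hc hw)
  obtain ⟨hk, hk0, hkc, hki⟩ := chart_imm hσ hρ h0.symm
  obtain ⟨hk', hk0', hkc', hki'⟩ := chart_imm hσ hρc (by rw [← h, h0])
  obtain ⟨ψ, hψ, hψl, hψr, hψ0⟩ := Pool.Agent.H62.BU.local_inverse hk' hki'
  have hkk : τ (c • ρ' Q') = τ (ρ Q) := by rw [hk0', hk0]
  rw [hkk] at hψ hψr hψ0
  have hΨ : AnalyticAt ℂ (fun q => ψ (τ (ρ q))) Q := AnalyticAt.fun_comp (g := ψ) (f := fun q => τ (ρ q)) hψ hk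
  have hΨ0 : ψ (τ (ρ Q)) = Q' := hψ0
  have hρ'Ψ : AnalyticAt ℂ (fun q => ρ' (ψ (τ (ρ q)))) Q := by
    have h1 : AnalyticAt ℂ ρ' (ψ (τ (ρ Q))) := by rw [hΨ0]; exact hρ'.an
    exact AnalyticAt.fun_comp (g := ρ') (f := fun q => ψ (τ (ρ q))) h1 hΨ
  have hex : ∀ᶠ q in 𝓝 Q, ∃ a : ℂ, a ≠ 0 ∧ ρ q = a • ρ' (ψ (τ (ρ q))) := by
    have h1 : Tendsto (fun q => ψ (τ (ρ q))) (𝓝 Q) (𝓝 Q') := by
      have := hΨ.continuousAt.tendsto
      rwa [hΨ0] at this
    have h2 : Tendsto (fun q => τ (ρ q)) (𝓝 Q) (𝓝 (τ (ρ Q))) := hk.continuousAt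
    filter_upwards [hkc, h1.eventually hkc', h2.eventually hψr] with q e1 e2 e3
    obtain ⟨c₁, hc₁, e1⟩ := e1
    obtain ⟨c₂, hc₂, e2⟩ := e2
    rw [e3] at e2
    refine ⟨c₁ / c₂ * c, mul_ne_zero (div_ne_zero hc₁ hc₂) hc, ?_⟩
    rw [mul_smul, e2, smul_smul, div_mul_cancel₀ _ hc₂]
    exact e1
  have hρ'0 : ρ' (ψ (τ (ρ Q))) ≠ 0 := by rw [hΨ0]; exact hρ'.ne hX
  obtain ⟨b, hb, hb0, hbe⟩ := exists_scalar hρ.an hρ'Ψ hρ'0 hex
  have hinj : ∀ w, fderiv ℂ (fun q => ψ (τ (ρ q))) Q w = 0 → w = 0 := by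
    intro w hw
    have h1 : HasFDerivAt (fun q => b q • ρ' (ψ (τ (ρ q)))) _ Q := hb.differentiableAt.hasFDerivAt.smul hρ'Ψ.differentiableAt.hasFDerivAt
    have h2 : fderiv ℂ ρ Q = fderiv ℂ (fun q => b q • ρ' (ψ (τ (ρ q)))) Q := Filter.EventuallyEq.fderiv_eq hbe
    have h3 : fderiv ℂ (fun q => ρ' (ψ (τ (ρ q)))) Q w = 0 := by
      have h4 : HasFDerivAt (fun q => ρ' (ψ (τ (ρ q)))) ((fderiv ℂ ρ' (ψ (τ (ρ Q)))).comp (fderiv ℂ (fun q => ψ (τ (ρ q))) Q)) Q := by
        have h5 : AnalyticAt ℂ ρ' (ψ (τ (ρ Q))) := by rw [hΨ0]; exact hρ'.an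
        exact h5.differentiableAt.hasFDerivAt.comp Q hΨ.differentiableAt.hasFDerivAt
      rw [h4.fderiv, ContinuousLinearMap.comp_apply, hw, map_zero]
    refine hρ.inj w (fderiv ℂ b Q w / b Q) ?_
    rw [h2, h1.fderiv]
    have h6 := hbe.self_of_nhds
    simp only [add_apply, smul_apply, ContinuousLinearMap.smulRight_apply, h3, smul_zero, zero_add]
    conv_rhs => rw [h6]
    rw [smul_smul, div_mul_cancel₀ _ hb0]
  refine ⟨fun q => ψ (τ (ρ q)), b, hΨ, hΨ0, hb, hb0, hbe, jc_ne_of_inj hinj, hinj, ?_⟩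
  -- uniqueness
  obtain ⟨j, hj⟩ := ne_coord (hρ'.ne hX)
  have hcoord : ContinuousAt (fun x : (ℂ × ℂ) × (ℂ × ℂ) => (ρ x.1).ofLp j / (ρ' x.2).ofLp j) (Q, Q') := by
    have h1 : ContinuousAt (fun x : (ℂ × ℂ) × (ℂ × ℂ) => (ρ x.1).ofLp j) (Q, Q') :=
      ContinuousAt.comp (f := Prod.fst) (g := fun q => (ρ q).ofLp j) (an_coord hρ.an j).continuousAt continuousAt_fst
    have h2 : ContinuousAt (fun x : (ℂ × ℂ) × (ℂ × ℂ) => (ρ' x.2).ofLp j) (Q, Q') :=
      ContinuousAt.comp (f := Prod.snd) (g := fun q => (ρ' q).ofLp j) (an_coord hρ'.an j).continuousAt continuousAt_snd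
    exact h1.div h2 hj
  have hval : (ρ Q).ofLp j / (ρ' Q').ofLp j = c := by
    rw [h]
    simp [hj]
  have hinv : ∀ᶠ x in 𝓝 (Q, Q'), τ (((ρ x.1).ofLp j / (ρ' x.2).ofLp j / c) • (c • ρ' x.2)) = τ (c • ρ' x.2) := by
    have h1 : ContinuousAt (fun x : (ℂ × ℂ) × (ℂ × ℂ) => (c • ρ' x.2, (ρ x.1).ofLp j / (ρ' x.2).ofLp j / c)) (Q, Q') := by
      refine ContinuousAt.prodMk ?_ (hcoord.div continuousAt_const hc)
      exact ContinuousAt.comp (f := Prod.snd) (g := fun q => c • ρ' q) hρc.an.continuousAt continuousAt_snd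
    have h2 : Tendsto (fun x : (ℂ × ℂ) × (ℂ × ℂ) => (c • ρ' x.2, (ρ x.1).ofLp j / (ρ' x.2).ofLp j / c)) (𝓝 (Q, Q')) (𝓝 (σ 0, (1 : ℂ))) := by
      have h3 := h1.tendsto
      simp only [hval, div_self hc] at h3
      rwa [← h, ← h0] at h3
    exact h2.eventually hσ.inv
  have hρ'j : ∀ᶠ x in 𝓝 (Q, Q'), (ρ' x.2).ofLp j ≠ 0 :=
    (ContinuousAt.comp (f := Prod.snd) (g := fun q => (ρ' q).ofLp j) (an_coord hρ'.an j).continuousAt continuousAt_snd).eventually_ne hj
  have hψ' : ∀ᶠ x in 𝓝 (Q, Q'), ψ (τ (c • ρ' x.2)) = x.2 := (continuousAt_snd (p := (Q, Q'))).eventually hψl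
  filter_upwards [hinv, hρ'j, hψ'] with x e1 e2 e3
  rintro ⟨a, ha, hax⟩
  have h1 : (ρ x.1).ofLp j / (ρ' x.2).ofLp j = a := by
    rw [hax]
    simp [e2]
  rw [h1, smul_smul, div_mul_cancel₀ _ hc, ← hax] at e1
  rw [e1]
  exact e3.symm

end Pool.Agent.MQ3

end
end
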