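import Pool.Agent.H94.G6.M109
import Pool.Agent.H94.G6.M120
import Pool.Agent.H94.G6.M131
import Pool.Agent.H94.G6.M132
import Pool.Agent.H94.G6.M133
import Pool.Agent.H94.G6.M90

/-! The parts of this file: MQ.VFin, SG.BuC, SG.BubC. -/

section

/-!
# MQ VFin: the final inequality
-/

set_option autoImplicit false

open Topology Filter Metric MvPolynomial Asymptotics MeasureTheory Laplacian

noncomputable section

namespace Pool.Agent.MQ

open Pool.Agent.H36.BP (EN fs wd)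
open Pool.Agent.H17EF (coneE)
open Pool.Agent.H30M (tau avg rhoR LogSing contDiff_tau hcs_tau tau_nonneg gg)

variable {M : ℕ} {P : Ideal (MvPolynomial (Fin (M + 1)) ℂ)} {FF : Set (EN M × EN M)}

/-- a curve which is not constant has a derivative which is not always zero -/
theorem exists_lam_ne {F : ℂ → EN M} (hF : Differentiable ℂ F) (h0 : ∀ z, F z ≠ 0) (hnc : ∃ z w, ∀ c : ℂ, F z ≠ c • F w) : ∃ z, lam F z ≠ 0 := by
  by_contra hcon
  push Not at hcon
  obtain ⟨z, w, hzw⟩ := hnc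
  have hwd : ∀ y, wd (F y) (deriv F y) = 0 := by
    intro y
    have h1 := hcon y
    rw [lam, fs, div_eq_zero_iff] at h1
    rcases h1 with h1 | h1
    · exact h1
    · exact absurd h1 (pow_ne_zero 2 (norm_ne_zero_iff.2 (h0 y)))
  have hloc := Pool.Agent.H36.BP.const_of_wedge (hF.analyticAt w) (h0 w) (Eventually.of_forall hwd)
  obtain ⟨i, hi⟩ : ∃ i, F w i ≠ 0 := by
    by_contra h
    push Not at h
    exact h0 w (by ext i; exact h i)
  have hcoord : ∀ j : Fin (M + 1), Differentiable ℂ fun y => F y j := fun j =>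
    (EuclideanSpace.proj (𝕜 := ℂ) j : EN M →L[ℂ] ℂ).differentiable.comp hF
  have hmn : ∀ (j : Fin (M + 1)) (y : ℂ), F y j * F w i - F y i * F w j = 0 := by
    intro j
    have hdiff : Differentiable ℂ fun y => F y j * F w i - F y i * F w j := ((hcoord j).mul_const _).sub ((hcoord i).mul_const _)
    have h2 : (fun y => F y j * F w i - F y i * F w j) =ᶠ[𝓝 w] fun _ => 0 := by
      filter_upwards [hloc] with y hy
      obtain ⟨c, -, hc⟩ := hy
      rw [hc, PiLp.smul_apply, PiLp.smul_apply, smul_eq_mul, smul_eq_mul]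
      ring
    have h3 : AnalyticOnNhd ℂ (fun y => F y j * F w i - F y i * F w j) Set.univ := fun y _ => hdiff.analyticAt y
    exact fun y => congrFun (h3.eq_of_eventuallyEq (g := fun _ => 0) (fun y _ => analyticAt_const) h2) y
  apply hzw (F z i / F w i)
  ext j
  rw [PiLp.smul_apply, smul_eq_mul, div_mul_eq_mul_div, eq_div_iff hi]
  linear_combination hmn j z

/-- a function with logarithmic singularities is of class `C²` almost everywhere -/
theorem ae_contDiffAt {E : ℂ → ℝ} (hE : ∀ z, ∃ c, LogSing E c z) : ∀ᵐ z, ContDiffAt ℝ 2 E z := by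
  rw [ae_iff]
  refine measure_null_of_locally_null _ fun z _ => ?_
  obtain ⟨c, hc⟩ := hE z
  have h1 := hc.eventually
  rw [eventually_nhdsWithin_iff] at h1
  refine ⟨{y | ¬ ContDiffAt ℝ 2 E y} ∩ {y | y ∈ ({z}ᶜ : Set ℂ) → ContDiffAt ℝ 2 E y}, inter_mem_nhdsWithin _ h1, ?_⟩
  refine measure_mono_null (t := {z}) ?_ (measure_singleton z)
  rintro y ⟨h2, h3⟩
  by_contra h4
  exact h2 (h3 h4)

/-- **The final inequality.** -/
theorem false_of_pack {F : ℂ → EN M} (hF : Crv P FF F) {l : ℂ → ℝ} (hl : Continuous l) (hl0 : ∀ z, 0 ≤ l z) (hle : ∀ z, lam F z ≤ l z)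
    (hB : ∃ B : ℝ, ∀ R, 1 ≤ R → ∫ z, tau R z * l z ^ 2 ≤ B * (En F R + 1)) {ε₀ δ : ℝ} (h : Pack F l ε₀ δ) (hδ : 2 * δ < ε₀) : False := by
  obtain ⟨B, hB⟩ := hB
  obtain ⟨C, E, η, err, hC, hE, hη, hηb, herr, hlap, herrb, havg⟩ := h
  choose c hc0 hE using hE
  have hF0 : ∀ z, F z ≠ 0 := fun z h0 => by
    obtain ⟨hh, -⟩ := hF.mem z
    exact hh (by rw [h0]; rfl)
  have hlc := continuous_lam hF.diff hF0
  have hLen : ∀ R, 0 ≤ ∫ z, ‖gr (tau R) z‖ * l z := fun R => integral_nonneg fun z => mul_nonneg (norm_nonneg _) (hl0 z)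
  -- integrable functions
  have hint : ∀ {u : ℂ → ℝ} {R : ℝ}, 1 ≤ R → Continuous u → Integrable fun z => tau R z * u z := fun {u R} hR hu =>
    ((contDiff_tau R).continuous.mul hu).integrable_of_hasCompactSupport (hcs_tau hR).mul_right
  -- the main inequality
  have hmain : ∀ R, 1 ≤ R → (ε₀ - 2 * δ) * En F R ≤ C * Real.log (1 + En F R) + 2 * C * (∫ z, ‖gr (tau R) z‖ * l z) + (2 * C - avg 1 E) := by
    intro R hR
    have hE' : ∀ z ∈ tsupport (tau R), LogSing E (c z) z := fun z _ => hE z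
    have h1 := LogSing.mean1 ((contDiff_tau R).of_le (by norm_num)) (hcs_tau hR) hE'
    have h2 := LogSing.mean_tau hR (w := E) (c := c) fun z _ => hE z
    have h3 : 0 ≤ ∑ᶠ z, c z * tau R z := finsum_nonneg fun z => mul_nonneg (hc0 z) (tau_nonneg hR z)
    have h4 : ∫ z, tau R z * Δ E z ≤ avg R E - avg 1 E := by
      have h5 : 0 ≤ 2 * Real.pi * ∑ᶠ z, c z * tau R z := mul_nonneg (by positivity) h3
      linarith
    have hiE := LogSing.integrable_lap (contDiff_tau R).continuous (hcs_tau hR) hE'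
    have h5 : ∫ z, tau R z * dv η z ≤ C * ∫ z, ‖gr (tau R) z‖ * l z := by
      have h6 := ibp ((contDiff_tau R).of_le (by norm_num)) (hcs_tau hR) fun z _ => hη.contDiffAt (x := z)
      have h7 : Integrable fun z => ‖gr (tau R) z‖ * l z := by
        have h8 : Continuous fun z => ‖gr (tau R) z‖ * l z := (continuous_gr ((contDiff_tau R).of_le (by norm_num))).norm.mul hl
        exact h8.integrable_of_hasCompactSupport ((hasCompactSupport_gr (hcs_tau hR)).norm.mul_right)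
      have h8 : Integrable fun z => ip (gr (tau R) z) (η z) :=
        int_ip (continuous_gr ((contDiff_tau R).of_le (by norm_num))) (hasCompactSupport_gr (hcs_tau hR)) fun z _ => hη.continuous.continuousAt
      have h9 : ∫ z, tau R z * dv η z = ∫ z, - ip (gr (tau R) z) (η z) := by rw [integral_neg, h6, neg_neg]
      rw [h9, ← integral_const_mul]
      refine integral_mono h8.neg (h7.const_mul C) fun z => ?_
      have h10 := abs_ip_le (gr (tau R) z) (η z)
      have h11 := mul_le_mul_of_nonneg_left (hηb z) (norm_nonneg (gr (tau R) z))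
      calc -ip (gr (tau R) z) (η z) ≤ |ip (gr (tau R) z) (η z)| := neg_le_abs _
        _ ≤ ‖gr (tau R) z‖ * ‖η z‖ := h10
        _ ≤ C * (‖gr (tau R) z‖ * l z) := by linarith
    have hidv : Integrable fun z => tau R z * dv η z := by
      refine hint hR ?_
      exact continuous_iff_continuousAt.2 fun z => continuousAt_dv hη.contDiffAt
    have hierr : Integrable fun z => tau R z * err z := hint hR herr
    have h6 : ε₀ * En F R ≤ ∫ z, (tau R z * Δ E z + tau R z * dv η z + tau R z * err z) := by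
      rw [En, ← integral_const_mul]
      refine integral_mono_ae ((hint hR (hlc.pow 2)).const_mul ε₀) (by exact (hiE.add hidv).add hierr) ?_
      filter_upwards [ae_contDiffAt fun z => ⟨c z, hE z⟩] with z hz
      have h7 := mul_le_mul_of_nonneg_left (hlap z hz) (tau_nonneg hR z)
      linarith
    rw [integral_add (by exact hiE.add hidv) hierr, integral_add hiE hidv] at h6
    have h7 := herrb R hR
    have h8 := havg R hR
    linarith
  -- the logarithm
  set δ' : ℝ := ε₀ - 2 * δ with hδ'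
  have hδ0 : 0 < δ' := by linarith
  obtain ⟨C₁, hC₁⟩ : ∃ C₁ : ℝ, ∀ x : ℝ, 0 ≤ x → C * Real.log (1 + x) ≤ δ' / 2 * x + C₁ := by
    set b : ℝ := δ' / (2 * (C + 1)) with hb
    have hb0 : 0 < b := by positivity
    refine ⟨(C + 1) * (b + |Real.log b|), fun x hx => ?_⟩
    have h1 : Real.log (1 + x) ≤ b * x + (b + |Real.log b|) := by
      have h2 := Real.log_le_sub_one_of_pos (mul_pos hb0 (by linarith : (0 : ℝ) < 1 + x))
      rw [Real.log_mul hb0.ne' (by linarith : (1 + x) ≠ 0)] at h2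
      have h3 := neg_abs_le (Real.log b)
      linarith
    have h2 : 0 ≤ Real.log (1 + x) := Real.log_nonneg (by linarith)
    have h3 : C * Real.log (1 + x) ≤ (C + 1) * (b * x + (b + |Real.log b|)) := by
      have h4 : C * Real.log (1 + x) ≤ (C + 1) * Real.log (1 + x) := by nlinarith
      exact h4.trans (mul_le_mul_of_nonneg_left h1 (by linarith))
    have h4 : (C + 1) * (b * x) = δ' / 2 * x := by
      rw [hb]
      field_simp
    rw [mul_add, h4] at h3
    exact h3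
  have hne : ∃ z, l z ≠ 0 := by
    obtain ⟨z, hz⟩ := exists_lam_ne hF.diff hF0 hF.nc
    refine ⟨z, fun h0 => hz (le_antisymm ((hle z).trans h0.le) (lam_nonneg F z))⟩
  -- the selection
  have hq : 0 < δ' / (8 * (C + 1) * (|B| + 1)) := by positivity
  obtain ⟨R, -, hR, hsel⟩ := sel hl hl0 hne hq (δ' + |C₁| + |2 * C - avg 1 E|) 1
  have hE0 := En_nonneg F hR
  have h1 := hmain R hR
  have h2 := hC₁ (En F R) hE0
  have h3 := hB R hR
  have h4 : δ' / (8 * (C + 1) * (|B| + 1)) * (∫ z, tau R z * l z ^ 2) ≤ δ' / (8 * (C + 1)) * (En F R + 1) := by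
    have h5 : (∫ z, tau R z * l z ^ 2) ≤ (|B| + 1) * (En F R + 1) := by
      refine h3.trans ?_
      have := le_abs_self B
      nlinarith
    refine (mul_le_mul_of_nonneg_left h5 hq.le).trans (le_of_eq ?_)
    have : |B| + 1 ≠ 0 := by positivity
    field_simp
  have hL := hLen R
  have h5 : 2 * C * (∫ z, ‖gr (tau R) z‖ * l z) ≤ 2 * (C + 1) * (δ' / (8 * (C + 1)) * (En F R + 1) - (δ' + |C₁| + |2 * C - avg 1 E|)) := by
    have h6 : (∫ z, ‖gr (tau R) z‖ * l z) ≤ δ' / (8 * (C + 1)) * (En F R + 1) - (δ' + |C₁| + |2 * C - avg 1 E|) := by linarith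
    have h7 : 2 * C * (∫ z, ‖gr (tau R) z‖ * l z) ≤ 2 * (C + 1) * (∫ z, ‖gr (tau R) z‖ * l z) := by linarith
    exact h7.trans (mul_le_mul_of_nonneg_left h6 (by linarith))
  have h6 : 2 * (C + 1) * (δ' / (8 * (C + 1)) * (En F R + 1) - (δ' + |C₁| + |2 * C - avg 1 E|)) =
      δ' / 4 * (En F R + 1) - 2 * (C + 1) * (δ' + |C₁| + |2 * C - avg 1 E|) := by
    have : C + 1 ≠ 0 := by positivity
    field_simp
    ring
  have h7 : 2 * (δ' + |C₁| + |2 * C - avg 1 E|) ≤ 2 * (C + 1) * (δ' + |C₁| + |2 * C - avg 1 E|) := by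
    have h8 : 0 ≤ C * (δ' + |C₁| + |2 * C - avg 1 E|) := by positivity
    linarith
  have h8 := le_abs_self C₁
  have h9 := le_abs_self (2 * C - avg 1 E)
  have h10 := abs_nonneg C₁
  have h11 := abs_nonneg (2 * C - avg 1 E)
  have h12 : 0 ≤ δ' / 4 * En F R := by positivity
  have h13 : (ε₀ - 2 * δ) * En F R = δ' / 2 * En F R + δ' / 4 * En F R + δ' / 4 * En F R := by rw [← hδ']; ring
  linarith

end Pool.Agent.MQ

end
end

section

/-!
# SG BuC: a chart whose first axis is the direction of a curve of positive length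
-/

set_option autoImplicit false

open Topology Filter Metric

noncomputable section

namespace Pool.Agent.SG

open Pool.Agent.H36.BP (EN)
open Pool.Agent.H14.PP (IsCone CurveAt)
open Pool.Agent.H17BP (Surface IsChart)
open Pool.Agent.H22.W (PseudoLength)

variable {N : ℕ} {X : Set (EN N)}

/-- the curve in the chart -/
theorem curve_chart {σ : ℂ × ℂ → EN N} {τ : EN N → ℂ × ℂ} (hσ : IsChart X σ τ) {H : ℂ → EN N} (hH : CurveAt X H 0) (h0 : H 0 = σ 0) :
    AnalyticAt ℂ (fun z => τ (H z)) 0 ∧ τ (H 0) = 0 ∧ (∀ᶠ z in 𝓝 (0 : ℂ), ∃ c : ℂ, c ≠ 0 ∧ H z = c • σ (τ (H z))) ∧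
      CurveAt X (fun z => σ (τ (H z))) 0 := by
  have h1 : τ (H 0) = 0 := by
    rw [h0]
    exact hσ.left.self_of_nhds
  have h2 : AnalyticAt ℂ (fun z => τ (H z)) 0 := by
    have h3 : AnalyticAt ℂ τ (H 0) := by rw [h0]; exact hσ.τ_an
    exact h3.comp hH.1
  have h3 : Tendsto (fun z => τ (H z)) (𝓝 (0 : ℂ)) (𝓝 0) := by
    have := h2.continuousAt.tendsto
    rwa [h1] at this
  have h4 : Tendsto H (𝓝 (0 : ℂ)) (𝓝 (σ 0)) := by
    have := hH.1.continuousAt.tendsto
    rwa [h0] at this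
  refine ⟨h2, h1, ?_, ?_, ?_⟩
  · filter_upwards [h4.eventually hσ.right, hH.2] with z hz hzX
    exact hz hzX
  · have h5 : AnalyticAt ℂ σ (τ (H 0)) := by rw [h1]; exact hσ.σ_an
    exact AnalyticAt.comp (g := σ) (f := fun z => τ (H z)) h5 h2
  · exact h3.eventually hσ.σ_mem

theorem deriv_chart {σ : ℂ × ℂ → EN N} {τ : EN N → ℂ × ℂ} (hσ : IsChart X σ τ) {H : ℂ → EN N} (hH : CurveAt X H 0) (h0 : H 0 = σ 0) :
    deriv (fun z => σ (τ (H z))) 0 = fderiv ℂ σ 0 (deriv (fun z => τ (H z)) 0) := by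
  obtain ⟨h1, h2, -, -⟩ := curve_chart hσ hH h0
  have h3 : HasDerivAt (fun z => τ (H z)) (deriv (fun z => τ (H z)) 0) 0 := h1.differentiableAt.hasDerivAt
  have h4 : HasFDerivAt σ (fderiv ℂ σ 0) (τ (H 0)) := by
    rw [h2]
    exact hσ.σ_an.differentiableAt.hasFDerivAt
  exact (h4.comp_hasDerivAt 0 h3).deriv

/-- the length in the chart -/
theorem length_chart (hX : IsCone X) (n : PseudoLength X) {σ : ℂ × ℂ → EN N} {τ : EN N → ℂ × ℂ} (hσ : IsChart X σ τ) {H : ℂ → EN N}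
    (hH : CurveAt X H 0) (h0 : H 0 = σ 0) :
    n.toFun (H 0) (deriv H 0) = n.toFun (σ 0) (fderiv ℂ σ 0 (deriv (fun z => τ (H z)) 0)) := by
  obtain ⟨h1, h2, h3, h4⟩ := curve_chart hσ hH h0
  rw [n.lift_eq hX hH h4 h3, deriv_chart hσ hH h0, h2]

/-- **A chart whose first axis is the direction of the curve.** -/
theorem exists_chart_dir (hX : Surface X) (hc : IsCone X) (n : PseudoLength X) {H : ℂ → EN N} (hH : CurveAt X H 0)
    (hn : n.toFun (H 0) (deriv H 0) ≠ 0) :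
    ∃ (σ : ℂ × ℂ → EN N) (τ : EN N → ℂ × ℂ), IsChart X σ τ ∧ σ 0 = H 0 ∧ deriv (fun z => τ (H z)) 0 = (1, 0) ∧
      n.toFun (σ 0) (fderiv ℂ σ 0 (1, 0)) = n.toFun (H 0) (deriv H 0) := by
  obtain ⟨σ, τ, hσ, h0⟩ := hX.chart (H 0) hH.2.self_of_nhds
  obtain ⟨w, hw⟩ : ∃ w, w = deriv (fun z => τ (H z)) 0 := ⟨_, rfl⟩
  have h1 := length_chart hc n hσ hH h0.symm
  have hw0 : w ≠ 0 := by
    rintro rfl
    rw [← hw, map_zero] at h1
    have h2 : n.toFun (σ 0) 0 = 0 := by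
      obtain ⟨a1, a2, a3, a4⟩ := curve_chart hσ hH h0.symm
      have h3 := n.smul _ _ (Pool.Agent.H22.W.tan_curve a4) 0
      rw [zero_smul, norm_zero, zero_mul, a2] at h3
      exact h3
    rw [h2] at h1
    exact hn h1
  obtain ⟨e, he⟩ := Pool.Agent.H62.BU.exists_equiv hw0
  have hσ' : IsChart X (fun p => σ (e p)) (fun y => e.symm (τ y)) :=
    Pool.Agent.H62.BU.ofChart ((Pool.Agent.H62.BU.toChart hσ).comp_linear e)
  have h0' : H 0 = (fun p => σ (e p)) 0 := by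
    simp only [map_zero]
    exact h0.symm
  obtain ⟨b1, b2, -, -⟩ := curve_chart hσ hH h0.symm
  have hd : deriv (fun z => e.symm (τ (H z))) 0 = (1, 0) := by
    have h3 : HasDerivAt (fun z => τ (H z)) w 0 := by
      rw [hw]
      exact b1.differentiableAt.hasDerivAt
    have h4 := (e.symm : (ℂ × ℂ) →L[ℂ] (ℂ × ℂ)).hasFDerivAt.comp_hasDerivAt (0 : ℂ) h3
    have h5 : (e.symm : (ℂ × ℂ) →L[ℂ] (ℂ × ℂ)) w = (1, 0) := by
      rw [← he]
      simp
    rw [h5] at h4
    exact h4.deriv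
  refine ⟨_, _, hσ', h0'.symm, hd, ?_⟩
  have h6 := length_chart hc n hσ' hH h0'
  rw [hd] at h6
  exact h6.symm

end Pool.Agent.SG

end
end

section

/-!
# SG BubC: the normalised curves at a bubble

`bub_obj`: `Φ k z = (exp (v k z) / u 0) • F k z` converges to `z ^ M • G z`, `G z = (u z / u 0) • H z`, `G 0 = H 0 = σ 0`, and the curves `Φ k` are
not contained in the curve `T` whose secant cone does not contain the direction of `H`.
-/

set_option autoImplicit false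

open Topology Filter Metric

noncomputable section

namespace Pool.Agent.SG

open Pool.Agent.H36.BP (EN)
open Pool.Agent.H14.PP (IsCone CurveAt)
open Pool.Agent.H17BP (Surface IsChart IsForm Eqs)
open Pool.Agent.H22.W (PseudoLength)
open Pool.Agent.H74.NB (CC Obj)
open Pool.Agent.SY (Ent Energy BubbleAt Cls)

variable {N : ℕ} {X T T₀ : Set (EN N)}

/-- a curve in the direction of the first axis is not in `T` off the centre -/
theorem off_of_dir (hX : Surface X) (hTs : ∀ x ∈ T, ∀ c : ℂ, c ≠ 0 → c • x ∈ T) {σ : ℂ × ℂ → EN N} {τ : EN N → ℂ × ℂ} (hσ : IsChart X σ τ)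
    (hT : ∀ᶠ p in 𝓝 (0 : ℂ × ℂ), p.1 ≠ 0 → σ (p.1, p.1 * p.2) ∉ T) {H : ℂ → EN N} (hH : CurveAt X H 0) (h0 : H 0 = σ 0)
    (hd : deriv (fun z => τ (H z)) 0 = (1, 0)) : ∀ᶠ z in 𝓝[≠] (0 : ℂ), H z ∉ T := by
  obtain ⟨h1, h2, h3, -⟩ := curve_chart hσ hH h0
  have hder : HasDerivAt (fun z => τ (H z)) (1, 0) 0 := hd ▸ h1.differentiableAt.hasDerivAt
  have d1 : HasDerivAt (fun z => (τ (H z)).1) 1 0 := hder.fst
  have d2 : HasDerivAt (fun z => (τ (H z)).2) 0 0 := hder.snd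
  have e1 : (τ (H 0)).1 = 0 := by rw [h2]; rfl
  have e2 : (τ (H 0)).2 = 0 := by rw [h2]; rfl
  have l1 : Tendsto (fun z => z⁻¹ * (τ (H z)).1) (𝓝[≠] 0) (𝓝 1) := by
    have h4 := d1.tendsto_slope_zero
    simp only [zero_add, e1, sub_zero, smul_eq_mul] at h4
    exact h4
  have l2 : Tendsto (fun z => z⁻¹ * (τ (H z)).2) (𝓝[≠] 0) (𝓝 0) := by
    have h4 := d2.tendsto_slope_zero
    simp only [zero_add, e2, sub_zero, smul_eq_mul] at h4
    exact h4
  have l3 : Tendsto (fun z => (τ (H z)).2 / (τ (H z)).1) (𝓝[≠] 0) (𝓝 0) := by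
    have h4 := l2.div l1 one_ne_zero
    rw [zero_div] at h4
    refine h4.congr' ?_
    filter_upwards [self_mem_nhdsWithin] with z hz
    have hz' : z ≠ 0 := hz
    simp only [Pi.div_apply]
    rw [mul_div_mul_left _ _ (inv_ne_zero hz')]
  have l4 : Tendsto (fun z => (τ (H z)).1) (𝓝[≠] 0) (𝓝 0) := by
    have h4 := d1.continuousAt.tendsto
    rw [e1] at h4
    exact h4.mono_left nhdsWithin_le_nhds
  have l5 : Tendsto (fun z => (((τ (H z)).1, (τ (H z)).2 / (τ (H z)).1) : ℂ × ℂ)) (𝓝[≠] 0) (𝓝 0) := l4.prodMk_nhds l3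
  filter_upwards [l5.eventually hT, l1.eventually_ne one_ne_zero, h3.filter_mono nhdsWithin_le_nhds] with z g1 g2 g3 g4
  have g5 : (τ (H z)).1 ≠ 0 := fun h => g2 (by rw [h, mul_zero])
  have g6 := g1 g5
  rw [mul_div_cancel₀ _ g5] at g6
  obtain ⟨c, hc, g7⟩ := g3
  have g8 : σ (τ (H z)) = c⁻¹ • H z := by
    conv_rhs => rw [g7]
    rw [smul_smul, inv_mul_cancel₀ hc, one_smul]
  exact g6 (by rw [Prod.mk.eta, g8]; exact hTs _ g4 _ (inv_ne_zero hc))

/-- **The normalised curves at a bubble.** -/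
theorem bub_obj {κ : Type} {Q : κ → EN N → ℂ} {D : ℕ} (hX : Surface X) (hQ : Eqs X T Q D) {n : PseudoLength X} {𝒰 : Ultrafilter ℕ} {F : ℕ → ℂ → EN N}
    {v : ℕ → ℂ → ℂ} {H : ℂ → EN N} {u : ℂ → ℂ} {r : ℝ} {M : ℕ} (hb : BubbleAt X T₀ n 𝒰 F v H u r M) {σ : ℂ × ℂ → EN N} {τ : EN N → ℂ × ℂ}
    (hσ : IsChart X σ τ) (h0 : σ 0 = H 0) (hd : deriv (fun z => τ (H z)) 0 = (1, 0))
    (hT : ∀ᶠ p in 𝓝 (0 : ℂ × ℂ), p.1 ≠ 0 → σ (p.1, p.1 * p.2) ∉ T) :
    ∃ (Φ : ℕ → ℂ → EN N) (G : ℂ → EN N), Obj 𝒰 Φ 0 M G r ∧ (∀ᶠ k in (𝒰 : Filter ℕ), Ent X T (Φ k)) ∧ G 0 = σ 0 ∧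
      deriv (fun z => τ (G z)) 0 = (1, 0) := by
  have hTs : ∀ x ∈ T, ∀ c : ℂ, c ≠ 0 → c • x ∈ T := hQ.cone hX.smul
  have hu0 : u 0 ≠ 0 := hb.u_ne 0 (mem_ball_self hb.r_pos)
  obtain ⟨hobj, hXe⟩ := Pool.Agent.UC.obj_of_bubble hX hb
  have hcur : CurveAt X H 0 := ⟨hb.cls_H.1.diff.analyticAt 0, Eventually.of_forall hb.cls_H.1.mem⟩
  refine ⟨fun k z => (u 0)⁻¹ • (Complex.exp (v k z) • F k z), fun z => (u 0)⁻¹ • (u z • H z), ?_, ?_, ?_, ?_⟩
  · refine ⟨hobj.pos, ?_, ?_, ?_, ?_, ?_⟩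
    · filter_upwards [hobj.hol] with k hk
      exact hk.const_smul ((u 0)⁻¹)
    · filter_upwards [hobj.nz] with k hk z hz
      exact smul_ne_zero (inv_ne_zero hu0) (hk z hz)
    · intro z₀ hz₀ z hz
      have h1 := (hobj.cc z₀ hz₀ z hz).const_smul ((u 0)⁻¹)
      rw [smul_comm] at h1
      exact h1
    · exact hobj.holG.const_smul ((u 0)⁻¹)
    · exact smul_ne_zero (inv_ne_zero hu0) hobj.nzG
  · -- the curves are not in `T`
    have h1 := off_of_dir hX hTs hσ hT hcur h0.symm hd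
    have h2 : ∀ᶠ z in 𝓝[≠] (0 : ℂ), z ∈ ball (0 : ℂ) r := mem_nhdsWithin_of_mem_nhds (ball_mem_nhds _ hb.r_pos)
    obtain ⟨z, ⟨hz1, hz2⟩, hz3⟩ := ((h1.and h2).and self_mem_nhdsWithin).exists
    have hz3' : z ≠ 0 := hz3
    have h4 : ∃ i, Q i (H z) ≠ 0 := by
      by_contra hcon
      push Not at hcon
      exact hz1 ((hQ.mem_iff _).2 ⟨hb.cls_H.1.mem z, hcon⟩)
    obtain ⟨i, hi⟩ := h4
    have h5 := hobj.cc z hz2 (fun _ => z) tendsto_const_nhds
    have h6 : Tendsto (fun k => Q i (Complex.exp (v k z) • F k z)) 𝒰 (𝓝 (Q i ((z - 0) ^ M • (u z • H z)))) :=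
      ((hQ.an i _).continuousAt.tendsto).comp h5
    have h7 : Q i ((z - 0) ^ M • (u z • H z)) ≠ 0 := by
      rw [sub_zero, smul_smul, hQ.smul]
      exact mul_ne_zero (pow_ne_zero _ (mul_ne_zero (pow_ne_zero _ hz3') (hb.u_ne z hz2))) hi
    filter_upwards [h6.eventually_ne h7] with k hk
    refine ⟨?_, fun y => ?_, z, fun h => ?_⟩
    · exact ((hb.diff_v k).cexp.smul (hb.cls k).1.diff).const_smul ((u 0)⁻¹)
    · exact hX.smul _ (hX.smul _ ((hb.cls k).1.mem y) _ (Complex.exp_ne_zero _)) _ (inv_ne_zero hu0)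
    · have h8 := ((hQ.mem_iff _).1 h).2 i
      rw [hQ.smul] at h8
      exact hk ((mul_eq_zero.1 h8).resolve_left (pow_ne_zero _ (inv_ne_zero hu0)))
  · show (u 0)⁻¹ • (u 0 • H 0) = σ 0
    rw [smul_smul, inv_mul_cancel₀ hu0, one_smul, h0]
  · rw [← hd]
    refine Filter.EventuallyEq.deriv_eq ?_
    have huc : ContinuousAt u 0 := hb.diff_u.continuousOn.continuousAt (ball_mem_nhds _ hb.r_pos)
    have h1 : Tendsto (fun z => (H z, (u 0)⁻¹ * u z)) (𝓝 (0 : ℂ)) (𝓝 (σ 0, (1 : ℂ))) := by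
      refine Tendsto.prodMk_nhds ?_ ?_
      · rw [h0]
        exact hcur.1.continuousAt.tendsto
      · have h2 := (huc.const_mul ((u 0)⁻¹)).tendsto
        rwa [inv_mul_cancel₀ hu0] at h2
    filter_upwards [h1.eventually hσ.inv] with z hz
    rw [smul_smul]
    exact hz

end Pool.Agent.SG

end
end
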