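import Pool.Agent.H94.G6.H62.BU.FormK
import Pool.Agent.H94.G6.M107
import Pool.Agent.H94.G6.M131
import Pool.Agent.H94.G6.M135
import Pool.Agent.H94.G6.M136
import Pool.Agent.H94.G6.M41
import Pool.Agent.H94.G6.M45
import Pool.Agent.H94.G6.M73

/-! The parts of this file: H36.BPL.NodalK_1, H36.BPL.Wrap_1, H36.BPL.IndK, SY.EiN_1, SY.EiI. -/

section

/-!
# BPL NodalK: the nodal theorem for open surfaces
-/

set_option autoImplicit false

namespace Pool.Agent.H36.BPL

open Filter Topology Metric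
open Pool.Agent.H17 (PN HolomorphicInto puncturedDisc)
open Pool.Agent.H17BP (Surface IsChart IsForm NoZeros NodalAt)
open Pool.Agent.H36.BP
open Pool.Agent.H14.PP (IsCone IsOpenPart IsNodal Chart HasType DType gD aCoef Form IsEq)

variable {V : Type} [NormedAddCommGroup V] [NormedSpace ℂ V] {N : ℕ}

/-- **The nodal theorem for open surfaces**: `X` is a smooth closed surface in `ℙ(V)`, `K` an open part which is proper over an affine variety,
`T ⊇ X ∖ K` a curve with at most nodes, `Ω` a section of `m K_X - j H` on `K`, with poles of order at most `m - 1` along `X ∖ K` and without zeros in `K ∖ T`: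
if all nonconstant entire curves of order at most two in `K` lie in `T` then all holomorphic maps of the punctured disc into `K` which do not lie in `T` extend. -/
theorem nodalK_picard [FiniteDimensional ℂ V] {W : Type} [NormedAddCommGroup W] [InnerProductSpace ℂ W] {X K T : Set V} {m j M : ℕ} {Ω : V → V → V → ℂ}
    {Q : V → W} {D : ℕ} {Φ : V → Fin M → ℂ} (hX : Surface X) (hK : OpenPart X K) (hΦ : AffProper X K Φ) (hKT : ∀ x ∈ X, x ∉ K → x ∈ T)
    (hQ : ∀ x, AnalyticAt ℂ Q x) (hQs : ∀ (c : ℂ) (x : V), Q (c • x) = c ^ D • Q x)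
    (hT : ∀ x, x ∈ T ↔ x ∈ X ∧ Q x = 0) (hn : ∀ x ∈ T, PairNodalAt X K T x) (hm : 1 ≤ m) (hj : 1 ≤ j) (hΩ : IsForm K m j Ω) (hz : NoZeros K T Ω)
    (hpl : PoleLE X K (m - 1) Ω)
    (hBrody : ∀ h : ℂ → Projectivization ℂ V, HolInto h Set.univ → (∀ z, (h z).rep ∈ K) → OrdTwo (fun z => (h z).rep) → (∃ z w, h z ≠ h w) →
      ∀ z, (h z).rep ∈ T)
    (f : ℂ → Projectivization ℂ V) (hf : HolInto f puncturedDisc) (hfK : ∀ z ∈ puncturedDisc, (f z).rep ∈ K)
    (hfT : ∃ z ∈ puncturedDisc, (f z).rep ∉ T) :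
    ∃ g : ℂ → Projectivization ℂ V, HolInto g (ball 0 1) ∧ ∀ z ∈ puncturedDisc, g z = f z := by
  -- the isomorphism
  obtain ⟨z₁, hz₁, hz₁T⟩ := hfT
  have hpos : 0 < Module.finrank ℂ V := Module.finrank_pos_iff_exists_ne_zero.mpr ⟨(f z₁).rep, (f z₁).rep_nonzero⟩
  obtain ⟨N, hN⟩ : ∃ N, Module.finrank ℂ V = N + 1 := ⟨Module.finrank ℂ V - 1, by omega⟩
  let L : V ≃L[ℂ] EN N := ContinuousLinearEquiv.ofFinrankEq (by rw [hN]; simp)
  set X' : Set (EN N) := L.symm ⁻¹' X with hX'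
  set K' : Set (EN N) := L.symm ⁻¹' K with hK'
  set T' : Set (EN N) := L.symm ⁻¹' T with hT'
  have hTs : ∀ x ∈ T, ∀ c : ℂ, c ≠ 0 → c • x ∈ T := by
    intro x hx c hc
    obtain ⟨h1, h2⟩ := (hT x).mp hx
    exact (hT _).mpr ⟨hX.smul x h1 c hc, by rw [hQs, h2, smul_zero]⟩
  have hTX : T ⊆ X := fun x hx => ((hT x).mp hx).1
  have hcone : IsCone X' := isCone_transport L hX
  have hT's : ∀ x ∈ T', ∀ c : ℂ, c ≠ 0 → c • x ∈ T' := by
    intro x hx c hc
    show L.symm (c • x) ∈ T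
    rw [map_smul]
    exact hTs _ hx c hc
  have hK's : ∀ x ∈ K', ∀ c : ℂ, c ≠ 0 → c • x ∈ K' := by
    intro x hx c hc
    show L.symm (c • x) ∈ K
    rw [map_smul]
    exact hK.smul _ hx c hc
  have hopen : IsOpenPart X' K' := ⟨fun x hx => hK.sub hx, hK's, fun x hx => (L.symm.continuous.tendsto x).eventually (hK.rel _ hx)⟩
  have hnodal : IsNodal X' K' T' := by
    intro x hx
    have hxT : L.symm x ∈ T := hx
    obtain ⟨σ, τ, hc, h0, nd, d, hnd, hd, hdn⟩ := hn (L.symm x) hxT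
    have hg := germ_transport L hc
    have hLσ0 : L (σ 0) = x := by rw [h0, L.apply_symm_apply]
    have hnd' : ∀ᶠ p in 𝓝 (0 : ℂ × ℂ), (L (σ p) ∈ T' ↔ p.1 = 0 ∨ (nd = true ∧ p.2 = 0)) := by
      filter_upwards [hnd] with p hp
      rw [← hp]
      show L.symm (L (σ p)) ∈ T ↔ _
      rw [L.symm_apply_apply]
    have hd' : ∀ᶠ p in 𝓝 (0 : ℂ × ℂ), (L (σ p) ∉ K' ↔ (d.1 = true ∧ p.1 = 0) ∨ (d.2 = true ∧ p.2 = 0)) := by
      filter_upwards [hd] with p hp
      rw [← hp]
      show L.symm (L (σ p)) ∉ K ↔ _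
      rw [L.symm_apply_apply]
    obtain ⟨χ, h2, h3, h4, h5⟩ := exists_chart hcone hK's hT's hg hnd' hd'
    refine ⟨χ, nd, d, ?_, ?_, h4, h5, hdn⟩
    · rwa [hLσ0] at h2
    · rwa [hLσ0] at h3
  have heq : IsEq X' T' (fun y => Q (L.symm y)) D := by
    refine ⟨fun x => (hQ _).comp ((L.symm : EN N →L[ℂ] V).analyticAt x), fun c x => ?_, fun x => ?_⟩
    · show Q (L.symm (c • x)) = _
      rw [map_smul, hQs]
    · exact hT (L.symm x)
  have hnz : (formT L hΩ).NoZeroOff T' := by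
    intro x hx hxT v w hv hw hli
    refine hz (L.symm x) hx hxT _ (tan_transport L hv) _ (tan_transport L hw) ?_
    have h1 := hli.map' ((L.symm : EN N →L[ℂ] V) : EN N →ₗ[ℂ] V) (LinearMap.ker_eq_bot.mpr L.symm.injective)
    have h2 : (((L.symm : EN N →L[ℂ] V) : EN N →ₗ[ℂ] V) ∘ ![x, v, w]) = ![L.symm x, L.symm v, L.symm w] := by
      funext i
      fin_cases i <;> rfl
    rw [h2] at h1
    exact h1
  have hpole : (formT L hΩ).PoleBound X' := poleBound_transport L hΩ hpl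
  have hclX : ∀ x ∈ closure X', x ≠ 0 → x ∈ X' := fun x hx hx0 =>
    (hcone.closed.closure_subset_iff.mpr (Set.subset_insert 0 X') hx).resolve_left hx0
  obtain ⟨M', c₀, C, G, hM⟩ := Pool.Agent.H14.PP.exists_metric hcone hopen (fun x hx hxn => hKT _ hx hxn) heq hnodal hm hj (formT L hΩ) hnz hpole
    (hur_of_affProper (fun x hx hx0 => hclX x (closure_mono hopen.subset hx) hx0) hK's (affProper_transport L hΦ))
  -- Brody
  have hbm : BrodyMod2 K' (K' ∩ T') := by
    intro F hF hFK hne hord z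
    have hF0 : ∀ z, L.symm (F z) ≠ 0 := by
      intro z h
      apply hX.zero
      rw [← h]
      exact hK.sub (hFK z)
    have h1 : HolInto (fun z => Projectivization.mk ℂ (L.symm (F z)) (hF0 z)) Set.univ := by
      intro z₀ _
      exact ⟨fun z => L.symm (F z), ((L.symm : EN N →L[ℂ] V).analyticAt _).comp (hF.analyticAt z₀),
        Filter.Eventually.of_forall fun z => ⟨hF0 z, rfl⟩⟩
    have h2 : ∀ z, (Projectivization.mk ℂ (L.symm (F z)) (hF0 z)).rep ∈ K := by
      intro z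
      obtain ⟨a, ha, h3⟩ := rep_mk (hF0 z)
      rw [h3]
      exact hK.smul _ (hFK z) a ha
    have h20 : OrdTwo (fun z => (Projectivization.mk ℂ (L.symm (F z)) (hF0 z)).rep) := by
      refine (hord.equiv L.symm).congr fun z => ?_
      obtain ⟨a, ha, h3⟩ := rep_mk (hF0 z)
      exact ⟨a, ha, h3⟩
    have h3 := hBrody _ h1 h2 h20 (by
      obtain ⟨a, b, hab⟩ := hne
      refine ⟨a, b, fun h => ?_⟩
      rw [Projectivization.mk_eq_mk_iff'] at h
      obtain ⟨c, hc⟩ := h
      apply hab c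
      apply L.symm.injective
      rw [map_smul]
      exact hc.symm) z
    obtain ⟨a, ha, h4⟩ := rep_mk (hF0 z)
    rw [h4] at h3
    have h5 := hTs _ h3 a⁻¹ (inv_ne_zero ha)
    rw [smul_smul, inv_mul_cancel₀ ha, one_smul] at h5
    exact ⟨hFK z, h5⟩
  have hρ : ∀ x ∈ K', x ∈ K' ∩ T' → Pool.Agent.H14.PP.rho (fun y => Q (L.symm y)) D x = 0 := by
    intro x _ hx
    have h1 := ((hT _).mp hx.2).2
    unfold Pool.Agent.H14.PP.rho
    simp only
    rw [h1, norm_zero, zero_div]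
  obtain ⟨g, hg, hgf⟩ := picard_cone2 hM hbm (fun x hx c hc => ⟨hK's x hx.1 c hc, hT's x hx.2 c hc⟩) hρ (fun z => toPN L (f z)) (holomorphicInto_toPN L hf)
    (fun z hz => (toPN_mem L hK.smul (f z)).mpr (hfK z hz)) ⟨z₁, hz₁, fun h => hz₁T ((toPN_mem L hTs (f z₁)).mp h.2)⟩
  exact ⟨fun z => ofPN L (g z), holInto_ofPN L hg, fun z hz => by simp only; rw [hgf z hz, ofPN_toPN]⟩

end Pool.Agent.H36.BPL

end

section

/-!
# BPL Wrap: from maps into the projective space to functions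
-/

set_option autoImplicit false

open Topology Filter

noncomputable section

namespace Pool.Agent.H36.BPL

open Pool.Agent.H17 (puncturedDisc)
open Pool.Agent.H36.BP (HolInto rep_mk OrdTwo)
open Pool.Agent.H17BP (Surface IsChart IsForm NoZeros NodalAt Pr HolP Picard Eqs)

variable {V : Type} [NormedAddCommGroup V] [NormedSpace ℂ V]

/-- The extension theorem for an open surface with a nodal curve. -/
theorem nodalK [FiniteDimensional ℂ V] {X K T : Set V}
    {m j : ℕ} {Ω : V → V → V → ℂ} {κ : Type} [Fintype κ] {Q : κ → V → ℂ} {D : ℕ} (h : ModelK X K T m j Ω Q D)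
    (hn : ∀ x ∈ X, NodalAt X T x) : Picard K T := by
  have hX := h.surf.smul
  have hT : ∀ x ∈ T, ∀ c : ℂ, c ≠ 0 → c • x ∈ T := by
    intro x hx c hc
    have h1 := (h.eqs.mem_iff x).1 hx
    exact (h.eqs.mem_iff _).2 ⟨hX x h1.1 c hc, fun i => by rw [h.eqs.smul, h1.2 i, mul_zero]⟩
  have hTX : ∀ x ∈ T, x ∈ X := fun x hx => ((h.eqs.mem_iff x).1 hx).1
  obtain ⟨M, Φ, hΦ⟩ := h.aff
  refine W_picard (fun h0 => h.surf.zero (h.opn.sub h0)) h.opn.smul hT fun f hf hfX hfB => ?_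
  refine nodalK_picard (Q := W_Q Q) (D := D) h.surf h.opn hΦ h.sub (fun x => ?_) (fun c x => ?_) (fun x => ?_)
    (fun x hx => pairNodal_of_nodal h.opn h.sub (hTX x hx) hx (hn x (hTX x hx))) h.one_m h.one_j h.form h.noZeros h.pole
    (W_brody h.opn.smul h.brody) f hf hfX hfB
  · have h1 : AnalyticAt ℂ (fun x : V => fun i => Q i x) x := by
      rw [analyticAt_pi_iff]
      exact fun i => h.eqs.an i x
    exact AnalyticAt.comp (g := (WithLp.toLp 2 : (κ → ℂ) → EuclideanSpace ℂ κ)) (f := fun x : V => fun i => Q i x)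
      ((EuclideanSpace.equiv κ ℂ).symm.analyticAt _) h1
  · unfold W_Q
    rw [← WithLp.toLp_smul]
    congr 1
    funext i
    simp [h.eqs.smul]
  · rw [h.eqs.mem_iff]
    unfold W_Q
    constructor
    · rintro ⟨h1, h2⟩
      refine ⟨h1, ?_⟩
      have h3 : (fun i => Q i x) = (0 : κ → ℂ) := funext h2
      rw [h3]
      rfl
    · rintro ⟨h1, h2⟩
      refine ⟨h1, fun i => ?_⟩
      have h3 := congrFun (congrArg WithLp.ofLp h2) i
      exact h3

end Pool.Agent.H36.BPL

end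
end

section

/-!
# BPL IndK: the induction over the blow-ups for open surfaces
-/

set_option autoImplicit false

open Topology Filter

noncomputable section

namespace Pool.Agent.H36.BPL

open Pool.Agent.H62.BU (blow total Ker phi om phi_smul)
open Pool.Agent.H17BP (Surface IsChart IsForm NoZeros NodalAt Pr HolP Picard Eqs ResAt eqs_blow thin_blow resAt_blow exists_forms exists_finset_of_isolated exists_resAt)

/-- The blow-up of a model at a point of the curve is a model. -/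
theorem modelK_blow {V : Type} [NormedAddCommGroup V] [NormedSpace ℂ V] [FiniteDimensional ℂ V] {ι : Type} [Fintype ι] {l : ι → V →L[ℂ] ℂ}
    {X K T : Set V} {q : V} {m j : ℕ} {Ω : V → V → V → ℂ} {κ : Type} {Q : κ → V → ℂ} {D : ℕ} (h : ModelK X K T m j Ω Q D) (hl : Ker l q) (hq : q ∈ T) :
    ModelK (blow l X) (total l X K) (total l X T) (2 * m) j (om l j Ω) (fun (p : κ × ι) (y : ι → V) => Q p.1 (y p.2)) D where
  surf := Pool.Agent.H17BP.surface_iff.1 (Pool.Agent.H62.BU.surface_blow (Pool.Agent.H17BP.surface_iff.2 h.surf) hl (h.eqs.sub hq))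
  opn := openPart_blow h.surf h.opn
  aff := by
    obtain ⟨M, Φ, hΦ⟩ := h.aff
    obtain ⟨Ψ, hΨ⟩ := affProper_blow (l := l) h.surf h.opn hΦ
    exact ⟨M, Ψ, hΨ⟩
  sub y hy hyK := by
    refine ⟨hy, fun b hb => ?_⟩
    have h1 : y b ∉ K := fun h2 => hyK ((mem_totalK h.surf h.opn.smul hy hb).mpr h2)
    exact h.sub _ (comp_mem h.surf hy hb) h1
  one_m := by have := h.one_m; omega
  one_j := h.one_j
  form := Pool.Agent.H62.BU.formK h.opn h.form
  noZeros := Pool.Agent.H62.BU.noZerosK h.surf h.opn h.form (h.eqs.cone h.surf.smul) hl hq h.noZeros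
  pole := (Pool.Agent.H62.BU.poleLE_om h.surf h.opn h.form h.pole).mono (by have := h.one_m; omega)
  eqs := eqs_blow h.surf h.eqs
  thin := fun σ τ h' => thin_blow h.surf h.eqs h.thin hl hq h'
  brody := brodyK_blow h.surf hl h.opn.smul (h.eqs.cone h.surf.smul) hq h.brody

/-- The extension theorem for models which are resolved by `n` blow-ups over every point. -/
def PicardKN (n : ℕ) : Prop :=
  ∀ (V : Type) [NormedAddCommGroup V] [NormedSpace ℂ V] [FiniteDimensional ℂ V] (X K T : Set V) (m j : ℕ)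
    (Ω : V → V → V → ℂ) (κ : Type) [Fintype κ] (Q : κ → V → ℂ) (D : ℕ), ModelK X K T m j Ω Q D →
    (∀ x ∈ X, ResAt X T x n) → Picard K T

theorem picardKN_zero : PicardKN 0 := by
  intro V _ _ _ X K T m j Ω κ _ Q D h h0
  exact nodalK h fun x hx => (h0 x hx).nodal

theorem phi_pr {V : Type} [NormedAddCommGroup V] [NormedSpace ℂ V] {ι : Type} [Fintype ι]
    {l : ι → V →L[ℂ] ℂ} {x y : V} (h : Pr x y) : Pr (phi l x) (phi l y) := by
  obtain ⟨c, hc, rfl⟩ := h
  exact ⟨c ^ 2, pow_ne_zero _ hc, phi_smul c y⟩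

theorem picardKN_step {n : ℕ} (ih : PicardKN n) : ∀ (k : ℕ) (V : Type) [NormedAddCommGroup V] [NormedSpace ℂ V]
    [FiniteDimensional ℂ V] (X K T : Set V) (m j : ℕ) (Ω : V → V → V → ℂ) (κ : Type) [Fintype κ]
    (Q : κ → V → ℂ) (D : ℕ), ModelK X K T m j Ω Q D → (∀ x ∈ X, ResAt X T x (n + 1)) →
    (∃ F : Finset V, F.card ≤ k ∧ ∀ x ∈ X, ResAt X T x n ∨ ∃ q ∈ F, Pr x q) → Picard K T := by
  intro k
  induction k with
  | zero =>
    intro V _ _ _ X K T m j Ω κ _ Q D h h0 hF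
    obtain ⟨F, hF1, hF2⟩ := hF
    have hF0 : F = ∅ := Finset.card_eq_zero.1 (by omega)
    refine ih V X K T m j Ω κ Q D h fun x hx => ?_
    rcases hF2 x hx with h1 | ⟨q, hq, -⟩
    · exact h1
    · rw [hF0] at hq
      simp at hq
  | succ k ihk =>
    intro V _ _ _ X K T m j Ω κ _ Q D h h0 hF
    obtain ⟨F, hF1, hF2⟩ := hF
    have hX := h.surf.smul
    have hB := h.eqs.cone h.surf.smul
    by_cases hall : ∀ x ∈ X, ResAt X T x n
    · exact ih V X K T m j Ω κ Q D h hall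
    push Not at hall
    obtain ⟨x₀, hx₀, hx₀n⟩ := hall
    rcases hF2 x₀ hx₀ with h1 | ⟨q, hqF, hxq⟩
    · exact absurd h1 hx₀n
    have hqX : q ∈ X := (hxq.mem_iff hX).1 hx₀
    have hqn : ¬ ResAt X T q n := fun h1 => hx₀n (h1.pr hX hB hxq)
    have hq0 : ¬ ResAt X T q 0 := fun h1 => hqn (h1.mono_le (Nat.zero_le n))
    have hqB : q ∈ T := by
      by_contra hqB
      exact hq0 (ResAt.of_notMem h.surf h.eqs hqX hqB)
    have hqne : q ≠ 0 := fun e => h.surf.zero (e ▸ hqX)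
    obtain ⟨r, l, hl⟩ := exists_forms hqne
    classical
    refine picardK_blow h.surf hl h.opn.sub h.opn.smul h.eqs.sub hB hqB ?_
    refine ihk (Fin r → V) (blow l X) (total l X K) (total l X T) (2 * m) j (om l j Ω) (κ × Fin r) _ D
      (modelK_blow h hl hqB) ?_ ⟨(F.erase q).image (phi l), ?_, ?_⟩
    · intro y hy
      rcases resAt_blow h.surf h.eqs hl hqB (h0 q hqX) hq0 hy with h1 | ⟨x, hx, -, -, h2⟩
      · exact h1.mono_le (Nat.le_succ n)
      · exact h2 _ (h0 x hx)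
    · have h1 := Finset.card_image_le (s := F.erase q) (f := phi l)
      have h2 := Finset.card_erase_of_mem hqF
      omega
    · intro y hy
      rcases resAt_blow h.surf h.eqs hl hqB (h0 q hqX) hq0 hy with h1 | ⟨x, hx, hxq', hyx, h2⟩
      · exact Or.inl h1
      · rcases hF2 x hx with h3 | ⟨q', hq'F, hxq''⟩
        · exact Or.inl (h2 _ h3)
        · refine Or.inr ⟨phi l q', Finset.mem_image_of_mem _ (Finset.mem_erase.2 ⟨?_, hq'F⟩),
            hyx.trans (phi_pr hxq'')⟩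
          rintro rfl
          exact hxq' hxq''

/-- At all but finitely many points the curve is a monomial in local coordinates. -/
theorem ModelK.exists_finset {V : Type} [NormedAddCommGroup V] [NormedSpace ℂ V] [FiniteDimensional ℂ V]
    {X K T : Set V} {m j : ℕ} {Ω : V → V → V → ℂ} {κ : Type} {Q : κ → V → ℂ} {D : ℕ}
    (h : ModelK X K T m j Ω Q D) :
    ∃ F : Finset V, (∀ q ∈ F, q ∈ X) ∧ ∀ x ∈ X, ResAt X T x 0 ∨ ∃ q ∈ F, Pr x q := by
  have hX := h.surf.smul
  have hB := h.eqs.cone h.surf.smul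
  refine exists_finset_of_isolated h.surf (fun x y hxy hy => hy.pr hX hB hxy) fun x hx => ?_
  obtain ⟨n, hn⟩ := exists_resAt h.surf h.eqs h.thin hx
  exact hn.near hX hB

theorem picardKN (n : ℕ) : PicardKN n := by
  induction n with
  | zero => exact picardKN_zero
  | succ n ih =>
    intro V _ _ _ X K T m j Ω κ _ Q D h h0
    obtain ⟨F, -, hF⟩ := h.exists_finset
    refine picardKN_step ih F.card V X K T m j Ω κ Q D h h0 ⟨F, le_rfl, fun x hx => ?_⟩
    rcases hF x hx with h1 | h1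
    · exact Or.inl (h1.mono_le (Nat.zero_le n))
    · exact Or.inr h1

/-- **The extension theorem.** -/
theorem picard_of_modelK {V : Type} [NormedAddCommGroup V] [NormedSpace ℂ V] [FiniteDimensional ℂ V]
    {X K T : Set V} {m j : ℕ} {Ω : V → V → V → ℂ} {κ : Type} [Fintype κ] {Q : κ → V → ℂ} {D : ℕ}
    (h : ModelK X K T m j Ω Q D) : Picard K T := by
  classical
  have hX := h.surf.smul
  have hB := h.eqs.cone h.surf.smul
  obtain ⟨F, hFX, hF⟩ := h.exists_finset
  have h1 : ∀ q : V, ∃ n, q ∈ F → ResAt X T q n := by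
    intro q
    by_cases hq : q ∈ F
    · obtain ⟨n, hn⟩ := exists_resAt h.surf h.eqs h.thin (hFX q hq)
      exact ⟨n, fun _ => hn⟩
    · exact ⟨0, fun h2 => absurd h2 hq⟩
  choose n hn using h1
  refine picardKN (F.sup n) V X K T m j Ω κ Q D h fun x hx => ?_
  rcases hF x hx with h2 | ⟨q, hq, hxq⟩
  · exact h2.mono_le (Nat.zero_le _)
  · exact ((hn q hq).mono_le (Finset.le_sup (f := n) hq)).pr hX hB hxq

end Pool.Agent.H36.BPL

end
end

section

/-!
# SY EiN: the metric along entire curves, the nodal case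

`H14.KB.nodal_metric` gives the metric on the cone `L.symm ⁻¹' X` in `EN N`, `energy_of_metric` the metric along the entire curves in it; both are
pulled back by `L`.
-/

set_option autoImplicit false

open Topology Filter Metric

noncomputable section

namespace Pool.Agent.SY

open Pool.Agent.H36.BP (EN fs wd Sub MetricData mt Curve)
open Pool.Agent.H17BP (Pr Surface IsForm NoZeros NodalAt Eqs IsChart)
open Pool.Agent.H14.PP (IsCone)
open Pool.Agent.H14.KB (rhoS rhoS_nonneg)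

variable {V : Type} [NormedAddCommGroup V] [NormedSpace ℂ V]

/-- MODULE EiN: the nodal case. -/
theorem energy_nodal [FiniteDimensional ℂ V] {X T : Set V} {m j : ℕ}
    {Ω : V → V → V → ℂ} {κ : Type} [Fintype κ] {Q : κ → V → ℂ} {D : ℕ} (h : ModelS X T m j Ω Q D) (hn : ∀ x ∈ X, NodalAt X T x)
    {N : ℕ} (L : V ≃L[ℂ] EN N) :
    ∃ (M : ℕ) (c₀ C : ℝ) (g : (ℂ → V) → ℂ → ℝ), 1 ≤ M ∧ Energy X T (fun x => ‖L x‖) (rhoS Q D) M c₀ C g := by
  have hne : ∀ x ∈ X, x ≠ 0 := fun x hx e => h.surf.zero (e ▸ hx)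
  have hTs := h.eqs.cone h.surf.smul
  obtain ⟨heq, M, c₀, C, G, hM⟩ := Pool.Agent.H14.KB.nodal_metric L (Q := EiN_Q Q) (D := D) h.surf (fun x => by
    have h1 : AnalyticAt ℂ (fun x : V => fun i => Q i x) x := by
      rw [analyticAt_pi_iff]
      exact fun i => h.eqs.an i x
    exact AnalyticAt.comp (g := (WithLp.toLp 2 : (κ → ℂ) → EuclideanSpace ℂ κ))
      (f := fun x : V => fun i => Q i x) ((EuclideanSpace.equiv κ ℂ).symm.analyticAt _) h1)
    (fun c x => by
      unfold EiN_Q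
      rw [← WithLp.toLp_smul]
      congr 1
      funext i
      simp [h.eqs.smul]) (B := T) (fun x => by
      rw [h.eqs.mem_iff]
      unfold EiN_Q
      constructor
      · rintro ⟨h1, h2⟩
        refine ⟨h1, ?_⟩
        have h3 : (fun i => Q i x) = (0 : κ → ℂ) := funext h2
        rw [h3]
        rfl
      · rintro ⟨h1, h2⟩
        refine ⟨h1, fun i => ?_⟩
        have h3 := congrFun (congrArg WithLp.ofLp h2) i
        exact h3) hn h.one_m h.one_j h.form h.noZeros
  have hcone : IsCone (L.symm ⁻¹' X : Set (EN N)) := Pool.Agent.H36.BP.isCone_transport L h.surf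
  obtain ⟨K₁, hK₁, hK₁b⟩ := Pool.Agent.H14.PP.exists_rho_bound hcone heq
  obtain ⟨C₁, E⟩ := energy_of_metric hcone hM (fun x hx c hc => by
    show L.symm (c • x) ∈ T
    rw [map_smul]
    exact hTs _ hx c hc)
  set A : ℝ := ‖(L : V →L[ℂ] EN N)‖ with hA
  have hA0 : 0 ≤ A := norm_nonneg _
  have hρ : ∀ x ∈ X, rhoS Q D x ≤ A ^ D * Pool.Agent.H14.PP.rho (fun y => EiN_Q Q (L.symm y)) D (L x) := by
    intro x hx
    have hx0 : 0 < ‖x‖ := norm_pos_iff.mpr (hne x hx)
    have hLx0 : 0 < ‖L x‖ := norm_pos_iff.mpr fun h0 => hne x hx (L.map_eq_zero_iff.mp h0)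
    unfold rhoS Pool.Agent.H14.PP.rho
    simp only
    rw [L.symm_apply_apply, ← mul_div_assoc, div_le_div_iff₀ (by positivity) (by positivity)]
    have h1 : ‖fun i => Q i x‖ ≤ ‖EiN_Q Q x‖ := by
      refine (pi_norm_le_iff_of_nonneg (norm_nonneg _)).mpr fun i => ?_
      exact PiLp.norm_apply_le (EiN_Q Q x) i
    have h2 : ‖L x‖ ≤ A * ‖x‖ := (L : V →L[ℂ] EN N).le_opNorm x
    calc ‖fun i => Q i x‖ * ‖L x‖ ^ D ≤ ‖EiN_Q Q x‖ * (A * ‖x‖) ^ D := by gcongr
      _ = A ^ D * ‖EiN_Q Q x‖ * ‖x‖ ^ D := by rw [mul_pow]; ring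
  have hρ2 : ∀ x ∈ X, rhoS Q D x ≤ A ^ D * K₁ := by
    intro x hx
    refine (hρ x hx).trans (mul_le_mul_of_nonneg_left (hK₁b _ ?_) (by positivity))
    show L.symm (L x) ∈ X
    rwa [L.symm_apply_apply]
  obtain ⟨C', E'⟩ := energy_transport L (rho := rhoS Q D) E (A := A ^ D) (K₁ := A ^ D * K₁) (by positivity) (by positivity)
    (fun x _ => rhoS_nonneg Q D x) (fun x _ => Pool.Agent.H14.PP.rho_nonneg _ _ _) hρ hρ2
  exact ⟨M + 1, c₀, C', _, by omega, E'⟩

end Pool.Agent.SY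

end
end

section

/-!
# SY EiI: the induction over the blow-ups
-/

set_option autoImplicit false

open Topology Filter Metric

noncomputable section

namespace Pool.Agent.SY

open Pool.Agent.H36.BP (EN fs wd Sub)
open Pool.Agent.H17BP (Pr Surface IsForm NoZeros NodalAt Eqs IsChart ResAt eqs_blow thin_blow resAt_blow exists_forms exists_finset_of_isolated exists_resAt phi_pr isForm_iff noZeros_iff surface_iff)
open Pool.Agent.H14.KB (rhoS)
open Pool.Agent.H62.BU (blow total Ker phi om phi_smul)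

/-- The blow-up of a model at a point of the curve is a model. -/
theorem modelS_blow {V : Type} [NormedAddCommGroup V] [NormedSpace ℂ V] [FiniteDimensional ℂ V] {ι : Type} [Fintype ι] {l : ι → V →L[ℂ] ℂ}
    {X T : Set V} {q : V} {m j : ℕ} {Ω : V → V → V → ℂ} {κ : Type} {Q : κ → V → ℂ} {D : ℕ} (h : ModelS X T m j Ω Q D) (hl : Ker l q) (hq : q ∈ T) :
    ModelS (blow l X) (total l X T) (2 * m) j (om l j Ω) (fun (p : κ × ι) (y : ι → V) => Q p.1 (y p.2)) D where
  surf := surface_iff.1 (Pool.Agent.H62.BU.surface_blow (surface_iff.2 h.surf) hl (h.eqs.sub hq))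
  one_m := by have := h.one_m; omega
  one_j := h.one_j
  form := isForm_iff.1 (Pool.Agent.H62.BU.isForm_om (surface_iff.2 h.surf) (isForm_iff.2 h.form))
  noZeros := noZeros_iff.1 (Pool.Agent.H62.BU.noZero_om (surface_iff.2 h.surf) (isForm_iff.2 h.form)
    (h.eqs.cone h.surf.smul) (fun v hv => (hl v).1 hv) hq (noZeros_iff.2 h.noZeros))
  eqs := eqs_blow h.surf h.eqs
  thin := fun σ τ h' => thin_blow h.surf h.eqs h.thin hl hq h'

/-- The conclusion. -/
def HasEnergy {V : Type} [NormedAddCommGroup V] [NormedSpace ℂ V] (X T : Set V) {κ : Type} [Fintype κ] (Q : κ → V → ℂ) (D : ℕ) : Prop :=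
  ∀ (N : ℕ) (L : V ≃L[ℂ] EN N), ∃ (M : ℕ) (c₀ C : ℝ) (g : (ℂ → V) → ℂ → ℝ), 1 ≤ M ∧ Energy X T (fun x => ‖L x‖) (rhoS Q D) M c₀ C g

/-- The descent of the metric from the blow-up. -/
theorem energy_blow {V : Type} [NormedAddCommGroup V] [NormedSpace ℂ V] [FiniteDimensional ℂ V] {r : ℕ} {l : Fin r → V →L[ℂ] ℂ}
    {X T : Set V} {q : V} {m j : ℕ} {Ω : V → V → V → ℂ} {κ : Type} [Fintype κ] {Q : κ → V → ℂ} {D : ℕ} (h : ModelS X T m j Ω Q D)
    (hl : Ker l q) (hq : q ∈ T)
    (H : HasEnergy (blow l X) (total l X T) (fun (p : κ × Fin r) (y : Fin r → V) => Q p.1 (y p.2)) D) : HasEnergy X T Q D := by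
  intro N L
  have hX := h.surf
  have hTX : T ⊆ X := h.eqs.sub
  have hT := h.eqs.cone h.surf.smul
  have hr : 0 < r := by
    rcases Nat.eq_zero_or_pos r with h0 | h0
    · exfalso
      subst h0
      obtain ⟨σ, τ, hσ, hσ0⟩ := hX.chart q (hTX hq)
      obtain ⟨p, hp, hp2⟩ := ((h.thin σ τ hσ).and_eventually hσ.σ_mem).exists
      obtain ⟨c, hc⟩ := (hl (σ p)).1 fun i => i.elim0
      have hc0 : c ≠ 0 := by
        rintro rfl
        rw [zero_smul] at hc
        exact hX.zero (hc ▸ hp2)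
      exact hp (hc ▸ hT q hq c hc0)
    · exact h0
  obtain ⟨N', L', hL'⟩ := exists_equiv_sum L r hr
  obtain ⟨M, c₀, C, g, hM, E⟩ := H N' L'
  refine ⟨M, c₀, C, down l X T g, hM, ?_⟩
  exact
  { c₀_pos := E.c₀_pos
    C_pos := E.C_pos
    nonneg := fun F hF z => by
      obtain ⟨Φ, hΦ⟩ := exists_liftB hX hl hTX hT hq hF
      rw [down_eq hX hl hTX hT hq E hF hΦ]
      exact E.nonneg Φ hΦ.1 z
    usc := fun F hF z a hz => by
      obtain ⟨Φ, hΦ⟩ := exists_liftB hX hl hTX hT hq hF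
      rw [down_eq hX hl hTX hT hq E hF hΦ] at hz ⊢
      exact E.usc Φ hΦ.1 z a hz
    aff := fun F hF a b ha z => down_aff hX hl hTX hT hq E hF ha z
    unit := fun F hF u hu h0 z => down_unit hX hl hTX hT hq E hF hu h0 z
    sub := fun F hF z hz => down_sub hL' hX hl hTX hT hq E hF z hz
    lower := fun F hF z => down_lower hX hl h.eqs hq hM E hF z
    lim := fun u hu r' A ε hr' hε F K hF hA hB hc hK => down_lim hX hl hTX hT hq E u hu r' A ε hr' hε F K hF hA hB hc hK }

/-- The statement for models which are resolved by `n` blow-ups over every point. -/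
def EnN (n : ℕ) : Prop :=
  ∀ (V : Type) [NormedAddCommGroup V] [NormedSpace ℂ V] [FiniteDimensional ℂ V] (X T : Set V) (m j : ℕ)
    (Ω : V → V → V → ℂ) (κ : Type) [Fintype κ] (Q : κ → V → ℂ) (D : ℕ), ModelS X T m j Ω Q D →
    (∀ x ∈ X, ResAt X T x n) → HasEnergy X T Q D

theorem enN_zero : EnN 0 := by
  intro V _ _ _ X T m j Ω κ _ Q D h h0 N L
  exact energy_nodal h (fun x hx => (h0 x hx).nodal) L

theorem enN_step {n : ℕ} (ih : EnN n) : ∀ (k : ℕ) (V : Type) [NormedAddCommGroup V] [NormedSpace ℂ V]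
    [FiniteDimensional ℂ V] (X T : Set V) (m j : ℕ) (Ω : V → V → V → ℂ) (κ : Type) [Fintype κ]
    (Q : κ → V → ℂ) (D : ℕ), ModelS X T m j Ω Q D → (∀ x ∈ X, ResAt X T x (n + 1)) →
    (∃ F : Finset V, F.card ≤ k ∧ ∀ x ∈ X, ResAt X T x n ∨ ∃ q ∈ F, Pr x q) → HasEnergy X T Q D := by
  intro k
  induction k with
  | zero =>
    intro V _ _ _ X T m j Ω κ _ Q D h h0 hF
    obtain ⟨F, hF1, hF2⟩ := hF
    have hF0 : F = ∅ := Finset.card_eq_zero.1 (by omega)
    refine ih V X T m j Ω κ Q D h fun x hx => ?_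
    rcases hF2 x hx with h1 | ⟨q, hq, -⟩
    · exact h1
    · rw [hF0] at hq
      simp at hq
  | succ k ihk =>
    intro V _ _ _ X T m j Ω κ _ Q D h h0 hF
    obtain ⟨F, hF1, hF2⟩ := hF
    have hX := h.surf.smul
    have hB := h.eqs.cone h.surf.smul
    by_cases hall : ∀ x ∈ X, ResAt X T x n
    · exact ih V X T m j Ω κ Q D h hall
    push Not at hall
    obtain ⟨x₀, hx₀, hx₀n⟩ := hall
    rcases hF2 x₀ hx₀ with h1 | ⟨q, hqF, hxq⟩
    · exact absurd h1 hx₀n
    have hqX : q ∈ X := (hxq.mem_iff hX).1 hx₀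
    have hqn : ¬ ResAt X T q n := fun h1 => hx₀n (h1.pr hX hB hxq)
    have hq0 : ¬ ResAt X T q 0 := fun h1 => hqn (h1.mono_le (Nat.zero_le n))
    have hqB : q ∈ T := by
      by_contra hqB
      exact hq0 (ResAt.of_notMem h.surf h.eqs hqX hqB)
    have hqne : q ≠ 0 := fun e => h.surf.zero (e ▸ hqX)
    obtain ⟨r, l, hl⟩ := exists_forms hqne
    classical
    refine energy_blow h hl hqB ?_
    refine ihk (Fin r → V) (blow l X) (total l X T) (2 * m) j (om l j Ω) (κ × Fin r) _ D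
      (modelS_blow h hl hqB) ?_ ⟨(F.erase q).image (phi l), ?_, ?_⟩
    · intro y hy
      rcases resAt_blow h.surf h.eqs hl hqB (h0 q hqX) hq0 hy with h1 | ⟨x, hx, -, -, h2⟩
      · exact h1.mono_le (Nat.le_succ n)
      · exact h2 _ (h0 x hx)
    · have h1 := Finset.card_image_le (s := F.erase q) (f := phi l)
      have h2 := Finset.card_erase_of_mem hqF
      omega
    · intro y hy
      rcases resAt_blow h.surf h.eqs hl hqB (h0 q hqX) hq0 hy with h1 | ⟨x, hx, hxq', hyx, h2⟩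
      · exact Or.inl h1
      · rcases hF2 x hx with h3 | ⟨q', hq'F, hxq''⟩
        · exact Or.inl (h2 _ h3)
        · refine Or.inr ⟨phi l q', Finset.mem_image_of_mem _ (Finset.mem_erase.2 ⟨?_, hq'F⟩),
            hyx.trans (phi_pr hxq'')⟩
          rintro rfl
          exact hxq' hxq''

/-- At all but finitely many points the curve is a monomial in local coordinates. -/
theorem ModelS.exists_finset {V : Type} [NormedAddCommGroup V] [NormedSpace ℂ V] [FiniteDimensional ℂ V]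
    {X T : Set V} {m j : ℕ} {Ω : V → V → V → ℂ} {κ : Type} {Q : κ → V → ℂ} {D : ℕ}
    (h : ModelS X T m j Ω Q D) :
    ∃ F : Finset V, (∀ q ∈ F, q ∈ X) ∧ ∀ x ∈ X, ResAt X T x 0 ∨ ∃ q ∈ F, Pr x q := by
  have hX := h.surf.smul
  have hB := h.eqs.cone h.surf.smul
  refine exists_finset_of_isolated h.surf (fun x y hxy hy => hy.pr hX hB hxy) fun x hx => ?_
  obtain ⟨n, hn⟩ := exists_resAt h.surf h.eqs h.thin hx
  exact hn.near hX hB

theorem enN (n : ℕ) : EnN n := by
  induction n with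
  | zero => exact enN_zero
  | succ n ih =>
    intro V _ _ _ X T m j Ω κ _ Q D h h0
    obtain ⟨F, -, hF⟩ := h.exists_finset
    refine enN_step ih F.card V X T m j Ω κ Q D h h0 ⟨F, le_rfl, fun x hx => ?_⟩
    rcases hF x hx with h1 | h1
    · exact Or.inl (h1.mono_le (Nat.zero_le n))
    · exact Or.inr h1

/-- The metric along the entire curves of a surface with a curve in it. -/
theorem energy_of_model {V : Type} [NormedAddCommGroup V] [NormedSpace ℂ V] {X T : Set V}
    [FiniteDimensional ℂ V] {m j : ℕ} {Ω : V → V → V → ℂ} {κ : Type} [Fintype κ] {Q : κ → V → ℂ} {D : ℕ}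
    (h : ModelS X T m j Ω Q D) {N : ℕ} (L : V ≃L[ℂ] EN N) :
    ∃ (M : ℕ) (c₀ C : ℝ) (g : (ℂ → V) → ℂ → ℝ), 1 ≤ M ∧ Energy X T (fun x => ‖L x‖) (rhoS Q D) M c₀ C g := by
  classical
  have hX := h.surf.smul
  have hB := h.eqs.cone h.surf.smul
  obtain ⟨F, hFX, hF⟩ := h.exists_finset
  have h1 : ∀ q : V, ∃ n, q ∈ F → ResAt X T q n := by
    intro q
    by_cases hq : q ∈ F
    · obtain ⟨n, hn⟩ := exists_resAt h.surf h.eqs h.thin (hFX q hq)
      exact ⟨n, fun _ => hn⟩
    · exact ⟨0, fun h2 => absurd h2 hq⟩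
  choose n hn using h1
  refine enN (F.sup n) V X T m j Ω κ Q D h (fun x hx => ?_) N L
  rcases hF x hx with h2 | ⟨q, hq, hxq⟩
  · exact h2.mono_le (Nat.zero_le _)
  · exact ((hn q hq).mono_le (Finset.le_sup (f := n) hq)).pr hX hB hxq

end Pool.Agent.SY

end
end
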