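import Pool.Agent.H94.G6.M106
import Pool.Agent.H94.G6.M78
import Pool.Agent.H94.G6.M79

/-! The parts of this file: MQ3.BoxW, MQ3.BLift, MQ3.LfN. -/

section

/-!
# MQ3 BoxW: the webs over one box exist, and so do the monomial charts
-/

set_option autoImplicit false

open Topology Filter Metric MvPolynomial MeasureTheory

noncomputable section

namespace Pool.Agent.MQ3

open Pool.Agent.H36.BP (EN fs)
open Pool.Agent.H14.PP (Tan)
open Pool.Agent.H17BP (Surface)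
open Pool.Agent.H17EF (projVar coneE)
open Pool.Agent.H30M (tau)
open Pool.Agent.MQ (lam En)

variable {M : ℕ} {X : Set (EN M)} {m : ℕ} {θ : WDiff X m} {l : LF M} {ρ : ℂ × ℂ → EN M}

/-- **The web over one box.** -/
theorem exists_boxWeb (hX : Surface X) (hm : 1 ≤ m) (hb : NCBox X ρ) (hg : ∀ p ∈ DS, GoodPt θ l (ρ p)) : Nonempty (BoxWeb θ l ρ) := by
  obtain ⟨e, T, a, b, μ, -, h1, -, -, -, -, h2, h3⟩ := hb.exists_sheets hX hm hg
  exact ⟨⟨hX, hm, hb, hg, e, T, a, b, h1, h2, h3⟩⟩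

/-- two cones of a fan: one after the other, or the same rays -/
theorem fan_sep {w w' u u' : ℕ × ℕ} (h1 : NoIn w w' u) (h2 : NoIn w w' u') (h3 : NoIn u u' w) (h4 : NoIn u u' w') :
    0 ≤ dt w' u ∨ 0 ≤ dt u' w ∨ (dt w u = 0 ∧ dt w' u' = 0) := by
  by_contra hcon
  rw [not_or, not_or, not_le, not_le] at hcon
  obtain ⟨c1, c2, c3⟩ := hcon
  have e1 := dt_swap u w'
  have e2 := dt_swap w u'
  have e3 := dt_swap w u
  have e4 := dt_swap w' u'
  apply c3
  unfold NoIn at h1 h2 h3 h4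
  omega

theorem basis_eq₁ {p : ℕ} {a b : Equiv.Perm (Fin p)} {k : Fin p} {w w' u u' : ℕ × ℕ} (hB : Basis a b k w w') (hB' : Basis a b k u u')
    (h : dt w u = 0) : w = u := by
  obtain ⟨α, β, e1, e2⟩ := hB.gen u.1 u.2 hB'.mem
  obtain ⟨α', β', e1', e2'⟩ := hB'.gen w.1 w.2 hB.mem
  have hβ : β = 0 := by
    have h1 : β * dt w w' = 0 := by
      rw [← h]
      unfold dt
      rw [e1, e2]
      ring
    exact (mul_eq_zero.1 h1).resolve_right hB.det
  have hβ' : β' = 0 := by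
    have h1 : β' * dt u u' = 0 := by
      have h2 : dt u w = 0 := by
        rw [dt_swap, h, neg_zero]
      rw [← h2]
      unfold dt
      rw [e1', e2']
      ring
    exact (mul_eq_zero.1 h1).resolve_right hB'.det
  subst hβ
  subst hβ'
  simp only [zero_mul, add_zero] at e1 e2 e1' e2'
  have hu : (u.1 : ℤ) ≠ 0 ∨ (u.2 : ℤ) ≠ 0 := by
    by_contra hcon
    rw [not_or, not_not, not_not] at hcon
    apply hB'.det
    unfold dt
    rw [hcon.1, hcon.2]
    ring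
  have hαα : α * α' = 1 := by
    rcases hu with h0 | h0
    · have h1 : (α * α' - 1) * (u.1 : ℤ) = 0 := by
        rw [e1'] at e1
        linear_combination -e1
      exact sub_eq_zero.1 ((mul_eq_zero.1 h1).resolve_right h0)
    · have h1 : (α * α' - 1) * (u.2 : ℤ) = 0 := by
        rw [e2'] at e2
        linear_combination -e2
      exact sub_eq_zero.1 ((mul_eq_zero.1 h1).resolve_right h0)
  have hα : α = 1 := by
    rcases Int.eq_one_or_neg_one_of_mul_eq_one hαα with h1 | h1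
    · exact h1
    · exfalso
      rw [h1] at e1 e2
      omega
  rw [hα] at e1 e2
  refine Prod.ext ?_ ?_
  · omega
  · omega

theorem basis_eq₂ {p : ℕ} {a b : Equiv.Perm (Fin p)} {k : Fin p} {w w' u u' : ℕ × ℕ} (hB : Basis a b k w w') (hB' : Basis a b k u u')
    (h : dt w' u' = 0) : w' = u' := by
  obtain ⟨α, β, e1, e2⟩ := hB.gen u'.1 u'.2 hB'.mem'
  obtain ⟨α', β', e1', e2'⟩ := hB'.gen w'.1 w'.2 hB.mem'
  have hα : α = 0 := by
    have h1 : α * dt w w' = 0 := by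
      have h2 : dt u' w' = 0 := by rw [dt_swap, h, neg_zero]
      rw [← h2]
      unfold dt
      rw [e1, e2]
      ring
    exact (mul_eq_zero.1 h1).resolve_right hB.det
  have hα' : α' = 0 := by
    have h1 : α' * dt u u' = 0 := by
      rw [← h]
      unfold dt
      rw [e1', e2']
      ring
    exact (mul_eq_zero.1 h1).resolve_right hB'.det
  subst hα
  subst hα'
  simp only [zero_mul, zero_add] at e1 e2 e1' e2'
  have hu : (u'.1 : ℤ) ≠ 0 ∨ (u'.2 : ℤ) ≠ 0 := by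
    by_contra hcon
    rw [not_or, not_not, not_not] at hcon
    apply hB'.det
    unfold dt
    rw [hcon.1, hcon.2]
    ring
  have hββ : β * β' = 1 := by
    rcases hu with h0 | h0
    · have h1 : (β * β' - 1) * (u'.1 : ℤ) = 0 := by
        rw [e1'] at e1
        linear_combination -e1
      exact sub_eq_zero.1 ((mul_eq_zero.1 h1).resolve_right h0)
    · have h1 : (β * β' - 1) * (u'.2 : ℤ) = 0 := by
        rw [e2'] at e2
        linear_combination -e2
      exact sub_eq_zero.1 ((mul_eq_zero.1 h1).resolve_right h0)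
  have hβ : β = 1 := by
    rcases Int.eq_one_or_neg_one_of_mul_eq_one hββ with h1 | h1
    · exact h1
    · exfalso
      rw [h1] at e1 e2
      omega
  rw [hβ] at e1 e2
  refine Prod.ext ?_ ?_
  · omega
  · omega

/-- representatives of the orbits -/
theorem exists_reps {p : ℕ} {a b : Equiv.Perm (Fin p)} (hab : Commute a b) :
    ∃ K : Finset (Fin p), (∀ i, ∃ k ∈ K, ∃ m n : ℤ, i = (a ^ m * b ^ n) k) ∧
      ∀ k ∈ K, ∀ k' ∈ K, k ≠ k' → ∀ m n : ℤ, (a ^ m * b ^ n) k ≠ k' := by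
  classical
  have hmul : ∀ m n m' n' : ℤ, (a ^ m * b ^ n) * (a ^ m' * b ^ n') = a ^ (m + m') * b ^ (n + n') := by
    intro m n m' n'
    have h1 : Commute (b ^ n) (a ^ m') := (hab.symm.zpow_right m').zpow_left n
    rw [mul_assoc, ← mul_assoc (b ^ n), h1.eq, mul_assoc, ← mul_assoc, ← zpow_add, ← zpow_add]
  let st : Setoid (Fin p) :=
    { r := fun i j => ∃ m n : ℤ, j = (a ^ m * b ^ n) i
      iseqv :=
        { refl := fun i => ⟨0, 0, by simp⟩
          symm := by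
            rintro i j ⟨m, n, rfl⟩
            refine ⟨-m, -n, ?_⟩
            rw [← Equiv.Perm.mul_apply, hmul]
            simp
          trans := by
            rintro i j k ⟨m, n, rfl⟩ ⟨m', n', rfl⟩
            refine ⟨m' + m, n' + n, ?_⟩
            rw [← hmul]
            rfl } }
  let f : Fin p → Fin p := fun i => (Quotient.mk st i).out
  have hf : ∀ i, ∃ m n : ℤ, i = (a ^ m * b ^ n) (f i) := fun i => (Quotient.mk_out (s := st) i : st.r _ _)
  have hfi : ∀ i j, (∃ m n : ℤ, j = (a ^ m * b ^ n) i) → f i = f j := by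
    intro i j h
    show (Quotient.mk st i).out = (Quotient.mk st j).out
    rw [Quotient.sound (s := st) (a := i) (b := j) h]
  refine ⟨Finset.univ.image f, fun i => ⟨f i, Finset.mem_image_of_mem f (Finset.mem_univ i), hf i⟩, ?_⟩
  intro k hk k' hk' hne m n hmn
  rw [Finset.mem_image] at hk hk'
  obtain ⟨i, -, rfl⟩ := hk
  obtain ⟨i', -, rfl⟩ := hk'
  have hff : ∀ i, f (f i) = f i := fun i => hfi _ _ (hf i)
  apply hne
  rw [← hff i, ← hff i']
  exact hfi _ _ ⟨m, n, hmn.symm⟩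

/-- the chart of a sheet and a basis -/
theorem exists_mChart (W : BoxWeb θ l ρ) {k : Fin W.e} {w w' : ℕ × ℕ} (hB : Basis W.a W.b k w w') (hpos : 0 < dt w w') :
    ∃ c : MChart W, c.k = k ∧ c.w = w ∧ c.w' = w' := by
  obtain ⟨C, hC⟩ := W.bdd
  have hd : ∀ x ∈ DD, ‖x.1‖ ≤ 1 ∧ ‖x.2‖ ≤ 1 := fun x hx => ⟨hx.1.le, hx.2.le⟩
  obtain ⟨i, j, v, h1, h2, h3⟩ := exists_field (F := sA θ l ρ m) (V₁ := v₁ l ρ) (V₂ := v₂ l ρ) W.web hB
    (fun x hx => analyticAt_sA θ l (W.box.an x (hd x hx).1 (hd x hx).2) (W.box.mem x (hd x hx).1 (hd x hx).2) m)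
    (fun x hx => analyticAt_v₁ l (W.box.an x (hd x hx).1 (hd x hx).2)) (fun x hx => analyticAt_v₂ l (W.box.an x (hd x hx).1 (hd x hx).2))
    (fun x hx => W.box.lead_ne W.surf W.hm hx (W.good x hx).1 (W.good x hx).2.1)
    (fun x hx => by
      have h4 := W.box.dl_ne W.surf hx (W.good x hx).1
      have h5 : (v₁ l ρ x).1 * (v₂ l ρ x).2 - (v₁ l ρ x).2 * (v₂ l ρ x).1 = dl l ρ x := by
        simp only [v₁, v₂, dl]
        ring
      rw [h5]
      exact h4) (hC k)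
  exact ⟨⟨k, w, w', hB, hpos, i, j, v, h1, h2, h3⟩, rfl, rfl, rfl⟩

/-- the curve in the box satisfies the hypotheses of the module Lift -/
theorem BCrv.crv {W : BoxWeb θ l ρ} {F : ℂ → EN M} {U : Set ℂ} {p : ℂ → ℂ × ℂ} (h : BCrv θ l ρ F U p) :
    Crv W.T U (fun z => (p z).1) (fun z => (p z).2) (slp l F) ∧
      (∀ z ∈ U, p z ∈ DS → deriv p z ≠ 0 → om l 1 (F z) (deriv F z) ≠ 0 ∧ slp l F z = gm l F z) ∧
      ∀ z ∈ U, p z ∈ DS → ∃ a : ℂ, deriv p z = a • (v₁ l ρ (p z) + slp l F z • v₂ l ρ (p z)) ∧ (a = 0 ↔ deriv p z = 0) :=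
  W.box.crv W.surf W.good W.web.an (fun v hv t ht => (W.ns v hv t).1 ht) h.isOpen (fun z _ => h.F_an z) h.p_an h.mem h.ne h.eq h.tan h.nc

/-- **The monomial charts over a box.** -/
theorem exists_webOver (W : BoxWeb θ l ρ) : Nonempty (WebOver W) := by
  classical
  have hab := W.web.comm
  have h : ∀ k : Fin W.e, ∃ F : Finset ((ℕ × ℕ) × (ℕ × ℕ)), (∀ c ∈ F, IsBas (stab W.a W.b hab k) c.1 c.2) ∧ IsFan F ∧ Covers F :=
    fun k => exists_fan _ (stab_finiteIndex hab k)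
  choose Bs hB0 hFan hC using h
  have hB : ∀ k, ∀ c ∈ Bs k, Basis W.a W.b k c.1 c.2 := by
    intro k c hc
    have hb := hB0 k c hc
    refine ⟨hb.det, ?_, ?_, ?_⟩
    · exact mem_stab.1 ((hb.mem (c.1.1, c.1.2)).2 ⟨1, 0, by simp, by simp⟩)
    · exact mem_stab.1 ((hb.mem (c.2.1, c.2.2)).2 ⟨0, 1, by simp, by simp⟩)
    · intro m n hmn
      exact (hb.mem (m, n)).1 (mem_stab.2 hmn)
  obtain ⟨K, hK, hK'⟩ := exists_reps hab
  have hch : ∀ i : (K.sigma Bs : Finset (Σ _ : Fin W.e, (ℕ × ℕ) × (ℕ × ℕ))), ∃ c : MChart W, c.k = i.1.1 ∧ c.w = i.1.2.1 ∧ c.w' = i.1.2.2 := by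
    intro i
    have h1 := Finset.mem_sigma.1 i.2
    exact exists_mChart W (hB _ _ h1.2) ((hFan _).pos _ h1.2)
  choose c hc1 hc2 hc3 using hch
  refine ⟨⟨(K.sigma Bs : Finset (Σ _ : Fin W.e, (ℕ × ℕ) × (ℕ × ℕ))), c, ?_, ?_, ?_⟩⟩
  · intro i j
    by_cases hij : (c i).k = (c j).k
    · exact Or.inl hij
    · right
      intro r s
      rw [hc1, hc1] at hij
      rw [hc1, hc1]
      exact hK' _ (Finset.mem_sigma.1 i.2).1 _ (Finset.mem_sigma.1 j.2).1 hij r s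
  · intro i j hij hk
    have h1 : i.1.2 ∈ Bs i.1.1 := (Finset.mem_sigma.1 i.2).2
    have h2 : j.1.2 ∈ Bs i.1.1 := by
      rw [hc1, hc1] at hk
      rw [hk]
      exact (Finset.mem_sigma.1 j.2).2
    rw [hc3, hc2, hc3, hc2]
    rcases fan_sep ((hFan _).fan₁ _ h1 _ h2) ((hFan _).fan₂ _ h1 _ h2) ((hFan _).fan₁ _ h2 _ h1) ((hFan _).fan₂ _ h2 _ h1) with h3 | h3 | ⟨h3, h4⟩
    · exact Or.inl h3
    · exact Or.inr h3
    · exfalso
      apply hij
      have e1 := basis_eq₁ (hB _ _ h1) (hB _ _ h2) h3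
      have e2 := basis_eq₂ (hB _ _ h1) (hB _ _ h2) h4
      apply Subtype.ext
      rw [hc1, hc1] at hk
      exact Sigma.ext hk (heq_of_eq (Prod.ext e1 e2))
  · intro F U p hbc z hz
    obtain ⟨k, hk, b, hb, h1, h2, h3⟩ := cover W.web (BCrv.crv hbc).1 K hK Bs (fun k _ => hB k) (fun k _ A B hA hB' => hC k A B hA.le hB'.le) hz
    refine ⟨⟨⟨k, b⟩, Finset.mem_sigma.2 ⟨hk, hb⟩⟩, ?_, ?_, ?_⟩
    · rw [MChart.Om, hc1, hc2, hc3]
      exact h1
    · simp only [MChart.lf, hc1, hc2, hc3]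
      exact h2
    · simp only [MChart.lf, hc1, hc2, hc3]
      exact h3

end Pool.Agent.MQ3

end
end

section

/-!
# MQ3 BLift: the lift of the curve to a monomial chart
-/

set_option autoImplicit false

open Topology Filter Metric MvPolynomial MeasureTheory

noncomputable section

namespace Pool.Agent.MQ3

open Pool.Agent.H36.BP (EN fs)
open Pool.Agent.H17BP (Surface)

variable {M : ℕ} {X : Set (EN M)} {m : ℕ} {θ : WDiff X m} {l : LF M} {ρ : ℂ × ℂ → EN M} {W : BoxWeb θ l ρ} {F : ℂ → EN M} {U : Set ℂ}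
  {p : ℂ → ℂ × ℂ}

theorem BCrv.lft (h : BCrv θ l ρ F U p) (c : MChart W) :
    Lft W.T c.k c.w c.w' U (fun z => (p z).1) (fun z => (p z).2) (slp l F) (c.Om F U p) (fun z => (c.lf F U p z).1) (fun z => (c.lf F U p z).2) :=
  lift W.web c.basis (BCrv.crv h).1

theorem om_open (h : BCrv θ l ρ F U p) (c : MChart W) : IsOpen (c.Om F U p) := (h.lft c).op

theorem om_sub (h : BCrv θ l ρ F U p) (c : MChart W) : c.Om F U p ⊆ U := (h.lft c).sub

theorem lf_an (h : BCrv θ l ρ F U p) (c : MChart W) : ∀ z ∈ c.Om F U p, AnalyticAt ℂ (c.lf F U p) z :=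
  fun z hz => ((h.lft c).s_an z hz).prod ((h.lft c).t_an z hz)

theorem lf_mem (h : BCrv θ l ρ F U p) (c : MChart W) : ∀ z ∈ c.Om F U p, c.lf F U p z ∈ c.D ∧ c.κ (c.lf F U p z) = p z := by
  intro z hz
  have h1 : c.κ (c.lf F U p z) = p z := Prod.ext ((h.lft c).eq_x z hz).symm ((h.lft c).eq_y z hz).symm
  refine ⟨?_, h1⟩
  have h2 : c.κ (c.lf F U p z) ∈ DD := by
    rw [h1]
    exact h.mem z (om_sub h c hz)
  exact h2

theorem lf_ev (h : BCrv θ l ρ F U p) (c : MChart W) : ∀ z ∈ c.Om F U p, ∀ᶠ w in 𝓝[≠] z, w ∈ c.Om F U p ∧ (c.lf F U p w).1 * (c.lf F U p w).2 ≠ 0 ∧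
    p w ∈ DS ∧ deriv p w ≠ 0 := by
  intro z hz
  filter_upwards [h.ne z (om_sub h c hz), h.nc z (om_sub h c hz), eventually_nhdsWithin_of_eventually_nhds ((om_open h c).mem_nhds hz)] with w h1 h2 h3
  refine ⟨h3, ?_, ⟨⟨h1.1, (h.mem w (om_sub h c h3)).1⟩, h1.2, (h.mem w (om_sub h c h3)).2⟩, h2⟩
  intro h4
  have e1 := (h.lft c).eq_x w h3
  have e2 := (h.lft c).eq_y w h3
  have hd := c.basis.det
  have hx := h1.1
  have hy := h1.2
  rw [e1] at hx
  rw [e2] at hy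
  rcases mul_eq_zero.1 h4 with h5 | h5
  · rw [h5] at hx hy
    have w1 : c.w.1 = 0 := by
      by_contra hne
      exact hx (by rw [zero_pow hne, zero_mul])
    have w2 : c.w.2 = 0 := by
      by_contra hne
      exact hy (by rw [zero_pow hne, zero_mul])
    apply hd
    rw [dt, w1, w2]
    simp
  · rw [h5] at hx hy
    have w1 : c.w'.1 = 0 := by
      by_contra hne
      exact hx (by rw [zero_pow hne, mul_zero])
    have w2 : c.w'.2 = 0 := by
      by_contra hne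
      exact hy (by rw [zero_pow hne, mul_zero])
    apply hd
    rw [dt, w1, w2]
    simp

/-- the derivative of the curve in the box -/
theorem lf_deriv (h : BCrv θ l ρ F U p) (c : MChart W) {z : ℂ} (hz : z ∈ c.Om F U p) :
    deriv p z = fderiv ℂ (mono c.w c.w') (c.lf F U p z) (deriv (c.lf F U p) z) := by
  have h1 : HasDerivAt (fun w => mono c.w c.w' (c.lf F U p w)) (fderiv ℂ (mono c.w c.w') (c.lf F U p z) (deriv (c.lf F U p) z)) z :=
    (analyticAt_mono (c.lf F U p z)).differentiableAt.hasFDerivAt.comp_hasDerivAt z (lf_an h c z hz).differentiableAt.hasDerivAt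
  have h2 : (fun w => mono c.w c.w' (c.lf F U p w)) =ᶠ[𝓝 z] p := by
    filter_upwards [(om_open h c).mem_nhds hz] with w hw using (lf_mem h c w hw).2
  rw [← h2.deriv_eq, h1.deriv]

theorem lf_ne (h : BCrv θ l ρ F U p) (c : MChart W) : ∀ z ∈ c.Om F U p, ∀ᶠ w in 𝓝[≠] z, (c.lf F U p w).1 * (c.lf F U p w).2 ≠ 0 ∧
    deriv (c.lf F U p) w ≠ 0 := by
  intro z hz
  filter_upwards [lf_ev h c z hz] with w hw
  refine ⟨hw.2.1, fun h1 => hw.2.2.2 ?_⟩
  rw [lf_deriv h c hw.1, h1, map_zero]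

/-- off the axes the slope is the value of the sheet -/
theorem lf_slope (h : BCrv θ l ρ F U p) (c : MChart W) : ∀ z ∈ c.Om F U p, ∀ P : ℂ × ℂ, pexp P = c.lf F U p z → slp l F z = W.T c.k (ln c.w c.w' P) := by
  intro z hz P hP
  exact (h.lft c).root z hz P.1 P.2 (congrArg Prod.fst hP) (congrArg Prod.snd hP)

/-- the lift is tangent to the foliation -/
theorem lf_tan (h : BCrv θ l ρ F U p) (c : MChart W) : ∀ z ∈ c.Om F U p,
    (c.v (c.lf F U p z)).1 * (deriv (c.lf F U p) z).2 = (c.v (c.lf F U p z)).2 * (deriv (c.lf F U p) z).1 := by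
  intro z hz
  have hev : ∀ᶠ w in 𝓝[≠] z, (c.v (c.lf F U p w)).1 * (deriv (c.lf F U p) w).2 = (c.v (c.lf F U p w)).2 * (deriv (c.lf F U p) w).1 := by
    filter_upwards [lf_ev h c z hz] with w ⟨hw, h0, hS, hd⟩
    set q := c.lf F U p w with hq
    have h1 : pexp (Complex.log q.1, Complex.log q.2) = q :=
      Prod.ext (Complex.exp_log (left_ne_zero_of_mul h0)) (Complex.exp_log (right_ne_zero_of_mul h0))
    have h2 := lf_slope h c w hw _ (h1.trans hq)
    have h3 : pexp (ln c.w c.w' (Complex.log q.1, Complex.log q.2)) = p w := by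
      rw [pexp_ln, h1, hq]
      exact (lf_mem h c w hw).2
    have h4 : ln c.w c.w' (Complex.log q.1, Complex.log q.2) ∈ HH := by
      rw [mem_HH_iff, h3]
      exact h.mem w (om_sub h c hw)
    have h5 := c.v_eq _ h4 (deriv (c.lf F U p) w)
    rw [h1, h3, ← h2, hq, ← lf_deriv h c hw] at h5
    obtain ⟨a, ha, -⟩ := (BCrv.crv (W := W) h).2.2 w (om_sub h c hw) hS
    have h6 : (v₁ l ρ (p w) + slp l F w • v₂ l ρ (p w)).1 * (deriv p w).2 - (v₁ l ρ (p w) + slp l F w • v₂ l ρ (p w)).2 * (deriv p w).1 = 0 := by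
      rw [ha]
      simp only [Prod.smul_fst, Prod.smul_snd, smul_eq_mul]
      ring
    rw [h6, mul_zero] at h5
    have h7 : (c.lf F U p w).1 ^ c.i * (c.lf F U p w).2 ^ c.j ≠ 0 :=
      mul_ne_zero (pow_ne_zero _ (left_ne_zero_of_mul h0)) (pow_ne_zero _ (right_ne_zero_of_mul h0))
    exact sub_eq_zero.1 ((mul_eq_zero.1 h5.symm).resolve_left h7)
  have hlf := lf_an h c z hz
  have hv : ContinuousAt (fun w => c.v (c.lf F U p w)) z := ((c.v_an _ (lf_mem h c z hz).1).continuousAt).comp' hlf.continuousAt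
  have hdc := hlf.deriv.continuousAt
  exact eq_of_punct (f := fun w => (c.v (c.lf F U p w)).1 * (deriv (c.lf F U p) w).2) (g := fun w => (c.v (c.lf F U p w)).2 * (deriv (c.lf F U p) w).1)
    (hv.fst.mul hdc.snd) (hv.snd.mul hdc.fst) hev

theorem lf_closed (h : BCrv θ l ρ F U p) (c : MChart W) {C : Set ℂ} (hC : IsClosed C) (hCU : C ⊆ U) {K : Set (ℂ × ℂ)} (hK : IsCompact K) :
    IsClosed {z | z ∈ C ∧ z ∈ c.Om F U p ∧ c.lf F U p z ∈ K} := by
  obtain ⟨R, hR⟩ := hK.isBounded.exists_norm_le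
  have h1 := (h.lft c).closed C hC hCU R
  have h2 : {z | z ∈ C ∧ z ∈ c.Om F U p ∧ c.lf F U p z ∈ K} =
      {z | z ∈ C ∧ z ∈ c.Om F U p ∧ ‖(c.lf F U p z).1‖ ≤ R ∧ ‖(c.lf F U p z).2‖ ≤ R} ∩ {z | z ∈ c.Om F U p → c.lf F U p z ∈ K} := by
    ext z
    constructor
    · rintro ⟨g1, g2, g3⟩
      exact ⟨⟨g1, g2, (norm_fst_le _).trans (hR _ g3), (norm_snd_le _).trans (hR _ g3)⟩, fun _ => g3⟩
    · rintro ⟨⟨g1, g2, g3⟩, g4⟩
      exact ⟨g1, g2, g4 g2⟩
  rw [h2]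
  have hcont : ContinuousOn (c.lf F U p) {z | z ∈ C ∧ z ∈ c.Om F U p ∧ ‖(c.lf F U p z).1‖ ≤ R ∧ ‖(c.lf F U p z).2‖ ≤ R} :=
    fun z hz => (lf_an h c z hz.2.1).continuousAt.continuousWithinAt
  have h3 := hcont.preimage_isClosed_of_isClosed h1 hK.isClosed
  have h4 : {z | z ∈ C ∧ z ∈ c.Om F U p ∧ ‖(c.lf F U p z).1‖ ≤ R ∧ ‖(c.lf F U p z).2‖ ≤ R} ∩ {z | z ∈ c.Om F U p → c.lf F U p z ∈ K} =
      {z | z ∈ C ∧ z ∈ c.Om F U p ∧ ‖(c.lf F U p z).1‖ ≤ R ∧ ‖(c.lf F U p z).2‖ ≤ R} ∩ c.lf F U p ⁻¹' K := by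
    ext z
    constructor
    · rintro ⟨g1, g2⟩
      exact ⟨g1, g2 g1.2.1⟩
    · rintro ⟨g1, g2⟩
      exact ⟨g1, fun _ => g2⟩
  rw [h4]
  exact h3

theorem om_disjoint (h : BCrv θ l ρ F U p) (c c' : MChart W) (hcc : ∀ r s : ℤ, (W.a ^ r * W.b ^ s) c.k ≠ c'.k) {z : ℂ} (hz : z ∈ c.Om F U p) :
    z ∉ c'.Om F U p := by
  intro hz'
  obtain ⟨w, ⟨⟨hw, -, hS, -⟩, ⟨hw', -, -, -⟩⟩⟩ := ((lf_ev h c z hz).and (lf_ev h c' z hz')).exists
  have h1 := ((h.lft c).mem w hS.1.1 hS.2.1).1 hw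
  have h2 := ((h.lft c').mem w hS.1.1 hS.2.1).1 hw'
  obtain ⟨-, -, -, v, e1, e2, e3⟩ := h1
  obtain ⟨-, -, -, v', e1', e2', e3'⟩ := h2
  obtain ⟨r, s, hrs⟩ := exists_per (v := v) (v' := v') (e1'.trans e1.symm) (e2'.trans e2.symm)
  have hv : v ∈ HH := HH_of_exp (x := fun z => (p z).1) (y := fun z => (p z).2) hS.1.2 hS.2.2 e1 e2
  have h3 : W.T c.k v = W.T ((W.a ^ r * W.b ^ s) c'.k) v := by
    rw [← e3, e3', hrs, W.web.mon c'.k hv]
  have h4 := W.web.inj v hv _ _ h3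
  apply hcc (-r) (-s)
  rw [h4, ← Equiv.Perm.mul_apply]
  have hab := W.web.comm
  have h5 : Commute (W.b ^ (-s)) (W.a ^ r) := (hab.symm.zpow_right r).zpow_left (-s)
  have h6 : (W.a ^ (-r) * W.b ^ (-s)) * (W.a ^ r * W.b ^ s) = 1 := by
    rw [mul_assoc, ← mul_assoc (W.b ^ (-s)), h5.eq, mul_assoc, ← mul_assoc, ← zpow_add, ← zpow_add]
    simp
  rw [h6]
  rfl

end Pool.Agent.MQ3

end
end

section

/-!
# MQ3 LfN: the lifts of the curves of the theorem to the charts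

The curve in a box of the model is a curve of the kind `BCrv`: the divisor is an algebraic curve which does not contain the curve, and the curve is not
contained in a point.  The rest is `BLift`.
-/

set_option autoImplicit false

open Topology Filter Metric MvPolynomial MeasureTheory Laplacian

noncomputable section

namespace Pool.Agent.MQ3

open Pool.Agent.H36.BP (EN fs)
open Pool.Agent.H17BP (Surface)
open Pool.Agent.H17EF (projVar coneE)
open Pool.Agent.MQ (ztv)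

variable {M : ℕ} {P : Ideal (MvPolynomial (Fin (M + 1)) ℂ)} {RD : MvPolynomial (Fin (M + 1)) ℂ} {m : ℕ} {X : NCModel P RD} {θ : WDiff (coneE P) m}
  {l : LF M} {S : Web X θ l}

/-! ### the curve in the plane -/

private theorem eval_smul_hom' {Q : MvPolynomial (Fin (M + 1)) ℂ} {d : ℕ} (hQ : Q.IsHomogeneous d) (c : ℂ) (x : EN M) :
    eval (c • x).ofLp Q = c ^ d * eval x.ofLp Q := by
  have h0 : (c • x).ofLp = fun i => c * x.ofLp i := rfl
  rw [h0, eval_eq', eval_eq', Finset.mul_sum]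
  refine Finset.sum_congr rfl fun s hs => ?_
  have h1 : ∑ i, s i = d := by
    have h2 := hQ (mem_support_iff.1 hs)
    rw [← h2, Finsupp.weight_apply, Finsupp.sum_fintype]
    · simp
    · simp
  simp only [mul_pow, Finset.prod_mul_distrib, Finset.prod_pow_eq_pow_sum, h1]
  ring

private theorem coneE_ne {x : EN M} (hx : x ∈ coneE P) : x ≠ 0 := by
  intro h
  have h1 : ((Pool.Agent.H17EF.LE M).symm x) ∈ Pool.Agent.H13.SM.cone P := hx
  exact h1.1 (by rw [h, map_zero])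

variable {F : ℂ → EN M}

private theorem coord_an (hF : Differentiable ℂ F) (z : ℂ) (i : Fin (M + 1)) : AnalyticAt ℂ (fun w => (F w).ofLp i) z := by
  have h1 : AnalyticAt ℂ F z := hF.analyticAt z
  exact ((EuclideanSpace.proj i : EN M →L[ℂ] ℂ).analyticAt _).comp h1

private theorem eval_an (hF : Differentiable ℂ F) (Q : MvPolynomial (Fin (M + 1)) ℂ) (z : ℂ) : AnalyticAt ℂ (fun w => eval (F w).ofLp Q) z := by
  refine (AnalyticAt.aeval_mvPolynomial (fun i => coord_an hF z i) Q).congr (Eventually.of_forall fun y => ?_)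
  exact congrArg (fun f : MvPolynomial (Fin (M + 1)) ℂ →+* ℂ => f Q) (MvPolynomial.coe_aeval_eq_eval (F y).ofLp)

private theorem eval_ne (hF : Differentiable ℂ F) {Q : MvPolynomial (Fin (M + 1)) ℂ} (h : ∃ z, eval (F z).ofLp Q ≠ 0) (z : ℂ) :
    ∀ᶠ w in 𝓝[≠] z, eval (F w).ofLp Q ≠ 0 := by
  rcases (eval_an hF Q z).eventually_eq_zero_or_eventually_ne_zero with h1 | h1
  · exfalso
    obtain ⟨w, hw⟩ := h
    have h2 : AnalyticOnNhd ℂ (fun w => eval (F w).ofLp Q) Set.univ := fun w _ => eval_an hF Q w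
    exact hw (h2.eqOn_zero_of_preconnected_of_eventuallyEq_zero isPreconnected_univ (Set.mem_univ z) h1 (Set.mem_univ w))
  · exact h1

/-- a curve which is contained in a line near a point is constant -/
private theorem const_line (hF : Differentiable ℂ F) (hm : ∀ z, F z ∈ coneE P) {z : ℂ} (h : ∀ᶠ w in 𝓝 z, ∃ c : ℂ, F w = c • F z) (a b : ℂ) :
    ∃ c : ℂ, F a = c • F b := by
  have h0 : ∀ i j, ∀ w, (F w).ofLp i * (F z).ofLp j = (F w).ofLp j * (F z).ofLp i := by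
    intro i j w
    have h2 : AnalyticOnNhd ℂ (fun w => (F w).ofLp i * (F z).ofLp j - (F w).ofLp j * (F z).ofLp i) Set.univ := fun w _ =>
      ((coord_an hF w i).mul analyticAt_const).sub ((coord_an hF w j).mul analyticAt_const)
    have h3 : (fun w => (F w).ofLp i * (F z).ofLp j - (F w).ofLp j * (F z).ofLp i) =ᶠ[𝓝 z] 0 := by
      filter_upwards [h] with w hw
      obtain ⟨c, hc⟩ := hw
      show (F w).ofLp i * (F z).ofLp j - (F w).ofLp j * (F z).ofLp i = 0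
      rw [hc, PiLp.smul_apply, PiLp.smul_apply, smul_eq_mul, smul_eq_mul]
      ring
    exact sub_eq_zero.1 (h2.eqOn_zero_of_preconnected_of_eventuallyEq_zero isPreconnected_univ (Set.mem_univ z) h3 (Set.mem_univ w))
  obtain ⟨j, hj⟩ : ∃ j, (F z).ofLp j ≠ 0 := by
    by_contra hcon
    push Not at hcon
    apply coneE_ne (hm z)
    ext j
    exact hcon j
  have h1 : ∀ w, F w = ((F w).ofLp j / (F z).ofLp j) • F z := by
    intro w
    ext i
    rw [PiLp.smul_apply, smul_eq_mul, div_mul_eq_mul_div, eq_div_iff hj]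
    exact h0 i j w
  have h2 : ∀ w, (F w).ofLp j / (F z).ofLp j ≠ 0 := by
    intro w h2
    have h3 := h1 w
    rw [h2, zero_smul] at h3
    exact coneE_ne (hm w) h3
  refine ⟨(F a).ofLp j / (F z).ofLp j * ((F b).ofLp j / (F z).ofLp j)⁻¹, ?_⟩
  have h3 : ∀ r s : ℂ, s ≠ 0 → F a = r • F z → F b = s • F z → F a = (r * s⁻¹) • F b := by
    intro r s hs e1 e2
    rw [e1, e2, smul_smul, mul_assoc, inv_mul_cancel₀ hs, mul_one]
  exact h3 _ _ (h2 b) (h1 a) (h1 b)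

/-! ### the curve in the boxes -/

/-- `RD` is homogeneous: `F z = c ρ (p z)`, so `p z` is off the axes where `RD (F z) ≠ 0` -/
theorem bcrv (hF : WCrv θ RD F) (Y : NCLift X F) (i : X.ι) : BCrv θ l (X.ρ i) F (Y.U i) (Y.p i) where
  isOpen := Y.isOpen i
  F_an := fun z => hF.diff.analyticAt z
  tan := fun z _ => hF.tan z
  p_an := Y.an i
  mem := fun z hz => X.sub i (Y.mem i z hz)
  ne := by
    intro z hz
    obtain ⟨d, hd⟩ := hF.hom
    filter_upwards [eval_ne hF.diff hF.ne z, eventually_nhdsWithin_of_eventually_nhds ((Y.isOpen i).mem_nhds hz)] with w h1 h2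
    obtain ⟨c, -, hc⟩ := Y.eq i w h2
    have h3 : eval (X.ρ i (Y.p i w)).ofLp RD ≠ 0 := by
      intro h3
      apply h1
      rw [hc, eval_smul_hom' hd, h3, mul_zero]
    have h4 : (Y.p i w).1 * (Y.p i w).2 ≠ 0 := fun h4 => h3 ((X.div i _ (Y.mem i w h2)).2 h4)
    exact ⟨left_ne_zero_of_mul h4, right_ne_zero_of_mul h4⟩
  nc := by
    intro z hz
    rcases (Y.an i z hz).deriv.eventually_eq_zero_or_eventually_ne_zero with h1 | h1
    · exfalso
      obtain ⟨a, b, hab⟩ := hF.nc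
      have h2 : ∀ᶠ w in 𝓝 z, Y.p i w = Y.p i z := by
        obtain ⟨r, hr, hball⟩ := Metric.eventually_nhds_iff_ball.1 (h1.and ((Y.isOpen i).mem_nhds hz))
        filter_upwards [ball_mem_nhds z hr] with w hw
        exact (convex_ball z r).is_const_of_fderivWithin_eq_zero (𝕜 := ℂ)
          (fun x hx => ((Y.an i x (hball x hx).2).differentiableAt.differentiableWithinAt))
          (fun x hx => by
            rw [fderivWithin_of_isOpen isOpen_ball hx, ← toSpanSingleton_deriv, (hball x hx).1]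
            simp) hw (mem_ball_self hr)
      have h3 : ∀ᶠ w in 𝓝 z, ∃ c : ℂ, F w = c • F z := by
        filter_upwards [h2, (Y.isOpen i).mem_nhds hz] with w hw hwU
        obtain ⟨c, -, hc⟩ := Y.eq i w hwU
        obtain ⟨c', hc', hc2⟩ := Y.eq i z hz
        refine ⟨c * c'⁻¹, ?_⟩
        rw [hc2, smul_smul, mul_assoc, inv_mul_cancel₀ hc', mul_one, ← hw]
        exact hc
      obtain ⟨c, hc⟩ := const_line hF.diff hF.mem h3 a b
      exact hab c hc
    · exact h1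
  eq := Y.eq i

theorem Om_open (hF : WCrv θ RD F) (Y : NCLift X F) (k : S.ι) : IsOpen (S.Om Y k) := om_open (bcrv hF Y k.1) (S.c k)

theorem Om_sub (hF : WCrv θ RD F) (Y : NCLift X F) (k : S.ι) : S.Om Y k ⊆ Y.U k.1 := om_sub (bcrv hF Y k.1) (S.c k)

theorem lfN_an (hF : WCrv θ RD F) (Y : NCLift X F) (k : S.ι) : ∀ z ∈ S.Om Y k, AnalyticAt ℂ (S.lf Y k) z := lf_an (bcrv hF Y k.1) (S.c k)

theorem lfN_mem (hF : WCrv θ RD F) (Y : NCLift X F) (k : S.ι) :
    ∀ z ∈ S.Om Y k, S.lf Y k z ∈ S.D k ∧ S.κ k (S.lf Y k z) = Y.p k.1 z := by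
  intro z hz
  obtain ⟨h1, h2⟩ := lf_mem (bcrv hF Y k.1) (S.c k) z hz
  have h3 : S.κ k (S.lf Y k z) = Y.p k.1 z := h2
  refine ⟨⟨h1, ?_⟩, h3⟩
  rw [h3]
  exact Y.mem k.1 z (Om_sub hF Y k hz)

theorem lfN_tan (hF : WCrv θ RD F) (Y : NCLift X F) (k : S.ι) :
    ∀ z ∈ S.Om Y k, (S.v k (S.lf Y k z)).1 * (deriv (S.lf Y k) z).2 - (S.v k (S.lf Y k z)).2 * (deriv (S.lf Y k) z).1 = 0 := by
  intro z hz
  exact sub_eq_zero.2 (lf_tan (bcrv hF Y k.1) (S.c k) z hz)

theorem lfN_ne (hF : WCrv θ RD F) (Y : NCLift X F) (k : S.ι) :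
    ∀ z ∈ S.Om Y k, ∀ᶠ w in 𝓝[≠] z, (S.lf Y k w).1 * (S.lf Y k w).2 ≠ 0 ∧ deriv (S.lf Y k) w ≠ 0 ∧ S.v k (S.lf Y k w) ≠ 0 ∧ ztv (S.v k) (S.lf Y k) w ≠ 0 ∧
      jc (S.κ k) (S.lf Y k w) ≠ 0 := by
  intro z hz
  have h1 : ∀ᶠ w in 𝓝[≠] z, (S.lf Y k w).1 * (S.lf Y k w).2 ≠ 0 ∧ deriv (S.lf Y k) w ≠ 0 := lf_ne (bcrv hF Y k.1) (S.c k) z hz
  have ha : AnalyticAt ℂ (S.lf Y k) z := lfN_an hF Y k z hz
  have h2 : ∀ᶠ w in 𝓝[≠] z, S.lf Y k w ≠ S.lf Y k z := by
    rcases ha.eventually_eq_or_eventually_ne (analyticAt_const (v := S.lf Y k z)) with h2 | h2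
    · exfalso
      have h3 : deriv (S.lf Y k) =ᶠ[𝓝 z] fun _ => 0 := by
        have h4 : S.lf Y k =ᶠ[𝓝 z] fun _ => S.lf Y k z := h2
        have h5 := h4.deriv
        simpa using h5
      obtain ⟨w, hw1, hw2⟩ := (h1.and (h3.filter_mono nhdsWithin_le_nhds)).exists
      exact hw1.2 hw2
    · exact h2
  have h3 : ∀ᶠ w in 𝓝[≠] z, S.lf Y k w ≠ S.lf Y k z → (S.c k).v (S.lf Y k w) ≠ 0 :=
    (ha.continuousAt.tendsto.eventually ((S.c k).v_iso _ (lf_mem (bcrv hF Y k.1) (S.c k) z hz).1)).filter_mono nhdsWithin_le_nhds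
  filter_upwards [h1, h2, h3, eventually_nhdsWithin_of_eventually_nhds ((Om_open hF Y k).mem_nhds hz)] with w g1 g2 g3 g4
  have g5 : S.v k (S.lf Y k w) ≠ 0 := g3 g2
  refine ⟨g1.1, g1.2, g5, ?_, ?_⟩
  · have g6 := lfN_tan hF Y k w g4
    classical
    unfold ztv
    split_ifs with g7
    · have g8 : (S.v k (S.lf Y k w)).1 ≠ 0 := fun g8 => g5 (Prod.ext g8 g7)
      rw [g7, zero_mul, sub_zero] at g6
      have g9 := (mul_eq_zero.1 g6).resolve_left g8
      exact div_ne_zero (fun g10 => g1.2 (Prod.ext g10 g9)) g8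
    · refine div_ne_zero (fun g8 => g1.2 ?_) g7
      rw [g8, mul_zero, zero_sub, neg_eq_zero] at g6
      exact Prod.ext ((mul_eq_zero.1 g6).resolve_left g7) g8
  · have g6 := jac_mono_ne (w := (S.c k).w) (w' := (S.c k).w') (S.c k).basis.det g1.1
    intro g7
    apply g6
    have g8 : jc (S.κ k) (S.lf Y k w) = (fderiv ℂ (mono (S.c k).w (S.c k).w') (S.lf Y k w) (1, 0)).1 *
        (fderiv ℂ (mono (S.c k).w (S.c k).w') (S.lf Y k w) (0, 1)).2 -
        (fderiv ℂ (mono (S.c k).w (S.c k).w') (S.lf Y k w) (0, 1)).1 * (fderiv ℂ (mono (S.c k).w (S.c k).w') (S.lf Y k w) (1, 0)).2 := rfl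
    rw [g7] at g8
    linear_combination -g8

theorem lfN_closed (hF : WCrv θ RD F) (Y : NCLift X F) (k : S.ι) {K : Set (ℂ × ℂ)} (hK : IsCompact K) (hKD : K ⊆ S.D k) :
    IsClosed {z | z ∈ S.Om Y k ∧ S.lf Y k z ∈ K} := by
  have hκ : Continuous (S.κ k) := by
    have h1 : ∀ q, AnalyticAt ℂ (S.κ k) q := fun q => analyticAt_mono q
    exact continuous_iff_continuousAt.2 fun q => (h1 q).continuousAt
  have h1 : S.κ k '' K ⊆ X.B k.1 := by
    rintro _ ⟨q, hq, rfl⟩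
    exact (hKD hq).2
  have h2 := Y.closed k.1 _ h1 (hK.image hκ)
  have h3 := lf_closed (bcrv hF Y k.1) (S.c k) h2 (fun z hz => hz.1) hK
  have h4 : {z | z ∈ S.Om Y k ∧ S.lf Y k z ∈ K} =
      {z | z ∈ {z | z ∈ Y.U k.1 ∧ Y.p k.1 z ∈ S.κ k '' K} ∧ z ∈ (S.c k).Om F (Y.U k.1) (Y.p k.1) ∧ (S.c k).lf F (Y.U k.1) (Y.p k.1) z ∈ K} := by
    ext z
    constructor
    · rintro ⟨g1, g2⟩
      refine ⟨⟨Om_sub hF Y k g1, ⟨_, g2, (lfN_mem hF Y k z g1).2⟩⟩, g1, g2⟩
    · rintro ⟨-, g1, g2⟩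
      exact ⟨g1, g2⟩
  rw [h4]
  exact h3

/-- every point over a box has a lift in the unit bidisc of a chart over this box -/
theorem lfN_cover (hF : WCrv θ RD F) (Y : NCLift X F) (i : X.ι) :
    ∀ z ∈ Y.U i, ∃ a : (S.V i).ι, z ∈ S.Om Y ⟨i, a⟩ ∧ ‖(S.lf Y ⟨i, a⟩ z).1‖ ≤ 1 ∧ ‖(S.lf Y ⟨i, a⟩ z).2‖ ≤ 1 :=
  fun z hz => (S.V i).cover F (Y.U i) (Y.p i) (bcrv hF Y i) z hz

end Pool.Agent.MQ3

end
end
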