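import Pool.Agent.H94.G6.M138
import Pool.Agent.H94.G6.M46
import Pool.Agent.H94.G6.M97

/-! The parts of this file: MQ3.EtaL, MQ3.EtaLoc. -/

section

/-!
# MQ3 EtaL: the gradient of the potential of a chart point
-/

set_option autoImplicit false

open Topology Filter Metric MvPolynomial MeasureTheory Laplacian

noncomputable section

namespace Pool.Agent.MQ3

open Pool.Agent.H36.BP (EN fs)
open Pool.Agent.H17BP (Surface IsForm)
open Pool.Agent.H17EF (coneE)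

open Pool.Agent.MQ (lam ztv dvg DDv gr dv)

variable {M : ℕ} {P : Ideal (MvPolynomial (Fin (M + 1)) ℂ)} {RD : MvPolynomial (Fin (M + 1)) ℂ} {m : ℕ} {X : NCModel P RD} {θ : WDiff (coneE P) m}
  {l : LF M} {S : Web X θ l}

/-- regularity, Laplacian and gradient of a function -/
private def Tri (u : ℂ → ℝ) (z : ℂ) (a : ℝ) (b : ℂ) : Prop := ContDiffAt ℝ 2 u z ∧ Δ u z = a ∧ gr u z = b

private theorem tri_add {u v : ℂ → ℝ} {z : ℂ} {a a' : ℝ} {b b' : ℂ} (h : Tri u z a b) (h' : Tri v z a' b') :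
    Tri (fun w => u w + v w) z (a + a') (b + b') := by
  obtain ⟨h1, h2, h3⟩ := h
  obtain ⟨k1, k2, k3⟩ := h'
  refine ⟨h1.add k1, ?_, ?_⟩
  · rw [Pool.Agent.H30M.lap_add h1 k1, h2, k2]
  · rw [MQ.gr_add (h1.differentiableAt (by norm_num)) (k1.differentiableAt (by norm_num)), h3, k3]

private theorem tri_mul (c : ℝ) {u : ℂ → ℝ} {z : ℂ} {a : ℝ} {b : ℂ} (h : Tri u z a b) : Tri (fun w => c * u w) z (c * a) (c * b) := by
  obtain ⟨h1, h2, h3⟩ := h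
  refine ⟨contDiffAt_const.mul h1, ?_, ?_⟩
  · rw [Pool.Agent.H30M.lap_const_mul h1, h2]
  · rw [MQ.gr_const_mul c (h1.differentiableAt (by norm_num)), h3]

private theorem tri_log {f : ℂ → ℂ} {z : ℂ} (hf : AnalyticAt ℂ f z) (h0 : f z ≠ 0) :
    Tri (fun w => Real.log ‖f w‖) z 0 ((starRingEnd ℂ) (deriv f z / f z)) :=
  ⟨(hf.harmonicAt_log_norm h0).1, Pool.Agent.H30M.lap_log_norm hf h0, MQ.gr_log_norm hf.differentiableAt h0⟩

private theorem etaL_jc {κ : ℂ × ℂ → ℂ × ℂ} {x : ℂ × ℂ} (hv : AnalyticAt ℂ κ x) : AnalyticAt ℂ (jc κ) x := by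
  have h1 : ∀ e : ℂ × ℂ, AnalyticAt ℂ (fun Q => fderiv ℂ κ Q e) x := fun e =>
    ((ContinuousLinearMap.apply ℂ (ℂ × ℂ) e).analyticAt _).comp hv.fderiv
  exact ((analyticAt_fst.comp (h1 (1, 0))).mul (analyticAt_snd.comp (h1 (0, 1)))).sub
    ((analyticAt_fst.comp (h1 (0, 1))).mul (analyticAt_snd.comp (h1 (1, 0))))

/-- the gradient of the potential of a chart point -/
theorem gr_eP {F : ℂ → EN M} {Wf : EN M → EN M → EN M → ℂ} {mK jH : ℕ} (hX : Surface (coneE P)) (hm : 1 ≤ mK)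
    (hW : IsForm (coneE P) mK jH Wf) (hF : WCrv θ RD F) (Y : NCLift X F) (hne : WNe Wf Y) {Θ : ℂ → ℂ} (hΘ : IsTh S Wf mK Y Θ) {k : S.ι} {z : ℂ}
    (hz : z ∈ S.Om Y k) {g : ℂ × ℂ → ℂ} (hg : AnalyticAt ℂ g (S.lf Y k z)) (hgn : ∃ᶠ w in 𝓝 z, g (S.lf Y k w) ≠ 0) :
    ∀ᶠ w in 𝓝[≠] z, ContDiffAt ℝ 2 (eP S g Wf mK jH Y k) w ∧ Δ (eP S g Wf mK jH Y k) w = 2 * jH / mK * lam F w ^ 2 ∧
      gr (eP S g Wf mK jH Y k) w + (starRingEnd ℂ) (DDv (S.v k) g (S.lf Y k) w) =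
        (starRingEnd ℂ) (Θ w) + gr (fun w => jH / mK * Real.log ‖F w‖) w := by
  set p : ℂ → ℂ × ℂ := S.lf Y k with hpdef
  have hp : AnalyticAt ℂ p z := lfN_an hF Y k z hz
  have hOm : ∀ᶠ w in 𝓝 z, w ∈ S.Om Y k := (Om_open hF Y k).mem_nhds hz
  have hFne : ∀ w, F w ≠ 0 := by
    intro w h0
    have h1 := hF.mem w
    rw [h0] at h1
    exact hX.zero h1
  have hgp : AnalyticAt ℂ (fun w => g (p w)) z := AnalyticAt.fun_comp (g := g) (f := p) hg hp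
  have hgne : ∀ᶠ w in 𝓝[≠] z, g (p w) ≠ 0 := by
    rcases hgp.eventually_eq_zero_or_eventually_ne_zero with h | h
    · exact absurd (h.mono fun w hw => not_not.2 hw) hgn
    · exact h
  have hga : ∀ᶠ w in 𝓝 z, AnalyticAt ℂ g (p w) := hp.continuousAt.eventually hg.eventually_analyticAt
  filter_upwards [hgne, hOm.filter_mono nhdsWithin_le_nhds, hOm.eventually_nhds.filter_mono nhdsWithin_le_nhds, lfN_ne hF Y k z hz,
    hne k.1 z (Om_sub hF Y k hz), hΘ k z hz, hga.filter_mono nhdsWithin_le_nhds] with w h1 h2 h3 h4 h5 h6 h7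
  obtain ⟨-, -, hv0, hζ0, hJ0⟩ := h4
  have hpw : AnalyticAt ℂ p w := lfN_an hF Y k w h2
  have hvw : AnalyticAt ℂ (S.v k) (p w) := v_an k (p w) (lfN_mem hF Y k w h2).1
  have hode : ∀ᶠ x in 𝓝 w, (S.v k (p x)).1 * (deriv p x).2 - (S.v k (p x)).2 * (deriv p x).1 = 0 := h3.mono fun x hx => lfN_tan hF Y k x hx
  have hζ : AnalyticAt ℂ (ztv (S.v k) p) w := ztv_an hpw hvw hode hv0
  have hκ : AnalyticAt ℂ (S.κ k) (p w) := analyticAt_mchart (S.c k).w.1 (S.c k).w'.1 (S.c k).w.2 (S.c k).w'.2 (p w)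
  have hJ : AnalyticAt ℂ (fun x => jc (S.κ k) (p x)) w := AnalyticAt.fun_comp (g := jc (S.κ k)) (f := p) (etaL_jc hκ) hpw
  have hgw : AnalyticAt ℂ (fun x => g (p x)) w := AnalyticAt.fun_comp (g := g) (f := p) h7 hpw
  have hwt : AnalyticAt ℂ (wt Wf Y k.1) w := wt_an hX hm hW hF.diff Y k.1 w (Om_sub hF Y k h2)
  have t5 : Tri (fun w => Real.log ‖F w‖) w (2 * lam F w ^ 2) (gr (fun w => Real.log ‖F w‖) w) :=
    ⟨(MQ.lap_log_norm (hF.diff.analyticAt w) (hFne w)).1, (MQ.lap_log_norm (hF.diff.analyticAt w) (hFne w)).2, rfl⟩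
  have t6 : Tri (fun w => (jH : ℝ) / mK * Real.log ‖F w‖) w ((jH : ℝ) / mK * (2 * lam F w ^ 2)) (((jH / mK : ℝ) : ℂ) * gr (fun w => Real.log ‖F w‖) w) :=
    tri_mul _ t5
  have key := tri_add (tri_add (tri_add (tri_add (tri_log hζ hζ0) (tri_log hJ hJ0)) (tri_log hgw h1)) (tri_mul (1 / mK : ℝ) (tri_log hwt h5))) t6
  obtain ⟨k1, k2, k3⟩ := key
  refine ⟨k1, ?_, ?_⟩
  · have h8 : Δ (eP S g Wf mK jH Y k) w = _ := k2
    rw [h8]
    ring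
  · have h8 : gr (eP S g Wf mK jH Y k) w = _ := k3
    rw [h8, t6.2.2, h6, ThC, DDv]
    simp only [map_add, map_sub, map_mul, map_div₀, map_one, Complex.ofReal_div, Complex.ofReal_one, Complex.ofReal_natCast, map_natCast]
    ring

end Pool.Agent.MQ3

end
end

section

/-!
# MQ3 EtaLoc: the local form of the field `η` of a box

Along the curve `eN - eP = log ‖L (p)‖`, and `Θ - 2 ∂ eH = ζ (div v - c) (p) - 2 ∂ log ‖L (p)‖` with `v (g) = c g`.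
-/

set_option autoImplicit false

open Topology Filter Metric MvPolynomial MeasureTheory Laplacian

noncomputable section

namespace Pool.Agent.MQ3

open Pool.Agent.H36.BP (EN fs)
open Pool.Agent.H17BP (Surface IsForm)
open Pool.Agent.H17EF (coneE)
open Pool.Agent.MQ (lam ztv dvg DDv gr dv)

variable {M : ℕ} {P : Ideal (MvPolynomial (Fin (M + 1)) ℂ)} {RD : MvPolynomial (Fin (M + 1)) ℂ} {m : ℕ} {X : NCModel P RD} {θ : WDiff (coneE P) m}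
  {l : LF M} {S : Web X θ l} {Ra : MvPolynomial (Fin (M + 1)) ℂ}

theorem EtaLoc_punct {z : ℂ} {p : ℂ → Prop} (h : ∀ᶠ w in 𝓝[≠] z, p w) : ∀ᶠ w in 𝓝[≠] z, ∀ᶠ w' in 𝓝 w, p w' := by
  have h1 := eventually_eventually_nhdsWithin.2 h
  filter_upwards [h1, self_mem_nhdsWithin] with w hw hne
  rwa [isOpen_compl_singleton.nhdsWithin_eq hne] at hw

/-- the algebra of the gradients -/
theorem EtaLoc_alg {eN eH eP ψ lF : ℂ → ℝ} {G : ℂ → ℂ} {Θw : ℂ} {w : ℂ} (h1 : ∀ᶠ x in 𝓝 w, eN x = eP x + ψ x) (h2 : ∀ x, eN x = eH x + lF x)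
    (hP : ContDiffAt ℝ 2 eP w) (hψ : ContDiffAt ℝ 2 ψ w) (hF : ContDiffAt ℝ 2 lF w) (hG : DifferentiableAt ℂ G w)
    (hgr : gr eP w + (starRingEnd ℂ) (G w) = (starRingEnd ℂ) Θw + gr lF w) :
    ContDiffAt ℝ 2 eN w ∧ (starRingEnd ℂ) (G w) - gr ψ w = (starRingEnd ℂ) Θw - gr eH w ∧
      Δ eN w + dv (fun x => (starRingEnd ℂ) (G x) - gr ψ x) w = Δ eP w := by
  have e1 : eN =ᶠ[𝓝 w] fun x => eP x + ψ x := h1
  have hN : ContDiffAt ℝ 2 eN w := (hP.add hψ).congr_of_eventuallyEq e1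
  have dP : DifferentiableAt ℝ eP w := hP.differentiableAt (by norm_num)
  have dψ : DifferentiableAt ℝ ψ w := hψ.differentiableAt (by norm_num)
  have dF : DifferentiableAt ℝ lF w := hF.differentiableAt (by norm_num)
  have dN : DifferentiableAt ℝ eN w := hN.differentiableAt (by norm_num)
  have g1 : gr eN w = gr eP w + gr ψ w := by
    rw [MQ.gr_congr e1, MQ.gr_add dP dψ]
  have g2 : gr eH w = gr eN w - gr lF w := by
    have e2 : eH = fun x => eN x - lF x := by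
      funext x
      rw [h2 x, add_sub_cancel_right]
    rw [e2, MQ.gr_sub dN dF]
  refine ⟨hN, ?_, ?_⟩
  · rw [g2, g1]
    linear_combination hgr
  · have l1 : Δ eN w = Δ eP w + Δ ψ w := by
      rw [Pool.Agent.H30M.lap_congr e1]
      exact Pool.Agent.H30M.lap_add hP hψ
    have l2 : DifferentiableAt ℝ (fun x => (starRingEnd ℂ) (G x)) w := (MQ.hasFDerivAt_conj_holo hG).differentiableAt
    have l3 : dv (fun x => (starRingEnd ℂ) (G x) - gr ψ x) w = - Δ ψ w := by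
      rw [MQ.dv_sub l2 (MQ.differentiableAt_gr hψ), MQ.dv_conj hG, zero_sub]
      congr 1
      exact MQ.lp_eq_lap hψ
    rw [l1, l3]
    ring

/-- the gradient of the logarithm of a vector along a curve -/
theorem EtaLoc_gr {n : ℕ} {L : ℂ × ℂ → EN n} {p : ℂ → ℂ × ℂ} {z : ℂ} (hL : AnalyticAt ℂ L (p z)) (hp : AnalyticAt ℂ p z) {b D : ℝ} (hb : 0 < b)
    (hbL : b ≤ ‖L (p z)‖) (hD : ‖fderiv ℂ L (p z)‖ ≤ D) : ‖gr (fun w => Real.log ‖L (p w)‖) z‖ ≤ D / b * ‖deriv p z‖ := by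
  have h0 : L (p z) ≠ 0 := by
    intro h
    rw [h, norm_zero] at hbL
    exact absurd hbL (not_le.2 hb)
  have hd : HasDerivAt (fun w => L (p w)) (fderiv ℂ L (p z) (deriv p z)) z :=
    hL.differentiableAt.hasFDerivAt.comp_hasDerivAt z hp.differentiableAt.hasDerivAt
  rw [MQ.gr_log_normV hd h0, norm_mul, RCLike.norm_conj, Complex.norm_real, norm_inv, norm_pow, norm_norm]
  have hn : 0 < ‖L (p z)‖ := norm_pos_iff.2 h0
  have h1 : ‖inner ℂ (L (p z)) (fderiv ℂ L (p z) (deriv p z))‖ ≤ ‖L (p z)‖ * (D * ‖deriv p z‖) := by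
    refine (norm_inner_le_norm _ _).trans (mul_le_mul_of_nonneg_left ?_ hn.le)
    exact ((fderiv ℂ L (p z)).le_opNorm _).trans (mul_le_mul_of_nonneg_right hD (norm_nonneg _))
  have hD0 : 0 ≤ D := (norm_nonneg _).trans hD
  calc (‖L (p z)‖ ^ 2)⁻¹ * ‖inner ℂ (L (p z)) (fderiv ℂ L (p z) (deriv p z))‖ ≤ (‖L (p z)‖ ^ 2)⁻¹ * (‖L (p z)‖ * (D * ‖deriv p z‖)) := by
        gcongr
    _ = D / ‖L (p z)‖ * ‖deriv p z‖ := by
        field_simp
    _ ≤ D / b * ‖deriv p z‖ := by gcongr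

theorem EtaLoc_dvg {v : ℂ × ℂ → ℂ × ℂ} {x : ℂ × ℂ} (hv : AnalyticAt ℂ v x) : AnalyticAt ℂ (dvg v) x := by
  have h1 : ∀ e : ℂ × ℂ, AnalyticAt ℂ (fun Q => fderiv ℂ v Q e) x := fun e =>
    ((ContinuousLinearMap.apply ℂ (ℂ × ℂ) e).analyticAt _).comp hv.fderiv
  exact (analyticAt_fst.comp (h1 (1, 0))).add (analyticAt_snd.comp (h1 (0, 1)))

theorem EtaLoc_κ (k : S.ι) (x : ℂ × ℂ) : AnalyticAt ℂ (S.κ k) x := analyticAt_mchart (S.c k).w.1 (S.c k).w'.1 (S.c k).w.2 (S.c k).w'.2 x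

/-- a polynomial which is not zero along the curve -/
theorem EtaLoc_ne {F : ℂ → EN M} (hF : Differentiable ℂ F) {R : MvPolynomial (Fin (M + 1)) ℂ} (h : ∃ z, eval (F z).ofLp R ≠ 0) (z : ℂ) :
    ∀ᶠ w in 𝓝[≠] z, eval (F w).ofLp R ≠ 0 := by
  have ha : AnalyticOnNhd ℂ (fun w => eval (F w).ofLp R) Set.univ := fun w _ =>
    AnalyticAt.fun_comp (g := fun x : EN M => eval x.ofLp R) (f := F) (Pool.Agent.H14.PP.analyticAt_evalEN R (F w)) (hF.analyticAt w)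
  rcases (ha z (Set.mem_univ z)).eventually_eq_zero_or_eventually_ne_zero with h0 | h0
  · exfalso
    obtain ⟨a, ha0⟩ := h
    have h1 := ha.eqOn_zero_of_preconnected_of_eventuallyEq_zero isPreconnected_univ (Set.mem_univ z) h0
    exact ha0 (h1 (Set.mem_univ a))
  · exact h0

/-- **EtaLoc.** The local form of the field `η` of a box; the constants do not depend on the curve. -/
theorem eta_loc {Wf : EN M → EN M → EN M → ℂ} {mK jH : ℕ} (hX : Surface (coneE P)) (hm : 1 ≤ mK)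
    (hW : IsForm (coneE P) mK jH Wf) {k : S.ι} {q : ℂ × ℂ} (hq : q ∈ S.D k) (hv : S.v k q ≠ 0) {g : ℂ × ℂ → ℂ} (hg : InvAt S Ra k q g)
    {H : ℂ × ℂ → ℂ × ℂ → EN 2} (hH : ∀ p w (a : ℂ), H p (a • w) = a • H p w) {L : ℂ × ℂ → EN 2} (hL : AnalyticAt ℂ L q) (hL0 : L q ≠ 0)
    (hHL : ∀ᶠ x in 𝓝 q, H (S.κ k x) (fderiv ℂ (S.κ k) x (S.v k x)) = (jc (S.κ k) x * g x) • L x) :
    ∃ N ∈ 𝓝 q, ∃ C : ℝ, ∀ F : ℂ → EN M, RCrv θ RD Ra F → ∀ Y : NCLift X F, WNe Wf Y → ∀ Θ : ℂ → ℂ, IsTh S Wf mK Y Θ →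
      ∀ z ∈ S.Om Y k, S.lf Y k z ∈ N → ∃ (η : ℂ → ℂ) (ψ : ℂ → ℝ), ContDiffAt ℝ 1 η z ∧ ‖η z‖ ≤ C * ‖deriv (S.lf Y k) z‖ ∧ ContDiffAt ℝ 2 ψ z ∧ |ψ z| ≤ C ∧
        ∀ᶠ w in 𝓝[≠] z, ContDiffAt ℝ 2 (eN H Wf mK jH Y k.1) w ∧ η w = (starRingEnd ℂ) (Θ w) - gr (eH H Wf mK Y k.1) w ∧
          Δ (eN H Wf mK jH Y k.1) w + dv η w = 2 * jH / mK * lam F w ^ 2 ∧ eN H Wf mK jH Y k.1 w - eP S g Wf mK jH Y k w = ψ w := by
  obtain ⟨hga, -, ⟨c, hc, hcv⟩, h, hh, hRh, -⟩ := hg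
  have hva : AnalyticAt ℂ (S.v k) q := v_an k q hq
  -- the constants
  obtain ⟨a, ha, ha'⟩ : ∃ a : ℝ, 0 < a ∧ a < ‖S.v k q‖ := exists_between (norm_pos_iff.2 hv)
  obtain ⟨b, hb, hb'⟩ : ∃ b : ℝ, 0 < b ∧ b < ‖L q‖ := exists_between (norm_pos_iff.2 hL0)
  set B : ℝ := ‖L q‖ + 1 with hB
  set D : ℝ := ‖fderiv ℂ L q‖ + 1 with hD
  set C₁ : ℝ := ‖dvg (S.v k) q - c q‖ + 1 with hC₁
  have e1 : ∀ᶠ x in 𝓝 q, a < ‖S.v k x‖ := hva.continuousAt.norm.eventually (lt_mem_nhds ha')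
  have e2 : ∀ᶠ x in 𝓝 q, b < ‖L x‖ := hL.continuousAt.norm.eventually (lt_mem_nhds hb')
  have e3 : ∀ᶠ x in 𝓝 q, ‖L x‖ < B := hL.continuousAt.norm.eventually (gt_mem_nhds (by rw [hB]; linarith))
  have e4 : ∀ᶠ x in 𝓝 q, ‖fderiv ℂ L x‖ < D := hL.fderiv.continuousAt.norm.eventually (gt_mem_nhds (by rw [hD]; linarith))
  have e5 : ∀ᶠ x in 𝓝 q, ‖dvg (S.v k) x - c x‖ < C₁ :=
    ((EtaLoc_dvg hva).continuousAt.sub hc.continuousAt).norm.eventually (gt_mem_nhds (by show ‖dvg (S.v k) q - c q‖ < C₁; rw [hC₁]; linarith))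
  have e6 : ∀ᶠ x in 𝓝 q, x ∈ S.D k := (D_open k).mem_nhds hq
  obtain ⟨N, hN, hNo, hqN⟩ := _root_.mem_nhds_iff.1 (((((((((((e1.and e2).and e3).and e4).and e5).and e6).and hga.eventually_analyticAt).and
    hc.eventually_analyticAt).and hL.eventually_analyticAt).and hcv).and hHL).and hRh)
  have hC₁0 : 0 < C₁ := by rw [hC₁]; positivity
  have hD0 : 0 < D := by rw [hD]; positivity
  have hB0 : 0 < B := by rw [hB]; positivity
  set C : ℝ := C₁ / a + D / b + (|Real.log b| + |Real.log B|) with hC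
  refine ⟨N, hNo.mem_nhds hqN, C, ?_⟩
  intro F hF Y hne Θ hΘ z hz hzN
  have hFW := hF.toWCrv
  set p : ℂ → ℂ × ℂ := S.lf Y k with hpdef
  have hp : AnalyticAt ℂ p z := lfN_an hFW Y k z hz
  have hOm : ∀ᶠ w in 𝓝 z, w ∈ S.Om Y k := (Om_open hFW Y k).mem_nhds hz
  have hpN : ∀ᶠ w in 𝓝 z, p w ∈ N := hp.continuousAt.eventually (hNo.mem_nhds hzN)
  have hode : ∀ᶠ w in 𝓝 z, (S.v k (p w)).1 * (deriv p w).2 - (S.v k (p w)).2 * (deriv p w).1 = 0 := hOm.mono fun w hw => lfN_tan hFW Y k w hw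
  have hvN : ∀ x ∈ N, AnalyticAt ℂ (S.v k) x ∧ S.v k x ≠ 0 := by
    intro x hx
    have hx' := hN hx
    simp only [Set.mem_ofPred_eq] at hx'
    obtain ⟨⟨⟨⟨⟨⟨⟨⟨⟨⟨⟨h1, h2⟩, h3⟩, h4⟩, h5⟩, h6⟩, h7⟩, h8⟩, h9⟩, h10⟩, h11⟩, h12⟩ := hx'
    exact ⟨v_an k x h6, norm_pos_iff.1 (ha.trans h1)⟩
  have hNN : ∀ x ∈ N, a < ‖S.v k x‖ ∧ b < ‖L x‖ ∧ ‖L x‖ < B ∧ ‖fderiv ℂ L x‖ < D ∧ ‖dvg (S.v k) x - c x‖ < C₁ ∧ AnalyticAt ℂ g x ∧ AnalyticAt ℂ c x ∧
      AnalyticAt ℂ L x ∧ fderiv ℂ g x (S.v k x) = c x * g x ∧ H (S.κ k x) (fderiv ℂ (S.κ k) x (S.v k x)) = (jc (S.κ k) x * g x) • L x ∧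
      (eval (S.σ k x).ofLp (RD * Ra) = 0 ↔ g x * h x = 0) := by
    intro x hx
    have hx' := hN hx
    simp only [Set.mem_ofPred_eq] at hx'
    obtain ⟨⟨⟨⟨⟨⟨⟨⟨⟨⟨⟨h1, h2⟩, h3⟩, h4⟩, h5⟩, h6⟩, h7⟩, h8⟩, h9⟩, h10⟩, h11⟩, h12⟩ := hx'
    exact ⟨h1, h2, h3, h4, h5, h7, h8, h9, h10, h11, h12⟩
  obtain ⟨hv0, hb0, hB1, hDz, hCz, hgz, hcz, hLz, -, -, -⟩ := hNN _ hzN
  set ζ : ℂ → ℂ := ztv (S.v k) p with hζdef
  have hζ : AnalyticAt ℂ ζ z := ztv_an hp (hvN _ hzN).1 hode (hvN _ hzN).2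
  have hder : ∀ᶠ w in 𝓝 z, deriv p w = ζ w • S.v k (p w) := by
    filter_upwards [hode, hpN] with w h1 h2
    exact ztv_smul h1 (hvN _ h2).2
  have hGp : AnalyticAt ℂ (fun w => dvg (S.v k) (p w) - c (p w)) z :=
    AnalyticAt.fun_comp (g := fun x => dvg (S.v k) x - c x) (f := p) ((EtaLoc_dvg (hvN _ hzN).1).sub hcz) hp
  set G : ℂ → ℂ := fun w => ζ w * (dvg (S.v k) (p w) - c (p w)) with hG
  have hGa : AnalyticAt ℂ G z := hζ.mul hGp
  have hLp : AnalyticAt ℂ (fun w => L (p w)) z := AnalyticAt.fun_comp (g := L) (f := p) hLz hp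
  have hLp0 : L (p z) ≠ 0 := norm_pos_iff.1 (hb.trans hb0)
  set ψ : ℂ → ℝ := fun w => Real.log ‖L (p w)‖ with hψ
  have hψc : ContDiffAt ℝ 2 ψ z := MQ.contDiffAt_log_norm (F := fun w => L (p w)) hLp hLp0
  refine ⟨fun w => (starRingEnd ℂ) (G w) - gr ψ w, ψ, ?_, ?_, hψc, ?_, ?_⟩
  · -- regularity
    have h1 : ContDiffAt ℝ 1 G z := (hGa.contDiffAt (n := 1)).restrict_scalars ℝ
    have h2 : ContDiffAt ℝ 1 (fun w => (starRingEnd ℂ) (G w)) z := (Complex.conjCLE.contDiff (n := 1)).contDiffAt.comp z h1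
    exact h2.sub (MQ.contDiffAt_gr (m := 1) hψc (by norm_num))
  · -- the bound
    have h1 : ‖G z‖ ≤ C₁ / a * ‖deriv p z‖ := by
      have h2 : ‖ζ z‖ * a ≤ ‖deriv p z‖ := by
        rw [hder.self_of_nhds, norm_smul]
        exact mul_le_mul_of_nonneg_left hv0.le (norm_nonneg _)
      have h3 : ‖ζ z‖ ≤ ‖deriv p z‖ / a := by rwa [le_div_iff₀ ha]
      calc ‖G z‖ = ‖ζ z‖ * ‖dvg (S.v k) (p z) - c (p z)‖ := norm_mul _ _
        _ ≤ ‖deriv p z‖ / a * C₁ := mul_le_mul h3 hCz.le (norm_nonneg _) (by positivity)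
        _ = C₁ / a * ‖deriv p z‖ := by ring
    have h4 := EtaLoc_gr hLz hp hb hb0.le hDz.le
    calc ‖(starRingEnd ℂ) (G z) - gr ψ z‖ ≤ ‖(starRingEnd ℂ) (G z)‖ + ‖gr ψ z‖ := norm_sub_le _ _
      _ ≤ C₁ / a * ‖deriv p z‖ + D / b * ‖deriv p z‖ := by
          rw [RCLike.norm_conj]
          exact add_le_add h1 h4
      _ = (C₁ / a + D / b) * ‖deriv p z‖ := by ring
      _ ≤ C * ‖deriv p z‖ := by
          refine mul_le_mul_of_nonneg_right ?_ (norm_nonneg _)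
          rw [hC]
          linarith [abs_nonneg (Real.log b), abs_nonneg (Real.log B)]
  · -- the difference
    have h1 : Real.log b ≤ ψ z := Real.log_le_log hb hb0.le
    have h2 : ψ z ≤ Real.log B := Real.log_le_log (hb.trans hb0) hB1.le
    have h3 : 0 ≤ C₁ / a := by positivity
    have h4 : 0 ≤ D / b := by positivity
    rw [abs_le]
    constructor
    · have := neg_abs_le (Real.log b)
      rw [hC]
      linarith [abs_nonneg (Real.log B)]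
    · have := le_abs_self (Real.log B)
      rw [hC]
      linarith [abs_nonneg (Real.log b)]
  -- the identities off `z`
  have hFne : ∀ w, F w ≠ 0 := by
    intro w h0
    have h1 := hFW.mem w
    rw [h0] at h1
    exact hX.zero h1
  have hgne : ∀ᶠ w in 𝓝[≠] z, g (p w) ≠ 0 := by
    have h1 := EtaLoc_ne hFW.diff hFW.ne z
    have h2 := EtaLoc_ne hFW.diff hF.neR z
    filter_upwards [h1, h2, hOm.filter_mono nhdsWithin_le_nhds, hpN.filter_mono nhdsWithin_le_nhds] with w h3 h4 h5 h6 h7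
    obtain ⟨-, -, -, -, -, -, -, -, -, -, h8⟩ := hNN _ h6
    obtain ⟨d, hd⟩ := hFW.hom
    obtain ⟨d', hd'⟩ := hF.homR
    obtain ⟨r, hr, hr'⟩ := Y.eq k.1 w (Om_sub hFW Y k h5)
    have h9 : X.ρ k.1 (Y.p k.1 w) = S.σ k (p w) := by
      show _ = X.ρ k.1 (S.κ k (p w))
      rw [(lfN_mem hFW Y k w h5).2]
    rw [h9] at hr'
    have h10 := h8.2 (by rw [h7, zero_mul])
    rw [map_mul] at h10
    rcases mul_eq_zero.1 h10 with h11 | h11
    · exact h3 (by rw [hr', Pool.Agent.H14.PP.eval_smulEN hd, h11, mul_zero])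
    · exact h4 (by rw [hr', Pool.Agent.H14.PP.eval_smulEN hd', h11, mul_zero])
  have hgf : ∃ᶠ w in 𝓝 z, g (p w) ≠ 0 := hgne.frequently.filter_mono nhdsWithin_le_nhds
  have hkey := gr_eP hX hm hW hFW Y hne hΘ hz hgz hgf
  -- the difference of the potentials
  have hdiff : ∀ᶠ w in 𝓝[≠] z, eN H Wf mK jH Y k.1 w = eP S g Wf mK jH Y k w + ψ w := by
    filter_upwards [hgne, hOm.filter_mono nhdsWithin_le_nhds, hOm.eventually_nhds.filter_mono nhdsWithin_le_nhds, hpN.filter_mono nhdsWithin_le_nhds,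
      hder.filter_mono nhdsWithin_le_nhds, lfN_ne hFW Y k z hz, hp.eventually_analyticAt.filter_mono nhdsWithin_le_nhds] with w h1 h2 h3 h4 h5 h6 h7
    obtain ⟨-, h8, -, -, -, -, -, -, -, h9, -⟩ := hNN _ h4
    have h10 : Y.p k.1 w = S.κ k (p w) := (lfN_mem hFW Y k w h2).2.symm
    have h11 : deriv (Y.p k.1) w = ζ w • fderiv ℂ (S.κ k) (p w) (S.v k (p w)) := by
      have h12 : Y.p k.1 =ᶠ[𝓝 w] fun x => S.κ k (p x) := h3.mono fun x hx => (lfN_mem hFW Y k x hx).2.symm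
      have h13 : deriv (fun x => S.κ k (p x)) w = fderiv ℂ (S.κ k) (p w) (deriv p w) :=
        ((EtaLoc_κ k (p w)).differentiableAt.hasFDerivAt.comp_hasDerivAt w h7.differentiableAt.hasDerivAt).deriv
      rw [h12.deriv_eq, h13, h5, map_smul]
    have h13 : H (Y.p k.1 w) (deriv (Y.p k.1) w) = (ζ w * (jc (S.κ k) (p w) * g (p w))) • L (p w) := by
      rw [h11, h10, hH, h9, smul_smul]
    have h14 : L (p w) ≠ 0 := norm_pos_iff.1 (hb.trans h8)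
    have n1 : ‖ζ w‖ ≠ 0 := norm_ne_zero_iff.2 h6.2.2.2.1
    have n2 : ‖jc (S.κ k) (p w)‖ ≠ 0 := norm_ne_zero_iff.2 h6.2.2.2.2
    have n3 : ‖g (p w)‖ ≠ 0 := norm_ne_zero_iff.2 h1
    have n4 : ‖L (p w)‖ ≠ 0 := norm_ne_zero_iff.2 h14
    show Real.log ‖H (Y.p k.1 w) (deriv (Y.p k.1) w)‖ + 1 / mK * Real.log ‖wt Wf Y k.1 w‖ + jH / mK * Real.log ‖F w‖ =
      Real.log ‖ζ w‖ + Real.log ‖jc (S.κ k) (p w)‖ + Real.log ‖g (p w)‖ + 1 / mK * Real.log ‖wt Wf Y k.1 w‖ + jH / mK * Real.log ‖F w‖ +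
        Real.log ‖L (p w)‖
    rw [h13, norm_smul, norm_mul, norm_mul, Real.log_mul (mul_ne_zero n1 (mul_ne_zero n2 n3)) n4, Real.log_mul n1 (mul_ne_zero n2 n3), Real.log_mul n2 n3]
    ring
  have hdiff' := EtaLoc_punct hdiff
  filter_upwards [hkey, hdiff, hdiff', hgne, hpN.filter_mono nhdsWithin_le_nhds, hder.filter_mono nhdsWithin_le_nhds,
    hGa.eventually_analyticAt.filter_mono nhdsWithin_le_nhds, hLp.eventually_analyticAt.filter_mono nhdsWithin_le_nhds,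
    hp.eventually_analyticAt.filter_mono nhdsWithin_le_nhds] with w h1 h2 h3 h4 h5 h6 h7 h8 h9
  obtain ⟨k1, k2, k3⟩ := h1
  obtain ⟨-, h10, -, -, -, hgw, -, -, hcw, -, -⟩ := hNN _ h5
  have hψw : ContDiffAt ℝ 2 ψ w := MQ.contDiffAt_log_norm (F := fun w => L (p w)) h8 (norm_pos_iff.1 (hb.trans h10))
  have hlF : ContDiffAt ℝ 2 (fun w => (jH : ℝ) / mK * Real.log ‖F w‖) w :=
    contDiffAt_const.mul (MQ.lap_log_norm (hFW.diff.analyticAt w) (hFne w)).1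
  have hDD : DDv (S.v k) g p w = G w := by
    have h11 : deriv (fun x => g (p x)) w = ζ w * (c (p w) * g (p w)) := by
      have h12 : deriv (fun x => g (p x)) w = fderiv ℂ g (p w) (deriv p w) :=
        (hgw.differentiableAt.hasFDerivAt.comp_hasDerivAt w h9.differentiableAt.hasDerivAt).deriv
      rw [h12, h6, map_smul, hcw, smul_eq_mul]
    rw [DDv, h11, ← mul_assoc, mul_div_cancel_right₀ _ h4]
    show dvg (S.v k) (p w) * ζ w - ζ w * c (p w) = ζ w * (dvg (S.v k) (p w) - c (p w))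
    ring
  rw [hDD] at k3
  obtain ⟨r1, r2, r3⟩ := EtaLoc_alg (eN := eN H Wf mK jH Y k.1) (eH := eH H Wf mK Y k.1) (lF := fun w => (jH : ℝ) / mK * Real.log ‖F w‖) h3
    (fun x => rfl) k1 hψw hlF h7.differentiableAt k3
  refine ⟨r1, r2, ?_, ?_⟩
  · rw [r3, k2]
  · rw [h2, add_sub_cancel_left]

end Pool.Agent.MQ3

end
end
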