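import Pool.Agent.H94.G6.M101
import Pool.Agent.H94.G6.M135
import Pool.Agent.H94.G6.M41
import Pool.Agent.H94.G6.M73
import Pool.Agent.H94.G6.M97

/-! The parts of this file: H36.TB.Met_2, H36.TB.Nod_1, H36.TB.EnN. -/

section

/-!
# TB Met: the metric theorem with two-sided bounds
-/

set_option autoImplicit false

open Topology Filter Metric

namespace Pool.Agent.H36.TB

open Pool.Agent.H36.BP
open Pool.Agent.H14.PP

variable {N : ℕ} {W : Type*} [NormedAddCommGroup W] [InnerProductSpace ℂ W]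
  {X K T : Set (EN N)} {m j : ℕ} {Q : EN N → W} {D : ℕ}

section off

end off

/-- MODULE Met: `H14.PP.exists_metric` with the exponent `c₀` given, `κ` small, the upper bound by the coefficient of the form in every
chart, the lower bound off `T`, and the two-sided bounds at the smooth points and at the nodes of `T`. -/
theorem exists_metric_tb (hX : IsCone X) (hK : IsOpenPart X K) (hKT : ∀ x ∈ X, x ∉ K → x ∈ T)
    (hQ : IsEq X T Q D) (hT : IsNodal X K T) (hm : 1 ≤ m) (hj : 1 ≤ j) (Ω : Form K m j)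
    (hΩ : Ω.NoZeroOff T) (hΩ' : Ω.PoleBound X)
    (hur : ∀ (l : Filter ℕ), l.NeBot → ∀ (F : ℕ → ℂ → EN N) (H : ℂ → EN N) (k : ℕ) (z₀ : ℂ)
      (s : ℝ), 0 < s → (∀ᶠ n in l, Curve K (Metric.ball z₀ s) (F n)) →
      DifferentiableOn ℂ H (Metric.ball z₀ s) →
      TendstoLocallyUniformlyOn F (fun z => (z - z₀) ^ k • H z) l (Metric.ball z₀ s) → H z₀ ≠ 0 →
      H z₀ ∉ K → ∀ᶠ z in 𝓝 z₀, H z ∉ K) {c₀ κ₁ : ℝ} (hc₀ : 0 < c₀) (hc₁ : c₀ < j / m) (hκ₁ : 0 < κ₁) :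
    ∃ (M' : ℕ) (κ C : ℝ) (G : EN N → EN N → ℝ), 1 ≤ M' ∧ 0 < κ ∧ κ ≤ κ₁ ∧ κ ≤ 1 / 4 ∧ MetricData K (K ∩ T) G (rho Q D) M' c₀ C ∧
      (∀ (χ : Chart X), ∀ p ∈ ball (0 : ℂ × ℂ) 2, ∃ B : ℝ, 1 ≤ B ∧ ∀ᶠ y in 𝓝 p, χ.σ y ∈ K → ∀ w,
        G (χ.σ y) (fderiv ℂ χ.σ y w) ≤ B * (ACoef Ω χ y * ‖w‖)) ∧
      (∀ (χ : Chart X), ∀ p ∈ ball (0 : ℂ × ℂ) 2, χ.σ p ∉ T → ∃ B : ℝ, 1 ≤ B ∧ ∀ᶠ y in 𝓝 p, ∀ w,
        ACoef Ω χ y * ‖w‖ ≤ B * G (χ.σ y) (fderiv ℂ χ.σ y w)) ∧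
      (∀ (χ : Chart X) (nd : Bool), HasType T χ nd → ∀ t₀ : ℂ, ‖t₀‖ < 2 → (nd = true → t₀ ≠ 0) →
        ∃ B : ℝ, 1 ≤ B ∧ ∀ᶠ y in 𝓝 ((0 : ℂ), t₀), χ.σ y ∈ K → ∀ w,
          ACoef Ω χ y * sm κ y w ≤ B * G (χ.σ y) (fderiv ℂ χ.σ y w) ∧
          G (χ.σ y) (fderiv ℂ χ.σ y w) ≤ B * (ACoef Ω χ y * sm κ y w)) ∧
      ∀ (χ : Chart X), HasType T χ true →
        ∃ B : ℝ, 1 ≤ B ∧ ∀ᶠ y in 𝓝 (0 : ℂ × ℂ), χ.σ y ∈ K → ∀ w,
          ACoef Ω χ y * sn κ y w ≤ B * G (χ.σ y) (fderiv ℂ χ.σ y w) ∧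
          G (χ.σ y) (fderiv ℂ χ.σ y w) ≤ B * (ACoef Ω χ y * sn κ y w) := by
  obtain ⟨n, χ, nd, P, M₀, δ, c₁, c, C, hκ, hM, hG⟩ := exists_metric_data hX hK hKT hQ hT hm hj Ω hΩ hΩ' hur hc₀ hc₁ hκ₁
  have hTs : ∀ x ∈ T, ∀ c : ℂ, c ≠ 0 → c • x ∈ T := fun x hx c hc => hQ.smul_mem hX hx hc
  have hκ0 := hM.conv.κ_pos
  have hκ4 := hM.conv.κ_le
  refine ⟨M₀ + 1, P.κ, C, GG Ω χ nd P Q D (M₀ + 1) δ c₁, by omega, hκ0, hκ, hκ4, hG,
    fun χ₀ p hp => GG_ub hX hK hKT hm hQ hΩ hM χ₀ hp, fun χ₀ p hp hpT => GG_off hX hK hKT hQ χ₀ hp hpT, ?_, ?_⟩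
  · intro χ₀ nd₀ h₀ t₀ ht₀ hnd
    have hp : ((0 : ℂ), t₀) ∈ ball (0 : ℂ × ℂ) 2 := by
      rw [mem_ball_zero_iff, Prod.norm_def]
      simpa using ht₀
    refine two_sided hX hK hm hQ hM χ₀ hp ((h₀ _ hp).2 (Or.inl rfl)) (fun y w => sm_nonneg _ _ _) fun i hU => ?_
    obtain ⟨B, hB, hev⟩ := cmp_smooth hX hTs χ₀ (χ i) h₀ (hM.ty i) ht₀ hnd hU
    exact ⟨B, hB, hev.mono fun y hy h1 w => hy h1 P.κ hκ0.le hκ4 w⟩
  · intro χ₀ h₀
    have hp : (0 : ℂ × ℂ) ∈ ball (0 : ℂ × ℂ) 2 := mem_ball_self (by norm_num)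
    refine two_sided hX hK hm hQ hM χ₀ hp ((h₀ _ hp).2 (Or.inl rfl)) (fun y w => sn_nonneg _ _ _) fun i hU => ?_
    obtain ⟨B, hB, hev⟩ := cmp_node hX hTs χ₀ (χ i) h₀ (hM.ty i) hU
    exact ⟨B, hB, hev.mono fun y hy h1 w => hy P.κ hκ0.le hκ4 w⟩

end Pool.Agent.H36.TB

end

section

/-!
# TB Nod: the metric of the nodal case with two-sided bounds, for surfaces in `ℙ(V)`
-/

set_option autoImplicit false

open Topology Filter Metric

noncomputable section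

namespace Pool.Agent.H36.TB

open Pool.Agent.H36.BP
open Pool.Agent.H14.PP (IsCone IsOpenPart IsEq IsNodal Form HasType DType Chart ACoef aCoef rho)
open Pool.Agent.H17BP (Surface IsForm NoZeros NodalAt IsChart)

variable {N : ℕ}

/-! ## the transformation of the coefficient of the form and of the metric -/

section transfer

variable {V : Type} [NormedAddCommGroup V] [NormedSpace ℂ V] {X : Set V} {m j : ℕ} {Ω : V → V → V → ℂ}

end transfer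

/-- MODULE Nod: `H14.KB.nodal_metric` with the bounds, in terms of the charts of the surface in `ℙ(V)`. -/
theorem nodal_metric_tb {V : Type} [NormedAddCommGroup V] [NormedSpace ℂ V] {N : ℕ} (L : V ≃L[ℂ] EN N)
    {W : Type} [NormedAddCommGroup W] [InnerProductSpace ℂ W] {X B : Set V} {m j : ℕ}
    {Ω : V → V → V → ℂ} {Q : V → W} {D : ℕ} (hX : Surface X) (hQ : ∀ x, AnalyticAt ℂ Q x)
    (hQs : ∀ (c : ℂ) (x : V), Q (c • x) = c ^ D • Q x) (hB : ∀ x, x ∈ B ↔ x ∈ X ∧ Q x = 0)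
    (hn : ∀ x ∈ X, NodalAt X B x) (hm : 1 ≤ m) (hj : 1 ≤ j) (hΩ : IsForm X m j Ω)
    (hz : NoZeros X B Ω) {c₀ κ₁ : ℝ} (hc₀ : 0 < c₀) (hc₁ : c₀ < j / m) (hκ₁ : 0 < κ₁) :
    Pool.Agent.H14.PP.IsEq (L.symm ⁻¹' X : Set (EN N)) (L.symm ⁻¹' B) (fun y => Q (L.symm y)) D ∧
    ∃ (M : ℕ) (κ C : ℝ) (G : EN N → EN N → ℝ), 0 < κ ∧ κ ≤ κ₁ ∧ κ ≤ 1 / 4 ∧ MetricData (L.symm ⁻¹' X : Set (EN N))
      ((L.symm ⁻¹' X : Set (EN N)) ∩ L.symm ⁻¹' B) G
      (Pool.Agent.H14.PP.rho (fun y => Q (L.symm y)) D) M c₀ C ∧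
      (∀ σ τ, IsChart X σ τ → ∃ A : ℝ, 1 ≤ A ∧ ∀ᶠ p in 𝓝 (0 : ℂ × ℂ), ∀ w,
        G (L (σ p)) (L (fderiv ℂ σ p w)) ≤ A * (‖oC Ω σ p‖ ^ (1 / (m : ℝ)) * ‖w‖)) ∧
      (∀ σ τ, IsChart X σ τ → σ 0 ∉ B → ∃ A : ℝ, 1 ≤ A ∧ ∀ᶠ p in 𝓝 (0 : ℂ × ℂ), ∀ w,
        ‖oC Ω σ p‖ ^ (1 / (m : ℝ)) * ‖w‖ ≤ A * G (L (σ p)) (L (fderiv ℂ σ p w))) ∧
      (∀ σ τ, IsChart X σ τ → (∀ᶠ p in 𝓝 (0 : ℂ × ℂ), (σ p ∈ B ↔ p.1 = 0)) →
        ∃ A : ℝ, 1 ≤ A ∧ ∀ᶠ p in 𝓝 (0 : ℂ × ℂ), ∀ w,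
          ‖oC Ω σ p‖ ^ (1 / (m : ℝ)) * sm κ p w ≤ A * G (L (σ p)) (L (fderiv ℂ σ p w)) ∧
          G (L (σ p)) (L (fderiv ℂ σ p w)) ≤ A * (‖oC Ω σ p‖ ^ (1 / (m : ℝ)) * sm κ p w)) ∧
      ∀ σ τ, IsChart X σ τ → (∀ᶠ p in 𝓝 (0 : ℂ × ℂ), (σ p ∈ B ↔ p.1 * p.2 = 0)) →
        ∃ A : ℝ, 1 ≤ A ∧ ∀ᶠ p in 𝓝 (0 : ℂ × ℂ), ∀ w,
          ‖oC Ω σ p‖ ^ (1 / (m : ℝ)) * sn κ p w ≤ A * G (L (σ p)) (L (fderiv ℂ σ p w)) ∧
          G (L (σ p)) (L (fderiv ℂ σ p w)) ≤ A * (‖oC Ω σ p‖ ^ (1 / (m : ℝ)) * sn κ p w) := by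
  set X' : Set (EN N) := L.symm ⁻¹' X with hX'
  set T' : Set (EN N) := L.symm ⁻¹' B with hT'
  have hBs : ∀ x ∈ B, ∀ c : ℂ, c ≠ 0 → c • x ∈ B := by
    intro x hx c hc
    obtain ⟨h1, h2⟩ := (hB x).mp hx
    exact (hB _).mpr ⟨hX.smul x h1 c hc, by rw [hQs, h2, smul_zero]⟩
  have hBX : B ⊆ X := fun x hx => ((hB x).mp hx).1
  have hcone : IsCone X' := isCone_transport L hX
  have hT's : ∀ x ∈ T', ∀ c : ℂ, c ≠ 0 → c • x ∈ T' := by
    intro x hx c hc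
    show L.symm (c • x) ∈ B
    rw [map_smul]
    exact hBs _ hx c hc
  have hopen : IsOpenPart X' X' := ⟨le_refl _, hcone.smul_mem, fun x _ => Filter.Eventually.of_forall fun y h => h⟩
  have hiff : ∀ y : V, (L y ∈ T' ↔ y ∈ B) := by
    intro y
    show L.symm (L y) ∈ B ↔ _
    rw [L.symm_apply_apply]
  have hnodal : IsNodal X' X' T' := by
    intro x hx
    have hxB : L.symm x ∈ B := hx
    obtain ⟨σ, τ, hc, h0, h1⟩ := hn (L.symm x) (hBX hxB)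
    have hg := germ_transport L hc
    have hLσ0 : L (σ 0) = x := by rw [h0, L.apply_symm_apply]
    have hiffX : ∀ᶠ p in 𝓝 (0 : ℂ × ℂ), L (σ p) ∈ X' := by
      filter_upwards [hc.σ_mem] with p hp
      show L.symm (L (σ p)) ∈ X
      rwa [L.symm_apply_apply]
    have hd : ∀ᶠ p in 𝓝 (0 : ℂ × ℂ), (L (σ p) ∉ X' ↔ (((false, false) : Bool × Bool).1 = true ∧ p.1 = 0) ∨
        (((false, false) : Bool × Bool).2 = true ∧ p.2 = 0)) := by
      filter_upwards [hiffX] with p hp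
      simp [hp]
    rcases h1 with h1 | h1 | h1
    · exfalso
      have h2 := h1.self_of_nhds
      rw [h0] at h2
      exact h2 hxB
    · have hnd : ∀ᶠ p in 𝓝 (0 : ℂ × ℂ), (L (σ p) ∈ T' ↔ p.1 = 0 ∨ (false = true ∧ p.2 = 0)) := by
        filter_upwards [h1] with p hp
        rw [hiff, hp]
        simp
      obtain ⟨χ, h2, h3, h4, h5⟩ := exists_chart hcone hcone.smul_mem hT's hg hnd hd
      refine ⟨χ, false, (false, false), ?_, ?_, h4, h5, by simp⟩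
      · rwa [hLσ0] at h2
      · rwa [hLσ0] at h3
    · have hnd : ∀ᶠ p in 𝓝 (0 : ℂ × ℂ), (L (σ p) ∈ T' ↔ p.1 = 0 ∨ (true = true ∧ p.2 = 0)) := by
        filter_upwards [h1] with p hp
        rw [hiff, hp]
        simp
      obtain ⟨χ, h2, h3, h4, h5⟩ := exists_chart hcone hcone.smul_mem hT's hg hnd hd
      refine ⟨χ, true, (false, false), ?_, ?_, h4, h5, by simp⟩
      · rwa [hLσ0] at h2
      · rwa [hLσ0] at h3
  have heq : IsEq X' T' (fun y => Q (L.symm y)) D := by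
    refine ⟨fun x => (hQ _).comp ((L.symm : EN N →L[ℂ] V).analyticAt x), fun c x => ?_, fun x => ?_⟩
    · show Q (L.symm (c • x)) = _
      rw [map_smul, hQs]
    · exact hB (L.symm x)
  have hnz : (formT L hΩ).NoZeroOff T' := by
    intro x hx hxT v w hv hw hli
    refine hz (L.symm x) hx hxT _ (tan_transport L hv) _ (tan_transport L hw) ?_
    have h1 := hli.map' ((L.symm : EN N →L[ℂ] V) : EN N →ₗ[ℂ] V) (LinearMap.ker_eq_bot.mpr L.symm.injective)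
    have h2 : (((L.symm : EN N →L[ℂ] V) : EN N →ₗ[ℂ] V) ∘ ![x, v, w]) = ![L.symm x, L.symm v, L.symm w] := by
      funext i
      fin_cases i <;> rfl
    rw [h2] at h1
    exact h1
  have hpole : (formT L hΩ).PoleBound X' := by
    intro χ d hd
    have hdf : d = (false, false) := by
      have h1 : d.1 = false := by
        by_contra h
        have h2 : d.1 = true := by simpa using h
        have h3 := (hd 0 (mem_ball_self (by norm_num))).mpr (Or.inl ⟨h2, rfl⟩)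
        exact h3 (χ.σ_mem 0 (mem_ball_self (by norm_num))).1
      have h1' : d.2 = false := by
        by_contra h
        have h2 : d.2 = true := by simpa using h
        have h3 := (hd 0 (mem_ball_self (by norm_num))).mpr (Or.inr ⟨h2, rfl⟩)
        exact h3 (χ.σ_mem 0 (mem_ball_self (by norm_num))).1
      exact Prod.ext h1 h1'
    refine ⟨fun p => aCoef (formT L hΩ) χ p, fun p hp => ?_, fun p hp _ => ?_⟩
    · refine (formT L hΩ).analytic χ.σ p (χ.σ_an p hp) ?_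
      filter_upwards [isOpen_ball.mem_nhds hp] with q hq
      exact (χ.σ_mem q hq).1
    · rw [hdf]
      simp [Pool.Agent.H14.PP.gD]
  refine ⟨heq, ?_⟩
  obtain ⟨M, κ, C, G, -, hκ0, hκ1, hκ4, hG, b1, b2, b3, b4⟩ := exists_metric_tb hcone hopen (fun x hx hxn => absurd hx hxn) heq hnodal hm hj
    (formT L hΩ) hnz hpole
    (hur_of_closed hcone.smul_mem (fun x hx hx0 => (hcone.closed.closure_subset_iff.mpr (Set.subset_insert 0 X') hx).resolve_left hx0))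
    hc₀ hc₁ hκ₁
  have h0 : (0 : ℂ × ℂ) ∈ ball (0 : ℂ × ℂ) 2 := mem_ball_self (by norm_num)
  have hball : ∀ᶠ y in 𝓝 (0 : ℂ × ℂ), y ∈ ball (0 : ℂ × ℂ) 2 := isOpen_ball.mem_nhds h0
  -- the scales
  have hsc : ∀ r : ℝ, 0 < r → ∃ R : ℝ, 1 ≤ R ∧ ∀ x : ℂ, ‖x‖ ≤ R * ‖(r : ℂ) * x‖ ∧ ‖(r : ℂ) * x‖ ≤ R * ‖x‖ := by
    intro r hr
    refine ⟨max 1 (max r r⁻¹), le_max_left _ _, fun x => ?_⟩
    have e1 : ‖(r : ℂ) * x‖ = r * ‖x‖ := by rw [norm_mul, Complex.norm_real, Real.norm_of_nonneg hr.le]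
    rw [e1]
    have hx := norm_nonneg x
    constructor
    · calc ‖x‖ = r⁻¹ * (r * ‖x‖) := by field_simp
        _ ≤ max 1 (max r r⁻¹) * (r * ‖x‖) :=
          mul_le_mul_of_nonneg_right ((le_max_right _ _).trans (le_max_right _ _)) (by positivity)
    · exact mul_le_mul_of_nonneg_right ((le_max_left _ _).trans (le_max_right _ _)) hx
  refine ⟨M, κ, C, G, hκ0, hκ1, hκ4, hG, ?_, ?_, ?_, ?_⟩
  · intro σ τ hc
    obtain ⟨χ, r, a, hr, hχ, htr⟩ := transfer L hX hm hΩ hc hG (S := fun _ => True) (Eventually.of_forall fun _ => trivial)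
    refine (htr (fun _ w => ‖w‖) (fun _ w => norm_nonneg w) 1 le_rfl (fun _ w => by simp) (fun _ w => by simp)).1 ?_
    obtain ⟨B₁, hB₁, hev⟩ := b1 χ 0 h0
    refine ⟨B₁, hB₁, ?_⟩
    filter_upwards [hev, hball] with y hy hyb w
    exact hy (χ.σ_mem y hyb).1 w
  · intro σ τ hc hσB
    obtain ⟨χ, r, a, hr, hχ, htr⟩ := transfer L hX hm hΩ hc hG (S := fun _ => True) (Eventually.of_forall fun _ => trivial)
    refine (htr (fun _ w => ‖w‖) (fun _ w => norm_nonneg w) 1 le_rfl (fun _ w => by simp) (fun _ w => by simp)).2 ?_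
    refine b2 χ 0 h0 fun h1 => hσB ?_
    obtain ⟨c1, c2, -⟩ := hχ 0 h0
    rw [c2, smul_zero] at h1
    have h3 := hT's _ h1 _ (inv_ne_zero c1)
    rw [smul_smul, inv_mul_cancel₀ c1, one_smul] at h3
    exact (hiff _).1 h3
  · intro σ τ hc hσB
    obtain ⟨χ, r, a, hr, hχ, htr⟩ := transfer L hX hm hΩ hc hG hσB
    obtain ⟨R, hR, hRs⟩ := hsc r hr
    have hty : HasType T' χ false := by
      intro p hp
      obtain ⟨c1, c2, c3⟩ := hχ p hp
      have h1 : (χ.σ p ∈ T') ↔ L (σ ((r : ℂ) • p)) ∈ T' := by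
        rw [c2]
        constructor
        · intro h3
          have h4 := hT's _ h3 _ (inv_ne_zero c1)
          rwa [smul_smul, inv_mul_cancel₀ c1, one_smul] at h4
        · intro h3
          exact hT's _ h3 _ c1
      rw [h1, hiff, c3]
      have hrC : (r : ℂ) ≠ 0 := by exact_mod_cast hr.ne'
      simp [hr.ne']
    obtain ⟨t1, t2⟩ := htr (fun y w => sm κ y w) (fun y w => sm_nonneg κ y w) R hR
      (fun p w => sm_scale hκ0.le hκ4 hR (by simpa using (hRs p.1).1) w) (fun p w => sm_scale hκ0.le hκ4 hR (by simpa using (hRs p.1).2) w)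
    obtain ⟨B₁, hB₁, hev⟩ := b3 χ false hty 0 (by simp) (fun h => absurd h (by decide))
    have hev' : ∀ᶠ y in 𝓝 (0 : ℂ × ℂ), ∀ w, ACoef (formT L hΩ) χ y * sm κ y w ≤ B₁ * G (χ.σ y) (fderiv ℂ χ.σ y w) ∧
          G (χ.σ y) (fderiv ℂ χ.σ y w) ≤ B₁ * (ACoef (formT L hΩ) χ y * sm κ y w) := by
      have hev2 : ∀ᶠ y in 𝓝 (0 : ℂ × ℂ), χ.σ y ∈ X' → ∀ w, ACoef (formT L hΩ) χ y * sm κ y w ≤ B₁ * G (χ.σ y) (fderiv ℂ χ.σ y w) ∧
          G (χ.σ y) (fderiv ℂ χ.σ y w) ≤ B₁ * (ACoef (formT L hΩ) χ y * sm κ y w) := hev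
      filter_upwards [hev2, hball] with y hy hyb w
      exact hy (χ.σ_mem y hyb).1 w
    obtain ⟨A₁, hA₁, g1⟩ := t1 ⟨B₁, hB₁, hev'.mono fun y hy w => (hy w).2⟩
    obtain ⟨A₂, hA₂, g2⟩ := t2 ⟨B₁, hB₁, hev'.mono fun y hy w => (hy w).1⟩
    refine ⟨max A₁ A₂, le_max_of_le_left hA₁, ?_⟩
    filter_upwards [g1, g2, hc.σ_mem] with p f1 f2 f3 w
    have hmem : L (σ p) ∈ X' := by
      show L.symm (L (σ p)) ∈ X
      rw [L.symm_apply_apply]
      exact f3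
    exact ⟨(f2 w).trans (mul_le_mul_of_nonneg_right (le_max_right _ _) (hG.nonneg _ hmem _)),
      (f1 w).trans (mul_le_mul_of_nonneg_right (le_max_left _ _)
        (mul_nonneg (Real.rpow_nonneg (norm_nonneg _) _) (sm_nonneg _ _ _)))⟩
  · intro σ τ hc hσB
    obtain ⟨χ, r, a, hr, hχ, htr⟩ := transfer L hX hm hΩ hc hG hσB
    obtain ⟨R, hR, hRs⟩ := hsc r hr
    have hty : HasType T' χ true := by
      intro p hp
      obtain ⟨c1, c2, c3⟩ := hχ p hp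
      have h1 : (χ.σ p ∈ T') ↔ L (σ ((r : ℂ) • p)) ∈ T' := by
        rw [c2]
        constructor
        · intro h3
          have h4 := hT's _ h3 _ (inv_ne_zero c1)
          rwa [smul_smul, inv_mul_cancel₀ c1, one_smul] at h4
        · intro h3
          exact hT's _ h3 _ c1
      rw [h1, hiff, c3]
      have hrC : (r : ℂ) ≠ 0 := by exact_mod_cast hr.ne'
      simp [hr.ne']
    obtain ⟨t1, t2⟩ := htr (fun y w => sn κ y w) (fun y w => sn_nonneg κ y w) R hR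
      (fun p w => sn_scale hκ0.le hκ4 hR (by simpa using (hRs p.1).1) (by simpa using (hRs p.2).1) w)
      (fun p w => sn_scale hκ0.le hκ4 hR (by simpa using (hRs p.1).2) (by simpa using (hRs p.2).2) w)
    obtain ⟨B₁, hB₁, hev⟩ := b4 χ hty
    have hev' : ∀ᶠ y in 𝓝 (0 : ℂ × ℂ), ∀ w, ACoef (formT L hΩ) χ y * sn κ y w ≤ B₁ * G (χ.σ y) (fderiv ℂ χ.σ y w) ∧
          G (χ.σ y) (fderiv ℂ χ.σ y w) ≤ B₁ * (ACoef (formT L hΩ) χ y * sn κ y w) := by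
      filter_upwards [hev, hball] with y hy hyb w
      exact hy (χ.σ_mem y hyb).1 w
    obtain ⟨A₁, hA₁, g1⟩ := t1 ⟨B₁, hB₁, hev'.mono fun y hy w => (hy w).2⟩
    obtain ⟨A₂, hA₂, g2⟩ := t2 ⟨B₁, hB₁, hev'.mono fun y hy w => (hy w).1⟩
    refine ⟨max A₁ A₂, le_max_of_le_left hA₁, ?_⟩
    filter_upwards [g1, g2, hc.σ_mem] with p f1 f2 f3 w
    have hmem : L (σ p) ∈ X' := by
      show L.symm (L (σ p)) ∈ X
      rw [L.symm_apply_apply]
      exact f3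
    exact ⟨(f2 w).trans (mul_le_mul_of_nonneg_right (le_max_right _ _) (hG.nonneg _ hmem _)),
      (f1 w).trans (mul_le_mul_of_nonneg_right (le_max_left _ _)
        (mul_nonneg (Real.rpow_nonneg (norm_nonneg _) _) (sn_nonneg _ _ _)))⟩

end Pool.Agent.H36.TB

end
end

section

/-!
# TB EnN: the energy with the two-sided bounds, the nodal case

From `nodal_metric_tb`, as in `SY/EiN`.
-/

set_option autoImplicit false

open Topology Filter Metric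

noncomputable section

namespace Pool.Agent.H36.TB

open Pool.Agent.H36.BP (EN fs wd Sub MetricData mt Curve)
open Pool.Agent.H17BP (Pr Surface IsForm NoZeros NodalAt Eqs IsChart)
open Pool.Agent.H14.PP (IsCone)
open Pool.Agent.H14.KB (rhoS rhoS_nonneg)
open Pool.Agent.SY (Ent Energy ModelS energy_of_metric energy_transport)

variable {V : Type} [NormedAddCommGroup V] [NormedSpace ℂ V]

/-- the conclusion of the induction over the blow-ups: the energy with the weight, with the two-sided bounds at all smooth points of `T` -/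
def HasEnergyB (X T : Set V) (m j : ℕ) (Ω : V → V → V → ℂ) {κ : Type} [Fintype κ] (Q : κ → V → ℂ) (D : ℕ) (θ κ₁ : ℝ) : Prop :=
  ∀ (N : ℕ) (L : V ≃L[ℂ] EN N), ∃ (M : ℕ) (c₀ C k : ℝ) (g : (ℂ → V) → ℂ → ℝ) (pn : V → ℝ) (D₁ : ℕ), 1 ≤ M ∧ 0 < k ∧ k ≤ κ₁ ∧ k ≤ 1 / 4 ∧
    EnergyB X T m j Ω (fun x => ‖L x‖) (rhoS Q D) M c₀ C g pn D₁ θ ∧ ∀ x ∈ X, TBAt X T m Ω g pn k x

private def EnN_Q {κ : Type} [Fintype κ] (Q : κ → V → ℂ) (x : V) : EuclideanSpace ℂ κ := WithLp.toLp 2 (fun i => Q i x)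

/-- the length of the derivative of a curve, in a chart -/
theorem mt_chart [FiniteDimensional ℂ V] {N : ℕ} (L : V ≃L[ℂ] EN N) {K B : Set (EN N)} {G : EN N → EN N → ℝ} {ρ : EN N → ℝ} {M : ℕ} {c₀ C : ℝ}
    (hM : MetricData K B G ρ M c₀ C) {X : Set V} (hK : ∀ x ∈ X, L x ∈ K) {σ : ℂ × ℂ → V} {τ : V → ℂ × ℂ} (h : IsChart X σ τ) :
    ∀ᶠ y in 𝓝 (σ 0), ∀ (F : ℂ → V) (z : ℂ), AnalyticAt ℂ F z → (∀ᶠ w in 𝓝 z, F w ∈ X) → F z = y →
      mt G (fun w => L (F w)) z = G (L (σ (τ y))) (L (fderiv ℂ σ (τ y) (deriv (fun w => τ (F w)) z))) := by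
  have hτ0 : τ (σ 0) = 0 := h.left.self_of_nhds
  have hτt : Tendsto τ (𝓝 (σ 0)) (𝓝 0) := by
    have := h.τ_an.continuousAt.tendsto
    rwa [hτ0] at this
  filter_upwards [exists_coef h, hτt.eventually h.σ_mem] with y h1 h2 F z hF hFX hFz
  obtain ⟨c, a, hc, h3, h4⟩ := h1 F z hF hFX hFz
  have hd : deriv (fun w => L (F w)) z = L (deriv F z) := by
    have h5 : HasDerivAt (fun w => L (F w)) (L (deriv F z)) z :=
      (L : V →L[ℂ] EN N).hasFDerivAt.comp_hasDerivAt z hF.differentiableAt.hasDerivAt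
    exact h5.deriv
  show G (L (F z)) (deriv (fun w => L (F w)) z) = _
  rw [hd, h3, h4, map_smul, map_add, map_smul, map_smul]
  exact hM.inv _ (hK _ h2) _ c a hc

/-- MODULE EnN (helper77): the nodal case, from `nodal_metric_tb` (compare `SY/EiN`, `SY/EiA`); `pn x = ‖L x‖`, `D₁ = 1`, `c₀ = θ j / m`. -/
theorem energyB_nodal [FiniteDimensional ℂ V] {X T : Set V} {m j : ℕ} {Ω : V → V → V → ℂ} {κ : Type} [Fintype κ] {Q : κ → V → ℂ} {D : ℕ}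
    (h : ModelS X T m j Ω Q D) (hn : ∀ x ∈ X, NodalAt X T x) {θ κ₁ : ℝ} (hθ : 0 < θ) (hθ1 : θ < 1) (hκ₁ : 0 < κ₁) :
    HasEnergyB X T m j Ω Q D θ κ₁ := by
  intro N L
  have hne : ∀ x ∈ X, x ≠ 0 := fun x hx e => h.surf.zero (e ▸ hx)
  have hTs := h.eqs.cone h.surf.smul
  have hm : (0 : ℝ) < m := by exact_mod_cast h.one_m
  have hj : (0 : ℝ) < j := by exact_mod_cast h.one_j
  have hc₀ : 0 < θ * j / m := by positivity
  have hc₁ : θ * j / m < j / m := by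
    rw [div_lt_div_iff_of_pos_right hm]
    nlinarith
  obtain ⟨heq, M, k, C, G, hk, hk1, hk4, hM, hup, -, htb, -⟩ := nodal_metric_tb L (Q := EnN_Q Q) (D := D) h.surf (fun x => by
    have h1 : AnalyticAt ℂ (fun x : V => fun i => Q i x) x := by
      rw [analyticAt_pi_iff]
      exact fun i => h.eqs.an i x
    exact AnalyticAt.comp (g := (WithLp.toLp 2 : (κ → ℂ) → EuclideanSpace ℂ κ))
      (f := fun x : V => fun i => Q i x) ((EuclideanSpace.equiv κ ℂ).symm.analyticAt _) h1)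
    (fun c x => by
      unfold EnN_Q
      rw [← WithLp.toLp_smul]
      congr 1
      funext i
      simp [h.eqs.smul]) (B := T) (fun x => by
      rw [h.eqs.mem_iff]
      unfold EnN_Q
      constructor
      · rintro ⟨h1, h2⟩
        refine ⟨h1, ?_⟩
        have h3 : (fun i => Q i x) = (0 : κ → ℂ) := funext h2
        rw [h3]
        rfl
      · rintro ⟨h1, h2⟩
        refine ⟨h1, fun i => ?_⟩
        have h3 := congrFun (congrArg WithLp.ofLp h2) i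
        exact h3) hn h.one_m h.one_j h.form h.noZeros hc₀ hc₁ hκ₁
  have hcone : IsCone (L.symm ⁻¹' X : Set (EN N)) := Pool.Agent.H36.BP.isCone_transport L h.surf
  obtain ⟨K₁, hK₁, hK₁b⟩ := Pool.Agent.H14.PP.exists_rho_bound hcone heq
  obtain ⟨C₁, E⟩ := energy_of_metric hcone hM (fun x hx c hc => by
    show L.symm (c • x) ∈ T
    rw [map_smul]
    exact hTs _ hx c hc)
  set A : ℝ := ‖(L : V →L[ℂ] EN N)‖ with hA
  have hA0 : 0 ≤ A := norm_nonneg _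
  have hρ : ∀ x ∈ X, rhoS Q D x ≤ A ^ D * Pool.Agent.H14.PP.rho (fun y => EnN_Q Q (L.symm y)) D (L x) := by
    intro x hx
    have hx0 : 0 < ‖x‖ := norm_pos_iff.mpr (hne x hx)
    have hLx0 : 0 < ‖L x‖ := norm_pos_iff.mpr fun h0 => hne x hx (L.map_eq_zero_iff.mp h0)
    unfold rhoS Pool.Agent.H14.PP.rho
    simp only
    rw [L.symm_apply_apply, ← mul_div_assoc, div_le_div_iff₀ (by positivity) (by positivity)]
    have h1 : ‖fun i => Q i x‖ ≤ ‖EnN_Q Q x‖ := by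
      refine (pi_norm_le_iff_of_nonneg (norm_nonneg _)).mpr fun i => ?_
      exact PiLp.norm_apply_le (EnN_Q Q x) i
    have h2 : ‖L x‖ ≤ A * ‖x‖ := (L : V →L[ℂ] EN N).le_opNorm x
    calc ‖fun i => Q i x‖ * ‖L x‖ ^ D ≤ ‖EnN_Q Q x‖ * (A * ‖x‖) ^ D := by gcongr
      _ = A ^ D * ‖EnN_Q Q x‖ * ‖x‖ ^ D := by rw [mul_pow]; ring
  have hρ2 : ∀ x ∈ X, rhoS Q D x ≤ A ^ D * K₁ := by
    intro x hx
    refine (hρ x hx).trans (mul_le_mul_of_nonneg_left (hK₁b _ ?_) (by positivity))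
    show L.symm (L x) ∈ X
    rwa [L.symm_apply_apply]
  obtain ⟨C', E'⟩ := energy_transport L (rho := rhoS Q D) E (A := A ^ D) (K₁ := A ^ D * K₁) (by positivity) (by positivity)
    (fun x _ => rhoS_nonneg Q D x) (fun x _ => Pool.Agent.H14.PP.rho_nonneg _ _ _) hρ hρ2
  have hKX : ∀ x ∈ X, L x ∈ (L.symm ⁻¹' X : Set (EN N)) := fun x hx => by
    show L.symm (L x) ∈ X
    rwa [L.symm_apply_apply]
  have hcast : (m : ℝ) * ((1 : ℕ) : ℝ) = m := by rw [Nat.cast_one, mul_one]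
  refine ⟨M + 1, θ * j / m, C', k, fun F => mt G fun z => L (F z), fun x => ‖L x‖, 1, by omega, hk, hk1, hk4, ?_, ?_⟩
  · refine { E' with one_le := le_rfl, pn_cont := ?_, pn_nonneg := ?_, pn_smul := ?_, subP := ?_, ub := ?_ }
    · exact (L : V →L[ℂ] EN N).continuous.norm
    · exact fun x => norm_nonneg _
    · intro c x
      rw [map_smul, norm_smul, pow_one]
    · intro F hF z hz
      rw [hcast]
      exact E'.sub F hF z hz
    · intro F hF z₀ σ τ hσ hσ0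
      rw [hcast]
      obtain ⟨A₁, hA₁, hbd⟩ := hup σ τ hσ
      have hFa : AnalyticAt ℂ F z₀ := hF.diff.analyticAt z₀
      have hτ0 : τ (σ 0) = 0 := hσ.left.self_of_nhds
      have hFt : Tendsto F (𝓝 z₀) (𝓝 (σ 0)) := by
        rw [hσ0]
        exact hFa.continuousAt.tendsto
      have hτF : AnalyticAt ℂ (fun w => τ (F w)) z₀ := by
        have h1 : AnalyticAt ℂ τ (F z₀) := by
          rw [← hσ0]
          exact hσ.τ_an
        exact AnalyticAt.comp h1 hFa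
      have hτt : Tendsto (fun z => τ (F z)) (𝓝 z₀) (𝓝 0) := by
        have h1 := hτF.continuousAt.tendsto
        rwa [show τ (F z₀) = 0 by rw [← hσ0, hτ0]] at h1
      have hP : ∀ᶠ z in 𝓝 z₀, ‖deriv (fun w => τ (F w)) z‖ < ‖deriv (fun w => τ (F w)) z₀‖ + 1 := by
        have h1 := hτF.deriv.continuousAt.norm
        exact h1.eventually (gt_mem_nhds (by linarith))
      have hLz : 0 < ‖L (F z₀)‖ := norm_pos_iff.mpr fun h0 => hne _ (hF.mem z₀) (L.map_eq_zero_iff.mp h0)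
      have hLe : ∀ᶠ z in 𝓝 z₀, ‖L (F z₀)‖ / 2 < ‖L (F z)‖ := by
        have h1 : ContinuousAt (fun z => ‖L (F z)‖) z₀ := ((L : V →L[ℂ] EN N).continuous.continuousAt.comp hFa.continuousAt).norm
        exact h1.eventually (lt_mem_nhds (by linarith))
      set P : ℝ := ‖deriv (fun w => τ (F w)) z₀‖ + 1 with hPdef
      have hP0 : 0 < P := by positivity
      set δ : ℝ := (‖L (F z₀)‖ / 2) ^ ((j : ℝ) / m) with hδdef
      have hδ : 0 < δ := Real.rpow_pos_of_pos (by positivity) _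
      refine ⟨A₁ * P / δ, by positivity, ?_⟩
      filter_upwards [hFt.eventually (mt_chart L hM hKX hσ), hτt.eventually hbd, hP, hLe] with z h1 h2 h3 h4
      have h5 := h1 F z (hF.diff.analyticAt z) (Eventually.of_forall hF.mem) rfl
      have h6 := h2 (deriv (fun w => τ (F w)) z)
      have h7 : 0 ≤ ‖oC Ω σ (τ (F z))‖ ^ (1 / (m : ℝ)) := Real.rpow_nonneg (norm_nonneg _) _
      have h8 : δ ≤ ‖L (F z)‖ ^ ((j : ℝ) / m) := Real.rpow_le_rpow (by positivity) h4.le (by positivity)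
      show mt G (fun w => L (F w)) z ≤ _
      calc mt G (fun w => L (F w)) z ≤ A₁ * (‖oC Ω σ (τ (F z))‖ ^ (1 / (m : ℝ)) * ‖deriv (fun w => τ (F w)) z‖) := by
            rw [h5]
            exact h6
        _ ≤ A₁ * (‖oC Ω σ (τ (F z))‖ ^ (1 / (m : ℝ)) * P) := by gcongr
        _ = A₁ * P / δ * ‖oC Ω σ (τ (F z))‖ ^ (1 / (m : ℝ)) * δ := by
            field_simp
        _ ≤ A₁ * P / δ * ‖oC Ω σ (τ (F z))‖ ^ (1 / (m : ℝ)) * ‖L (F z)‖ ^ ((j : ℝ) / m) := by gcongr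
  · intro x hx σ τ hσ hσ0 hT
    obtain ⟨A₁, hA₁, hbd⟩ := htb σ τ hσ hT
    have hτ0 : τ (σ 0) = 0 := hσ.left.self_of_nhds
    have hτt : Tendsto τ (𝓝 (σ 0)) (𝓝 0) := by
      have h1 := hσ.τ_an.continuousAt.tendsto
      rwa [hτ0] at h1
    have hLx : 0 < ‖L x‖ := norm_pos_iff.mpr fun h0 => hne _ hx (L.map_eq_zero_iff.mp h0)
    have hLc : ContinuousAt (fun y => ‖L y‖) x := (L : V →L[ℂ] EN N).continuous.norm.continuousAt
    have h1 : ∀ᶠ y in 𝓝 x, ‖L x‖ / 2 < ‖L y‖ := hLc.eventually (lt_mem_nhds (by linarith))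
    have h2 : ∀ᶠ y in 𝓝 x, ‖L y‖ < ‖L x‖ + 1 := hLc.eventually (gt_mem_nhds (by linarith))
    set B : ℝ := A₁ + (‖L x‖ / 2)⁻¹ + (‖L x‖ + 1) with hB
    have hi : 0 < (‖L x‖ / 2)⁻¹ := by positivity
    have hB1 : 1 ≤ B := by linarith
    have hB0 : 0 < B := by linarith
    have hAB : A₁ ≤ B := by linarith
    refine ⟨B, hB1, ?_⟩
    rw [← hσ0] at h1 h2 ⊢
    filter_upwards [h1, h2, mt_chart L hM hKX hσ, hτt.eventually hbd] with y h3 h4 h5 h6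
    rw [hσ0] at h3 h4
    refine ⟨?_, ?_, ?_⟩
    · rw [inv_le_comm₀ hB0 (by linarith)]
      have h7 : ‖L y‖⁻¹ ≤ (‖L x‖ / 2)⁻¹ := inv_anti₀ (by linarith) h3.le
      linarith
    · linarith
    · intro F hF z hFz
      have h7 := h5 F z (hF.diff.analyticAt z) (Eventually.of_forall hF.mem) hFz
      obtain ⟨h8, h9⟩ := h6 (deriv (fun w => τ (F w)) z)
      rw [← h7] at h8 h9
      have h10 : 0 ≤ ‖oC Ω σ (τ y)‖ ^ (1 / (m : ℝ)) * sm k (τ y) (deriv (fun w => τ (F w)) z) :=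
        mul_nonneg (Real.rpow_nonneg (norm_nonneg _) _) (le_max_of_le_left (norm_nonneg _))
      have h11 : 0 ≤ mt G (fun w => L (F w)) z := E'.nonneg F hF z
      show _ ≤ B * mt G (fun w => L (F w)) z ∧ mt G (fun w => L (F w)) z ≤ _
      exact ⟨h8.trans (mul_le_mul_of_nonneg_right hAB h11), h9.trans (mul_le_mul_of_nonneg_right hAB h10)⟩

end Pool.Agent.H36.TB

end
end
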