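import Pool.Agent.H94.G6.H36.TB.EnB
import Pool.Agent.H94.G6.M137
import Pool.Agent.H94.G6.M139
import Pool.Agent.H94.G6.M140
import Pool.Agent.H94.G6.M82

/-! The parts of this file: H36.TB.EnI, MQ3.EtaN. -/

section

/-!
# TB EnI: the induction over the blow-ups
-/

set_option autoImplicit false

open Topology Filter Metric

noncomputable section

namespace Pool.Agent.H36.TB

open Pool.Agent.H36.BP (EN fs wd Sub)
open Pool.Agent.H17BP (Pr Surface IsForm NoZeros NodalAt Eqs IsChart ResAt Mono LocalEq eqs_blow thin_blow resAt_blow exists_forms exists_finset_of_isolated exists_resAt phi_pr isForm_iff noZeros_iff surface_iff Bihol)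
open Pool.Agent.H14.KB (rhoS)
open Pool.Agent.H62.BU (blow total Ker phi om phi_smul)
open Pool.Agent.SY (Ent Energy ModelS IsLiftB down modelS_blow exists_equiv_sum)

/-- a smooth point of `T` is resolved -/
theorem resAt_of_smooth {V : Type} [NormedAddCommGroup V] [NormedSpace ℂ V] {X T : Set V} {σ : ℂ × ℂ → V} {τ : V → ℂ × ℂ} (hσ : IsChart X σ τ)
    (hT : ∀ᶠ p in 𝓝 (0 : ℂ × ℂ), (σ p ∈ T ↔ p.1 = 0)) : ResAt X T (σ 0) 0 := by
  refine ⟨σ, τ, fun p => p.1, hσ, rfl, ⟨analyticAt_fst, hT⟩, ?_⟩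
  refine ⟨fun p => p.1, fun p => p.2, 1, 0, fun _ => 1, Bihol.id, analyticAt_const, one_ne_zero, Eventually.of_forall fun x => ?_⟩
  simp

/-- descent from the blow-up -/
theorem hasEnergyB_blow {V : Type} [NormedAddCommGroup V] [NormedSpace ℂ V] [FiniteDimensional ℂ V] {r : ℕ} {l : Fin r → V →L[ℂ] ℂ}
    {X T : Set V} {q : V} {m j : ℕ} {Ω : V → V → V → ℂ} {κ : Type} [Fintype κ] {Q : κ → V → ℂ} {D : ℕ} (h : ModelS X T m j Ω Q D)
    (hl : Ker l q) (hq : q ∈ T) (hq0 : ¬ ResAt X T q 0) {θ κ₁ : ℝ}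
    (H : HasEnergyB (blow l X) (total l X T) (2 * m) j (om l j Ω) (fun (p : κ × Fin r) (y : Fin r → V) => Q p.1 (y p.2)) D θ κ₁) :
    HasEnergyB X T m j Ω Q D θ κ₁ := by
  intro N L
  have hX := h.surf
  have hTX : T ⊆ X := h.eqs.sub
  have hT := h.eqs.cone h.surf.smul
  have hr : 0 < r := by
    rcases Nat.eq_zero_or_pos r with h0 | h0
    · exfalso
      subst h0
      obtain ⟨σ, τ, hσ, hσ0⟩ := hX.chart q (hTX hq)
      obtain ⟨p, hp, hp2⟩ := ((h.thin σ τ hσ).and_eventually hσ.σ_mem).exists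
      obtain ⟨c, hc⟩ := (hl (σ p)).1 fun i => i.elim0
      have hc0 : c ≠ 0 := by
        rintro rfl
        rw [zero_smul] at hc
        exact hX.zero (hc ▸ hp2)
      exact hp (hc ▸ hT q hq c hc0)
    · exact h0
  obtain ⟨N', L', hL'⟩ := exists_equiv_sum L r hr
  obtain ⟨M, c₀, C, k, g, pn, D₁, hM, hk, hk1, hk2, E, ht⟩ := H N' L'
  refine ⟨M, c₀, C, k, down l X T g, fun x => pn (phi l x), 2 * D₁, hM, hk, hk1, hk2, energyB_blow h hl hq L L' hL' hM E, fun x hx => ?_⟩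
  by_cases hxq : Pr x q
  · intro σ τ hσ hσ0 hσT
    exfalso
    exact hq0 ((hσ0 ▸ resAt_of_smooth hσ hσT : ResAt X T x 0).pr h.surf.smul hT hxq.symm)
  · refine tbAt_blow h hl hq E hx hxq (ht _ ?_)
    have h1 : ∃ b, l b x ≠ 0 := by
      by_contra hcon
      push Not at hcon
      obtain ⟨c, hc⟩ := (hl x).1 hcon
      apply hxq
      refine ⟨c, ?_, hc⟩
      rintro rfl
      rw [zero_smul] at hc
      exact hX.zero (hc ▸ hx)
    refine ⟨subset_closure ⟨x, hx, h1, 1, one_ne_zero, (one_smul _ _).symm⟩, Pool.Agent.H62.BU.phi_ne h1⟩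

/-- The statement for models which are resolved by `n` blow-ups over every point. -/
def EnBN (n : ℕ) : Prop :=
  ∀ (V : Type) [NormedAddCommGroup V] [NormedSpace ℂ V] [FiniteDimensional ℂ V] (X T : Set V) (m j : ℕ)
    (Ω : V → V → V → ℂ) (κ : Type) [Fintype κ] (Q : κ → V → ℂ) (D : ℕ), ModelS X T m j Ω Q D →
    (∀ x ∈ X, ResAt X T x n) → ∀ θ κ₁ : ℝ, 0 < θ → θ < 1 → 0 < κ₁ → HasEnergyB X T m j Ω Q D θ κ₁

theorem enBN_zero : EnBN 0 := by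
  intro V _ _ _ X T m j Ω κ _ Q D h h0 θ κ₁ hθ hθ1 hκ₁
  exact energyB_nodal h (fun x hx => (h0 x hx).nodal) hθ hθ1 hκ₁

theorem enBN_step {n : ℕ} (ih : EnBN n) : ∀ (k : ℕ) (V : Type) [NormedAddCommGroup V] [NormedSpace ℂ V]
    [FiniteDimensional ℂ V] (X T : Set V) (m j : ℕ) (Ω : V → V → V → ℂ) (κ : Type) [Fintype κ]
    (Q : κ → V → ℂ) (D : ℕ), ModelS X T m j Ω Q D → (∀ x ∈ X, ResAt X T x (n + 1)) →
    (∃ F : Finset V, F.card ≤ k ∧ ∀ x ∈ X, ResAt X T x n ∨ ∃ q ∈ F, Pr x q) →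
    ∀ θ κ₁ : ℝ, 0 < θ → θ < 1 → 0 < κ₁ → HasEnergyB X T m j Ω Q D θ κ₁ := by
  intro k
  induction k with
  | zero =>
    intro V _ _ _ X T m j Ω κ _ Q D h h0 hF
    obtain ⟨F, hF1, hF2⟩ := hF
    have hF0 : F = ∅ := Finset.card_eq_zero.1 (by omega)
    refine ih V X T m j Ω κ Q D h fun x hx => ?_
    rcases hF2 x hx with h1 | ⟨q, hq, -⟩
    · exact h1
    · rw [hF0] at hq
      simp at hq
  | succ k ihk =>
    intro V _ _ _ X T m j Ω κ _ Q D h h0 hF θ κ₁ hθ hθ1 hκ₁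
    obtain ⟨F, hF1, hF2⟩ := hF
    have hX := h.surf.smul
    have hB := h.eqs.cone h.surf.smul
    by_cases hall : ∀ x ∈ X, ResAt X T x n
    · exact ih V X T m j Ω κ Q D h hall θ κ₁ hθ hθ1 hκ₁
    push Not at hall
    obtain ⟨x₀, hx₀, hx₀n⟩ := hall
    rcases hF2 x₀ hx₀ with h1 | ⟨q, hqF, hxq⟩
    · exact absurd h1 hx₀n
    have hqX : q ∈ X := (hxq.mem_iff hX).1 hx₀
    have hqn : ¬ ResAt X T q n := fun h1 => hx₀n (h1.pr hX hB hxq)
    have hq0 : ¬ ResAt X T q 0 := fun h1 => hqn (h1.mono_le (Nat.zero_le n))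
    have hqB : q ∈ T := by
      by_contra hqB
      exact hq0 (ResAt.of_notMem h.surf h.eqs hqX hqB)
    have hqne : q ≠ 0 := fun e => h.surf.zero (e ▸ hqX)
    obtain ⟨r, l, hl⟩ := exists_forms hqne
    classical
    refine hasEnergyB_blow h hl hqB hq0 ?_
    refine ihk (Fin r → V) (blow l X) (total l X T) (2 * m) j (om l j Ω) (κ × Fin r) _ D
      (modelS_blow h hl hqB) ?_ ⟨(F.erase q).image (phi l), ?_, ?_⟩ θ κ₁ hθ hθ1 hκ₁
    · intro y hy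
      rcases resAt_blow h.surf h.eqs hl hqB (h0 q hqX) hq0 hy with h1 | ⟨x, hx, -, -, h2⟩
      · exact h1.mono_le (Nat.le_succ n)
      · exact h2 _ (h0 x hx)
    · have h1 := Finset.card_image_le (s := F.erase q) (f := phi l)
      have h2 := Finset.card_erase_of_mem hqF
      omega
    · intro y hy
      rcases resAt_blow h.surf h.eqs hl hqB (h0 q hqX) hq0 hy with h1 | ⟨x, hx, hxq', hyx, h2⟩
      · exact Or.inl h1
      · rcases hF2 x hx with h3 | ⟨q', hq'F, hxq''⟩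
        · exact Or.inl (h2 _ h3)
        · refine Or.inr ⟨phi l q', Finset.mem_image_of_mem _ (Finset.mem_erase.2 ⟨?_, hq'F⟩),
            hyx.trans (phi_pr hxq'')⟩
          rintro rfl
          exact hxq' hxq''

theorem enBN (n : ℕ) : EnBN n := by
  induction n with
  | zero => exact enBN_zero
  | succ n ih =>
    intro V _ _ _ X T m j Ω κ _ Q D h h0
    obtain ⟨F, -, hF⟩ := h.exists_finset
    refine enBN_step ih F.card V X T m j Ω κ Q D h h0 ⟨F, le_rfl, fun x hx => ?_⟩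
    rcases hF x hx with h1 | h1
    · exact Or.inl (h1.mono_le (Nat.zero_le n))
    · exact Or.inr h1

/-- The induction: the energy with the weight, for every model. -/
theorem energyB_of_model {V : Type} [NormedAddCommGroup V] [NormedSpace ℂ V] {X T : Set V} [FiniteDimensional ℂ V] {m j : ℕ}
    {Ω : V → V → V → ℂ} {κ : Type} [Fintype κ] {Q : κ → V → ℂ} {D : ℕ}
    (h : ModelS X T m j Ω Q D) {θ κ₁ : ℝ} (hθ : 0 < θ) (hθ1 : θ < 1) (hκ₁ : 0 < κ₁) : HasEnergyB X T m j Ω Q D θ κ₁ := by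
  classical
  have hX := h.surf.smul
  have hB := h.eqs.cone h.surf.smul
  obtain ⟨F, hFX, hF⟩ := h.exists_finset
  have h1 : ∀ q : V, ∃ n, q ∈ F → ResAt X T q n := by
    intro q
    by_cases hq : q ∈ F
    · obtain ⟨n, hn⟩ := exists_resAt h.surf h.eqs h.thin (hFX q hq)
      exact ⟨n, fun _ => hn⟩
    · exact ⟨0, fun h2 => absurd h2 hq⟩
  choose n hn using h1
  refine enBN (F.sup n) V X T m j Ω κ Q D h (fun x hx => ?_) θ κ₁ hθ hθ1 hκ₁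
  rcases hF x hx with h2 | ⟨q, hq, hxq⟩
  · exact h2.mono_le (Nat.zero_le _)
  · exact ((hn q hq).mono_le (Finset.le_sup (f := n) hq)).pr hX hB hxq

end Pool.Agent.H36.TB

end
end

section

/-!
# MQ3 EtaN: the fields `η` of the boxes

At a point `z` of the open set of the box the local field of `EtaLoc` is `conj Θ - gr eH` outside `z`; so the limits of this function are one field `η`, and
the constants of the finitely many neighbourhoods which cover the compact sets `K k a` of regular chart points bound it.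
-/

set_option autoImplicit false

open Topology Filter Metric MvPolynomial MeasureTheory Laplacian

noncomputable section

namespace Pool.Agent.MQ3

open Pool.Agent.H36.BP (EN fs)
open Pool.Agent.H17BP (Surface IsForm)
open Pool.Agent.H17EF (coneE)
open Pool.Agent.MQ (lam ztv dvg DDv gr dv)

variable {M : ℕ} {P : Ideal (MvPolynomial (Fin (M + 1)) ℂ)} {RD : MvPolynomial (Fin (M + 1)) ℂ} {m : ℕ} {X : NCModel P RD} {θ : WDiff (coneE P) m}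
  {l : LF M} {S : Web X θ l} {Ra : MvPolynomial (Fin (M + 1)) ℂ} {Wf : EN M → EN M → EN M → ℂ} {mK jH : ℕ}

/-- a local field at the point `z`, with the bound `B` -/
def EtaNPt (Wf : EN M → EN M → EN M → ℂ) (mK jH : ℕ) (H : ℂ × ℂ → ℂ × ℂ → EN 2) {F : ℂ → EN M} (Y : NCLift X F) (i : X.ι) (Θ : ℂ → ℂ) (B : ℝ) (z : ℂ) :
    Prop :=
  ∃ η : ℂ → ℂ, ContDiffAt ℝ 1 η z ∧ ‖η z‖ ≤ B ∧ ∀ᶠ w in 𝓝[≠] z, ContDiffAt ℝ 2 (eN H Wf mK jH Y i) w ∧
    η w = (starRingEnd ℂ) (Θ w) - gr (eH H Wf mK Y i) w ∧ Δ (eN H Wf mK jH Y i) w + dv η w = 2 * jH / mK * lam F w ^ 2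

theorem EtaN_hA (p w : ℂ × ℂ) (a : ℂ) : hA p (a • w) = a • hA p w := by
  unfold hA
  rw [← WithLp.toLp_smul]
  congr 1
  ext i
  fin_cases i <;> simp <;> ring

theorem EtaN_hB (u : ℂ × ℂ → ℂ) (p w : ℂ × ℂ) (a : ℂ) : hB u p (a • w) = a • hB u p w := by
  unfold hB
  rw [← WithLp.toLp_smul]
  congr 1
  ext i
  fin_cases i <;> simp <;> ring

theorem EtaN_ne (k : S.ι) {q : ℂ × ℂ} (h : S.κ k q ∈ DS) : q.1 * q.2 ≠ 0 := by
  have hd := (S.c k).pos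
  unfold dt at hd
  intro h0
  have h1 : (S.κ k q).1 = q.1 ^ (S.c k).w.1 * q.2 ^ (S.c k).w'.1 := rfl
  have h2 : (S.κ k q).2 = q.1 ^ (S.c k).w.2 * q.2 ^ (S.c k).w'.2 := rfl
  have h3 := h.1.1
  have h4 := h.2.1
  rw [h1] at h3
  rw [h2] at h4
  rcases mul_eq_zero.1 h0 with h5 | h5 <;> rw [h5] at h3 h4
  · have h6 : (S.c k).w.1 = 0 := by
      by_contra h6
      exact h3 (by rw [zero_pow h6, zero_mul])
    have h7 : (S.c k).w.2 = 0 := by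
      by_contra h7
      exact h4 (by rw [zero_pow h7, zero_mul])
    rw [h6, h7] at hd
    simp at hd
  · have h6 : (S.c k).w'.1 = 0 := by
      by_contra h6
      exact h3 (by rw [zero_pow h6, mul_zero])
    have h7 : (S.c k).w'.2 = 0 := by
      by_contra h7
      exact h4 (by rw [zero_pow h7, mul_zero])
    rw [h6, h7] at hd
    simp at hd

/-- the local fields near one regular chart point -/
theorem EtaN_loc (hX : Surface (coneE P)) (hm : 1 ≤ mK) (hW : IsForm (coneE P) mK jH Wf) (C : Cov S Ra) (k : Fin C.nN) (a : (S.V (C.b k)).ι) {q : ℂ × ℂ}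
    (hq : q ∈ C.K k a) : ∃ N ∈ 𝓝 q, ∃ B : ℝ, ∀ F : ℂ → EN M, RCrv θ RD Ra F → ∀ Y : NCLift X F, WNe Wf Y → ∀ Θ : ℂ → ℂ, IsTh S Wf mK Y Θ →
      ∀ z ∈ S.Om Y ⟨C.b k, a⟩, S.lf Y ⟨C.b k, a⟩ z ∈ N → EtaNPt Wf mK jH (C.H k) Y (C.b k) Θ (B * ‖deriv (S.lf Y ⟨C.b k, a⟩) z‖) z := by
  -- the equation of the invariant curve and the vector
  obtain ⟨hD, hv, hH, g, hg, L, hL, hL0, hHL⟩ : q ∈ S.D ⟨C.b k, a⟩ ∧ S.v ⟨C.b k, a⟩ q ≠ 0 ∧ (∀ p w (c : ℂ), C.H k p (c • w) = c • C.H k p w) ∧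
      ∃ g, InvAt S Ra ⟨C.b k, a⟩ q g ∧ ∃ L : ℂ × ℂ → EN 2, AnalyticAt ℂ L q ∧ L q ≠ 0 ∧
        ∀ᶠ x in 𝓝 q, C.H k (S.κ ⟨C.b k, a⟩ x) (fderiv ℂ (S.κ ⟨C.b k, a⟩) x (S.v ⟨C.b k, a⟩ x)) = (jc (S.κ ⟨C.b k, a⟩) x * g x) • L x := by
    rcases hu : C.u k with _ | u'
    · have hR := (C.K_A k a hu q hq).1
      obtain ⟨g, hg⟩ := exists_invAt (Or.inl hR)
      have hH : C.H k = hA := by unfold Cov.H; rw [hu]; rfl
      rw [hH]
      exact ⟨hR.mem, hR.v_ne, EtaN_hA, g, hg, nloc_A hR hg⟩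
    · obtain ⟨hR, hκ⟩ := C.K_B k a u' hu q hq
      obtain ⟨h1, h2, h3⟩ := C.N_B k u' hu
      obtain ⟨g, hg⟩ := exists_invAt hR
      have hH : C.H k = hB u' := by unfold Cov.H; rw [hu]; rfl
      rw [hH]
      have hD : q ∈ S.D ⟨C.b k, a⟩ := hR.elim (fun h => h.mem) fun h => h.mem
      have hv : S.v ⟨C.b k, a⟩ q ≠ 0 := hR.elim (fun h => h.v_ne) fun h => h.v_ne
      exact ⟨hD, hv, EtaN_hB u', g, hg, nloc_B hR (EtaN_ne _ (h1 hκ)) (h2 _ hκ) (h3 _ hκ) hg⟩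
  obtain ⟨N, hN, B, h⟩ := eta_loc (mK := mK) (jH := jH) hX hm hW hD hv hg hH hL hL0 hHL
  refine ⟨N, hN, B, fun F hF Y hne Θ hΘ z hz hzN => ?_⟩
  obtain ⟨η, ψ, h1, h2, -, -, h3⟩ := h F hF Y hne Θ hΘ z hz hzN
  exact ⟨η, h1, h2, h3.mono fun w hw => ⟨hw.1, hw.2.1, hw.2.2.1⟩⟩

/-- the local fields over a compact set of regular chart points -/
theorem EtaN_cpt (hX : Surface (coneE P)) (hm : 1 ≤ mK) (hW : IsForm (coneE P) mK jH Wf) (C : Cov S Ra) (k : Fin C.nN) (a : (S.V (C.b k)).ι) :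
    ∃ B : ℝ, ∀ F : ℂ → EN M, RCrv θ RD Ra F → ∀ Y : NCLift X F, WNe Wf Y → ∀ Θ : ℂ → ℂ, IsTh S Wf mK Y Θ →
      ∀ z ∈ S.Om Y ⟨C.b k, a⟩, S.lf Y ⟨C.b k, a⟩ z ∈ C.K k a → EtaNPt Wf mK jH (C.H k) Y (C.b k) Θ (B * ‖deriv (S.lf Y ⟨C.b k, a⟩) z‖) z := by
  refine (C.K_compact k a).induction_on (p := fun s => ∃ B : ℝ, ∀ F : ℂ → EN M, RCrv θ RD Ra F → ∀ Y : NCLift X F, WNe Wf Y → ∀ Θ : ℂ → ℂ, IsTh S Wf mK Y Θ →
      ∀ z ∈ S.Om Y ⟨C.b k, a⟩, S.lf Y ⟨C.b k, a⟩ z ∈ s → EtaNPt Wf mK jH (C.H k) Y (C.b k) Θ (B * ‖deriv (S.lf Y ⟨C.b k, a⟩) z‖) z) ?_ ?_ ?_ ?_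
  · exact ⟨0, fun F _ Y _ Θ _ z _ h => h.elim⟩
  · rintro s t hst ⟨B, hB⟩
    exact ⟨B, fun F hF Y hne Θ hΘ z hz h => hB F hF Y hne Θ hΘ z hz (hst h)⟩
  · rintro s t ⟨B, hB⟩ ⟨B', hB'⟩
    refine ⟨max B B', fun F hF Y hne Θ hΘ z hz h => ?_⟩
    rcases h with h | h
    · obtain ⟨η, h1, h2, h3⟩ := hB F hF Y hne Θ hΘ z hz h
      exact ⟨η, h1, h2.trans (mul_le_mul_of_nonneg_right (le_max_left _ _) (norm_nonneg _)), h3⟩
    · obtain ⟨η, h1, h2, h3⟩ := hB' F hF Y hne Θ hΘ z hz h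
      exact ⟨η, h1, h2.trans (mul_le_mul_of_nonneg_right (le_max_right _ _) (norm_nonneg _)), h3⟩
  · intro q hq
    obtain ⟨N, hN, h⟩ := EtaN_loc (mK := mK) (jH := jH) hX hm hW C k a hq
    exact ⟨N, mem_nhdsWithin_of_mem_nhds hN, h⟩

/-- the limits of a function which has locally a continuous extension -/
theorem EtaN_lim {E η : ℂ → ℂ} {z : ℂ} (hη : ContDiffAt ℝ 1 η z) (h : ∀ᶠ w in 𝓝[≠] z, η w = E w) : (fun w => limUnder (𝓝[≠] w) E) =ᶠ[𝓝 z] η := by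
  have h1 : ∀ᶠ w in 𝓝 z, ContinuousAt η w := (hη.eventually (by simp)).mono fun w hw => hw.continuousAt
  have h2 : ∀ᶠ w in 𝓝 z, w ≠ z → ∀ᶠ w' in 𝓝 w, η w' = E w' := eventually_nhdsWithin_iff.1 (EtaLoc_punct h)
  filter_upwards [h1, h2] with w h3 h4
  have h5 : ∀ᶠ w' in 𝓝[≠] w, η w' = E w' := by
    by_cases hw : w = z
    · rw [hw]; exact h
    · exact (h4 hw).filter_mono nhdsWithin_le_nhds
  exact ((h3.tendsto.mono_left nhdsWithin_le_nhds).congr' h5).limUnder_eq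

theorem exists_etaN (hX : Surface (coneE P)) (hm : 1 ≤ mK) (hW : IsForm (coneE P) mK jH Wf) (C : Cov S Ra) (k : Fin C.nN) :
    ∃ B : ℝ, ∀ F : ℂ → EN M, RCrv θ RD Ra F → ∀ Y : NCLift X F, WNe Wf Y → ∀ Θ : ℂ → ℂ, IsTh S Wf mK Y Θ →
      ∀ (A : ℝ) (lm : ℂ → ℝ), Dens C Y A lm → ∃ η : ℂ → ℂ, ContDiffOn ℝ 1 η (C.UN Y k) ∧ (∀ z ∈ C.UN Y k, ‖η z‖ ≤ B * lm z) ∧
        ∀ z ∈ C.UN Y k, ∀ᶠ w in 𝓝[≠] z, η w + gr (eN (C.H k) Wf mK jH Y (C.b k)) w = (starRingEnd ℂ) (Θ w) + gr (fun w => jH / mK * Real.log ‖F w‖) w ∧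
          ContDiffAt ℝ 2 (eN (C.H k) Wf mK jH Y (C.b k)) w ∧ Δ (eN (C.H k) Wf mK jH Y (C.b k)) w + dv η w = 2 * jH / mK * lam F w ^ 2 := by
  choose B hB using fun a => EtaN_cpt (mK := mK) (jH := jH) hX hm hW C k a
  refine ⟨∑ a, |B a|, fun F hF Y hne Θ hΘ A lm hl => ?_⟩
  -- the local field at a point of the open set
  have hloc : ∀ z ∈ C.UN Y k, ∃ η : ℂ → ℂ, ContDiffAt ℝ 1 η z ∧ ‖η z‖ ≤ (∑ a, |B a|) * lm z ∧ ∀ᶠ w in 𝓝[≠] z,
      ContDiffAt ℝ 2 (eN (C.H k) Wf mK jH Y (C.b k)) w ∧ η w = (starRingEnd ℂ) (Θ w) - gr (eH (C.H k) Wf mK Y (C.b k)) w ∧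
        Δ (eN (C.H k) Wf mK jH Y (C.b k)) w + dv η w = 2 * jH / mK * lam F w ^ 2 := by
    intro z hz
    obtain ⟨hz1, hz2, hz3⟩ := hz
    obtain ⟨a, ha1, ha2⟩ := C.lift F hF.toWCrv Y k z hz1 (ball_subset_closedBall hz2) fun j hj hjb => hz3 j ⟨hj, ball_subset_closedBall hjb⟩
    obtain ⟨η, h1, h2, h3⟩ := hB a F hF Y hne Θ hΘ z ha1 ha2
    refine ⟨η, h1, h2.trans ?_, h3⟩
    have h4 : ‖deriv (S.lf Y ⟨C.b k, a⟩) z‖ ≤ lm z := hl.chart k a z ha1 ha2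
    have h5 : |B a| ≤ ∑ a, |B a| := Finset.single_le_sum (f := fun a => |B a|) (fun _ _ => abs_nonneg _) (Finset.mem_univ a)
    calc B a * ‖deriv (S.lf Y ⟨C.b k, a⟩) z‖ ≤ |B a| * ‖deriv (S.lf Y ⟨C.b k, a⟩) z‖ := mul_le_mul_of_nonneg_right (le_abs_self _) (norm_nonneg _)
      _ ≤ (∑ a, |B a|) * lm z := mul_le_mul h5 h4 (norm_nonneg _) ((abs_nonneg _).trans h5)
  refine ⟨fun w => limUnder (𝓝[≠] w) fun w => (starRingEnd ℂ) (Θ w) - gr (eH (C.H k) Wf mK Y (C.b k)) w, fun z hz => ?_, fun z hz => ?_, fun z hz => ?_⟩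
  · obtain ⟨η, h1, -, h3⟩ := hloc z hz
    exact (h1.congr_of_eventuallyEq (EtaN_lim h1 (h3.mono fun w hw => hw.2.1))).contDiffWithinAt
  · obtain ⟨η, h1, h2, h3⟩ := hloc z hz
    have h4 := (EtaN_lim h1 (h3.mono fun w hw => hw.2.1)).self_of_nhds
    simp only at h4 ⊢
    rw [h4]
    exact h2
  · obtain ⟨η, h1, -, h3⟩ := hloc z hz
    have h4 := EtaN_lim h1 (h3.mono fun w hw => hw.2.1)
    have hF0 : ∀ w, F w ≠ 0 := fun w h0 => hX.zero (by have := hF.mem w; rwa [h0] at this)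
    filter_upwards [h3, h4.eventuallyEq_nhds.filter_mono nhdsWithin_le_nhds] with w h5 h6
    obtain ⟨h7, h8, h9⟩ := h5
    have h10 := h6.self_of_nhds
    have h11 : ContDiffAt ℝ 2 (fun w => (jH / mK : ℝ) * Real.log ‖F w‖) w :=
      contDiffAt_const.mul (Pool.Agent.MQ.contDiffAt_log_norm (hF.diff.analyticAt w) (hF0 w))
    have h12 : DifferentiableAt ℝ (eH (C.H k) Wf mK Y (C.b k)) w := by
      have h13 : eH (C.H k) Wf mK Y (C.b k) = fun w => eN (C.H k) Wf mK jH Y (C.b k) w - (jH / mK : ℝ) * Real.log ‖F w‖ := by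
        funext w
        unfold eN
        ring
      rw [h13]
      exact (h7.differentiableAt (by norm_num)).sub (h11.differentiableAt (by norm_num))
    have h14 : gr (eN (C.H k) Wf mK jH Y (C.b k)) w = gr (eH (C.H k) Wf mK Y (C.b k)) w + gr (fun w => (jH / mK : ℝ) * Real.log ‖F w‖) w :=
      Pool.Agent.MQ.gr_add h12 (h11.differentiableAt (by norm_num))
    refine ⟨?_, h7, ?_⟩
    · simp only at h10 ⊢
      rw [h10, h8, h14]
      ring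
    · rw [Pool.Agent.MQ.dv_congr h6]
      exact h9

end Pool.Agent.MQ3

end
end
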