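import Pool.Agent.H94.G6.M43
import Pool.Agent.H94.G6.M44

/-! The parts of this file: H48.GB, GG.Ode, MQ2.Rect. -/

section

/-!
# GB: the rescaling by the Taylor coefficients

`Obj 𝒰 Φ w (M + 1) G r`: the functions `Φ n`, without zeros, converge to `(z - w) ^ (M + 1) • G z`.  `ℓ` is a linear form with `ℓ (G w) = 1`,
`π v = v - ℓ v • G w`.  There are `c n → w` (zeros of `ℓ ∘ Φ n`) and `lam n → 0`, `lam n > 0`, such that on all of `ℂ`
* `ℓ (Φ n (c n + lam n u)) / lam n ^ (M + 1)` converges to a monic polynomial `P` of degree `M + 1`, with `P 0 = 0`;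
* `π (Φ n (c n + lam n u)) / lam n ^ (M + 2)` converges to a vector `N` of polynomials with leading term `u ^ (M + 2) • π (G' w)`;
and the lower coefficients of `(P, N)` are not all zero.
-/

set_option autoImplicit false
set_option linter.unusedSectionVars false

open Topology Filter Metric

namespace Pool.Agent.H48.GB

open Pool.Agent.H74.NB

variable {E : Type*} [NormedAddCommGroup E] [NormedSpace ℂ E] [CompleteSpace E] {𝒰 : Ultrafilter ℕ}

/-- **The rescaling by the Taylor coefficients, with the neck.** -/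
theorem scale_neck [ProperSpace E] {Φ : ℕ → ℂ → E} {w : ℂ} {M : ℕ} {G : ℂ → E} {r : ℝ} (h : Obj 𝒰 Φ w (M + 1) G r) (ℓ : E →L[ℂ] ℂ)
    (hℓ : ℓ (G w) = 1) :
    ∃ (c : ℕ → ℂ) (lam : ℕ → ℝ) (a : ℕ → ℂ) (A : ℕ → E), Tendsto c 𝒰 (𝓝 w) ∧ (∀ᶠ n in (𝒰 : Filter ℕ), 0 < lam n) ∧ Tendsto lam 𝒰 (𝓝 0) ∧
      a 0 = 0 ∧ (∀ j, ℓ (A j) = 0) ∧
      CC 𝒰 (fun n u => ((lam n : ℂ) ^ (M + 1))⁻¹ * ℓ (Φ n (c n + lam n * u)))
        (fun u => ∑ j ∈ Finset.range (M + 1), u ^ j * a j + u ^ (M + 1)) Set.univ ∧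
      CC 𝒰 (fun n u => ((lam n : ℂ) ^ (M + 2))⁻¹ • (Φ n (c n + lam n * u) - ℓ (Φ n (c n + lam n * u)) • G w))
        (fun u => ∑ j ∈ Finset.range (M + 2), u ^ j • A j + u ^ (M + 2) • (deriv G w - ℓ (deriv G w) • G w)) Set.univ ∧
      (¬ ((∀ j ∈ Finset.range (M + 1), a j = 0) ∧ ∀ j ∈ Finset.range (M + 2), A j = 0)) ∧
      (∀ᶠ n in (𝒰 : Filter ℕ), ℓ (Φ n (c n)) = 0) ∧
      ∀ ε : ℝ, 0 < ε → ∃ R δ : ℝ, 1 ≤ R ∧ 0 < δ ∧ ∀ᶠ n in (𝒰 : Filter ℕ), ∀ u : ℂ, R * lam n ≤ ‖u‖ → ‖u‖ ≤ δ → c n + u ∈ ball w r ∧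
        ‖ℓ (Φ n (c n + u)) - u ^ (M + 1)‖ ≤ ε * ‖u‖ ^ (M + 1) ∧
        ‖(Φ n (c n + u) - ℓ (Φ n (c n + u)) • G w) - u ^ (M + 2) • (deriv G w - ℓ (deriv G w) • G w)‖ ≤ ε * ‖u‖ ^ (M + 2) := by
  have hcomp : ∀ {F : ℕ → ℂ → E} {f : ℂ → E} {Ω : Set ℂ}, CC 𝒰 F f Ω → CC 𝒰 (fun n z => ℓ (F n z)) (fun z => ℓ (f z)) Ω := by
    intro F f Ω hc z₀ hz₀ z hz
    exact (ℓ.continuous.tendsto _).comp (hc z₀ hz₀ z hz)
  have hwr : ball w r ∈ 𝓝 w := ball_mem_nhds w h.pos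
  have hGd : DifferentiableAt ℂ G w := h.holG.differentiableAt hwr
  -- the centre
  obtain ⟨c, hc1, hc2⟩ : ∃ c : ℕ → ℂ, Tendsto c 𝒰 (𝓝 w) ∧ ∀ᶠ n in (𝒰 : Filter ℕ), ℓ (Φ n (c n)) = 0 := by
    refine exists_zero h.pos (h := fun n z => ℓ (Φ n z)) (ψ := fun z => ℓ ((z - w) ^ (M + 1) • G z)) ?_ ?_ (hcomp h.cc) (by simp) ?_
    · exact h.hol.mono fun n hn => ℓ.differentiable.comp_differentiableOn hn
    · exact ℓ.differentiable.comp_differentiableOn (DifferentiableOn.smul (by fun_prop) h.holG)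
    · have h1 : ∀ᶠ z in 𝓝[≠] w, z ≠ w ∧ ℓ (G z) ≠ 0 :=
        (eventually_mem_nhdsWithin.mono fun z hz => hz).and (nhdsWithin_le_nhds
          ((ℓ.continuous.continuousAt.comp (h.holG.continuousOn.continuousAt hwr)).eventually_ne (by
            rw [Function.comp_apply, hℓ]; exact one_ne_zero)))
      have h2 : ∀ᶠ z in 𝓝[≠] w, ℓ ((z - w) ^ (M + 1) • G z) ≠ 0 := h1.mono fun z hz => by
        rw [map_smul, smul_eq_mul]
        exact mul_ne_zero (pow_ne_zero _ (sub_ne_zero.2 hz.1)) hz.2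
      exact h2.frequently.filter_mono nhdsWithin_le_nhds
  -- the Taylor coefficients
  have hit := cc_it h.pos (a := fun _ => c) (fun _ => hc1) h.hol h.holG h.cc
  set C : ℕ → ℕ → E := fun j n => it (Φ n) (fun _ => c n) j (c n) with hCdef
  have hC0 : ∀ j ∈ Finset.range (M + 1), Tendsto (C j) 𝒰 (𝓝 0) := by
    intro j hj
    have hj' := Finset.mem_range.1 hj
    obtain ⟨k, hk⟩ : ∃ k, j + (k + 1) = M + 1 := ⟨M - j, by omega⟩
    have h1 := (hit j (k + 1) hk).2 w (mem_ball_self h.pos) c hc1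
    simpa using h1
  have hS : CC 𝒰 (fun n => it (Φ n) (fun _ => c n) (M + 1)) G (ball w r) :=
    ((hit (M + 1) 0 (by omega)).2).congr fun z _ => by simp
  have hC1 : Tendsto (C (M + 1)) 𝒰 (𝓝 (G w)) := hS w (mem_ball_self h.pos) c hc1
  have hT : CC 𝒰 (fun n => it (Φ n) (fun _ => c n) (M + 2)) (_root_.dslope G w) (ball w r) :=
    CC.dslope (hit (M + 1) 0 (by omega)).1 h.holG hS hc1
  have hπ0 : ∀ j ∈ Finset.range (M + 2), Tendsto (fun n => C j n - ℓ (C j n) • G w) 𝒰 (𝓝 0) := by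
    intro j hj
    rcases Nat.lt_or_ge j (M + 1) with hj1 | hj1
    · have h1 := hC0 j (Finset.mem_range.2 hj1)
      have h2 := h1.sub (((ℓ.continuous.tendsto _).comp h1).smul_const (G w))
      simpa using h2
    · have hj2 : j = M + 1 := by
        have := Finset.mem_range.1 hj
        omega
      subst hj2
      have h2 := hC1.sub (((ℓ.continuous.tendsto _).comp hC1).smul_const (G w))
      simpa [hℓ] using h2
  -- the radius
  set lam : ℕ → ℝ := fun n => ∑ j ∈ Finset.range (M + 1), ‖ℓ (C j n)‖ ^ (((M + 1 - j : ℕ) : ℝ)⁻¹) +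
    ∑ j ∈ Finset.range (M + 2), ‖C j n - ℓ (C j n) • G w‖ ^ (((M + 2 - j : ℕ) : ℝ)⁻¹) with hlamdef
  have hlam0 : ∀ n, 0 ≤ lam n := fun n => add_nonneg (Finset.sum_nonneg fun i _ => Real.rpow_nonneg (norm_nonneg _) _)
    (Finset.sum_nonneg fun j _ => Real.rpow_nonneg (norm_nonneg _) _)
  have hle1 : ∀ n, ∀ j ∈ Finset.range (M + 1), ‖ℓ (C j n)‖ ^ (((M + 1 - j : ℕ) : ℝ)⁻¹) ≤ lam n := fun n i hi =>
    (Finset.single_le_sum (f := fun j => ‖ℓ (C j n)‖ ^ (((M + 1 - j : ℕ) : ℝ)⁻¹)) (fun i _ => Real.rpow_nonneg (norm_nonneg _) _) hi).trans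
      (le_add_of_nonneg_right (Finset.sum_nonneg fun j _ => Real.rpow_nonneg (norm_nonneg _) _))
  have hle2 : ∀ n, ∀ j ∈ Finset.range (M + 2), ‖C j n - ℓ (C j n) • G w‖ ^ (((M + 2 - j : ℕ) : ℝ)⁻¹) ≤ lam n := fun n j hj =>
    (Finset.single_le_sum (f := fun j => ‖C j n - ℓ (C j n) • G w‖ ^ (((M + 2 - j : ℕ) : ℝ)⁻¹))
      (fun j _ => Real.rpow_nonneg (norm_nonneg _) _) hj).trans
      (le_add_of_nonneg_left (Finset.sum_nonneg fun j _ => Real.rpow_nonneg (norm_nonneg _) _))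
  have hpow : ∀ (k : ℕ) (x : ℝ) (j : ℕ), j ∈ Finset.range k → 0 ≤ x → (x ^ (((k - j : ℕ) : ℝ)⁻¹)) ^ (k - j) = x := by
    intro k x j hj hx
    have : k - j ≠ 0 := by
      have := Finset.mem_range.1 hj
      omega
    exact Real.rpow_inv_natCast_pow hx this
  have hinv : ∀ (k j : ℕ), j ∈ Finset.range k → (0 : ℝ) < ((k - j : ℕ) : ℝ)⁻¹ := by
    intro k j hj
    have := Finset.mem_range.1 hj
    have h4 : 0 < k - j := by omega
    positivity
  have hlamt : Tendsto lam 𝒰 (𝓝 0) := by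
    have h1 : Tendsto (fun n => ∑ j ∈ Finset.range (M + 1), ‖ℓ (C j n)‖ ^ (((M + 1 - j : ℕ) : ℝ)⁻¹)) 𝒰 (𝓝 0) := by
      have : (0 : ℝ) = ∑ j ∈ Finset.range (M + 1), (0 : ℝ) := by simp
      rw [this]
      refine tendsto_finsetSum _ fun j hj => ?_
      have h3 := hinv (M + 1) j hj
      have h5 : Tendsto (fun n => ℓ (C j n)) 𝒰 (𝓝 0) := by
        have := (ℓ.continuous.tendsto _).comp (hC0 j hj)
        rw [map_zero] at this
        exact this
      have h4 := (h5.norm).rpow_const (p := ((M + 1 - j : ℕ) : ℝ)⁻¹) (Or.inr h3.le)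
      rw [norm_zero, Real.zero_rpow h3.ne'] at h4
      exact h4
    have h2 : Tendsto (fun n => ∑ j ∈ Finset.range (M + 2), ‖C j n - ℓ (C j n) • G w‖ ^ (((M + 2 - j : ℕ) : ℝ)⁻¹)) 𝒰 (𝓝 0) := by
      have : (0 : ℝ) = ∑ j ∈ Finset.range (M + 2), (0 : ℝ) := by simp
      rw [this]
      refine tendsto_finsetSum _ fun j hj => ?_
      have h3 := hinv (M + 2) j hj
      have h4 := ((hπ0 j hj).norm).rpow_const (p := ((M + 2 - j : ℕ) : ℝ)⁻¹) (Or.inr h3.le)
      rw [norm_zero, Real.zero_rpow h3.ne'] at h4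
      exact h4
    have := h1.add h2
    rw [add_zero] at this
    exact this
  have hcm : ∀ᶠ n in (𝒰 : Filter ℕ), c n ∈ ball w r := hc1.eventually (ball_mem_nhds w h.pos)
  have hlamp : ∀ᶠ n in (𝒰 : Filter ℕ), 0 < lam n := by
    filter_upwards [hcm, h.nz, hc2] with n h1 h3 h9
    refine lt_of_le_of_ne (hlam0 n) fun h4 => ?_
    have h6 := hle2 n 0 (by simp)
    rw [← h4] at h6
    have h7 : ‖C 0 n - ℓ (C 0 n) • G w‖ ^ (((M + 2 - 0 : ℕ) : ℝ)⁻¹) = 0 := le_antisymm h6 (Real.rpow_nonneg (norm_nonneg _) _)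
    have h8 := hpow (M + 2) ‖C 0 n - ℓ (C 0 n) • G w‖ 0 (by simp) (norm_nonneg _)
    rw [h7, zero_pow (by omega)] at h8
    have h10 := norm_eq_zero.1 h8.symm
    have h11 : C 0 n = Φ n (c n) := rfl
    rw [h11, h9, zero_smul, sub_zero] at h10
    exact h3 _ h1 h10
  -- the limits of the parameters
  have hA : ∀ j ∈ Finset.range (M + 1), ∃ x : ℂ, Tendsto (fun n => ((lam n : ℂ) ^ (M + 1 - j))⁻¹ * ℓ (C j n)) 𝒰 (𝓝 x) := by
    intro j hj
    obtain ⟨y, -, hy⟩ := exists_lim (𝒰 := 𝒰) (isCompact_closedBall (0 : ℂ) 1) (x := fun n => ((lam n : ℂ) ^ (M + 1 - j))⁻¹ * ℓ (C j n)) (by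
      filter_upwards [hlamp] with n hn
      rw [mem_closedBall_zero_iff, norm_mul, norm_inv, norm_pow, Complex.norm_real, Real.norm_of_nonneg hn.le,
        inv_mul_le_iff₀ (by positivity), mul_one]
      have h1 := hle1 n j hj
      have h2 := pow_le_pow_left₀ (Real.rpow_nonneg (norm_nonneg _) _) h1 (M + 1 - j)
      rwa [hpow _ _ j hj (norm_nonneg _)] at h2)
    exact ⟨y, hy⟩
  have hB : ∀ j ∈ Finset.range (M + 2), ∃ y : E,
      Tendsto (fun n => ((lam n : ℂ) ^ (M + 2 - j))⁻¹ • (C j n - ℓ (C j n) • G w)) 𝒰 (𝓝 y) := by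
    intro j hj
    obtain ⟨y, -, hy⟩ := exists_lim (𝒰 := 𝒰) (isCompact_closedBall (0 : E) 1)
      (x := fun n => ((lam n : ℂ) ^ (M + 2 - j))⁻¹ • (C j n - ℓ (C j n) • G w)) (by
      filter_upwards [hlamp] with n hn
      rw [mem_closedBall_zero_iff, norm_smul, norm_inv, norm_pow, Complex.norm_real, Real.norm_of_nonneg hn.le,
        inv_mul_le_iff₀ (by positivity), mul_one]
      have h1 := hle2 n j hj
      have h2 := pow_le_pow_left₀ (Real.rpow_nonneg (norm_nonneg _) _) h1 (M + 2 - j)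
      rwa [hpow _ _ j hj (norm_nonneg _)] at h2)
    exact ⟨y, hy⟩
  have hA' : ∀ j : ℕ, ∃ x : ℂ, (j ∈ Finset.range (M + 1) → Tendsto (fun n => ((lam n : ℂ) ^ (M + 1 - j))⁻¹ * ℓ (C j n)) 𝒰 (𝓝 x)) ∧
      (j ∉ Finset.range (M + 1) → x = 0) := by
    intro j
    by_cases hj : j ∈ Finset.range (M + 1)
    · obtain ⟨x, hx⟩ := hA j hj
      exact ⟨x, fun _ => hx, fun h => absurd hj h⟩
    · exact ⟨0, fun h => absurd h hj, fun _ => rfl⟩
  have hB' : ∀ j : ℕ, ∃ y : E, (j ∈ Finset.range (M + 2) →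
      Tendsto (fun n => ((lam n : ℂ) ^ (M + 2 - j))⁻¹ • (C j n - ℓ (C j n) • G w)) 𝒰 (𝓝 y)) ∧ (j ∉ Finset.range (M + 2) → y = 0) := by
    intro j
    by_cases hj : j ∈ Finset.range (M + 2)
    · obtain ⟨x, hx⟩ := hB j hj
      exact ⟨x, fun _ => hx, fun h => absurd hj h⟩
    · exact ⟨0, fun h => absurd h hj, fun _ => rfl⟩
  choose a ha ha0 using hA'
  choose A hAA hAA0 using hB'
  have hone : ∑ j ∈ Finset.range (M + 1), ‖a j‖ ^ (((M + 1 - j : ℕ) : ℝ)⁻¹) + ∑ j ∈ Finset.range (M + 2), ‖A j‖ ^ (((M + 2 - j : ℕ) : ℝ)⁻¹) = 1 := by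
    have h1 : Tendsto (fun n => ∑ j ∈ Finset.range (M + 1), ‖((lam n : ℂ) ^ (M + 1 - j))⁻¹ * ℓ (C j n)‖ ^ (((M + 1 - j : ℕ) : ℝ)⁻¹) +
        ∑ j ∈ Finset.range (M + 2), ‖((lam n : ℂ) ^ (M + 2 - j))⁻¹ • (C j n - ℓ (C j n) • G w)‖ ^ (((M + 2 - j : ℕ) : ℝ)⁻¹)) 𝒰
        (𝓝 (∑ j ∈ Finset.range (M + 1), ‖a j‖ ^ (((M + 1 - j : ℕ) : ℝ)⁻¹) + ∑ j ∈ Finset.range (M + 2), ‖A j‖ ^ (((M + 2 - j : ℕ) : ℝ)⁻¹))) := by
      refine (tendsto_finsetSum _ fun j hj => ?_).add (tendsto_finsetSum _ fun j hj => ?_)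
      · exact ((ha j hj).norm).rpow_const (Or.inr (hinv _ j hj).le)
      · exact ((hAA j hj).norm).rpow_const (Or.inr (hinv _ j hj).le)
    refine tendsto_nhds_unique h1 (Tendsto.congr' ?_ tendsto_const_nhds)
    filter_upwards [hlamp] with n hn
    have h2 : ∀ j ∈ Finset.range (M + 1), ‖((lam n : ℂ) ^ (M + 1 - j))⁻¹ * ℓ (C j n)‖ ^ (((M + 1 - j : ℕ) : ℝ)⁻¹) =
        ‖ℓ (C j n)‖ ^ (((M + 1 - j : ℕ) : ℝ)⁻¹) / lam n := by
      intro j hj
      have h4 : M + 1 - j ≠ 0 := by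
        have := Finset.mem_range.1 hj
        omega
      rw [norm_mul, norm_inv, norm_pow, Complex.norm_real, Real.norm_of_nonneg hn.le, inv_mul_eq_div,
        Real.div_rpow (norm_nonneg _) (by positivity), Real.pow_rpow_inv_natCast hn.le h4]
    have h3 : ∀ j ∈ Finset.range (M + 2), ‖((lam n : ℂ) ^ (M + 2 - j))⁻¹ • (C j n - ℓ (C j n) • G w)‖ ^ (((M + 2 - j : ℕ) : ℝ)⁻¹) =
        ‖C j n - ℓ (C j n) • G w‖ ^ (((M + 2 - j : ℕ) : ℝ)⁻¹) / lam n := by
      intro j hj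
      have h4 : M + 2 - j ≠ 0 := by
        have := Finset.mem_range.1 hj
        omega
      rw [norm_smul, norm_inv, norm_pow, Complex.norm_real, Real.norm_of_nonneg hn.le, inv_mul_eq_div,
        Real.div_rpow (norm_nonneg _) (by positivity), Real.pow_rpow_inv_natCast hn.le h4]
    rw [Finset.sum_congr rfl h2, Finset.sum_congr rfl h3, ← Finset.sum_div, ← Finset.sum_div, ← add_div]
    exact (div_self hn.ne').symm
  have ha00 : a 0 = 0 := by
    refine tendsto_nhds_unique (ha 0 (by simp)) (Tendsto.congr' ?_ tendsto_const_nhds)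
    filter_upwards [hc2] with n hn
    have h1 : C 0 n = Φ n (c n) := rfl
    rw [h1, hn, mul_zero]
  have hℓA : ∀ j, ℓ (A j) = 0 := by
    intro j
    by_cases hj : j ∈ Finset.range (M + 2)
    · refine tendsto_nhds_unique ((ℓ.continuous.tendsto _).comp (hAA j hj)) (Tendsto.congr (fun n => ?_) tendsto_const_nhds)
      rw [Function.comp_apply, map_smul, map_sub, map_smul, hℓ, smul_eq_mul, smul_eq_mul, mul_one, sub_self, mul_zero]
    · rw [hAA0 j hj, map_zero]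
  have hxt : ∀ (ζ : ℕ → ℂ) (ζ₀ : ℂ), Tendsto ζ 𝒰 (𝓝 ζ₀) → Tendsto (fun n => c n + lam n * ζ n) 𝒰 (𝓝 w) := by
    intro ζ ζ₀ hζ
    have h1 : Tendsto (fun n => (lam n : ℂ) * ζ n) 𝒰 (𝓝 ((0 : ℂ) * ζ₀)) :=
      ((Complex.continuous_ofReal.tendsto' 0 0 (by simp)).comp hlamt).mul hζ
    have := hc1.add h1
    simpa using this
  have hnewton : ∀ (n k : ℕ) (u : ℂ), Φ n (c n + lam n * u) =
      ∑ j ∈ Finset.range k, ((lam n : ℂ) ^ j * u ^ j) • C j n + ((lam n : ℂ) ^ k * u ^ k) • it (Φ n) (fun _ => c n) k (c n + lam n * u) := by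
    intro n k u
    rw [newton (Φ n) (fun _ => c n) k (c n + lam n * u)]
    simp only [Finset.prod_const, Finset.card_range, add_sub_cancel_left, mul_pow]
    rfl
  have hsplit : ∀ (n k j : ℕ), j ≤ k → (lam n : ℂ) ≠ 0 → ((lam n : ℂ) ^ k)⁻¹ * (lam n : ℂ) ^ j = ((lam n : ℂ) ^ (k - j))⁻¹ := by
    intro n k j hj hn
    have h3 : (lam n : ℂ) ^ k = (lam n : ℂ) ^ j * (lam n : ℂ) ^ (k - j) := by
      rw [← pow_add]
      congr 1
      omega
    rw [h3]
    field_simp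
  refine ⟨c, lam, a, A, hc1, hlamp, hlamt, ha00, hℓA, ?_, ?_, ?_, hc2, ?_⟩
  · intro ζ₀ _ ζ hζ
    have hx := hxt ζ ζ₀ hζ
    have h1 : Tendsto (fun n => ∑ j ∈ Finset.range (M + 1), ζ n ^ j * (((lam n : ℂ) ^ (M + 1 - j))⁻¹ * ℓ (C j n)) +
        ζ n ^ (M + 1) * ℓ (it (Φ n) (fun _ => c n) (M + 1) (c n + lam n * ζ n))) 𝒰
        (𝓝 (∑ j ∈ Finset.range (M + 1), ζ₀ ^ j * a j + ζ₀ ^ (M + 1) * 1)) := by
      refine (tendsto_finsetSum _ fun j hj => (hζ.pow j).mul (ha j hj)).add ((hζ.pow (M + 1)).mul ?_)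
      have := (ℓ.continuous.tendsto _).comp (hS w (mem_ball_self h.pos) _ hx)
      rwa [hℓ] at this
    rw [mul_one] at h1
    refine h1.congr' ?_
    filter_upwards [hlamp] with n hn
    have hn' : (lam n : ℂ) ≠ 0 := by
      rw [Ne, Complex.ofReal_eq_zero]
      exact hn.ne'
    rw [hnewton n (M + 1) (ζ n), map_add, map_sum, mul_add, Finset.mul_sum]
    congr 1
    · refine Finset.sum_congr rfl fun j hj => ?_
      rw [map_smul, smul_eq_mul, ← hsplit n (M + 1) j (Finset.mem_range.1 hj).le hn']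
      ring
    · rw [map_smul, smul_eq_mul]
      field_simp
  · intro ζ₀ _ ζ hζ
    have hx := hxt ζ ζ₀ hζ
    have h2 : Tendsto (fun n => it (Φ n) (fun _ => c n) (M + 2) (c n + lam n * ζ n)) 𝒰 (𝓝 (deriv G w)) := by
      have := hT w (mem_ball_self h.pos) _ hx
      rwa [dslope_same] at this
    have h1 : Tendsto (fun n => ∑ j ∈ Finset.range (M + 2), ζ n ^ j • (((lam n : ℂ) ^ (M + 2 - j))⁻¹ • (C j n - ℓ (C j n) • G w)) +
        ζ n ^ (M + 2) • (it (Φ n) (fun _ => c n) (M + 2) (c n + lam n * ζ n) -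
          ℓ (it (Φ n) (fun _ => c n) (M + 2) (c n + lam n * ζ n)) • G w)) 𝒰
        (𝓝 (∑ j ∈ Finset.range (M + 2), ζ₀ ^ j • A j + ζ₀ ^ (M + 2) • (deriv G w - ℓ (deriv G w) • G w))) := by
      refine (tendsto_finsetSum _ fun j hj => (hζ.pow j).smul (hAA j hj)).add ((hζ.pow (M + 2)).smul ?_)
      exact h2.sub (((ℓ.continuous.tendsto _).comp h2).smul_const (G w))
    refine h1.congr' ?_
    filter_upwards [hlamp] with n hn
    have hn' : (lam n : ℂ) ≠ 0 := by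
      rw [Ne, Complex.ofReal_eq_zero]
      exact hn.ne'
    have h3 : ∀ v : E, ∀ t : ℂ, (t • v - ℓ (t • v) • G w) = t • (v - ℓ v • G w) := by
      intro v t
      rw [map_smul, smul_eq_mul, smul_sub, smul_smul]
    have h4 : Φ n (c n + lam n * ζ n) - ℓ (Φ n (c n + lam n * ζ n)) • G w =
        ∑ j ∈ Finset.range (M + 2), ((lam n : ℂ) ^ j * ζ n ^ j) • (C j n - ℓ (C j n) • G w) +
        ((lam n : ℂ) ^ (M + 2) * ζ n ^ (M + 2)) • (it (Φ n) (fun _ => c n) (M + 2) (c n + lam n * ζ n) -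
          ℓ (it (Φ n) (fun _ => c n) (M + 2) (c n + lam n * ζ n)) • G w) := by
      rw [hnewton n (M + 2) (ζ n), map_add, map_sum, add_smul, Finset.sum_smul, add_sub_add_comm, ← Finset.sum_sub_distrib, h3]
      congr 1
      exact Finset.sum_congr rfl fun j _ => h3 _ _
    rw [h4, smul_add, Finset.smul_sum]
    congr 1
    · refine Finset.sum_congr rfl fun j hj => ?_
      rw [← hsplit n (M + 2) j (Finset.mem_range.1 hj).le hn', smul_smul, smul_smul]
      congr 1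
      ring
    · rw [smul_smul]
      congr 1
      field_simp
  · rintro ⟨h1, h2⟩
    rw [Finset.sum_eq_zero (fun j hj => by rw [h1 j hj, norm_zero, Real.zero_rpow (hinv _ j hj).ne']),
      Finset.sum_eq_zero (fun j hj => by rw [h2 j hj, norm_zero, Real.zero_rpow (hinv _ j hj).ne'])] at hone
    norm_num at hone
  · intro ε hε
    obtain ⟨K, hK0, hK⟩ : ∃ K : ℝ, 0 < K ∧ K = ‖ℓ‖ * ‖G w‖ + 1 := ⟨‖ℓ‖ * ‖G w‖ + 1, by positivity, rfl⟩
    have hπn : ∀ v : E, ‖v - ℓ v • G w‖ ≤ K * ‖v‖ := by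
      intro v
      calc ‖v - ℓ v • G w‖ ≤ ‖v‖ + ‖ℓ v • G w‖ := norm_sub_le _ _
        _ ≤ ‖v‖ + ‖ℓ‖ * ‖v‖ * ‖G w‖ := by
          rw [norm_smul]
          gcongr
          exact ℓ.le_opNorm v
        _ = K * ‖v‖ := by rw [hK]; ring
    obtain ⟨e, he0, he1, he2⟩ : ∃ e : ℝ, 0 < e ∧ ‖ℓ‖ * e ≤ ε / 2 ∧ K * e ≤ ε / 2 := by
      refine ⟨ε / (2 * (‖ℓ‖ + K)), by positivity, ?_, ?_⟩
      · rw [mul_div_assoc', div_le_iff₀ (by positivity)]
        nlinarith only [hε, hK0, norm_nonneg ℓ]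
      · rw [mul_div_assoc', div_le_iff₀ (by positivity)]
        nlinarith only [hε, norm_nonneg ℓ]
    -- the limits are near their values at `w`
    have hds : DifferentiableOn ℂ (_root_.dslope G w) (ball w r) := (Complex.differentiableOn_dslope hwr).2 h.holG
    obtain ⟨s₀, hs₀, hs₀'⟩ : ∃ s₀, 0 < s₀ ∧ ∀ z ∈ closedBall w s₀, z ∈ ball w r ∧ ‖G z - G w‖ < e / 2 ∧
        ‖_root_.dslope G w z - deriv G w‖ < e / 2 := by
      have h1 : ∀ᶠ z in 𝓝 w, z ∈ ball w r ∧ ‖G z - G w‖ < e / 2 ∧ ‖_root_.dslope G w z - deriv G w‖ < e / 2 := by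
        have h2 : Tendsto (fun z => ‖G z - G w‖) (𝓝 w) (𝓝 0) := by
          have := ((h.holG.continuousOn.continuousAt hwr).tendsto.sub_const (G w)).norm
          simpa using this
        have h3 : Tendsto (fun z => ‖_root_.dslope G w z - deriv G w‖) (𝓝 w) (𝓝 0) := by
          have h4 := (hds.continuousOn.continuousAt hwr).tendsto
          rw [dslope_same] at h4
          have := (h4.sub_const (deriv G w)).norm
          simpa using this
        exact (Filter.Eventually.and hwr ((h2.eventually (gt_mem_nhds (by positivity))).and (h3.eventually (gt_mem_nhds (by positivity)))))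
      obtain ⟨s₁, hs₁, hs₁'⟩ := Metric.mem_nhds_iff.1 h1
      exact ⟨s₁ / 2, by positivity, fun z hz => hs₁' (closedBall_subset_ball (by linarith only [hs₁]) hz)⟩
    have hu1 : ∀ᶠ n in (𝒰 : Filter ℕ), ∀ z ∈ closedBall w s₀, ‖it (Φ n) (fun _ => c n) (M + 1) z - G z‖ < e / 2 :=
      hS.unif h.holG.continuousOn isOpen_ball (isCompact_closedBall w s₀) (fun z hz => (hs₀' z hz).1) (by positivity)
    have hu2 : ∀ᶠ n in (𝒰 : Filter ℕ), ∀ z ∈ closedBall w s₀, ‖it (Φ n) (fun _ => c n) (M + 2) z - _root_.dslope G w z‖ < e / 2 :=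
      hT.unif hds.continuousOn isOpen_ball (isCompact_closedBall w s₀) (fun z hz => (hs₀' z hz).1) (by positivity)
    set R : ℝ := max 1 (2 * (M + 2) / ε) with hR
    have hR1 : 1 ≤ R := le_max_left _ _
    have hR0 : 0 < R := by linarith
    have hRε : (M + 2) * (1 / R) ≤ ε / 2 := by
      have h1 : 2 * ((M : ℝ) + 2) / ε ≤ R := le_max_right _ _
      rw [div_le_iff₀ hε] at h1
      rw [mul_div_assoc', div_le_iff₀ hR0]
      linarith only [h1]
    refine ⟨R, s₀ / 2, hR1, by positivity, ?_⟩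
    filter_upwards [hu1, hu2, hlamp, hc1.eventually (ball_mem_nhds w (show 0 < s₀ / 2 by positivity))] with n h1 h2 h3 h4 u hu hu'
    have hz : c n + u ∈ closedBall w s₀ := by
      rw [mem_closedBall, dist_eq_norm]
      have h4' : ‖c n - w‖ < s₀ / 2 := by rwa [← dist_eq_norm]
      calc ‖c n + u - w‖ = ‖(c n - w) + u‖ := by ring_nf
        _ ≤ ‖c n - w‖ + ‖u‖ := norm_add_le _ _
        _ ≤ s₀ := by linarith only [hu', h4']
    obtain ⟨h5, h6, h7⟩ := hs₀' _ hz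
    have hu0 : 0 < ‖u‖ := lt_of_lt_of_le (by positivity) hu
    have hnw : ∀ k, Φ n (c n + u) = ∑ j ∈ Finset.range k, u ^ j • C j n + u ^ k • it (Φ n) (fun _ => c n) k (c n + u) := by
      intro k
      rw [newton (Φ n) (fun _ => c n) k (c n + u)]
      simp only [Finset.prod_const, Finset.card_range, add_sub_cancel_left]
      rfl
    have hlu : lam n ≤ ‖u‖ := le_trans (by nlinarith only [hR1, h3]) hu
    have hratio : lam n / ‖u‖ ≤ 1 / R := by
      rw [div_le_div_iff₀ hu0 hR0]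
      linarith only [hu]
    have hterm : ∀ (k j : ℕ) (x : ℝ), j ∈ Finset.range k → 0 ≤ x → x ^ (((k - j : ℕ) : ℝ)⁻¹) ≤ lam n → ‖u‖ ^ j * x ≤ 1 / R * ‖u‖ ^ k := by
      intro k j x hj hx hxl
      have hj' := Finset.mem_range.1 hj
      have h8 := pow_le_pow_left₀ (Real.rpow_nonneg hx _) hxl (k - j)
      rw [hpow _ _ j hj hx] at h8
      have h9 : (lam n / ‖u‖) ^ (k - j) ≤ 1 / R := by
        calc (lam n / ‖u‖) ^ (k - j) ≤ (lam n / ‖u‖) ^ 1 := by
              refine pow_le_pow_of_le_one (by positivity) ?_ (by omega)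
              rw [div_le_one hu0]
              exact hlu
          _ = lam n / ‖u‖ := pow_one _
          _ ≤ 1 / R := hratio
      calc ‖u‖ ^ j * x ≤ ‖u‖ ^ j * lam n ^ (k - j) := by gcongr
        _ = ‖u‖ ^ j * (‖u‖ ^ (k - j) * (lam n / ‖u‖) ^ (k - j)) := by
          rw [← mul_pow, mul_div_cancel₀ _ hu0.ne']
        _ = (lam n / ‖u‖) ^ (k - j) * ‖u‖ ^ (j + (k - j)) := by
          rw [pow_add]
          ring
        _ ≤ 1 / R * ‖u‖ ^ k := by
          rw [Nat.add_sub_cancel' hj'.le]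
          gcongr
    refine ⟨h5, ?_, ?_⟩
    · have h8 : ℓ (Φ n (c n + u)) - u ^ (M + 1) = ∑ j ∈ Finset.range (M + 1), u ^ j * ℓ (C j n) +
          u ^ (M + 1) * ℓ (it (Φ n) (fun _ => c n) (M + 1) (c n + u) - G w) := by
        rw [hnw (M + 1), map_add, map_sum, map_smul, map_sub, hℓ, smul_eq_mul]
        simp only [map_smul, smul_eq_mul]
        ring
      have h9 : ‖it (Φ n) (fun _ => c n) (M + 1) (c n + u) - G w‖ ≤ e := by
        have h10 := h1 _ hz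
        calc ‖it (Φ n) (fun _ => c n) (M + 1) (c n + u) - G w‖ =
              ‖(it (Φ n) (fun _ => c n) (M + 1) (c n + u) - G (c n + u)) + (G (c n + u) - G w)‖ := by
                congr 1
                abel
          _ ≤ ‖it (Φ n) (fun _ => c n) (M + 1) (c n + u) - G (c n + u)‖ + ‖G (c n + u) - G w‖ := norm_add_le _ _
          _ ≤ e := by linarith only [h6, h10]
      rw [h8]
      calc ‖∑ j ∈ Finset.range (M + 1), u ^ j * ℓ (C j n) + u ^ (M + 1) * ℓ (it (Φ n) (fun _ => c n) (M + 1) (c n + u) - G w)‖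
          ≤ ‖∑ j ∈ Finset.range (M + 1), u ^ j * ℓ (C j n)‖ + ‖u ^ (M + 1) * ℓ (it (Φ n) (fun _ => c n) (M + 1) (c n + u) - G w)‖ :=
            norm_add_le _ _
        _ ≤ ∑ j ∈ Finset.range (M + 1), 1 / R * ‖u‖ ^ (M + 1) + ‖u‖ ^ (M + 1) * (‖ℓ‖ * e) := by
            gcongr
            · refine norm_sum_le_of_le _ fun j hj => ?_
              rw [norm_mul, norm_pow]
              exact hterm (M + 1) j _ hj (norm_nonneg _) (hle1 n j hj)
            · rw [norm_mul, norm_pow]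
              gcongr
              exact (ℓ.le_opNorm _).trans (mul_le_mul_of_nonneg_left h9 (norm_nonneg _))
        _ = ((M + 1) * (1 / R) + ‖ℓ‖ * e) * ‖u‖ ^ (M + 1) := by
            rw [Finset.sum_const, Finset.card_range, nsmul_eq_mul]
            push_cast
            ring
        _ ≤ ε * ‖u‖ ^ (M + 1) := by
            gcongr
            have h11 : (0 : ℝ) ≤ 1 / R := by positivity
            nlinarith only [he1, hRε, h11]
    · have h8 : (Φ n (c n + u) - ℓ (Φ n (c n + u)) • G w) - u ^ (M + 2) • (deriv G w - ℓ (deriv G w) • G w) =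
          ∑ j ∈ Finset.range (M + 2), u ^ j • (C j n - ℓ (C j n) • G w) +
          u ^ (M + 2) • ((it (Φ n) (fun _ => c n) (M + 2) (c n + u) - deriv G w) -
            ℓ (it (Φ n) (fun _ => c n) (M + 2) (c n + u) - deriv G w) • G w) := by
        have h3' : ∀ v : E, ∀ t : ℂ, (t • v - ℓ (t • v) • G w) = t • (v - ℓ v • G w) := by
          intro v t
          rw [map_smul, smul_eq_mul, smul_sub, smul_smul]
        rw [hnw (M + 2), map_add, map_sum, add_smul, Finset.sum_smul, add_sub_add_comm, ← Finset.sum_sub_distrib, h3', add_sub_assoc,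
          ← smul_sub, map_sub, sub_smul]
        congr 1
        · exact Finset.sum_congr rfl fun j _ => h3' _ _
        · congr 1
          abel
      have h9 : ‖it (Φ n) (fun _ => c n) (M + 2) (c n + u) - deriv G w‖ ≤ e := by
        have h10 := h2 _ hz
        calc ‖it (Φ n) (fun _ => c n) (M + 2) (c n + u) - deriv G w‖ =
              ‖(it (Φ n) (fun _ => c n) (M + 2) (c n + u) - _root_.dslope G w (c n + u)) + (_root_.dslope G w (c n + u) - deriv G w)‖ := by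
                congr 1
                abel
          _ ≤ ‖it (Φ n) (fun _ => c n) (M + 2) (c n + u) - _root_.dslope G w (c n + u)‖ + ‖_root_.dslope G w (c n + u) - deriv G w‖ :=
              norm_add_le _ _
          _ ≤ e := by linarith only [h7, h10]
      rw [h8]
      calc ‖∑ j ∈ Finset.range (M + 2), u ^ j • (C j n - ℓ (C j n) • G w) +
          u ^ (M + 2) • ((it (Φ n) (fun _ => c n) (M + 2) (c n + u) - deriv G w) -
            ℓ (it (Φ n) (fun _ => c n) (M + 2) (c n + u) - deriv G w) • G w)‖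
          ≤ ‖∑ j ∈ Finset.range (M + 2), u ^ j • (C j n - ℓ (C j n) • G w)‖ +
            ‖u ^ (M + 2) • ((it (Φ n) (fun _ => c n) (M + 2) (c n + u) - deriv G w) -
            ℓ (it (Φ n) (fun _ => c n) (M + 2) (c n + u) - deriv G w) • G w)‖ := norm_add_le _ _
        _ ≤ ∑ j ∈ Finset.range (M + 2), 1 / R * ‖u‖ ^ (M + 2) + ‖u‖ ^ (M + 2) * (K * e) := by
            gcongr
            · refine norm_sum_le_of_le _ fun j hj => ?_
              rw [norm_smul, norm_pow]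
              exact hterm (M + 2) j _ hj (norm_nonneg _) (hle2 n j hj)
            · rw [norm_smul, norm_pow]
              gcongr
              exact (hπn _).trans (mul_le_mul_of_nonneg_left h9 hK0.le)
        _ = ((M + 2) * (1 / R) + K * e) * ‖u‖ ^ (M + 2) := by
            rw [Finset.sum_const, Finset.card_range, nsmul_eq_mul]
            push_cast
            ring
        _ ≤ ε * ‖u‖ ^ (M + 2) := by
            gcongr
            nlinarith only [he2, hRε]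

end Pool.Agent.H48.GB

end

section

/-!
# GG Ode: the local flow of a holomorphic vector field is holomorphic in the time and in the initial value; uniqueness
-/

set_option autoImplicit false

open Topology Filter Metric

namespace Pool.Agent.GG

variable {n : ℕ}

/-- a bound which improves itself -/
private theorem ode_self {T E : Type*} [NormedAddCommGroup E] {S : Set T} {u : T → E} {a B₀ : ℝ} (h0 : ∀ z ∈ S, ‖u z‖ ≤ B₀)
    (h : ∀ B : ℝ, (∀ z ∈ S, ‖u z‖ ≤ B) → ∀ z ∈ S, ‖u z‖ ≤ a + B / 2) : ∀ z ∈ S, ‖u z‖ ≤ 2 * a := by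
  intro z hz
  have h1 : ∀ k : ℕ, ∀ z ∈ S, ‖u z‖ ≤ 2 * a + (B₀ - 2 * a) * (1 / 2) ^ k := by
    intro k
    induction k with
    | zero =>
      intro z hz
      have := h0 z hz
      simp only [pow_zero]
      linarith
    | succ k ih =>
      intro z hz
      refine (h _ ih z hz).trans (le_of_eq ?_)
      rw [pow_succ]
      ring
  have h2 : Tendsto (fun k : ℕ => 2 * a + (B₀ - 2 * a) * (1 / 2 : ℝ) ^ k) atTop (𝓝 (2 * a + (B₀ - 2 * a) * 0)) :=
    tendsto_const_nhds.add ((tendsto_pow_atTop_nhds_zero_of_lt_one (by norm_num) (by norm_num)).const_mul _)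
  rw [mul_zero, add_zero] at h2
  exact ge_of_tendsto' h2 fun k => h1 k z hz

/-- mean value inequality on a disc -/
private theorem ode_mv {a : ℂ} {ρ C : ℝ} {f f' : ℂ → Fin n → ℂ} (hf : ∀ z ∈ ball a ρ, HasDerivAt f (f' z) z) (hC : ∀ z ∈ ball a ρ, ‖f' z‖ ≤ C)
    {z : ℂ} (hz : z ∈ ball a ρ) : ‖f z - f a‖ ≤ C * ρ := by
  have ha : a ∈ ball a ρ := mem_ball_self ((dist_nonneg (x := z) (y := a)).trans_lt hz)
  have hC0 : 0 ≤ C := (norm_nonneg _).trans (hC a ha)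
  have h := (convex_ball a ρ).norm_image_sub_le_of_norm_hasDerivWithin_le (f := f) (f' := f') (fun x hx => (hf x hx).hasDerivWithinAt) hC ha hz
  refine h.trans (mul_le_mul_of_nonneg_left ?_ hC0)
  rw [← dist_eq_norm]
  exact (mem_ball.1 hz).le

/-- a good ball: the field and its derivative are bounded, the derivative is Lipschitz -/
private theorem ode_ball {V : (Fin n → ℂ) → (Fin n → ℂ)} {x₀ : Fin n → ℂ} (hV : AnalyticAt ℂ V x₀) {ρ : ℝ} (hρ : 0 < ρ) :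
    ∃ R : ℝ, 0 < R ∧ R ≤ ρ ∧ ∃ K : ℝ, 0 < K ∧ (∀ x ∈ ball x₀ R, AnalyticAt ℂ V x) ∧ (∀ x ∈ ball x₀ R, ‖V x‖ ≤ K) ∧
      (∀ x ∈ ball x₀ R, ‖fderiv ℂ V x‖ ≤ K) ∧ ∀ x ∈ ball x₀ R, ∀ y ∈ ball x₀ R, ‖fderiv ℂ V x - fderiv ℂ V y‖ ≤ K * ‖x - y‖ := by
  have h1 : ∀ᶠ x in 𝓝 x₀, AnalyticAt ℂ V x := hV.eventually_analyticAt
  have h2 : ∀ᶠ x in 𝓝 x₀, ‖V x‖ < ‖V x₀‖ + 1 := hV.continuousAt.norm.eventually_lt_const (lt_add_one _)
  have h3 : ∀ᶠ x in 𝓝 x₀, ‖fderiv ℂ V x‖ < ‖fderiv ℂ V x₀‖ + 1 := hV.fderiv.continuousAt.norm.eventually_lt_const (lt_add_one _)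
  have h4 : ∀ᶠ x in 𝓝 x₀, ‖fderiv ℂ (fderiv ℂ V) x‖ < ‖fderiv ℂ (fderiv ℂ V) x₀‖ + 1 :=
    hV.fderiv.fderiv.continuousAt.norm.eventually_lt_const (lt_add_one _)
  obtain ⟨R, hR, hB⟩ := Metric.eventually_nhds_iff_ball.1 (h1.and (h2.and (h3.and h4)))
  refine ⟨min R ρ, lt_min hR hρ, min_le_right _ _,
    max (‖V x₀‖ + 1) (max (‖fderiv ℂ V x₀‖ + 1) (‖fderiv ℂ (fderiv ℂ V) x₀‖ + 1)), ?_, ?_, ?_, ?_, ?_⟩
  · exact lt_max_of_lt_left (by positivity)
  · exact fun x hx => (hB x (ball_subset_ball (min_le_left _ _) hx)).1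
  · exact fun x hx => (hB x (ball_subset_ball (min_le_left _ _) hx)).2.1.le.trans (le_max_left _ _)
  · exact fun x hx => (hB x (ball_subset_ball (min_le_left _ _) hx)).2.2.1.le.trans ((le_max_left _ _).trans (le_max_right _ _))
  · intro x hx y hy
    refine (convex_ball x₀ (min R ρ)).norm_image_sub_le_of_norm_fderiv_le (𝕜 := ℂ) (f := fderiv ℂ V) ?_ ?_ hy hx
    · exact fun z hz => (hB z (ball_subset_ball (min_le_left _ _) hz)).1.fderiv.differentiableAt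
    · exact fun z hz => (hB z (ball_subset_ball (min_le_left _ _) hz)).2.2.2.le.trans ((le_max_right _ _).trans (le_max_right _ _))

/-- the quadratic remainder -/
private theorem ode_quad {V : (Fin n → ℂ) → (Fin n → ℂ)} {x₀ : Fin n → ℂ} {R K : ℝ} (hK : 0 < K) (h1 : ∀ x ∈ ball x₀ R, AnalyticAt ℂ V x)
    (h4 : ∀ x ∈ ball x₀ R, ∀ y ∈ ball x₀ R, ‖fderiv ℂ V x - fderiv ℂ V y‖ ≤ K * ‖x - y‖) {x y : Fin n → ℂ} (hx : x ∈ ball x₀ R)
    (hy : y ∈ ball x₀ R) : ‖V y - V x - fderiv ℂ V x (y - x)‖ ≤ K * ‖y - x‖ ^ 2 := by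
  have hs : Convex ℝ (ball x₀ R ∩ closedBall x ‖y - x‖) := (convex_ball _ _).inter (convex_closedBall _ _)
  have h := hs.norm_image_sub_le_of_norm_fderiv_le' (𝕜 := ℂ) (f := V) (φ := fderiv ℂ V x) (C := K * ‖y - x‖) (x := x) (y := y)
    (fun z hz => (h1 z hz.1).differentiableAt) ?_ ⟨hx, mem_closedBall_self (norm_nonneg _)⟩ ⟨hy, by rw [mem_closedBall, dist_eq_norm]⟩
  · refine h.trans (le_of_eq ?_)
    ring
  · intro z hz
    refine (h4 z hz.1 x hx).trans (mul_le_mul_of_nonneg_left ?_ hK.le)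
    rw [← dist_eq_norm]
    exact mem_closedBall.1 hz.2

/-- **The local flow.** -/
theorem exists_flow {V : (Fin n → ℂ) → (Fin n → ℂ)} {x₀ : Fin n → ℂ} (hV : AnalyticAt ℂ V x₀) {ρ : ℝ} (hρ : 0 < ρ) :
    ∃ r : ℝ, 0 < r ∧ ∃ H : ℂ × (Fin n → ℂ) → (Fin n → ℂ), (∀ z ∈ ball (0 : ℂ) r, ∀ x ∈ ball x₀ r, AnalyticAt ℂ H (z, x)) ∧
      (∀ x ∈ ball x₀ r, H (0, x) = x) ∧
      ∀ z ∈ ball (0 : ℂ) r, ∀ x ∈ ball x₀ r, H (z, x) ∈ ball x₀ ρ ∧ HasDerivAt (fun t => H (t, x)) (V (H (z, x))) z := by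
  classical
  obtain ⟨R, hR, hRρ, K, hK, hVa, hVb, hVd, hVl⟩ := ode_ball hV hρ
  -- the solutions
  obtain ⟨ε₁, hε₁, hε₁R, hsol⟩ := Pool.Agent.G3.C.ode_hol (n := n) (half_pos hR) hK
  have hY : ∀ x ∈ ball x₀ (R / 2), ∃ Y : ℂ → Fin n → ℂ, Y 0 = x ∧ ∀ s ∈ ball (0 : ℂ) ε₁, Y s ∈ ball x₀ R ∧ HasDerivAt Y (V (Y s)) s := by
    intro x hx
    have hsub : ∀ q ∈ ball ((0 : ℂ), x) (R / 2), q.2 ∈ ball x₀ R := by
      intro q hq
      rw [← ball_prod_same] at hq
      have h1 : dist q.2 x < R / 2 := hq.2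
      have h2 : dist x x₀ < R / 2 := hx
      exact (dist_triangle q.2 x x₀).trans_lt (by linarith)
    obtain ⟨Y, hY0, hY⟩ := hsol (fun q => V q.2) 0 x
      (fun q hq => ((hVa q.2 (hsub q hq)).differentiableAt.comp q differentiableAt_snd).differentiableWithinAt) (fun q hq => hVb q.2 (hsub q hq))
    refine ⟨Y, hY0, fun s hs => ⟨?_, (hY s hs).2⟩⟩
    have h1 : dist (Y s) x < R / 2 / 2 := (hY s hs).1
    have h2 : dist x x₀ < R / 2 := hx
    exact (dist_triangle (Y s) x x₀).trans_lt (by linarith)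
  choose! Y hY0 hY using hY
  -- the linear equation
  obtain ⟨ε₂, hε₂, hε₂R, hlin⟩ := Pool.Agent.G3.C.ode_hol (n := n) (R := min ε₁ 1) (M := 2 * K) (lt_min hε₁ one_pos) (by positivity)
  obtain ⟨r, hr⟩ : ∃ r : ℝ, r = min (min ε₂ (R / 2)) (1 / (2 * K)) := ⟨_, rfl⟩
  have hr0 : 0 < r := by rw [hr]; exact lt_min (lt_min hε₂ (half_pos hR)) (by positivity)
  have hr1 : r ≤ ε₂ := by rw [hr]; exact (min_le_left _ _).trans (min_le_left _ _)
  have hr2 : r ≤ R / 2 := by rw [hr]; exact (min_le_left _ _).trans (min_le_right _ _)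
  have hr3 : K * r ≤ 1 / 2 := by
    have : r ≤ 1 / (2 * K) := by rw [hr]; exact min_le_right _ _
    calc K * r ≤ K * (1 / (2 * K)) := mul_le_mul_of_nonneg_left this hK.le
      _ = 1 / 2 := by field_simp
  have hr4 : r ≤ ε₁ := hr1.trans (hε₂R.trans (min_le_left _ _))
  have hxR : ∀ x ∈ ball x₀ r, x ∈ ball x₀ (R / 2) := fun x hx => ball_subset_ball hr2 hx
  have hzε : ∀ z ∈ ball (0 : ℂ) r, z ∈ ball (0 : ℂ) ε₁ := fun z hz => ball_subset_ball hr4 hz
  refine ⟨r, hr0, fun q => Y q.2 q.1, ?_, fun x hx => hY0 x (hxR x hx), fun z hz x hx =>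
    ⟨ball_subset_ball hRρ (hY x (hxR x hx) z (hzε z hz)).1, (hY x (hxR x hx) z (hzε z hz)).2⟩⟩
  -- Lipschitz dependence
  have hlip : ∀ x ∈ ball x₀ r, ∀ y ∈ ball x₀ r, ∀ z ∈ ball (0 : ℂ) r, ‖Y y z - Y x z‖ ≤ 2 * ‖y - x‖ := by
    intro x hx y hy
    refine ode_self (S := ball (0 : ℂ) r) (u := fun z => Y y z - Y x z) (B₀ := 2 * R) ?_ ?_
    · intro z hz
      have h1 := (hY x (hxR x hx) z (hzε z hz)).1
      have h2 := (hY y (hxR y hy) z (hzε z hz)).1
      rw [← dist_eq_norm]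
      calc dist (Y y z) (Y x z) ≤ dist (Y y z) x₀ + dist (Y x z) x₀ := dist_triangle_right _ _ _
        _ ≤ 2 * R := by linarith [mem_ball.1 h1, mem_ball.1 h2]
    · intro B hB z hz
      have hd : ∀ w ∈ ball (0 : ℂ) r, HasDerivAt (fun w => Y y w - Y x w) (V (Y y w) - V (Y x w)) w := fun w hw =>
        (hY y (hxR y hy) w (hzε w hw)).2.sub (hY x (hxR x hx) w (hzε w hw)).2
      have hb : ∀ w ∈ ball (0 : ℂ) r, ‖V (Y y w) - V (Y x w)‖ ≤ K * B := by
        intro w hw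
        have h1 := (hY x (hxR x hx) w (hzε w hw)).1
        have h2 := (hY y (hxR y hy) w (hzε w hw)).1
        refine ((convex_ball x₀ R).norm_image_sub_le_of_norm_fderiv_le (𝕜 := ℂ) (f := V) (fun z hz => (hVa z hz).differentiableAt) hVd h1 h2).trans ?_
        exact mul_le_mul_of_nonneg_left (hB w hw) hK.le
      have h3 := ode_mv hd hb hz
      rw [hY0 x (hxR x hx), hY0 y (hxR y hy)] at h3
      have hB0 : 0 ≤ B := (norm_nonneg _).trans (hB z hz)
      calc ‖Y y z - Y x z‖ ≤ ‖(Y y z - Y x z) - (y - x)‖ + ‖y - x‖ := by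
            have := norm_add_le ((Y y z - Y x z) - (y - x)) (y - x)
            rwa [sub_add_cancel] at this
        _ ≤ K * B * r + ‖y - x‖ := add_le_add h3 le_rfl
        _ = (K * r) * B + ‖y - x‖ := by ring
        _ ≤ 1 / 2 * B + ‖y - x‖ := add_le_add (mul_le_mul_of_nonneg_right hr3 hB0) le_rfl
        _ = ‖y - x‖ + B / 2 := by ring
  -- the derivative with respect to the initial value
  have hder : ∀ x ∈ ball x₀ r, ∀ e : Fin n → ℂ, ‖e‖ ≤ 1 → ∀ z ∈ ball (0 : ℂ) r, DifferentiableAt ℂ (fun t : ℂ => Y (x + t • e) z) 0 := by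
    intro x hx e he z hz
    have hdA : DifferentiableOn ℂ (fun q : ℂ × (Fin n → ℂ) => fderiv ℂ V (Y x q.1) q.2) (ball (((0 : ℂ), e) : ℂ × (Fin n → ℂ)) (min ε₁ 1)) := by
      intro q hq
      have hq1 : q.1 ∈ ball (0 : ℂ) ε₁ := by
        rw [← ball_prod_same] at hq
        exact ball_subset_ball (min_le_left _ _) hq.1
      have h1 := hY x (hxR x hx) q.1 hq1
      have h2 : DifferentiableAt ℂ (fun q : ℂ × (Fin n → ℂ) => fderiv ℂ V (Y x q.1)) q :=
        ((hVa _ h1.1).fderiv.differentiableAt).comp q (h1.2.differentiableAt.comp q differentiableAt_fst)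
      exact (h2.clm_apply differentiableAt_snd).differentiableWithinAt
    have hdB : ∀ q ∈ ball (((0 : ℂ), e) : ℂ × (Fin n → ℂ)) (min ε₁ 1), ‖fderiv ℂ V (Y x q.1) q.2‖ ≤ 2 * K := by
      intro q hq
      have hq1 : q.1 ∈ ball (0 : ℂ) ε₁ := by
        rw [← ball_prod_same] at hq
        exact ball_subset_ball (min_le_left _ _) hq.1
      have hq2 : dist q.2 e < 1 := by
        rw [← ball_prod_same] at hq
        exact (mem_ball.1 hq.2).trans_le (min_le_right _ _)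
      have h1 := hY x (hxR x hx) q.1 hq1
      refine ((fderiv ℂ V (Y x q.1)).le_opNorm _).trans ?_
      have h2 : ‖q.2‖ ≤ 2 := by
        calc ‖q.2‖ ≤ ‖q.2 - e‖ + ‖e‖ := by
              have := norm_add_le (q.2 - e) e
              rwa [sub_add_cancel] at this
          _ ≤ 2 := by
              rw [← dist_eq_norm]
              linarith
      calc ‖fderiv ℂ V (Y x q.1)‖ * ‖q.2‖ ≤ K * 2 := mul_le_mul (hVd _ h1.1) h2 (norm_nonneg _) hK.le
        _ = 2 * K := mul_comm _ _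
    obtain ⟨W, hW0, hW⟩ := hlin (fun q => fderiv ℂ V (Y x q.1) q.2) 0 e hdA hdB
    -- the remainder
    have hev : ∀ᶠ t : ℂ in 𝓝 0, x + t • e ∈ ball x₀ r := by
      have hc : ContinuousAt (fun t : ℂ => x + t • e) 0 := by fun_prop
      refine hc.eventually_mem ?_
      rw [zero_smul, add_zero]
      exact isOpen_ball.mem_nhds hx
    have hWb : ∀ w ∈ ball (0 : ℂ) r, ‖W w‖ ≤ 2 := by
      intro w hw
      have h1 : dist (W w) e < min ε₁ 1 / 2 := (hW w (ball_subset_ball hr1 hw)).1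
      have h2 : min ε₁ 1 ≤ 1 := min_le_right _ _
      calc ‖W w‖ ≤ ‖W w - e‖ + ‖e‖ := by
            have := norm_add_le (W w - e) e
            rwa [sub_add_cancel] at this
        _ ≤ 2 := by
            rw [← dist_eq_norm]
            linarith
    have hrem : ∀ t : ℂ, x + t • e ∈ ball x₀ r → ∀ w ∈ ball (0 : ℂ) r, ‖Y (x + t • e) w - Y x w - t • W w‖ ≤ 2 * (K * (2 * ‖t‖) ^ 2 * r) := by
      intro t ht
      have hl : ∀ w ∈ ball (0 : ℂ) r, ‖Y (x + t • e) w - Y x w‖ ≤ 2 * ‖t‖ := by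
        intro w hw
        refine (hlip x hx _ ht w hw).trans ?_
        rw [add_sub_cancel_left, norm_smul]
        nlinarith [norm_nonneg t, norm_nonneg e]
      refine ode_self (S := ball (0 : ℂ) r) (u := fun w => Y (x + t • e) w - Y x w - t • W w) (B₀ := 2 * ‖t‖ + ‖t‖ * 2) ?_ ?_
      · intro w hw
        refine (norm_sub_le _ _).trans (add_le_add (hl w hw) ?_)
        rw [norm_smul]
        exact mul_le_mul_of_nonneg_left (hWb w hw) (norm_nonneg _)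
      · intro B hB w hw
        have hd : ∀ w ∈ ball (0 : ℂ) r, HasDerivAt (fun w => Y (x + t • e) w - Y x w - t • W w)
            (V (Y (x + t • e) w) - V (Y x w) - t • fderiv ℂ V (Y x w) (W w)) w := fun w hw =>
          ((hY _ (hxR _ ht) w (hzε w hw)).2.sub (hY x (hxR x hx) w (hzε w hw)).2).sub ((hW w (ball_subset_ball hr1 hw)).2.const_smul t)
        have hb : ∀ w ∈ ball (0 : ℂ) r, ‖V (Y (x + t • e) w) - V (Y x w) - t • fderiv ℂ V (Y x w) (W w)‖ ≤ K * (2 * ‖t‖) ^ 2 + K * B := by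
          intro w hw
          have h1 := (hY x (hxR x hx) w (hzε w hw)).1
          have h2 := (hY _ (hxR _ ht) w (hzε w hw)).1
          have h3 : V (Y (x + t • e) w) - V (Y x w) - t • fderiv ℂ V (Y x w) (W w) =
              (V (Y (x + t • e) w) - V (Y x w) - fderiv ℂ V (Y x w) (Y (x + t • e) w - Y x w)) +
                fderiv ℂ V (Y x w) (Y (x + t • e) w - Y x w - t • W w) := by
            rw [map_sub (fderiv ℂ V (Y x w)) (Y (x + t • e) w - Y x w) (t • W w), map_smul]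
            abel
          rw [h3]
          refine (norm_add_le _ _).trans (add_le_add ?_ ?_)
          · refine (ode_quad hK hVa hVl h1 h2).trans (mul_le_mul_of_nonneg_left ?_ hK.le)
            exact pow_le_pow_left₀ (norm_nonneg _) (hl w hw) 2
          · refine ((fderiv ℂ V (Y x w)).le_opNorm _).trans ?_
            exact mul_le_mul (hVd _ h1) (hB w hw) (norm_nonneg _) hK.le
        have h3 := ode_mv hd hb hw
        have h4 : Y (x + t • e) 0 - Y x 0 - t • W 0 = 0 := by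
          rw [hY0 x (hxR x hx), hY0 _ (hxR _ ht), hW0]
          abel
        rw [h4, sub_zero] at h3
        have hB0 : 0 ≤ B := (norm_nonneg _).trans (hB w hw)
        refine h3.trans ?_
        calc (K * (2 * ‖t‖) ^ 2 + K * B) * r = K * (2 * ‖t‖) ^ 2 * r + (K * r) * B := by ring
          _ ≤ K * (2 * ‖t‖) ^ 2 * r + 1 / 2 * B := add_le_add le_rfl (mul_le_mul_of_nonneg_right hr3 hB0)
          _ = K * (2 * ‖t‖) ^ 2 * r + B / 2 := by ring
    have hD : HasDerivAt (fun t : ℂ => Y (x + t • e) z) (W z) 0 := by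
      rw [hasDerivAt_iff_isLittleO]
      have hO : (fun t : ℂ => Y (x + t • e) z - Y (x + (0 : ℂ) • e) z - (t - 0) • W z) =O[𝓝 0] fun t : ℂ => (t - 0) ^ 2 := by
        refine Asymptotics.IsBigO.of_bound (2 * (K * 4 * r)) ?_
        filter_upwards [hev] with t ht
        rw [zero_smul, add_zero, sub_zero]
        refine (hrem t ht z hz).trans (le_of_eq ?_)
        rw [norm_pow]
        ring
      refine hO.trans_isLittleO ?_
      have h5 : (fun t : ℂ => (t - 0) ^ 2) = fun t : ℂ => (t - 0) * (t - 0) := by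
        funext t
        ring
      rw [h5]
      have h6 : (fun t : ℂ => t - 0) =o[𝓝 0] fun _ : ℂ => (1 : ℂ) := by
        rw [Asymptotics.isLittleO_one_iff]
        have : Tendsto (fun t : ℂ => t - 0) (𝓝 0) (𝓝 (0 - 0)) := (continuous_id.sub continuous_const).tendsto 0
        rwa [sub_zero] at this
      have h7 := h6.mul_isBigO (Asymptotics.isBigO_refl (fun t : ℂ => t - 0) (𝓝 0))
      simpa using h7
    exact hD.differentiableAt
  -- analyticity
  intro z hz x hx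
  obtain ⟨δ, hδ, hδz, hδx⟩ : ∃ δ : ℝ, 0 < δ ∧ ball z δ ⊆ ball (0 : ℂ) r ∧ ball x δ ⊆ ball x₀ r := by
    obtain ⟨δ₁, h1, h2⟩ := Metric.isOpen_iff.1 (isOpen_ball (x := (0 : ℂ)) (ε := r)) z hz
    obtain ⟨δ₂, h3, h4⟩ := Metric.isOpen_iff.1 (isOpen_ball (x := x₀) (ε := r)) x hx
    exact ⟨min δ₁ δ₂, lt_min h1 h3, (ball_subset_ball (min_le_left _ _)).trans h2, (ball_subset_ball (min_le_right _ _)).trans h4⟩
  refine Pool.Agent.TN.osgood_prod (f := fun q : ℂ × (Fin n → ℂ) => Y q.2 q.1) (w := (z, x)) (r := δ) (M := ‖x₀‖ + R) hδ ?_ ?_ ?_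
  · intro y hy
    rw [← ball_prod_same] at hy
    have h1 := (hY y.2 (hxR _ (hδx hy.2)) y.1 (hzε _ (hδz hy.1))).1
    calc ‖Y y.2 y.1‖ ≤ ‖Y y.2 y.1 - x₀‖ + ‖x₀‖ := by
          have := norm_add_le (Y y.2 y.1 - x₀) x₀
          rwa [sub_add_cancel] at this
      _ ≤ ‖x₀‖ + R := by
          rw [← dist_eq_norm]
          linarith [mem_ball.1 h1]
  · intro y hy
    rw [← ball_prod_same] at hy
    have h1 := (hY y.2 (hxR _ (hδx hy.2)) y.1 (hzε _ (hδz hy.1))).2.differentiableAt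
    have h2 : DifferentiableAt ℂ (fun t : ℂ => y.1 + t) 0 := by fun_prop
    have h3 : DifferentiableAt ℂ (Y y.2) (y.1 + 0) := by rwa [add_zero]
    exact h3.comp (0 : ℂ) h2
  · intro y hy l
    rw [← ball_prod_same] at hy
    exact hder y.2 (hδx hy.2) (Pi.single l 1) (by rw [Pi.norm_single, norm_one]) y.1 (hδz hy.1)

end Pool.Agent.GG

end

section

/-!
# MQ2 Rect: the flow box

`Φ (x, y)` = the flow of `v` at the time `y` with the initial value `x e`, `e` and `v 0` independent.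
-/

set_option autoImplicit false

open Topology Filter Metric

noncomputable section

namespace Pool.Agent.MQ2

/-- a vector independent of a given one -/
theorem Rect.exists_indep {w : ℂ × ℂ} (hw : w ≠ 0) : ∃ e : ℂ × ℂ, LinearIndependent ℂ ![e, w] := by
  by_cases h2 : w.2 = 0
  · have h1 : w.1 ≠ 0 := fun h1 => hw (Prod.ext h1 h2)
    refine ⟨(0, 1), LinearIndependent.pair_iff.2 fun s t hst => ?_⟩
    have e1 := congrArg Prod.fst hst
    have e2 := congrArg Prod.snd hst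
    simp only [Prod.fst_add, Prod.smul_fst, smul_eq_mul, Prod.fst_zero, mul_zero, zero_add, Prod.snd_add, Prod.smul_snd, mul_one, Prod.snd_zero] at e1 e2
    have ht : t = 0 := (mul_eq_zero.1 e1).resolve_right h1
    rw [ht, zero_mul, add_zero] at e2
    exact ⟨e2, ht⟩
  · refine ⟨(1, 0), LinearIndependent.pair_iff.2 fun s t hst => ?_⟩
    have e1 := congrArg Prod.fst hst
    have e2 := congrArg Prod.snd hst
    simp only [Prod.fst_add, Prod.smul_fst, smul_eq_mul, Prod.fst_zero, mul_zero, zero_add, Prod.snd_add, Prod.smul_snd, mul_one, Prod.snd_zero] at e1 e2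
    have ht : t = 0 := (mul_eq_zero.1 e2).resolve_right h2
    rw [ht, zero_mul, add_zero] at e1
    exact ⟨e1, ht⟩

/-- module Rect: the flow box -/
theorem rect {v : ℂ × ℂ → ℂ × ℂ} (hv : AnalyticAt ℂ v 0) (h0 : v 0 ≠ 0) : ∃ Φ : ℂ × ℂ → ℂ × ℂ, AnalyticAt ℂ Φ 0 ∧ Φ 0 = 0 ∧
    LinearIndependent ℂ ![fderiv ℂ Φ 0 (1, 0), fderiv ℂ Φ 0 (0, 1)] ∧
    ∀ᶠ p in 𝓝 (0 : ℂ × ℂ), (v (Φ p)).1 * (fderiv ℂ Φ p (0, 1)).2 = (v (Φ p)).2 * (fderiv ℂ Φ p (0, 1)).1 := by
  obtain ⟨e, he⟩ := Rect.exists_indep h0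
  let L : (Fin 2 → ℂ) ≃L[ℂ] ℂ × ℂ := ContinuousLinearEquiv.finTwoArrow ℂ ℂ
  have hV : AnalyticAt ℂ (fun x : Fin 2 → ℂ => L.symm (v (L x))) 0 := by
    have h1 : AnalyticAt ℂ v (L 0) := by
      rw [map_zero]
      exact hv
    have h2 : AnalyticAt ℂ (fun x : Fin 2 → ℂ => v (L x)) 0 := h1.comp ((L : (Fin 2 → ℂ) →L[ℂ] ℂ × ℂ).analyticAt 0)
    exact ((L.symm : ℂ × ℂ →L[ℂ] (Fin 2 → ℂ)).analyticAt _).comp h2
  obtain ⟨r, hr, H, hHa, hH0, hHd⟩ := Pool.Agent.GG.exists_flow hV one_pos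
  -- the inner map
  set ψ : ℂ × ℂ → ℂ × (Fin 2 → ℂ) := fun p => (p.2, L.symm (p.1 • e)) with hψ
  have hψa : ∀ p, AnalyticAt ℂ ψ p := by
    intro p
    have h1 : AnalyticAt ℂ (fun p : ℂ × ℂ => p.1 • e) p := by
      have h2 : AnalyticAt ℂ (fun p : ℂ × ℂ => p.1) p := analyticAt_fst
      exact h2.smul analyticAt_const
    exact analyticAt_snd.prod (((L.symm : ℂ × ℂ →L[ℂ] (Fin 2 → ℂ)).analyticAt _).comp h1)
  have hψ0 : ψ 0 = ((0 : ℂ), (0 : Fin 2 → ℂ)) := by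
    show ((0 : ℂ), L.symm ((0 : ℂ) • e)) = _
    rw [zero_smul, map_zero]
  have hgood : ∀ᶠ p in 𝓝 (0 : ℂ × ℂ), (ψ p).1 ∈ ball (0 : ℂ) r ∧ (ψ p).2 ∈ ball (0 : Fin 2 → ℂ) r := by
    have h1 : Tendsto ψ (𝓝 0) (𝓝 (ψ 0)) := (hψa 0).continuousAt
    rw [hψ0] at h1
    have h2 : ∀ᶠ q in 𝓝 ((0 : ℂ), (0 : Fin 2 → ℂ)), q.1 ∈ ball (0 : ℂ) r ∧ q.2 ∈ ball (0 : Fin 2 → ℂ) r := by
      have h3 : ball (0 : ℂ) r ×ˢ ball (0 : Fin 2 → ℂ) r ∈ 𝓝 ((0 : ℂ), (0 : Fin 2 → ℂ)) := prod_mem_nhds (ball_mem_nhds _ hr) (ball_mem_nhds _ hr)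
      filter_upwards [h3] with q hq
      exact hq
    exact h1.eventually h2
  set Φ : ℂ × ℂ → ℂ × ℂ := fun p => L (H (ψ p)) with hΦ
  have hΦa : ∀ᶠ p in 𝓝 (0 : ℂ × ℂ), AnalyticAt ℂ Φ p := by
    filter_upwards [hgood] with p hp
    have h1 : AnalyticAt ℂ H (ψ p) := hHa _ hp.1 _ hp.2
    exact ((L : (Fin 2 → ℂ) →L[ℂ] ℂ × ℂ).analyticAt _).comp (h1.comp (hψa p))
  have hΦ0 : Φ 0 = 0 := by
    show L (H (ψ 0)) = 0
    rw [hψ0, hH0 0 (mem_ball_self hr), map_zero]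
  -- the derivative in the direction of `y`
  have hy : ∀ᶠ p in 𝓝 (0 : ℂ × ℂ), fderiv ℂ Φ p (0, 1) = v (Φ p) := by
    filter_upwards [hgood, hΦa] with p hp hpa
    have h1 : HasDerivAt (fun t : ℂ => (p.1, t)) ((0 : ℂ), (1 : ℂ)) p.2 := (hasDerivAt_const p.2 p.1).prodMk (hasDerivAt_id p.2)
    have h2 : HasFDerivAt Φ (fderiv ℂ Φ p) ((fun t : ℂ => (p.1, t)) p.2) := hpa.differentiableAt.hasFDerivAt
    have h3 : HasDerivAt (fun t : ℂ => Φ (p.1, t)) (fderiv ℂ Φ p (0, 1)) p.2 := HasFDerivAt.comp_hasDerivAt (f := fun t : ℂ => (p.1, t)) p.2 h2 h1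
    have h4 : HasDerivAt (fun t : ℂ => H (t, L.symm (p.1 • e))) (L.symm (v (L (H (p.2, L.symm (p.1 • e)))))) p.2 := (hHd _ hp.1 _ hp.2).2
    have h5 : HasDerivAt (fun t : ℂ => L (H (t, L.symm (p.1 • e)))) (L (L.symm (v (L (H (p.2, L.symm (p.1 • e))))))) p.2 :=
      (L : (Fin 2 → ℂ) →L[ℂ] ℂ × ℂ).hasFDerivAt.comp_hasDerivAt p.2 h4
    rw [ContinuousLinearEquiv.apply_symm_apply] at h5
    exact h3.unique h5
  have hx : fderiv ℂ Φ 0 (1, 0) = e := by
    have h1 : HasDerivAt (fun t : ℂ => (t, (0 : ℂ))) ((1 : ℂ), (0 : ℂ)) 0 := (hasDerivAt_id (0 : ℂ)).prodMk (hasDerivAt_const (0 : ℂ) (0 : ℂ))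
    have h2 : HasFDerivAt Φ (fderiv ℂ Φ 0) ((fun t : ℂ => (t, (0 : ℂ))) 0) := hΦa.self_of_nhds.differentiableAt.hasFDerivAt
    have h3 : HasDerivAt (fun t : ℂ => Φ (t, 0)) (fderiv ℂ Φ 0 (1, 0)) 0 := HasFDerivAt.comp_hasDerivAt (f := fun t : ℂ => (t, (0 : ℂ))) 0 h2 h1
    have h4 : HasDerivAt (fun t : ℂ => t • e) e 0 := by
      have := (hasDerivAt_id (0 : ℂ)).smul_const e
      rwa [one_smul] at this
    have h5 : (fun t : ℂ => Φ (t, 0)) =ᶠ[𝓝 0] fun t : ℂ => t • e := by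
      have h6 : Tendsto (fun t : ℂ => (t, (0 : ℂ))) (𝓝 0) (𝓝 (0 : ℂ × ℂ)) := by
        have : Continuous (fun t : ℂ => (t, (0 : ℂ))) := by fun_prop
        exact this.tendsto' 0 0 rfl
      filter_upwards [h6.eventually hgood] with t ht
      show L (H (0, L.symm (t • e))) = t • e
      rw [hH0 _ ht.2, ContinuousLinearEquiv.apply_symm_apply]
    exact h3.unique (h4.congr_of_eventuallyEq h5)
  refine ⟨Φ, hΦa.self_of_nhds, hΦ0, ?_, ?_⟩
  · rw [hx, hy.self_of_nhds, hΦ0]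
    exact he
  · filter_upwards [hy] with p hp
    rw [hp]
    ring

end Pool.Agent.MQ2

end
end
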