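import Pool.Agent.H94.G6.M31
import Pool.Agent.H94.G6.M36
import Pool.Agent.H94.G6.M48

/-! The parts of this file: E2.Bd, SG.ChN, SG.LimA, SG.LimB, SG.LimN, SY.NBa, SG.RPol. -/

section

/-!
# E2 Bd: the bound on a fibre without critical points

In a chart `σ` with coordinates `v'`, `w'` of the tangent vectors `v`, `w` and `E = dU_i`, `|E| ≥ δ`: `E v' = 0` gives `|v' ∧ w'| δ ≤ |v'| |E w'|`, and
`|v'| ≤ C fs x v`.
-/

set_option autoImplicit false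

open Topology Filter Metric MvPolynomial

noncomputable section

namespace Pool.Agent.E2

open Pool.Agent.H36.BP (EN)
open Pool.Agent.H14.PP (Tan)
open Pool.Agent.H17BP (IsChart IsForm NoZeros)

variable {N g : ℕ} {X : Set (EN N)} {Λ : AddSubgroup (Fin g → ℂ)} {u : EN N → (Fin g → ℂ)}

theorem tan_iff {x v : EN N} : Tan X x v ↔ v ∈ Pool.Agent.H17BP.Tan X x :=
  ⟨fun ⟨F, h1, h2, h3⟩ => ⟨F, h1.1, h1.2, h2, h3⟩, fun ⟨F, h1, h2, h3, h4⟩ => ⟨F, ⟨h1, h2⟩, h3, h4⟩⟩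

end Pool.Agent.E2

end
end

section

/-!
# SG ChN: the chart on the neck

`tau_neck`: if `A` is near `a ^ m • (σ 0 + a • v)`, where `Dτ v = (1, 0)`, then the coordinates of `A` are near `(a, 0)`.
`tau_neck_deriv`: the same for a holomorphic curve, with the derivatives.  `tau_dir`: the direction of the limit.
-/

set_option autoImplicit false

open Topology Filter Metric

namespace Pool.Agent.SG

open Pool.Agent.H17BP (IsChart)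

variable {V : Type} [NormedAddCommGroup V] [NormedSpace ℂ V] {X : Set V} {σ : ℂ × ℂ → V} {τ : V → ℂ × ℂ}

theorem tau_zero (h : IsChart X σ τ) : τ (σ 0) = 0 := h.left.self_of_nhds

/-- the derivative of `τ` is a left inverse of the derivative of `σ` -/
theorem fderiv_tau_comp (h : IsChart X σ τ) (w : ℂ × ℂ) : fderiv ℂ τ (σ 0) (fderiv ℂ σ 0 w) = w := by
  have h1 : HasFDerivAt σ (fderiv ℂ σ 0) 0 := h.σ_an.differentiableAt.hasFDerivAt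
  have h2 : HasFDerivAt τ (fderiv ℂ τ (σ 0)) (σ 0) := h.τ_an.differentiableAt.hasFDerivAt
  have h3 := h2.comp 0 h1
  have h4 : HasFDerivAt (fun p : ℂ × ℂ => p) (ContinuousLinearMap.id ℂ (ℂ × ℂ)) 0 := hasFDerivAt_id 0
  have h5 : (τ ∘ σ) =ᶠ[𝓝 0] fun p => p := h.left
  have h6 := h4.congr_of_eventuallyEq h5
  have h7 := h3.unique h6
  have := DFunLike.congr_fun h7 w
  simpa using this

/-- the derivative of `τ` vanishes on the line of the cone -/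
theorem fderiv_tau_self (h : IsChart X σ τ) : fderiv ℂ τ (σ 0) (σ 0) = 0 := by
  have h2 : HasFDerivAt τ (fderiv ℂ τ (σ 0)) ((1 : ℂ) • σ 0) := by
    rw [one_smul]; exact h.τ_an.differentiableAt.hasFDerivAt
  have h3 : HasDerivAt (fun c : ℂ => c • σ 0) (σ 0) 1 := by
    simpa using (hasDerivAt_id (1 : ℂ)).smul_const (σ 0)
  have h4 := h2.comp_hasDerivAt (1 : ℂ) h3
  have h5 : ∀ᶠ c in 𝓝 (1 : ℂ), τ (c • σ 0) = τ (σ 0) := by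
    have h8 : Continuous fun c : ℂ => (σ 0, c) := by fun_prop
    exact (h8.tendsto 1).eventually h.inv
  have h6 : HasDerivAt (τ ∘ fun c : ℂ => c • σ 0) 0 1 := (hasDerivAt_const (1 : ℂ) (τ (σ 0))).congr_of_eventuallyEq h5
  exact h4.unique h6

/-- the direction of the limit: the projection `v` of `H' 0` along `H 0 = σ 0` has `Dτ v = (τ ∘ H)' 0` -/
theorem tau_dir (h : IsChart X σ τ) {H : ℂ → V} {z₀ : ℂ} (hH : DifferentiableAt ℂ H z₀) (h0 : H z₀ = σ 0) (c : ℂ) :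
    fderiv ℂ τ (σ 0) (deriv H z₀ - c • σ 0) = deriv (fun z => τ (H z)) z₀ := by
  have h2 : HasFDerivAt τ (fderiv ℂ τ (σ 0)) (H z₀) := by
    rw [h0]; exact h.τ_an.differentiableAt.hasFDerivAt
  have h3 := h2.comp_hasDerivAt z₀ hH.hasDerivAt
  have h4 : deriv (fun z => τ (H z)) z₀ = fderiv ℂ τ (σ 0) (deriv H z₀) := h3.deriv
  rw [h4, map_sub, map_smul, fderiv_tau_self h, smul_zero, sub_zero]

end Pool.Agent.SG

end

section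

/-!
# SG LimA: the chart on the neck
-/

set_option autoImplicit false

open Topology Filter Metric

noncomputable section

namespace Pool.Agent.SG

/-- the normalised point and its coordinates -/
theorem nk_tau {E F : Type*} [NormedAddCommGroup E] [NormedSpace ℂ E] [NormedAddCommGroup F] [NormedSpace ℂ F] {q : E → F} {x₀ v : E}
    {D : E →L[ℂ] F} (hq : HasFDerivAt q D x₀) (hq0 : q x₀ = 0) (ℓ : E →L[ℂ] ℂ) {ε₁ : ℝ} (hε₁ : 0 < ε₁) :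
    ∃ η : ℝ, 0 < η ∧ η ≤ 1 / 2 ∧ ∀ (y : E) (h : ℂ) (m : ℕ), h ≠ 0 → ‖h‖ ≤ η → ‖ℓ y - h ^ m‖ ≤ η * ‖h‖ ^ m →
      ‖(y - ℓ y • x₀) - h ^ (m + 1) • v‖ ≤ η * ‖h‖ ^ (m + 1) →
      ℓ y ≠ 0 ∧ ‖h‖ ^ m / 2 ≤ ‖ℓ y‖ ∧ ‖ℓ y‖ ≤ 2 * ‖h‖ ^ m ∧ ‖(ℓ y)⁻¹ • y - x₀‖ ≤ ε₁ ∧ ‖q ((ℓ y)⁻¹ • y) - h • D v‖ ≤ ε₁ * ‖h‖ := by
  have hv : 0 ≤ ‖v‖ := norm_nonneg v
  have hD : 0 ≤ ‖D‖ := norm_nonneg D
  set A : ℝ := 1 + 2 * ‖v‖ with hA
  have hA0 : 0 < A := by positivity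
  have h1 : ∀ᶠ z in 𝓝 (0 : E), ‖q (x₀ + z) - D z‖ ≤ ε₁ / (2 * A) * ‖z‖ := by
    have h2 := hasFDerivAt_iff_isLittleO_nhds_zero.1 hq
    have h3 := h2.def (show (0 : ℝ) < ε₁ / (2 * A) by positivity)
    filter_upwards [h3] with z hz
    rwa [hq0, sub_zero] at hz
  obtain ⟨δ, hδ, hδ2⟩ := Metric.eventually_nhds_iff_ball.1 h1
  set η : ℝ := min (1 / 2) (min (ε₁ / (4 * (‖D‖ + 1) * (1 + ‖v‖))) (min (δ / (2 * A)) (ε₁ / A))) with hη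
  have hη0 : 0 < η := by
    rw [hη]
    positivity
  refine ⟨η, hη0, min_le_left _ _, fun y h m hh hh1 hy1 hy2 => ?_⟩
  have hη1 : η ≤ 1 / 2 := min_le_left _ _
  have hη2 : η ≤ ε₁ / (4 * (‖D‖ + 1) * (1 + ‖v‖)) := (min_le_right _ _).trans (min_le_left _ _)
  have hη3 : η ≤ δ / (2 * A) := (min_le_right _ _).trans ((min_le_right _ _).trans (min_le_left _ _))
  have hη4 : η ≤ ε₁ / A := (min_le_right _ _).trans ((min_le_right _ _).trans (min_le_right _ _))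
  have hn : 0 < ‖h‖ := norm_pos_iff.2 hh
  have hnm : 0 < ‖h‖ ^ m := pow_pos hn m
  have hl1 : ‖h‖ ^ m / 2 ≤ ‖ℓ y‖ := by
    have h2 : ‖h ^ m‖ - ‖ℓ y‖ ≤ ‖ℓ y - h ^ m‖ := by
      have := norm_sub_norm_le (h ^ m) (ℓ y)
      rwa [norm_sub_rev] at this
    rw [norm_pow] at h2
    nlinarith only [hy1, h2, hη1, hnm]
  have hl2 : ‖ℓ y‖ ≤ 2 * ‖h‖ ^ m := by
    have h2 : ‖ℓ y‖ - ‖h ^ m‖ ≤ ‖ℓ y - h ^ m‖ := norm_sub_norm_le _ _
    rw [norm_pow] at h2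
    nlinarith only [hy1, hnm, h2, hη1]
  have hl0 : ℓ y ≠ 0 := by
    intro h0
    rw [h0, norm_zero] at hl1
    linarith only [hnm, hl1]
  refine ⟨hl0, hl1, hl2, ?_⟩
  set z : E := (ℓ y)⁻¹ • y - x₀ with hz
  clear_value z
  have hz1 : z = (ℓ y)⁻¹ • (y - ℓ y • x₀) := by
    rw [hz, smul_sub, inv_smul_smul₀ hl0]
  have hz2 : z - h • v = (ℓ y)⁻¹ • (((y - ℓ y • x₀) - h ^ (m + 1) • v) - ((ℓ y - h ^ m) * h) • v) := by
    rw [hz1]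
    have h3 : h • v = (ℓ y)⁻¹ • ((ℓ y * h) • v) := by
      rw [smul_smul, inv_mul_cancel_left₀ hl0]
    rw [h3, ← smul_sub]
    congr 1
    rw [sub_mul, sub_smul, pow_succ]
    abel
  have hz3 : ‖z - h • v‖ ≤ 2 * η * (1 + ‖v‖) * ‖h‖ := by
    rw [hz2, norm_smul, norm_inv]
    have h3 : ‖((y - ℓ y • x₀) - h ^ (m + 1) • v) - ((ℓ y - h ^ m) * h) • v‖ ≤ η * ‖h‖ ^ (m + 1) + η * ‖h‖ ^ m * ‖h‖ * ‖v‖ := by
      refine (norm_sub_le _ _).trans (add_le_add hy2 ?_)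
      rw [norm_smul, norm_mul]
      gcongr
    have h4 : (‖ℓ y‖)⁻¹ ≤ 2 * (‖h‖ ^ m)⁻¹ := by
      rw [show 2 * (‖h‖ ^ m)⁻¹ = (‖h‖ ^ m / 2)⁻¹ by rw [inv_div, div_eq_mul_inv]]
      exact inv_anti₀ (by positivity) hl1
    calc (‖ℓ y‖)⁻¹ * ‖((y - ℓ y • x₀) - h ^ (m + 1) • v) - ((ℓ y - h ^ m) * h) • v‖
        ≤ 2 * (‖h‖ ^ m)⁻¹ * (η * ‖h‖ ^ (m + 1) + η * ‖h‖ ^ m * ‖h‖ * ‖v‖) := by gcongr
      _ = 2 * η * (1 + ‖v‖) * ‖h‖ := by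
        field_simp
        ring
  have hz4 : ‖z‖ ≤ A * ‖h‖ := by
    have h3 : ‖z‖ ≤ ‖z - h • v‖ + ‖h • v‖ := by
      have := norm_add_le (z - h • v) (h • v)
      rwa [sub_add_cancel] at this
    rw [norm_smul] at h3
    have h4 : 2 * η * (1 + ‖v‖) * ‖h‖ ≤ (1 + ‖v‖) * ‖h‖ := by
      have : 2 * η ≤ 1 := by linarith only [hη1]
      have h5 : 0 ≤ (1 + ‖v‖) * ‖h‖ := by positivity
      nlinarith only [hη1, h5]
    rw [hA]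
    nlinarith only [hz3, h3, h4]
  have hz5 : ‖z‖ ≤ A * η := hz4.trans (by gcongr)
  refine ⟨hz5.trans ?_, ?_⟩
  · rw [le_div_iff₀ hA0] at hη4
    linarith only [hη4]
  · have hz6 : z ∈ ball (0 : E) δ := by
      rw [mem_ball_zero_iff]
      refine hz5.trans_lt ?_
      rw [le_div_iff₀ (by positivity)] at hη3
      nlinarith only [hδ, hη3]
    have h3 := hδ2 z hz6
    have h4 : x₀ + z = (ℓ y)⁻¹ • y := by
      rw [hz]
      abel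
    rw [h4] at h3
    have h5 : q ((ℓ y)⁻¹ • y) - h • D v = (q ((ℓ y)⁻¹ • y) - D z) + D (z - h • v) := by
      rw [map_sub, map_smul]
      abel
    rw [h5]
    have h6 : ‖D (z - h • v)‖ ≤ ‖D‖ * (2 * η * (1 + ‖v‖) * ‖h‖) := (D.le_opNorm _).trans (by gcongr)
    have h7 : ‖D‖ * (2 * η * (1 + ‖v‖) * ‖h‖) ≤ ε₁ / 2 * ‖h‖ := by
      rw [le_div_iff₀ (by positivity)] at hη2
      have h8 : ‖D‖ * (2 * η * (1 + ‖v‖)) ≤ ε₁ / 2 := by nlinarith only [hη2, hη0, mul_nonneg hη0.le (by positivity : (0 : ℝ) ≤ 1 + ‖v‖)]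
      calc ‖D‖ * (2 * η * (1 + ‖v‖) * ‖h‖) = ‖D‖ * (2 * η * (1 + ‖v‖)) * ‖h‖ := by ring
        _ ≤ ε₁ / 2 * ‖h‖ := by gcongr
    have h9 : ε₁ / (2 * A) * ‖z‖ ≤ ε₁ / 2 * ‖h‖ := by
      calc ε₁ / (2 * A) * ‖z‖ ≤ ε₁ / (2 * A) * (A * ‖h‖) := by gcongr
        _ = ε₁ / 2 * ‖h‖ := by field_simp
    calc ‖(q ((ℓ y)⁻¹ • y) - D z) + D (z - h • v)‖ ≤ ‖q ((ℓ y)⁻¹ • y) - D z‖ + ‖D (z - h • v)‖ := norm_add_le _ _
      _ ≤ ε₁ / 2 * ‖h‖ + ε₁ / 2 * ‖h‖ := add_le_add (h3.trans h9) (h6.trans h7)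
      _ = ε₁ * ‖h‖ := by ring

/-- Cauchy's estimate in the disc of radius `‖h‖ / 2` about `h` -/
theorem nk_deriv {E : Type*} [NormedAddCommGroup E] [NormedSpace ℂ E] {f : ℂ → E} {h : ℂ} (hh : h ≠ 0) {A : ℝ}
    (hf : ∀ z ∈ closedBall h (‖h‖ / 2), DifferentiableAt ℂ f z) (hA : ∀ z ∈ closedBall h (‖h‖ / 2), ‖f z‖ ≤ A) :
    ‖deriv f h‖ ≤ 2 * A / ‖h‖ := by
  have hn : 0 < ‖h‖ := norm_pos_iff.2 hh
  have h1 := Complex.norm_deriv_le_of_forall_mem_sphere_norm_le (c := h) (R := ‖h‖ / 2) (C := A) (f := f) (by positivity) ?_ ?_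
  · calc ‖deriv f h‖ ≤ A / (‖h‖ / 2) := h1
      _ = 2 * A / ‖h‖ := by field_simp
  · have hd : DifferentiableOn ℂ f (closure (ball h (‖h‖ / 2))) := fun z hz =>
      (hf z (closure_ball_subset_closedBall hz)).differentiableWithinAt
    exact hd.diffContOnCl
  · intro z hz
    exact hA z (sphere_subset_closedBall hz)

/-- the size of the weighted metric on the neck -/
theorem nk_upper {a b k H x y t L : ℝ} {m : ℕ} (ha : 0 ≤ a) (hb : 0 ≤ b) (hk : k ≤ 1) (hH : 0 < H) (hx0 : H / 2 ≤ x) (hx : x ≤ 2 * H)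
    (hy : y ≤ 2) (hy0 : 0 ≤ y) (ht : 0 ≤ t) (hL : H ^ m / 2 ≤ L) :
    x ^ a * max y (x ^ (1 - k) * t) * L ^ (-b) ≤ 2 ^ a * (2 * 2 ^ (1 - k)) * 2 ^ b * (H ^ (a - b * m) * max 1 (H ^ (1 - k) * t)) := by
  have hx1 : 0 < x := by linarith only [hH, hx0]
  have hHm : 0 < H ^ m := pow_pos hH m
  have h1 : x ^ a ≤ 2 ^ a * H ^ a := by
    rw [← Real.mul_rpow (by norm_num) hH.le]
    exact Real.rpow_le_rpow hx1.le hx ha
  have h2 : x ^ (1 - k) ≤ 2 ^ (1 - k) * H ^ (1 - k) := by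
    rw [← Real.mul_rpow (by norm_num) hH.le]
    exact Real.rpow_le_rpow hx1.le hx (by linarith only [hk])
  have h3 : L ^ (-b) ≤ 2 ^ b * (H ^ (-(b * m)) : ℝ) := by
    have h4 : L ^ (-b) ≤ (H ^ m / 2) ^ (-b) := Real.rpow_le_rpow_of_nonpos (by positivity) hL (by linarith only [hb])
    refine h4.trans (le_of_eq ?_)
    rw [Real.div_rpow hHm.le (by norm_num), Real.rpow_neg (by norm_num : (0 : ℝ) ≤ 2), div_inv_eq_mul, mul_comm, ← Real.rpow_natCast,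
      ← Real.rpow_mul hH.le]
    congr 2
    ring
  have h5 : (1 : ℝ) ≤ 2 ^ (1 - k) := Real.one_le_rpow (by norm_num) (by linarith only [hk])
  have h6 : max y (x ^ (1 - k) * t) ≤ 2 * 2 ^ (1 - k) * max 1 (H ^ (1 - k) * t) := by
    refine max_le ?_ ?_
    · have : (1 : ℝ) ≤ max 1 (H ^ (1 - k) * t) := le_max_left _ _
      nlinarith [mul_nonneg (by linarith : (0 : ℝ) ≤ 2 ^ (1 - k) - 1) (by linarith : (0 : ℝ) ≤ max 1 (H ^ (1 - k) * t))]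
    · have h7 : x ^ (1 - k) * t ≤ 2 ^ (1 - k) * (H ^ (1 - k) * t) := by
        calc x ^ (1 - k) * t ≤ 2 ^ (1 - k) * H ^ (1 - k) * t := by gcongr
          _ = _ := by ring
      have h8 : H ^ (1 - k) * t ≤ max 1 (H ^ (1 - k) * t) := le_max_right _ _
      have h9 : 0 ≤ H ^ (1 - k) * t := mul_nonneg (Real.rpow_nonneg hH.le _) ht
      nlinarith [mul_le_mul_of_nonneg_left h8 (by linarith : (0 : ℝ) ≤ 2 ^ (1 - k)), mul_nonneg (by linarith : (0 : ℝ) ≤ 2 ^ (1 - k)) h9]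
  have h7 : 0 ≤ max y (x ^ (1 - k) * t) := hy0.trans (le_max_left _ _)
  calc x ^ a * max y (x ^ (1 - k) * t) * L ^ (-b)
      ≤ (2 ^ a * H ^ a) * (2 * 2 ^ (1 - k) * max 1 (H ^ (1 - k) * t)) * (2 ^ b * (H ^ (-(b * m)) : ℝ)) := by
        have : 0 ≤ L ^ (-b) := Real.rpow_nonneg (by linarith only [hL, hHm]) _
        gcongr
    _ = 2 ^ a * (2 * 2 ^ (1 - k)) * 2 ^ b * (H ^ (a - b * m) * max 1 (H ^ (1 - k) * t)) := by
        rw [show a - b * m = a + -(b * m) by ring, Real.rpow_add hH]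
        ring

theorem nk_lower {a b k H x y t L : ℝ} {m : ℕ} (ha : 0 ≤ a) (hb : 0 ≤ b) (hk : k ≤ 1) (hH : 0 < H) (hx0 : H / 2 ≤ x)
    (ht : 0 ≤ t) (hL0 : 0 < L) (hL : L ≤ 2 * H ^ m) :
    2⁻¹ ^ a * 2⁻¹ ^ (1 - k) * 2⁻¹ ^ b * (H ^ (a - b * m) * (H ^ (1 - k) * t)) ≤ x ^ a * max y (x ^ (1 - k) * t) * L ^ (-b) := by
  have hx1 : 0 < x := by linarith only [hH, hx0]
  have hHm : 0 < H ^ m := pow_pos hH m
  have h1 : 2⁻¹ ^ a * H ^ a ≤ x ^ a := by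
    rw [← Real.mul_rpow (by norm_num) hH.le]
    exact Real.rpow_le_rpow (by positivity) (by linarith only [hx0]) ha
  have h2 : 2⁻¹ ^ (1 - k) * H ^ (1 - k) ≤ x ^ (1 - k) := by
    rw [← Real.mul_rpow (by norm_num) hH.le]
    exact Real.rpow_le_rpow (by positivity) (by linarith only [hx0]) (by linarith)
  have h3 : 2⁻¹ ^ b * (H ^ (-(b * m)) : ℝ) ≤ L ^ (-b) := by
    have h4 : (2 * H ^ m) ^ (-b) ≤ L ^ (-b) := Real.rpow_le_rpow_of_nonpos hL0 hL (by linarith only [hb])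
    refine le_trans (le_of_eq ?_) h4
    rw [Real.mul_rpow (by norm_num) hHm.le, Real.rpow_neg (by norm_num : (0 : ℝ) ≤ 2), Real.inv_rpow (by norm_num), ← Real.rpow_natCast,
      ← Real.rpow_mul hH.le]
    congr 2
    ring
  have hp1 : (0 : ℝ) ≤ 2⁻¹ ^ a * H ^ a := by positivity
  have hp2 : (0 : ℝ) ≤ 2⁻¹ ^ b * (H ^ (-(b * m)) : ℝ) := by positivity
  have hp3 : (0 : ℝ) ≤ 2⁻¹ ^ (1 - k) * H ^ (1 - k) := by positivity
  calc 2⁻¹ ^ a * 2⁻¹ ^ (1 - k) * 2⁻¹ ^ b * (H ^ (a - b * m) * (H ^ (1 - k) * t))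
      = (2⁻¹ ^ a * H ^ a) * (2⁻¹ ^ (1 - k) * H ^ (1 - k) * t) * (2⁻¹ ^ b * (H ^ (-(b * m)) : ℝ)) := by
        rw [show a - b * m = a + -(b * m) by ring, Real.rpow_add hH]
        ring
    _ ≤ x ^ a * (x ^ (1 - k) * t) * L ^ (-b) := by gcongr
    _ ≤ x ^ a * max y (x ^ (1 - k) * t) * L ^ (-b) := by
        have : 0 ≤ L ^ (-b) := Real.rpow_nonneg hL0.le _
        have h8 : x ^ (1 - k) * t ≤ max y (x ^ (1 - k) * t) := le_max_right _ _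
        gcongr

end Pool.Agent.SG

end
end

section

/-!
# SG LimB: the estimates on the neck, for one function
-/

set_option autoImplicit false

open Topology Filter Metric

noncomputable section

namespace Pool.Agent.SG

open Pool.Agent.H36.TB (sm)
open Pool.Agent.H17BP (IsChart)

variable {E : Type} [NormedAddCommGroup E] [NormedSpace ℂ E]

/-- the coordinates of the normalised curve -/
def cS (τ : E → ℂ × ℂ) (ℓ : E →L[ℂ] ℂ) (F : ℂ → E) (z : ℂ) : ℂ × ℂ := τ ((ℓ (F z))⁻¹ • F z)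

/-- the quotient of the coordinates -/
def cT (τ : E → ℂ × ℂ) (ℓ : E →L[ℂ] ℂ) (F : ℂ → E) (z : ℂ) : ℂ := (cS τ ℓ F z).2 / (cS τ ℓ F z).1

/-- the two-sided bound, at one point -/
def TBz (τ : E → ℂ × ℂ) (ℓ : E →L[ℂ] ℂ) (F : ℂ → E) (U : ℂ → ℝ) (a b k B : ℝ) (z : ℂ) : Prop :=
  ‖(cS τ ℓ F z).1‖ ^ a * max ‖deriv (fun w => (cS τ ℓ F w).1) z‖ (‖(cS τ ℓ F z).1‖ ^ (1 - k) * ‖deriv (cT τ ℓ F) z‖) * ‖ℓ (F z)‖ ^ (-b) ≤
      B * U z ∧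
    U z ≤ B * (‖(cS τ ℓ F z).1‖ ^ a * max ‖deriv (fun w => (cS τ ℓ F w).1) z‖ (‖(cS τ ℓ F z).1‖ ^ (1 - k) * ‖deriv (cT τ ℓ F) z‖) *
      ‖ℓ (F z)‖ ^ (-b))

/-- the two-sided bound with a constant factor gives the bound with the normalised curve -/
theorem TBz_of {X : Set E} {σ : ℂ × ℂ → E} {τ : E → ℂ × ℂ} (hσ : IsChart X σ τ) (ℓ : E →L[ℂ] ℂ) (a b k B : ℝ) :
    ∃ ε' : ℝ, 0 < ε' ∧ ∀ (F : ℂ → E) (U : ℂ → ℝ) (z : ℂ), ContinuousAt F z → ℓ (F z) ≠ 0 → ‖(ℓ (F z))⁻¹ • F z - σ 0‖ < ε' →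
      (‖(τ ((ℓ (F z))⁻¹ • F z)).1‖ ^ a * sm k ((τ ((ℓ (F z))⁻¹ • F z)).1, (τ ((ℓ (F z))⁻¹ • F z)).2 / (τ ((ℓ (F z))⁻¹ • F z)).1)
        (deriv (fun w => (τ ((ℓ (F z))⁻¹ • F w)).1) z, deriv (fun w => (τ ((ℓ (F z))⁻¹ • F w)).2 / (τ ((ℓ (F z))⁻¹ • F w)).1) z) *
          ‖ℓ (F z)‖ ^ (-b) ≤ B * U z ∧
      U z ≤ B * (‖(τ ((ℓ (F z))⁻¹ • F z)).1‖ ^ a * sm k ((τ ((ℓ (F z))⁻¹ • F z)).1, (τ ((ℓ (F z))⁻¹ • F z)).2 / (τ ((ℓ (F z))⁻¹ • F z)).1)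
        (deriv (fun w => (τ ((ℓ (F z))⁻¹ • F w)).1) z, deriv (fun w => (τ ((ℓ (F z))⁻¹ • F w)).2 / (τ ((ℓ (F z))⁻¹ • F w)).1) z) *
          ‖ℓ (F z)‖ ^ (-b))) → TBz τ ℓ F U a b k B z := by
  obtain ⟨ε', hε', hinv⟩ := Metric.eventually_nhds_iff_ball.1 hσ.inv
  refine ⟨ε', hε', fun F U z hF h0 hz hb => ?_⟩
  have hev : ∀ᶠ w in 𝓝 z, τ ((ℓ (F z))⁻¹ • F w) = cS τ ℓ F w := by
    have c1 : ContinuousAt (fun w => ℓ (F w)) z := ℓ.continuous.continuousAt.comp hF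
    have c2 : ContinuousAt (fun w => ((ℓ (F w))⁻¹ • F w, ℓ (F w) / ℓ (F z))) z :=
      ((c1.inv₀ h0).smul hF).prodMk (c1.div_const _)
    have c3 : ((ℓ (F z))⁻¹ • F z, ℓ (F z) / ℓ (F z)) ∈ ball (σ 0, (1 : ℂ)) ε' := by
      rw [mem_ball, Prod.dist_eq, max_lt_iff]
      refine ⟨by simpa [dist_eq_norm] using hz, ?_⟩
      simp only [div_self h0, dist_self, hε']
    filter_upwards [c2.eventually (isOpen_ball.mem_nhds c3), c1.eventually_ne h0] with w h1 h2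
    have h3 := hinv _ h1
    simp only at h3
    rw [smul_smul, div_mul_eq_mul_div, mul_inv_cancel₀ h2, one_div] at h3
    exact h3
  have e1 : deriv (fun w => (τ ((ℓ (F z))⁻¹ • F w)).1) z = deriv (fun w => (cS τ ℓ F w).1) z := by
    refine Filter.EventuallyEq.deriv_eq ?_
    filter_upwards [hev] with w hw
    rw [hw]
  have e2 : deriv (fun w => (τ ((ℓ (F z))⁻¹ • F w)).2 / (τ ((ℓ (F z))⁻¹ • F w)).1) z = deriv (cT τ ℓ F) z := by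
    refine Filter.EventuallyEq.deriv_eq ?_
    filter_upwards [hev] with w hw
    rw [hw, cT]
  rw [e1, e2] at hb
  exact hb

/-- **The neck, for one function.** -/
theorem neck_one {X : Set E} {σ : ℂ × ℂ → E} {τ : E → ℂ × ℂ} (hσ : IsChart X σ τ) {ℓ : E →L[ℂ] ℂ}
    {v : E} (hv : fderiv ℂ τ (σ 0) v = (1, 0)) {a b k B C₁ ε : ℝ} (ha : 0 ≤ a) (hb : 0 ≤ b) (hk1 : k < 1) (hB : 0 < B) (hC₁ : 0 < C₁)
    (hε : 0 < ε) {M : ℕ} (hcond : a - 1 - k < b * M) :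
    ∃ η : ℝ, 0 < η ∧ ∀ δ : ℝ, 0 < δ → δ ≤ η → ∃ K C₂ : ℝ, 1 < K ∧ 0 < C₂ ∧ ∀ (F : ℂ → E) (U : ℂ → ℝ) (c₀ : ℂ) (ρ : ℝ), 0 ≤ ρ → (∀ z, 0 ≤ U z) →
      (∀ h : ℂ, ρ ≤ ‖h‖ → 0 < ‖h‖ → ‖h‖ ≤ δ → AnalyticAt ℂ F (c₀ + h) ∧ ‖ℓ (F (c₀ + h)) - h ^ M‖ ≤ η * ‖h‖ ^ M ∧
        ‖(F (c₀ + h) - ℓ (F (c₀ + h)) • σ 0) - h ^ (M + 1) • v‖ ≤ η * ‖h‖ ^ (M + 1)) →
      (∀ h : ℂ, ‖h‖ ≤ δ → ℓ (F (c₀ + h)) ≠ 0 → ‖(ℓ (F (c₀ + h)))⁻¹ • F (c₀ + h) - σ 0‖ < ε → (cS τ ℓ F (c₀ + h)).1 ≠ 0 →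
        ‖(cS τ ℓ F (c₀ + h)).2‖ < ε * ‖(cS τ ℓ F (c₀ + h)).1‖ → TBz τ ℓ F U a b k B (c₀ + h)) →
      (∀ (h : ℂ) (r : ℝ), 0 < r → ‖h‖ ≤ r → r ≤ δ → ∃ y : ℂ, ‖y‖ = r ∧ U (c₀ + h) ≤ C₁ * U (c₀ + y)) →
      ∀ h : ℂ, 2 * ρ < ‖h‖ → K * ‖h‖ ≤ δ / 4 →
        ‖h‖ ^ (1 - k) * ‖deriv (cT τ ℓ F) (c₀ + h)‖ ≤ C₂ ∧ U (c₀ + h) ≤ C₂ * ‖h‖ ^ (a - b * M) := by
  obtain ⟨ε₂, hε₂, hτa⟩ := Metric.eventually_nhds_iff_ball.1 hσ.τ_an.eventually_analyticAt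
  have hτ0 : τ (σ 0) = 0 := hσ.left.self_of_nhds
  set ε₁ : ℝ := min (1 / 6) (min (ε / 4) (ε₂ / 2)) with hε₁
  have hε₁0 : 0 < ε₁ := by rw [hε₁]; positivity
  have i1 : ε₁ ≤ 1 / 6 := min_le_left _ _
  have i2 : ε₁ ≤ ε / 4 := (min_le_right _ _).trans (min_le_left _ _)
  have i3 : ε₁ ≤ ε₂ / 2 := (min_le_right _ _).trans (min_le_right _ _)
  obtain ⟨η, hη, hη1, htn⟩ := nk_tau (v := v) hσ.τ_an.differentiableAt.hasFDerivAt hτ0 ℓ hε₁0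
  refine ⟨η, hη, fun δ hδ hδη => ?_⟩
  set cl : ℝ := B⁻¹ * (2⁻¹ ^ a * 2⁻¹ ^ (1 - k) * 2⁻¹ ^ b) with hcl
  have hcl0 : 0 < cl := by rw [hcl]; positivity
  set cu : ℝ := max C₁ (B * (2 ^ a * (2 * 2 ^ (1 - k)) * 2 ^ b)) with hcu
  have hcu0 : 0 < cu := lt_max_of_lt_left hC₁
  obtain ⟨K, C₂, hK, hC₂, hneck⟩ := neck (c := cl) (C := cu) (C₀ := 2 * 1 / (δ / 2)) (δ := δ / 2) (k := k) (e := a - b * M) hcl0 hcu0
    (by positivity) (by positivity) hk1.le (by linarith only [hcond])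
  refine ⟨K, C₂, hK, hC₂, fun F U c₀ ρ hρ hU hF hTB hmax => ?_⟩
  -- the coordinates on the neck
  have hc : ∀ h : ℂ, ρ ≤ ‖h‖ → 0 < ‖h‖ → ‖h‖ ≤ δ → ℓ (F (c₀ + h)) ≠ 0 ∧ ‖h‖ ^ M / 2 ≤ ‖ℓ (F (c₀ + h))‖ ∧ ‖ℓ (F (c₀ + h))‖ ≤ 2 * ‖h‖ ^ M ∧
      ‖(ℓ (F (c₀ + h)))⁻¹ • F (c₀ + h) - σ 0‖ ≤ ε₁ ∧ ‖(cS τ ℓ F (c₀ + h)).1 - h‖ ≤ ε₁ * ‖h‖ ∧ ‖(cS τ ℓ F (c₀ + h)).2‖ ≤ ε₁ * ‖h‖ := by
    intro h h1 h2 h3
    obtain ⟨-, h4, h5⟩ := hF h h1 h2 h3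
    obtain ⟨j1, j2, j3, j4, j5⟩ := htn (F (c₀ + h)) h M (norm_pos_iff.1 h2) (h3.trans hδη) h4 h5
    rw [hv] at j5
    refine ⟨j1, j2, j3, j4, ?_, ?_⟩
    · have h6 := (norm_fst_le (τ ((ℓ (F (c₀ + h)))⁻¹ • F (c₀ + h)) - h • ((1 : ℂ), (0 : ℂ)))).trans j5
      simpa [cS] using h6
    · have h6 := (norm_snd_le (τ ((ℓ (F (c₀ + h)))⁻¹ • F (c₀ + h)) - h • ((1 : ℂ), (0 : ℂ)))).trans j5
      simpa [cS] using h6
  have hS : ∀ h : ℂ, ρ ≤ ‖h‖ → 0 < ‖h‖ → ‖h‖ ≤ δ → ‖h‖ / 2 ≤ ‖(cS τ ℓ F (c₀ + h)).1‖ ∧ ‖(cS τ ℓ F (c₀ + h)).1‖ ≤ 2 * ‖h‖ ∧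
      (cS τ ℓ F (c₀ + h)).1 ≠ 0 ∧ ‖(cS τ ℓ F (c₀ + h)).2‖ < ε * ‖(cS τ ℓ F (c₀ + h)).1‖ ∧ ‖cT τ ℓ F (c₀ + h)‖ ≤ 1 := by
    intro h h1 h2 h3
    obtain ⟨-, -, -, -, j5, j6⟩ := hc h h1 h2 h3
    have l1 : ‖h‖ - ‖(cS τ ℓ F (c₀ + h)).1‖ ≤ ‖(cS τ ℓ F (c₀ + h)).1 - h‖ := by
      rw [norm_sub_rev]
      exact norm_sub_norm_le _ _
    have l2 : ‖(cS τ ℓ F (c₀ + h)).1‖ - ‖h‖ ≤ ‖(cS τ ℓ F (c₀ + h)).1 - h‖ := norm_sub_norm_le _ _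
    have l3 : ε₁ * ‖h‖ ≤ 1 / 6 * ‖h‖ := by gcongr
    have l4 : ‖h‖ / 2 ≤ ‖(cS τ ℓ F (c₀ + h)).1‖ := by linarith only [h2, j5, l1, l3]
    have l5 : 0 < ‖(cS τ ℓ F (c₀ + h)).1‖ := by linarith only [h2, j5, l1, l3]
    refine ⟨l4, by linarith only [h2, j5, l2, l3], norm_pos_iff.1 l5, ?_, ?_⟩
    · have l6 : ε₁ * ‖h‖ ≤ ε / 4 * ‖h‖ := by gcongr
      nlinarith only [j6, l6, hε, h2, j5, l1, l3]
    · rw [cT, norm_div, div_le_one l5]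
      linarith only [h2, j5, j6, l1, l3]
  have hopen : ∀ h : ℂ, ρ < ‖h‖ → 0 < ‖h‖ → ‖h‖ ≤ δ → AnalyticAt ℂ (fun z => cS τ ℓ F z) (c₀ + h) := by
    intro h h1 h2 h3
    obtain ⟨h4, -, -⟩ := hF h h1.le h2 h3
    obtain ⟨j1, -, -, j4, -, -⟩ := hc h h1.le h2 h3
    have h5 : AnalyticAt ℂ (fun z => (ℓ (F z))⁻¹ • F z) (c₀ + h) := (((ℓ.analyticAt _).comp h4).inv j1).smul h4
    have h6 : AnalyticAt ℂ τ ((ℓ (F (c₀ + h)))⁻¹ • F (c₀ + h)) := hτa _ (by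
      rw [mem_ball, dist_eq_norm]
      linarith only [hε₁0, i3, j4])
    exact AnalyticAt.comp (g := τ) (f := fun z => (ℓ (F z))⁻¹ • F z) h6 h5
  have hcomp : ∀ {G : Type} [NormedAddCommGroup G] [NormedSpace ℂ G] (f : ℂ → G) (h : ℂ), AnalyticAt ℂ f (c₀ + h) →
      AnalyticAt ℂ (fun h => f (c₀ + h)) h := fun f h hf =>
    AnalyticAt.comp (g := f) (f := fun h => c₀ + h) hf (analyticAt_const.add analyticAt_id)
  have hS1 : ∀ h : ℂ, ρ < ‖h‖ → 0 < ‖h‖ → ‖h‖ ≤ δ → AnalyticAt ℂ (fun z => (cS τ ℓ F z).1) (c₀ + h) := fun h h1 h2 h3 =>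
    analyticAt_fst.comp (hopen h h1 h2 h3)
  have hT1 : ∀ h : ℂ, ρ < ‖h‖ → 0 < ‖h‖ → ‖h‖ ≤ δ → AnalyticAt ℂ (cT τ ℓ F) (c₀ + h) := fun h h1 h2 h3 =>
    (analyticAt_snd.comp (hopen h h1 h2 h3)).div (hS1 h h1 h2 h3) (hS h h1.le h2 h3).2.2.1
  have hballs : ∀ h : ℂ, 2 * ρ < ‖h‖ → ‖h‖ ≤ δ / 2 → ∀ z ∈ closedBall h (‖h‖ / 2), ρ < ‖z‖ ∧ 0 < ‖z‖ ∧ ‖z‖ ≤ δ ∧ ‖z‖ ≤ 2 * ‖h‖ := by
    intro h h1 h2 z hz
    rw [mem_closedBall, dist_eq_norm] at hz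
    have h3 : ‖h‖ - ‖z‖ ≤ ‖z - h‖ := by
      rw [norm_sub_rev]
      exact norm_sub_norm_le _ _
    have h4 : ‖z‖ - ‖h‖ ≤ ‖z - h‖ := norm_sub_norm_le _ _
    have h5 : 0 < ‖h‖ := lt_of_le_of_lt (by positivity) h1
    refine ⟨by linarith only [h1, hz, h3], by linarith only [hρ, h1, hz, h3], by linarith only [hρ, h1, h2, hz, h4], by linarith only [hρ, h1, hz, h4]⟩
  have hdS : ∀ h : ℂ, 2 * ρ < ‖h‖ → ‖h‖ ≤ δ / 2 → ‖deriv (fun w => (cS τ ℓ F w).1) (c₀ + h)‖ ≤ 2 := by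
    intro h h1 h2
    have hn : 0 < ‖h‖ := lt_of_le_of_lt (by positivity) h1
    have h0 : h ≠ 0 := norm_pos_iff.1 hn
    have h3 : deriv (fun w => (cS τ ℓ F w).1) (c₀ + h) = deriv (fun h => (cS τ ℓ F (c₀ + h)).1) h :=
      (deriv_comp_const_add (f := fun w => (cS τ ℓ F w).1) c₀ h).symm
    have hd1 : DifferentiableAt ℂ (fun h => (cS τ ℓ F (c₀ + h)).1) h :=
      (hcomp _ h (hS1 h (by linarith only [hρ, h1]) hn (by linarith only [hρ, h1, h2]))).differentiableAt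
    have h4 : ‖deriv (fun h => (cS τ ℓ F (c₀ + h)).1 - h) h‖ ≤ 2 * (ε₁ * (3 / 2 * ‖h‖)) / ‖h‖ := by
      refine nk_deriv h0 (fun z hz => ?_) fun z hz => ?_
      · obtain ⟨b1, b2, b3, -⟩ := hballs h h1 h2 z hz
        exact (hcomp _ z (hS1 z b1 b2 b3)).differentiableAt.sub differentiableAt_id
      · obtain ⟨b1, b2, b3, -⟩ := hballs h h1 h2 z hz
        obtain ⟨-, -, -, -, j5, -⟩ := hc z b1.le b2 b3
        have l4 : ‖z‖ ≤ 3 / 2 * ‖h‖ := by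
          rw [mem_closedBall, dist_eq_norm] at hz
          have h5 : ‖z‖ - ‖h‖ ≤ ‖z - h‖ := norm_sub_norm_le _ _
          linarith only [hz, h5]
        exact j5.trans (by gcongr)
    have h5 : deriv (fun h => (cS τ ℓ F (c₀ + h)).1 - h) h = deriv (fun h => (cS τ ℓ F (c₀ + h)).1) h - 1 := by
      have := deriv_sub hd1 (differentiableAt_id (𝕜 := ℂ) (x := h))
      rw [deriv_id] at this
      exact this
    have h6 : 2 * (ε₁ * (3 / 2 * ‖h‖)) / ‖h‖ = 3 * ε₁ := by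
      field_simp
    rw [h5, h6] at h4
    rw [h3]
    have h7 : ‖deriv (fun h => (cS τ ℓ F (c₀ + h)).1) h‖ ≤ ‖deriv (fun h => (cS τ ℓ F (c₀ + h)).1) h - 1‖ + ‖(1 : ℂ)‖ := by
      have := norm_add_le (deriv (fun h => (cS τ ℓ F (c₀ + h)).1) h - 1) (1 : ℂ)
      rwa [sub_add_cancel] at this
    rw [norm_one] at h7
    linarith only [hε₁0, i1, h4, h7]
  have hTc : ∀ h : ℂ, deriv (cT τ ℓ F) (c₀ + h) = deriv (fun h => cT τ ℓ F (c₀ + h)) h := fun h =>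
    (deriv_comp_const_add (f := cT τ ℓ F) c₀ h).symm
  have hdT : ∀ h : ℂ, 2 * ρ < ‖h‖ → ‖h‖ ≤ δ / 2 → ‖deriv (cT τ ℓ F) (c₀ + h)‖ ≤ 2 * 1 / ‖h‖ := by
    intro h h1 h2
    have hn : 0 < ‖h‖ := lt_of_le_of_lt (by positivity) h1
    rw [hTc h]
    refine nk_deriv (norm_pos_iff.1 hn) (fun z hz => ?_) fun z hz => ?_
    · obtain ⟨b1, b2, b3, -⟩ := hballs h h1 h2 z hz
      exact (hcomp _ z (hT1 z b1 b2 b3)).differentiableAt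
    · obtain ⟨b1, b2, b3, -⟩ := hballs h h1 h2 z hz
      exact (hS z b1.le b2 b3).2.2.2.2
  have hW : ∀ h : ℂ, 2 * ρ < ‖h‖ → ‖h‖ ≤ δ / 2 →
      cl * (‖h‖ ^ (a - b * M) * (‖h‖ ^ (1 - k) * ‖deriv (cT τ ℓ F) (c₀ + h)‖)) ≤ U (c₀ + h) ∧
      U (c₀ + h) ≤ cu * (‖h‖ ^ (a - b * M) * max 1 (‖h‖ ^ (1 - k) * ‖deriv (cT τ ℓ F) (c₀ + h)‖)) := by
    intro h h1 h2
    have hn : 0 < ‖h‖ := lt_of_le_of_lt (by positivity) h1
    have h3 : ρ ≤ ‖h‖ := by linarith only [hρ, h1]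
    have h4 : ‖h‖ ≤ δ := by linarith only [hρ, h1, h2]
    obtain ⟨j1, j2, j3, j4, j5, j6⟩ := hc h h3 hn h4
    obtain ⟨s1, s2, s3, s4, s5⟩ := hS h h3 hn h4
    obtain ⟨u1, u2⟩ := hTB h h4 j1 (by linarith only [hε₁0, i2, j4]) s3 s4
    have w1 := nk_upper (k := k) (t := ‖deriv (cT τ ℓ F) (c₀ + h)‖) ha hb hk1.le hn s1 s2 (hdS h h1 h2) (norm_nonneg _) (norm_nonneg _) j2
    have w2 := nk_lower (k := k) (y := ‖deriv (fun w => (cS τ ℓ F w).1) (c₀ + h)‖) (t := ‖deriv (cT τ ℓ F) (c₀ + h)‖) ha hb hk1.le hn s1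
      (norm_nonneg _) (norm_pos_iff.2 j1) j3
    constructor
    · rw [hcl, mul_assoc, inv_mul_le_iff₀ hB]
      exact w2.trans u1
    · calc U (c₀ + h) ≤ B * (2 ^ a * (2 * 2 ^ (1 - k)) * 2 ^ b * (‖h‖ ^ (a - b * M) * max 1 (‖h‖ ^ (1 - k) * ‖deriv (cT τ ℓ F) (c₀ + h)‖))) :=
            u2.trans (by gcongr)
        _ = B * (2 ^ a * (2 * 2 ^ (1 - k)) * 2 ^ b) * (‖h‖ ^ (a - b * M) * max 1 (‖h‖ ^ (1 - k) * ‖deriv (cT τ ℓ F) (c₀ + h)‖)) := by ring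
        _ ≤ _ := by
          have h5 : 0 ≤ ‖h‖ ^ (a - b * M) * max 1 (‖h‖ ^ (1 - k) * ‖deriv (cT τ ℓ F) (c₀ + h)‖) := by positivity
          exact mul_le_mul_of_nonneg_right (le_max_right _ _) h5
  intro h₁ h1 h2
  have hfin := hneck (2 * ρ) (fun h => cT τ ℓ F (c₀ + h)) (fun h => U (c₀ + h)) (by positivity)
    (fun h h1 h2 => hcomp _ h (hT1 h (by linarith only [hρ, h1, norm_nonneg h]) (lt_of_le_of_lt (by positivity) h1) (by linarith only [hρ, h1, h2])))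
    (fun h h1 => by
      by_cases h3 : 2 * ρ < ‖h‖
      · have h4 := hdT h h3 h1.le
        rw [hTc h, h1] at h4
        exact h4
      · exfalso
        have h5 : ‖h₁‖ ≤ δ / 4 := by
          have : ‖h₁‖ ≤ K * ‖h₁‖ := le_mul_of_one_le_left (norm_nonneg _) hK.le
          linarith
        linarith)
    (fun h h1 h2 => by
      rw [← hTc h]
      exact (hW h h1 h2).1)
    (fun h h1 h2 => by
      rw [← hTc h]
      exact (hW h h1 h2).2)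
    (fun h r h1 h2 h3 => by
      obtain ⟨y, hy1, hy2⟩ := hmax h r h1 h2 (by linarith only [h1, h3])
      exact ⟨y, hy1, hy2.trans (mul_le_mul_of_nonneg_right (le_max_left _ _) (hU _))⟩)
    h₁ h1 (by linarith only [h2])
  rw [hTc h₁]
  exact hfin

end Pool.Agent.SG

end
end

section

/-!
# SG LimN: the estimates on the neck, along the sequence
-/

set_option autoImplicit false

open Topology Filter Metric

noncomputable section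

namespace Pool.Agent.SG

open Pool.Agent.H36.TB (sm)
open Pool.Agent.H17BP (IsChart)

variable {E : Type} [NormedAddCommGroup E] [NormedSpace ℂ E] [CompleteSpace E] {𝒰 : Ultrafilter ℕ} {Φ : ℕ → ℂ → E} {ℓ : E →L[ℂ] ℂ}
  {c : ℕ → ℂ} {lam : ℕ → ℝ} {X : Set E} {σ : ℂ × ℂ → E} {τ : E → ℂ × ℂ}

theorem lim_neck (hσ : IsChart X σ τ) {v : E} (hv : fderiv ℂ τ (σ 0) v = (1, 0)) {M : ℕ} {r r₁ : ℝ} (hr : 0 < r) (hr₁ : 0 < r₁)
    (hol : ∀ᶠ n in (𝒰 : Filter ℕ), DifferentiableOn ℂ (Φ n) (ball 0 r)) (hc : Tendsto c 𝒰 (𝓝 0))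
    (hlp : ∀ᶠ n in (𝒰 : Filter ℕ), 0 < lam n)
    (hneck : ∀ ε : ℝ, 0 < ε → ∃ R δ : ℝ, 1 ≤ R ∧ 0 < δ ∧ ∀ᶠ n in (𝒰 : Filter ℕ), ∀ u : ℂ, R * lam n ≤ ‖u‖ → ‖u‖ ≤ δ → c n + u ∈ ball (0 : ℂ) r ∧
        ‖ℓ (Φ n (c n + u)) - u ^ M‖ ≤ ε * ‖u‖ ^ M ∧
        ‖(Φ n (c n + u) - ℓ (Φ n (c n + u)) • σ 0) - u ^ (M + 1) • v‖ ≤ ε * ‖u‖ ^ (M + 1))
    {a b k ε B C₁ : ℝ} (ha : 0 ≤ a) (hb : 0 ≤ b) (hk1 : k < 1) (hcond : a - 1 - k < b * M) (hε : 0 < ε) {U : ℕ → ℂ → ℝ}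
    (hU : ∀ n z, 0 ≤ U n z)
    (hmax : ∀ᶠ n in (𝒰 : Filter ℕ), ∀ (w : ℂ) (ρ : ℝ), 0 < ρ → closedBall w ρ ⊆ ball 0 r₁ → ∀ z ∈ closedBall w ρ, ∃ y ∈ sphere w ρ,
      U n z ≤ C₁ * U n y)
    (htb : ∀ᶠ n in (𝒰 : Filter ℕ), ∀ z ∈ ball (0 : ℂ) r₁, ∀ c : ℂ, c ≠ 0 → ‖c⁻¹ • Φ n z - σ 0‖ < ε → (τ (c⁻¹ • Φ n z)).1 ≠ 0 →
      ‖(τ (c⁻¹ • Φ n z)).2‖ < ε * ‖(τ (c⁻¹ • Φ n z)).1‖ →
      ‖(τ (c⁻¹ • Φ n z)).1‖ ^ a * sm k ((τ (c⁻¹ • Φ n z)).1, (τ (c⁻¹ • Φ n z)).2 / (τ (c⁻¹ • Φ n z)).1)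
        (deriv (fun w => (τ (c⁻¹ • Φ n w)).1) z, deriv (fun w => (τ (c⁻¹ • Φ n w)).2 / (τ (c⁻¹ • Φ n w)).1) z) * ‖c‖ ^ (-b) ≤ B * U n z ∧
      U n z ≤ B * (‖(τ (c⁻¹ • Φ n z)).1‖ ^ a * sm k ((τ (c⁻¹ • Φ n z)).1, (τ (c⁻¹ • Φ n z)).2 / (τ (c⁻¹ • Φ n z)).1)
        (deriv (fun w => (τ (c⁻¹ • Φ n w)).1) z, deriv (fun w => (τ (c⁻¹ • Φ n w)).2 / (τ (c⁻¹ • Φ n w)).1) z) * ‖c‖ ^ (-b))) :
    ∃ R K δ C₂ B' C₁' ε' : ℝ, 1 ≤ R ∧ 1 < K ∧ 0 < δ ∧ 0 < C₂ ∧ 0 < B' ∧ 0 < C₁' ∧ 0 < ε' ∧ ∀ᶠ n in (𝒰 : Filter ℕ),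
      (∀ h : ℂ, ‖h‖ ≤ δ → ℓ (Φ n (c n + h)) ≠ 0 → ‖(ℓ (Φ n (c n + h)))⁻¹ • Φ n (c n + h) - σ 0‖ < ε' → (cS τ ℓ (Φ n) (c n + h)).1 ≠ 0 →
        ‖(cS τ ℓ (Φ n) (c n + h)).2‖ < ε' * ‖(cS τ ℓ (Φ n) (c n + h)).1‖ → TBz τ ℓ (Φ n) (U n) a b k B' (c n + h)) ∧
      (∀ (h : ℂ) (r : ℝ), 0 < r → ‖h‖ ≤ r → r ≤ δ → ∃ y : ℂ, ‖y‖ = r ∧ U n (c n + h) ≤ C₁' * U n (c n + y)) ∧
      (∀ h : ℂ, 2 * (R * lam n) < ‖h‖ → K * ‖h‖ ≤ δ / 4 →
        ‖h‖ ^ (1 - k) * ‖deriv (cT τ ℓ (Φ n)) (c n + h)‖ ≤ C₂ ∧ U n (c n + h) ≤ C₂ * ‖h‖ ^ (a - b * M)) := by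
  obtain ⟨ε₁, hε₁, hTBof⟩ := TBz_of hσ ℓ a b k (max B 1)
  set ε' := min ε ε₁ with hε'
  have hε'0 : 0 < ε' := lt_min hε hε₁
  have hB' : 0 < max B 1 := lt_max_of_lt_right one_pos
  have hC' : 0 < max C₁ 1 := lt_max_of_lt_right one_pos
  obtain ⟨η, hη, hone⟩ := neck_one (B := max B 1) (C₁ := max C₁ 1) (ε := ε') (ℓ := ℓ) hσ hv ha hb hk1 hB' hC' hε'0 hcond
  obtain ⟨R, δ₀, hR, hδ₀, hn⟩ := hneck η hη
  set δ := min (min η δ₀) (min (r / 4) (r₁ / 4)) with hδ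
  have hδ0 : 0 < δ := by positivity
  have d1 : δ ≤ η := (min_le_left _ _).trans (min_le_left _ _)
  have d2 : δ ≤ δ₀ := (min_le_left _ _).trans (min_le_right _ _)
  have d3 : δ ≤ r / 4 := (min_le_right _ _).trans (min_le_left _ _)
  have d4 : δ ≤ r₁ / 4 := (min_le_right _ _).trans (min_le_right _ _)
  obtain ⟨K, C₂, hK, hC₂, hK2⟩ := hone δ hδ0 d1
  refine ⟨R, K, δ, C₂, max B 1, max C₁ 1, ε', hR, hK, hδ0, hC₂, hB', hC', hε'0, ?_⟩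
  have e1 : ∀ᶠ n in (𝒰 : Filter ℕ), c n ∈ ball (0 : ℂ) (r / 4) := hc.eventually (ball_mem_nhds 0 (by positivity))
  have e2 : ∀ᶠ n in (𝒰 : Filter ℕ), c n ∈ ball (0 : ℂ) (r₁ / 4) := hc.eventually (ball_mem_nhds 0 (by positivity))
  filter_upwards [hn, hmax, htb, hol, hlp, e1, e2] with n n1 n2 n3 n4 n5 n6 n7
  have hball : ∀ h : ℂ, ‖h‖ ≤ δ → c n + h ∈ ball (0 : ℂ) r ∧ c n + h ∈ ball (0 : ℂ) r₁ := by
    intro h hh
    rw [mem_ball_zero_iff] at n6 n7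
    have := norm_add_le (c n) h
    constructor
    · rw [mem_ball_zero_iff]; linarith
    · rw [mem_ball_zero_iff]; linarith
  have hTB : ∀ h : ℂ, ‖h‖ ≤ δ → ℓ (Φ n (c n + h)) ≠ 0 → ‖(ℓ (Φ n (c n + h)))⁻¹ • Φ n (c n + h) - σ 0‖ < ε' → (cS τ ℓ (Φ n) (c n + h)).1 ≠ 0 →
        ‖(cS τ ℓ (Φ n) (c n + h)).2‖ < ε' * ‖(cS τ ℓ (Φ n) (c n + h)).1‖ → TBz τ ℓ (Φ n) (U n) a b k (max B 1) (c n + h) := by
    intro h h1 h2 h3 h4 h5
    obtain ⟨b1, b2⟩ := hball h h1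
    have h6 := n3 (c n + h) b2 _ h2 (h3.trans_le (min_le_left _ _)) h4
      (h5.trans_le (mul_le_mul_of_nonneg_right (min_le_left _ _) (norm_nonneg _)))
    refine hTBof (Φ n) (U n) (c n + h) (n4.continuousOn.continuousAt (isOpen_ball.mem_nhds b1)) h2 (h3.trans_le (min_le_right _ _)) ⟨?_, ?_⟩
    · exact h6.1.trans (mul_le_mul_of_nonneg_right (le_max_left _ _) (hU _ _))
    · refine h6.2.trans (mul_le_mul_of_nonneg_right (le_max_left _ _) ?_)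
      refine mul_nonneg (mul_nonneg (Real.rpow_nonneg (norm_nonneg _) _) ?_) (Real.rpow_nonneg (norm_nonneg _) _)
      rw [sm]
      exact (norm_nonneg _).trans (le_max_left _ _)
  have hMX : ∀ (h : ℂ) (r : ℝ), 0 < r → ‖h‖ ≤ r → r ≤ δ → ∃ y : ℂ, ‖y‖ = r ∧ U n (c n + h) ≤ max C₁ 1 * U n (c n + y) := by
    intro h s h1 h2 h3
    obtain ⟨y, hy, hy2⟩ := n2 (c n) s h1 (by
      intro z hz
      rw [mem_closedBall, dist_eq_norm] at hz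
      have := (hball (z - c n) (hz.trans h3)).2
      rwa [add_sub_cancel] at this) (c n + h) (by
        rw [mem_closedBall, dist_eq_norm, add_sub_cancel_left]
        exact h2)
    rw [mem_sphere, dist_eq_norm] at hy
    refine ⟨y - c n, hy, ?_⟩
    rw [add_sub_cancel]
    exact hy2.trans (mul_le_mul_of_nonneg_right (le_max_left _ _) (hU _ _))
  refine ⟨hTB, hMX, ?_⟩
  have hRl : 0 ≤ R * lam n := by positivity
  exact hK2 (Φ n) (U n) (c n) (R * lam n) hRl (hU n)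
    (fun h h1 h2 h3 => by
      obtain ⟨k1, k2, k3⟩ := n1 h h1 (h3.trans d2)
      exact ⟨n4.analyticAt (isOpen_ball.mem_nhds k1), k2, k3⟩) hTB hMX

end Pool.Agent.SG

end
end

section

/-!
# SD / step (b): growth lemmas

* `exists_poly_of_growth`: an entire function of polynomial growth is a polynomial.
* `three_circles`: Hadamard's theorem with outer bound `1`.
* `growth`: if `|F| ≤ 1` on the disc of radius `R₁ > R₀` about `w`, `|F z₁| ≥ c` for one `z₁` with `|z₁ - w| ≤ R₀/2` and `|F| ≤ A` on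
  `|z - w| ≤ ρ`, then `|F z| ≤ A (|z - w|/ρ)^m` for `ρ ≤ |z - w| ≤ R₀`, `m ≥ - log c / log 2`.
-/

set_option autoImplicit false

namespace Pool.Agent.SY

open Filter Topology Metric

theorem exists_poly_of_growth (k : ℕ) : ∀ (f : ℂ → ℂ) (C : ℝ), Differentiable ℂ f →
    (∀ z, ‖f z‖ ≤ C * (1 + ‖z‖) ^ k) → ∃ p : Polynomial ℂ, ∀ z, f z = p.eval z := by
  induction k with
  | zero =>
    intro f C hf hb
    refine ⟨Polynomial.C (f 0), fun z => ?_⟩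
    rw [Polynomial.eval_C]
    refine hf.apply_eq_apply_of_bounded ?_ z 0
    rw [Metric.isBounded_iff_subset_closedBall (0 : ℂ)]
    refine ⟨C, ?_⟩
    rintro _ ⟨w, rfl⟩
    have := hb w
    rw [pow_zero, mul_one] at this
    rwa [mem_closedBall_zero_iff]
  | succ k ih =>
    intro f C hf hb
    have hgd : Differentiable ℂ (dslope f 0) := by
      have := (Complex.differentiableOn_dslope (f := f) (c := 0) (s := Set.univ) univ_mem).mpr hf.differentiableOn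
      exact differentiableOn_univ.mp this
    obtain ⟨M, hM⟩ := (isCompact_closedBall (0 : ℂ) 1).exists_bound_of_continuousOn hgd.continuous.continuousOn
    have hM0 : 0 ≤ M := (norm_nonneg _).trans (hM 0 (mem_closedBall_self zero_le_one))
    have hC0 : 0 ≤ C := by
      have := (norm_nonneg _).trans (hb 0)
      simpa using this
    obtain ⟨p, hp⟩ := ih (dslope f 0) (M + 4 * C) hgd (by
      intro z
      have h1 : (1 : ℝ) ≤ 1 + ‖z‖ := by linarith [norm_nonneg z]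
      have hpow : (1 : ℝ) ≤ (1 + ‖z‖) ^ k := one_le_pow₀ h1
      by_cases hz : ‖z‖ ≤ 1
      · have h2 := hM z (mem_closedBall_zero_iff.mpr hz)
        calc ‖dslope f 0 z‖ ≤ M * 1 := by rw [mul_one]; exact h2
          _ ≤ M * (1 + ‖z‖) ^ k := mul_le_mul_of_nonneg_left hpow hM0
          _ ≤ (M + 4 * C) * (1 + ‖z‖) ^ k := mul_le_mul_of_nonneg_right (by linarith) (by positivity)
      · push Not at hz
        have hz0 : z ≠ 0 := by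
          rintro rfl
          rw [norm_zero] at hz
          linarith
        rw [dslope_of_ne _ hz0, slope_def_field, sub_zero, norm_div]
        have hzn : 0 < ‖z‖ := by linarith
        rw [div_le_iff₀ hzn]
        have h2 : ‖f z - f 0‖ ≤ C * (1 + ‖z‖) ^ (k + 1) + C := by
          refine (norm_sub_le _ _).trans (add_le_add (hb z) ?_)
          have := hb 0
          simpa using this
        have h3 : (1 + ‖z‖) ^ (k + 1) ≤ 2 * ‖z‖ * (1 + ‖z‖) ^ k := by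
          rw [pow_succ]
          nlinarith
        have h4 : C ≤ 2 * C * ‖z‖ * (1 + ‖z‖) ^ k := by
          have h5 : 1 ≤ ‖z‖ * (1 + ‖z‖) ^ k := one_le_mul_of_one_le_of_one_le hz.le hpow
          nlinarith
        have h5 := mul_le_mul_of_nonneg_left h3 hC0
        have h6 : 0 ≤ M * (1 + ‖z‖) ^ k * ‖z‖ := by positivity
        nlinarith)
    refine ⟨Polynomial.C (f 0) + Polynomial.X * p, fun z => ?_⟩
    rw [Polynomial.eval_add, Polynomial.eval_C, Polynomial.eval_mul, Polynomial.eval_X, ← hp]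
    have := sub_smul_dslope f 0 z
    rw [sub_zero, smul_eq_mul] at this
    rw [this]
    ring

end Pool.Agent.SY

end

section

/-!
# SG RPol: rational curves are given by polynomials
-/

set_option autoImplicit false

open Topology Filter Metric

namespace Pool.Agent.SG

open Pool.Agent.H36.BP (EN)
open Pool.Agent.UC (RatC)

variable {N : ℕ} {X : Set (EN N)}

/-- one coordinate -/
private theorem exists_poly_aux {d : ℕ} {f f' : ℂ → ℂ} (hf : Differentiable ℂ f) (hf' : Differentiable ℂ f')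
    (hrel : ∀ z : ℂ, z ≠ 0 → f z = z ^ d * f' z⁻¹) :
    ∃ p : Polynomial ℂ, p.natDegree ≤ d ∧ (∀ z, f z = p.eval z) ∧ ∀ w, f' w = (p.reflect d).eval w := by
  -- growth
  obtain ⟨B, hB⟩ := (isCompact_closedBall (0 : ℂ) 1).bddAbove_image (f := fun z => ‖f' z‖) hf'.continuous.norm.continuousOn
  obtain ⟨B', hB'⟩ := (isCompact_closedBall (0 : ℂ) 1).bddAbove_image (f := fun z => ‖f z‖) hf.continuous.norm.continuousOn
  have hB1 : ∀ z ∈ closedBall (0 : ℂ) 1, ‖f' z‖ ≤ B := fun z hz => hB ⟨z, hz, rfl⟩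
  have hB2 : ∀ z ∈ closedBall (0 : ℂ) 1, ‖f z‖ ≤ B' := fun z hz => hB' ⟨z, hz, rfl⟩
  have hB0 : 0 ≤ B := (norm_nonneg _).trans (hB1 0 (mem_closedBall_self zero_le_one))
  have hB0' : 0 ≤ B' := (norm_nonneg _).trans (hB2 0 (mem_closedBall_self zero_le_one))
  have hg : ∀ z, ‖f z‖ ≤ (B + B') * (1 + ‖z‖) ^ d := by
    intro z
    have h1 : (1 : ℝ) ≤ (1 + ‖z‖) ^ d := one_le_pow₀ (by linarith [norm_nonneg z])
    rcases le_or_gt ‖z‖ 1 with hz | hz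
    · have h2 := hB2 z (mem_closedBall_zero_iff.2 hz)
      nlinarith
    · have hz0 : z ≠ 0 := norm_pos_iff.1 (by linarith)
      have h2 : ‖f' z⁻¹‖ ≤ B := hB1 _ (by rw [mem_closedBall_zero_iff, norm_inv]; exact inv_le_one_of_one_le₀ hz.le)
      rw [hrel z hz0, norm_mul, norm_pow]
      have h3 : ‖z‖ ^ d ≤ (1 + ‖z‖) ^ d := pow_le_pow_left₀ (norm_nonneg _) (by linarith) d
      have h4 : ‖z‖ ^ d * ‖f' z⁻¹‖ ≤ (1 + ‖z‖) ^ d * B := mul_le_mul h3 h2 (norm_nonneg _) (by positivity)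
      nlinarith
  obtain ⟨p, hp⟩ := Pool.Agent.SY.exists_poly_of_growth d f (B + B') hf hg
  -- the degree
  have hdeg : p.natDegree ≤ d := by
    by_contra hlt
    push Not at hlt
    obtain ⟨m, hm⟩ : ∃ m, p.natDegree = d + (m + 1) := ⟨p.natDegree - d - 1, by omega⟩
    have h1 : ∀ w : ℂ, w ≠ 0 → p.reverse.eval w = w ^ (m + 1) * f' w := by
      intro w hw
      have h2 := hp w⁻¹
      rw [hrel _ (inv_ne_zero hw), inv_inv] at h2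
      have h3 : p.reverse.eval w = w ^ p.natDegree * p.eval w⁻¹ := by
        let _ : Invertible w⁻¹ := invertibleOfNonzero (inv_ne_zero hw)
        have h4 := Polynomial.eval₂_reverse_mul_pow (RingHom.id ℂ) w⁻¹ p
        rw [invOf_eq_inv, inv_inv, Polynomial.eval₂_id, Polynomial.eval₂_id] at h4
        rw [← h4, mul_comm, mul_assoc, ← mul_pow, inv_mul_cancel₀ hw, one_pow, mul_one]
      rw [h3, hm, ← h2, inv_pow, pow_add]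
      field_simp
    have h2 : (fun w => p.reverse.eval w) = fun w => w ^ (m + 1) * f' w := by
      have hc1 : Continuous fun w => p.reverse.eval w := p.reverse.continuous
      have hc2 : Continuous fun w : ℂ => w ^ (m + 1) * f' w := (continuous_pow _).mul hf'.continuous
      refine hc1.ext_on (s := {0}ᶜ) (dense_compl_singleton 0) hc2 fun w hw => h1 w hw
    have h3 := congrFun h2 0
    simp only [pow_succ, mul_zero, zero_mul] at h3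
    rw [← Polynomial.coeff_zero_eq_eval_zero, Polynomial.coeff_zero_reverse, Polynomial.leadingCoeff_eq_zero] at h3
    rw [h3, Polynomial.natDegree_zero] at hm
    omega
  refine ⟨p, hdeg, hp, ?_⟩
  have h1 : ∀ w : ℂ, w ≠ 0 → f' w = (p.reflect d).eval w := by
    intro w hw
    have h2 := hp w⁻¹
    rw [hrel _ (inv_ne_zero hw), inv_inv] at h2
    let _ : Invertible w⁻¹ := invertibleOfNonzero (inv_ne_zero hw)
    have h4 := Polynomial.eval₂_reflect_mul_pow (RingHom.id ℂ) w⁻¹ d p hdeg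
    rw [invOf_eq_inv, inv_inv, Polynomial.eval₂_id, Polynomial.eval₂_id] at h4
    rw [← h4, mul_comm] at h2
    exact mul_right_cancel₀ (pow_ne_zero _ (inv_ne_zero hw)) h2
  have hc1 : Continuous fun w => (p.reflect d).eval w := (p.reflect d).continuous
  have h2 : f' = fun w => (p.reflect d).eval w := hf'.continuous.ext_on (s := {0}ᶜ) (dense_compl_singleton 0) hc1 fun w hw => h1 w hw
  exact fun w => congrFun h2 w

/-- Rational curves are given by polynomials; both lifts. -/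
theorem ratC_poly' {d : ℕ} {K K' : ℂ → EN N} (h : RatC X d K K') :
    ∃ p : Fin (N + 1) → Polynomial ℂ, (∀ i, (p i).natDegree ≤ d) ∧ (∀ z i, K z i = (p i).eval z) ∧
      (∀ w i, K' w i = ((p i).reflect d).eval w) ∧ ∀ i, K' 0 i = (p i).coeff d := by
  have h1 : ∀ i : Fin (N + 1), ∃ p : Polynomial ℂ, p.natDegree ≤ d ∧ (∀ z, K z i = p.eval z) ∧
      ∀ w, K' w i = (p.reflect d).eval w := by
    intro i
    have hd : ∀ {G : ℂ → EN N}, Differentiable ℂ G → Differentiable ℂ fun z => G z i := by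
      intro G hG
      exact (EuclideanSpace.proj (𝕜 := ℂ) i).differentiable.comp hG
    refine exists_poly_aux (hd h.diff) (hd h.diff') fun z hz => ?_
    rw [h.rel z hz]
    simp
  choose p hp1 hp2 hp3 using h1
  refine ⟨p, hp1, fun z i => hp2 i z, fun w i => hp3 i w, fun i => ?_⟩
  rw [hp3, ← Polynomial.coeff_zero_eq_eval_zero, Polynomial.coeff_reflect, Polynomial.revAt_zero]

/-- A rational curve is given by polynomials of degree at most `d`. -/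
theorem ratC_poly (_h0 : ∀ x ∈ X, x ≠ 0) {d : ℕ} {K K' : ℂ → EN N} (h : RatC X d K K') :
    ∃ p : Fin (N + 1) → Polynomial ℂ, (∀ i, (p i).natDegree ≤ d) ∧ (∀ z i, K z i = (p i).eval z) ∧ ∀ i, K' 0 i = (p i).coeff d := by
  obtain ⟨p, h1, h2, -, h3⟩ := ratC_poly' h
  exact ⟨p, h1, h2, h3⟩

end Pool.Agent.SG

end
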