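import Pool.Agent.H94.G6.M142
import Pool.Agent.H94.G6.M143
import Pool.Agent.H94.G6.M15
import Pool.Agent.H94.G6.M17
import Pool.Agent.H94.G6.M42
import Pool.Agent.H94.G6.M45
import Pool.Agent.H94.G6.M65
import Pool.Agent.H94.G6.M70

/-! The parts of this file: SG.DuvS, SG.DuvC, SG.LimW, SG.Lim, SY.OrdTr. -/

section

/-!
# SG DuvS: the sub-mean property of a pseudo-length on one tangent plane

`n` a pseudo-length, `σ` a chart at `σ 0`, `W : ℂ → ℂ²` entire: the function `z ↦ n (σ 0) (Dσ(0) (W' z)) ^ 2` has the sub-mean property on all circles.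
-/

set_option autoImplicit false

open Topology Filter Metric MeasureTheory

noncomputable section

namespace Pool.Agent.SG

open Pool.Agent.H17BP (IsChart)
open Pool.Agent.H36.BP (EN)
open Pool.Agent.H14.PP (CurveAt IsCone)
open Pool.Agent.H22.W (PseudoLength)

variable {N : ℕ} {X : Set (EN N)}

/-- MODULE DuvS. -/
theorem duv_sub (n : PseudoLength X) {σ : ℂ × ℂ → EN N} {τ : EN N → ℂ × ℂ} (hσ : IsChart X σ τ) {W : ℂ → ℂ × ℂ} (hW : Differentiable ℂ W)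
    (z₀ : ℂ) {r : ℝ} (hr : 0 < r) :
    n.toFun (σ 0) (fderiv ℂ σ 0 (deriv W z₀)) ^ 2 ≤ Real.circleAverage (fun z => n.toFun (σ 0) (fderiv ℂ σ 0 (deriv W z)) ^ 2) z₀ r := by
  -- the good points of the chart
  have hgood : ∀ᶠ p in 𝓝 (0 : ℂ × ℂ), AnalyticAt ℂ σ p ∧ σ p ∈ X ∧ ∀ w : ℂ × ℂ, Pool.Agent.H14.PP.Tan X (σ p) (fderiv ℂ σ p w) :=
    hσ.σ_an.eventually_analyticAt.and (hσ.σ_mem.and (tan_of_chart hσ))
  obtain ⟨δ, hδ, hball⟩ := Metric.nhds_basis_closedBall.eventually_iff.1 hgood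
  -- the bounds on the disc
  have hWc : Continuous W := hW.continuous
  have hWd : Continuous (deriv W) := by
    have h1 : ContDiff ℂ 1 W := hW.contDiff
    exact h1.continuous_deriv le_rfl
  obtain ⟨M, hM⟩ := (isCompact_closedBall z₀ (r + 1)).exists_bound_of_continuousOn hWc.continuousOn
  obtain ⟨M', hM'⟩ := (isCompact_closedBall z₀ (r + 1)).exists_bound_of_continuousOn hWd.continuousOn
  have hM0 : 0 ≤ M := (norm_nonneg _).trans (hM z₀ (mem_closedBall_self (by linarith)))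
  obtain ⟨f, hf⟩ : ∃ f : (ℂ × ℂ) × (ℂ × ℂ) → ℝ, f = fun q => n.toFun (σ q.1) (fderiv ℂ σ q.1 q.2) ^ 2 := ⟨_, rfl⟩
  obtain ⟨S, hS⟩ : ∃ S : Set ((ℂ × ℂ) × (ℂ × ℂ)), S = closedBall (0 : ℂ × ℂ) δ ×ˢ closedBall (0 : ℂ × ℂ) M' := ⟨_, rfl⟩
  have hSc : IsCompact S := by
    rw [hS]
    exact (isCompact_closedBall _ _).prod (isCompact_closedBall _ _)
  have hfc : ContinuousOn f S := by
    rw [hf]
    refine ContinuousOn.pow ?_ 2
    have h1 : ContinuousOn (fun q : (ℂ × ℂ) × (ℂ × ℂ) => (σ q.1, fderiv ℂ σ q.1 q.2)) S := by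
      intro q hq
      rw [hS] at hq
      have hq1 := (hball hq.1).1
      have g1 : ContinuousAt (fun q : (ℂ × ℂ) × (ℂ × ℂ) => σ q.1) q := hq1.continuousAt.comp continuousAt_fst
      have g2 : ContinuousAt (fun q : (ℂ × ℂ) × (ℂ × ℂ) => fderiv ℂ σ q.1) q := hq1.fderiv.continuousAt.comp continuousAt_fst
      exact (g1.prodMk (g2.clm_apply continuousAt_snd)).continuousWithinAt
    refine n.continuous.comp h1 ?_
    intro q hq
    rw [hS] at hq
    exact (hball hq.1).2.2 q.2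
  obtain ⟨B, hB⟩ := hSc.exists_bound_of_continuousOn hfc
  -- the scales
  obtain ⟨ε, hε⟩ : ∃ ε : ℕ → ℝ, ε = fun k : ℕ => δ / (M + 1) * (1 / ((k : ℝ) + 1)) := ⟨_, rfl⟩
  have hε0 : ∀ k, 0 < ε k := by
    intro k
    rw [hε]
    positivity
  have hεM : ∀ k, ε k * M ≤ δ := by
    intro k
    have h1 : ε k ≤ δ / (M + 1) := by
      rw [hε]
      have h2 : 1 / ((k : ℝ) + 1) ≤ 1 := by
        rw [div_le_one (by positivity)]
        have : (0 : ℝ) ≤ k := Nat.cast_nonneg k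
        linarith
      have h3 : 0 ≤ δ / (M + 1) := by positivity
      nlinarith
    calc ε k * M ≤ δ / (M + 1) * M := mul_le_mul_of_nonneg_right h1 hM0
      _ ≤ δ / (M + 1) * (M + 1) := mul_le_mul_of_nonneg_left (by linarith) (by positivity)
      _ = δ := by field_simp
  have hεt : Tendsto ε atTop (𝓝 0) := by
    rw [hε]
    have h1 := (tendsto_one_div_add_atTop_nhds_zero_nat (𝕜 := ℝ)).const_mul (δ / (M + 1))
    rwa [mul_zero] at h1
  have hsmall : ∀ k, ∀ z ∈ closedBall z₀ (r + 1), ((ε k : ℂ) • W z, deriv W z) ∈ S := by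
    intro k z hz
    rw [hS]
    refine ⟨?_, ?_⟩
    · rw [mem_closedBall_zero_iff, norm_smul, Complex.norm_real, Real.norm_of_nonneg (hε0 k).le]
      exact (mul_le_mul_of_nonneg_left (hM z hz) (hε0 k).le).trans (hεM k)
    · rw [mem_closedBall_zero_iff]
      exact hM' z hz
  have hsph : ∀ θ : ℝ, circleMap z₀ r θ ∈ closedBall z₀ (r + 1) := fun θ =>
    closedBall_subset_closedBall (by linarith) (sphere_subset_closedBall (circleMap_mem_sphere z₀ hr.le θ))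
  -- the inequality for the small discs
  have hineq : ∀ k, f ((ε k : ℂ) • W z₀, deriv W z₀) ≤ Real.circleAverage (fun z => f ((ε k : ℂ) • W z, deriv W z)) z₀ r := by
    intro k
    have hU : ∀ z ∈ ball z₀ (r + 1), (ε k : ℂ) • W z ∈ closedBall (0 : ℂ × ℂ) δ := by
      intro z hz
      have := hsmall k z (ball_subset_closedBall hz)
      rw [hS] at this
      exact this.1
    have hFd : ∀ z ∈ ball z₀ (r + 1), HasDerivAt (fun z => σ ((ε k : ℂ) • W z)) (fderiv ℂ σ ((ε k : ℂ) • W z) ((ε k : ℂ) • deriv W z)) z := by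
      intro z hz
      have g1 : HasFDerivAt σ (fderiv ℂ σ ((ε k : ℂ) • W z)) ((ε k : ℂ) • W z) := (hball (hU z hz)).1.differentiableAt.hasFDerivAt
      have g2 : HasDerivAt (fun z => (ε k : ℂ) • W z) ((ε k : ℂ) • deriv W z) z := (hW z).hasDerivAt.const_smul (ε k : ℂ)
      exact g1.comp_hasDerivAt z g2
    have hval : ∀ z ∈ ball z₀ (r + 1), n.toFun (σ ((ε k : ℂ) • W z)) (deriv (fun z => σ ((ε k : ℂ) • W z)) z) ^ 2 =
        ε k ^ 2 * f ((ε k : ℂ) • W z, deriv W z) := by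
      intro z hz
      rw [(hFd z hz).deriv, map_smul, n.smul _ _ ((hball (hU z hz)).2.2 _), hf, Complex.norm_real, Real.norm_of_nonneg (hε0 k).le, mul_pow]
    have h1 := n.curved (ball z₀ (r + 1)) (fun z => σ ((ε k : ℂ) • W z)) isOpen_ball
      (fun z hz => (hFd z hz).differentiableAt.differentiableWithinAt) (fun z hz => (hball (hU z hz)).2.1) z₀ r hr
      (closedBall_subset_ball (by linarith))
    rw [hval z₀ (mem_ball_self (by linarith))] at h1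
    have h2 : Real.circleAverage (fun z => n.toFun (σ ((ε k : ℂ) • W z)) (deriv (fun z => σ ((ε k : ℂ) • W z)) z) ^ 2) z₀ r =
        ε k ^ 2 * Real.circleAverage (fun z => f ((ε k : ℂ) • W z, deriv W z)) z₀ r := by
      rw [← smul_eq_mul, ← Real.circleAverage_fun_smul]
      refine Real.circleAverage_congr_sphere ?_
      intro z hz
      rw [abs_of_pos hr] at hz
      exact hval z (sphere_subset_closedBall hz |> closedBall_subset_ball (by linarith))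
    rw [h2] at h1
    exact le_of_mul_le_mul_left h1 (pow_pos (hε0 k) 2)
  -- the limit
  have hlim : ∀ z ∈ closedBall z₀ (r + 1), Tendsto (fun k => f ((ε k : ℂ) • W z, deriv W z)) atTop (𝓝 (f (0, deriv W z))) := by
    intro z hz
    have g0 : ((0 : ℂ × ℂ), deriv W z) ∈ S := by
      rw [hS]
      refine ⟨mem_closedBall_self hδ.le, ?_⟩
      rw [mem_closedBall_zero_iff]
      exact hM' z hz
    have g1 : Tendsto (fun k => ((ε k : ℂ) • W z, deriv W z)) atTop (𝓝 ((0 : ℂ × ℂ), deriv W z)) := by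
      have g2 : Tendsto (fun k => (ε k : ℂ)) atTop (𝓝 (0 : ℂ)) := by
        have h5 := (Complex.continuous_ofReal.tendsto 0).comp hεt
        rw [Complex.ofReal_zero] at h5
        exact h5
      have g3 := g2.smul_const (W z)
      rw [zero_smul] at g3
      exact g3.prodMk_nhds tendsto_const_nhds
    have g4 : Tendsto (fun k => ((ε k : ℂ) • W z, deriv W z)) atTop (𝓝[S] ((0 : ℂ × ℂ), deriv W z)) :=
      tendsto_nhdsWithin_iff.2 ⟨g1, Eventually.of_forall fun k => hsmall k z hz⟩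
    exact (hfc _ g0).tendsto.comp g4
  have hf0 : ∀ z, f (0, deriv W z) = n.toFun (σ 0) (fderiv ℂ σ 0 (deriv W z)) ^ 2 := by
    intro z
    rw [hf]
  have hcirc : Continuous fun θ : ℝ => circleMap z₀ r θ := continuous_circleMap z₀ r
  have hint : Tendsto (fun k => ∫ θ in (0 : ℝ)..2 * Real.pi, f ((ε k : ℂ) • W (circleMap z₀ r θ), deriv W (circleMap z₀ r θ))) atTop
      (𝓝 (∫ θ in (0 : ℝ)..2 * Real.pi, f (0, deriv W (circleMap z₀ r θ)))) := by
    refine intervalIntegral.tendsto_integral_filter_of_dominated_convergence (fun _ => B) ?_ ?_ ?_ ?_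
    · refine Eventually.of_forall fun k => ?_
      have h1 : Continuous fun θ : ℝ => ((ε k : ℂ) • W (circleMap z₀ r θ), deriv W (circleMap z₀ r θ)) :=
        ((hWc.comp hcirc).const_smul (ε k : ℂ)).prodMk (hWd.comp hcirc)
      exact (hfc.comp_continuous h1 fun θ => hsmall k _ (hsph θ)).aestronglyMeasurable
    · exact Eventually.of_forall fun k => Eventually.of_forall fun θ _ => hB _ (hsmall k _ (hsph θ))
    · exact intervalIntegrable_const
    · exact Eventually.of_forall fun θ _ => hlim _ (hsph θ)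
  have hL := hlim z₀ (mem_closedBall_self (by linarith))
  have hR : Tendsto (fun k => Real.circleAverage (fun z => f ((ε k : ℂ) • W z, deriv W z)) z₀ r) atTop
      (𝓝 (Real.circleAverage (fun z => f (0, deriv W z)) z₀ r)) := hint.const_mul (2 * Real.pi)⁻¹
  have h := le_of_tendsto_of_tendsto hL hR (Eventually.of_forall hineq)
  simp only [hf0] at h
  exact h

end Pool.Agent.SG

end
end

section

/-!
# SG DuvC: a pseudo-length on a tangent plane with two small directions vanishes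
-/

set_option autoImplicit false
set_option linter.unusedVariables false

open Topology Filter Metric MeasureTheory

noncomputable section

namespace Pool.Agent.SG

open Pool.Agent.H17BP (IsChart)
open Pool.Agent.H36.BP (EN)
open Pool.Agent.H14.PP (CurveAt IsCone)
open Pool.Agent.H22.W (PseudoLength)
open Pool.Agent.H62.EF (Charts)

variable {N : ℕ} {X : Set (EN N)}

/-- the function on the tangent plane is continuous -/
private theorem dc_cont (n : PseudoLength X) {σ : ℂ × ℂ → EN N} {τ : EN N → ℂ × ℂ} (hσ : IsChart X σ τ) :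
    Continuous fun w : ℂ × ℂ => n.toFun (σ 0) (fderiv ℂ σ 0 w) := by
  have h1 : Continuous fun w : ℂ × ℂ => (σ 0, fderiv ℂ σ 0 w) := continuous_const.prodMk (fderiv ℂ σ 0).continuous
  exact n.continuous.comp_continuous h1 fun w => (tan_of_chart hσ).self_of_nhds w

/-- the function on the tangent plane vanishes on the combinations with nonzero coefficients -/
private theorem dc_zero (n : PseudoLength X) {σ : ℂ × ℂ → EN N} {τ : EN N → ℂ × ℂ} (hσ : IsChart X σ τ) {e f : ℂ × ℂ}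
    (h1 : ∀ ε : ℝ, 0 < ε → ∃ κ : ℝ, 0 < κ ∧ ∀ ξ η : ℂ, ξ ≠ 0 → η ≠ 0 → ‖ξ‖ ≤ κ * ‖η‖ →
      n.toFun (σ 0) (fderiv ℂ σ 0 (ξ • f + η • e)) ^ 2 ≤ ε * (‖ξ‖ * ‖η‖))
    (h2 : ∀ ε : ℝ, 0 < ε → ∃ κ : ℝ, 0 < κ ∧ ∀ ξ η : ℂ, ξ ≠ 0 → η ≠ 0 → ‖η‖ ≤ κ * ‖ξ‖ →
      n.toFun (σ 0) (fderiv ℂ σ 0 (ξ • f + η • e)) ^ 2 ≤ ε * (‖ξ‖ * ‖η‖)) (z : ℂ) :
    n.toFun (σ 0) (fderiv ℂ σ 0 (Complex.exp (-z / 2) • f + Complex.exp (z / 2) • e)) = 0 := by
  obtain ⟨g, hg⟩ : ∃ g : ℂ × ℂ → ℝ, g = fun w => n.toFun (σ 0) (fderiv ℂ σ 0 w) := ⟨_, rfl⟩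
  have hgc : Continuous g := by
    rw [hg]
    exact dc_cont n hσ
  obtain ⟨V, hV⟩ : ∃ V : ℂ → ℂ × ℂ, V = fun z => Complex.exp (-z / 2) • f + Complex.exp (z / 2) • e := ⟨_, rfl⟩
  obtain ⟨W, hWd⟩ : ∃ W : ℂ → ℂ × ℂ, W = fun z => (-2 * Complex.exp (-z / 2)) • f + (2 * Complex.exp (z / 2)) • e := ⟨_, rfl⟩
  have hm : ∀ z : ℂ, HasDerivAt (fun z : ℂ => Complex.exp (-z / 2)) (Complex.exp (-z / 2) * (-1 / 2)) z := fun z =>
    (((hasDerivAt_id z).neg).div_const 2).cexp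
  have hp : ∀ z : ℂ, HasDerivAt (fun z : ℂ => Complex.exp (z / 2)) (Complex.exp (z / 2) * (1 / 2)) z := fun z =>
    ((hasDerivAt_id z).div_const 2).cexp
  have hW : ∀ z, HasDerivAt W (V z) z := by
    intro z
    rw [hWd, hV]
    have g1 := (((hm z).const_mul (-2)).smul_const f).add (((hp z).const_mul 2).smul_const e)
    refine g1.congr_deriv ?_
    congr 2 <;> ring
  have hVd : Differentiable ℂ V := by
    intro z
    rw [hV]
    exact ((hm z).differentiableAt.smul_const f).add ((hp z).differentiableAt.smul_const e)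
  have hVc : Continuous V := hVd.continuous
  have hn1 : ∀ z : ℂ, ‖Complex.exp (-z / 2)‖ = Real.exp (-(z.re / 2)) := by
    intro z
    rw [Complex.norm_exp]
    congr 1
    simp [neg_div]
  have hn2 : ∀ z : ℂ, ‖Complex.exp (z / 2)‖ = Real.exp (z.re / 2) := by
    intro z
    rw [Complex.norm_exp]
    congr 1
    simp
  have hn3 : ∀ z : ℂ, ‖Complex.exp (-z / 2)‖ * ‖Complex.exp (z / 2)‖ = 1 := by
    intro z
    rw [hn1, hn2, ← Real.exp_add, neg_add_cancel, Real.exp_zero]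
  -- the limits at both ends
  have hlim : ∀ ε : ℝ, 0 < ε → ∃ L : ℝ, ∀ z : ℂ, L ≤ |z.re| → g (V z) ^ 2 ≤ ε := by
    intro ε hε
    obtain ⟨κ₁, hκ₁, hk1⟩ := h1 ε hε
    obtain ⟨κ₂, hκ₂, hk2⟩ := h2 ε hε
    refine ⟨max (-Real.log κ₁) (-Real.log κ₂), fun z hz => ?_⟩
    rcases abs_cases z.re with ⟨ha, -⟩ | ⟨ha, -⟩
    · rw [ha] at hz
      have g1 : -Real.log κ₁ ≤ z.re := (le_max_left _ _).trans hz
      have g2 : ‖Complex.exp (-z / 2)‖ ≤ κ₁ * ‖Complex.exp (z / 2)‖ := by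
        rw [hn1, hn2]
        nth_rewrite 1 [← Real.exp_log hκ₁]
        rw [← Real.exp_add]
        exact Real.exp_le_exp.2 (by linarith)
      have g3 := hk1 _ _ (Complex.exp_ne_zero _) (Complex.exp_ne_zero _) g2
      rw [hn3, mul_one] at g3
      rw [hg, hV]
      exact g3
    · rw [ha] at hz
      have g1 : -Real.log κ₂ ≤ -z.re := (le_max_right _ _).trans hz
      have g2 : ‖Complex.exp (z / 2)‖ ≤ κ₂ * ‖Complex.exp (-z / 2)‖ := by
        rw [hn1, hn2]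
        nth_rewrite 1 [← Real.exp_log hκ₂]
        rw [← Real.exp_add]
        exact Real.exp_le_exp.2 (by linarith)
      have g3 := hk2 _ _ (Complex.exp_ne_zero _) (Complex.exp_ne_zero _) g2
      rw [hn3, mul_one] at g3
      rw [hg, hV]
      exact g3
  -- the function is bounded
  obtain ⟨L, hL⟩ := hlim 1 one_pos
  obtain ⟨B, hB⟩ := (isCompact_closedBall (0 : ℂ × ℂ) (Real.exp (|L| / 2) * ‖f‖ + Real.exp (|L| / 2) * ‖e‖)).exists_bound_of_continuousOn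
    (hgc.pow 2).continuousOn
  have hbd : ∀ z, g (V z) ^ 2 ≤ max 1 B := by
    intro z
    by_cases hz : L ≤ |z.re|
    · exact (hL z hz).trans (le_max_left _ _)
    · push Not at hz
      have hz2 : |z.re| ≤ |L| := hz.le.trans (le_abs_self L)
      refine le_trans ?_ (le_max_right 1 B)
      have g1 : V z ∈ closedBall (0 : ℂ × ℂ) (Real.exp (|L| / 2) * ‖f‖ + Real.exp (|L| / 2) * ‖e‖) := by
        rw [mem_closedBall_zero_iff, hV]
        refine (norm_add_le _ _).trans (add_le_add ?_ ?_)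
        · rw [norm_smul, hn1]
          refine mul_le_mul_of_nonneg_right (Real.exp_le_exp.2 ?_) (norm_nonneg _)
          have := neg_abs_le z.re
          linarith
        · rw [norm_smul, hn2]
          refine mul_le_mul_of_nonneg_right (Real.exp_le_exp.2 ?_) (norm_nonneg _)
          have := le_abs_self z.re
          linarith
      exact (le_abs_self _).trans (hB _ g1)
  have h3 : g (V z) ^ 2 = 0 := by
    refine duv_zero (ψ := fun z => g (V z) ^ 2) ((hgc.comp hVc).pow 2) (fun z => sq_nonneg _) hbd (fun r hr => ?_) hlim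
    have g1 := duv_sub n hσ (fun z => (hW z).differentiableAt) z hr
    have g2 : deriv W = V := funext fun z => (hW z).deriv
    rw [g2] at g1
    rw [hg]
    exact g1
  have h4 := pow_eq_zero_iff (two_ne_zero) |>.1 h3
  rw [hg, hV] at h4
  exact h4

/-- MODULE DuvC. -/
theorem duv_C (hX : IsCone X) (hch : Charts X) (n : PseudoLength X) {σ : ℂ × ℂ → EN N} {τ : EN N → ℂ × ℂ} (hσ : IsChart X σ τ) {e f : ℂ × ℂ}
    (hef : e.1 * f.2 - e.2 * f.1 ≠ 0)
    (h1 : ∀ ε : ℝ, 0 < ε → ∃ κ : ℝ, 0 < κ ∧ ∀ ξ η : ℂ, ξ ≠ 0 → η ≠ 0 → ‖ξ‖ ≤ κ * ‖η‖ →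
      n.toFun (σ 0) (fderiv ℂ σ 0 (ξ • f + η • e)) ^ 2 ≤ ε * (‖ξ‖ * ‖η‖))
    (h2 : ∀ ε : ℝ, 0 < ε → ∃ κ : ℝ, 0 < κ ∧ ∀ ξ η : ℂ, ξ ≠ 0 → η ≠ 0 → ‖η‖ ≤ κ * ‖ξ‖ →
      n.toFun (σ 0) (fderiv ℂ σ 0 (ξ • f + η • e)) ^ 2 ≤ ε * (‖ξ‖ * ‖η‖)) :
    ∀ v : ℂ × ℂ, n.toFun (σ 0) (fderiv ℂ σ 0 v) = 0 := by
  have hgc := dc_cont n hσ
  -- nonzero coefficients
  have hne : ∀ ξ η : ℂ, ξ ≠ 0 → η ≠ 0 → n.toFun (σ 0) (fderiv ℂ σ 0 (ξ • f + η • e)) = 0 := by
    intro ξ η hξ hη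
    obtain ⟨z, hz⟩ : ∃ z : ℂ, Complex.exp z = η / ξ := ⟨Complex.log (η / ξ), Complex.exp_log (div_ne_zero hη hξ)⟩
    have e1 : Complex.exp (z / 2) * Complex.exp (-z / 2) = 1 := by
      rw [← Complex.exp_add, neg_div, add_neg_cancel, Complex.exp_zero]
    have e2 : Complex.exp (z / 2) * Complex.exp (z / 2) = η / ξ := by
      rw [← Complex.exp_add, add_halves, hz]
    have e3 : ξ • f + η • e = (ξ * Complex.exp (z / 2)) • (Complex.exp (-z / 2) • f + Complex.exp (z / 2) • e) := by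
      rw [smul_add, smul_smul, smul_smul, mul_assoc, mul_assoc, e1, e2, mul_one, mul_div_cancel₀ _ hξ]
    rw [e3, map_smul, n.smul _ _ ((tan_of_chart hσ).self_of_nhds _), dc_zero n hσ h1 h2 z, mul_zero]
  -- all coefficients
  have hall : ∀ ξ η : ℂ, n.toFun (σ 0) (fderiv ℂ σ 0 (ξ • f + η • e)) = 0 := by
    intro ξ η
    have c1 : Tendsto (fun δ : ℂ => n.toFun (σ 0) (fderiv ℂ σ 0 ((ξ + δ) • f + (η + δ) • e))) (𝓝[≠] 0)
        (𝓝 (n.toFun (σ 0) (fderiv ℂ σ 0 (ξ • f + η • e)))) := by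
      have c2 : Continuous fun δ : ℂ => n.toFun (σ 0) (fderiv ℂ σ 0 ((ξ + δ) • f + (η + δ) • e)) := hgc.comp (by fun_prop)
      have c3 := c2.tendsto 0
      simp only [add_zero] at c3
      exact c3.mono_left nhdsWithin_le_nhds
    have c4 : ∀ᶠ δ : ℂ in 𝓝[≠] 0, n.toFun (σ 0) (fderiv ℂ σ 0 ((ξ + δ) • f + (η + δ) • e)) = 0 := by
      have d1 : ∀ a : ℂ, ∀ᶠ δ : ℂ in 𝓝[≠] 0, a + δ ≠ 0 := by
        intro a
        by_cases ha : a = 0
        · filter_upwards [self_mem_nhdsWithin] with δ hδ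
          rw [ha, zero_add]
          exact hδ
        · have d2 : ContinuousAt (fun δ : ℂ => a + δ) 0 := by fun_prop
          have d3 : a + (0 : ℂ) ≠ 0 := by rwa [add_zero]
          exact Eventually.filter_mono nhdsWithin_le_nhds (d2.eventually_ne d3)
      filter_upwards [d1 ξ, d1 η] with δ g1 g2
      exact hne _ _ g1 g2
    exact tendsto_nhds_unique c1 (tendsto_const_nhds.congr' (c4.mono fun δ hδ => hδ.symm))
  intro v
  have hv : v = ((e.1 * v.2 - e.2 * v.1) / (e.1 * f.2 - e.2 * f.1)) • f + ((v.1 * f.2 - v.2 * f.1) / (e.1 * f.2 - e.2 * f.1)) • e := by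
    refine Prod.ext ?_ ?_
    · show v.1 = (e.1 * v.2 - e.2 * v.1) / (e.1 * f.2 - e.2 * f.1) * f.1 + (v.1 * f.2 - v.2 * f.1) / (e.1 * f.2 - e.2 * f.1) * e.1
      field_simp
      ring
    · show v.2 = (e.1 * v.2 - e.2 * v.1) / (e.1 * f.2 - e.2 * f.1) * f.2 + (v.1 * f.2 - v.2 * f.1) / (e.1 * f.2 - e.2 * f.1) * e.2
      field_simp
      ring
  rw [hv]
  exact hall _ _

end Pool.Agent.SG

end
end

section

/-!
# SG LimW: the limit of the quotient of the coordinates is constant (its Wronskian vanishes)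
-/

set_option autoImplicit false

open Topology Filter Metric

noncomputable section

namespace Pool.Agent.SG

open Pool.Agent.H17BP (IsChart)
open Pool.Agent.SG51 (Res Yn)

variable {E : Type} [NormedAddCommGroup E] [NormedSpace ℂ E] {𝒰 : Ultrafilter ℕ} {Φ : ℕ → ℂ → E} {ℓ : E →L[ℂ] ℂ} {w : ℂ} {r : ℝ} {m : ℕ}
  {c : ℕ → ℂ} {lam : ℕ → ℝ} {P : ℂ → ℂ} {N : ℂ → E} {X : Set E} {σ : ℂ × ℂ → E} {τ : E → ℂ × ℂ}

/-- the normalised curve is differentiable at the rescaled points, composed with an analytic map -/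
private theorem limW_diff (h : Res 𝒰 Φ ℓ (σ 0) w r m c lam P N) {q : E → ℂ} (hq : AnalyticAt ℂ q (σ 0)) {u : ℂ} (hu : P u ≠ 0) :
    ∀ᶠ n in (𝒰 : Filter ℕ), DifferentiableAt ℂ (fun z => q (Yn ℓ Φ n z)) (c n + lam n * u) := by
  have e1 := h.ne_zero hu (u := fun _ => u) tendsto_const_nhds
  have e2 := (h.ccY u hu (fun _ => u) tendsto_const_nhds).eventually hq.eventually_analyticAt
  have e3 := (h.tendsto_point (u := fun _ => u) tendsto_const_nhds).eventually (ball_mem_nhds w h.r_pos)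
  filter_upwards [e1, e2, e3, h.hol] with n h1 h2 h3 h4
  have d1 : DifferentiableAt ℂ (Φ n) (c n + lam n * u) := h4.differentiableAt (isOpen_ball.mem_nhds h3)
  have d2 : DifferentiableAt ℂ (fun z => ℓ (Φ n z)) (c n + lam n * u) := ℓ.differentiableAt.comp _ d1
  have d3 : DifferentiableAt ℂ (fun z => Yn ℓ Φ n z) (c n + lam n * u) := (d2.inv h1).smul d1
  exact h2.differentiableAt.comp (c n + lam n * u) d3

/-- **The Wronskian of the limits of the coordinates vanishes.** -/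
theorem lim_wr (hσ : IsChart X σ τ) (h : Res 𝒰 Φ ℓ (σ 0) w r m c lam P N) {k C : ℝ} (hk : 0 < k) {u : ℂ} (hu : P u ≠ 0) (hu0 : u ≠ 0)
    (hy : (fderiv ℂ τ (σ 0) ((P u)⁻¹ • N u)).1 ≠ 0)
    (hb : ∀ᶠ n in (𝒰 : Filter ℕ), ‖(lam n : ℂ) * u‖ ^ (1 - k) * ‖deriv (cT τ ℓ (Φ n)) (c n + lam n * u)‖ ≤ C) :
    deriv (fun z => (fderiv ℂ τ (σ 0) ((P z)⁻¹ • N z)).2) u * (fderiv ℂ τ (σ 0) ((P u)⁻¹ • N u)).1 =
      (fderiv ℂ τ (σ 0) ((P u)⁻¹ • N u)).2 * deriv (fun z => (fderiv ℂ τ (σ 0) ((P z)⁻¹ • N z)).1) u := by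
  have hτ0 : τ (σ 0) = 0 := tau_zero hσ
  have hτd : HasFDerivAt τ (fderiv ℂ τ (σ 0)) (σ 0) := hσ.τ_an.differentiableAt.hasFDerivAt
  have a1 : AnalyticAt ℂ (fun e => (τ e).1) (σ 0) := ((ContinuousLinearMap.fst ℂ ℂ ℂ).analyticAt _).comp hσ.τ_an
  have a2 : AnalyticAt ℂ (fun e => (τ e).2) (σ 0) := ((ContinuousLinearMap.snd ℂ ℂ ℂ).analyticAt _).comp hσ.τ_an
  have f1 : ∀ v, fderiv ℂ (fun e => (τ e).1) (σ 0) v = (fderiv ℂ τ (σ 0) v).1 := by
    intro v
    rw [hτd.fst.fderiv]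
    rfl
  have f2 : ∀ v, fderiv ℂ (fun e => (τ e).2) (σ 0) v = (fderiv ℂ τ (σ 0) v).2 := by
    intro v
    rw [hτd.snd.fderiv]
    rfl
  have t1 := h.ccQ a1 (by rw [hτ0]; rfl) u hu (fun _ => u) tendsto_const_nhds
  have t2 := h.ccQ a2 (by rw [hτ0]; rfl) u hu (fun _ => u) tendsto_const_nhds
  have t3 := h.ccQ' a1 (by rw [hτ0]; rfl) u hu (fun _ => u) tendsto_const_nhds
  have t4 := h.ccQ' a2 (by rw [hτ0]; rfl) u hu (fun _ => u) tendsto_const_nhds
  simp only [f1] at t1 t3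
  simp only [f2] at t2 t4
  set y : ℂ := (fderiv ℂ τ (σ 0) ((P u)⁻¹ • N u)).1 with hyd
  set x : ℂ := (fderiv ℂ τ (σ 0) ((P u)⁻¹ • N u)).2 with hxd
  set y' : ℂ := deriv (fun z => (fderiv ℂ τ (σ 0) ((P z)⁻¹ • N z)).1) u with hy'd
  set x' : ℂ := deriv (fun z => (fderiv ℂ τ (σ 0) ((P z)⁻¹ • N z)).2) u with hx'd
  -- the limit of the derivative of the quotient
  have key : Tendsto (fun n => (lam n : ℂ) * deriv (cT τ ℓ (Φ n)) (c n + lam n * u)) 𝒰 (𝓝 ((x' * y - x * y') / y ^ 2)) := by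
    have g := ((t4.mul t1).sub (t2.mul t3)).div (t1.pow 2) (pow_ne_zero 2 hy)
    refine g.congr' ?_
    filter_upwards [h.pos, limW_diff h a1 hu, limW_diff h a2 hu, t1.eventually_ne hy] with n hn d1 d2 hne
    have hl : (lam n : ℂ) ≠ 0 := by
      rw [Ne, Complex.ofReal_eq_zero]
      exact hn.ne'
    have hS : (τ (Yn ℓ Φ n (c n + lam n * u))).1 ≠ 0 := fun h0 => hne (by rw [h0, smul_zero])
    have e2 : deriv (cT τ ℓ (Φ n)) (c n + lam n * u) =
        (deriv (fun z => (τ (Yn ℓ Φ n z)).2) (c n + lam n * u) * (τ (Yn ℓ Φ n (c n + lam n * u))).1 -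
          (τ (Yn ℓ Φ n (c n + lam n * u))).2 * deriv (fun z => (τ (Yn ℓ Φ n z)).1) (c n + lam n * u)) /
            (τ (Yn ℓ Φ n (c n + lam n * u))).1 ^ 2 := (d2.hasDerivAt.div d1.hasDerivAt hS).deriv
    rw [e2]
    simp only [Pi.div_apply, smul_eq_mul]
    field_simp
  -- the bound
  have hz : Tendsto (fun n => (lam n : ℂ) * deriv (cT τ ℓ (Φ n)) (c n + lam n * u)) 𝒰 (𝓝 0) := by
    have hup : Tendsto (fun n => C * ‖u‖ ^ (k - 1) * lam n ^ k) 𝒰 (𝓝 0) := by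
      have h1 : Tendsto (fun n => lam n ^ k) 𝒰 (𝓝 0) := by
        have := h.lim.rpow_const (p := k) (Or.inr hk.le)
        rwa [Real.zero_rpow hk.ne'] at this
      simpa using h1.const_mul (C * ‖u‖ ^ (k - 1))
    refine squeeze_zero_norm' ?_ hup
    filter_upwards [hb, h.pos] with n h1 hn
    have hun : 0 < ‖u‖ := norm_pos_iff.2 hu0
    have h2 : ‖(lam n : ℂ) * u‖ = lam n * ‖u‖ := by
      rw [norm_mul, Complex.norm_real, Real.norm_of_nonneg hn.le]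
    rw [h2] at h1
    have h3 : 0 < (lam n * ‖u‖) ^ (1 - k) := Real.rpow_pos_of_pos (mul_pos hn hun) _
    have h4 : ‖deriv (cT τ ℓ (Φ n)) (c n + lam n * u)‖ ≤ C * (lam n * ‖u‖) ^ (k - 1) := by
      have h5 : (lam n * ‖u‖) ^ (k - 1) = ((lam n * ‖u‖) ^ (1 - k))⁻¹ := by
        rw [← Real.rpow_neg (mul_pos hn hun).le]
        congr 1
        ring
      rw [h5, ← div_eq_mul_inv, le_div_iff₀ h3, mul_comm]
      exact h1
    rw [norm_mul, Complex.norm_real, Real.norm_of_nonneg hn.le]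
    calc lam n * ‖deriv (cT τ ℓ (Φ n)) (c n + lam n * u)‖ ≤ lam n * (C * (lam n * ‖u‖) ^ (k - 1)) := by gcongr
      _ = C * ‖u‖ ^ (k - 1) * lam n ^ k := by
        rw [Real.mul_rpow hn.le hun.le, Real.rpow_sub_one hn.ne' k]
        field_simp
  have h0 := tendsto_nhds_unique key hz
  rw [div_eq_zero_iff, or_iff_left (pow_ne_zero 2 hy), sub_eq_zero] at h0
  exact h0

end Pool.Agent.SG

end
end

section

/-!
# SG Lim: the core theorem, no bubble

One rescaling (`H48.GB.scale_neck`), the estimates on the neck (`lim_neck`), the limits (`lim_wr`, `lim_ineq`, `lim_vec`), the algebra (`alg`).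
-/

set_option autoImplicit false

open Topology Filter Metric

noncomputable section

namespace Pool.Agent.SG

open Pool.Agent.H17BP (IsChart Surface)
open Pool.Agent.SG51 (Res Yn)
open Pool.Agent.H36.BP (EN)
open Pool.Agent.H74.NB (Obj)
open Pool.Agent.H36.TB (sm)

section lims

variable {E : Type} [NormedAddCommGroup E] [NormedSpace ℂ E] {𝒰 : Ultrafilter ℕ} {Φ : ℕ → ℂ → E} {ℓ : E →L[ℂ] ℂ} {w : ℂ} {r : ℝ} {m : ℕ}
  {c : ℕ → ℂ} {lam : ℕ → ℝ} {P : ℂ → ℂ} {N : ℂ → E} {X : Set E} {σ : ℂ × ℂ → E} {τ : E → ℂ × ℂ}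

theorem lim_coord (hσ : IsChart X σ τ) (h : Res 𝒰 Φ ℓ (σ 0) w r m c lam P N) (g : ℂ × ℂ →L[ℂ] ℂ) {u : ℂ} (hu : P u ≠ 0) :
    Tendsto (fun n => g (cS τ ℓ (Φ n) (c n + lam n * u)) / lam n) 𝒰 (𝓝 (g (fderiv ℂ τ (σ 0) ((P u)⁻¹ • N u)))) ∧
    Tendsto (fun n => deriv (fun z => g (cS τ ℓ (Φ n) z)) (c n + lam n * u)) 𝒰
      (𝓝 (deriv (fun z => g (fderiv ℂ τ (σ 0) ((P z)⁻¹ • N z))) u)) := by
  have hτ0 : τ (σ 0) = 0 := hσ.left.self_of_nhds
  have hq : AnalyticAt ℂ (fun e => g (τ e)) (σ 0) := (g.analyticAt _).comp hσ.τ_an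
  have hD : ∀ v : E, fderiv ℂ (fun e => g (τ e)) (σ 0) v = g (fderiv ℂ τ (σ 0) v) := by
    intro v
    have h1 : HasFDerivAt (fun e => g (τ e)) (g.comp (fderiv ℂ τ (σ 0))) (σ 0) :=
      g.hasFDerivAt.comp (σ 0) hσ.τ_an.differentiableAt.hasFDerivAt
    rw [h1.fderiv]
    rfl
  have t1 := h.ccQ hq (by simp [hτ0]) u hu (fun _ => u) tendsto_const_nhds
  have t2 := h.ccQ' hq (by simp [hτ0]) u hu (fun _ => u) tendsto_const_nhds
  simp only [hD] at t1 t2
  refine ⟨t1.congr fun n => ?_, t2⟩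
  rw [smul_eq_mul, div_eq_inv_mul]
  rfl

theorem lim_ineq (hσ : IsChart X σ τ) (h : Res 𝒰 Φ ℓ (σ 0) w r m c lam P N) {U : ℕ → ℂ → ℝ} {a b k B ε C : ℝ} (ha : 0 ≤ a) (hB : 0 < B)
    (hε : 0 < ε) {u : ℂ} (hu : P u ≠ 0) (hx : (fderiv ℂ τ (σ 0) ((P u)⁻¹ • N u)).2 = 0) (hy : (fderiv ℂ τ (σ 0) ((P u)⁻¹ • N u)).1 ≠ 0)
    (hTB : ∀ᶠ n in (𝒰 : Filter ℕ), ℓ (Φ n (c n + lam n * u)) ≠ 0 → ‖(ℓ (Φ n (c n + lam n * u)))⁻¹ • Φ n (c n + lam n * u) - σ 0‖ < ε →
      (cS τ ℓ (Φ n) (c n + lam n * u)).1 ≠ 0 → ‖(cS τ ℓ (Φ n) (c n + lam n * u)).2‖ < ε * ‖(cS τ ℓ (Φ n) (c n + lam n * u)).1‖ →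
      TBz τ ℓ (Φ n) (U n) a b k B (c n + lam n * u))
    (hU : ∀ᶠ n in (𝒰 : Filter ℕ), U n (c n + lam n * u) ≤ C * lam n ^ (a - b * m)) :
    B⁻¹ * ‖(fderiv ℂ τ (σ 0) ((P u)⁻¹ • N u)).1‖ ^ a * ‖deriv (fun z => (fderiv ℂ τ (σ 0) ((P z)⁻¹ • N z)).1) u‖ ≤ C * ‖P u‖ ^ b := by
  obtain ⟨s1, s2⟩ := lim_coord hσ h (ContinuousLinearMap.fst ℂ ℂ ℂ) hu
  obtain ⟨x1, -⟩ := lim_coord hσ h (ContinuousLinearMap.snd ℂ ℂ ℂ) hu
  simp only [ContinuousLinearMap.coe_fst', ContinuousLinearMap.coe_snd'] at s1 s2 x1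
  rw [hx] at x1
  have hP := h.ccP u (Set.mem_univ _) (fun _ => u) tendsto_const_nhds
  have hY := h.ccY u hu (fun _ => u) tendsto_const_nhds
  have hg : Tendsto (fun n => ‖ℓ (Φ n (c n + lam n * u))‖ / lam n ^ (m : ℝ)) 𝒰 (𝓝 ‖P u‖) := by
    refine hP.norm.congr' ?_
    filter_upwards [h.pos] with n hn
    rw [norm_mul, norm_inv, norm_pow, Complex.norm_real, Real.norm_of_nonneg hn.le, Real.rpow_natCast, div_eq_inv_mul]
  refine Pool.Agent.H23.NE.step3 (M := m) h.pos (s := fun n => (cS τ ℓ (Φ n) (c n + lam n * u)).1)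
    (s' := fun n => deriv (fun w => (cS τ ℓ (Φ n) w).1) (c n + lam n * u)) (U := fun n => U n (c n + lam n * u)) ha s1 s2 hg
    (norm_pos_iff.2 hu) ?_ hU
  -- the sector
  have e1 : ∀ᶠ n in (𝒰 : Filter ℕ), (cS τ ℓ (Φ n) (c n + lam n * u)).1 / lam n ≠ 0 := s1.eventually_ne hy
  have e2 : ∀ᶠ n in (𝒰 : Filter ℕ), ‖(cS τ ℓ (Φ n) (c n + lam n * u)).2 / lam n‖ < ε * ‖(cS τ ℓ (Φ n) (c n + lam n * u)).1 / lam n‖ := by
    refine x1.norm.eventually_lt (s1.norm.const_mul ε) ?_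
    rw [norm_zero]
    exact mul_pos hε (norm_pos_iff.2 hy)
  have e3 : ∀ᶠ n in (𝒰 : Filter ℕ), ‖(ℓ (Φ n (c n + lam n * u)))⁻¹ • Φ n (c n + lam n * u) - σ 0‖ < ε := by
    filter_upwards [hY.eventually (ball_mem_nhds (σ 0) hε)] with n hn
    rw [dist_eq_norm] at hn
    exact hn
  filter_upwards [hTB, e1, e2, e3, h.pos, h.ne_zero hu (u := fun _ => u) tendsto_const_nhds] with n h1 h2 h3 h4 h5 h6
  have h7 : (cS τ ℓ (Φ n) (c n + lam n * u)).1 ≠ 0 := fun h0 => h2 (by rw [h0, zero_div])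
  have h8 : ‖(cS τ ℓ (Φ n) (c n + lam n * u)).2‖ < ε * ‖(cS τ ℓ (Φ n) (c n + lam n * u)).1‖ := by
    rw [norm_div, norm_div, Complex.norm_real, Real.norm_of_nonneg h5.le, mul_div_assoc', div_lt_div_iff_of_pos_right h5] at h3
    exact h3
  have h9 := (h1 h6 h4 h7 h8).1
  rw [mul_assoc, mul_assoc, inv_mul_le_iff₀ hB, ← mul_assoc]
  refine le_trans ?_ h9
  gcongr
  exact le_max_left _ _

end lims

/-- **No bubble**: one rescaling. -/
theorem core {N : ℕ} {X : Set (EN N)} (hX : Surface X) {σ : ℂ × ℂ → EN N} {τ : EN N → ℂ × ℂ} (hσ : IsChart X σ τ) {𝒰 : Ultrafilter ℕ}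
    {Φ : ℕ → ℂ → EN N} {H : ℂ → EN N} {M : ℕ} {r : ℝ} (hM : 1 ≤ M) (h : Obj 𝒰 Φ 0 M H r) (hΦX : ∀ᶠ n in (𝒰 : Filter ℕ), ∀ z ∈ ball (0 : ℂ) r, Φ n z ∈ X)
    (hH : H 0 = σ 0) (hd : deriv (fun z => τ (H z)) 0 = (1, 0)) {a b k ε B C₁ r₁ : ℝ} (ha : 0 < a) (hb : 0 < b) (hk : 0 < k) (hk1 : k < 1)
    (hcond : a - 1 - k < b * M) (hε : 0 < ε) (hr₁ : 0 < r₁) {U : ℕ → ℂ → ℝ} (hU : ∀ n z, 0 ≤ U n z)
    (hmax : ∀ᶠ n in (𝒰 : Filter ℕ), ∀ (w : ℂ) (ρ : ℝ), 0 < ρ → closedBall w ρ ⊆ ball 0 r₁ → ∀ z ∈ closedBall w ρ, ∃ y ∈ sphere w ρ,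
      U n z ≤ C₁ * U n y)
    (htb : ∀ᶠ n in (𝒰 : Filter ℕ), ∀ z ∈ ball (0 : ℂ) r₁, ∀ c : ℂ, c ≠ 0 → ‖c⁻¹ • Φ n z - σ 0‖ < ε → (τ (c⁻¹ • Φ n z)).1 ≠ 0 →
      ‖(τ (c⁻¹ • Φ n z)).2‖ < ε * ‖(τ (c⁻¹ • Φ n z)).1‖ →
      ‖(τ (c⁻¹ • Φ n z)).1‖ ^ a * sm k ((τ (c⁻¹ • Φ n z)).1, (τ (c⁻¹ • Φ n z)).2 / (τ (c⁻¹ • Φ n z)).1)
        (deriv (fun w => (τ (c⁻¹ • Φ n w)).1) z, deriv (fun w => (τ (c⁻¹ • Φ n w)).2 / (τ (c⁻¹ • Φ n w)).1) z) * ‖c‖ ^ (-b) ≤ B * U n z ∧
      U n z ≤ B * (‖(τ (c⁻¹ • Φ n z)).1‖ ^ a * sm k ((τ (c⁻¹ • Φ n z)).1, (τ (c⁻¹ • Φ n z)).2 / (τ (c⁻¹ • Φ n z)).1)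
        (deriv (fun w => (τ (c⁻¹ • Φ n w)).1) z, deriv (fun w => (τ (c⁻¹ • Φ n w)).2 / (τ (c⁻¹ • Φ n w)).1) z) * ‖c‖ ^ (-b))) : False := by
  obtain ⟨m, rfl⟩ : ∃ m, M = m + 1 := ⟨M - 1, by omega⟩
  obtain ⟨ℓ, hℓ⟩ : ∃ ℓ : EN N →L[ℂ] ℂ, ℓ (H 0) = 1 := by
    obtain ⟨g, -, hg⟩ := exists_dual_vector ℂ (H 0) (norm_ne_zero_iff.2 h.nzG)
    have h1 : (‖H 0‖ : ℂ) ≠ 0 := by
      rw [Ne, Complex.ofReal_eq_zero, norm_eq_zero]
      exact h.nzG
    refine ⟨(‖H 0‖ : ℂ)⁻¹ • g, ?_⟩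
    rw [smul_apply, hg, smul_eq_mul]
    exact inv_mul_cancel₀ h1
  obtain ⟨c, lam, aa, A, hc, hlp, hl0, haa0, hℓA, hccP, hccN, hnz, hcz, hneck⟩ := Pool.Agent.H48.GB.scale_neck h ℓ hℓ
  have hHd : DifferentiableAt ℂ H 0 := h.holG.differentiableAt (ball_mem_nhds 0 h.pos)
  have hv : fderiv ℂ τ (σ 0) (deriv H 0 - ℓ (deriv H 0) • H 0) = (1, 0) := by
    rw [← hd, ← tau_dir hσ hHd hH (ℓ (deriv H 0)), hH]
  have hℓσ : ℓ (σ 0) = 1 := by rw [← hH]; exact hℓ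
  rw [hH] at hv
  simp only [hH] at hccN hneck
  set v : EN N := deriv H 0 - ℓ (deriv H 0) • σ 0 with hvdef
  clear_value v
  set D := fderiv ℂ τ (σ 0) with hD
  set P : ℂ → ℂ := fun u => ∑ j ∈ Finset.range (m + 1), u ^ j * aa j + u ^ (m + 1) with hP
  set Nn : ℂ → EN N := fun u => ∑ j ∈ Finset.range (m + 2), u ^ j • A j + u ^ (m + 2) • v with hNn
  have hPd : Differentiable ℂ P := by
    rw [hP]
    fun_prop
  have hNd : Differentiable ℂ Nn := by
    rw [hNn]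
    fun_prop
  have hres : Res 𝒰 Φ ℓ (σ 0) 0 r (m + 1) c lam P Nn :=
    ⟨h.pos, h.hol, hc, hlp, hl0, hℓσ, hccP, hccN, hPd, hNd⟩
  -- the polynomials
  set Pp : Polynomial ℂ := ∑ j ∈ Finset.range (m + 1), Polynomial.C (aa j) * Polynomial.X ^ j + Polynomial.X ^ (m + 1) with hPp
  set Yp : Polynomial ℂ := ∑ j ∈ Finset.range (m + 2), Polynomial.C ((D (A j)).1) * Polynomial.X ^ j + Polynomial.X ^ (m + 2) with hYp
  set Xp : Polynomial ℂ := ∑ j ∈ Finset.range (m + 2), Polynomial.C ((D (A j)).2) * Polynomial.X ^ j with hXp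
  have hPe : ∀ u, P u = Pp.eval u := fun u => (pl_eval (m + 1) aa u).symm
  have hDN : ∀ u, D (Nn u) = (Yp.eval u, Xp.eval u) := by
    intro u
    rw [hYp, hXp, pl_eval (m + 2) (fun j => (D (A j)).1) u, pl_eval0 (m + 2) (fun j => (D (A j)).2) u, hNn]
    simp only [map_add, map_sum, map_smul, hv]
    refine Prod.ext ?_ ?_
    · simp [Prod.fst_sum]
    · simp [Prod.snd_sum]
  have hDy : ∀ u, (D ((P u)⁻¹ • Nn u)).1 = Yp.eval u / Pp.eval u := by
    intro u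
    rw [map_smul, hDN, hPe, Prod.smul_mk, smul_eq_mul, div_eq_inv_mul]
  have hDx : ∀ u, (D ((P u)⁻¹ • Nn u)).2 = Xp.eval u / Pp.eval u := by
    intro u
    rw [map_smul, hDN, hPe, Prod.smul_mk, smul_eq_mul, smul_eq_mul, div_eq_inv_mul]
  have hDy' : (fun z => (D ((P z)⁻¹ • Nn z)).1) = fun z => Yp.eval z / Pp.eval z := funext hDy
  have hDx' : (fun z => (D ((P z)⁻¹ • Nn z)).2) = fun z => Xp.eval z / Pp.eval z := funext hDx
  have hPm : Pp.Monic := pl_monic _ _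
  have hYm : Yp.Monic := pl_monic _ _
  have hPn : Pp.natDegree = m + 1 := pl_natDegree _ _
  have hYn : Yp.natDegree = m + 2 := pl_natDegree _ _
  -- the neck
  obtain ⟨R, K, δ, C₂, B', C₁', ε', hR, hK, hδ, hC₂, hB', hC₁', hε', hneck'⟩ := lim_neck (ℓ := ℓ) (M := m + 1) hσ hv h.pos hr₁ h.hol hc hlp hneck ha.le hb.le
    hk1 hcond hε hU hmax htb
  have hR0 : 0 < R := by linarith only [hk, hk1, hR]
  have hK0 : 0 < K := by linarith only [hk, hk1, hK]
  have hsmall : ∀ (x : ℝ) {y : ℝ}, 0 < y → ∀ᶠ n in (𝒰 : Filter ℕ), lam n * x < y := by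
    intro x y hy
    have h1 : Tendsto (fun n => lam n * x) 𝒰 (𝓝 0) := by simpa using hl0.mul_const x
    exact h1.eventually (gt_mem_nhds hy)
  have hnorm : ∀ n, 0 < lam n → ∀ u : ℂ, ‖(lam n : ℂ) * u‖ = lam n * ‖u‖ := by
    intro n hn u
    rw [norm_mul, Complex.norm_real, Real.norm_of_nonneg hn.le]
  -- the second coordinate of the limit vanishes
  have hXp0 : Xp = 0 := by
    obtain ⟨R₁, hR₁⟩ := pl_roots hPm.ne_zero
    obtain ⟨R₂, hR₂⟩ := pl_roots hYm.ne_zero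
    refine nk_zero (R := max (max R₁ R₂) (2 * R)) (P := Pp) hYm (by rw [hYn, hXp]; exact pl_natDegree_lt (by omega) _)
      (fun u hu => hR₁ u (lt_of_le_of_lt ((le_max_left _ _).trans (le_max_left _ _)) hu)) fun u hu => ?_
    have hu1 : Pp.eval u ≠ 0 := hR₁ u (lt_of_le_of_lt ((le_max_left _ _).trans (le_max_left _ _)) hu)
    have hu2 : Yp.eval u ≠ 0 := hR₂ u (lt_of_le_of_lt ((le_max_right _ _).trans (le_max_left _ _)) hu)
    have hu3 : 2 * R < ‖u‖ := lt_of_le_of_lt (le_max_right _ _) hu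
    have hu0 : u ≠ 0 := norm_pos_iff.1 (by linarith only [hk, hk1, hR, hu3])
    have h1 := lim_wr (C := C₂) hσ hres hk (u := u) (by rw [hPe]; exact hu1) hu0 (by rw [hDy]; exact div_ne_zero hu2 hu1) (by
      filter_upwards [hneck', hlp, hsmall (K * ‖u‖) (show 0 < δ / 4 by positivity)] with n n1 n2 n3
      refine (n1.2.2 _ ?_ ?_).1
      · rw [hnorm n n2]
        nlinarith only [hu3, n2]
      · rw [hnorm n n2]
        linarith only [n3])
    rw [hDy', hDx', hDx, hDy] at h1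
    exact h1
  have hDx0 : ∀ u, (D ((P u)⁻¹ • Nn u)).2 = 0 := by
    intro u
    rw [hDx, hXp0, Polynomial.eval_zero, zero_div]
  -- the inequality
  have hineq : ∀ R' : ℝ, ∃ C : ℝ, ∀ u : ℂ, ‖u‖ < R' → Pp.eval u ≠ 0 → Yp.eval u ≠ 0 →
      ‖Yp.eval u / Pp.eval u‖ ^ a * ‖deriv (fun z => Yp.eval z / Pp.eval z) u‖ ≤ C * ‖Pp.eval u‖ ^ b := by
    intro R'
    set Rb := max R' (2 * R + 1) with hRb
    have hRb1 : 2 * R + 1 ≤ Rb := le_max_right _ _
    have hRb0 : 0 < Rb := by linarith only [hk, hk1, hR, hRb1]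
    set C' := C₁' * (C₂ * Rb ^ (a - b * ((m + 1 : ℕ) : ℝ))) with hC'
    refine ⟨B' * C', fun u hu hu1 hu2 => ?_⟩
    have hub : ‖u‖ ≤ Rb := hu.le.trans (le_max_left _ _)
    have h1 := lim_ineq (C := C') (ε := ε') (k := k) (b := b) (U := U) (B := B') hσ hres ha.le hB' hε' (u := u) (by rw [hPe]; exact hu1) (hDx0 u)
      (by rw [hDy]; exact div_ne_zero hu2 hu1)
      (by
        filter_upwards [hneck', hlp, hsmall ‖u‖ hδ] with n n1 n2 n3
        refine n1.1 _ ?_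
        rw [hnorm n n2]
        exact n3.le)
      (by
        filter_upwards [hneck', hlp, hsmall Rb hδ, hsmall (K * Rb) (show 0 < δ / 4 by positivity)] with n n1 n2 n3 n4
        obtain ⟨y, hy, hy2⟩ := n1.2.1 ((lam n : ℂ) * u) (lam n * Rb) (by positivity) (by
          rw [hnorm n n2]
          gcongr) n3.le
        have hy3 := (n1.2.2 y (by
          rw [hy]
          nlinarith only [hk, n2, hk1, hRb1]) (by
          rw [hy]
          linarith only [n4])).2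
        rw [hy, Real.mul_rpow n2.le hRb0.le] at hy3
        calc U n (c n + lam n * u) ≤ C₁' * U n (c n + y) := hy2
          _ ≤ C₁' * (C₂ * (lam n ^ (a - b * ((m + 1 : ℕ) : ℝ)) * Rb ^ (a - b * ((m + 1 : ℕ) : ℝ)))) := by gcongr
          _ = C' * lam n ^ (a - b * ((m + 1 : ℕ) : ℝ)) := by rw [hC']; ring)
    rw [hDy', hDy, mul_assoc, inv_mul_le_iff₀ hB', hPe] at h1
    rw [mul_assoc]
    exact h1
  have hP0 : Pp.eval 0 = 0 := by
    rw [← hPe, hP]
    simp only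
    rw [Finset.sum_range_succ']
    simp [haa0]
  obtain ⟨hPX, hYX⟩ := alg (M := m + 1) hPm hPn hYm hYn hP0 ha hb hineq
  refine hnz ⟨pl_coeff hPX, ?_⟩
  -- the vectors
  obtain ⟨L, hL⟩ := lim_vec hX hσ hres hΦX
  refine nk_vec (w := v - L (1, 0)) fun u hu => ?_
  have hPu : P u = u ^ (m + 1) := by
    rw [hPe, hPX, Polynomial.eval_pow, Polynomial.eval_X]
  have hPu0 : P u ≠ 0 := by
    rw [hPu]
    exact pow_ne_zero _ hu
  have h1 := hL u hPu0
  have h2 : D ((P u)⁻¹ • Nn u) = u • ((1 : ℂ), (0 : ℂ)) := by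
    refine Prod.ext ?_ ?_
    · rw [hDy, hYX, hPX]
      simp only [Polynomial.eval_pow, Polynomial.eval_X, Prod.smul_mk, smul_eq_mul, mul_one]
      rw [pow_succ u (m + 1), mul_div_cancel_left₀]
      exact pow_ne_zero _ hu
    · rw [hDx0]
      simp
  rw [h2, map_smul] at h1
  have h3 : Nn u = u ^ (m + 2) • L (1, 0) := by
    have h4 : Nn u = P u • ((P u)⁻¹ • Nn u) := by rw [smul_inv_smul₀ hPu0]
    rw [h4, h1, hPu, smul_smul, ← pow_succ]
  rw [smul_sub, add_sub, ← h3, hNn]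
  simp

end Pool.Agent.SG

end
end

section

/-!
# SY OrdTr: the order two condition does not depend on the centre

`OrdTwo.translate`: if `H` is an entire curve without zeros and `OrdTwo H` then `OrdTwo (fun z => H (w + z))`.

Proof.  `circle_approx`: `u` entire with `|Re u - log |H|| ≤ 1` on the circle of radius `R`, so `exp (-u - 1) H` is
bounded by `1` and its value at `0` is at least `e⁻²` times that of every lift `F` with `|F| ≤ 1`.  It has no zeros, so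
the Harnack inequality on a fixed disc gives the lower bound at `w`.
-/

set_option autoImplicit false

open Topology Filter Metric

namespace Pool.Agent.SY

open Pool.Agent.H36.BP (EN OrdTwo circle_approx)

variable {N : ℕ}

/-- lifts of the same curve differ by a holomorphic function -/
private theorem ratio {H F : ℂ → EN N} (hH : Differentiable ℂ H) (h0 : ∀ z, H z ≠ 0) {R : ℝ}
    (hF : DifferentiableOn ℂ F (ball 0 R)) (hFH : ∀ z ∈ ball (0 : ℂ) R, F z = 0 ∨ ∃ c : ℂ, c ≠ 0 ∧ H z = c • F z) :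
    ∃ φ : ℂ → ℂ, DifferentiableOn ℂ φ (ball 0 R) ∧ ∀ z ∈ ball (0 : ℂ) R, F z = φ z • H z := by
  classical
  have h1 : ∀ z, z ∈ ball (0 : ℂ) R → ∃ a : ℂ, F z = a • H z := by
    intro z hz
    rcases hFH z hz with h | ⟨c, hc, h⟩
    · exact ⟨0, by rw [h, zero_smul]⟩
    · exact ⟨c⁻¹, by rw [h, smul_smul, inv_mul_cancel₀ hc, one_smul]⟩
  choose! φ hφ using h1
  refine ⟨φ, fun z hz => ?_, hφ⟩
  obtain ⟨i, hi⟩ : ∃ i, H z i ≠ 0 := by
    by_contra hcon
    push Not at hcon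
    exact h0 z (by ext i; simpa using hcon i)
  have hHi : Differentiable ℂ fun z => H z i := fun y => differentiableAt_pi.1 ((PiLp.continuousLinearEquiv 2 ℂ
    (fun _ : Fin (N + 1) => ℂ)).differentiable.comp hH y) i
  have hFi : DifferentiableAt ℂ (fun z => F z i) z := differentiableAt_pi.1 ((PiLp.continuousLinearEquiv 2 ℂ
    (fun _ : Fin (N + 1) => ℂ)).differentiable.differentiableAt.comp z (hF.differentiableAt (isOpen_ball.mem_nhds hz))) i
  have h2 : ∀ᶠ y in 𝓝 z, φ y = F y i / H y i := by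
    filter_upwards [isOpen_ball.mem_nhds hz, (hHi z).continuousAt.eventually_ne hi] with y hy1 hy2
    have h3 := congrArg (fun v : EN N => v i) (hφ y hy1)
    simp only [PiLp.smul_apply, smul_eq_mul] at h3
    rw [h3, mul_div_cancel_right₀ _ hy2]
  exact ((hFi.div (hHi z) hi).congr_of_eventuallyEq h2).differentiableWithinAt

/-- the order two condition does not depend on the centre -/
theorem OrdTwo.translate {H : ℂ → EN N} (hH : Differentiable ℂ H) (h0 : ∀ z, H z ≠ 0) (ho : OrdTwo H) (w : ℂ) :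
    OrdTwo fun z => H (w + z) := by
  obtain ⟨C₀, hC⟩ := ho
  have hn : ∀ z, 0 < ‖H z‖ := fun z => norm_pos_iff.2 (h0 z)
  -- bounds near the origin
  obtain ⟨K, hK⟩ := (isCompact_closedBall (0 : ℂ) (2 * ‖w‖ + 1)).exists_bound_of_continuousOn
    (f := fun z => Real.log ‖H z‖) ((hH.continuous.norm.continuousOn).log fun z _ => (hn z).ne')
  have hw0 := norm_nonneg w
  have hK0 : 0 ≤ K := (norm_nonneg _).trans (hK 0 (mem_closedBall_self (by linarith)))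
  set a : ℝ := 2 * ‖w‖ + 2 with ha
  have ha0 : 0 ≤ a := by rw [ha]; linarith
  refine ⟨(2 * ‖w‖ + 1) * (max C₀ 0 * (2 + 2 * a ^ 2) + 2 * K + 3), fun r hr => ?_⟩
  set R : ℝ := r + 2 * ‖w‖ + 1 with hR
  have hR0 : 0 < R := by rw [hR]; linarith
  obtain ⟨F, hF1, hF2, hF3, hF4⟩ := hC (R + 1) (by linarith)
  obtain ⟨φ, hφ1, hφ2⟩ := ratio hH h0 hF1 hF4
  have hsub : closedBall (0 : ℂ) R ⊆ ball 0 (R + 1) := closedBall_subset_ball (by linarith)
  obtain ⟨u, hu, huR⟩ := circle_approx hR0 (fun z => Real.log ‖H z‖)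
    ((hH.continuous.norm.continuousOn).log fun z _ => (hn z).ne') one_pos
  have hexp : ∀ z, ‖Complex.exp (-u z - 1) • H z‖ = Real.exp (-(u z).re - 1 + Real.log ‖H z‖) := by
    intro z
    rw [norm_smul, Complex.norm_exp, Real.exp_add, Real.exp_log (hn z)]
    simp
  -- the upper bound
  have hup : ∀ z ∈ ball (0 : ℂ) R, ‖Complex.exp (-u z - 1) • H z‖ ≤ 1 := by
    intro z hz
    have hd : DiffContOnCl ℂ (fun z => Complex.exp (-u z - 1) • H z) (ball (0 : ℂ) R) :=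
      ((hu.neg.sub_const _).cexp.smul hH).diffContOnCl
    refine Complex.norm_le_of_forall_mem_frontier_norm_le isBounded_ball hd (fun y hy => ?_)
      (subset_closure hz)
    rw [frontier_ball _ hR0.ne'] at hy
    rw [hexp y, Real.exp_le_one_iff]
    have h1 := (abs_le.1 (huR y hy)).1
    linarith
  -- the lower bound at the origin
  have hlow : ‖F 0‖ ≤ Real.exp 2 * ‖Complex.exp (-u 0 - 1) • H 0‖ := by
    have hd : DiffContOnCl ℂ (fun z => φ z * Complex.exp (u z)) (ball (0 : ℂ) R) := by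
      have h1 : DifferentiableOn ℂ (fun z => φ z * Complex.exp (u z)) (ball (0 : ℂ) (R + 1)) :=
        hφ1.mul hu.cexp.differentiableOn
      exact h1.diffContOnCl_ball hsub
    have h1 : ‖φ 0 * Complex.exp (u 0)‖ ≤ Real.exp 1 := by
      refine Complex.norm_le_of_forall_mem_frontier_norm_le isBounded_ball hd (fun y hy => ?_)
        (subset_closure (mem_ball_self hR0))
      rw [frontier_ball _ hR0.ne'] at hy
      have hy1 : y ∈ ball (0 : ℂ) (R + 1) := hsub (sphere_subset_closedBall hy)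
      have h2 := hF2 y hy1
      rw [hφ2 y hy1, norm_smul] at h2
      have h3 := (abs_le.1 (huR y hy)).2
      rw [norm_mul, Complex.norm_exp]
      have h4 : Real.exp (u y).re ≤ Real.exp 1 * ‖H y‖ := by
        rw [← Real.exp_log (hn y), ← Real.exp_add, Real.exp_le_exp]
        linarith
      calc ‖φ y‖ * Real.exp (u y).re ≤ ‖φ y‖ * (Real.exp 1 * ‖H y‖) :=
            mul_le_mul_of_nonneg_left h4 (norm_nonneg _)
        _ = Real.exp 1 * (‖φ y‖ * ‖H y‖) := by ring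
        _ ≤ Real.exp 1 * 1 := mul_le_mul_of_nonneg_left h2 (Real.exp_pos _).le
        _ = Real.exp 1 := mul_one _
    rw [hφ2 0 (mem_ball_self (by linarith)), norm_smul, norm_smul, Complex.norm_exp]
    rw [norm_mul, Complex.norm_exp] at h1
    have h5 : (-u 0 - 1).re = -(u 0).re - 1 := by simp
    rw [h5, ← mul_assoc, ← Real.exp_add]
    refine mul_le_mul_of_nonneg_right ?_ (norm_nonneg _)
    have h6 : Real.exp (2 + (-(u 0).re - 1)) = Real.exp 1 * (Real.exp (u 0).re)⁻¹ := by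
      rw [← Real.exp_neg, ← Real.exp_add]
      congr 1
      ring
    rw [h6, ← div_eq_mul_inv, le_div_iff₀ (Real.exp_pos _)]
    exact h1
  -- the Harnack inequality
  have hin : ∀ z ∈ ball w (‖w‖ + 1), ‖z‖ ≤ 2 * ‖w‖ + 1 := by
    intro z hz
    rw [mem_ball, dist_eq_norm] at hz
    have h1 : ‖z‖ ≤ ‖z - w‖ + ‖w‖ := by simpa using norm_add_le (z - w) w
    linarith
  have hpos : ∀ z ∈ ball w (‖w‖ + 1), 0 < (u z + (1 + K + 1 : ℝ)).re := by
    intro z hz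
    have hz1 := hin z hz
    have hzR : z ∈ ball (0 : ℂ) R := by
      rw [mem_ball_zero_iff, hR]
      linarith
    have h1 := hup z hzR
    rw [hexp z, Real.exp_le_one_iff] at h1
    have h2 := abs_le.1 (hK z (mem_closedBall_zero_iff.2 hz1))
    rw [Complex.add_re, Complex.ofReal_re]
    linarith [h2.1]
  have hhar := Pool.Agent.EG.LE.harnack (H := fun z => u z + (1 + K + 1 : ℝ)) (c := w) (r := ‖w‖ + 1)
    (by linarith) (hu.add_const _).differentiableOn hpos (z := 0) (by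
      rw [mem_ball, dist_eq_norm, zero_sub, norm_neg]
      linarith)
  rw [zero_sub, norm_neg] at hhar
  have hhar2 : (u w + (1 + K + 1 : ℝ)).re ≤ (2 * ‖w‖ + 1) * (u 0 + (1 + K + 1 : ℝ)).re := by
    have h1 : (‖w‖ + 1 - ‖w‖) / (‖w‖ + 1 + ‖w‖) = 1 / (2 * ‖w‖ + 1) := by
      congr 1 <;> ring
    rw [h1, mul_one_div, div_le_iff₀ (by linarith)] at hhar
    linarith
  refine ⟨fun z => Complex.exp (-u (w + z) - 1) • H (w + z), ?_, fun z hz => ?_, ?_, fun z _ => Or.inr ?_⟩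
  · have h1 : Differentiable ℂ fun z : ℂ => w + z := differentiable_id.const_add w
    exact (((hu.comp h1).neg.sub_const _).cexp.smul (hH.comp h1)).differentiableOn
  · refine hup _ ?_
    rw [mem_ball_zero_iff] at hz ⊢
    have := norm_add_le w z
    rw [hR]
    linarith
  · show _ ≤ ‖Complex.exp (-u (w + 0) - 1) • H (w + 0)‖
    rw [add_zero, hexp w, Real.exp_le_exp]
    have h1 : Real.exp (-(C₀ * (1 + (R + 1) ^ 2))) ≤ Real.exp (2 + (-(u 0).re - 1 + Real.log ‖H 0‖)) := by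
      rw [Real.exp_add 2, ← hexp 0]
      exact hF3.trans hlow
    rw [Real.exp_le_exp] at h1
    have h2 := abs_le.1 (hK 0 (mem_closedBall_self (by linarith)))
    have h3 := abs_le.1 (hK w (mem_closedBall_zero_iff.2 (by linarith)))
    rw [Complex.add_re, Complex.ofReal_re, Complex.add_re, Complex.ofReal_re] at hhar2
    have h4 : C₀ * (1 + (R + 1) ^ 2) ≤ max C₀ 0 * (2 + 2 * a ^ 2) * (1 + r ^ 2) := by
      have h5 : C₀ * (1 + (R + 1) ^ 2) ≤ max C₀ 0 * (1 + (R + 1) ^ 2) :=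
        mul_le_mul_of_nonneg_right (le_max_left _ _) (by positivity)
      refine h5.trans ?_
      rw [mul_assoc]
      refine mul_le_mul_of_nonneg_left ?_ (le_max_right _ _)
      have h6 : R + 1 = r + a := by rw [hR, ha]; ring
      rw [h6]
      nlinarith [sq_nonneg (r - a), sq_nonneg (r * a)]
    have h7 : (u 0).re + (1 + K + 1) ≤ (max C₀ 0 * (2 + 2 * a ^ 2) + 2 * K + 3) * (1 + r ^ 2) := by
      have h8 : (2 * K + 3) * 1 ≤ (2 * K + 3) * (1 + r ^ 2) :=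
        mul_le_mul_of_nonneg_left (by nlinarith [sq_nonneg r]) (by linarith)
      nlinarith [h2.2]
    have h9 : (u w).re + (1 + K + 1) ≤ (2 * ‖w‖ + 1) * ((max C₀ 0 * (2 + 2 * a ^ 2) + 2 * K + 3) * (1 + r ^ 2)) :=
      hhar2.trans (mul_le_mul_of_nonneg_left h7 (by linarith))
    have h10 : (2 * ‖w‖ + 1) * (max C₀ 0 * (2 + 2 * a ^ 2) + 2 * K + 3) * (1 + r ^ 2) =
      (2 * ‖w‖ + 1) * ((max C₀ 0 * (2 + 2 * a ^ 2) + 2 * K + 3) * (1 + r ^ 2)) := by ring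
    rw [h10]
    linarith [h3.1]
  · refine ⟨(Complex.exp (-u (w + z) - 1))⁻¹, inv_ne_zero (Complex.exp_ne_zero _), ?_⟩
    rw [smul_smul, inv_mul_cancel₀ (Complex.exp_ne_zero _), one_smul]

end Pool.Agent.SY

end
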