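import Pool.Agent.H94.G6.M113
import Pool.Agent.H94.G6.M114
import Pool.Agent.H94.G6.M129
import Pool.Agent.H94.G6.M134
import Pool.Agent.H94.G6.M141
import Pool.Agent.H94.G6.M144
import Pool.Agent.H94.G6.SY.EiP

/-! The parts of this file: H90.SG.Down, H90.SG.HasU, SY.F1G, SG.Bub. -/

section

/-!
# SG: the energy with the weight, blown up at a point of the curve first
-/

set_option autoImplicit false

open Topology Filter Metric

noncomputable section

namespace Pool.Agent.H90.SG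

open Pool.Agent.H36.BP (EN fs wd Sub)
open Pool.Agent.H17BP (Pr Surface IsForm NoZeros NodalAt Eqs IsChart ResAt exists_forms)
open Pool.Agent.H14.KB (rhoS)
open Pool.Agent.H62.BU (blow total Ker phi om)
open Pool.Agent.SY (Ent Energy ModelS IsLiftB down modelS_blow exists_equiv_sum)
open Pool.Agent.H36.TB (oC sm EnergyB TBAt)
open Pool.Agent.H36.TB (energyB_blow energyB_of_model)

variable {V : Type} [NormedAddCommGroup V] [NormedSpace ℂ V]

/-- A point of the curve of a model is blown up first. -/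
theorem exists_energyB_down [FiniteDimensional ℂ V] {X T : Set V} {q : V} {m j : ℕ} {Ω : V → V → V → ℂ} {κ : Type} [Fintype κ]
    {Q : κ → V → ℂ} {D : ℕ} (h : ModelS X T m j Ω Q D) (hq : q ∈ T) {θ κ₁ : ℝ} (hθ : 0 < θ) (hθ1 : θ < 1) (hκ₁ : 0 < κ₁) {N : ℕ}
    (L : V ≃L[ℂ] EN N) :
    ∃ (r : ℕ) (l : Fin r → V →L[ℂ] ℂ) (N' : ℕ) (L' : (Fin r → V) ≃L[ℂ] EN N') (M : ℕ) (c₀ C k : ℝ) (g : (ℂ → Fin r → V) → ℂ → ℝ)
      (pn : (Fin r → V) → ℝ) (D₁ : ℕ), Ker l q ∧ 1 ≤ M ∧ 0 < k ∧ k ≤ κ₁ ∧ k ≤ 1 / 4 ∧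
      EnergyB (blow l X) (total l X T) (2 * m) j (om l j Ω) (fun y => ‖L' y‖)
        (rhoS (fun (p : κ × Fin r) (y : Fin r → V) => Q p.1 (y p.2)) D) M c₀ C g pn D₁ θ ∧
      (∀ y ∈ blow l X, TBAt (blow l X) (total l X T) (2 * m) (om l j Ω) g pn k y) ∧
      EnergyB X T m j Ω (fun x => ‖L x‖) (rhoS Q D) M c₀ C (down l X T g) (fun x => pn (phi l x)) (2 * D₁) θ := by
  have hX := h.surf
  have hTX : T ⊆ X := h.eqs.sub
  have hT := h.eqs.cone h.surf.smul
  have hqne : q ≠ 0 := fun e => hX.zero (e ▸ hTX hq)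
  obtain ⟨r, l, hl⟩ := exists_forms hqne
  have hr : 0 < r := by
    rcases Nat.eq_zero_or_pos r with h0 | h0
    · exfalso
      subst h0
      obtain ⟨σ, τ, hσ, hσ0⟩ := hX.chart q (hTX hq)
      obtain ⟨p, hp, hp2⟩ := ((h.thin σ τ hσ).and_eventually hσ.σ_mem).exists
      obtain ⟨c, hc⟩ := (hl (σ p)).1 fun i => i.elim0
      have hc0 : c ≠ 0 := by
        rintro rfl
        rw [zero_smul] at hc
        exact hX.zero (hc ▸ hp2)
      exact hp (hc ▸ hT q hq c hc0)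
    · exact h0
  obtain ⟨N', L', hL'⟩ := exists_equiv_sum L r hr
  obtain ⟨M, c₀, C, k, g, pn, D₁, hM, hk0, hk1, hk2, E, tb⟩ := energyB_of_model (modelS_blow h hl hq) hθ hθ1 hκ₁ N' L'
  exact ⟨r, l, N', L', M, c₀, C, k, g, pn, D₁, hl, hM, hk0, hk1, hk2, E, tb, energyB_blow h hl hq L L' hL' hM E⟩

end Pool.Agent.H90.SG

end
end

section

/-!
# SG HasU: the weighted energy of a surface with a curve, with a two-sided bound in a sector at a point of the curve

`U (F, z) = g F z * pn (F z) ^ (- θ j / (m D₁))`.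
-/

set_option autoImplicit false

open Topology Filter Metric

noncomputable section

namespace Pool.Agent.H90.SG

open Pool.Agent.H36.BP (EN fs wd Sub)
open Pool.Agent.H17BP (Pr Surface IsForm NoZeros NodalAt Eqs IsChart ResAt exists_forms)
open Pool.Agent.H14.KB (rhoS)
open Pool.Agent.H62.BU (blow total Ker phi om)
open Pool.Agent.SY (Ent Energy ModelS IsLiftB down modelS_blow exists_equiv_sum)
open Pool.Agent.H36.TB (oC sm EnergyB TBAt)

variable {V : Type} [NormedAddCommGroup V] [NormedSpace ℂ V]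

/-- MODULE HasU: at a point of the curve, in the chart `(σ, τ)` whose first axis is not in the secant cone of the curve. -/
theorem exists_energy_sector [FiniteDimensional ℂ V] {X T : Set V} {m j : ℕ} {Ω : V → V → V → ℂ} {κ : Type} [Fintype κ]
    {Q : κ → V → ℂ} {D : ℕ} (h : ModelS X T m j Ω Q D) {σ : ℂ × ℂ → V} {τ : V → ℂ × ℂ} (hσ : IsChart X σ τ) (hq : σ 0 ∈ T)
    (hT : ∀ᶠ p in 𝓝 (0 : ℂ × ℂ), p.1 ≠ 0 → σ (p.1, p.1 * p.2) ∉ T)
    {θ κ₁ : ℝ} (hθ : 0 < θ) (hθ1 : θ < 1) (hκ₁ : 0 < κ₁) {N : ℕ} (L : V ≃L[ℂ] EN N) :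
    ∃ (M : ℕ) (c₀ C k : ℝ) (g : (ℂ → V) → ℂ → ℝ) (pn : V → ℝ) (D₁ : ℕ), 1 ≤ M ∧ 0 < k ∧ k ≤ κ₁ ∧ k ≤ 1 / 4 ∧
      EnergyB X T m j Ω (fun x => ‖L x‖) (rhoS Q D) M c₀ C g pn D₁ θ ∧ TBSec X T m j Ω θ k σ τ g pn D₁ := by
  obtain ⟨r, l, N', L', M, c₀, C, k, g, pn, D₁, hl, hM, hk0, hk1, hk2, E, tb, E'⟩ := exists_energyB_down h hq hθ hθ1 hκ₁ L
  refine ⟨M, c₀, C, k, down l X T g, fun x => pn (phi l x), 2 * D₁, hM, hk0, hk1, hk2, E', ?_⟩
  exact Pool.Agent.SG.box h.surf h.form h.one_m hl h.eqs.sub (h.eqs.cone h.surf.smul) hq E tb hσ rfl hT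

end Pool.Agent.H90.SG

end
end

section

/-!
# SY F1G: the curves of order two lie in a proper closed subset, from step (b)
-/

set_option autoImplicit false

open Topology Filter Metric MvPolynomial

noncomputable section

namespace Pool.Agent.SY

open Pool.Agent.H36.BP (EN fs wd Sub OrdTwo isCone_transport)
open Pool.Agent.H14.PP (IsCone)
open Pool.Agent.H22.W (PseudoLength tan_entire)
open Pool.Agent.H17 (PN VanishesAt HolomorphicInto ZariskiClosedIn puncturedDisc)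
open Pool.Agent.H17BP (Surface)
open Pool.Agent.H62.FC (Homog)
open Pool.Agent.H62.EF (Charts)
open Pool.Agent.H17LG.Variety (FunField)
open Pool.Agent.H13.SM (conTan cone)
open Pool.Agent.H13.OT (OrderTwo)
open Pool.Agent.H17EF (projVar coneE GT LE zariskiClosure)
open Pool.Agent.H14.V (IsNull IsLift isLift_mk average_toLp partA)
open Pool.Agent.H22.WL (evF evF_diff evF_smul vanishesAt_lift)
open Pool.Agent.H5.BD (BC)

variable {N : ℕ} {P : Ideal (MvPolynomial (Fin (N + 1)) ℂ)}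

/-- from the characteristic function to the averages -/
private theorem orderTwo_of_ordTwo {F : ℂ → EN N} {f : ℂ → PN N} (h : IsLift F f) (hF : OrdTwo F) : OrderTwo f := by
  have h1 : OrdTwo fun z => (LE N).symm (F z) := Pool.Agent.H17EF.ordTwo_symm hF
  have h2 : Differentiable ℂ fun z => (LE N).symm (F z) := (LE N).symm.differentiable.comp h.1
  have h3 : ∀ z, (LE N).symm (F z) ≠ 0 := fun z => (h.2 z).1
  have h4 : ∀ z, Pool.Agent.H17BP.HolP (fun z => (LE N).symm (F z)) z := by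
    intro z
    exact ⟨fun z => (LE N).symm (F z), h2.analyticAt z, h3 z, Eventually.of_forall fun w => ⟨1, one_ne_zero, by simp⟩⟩
  have h5 := Pool.Agent.H13.OT.OrdTwo.orderTwo h3 h4 h1
  have h6 : f = fun z => Projectivization.mk ℂ ((LE N).symm (F z)) (h3 z) := by
    funext z
    exact (h.2 z).2
  rw [h6]
  exact h5

private theorem vanishesAt_mul_left {Q R : MvPolynomial (Fin (N + 1)) ℂ} {x : PN N} (h : VanishesAt Q x) : VanishesAt (Q * R) x := by
  unfold VanishesAt at h ⊢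
  rw [map_mul, h, zero_mul]

private theorem vanishesAt_mul_right {Q R : MvPolynomial (Fin (N + 1)) ℂ} {x : PN N} (h : VanishesAt R x) : VanishesAt (Q * R) x := by
  unfold VanishesAt at h ⊢
  rw [map_mul, h, mul_zero]

/-- **F1**: the curves of order two lie in a proper closed subset -/
theorem orderTwo_degenerate_of [P.IsPrime] {z : Fin 2 → FunField P} (hP : Homog P) (hz : IsTranscendenceBasis ℂ z)
    (hsm : ∀ y : Fin (N + 1) → ℂ, y ≠ 0 → (∀ Q ∈ P, eval y Q = 0) → Module.finrank ℂ (conTan P y) ≤ 3) (hgt : GT P 2)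
    (hb : StepBAll P) (n : PseudoLength (coneE P)) {R : MvPolynomial (Fin (N + 1)) ℂ} {d : ℕ} (hR : R.IsHomogeneous d) (hRP : R ∉ P)
    (hnull : ∀ f : ℂ → PN N, HolomorphicInto f Set.univ → OrderTwo f → (∀ z, f z ∈ projVar P) → (∃ z w, f z ≠ f w) → IsNull n f →
      ∀ z, VanishesAt R (f z)) :
    ∃ Ξ : Set (PN N), ZariskiClosedIn (projVar P) Ξ ∧ Ξ ≠ projVar P ∧
      ∀ f : ℂ → PN N, HolomorphicInto f Set.univ → OrderTwo f → (∀ z, f z ∈ projVar P) → (∃ z w, f z ≠ f w) → ∀ z, f z ∈ Ξ := by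
  have hS : Surface (cone P) := Pool.Agent.H13.SM.surface_cone hP hz fun y hy => hsm y hy.1 hy.2
  have hX : IsCone (coneE P) := isCone_transport (LE N) hS
  have hch : Charts (coneE P) := Pool.Agent.H17EF.charts hS
  obtain ⟨R₀, d₀, hR₀, hR₀P, hstep⟩ := hb n R d hR hRP hnull
  obtain ⟨Q, D, M, c₀, C, g, hQ, hQP, hRQ', hM, E⟩ := energy_surface hP hz hsm hgt (hR.mul hR₀)
    (fun h => ((inferInstance : P.IsPrime).mem_or_mem h).elim hRP hR₀P)
  have hRQ : ∀ x : EN N, eval x.ofLp R = 0 → eval x.ofLp Q = 0 := fun x hx => hRQ' x (by rw [map_mul, hx, zero_mul])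
  have hst : StepB (coneE P) (zer P Q) n :=
    hstep Q D hQ hQP fun x hx => ⟨hx.1, hRQ' x (by rw [map_mul, hx.2, mul_zero])⟩
  obtain ⟨T, hT⟩ : ∃ T : Set (EN N), T = {x | x ∈ coneE P ∧ eval x.ofLp Q = 0} := ⟨_, rfl⟩
  rw [← hT] at E
  unfold zer at hst
  rw [← hT] at hst
  have hxne : ∀ x ∈ coneE P, ‖x‖ ≠ 0 := fun x hx => norm_ne_zero_iff.2 fun h => hX.zero_notMem (h ▸ hx)
  have hTs : ∀ x ∈ T, ∀ c : ℂ, c ≠ 0 → c • x ∈ T := by
    intro x hx c hc
    rw [hT] at hx ⊢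
    refine ⟨hX.smul_mem x hx.1 c hc, ?_⟩
    have h1 := evF_smul hQ c x
    unfold evF at h1
    rw [h1, hx.2, mul_zero]
  have hρ0 : ∀ x ∈ coneE P, 0 ≤ ‖eval x.ofLp Q‖ / ‖x‖ ^ D := fun x _ => by positivity
  have hρ : ∀ x ∈ coneE P, x ∉ T → 0 < ‖eval x.ofLp Q‖ / ‖x‖ ^ D := by
    intro x hx hxT
    have h1 : eval x.ofLp Q ≠ 0 := fun h => hxT (by rw [hT]; exact ⟨hx, h⟩)
    have h2 : 0 < ‖x‖ := lt_of_le_of_ne (norm_nonneg _) (Ne.symm (hxne x hx))
    have h3 : 0 < ‖eval x.ofLp Q‖ := norm_pos_iff.2 h1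
    positivity
  have hρc : ContinuousOn (fun x : EN N => ‖eval x.ofLp Q‖ / ‖x‖ ^ D) (coneE P) := by
    refine ContinuousOn.div ?_ (continuous_norm.pow D).continuousOn fun x hx => pow_ne_zero _ (hxne x hx)
    exact (evF_diff Q).continuous.norm.continuousOn
  have hρs : ∀ x ∈ coneE P, ∀ c : ℂ, c ≠ 0 → ‖eval (c • x).ofLp Q‖ / ‖c • x‖ ^ D = ‖eval x.ofLp Q‖ / ‖x‖ ^ D := by
    intro x _ c hc
    have h1 := evF_smul hQ c x
    unfold evF at h1
    rw [h1, norm_mul, norm_pow, norm_smul, mul_pow]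
    exact mul_div_mul_left _ _ (pow_ne_zero _ (norm_ne_zero_iff.2 hc))
  have hTi : ∀ F : ℂ → EN N, Differentiable ℂ F → (∀ z, F z ∈ coneE P) → (∃ z, F z ∉ T) → ∀ z₀, ∀ᶠ z in 𝓝[≠] z₀, F z ∉ T := by
    intro F hF hFX hne z₀
    have h1 : Differentiable ℂ fun z => evF Q (F z) := (evF_diff Q).comp hF
    have h2 : AnalyticAt ℂ (fun z => evF Q (F z)) z₀ := h1.analyticAt z₀
    rcases h2.eventually_eq_zero_or_eventually_ne_zero with h3 | h3
    · exfalso
      have h4 : AnalyticOnNhd ℂ (fun z => evF Q (F z)) Set.univ := fun z _ => h1.analyticAt z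
      have h5 := h4.eqOn_zero_of_preconnected_of_eventuallyEq_zero isPreconnected_univ (Set.mem_univ z₀) h3
      obtain ⟨z, hz⟩ := hne
      apply hz
      rw [hT]
      exact ⟨hFX z, h5 (Set.mem_univ z)⟩
    · filter_upwards [h3] with z hz hzT
      rw [hT] at hzT
      exact hz hzT.2
  have hnull' : ∀ F : ℂ → EN N, Differentiable ℂ F → (∀ z, F z ∈ coneE P) → OrdTwo F → (∀ z, n.toFun (F z) (deriv F z) = 0) →
      (∀ z, F z ∈ T) ∨ ∀ z w, ∃ c : ℂ, F z = c • F w := by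
    intro F hF hFX hFo hF0
    have h0 : ∀ z, (F z).ofLp ≠ 0 := fun z => (hFX z).1
    have hl := isLift_mk hF h0
    by_cases hcon : ∃ z w, (fun z => Projectivization.mk ℂ (F z).ofLp (h0 z)) z ≠ (fun z => Projectivization.mk ℂ (F z).ofLp (h0 z)) w
    · left
      intro z
      have h1 := hnull _ hl.holomorphicInto (orderTwo_of_ordTwo hl hFo) (fun z => (hl.mem_iff hP z).2 (hFX z)) hcon ⟨F, hl, hF0⟩ z
      rw [vanishesAt_lift hl hR] at h1
      rw [hT]
      exact ⟨hFX z, hRQ _ h1⟩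
    · right
      push Not at hcon
      intro z w
      have h1 := hcon z w
      simp only at h1
      rw [Projectivization.mk_eq_mk_iff'] at h1
      obtain ⟨a, ha⟩ := h1
      exact ⟨a, WithLp.ofLp_injective 2 ha.symm⟩
  obtain ⟨c, L, hc, hBC⟩ := bounded_distortion_of (rho := fun x : EN N => ‖eval x.ofLp Q‖ / ‖x‖ ^ D) hX hch E n hst hρ0 hρ hρc hρs hTi hTs hnull'
  obtain ⟨hA1, S, hSf, hSb, hSe⟩ := partA hP hz hsm hgt hc L
  have hSX : ∀ g ∈ S, ∀ z, g z ∈ projVar P := fun g hg => (hSb hg).1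
  refine ⟨{x | x ∈ projVar P ∧ ∀ A ∈ ({Q} : Set (MvPolynomial (Fin (N + 1)) ℂ)), VanishesAt A x} ∪ ⋃ g ∈ S, zariskiClosure g, ?_, ?_, ?_⟩
  · refine Pool.Agent.H17EF.closed_union ⟨{Q}, ?_, rfl⟩
      (Pool.Agent.H17EF.closed_biUnion hSf fun g hg => Pool.Agent.H17EF.closed_zariskiClosure (hSX g hg))
    rintro A hA
    rw [Set.mem_singleton_iff.1 hA]
    exact ⟨D, hQ⟩
  · intro heq
    have hXi : ∃ i, (X i : MvPolynomial (Fin (N + 1)) ℂ) ∉ P := Pool.Agent.H62.FC.exists_X_notMem (r := 2) (by norm_num) ⟨z, hz⟩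
    obtain ⟨A, m, hA, hAP, hAU⟩ := Pool.Agent.H17EF.exists_prod (P := P) hSf (A := fun f => zariskiClosure f) (by
      intro f hf
      obtain ⟨B, k, hB, hBP, hBf⟩ := (hA1 f (hSb hf)).2
      exact ⟨B, k, hB, hBP, fun x hx => hx B k hB hBf⟩)
    obtain ⟨x, hx, hxA⟩ := Pool.Agent.H17EF.exists_point hP hXi (Q := Q * A)
      (fun h => ((inferInstance : P.IsPrime).mem_or_mem h).elim hQP hAP) (hQ.mul hA)
    apply hxA
    rw [← heq] at hx
    rcases hx with hx | hx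
    · exact vanishesAt_mul_left (hx.2 Q rfl)
    · exact vanishesAt_mul_right (hAU x hx)
  · intro f hf hfo hfX hfn
    obtain ⟨F₀, A, hF₀, hFf, hA⟩ := id hfo
    obtain ⟨A', hA'⟩ := average_toLp hF₀ (fun z => (hFf z).1) hA
    obtain ⟨F, hFdef⟩ : ∃ F : ℂ → EN N, F = fun z => WithLp.toLp 2 (F₀ z) := ⟨_, rfl⟩
    have hl : IsLift F f := by
      rw [hFdef]
      refine ⟨?_, fun z => hFf z⟩
      exact (LE N).differentiable.comp hF₀
    have hFX : ∀ z, F z ∈ coneE P := fun z => (hl.mem_iff hP z).1 (hfX z)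
    obtain ⟨b, hb⟩ : ∃ b : ℝ, b = n.toFun (F 0) (deriv F 0) := ⟨_, rfl⟩
    have hconst : ∀ z, n.toFun (F z) (deriv F z) = b := fun z => by
      rw [hb]
      refine Pool.Agent.H22.W.const_length hX hch n hl.1 hFX (A := A') ?_ z 0
      rw [hFdef]
      exact hA'
    have hb0 : 0 ≤ b := by
      rw [hb]
      exact n.nonneg _ _ (tan_entire hl.1 hFX 0)
    rcases hb0.eq_or_lt with h0 | hpos
    · intro y
      left
      refine ⟨hfX y, fun B hB => ?_⟩
      rw [Set.mem_singleton_iff.1 hB]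
      have h1 := hnull f hf hfo hfX hfn ⟨F, hl, fun z => by rw [hconst z, h0]⟩ y
      rw [vanishesAt_lift hl hR] at h1
      rw [vanishesAt_lift hl hQ]
      exact hRQ _ h1
    · by_cases hFT : ∀ y, F y ∈ T
      · intro y
        left
        refine ⟨hfX y, fun B hB => ?_⟩
        rw [Set.mem_singleton_iff.1 hB, vanishesAt_lift hl hQ]
        have := hFT y
        rw [hT] at this
        exact this.2
      · push Not at hFT
        obtain ⟨y₀, hy₀⟩ := hFT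
        have hbc : ((b : ℝ) : ℂ) ≠ 0 := by exact_mod_cast hpos.ne'
        have hd' : Differentiable ℂ fun z => F (0 + ((b⁻¹ : ℝ) : ℂ) * z) :=
          hl.1.comp ((differentiable_id.const_mul _).const_add 0)
        have hcls : Cls T n fun z => F (0 + ((b⁻¹ : ℝ) : ℂ) * z) := by
          refine ⟨⟨hd', fun z => hFX _, ⟨(b : ℂ) * y₀, ?_⟩⟩, fun z => ?_⟩
          · have : (0 : ℂ) + ((b⁻¹ : ℝ) : ℂ) * ((b : ℂ) * y₀) = y₀ := by
              push_cast
              field_simp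
              ring
            rw [this]
            exact hy₀
          · rw [n.comp_affine hl.1 hFX _ 0 z, hconst, Complex.norm_real, Real.norm_of_nonneg (inv_pos.2 hpos).le,
              inv_mul_cancel₀ hpos.ne']
        have hmem := hBC _ hcls
        have hl' : IsLift (fun z => F (0 + ((b⁻¹ : ℝ) : ℂ) * z)) fun z => f (0 + ((b⁻¹ : ℝ) : ℂ) * z) :=
          ⟨hd', fun z => hl.2 _⟩
        obtain ⟨g', hg', a', b', ha', hfg⟩ := hSe (fun z => f (0 + ((b⁻¹ : ℝ) : ℂ) * z)) ⟨fun z => hfX _, _, hl', hmem.2.2⟩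
        intro y
        right
        refine Set.mem_biUnion hg' ?_
        have h1 := hfg ((b : ℂ) * y)
        have h2 : (0 : ℂ) + ((b⁻¹ : ℝ) : ℂ) * ((b : ℂ) * y) = y := by
          push_cast
          field_simp
          ring
        rw [h2] at h1
        rw [h1]
        intro B k hB hBg
        exact hBg _

end Pool.Agent.SY

end
end

section

/-!
# SG Bub: no bubble at a point where a suitable curve `T` exists
-/

set_option autoImplicit false

open Topology Filter Metric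

noncomputable section

namespace Pool.Agent.SG

open Pool.Agent.H36.BP (EN)
open Pool.Agent.H36.TB (EnergyB oC sm)
open Pool.Agent.H14.PP (IsCone CurveAt)
open Pool.Agent.H17BP (Surface IsChart IsForm Eqs)
open Pool.Agent.H22.W (PseudoLength)
open Pool.Agent.H74.NB (CC Obj)
open Pool.Agent.UC (RatC)
open Pool.Agent.SY (Ent Energy BubbleAt Cls ModelS)
open Pool.Agent.H90.SG (TBSec exists_energy_sector)

variable {N : ℕ} {X T T₀ : Set (EN N)}

/-- the exponents -/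
theorem exponents {m j M μ : ℕ} (hm : 1 ≤ m) (hM : 1 ≤ M) (hμ : μ < j * M) :
    ∃ θ : ℝ, 0 < θ ∧ θ < 1 ∧ ∀ k : ℝ, 0 < k → 1 + (1 - θ) * j / (2 * m) + (μ : ℝ) / m - 1 - k < θ * j / m * M := by
  have hm0 : (0 : ℝ) < m := by exact_mod_cast hm
  have hM0 : (1 : ℝ) ≤ M := by exact_mod_cast hM
  have hj0 : (0 : ℝ) ≤ j := Nat.cast_nonneg j
  have hjM : (0 : ℝ) ≤ (j : ℝ) * M := by positivity
  have hμ' : (μ : ℝ) + 1 ≤ j * M := by exact_mod_cast hμ
  have hd : (0 : ℝ) < 2 * (j * M) + 2 := by positivity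
  refine ⟨1 - 1 / (2 * (j * M) + 2), ?_, ?_, ?_⟩
  · rw [sub_pos, div_lt_one hd]
    linarith
  · have : (0 : ℝ) < 1 / (2 * (j * M) + 2) := by positivity
    linarith
  · intro k hk
    set t : ℝ := 1 / (2 * (j * M) + 2) with ht
    have ht0 : 0 < t := by rw [ht]; positivity
    have ht1 : t * ((j : ℝ) / 2 + j * M) ≤ 1 := by
      rw [ht, one_div, inv_mul_le_iff₀ hd, mul_one]
      nlinarith
    have e1 : 1 + (1 - (1 - t)) * (j : ℝ) / (2 * m) + (μ : ℝ) / m - 1 - k = (t * (j / 2) + μ - k * m) / m := by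
      field_simp
      ring
    have e2 : (1 - t) * (j : ℝ) / m * M = ((1 - t) * (j * M)) / m := by ring
    rw [e1, e2]
    refine div_lt_div_of_pos_right ?_ hm0
    have h3 : 0 < k * m := by positivity
    nlinarith

/-- **No bubble**, when there is a curve `T` through the point which contains the rational curves, and whose secant cone does not contain the
direction of `H`. -/
theorem bub {κ : Type} [Fintype κ] {Q : κ → EN N → ℂ} {D m j : ℕ} {Ω : EN N → EN N → EN N → ℂ} (hMS : ModelS X T m j Ω Q D) (hc : IsCone X)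
    {n : PseudoLength X} {𝒰 : Ultrafilter ℕ} {F : ℕ → ℂ → EN N} {v : ℕ → ℂ → ℂ} {H : ℂ → EN N} {u : ℂ → ℂ} {r : ℝ} {M : ℕ}
    (hb : BubbleAt X T₀ n 𝒰 F v H u r M) (hM : 1 ≤ M) {σ : ℂ × ℂ → EN N} {τ : EN N → ℂ × ℂ} (hσ : IsChart X σ τ) (h0 : σ 0 = H 0)
    (hd : deriv (fun z => τ (H z)) 0 = (1, 0)) (hq : σ 0 ∈ T) (hT : ∀ᶠ p in 𝓝 (0 : ℂ × ℂ), p.1 ≠ 0 → σ (p.1, p.1 * p.2) ∉ T)
    (hrat : ∀ (d : ℕ) (K K' : ℂ → EN N), 1 ≤ d → d ≤ M → RatC X d K K' → ∀ z, K z ∈ T) {μ : ℕ} (hμ : μ < j * M)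
    (hord : ∃ B : ℝ, 1 ≤ B ∧ ∀ᶠ p in 𝓝 (0 : ℂ × ℂ), ‖p.1‖ ^ μ ≤ B * ‖oC Ω σ (p.1, p.1 * p.2)‖ ∧
      ‖oC Ω σ (p.1, p.1 * p.2)‖ ≤ B * ‖p.1‖ ^ μ) : False := by
  have hX := hMS.surf
  obtain ⟨Φ, G, hobj, hΦ, hG0, hGd⟩ := bub_obj hX hMS.eqs hb hσ h0 hd hT
  have hm0 : (0 : ℝ) < m := by exact_mod_cast hMS.one_m
  have hj0 : (0 : ℝ) < j := by exact_mod_cast hMS.one_j
  obtain ⟨θ, hθ, hθ1, hcond⟩ := exponents (m := m) hMS.one_m hM hμ
  obtain ⟨ME, c₀, C, k, g, pn, D₁, -, hk, -, hk1, E, tb⟩ :=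
    exists_energy_sector hMS hσ hq hT hθ hθ1 one_pos (ContinuousLinearEquiv.refl ℂ (EN N))
  obtain ⟨U, r₁, C₁, ε, B, hr₁, -, hC₁, hε, hB, hU, hmax, htb⟩ := bub_data hc hX hMS.form hMS.one_m hMS.one_j (hMS.eqs.cone hX.smul) hθ hθ1 E hσ tb
    hobj hΦ hrat hord
  refine core hX hσ hM hobj (hΦ.mono fun i hi z _ => hi.mem z) hG0 hGd (a := 1 + (1 - θ) * j / (2 * m) + (μ : ℝ) / m) (b := θ * j / m) (k := k)
    (ε := ε) (B := B) (C₁ := C₁) (r₁ := r₁) (U := fun i z => |U i z|) ?_ ?_ hk (by linarith) (hcond k hk) hε hr₁ (fun i z => abs_nonneg _) ?_ ?_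
  · have h1 : 0 ≤ (1 - θ) * (j : ℝ) / (2 * m) := div_nonneg (mul_nonneg (by linarith) hj0.le) (by positivity)
    have h2 : (0 : ℝ) ≤ (μ : ℝ) / m := by positivity
    linarith
  · positivity
  · filter_upwards [hU, hmax] with i h1 h2
    simp only [abs_of_nonneg (h1 _)]
    exact h2
  · filter_upwards [hU, htb] with i h1 h2 z _ c hc0 g1 g2 g3
    simp only [abs_of_nonneg (h1 _)]
    exact (h2 z c hc0 g1 g2 g3).2

end Pool.Agent.SG

end
end
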