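import Pool.Agent.H94.G6.M110
import Pool.Agent.H94.G6.M63
import Pool.Agent.H94.G6.M71
import Pool.Agent.H94.G6.M90
import Pool.Agent.H94.G6.M95

/-! The parts of this file: H14.KB.KobK, MQ.Core, MQ.CoreMn, MQ3.AsmA, SG2.BubA. -/

section

/-!
# Kobayashi hyperbolicity modulo a curve and blow-ups: open surfaces
-/

open Topology Filter

noncomputable section

namespace Pool.Agent.H14.KB

open Pool.Agent Pool.Agent.H17BP
open Pool.Agent.H62.BU (blow total Ker phi)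

variable {V : Type} [NormedAddCommGroup V] [NormedSpace ℂ V]
variable {ι : Type} [Fintype ι] {l : ι → V →L[ℂ] ℂ} {X K B : Set V} {q : V} {κ : Type} [Fintype κ]
  {Q : κ → V → ℂ} {D : ℕ}

theorem kobK_blow (hX : Surface X) (hl : Ker l q) (he : Eqs X B Q D) (hKX : K ⊆ X)
    (hKs : ∀ x ∈ K, ∀ c : ℂ, c ≠ 0 → c • x ∈ K) (hq : q ∈ B)
    (hk : Kob (total l X K) (fun (p : κ × ι) (y : ι → V) => Q p.1 (y p.2)) D) : Kob K Q D := by
  obtain ⟨M, C, hM, hC, hk⟩ := hk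
  have hBX := he.sub
  have hB := he.cone hX.smul
  have hq0 : q ≠ 0 := fun h => hX.zero (h ▸ hBX hq)
  refine ⟨M, 4 * C, hM, by positivity, fun f F hf hF hF0 hfF => ?_⟩
  have hF0' : 0 < ‖F 0‖ := norm_pos_iff.mpr hF0
  have hf0 := hKX (hf 0 (by simp)).2
  have hFX : F 0 ∈ X := (Pr.mem_iff hX.smul hfF.self_of_nhds).1 hf0
  by_cases hFB : F 0 ∈ B
  · refine ⟨0, ?_⟩
    have h1 : rhoS Q D (F 0) = 0 := by
      unfold rhoS
      have h2 : (fun i => Q i (F 0)) = 0 := funext fun i => ((he.mem_iff _).1 hFB).2 i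
      rw [h2, norm_zero, zero_div]
    rw [h1, zero_pow (by omega), zero_mul]
    positivity
  have hfB : f 0 ∉ B := fun h => hFB ((Pr.mem_iff hB hfF.self_of_nhds).1 h)
  -- the shifted curve
  have hnorm : ∀ z : ℂ, ‖z‖ < 1 / 2 → ‖z + 1 / 4‖ < 1 := by
    intro z hz
    have h1 : ‖(1 / 4 : ℂ)‖ = 1 / 4 := by norm_num
    have h2 := norm_add_le z (1 / 4 : ℂ)
    rw [h1] at h2
    linarith
  have hsh : ∀ z : ℂ, z ≠ 0 → ‖z‖ < 1 / 2 → HolP (fun z => f (z + 1 / 4)) z ∧ f (z + 1 / 4) ∈ X := by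
    intro z _ hz
    obtain ⟨h1, h2⟩ := hf _ (hnorm z hz)
    refine ⟨?_, hKX h2⟩
    have h3 : HolP (fun z => f (1 * z + 1 / 4)) z := HolP.comp_affine (by rw [one_mul]; exact h1)
    simpa using h3
  have hne : ∃ z : ℂ, z ≠ 0 ∧ ‖z‖ < 1 / 2 ∧ f (z + 1 / 4) ∉ B := by
    refine ⟨-(1 / 4), by norm_num, by norm_num, ?_⟩
    rw [neg_add_cancel]
    exact hfB
  have hi := isolated_of_notMem hl hB hq hq0 (fun z h1 h2 => (hsh z h1 h2).1) hne
  obtain ⟨h, h1, h2⟩ := exists_lift hX hl hq0 hsh hi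
  -- the lifted curve
  have hz1 : ∀ z : ℂ, ‖z‖ < 1 → 1 / 4 * z + -(1 / 4) ≠ 0 ∧ ‖1 / 4 * z + -(1 / 4)‖ < 1 / 2 := by
    intro z hz
    constructor
    · intro h0
      have h3 : z = 1 := by linear_combination 4 * h0
      rw [h3, norm_one] at hz
      exact lt_irrefl _ hz
    · have h3 := norm_add_le (1 / 4 * z) (-(1 / 4) : ℂ)
      rw [norm_mul, norm_neg] at h3
      have h4 : ‖(1 / 4 : ℂ)‖ = 1 / 4 := by norm_num
      rw [h4] at h3
      linarith
  set g : ℂ → ι → V := fun z => h (1 / 4 * z + -(1 / 4)) with hg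
  have hgh : ∀ z : ℂ, ‖z‖ < 1 → HolP g z ∧ g z ∈ total l X K := by
    intro z hz
    obtain ⟨h3, h4⟩ := hz1 z hz
    obtain ⟨h5, h6⟩ := h1 _ h3 h4
    refine ⟨HolP.comp_affine h5, h6, fun b hb => ?_⟩
    obtain ⟨c, hc, e⟩ := (h2 _ h3 h4 b hb).symm
    show h (1 / 4 * z + -(1 / 4)) b ∈ K
    rw [e]
    exact hKs _ (hf _ (hnorm _ h4)).2 c hc
  -- some `l b (F 0)` is not `0`
  have hlb : ∃ b, l b (F 0) ≠ 0 := by
    by_contra hcon
    push Not at hcon
    obtain ⟨c, e⟩ := (hl (F 0)).1 hcon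
    have hc : c ≠ 0 := by
      rintro rfl
      rw [zero_smul] at e
      exact hF0 e
    exact hFB (e ▸ hB q hq c hc)
  have : Nonempty ι := ⟨hlb.choose⟩
  obtain ⟨b, hbmax⟩ := Finite.exists_max fun b => ‖l b (F 0)‖
  have hb : l b (F 0) ≠ 0 := by
    obtain ⟨b', hb'⟩ := hlb
    have h3 := hbmax b'
    intro h0
    rw [h0, norm_zero] at h3
    exact hb' (norm_le_zero_iff.mp h3)
  have hb0 : 0 < ‖l b (F 0)‖ := norm_pos_iff.mpr hb
  set G : ℂ → ι → V := fun z => phi l (F (1 / 4 * z)) with hG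
  have hsc : HasDerivAt (fun z : ℂ => 1 / 4 * z) (1 / 4) 0 := by
    simpa using (hasDerivAt_id (0 : ℂ)).const_mul (1 / 4 : ℂ)
  have hsc0 : (fun z : ℂ => 1 / 4 * z) 0 = 0 := by simp
  have hscan : AnalyticAt ℂ (fun z : ℂ => 1 / 4 * z) 0 := analyticAt_const.mul analyticAt_id
  have hF1 : AnalyticAt ℂ (fun z : ℂ => F (1 / 4 * z)) 0 :=
    AnalyticAt.comp (g := F) (f := fun z : ℂ => 1 / 4 * z) (by simpa using hF) hscan
  have hGan : AnalyticAt ℂ G 0 := by
    rw [analyticAt_pi_iff]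
    intro b
    exact (((l b).analyticAt _).comp hF1).smul hF1
  have hG0 : G 0 = phi l (F 0) := by
    rw [hG]
    simp
  have hGne : G 0 ≠ 0 := by
    rw [hG0]
    exact H62.BU.phi_ne ⟨b, hb⟩
  have ht : Tendsto (fun z : ℂ => 1 / 4 * z) (𝓝 0) (𝓝 0) := by
    have := hscan.continuousAt.tendsto
    simpa using this
  have hgG : ∀ᶠ z in 𝓝 (0 : ℂ), Pr (g z) (G z) := by
    have h3 : ∀ᶠ z in 𝓝 (0 : ℂ), l b (F (1 / 4 * z)) ≠ 0 := by
      have h4 : ContinuousAt (fun z : ℂ => l b (F (1 / 4 * z))) 0 :=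
        (l b).continuous.continuousAt.comp hF1.continuousAt
      exact h4.eventually_ne (by simpa using hb)
    have h4 : ∀ᶠ z : ℂ in 𝓝 0, ‖z‖ < 1 :=
      continuous_norm.continuousAt.eventually_lt_const (by simp)
    filter_upwards [ht.eventually hfF, h3, h4] with z h5 h6 h7
    obtain ⟨h8, h9⟩ := hz1 z h7
    obtain ⟨h10, h11⟩ := h1 _ h8 h9
    obtain ⟨b₁, hb₁⟩ := H62.BU.exists_ne _ h11
    have h12 : Pr (f (1 / 4 * z)) (g z b₁) := by
      have := h2 _ h8 h9 b₁ hb₁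
      have e : 1 / 4 * z + -(1 / 4) + 1 / 4 = 1 / 4 * z := by ring
      rwa [e] at this
    have h13 : Pr (F (1 / 4 * z)) (g z b₁) := h5.symm.trans h12
    have h14 : l b (g z b₁) ≠ 0 := by
      obtain ⟨c, hc, e⟩ := h13
      intro h0
      rw [e, map_smul, h0, smul_zero] at h6
      exact h6 rfl
    have h15 := H62.BU.eq_phi (g z) h11 hb₁ h14
    have h16 := H62.BU.ne_of_ne (g z) h11 hb₁ h14
    have h17 : Pr (g z) (phi l (g z b₁)) := ⟨_, inv_ne_zero h16, h15⟩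
    obtain ⟨c, hc, e⟩ := h13.symm
    refine h17.trans ⟨c ^ 2, pow_ne_zero _ hc, ?_⟩
    rw [hG, e, H62.BU.phi_smul]
  obtain ⟨a', ha'⟩ := hk g G hgh hGan hGne hgG
  -- the derivative
  have hFd : HasDerivAt F (deriv F 0) 0 := hF.differentiableAt.hasDerivAt
  have hF1d : HasDerivAt (fun z : ℂ => F (1 / 4 * z)) ((1 / 4 : ℂ) • deriv F 0) 0 := by
    have h3 : HasDerivAt F (deriv F 0) ((fun z : ℂ => 1 / 4 * z) 0) := by rw [hsc0]; exact hFd
    exact h3.scomp 0 hsc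
  have hGd : deriv G 0 b = (1 / 4 : ℂ) • (l b (deriv F 0) • F 0 + l b (F 0) • deriv F 0) := by
    have h3 : HasDerivAt (fun z : ℂ => l b (F (1 / 4 * z))) (l b ((1 / 4 : ℂ) • deriv F 0)) 0 :=
      (l b).hasFDerivAt.comp_hasDerivAt (0 : ℂ) hF1d
    rw [map_smul, smul_eq_mul] at h3
    have h4 := h3.smul hF1d
    have h5 : HasDerivAt (fun z => G z b) (deriv G 0 b) 0 :=
      (hasDerivAt_pi.1 hGan.differentiableAt.hasDerivAt) b
    have h6 : (fun z => G z b) = fun z : ℂ => l b (F (1 / 4 * z)) • F (1 / 4 * z) := rfl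
    rw [h6] at h5
    have h7 := h5.unique h4
    rw [h7]
    simp only [mul_zero]
    module
  refine ⟨4 * a' - l b (deriv F 0) / l b (F 0), ?_⟩
  set a : ℂ := 4 * a' - l b (deriv F 0) / l b (F 0) with ha
  have h3 : deriv G 0 b - a' • G 0 b = (l b (F 0) / 4) • (deriv F 0 - a • F 0) := by
    rw [hGd, hG0]
    show _ - a' • (l b (F 0) • F 0) = _
    rw [ha]
    have h4 : (l b (F 0) / 4) * (4 * a' - l b (deriv F 0) / l b (F 0)) =
        l b (F 0) * a' - l b (deriv F 0) / 4 := by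
      field_simp
    have h5 : (l b (F 0) / 4) • (deriv F 0 - (4 * a' - l b (deriv F 0) / l b (F 0)) • F 0) =
        (l b (F 0) / 4) • deriv F 0 - (l b (F 0) * a' - l b (deriv F 0) / 4) • F 0 := by
      rw [smul_sub, smul_smul, h4]
    rw [h5]
    module
  have h4 : ‖l b (F 0)‖ / 4 * ‖deriv F 0 - a • F 0‖ ≤ ‖deriv G 0 - a' • G 0‖ := by
    have h5 := norm_le_pi_norm (deriv G 0 - a' • G 0) b
    have h6 : (deriv G 0 - a' • G 0) b = deriv G 0 b - a' • G 0 b := rfl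
    rw [h6, h3, norm_smul, norm_div] at h5
    have h7 : ‖(4 : ℂ)‖ = 4 := by norm_num
    rwa [h7] at h5
  have h5 : ‖G 0‖ ≤ ‖l b (F 0)‖ * ‖F 0‖ := by
    rw [hG0]
    refine (pi_norm_le_iff_of_nonneg (by positivity)).mpr fun b' => ?_
    show ‖l b' (F 0) • F 0‖ ≤ _
    rw [norm_smul]
    exact mul_le_mul_of_nonneg_right (hbmax b') (norm_nonneg _)
  have h6 := rhoS_phi (l := l) he.smul hF0 hb hbmax
  rw [hG0] at ha'
  rw [hG0] at h4 h5
  have h7 : rhoS Q D (F 0) ^ M ≤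
      rhoS (fun (p : κ × ι) (y : ι → V) => Q p.1 (y p.2)) D (phi l (F 0)) ^ M :=
    pow_le_pow_left₀ (rhoS_nonneg _ _ _) h6 M
  have h8 : rhoS Q D (F 0) ^ M * (‖l b (F 0)‖ / 4 * ‖deriv F 0 - a • F 0‖) ≤
      C * (‖l b (F 0)‖ * ‖F 0‖) := by
    refine le_trans ?_ (ha'.trans (mul_le_mul_of_nonneg_left h5 hC))
    exact mul_le_mul h7 h4 (by positivity) (pow_nonneg (rhoS_nonneg _ _ _) _)
  have h9 : ‖l b (F 0)‖ * (rhoS Q D (F 0) ^ M * ‖deriv F 0 - a • F 0‖) ≤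
      ‖l b (F 0)‖ * (4 * C * ‖F 0‖) := by linarith
  exact le_of_mul_le_mul_left h9 hb0

end Pool.Agent.H14.KB

end
end

section

/-!
# MQ Core: the pack of a curve from an atlas along the curve

The global function is `E = - log ∑ χ k exp (- e k)`.  Near a point of `U i` it is `e i - mm i`, where `mm i = log ∑ χ k exp (e i - e k)` is of class `C²`,
and the global field is `grad (mm i) + η i`.
-/

set_option autoImplicit false

open Topology Filter Metric MeasureTheory Laplacian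

noncomputable section

namespace Pool.Agent.MQ.Core

open Pool.Agent.H30M (tau avg LogSing rhoR)
open Pool.Agent.H36.BP (EN)

theorem ev_nhds {p : ℂ → Prop} {z : ℂ} (h : ∀ᶠ w in 𝓝[≠] z, p w) : ∀ᶠ w in 𝓝[≠] z, ∀ᶠ x in 𝓝 w, p x := by
  have h2 := eventually_eventually_nhdsWithin.2 h
  filter_upwards [h2, self_mem_nhdsWithin] with w hw hne
  rwa [IsOpen.nhdsWithin_eq isOpen_compl_singleton hne] at hw

theorem ev_all {p : ℂ → Prop} {z : ℂ} (h : ∀ᶠ x in 𝓝[≠] z, p x) : ∀ᶠ w in 𝓝 z, ∀ᶠ x in 𝓝[≠] w, p x := by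
  have h1 := ev_nhds h
  rw [eventually_nhdsWithin_iff] at h1
  filter_upwards [h1] with w hw
  by_cases hwz : w = z
  · rw [hwz]; exact h
  · exact (hw hwz).filter_mono nhdsWithin_le_nhds

/-- gradient of `log |w - z|` -/
theorem gr_log {z w : ℂ} (h : w ≠ z) : gr (fun w => Real.log ‖w - z‖) w = (starRingEnd ℂ) (1 / (w - z)) := by
  have h1 := gr_log_norm (h := fun w => w - z) (z := w) (by fun_prop) (sub_ne_zero.2 h)
  have e : deriv (fun w : ℂ => w - z) w = 1 := by simp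
  rwa [e] at h1

theorem diff_log {z w : ℂ} (h : w ≠ z) : DifferentiableAt ℝ (fun w : ℂ => Real.log ‖w - z‖) w :=
  (Pool.Agent.H30M.contDiffAt_log_norm (h := fun ζ => ζ - z) (by fun_prop) (sub_ne_zero.2 h)).differentiableAt (by norm_num)

theorem gr_cls {c : ℝ} {s e : ℂ → ℝ} {z : ℂ} (hs : ContDiffAt ℝ 2 s z) (he : e =ᶠ[𝓝[≠] z] fun w => c * Real.log ‖w - z‖ + s w) :
    ∀ᶠ w in 𝓝[≠] z, gr e w = (c : ℂ) * (starRingEnd ℂ) (1 / (w - z)) + gr s w := by
  have h1 : ∀ᶠ w in 𝓝[≠] z, ContDiffAt ℝ 2 s w := (hs.eventually (by simp)).filter_mono nhdsWithin_le_nhds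
  filter_upwards [ev_nhds he, h1, self_mem_nhdsWithin] with w hw h2 hne
  rw [gr_congr (show e =ᶠ[𝓝 w] fun w => c * Real.log ‖w - z‖ + s w from hw),
    gr_add ((diff_log hne).const_mul c) (h2.differentiableAt (by norm_num)), gr_const_mul c (diff_log hne), gr_log hne]

/-- the difference of two local logarithms -/
theorem removable {e₁ e₂ : ℂ → ℝ} {η₁ η₂ : ℂ → ℂ} {z : ℂ}
    (h₁ : ∃ c, LogSing e₁ c z) (h₂ : ∃ c, LogSing e₂ c z) (hη₁ : ContinuousAt η₁ z)
    (hη₂ : ContinuousAt η₂ z) (h : ∀ᶠ w in 𝓝[≠] z, gr e₁ w + η₁ w = gr e₂ w + η₂ w) :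
    ∃ φ : ℂ → ℝ, ContDiffAt ℝ 2 φ z ∧ (∀ᶠ w in 𝓝[≠] z, e₂ w - e₁ w = φ w) ∧ gr φ =ᶠ[𝓝 z] fun w => η₁ w - η₂ w := by
  obtain ⟨c₁, s₁, hs₁, he₁⟩ := h₁
  obtain ⟨c₂, s₂, hs₂, he₂⟩ := h₂
  have hφ : ContDiffAt ℝ 2 (fun w => s₂ w - s₁ w) z := hs₂.sub hs₁
  have hd1 : ∀ᶠ w in 𝓝[≠] z, DifferentiableAt ℝ s₁ w :=
    ((hs₁.eventually (by simp)).filter_mono nhdsWithin_le_nhds).mono fun w hw => hw.differentiableAt (by norm_num)
  have hd2 : ∀ᶠ w in 𝓝[≠] z, DifferentiableAt ℝ s₂ w :=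
    ((hs₂.eventually (by simp)).filter_mono nhdsWithin_le_nhds).mono fun w hw => hw.differentiableAt (by norm_num)
  have key : ∀ᶠ w in 𝓝[≠] z, ((c₂ - c₁ : ℝ) : ℂ) * (starRingEnd ℂ) (1 / (w - z)) = η₁ w - η₂ w - gr (fun w => s₂ w - s₁ w) w := by
    filter_upwards [gr_cls hs₁ he₁, gr_cls hs₂ he₂, h, hd1, hd2] with w h1 h2 h3 h4 h5
    rw [gr_sub h5 h4]
    rw [h1, h2] at h3
    push_cast
    linear_combination - h3
  have hG : ContinuousAt (fun w => η₁ w - η₂ w - gr (fun w => s₂ w - s₁ w) w) z :=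
    (hη₁.sub hη₂).sub (continuousAt_gr (hφ.of_le (by norm_num)))
  have hc : ((c₂ - c₁ : ℝ) : ℂ) = 0 := by
    have t1 : Tendsto (fun w => (starRingEnd ℂ) (w - z) * (η₁ w - η₂ w - gr (fun w => s₂ w - s₁ w) w)) (𝓝[≠] z) (𝓝 0) := by
      have t2 : ContinuousAt (fun w => (starRingEnd ℂ) (w - z) * (η₁ w - η₂ w - gr (fun w => s₂ w - s₁ w) w)) z := by
        refine ContinuousAt.mul ?_ hG
        exact (Complex.continuous_conj.comp (continuous_id.sub continuous_const)).continuousAt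
      have t3 := t2.tendsto.mono_left (nhdsWithin_le_nhds (s := {z}ᶜ))
      simpa using t3
    refine tendsto_nhds_unique (tendsto_const_nhds (f := 𝓝[≠] z)) (t1.congr' ?_)
    filter_upwards [key, self_mem_nhdsWithin] with w hw hne
    have h0 : w - z ≠ 0 := sub_ne_zero.2 hne
    rw [← hw]
    have h1 : (starRingEnd ℂ) (w - z) ≠ 0 := (map_ne_zero _).2 h0
    rw [map_div₀, map_one]
    field_simp
  have hc' : c₂ - c₁ = 0 := by exact_mod_cast hc
  refine ⟨fun w => s₂ w - s₁ w, hφ, ?_, ?_⟩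
  · filter_upwards [he₁, he₂] with w h1 h2
    rw [h1, h2]
    have : c₂ = c₁ := by linarith
    rw [this]; ring
  · refine ((continuousAt_gr (hφ.of_le (by norm_num))).eventuallyEq_nhds_iff_eventuallyEq_nhdsNE (hη₁.sub hη₂)).1 ?_
    filter_upwards [key] with w hw
    rw [hc, zero_mul] at hw
    show gr (fun w => s₂ w - s₁ w) w = η₁ w - η₂ w
    linear_combination hw

variable {l : ℂ → ℝ} {ι : Type} {U : ι → Set ℂ} {χ e : ι → ℂ → ℝ} {η : ι → ℂ → ℂ} {C : ℝ}

/-- the continuous extension of `e k - e i` -/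
def ps (e : ι → ℂ → ℝ) (i k : ι) (w : ℂ) : ℝ := limUnder (𝓝[≠] w) fun x => e k x - e i x

theorem ps_eq {i k : ι} {z : ℂ} {φ : ℂ → ℝ} (hφ : ContDiffAt ℝ 2 φ z) (h : ∀ᶠ w in 𝓝[≠] z, e k w - e i w = φ w) : ps e i k =ᶠ[𝓝 z] φ := by
  filter_upwards [ev_all h, hφ.eventually (by simp)] with w h1 h2
  refine Tendsto.limUnder_eq ?_
  exact (h2.continuousAt.tendsto.mono_left nhdsWithin_le_nhds).congr' (h1.mono fun x hx => hx.symm)

theorem ext (h : Patches l U χ e η C) {i k : ι} {z : ℂ} (hi : z ∈ U i) (hk : z ∈ U k) : ContDiffAt ℝ 2 (ps e i k) z ∧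
    (∀ᶠ w in 𝓝[≠] z, e k w - e i w = ps e i k w) ∧ gr (ps e i k) =ᶠ[𝓝 z] fun w => η i w - η k w := by
  have c1 : ContinuousAt (η i) z := ((h.field i).contDiffAt ((h.isOpen i).mem_nhds hi)).continuousAt
  have c2 : ContinuousAt (η k) z := ((h.field k).contDiffAt ((h.isOpen k).mem_nhds hk)).continuousAt
  obtain ⟨φ, h1, h2, h3⟩ := removable (h.log i z hi) (h.log k z hk) c1 c2 (h.comp i k z hi hk)
  have h4 := ps_eq h1 h2
  refine ⟨h1.congr_of_eventuallyEq h4, ?_, ?_⟩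
  · filter_upwards [h2, h4.filter_mono nhdsWithin_le_nhds] with w h5 h6
    rw [h5, h6]
  · exact (gr_eventuallyEq h4).trans h3

theorem cocycle (h : Patches l U χ e η C) {i j k : ι} {z : ℂ} (hi : z ∈ U i) (hj : z ∈ U j) (hk : z ∈ U k) :
    ps e i k z = ps e i j z + ps e j k z := by
  obtain ⟨a1, a2, -⟩ := ext h hi hk
  obtain ⟨b1, b2, -⟩ := ext h hi hj
  obtain ⟨c1, c2, -⟩ := ext h hj hk
  have t1 : Tendsto (ps e i k) (𝓝[≠] z) (𝓝 (ps e i k z)) := a1.continuousAt.tendsto.mono_left nhdsWithin_le_nhds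
  have t2 : Tendsto (fun w => ps e i j w + ps e j k w) (𝓝[≠] z) (𝓝 (ps e i j z + ps e j k z)) :=
    (b1.continuousAt.add c1.continuousAt).tendsto.mono_left nhdsWithin_le_nhds
  refine tendsto_nhds_unique t1 (t2.congr' ?_)
  filter_upwards [a2, b2, c2] with w h1 h2 h3
  rw [← h1, ← h2, ← h3]; ring

theorem ps_self (h : Patches l U χ e η C) {i : ι} {z : ℂ} (hi : z ∈ U i) : ps e i i z = 0 := by
  have := cocycle h hi hi hi
  linarith

variable [Fintype ι]

/-- the sum -/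
def SS (χ e : ι → ℂ → ℝ) (i : ι) (w : ℂ) : ℝ := ∑ k, χ k w * Real.exp (-(ps e i k w))

/-- the gauge -/
def mm (χ e : ι → ℂ → ℝ) (i : ι) (w : ℂ) : ℝ := Real.log (SS χ e i w)

omit [Fintype ι] in
theorem term_smooth (h : Patches l U χ e η C) {i : ι} {z : ℂ} (hi : z ∈ U i) (k : ι) :
    ContDiffAt ℝ 2 (fun w => χ k w * Real.exp (-(ps e i k w))) z := by
  by_cases hk : z ∈ tsupport (χ k)
  · exact (h.smooth k).contDiffAt.mul (Real.contDiff_exp.contDiffAt.comp z (ext h hi (h.supp k hk)).1.neg)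
  · have h1 : (fun w => χ k w * Real.exp (-(ps e i k w))) =ᶠ[𝓝 z] fun _ => 0 := by
      filter_upwards [notMem_tsupport_iff_eventuallyEq.1 hk] with w hw
      rw [hw]; simp
    exact contDiffAt_const.congr_of_eventuallyEq h1

theorem SS_smooth (h : Patches l U χ e η C) {i : ι} {z : ℂ} (hi : z ∈ U i) : ContDiffAt ℝ 2 (SS χ e i) z := by
  unfold SS
  exact ContDiffAt.sum fun k _ => term_smooth h hi k

theorem SS_pos (h : Patches l U χ e η C) (i : ι) (z : ℂ) : 0 < SS χ e i z := by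
  obtain ⟨j, hj⟩ := h.cover z
  refine Finset.sum_pos' (fun k _ => mul_nonneg (h.nonneg k z) (Real.exp_pos _).le) ⟨j, Finset.mem_univ _, ?_⟩
  rw [hj, one_mul]
  exact Real.exp_pos _

omit [Fintype ι] in
theorem mem_of_one {j : ι} {z : ℂ} (hj : χ j z = 1) : z ∈ tsupport (χ j) :=
  subset_tsupport _ (by rw [Function.mem_support, hj]; norm_num)

theorem SS_ge (h : Patches l U χ e η C) {j : ι} {z : ℂ} (hj : χ j z = 1) : 1 ≤ SS χ e j z := by
  have h1 : χ j z * Real.exp (-(ps e j j z)) ≤ SS χ e j z :=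
    Finset.single_le_sum (f := fun k => χ k z * Real.exp (-(ps e j k z))) (fun k _ => mul_nonneg (h.nonneg k z) (Real.exp_pos _).le) (Finset.mem_univ j)
  rw [hj, ps_self h (h.supp j (mem_of_one hj))] at h1
  simpa using h1

theorem mm_smooth (h : Patches l U χ e η C) {i : ι} {z : ℂ} (hi : z ∈ U i) : ContDiffAt ℝ 2 (mm χ e i) z :=
  (SS_smooth h hi).log (SS_pos h i z).ne'

theorem SS_comp (h : Patches l U χ e η C) {i j : ι} {z : ℂ} (hi : z ∈ U i) (hj : z ∈ U j) :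
    SS χ e i z = Real.exp (-(ps e i j z)) * SS χ e j z := by
  unfold SS
  rw [Finset.mul_sum]
  refine Finset.sum_congr rfl fun k _ => ?_
  by_cases hk : χ k z = 0
  · rw [hk]; ring
  · rw [cocycle h hi hj (h.supp k (subset_tsupport _ hk)), neg_add, Real.exp_add]; ring

theorem mm_comp (h : Patches l U χ e η C) {i j : ι} {z : ℂ} (hi : z ∈ U i) (hj : z ∈ U j) : mm χ e i z = mm χ e j z - ps e i j z := by
  unfold mm
  rw [SS_comp h hi hj, Real.log_mul (Real.exp_pos _).ne' (SS_pos h j z).ne', Real.log_exp]; ring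

theorem gr_comp' (h : Patches l U χ e η C) {i j : ι} {z : ℂ} (hi : z ∈ U i) (hj : z ∈ U j) :
    gr (mm χ e i) z + η i z = gr (mm χ e j) z + η j z := by
  have h1 : mm χ e i =ᶠ[𝓝 z] fun w => mm χ e j w - ps e i j w := by
    filter_upwards [(h.isOpen i).mem_nhds hi, (h.isOpen j).mem_nhds hj] with w a b using mm_comp h a b
  obtain ⟨a1, -, a3⟩ := ext h hi hj
  rw [gr_congr h1, gr_sub ((mm_smooth h hj).differentiableAt (by norm_num)) (a1.differentiableAt (by norm_num)), a3.eq_of_nhds]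
  ring

open Classical in
/-- the global field -/
def fld (U : ι → Set ℂ) (χ e : ι → ℂ → ℝ) (η : ι → ℂ → ℂ) (z : ℂ) : ℂ :=
  if hz : ∃ i, z ∈ U i then gr (mm χ e hz.choose) z + η hz.choose z else 0

theorem fld_eq (h : Patches l U χ e η C) {i : ι} {z : ℂ} (hi : z ∈ U i) : fld U χ e η z = gr (mm χ e i) z + η i z := by
  have hz : ∃ i, z ∈ U i := ⟨i, hi⟩
  unfold fld
  rw [dif_pos hz]
  exact gr_comp' h hz.choose_spec hi

omit [Fintype ι] in
theorem mem_some (h : Patches l U χ e η C) (z : ℂ) : ∃ i, z ∈ U i ∧ χ i z = 1 := by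
  obtain ⟨j, hj⟩ := h.cover z
  exact ⟨j, h.supp j (mem_of_one hj), hj⟩

theorem fld_ev (h : Patches l U χ e η C) {i : ι} {z : ℂ} (hi : z ∈ U i) : fld U χ e η =ᶠ[𝓝 z] fun w => gr (mm χ e i) w + η i w := by
  filter_upwards [(h.isOpen i).mem_nhds hi] with w hw using fld_eq h hw

theorem fld_smooth (h : Patches l U χ e η C) : ContDiff ℝ 1 (fld U χ e η) := by
  rw [contDiff_iff_contDiffAt]
  intro z
  obtain ⟨i, hi, -⟩ := mem_some h z
  exact ((contDiffAt_gr (mm_smooth h hi) (by norm_num)).add ((h.field i).contDiffAt ((h.isOpen i).mem_nhds hi))).congr_of_eventuallyEq (fld_ev h hi)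

theorem gr_sum {κ : Type} (s : Finset κ) {f : κ → ℂ → ℝ} {z : ℂ} (hf : ∀ k ∈ s, DifferentiableAt ℝ (f k) z) :
    gr (fun w => ∑ k ∈ s, f k w) z = ∑ k ∈ s, gr (f k) z := by
  rw [gr_eq, (HasFDerivAt.fun_sum fun k hk => (hf k hk).hasFDerivAt).fderiv, map_sum]
  rfl

omit [Fintype ι] in
theorem term_le (h : Patches l U χ e η C) (hl0 : ∀ z, 0 ≤ l z) (hC : 0 ≤ C) {j : ι} {z : ℂ} (hj : z ∈ tsupport (χ j)) (k : ι)
    (hb : z ∈ tsupport (χ k) → |ps e j k z| ≤ C) :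
    ‖gr (fun w => χ k w * Real.exp (-(ps e j k w))) z‖ ≤ Real.exp C * (3 * C * l z) := by
  have hnn : 0 ≤ Real.exp C * (3 * C * l z) := by have := hl0 z; positivity
  by_cases hk : z ∈ tsupport (χ k)
  · have hjU := h.supp j hj
    have hkU := h.supp k hk
    obtain ⟨a1, -, a3⟩ := ext h hjU hkU
    have hd : DifferentiableAt ℝ (ps e j k) z := a1.differentiableAt (by norm_num)
    have hde : DifferentiableAt ℝ (fun w => Real.exp (-(ps e j k w))) z := hd.neg.exp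
    have h1 : gr (fun w => Real.exp (-(ps e j k w))) z = ((-Real.exp (-(ps e j k z)) : ℝ) : ℂ) * (η j z - η k z) := by
      have h2 : HasDerivAt (fun t : ℝ => Real.exp (-t)) (-Real.exp (-(ps e j k z))) (ps e j k z) := by
        have := (hasDerivAt_neg (ps e j k z)).exp
        simpa using this
      rw [gr_comp h2 hd, a3.eq_of_nhds]
    rw [gr_mul ((h.smooth k).differentiable (by norm_num) z) hde, h1]
    have hb := abs_le.1 (hb hk)
    have he : Real.exp (-(ps e j k z)) ≤ Real.exp C := Real.exp_le_exp.2 (by linarith [hb.1])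
    have n1 : ‖η j z - η k z‖ ≤ 2 * C * l z := by
      refine (norm_sub_le _ _).trans ?_
      have := h.field_le j z hjU
      have := h.field_le k z hkU
      linarith
    have n2 := h.gr_le k z
    have n3 : 0 ≤ Real.exp (-(ps e j k z)) := (Real.exp_pos _).le
    have n4 : 0 ≤ C * l z := mul_nonneg hC (hl0 z)
    refine (norm_add_le _ _).trans ?_
    rw [norm_mul, norm_mul, norm_mul, Complex.norm_real, Complex.norm_real, Complex.norm_real, norm_neg, Real.norm_of_nonneg n3,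
      Real.norm_of_nonneg (h.nonneg k z)]
    have m1 : χ k z * (Real.exp (-(ps e j k z)) * ‖η j z - η k z‖) ≤ Real.exp C * (2 * C * l z) := by
      calc χ k z * (Real.exp (-(ps e j k z)) * ‖η j z - η k z‖) ≤ 1 * (Real.exp (-(ps e j k z)) * ‖η j z - η k z‖) :=
            mul_le_mul_of_nonneg_right (h.le_one k z) (mul_nonneg n3 (norm_nonneg _))
        _ = Real.exp (-(ps e j k z)) * ‖η j z - η k z‖ := one_mul _
        _ ≤ Real.exp C * (2 * C * l z) := mul_le_mul he n1 (norm_nonneg _) (Real.exp_pos _).le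
    have m2 : Real.exp (-(ps e j k z)) * ‖gr (χ k) z‖ ≤ Real.exp C * (C * l z) := mul_le_mul he n2 (norm_nonneg _) (Real.exp_pos _).le
    calc _ ≤ Real.exp C * (2 * C * l z) + Real.exp C * (C * l z) := add_le_add m1 m2
      _ = Real.exp C * (3 * C * l z) := by ring
  · have h1 : (fun w => χ k w * Real.exp (-(ps e j k w))) =ᶠ[𝓝 z] fun _ => 0 := by
      filter_upwards [notMem_tsupport_iff_eventuallyEq.1 hk] with w hw
      rw [hw]; simp
    rw [gr_congr h1, gr_const, norm_zero]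
    exact hnn

omit [Fintype ι] in
theorem ps_val (h : Patches l U χ e η C) {j k : ι} {z : ℂ} (hj : z ∈ U j) (hk : z ∈ U k) (cj : ContDiffAt ℝ 2 (e j) z) (ck : ContDiffAt ℝ 2 (e k) z) :
    ps e j k z = e k z - e j z := by
  obtain ⟨a1, a2, -⟩ := ext h hj hk
  have t1 : Tendsto (ps e j k) (𝓝[≠] z) (𝓝 (ps e j k z)) := a1.continuousAt.tendsto.mono_left nhdsWithin_le_nhds
  have t2 : Tendsto (fun w => e k w - e j w) (𝓝[≠] z) (𝓝 (e k z - e j z)) :=
    (ck.continuousAt.sub cj.continuousAt).tendsto.mono_left nhdsWithin_le_nhds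
  exact tendsto_nhds_unique (t1.congr' (a2.mono fun w hw => hw.symm)) t2

theorem ev_reg (h : Patches l U χ e η C) (z : ℂ) : ∀ᶠ w in 𝓝[≠] z, ∀ k, w ∈ tsupport (χ k) → ContDiffAt ℝ 2 (e k) w := by
  rw [eventually_all]
  intro k
  by_cases hk : z ∈ tsupport (χ k)
  · obtain ⟨c, hc⟩ := h.log k z (h.supp k hk)
    exact hc.eventually.mono fun w hw _ => hw
  · have : ∀ᶠ w in 𝓝 z, w ∉ tsupport (χ k) := (isClosed_tsupport _).isOpen_compl.mem_nhds hk
    exact (this.filter_mono nhdsWithin_le_nhds).mono fun w hw hn => absurd hn hw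

theorem fld_le_reg (h : Patches l U χ e η C) (hl0 : ∀ z, 0 ≤ l z) (hC : 0 ≤ C) {z : ℂ} (hz : ∀ k, z ∈ tsupport (χ k) → ContDiffAt ℝ 2 (e k) z) :
    ‖fld U χ e η z‖ ≤ (Fintype.card ι * (Real.exp C * (3 * C)) + C) * l z := by
  obtain ⟨j, hj, hj1⟩ := mem_some h z
  have hjs := mem_of_one hj1
  have hb : ∀ k, z ∈ tsupport (χ k) → |ps e j k z| ≤ C := by
    intro k hk
    rw [ps_val h hj (h.supp k hk) (hz j hjs) (hz k hk), abs_sub_comm]
    exact h.bound j k z hj1 hk (hz j hjs) (hz k hk)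
  have h1 : ‖gr (SS χ e j) z‖ ≤ Fintype.card ι * (Real.exp C * (3 * C * l z)) := by
    have h2 : gr (SS χ e j) z = ∑ k, gr (fun w => χ k w * Real.exp (-(ps e j k w))) z :=
      gr_sum (z := z) Finset.univ fun k _ => (term_smooth h hj k).differentiableAt (by norm_num)
    rw [h2]
    refine (norm_sum_le _ _).trans ?_
    refine (Finset.sum_le_card_nsmul _ _ _ fun k _ => term_le h hl0 hC hjs k (hb k)).trans ?_
    rw [nsmul_eq_mul, Finset.card_univ]
  have h3 : gr (mm χ e j) z = (((SS χ e j z)⁻¹ : ℝ) : ℂ) * gr (SS χ e j) z :=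
    gr_comp (Real.hasDerivAt_log (SS_pos h j z).ne') ((SS_smooth h hj).differentiableAt (by norm_num))
  have h4 : (SS χ e j z)⁻¹ ≤ 1 := inv_le_one_of_one_le₀ (SS_ge h hj1)
  have h5 : 0 ≤ (SS χ e j z)⁻¹ := inv_nonneg.2 (SS_pos h j z).le
  rw [fld_eq h hj]
  refine (norm_add_le _ _).trans ?_
  rw [h3, norm_mul, Complex.norm_real, Real.norm_of_nonneg h5]
  have h6 := h.field_le j z hj
  have h7 : (SS χ e j z)⁻¹ * ‖gr (SS χ e j) z‖ ≤ 1 * ‖gr (SS χ e j) z‖ := mul_le_mul_of_nonneg_right h4 (norm_nonneg _)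
  calc _ ≤ Fintype.card ι * (Real.exp C * (3 * C * l z)) + C * l z := by linarith
    _ = _ := by ring

theorem fld_le (h : Patches l U χ e η C) (hl : Continuous l) (hl0 : ∀ z, 0 ≤ l z) (hC : 0 ≤ C) (z : ℂ) :
    ‖fld U χ e η z‖ ≤ (Fintype.card ι * (Real.exp C * (3 * C)) + C) * l z := by
  have t1 : Tendsto (fun w => ‖fld U χ e η w‖) (𝓝[≠] z) (𝓝 ‖fld U χ e η z‖) :=
    ((fld_smooth h).continuous.norm.tendsto z).mono_left nhdsWithin_le_nhds
  have t2 : Tendsto (fun w => (Fintype.card ι * (Real.exp C * (3 * C)) + C) * l w) (𝓝[≠] z)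
      (𝓝 ((Fintype.card ι * (Real.exp C * (3 * C)) + C) * l z)) := ((continuous_const.mul hl).tendsto z).mono_left nhdsWithin_le_nhds
  exact le_of_tendsto_of_tendsto t1 t2 ((ev_reg h z).mono fun w hw => fld_le_reg h hl0 hC hw)

/-- the global function -/
def Eg (χ e : ι → ℂ → ℝ) (w : ℂ) : ℝ := -Real.log (∑ k, χ k w * Real.exp (-(e k w)))

theorem Eg_eq (h : Patches l U χ e η C) {i : ι} {z : ℂ} (hi : z ∈ U i) : ∀ᶠ w in 𝓝[≠] z, Eg χ e w = e i w - mm χ e i w := by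
  have h1 : ∀ᶠ w in 𝓝[≠] z, ∀ k, χ k w * Real.exp (-(e k w)) = Real.exp (-(e i w)) * (χ k w * Real.exp (-(ps e i k w))) := by
    rw [eventually_all]
    intro k
    by_cases hk : z ∈ tsupport (χ k)
    · obtain ⟨-, a2, -⟩ := ext h hi (h.supp k hk)
      filter_upwards [a2] with w hw
      rw [← hw, show -(e k w) = -(e i w) + -(e k w - e i w) by ring, Real.exp_add]; ring
    · have := (notMem_tsupport_iff_eventuallyEq.1 hk).filter_mono (nhdsWithin_le_nhds (s := {z}ᶜ))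
      filter_upwards [this] with w hw
      rw [hw]; simp
  filter_upwards [h1] with w hw
  have h2 : ∑ k, χ k w * Real.exp (-(e k w)) = Real.exp (-(e i w)) * SS χ e i w := by
    rw [Finset.sum_congr rfl fun k _ => hw k, ← Finset.mul_sum]; rfl
  unfold Eg mm
  rw [h2, Real.log_mul (Real.exp_pos _).ne' (SS_pos h i w).ne', Real.log_exp]
  ring

theorem Eg_le (h : Patches l U χ e η C) {k : ι} {z : ℂ} (hk : χ k z = 1) : Eg χ e z ≤ e k z := by
  have h1 : χ k z * Real.exp (-(e k z)) ≤ ∑ k, χ k z * Real.exp (-(e k z)) :=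
    Finset.single_le_sum (f := fun k => χ k z * Real.exp (-(e k z))) (fun k _ => mul_nonneg (h.nonneg k z) (Real.exp_pos _).le) (Finset.mem_univ k)
  rw [hk, one_mul] at h1
  have h2 := Real.log_le_log (Real.exp_pos _) h1
  rw [Real.log_exp] at h2
  unfold Eg
  linarith

/-- `E` near a point of `U i`, with the function `v` -/
theorem logSing_Eg (h : Patches l U χ e η C) {i : ι} {z : ℂ} (hi : z ∈ U i) {v : ℂ → ℝ} {c : ℝ} (hc : LogSing (fun w => e i w + v w) c z) :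
    LogSing (fun w => Eg χ e w + v w) c z := by
  have h1 := hc.sub (LogSing.of_contDiffAt (mm_smooth h hi))
  rw [sub_zero] at h1
  refine h1.congr ?_
  filter_upwards [Eg_eq h hi] with w hw
  rw [hw]; ring

theorem lap_Eg (h : Patches l U χ e η C) {i : ι} {z : ℂ} (hi : z ∈ U i) {v : ℂ → ℝ} (hv : ∃ c, LogSing v c z) :
    ∀ᶠ w in 𝓝[≠] z, ContDiffAt ℝ 2 (e i) w ∧ ContDiffAt ℝ 2 v w ∧ w ∈ U i ∧
      Δ (fun w => Eg χ e w + v w) w + dv (fld U χ e η) w = Δ (e i) w + Δ v w + dv (η i) w := by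
  obtain ⟨c, hc⟩ := h.log i z hi
  obtain ⟨c', hc'⟩ := hv
  have hU : ∀ᶠ w in 𝓝[≠] z, w ∈ U i := nhdsWithin_le_nhds ((h.isOpen i).mem_nhds hi)
  filter_upwards [hc.eventually, hc'.eventually, ev_nhds (Eg_eq h hi), hU] with w h1 h2 h3 h4
  refine ⟨h1, h2, h4, ?_⟩
  have m1 := mm_smooth h h4
  have e1 : (fun w => Eg χ e w + v w) =ᶠ[𝓝 w] (fun w => e i w - mm χ e i w) + v := by
    filter_upwards [h3] with x hx
    simp only [Pi.add_apply]
    rw [hx]
  have e2 : Δ (fun w => Eg χ e w + v w) w = Δ (e i) w - Δ (mm χ e i) w + Δ v w := by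
    rw [Pool.Agent.H30M.lap_congr e1, (h1.sub m1).laplacian_add h2]
    congr 1
    exact h1.laplacian_sub m1
  have d1 : DifferentiableAt ℝ (gr (mm χ e i)) w := differentiableAt_gr m1
  have d2 : DifferentiableAt ℝ (η i) w := ((h.field i).contDiffAt ((h.isOpen i).mem_nhds h4)).differentiableAt (by norm_num)
  have e3 : dv (fld U χ e η) w = Δ (mm χ e i) w + dv (η i) w := by
    rw [dv_congr (fld_ev h h4), dv_add d1 d2]
    congr 1
    exact lp_eq_lap m1
  rw [e2, e3]; ring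

/-! ## the error -/

theorem continuous_err {U K : Set ℂ} (hU : IsOpen U) (hK : IsClosed K) {f : ℂ → ℝ} (hf : ContinuousOn f U) (h0 : ∀ z ∈ U, z ∉ K → f z = 0) (hKU : K ⊆ U) :
    Continuous (U.indicator f) := by
  rw [continuous_iff_continuousAt]
  intro z
  by_cases hz : z ∈ U
  · have h1 : U.indicator f =ᶠ[𝓝 z] f := by
      filter_upwards [hU.mem_nhds hz] with w hw
      rw [Set.indicator_of_mem hw]
    exact (hf.continuousAt (hU.mem_nhds hz)).congr h1.symm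
  · have h1 : U.indicator f =ᶠ[𝓝 z] fun _ => 0 := by
      filter_upwards [hK.isOpen_compl.mem_nhds (fun hn => hz (hKU hn))] with w hw
      by_cases hwU : w ∈ U
      · rw [Set.indicator_of_mem hwU, h0 w hwU hw]
      · rw [Set.indicator_of_notMem hwU]
    exact continuousAt_const.congr h1.symm

theorem en_nonneg {M : ℕ} (F : ℂ → EN M) {R : ℝ} (hR : 1 ≤ R) : 0 ≤ En F R :=
  integral_nonneg fun z => mul_nonneg (Pool.Agent.H30M.tau_nonneg hR z) (sq_nonneg _)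

omit [Fintype ι] in
theorem measurable_one (h : Patches l U χ e η C) (i : ι) : MeasurableSet {z | χ i z = 1} :=
  (isClosed_eq (h.smooth i).continuous continuous_const).measurableSet

omit [Fintype ι] in
/-- integrability of the positive part in one box -/
theorem integrable_pos (h : Patches l U χ e η C) (i : ι) {v : ℂ → ℝ} (hp : ∀ z ∈ U i, ∃ c, 0 ≤ c ∧ LogSing (fun w => e i w + v w) c z) {R : ℝ}
    (hR : 1 ≤ R) : Integrable (({z | χ i z = 1} : Set ℂ).indicator fun z => rhoR R z * max 0 (e i z + v z)) := by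
  have hc : ∀ z ∈ U i, ∃ c, LogSing (fun w => e i w + v w) c z := fun z hz => let ⟨c, _, h1⟩ := hp z hz; ⟨c, h1⟩
  choose! c hc using hc
  have hcont : Continuous fun z => rhoR R z * χ i z := (Pool.Agent.H30M.continuous_rhoR R).mul (h.smooth i).continuous
  have hcs : HasCompactSupport fun z => rhoR R z * χ i z := (Pool.Agent.H30M.hcs_rhoR hR).mul_right
  have h1 : Integrable fun z => rhoR R z * χ i z * (e i z + v z) := by
    refine LogSing.integrable_mul hcont hcs (w := fun z => e i z + v z) (c := c) fun z hz => hc z (h.supp i ?_)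
    exact tsupport_mul_subset_right (f := rhoR R) (g := χ i) hz
  have h2 := h1.pos_part.indicator (measurable_one h i)
  refine h2.congr (Eventually.of_forall fun z => ?_)
  by_cases hz : χ i z = 1
  · have hz' : z ∈ ({z | χ i z = 1} : Set ℂ) := hz
    rw [Set.indicator_of_mem hz', Set.indicator_of_mem hz']
    have h0 := Pool.Agent.H30M.rhoR_nonneg R z
    show max (rhoR R z * χ i z * (e i z + v z)) 0 = rhoR R z * max 0 (e i z + v z)
    rw [hz, mul_one, max_comm, mul_max_of_nonneg _ _ h0, mul_zero]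
  · have hz' : z ∉ ({z | χ i z = 1} : Set ℂ) := hz
    rw [Set.indicator_of_notMem hz', Set.indicator_of_notMem hz']

end Pool.Agent.MQ.Core

end
end

section

/-!
# MQ CoreMn: the mean hypothesis of the core from a pointwise bound
-/

set_option autoImplicit false

open Topology Filter Metric MeasureTheory Laplacian

noncomputable section

namespace Pool.Agent.MQ.Core

open Pool.Agent.H30M (tau avg LogSing rhoR)
open Pool.Agent.H36.BP (EN)

variable {l : ℂ → ℝ} {ι : Type} {U : ι → Set ℂ} {χ e : ι → ℂ → ℝ} {η : ι → ℂ → ℂ} {C : ℝ}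

/-- the singularities have measure zero -/
theorem ae_c2 {V : Set ℂ} {w : ℂ → ℝ} (hw : ∀ z ∈ V, ∃ c, LogSing w c z) : ∀ᵐ z : ℂ, z ∈ V → ContDiffAt ℝ 2 w z := by
  have h0 : volume {z | z ∈ V ∧ ¬ ContDiffAt ℝ 2 w z} = 0 := by
    refine measure_null_of_locally_null _ fun z hz => ?_
    obtain ⟨c, hc⟩ := hw z hz.1
    refine ⟨{z}, ?_, by simp⟩
    have h1 := hc.eventually
    rw [eventually_nhdsWithin_iff] at h1
    rw [mem_nhdsWithin_iff_eventually]
    filter_upwards [h1] with w hw hws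
    by_contra hne
    exact hws.2 (hw hne)
  rw [ae_iff]
  convert h0 using 2
  ext z
  simp

/-- **The hypothesis `hm` of `core` from a pointwise bound.** -/
theorem mean_of_le {M : ℕ} (F : ℂ → EN M) (h : Patches l U χ e η C) (hl : Continuous l) (hl0 : ∀ z, 0 ≤ l z) {A : ℝ}
    (hA : ∀ R, 1 ≤ R → ∫ z, tau R z * l z ^ 2 ≤ A * R ^ 2) (i : ι) {v : ℂ → ℝ} (hv : ∀ z, ∃ c, LogSing v c z)
    (hp : ∀ z ∈ U i, ∃ c, 0 ≤ c ∧ LogSing (fun w => e i w + v w) c z) {C₀ : ℝ}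
    (hle : ∀ z, χ i z = 1 → ContDiffAt ℝ 2 (e i) z → ContDiffAt ℝ 2 v z → e i z + v z ≤ C₀ + Real.log (1 + l z)) {δ : ℝ} (hδ : 0 ≤ δ) :
    ∃ C : ℝ, ∀ R, 1 ≤ R → ∫ z in {z | χ i z = 1}, rhoR R z * max 0 (e i z + v z) ≤ δ * En F R + C * Real.log (1 + En F R) + C := by
  obtain ⟨C₁, hC₁⟩ := mlog_gen hl hl0 hA
  refine ⟨2 * Real.pi * |C₀| + |C₁|, fun R hR => ?_⟩
  have hEn := en_nonneg F hR
  have hlog : 0 ≤ Real.log (1 + En F R) := Real.log_nonneg (by linarith)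
  have hc1 : Continuous fun z => Real.log (1 + l z) := by
    have h1 : Continuous fun z => 1 + l z := continuous_const.add hl
    exact h1.log fun z => ne_of_gt (show 0 < 1 + l z by have := hl0 z; linarith)
  have i1 : Integrable fun z => rhoR R z * (|C₀| + Real.log (1 + l z)) :=
    ((Pool.Agent.H30M.continuous_rhoR R).mul (continuous_const.add hc1)).integrable_of_hasCompactSupport (Pool.Agent.H30M.hcs_rhoR hR).mul_right
  have hnn : ∀ z, 0 ≤ |C₀| + Real.log (1 + l z) := fun z => add_nonneg (abs_nonneg _) (Real.log_nonneg (by linarith [hl0 z]))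
  have h1 : ∫ z in {z | χ i z = 1}, rhoR R z * max 0 (e i z + v z) ≤ ∫ z, rhoR R z * (|C₀| + Real.log (1 + l z)) := by
    rw [← integral_indicator (measurable_one h i)]
    refine integral_mono_ae (integrable_pos h i hp hR) i1 ?_
    filter_upwards [ae_c2 (V := U i) (h.log i), ae_c2 (V := Set.univ) fun z _ => hv z] with z h2 h3
    by_cases hz : χ i z = 1
    · have hz' : z ∈ ({z | χ i z = 1} : Set ℂ) := hz
      rw [Set.indicator_of_mem hz']
      refine mul_le_mul_of_nonneg_left (max_le (hnn z) ?_) (Pool.Agent.H30M.rhoR_nonneg R z)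
      refine (hle z hz (h2 (h.supp i (mem_of_one hz))) (h3 trivial)).trans ?_
      linarith [le_abs_self C₀]
    · have hz' : z ∉ ({z | χ i z = 1} : Set ℂ) := hz
      rw [Set.indicator_of_notMem hz']
      exact mul_nonneg (Pool.Agent.H30M.rhoR_nonneg R z) (hnn z)
  have i2 : Integrable fun z => rhoR R z * |C₀| :=
    ((Pool.Agent.H30M.continuous_rhoR R).mul continuous_const).integrable_of_hasCompactSupport (Pool.Agent.H30M.hcs_rhoR hR).mul_right
  have i3 : Integrable fun z => rhoR R z * Real.log (1 + l z) :=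
    ((Pool.Agent.H30M.continuous_rhoR R).mul hc1).integrable_of_hasCompactSupport (Pool.Agent.H30M.hcs_rhoR hR).mul_right
  have h2 : ∫ z, rhoR R z * (|C₀| + Real.log (1 + l z)) = 2 * Real.pi * |C₀| + avg R fun z => Real.log (1 + l z) := by
    rw [show (fun z => rhoR R z * (|C₀| + Real.log (1 + l z))) = fun z => rhoR R z * |C₀| + rhoR R z * Real.log (1 + l z) from
      funext fun z => mul_add _ _ _, integral_add i2 i3, integral_mul_const, Pool.Agent.H30M.int_rhoR hR]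
    rfl
  have h3 := hC₁ R hR
  have h4 : 0 ≤ (2 * Real.pi * |C₀| + |C₁|) * Real.log (1 + En F R) := mul_nonneg (by have := Real.pi_pos; positivity) hlog
  have h5 : 0 ≤ δ * En F R := mul_nonneg hδ hEn
  linarith [le_abs_self C₁]

end Pool.Agent.MQ.Core

end
end

section

/-!
# MQ3 AsmA: the pack of a curve from an atlas with disjoint cores

The version of `Core.core` without a sign of the error terms: the core `K i` meets no other patch.
-/

set_option autoImplicit false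

open Topology Filter Metric MeasureTheory Laplacian

noncomputable section

namespace Pool.Agent.MQ3

open Pool.Agent.H30M (tau avg LogSing rhoR)
open Pool.Agent.H36.BP (EN)
open Pool.Agent.MQ (lam En gr dv Pack Patches lp_eq_lap continuousAt_lp continuousAt_dv)
open Pool.Agent.MQ.Core (Eg fld mem_some logSing_Eg fld_smooth fld_le lap_Eg Eg_le integrable_pos measurable_one continuous_err en_nonneg)

variable {ι : Type} [Fintype ι] {l : ℂ → ℝ} {U : ι → Set ℂ} {χ e : ι → ℂ → ℝ} {η : ι → ℂ → ℂ} {C : ℝ}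

/-- **The pack from an atlas with disjoint cores.** -/
theorem pack_of_patches_dis {M : ℕ} {F : ℂ → EN M} (hF : Continuous (lam F)) (hl : Continuous l) (hl0 : ∀ z, 0 ≤ l z) (hC : 0 ≤ C)
    (h : Patches l U χ e η C) {K : ι → Set ℂ} {err : ι → ℂ → ℝ} (hK : ∀ i, IsClosed (K i)) (hKU : ∀ i, K i ⊆ U i) (herr : ∀ i, ContinuousOn (err i) (U i))
    (hdis : ∀ i j, i ≠ j → ∀ z ∈ K i, z ∉ U j) (herrK : ∀ i, ∀ z ∈ U i, z ∉ K i → err i z = 0) {D : ι → ℝ}
    (herri : ∀ i, ∃ C : ℝ, ∀ R, 1 ≤ R → ∫ z in U i, tau R z * err i z ≤ D i * En F R + C * (∫ z, ‖gr (tau R) z‖ * l z) + C)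
    {v : ℂ → ℝ} {ε₀ : ℝ} (hv : ∀ z, ∃ c, LogSing v c z)
    (hlap : ∀ i, ∀ z ∈ U i, ContDiffAt ℝ 2 (e i) z → ContDiffAt ℝ 2 v z → ε₀ * lam F z ^ 2 ≤ Δ (e i) z + Δ v z + dv (η i) z + err i z)
    (hp : ∀ i, ∀ z ∈ U i, ∃ c, 0 ≤ c ∧ LogSing (fun w => e i w + v w) c z)
    (hm : ∀ i, ∃ C : ℝ, ∀ R, 1 ≤ R → ∫ z in {z | χ i z = 1}, rhoR R z * max 0 (e i z + v z) ≤ D i * En F R + C * Real.log (1 + En F R) + C) :
    Pack F l ε₀ (∑ i, D i) := by
  classical
  choose C₁ hC₁ using herri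
  choose C₂ hC₂ using hm
  have hce : ∀ i, Continuous ((U i).indicator (err i)) := fun i => continuous_err (h.isOpen i) (hK i) (herr i) (herrK i) (hKU i)
  have hs1 : 0 ≤ ∑ i, |C₁ i| := Finset.sum_nonneg fun i _ => abs_nonneg _
  have hs2 : 0 ≤ ∑ i, |C₂ i| := Finset.sum_nonneg fun i _ => abs_nonneg _
  have hs3 : 0 ≤ (Fintype.card ι * (Real.exp C * (3 * C)) + C : ℝ) := by positivity
  refine ⟨(Fintype.card ι * (Real.exp C * (3 * C)) + C) + ∑ i, |C₁ i| + ∑ i, |C₂ i|, fun w => Eg χ e w + v w, fld U χ e η,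
    fun z => ∑ i, (U i).indicator (err i) z, by positivity, ?_, fld_smooth h, ?_, continuous_finsetSum _ fun i _ => hce i, ?_, ?_, ?_⟩
  · intro z
    obtain ⟨i, hi, -⟩ := mem_some h z
    obtain ⟨c, hc, h1⟩ := hp i z hi
    exact ⟨c, hc, logSing_Eg h hi h1⟩
  · intro z
    refine (fld_le h hl hl0 hC z).trans (mul_le_mul_of_nonneg_right ?_ (hl0 z))
    linarith
  · intro z hz
    obtain ⟨i, hi, -⟩ := mem_some h z
    have hlE : ContinuousAt (Δ fun w => Eg χ e w + v w) z := by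
      have h2 : Pool.Agent.MQ.lp (fun w => Eg χ e w + v w) =ᶠ[𝓝 z] Δ fun w => Eg χ e w + v w := by
        filter_upwards [hz.eventually (by simp)] with w hw using lp_eq_lap hw
      exact (continuousAt_lp hz).congr h2
    have hdv : ContinuousAt (dv (fld U χ e η)) z := continuousAt_dv (fld_smooth h).contDiffAt
    have herc : Continuous fun z => ∑ i, (U i).indicator (err i) z := continuous_finsetSum _ fun i _ => hce i
    have t1 : Tendsto (fun w => ε₀ * lam F w ^ 2) (𝓝[≠] z) (𝓝 (ε₀ * lam F z ^ 2)) :=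
      ((continuous_const.mul (hF.pow 2)).tendsto z).mono_left nhdsWithin_le_nhds
    have t2 : Tendsto (fun w => Δ (fun w => Eg χ e w + v w) w + dv (fld U χ e η) w + ∑ i, (U i).indicator (err i) w) (𝓝[≠] z)
        (𝓝 (Δ (fun w => Eg χ e w + v w) z + dv (fld U χ e η) z + ∑ i, (U i).indicator (err i) z)) :=
      ((hlE.add hdv).add herc.continuousAt).tendsto.mono_left nhdsWithin_le_nhds
    refine le_of_tendsto_of_tendsto t1 t2 ?_
    filter_upwards [lap_Eg h hi (hv z)] with w hw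
    obtain ⟨h1, h2, h3, h4⟩ := hw
    have h5 := hlap i w h3 h1 h2
    have h6 : ∑ j, (U j).indicator (err j) w = err i w := by
      rw [Finset.sum_eq_single i, Set.indicator_of_mem h3]
      · intro j _ hji
        by_cases hj : w ∈ U j
        · rw [Set.indicator_of_mem hj, herrK j w hj fun hK' => hdis j i hji w hK' h3]
        · rw [Set.indicator_of_notMem hj]
      · intro h7
        exact absurd (Finset.mem_univ i) h7
    show _ ≤ _
    rw [h4, h6]
    linarith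
  · intro R hR
    have hLen : 0 ≤ ∫ z, ‖gr (tau R) z‖ * l z := integral_nonneg fun z => mul_nonneg (norm_nonneg _) (hl0 z)
    have h1 : ∀ i, Integrable fun z => tau R z * (U i).indicator (err i) z := fun i =>
      ((Pool.Agent.H30M.contDiff_tau R).continuous.mul (hce i)).integrable_of_hasCompactSupport (Pool.Agent.H30M.hcs_tau hR).mul_right
    have h2 : ∫ z, tau R z * ∑ i, (U i).indicator (err i) z = ∑ i, ∫ z in U i, tau R z * err i z := by
      rw [show (fun z => tau R z * ∑ i, (U i).indicator (err i) z) = fun z => ∑ i, tau R z * (U i).indicator (err i) z from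
        funext fun z => Finset.mul_sum _ _ _]
      rw [integral_finsetSum _ fun i _ => h1 i]
      refine Finset.sum_congr rfl fun i _ => ?_
      rw [← integral_indicator (h.isOpen i).measurableSet]
      congr 1
      funext z
      by_cases hz : z ∈ U i
      · rw [Set.indicator_of_mem hz, Set.indicator_of_mem hz]
      · rw [Set.indicator_of_notMem hz, Set.indicator_of_notMem hz, mul_zero]
    rw [h2]
    have h3 : ∀ i, ∫ z in U i, tau R z * err i z ≤ D i * En F R + |C₁ i| * (∫ z, ‖gr (tau R) z‖ * l z) + |C₁ i| := by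
      intro i
      have := hC₁ i R hR
      have := mul_le_mul_of_nonneg_right (le_abs_self (C₁ i)) hLen
      linarith [le_abs_self (C₁ i)]
    calc ∑ i, ∫ z in U i, tau R z * err i z ≤ ∑ i, (D i * En F R + |C₁ i| * (∫ z, ‖gr (tau R) z‖ * l z) + |C₁ i|) := Finset.sum_le_sum fun i _ => h3 i
      _ = (∑ i, D i) * En F R + (∑ i, |C₁ i|) * (∫ z, ‖gr (tau R) z‖ * l z) + ∑ i, |C₁ i| := by
        rw [Finset.sum_add_distrib, Finset.sum_add_distrib, Finset.sum_mul, Finset.sum_mul]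
      _ ≤ _ := by
        have := mul_le_mul_of_nonneg_right (show (∑ i, |C₁ i|) ≤ (Fintype.card ι * (Real.exp C * (3 * C)) + C) + ∑ i, |C₁ i| + ∑ i, |C₂ i| by linarith) hLen
        linarith
  · intro R hR
    have hEn := en_nonneg F hR
    have hlog : 0 ≤ Real.log (1 + En F R) := Real.log_nonneg (by linarith)
    have hcE : ∀ z, ∃ c, LogSing (fun w => Eg χ e w + v w) c z := by
      intro z
      obtain ⟨i, hi, -⟩ := mem_some h z
      obtain ⟨c, -, h1⟩ := hp i z hi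
      exact ⟨c, logSing_Eg h hi h1⟩
    choose c hc using hcE
    have i1 : Integrable fun z => rhoR R z * (Eg χ e z + v z) :=
      LogSing.integrable_mul (Pool.Agent.H30M.continuous_rhoR R) (Pool.Agent.H30M.hcs_rhoR hR) (w := fun z => Eg χ e z + v z) (c := c) fun z _ => hc z
    have i2 := fun i => integrable_pos h i (hp i) hR
    have h1 : avg R (fun w => Eg χ e w + v w) ≤ ∫ z, ∑ i, ({z | χ i z = 1} : Set ℂ).indicator (fun z => rhoR R z * max 0 (e i z + v z)) z := by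
      refine integral_mono i1 (integrable_finsetSum _ fun i _ => i2 i) fun z => ?_
      obtain ⟨k, hk⟩ := h.cover z
      have h0 := Pool.Agent.H30M.rhoR_nonneg R z
      have h2 : (({z | χ k z = 1} : Set ℂ).indicator fun z => rhoR R z * max 0 (e k z + v z)) z = rhoR R z * max 0 (e k z + v z) :=
        Set.indicator_of_mem (show z ∈ {z | χ k z = 1} from hk) _
      have h3 := Finset.single_le_sum (f := fun i => (({z | χ i z = 1} : Set ℂ).indicator fun z => rhoR R z * max 0 (e i z + v z)) z)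
        (fun i _ => Set.indicator_nonneg (fun z _ => mul_nonneg (Pool.Agent.H30M.rhoR_nonneg R z) (le_max_left _ _)) z) (Finset.mem_univ k)
      have h4 : rhoR R z * (Eg χ e z + v z) ≤ rhoR R z * max 0 (e k z + v z) :=
        mul_le_mul_of_nonneg_left ((add_le_add (Eg_le h hk) le_rfl).trans (le_max_right _ _)) h0
      rw [h2] at h3
      exact h4.trans h3
    refine h1.trans ?_
    rw [integral_finsetSum _ fun i _ => i2 i]
    have h3 : ∀ i, ∫ z, ({z | χ i z = 1} : Set ℂ).indicator (fun z => rhoR R z * max 0 (e i z + v z)) z ≤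
        D i * En F R + |C₂ i| * Real.log (1 + En F R) + |C₂ i| := by
      intro i
      rw [integral_indicator (measurable_one h i)]
      have := hC₂ i R hR
      have := mul_le_mul_of_nonneg_right (le_abs_self (C₂ i)) hlog
      linarith [le_abs_self (C₂ i)]
    calc _ ≤ ∑ i, (D i * En F R + |C₂ i| * Real.log (1 + En F R) + |C₂ i|) := Finset.sum_le_sum fun i _ => h3 i
      _ = (∑ i, D i) * En F R + (∑ i, |C₂ i|) * Real.log (1 + En F R) + ∑ i, |C₂ i| := by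
        rw [Finset.sum_add_distrib, Finset.sum_add_distrib, Finset.sum_mul, Finset.sum_mul]
      _ ≤ _ := by
        have := mul_le_mul_of_nonneg_right (show (∑ i, |C₂ i|) ≤ (Fintype.card ι * (Real.exp C * (3 * C)) + C) + ∑ i, |C₁ i| + ∑ i, |C₂ i| by linarith) hlog
        linarith

end Pool.Agent.MQ3

end
end

section

/-!
# SG2 BubA: case (I), the families at a bubble and the order of the form

* `tlu_of_cc`: continuous convergence is locally uniform convergence.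
* `order_le`: the exact order of the form in the normalised chart is at most `μ`.
* `deriv_ne`: the equation of the curve along `H` has a simple zero.
* `fam`: the families `L ∘ Φ n`, `Q ∘ Φ n`, `Φ n - L (Φ n) • G 0` and a zero `c n → 0` of the first one.
-/

set_option autoImplicit false

open Topology Filter Metric

noncomputable section

namespace Pool.Agent.SG2

open Pool.Agent.H17BP (Surface IsForm IsChart Pr)
open Pool.Agent.H74.NB (CC Obj exists_zero)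
open Pool.Agent.H36.TB (oC oC_le)

variable {V : Type} [NormedAddCommGroup V] [NormedSpace ℂ V]

theorem tlu_of_cc {𝒰 : Ultrafilter ℕ} {F : ℕ → ℂ → V} {f : ℂ → V} {U : Set ℂ} (hU : IsOpen U) (hf : ContinuousOn f U) (h : CC 𝒰 F f U) :
    TendstoLocallyUniformlyOn F f 𝒰 U := by
  rw [tendstoLocallyUniformlyOn_iff_forall_isCompact hU]
  intro K hK hKc
  rw [Metric.tendstoUniformlyOn_iff]
  intro ε hε
  filter_upwards [h.unif hf hU hKc hK hε] with n hn z hz
  rw [dist_comm, dist_eq_norm]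
  exact hn z hz

/-- The exact order `μ'` of the form is at most `μ`, if `Q ^ μ` is bounded by the form in some chart. -/
theorem order_le [FiniteDimensional ℂ V] {X : Set V} (hX : ∀ x ∈ X, ∀ c : ℂ, c ≠ 0 → c • x ∈ X) {m j : ℕ} {Ω : V → V → V → ℂ}
    (hΩ : IsForm X m j Ω) {σ₀ σ : ℂ × ℂ → V} {τ₀ τ : V → ℂ × ℂ} (h₀ : IsChart X σ₀ τ₀) (h : IsChart X σ τ) {a : ℂ} (ha : a ≠ 0)
    (h0 : σ₀ 0 = a • σ 0) {L : V →L[ℂ] ℂ} (hL : L (σ 0) = 1) {Q : V → ℂ} {e : ℕ} (hτ : ∀ y, (τ y).1 = Q y / L y ^ e)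
    (hτh : ∀ (c : ℂ) y, c ≠ 0 → τ (c • y) = τ y) {μ : ℕ} {B₀ : ℝ} (hlow : ∀ᶠ p in 𝓝 (0 : ℂ × ℂ), ‖Q (σ₀ p)‖ ^ μ ≤ B₀ * ‖oC Ω σ₀ p‖)
    {μ' : ℕ} {w : ℂ × ℂ → ℂ} (hw : ContinuousAt w 0) (hev : ∀ᶠ p in 𝓝 (0 : ℂ × ℂ), oC Ω σ p = p.1 ^ μ' * w p) : μ' ≤ μ := by
  by_contra hcon
  push Not at hcon
  obtain ⟨B₁, hB₁, hle⟩ := oC_le hX hΩ h ha h₀.σ_an h₀.σ_mem h0
  -- the curve
  have hline : Tendsto (fun s : ℂ => ((s, (0 : ℂ)) : ℂ × ℂ)) (𝓝 0) (𝓝 0) := by
    have : Continuous fun s : ℂ => ((s, (0 : ℂ)) : ℂ × ℂ) := by fun_prop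
    exact this.tendsto 0
  have hγ : Tendsto (fun s : ℂ => a • σ (s, 0)) (𝓝 0) (𝓝 (σ₀ 0)) := by
    rw [h0]
    exact (h.σ_an.continuousAt.tendsto.comp hline).const_smul a
  have hp : Tendsto (fun s : ℂ => τ₀ (a • σ (s, 0))) (𝓝 0) (𝓝 0) := by
    have h1 := h₀.τ_an.continuousAt.tendsto
    rw [h₀.left.self_of_nhds] at h1
    exact h1.comp hγ
  have hL0 : L (σ₀ 0) = a := by rw [h0, map_smul, hL, smul_eq_mul, mul_one]
  have hLc : Tendsto (fun s : ℂ => ‖L (σ₀ (τ₀ (a • σ (s, 0))))‖) (𝓝 0) (𝓝 ‖a‖) := by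
    have h1 : Tendsto (fun p => ‖L (σ₀ p)‖) (𝓝 0) (𝓝 ‖a‖) := by
      rw [← hL0]
      exact ((L.continuous.tendsto _).comp h₀.σ_an.continuousAt.tendsto).norm
    exact h1.comp hp
  have han : 0 < ‖a‖ := norm_pos_iff.2 ha
  have hwc : Tendsto (fun s : ℂ => ‖w (s, 0)‖) (𝓝 0) (𝓝 ‖w 0‖) := (hw.norm.tendsto).comp hline
  have key : ∀ᶠ s in 𝓝 (0 : ℂ), ((‖a‖ / 2) ^ e * ‖s‖) ^ μ ≤ |B₀| * B₁ * (‖s‖ ^ μ' * (‖w 0‖ + 1)) := by
    filter_upwards [hp.eventually hlow, hp.eventually hle, hline.eventually hev, hline.eventually h.left, hline.eventually h.σ_mem,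
      hγ.eventually h₀.right, hLc.eventually (lt_mem_nhds (show ‖a‖ / 2 < ‖a‖ by linarith)),
      hwc.eventually (gt_mem_nhds (show ‖w 0‖ < ‖w 0‖ + 1 by linarith))] with s h1 h2 h3 h4 h5 h6 h7 h8
    obtain ⟨c, hc, h9⟩ := h6 (hX _ h5 _ ha)
    obtain ⟨y, hy⟩ : ∃ y, y = σ₀ (τ₀ (a • σ (s, 0))) := ⟨_, rfl⟩
    rw [← hy] at h1 h2 h7 h9
    have h10 : y = c⁻¹ • (a • σ (s, 0)) := by rw [h9, smul_smul, inv_mul_cancel₀ hc, one_smul]
    have h11 : τ y = (s, 0) := by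
      rw [h10, hτh _ _ (inv_ne_zero hc), hτh _ _ ha, h4]
    have h12 : τ (a⁻¹ • y) = (s, 0) := by rw [hτh _ _ (inv_ne_zero ha), h11]
    rw [h12, h3] at h2
    have hLy : L y ≠ 0 := by
      intro h13
      rw [h13, norm_zero] at h7
      linarith
    have h13 : Q y = s * L y ^ e := by
      have h14 := hτ y
      rw [h11] at h14
      rw [show s = Q y / L y ^ e from h14, div_mul_cancel₀ _ (pow_ne_zero _ hLy)]
    rw [h13] at h1
    calc ((‖a‖ / 2) ^ e * ‖s‖) ^ μ ≤ ‖s * L y ^ e‖ ^ μ := by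
          refine pow_le_pow_left₀ (by positivity) ?_ _
          rw [norm_mul, norm_pow, mul_comm]
          exact mul_le_mul_of_nonneg_left (pow_le_pow_left₀ (by positivity) h7.le _) (norm_nonneg _)
      _ ≤ B₀ * ‖oC Ω σ₀ (τ₀ (a • σ (s, 0)))‖ := h1
      _ ≤ |B₀| * ‖oC Ω σ₀ (τ₀ (a • σ (s, 0)))‖ := mul_le_mul_of_nonneg_right (le_abs_self _) (norm_nonneg _)
      _ ≤ |B₀| * (B₁ * ‖s ^ μ' * w (s, 0)‖) := mul_le_mul_of_nonneg_left h2 (abs_nonneg _)
      _ = |B₀| * B₁ * (‖s‖ ^ μ' * ‖w (s, 0)‖) := by rw [norm_mul, norm_pow]; ring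
      _ ≤ |B₀| * B₁ * (‖s‖ ^ μ' * (‖w 0‖ + 1)) := by gcongr
  obtain ⟨d, hd⟩ : ∃ d, μ' = μ + (d + 1) := ⟨μ' - μ - 1, by omega⟩
  have h1 : Tendsto (fun s : ℂ => |B₀| * B₁ * (‖s‖ ^ (d + 1) * (‖w 0‖ + 1))) (𝓝 0) (𝓝 0) := by
    have : Continuous fun s : ℂ => |B₀| * B₁ * (‖s‖ ^ (d + 1) * (‖w 0‖ + 1)) := by fun_prop
    simpa using this.tendsto 0
  have h2 : 0 < ((‖a‖ / 2) ^ e) ^ μ := by positivity
  have h3 : ∀ᶠ s in 𝓝[≠] (0 : ℂ), ((‖a‖ / 2) ^ e) ^ μ ≤ |B₀| * B₁ * (‖s‖ ^ (d + 1) * (‖w 0‖ + 1)) := by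
    filter_upwards [key.filter_mono nhdsWithin_le_nhds, self_mem_nhdsWithin] with s hs hs0
    have hs1 : 0 < ‖s‖ ^ μ := pow_pos (norm_pos_iff.2 hs0) _
    rw [hd, mul_pow, pow_add] at hs
    refine le_of_mul_le_mul_right ?_ hs1
    calc ((‖a‖ / 2) ^ e) ^ μ * ‖s‖ ^ μ ≤ _ := hs
      _ = _ := by ring
  have h4 := ge_of_tendsto (h1.mono_left nhdsWithin_le_nhds) h3
  linarith

/-- the equation of the curve has a simple zero along a transversal curve -/
theorem deriv_ne {X : Set V} {σ₀ : ℂ × ℂ → V} {τ₀ : V → ℂ × ℂ} (h₀ : IsChart X σ₀ τ₀) {L : V →L[ℂ] ℂ} (hL : L (σ₀ 0) ≠ 0) {Q : V → ℂ} {e : ℕ}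
    (hQs : ∀ (c : ℂ) y, Q (c • y) = c ^ e * Q y) {R : ℂ × ℂ → ℂ} (hR : AnalyticAt ℂ R 0) (hR0 : R 0 ≠ 0)
    (hred : ∀ᶠ p in 𝓝 (0 : ℂ × ℂ), Q (σ₀ p) = p.1 * R p) {H : ℂ → V} (hH : AnalyticAt ℂ H 0) (hHX : ∀ᶠ z in 𝓝 (0 : ℂ), H z ∈ X)
    (h0 : σ₀ 0 = H 0) (htr : (deriv (fun z => τ₀ (H z)) 0).1 ≠ 0) : ∃ q : ℂ, q ≠ 0 ∧ HasDerivAt (fun z => Q (H z)) q 0 := by
  have ht0 : τ₀ (H 0) = 0 := by
    rw [← h0]
    exact h₀.left.self_of_nhds
  have hτH : AnalyticAt ℂ (fun z => τ₀ (H z)) 0 := by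
    have h1 : AnalyticAt ℂ τ₀ (H 0) := by rw [← h0]; exact h₀.τ_an
    exact h1.comp hH
  have hτt : Tendsto (fun z => τ₀ (H z)) (𝓝 0) (𝓝 0) := by
    have := hτH.continuousAt.tendsto
    rwa [ht0] at this
  have hHt : Tendsto H (𝓝 0) (𝓝 (σ₀ 0)) := by
    rw [h0]
    exact hH.continuousAt.tendsto
  have hσH : AnalyticAt ℂ (fun z => σ₀ (τ₀ (H z))) 0 := by
    have h1 : AnalyticAt ℂ σ₀ (τ₀ (H 0)) := by rw [ht0]; exact h₀.σ_an
    exact AnalyticAt.comp (g := σ₀) (f := fun z => τ₀ (H z)) h1 hτH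
  have hRH : AnalyticAt ℂ (fun z => R (τ₀ (H z))) 0 := by
    have h1 : AnalyticAt ℂ R (τ₀ (H 0)) := by rw [ht0]; exact hR
    exact AnalyticAt.comp (g := R) (f := fun z => τ₀ (H z)) h1 hτH
  have hLH : AnalyticAt ℂ (fun z => L (H z)) 0 := (L.analyticAt _).comp hH
  have hLσ : AnalyticAt ℂ (fun z => L (σ₀ (τ₀ (H z)))) 0 := (L.analyticAt _).comp hσH
  have hLσ0 : L (σ₀ (τ₀ (H 0))) ≠ 0 := by rw [ht0]; exact hL
  have hq : AnalyticAt ℂ (fun z => (L (H z) / L (σ₀ (τ₀ (H z)))) ^ e * R (τ₀ (H z))) 0 := ((hLH.div hLσ hLσ0).pow e).mul hRH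
  have hd1 : HasDerivAt (fun z => (τ₀ (H z)).1) (deriv (fun z => τ₀ (H z)) 0).1 0 :=
    (ContinuousLinearMap.fst ℂ ℂ ℂ).hasFDerivAt.comp_hasDerivAt (0 : ℂ) hτH.differentiableAt.hasDerivAt
  have hd2 := hd1.mul hq.differentiableAt.hasDerivAt
  have e1 : (τ₀ (H 0)).1 = 0 := by rw [ht0]; rfl
  have e2 : (L (H 0) / L (σ₀ (τ₀ (H 0)))) ^ e * R (τ₀ (H 0)) = R 0 := by
    rw [ht0, h0, div_self, one_pow, one_mul]
    rw [← h0]
    exact hL
  refine ⟨(deriv (fun z => τ₀ (H z)) 0).1 * R 0, mul_ne_zero htr hR0, ?_⟩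
  have hd3 : HasDerivAt (fun z => (τ₀ (H z)).1 * ((L (H z) / L (σ₀ (τ₀ (H z)))) ^ e * R (τ₀ (H z))))
      ((deriv (fun z => τ₀ (H z)) 0).1 * R 0) 0 := by
    have h2 := hd2
    rw [e1, zero_mul, add_zero, e2] at h2
    exact h2
  refine hd3.congr_of_eventuallyEq ?_
  filter_upwards [hHt.eventually h₀.right, hHX, hτt.eventually hred, hLσ.continuousAt.eventually_ne hLσ0] with z h1 h2 h3 h4
  obtain ⟨c, hc, h5⟩ := h1 h2
  have h6 : L (H z) / L (σ₀ (τ₀ (H z))) = c := by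
    rw [div_eq_iff h4]
    conv_lhs => rw [h5]
    rw [map_smul, smul_eq_mul]
  rw [h6]
  conv_lhs => rw [h5]
  rw [hQs, h3]
  ring

/-- The families at a bubble. -/
theorem fam {𝒰 : Ultrafilter ℕ} {Φ : ℕ → ℂ → V} {G : ℂ → V} {r : ℝ} {M : ℕ} (hobj : Obj 𝒰 Φ 0 M G r) (hM : 1 ≤ M) {L : V →L[ℂ] ℂ}
    (hL : L (G 0) = 1) {Q : V → ℂ} {e : ℕ} (hQa : ∀ y, AnalyticAt ℂ Q y) (hQs : ∀ (c : ℂ) y, Q (c • y) = c ^ e * Q y) (hQ0 : Q (G 0) = 0)
    (hQ1 : HasDerivAt (fun z => Q (G z)) 1 0) :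
    ∃ KB : ℂ → ℂ, DifferentiableOn ℂ KB (ball 0 r) ∧ KB 0 = 1 ∧
      (∀ᶠ n in (𝒰 : Filter ℕ), DifferentiableOn ℂ (fun z => L (Φ n z)) (ball 0 r)) ∧
      (∀ᶠ n in (𝒰 : Filter ℕ), DifferentiableOn ℂ (fun z => Q (Φ n z)) (ball 0 r)) ∧
      (∀ᶠ n in (𝒰 : Filter ℕ), DifferentiableOn ℂ (fun z => Φ n z - L (Φ n z) • G 0) (ball 0 r)) ∧
      CC 𝒰 (fun n z => L (Φ n z)) (fun z => z ^ M * L (G z)) (ball 0 r) ∧
      CC 𝒰 (fun n z => Q (Φ n z)) (fun z => z ^ (e * M + 1) * KB z) (ball 0 r) ∧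
      CC 𝒰 (fun n z => Φ n z - L (Φ n z) • G 0) (fun z => z ^ M • (G z - L (G z) • G 0)) (ball 0 r) ∧
      ∃ c : ℕ → ℂ, Tendsto c 𝒰 (𝓝 0) ∧ (∀ᶠ n in (𝒰 : Filter ℕ), L (Φ n (c n)) = 0) ∧
        ∀ᶠ n in (𝒰 : Filter ℕ), Φ n (c n) - L (Φ n (c n)) • G 0 ≠ 0 := by
  have h00 : (0 : ℂ) ∈ ball (0 : ℂ) r := mem_ball_self hobj.pos
  have hnr : ball (0 : ℂ) r ∈ 𝓝 (0 : ℂ) := ball_mem_nhds _ hobj.pos
  have hQd : Differentiable ℂ Q := fun y => (hQa y).differentiableAt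
  have hQG : DifferentiableOn ℂ (fun z => Q (G z)) (ball 0 r) := hQd.comp_differentiableOn hobj.holG
  have hLG : DifferentiableOn ℂ (fun z => L (G z)) (ball 0 r) := L.differentiable.comp_differentiableOn hobj.holG
  have hKB : DifferentiableOn ℂ (dslope (fun z => Q (G z)) 0) (ball 0 r) := (Complex.differentiableOn_dslope hnr).2 hQG
  have hA : ∀ᶠ n in (𝒰 : Filter ℕ), DifferentiableOn ℂ (fun z => L (Φ n z)) (ball 0 r) :=
    hobj.hol.mono fun n hn => L.differentiable.comp_differentiableOn hn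
  have hccA : CC 𝒰 (fun n z => L (Φ n z)) (fun z => z ^ M * L (G z)) (ball 0 r) := by
    intro z₀ hz₀ z hz
    have h1 := (L.continuous.tendsto _).comp (hobj.cc z₀ hz₀ z hz)
    simp only [sub_zero, map_smul, smul_eq_mul] at h1
    exact h1
  refine ⟨dslope (fun z => Q (G z)) 0, hKB, ?_, hA, ?_, ?_, hccA, ?_, ?_, ?_⟩
  · rw [dslope_same]
    exact hQ1.deriv
  · exact hobj.hol.mono fun n hn => hQd.comp_differentiableOn hn
  · filter_upwards [hobj.hol, hA] with n h1 h2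
    exact h1.sub (h2.smul_const _)
  · intro z₀ hz₀ z hz
    have h1 := (hQd.continuous.tendsto _).comp (hobj.cc z₀ hz₀ z hz)
    have h2 : Q ((z₀ - 0) ^ M • G z₀) = z₀ ^ (e * M + 1) * dslope (fun z => Q (G z)) 0 z₀ := by
      have h3 : z₀ * dslope (fun z => Q (G z)) 0 z₀ = Q (G z₀) := by
        have h4 := sub_smul_dslope (fun z => Q (G z)) 0 z₀
        rw [hQ0, sub_zero, sub_zero, smul_eq_mul] at h4
        exact h4
      rw [hQs, sub_zero, pow_succ, mul_assoc, h3, ← pow_mul, mul_comm M e]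
    simp only [] at h1
    rw [h2] at h1
    exact h1
  · intro z₀ hz₀ z hz
    have h1 := hobj.cc z₀ hz₀ z hz
    have h2 := hccA z₀ hz₀ z hz
    have h3 := h1.sub (h2.smul_const (G 0))
    have h4 : (z₀ - 0) ^ M • G z₀ - (z₀ ^ M * L (G z₀)) • G 0 = z₀ ^ M • (G z₀ - L (G z₀) • G 0) := by
      rw [sub_zero, smul_sub, smul_smul]
    rw [h4] at h3
    exact h3
  · have hd : DifferentiableOn ℂ (fun z => z ^ M * L (G z)) (ball 0 r) := (differentiableOn_id.pow M).mul hLG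
    obtain ⟨c, hc, hc0⟩ := exists_zero hobj.pos hA hd hccA (by simp [show M ≠ 0 by omega]) (by
      have h1 : ∀ᶠ z in 𝓝[≠] (0 : ℂ), z ^ M * L (G z) ≠ 0 := by
        have h2 : ContinuousAt (fun z => L (G z)) 0 := (hLG.differentiableAt hnr).continuousAt
        have h3 : L (G 0) ≠ 0 := by rw [hL]; exact one_ne_zero
        filter_upwards [(h2.eventually_ne h3).filter_mono nhdsWithin_le_nhds, self_mem_nhdsWithin] with z h4 h5
        exact mul_ne_zero (pow_ne_zero _ h5) h4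
      exact h1.frequently.filter_mono nhdsWithin_le_nhds)
    refine ⟨c, hc, hc0, ?_⟩
    filter_upwards [hc0, hobj.nz, hc.eventually hnr] with n h1 h2 h3
    rw [h1, zero_smul, sub_zero]
    exact h2 _ h3

end Pool.Agent.SG2

end
end
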