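import Pool.Agent.H94.G6.M122
import Pool.Agent.H94.G6.M127
import Pool.Agent.H94.G6.M51
import Pool.Agent.H94.G6.M53

/-! The parts of this file: H36.BPL.GPc, H62.SA.ExtF. -/

section

/-!
# BPL GPc: Jacobians of functions which are regular along a prime divisor; the order of a form with logarithmic poles along any curve
-/

set_option autoImplicit false

noncomputable section

namespace Pool.Agent.H36.BPL

open Pool.Agent.H68.KR
open Pool.Agent.H23.Fano (Form regularForms PrimeDivisorOver)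
open Pool.Agent.H17LG.Variety (PoleAtMost)

variable {K : Type} [Field K] [Algebra ℂ K]

/-- evaluation of polynomials in one more variable -/
theorem aeval_cons {n : ℕ} (y : Fin n → K) (t : K) (p : MvPolynomial (Fin (n + 1)) ℂ) :
    MvPolynomial.aeval (Fin.cons t y : Fin (n + 1) → K) p =
      (MvPolynomial.finSuccEquiv ℂ n p).eval₂ (MvPolynomial.aeval y : MvPolynomial (Fin n) ℂ →ₐ[ℂ] K).toRingHom t := by
  induction p using MvPolynomial.induction_on with
  | C c =>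
    rw [MvPolynomial.aeval_C]
    have h1 : MvPolynomial.finSuccEquiv ℂ n (MvPolynomial.C c) = Polynomial.C (MvPolynomial.C c) := by
      rw [MvPolynomial.finSuccEquiv_apply, MvPolynomial.eval₂Hom_C]
      rfl
    rw [h1, Polynomial.eval₂_C]
    simp
  | add p q hp hq => rw [map_add, hp, hq, map_add, Polynomial.eval₂_add]
  | mul_X p i hp =>
    rw [map_mul, hp, map_mul, Polynomial.eval₂_mul, MvPolynomial.aeval_X]
    congr 1
    refine Fin.cases ?_ (fun j => ?_) i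
    · rw [MvPolynomial.finSuccEquiv_X_zero, Polynomial.eval₂_X, Fin.cons_zero]
    · rw [MvPolynomial.finSuccEquiv_X_succ, Polynomial.eval₂_C, Fin.cons_succ]
      simp

/-- the order of a polynomial in elements of the valuation ring -/
theorem ord_aeval_nonneg {ι : Type} (D : PrimeDivisorOver K 2) {s : ι → K} (hs : ∀ i, 0 ≤ D.ord (s i)) (p : MvPolynomial ι ℂ) :
    0 ≤ D.ord (MvPolynomial.aeval s p) := by
  induction p using MvPolynomial.induction_on with
  | C c =>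
    rw [MvPolynomial.aeval_C]
    exact D.ord_const c
  | add p q hp hq =>
    rw [map_add]
    exact D.ord.map_le_add hp hq
  | mul_X p i hp =>
    rw [map_mul, MvPolynomial.aeval_X, D.ord.map_mul]
    exact add_nonneg hp (hs i)

theorem ord_eval₂_nonneg {R : Type} [CommRing R] (D : PrimeDivisorOver K 2) (f : R →+* K) (hf : ∀ r, 0 ≤ D.ord (f r)) {a : K}
    (ha : 0 ≤ D.ord a) (p : Polynomial R) : 0 ≤ D.ord (p.eval₂ f a) := by
  induction p using Polynomial.induction_on' with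
  | add p q hp hq =>
    rw [Polynomial.eval₂_add]
    exact D.ord.map_le_add hp hq
  | monomial n c =>
    rw [Polynomial.eval₂_monomial, D.ord.map_mul, D.ord.map_pow]
    exact add_nonneg (hf c) (nsmul_nonneg ha n)

/-- two elements of the valuation ring are algebraically dependent modulo the maximal ideal -/
theorem exists_rel {z : Fin 2 → K} (hz : IsTranscendenceBasis ℂ z) (D : PrimeDivisorOver K 2) {s : Fin 1 → K} (hs : ∀ i, 0 ≤ D.ord (s i))
    {a : K} (ha : 0 ≤ D.ord a) : ∃ p : Polynomial (MvPolynomial (Fin 1) ℂ), p ≠ 0 ∧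
      0 < D.ord (p.eval₂ (MvPolynomial.aeval s : MvPolynomial (Fin 1) ℂ →ₐ[ℂ] K).toRingHom a) := by
  obtain ⟨t, ht⟩ := D.exists_uniformizer
  have ht0 : t ≠ 0 := by
    rintro rfl
    rw [D.ord.map_zero] at ht
    exact absurd ht (by simp)
  set y : Fin 2 → K := Fin.cons a s with hy
  have hyn : ∀ i, 0 ≤ D.ord (y i) := by
    intro i
    refine Fin.cases ?_ (fun j => ?_) i
    · rw [hy, Fin.cons_zero]; exact ha
    · rw [hy, Fin.cons_succ]; exact hs j
  -- three elements are dependent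
  have hdep : ¬ AlgebraicIndependent ℂ (Fin.cons t y : Fin 3 → K) := by
    intro h
    have h1 := h.cardinalMk_le_trdeg
    rw [← hz.cardinalMk_eq_trdeg] at h1
    simp only [Cardinal.mk_fin] at h1
    exact absurd (by exact_mod_cast h1) (show ¬ (3 ≤ 2) by norm_num)
  obtain ⟨q, hq0, hq⟩ : ∃ q : MvPolynomial (Fin 3) ℂ, MvPolynomial.aeval (Fin.cons t y : Fin 3 → K) q = 0 ∧ q ≠ 0 := by
    rw [algebraicIndependent_iff] at hdep
    push Not at hdep
    exact hdep
  rw [aeval_cons] at hq0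
  set Q : Polynomial (MvPolynomial (Fin 2) ℂ) := MvPolynomial.finSuccEquiv ℂ 2 q with hQ
  have hQ0 : Q ≠ 0 := by
    intro h
    apply hq
    exact (MvPolynomial.finSuccEquiv ℂ 2).injective (by rw [← hQ, h, map_zero])
  -- divide by the power of `t`
  obtain ⟨k, Q', hQQ', hQ'0⟩ : ∃ (k : ℕ) (Q' : Polynomial (MvPolynomial (Fin 2) ℂ)), Q = Polynomial.X ^ k * Q' ∧ Q'.coeff 0 ≠ 0 := by
    have h1 : Polynomial.X ^ Q.natTrailingDegree ∣ Q := by
      rw [Polynomial.X_pow_dvd_iff]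
      intro d hd
      exact Polynomial.coeff_eq_zero_of_lt_natTrailingDegree hd
    obtain ⟨Q', hQ'⟩ := h1
    refine ⟨_, Q', hQ', fun h0 => ?_⟩
    have h2 : Q.coeff Q.natTrailingDegree = Q'.coeff 0 := by
      have := Polynomial.coeff_X_pow_mul Q' Q.natTrailingDegree 0
      rw [zero_add, ← hQ'] at this
      exact this
    rw [h0] at h2
    exact hQ0 (Polynomial.trailingCoeff_eq_zero.1 h2)
  set ev : MvPolynomial (Fin 2) ℂ →+* K := (MvPolynomial.aeval y : MvPolynomial (Fin 2) ℂ →ₐ[ℂ] K).toRingHom with hev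
  have hevn : ∀ r, 0 ≤ D.ord (ev r) := fun r => ord_aeval_nonneg D hyn r
  have h1 : Q'.eval₂ ev t = 0 := by
    rw [hQQ', Polynomial.eval₂_mul, Polynomial.eval₂_pow, Polynomial.eval₂_X] at hq0
    exact (mul_eq_zero.1 hq0).resolve_left (pow_ne_zero _ ht0)
  have h2 : 0 < D.ord (ev (Q'.coeff 0)) := by
    have h3 : ev (Q'.coeff 0) = - (t * Q'.divX.eval₂ ev t) := by
      have h4 := congrArg (Polynomial.eval₂ ev t) (Polynomial.X_mul_divX_add Q')
      rw [Polynomial.eval₂_add, Polynomial.eval₂_mul, Polynomial.eval₂_X, Polynomial.eval₂_C, h1] at h4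
      linear_combination h4
    rw [h3, AddValuation.map_neg, D.ord.map_mul, ht]
    have h5 := ord_eval₂_nonneg D ev hevn (by rw [ht]; exact zero_le_one) Q'.divX (a := t)
    calc (0 : WithTop ℤ) < 1 := by exact_mod_cast one_pos
      _ = 1 + 0 := (add_zero _).symm
      _ ≤ 1 + D.ord (Q'.divX.eval₂ ev t) := by gcongr
  refine ⟨MvPolynomial.finSuccEquiv ℂ 1 (Q'.coeff 0), ?_, ?_⟩
  · intro h
    apply hQ'0
    exact (MvPolynomial.finSuccEquiv ℂ 1).injective (by rw [h, map_zero])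
  · rw [← aeval_cons]
    exact h2

/-- a relation whose derivative is a unit -/
theorem exists_sep {z : Fin 2 → K} (hz : IsTranscendenceBasis ℂ z) (D : PrimeDivisorOver K 2) {s : Fin 1 → K} (hs : ∀ i, 0 ≤ D.ord (s i))
    (hs' : ∀ p : MvPolynomial (Fin 1) ℂ, p ≠ 0 → D.ord (MvPolynomial.aeval s p) = 0)
    {a : K} (ha : 0 ≤ D.ord a) : ∃ p : Polynomial (MvPolynomial (Fin 1) ℂ),
      0 < D.ord (p.eval₂ (MvPolynomial.aeval s : MvPolynomial (Fin 1) ℂ →ₐ[ℂ] K).toRingHom a) ∧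
      D.ord (p.derivative.eval₂ (MvPolynomial.aeval s : MvPolynomial (Fin 1) ℂ →ₐ[ℂ] K).toRingHom a) = 0 := by
  classical
  set ev : MvPolynomial (Fin 1) ℂ →+* K := (MvPolynomial.aeval s : MvPolynomial (Fin 1) ℂ →ₐ[ℂ] K).toRingHom with hev
  have hevn : ∀ r, 0 ≤ D.ord (ev r) := fun r => ord_aeval_nonneg D hs r
  have hex : ∃ n : ℕ, ∃ p : Polynomial (MvPolynomial (Fin 1) ℂ), p ≠ 0 ∧ 0 < D.ord (p.eval₂ ev a) ∧ p.natDegree = n := by
    obtain ⟨p, h1, h2⟩ := exists_rel hz D hs ha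
    exact ⟨_, p, h1, h2, rfl⟩
  obtain ⟨p, hp0, hp, hpn⟩ := Nat.find_spec hex
  have hmin : ∀ q : Polynomial (MvPolynomial (Fin 1) ℂ), q ≠ 0 → 0 < D.ord (q.eval₂ ev a) → p.natDegree ≤ q.natDegree := by
    intro q hq1 hq2
    rw [hpn]
    exact Nat.find_min' hex ⟨q, hq1, hq2, rfl⟩
  refine ⟨p, hp, ?_⟩
  have hdeg : p.natDegree ≠ 0 := by
    intro h0
    obtain ⟨c, rfl⟩ := Polynomial.natDegree_eq_zero.1 h0
    have hc : c ≠ 0 := by
      rintro rfl
      exact hp0 (map_zero _)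
    rw [Polynomial.eval₂_C] at hp
    have h1 : D.ord (ev c) = 0 := hs' c hc
    rw [h1] at hp
    exact lt_irrefl _ hp
  have hd0 : p.derivative ≠ 0 := by
    intro h0
    exact hdeg (Polynomial.derivative_eq_zero.1 h0)
  have hd1 : p.derivative.natDegree < p.natDegree := Polynomial.natDegree_derivative_lt hdeg
  refine le_antisymm ?_ (ord_eval₂_nonneg D ev hevn ha _)
  by_contra hlt
  rw [not_le] at hlt
  exact absurd (hmin _ hd0 hlt) (by omega)

/-- derivations of polynomials -/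
theorem exists_deriv_eval₂ {E : K →+* LL} (hE : ∀ c : ℂ, E (algebraMap ℂ K c) = cst c) (D : PrimeDivisorOver K 2) {s : Fin 1 → K}
    (hs : ∀ i, 0 ≤ D.ord (s i)) {a : K} (ha : 0 ≤ D.ord a) (p : Polynomial (MvPolynomial (Fin 1) ℂ)) :
    ∃ A : K, 0 ≤ D.ord A ∧ ∀ G : LL, JL (E (p.eval₂ (MvPolynomial.aeval s : MvPolynomial (Fin 1) ℂ →ₐ[ℂ] K).toRingHom a)) G =
      E A * JL (E (s 0)) G + E (p.derivative.eval₂ (MvPolynomial.aeval s : MvPolynomial (Fin 1) ℂ →ₐ[ℂ] K).toRingHom a) * JL (E a) G := by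
  set ev : MvPolynomial (Fin 1) ℂ →+* K := (MvPolynomial.aeval s : MvPolynomial (Fin 1) ℂ →ₐ[ℂ] K).toRingHom with hev
  have hevn : ∀ r, 0 ≤ D.ord (ev r) := fun r => ord_aeval_nonneg D hs r
  -- coefficients
  have hco : ∀ r : MvPolynomial (Fin 1) ℂ, ∃ A : K, 0 ≤ D.ord A ∧ ∀ G : LL, JL (E (ev r)) G = E A * JL (E (s 0)) G := by
    intro r
    induction r using MvPolynomial.induction_on with
    | C c =>
      refine ⟨0, by rw [D.ord.map_zero]; exact le_top, fun G => ?_⟩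
      have h1 : ev (MvPolynomial.C c) = algebraMap ℂ K c := MvPolynomial.aeval_C _ _
      rw [h1, hE, JL_cst, map_zero]
      ring
    | add p q hp hq =>
      obtain ⟨A, hA, hA'⟩ := hp
      obtain ⟨B, hB, hB'⟩ := hq
      refine ⟨A + B, D.ord.map_le_add hA hB, fun G => ?_⟩
      rw [map_add, map_add, JL_add, hA', hB', map_add]
      ring
    | mul_X p i hp =>
      obtain ⟨A, hA, hA'⟩ := hp
      have hi : i = 0 := Subsingleton.elim _ _
      subst hi
      have hX : ev (MvPolynomial.X 0) = s 0 := MvPolynomial.aeval_X _ _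
      refine ⟨ev p + s 0 * A, D.ord.map_le_add (hevn p) ?_, fun G => ?_⟩
      · rw [D.ord.map_mul]
        exact add_nonneg (hs 0) hA
      · rw [map_mul, hX, map_mul, JL_mul, hA', map_add, map_mul]
        ring
  induction p using Polynomial.induction_on' with
  | add p q hp hq =>
    obtain ⟨A, hA, hA'⟩ := hp
    obtain ⟨B, hB, hB'⟩ := hq
    refine ⟨A + B, D.ord.map_le_add hA hB, fun G => ?_⟩
    rw [Polynomial.eval₂_add, map_add, JL_add, hA', hB', Polynomial.derivative_add, Polynomial.eval₂_add, map_add, map_add]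
    ring
  | monomial n c =>
    induction n with
    | zero =>
      obtain ⟨A, hA, hA'⟩ := hco c
      refine ⟨A, hA, fun G => ?_⟩
      rw [Polynomial.monomial_zero_left, Polynomial.eval₂_C, hA', Polynomial.derivative_C, Polynomial.eval₂_zero, map_zero]
      ring
    | succ n ih =>
      obtain ⟨A, hA, hA'⟩ := ih
      refine ⟨a * A, ?_, fun G => ?_⟩
      · rw [D.ord.map_mul]
        exact add_nonneg ha hA
      · have h1 : Polynomial.monomial (n + 1) c = Polynomial.monomial n c * Polynomial.X := (Polynomial.monomial_mul_X n c).symm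
        rw [h1, Polynomial.eval₂_mul, Polynomial.eval₂_X, map_mul, JL_mul, hA', Polynomial.derivative_mul, Polynomial.derivative_X, mul_one,
          Polynomial.eval₂_add, Polynomial.eval₂_mul, Polynomial.eval₂_X, map_add, map_mul, map_mul]
        ring

/-- The Jacobian of two functions which are regular along the divisor `D` has order at least `e - 1`, where `e` is the ramification index. -/
theorem le_vT_JL_reg {E : K →+* LL} (hE : ∀ c : ℂ, E (algebraMap ℂ K c) = cst c) {z : Fin 2 → K} (hz : IsTranscendenceBasis ℂ z)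
    (D : PrimeDivisorOver K 2) {e : ℕ} (he : 1 ≤ e)
    (hD : ∀ f : K, f ≠ 0 → ∃ n : ℤ, D.ord f = n ∧ vT (E f) = ((e * n : ℤ) : WithTop ℤ)) {a b : K} (ha : 0 ≤ D.ord a) (hb : 0 ≤ D.ord b) :
    ((e - 1 : ℤ) : WithTop ℤ) ≤ vT (JL (E a) (E b)) := by
  have heZ : (0 : ℤ) < e := by exact_mod_cast he
  have hnn : ∀ f : K, 0 ≤ D.ord f → 0 ≤ vT (E f) := by
    intro f hf
    by_cases h0 : f = 0
    · rw [h0, map_zero, AddValuation.map_zero]
      exact le_top
    obtain ⟨n, h1, h2⟩ := hD f h0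
    rw [h1] at hf
    rw [h2]
    have h3 : 0 ≤ n := by exact_mod_cast hf
    have h4 : (0 : ℤ) ≤ e * n := by positivity
    exact_mod_cast h4
  have hpos : ∀ f : K, 0 < D.ord f → ((e : ℤ) : WithTop ℤ) ≤ vT (E f) := by
    intro f hf
    by_cases h0 : f = 0
    · rw [h0, map_zero, AddValuation.map_zero]
      exact le_top
    obtain ⟨n, h1, h2⟩ := hD f h0
    rw [h1] at hf
    rw [h2]
    have h3 : 0 < n := by exact_mod_cast hf
    have h4 : (e : ℤ) ≤ e * n := by nlinarith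
    exact_mod_cast h4
  obtain ⟨s, hs, hs'⟩ := D.residue_trdeg
  -- the main step
  have key : ∀ c : K, 0 ≤ D.ord c → ∀ G : LL, 0 ≤ vT G → ((e - 1 : ℤ) : WithTop ℤ) ≤ vT (JL (E (s 0)) G) →
      ((e - 1 : ℤ) : WithTop ℤ) ≤ vT (JL (E c) G) := by
    intro c hc G hG hsG
    obtain ⟨p, hp1, hp2⟩ := exists_sep hz D (s := s) hs hs' hc
    obtain ⟨A, hA, hA'⟩ := exists_deriv_eval₂ hE D (s := s) hs hc p
    have h1 := hA' G
    set h := p.eval₂ (MvPolynomial.aeval s : MvPolynomial (Fin 1) ℂ →ₐ[ℂ] K).toRingHom c with hh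
    set h' := p.derivative.eval₂ (MvPolynomial.aeval s : MvPolynomial (Fin 1) ℂ →ₐ[ℂ] K).toRingHom c with hh'
    have h2 : ((e - 1 : ℤ) : WithTop ℤ) ≤ vT (JL (E h) G) := le_vT_JL' (hpos h hp1) hG
    have h3 : ((e - 1 : ℤ) : WithTop ℤ) ≤ vT (E A * JL (E (s 0)) G) := by
      have h4 := le_vT_mul (m := 0) (hnn A hA) hsG
      rwa [zero_add] at h4
    have h4 : E h' * JL (E c) G = JL (E h) G - E A * JL (E (s 0)) G := by
      rw [h1]
      ring
    have h5 : vT (E h') = 0 := by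
      have h6 : h' ≠ 0 := by
        intro h0
        rw [h0, D.ord.map_zero] at hp2
        exact absurd hp2 WithTop.top_ne_zero
      obtain ⟨n, h7, h8⟩ := hD h' h6
      rw [hp2] at h7
      have h9 : n = 0 := by exact_mod_cast h7.symm
      rw [h8, h9, mul_zero]
      rfl
    have h6 : vT (E h' * JL (E c) G) = vT (JL (E c) G) := by
      rw [AddValuation.map_mul, h5, zero_add]
    rw [← h6, h4]
    exact le_vT_sub h2 h3
  have hs0 := hnn (s 0) (hs 0)
  have hb' := hnn b hb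
  refine key a ha (E b) hb' ?_
  rw [JL_anti]
  refine le_vT_neg (key b hb (E (s 0)) hs0 ?_)
  rw [JL_self, AddValuation.map_zero]
  exact le_top

/-- The order of a form with logarithmic poles along an arbitrary curve. -/
theorem pole_free_logG (E : K →+* LL) (hE : ∀ c : ℂ, E (algebraMap ℂ K c) = cst c) {z : Fin 2 → K} (hz : IsTranscendenceBasis ℂ z)
    (hJ : ∃ a b : K, DX (E a) * DT (E b) - DX (E b) * DT (E a) ≠ 0)
    (M : ℕ) (H W : K) (a : Fin 2 → K) (Bd : PrimeDivisorOver K 2 → Prop)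
    (hpole : ∀ D : PrimeDivisorOver K 2, (¬ Bd D → PoleAtMost 0 D M H (Form.mk W a)) ∧
      (Bd D → PoleAtMost M D M H (Form.mk W a))) :
    0 ≤ vT (E H * (E W * (DX (E (a 0)) * DT (E (a 1)) - DX (E (a 1)) * DT (E (a 0)))) ^ M) ∨
      ∃ D : PrimeDivisorOver K 2, Bd D ∧ (∃ e : ℕ, 1 ≤ e ∧ ∀ f : K, f ≠ 0 → ∃ n : ℤ, D.ord f = n ∧ vT (E f) = ((e * n : ℤ) : WithTop ℤ)) ∧
        0 ≤ vT (E H * (E W * (DX (E (a 0)) * DT (E (a 1)) - DX (E (a 1)) * DT (E (a 0)))) ^ M) + M := by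
  have hpow : ∀ (x : LL) (m : ℤ) (n : ℕ), (m : WithTop ℤ) ≤ vT x → ((n * m : ℤ) : WithTop ℤ) ≤ vT (x ^ n) := by
    intro x m n hx
    induction n with
    | zero => rw [pow_zero, AddValuation.map_one]; simp
    | succ n ih =>
      rw [pow_succ]
      have h := le_vT_mul ih hx
      have e1 : (n : ℤ) * m + m = ((n + 1 : ℕ) : ℤ) * m := by push_cast; ring
      rwa [e1] at h
  by_cases hall : ∀ f : K, 0 ≤ vT (E f)
  · left
    have h1 : 0 ≤ vT (JL (E (a 0)) (E (a 1))) := JL_nonneg (hall _) (hall _)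
    have h2 := le_vT_mul (m := 0) (n := 0) (hall W) h1
    have h3 := hpow _ _ M h2
    have h4 := le_vT_mul (m := 0) (hall H) h3
    have e1 : (0 : ℤ) + M * (0 + 0) = 0 := by ring
    rw [e1] at h4
    exact h4
  · push Not at hall
    obtain ⟨s, hs, hs'⟩ := exists_residue hE hJ hall
    obtain ⟨D, e, he, hD⟩ := exists_primeDivisorG hE hs hs' hall
    have hX : ∀ c : ℂ, DX (E (algebraMap ℂ K c)) = 0 := fun c => by rw [hE]; exact DX_cst c
    have hT : ∀ c : ℂ, DT (E (algebraMap ℂ K c)) = 0 := fun c => by rw [hE]; exact DT_cst c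
    obtain ⟨J, hJs, hJm⟩ := exists_jac (F := LL) E DX DT (fun a b => DX_mul a b)
      (fun a b => DT_mul a b) hX hT
    have heZ : (0 : ℤ) < e := by exact_mod_cast he
    have hnn : ∀ f : K, 0 ≤ D.ord f → 0 ≤ vT (E f) := by
      intro f hf
      by_cases h0 : f = 0
      · rw [h0, map_zero, AddValuation.map_zero]
        exact le_top
      obtain ⟨n, h1, h2⟩ := hD f h0
      rw [h1] at hf
      rw [h2]
      have h3 : 0 ≤ n := by exact_mod_cast hf
      have h4 : (0 : ℤ) ≤ e * n := by positivity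
      exact_mod_cast h4
    have hgen : ∀ ξ : Form K 2, ξ ∈ regularForms 2 D.localRing → ((e - 1 : ℤ) : WithTop ℤ) ≤ vT (J ξ) := by
      intro ξ hξ
      unfold regularForms at hξ
      induction hξ using AddSubgroup.closure_induction with
      | mem x hx =>
        obtain ⟨c, b', hc, hb', rfl⟩ := hx
        rw [hJm]
        have h1 := le_vT_JL_reg hE hz D he hD (hb' 0) (hb' 1)
        have h2 := le_vT_mul (m := 0) (hnn c hc) h1
        rw [zero_add] at h2
        exact h2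
      | zero =>
        rw [map_zero, AddValuation.map_zero]
        exact le_top
      | add x y _ _ hx hy => rw [map_add]; exact le_vT_add hx hy
      | neg x _ hx => rw [map_neg]; exact le_vT_neg hx
    have hcomm : ∀ (g : K) (η : Form K 2), Form.mk W a = g • η →
        E H * (E W * (DX (E (a 0)) * DT (E (a 1)) - DX (E (a 1)) * DT (E (a 0)))) ^ M =
          E (H * g ^ M) * J η ^ M := by
      intro g η hω
      rw [← hJm, hω, hJs, map_mul, map_pow]
      ring
    by_cases hB : Bd D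
    · right
      refine ⟨D, hB, ⟨e, he, hD⟩, ?_⟩
      obtain ⟨g, η, hη, hω, hord⟩ := (hpole D).2 hB
      rw [hcomm g η hω]
      have h2 : ((M * (e - 1) : ℤ) : WithTop ℤ) ≤ vT (J η ^ M) := hpow _ _ M (hgen η hη)
      by_cases h0 : H * g ^ M = 0
      · have h10 : E (H * g ^ M) * J η ^ M = 0 := by
          rw [h0, map_zero]
          ring
        rw [h10, AddValuation.map_zero]
        simp
      obtain ⟨n, h3, h4⟩ := hD _ h0
      rw [h3] at hord
      have h5 : (0 : ℤ) ≤ n + M := by exact_mod_cast hord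
      have h6 : ((e * n : ℤ) : WithTop ℤ) ≤ vT (E (H * g ^ M)) := h4.ge
      have h7 := le_vT_mul h6 h2
      have h8 : (0 : ℤ) ≤ (e * n + M * (e - 1)) + M := by
        have h9 : (e * n + M * (e - 1)) + M = (e : ℤ) * (n + M) := by ring
        rw [h9]
        positivity
      calc (0 : WithTop ℤ) ≤ (((e * n + M * (e - 1)) + M : ℤ) : WithTop ℤ) := by exact_mod_cast h8
        _ = ((e * n + M * (e - 1) : ℤ) : WithTop ℤ) + M := by push_cast; rfl
        _ ≤ _ := by gcongr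
    · left
      obtain ⟨g, η, hη, hω, hord⟩ := (hpole D).1 hB
      have hord' : 0 ≤ D.ord (H * g ^ M) := by
        simpa using hord
      rw [hcomm g η hω]
      have h1 : ((0 : ℤ) : WithTop ℤ) ≤ vT (J η) := le_vT_mono (by omega) (hgen η hη)
      have h3 := le_vT_mul (m := 0) (hnn _ hord') (hpow _ _ M h1)
      have e1 : (0 : ℤ) + M * 0 = 0 := by ring
      rw [e1] at h3
      exact h3

end Pool.Agent.H36.BPL

end
end

section

/-!
# SA ExtF: poles of the canonical form pulled back by an arbitrary map, boundary given by several forms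

As `Pool.Agent.H68.KR.ExtG` (written by helper68), the boundary is the common zero set of the forms `Hf i`.
-/

set_option autoImplicit false

open MvPolynomial Topology Filter
open Pool.Agent.H23.Fano (Form regularForms PrimeDivisorOver)
open Pool.Agent.H17LG.Variety (FunField ratio PoleAtMost)
open Pool.Agent.H68.KR

noncomputable section

namespace Pool.Agent.H62.SA

variable {N : ℕ} (P : Ideal (MvPolynomial (Fin (N + 1)) ℂ)) [P.IsPrime]

private theorem ExtF_an_snd {c : ℂ → ℂ} (hc : AnalyticAt ℂ c 0) :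
    AnalyticAt ℂ (fun u : ℂ × ℂ => c u.1 + u.2) 0 := by
  have h1 : AnalyticAt ℂ (fun u : ℂ × ℂ => u.1) 0 := analyticAt_fst
  have h2 : AnalyticAt ℂ (fun u : ℂ × ℂ => c u.1) 0 :=
    AnalyticAt.fun_comp (g := c) (f := fun u : ℂ × ℂ => u.1) hc h1
  exact h2.add analyticAt_snd

private theorem ExtF_an_shear {m x₁ : ℂ} {c : ℂ → ℂ} (hc : AnalyticAt ℂ c 0) :
    AnalyticAt ℂ (shear m x₁ c) 0 := by
  have h2 := ExtF_an_snd hc
  have h1 : AnalyticAt ℂ (fun u : ℂ × ℂ => x₁ + u.1 + m * (c u.1 + u.2)) 0 :=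
    (analyticAt_const.add analyticAt_fst).add (analyticAt_const.mul h2)
  exact h1.prod h2

private theorem ExtF_jac_shear {m x₁ : ℂ} {c : ℂ → ℂ} {u : ℂ × ℂ}
    (hc : DifferentiableAt ℂ c u.1) : jac (shear m x₁ c) u = 1 := by
  have h2 : HasFDerivAt (fun v : ℂ × ℂ => c v.1 + v.2)
      (deriv c u.1 • ContinuousLinearMap.fst ℂ ℂ ℂ + ContinuousLinearMap.snd ℂ ℂ ℂ) u := by
    exact (hc.hasDerivAt.comp_hasFDerivAt u hasFDerivAt_fst).add hasFDerivAt_snd
  have h1 : HasFDerivAt (fun v : ℂ × ℂ => x₁ + v.1 + m * (c v.1 + v.2))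
      (ContinuousLinearMap.fst ℂ ℂ ℂ + m • (deriv c u.1 • ContinuousLinearMap.fst ℂ ℂ ℂ +
        ContinuousLinearMap.snd ℂ ℂ ℂ)) u := by
    exact (hasFDerivAt_fst.const_add x₁).add (h2.const_mul m)
  simp only [jac, shear, dx, dy]
  rw [h1.fderiv, h2.fderiv]
  simp

/-- Non-degeneracy is preserved by the shear. -/
private theorem ExtF_nd {m x₁ : ℂ} {c : ℂ → ℂ} (hc : AnalyticAt ℂ c 0) {g : ℂ × ℂ → ℂ}
    (hg : ∀ᶠ u in 𝓝 (0 : ℂ × ℂ), g (shear m x₁ c u) = 0) :
    ∀ᶠ v in 𝓝 (shear m x₁ c 0), g v = 0 := by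
  have h0 : (shear m x₁ c 0).1 - m * (shear m x₁ c 0).2 - x₁ = 0 := by
    simp only [shear, Prod.fst_zero, Prod.snd_zero]
    ring
  have hcont : ContinuousAt (fun v : ℂ × ℂ => ((v.1 - m * v.2 - x₁, v.2 - c (v.1 - m * v.2 - x₁)) : ℂ × ℂ))
      (shear m x₁ c 0) := by
    have ha : ContinuousAt (fun v : ℂ × ℂ => v.1 - m * v.2 - x₁) (shear m x₁ c 0) := by
      fun_prop
    have hb : ContinuousAt (fun v : ℂ × ℂ => c (v.1 - m * v.2 - x₁)) (shear m x₁ c 0) :=
      ContinuousAt.comp' (f := fun v : ℂ × ℂ => v.1 - m * v.2 - x₁) (g := c)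
        (by rw [h0]; exact hc.continuousAt) ha
    exact ha.prodMk (continuousAt_snd.sub hb)
  have heta : ((fun v : ℂ × ℂ => ((v.1 - m * v.2 - x₁, v.2 - c (v.1 - m * v.2 - x₁)) : ℂ × ℂ))
      (shear m x₁ c 0)) = 0 := by
    simp only [h0]
    simp [shear]
  have h1 : ∀ᶠ v in 𝓝 (shear m x₁ c 0), g (shear m x₁ c
      ((fun v : ℂ × ℂ => ((v.1 - m * v.2 - x₁, v.2 - c (v.1 - m * v.2 - x₁)) : ℂ × ℂ)) v)) = 0 := by
    have h3 := hcont.tendsto
    have h4 : (((shear m x₁ c 0).1 - m * (shear m x₁ c 0).2 - x₁,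
        (shear m x₁ c 0).2 - c ((shear m x₁ c 0).1 - m * (shear m x₁ c 0).2 - x₁)) : ℂ × ℂ) = 0 := heta
    rw [h4] at h3
    exact h3.eventually hg
  refine h1.mono fun v hv => ?_
  have h2 : shear m x₁ c (v.1 - m * v.2 - x₁, v.2 - c (v.1 - m * v.2 - x₁)) = v := by
    simp only [shear]
    ext
    · simp only
      ring
    · simp only
      ring
  simpa only [h2] using hv

private theorem ExtF_alg {F : Type} [Field F] (EH EW e1 e2 y0 yo yl : F) (h0 : y0 ≠ 0)
    (ho : yo ≠ 0) (M : ℕ) :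
    EH * (yl / yo) * (EW * (e1 / y0 ^ 3)) ^ M * (e2 * y0 ^ (3 * M + 1)) =
      yl * (EH * (y0 / yo) * EW ^ M * e2 * e1 ^ M) := by
  have h1 : (y0 ^ 3) ^ M ≠ 0 := pow_ne_zero _ (pow_ne_zero _ h0)
  have h2 : y0 ^ (3 * M + 1) = (y0 ^ 3) ^ M * y0 := by rw [pow_succ, pow_mul]
  rw [mul_pow, div_pow, h2]
  field_simp

private theorem ExtF_prod_an (θ : ℂ × ℂ → ℂ × ℂ) (G : List (ℂ × ℂ → ℂ)) (hG : ∀ g ∈ G, AnalyticAt ℂ (fun u => g (θ u)) 0) :
    AnalyticAt ℂ (fun u => (G.map fun g => g (θ u)).prod) 0 := by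
  induction G with
  | nil =>
    simp only [List.map_nil, List.prod_nil]
    exact analyticAt_const
  | cons g G ih =>
    simp only [List.map_cons, List.prod_cons]
    exact (hG g List.mem_cons_self).mul (ih fun g' hg' => hG g' (List.mem_cons_of_mem _ hg'))

/-- An element of `ℂ⟦X⟧⟦T⟧` without constant coefficient has order at least one. -/
private theorem ExtF_one_le {F : PowerSeries (PowerSeries ℂ)} (hF : PowerSeries.coeff 0 F = 0) :
    (((1 : ℕ) : ℤ) : WithTop ℤ) ≤ vT (emb F) := by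
  rw [PowerSeries.coeff_zero_eq_constantCoeff_apply] at hF
  obtain ⟨F', rfl⟩ := PowerSeries.X_dvd_iff.2 hF
  have h1 : vT (emb (PowerSeries.X : PowerSeries (PowerSeries ℂ))) = ((1 : ℕ) : ℤ) :=
    vT_emb (by rw [PowerSeries.order_X]; rfl)
  rw [map_mul, AddValuation.map_mul, h1]
  exact le_add_of_nonneg_right (vT_emb_nonneg F')

/-- The order of the product of the functions in `G`. -/
private theorem ExtF_vprod (θ : ℂ × ℂ → ℂ × ℂ) (G : List (ℂ × ℂ → ℂ))
    (hG : ∀ g ∈ G, AnalyticAt ℂ (fun u => g (θ u)) 0)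
    (hG0 : ∀ g ∈ G, PowerSeries.coeff 0 (t2 fun u => g (θ u)) = 0) :
    (((G.length : ℕ) : ℤ) : WithTop ℤ) ≤ vT (emb (t2 fun u => (G.map fun g => g (θ u)).prod)) := by
  induction G with
  | nil =>
    exact vT_emb_nonneg _
  | cons g G ih =>
    have h1 := ih (fun g' hg' => hG g' (List.mem_cons_of_mem _ hg')) (fun g' hg' => hG0 g' (List.mem_cons_of_mem _ hg'))
    have h2 := ExtF_one_le (hG0 g List.mem_cons_self)
    have h3 : t2 (fun u => ((g :: G).map fun g => g (θ u)).prod) =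
        t2 (fun u => g (θ u)) * t2 (fun u => (G.map fun g => g (θ u)).prod) := by
      rw [← t2_mul (hG g List.mem_cons_self) (ExtF_prod_an θ G fun g' hg' => hG g' (List.mem_cons_of_mem _ hg'))]
      simp only [List.map_cons, List.prod_cons]
    rw [h3, map_mul, AddValuation.map_mul, List.length_cons]
    have h4 : (((G.length + 1 : ℕ) : ℤ) : WithTop ℤ) = (((1 : ℕ) : ℤ) : WithTop ℤ) + (((G.length : ℕ) : ℤ) : WithTop ℤ) := by
      rw [← WithTop.coe_add]
      congr 1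
      push_cast
      ring
    rw [h4]
    exact add_le_add h2 h1

/-- Change of the affine chart for a homogeneous polynomial. -/
private theorem ExtF_hom {k : ℕ} (z : Fin (k + 1) → FunField P) (hz : IsTranscendenceBasis ℂ z)
    {l l' : Fin (N + 1)} (hl : Pool.Agent.H17GT.coordFun P l ≠ 0)
    (hl' : Pool.Agent.H17GT.coordFun P l' ≠ 0) {e : ℕ}
    {Q : MvPolynomial (Fin (N + 1)) ℂ} (hQ : Q.IsHomogeneous e) :
    aeval (fun i => ratio P i l') Q = ratio P l l' ^ e * aeval (fun i => ratio P i l) Q ∧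
      ratio P l l' * ratio P l' l = 1 := by
  obtain ⟨x, hx0, hgen, -, hxP, hxc, hxr⟩ := exists_point P z hz
  have hxl : x l ≠ 0 := fun h0 => hl ((hxc l).1 h0)
  have hxl' : x l' ≠ 0 := fun h0 => hl' ((hxc l').1 h0)
  have key : ∀ j, x j ≠ 0 → aeval (fun i => ratio P i j) Q = (x j)⁻¹ ^ e * aeval x Q := by
    intro j hj
    have h1 : (fun i => ratio P i j) = fun i => (x j)⁻¹ * x i := by
      funext i
      rw [← hxr, div_eq_inv_mul]
    rw [h1, aeval_def, aeval_def, eval₂_of_isHomogeneous _ hQ]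
  refine ⟨?_, ?_⟩
  · rw [key l' hxl', key l hxl, ← hxr l l', div_pow]
    have h1 := pow_ne_zero e hxl
    have h2 := pow_ne_zero e hxl'
    rw [inv_pow, inv_pow]
    field_simp
  · rw [← hxr, ← hxr]
    field_simp

private theorem ExtF_div_ne {F : Type} [Field F] {a b : F} (ha : a ≠ 0) (hb : b ≠ 0) : a / b ^ 3 ≠ 0 :=
  div_ne_zero ha (pow_ne_zero _ hb)

private theorem ExtF_divmul {F : Type} [Field F] (a : F) {b : F} (hb : b ≠ 0) : a / b * b = a :=
  div_mul_cancel₀ a hb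

/-- The zero set of an analytic function which does not vanish near `0` contains no open set near `0`. -/
private theorem ExtF_ident {f : ℂ × ℂ → ℂ} (hf : AnalyticAt ℂ f 0) (h0 : ¬ ∀ᶠ u in 𝓝 (0 : ℂ × ℂ), f u = 0) :
    ∀ᶠ p in 𝓝 (0 : ℂ × ℂ), ¬ ∀ᶠ u in 𝓝 p, f u = 0 := by
  obtain ⟨r, hr, hB⟩ := Metric.eventually_nhds_iff_ball.1 hf.eventually_analyticAt
  filter_upwards [Metric.ball_mem_nhds (0 : ℂ × ℂ) hr] with p hp hcon
  have h1 : AnalyticOnNhd ℂ f (Metric.ball (0 : ℂ × ℂ) r) := fun u hu => hB u hu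
  have h2 := h1.eqOn_zero_of_preconnected_of_eventuallyEq_zero
    (convex_ball (0 : ℂ × ℂ) r).isPreconnected hp hcon
  refine h0 ?_
  filter_upwards [Metric.ball_mem_nhds (0 : ℂ × ℂ) hr] with u hu
  exact h2 hu

theorem exists_extF (z : Fin 2 → FunField P) (hz : IsTranscendenceBasis ℂ z)
    (hsm : ∀ x ∈ cone P, ∃ t σ, CChart P x t σ)
    {t₀ : Fin 3 → Fin (N + 1)} (ht₀ : X (t₀ 0) ∉ P) {o : Fin (N + 1)} (ho : X o ∉ P) {M : ℕ} (hM : 1 ≤ M)
    {s : ℕ} {e : Fin s → ℕ} {Hf : Fin s → MvPolynomial (Fin (N + 1)) ℂ} (hHf : ∀ i, (Hf i).IsHomogeneous (e i))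
    {H W : FunField P}
    (hpole : ∀ l, X l ∉ P → ∀ D : PrimeDivisorOver (FunField P) 2,
      (¬ OnBd P Hf D → PoleAtMost 0 D M (H * ratio P l o)
        (Form.mk W ![ratio P (t₀ 1) (t₀ 0), ratio P (t₀ 2) (t₀ 0)])) ∧
      (OnBd P Hf D → PoleAtMost M D M (H * ratio P l o)
        (Form.mk W ![ratio P (t₀ 1) (t₀ 0), ratio P (t₀ 2) (t₀ 0)])))
    {d : ℕ} {A B : MvPolynomial (Fin (N + 1)) ℂ} (hA : A.IsHomogeneous d) (hB : B.IsHomogeneous d)
    (hBP : B ∉ P)
    (hrep : ∀ l, X l ∉ P → (H * ratio P (t₀ 0) o * W ^ M) * aeval (fun i => ratio P i l) B =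
      aeval (fun i => ratio P i l) A)
    {φ : ℂ × ℂ → Fin (N + 1) → ℂ} (hφ : AnalyticAt ℂ φ 0) (hφX : ∀ᶠ u in 𝓝 (0 : ℂ × ℂ), φ u ∈ cone P)
    (G : List (ℂ × ℂ → ℂ)) (hG : G.length = M)
    (hGan : ∀ g ∈ G, AnalyticAt ℂ g 0) (hG0 : ∀ g ∈ G, ∀ᶠ u in 𝓝 (0 : ℂ × ℂ), (∀ i, eval (φ u) (Hf i) = 0) → g u = 0) :
    ∃ Φ : ℂ × ℂ → ℂ, AnalyticAt ℂ Φ 0 ∧ ∀ᶠ u in 𝓝 (0 : ℂ × ℂ),
      eval (φ u) (B * X (t₀ 0) ^ (3 * M + 1)) * Φ u =
        (G.map fun g => g u).prod * (eval (φ u) A * D3 t₀ (φ u) (d1 φ u) (d2 φ u) ^ M) := by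
  classical
  by_cases hD0 : ∀ᶠ u in 𝓝 (0 : ℂ × ℂ), D3 t₀ (φ u) (d1 φ u) (d2 φ u) = 0
  · refine ⟨fun _ => 0, analyticAt_const, ?_⟩
    filter_upwards [hD0] with u hu
    rw [hu, zero_pow (by omega), mul_zero, mul_zero, mul_zero]
  by_contra hne
  have hBX : (B * X (t₀ 0) ^ (3 * M + 1)).IsHomogeneous (d + (3 * M + 1)) :=
    hB.mul (isHomogeneous_X_pow _ _)
  have hBXP : B * X (t₀ 0) ^ (3 * M + 1) ∉ P := by
    intro hmem
    rcases (inferInstance : P.IsPrime).mem_or_mem hmem with h1 | h1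
    · exact hBP h1
    · exact ht₀ ((inferInstance : P.IsPrime).mem_of_pow_mem _ h1)
  have hA'an : AnalyticAt ℂ
      (fun u => eval (φ u) A * D3 t₀ (φ u) (d1 φ u) (d2 φ u) ^ M) 0 :=
    (analyticAt_eval hφ A).mul ((analyticAt_D3 t₀ hφ).pow M)
  have hPan : AnalyticAt ℂ (fun u => (G.map fun g => g u).prod) 0 := ExtF_prod_an (fun u => u) G hGan
  have hA''an : AnalyticAt ℂ
      (fun u => (G.map fun g => g u).prod * (eval (φ u) A * D3 t₀ (φ u) (d1 φ u) (d2 φ u) ^ M)) 0 :=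
    hPan.mul hA'an
  have hB'an : AnalyticAt ℂ (fun u => eval (φ u) (B * X (t₀ 0) ^ (3 * M + 1))) 0 :=
    analyticAt_eval hφ _
  have hB'0 : ¬ ∀ᶠ u in 𝓝 (0 : ℂ × ℂ), eval (φ u) (B * X (t₀ 0) ^ (3 * M + 1)) = 0 :=
    nd_of_D3 P hsm hφ hφX hD0 _ _ hBX hBXP
  have hne' : ¬ ∃ Φ : ℂ × ℂ → ℂ, AnalyticAt ℂ Φ 0 ∧ ∀ᶠ u in 𝓝 (0 : ℂ × ℂ),
      (fun u => (G.map fun g => g u).prod * (eval (φ u) A * D3 t₀ (φ u) (d1 φ u) (d2 φ u) ^ M)) u =
        (fun u => eval (φ u) (B * X (t₀ 0) ^ (3 * M + 1))) u * Φ u := by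
    rintro ⟨Φ, hΦ, hΦ'⟩
    exact hne ⟨Φ, hΦ, hΦ'.mono fun u hu => hu.symm⟩
  have hGa : ∀ᶠ p in 𝓝 (0 : ℂ × ℂ), ∀ g ∈ G, AnalyticAt ℂ g p :=
    (Filter.eventually_all_finite (List.finite_toSet G)).2 fun g hg => (hGan g hg).eventually_analyticAt
  have hGb : ∀ᶠ p in 𝓝 (0 : ℂ × ℂ), ∀ g ∈ G, ∀ᶠ u in 𝓝 p, (∀ i, eval (φ u) (Hf i) = 0) → g u = 0 :=
    (Filter.eventually_all_finite (List.finite_toSet G)).2 fun g hg => (hG0 g hg).eventually_nhds
  -- a coordinate which does not vanish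
  obtain ⟨l, hl0⟩ : ∃ l, φ 0 l ≠ 0 := by
    by_contra h
    push Not at h
    exact hφX.self_of_nhds.1 (funext h)
  have hl : X l ∉ P := by
    intro hmem0
    have h1 := hφX.self_of_nhds.2 (X l) hmem0
    rw [eval_X] at h1
    exact hl0 h1
  have hφl : AnalyticAt ℂ (fun u => φ u l) 0 := by
    have h1 := analyticAt_eval hφ (X l)
    simpa only [eval_X] using h1
  have hU : {p : ℂ × ℂ | AnalyticAt ℂ φ p ∧ (∀ᶠ u in 𝓝 p, φ u ∈ cone P) ∧
      (¬ ∀ᶠ u in 𝓝 p, D3 t₀ (φ u) (d1 φ u) (d2 φ u) = 0) ∧ φ p l ≠ 0 ∧ (∀ g ∈ G, AnalyticAt ℂ g p) ∧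
      (∀ g ∈ G, ∀ᶠ u in 𝓝 p, (∀ i, eval (φ u) (Hf i) = 0) → g u = 0)} ∈ 𝓝 (0 : ℂ × ℂ) :=
    hφ.eventually_analyticAt.and (hφX.eventually_nhds.and
      ((ExtF_ident (analyticAt_D3 t₀ hφ) hD0).and ((hφl.continuousAt.eventually_ne hl0).and (hGa.and hGb))))
  obtain ⟨m, x₁, c, j, k', hc, ⟨hσ, hmem, hDp, hlp, hGan', hG0'⟩, hordA, hordB, hjk⟩ :=
    exists_curve hA''an hB'an hB'0 hne' hU
  have hθ : AnalyticAt ℂ (shear m x₁ c) 0 := ExtF_an_shear hc
  have hψ : AnalyticAt ℂ (fun u => φ (shear m x₁ c u)) 0 :=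
    AnalyticAt.fun_comp (g := φ) (f := shear m x₁ c) hσ hθ
  have hmemψ : ∀ᶠ u in 𝓝 (0 : ℂ × ℂ), ∀ Q ∈ P, eval (φ (shear m x₁ c u)) Q = 0 :=
    hθ.continuousAt.eventually (hmem.mono fun u hu => hu.2)
  have hndψ : ∀ (d : ℕ) (Q : MvPolynomial (Fin (N + 1)) ℂ), Q.IsHomogeneous d → Q ∉ P →
      ¬ ∀ᶠ u in 𝓝 (0 : ℂ × ℂ), eval (φ (shear m x₁ c u)) Q = 0 := fun d Q hQ hQP hQ0 =>
    nd_of_D3 P hsm hσ hmem hDp d Q hQ hQP (ExtF_nd hc hQ0)
  have hψi : ∀ i, AnalyticAt ℂ (fun u => φ (shear m x₁ c u) i) 0 := fun i => by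
    have h1 := analyticAt_eval hψ (X i)
    simpa only [eval_X] using h1
  obtain ⟨E, hE1, hE2, hE3, hE4⟩ := exists_embedding P z hz hψ hmemψ hndψ
  have hy : ∀ i, X i ∉ P → emb (t2 fun u => φ (shear m x₁ c u) i) ≠ 0 := by
    intro i hi h0
    have h1 : t2 (fun u => φ (shear m x₁ c u) i) = 0 := by
      apply emb_injective
      rw [h0, map_zero]
    rw [t2_eq_zero_iff (hψi i)] at h1
    refine hndψ 1 (X i) (isHomogeneous_X _ _) hi (h1.mono fun u hu => ?_)
    rw [eval_X]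
    exact hu
  have hGθ : ∀ g ∈ G, AnalyticAt ℂ (fun u => g (shear m x₁ c u)) 0 := fun g hg =>
    AnalyticAt.fun_comp (g := g) (f := shear m x₁ c) (hGan' g hg) hθ
  -- a function which does not vanish at `0` has order `0`
  have hv0 : ∀ f : ℂ × ℂ → ℂ, AnalyticAt ℂ f 0 → f 0 ≠ 0 → vT (emb (t2 f)) = 0 := by
    intro f hf hf0
    refine vT_emb_of_constantCoeff_ne fun h0 => hf0 ?_
    rw [← PowerSeries.coeff_zero_eq_constantCoeff_apply, coeff_t2_iff hf 0] at h0
    exact h0.self_of_nhds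
  set yl : LL := emb (t2 fun u => φ (shear m x₁ c u) l) with hyldef
  have hyl0 : yl ≠ 0 := hy l hl
  have hvl : vT yl = 0 := hv0 _ (hψi l) hlp
  -- the Jacobian
  have hD3e : ∀ᶠ u in 𝓝 (0 : ℂ × ℂ), D3 t₀ (φ (shear m x₁ c u)) (d1 (fun u => φ (shear m x₁ c u)) u)
      (d2 (fun u => φ (shear m x₁ c u)) u) =
      D3 t₀ (φ (shear m x₁ c u)) (d1 φ (shear m x₁ c u)) (d2 φ (shear m x₁ c u)) := by
    have h1 := D3_comp t₀ (φ := fun u => φ (shear m x₁ c u)) (c := fun _ => (1 : ℂ))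
      (analyticAt_const (x := (0 : ℂ × ℂ))) hθ hσ (Filter.Eventually.of_forall fun u => (one_smul ℂ _).symm)
    have h2 : ∀ᶠ u in 𝓝 (0 : ℂ × ℂ), DifferentiableAt ℂ c u.1 := by
      have h3 : ∀ᶠ a in 𝓝 ((0 : ℂ × ℂ).1), DifferentiableAt ℂ c a :=
        hc.eventually_analyticAt.mono fun a ha => ha.differentiableAt
      exact continuousAt_fst.eventually h3
    filter_upwards [h1, h2] with u h1 h2
    rw [h1, ExtF_jac_shear h2]
    ring
  have hD3 := t2_congr hD3e
  have hD3an : AnalyticAt ℂ (fun u => D3 t₀ (φ (shear m x₁ c u)) (d1 φ (shear m x₁ c u))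
      (d2 φ (shear m x₁ c u))) 0 :=
    AnalyticAt.fun_comp (g := fun v => D3 t₀ (φ v) (d1 φ v) (d2 φ v)) (f := shear m x₁ c)
      (analyticAt_D3 t₀ hσ) hθ
  have hJ := hE4 t₀ ht₀
  have hyt := hy (t₀ 0) ht₀
  have hJne : DX (E (ratio P (t₀ 1) (t₀ 0))) * DT (E (ratio P (t₀ 2) (t₀ 0))) -
      DX (E (ratio P (t₀ 2) (t₀ 0))) * DT (E (ratio P (t₀ 1) (t₀ 0))) ≠ 0 := by
    rw [hJ, hD3]
    refine ExtF_div_ne (F := LL) (fun h0 => ?_) hyt
    have h1 : t2 (fun u => D3 t₀ (φ (shear m x₁ c u)) (d1 φ (shear m x₁ c u))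
        (d2 φ (shear m x₁ c u))) = 0 := by
      apply emb_injective
      rw [h0, map_zero]
    rw [t2_eq_zero_iff hD3an] at h1
    exact hDp (ExtF_nd (g := fun v => D3 t₀ (φ v) (d1 φ v) (d2 φ v)) hc h1)
  have hpf : 0 ≤ vT (emb (t2 fun u => (G.map fun g => g (shear m x₁ c u)).prod)) +
      vT (E (H * ratio P l o) * (E W *
        (DX (E (ratio P (t₀ 1) (t₀ 0))) * DT (E (ratio P (t₀ 2) (t₀ 0))) -
          DX (E (ratio P (t₀ 2) (t₀ 0))) * DT (E (ratio P (t₀ 1) (t₀ 0))))) ^ M) := by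
    have hmain := Pool.Agent.H36.BPL.pole_free_logG E hE1 hz ⟨_, _, hJne⟩ M (H * ratio P l o) W
      ![ratio P (t₀ 1) (t₀ 0), ratio P (t₀ 2) (t₀ 0)] (OnBd P Hf) (hpole l hl)
    simp only [Matrix.cons_val_zero, Matrix.cons_val_one] at hmain
    rcases hmain with h1 | ⟨D, ⟨j', hj', hnn, hposa⟩, ⟨e', he', hord⟩, hV⟩
    · exact add_nonneg (vT_emb_nonneg _) h1
    · -- the curve lies in the boundary
      have hj'P : X j' ∉ P := fun h0 => hj' ((coordFun_eq_zero_iff P j').2 h0)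
      have hnnE : ∀ f : FunField P, 0 ≤ D.ord f → 0 ≤ vT (E f) := by
        intro f hf
        by_cases h0 : f = 0
        · rw [h0, map_zero, AddValuation.map_zero]
          exact le_top
        · obtain ⟨n, hn1, hn2⟩ := hord f h0
          rw [hn1] at hf
          rw [hn2]
          have h2 : (0 : ℤ) ≤ n := WithTop.coe_le_coe.1 hf
          have h3 : (0 : ℤ) ≤ (e' : ℤ) * n := by positivity
          exact WithTop.coe_le_coe.2 h3
      have hyj : vT (emb (t2 fun u => φ (shear m x₁ c u) j')) = 0 := by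
        have h1 := hnnE _ (hnn l)
        rw [hE2] at h1
        have h2 : yl / emb (t2 fun u => φ (shear m x₁ c u) j') * emb (t2 fun u => φ (shear m x₁ c u) j') =
            yl := ExtF_divmul (F := LL) yl (hy j' hj'P)
        have h3 := congrArg vT h2
        rw [AddValuation.map_mul, hvl] at h3
        refine le_antisymm ?_ (vT_emb_nonneg _)
        rw [← h3]
        exact le_add_of_nonneg_left h1
      have h1 : ∀ᶠ a in 𝓝 (0 : ℂ), ∀ i, eval (φ (shear m x₁ c (a, 0))) (Hf i) = 0 := by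
        rw [Filter.eventually_all]
        intro i
        have hpos := hposa i
        have hpos' : 0 < vT (E (aeval (fun i => ratio P i j') (Hf i))) := by
          by_cases h0 : aeval (fun i => ratio P i j') (Hf i) = 0
          · rw [h0, map_zero, AddValuation.map_zero]
            exact WithTop.coe_lt_top _
          · obtain ⟨n, hn1, hn2⟩ := hord _ h0
            rw [hn1] at hpos
            rw [hn2]
            have h2 : (0 : ℤ) < n := WithTop.coe_lt_coe.1 hpos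
            have h3 : (0 : ℤ) < (e' : ℤ) * n := by positivity
            exact WithTop.coe_lt_coe.2 h3
        have hcj' : Pool.Agent.H17GT.coordFun P j' ≠ 0 := hj'
        have h6 := hE3 (e i) (Hf i) (X j' ^ e i) (aeval (fun i => ratio P i j') (Hf i)) (hHf i)
          (isHomogeneous_X_pow _ _) (fun l' hl' => by
            rw [map_pow, aeval_X, (ExtF_hom P z hz hcj'
              (fun h0 => hl' ((coordFun_eq_zero_iff P l').1 h0)) (hHf i)).1, mul_comm])
        have h7 : t2 (fun u => eval (φ (shear m x₁ c u)) (X j' ^ e i)) =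
            t2 (fun u => φ (shear m x₁ c u) j') ^ e i := by
          rw [← t2_pow (hψi j')]
          simp only [map_pow, eval_X]
        have h8 := congrArg vT h6
        rw [h7, map_pow, AddValuation.map_mul, AddValuation.map_pow, hyj, smul_zero, add_zero] at h8
        have hH : PowerSeries.coeff 0 (t2 fun u => eval (φ (shear m x₁ c u)) (Hf i)) = 0 := by
          by_contra hH
          rw [PowerSeries.coeff_zero_eq_constantCoeff_apply] at hH
          rw [vT_emb_of_constantCoeff_ne hH] at h8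
          rw [h8] at hpos'
          exact lt_irrefl _ hpos'
        exact (coeff_t2_iff (analyticAt_eval hψ (Hf i)) 0).1 hH
      have h2 : ∀ g ∈ G, PowerSeries.coeff 0 (t2 fun u => g (shear m x₁ c u)) = 0 := by
        intro g hg
        rw [coeff_t2_iff (hGθ g hg) 0]
        have h3 : Tendsto (fun a : ℂ => shear m x₁ c (a, 0)) (𝓝 0) (𝓝 (shear m x₁ c 0)) := by
          have h4 : ContinuousAt (fun a : ℂ => ((a, 0) : ℂ × ℂ)) 0 := by fun_prop
          exact ContinuousAt.comp (g := shear m x₁ c) (f := fun a : ℂ => ((a, 0) : ℂ × ℂ))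
            hθ.continuousAt h4
        filter_upwards [h1, h3.eventually (hG0' g hg)] with a ha hb
        exact hb ha
      have h3 := ExtF_vprod (shear m x₁ c) G hGθ h2
      rw [hG] at h3
      rw [add_comm] at hV
      refine hV.trans ?_
      exact add_le_add_left h3 _
  rw [hJ] at hpf
  have hrepE := hE3 d A B _ hA hB hrep
  have hAan : AnalyticAt ℂ (fun u => eval (φ (shear m x₁ c u)) A) 0 := analyticAt_eval hψ A
  have hBan : AnalyticAt ℂ (fun u => eval (φ (shear m x₁ c u)) B) 0 := analyticAt_eval hψ B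
  have hA2 : t2 (fun u => (fun u => (G.map fun g => g u).prod *
      (eval (φ u) A * D3 t₀ (φ u) (d1 φ u) (d2 φ u) ^ M)) (shear m x₁ c u)) =
        t2 (fun u => (G.map fun g => g (shear m x₁ c u)).prod) *
        (t2 (fun u => eval (φ (shear m x₁ c u)) A) *
          t2 (fun u => D3 t₀ (φ (shear m x₁ c u)) (d1 φ (shear m x₁ c u))
            (d2 φ (shear m x₁ c u))) ^ M) := by
    rw [← t2_pow hD3an, ← t2_mul hAan (hD3an.fun_pow M),
      ← t2_mul (ExtF_prod_an (shear m x₁ c) G hGθ) (hAan.fun_mul (hD3an.fun_pow M))]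
  have hB2 : t2 (fun u => (fun u => eval (φ u) (B * X (t₀ 0) ^ (3 * M + 1))) (shear m x₁ c u)) =
      t2 (fun u => eval (φ (shear m x₁ c u)) B) *
        t2 (fun u => φ (shear m x₁ c u) (t₀ 0)) ^ (3 * M + 1) := by
    rw [← t2_pow (hψi (t₀ 0)), ← t2_mul hBan ((hψi (t₀ 0)).fun_pow _)]
    simp only [map_mul, map_pow, eval_X]
  have hvA : vT (emb (t2 fun u => (G.map fun g => g (shear m x₁ c u)).prod)) +
      vT (emb (t2 fun u => eval (φ (shear m x₁ c u)) A) *
      emb (t2 (fun u => D3 t₀ (φ (shear m x₁ c u)) (d1 φ (shear m x₁ c u))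
          (d2 φ (shear m x₁ c u)))) ^ M) = (j : ℤ) := by
    rw [← AddValuation.map_mul, ← map_pow, ← map_mul, ← map_mul, ← hA2]
    exact vT_emb hordA
  have hvB : vT (emb (t2 fun u => eval (φ (shear m x₁ c u)) B) *
      emb (t2 fun u => φ (shear m x₁ c u) (t₀ 0)) ^ (3 * M + 1)) = (k' : ℤ) := by
    rw [← map_pow, ← map_mul, ← hB2]
    exact vT_emb hordB
  have hyo := hy o ho
  -- the identity
  have hid : (E (H * ratio P l o) * (E W * (emb (t2 fun u =>
      D3 t₀ (φ (shear m x₁ c u)) (d1 (fun u => φ (shear m x₁ c u)) u)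
        (d2 (fun u => φ (shear m x₁ c u)) u)) / emb (t2 fun u => φ (shear m x₁ c u) (t₀ 0)) ^ 3)) ^ M) *
      (emb (t2 fun u => eval (φ (shear m x₁ c u)) B) *
        emb (t2 fun u => φ (shear m x₁ c u) (t₀ 0)) ^ (3 * M + 1)) =
      yl * (emb (t2 fun u => eval (φ (shear m x₁ c u)) A) *
        emb (t2 (fun u => D3 t₀ (φ (shear m x₁ c u)) (d1 φ (shear m x₁ c u))
          (d2 φ (shear m x₁ c u)))) ^ M) := by
    rw [← hrepE, hD3]
    simp only [map_mul, map_pow, hE2, ← hyldef]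
    exact ExtF_alg (F := LL) (E H) (E W) _ _ _ _ _ hyt hyo M
  have hv := congrArg vT hid
  rw [AddValuation.map_mul vT (E (H * ratio P l o) * _) _,
    AddValuation.map_mul vT yl _, hvB, hvl, zero_add] at hv
  have h1 : ((k' : ℤ) : WithTop ℤ) ≤ ((j : ℤ) : WithTop ℤ) := by
    rw [← hvA, ← hv, ← add_assoc]
    exact le_add_of_nonneg_left hpf
  have h2 : (k' : ℤ) ≤ (j : ℤ) := WithTop.coe_le_coe.1 h1
  have h3 : k' ≤ j := by exact_mod_cast h2
  omega

end Pool.Agent.H62.SA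

end
end
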