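import Pool.Agent.H94.G6.M110
import Pool.Agent.H94.G6.M112
import Pool.Agent.H94.G6.M126
import Pool.Agent.H94.G6.M137
import Pool.Agent.H94.G6.M147
import Pool.Agent.H94.G6.M42

/-! The parts of this file: H62.SA.MainF, H62.SA.StartF. -/

section

/-!
# SA MainF: open surfaces of log general type carry a section of `M (K + D) - H` with poles of order at most `M`

As `Pool.Agent.H68.KR.MainG` (written by helper68), the boundary `D` is the common zero set of the forms `Hf i`.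
-/

set_option autoImplicit false

open MvPolynomial Topology Filter
open Pool.Agent.H23.Fano (Form regularForms PrimeDivisorOver)
open Pool.Agent.H17LG.Variety (FunField ratio PoleAtMost IsLogGeneralType)
open Pool.Agent.H17BP (Tan IsForm NoZeros)
open Pool.Agent.H17GT (coordFun)
open Pool.Agent.H36.BPL (PoleLE VanOff OpenPart)
open Pool.Agent.H68.KR

noncomputable section

namespace Pool.Agent.H62.SA

variable {N : ℕ} (P : Ideal (MvPolynomial (Fin (N + 1)) ℂ))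

/-- The part of the cone of `P` where some `Hf i` does not vanish. -/
def locCone {s : ℕ} (Hf : Fin s → MvPolynomial (Fin (N + 1)) ℂ) : Set (Fin (N + 1) → ℂ) :=
  {x | x ∈ cone P ∧ ∃ i, eval x (Hf i) ≠ 0}

variable {P} {s : ℕ}

theorem locCone_subset (Hf : Fin s → MvPolynomial (Fin (N + 1)) ℂ) : locCone P Hf ⊆ cone P :=
  fun _ hx => hx.1

theorem locCone_smul (hP : ∀ p ∈ P, ∀ n, homogeneousComponent n p ∈ P) {e : Fin s → ℕ}
    {Hf : Fin s → MvPolynomial (Fin (N + 1)) ℂ} (hHf : ∀ i, (Hf i).IsHomogeneous (e i)) :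
    ∀ x ∈ locCone P Hf, ∀ c : ℂ, c ≠ 0 → c • x ∈ locCone P Hf := by
  rintro x ⟨hx, i, hi⟩ c hc
  refine ⟨cone_smul hP hx hc, i, ?_⟩
  have h : eval (c • x) (Hf i) = c ^ e i * eval x (Hf i) := eval₂_of_isHomogeneous (RingHom.id ℂ) (hHf i) c x
  rw [h]
  exact mul_ne_zero (pow_ne_zero _ hc) hi

theorem locCone_open (Hf : Fin s → MvPolynomial (Fin (N + 1)) ℂ) :
    ∀ x ∈ locCone P Hf, ∀ᶠ y in 𝓝 x, (∀ Q ∈ P, eval y Q = 0) → y ∈ locCone P Hf := by
  rintro x ⟨hx, i, hi⟩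
  have h1 : ∀ᶠ y in 𝓝 x, eval y (Hf i) ≠ 0 :=
    (MvPolynomial.continuous_eval (Hf i)).continuousAt.eventually_ne hi
  have h2 : ∀ᶠ y in 𝓝 x, y ≠ 0 := continuousAt_id.eventually_ne hx.1
  filter_upwards [h1, h2] with y h3 h4 h5
  exact ⟨⟨h4, h5⟩, i, h3⟩

variable {M a : ℕ} {t₀ : Fin 3 → Fin (N + 1)} {A B : MvPolynomial (Fin (N + 1)) ℂ}

/-- The zero set of an analytic function which does not vanish near `p` contains no open set near `p`. -/
private theorem MainF_ident {f : ℂ × ℂ → ℂ} {p : ℂ × ℂ} (hf : AnalyticAt ℂ f p) (h0 : ¬ ∀ᶠ u in 𝓝 p, f u = 0) :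
    ∀ᶠ q in 𝓝 p, ¬ ∀ᶠ u in 𝓝 q, f u = 0 := by
  obtain ⟨r, hr, hB⟩ := Metric.eventually_nhds_iff_ball.1 hf.eventually_analyticAt
  filter_upwards [Metric.ball_mem_nhds p hr] with q hq hcon
  have h1 : AnalyticOnNhd ℂ f (Metric.ball p r) := fun u hu => hB u hu
  have h2 := h1.eqOn_zero_of_preconnected_of_eventuallyEq_zero
    (convex_ball p r).isPreconnected hq hcon
  refine h0 ?_
  filter_upwards [Metric.ball_mem_nhds p hr] with u hu
  exact h2 hu

/-- The pole estimate for maps, from the extension statement at the point `0`. -/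
private theorem MainF_pole {Hf : Fin s → MvPolynomial (Fin (N + 1)) ℂ} (hM : 1 ≤ M)
    (hA : A.IsHomogeneous a) (hB : B.IsHomogeneous (a + 3 * M + 1)) (hBP : B ∉ P)
    (hsm : ∀ x ∈ cone P, ∃ t σ, CChart P x t σ)
    (hext0 : ∀ (φ : ℂ × ℂ → Fin (N + 1) → ℂ), AnalyticAt ℂ φ 0 → (∀ᶠ u in 𝓝 (0 : ℂ × ℂ), φ u ∈ cone P) →
      ∀ G : List (ℂ × ℂ → ℂ), G.length = M → (∀ g ∈ G, AnalyticAt ℂ g 0) →
      (∀ g ∈ G, ∀ᶠ u in 𝓝 (0 : ℂ × ℂ), (∀ i, eval (φ u) (Hf i) = 0) → g u = 0) →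
      ∃ Φ : ℂ × ℂ → ℂ, AnalyticAt ℂ Φ 0 ∧ ∀ᶠ u in 𝓝 (0 : ℂ × ℂ),
        eval (φ u) B * Φ u = (G.map fun g => g u).prod * (eval (φ u) A * D3 t₀ (φ u) (d1 φ u) (d2 φ u) ^ M))
    (hext : ∀ x ∈ locCone P Hf, ∀ t σ, CChart P x t σ → ∃ Φ, Ext M t₀ A B σ Φ 0)
    {Om : (Fin (N + 1) → ℂ) → (Fin (N + 1) → ℂ) → (Fin (N + 1) → ℂ) → ℂ}
    (h1 : ∀ x ∈ locCone P Hf, ∀ (φ : ℂ × ℂ → Fin (N + 1) → ℂ) (p : ℂ × ℂ) (Φ : ℂ × ℂ → ℂ), AnalyticAt ℂ φ p →
        (∀ᶠ u in 𝓝 p, ∀ Q ∈ P, eval (φ u) Q = 0) → φ p = x → Ext M t₀ A B φ Φ p →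
        (¬ ∀ᶠ u in 𝓝 p, eval (φ u) B = 0) → Om x (d1 φ p) (d2 φ p) = Φ p)
    (h2 : ∀ x ∈ locCone P Hf, ∃ (t : Fin 3 → Fin (N + 1)) (C : ℂ), ∀ v w, Om x v w = C * D3 t x v w ^ M) :
    PoleLE (cone P) (locCone P Hf) M Om := by
  intro φ p hφ hφX G hG hGv
  by_cases hB0 : ∀ᶠ u in 𝓝 p, eval (φ u) B = 0
  · -- the map is degenerate
    have hdeg : ∀ s : Fin 3 → Fin (N + 1), ∀ᶠ u in 𝓝 p, D3 s (φ u) (d1 φ u) (d2 φ u) = 0 := by
      intro s
      by_contra hs
      exact nd_of_D3 P hsm hφ hφX hs _ B hB hBP hB0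
    refine ⟨fun _ => 0, analyticAt_const, ?_⟩
    filter_upwards [Filter.eventually_all.2 hdeg] with y hy hyK
    obtain ⟨t, C, hC⟩ := h2 (φ y) hyK
    have h3 : Om (φ y) (fderiv ℂ φ y (1, 0)) (fderiv ℂ φ y (0, 1)) = 0 := by
      rw [hC]
      have h4 := hy t
      unfold d1 d2 at h4
      rw [h4, zero_pow (by omega), mul_zero]
    rw [h3, mul_zero]
  -- the translated map
  have hpt : Tendsto (fun u : ℂ × ℂ => p + u) (𝓝 0) (𝓝 p) := by
    have h : Continuous fun u : ℂ × ℂ => p + u := by fun_prop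
    have := h.tendsto 0
    simpa using this
  have hmt : Tendsto (fun u : ℂ × ℂ => u - p) (𝓝 p) (𝓝 0) := by
    have h : Continuous fun u : ℂ × ℂ => u - p := by fun_prop
    have := h.tendsto p
    simpa using this
  have htan : AnalyticAt ℂ (fun u : ℂ × ℂ => p + u) 0 := analyticAt_const.add analyticAt_id
  have hman : AnalyticAt ℂ (fun u : ℂ × ℂ => u - p) p := analyticAt_id.sub analyticAt_const
  have hφ' : AnalyticAt ℂ (fun u => φ (p + u)) 0 :=
    AnalyticAt.fun_comp (g := φ) (f := fun u : ℂ × ℂ => p + u) (by simpa using hφ) htan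
  have hd1 : ∀ u, d1 (fun u => φ (p + u)) u = d1 φ (p + u) := by
    intro u
    unfold d1
    rw [fderiv_comp_add_left]
  have hd2 : ∀ u, d2 (fun u => φ (p + u)) u = d2 φ (p + u) := by
    intro u
    unfold d2
    rw [fderiv_comp_add_left]
  obtain ⟨Φ, hΦ1, hΦ2⟩ := hext0 (fun u => φ (p + u)) hφ' (hpt.eventually hφX)
    (G.map fun g => fun u => g (p + u)) (by rw [List.length_map, hG]) (by
      intro g' hg'
      obtain ⟨g, hg, rfl⟩ := List.mem_map.1 hg'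
      exact AnalyticAt.fun_comp (g := g) (f := fun u : ℂ × ℂ => p + u) (by simpa using (hGv g hg).1) htan) (by
      intro g' hg'
      obtain ⟨g, hg, rfl⟩ := List.mem_map.1 hg'
      filter_upwards [hpt.eventually (hGv g hg).2] with u hu h0
      exact hu fun hK => hK.2.elim fun i hi => hi (h0 i))
  refine ⟨fun y => Φ (y - p), ?_, ?_⟩
  · exact AnalyticAt.fun_comp (g := Φ) (f := fun u : ℂ × ℂ => u - p) (by simpa using hΦ1) hman
  have hb : ∀ᶠ y in 𝓝 p, eval (φ y) B * Φ (y - p) =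
      (G.map fun g => g y).prod * (eval (φ y) A * D3 t₀ (φ y) (d1 φ y) (d2 φ y) ^ M) := by
    filter_upwards [hmt.eventually hΦ2] with y hy
    simp only [hd1, hd2, List.map_map, Function.comp_def, add_sub_cancel] at hy
    exact hy
  have hban : AnalyticAt ℂ (fun y => Φ (y - p)) p :=
    AnalyticAt.fun_comp (g := Φ) (f := fun u : ℂ × ℂ => u - p) (by simpa using hΦ1) hman
  have hGprod : AnalyticAt ℂ (fun u => (G.map fun g => g u).prod) p :=
    Pool.Agent.H36.BPL.analyticAt_listProd fun g hg => (hGv g hg).1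
  filter_upwards [hφ.eventually_analyticAt, hφX.eventually_nhds, hban.eventually_analyticAt,
    hb.eventually_nhds, MainF_ident (analyticAt_eval hφ B) hB0, hGprod.eventually_analyticAt] with u a1 a2 a3 a4 a5 a6 hu
  obtain ⟨Ψ, hΨ⟩ := exists_ext_map hA hB (fun x hx => hsm x hx.1) hext a1 (a2.mono fun y hy => hy.2) hu
  have h3 : Om (φ u) (d1 φ u) (d2 φ u) = Ψ u :=
    h1 (φ u) hu φ u Ψ a1 (a2.mono fun y hy => hy.2) rfl hΨ a5
  change Φ (u - p) = (G.map fun g => g u).prod * Om (φ u) (d1 φ u) (d2 φ u)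
  rw [h3]
  by_contra hne
  apply a5
  have hg : ContinuousAt (fun u => Φ (u - p) - (G.map fun g => g u).prod * Ψ u) u :=
    a3.continuousAt.sub (a6.continuousAt.mul hΨ.1.continuousAt)
  have hg0 : ∀ᶠ u' in 𝓝 u, Φ (u' - p) - (G.map fun g => g u').prod * Ψ u' ≠ 0 :=
    hg.eventually_ne (sub_ne_zero.2 hne)
  filter_upwards [hg0, a4, hΨ.2] with u' k1 k2 k3
  have h4 : eval (φ u') B * (Φ (u' - p) - (G.map fun g => g u').prod * Ψ u') = 0 := by
    linear_combination k2 - (G.map fun g => g u').prod * k3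
  exact (mul_eq_zero.1 h4).resolve_right k1

variable (P)

theorem exists_formF [P.IsPrime] (hP : ∀ p ∈ P, ∀ n, homogeneousComponent n p ∈ P)
    {z : Fin 2 → FunField P} (hz : IsTranscendenceBasis ℂ z)
    {e : Fin s → ℕ} {Hf : Fin s → MvPolynomial (Fin (N + 1)) ℂ} (hHf : ∀ i, (Hf i).IsHomogeneous (e i))
    (hgt : IsLogGeneralType (K := FunField P) (k := 2) (OnBd P Hf))
    (hsm : ∀ x ∈ cone P, ∃ t σ, CChart P x t σ) :
    ∃ (M : ℕ) (Om : (Fin (N + 1) → ℂ) → (Fin (N + 1) → ℂ) → (Fin (N + 1) → ℂ) → ℂ) (D₀ : ℕ)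
      (Q₀ : MvPolynomial (Fin (N + 1)) ℂ), 1 ≤ M ∧ Q₀.IsHomogeneous D₀ ∧ Q₀ ∉ P ∧
      IsForm (locCone P Hf) M 1 Om ∧
      NoZeros (locCone P Hf) {x | x ∈ locCone P Hf ∧ eval x Q₀ = 0} Om ∧
      PoleLE (cone P) (locCone P Hf) M Om := by
  have hKP : locCone P Hf ⊆ cone P := locCone_subset Hf
  by_cases hne : (cone P).Nonempty
  swap
  · have hemp : ∀ x, x ∉ cone P := fun x hx => hne ⟨x, hx⟩
    have hemp' : ∀ x, x ∉ locCone P Hf := fun x hx => hemp x hx.1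
    refine ⟨1, fun _ _ _ => 0, 0, 1, le_rfl, isHomogeneous_one _ _,
      fun h => (Ideal.ne_top_iff_one P).1 Ideal.IsPrime.ne_top' h, ⟨?_, ?_, ?_, ?_⟩, ?_, ?_⟩
    · exact fun x hx => absurd hx (hemp' x)
    · exact fun x hx => absurd hx (hemp' x)
    · exact fun x hx => absurd hx (hemp' x)
    · exact fun φ p _ h => absurd h.self_of_nhds (hemp' _)
    · exact fun x hx => absurd hx (hemp' x)
    · exact fun φ p _ h => absurd h.self_of_nhds (hemp _)
  obtain ⟨x₀, hx₀⟩ := hne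
  obtain ⟨t₀, σ₀, hσ₀⟩ := hsm x₀ hx₀
  obtain ⟨ht₀, hb₀⟩ := hσ₀.isTranscendenceBasis P hz
  obtain ⟨ω, hω, M, H, o, hM, hH, ho, hpole⟩ := kodaira_log P z hz hgt
  obtain ⟨W, rfl⟩ := exists_form_mk hb₀ ω
  have hW : W ≠ 0 := by
    rintro rfl
    apply hω
    unfold Form.mk
    exact zero_smul _ _
  obtain ⟨d, A, B, hA, hB, hBP, hAP, hrep⟩ :=
    exists_hom_rep P z hz (H * ratio P (t₀ 0) o * W ^ M)
  have hAP' : A ∉ P := hAP (mul_ne_zero (mul_ne_zero hH (ratio_ne_zero P ht₀ ho)) (pow_ne_zero _ hW))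
  have hextG := fun (φ : ℂ × ℂ → Fin (N + 1) → ℂ) (hφ : AnalyticAt ℂ φ 0)
      (hφX : ∀ᶠ u in 𝓝 (0 : ℂ × ℂ), φ u ∈ cone P) G hG hGan hG0 =>
    exists_extF P z hz hsm ht₀ ho hM hHf hpole hA hB hBP hrep hφ hφX G hG hGan hG0
  set B' := B * X (t₀ 0) ^ (3 * M + 1) with hB'def
  have hext : ∀ x ∈ locCone P Hf, ∀ t σ, CChart P x t σ → ∃ Φ, Ext M t₀ A B' σ Φ 0 := by
    intro x hx t σ h
    obtain ⟨i₀, hi₀⟩ := hx.2
    have hne0 : ∀ᶠ u in 𝓝 (0 : ℂ × ℂ), eval (σ u) (Hf i₀) ≠ 0 := by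
      refine (analyticAt_eval h.an (Hf i₀)).continuousAt.eventually_ne ?_
      rw [h.zero]
      exact hi₀
    obtain ⟨Φ, h1, h2⟩ := hextG σ h.an h.mem_cone (List.replicate M fun _ => 1) List.length_replicate
      (fun g hg => by
        rw [List.eq_of_mem_replicate hg]
        exact analyticAt_const)
      (fun g hg => by
        filter_upwards [hne0] with u hu h0
        exact absurd (h0 i₀) hu)
    refine ⟨Φ, h1, ?_⟩
    filter_upwards [h2] with u hu
    rw [hu, List.map_replicate, List.prod_replicate, one_pow, one_mul]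
  have hB' : B'.IsHomogeneous (d + 3 * M + 1) := by
    have := hB.mul (isHomogeneous_X_pow (R := ℂ) (t₀ 0) (3 * M + 1))
    rwa [← add_assoc] at this
  have hBP' : B' ∉ P := by
    intro h
    rcases Ideal.IsPrime.mem_or_mem inferInstance h with h1 | h1
    · exact hBP h1
    · exact ht₀ (Ideal.IsPrime.mem_of_pow_mem inferInstance _ h1)
  have hsmK : ∀ x ∈ locCone P Hf, ∃ t σ, CChart P x t σ := fun x hx => hsm x hx.1
  obtain ⟨Om, h1, h2⟩ := exists_omK (P := P) hKP hA hB' hsmK hext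
  have hform : IsForm (locCone P Hf) M 1 Om :=
    isForm_omK hKP (locCone_smul hP hHf) (locCone_open Hf) hP hA hB' hBP' hsmK hext h1 h2
  choose e' R hR hRP hRne using exists_jacobian_form P hz ht₀ hb₀
  have hprod : (∏ t, R t).IsHomogeneous (∑ t, e' t) := IsHomogeneous.prod _ _ _ fun t _ => hR t
  have hprodP : (∏ t, R t) ∉ P := by
    intro h
    obtain ⟨t, -, ht⟩ := (Ideal.IsPrime.prod_mem_iff (p := P)).1 h
    exact hRP t ht
  refine ⟨M, Om, (d + (d + 3 * M + 1)) + 1 + ∑ t, e' t, A * B' * X (t₀ 0) * ∏ t, R t, hM,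
    ((hA.mul hB').mul (isHomogeneous_X _ _)).mul hprod, fun h => ?_, hform, ?_, ?_⟩
  · rcases Ideal.IsPrime.mem_or_mem inferInstance h with h3 | h3
    · rcases Ideal.IsPrime.mem_or_mem inferInstance h3 with h4 | h4
      · rcases Ideal.IsPrime.mem_or_mem inferInstance h4 with h5 | h5
        · exact hAP' h5
        · exact hBP' h5
      · exact ht₀ h4
    · exact hprodP h3
  · intro x hx hxB v hv w hw hind
    have hQ : eval x (A * B' * X (t₀ 0) * ∏ t, R t) ≠ 0 := fun h => hxB ⟨hx, h⟩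
    rw [map_mul, map_mul, map_mul, eval_X, map_prod] at hQ
    have hQR := right_ne_zero_of_mul hQ
    have hQ1 := left_ne_zero_of_mul hQ
    have hx0 := right_ne_zero_of_mul hQ1
    have hQ2 := left_ne_zero_of_mul hQ1
    have hxA := left_ne_zero_of_mul hQ2
    rw [Finset.prod_ne_zero_iff] at hQR
    obtain ⟨t, σ, hσ⟩ := hsmK x hx
    obtain ⟨Φ, hΦ⟩ := hext x hx t σ hσ
    have hD := hRne t x σ hσ hx0 (hQR t (Finset.mem_univ t))
    have hnd : ¬ ∀ᶠ u in 𝓝 (0 : ℂ × ℂ), eval (σ u) B' = 0 := hσ.nd _ _ hB' hBP'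
    have h3 : Om x (d1 σ 0) (d2 σ 0) = Φ 0 := h1 x hx σ 0 Φ hσ.an hσ.mem hσ.zero hΦ hnd
    have h4 := hΦ.2.self_of_nhds
    rw [hσ.zero] at h4
    have hΦ0 : Φ 0 ≠ 0 := by
      intro h0
      rw [h0, mul_zero] at h4
      exact (mul_ne_zero hxA (pow_ne_zero M hD)) h4.symm
    have htan : ∀ v ∈ Tan (locCone P Hf) x, v ∈ Tan (cone P) x := by
      rintro v ⟨γ, g1, g2, g3, g4⟩
      exact ⟨γ, g1, g2.mono fun z hz => hKP hz, g3, g4⟩
    obtain ⟨a, b, c, hvv⟩ := hσ.tan (htan v hv)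
    obtain ⟨a', b', c', hww⟩ := hσ.tan (htan w hw)
    obtain ⟨s, C, hC⟩ := h2 x hx
    have h5 : Om x v w = (a * b' - b * a') ^ M * Om x (d1 σ 0) (d2 σ 0) := by
      rw [hC, hC, hvv, hww, D3_add_smul, D3_det, mul_pow]
      ring
    rw [h5, h3]
    refine mul_ne_zero (pow_ne_zero M fun hdet => ?_) hΦ0
    -- a linear relation
    rw [Fintype.linearIndependent_iff] at hind
    by_cases hab : a = 0 ∧ b = 0
    · have h6 := hind ![-c, 1, 0] (by
        simp [Fin.sum_univ_three, hvv, hab.1, hab.2]) 1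
      simp at h6
    · have h6 := hind ![-(c * b' - c' * b), b', -b] (by
        simp only [Fin.sum_univ_three, Matrix.cons_val_zero, Matrix.cons_val_one,
          Matrix.cons_val_two, Matrix.head_cons, Matrix.tail_cons]
        rw [hvv, hww]
        ext i
        simp only [Pi.add_apply, Pi.smul_apply, smul_eq_mul, Pi.zero_apply]
        linear_combination (d1 σ 0 i) * hdet)
      have h7 := hind ![-(c' * a - c * a'), -a', a] (by
        simp only [Fin.sum_univ_three, Matrix.cons_val_zero, Matrix.cons_val_one,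
          Matrix.cons_val_two, Matrix.head_cons, Matrix.tail_cons]
        rw [hvv, hww]
        ext i
        simp only [Pi.add_apply, Pi.smul_apply, smul_eq_mul, Pi.zero_apply]
        linear_combination (d2 σ 0 i) * hdet)
      apply hab
      have h8 := h6 2
      have h9 := h7 2
      simp at h8 h9
      exact ⟨h9, h8⟩
  · exact MainF_pole hM hA hB' hBP' hsm hextG hext h1 h2

/-- **Kodaira's lemma for open surfaces**: the complement of an arbitrary curve in a smooth projective surface, of log general type, has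
a holomorphic section of `M (K + D) - H` for some `M ≥ 1`, without zeros outside a hypersurface section. -/
theorem exists_formF_of_smooth [P.IsPrime] (hP : Pool.Agent.H62.FC.Homog P) {z : Fin 2 → FunField P}
    (hz : IsTranscendenceBasis ℂ z) {e : Fin s → ℕ} {Hf : Fin s → MvPolynomial (Fin (N + 1)) ℂ} (hHf : ∀ i, (Hf i).IsHomogeneous (e i))
    (hsm : ∀ y : Fin (N + 1) → ℂ, y ≠ 0 → (∀ Q ∈ P, eval y Q = 0) →
      Module.finrank ℂ (Pool.Agent.H13.SM.conTan P y) ≤ 2 + 1)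
    (hgt : IsLogGeneralType (K := FunField P) (k := 2) (OnBd P Hf)) :
    ∃ (M : ℕ) (Om : (Fin (N + 1) → ℂ) → (Fin (N + 1) → ℂ) → (Fin (N + 1) → ℂ) → ℂ) (D₀ : ℕ)
      (Q₀ : MvPolynomial (Fin (N + 1)) ℂ), 1 ≤ M ∧ Q₀.IsHomogeneous D₀ ∧ Q₀ ∉ P ∧
      IsForm (locCone P Hf) M 1 Om ∧
      NoZeros (locCone P Hf) {x | x ∈ locCone P Hf ∧ eval x Q₀ = 0} Om ∧
      PoleLE (cone P) (locCone P Hf) M Om :=
  exists_formF P hP hz hHf hgt (exists_cchart hP hz hsm)

end Pool.Agent.H62.SA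

end
end

section

/-!
# SA StartF: the model of an open surface which is proper over an affine variety
-/

set_option autoImplicit false

open Topology Filter MvPolynomial

noncomputable section

namespace Pool.Agent.H62.SA

open Pool.Agent.H17 (PN VanishesAt ZariskiClosedIn HolomorphicInto puncturedDisc)
open Pool.Agent.H62.FC (Homog)
open Pool.Agent.H17BP (Surface IsChart IsForm NoZeros Pr HolP Picard Eqs Tan rep_mk_fin eval_smul_form rep_mem_cone vanishesAt_mk holP_rep)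
open Pool.Agent.H36.BPL (OpenPart AffProper PoleLE ModelK Brody2 analyticAt_form isForm_pow_mul picard_of_modelK)
open Pool.Agent.H13.OT (OrderTwo brody2_of_curves)
open Pool.Agent.H68.KR (cone)

variable {N : ℕ} {P : Ideal (MvPolynomial (Fin (N + 1)) ℂ)} {s M : ℕ} {G : Fin s → MvPolynomial (Fin (N + 1)) ℂ}
  {F : Fin s → Fin (M + 1) → MvPolynomial (Fin (N + 1)) ℂ} {e : Fin s → ℕ}

theorem IsProperMap.homG (h : IsProperMap P G F e) (m : Fin s) : (G m).IsHomogeneous (e m) := by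
  rw [← h.zero m]
  exact h.hom m 0

theorem rep_mem_locCone (hP : Homog P) {x : PN N} : x.rep ∈ locCone P G ↔ x ∈ locVar P G := by
  constructor
  · rintro ⟨h2, m, h3⟩
    exact ⟨((rep_mem_cone hP).1 h2).1, m, h3⟩
  · rintro ⟨h2, m, h3⟩
    exact ⟨(rep_mem_cone hP).2 ⟨h2, fun m => m.elim0⟩, m, h3⟩

theorem mk_mem_locVar (hP : Homog P) (hG : ∀ m, (G m).IsHomogeneous (e m)) {x : Fin (N + 1) → ℂ} (hx : x ≠ 0) :
    Projectivization.mk ℂ x hx ∈ locVar P G ↔ x ∈ locCone P G := by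
  rw [← rep_mem_locCone hP]
  obtain ⟨a, ha, h⟩ := rep_mk_fin hx
  rw [h]
  constructor
  · intro h1
    have h2 := locCone_smul hP hG _ h1 a⁻¹ (inv_ne_zero ha)
    rwa [smul_smul, inv_mul_cancel₀ ha, one_smul] at h2
  · intro h1
    exact locCone_smul hP hG _ h1 a ha

theorem IsProperMap.noZero_cone (h : IsProperMap P G F e) (hP : Homog P) {x : Fin (N + 1) → ℂ} (hx : x ∈ cone P) :
    ∃ m j, eval x (F m j) ≠ 0 := by
  obtain ⟨a, ha, h1⟩ := rep_mk_fin hx.1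
  have h2 : (Projectivization.mk ℂ x hx.1).rep ∈ cone P := by
    rw [h1]
    exact Pool.Agent.H68.KR.cone_smul hP hx ha
  obtain ⟨m, j, h3⟩ := h.noZero (Projectivization.mk ℂ x hx.1) ((rep_mem_cone hP).1 h2).1
  refine ⟨m, j, fun h4 => h3 ?_⟩
  rw [vanishesAt_mk (h.hom m j) hx.1]
  exact h4

theorem IsProperMap.eval_rel (h : IsProperMap P G F e) {x : Fin (N + 1) → ℂ} (hx : x ∈ cone P) (m n : Fin s)
    (j : Fin (M + 1)) : eval x (F m j) * eval x (G n) = eval x (F n j) * eval x (G m) := by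
  have h1 := hx.2 _ (h.rel m n j)
  rw [map_sub, map_mul, map_mul] at h1
  exact sub_eq_zero.1 h1

/-- If some `F m j` does not vanish then `G m` is an equation of the boundary. -/
theorem IsProperMap.mem_iff (h : IsProperMap P G F e) {x : Fin (N + 1) → ℂ} (hx : x ∈ cone P) {m : Fin s}
    {j : Fin (M + 1)} (hm : eval x (F m j) ≠ 0) : x ∈ locCone P G ↔ eval x (G m) ≠ 0 := by
  constructor
  · rintro ⟨-, n, hn⟩ h0
    have h1 := h.eval_rel hx m n j
    rw [h0, mul_zero] at h1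
    exact mul_ne_zero hm hn h1
  · intro h1
    exact ⟨hx, m, h1⟩

theorem openPart_locCone (h : IsProperMap P G F e) (hP : Homog P) : OpenPart (cone P) (locCone P G) where
  sub := locCone_subset G
  smul := locCone_smul hP h.homG
  eqn x hx := by
    obtain ⟨m, j, hm⟩ := h.noZero_cone hP hx
    refine ⟨fun y => eval y (G m), analyticAt_form _ x, ?_⟩
    filter_upwards [(analyticAt_form (F m j) x).continuousAt.eventually_ne hm] with y hy hyX
    rw [h.mem_iff hyX hy, not_not]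

/-- The map to the affine space. -/
def affF (G : Fin s → MvPolynomial (Fin (N + 1)) ℂ) (F : Fin s → Fin (M + 1) → MvPolynomial (Fin (N + 1)) ℂ)
    (x : Fin (N + 1) → ℂ) (j : Fin (M + 1)) : ℂ :=
  open Classical in if h : ∃ m, eval x (G m) ≠ 0 then eval x (F h.choose j) / eval x (G h.choose) else 0

theorem IsProperMap.affF_eq (h : IsProperMap P G F e) {x : Fin (N + 1) → ℂ} (hx : x ∈ cone P) {m : Fin s}
    (hm : eval x (G m) ≠ 0) (j : Fin (M + 1)) : affF G F x j = eval x (F m j) / eval x (G m) := by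
  have h1 : ∃ m, eval x (G m) ≠ 0 := ⟨m, hm⟩
  unfold affF
  rw [dif_pos h1, div_eq_div_iff h1.choose_spec hm]
  exact h.eval_rel hx _ _ j

theorem affProper_locCone (h : IsProperMap P G F e) (hP : Homog P) :
    AffProper (cone P) (locCone P G) (affF G F) where
  smul x hx c hc := by
    obtain ⟨hxc, m, hm⟩ := hx
    have h1 : eval (c • x) (G m) ≠ 0 := by
      rw [eval_smul_form (h.homG m)]
      exact mul_ne_zero (pow_ne_zero _ hc) hm
    funext j
    rw [h.affF_eq (Pool.Agent.H68.KR.cone_smul hP hxc hc) h1, h.affF_eq hxc hm, eval_smul_form (h.homG m),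
      eval_smul_form (h.hom m j), mul_div_mul_left _ _ (pow_ne_zero _ hc)]
  cont := by
    rintro x ⟨hxc, m, hm⟩
    rw [continuousWithinAt_pi]
    intro j
    have h1 : ContinuousWithinAt (fun y : Fin (N + 1) → ℂ => eval y (F m j) / eval y (G m)) (locCone P G) x :=
      ((analyticAt_form _ x).continuousAt.div (analyticAt_form _ x).continuousAt hm).continuousWithinAt
    refine h1.congr_of_eventuallyEq ?_ (h.affF_eq hxc hm j)
    have h2 : ∀ᶠ y in 𝓝[locCone P G] x, eval y (G m) ≠ 0 :=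
      ((analyticAt_form (G m) x).continuousAt.eventually_ne hm).filter_mono nhdsWithin_le_nhds
    filter_upwards [h2, self_mem_nhdsWithin] with y h3 h4
    exact h.affF_eq h4.1 h3 j
  hol f z₀ hf hfK := by
    obtain ⟨hxc, m, hm⟩ := hfK.self_of_nhds
    rw [analyticAt_pi_iff]
    intro j
    have hG : AnalyticAt ℂ (fun z => eval (f z) (G m)) z₀ :=
      AnalyticAt.comp (g := fun y : Fin (N + 1) → ℂ => eval y (G m)) (f := f) (analyticAt_form _ _) hf
    have hF : AnalyticAt ℂ (fun z => eval (f z) (F m j)) z₀ :=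
      AnalyticAt.comp (g := fun y : Fin (N + 1) → ℂ => eval y (F m j)) (f := f) (analyticAt_form _ _) hf
    refine (hF.div hG hm).congr ?_
    filter_upwards [hG.continuousAt.eventually_ne hm, hfK] with z h1 h2
    exact (h.affF_eq h2.1 h1 j).symm
  proper x hx hxK R := by
    obtain ⟨m, j, hm⟩ := h.noZero_cone hP hx
    have h0 : eval x (G m) = 0 := by
      by_contra h1
      exact hxK ((h.mem_iff hx hm).2 h1)
    have hc : 0 < ‖eval x (F m j)‖ / 2 := by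
      have := norm_pos_iff.2 hm
      positivity
    have h1 : ∀ᶠ y in 𝓝 x, ‖eval x (F m j)‖ / 2 < ‖eval y (F m j)‖ := by
      have h2 : ContinuousAt (fun y : Fin (N + 1) → ℂ => ‖eval y (F m j)‖) x := (analyticAt_form _ x).continuousAt.norm
      exact h2.eventually_const_lt (by linarith)
    have h3 : ∀ᶠ y in 𝓝 x, ‖eval y (G m)‖ < ‖eval x (F m j)‖ / 2 / (|R| + 1) := by
      have h4 : ContinuousAt (fun y : Fin (N + 1) → ℂ => ‖eval y (G m)‖) x := (analyticAt_form _ x).continuousAt.norm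
      refine h4.eventually_lt_const ?_
      show ‖eval x (G m)‖ < ‖eval x (F m j)‖ / 2 / (|R| + 1)
      rw [h0, norm_zero]
      positivity
    filter_upwards [h1, h3, (analyticAt_form (F m j) x).continuousAt.eventually_ne hm] with y hy1 hy2 hy3 hyK
    have hne : eval y (G m) ≠ 0 := (h.mem_iff hyK.1 hy3).1 hyK
    have hpos : 0 < ‖eval y (G m)‖ := norm_pos_iff.2 hne
    have h5 : |R| + 1 < ‖affF G F y j‖ := by
      rw [h.affF_eq hyK.1 hne j, norm_div, lt_div_iff₀ hpos]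
      have h6 : 0 < |R| + 1 := by positivity
      have h7 := (lt_div_iff₀ h6).1 hy2
      linarith
    calc R ≤ |R| := le_abs_self R
      _ < |R| + 1 := by linarith
      _ < ‖affF G F y j‖ := h5
      _ ≤ ‖affF G F y‖ := norm_le_pi_norm _ j
  iso f z₀ hf hfX := by
    obtain ⟨m, j, hm⟩ := h.noZero_cone hP hfX.self_of_nhds
    have hG : AnalyticAt ℂ (fun z => eval (f z) (G m)) z₀ :=
      AnalyticAt.comp (g := fun y : Fin (N + 1) → ℂ => eval y (G m)) (f := f) (analyticAt_form _ _) hf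
    have hF : AnalyticAt ℂ (fun z => eval (f z) (F m j)) z₀ :=
      AnalyticAt.comp (g := fun y : Fin (N + 1) → ℂ => eval y (F m j)) (f := f) (analyticAt_form _ _) hf
    have hne : ∀ᶠ z in 𝓝 z₀, eval (f z) (F m j) ≠ 0 := hF.continuousAt.eventually_ne hm
    rcases hG.eventually_eq_zero_or_eventually_ne_zero with h3 | h3
    · left
      filter_upwards [h3, hfX, hne] with z h4 h5 h6 h7
      exact (h.mem_iff h5 h6).1 h7 h4
    · right
      filter_upwards [h3, hfX.filter_mono nhdsWithin_le_nhds] with z h4 h5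
      exact ⟨h5, m, h4⟩

/-- The initial model. -/
theorem modelK_startF [hPp : P.IsPrime] (hP : Homog P) (h : IsProperMap P G F e) (hX : Surface (cone P))
    (hthin : ∀ σ τ, IsChart (cone P) σ τ → ∀ (d : ℕ) (Q : MvPolynomial (Fin (N + 1)) ℂ), Q.IsHomogeneous d →
      Q ∉ P → ∃ᶠ p in 𝓝 (0 : ℂ × ℂ), eval (σ p) Q ≠ 0)
    {m₀ : Fin s} (hm₀ : G m₀ ∉ P)
    {k D₀ D₁ : ℕ} (hk : 1 ≤ k) {Ω : (Fin (N + 1) → ℂ) → (Fin (N + 1) → ℂ) → (Fin (N + 1) → ℂ) → ℂ}
    (hΩ : IsForm (locCone P G) k 1 Ω) (hpole : PoleLE (cone P) (locCone P G) k Ω)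
    {Q₀ : MvPolynomial (Fin (N + 1)) ℂ} (hQ₀ : Q₀.IsHomogeneous D₀) (hQ₀P : Q₀ ∉ P)
    (hz : NoZeros (locCone P G) {x | x ∈ locCone P G ∧ eval x Q₀ = 0} Ω)
    {Q₁ : MvPolynomial (Fin (N + 1)) ℂ} (hQ₁ : Q₁.IsHomogeneous D₁) (hQ₁P : Q₁ ∉ P) (hD₁ : 1 ≤ D₁)
    (hb : Brody2 (locCone P G) {x | x ∈ cone P ∧ eval x Q₁ = 0}) :
    ModelK (cone P) (locCone P G) {x | x ∈ cone P ∧ eval x (G m₀ * Q₀ * Q₁) = 0} (k * (e m₀ + 1)) 1
      (fun x v w => eval x (G m₀) * Ω x v w ^ (e m₀ + 1))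
      (fun (_ : Unit) x => eval x (G m₀ * Q₀ * Q₁)) (e m₀ + D₀ + D₁) := by
  set d := e m₀ with hd
  have hH₀ : (G m₀).IsHomogeneous d := h.homG m₀
  set Q : MvPolynomial (Fin (N + 1)) ℂ := G m₀ * Q₀ * Q₁ with hQdef
  have hQhom : Q.IsHomogeneous (d + D₀ + D₁) := (hH₀.mul hQ₀).mul hQ₁
  have hQP : Q ∉ P := by
    intro h
    rcases hPp.mem_or_mem h with h | h
    · rcases hPp.mem_or_mem h with h | h
      · exact hm₀ h
      · exact hQ₀P h
    · exact hQ₁P h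
  have hout : ∀ x ∈ cone P, x ∉ locCone P G → eval x (G m₀) = 0 := by
    intro x hx hxK
    by_contra h1
    exact hxK ⟨hx, m₀, h1⟩
  have hform := isForm_pow_mul (k := d + 1) (d := d) (by omega) hΩ (H := fun x => eval x (G m₀)) (analyticAt_form _)
    (fun c x => eval_smul_form hH₀ c x) (locCone_smul hP h.homG)
  have h1 : 1 * (d + 1) - d = 1 := by omega
  rw [h1] at hform
  refine ⟨hX, openPart_locCone h hP, ⟨M + 1, affF G F, affProper_locCone h hP⟩, ?_, Nat.mul_pos hk (Nat.succ_pos _), le_rfl,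
    hform, ?_, ?_, ⟨by omega, ?_, ?_, ?_, ?_⟩, ?_, ?_⟩
  · intro x hx hxK
    refine ⟨hx, ?_⟩
    rw [hQdef, map_mul, map_mul, hout x hx hxK, zero_mul, zero_mul]
  · intro x hx hxT v hv w hw hi
    have h2 : eval x (G m₀) ≠ 0 := by
      intro h0
      refine hxT ⟨hx.1, ?_⟩
      rw [hQdef, map_mul, map_mul, h0, zero_mul, zero_mul]
    refine mul_ne_zero h2 (pow_ne_zero _ (hz x hx (fun h => hxT ⟨hx.1, ?_⟩) v hv w hw hi))
    rw [hQdef, map_mul, map_mul, h.2, mul_zero, zero_mul]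
  · exact PoleLE.pow_mul hk (Nat.succ_pos d) hpole (H := fun x => eval x (G m₀)) (analyticAt_form _) hout
  · intro _ x
    exact analyticAt_form Q x
  · intro _ c x
    exact eval_smul_form hQhom c x
  · intro x
    exact ⟨fun h => ⟨h.1, fun _ => h.2⟩, fun h => ⟨h.1, h.2 ()⟩⟩
  · intro x hx
    exact ⟨(), Eventually.of_forall fun y hy h => ⟨hy, h⟩⟩
  · intro σ τ h
    exact (hthin σ τ h _ Q hQhom hQP).mono fun p hp hpB => hp hpB.2
  · rintro f hf hfX hf2 ⟨z₁, hz₁⟩ z w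
    refine hb f hf hfX hf2 ⟨z₁, fun h => hz₁ ⟨h.1, ?_⟩⟩ z w
    rw [hQdef, map_mul, h.2, mul_zero]

/-- **The model of an open surface which is proper over an affine variety**, with a section of a multiple of the logarithmic canonical
bundle minus a hyperplane, such that the nonconstant entire curves of order at most two lie in a proper closed subset. -/
theorem exists_modelF [hPp : P.IsPrime] (hP : Homog P) (h : IsProperMap P G F e) (hX : Surface (cone P))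
    (hthin : ∀ σ τ, IsChart (cone P) σ τ → ∀ (d : ℕ) (Q : MvPolynomial (Fin (N + 1)) ℂ), Q.IsHomogeneous d →
      Q ∉ P → ∃ᶠ p in 𝓝 (0 : ℂ × ℂ), eval (σ p) Q ≠ 0)
    {k D₀ : ℕ} (hk : 1 ≤ k) {Ω : (Fin (N + 1) → ℂ) → (Fin (N + 1) → ℂ) → (Fin (N + 1) → ℂ) → ℂ}
    (hΩ : IsForm (locCone P G) k 1 Ω) (hpole : PoleLE (cone P) (locCone P G) k Ω)
    {Q₀ : MvPolynomial (Fin (N + 1)) ℂ} (hQ₀ : Q₀.IsHomogeneous D₀) (hQ₀P : Q₀ ∉ P)
    (hz : NoZeros (locCone P G) {x | x ∈ locCone P G ∧ eval x Q₀ = 0} Ω) {Ξ : Set (PN N)}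
    (hΞ : ZariskiClosedIn (locVar P G) Ξ) (hne : Ξ ≠ locVar P G)
    (hbr : ∀ f : ℂ → PN N, HolomorphicInto f Set.univ → OrderTwo f → (∀ z, f z ∈ locVar P G) →
      (∃ z w, f z ≠ f w) → ∀ z, f z ∈ Ξ) :
    ∃ (Q : MvPolynomial (Fin (N + 1)) ℂ) (D : ℕ), Q.IsHomogeneous D ∧ Q ∉ P ∧
      (∃ x ∈ locVar P G, ¬ VanishesAt Q x) ∧ (∀ x ∈ Ξ, VanishesAt Q x) ∧
      ∃ (m j : ℕ) (Ω' : (Fin (N + 1) → ℂ) → (Fin (N + 1) → ℂ) → (Fin (N + 1) → ℂ) → ℂ),
        ModelK (cone P) (locCone P G) {x | x ∈ cone P ∧ eval x Q = 0} m j Ω' (fun (_ : Unit) x => eval x Q) D := by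
  classical
  obtain ⟨S, hS, rfl⟩ := hΞ
  -- a form which vanishes on the exceptional set
  obtain ⟨x₁, hx₁, hx₁S⟩ : ∃ x ∈ locVar P G, ∃ Q ∈ S, ¬ VanishesAt Q x := by
    by_contra hcon
    push Not at hcon
    apply hne
    ext x
    exact ⟨fun h => h.1, fun h => ⟨h, hcon x h⟩⟩
  obtain ⟨Q₁, hQ₁S, hQ₁x⟩ := hx₁S
  obtain ⟨d₁, hQ₁⟩ := hS Q₁ hQ₁S
  have hQ₁P : Q₁ ∉ P := fun h => hQ₁x (hx₁.1 Q₁ h d₁ hQ₁)
  have hx₁K : x₁.rep ∈ locCone P G := (rep_mem_locCone hP).2 hx₁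
  obtain ⟨m₀, hm₀x⟩ := hx₁K.2
  have hm₀ : G m₀ ∉ P := fun h => hm₀x (hx₁K.1.2 _ h)
  obtain ⟨l, hl⟩ : ∃ l, x₁.rep l ≠ 0 := by
    by_contra hcon
    push Not at hcon
    exact x₁.rep_nonzero (funext hcon)
  have hlP : (X l : MvPolynomial (Fin (N + 1)) ℂ) ∉ P := by
    intro h
    have := hx₁K.1.2 _ h
    rw [eval_X] at this
    exact hl this
  have hQ₂ : (Q₁ * X l).IsHomogeneous (d₁ + 1) := hQ₁.mul (isHomogeneous_X ℂ l)
  have hQ₂P : Q₁ * X l ∉ P := fun h => (hPp.mem_or_mem h).elim hQ₁P hlP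
  have hBr : Brody2 (locCone P G) {x | x ∈ cone P ∧ eval x (Q₁ * X l) = 0} := by
    refine brody2_of_curves (fun x hx => hx.1.1) (fun x hx0 hx => (mk_mem_locVar hP h.homG hx0).2 hx) ?_ hbr
    intro x hx0 hx hxΞ
    have h2 := hxΞ.2 Q₁ hQ₁S
    rw [vanishesAt_mk hQ₁] at h2
    refine ⟨hx.1, ?_⟩
    rw [map_mul, h2, zero_mul]
  have hmodel := modelK_startF hP h hX hthin hm₀ hk hΩ hpole hQ₀ hQ₀P hz hQ₂ hQ₂P (by omega) hBr
  set Q : MvPolynomial (Fin (N + 1)) ℂ := G m₀ * Q₀ * (Q₁ * X l) with hQdef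
  have hQhom : Q.IsHomogeneous (e m₀ + D₀ + (d₁ + 1)) := ((h.homG m₀).mul hQ₀).mul hQ₂
  have hQP : Q ∉ P := by
    intro h'
    rcases hPp.mem_or_mem h' with h' | h'
    · rcases hPp.mem_or_mem h' with h' | h'
      · exact hm₀ h'
      · exact hQ₀P h'
    · exact hQ₂P h'
  refine ⟨Q, e m₀ + D₀ + (d₁ + 1), hQhom, hQP, ?_, ?_, _, _, _, hmodel⟩
  · -- properness
    obtain ⟨σ, τ, h', hσ0⟩ := hX.chart x₁.rep hx₁K.1
    have hKσ : ∀ᶠ p in 𝓝 (0 : ℂ × ℂ), σ p ∈ locCone P G := by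
      have h1 := h'.σ_an.continuousAt.tendsto
      rw [hσ0] at h1
      filter_upwards [h1.eventually ((openPart_locCone h hP).rel _ hx₁K), h'.σ_mem] with p h2 h3
      exact h2 h3
    obtain ⟨p, hp1, hp2⟩ := ((hthin σ τ h' _ Q hQhom hQP).and_eventually hKσ).exists
    have h3 : Projectivization.mk ℂ (σ p) hp2.1.1 ∈ locVar P G := (mk_mem_locVar hP h.homG hp2.1.1).2 hp2
    exact ⟨_, h3, fun h4 => hp1 ((vanishesAt_mk hQhom hp2.1.1).1 h4)⟩
  · intro x hx
    have h1 : eval x.rep Q₁ = 0 := hx.2 Q₁ hQ₁S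
    show eval x.rep Q = 0
    rw [hQdef, map_mul, map_mul, map_mul, h1, zero_mul, mul_zero]

/-- The extension theorem for maps into the projective space. -/
theorem extends_of_modelF (hP : Homog P)
    {Q : MvPolynomial (Fin (N + 1)) ℂ} {D m j : ℕ} {Ω : (Fin (N + 1) → ℂ) → (Fin (N + 1) → ℂ) → (Fin (N + 1) → ℂ) → ℂ}
    (h : ModelK (cone P) (locCone P G) {x | x ∈ cone P ∧ eval x Q = 0} m j Ω (fun (_ : Unit) x => eval x Q) D)
    {f : ℂ → PN N} (hf : HolomorphicInto f puncturedDisc) (hfX : ∀ z ∈ puncturedDisc, f z ∈ locVar P G)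
    (hfQ : ∃ z ∈ puncturedDisc, ¬ VanishesAt Q (f z)) :
    ∃ g : ℂ → PN N, HolomorphicInto g (Metric.ball 0 1) ∧ ∀ z ∈ puncturedDisc, g z = f z := by
  obtain ⟨z₁, hz₁, hz₁Q⟩ := hfQ
  have hball : ∀ z : ℂ, z ≠ 0 → ‖z‖ < 1 → z ∈ puncturedDisc := fun z h0 h1 => ⟨by simpa using h1, h0⟩
  have hball' : ∀ z ∈ puncturedDisc, z ≠ 0 ∧ ‖z‖ < 1 := fun z hz => ⟨hz.2, by simpa using hz.1⟩
  obtain ⟨F, hF, hF0, he⟩ := picard_of_modelK h 1 one_pos (fun z => (f z).rep)
    (fun z h0 h1 => ⟨holP_rep hf (hball z h0 h1), (rep_mem_locCone hP).2 (hfX z (hball z h0 h1))⟩)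
    ⟨z₁, (hball' z₁ hz₁).1, (hball' z₁ hz₁).2, fun h => hz₁Q h.2⟩
  classical
  refine ⟨fun z => if z = 0 then Projectivization.mk ℂ (F 0) hF0 else f z, ?_, ?_⟩
  · intro z₀ hz₀
    by_cases h0 : z₀ = 0
    · subst h0
      refine ⟨F, hF, ?_⟩
      rw [eventually_nhdsWithin_iff] at he
      filter_upwards [he, hF.continuousAt.eventually_ne hF0] with z h1 h2
      refine ⟨h2, ?_⟩
      by_cases h3 : z = 0
      · subst h3
        rw [if_pos rfl]
      · rw [if_neg h3, ← (h1 h3).mk_eq (f z).rep_nonzero h2, Projectivization.mk_rep]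
    · obtain ⟨φ, hφ, hφe⟩ := hf z₀ ⟨hz₀, h0⟩
      refine ⟨φ, hφ, ?_⟩
      filter_upwards [hφe, isOpen_compl_singleton.mem_nhds (show z₀ ∈ ({0} : Set ℂ)ᶜ from h0)] with z h1 h2
      obtain ⟨h3, h4⟩ := h1
      have h5 : z ≠ 0 := h2
      exact ⟨h3, by rw [if_neg h5, h4]⟩
  · intro z hz
    exact if_neg hz.2

end Pool.Agent.H62.SA

end
end
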