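import Pool.Agent.H94.G6.M142
import Pool.Agent.H94.G6.M34
import Pool.Agent.H94.G6.M49
import Pool.Agent.H94.G6.M59
import Pool.Agent.H94.G6.M70
import Pool.Agent.H94.G6.M73
import Pool.Agent.H94.G6.M74

/-! The parts of this file: MQ2.Equ, MQ2.LeafS0, MQ2.WtE, MQ2.LeafS, MQ2.GInv. -/

section

/-!
# MQ2 Equ: the reduced equation of a part of the zeros of a germ

The zeros of `ρ` near `0` lie on finitely many discs (`E1.disc_cover`).  After a linear change `ρ (0, y)` is not identically zero; then a disc which covers a point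
`p ≠ 0` near `0` has no vertical tangent there (`Equ_disc`), so neither has the curve `{l = 0}` (`equ_no_vert`).  The rest is `equ_poly` (`EquP`).
-/

set_option autoImplicit false

open Topology Filter Metric

noncomputable section

namespace Pool.Agent.MQ2

private theorem Equ_graph {l : ℂ × ℂ → ℂ} {p : ℂ × ℂ} (hl : AnalyticAt ℂ l p) (h0 : l p = 0) (h1 : fderiv ℂ l p (0, 1) ≠ 0) :
    ∃ φ : ℂ → ℂ, AnalyticAt ℂ φ p.1 ∧ φ p.1 = p.2 ∧ ∀ᶠ w in 𝓝 p, (l w = 0 ↔ φ w.1 = w.2) := by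
  obtain ⟨x, y⟩ := p
  have hcd : ContDiffAt ℂ ⊤ l (x, y) := hl.contDiffAt
  have hinv : (fderiv ℂ l (x, y) ∘L ContinuousLinearMap.inr ℂ ℂ ℂ).IsInvertible := by
    refine ⟨ContinuousLinearEquiv.unitsEquivAut ℂ (Units.mk0 _ h1), ?_⟩
    ext
    simp
  refine ⟨hcd.implicitFunction (by simp) hinv, ?_, hcd.implicitFunction_apply_self (by simp) hinv, ?_⟩
  · exact (hcd.contDiffAt_implicitFunction (by simp) hinv).analyticAt
  · have h2 := hcd.eventually_apply_eq_iff_implicitFunction (by simp) hinv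
    filter_upwards [h2] with w hw
    rw [h0] at hw
    exact hw

/-- the critical parameters of a disc only give finitely many points -/
private theorem Equ_disc {ρ : ℂ × ℂ → ℂ} {c : ℂ → ℂ × ℂ} (hc : AnalyticOnNhd ℂ c (closedBall 0 1))
    (hcW : ∀ z ∈ closedBall (0 : ℂ) 1, (c z).2 ≠ 0 → ρ (0, (c z).2) ≠ 0) (hcρ : ∀ z ∈ closedBall (0 : ℂ) 1, ρ (c z) = 0) :
    ∀ᶠ p in 𝓝 (0 : ℂ × ℂ), p ≠ 0 → ∀ z ∈ closedBall (0 : ℂ) (1 / 2), c z = p → deriv (fun z => (c z).1) z ≠ 0 := by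
  have hX : AnalyticOnNhd ℂ (fun z => (c z).1) (closedBall 0 1) := fun z hz => analyticAt_fst.comp (hc z hz)
  have hX' : AnalyticOnNhd ℂ (deriv fun z => (c z).1) (closedBall 0 1) := hX.deriv
  have hsub : closedBall (0 : ℂ) (1 / 2) ⊆ closedBall 0 1 := closedBall_subset_closedBall (by norm_num)
  by_cases hA : ∀ z ∈ closedBall (0 : ℂ) 1, deriv (fun z => (c z).1) z = 0
  · have hconst : ∀ z ∈ closedBall (0 : ℂ) (1 / 2), (c z).1 = (c 0).1 := by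
      intro z hz
      have h1 : DifferentiableOn ℂ (fun z => (c z).1) (ball 0 1) := fun w hw => (hX w (ball_subset_closedBall hw)).differentiableAt.differentiableWithinAt
      exact isOpen_ball.is_const_of_deriv_eq_zero (convex_ball (0 : ℂ) 1).isPreconnected h1 (fun w hw => hA w (ball_subset_closedBall hw))
        (closedBall_subset_ball (by norm_num) hz) (mem_ball_self one_pos)
    by_cases h0 : (c 0).1 = 0
    · refine Eventually.of_forall fun p hp z hz hzp => ?_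
      exfalso
      apply hp
      have h2 : (c z).1 = 0 := (hconst z hz).trans h0
      have h3 : (c z).2 = 0 := by
        by_contra h4
        apply hcW z (hsub hz) h4
        have h5 := hcρ z (hsub hz)
        have h6 : c z = (0, (c z).2) := Prod.ext h2 rfl
        rwa [h6] at h5
      rw [← hzp]
      exact Prod.ext h2 h3
    · have h1 : ∀ᶠ p in 𝓝 (0 : ℂ × ℂ), p.1 ≠ (c 0).1 := by
        have h2 : ContinuousAt (fun p : ℂ × ℂ => p.1) 0 := continuous_fst.continuousAt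
        exact h2.eventually_ne (fun h => h0 h.symm)
      filter_upwards [h1] with p hp _ z hz hzp
      exact absurd (by rw [← hzp]; exact hconst z hz) hp
  · have hfin : {z ∈ closedBall (0 : ℂ) (1 / 2) | deriv (fun z => (c z).1) z = 0}.Finite := by
      by_contra hinf
      obtain ⟨z₀, hz₀, hacc⟩ := Set.Infinite.exists_accPt_of_subset_isCompact hinf (isCompact_closedBall (0 : ℂ) (1 / 2)) (fun z hz => hz.1)
      apply hA
      have h1 : ∃ᶠ z in 𝓝[≠] z₀, deriv (fun z => (c z).1) z = 0 := by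
        rw [accPt_iff_frequently] at hacc
        rw [frequently_nhdsWithin_iff]
        exact hacc.mono fun z hz => ⟨hz.2.2, hz.1⟩
      exact fun z hz => hX'.eqOn_zero_of_preconnected_of_frequently_eq_zero (convex_closedBall (0 : ℂ) 1).isPreconnected (hsub hz₀) h1 hz
    have hfin2 : ((c '' {z ∈ closedBall (0 : ℂ) (1 / 2) | deriv (fun z => (c z).1) z = 0}) \ {0}).Finite := (hfin.image c).subset Set.sdiff_subset
    have h1 : ∀ᶠ p in 𝓝 (0 : ℂ × ℂ), p ∉ (c '' {z ∈ closedBall (0 : ℂ) (1 / 2) | deriv (fun z => (c z).1) z = 0}) \ {0} :=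
      hfin2.isClosed.isOpen_compl.mem_nhds (fun h => h.2 rfl)
    filter_upwards [h1] with p hp hp0 z hz hzp h2
    exact hp ⟨⟨z, ⟨hz, h2⟩, hzp⟩, hp0⟩

/-- **No vertical tangents.** -/
theorem equ_no_vert {ρ : ℂ × ℂ → ℂ} (hρ : AnalyticAt ℂ ρ 0) (h : ∀ᶠ y in 𝓝[≠] (0 : ℂ), ρ (0, y) ≠ 0) :
    ∀ᶠ p in 𝓝 (0 : ℂ × ℂ), p ≠ 0 → ∀ l : ℂ × ℂ → ℂ, AnalyticAt ℂ l p → l p = 0 → fderiv ℂ l p ≠ 0 → (∀ᶠ w in 𝓝 p, l w = 0 → ρ w = 0) →
      fderiv ℂ l p (0, 1) ≠ 0 := by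
  have hne : ¬ ∀ᶠ x in 𝓝 (0 : ℂ × ℂ), ρ x = 0 := by
    intro h0
    have h1 : Tendsto (fun y : ℂ => ((0 : ℂ), y)) (𝓝[≠] 0) (𝓝 0) := by
      have h2 : ContinuousAt (fun y : ℂ => ((0 : ℂ), y)) 0 := by fun_prop
      exact h2.tendsto.mono_left nhdsWithin_le_nhds
    obtain ⟨y, hy1, hy2⟩ := (h.and (h1.eventually h0)).exists
    exact hy1 hy2
  obtain ⟨n, hn⟩ := Pool.Agent.H17BP.exists_resN hρ hne
  have hW : {p : ℂ × ℂ | p.2 ≠ 0 → ρ (0, p.2) ≠ 0} ∈ 𝓝 (0 : ℂ × ℂ) := by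
    have h1 : ∀ᶠ y in 𝓝 (0 : ℂ), y ≠ 0 → ρ (0, y) ≠ 0 := eventually_nhdsWithin_iff.mp h
    exact (continuous_snd.tendsto (0 : ℂ × ℂ)).eventually h1
  obtain ⟨r, c, hc, hcW, hcov⟩ := Pool.Agent.E1.disc_cover n hn hW
  have hall : ∀ᶠ p in 𝓝 (0 : ℂ × ℂ), ∀ i : Fin r, p ≠ 0 → ∀ z ∈ closedBall (0 : ℂ) (1 / 2), c i z = p → deriv (fun z => (c i z).1) z ≠ 0 :=
    eventually_all.2 fun i => Equ_disc (hc i) (fun z hz => (hcW i z hz).1) (fun z hz => (hcW i z hz).2)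
  filter_upwards [hall, hcov.eventually_nhds] with p hp hcovp hp0 l hl hl0 hdl hlρ hv
  have hsub : closedBall (0 : ℂ) (1 / 2) ⊆ closedBall 0 1 := closedBall_subset_closedBall (by norm_num)
  have ha : fderiv ℂ l p (1, 0) ≠ 0 := by
    intro ha
    apply hdl
    refine ContinuousLinearMap.ext fun w => ?_
    have h1 : w = w.1 • ((1 : ℂ), (0 : ℂ)) + w.2 • ((0 : ℂ), (1 : ℂ)) := by
      ext <;> simp
    rw [h1, map_add, map_smul, map_smul, ha, hv, smul_zero, smul_zero, add_zero]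
    rfl
  -- the swapped equation
  have hsw : HasFDerivAt (fun w : ℂ × ℂ => l (w.2, w.1)) ((fderiv ℂ l p).comp ((ContinuousLinearMap.snd ℂ ℂ ℂ).prod (ContinuousLinearMap.fst ℂ ℂ ℂ)))
      (p.2, p.1) := by
    have h1 : HasFDerivAt (fun w : ℂ × ℂ => (w.2, w.1)) ((ContinuousLinearMap.snd ℂ ℂ ℂ).prod (ContinuousLinearMap.fst ℂ ℂ ℂ)) (p.2, p.1) :=
      ((ContinuousLinearMap.snd ℂ ℂ ℂ).prod (ContinuousLinearMap.fst ℂ ℂ ℂ)).hasFDerivAt
    have h2 : HasFDerivAt l (fderiv ℂ l p) ((fun w : ℂ × ℂ => (w.2, w.1)) (p.2, p.1)) := hl.differentiableAt.hasFDerivAt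
    exact HasFDerivAt.comp (g := l) (f := fun w : ℂ × ℂ => (w.2, w.1)) (p.2, p.1) h2 h1
  have hsa : AnalyticAt ℂ (fun w : ℂ × ℂ => l (w.2, w.1)) (p.2, p.1) := by
    refine AnalyticAt.fun_comp (g := l) (f := fun w : ℂ × ℂ => (w.2, w.1)) hl ?_
    exact analyticAt_snd.prod analyticAt_fst
  obtain ⟨φ, hφ, hφ0, hφl⟩ := Equ_graph hsa hl0 (by
    rw [hsw.fderiv]
    simpa using ha)
  have hφ0' : φ p.2 = p.1 := hφ0
  have hφc : Tendsto (fun y => (φ y, y)) (𝓝 p.2) (𝓝 p) := by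
    have h1 : ContinuousAt (fun y => (φ y, y)) p.2 := hφ.continuousAt.prodMk continuousAt_id
    have h2 := h1.tendsto
    rwa [hφ0'] at h2
  have hφc' : Tendsto (fun y => (y, φ y)) (𝓝 p.2) (𝓝 (p.2, p.1)) := by
    have h1 : ContinuousAt (fun y => (y, φ y)) p.2 := continuousAt_id.prodMk hφ.continuousAt
    have h2 := h1.tendsto
    simp only [hφ0'] at h2
    exact h2
  have hlφ : ∀ᶠ y in 𝓝 p.2, l (φ y, y) = 0 := by
    filter_upwards [hφc'.eventually hφl] with y hy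
    exact hy.2 rfl
  have hex : ∀ᶠ y in 𝓝 p.2, ∃ i, ∃ z ∈ closedBall (0 : ℂ) (1 / 2), c i z = (φ y, y) := by
    filter_upwards [hlφ, hφc.eventually hlρ, hφc.eventually hcovp] with y h1 h2 h3
    exact h3 (h2 h1)
  obtain ⟨i, hi⟩ : ∃ i, ∃ᶠ y in 𝓝[≠] p.2, l (φ y, y) = 0 ∧ ∃ z ∈ closedBall (0 : ℂ) (1 / 2), c i z = (φ y, y) := by
    by_contra hcon
    have h1 : ∀ᶠ y in 𝓝[≠] p.2, ∀ i, ¬ (l (φ y, y) = 0 ∧ ∃ z ∈ closedBall (0 : ℂ) (1 / 2), c i z = (φ y, y)) :=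
      eventually_all.2 fun i => not_frequently.1 (not_exists.1 hcon i)
    obtain ⟨y, hy1, hy2, hy3⟩ := (h1.and ((hlφ.filter_mono nhdsWithin_le_nhds).and (hex.filter_mono nhdsWithin_le_nhds))).exists
    obtain ⟨i, hi⟩ := hy3
    exact hy1 i ⟨hy2, hi⟩
  obtain ⟨y, hy, hyi⟩ := exists_seq_forall_of_frequently hi
  choose hyl z hz hzy using hyi
  obtain ⟨z₀, hz₀, κ, hκ, hlim⟩ := (isCompact_closedBall (0 : ℂ) (1 / 2)).tendsto_subseq hz
  have hcz : c i z₀ = p := by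
    have h1 : Tendsto (fun n => c i (z (κ n))) atTop (𝓝 (c i z₀)) := (hc i z₀ (hsub hz₀)).continuousAt.tendsto.comp hlim
    have h2 : Tendsto (fun n => c i (z (κ n))) atTop (𝓝 p) := by
      have h3 : Tendsto (fun n => (φ (y (κ n)), y (κ n))) atTop (𝓝 p) :=
        hφc.comp ((hy.mono_right nhdsWithin_le_nhds).comp hκ.tendsto_atTop)
      refine h3.congr fun n => ?_
      exact (hzy (κ n)).symm
    exact tendsto_nhds_unique h1 h2
  have hyne : ∀ᶠ n in atTop, y n ≠ p.2 := hy.eventually self_mem_nhdsWithin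
  have hfreq : ∃ᶠ t in 𝓝[≠] z₀, l (c i t) = 0 := by
    have h1 : Tendsto (fun n => z (κ n)) atTop (𝓝[≠] z₀) := by
      refine tendsto_nhdsWithin_iff.2 ⟨hlim, ?_⟩
      filter_upwards [hκ.tendsto_atTop.eventually hyne] with n hn hzn
      apply hn
      have h2 := hzy (κ n)
      rw [show z (κ n) = z₀ from hzn, hcz] at h2
      rw [h2]
    refine h1.frequently (Eventually.frequently (Eventually.of_forall fun n => ?_))
    rw [hzy (κ n)]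
    exact hyl (κ n)
  have hlc : AnalyticAt ℂ (fun t => l (c i t)) z₀ := by
    refine AnalyticAt.fun_comp (g := l) (f := c i) ?_ (hc i z₀ (hsub hz₀))
    rw [hcz]
    exact hl
  have hev : ∀ᶠ t in 𝓝 z₀, l (c i t) = 0 := hlc.frequently_zero_iff_eventually_zero.1 hfreq
  have hder : HasDerivAt (fun t => l (c i t)) (fderiv ℂ l p (deriv (c i) z₀)) z₀ := by
    have h1 : HasFDerivAt l (fderiv ℂ l p) (c i z₀) := by
      rw [hcz]
      exact hl.differentiableAt.hasFDerivAt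
    exact h1.comp_hasDerivAt z₀ (hc i z₀ (hsub hz₀)).differentiableAt.hasDerivAt
  have hd0 : fderiv ℂ l p (deriv (c i) z₀) = 0 := by
    have h1 : deriv (fun t => l (c i t)) z₀ = 0 := by
      have h2 : (fun t => l (c i t)) =ᶠ[𝓝 z₀] fun _ => 0 := hev
      rw [h2.deriv_eq, deriv_const]
    rw [← hder.deriv, h1]
  have hX : deriv (fun t => (c i t).1) z₀ = (deriv (c i) z₀).1 :=
    ((ContinuousLinearMap.fst ℂ ℂ ℂ).hasFDerivAt.comp_hasDerivAt z₀ (hc i z₀ (hsub hz₀)).differentiableAt.hasDerivAt).deriv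
  apply hp i hp0 z₀ hz₀ hcz
  rw [hX]
  have h1 : deriv (c i) z₀ = (deriv (c i) z₀).1 • ((1 : ℂ), (0 : ℂ)) + (deriv (c i) z₀).2 • ((0 : ℂ), (1 : ℂ)) := by
    ext <;> simp
  rw [h1, map_add, map_smul, map_smul, hv, smul_zero, add_zero, smul_eq_mul] at hd0
  exact (mul_eq_zero.1 hd0).resolve_right ha

/-- the coordinates are such that `ρ (0, y)` is not identically zero -/
theorem equ_main {ρ : ℂ × ℂ → ℂ} (hρ : AnalyticAt ℂ ρ 0) (h : ∀ᶠ y in 𝓝[≠] (0 : ℂ), ρ (0, y) ≠ 0) {Z : Set (ℂ × ℂ)}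
    (hZ : ∀ᶠ p in 𝓝 (0 : ℂ × ℂ), p ≠ 0 → (∀ᶠ w in 𝓝 p, w ∉ Z) ∨ ∃ l : ℂ × ℂ → ℂ, AnalyticAt ℂ l p ∧ l p = 0 ∧ fderiv ℂ l p ≠ 0 ∧
      ∀ᶠ w in 𝓝 p, (w ∈ Z ↔ l w = 0) ∧ (l w = 0 → ρ w = 0)) :
    ∃ g : ℂ × ℂ → ℂ, AnalyticAt ℂ g 0 ∧ (∃ᶠ p in 𝓝 (0 : ℂ × ℂ), g p ≠ 0) ∧
      ∀ᶠ p in 𝓝 (0 : ℂ × ℂ), p ≠ 0 → (g p = 0 ↔ p ∈ Z) ∧ (g p = 0 → fderiv ℂ g p ≠ 0) := by
  obtain ⟨δ₁, hδ₁, hball⟩ := Metric.eventually_nhds_iff_ball.1 (hZ.and ((equ_no_vert hρ h).and hρ.eventually_analyticAt))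
  obtain ⟨δ₂, hδ₂, hball2⟩ := Metric.eventually_nhds_iff_ball.1 (eventually_nhdsWithin_iff.mp h)
  set r : ℝ := min δ₁ δ₂ / 2 with hr
  have hr0 : 0 < r := by
    have := lt_min hδ₁ hδ₂
    rw [hr]
    linarith
  have hr1 : r < δ₁ := by
    have := min_le_left δ₁ δ₂
    have := lt_min hδ₁ hδ₂
    rw [hr]
    linarith
  have hr2 : r < δ₂ := by
    have := min_le_right δ₁ δ₂
    have := lt_min hδ₁ hδ₂
    rw [hr]
    linarith
  have hρ0 : ∀ y : ℂ, y ≠ 0 → ‖y‖ ≤ r → ρ (0, y) ≠ 0 := fun y hy hyr => hball2 y (by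
    rw [mem_ball, dist_zero_right]
    exact lt_of_le_of_lt hyr hr2) hy
  have hsph : ∀ᶠ x in 𝓝 (0 : ℂ), ∀ y ∈ sphere (0 : ℂ) r, ρ (x, y) ≠ 0 := by
    refine (isCompact_sphere (0 : ℂ) r).eventually_forall_of_forall_eventually fun y hy => ?_
    have hyr : ‖y‖ = r := mem_sphere_zero_iff_norm.1 hy
    have hy0 : y ≠ 0 := fun h0 => by
      rw [h0, norm_zero] at hyr
      linarith
    have h1 : ContinuousAt ρ (0, y) := (hball (0, y) (by
      rw [mem_ball, dist_zero_right, Prod.norm_def, norm_zero, hyr]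
      exact max_lt hδ₁ hr1)).2.2.continuousAt
    exact h1.eventually_ne (hρ0 y hy0 hyr.le)
  obtain ⟨s₀, hs₀, hs₁⟩ := Metric.eventually_nhds_iff_ball.1 hsph
  set s : ℝ := min s₀ δ₁ with hs
  have hin : ∀ x y : ℂ, ‖x‖ < s → ‖y‖ ≤ r → ((x, y) : ℂ × ℂ) ∈ ball (0 : ℂ × ℂ) δ₁ := by
    intro x y hx hy
    rw [mem_ball, dist_zero_right, Prod.norm_def]
    exact max_lt (lt_of_lt_of_le hx (min_le_right _ _)) (lt_of_le_of_lt hy hr1)
  refine equ_poly (Z := Z) (lt_min hs₀ hδ₁) hr0 (fun x y hx hxs hyr => ?_) (fun y hy hyr => ?_)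
  · have hp := hball (x, y) (hin x y hxs hyr)
    have hp0 : ((x, y) : ℂ × ℂ) ≠ 0 := fun h0 => hx (congrArg Prod.fst h0)
    rcases hp.1 hp0 with h1 | ⟨l, hl, hl0, hdl, hlZ⟩
    · exact Or.inl h1
    · right
      have hρp : ρ (x, y) = 0 := hlZ.self_of_nhds.2 hl0
      have hyr' : ‖y‖ < r := by
        refine lt_of_le_of_ne hyr fun h0 => ?_
        exact hs₁ x (by
          rw [mem_ball, dist_zero_right]
          exact lt_of_lt_of_le hxs (min_le_left _ _)) y (mem_sphere_zero_iff_norm.2 h0) hρp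
      have hvt := hp.2.1 hp0 l hl hl0 hdl (hlZ.mono fun w hw => hw.2)
      obtain ⟨φ, hφ, hφ0, hφl⟩ := Equ_graph hl hl0 hvt
      refine ⟨hyr', φ, hφ, hφ0, ?_⟩
      filter_upwards [hlZ, hφl] with w h2 h3
      rw [h2.1, h3]
      exact eq_comm
  · have hp := hball (0, y) (hin 0 y (by rw [norm_zero]; exact lt_min hs₀ hδ₁) hyr)
    have hp0 : (((0 : ℂ), y) : ℂ × ℂ) ≠ 0 := fun h0 => hy (congrArg Prod.snd h0)
    rcases hp.1 hp0 with h1 | ⟨l, hl, hl0, hdl, hlZ⟩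
    · exact h1
    · exact absurd (hlZ.self_of_nhds.2 hl0) (hρ0 y hy hyr)

/-- module Equ: the reduced equation of a part of the zeros of `ρ` -/
theorem exists_equ {ρ : ℂ × ℂ → ℂ} (hρ : AnalyticAt ℂ ρ 0) (hρ0 : ∃ᶠ p in 𝓝 (0 : ℂ × ℂ), ρ p ≠ 0) {Z : Set (ℂ × ℂ)}
    (hZ : ∀ᶠ p in 𝓝 (0 : ℂ × ℂ), p ≠ 0 → (∀ᶠ w in 𝓝 p, w ∉ Z) ∨ ∃ l : ℂ × ℂ → ℂ, AnalyticAt ℂ l p ∧ l p = 0 ∧ fderiv ℂ l p ≠ 0 ∧
      ∀ᶠ w in 𝓝 p, (w ∈ Z ↔ l w = 0) ∧ (l w = 0 → ρ w = 0)) :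
    ∃ g : ℂ × ℂ → ℂ, AnalyticAt ℂ g 0 ∧ (∃ᶠ p in 𝓝 (0 : ℂ × ℂ), g p ≠ 0) ∧
      ∀ᶠ p in 𝓝 (0 : ℂ × ℂ), p ≠ 0 → (g p = 0 ↔ p ∈ Z) ∧ (g p = 0 → fderiv ℂ g p ≠ 0) := by
  have hline : ∀ v : ℂ × ℂ, AnalyticAt ℂ (fun z : ℂ => ρ (z • v)) 0 := by
    intro v
    refine AnalyticAt.fun_comp (g := ρ) (f := fun z : ℂ => z • v) ?_ (by fun_prop)
    rw [zero_smul]
    exact hρ
  obtain ⟨v, hv, hvρ⟩ : ∃ v : ℂ × ℂ, v ≠ 0 ∧ ∀ᶠ z in 𝓝[≠] (0 : ℂ), ρ (z • v) ≠ 0 := by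
    obtain ⟨m, v, hm⟩ := Pool.Agent.H17BP.exists_slice_of_ne hρ (fun h0 => hρ0 (h0.mono fun p hp => not_not.2 hp))
    have h1 : ∀ᶠ z in 𝓝[≠] (0 : ℂ), ρ (z • v) ≠ 0 := by
      rcases (hline v).eventually_eq_zero_or_eventually_ne_zero with h1 | h1
      · exfalso
        have h2 : analyticOrderAt (fun z : ℂ => ρ (z * v.1, z * v.2)) 0 = ⊤ := analyticOrderAt_eq_top.2 h1
        rw [h2] at hm
        exact absurd hm (by simp)
      · exact h1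
    by_cases hv : v = 0
    · have h2 : ρ 0 ≠ 0 := by
        obtain ⟨z, hz⟩ := h1.exists
        rwa [hv, smul_zero] at hz
      refine ⟨(0, 1), by simp, ?_⟩
      have h3 : ContinuousAt (fun z : ℂ => ρ (z • ((0 : ℂ), (1 : ℂ)))) 0 := (hline _).continuousAt
      exact (h3.eventually_ne (by rwa [zero_smul])).filter_mono nhdsWithin_le_nhds
    · exact ⟨v, hv, h1⟩
  obtain ⟨A, hA⟩ := SeparatingDual.exists_continuousLinearEquiv_apply_eq (R := ℂ) (x := ((0 : ℂ), (1 : ℂ))) (y := v) (by simp) hv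
  have hA0 : Tendsto A (𝓝 0) (𝓝 0) := by
    have h1 := A.continuous.tendsto 0
    rwa [map_zero] at h1
  have hS0 : Tendsto A.symm (𝓝 0) (𝓝 0) := by
    have h1 := A.symm.continuous.tendsto 0
    rwa [map_zero] at h1
  have hAan : ∀ p, AnalyticAt ℂ A p := fun p => A.toContinuousLinearMap.analyticAt p
  have hSan : ∀ p, AnalyticAt ℂ A.symm p := fun p => A.symm.toContinuousLinearMap.analyticAt p
  obtain ⟨g, hg, hgf, hgZ⟩ := equ_main (ρ := fun w => ρ (A w)) (Z := {w | A w ∈ Z}) (by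
      refine AnalyticAt.fun_comp (g := ρ) (f := A) ?_ (hAan 0)
      rw [map_zero]
      exact hρ) (by
      filter_upwards [hvρ] with y hy
      have h1 : ((0 : ℂ), y) = y • ((0 : ℂ), (1 : ℂ)) := by simp
      rw [h1, map_smul, hA]
      exact hy) (by
      filter_upwards [hA0.eventually hZ] with p hp hp0
      have hAp0 : A p ≠ 0 := fun h0 => hp0 (A.map_eq_zero_iff.1 h0)
      have hAc : Tendsto A (𝓝 p) (𝓝 (A p)) := A.continuous.tendsto p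
      rcases hp hAp0 with h1 | ⟨l, hl, hl0, hdl, hlZ⟩
      · exact Or.inl (hAc.eventually h1)
      · refine Or.inr ⟨fun w => l (A w), AnalyticAt.fun_comp (g := l) (f := A) hl (hAan p), hl0, fun h0 => hdl ?_, hAc.eventually hlZ⟩
        have h2 : HasFDerivAt (fun w => l (A w)) ((fderiv ℂ l (A p)).comp (A : (ℂ × ℂ) →L[ℂ] (ℂ × ℂ))) p :=
          hl.differentiableAt.hasFDerivAt.comp p A.hasFDerivAt
        rw [h2.fderiv] at h0
        refine ContinuousLinearMap.ext fun w => ?_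
        have h3 := congrArg (fun L : (ℂ × ℂ) →L[ℂ] ℂ => L (A.symm w)) h0
        simpa using h3)
  refine ⟨fun w => g (A.symm w), ?_, ?_, ?_⟩
  · refine AnalyticAt.fun_comp (g := g) (f := A.symm) ?_ (hSan 0)
    rw [map_zero]
    exact hg
  · have h1 : ∃ᶠ p in 𝓝 (0 : ℂ × ℂ), g (A.symm (A p)) ≠ 0 := hgf.mono fun p hp => by rwa [A.symm_apply_apply]
    exact hA0.frequently h1
  · filter_upwards [hS0.eventually (hgZ.and hg.eventually_analyticAt)] with p hp hp0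
    have hSp0 : A.symm p ≠ 0 := fun h0 => hp0 (A.symm.map_eq_zero_iff.1 h0)
    obtain ⟨h1, h2⟩ := hp.1 hSp0
    have h3 : A.symm p ∈ {w | A w ∈ Z} ↔ p ∈ Z := by
      rw [Set.mem_ofPred_eq, A.apply_symm_apply]
    refine ⟨h1.trans h3, fun h4 h5 => h2 h4 ?_⟩
    have h6 : HasFDerivAt (fun w => g (A.symm w)) ((fderiv ℂ g (A.symm p)).comp (A.symm : (ℂ × ℂ) →L[ℂ] (ℂ × ℂ))) p :=
      hp.2.differentiableAt.hasFDerivAt.comp p A.symm.hasFDerivAt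
    rw [h6.fderiv] at h5
    refine ContinuousLinearMap.ext fun w => ?_
    have h7 := congrArg (fun L : (ℂ × ℂ) →L[ℂ] ℂ => L (A w)) h5
    simpa using h7

end Pool.Agent.MQ2

end
end

section

/-!
# MQ2 LeafS0: the leaves of a vector field in the zero set of a function, near a regular point

A flow box (hypothesis) and `leaf_regular`; the property to be a point of a leaf in the zero set is transported by the coordinates.
-/

set_option autoImplicit false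

open Topology Filter Metric

noncomputable section

namespace Pool.Agent.MQ2

open Pool.Agent.MQ

namespace LeafS

theorem par {v w a : ℂ × ℂ} (hv : v ≠ 0) (hw : w ≠ 0) (h1 : v.1 * w.2 = v.2 * w.1) (h2 : v.1 * a.2 = v.2 * a.1) : ∃ c : ℂ, a = c • w := by
  have hdet : a.2 * w.1 = a.1 * w.2 := by
    have e1 : v.1 * (a.2 * w.1 - a.1 * w.2) = 0 := by linear_combination w.1 * h2 - a.1 * h1
    have e2 : v.2 * (a.2 * w.1 - a.1 * w.2) = 0 := by linear_combination w.2 * h2 - a.2 * h1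
    rcases mul_eq_zero.1 e1 with h | h
    · rcases mul_eq_zero.1 e2 with h' | h'
      · exact absurd (Prod.ext h h') hv
      · exact sub_eq_zero.1 h'
    · exact sub_eq_zero.1 h
  by_cases h0 : w.1 = 0
  · have h3 : w.2 ≠ 0 := fun h => hw (Prod.ext h0 h)
    refine ⟨a.2 / w.2, Prod.ext ?_ ?_⟩
    · show a.1 = a.2 / w.2 * w.1
      rw [h0, mul_zero] at hdet
      rw [h0, mul_zero]
      rcases mul_eq_zero.1 hdet.symm with h | h
      · exact h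
      · exact absurd h h3
    · show a.2 = a.2 / w.2 * w.2
      field_simp
  · refine ⟨a.1 / w.1, Prod.ext ?_ ?_⟩
    · show a.1 = a.1 / w.1 * w.1
      field_simp
    · show a.2 = a.1 / w.1 * w.2
      field_simp
      exact hdet

/-- the coordinates `Ψ` with the inverse `Ξ` are good at `u` -/
structure Good (v Ψ Ξ : ℂ × ℂ → ℂ × ℂ) (u : ℂ × ℂ) : Prop where
  inv : Ξ (Ψ u) = u
  an : AnalyticAt ℂ Ψ u
  an' : AnalyticAt ℂ Ξ (Ψ u)
  der : ∀ a, fderiv ℂ Ξ (Ψ u) (fderiv ℂ Ψ u a) = a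
  rel : (v (Ψ u)).1 * (fderiv ℂ Ψ u (0, 1)).2 = (v (Ψ u)).2 * (fderiv ℂ Ψ u (0, 1)).1
  ne : v (Ψ u) ≠ 0

theorem Good.ne' {v Ψ Ξ : ℂ × ℂ → ℂ × ℂ} {u : ℂ × ℂ} (h : Good v Ψ Ξ u) : fderiv ℂ Ψ u (0, 1) ≠ 0 := by
  intro h0
  have h1 := h.der (0, 1)
  rw [h0, map_zero] at h1
  have := congrArg Prod.snd h1
  simp at this

theorem leaf_to {v Ψ Ξ : ℂ × ℂ → ℂ × ℂ} {q : ℂ × ℂ → ℂ} {p : ℂ × ℂ} (hG : ∀ᶠ u in 𝓝 p, Good v Ψ Ξ u) (h : LeafIn (fun _ => (0, 1)) (fun u => q (Ψ u)) p) :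
    LeafIn v q (Ψ p) := by
  obtain ⟨γ, hγ, h0, he, hf⟩ := h
  have hGt : ∀ᶠ t in 𝓝 (0 : ℂ), Good v Ψ Ξ (γ t) := by
    have h1 := hγ.continuousAt.tendsto
    rw [h0] at h1
    exact h1.eventually hG
  have hp := hG.self_of_nhds
  refine ⟨fun t => Ψ (γ t), ?_, congrArg Ψ h0, ?_, ?_⟩
  · refine AnalyticAt.fun_comp (g := Ψ) (f := γ) ?_ hγ
    rw [h0]
    exact hp.an
  · filter_upwards [he, hGt, hγ.eventually_analyticAt] with t ht hg hγt
    refine ⟨?_, ht.2⟩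
    have h1 : HasDerivAt (fun t => Ψ (γ t)) (fderiv ℂ Ψ (γ t) (deriv γ t)) t :=
      hg.an.differentiableAt.hasFDerivAt.comp_hasDerivAt t hγt.differentiableAt.hasDerivAt
    have h2 : (deriv γ t).1 = 0 := by
      have := ht.1
      simpa using this.symm
    have h3 : deriv γ t = (deriv γ t).2 • ((0, 1) : ℂ × ℂ) := by ext <;> simp [h2]
    rw [h1.deriv, h3, map_smul]
    show (v (Ψ (γ t))).1 * ((deriv γ t).2 * (fderiv ℂ Ψ (γ t) (0, 1)).2) = (v (Ψ (γ t))).2 * ((deriv γ t).2 * (fderiv ℂ Ψ (γ t) (0, 1)).1)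
    linear_combination (deriv γ t).2 * hg.rel
  · refine (hf.and_eventually hGt).mono fun t ht h1 => ht.1 ?_
    have h2 : Ψ (γ t) = Ψ p := h1
    rw [← ht.2.inv, h2, hp.inv]

theorem leaf_from {v Ψ Ξ : ℂ × ℂ → ℂ × ℂ} {q : ℂ × ℂ → ℂ} {p : ℂ × ℂ} (hG : ∀ᶠ u in 𝓝 p, Good v Ψ Ξ u) (hr : ∀ᶠ y in 𝓝 (Ψ p), Ψ (Ξ y) = y)
    (h : LeafIn v q (Ψ p)) : LeafIn (fun _ => (0, 1)) (fun u => q (Ψ u)) p := by
  obtain ⟨γ, hγ, h0, he, hf⟩ := h
  have hp := hG.self_of_nhds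
  have hδ : AnalyticAt ℂ (fun t => Ξ (γ t)) 0 := by
    refine AnalyticAt.fun_comp (g := Ξ) (f := γ) ?_ hγ
    rw [h0]
    exact hp.an'
  have hδ0 : Ξ (γ 0) = p := by rw [h0, hp.inv]
  have hGt : ∀ᶠ t in 𝓝 (0 : ℂ), Good v Ψ Ξ (Ξ (γ t)) := by
    have h1 := hδ.continuousAt.tendsto
    rw [hδ0] at h1
    exact h1.eventually hG
  have hrt : ∀ᶠ t in 𝓝 (0 : ℂ), Ψ (Ξ (γ t)) = γ t := by
    have h1 := hγ.continuousAt.tendsto
    rw [h0] at h1
    exact h1.eventually hr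
  refine ⟨fun t => Ξ (γ t), hδ, hδ0, ?_, ?_⟩
  · filter_upwards [he, hGt, hδ.eventually_analyticAt, hrt.eventually_nhds] with t ht hg hδt hrn
    have hr0 := hrn.self_of_nhds
    refine ⟨?_, by show q (Ψ (Ξ (γ t))) = 0; rw [hr0]; exact ht.2⟩
    have h1 : HasDerivAt (fun t => Ψ (Ξ (γ t))) (fderiv ℂ Ψ (Ξ (γ t)) (deriv (fun t => Ξ (γ t)) t)) t :=
      hg.an.differentiableAt.hasFDerivAt.comp_hasDerivAt t hδt.differentiableAt.hasDerivAt
    have h2 : deriv γ t = fderiv ℂ Ψ (Ξ (γ t)) (deriv (fun t => Ξ (γ t)) t) := by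
      rw [← h1.deriv]
      exact (Filter.EventuallyEq.deriv_eq hrn).symm
    have h3 := hg.rel
    have h4 := hg.ne
    rw [hr0] at h3 h4
    obtain ⟨c, hc⟩ := par h4 hg.ne' h3 ht.1
    have h5 := hg.der (deriv (fun t => Ξ (γ t)) t)
    rw [← h2, hc, map_smul, hg.der] at h5
    rw [← h5]
    simp
  · refine (hf.and_eventually hrt).mono fun t ht h1 => ht.1 ?_
    have h2 : Ξ (γ t) = p := h1
    rw [← ht.2, h2]

/-- the core, with the flow box as a hypothesis -/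
theorem leaf_set_of {v : ℂ × ℂ → ℂ × ℂ} {q : ℂ × ℂ → ℂ} {p₀ : ℂ × ℂ} (hv : AnalyticAt ℂ v p₀) (hv0 : v p₀ ≠ 0) (hq : AnalyticAt ℂ q p₀)
    (hq0 : ∃ᶠ p in 𝓝 p₀, q p ≠ 0) {Ψ : ℂ × ℂ → ℂ × ℂ} (hΨ : AnalyticAt ℂ Ψ 0) (hΨ0 : Ψ 0 = p₀)
    (hli : LinearIndependent ℂ ![fderiv ℂ Ψ 0 (1, 0), fderiv ℂ Ψ 0 (0, 1)])
    (hrel : ∀ᶠ p in 𝓝 (0 : ℂ × ℂ), (v (Ψ p)).1 * (fderiv ℂ Ψ p (0, 1)).2 = (v (Ψ p)).2 * (fderiv ℂ Ψ p (0, 1)).1) :
    (∀ᶠ p in 𝓝 p₀, ¬ LeafIn v q p) ∨ ∃ l : ℂ × ℂ → ℂ, AnalyticAt ℂ l p₀ ∧ l p₀ = 0 ∧ fderiv ℂ l p₀ ≠ 0 ∧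
      ∀ᶠ p in 𝓝 p₀, (LeafIn v q p ↔ l p = 0) ∧ (l p = 0 → q p = 0 ∧ fderiv ℂ l p (v p) = 0) := by
  subst hΨ0
  obtain ⟨Ξ, hΞ, h1, h2, h3⟩ := Pool.Agent.H62.BU.local_inverse hΨ (by
    intro u hu
    have h4 : u = u.1 • ((1, 0) : ℂ × ℂ) + u.2 • ((0, 1) : ℂ × ℂ) := by ext <;> simp
    rw [h4, map_add, map_smul, map_smul] at hu
    have h5 := LinearIndependent.pair_iff.1 hli _ _ hu
    exact Prod.ext h5.1 h5.2)
  have hΨt : Tendsto Ψ (𝓝 0) (𝓝 (Ψ 0)) := hΨ.continuousAt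
  have hΞt : Tendsto Ξ (𝓝 (Ψ 0)) (𝓝 0) := by
    have := hΞ.continuousAt.tendsto
    rwa [h3] at this
  have hG : ∀ᶠ u in 𝓝 (0 : ℂ × ℂ), Good v Ψ Ξ u := by
    filter_upwards [h1.eventually_nhds, hΨ.eventually_analyticAt, hΨt.eventually hΞ.eventually_analyticAt, hrel, hΨt.eventually (hv.continuousAt.eventually_ne hv0)]
      with u hu1 hu2 hu3 hu4 hu5
    refine ⟨hu1.self_of_nhds, hu2, hu3, fun a => ?_, hu4, hu5⟩
    have e1 : HasFDerivAt (fun x => Ξ (Ψ x)) ((fderiv ℂ Ξ (Ψ u)).comp (fderiv ℂ Ψ u)) u :=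
      hu3.differentiableAt.hasFDerivAt.comp u hu2.differentiableAt.hasFDerivAt
    have e2 : HasFDerivAt (fun x => Ξ (Ψ x)) (ContinuousLinearMap.id ℂ (ℂ × ℂ)) u := (hasFDerivAt_id u).congr_of_eventuallyEq hu1
    exact congrArg (fun L : ℂ × ℂ →L[ℂ] ℂ × ℂ => L a) (e1.unique e2)
  have hqa : AnalyticAt ℂ (fun u => q (Ψ u)) 0 := AnalyticAt.fun_comp (g := q) (f := Ψ) hq hΨ
  have hqne : ∃ᶠ u in 𝓝 (0 : ℂ × ℂ), q (Ψ u) ≠ 0 := by
    intro hcon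
    apply hq0
    filter_upwards [hΞt.eventually hcon, h2] with y hy1 hy2
    rw [hy2] at hy1
    exact hy1
  -- the points near `Ψ 0`
  have hpt : ∀ᶠ y in 𝓝 (Ψ 0), Ψ (Ξ y) = y ∧ (∀ᶠ u in 𝓝 (Ξ y), Good v Ψ Ξ u) ∧ (LeafIn v q y ↔ LeafIn (fun _ => (0, 1)) (fun u => q (Ψ u)) (Ξ y)) := by
    filter_upwards [h2.eventually_nhds, hΞt.eventually hG.eventually_nhds] with y hy1 hy2
    have hy0 := hy1.self_of_nhds
    refine ⟨hy0, hy2, fun h => ?_, fun h => ?_⟩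
    · refine leaf_from (Ξ := Ξ) hy2 ?_ ?_
      · rw [hy0]
        exact hy1
      · rw [hy0]
        exact h
    · have := leaf_to hy2 h
      rwa [hy0] at this
  rcases leaf_regular hqa hqne with hc | hc
  · left
    filter_upwards [hpt, hΞt.eventually hc] with y hy hcy h
    exact hcy (hy.2.2.1 h)
  · right
    have hfst : ∀ y, AnalyticAt ℂ Ξ y → HasFDerivAt (fun y => (Ξ y).1) ((ContinuousLinearMap.fst ℂ ℂ ℂ).comp (fderiv ℂ Ξ y)) y := fun y hy =>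
      (ContinuousLinearMap.fst ℂ ℂ ℂ).hasFDerivAt.comp y hy.differentiableAt.hasFDerivAt
    refine ⟨fun y => (Ξ y).1, analyticAt_fst.fun_comp hΞ, congrArg Prod.fst h3, ?_, ?_⟩
    · rw [(hfst _ hΞ).fderiv]
      intro h0
      have e1 := congrArg (fun L : ℂ × ℂ →L[ℂ] ℂ => L (fderiv ℂ Ψ 0 (1, 0))) h0
      simp only [ContinuousLinearMap.comp_apply, hG.self_of_nhds.der] at e1
      simp at e1
    · filter_upwards [hpt, hΞt.eventually hc, hΞ.eventually_analyticAt] with y hy hcy hya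
      have hiff : LeafIn v q y ↔ (Ξ y).1 = 0 := hy.2.2.trans hcy
      refine ⟨hiff, fun h => ⟨?_, ?_⟩⟩
      · obtain ⟨γ, -, g0, g1, -⟩ := hiff.2 h
        have := g1.self_of_nhds.2
        rwa [g0] at this
      · have hg := hy.2.1.self_of_nhds
        have e3 := hg.rel
        have e4 := hg.ne
        have e5 := hg.der
        rw [hy.1] at e3 e4 e5
        obtain ⟨c, hc⟩ := par e4 hg.ne' e3 (mul_comm (v y).1 (v y).2)
        rw [(hfst _ hya).fderiv, ContinuousLinearMap.comp_apply, hc, map_smul, e5]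
        simp

end LeafS

end Pool.Agent.MQ2

end
end

section

/-!
# MQ2 WtE: the cofactor of a reduced equation of an invariant curve

`v (g) / g` is analytic off `0`: at a smooth zero of `g` divide by the coordinate `g` (`exists_div_x`); the local quotients are unique, as `g` is not
locally zero.  Then `hartogs`.
-/

set_option autoImplicit false

open Topology Filter Metric MvPolynomial Asymptotics

noncomputable section

namespace Pool.Agent.MQ2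

open Pool.Agent.H17BP (Coord coord_iff exists_div_x dx dy)

private theorem WtE_lin {L : ℂ × ℂ →L[ℂ] ℂ} (h1 : L (1, 0) = 0) (h2 : L (0, 1) = 0) : L = 0 := by
  refine ContinuousLinearMap.ext fun x => ?_
  have e : x = x.1 • ((1, 0) : ℂ × ℂ) + x.2 • ((0, 1) : ℂ × ℂ) := by ext <;> simp
  rw [e, map_add, map_smul, map_smul, h1, h2]
  simp

private theorem WtE_coord {l l' T : ℂ × ℂ → ℂ} (hl' : AnalyticAt ℂ l' 0) (hT : Coord l T) (hz : ∀ᶠ x in 𝓝 0, (l x = 0 → l' x = 0)) :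
    ∃ u : ℂ × ℂ → ℂ, AnalyticAt ℂ u 0 ∧ ∀ᶠ x in 𝓝 0, l' x = u x * l x := by
  obtain ⟨θ', g1, g2, g3, g4⟩ := hT.inv
  have han : AnalyticAt ℂ (fun x => (l x, T x)) 0 := hT.an
  have hzero : (fun x => (l x, T x)) (0 : ℂ × ℂ) = 0 := hT.zero
  have hh : AnalyticAt ℂ (fun z => l' (θ' z)) 0 := by
    have : AnalyticAt ℂ l' (θ' 0) := by rw [g2]; exact hl'
    exact this.comp g1
  have hc' : Tendsto θ' (𝓝 0) (𝓝 0) := by
    have := g1.continuousAt.tendsto; rwa [g2] at this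
  have hcθ : Tendsto (fun x => (l x, T x)) (𝓝 (0 : ℂ × ℂ)) (𝓝 0) := by
    have h : Tendsto (fun x => (l x, T x)) (𝓝 (0 : ℂ × ℂ)) (𝓝 ((fun x => (l x, T x)) (0 : ℂ × ℂ))) := han.continuousAt
    rwa [hzero] at h
  have hv : ∀ᶠ y in 𝓝 (0 : ℂ), (fun z => l' (θ' z)) (0, y) = 0 := by
    have e1 : ∀ᶠ z in 𝓝 (0 : ℂ × ℂ), (l (θ' z), T (θ' z)) = z ∧ (l (θ' z) = 0 → l' (θ' z) = 0) := by
      filter_upwards [g4, hc'.eventually hz] with z a b using ⟨a, b⟩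
    have e2 : Tendsto (fun y : ℂ => ((0, y) : ℂ × ℂ)) (𝓝 0) (𝓝 0) :=
      (Continuous.prodMk_right (0 : ℂ)).tendsto' _ _ rfl
    filter_upwards [e2.eventually e1] with y hy
    apply hy.2
    have := congrArg Prod.fst hy.1
    exact this
  obtain ⟨k, hk, hk2⟩ := exists_div_x hh hv
  have hk' : AnalyticAt ℂ (fun x => k (l x, T x)) 0 := by
    have h3 : AnalyticAt ℂ k ((fun x => (l x, T x)) (0 : ℂ × ℂ)) := by rw [hzero]; exact hk
    exact AnalyticAt.comp (g := k) (f := fun x => (l x, T x)) h3 han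
  refine ⟨fun x => k (l x, T x), hk', ?_⟩
  filter_upwards [g3, hcθ.eventually hk2] with x a b
  rw [a] at b
  rw [b, smul_eq_mul, mul_comm]

private theorem WtE_div0 {l l' : ℂ × ℂ → ℂ} (hl : AnalyticAt ℂ l 0) (hl' : AnalyticAt ℂ l' 0) (h0 : l 0 = 0)
    (h : fderiv ℂ l 0 ≠ 0) (hz : ∀ᶠ x in 𝓝 0, (l x = 0 → l' x = 0)) :
    ∃ u : ℂ × ℂ → ℂ, AnalyticAt ℂ u 0 ∧ ∀ᶠ x in 𝓝 0, l' x = u x * l x := by
  by_cases hx : dx l 0 = 0
  · have hy : dy l 0 ≠ 0 := by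
      intro hy
      exact h (WtE_lin hx hy)
    have hT : AnalyticAt ℂ (fun x : ℂ × ℂ => x.1) 0 := analyticAt_fst
    have hd : HasFDerivAt (fun x : ℂ × ℂ => x.1) (ContinuousLinearMap.fst ℂ ℂ ℂ) 0 := hasFDerivAt_fst
    have e1 : dx (fun x : ℂ × ℂ => x.1) 0 = 1 := by
      show fderiv ℂ (fun x : ℂ × ℂ => x.1) 0 (1, 0) = 1
      rw [hd.fderiv]; rfl
    have e2 : dy (fun x : ℂ × ℂ => x.1) 0 = 0 := by
      show fderiv ℂ (fun x : ℂ × ℂ => x.1) 0 (0, 1) = 0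
      rw [hd.fderiv]; rfl
    have hc : Coord l (fun x => x.1) := by
      rw [coord_iff hl hT h0 rfl, e1, e2, hx]
      simpa using hy
    exact WtE_coord hl' hc hz
  · have hT : AnalyticAt ℂ (fun x : ℂ × ℂ => x.2) 0 := analyticAt_snd
    have hd : HasFDerivAt (fun x : ℂ × ℂ => x.2) (ContinuousLinearMap.snd ℂ ℂ ℂ) 0 := hasFDerivAt_snd
    have e1 : dx (fun x : ℂ × ℂ => x.2) 0 = 0 := by
      show fderiv ℂ (fun x : ℂ × ℂ => x.2) 0 (1, 0) = 0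
      rw [hd.fderiv]; rfl
    have e2 : dy (fun x : ℂ × ℂ => x.2) 0 = 1 := by
      show fderiv ℂ (fun x : ℂ × ℂ => x.2) 0 (0, 1) = 1
      rw [hd.fderiv]; rfl
    have hc : Coord l (fun x => x.2) := by
      rw [coord_iff hl hT h0 rfl, e1, e2]
      simpa using hx
    exact WtE_coord hl' hc hz

/-- division by a smooth equation -/
theorem div_smooth {l l' : ℂ × ℂ → ℂ} {p : ℂ × ℂ} (hl : AnalyticAt ℂ l p) (hl' : AnalyticAt ℂ l' p) (h : l p = 0 → fderiv ℂ l p ≠ 0)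
    (hz : ∀ᶠ x in 𝓝 p, (l x = 0 → l' x = 0)) : ∃ u : ℂ × ℂ → ℂ, AnalyticAt ℂ u p ∧ ∀ᶠ x in 𝓝 p, l' x = u x * l x := by
  by_cases h0 : l p = 0
  · have ht : AnalyticAt ℂ (fun x : ℂ × ℂ => x + p) 0 := analyticAt_id.add analyticAt_const
    have ht0 : (fun x : ℂ × ℂ => x + p) 0 = p := zero_add p
    have htc : Tendsto (fun x : ℂ × ℂ => x + p) (𝓝 0) (𝓝 p) := by
      have h : Tendsto (fun x : ℂ × ℂ => x + p) (𝓝 0) (𝓝 ((fun x : ℂ × ℂ => x + p) 0)) := ht.continuousAt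
      rwa [ht0] at h
    have a1 : AnalyticAt ℂ (fun x => l (x + p)) 0 := by
      have : AnalyticAt ℂ l ((fun x : ℂ × ℂ => x + p) 0) := by rw [ht0]; exact hl
      exact AnalyticAt.comp (g := l) (f := fun x : ℂ × ℂ => x + p) this ht
    have a2 : AnalyticAt ℂ (fun x => l' (x + p)) 0 := by
      have : AnalyticAt ℂ l' ((fun x : ℂ × ℂ => x + p) 0) := by rw [ht0]; exact hl'
      exact AnalyticAt.comp (g := l') (f := fun x : ℂ × ℂ => x + p) this ht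
    have a3 : fderiv ℂ (fun x => l (x + p)) 0 ≠ 0 := by
      rw [fderiv_comp_add_right, zero_add]
      exact h h0
    obtain ⟨u, hu, hue⟩ := WtE_div0 a1 a2 (by simpa using h0) a3 (htc.eventually hz)
    have hs : AnalyticAt ℂ (fun x : ℂ × ℂ => x - p) p := analyticAt_id.sub analyticAt_const
    have hs0 : (fun x : ℂ × ℂ => x - p) p = 0 := sub_self p
    have hsc : Tendsto (fun x : ℂ × ℂ => x - p) (𝓝 p) (𝓝 0) := by
      have h : Tendsto (fun x : ℂ × ℂ => x - p) (𝓝 p) (𝓝 ((fun x : ℂ × ℂ => x - p) p)) := hs.continuousAt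
      rwa [hs0] at h
    refine ⟨fun x => u (x - p), ?_, ?_⟩
    · have : AnalyticAt ℂ u ((fun x : ℂ × ℂ => x - p) p) := by rw [hs0]; exact hu
      exact AnalyticAt.comp (g := u) (f := fun x : ℂ × ℂ => x - p) this hs
    · filter_upwards [hsc.eventually hue] with x hx
      rwa [sub_add_cancel] at hx
  · refine ⟨fun x => l' x / l x, hl'.div hl h0, ?_⟩
    filter_upwards [hl.continuousAt.eventually_ne h0] with x hx
    rw [div_mul_cancel₀ _ hx]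

/-- the cofactor -/
theorem wt_of_equ {v : ℂ × ℂ → ℂ × ℂ} (hv : Iso v) {g : ℂ × ℂ → ℂ} (hg : AnalyticAt ℂ g 0) (hne : ∃ᶠ p in 𝓝 (0 : ℂ × ℂ), g p ≠ 0)
    (hred : ∀ᶠ p in 𝓝 (0 : ℂ × ℂ), p ≠ 0 → g p = 0 → fderiv ℂ g p ≠ 0)
    (hinv : ∀ᶠ p in 𝓝 (0 : ℂ × ℂ), p ≠ 0 → g p = 0 → fderiv ℂ g p (v p) = 0) : Wt v g := by
  classical
  refine ⟨hg, hne, ?_, hred⟩
  obtain ⟨H, hH⟩ : ∃ H : ℂ × ℂ → ℂ, H = fun p => fderiv ℂ g p (v p) := ⟨_, rfl⟩
  have hHa : AnalyticAt ℂ H 0 := by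
    rw [hH]
    exact AnalyticAt.comp (g := fun q : (ℂ × ℂ →L[ℂ] ℂ) × (ℂ × ℂ) => q.1 q.2) (f := fun p => (fderiv ℂ g p, v p))
      ((ContinuousLinearMap.id ℂ (ℂ × ℂ →L[ℂ] ℂ)).analyticAt_bilinear (fderiv ℂ g 0, v 0)) (hg.fderiv.prod hv.1)
  -- the local quotients
  have hloc : ∀ᶠ p in 𝓝 (0 : ℂ × ℂ), p ≠ 0 → (∃ᶠ x in 𝓝 p, g x ≠ 0) ∧ ∃ u : ℂ × ℂ → ℂ, AnalyticAt ℂ u p ∧ ∀ᶠ x in 𝓝 p, H x = u x * g x := by
    filter_upwards [hg.eventually_analyticAt, hHa.eventually_analyticAt, hred, hinv.eventually_nhds] with p h1 h2 h3 h4 hp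
    refine ⟨?_, div_smooth h1 h2 (h3 hp) ?_⟩
    · intro h5
      have h6 : ∀ᶠ x in 𝓝 p, g x = 0 := by
        filter_upwards [h5] with x hx
        exact not_not.1 hx
      have h7 : fderiv ℂ g p = 0 := by
        have : g =ᶠ[𝓝 p] fun _ => 0 := h6
        rw [this.fderiv_eq]
        simp
      exact h3 hp h6.self_of_nhds h7
    · filter_upwards [h4, isOpen_ne.mem_nhds hp] with x h5 h6 h7
      rw [hH]
      exact h5 h6 h7
  obtain ⟨f, hf⟩ : ∃ f : ℂ × ℂ → ℂ, f = fun p => if h : ∃ u : ℂ × ℂ → ℂ, AnalyticAt ℂ u p ∧ ∀ᶠ x in 𝓝 p, H x = u x * g x then h.choose p else 0 :=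
    ⟨_, rfl⟩
  have huniq : ∀ (p : ℂ × ℂ), (∃ᶠ x in 𝓝 p, g x ≠ 0) → ∀ u : ℂ × ℂ → ℂ, AnalyticAt ℂ u p → (∀ᶠ x in 𝓝 p, H x = u x * g x) → f p = u p := by
    intro p hp u hu hue
    have hex : ∃ u : ℂ × ℂ → ℂ, AnalyticAt ℂ u p ∧ ∀ᶠ x in 𝓝 p, H x = u x * g x := ⟨u, hu, hue⟩
    have h1 : f p = hex.choose p := by
      rw [hf]
      simp only
      rw [dif_pos hex]
    rw [h1]
    by_contra hcon
    have h2 : ∀ᶠ x in 𝓝 p, hex.choose x - u x ≠ 0 :=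
      (hex.choose_spec.1.continuousAt.sub hu.continuousAt).eventually_ne (sub_ne_zero.2 hcon)
    apply hp
    filter_upwards [h2, hex.choose_spec.2, hue] with x h3 h4 h5
    rw [not_not]
    have h6 : (hex.choose x - u x) * g x = 0 := by
      rw [sub_mul, ← h4, ← h5, sub_self]
    exact (mul_eq_zero.1 h6).resolve_left h3
  have hfan : ∀ᶠ p in 𝓝 (0 : ℂ × ℂ), p ≠ 0 → AnalyticAt ℂ f p ∧ H p = f p * g p := by
    filter_upwards [hloc.eventually_nhds] with p h1 hp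
    obtain ⟨h2, u, hu, hue⟩ := h1.self_of_nhds hp
    have h3 : u =ᶠ[𝓝 p] f := by
      filter_upwards [h1, isOpen_ne.mem_nhds hp, hu.eventually_analyticAt, hue.eventually_nhds] with w h4 h5 h6 h7
      exact (huniq w (h4 h5).1 u h6 h7).symm
    refine ⟨hu.congr h3, ?_⟩
    rw [hue.self_of_nhds, huniq p h2 u hu hue]
  obtain ⟨c, hc, hcf⟩ := hartogs (f := f) (by filter_upwards [hfan] with p h1 hp using (h1 hp).1)
  refine ⟨c, hc, ?_⟩
  have h1 : ∀ᶠ p in 𝓝 (0 : ℂ × ℂ), p ≠ 0 → H p = c p * g p := by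
    filter_upwards [hfan, hcf] with p h2 h3 hp
    rw [h3 hp]
    exact (h2 hp).2
  have h2 : H 0 = c 0 * g 0 := by
    have e1 : Tendsto H (𝓝[≠] (0 : ℂ × ℂ)) (𝓝 (H 0)) := hHa.continuousAt.tendsto.mono_left nhdsWithin_le_nhds
    have e2 : Tendsto (fun p => c p * g p) (𝓝[≠] (0 : ℂ × ℂ)) (𝓝 (c 0 * g 0)) :=
      (hc.continuousAt.mul hg.continuousAt).tendsto.mono_left nhdsWithin_le_nhds
    refine tendsto_nhds_unique (e1.congr' ?_) e2
    exact eventually_nhdsWithin_iff.2 h1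
  filter_upwards [h1] with p h3
  have h4 : H p = c p * g p := by
    by_cases hp : p = 0
    · rw [hp]
      exact h2
    · exact h3 hp
  rw [hH] at h4
  exact h4

end Pool.Agent.MQ2

end
end

section

/-!
# MQ2 LeafS: the leaves of a vector field in the zero set of a function, near a regular point

`rect` and `LeafS.leaf_set_of`.
-/

set_option autoImplicit false

open Topology Filter Metric

noncomputable section

namespace Pool.Agent.MQ2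

open Pool.Agent.MQ

theorem leaf_set {v : ℂ × ℂ → ℂ × ℂ} {q : ℂ × ℂ → ℂ} {p₀ : ℂ × ℂ} (hv : AnalyticAt ℂ v p₀) (hv0 : v p₀ ≠ 0) (hq : AnalyticAt ℂ q p₀)
    (hq0 : ∃ᶠ p in 𝓝 p₀, q p ≠ 0) : (∀ᶠ p in 𝓝 p₀, ¬ LeafIn v q p) ∨ ∃ l : ℂ × ℂ → ℂ, AnalyticAt ℂ l p₀ ∧ l p₀ = 0 ∧ fderiv ℂ l p₀ ≠ 0 ∧
      ∀ᶠ p in 𝓝 p₀, (LeafIn v q p ↔ l p = 0) ∧ (l p = 0 → q p = 0 ∧ fderiv ℂ l p (v p) = 0) := by
  have hv' : AnalyticAt ℂ (fun p => v (p₀ + p)) 0 := by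
    refine AnalyticAt.fun_comp (g := v) (f := fun p => p₀ + p) ?_ (by fun_prop)
    simpa using hv
  obtain ⟨Φ, hΦ, h0, hli, hrel⟩ := rect hv' (by simpa using hv0)
  have hd : ∀ p, fderiv ℂ (fun p => p₀ + Φ p) p = fderiv ℂ Φ p := fun p => fderiv_const_add p₀
  refine LeafS.leaf_set_of hv hv0 hq hq0 (Ψ := fun p => p₀ + Φ p) (analyticAt_const.add hΦ) (by rw [h0, add_zero]) ?_ ?_
  · simp only [hd]
    exact hli
  · filter_upwards [hrel] with p hp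
    simp only [hd]
    exact hp

end Pool.Agent.MQ2

end
end

section

/-!
# MQ2 GInv: the reduced equation of the leaves in the zero set of a function, near a singular point

PROOF.  `Z` = the points with a piece of a leaf in `{f = 0}`.  Off the center it is empty or a smooth curve (`leaf_set`), so it has a reduced equation `g`
(`exists_equ`), which is invariant (`wt_of_equ`).
-/

set_option autoImplicit false

open Topology Filter Metric MvPolynomial Asymptotics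

noncomputable section

namespace Pool.Agent.MQ2

open Pool.Agent.MQ

/-- a germ which is not zero is not zero near any point -/
theorem frequently_ne_near {q : ℂ × ℂ → ℂ} (hq : AnalyticAt ℂ q 0) (hq0 : ∃ᶠ p in 𝓝 (0 : ℂ × ℂ), q p ≠ 0) :
    ∀ᶠ p in 𝓝 (0 : ℂ × ℂ), ∃ᶠ w in 𝓝 p, q w ≠ 0 := by
  obtain ⟨r, hr, h1⟩ := Metric.eventually_nhds_iff_ball.1 hq.eventually_analyticAt
  filter_upwards [ball_mem_nhds (0 : ℂ × ℂ) hr] with p hp
  intro h2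
  have h3 : q =ᶠ[𝓝 p] 0 := by
    filter_upwards [h2] with w hw
    simpa using hw
  have h4 : AnalyticOnNhd ℂ q (ball 0 r) := fun w hw => h1 w hw
  have h5 := h4.eqOn_zero_of_preconnected_of_eventuallyEq_zero (convex_ball _ _).isPreconnected hp h3
  exact hq0 (by
    filter_upwards [ball_mem_nhds (0 : ℂ × ℂ) hr] with w hw h6
    exact h6 (h5 hw))

/-- the leaves in the zero set of `f` have a reduced invariant equation -/
theorem exists_ginv {v : ℂ × ℂ → ℂ × ℂ} (hv : Iso v) {f : ℂ × ℂ → ℂ} (hf : AnalyticAt ℂ f 0) (hf0 : ∃ᶠ p in 𝓝 (0 : ℂ × ℂ), f p ≠ 0) :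
    ∃ g : ℂ × ℂ → ℂ, Wt v g ∧ ∀ᶠ p in 𝓝 (0 : ℂ × ℂ), p ≠ 0 → (g p = 0 ↔ LeafIn v f p) ∧
      (g p = 0 → fderiv ℂ g p ≠ 0 ∧ f p = 0 ∧ fderiv ℂ g p (v p) = 0) := by
  obtain ⟨hva, hv0, hvne⟩ := hv
  set Z : Set (ℂ × ℂ) := {p | LeafIn v f p} with hZ
  -- the invariant points off the center
  have hls : ∀ᶠ p in 𝓝 (0 : ℂ × ℂ), p ≠ 0 → (∀ᶠ w in 𝓝 p, w ∉ Z) ∨ ∃ l : ℂ × ℂ → ℂ, AnalyticAt ℂ l p ∧ l p = 0 ∧ fderiv ℂ l p ≠ 0 ∧
      ∀ᶠ w in 𝓝 p, (w ∈ Z ↔ l w = 0) ∧ (l w = 0 → f w = 0 ∧ fderiv ℂ l w (v w) = 0) := by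
    filter_upwards [hva.eventually_analyticAt, hvne, hf.eventually_analyticAt, frequently_ne_near hf hf0] with p h1 h2 h3 h4 hp
    exact leaf_set h1 (h2 hp) h3 h4
  obtain ⟨g, hg, hgne, hgZ⟩ := exists_equ (Z := Z) hf hf0 (by
    filter_upwards [hls] with p h1 hp
    rcases h1 hp with h2 | ⟨l, h2, h3, h4, h5⟩
    · exact Or.inl h2
    · exact Or.inr ⟨l, h2, h3, h4, h5.mono fun w hw => ⟨hw.1, fun h => (hw.2 h).1⟩⟩)
  have hred : ∀ᶠ p in 𝓝 (0 : ℂ × ℂ), p ≠ 0 → g p = 0 → fderiv ℂ g p ≠ 0 := by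
    filter_upwards [hgZ] with p h1 hp
    exact (h1 hp).2
  have hinv : ∀ᶠ p in 𝓝 (0 : ℂ × ℂ), p ≠ 0 → g p = 0 → f p = 0 ∧ fderiv ℂ g p (v p) = 0 := by
    filter_upwards [hls, hgZ, eventually_eventually_nhds.2 hgZ, hg.eventually_analyticAt] with p h1 h2 h3 h4 hp h0
    have hpZ : p ∈ Z := (h2 hp).1.1 h0
    rcases h1 hp with h5 | ⟨l, h5, h6, h7, h8⟩
    · exact absurd hpZ h5.self_of_nhds
    · have hne' : ∀ᶠ w in 𝓝 p, w ≠ 0 := isOpen_ne.mem_nhds hp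
      obtain ⟨u, hu, hu0, huu⟩ := unit (l := l) (l' := g) h5 h4 (fun _ => h7) (fun _ => (h2 hp).2 h0) (by
        filter_upwards [h8, h3, hne'] with w h9 h10 h11
        rw [← h9.1, (h10 h11).1])
      have h9 : HasFDerivAt (fun x => u x * l x) (u p • fderiv ℂ l p + l p • fderiv ℂ u p) p :=
        hu.differentiableAt.hasFDerivAt.mul h5.differentiableAt.hasFDerivAt
      have h10 : fderiv ℂ g p = u p • fderiv ℂ l p + l p • fderiv ℂ u p := by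
        have h11 : g =ᶠ[𝓝 p] fun x => u x * l x := huu
        rw [h11.fderiv_eq, h9.fderiv]
      have h11 := (h8.self_of_nhds.2 h6).2
      refine ⟨(h8.self_of_nhds.2 h6).1, ?_⟩
      rw [h10]
      simp [h6, h11]
  refine ⟨g, wt_of_equ ⟨hva, hv0, hvne⟩ hg hgne hred ?_, ?_⟩
  · filter_upwards [hinv] with p h1 hp h0
    exact (h1 hp h0).2
  · filter_upwards [hgZ, hinv] with p h1 h2 hp
    exact ⟨(h1 hp).1, fun h0 => ⟨(h1 hp).2 h0, h2 hp h0⟩⟩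

end Pool.Agent.MQ2

end
end
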