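import Pool.Agent.H94.G6.M112
import Pool.Agent.H94.G6.M115
import Pool.Agent.H94.G6.M131
import Pool.Agent.H94.G6.M135
import Pool.Agent.H94.G6.M149
import Pool.Agent.H94.G6.M150
import Pool.Agent.H94.G6.M69
import Pool.Agent.H94.G6.M97

/-! The parts of this file: H36.BPL.CurveK_1, MQ3.LocN, MQ3.GInvNL, MQ3.GInvN. -/

section

/-!
# BPL CurveK: curves

An open part `K` of a closed cone `X`, proper over an affine variety, whose complement `X ∖ K` contains no curves (for instance `X` is the cone of a curve).  If the entire curves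
of order at most two in `K` are constant then all entire curves in `K` are constant and all holomorphic maps from the punctured disc to `K` extend.
The metric is the Fubini-Study metric.
-/

set_option autoImplicit false

open Topology Filter Metric

noncomputable section

namespace Pool.Agent.H36.BPL

open Pool.Agent.H17 (PN HolomorphicInto puncturedDisc)
open Pool.Agent.H36.BP
open Pool.Agent.H17BP (Pr HolP Picard Brody)
open Pool.Agent.H14.KB (ptsOf coneOf_ptsOf)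

variable {N : ℕ}

variable {V : Type} [NormedAddCommGroup V] [NormedSpace ℂ V]

/-- **Curves**: `K` is an open part of the closed cone `X`, proper over an affine variety, and all holomorphic curves in `X ∖ K` are constant.  If all entire curves of order at most two in `K` are constant
then all entire curves in `K` are constant and all holomorphic maps of the punctured disc into `K` extend. -/
theorem curve_picard2 [FiniteDimensional ℂ V] {X K : Set V} {M : ℕ} {Φ : V → Fin M → ℂ} (h0 : (0 : V) ∉ X) (hcl : ∀ x ∈ closure X, x ≠ 0 → x ∈ X)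
    (hKX : K ⊆ X) (hKs : ∀ x ∈ K, ∀ c : ℂ, c ≠ 0 → c • x ∈ K) (hrel : ∀ x ∈ K, ∀ᶠ y in 𝓝 x, y ∈ X → y ∈ K) (hΦ : AffProper X K Φ)
    (hbd : ∀ (F : ℂ → V) (z₀ : ℂ), AnalyticAt ℂ F z₀ → (∀ᶠ z in 𝓝 z₀, F z ∈ X ∧ F z ∉ K) → ∀ᶠ z in 𝓝 z₀, ∃ c : ℂ, F z = c • F z₀)
    (hB : Brody2 K ∅) : Picard K ∅ ∧ Brody K ∅ := by
  by_cases hKe : ∃ x₁, x₁ ∈ K
  swap
  · refine ⟨fun r hr f hf hfB => ?_, fun f _ hfK _ => absurd ⟨f 0, hfK 0⟩ hKe⟩
    obtain ⟨z₁, hz₁, hz₁r, -⟩ := hfB
    exact absurd ⟨f z₁, (hf z₁ hz₁ hz₁r).2⟩ hKe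
  obtain ⟨x₁, hx₁⟩ := hKe
  have hne : ∀ x ∈ K, x ≠ 0 := fun x hx e => h0 (e ▸ hKX hx)
  have hpos : 0 < Module.finrank ℂ V := Module.finrank_pos_iff_exists_ne_zero.mpr ⟨x₁, hne x₁ hx₁⟩
  obtain ⟨N, hN⟩ : ∃ N, Module.finrank ℂ V = N + 1 := ⟨Module.finrank ℂ V - 1, by omega⟩
  let L : V ≃L[ℂ] EN N := ContinuousLinearEquiv.ofFinrankEq (by rw [hN]; simp)
  set X' : Set (EN N) := L.symm ⁻¹' X with hX'
  set K' : Set (EN N) := L.symm ⁻¹' K with hK'
  have h0' : (0 : EN N) ∉ X' := by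
    show L.symm 0 ∉ X
    rwa [map_zero]
  have hcl' : ∀ x ∈ closure X', x ≠ 0 → x ∈ X' := by
    intro x hx hx0
    have h2 : closure (L.symm ⁻¹' X : Set (EN N)) = L.symm ⁻¹' (closure X) := (L.symm.toHomeomorph.preimage_closure X).symm
    rw [hX', h2] at hx
    exact hcl _ hx fun h => hx0 (L.symm.map_eq_zero_iff.mp h)
  have hKX' : K' ⊆ X' := fun x hx => hKX hx
  have hKs' : ∀ x ∈ K', ∀ c : ℂ, c ≠ 0 → c • x ∈ K' := by
    intro x hx c hc
    show L.symm (c • x) ∈ K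
    rw [map_smul]
    exact hKs _ hx c hc
  have hrel' : ∀ x ∈ K', ∀ᶠ y in 𝓝 x, y ∈ X' → y ∈ K' := fun x hx => (L.symm.continuous.tendsto x).eventually (hrel _ hx)
  have hM := curve_metric h0' hcl' hKX' hKs' hrel' (affProper_transport L hΦ) (by
    intro F z₀ hF hFX
    filter_upwards [hbd (fun z => L.symm (F z)) z₀ (((L.symm : EN N →L[ℂ] V).analyticAt _).comp hF) hFX] with z hz
    obtain ⟨c, hc⟩ := hz
    refine ⟨c, L.symm.injective ?_⟩
    rw [map_smul]
    exact hc)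
  have hbm : BrodyMod2 K' ∅ := by
    intro F hF hFK hne' hord z
    exfalso
    have hall := hB (fun z => L.symm (F z)) (fun z => by
      refine ⟨fun z => L.symm (F z), ((L.symm : EN N →L[ℂ] V).analyticAt _).comp (hF.analyticAt z), ?_,
        Filter.Eventually.of_forall fun w => ⟨1, one_ne_zero, (one_smul _ _).symm⟩⟩
      exact hne _ (hFK z)) hFK (hord.equiv L.symm) ⟨0, Set.notMem_empty _⟩
    obtain ⟨a, b, hab⟩ := hne'
    obtain ⟨c, hc, e⟩ := hall a b
    refine hab c (L.symm.injective ?_)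
    rw [map_smul]
    exact e
  refine ⟨?_, ?_⟩
  · refine W_picard (fun h => h0 (hKX h)) hKs (fun x hx => absurd hx (Set.notMem_empty _)) fun f hf hfK hfB => ?_
    obtain ⟨z₁, hz₁, -⟩ := hfB
    obtain ⟨g, hg, hgf⟩ := picard_cone2 hM hbm (fun x hx => absurd hx (Set.notMem_empty _)) (fun x _ hx => absurd hx (Set.notMem_empty _))
      (fun z => toPN L (f z)) (holomorphicInto_toPN L hf) (fun z hz => (toPN_mem L hKs (f z)).mpr (hfK z hz)) ⟨z₁, hz₁, Set.notMem_empty _⟩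
    exact ⟨fun z => ofPN L (g z), holInto_ofPN L hg, fun z hz => by simp only; rw [hgf z hz, ofPN_toPN]⟩
  · intro f hf hfK _ 
    have hK'0 : (0 : EN N) ∉ K' := fun h => h0' (hKX' h)
    have e1 : coneOf (ptsOf K') = K' := coneOf_ptsOf hK'0 hKs'
    have e2 : coneOf (ptsOf (∅ : Set (EN N))) = ∅ := coneOf_ptsOf (Set.notMem_empty _) (fun x hx => absurd hx (Set.notMem_empty _))
    have hM2 : MetricData (coneOf (ptsOf K')) (coneOf (ptsOf (∅ : Set (EN N)))) (fun x v => fs x v) (fun _ => 1) 1 1 (3 / 2) := by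
      rw [e1, e2]
      exact hM
    obtain ⟨C, hC, hkob⟩ := kobayashi_of_bound hM2 (by
      rw [e1]
      exact brody_bound2 hM hbm)
    -- the map into projective space
    have hf0 : f 0 ≠ 0 := hne _ (hfK 0)
    set p : ℂ → Projectivization ℂ V := fun z => W_pt (f 0) hf0 (f z) with hp
    have hpz : ∀ z, p z = Projectivization.mk ℂ (f z) (hne _ (hfK z)) := fun z => W_pt_eq _ _ (hne _ (hfK z)) ⟨1, one_ne_zero, (one_smul _ _).symm⟩
    have hpK : ∀ z, (p z).rep ∈ K := by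
      intro z
      rw [hpz z]
      obtain ⟨a, ha, h4⟩ := rep_mk (hne _ (hfK z))
      rw [h4]
      exact hKs _ (hfK z) a ha
    have hpH : HolInto p Set.univ := by
      intro z₀ _
      obtain ⟨F, hF, hF0, hFe⟩ := hf z₀
      refine ⟨F, hF, ?_⟩
      filter_upwards [hF.continuousAt.eventually_ne hF0, hFe] with z h1 h2
      exact ⟨h1, W_pt_eq _ _ h1 h2⟩
    set g : ℂ → PN N := fun z => toPN L (p z) with hg
    have hgH : HolomorphicInto g Set.univ := holomorphicInto_toPN L hpH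
    have hgK : ∀ z, g z ∈ ptsOf K' := fun z => (toPN_mem L hKs (p z)).mpr (hpK z)
    -- the derivative vanishes
    have hwd : ∀ (F : ℂ → EN N) (w : ℂ), AnalyticAt ℂ F w → (∀ᶠ z in 𝓝 w, ∃ h : (F z).ofLp ≠ 0, g z = Projectivization.mk ℂ _ h) →
        wd (F w) (deriv F w) = 0 := by
      intro F w hF hFg
      have hFw : F w ≠ 0 := ne_zero_of_ofLp hFg.self_of_nhds.choose
      have hb : ∀ R : ℝ, 0 < R → R * fs (F w) (deriv F w) ≤ C := by
        intro R hR
        have haff : ∀ u : ℂ, AnalyticAt ℂ (fun u : ℂ => w + R * u) u := fun u => analyticAt_const.add (analyticAt_const.mul analyticAt_id)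
        have htd : Tendsto (fun u : ℂ => w + R * u) (𝓝 0) (𝓝 w) := by
          have := (haff 0).continuousAt.tendsto
          simpa using this
        have h5 := hkob (fun u => g (w + R * u)) (fun u => F (w + R * u)) (by
          intro u _
          obtain ⟨φ, hφ, he⟩ := hgH (w + R * u) (Set.mem_univ _)
          exact ⟨fun u => φ (w + R * u), AnalyticAt.comp (g := φ) (f := fun u : ℂ => w + R * u) hφ (haff u),
            (haff u).continuousAt.tendsto.eventually he⟩) (fun u _ => hgK _)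
          (AnalyticAt.comp (g := F) (f := fun u : ℂ => w + R * u) (by simpa using hF) (haff 0)) (htd.eventually hFg)
        have hd : HasDerivAt (fun u : ℂ => F (w + R * u)) ((R : ℂ) • deriv F w) 0 := by
          have h6 : HasDerivAt (fun u : ℂ => w + R * u) (R : ℂ) 0 := by
            simpa using ((hasDerivAt_id (0 : ℂ)).const_mul (R : ℂ)).const_add w
          have h7 : HasDerivAt F (deriv F w) ((fun u : ℂ => w + R * u) 0) := by
            simpa using hF.differentiableAt.hasDerivAt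
          exact h7.scomp 0 h6
        rw [hd.deriv, fs_smul_right, Complex.norm_real, Real.norm_of_nonneg hR.le] at h5
        simpa using h5
      have hfs : fs (F w) (deriv F w) = 0 := by
        by_contra hcon
        have h6 : 0 < fs (F w) (deriv F w) := lt_of_le_of_ne (fs_nonneg _ _) (Ne.symm hcon)
        have h7 := hb ((C + 1) / fs (F w) (deriv F w)) (by positivity)
        rw [div_mul_cancel₀ _ h6.ne'] at h7
        linarith
      unfold fs at hfs
      rcases div_eq_zero_iff.mp hfs with h | h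
      · exact h
      · exact absurd (norm_eq_zero.mp (pow_eq_zero_iff two_ne_zero |>.mp h)) hFw
    obtain ⟨φ, hφ, he⟩ := hgH 0 (Set.mem_univ _)
    obtain ⟨F, hFdef⟩ : ∃ F : ℂ → EN N, F = fun w => (WithLp.toLp 2 (φ w) : EN N) := ⟨_, rfl⟩
    have hFa : AnalyticAt ℂ F 0 := by
      rw [hFdef]
      exact analyticAt_toLp hφ
    have hFφ : ∀ w, (F w).ofLp = φ w := fun w => by rw [hFdef]
    have heF : ∀ᶠ z in 𝓝 (0 : ℂ), ∃ h : (F z).ofLp ≠ 0, g z = Projectivization.mk ℂ _ h := by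
      filter_upwards [he] with z hz
      obtain ⟨h1, h2⟩ := hz
      refine ⟨by rw [hFφ]; exact h1, ?_⟩
      rw [h2]
      congr 1
      exact (hFφ z).symm
    have hF0 : F 0 ≠ 0 := ne_zero_of_ofLp heF.self_of_nhds.choose
    have hloc := const_of_wedge hFa hF0 (by
      filter_upwards [heF.eventually_nhds, hFa.eventually_analyticAt] with w h1 h2
      exact hwd F w h2 h1)
    have hgl : ∀ᶠ w in 𝓝 (0 : ℂ), g w = g 0 := by
      filter_upwards [hloc, heF] with w h1 h2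
      obtain ⟨c, hc, h3⟩ := h1
      obtain ⟨h4, h5⟩ := h2
      obtain ⟨h6, h7⟩ := heF.self_of_nhds
      rw [h5, h7, Projectivization.mk_eq_mk_iff']
      refine ⟨c, ?_⟩
      rw [h3]
      rfl
    have hall : ∀ z, g z = g 0 := fun z => const_identity isPreconnected_univ hgH (Set.mem_univ _) hgl z (Set.mem_univ _)
    have hpall : ∀ z, p z = p 0 := by
      intro z
      rw [← ofPN_toPN L (p z), ← ofPN_toPN L (p 0)]
      exact congrArg _ (hall z)
    intro z w
    have h8 := (hpall z).trans (hpall w).symm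
    rw [hpz, hpz] at h8
    exact W_pr_of_mk _ _ h8

end Pool.Agent.H36.BPL

end
end

section

/-!
# MQ3 LocN: the data of the local packages at the special points
-/

set_option autoImplicit false

open Topology Filter Metric MvPolynomial MeasureTheory Laplacian

noncomputable section

namespace Pool.Agent.MQ3

open Pool.Agent.H36.BP (EN fs)
open Pool.Agent.H17EF (projVar coneE)
open Pool.Agent.MQ (lam Crv1 nt_form_le eval_smulE lam_nonneg)
open Pool.Agent.MQ2 (Dat)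

variable {M : ℕ} {P : Ideal (MvPolynomial (Fin (M + 1)) ℂ)} {RD : MvPolynomial (Fin (M + 1)) ℂ} {m : ℕ} {X : NCModel P RD} {θ : WDiff (coneE P) m}
  {l : LF M} {S : Web X θ l} {Ra : MvPolynomial (Fin (M + 1)) ℂ}

private theorem LocN_ne0 {x : EN M} (hx : x ∈ coneE P) : x ≠ 0 := by
  rintro rfl
  exact hx.1 (map_zero _)

/-- the curve at the special point -/
theorem crv_vj (C : Cov S Ra) (j : Fin C.nP) {F : ℂ → EN M} (hF : WCrv θ RD F) (Y : NCLift X F) :
    Crv1 (C.vj j) (C.r j) (C.UP Y j) (C.pj Y j) where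
  isOpen := by
    refine isOpen_iff_mem_nhds.2 fun z hz => ?_
    filter_upwards [(Om_open hF Y (C.ck j)).mem_nhds hz.1,
      (lfN_an hF Y (C.ck j) z hz.1).continuousAt.preimage_mem_nhds (isOpen_ball.mem_nhds hz.2)] with w h1 h2 using ⟨h1, h2⟩
  an := fun z hz => (lfN_an hF Y (C.ck j) z hz.1).sub analyticAt_const
  mem := by
    intro z hz
    have h1 := hz.2
    rw [mem_ball, dist_eq_norm] at h1
    rw [mem_ball_zero_iff]
    exact h1
  closed := by
    intro s hs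
    have h1 : {z | z ∈ C.UP Y j ∧ C.pj Y j z ∈ closedBall (0 : ℂ × ℂ) s} = {z | z ∈ S.Om Y (C.ck j) ∧ S.lf Y (C.ck j) z ∈ closedBall (C.Q j) s} := by
      ext z
      constructor
      · rintro ⟨h2, h3⟩
        rw [mem_closedBall_zero_iff] at h3
        refine ⟨h2.1, ?_⟩
        rw [mem_closedBall, dist_eq_norm]
        exact h3
      · rintro ⟨h2, h3⟩
        rw [mem_closedBall, dist_eq_norm] at h3
        refine ⟨⟨h2, ?_⟩, ?_⟩
        · rw [mem_ball, dist_eq_norm]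
          exact h3.trans_lt hs
        · rw [mem_closedBall_zero_iff]
          exact h3
    rw [h1]
    exact lfN_closed hF Y (C.ck j) (isCompact_closedBall _ _) ((closedBall_subset_closedBall hs.le).trans (C.P_sub j))
  ode := by
    intro z hz
    have h1 : deriv (C.pj Y j) z = deriv (S.lf Y (C.ck j)) z := deriv_sub_const _
    have h2 : C.vj j (C.pj Y j z) = S.v (C.ck j) (S.lf Y (C.ck j) z) := by
      unfold Cov.vj Cov.pj
      rw [add_sub_cancel]
    rw [h1, h2]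
    exact lfN_tan hF Y (C.ck j) z hz.1

/-- the data of the package; `q`, `ψ` for the form `Qf` -/
theorem dat_web (C : Cov S Ra) {g : Fin C.nP → ℂ × ℂ → ℂ} (hg : PG C g) (j : Fin C.nP) {F : ℂ → EN M} (hF : RCrv θ RD Ra F) (Y : NCLift X F) {A : ℝ} {lm : ℂ → ℝ} (hl : Dens C Y A lm)
    {Qf : MvPolynomial (Fin (M + 1)) ℂ} {dQ : ℕ} (hQ : Qf.IsHomogeneous dQ) (hQF : ∃ z, eval (F z).ofLp Qf ≠ 0) :
    ∃ Q : ℂ → ℂ, Dat (C.vj j) (fun x => g j (C.Q j + x)) (C.r j) 1 dQ (fun x => eval (S.σ (C.ck j) (C.Q j + x)).ofLp Qf)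
      (fun x => Real.log ‖S.σ (C.ck j) (C.Q j + x)‖) F Q lm (C.UP Y j) (C.pj Y j) := by
  obtain ⟨K, hK1, hK⟩ := nt_form_le hQ
  have hK0 : 0 < K := zero_lt_one.trans_le hK1
  have hadd : ∀ z, C.Q j + C.pj Y j z = S.lf Y (C.ck j) z := fun z => add_sub_cancel _ _
  refine ⟨fun z => (K : ℂ)⁻¹ * eval (F z).ofLp Qf, crv_vj C j hF.toWCrv Y, ?_, ?_, hl.cont, fun z => (lam_nonneg F z).trans (hl.le z), ?_, hF.diff,
    fun z => LocN_ne0 (hF.mem z), hl.le, ?_, ?_, ?_, K⁻¹, inv_pos.2 hK0, ?_⟩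
  · intro z hz
    have h1 := (lfN_ne hF.toWCrv Y (C.ck j) z hz.1).frequently.filter_mono nhdsWithin_le_nhds
    by_contra hcon
    rw [not_frequently] at hcon
    have h2 : ∀ᶠ w in 𝓝 z, deriv (S.lf Y (C.ck j)) w = 0 := by
      filter_upwards [hcon.eventually_nhds] with w hw
      have h3 : S.lf Y (C.ck j) =ᶠ[𝓝 w] fun _ => C.Q j := by
        filter_upwards [hw] with u hu
        rw [not_not] at hu
        exact sub_eq_zero.1 hu
      rw [h3.deriv_eq, deriv_const]
    obtain ⟨w, h3, h4⟩ := (h1.and_eventually h2).exists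
    exact h3.2.1 h4
  · intro z hz
    have h1 := (g_ne C hg j hF Y z hz).frequently.filter_mono nhdsWithin_le_nhds
    refine h1.mono fun w hw => ?_
    rw [hadd]
    exact hw
  · intro z hz
    have h1 : deriv (C.pj Y j) z = deriv (S.lf Y (C.ck j)) z := deriv_sub_const _
    rw [h1, one_mul]
    exact hl.pt j z hz.1 (ball_subset_closedBall hz.2)
  · exact (Differentiable.const_mul (fun z => (Pool.Agent.MQ.analyticAt_evalE (hF.diff.analyticAt z) Qf).differentiableAt) _)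
  · obtain ⟨z, hz⟩ := hQF
    exact ⟨z, mul_ne_zero (inv_ne_zero (Complex.ofReal_ne_zero.2 hK0.ne')) hz⟩
  · intro z
    rw [norm_mul, norm_inv, Complex.norm_real, Real.norm_of_nonneg hK0.le, inv_mul_le_iff₀ hK0]
    exact hK _
  · intro z hz
    rw [hadd]
    have h1 := lfN_mem hF.toWCrv Y (C.ck j) z hz.1
    have h2 := Om_sub hF.toWCrv Y (C.ck j) hz.1
    obtain ⟨c, hc, h3⟩ := Y.eq (C.ck j).1 z h2
    have h4 : S.σ (C.ck j) (S.lf Y (C.ck j) z) = X.ρ (C.ck j).1 (Y.p (C.ck j).1 z) := by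
      unfold Web.σ
      rw [h1.2]
    have h5 : X.ρ (C.ck j).1 (Y.p (C.ck j).1 z) ≠ 0 := by
      intro h6
      rw [h6, smul_zero] at h3
      exact LocN_ne0 (hF.mem z) h3
    have h6 : 0 < ‖X.ρ (C.ck j).1 (Y.p (C.ck j).1 z)‖ := norm_pos_iff.2 h5
    simp only [h4]
    rw [h3, eval_smulE hQ, norm_mul, norm_mul, norm_inv, Complex.norm_real, Real.norm_of_nonneg hK0.le, norm_smul, mul_pow, norm_pow,
      ← Real.log_pow, Real.exp_log (pow_pos h6 _)]
    ring

end Pool.Agent.MQ3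

end
end

section

/-!
# MQ3 GInvNL: the equation of the leaves in the zero set of a function, near an arbitrary point

`v` has at most an isolated zero at `0`.  `g` = the reduced equation of the leaves in `{f = 0}` (`leaf_set`, `exists_ginv`); near every other point `f` has the
zeros of `g h`, where `{h = 0}` is transversal to `v` and does not meet `{g = 0}` (`regPt_off`).
-/

set_option autoImplicit false

open Topology Filter

noncomputable section

namespace Pool.Agent.MQ3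

open Pool.Agent.H17BP (Bihol bihol_iff)
open Pool.Agent.MQ (LeafIn ld_lin ld_chain ld_clm)
open Pool.Agent.MQ2 (Wt Iso exists_ginv leaf_set div_smooth)

/-- near `x` the function `g` is a reduced equation of the invariant part of `{f = 0}` -/
def LInv (v : ℂ × ℂ → ℂ × ℂ) (f g : ℂ × ℂ → ℂ) (x : ℂ × ℂ) : Prop :=
  AnalyticAt ℂ g x ∧ (∀ᶠ y in 𝓝 x, g y = 0 → fderiv ℂ g y ≠ 0) ∧
    (∃ c : ℂ × ℂ → ℂ, AnalyticAt ℂ c x ∧ ∀ᶠ y in 𝓝 x, fderiv ℂ g y (v y) = c y * g y) ∧
    ∃ h : ℂ × ℂ → ℂ, AnalyticAt ℂ h x ∧ (∀ᶠ y in 𝓝 x, f y = 0 ↔ g y * h y = 0) ∧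
      ∀ᶠ y in 𝓝 x, h y = 0 → g y ≠ 0 ∧ fderiv ℂ h y (v y) ≠ 0

/-- the equation of the leaves in the zero set of `f` -/
theorem exists_gloc {v : ℂ × ℂ → ℂ × ℂ} {f : ℂ × ℂ → ℂ} (hv : AnalyticAt ℂ v 0) (hv0 : ∀ᶠ p in 𝓝 (0 : ℂ × ℂ), p ≠ 0 → v p ≠ 0)
    (hf : AnalyticAt ℂ f 0) (hf0 : ∃ᶠ p in 𝓝 (0 : ℂ × ℂ), f p ≠ 0) :
    ∃ g : ℂ × ℂ → ℂ, Wt v g ∧ ∀ᶠ p in 𝓝 (0 : ℂ × ℂ), p ≠ 0 → (g p = 0 ↔ LeafIn v f p) ∧
      (g p = 0 → fderiv ℂ g p ≠ 0 ∧ f p = 0 ∧ fderiv ℂ g p (v p) = 0) := by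
  by_cases h0 : v 0 = 0
  · exact exists_ginv ⟨hv, h0, hv0⟩ hf hf0
  · rcases leaf_set hv h0 hf hf0 with h1 | ⟨l, h1, h2, h3, h4⟩
    · refine ⟨fun _ => 1, ⟨analyticAt_const, Eventually.frequently (Eventually.of_forall fun _ => one_ne_zero), ⟨fun _ => 0, analyticAt_const, ?_⟩, ?_⟩, ?_⟩
      · exact Eventually.of_forall fun p => by simp
      · exact Eventually.of_forall fun p _ h => absurd h one_ne_zero
      · filter_upwards [h1] with p hp _
        exact ⟨⟨fun h => absurd h one_ne_zero, fun h => absurd h hp⟩, fun h => absurd h one_ne_zero⟩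
    · have h5 : ∀ᶠ p in 𝓝 (0 : ℂ × ℂ), fderiv ℂ l p ≠ 0 := h1.fderiv.continuousAt.eventually_ne h3
      refine ⟨l, ⟨h1, ?_, ?_, ?_⟩, ?_⟩
      · intro hcon
        apply h3
        have e : l =ᶠ[𝓝 0] fun _ => 0 := by
          filter_upwards [hcon] with p hp using not_not.1 hp
        rw [e.fderiv_eq]
        simp
      · exact div_smooth (l' := fun p => fderiv ℂ l p (v p)) h1 (ld_clm h1.fderiv hv) (fun _ => h3) (by
          filter_upwards [h4] with p hp h using (hp.2 h).2)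
      · filter_upwards [h5] with p hp _ _ using hp
      · filter_upwards [h4, h5] with p hp hp5 _
        exact ⟨hp.1.symm, fun h => ⟨hp5, hp.2 h⟩⟩

/-- a linear form with prescribed independence -/
private theorem GInvNL_form {L : ℂ × ℂ →L[ℂ] ℂ} (h : L ≠ 0) : ∃ l : ℂ × ℂ →L[ℂ] ℂ, L (1, 0) * l (0, 1) - L (0, 1) * l (1, 0) ≠ 0 := by
  by_cases h1 : L (1, 0) = 0
  · refine ⟨ContinuousLinearMap.fst ℂ ℂ ℂ, ?_⟩
    intro h2
    apply h
    have h3 : L (0, 1) = 0 := by
      rw [h1] at h2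
      simpa using h2
    ext
    · simpa using h1
    · simpa using h3
  · refine ⟨ContinuousLinearMap.snd ℂ ℂ ℂ, ?_⟩
    simpa using h1

/-- a smooth invariant curve is a leaf -/
theorem leafIn_of_smooth {v : ℂ × ℂ → ℂ × ℂ} {f G : ℂ × ℂ → ℂ} {w : ℂ × ℂ} (hG : AnalyticAt ℂ G w) (h0 : G w = 0) (h1 : fderiv ℂ G w ≠ 0)
    (hinv : ∀ᶠ y in 𝓝 w, G y = 0 → fderiv ℂ G y (v y) = 0) (hfG : ∀ᶠ y in 𝓝 w, G y = 0 → f y = 0) : LeafIn v f w := by
  obtain ⟨m, hm⟩ := GInvNL_form h1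
  obtain ⟨θ, hθ⟩ : ∃ θ : ℂ × ℂ → ℂ × ℂ, θ = fun x => (G (w + x), m x) := ⟨_, rfl⟩
  have hqa : AnalyticAt ℂ (fun x : ℂ × ℂ => w + x) 0 := analyticAt_const.add analyticAt_id
  have hl' : AnalyticAt ℂ (fun x : ℂ × ℂ => G (w + x)) 0 := AnalyticAt.fun_comp (g := G) (f := fun x : ℂ × ℂ => w + x) (by rwa [add_zero]) hqa
  have hθa : AnalyticAt ℂ θ 0 := by
    rw [hθ]
    exact hl'.prod (m.analyticAt 0)
  have hθ0 : θ 0 = 0 := by
    rw [hθ]
    simp [h0]
  have hd : HasFDerivAt θ ((fderiv ℂ G w).prod m) 0 := by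
    have h1 : HasFDerivAt G (fderiv ℂ G w) (w + 0) := by
      rw [add_zero]
      exact hG.differentiableAt.hasFDerivAt
    have h2 : HasFDerivAt (fun x : ℂ × ℂ => w + x) (ContinuousLinearMap.id ℂ (ℂ × ℂ)) 0 := (hasFDerivAt_id (0 : ℂ × ℂ)).const_add w
    have h3 : HasFDerivAt (fun x : ℂ × ℂ => G (w + x)) ((fderiv ℂ G w).comp (ContinuousLinearMap.id ℂ (ℂ × ℂ))) 0 :=
      HasFDerivAt.comp (0 : ℂ × ℂ) (g := G) (f := fun x : ℂ × ℂ => w + x) h1 h2
    rw [ContinuousLinearMap.comp_id] at h3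
    rw [hθ]
    exact h3.prodMk m.hasFDerivAt
  have hB : Bihol θ := by
    rw [bihol_iff hθa hθ0, hd.fderiv]
    simpa using hm
  obtain ⟨θ', a1, -, a3⟩ := hB.exists_inv
  have hline : AnalyticAt ℂ (fun t : ℂ => ((0, t) : ℂ × ℂ)) 0 := analyticAt_const.prod analyticAt_id
  have hlt : Tendsto (fun t : ℂ => ((0, t) : ℂ × ℂ)) (𝓝 0) (𝓝 0) := by
    have := hline.continuousAt.tendsto
    exact this
  have hγ' : AnalyticAt ℂ (fun t : ℂ => θ' (0, t)) 0 := AnalyticAt.fun_comp (g := θ') (f := fun t : ℂ => ((0, t) : ℂ × ℂ)) a1.an hline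
  have hγ : AnalyticAt ℂ (fun t : ℂ => w + θ' (0, t)) 0 := analyticAt_const.add hγ'
  have hγ0 : w + θ' (0, 0) = w := by
    have : θ' (0, 0) = 0 := a1.zero
    rw [this, add_zero]
  have hγt : Tendsto (fun t : ℂ => w + θ' (0, t)) (𝓝 0) (𝓝 w) := by
    have h2 := hγ.continuousAt.tendsto
    rwa [hγ0] at h2
  have hrel : ∀ᶠ t in 𝓝 (0 : ℂ), G (w + θ' (0, t)) = 0 ∧ m (θ' (0, t)) = t := by
    filter_upwards [hlt.eventually a3] with t ht
    rw [hθ] at ht
    exact ⟨congrArg Prod.fst ht, congrArg Prod.snd ht⟩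
  have hGne : ∀ᶠ y in 𝓝 w, fderiv ℂ G y ≠ 0 := hG.fderiv.continuousAt.eventually_ne h1
  refine ⟨fun t => w + θ' (0, t), hγ, hγ0, ?_, ?_⟩
  · filter_upwards [eventually_eventually_nhds.2 hrel, hγ.eventually_analyticAt, hγt.eventually hG.eventually_analyticAt, hγt.eventually hinv,
      hγt.eventually hfG, hγt.eventually hGne] with t t1 t2 t3 t4 t5 t6
    refine ⟨?_, t5 t1.self_of_nhds.1⟩
    have e1 : fderiv ℂ G (w + θ' (0, t)) (deriv (fun t => w + θ' (0, t)) t) = 0 :=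
      ld_chain (c := fun t => w + θ' (0, t)) t3 t2 (t1.mono fun s hs => hs.1)
    have e2 := t4 t1.self_of_nhds.1
    by_contra hne
    exact t6 (ld_lin e2 e1 (sub_ne_zero.2 hne))
  · intro hcon
    have h2 : ∀ᶠ t in 𝓝 (0 : ℂ), t = 0 := by
      filter_upwards [hcon, hrel] with t t1 t2
      have t3 : θ' (0, t) = 0 := by
        have := not_not.1 t1
        simpa using this
      rw [← t2.2, t3, map_zero]
    have h3 : ∀ᶠ t in 𝓝[≠] (0 : ℂ), False := by
      filter_upwards [h2.filter_mono nhdsWithin_le_nhds, self_mem_nhdsWithin] with t t1 t2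
      exact t2 t1
    exact h3.exists.elim fun _ h => h

/-- **The invariant part off the center.** -/
theorem linv_off {v : ℂ × ℂ → ℂ × ℂ} {f g : ℂ × ℂ → ℂ} (hv : AnalyticAt ℂ v 0) (hv0 : ∀ᶠ p in 𝓝 (0 : ℂ × ℂ), p ≠ 0 → v p ≠ 0)
    (hf : AnalyticAt ℂ f 0) (hf0 : ∃ᶠ p in 𝓝 (0 : ℂ × ℂ), f p ≠ 0) (hg : Wt v g)
    (h : ∀ᶠ p in 𝓝 (0 : ℂ × ℂ), p ≠ 0 → (g p = 0 ↔ LeafIn v f p) ∧ (g p = 0 → fderiv ℂ g p ≠ 0 ∧ f p = 0 ∧ fderiv ℂ g p (v p) = 0)) :
    ∀ᶠ p in 𝓝 (0 : ℂ × ℂ), p ≠ 0 → LInv v f g p := by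
  obtain ⟨c, hc, hcg⟩ := hg.cof
  filter_upwards [regPt_off hv hv0 hf hf0, eventually_eventually_nhds.2 h, hg.an.eventually_analyticAt, hc.eventually_analyticAt,
    eventually_eventually_nhds.2 hcg, hv.eventually_analyticAt, hf.eventually_analyticAt] with x x1 x2 x3 x4 x5 x6 x7 hx
  have hx0 : ∀ᶠ y in 𝓝 x, y ≠ 0 := isOpen_ne.mem_nhds hx
  have hloc : ∀ᶠ y in 𝓝 x, (g y = 0 ↔ LeafIn v f y) ∧ (g y = 0 → fderiv ℂ g y ≠ 0 ∧ f y = 0 ∧ fderiv ℂ g y (v y) = 0) := by
    filter_upwards [x2, hx0] with y y1 y2 using y1 y2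
  refine ⟨x3, by filter_upwards [hloc] with y hy h0 using (hy.2 h0).1, ⟨c, x4, x5⟩, ?_⟩
  obtain ⟨hvx, hr⟩ := x1 hx
  rcases hr with hr | ⟨G, g1, g2, g3, g4, g5⟩
  · refine ⟨fun _ => 1, analyticAt_const, ?_, Eventually.of_forall fun y h => absurd h one_ne_zero⟩
    filter_upwards [hloc, x7.continuousAt.eventually_ne hr] with y y1 y2
    rw [mul_one]
    exact ⟨fun h => absurd h y2, fun h => absurd (y1.2 h).2.1 y2⟩
  · rcases g5 with g5 | g5
    · -- transversal
      have hgx : g x ≠ 0 := by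
        intro h0
        obtain ⟨u, hu, hue⟩ := div_smooth (l := g) (l' := G) x3 g1 (fun h => (hloc.self_of_nhds.2 h).1) (by
          filter_upwards [hloc, g4] with y y1 y2 y3
          exact y2.1 (y1.2 y3).2.1)
        apply g5
        have e1 : HasFDerivAt (fun y => u y * g y) (u x • fderiv ℂ g x + g x • fderiv ℂ u x) x :=
          hu.differentiableAt.hasFDerivAt.mul x3.differentiableAt.hasFDerivAt
        have e2 : G =ᶠ[𝓝 x] fun y => u y * g y := hue
        rw [e2.fderiv_eq, e1.fderiv]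
        simp [h0, (hloc.self_of_nhds.2 h0).2.2]
      have hD : AnalyticAt ℂ (fun y => fderiv ℂ G y (v y)) x := ld_clm g1.fderiv x6
      refine ⟨G, g1, ?_, ?_⟩
      · filter_upwards [g4, x3.continuousAt.eventually_ne hgx] with y y1 y2
        rw [y1]
        exact ⟨fun h => by rw [h, mul_zero], fun h => (mul_eq_zero.1 h).resolve_left y2⟩
      · filter_upwards [x3.continuousAt.eventually_ne hgx, hD.continuousAt.eventually_ne g5] with y y1 y2 _
        exact ⟨y1, y2⟩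
    · -- invariant
      refine ⟨fun _ => 1, analyticAt_const, ?_, Eventually.of_forall fun y h => absurd h one_ne_zero⟩
      filter_upwards [hloc, g4, eventually_eventually_nhds.2 g4, eventually_eventually_nhds.2 g5, g1.eventually_analyticAt,
        g1.fderiv.continuousAt.eventually_ne g3] with y y1 y2 y3 y4 y5 y6
      rw [mul_one]
      refine ⟨fun h => y1.1.2 ?_, fun h => (y1.2 h).2.1⟩
      exact leafIn_of_smooth y5 (y2.1 h) y6 y4 (y3.mono fun w hw => hw.2)

end Pool.Agent.MQ3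

end
end

section

/-!
# MQ3 GInvN: the equation of the invariant curve at a chart point

`exists_gloc`, `linv_off` at the point `q` for `f = RD Ra`; `fzero_leaf` for the separatrices.
-/

set_option autoImplicit false

open Topology Filter Metric MvPolynomial

noncomputable section

namespace Pool.Agent.MQ3

open Pool.Agent.H36.BP (EN)
open Pool.Agent.H17EF (coneE)
open Pool.Agent.MQ (LeafIn)
open Pool.Agent.MQ2 (Wt Sep FZero)

variable {M : ℕ} {P : Ideal (MvPolynomial (Fin (M + 1)) ℂ)} {RD : MvPolynomial (Fin (M + 1)) ℂ} {m : ℕ} {X : NCModel P RD} {θ : WDiff (coneE P) m}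
  {l : LF M} {S : Web X θ l} {Ra : MvPolynomial (Fin (M + 1)) ℂ}

private theorem GInvN_shift (q : ℂ × ℂ) : Tendsto (fun x : ℂ × ℂ => q + x) (𝓝 0) (𝓝 q) := by
  have : Continuous fun x : ℂ × ℂ => q + x := by fun_prop
  simpa using this.tendsto 0

private theorem GInvN_back (q x : ℂ × ℂ) : Tendsto (fun y : ℂ × ℂ => y - q) (𝓝 x) (𝓝 (x - q)) := by
  have : Continuous fun w : ℂ × ℂ => w - q := by fun_prop
  exact this.tendsto x

private theorem GInvN_an {E : Type*} [NormedAddCommGroup E] [NormedSpace ℂ E] {f : ℂ × ℂ → E} {q : ℂ × ℂ} (hf : AnalyticAt ℂ f q) :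
    AnalyticAt ℂ (fun x => f (q + x)) 0 :=
  AnalyticAt.fun_comp (g := f) (f := fun x : ℂ × ℂ => q + x) (by rwa [add_zero]) (analyticAt_const.add analyticAt_id)

private theorem GInvN_ban {f : ℂ × ℂ → ℂ} {q x : ℂ × ℂ} (hf : AnalyticAt ℂ f (x - q)) : AnalyticAt ℂ (fun y => f (y - q)) x :=
  AnalyticAt.fun_comp (g := f) (f := fun y : ℂ × ℂ => y - q) hf (analyticAt_id.sub analyticAt_const)

private theorem GInvN_fd (f : ℂ × ℂ → ℂ) (q y : ℂ × ℂ) : fderiv ℂ (fun y : ℂ × ℂ => f (y - q)) y = fderiv ℂ f (y - q) := by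
  have := fderiv_comp_add_right (𝕜 := ℂ) (f := f) (x := y) (-q)
  simpa [sub_eq_add_neg] using this

/-- translation -/
private theorem GInvN_tr {v : ℂ × ℂ → ℂ × ℂ} {f g : ℂ × ℂ → ℂ} {q x : ℂ × ℂ} (h : LInv (fun x => v (q + x)) (fun x => f (q + x)) g (x - q)) :
    LInv v f (fun y => g (y - q)) x := by
  obtain ⟨h1, h2, ⟨c, h3, h4⟩, k, h5, h6, h7⟩ := h
  refine ⟨GInvN_ban h1, ?_, ⟨fun y => c (y - q), GInvN_ban h3, ?_⟩, fun y => k (y - q), GInvN_ban h5, ?_, ?_⟩
  · filter_upwards [(GInvN_back q x).eventually h2] with y hy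
    rw [GInvN_fd]
    exact hy
  · filter_upwards [(GInvN_back q x).eventually h4] with y hy
    rw [GInvN_fd]
    simpa using hy
  · filter_upwards [(GInvN_back q x).eventually h6] with y hy
    simpa using hy
  · filter_upwards [(GInvN_back q x).eventually h7] with y hy
    rw [GInvN_fd]
    simpa using hy

theorem exists_gq {d dR : ℕ} (hd : RD.IsHomogeneous d) (hdR : Ra.IsHomogeneous dR) (hRa : RNe X Ra) {k : S.ι} {q : ℂ × ℂ} (hq : q ∈ S.D k) :
    ∃ g : ℂ × ℂ → ℂ, Wt (fun x => S.v k (q + x)) (fun x => g (q + x)) ∧ (∀ᶠ x in 𝓝[≠] q, InvAt S Ra k x g) ∧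
      ∀ c : ℕ → ℂ → ℂ × ℂ, Sep (fun x => S.v k (q + x)) c → FZero c (fun x => eval (S.σ k (q + x)).ofLp Ra) → FZero c fun x => g (q + x) := by
  have hv := GInvN_an (gn_v_an hq)
  have hv0 : ∀ᶠ p in 𝓝 (0 : ℂ × ℂ), p ≠ 0 → S.v k (q + p) ≠ 0 := by
    filter_upwards [(GInvN_shift q).eventually (gn_v_iso hq)] with x hx hx0
    exact hx (by simpa using hx0)
  have hf := GInvN_an (gn_σ_an hq (RD * Ra))
  have hfa := GInvN_an (gn_σ_an hq Ra)
  have hfr : ∃ᶠ x in 𝓝 (0 : ℂ × ℂ), eval (S.σ k (q + x)).ofLp Ra ≠ 0 ∧ eval (S.σ k (q + x)).ofLp (RD * Ra) ≠ 0 := by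
    intro hcon
    apply gn_freq hRa hq
    have h1 := GInvN_back q q
    rw [sub_self] at h1
    filter_upwards [h1.eventually hcon] with x hx
    simpa using hx
  obtain ⟨g, hg, h⟩ := exists_gloc hv hv0 hf (hfr.mono fun x hx => hx.2)
  have hoff := linv_off hv hv0 hf (hfr.mono fun x hx => hx.2) hg h
  have hsh : (fun x => (fun y => g (y - q)) (q + x)) = g := by
    funext x
    simp
  refine ⟨fun y => g (y - q), by rw [hsh]; exact hg, ?_, fun c hc hcz => ?_⟩
  · rw [eventually_nhdsWithin_iff]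
    have h1 := GInvN_back q q
    rw [sub_self] at h1
    filter_upwards [h1.eventually hoff] with x hx hxq
    exact GInvN_tr (v := S.v k) (f := fun x => eval (S.σ k x).ofLp (RD * Ra)) (hx (sub_ne_zero.2 hxq))
  · rw [hsh]
    refine fzero_leaf hv hc hfa (hfr.mono fun x hx => hx.1) hcz hg.an ?_
    filter_upwards [h] with p hp hp0 hl
    refine (hp hp0).1.2 ?_
    obtain ⟨γ, g1, g2, g3, g4⟩ := hl
    refine ⟨γ, g1, g2, ?_, g4⟩
    filter_upwards [g3] with t ht
    refine ⟨ht.1, ?_⟩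
    rw [map_mul, ht.2, mul_zero]

end Pool.Agent.MQ3

end
end
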