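import Pool.Agent.H94.G6.H14.KB.KobKNodal
import Pool.Agent.H94.G6.M146
import Pool.Agent.H94.G6.M148
import Pool.Agent.H94.G6.M151

/-! The parts of this file: H14.KB.KobKInd, H14.KB.KobKFinal, H62.SA.FinalF, H62.SA.SameF. -/

section

/-!
# Kobayashi hyperbolicity modulo the curve: open surfaces, the general case
-/

open Topology Filter

noncomputable section

namespace Pool.Agent.H14.KB

open Pool.Agent Pool.Agent.H17BP
open Pool.Agent.H36.BPL (ModelK modelK_blow ModelK.exists_finset phi_pr)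
open Pool.Agent.H62.BU (blow total Ker phi om phi_smul)

/-- The boundedness theorem for models which are resolved by `n` blow-ups over every point. -/
def KobKN (n : ℕ) : Prop :=
  ∀ (V : Type) [NormedAddCommGroup V] [NormedSpace ℂ V] [FiniteDimensional ℂ V] (X K B : Set V) (m j : ℕ)
    (Ω : V → V → V → ℂ) (κ : Type) [Fintype κ] (Q : κ → V → ℂ) (D : ℕ), ModelK X K B m j Ω Q D →
    (∀ x ∈ X, ResAt X B x n) → Kob K Q D

theorem kobKN_zero : KobKN 0 := by
  intro V _ _ _ X K B m j Ω κ _ Q D h h0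
  exact nodalK_kob h fun x hx => (h0 x hx).nodal

theorem kobKN_step {n : ℕ} (ih : KobKN n) : ∀ (k : ℕ) (V : Type) [NormedAddCommGroup V] [NormedSpace ℂ V]
    [FiniteDimensional ℂ V] (X K B : Set V) (m j : ℕ) (Ω : V → V → V → ℂ) (κ : Type) [Fintype κ]
    (Q : κ → V → ℂ) (D : ℕ), ModelK X K B m j Ω Q D → (∀ x ∈ X, ResAt X B x (n + 1)) →
    (∃ F : Finset V, F.card ≤ k ∧ ∀ x ∈ X, ResAt X B x n ∨ ∃ q ∈ F, Pr x q) → Kob K Q D := by
  intro k
  induction k with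
  | zero =>
    intro V _ _ _ X K B m j Ω κ _ Q D h h0 hF
    obtain ⟨F, hF1, hF2⟩ := hF
    have hF0 : F = ∅ := Finset.card_eq_zero.1 (by omega)
    refine ih V X K B m j Ω κ Q D h fun x hx => ?_
    rcases hF2 x hx with h1 | ⟨q, hq, -⟩
    · exact h1
    · rw [hF0] at hq
      simp at hq
  | succ k ihk =>
    intro V _ _ _ X K B m j Ω κ _ Q D h h0 hF
    obtain ⟨F, hF1, hF2⟩ := hF
    have hX := h.surf.smul
    have hB := h.eqs.cone h.surf.smul
    by_cases hall : ∀ x ∈ X, ResAt X B x n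
    · exact ih V X K B m j Ω κ Q D h hall
    push Not at hall
    obtain ⟨x₀, hx₀, hx₀n⟩ := hall
    rcases hF2 x₀ hx₀ with h1 | ⟨q, hqF, hxq⟩
    · exact absurd h1 hx₀n
    have hqX : q ∈ X := (hxq.mem_iff hX).1 hx₀
    have hqn : ¬ ResAt X B q n := fun h1 => hx₀n (h1.pr hX hB hxq)
    have hq0 : ¬ ResAt X B q 0 := fun h1 => hqn (h1.mono_le (Nat.zero_le n))
    have hqB : q ∈ B := by
      by_contra hqB
      exact hq0 (ResAt.of_notMem h.surf h.eqs hqX hqB)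
    have hqne : q ≠ 0 := fun e => h.surf.zero (e ▸ hqX)
    obtain ⟨r, l, hl⟩ := exists_forms hqne
    classical
    refine kobK_blow h.surf hl h.eqs h.opn.sub h.opn.smul hqB ?_
    refine ihk (Fin r → V) (blow l X) (total l X K) (total l X B) (2 * m) j (om l j Ω) (κ × Fin r) _ D
      (modelK_blow h hl hqB) ?_ ⟨(F.erase q).image (phi l), ?_, ?_⟩
    · intro y hy
      rcases resAt_blow h.surf h.eqs hl hqB (h0 q hqX) hq0 hy with h1 | ⟨x, hx, -, -, h2⟩
      · exact h1.mono_le (Nat.le_succ n)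
      · exact h2 _ (h0 x hx)
    · have h1 := Finset.card_image_le (s := F.erase q) (f := phi l)
      have h2 := Finset.card_erase_of_mem hqF
      omega
    · intro y hy
      rcases resAt_blow h.surf h.eqs hl hqB (h0 q hqX) hq0 hy with h1 | ⟨x, hx, hxq', hyx, h2⟩
      · exact Or.inl h1
      · rcases hF2 x hx with h3 | ⟨q', hq'F, hxq''⟩
        · exact Or.inl (h2 _ h3)
        · refine Or.inr ⟨phi l q', Finset.mem_image_of_mem _ (Finset.mem_erase.2 ⟨?_, hq'F⟩),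
            hyx.trans (Pool.Agent.H36.BPL.phi_pr hxq'')⟩
          rintro rfl
          exact hxq' hxq''

theorem kobKN (n : ℕ) : KobKN n := by
  induction n with
  | zero => exact kobKN_zero
  | succ n ih =>
    intro V _ _ _ X K B m j Ω κ _ Q D h h0
    obtain ⟨F, -, hF⟩ := h.exists_finset
    refine kobKN_step ih F.card V X K B m j Ω κ Q D h h0 ⟨F, le_rfl, fun x hx => ?_⟩
    rcases hF x hx with h1 | h1
    · exact Or.inl (h1.mono_le (Nat.zero_le n))
    · exact Or.inr h1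

/-- **The boundedness theorem.** -/
theorem kob_of_modelK {V : Type} [NormedAddCommGroup V] [NormedSpace ℂ V] [FiniteDimensional ℂ V]
    {X K B : Set V} {m j : ℕ} {Ω : V → V → V → ℂ} {κ : Type} [Fintype κ] {Q : κ → V → ℂ} {D : ℕ}
    (h : ModelK X K B m j Ω Q D) : Kob K Q D := by
  classical
  have hX := h.surf.smul
  have hB := h.eqs.cone h.surf.smul
  obtain ⟨F, hFX, hF⟩ := h.exists_finset
  have h1 : ∀ q : V, ∃ n, q ∈ F → ResAt X B q n := by
    intro q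
    by_cases hq : q ∈ F
    · obtain ⟨n, hn⟩ := exists_resAt h.surf h.eqs h.thin (hFX q hq)
      exact ⟨n, fun _ => hn⟩
    · exact ⟨0, fun h2 => absurd h2 hq⟩
  choose n hn using h1
  refine kobKN (F.sup n) V X K B m j Ω κ Q D h fun x hx => ?_
  rcases hF x hx with h2 | ⟨q, hq, hxq⟩
  · exact h2.mono_le (Nat.zero_le _)
  · exact ((hn q hq).mono_le (Finset.le_sup (f := n) hq)).pr hX hB hxq

end Pool.Agent.H14.KB

end
end

section

/-!
# Open surfaces: from functions to maps into projective space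
-/

open Topology Filter MvPolynomial Metric

noncomputable section

namespace Pool.Agent.H14.KB

open Pool.Agent Pool.Agent.H17BP
open Pool.Agent.H17 (PN VanishesAt ZariskiClosedIn HolomorphicInto puncturedDisc)
open Pool.Agent.H36.BPL (ModelK)

variable {N : ℕ}

/-- from functions to maps into projective space -/
theorem kobayashi_of_kobK {U : Set (PN N)} {K : Set (Fin (N + 1) → ℂ)} (hUK : ∀ x ∈ U, x.rep ∈ K)
    {Q : MvPolynomial (Fin (N + 1)) ℂ} {D : ℕ}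
    (h : Kob K (fun (_ : Unit) x => eval x Q) D) :
    KobayashiHyperbolicModulo U Q D := by
  obtain ⟨M, C, -, -, hk⟩ := h
  refine ⟨M, C, fun f F hf hfX hF hFf => ?_⟩
  obtain ⟨a, ha⟩ := hk (fun z => (f z).rep) F (fun z hz => by
    have hz' : z ∈ ball (0 : ℂ) 1 := by simpa using hz
    exact ⟨holP_rep hf hz', hUK _ (hfX z hz')⟩) hF hFf.self_of_nhds.1 (by
    filter_upwards [hFf] with z hz
    obtain ⟨h1, h2⟩ := hz
    obtain ⟨c, hc, h3⟩ := rep_mk_fin h1
    exact ⟨c, hc, by rw [h2, h3]⟩)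
  refine ⟨a, ?_⟩
  have h1 : rhoS (fun (_ : Unit) x => eval x Q) D (F 0) = ‖eval (F 0) Q‖ / ‖F 0‖ ^ D := by
    unfold rhoS
    congr 1
    refine le_antisymm ((pi_norm_le_iff_of_nonneg (norm_nonneg _)).mpr fun _ => le_rfl) ?_
    exact norm_le_pi_norm (fun _ : Unit => eval (F 0) Q) ()
  rw [h1] at ha
  exact ha

/-- **Kobayashi hyperbolicity of an open surface modulo a curve**, with respect to the metric of the projective space. -/
theorem kobayashi_of_modelK {U : Set (PN N)} {X K T : Set (Fin (N + 1) → ℂ)} (hUK : ∀ x ∈ U, x.rep ∈ K)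
    {Q : MvPolynomial (Fin (N + 1)) ℂ} {D m j : ℕ}
    {Ω : (Fin (N + 1) → ℂ) → (Fin (N + 1) → ℂ) → (Fin (N + 1) → ℂ) → ℂ}
    (h : ModelK X K T m j Ω (fun (_ : Unit) x => eval x Q) D) : KobayashiHyperbolicModulo U Q D :=
  kobayashi_of_kobK hUK (kob_of_modelK h)

end Pool.Agent.H14.KB

end
end

section

/-!
# SA FinalF: surfaces of log general type which are proper over an affine variety
-/

set_option autoImplicit false

open Topology Filter MvPolynomial

noncomputable section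

namespace Pool.Agent.H62.SA

open Pool.Agent.H17 (PN VanishesAt ZariskiClosedIn HolomorphicInto puncturedDisc)
open Pool.Agent.H62.FC (Homog)
open Pool.Agent.H17BP (Surface IsChart IsForm NoZeros)
open Pool.Agent.H17LG.Variety (FunField IsLogGeneralType)
open Pool.Agent.H13.SM (conTan)
open Pool.Agent.H13.OT (OrderTwo)
open Pool.Agent.H14.KB (KobayashiHyperbolicModulo)
open Pool.Agent.H68.KR (cone)

variable {N : ℕ} {P : Ideal (MvPolynomial (Fin (N + 1)) ℂ)} {s M : ℕ} {G : Fin s → MvPolynomial (Fin (N + 1)) ℂ}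
  {F : Fin s → Fin (M + 1) → MvPolynomial (Fin (N + 1)) ℂ} {e : Fin s → ℕ}

/-- **The main theorem.** -/
theorem proper_surface [P.IsPrime] (hP : Homog P) {z : Fin 2 → FunField P} (hz : IsTranscendenceBasis ℂ z)
    (hsm : ∀ y : Fin (N + 1) → ℂ, y ≠ 0 → (∀ Q ∈ P, eval y Q = 0) → Module.finrank ℂ (conTan P y) ≤ 3)
    (h : IsProperMap P G F e) (hgt : IsLogGeneralType (K := FunField P) (k := 2) (OnBd P G))
    {Ξ : Set (PN N)} (hΞ : ZariskiClosedIn (locVar P G) Ξ) (hne : Ξ ≠ locVar P G)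
    (hbr : ∀ f : ℂ → PN N, HolomorphicInto f Set.univ → OrderTwo f → (∀ z, f z ∈ locVar P G) →
      (∃ z w, f z ≠ f w) → ∀ z, f z ∈ Ξ) :
    ∃ (Q : MvPolynomial (Fin (N + 1)) ℂ) (D : ℕ), Q.IsHomogeneous D ∧
      (∃ x ∈ locVar P G, ¬ VanishesAt Q x) ∧ (∀ x ∈ Ξ, VanishesAt Q x) ∧
      KobayashiHyperbolicModulo (locVar P G) Q D ∧
      ∀ f : ℂ → PN N, HolomorphicInto f puncturedDisc → (∀ z ∈ puncturedDisc, f z ∈ locVar P G) →
        (∃ z ∈ puncturedDisc, ¬ VanishesAt Q (f z)) →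
        ∃ g : ℂ → PN N, HolomorphicInto g (Metric.ball 0 1) ∧ ∀ z ∈ puncturedDisc, g z = f z := by
  have hX : Surface (cone P) := Pool.Agent.H13.SM.surface_cone hP hz fun y hy => hsm y hy.1 hy.2
  have hthin : ∀ σ τ, IsChart (cone P) σ τ → ∀ (d : ℕ) (Q : MvPolynomial (Fin (N + 1)) ℂ), Q.IsHomogeneous d →
      Q ∉ P → ∃ᶠ p in 𝓝 (0 : ℂ × ℂ), eval (σ p) Q ≠ 0 := fun σ τ h d Q hQ hQP =>
    Pool.Agent.H13.SM.frequently_ne_zero hP hz (fun y hy => hsm y hy.1 hy.2) h hQ hQP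
  obtain ⟨k, Ω, D₀, Q₀, hk, hQ₀, hQ₀P, hΩ, hnz, hpole⟩ := exists_formF_of_smooth P hP hz h.homG hsm hgt
  obtain ⟨Q, D, hQ, -, hex, hQΞ, m, j, Ω', hmodel⟩ := exists_modelF hP h hX hthin hk hΩ hpole hQ₀ hQ₀P hnz hΞ hne hbr
  refine ⟨Q, D, hQ, hex, hQΞ, ?_, fun f hf hfX hfQ => extends_of_modelF hP hmodel hf hfX hfQ⟩
  exact Pool.Agent.H14.KB.kobayashi_of_modelK (fun x hx => (rep_mem_locCone hP).2 hx) hmodel

end Pool.Agent.H62.SA

end
end

section

/-!
# SA SameF: the same exceptional set, for surfaces which are proper over an affine variety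

As `Pool.Agent.H17BP.SameK` (written by helper17), for the complement of the common zero set of several forms.
-/

set_option autoImplicit false

open Topology Filter MvPolynomial

noncomputable section

namespace Pool.Agent.H62.SA

open Pool.Agent.H17 (PN VanishesAt ZariskiClosedIn HolomorphicInto puncturedDisc)
open Pool.Agent.H17LG.Variety (FunField IsLogGeneralType)
open Pool.Agent.H62.FC (Homog exists_fin_basis trdeg_mono)
open Pool.Agent.H17BP (Pr HolP Picard Brody variety mapIdeal mapIdeal_isPrime exists_X_notMem mk_mem_variety mem_mapIdeal_form vanishesAt_mk le_mapIdeal mapIdeal_homog trdeg_lt eq_of_trdeg_zero mem_variety_mapIdeal rep_mem_cone cone_closed cone_smul' isPreconnected_puncturedDisc extend_of_picard holP_rep)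
open Pool.Agent.H36.BPL (Brody2 analyticAt_form curve_picard2)
open Pool.Agent.H36.BP (OrdTwo)
open Pool.Agent.H13.SM (conTan)
open Pool.Agent.H13.OT (OrderTwo mk_eq_of_pr pr_of_mk_eq holomorphicInto_mk OrdTwo.orderTwo)
open Pool.Agent.H14.KB (KobayashiHyperbolicModulo)
open Pool.Agent.H68.KR (cone)

variable {N : ℕ} {P I : Ideal (MvPolynomial (Fin (N + 1)) ℂ)} {s M : ℕ} {G : Fin s → MvPolynomial (Fin (N + 1)) ℂ}
  {F : Fin s → Fin (M + 1) → MvPolynomial (Fin (N + 1)) ℂ} {e : Fin s → ℕ}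

/-- A closed subvariety is proper over the same affine variety. -/
theorem IsProperMap.mono (h : IsProperMap P G F e) (hPI : P ≤ I) : IsProperMap I G F e where
  hom := h.hom
  zero := h.zero
  rel m n j := hPI (h.rel m n j)
  noZero x hx := h.noZero x fun Q hQ => hx Q (hPI hQ)

/-- A holomorphic disc in the intersection of a variety of dimension at most one with hypersurfaces is constant. -/
theorem disc_constF [I.IsPrime] (hI : Homog I) {w : ℕ} (hw : ∃ z : Fin w → FunField I, IsTranscendenceBasis ℂ z)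
    (hw2 : w < 2) (hG : ∀ m, (G m).IsHomogeneous (e m)) {m : Fin s} (hGI : G m ∉ I) {f : ℂ → Fin (N + 1) → ℂ} {z₀ : ℂ}
    (hf : AnalyticAt ℂ f z₀) (h : ∀ᶠ z in 𝓝 z₀, f z ∈ cone I ∧ f z ∉ locCone I G) :
    ∀ᶠ z in 𝓝 z₀, Pr (f z) (f z₀) := by
  classical
  have hm : ∀ᶠ z in 𝓝 z₀, eval (f z) (G m) = 0 := by
    filter_upwards [h] with z hz
    by_contra hcon
    exact hz.2 ⟨hz.1, m, hcon⟩
  obtain ⟨r, hr, hball⟩ := Metric.eventually_nhds_iff_ball.1 ((hf.eventually_analyticAt.and h).and hm)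
  set U := Metric.ball z₀ r with hU
  have hz₀U : z₀ ∈ U := Metric.mem_ball_self hr
  have hne0 : f z₀ ≠ 0 := (hball z₀ hz₀U).1.2.1.1
  let g : ℂ → PN N := fun z => if hz : f z ≠ 0 then Projectivization.mk ℂ (f z) hz else Projectivization.mk ℂ (f z₀) hne0
  have hg : ∀ z ∈ U, ∃ hz : f z ≠ 0, g z = Projectivization.mk ℂ (f z) hz := by
    intro z hz
    have h1 : f z ≠ 0 := (hball z hz).1.2.1.1
    exact ⟨h1, dif_pos h1⟩
  have hgh : HolomorphicInto g U := by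
    intro z hz
    refine ⟨f, (hball z hz).1.1, ?_⟩
    filter_upwards [Metric.isOpen_ball.mem_nhds hz] with y hy
    exact hg y hy
  have hJp : (mapIdeal g U).IsPrime :=
    mapIdeal_isPrime Metric.isOpen_ball (convex_ball z₀ r).isPreconnected ⟨z₀, hz₀U⟩ hgh
  have hJX := exists_X_notMem (f := g) (U := U) ⟨z₀, hz₀U⟩
  have hgI : ∀ z ∈ U, g z ∈ variety I := by
    intro z hz
    obtain ⟨h1, h2⟩ := hg z hz
    rw [h2, mk_mem_variety hI h1 (cone_smul' hI)]
    exact (hball z hz).1.2.1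
  have hGJ : G m ∈ mapIdeal g U := by
    rw [mem_mapIdeal_form (hG m)]
    intro z hz
    obtain ⟨h1, h2⟩ := hg z hz
    rw [h2, vanishesAt_mk (hG m)]
    exact (hball z hz).2
  obtain ⟨w', hw'⟩ := exists_fin_basis (P := mapIdeal g U) hJX
  have hlt : w' < w := trdeg_lt hI mapIdeal_homog (le_mapIdeal hI hgI) (fun h1 => hGI (h1 hGJ)) hJX hw hw'
  have hw0 : w' = 0 := by omega
  subst hw0
  filter_upwards [Metric.ball_mem_nhds z₀ hr] with z hz
  have h1 := eq_of_trdeg_zero mapIdeal_homog hJX hw' (g z) (mem_variety_mapIdeal hz) (g z₀)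
    (mem_variety_mapIdeal hz₀U)
  obtain ⟨h2, h3⟩ := hg z hz
  obtain ⟨h4, h5⟩ := hg z₀ hz₀U
  rw [h3, h5] at h1
  exact pr_of_mk_eq h2 h4 h1

/-- Holomorphic maps to an open curve which is not contained in the exceptional set. -/
theorem curve_caseF [P.IsPrime] (hP : Homog P) {z : Fin 2 → FunField P} (hz : IsTranscendenceBasis ℂ z)
    (h : IsProperMap P G F e)
    {S : Set (MvPolynomial (Fin (N + 1)) ℂ)} (hS : ∀ Q ∈ S, ∃ n, Q.IsHomogeneous n)
    (hbr : ∀ f : ℂ → PN N, HolomorphicInto f Set.univ → OrderTwo f → (∀ z, f z ∈ locVar P G) →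
      (∃ z w, f z ≠ f w) → ∀ z, f z ∈ {x | x ∈ locVar P G ∧ ∀ Q ∈ S, VanishesAt Q x})
    {d : ℕ} {Q : MvPolynomial (Fin (N + 1)) ℂ} (hQ : Q.IsHomogeneous d) (hQP : Q ∉ P) {U : Set ℂ} (hUo : IsOpen U)
    (hUc : IsPreconnected U) {f : ℂ → PN N} (hf : HolomorphicInto f U) (hfX : ∀ z ∈ U, f z ∈ locVar P G)
    (hfQ : ∀ z ∈ U, VanishesAt Q (f z))
    (hfS : ∃ z ∈ U, f z ∉ {x | x ∈ locVar P G ∧ ∀ Q ∈ S, VanishesAt Q x}) :
    ∃ I : Ideal (MvPolynomial (Fin (N + 1)) ℂ), Homog I ∧ (∀ z ∈ U, (f z).rep ∈ locCone I G) ∧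
      Picard (locCone I G) ∅ ∧ Brody (locCone I G) ∅ := by
  obtain ⟨z₁, hz₁, hz₁S⟩ := hfS
  have hne : U.Nonempty := ⟨z₁, hz₁⟩
  set I := mapIdeal f U with hI
  have hIp : I.IsPrime := mapIdeal_isPrime hUo hUc hne hf
  have hIh : Homog I := mapIdeal_homog
  have hfP : ∀ z ∈ U, f z ∈ variety P := fun z hz => ⟨(hfX z hz).1, fun m => m.elim0⟩
  have hPI : P ≤ I := le_mapIdeal hP hfP
  have hIX : ∃ i, (X i : MvPolynomial (Fin (N + 1)) ℂ) ∉ I := exists_X_notMem hne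
  obtain ⟨w, hw⟩ := exists_fin_basis (P := I) hIX
  have hw2 : w < 2 := trdeg_lt hP hIh hPI (fun h => hQP (h ((mem_mapIdeal_form hQ).2 hfQ))) hIX ⟨z, hz⟩ hw
  obtain ⟨-, m, hm⟩ := hfX z₁ hz₁
  have hGI : G m ∉ I := fun h1 => hm ((mem_mapIdeal_form (h.homG m)).1 h1 z₁ hz₁)
  obtain ⟨R, hRS, hRz⟩ : ∃ R ∈ S, ¬ VanishesAt R (f z₁) := by
    by_contra hcon
    push Not at hcon
    exact hz₁S ⟨hfX z₁ hz₁, hcon⟩
  obtain ⟨n, hR⟩ := hS R hRS
  have hRI : R ∉ I := fun h => hRz ((mem_mapIdeal_form hR).1 h z₁ hz₁)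
  have hI' : IsProperMap I G F e := h.mono hPI
  refine ⟨I, hIh, fun z hz => (rep_mem_locCone hIh).2 ⟨(mem_variety_mapIdeal hz).1, (hfX z hz).2⟩, ?_⟩
  have hO := openPart_locCone hI' hIh
  refine curve_picard2 (X := cone I) (K := locCone I G) (fun h => h.1 rfl) cone_closed hO.sub hO.smul hO.rel
    (affProper_locCone hI' hIh) (fun f z₀ hf h1 => ?_) ?_
  · filter_upwards [disc_constF hIh hw hw2 h.homG hGI hf h1] with z hz
    obtain ⟨c, -, hc⟩ := hz
    exact ⟨c, hc⟩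
  -- there are no entire curves of order two
  rintro h₁ hh hhK hord ⟨z₂, -⟩ a c
  by_contra hac
  have hh0 : ∀ z, h₁ z ≠ 0 := fun z => (hhK z).1.1
  let g : ℂ → PN N := fun z => Projectivization.mk ℂ (h₁ z) (hh0 z)
  have hg : HolomorphicInto g Set.univ := holomorphicInto_mk hh0 hh
  have hgI : ∀ z, g z ∈ locVar I G := fun z => (mk_mem_locVar hIh h.homG (hh0 z)).2 (hhK z)
  have hgP : ∀ z, g z ∈ locVar P G := fun z => ⟨fun Q hQ n hn => (hgI z).1 Q (hPI hQ) n hn, (hgI z).2⟩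
  have hgS := hbr g hg (OrdTwo.orderTwo hh0 hh hord) hgP ⟨a, c, fun he => hac (pr_of_mk_eq _ _ he)⟩
  have hJp : (mapIdeal g Set.univ).IsPrime := mapIdeal_isPrime isOpen_univ isPreconnected_univ Set.univ_nonempty hg
  have hJX := exists_X_notMem (f := g) Set.univ_nonempty
  have hIJ : I ≤ mapIdeal g Set.univ := le_mapIdeal hIh fun z _ => ⟨(hgI z).1, fun m => m.elim0⟩
  have hRJ : R ∈ mapIdeal g Set.univ := (mem_mapIdeal_form hR).2 fun z _ => (hgS z).2 R hRS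
  obtain ⟨w', hw'⟩ := exists_fin_basis (P := mapIdeal g Set.univ) hJX
  have hlt : w' < w := trdeg_lt hIh mapIdeal_homog hIJ (fun h => hRI (h hRJ)) hJX hw hw'
  have hw0 : w' = 0 := by omega
  subst hw0
  exact hac (pr_of_mk_eq _ _ (eq_of_trdeg_zero mapIdeal_homog hJX hw' (g a) (mem_variety_mapIdeal (Set.mem_univ a))
    (g c) (mem_variety_mapIdeal (Set.mem_univ c))))

/-- The extension theorem with the same exceptional set. -/
theorem picard_sameF [P.IsPrime] (hP : Homog P) {z : Fin 2 → FunField P} (hz : IsTranscendenceBasis ℂ z)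
    (h : IsProperMap P G F e) {Ξ : Set (PN N)} (hΞ : ZariskiClosedIn (locVar P G) Ξ)
    (hbr : ∀ f : ℂ → PN N, HolomorphicInto f Set.univ → OrderTwo f → (∀ z, f z ∈ locVar P G) →
      (∃ z w, f z ≠ f w) → ∀ z, f z ∈ Ξ)
    {d : ℕ} {Q : MvPolynomial (Fin (N + 1)) ℂ} (hQ : Q.IsHomogeneous d) (hQP : Q ∉ P)
    (hpic : ∀ f : ℂ → PN N, HolomorphicInto f puncturedDisc → (∀ z ∈ puncturedDisc, f z ∈ locVar P G) →
      (∃ z ∈ puncturedDisc, ¬ VanishesAt Q (f z)) →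
      ∃ g : ℂ → PN N, HolomorphicInto g (Metric.ball 0 1) ∧ ∀ z ∈ puncturedDisc, g z = f z)
    {f : ℂ → PN N} (hf : HolomorphicInto f puncturedDisc) (hfX : ∀ z ∈ puncturedDisc, f z ∈ locVar P G)
    (hfΞ : ∃ z ∈ puncturedDisc, f z ∉ Ξ) :
    ∃ g : ℂ → PN N, HolomorphicInto g (Metric.ball 0 1) ∧ ∀ z ∈ puncturedDisc, g z = f z := by
  by_cases hfQ : ∃ z ∈ puncturedDisc, ¬ VanishesAt Q (f z)
  · exact hpic f hf hfX hfQ
  push Not at hfQ
  obtain ⟨S, hS, rfl⟩ := hΞ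
  obtain ⟨I, -, hK, hpI, -⟩ := curve_caseF hP hz h hS hbr hQ hQP (Metric.isOpen_ball.sdiff isClosed_singleton)
    isPreconnected_puncturedDisc hf hfX hfQ hfΞ
  obtain ⟨z₁, hz₁, -⟩ := hfΞ
  exact extend_of_picard hpI hf hK ⟨z₁, hz₁, Set.notMem_empty _⟩

/-- Entire curves of arbitrary order, with the same exceptional set. -/
theorem brody_sameF [P.IsPrime] (hP : Homog P) {z : Fin 2 → FunField P} (hz : IsTranscendenceBasis ℂ z)
    (h : IsProperMap P G F e) {Ξ : Set (PN N)} (hΞ : ZariskiClosedIn (locVar P G) Ξ)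
    (hbr : ∀ f : ℂ → PN N, HolomorphicInto f Set.univ → OrderTwo f → (∀ z, f z ∈ locVar P G) →
      (∃ z w, f z ≠ f w) → ∀ z, f z ∈ Ξ)
    {d : ℕ} {Q : MvPolynomial (Fin (N + 1)) ℂ} (hQ : Q.IsHomogeneous d) (hQP : Q ∉ P)
    (hpic : ∀ f : ℂ → PN N, HolomorphicInto f Set.univ → (∀ z, f z ∈ locVar P G) →
      (∃ z w, f z ≠ f w) → ∀ z, VanishesAt Q (f z))
    {f : ℂ → PN N} (hf : HolomorphicInto f Set.univ) (hfX : ∀ z, f z ∈ locVar P G)
    (hne : ∃ z w, f z ≠ f w) : ∀ z, f z ∈ Ξ := by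
  intro z₀
  by_contra hcon
  obtain ⟨S, hS, rfl⟩ := hΞ
  obtain ⟨I, -, hK, -, hbI⟩ := curve_caseF hP hz h hS hbr hQ hQP isOpen_univ isPreconnected_univ hf
    (fun z _ => hfX z) (fun z _ => hpic f hf hfX hne z) ⟨z₀, Set.mem_univ _, hcon⟩
  obtain ⟨a, c, hac⟩ := hne
  apply hac
  have h1 := hbI (fun z => (f z).rep) (fun z => holP_rep hf (Set.mem_univ z)) (fun z => hK z (Set.mem_univ z))
    ⟨z₀, Set.notMem_empty _⟩ a c
  have h2 := h1.mk_eq (f a).rep_nonzero (f c).rep_nonzero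
  rwa [Projectivization.mk_rep, Projectivization.mk_rep] at h2

/-- **The main theorem, with the exceptional set `Ξ`.** -/
theorem proper_main [hPp : P.IsPrime] (hP : Homog P) {z : Fin 2 → FunField P} (hz : IsTranscendenceBasis ℂ z)
    (hsm : ∀ y : Fin (N + 1) → ℂ, y ≠ 0 → (∀ Q ∈ P, eval y Q = 0) → Module.finrank ℂ (conTan P y) ≤ 3)
    (h : IsProperMap P G F e) (hgt : IsLogGeneralType (K := FunField P) (k := 2) (OnBd P G))
    {Ξ : Set (PN N)} (hΞ : ZariskiClosedIn (locVar P G) Ξ) (hne : Ξ ≠ locVar P G)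
    (hbr : ∀ f : ℂ → PN N, HolomorphicInto f Set.univ → OrderTwo f → (∀ z, f z ∈ locVar P G) →
      (∃ z w, f z ≠ f w) → ∀ z, f z ∈ Ξ) :
    (∀ f : ℂ → PN N, HolomorphicInto f Set.univ → (∀ z, f z ∈ locVar P G) →
      (∃ z w, f z ≠ f w) → ∀ z, f z ∈ Ξ) ∧
    (∀ f : ℂ → PN N, HolomorphicInto f puncturedDisc → (∀ z ∈ puncturedDisc, f z ∈ locVar P G) →
      (∃ z ∈ puncturedDisc, f z ∉ Ξ) →
      ∃ g : ℂ → PN N, HolomorphicInto g (Metric.ball 0 1) ∧ ∀ z ∈ puncturedDisc, g z = f z) ∧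
    ∃ (Q : MvPolynomial (Fin (N + 1)) ℂ) (D : ℕ), Q.IsHomogeneous D ∧
      (∃ x ∈ locVar P G, ¬ VanishesAt Q x) ∧ (∀ x ∈ Ξ, VanishesAt Q x) ∧
      KobayashiHyperbolicModulo (locVar P G) Q D := by
  obtain ⟨Q, D, hQ, ⟨x, hx, hxQ⟩, hQΞ, hkob, hpic⟩ := proper_surface hP hz hsm h hgt hΞ hne hbr
  have hQP : Q ∉ P := fun h => hxQ (hx.1 Q h D hQ)
  refine ⟨fun f hf hfX hfn => brody_sameF hP hz h hΞ hbr hQ hQP
      (fun f hf hfX hfn z => Pool.Agent.H14.KB.brody_of_kobayashi hQ hkob hf hfX hfn z) hf hfX hfn,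
    fun f hf hfX hfΞ => picard_sameF hP hz h hΞ hbr hQ hQP hpic hf hfX hfΞ,
    Q, D, hQ, ⟨x, hx, hxQ⟩, hQΞ, hkob⟩

end Pool.Agent.H62.SA

end
end
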