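import Pool.Agent.H94.G6.M104
import Pool.Agent.H94.G6.M108
import Pool.Agent.H94.G6.M130
import Pool.Agent.H94.G6.M145
import Pool.Agent.H94.G6.M152

/-! The parts of this file: H14.V.FourV_1, H66.SD.Virt, SY.Fin. -/

section

/-!
# V FourV: the four properties
-/

set_option autoImplicit false

open Topology Filter MvPolynomial Metric

noncomputable section

namespace Pool.Agent.H14.V

open Pool.Agent.H17 (PN VanishesAt HolomorphicInto ZariskiClosedIn puncturedDisc)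
open Pool.Agent.H62.FC (Homog)
open Pool.Agent.H17BP (Surface IsForm)
open Pool.Agent.H17LG.Variety (FunField IsLogGeneralType)
open Pool.Agent.H13.SM (conTan cone)
open Pool.Agent.H36.BP (EN fs wd isCone_transport)
open Pool.Agent.H14.PP (IsCone Chart Form)
open Pool.Agent.H13.OT (OrderTwo)
open Pool.Agent.H14.KB (KobayashiHyperbolicModulo)
open Pool.Agent.H17EF (projVar coneE LE GT prP prP_injective mk_symm)
open Pool.Agent.H62.EF (MN pr)

variable {N : ℕ} {P : Ideal (MvPolynomial (Fin (N + 1)) ℂ)}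

/-- the theorem on proper surfaces, for projective surfaces -/
theorem four_of_brody [P.IsPrime] {z : Fin 2 → FunField P} (hP : Homog P) (hz : IsTranscendenceBasis ℂ z)
    (hsm : ∀ y : Fin (N + 1) → ℂ, y ≠ 0 → (∀ Q ∈ P, eval y Q = 0) → Module.finrank ℂ (conTan P y) ≤ 3) (hgt : GT P 2)
    {Ξ : Set (PN N)} (hcl : ZariskiClosedIn (projVar P) Ξ) (hpr : Ξ ≠ projVar P)
    (hbr : ∀ f : ℂ → PN N, HolomorphicInto f Set.univ → OrderTwo f → (∀ z, f z ∈ projVar P) → (∃ z w, f z ≠ f w) →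
      ∀ z, f z ∈ Ξ) :
    (∀ f : ℂ → PN N, HolomorphicInto f Set.univ → (∀ z, f z ∈ projVar P) → (∃ z w, f z ≠ f w) → ∀ z, f z ∈ Ξ) ∧
    (∀ f : ℂ → PN N, HolomorphicInto f puncturedDisc → (∀ z ∈ puncturedDisc, f z ∈ projVar P) →
      (∃ z ∈ puncturedDisc, f z ∉ Ξ) →
      ∃ g : ℂ → PN N, HolomorphicInto g (Metric.ball 0 1) ∧ ∀ z ∈ puncturedDisc, g z = f z) ∧
    (∀ (Q : Ideal (MvPolynomial (Fin (N + 1)) ℂ)) [Q.IsPrime], Homog Q → P ≤ Q → ¬ projVar Q ⊆ Ξ →
      ∀ k, 1 ≤ k → (∃ z : Fin k → FunField Q, IsTranscendenceBasis ℂ z) → GT Q k) ∧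
    ∃ (Q : MvPolynomial (Fin (N + 1)) ℂ) (D : ℕ), Q.IsHomogeneous D ∧ (∃ x ∈ projVar P, ¬ VanishesAt Q x) ∧
      (∀ x ∈ Ξ, VanishesAt Q x) ∧ KobayashiHyperbolicModulo (projVar P) Q D := by
  have hlv := Pool.Agent.H17EF.locVar_one P
  have hproper : Pool.Agent.H62.SA.IsProperMap P (fun _ : Fin 1 => (1 : MvPolynomial (Fin (N + 1)) ℂ))
      (fun _ (_ : Fin (0 + 1)) => 1) (fun _ => 0) := by
    refine ⟨fun _ _ => isHomogeneous_one _ _, fun _ => rfl, fun _ _ _ => ?_, fun x _ => ⟨0, 0, ?_⟩⟩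
    · rw [mul_one, sub_self]
      exact P.zero_mem
    · unfold VanishesAt
      simp
  have hgt' : IsLogGeneralType (K := FunField P) (k := 2)
      (Pool.Agent.H62.SA.OnBd P (fun _ : Fin 1 => (1 : MvPolynomial (Fin (N + 1)) ℂ))) := by
    rw [Pool.Agent.H17EF.onBd_one]
    exact hgt
  have hmain := Pool.Agent.H62.SA.proper_main (G := fun _ : Fin 1 => (1 : MvPolynomial (Fin (N + 1)) ℂ)) hP hz hsm hproper hgt'
    (Ξ := Ξ) (by rw [hlv]; exact hcl) (by rw [hlv]; exact hpr) (by rw [hlv]; exact hbr)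
  rw [hlv] at hmain
  obtain ⟨hbrody, hpicard, hkob⟩ := hmain
  refine ⟨hbrody, hpicard, ?_, hkob⟩
  intro Q _ hQ hPQ hsub k hk hz'
  have h1 := Pool.Agent.H13.CV.strongly_of_brodyL P hP ⟨z, hz⟩ (G := fun _ : Fin 1 => (1 : MvPolynomial (Fin (N + 1)) ℂ))
    (fun _ => ⟨0, isHomogeneous_one _ _⟩) (Ξ := Ξ) (by rw [hlv]; exact hcl) hgt' (by rw [hlv]; exact hbrody) Q hQ hPQ
    (by rw [Pool.Agent.H17EF.locVar_one]; exact hsub) k hk hz'
  rw [Pool.Agent.H17EF.onBd_one] at h1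
  exact h1

section

end

end Pool.Agent.H14.V

end
end

section

/-!
# SD Virt: quasi-projective surfaces which virtually dominate a projective surface

`virt_open_four`: let the closed surface `X` of `ℙ^N` given by `P` have the properties of the Green–Griffiths–Lang conjecture.  Then every
quasi-projective surface `U` of log general type with a finite étale covering `U' → U` and a dominant rational map `U' ⇢ X` has them.
-/

set_option autoImplicit false

open Topology Filter MvPolynomial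

noncomputable section

namespace Pool.Agent.H66.SD

open Pool.Agent.H17 (PN VanishesAt HolomorphicInto puncturedDisc ZariskiClosedIn)
open Pool.Agent.H17LG.Variety (FunField IsLogGeneralType)
open Pool.Agent.H62.FC (Homog)
open Pool.Agent.H62.SA (locVar OnBd)
open Pool.Agent.H62.Qe (IsEtaleOver)
open Pool.Agent.H17EF (projVar)
open Pool.Agent.H22.TB (GGLC)
open Pool.Agent.H7.Bir (GGL GGLOpen)
open Pool.Agent.G4F (GGLCOpen gglo_virtual)

variable {N M L s s' : ℕ}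

theorem gglc_of_ggl {P : Ideal (MvPolynomial (Fin (N + 1)) ℂ)} [P.IsPrime] {Ξ : Set (PN N)} (h : GGL P Ξ) : GGLC P Ξ :=
  ⟨h.closed, h.proper, h.generalType, h.picard, h.brody, fun Q _ hQ hPQ hsub hz => h.strongly Q hQ hPQ hsub 1 le_rfl hz⟩

theorem open_of_c {P : Ideal (MvPolynomial (Fin (N + 1)) ℂ)} [P.IsPrime] (hP : Homog P) (hz : ∃ z : Fin 2 → FunField P, IsTranscendenceBasis ℂ z)
    {G : Fin s → MvPolynomial (Fin (N + 1)) ℂ} (hG : ∀ m, ∃ n, (G m).IsHomogeneous n) {Ξ : Set (PN N)} (h : GGLCOpen P G Ξ) : GGLOpen P G Ξ :=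
  ⟨h.closed, h.proper, h.logGeneralType, h.picard, h.brody, fun Q _ hQ hPQ hsub w hw hzw =>
    Pool.Agent.H13.CV.strongly_of_brodyL P hP hz hG h.closed (h.logGeneralType 2 (by norm_num) hz) h.brody Q hQ hPQ hsub w hw hzw⟩

/-- **The properties of the conjecture for all quasi-projective surfaces which virtually dominate `X`.**  `U' = locVar P' G'` is a finite étale covering of
`U = locVar R G`, and `U'` has a dominant rational map to `X`. -/
theorem virt_open_four {P : Ideal (MvPolynomial (Fin (N + 1)) ℂ)} [P.IsPrime] (hz : ∃ z : Fin 2 → FunField P, IsTranscendenceBasis ℂ z)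
    {Ξ : Set (PN N)} (h : GGL P Ξ) {P' : Ideal (MvPolynomial (Fin (M + 1)) ℂ)} [P'.IsPrime] (hP' : Homog P')
    (hz' : ∃ z : Fin 2 → FunField P', IsTranscendenceBasis ℂ z) (e : FunField P →ₐ[ℂ] FunField P') {R : Ideal (MvPolynomial (Fin (L + 1)) ℂ)} [R.IsPrime]
    (hR : Homog R) (hw : ∃ z : Fin 2 → FunField R, IsTranscendenceBasis ℂ z) {G : Fin s → MvPolynomial (Fin (L + 1)) ℂ}
    {G' : Fin s' → MvPolynomial (Fin (M + 1)) ℂ} (hG : ∀ m, ∃ n, (G m).IsHomogeneous n) (hG' : ∀ m, ∃ n, (G' m).IsHomogeneous n)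
    (hne : ∃ m, G m ∉ R) (hgt : IsLogGeneralType (OnBd R G (k := 2))) {q : PN M → PN L} (hq : IsEtaleOver R P' G G' q) :
    ∃ Ξ' : Set (PN L), GGLOpen R G Ξ' := by
  obtain ⟨Ξ', h'⟩ := gglo_virtual (k := 1) hz (gglc_of_ggl h) hP' hz' e hR hw hG hG' hne hgt hq
  exact ⟨Ξ', open_of_c hR hw hG h'⟩

end Pool.Agent.H66.SD

end
end

section

/-!
# SY Fin: the main theorem
-/

set_option autoImplicit false

open Topology Filter Metric MvPolynomial

noncomputable section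

namespace Pool.Agent.SY

open Pool.Agent.H17 (PN VanishesAt HolomorphicInto)
open Pool.Agent.H62.FC (Homog)
open Pool.Agent.H17LG.Variety (FunField)
open Pool.Agent.H13.OT (OrderTwo)
open Pool.Agent.H17EF (projVar coneE GT)
open Pool.Agent.AD (NullClass)
open Pool.Agent.AD.NC (IsSmooth IsOfLogGeneralType isOfLogGeneralType_zero)

variable {N : ℕ} {P : Ideal (MvPolynomial (Fin (N + 1)) ℂ)}

/-- from step (b) -/
theorem hyperbolic_of [P.IsPrime] (hP : Homog P) (hdim : ∃ z : Fin 2 → FunField P, IsTranscendenceBasis ℂ z) (hsmooth : IsSmooth P 2)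
    (hgt : IsOfLogGeneralType P (Fin.elim0 : Fin 0 → MvPolynomial (Fin (N + 1)) ℂ) 2) (hb : StepBAll P)
    (A : Set (ℂ → PN N)) (hA : NullClass P A) (R : MvPolynomial (Fin (N + 1)) ℂ) (d : ℕ) (hR : R.IsHomogeneous d) (hRP : R ∉ P)
    (hnull : ∀ f : ℂ → PN N, HolomorphicInto f Set.univ → OrderTwo f → (∀ z, f z ∈ projVar P) → (∃ z w, f z ≠ f w) → f ∈ A →
      ∀ z, VanishesAt R (f z)) : IsHyperbolicSurface P := by
  obtain ⟨z, hz⟩ := id hdim
  have hgt' : GT P 2 := (isOfLogGeneralType_zero P _ 2).1 hgt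
  obtain ⟨ν, hν⟩ := Pool.Agent.AD.exists_length hP hz hsmooth hA
  obtain ⟨Ξ, hcl, hne, hbr⟩ := orderTwo_degenerate_of hP hz hsmooth hgt' hb ν hR hRP
    (fun f hf hfo hfX hfn h => hnull f hf hfo hfX hfn (hν f hfX h))
  obtain ⟨h1, h2, h3, Q, D, hQ, hQx, -, hkob⟩ := Pool.Agent.H14.V.four_of_brody hP hz hsmooth hgt' hcl hne hbr
  have hG : ∀ w, 1 ≤ w → (∃ z : Fin w → FunField P, IsTranscendenceBasis ℂ z) → GT P w := by
    intro w _ hw
    obtain rfl := Pool.Agent.H17EF.two_of_basis ⟨z, hz⟩ hw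
    exact hgt'
  have hggl : Pool.Agent.H7.Bir.GGL P Ξ := ⟨hcl, hne, hG, h2, h1, h3⟩
  refine ⟨?_, ?_, Q, D, hQ, hQx, hkob⟩
  · intro M s R' _ G hR' hGh hne' hdim' ⟨φ⟩
    exact Pool.Agent.H66.SD.dom_open_four hR' hdim hP hdim' φ hGh hne' hggl
  · intro M L s s' P' _ R' _ G G' q hP' hR' hGh hGh' hne' hdim' hdimR ⟨e⟩ hq hlg
    exact Pool.Agent.H66.SD.virt_open_four hdim hggl hP' hdim' e hR' hdimR hGh hGh' hne' hlg hq

end Pool.Agent.SY

end
end
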