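import Pool.Agent.H94.G6.M04
import Pool.Agent.H94.G6.M11
import Pool.Agent.H94.G6.M38
import Pool.Agent.H94.G6.M48
import Pool.Agent.H94.G6.M70

/-! The parts of this file: SB.An.Bez, SB.An.Defs, SB.An.Ex, SB.An.Un, SB.An.Ops, SG.RLoc. -/

section

/-!
# SB/An Bez: a power of `x` is a combination of two germs with an isolated common zero

`a`, `b` analytic at `0` in `ℂ × ℂ`, `a (0, ·)` not zero near `0`, isolated common zero.  For `x` near `0` let `r i` be the zeros of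
`a (x, ·)` in the disc of radius `ρ`, `χ (x, T) = ∏ (T - b (x, r i))`: analytic (`power_sum`, `esymm_newton`).  `χ (x, b (x, y))` is
divisible by `a (x, y)` (Cauchy integral of the quotient), `χ (x, T) - χ (x, 0)` by `T`.  So `χ (x, 0) ∈ (a, b)`, and
`χ (x, 0) ≠ 0` for `x ≠ 0`, so it is `x ^ M` times a unit.
-/

set_option autoImplicit false

open Metric Set Filter Topology

namespace Pool.Agent.SB.Bez

open Pool.Agent.H22.HF

/-- the normalised contour integral -/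
noncomputable def AA {E : Type} [NormedAddCommGroup E] [NormedSpace ℂ E] (g : E × ℂ → ℂ) (ρ : ℝ) (H : E × ℂ → ℂ) (p : E) : ℂ :=
  (2 * Real.pi * Complex.I)⁻¹ * ∮ t in C(0, ρ), H (p, t) * fderiv ℂ g (p, t) (0, 1) / g (p, t)

theorem AA_analytic {E : Type} [NormedAddCommGroup E] [NormedSpace ℂ E] [FiniteDimensional ℂ E] {g H : E × ℂ → ℂ} {ρ : ℝ} (hρ : 0 < ρ) {p : E}
    (hg : ∀ t ∈ sphere (0 : ℂ) ρ, AnalyticAt ℂ g (p, t)) (hH : ∀ t ∈ sphere (0 : ℂ) ρ, AnalyticAt ℂ H (p, t)) (hn : ∀ t ∈ sphere (0 : ℂ) ρ, g (p, t) ≠ 0) :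
    AnalyticAt ℂ (AA g ρ H) p := by
  unfold AA
  refine analyticAt_const.mul (analyticAt_circleIntegral (F := fun z => H z * fderiv ℂ g z (0, 1) / g z) hρ ?_)
  intro t ht
  refine ((hH t ht).mul ?_).div (hg t ht) (hn t ht)
  exact (ContinuousLinearMap.analyticAt (ContinuousLinearMap.apply ℂ ℂ ((0, 1) : E × ℂ)) _).comp (hg t ht).fderiv

theorem AA_eq {E : Type} [NormedAddCommGroup E] [NormedSpace ℂ E] [FiniteDimensional ℂ E] {g H : E × ℂ → ℂ} {ρ : ℝ} (hρ : 0 < ρ) {p : E}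
    (hg : ∀ t ∈ closedBall (0 : ℂ) ρ, AnalyticAt ℂ g (p, t)) (hH : ∀ t ∈ closedBall (0 : ℂ) ρ, AnalyticAt ℂ H (p, t))
    {w : ℂ → ℂ} {ν : ℕ} {r : Fin ν → ℂ} (hr : ∀ i, ‖r i‖ < ρ) (hw : ∀ t ∈ closedBall (0 : ℂ) ρ, AnalyticAt ℂ w t ∧ w t ≠ 0)
    (hφ : ∀ t ∈ closedBall (0 : ℂ) ρ, (fun t => g (p, t)) =ᶠ[𝓝 t] fun t => (∏ i, (t - r i)) * w t) :
    AA g ρ H p = ∑ i, H (p, r i) := by
  have hin : ∀ t : ℂ, AnalyticAt ℂ (fun t : ℂ => ((p, t) : E × ℂ)) t := fun t => analyticAt_const.prod analyticAt_id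
  have hps := power_sum (H := fun t => H (p, t)) hρ hr hw hφ (fun t ht => (hH t ht).comp (hin t))
  have hint : (∮ t in C(0, ρ), H (p, t) * fderiv ℂ g (p, t) (0, 1) / g (p, t)) = ∮ t in C(0, ρ), H (p, t) * deriv (fun t => g (p, t)) t / g (p, t) := by
    refine circleIntegral.integral_congr hρ.le (fun t ht => ?_)
    have h1 : HasFDerivAt g (fderiv ℂ g (p, t)) (p, t) := (hg t (sphere_subset_closedBall ht)).differentiableAt.hasFDerivAt
    have h2 : HasDerivAt (fun t : ℂ => ((p, t) : E × ℂ)) ((0, 1) : E × ℂ) t := (hasDerivAt_const t p).prodMk (hasDerivAt_id t)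
    have h3 : HasDerivAt (fun t => g (p, t)) (fderiv ℂ g (p, t) (0, 1)) t := h1.comp_hasDerivAt t h2
    simp only [h3.deriv]
  unfold AA
  rw [hint, hps, ← mul_assoc, inv_mul_cancel₀, one_mul]
  exact Complex.two_pi_I_ne_zero

/-- the characteristic polynomial of the multiplication by `b` modulo `a` -/
theorem exists_chi {a b : ℂ × ℂ → ℂ} (ha : AnalyticAt ℂ a 0) (hb : AnalyticAt ℂ b 0) (h0 : ¬ ∀ᶠ y in 𝓝 (0 : ℂ), a (0, y) = 0)
    {ε : ℝ} (hε : 0 < ε) :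
    ∃ (ρ : ℝ) (ν : ℕ) (χ : ℂ × ℂ → ℂ), 0 < ρ ∧ ρ ≤ ε ∧ (∀ t ∈ sphere (0 : ℂ) ρ, a (0, t) ≠ 0) ∧
      (∀ t ∈ closedBall (0 : ℂ) ρ, AnalyticAt ℂ a (0, t) ∧ AnalyticAt ℂ b (0, t)) ∧ (∀ T, AnalyticAt ℂ χ (0, T)) ∧
      ∀ᶠ x in 𝓝 (0 : ℂ), (∀ t ∈ closedBall (0 : ℂ) ρ, AnalyticAt ℂ a (x, t) ∧ AnalyticAt ℂ b (x, t)) ∧
        (∀ t ∈ sphere (0 : ℂ) ρ, a (x, t) ≠ 0) ∧
        ∃ (r : Fin ν → ℂ) (w : ℂ → ℂ), (∀ i, ‖r i‖ < ρ) ∧ (∀ t ∈ closedBall (0 : ℂ) ρ, AnalyticAt ℂ w t ∧ w t ≠ 0) ∧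
          (∀ t ∈ closedBall (0 : ℂ) ρ, (fun t => a (x, t)) =ᶠ[𝓝 t] fun t => (∏ i, (t - r i)) * w t) ∧
          ∀ T, χ (x, T) = ∏ i, (T - b (x, r i)) := by
  obtain ⟨δ, hδ, hball⟩ := Metric.eventually_nhds_iff_ball.mp (ha.eventually_analyticAt.and hb.eventually_analyticAt)
  have hg1 : AnalyticAt ℂ (fun t : ℂ => a (0, t)) 0 := by
    have h1 : AnalyticAt ℂ (fun t : ℂ => ((0, t) : ℂ × ℂ)) 0 := analyticAt_const.prod analyticAt_id
    exact AnalyticAt.comp (g := a) (f := fun t : ℂ => ((0, t) : ℂ × ℂ)) ha h1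
  have hne : ∀ᶠ t in 𝓝[≠] (0 : ℂ), a (0, t) ≠ 0 := hg1.eventually_eq_zero_or_eventually_ne_zero.resolve_left h0
  rw [eventually_nhdsWithin_iff] at hne
  obtain ⟨δ₁, hδ₁, hball₁⟩ := Metric.eventually_nhds_iff_ball.mp hne
  set ρ : ℝ := min ε (min (δ / 2) (δ₁ / 2)) with hρdef
  have hρ : 0 < ρ := lt_min hε (lt_min (by linarith) (by linarith))
  have hρε : ρ ≤ ε := min_le_left _ _
  have hρδ : ρ < δ := lt_of_le_of_lt ((min_le_right _ _).trans (min_le_left _ _)) (by linarith)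
  have hρδ₁ : ρ < δ₁ := lt_of_le_of_lt ((min_le_right _ _).trans (min_le_right _ _)) (by linarith)
  have han : ∀ x : ℂ, ‖x‖ < δ → ∀ t ∈ closedBall (0 : ℂ) ρ, AnalyticAt ℂ a (x, t) ∧ AnalyticAt ℂ b (x, t) := by
    intro p hp t ht
    apply hball
    rw [mem_ball_zero_iff, Prod.norm_def]
    rw [mem_closedBall_zero_iff] at ht
    exact max_lt hp (lt_of_le_of_lt ht hρδ)
  have hn0 : ∀ t ∈ sphere (0 : ℂ) ρ, a (0, t) ≠ 0 := by
    intro t ht
    rw [mem_sphere_zero_iff_norm] at ht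
    refine hball₁ t (by rw [mem_ball_zero_iff, ht]; exact hρδ₁) ?_
    rintro rfl
    rw [norm_zero] at ht
    exact hρ.ne ht
  have hev1 : ∀ᶠ p in 𝓝 (0 : ℂ), ‖p‖ < δ := by
    have := Metric.ball_mem_nhds (0 : ℂ) hδ
    filter_upwards [this] with p hp
    simpa using hp
  have hδ0 : ‖(0 : ℂ)‖ < δ := by simpa using hδ
  have hev2 : ∀ᶠ p in 𝓝 (0 : ℂ), ∀ t ∈ sphere (0 : ℂ) ρ, a (p, t) ≠ 0 := by
    refine IsCompact.eventually_forall_of_forall_eventually (isCompact_sphere (0 : ℂ) ρ) (P := fun (p : ℂ) (t : ℂ) => a (p, t) ≠ 0) ?_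
    intro t ht
    have hc : ContinuousAt a (0, t) := ((han 0 hδ0 t (sphere_subset_closedBall ht)).1).continuousAt
    exact hc.eventually_ne (hn0 t ht)
  have hfac : ∀ p : ℂ, ‖p‖ < δ → (∀ t ∈ sphere (0 : ℂ) ρ, a (p, t) ≠ 0) →
      ∃ (ν : ℕ) (r : Fin ν → ℂ) (w : ℂ → ℂ), (∀ i, ‖r i‖ < ρ) ∧ (∀ t ∈ closedBall (0 : ℂ) ρ, AnalyticAt ℂ w t ∧ w t ≠ 0) ∧
      ∀ t ∈ closedBall (0 : ℂ) ρ, (fun t => a (p, t)) =ᶠ[𝓝 t] fun t => (∏ i, (t - r i)) * w t := by
    intro p hp hn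
    refine exists_fac hρ (fun t ht => ?_) hn
    have hin : AnalyticAt ℂ (fun t : ℂ => ((p, t) : ℂ × ℂ)) t := analyticAt_const.prod analyticAt_id
    exact (han p hp t ht).1.comp hin
  obtain ⟨ν, r₀, w₀, hr₀, hw₀, hφ₀⟩ := hfac 0 hδ0 hn0
  have hA1 : AA a ρ (fun _ => 1) 0 = (ν : ℂ) := by
    rw [AA_eq hρ (fun t ht => (han 0 hδ0 t ht).1) (fun t _ => analyticAt_const) hr₀ hw₀ hφ₀]
    simp
  have hA1c : ContinuousAt (AA a ρ (fun _ => 1)) 0 :=
    (AA_analytic hρ (fun t ht => (han 0 hδ0 t (sphere_subset_closedBall ht)).1) (fun t _ => analyticAt_const) hn0).continuousAt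
  have hev3 : ∀ᶠ p in 𝓝 (0 : ℂ), ‖AA a ρ (fun _ => 1) p - (ν : ℂ)‖ < 1 := by
    have := Metric.continuousAt_iff.mp hA1c 1 one_pos
    obtain ⟨η, hη, hη'⟩ := this
    filter_upwards [Metric.ball_mem_nhds (0 : ℂ) hη] with p hp
    have h2 := hη' hp
    rwa [dist_eq_norm, hA1] at h2
  obtain ⟨P, hP⟩ := esymm_newton ν
  -- the functions of three variables
  let g : (ℂ × ℂ) × ℂ → ℂ := fun z => a (z.1.1, z.2)
  let H : (ℂ × ℂ) × ℂ → ℂ := fun z => z.1.2 - b (z.1.1, z.2)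
  have hpr : ∀ z : (ℂ × ℂ) × ℂ, AnalyticAt ℂ (fun z : (ℂ × ℂ) × ℂ => ((z.1.1, z.2) : ℂ × ℂ)) z := fun z =>
    ((analyticAt_fst.comp analyticAt_fst).prod analyticAt_snd)
  have hpT : ∀ z : (ℂ × ℂ) × ℂ, AnalyticAt ℂ (fun z : (ℂ × ℂ) × ℂ => z.1.2) z := fun z =>
    analyticAt_snd.comp analyticAt_fst
  have hg : ∀ x : ℂ, ‖x‖ < δ → ∀ T, ∀ t ∈ closedBall (0 : ℂ) ρ, AnalyticAt ℂ g ((x, T), t) := fun x hx T t ht =>
    AnalyticAt.comp (g := a) (f := fun z : (ℂ × ℂ) × ℂ => ((z.1.1, z.2) : ℂ × ℂ)) (x := ((x, T), t))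
      (han x hx t ht).1 (hpr _)
  have hH : ∀ x : ℂ, ‖x‖ < δ → ∀ T, ∀ t ∈ closedBall (0 : ℂ) ρ, AnalyticAt ℂ H ((x, T), t) := fun x hx T t ht =>
    (hpT _).sub (AnalyticAt.comp (g := b) (f := fun z : (ℂ × ℂ) × ℂ => ((z.1.1, z.2) : ℂ × ℂ)) (x := ((x, T), t))
      (han x hx t ht).2 (hpr _))
  refine ⟨ρ, ν, fun p => MvPolynomial.aeval (fun k : Fin ν => AA g ρ (fun z => H z ^ ((k : ℕ) + 1)) p) P, hρ, hρε, hn0,
    han 0 hδ0, ?_, ?_⟩
  · intro T
    refine AnalyticAt.aeval_mvPolynomial (fun k => ?_) P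
    exact AA_analytic hρ (fun t ht => hg 0 hδ0 T t (sphere_subset_closedBall ht))
      (fun t ht => (hH 0 hδ0 T t (sphere_subset_closedBall ht)).pow _) hn0
  · filter_upwards [hev1, hev2, hev3] with x hx hn h3
    obtain ⟨ν', r, w, hr, hw, hφ⟩ := hfac x hx hn
    have hA1' : AA a ρ (fun _ => 1) x = (ν' : ℂ) := by
      rw [AA_eq hρ (fun t ht => (han x hx t ht).1) (fun t _ => analyticAt_const) hr hw hφ]
      simp
    have hνν : ν' = ν := by
      rw [hA1'] at h3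
      have h4 : ‖(((ν' : ℤ) - (ν : ℤ) : ℤ) : ℂ)‖ < 1 := by push_cast; exact h3
      rw [Complex.norm_intCast] at h4
      have h5 : |(ν' : ℤ) - (ν : ℤ)| < 1 := by exact_mod_cast h4
      rw [Int.abs_lt_one_iff] at h5
      omega
    subst hνν
    refine ⟨han x hx, hn, r, w, hr, hw, hφ, fun T => ?_⟩
    show MvPolynomial.aeval (fun k : Fin ν' => AA g ρ (fun z => H z ^ ((k : ℕ) + 1)) (x, T)) P = _
    have h6 : ∀ k : Fin ν', AA g ρ (fun z => H z ^ ((k : ℕ) + 1)) (x, T) = ∑ i, (T - b (x, r i)) ^ ((k : ℕ) + 1) := fun k =>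
      AA_eq (H := fun z => H z ^ ((k : ℕ) + 1)) hρ (fun t ht => hg x hx T t ht)
        (fun t ht => (hH x hx T t ht).fun_pow _) hr hw hφ
    rw [funext h6, MvPolynomial.aeval_eq_eval, hP (fun i => T - b (x, r i))]

/-- division by the second coordinate -/
theorem exists_div_snd {F : ℂ × ℂ → ℂ} (hF : AnalyticAt ℂ F 0) (h0 : ∀ᶠ x in 𝓝 (0 : ℂ), F (x, 0) = 0) :
    ∃ κ : ℂ × ℂ → ℂ, AnalyticAt ℂ κ 0 ∧ ∀ᶠ p : ℂ × ℂ in 𝓝 0, F p = p.2 * κ p := by
  by_cases hz : ∀ᶠ p : ℂ × ℂ in 𝓝 0, F p = 0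
  · refine ⟨fun _ => 0, analyticAt_const, ?_⟩
    filter_upwards [hz] with p hp
    rw [hp, mul_zero]
  let g : ℂ × ℂ → ℂ := fun p => F p.swap
  have hsw : ∀ p : ℂ × ℂ, AnalyticAt ℂ (fun p : ℂ × ℂ => p.swap) p := fun p =>
    analyticAt_snd.prod analyticAt_fst
  have hswc : Tendsto (fun p : ℂ × ℂ => p.swap) (𝓝 0) (𝓝 0) := by
    have := (hsw 0).continuousAt.tendsto
    simpa using this
  have hg : AnalyticAt ℂ g 0 := AnalyticAt.comp (g := F) (f := fun p : ℂ × ℂ => p.swap) hF (hsw 0)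
  have hne : ¬ ∀ᶠ y in 𝓝 (0 : ℂ × ℂ), g y = 0 := by
    intro h
    refine hz ?_
    filter_upwards [hswc.eventually h] with p hp
    have h1 : g p.swap = 0 := hp
    simpa [g] using h1
  obtain ⟨k, g', hg', hgk, hgn⟩ := exists_div hg hne
  cases k with
  | zero =>
    exfalso
    refine hgn ?_
    have h1 : Tendsto (fun x : ℂ => ((0, x) : ℂ × ℂ)) (𝓝 0) (𝓝 0) := by
      have h2 : Continuous fun x : ℂ => ((0, x) : ℂ × ℂ) := by fun_prop
      exact h2.tendsto 0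
    filter_upwards [h1.eventually hgk, h0] with x hx hx0
    have h2 : g (0, x) = F (x, 0) := rfl
    rw [h2, hx0] at hx
    simpa using hx.symm
  | succ k =>
    refine ⟨fun p => p.2 ^ k * g' p.swap, ?_, ?_⟩
    · exact (analyticAt_snd.pow k).mul (AnalyticAt.comp (g := g') (f := fun p : ℂ × ℂ => p.swap) hg' (hsw 0))
    · filter_upwards [hswc.eventually hgk] with p hp
      have h1 : g p.swap = F p := by simp [g]
      rw [h1] at hp
      rw [hp, Prod.fst_swap, pow_succ]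
      ring

/-- **A power of `x` in the ideal.** -/
theorem exists_bezout {a b : ℂ × ℂ → ℂ} (ha : AnalyticAt ℂ a 0) (hb : AnalyticAt ℂ b 0) (h0 : ¬ ∀ᶠ y in 𝓝 (0 : ℂ), a (0, y) = 0)
    (hiso : ∀ᶠ p in 𝓝 (0 : ℂ × ℂ), p ≠ 0 → a p ≠ 0 ∨ b p ≠ 0) :
    ∃ (M : ℕ) (h k : ℂ × ℂ → ℂ), AnalyticAt ℂ h 0 ∧ AnalyticAt ℂ k 0 ∧
      ∀ᶠ p in 𝓝 (0 : ℂ × ℂ), p.1 ^ M = a p * h p + b p * k p := by
  by_cases hb0 : b 0 = 0
  swap
  · refine ⟨0, fun _ => 0, fun p => (b p)⁻¹, analyticAt_const, hb.inv hb0, ?_⟩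
    filter_upwards [hb.continuousAt.eventually_ne hb0] with p hp
    rw [pow_zero, mul_zero, zero_add, mul_inv_cancel₀ hp]
  obtain ⟨ε, hε, hεb⟩ := Metric.eventually_nhds_iff_ball.mp hiso
  obtain ⟨ρ, ν, χ, hρ, hρε, hn0, han0, hχ, hev⟩ := exists_chi ha hb h0 (ε := ε / 2) (by linarith)
  have hρε' : ρ < ε := by linarith
  -- the quotient of `χ (x, b (x, y))` by `a (x, y)`
  let G : ℂ × ℂ → ℂ := fun p => χ (p.1, b p)
  let h : ℂ × ℂ → ℂ := fun p => (2 * Real.pi * Complex.I)⁻¹ * ∮ t in C(0, ρ), (t - p.2)⁻¹ * (G (p.1, t) / a (p.1, t))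
  have hG : ∀ t ∈ closedBall (0 : ℂ) ρ, AnalyticAt ℂ G (0, t) := by
    intro t ht
    exact AnalyticAt.comp (g := χ) (f := fun p : ℂ × ℂ => (p.1, b p)) (x := (0, t)) (hχ _)
      (analyticAt_fst.prod (han0 t ht).2)
  have hh : AnalyticAt ℂ h 0 := by
    refine analyticAt_const.mul ?_
    refine analyticAt_circleIntegral (F := fun z : (ℂ × ℂ) × ℂ => (z.2 - z.1.2)⁻¹ * (G (z.1.1, z.2) / a (z.1.1, z.2))) hρ ?_
    intro t ht
    have hpr : AnalyticAt ℂ (fun z : (ℂ × ℂ) × ℂ => ((z.1.1, z.2) : ℂ × ℂ)) ((0 : ℂ × ℂ), t) :=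
      ((analyticAt_fst.comp analyticAt_fst).prod analyticAt_snd)
    have hpT : AnalyticAt ℂ (fun z : (ℂ × ℂ) × ℂ => z.1.2) ((0 : ℂ × ℂ), t) := analyticAt_snd.comp analyticAt_fst
    refine AnalyticAt.mul (AnalyticAt.inv (analyticAt_snd.sub hpT) ?_) (AnalyticAt.div ?_ ?_ ?_)
    · show t - (0 : ℂ × ℂ).2 ≠ 0
      rw [Prod.snd_zero, sub_zero]
      rintro rfl
      rw [mem_sphere_zero_iff_norm, norm_zero] at ht
      exact hρ.ne ht
    · exact AnalyticAt.comp (g := G) (f := fun z : (ℂ × ℂ) × ℂ => ((z.1.1, z.2) : ℂ × ℂ)) (x := ((0 : ℂ × ℂ), t))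
        (hG t (sphere_subset_closedBall ht)) hpr
    · exact AnalyticAt.comp (g := a) (f := fun z : (ℂ × ℂ) × ℂ => ((z.1.1, z.2) : ℂ × ℂ)) (x := ((0 : ℂ × ℂ), t))
        (han0 t (sphere_subset_closedBall ht)).1 hpr
    · exact hn0 t ht
  have hfst : Tendsto (fun p : ℂ × ℂ => p.1) (𝓝 0) (𝓝 0) := by
    simpa using (continuous_fst (X := ℂ) (Y := ℂ)).tendsto (0 : ℂ × ℂ)
  have hsnd : Tendsto (fun p : ℂ × ℂ => p.2) (𝓝 0) (𝓝 0) := by
    simpa using (continuous_snd (X := ℂ) (Y := ℂ)).tendsto (0 : ℂ × ℂ)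
  have hdiv : ∀ᶠ p : ℂ × ℂ in 𝓝 0, G p = a p * h p := by
    filter_upwards [hfst.eventually hev, hsnd.eventually (Metric.ball_mem_nhds (0 : ℂ) hρ)] with p hp hp2
    obtain ⟨han, hn, r, w, hr, hw, hφ, hχx⟩ := hp
    have hp2' : p.2 ∈ ball (0 : ℂ) ρ := hp2
    have hbx : ∀ t ∈ closedBall (0 : ℂ) ρ, AnalyticAt ℂ (fun t => b (p.1, t)) t := fun t ht =>
      AnalyticAt.comp (g := b) (f := fun t : ℂ => ((p.1, t) : ℂ × ℂ)) (x := t) (han t ht).2
        (analyticAt_const.prod analyticAt_id)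
    -- the quotient
    let q : ℂ → ℂ := fun t => (∏ i, dslope (fun t => b (p.1, t)) (r i) t) / w t
    have hq : ∀ t ∈ closedBall (0 : ℂ) ρ, G (p.1, t) = a (p.1, t) * q t := by
      intro t ht
      have h1 : G (p.1, t) = ∏ i, (b (p.1, t) - b (p.1, r i)) := hχx _
      have h2 : a (p.1, t) = (∏ i, (t - r i)) * w t := (hφ t ht).eq_of_nhds
      have h3 : ∀ i, b (p.1, t) - b (p.1, r i) = (t - r i) * dslope (fun t => b (p.1, t)) (r i) t := fun i => by
        have := sub_smul_dslope (fun t => b (p.1, t)) (r i) t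
        rw [smul_eq_mul] at this
        rw [this]
      rw [h1, h2, Finset.prod_congr rfl fun i _ => h3 i, Finset.prod_mul_distrib]
      show _ = (∏ i, (t - r i)) * w t * ((∏ i, dslope (fun t => b (p.1, t)) (r i) t) / w t)
      rw [mul_assoc, mul_div_cancel₀ _ (hw t ht).2]
    have hqd : DifferentiableOn ℂ q (closedBall (0 : ℂ) ρ) := by
      intro t ht
      refine DifferentiableWithinAt.div ?_ ((hw t ht).1.differentiableAt.differentiableWithinAt) (hw t ht).2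
      refine DifferentiableWithinAt.fun_finsetProd fun i _ => ?_
      have h4 : DifferentiableOn ℂ (fun t => b (p.1, t)) (ball (0 : ℂ) ρ) := fun s hs =>
        (hbx s (ball_subset_closedBall hs)).differentiableAt.differentiableWithinAt
      by_cases hti : t = r i
      · have h5 : DifferentiableOn ℂ (dslope (fun t => b (p.1, t)) (r i)) (ball (0 : ℂ) ρ) :=
          (Complex.differentiableOn_dslope (Metric.isOpen_ball.mem_nhds (by rw [mem_ball_zero_iff]; exact hr i))).2 h4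
        have h6 : ball (0 : ℂ) ρ ∈ 𝓝 t := Metric.isOpen_ball.mem_nhds (by rw [hti, mem_ball_zero_iff]; exact hr i)
        exact (h5.differentiableAt h6).differentiableWithinAt
      · exact ((differentiableAt_dslope_of_ne hti).2 (hbx t ht).differentiableAt).differentiableWithinAt
    have hC : (∮ t in C(0, ρ), (t - p.2)⁻¹ • q t) = (2 * Real.pi * Complex.I : ℂ) • q p.2 :=
      hqd.diffContOnCl_ball subset_rfl |>.circleIntegral_sub_inv_smul hp2'
    have hC2 : (∮ t in C(0, ρ), (t - p.2)⁻¹ * (G (p.1, t) / a (p.1, t))) = ∮ t in C(0, ρ), (t - p.2)⁻¹ • q t := by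
      refine circleIntegral.integral_congr hρ.le fun t ht => ?_
      show (t - p.2)⁻¹ * (G (p.1, t) / a (p.1, t)) = (t - p.2)⁻¹ • q t
      rw [hq t (sphere_subset_closedBall ht), mul_div_cancel_left₀ _ (hn t ht), smul_eq_mul]
    have hhp : h p = q p.2 := by
      show (2 * Real.pi * Complex.I)⁻¹ * (∮ t in C(0, ρ), (t - p.2)⁻¹ * (G (p.1, t) / a (p.1, t))) = q p.2
      rw [hC2, hC, smul_eq_mul, ← mul_assoc, inv_mul_cancel₀ Complex.two_pi_I_ne_zero, one_mul]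
    rw [hhp]
    exact hq p.2 (ball_subset_closedBall hp2')
  -- `χ (x, T) - χ (x, 0)`
  have hχ0 : AnalyticAt ℂ (fun x : ℂ => χ (x, 0)) 0 :=
    AnalyticAt.comp (g := χ) (f := fun x : ℂ => ((x, 0) : ℂ × ℂ)) (x := 0) (hχ 0) (analyticAt_id.prod analyticAt_const)
  have hχ0' : AnalyticAt ℂ (fun p : ℂ × ℂ => χ (p.1, 0)) 0 :=
    AnalyticAt.comp (g := χ) (f := fun p : ℂ × ℂ => ((p.1, 0) : ℂ × ℂ)) (x := 0) (hχ 0) (analyticAt_fst.prod analyticAt_const)
  obtain ⟨κ, hκ, hκe⟩ := exists_div_snd (F := fun p => χ p - χ (p.1, 0)) ((hχ 0).sub hχ0')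
    (Filter.Eventually.of_forall fun x => sub_self _)
  have hbp : Tendsto (fun p : ℂ × ℂ => ((p.1, b p) : ℂ × ℂ)) (𝓝 0) (𝓝 0) := by
    have h1 := (analyticAt_fst.prod hb : AnalyticAt ℂ (fun p : ℂ × ℂ => (p.1, b p)) 0).continuousAt.tendsto
    rw [hb0] at h1
    exact h1
  -- `χ (x, 0) ≠ 0`
  have hχne : ∀ᶠ x in 𝓝[≠] (0 : ℂ), χ (x, 0) ≠ 0 := by
    rw [eventually_nhdsWithin_iff]
    filter_upwards [hev, Metric.ball_mem_nhds (0 : ℂ) hε] with x hx hxε hx0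
    obtain ⟨han, hn, r, w, hr, hw, hφ, hχx⟩ := hx
    rw [hχx 0]
    refine Finset.prod_ne_zero_iff.2 fun i _ => ?_
    rw [zero_sub, neg_ne_zero]
    have h1 : a (x, r i) = 0 := by
      have h2 := (hφ (r i) (by rw [mem_closedBall_zero_iff]; exact (hr i).le)).eq_of_nhds
      have h2' : a (x, r i) = (∏ j, (r i - r j)) * w (r i) := h2
      rw [h2', Finset.prod_eq_zero (Finset.mem_univ i) (sub_self _), zero_mul]
    have h3 := hεb (x, r i) (by
      rw [mem_ball_zero_iff, Prod.norm_def]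
      rw [mem_ball_zero_iff] at hxε
      exact max_lt hxε ((hr i).trans hρε')) (by
      intro h
      exact hx0 (congrArg Prod.fst h))
    rcases h3 with h3 | h3
    · exact absurd h1 h3
    · exact h3
  have hnot : ¬ ∀ᶠ x in 𝓝 (0 : ℂ), χ (x, 0) = 0 := by
    intro h
    have h1 : ∀ᶠ x in 𝓝[≠] (0 : ℂ), χ (x, 0) = 0 := h.filter_mono nhdsWithin_le_nhds
    obtain ⟨x, hx1, hx2⟩ := (h1.and hχne).exists
    exact hx2 hx1
  obtain ⟨M, u, hu, hu0, hMu⟩ := (hχ0.exists_eventuallyEq_pow_smul_nonzero_iff).2 hnot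
  have hu' : AnalyticAt ℂ (fun p : ℂ × ℂ => (u p.1)⁻¹) 0 :=
    AnalyticAt.inv (AnalyticAt.comp (g := u) (f := fun p : ℂ × ℂ => p.1) (x := 0) hu analyticAt_fst) hu0
  refine ⟨M, fun p => (u p.1)⁻¹ * h p, fun p => -((u p.1)⁻¹ * κ (p.1, b p)), hu'.mul hh, ?_, ?_⟩
  · refine (hu'.mul ?_).neg
    refine AnalyticAt.comp (g := κ) (f := fun p : ℂ × ℂ => ((p.1, b p) : ℂ × ℂ)) (x := 0) ?_ (analyticAt_fst.prod hb)
    have h1 : ((0 : ℂ × ℂ).1, b 0) = (0 : ℂ × ℂ) := by rw [hb0]; rfl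
    rw [h1]
    exact hκ
  · filter_upwards [hdiv, hbp.eventually hκe, hfst.eventually hMu, hfst.eventually (hu.continuousAt.eventually_ne hu0)]
      with p h1 h2 h3 h4
    have h2' : χ (p.1, b p) - χ (p.1, 0) = b p * κ (p.1, b p) := h2
    have h1' : χ (p.1, b p) = a p * h p := h1
    have h3' : χ (p.1, 0) = p.1 ^ M * u p.1 := by
      have : χ (p.1, 0) = (p.1 - 0) ^ M • u p.1 := h3
      rw [this, sub_zero, smul_eq_mul]
    have h5 : p.1 ^ M = (u p.1)⁻¹ * χ (p.1, 0) := by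
      rw [h3']
      field_simp
    have h6 : χ (p.1, 0) = a p * h p - b p * κ (p.1, b p) := by
      rw [← h1', ← h2']
      ring
    rw [h5, h6]
    ring

end Pool.Agent.SB.Bez

end

section

/-!
# SB/An: reduction of singularities, analytic side: definitions

`Jet f s`: the formal power series `s` is the Taylor series of `f` at `0`.
`Tree a b`: the germ at `0` of the vector field `v x = a`, `v y = b` (`a`, `b` analytic at `0`) is reduced by finitely many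
blow-ups; the transforms are taken in the coordinates `(x, y)`, old `y = x (y + t)`, and the same with `x`, `y` exchanged.
-/

set_option autoImplicit false

open Topology

noncomputable section

namespace Pool.Agent.SB

/-- `s` is the Taylor series of `f` at `0` -/
def Jet (f : ℂ × ℂ → ℂ) (s : R2) : Prop :=
  ∀ N : ℕ, ∃ P : MvPolynomial (Fin 2) ℂ, Ord N (s - (P : R2)) ∧
    (fun p : ℂ × ℂ => f p - MvPolynomial.eval ![p.1, p.2] P) =O[𝓝 0] fun p => ‖p‖ ^ N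

/-- `(a₁, b₁)` is a transform of `(a, b)` at the point `t` of the exceptional line -/
def AChild (t : ℂ) (a b a₁ b₁ : ℂ × ℂ → ℂ) (e : ℕ) : Prop :=
  (∀ᶠ p : ℂ × ℂ in 𝓝 0, a (p.1, p.1 * (p.2 + t)) = p.1 ^ e * a₁ p) ∧
  (∀ᶠ p : ℂ × ℂ in 𝓝 0, b (p.1, p.1 * (p.2 + t)) - (p.2 + t) * a (p.1, p.1 * (p.2 + t)) =
    p.1 ^ (e + 1) * b₁ p)

/-- elementary and reduced: the linear part has the eigenvalues `l ≠ 0` and `k`, and `k / l` is not a positive rational number -/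
def AElem (a b : ℂ × ℂ → ℂ) : Prop :=
  a 0 = 0 ∧ b 0 = 0 ∧ ∃ l k : ℂ, l + k = fderiv ℂ a 0 (1, 0) + fderiv ℂ b 0 (0, 1) ∧
    l * k = fderiv ℂ a 0 (1, 0) * fderiv ℂ b 0 (0, 1) - fderiv ℂ a 0 (0, 1) * fderiv ℂ b 0 (1, 0) ∧
    l ≠ 0 ∧ ∀ p q : ℕ, 0 < p → 0 < q → (p : ℂ) * l ≠ q * k

/-- reducible by finitely many blow-ups -/
inductive Tree : (ℂ × ℂ → ℂ) → (ℂ × ℂ → ℂ) → Prop
  | reg (a b : ℂ × ℂ → ℂ) : AnalyticAt ℂ a 0 → AnalyticAt ℂ b 0 → (a 0 ≠ 0 ∨ b 0 ≠ 0) → Tree a b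
  | elem (a b : ℂ × ℂ → ℂ) : AnalyticAt ℂ a 0 → AnalyticAt ℂ b 0 → AElem a b → Tree a b
  | blow (a b : ℂ × ℂ → ℂ) (a₁ b₁ : ℂ → ℂ × ℂ → ℂ) (e : ℂ → ℕ) (a₂ b₂ : ℂ × ℂ → ℂ) (e₂ : ℕ) :
      AnalyticAt ℂ a 0 → AnalyticAt ℂ b 0 → (∀ t, AChild t a b (a₁ t) (b₁ t) (e t)) → (∀ t, Tree (a₁ t) (b₁ t)) →
      AChild 0 (fun p => b p.swap) (fun p => a p.swap) a₂ b₂ e₂ → Tree a₂ b₂ → Tree a b

end Pool.Agent.SB

end
end

section

/-!
# SB/An Ex: every analytic germ has a Taylor series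
-/

set_option autoImplicit false

open Topology MvPowerSeries

noncomputable section

namespace Pool.Agent.SB

namespace AnEx

/-- the coefficient of `x ^ i y ^ (n - i)` in `p n` -/
def A (p : FormalMultilinearSeries ℂ (ℂ × ℂ) ℂ) (n i : ℕ) : ℂ :=
  ∑ s ∈ (Finset.univ : Finset (Finset (Fin n))).filter (fun s => s.card = i),
    p n (s.piecewise (fun _ => ((1 : ℂ), (0 : ℂ))) fun _ => ((0 : ℂ), (1 : ℂ)))

theorem p_apply (p : FormalMultilinearSeries ℂ (ℂ × ℂ) ℂ) (n : ℕ) (z : ℂ × ℂ) :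
    p n (fun _ => z) = ∑ i ∈ Finset.range (n + 1), A p n i * (z.1 ^ i * z.2 ^ (n - i)) := by
  classical
  have h1 : (fun _ : Fin n => z) = (fun _ : Fin n => z.1 • ((1 : ℂ), (0 : ℂ))) + fun _ : Fin n => z.2 • ((0 : ℂ), (1 : ℂ)) := by
    funext i
    simp
  have h2 : ∀ s : Finset (Fin n), p n (s.piecewise (fun _ => z.1 • ((1 : ℂ), (0 : ℂ))) fun _ => z.2 • ((0 : ℂ), (1 : ℂ)))
      = p n (s.piecewise (fun _ => ((1 : ℂ), (0 : ℂ))) fun _ => ((0 : ℂ), (1 : ℂ))) * (z.1 ^ s.card * z.2 ^ (n - s.card)) := by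
    intro s
    have e1 : (s.piecewise (fun _ : Fin n => z.1 • ((1 : ℂ), (0 : ℂ))) fun _ => z.2 • ((0 : ℂ), (1 : ℂ)))
        = fun i => (if i ∈ s then z.1 else z.2) • (s.piecewise (fun _ : Fin n => ((1 : ℂ), (0 : ℂ))) (fun _ => ((0 : ℂ), (1 : ℂ))) i) := by
      funext i
      by_cases hi : i ∈ s <;> simp [Finset.piecewise, hi]
    rw [e1]
    have e2 := (p n).toMultilinearMap.map_smul_univ (fun i => if i ∈ s then z.1 else z.2)
      (s.piecewise (fun _ : Fin n => ((1 : ℂ), (0 : ℂ))) fun _ => ((0 : ℂ), (1 : ℂ)))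
    have e3 : ∏ i : Fin n, (if i ∈ s then z.1 else z.2) = z.1 ^ s.card * z.2 ^ (n - s.card) := by
      rw [Finset.prod_ite]
      simp only [Finset.prod_const]
      congr 2
      · congr 1
        ext i; simp
      · have : (Finset.univ.filter fun i : Fin n => i ∉ s) = sᶜ := by ext i; simp
        rw [this, Finset.card_compl, Fintype.card_fin]
    rw [e3] at e2
    calc _ = _ := e2
      _ = _ := by rw [smul_eq_mul, mul_comm]; rfl
  have h3 := (p n).toMultilinearMap.map_add_univ (fun _ : Fin n => z.1 • ((1 : ℂ), (0 : ℂ))) fun _ : Fin n => z.2 • ((0 : ℂ), (1 : ℂ))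
  have h4 : p n (fun _ => z) = ∑ s : Finset (Fin n), p n (s.piecewise (fun _ => z.1 • ((1 : ℂ), (0 : ℂ))) fun _ => z.2 • ((0 : ℂ), (1 : ℂ))) := by
    rw [h1]
    exact h3
  rw [h4, Finset.sum_congr rfl fun s _ => h2 s]
  have h5 : ∀ s ∈ (Finset.univ : Finset (Finset (Fin n))), s.card ∈ Finset.range (n + 1) := fun s _ => by
    rw [Finset.mem_range]
    have := s.card_le_univ
    rw [Fintype.card_fin] at this
    omega
  rw [← Finset.sum_fiberwise_of_maps_to h5]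
  refine Finset.sum_congr rfl fun i _ => ?_
  rw [A, Finset.sum_mul]
  refine Finset.sum_congr rfl fun s hs => ?_
  rw [(Finset.mem_filter.1 hs).2]

theorem ex_inj {i j i' j' : ℕ} (h : ex i j = ex i' j') : i = i' ∧ j = j' := by
  have h0 := DFunLike.congr_fun h 0
  have h1 := DFunLike.congr_fun h 1
  simp [ex] at h0 h1
  exact ⟨h0, h1⟩

/-- the Taylor polynomial -/
def TP (p : FormalMultilinearSeries ℂ (ℂ × ℂ) ℂ) (N : ℕ) : MvPolynomial (Fin 2) ℂ :=
  ∑ n ∈ Finset.range N, ∑ i ∈ Finset.range (n + 1), MvPolynomial.monomial (ex i (n - i)) (A p n i)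

theorem coeff_TP (p : FormalMultilinearSeries ℂ (ℂ × ℂ) ℂ) {N i j : ℕ} (h : i + j < N) :
    MvPolynomial.coeff (ex i j) (TP p N) = A p (i + j) i := by
  classical
  unfold TP
  rw [MvPolynomial.coeff_sum]
  simp only [MvPolynomial.coeff_sum, MvPolynomial.coeff_monomial]
  rw [Finset.sum_eq_single (i + j)]
  · rw [Finset.sum_eq_single i]
    · rw [if_pos (by rw [Nat.add_sub_cancel_left])]
    · intro k _ hk
      rw [if_neg]
      intro he
      exact hk (ex_inj he).1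
    · intro hi
      exact absurd (Finset.mem_range.2 (by omega)) hi
  · intro n _ hn
    refine Finset.sum_eq_zero fun k hk => ?_
    rw [if_neg]
    intro he
    obtain ⟨h1, h2⟩ := ex_inj he
    rw [Finset.mem_range] at hk
    omega
  · intro hn
    exact absurd (Finset.mem_range.2 h) hn

theorem eval_TP (p : FormalMultilinearSeries ℂ (ℂ × ℂ) ℂ) (N : ℕ) (z : ℂ × ℂ) :
    MvPolynomial.eval ![z.1, z.2] (TP p N) = p.partialSum N z := by
  unfold TP FormalMultilinearSeries.partialSum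
  rw [map_sum]
  refine Finset.sum_congr rfl fun n _ => ?_
  rw [map_sum, p_apply]
  refine Finset.sum_congr rfl fun i _ => ?_
  rw [MvPolynomial.eval_monomial]
  congr 1
  rw [Finsupp.prod_fintype _ _ fun _ => pow_zero _, Fin.prod_univ_two]
  simp [ex]

/-- the Taylor series -/
def TS (p : FormalMultilinearSeries ℂ (ℂ × ℂ) ℂ) : R2 := fun d => A p (d 0 + d 1) (d 0)

theorem coeff_TS (p : FormalMultilinearSeries ℂ (ℂ × ℂ) ℂ) (i j : ℕ) : coeff (ex i j) (TS p) = A p (i + j) i := by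
  have h2 : coeff (ex i j) (TS p) = A p ((ex i j) 0 + (ex i j) 1) ((ex i j) 0) := rfl
  have e0 : (ex i j) 0 = i := by simp [ex]
  have e1 : (ex i j) 1 = j := by simp [ex]
  rw [h2, e0, e1]

end AnEx

open AnEx

theorem exists_jet {f : ℂ × ℂ → ℂ} (hf : AnalyticAt ℂ f 0) : ∃ s : R2, Jet f s := by
  obtain ⟨p, hp⟩ := hf
  refine ⟨TS p, fun N => ⟨TP p N, ?_, ?_⟩⟩
  · intro i j hij
    rw [cf, map_sub, MvPolynomial.coeff_coe, coeff_TP p hij, coeff_TS, sub_self]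
  · have h1 := hp.isBigO_sub_partialSum_pow N
    simp only [zero_add] at h1
    simpa only [eval_TP] using h1

end Pool.Agent.SB

end
end

section

/-!
# SB/An Un: the Taylor series is unique
-/

set_option autoImplicit false

open Topology MvPowerSeries Asymptotics

noncomputable section

namespace Pool.Agent.SB

namespace AnUn

/-- a polynomial in one variable which is `O(τ ^ N)` has no terms of degree less than `N` -/
theorem coeff_zero_of_isBigO {N : ℕ} : ∀ {q : Polynomial ℂ}, ((fun τ : ℂ => q.eval τ) =O[𝓝[≠] 0] fun τ => τ ^ N) → ∀ m < N, q.coeff m = 0 := by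
  induction N with
  | zero => intro q _ m hm; omega
  | succ N ih =>
    intro q h m hm
    have h0 : q.coeff 0 = 0 := by
      have t1 : Filter.Tendsto (fun τ : ℂ => τ ^ (N + 1)) (𝓝[≠] 0) (𝓝 0) := by
        have : Continuous fun τ : ℂ => τ ^ (N + 1) := by fun_prop
        have h2 := this.tendsto 0
        rw [zero_pow (Nat.succ_ne_zero N)] at h2
        exact h2.mono_left nhdsWithin_le_nhds
      have t2 := h.trans_tendsto t1
      have t3 : Filter.Tendsto (fun τ : ℂ => q.eval τ) (𝓝[≠] 0) (𝓝 (q.eval 0)) := (q.continuous.tendsto 0).mono_left nhdsWithin_le_nhds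
      rw [Polynomial.coeff_zero_eq_eval_zero]
      exact tendsto_nhds_unique t3 t2
    have hdiv : (fun τ : ℂ => q.divX.eval τ) =O[𝓝[≠] 0] fun τ => τ ^ N := by
      have e : q = q.divX * Polynomial.X := by
        have := Polynomial.divX_mul_X_add q
        rw [h0, map_zero, add_zero] at this
        exact this.symm
      have h2 := h.bound
      obtain ⟨c, hc⟩ := h2
      refine IsBigO.of_bound c ?_
      filter_upwards [hc, self_mem_nhdsWithin] with τ h3 hτ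
      have hτ0 : τ ≠ 0 := hτ
      have hn : 0 < ‖τ‖ := norm_pos_iff.2 hτ0
      rw [e, Polynomial.eval_mul, Polynomial.eval_X, norm_mul, pow_succ, norm_mul, ← mul_assoc] at h3
      exact le_of_mul_le_mul_right h3 hn
    rcases m with _ | m
    · exact h0
    · have := ih hdiv m (by omega)
      rwa [Polynomial.coeff_divX] at this

/-- restriction to a line -/
def ln (z : ℂ × ℂ) : MvPolynomial (Fin 2) ℂ →ₐ[ℂ] Polynomial ℂ :=
  MvPolynomial.aeval ![Polynomial.C z.1 * Polynomial.X, Polynomial.C z.2 * Polynomial.X]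

theorem eval_ln (z : ℂ × ℂ) (Q : MvPolynomial (Fin 2) ℂ) (τ : ℂ) :
    (ln z Q).eval τ = MvPolynomial.eval ![z.1 * τ, z.2 * τ] Q := by
  have h : (Polynomial.evalRingHom τ).comp (ln z).toRingHom = MvPolynomial.eval ![z.1 * τ, z.2 * τ] := by
    apply MvPolynomial.ringHom_ext
    · intro r
      simp [ln]
    · intro i
      fin_cases i <;> simp [ln]
  have := RingHom.congr_fun h Q
  simpa using this

theorem ln_hom (z : ℂ × ℂ) {Q : MvPolynomial (Fin 2) ℂ} {m : ℕ} (hQ : Q.IsHomogeneous m) :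
    ln z Q = Polynomial.C (MvPolynomial.eval ![z.1, z.2] Q) * Polynomial.X ^ m := by
  rw [ln, MvPolynomial.aeval_def, MvPolynomial.eval₂_eq', MvPolynomial.eval_eq', map_sum, Finset.sum_mul]
  refine Finset.sum_congr rfl fun d hd => ?_
  have h1 : d 0 + d 1 = m := by
    have := hQ (MvPolynomial.mem_support_iff.1 hd)
    rw [Finsupp.weight_apply, Finsupp.sum_fintype _ _ (by simp), Fin.sum_univ_two] at this
    simpa using this
  rw [Fin.prod_univ_two, Fin.prod_univ_two]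
  simp only [Matrix.cons_val_zero, Matrix.cons_val_one, Polynomial.algebraMap_eq, map_mul, map_pow]
  rw [← h1, pow_add]
  ring

theorem coeff_ln (z : ℂ × ℂ) (Q : MvPolynomial (Fin 2) ℂ) (m : ℕ) :
    (ln z Q).coeff m = MvPolynomial.eval ![z.1, z.2] (MvPolynomial.homogeneousComponent m Q) := by
  conv_lhs => rw [← MvPolynomial.sum_homogeneousComponent Q]
  rw [map_sum, Polynomial.finsetSum_coeff]
  simp_rw [fun i => ln_hom z (MvPolynomial.homogeneousComponent_isHomogeneous i Q), Polynomial.coeff_C_mul, Polynomial.coeff_X_pow]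
  by_cases hm : m < Q.totalDegree + 1
  · rw [Finset.sum_eq_single m]
    · simp
    · intro k _ hk
      rw [if_neg (Ne.symm hk), mul_zero]
    · intro h
      exact absurd (Finset.mem_range.2 hm) h
  · rw [MvPolynomial.homogeneousComponent_eq_zero _ _ (by omega), map_zero]
    refine Finset.sum_eq_zero fun k hk => ?_
    rw [Finset.mem_range] at hk
    rw [if_neg (by omega), mul_zero]

theorem eq_ex (d : Fin 2 →₀ ℕ) : d = ex (d 0) (d 1) := by
  ext i
  fin_cases i <;> simp [ex]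

end AnUn

open AnUn

theorem ord_of_isBigO {Q : MvPolynomial (Fin 2) ℂ} {N : ℕ}
    (h : (fun p : ℂ × ℂ => MvPolynomial.eval ![p.1, p.2] Q) =O[𝓝 0] fun p => ‖p‖ ^ N) : Ord N (Q : R2) := by
  have h1 : ∀ m < N, MvPolynomial.homogeneousComponent m Q = 0 := by
    intro m hm
    refine MvPolynomial.funext fun x => ?_
    rw [map_zero]
    have hx : x = ![x 0, x 1] := by
      funext i; fin_cases i <;> rfl
    have hz := coeff_ln (x 0, x 1) Q m
    simp only at hz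
    rw [← hx] at hz
    rw [← hz]
    refine coeff_zero_of_isBigO (N := N) ?_ m hm
    have h2 : Filter.Tendsto (fun τ : ℂ => (x 0 * τ, x 1 * τ)) (𝓝 0) (𝓝 (0 : ℂ × ℂ)) := by
      have : Continuous fun τ : ℂ => (x 0 * τ, x 1 * τ) := by fun_prop
      exact this.tendsto' 0 0 (by simp)
    have h3 := (h.comp_tendsto h2)
    have h4 : (fun τ : ℂ => ‖(x 0 * τ, x 1 * τ)‖ ^ N) =O[𝓝 0] fun τ : ℂ => τ ^ N := by
      refine IsBigO.of_bound (‖(x 0, x 1)‖ ^ N) (Filter.Eventually.of_forall fun τ => ?_)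
      have h5 : (x 0 * τ, x 1 * τ) = τ • (x 0, x 1) := by simp [mul_comm]
      rw [h5, norm_smul, norm_pow, norm_mul, norm_norm, norm_norm, mul_pow, norm_pow, mul_comm]
    have h6 : (fun τ : ℂ => (ln (x 0, x 1) Q).eval τ) = (fun p : ℂ × ℂ => MvPolynomial.eval ![p.1, p.2] Q) ∘ fun τ : ℂ => (x 0 * τ, x 1 * τ) := by
      funext τ
      rw [eval_ln]
      rfl
    rw [h6]
    exact ((h3.trans h4).mono nhdsWithin_le_nhds)
  intro i j hij
  have h2 := congrArg (MvPolynomial.coeff (ex i j)) (h1 (i + j) hij)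
  rw [MvPolynomial.coeff_homogeneousComponent, MvPolynomial.coeff_zero] at h2
  have hdeg : (ex i j).degree = i + j := by
    rw [Finsupp.degree_eq_sum, Fin.sum_univ_two]
    simp [ex]
  rw [if_pos hdeg] at h2
  rw [cf, MvPolynomial.coeff_coe, h2]

theorem Jet.unique {f : ℂ × ℂ → ℂ} {s s' : R2} (h : Jet f s) (h' : Jet f s') : s = s' := by
  refine MvPowerSeries.ext fun d => ?_
  obtain ⟨P, hP, hO⟩ := h (d 0 + d 1 + 1)
  obtain ⟨P', hP', hO'⟩ := h' (d 0 + d 1 + 1)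
  have h1 : (fun p : ℂ × ℂ => MvPolynomial.eval ![p.1, p.2] (P - P')) =O[𝓝 0] fun p => ‖p‖ ^ (d 0 + d 1 + 1) := by
    refine (hO'.sub hO).congr_left fun p => ?_
    rw [map_sub]
    ring
  have h2 := ord_of_isBigO h1 (d 0) (d 1) (by omega)
  have h3 := hP (d 0) (d 1) (by omega)
  have h4 := hP' (d 0) (d 1) (by omega)
  rw [cf, ← eq_ex] at h2 h3 h4
  rw [map_sub] at h3 h4
  rw [MvPolynomial.coeff_coe, MvPolynomial.coeff_sub] at h2
  rw [MvPolynomial.coeff_coe] at h3 h4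
  have e3 := sub_eq_zero.1 h3
  have e4 := sub_eq_zero.1 h4
  have e2 := sub_eq_zero.1 h2
  rw [e3, e4, e2]

end Pool.Agent.SB

end
end

section

/-!
# SB/An Ops: Taylor series of sums, products, blow-ups; exact division
-/

set_option autoImplicit false

open Topology MvPowerSeries Asymptotics Filter

noncomputable section

namespace Pool.Agent.SB

/-! ### the ideals `Ord N` -/

theorem Ord.add {N : ℕ} {a b : R2} (ha : Ord N a) (hb : Ord N b) : Ord N (a + b) := fun i j h => by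
  rw [cf_add, ha i j h, hb i j h, add_zero]

theorem Ord.sub {N : ℕ} {a b : R2} (ha : Ord N a) (hb : Ord N b) : Ord N (a - b) := fun i j h => by
  rw [cf_sub, ha i j h, hb i j h, sub_zero]

theorem Ord.mul_right {N : ℕ} {a : R2} (ha : Ord N a) (b : R2) : Ord N (a * b) := fun i j h => by
  rw [cf_mul]
  refine Finset.sum_eq_zero fun p hp => Finset.sum_eq_zero fun q hq => ?_
  rw [Finset.HasAntidiagonal.mem_antidiagonal] at hp hq
  rw [ha p.1 q.1 (by omega), zero_mul]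

theorem Ord.mul_left {N : ℕ} {a : R2} (ha : Ord N a) (b : R2) : Ord N (b * a) := by
  rw [mul_comm]
  exact ha.mul_right b

theorem ord_zero (N : ℕ) : Ord N (0 : R2) := fun i j _ => by
  rw [cf, map_zero]

/-! ### polynomials near `0` -/

theorem eval_fin2 (P : MvPolynomial (Fin 2) ℂ) (x y : ℂ) :
    MvPolynomial.eval ![x, y] P = ∑ d ∈ P.support, MvPolynomial.coeff d P * (x ^ d 0 * y ^ d 1) := by
  rw [MvPolynomial.eval_eq']
  refine Finset.sum_congr rfl fun d _ => ?_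
  rw [Fin.prod_univ_two]
  rfl

theorem cf_coe (P : MvPolynomial (Fin 2) ℂ) (i j : ℕ) : cf (P : R2) i j = MvPolynomial.coeff (ex i j) P :=
  MvPolynomial.coeff_coe _ _

theorem poly_isBigO_one (P : MvPolynomial (Fin 2) ℂ) :
    (fun p : ℂ × ℂ => MvPolynomial.eval ![p.1, p.2] P) =O[𝓝 0] fun _ : ℂ × ℂ => (1 : ℝ) := by
  have h1 : Continuous fun p : ℂ × ℂ => MvPolynomial.eval ![p.1, p.2] P := by
    simp only [eval_fin2]
    fun_prop
  exact h1.continuousAt.isBigO_one ℝ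

theorem isBigO_of_ord {Q : MvPolynomial (Fin 2) ℂ} {N : ℕ} (h : Ord N (Q : R2)) :
    (fun p : ℂ × ℂ => MvPolynomial.eval ![p.1, p.2] Q) =O[𝓝 0] fun p => ‖p‖ ^ N := by
  simp only [eval_fin2]
  refine IsBigO.fun_sum fun d hd => ?_
  have h1 : N ≤ d 0 + d 1 := by
    by_contra hlt
    push Not at hlt
    have h2 := h (d 0) (d 1) hlt
    rw [cf_coe, ex_eq] at h2
    exact (MvPolynomial.mem_support_iff.1 hd) h2
  refine IsBigO.const_mul_left ?_ _
  refine IsBigO.of_bound 1 ?_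
  filter_upwards [Metric.ball_mem_nhds (0 : ℂ × ℂ) one_pos] with p hp
  rw [mem_ball_zero_iff] at hp
  rw [norm_mul, norm_pow, norm_pow, one_mul, norm_pow, norm_norm]
  calc ‖p.1‖ ^ d 0 * ‖p.2‖ ^ d 1 ≤ ‖p‖ ^ d 0 * ‖p‖ ^ d 1 := by
        gcongr
        · exact norm_fst_le p
        · exact norm_snd_le p
    _ = ‖p‖ ^ (d 0 + d 1) := (pow_add _ _ _).symm
    _ ≤ ‖p‖ ^ N := pow_le_pow_of_le_one (norm_nonneg _) hp.le h1

/-! ### operations -/

theorem Jet.isBigO_one {f : ℂ × ℂ → ℂ} {s : R2} (h : Jet f s) : f =O[𝓝 0] fun _ : ℂ × ℂ => (1 : ℝ) := by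
  obtain ⟨P, -, hP⟩ := h 0
  have h1 : (fun p : ℂ × ℂ => f p - MvPolynomial.eval ![p.1, p.2] P) =O[𝓝 0] fun _ : ℂ × ℂ => (1 : ℝ) := by
    simpa using hP
  have h2 := h1.add (poly_isBigO_one P)
  refine h2.congr_left fun p => ?_
  ring

theorem Jet.congr {f g : ℂ × ℂ → ℂ} {s : R2} (h : Jet f s) (hfg : ∀ᶠ p in 𝓝 0, f p = g p) : Jet g s := by
  intro N
  obtain ⟨P, h1, h2⟩ := h N
  refine ⟨P, h1, h2.congr' ?_ EventuallyEq.rfl⟩
  filter_upwards [hfg] with p hp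
  rw [hp]

theorem Jet.add {f g : ℂ × ℂ → ℂ} {s s' : R2} (h : Jet f s) (h' : Jet g s') : Jet (fun p => f p + g p) (s + s') := by
  intro N
  obtain ⟨P, h1, h2⟩ := h N
  obtain ⟨P', h1', h2'⟩ := h' N
  refine ⟨P + P', ?_, ?_⟩
  · rw [MvPolynomial.coe_add, add_sub_add_comm]
    exact h1.add h1'
  · refine (h2.add h2').congr_left fun p => ?_
    rw [map_add]
    ring

theorem Jet.mul {f g : ℂ × ℂ → ℂ} {s s' : R2} (h : Jet f s) (h' : Jet g s') : Jet (fun p => f p * g p) (s * s') := by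
  intro N
  obtain ⟨P, h1, h2⟩ := h N
  obtain ⟨P', h1', h2'⟩ := h' N
  refine ⟨P * P', ?_, ?_⟩
  · rw [MvPolynomial.coe_mul]
    have h3 : s * s' - (P : R2) * (P' : R2) = (s - P) * s' + P * (s' - P') := by ring
    rw [h3]
    exact (h1.mul_right _).add (h1'.mul_left _)
  · have h4 : (fun p : ℂ × ℂ => MvPolynomial.eval ![p.1, p.2] P * (g p - MvPolynomial.eval ![p.1, p.2] P')) =O[𝓝 0]
        fun p => ‖p‖ ^ N * 1 := ((poly_isBigO_one P).mul h2').congr_right fun p => by ring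
    refine (((h2.mul h'.isBigO_one).add h4).congr_right fun p => ?_).congr_left fun p => ?_
    · ring
    · rw [map_mul]
      ring

theorem jet_poly (P : MvPolynomial (Fin 2) ℂ) : Jet (fun p => MvPolynomial.eval ![p.1, p.2] P) (P : R2) := fun N =>
  ⟨P, by rw [sub_self]; exact ord_zero N, by simpa using isBigO_zero _ _⟩

theorem jet_const (c : ℂ) : Jet (fun _ => c) (C c) := by
  have h := jet_poly (MvPolynomial.C c)
  simpa using h

theorem jet_zero : Jet (fun _ => 0) 0 := by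
  have h := jet_const 0
  rwa [map_zero] at h

theorem jet_fst : Jet (fun p => p.1) (X 0) := by
  have h := jet_poly (MvPolynomial.X 0)
  simpa using h

theorem jet_snd : Jet (fun p => p.2) (X 1) := by
  have h := jet_poly (MvPolynomial.X 1)
  simpa using h

theorem Jet.neg {f : ℂ × ℂ → ℂ} {s : R2} (h : Jet f s) : Jet (fun p => -f p) (-s) := by
  have h1 := (jet_const (-1)).mul h
  rw [map_neg, map_one, neg_one_mul] at h1
  refine h1.congr (Filter.Eventually.of_forall fun p => ?_)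
  ring

theorem Jet.sub {f g : ℂ × ℂ → ℂ} {s s' : R2} (h : Jet f s) (h' : Jet g s') : Jet (fun p => f p - g p) (s - s') := by
  have h1 := h.add h'.neg
  rw [← sub_eq_add_neg] at h1
  refine h1.congr (Filter.Eventually.of_forall fun p => ?_)
  ring

theorem jet_fst_pow (n : ℕ) : Jet (fun p => p.1 ^ n) (X 0 ^ n) := by
  induction n with
  | zero =>
    have h := jet_const 1
    rw [map_one] at h
    simpa using h
  | succ n ih =>
    have h := ih.mul jet_fst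
    rw [← pow_succ] at h
    refine h.congr (Filter.Eventually.of_forall fun p => ?_)
    rw [pow_succ]

/-- the point of the blow-up -/
def bt (t : ℂ) (p : ℂ × ℂ) : ℂ × ℂ := (p.1, p.1 * (p.2 + t))

theorem bt_zero (t : ℂ) : bt t 0 = 0 := by
  simp [bt]

theorem bt_analytic (t : ℂ) (p : ℂ × ℂ) : AnalyticAt ℂ (bt t) p :=
  analyticAt_fst.prod (analyticAt_fst.mul (analyticAt_snd.add analyticAt_const))

theorem bt_tendsto (t : ℂ) : Tendsto (bt t) (𝓝 0) (𝓝 0) := by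
  have h := (bt_analytic t 0).continuousAt.tendsto
  rwa [bt_zero] at h

theorem bt_isBigO (t : ℂ) : (fun p : ℂ × ℂ => ‖bt t p‖) =O[𝓝 0] fun p => ‖p‖ := by
  refine IsBigO.of_bound (1 + ‖t‖) ?_
  filter_upwards [Metric.ball_mem_nhds (0 : ℂ × ℂ) one_pos] with p hp
  rw [mem_ball_zero_iff] at hp
  rw [norm_norm, norm_norm, bt, Prod.norm_def]
  have h1 := norm_fst_le p
  have h2 := norm_snd_le p
  have h3 : 0 ≤ ‖t‖ := norm_nonneg t
  have h4 : 0 ≤ ‖p‖ := norm_nonneg p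
  refine max_le ?_ ?_
  · show ‖p.1‖ ≤ _
    nlinarith
  · show ‖p.1 * (p.2 + t)‖ ≤ _
    rw [norm_mul]
    calc ‖p.1‖ * ‖p.2 + t‖ ≤ ‖p‖ * (‖p.2‖ + ‖t‖) := by
          gcongr
          exact norm_add_le _ _
      _ ≤ (1 + ‖t‖) * ‖p‖ := by nlinarith

/-- the substitution on polynomials -/
def blP (t : ℂ) : MvPolynomial (Fin 2) ℂ →ₐ[ℂ] MvPolynomial (Fin 2) ℂ :=
  MvPolynomial.aeval ![MvPolynomial.X 0, MvPolynomial.X 0 * (MvPolynomial.X 1 + MvPolynomial.C t)]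

theorem bl_X (t : ℂ) (i : Fin 2) : bl t (X i) = (![X 0, X 0 * (X 1 + C t)] : Fin 2 → R2) i := by
  rw [bl, coe_substAlgHom, subst_X (hasSubst_bl t)]

theorem bl_coe (t : ℂ) (P : MvPolynomial (Fin 2) ℂ) : bl t (P : R2) = (blP t P : MvPolynomial (Fin 2) ℂ) := by
  induction P using MvPolynomial.induction_on with
  | C a =>
    rw [MvPolynomial.coe_C, blP, MvPolynomial.aeval_C, MvPolynomial.algebraMap_eq, MvPolynomial.coe_C]
    exact AlgHom.commutes (bl t) a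
  | add p q hp hq => rw [MvPolynomial.coe_add, map_add, map_add, MvPolynomial.coe_add, hp, hq]
  | mul_X p i hp =>
    rw [MvPolynomial.coe_mul, map_mul, map_mul, MvPolynomial.coe_mul, hp, MvPolynomial.coe_X, bl_X, blP, MvPolynomial.aeval_X]
    congr 1
    fin_cases i
    · simp
    · simp

theorem eval_blP (t : ℂ) (P : MvPolynomial (Fin 2) ℂ) (p : ℂ × ℂ) :
    MvPolynomial.eval ![p.1, p.2] (blP t P) = MvPolynomial.eval ![(bt t p).1, (bt t p).2] P := by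
  induction P using MvPolynomial.induction_on with
  | C a => rw [blP, MvPolynomial.aeval_C, MvPolynomial.algebraMap_eq, MvPolynomial.eval_C, MvPolynomial.eval_C]
  | add a b ha hb => rw [map_add, map_add, map_add, ha, hb]
  | mul_X a i ha =>
    rw [map_mul, map_mul, map_mul, ha, blP, MvPolynomial.aeval_X, MvPolynomial.eval_X]
    congr 1
    fin_cases i
    · simp [bt]
    · simp [bt]

theorem Ord.bl {N : ℕ} {s : R2} (h : Ord N s) (t : ℂ) : Ord N (SB.bl t s) := by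
  obtain ⟨u, hu⟩ := exists_bl t h
  intro i j hij
  rw [← hu, cf_X0_pow_mul, if_neg (by omega)]

theorem Jet.bl {f : ℂ × ℂ → ℂ} {s : R2} (h : Jet f s) (t : ℂ) : Jet (fun p => f (bt t p)) (SB.bl t s) := by
  intro N
  obtain ⟨P, h1, h2⟩ := h N
  refine ⟨blP t P, ?_, ?_⟩
  · rw [← bl_coe, ← map_sub]
    exact h1.bl t
  · have h3 := (h2.comp_tendsto (bt_tendsto t)).trans ((bt_isBigO t).pow N)
    refine h3.congr_left fun p => ?_
    rw [Function.comp_apply, eval_blP]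

/-- the exchange of the variables on polynomials -/
theorem sw_coe (P : MvPolynomial (Fin 2) ℂ) : sw (P : R2) = (MvPolynomial.rename (Equiv.swap 0 1) P : MvPolynomial (Fin 2) ℂ) := by
  induction P using MvPolynomial.induction_on with
  | C a =>
    rw [MvPolynomial.coe_C, MvPolynomial.rename_C, MvPolynomial.coe_C]
    exact AlgEquiv.commutes sw a
  | add p q hp hq => rw [MvPolynomial.coe_add, map_add, map_add, MvPolynomial.coe_add, hp, hq]
  | mul_X p i hp =>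
    rw [MvPolynomial.coe_mul, map_mul, map_mul, MvPolynomial.coe_mul, hp, MvPolynomial.coe_X, MvPolynomial.rename_X,
      MvPolynomial.coe_X]
    congr 1
    refine cf_ext fun k l => ?_
    rw [cf_sw]
    have h1 : ∀ (i : Fin 2) (k l : ℕ), cf (X i : R2) k l = if k = (if i = 0 then 1 else 0) ∧ l = (if i = 0 then 0 else 1) then 1 else 0 := by
      intro i k l
      rw [cf, coeff_X]
      have h2 : (Finsupp.single i 1 : Fin 2 →₀ ℕ) = ex (if i = 0 then 1 else 0) (if i = 0 then 0 else 1) := by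
        fin_cases i
        · simp [ex]
        · simp [ex]
      rw [h2]
      simp only [ex_inj]
    rw [h1, h1]
    fin_cases i
    · simp [and_comm]
    · simp [and_comm]

theorem Jet.sw {f : ℂ × ℂ → ℂ} {s : R2} (h : Jet f s) : Jet (fun p => f p.swap) (SB.sw s) := by
  intro N
  obtain ⟨P, h1, h2⟩ := h N
  refine ⟨MvPolynomial.rename (Equiv.swap 0 1) P, ?_, ?_⟩
  · rw [← sw_coe, ← map_sub, ord_sw]
    exact h1
  · have hsw : Tendsto (fun p : ℂ × ℂ => p.swap) (𝓝 0) (𝓝 0) := by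
      have := (continuous_swap (X := ℂ) (Y := ℂ)).tendsto 0
      simpa using this
    have h3 := h2.comp_tendsto hsw
    refine (h3.congr_left fun p => ?_).congr_right fun p => ?_
    · rw [Function.comp_apply, MvPolynomial.eval_rename]
      congr 2
      rw [Function.comp_def]
      congr 1
      funext i
      fin_cases i
      · simp
      · simp
    · rw [Function.comp_apply]
      congr 1
      rw [Prod.norm_def, Prod.norm_def, max_comm]
      rfl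

/-! ### values and derivatives -/

theorem Jet.apply_zero {f : ℂ × ℂ → ℂ} {s : R2} (h : Jet f s) : f 0 = cf s 0 0 := by
  obtain ⟨P, h1, h2⟩ := h 1
  obtain ⟨c, hc⟩ := h2.bound
  have h3 := hc.self_of_nhds
  rw [norm_zero, pow_one, norm_zero, mul_zero] at h3
  have h4 : f 0 - MvPolynomial.eval ![(0 : ℂ × ℂ).1, (0 : ℂ × ℂ).2] P = 0 := norm_le_zero_iff.1 h3
  have h5 := h1 0 0 (by norm_num)
  rw [cf_sub, sub_eq_zero] at h5
  rw [sub_eq_zero.1 h4, h5, cf_coe]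
  have h6 : (![(0 : ℂ × ℂ).1, (0 : ℂ × ℂ).2] : Fin 2 → ℂ) = 0 := by
    funext i
    fin_cases i
    · rfl
    · rfl
  have h7 : ex 0 0 = 0 := by simp [ex]
  rw [h6, MvPolynomial.eval_zero, h7, MvPolynomial.constantCoeff_eq]

theorem Jet.hasFDerivAt {f : ℂ × ℂ → ℂ} {s : R2} (h : Jet f s) :
    HasFDerivAt f (cf s 1 0 • ContinuousLinearMap.fst ℂ ℂ ℂ + cf s 0 1 • ContinuousLinearMap.snd ℂ ℂ ℂ) 0 := by
  let L : MvPolynomial (Fin 2) ℂ := MvPolynomial.C (cf s 0 0) + MvPolynomial.C (cf s 1 0) * MvPolynomial.X 0 +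
    MvPolynomial.C (cf s 0 1) * MvPolynomial.X 1
  have hL : Ord 2 (s - (L : R2)) := by
    intro i j hij
    have h1 : (L : R2) = C (cf s 0 0) * 1 + C (cf s 1 0) * (X 0 * 1) + C (cf s 0 1) * (X 1 * 1) := by
      simp only [L, MvPolynomial.coe_add, MvPolynomial.coe_mul, MvPolynomial.coe_C, MvPolynomial.coe_X, mul_one]
    have h2 : ∀ i j, cf (1 : R2) i j = if i = 0 ∧ j = 0 then 1 else 0 := by
      intro i j
      rw [cf, coeff_one]
      have h3 : (0 : Fin 2 →₀ ℕ) = ex 0 0 := by simp [ex]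
      rw [h3]
      simp only [ex_inj]
    rw [h1, cf_sub, cf_add, cf_add, cf_C_mul, cf_C_mul, cf_C_mul, cf_X0_mul, cf_X1_mul, h2, h2, h2]
    have hij' : (i = 0 ∧ j = 0) ∨ (i = 1 ∧ j = 0) ∨ (i = 0 ∧ j = 1) := by omega
    rcases hij' with ⟨rfl, rfl⟩ | ⟨rfl, rfl⟩ | ⟨rfl, rfl⟩ <;> simp
  obtain ⟨P, h1, h2⟩ := h 2
  have h3 : Ord 2 ((P - L : MvPolynomial (Fin 2) ℂ) : R2) := by
    have h4 : ((P - L : MvPolynomial (Fin 2) ℂ) : R2) = (s - (L : R2)) - (s - (P : R2)) := by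
      have h5 : ((P - L : MvPolynomial (Fin 2) ℂ) : R2) = (P : R2) - (L : R2) := by
        refine cf_ext fun i j => ?_
        rw [cf_sub, cf_coe, cf_coe, cf_coe, MvPolynomial.coeff_sub]
      rw [h5]
      ring
    rw [h4]
    exact hL.sub h1
  have h6 : (fun p : ℂ × ℂ => f p - MvPolynomial.eval ![p.1, p.2] L) =O[𝓝 0] fun p => ‖p - 0‖ ^ 2 := by
    refine ((h2.add (isBigO_of_ord h3)).congr_left fun p => ?_).congr_right fun p => ?_
    · rw [map_sub]
      ring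
    · rw [sub_zero]
  have h7 := h6.hasFDerivAt (𝕜 := ℂ) one_lt_two
  have h8 : HasFDerivAt (fun p : ℂ × ℂ => MvPolynomial.eval ![p.1, p.2] L)
      (cf s 1 0 • ContinuousLinearMap.fst ℂ ℂ ℂ + cf s 0 1 • ContinuousLinearMap.snd ℂ ℂ ℂ) 0 := by
    have h9 : (fun p : ℂ × ℂ => MvPolynomial.eval ![p.1, p.2] L) = fun p : ℂ × ℂ =>
        cf s 0 0 + (cf s 1 0 • p.1 + cf s 0 1 • p.2) := by
      funext p
      simp only [L, map_add, map_mul, MvPolynomial.eval_C, MvPolynomial.eval_X, Matrix.cons_val_zero, Matrix.cons_val_one,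
        smul_eq_mul]
      ring
    rw [h9]
    exact ((hasFDerivAt_fst.const_smul (cf s 1 0)).add (hasFDerivAt_snd.const_smul (cf s 0 1))).const_add _
  have h10 := h7.add h8
  rw [zero_add] at h10
  refine h10.congr_of_eventuallyEq (Filter.Eventually.of_forall fun p => ?_)
  simp

theorem Jet.fderiv_fst {f : ℂ × ℂ → ℂ} {s : R2} (h : Jet f s) : fderiv ℂ f 0 (1, 0) = cf s 1 0 := by
  rw [h.hasFDerivAt.fderiv]
  simp

theorem Jet.fderiv_snd {f : ℂ × ℂ → ℂ} {s : R2} (h : Jet f s) : fderiv ℂ f 0 (0, 1) = cf s 0 1 := by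
  rw [h.hasFDerivAt.fderiv]
  simp

/-! ### exact division -/

/-- an analytic function of one variable of infinite order -/
theorem eventually_zero_of_isBigO {g : ℂ → ℂ} (hg : AnalyticAt ℂ g 0) (h : ∀ N : ℕ, g =O[𝓝 0] fun y => ‖y‖ ^ N) :
    ∀ᶠ y in 𝓝 (0 : ℂ), g y = 0 := by
  by_contra hne
  obtain ⟨n, u, hu, hu0, hn⟩ := (hg.exists_eventuallyEq_pow_smul_nonzero_iff).2 hne
  obtain ⟨c, hc⟩ := (h (n + 1)).bound
  have h1 : ∀ᶠ y in 𝓝[≠] (0 : ℂ), ‖u y‖ ≤ c * ‖y‖ := by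
    rw [eventually_nhdsWithin_iff]
    filter_upwards [hn, hc] with y h2 h3 hy
    have hy0 : 0 < ‖y‖ := norm_pos_iff.2 hy
    rw [h2, sub_zero, smul_eq_mul, norm_mul, norm_pow, norm_pow, norm_norm, pow_succ] at h3
    have h4 : 0 < ‖y‖ ^ n := pow_pos hy0 n
    refine le_of_mul_le_mul_left ?_ h4
    calc ‖y‖ ^ n * ‖u y‖ ≤ c * (‖y‖ ^ n * ‖y‖) := h3
      _ = ‖y‖ ^ n * (c * ‖y‖) := by ring
  have h2 : Tendsto (fun y : ℂ => c * ‖y‖) (𝓝[≠] 0) (𝓝 0) := by
    have h3 : Tendsto (fun y : ℂ => c * ‖y‖) (𝓝 0) (𝓝 (c * ‖(0 : ℂ)‖)) := (continuous_const.mul continuous_norm).tendsto 0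
    rw [norm_zero, mul_zero] at h3
    exact h3.mono_left nhdsWithin_le_nhds
  have h3 : Tendsto (fun y : ℂ => ‖u y‖) (𝓝[≠] 0) (𝓝 ‖u 0‖) := hu.continuousAt.norm.tendsto.mono_left nhdsWithin_le_nhds
  have h4 : ‖u 0‖ ≤ 0 := le_of_tendsto_of_tendsto h3 h2 h1
  exact hu0 (norm_le_zero_iff.1 h4)

theorem Jet.restrict {f : ℂ × ℂ → ℂ} (hf : AnalyticAt ℂ f 0) {s : R2} (h : Jet f s) (hs : ∀ j, cf s 0 j = 0) :
    ∀ᶠ y in 𝓝 (0 : ℂ), f (0, y) = 0 := by
  have hin : AnalyticAt ℂ (fun y : ℂ => ((0, y) : ℂ × ℂ)) 0 := analyticAt_const.prod analyticAt_id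
  refine eventually_zero_of_isBigO (AnalyticAt.comp (g := f) (f := fun y : ℂ => ((0, y) : ℂ × ℂ)) hf hin) fun N => ?_
  obtain ⟨P, h1, h2⟩ := h N
  have ht : Tendsto (fun y : ℂ => ((0, y) : ℂ × ℂ)) (𝓝 0) (𝓝 0) := hin.continuousAt.tendsto
  have hnorm : ∀ y : ℂ, ‖((0, y) : ℂ × ℂ)‖ = ‖y‖ := fun y => by
    rw [Prod.norm_def, norm_zero, max_eq_right (norm_nonneg _)]
  have h3 : (fun y : ℂ => f (0, y) - MvPolynomial.eval ![0, y] P) =O[𝓝 0] fun y => ‖y‖ ^ N := by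
    refine (h2.comp_tendsto ht).congr_right fun y => ?_
    rw [Function.comp_apply, hnorm]
  have h4 : (fun y : ℂ => MvPolynomial.eval ![0, y] P) =O[𝓝 0] fun y => ‖y‖ ^ N := by
    simp only [eval_fin2]
    refine IsBigO.fun_sum fun d hd => ?_
    refine IsBigO.const_mul_left ?_ _
    by_cases hd0 : d 0 = 0
    · have h5 : N ≤ d 1 := by
        by_contra hlt
        push Not at hlt
        have h6 := h1 0 (d 1) (by omega)
        rw [cf_sub, hs, zero_sub, neg_eq_zero, cf_coe] at h6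
        have h7 : ex 0 (d 1) = d := by rw [← hd0]; exact ex_eq d
        rw [h7] at h6
        exact (MvPolynomial.mem_support_iff.1 hd) h6
      refine IsBigO.of_bound 1 ?_
      filter_upwards [Metric.ball_mem_nhds (0 : ℂ) one_pos] with y hy
      rw [mem_ball_zero_iff] at hy
      rw [hd0, pow_zero, one_mul, one_mul, norm_pow, norm_pow, norm_norm]
      exact pow_le_pow_of_le_one (norm_nonneg _) hy.le h5
    · simp only [zero_pow hd0, zero_mul]
      exact isBigO_zero _ _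
  refine (h3.add h4).congr_left fun y => ?_
  show f (0, y) - MvPolynomial.eval ![0, y] P + MvPolynomial.eval ![0, y] P = f (0, y)
  ring

/-- **Exact division by a power of `x`.** -/
theorem Jet.exists_div {f : ℂ × ℂ → ℂ} (hf : AnalyticAt ℂ f 0) {e : ℕ} {u : R2} (h : Jet f (X 0 ^ e * u)) :
    ∃ g : ℂ × ℂ → ℂ, AnalyticAt ℂ g 0 ∧ (∀ᶠ p in 𝓝 0, f p = p.1 ^ e * g p) ∧ Jet g u := by
  by_cases hz : ∀ᶠ p in 𝓝 (0 : ℂ × ℂ), f p = 0
  · have h1 : Jet f 0 := jet_zero.congr (by filter_upwards [hz] with p hp; rw [hp])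
    have h2 := h.unique h1
    have h3 : u = 0 := by
      refine cf_ext fun i j => ?_
      have h4 : cf (X 0 ^ e * u) (i + e) j = cf (0 : R2) (i + e) j := by rw [h2]
      rw [cf_X0_pow_mul, if_pos (by omega), Nat.add_sub_cancel] at h4
      rw [h4, cf, cf, map_zero, map_zero]
    refine ⟨fun _ => 0, analyticAt_const, ?_, ?_⟩
    · filter_upwards [hz] with p hp
      rw [hp, mul_zero]
    · rw [h3]
      exact jet_zero
  obtain ⟨a, g', hg', hgk, hgn⟩ := H22.HF.exists_div hf hz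
  obtain ⟨v, hv⟩ := exists_jet hg'
  have h1 : Jet f (X 0 ^ a * v) := ((jet_fst_pow a).mul hv).congr (by filter_upwards [hgk] with p hp; rw [hp])
  have h2 := h.unique h1
  obtain ⟨j, hj⟩ : ∃ j, cf v 0 j ≠ 0 := by
    by_contra hcon
    push Not at hcon
    exact hgn (hv.restrict hg' hcon)
  have hea : e ≤ a := by
    by_contra hlt
    push Not at hlt
    have h3 : cf (X 0 ^ e * u) a j = cf (X 0 ^ a * v) a j := by rw [h2]
    rw [cf_X0_pow_mul, cf_X0_pow_mul, if_neg (by omega), if_pos le_rfl, Nat.sub_self] at h3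
    exact hj h3.symm
  have h3 : u = X 0 ^ (a - e) * v := by
    refine cf_ext fun i j => ?_
    have h4 : cf (X 0 ^ e * u) (i + e) j = cf (X 0 ^ a * v) (i + e) j := by rw [h2]
    rw [cf_X0_pow_mul, cf_X0_pow_mul, if_pos (by omega), Nat.add_sub_cancel] at h4
    rw [h4, cf_X0_pow_mul]
    by_cases h5 : a ≤ i + e
    · rw [if_pos h5, if_pos (by omega)]
      congr 1
      omega
    · rw [if_neg h5, if_neg (by omega)]
  refine ⟨fun p => p.1 ^ (a - e) * g' p, (analyticAt_fst.pow _).mul hg', ?_, ?_⟩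
  · filter_upwards [hgk] with p hp
    rw [hp, ← mul_assoc, ← pow_add]
    congr 2
    omega
  · rw [h3]
    exact (jet_fst_pow _).mul hv

end Pool.Agent.SB

end
end

section

/-!
# SG RLoc: the points of the cone over the projected curve near `σ 0` lie on the curve

Compactness of the projective line; the projection is injective near `σ 0`.
-/

set_option autoImplicit false

open Topology Filter Metric

noncomputable section

namespace Pool.Agent.SG

open Pool.Agent.H36.BP (EN)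
open Pool.Agent.H17BP (Surface IsChart Pr)
open Pool.Agent.UC (RatC)

variable {N : ℕ} {X : Set (EN N)}

/-- the linear form as a continuous linear map -/
private def lfL (c : Fin (N + 1) → ℂ) : EN N →L[ℂ] ℂ :=
  LinearMap.toContinuousLinearMap
    { toFun := lf c
      map_add' := fun x y => by
        unfold lf
        rw [← Finset.sum_add_distrib]
        exact Finset.sum_congr rfl fun i _ => mul_add _ _ _
      map_smul' := fun a x => by
        unfold lf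
        rw [RingHom.id_apply, smul_eq_mul, Finset.mul_sum]
        refine Finset.sum_congr rfl fun i _ => ?_
        change c i * (a * x i) = a * (c i * x i)
        ring }

private theorem lfL_apply (c : Fin (N + 1) → ℂ) (x : EN N) : lfL c x = lf c x := rfl

private theorem lf_smul (c : Fin (N + 1) → ℂ) (a : ℂ) (x : EN N) : lf c (a • x) = a * lf c x := by
  rw [← lfL_apply, map_smul]
  rfl

/-- a map of the plane with an invertible derivative is injective near `0` -/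
private theorem inj_near {f g : ℂ × ℂ → ℂ} (hf : AnalyticAt ℂ f 0) (hg : AnalyticAt ℂ g 0)
    (hdet : fderiv ℂ f 0 (1, 0) * fderiv ℂ g 0 (0, 1) - fderiv ℂ f 0 (0, 1) * fderiv ℂ g 0 (1, 0) ≠ 0) :
    ∃ U ∈ 𝓝 (0 : ℂ × ℂ), ∀ p ∈ U, ∀ q ∈ U, f p = f q → g p = g q → p = q := by
  let L : ℂ × ℂ →L[ℂ] ℂ × ℂ := (fderiv ℂ f 0).prod (fderiv ℂ g 0)
  have hstr : HasStrictFDerivAt (fun p => (f p, g p)) L 0 := hf.hasStrictFDerivAt.prodMk hg.hasStrictFDerivAt
  have hinj : Function.Injective (L : ℂ × ℂ →ₗ[ℂ] ℂ × ℂ) := by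
    rw [injective_iff_map_eq_zero]
    rintro ⟨a, b⟩ hv
    have hab : (a, b) = a • ((1 : ℂ), (0 : ℂ)) + b • ((0 : ℂ), (1 : ℂ)) := by
      ext <;> simp
    have h1 : fderiv ℂ f 0 (a, b) = 0 := congrArg Prod.fst hv
    have h2 : fderiv ℂ g 0 (a, b) = 0 := congrArg Prod.snd hv
    rw [hab, map_add, map_smul, map_smul, smul_eq_mul, smul_eq_mul] at h1 h2
    have ha : a * (fderiv ℂ f 0 (1, 0) * fderiv ℂ g 0 (0, 1) - fderiv ℂ f 0 (0, 1) * fderiv ℂ g 0 (1, 0)) = 0 := by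
      linear_combination (fderiv ℂ g 0 (0, 1)) * h1 - (fderiv ℂ f 0 (0, 1)) * h2
    have hb : b * (fderiv ℂ f 0 (1, 0) * fderiv ℂ g 0 (0, 1) - fderiv ℂ f 0 (0, 1) * fderiv ℂ g 0 (1, 0)) = 0 := by
      linear_combination (fderiv ℂ f 0 (1, 0)) * h2 - (fderiv ℂ g 0 (1, 0)) * h1
    have ha' := (mul_eq_zero.1 ha).resolve_right hdet
    have hb' := (mul_eq_zero.1 hb).resolve_right hdet
    rw [ha', hb']
    rfl
  let e : (ℂ × ℂ) ≃L[ℂ] ℂ × ℂ := (LinearEquiv.ofInjectiveEndo _ hinj).toContinuousLinearEquiv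
  have he : (e : ℂ × ℂ →L[ℂ] ℂ × ℂ) = L := by
    apply ContinuousLinearMap.ext
    intro v
    rfl
  rw [← he] at hstr
  let P := hstr.toOpenPartialHomeomorph (fun p => (f p, g p))
  refine ⟨P.source, P.open_source.mem_nhds hstr.mem_toOpenPartialHomeomorph_source, fun p hp q hq h1 h2 => ?_⟩
  exact P.injOn hp hq (Prod.ext h1 h2)

/-- the limit argument -/
private theorem loc_aux (hX : Surface X) {σ : ℂ × ℂ → EN N} {τ : EN N → ℂ × ℂ} (hσ : IsChart X σ τ)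
    {l : Fin 3 → Fin (N + 1) → ℂ} (h0 : lf (l 0) (σ 0) = 1) (h1 : lf (l 1) (σ 0) = 0) (h2 : lf (l 2) (σ 0) = 0)
    (hdet : lf (l 1) (fderiv ℂ σ 0 (1, 0)) * lf (l 2) (fderiv ℂ σ 0 (0, 1)) -
      lf (l 1) (fderiv ℂ σ 0 (0, 1)) * lf (l 2) (fderiv ℂ σ 0 (1, 0)) ≠ 0)
    (𝒰 : Ultrafilter ℕ) {p : ℕ → ℂ × ℂ} (hp : Tendsto p 𝒰 (𝓝 0)) {γ : ℂ → EN N} (hγ : ContinuousAt γ 0)
    (hγX : ∀ z, γ z ∈ X) (hγ0 : lf (l 1) (γ 0) = 0 → lf (l 2) (γ 0) = 0 → Pr (γ 0) (σ 0)) {v : ℕ → ℂ}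
    (hv : Tendsto v 𝒰 (𝓝 0))
    (hG : ∀ᶠ k in (𝒰 : Filter ℕ), lf (l 0) (σ (p k)) * lf (l 1) (γ (v k)) = lf (l 1) (σ (p k)) * lf (l 0) (γ (v k)) ∧
      lf (l 0) (σ (p k)) * lf (l 2) (γ (v k)) = lf (l 2) (σ (p k)) * lf (l 0) (γ (v k))) :
    Pr (γ 0) (σ 0) ∧ ∀ᶠ k in (𝒰 : Filter ℕ), Pr (γ (v k)) (σ (p k)) := by
  have hσc : Tendsto (fun k => σ (p k)) 𝒰 (𝓝 (σ 0)) := hσ.σ_an.continuousAt.tendsto.comp hp
  have hγc : Tendsto (fun k => γ (v k)) 𝒰 (𝓝 (γ 0)) := hγ.tendsto.comp hv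
  have hlσ : ∀ i, Tendsto (fun k => lf (l i) (σ (p k))) 𝒰 (𝓝 (lf (l i) (σ 0))) := fun i =>
    ((lfL (l i)).continuous.tendsto _).comp hσc
  have hlγ : ∀ i, Tendsto (fun k => lf (l i) (γ (v k))) 𝒰 (𝓝 (lf (l i) (γ 0))) := fun i =>
    ((lfL (l i)).continuous.tendsto _).comp hγc
  have hne : (𝒰 : Filter ℕ).NeBot := 𝒰.neBot
  have hPr : Pr (γ 0) (σ 0) := by
    apply hγ0
    · have h3 := tendsto_nhds_unique (((hlσ 0).mul (hlγ 1)).congr' (hG.mono fun k hk => hk.1)) ((hlσ 1).mul (hlγ 0))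
      rw [h0, h1, one_mul, zero_mul] at h3
      exact h3
    · have h3 := tendsto_nhds_unique (((hlσ 0).mul (hlγ 2)).congr' (hG.mono fun k hk => hk.2)) ((hlσ 2).mul (hlγ 0))
      rw [h0, h2, one_mul, zero_mul] at h3
      exact h3
  refine ⟨hPr, ?_⟩
  obtain ⟨c, hc, hγc0⟩ := hPr
  -- `y k = c⁻¹ • γ (v k) → σ 0`
  have hy : Tendsto (fun k => c⁻¹ • γ (v k)) 𝒰 (𝓝 (σ 0)) := by
    have h3 := hγc.const_smul c⁻¹
    rw [hγc0, smul_smul, inv_mul_cancel₀ hc, one_smul] at h3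
    exact h3
  have hq : Tendsto (fun k => τ (c⁻¹ • γ (v k))) 𝒰 (𝓝 0) := by
    have h3 := hσ.τ_an.continuousAt.tendsto.comp hy
    have h4 : τ (σ 0) = 0 := hσ.left.self_of_nhds
    rw [h4] at h3
    exact h3
  -- the affine coordinates
  let F : Fin 3 → ℂ × ℂ → ℂ := fun i q => lf (l i) (σ q) / lf (l 0) (σ q)
  have hlan : ∀ i, AnalyticAt ℂ (fun q => lf (l i) (σ q)) 0 := fun i =>
    ((lfL (l i)).analyticAt _).comp hσ.σ_an
  have hFan : ∀ i, AnalyticAt ℂ (F i) 0 := fun i => (hlan i).div (hlan 0) (by rw [h0]; exact one_ne_zero)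
  have hlder : ∀ i, HasFDerivAt (fun q => lf (l i) (σ q)) ((lfL (l i)).comp (fderiv ℂ σ 0)) 0 := fun i =>
    (lfL (l i)).hasFDerivAt.comp 0 hσ.σ_an.differentiableAt.hasFDerivAt
  have hFder : ∀ i, lf (l i) (σ 0) = 0 → ∀ w, fderiv ℂ (F i) 0 w = lf (l i) (fderiv ℂ σ 0 w) := by
    intro i hi w
    have h5 : AnalyticAt ℂ (fun q => (lf (l 0) (σ q))⁻¹) 0 := (hlan 0).inv (by rw [h0]; exact one_ne_zero)
    have h3 : HasFDerivAt (fun q => lf (l i) (σ q) * (lf (l 0) (σ q))⁻¹) _ 0 :=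
      (hlder i).mul h5.differentiableAt.hasFDerivAt
    have h4 : F i = fun q => lf (l i) (σ q) * (lf (l 0) (σ q))⁻¹ := by
      funext q
      exact div_eq_mul_inv _ _
    rw [h4, h3.fderiv, hi, h0, inv_one]
    change (0 : ℂ) * fderiv ℂ (fun q => (lf (l 0) (σ q))⁻¹) 0 w + 1 * lf (l i) (fderiv ℂ σ 0 w) = _
    rw [zero_mul, one_mul, zero_add]
  obtain ⟨U, hU, hinj⟩ := inj_near (hFan 1) (hFan 2) (by
    rw [hFder 1 h1, hFder 1 h1, hFder 2 h2, hFder 2 h2]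
    exact hdet)
  have hne0 : ∀ᶠ q in 𝓝 (0 : ℂ × ℂ), lf (l 0) (σ q) ≠ 0 :=
    (hlan 0).continuousAt.eventually_ne (by rw [h0]; exact one_ne_zero)
  filter_upwards [hG, hp.eventually hU, hq.eventually hU, hp.eventually hne0, hq.eventually hne0,
    hy.eventually hσ.right] with k hk hpU hqU hp0 hq0 hr
  obtain ⟨c', hc', hr'⟩ := hr (hX.smul _ (hγX _) _ (inv_ne_zero hc))
  set q := τ (c⁻¹ • γ (v k)) with hqdef
  have hγk : γ (v k) = (c * c') • σ q := by
    rw [mul_smul, ← hr', smul_smul, mul_inv_cancel₀ hc, one_smul]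
  have hcc : c * c' ≠ 0 := mul_ne_zero hc hc'
  rw [hγk, lf_smul, lf_smul, lf_smul] at hk
  have key : ∀ i, lf (l 0) (σ (p k)) * (c * c' * lf (l i) (σ q)) = lf (l i) (σ (p k)) * (c * c' * lf (l 0) (σ q)) →
      F i (p k) = F i q := by
    intro i hi
    change lf (l i) (σ (p k)) / lf (l 0) (σ (p k)) = lf (l i) (σ q) / lf (l 0) (σ q)
    rw [div_eq_div_iff hp0 hq0]
    apply mul_left_cancel₀ hcc
    linear_combination -hi
  have hpq : p k = q := hinj _ hpU _ hqU (key 1 hk.1) (key 2 hk.2)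
  exact ⟨c * c', hcc, by rw [hγk, hpq]⟩

set_option linter.unusedVariables false in
/-- The points of the cone over the projected curve near `σ 0` lie on the curve `K`. -/
theorem loc_curve (hX : Surface X) {d : ℕ} (hd : 1 ≤ d) {K K' : ℂ → EN N} (h : RatC X d K K') {σ : ℂ × ℂ → EN N} {τ : EN N → ℂ × ℂ} (hσ : IsChart X σ τ)
    {l : Fin 3 → Fin (N + 1) → ℂ} (h0 : lf (l 0) (σ 0) = 1) (h1 : lf (l 1) (σ 0) = 0) (h2 : lf (l 2) (σ 0) = 0)
    (hdet : lf (l 1) (fderiv ℂ σ 0 (1, 0)) * lf (l 2) (fderiv ℂ σ 0 (0, 1)) - lf (l 1) (fderiv ℂ σ 0 (0, 1)) * lf (l 2) (fderiv ℂ σ 0 (1, 0)) ≠ 0)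
    (hK : ∀ u, lf (l 1) (K u) = 0 → lf (l 2) (K u) = 0 → Pr (K u) (σ 0)) (hK' : lf (l 1) (K' 0) = 0 → lf (l 2) (K' 0) = 0 → Pr (K' 0) (σ 0))
    (𝒰 : Ultrafilter ℕ) {p : ℕ → ℂ × ℂ} (hp : Tendsto p 𝒰 (𝓝 0))
    (hG : ∀ᶠ k in (𝒰 : Filter ℕ), (∃ u : ℂ, lf (l 0) (σ (p k)) * lf (l 1) (K u) = lf (l 1) (σ (p k)) * lf (l 0) (K u) ∧
        lf (l 0) (σ (p k)) * lf (l 2) (K u) = lf (l 2) (σ (p k)) * lf (l 0) (K u)) ∨
      (lf (l 0) (σ (p k)) * lf (l 1) (K' 0) = lf (l 1) (σ (p k)) * lf (l 0) (K' 0) ∧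
        lf (l 0) (σ (p k)) * lf (l 2) (K' 0) = lf (l 2) (σ (p k)) * lf (l 0) (K' 0))) :
    ∃ (γ : ℂ → EN N) (v : ℕ → ℂ), ((∃ u₀ : ℂ, γ = fun z => K (u₀ + z)) ∨ γ = K') ∧ Pr (γ 0) (σ 0) ∧ Tendsto v 𝒰 (𝓝 0) ∧
      ∀ᶠ k in (𝒰 : Filter ℕ), Pr (γ (v k)) (σ (p k)) := by
  classical
  rcases Ultrafilter.eventually_or.1 hG with hA | hB
  · obtain ⟨u, hu⟩ := hA.choice
    by_cases hbd : ∃ R : ℝ, ∀ᶠ k in (𝒰 : Filter ℕ), ‖u k‖ ≤ R
    · obtain ⟨R, hR⟩ := hbd
      obtain ⟨u₀, -, hu₀⟩ : ∃ u₀ ∈ closedBall (0 : ℂ) R, Tendsto u 𝒰 (𝓝 u₀) := by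
        have hcomp := (isCompact_closedBall (0 : ℂ) R).ultrafilter_le_nhds (𝒰.map u) (by
          rw [Ultrafilter.coe_map, le_principal_iff]
          exact hR.mono fun k hk => mem_closedBall_zero_iff.2 hk)
        exact hcomp
      have hv : Tendsto (fun k => u k - u₀) 𝒰 (𝓝 0) := by
        have := hu₀.sub_const u₀
        rwa [sub_self] at this
      have hres := loc_aux hX hσ h0 h1 h2 hdet 𝒰 hp (γ := fun z => K (u₀ + z))
        ((h.diff.continuous.comp (continuous_const.add continuous_id)).continuousAt) (fun z => h.mem _)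
        (fun h3 h4 => hK _ h3 h4) (v := fun k => u k - u₀) hv (hu.mono fun k hk => by
          have : u₀ + (u k - u₀) = u k := by ring
          simp only [this]
          exact hk)
      exact ⟨_, _, Or.inl ⟨u₀, rfl⟩, hres.1, hv, hres.2⟩
    · -- `u → ∞`
      have hinf : ∀ R : ℝ, ∀ᶠ k in (𝒰 : Filter ℕ), R < ‖u k‖ := by
        intro R
        by_contra hcon
        apply hbd
        refine ⟨R, ?_⟩
        have h3 := Ultrafilter.eventually_not.2 hcon
        exact h3.mono fun k hk => not_lt.1 hk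
      have hv : Tendsto (fun k => (u k)⁻¹) 𝒰 (𝓝 0) := by
        apply tendsto_inv₀_cobounded.comp
        rw [← tendsto_norm_atTop_iff_cobounded]
        exact tendsto_atTop.2 fun R => (hinf R).mono fun k hk => hk.le
      have hres := loc_aux hX hσ h0 h1 h2 hdet 𝒰 hp (γ := K') h.diff'.continuous.continuousAt h.mem' hK' hv (by
        filter_upwards [hu, hinf 0] with k hk hk0
        have hu0 : u k ≠ 0 := norm_pos_iff.1 hk0
        have hpow : (u k) ^ d ≠ 0 := pow_ne_zero _ hu0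
        rw [h.rel _ hu0, lf_smul, lf_smul, lf_smul] at hk
        constructor
        · apply mul_left_cancel₀ hpow
          linear_combination hk.1
        · apply mul_left_cancel₀ hpow
          linear_combination hk.2)
      exact ⟨K', _, Or.inr rfl, hres.1, hv, hres.2⟩
  · have hv : Tendsto (fun _ : ℕ => (0 : ℂ)) 𝒰 (𝓝 0) := tendsto_const_nhds
    have hres := loc_aux hX hσ h0 h1 h2 hdet 𝒰 hp (γ := K') h.diff'.continuous.continuousAt h.mem' hK' hv hB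
    exact ⟨K', _, Or.inr rfl, hres.1, hv, hres.2⟩

end Pool.Agent.SG

end
end
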