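import Pool.Agent.H94.G6.M102
import Pool.Agent.H94.G6.M115
import Pool.Agent.H94.G6.M132
import Pool.Agent.H94.G6.M143
import Pool.Agent.H94.G6.M154
import Pool.Agent.H94.G6.M155
import Pool.Agent.H94.G6.M45
import Pool.Agent.H94.G6.M82
import Pool.Agent.H94.G6.M90

/-! The parts of this file: SG.RatN_1, SG.RatF, SG.RX, SG.Can, SG2.NegS. -/

section

/-!
# SG RatN: the rational curves are null

A polynomial curve in `X` has length zero for every pseudo-length, and it is of order two.  So it lies in `{R = 0}` if the null curves of order two do.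
-/

set_option autoImplicit false

open Topology Filter Metric MvPolynomial

noncomputable section

namespace Pool.Agent.SG

open Pool.Agent.H36.BP (EN fs wd OrdTwo)
open Pool.Agent.H14.PP (IsCone Tan)
open Pool.Agent.H22.W (PseudoLength tan_entire)
open Pool.Agent.H62.EF (Charts)
open Pool.Agent.H17 (PN VanishesAt HolomorphicInto)
open Pool.Agent.H17BP (Surface Pr)
open Pool.Agent.H62.FC (Homog)
open Pool.Agent.H13.OT (OrderTwo)
open Pool.Agent.H17EF (projVar coneE LE)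
open Pool.Agent.H14.V (IsNull IsLift isLift_mk)
open Pool.Agent.H22.WL (evF evF_diff evF_smul vanishesAt_lift)
open Pool.Agent.UC (RatC)
open Pool.Agent.SY (NullIn)

variable {N : ℕ} {X : Set (EN N)} {d : ℕ} {K K' : ℂ → EN N}

variable {P : Ideal (MvPolynomial (Fin (N + 1)) ℂ)}

theorem pj_lift (h0 : (0 : EN N) ∉ X) (h : RatC X d K K') : IsLift K (pj h0 h) :=
  isLift_mk h.diff fun z h1 => h0 (by
    have h2 : K z = 0 := WithLp.ofLp_injective 2 h1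
    exact h2 ▸ h.mem z)

/-- **The rational curves lie in `{R = 0}`.** -/
theorem rat_in (hP : Homog P) (hX : IsCone (coneE P)) (n : PseudoLength (coneE P))
    {R : MvPolynomial (Fin (N + 1)) ℂ} {e : ℕ} (hR : R.IsHomogeneous e) (hnull : NullIn P n R) (h : RatC (coneE P) d K K') (hd : 1 ≤ d) (z : ℂ) :
    eval (K z).ofLp R = 0 := by
  have hl := pj_lift hX.zero_notMem h
  rw [← vanishesAt_lift hl hR]
  exact hnull _ hl.holomorphicInto (pj_orderTwo hX.zero_notMem h) (fun z => (hl.mem_iff hP z).2 (h.mem z)) (pj_nonconst hX.zero_notMem h hd)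
    ⟨K, hl, fun z => rat_null hX n h z⟩ z

end Pool.Agent.SG

end
end

section

/-!
# SG RatF: there are finitely many rational curves

`finite_rat`: if the null curves of order two lie in `{R = 0}`, there are finitely many rational curves `K i` in `X` such that for every rational
curve `L` in `X` there is an `i` with: every form which vanishes on `K i` vanishes on `L`.
-/

set_option autoImplicit false

open Topology Filter Metric MvPolynomial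

noncomputable section

namespace Pool.Agent.SG

open Pool.Agent.H36.BP (EN)
open Pool.Agent.H14.PP (IsCone)
open Pool.Agent.H22.W (PseudoLength)
open Pool.Agent.H62.EF (Charts)
open Pool.Agent.H17 (PN VanishesAt HolomorphicInto)
open Pool.Agent.H17LG.Variety (FunField)
open Pool.Agent.H62.FC (Homog homog_of_minimal)
open Pool.Agent.H17EF (projVar coneE LE)
open Pool.Agent.H14.V (IsNull IsLift)
open Pool.Agent.H22.WL (vanishesAt_lift)
open Pool.Agent.H17BP (mapIdeal mapIdeal_isPrime mapIdeal_homog mem_mapIdeal_form le_mapIdeal trdeg_lt)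
open Pool.Agent.UC (RatC)
open Pool.Agent.SY (NullIn)

variable {N : ℕ} {P : Ideal (MvPolynomial (Fin (N + 1)) ℂ)}

/-- the ideal of a rational curve -/
def ratIdeal {X : Set (EN N)} {d : ℕ} {K K' : ℂ → EN N} (h0 : (0 : EN N) ∉ X) (h : RatC X d K K') :
    Ideal (MvPolynomial (Fin (N + 1)) ℂ) := mapIdeal (pj h0 h) Set.univ

theorem mem_ratIdeal {X : Set (EN N)} {d : ℕ} {K K' : ℂ → EN N} (h0 : (0 : EN N) ∉ X) (h : RatC X d K K') {Q : MvPolynomial (Fin (N + 1)) ℂ}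
    {m : ℕ} (hQ : Q.IsHomogeneous m) : Q ∈ ratIdeal h0 h ↔ ∀ z, eval (K z).ofLp Q = 0 := by
  unfold ratIdeal
  rw [mem_mapIdeal_form hQ]
  have hl := pj_lift h0 h
  constructor
  · intro h1 z
    exact (vanishesAt_lift hl hQ z).1 (h1 z (Set.mem_univ z))
  · intro h1 z _
    exact (vanishesAt_lift hl hQ z).2 (h1 z)

/-- the forms in `P`, and `R` -/
def gens (P : Ideal (MvPolynomial (Fin (N + 1)) ℂ)) (R : MvPolynomial (Fin (N + 1)) ℂ) :
    Option {q : MvPolynomial (Fin (N + 1)) ℂ × ℕ // q.1 ∈ P ∧ q.1.IsHomogeneous q.2} → MvPolynomial (Fin (N + 1)) ℂ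
  | none => R
  | some q => q.1.1

theorem le_gens (hP : Homog P) (R : MvPolynomial (Fin (N + 1)) ℂ) : P ≤ Ideal.span (Set.range (gens P R)) := by
  intro Q hQ
  rw [← MvPolynomial.sum_homogeneousComponent Q]
  refine Ideal.sum_mem _ fun i _ => Ideal.subset_span ⟨some ⟨(homogeneousComponent i Q, i), hP Q hQ i, homogeneousComponent_isHomogeneous i Q⟩, rfl⟩

/-- **The ideal of a rational curve is a minimal prime over `P` and `R`.** -/
theorem ratIdeal_minimal [P.IsPrime] {z : Fin 2 → FunField P} (hP : Homog P) (hz : IsTranscendenceBasis ℂ z) (hX : IsCone (coneE P))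
    (n : PseudoLength (coneE P)) {R : MvPolynomial (Fin (N + 1)) ℂ} {e : ℕ} (hR : R.IsHomogeneous e) (hRP : R ∉ P)
    (hnull : NullIn P n R) {d : ℕ} {K K' : ℂ → EN N} (h : RatC (coneE P) d K K') (hd : 1 ≤ d) :
    ratIdeal hX.zero_notMem h ∈ (Ideal.span (Set.range (gens P R))).minimalPrimes := by
  have hl := pj_lift hX.zero_notMem h
  have hJp : (ratIdeal hX.zero_notMem h).IsPrime := mapIdeal_isPrime isOpen_univ isPreconnected_univ Set.univ_nonempty hl.holomorphicInto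
  have hJX : ∃ i, (X i : MvPolynomial (Fin (N + 1)) ℂ) ∉ ratIdeal hX.zero_notMem h :=
    Pool.Agent.H17BP.exists_X_notMem (f := pj hX.zero_notMem h) Set.univ_nonempty
  have hJh : Homog (ratIdeal hX.zero_notMem h) := mapIdeal_homog
  have hgen : Ideal.span (Set.range (gens P R)) ≤ ratIdeal hX.zero_notMem h := by
    rw [Ideal.span_le]
    rintro _ ⟨l, rfl⟩
    rcases l with _ | ⟨⟨q, m⟩, hq, hqm⟩
    · exact (mem_ratIdeal hX.zero_notMem h hR).2 fun z => rat_in hP hX n hR hnull h hd z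
    · exact (mem_ratIdeal hX.zero_notMem h hqm).2 fun z => (h.mem z).2 q hq
  obtain ⟨p, hp, hpJ⟩ := Ideal.exists_minimalPrimes_le hgen
  have hpp : p.IsPrime := hp.1.1
  have hph : Homog p := by
    refine homog_of_minimal (A := gens P R) (e := fun l => match l with
      | none => e
      | some q => q.1.2) ?_ hp
    rintro (_ | q)
    · exact hR
    · exact q.2.2
  have hPp : P ≤ p := (le_gens hP R).trans hp.1.2
  have hRp : R ∈ p := hp.1.2 (Ideal.subset_span ⟨none, rfl⟩)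
  have hpX : ∃ i, (X i : MvPolynomial (Fin (N + 1)) ℂ) ∉ p := by
    obtain ⟨i, hi⟩ := hJX
    exact ⟨i, fun h1 => hi (hpJ h1)⟩
  have heq : p = ratIdeal hX.zero_notMem h := by
    refine le_antisymm hpJ ?_
    by_contra hne
    obtain ⟨v, hv⟩ := Pool.Agent.H62.FC.exists_fin_basis (P := p) hpX
    obtain ⟨w, hw⟩ := Pool.Agent.H62.FC.exists_fin_basis (P := ratIdeal hX.zero_notMem h) hJX
    have h1 : v < 2 := trdeg_lt hP hph hPp (fun h1 => hRP (h1 hRp)) hpX ⟨z, hz⟩ hv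
    have h2 : w < v := trdeg_lt hph hJh hpJ hne hJX hv hw
    have hw0 : w = 0 := by omega
    subst hw0
    obtain ⟨a, b, hab⟩ := pj_nonconst hX.zero_notMem h hd
    exact hab (Pool.Agent.H17BP.eq_of_trdeg_zero hJh hJX hw _ (Pool.Agent.H17BP.mem_variety_mapIdeal (Set.mem_univ a)) _
      (Pool.Agent.H17BP.mem_variety_mapIdeal (Set.mem_univ b)))
  rw [← heq]
  exact hp

/-- **Finitely many rational curves.** -/
theorem finite_rat [P.IsPrime] {z : Fin 2 → FunField P} (hP : Homog P) (hz : IsTranscendenceBasis ℂ z) (hX : IsCone (coneE P))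
    (n : PseudoLength (coneE P)) {R : MvPolynomial (Fin (N + 1)) ℂ} {e : ℕ} (hR : R.IsHomogeneous e) (hRP : R ∉ P)
    (hnull : NullIn P n R) : ∃ (r : ℕ) (d : Fin r → ℕ) (K K' : Fin r → ℂ → EN N), (∀ i, 1 ≤ d i ∧ RatC (coneE P) (d i) (K i) (K' i)) ∧
      ∀ (d₀ : ℕ) (L L' : ℂ → EN N), 1 ≤ d₀ → RatC (coneE P) d₀ L L' → ∃ i, ∀ (Q : MvPolynomial (Fin (N + 1)) ℂ) (m : ℕ), Q.IsHomogeneous m →
        ((∀ z, eval (K i z).ofLp Q = 0) ↔ ∀ z, eval (L z).ofLp Q = 0) := by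
  classical
  set S : Set (Ideal (MvPolynomial (Fin (N + 1)) ℂ)) :=
    {J | ∃ (d : ℕ) (K K' : ℂ → EN N) (h : RatC (coneE P) d K K'), 1 ≤ d ∧ J = ratIdeal hX.zero_notMem h} with hS
  have hfin : S.Finite := by
    refine (Ideal.finite_minimalPrimes_of_isNoetherianRing _ (Ideal.span (Set.range (gens P R)))).subset ?_
    rintro J ⟨d, K, K', h, hd, rfl⟩
    exact ratIdeal_minimal hP hz hX n hR hRP hnull h hd
  have hfs : ∀ i : Fin hfin.toFinset.card, ((hfin.toFinset.equivFin.symm i : hfin.toFinset) : Ideal _) ∈ S := fun i =>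
    hfin.mem_toFinset.1 (hfin.toFinset.equivFin.symm i).2
  choose d K K' h hd hJ using hfs
  refine ⟨hfin.toFinset.card, d, K, K', fun i => ⟨hd i, h i⟩, fun d₀ L L' hd₀ hL => ?_⟩
  have hmem : ratIdeal hX.zero_notMem hL ∈ hfin.toFinset := hfin.mem_toFinset.2 ⟨d₀, L, L', hL, hd₀, rfl⟩
  refine ⟨hfin.toFinset.equivFin ⟨_, hmem⟩, fun Q m hQ => ?_⟩
  rw [← mem_ratIdeal hX.zero_notMem (h _) hQ, ← mem_ratIdeal hX.zero_notMem hL hQ, ← hJ, Equiv.symm_apply_apply]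

end Pool.Agent.SG

end
end

section

/-!
# SG RX: the rational curves lie in one curve which has no secants near a non-null direction
-/

set_option autoImplicit false

open Topology Filter Metric MvPolynomial

noncomputable section

namespace Pool.Agent.SG

open Pool.Agent.H36.BP (EN)
open Pool.Agent.H14.PP (IsCone)
open Pool.Agent.H17BP (Surface IsChart Pr)
open Pool.Agent.H22.W (PseudoLength)
open Pool.Agent.H17EF (coneE)
open Pool.Agent.H17LG.Variety (FunField)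
open Pool.Agent.H62.FC (Homog)
open Pool.Agent.UC (RatC)
open Pool.Agent.SY (NullIn)

variable {N : ℕ}

/-- the two ends of a rational curve play the same role -/
theorem ratC_symm {V : Type} [NormedAddCommGroup V] [NormedSpace ℂ V] {X : Set V} {d : ℕ} {K K' : ℂ → V} (h : RatC X d K K') :
    RatC X d K' K := by
  refine ⟨h.diff', h.diff, h.mem', h.mem, fun z hz => ?_⟩
  rw [h.rel z⁻¹ (inv_ne_zero hz), inv_inv, smul_smul, ← mul_pow, mul_inv_cancel₀ hz, one_pow, one_smul]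

/-- the linear form as a polynomial -/
private def linR (c : Fin (N + 1) → ℂ) : MvPolynomial (Fin (N + 1)) ℂ := ∑ i, C (c i) * X i

private theorem linR_homog (c : Fin (N + 1) → ℂ) : (linR c).IsHomogeneous 1 := by
  refine IsHomogeneous.sum _ _ _ fun i _ => ?_
  have := (isHomogeneous_C (Fin (N + 1)) (c i)).mul (isHomogeneous_X ℂ i)
  rwa [zero_add] at this

private theorem eval_linR (c : Fin (N + 1) → ℂ) (x : EN N) : eval x.ofLp (linR c) = lf c x := by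
  unfold linR lf
  rw [map_sum]
  refine Finset.sum_congr rfl fun i _ => ?_
  rw [map_mul, eval_C, eval_X]

/-- one rational curve -/
theorem exists_form_one {P : Ideal (MvPolynomial (Fin (N + 1)) ℂ)} (hX : Surface (coneE P)) (hc : IsCone (coneE P)) (n : PseudoLength (coneE P))
    {d : ℕ} (hd : 1 ≤ d) {K K' : ℂ → EN N} (h : RatC (coneE P) d K K') {σ : ℂ × ℂ → EN N} {τ : EN N → ℂ × ℂ} (hσ : IsChart (coneE P) σ τ)
    (hn : n.toFun (σ 0) (fderiv ℂ σ 0 (1, 0)) ≠ 0) :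
    ∃ (G : MvPolynomial (Fin (N + 1)) ℂ) (e : ℕ), G.IsHomogeneous e ∧ (∀ z, eval (K z).ofLp G = 0) ∧
      ∀ᶠ p in 𝓝 (0 : ℂ × ℂ), eval (σ (p.1, p.1 * p.2)).ofLp G = 0 → p.1 = 0 := by
  obtain ⟨q, hq, hqK, hqK'⟩ := ratC_poly (fun x hx => fun h0 => hc.zero_notMem (h0 ▸ hx)) h
  obtain ⟨l, hl0, hl1, hl2, hdet, hlK, hlK'⟩ := exists_proj hX h hσ
  set a : Fin 3 → Polynomial ℂ := fun i => ∑ j, Polynomial.C (l i j) * q j with ha
  have had : ∀ i, (a i).natDegree ≤ d := by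
    intro i
    refine Polynomial.natDegree_sum_le_of_forall_le _ _ fun j _ => ?_
    exact (Polynomial.natDegree_C_mul_le _ _).trans (hq j)
  have hae : ∀ i u, (a i).eval u = lf (l i) (K u) := by
    intro i u
    rw [ha]
    simp only [Polynomial.eval_finsetSum, Polynomial.eval_mul, Polynomial.eval_C]
    unfold lf
    exact Finset.sum_congr rfl fun j _ => by rw [hqK u j]
  have hac : ∀ i, (a i).coeff d = lf (l i) (K' 0) := by
    intro i
    rw [ha]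
    simp only [Polynomial.finsetSum_coeff, Polynomial.coeff_C_mul]
    unfold lf
    exact Finset.sum_congr rfl fun j _ => by rw [hqK' j]
  obtain ⟨G₃, hG₃, hG₃e⟩ := exists_det hd a had
  set G : MvPolynomial (Fin (N + 1)) ℂ := bind₁ (fun i => linR (l i)) G₃ with hG
  have hGe : ∀ x : EN N, eval x.ofLp G = eval (fun i => lf (l i) x) G₃ := by
    intro x
    rw [hG, ← MvPolynomial.coe_aeval_eq_eval, ← MvPolynomial.coe_aeval_eq_eval]
    simp only [RingHom.coe_coe]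
    rw [aeval_bind₁]
    congr 2
    funext i
    have := eval_linR (l i) x
    rwa [← MvPolynomial.coe_aeval_eq_eval] at this
  refine ⟨G, 2 * d, ?_, ?_, ?_⟩
  · have := hG₃.aeval (fun i => linR (l i)) (fun i => linR_homog (l i))
    rwa [one_mul] at this
  · intro z
    rw [hGe, hG₃e]
    left
    refine ⟨z, ?_, ?_⟩
    · rw [hae, hae]
      ring
    · rw [hae, hae]
      ring
  · by_contra hcon
    have hseq : ∀ k : ℕ, ∃ p : ℂ × ℂ, ‖p‖ < 1 / ((k : ℝ) + 1) ∧ eval (σ (p.1, p.1 * p.2)).ofLp G = 0 ∧ p.1 ≠ 0 := by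
      intro k
      have hk : (0 : ℝ) < 1 / ((k : ℝ) + 1) := by positivity
      have h2 : ∀ᶠ p in 𝓝 (0 : ℂ × ℂ), ‖p‖ < 1 / ((k : ℝ) + 1) := by
        filter_upwards [ball_mem_nhds (0 : ℂ × ℂ) hk] with p hp
        rwa [mem_ball_zero_iff] at hp
      obtain ⟨p, hp1, hp2⟩ := ((Filter.not_eventually.1 hcon).and_eventually h2).exists
      push Not at hp1
      exact ⟨p, hp2, hp1.1, hp1.2⟩
    choose p hp1 hp2 hp3 using hseq
    set 𝒰 : Ultrafilter ℕ := hyperfilter ℕ with h𝒰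
    have hle : (𝒰 : Filter ℕ) ≤ atTop := Nat.hyperfilter_le_atTop
    have hinv : Tendsto (fun k : ℕ => 1 / ((k : ℝ) + 1)) 𝒰 (𝓝 0) := tendsto_one_div_add_atTop_nhds_zero_nat.mono_left hle
    have hpt : Tendsto p 𝒰 (𝓝 0) := squeeze_zero_norm (fun k => (hp1 k).le) hinv
    have hs : Tendsto (fun k => (p k).1) 𝒰 (𝓝 0) := (continuous_fst.tendsto (0 : ℂ × ℂ)).comp hpt
    have ht : Tendsto (fun k => (p k).2) 𝒰 (𝓝 0) := (continuous_snd.tendsto (0 : ℂ × ℂ)).comp hpt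
    have hqt : Tendsto (fun k => ((p k).1, (p k).1 * (p k).2)) 𝒰 (𝓝 (0 : ℂ × ℂ)) := by
      have := hs.prodMk_nhds (hs.mul ht)
      rwa [mul_zero] at this
    obtain ⟨γ, v, hγ, hγ0, hv, hγp⟩ := loc_curve hX hd h hσ hl0 hl1 hl2 hdet hlK hlK' 𝒰 hqt (by
      refine Eventually.of_forall fun k => ?_
      have h3 := hp2 k
      rw [hGe, hG₃e] at h3
      simp only [hae, hac] at h3
      exact h3)
    refine hn (sec_curve hX n (γ := γ) ?_ ?_ ?_ hσ hγ0 𝒰 hs ht hv (Eventually.of_forall hp3) hγp)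
    · rcases hγ with ⟨u₀, rfl⟩ | rfl
      · exact (h.diff.comp ((differentiable_const _).add differentiable_id)).analyticAt 0
      · exact h.diff'.analyticAt 0
    · rcases hγ with ⟨u₀, rfl⟩ | rfl
      · exact Eventually.of_forall fun z => h.mem _
      · exact Eventually.of_forall fun z => h.mem' _
    · rcases hγ with ⟨u₀, rfl⟩ | rfl
      · refine Eventually.of_forall fun z => ?_
        have h4 := rat_null hc n h (u₀ + z)
        rwa [deriv_comp_const_add]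
      · exact Eventually.of_forall fun z => rat_null hc n (ratC_symm h) z

/-- The rational curves lie in one curve `{G = 0}`, which has no secants near the direction of the first axis. -/
theorem exists_form {P : Ideal (MvPolynomial (Fin (N + 1)) ℂ)} [P.IsPrime] {z : Fin 2 → FunField P} (hP : Homog P) (hz : IsTranscendenceBasis ℂ z)
    (hX : Surface (coneE P)) (hc : IsCone (coneE P)) (n : PseudoLength (coneE P)) {R : MvPolynomial (Fin (N + 1)) ℂ} {e : ℕ}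
    (hR : R.IsHomogeneous e) (hRP : R ∉ P) (hN : NullIn P n R) {σ : ℂ × ℂ → EN N} {τ : EN N → ℂ × ℂ} (hσ : IsChart (coneE P) σ τ)
    (hn : n.toFun (σ 0) (fderiv ℂ σ 0 (1, 0)) ≠ 0) :
    ∃ (G : MvPolynomial (Fin (N + 1)) ℂ) (a : ℕ), G.IsHomogeneous a ∧
      (∀ (d : ℕ) (K K' : ℂ → EN N), 1 ≤ d → RatC (coneE P) d K K' → ∀ z, eval (K z).ofLp G = 0) ∧
      ∀ᶠ p in 𝓝 (0 : ℂ × ℂ), eval (σ (p.1, p.1 * p.2)).ofLp G = 0 → p.1 = 0 := by
  obtain ⟨r, d, K, K', hK, hfin⟩ := finite_rat hP hz hc n hR hRP hN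
  choose G a hG hGK hGe using fun i => exists_form_one hX hc n (hK i).1 (hK i).2 hσ hn
  refine ⟨∏ i, G i, ∑ i, a i, IsHomogeneous.prod _ _ _ fun i _ => hG i, ?_, ?_⟩
  · intro d₁ K₁ K₁' hd₁ hK₁ w
    obtain ⟨i, hi⟩ := hfin d₁ K₁ K₁' hd₁ hK₁
    rw [map_prod]
    exact Finset.prod_eq_zero (Finset.mem_univ i) ((hi (G i) (a i) (hG i)).1 (hGK i) w)
  · have h1 : ∀ᶠ p in 𝓝 (0 : ℂ × ℂ), ∀ i, eval (σ (p.1, p.1 * p.2)).ofLp (G i) = 0 → p.1 = 0 := eventually_all.2 hGe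
    filter_upwards [h1] with p hp h2
    rw [map_prod, Finset.prod_eq_zero_iff] at h2
    obtain ⟨i, -, hi⟩ := h2
    exact hp i hi

end Pool.Agent.SG

end
end

section

/-!
# SG Can: the choice of the curve `T = {G * l = 0}` at a point of the surface
-/

set_option autoImplicit false

open Topology Filter Metric MvPolynomial

noncomputable section

namespace Pool.Agent.SG

open Pool.Agent.H36.BP (EN fs OrdTwo)
open Pool.Agent.H14.PP (IsCone CurveAt)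
open Pool.Agent.H17BP (Surface IsForm NoZeros IsChart Pr)
open Pool.Agent.H22.W (PseudoLength)
open Pool.Agent.H17EF (coneE)
open Pool.Agent.H17LG.Variety (FunField)
open Pool.Agent.H62.FC (Homog)
open Pool.Agent.UC (RatC)
open Pool.Agent.SY (NullIn zer Ent ModelS Cls)
open Pool.Agent.H36.TB (oC)

variable {N : ℕ}

/-- the tangent vectors of a chart at the base point -/
theorem tan_base {V : Type} [NormedAddCommGroup V] [NormedSpace ℂ V] {X : Set V} {σ : ℂ × ℂ → V} {τ : V → ℂ × ℂ} (hσ : IsChart X σ τ) (w : ℂ × ℂ) :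
    fderiv ℂ σ 0 w ∈ Pool.Agent.H17BP.Tan X (σ 0) := by
  have h3 : HasDerivAt (fun y : ℂ => y • w) w 0 := by
    have := (hasDerivAt_id (0 : ℂ)).smul_const w
    simpa using this
  have h4 : AnalyticAt ℂ (fun y : ℂ => y • w) 0 := by fun_prop
  have h0 : (0 : ℂ) • w = 0 := zero_smul _ _
  have h5 : AnalyticAt ℂ σ ((0 : ℂ) • w) := by rw [h0]; exact hσ.σ_an
  refine ⟨fun y => σ (y • w), AnalyticAt.fun_comp (g := σ) (f := fun y : ℂ => y • w) h5 h4, ?_, by simp, ?_⟩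
  · have h6 : Tendsto (fun y : ℂ => y • w) (𝓝 0) (𝓝 0) := by
      have := h4.continuousAt.tendsto
      rwa [h0] at this
    exact h6.eventually hσ.σ_mem
  · have h7 : HasFDerivAt σ (fderiv ℂ σ 0) ((0 : ℂ) • w) := by
      rw [h0]
      exact hσ.σ_an.differentiableAt.hasFDerivAt
    exact (h7.comp_hasDerivAt (0 : ℂ) h3).deriv

/-- a linear form, as a polynomial, which vanishes at the base point of a chart, but not on the first axis -/
private theorem can_lin {X : Set (EN N)} {σ : ℂ × ℂ → EN N} {τ : EN N → ℂ × ℂ} (hσ : IsChart X σ τ) :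
    ∃ (L : MvPolynomial (Fin (N + 1)) ℂ) (l : EN N →L[ℂ] ℂ), L.IsHomogeneous 1 ∧ (∀ x : EN N, eval x.ofLp L = l x) ∧ l (σ 0) = 0 ∧
      l (fderiv ℂ σ 0 (1, 0)) ≠ 0 := by
  have h1 : fderiv ℂ σ 0 (1, 0) ∉ Submodule.span ℂ {σ 0} := by
    intro h
    obtain ⟨a, ha⟩ := Submodule.mem_span_singleton.1 h
    have h2 := (Pool.Agent.H62.BU.toChart hσ).indep ha.symm
    simp at h2
  obtain ⟨f, hf1, hf2⟩ := Submodule.exists_dual_map_eq_bot_of_notMem h1 inferInstance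
  have hf3 : f (σ 0) = 0 := by
    have h2 : f (σ 0) ∈ (Submodule.span ℂ {σ 0}).map f := Submodule.mem_map_of_mem (Submodule.mem_span_singleton_self _)
    rw [hf2] at h2
    exact (Submodule.mem_bot ℂ).1 h2
  obtain ⟨l, hl⟩ : ∃ l : EN N →L[ℂ] ℂ, l = LinearMap.toContinuousLinearMap f := ⟨_, rfl⟩
  have hl' : ∀ x, l x = f x := fun x => by rw [hl]; rfl
  refine ⟨∑ i, C (l (EuclideanSpace.single i 1)) * MvPolynomial.X i, l, ?_, fun x => ?_, ?_, ?_⟩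
  · refine IsHomogeneous.sum _ _ _ fun i _ => ?_
    have := (isHomogeneous_C (Fin (N + 1)) (l (EuclideanSpace.single i 1))).mul (isHomogeneous_X ℂ i)
    simpa using this
  · have h3 : x = ∑ i, x.ofLp i • (EuclideanSpace.single i (1 : ℂ) : EN N) := by
      ext i
      simp [Finset.sum_apply, Pi.single_apply]
    conv_rhs => rw [h3]
    rw [map_sum, map_sum]
    refine Finset.sum_congr rfl fun i _ => ?_
    rw [map_smul, map_mul, eval_C, eval_X, smul_eq_mul, mul_comm]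
  · rw [hl', hf3]
  · rw [hl']
    exact hf1

/-- a form without zeros has a nonzero coefficient in a chart -/
theorem oC_ne_zero {V : Type} [NormedAddCommGroup V] [NormedSpace ℂ V] {X T : Set V} {Ω : V → V → V → ℂ} (hnz : NoZeros X T Ω)
    {σ : ℂ × ℂ → V} {τ : V → ℂ × ℂ} (hσ : IsChart X σ τ) (hq : σ 0 ∉ T) : oC Ω σ 0 ≠ 0 := by
  refine hnz (σ 0) hσ.σ_mem.self_of_nhds hq _ (tan_base hσ (1, 0)) _ (tan_base hσ (0, 1)) ?_
  rw [Fintype.linearIndependent_iff]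
  intro g hg
  rw [Fin.sum_univ_three] at hg
  have h1 : g 0 • σ 0 + g 1 • fderiv ℂ σ 0 (1, 0) + g 2 • fderiv ℂ σ 0 (0, 1) = 0 := hg
  have h2 : fderiv ℂ σ 0 (g 1, g 2) = (-g 0) • σ 0 := by
    have h3 : ((g 1, g 2) : ℂ × ℂ) = g 1 • ((1 : ℂ), (0 : ℂ)) + g 2 • ((0 : ℂ), (1 : ℂ)) := by
      ext <;> simp
    rw [h3, map_add, map_smul, map_smul, neg_smul, eq_neg_iff_add_eq_zero, ← h1]
    abel
  have h3 : ((g 1, g 2) : ℂ × ℂ) = 0 := (Pool.Agent.H62.BU.toChart hσ).indep h2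
  have h4 : g 1 = 0 := congrArg Prod.fst h3
  have h5 : g 2 = 0 := congrArg Prod.snd h3
  have h6 : g 0 = 0 := by
    rw [h4, h5, zero_smul, zero_smul, add_zero, add_zero, smul_eq_zero] at h1
    exact h1.resolve_right hσ.ne
  intro i
  fin_cases i
  · exact h6
  · exact h4
  · exact h5

/-- the order of a form without zeros in a sector is zero -/
theorem hord_zero {V : Type} [NormedAddCommGroup V] [NormedSpace ℂ V] {X : Set V} {m j : ℕ} {Ω : V → V → V → ℂ} (hΩ : IsForm X m j Ω)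
    {T : Set V} (hnz : NoZeros X T Ω) {σ : ℂ × ℂ → V} {τ : V → ℂ × ℂ} (hσ : IsChart X σ τ) (hq : σ 0 ∉ T) :
    ∃ B : ℝ, 1 ≤ B ∧ ∀ᶠ p in 𝓝 (0 : ℂ × ℂ), ‖p.1‖ ^ 0 ≤ B * ‖oC Ω σ (p.1, p.1 * p.2)‖ ∧ ‖oC Ω σ (p.1, p.1 * p.2)‖ ≤ B * ‖p.1‖ ^ 0 := by
  have h1 : AnalyticAt ℂ (oC Ω σ) 0 := hΩ.analytic σ 0 hσ.σ_an hσ.σ_mem
  have h2 : ‖oC Ω σ 0‖ > 0 := norm_pos_iff.2 (oC_ne_zero hnz hσ hq)
  have ht : Tendsto (fun p : ℂ × ℂ => (p.1, p.1 * p.2)) (𝓝 0) (𝓝 0) := by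
    have h : Continuous fun p : ℂ × ℂ => (p.1, p.1 * p.2) := by fun_prop
    have h1 := h.tendsto 0
    have h2 : (((0 : ℂ × ℂ).1, (0 : ℂ × ℂ).1 * (0 : ℂ × ℂ).2) : ℂ × ℂ) = 0 := by simp
    rwa [h2] at h1
  have h3 : Tendsto (fun p : ℂ × ℂ => ‖oC Ω σ (p.1, p.1 * p.2)‖) (𝓝 0) (𝓝 ‖oC Ω σ 0‖) := (h1.continuousAt.tendsto.comp ht).norm
  obtain ⟨B, hB⟩ : ∃ B, B = 2 * (‖oC Ω σ 0‖ + 1 + ‖oC Ω σ 0‖⁻¹) := ⟨_, rfl⟩
  have h4 : 0 < ‖oC Ω σ 0‖⁻¹ := inv_pos.2 h2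
  refine ⟨B, by linarith, ?_⟩
  filter_upwards [h3.eventually (lt_mem_nhds (half_lt_self h2)), h3.eventually (gt_mem_nhds (show ‖oC Ω σ 0‖ < 2 * ‖oC Ω σ 0‖ by linarith))] with p hp1 hp2
  rw [pow_zero]
  constructor
  · have h5 : 2 * ‖oC Ω σ 0‖⁻¹ ≤ B := by linarith
    calc (1 : ℝ) = 2 * ‖oC Ω σ 0‖⁻¹ * (‖oC Ω σ 0‖ / 2) := by field_simp
      _ ≤ B * ‖oC Ω σ (p.1, p.1 * p.2)‖ := mul_le_mul h5 hp1.le (by positivity) (by linarith)
  · linarith

variable {P : Ideal (MvPolynomial (Fin (N + 1)) ℂ)}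

/-- a point outside the curve `zer P Q` near the base point of a chart: the form is not in the ideal -/
theorem notMem_of_cone {σ : ℂ × ℂ → EN N} {τ : EN N → ℂ × ℂ} (hσ : IsChart (coneE P) σ τ) {Q : MvPolynomial (Fin (N + 1)) ℂ}
    (h : ∀ᶠ p in 𝓝 (0 : ℂ × ℂ), eval (σ (p.1, p.1 * p.2)).ofLp Q = 0 → p.1 = 0) : Q ∉ P := by
  intro hQ
  have h1 : Tendsto (fun p : ℂ × ℂ => (p.1, p.1 * p.2)) (𝓝 0) (𝓝 0) := by
    have h : Continuous fun p : ℂ × ℂ => (p.1, p.1 * p.2) := by fun_prop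
    have h1 := h.tendsto 0
    have h2 : (((0 : ℂ × ℂ).1, (0 : ℂ × ℂ).1 * (0 : ℂ × ℂ).2) : ℂ × ℂ) = 0 := by simp
    rwa [h2] at h1
  have h2 : ∀ᶠ p in 𝓝 (0 : ℂ × ℂ), p.1 = 0 := by
    filter_upwards [h, h1.eventually hσ.σ_mem] with p hp hp2
    exact hp (hp2.2 Q hQ)
  have h3 : Tendsto (fun c : ℂ => (c, (0 : ℂ))) (𝓝[≠] 0) (𝓝 (0 : ℂ × ℂ)) := by
    have : Continuous fun c : ℂ => (c, (0 : ℂ)) := by fun_prop
    exact (this.tendsto 0).mono_left nhdsWithin_le_nhds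
  obtain ⟨c, hc1, hc2⟩ := ((h3.eventually h2).and self_mem_nhdsWithin).exists
  exact hc2 hc1

/-- **The curve `T` at the base point of a chart.**  `Q₁ = 0` is a curve without points in a small sector around the first axis, outside which `Ω` has no
zeros.  The curve `T = zer P Q` contains it and all the rational curves, passes through the base point `σ 0` and has no points in the sector. -/
theorem exists_curve_of [P.IsPrime] (hP : Homog P) {z : Fin 2 → FunField P} (hz : IsTranscendenceBasis ℂ z)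
    (hX : Surface (coneE P)) (n : PseudoLength (coneE P)) {R : MvPolynomial (Fin (N + 1)) ℂ} {e : ℕ} (hR : R.IsHomogeneous e) (hRP : R ∉ P)
    (hN : NullIn P n R) {Ω : EN N → EN N → EN N → ℂ} {Q₁ : MvPolynomial (Fin (N + 1)) ℂ} {D₁ : ℕ} (hQ₁ : Q₁.IsHomogeneous D₁)
    (hnz : NoZeros (coneE P) (zer P Q₁) Ω) {σ : ℂ × ℂ → EN N} {τ : EN N → ℂ × ℂ} (hσ : IsChart (coneE P) σ τ)
    (hn : n.toFun (σ 0) (fderiv ℂ σ 0 (1, 0)) ≠ 0) (hT₁ : ∀ᶠ p in 𝓝 (0 : ℂ × ℂ), p.1 ≠ 0 → σ (p.1, p.1 * p.2) ∉ zer P Q₁) :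
    ∃ (Q : MvPolynomial (Fin (N + 1)) ℂ) (D : ℕ), 1 ≤ D ∧ Q.IsHomogeneous D ∧ Q ∉ P ∧ NoZeros (coneE P) (zer P Q) Ω ∧ zer P Q₁ ⊆ zer P Q ∧
      σ 0 ∈ zer P Q ∧ (∀ᶠ p in 𝓝 (0 : ℂ × ℂ), p.1 ≠ 0 → σ (p.1, p.1 * p.2) ∉ zer P Q) ∧
      ∀ (d : ℕ) (K K' : ℂ → EN N), 1 ≤ d → RatC (coneE P) d K K' → ∀ z, K z ∈ zer P Q := by
  obtain ⟨G, a, hG, hG1, hG2⟩ := exists_form hP hz hX (isCone_of_surface hX) n hR hRP hN hσ hn
  obtain ⟨L, l, hL, hl, hl0, hl1⟩ := can_lin hσ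
  obtain ⟨ε, hε, hcone⟩ := lin_cone hσ.σ_an hl0 hl1
  have ht : Tendsto (fun p : ℂ × ℂ => (p.1, p.1 * p.2)) (𝓝 0) (𝓝 0) := by
    have h : Continuous fun p : ℂ × ℂ => (p.1, p.1 * p.2) := by fun_prop
    have h1 := h.tendsto 0
    have h2 : (((0 : ℂ × ℂ).1, (0 : ℂ × ℂ).1 * (0 : ℂ × ℂ).2) : ℂ × ℂ) = 0 := by simp
    rwa [h2] at h1
  have hsmall : ∀ᶠ p : ℂ × ℂ in 𝓝 0, ‖p.2‖ < ε := by
    have h1 : Continuous fun p : ℂ × ℂ => ‖p.2‖ := by fun_prop
    have h2 := h1.tendsto 0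
    simp only [Prod.snd_zero, norm_zero] at h2
    exact h2.eventually (gt_mem_nhds hε)
  have hmem : ∀ᶠ p in 𝓝 (0 : ℂ × ℂ), σ (p.1, p.1 * p.2) ∈ coneE P := ht.eventually hσ.σ_mem
  have hL2 : ∀ᶠ p in 𝓝 (0 : ℂ × ℂ), eval (σ (p.1, p.1 * p.2)).ofLp L = 0 → p.1 = 0 := by
    filter_upwards [ht.eventually hcone, hsmall] with p hp hp2 hp3
    by_contra h0
    refine hp ?_ ?_
    · show ‖p.1 * p.2‖ < ε * ‖p.1‖
      rw [norm_mul, mul_comm]
      exact mul_lt_mul_of_pos_right hp2 (norm_pos_iff.2 h0)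
    · rw [← hl]
      exact hp3
  have hall : ∀ᶠ p in 𝓝 (0 : ℂ × ℂ), eval (σ (p.1, p.1 * p.2)).ofLp (Q₁ * G * L) = 0 → p.1 = 0 := by
    filter_upwards [hG2, hL2, hT₁, hmem] with p h1 h2 h3 h4 h5
    by_contra h0
    rw [map_mul, map_mul, mul_eq_zero, mul_eq_zero] at h5
    rcases h5 with (h5 | h5) | h5
    · exact h3 h0 ⟨h4, h5⟩
    · exact h0 (h1 h5)
    · exact h0 (h2 h5)
  have hsub : zer P Q₁ ⊆ zer P (Q₁ * G * L) := fun x hx => ⟨hx.1, by rw [map_mul, map_mul, hx.2, zero_mul, zero_mul]⟩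
  refine ⟨Q₁ * G * L, D₁ + a + 1, by omega, (hQ₁.mul hG).mul hL, notMem_of_cone hσ hall,
    fun x hx hx2 => hnz x hx fun h => hx2 (hsub h), hsub, ⟨hσ.σ_mem.self_of_nhds, ?_⟩, ?_, ?_⟩
  · rw [map_mul, hl, hl0, mul_zero]
  · filter_upwards [hall] with p h1 h3 h4
    exact h3 (h1 h4.2)
  · intro d K K' hd hK w
    refine ⟨hK.mem w, ?_⟩
    rw [map_mul, map_mul, hG1 d K K' hd hK w, mul_zero, zero_mul]

end Pool.Agent.SG

end
end

section

/-!
# SG2 NegS: a curve of positive length is transversal to the negative curve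

`χ = τ ∘ σ'` is the change of coordinates.  There is no point of `{Q = 0}` in the sector around the direction `(1, 0)` of the chart `σ'`: its points lie on
rational curves (`SG/RX.exists_form`).  Hence the first component of `Dχ(0) (1, 0) = (τ ∘ H)'(0)` is not zero, `‖p.1‖ ≤ C ‖(χ (p.1, p.1 p.2)).1‖`, and
`‖oC Ω σ (χ p)‖ ≤ C ‖oC Ω σ' p‖`.
-/

set_option autoImplicit false

open Topology Filter Metric MvPolynomial

noncomputable section

namespace Pool.Agent.SG2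

open Pool.Agent.H36.BP (EN)
open Pool.Agent.H14.PP (IsCone CurveAt)
open Pool.Agent.H17BP (Surface IsChart Pr IsForm NoZeros)
open Pool.Agent.H22.W (PseudoLength)
open Pool.Agent.H17EF (coneE)
open Pool.Agent.H17LG.Variety (FunField)
open Pool.Agent.H62.FC (Homog)
open Pool.Agent.UC (RatC)
open Pool.Agent.H36.TB (oC jc jc_cont exists_fac)
open Pool.Agent.SY (NullIn zer)
open Pool.Agent.SG (fderiv_tau_comp fderiv_tau_self tau_zero)

section lin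

variable {V : Type} [NormedAddCommGroup V] [NormedSpace ℂ V] {X : Set V} {σ σ' : ℂ × ℂ → V} {τ τ' : V → ℂ × ℂ}

theorem tendsto_sector : Tendsto (fun p : ℂ × ℂ => (p.1, p.1 * p.2)) (𝓝 0) (𝓝 (0 : ℂ × ℂ)) := by
  have h1 : Continuous fun p : ℂ × ℂ => (p.1, p.1 * p.2) := by fun_prop
  have h2 := h1.tendsto 0
  have h3 : (((0 : ℂ × ℂ).1, (0 : ℂ × ℂ).1 * (0 : ℂ × ℂ).2) : ℂ × ℂ) = 0 := by simp
  rwa [h3] at h2

/-- the change of coordinates of two charts at the same point -/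
structure Chg (σ σ' : ℂ × ℂ → V) (τ : V → ℂ × ℂ) (c : ℂ × ℂ → ℂ) (χ : ℂ × ℂ → ℂ × ℂ) : Prop where
  c_an : AnalyticAt ℂ c 0
  c_zero : c 0 = 1
  χ_eq : χ = fun p => τ (σ' p)
  an : AnalyticAt ℂ χ 0
  zero : χ 0 = 0
  fac : ∀ᶠ p in 𝓝 (0 : ℂ × ℂ), σ' p = c p • σ (χ p)

theorem exists_chg (hX : ∀ x ∈ X, ∀ c : ℂ, c ≠ 0 → c • x ∈ X) (h : IsChart X σ τ) (h' : IsChart X σ' τ') (h0 : σ' 0 = σ 0) :
    ∃ c χ, Chg σ σ' τ c χ := by
  obtain ⟨c, h1, h2, h3, h4, h5⟩ := exists_fac hX h one_ne_zero h'.σ_an h'.σ_mem (by rw [one_smul]; exact h0)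
  simp only [inv_one, one_smul] at h3 h4 h5
  exact ⟨c, _, h1, h2, rfl, h3, h4, h5⟩

variable {c : ℂ × ℂ → ℂ} {χ : ℂ × ℂ → ℂ × ℂ}

theorem Chg.tendsto (g : Chg σ σ' τ c χ) : Tendsto χ (𝓝 0) (𝓝 0) := by
  have := g.an.continuousAt.tendsto
  rwa [g.zero] at this

/-- the derivatives at the point -/
theorem Chg.fderiv_eq (g : Chg σ σ' τ c χ) (h : IsChart X σ τ) (w : ℂ × ℂ) :
    fderiv ℂ σ' 0 w = fderiv ℂ σ 0 (fderiv ℂ χ 0 w) + fderiv ℂ c 0 w • σ 0 := by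
  have h1 : HasFDerivAt σ (fderiv ℂ σ 0) (χ 0) := by rw [g.zero]; exact h.σ_an.differentiableAt.hasFDerivAt
  have h2 : HasFDerivAt (fun y => σ (χ y)) ((fderiv ℂ σ 0).comp (fderiv ℂ χ 0)) 0 :=
    HasFDerivAt.comp (g := σ) (f := χ) 0 h1 g.an.differentiableAt.hasFDerivAt
  have h3 := (g.c_an.differentiableAt.hasFDerivAt.smul h2).congr_of_eventuallyEq g.fac
  rw [h3.fderiv]
  simp [g.c_zero, g.zero]

/-- the derivative of `χ` is injective -/
theorem Chg.inj (g : Chg σ σ' τ c χ) (h : IsChart X σ τ) (h' : IsChart X σ' τ') (h0 : σ' 0 = σ 0) {w : ℂ × ℂ} (hw : fderiv ℂ χ 0 w = 0) : w = 0 := by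
  have h1 := g.fderiv_eq h w
  rw [hw, map_zero, zero_add, ← h0] at h1
  have h2 := fderiv_tau_comp h' w
  rw [h1, map_smul, fderiv_tau_self h', smul_zero] at h2
  exact h2.symm

theorem Chg.jc_ne (g : Chg σ σ' τ c χ) (h : IsChart X σ τ) (h' : IsChart X σ' τ') (h0 : σ' 0 = σ 0) : jc χ 0 ≠ 0 := by
  intro hj
  set A := fderiv ℂ χ 0 (1, 0) with hA
  set B := fderiv ℂ χ 0 (0, 1) with hB
  have hj' : A.1 * B.2 - A.2 * B.1 = 0 := hj
  have hlin : ∀ a b : ℂ, fderiv ℂ χ 0 (a, b) = (a * A.1 + b * B.1, a * A.2 + b * B.2) := by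
    intro a b
    have e1 : ((a, b) : ℂ × ℂ) = a • (1, 0) + b • (0, 1) := by ext <;> simp
    rw [e1, map_add, map_smul, map_smul, ← hA, ← hB]
    ext <;> simp
  have k1 := g.inj h h' h0 (w := (B.2, -A.2)) (by
    rw [hlin]
    ext
    · simp only [Prod.fst_zero]; linear_combination hj'
    · simp only [Prod.snd_zero]; ring)
  have k2 := g.inj h h' h0 (w := (B.1, -A.1)) (by
    rw [hlin]
    ext
    · simp only [Prod.fst_zero]; ring
    · simp only [Prod.snd_zero]; linear_combination (-1) * hj')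
  rw [Prod.mk_eq_zero, neg_eq_zero] at k1 k2
  have k3 := g.inj h h' h0 (w := (1, 0)) (by rw [← hA]; exact Prod.ext k2.2 k1.2)
  rw [Prod.mk_eq_zero] at k3
  exact one_ne_zero k3.1

/-- the coefficient of the form in the two charts -/
theorem Chg.oC_le (g : Chg σ σ' τ c χ) (hX : ∀ x ∈ X, ∀ c : ℂ, c ≠ 0 → c • x ∈ X) (h : IsChart X σ τ) (h' : IsChart X σ' τ') (h0 : σ' 0 = σ 0)
    [CompleteSpace V] {m j : ℕ} {Ω : V → V → V → ℂ} (hΩ : IsForm X m j Ω) :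
    ∃ B : ℝ, 0 < B ∧ ∀ᶠ p in 𝓝 (0 : ℂ × ℂ), ‖oC Ω σ (χ p)‖ ≤ B * ‖oC Ω σ' p‖ := by
  have hj := g.jc_ne h h' h0
  have hc0 : c 0 ≠ 0 := by rw [g.c_zero]; exact one_ne_zero
  have hq : ContinuousAt (fun p => c p ^ j / jc χ p ^ m) 0 :=
    (g.c_an.continuousAt.pow j).div ((jc_cont g.an).pow m) (pow_ne_zero _ hj)
  refine ⟨‖c 0 ^ j / jc χ 0 ^ m‖ + 1, by positivity, ?_⟩
  filter_upwards [hq.norm.eventually_lt_const (lt_add_one _), g.fac.eventually_nhds, g.c_an.eventually_analyticAt,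
    g.an.eventually_analyticAt, g.tendsto.eventually h.σ_an.eventually_analyticAt, g.tendsto.eventually h.σ_mem.eventually_nhds,
    g.c_an.continuousAt.eventually_ne hc0, (jc_cont g.an).eventually_ne hj] with p h1 h2 h3 h4 h5 h6 h7 h8
  have h9 := Pool.Agent.H36.TB.oC_comp hX hΩ h3 h4 h5 h6 h7 h2
  have h10 : oC Ω σ (χ p) = c p ^ j / jc χ p ^ m * oC Ω σ' p := by
    rw [div_mul_eq_mul_div, h9, mul_div_cancel_left₀ _ (pow_ne_zero _ h8)]
  rw [h10, norm_mul]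
  exact mul_le_mul_of_nonneg_right h1.le (norm_nonneg _)

/-- the direction of a curve in the two charts -/
theorem Chg.dir (g : Chg σ σ' τ c χ) (hX : ∀ x ∈ X, ∀ c : ℂ, c ≠ 0 → c • x ∈ X) (h : IsChart X σ τ) (h' : IsChart X σ' τ') (h0 : σ' 0 = σ 0)
    {H : ℂ → V} (hH : AnalyticAt ℂ H 0) (hHX : ∀ᶠ z in 𝓝 (0 : ℂ), H z ∈ X) (hH0 : H 0 = σ' 0) :
    deriv (fun z => τ (H z)) 0 = fderiv ℂ χ 0 (deriv (fun z => τ' (H z)) 0) := by
  have hfst : HasFDerivAt (fun p : ℂ × ℂ => p.1) (ContinuousLinearMap.fst ℂ ℂ ℂ) 0 := hasFDerivAt_fst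
  have hψ : AnalyticAt ℂ (fun p : ℂ × ℂ => H p.1) 0 := AnalyticAt.comp (g := H) (f := fun p : ℂ × ℂ => p.1) hH analyticAt_fst
  have hψX : ∀ᶠ p in 𝓝 (0 : ℂ × ℂ), H p.1 ∈ X := by
    have h1 : Tendsto (fun p : ℂ × ℂ => p.1) (𝓝 0) (𝓝 (0 : ℂ)) := continuous_fst.tendsto _
    exact h1.eventually hHX
  obtain ⟨c₁, k1, k2, k3, k4, k5⟩ := exists_fac hX h' one_ne_zero hψ hψX (by rw [one_smul]; exact hH0)
  simp only [inv_one, one_smul] at k3 k4 k5
  have g₁ : Chg σ' (fun p : ℂ × ℂ => H p.1) τ' c₁ (fun p : ℂ × ℂ => τ' (H p.1)) := ⟨k1, k2, rfl, k3, k4, k5⟩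
  have hτ'an : AnalyticAt ℂ (fun z => τ' (H z)) 0 := by
    have : AnalyticAt ℂ τ' (H 0) := by rw [hH0]; exact h'.τ_an
    exact AnalyticAt.comp (g := τ') (f := H) this hH
  have e1 : fderiv ℂ (fun p : ℂ × ℂ => H p.1) 0 (1, 0) = deriv H 0 := by
    have h1 : HasFDerivAt H (ContinuousLinearMap.toSpanSingleton ℂ (deriv H 0)) ((fun p : ℂ × ℂ => p.1) 0) :=
      hH.differentiableAt.hasDerivAt.hasFDerivAt
    have h2 := h1.comp 0 hfst
    have h3 : HasFDerivAt (fun p : ℂ × ℂ => H p.1) _ 0 := h2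
    rw [h3.fderiv]
    simp
  have e2 : fderiv ℂ (fun p : ℂ × ℂ => τ' (H p.1)) 0 (1, 0) = deriv (fun z => τ' (H z)) 0 := by
    have h1 : HasFDerivAt (fun z => τ' (H z)) (ContinuousLinearMap.toSpanSingleton ℂ (deriv (fun z => τ' (H z)) 0)) ((fun p : ℂ × ℂ => p.1) 0) :=
      hτ'an.differentiableAt.hasDerivAt.hasFDerivAt
    have h2 := h1.comp 0 hfst
    have h3 : HasFDerivAt (fun p : ℂ × ℂ => τ' (H p.1)) _ 0 := h2
    rw [h3.fderiv]
    simp
  have e3 := g₁.fderiv_eq h' (1, 0)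
  rw [e1, e2] at e3
  have e4 : deriv (fun z => τ (H z)) 0 = fderiv ℂ τ (σ 0) (deriv H 0) := by
    have h2 : HasFDerivAt τ (fderiv ℂ τ (σ 0)) (H 0) := by
      rw [hH0, h0]; exact h.τ_an.differentiableAt.hasFDerivAt
    exact (h2.comp_hasDerivAt 0 hH.differentiableAt.hasDerivAt).deriv
  rw [e4, e3, map_add, map_smul, h0, fderiv_tau_self h, smul_zero, add_zero, g.fderiv_eq h, map_add, map_smul, fderiv_tau_self h,
    smul_zero, add_zero, fderiv_tau_comp h]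

/-- in the sector the first coordinates of the two charts are comparable -/
theorem Chg.fst_le (g : Chg σ σ' τ c χ) (hw : (fderiv ℂ χ 0 (1, 0)).1 ≠ 0) :
    ∀ᶠ p in 𝓝 (0 : ℂ × ℂ), ‖p.1‖ ≤ 2 / ‖(fderiv ℂ χ 0 (1, 0)).1‖ * ‖(χ (p.1, p.1 * p.2)).1‖ := by
  set L := fderiv ℂ χ 0 with hL
  have hw0 : 0 < ‖(L (1, 0)).1‖ := norm_pos_iff.2 hw
  have h1 : HasFDerivAt χ L 0 := g.an.differentiableAt.hasFDerivAt
  have h2 := (hasFDerivAt_iff_isLittleO_nhds_zero.1 h1).def (show 0 < ‖(L (1, 0)).1‖ / 4 by positivity)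
  have hs : Tendsto (fun p : ℂ × ℂ => (p.1, p.1 * p.2)) (𝓝 0) (𝓝 (0 : ℂ × ℂ)) := tendsto_sector
  have h3 : ∀ᶠ p in 𝓝 (0 : ℂ × ℂ), ‖p.2‖ ≤ 1 := by
    have : Tendsto (fun p : ℂ × ℂ => ‖p.2‖) (𝓝 0) (𝓝 ‖(0 : ℂ × ℂ).2‖) := (continuous_snd.norm).tendsto _
    rw [Prod.snd_zero, norm_zero] at this
    exact (this.eventually (gt_mem_nhds one_pos)).mono fun p hp => hp.le
  have h4 : ∀ᶠ p in 𝓝 (0 : ℂ × ℂ), ‖p.2‖ * ‖(L (0, 1)).1‖ ≤ ‖(L (1, 0)).1‖ / 4 := by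
    have : Tendsto (fun p : ℂ × ℂ => ‖p.2‖ * ‖(L (0, 1)).1‖) (𝓝 0) (𝓝 (‖(0 : ℂ × ℂ).2‖ * ‖(L (0, 1)).1‖)) :=
      ((continuous_snd.norm).mul continuous_const).tendsto _
    rw [Prod.snd_zero, norm_zero, zero_mul] at this
    exact (this.eventually (gt_mem_nhds (show (0 : ℝ) < ‖(L (1, 0)).1‖ / 4 by positivity))).mono fun p hp => hp.le
  filter_upwards [hs.eventually h2, h3, h4] with p g2 g3 g4
  simp only [zero_add, g.zero, sub_zero] at g2
  have e1 : L (p.1, p.1 * p.2) = p.1 • L (1, 0) + (p.1 * p.2) • L (0, 1) := by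
    rw [← map_smul, ← map_smul, ← map_add]
    congr 1
    ext <;> simp
  have e2 : ‖((p.1, p.1 * p.2) : ℂ × ℂ)‖ ≤ ‖p.1‖ := by
    rw [Prod.norm_def]
    refine max_le le_rfl ?_
    rw [norm_mul]
    exact mul_le_of_le_one_right (norm_nonneg _) g3
  have e3 : ‖(χ (p.1, p.1 * p.2)).1 - (L (p.1, p.1 * p.2)).1‖ ≤ ‖(L (1, 0)).1‖ / 4 * ‖p.1‖ := by
    refine le_trans (norm_fst_le (χ (p.1, p.1 * p.2) - L (p.1, p.1 * p.2))) (g2.trans ?_)
    gcongr
  have e4 : (L (p.1, p.1 * p.2)).1 = p.1 * (L (1, 0)).1 + p.1 * (p.2 * (L (0, 1)).1) := by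
    rw [e1]
    simp only [Prod.fst_add, Prod.smul_fst, smul_eq_mul]
    ring
  have e5 : ‖p.1 * (p.2 * (L (0, 1)).1)‖ ≤ ‖p.1‖ * (‖(L (1, 0)).1‖ / 4) := by
    rw [norm_mul, norm_mul]
    gcongr
  have e6 : ‖p.1 * (L (1, 0)).1‖ ≤ ‖(χ (p.1, p.1 * p.2)).1‖ + ‖(χ (p.1, p.1 * p.2)).1 - (L (p.1, p.1 * p.2)).1‖ +
      ‖p.1 * (p.2 * (L (0, 1)).1)‖ := by
    have : p.1 * (L (1, 0)).1 = (χ (p.1, p.1 * p.2)).1 - ((χ (p.1, p.1 * p.2)).1 - (L (p.1, p.1 * p.2)).1) - p.1 * (p.2 * (L (0, 1)).1) := by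
      rw [e4]; ring
    calc ‖p.1 * (L (1, 0)).1‖ = _ := by rw [this]
      _ ≤ _ := (norm_sub_le _ _).trans (add_le_add_left (norm_sub_le _ _) _)
  rw [norm_mul] at e6
  have e7 : ‖p.1‖ * ‖(L (1, 0)).1‖ ≤ 2 * ‖(χ (p.1, p.1 * p.2)).1‖ := by nlinarith
  rw [div_mul_eq_mul_div, le_div_iff₀ hw0]
  exact e7

end lin

section main

variable {N : ℕ} {P : Ideal (MvPolynomial (Fin (N + 1)) ℂ)}

theorem neg_sector [P.IsPrime] {z : Fin 2 → FunField P} (hP : Homog P) (hz : IsTranscendenceBasis ℂ z) (hX : Surface (coneE P)) (hc : IsCone (coneE P))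
    (n : PseudoLength (coneE P)) {R : MvPolynomial (Fin (N + 1)) ℂ} {e : ℕ} (hR : R.IsHomogeneous e) (hRP : R ∉ P) (hN : NullIn P n R)
    {m j : ℕ} {Ω : EN N → EN N → EN N → ℂ} {Q : MvPolynomial (Fin (N + 1)) ℂ} {D μ : ℕ} {σ : ℂ × ℂ → EN N} {τ : EN N → ℂ × ℂ}
    (h : NegAt P m j Ω Q D μ σ τ) {H : ℂ → EN N} (hH : CurveAt (coneE P) H 0) (h0 : σ 0 = H 0) {σ' : ℂ × ℂ → EN N} {τ' : EN N → ℂ × ℂ}
    (hσ' : IsChart (coneE P) σ' τ') (h0' : σ' 0 = H 0) (hd : deriv (fun z => τ' (H z)) 0 = (1, 0))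
    (hn : n.toFun (σ' 0) (fderiv ℂ σ' 0 (1, 0)) ≠ 0) :
    (∀ᶠ p in 𝓝 (0 : ℂ × ℂ), eval (σ' (p.1, p.1 * p.2)).ofLp Q = 0 → p.1 = 0) ∧
      (∃ B : ℝ, ∀ᶠ p in 𝓝 (0 : ℂ × ℂ), ‖p.1‖ ^ μ ≤ B * ‖oC Ω σ' (p.1, p.1 * p.2)‖) ∧ (deriv (fun z => τ (H z)) 0).1 ≠ 0 := by
  have hXs := hX.smul
  have h00 : σ' 0 = σ 0 := h0'.trans h0.symm
  obtain ⟨c, χ, g⟩ := exists_chg hXs h.chart hσ' h00
  obtain ⟨G, a, hG, hGK, hGs⟩ := Pool.Agent.SG.exists_form hP hz hX hc n hR hRP hN hσ' hn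
  have hsc : ∀ {F : MvPolynomial (Fin (N + 1)) ℂ} {a : ℕ}, F.IsHomogeneous a → ∀ (b : ℂ) (y : EN N), eval (b • y).ofLp F = b ^ a * eval y.ofLp F := by
    intro F a hF b y
    exact Pool.Agent.H17EF.eval_smul_form hF b y.ofLp
  have hs : Tendsto (fun p : ℂ × ℂ => (p.1, p.1 * p.2)) (𝓝 0) (𝓝 (0 : ℂ × ℂ)) := tendsto_sector
  have hσ't : Tendsto σ' (𝓝 0) (𝓝 (σ 0)) := by
    have := hσ'.σ_an.continuousAt.tendsto
    rwa [h00] at this
  -- no point of the curve in the sector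
  have hA : ∀ᶠ p in 𝓝 (0 : ℂ × ℂ), eval (σ' (p.1, p.1 * p.2)).ofLp Q = 0 → p.1 = 0 := by
    filter_upwards [hGs, (hσ't.comp hs).eventually h.cover, hs.eventually hσ'.σ_mem] with p h1 h2 h3 h4
    obtain ⟨d, K, K', w, hd1, hK, b, hb, he⟩ := h2 ⟨h3, h4⟩
    apply h1
    have h5 := hGK d K K' hd1 hK w
    rw [he, hsc hG] at h5
    exact (mul_eq_zero.1 h5).resolve_left (pow_ne_zero _ hb)
  -- the direction
  have hdir : deriv (fun z => τ (H z)) 0 = fderiv ℂ χ 0 (1, 0) := by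
    rw [g.dir hXs h.chart hσ' h00 hH.1 hH.2 h0'.symm, hd]
  have hw : (fderiv ℂ χ 0 (1, 0)).1 ≠ 0 := by
    intro hw1
    obtain ⟨b, hb⟩ : ∃ b, b = (fderiv ℂ χ 0 (1, 0)).2 := ⟨_, rfl⟩
    have hw2 : fderiv ℂ χ 0 (1, 0) = (0, b) := Prod.ext hw1 hb.symm
    have hb0 : b ≠ 0 := by
      rintro rfl
      have := g.inj h.chart hσ' h00 (w := (1, 0)) hw2
      rw [Prod.mk_eq_zero] at this
      exact one_ne_zero this.1
    -- the curve `{p.1 = 0}` in the chart `σ'`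
    have k1 := g.fderiv_eq h.chart (1, 0)
    rw [hw2] at k1
    have k2 := fderiv_tau_comp hσ' (1, 0)
    rw [k1, map_add, map_smul, ← h00, fderiv_tau_self hσ', smul_zero, add_zero] at k2
    have k3 : ((0, b) : ℂ × ℂ) = b • (0, 1) := by ext <;> simp
    rw [k3, map_smul, map_smul] at k2
    have k4 : HasDerivAt (fun t : ℂ => τ' (σ (0, t))) (fderiv ℂ τ' (σ' 0) (fderiv ℂ σ 0 (0, 1))) 0 := by
      have k5 : HasDerivAt (fun t : ℂ => ((0 : ℂ), t)) ((0 : ℂ), (1 : ℂ)) 0 := (hasDerivAt_const _ _).prodMk (hasDerivAt_id _)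
      have k6 : HasFDerivAt σ (fderiv ℂ σ 0) ((0 : ℂ), (0 : ℂ)) := h.chart.σ_an.differentiableAt.hasFDerivAt
      have k7 : HasDerivAt (fun t : ℂ => σ (0, t)) (fderiv ℂ σ 0 (0, 1)) 0 := k6.comp_hasDerivAt 0 k5
      have k8 : HasFDerivAt τ' (fderiv ℂ τ' (σ' 0)) (σ ((0 : ℂ), (0 : ℂ))) := by
        have : σ ((0 : ℂ), (0 : ℂ)) = σ' 0 := h00.symm
        rw [this]
        exact hσ'.τ_an.differentiableAt.hasFDerivAt
      exact k8.comp_hasDerivAt 0 k7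
    have k9 : fderiv ℂ τ' (σ' 0) (fderiv ℂ σ 0 (0, 1)) = (b⁻¹, 0) := by
      have : fderiv ℂ τ' (σ' 0) (fderiv ℂ σ 0 (0, 1)) = b⁻¹ • ((1, 0) : ℂ × ℂ) := by
        rw [← k2, smul_smul, inv_mul_cancel₀ hb0, one_smul]
      rw [this]
      ext <;> simp
    rw [k9] at k4
    have k10 : τ' (σ (0, 0)) = 0 := by
      have : σ ((0 : ℂ), (0 : ℂ)) = σ' 0 := h00.symm
      rw [this]
      exact hσ'.left.self_of_nhds
    have k11 := hasDerivAt_iff_tendsto_slope_zero.1 k4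
    simp only [zero_add, k10, sub_zero] at k11
    obtain ⟨q, hq⟩ : ∃ q : ℂ → ℂ × ℂ, q = fun t => τ' (σ (0, t)) := ⟨_, rfl⟩
    have k12 : Tendsto (fun t : ℂ => t⁻¹ • q t) (𝓝[≠] 0) (𝓝 (b⁻¹, 0)) := by rw [hq]; exact k11
    have k13 : Tendsto (fun t : ℂ => t⁻¹ * (q t).1) (𝓝[≠] 0) (𝓝 b⁻¹) := (continuous_fst.tendsto _).comp k12
    have k14 : Tendsto (fun t : ℂ => t⁻¹ * (q t).2) (𝓝[≠] 0) (𝓝 0) := (continuous_snd.tendsto _).comp k12
    have k15 : Tendsto q (𝓝[≠] 0) (𝓝 0) := by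
      have := k4.continuousAt.tendsto.mono_left (nhdsWithin_le_nhds (s := {0}ᶜ))
      rw [k10] at this
      rw [hq]
      exact this
    have k16 : ∀ᶠ t in 𝓝[≠] (0 : ℂ), (q t).1 ≠ 0 := by
      filter_upwards [k13.eventually_ne (inv_ne_zero hb0)] with t ht h1
      apply ht
      rw [h1, mul_zero]
    have k17 : Tendsto (fun t : ℂ => (q t).2 / (q t).1) (𝓝[≠] 0) (𝓝 0) := by
      have := k14.div k13 (inv_ne_zero hb0)
      rw [zero_div] at this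
      refine this.congr' ?_
      filter_upwards [self_mem_nhdsWithin] with t ht
      have ht0 : t ≠ 0 := ht
      show t⁻¹ * (q t).2 / (t⁻¹ * (q t).1) = _
      rw [mul_div_mul_left _ _ (inv_ne_zero ht0)]
    have k18 : Tendsto (fun t : ℂ => ((q t).1, (q t).2 / (q t).1)) (𝓝[≠] 0) (𝓝 (0 : ℂ × ℂ)) := by
      have k19 : Tendsto (fun t : ℂ => (q t).1) (𝓝[≠] 0) (𝓝 (0 : ℂ × ℂ).1) := (continuous_fst.tendsto _).comp k15
      exact k19.prodMk_nhds k17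
    have k20 : Tendsto (fun t : ℂ => ((0 : ℂ), t)) (𝓝[≠] 0) (𝓝 (0 : ℂ × ℂ)) := by
      have : Continuous fun t : ℂ => ((0 : ℂ), t) := by fun_prop
      exact (this.tendsto 0).mono_left nhdsWithin_le_nhds
    obtain ⟨R₁, -, -, hred⟩ := h.red
    have k21 : ∀ᶠ y in 𝓝 (σ 0), y ∈ coneE P → ∃ c : ℂ, c ≠ 0 ∧ y = c • σ' (τ' y) := by
      rw [← h00]
      exact hσ'.right
    have k22 : Tendsto σ (𝓝 0) (𝓝 (σ 0)) := h.chart.σ_an.continuousAt.tendsto
    obtain ⟨t, t1, t2, t3, t4, t5⟩ := ((k18.eventually hA).and (k16.and ((k20.eventually hred).and ((k20.eventually h.chart.σ_mem).and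
      (k20.eventually (k22.eventually k21)))))).exists
    simp only at t1 t3
    apply t2
    apply t1
    obtain ⟨b', hb', ht⟩ := t5 t4
    rw [zero_mul, ht, hsc h.off.hom] at t3
    have t6 := (mul_eq_zero.1 t3).resolve_left (pow_ne_zero _ hb')
    have t7 : (q t).1 * ((q t).2 / (q t).1) = (q t).2 := mul_div_cancel₀ _ t2
    rw [t7]
    have t8 : ((q t).1, (q t).2) = τ' (σ (0, t)) := by rw [hq]
    rw [t8]
    exact t6
  refine ⟨hA, ?_, by rw [hdir]; exact hw⟩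
  obtain ⟨B, hB⟩ := h.order
  obtain ⟨B₁, hB₁, hle⟩ := g.oC_le hXs h.chart hσ' h00 h.off.form
  refine ⟨(2 / ‖(fderiv ℂ χ 0 (1, 0)).1‖) ^ μ * (|B| * B₁), ?_⟩
  filter_upwards [g.fst_le hw, hs.eventually hle, hs.eventually (g.tendsto.eventually hB)] with p p1 p2 p3
  have hC : (0 : ℝ) ≤ 2 / ‖(fderiv ℂ χ 0 (1, 0)).1‖ := by positivity
  calc ‖p.1‖ ^ μ ≤ (2 / ‖(fderiv ℂ χ 0 (1, 0)).1‖ * ‖(χ (p.1, p.1 * p.2)).1‖) ^ μ := by gcongr
    _ = (2 / ‖(fderiv ℂ χ 0 (1, 0)).1‖) ^ μ * ‖(χ (p.1, p.1 * p.2)).1‖ ^ μ := by rw [mul_pow]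
    _ ≤ (2 / ‖(fderiv ℂ χ 0 (1, 0)).1‖) ^ μ * (|B| * (B₁ * ‖oC Ω σ' (p.1, p.1 * p.2)‖)) := by
      refine mul_le_mul_of_nonneg_left (p3.trans ?_) (pow_nonneg hC _)
      refine (mul_le_mul_of_nonneg_right (le_abs_self B) (norm_nonneg _)).trans ?_
      exact mul_le_mul_of_nonneg_left p2 (abs_nonneg _)
    _ = _ := by ring

end main

end Pool.Agent.SG2

end
end
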