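import Pool.Agent.H94.G6.M136
import Pool.Agent.H94.G6.M138
import Pool.Agent.H94.G6.M71

/-! The parts of this file: H90.SG.CoNe, MQ3.GlobP, MQ3.CutN. -/

section

/-!
# SG CoNe: the coefficient of the form off the curve, and its order
-/

set_option autoImplicit false

open Topology Filter Metric

noncomputable section

namespace Pool.Agent.H90.SG

open Pool.Agent.H17BP (Surface IsForm NoZeros IsChart Tan)
open Pool.Agent.H36.TB (oC tan_fd)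

variable {V : Type} [NormedAddCommGroup V] [NormedSpace ℂ V]

/-- the three vectors of a chart are linearly independent -/
theorem linInd_chart [CompleteSpace V] {X : Set V} {σ : ℂ × ℂ → V} {τ : V → ℂ × ℂ} (h : IsChart X σ τ) :
    ∀ᶠ p in 𝓝 (0 : ℂ × ℂ), LinearIndependent ℂ ![σ p, fderiv ℂ σ p (1, 0), fderiv ℂ σ p (0, 1)] := by
  have h1 : Tendsto σ (𝓝 0) (𝓝 (σ 0)) := h.σ_an.continuousAt
  have h2 : ∀ᶠ p in 𝓝 (0 : ℂ × ℂ), DifferentiableAt ℂ τ (σ p) := h1.eventually (h.τ_an.eventually_analyticAt.mono fun y hy => hy.differentiableAt)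
  have h3 : ∀ᶠ p in 𝓝 (0 : ℂ × ℂ), ∀ᶠ q in 𝓝 (σ p, (1 : ℂ)), τ (q.2 • q.1) = τ q.1 := by
    have h4 : Tendsto (fun p => (σ p, (1 : ℂ))) (𝓝 0) (𝓝 (σ 0, (1 : ℂ))) := h1.prodMk_nhds tendsto_const_nhds
    exact h4.eventually h.inv.eventually_nhds
  have h5 : ∀ᶠ p in 𝓝 (0 : ℂ × ℂ), σ p ≠ 0 := h.σ_an.continuousAt.eventually_ne h.ne
  filter_upwards [h2, h3, h5, h.left.eventually_nhds, h.σ_an.eventually_analyticAt] with p g1 g2 g3 g4 g5
  -- the derivative of `τ` kills `σ p`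
  have e1 : fderiv ℂ τ (σ p) (σ p) = 0 := by
    have a1 : HasDerivAt (fun c : ℂ => c • σ p) (σ p) 1 := by
      have := (hasDerivAt_id (1 : ℂ)).smul_const (σ p)
      simpa using this
    have a0 : (1 : ℂ) • σ p = σ p := one_smul ℂ _
    have a2 : HasFDerivAt τ (fderiv ℂ τ (σ p)) ((1 : ℂ) • σ p) := by
      rw [a0]
      exact g1.hasFDerivAt
    have a3 := a2.comp_hasDerivAt (1 : ℂ) a1
    have a4 : (fun c : ℂ => τ (c • σ p)) =ᶠ[𝓝 1] fun _ => τ (σ p) := by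
      have a5 : Tendsto (fun c : ℂ => (σ p, c)) (𝓝 1) (𝓝 (σ p, (1 : ℂ))) := by
        have : Continuous fun c : ℂ => (σ p, c) := by fun_prop
        exact this.tendsto 1
      exact a5.eventually g2
    have a6 : HasDerivAt (fun c : ℂ => τ (c • σ p)) 0 1 := (hasDerivAt_const (1 : ℂ) (τ (σ p))).congr_of_eventuallyEq a4
    exact a3.unique a6
  -- the derivative of `τ` inverts the derivative of `σ`
  have e2 : ∀ w, fderiv ℂ τ (σ p) (fderiv ℂ σ p w) = w := by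
    intro w
    have a1 : HasFDerivAt (fun y => τ (σ y)) ((fderiv ℂ τ (σ p)).comp (fderiv ℂ σ p)) p :=
      g1.hasFDerivAt.comp p g5.differentiableAt.hasFDerivAt
    have a2 : HasFDerivAt (fun y => τ (σ y)) (ContinuousLinearMap.id ℂ (ℂ × ℂ)) p :=
      (hasFDerivAt_id p).congr_of_eventuallyEq g4
    have a3 := a1.unique a2
    exact congrArg (fun A : (ℂ × ℂ) →L[ℂ] (ℂ × ℂ) => A w) a3
  rw [Fintype.linearIndependent_iff]
  intro a ha
  have e3 : a 0 • σ p + a 1 • fderiv ℂ σ p (1, 0) + a 2 • fderiv ℂ σ p (0, 1) = 0 := by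
    simpa [Fin.sum_univ_three] using ha
  have e4 := congrArg (fderiv ℂ τ (σ p)) e3
  rw [map_add, map_add, map_smul, map_smul, map_smul, e1, e2, e2, map_zero, smul_zero, zero_add] at e4
  have e5 : a 1 = 0 := by
    have := congrArg Prod.fst e4
    simpa using this
  have e6 : a 2 = 0 := by
    have := congrArg Prod.snd e4
    simpa using this
  have e7 : a 0 = 0 := by
    rw [e5, e6, zero_smul, zero_smul, add_zero, add_zero] at e3
    exact (smul_eq_zero.1 e3).resolve_right g3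
  intro i
  fin_cases i
  · exact e7
  · exact e5
  · exact e6

/-- the coefficient of the form is not zero off the curve -/
theorem oC_ne [CompleteSpace V] {X T : Set V} {Ω : V → V → V → ℂ} (hz : NoZeros X T Ω) {σ : ℂ × ℂ → V} {τ : V → ℂ × ℂ} (h : IsChart X σ τ) :
    ∀ᶠ p in 𝓝 (0 : ℂ × ℂ), σ p ∉ T → oC Ω σ p ≠ 0 := by
  filter_upwards [linInd_chart h, h.σ_an.eventually_analyticAt, h.σ_mem.eventually_nhds] with p h1 h2 h3 h4
  exact hz (σ p) h3.self_of_nhds h4 _ (tan_fd h2 h3 (1, 0)) _ (tan_fd h2 h3 (0, 1)) h1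

end Pool.Agent.H90.SG

end
end

section

/-!
# MQ3 GlobP: boxes of the surface `Y`
-/

set_option autoImplicit false

open Topology Filter Metric MvPolynomial MeasureTheory

noncomputable section

namespace Pool.Agent.MQ3

open Pool.Agent.H36.BP (EN fs)
open Pool.Agent.H17BP (Surface IsChart NodalAt Pr Bihol)
open Pool.Agent.H17EF (coneE)
open Pool.Agent.MQ (lam En)

/-! ## charts in a normed space -/

section general

variable {V : Type} [NormedAddCommGroup V] [NormedSpace ℂ V] {Y : Set V} {σ : ℂ × ℂ → V} {τ : V → ℂ × ℂ}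

theorem gp_dual {x : V} (hx : x ≠ 0) : ∃ Λ : V →L[ℂ] ℂ, Λ x ≠ 0 := by
  obtain ⟨Λ, hΛ⟩ := exists_dual_vector ℂ x (norm_ne_zero_iff.mpr hx)
  refine ⟨Λ, ?_⟩
  rw [hΛ.2]
  simpa using hx

/-- being proportional is a closed condition -/
theorem not_pr_eventually {v w : V} (hv : v ≠ 0) (hw : w ≠ 0) (h : ¬ Pr v w) : ∀ᶠ p in 𝓝 (v, w), ¬ Pr p.1 p.2 := by
  obtain ⟨Λ, hΛ⟩ := gp_dual hw
  have h1 : Λ w • v - Λ v • w ≠ 0 := by
    intro h0
    have h2 : v = ((Λ w)⁻¹ * Λ v) • w := by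
      rw [mul_smul, ← sub_eq_zero.1 h0, smul_smul, inv_mul_cancel₀ hΛ, one_smul]
    refine h ⟨_, ?_, h2⟩
    intro h3
    rw [h3, zero_smul] at h2
    exact hv h2
  have hc : Continuous fun p : V × V => Λ p.2 • p.1 - Λ p.1 • p.2 := by fun_prop
  have h2 : ∀ᶠ p in 𝓝 (v, w), Λ p.2 • p.1 - Λ p.1 • p.2 ≠ 0 := hc.continuousAt.eventually_ne h1
  filter_upwards [h2] with p hp
  rintro ⟨c, -, hc⟩
  apply hp
  rw [hc, map_smul, smul_eq_mul, smul_smul, mul_comm, sub_self]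

theorem chart_inj_pr (h : IsChart Y σ τ) : ∀ᶠ p in 𝓝 ((0 : ℂ × ℂ), (0 : ℂ × ℂ)), Pr (σ p.1) (σ p.2) → p.1 = p.2 := by
  obtain ⟨Λ, hΛ⟩ := gp_dual h.ne
  have hσ : Tendsto σ (𝓝 0) (𝓝 (σ 0)) := h.σ_an.continuousAt.tendsto
  have t1 : Tendsto (fun p : (ℂ × ℂ) × (ℂ × ℂ) => p.1) (𝓝 ((0 : ℂ × ℂ), (0 : ℂ × ℂ))) (𝓝 0) := continuous_fst.tendsto _
  have t2 : Tendsto (fun p : (ℂ × ℂ) × (ℂ × ℂ) => p.2) (𝓝 ((0 : ℂ × ℂ), (0 : ℂ × ℂ))) (𝓝 0) := continuous_snd.tendsto _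
  have hL : Tendsto (fun p => Λ (σ p)) (𝓝 0) (𝓝 (Λ (σ 0))) := (Λ.continuous.tendsto _).comp hσ
  have h1 : Tendsto (fun p : (ℂ × ℂ) × (ℂ × ℂ) => (σ p.2, Λ (σ p.1) / Λ (σ p.2))) (𝓝 ((0 : ℂ × ℂ), (0 : ℂ × ℂ))) (𝓝 (σ 0, (1 : ℂ))) := by
    refine (hσ.comp t2).prodMk_nhds ?_
    have := (hL.comp t1).div (hL.comp t2) hΛ
    rwa [div_self hΛ] at this
  filter_upwards [h1.eventually h.inv, t1.eventually h.left, t2.eventually h.left, (hL.comp t2).eventually_ne hΛ] with p g1 g2 g3 g4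
  rintro ⟨c, hc, g5⟩
  have g4' : Λ (σ p.2) ≠ 0 := g4
  have g6 : Λ (σ p.1) / Λ (σ p.2) = c := by
    rw [div_eq_iff g4', g5, map_smul, smul_eq_mul]
  simp only [g6] at g1
  rw [← g2, g5, g1, g3]

/-- a chart is immersive modulo the radial direction -/
theorem chart_imm_zero [FiniteDimensional ℂ V] (h : IsChart Y σ τ) {w : ℂ × ℂ} {a : ℂ} (hw : fderiv ℂ σ 0 w = a • σ 0) : w = 0 := by
  have d1 : HasFDerivAt σ (fderiv ℂ σ 0) 0 := h.σ_an.differentiableAt.hasFDerivAt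
  have d2 : HasFDerivAt τ (fderiv ℂ τ (σ 0)) (σ 0) := h.τ_an.differentiableAt.hasFDerivAt
  have d3 : HasFDerivAt (τ ∘ σ) ((fderiv ℂ τ (σ 0)).comp (fderiv ℂ σ 0)) 0 := d2.comp 0 d1
  have d4 : HasFDerivAt (τ ∘ σ) (ContinuousLinearMap.id ℂ (ℂ × ℂ)) 0 := by
    refine (hasFDerivAt_id (0 : ℂ × ℂ)).congr_of_eventuallyEq ?_
    filter_upwards [h.left] with x hx
    exact hx
  have d5 := d3.unique d4
  have d6 : fderiv ℂ τ (σ 0) (fderiv ℂ σ 0 w) = w := by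
    have : ((fderiv ℂ τ (σ 0)).comp (fderiv ℂ σ 0)) w = w := by rw [d5]; rfl
    exact this
  have d7 : fderiv ℂ τ (σ 0) (σ 0) = 0 := by
    have e1 : HasDerivAt (fun c : ℂ => c • σ 0) (σ 0) 1 := by
      simpa using (hasDerivAt_id (1 : ℂ)).smul_const (σ 0)
    have d2' : HasFDerivAt τ (fderiv ℂ τ (σ 0)) ((1 : ℂ) • σ 0) := by rwa [one_smul]
    have e2 : HasDerivAt (fun c : ℂ => τ (c • σ 0)) (fderiv ℂ τ (σ 0) (σ 0)) 1 := d2'.comp_hasDerivAt (1 : ℂ) e1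
    have t : Tendsto (fun c : ℂ => (σ 0, c)) (𝓝 1) (𝓝 (σ 0, (1 : ℂ))) := tendsto_const_nhds.prodMk_nhds tendsto_id
    have e3 : HasDerivAt (fun c : ℂ => τ (c • σ 0)) 0 1 := by
      refine (hasDerivAt_const (1 : ℂ) (τ (σ 0))).congr_of_eventuallyEq ?_
      filter_upwards [t.eventually h.inv] with c hc
      exact hc
    exact e2.unique e3
  rw [← d6, hw, map_smul, d7, smul_zero]

theorem gp_closedBall {E : Type*} [NormedAddCommGroup E] {p : E → Prop} (h : ∀ᶠ x in 𝓝 (0 : E), p x) :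
    ∀ᶠ r in 𝓝[>] (0 : ℝ), ∀ x ∈ closedBall (0 : E) r, p x := by
  obtain ⟨ε, hε, h1⟩ := Metric.eventually_nhds_iff_ball.1 h
  filter_upwards [mem_nhdsWithin_of_mem_nhds (Iio_mem_nhds hε)] with r hr x hx
  exact h1 x (mem_ball.2 (lt_of_le_of_lt (mem_closedBall.1 hx) (Set.mem_Iio.1 hr)))

/-- scaling of the coordinates -/
theorem bihol_scale {s : ℂ} (hs : s ≠ 0) : Bihol (fun x => s • x) := by
  refine ⟨analyticAt_id.const_smul (c := s), smul_zero s, fun x => s⁻¹ • x, analyticAt_id.const_smul (c := s⁻¹), smul_zero _,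
    Eventually.of_forall fun x => ?_, Eventually.of_forall fun x => ?_⟩
  · show s⁻¹ • s • x = x
    rw [smul_smul, inv_mul_cancel₀ hs, one_smul]
  · show s • s⁻¹ • x = x
    rw [smul_smul, mul_inv_cancel₀ hs, one_smul]

theorem chart_smul (h : IsChart Y σ τ) {s : ℂ} (hs : s ≠ 0) : IsChart Y (fun x => σ (s • x)) (fun y => s⁻¹ • τ y) :=
  h.comp (bihol_scale hs) (bihol_scale (inv_ne_zero hs))
    (Eventually.of_forall fun x => by rw [smul_smul, inv_mul_cancel₀ hs, one_smul])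
    (Eventually.of_forall fun x => by rw [smul_smul, mul_inv_cancel₀ hs, one_smul])

theorem bihol_swap : Bihol (fun x => (x.2, x.1)) :=
  ⟨analyticAt_snd.prod analyticAt_fst, rfl, fun x => (x.2, x.1), analyticAt_snd.prod analyticAt_fst, rfl,
    Eventually.of_forall fun _ => rfl, Eventually.of_forall fun _ => rfl⟩

theorem chart_swap (h : IsChart Y σ τ) : IsChart Y (fun x => σ (x.2, x.1)) (fun y => ((τ y).2, (τ y).1)) :=
  h.comp bihol_swap bihol_swap (Eventually.of_forall fun _ => rfl) (Eventually.of_forall fun _ => rfl)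

end general

/-! ## the boxes -/

variable {M : ℕ} {P : Ideal (MvPolynomial (Fin (M + 1)) ℂ)} {RD : MvPolynomial (Fin (M + 1)) ℂ}

/-- `y` is a crossing point of the divisor -/
def Cr (S : NCOver P RD) (y : S.V) : Prop :=
  ¬ ∃ (σ : ℂ × ℂ → S.V) (τ : S.V → ℂ × ℂ), IsChart S.Y σ τ ∧ Pr (σ 0) y ∧
    ((∀ᶠ p in 𝓝 (0 : ℂ × ℂ), σ p ∉ S.D) ∨ ∀ᶠ p in 𝓝 (0 : ℂ × ℂ), (σ p ∈ S.D ↔ p.1 = 0))

theorem Cr.pr {S : NCOver P RD} {y y' : S.V} (h : Cr S y) (hy : Pr y y') : Cr S y' := by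
  rintro ⟨σ, τ, h1, h2, h3⟩
  exact h ⟨σ, τ, h1, h2.trans hy.symm, h3⟩

/-- a box of `Y` -/
structure PBox (S : NCOver P RD) where
  σ : ℂ × ℂ → S.V
  ρ : ℂ × ℂ → EN M
  c : ℂ × ℂ
  b : ℝ
  ty : (c = 0 ∧ b = 1) ∨ (c = (0, 1 / 2) ∧ b = 1 / 4) ∨ (c = (1 / 2, 1 / 2) ∧ b = 1 / 4)
  chart : ∀ p ∈ closedBall (0 : ℂ × ℂ) 1, ∃ τ, IsChart S.Y (fun x => σ (p + x)) τ
  inj : ∀ p ∈ closedBall (0 : ℂ × ℂ) 1, ∀ q ∈ closedBall (0 : ℂ × ℂ) 1, Pr (σ p) (σ q) → p = q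
  ρ_an : ∀ p ∈ closedBall (0 : ℂ × ℂ) 1, AnalyticAt ℂ ρ p
  ov : ∀ p ∈ closedBall (0 : ℂ × ℂ) 1, ∀ᶠ q in 𝓝 p, S.Ov (σ q) (ρ q)
  off : ∀ p ∈ DS, σ p ∉ S.D
  div : ∀ p ∈ ball c b, (σ p ∈ S.D ↔ p.1 * p.2 = 0)
  cr : c = 0 → Cr S (σ 0)

theorem DD_eq : DD = ball (0 : ℂ × ℂ) 1 := by
  ext p
  rw [mem_ball_zero_iff, Prod.norm_def, max_lt_iff]
  rfl

variable {S : NCOver P RD}

theorem PBox.b_pos (B : PBox S) : 0 < B.b := by
  rcases B.ty with ⟨-, h⟩ | ⟨-, h⟩ | ⟨-, h⟩ <;> rw [h] <;> norm_num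

theorem PBox.sub (B : PBox S) : ball B.c B.b ⊆ ball (0 : ℂ × ℂ) 1 := by
  have key : ‖B.c‖ + B.b ≤ 1 := by
    rcases B.ty with ⟨h1, h2⟩ | ⟨h1, h2⟩ | ⟨h1, h2⟩ <;> rw [h1, h2]
    · simp
    · rw [Prod.norm_def]
      norm_num
    · rw [Prod.norm_def]
      norm_num
  intro p hp
  rw [mem_ball_zero_iff]
  rw [mem_ball, dist_eq_norm] at hp
  calc ‖p‖ = ‖(p - B.c) + B.c‖ := by rw [sub_add_cancel]
    _ ≤ ‖p - B.c‖ + ‖B.c‖ := norm_add_le _ _
    _ < 1 := by linarith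

theorem PBox.sub' (B : PBox S) : ball B.c B.b ⊆ closedBall (0 : ℂ × ℂ) 1 := B.sub.trans ball_subset_closedBall

theorem DS_sub : DS ⊆ closedBall (0 : ℂ × ℂ) 1 := by
  intro p hp
  rw [mem_closedBall_zero_iff, Prod.norm_def]
  exact max_le hp.1.2.le hp.2.2.le

/-- only the center of a corner box is a crossing point -/
theorem PBox.ncr (B : PBox S) {p : ℂ × ℂ} (hp : p ∈ ball B.c B.b) (h0 : p ≠ 0) : ¬ Cr S (B.σ p) := by
  obtain ⟨τ, hτ⟩ := B.chart p (B.sub' hp)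
  intro hcr
  have hadd : Tendsto (fun x : ℂ × ℂ => p + x) (𝓝 0) (𝓝 p) := by
    have h1 : Continuous fun x : ℂ × ℂ => p + x := by fun_prop
    simpa using h1.tendsto 0
  have hD : ∀ᶠ x in 𝓝 (0 : ℂ × ℂ), (B.σ (p + x) ∈ S.D ↔ (p.1 + x.1) * (p.2 + x.2) = 0) := by
    filter_upwards [hadd.eventually (isOpen_ball.mem_nhds hp)] with x hx
    exact B.div _ hx
  have e0 : B.σ (p + 0) = B.σ p := by rw [add_zero]
  have n1 : p.1 ≠ 0 → ∀ᶠ x in 𝓝 (0 : ℂ × ℂ), p.1 + x.1 ≠ 0 := fun h => by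
    have h1 : ContinuousAt (fun x : ℂ × ℂ => p.1 + x.1) 0 := by fun_prop
    exact h1.eventually_ne (by simpa using h)
  have n2 : p.2 ≠ 0 → ∀ᶠ x in 𝓝 (0 : ℂ × ℂ), p.2 + x.2 ≠ 0 := fun h => by
    have h1 : ContinuousAt (fun x : ℂ × ℂ => p.2 + x.2) 0 := by fun_prop
    exact h1.eventually_ne (by simpa using h)
  by_cases h1 : p.1 = 0
  · have h2 : p.2 ≠ 0 := fun h => h0 (Prod.ext h1 h)
    refine hcr ⟨_, _, hτ, by rw [e0]; exact Pool.Agent.H17BP.Pr.refl _, Or.inr ?_⟩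
    filter_upwards [hD, n2 h2] with x h3 h4
    rw [h3, h1, zero_add, mul_eq_zero]
    exact ⟨fun h => h.resolve_right h4, Or.inl⟩
  · by_cases h2 : p.2 = 0
    · have ht : Tendsto (fun x : ℂ × ℂ => ((x.2, x.1) : ℂ × ℂ)) (𝓝 0) (𝓝 0) := by
        have : Continuous fun x : ℂ × ℂ => ((x.2, x.1) : ℂ × ℂ) := by fun_prop
        exact this.tendsto' _ _ rfl
      refine hcr ⟨_, _, chart_swap hτ, ?_, Or.inr ?_⟩
      · show Pr (B.σ (p + (0, 0))) _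
        rw [show ((0 : ℂ), (0 : ℂ)) = 0 from rfl, e0]
        exact Pool.Agent.H17BP.Pr.refl _
      · filter_upwards [ht.eventually hD, ht.eventually (n1 h1)] with x h3 h4
        rw [h3, h2, zero_add, mul_eq_zero]
        exact ⟨fun h => h.resolve_left h4, Or.inr⟩
    · refine hcr ⟨_, _, hτ, by rw [e0]; exact Pool.Agent.H17BP.Pr.refl _, Or.inl ?_⟩
      filter_upwards [hD, n1 h1, n2 h2] with x h3 h4 h5
      rw [h3]
      exact mul_ne_zero h4 h5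

/-! ## existence of boxes -/

theorem mk_pbox (S : NCOver P RD) {σ : ℂ × ℂ → S.V} {τ : S.V → ℂ × ℂ} (h : IsChart S.Y σ τ) {Z : ℂ × ℂ → Prop}
    (hZ : ∀ᶠ x in 𝓝 (0 : ℂ × ℂ), (σ x ∈ S.D ↔ Z x)) {c : ℂ × ℂ} {b : ℝ}
    (ty : (c = 0 ∧ b = 1) ∨ (c = (0, 1 / 2) ∧ b = 1 / 4) ∨ (c = (1 / 2, 1 / 2) ∧ b = 1 / 4))
    (hoff : ∀ s : ℂ, s ≠ 0 → ∀ p ∈ DS, ¬ Z (s • (p - c))) (hdiv : ∀ s : ℂ, s ≠ 0 → ∀ p ∈ ball c b, (Z (s • (p - c)) ↔ p.1 * p.2 = 0))
    (hcr : c = 0 → Cr S (σ 0)) : ∃ B : PBox S, B.σ B.c = σ 0 := by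
  obtain ⟨π, hπ, hov⟩ := S.germ (σ 0) h.σ_mem.self_of_nhds
  have hσ : Tendsto σ (𝓝 0) (𝓝 (σ 0)) := h.σ_an.continuousAt.tendsto
  have hρ : AnalyticAt ℂ (fun x => π (σ x)) 0 := AnalyticAt.comp (g := π) (f := σ) hπ h.σ_an
  have hov' : ∀ᶠ x in 𝓝 (0 : ℂ × ℂ), S.Ov (σ x) (π (σ x)) := by
    filter_upwards [hσ.eventually hov, h.σ_mem] with x h1 h2
    exact h1 h2
  obtain ⟨r, h1, h2, h3, h4, h5, h6⟩ := ((gp_closedBall h.near).and ((gp_closedBall (E := (ℂ × ℂ) × (ℂ × ℂ)) (chart_inj_pr h)).and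
    ((gp_closedBall hρ.eventually_analyticAt).and ((gp_closedBall hov'.eventually_nhds).and ((gp_closedBall hZ).and
      (self_mem_nhdsWithin : ∀ᶠ r in 𝓝[>] (0 : ℝ), r ∈ Set.Ioi (0 : ℝ))))))).exists
  have h6' : 0 < r := h6
  set s : ℂ := ((r / 2 : ℝ) : ℂ) with hs
  have hs0 : s ≠ 0 := by
    rw [hs]
    exact_mod_cast (by positivity : (r / 2 : ℝ) ≠ 0)
  have hsn : ‖s‖ = r / 2 := by
    rw [hs, Complex.norm_real, Real.norm_of_nonneg (by positivity)]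
  have hcn : ‖c‖ ≤ 1 / 2 := by
    rcases ty with ⟨h7, -⟩ | ⟨h7, -⟩ | ⟨h7, -⟩ <;> rw [h7]
    · simp
    · rw [Prod.norm_def]; norm_num
    · rw [Prod.norm_def]; norm_num
  obtain ⟨m, hm⟩ : ∃ m : ℂ × ℂ → ℂ × ℂ, ∀ p, m p = s • (p - c) := ⟨fun p => s • (p - c), fun _ => rfl⟩
  have hmb : ∀ p ∈ closedBall (0 : ℂ × ℂ) 1, m p ∈ closedBall (0 : ℂ × ℂ) r := by
    intro p hp
    rw [mem_closedBall_zero_iff] at hp ⊢
    rw [hm, norm_smul, hsn]
    have h7 : ‖p - c‖ ≤ ‖p‖ + ‖c‖ := norm_sub_le _ _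
    nlinarith
  have hmc : Continuous m := by
    have : m = fun p => s • (p - c) := funext hm
    rw [this]
    fun_prop
  have hman : ∀ p, AnalyticAt ℂ m p := fun p => by
    have : m = fun p => s • (p - c) := funext hm
    rw [this]
    exact (analyticAt_id.sub analyticAt_const).const_smul (c := s)
  have hminj : ∀ p q, m p = m q → p = q := by
    intro p q h7
    rw [hm, hm] at h7
    have h8 := (smul_right_injective (ℂ × ℂ) hs0) h7
    exact sub_left_injective h8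
  refine ⟨{
    σ := fun p => σ (m p)
    ρ := fun p => π (σ (m p))
    c := c
    b := b
    ty := ty
    chart := ?_
    inj := ?_
    ρ_an := ?_
    ov := ?_
    off := ?_
    div := ?_
    cr := ?_ }, ?_⟩
  · intro p hp
    have h7 := chart_smul (h1 _ (hmb p hp)) hs0
    refine ⟨fun y => s⁻¹ • (τ y - m p), ?_⟩
    have h8 : (fun x => σ (m (p + x))) = fun x => σ (m p + s • x) := by
      funext x
      rw [hm, hm, ← smul_add]
      congr 2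
      abel
    rw [h8]
    exact h7
  · intro p hp q hq h7
    refine hminj p q (h2 (m p, m q) ?_ h7)
    rw [mem_closedBall_zero_iff, Prod.norm_def]
    exact max_le (mem_closedBall_zero_iff.1 (hmb p hp)) (mem_closedBall_zero_iff.1 (hmb q hq))
  · intro p hp
    exact AnalyticAt.comp (g := fun x => π (σ x)) (f := m) (h3 _ (hmb p hp)) (hman p)
  · intro p hp
    exact (hmc.tendsto p).eventually (h4 _ (hmb p hp))
  · intro p hp h7
    have h8 := (h5 _ (hmb p (DS_sub hp))).1 h7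
    rw [hm] at h8
    exact hoff s hs0 p hp h8
  · intro p hp
    have hp' : p ∈ closedBall (0 : ℂ × ℂ) 1 := by
      have key : ‖c‖ + b ≤ 1 := by
        rcases ty with ⟨h1, h2⟩ | ⟨h1, h2⟩ | ⟨h1, h2⟩ <;> rw [h1, h2]
        · simp
        · rw [Prod.norm_def]; norm_num
        · rw [Prod.norm_def]; norm_num
      rw [mem_closedBall_zero_iff]
      rw [mem_ball, dist_eq_norm] at hp
      calc ‖p‖ = ‖(p - c) + c‖ := by rw [sub_add_cancel]
        _ ≤ ‖p - c‖ + ‖c‖ := norm_add_le _ _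
        _ ≤ 1 := by linarith
    have h7 := h5 _ (hmb p hp')
    rw [hm] at h7
    show σ (m p) ∈ S.D ↔ _
    rw [hm, h7]
    exact hdiv s hs0 p hp
  · intro h7
    show Cr S (σ (m 0))
    have h8 : m 0 = 0 := by rw [hm, h7, sub_zero, smul_zero]
    rw [h8]
    exact hcr h7
  · show σ (m c) = σ 0
    rw [hm, sub_self, smul_zero]

theorem exists_pbox (S : NCOver P RD) {y : S.V} (hy : y ∈ S.Y) : ∃ B : PBox S, Pr (B.σ B.c) y := by
  have hhalf : ∀ z : ℂ, ‖z - 1 / 2‖ < 1 / 4 → z ≠ 0 := by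
    rintro z hz rfl
    rw [zero_sub, norm_neg] at hz
    norm_num at hz
  by_cases hcr : Cr S y
  · obtain ⟨σ, τ, h, h0, h1⟩ := S.nodal y hy
    have hp : Pr (σ 0) y := by rw [h0]; exact Pool.Agent.H17BP.Pr.refl _
    rcases h1 with h1 | h1 | h1
    · exact absurd ⟨σ, τ, h, hp, Or.inl h1⟩ hcr
    · exact absurd ⟨σ, τ, h, hp, Or.inr h1⟩ hcr
    · have e1 : ∀ s : ℂ, s ≠ 0 → ∀ p ∈ DS, ¬ (fun x : ℂ × ℂ => x.1 * x.2 = 0) (s • (p - 0)) := by
        intro s hs p hp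
        rw [sub_zero]
        exact mul_ne_zero (mul_ne_zero hs hp.1.1) (mul_ne_zero hs hp.2.1)
      have e2 : ∀ s : ℂ, s ≠ 0 → ∀ p ∈ ball (0 : ℂ × ℂ) 1, ((fun x : ℂ × ℂ => x.1 * x.2 = 0) (s • (p - 0)) ↔ p.1 * p.2 = 0) := by
        intro s hs p hp
        simp only [sub_zero, Prod.smul_fst, Prod.smul_snd, smul_eq_mul, mul_eq_zero, hs, false_or]
      obtain ⟨B, hB⟩ := mk_pbox S h h1 (c := 0) (b := 1) (Or.inl ⟨rfl, rfl⟩) e1 e2 (fun _ => by rw [h0]; exact hcr)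
      exact ⟨B, by rw [hB]; exact hp⟩
  · have h1 : ∃ (σ : ℂ × ℂ → S.V) (τ : S.V → ℂ × ℂ), IsChart S.Y σ τ ∧ Pr (σ 0) y ∧
        ((∀ᶠ p in 𝓝 (0 : ℂ × ℂ), σ p ∉ S.D) ∨ ∀ᶠ p in 𝓝 (0 : ℂ × ℂ), (σ p ∈ S.D ↔ p.1 = 0)) := not_not.1 hcr
    obtain ⟨σ, τ, h, h0, h1 | h1⟩ := h1
    · have e2 : ∀ s : ℂ, s ≠ 0 → ∀ p ∈ ball ((1 / 2, 1 / 2) : ℂ × ℂ) (1 / 4), ((fun _ : ℂ × ℂ => False) (s • (p - (1 / 2, 1 / 2))) ↔ p.1 * p.2 = 0) := by
        intro s hs p hp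
        rw [mem_ball, dist_eq_norm, Prod.norm_def, max_lt_iff] at hp
        exact iff_of_false (fun h => h) (mul_ne_zero (hhalf _ hp.1) (hhalf _ hp.2))
      obtain ⟨B, hB⟩ := mk_pbox S h (Z := fun _ => False) (h1.mono fun x hx => iff_false_intro hx) (c := (1 / 2, 1 / 2)) (b := 1 / 4)
        (Or.inr (Or.inr ⟨rfl, rfl⟩)) (fun s hs p hp h => h) e2 (fun h2 => absurd (congrArg Prod.fst h2) (by norm_num))
      exact ⟨B, by rw [hB]; exact h0⟩
    · have e1 : ∀ s : ℂ, s ≠ 0 → ∀ p ∈ DS, ¬ (fun x : ℂ × ℂ => x.1 = 0) (s • (p - (0, 1 / 2))) := by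
        intro s hs p hp
        show s * (p.1 - 0) ≠ 0
        rw [sub_zero]
        exact mul_ne_zero hs hp.1.1
      have e2 : ∀ s : ℂ, s ≠ 0 → ∀ p ∈ ball ((0, 1 / 2) : ℂ × ℂ) (1 / 4), ((fun x : ℂ × ℂ => x.1 = 0) (s • (p - (0, 1 / 2))) ↔ p.1 * p.2 = 0) := by
        intro s hs p hp
        rw [mem_ball, dist_eq_norm, Prod.norm_def, max_lt_iff] at hp
        show s * (p.1 - 0) = 0 ↔ _
        rw [sub_zero, mul_eq_zero, mul_eq_zero]
        exact ⟨fun h => Or.inl (h.resolve_left hs), fun h => Or.inr (h.resolve_right (hhalf _ hp.2))⟩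
      obtain ⟨B, hB⟩ := mk_pbox S h h1 (c := (0, 1 / 2)) (b := 1 / 4) (Or.inr (Or.inl ⟨rfl, rfl⟩)) e1 e2
        (fun h2 => absurd (congrArg Prod.snd h2) (by norm_num))
      exact ⟨B, by rw [hB]; exact h0⟩

/-- the coordinates near a point of the box -/
theorem PBox.loc (B : PBox S) {p : ℂ × ℂ} (hp : p ∈ closedBall (0 : ℂ × ℂ) 1) {y : S.V} (hy : Pr y (B.σ p)) :
    ∃ T : S.V → ℂ × ℂ, AnalyticAt ℂ T y ∧ T y = p ∧ ∀ᶠ y' in 𝓝 y, y' ∈ S.Y → Pr y' (B.σ (T y')) := by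
  obtain ⟨a, ha, rfl⟩ := hy
  obtain ⟨τ, hτ⟩ := B.chart p hp
  have hs := hτ.scale S.surf.smul ha
  have e0 : a • B.σ (p + 0) = a • B.σ p := by rw [add_zero]
  have h1 := hs.τ_an
  have h2 := hs.left.self_of_nhds
  have h3 := hs.right
  simp only [e0] at h1 h2 h3
  refine ⟨fun y => p + τ (a⁻¹ • y), analyticAt_const.add h1, ?_, ?_⟩
  · show p + τ (a⁻¹ • a • B.σ p) = p
    rw [h2, add_zero]
  · filter_upwards [h3] with y' h4 h5
    obtain ⟨c, hc, h6⟩ := h4 h5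
    exact ⟨c * a, mul_ne_zero hc ha, by rw [mul_smul]; exact h6⟩

theorem PBox.nhds (B : PBox S) {p : ℂ × ℂ} (hp : p ∈ closedBall (0 : ℂ × ℂ) 1) {W : Set (ℂ × ℂ)} (hW : W ∈ 𝓝 p) {y : S.V}
    (hy : Pr y (B.σ p)) : ∀ᶠ y' in 𝓝 y, y' ∈ S.Y → ∃ q ∈ W, Pr y' (B.σ q) := by
  obtain ⟨T, h1, h2, h3⟩ := B.loc hp hy
  have h4 : Tendsto T (𝓝 y) (𝓝 p) := by
    have := h1.continuousAt.tendsto
    rwa [h2] at this
  filter_upwards [h3, h4.eventually hW] with y' h5 h6 h7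
  exact ⟨_, h6, h5 h7⟩

theorem PBox.mem_Y (B : PBox S) {p : ℂ × ℂ} (hp : p ∈ closedBall (0 : ℂ × ℂ) 1) : B.σ p ∈ S.Y := (S.mem _ _ (B.ov p hp).self_of_nhds).1

theorem PBox.ne_zero (B : PBox S) {p : ℂ × ℂ} (hp : p ∈ closedBall (0 : ℂ × ℂ) 1) : B.σ p ≠ 0 := fun h => S.surf.zero (h ▸ B.mem_Y hp)

/-- finitely many boxes -/
theorem exists_family (S : NCOver P RD) : ∃ (ι : Type) (_ : Fintype ι) (B : ι → PBox S),
    (∀ y ∈ S.Y, ∃ i, ∃ q ∈ closedBall (B i).c ((B i).b / 2), Pr y ((B i).σ q)) ∧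
      ∀ i j, Pr ((B i).σ (B i).c) ((B j).σ (B j).c) → i = j := by
  classical
  have : ProperSpace S.V := FiniteDimensional.proper ℂ S.V
  let st : Setoid S.V := ⟨fun x y => Pr x y, ⟨fun x => Pool.Agent.H17BP.Pr.refl x, fun h => h.symm, fun h h' => h.trans h'⟩⟩
  obtain ⟨rep, hrep1, hrep2⟩ : ∃ rep : S.V → S.V, (∀ y, Pr (rep y) y) ∧ ∀ y y', Pr y y' → rep y = rep y' := by
    refine ⟨fun y => (Quotient.mk st y).out, fun y => ?_, fun y y' h => ?_⟩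
    · exact Quotient.exact (Quotient.out_eq (Quotient.mk st y))
    · have : Quotient.mk st y = Quotient.mk st y' := Quotient.sound h
      show (Quotient.mk st y).out = (Quotient.mk st y').out
      rw [this]
  have hprY : ∀ x y, Pr x y → y ∈ S.Y → x ∈ S.Y := by
    rintro x y ⟨c, hc, rfl⟩ hy
    exact S.surf.smul y hy c hc
  choose bx hbx using fun (y : S.V) (hy : y ∈ S.Y) => exists_pbox S hy
  have hcl : IsClosed (S.Y ∩ Metric.sphere (0 : S.V) 1) := by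
    refine isClosed_of_closure_subset fun y hy => ?_
    have h1 : y ∈ Metric.sphere (0 : S.V) 1 := by
      have := closure_mono Set.inter_subset_right hy
      rwa [Metric.isClosed_sphere.closure_eq] at this
    have h2 : y ∈ closure S.Y := closure_mono Set.inter_subset_left hy
    refine ⟨S.surf.closed y h2 ?_, h1⟩
    rintro rfl
    simp at h1
  have hK : IsCompact (S.Y ∩ Metric.sphere (0 : S.V) 1) :=
    (isCompact_sphere (0 : S.V) 1).of_isClosed_subset hcl Set.inter_subset_right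
  obtain ⟨U, hU⟩ : ∃ U : S.V → Set S.V, ∀ x, ∀ v, v ∈ U x ↔ ∀ hx : rep x ∈ S.Y, v ∈ S.Y →
      ∃ q ∈ closedBall (bx _ hx).c ((bx _ hx).b / 2), Pr v ((bx _ hx).σ q) := ⟨fun x => {v | ∀ hx : rep x ∈ S.Y, v ∈ S.Y →
      ∃ q ∈ closedBall (bx _ hx).c ((bx _ hx).b / 2), Pr v ((bx _ hx).σ q)}, fun x v => Iff.rfl⟩
  obtain ⟨F, hF, hcov⟩ := hK.elim_nhds_subcover U fun x hx => by
    have hx' : rep x ∈ S.Y := hprY _ _ (hrep1 x) hx.1
    have h1 : Pr x ((bx _ hx').σ (bx _ hx').c) := (hrep1 x).symm.trans (hbx _ hx').symm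
    have h2 : closedBall (bx _ hx').c ((bx _ hx').b / 2) ∈ 𝓝 (bx _ hx').c := closedBall_mem_nhds _ (half_pos (bx _ hx').b_pos)
    have h3 : (bx _ hx').c ∈ closedBall (0 : ℂ × ℂ) 1 := (bx _ hx').sub' (mem_ball_self (bx _ hx').b_pos)
    have h4 := (bx _ hx').nhds h3 h2 h1
    filter_upwards [h4] with v hv
    rw [hU]
    intro _ hv'
    exact hv hv'
  have hmem : ∀ y ∈ F.image rep, y ∈ S.Y := by
    intro y hy
    obtain ⟨x, hx, rfl⟩ := Finset.mem_image.1 hy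
    exact hprY _ _ (hrep1 x) (hF x hx).1
  refine ⟨{y : S.V // y ∈ F.image rep}, inferInstance, fun i => bx i.1 (hmem i.1 i.2), fun y hy => ?_, fun i j h => ?_⟩
  · have hy0 : y ≠ 0 := fun h0 => S.surf.zero (h0 ▸ hy)
    have hn : ((‖y‖⁻¹ : ℝ) : ℂ) ≠ 0 := by
      exact_mod_cast inv_ne_zero (norm_ne_zero_iff.2 hy0)
    have hy1 : ((‖y‖⁻¹ : ℝ) : ℂ) • y ∈ S.Y := S.surf.smul y hy _ hn
    have hy2 : ((‖y‖⁻¹ : ℝ) : ℂ) • y ∈ Metric.sphere (0 : S.V) 1 := by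
      rw [mem_sphere_zero_iff_norm, norm_smul, Complex.norm_real, norm_inv, norm_norm,
        inv_mul_cancel₀ (norm_ne_zero_iff.2 hy0)]
    have hyy : Pr y (((‖y‖⁻¹ : ℝ) : ℂ) • y) := Pr.symm ⟨_, hn, rfl⟩
    obtain ⟨x, hx, hxy⟩ := Set.mem_iUnion₂.1 (hcov ⟨hy1, hy2⟩)
    rw [hU] at hxy
    have hx' : rep x ∈ S.Y := hprY _ _ (hrep1 x) (hF x hx).1
    obtain ⟨q, hq, hyq⟩ := hxy hx' hy1
    exact ⟨⟨rep x, Finset.mem_image_of_mem _ hx⟩, q, hq, hyy.trans hyq⟩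
  · have h1 : Pr i.1 j.1 := ((hbx i.1 (hmem i.1 i.2)).symm.trans h).trans (hbx j.1 (hmem j.1 j.2))
    obtain ⟨x, hx, hxi⟩ := Finset.mem_image.1 i.2
    obtain ⟨x', hx', hxj⟩ := Finset.mem_image.1 j.2
    apply Subtype.ext
    rw [← hxi, ← hxj] at h1 ⊢
    exact hrep2 _ _ (((hrep1 x).symm.trans h1).trans (hrep1 x'))

end Pool.Agent.MQ3

end
end

section

/-!
# MQ3 CutN: the cut-offs of the cover
-/

set_option autoImplicit false

open Topology Filter Metric MvPolynomial MeasureTheory Laplacian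

noncomputable section

namespace Pool.Agent.MQ3

open Pool.Agent.H36.BP (EN fs)
open Pool.Agent.H14.PP (Tan)
open Pool.Agent.H17BP (Surface IsForm)
open Pool.Agent.H17EF (projVar coneE)
open Pool.Agent.H30M (tau LogSing rhoR)
open Pool.Agent.MQ (lam En ztv dvg gr dv)

variable {M : ℕ} {P : Ideal (MvPolynomial (Fin (M + 1)) ℂ)} {RD : MvPolynomial (Fin (M + 1)) ℂ} {m : ℕ} {X : NCModel P RD} {θ : WDiff (coneE P) m}
  {l : LF M} {S : Web X θ l} {Ra : MvPolynomial (Fin (M + 1)) ℂ}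

/-! ## a cut-off along a curve -/

open Classical in
/-- the function `h` along the curve, extended by `0` -/
def cn (U : Set ℂ) (q : ℂ → ℂ × ℂ) (h : ℂ × ℂ → ℝ) (z : ℂ) : ℝ := if z ∈ U then h (q z) else 0

section

variable {U : Set ℂ} {q : ℂ → ℂ × ℂ} {h : ℂ × ℂ → ℝ} {c : ℂ × ℂ} {b : ℝ}

theorem cn_of_mem {z : ℂ} (hz : z ∈ U) : cn U q h z = h (q z) := if_pos hz

theorem cn_ne {z : ℂ} (hz : cn U q h z ≠ 0) : z ∈ U ∧ h (q z) ≠ 0 := by
  unfold cn at hz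
  by_cases h1 : z ∈ U
  · rw [if_pos h1] at hz
    exact ⟨h1, hz⟩
  · rw [if_neg h1] at hz
    exact absurd rfl hz

theorem cn_nonneg (hh : ∀ x, 0 ≤ h x) (z : ℂ) : 0 ≤ cn U q h z := by
  unfold cn
  split_ifs
  · exact hh _
  · exact le_rfl

theorem cn_le_one (hh : ∀ x, h x ≤ 1) (z : ℂ) : cn U q h z ≤ 1 := by
  unfold cn
  split_ifs
  · exact hh _
  · exact zero_le_one

theorem cn_supp (hs : Function.support h ⊆ closedBall c b) (hcl : IsClosed {z | z ∈ U ∧ q z ∈ closedBall c b}) :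
    tsupport (cn U q h) ⊆ {z | z ∈ U ∧ q z ∈ closedBall c b} := by
  refine closure_minimal (fun z hz => ?_) hcl
  obtain ⟨h1, h2⟩ := cn_ne (Function.mem_support.1 hz)
  exact ⟨h1, hs (Function.mem_support.2 h2)⟩

theorem cn_zero (hs : Function.support h ⊆ closedBall c b) (hcl : IsClosed {z | z ∈ U ∧ q z ∈ closedBall c b}) {z : ℂ}
    (hz : ¬ (z ∈ U ∧ q z ∈ closedBall c b)) : cn U q h =ᶠ[𝓝 z] 0 :=
  notMem_tsupport_iff_eventuallyEq.1 fun h1 => hz (cn_supp hs hcl h1)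

theorem cn_near (hU : IsOpen U) {z : ℂ} (hz : z ∈ U) : cn U q h =ᶠ[𝓝 z] fun w => h (q w) := by
  filter_upwards [hU.mem_nhds hz] with w hw
  exact cn_of_mem hw

theorem cn_cd (hU : IsOpen U) (hq : ∀ z ∈ U, AnalyticAt ℂ q z) (hh : ContDiff ℝ 2 h) (hs : Function.support h ⊆ closedBall c b)
    (hcl : IsClosed {z | z ∈ U ∧ q z ∈ closedBall c b}) : ContDiff ℝ 2 (cn U q h) := by
  rw [contDiff_iff_contDiffAt]
  intro z
  by_cases hz : z ∈ U ∧ q z ∈ closedBall c b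
  · refine ContDiffAt.congr_of_eventuallyEq ?_ (cn_near hU hz.1)
    exact ContDiffAt.comp (g := h) z hh.contDiffAt (((hq z hz.1).contDiffAt (n := 2)).restrict_scalars ℝ)
  · exact contDiffAt_const.congr_of_eventuallyEq (cn_zero hs hcl hz)

/-- the bound of the derivative -/
theorem cn_fderiv (hh : ContDiff ℝ 2 h) (hs : Function.support h ⊆ closedBall c b) : ∃ K : ℝ, 0 ≤ K ∧ ∀ (U : Set ℂ) (q : ℂ → ℂ × ℂ) (l : ℂ → ℝ), IsOpen U →
    (∀ z ∈ U, AnalyticAt ℂ q z) → IsClosed {z | z ∈ U ∧ q z ∈ closedBall c b} → (∀ z, 0 ≤ l z) →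
    (∀ z ∈ U, q z ∈ closedBall c b → ‖deriv q z‖ ≤ l z) → ∀ z, ‖fderiv ℝ (cn U q h) z‖ ≤ K * l z := by
  have hcs : HasCompactSupport h := HasCompactSupport.intro (isCompact_closedBall c b) fun x hx => by
    by_contra h1
    exact hx (hs h1)
  obtain ⟨K, hK⟩ := (hcs.fderiv ℝ).exists_bound_of_continuous (hh.continuous_fderiv (by norm_num))
  have hK0 : 0 ≤ K := (norm_nonneg _).trans (hK 0)
  refine ⟨K, hK0, fun U q l hU hq hcl hl hl' z => ?_⟩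
  by_cases hz : z ∈ U ∧ q z ∈ closedBall c b
  · rw [(cn_near hU hz.1).fderiv_eq]
    have h1 : HasFDerivAt q ((fderiv ℂ q z).restrictScalars ℝ) z := (hq z hz.1).differentiableAt.hasFDerivAt.restrictScalars ℝ
    have h2 : HasFDerivAt h (fderiv ℝ h (q z)) (q z) := (hh.differentiable (by norm_num) _).hasFDerivAt
    rw [show fderiv ℝ (fun w => h (q w)) z = (fderiv ℝ h (q z)).comp ((fderiv ℂ q z).restrictScalars ℝ) from (h2.comp z h1).fderiv]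
    refine (ContinuousLinearMap.opNorm_comp_le _ _).trans ?_
    rw [ContinuousLinearMap.norm_restrictScalars, ← norm_deriv_eq_norm_fderiv]
    exact mul_le_mul (hK _) (hl' z hz.1 hz.2) (norm_nonneg _) hK0
  · rw [(cn_zero hs hcl hz).fderiv_eq]
    have : fderiv ℝ (0 : ℂ → ℝ) z = 0 := fderiv_const_apply (0 : ℝ)
    rw [this, norm_zero]
    exact mul_nonneg hK0 (hl z)

end

/-- `gr` and the derivative -/
theorem norm_gr_le_two (u : ℂ → ℝ) (z : ℂ) : ‖gr u z‖ ≤ 2 * ‖fderiv ℝ u z‖ := by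
  have h1 : ‖fderiv ℝ u z 1‖ ≤ ‖fderiv ℝ u z‖ := by
    have := (fderiv ℝ u z).le_opNorm 1
    rwa [norm_one, mul_one] at this
  have h2 : ‖fderiv ℝ u z Complex.I‖ ≤ ‖fderiv ℝ u z‖ := by
    have := (fderiv ℝ u z).le_opNorm Complex.I
    rwa [Complex.norm_I, mul_one] at this
  have h3 := Complex.norm_le_abs_re_add_abs_im (gr u z)
  unfold gr at h3 ⊢
  rw [Real.norm_eq_abs] at h1 h2
  simp only at h3
  linarith

/-- a smooth function which is `1` on the small ball and whose support is the large ball -/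
theorem exists_bmp (c : ℂ × ℂ) {a b : ℝ} (ha : 0 < a) (hab : a < b) : ∃ h : ℂ × ℂ → ℝ, ContDiff ℝ 2 h ∧ (∀ x, 0 ≤ h x) ∧ (∀ x, h x ≤ 1) ∧
    (∀ x ∈ closedBall c a, h x = 1) ∧ Function.support h = ball c b := by
  let f : ContDiffBump c := ⟨a, b, ha, hab⟩
  exact ⟨f, f.contDiff, fun x => f.nonneg, fun x => f.le_one, fun x hx => f.one_of_mem_closedBall hx, f.support_eq⟩

/-! ## the cut-offs -/

/-- the open sets of the cover -/
def UU (C : Cov S Ra) {F : ℂ → EN M} (Y : NCLift X F) : Fin C.nP ⊕ Fin C.nN → Set ℂ := Sum.elim (C.UP Y) (C.UN Y)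

/-- MODULE CutN -/
theorem exists_cut (C : Cov S Ra) : ∃ (B : ℝ) (r' : Fin C.nP → ℝ), (∀ j, C.s j < r' j ∧ r' j < C.r j) ∧ ∀ F : ℂ → EN M, WCrv θ RD F →
    ∀ Y : NCLift X F, ∀ (A : ℝ) (lm : ℂ → ℝ), Dens C Y A lm → ∃ χ : Fin C.nP ⊕ Fin C.nN → ℂ → ℝ, (∀ i, ContDiff ℝ 2 (χ i)) ∧ (∀ i z, 0 ≤ χ i z ∧ χ i z ≤ 1) ∧
      (∀ i, tsupport (χ i) ⊆ UU C Y i) ∧ (∀ i z, ‖gr (χ i) z‖ ≤ B * lm z) ∧ (∀ z, ∃ i, χ i z = 1) ∧
      (∀ j, ∀ z ∈ tsupport (χ (Sum.inl j)), S.lf Y (C.ck j) z ∈ closedBall (C.Q j) (r' j)) ∧ ∀ j, ∀ z ∈ C.core Y j, χ (Sum.inl j) z = 1 := by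
  have hs := C.s_pos
  have hsr := C.s_lt
  have ht := C.t_pos
  -- radii
  set a : Fin C.nP → ℝ := fun j => C.s j + (C.r j - C.s j) / 4 with ha
  set b : Fin C.nP → ℝ := fun j => C.s j + (C.r j - C.s j) / 2 with hb
  set r' : Fin C.nP → ℝ := fun j => C.s j + 3 * (C.r j - C.s j) / 4 with hr'
  have hsa : ∀ j, C.s j < a j := fun j => by simp only [ha]; linarith [hsr j]
  have hab : ∀ j, a j < b j := fun j => by simp only [ha, hb]; linarith [hsr j]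
  have hbr : ∀ j, b j < r' j := fun j => by simp only [hb, hr']; linarith [hsr j]
  have hrr : ∀ j, r' j < C.r j := fun j => by simp only [hr']; linarith [hsr j]
  -- the functions
  choose hψ cψ nψ oψ iψ sψ using fun j => exists_bmp (C.Q j) (a := a j) (b := b j) ((hs j).trans (hsa j)) (hab j)
  choose hχ cχ nχ oχ iχ sχ using fun j => exists_bmp (C.Q j) (a := b j) (b := r' j) ((hs j).trans ((hsa j).trans (hab j))) (hbr j)
  choose hζ cζ nζ oζ iζ sζ using fun k => exists_bmp (C.y k) (a := C.t k / 4) (b := C.t k / 2) (by linarith [ht k]) (by linarith [ht k])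
  have sψ' : ∀ j, Function.support (hψ j) ⊆ closedBall (C.Q j) (b j) := fun j => by rw [sψ]; exact ball_subset_closedBall
  have sχ' : ∀ j, Function.support (hχ j) ⊆ closedBall (C.Q j) (r' j) := fun j => by rw [sχ]; exact ball_subset_closedBall
  have sζ' : ∀ k, Function.support (hζ k) ⊆ closedBall (C.y k) (C.t k / 2) := fun k => by rw [sζ]; exact ball_subset_closedBall
  choose Kψ kψ0 kψ using fun j => cn_fderiv (cψ j) (sψ' j)
  choose Kχ kχ0 kχ using fun j => cn_fderiv (cχ j) (sχ' j)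
  choose Kζ kζ0 kζ using fun k => cn_fderiv (cζ k) (sζ' k)
  refine ⟨2 * (∑ j, Kχ j + (∑ k, Kζ k + ∑ j, Kψ j)), r', fun j => ⟨(hsa j).trans ((hab j).trans (hbr j)), hrr j⟩, ?_⟩
  intro F hF Y A lm hl
  have hl0 : ∀ z, 0 ≤ lm z := fun z => (show (0 : ℝ) ≤ lam F z from div_nonneg (Real.sqrt_nonneg _) (by positivity)).trans (hl.le z)
  -- closed sets
  have hsubP : ∀ j (t : ℝ), t < C.r j → closedBall (C.Q j) t ⊆ closedBall (C.Q j) (C.r j) := fun j t h => closedBall_subset_closedBall h.le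
  have hclP : ∀ j (t : ℝ), t < C.r j → IsClosed {z | z ∈ S.Om Y (C.ck j) ∧ S.lf Y (C.ck j) z ∈ closedBall (C.Q j) t} := fun j t h =>
    lfN_closed hF Y (C.ck j) (isCompact_closedBall _ _) ((hsubP j t h).trans (C.P_sub j))
  have hclN : ∀ k, IsClosed {z | z ∈ Y.U (C.b k) ∧ Y.p (C.b k) z ∈ closedBall (C.y k) (C.t k / 2)} := fun k =>
    Y.closed (C.b k) _ ((closedBall_subset_closedBall (by linarith [ht k])).trans (C.N_sub k)) (isCompact_closedBall _ _)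
  have hbr' : ∀ j, b j < C.r j := fun j => (hbr j).trans (hrr j)
  -- the cut-offs
  set ψ : Fin C.nP → ℂ → ℝ := fun j => cn (S.Om Y (C.ck j)) (S.lf Y (C.ck j)) (hψ j) with hψd
  set χP : Fin C.nP → ℂ → ℝ := fun j => cn (S.Om Y (C.ck j)) (S.lf Y (C.ck j)) (hχ j) with hχd
  set ζ : Fin C.nN → ℂ → ℝ := fun k => cn (Y.U (C.b k)) (Y.p (C.b k)) (hζ k) with hζd
  have ψcd : ∀ j, ContDiff ℝ 2 (ψ j) := fun j => cn_cd (Om_open hF Y _) (lfN_an hF Y _) (cψ j) (sψ' j) (hclP j _ (hbr' j))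
  have χcd : ∀ j, ContDiff ℝ 2 (χP j) := fun j => cn_cd (Om_open hF Y _) (lfN_an hF Y _) (cχ j) (sχ' j) (hclP j _ (hrr j))
  have ζcd : ∀ k, ContDiff ℝ 2 (ζ k) := fun k => cn_cd (Y.isOpen _) (Y.an _) (cζ k) (sζ' k) (hclN k)
  have ψ0 : ∀ j z, 0 ≤ ψ j z := fun j z => cn_nonneg (nψ j) z
  have ψ1 : ∀ j z, ψ j z ≤ 1 := fun j z => cn_le_one (oψ j) z
  -- the sum of the functions `ψ`
  have hdisj : ∀ z j j', ψ j z ≠ 0 → j' ≠ j → ψ j' z = 0 := by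
    intro z j j' h1 h2
    by_contra h3
    obtain ⟨g1, g2⟩ := cn_ne h1
    obtain ⟨g3, g4⟩ := cn_ne h3
    exact C.disj F hF Y j j' h2.symm z g1 (hsubP j _ (hbr' j) (sψ' j (Function.mem_support.2 g2))) g3
      (hsubP j' _ (hbr' j') (sψ' j' (Function.mem_support.2 g4)))
  have hsum : ∀ z, (∑ j, ψ j z) ≤ 1 := by
    intro z
    by_cases h : ∃ j, ψ j z ≠ 0
    · obtain ⟨j, hj⟩ := h
      rw [Finset.sum_eq_single j (fun j' _ h => hdisj z j j' hj h) (fun h => absurd (Finset.mem_univ j) h)]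
      exact ψ1 j z
    · push Not at h
      rw [Finset.sum_eq_zero fun j _ => h j]
      exact zero_le_one
  have hsum0 : ∀ z, 0 ≤ ∑ j, ψ j z := fun z => Finset.sum_nonneg fun j _ => ψ0 j z
  set χN : Fin C.nN → ℂ → ℝ := fun k z => ζ k z * (1 - ∑ j, ψ j z) with hχN
  have hSd : ContDiff ℝ 2 fun z => ∑ j, ψ j z := ContDiff.sum fun j _ => ψcd j
  have χNcd : ∀ k, ContDiff ℝ 2 (χN k) := fun k => (ζcd k).mul (contDiff_const.sub hSd)
  -- derivatives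
  have dψ : ∀ j z, ‖fderiv ℝ (ψ j) z‖ ≤ Kψ j * lm z := fun j =>
    kψ j _ _ lm (Om_open hF Y _) (lfN_an hF Y _) (hclP j _ (hbr' j)) hl0 fun z hz h => hl.pt j z hz (hsubP j _ (hbr' j) h)
  have dχ : ∀ j z, ‖fderiv ℝ (χP j) z‖ ≤ Kχ j * lm z := fun j =>
    kχ j _ _ lm (Om_open hF Y _) (lfN_an hF Y _) (hclP j _ (hrr j)) hl0 fun z hz h => hl.pt j z hz (hsubP j _ (hrr j) h)
  have dζ : ∀ k z, ‖fderiv ℝ (ζ k) z‖ ≤ Kζ k * lm z := fun k =>
    kζ k _ _ lm (Y.isOpen _) (Y.an _) (hclN k) hl0 fun z hz h => hl.box k z hz (closedBall_subset_closedBall (by linarith [ht k]) h)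
  have dN : ∀ k z, ‖fderiv ℝ (χN k) z‖ ≤ (Kζ k + ∑ j, Kψ j) * lm z := by
    intro k z
    have e1 : HasFDerivAt (fun z => ∑ j, ψ j z) (∑ j, fderiv ℝ (ψ j) z) z :=
      HasFDerivAt.fun_sum fun j _ => ((ψcd j).differentiable (by norm_num) z).hasFDerivAt
    have e2 := ((ζcd k).differentiable (by norm_num) z).hasFDerivAt.mul (e1.const_sub 1)
    rw [show fderiv ℝ (χN k) z = _ from e2.fderiv]
    refine (norm_add_le _ _).trans ?_
    rw [norm_smul, norm_smul, norm_neg]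
    have h1 : ‖∑ j, fderiv ℝ (ψ j) z‖ ≤ (∑ j, Kψ j) * lm z := by
      rw [Finset.sum_mul]
      exact (norm_sum_le _ _).trans (Finset.sum_le_sum fun j _ => dψ j z)
    have h2 : ‖ζ k z‖ ≤ 1 := by
      rw [Real.norm_of_nonneg (cn_nonneg (nζ k) z)]
      exact cn_le_one (oζ k) z
    have h3 : ‖1 - ∑ j, ψ j z‖ ≤ 1 := by
      rw [Real.norm_of_nonneg (by linarith [hsum z])]
      linarith [hsum0 z]
    have h4 := dζ k z
    have h5 : ‖ζ k z‖ * ‖∑ j, fderiv ℝ (ψ j) z‖ ≤ 1 * ((∑ j, Kψ j) * lm z) := mul_le_mul h2 h1 (norm_nonneg _) zero_le_one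
    have h6 : ‖1 - ∑ j, ψ j z‖ * ‖fderiv ℝ (ζ k) z‖ ≤ 1 * (Kζ k * lm z) := mul_le_mul h3 h4 (norm_nonneg _) zero_le_one
    linarith
  refine ⟨Sum.elim χP χN, ?_, ?_, ?_, ?_, ?_, ?_, ?_⟩
  · rintro (j | k)
    · exact χcd j
    · exact χNcd k
  · rintro (j | k) z
    · exact ⟨cn_nonneg (nχ j) z, cn_le_one (oχ j) z⟩
    · have h1 : 0 ≤ ζ k z := cn_nonneg (nζ k) z
      have h2 : ζ k z ≤ 1 := cn_le_one (oζ k) z
      have h3 := hsum z
      have h4 := hsum0 z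
      exact ⟨mul_nonneg h1 (by linarith), mul_le_one₀ h2 (by linarith) (by linarith)⟩
  · rintro (j | k) z hz
    · obtain ⟨h1, h2⟩ := cn_supp (sχ' j) (hclP j _ (hrr j)) hz
      exact ⟨h1, closedBall_subset_ball (hrr j) h2⟩
    · obtain ⟨h1, h2⟩ := cn_supp (sζ' k) (hclN k) (tsupport_mul_subset_left hz)
      refine ⟨h1, closedBall_subset_ball (by linarith [ht k]) h2, fun j hj => ?_⟩
      refine (notMem_tsupport_iff_eventuallyEq.2 ?_) hz
      have h3 : ∀ᶠ w in 𝓝 z, S.lf Y (C.ck j) w ∈ ball (C.Q j) (a j) :=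
        (lfN_an hF Y _ z hj.1).continuousAt.eventually (isOpen_ball.mem_nhds (closedBall_subset_ball (hsa j) hj.2))
      filter_upwards [h3, (Om_open hF Y (C.ck j)).mem_nhds hj.1] with w h4 h5
      have h6 : ψ j w = 1 := by
        simp only [hψd]
        rw [cn_of_mem h5]
        exact iψ j _ (ball_subset_closedBall h4)
      have h7 : (∑ j', ψ j' w) = 1 := by
        rw [Finset.sum_eq_single j (fun j' _ h => hdisj w j j' (by rw [h6]; exact one_ne_zero) h) (fun h => absurd (Finset.mem_univ j) h), h6]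
      show ζ k w * (1 - ∑ j', ψ j' w) = 0
      rw [h7, sub_self, mul_zero]
  · have hS1 : ∀ j, Kχ j ≤ ∑ j, Kχ j := fun j => Finset.single_le_sum (fun j _ => kχ0 j) (Finset.mem_univ j)
    have hS2 : ∀ k, Kζ k ≤ ∑ k, Kζ k := fun k => Finset.single_le_sum (fun k _ => kζ0 k) (Finset.mem_univ k)
    have hS3 : 0 ≤ ∑ j, Kψ j := Finset.sum_nonneg fun j _ => kψ0 j
    have hS4 : 0 ≤ ∑ j, Kχ j := Finset.sum_nonneg fun j _ => kχ0 j
    have hS5 : 0 ≤ ∑ k, Kζ k := Finset.sum_nonneg fun k _ => kζ0 k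
    rintro (j | k) z
    · refine (norm_gr_le_two _ _).trans ?_
      have h1 := dχ j z
      have h2 : Kχ j * lm z ≤ (∑ j, Kχ j + (∑ k, Kζ k + ∑ j, Kψ j)) * lm z := mul_le_mul_of_nonneg_right (by linarith [hS1 j]) (hl0 z)
      show 2 * ‖fderiv ℝ (χP j) z‖ ≤ _
      linarith
    · refine (norm_gr_le_two _ _).trans ?_
      have h1 := dN k z
      have h2 : (Kζ k + ∑ j, Kψ j) * lm z ≤ (∑ j, Kχ j + (∑ k, Kζ k + ∑ j, Kψ j)) * lm z := mul_le_mul_of_nonneg_right (by linarith [hS2 k]) (hl0 z)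
      show 2 * ‖fderiv ℝ (χN k) z‖ ≤ _
      linarith
  · intro z
    by_cases h : ∃ j, ψ j z ≠ 0
    · obtain ⟨j, hj⟩ := h
      obtain ⟨g1, g2⟩ := cn_ne hj
      refine ⟨Sum.inl j, ?_⟩
      show χP j z = 1
      simp only [hχd]
      rw [cn_of_mem g1]
      exact iχ j _ (sψ' j (Function.mem_support.2 g2))
    · push Not at h
      obtain ⟨k, hk, hk'⟩ := C.cover F hF Y z
      refine ⟨Sum.inr k, ?_⟩
      show ζ k z * (1 - ∑ j', ψ j' z) = 1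
      rw [Finset.sum_eq_zero fun j _ => h j, sub_zero, mul_one]
      simp only [hζd]
      rw [cn_of_mem hk]
      exact iζ k _ (ball_subset_closedBall hk')
  · intro j z hz
    exact (cn_supp (sχ' j) (hclP j _ (hrr j)) hz).2
  · rintro j z ⟨h1, h2⟩
    show χP j z = 1
    simp only [hχd]
    rw [cn_of_mem h1]
    exact iχ j _ (closedBall_subset_closedBall ((hsa j).trans (hab j)).le h2)

end Pool.Agent.MQ3

end
end
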