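import Pool.Agent.H94.G6.M18

/-! The parts of this file: H13.G0.Tay, H13.G0.ScalB, H13.G0.ScalG, SG.NScal. -/

section

/-!
# G0 Tay: Taylor coefficients by iterated divided differences, and their limits along an ultrafilter

`tr k φ` is the `k`-th divided difference of `φ` at `0` (`φ z = Σ_{l<k} z ^ l • tr l φ 0 + z ^ k • tr k φ z`).
-/

set_option autoImplicit false

open Topology Filter Metric Finset

namespace Pool.Agent.H13.G0

variable {E : Type*} [NormedAddCommGroup E] [NormedSpace ℂ E]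

/-- the iterated divided difference at `0` -/
noncomputable def tr (k : ℕ) (φ : ℂ → E) : ℂ → E := (fun ψ => dslope ψ 0)^[k] φ

@[simp] theorem tr_zero (φ : ℂ → E) : tr 0 φ = φ := rfl

theorem tr_succ (k : ℕ) (φ : ℂ → E) : tr (k + 1) φ = dslope (tr k φ) 0 := by
  unfold tr
  rw [Function.iterate_succ_apply']

theorem tr_step (k : ℕ) (φ : ℂ → E) (z : ℂ) : tr k φ z = tr k φ 0 + z • tr (k + 1) φ z := by
  have h := sub_smul_dslope (tr k φ) 0 z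
  rw [tr_succ]
  rw [sub_zero] at h
  rw [h]
  abel

/-- Taylor expansion with remainder -/
theorem tr_sum (k : ℕ) (φ : ℂ → E) (z : ℂ) : φ z = ∑ l ∈ range k, z ^ l • tr l φ 0 + z ^ k • tr k φ z := by
  induction k with
  | zero => simp
  | succ k ih =>
    rw [sum_range_succ, add_assoc]
    nth_rewrite 1 [ih]
    congr 1
    rw [tr_step k φ z, smul_add, smul_smul, pow_succ]

variable [CompleteSpace E]

theorem diff_tr {φ : ℂ → E} {ρ : ℝ} (hρ : 0 < ρ) (hφ : DifferentiableOn ℂ φ (ball 0 ρ)) (k : ℕ) : DifferentiableOn ℂ (tr k φ) (ball 0 ρ) := by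
  induction k with
  | zero => simpa using hφ
  | succ k ih =>
    rw [tr_succ]
    exact (Complex.differentiableOn_dslope (ball_mem_nhds 0 hρ)).2 ih

theorem norm_dslope_le {φ : ℂ → E} {ρ B : ℝ} (hρ : 0 < ρ) (hφ : DifferentiableOn ℂ φ (ball 0 ρ))
    (hB : ∀ z ∈ ball (0 : ℂ) ρ, ‖φ z‖ ≤ B) : ∀ z ∈ ball (0 : ℂ) ρ, ‖dslope φ 0 z‖ ≤ 2 * B / ρ := by
  intro z hz
  refine Complex.norm_dslope_le_div_of_mapsTo_ball hφ (fun w hw => ?_) hz
  rw [mem_closedBall, dist_eq_norm]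
  have h1 := hB w hw
  have h2 := hB 0 (mem_ball_self hρ)
  have h3 := norm_sub_le (φ w) (φ 0)
  linarith

theorem norm_tr_le {φ : ℂ → E} {ρ B : ℝ} (hρ : 0 < ρ) (hφ : DifferentiableOn ℂ φ (ball 0 ρ))
    (hB : ∀ z ∈ ball (0 : ℂ) ρ, ‖φ z‖ ≤ B) (k : ℕ) : ∀ z ∈ ball (0 : ℂ) ρ, ‖tr k φ z‖ ≤ (2 / ρ) ^ k * B := by
  induction k with
  | zero => simpa using hB
  | succ k ih =>
    intro z hz
    have h1 := norm_dslope_le hρ (diff_tr hρ hφ k) ih z hz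
    rw [← tr_succ] at h1
    refine h1.trans (le_of_eq ?_)
    rw [pow_succ]
    ring

theorem dslope_sub_eq {φ ψ : ℂ → E} {ρ : ℝ} (hρ : 0 < ρ) (hφ : DifferentiableOn ℂ φ (ball 0 ρ)) (hψ : DifferentiableOn ℂ ψ (ball 0 ρ)) :
    dslope (fun z => φ z - ψ z) 0 = fun z => dslope φ 0 z - dslope ψ 0 z := by
  funext z
  rcases eq_or_ne z 0 with rfl | hz
  · rw [dslope_same, dslope_same, dslope_same]
    have h1 := (hφ 0 (mem_ball_self hρ)).differentiableAt (ball_mem_nhds 0 hρ)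
    have h2 := (hψ 0 (mem_ball_self hρ)).differentiableAt (ball_mem_nhds 0 hρ)
    exact deriv_fun_sub h1 h2
  · rw [dslope_of_ne _ hz, dslope_of_ne _ hz, dslope_of_ne _ hz]
    simp only [slope, vsub_eq_sub]
    rw [← smul_sub]
    congr 1
    abel

theorem tr_sub {φ ψ : ℂ → E} {ρ : ℝ} (hρ : 0 < ρ) (hφ : DifferentiableOn ℂ φ (ball 0 ρ)) (hψ : DifferentiableOn ℂ ψ (ball 0 ρ)) (k : ℕ) :
    tr k (fun z => φ z - ψ z) = fun z => tr k φ z - tr k ψ z := by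
  induction k with
  | zero => rfl
  | succ k ih =>
    rw [tr_succ, ih, dslope_sub_eq hρ (diff_tr hρ hφ k) (diff_tr hρ hψ k), tr_succ, tr_succ]

/-- convergence of the divided differences -/
theorem tendsto_tr {𝒰 : Filter ℕ} {φ : ℕ → ℂ → E} {ψ : ℂ → E} {ρ : ℝ} (hρ : 0 < ρ) (hφ : ∀ᶠ n in 𝒰, DifferentiableOn ℂ (φ n) (ball 0 ρ))
    (hψ : DifferentiableOn ℂ ψ (ball 0 ρ)) (h : ∀ ε : ℝ, 0 < ε → ∀ᶠ n in 𝒰, ∀ z ∈ ball (0 : ℂ) ρ, ‖φ n z - ψ z‖ ≤ ε) (k : ℕ) :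
    ∀ ε : ℝ, 0 < ε → ∀ᶠ n in 𝒰, ∀ z ∈ ball (0 : ℂ) ρ, ‖tr k (φ n) z - tr k ψ z‖ ≤ ε := by
  intro ε hε
  have hp : (0 : ℝ) < (2 / ρ) ^ k := by positivity
  filter_upwards [hφ, h (ε / (2 / ρ) ^ k) (by positivity)] with n h1 h2 z hz
  have h3 := norm_tr_le hρ (h1.sub hψ) h2 k z hz
  have h4 : tr k (φ n - ψ) = fun z => tr k (φ n) z - tr k ψ z := tr_sub hρ h1 hψ k
  rw [h4] at h3
  refine h3.trans (le_of_eq ?_)
  field_simp

theorem tendsto_tr_zero {𝒰 : Filter ℕ} {φ : ℕ → ℂ → E} {ψ : ℂ → E} {ρ : ℝ} (hρ : 0 < ρ) (hφ : ∀ᶠ n in 𝒰, DifferentiableOn ℂ (φ n) (ball 0 ρ))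
    (hψ : DifferentiableOn ℂ ψ (ball 0 ρ)) (h : ∀ ε : ℝ, 0 < ε → ∀ᶠ n in 𝒰, ∀ z ∈ ball (0 : ℂ) ρ, ‖φ n z - ψ z‖ ≤ ε) (k : ℕ) :
    Tendsto (fun n => tr k (φ n) 0) 𝒰 (𝓝 (tr k ψ 0)) := by
  rw [Metric.tendsto_nhds]
  intro ε hε
  filter_upwards [tendsto_tr hρ hφ hψ h k (ε / 2) (by linarith)] with n hn
  rw [dist_eq_norm]
  have := hn 0 (mem_ball_self hρ)
  linarith

/-- the divided difference of `z ^ m • K z` -/
theorem dslope_smul {K : ℂ → E} (hK : ContinuousAt K 0) : dslope (fun z : ℂ => z • K z) 0 = K := by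
  funext z
  rcases eq_or_ne z 0 with rfl | hz
  · rw [dslope_same]
    refine HasDerivAt.deriv ?_
    rw [hasDerivAt_iff_tendsto_slope_zero]
    have h1 : Tendsto K (𝓝[≠] 0) (𝓝 (K 0)) := hK.tendsto.mono_left nhdsWithin_le_nhds
    refine h1.congr' ?_
    filter_upwards [self_mem_nhdsWithin] with t ht
    rw [zero_add, zero_smul, sub_zero, smul_smul, inv_mul_cancel₀ ht, one_smul]
  · rw [dslope_of_ne _ hz, slope_def_module, zero_smul, sub_zero, sub_zero, smul_smul, inv_mul_cancel₀ hz, one_smul]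

theorem tr_pow_smul {K : ℂ → E} {ρ : ℝ} (hρ : 0 < ρ) (hK : DifferentiableOn ℂ K (ball 0 ρ)) (m : ℕ) :
    ∀ k : ℕ, k ≤ m → tr k (fun z : ℂ => z ^ m • K z) = fun z => z ^ (m - k) • K z := by
  have hc : ContinuousAt K 0 := (hK.continuousOn 0 (mem_ball_self hρ)).continuousAt (ball_mem_nhds 0 hρ)
  intro k
  induction k with
  | zero => intro _; simp
  | succ k ih =>
    intro hk
    rw [tr_succ, ih (by omega)]
    have e : (fun z : ℂ => z ^ (m - k) • K z) = fun z => z • (z ^ (m - (k + 1)) • K z) := by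
      funext z
      rw [smul_smul, ← pow_succ']
      congr 2
      omega
    rw [e]
    refine dslope_smul ?_
    exact (continuousAt_id.pow _).smul hc

theorem tr_pow_smul_zero {K : ℂ → E} {ρ : ℝ} (hρ : 0 < ρ) (hK : DifferentiableOn ℂ K (ball 0 ρ)) {m k : ℕ} (hk : k < m) :
    tr k (fun z : ℂ => z ^ m • K z) 0 = 0 := by
  rw [tr_pow_smul hρ hK m k hk.le]
  simp [Nat.sub_ne_zero_of_lt hk]

theorem tr_pow_smul_self {K : ℂ → E} {ρ : ℝ} (hρ : 0 < ρ) (hK : DifferentiableOn ℂ K (ball 0 ρ)) (m : ℕ) :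
    tr m (fun z : ℂ => z ^ m • K z) = K := by
  rw [tr_pow_smul hρ hK m m le_rfl]
  simp

end Pool.Agent.H13.G0

end

section

/-!
# G0 ScalB: the scaling theorem (STEP 1 of note 4435)
-/

set_option autoImplicit false

open Topology Filter Metric Finset

namespace Pool.Agent.H13.G0

variable {E F : Type*} [NormedAddCommGroup E] [NormedSpace ℂ E] [FiniteDimensional ℂ E] [NormedAddCommGroup F] [NormedSpace ℂ F]

/-- the rescaled functions converge to a polynomial -/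
theorem resc {𝒰 : Ultrafilter ℕ} {φ : ℕ → ℂ → E} {ψ : ℂ → E} {ρ : ℝ} (hρ : 0 < ρ)
    (hφ : ∀ᶠ n in (𝒰 : Filter ℕ), DifferentiableOn ℂ (φ n) (ball 0 ρ)) (hψ : DifferentiableOn ℂ ψ (ball 0 ρ)) {B : ℝ} (hB : ∀ z ∈ ball (0 : ℂ) ρ, ‖ψ z‖ ≤ B)
    (h : ∀ ε : ℝ, 0 < ε → ∀ᶠ n in (𝒰 : Filter ℕ), ∀ z ∈ ball (0 : ℂ) ρ, ‖φ n z - ψ z‖ ≤ ε)
    (L : E →L[ℂ] F) {lam : ℕ → ℝ} (hlam : Tendsto lam 𝒰 (𝓝 0)) (hpos : ∀ᶠ n in (𝒰 : Filter ℕ), 0 < lam n) (m : ℕ) {b : ℕ → F}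
    (hb : ∀ l ≤ m, Tendsto (fun n => ((lam n : ℂ) ^ (m - l))⁻¹ • L (tr l (φ n) 0)) 𝒰 (𝓝 (b l))) (A : ℝ) :
    TendstoUniformlyOn (fun n u => ((lam n : ℂ) ^ m)⁻¹ • L (φ n (lam n * u))) (fun u => ∑ l ∈ range (m + 1), u ^ l • b l) 𝒰 (closedBall 0 A) := by
  haveI : CompleteSpace E := FiniteDimensional.complete ℂ E
  set A' : ℝ := max A 1 with hA'
  have hA'1 : 1 ≤ A' := le_max_right _ _
  have hA'0 : 0 < A' := by linarith
  set C : ℝ := (2 / ρ) ^ (m + 1) * (B + 1) with hC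
  have hB0 : 0 ≤ B := (norm_nonneg _).trans (hB 0 (mem_ball_self hρ))
  have hC0 : 0 ≤ C := by positivity
  -- the error
  have herr : Tendsto (fun n => ∑ l ∈ range (m + 1), A' ^ l * ‖((lam n : ℂ) ^ (m - l))⁻¹ • L (tr l (φ n) 0) - b l‖ + lam n * (A' ^ (m + 1) * (‖L‖ * C))) 𝒰
      (𝓝 (∑ l ∈ range (m + 1), A' ^ l * 0 + 0 * (A' ^ (m + 1) * (‖L‖ * C)))) := by
    refine Tendsto.add (tendsto_finset_sum _ fun l hl => ?_) (hlam.mul_const _)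
    refine Tendsto.const_mul _ ?_
    have h1 := (hb l (Nat.lt_succ_iff.1 (mem_range.1 hl))).sub_const (b l)
    rw [sub_self] at h1
    exact tendsto_zero_iff_norm_tendsto_zero.1 h1
  simp only [mul_zero, sum_const_zero, zero_mul, add_zero] at herr
  rw [Metric.tendstoUniformlyOn_iff]
  intro ε hε
  have hsmall : ∀ᶠ n in (𝒰 : Filter ℕ), lam n < ρ / A' := hlam.eventually (gt_mem_nhds (by positivity))
  filter_upwards [hφ, hpos, hsmall, h 1 one_pos, herr.eventually (gt_mem_nhds hε)] with n h1 h2 h3 h4 h5 u hu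
  rw [mem_closedBall_zero_iff] at hu
  have hu' : ‖u‖ ≤ A' := hu.trans (le_max_left _ _)
  have hz : (lam n : ℂ) * u ∈ ball (0 : ℂ) ρ := by
    rw [mem_ball_zero_iff, norm_mul, Complex.norm_real, Real.norm_of_nonneg h2.le]
    rw [lt_div_iff₀ hA'0] at h3
    exact lt_of_le_of_lt (mul_le_mul_of_nonneg_left hu' h2.le) h3
  have hbd : ∀ z ∈ ball (0 : ℂ) ρ, ‖φ n z‖ ≤ B + 1 := by
    intro z hz
    have e1 := h4 z hz
    have e2 := hB z hz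
    have e3 := norm_add_le (φ n z - ψ z) (ψ z)
    rw [sub_add_cancel] at e3
    linarith
  have h6 : ‖tr (m + 1) (φ n) (lam n * u)‖ ≤ C := norm_tr_le hρ h1 hbd (m + 1) _ hz
  have hl0 : (lam n : ℂ) ≠ 0 := by
    rw [Ne, Complex.ofReal_eq_zero]
    exact h2.ne'
  have h7 : ((lam n : ℂ) ^ m)⁻¹ • L (φ n (lam n * u)) =
      ∑ l ∈ range (m + 1), u ^ l • (((lam n : ℂ) ^ (m - l))⁻¹ • L (tr l (φ n) 0)) + ((lam n : ℂ) * u ^ (m + 1)) • L (tr (m + 1) (φ n) (lam n * u)) := by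
    conv_lhs => rw [tr_sum (m + 1) (φ n) (lam n * u)]
    rw [map_add, map_sum, smul_add, smul_sum]
    congr 1
    · refine sum_congr rfl fun l hl => ?_
      have hlm : l ≤ m := Nat.lt_succ_iff.1 (mem_range.1 hl)
      rw [map_smul, smul_smul, smul_smul, mul_pow]
      congr 1
      have e1 : (lam n : ℂ) ^ m = (lam n : ℂ) ^ (m - l) * (lam n : ℂ) ^ l := by
        rw [← pow_add]
        congr 1
        omega
      rw [e1]
      have e2 : (lam n : ℂ) ^ (m - l) ≠ 0 := pow_ne_zero _ hl0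
      have e3 : (lam n : ℂ) ^ l ≠ 0 := pow_ne_zero _ hl0
      field_simp
    · rw [map_smul, smul_smul, mul_pow]
      congr 1
      have e2 : (lam n : ℂ) ^ m ≠ 0 := pow_ne_zero _ hl0
      rw [pow_succ (lam n : ℂ) m]
      field_simp
  rw [dist_comm, dist_eq_norm, h7, add_sub_right_comm, ← sum_sub_distrib]
  refine lt_of_le_of_lt ?_ h5
  refine (norm_add_le _ _).trans (add_le_add ?_ ?_)
  · refine (norm_sum_le _ _).trans (sum_le_sum fun l _ => ?_)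
    rw [← smul_sub, norm_smul, norm_pow]
    exact mul_le_mul_of_nonneg_right (pow_le_pow_left₀ (norm_nonneg _) hu' l) (norm_nonneg _)
  · rw [norm_smul, norm_mul, norm_pow, Complex.norm_real, Real.norm_of_nonneg h2.le, mul_assoc]
    refine mul_le_mul_of_nonneg_left (mul_le_mul (pow_le_pow_left₀ (norm_nonneg _) hu' _) ?_ (norm_nonneg _) (by positivity)) h2.le
    exact (L.le_opNorm _).trans (mul_le_mul_of_nonneg_left h6 (norm_nonneg _))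

/-- a weight -/
theorem wt_le {t S : ℝ} {w : ℕ} (hw : 1 ≤ w) (ht : 0 ≤ t) (h : t ^ ((w : ℝ)⁻¹) ≤ S) : t ≤ S ^ w := by
  have h1 : (t ^ ((w : ℝ)⁻¹)) ^ w = t := Real.rpow_inv_natCast_pow ht (by omega)
  rw [← h1]
  exact pow_le_pow_left₀ (Real.rpow_nonneg ht _) h w

theorem wt_smul {x : E} {S : ℝ} {w : ℕ} (hw : 1 ≤ w) (hS : 0 < S) :
    ‖((S : ℂ) ^ w)⁻¹ • x‖ ^ ((w : ℝ)⁻¹) = S⁻¹ * ‖x‖ ^ ((w : ℝ)⁻¹) := by
  rw [norm_smul, norm_inv, norm_pow, Complex.norm_real, Real.norm_of_nonneg hS.le, Real.mul_rpow (by positivity) (norm_nonneg _),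
    Real.inv_rpow (by positivity), Real.pow_rpow_inv_natCast hS.le (by omega)]

/-- `Σ ‖x l‖ ^ (1 / (m - l))` over `l < m` -/
noncomputable def wsum (m : ℕ) (x : ℕ → E) : ℝ := ∑ l ∈ range m, ‖x l‖ ^ (((m - l : ℕ) : ℝ)⁻¹)

theorem wsum_nonneg (m : ℕ) (x : ℕ → E) : 0 ≤ wsum m x := sum_nonneg fun _ _ => Real.rpow_nonneg (norm_nonneg _) _

theorem wsum_tendsto {𝒰 : Filter ℕ} {m : ℕ} {x : ℕ → ℕ → E} {x₀ : ℕ → E} (h : ∀ l < m, Tendsto (fun n => x n l) 𝒰 (𝓝 (x₀ l))) :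
    Tendsto (fun n => wsum m (x n)) 𝒰 (𝓝 (wsum m x₀)) := by
  refine tendsto_finset_sum _ fun l hl => ?_
  refine (h l (mem_range.1 hl)).norm.rpow_const (Or.inr ?_)
  positivity

theorem wsum_eq_zero {m : ℕ} {x : ℕ → E} (h : ∀ l < m, x l = 0) : wsum m x = 0 := by
  refine sum_eq_zero fun l hl => ?_
  have hl' := mem_range.1 hl
  rw [h l hl', norm_zero, Real.zero_rpow]
  have : ((m - l : ℕ) : ℝ) ≠ 0 := by
    rw [Nat.cast_ne_zero]
    omega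
  exact inv_ne_zero this

theorem wsum_smul {m : ℕ} {x : ℕ → E} {S : ℝ} (hS : 0 < S) : wsum m (fun l => ((S : ℂ) ^ (m - l))⁻¹ • x l) = S⁻¹ * wsum m x := by
  unfold wsum
  rw [mul_sum]
  refine sum_congr rfl fun l hl => ?_
  have hl' := mem_range.1 hl
  exact wt_smul (by omega) hS

theorem le_of_wsum {m : ℕ} {x : ℕ → E} {S : ℝ} (h : wsum m x ≤ S) {l : ℕ} (hl : l < m) : ‖x l‖ ≤ S ^ (m - l) := by
  refine wt_le (by omega) (norm_nonneg _) (le_trans ?_ h)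
  exact single_le_sum (f := fun l => ‖x l‖ ^ (((m - l : ℕ) : ℝ)⁻¹)) (fun i _ => Real.rpow_nonneg (norm_nonneg _) _) (mem_range.2 hl)

theorem norm_resc_le {m : ℕ} {x : ℕ → E} {S : ℝ} (hS : 0 < S) (h : wsum m x ≤ S) {l : ℕ} (hl : l < m) : ‖((S : ℂ) ^ (m - l))⁻¹ • x l‖ ≤ 1 := by
  rw [norm_smul, norm_inv, norm_pow, Complex.norm_real, Real.norm_of_nonneg hS.le, inv_mul_le_iff₀ (by positivity), mul_one]
  exact le_of_wsum h hl

end Pool.Agent.H13.G0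

end

section

/-!
# G0 ScalG: scaling of a finite family of degenerating sequences of functions with weights

`f i n → z ^ w i • K i z`.  All Taylor coefficients of `f i n` at `c n` of degree less than `w i` are normalised by ONE scale `lam n`.
-/

set_option autoImplicit false

open Topology Filter Metric Finset

namespace Pool.Agent.H13.G0

variable {ι : Type*} [Fintype ι] {E : ι → Type*} [∀ i, NormedAddCommGroup (E i)] [∀ i, NormedSpace ℂ (E i)] [∀ i, FiniteDimensional ℂ (E i)]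

/-- the estimate on the neck, for one function -/
theorem neck_one {F : Type*} [NormedAddCommGroup F] [NormedSpace ℂ F] [CompleteSpace F] {𝒰 : Filter ℕ} {φ : ℕ → ℂ → F} {K : ℂ → F} {ρ : ℝ} (hρ : 0 < ρ) {w : ℕ}
    (hφ : ∀ᶠ n in 𝒰, DifferentiableOn ℂ (φ n) (ball 0 ρ)) (hK : DifferentiableOn ℂ K (ball 0 ρ))
    (h : ∀ ε : ℝ, 0 < ε → ∀ᶠ n in 𝒰, ∀ z ∈ ball (0 : ℂ) ρ, ‖φ n z - z ^ w • K z‖ ≤ ε)
    {lam : ℕ → ℝ} (hpos : ∀ᶠ n in 𝒰, 0 < lam n) (hl : ∀ᶠ n in 𝒰, ∀ l < w, ‖tr l (φ n) 0‖ ≤ lam n ^ (w - l)) {ε : ℝ} (hε : 0 < ε) :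
    ∃ R₀ δ : ℝ, 1 ≤ R₀ ∧ 0 < δ ∧ δ < ρ ∧ ∀ᶠ n in 𝒰, ∀ z : ℂ, R₀ * lam n ≤ ‖z‖ → ‖z‖ ≤ δ → ‖φ n z - z ^ w • K 0‖ ≤ ε * ‖z‖ ^ w := by
  have hψ : DifferentiableOn ℂ (fun z : ℂ => z ^ w • K z) (ball 0 ρ) := ((differentiable_id.pow w).differentiableOn).smul hK
  have hKc : ContinuousAt K 0 := (hK.continuousOn 0 (mem_ball_self hρ)).continuousAt (ball_mem_nhds 0 hρ)
  obtain ⟨δ₁, hδ₁, hδ₁'⟩ := Metric.continuousAt_iff.1 hKc (ε / 3) (by linarith)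
  set δ : ℝ := min (ρ / 2) (δ₁ / 2) with hδ
  have hδ0 : 0 < δ := lt_min (by linarith) (by linarith)
  have hδρ : δ < ρ := (min_le_left _ _).trans_lt (by linarith)
  set R₀ : ℝ := max 1 (3 * w / ε) with hR₀
  have hR1 : 1 ≤ R₀ := le_max_left _ _
  refine ⟨R₀, δ, hR1, hδ0, hδρ, ?_⟩
  filter_upwards [hφ, hpos, hl, tendsto_tr hρ hφ hψ h w (ε / 3) (by linarith)] with n h1 h2 h3 h4 z hz1 hz2
  have hzρ : z ∈ ball (0 : ℂ) ρ := by
    rw [mem_ball_zero_iff]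
    linarith
  have hz0 : 0 < ‖z‖ := lt_of_lt_of_le (mul_pos (by linarith) h2) hz1
  have h5 : φ n z - z ^ w • K 0 = ∑ l ∈ range w, z ^ l • tr l (φ n) 0 + z ^ w • ((tr w (φ n) z - K z) + (K z - K 0)) := by
    conv_lhs => rw [tr_sum w (φ n) z]
    rw [sub_add_sub_cancel, smul_sub]
    abel
  have h6 : ‖K z - K 0‖ ≤ ε / 3 := by
    have := hδ₁' (x := z) (by
      rw [dist_zero_right]
      have : δ ≤ δ₁ / 2 := min_le_right _ _
      linarith)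
    rw [dist_eq_norm] at this
    exact this.le
  have h7 : ‖tr w (φ n) z - K z‖ ≤ ε / 3 := by
    have := h4 z hzρ
    rwa [tr_pow_smul_self hρ hK w] at this
  have h8 : ‖∑ l ∈ range w, z ^ l • tr l (φ n) 0‖ ≤ ε / 3 * ‖z‖ ^ w := by
    have h9 : ∀ l ∈ range w, ‖z ^ l • tr l (φ n) 0‖ ≤ ‖z‖ ^ w * R₀⁻¹ := by
      intro l hl
      have hlw := mem_range.1 hl
      rw [norm_smul, norm_pow]
      have e1 : ‖tr l (φ n) 0‖ ≤ (‖z‖ * R₀⁻¹) ^ (w - l) := by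
        refine (h3 l hlw).trans (pow_le_pow_left₀ h2.le ?_ _)
        rw [← div_eq_mul_inv, le_div_iff₀ (by linarith)]
        linarith
      have e2 : (R₀⁻¹) ^ (w - l) ≤ R₀⁻¹ := by
        have e3 : R₀⁻¹ ≤ 1 := inv_le_one_of_one_le₀ hR1
        have e4 : 0 ≤ R₀⁻¹ := by positivity
        calc (R₀⁻¹) ^ (w - l) ≤ (R₀⁻¹) ^ 1 := pow_le_pow_of_le_one e4 e3 (by omega)
          _ = R₀⁻¹ := pow_one _
      calc ‖z‖ ^ l * ‖tr l (φ n) 0‖ ≤ ‖z‖ ^ l * (‖z‖ * R₀⁻¹) ^ (w - l) := mul_le_mul_of_nonneg_left e1 (by positivity)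
        _ = ‖z‖ ^ w * (R₀⁻¹) ^ (w - l) := by
          rw [mul_pow, ← mul_assoc, ← pow_add]
          congr 2
          omega
        _ ≤ ‖z‖ ^ w * R₀⁻¹ := mul_le_mul_of_nonneg_left e2 (by positivity)
    refine (norm_sum_le _ _).trans ((sum_le_sum h9).trans ?_)
    rw [sum_const, card_range, nsmul_eq_mul]
    have e1 : 3 * (w : ℝ) / ε ≤ R₀ := le_max_right _ _
    rw [div_le_iff₀ hε] at e1
    have e2 : (w : ℝ) * R₀⁻¹ ≤ ε / 3 := by
      rw [← div_eq_mul_inv, div_le_iff₀ (by linarith)]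
      linarith
    calc (w : ℝ) * (‖z‖ ^ w * R₀⁻¹) = ((w : ℝ) * R₀⁻¹) * ‖z‖ ^ w := by ring
      _ ≤ ε / 3 * ‖z‖ ^ w := mul_le_mul_of_nonneg_right e2 (by positivity)
  rw [h5]
  refine (norm_add_le _ _).trans ?_
  have h10 : ‖z ^ w • ((tr w (φ n) z - K z) + (K z - K 0))‖ ≤ ‖z‖ ^ w * (ε / 3 + ε / 3) := by
    rw [norm_smul, norm_pow]
    refine mul_le_mul_of_nonneg_left ?_ (by positivity)
    exact (norm_add_le _ _).trans (add_le_add h7 h6)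
  have h11 : ‖z‖ ^ w * (ε / 3 + ε / 3) = ε / 3 * ‖z‖ ^ w + ε / 3 * ‖z‖ ^ w := by ring
  have h12 : ε * ‖z‖ ^ w = ε / 3 * ‖z‖ ^ w + (ε / 3 * ‖z‖ ^ w + ε / 3 * ‖z‖ ^ w) := by ring
  rw [h12]
  linarith

/-- the general scaling theorem -/
theorem scaling_family (𝒰 : Ultrafilter ℕ) {f : ∀ i, ℕ → ℂ → E i} {K : ∀ i, ℂ → E i} {w : ι → ℕ} {r : ℝ} (hr : 0 < r)
    (hf : ∀ i, ∀ᶠ n in (𝒰 : Filter ℕ), DifferentiableOn ℂ (f i n) (ball 0 r)) (hK : ∀ i, DifferentiableOn ℂ (K i) (ball 0 r))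
    (hlim : ∀ i, TendstoLocallyUniformlyOn (f i) (fun z => z ^ w i • K i z) 𝒰 (ball 0 r))
    {c : ℕ → ℂ} (hc : Tendsto c 𝒰 (𝓝 0)) (hne : ∀ᶠ n in (𝒰 : Filter ℕ), ∃ i, 1 ≤ w i ∧ f i n (c n) ≠ 0) :
    ∃ (lam : ℕ → ℝ) (q : ∀ i, ℕ → E i), Tendsto lam 𝒰 (𝓝 0) ∧ (∀ᶠ n in (𝒰 : Filter ℕ), 0 < lam n) ∧
      (∀ i, ∀ A : ℝ, TendstoUniformlyOn (fun n u => ((lam n : ℂ) ^ w i)⁻¹ • f i n (c n + lam n * u))
        (fun u => ∑ l ∈ range (w i + 1), u ^ l • q i l) 𝒰 (closedBall 0 A)) ∧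
      (∀ i, q i (w i) = K i 0) ∧ ¬ (∀ i, ∀ l < w i, q i l = 0) ∧
      (∀ i, ∀ l ≤ w i, Tendsto (fun n => ((lam n : ℂ) ^ (w i - l))⁻¹ • tr l (fun z => f i n (c n + z)) 0) 𝒰 (𝓝 (q i l))) ∧
      ∀ ε : ℝ, 0 < ε → ∃ R₀ δ : ℝ, 1 ≤ R₀ ∧ 0 < δ ∧ δ < r / 2 ∧ ∀ᶠ n in (𝒰 : Filter ℕ), ∀ i, ∀ z : ℂ, R₀ * lam n ≤ ‖z‖ → ‖z‖ ≤ δ →
        ‖f i n (c n + z) - z ^ w i • K i 0‖ ≤ ε * ‖z‖ ^ w i := by
  classical
  haveI : ∀ i, CompleteSpace (E i) := fun i => FiniteDimensional.complete ℂ (E i)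
  have hΓd : ∀ i, DifferentiableOn ℂ (fun z : ℂ => z ^ w i • K i z) (ball 0 r) := fun i =>
    ((differentiable_id.pow (w i)).differentiableOn).smul (hK i)
  set ρ : ℝ := r / 2 with hρ
  have hρ0 : 0 < ρ := by positivity
  have hρr : ρ < r := by rw [hρ]; linarith
  set φ : ∀ i, ℕ → ℂ → E i := fun i n z => f i n (c n + z) with hφ
  set ψ : ∀ i, ℂ → E i := fun i z => z ^ w i • K i z with hψ
  have hun : ∀ i, ∀ ε : ℝ, 0 < ε → ∀ᶠ n in (𝒰 : Filter ℕ), ∀ z ∈ ball (0 : ℂ) ρ, ‖φ i n z - ψ i z‖ ≤ ε := fun i =>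
    shift_unif hr (hΓd i).continuousOn (hlim i) hc
  have hcsmall : ∀ᶠ n in (𝒰 : Filter ℕ), ‖c n‖ < r / 2 := by
    have := Metric.tendsto_nhds.1 hc (r / 2) (by positivity)
    filter_upwards [this] with n hn
    rwa [dist_zero_right] at hn
  have hmem : ∀ᶠ n in (𝒰 : Filter ℕ), ∀ z ∈ ball (0 : ℂ) ρ, c n + z ∈ ball (0 : ℂ) r := by
    filter_upwards [hcsmall] with n hn z hz
    rw [mem_ball_zero_iff] at hz ⊢
    have := norm_add_le (c n) z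
    rw [hρ] at hz
    linarith
  have hφd : ∀ i, ∀ᶠ n in (𝒰 : Filter ℕ), DifferentiableOn ℂ (φ i n) (ball 0 ρ) := by
    intro i
    filter_upwards [hf i, hmem] with n h1 h2
    exact h1.comp ((differentiable_const _).add differentiable_id).differentiableOn h2
  have hψd : ∀ i, DifferentiableOn ℂ (ψ i) (ball 0 ρ) := fun i => (hΓd i).mono (ball_subset_ball hρr.le)
  have hKρ : ∀ i, DifferentiableOn ℂ (K i) (ball 0 ρ) := fun i => (hK i).mono (ball_subset_ball hρr.le)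
  have hB : ∀ i, ∃ B : ℝ, ∀ z ∈ ball (0 : ℂ) ρ, ‖ψ i z‖ ≤ B := by
    intro i
    obtain ⟨B, hB⟩ := (isCompact_closedBall (0 : ℂ) ρ).exists_bound_of_continuousOn ((hΓd i).continuousOn.mono (closedBall_subset_ball hρr))
    exact ⟨B, fun z hz => hB z (ball_subset_closedBall hz)⟩
  choose B hB using hB
  have htr : ∀ i k, Tendsto (fun n => tr k (φ i n) 0) 𝒰 (𝓝 (tr k (ψ i) 0)) := fun i => tendsto_tr_zero hρ0 (hφd i) (hψd i) (hun i)
  -- the scale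
  set α : ∀ i, ℕ → ℕ → E i := fun i n l => tr l (φ i n) 0 with hα
  have hα0 : ∀ i, ∀ l < w i, Tendsto (fun n => α i n l) 𝒰 (𝓝 0) := by
    intro i l hl
    have h1 := htr i l
    rw [hψ, tr_pow_smul_zero hρ0 (hKρ i) hl] at h1
    exact h1
  set lam : ℕ → ℝ := fun n => ∑ i, wsum (w i) (α i n) with hlam
  have hlam0 : Tendsto lam 𝒰 (𝓝 0) := by
    have h1 : Tendsto (fun n => ∑ i, wsum (w i) (α i n)) 𝒰 (𝓝 (∑ _i : ι, (0 : ℝ))) := by
      refine tendsto_finset_sum _ fun i _ => ?_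
      have h2 := wsum_tendsto (x := α i) (x₀ := fun _ => 0) (hα0 i)
      rwa [wsum_eq_zero (fun _ _ => rfl)] at h2
    rwa [sum_const_zero] at h1
  have hle : ∀ n i, wsum (w i) (α i n) ≤ lam n := fun n i =>
    single_le_sum (f := fun i => wsum (w i) (α i n)) (fun j _ => wsum_nonneg _ _) (mem_univ i)
  have hpos : ∀ᶠ n in (𝒰 : Filter ℕ), 0 < lam n := by
    filter_upwards [hne] with n hn
    obtain ⟨i, hi, hfi⟩ := hn
    have h5 : α i n 0 = f i n (c n) := by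
      change f i n (c n + 0) = f i n (c n)
      rw [add_zero]
    have h6 : 0 < ‖α i n 0‖ ^ (((w i - 0 : ℕ) : ℝ)⁻¹) := by
      refine Real.rpow_pos_of_pos ?_ _
      rw [h5]
      exact norm_pos_iff.2 hfi
    have h7 : ‖α i n 0‖ ^ (((w i - 0 : ℕ) : ℝ)⁻¹) ≤ wsum (w i) (α i n) :=
      single_le_sum (f := fun l => ‖α i n l‖ ^ (((w i - l : ℕ) : ℝ)⁻¹)) (fun j _ => Real.rpow_nonneg (norm_nonneg _) _) (mem_range.2 (by omega))
    exact h6.trans_le (h7.trans (hle n i))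
  -- the limits of the coefficients
  have hq : ∀ i l, ∃ b : E i, l ≤ w i → Tendsto (fun n => ((lam n : ℂ) ^ (w i - l))⁻¹ • tr l (φ i n) 0) 𝒰 (𝓝 b) := by
    intro i l
    by_cases hl : l < w i
    · obtain ⟨b, hb⟩ := exists_lim_of_bdd 𝒰 (b := fun n => ((lam n : ℂ) ^ (w i - l))⁻¹ • tr l (φ i n) 0) (C := 1) (by
        filter_upwards [hpos] with n hn
        exact norm_resc_le (x := α i n) hn (hle n i) hl)
      exact ⟨b, fun _ => hb⟩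
    · refine ⟨tr l (ψ i) 0, fun h => ?_⟩
      have e : w i - l = 0 := by omega
      simp only [e, pow_zero, inv_one, one_smul]
      exact htr i l
  choose q hq using hq
  have hres : ∀ i, ∀ A : ℝ, TendstoUniformlyOn (fun n u => ((lam n : ℂ) ^ w i)⁻¹ • φ i n (lam n * u))
      (fun u => ∑ l ∈ range (w i + 1), u ^ l • q i l) 𝒰 (closedBall 0 A) := fun i A =>
    resc hρ0 (hφd i) (hψd i) (hB i) (hun i) (ContinuousLinearMap.id ℂ (E i)) hlam0 hpos (w i) (b := q i) (fun l hl => hq i l hl) A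
  refine ⟨lam, q, hlam0, hpos, hres, ?_, ?_, fun i l hl => hq i l hl, ?_⟩
  · intro i
    refine tendsto_nhds_unique (hq i (w i) le_rfl) ?_
    have h1 := htr i (w i)
    rw [hψ, tr_pow_smul_self hρ0 (hKρ i)] at h1
    simp only [Nat.sub_self, pow_zero, inv_one, one_smul]
    exact h1
  · intro h1
    have h3 : Tendsto (fun n => ∑ i, wsum (w i) (fun l => ((lam n : ℂ) ^ (w i - l))⁻¹ • α i n l)) 𝒰 (𝓝 (∑ i, wsum (w i) (q i))) :=
      tendsto_finset_sum _ fun i _ => wsum_tendsto (x := fun n l => ((lam n : ℂ) ^ (w i - l))⁻¹ • α i n l) (x₀ := q i) fun l hl => hq i l hl.le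
    have h2 : ∑ i, wsum (w i) (q i) = 0 := sum_eq_zero fun i _ => wsum_eq_zero (h1 i)
    rw [h2] at h3
    have h4 : Tendsto (fun n => ∑ i, wsum (w i) (fun l => ((lam n : ℂ) ^ (w i - l))⁻¹ • α i n l)) 𝒰 (𝓝 1) := by
      refine tendsto_const_nhds.congr' ?_
      filter_upwards [hpos] with n hn
      simp_rw [wsum_smul hn]
      rw [← mul_sum]
      exact (inv_mul_cancel₀ hn.ne').symm
    exact zero_ne_one (tendsto_nhds_unique h3 h4)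
  · intro ε hε
    have hl : ∀ i, ∀ᶠ n in (𝒰 : Filter ℕ), ∀ l < w i, ‖tr l (φ i n) 0‖ ≤ lam n ^ (w i - l) := fun i =>
      Eventually.of_forall fun n l hl => le_of_wsum (x := α i n) (hle n i) hl
    have h1 : ∀ i, ∃ R₀ δ : ℝ, 1 ≤ R₀ ∧ 0 < δ ∧ δ < ρ ∧ ∀ᶠ n in (𝒰 : Filter ℕ), ∀ z : ℂ, R₀ * lam n ≤ ‖z‖ → ‖z‖ ≤ δ →
        ‖φ i n z - z ^ w i • K i 0‖ ≤ ε * ‖z‖ ^ w i := fun i => neck_one hρ0 (hφd i) (hKρ i) (hun i) hpos (hl i) hε
    choose R₀ δ hR hδ hδρ hn using h1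
    obtain ⟨δ', hδ', hδ'ρ, hδ'i⟩ : ∃ δ' : ℝ, 0 < δ' ∧ δ' < ρ ∧ ∀ i, δ' ≤ δ i := by
      rcases isEmpty_or_nonempty ι with he | hne'
      · exact ⟨ρ / 2, by linarith, by linarith, fun i => (he.false i).elim⟩
      · obtain ⟨i₀, -, hi₀⟩ := exists_min_image univ δ univ_nonempty
        exact ⟨δ i₀, hδ i₀, hδρ i₀, fun i => hi₀ i (mem_univ i)⟩
    refine ⟨1 + ∑ i, R₀ i, δ', ?_, hδ', hδ'ρ, ?_⟩
    · have : 0 ≤ ∑ i, R₀ i := sum_nonneg fun i _ => (by linarith [hR i])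
      linarith
    · rw [eventually_all]
      intro i
      filter_upwards [hn i, hpos] with n h2 h3 z hz1 hz2
      refine h2 z (le_trans ?_ hz1) (hz2.trans (hδ'i i))
      refine mul_le_mul_of_nonneg_right ?_ h3.le
      have h4 : R₀ i ≤ ∑ i, R₀ i := single_le_sum (f := R₀) (fun j _ => (by linarith [hR j])) (mem_univ i)
      linarith

end Pool.Agent.H13.G0

end

section

/-!
# SG NScal: the scaling of three functions `A n`, `B n`, `v n` with the weights `M`, `e * M + 1`, `M`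
-/

set_option autoImplicit false

open Topology Filter Metric Finset

noncomputable section

namespace Pool.Agent.SG

open Pool.Agent.H13.G0 (scaling_family)

/-- the index set -/
inductive I3 : Type
  | a
  | b
  | v
  deriving DecidableEq, Fintype

/-- the spaces -/
def E3 (V : Type) : I3 → Type
  | .a => ℂ
  | .b => ℂ
  | .v => V

variable {V : Type} [NormedAddCommGroup V] [NormedSpace ℂ V]

instance instE3a : ∀ i : I3, NormedAddCommGroup (E3 V i)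
  | .a => inferInstanceAs (NormedAddCommGroup ℂ)
  | .b => inferInstanceAs (NormedAddCommGroup ℂ)
  | .v => inferInstanceAs (NormedAddCommGroup V)

instance instE3b : ∀ i : I3, NormedSpace ℂ (E3 V i)
  | .a => inferInstanceAs (NormedSpace ℂ ℂ)
  | .b => inferInstanceAs (NormedSpace ℂ ℂ)
  | .v => inferInstanceAs (NormedSpace ℂ V)

instance instE3c [FiniteDimensional ℂ V] : ∀ i : I3, FiniteDimensional ℂ (E3 V i)
  | .a => inferInstanceAs (FiniteDimensional ℂ ℂ)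
  | .b => inferInstanceAs (FiniteDimensional ℂ ℂ)
  | .v => inferInstanceAs (FiniteDimensional ℂ V)

/-- the three families -/
def fam (A B : ℕ → ℂ → ℂ) (v : ℕ → ℂ → V) : ∀ i : I3, ℕ → ℂ → E3 V i
  | .a => A
  | .b => B
  | .v => v

/-- the three limits -/
def famK (A B : ℂ → ℂ) (v : ℂ → V) : ∀ i : I3, ℂ → E3 V i
  | .a => A
  | .b => B
  | .v => v

/-- the weights -/
def famw (M e : ℕ) : I3 → ℕ
  | .a => M
  | .b => e * M + 1
  | .v => M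

theorem scal3 [FiniteDimensional ℂ V] (𝒰 : Ultrafilter ℕ) {r : ℝ} (hr : 0 < r) {M e : ℕ} (hM : 1 ≤ M)
    {A B : ℕ → ℂ → ℂ} {v : ℕ → ℂ → V} {KA KB : ℂ → ℂ} {KV : ℂ → V}
    (hA : ∀ᶠ n in (𝒰 : Filter ℕ), DifferentiableOn ℂ (A n) (ball 0 r)) (hB : ∀ᶠ n in (𝒰 : Filter ℕ), DifferentiableOn ℂ (B n) (ball 0 r))
    (hv : ∀ᶠ n in (𝒰 : Filter ℕ), DifferentiableOn ℂ (v n) (ball 0 r))
    (hKA : DifferentiableOn ℂ KA (ball 0 r)) (hKB : DifferentiableOn ℂ KB (ball 0 r)) (hKV : DifferentiableOn ℂ KV (ball 0 r))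
    (hAl : TendstoLocallyUniformlyOn A (fun z => z ^ M * KA z) 𝒰 (ball 0 r))
    (hBl : TendstoLocallyUniformlyOn B (fun z => z ^ (e * M + 1) * KB z) 𝒰 (ball 0 r))
    (hvl : TendstoLocallyUniformlyOn v (fun z => z ^ M • KV z) 𝒰 (ball 0 r))
    {c : ℕ → ℂ} (hc : Tendsto c 𝒰 (𝓝 0)) (hcv : ∀ᶠ n in (𝒰 : Filter ℕ), v n (c n) ≠ 0) :
    ∃ (lam : ℕ → ℝ) (pa pb : ℕ → ℂ) (pv : ℕ → V), Tendsto lam 𝒰 (𝓝 0) ∧ (∀ᶠ n in (𝒰 : Filter ℕ), 0 < lam n) ∧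
      (∀ R : ℝ, TendstoUniformlyOn (fun n u => ((lam n : ℂ) ^ M)⁻¹ * A n (c n + lam n * u))
        (fun u => ∑ l ∈ range (M + 1), u ^ l * pa l) 𝒰 (closedBall 0 R)) ∧
      (∀ R : ℝ, TendstoUniformlyOn (fun n u => ((lam n : ℂ) ^ (e * M + 1))⁻¹ * B n (c n + lam n * u))
        (fun u => ∑ l ∈ range (e * M + 1 + 1), u ^ l * pb l) 𝒰 (closedBall 0 R)) ∧
      (∀ R : ℝ, TendstoUniformlyOn (fun n u => ((lam n : ℂ) ^ M)⁻¹ • v n (c n + lam n * u))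
        (fun u => ∑ l ∈ range (M + 1), u ^ l • pv l) 𝒰 (closedBall 0 R)) ∧
      pa M = KA 0 ∧ pb (e * M + 1) = KB 0 ∧ pv M = KV 0 ∧
      ¬ ((∀ l < M, pa l = 0) ∧ (∀ l < e * M + 1, pb l = 0) ∧ ∀ l < M, pv l = 0) ∧
      ∀ ε : ℝ, 0 < ε → ∃ R₀ δ : ℝ, 1 ≤ R₀ ∧ 0 < δ ∧ δ < r / 2 ∧ ∀ᶠ n in (𝒰 : Filter ℕ), ∀ z : ℂ, R₀ * lam n ≤ ‖z‖ → ‖z‖ ≤ δ →
        ‖A n (c n + z) - z ^ M * KA 0‖ ≤ ε * ‖z‖ ^ M ∧ ‖B n (c n + z) - z ^ (e * M + 1) * KB 0‖ ≤ ε * ‖z‖ ^ (e * M + 1) ∧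
          ‖v n (c n + z) - z ^ M • KV 0‖ ≤ ε * ‖z‖ ^ M := by
  obtain ⟨lam, q, h1, h2, h3, h4, h5, -, h6⟩ := scaling_family (E := E3 V) (f := fam A B v) (K := famK KA KB KV) (w := famw M e) 𝒰 hr
    (fun i => match i with
      | .a => hA
      | .b => hB
      | .v => hv)
    (fun i => match i with
      | .a => hKA
      | .b => hKB
      | .v => hKV)
    (fun i => match i with
      | .a => hAl
      | .b => hBl
      | .v => hvl) hc (hcv.mono fun n hn => ⟨.v, hM, hn⟩)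
  refine ⟨lam, q .a, q .b, q .v, h1, h2, h3 .a, h3 .b, h3 .v, h4 .a, h4 .b, h4 .v, fun h => h5 fun i => ?_, fun ε hε => ?_⟩
  · match i with
    | .a => exact h.1
    | .b => exact h.2.1
    | .v => exact h.2.2
  · obtain ⟨R₀, δ, hR, hδ, hδr, h7⟩ := h6 ε hε
    exact ⟨R₀, δ, hR, hδ, hδr, h7.mono fun n hn z hz1 hz2 => ⟨hn .a z hz1 hz2, hn .b z hz1 hz2, hn .v z hz1 hz2⟩⟩

end Pool.Agent.SG

end
end
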