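import Pool.Agent.H94.G6.M109
import Pool.Agent.H94.G6.M112
import Pool.Agent.H94.G6.M115
import Pool.Agent.H94.G6.M132
import Pool.Agent.H94.G6.M141
import Pool.Agent.H94.G6.M146
import Pool.Agent.H94.G6.M157
import Pool.Agent.H94.G6.SG.NCore

/-! The parts of this file: H90.SG.HasUI, SG2.BubI, SG2.BubN. -/

section

/-!
# SG HasUI: the weighted energy with the two-sided bound at a smooth point of the curve, without blow-up
-/

set_option autoImplicit false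

open Topology Filter Metric

noncomputable section

namespace Pool.Agent.H90.SG

open Pool.Agent.H36.BP (EN)
open Pool.Agent.H17BP (Surface IsForm IsChart)
open Pool.Agent.H14.KB (rhoS)
open Pool.Agent.SY (Ent Energy ModelS)
open Pool.Agent.H36.TB (oC sm EnergyB TBAt)
open Pool.Agent.H36.TB (energyB_of_model)

variable {V : Type} [NormedAddCommGroup V] [NormedSpace ℂ V]

/-- MODULE HasUI: at a smooth point of the curve, in the chart `(σ, τ)` in which the curve is `{p.1 = 0}`. -/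
theorem exists_energy_near [FiniteDimensional ℂ V] {X T : Set V} {m j : ℕ} {Ω : V → V → V → ℂ} {κ : Type} [Fintype κ]
    {Q : κ → V → ℂ} {D : ℕ} (h : ModelS X T m j Ω Q D) {σ : ℂ × ℂ → V} {τ : V → ℂ × ℂ} (hσ : IsChart X σ τ)
    (hT : ∀ᶠ p in 𝓝 (0 : ℂ × ℂ), (σ p ∈ T ↔ p.1 = 0))
    {θ κ₁ : ℝ} (hθ : 0 < θ) (hθ1 : θ < 1) (hκ₁ : 0 < κ₁) {N : ℕ} (L : V ≃L[ℂ] EN N) :
    ∃ (M : ℕ) (c₀ C k : ℝ) (g : (ℂ → V) → ℂ → ℝ) (pn : V → ℝ) (D₁ : ℕ), 1 ≤ M ∧ 0 < k ∧ k ≤ κ₁ ∧ k ≤ 1 / 4 ∧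
      EnergyB X T m j Ω (fun x => ‖L x‖) (rhoS Q D) M c₀ C g pn D₁ θ ∧ TBNear X T m j Ω θ k σ τ g pn D₁ := by
  obtain ⟨M, c₀, C, k, g, pn, D₁, hM, hk0, hk1, hk2, E, tb⟩ := energyB_of_model h hθ hθ1 hκ₁ N L
  refine ⟨M, c₀, C, k, g, pn, D₁, hM, hk0, hk1, hk2, E, ?_⟩
  exact tbNear_of_tbAt h.surf (h.eqs.cone h.surf.smul) h.one_m hθ E hσ (tb _ hσ.σ_mem.self_of_nhds) hT

end Pool.Agent.H90.SG

end
end

section

/-!
# SG2 BubI: case (I), no bubbles at a smooth point of the curve `T = {Q = 0}` along which the form vanishes to order `< m`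

`Φ n → z ^ M • G z`, the curve `G` is transversal to `{Q = 0}` at `G 0`, the rational curves of degree `≤ M` lie in `T`.  The weighted energy
`g (Φ n) * pn (Φ n) ^ (-(θ j / (m D₁)))` satisfies the maximum principle (`maxU`, with the local bound `bound_near_obj`) and the two-sided bound `box_near`:
`core_I` applies, with `a = μ' / m < 1`, `b = θ j / m`, `θ = 1 / 2`.
-/

set_option autoImplicit false

open Topology Filter Metric

noncomputable section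

namespace Pool.Agent.SG2

open Pool.Agent.H36.BP (EN)
open Pool.Agent.H14.PP (IsCone)
open Pool.Agent.H17BP (Surface IsChart IsForm NoZeros Pr)
open Pool.Agent.H74.NB (CC Obj)
open Pool.Agent.H36.TB (oC EnergyB)
open Pool.Agent.H90.SG (TBNear exists_energy_near exists_order oC_ne)
open Pool.Agent.UC (RatC)
open Pool.Agent.SY (Ent Energy ModelS bound_near_obj)
open Pool.Agent.SG (exists_chart_norm box_near maxU core_I)

variable {N : ℕ}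

/-- **Case (I)**, in terms of the limit `Φ n → z ^ M • G z`. -/
theorem bub_I {X T : Set (EN N)} (hc : IsCone X) {m j : ℕ} {Ω : EN N → EN N → EN N → ℂ} {κ : Type} [Fintype κ] {Qs : κ → EN N → ℂ} {D : ℕ}
    (hS : ModelS X T m j Ω Qs D) {𝒰 : Ultrafilter ℕ} {Φ : ℕ → ℂ → EN N} {G : ℂ → EN N} {r : ℝ} {M : ℕ} (hobj : Obj 𝒰 Φ 0 M G r) (hM : 1 ≤ M)
    (hΦ : ∀ᶠ n in (𝒰 : Filter ℕ), Differentiable ℂ (Φ n) ∧ ∀ z, Φ n z ∈ X)
    {Q : EN N → ℂ} {e : ℕ} (hQa : ∀ y, AnalyticAt ℂ Q y) (hQs : ∀ (c : ℂ) y, Q (c • y) = c ^ e * Q y)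
    (hTQ : ∀ y ∈ X, (y ∈ T ↔ Q y = 0)) {q : ℂ} (hq : q ≠ 0) (hQ1 : HasDerivAt (fun z => Q (G z)) q 0)
    {σ₀ : ℂ × ℂ → EN N} {τ₀ : EN N → ℂ × ℂ} (h₀ : IsChart X σ₀ τ₀) {a : ℂ} (ha : a ≠ 0) (h0 : σ₀ 0 = a • G 0)
    {R : ℂ × ℂ → ℂ} (hR : AnalyticAt ℂ R 0) (hR0 : R 0 ≠ 0) (hred : ∀ᶠ p in 𝓝 (0 : ℂ × ℂ), Q (σ₀ p) = p.1 * R p) {μ : ℕ} (hμ : μ < m)
    (hlow : ∃ B : ℝ, ∀ᶠ p in 𝓝 (0 : ℂ × ℂ), ‖p.1‖ ^ μ ≤ B * ‖oC Ω σ₀ p‖)
    (hrat : ∀ (d : ℕ) (K K' : ℂ → EN N), 1 ≤ d → d ≤ M → RatC X d K K' → ∀ z, K z ∈ T) : False := by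
  have hX := hS.surf
  have hΩ := hS.form
  have hm := hS.one_m
  have hj := hS.one_j
  have hTX : T ⊆ X := fun y hy => ((hS.eqs.mem_iff y).1 hy).1
  have hTs := hS.eqs.cone hX.smul
  have hG0 : G 0 ≠ 0 := hobj.nzG
  have hai : a⁻¹ ≠ 0 := inv_ne_zero ha
  have hGX : G 0 ∈ X := by
    have h1 : G 0 = a⁻¹ • σ₀ 0 := by rw [h0, smul_smul, inv_mul_cancel₀ ha, one_smul]
    rw [h1]
    exact hX.smul _ h₀.σ_mem.self_of_nhds _ hai
  obtain ⟨L, hL⟩ : ∃ L : EN N →L[ℂ] ℂ, L (G 0) = 1 := by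
    obtain ⟨Λ, h1⟩ := exists_dual_vector ℂ (G 0) (norm_ne_zero_iff.mpr hG0)
    have h2 : Λ (G 0) ≠ 0 := by
      rw [h1.2]
      simpa using hG0
    exact ⟨(Λ (G 0))⁻¹ • Λ, by
      rw [smul_apply, smul_eq_mul, inv_mul_cancel₀ h2]⟩
  -- the normalised equation
  have hQG0 : Q (G 0) = 0 := by
    have h1 : Q (σ₀ 0) = 0 := by
      have := hred.self_of_nhds
      rw [this]
      simp
    rw [h0, hQs] at h1
    exact (mul_eq_zero.1 h1).resolve_left (pow_ne_zero _ ha)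
  obtain ⟨Q₁, hQ₁⟩ : ∃ Q₁ : EN N → ℂ, ∀ y, Q₁ y = q⁻¹ * Q y := ⟨_, fun _ => rfl⟩
  have hQ₁e : Q₁ = fun y => q⁻¹ * Q y := funext hQ₁
  have hQa₁ : ∀ y, AnalyticAt ℂ Q₁ y := fun y => by
    rw [hQ₁e]
    exact analyticAt_const.mul (hQa y)
  have hQs₁ : ∀ (c : ℂ) y, Q₁ (c • y) = c ^ e * Q₁ y := fun c y => by
    rw [hQ₁, hQ₁, hQs]
    ring
  have hQ₁0 : Q₁ (G 0) = 0 := by rw [hQ₁, hQG0, mul_zero]
  have hQ₁1 : HasDerivAt (fun z => Q₁ (G z)) 1 0 := by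
    have h1 := hQ1.const_mul q⁻¹
    rw [inv_mul_cancel₀ hq] at h1
    rw [hQ₁e]
    exact h1
  have hzero : ∀ y, Q₁ y = 0 ↔ Q y = 0 := fun y => by
    rw [hQ₁, mul_eq_zero]
    exact or_iff_right (inv_ne_zero hq)
  -- the normalised chart
  have h₀' := h₀.scale hX.smul hai
  have hs0 : a⁻¹ • σ₀ 0 = G 0 := by rw [h0, smul_smul, inv_mul_cancel₀ ha, one_smul]
  have hd₀ : fderiv ℂ (fun p => Q₁ (a⁻¹ • σ₀ p)) 0 ≠ 0 := by
    have h1 : HasFDerivAt (fun p : ℂ × ℂ => p.1 * R p) ((0 : ℂ × ℂ).1 • fderiv ℂ R 0 + R 0 • ContinuousLinearMap.fst ℂ ℂ ℂ) 0 :=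
      hasFDerivAt_fst.mul hR.differentiableAt.hasFDerivAt
    have h2 : HasFDerivAt (fun p : ℂ × ℂ => Q₁ (a⁻¹ • σ₀ p))
        ((q⁻¹ * a⁻¹ ^ e) • ((0 : ℂ × ℂ).1 • fderiv ℂ R 0 + R 0 • ContinuousLinearMap.fst ℂ ℂ ℂ)) 0 := by
      refine (h1.const_smul (q⁻¹ * a⁻¹ ^ e)).congr_of_eventuallyEq ?_
      filter_upwards [hred] with p hp
      rw [hQs₁, hQ₁, hp]
      show a⁻¹ ^ e * (q⁻¹ * (p.1 * R p)) = (q⁻¹ * a⁻¹ ^ e) * (p.1 * R p)
      ring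
    rw [h2.fderiv]
    intro h3
    have h4 := DFunLike.congr_fun h3 (1, 0)
    simp at h4
    rcases h4 with (h4 | h4) | h4
    · exact hq h4
    · exact ha h4.1
    · exact hR0 h4
  obtain ⟨σ, τ, hσ, hσ0, hLσ, hτ, hτh⟩ := exists_chart_norm hX.smul h₀' (L := L) (by rw [hs0]; exact hL) (Q := Q₁) (e := e) (hQa₁ _) hQs₁
    (by rw [hs0]; exact hQ₁0) hd₀
  have hσG : σ 0 = G 0 := hσ0.trans hs0
  have hQσ : ∀ᶠ p in 𝓝 (0 : ℂ × ℂ), Q₁ (σ p) = p.1 := by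
    filter_upwards [hσ.left, hLσ] with p h1 h2
    have h3 := hτ (σ p)
    rw [h1, h2, one_pow, div_one] at h3
    exact h3.symm
  have hT : ∀ᶠ p in 𝓝 (0 : ℂ × ℂ), (σ p ∈ T ↔ p.1 = 0) := by
    filter_upwards [hQσ, hσ.σ_mem] with p h1 h2
    rw [hTQ _ h2, ← hzero, h1]
  -- the energy
  obtain ⟨ME, c₀, C, k, g, pn, D₁, -, hk0, -, hk4, E, htb⟩ := exists_energy_near hS hσ hT (θ := 1 / 2) (κ₁ := 1) (by norm_num) (by norm_num)
    one_pos (ContinuousLinearEquiv.refl ℂ (EN N))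
  -- the order of the form
  obtain ⟨μ', w, hw, hw0, hwev⟩ := exists_order (hΩ.analytic σ 0 hσ.σ_an hσ.σ_mem) (by
    filter_upwards [oC_ne hS.noZeros hσ, hT] with p h1 h2 h3
    exact h1 fun h4 => h3 (h2.1 h4))
  have hμ' : μ' ≤ μ := by
    obtain ⟨B, hB⟩ := hlow
    have hRn : ∀ᶠ p in 𝓝 (0 : ℂ × ℂ), ‖R p‖ < ‖R 0‖ + 1 := hR.continuousAt.norm.eventually (gt_mem_nhds (by linarith))
    refine order_le (Q := Q₁) (e := e) (B₀ := (‖q⁻¹‖ * (‖R 0‖ + 1)) ^ μ * B) hX.smul hΩ h₀ hσ ha (by rw [hσG, h0]) (by rw [hσG]; exact hL) hτ hτh ?_ hw.continuousAt hwev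
    filter_upwards [hB, hRn, hred] with p h1 h2 h3
    rw [hQ₁, h3]
    calc ‖q⁻¹ * (p.1 * R p)‖ ^ μ = (‖q⁻¹‖ * ‖R p‖) ^ μ * ‖p.1‖ ^ μ := by
          rw [norm_mul, norm_mul, ← mul_pow]
          ring
      _ ≤ (‖q⁻¹‖ * (‖R 0‖ + 1)) ^ μ * (B * ‖oC Ω σ₀ p‖) := by gcongr
      _ = (‖q⁻¹‖ * (‖R 0‖ + 1)) ^ μ * B * ‖oC Ω σ₀ p‖ := by ring
  have hord : ∃ B : ℝ, 1 ≤ B ∧ ∀ᶠ p in 𝓝 (0 : ℂ × ℂ), ‖p.1‖ ^ μ' ≤ B * ‖oC Ω σ p‖ ∧ ‖oC Ω σ p‖ ≤ B * ‖p.1‖ ^ μ' := by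
    have hn : 0 < ‖w 0‖ := norm_pos_iff.2 hw0
    have h1 : ∀ᶠ p in 𝓝 (0 : ℂ × ℂ), ‖w p‖ < 2 * ‖w 0‖ := hw.continuousAt.norm.eventually (gt_mem_nhds (by linarith))
    have h2 : ∀ᶠ p in 𝓝 (0 : ℂ × ℂ), ‖w 0‖ / 2 < ‖w p‖ := hw.continuousAt.norm.eventually (lt_mem_nhds (by linarith))
    refine ⟨max 1 (max (2 * ‖w 0‖) (2 / ‖w 0‖)), le_max_left _ _, ?_⟩
    filter_upwards [h1, h2, hwev] with p h3 h4 h5
    have h6 : oC Ω σ p = p.1 ^ μ' * w p := h5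
    rw [h6, norm_mul, norm_pow]
    have h7 : 0 ≤ ‖p.1‖ ^ μ' := by positivity
    constructor
    · have h8 : 1 ≤ 2 / ‖w 0‖ * ‖w p‖ := by
        rw [div_mul_eq_mul_div, le_div_iff₀ hn]
        linarith
      calc ‖p.1‖ ^ μ' ≤ ‖p.1‖ ^ μ' * (2 / ‖w 0‖ * ‖w p‖) := le_mul_of_one_le_right h7 h8
        _ = 2 / ‖w 0‖ * (‖p.1‖ ^ μ' * ‖w p‖) := by ring
        _ ≤ max 1 (max (2 * ‖w 0‖) (2 / ‖w 0‖)) * (‖p.1‖ ^ μ' * ‖w p‖) :=
            mul_le_mul_of_nonneg_right ((le_max_right _ _).trans (le_max_right _ _)) (by positivity)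
    · calc ‖p.1‖ ^ μ' * ‖w p‖ ≤ ‖p.1‖ ^ μ' * (2 * ‖w 0‖) := mul_le_mul_of_nonneg_left h3.le h7
        _ = 2 * ‖w 0‖ * ‖p.1‖ ^ μ' := by ring
        _ ≤ max 1 (max (2 * ‖w 0‖) (2 / ‖w 0‖)) * ‖p.1‖ ^ μ' :=
            mul_le_mul_of_nonneg_right ((le_max_left _ _).trans (le_max_right _ _)) h7
  -- the families
  obtain ⟨KB, hKB, hKB0, fA, fB, fv, cA, cB, cv, c, hc0, hcA, hcv⟩ := fam hobj hM hL hQa₁ hQs₁ hQ₁0 hQ₁1
  have hnr : ball (0 : ℂ) r ∈ 𝓝 (0 : ℂ) := ball_mem_nhds _ hobj.pos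
  have hLG : DifferentiableOn ℂ (fun z => L (G z)) (ball 0 r) := L.differentiable.comp_differentiableOn hobj.holG
  have hKV : DifferentiableOn ℂ (fun z => G z - L (G z) • G 0) (ball 0 r) := hobj.holG.sub (hLG.smul_const _)
  -- the curves are not in `T`
  have hEnt : ∀ᶠ n in (𝒰 : Filter ℕ), Ent X T (Φ n) := by
    obtain ⟨z, ⟨hz1, hz2⟩, hz3⟩ : ∃ z : ℂ, (z ∈ ball (0 : ℂ) r ∧ KB z ≠ 0) ∧ z ≠ 0 := by
      have h1 : ∀ᶠ z in 𝓝[≠] (0 : ℂ), z ∈ ball (0 : ℂ) r := mem_nhdsWithin_of_mem_nhds hnr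
      have h2 : ∀ᶠ z in 𝓝[≠] (0 : ℂ), KB z ≠ 0 :=
        ((hKB.differentiableAt hnr).continuousAt.eventually_ne (by rw [hKB0]; exact one_ne_zero)).filter_mono nhdsWithin_le_nhds
      exact ((h1.and h2).and self_mem_nhdsWithin).exists
    have h3 := cB z hz1 (fun _ => z) tendsto_const_nhds
    filter_upwards [h3.eventually_ne (mul_ne_zero (pow_ne_zero _ hz3) hz2), hΦ] with n h4 h5
    refine ⟨h5.1, h5.2, z, fun h6 => h4 ?_⟩
    rw [hzero]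
    exact (hTQ _ (h5.2 z)).1 h6
  -- the local bound of the energy
  obtain ⟨s, A, hs, hsr, hA⟩ := bound_near_obj hc hTs E.toEnergy hEnt hobj (Eventually.of_forall fun n z _ => ⟨1, one_ne_zero, (one_smul _ _).symm⟩) hrat
  obtain ⟨ε₀, B₀, hε₀, hB₀, hbox⟩ := box_near hX hTX hm E hσ htb hLσ hτ hτh hord
  have hm0 : (0 : ℝ) < m := by exact_mod_cast hm
  have hj0 : (0 : ℝ) < j := by exact_mod_cast hj
  have hmu : ((μ' : ℝ)) < m := by exact_mod_cast lt_of_le_of_lt hμ' hμ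
  have hcon1 : ContinuousOn (fun z => z ^ M * L (G z)) (ball 0 r) := ((continuous_id.pow M).continuousOn).mul hLG.continuousOn
  have hcon2 : ContinuousOn (fun z => z ^ (e * M + 1) * KB z) (ball 0 r) := ((continuous_id.pow _).continuousOn).mul hKB.continuousOn
  have hcon3 : ContinuousOn (fun z => z ^ M • (G z - L (G z) • G 0)) (ball 0 r) := ((continuous_id.pow M).continuousOn).smul hKV.continuousOn
  have hτ00 : τ (G 0) = 0 := by
    rw [← hσG]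
    exact hσ.left.self_of_nhds
  refine core_I 𝒰 hobj.pos hM (A := fun n z => L (Φ n z)) (B := fun n z => Q₁ (Φ n z)) (v := fun n z => Φ n z - L (Φ n z) • G 0)
    (KA := fun z => L (G z)) (KB := KB) (KV := fun z => G z - L (G z) • G 0) (e := e) fA fB fv hLG hKB hKV (tlu_of_cc isOpen_ball hcon1 cA)
    (tlu_of_cc isOpen_ball hcon2 cB) (tlu_of_cc isOpen_ball hcon3 cv) hL hKB0 (by simp only [hL, one_smul, sub_self]) hc0 hcA hcv
    (S := fun p => σ p - σ 0) (T := fun y => (τ (σ 0 + y)).2) (hσ.σ_an.continuousAt.sub continuousAt_const) (sub_self _) ?_ ?_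
    (U := fun n z => g (Φ n) z * pn (Φ n z) ^ (-((1 / 2 : ℝ) * j / (m * D₁)))) (a := (μ' : ℝ) / m) (b := (1 / 2 : ℝ) * j / m) (k := k)
    (by positivity) (by positivity) hk0 (by linarith) ?_ (C := max B₀ (Real.exp (C * A ^ 2 * (s / 2) ^ 2))) (ε := min (s / 2) ε₀)
    (lt_max_of_lt_left (by linarith)) (lt_min (by linarith) hε₀) ?_ ?_
  · have h1 : AnalyticAt ℂ (fun y : EN N => σ 0 + y) 0 := analyticAt_const.add analyticAt_id
    have h2 : AnalyticAt ℂ τ (σ 0 + 0) := by rw [add_zero]; exact hσ.τ_an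
    exact ((ContinuousLinearMap.snd ℂ ℂ ℂ).analyticAt _).comp (AnalyticAt.comp (g := τ) (f := fun y : EN N => σ 0 + y) h2 h1)
  · show (τ (σ 0 + 0)).2 = 0
    rw [add_zero, hσG, hτ00]
    rfl
  · have h1 : (μ' : ℝ) / m < 1 := by rwa [div_lt_one hm0]
    have h2 : 0 ≤ (1 / 2 : ℝ) * j / m * M := by positivity
    linarith
  · have hcs : ∀ᶠ n in (𝒰 : Filter ℕ), c n ∈ ball (0 : ℂ) (s / 2) := hc0.eventually (ball_mem_nhds _ (by linarith))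
    filter_upwards [hEnt, hA, hcs] with n h1 h2 h3 h ρ hρ hh hρε
    have h4 : ball (c n) (s / 2) ⊆ ball 0 s := by
      refine ball_subset_ball' ?_
      have := mem_ball.1 h3
      linarith
    obtain ⟨y, hy, h5⟩ := maxU hX hΩ hm hj (by norm_num) (by norm_num) E h1 (w := c n) (R := s / 2) (A := A) (fun x hx => h2 x (h4 hx)) hρ
      (hρε.trans (min_le_left _ _)) (z := c n + h) (by rw [mem_closedBall, dist_eq_norm, add_sub_cancel_left]; exact hh)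
    refine ⟨y - c n, by rw [← dist_eq_norm]; exact mem_sphere.1 hy, ?_⟩
    rw [add_sub_cancel]
    refine h5.trans (mul_le_mul_of_nonneg_right (le_max_right _ _) ?_)
    exact mul_nonneg (E.nonneg _ h1 y) (Real.rpow_nonneg (E.pn_nonneg _) _)
  · filter_upwards [hEnt] with n h1 z hz hz1 hz2
    have h2 : ContinuousAt (Φ n) z := (h1.diff z).continuousAt
    have h3 := hbox (Φ n) h1 (Φ n) (fun _ => 1) z h2 (Eventually.of_forall fun y => ⟨one_ne_zero, (one_smul _ _).symm⟩) hz1 (by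
      rw [hσG]
      exact lt_of_lt_of_le hz2 (min_le_right _ _))
    rw [hσG] at h3 ⊢
    obtain ⟨h4, h5, h6⟩ := h3
    have hU0 : 0 ≤ g (Φ n) z * pn (Φ n z) ^ (-((1 / 2 : ℝ) * j / (m * D₁))) := mul_nonneg (E.nonneg _ h1 z) (Real.rpow_nonneg (E.pn_nonneg _) _)
    refine ⟨h4, h5.trans (mul_le_mul_of_nonneg_right (le_max_left _ _) hU0), h6.trans (mul_le_mul_of_nonneg_right (le_max_left _ _) ?_)⟩
    exact mul_nonneg (mul_nonneg (Real.rpow_nonneg (norm_nonneg _) _) (le_max_of_le_left (norm_nonneg _))) (Real.rpow_nonneg (norm_nonneg _) _)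

end Pool.Agent.SG2

end
end

section

/-!
# SG2 BubN: case (I), no bubbles of small degree at the smooth points of the negative curve
-/

set_option autoImplicit false

open Topology Filter Metric MvPolynomial

noncomputable section

namespace Pool.Agent.SG2

open Pool.Agent.H36.BP (EN)
open Pool.Agent.H14.PP (IsCone)
open Pool.Agent.H17BP (Surface IsChart IsForm)
open Pool.Agent.H22.W (PseudoLength)
open Pool.Agent.H90.SG (modelS_coneE surface_coneE)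
open Pool.Agent.UC (obj_of_bubble isCone_of_surface)
open Pool.Agent.SY (BubbleAt zer)
open Pool.Agent.H17EF (coneE)
open Pool.Agent.H17LG.Variety (FunField)
open Pool.Agent.H13.SM (conTan)
open Pool.Agent.H62.FC (Homog)

variable {N : ℕ}

/-- **Case (I)**: no bubbles of degree `M`, `j M ≤ μ`, at the smooth points of the negative curve. -/
theorem bub_near {P : Ideal (MvPolynomial (Fin (N + 1)) ℂ)} [P.IsPrime] {z : Fin 2 → FunField P} (hP : Homog P) (hz : IsTranscendenceBasis ℂ z)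
    (hsm : ∀ y : Fin (N + 1) → ℂ, y ≠ 0 → (∀ Q ∈ P, eval y Q = 0) → Module.finrank ℂ (conTan P y) ≤ 3)
    {n : PseudoLength (coneE P)} {T₀ : Set (EN N)} {𝒰 : Ultrafilter ℕ} {F : ℕ → ℂ → EN N} {v : ℕ → ℂ → ℂ} {H : ℂ → EN N} {u : ℂ → ℂ} {r : ℝ} {M : ℕ}
    (hb : BubbleAt (coneE P) T₀ n 𝒰 F v H u r M) (hM : 1 ≤ M) {m j : ℕ} {Ω : EN N → EN N → EN N → ℂ} {Q : MvPolynomial (Fin (N + 1)) ℂ} {D μ : ℕ}
    {σ : ℂ × ℂ → EN N} {τ : EN N → ℂ × ℂ} (h : NegAt P m j Ω Q D μ σ τ) (h0 : σ 0 = H 0) (htr : (deriv (fun z => τ (H z)) 0).1 ≠ 0)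
    (hμ : j * M ≤ μ) : False := by
  have hX : Surface (coneE P) := surface_coneE hP hz hsm
  have hc : IsCone (coneE P) := isCone_of_surface hX
  have hS := modelS_coneE hP hz hsm h.off.pos h.off.hom h.off.not_mem h.off.one_m h.off.one_j h.off.form h.off.noZeros
  obtain ⟨hobj, -⟩ := obj_of_bubble hX hb
  have hQa : ∀ y : EN N, AnalyticAt ℂ (fun y : EN N => eval y.ofLp Q) y := hS.eqs.an ()
  have hQs : ∀ (c : ℂ) (y : EN N), eval (c • y).ofLp Q = c ^ D * eval y.ofLp Q := hS.eqs.smul ()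
  obtain ⟨R, hR, hR0, hred⟩ := h.red
  have h00 : (0 : ℂ) ∈ ball (0 : ℂ) r := mem_ball_self hb.r_pos
  have hu0 : u 0 ≠ 0 := hb.u_ne 0 h00
  have hua : DifferentiableAt ℂ u 0 := hb.diff_u.differentiableAt (ball_mem_nhds _ hb.r_pos)
  obtain ⟨L, hL⟩ : ∃ L : EN N →L[ℂ] ℂ, L (σ 0) ≠ 0 := by
    obtain ⟨Λ, h1⟩ := exists_dual_vector ℂ (σ 0) (norm_ne_zero_iff.mpr h.chart.ne)
    refine ⟨Λ, ?_⟩
    rw [h1.2]
    simpa using h.chart.ne
  obtain ⟨q₀, hq₀, hd⟩ := deriv_ne (Q := fun y : EN N => eval y.ofLp Q) h.chart hL hQs hR hR0 hred (hb.cls_H.1.diff.analyticAt 0)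
    (Eventually.of_forall hb.cls_H.1.mem) h0 htr
  have hQH : eval (H 0).ofLp Q = 0 := by
    have h1 := hred.self_of_nhds
    rw [h0] at h1
    rw [h1]
    simp
  have hd2 : HasDerivAt (fun z => eval (u z • H z).ofLp Q) (u 0 ^ D * q₀) 0 := by
    have h1 := (hua.hasDerivAt.pow D).mul hd
    simp only [hQH, mul_zero, zero_add] at h1
    refine h1.congr_of_eventuallyEq (Eventually.of_forall fun z => ?_)
    exact hQs _ _
  refine bub_I hc hS hobj hM (Eventually.of_forall fun k => ⟨(hb.diff_v k).cexp.smul (hb.cls k).1.diff, fun z =>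
    hX.smul _ ((hb.cls k).1.mem z) _ (Complex.exp_ne_zero _)⟩) hQa hQs (fun y hy => ⟨fun h1 => h1.2, fun h1 => ⟨hy, h1⟩⟩)
    (mul_ne_zero (pow_ne_zero D hu0) hq₀) hd2 h.chart (inv_ne_zero hu0) (by rw [h0, smul_smul, inv_mul_cancel₀ hu0, one_smul]) hR hR0 hred h.lt
    h.order ?_
  intro d K K' hd1 hdM hK y
  exact ⟨hK.mem y, h.rat d K K' hd1 ((Nat.mul_le_mul_left j hdM).trans hμ) hK y⟩

end Pool.Agent.SG2

end
end
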