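import Pool.Agent.H94.G6.M129
import Pool.Agent.H94.G6.M144

/-! The parts of this file: SY.Joint, SG.DuvE. -/

section

/-!
# SY Joint: step (b) from `NoBubbles`

If the derivatives are not bounded near the good points then there is a sequence of curves of length one which converges off a discrete set
and does not converge at a point `w`: there the limit of the lifts is `(z - w) ^ m (u H)`.  `NoBubbles` says `m = 0`, and then the derivatives
converge at `w`: contradiction.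
-/

set_option autoImplicit false

open Topology Filter Metric

namespace Pool.Agent.SY

open Pool.Agent.H36.BP (EN fs wd wd_cont fs_inv Sub OrdTwo)
open Pool.Agent.H14.PP (IsCone Tan CurveAt)
open Pool.Agent.H22.W (PseudoLength tan_entire tan_curve)

variable {N : ℕ} {X T : Set (EN N)}

/-- the derivative of `φ F` -/
private theorem deriv_smul_fun {φ : ℂ → ℂ} {F : ℂ → EN N} {z : ℂ} (hφ : DifferentiableAt ℂ φ z) (hF : DifferentiableAt ℂ F z) :
    deriv (fun z => φ z • F z) z = φ z • deriv F z + deriv φ z • F z :=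
  (hφ.hasDerivAt.smul hF.hasDerivAt).deriv

/-- the limit of curves of length one has length one -/
theorem length_limit (hX : IsCone X) (n : PseudoLength X) {𝒰 : Filter ℕ} [𝒰.NeBot] {F : ℕ → ℂ → EN N} (hF : ∀ k, Cls T n (F k)) {v : ℕ → ℂ → ℂ}
    (hv : ∀ᶠ k in 𝒰, Differentiable ℂ (v k)) {H HR : ℂ → EN N} {U : Set ℂ} (hU : IsOpen U)
    (hconv : TendstoLocallyUniformlyOn (fun k z => Complex.exp (v k z) • F k z) HR 𝒰 U)
    (hH : Differentiable ℂ H) (hHX : ∀ z, H z ∈ X)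
    (hloc : ∀ z₀ ∈ U, ∃ (k : ℕ) (w : ℂ → ℂ), AnalyticAt ℂ w z₀ ∧ w z₀ ≠ 0 ∧ ∀ᶠ z in 𝓝 z₀, HR z = (z - z₀) ^ k • (w z • H z)) :
    ∀ z ∈ U, n.toFun (H z) (deriv H z) = 1 := by
  have hdiff : ∀ᶠ k in 𝒰, DifferentiableOn ℂ (fun z => Complex.exp (v k z) • F k z) U :=
    hv.mono fun k hk => (hk.cexp.smul (hF k).1.diff).differentiableOn
  have hHRd : DifferentiableOn ℂ HR U := hconv.differentiableOn hdiff hU
  have hderiv := hconv.deriv hdiff hU
  -- the points where the limit is not zero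
  have key : ∀ z ∈ U, ∀ φ : ℂ → ℂ, AnalyticAt ℂ φ z → φ z ≠ 0 → (∀ᶠ y in 𝓝 z, HR y = φ y • H y) →
      n.toFun (H z) (deriv H z) = 1 := by
    intro z hz φ hφ hφ0 he
    have h1 : HR z = φ z • H z := he.self_of_nhds
    have h2 : deriv HR z = φ z • deriv H z + deriv φ z • H z := by
      rw [EventuallyEq.deriv_eq he]
      exact deriv_smul_fun hφ.differentiableAt (hH z)
    have h3 : n.toFun (HR z) (deriv HR z) = n.toFun (H z) (deriv H z) := by
      rw [h1, h2]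
      exact n.inv hX (tan_entire hH hHX z) hφ0 _
    have h4 : ∀ᶠ y in 𝓝 z, HR y ∈ X := by
      filter_upwards [he, hφ.continuousAt.eventually_ne hφ0] with y hy1 hy2
      rw [hy1]
      exact hX.smul_mem _ (hHX y) _ hy2
    have h5 : Tan X (HR z) (deriv HR z) :=
      tan_curve ⟨hHRd.analyticAt (hU.mem_nhds hz), h4⟩
    have h6 : ∀ᶠ k in 𝒰, Tan X (Complex.exp (v k z) • F k z) (deriv (fun z => Complex.exp (v k z) • F k z) z) := by
      filter_upwards [hv] with k hk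
      exact tan_entire (F := fun z => Complex.exp (v k z) • F k z) (hk.cexp.smul (hF k).1.diff)
        (fun y => hX.smul_mem _ ((hF k).1.mem y) _ (Complex.exp_ne_zero _)) z
    have h7 := n.tendsto h6 h5 (hconv.tendsto_at hz) (hderiv.tendsto_at hz)
    have h8 : ∀ᶠ k in 𝒰, n.toFun (Complex.exp (v k z) • F k z) (deriv (fun z => Complex.exp (v k z) • F k z) z) = 1 := by
      filter_upwards [hv] with k hk
      rw [deriv_smul_fun (hk.cexp z) ((hF k).1.diff z), n.inv hX (tan_entire (hF k).1.diff (hF k).1.mem z) (Complex.exp_ne_zero _)]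
      exact (hF k).2 z
    have h9 : Tendsto (fun _ : ℕ => (1 : ℝ)) 𝒰 (𝓝 (n.toFun (HR z) (deriv HR z))) := h7.congr' h8
    rw [← h3]
    exact tendsto_nhds_unique tendsto_const_nhds h9 |>.symm
  intro z₀ hz₀
  obtain ⟨k, w, hw, hw0, hwe⟩ := hloc z₀ hz₀
  have h1 : ∀ᶠ z in 𝓝[≠] z₀, n.toFun (H z) (deriv H z) = 1 := by
    filter_upwards [hwe.eventually_nhds.filter_mono nhdsWithin_le_nhds, hw.eventually_analyticAt.filter_mono nhdsWithin_le_nhds,
      (hw.continuousAt.eventually_ne hw0).filter_mono nhdsWithin_le_nhds, nhdsWithin_le_nhds (hU.mem_nhds hz₀), self_mem_nhdsWithin]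
      with z h2 h3 h4 h5 h6
    refine key z h5 (fun z => (z - z₀) ^ k * w z) ?_ (mul_ne_zero (pow_ne_zero _ (sub_ne_zero.2 h6)) h4) ?_
    · exact ((analyticAt_id.sub analyticAt_const).pow k).mul h3
    · filter_upwards [h2] with y hy
      rw [hy, smul_smul]
  have h2 : Tendsto (fun z => n.toFun (H z) (deriv H z)) (𝓝[≠] z₀) (𝓝 (n.toFun (H z₀) (deriv H z₀))) :=
    (n.continuous_curve hH hHX).continuousAt.tendsto.mono_left nhdsWithin_le_nhds
  have h3 : Tendsto (fun _ : ℂ => (1 : ℝ)) (𝓝[≠] z₀) (𝓝 (n.toFun (H z₀) (deriv H z₀))) := h2.congr' h1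
  exact tendsto_nhds_unique tendsto_const_nhds h3 |>.symm

/-- the Fubini-Study derivative of `exp v F` -/
private theorem fs_exp (hX : IsCone X) {F : ℂ → EN N} (hF : Differentiable ℂ F) (hFX : ∀ z, F z ∈ X) {v : ℂ → ℂ} (hv : Differentiable ℂ v) (z : ℂ) :
    fs (Complex.exp (v z) • F z) (deriv (fun z => Complex.exp (v z) • F z) z) = fs (F z) (deriv F z) := by
  rw [deriv_smul_fun (hv.cexp z) (hF z)]
  exact fs_inv (hX.ne_zero (hFX z)) _ (Complex.exp_ne_zero _) _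

/-- **Joint**: step (b) from `NoBubbles` -/
theorem stepB_of_noBubbles (hX : IsCone X) (hTs : ∀ x ∈ T, ∀ c : ℂ, c ≠ 0 → c • x ∈ T) {T₀ : Set (EN N)} (hT : T₀ ⊆ T)
    (n : PseudoLength X) (hnb : NoBubbles X T₀ n) : StepB X T n := by
  classical
  replace hnb := hnb.mono hT
  intro rho M c₀ C g E C₁ hA d hd R
  by_contra hcon
  push Not at hcon
  choose F hcls hgd z hz hfs using fun k : ℕ => hcon (k : ℝ)
  set 𝒰 : Ultrafilter ℕ := hyperfilter ℕ with h𝒰def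
  have h𝒰 : (𝒰 : Filter ℕ) ≤ atTop := Nat.hyperfilter_le_atTop
  obtain ⟨H, hHd, hHX, hHo, hHT, -, hH⟩ := exists_limit hX hTs E 𝒰 h𝒰 F (fun k => (hcls k).1) hd
    (fun k y _ => hA (F k) (hcls k) y) hgd
  have hHne : ∀ y, H y ≠ 0 := fun y => hX.ne_zero (hHX y)
  -- the limit has length one
  have hH1 : ∀ y, n.toFun (H y) (deriv H y) = 1 := by
    intro y
    obtain ⟨v, HR, hv, hconv, -, -, hfac⟩ := hH (⌈‖y‖⌉₊ + 1) (by omega)
    refine length_limit (T := T) hX n hcls (hv.mono fun k hk => hk.1) isOpen_ball hconv hHd hHX hfac y ?_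
    rw [mem_ball_zero_iff]
    have := Nat.le_ceil ‖y‖
    push_cast
    linarith
  obtain ⟨v, HR, hv, hconv, -, -, hfac⟩ := hH (⌈|R|⌉₊ + 1) (by omega)
  -- the limit of the points
  have hcomp : IsCompact (closedBall (0 : ℂ) |R|) := isCompact_closedBall _ _
  have hzc : ∀ k, z k ∈ closedBall (0 : ℂ) |R| := by
    intro k
    have h1 := hz k
    rw [mem_ball_zero_iff] at h1
    rw [mem_closedBall_zero_iff]
    exact h1.le.trans (le_abs_self R)
  have hmap : ((𝒰.map z : Ultrafilter ℂ) : Filter ℂ) ≤ 𝓟 (closedBall (0 : ℂ) |R|) := by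
    rw [le_principal_iff]
    exact mem_map.2 (Filter.univ_mem' hzc)
  obtain ⟨w, hw, hlim⟩ := hcomp.ultrafilter_le_nhds _ hmap
  have hlim' : Tendsto z (𝒰 : Filter ℕ) (𝓝 w) := hlim
  have hwR : w ∈ ball (0 : ℂ) ((⌈|R|⌉₊ + 1 : ℕ) : ℝ) := by
    rw [mem_closedBall_zero_iff] at hw
    rw [mem_ball_zero_iff]
    have hceil : |R| ≤ (⌈|R|⌉₊ : ℝ) := Nat.le_ceil _
    push_cast
    linarith
  obtain ⟨m, u, hu, hu0, hue⟩ := hfac w hwR
  -- the disc around the point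
  obtain ⟨r, hr, hrs⟩ : ∃ r > 0, ∀ y ∈ ball w r, y ∈ ball (0 : ℂ) ((⌈|R|⌉₊ + 1 : ℕ) : ℝ) ∧ HR y = (y - w) ^ m • (u y • H y) ∧
      u y ≠ 0 ∧ AnalyticAt ℂ u y := by
    have h0 : ∀ᶠ y in 𝓝 w, y ∈ ball (0 : ℂ) ((⌈|R|⌉₊ + 1 : ℕ) : ℝ) := isOpen_ball.mem_nhds hwR
    have h1 := ((h0.and hue).and (hu.continuousAt.eventually_ne hu0)).and hu.eventually_analyticAt
    obtain ⟨r, hr, h2⟩ := Metric.eventually_nhds_iff_ball.1 h1
    exact ⟨r, hr, fun y hy => ⟨(h2 y hy).1.1.1, (h2 y hy).1.1.2, (h2 y hy).1.2, (h2 y hy).2⟩⟩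
  have hsub : ball w r ⊆ ball (0 : ℂ) ((⌈|R|⌉₊ + 1 : ℕ) : ℝ) := fun y hy => (hrs y hy).1
  -- the modified exponents
  set v' : ℕ → ℂ → ℂ := fun k => if Differentiable ℂ (v k) then v k else 0 with hv'
  have hv'd : ∀ k, Differentiable ℂ (v' k) := by
    intro k
    rw [hv']
    by_cases h : Differentiable ℂ (v k)
    · simp only [h, if_true]
    · simp only [h, if_false]
      exact differentiable_const 0
  have hv'e : ∀ᶠ k in (𝒰 : Filter ℕ), v' k = v k := by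
    filter_upwards [hv] with k hk
    rw [hv']
    simp only [hk.1, if_true]
  have hconv' : TendstoLocallyUniformlyOn (fun k y => Complex.exp (v' k y) • F k y) HR 𝒰 (ball 0 ((⌈|R|⌉₊ + 1 : ℕ) : ℝ)) := by
    intro s hs y hy
    obtain ⟨t, ht, h1⟩ := hconv s hs y hy
    refine ⟨t, ht, ?_⟩
    filter_upwards [h1, hv'e] with k h2 h3
    rw [h3]
    exact h2
  -- the bubble has degree `0`
  have hm : m = 0 := by
    refine hnb 𝒰 (fun k y => F k (w + y)) (fun k y => v' k (w + y)) (fun y => H (w + y)) (fun y => u (w + y)) r m ?_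
    have hadd : ∀ y ∈ ball (0 : ℂ) r, w + y ∈ ball w r := by
      intro y hy
      rw [mem_ball_zero_iff] at hy
      rw [mem_ball, dist_eq_norm, add_sub_cancel_left]
      exact hy
    have haff : Differentiable ℂ fun y : ℂ => w + y := differentiable_id.const_add w
    refine ⟨h𝒰, hr, fun k => ?_, fun k => (hv'd k).comp haff, ?_, OrdTwo.translate hHd hHne hHo w, ?_, fun y hy => (hrs _ (hadd y hy)).2.2.1, ?_⟩
    · have h1 := (hcls k).aff (a := 1) norm_one w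
      refine (funext fun y => ?_ : (fun y => F k (1 * y + w)) = fun y => F k (w + y)) ▸ h1
      rw [one_mul, add_comm]
    · have h0 : Cls T n H := ⟨⟨hHd, hHX, hHT⟩, hH1⟩
      have h1 := h0.aff (a := 1) norm_one w
      refine (funext fun y => ?_ : (fun y => H (1 * y + w)) = fun y => H (w + y)) ▸ h1
      rw [one_mul, add_comm]
    · intro y hy
      have h1 : DifferentiableAt ℂ u (w + y) := (hrs _ (hadd y hy)).2.2.2.differentiableAt
      exact (h1.comp y (haff y)).differentiableWithinAt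
    · have h1 : TendstoLocallyUniformlyOn (fun k y => Complex.exp (v' k (w + y)) • F k (w + y)) (fun y => HR (w + y)) 𝒰 (ball 0 r) := by
        have h2 := (hconv'.mono hsub).comp (fun y : ℂ => w + y) (t := ball (0 : ℂ) r) hadd haff.continuous.continuousOn
        exact h2
      refine h1.congr_right fun y hy => ?_
      show HR (w + y) = y ^ m • (u (w + y) • H (w + y))
      rw [(hrs _ (hadd y hy)).2.1, add_sub_cancel_left]
  -- the derivatives converge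
  have hHRw : HR w ≠ 0 := by
    rw [(hrs w (mem_ball_self hr)).2.1, hm, pow_zero, one_smul]
    exact smul_ne_zero hu0 (hHne w)
  have hdiff : ∀ᶠ k in (𝒰 : Filter ℕ), DifferentiableOn ℂ (fun z => Complex.exp (v' k z) • F k z) (ball 0 ((⌈|R|⌉₊ + 1 : ℕ) : ℝ)) :=
    Eventually.of_forall fun k => ((hv'd k).cexp.smul (hcls k).1.diff).differentiableOn
  have hHRd := hconv'.differentiableOn hdiff isOpen_ball
  have hHRa : AnalyticAt ℂ HR w := hHRd.analyticAt (isOpen_ball.mem_nhds hwR)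
  have hzw : Tendsto z (𝒰 : Filter ℕ) (𝓝[ball 0 ((⌈|R|⌉₊ + 1 : ℕ) : ℝ)] w) := by
    rw [isOpen_ball.nhdsWithin_eq hwR]
    exact hlim'
  have h1 : Tendsto (fun k => Complex.exp (v' k (z k)) • F k (z k)) (𝒰 : Filter ℕ) (𝓝 (HR w)) :=
    hconv'.tendsto_comp hHRa.continuousAt.continuousWithinAt hwR hzw
  have h2 : Tendsto (fun k => deriv (fun z => Complex.exp (v' k z) • F k z) (z k)) (𝒰 : Filter ℕ) (𝓝 (deriv HR w)) :=
    (hconv'.deriv hdiff isOpen_ball).tendsto_comp hHRa.deriv.continuousAt.continuousWithinAt hwR hzw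
  have h3 : Tendsto (fun k => fs (Complex.exp (v' k (z k)) • F k (z k)) (deriv (fun z => Complex.exp (v' k z) • F k z) (z k)))
      (𝒰 : Filter ℕ) (𝓝 (fs (HR w) (deriv HR w))) := by
    unfold fs
    exact ((wd_cont.tendsto (HR w, deriv HR w)).comp (h1.prodMk_nhds h2)).div (h1.norm.pow 2) (pow_ne_zero _ (norm_ne_zero_iff.2 hHRw))
  have h4 : ∀ k, fs (Complex.exp (v' k (z k)) • F k (z k)) (deriv (fun z => Complex.exp (v' k z) • F k z) (z k)) =
      fs (F k (z k)) (deriv (F k) (z k)) := fun k => fs_exp hX (hcls k).1.diff (hcls k).1.mem (hv'd k) (z k)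
  have h5 : Tendsto (fun k : ℕ => (k : ℝ)) (𝒰 : Filter ℕ) atTop := tendsto_natCast_atTop_atTop.mono_left h𝒰
  have h6 : Tendsto (fun k => fs (F k (z k)) (deriv (F k) (z k))) (𝒰 : Filter ℕ) atTop :=
    tendsto_atTop_mono (fun k => (hfs k).le) h5
  simp only [h4] at h3
  exact not_tendsto_nhds_of_tendsto_atTop h6 _ h3

/-- step (b) for every pseudo-length, from `NoBubblesAll` -/
theorem stepBAll_of_noBubblesAll {P : Ideal (MvPolynomial (Fin (N + 1)) ℂ)} (hX : IsCone (Pool.Agent.H17EF.coneE P)) (h : NoBubblesAll P) :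
    StepBAll P := by
  intro n R d hR hRP hnull
  obtain ⟨R₀, d₀, h1, h2, h3⟩ := h n R d hR hRP hnull
  refine ⟨R₀, d₀, h1, h2, fun Q D hQ _ hsub => stepB_of_noBubbles hX ?_ hsub n h3⟩
  intro x hx c hc
  refine ⟨hX.smul_mem x hx.1 c hc, ?_⟩
  have e1 := Pool.Agent.H22.WL.evF_smul hQ c x
  have e2 : MvPolynomial.eval (c • x).ofLp Q = c ^ D * MvPolynomial.eval x.ofLp Q := by simpa [Pool.Agent.H22.WL.evF] using e1
  rw [e2, hx.2, mul_zero]

end Pool.Agent.SY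

end

section

/-!
# SG DuvE: every pseudo-length vanishes where two smooth rational curves with self-intersection `-2` meet
-/

set_option autoImplicit false

open Topology Filter Metric

noncomputable section

namespace Pool.Agent.SG

open Pool.Agent.H36.BP (EN fs)
open Pool.Agent.H14.PP (IsCone Tan CurveAt)
open Pool.Agent.H17BP (IsChart Pr Surface)
open Pool.Agent.H22.W (PseudoLength tan_curve)
open Pool.Agent.H62.EF (Charts)

variable {N : ℕ} {X : Set (EN N)}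

/-- Lemma B for a direction `(a, b)` which is not tangent to the curve -/
theorem duv_axis' (hX : IsCone X) (hch : Charts X) (n : PseudoLength X) {σ : ℂ × ℂ → EN N} {τ : EN N → ℂ × ℂ} {Φ G : ℂ × ℂ → EN N}
    {d : ℕ} (h : MinusTwo X σ τ Φ G d) {a b : ℂ} (ha : a ≠ 0) {ε : ℝ} (hε : 0 < ε) :
    ∃ κ : ℝ, 0 < κ ∧ ∀ s t : ℂ, s ≠ 0 → t ≠ 0 → ‖s‖ ≤ κ * ‖t‖ → n.toFun (σ 0) (fderiv ℂ σ 0 (s * a, s * b + t)) ^ 2 ≤ ε * (‖s‖ * ‖t‖) := by
  have han : 0 < ‖a‖ := norm_pos_iff.2 ha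
  obtain ⟨κ₁, hκ₁, hax⟩ := duv_axis hX hch n h (ε := ε / (2 * ‖a‖)) (by positivity)
  refine ⟨min (κ₁ / (2 * ‖a‖)) (1 / (2 * (‖b‖ + 1))), lt_min (by positivity) (by positivity), ?_⟩
  intro s t hs ht hst
  have htn : 0 < ‖t‖ := norm_pos_iff.2 ht
  have h1 : ‖s‖ * (2 * ‖a‖) ≤ κ₁ * ‖t‖ := by
    have h2 : ‖s‖ ≤ κ₁ / (2 * ‖a‖) * ‖t‖ := hst.trans (by gcongr; exact min_le_left _ _)
    calc ‖s‖ * (2 * ‖a‖) ≤ κ₁ / (2 * ‖a‖) * ‖t‖ * (2 * ‖a‖) := by gcongr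
      _ = κ₁ * ‖t‖ := by field_simp
  have h2 : ‖s * b‖ ≤ ‖t‖ / 2 := by
    have h3 : ‖s‖ ≤ 1 / (2 * (‖b‖ + 1)) * ‖t‖ := hst.trans (by gcongr; exact min_le_right _ _)
    rw [norm_mul]
    calc ‖s‖ * ‖b‖ ≤ 1 / (2 * (‖b‖ + 1)) * ‖t‖ * (‖b‖ + 1) := by gcongr; linarith
      _ = ‖t‖ / 2 := by field_simp
  have h3 : ‖t‖ / 2 ≤ ‖s * b + t‖ := by
    have h4 := norm_sub_norm_le t (-(s * b))
    rw [norm_neg, sub_neg_eq_add, add_comm t] at h4
    linarith
  have h4 : ‖s * b + t‖ ≤ 2 * ‖t‖ := (norm_add_le _ _).trans (by linarith)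
  have h5 : s * b + t ≠ 0 := by
    rw [← norm_pos_iff]
    linarith
  refine (hax (s * a) (s * b + t) (mul_ne_zero hs ha) h5 ?_).trans ?_
  · rw [norm_mul]
    nlinarith
  · rw [norm_mul]
    calc ε / (2 * ‖a‖) * (‖s‖ * ‖a‖ * ‖s * b + t‖) ≤ ε / (2 * ‖a‖) * (‖s‖ * ‖a‖ * (2 * ‖t‖)) := by gcongr
      _ = ε * (‖s‖ * ‖t‖) := by field_simp

/-- **The pseudo-length at a node.** -/
theorem null_at_node (hX : IsCone X) (hS : Surface X) (hch : Charts X) {σ₁ : ℂ × ℂ → EN N} {τ₁ : EN N → ℂ × ℂ} {Φ₁ G₁ : ℂ × ℂ → EN N}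
    {d₁ : ℕ} (h₁ : MinusTwo X σ₁ τ₁ Φ₁ G₁ d₁) {σ₂ : ℂ × ℂ → EN N} {τ₂ : EN N → ℂ × ℂ} {Φ₂ G₂ : ℂ × ℂ → EN N}
    {d₂ : ℕ} (h₂ : MinusTwo X σ₂ τ₂ Φ₂ G₂ d₂) {x : EN N} (hx₁ : Pr (σ₁ 0) x) (hx₂ : Pr (σ₂ 0) x)
    (hind : LinearIndependent ℂ ![x, fderiv ℂ σ₁ 0 (0, 1), fderiv ℂ σ₂ 0 (0, 1)]) (n : PseudoLength X) {v : EN N} (hv : Tan X x v) :
    n.toFun x v = 0 := by
  obtain ⟨c₁, hc₁, hc₁x⟩ := hx₁
  obtain ⟨c₂, hc₂, hc₂x⟩ := hx₂
  have hxX : x ∈ X := Pool.Agent.H22.W.tan_mem hv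
  have hx0 : x ≠ 0 := hX.ne_zero hxX
  rw [linearIndependent_iff'] at hind
  have hli : ∀ a b c : ℂ, a • x + b • fderiv ℂ σ₁ 0 (0, 1) + c • fderiv ℂ σ₂ 0 (0, 1) = 0 → b = 0 ∧ c = 0 := by
    intro a b c habc
    have h1 := hind Finset.univ ![a, b, c] (by simpa [Fin.sum_univ_three] using habc)
    exact ⟨by simpa using h1 1 (Finset.mem_univ _), by simpa using h1 2 (Finset.mem_univ _)⟩
  -- the ratio of the two base points
  obtain ⟨c, hc, hc12⟩ : ∃ c : ℂ, c ≠ 0 ∧ σ₂ 0 = c • σ₁ 0 := by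
    refine ⟨c₂ / c₁, div_ne_zero hc₂ hc₁, ?_⟩
    rw [hc₁x, hc₂x, smul_smul, div_mul_cancel₀ _ hc₁]
  have htan₁ := (tan_of_chart h₁.chart).self_of_nhds
  have htan₂ := (tan_of_chart h₂.chart).self_of_nhds
  have hconv : ∀ {y w : EN N}, Tan X y w → w ∈ Pool.Agent.H17BP.Tan X y := fun h => by
    obtain ⟨γ, hγ, h3, h4⟩ := h
    exact ⟨γ, hγ.1, hγ.2, h3, h4⟩
  -- the direction of the second curve in the first chart
  obtain ⟨α, a, b, hg₂⟩ := (Pool.Agent.UC.tan_span hS h₁.chart).self_of_nhds c hc (fderiv ℂ σ₂ 0 (0, 1)) (by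
    rw [← hc12]
    exact hconv (htan₂ _))
  have hD₁ : ∀ s t : ℂ, fderiv ℂ σ₁ 0 (s, t) = s • fderiv ℂ σ₁ 0 (1, 0) + t • fderiv ℂ σ₁ 0 (0, 1) := by
    intro s t
    rw [← map_smul, ← map_smul, ← map_add]
    congr 1
    ext <;> simp
  have hD₂ : ∀ s t : ℂ, fderiv ℂ σ₂ 0 (s, t) = s • fderiv ℂ σ₂ 0 (1, 0) + t • fderiv ℂ σ₂ 0 (0, 1) := by
    intro s t
    rw [← map_smul, ← map_smul, ← map_add]
    congr 1
    ext <;> simp
  have ha : a ≠ 0 := by
    rintro rfl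
    have h3 := hli (α * c * c₁) (c * b) (-1) (by
      rw [hg₂, hc₁x]
      simp only [zero_smul, zero_add, smul_smul]
      module)
    exact one_ne_zero (neg_eq_zero.1 h3.2)
  -- the direction of the first curve in the second chart
  obtain ⟨α', a', b', hg₁⟩ := (Pool.Agent.UC.tan_span hS h₂.chart).self_of_nhds 1 one_ne_zero (c • fderiv ℂ σ₁ 0 (0, 1)) (by
    rw [one_smul, hc12]
    exact hconv (Pool.Agent.H22.W.tan_smul hX (htan₁ _) hc))
  have ha' : a' ≠ 0 := by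
    rintro rfl
    have h3 := hli (α' * c₂) (-c) b' (by
      have h4 : c • fderiv ℂ σ₁ 0 (0, 1) = α' • σ₂ 0 + b' • fderiv ℂ σ₂ 0 (0, 1) := by
        rw [hg₁]
        simp
      rw [neg_smul, h4, hc₂x]
      module)
    exact hc (neg_eq_zero.1 h3.1)
  have key := duv_C hX hch n h₁.chart (e := (0, 1)) (f := (a, b)) (by simpa using ha) (by
    intro ε hε
    obtain ⟨κ, hκ, h3⟩ := duv_axis' hX hch n h₁ (b := b) ha hε
    refine ⟨κ, hκ, fun ξ η hξ hη h4 => ?_⟩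
    have h5 := h3 ξ η hξ hη h4
    have h6 : ξ • ((a, b) : ℂ × ℂ) + η • ((0, 1) : ℂ × ℂ) = (ξ * a, ξ * b + η) := by
      ext <;> simp
    rw [h6]
    exact h5) (by
    intro ε hε
    obtain ⟨κ, hκ, h3⟩ := duv_axis' hX hch n h₂ (b := b') ha' hε
    refine ⟨κ, hκ, fun ξ η hξ hη h4 => ?_⟩
    have h5 := h3 η ξ hη hξ h4
    have h6 : n.toFun (σ₁ 0) (fderiv ℂ σ₁ 0 (ξ • ((a, b) : ℂ × ℂ) + η • ((0, 1) : ℂ × ℂ))) =
        n.toFun (σ₂ 0) (fderiv ℂ σ₂ 0 (η * a', η * b' + ξ)) := by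
      have h7 := n.inv hX (htan₁ (ξ • ((a, b) : ℂ × ℂ) + η • ((0, 1) : ℂ × ℂ))) hc (ξ * α * c + η * (-α') * c)
      rw [← h7, ← hc12]
      have h8 : fderiv ℂ σ₂ 0 (η * a', η * b' + ξ) =
          c • fderiv ℂ σ₁ 0 (ξ • ((a, b) : ℂ × ℂ) + η • ((0, 1) : ℂ × ℂ)) + (ξ * α * c + η * (-α') * c) • σ₁ 0 := by
        have e1 : ξ • ((a, b) : ℂ × ℂ) + η • ((0, 1) : ℂ × ℂ) = (ξ * a, ξ * b + η) := by
          ext <;> simp
        have e2 : a' • fderiv ℂ σ₂ 0 (1, 0) + b' • fderiv ℂ σ₂ 0 (0, 1) = c • fderiv ℂ σ₁ 0 (0, 1) - α' • c • σ₁ 0 := by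
          rw [hg₁, hc12]
          simp
        rw [hD₂, e1, hD₁]
        have e3 : (η * a') • fderiv ℂ σ₂ 0 (1, 0) + (η * b' + ξ) • fderiv ℂ σ₂ 0 (0, 1) =
            η • (a' • fderiv ℂ σ₂ 0 (1, 0) + b' • fderiv ℂ σ₂ 0 (0, 1)) + ξ • fderiv ℂ σ₂ 0 (0, 1) := by module
        rw [e3, e2, hg₂]
        module
      rw [h8]
    rw [h6, mul_comm ‖ξ‖]
    exact h5)
  -- all tangent vectors
  have hxσ : x = c₁⁻¹ • σ₁ 0 := by rw [hc₁x, smul_smul, inv_mul_cancel₀ hc₁, one_smul]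
  obtain ⟨α₃, a₃, b₃, hv₃⟩ := (Pool.Agent.UC.tan_span hS h₁.chart).self_of_nhds c₁⁻¹ (inv_ne_zero hc₁) v (by
    rw [← hxσ]
    exact hconv hv)
  have h3 := n.inv hX (htan₁ (a₃, b₃)) (inv_ne_zero hc₁) (α₃ * c₁⁻¹)
  have h4 : v = c₁⁻¹ • fderiv ℂ σ₁ 0 (a₃, b₃) + (α₃ * c₁⁻¹) • σ₁ 0 := by
    rw [hv₃, hD₁ a₃ b₃]
    module
  rw [h4, hxσ, h3]
  exact key _

end Pool.Agent.SG

end
end
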