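import Pool.Agent.H94.G6.M67
import Pool.Agent.H94.G6.M70

/-! The parts of this file: H74.SB.Tr, H74.SB.Len, SB.Blow, SB.Chd, SB.Eig, SB.Nilp, SB.Fin. -/

section

/-!
# SB Tr: formal power series in two variables, truncations, the transform of a series of order `k` under the blow-up `(x, y) = (x, x t)`
-/

set_option autoImplicit false

open MvPowerSeries Finsupp

noncomputable section

namespace Pool.Agent.H74.SB

/-- `ℂ⟦x, y⟧` -/
abbrev R := MvPowerSeries (Fin 2) ℂ

/-- the exponent of `x ^ i y ^ j` -/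
def mon (i j : ℕ) : Fin 2 →₀ ℕ := single 0 i + single 1 j

@[simp] theorem mon_zero (i j : ℕ) : mon i j 0 = i := by simp [mon]

@[simp] theorem mon_one (i j : ℕ) : mon i j 1 = j := by simp [mon]

theorem eq_mon (d : Fin 2 →₀ ℕ) : d = mon (d 0) (d 1) := by
  ext i
  fin_cases i <;> simp

theorem degree_mon (d : Fin 2 →₀ ℕ) : degree d = d 0 + d 1 := by
  rw [degree_eq_sum, Fin.sum_univ_two]

/-- the series of order at least `k` -/
def M (k : ℕ) : Ideal R where
  carrier := {f | (k : ℕ∞) ≤ f.order}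
  add_mem' := fun hf hg => (le_min hf hg).trans min_order_le_add
  zero_mem' := by simp
  smul_mem' := fun _ _ hf => (le_add_left hf).trans le_order_mul

theorem mem_M {k : ℕ} {f : R} : f ∈ M k ↔ ∀ i j, i + j < k → coeff (mon i j) f = 0 := by
  constructor
  · intro h i j hij
    refine coeff_of_lt_order (lt_of_lt_of_le ?_ h)
    rw [degree_mon]
    simpa using mod_cast hij
  · intro h
    refine nat_le_order fun d hd => ?_
    rw [degree_mon] at hd
    rw [eq_mon d]
    exact h _ _ hd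

theorem mem_M_order {k : ℕ} {f : R} : f ∈ M k ↔ (k : ℕ∞) ≤ f.order := Iff.rfl

theorem M_anti {k l : ℕ} (h : k ≤ l) : M l ≤ M k := fun _ hf => mem_M.2 fun i j hij => mem_M.1 hf i j (lt_of_lt_of_le hij h)

theorem mul_mem_M {k l : ℕ} {f g : R} (hf : f ∈ M k) (hg : g ∈ M l) : f * g ∈ M (k + l) := by
  rw [mem_M_order] at *
  push_cast
  exact (add_le_add hf hg).trans le_order_mul

/-- a product with a series of order exactly `l` -/
theorem mem_M_of_mul {k l : ℕ} {f g : R} (hg : g.order = l) (h : f * g ∈ M (k + l)) : f ∈ M k := by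
  rw [mem_M_order, order_mul, hg] at h
  push_cast at h
  exact (ENat.add_le_add_iff_right (by simp)).1 h

/-- the monomials of degree less than `k` -/
abbrev T (k : ℕ) := (n : Fin k) × Fin (n + 1)

theorem card_T (k : ℕ) : 2 * Fintype.card (T k) = k * (k + 1) := by
  have h : Fintype.card (T k) = ∑ i ∈ Finset.range (k + 1), i := by
    rw [Finset.sum_range_succ', Fintype.card_sigma]
    simp only [Fintype.card_fin, add_zero]
    exact Fin.sum_univ_eq_sum_range (fun i => i + 1) k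
  rw [h, mul_comm 2, Finset.sum_range_id_mul_two]
  simp [mul_comm]

/-- the truncation -/
def tr (k : ℕ) : R →ₗ[ℂ] (T k → ℂ) where
  toFun f t := coeff (mon (t.1 - t.2) t.2) f
  map_add' f g := by ext; simp
  map_smul' c f := by ext; simp

theorem tr_eq_zero {k : ℕ} {f : R} : tr k f = 0 ↔ f ∈ M k := by
  rw [mem_M]
  constructor
  · intro h i j hij
    have := congrFun h ⟨⟨i + j, hij⟩, ⟨j, by simp⟩⟩
    simpa [tr] using this
  · intro h
    ext t
    refine h _ _ ?_
    have h1 := t.1.2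
    have h2 := t.2.2
    omega

/-- the polynomial with the given coefficients -/
def lf (k : ℕ) : (T k → ℂ) →ₗ[ℂ] R where
  toFun c := fun d => if h : d 0 + d 1 < k then c ⟨⟨d 0 + d 1, h⟩, ⟨d 1, by simp⟩⟩ else 0
  map_add' f g := by
    funext d
    show (if h : d 0 + d 1 < k then (f + g) ⟨⟨d 0 + d 1, h⟩, ⟨d 1, by simp⟩⟩ else 0) =
      (if h : d 0 + d 1 < k then f ⟨⟨d 0 + d 1, h⟩, ⟨d 1, by simp⟩⟩ else 0) +
        (if h : d 0 + d 1 < k then g ⟨⟨d 0 + d 1, h⟩, ⟨d 1, by simp⟩⟩ else 0)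
    by_cases h : d 0 + d 1 < k <;> simp [h]
  map_smul' c f := by
    funext d
    show (if h : d 0 + d 1 < k then (c • f) ⟨⟨d 0 + d 1, h⟩, ⟨d 1, by simp⟩⟩ else 0) =
      c • (if h : d 0 + d 1 < k then f ⟨⟨d 0 + d 1, h⟩, ⟨d 1, by simp⟩⟩ else (0 : ℂ))
    by_cases h : d 0 + d 1 < k <;> simp [h]

theorem coeff_lf {k : ℕ} (c : T k → ℂ) (d : Fin 2 →₀ ℕ) :
    coeff d (lf k c) = if h : d 0 + d 1 < k then c ⟨⟨d 0 + d 1, h⟩, ⟨d 1, by simp⟩⟩ else 0 := rfl

theorem tr_lf {k : ℕ} (c : T k → ℂ) : tr k (lf k c) = c := by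
  ext ⟨⟨n, hn⟩, ⟨j, hj⟩⟩
  have hj' : j ≤ n := by simpa [Nat.lt_succ_iff] using hj
  show coeff (mon (n - j) j) (lf k c) = _
  rw [coeff_lf]
  have e : n - j + j = n := Nat.sub_add_cancel hj'
  have h : mon (n - j) j 0 + mon (n - j) j 1 < k := by simpa [e] using hn
  rw [dif_pos h]
  have key : ∀ (a b : ℕ) (ha : a < k) (hb : b < a + 1), a = n → b = j → c ⟨⟨a, ha⟩, ⟨b, hb⟩⟩ = c ⟨⟨n, hn⟩, ⟨j, hj⟩⟩ := by
    rintro a b ha hb rfl rfl
    rfl
  refine key _ _ _ _ ?_ ?_
  · simpa using e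
  · simp

theorem sub_lf_mem {k : ℕ} (f : R) : f - lf k (tr k f) ∈ M k := by
  rw [← tr_eq_zero, map_sub, tr_lf, sub_self]

/-! ## the transform -/

/-- the substitution `(x, y) = (x, x t)` -/
def B : R →ₐ[ℂ] R := substAlgHom (a := ![X 0, X 0 * X 1]) (hasSubst_of_constantCoeff_zero fun s => by fin_cases s <;> simp)

theorem coeff_B (f : R) (d : Fin 2 →₀ ℕ) : coeff d (B f) = if d 1 ≤ d 0 then coeff (mon (d 0 - d 1) (d 1)) f else 0 := by
  classical
  have ha : HasSubst (![X 0, X 0 * X 1] : Fin 2 → R) := hasSubst_of_constantCoeff_zero fun s => by fin_cases s <;> simp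
  have h1 : B f = subst (![X 0, X 0 * X 1] : Fin 2 → R) f := by
    rw [← coe_substAlgHom ha]
    rfl
  have h2 : ∀ e : Fin 2 →₀ ℕ, (e.prod fun s n => (![X 0, X 0 * X 1] : Fin 2 → R) s ^ n) = monomial (mon (e 0 + e 1) (e 1)) 1 := by
    intro e
    rw [Finsupp.prod_fintype _ _ (by simp), Fin.prod_univ_two]
    show (X 0 : R) ^ (e 0) * (X 0 * X 1) ^ (e 1) = _
    rw [mul_pow, X_pow_eq, X_pow_eq, X_pow_eq, monomial_mul_monomial, monomial_mul_monomial, mul_one, mul_one, mon, single_add, add_assoc]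
  rw [h1, coeff_subst ha]
  simp_rw [h2, coeff_monomial]
  by_cases h : d 1 ≤ d 0
  · rw [if_pos h, finsum_eq_single _ (mon (d 0 - d 1) (d 1))]
    · rw [if_pos, smul_eq_mul, mul_one]
      rw [mon_zero, mon_one, Nat.sub_add_cancel h]
      exact eq_mon d
    · intro e he
      rw [if_neg, smul_zero]
      intro h3
      apply he
      have h4 := DFunLike.congr_fun h3 0
      have h5 := DFunLike.congr_fun h3 1
      simp only [mon_zero, mon_one] at h4 h5
      rw [eq_mon e]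
      congr 1
      · omega
      · exact h5.symm
  · rw [if_neg h]
    refine (finsum_congr fun e => ?_).trans finsum_zero
    rw [if_neg, smul_zero]
    intro h3
    have h4 := DFunLike.congr_fun h3 0
    have h5 := DFunLike.congr_fun h3 1
    simp only [mon_zero, mon_one] at h4 h5
    omega

/-- the transform `f (x, x t) / x ^ k` of a series of order at least `k` -/
def ph (k : ℕ) : R →ₗ[ℂ] R where
  toFun f := fun d => if d 1 ≤ d 0 + k then coeff (mon (d 0 + k - d 1) (d 1)) f else 0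
  map_add' f g := by
    funext d
    show (if d 1 ≤ d 0 + k then coeff (mon (d 0 + k - d 1) (d 1)) (f + g) else 0) =
      (if d 1 ≤ d 0 + k then coeff (mon (d 0 + k - d 1) (d 1)) f else 0) + (if d 1 ≤ d 0 + k then coeff (mon (d 0 + k - d 1) (d 1)) g else 0)
    by_cases h : d 1 ≤ d 0 + k <;> simp [h]
  map_smul' c f := by
    funext d
    show (if d 1 ≤ d 0 + k then coeff (mon (d 0 + k - d 1) (d 1)) (c • f) else 0) =
      c • (if d 1 ≤ d 0 + k then coeff (mon (d 0 + k - d 1) (d 1)) f else 0)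
    by_cases h : d 1 ≤ d 0 + k <;> simp [h]

theorem coeff_ph (k : ℕ) (f : R) (d : Fin 2 →₀ ℕ) :
    coeff d (ph k f) = if d 1 ≤ d 0 + k then coeff (mon (d 0 + k - d 1) (d 1)) f else 0 := rfl

theorem coeff_X_pow_mul_mon (k : ℕ) (f : R) (d : Fin 2 →₀ ℕ) :
    coeff d ((X 0 : R) ^ k * f) = if k ≤ d 0 then coeff (mon (d 0 - k) (d 1)) f else 0 := by
  classical
  rw [X_pow_eq, coeff_monomial_mul]
  by_cases h : k ≤ d 0
  · rw [if_pos h, if_pos (by simpa using h), one_mul]
    congr 1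
    rw [eq_mon (d - single 0 k)]
    simp
  · rw [if_neg h, if_neg (by simpa using h)]

theorem B_eq {k : ℕ} {f : R} (hf : f ∈ M k) : B f = (X 0 : R) ^ k * ph k f := by
  ext d
  rw [coeff_B, coeff_X_pow_mul_mon]
  by_cases h : k ≤ d 0
  · rw [if_pos h, coeff_ph]
    simp only [mon_zero, mon_one, Nat.sub_add_cancel h]
  · rw [if_neg h]
    by_cases h' : d 1 ≤ d 0
    · rw [if_pos h']
      exact mem_M.1 hf _ _ (by omega)
    · rw [if_neg h']

theorem X_pow_ne (k : ℕ) : (X 0 : R) ^ k ≠ 0 := pow_ne_zero _ fun h => by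
  classical
  have := congrArg (coeff (single 0 1)) h
  rw [coeff_index_single_self_X] at this
  exact one_ne_zero this

theorem ph_mul {k l : ℕ} {f g : R} (hf : f ∈ M k) (hg : g ∈ M l) : ph (k + l) (f * g) = ph k f * ph l g := by
  apply mul_left_cancel₀ (X_pow_ne (k + l))
  rw [← B_eq (mul_mem_M hf hg), map_mul, B_eq hf, B_eq hg, pow_add]
  ring

theorem ph_mem {k K : ℕ} {f : R} (hf : f ∈ M (k + K)) : ph k f ∈ M K := by
  refine mem_M.2 fun i j hij => ?_
  rw [coeff_ph]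
  simp only [mon_zero, mon_one]
  split_ifs with h
  · exact mem_M.1 hf _ _ (by omega)
  · rfl

/-- the transform is onto, modulo series of high order -/
theorem exists_ph {k K : ℕ} (h : K ≤ k) (g : R) : ∃ f ∈ M k, ph k f - g ∈ M K := by
  refine ⟨fun d => if k ≤ d 0 + d 1 then coeff (mon (d 0 + d 1 - k) (d 1)) g else 0, ?_, ?_⟩
  · refine mem_M.2 fun i j hij => ?_
    show (if k ≤ mon i j 0 + mon i j 1 then _ else (0 : ℂ)) = 0
    rw [if_neg (by simpa using hij)]
  · refine mem_M.2 fun i j hij => ?_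
    rw [map_sub, coeff_ph]
    simp only [mon_zero, mon_one]
    rw [if_pos (by omega)]
    show (if k ≤ mon (i + k - j) j 0 + mon (i + k - j) j 1 then coeff (mon (mon (i + k - j) j 0 + mon (i + k - j) j 1 - k) (mon (i + k - j) j 1)) g
      else (0 : ℂ)) - _ = 0
    simp only [mon_zero, mon_one]
    rw [if_pos (by omega), show i + k - j + j - k = i by omega, sub_self]

theorem ph_lf {k : ℕ} (c : T k → ℂ) : ph k (lf k c) = 0 := by
  ext d
  rw [coeff_ph, coeff_lf]
  simp only [mon_zero, mon_one, map_zero]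
  split_ifs with h1 h2 <;> first | rfl | omega

end Pool.Agent.H74.SB

end
end

section

/-!
# SB Len: the colength of an ideal under a blow-up: `i (a, b) ≥ l ^ 2 + i (a', b')`
-/

set_option autoImplicit false

open MvPowerSeries Finsupp

noncomputable section

namespace Pool.Agent.H74.SB

/-- the dimension of `R / J` -/
def dim (J : Ideal R) : ℕ := Module.finrank ℂ (R ⧸ J.restrictScalars ℂ)

theorem finQ {J : Ideal R} {K : ℕ} (h : M K ≤ J) : Module.Finite ℂ (R ⧸ J.restrictScalars ℂ) := by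
  refine Module.Finite.of_surjective ((J.restrictScalars ℂ).mkQ ∘ₗ lf K) ?_
  intro q
  obtain ⟨f, rfl⟩ := (J.restrictScalars ℂ).mkQ_surjective q
  refine ⟨tr K f, ?_⟩
  rw [LinearMap.comp_apply, ← sub_eq_zero, ← map_sub]
  rw [← neg_sub, map_neg, neg_eq_zero, Submodule.mkQ_apply, Submodule.Quotient.mk_eq_zero]
  exact h (sub_lf_mem f)

theorem finrank_le_dim {J : Ideal R} {K : ℕ} (h : M K ≤ J) {V : Type*} [AddCommGroup V] [Module ℂ V] (φ : R →ₗ[ℂ] V)
    (hφ : Function.Surjective φ) (hJ : ∀ f ∈ J, φ f = 0) : Module.finrank ℂ V ≤ dim J := by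
  have := finQ h
  refine LinearMap.finrank_le_finrank_of_surjective (f := (J.restrictScalars ℂ).liftQ φ fun f hf => LinearMap.mem_ker.2 (hJ f hf)) ?_
  intro v
  obtain ⟨f, rfl⟩ := hφ v
  exact ⟨(J.restrictScalars ℂ).mkQ f, by simp⟩

theorem dim_mono {I J : Ideal R} {K : ℕ} (h : M K ≤ I) (hIJ : I ≤ J) : dim J ≤ dim I :=
  finrank_le_dim h _ (Submodule.mkQ_surjective _) fun f hf => by
    rw [Submodule.mkQ_apply, Submodule.Quotient.mk_eq_zero]
    exact hIJ hf

/-- the first half of the count -/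
theorem step1 {a b : R} {l k K : ℕ} (ha : a ∈ M l) (hb : b.order = l) (hk : 2 * l ≤ k) :
    dim (M (k - l) * Ideal.span {a, b} ⊔ M K) + Fintype.card (T (k - 2 * l)) ≤
      dim (Ideal.span {a, b} ⊔ M K) + 2 * Fintype.card (T (k - l)) := by
  set J : Ideal R := M (k - l) * Ideal.span {a, b} ⊔ M K with hJ
  have : Module.Finite ℂ (R ⧸ J.restrictScalars ℂ) := finQ (K := K) le_sup_right
  have ha' : a ∈ Ideal.span ({a, b} : Set R) := Ideal.subset_span (by simp)
  have hb' : b ∈ Ideal.span ({a, b} : Set R) := Ideal.subset_span (by simp)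
  -- the map `(α, β) ↦ α a + β b`
  let F0 : (T (k - l) → ℂ) × (T (k - l) → ℂ) →ₗ[ℂ] R :=
    (LinearMap.mulRight ℂ a ∘ₗ lf (k - l)).coprod (LinearMap.mulRight ℂ b ∘ₗ lf (k - l))
  have hF0 : ∀ p, F0 p = lf (k - l) p.1 * a + lf (k - l) p.2 * b := fun p => by simp [F0]
  let F : (T (k - l) → ℂ) × (T (k - l) → ℂ) →ₗ[ℂ] (R ⧸ J.restrictScalars ℂ) := (J.restrictScalars ℂ).mkQ ∘ₗ F0
  have hzero : ∀ f ∈ J, (J.restrictScalars ℂ).mkQ f = 0 := fun f hf => by
    rw [Submodule.mkQ_apply, Submodule.Quotient.mk_eq_zero]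
    exact hf
  -- the relations
  let G : (T (k - 2 * l) → ℂ) →ₗ[ℂ] (T (k - l) → ℂ) × (T (k - l) → ℂ) :=
    (tr (k - l) ∘ₗ LinearMap.mulRight ℂ b ∘ₗ lf (k - 2 * l)).prod (-(tr (k - l) ∘ₗ LinearMap.mulRight ℂ a ∘ₗ lf (k - 2 * l)))
  have hG1 : ∀ c, (G c).1 = tr (k - l) (lf (k - 2 * l) c * b) := fun c => by simp [G]
  have hG2 : ∀ c, (G c).2 = -tr (k - l) (lf (k - 2 * l) c * a) := fun c => by simp [G]
  have hGinj : Function.Injective G := by
    rw [injective_iff_map_eq_zero]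
    intro c hc
    have h1 := congrArg Prod.fst hc
    rw [hG1, Prod.fst_zero, tr_eq_zero] at h1
    have h2 : lf (k - 2 * l) c ∈ M (k - 2 * l) := mem_M_of_mul hb (by rwa [show k - 2 * l + l = k - l by omega])
    rw [← tr_eq_zero, tr_lf] at h2
    exact h2
  have hGF : ∀ c, F (G c) = 0 := by
    intro c
    set γ := lf (k - 2 * l) c
    have e1 : F0 (G c) = -((γ * b - lf (k - l) (tr (k - l) (γ * b))) * a) + (γ * a - lf (k - l) (tr (k - l) (γ * a))) * b := by
      rw [hF0, hG1, hG2, map_neg]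
      ring
    show (J.restrictScalars ℂ).mkQ (F0 (G c)) = 0
    rw [e1]
    apply hzero
    refine Ideal.mem_sup_left (Ideal.add_mem _ (Ideal.neg_mem_iff _ |>.2 ?_) ?_)
    · exact Ideal.mul_mem_mul (sub_lf_mem _) ha'
    · exact Ideal.mul_mem_mul (sub_lf_mem _) hb'
  have hker : Fintype.card (T (k - 2 * l)) ≤ Module.finrank ℂ (LinearMap.ker F) := by
    rw [← Module.finrank_fintype_fun_eq_card ℂ (η := T (k - 2 * l))]
    exact LinearMap.finrank_le_finrank_of_injective (f := G.codRestrict (LinearMap.ker F) hGF) (fun x y h => hGinj (congrArg Subtype.val h))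
  have hrn := LinearMap.finrank_range_add_finrank_ker F
  rw [Module.finrank_prod, Module.finrank_fintype_fun_eq_card] at hrn
  have hq := Submodule.finrank_quotient_add_finrank (LinearMap.range F)
  have hcok : Module.finrank ℂ ((R ⧸ J.restrictScalars ℂ) ⧸ LinearMap.range F) ≤ dim (Ideal.span {a, b} ⊔ M K) := by
    refine finrank_le_dim (K := K) le_sup_right ((LinearMap.range F).mkQ ∘ₗ (J.restrictScalars ℂ).mkQ)
      ((Submodule.mkQ_surjective _).comp (Submodule.mkQ_surjective _)) ?_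
    intro f hf
    obtain ⟨g, hg, h, hh, rfl⟩ := Submodule.mem_sup.1 hf
    obtain ⟨α, β, rfl⟩ := Ideal.mem_span_pair.1 hg
    rw [LinearMap.comp_apply, map_add, hzero h (Ideal.mem_sup_right hh), add_zero, Submodule.mkQ_apply _ ((J.restrictScalars ℂ).mkQ _),
      Submodule.Quotient.mk_eq_zero]
    refine ⟨(tr (k - l) α, tr (k - l) β), ?_⟩
    show (J.restrictScalars ℂ).mkQ (F0 _) = _
    rw [← sub_eq_zero, ← map_sub]
    apply hzero
    have e1 : F0 (tr (k - l) α, tr (k - l) β) - (α * a + β * b) =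
        -((α - lf (k - l) (tr (k - l) α)) * a) + -((β - lf (k - l) (tr (k - l) β)) * b) := by
      rw [hF0]
      ring
    rw [e1]
    refine Ideal.mem_sup_left (Ideal.add_mem _ (Ideal.neg_mem_iff _ |>.2 ?_) (Ideal.neg_mem_iff _ |>.2 ?_))
    · exact Ideal.mul_mem_mul (sub_lf_mem _) ha'
    · exact Ideal.mul_mem_mul (sub_lf_mem _) hb'
  show Module.finrank ℂ (R ⧸ J.restrictScalars ℂ) + _ ≤ _
  omega

/-- the second half of the count -/
theorem step2 {a b : R} {l k K : ℕ} (ha : a ∈ M l) (hb : b ∈ M l) (hlk : l ≤ k) (hk : K ≤ k) :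
    Fintype.card (T k) + dim (Ideal.span {ph l a, ph l b} ⊔ M K) ≤ dim (M (k - l) * Ideal.span {a, b} ⊔ M (k + K)) := by
  set I : Ideal R := Ideal.span {ph l a, ph l b} ⊔ M K with hI
  have : Module.Finite ℂ (R ⧸ I.restrictScalars ℂ) := finQ (K := K) le_sup_right
  have hzero : ∀ f ∈ I, (I.restrictScalars ℂ).mkQ f = 0 := fun f hf => by
    rw [Submodule.mkQ_apply, Submodule.Quotient.mk_eq_zero]
    exact hf
  let φ : R →ₗ[ℂ] (T k → ℂ) × (R ⧸ I.restrictScalars ℂ) := (tr k).prod ((I.restrictScalars ℂ).mkQ ∘ₗ ph k)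
  have hφ : ∀ f, φ f = (tr k f, (I.restrictScalars ℂ).mkQ (ph k f)) := fun f => rfl
  have hsurj : Function.Surjective φ := by
    rintro ⟨c, q⟩
    obtain ⟨g, rfl⟩ := (I.restrictScalars ℂ).mkQ_surjective q
    obtain ⟨h, hh, hhg⟩ := exists_ph hk g
    refine ⟨lf k c + h, ?_⟩
    rw [hφ, map_add, tr_lf, tr_eq_zero.2 hh, add_zero, map_add, ph_lf, zero_add]
    congr 1
    rw [← sub_eq_zero, ← map_sub]
    exact hzero _ (Ideal.mem_sup_right hhg)
  have h1 : Module.finrank ℂ ((T k → ℂ) × (R ⧸ I.restrictScalars ℂ)) ≤ dim (M (k - l) * Ideal.span {a, b} ⊔ M (k + K)) := by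
    refine finrank_le_dim (K := k + K) le_sup_right φ hsurj ?_
    intro f hf
    -- members of the first ideal
    have hgen : ∀ g ∈ M (k - l) * Ideal.span {a, b}, g ∈ M k ∧ ph k g ∈ Ideal.span {ph l a, ph l b} := by
      intro g hg
      refine Submodule.mul_induction_on hg ?_ ?_
      · intro m hm n hn
        obtain ⟨α, β, rfl⟩ := Ideal.mem_span_pair.1 hn
        have e : m * (α * a + β * b) = m * α * a + m * β * b := by ring
        have hmα : m * α ∈ M (k - l) := Ideal.mul_mem_right _ _ hm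
        have hmβ : m * β ∈ M (k - l) := Ideal.mul_mem_right _ _ hm
        have e2 : k - l + l = k := by omega
        have p1 := ph_mul hmα ha
        have p2 := ph_mul hmβ hb
        have q1 := mul_mem_M hmα ha
        have q2 := mul_mem_M hmβ hb
        rw [e2] at p1 p2 q1 q2
        rw [e]
        refine ⟨Ideal.add_mem _ q1 q2, ?_⟩
        rw [map_add, p1, p2]
        exact Ideal.mem_span_pair.2 ⟨_, _, rfl⟩
      · intro x y hx hy
        exact ⟨Ideal.add_mem _ hx.1 hy.1, by rw [map_add]; exact Ideal.add_mem _ hx.2 hy.2⟩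
    obtain ⟨g, hg, h, hh, rfl⟩ := Submodule.mem_sup.1 hf
    obtain ⟨hg1, hg2⟩ := hgen g hg
    rw [hφ, map_add, tr_eq_zero.2 hg1, tr_eq_zero.2 (M_anti (Nat.le_add_right _ _) hh), add_zero, map_add, map_add,
      hzero _ (Ideal.mem_sup_left hg2), hzero _ (Ideal.mem_sup_right (ph_mem hh)), add_zero]
    rfl
  rw [Module.finrank_prod, Module.finrank_fintype_fun_eq_card] at h1
  exact h1

/-- `i (a, b) ≥ l ^ 2 + i (a', b')`, with truncations -/
theorem dim_ph {a b : R} {l : ℕ} (ha : a ∈ M l) (hb : b.order = l) (K : ℕ) :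
    dim (Ideal.span {ph l a, ph l b} ⊔ M K) + l * l ≤ dim (Ideal.span {a, b} ⊔ M (K + 2 * l + K)) := by
  have h1 := step1 (K := K + 2 * l + K) ha hb (k := K + 2 * l) (by omega)
  have h2 := step2 (K := K) ha (mem_M_order.2 hb.ge) (k := K + 2 * l) (by omega) (by omega)
  have c1 := card_T (K + 2 * l)
  have c2 := card_T (K + l)
  have c3 := card_T K
  rw [show K + 2 * l - l = K + l by omega, show K + 2 * l - 2 * l = K by omega] at h1
  rw [show K + 2 * l - l = K + l by omega] at h2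
  nlinarith

end Pool.Agent.H74.SB

end
end

section

/-!
# SB Blow: the multiplicity of the strict transforms
-/

set_option autoImplicit false

open MvPowerSeries

noncomputable section

namespace Pool.Agent.SB

open Pool.Agent.H74.SB (M mem_M mem_M_order B B_eq ph dim finQ finrank_le_dim dim_ph dim_mono mul_mem_M mem_M_of_mul mon)

namespace Blow

theorem M_succ_le (K : ℕ) : M (K + 1) ≤ M 1 * M K := by
  intro f hf
  let g : R2 := fun d => coeff (d + Finsupp.single 0 1) f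
  have hg : ∀ d, coeff d g = coeff (d + Finsupp.single 0 1) f := fun d => rfl
  have hgM : g ∈ M K := by
    refine mem_M.2 fun i j hij => ?_
    rw [hg]
    have e : mon i j + Finsupp.single 0 1 = mon (i + 1) j := by
      rw [mon, mon, Finsupp.single_add]
      abel
    rw [e]
    exact mem_M.1 hf _ _ (by omega)
  have hX0 : (X 0 : R2) ∈ M 1 := by
    refine mem_M.2 fun i j hij => ?_
    have h1 : i = 0 := by omega
    have h2 : j = 0 := by omega
    subst h1 h2
    simp [mon]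
  have hX1 : (X 1 : R2) ∈ M 1 := by
    refine mem_M.2 fun i j hij => ?_
    have h1 : i = 0 := by omega
    have h2 : j = 0 := by omega
    subst h1 h2
    simp [mon]
  obtain ⟨h, hh⟩ : (X 1 : R2) ∣ f - X 0 * g := by
    refine X_dvd_iff.2 fun d hd => ?_
    rw [map_sub]
    by_cases h0 : d 0 = 0
    · have e : d = mon 0 0 := by rw [Pool.Agent.H74.SB.eq_mon d, h0, hd]
      have h1 : coeff d f = 0 := by rw [e]; exact mem_M.1 hf _ _ (by omega)
      have h2 : coeff d (X 0 * g) = 0 := by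
        have := Pool.Agent.H74.SB.coeff_X_pow_mul_mon 1 g d
        rw [pow_one] at this
        rw [this, if_neg (by omega)]
      rw [h1, h2, sub_zero]
    · have := Pool.Agent.H74.SB.coeff_X_pow_mul_mon 1 g d
      rw [pow_one] at this
      rw [this, if_pos (by omega), hg, sub_eq_zero]
      have e : mon (d 0 - 1) (d 1) + Finsupp.single 0 1 = mon (d 0 - 1 + 1) (d 1) := by
        rw [mon, mon, Finsupp.single_add]
        abel
      rw [e, Nat.sub_add_cancel (by omega), ← Pool.Agent.H74.SB.eq_mon d]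
  have hX1o : (X 1 : R2).order = (1 : ℕ) := by
    classical
    refine le_antisymm ?_ hX1
    have : coeff (Finsupp.single 1 1) (X 1 : R2) ≠ 0 := by
      rw [coeff_index_single_self_X]
      exact one_ne_zero
    simpa using order_le this
  have hhM : h ∈ M K := by
    refine mem_M_of_mul hX1o ?_
    rw [mul_comm, ← hh]
    exact Ideal.sub_mem _ hf (by rw [add_comm]; exact mul_mem_M hX0 hgM)
  have e : f = X 0 * g + X 1 * h := by rw [← hh]; ring
  rw [e]
  exact Ideal.add_mem _ (Ideal.mul_mem_mul hX0 hgM) (Ideal.mul_mem_mul hX1 hhM)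

theorem M_eq_pow (K : ℕ) : M K = M 1 ^ K := by
  induction K with
  | zero =>
    rw [pow_zero, Ideal.one_eq_top]
    refine eq_top_iff.2 fun f _ => mem_M.2 fun i j hij => by omega
  | succ K ih =>
    rw [pow_succ', ← ih]
    refine le_antisymm (M_succ_le K) (Ideal.mul_le.2 fun a ha b hb => ?_)
    rw [add_comm]
    exact mul_mem_M ha hb

theorem M_one_eq : M 1 = Ideal.span {X 0, X 1} := by
  refine le_antisymm ?_ ?_
  · intro f hf
    have h1 := M_succ_le 0 hf
    -- repeat the decomposition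
    obtain ⟨g, hg⟩ : ∃ g : R2, X 1 ∣ f - X 0 * g := by
      refine ⟨fun d => coeff (d + Finsupp.single 0 1) f, ?_⟩
      refine X_dvd_iff.2 fun d hd => ?_
      rw [map_sub]
      have key := Pool.Agent.H74.SB.coeff_X_pow_mul_mon 1 (fun d => coeff (d + Finsupp.single 0 1) f : R2) d
      rw [pow_one] at key
      rw [key]
      by_cases h0 : d 0 = 0
      · have e : d = mon 0 0 := by rw [Pool.Agent.H74.SB.eq_mon d, h0, hd]
        rw [if_neg (by omega), sub_zero, e]
        exact mem_M.1 hf _ _ (by omega)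
      · rw [if_pos (by omega), sub_eq_zero]
        show coeff d f = coeff (mon (d 0 - 1) (d 1) + Finsupp.single 0 1) f
        have e : mon (d 0 - 1) (d 1) + Finsupp.single 0 1 = mon (d 0 - 1 + 1) (d 1) := by
          rw [mon, mon, Finsupp.single_add]
          abel
        rw [e, Nat.sub_add_cancel (by omega), ← Pool.Agent.H74.SB.eq_mon d]
    obtain ⟨h, hh⟩ := hg
    exact Ideal.mem_span_pair.2 ⟨g, h, by rw [mul_comm h, ← hh]; ring⟩
  · rw [Ideal.span_le]
    rintro f (rfl | rfl)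
    · refine mem_M.2 fun i j hij => ?_
      have h1 : i = 0 := by omega
      have h2 : j = 0 := by omega
      subst h1 h2
      simp [mon]
    · refine mem_M.2 fun i j hij => ?_
      have h1 : i = 0 := by omega
      have h2 : j = 0 := by omega
      subst h1 h2
      simp [mon]

/-! ## the linear change -/

theorem hasSubst_L (t : ℂ) : HasSubst (S := ℂ) (![X 0, X 1 + C t * X 0] : Fin 2 → R2) :=
  hasSubst_of_constantCoeff_zero fun i => by fin_cases i <;> simp

/-- `f (x, y) ↦ f (x, y + t x)` -/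
def L (t : ℂ) : R2 →ₐ[ℂ] R2 := substAlgHom (hasSubst_L t)

theorem L_X0 (t : ℂ) : L t (X 0) = X 0 := by
  rw [L, substAlgHom_X]
  rfl

theorem L_X1 (t : ℂ) : L t (X 1) = X 1 + C t * X 0 := by
  rw [L, substAlgHom_X]
  rfl

theorem L_C (t c : ℂ) : L t (C c) = C c := by
  have : (C c : R2) = algebraMap ℂ R2 c := by rw [MvPowerSeries.algebraMap_apply]; rfl
  rw [this, AlgHom.commutes]

theorem B_X0 : B (X 0) = X 0 := by
  unfold B
  rw [substAlgHom_X]
  rfl

theorem B_X1 : B (X 1) = X 0 * X 1 := by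
  unfold B
  rw [substAlgHom_X]
  rfl

theorem B_L (t : ℂ) (f : R2) : B (L t f) = bl t f := by
  have ha := hasSubst_L t
  have hb : HasSubst (![X 0, X 0 * X 1] : Fin 2 → R2) := hasSubst_of_constantCoeff_zero fun s => by fin_cases s <;> simp
  have h1 : ∀ g, B g = subst (![X 0, X 0 * X 1] : Fin 2 → R2) g := fun g => by
    rw [← coe_substAlgHom hb]
    rfl
  have h2 : L t f = subst (![X 0, X 1 + C t * X 0] : Fin 2 → R2) f := by
    rw [← coe_substAlgHom ha]
    rfl
  have h3 : bl t f = subst (![X 0, X 0 * (X 1 + C t)] : Fin 2 → R2) f := by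
    rw [← coe_substAlgHom (hasSubst_bl t)]
    rfl
  rw [h1, h2, h3, subst_comp_subst_apply ha hb]
  congr 1
  funext i
  rw [← h1]
  fin_cases i
  · exact B_X0
  · show B (X 1 + C t * X 0) = X 0 * (X 1 + C t)
    have hC : B (C t) = C t := by
      have : (C t : R2) = algebraMap ℂ R2 t := by rw [MvPowerSeries.algebraMap_apply]; rfl
      rw [this, AlgHom.commutes]
    rw [map_add, map_mul, hC, B_X0, B_X1]
    ring

theorem L_L (s t : ℂ) (f : R2) : L s (L t f) = L (s + t) f := by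
  have ha := hasSubst_L t
  have hb := hasSubst_L s
  have h : ∀ (r : ℂ) (g : R2), L r g = subst (![X 0, X 1 + C r * X 0] : Fin 2 → R2) g := fun r g => by
    rw [← coe_substAlgHom (hasSubst_L r)]
    rfl
  rw [h s, h t, h (s + t), subst_comp_subst_apply ha hb]
  congr 1
  funext i
  rw [← h]
  fin_cases i
  · exact L_X0 s
  · show L s (X 1 + C t * X 0) = X 1 + C (s + t) * X 0
    rw [map_add, map_mul, L_C, L_X0, L_X1, map_add]
    ring

theorem L_zero (f : R2) : L 0 f = f := by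
  have h : L 0 f = subst (![X 0, X 1 + C (0 : ℂ) * X 0] : Fin 2 → R2) f := by
    rw [← coe_substAlgHom (hasSubst_L 0)]
    rfl
  rw [h]
  have e : (![X 0, X 1 + C (0 : ℂ) * X 0] : Fin 2 → R2) = X := by
    funext i
    fin_cases i
    · rfl
    · show X 1 + C (0 : ℂ) * X 0 = X 1
      rw [map_zero, zero_mul, add_zero]
  rw [e, subst_self]
  rfl

/-- the automorphism -/
def LE (t : ℂ) : R2 ≃ₐ[ℂ] R2 :=
  AlgEquiv.ofAlgHom (L t) (L (-t)) (by ext1 f; simp [L_L, L_zero]) (by ext1 f; simp [L_L, L_zero])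

theorem L_mem {t : ℂ} {k : ℕ} {f : R2} (hf : f ∈ M k) : L t f ∈ M k := by
  have h1 : Ideal.map (L t) (M 1) ≤ M 1 := by
    conv_lhs => rw [M_one_eq]
    rw [Ideal.map_span, Ideal.span_le]
    rintro _ ⟨g, rfl | rfl, rfl⟩
    · rw [L_X0, M_one_eq]
      exact Ideal.subset_span (by simp)
    · rw [L_X1, M_one_eq]
      exact Ideal.add_mem _ (Ideal.subset_span (by simp)) (Ideal.mul_mem_left _ _ (Ideal.subset_span (by simp)))
  rw [M_eq_pow] at hf ⊢
  have h2 := Ideal.mem_map_of_mem (L t) hf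
  rw [Ideal.map_pow] at h2
  exact Ideal.pow_right_mono h1 k h2

theorem L_mem_iff {t : ℂ} {k : ℕ} {f : R2} : L t f ∈ M k ↔ f ∈ M k :=
  ⟨fun h => by simpa [L_L, L_zero] using L_mem (t := -t) h, L_mem⟩

/-! ## colengths -/

theorem dim_eq_finrank (J : Ideal R2) : dim J = Module.finrank ℂ (R2 ⧸ J) :=
  (Submodule.Quotient.restrictScalarsEquiv ℂ J).finrank_eq

theorem dim_le_finrank {I J : Ideal R2} (hIJ : I ≤ J) (hf : Module.Finite ℂ (R2 ⧸ I)) : dim J ≤ Module.finrank ℂ (R2 ⧸ I) := by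
  rw [dim_eq_finrank]
  refine LinearMap.finrank_le_finrank_of_surjective (f := (Ideal.Quotient.factorₐ ℂ hIJ).toLinearMap) ?_
  exact Ideal.Quotient.factor_surjective hIJ

/-- Nakayama -/
theorem fin_of_bdd {I : Ideal R2} {m : ℕ} (h : ∀ K, dim (I ⊔ M K) ≤ m) : Module.Finite ℂ (R2 ⧸ I) ∧ Module.finrank ℂ (R2 ⧸ I) ≤ m := by
  have hmono : ∀ K, dim (I ⊔ M K) ≤ dim (I ⊔ M (K + 1)) := fun K =>
    dim_mono (K := K + 1) le_sup_right (sup_le_sup_left (Pool.Agent.H74.SB.M_anti (Nat.le_succ K)) _)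
  obtain ⟨K, hK⟩ : ∃ K, dim (I ⊔ M K) = dim (I ⊔ M (K + 1)) := by
    by_contra hcon
    push Not at hcon
    have hK : ∀ K, K ≤ dim (I ⊔ M K) := by
      intro K
      induction K with
      | zero => exact Nat.zero_le _
      | succ K ih => exact lt_of_le_of_lt ih (lt_of_le_of_ne (hmono K) (hcon K))
    have := (hK (m + 1)).trans (h (m + 1))
    omega
  have h1 : M K ≤ I ⊔ M (K + 1) := by
    have hfin : Module.Finite ℂ (R2 ⧸ (I ⊔ M (K + 1)).restrictScalars ℂ) := finQ (K := K + 1) le_sup_right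
    have hfin' : Module.Finite ℂ (R2 ⧸ (I ⊔ M K).restrictScalars ℂ) := finQ (K := K) le_sup_right
    have hle : (I ⊔ M (K + 1)).restrictScalars ℂ ≤ (I ⊔ M K).restrictScalars ℂ :=
      sup_le_sup_left (Pool.Agent.H74.SB.M_anti (Nat.le_succ K)) _
    let φ := ((I ⊔ M (K + 1)).restrictScalars ℂ).liftQ ((I ⊔ M K).restrictScalars ℂ).mkQ (by rwa [Submodule.ker_mkQ])
    have hφ : Function.Surjective φ := by
      intro q
      obtain ⟨f, rfl⟩ := Submodule.mkQ_surjective _ q
      exact ⟨((I ⊔ M (K + 1)).restrictScalars ℂ).mkQ f, by simp [φ]⟩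
    have hinj : Function.Injective φ := (LinearMap.injective_iff_surjective_of_finrank_eq_finrank hK.symm).2 hφ
    intro f hf
    have h2 : φ (((I ⊔ M (K + 1)).restrictScalars ℂ).mkQ f) = 0 := by
      have : φ (((I ⊔ M (K + 1)).restrictScalars ℂ).mkQ f) = ((I ⊔ M K).restrictScalars ℂ).mkQ f := by simp [φ]
      rw [this, Submodule.mkQ_apply, Submodule.Quotient.mk_eq_zero]
      exact Ideal.mem_sup_right hf
    have h3 := hinj (h2.trans (map_zero φ).symm)
    rw [Submodule.mkQ_apply, Submodule.Quotient.mk_eq_zero] at h3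
    exact h3
  have h2 : M K ≤ I := by
    refine Submodule.le_of_le_smul_of_le_jacobson_bot (I := M 1) (IsNoetherian.noetherian _) ?_ (h1.trans (sup_le_sup_left (M_succ_le K) _))
    rw [IsLocalRing.jacobson_eq_maximalIdeal ⊥ bot_ne_top]
    refine IsLocalRing.le_maximalIdeal fun htop => ?_
    have h3 : (1 : R2) ∈ M 1 := htop ▸ Submodule.mem_top
    have h4 := mem_M.1 h3 0 0 (by omega)
    simp [mon] at h4
  have h3 : I ⊔ M K = I := sup_eq_left.2 h2
  have hfin : Module.Finite ℂ (R2 ⧸ I.restrictScalars ℂ) := finQ h2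
  refine ⟨Module.Finite.equiv (Submodule.Quotient.restrictScalarsEquiv ℂ I), ?_⟩
  rw [← dim_eq_finrank, ← h3]
  exact h K

theorem ord_iff {l : ℕ} {a : R2} : Ord l a ↔ a ∈ M l := by
  rw [mem_M]
  rfl

theorem order_eq {l : ℕ} {b : R2} (h1 : b ∈ M l) (h2 : b ∉ M (l + 1)) : b.order = l := by
  rw [mem_M_order] at h1 h2
  refine le_antisymm ?_ h1
  rw [not_le] at h2
  push_cast at h2
  exact (ENat.lt_add_one_iff (by simp)).1 h2

theorem fin_L {t : ℂ} {a b : R2} (h : Fin2 a b) : Module.Finite ℂ (R2 ⧸ Ideal.span {L t a, L t b}) ∧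
    Module.finrank ℂ (R2 ⧸ Ideal.span {L t a, L t b}) = mu a b := by
  have e : Ideal.span {L t a, L t b} = Ideal.map ((LE t : R2 ≃ₐ[ℂ] R2) : R2 →+* R2) (Ideal.span {a, b}) := by
    rw [Ideal.map_span, Set.image_pair]
    rfl
  let E := Ideal.quotientEquivAlg (Ideal.span {a, b}) (Ideal.span {L t a, L t b}) (LE t) e
  have hf : Module.Finite ℂ (R2 ⧸ Ideal.span {a, b}) := h
  exact ⟨Module.Finite.equiv E.toLinearEquiv, E.toLinearEquiv.finrank_eq.symm⟩

theorem core {a b u v : R2} {t : ℂ} {l : ℕ} (hf : Fin2 a b) (ha : a ∈ M l) (hb : b ∈ M l) (hl : b ∉ M (l + 1))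
    (hu : X 0 ^ l * u = bl t a) (hv : X 0 ^ l * v = bl t b) : Fin2 u v ∧ mu u v + l * l ≤ mu a b := by
  have hu' : u = ph l (L t a) := by
    apply mul_left_cancel₀ (Pool.Agent.H74.SB.X_pow_ne l)
    rw [hu, ← B_L, B_eq (L_mem ha)]
  have hv' : v = ph l (L t b) := by
    apply mul_left_cancel₀ (Pool.Agent.H74.SB.X_pow_ne l)
    rw [hv, ← B_L, B_eq (L_mem hb)]
  obtain ⟨hfin, hmu⟩ := fin_L (t := t) hf
  have hor : (L t b).order = l := order_eq (L_mem hb) (fun h => hl (L_mem_iff.1 h))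
  have key : ∀ K, dim (Ideal.span {u, v} ⊔ M K) + l * l ≤ mu a b := by
    intro K
    rw [hu', hv', ← hmu]
    exact (dim_ph (L_mem ha) hor K).trans (dim_le_finrank le_sup_left hfin)
  have hle : l * l ≤ mu a b := (Nat.le_add_left _ _).trans (key 0)
  have h1 := fin_of_bdd (I := Ideal.span {u, v}) (m := mu a b - l * l) fun K => by
    have := key K
    omega
  refine ⟨h1.1, ?_⟩
  have h2 : mu u v ≤ mu a b - l * l := h1.2
  omega

end Blow

open Blow

theorem mu_blow {a b u v : R2} {t : ℂ} {l : ℕ} (hf : Fin2 a b) (ha : Ord l a) (hb : Ord l b) (hl : ¬ (Ord (l + 1) a ∧ Ord (l + 1) b))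
    (hu : X 0 ^ l * u = bl t a) (hv : X 0 ^ l * v = bl t b) : Fin2 u v ∧ mu u v + l * l ≤ mu a b := by
  rw [ord_iff] at ha hb
  rw [ord_iff, ord_iff] at hl
  by_cases h : b ∈ M (l + 1)
  · have h1 : a ∉ M (l + 1) := fun h2 => hl ⟨h2, h⟩
    have e : ∀ p q : R2, ({p, q} : Set R2) = {q, p} := fun p q => Set.pair_comm p q
    unfold Fin2 mu at *
    rw [e u v, e a b]
    rw [e a b] at hf
    exact core hf hb ha h1 hv hu
  · exact core hf ha hb h hu hv

end Pool.Agent.SB

end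
end

section

/-!
# SB Chd: the child and its intersection multiplicity
-/

set_option autoImplicit false

open MvPowerSeries

noncomputable section

namespace Pool.Agent.SB

theorem Chd.X0_ne : (X 0 : R2) ≠ 0 := by
  intro h
  have h1 := cf_X0_mul (1 : R2) 1 0
  rw [h, zero_mul] at h1
  have h2 : cf (0 : R2) 1 0 = 0 := map_zero _
  have h3 : cf (1 : R2) 0 0 = 1 := by
    unfold cf ex
    simp
  rw [h2] at h1
  simp [h3] at h1

theorem Chd.cancel {n : ℕ} {p q : R2} (h : X 0 ^ n * p = X 0 ^ n * q) : p = q :=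
  mul_left_cancel₀ (pow_ne_zero n Chd.X0_ne) h

theorem Chd.eq_c {a b u v : R2} {t : ℂ} {l : ℕ} (hu : X 0 ^ l * u = bl t a) (hv : X 0 ^ l * v = bl t b) :
    bl t b - (X 1 + C t) * bl t a = X 0 ^ l * (v - (X 1 + C t) * u) := by
  rw [← hu, ← hv]
  ring

theorem child_cases {a b a₁ b₁ u v : R2} {t : ℂ} {l : ℕ} (_hl1 : 1 ≤ l) (ha : Ord l a) (hb : Ord l b) (hl : ¬ (Ord (l + 1) a ∧ Ord (l + 1) b))
    (hu : X 0 ^ l * u = bl t a) (hv : X 0 ^ l * v = bl t b) (h : Child t a b a₁ b₁) :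
    (a₁ = X 0 * u ∧ b₁ = v - (X 1 + C t) * u ∧ ¬ X 0 ∣ b₁) ∨ (a₁ = u ∧ X 0 * b₁ = v - (X 1 + C t) * u) := by
  obtain ⟨e, h1, h2, h3⟩ := h
  rw [Chd.eq_c hu hv] at h2
  rw [← hu] at h1
  by_cases hc : X 0 ∣ v - (X 1 + C t) * u
  · right
    obtain ⟨c', hc'⟩ := hc
    have hnu : ¬ X 0 ∣ u := by
      intro hdu
      have hdv : X 0 ∣ v := by
        have : v = X 0 * c' + (X 1 + C t) * u := by rw [← hc']; ring
        rw [this]
        exact dvd_add (dvd_mul_right _ _) (hdu.mul_left _)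
      exact hl ⟨ord_succ_of_dvd ha hu hdu, ord_succ_of_dvd hb hv hdv⟩
    have hel : e ≤ l := by
      by_contra hlt
      apply hnu
      obtain ⟨k, hk⟩ := Nat.exists_eq_add_of_lt (not_le.1 hlt)
      refine ⟨X 0 ^ k * a₁, ?_⟩
      apply Chd.cancel (n := l)
      rw [← h1, hk]
      ring
    obtain ⟨k, hk⟩ := Nat.exists_eq_add_of_le hel
    subst hk
    have e1 : a₁ = X 0 ^ k * u := by
      apply Chd.cancel (n := e)
      rw [h1]
      ring
    have e2 : b₁ = X 0 ^ k * c' := by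
      apply Chd.cancel (n := e + 1)
      rw [h2, hc']
      ring
    rcases Nat.eq_zero_or_pos k with hk0 | hk0
    · subst hk0
      rw [pow_zero, one_mul] at e1 e2
      exact ⟨e1, by rw [e2, hc']⟩
    · exfalso
      apply h3
      rw [e1, e2]
      exact ⟨(dvd_pow_self _ hk0.ne').mul_right _, (dvd_pow_self _ hk0.ne').mul_right _⟩
  · left
    have hel : e + 1 ≤ l := by
      by_contra hlt
      apply hc
      obtain ⟨k, hk⟩ := Nat.exists_eq_add_of_lt (not_le.1 hlt)
      refine ⟨X 0 ^ k * b₁, ?_⟩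
      apply Chd.cancel (n := l)
      rw [← h2, hk]
      ring
    obtain ⟨k, hk⟩ := Nat.exists_eq_add_of_le hel
    subst hk
    have e1 : a₁ = X 0 ^ (k + 1) * u := by
      apply Chd.cancel (n := e)
      rw [h1]
      ring
    have e2 : b₁ = X 0 ^ k * (v - (X 1 + C t) * u) := by
      apply Chd.cancel (n := e + 1)
      rw [h2]
      ring
    rcases Nat.eq_zero_or_pos k with hk0 | hk0
    · subst hk0
      rw [pow_zero, one_mul] at e2
      rw [zero_add, pow_one] at e1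
      exact ⟨e1, e2, by rw [e2]; exact hc⟩
    · exfalso
      apply h3
      rw [e1, e2]
      exact ⟨(dvd_pow_self _ (Nat.succ_ne_zero k)).mul_right _, (dvd_pow_self _ hk0.ne').mul_right _⟩

theorem child_mu_le {a b a₁ b₁ u v : R2} {t : ℂ} {l n : ℕ} (hf : Fin2 a b) (hl1 : 1 ≤ l) (ha : Ord l a) (hb : Ord l b)
    (hl : ¬ (Ord (l + 1) a ∧ Ord (l + 1) b)) (hu : X 0 ^ l * u = bl t a) (hv : X 0 ^ l * v = bl t b) (h : Child t a b a₁ b₁)
    (hn : cf (v - (X 1 + C t) * u) 0 n ≠ 0) : Fin2 a₁ b₁ ∧ mu a₁ b₁ + l * l ≤ mu a b + n := by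
  obtain ⟨hfuv, hmuv⟩ := mu_blow hf ha hb hl hu hv
  have hfuc : Fin2 u (v - (X 1 + C t) * u) := (fin2_sub _ _ _).2 hfuv
  have hmuc : mu u (v - (X 1 + C t) * u) = mu u v := mu_sub _ _ _
  rcases child_cases hl1 ha hb hl hu hv h with ⟨e1, e2, -⟩ | ⟨e1, e2⟩
  · obtain ⟨hx1, hx2⟩ := mu_X0 hn
    obtain ⟨hm1, hm2⟩ := mu_mul hx1 hfuc
    rw [e1, e2]
    exact ⟨hm1, by omega⟩
  · rw [← e2] at hfuc hmuc
    obtain ⟨hm1, hm2⟩ := mu_of_mul hfuc
    rw [e1]
    exact ⟨hm1, by omega⟩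

theorem child_mu {a b a₁ b₁ : R2} {t : ℂ} {l : ℕ} (hf : Fin2 a b) (h2 : 2 ≤ l) (ha : Ord l a) (hb : Ord l b)
    (hl : ¬ (Ord (l + 1) a ∧ Ord (l + 1) b)) (h : Child t a b a₁ b₁) : Fin2 a₁ b₁ ∧ mu a₁ b₁ < mu a b := by
  obtain ⟨u, hu⟩ := exists_bl t ha
  obtain ⟨v, hv⟩ := exists_bl t hb
  have hl1 : 1 ≤ l := by omega
  have hll : l + 2 ≤ l * l := by nlinarith
  rcases child_cases hl1 ha hb hl hu hv h with ⟨e1, e2, e3⟩ | ⟨e1, e2⟩
  · rw [X0_dvd_iff] at e3
    push Not at e3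
    obtain ⟨n, hn⟩ := e3
    rw [e2] at hn
    have hnl : n ≤ l + 1 := by
      by_contra hcon
      push Not at hcon
      apply hn
      rw [cf_sub, add_mul, cf_add, cf_X1_mul, cf_C_mul, cf_zero_of_bl hv (by omega), cf_zero_of_bl hu (j := n) (by omega), if_pos (by omega),
        cf_zero_of_bl hu (j := n - 1) (by omega)]
      ring
    obtain ⟨h4, h5⟩ := child_mu_le hf hl1 ha hb hl hu hv h hn
    exact ⟨h4, by omega⟩
  · obtain ⟨hfuv, hmuv⟩ := mu_blow hf ha hb hl hu hv
    have hfuc : Fin2 u (v - (X 1 + C t) * u) := (fin2_sub _ _ _).2 hfuv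
    have hmuc : mu u (v - (X 1 + C t) * u) = mu u v := mu_sub _ _ _
    rw [← e2] at hfuc hmuc
    obtain ⟨hm1, hm2⟩ := mu_of_mul hfuc
    rw [e1]
    exact ⟨hm1, by omega⟩

end Pool.Agent.SB

end
end

section

/-!
# SB Eig: germs with a nonzero eigenvalue are reduced by finitely many blow-ups
-/

set_option autoImplicit false

open MvPowerSeries

noncomputable section

namespace Pool.Agent.SB

/-! ### the coefficients of `c = v - (y + t) u` on the exceptional line -/

theorem cf_c_zero (u v : R2) (t : ℂ) : cf (v - (X 1 + C t) * u) 0 0 = cf v 0 0 - t * cf u 0 0 := by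
  rw [cf_sub, add_mul, cf_add, cf_X1_mul, cf_C_mul]
  simp

theorem cf_c_succ (u v : R2) (t : ℂ) (j : ℕ) :
    cf (v - (X 1 + C t) * u) 0 (j + 1) = cf v 0 (j + 1) - (cf u 0 j + t * cf u 0 (j + 1)) := by
  rw [cf_sub, add_mul, cf_add, cf_X1_mul, cf_C_mul]
  simp

theorem cf_X0_mul_zero (b : R2) (j : ℕ) : cf (X 0 * b) 0 j = 0 := by
  rw [cf_X0_mul]
  simp

/-- the tangent direction `(1 : t)` is not a root of `P`: the child is regular -/
theorem red_child_reg {a b a₁ b₁ u v : R2} {t : ℂ} {l : ℕ} (hl1 : 1 ≤ l) (ha : Ord l a) (hb : Ord l b) (hl : ¬ (Ord (l + 1) a ∧ Ord (l + 1) b))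
    (hu : X 0 ^ l * u = bl t a) (hv : X 0 ^ l * v = bl t b) (h : Child t a b a₁ b₁) (h0 : cf (v - (X 1 + C t) * u) 0 0 ≠ 0) : Red a₁ b₁ := by
  rcases child_cases hl1 ha hb hl hu hv h with ⟨_, h2, _⟩ | ⟨_, h2⟩
  · exact Red.reg _ _ (Or.inr (by rw [h2]; exact h0))
  · exact absurd (by rw [← h2]; exact cf_X0_mul_zero b₁ 0) h0

/-- the linear part of the child over an eigendirection -/
theorem red_child_eig {a₁ b₁ : R2} {l k : ℂ} {p q : ℕ}
    (ih : ∀ (a' b' : R2) (l' k' : ℂ) (p' q' : ℕ), p' + q' < p + q → cf a' 0 0 = 0 → cf b' 0 0 = 0 → l' + k' = tr a' b' → l' * k' = dt a' b' →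
      l' ≠ 0 → 0 < p' → 0 < q' → (p' : ℂ) * l' = q' * k' → Red a' b')
    (ha₁ : cf a₁ 0 0 = 0) (hb₁ : cf b₁ 0 0 = 0) (htr : tr a₁ b₁ = k) (hdt : dt a₁ b₁ = l * (k - l))
    (hl : l ≠ 0) (hp : 0 < p) (hq : 0 < q) (h : (p : ℂ) * l = q * k) : Red a₁ b₁ := by
  have hq' : (q : ℂ) ≠ 0 := Nat.cast_ne_zero.2 hq.ne'
  rcases lt_trichotomy p q with hpq | hpq | hpq
  · -- negative ratio
    refine Red.elem _ _ ⟨ha₁, hb₁, l, k - l, by rw [htr]; ring, hdt.symm, hl, fun p' q' hp' hq' he => ?_⟩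
    obtain ⟨r, rfl⟩ := Nat.exists_eq_add_of_lt hpq
    have h1 : ((p + r + 1 : ℕ) : ℂ) * (k - l) = -((r + 1 : ℕ) : ℂ) * l := by
      push_cast at h ⊢
      linear_combination -h
    have h2 : (((p + r + 1) * p' + q' * (r + 1) : ℕ) : ℂ) * l = 0 := by
      push_cast at h1 ⊢
      linear_combination ((p : ℂ) + r + 1) * he + (q' : ℂ) * h1
    rcases mul_eq_zero.1 h2 with h3 | h3
    · have h4 : (p + r + 1) * p' + q' * (r + 1) = 0 := by exact_mod_cast h3
      have h5 : 0 < (p + r + 1) * p' := Nat.mul_pos (by omega) hp'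
      omega
    · exact hl h3
  · -- equal eigenvalues
    subst hpq
    have hk : k = l := (mul_left_cancel₀ hq' h).symm
    subst hk
    refine Red.elem _ _ ⟨ha₁, hb₁, k, 0, by rw [htr]; ring, by rw [hdt]; ring, hl, fun p' q' hp' _ he => ?_⟩
    rw [mul_zero] at he
    rcases mul_eq_zero.1 he with h3 | h3
    · exact hp'.ne' (by exact_mod_cast h3)
    · exact hl h3
  · obtain ⟨r, rfl⟩ := Nat.exists_eq_add_of_lt hpq
    refine ih a₁ b₁ l (k - l) (r + 1) q (by omega) ha₁ hb₁ (by rw [htr]; ring) hdt.symm hl (by omega) hq ?_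
    push_cast at h ⊢
    linear_combination h

/-- the children of a germ with two eigenvalues of positive rational ratio -/
theorem red_child_of_eig {a b a₁ b₁ : R2} {t l k : ℂ} {p q : ℕ}
    (ih : ∀ (a' b' : R2) (l' k' : ℂ) (p' q' : ℕ), p' + q' < p + q → cf a' 0 0 = 0 → cf b' 0 0 = 0 → l' + k' = tr a' b' → l' * k' = dt a' b' →
      l' ≠ 0 → 0 < p' → 0 < q' → (p' : ℂ) * l' = q' * k' → Red a' b')
    (ha : cf a 0 0 = 0) (hb : cf b 0 0 = 0) (htr : l + k = tr a b) (hdt : l * k = dt a b)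
    (hl : l ≠ 0) (hp : 0 < p) (hq : 0 < q) (h : (p : ℂ) * l = q * k) (hc : Child t a b a₁ b₁) : Red a₁ b₁ := by
  have hk : k ≠ 0 := by
    rintro rfl
    rw [mul_zero] at h
    rcases mul_eq_zero.1 h with h3 | h3
    · exact hp.ne' (by exact_mod_cast h3)
    · exact hl h3
  have ha1 : Ord 1 a := by
    intro i j hij
    obtain ⟨rfl, rfl⟩ : i = 0 ∧ j = 0 := by omega
    exact ha
  have hb1 : Ord 1 b := by
    intro i j hij
    obtain ⟨rfl, rfl⟩ : i = 0 ∧ j = 0 := by omega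
    exact hb
  have hn : ¬ (Ord (1 + 1) a ∧ Ord (1 + 1) b) := by
    rintro ⟨h1, h2⟩
    have e1 : dt a b = 0 := by
      unfold dt
      rw [h1 1 0 (by norm_num), h1 0 1 (by norm_num)]
      ring
    rw [← hdt] at e1
    rcases mul_eq_zero.1 e1 with h3 | h3
    · exact hl h3
    · exact hk h3
  obtain ⟨u, hu⟩ := exists_bl t ha1
  obtain ⟨v, hv⟩ := exists_bl t hb1
  have hu0 : cf u 0 0 = cf a 1 0 + cf a 0 1 * t := by
    rw [cf_of_bl hu]
    simp [Finset.sum_range_succ]
  have hu1 : cf u 0 1 = cf a 0 1 := by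
    rw [cf_of_bl hu]
    simp [Finset.sum_range_succ]
  have hv0 : cf v 0 0 = cf b 1 0 + cf b 0 1 * t := by
    rw [cf_of_bl hv]
    simp [Finset.sum_range_succ]
  have hv1 : cf v 0 1 = cf b 0 1 := by
    rw [cf_of_bl hv]
    simp [Finset.sum_range_succ]
  by_cases h0 : cf (v - (X 1 + C t) * u) 0 0 = 0
  · have h0' : cf b 1 0 + cf b 0 1 * t - t * (cf a 1 0 + cf a 0 1 * t) = 0 := by
      rw [cf_c_zero, hv0, hu0] at h0
      exact h0
    have h1 : cf (v - (X 1 + C t) * u) 0 1 = tr a b - 2 * cf u 0 0 := by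
      rw [cf_c_succ, hv1, hu0, hu1]
      unfold tr
      ring
    have hroot : (cf u 0 0 - l) * (cf u 0 0 - k) = 0 := by
      have e1 : (cf u 0 0 - l) * (cf u 0 0 - k) = cf u 0 0 ^ 2 - (l + k) * cf u 0 0 + l * k := by ring
      rw [e1, htr, hdt, hu0]
      unfold tr dt
      linear_combination -(cf a 0 1) * h0'
    rcases child_cases (le_refl 1) ha1 hb1 hn hu hv hc with ⟨h2, h3, _⟩ | ⟨h2, h3⟩
    · have ea0 : cf a₁ 0 0 = 0 := by rw [h2]; exact cf_X0_mul_zero u 0
      have eb0 : cf b₁ 0 0 = 0 := by rw [h3]; exact h0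
      have ea10 : cf a₁ 1 0 = cf u 0 0 := by
        rw [h2, cf_X0_mul]
        simp
      have ea01 : cf a₁ 0 1 = 0 := by rw [h2]; exact cf_X0_mul_zero u 1
      have eb01 : cf b₁ 0 1 = tr a b - 2 * cf u 0 0 := by rw [h3]; exact h1
      have etr : tr a₁ b₁ = tr a b - cf u 0 0 := by
        unfold tr at eb01 ⊢
        rw [ea10, eb01]
        ring
      have edt : dt a₁ b₁ = cf u 0 0 * (tr a b - 2 * cf u 0 0) := by
        unfold dt
        rw [ea10, ea01, eb01]
        ring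
      rcases mul_eq_zero.1 hroot with h4 | h4
      · have h5 : cf u 0 0 = l := sub_eq_zero.1 h4
        refine red_child_eig (l := l) (k := k) ih ea0 eb0 ?_ ?_ hl hp hq h
        · rw [etr, h5, ← htr]; ring
        · rw [edt, h5, ← htr]; ring
      · have h5 : cf u 0 0 = k := sub_eq_zero.1 h4
        refine red_child_eig (l := k) (k := l) (p := q) (q := p) ?_ ea0 eb0 ?_ ?_ hk hq hp h.symm
        · intro a' b' l' k' p' q' hpq
          exact ih a' b' l' k' p' q' (by omega)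
        · rw [etr, h5, ← htr]; ring
        · rw [edt, h5, ← htr]; ring
    · refine Red.reg _ _ (Or.inl ?_)
      rw [h2]
      intro h4
      have e1 : tr a b = 0 := by
        have e2 := h1
        rw [← h3, cf_X0_mul_zero, h4] at e2
        linear_combination -e2
      rw [h4, zero_sub, zero_sub] at hroot
      rcases mul_eq_zero.1 hroot with h5 | h5
      · exact hl (neg_eq_zero.1 h5)
      · exact hk (neg_eq_zero.1 h5)
  · exact red_child_reg (le_refl 1) ha1 hb1 hn hu hv hc h0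

/-- two eigenvalues of positive rational ratio -/
theorem red_of_ratio (n : ℕ) : ∀ (a b : R2) (l k : ℂ) (p q : ℕ), p + q ≤ n → cf a 0 0 = 0 → cf b 0 0 = 0 → l + k = tr a b → l * k = dt a b →
      l ≠ 0 → 0 < p → 0 < q → (p : ℂ) * l = q * k → Red a b := by
  induction n with
  | zero =>
    intro a b l k p q hpq _ _ _ _ _ hp
    omega
  | succ n ih =>
    intro a b l k p q hpq ha hb htr hdt hl hp hq h
    have ih' : ∀ (a' b' : R2) (l' k' : ℂ) (p' q' : ℕ), p' + q' < p + q → cf a' 0 0 = 0 → cf b' 0 0 = 0 → l' + k' = tr a' b' → l' * k' = dt a' b' →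
        l' ≠ 0 → 0 < p' → 0 < q' → (p' : ℂ) * l' = q' * k' → Red a' b' :=
      fun a' b' l' k' p' q' hpq' => ih a' b' l' k' p' q' (by omega)
    refine Red.blow _ _ (fun t a₁ b₁ hc => red_child_of_eig ih' ha hb htr hdt hl hp hq h hc) fun a₁ b₁ hc => ?_
    refine red_child_of_eig (l := l) (k := k) ih' ?_ ?_ ?_ ?_ hl hp hq h hc
    · rw [cf_sw]; exact hb
    · rw [cf_sw]; exact ha
    · rw [htr]; unfold tr; rw [cf_sw, cf_sw]; ring
    · rw [hdt]; unfold dt; rw [cf_sw, cf_sw, cf_sw, cf_sw]; ring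

theorem red_of_roots {a b : R2} (ha : cf a 0 0 = 0) (hb : cf b 0 0 = 0) {l k : ℂ} (htr : l + k = tr a b) (hdt : l * k = dt a b) (hl : l ≠ 0) :
    Red a b := by
  by_cases h : ∀ p q : ℕ, 0 < p → 0 < q → (p : ℂ) * l ≠ q * k
  · exact Red.elem _ _ ⟨ha, hb, l, k, htr, hdt, hl, h⟩
  · push Not at h
    obtain ⟨p, q, hp, hq, h⟩ := h
    exact red_of_ratio (p + q) a b l k p q le_rfl ha hb htr hdt hl hp hq h

theorem red_of_eig (a b : R2) (ha : cf a 0 0 = 0) (hb : cf b 0 0 = 0) (h : tr a b ≠ 0 ∨ dt a b ≠ 0) : Red a b := by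
  obtain ⟨s, hs⟩ := IsAlgClosed.exists_pow_nat_eq (tr a b ^ 2 - 4 * dt a b) (n := 2) (by norm_num)
  have e1 : (tr a b + s) / 2 + (tr a b - s) / 2 = tr a b := by ring
  have e2 : (tr a b + s) / 2 * ((tr a b - s) / 2) = dt a b := by
    linear_combination -(1 / 4 : ℂ) * hs
  by_cases hl : (tr a b + s) / 2 = 0
  · by_cases hk : (tr a b - s) / 2 = 0
    · rw [hl, hk, add_zero] at e1
      rw [hl, zero_mul] at e2
      rcases h with h | h
      · exact absurd e1.symm h
      · exact absurd e2.symm h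
    · exact red_of_roots ha hb (by rw [add_comm]; exact e1) (by rw [mul_comm]; exact e2) hk
  · exact red_of_roots ha hb e1 e2 hl

/-- a simple root of `P` -/
theorem red_child_simple {a b a₁ b₁ u v : R2} {t : ℂ} {l : ℕ} (hl1 : 1 ≤ l) (ha : Ord l a) (hb : Ord l b)
    (hl : ¬ (Ord (l + 1) a ∧ Ord (l + 1) b)) (hu : X 0 ^ l * u = bl t a) (hv : X 0 ^ l * v = bl t b) (h : Child t a b a₁ b₁)
    (h1 : cf (v - (X 1 + C t) * u) 0 1 ≠ 0) : Red a₁ b₁ := by
  by_cases h0 : cf (v - (X 1 + C t) * u) 0 0 = 0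
  · rcases child_cases hl1 ha hb hl hu hv h with ⟨h2, h3, _⟩ | ⟨_, h3⟩
    · refine red_of_eig _ _ (by rw [h2]; exact cf_X0_mul_zero u 0) (by rw [h3]; exact h0) ?_
      have ea10 : cf a₁ 1 0 = cf u 0 0 := by
        rw [h2, cf_X0_mul]
        simp
      have ea01 : cf a₁ 0 1 = 0 := by rw [h2]; exact cf_X0_mul_zero u 1
      have eb01 : cf b₁ 0 1 = cf (v - (X 1 + C t) * u) 0 1 := by rw [h3]
      by_cases hz : cf u 0 0 = 0
      · left
        unfold tr
        rw [ea10, hz, zero_add, eb01]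
        exact h1
      · right
        unfold dt
        rw [ea10, ea01, zero_mul, sub_zero, eb01]
        exact mul_ne_zero hz h1
    · exact absurd (by rw [← h3]; exact cf_X0_mul_zero b₁ 1) h1
  · exact red_child_reg hl1 ha hb hl hu hv h h0

end Pool.Agent.SB

end
end

section

/-!
# SB Nilp: nilpotent linear part

The child of a nilpotent germ at the kernel direction is `(x u, c)` with `u = m y + ..`, `c = be x - m y ^ 2 + ..`, `m ≠ 0`.
If `be ≠ 0`, two more blow-ups lead to a germ of order two with three simple tangents; if `be = 0`, it is of order two, one tangent is simple,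
and `child_mu_le` gives a smaller multiplicity at the other points.
-/

set_option autoImplicit false

open MvPowerSeries

noncomputable section

namespace Pool.Agent.SB

/-- the coefficients of `v - (y + t) u` -/
theorem cf_c (u v : R2) (t : ℂ) (i j : ℕ) :
    cf (v - (X 1 + C t) * u) i j = cf v i j - ((if 1 ≤ j then cf u i (j - 1) else 0) + t * cf u i j) := by
  rw [cf_sub, add_mul, cf_add, cf_X1_mul, cf_C_mul]

/-- the leading coefficients of the strict transform of a series of order one -/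
theorem cf_one_of_bl {t : ℂ} {a u : R2} (h : X 0 ^ 1 * u = bl t a) :
    cf u 0 0 = cf a 1 0 + t * cf a 0 1 ∧ cf u 0 1 = cf a 0 1 ∧ cf u 0 2 = 0 ∧ cf u 1 0 = cf a 2 0 + cf a 1 1 * t + cf a 0 2 * t ^ 2 := by
  refine ⟨?_, ?_, ?_, ?_⟩
  · rw [cf_of_bl h]; simp [Finset.sum_range_succ]; ring
  · rw [cf_of_bl h]; simp [Finset.sum_range_succ]
  · exact cf_zero_of_bl h (by norm_num)
  · rw [cf_of_bl h]; simp [Finset.sum_range_succ]

/-- the leading coefficients of the strict transform of a series of order two -/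
theorem cf_two_of_bl {t : ℂ} {a u : R2} (h : X 0 ^ 2 * u = bl t a) :
    cf u 0 0 = cf a 2 0 + cf a 1 1 * t + cf a 0 2 * t ^ 2 ∧ cf u 0 1 = cf a 1 1 + 2 * cf a 0 2 * t ∧ cf u 0 2 = cf a 0 2 := by
  refine ⟨?_, ?_, ?_⟩
  · rw [cf_of_bl h]; simp [Finset.sum_range_succ]
  · rw [cf_of_bl h]; simp [Finset.sum_range_succ]; left; ring
  · rw [cf_of_bl h]; simp [Finset.sum_range_succ]

theorem ord_one {a : R2} (h : cf a 0 0 = 0) : Ord 1 a := by
  intro i j hij
  obtain ⟨rfl, rfl⟩ : i = 0 ∧ j = 0 := by omega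
  exact h

theorem ord_two {a : R2} (h : cf a 0 0 = 0) (h1 : cf a 1 0 = 0) (h2 : cf a 0 1 = 0) : Ord 2 a := by
  intro i j hij
  have : (i = 0 ∧ j = 0) ∨ (i = 1 ∧ j = 0) ∨ (i = 0 ∧ j = 1) := by omega
  rcases this with ⟨rfl, rfl⟩ | ⟨rfl, rfl⟩ | ⟨rfl, rfl⟩
  · exact h
  · exact h1
  · exact h2

/-- a germ of order two with the quadratic part `(x (be y - m x), y (2 m x - be y))` -/
theorem red_three {A B : R2} {m be : ℂ} (hm : m ≠ 0) (hbe : be ≠ 0) (hA : Ord 2 A) (hB : Ord 2 B) (a20 : cf A 2 0 = -m) (a11 : cf A 1 1 = be)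
    (a02 : cf A 0 2 = 0) (b20 : cf B 2 0 = 0) (b11 : cf B 1 1 = 2 * m) (b02 : cf B 0 2 = -be) : Red A B := by
  have hn : ¬ (Ord 3 A ∧ Ord 3 B) := fun h => hbe (by rw [← a11]; exact h.1 1 1 (by norm_num))
  refine Red.blow A B ?_ ?_
  · intro s a₁ b₁ hc
    obtain ⟨u, hu⟩ := exists_bl s hA
    obtain ⟨v, hv⟩ := exists_bl s hB
    obtain ⟨u0, u1, u2⟩ := cf_two_of_bl hu
    obtain ⟨v0, v1, v2⟩ := cf_two_of_bl hv
    by_cases h0 : cf (v - (X 1 + C s) * u) 0 0 = 0
    · refine red_child_simple (by norm_num) hA hB hn hu hv hc ?_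
      intro h1
      rw [cf_c, if_neg (by norm_num), u0, v0, a20, a11, a02, b20, b11, b02] at h0
      rw [cf_c, if_pos (le_refl 1), Nat.sub_self, u0, u1, v1, a20, a11, a02, b11, b02] at h1
      have e1 : s * (3 * m - 2 * be * s) = 0 := by linear_combination h0
      have e2 : 3 * m - 4 * be * s = 0 := by linear_combination h1
      rcases mul_eq_zero.1 e1 with e | e
      · rw [e] at e2
        exact hm (by linear_combination (1 / 3 : ℂ) * e2)
      · exact hm (by linear_combination (2 / 3 : ℂ) * e - (1 / 3 : ℂ) * e2)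
    · exact red_child_reg (by norm_num) hA hB hn hu hv hc h0
  · intro a₁ b₁ hc
    have hA' := ord_sw.2 hB
    have hB' := ord_sw.2 hA
    have hn' : ¬ (Ord 3 (sw B) ∧ Ord 3 (sw A)) := fun h => hn ⟨ord_sw.1 h.2, ord_sw.1 h.1⟩
    obtain ⟨u, hu⟩ := exists_bl 0 hA'
    obtain ⟨v, hv⟩ := exists_bl 0 hB'
    obtain ⟨u0, u1, u2⟩ := cf_two_of_bl hu
    obtain ⟨v0, v1, v2⟩ := cf_two_of_bl hv
    refine red_child_simple (by norm_num) hA' hB' hn' hu hv hc ?_
    rw [cf_c, if_pos (le_refl 1), Nat.sub_self, u0, u1, v1]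
    simp only [cf_sw, a20, a11, b20, b11, b02]
    intro h1
    exact hbe (by linear_combination (1 / 2 : ℂ) * h1)

/-- the child of a nilpotent germ at the kernel direction -/
theorem red_child_nilp {a b a₁ b₁ : R2} {t : ℂ} (hf : Fin2 a b) (ha : cf a 0 0 = 0) (hb : cf b 0 0 = 0) (h12 : cf a 0 1 ≠ 0)
    (hker : cf a 1 0 + t * cf a 0 1 = 0) (ht : tr a b = 0) (hd : dt a b = 0)
    (ih : ∀ a' b' : R2, Fin2 a' b' → mu a' b' < mu a b → Red a' b') (h : Child t a b a₁ b₁) : Red a₁ b₁ := by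
  set m : ℂ := cf a 0 1 with hm
  have a10 : cf a 1 0 = -(t * m) := by linear_combination hker
  have b01 : cf b 0 1 = t * m := by
    have := ht
    unfold tr at this
    linear_combination this - a10
  have b10 : cf b 1 0 = -(t ^ 2 * m) := by
    have h2 := hd
    unfold dt at h2
    rw [a10, b01, ← hm] at h2
    have h3 : m * (cf b 1 0 + t ^ 2 * m) = 0 := by linear_combination -h2
    rcases mul_eq_zero.1 h3 with h4 | h4
    · exact absurd h4 h12
    · linear_combination h4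
  have hA := ord_one ha
  have hB := ord_one hb
  have hn : ¬ (Ord 2 a ∧ Ord 2 b) := fun h => h12 (h.1 0 1 (by norm_num))
  obtain ⟨u, hu⟩ := exists_bl t hA
  obtain ⟨v, hv⟩ := exists_bl t hB
  obtain ⟨u0, u1, u2, u3⟩ := cf_one_of_bl hu
  obtain ⟨v0, v1, v2, v3⟩ := cf_one_of_bl hv
  rw [a10, ← hm] at u0
  rw [← hm] at u1
  rw [b10, b01] at v0
  rw [b01] at v1
  have u0' : cf u 0 0 = 0 := by rw [u0]; ring
  have v0' : cf v 0 0 = 0 := by rw [v0]; ring
  have c00 : cf (v - (X 1 + C t) * u) 0 0 = 0 := by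
    rw [cf_c, if_neg (by norm_num), u0', v0']; ring
  have c01 : cf (v - (X 1 + C t) * u) 0 1 = 0 := by
    rw [cf_c, if_pos (le_refl 1), Nat.sub_self, u0', u1, v1]; ring
  have c02 : cf (v - (X 1 + C t) * u) 0 2 = -m := by
    rw [cf_c, if_pos (by norm_num), u2, v2, show (2 - 1 : ℕ) = 1 from rfl, u1]; ring
  have hcc := child_cases (le_refl 1) hA hB hn hu hv h
  obtain ⟨hf1, hmu1⟩ := child_mu_le (n := 2) hf (le_refl 1) hA hB hn hu hv h (by rw [c02]; exact neg_ne_zero.2 h12)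
  rcases hcc with ⟨rfl, rfl, -⟩ | ⟨-, h2⟩
  swap
  · exfalso
    have h3 := (X0_dvd_iff _).1 (Dvd.intro _ h2) 2
    rw [c02] at h3
    exact h12 (neg_eq_zero.1 h3)
  set B := v - (X 1 + C t) * u with hBdef
  -- the coefficients of `A = x u`
  have A0 : ∀ j, cf (X 0 * u) 0 j = 0 := fun j => by rw [cf_X0_mul, if_neg (by norm_num)]
  have A1 : ∀ i j, cf (X 0 * u) (i + 1) j = cf u i j := fun i j => by rw [cf_X0_mul, if_pos (by omega), Nat.add_sub_cancel]
  have A10 : cf (X 0 * u) 1 0 = 0 := by rw [A1 0 0, u0']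
  have A11 : cf (X 0 * u) 1 1 = m := by rw [A1 0 1, u1]
  have hAo : Ord 1 (X 0 * u) := ord_one (A0 0)
  have hBo : Ord 1 B := ord_one c00
  by_cases hbe : cf B 1 0 = 0
  · -- order two
    have hA2 : Ord 2 (X 0 * u) := ord_two (A0 0) A10 (A0 1)
    have hB2 : Ord 2 B := ord_two c00 hbe c01
    have hn2 : ¬ (Ord 3 (X 0 * u) ∧ Ord 3 B) := fun h => h12 (by rw [← A11]; exact h.1 1 1 (by norm_num))
    refine Red.blow _ _ ?_ ?_
    · intro s a' b' hc
      obtain ⟨p, hp⟩ := exists_bl s hA2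
      obtain ⟨q, hq⟩ := exists_bl s hB2
      obtain ⟨p0, p1, p2⟩ := cf_two_of_bl hp
      obtain ⟨q0, q1, q2⟩ := cf_two_of_bl hq
      have h1 : cf (q - (X 1 + C s) * p) 0 2 ≠ 0 := by
        rw [cf_c, if_pos (by norm_num), show (2 - 1 : ℕ) = 1 from rfl, p1, p2, q2, A11, A0 2, c02]
        intro h1
        exact h12 (by linear_combination (-1 / 2 : ℂ) * h1)
      obtain ⟨hf2, hmu2⟩ := child_mu_le (n := 2) hf1 (by norm_num) hA2 hB2 hn2 hp hq hc h1
      exact ih a' b' hf2 (by omega)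
    · intro a' b' hc
      have hA' := ord_sw.2 hB2
      have hB' := ord_sw.2 hA2
      have hn' : ¬ (Ord 3 (sw B) ∧ Ord 3 (sw (X 0 * u))) := fun h => hn2 ⟨ord_sw.1 h.2, ord_sw.1 h.1⟩
      obtain ⟨p, hp⟩ := exists_bl 0 hA'
      obtain ⟨q, hq⟩ := exists_bl 0 hB'
      obtain ⟨p0, p1, p2⟩ := cf_two_of_bl hp
      obtain ⟨q0, q1, q2⟩ := cf_two_of_bl hq
      refine red_child_simple (by norm_num) hA' hB' hn' hp hq hc ?_
      rw [cf_c, if_pos (le_refl 1), Nat.sub_self, p0, p1, q1]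
      simp only [cf_sw, A11, c02]
      intro h1
      exact h12 (by linear_combination (1 / 2 : ℂ) * h1)
  · -- order one
    have hn1 : ¬ (Ord 2 (X 0 * u) ∧ Ord 2 B) := fun h => hbe (h.2 1 0 (by norm_num))
    refine Red.blow _ _ ?_ ?_
    · intro s a' b' hc
      obtain ⟨p, hp⟩ := exists_bl s hAo
      obtain ⟨q, hq⟩ := exists_bl s hBo
      obtain ⟨p0, p1, p2, p3⟩ := cf_one_of_bl hp
      obtain ⟨q0, q1, q2, q3⟩ := cf_one_of_bl hq
      refine red_child_reg (le_refl 1) hAo hBo hn1 hp hq hc ?_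
      rw [cf_c, if_neg (by norm_num), p0, q0, A10, A0 1, c01]
      intro h1
      exact hbe (by linear_combination h1)
    · intro a' b' hc
      have hA' := ord_sw.2 hBo
      have hB' := ord_sw.2 hAo
      have hn' : ¬ (Ord 2 (sw B) ∧ Ord 2 (sw (X 0 * u))) := fun h => hn1 ⟨ord_sw.1 h.2, ord_sw.1 h.1⟩
      obtain ⟨p, hp⟩ := exists_bl 0 hA'
      obtain ⟨q, hq⟩ := exists_bl 0 hB'
      obtain ⟨p0, p1, p2, p3⟩ := cf_one_of_bl hp
      obtain ⟨q0, q1, q2, q3⟩ := cf_one_of_bl hq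
      have q11 : cf q 1 1 = cf (sw (X 0 * u)) 1 1 := by
        rw [cf_of_bl hq]; simp [Finset.sum_range_succ]
      have q20 : cf q 2 0 = cf (sw (X 0 * u)) 3 0 := by
        rw [cf_of_bl hq]; simp [Finset.sum_range_succ]
      simp only [cf_sw] at p0 p1 p2 p3 q0 q1 q2 q3 q11 q20
      rw [c01] at p0
      rw [A0 1] at q0
      rw [A10] at q1
      rw [A0 2] at q3
      rw [A11] at q11
      rw [A0 3] at q20
      rw [c02] at p3
      have d02 : cf (q - (X 1 + C 0) * p) 0 2 = -cf B 1 0 := by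
        rw [cf_c, if_pos (by norm_num), show (2 - 1 : ℕ) = 1 from rfl, p1, p2, q2]; ring
      have hcc := child_cases (le_refl 1) hA' hB' hn' hp hq hc
      rcases hcc with ⟨rfl, rfl, -⟩ | ⟨-, h2⟩
      swap
      · exfalso
        have h3 := (X0_dvd_iff _).1 (Dvd.intro _ h2) 2
        rw [d02] at h3
        exact hbe (neg_eq_zero.1 h3)
      have D0 : ∀ j, cf (X 0 * p) 0 j = 0 := fun j => by rw [cf_X0_mul, if_neg (by norm_num)]
      have D1 : ∀ i j, cf (X 0 * p) (i + 1) j = cf p i j := fun i j => by rw [cf_X0_mul, if_pos (by omega), Nat.add_sub_cancel]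
      have p00 : cf p 0 0 = 0 := by rw [p0]; ring
      have q00 : cf q 0 0 = 0 := by rw [q0]; ring
      have p10 : cf p 1 0 = -m := by rw [p3]; ring
      have q10 : cf q 1 0 = 0 := by rw [q3]; ring
      refine red_three (m := m) (be := cf B 1 0) h12 hbe (ord_two (D0 0) (by rw [D1 0 0, p00]) (D0 1)) (ord_two ?_ ?_ ?_) (by rw [D1 1 0, p10])
        (by rw [D1 0 1, p1]) (D0 2) ?_ ?_ d02
      · rw [cf_c, if_neg (by norm_num), p00, q00]; ring
      · rw [cf_c, if_neg (by norm_num), p10, q10]; ring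
      · rw [cf_c, if_pos (le_refl 1), Nat.sub_self, p00, q1]; ring
      · rw [cf_c, if_neg (by norm_num), q20]; ring
      · rw [cf_c, if_pos (le_refl 1), Nat.sub_self, p10, q11]; ring

end Pool.Agent.SB

end
end

section

/-!
# SB Fin: every germ of a vector field with an isolated singular point is reduced by finitely many blow-ups
-/

set_option autoImplicit false

open MvPowerSeries

noncomputable section

namespace Pool.Agent.SB

namespace FinP

theorem fp_ord1 {a : R2} : Ord 1 a ↔ cf a 0 0 = 0 := by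
  constructor
  · intro h
    exact h 0 0 (by omega)
  · intro h i j hij
    obtain rfl : i = 0 := by omega
    obtain rfl : j = 0 := by omega
    exact h

theorem fp_ord2 {a : R2} : Ord 2 a ↔ cf a 0 0 = 0 ∧ cf a 1 0 = 0 ∧ cf a 0 1 = 0 := by
  constructor
  · intro h
    exact ⟨h 0 0 (by omega), h 1 0 (by omega), h 0 1 (by omega)⟩
  · rintro ⟨h0, h1, h2⟩ i j hij
    rcases i with _ | _ | i
    · rcases j with _ | _ | j
      · exact h0
      · exact h2
      · omega
    · obtain rfl : j = 0 := by omega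
      exact h1
    · omega

theorem cf_one {t : ℂ} {a u : R2} (h : X 0 ^ 1 * u = bl t a) : cf u 0 0 = cf a 1 0 + cf a 0 1 * t := by
  rw [cf_of_bl h, Finset.sum_range_succ, Finset.sum_range_succ, Finset.sum_range_zero]
  simp

theorem cf_c {t : ℂ} {u v : R2} : cf (v - (X 1 + C t) * u) 0 0 = cf v 0 0 - t * cf u 0 0 := by
  rw [cf_sub, add_mul, cf_add, cf_X1_mul, cf_C_mul, if_neg (by omega), zero_add]

/-- the children of a germ with nilpotent linear part -/
theorem child {a b a₁ b₁ : R2} {t : ℂ} (hf : Fin2 a b) (ha : cf a 0 0 = 0) (hb : cf b 0 0 = 0) (hl : ¬ (Ord (1 + 1) a ∧ Ord (1 + 1) b))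
    (ht : tr a b = 0) (hd : dt a b = 0) (ih : ∀ a' b' : R2, Fin2 a' b' → mu a' b' < mu a b → Red a' b')
    (h12 : cf a 0 1 ≠ 0 ∨ cf b 1 0 ≠ 0) (h : Child t a b a₁ b₁) : Red a₁ b₁ := by
  have oa : Ord 1 a := fp_ord1.2 ha
  have ob : Ord 1 b := fp_ord1.2 hb
  obtain ⟨u, hu⟩ := exists_bl t oa
  obtain ⟨v, hv⟩ := exists_bl t ob
  by_cases h0 : cf (v - (X 1 + C t) * u) 0 0 ≠ 0
  · exact red_child_reg le_rfl oa ob hl hu hv h h0
  · rw [not_not, cf_c, cf_one hu, cf_one hv] at h0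
    unfold tr at ht
    unfold dt at hd
    -- the direction is an eigendirection, hence in the kernel
    have e1 : cf b 0 1 = -cf a 1 0 := by linear_combination ht
    rw [e1] at h0 hd
    have hk : (cf a 1 0 + cf a 0 1 * t) ^ 2 = 0 := by
      have : (cf a 1 0 + cf a 0 1 * t) ^ 2 = -(cf a 1 0 * -cf a 1 0 - cf a 0 1 * cf b 1 0) -
          cf a 0 1 * (cf b 1 0 + -cf a 1 0 * t - t * (cf a 1 0 + cf a 0 1 * t)) := by ring
      rw [this, hd, h0]
      ring
    have hk' : cf a 1 0 + cf a 0 1 * t = 0 := pow_eq_zero_iff (two_ne_zero) |>.1 hk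
    by_cases h01 : cf a 0 1 = 0
    · -- impossible
      exfalso
      rw [h01, zero_mul, add_zero] at hk'
      rw [h01, hk'] at h0
      rcases h12 with h12 | h12
      · exact h12 h01
      · apply h12
        linear_combination h0
    · exact red_child_nilp hf ha hb h01 (by linear_combination hk') ht (by unfold dt; rw [e1]; exact hd) ih h

end FinP

open FinP

/-- **Seidenberg.**  Every germ with an isolated singular point is reduced by finitely many blow-ups. -/
theorem red_of_fin2 (a b : R2) (hf : Fin2 a b) : Red a b := by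
  obtain ⟨m, hm⟩ : ∃ m, mu a b = m := ⟨_, rfl⟩
  induction m using Nat.strong_induction_on generalizing a b with
  | _ m ih =>
  subst hm
  have ih' : ∀ a' b' : R2, Fin2 a' b' → mu a' b' < mu a b → Red a' b' := fun a' b' h1 h2 => ih _ h2 a' b' h1 rfl
  by_cases h00 : cf a 0 0 ≠ 0 ∨ cf b 0 0 ≠ 0
  · exact Red.reg _ _ h00
  push Not at h00
  obtain ⟨ha, hb⟩ := h00
  obtain ⟨l, hla, hlb, hl⟩ := exists_order hf
  have oa : Ord 1 a := fp_ord1.2 ha
  have ob : Ord 1 b := fp_ord1.2 hb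
  rcases l with _ | _ | l
  · exact absurd ⟨oa, ob⟩ hl
  · -- order one
    by_cases he : tr a b ≠ 0 ∨ dt a b ≠ 0
    · exact red_of_eig a b ha hb he
    push Not at he
    obtain ⟨ht, hd⟩ := he
    have hfs : Fin2 (sw b) (sw a) := (fin2_swap a b).2 hf
    have hmu : mu (sw b) (sw a) = mu a b := mu_swap a b
    have hts : tr (sw b) (sw a) = 0 := by
      rw [← ht]
      unfold tr
      rw [cf_sw, cf_sw, add_comm]
    have hds : dt (sw b) (sw a) = 0 := by
      rw [← hd]
      unfold dt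
      rw [cf_sw, cf_sw, cf_sw, cf_sw]
      ring
    -- the linear part is not zero
    have h12 : cf a 0 1 ≠ 0 ∨ cf b 1 0 ≠ 0 := by
      by_contra hcon
      push Not at hcon
      obtain ⟨h1, h2⟩ := hcon
      unfold tr at ht
      unfold dt at hd
      have e1 : cf b 0 1 = -cf a 1 0 := by linear_combination ht
      rw [h1, e1] at hd
      have e2 : cf a 1 0 ^ 2 = 0 := by linear_combination -hd
      have e3 : cf a 1 0 = 0 := pow_eq_zero_iff (two_ne_zero) |>.1 e2
      refine hl ⟨fp_ord2.2 ⟨ha, e3, h1⟩, fp_ord2.2 ⟨hb, h2, ?_⟩⟩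
      rw [e1, e3, neg_zero]
    refine Red.blow a b (fun t a₁ b₁ h => child hf ha hb hl ht hd ih' h12 h) (fun a₁ b₁ h => ?_)
    refine child hfs (by rw [cf_sw]; exact hb) (by rw [cf_sw]; exact ha) ?_ hts hds (fun a' b' h1 h2 => ih' a' b' h1 (by rwa [hmu] at h2)) ?_ h
    · rw [ord_sw, ord_sw]
      exact fun h => hl ⟨h.2, h.1⟩
    · rw [cf_sw, cf_sw]
      exact h12.symm
  · -- order at least two
    have hfs : Fin2 (sw b) (sw a) := (fin2_swap a b).2 hf
    refine Red.blow a b (fun t a₁ b₁ h => ?_) (fun a₁ b₁ h => ?_)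
    · obtain ⟨h1, h2⟩ := child_mu hf (by omega) hla hlb hl h
      exact ih' _ _ h1 h2
    · obtain ⟨h1, h2⟩ := child_mu (l := l + 1 + 1) hfs (by omega) (ord_sw.2 hlb) (ord_sw.2 hla) (by
        rw [ord_sw, ord_sw]
        exact fun h => hl ⟨h.2, h.1⟩) h
      rw [mu_swap] at h2
      exact ih' _ _ h1 h2

end Pool.Agent.SB

end
end
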