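import Pool.Agent.H94.G6.M155
import Pool.Agent.H94.G6.M34
import Pool.Agent.H94.G6.M42
import Pool.Agent.H94.G6.M45
import Pool.Agent.H94.G6.M65
import Pool.Agent.H94.G6.M67
import Pool.Agent.H94.G6.M78

/-! The parts of this file: MQ.Ord, MQ.OrdV, SB.An.TreeR, MQ3.CovA, MQ3.UpN. -/

section

/-!
# MQ Ord: curves of order two

`∫ τ_R Δ log ‖F‖ ≤ C (1 + R²)` for the lifts `F` without zeros of the curves of order two.
-/

set_option autoImplicit false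

open MeasureTheory Complex Set Filter Topology Laplacian InnerProductSpace

namespace Pool.Agent.MQ

open Pool.Agent.H30M (rho)
open Pool.Agent.H36.BP (EN OrdTwo)

/-! ## the density at scale `R` -/

private theorem st_deriv_continuous : Continuous (deriv Real.smoothTransition) :=
  (Real.smoothTransition.contDiff (n := 1)).continuous_deriv le_rfl

/-- `rho (z / R) / R²` in logarithmic polar coordinates -/
theorem rho_scale {R : ℝ} (hR : 0 < R) (z : ℂ) :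
    rho (z / R) / R ^ 2 = deriv Real.smoothTransition (Real.log ‖z‖ - Real.log R) / ‖z‖ ^ 2 := by
  rcases eq_or_ne z 0 with rfl | hz
  · rw [zero_div, Pool.Agent.H30M.rho_eq_zero (Or.inl (by simp))]
    simp
  · have hn : 0 < ‖z‖ := norm_pos_iff.2 hz
    have e : ‖z / (R : ℂ)‖ = ‖z‖ / R := by
      rw [norm_div, Complex.norm_real, Real.norm_of_nonneg hR.le]
    rw [rho, e, Real.log_div hn.ne' hR.ne']
    field_simp

theorem continuous_rho_scale (R : ℝ) : Continuous fun z : ℂ => rho (z / R) / R ^ 2 :=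
  (Pool.Agent.H30M.continuous_rho.comp (continuous_id.div_const _)).div_const _

theorem rho_scale_eq_zero {R : ℝ} (hR : 0 < R) {z : ℂ} (hz : ‖z‖ ≤ R ∨ Real.exp 1 * R ≤ ‖z‖) : rho (z / R) / R ^ 2 = 0 := by
  have e : ‖z / (R : ℂ)‖ = ‖z‖ / R := by
    rw [norm_div, Complex.norm_real, Real.norm_of_nonneg hR.le]
  rw [Pool.Agent.H30M.rho_eq_zero, zero_div]
  rw [e, div_le_one hR, le_div_iff₀ hR]
  exact hz

theorem rho_scale_hasCompactSupport {R : ℝ} (hR : 0 < R) : HasCompactSupport fun z : ℂ => rho (z / R) / R ^ 2 := by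
  refine HasCompactSupport.intro (isCompact_closedBall (0 : ℂ) (Real.exp 1 * R)) fun z hz => ?_
  rw [mem_closedBall_zero_iff, not_le] at hz
  exact rho_scale_eq_zero hR (Or.inr hz.le)

theorem integrable_rho_scale_mul {R : ℝ} (hR : 0 < R) {u : ℂ → ℝ} (hu : Continuous u) :
    Integrable fun z : ℂ => rho (z / R) / R ^ 2 * u z :=
  ((continuous_rho_scale R).mul hu).integrable_of_hasCompactSupport (rho_scale_hasCompactSupport hR).mul_right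

private theorem int_st_deriv (L : ℝ) : ∫ s : ℝ, deriv Real.smoothTransition (s - L) = 1 := by
  rw [integral_sub_right_eq_self (fun s => deriv Real.smoothTransition s) L]
  have h1 : ∫ s : ℝ, deriv Real.smoothTransition s = ∫ s in (0 : ℝ)..1, deriv Real.smoothTransition s := by
    rw [intervalIntegral.integral_of_le zero_le_one]
    refine (setIntegral_eq_integral_of_forall_compl_eq_zero fun s hs => Pool.Agent.H30M.deriv_st_eq_zero ?_).symm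
    rw [mem_Ioc, not_and_or, not_lt, not_le] at hs
    exact hs.imp id le_of_lt
  rw [h1, intervalIntegral.integral_deriv_eq_sub
    (fun x _ => (Real.smoothTransition.contDiff (n := 1)).differentiable (by norm_num) x) (st_deriv_continuous.intervalIntegrable _ _)]
  simp

/-- averages with respect to `rho (z / R) / R²` are controlled by circle averages -/
theorem int_rho_scale_le {u : ℂ → ℝ} (hu : Continuous u) {R B : ℝ} (hR : 0 < R)
    (hB : ∀ r, R ≤ r → r ≤ Real.exp 1 * R → Real.circleAverage u 0 r ≤ B) :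
    ∫ z : ℂ, rho (z / R) / R ^ 2 * u z ≤ 2 * Real.pi * B := by
  have hint := integrable_rho_scale_mul hR hu
  simp only [rho_scale hR] at hint ⊢
  rw [polar_radial (fun s => deriv Real.smoothTransition (s - Real.log R)) u hint]
  refine mul_le_mul_of_nonneg_left ?_ (by positivity)
  have hz : ∀ s : ℝ, s ∉ Icc (Real.log R) (Real.log R + 1) → deriv Real.smoothTransition (s - Real.log R) = 0 := by
    intro s hs
    rw [mem_Icc, not_and_or, not_le, not_le] at hs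
    exact Pool.Agent.H30M.deriv_st_eq_zero (hs.imp (fun h => by linarith) fun h => by linarith)
  have hcs : HasCompactSupport fun s : ℝ => deriv Real.smoothTransition (s - Real.log R) :=
    HasCompactSupport.intro isCompact_Icc hz
  have hc : Continuous fun s : ℝ => deriv Real.smoothTransition (s - Real.log R) :=
    st_deriv_continuous.comp (continuous_id.sub continuous_const)
  have hca : Continuous fun s : ℝ => Real.circleAverage u 0 (Real.exp s) := by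
    have h1 : (fun s : ℝ => Real.circleAverage u 0 (Real.exp s)) =
        fun s => (2 * Real.pi)⁻¹ * ∫ θ in (0 : ℝ)..2 * Real.pi, u (circleMap 0 (Real.exp s) θ) := by
      funext s
      rw [Real.circleAverage_def, smul_eq_mul]
    rw [h1]
    refine continuous_const.mul ?_
    refine intervalIntegral.continuous_parametric_intervalIntegral_of_continuous' (f := fun (s : ℝ) (θ : ℝ) => u (circleMap 0 (Real.exp s) θ)) ?_ _ _
    unfold circleMap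
    fun_prop
  have i1 : Integrable fun s : ℝ => deriv Real.smoothTransition (s - Real.log R) * Real.circleAverage u 0 (Real.exp s) :=
    (hc.mul hca).integrable_of_hasCompactSupport hcs.mul_right
  have i2 : Integrable fun s : ℝ => deriv Real.smoothTransition (s - Real.log R) * B :=
    (hc.mul continuous_const).integrable_of_hasCompactSupport hcs.mul_right
  calc ∫ s : ℝ, deriv Real.smoothTransition (s - Real.log R) * Real.circleAverage u 0 (Real.exp s)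
      ≤ ∫ s : ℝ, deriv Real.smoothTransition (s - Real.log R) * B := by
        refine integral_mono i1 i2 fun s => ?_
        by_cases hs : s ∈ Icc (Real.log R) (Real.log R + 1)
        · refine mul_le_mul_of_nonneg_left (hB _ ?_ ?_) (Pool.Agent.H30M.deriv_st_nonneg _)
          · rw [← Real.log_le_iff_le_exp hR]
            exact hs.1
          · have h2 := Real.exp_le_exp.2 hs.2
            rw [Real.exp_add, Real.exp_log hR] at h2
            linarith [h2, mul_comm R (Real.exp 1)]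
        · simp only [hz s hs, zero_mul, le_refl]
    _ = B := by rw [integral_mul_const, int_st_deriv, one_mul]

/-- the characteristic function of a curve of order two -/
theorem int_rho_scale_le_of_order {u : ℂ → ℝ} (hu : Continuous u) {A : ℝ}
    (hA : ∀ r : ℝ, 0 < r → Real.circleAverage u 0 r ≤ A * (1 + r ^ 2)) :
    ∃ C : ℝ, 0 ≤ C ∧ ∀ R : ℝ, 0 < R → ∫ z : ℂ, rho (z / R) / R ^ 2 * u z ≤ C * (1 + R ^ 2) := by
  have he : 1 ≤ Real.exp 1 := Real.one_le_exp zero_le_one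
  refine ⟨2 * Real.pi * (|A| * Real.exp 1 ^ 2), by positivity, fun R hR => ?_⟩
  have h := int_rho_scale_le hu (B := |A| * Real.exp 1 ^ 2 * (1 + R ^ 2)) hR fun r h1 h2 => by
    have hr : 0 < r := hR.trans_le h1
    calc Real.circleAverage u 0 r ≤ A * (1 + r ^ 2) := hA r hr
      _ ≤ |A| * (1 + r ^ 2) := mul_le_mul_of_nonneg_right (le_abs_self A) (by positivity)
      _ ≤ |A| * (Real.exp 1 ^ 2 * (1 + R ^ 2)) := by
          refine mul_le_mul_of_nonneg_left ?_ (abs_nonneg _)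
          have h3 : r ^ 2 ≤ (Real.exp 1 * R) ^ 2 := pow_le_pow_left₀ hr.le h2 2
          have h4 : (1 : ℝ) ≤ Real.exp 1 ^ 2 := one_le_pow₀ he
          nlinarith
      _ = |A| * Real.exp 1 ^ 2 * (1 + R ^ 2) := by ring
  calc _ ≤ _ := h
    _ = _ := by ring

/-! ## lifts -/

section

variable {V : Type} [NormedAddCommGroup V] [InnerProductSpace ℂ V] [CompleteSpace V]

theorem contDiff_log_norm {F : ℂ → V} (hF : Differentiable ℂ F) (h0 : ∀ z, F z ≠ 0) {n : ℕ∞} :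
    ContDiff ℝ n fun z => Real.log ‖F z‖ := by
  have h1 : ContDiff ℝ n F := (hF.contDiff (n := n)).restrict_scalars ℝ
  exact (h1.norm ℂ h0).log fun z => norm_ne_zero_iff.2 (h0 z)

theorem continuous_log_norm {F : ℂ → V} (hF : Differentiable ℂ F) (h0 : ∀ z, F z ≠ 0) : Continuous fun z => Real.log ‖F z‖ :=
  (contDiff_log_norm hF h0 (n := 0)).continuous

/-- ORD: `I(R) = ∫ τ_R Δ log ‖F‖ ≤ C (1 + R²)` -/
theorem ord_int {F : ℂ → V} (hF : Differentiable ℂ F) (h0 : ∀ z, F z ≠ 0) {A : ℝ}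
    (hA : ∀ r : ℝ, 0 < r → Real.circleAverage (fun z => Real.log ‖F z‖) 0 r ≤ A * (1 + r ^ 2)) :
    ∃ C : ℝ, 0 ≤ C ∧ ∀ R : ℝ, 0 < R → ∀ τ : ℂ → ℝ, ContDiff ℝ 2 τ → HasCompactSupport τ →
      (∀ z, Δ τ z = rho (z / R) / R ^ 2 - rho z) → ∫ z, τ z * Δ (fun z => Real.log ‖F z‖) z ≤ C * (1 + R ^ 2) := by
  have hc := continuous_log_norm hF h0
  obtain ⟨C, hC0, hC⟩ := int_rho_scale_le_of_order hc hA
  set B : ℝ := ∫ z : ℂ, rho z * Real.log ‖F z‖ with hB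
  refine ⟨C + |B|, by positivity, fun R hR τ hτ hτc hlap => ?_⟩
  rw [Pool.Agent.H30M.green2 hτ hτc fun z _ => (contDiff_log_norm hF h0 (n := 2)).contDiffAt]
  simp only [hlap, sub_mul]
  have i2 : Integrable fun z : ℂ => rho z * Real.log ‖F z‖ := by
    have h := integrable_rho_scale_mul one_pos hc
    simpa using h
  rw [integral_sub (integrable_rho_scale_mul hR hc) i2, ← hB]
  have h1 := hC R hR
  have h2 : -B ≤ |B| := neg_le_abs B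
  nlinarith [abs_nonneg B, sq_nonneg R]

/-- ORD for the weights `tau R` -/
theorem ord_tau {F : ℂ → V} (hF : Differentiable ℂ F) (h0 : ∀ z, F z ≠ 0) {A : ℝ}
    (hA : ∀ r : ℝ, 0 < r → Real.circleAverage (fun z => Real.log ‖F z‖) 0 r ≤ A * (1 + r ^ 2)) :
    ∃ C : ℝ, 0 ≤ C ∧ ∀ R : ℝ, 1 ≤ R → ∫ z, Pool.Agent.H30M.tau R z * Δ (fun z => Real.log ‖F z‖) z ≤ C * (1 + R ^ 2) := by
  obtain ⟨C, hC0, hC⟩ := ord_int hF h0 hA
  exact ⟨C, hC0, fun R hR => hC R (by linarith) _ (Pool.Agent.H30M.contDiff_tau R) (Pool.Agent.H30M.hcs_tau hR)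
    fun z => Pool.Agent.H30M.lap_tau hR z⟩

omit [CompleteSpace V] in
/-- a curve of order two (bounded lifts on discs) has a characteristic function bounded by `A (1 + r²)` -/
theorem circleAverage_le_of_ordTwo {F : ℂ → V} (hF : Differentiable ℂ F) (h0 : ∀ z, F z ≠ 0) (ho : OrdTwo F) :
    ∃ A : ℝ, ∀ r : ℝ, 0 < r → Real.circleAverage (fun z => Real.log ‖F z‖) 0 r ≤ A * (1 + r ^ 2) := by
  obtain ⟨C₀, hC₀⟩ := ho
  refine ⟨|Real.log ‖F 0‖| + 3 * |C₀|, fun r hr => ?_⟩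
  obtain ⟨G, hG, hG1, hG0, hGf⟩ := hC₀ (r + 1) (by linarith)
  have hG0' : G 0 ≠ 0 := by
    intro h0
    rw [h0, norm_zero] at hG0
    exact absurd hG0 (not_le.2 (Real.exp_pos _))
  have h1 := Pool.Agent.H13.OT.average_le (f := F) hr (lt_add_one r) hG hG1 hG0' hGf hF.differentiableOn
    fun z _ => ⟨h0 z, 1, one_ne_zero, (one_smul _ _).symm⟩
  have h2 : -(C₀ * (1 + (r + 1) ^ 2)) ≤ Real.log ‖G 0‖ := by
    rw [Real.le_log_iff_exp_le (norm_pos_iff.2 hG0')]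
    exact hG0
  have h3 : C₀ * (1 + (r + 1) ^ 2) ≤ 3 * |C₀| * (1 + r ^ 2) := by
    have h4 : C₀ ≤ |C₀| := le_abs_self _
    have h5 : 0 ≤ |C₀| := abs_nonneg _
    have h6 : 1 + (r + 1) ^ 2 ≤ 3 * (1 + r ^ 2) := by nlinarith [sq_nonneg (r - 1)]
    calc C₀ * (1 + (r + 1) ^ 2) ≤ |C₀| * (1 + (r + 1) ^ 2) := mul_le_mul_of_nonneg_right h4 (by positivity)
      _ ≤ |C₀| * (3 * (1 + r ^ 2)) := mul_le_mul_of_nonneg_left h6 h5
      _ = _ := by ring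
  have h7 : Real.log ‖F 0‖ ≤ |Real.log ‖F 0‖| * (1 + r ^ 2) := by
    have h8 : Real.log ‖F 0‖ ≤ |Real.log ‖F 0‖| := le_abs_self _
    have h9 : 0 ≤ |Real.log ‖F 0‖| := abs_nonneg _
    nlinarith [sq_nonneg r]
  nlinarith

end

/-! ## from the maximum norm to the Euclidean norm -/

theorem continuous_log_norm_pi {N : ℕ} {F : ℂ → Fin (N + 1) → ℂ} (hF : Continuous F) (h0 : ∀ z, F z ≠ 0) :
    Continuous fun z => Real.log ‖F z‖ := hF.norm.log fun z => norm_ne_zero_iff.2 (h0 z)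

/-- the Euclidean lift of a lift -/
theorem circleAverage_toLp_le {N : ℕ} {F : ℂ → Fin (N + 1) → ℂ} (hF : Differentiable ℂ F) (h0 : ∀ z, F z ≠ 0) {A : ℝ}
    (hA : ∀ r : ℝ, 0 < r → Real.circleAverage (fun z => Real.log ‖F z‖) 0 r ≤ A * (1 + r ^ 2)) :
    Differentiable ℂ (fun z => (WithLp.toLp 2 (F z) : EN N)) ∧ (∀ z, (WithLp.toLp 2 (F z) : EN N) ≠ 0) ∧
      ∃ A' : ℝ, ∀ r : ℝ, 0 < r → Real.circleAverage (fun z => Real.log ‖(WithLp.toLp 2 (F z) : EN N)‖) 0 r ≤ A' * (1 + r ^ 2) := by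
  have hd : Differentiable ℂ (fun z => (WithLp.toLp 2 (F z) : EN N)) :=
    (PiLp.continuousLinearEquiv 2 ℂ (fun _ : Fin (N + 1) => ℂ)).symm.differentiable.comp hF
  have hne : ∀ z, (WithLp.toLp 2 (F z) : EN N) ≠ 0 := fun z h => h0 z (by
    have := congrArg WithLp.ofLp h
    simpa using this)
  refine ⟨hd, hne, |A| + Real.log (N + 1), fun r hr => ?_⟩
  have hN : (1 : ℝ) ≤ N + 1 := by
    have : (0 : ℝ) ≤ N := Nat.cast_nonneg N
    linarith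
  have hlog : 0 ≤ Real.log ((N : ℝ) + 1) := Real.log_nonneg hN
  have hle : ∀ z, Real.log ‖(WithLp.toLp 2 (F z) : EN N)‖ ≤ Real.log ‖F z‖ + Real.log (N + 1) := by
    intro z
    have hp : 0 < ‖F z‖ := norm_pos_iff.2 (h0 z)
    rw [← Real.log_mul hp.ne' (by linarith)]
    refine Real.log_le_log (norm_pos_iff.2 (hne z)) ?_
    rw [EuclideanSpace.norm_eq]
    have h1 : ∑ i, ‖(WithLp.toLp 2 (F z) : EN N) i‖ ^ 2 ≤ ((N : ℝ) + 1) * ‖F z‖ ^ 2 := by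
      calc ∑ i, ‖(WithLp.toLp 2 (F z) : EN N) i‖ ^ 2 ≤ ∑ _i : Fin (N + 1), ‖F z‖ ^ 2 :=
            Finset.sum_le_sum fun i _ => pow_le_pow_left₀ (norm_nonneg _) (norm_le_pi_norm (F z) i) 2
        _ = _ := by simp
    have h2 : ((N : ℝ) + 1) * ‖F z‖ ^ 2 ≤ (‖F z‖ * ((N : ℝ) + 1)) ^ 2 := by
      nlinarith [sq_nonneg ‖F z‖, mul_nonneg (sq_nonneg ‖F z‖) (by linarith : (0 : ℝ) ≤ N)]
    calc Real.sqrt (∑ i, ‖(WithLp.toLp 2 (F z) : EN N) i‖ ^ 2) ≤ Real.sqrt ((‖F z‖ * ((N : ℝ) + 1)) ^ 2) :=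
          Real.sqrt_le_sqrt (h1.trans h2)
      _ = ‖F z‖ * (N + 1) := Real.sqrt_sq (by positivity)
  have c1 : Continuous fun z => Real.log ‖(WithLp.toLp 2 (F z) : EN N)‖ := continuous_log_norm hd hne
  have c2 := continuous_log_norm_pi hF.continuous h0
  have hci : ∀ {u : ℂ → ℝ}, Continuous u → CircleIntegrable u 0 r := fun hu => hu.continuousOn.circleIntegrable'
  calc Real.circleAverage (fun z => Real.log ‖(WithLp.toLp 2 (F z) : EN N)‖) 0 r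
      ≤ Real.circleAverage (fun z => Real.log ‖F z‖ + Real.log (N + 1)) 0 r :=
        Real.circleAverage_mono (hci c1) (hci (c2.add continuous_const)) fun z _ => hle z
    _ = Real.circleAverage (fun z => Real.log ‖F z‖) 0 r + Real.log (N + 1) := by
        rw [Real.circleAverage_fun_add (hci c2) (hci continuous_const), Real.circleAverage_const]
    _ ≤ A * (1 + r ^ 2) + Real.log (N + 1) := by linarith [hA r hr]
    _ ≤ (|A| + Real.log (N + 1)) * (1 + r ^ 2) := by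
        nlinarith [mul_le_mul_of_nonneg_right (le_abs_self A) (by positivity : (0 : ℝ) ≤ 1 + r ^ 2), sq_nonneg r,
          mul_nonneg hlog (sq_nonneg r)]

end Pool.Agent.MQ

end

section

/-!
# MQ OrdV: curves of order two, comparison of energies
-/

set_option autoImplicit false

open MeasureTheory Topology Filter Metric Laplacian Set

noncomputable section

namespace Pool.Agent.MQ

open Pool.Agent.H30M (tau rhoR avg rho tau_nonneg contDiff_tau hcs_tau green_tau rhoR_nonneg)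
open Pool.Agent.H36.BP (EN)

variable {N M : ℕ}

/-- the Laplacian of `log ‖F‖` is twice the square of the length -/
theorem lap_eq_lam {F : ℂ → EN M} {z : ℂ} (hF : AnalyticAt ℂ F z) (h0 : F z ≠ 0) : Δ (fun w => Real.log ‖F w‖) z = 2 * lam F z ^ 2 := by
  rw [lap_log_normV hF h0]
  have hn : ‖F z‖ ≠ 0 := norm_ne_zero_iff.2 h0
  have h1 : ‖(inner ℂ (F z) (deriv F z) : ℂ)‖ ^ 2 ≤ ‖F z‖ ^ 2 * ‖deriv F z‖ ^ 2 := by
    rw [← mul_pow]
    exact pow_le_pow_left₀ (norm_nonneg _) (norm_inner_le_norm _ _) 2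
  unfold fsd lam Pool.Agent.H36.BP.fs Pool.Agent.H36.BP.wd
  rw [div_pow, Real.sq_sqrt (sub_nonneg.2 h1)]
  field_simp

theorem two_En {F : ℂ → EN M} (hF : Differentiable ℂ F) (h0 : ∀ z, F z ≠ 0) (R : ℝ) :
    ∫ z, tau R z * Δ (fun z => Real.log ‖F z‖) z = 2 * En F R := by
  unfold En
  rw [← integral_const_mul]
  refine integral_congr_ae (Eventually.of_forall fun z => ?_)
  simp only
  rw [lap_eq_lam (hF.analyticAt z) (h0 z)]
  ring

/-- V9 -/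
theorem ord {F : ℂ → EN M} (hF : Differentiable ℂ F) (h0 : ∀ z, F z ≠ 0) {A : ℝ}
    (hA : ∀ r : ℝ, 0 < r → Real.circleAverage (fun z => Real.log ‖F z‖) 0 r ≤ A * (1 + r ^ 2)) : ∃ B, ∀ R, 1 ≤ R → En F R ≤ B * R ^ 2 := by
  obtain ⟨C, hC0, hC⟩ := ord_tau hF h0 hA
  refine ⟨C, fun R hR => ?_⟩
  have h1 := hC R hR
  rw [two_En hF h0 R] at h1
  have h2 : 1 ≤ R ^ 2 := one_le_pow₀ hR
  nlinarith

end Pool.Agent.MQ

end
end

section

/-!
# SB/An TreeR: from the reduction of formal germs to the reduction of analytic germs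
-/

set_option autoImplicit false

open Topology MvPowerSeries Asymptotics Filter

noncomputable section

namespace Pool.Agent.SB

theorem exists_cf_ne {A : R2} (h : A ≠ 0) : ∃ i j, cf A i j ≠ 0 := by
  by_contra hcon
  push Not at hcon
  exact h (cf_ext fun i j => by rw [hcon, cf, map_zero])

/-- the order -/
theorem exists_ord {A : R2} (h : A ≠ 0) : ∃ l, Ord l A ∧ ¬ Ord (l + 1) A := by
  classical
  obtain ⟨i, j, hij⟩ := exists_cf_ne h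
  have hex : ∃ n, ¬ Ord n A := ⟨i + j + 1, fun h => hij (h i j (by omega))⟩
  have h1 := Nat.find_spec hex
  have h2 : Nat.find hex ≠ 0 := by
    intro h0
    rw [h0] at h1
    exact h1 fun i j hij => absurd hij (by omega)
  obtain ⟨l, hl⟩ := Nat.exists_eq_succ_of_ne_zero h2
  refine ⟨l, ?_, ?_⟩
  · by_contra h3
    have := Nat.find_min' hex h3
    omega
  · rw [hl] at h1
    exact h1

theorem bl_ne_zero {A : R2} (h : A ≠ 0) (t : ℂ) : bl t A ≠ 0 := by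
  obtain ⟨l, h1, h2⟩ := exists_ord h
  obtain ⟨u, hu⟩ := exists_bl t h1
  intro h3
  rw [h3] at hu
  have h4 : X 0 ∣ u := by
    rw [X0_dvd_iff]
    intro j
    have h5 : cf (X 0 ^ l * u) l j = cf (0 : R2) l j := by rw [hu]
    rw [cf_X0_pow_mul, if_pos le_rfl, Nat.sub_self] at h5
    rw [h5, cf, map_zero]
  exact h2 (ord_succ_of_dvd h1 (by rw [hu, h3]) h4)

/-- the formal child exists -/
theorem exists_child (t : ℂ) {A B : R2} (h : A ≠ 0 ∨ B ≠ 0) (hA : cf A 0 0 = 0) (hB : cf B 0 0 = 0) :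
    ∃ A₁ B₁, Child t A B A₁ B₁ := by
  classical
  have hd : ∀ {D : R2}, cf D 0 0 = 0 → X 0 ∣ bl t D := fun {D} hD => by
    rw [X0_dvd_iff]
    intro j
    rw [cf_bl]
    simp [hD]
  have hdw : X 0 ∣ bl t B - (X 1 + C t) * bl t A := dvd_sub (hd hB) ((hd hA).mul_left _)
  obtain ⟨w, hw⟩ := hdw
  have hne : bl t A ≠ 0 ∨ w ≠ 0 := by
    by_contra hcon
    push Not at hcon
    rw [hcon.1, hcon.2, mul_zero, mul_zero, sub_zero] at hw
    rcases h with h | h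
    · exact bl_ne_zero h t hcon.1
    · exact bl_ne_zero h t hw
  have hbd : ∃ n, ∀ e, X 0 ^ e ∣ bl t A → X 0 ^ e ∣ w → e ≤ n := by
    rcases hne with hne | hne
    · obtain ⟨i, j, hij⟩ := exists_cf_ne hne
      refine ⟨i, fun e he _ => ?_⟩
      by_contra hlt
      exact hij ((X0_pow_dvd_iff e _).1 he i j (by omega))
    · obtain ⟨i, j, hij⟩ := exists_cf_ne hne
      refine ⟨i, fun e _ he => ?_⟩
      by_contra hlt
      exact hij ((X0_pow_dvd_iff e _).1 he i j (by omega))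
  obtain ⟨n, hn⟩ := hbd
  let Pr : ℕ → Prop := fun e => X 0 ^ e ∣ bl t A ∧ X 0 ^ e ∣ w
  have hP0 : Pr 0 := by
    constructor
    · rw [pow_zero]; exact one_dvd _
    · rw [pow_zero]; exact one_dvd _
  have hspec : Pr (Nat.findGreatest Pr n) := Nat.findGreatest_spec (Nat.zero_le n) hP0
  set e := Nat.findGreatest Pr n with he
  obtain ⟨⟨A₁, h1⟩, ⟨B₁, h2⟩⟩ := hspec
  refine ⟨A₁, B₁, e, h1.symm, ?_, ?_⟩
  · rw [hw, h2]
    ring
  · rintro ⟨⟨a', ha'⟩, ⟨b', hb'⟩⟩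
    have h3 : Pr (e + 1) := ⟨⟨a', by rw [h1, ha']; ring⟩, ⟨b', by rw [h2, hb']; ring⟩⟩
    have h4 : e + 1 ≤ n := hn _ h3.1 h3.2
    have h5 : ¬ Pr (e + 1) := Nat.findGreatest_is_greatest (P := Pr) (n := n) (by rw [← he]; omega) h4
    exact h5 h3

/-- the analytic child -/
theorem exists_aChild (t : ℂ) {a b : ℂ × ℂ → ℂ} (ha : AnalyticAt ℂ a 0) (hb : AnalyticAt ℂ b 0) {A B A₁ B₁ : R2}
    (hA : Jet a A) (hB : Jet b B) (h : Child t A B A₁ B₁) :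
    ∃ (a₁ b₁ : ℂ × ℂ → ℂ) (e : ℕ), AChild t a b a₁ b₁ e ∧ AnalyticAt ℂ a₁ 0 ∧ AnalyticAt ℂ b₁ 0 ∧ Jet a₁ A₁ ∧ Jet b₁ B₁ := by
  obtain ⟨e, h1, h2, -⟩ := h
  have ha' : AnalyticAt ℂ (fun p => a (bt t p)) 0 :=
    AnalyticAt.comp (g := a) (f := bt t) (by rw [bt_zero]; exact ha) (bt_analytic t 0)
  have hb' : AnalyticAt ℂ (fun p => b (bt t p)) 0 :=
    AnalyticAt.comp (g := b) (f := bt t) (by rw [bt_zero]; exact hb) (bt_analytic t 0)
  have hJa : Jet (fun p => a (bt t p)) (X 0 ^ e * A₁) := by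
    rw [h1]
    exact hA.bl t
  have hJb : Jet (fun p => b (bt t p) - (p.2 + t) * a (bt t p)) (X 0 ^ (e + 1) * B₁) := by
    rw [h2]
    exact (hB.bl t).sub ((jet_snd.add (jet_const t)).mul (hA.bl t))
  obtain ⟨a₁, h3, h4, h5⟩ := hJa.exists_div ha'
  obtain ⟨b₁, h6, h7, h8⟩ := hJb.exists_div (hb'.sub ((analyticAt_snd.add analyticAt_const).mul ha'))
  exact ⟨a₁, b₁, e, ⟨h4, h7⟩, h3, h6, h5, h8⟩

theorem child_ne {t : ℂ} {A B A₁ B₁ : R2} (h : Child t A B A₁ B₁) : A₁ ≠ 0 ∨ B₁ ≠ 0 := by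
  obtain ⟨e, -, -, h3⟩ := h
  by_contra hcon
  push Not at hcon
  exact h3 ⟨by rw [hcon.1]; exact dvd_zero _, by rw [hcon.2]; exact dvd_zero _⟩

theorem sw_zero : sw (0 : R2) = 0 := map_zero _

/-- **The tree of an analytic germ from the tree of its Taylor series.** -/
theorem tree_of_red {A B : R2} (h : Red A B) : (A ≠ 0 ∨ B ≠ 0) → ∀ a b : ℂ × ℂ → ℂ, AnalyticAt ℂ a 0 → AnalyticAt ℂ b 0 →
    Jet a A → Jet b B → Tree a b := by
  induction h with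
  | reg A B h =>
    intro _ a b ha hb hA hB
    refine Tree.reg a b ha hb ?_
    rw [hA.apply_zero, hB.apply_zero]
    exact h
  | elem A B h =>
    intro _ a b ha hb hA hB
    refine Tree.elem a b ha hb ?_
    obtain ⟨h1, h2, l, k, h3, h4, h5, h6⟩ := h
    refine ⟨by rw [hA.apply_zero, h1], by rw [hB.apply_zero, h2], l, k, ?_, ?_, h5, h6⟩
    · rw [hA.fderiv_fst, hB.fderiv_snd]
      exact h3
    · rw [hA.fderiv_fst, hA.fderiv_snd, hB.fderiv_fst, hB.fderiv_snd]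
      exact h4
  | blow A B _ _ ih1 ih2 =>
    intro hne a b ha hb hA hB
    by_cases h0 : cf A 0 0 ≠ 0 ∨ cf B 0 0 ≠ 0
    · refine Tree.reg a b ha hb ?_
      rw [hA.apply_zero, hB.apply_zero]
      exact h0
    push Not at h0
    have hch : ∀ t : ℂ, ∃ (a₁ b₁ : ℂ × ℂ → ℂ) (e : ℕ), AChild t a b a₁ b₁ e ∧ Tree a₁ b₁ := by
      intro t
      obtain ⟨A₁, B₁, hc⟩ := exists_child t hne h0.1 h0.2
      obtain ⟨a₁, b₁, e, h1, h2, h3, h4, h5⟩ := exists_aChild t ha hb hA hB hc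
      exact ⟨a₁, b₁, e, h1, ih1 t A₁ B₁ hc (child_ne hc) a₁ b₁ h2 h3 h4 h5⟩
    choose a₁ b₁ e h1 h2 using hch
    have hsw : AnalyticAt ℂ (fun p : ℂ × ℂ => p.swap) 0 := analyticAt_snd.prod analyticAt_fst
    have hsa : AnalyticAt ℂ (fun p : ℂ × ℂ => a p.swap) 0 :=
      AnalyticAt.comp (g := a) (f := fun p : ℂ × ℂ => p.swap) ha hsw
    have hsb : AnalyticAt ℂ (fun p : ℂ × ℂ => b p.swap) 0 :=
      AnalyticAt.comp (g := b) (f := fun p : ℂ × ℂ => p.swap) hb hsw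
    have hne' : sw B ≠ 0 ∨ sw A ≠ 0 := by
      have hinj : ∀ D : R2, D ≠ 0 → sw D ≠ 0 := fun D hD h => hD (by rw [← sw_sw D, h, sw_zero])
      rcases hne with hne | hne
      · exact Or.inr (hinj A hne)
      · exact Or.inl (hinj B hne)
    obtain ⟨A₂, B₂, hc⟩ := exists_child 0 hne' (by rw [cf_sw]; exact h0.2) (by rw [cf_sw]; exact h0.1)
    obtain ⟨a₂, b₂, e₂, h3, h4, h5, h6, h7⟩ := exists_aChild 0 hsb hsa hB.sw hA.sw hc
    exact Tree.blow a b a₁ b₁ e a₂ b₂ e₂ ha hb h1 h2 h3 (ih2 A₂ B₂ hc (child_ne hc) a₂ b₂ h4 h5 h6 h7)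

/-! ### isolated zeros -/

theorem fin2_one (A : R2) : Fin2 1 A := by
  have h1 : Ideal.span {(1 : R2), A} = ⊤ := Ideal.eq_top_of_isUnit_mem _ (Ideal.subset_span (by simp)) isUnit_one
  unfold Fin2
  rw [h1]
  have : Subsingleton (R2 ⧸ (⊤ : Ideal R2)) := Ideal.Quotient.subsingleton_iff.2 rfl
  infer_instance

theorem fin2_X0_pow {A : R2} {n : ℕ} (h : cf A 0 n ≠ 0) (M : ℕ) : Fin2 (X 0 ^ M) A := by
  induction M with
  | zero =>
    rw [pow_zero]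
    exact fin2_one A
  | succ M ih =>
    rw [pow_succ]
    exact (mu_mul ih (mu_X0 h).1).1

theorem fin2_of_bezout {A B H K : R2} {M n : ℕ} (h : cf A 0 n ≠ 0) (hM : (X 0 ^ M : R2) = A * H + B * K) : Fin2 A B := by
  refine (Mu.of_le (I := Ideal.span {X 0 ^ M, A}) ?_ (fin2_X0_pow h M)).1
  rw [Ideal.span_le]
  intro z hz
  have hA : A ∈ Ideal.span {A, B} := Ideal.subset_span (by simp)
  have hB : B ∈ Ideal.span {A, B} := Ideal.subset_span (by simp)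
  rcases hz with rfl | hz
  · rw [SetLike.mem_coe, hM]
    exact Ideal.add_mem _ (Ideal.mul_mem_right _ _ hA) (Ideal.mul_mem_right _ _ hB)
  · rw [Set.mem_singleton_iff] at hz
    rw [hz]
    exact hA

theorem fin2_aux {a b : ℂ × ℂ → ℂ} (ha : AnalyticAt ℂ a 0) (hb : AnalyticAt ℂ b 0)
    (hiso : ∀ᶠ p in 𝓝 (0 : ℂ × ℂ), p ≠ 0 → a p ≠ 0 ∨ b p ≠ 0) {A B : R2} (hA : Jet a A) (hB : Jet b B)
    (h0 : ¬ ∀ᶠ y in 𝓝 (0 : ℂ), a (0, y) = 0) : Fin2 A B ∧ A ≠ 0 := by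
  obtain ⟨n, hn⟩ : ∃ n, cf A 0 n ≠ 0 := by
    by_contra hcon
    push Not at hcon
    exact h0 (hA.restrict ha hcon)
  obtain ⟨M, h, k, hh, hk, hM⟩ := Bez.exists_bezout ha hb h0 hiso
  obtain ⟨H, hH⟩ := exists_jet hh
  obtain ⟨K, hK⟩ := exists_jet hk
  have h1 : Jet (fun p => p.1 ^ M) (A * H + B * K) := by
    refine ((hA.mul hH).add (hB.mul hK)).congr ?_
    filter_upwards [hM] with p hp
    rw [hp]
  refine ⟨fin2_of_bezout hn ((jet_fst_pow M).unique h1), ?_⟩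
  rintro rfl
  rw [cf, map_zero] at hn
  exact hn rfl

theorem fin2_comm {A B : R2} (h : Fin2 A B) : Fin2 B A := by
  have h1 : Ideal.span {B, A} = Ideal.span {A, B} := by rw [Set.pair_comm]
  unfold Fin2
  rw [h1]
  exact h

/-- the Taylor series of two germs with an isolated common zero have finite multiplicity -/
theorem fin2_of_isolated {a b : ℂ × ℂ → ℂ} (ha : AnalyticAt ℂ a 0) (hb : AnalyticAt ℂ b 0)
    (hiso : ∀ᶠ p in 𝓝 (0 : ℂ × ℂ), p ≠ 0 → a p ≠ 0 ∨ b p ≠ 0) {A B : R2} (hA : Jet a A) (hB : Jet b B) :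
    Fin2 A B ∧ (A ≠ 0 ∨ B ≠ 0) := by
  by_cases h0 : ∀ᶠ y in 𝓝 (0 : ℂ), a (0, y) = 0
  · have h1 : ¬ ∀ᶠ y in 𝓝 (0 : ℂ), b (0, y) = 0 := by
      intro h1
      have ht : Tendsto (fun y : ℂ => ((0, y) : ℂ × ℂ)) (𝓝 0) (𝓝 0) := by
        have h2 : Continuous fun x : ℂ => ((0, x) : ℂ × ℂ) := by fun_prop
        exact h2.tendsto 0
      have h3 : ∀ᶠ y in 𝓝[≠] (0 : ℂ), False := by
        rw [eventually_nhdsWithin_iff]
        filter_upwards [h0, h1, ht.eventually hiso] with y h4 h5 h6 hy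
        rcases h6 (fun h => hy (congrArg Prod.snd h)) with h7 | h7
        · exact h7 h4
        · exact h7 h5
      exact h3.exists.elim fun _ h => h
    obtain ⟨h2, h3⟩ := fin2_aux hb ha (hiso.mono fun p hp hp0 => (hp hp0).symm) hB hA h1
    exact ⟨fin2_comm h2, Or.inr h3⟩
  · obtain ⟨h2, h3⟩ := fin2_aux ha hb hiso hA hB h0
    exact ⟨h2, Or.inl h3⟩

end Pool.Agent.SB

end
end

section

/-!
# MQ3 CovA: the cover, from local statements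

`exists_cov_aux`: the special points are the base points of the chart points which are not regular; over one representative of each of them finitely many
polydiscs `P` are placed, one for each class of avatars.  A maximal subset of pairwise unrelated (separated) points replaces the classes.
-/

set_option autoImplicit false

open Topology Filter Metric MvPolynomial

noncomputable section

namespace Pool.Agent.MQ3

open Pool.Agent.H36.BP (EN fs)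
open Pool.Agent.H17EF (projVar coneE)

/-! ### general lemmas -/

/-- a maximal subset of pairwise unrelated points -/
private theorem CovA_max {α : Type*} [DecidableEq α] (T : Finset α) (R : α → α → Prop) :
    ∃ T₀ ⊆ T, (∀ x ∈ T₀, ∀ y ∈ T₀, x ≠ y → ¬ R x y) ∧ ∀ x ∈ T, ∃ y ∈ T₀, x = y ∨ R x y ∨ R y x := by
  classical
  induction T using Finset.induction_on with
  | empty => exact ⟨∅, subset_rfl, by simp, by simp⟩
  | insert a T ha ih =>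
    obtain ⟨T₀, h1, h2, h3⟩ := ih
    by_cases h4 : ∃ y ∈ T₀, R a y ∨ R y a
    · obtain ⟨y, hy, h5⟩ := h4
      refine ⟨T₀, h1.trans (Finset.subset_insert _ _), h2, fun x hx => ?_⟩
      rcases Finset.mem_insert.1 hx with rfl | hx
      · exact ⟨y, hy, Or.inr h5⟩
      · exact h3 x hx
    · refine ⟨insert a T₀, Finset.insert_subset_insert _ h1, fun x hx y hy hxy => ?_, fun x hx => ?_⟩
      · rcases Finset.mem_insert.1 hx with h5 | h5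
        · rcases Finset.mem_insert.1 hy with h6 | h6
          · exact absurd (h5.trans h6.symm) hxy
          · rw [h5]
            exact fun h7 => h4 ⟨y, h6, Or.inl h7⟩
        · rcases Finset.mem_insert.1 hy with h6 | h6
          · rw [h6]
            exact fun h7 => h4 ⟨x, h5, Or.inr h7⟩
          · exact h2 x h5 y h6 hxy
      · rcases Finset.mem_insert.1 hx with h5 | h5
        · exact ⟨a, Finset.mem_insert_self _ _, Or.inl h5⟩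
        · obtain ⟨y, hy, h6⟩ := h3 x h5
          exact ⟨y, Finset.mem_insert_of_mem hy, h6⟩

/-- a property which holds near the fibre over `y` holds over a small ball -/
private theorem CovA_fib {K : Set (ℂ × ℂ)} (hK : IsCompact K) {f : ℂ × ℂ → ℂ × ℂ} (hf : Continuous f) {y : ℂ × ℂ} {Pr : ℂ × ℂ → Prop}
    (h : ∀ q ∈ K, f q = y → ∀ᶠ x in 𝓝 q, Pr x) : ∀ᶠ t in 𝓝[>] (0 : ℝ), ∀ q ∈ K, f q ∈ closedBall y t → Pr q := by
  obtain ⟨O, hO⟩ : ∃ O : Set (ℂ × ℂ), O = interior {x | Pr x} := ⟨_, rfl⟩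
  have h1 : IsCompact (K \ O) := hK.diff (by rw [hO]; exact isOpen_interior)
  have h2 : IsClosed (f '' (K \ O)) := (h1.image hf).isClosed
  have h3 : y ∉ f '' (K \ O) := by
    rintro ⟨q, ⟨hq, hqO⟩, hqy⟩
    exact hqO (by rw [hO]; exact mem_interior_iff_mem_nhds.2 (h q hq hqy))
  have h4 : ∀ᶠ t in 𝓝 (0 : ℝ), closedBall y t ⊆ (f '' (K \ O))ᶜ := eventually_closedBall_subset (h2.isOpen_compl.mem_nhds h3)
  filter_upwards [h4.filter_mono nhdsWithin_le_nhds] with t ht q hq hqt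
  by_contra h5
  have h6 : q ∉ O := fun h7 => h5 (by rw [hO] at h7; exact interior_subset h7)
  exact ht hqt ⟨q, ⟨hq, h6⟩, rfl⟩

/-- a set which is discrete in a compact set is finite -/
private theorem CovA_fin {K A : Set (ℂ × ℂ)} (hK : IsCompact K) (h : ∀ q ∈ K, ∀ᶠ x in 𝓝[≠] q, x ∉ A) : (K ∩ A).Finite := by
  have h1 : ∀ q ∈ K, {x | x ≠ q → x ∉ A} ∈ 𝓝 q := fun q hq => by
    have := h q hq
    rw [eventually_nhdsWithin_iff] at this
    exact this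
  obtain ⟨t, ht, hcov⟩ := hK.elim_nhds_subcover (fun q => {x | x ≠ q → x ∉ A}) h1
  refine t.finite_toSet.subset fun x hx => ?_
  obtain ⟨q, hq, hxq⟩ := Set.mem_iUnion₂.1 (hcov hx.1)
  by_contra h2
  have h3 : x ≠ q := by
    rintro rfl
    exact h2 hq
  exact hxq h3 hx.2

variable {M : ℕ} {P : Ideal (MvPolynomial (Fin (M + 1)) ℂ)} {RD : MvPolynomial (Fin (M + 1)) ℂ} {m : ℕ} {X : NCModel P RD} {θ : WDiff (coneE P) m}
  {l : LF M} {S : Web X θ l} {Ra : MvPolynomial (Fin (M + 1)) ℂ}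

private theorem CovA_cont (k : S.ι) : Continuous (S.κ k) := by
  have h1 : S.κ k = fun q : ℂ × ℂ => (q.1 ^ (S.c k).w.1 * q.2 ^ (S.c k).w'.1, q.1 ^ (S.c k).w.2 * q.2 ^ (S.c k).w'.2) := rfl
  rw [h1]
  fun_prop

private theorem CovA_D {k : S.ι} {q : ℂ × ℂ} : q ∈ S.D k ↔ S.κ k q ∈ X.B k.1 :=
  ⟨fun h => h.2, fun h => ⟨X.sub k.1 h, h⟩⟩

private theorem CovA_ub {q : ℂ × ℂ} : q ∈ closedBall (0 : ℂ × ℂ) 1 ↔ ‖q.1‖ ≤ 1 ∧ ‖q.2‖ ≤ 1 := by
  rw [mem_closedBall_zero_iff, Prod.norm_def, max_le_iff]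

private theorem CovA_cp {k : S.ι} {q : ℂ × ℂ} : q ∈ S.cp k ↔ q ∈ closedBall (0 : ℂ × ℂ) 1 ∧ S.κ k q ∈ X.C k.1 := by
  rw [CovA_ub]
  exact ⟨fun h => ⟨⟨h.1, h.2.1⟩, h.2.2⟩, fun h => ⟨h.1.1, h.1.2, h.2⟩⟩

private theorem CovA_cpc (k : S.ι) : IsCompact (S.cp k) := by
  have h1 : S.cp k = closedBall (0 : ℂ × ℂ) 1 ∩ (S.κ k) ⁻¹' (X.C k.1) := by
    ext q
    exact CovA_cp
  rw [h1]
  exact (isCompact_closedBall _ _).inter_right ((X.compact k.1).isClosed.preimage (CovA_cont k))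

private theorem CovA_cpD {k : S.ι} {q : ℂ × ℂ} (hq : q ∈ S.cp k) : q ∈ S.D k := CovA_D.2 (X.C_sub k.1 (CovA_cp.1 hq).2)

private theorem CovA_Do (k : S.ι) : IsOpen (S.D k) := by
  have h1 : S.D k = (S.κ k) ⁻¹' (X.B k.1) := by
    ext q
    exact CovA_D
  rw [h1]
  exact (X.isOpen k.1).preimage (CovA_cont k)

/-- the two chart points are never seen together -/
def SepPt (S : Web X θ l) (k : S.ι) (q : ℂ × ℂ) (k' : S.ι) (q' : ℂ × ℂ) : Prop :=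
  ∃ N ∈ 𝓝 q, ∃ N' ∈ 𝓝 q', ∀ F : ℂ → EN M, WCrv θ RD F → ∀ Y : NCLift X F, ∀ z, z ∈ S.Om Y k → S.lf Y k z ∈ N → z ∈ S.Om Y k' → S.lf Y k' z ∉ N'

private theorem SepPt.symm {k k' : S.ι} {q q' : ℂ × ℂ} (h : SepPt S k q k' q') : SepPt S k' q' k q := by
  obtain ⟨N, hN, N', hN', h1⟩ := h
  exact ⟨N', hN', N, hN, fun F hF Y z hz hzN hz' hzN' => h1 F hF Y z hz' hzN' hz hzN⟩

/-- The statements about the lifts of curves which are used. -/
structure LfHyp (S : Web X θ l) : Prop where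
  κ_lf : ∀ F : ℂ → EN M, WCrv θ RD F → ∀ Y : NCLift X F, ∀ k, ∀ z ∈ S.Om Y k, z ∈ Y.U k.1 ∧ S.κ k (S.lf Y k z) = Y.p k.1 z
  cover : ∀ F : ℂ → EN M, WCrv θ RD F → ∀ Y : NCLift X F, ∀ i, ∀ z ∈ Y.U i, ∃ a : (S.V i).ι, z ∈ S.Om Y ⟨i, a⟩ ∧ ‖(S.lf Y ⟨i, a⟩ z).1‖ ≤ 1 ∧
    ‖(S.lf Y ⟨i, a⟩ z).2‖ ≤ 1

/-- points over unrelated points of the model are separated -/
private theorem CovA_sep (hL : LfHyp S) {k k' : S.ι} {q q' : ℂ × ℂ} (hq : q ∈ S.D k) (hq' : q' ∈ S.D k')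
    (h : ¬ X.rel k.1 (S.κ k q) k'.1 (S.κ k' q')) : SepPt S k q k' q' := by
  have h1 := X.sep k.1 k'.1 _ (CovA_D.1 hq) _ (CovA_D.1 hq') h
  have h2 : Tendsto (fun x : (ℂ × ℂ) × (ℂ × ℂ) => (S.κ k x.1, S.κ k' x.2)) (𝓝 (q, q')) (𝓝 (S.κ k q, S.κ k' q')) :=
    (((CovA_cont k).comp continuous_fst).prodMk ((CovA_cont k').comp continuous_snd)).tendsto (q, q')
  have h3 := h2.eventually h1
  rw [nhds_prod_eq] at h3
  obtain ⟨A, hA, B, hB, hAB⟩ := Filter.eventually_prod_iff.1 h3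
  refine ⟨{x | A x}, hA, {x | B x}, hB, fun F hF Y z hz hzN hz' hzN' => ?_⟩
  have h4 := hAB hzN hzN'
  obtain ⟨h5, h6⟩ := hL.κ_lf F hF Y k z hz
  obtain ⟨h7, h8⟩ := hL.κ_lf F hF Y k' z hz'
  simp only [h6, h8] at h4
  exact h4 (Y.rel k.1 k'.1 z h5 h7)

private theorem CovA_axes (k : S.ι) (q : ℂ × ℂ) : (S.κ k q).1 * (S.κ k q).2 = 0 ↔ q.1 * q.2 = 0 := by
  have h1 : (S.κ k q).1 * (S.κ k q).2 = q.1 ^ ((S.c k).w.1 + (S.c k).w.2) * q.2 ^ ((S.c k).w'.1 + (S.c k).w'.2) := by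
    change (q.1 ^ (S.c k).w.1 * q.2 ^ (S.c k).w'.1) * (q.1 ^ (S.c k).w.2 * q.2 ^ (S.c k).w'.2) = _
    ring
  have h2 : 0 < dt (S.c k).w (S.c k).w' := (S.c k).pos
  have h3 : (S.c k).w.1 + (S.c k).w.2 ≠ 0 := by
    intro h
    have h4 : (S.c k).w.1 = 0 := by omega
    have h5 : (S.c k).w.2 = 0 := by omega
    simp [dt, h4, h5] at h2
  have h4 : (S.c k).w'.1 + (S.c k).w'.2 ≠ 0 := by
    intro h
    have h4 : (S.c k).w'.1 = 0 := by omega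
    have h5 : (S.c k).w'.2 = 0 := by omega
    simp [dt, h4, h5] at h2
  rw [h1, mul_eq_zero, mul_eq_zero, pow_eq_zero_iff h3, pow_eq_zero_iff h4]

/-! ### the polydiscs `P` -/

/-- The polydiscs `P`; `T` is the set of the special points of the boxes. -/
structure PPart (S : Web X θ l) (Ra : MvPolynomial (Fin (M + 1)) ℂ) (r₀ : S.ι → ℂ × ℂ → ℝ) where
  nP : ℕ
  ck : Fin nP → S.ι
  Q : Fin nP → ℂ × ℂ
  r : Fin nP → ℝ
  s : Fin nP → ℝ
  s_pos : ∀ j, 0 < s j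
  s_lt : ∀ j, s j < r j
  Q_mem : ∀ j, Q j ∈ S.cp (ck j)
  P_sub : ∀ j, closedBall (Q j) (r j) ⊆ S.D (ck j)
  P_reg : ∀ j, ∀ x ∈ closedBall (Q j) (r j), x ≠ Q j → Reg S Ra (ck j) x
  r_le : ∀ j, r j ≤ r₀ (ck j) (Q j)
  disj : ∀ F : ℂ → EN M, WCrv θ RD F → ∀ Y : NCLift X F, ∀ j j', j ≠ j' → ∀ z, z ∈ S.Om Y (ck j) → S.lf Y (ck j) z ∈ closedBall (Q j) (r j) →
    z ∈ S.Om Y (ck j') → S.lf Y (ck j') z ∉ closedBall (Q j') (r j')
  T : Set (X.ι × (ℂ × ℂ))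
  T_mem : ∀ b ∈ T, b.2 ∈ X.C b.1
  rep : ∀ i, ∀ x ∈ X.C i, (∃ a, ∃ q ∈ closedBall (0 : ℂ × ℂ) 1, S.κ ⟨i, a⟩ q = x ∧ ¬ Reg S Ra ⟨i, a⟩ q) → ∃ b ∈ T, X.rel i x b.1 b.2
  core : ∀ b ∈ T, ∀ a, ∀ q ∈ closedBall (0 : ℂ × ℂ) 1, S.κ ⟨b.1, a⟩ q = b.2 → ¬ RegA S Ra ⟨b.1, a⟩ q → ∃ j, ∃ N ∈ 𝓝 q, ∀ F : ℂ → EN M,
    WCrv θ RD F → ∀ Y : NCLift X F, ∀ z ∈ S.Om Y ⟨b.1, a⟩, S.lf Y ⟨b.1, a⟩ z ∈ N → z ∈ S.Om Y (ck j) ∧ S.lf Y (ck j) z ∈ ball (Q j) (s j)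

theorem exists_PPart (hL : LfHyp S) (hreg : ∀ k, ∀ q ∈ S.D k, ∀ᶠ x in 𝓝[≠] q, Reg S Ra k x)
    (hav : ∀ (i : X.ι) (a a' : (S.V i).ι) (q q' : ℂ × ℂ), q ∈ S.D ⟨i, a⟩ → q' ∈ S.D ⟨i, a'⟩ → SepPt S ⟨i, a⟩ q ⟨i, a'⟩ q' ∨
      ∃ Φ : ℂ × ℂ → ℂ × ℂ, AnalyticAt ℂ Φ q ∧ Φ q = q' ∧ ∃ N ∈ 𝓝 q, ∀ F : ℂ → EN M, WCrv θ RD F → ∀ Y : NCLift X F, ∀ z ∈ S.Om Y ⟨i, a⟩,
        S.lf Y ⟨i, a⟩ z ∈ N → z ∈ S.Om Y ⟨i, a'⟩ ∧ S.lf Y ⟨i, a'⟩ z = Φ (S.lf Y ⟨i, a⟩ z))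
    (hfib : ∀ k, ∀ q ∈ S.D k, q.1 * q.2 ≠ 0 → ∀ᶠ x in 𝓝 q, S.κ k x = S.κ k q → x = q)
    (r₀ : S.ι → ℂ × ℂ → ℝ) (h₀ : ∀ k, ∀ q ∈ S.D k, 0 < r₀ k q) : Nonempty (PPart S Ra r₀) := by
  classical
  -- the special points
  have hNR : ∀ k : S.ι, (S.cp k ∩ {x | ¬ Reg S Ra k x}).Finite := fun k => CovA_fin (CovA_cpc k) fun q hq => by
    filter_upwards [hreg k q (CovA_cpD hq)] with x hx hxA
    exact hxA hx
  obtain ⟨SP, hSP⟩ : ∃ SP : Set (X.ι × (ℂ × ℂ)), SP = {b | b.2 ∈ X.C b.1 ∧ ∃ a, ∃ q ∈ closedBall (0 : ℂ × ℂ) 1, S.κ ⟨b.1, a⟩ q = b.2 ∧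
    ¬ Reg S Ra ⟨b.1, a⟩ q} := ⟨_, rfl⟩
  have hSPf : SP.Finite := by
    have h1 : (⋃ k : S.ι, (fun q => (k.1, S.κ k q)) '' (S.cp k ∩ {x | ¬ Reg S Ra k x})).Finite := Set.finite_iUnion fun k => (hNR k).image _
    refine h1.subset ?_
    rintro ⟨i, x⟩ hb
    rw [hSP] at hb
    obtain ⟨hx, a, q, hq, hqx, hn⟩ := hb
    refine Set.mem_iUnion.2 ⟨⟨i, a⟩, q, ⟨CovA_cp.2 ⟨hq, ?_⟩, hn⟩, ?_⟩
    · rw [hqx]
      exact hx
    · exact Prod.ext rfl hqx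
  obtain ⟨T₀, hT₀, hT₀u, hT₀m⟩ := CovA_max hSPf.toFinset (fun b b' : X.ι × (ℂ × ℂ) => X.rel b.1 b.2 b'.1 b'.2)
  have hTC : ∀ b ∈ T₀, b.2 ∈ X.C b.1 := fun b hb => by
    have := (Set.Finite.mem_toFinset hSPf).1 (hT₀ hb)
    rw [hSP] at this
    exact this.1
  -- the chart points over them
  obtain ⟨PP, hPP⟩ : ∃ PP : Set (S.ι × (ℂ × ℂ)), PP = {p | (p.1.1, S.κ p.1 p.2) ∈ T₀ ∧ p.2 ∈ closedBall (0 : ℂ × ℂ) 1 ∧ ¬ RegA S Ra p.1 p.2} := ⟨_, rfl⟩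
  have hPPf : PP.Finite := by
    have h1 : ∀ (k : S.ι) (b : X.ι × (ℂ × ℂ)), (S.cp k ∩ {x | S.κ k x = b.2 ∧ ¬ RegA S Ra k x}).Finite := fun k b => CovA_fin (CovA_cpc k) fun q hq => by
      have hqD := CovA_cpD hq
      by_cases h2 : S.κ k q = b.2
      · by_cases h3 : q.1 * q.2 = 0
        · filter_upwards [hreg k q hqD] with x hx hxA
          rcases hx with hx | hx
          · exact hxA.2 hx
          · refine hx.ne ((CovA_axes k x).1 ?_)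
            rw [hxA.1, ← h2]
            exact (CovA_axes k q).2 h3
        · have h4 := hfib k q hqD h3
          rw [eventually_nhdsWithin_iff]
          filter_upwards [h4] with x hx hxq hxA
          exact hxq (hx (hxA.1.trans h2.symm))
      · have h3 : ∀ᶠ x in 𝓝 q, S.κ k x ≠ b.2 := (CovA_cont k).continuousAt.eventually_ne h2
        filter_upwards [h3.filter_mono nhdsWithin_le_nhds] with x hx hxA
        exact hx hxA.1
    have h2 : (⋃ k : S.ι, ⋃ b ∈ T₀, (fun q => (k, q)) '' (S.cp k ∩ {x | S.κ k x = b.2 ∧ ¬ RegA S Ra k x})).Finite :=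
      Set.finite_iUnion fun k => Set.Finite.biUnion T₀.finite_toSet fun b _ => (h1 k b).image _
    refine h2.subset ?_
    rintro ⟨k, q⟩ hp
    rw [hPP] at hp
    obtain ⟨h3, h4, h5⟩ := hp
    exact Set.mem_iUnion.2 ⟨k, Set.mem_iUnion₂.2 ⟨_, h3, q, ⟨CovA_cp.2 ⟨h4, hTC _ h3⟩, rfl, h5⟩, rfl⟩⟩
  obtain ⟨T₁, hT₁, hT₁u, hT₁m⟩ := CovA_max hPPf.toFinset (fun p p' : S.ι × (ℂ × ℂ) => ¬ SepPt S p.1 p.2 p'.1 p'.2)
  have hT₁P : ∀ p ∈ T₁, (p.1.1, S.κ p.1 p.2) ∈ T₀ ∧ p.2 ∈ closedBall (0 : ℂ × ℂ) 1 ∧ ¬ RegA S Ra p.1 p.2 := fun p hp => by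
    have := (Set.Finite.mem_toFinset hPPf).1 (hT₁ hp)
    rw [hPP] at this
    exact this
  have hcpT : ∀ p ∈ T₁, p.2 ∈ S.cp p.1 := fun p hp => CovA_cp.2 ⟨(hT₁P p hp).2.1, hTC _ (hT₁P p hp).1⟩
  -- enumeration
  obtain ⟨n, ⟨e⟩⟩ : ∃ n, Nonempty (T₁ ≃ Fin n) := ⟨_, ⟨T₁.equivFin⟩⟩
  obtain ⟨f, hf⟩ : ∃ f : Fin n → S.ι × (ℂ × ℂ), f = fun j => (e.symm j).1 := ⟨_, rfl⟩
  have hfT : ∀ j, f j ∈ T₁ := fun j => by rw [hf]; exact (e.symm j).2
  have hfi : ∀ j j', j ≠ j' → f j ≠ f j' := fun j j' hjj h => by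
    rw [hf] at h
    exact hjj (e.symm.injective (Subtype.ext h))
  have hfe : ∀ p, ∀ hp : p ∈ T₁, f (e ⟨p, hp⟩) = p := fun p hp => by
    rw [hf]
    simp only [Equiv.symm_apply_apply]
  have hsep : ∀ j j', j ≠ j' → SepPt S (f j).1 (f j).2 (f j').1 (f j').2 := fun j j' hjj =>
    not_not.1 (hT₁u _ (hfT j) _ (hfT j') (hfi j j' hjj))
  choose N hN N' hN' hNN using hsep
  have hr : ∀ j, ∃ r : ℝ, 0 < r ∧ r ≤ r₀ (f j).1 (f j).2 ∧ closedBall (f j).2 r ⊆ S.D (f j).1 ∧ closedBall (f j).2 r ⊆ {x | x ≠ (f j).2 → Reg S Ra (f j).1 x} ∧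
      (∀ j', ∀ h : j ≠ j', closedBall (f j).2 r ⊆ N j j' h) ∧ ∀ j', ∀ h : j' ≠ j, closedBall (f j).2 r ⊆ N' j' j h := fun j => by
    have hD := CovA_cpD (hcpT _ (hfT j))
    have h1 : ∀ᶠ r in 𝓝[>] (0 : ℝ), 0 < r := self_mem_nhdsWithin
    have h2 : ∀ᶠ r in 𝓝[>] (0 : ℝ), r ≤ r₀ (f j).1 (f j).2 := nhdsWithin_le_nhds (Iic_mem_nhds (h₀ _ _ hD))
    have h3 : ∀ V ∈ 𝓝 (f j).2, ∀ᶠ r in 𝓝[>] (0 : ℝ), closedBall (f j).2 r ⊆ V := fun V hV => (eventually_closedBall_subset hV).filter_mono nhdsWithin_le_nhds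
    have h4 : {x | x ≠ (f j).2 → Reg S Ra (f j).1 x} ∈ 𝓝 (f j).2 := by
      have := hreg _ _ hD
      rw [eventually_nhdsWithin_iff] at this
      exact this
    have h5 : ∀ᶠ r in 𝓝[>] (0 : ℝ), ∀ j', ∀ h : j ≠ j', closedBall (f j).2 r ⊆ N j j' h := by
      rw [eventually_all]
      intro j'
      by_cases h : j ≠ j'
      · filter_upwards [h3 _ (hN j j' h)] with r hr _
        exact hr
      · exact Eventually.of_forall fun _ h' => absurd h' h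
    have h6 : ∀ᶠ r in 𝓝[>] (0 : ℝ), ∀ j', ∀ h : j' ≠ j, closedBall (f j).2 r ⊆ N' j' j h := by
      rw [eventually_all]
      intro j'
      by_cases h : j' ≠ j
      · filter_upwards [h3 _ (hN' j' j h)] with r hr _
        exact hr
      · exact Eventually.of_forall fun _ h' => absurd h' h
    exact (h1.and (h2.and ((h3 _ ((CovA_Do _).mem_nhds hD)).and ((h3 _ h4).and (h5.and h6))))).exists
  choose r hr0 hr1 hr2 hr3 hr4 hr5 using hr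
  refine ⟨⟨n, fun j => (f j).1, fun j => (f j).2, r, fun j => r j / 2, fun j => half_pos (hr0 j), fun j => half_lt_self (hr0 j), fun j => hcpT _ (hfT j),
    hr2, fun j x hx hxn => hr3 j hx hxn, hr1, ?_, ↑T₀, fun b hb => hTC b hb, ?_, ?_⟩⟩
  · intro F hF Y j j' hjj z hz hz1 hz' hz1'
    exact hNN j j' hjj F hF Y z hz (hr4 j j' hjj hz1) hz' (hr5 j' j hjj hz1')
  · rintro i x hx ⟨a, q, hq, hqx, hn⟩
    have h1 : (i, x) ∈ SP := by
      rw [hSP]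
      exact ⟨hx, a, q, hq, hqx, hn⟩
    obtain ⟨b, hb, h2⟩ := hT₀m _ ((Set.Finite.mem_toFinset hSPf).2 h1)
    refine ⟨b, hb, ?_⟩
    rcases h2 with h2 | h2 | h2
    · rw [← h2]
      exact (X.refl i x (X.C_sub i hx) x (X.C_sub i hx)).2 rfl
    · exact h2
    · exact X.symm _ _ _ _ (X.C_sub _ (hTC b hb)) (X.C_sub i hx) h2
  · rintro ⟨i, y⟩ hb a q hq hqy hn
    have h1 : ((⟨i, a⟩ : S.ι), q) ∈ PP := by
      rw [hPP]
      refine ⟨?_, hq, hn⟩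
      change (i, S.κ ⟨i, a⟩ q) ∈ T₀
      rw [hqy]
      exact hb
    obtain ⟨p, hp, h2⟩ := hT₁m _ ((Set.Finite.mem_toFinset hPPf).2 h1)
    have hqD : q ∈ S.D ⟨i, a⟩ := CovA_D.2 (by
      change S.κ ⟨i, a⟩ q ∈ X.B i
      rw [hqy]
      exact X.C_sub i (hTC _ hb))
    refine ⟨e ⟨p, hp⟩, ?_⟩
    have hpe := hfe p hp
    have hr0' := hr0 (e ⟨p, hp⟩)
    simp only [hpe]
    by_cases h3 : ((⟨i, a⟩ : S.ι), q) = p
    · obtain rfl : p = ((⟨i, a⟩ : S.ι), q) := h3.symm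
      exact ⟨ball q (r (e ⟨_, hp⟩) / 2), ball_mem_nhds _ (half_pos hr0'), fun F hF Y z hz hz1 => ⟨hz, hz1⟩⟩
    have h4 : ¬ SepPt S ⟨i, a⟩ q p.1 p.2 := by
      rcases h2 with h2 | h2 | h2
      · exact absurd h2 h3
      · exact h2
      · exact fun h5 => h2 h5.symm
    obtain ⟨⟨i', a'⟩, q'⟩ := p
    have hpD : q' ∈ S.D ⟨i', a'⟩ := CovA_cpD (hcpT _ hp)
    have h5 : (i, y) = (i', S.κ ⟨i', a'⟩ q') := by
      by_contra h5
      refine h4 (CovA_sep hL hqD hpD ?_)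
      have h6 := hT₀u _ hb _ (hT₁P _ hp).1 h5
      change ¬ X.rel i (S.κ ⟨i, a⟩ q) i' (S.κ ⟨i', a'⟩ q')
      rw [hqy]
      exact h6
    obtain rfl : i = i' := (Prod.ext_iff.1 h5).1
    rcases hav i a a' q q' hqD hpD with h6 | ⟨Φ, hΦ, hΦq, V, hV, h6⟩
    · exact absurd h6 h4
    · have h7 : Φ ⁻¹' (ball q' (r (e ⟨(⟨i, a'⟩, q'), hp⟩) / 2)) ∈ 𝓝 q := by
        refine hΦ.continuousAt.preimage_mem_nhds ?_
        rw [hΦq]
        exact ball_mem_nhds _ (half_pos hr0')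
      refine ⟨V ∩ Φ ⁻¹' (ball q' (r (e ⟨(⟨i, a'⟩, q'), hp⟩) / 2)), inter_mem hV h7, fun F hF Y z hz hz1 => ?_⟩
      obtain ⟨h8, h9⟩ := h6 F hF Y z hz hz1.1
      refine ⟨h8, ?_⟩
      rw [h9]
      exact hz1.2

/-! ### the polydiscs `N` -/

/-- a polydisc in the box `i` with center `y` -/
structure NDat {r₀ : S.ι → ℂ × ℂ → ℝ} (D : PPart S Ra r₀) (i : X.ι) (y : ℂ × ℂ) where
  t : ℝ
  u : Option (ℂ × ℂ → ℂ)
  K : (S.V i).ι → Set (ℂ × ℂ)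
  t_pos : 0 < t
  sub : closedBall y t ⊆ X.B i
  eqn : ∀ u', u = some u' → closedBall y t ⊆ DS ∧ AnalyticOnNhd ℂ u' (closedBall y t) ∧
    ∀ p ∈ closedBall y t, ∀ᶠ x in 𝓝 p, (eval (X.ρ i x).ofLp Ra = 0 ↔ u' x = 0) ∧ (u' x = 0 → fderiv ℂ u' x ≠ 0)
  K_compact : ∀ a, IsCompact (K a)
  K_A : ∀ a, u = none → ∀ q ∈ K a, RegA S Ra ⟨i, a⟩ q ∧ S.κ ⟨i, a⟩ q ∈ closedBall y t
  K_B : ∀ a u', u = some u' → ∀ q ∈ K a, Reg S Ra ⟨i, a⟩ q ∧ S.κ ⟨i, a⟩ q ∈ closedBall y t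
  lift : ∀ F : ℂ → EN M, WCrv θ RD F → ∀ Y : NCLift X F, ∀ z ∈ Y.U i, Y.p i z ∈ closedBall y t →
    (∀ j, z ∈ S.Om Y (D.ck j) → S.lf Y (D.ck j) z ∉ ball (D.Q j) (D.s j)) → ∃ a, z ∈ S.Om Y ⟨i, a⟩ ∧ S.lf Y ⟨i, a⟩ z ∈ K a

private theorem CovA_NA {r₀ : S.ι → ℂ × ℂ → ℝ} (D : PPart S Ra r₀) (hL : LfHyp S) (hAo : ∀ k q, RegA S Ra k q → ∀ᶠ x in 𝓝 q, RegA S Ra k x)
    {i : X.ι} {x : ℂ × ℂ} (hx : x ∈ X.B i)
    (h : ∀ a, ∀ q ∈ closedBall (0 : ℂ × ℂ) 1, S.κ ⟨i, a⟩ q = x → RegA S Ra ⟨i, a⟩ q ∨ ∃ j, ∃ N ∈ 𝓝 q, ∀ F : ℂ → EN M, WCrv θ RD F →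
      ∀ Y : NCLift X F, ∀ z ∈ S.Om Y ⟨i, a⟩, S.lf Y ⟨i, a⟩ z ∈ N → z ∈ S.Om Y (D.ck j) ∧ S.lf Y (D.ck j) z ∈ ball (D.Q j) (D.s j)) :
    Nonempty (NDat D i x) := by
  classical
  obtain ⟨O, hO⟩ : ∃ O : (S.V i).ι → Set (ℂ × ℂ), O = fun a => interior {q | ∀ F : ℂ → EN M, WCrv θ RD F → ∀ Y : NCLift X F, ∀ z ∈ S.Om Y ⟨i, a⟩,
    S.lf Y ⟨i, a⟩ z = q → ∃ j, z ∈ S.Om Y (D.ck j) ∧ S.lf Y (D.ck j) z ∈ ball (D.Q j) (D.s j)} := ⟨_, rfl⟩
  have hOo : ∀ a, IsOpen (O a) := fun a => by rw [hO]; exact isOpen_interior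
  have h1 : ∀ a, ∀ᶠ t in 𝓝[>] (0 : ℝ), ∀ q ∈ closedBall (0 : ℂ × ℂ) 1, S.κ ⟨i, a⟩ q ∈ closedBall x t → RegA S Ra ⟨i, a⟩ q ∨ q ∈ O a := fun a =>
    CovA_fib (isCompact_closedBall _ _) (CovA_cont _) fun q hq hqx => by
      rcases h a q hq hqx with h2 | ⟨j, N, hN, h2⟩
      · exact (hAo _ _ h2).mono fun _ h => Or.inl h
      · have h3 : q ∈ O a := by
          rw [hO]
          refine mem_interior_iff_mem_nhds.2 ?_
          filter_upwards [hN] with q' hq' F hF Y z hz hzq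
          exact ⟨j, h2 F hF Y z hz (by rw [hzq]; exact hq')⟩
        filter_upwards [(hOo a).mem_nhds h3] with q' hq'
        exact Or.inr hq'
  have h2 : ∀ᶠ t in 𝓝[>] (0 : ℝ), closedBall x t ⊆ X.B i :=
    (eventually_closedBall_subset ((X.isOpen i).mem_nhds hx)).filter_mono nhdsWithin_le_nhds
  have h3 : ∀ᶠ t in 𝓝[>] (0 : ℝ), 0 < t := self_mem_nhdsWithin
  obtain ⟨t, ht, htB, htO⟩ := (h3.and (h2.and (eventually_all.2 h1))).exists
  refine ⟨⟨t, none, fun a => (closedBall (0 : ℂ × ℂ) 1 ∩ (S.κ ⟨i, a⟩) ⁻¹' closedBall x t) \ O a, ht, htB, fun u' hu' => by simp at hu', ?_, ?_, ?_, ?_⟩⟩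
  · intro a
    exact ((isCompact_closedBall _ _).inter_right (isClosed_closedBall.preimage (CovA_cont _))).diff (hOo a)
  · rintro a - q ⟨⟨hq, hqt⟩, hqO⟩
    exact ⟨(htO a q hq hqt).resolve_right hqO, hqt⟩
  · intro a u' hu'
    simp at hu'
  · intro F hF Y z hz hzt hcore
    obtain ⟨a, hza, h4, h5⟩ := hL.cover F hF Y i z hz
    have h6 := (hL.κ_lf F hF Y ⟨i, a⟩ z hza).2
    refine ⟨a, hza, ⟨CovA_ub.2 ⟨h4, h5⟩, ?_⟩, fun h7 => ?_⟩
    · change S.κ ⟨i, a⟩ (S.lf Y ⟨i, a⟩ z) ∈ closedBall x t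
      rw [h6]
      exact hzt
    · rw [hO] at h7
      obtain ⟨j, h8, h9⟩ := interior_subset h7 F hF Y z hza rfl
      exact hcore j h8 h9

private theorem CovA_NB {r₀ : S.ι → ℂ × ℂ → ℝ} (D : PPart S Ra r₀) (hL : LfHyp S) (hRo : ∀ k q, Reg S Ra k q → ∀ᶠ x in 𝓝 q, Reg S Ra k x)
    {i : X.ι} {x : ℂ × ℂ} (hx : x ∈ X.B i) (hxS : x ∈ DS) {u : ℂ × ℂ → ℂ} (hu : AnalyticAt ℂ u x)
    (hu' : ∀ᶠ p in 𝓝 x, (eval (X.ρ i p).ofLp Ra = 0 ↔ u p = 0) ∧ (u p = 0 → fderiv ℂ u p ≠ 0))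
    (h : ∀ a, ∀ q ∈ closedBall (0 : ℂ × ℂ) 1, S.κ ⟨i, a⟩ q = x → Reg S Ra ⟨i, a⟩ q) : Nonempty (NDat D i x) := by
  classical
  have h1 : ∀ a, ∀ᶠ t in 𝓝[>] (0 : ℝ), ∀ q ∈ closedBall (0 : ℂ × ℂ) 1, S.κ ⟨i, a⟩ q ∈ closedBall x t → Reg S Ra ⟨i, a⟩ q := fun a =>
    CovA_fib (isCompact_closedBall _ _) (CovA_cont _) fun q hq hqx => hRo _ _ (h a q hq hqx)
  have h0 : ∀ V ∈ 𝓝 x, ∀ᶠ t in 𝓝[>] (0 : ℝ), closedBall x t ⊆ V := fun V hV => (eventually_closedBall_subset hV).filter_mono nhdsWithin_le_nhds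
  have h3 : ∀ᶠ t in 𝓝[>] (0 : ℝ), 0 < t := self_mem_nhdsWithin
  obtain ⟨t, ht, htB, htS, htu, hte, htR⟩ := (h3.and ((h0 _ ((X.isOpen i).mem_nhds hx)).and ((h0 _ (isOpen_DS.mem_nhds hxS)).and
    ((h0 _ hu.eventually_analyticAt).and ((h0 _ (eventually_eventually_nhds.2 hu')).and (eventually_all.2 h1)))))).exists
  refine ⟨⟨t, some u, fun a => closedBall (0 : ℂ × ℂ) 1 ∩ (S.κ ⟨i, a⟩) ⁻¹' closedBall x t, ht, htB, fun v hv => ?_, ?_, ?_, ?_, ?_⟩⟩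
  · obtain rfl : u = v := Option.some.inj hv
    exact ⟨htS, fun p hp => htu hp, fun p hp => hte hp⟩
  · intro a
    exact (isCompact_closedBall _ _).inter_right (isClosed_closedBall.preimage (CovA_cont _))
  · intro a hv
    simp at hv
  · rintro a v - q ⟨hq, hqt⟩
    exact ⟨htR a q hq hqt, hqt⟩
  · intro F hF Y z hz hzt _
    obtain ⟨a, hza, h4, h5⟩ := hL.cover F hF Y i z hz
    have h6 := (hL.κ_lf F hF Y ⟨i, a⟩ z hza).2
    refine ⟨a, hza, CovA_ub.2 ⟨h4, h5⟩, ?_⟩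
    change S.κ ⟨i, a⟩ (S.lf Y ⟨i, a⟩ z) ∈ closedBall x t
    rw [h6]
    exact hzt

/-- **The cover, from local statements.** -/
theorem exists_cov_aux (hL : LfHyp S) (hreg : ∀ k, ∀ q ∈ S.D k, ∀ᶠ x in 𝓝[≠] q, Reg S Ra k x)
    (hav : ∀ (i : X.ι) (a a' : (S.V i).ι) (q q' : ℂ × ℂ), q ∈ S.D ⟨i, a⟩ → q' ∈ S.D ⟨i, a'⟩ → SepPt S ⟨i, a⟩ q ⟨i, a'⟩ q' ∨
      ∃ Φ : ℂ × ℂ → ℂ × ℂ, AnalyticAt ℂ Φ q ∧ Φ q = q' ∧ ∃ N ∈ 𝓝 q, ∀ F : ℂ → EN M, WCrv θ RD F → ∀ Y : NCLift X F, ∀ z ∈ S.Om Y ⟨i, a⟩,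
        S.lf Y ⟨i, a⟩ z ∈ N → z ∈ S.Om Y ⟨i, a'⟩ ∧ S.lf Y ⟨i, a'⟩ z = Φ (S.lf Y ⟨i, a⟩ z))
    (hfib : ∀ k, ∀ q ∈ S.D k, q.1 * q.2 ≠ 0 → ∀ᶠ x in 𝓝 q, S.κ k x = S.κ k q → x = q)
    (hAo : ∀ k q, RegA S Ra k q → ∀ᶠ x in 𝓝 q, RegA S Ra k x) (hRo : ∀ k q, Reg S Ra k q → ∀ᶠ x in 𝓝 q, Reg S Ra k x)
    (hU : ∀ k q, RegB S Ra k q → ∃ u : ℂ × ℂ → ℂ, AnalyticAt ℂ u (S.κ k q) ∧
      ∀ᶠ p in 𝓝 (S.κ k q), (eval (X.ρ k.1 p).ofLp Ra = 0 ↔ u p = 0) ∧ (u p = 0 → fderiv ℂ u p ≠ 0))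
    (r₀ : S.ι → ℂ × ℂ → ℝ) (h₀ : ∀ k, ∀ q ∈ S.D k, 0 < r₀ k q) : ∃ C : Cov S Ra, ∀ j, C.r j ≤ r₀ (C.ck j) (C.Q j) := by
  classical
  obtain ⟨D⟩ := exists_PPart hL hreg hav hfib r₀ h₀
  have hex : ∀ i, ∀ x ∈ X.C i, ∃ n : (Σ i' : X.ι, Σ y' : ℂ × ℂ, NDat D i' y'), {x' : ℂ × ℂ | ∀ F : ℂ → EN M, WCrv θ RD F → ∀ Y : NCLift X F,
      ∀ z ∈ Y.U i, Y.p i z = x' → z ∈ Y.U n.1 ∧ Y.p n.1 z ∈ ball n.2.1 (n.2.2.t / 4)} ∈ 𝓝 x := by
    intro i x hx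
    have hxB := X.C_sub i hx
    have hown : ∀ n : NDat D i x, {x' : ℂ × ℂ | ∀ F : ℂ → EN M, WCrv θ RD F → ∀ Y : NCLift X F,
        ∀ z ∈ Y.U i, Y.p i z = x' → z ∈ Y.U i ∧ Y.p i z ∈ ball x (n.t / 4)} ∈ 𝓝 x := fun n => by
      filter_upwards [ball_mem_nhds x (div_pos n.t_pos four_pos)] with x' hx' F hF Y z hz hzx
      exact ⟨hz, by rw [hzx]; exact hx'⟩
    by_cases h1 : ∃ a, ∃ q ∈ closedBall (0 : ℂ × ℂ) 1, S.κ ⟨i, a⟩ q = x ∧ ¬ Reg S Ra ⟨i, a⟩ q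
    · obtain ⟨b, hb, hrel⟩ := D.rep i x hx h1
      have hbB := X.C_sub _ (D.T_mem b hb)
      obtain ⟨n⟩ := CovA_NA D hL hAo hbB fun a q hq hqx => by
        by_cases h2 : RegA S Ra ⟨b.1, a⟩ q
        · exact Or.inl h2
        · exact Or.inr (D.core b hb a q hq hqx h2)
      obtain ⟨Φ, hΦ, hΦx, -, hΦr, -⟩ := X.iso i b.1 x hxB b.2 hbB hrel
      refine ⟨⟨b.1, b.2, n⟩, ?_⟩
      have h3 : Φ ⁻¹' (ball b.2 (n.t / 4)) ∈ 𝓝 x := by
        refine hΦ.continuousAt.preimage_mem_nhds ?_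
        rw [hΦx]
        exact ball_mem_nhds _ (div_pos n.t_pos four_pos)
      filter_upwards [hΦr, h3] with x' h4 h5 F hF Y z hz hzx
      have h6 : Φ x' ∈ X.B b.1 := by
        refine n.sub (closedBall_subset_closedBall ?_ (ball_subset_closedBall h5))
        linarith [n.t_pos]
      obtain ⟨h7, h8⟩ := Y.full i b.1 z hz (Φ x') h6 (by rw [hzx]; exact h4)
      exact ⟨h7, by
        rw [h8]
        exact h5⟩
    · push Not at h1
      by_cases h2 : ∀ a, ∀ q ∈ closedBall (0 : ℂ × ℂ) 1, S.κ ⟨i, a⟩ q = x → RegA S Ra ⟨i, a⟩ q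
      · obtain ⟨n⟩ := CovA_NA D hL hAo hxB fun a q hq hqx => Or.inl (h2 a q hq hqx)
        exact ⟨⟨i, x, n⟩, hown n⟩
      · push Not at h2
        obtain ⟨a, q, hq, hqx, hn⟩ := h2
        have h3 : RegB S Ra ⟨i, a⟩ q := (h1 a q hq hqx).resolve_left hn
        obtain ⟨u, hu, hu'⟩ := hU _ _ h3
        have h4 : S.κ ⟨i, a⟩ q ∈ DS := by
          refine mem_DS.2 ⟨X.sub i (by rw [hqx]; exact hxB), fun h5 => ?_⟩
          exact h3.ne ((CovA_axes _ q).1 h5)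
        rw [hqx] at hu hu' h4
        obtain ⟨n⟩ := CovA_NB D hL hRo hxB h4 hu hu' fun a q hq hqx => h1 a q hq hqx
        exact ⟨⟨i, x, n⟩, hown n⟩
  choose n hn using hex
  have hfin : ∀ i, ∃ t : Finset (X.C i), X.C i ⊆ ⋃ x ∈ t, {x' : ℂ × ℂ | ∀ F : ℂ → EN M, WCrv θ RD F → ∀ Y : NCLift X F,
      ∀ z ∈ Y.U i, Y.p i z = x' → z ∈ Y.U (n i x.1 x.2).1 ∧ Y.p (n i x.1 x.2).1 z ∈ ball (n i x.1 x.2).2.1 ((n i x.1 x.2).2.2.t / 4)} := fun i =>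
    (X.compact i).elim_nhds_subcover' (fun x hx => {x' : ℂ × ℂ | ∀ F : ℂ → EN M, WCrv θ RD F → ∀ Y : NCLift X F,
      ∀ z ∈ Y.U i, Y.p i z = x' → z ∈ Y.U (n i x hx).1 ∧ Y.p (n i x hx).1 z ∈ ball (n i x hx).2.1 ((n i x hx).2.2.t / 4)}) fun x hx => hn i x hx
  choose t ht using hfin
  obtain ⟨k, ⟨e⟩⟩ : ∃ k, Nonempty ((Σ i : X.ι, {x : X.C i // x ∈ t i}) ≃ Fin k) := ⟨_, ⟨Fintype.equivFin _⟩⟩
  obtain ⟨G, hG⟩ : ∃ G : (Σ i : X.ι, {x : X.C i // x ∈ t i}) → (Σ i' : X.ι, Σ y' : ℂ × ℂ, NDat D i' y'), ∀ v, G v = n v.1 v.2.1.1 v.2.1.2 :=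
    ⟨_, fun _ => rfl⟩
  obtain ⟨g, hg⟩ : ∃ g : Fin k → (Σ i' : X.ι, Σ y' : ℂ × ℂ, NDat D i' y'), ∀ j, g j = G (e.symm j) := ⟨_, fun _ => rfl⟩
  refine ⟨{ nP := D.nP
            ck := D.ck
            Q := D.Q
            r := D.r
            s := D.s
            nN := k
            b := fun j => (g j).1
            y := fun j => (g j).2.1
            t := fun j => (g j).2.2.t
            u := fun j => (g j).2.2.u
            s_pos := D.s_pos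
            s_lt := D.s_lt
            Q_mem := D.Q_mem
            P_sub := D.P_sub
            P_reg := D.P_reg
            t_pos := fun j => (g j).2.2.t_pos
            N_sub := fun j => (g j).2.2.sub
            N_B := fun j => (g j).2.2.eqn
            K := fun j => (g j).2.2.K
            K_compact := fun j => (g j).2.2.K_compact
            K_A := fun j => (g j).2.2.K_A
            K_B := fun j => (g j).2.2.K_B
            cover := ?_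
            disj := D.disj
            lift := fun F hF Y j => (g j).2.2.lift F hF Y }, D.r_le⟩
  intro F hF Y z
  obtain ⟨i, hz, hzC⟩ := Y.cover z
  obtain ⟨x, hx, hxz⟩ := Set.mem_iUnion₂.1 (ht i hzC)
  refine ⟨e ⟨i, ⟨x, hx⟩⟩, ?_⟩
  have h1 : g (e ⟨i, ⟨x, hx⟩⟩) = n i x.1 x.2 := by
    rw [hg, Equiv.symm_apply_apply, hG]
  have h2 : ∀ w : (Σ i' : X.ι, Σ y' : ℂ × ℂ, NDat D i' y'), w = n i x.1 x.2 → z ∈ Y.U w.1 ∧ Y.p w.1 z ∈ ball w.2.1 (w.2.2.t / 4) := by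
    rintro w rfl
    exact hxz F hF Y z hz rfl
  exact h2 _ h1

end Pool.Agent.MQ3

end
end

section

/-!
# MQ3 UpN: the upper bound of the potential of a box
-/

set_option autoImplicit false

open Topology Filter Metric MvPolynomial MeasureTheory Laplacian

noncomputable section

namespace Pool.Agent.MQ3

open Pool.Agent.H36.BP (EN fs)
open Pool.Agent.H14.PP (Tan)
open Pool.Agent.H17BP (Surface IsForm)
open Pool.Agent.H17EF (projVar coneE)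

open Pool.Agent.H30M (tau LogSing rhoR)
open Pool.Agent.MQ (lam En ztv dvg gr dv Pack)

variable {M : ℕ} {P : Ideal (MvPolynomial (Fin (M + 1)) ℂ)} {RD : MvPolynomial (Fin (M + 1)) ℂ} {m : ℕ} {X : NCModel P RD} {θ : WDiff (coneE P) m}
  {l : LF M} {S : Web X θ l} {Ra : MvPolynomial (Fin (M + 1)) ℂ} {Wf : EN M → EN M → EN M → ℂ} {mK jH : ℕ}

/-- the section in a parametrization -/
def sec0 (Wf : EN M → EN M → EN M → ℂ) (ρ : ℂ × ℂ → EN M) (p : ℂ × ℂ) : ℂ := Wf (ρ p) (fderiv ℂ ρ p (1, 0)) (fderiv ℂ ρ p (0, 1))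

theorem sec0_an (hW : IsForm (coneE P) mK jH Wf) (X : NCModel P RD) (i : X.ι) {p : ℂ × ℂ} (hp : p ∈ DD) : AnalyticAt ℂ (sec0 Wf (X.ρ i)) p :=
  hW.analytic (X.ρ i) p ((X.box i).an p hp.1.le hp.2.le) ((X.box i).mem p hp.1.le hp.2.le)

theorem sec0_tan {ρ : ℂ × ℂ → EN M} {Y : Set (EN M)} {p : ℂ × ℂ} (hρ : AnalyticAt ℂ ρ p) (hm : ∀ᶠ q in 𝓝 p, ρ q ∈ Y) (w : ℂ × ℂ) :
    fderiv ℂ ρ p w ∈ Pool.Agent.H17BP.Tan Y (ρ p) := by
  have hl : AnalyticAt ℂ (fun s : ℂ => p + s • w) 0 := analyticAt_const.add (analyticAt_id.smul analyticAt_const)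
  have h0 : p + (0 : ℂ) • w = p := by rw [zero_smul, add_zero]
  refine ⟨fun s => ρ (p + s • w), AnalyticAt.fun_comp (g := ρ) (f := fun s : ℂ => p + s • w) (by rw [h0]; exact hρ) hl, ?_, by simp, ?_⟩
  · have h1 : Tendsto (fun s : ℂ => p + s • w) (𝓝 0) (𝓝 p) := by
      have := hl.continuousAt.tendsto
      rwa [h0] at this
    exact h1.eventually hm
  · have h1 : HasFDerivAt ρ (fderiv ℂ ρ p) (p + (0 : ℂ) • w) := by
      rw [h0]
      exact hρ.differentiableAt.hasFDerivAt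
    have h2 : HasDerivAt (fun s : ℂ => p + s • w) w 0 := by
      have h3 : HasDerivAt (fun s : ℂ => s • w) ((1 : ℂ) • w) 0 := (hasDerivAt_id (0 : ℂ)).smul_const w
      rw [one_smul] at h3
      exact h3.const_add p
    exact (h1.comp_hasDerivAt (0 : ℂ) h2).deriv

/-- the weight and the section -/
theorem wt_sec0 (hW : IsForm (coneE P) mK jH Wf) {F : ℂ → EN M} (Y : NCLift X F) (i : X.ι) {z : ℂ} (hz : z ∈ Y.U i) :
    ∃ c : ℂ, c ≠ 0 ∧ F z = c • X.ρ i (Y.p i z) ∧ c ^ jH * wt Wf Y i z = sec0 Wf (X.ρ i) (Y.p i z) := by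
  have h : ∃ c : ℂ, c ≠ 0 ∧ F z = c • X.ρ i (Y.p i z) := Y.eq i z hz
  have hc : cf Y i z = h.choose := by
    unfold cf
    rw [dif_pos h]
  obtain ⟨h1, h2⟩ := h.choose_spec
  rw [← hc] at h1 h2
  refine ⟨cf Y i z, h1, h2, ?_⟩
  have hp : Y.p i z ∈ DD := X.sub i (Y.mem i z hz)
  have hρ := (X.box i).an _ hp.1.le hp.2.le
  have hm := (X.box i).mem _ hp.1.le hp.2.le
  unfold wt sec0
  rw [h2]
  exact hW.scale _ hm.self_of_nhds _ (sec0_tan hρ hm _) _ (sec0_tan hρ hm _) _ h1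

theorem norm_vec3_le (a b c : ℂ) : ‖(WithLp.toLp 2 ![a, b, c] : EN 2)‖ ≤ ‖a‖ + ‖b‖ + ‖c‖ := by
  rw [EuclideanSpace.norm_eq, Real.sqrt_le_left (by positivity)]
  have h : (∑ i : Fin (2 + 1), ‖(WithLp.toLp 2 ![a, b, c] : EN 2) i‖ ^ 2) = ‖a‖ ^ 2 + ‖b‖ ^ 2 + ‖c‖ ^ 2 :=
    (Fin.sum_univ_three fun i => ‖(WithLp.toLp 2 ![a, b, c] : EN 2) i‖ ^ 2).trans rfl
  rw [h]
  nlinarith [norm_nonneg a, norm_nonneg b, norm_nonneg c, mul_nonneg (norm_nonneg a) (norm_nonneg b), mul_nonneg (norm_nonneg a) (norm_nonneg c),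
    mul_nonneg (norm_nonneg b) (norm_nonneg c)]

theorem ncpt_bound {K : Set (ℂ × ℂ)} (hK : IsCompact K) {V : Type} [NormedAddCommGroup V] {f : ℂ × ℂ → V} (hf : ContinuousOn f K) :
    ∃ C : ℝ, 0 ≤ C ∧ ∀ p ∈ K, ‖f p‖ ≤ C := by
  obtain ⟨C, hC⟩ := hK.exists_bound_of_continuousOn hf
  exact ⟨max C 0, le_max_right _ _, fun p hp => (hC p hp).trans (le_max_left _ _)⟩

/-- the vector of a box is bounded by the velocity -/
theorem hN_le (C : Cov S Ra) (k : Fin C.nN) : ∃ C₁ : ℝ, 0 ≤ C₁ ∧ ∀ p ∈ closedBall (C.y k) (C.t k), ∀ w, ‖C.H k p w‖ ≤ C₁ * ‖w‖ := by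
  have hsub : ∀ p ∈ closedBall (C.y k) (C.t k), p ∈ DD := fun p hp => X.sub _ (C.N_sub k hp)
  unfold Cov.H
  rcases hu : C.u k with _ | u
  · refine ⟨2, by norm_num, fun p hp w => ?_⟩
    show ‖hA p w‖ ≤ 2 * ‖w‖
    unfold hA
    refine (norm_vec3_le _ _ _).trans ?_
    have h1 := (hsub p hp).1.le
    have h2 := (hsub p hp).2.le
    have e1 : ‖w.1‖ ≤ ‖w‖ := norm_fst_le w
    have e2 : ‖w.2‖ ≤ ‖w‖ := norm_snd_le w
    rw [norm_mul, norm_mul, norm_zero, add_zero]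
    have e3 : ‖p.2‖ * ‖w.1‖ ≤ 1 * ‖w‖ := mul_le_mul h2 e1 (norm_nonneg _) zero_le_one
    have e4 : ‖p.1‖ * ‖w.2‖ ≤ 1 * ‖w‖ := mul_le_mul h1 e2 (norm_nonneg _) zero_le_one
    linarith
  · obtain ⟨-, hua, -⟩ := C.N_B k u hu
    obtain ⟨A, hA, hA'⟩ := ncpt_bound (isCompact_closedBall (C.y k) (C.t k)) (f := u) fun p hp => (hua p hp).continuousAt.continuousWithinAt
    obtain ⟨A', hA1, hA1'⟩ := ncpt_bound (isCompact_closedBall (C.y k) (C.t k)) (f := fderiv ℂ u)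
      fun p hp => (hua p hp).fderiv.continuousAt.continuousWithinAt
    refine ⟨A' + A + A, by positivity, fun p hp w => ?_⟩
    show ‖hB u p w‖ ≤ _
    unfold hB
    refine (norm_vec3_le _ _ _).trans ?_
    have e1 : ‖w.1‖ ≤ ‖w‖ := norm_fst_le w
    have e2 : ‖w.2‖ ≤ ‖w‖ := norm_snd_le w
    have e3 : ‖fderiv ℂ u p w‖ ≤ A' * ‖w‖ := (ContinuousLinearMap.le_opNorm _ _).trans (mul_le_mul_of_nonneg_right (hA1' p hp) (norm_nonneg _))
    have e4 : ‖u p * w.1‖ ≤ A * ‖w‖ := by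
      rw [norm_mul]
      exact mul_le_mul (hA' p hp) e1 (norm_nonneg _) hA
    have e5 : ‖u p * w.2‖ ≤ A * ‖w‖ := by
      rw [norm_mul]
      exact mul_le_mul (hA' p hp) e2 (norm_nonneg _) hA
    linarith

/-- the section part of the potential of a box is bounded above -/
theorem sec_le (hW : IsForm (coneE P) mK jH Wf) (C : Cov S Ra) (k : Fin C.nN) : ∃ B : ℝ, ∀ {F : ℂ → EN M} (Y : NCLift X F), ∀ z ∈ Y.U (C.b k),
    Y.p (C.b k) z ∈ closedBall (C.y k) (C.t k) → wt Wf Y (C.b k) z ≠ 0 → 1 / mK * Real.log ‖wt Wf Y (C.b k) z‖ + jH / mK * Real.log ‖F z‖ ≤ B := by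
  have hsub : ∀ p ∈ closedBall (C.y k) (C.t k), p ∈ DD := fun p hp => X.sub _ (C.N_sub k hp)
  obtain ⟨C₀, hC₀, h0⟩ := ncpt_bound (isCompact_closedBall (C.y k) (C.t k)) (f := sec0 Wf (X.ρ (C.b k)))
    fun p hp => (sec0_an hW X _ (hsub p hp)).continuousAt.continuousWithinAt
  obtain ⟨C₂, hC₂, h2⟩ := ncpt_bound (isCompact_closedBall (C.y k) (C.t k)) (f := X.ρ (C.b k))
    fun p hp => ((X.box _).an p (hsub p hp).1.le (hsub p hp).2.le).continuousAt.continuousWithinAt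
  refine ⟨1 / mK * Real.log (1 + C₀) + jH / mK * Real.log (1 + C₂), fun {F} Y z hz hzt hw => ?_⟩
  obtain ⟨c, hc, hF, hs⟩ := wt_sec0 hW Y (C.b k) hz
  have hs0 : sec0 Wf (X.ρ (C.b k)) (Y.p (C.b k) z) ≠ 0 := by
    rw [← hs]
    exact mul_ne_zero (pow_ne_zero _ hc) hw
  have hc0 : 0 < ‖c‖ := norm_pos_iff.2 hc
  have hw0 : 0 < ‖wt Wf Y (C.b k) z‖ := norm_pos_iff.2 hw
  have e1 : Real.log ‖sec0 Wf (X.ρ (C.b k)) (Y.p (C.b k) z)‖ = jH * Real.log ‖c‖ + Real.log ‖wt Wf Y (C.b k) z‖ := by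
    rw [← hs, norm_mul, norm_pow, Real.log_mul (pow_pos hc0 _).ne' hw0.ne', Real.log_pow]
  have e2 : Real.log ‖sec0 Wf (X.ρ (C.b k)) (Y.p (C.b k) z)‖ ≤ Real.log (1 + C₀) :=
    Real.log_le_log (norm_pos_iff.2 hs0) ((h0 _ hzt).trans (by linarith))
  have hm0 : (0 : ℝ) ≤ 1 / mK := by positivity
  have hj0 : (0 : ℝ) ≤ jH / mK := by positivity
  have e3 : Real.log ‖F z‖ - Real.log ‖c‖ ≤ Real.log (1 + C₂) := by
    rcases eq_or_ne (X.ρ (C.b k) (Y.p (C.b k) z)) 0 with h3 | h3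
    · exact absurd h3 (fun h3 => by
        have h4 : X.ρ (C.b k) (Y.p (C.b k) z) ∈ coneE P := ((X.box _).mem _ (hsub _ hzt).1.le (hsub _ hzt).2.le).self_of_nhds
        rw [h3, coneE, Set.mem_preimage, map_zero] at h4
        exact h4.1 rfl)
    · have h4 : 0 < ‖X.ρ (C.b k) (Y.p (C.b k) z)‖ := norm_pos_iff.2 h3
      rw [hF, norm_smul, Real.log_mul hc0.ne' h4.ne', add_sub_cancel_left]
      exact Real.log_le_log h4 ((h2 _ hzt).trans (by linarith))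
  have e4 : 1 / mK * Real.log ‖wt Wf Y (C.b k) z‖ + jH / mK * Real.log ‖F z‖ =
      1 / mK * Real.log ‖sec0 Wf (X.ρ (C.b k)) (Y.p (C.b k) z)‖ + jH / mK * (Real.log ‖F z‖ - Real.log ‖c‖) := by
    rw [e1]
    ring
  rw [e4]
  exact add_le_add (mul_le_mul_of_nonneg_left e2 hm0) (mul_le_mul_of_nonneg_left e3 hj0)

/-- **The upper bound.** -/
theorem up_N (hX : Surface (coneE P)) (hm : 1 ≤ mK) (hW : IsForm (coneE P) mK jH Wf) (C : Cov S Ra) (k : Fin C.nN) :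
    ∃ B : ℝ, ∀ F : ℂ → EN M, RCrv θ RD Ra F → ∀ Y : NCLift X F, WNe Wf Y → ∀ (A : ℝ) (lm : ℂ → ℝ), Dens C Y A lm →
      ∀ z ∈ Y.U (C.b k), Y.p (C.b k) z ∈ ball (C.y k) (C.t k) → ContDiffAt ℝ 2 (eN (C.H k) Wf mK jH Y (C.b k)) z →
        eN (C.H k) Wf mK jH Y (C.b k) z ≤ B + Real.log (1 + lm z) := by
  obtain ⟨C₁, hC₁, hH⟩ := hN_le C k
  obtain ⟨B, hB⟩ := sec_le hW C k
  refine ⟨Real.log (1 + C₁) + B, fun F hF Y hne A lm hl z hz hzt hcd => ?_⟩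
  have hlm : ∀ z, 0 ≤ lm z := fun z => (div_nonneg (Real.sqrt_nonneg _) (sq_nonneg _)).trans (hl.le z)
  have hpt : ∀ w ∈ Y.U (C.b k), Y.p (C.b k) w ∈ ball (C.y k) (C.t k) → wt Wf Y (C.b k) w ≠ 0 →
      eN (C.H k) Wf mK jH Y (C.b k) w ≤ Real.log (1 + C₁) + B + Real.log (1 + lm w) := fun w hw hwt hne0 => by
    have hc := ball_subset_closedBall hwt
    have h1 := hB Y w hw hc hne0
    have h2 : ‖C.H k (Y.p (C.b k) w) (deriv (Y.p (C.b k)) w)‖ ≤ (1 + C₁) * (1 + lm w) := by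
      refine (hH _ hc _).trans ?_
      have h3 : C₁ * ‖deriv (Y.p (C.b k)) w‖ ≤ C₁ * lm w := mul_le_mul_of_nonneg_left (hl.box k w hw hc) hC₁
      nlinarith [hlm w]
    have h3 : Real.log ‖C.H k (Y.p (C.b k) w) (deriv (Y.p (C.b k)) w)‖ ≤ Real.log (1 + C₁) + Real.log (1 + lm w) := by
      rw [← Real.log_mul (by positivity) (by linarith [hlm w])]
      rcases (norm_nonneg (C.H k (Y.p (C.b k) w) (deriv (Y.p (C.b k)) w))).eq_or_lt with h4 | h4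
      · rw [← h4, Real.log_zero]
        exact Real.log_nonneg (by nlinarith [hlm w, mul_nonneg hC₁ (hlm w)])
      · exact Real.log_le_log h4 h2
    unfold eN eH
    linarith
  have hcont : ContinuousAt (fun w => Real.log (1 + C₁) + B + Real.log (1 + lm w)) z :=
    continuousAt_const.add (ContinuousAt.log (continuousAt_const.add hl.cont.continuousAt) (by linarith [hlm z]))
  refine le_of_tendsto_of_tendsto (b := 𝓝[≠] z) (hcd.continuousAt.tendsto.mono_left nhdsWithin_le_nhds) (hcont.tendsto.mono_left nhdsWithin_le_nhds) ?_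
  filter_upwards [hne (C.b k) z hz, nhdsWithin_le_nhds ((Y.isOpen (C.b k)).mem_nhds hz),
    nhdsWithin_le_nhds ((Y.an (C.b k) z hz).continuousAt.eventually (isOpen_ball.mem_nhds hzt))] with w e1 e2 e3
  exact hpt w e2 e3 e1

end Pool.Agent.MQ3

end
end
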