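import Pool.Agent.H94.G6.M102
import Pool.Agent.H94.G6.M112
import Pool.Agent.H94.G6.M132
import Pool.Agent.H94.G6.M162
import Pool.Agent.H94.G6.M163
import Pool.Agent.H94.G6.M90

/-! The parts of this file: MQ.Fin, MQ3.RForm_1, MQ2.Uni, MQ3.AlgR3, SG2.One. -/

section

/-!
# MQ Fin: the entire curves of order two tangent to a reduced foliation of a surface of general type lie in one algebraic curve
-/

set_option autoImplicit false

open Topology Filter Metric MvPolynomial Asymptotics MeasureTheory Laplacian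

noncomputable section

namespace Pool.Agent.MQ

open Pool.Agent.H36.BP (EN fs OrdTwo circle_approx)
open Pool.Agent.H17BP (IsChart IsForm Surface)
open Pool.Agent.H17 (PN VanishesAt HolomorphicInto)
open Pool.Agent.H17EF (projVar coneE)
open Pool.Agent.H13.OT (OrderTwo)
open Pool.Agent.H62.FC (Homog)
open Pool.Agent.H17LG.Variety (FunField)
open Pool.Agent.H30M (tau avg rhoR tau_nonneg)
open Pool.Agent.H14.V (IsLift)

variable {M : ℕ} {P : Ideal (MvPolynomial (Fin (M + 1)) ℂ)} {FF : Set (EN M × EN M)}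

/-! ## the lift -/

/-- from the averages to the characteristic function -/
private theorem fin_ordTwo {N : ℕ} {H : ℂ → EN N} (hH : Differentiable ℂ H) (h0 : ∀ z, H z ≠ 0) {A : ℝ}
    (hA : ∀ r : ℝ, 0 < r → Real.circleAverage (fun z => Real.log ‖H z‖) 0 r ≤ A * (1 + r ^ 2)) : OrdTwo H := by
  have hn : ∀ z, 0 < ‖H z‖ := fun z => norm_pos_iff.2 (h0 z)
  have hlc : Continuous fun z => Real.log ‖H z‖ := hH.continuous.norm.log fun z => (hn z).ne'
  refine ⟨A + 2 + |Real.log ‖H 0‖|, fun r hr => ?_⟩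
  obtain ⟨u, hu, huR⟩ := circle_approx hr (fun z => Real.log ‖H z‖) hlc.continuousOn one_pos
  have hexp : ∀ z, ‖Complex.exp (-u z - 1) • H z‖ = Real.exp (-(u z).re - 1 + Real.log ‖H z‖) := by
    intro z
    rw [norm_smul, Complex.norm_exp, Real.exp_add, Real.exp_log (hn z)]
    simp
  have hup : ∀ z ∈ ball (0 : ℂ) r, ‖Complex.exp (-u z - 1) • H z‖ ≤ 1 := by
    intro z hz
    have hd : DiffContOnCl ℂ (fun z => Complex.exp (-u z - 1) • H z) (ball (0 : ℂ) r) :=
      ((hu.neg.sub_const _).cexp.smul hH).diffContOnCl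
    refine Complex.norm_le_of_forall_mem_frontier_norm_le isBounded_ball hd (fun y hy => ?_)
      (subset_closure hz)
    rw [frontier_ball _ hr.ne'] at hy
    rw [hexp y, Real.exp_le_one_iff]
    have h1 := (abs_le.1 (huR y hy)).1
    linarith
  have hmean : (u 0).re ≤ A * (1 + r ^ 2) + 1 := by
    have h1 : Real.circleAverage (fun z => (u z).re) 0 r = (u 0).re := by
      have h2 : CircleIntegrable u 0 r := hu.continuous.continuousOn.circleIntegrable'
      have h3 := Complex.reCLM.circleAverage_comp_comm h2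
      have h4 : Real.circleAverage u 0 r = u 0 := hu.diffContOnCl.circleAverage
      rw [h4] at h3
      exact h3
    have h5 : Real.circleAverage (fun z => (u z).re) 0 r ≤ Real.circleAverage (fun z => Real.log ‖H z‖ + 1) 0 r := by
      refine Real.circleAverage_mono (Complex.continuous_re.comp hu.continuous).continuousOn.circleIntegrable'
        (hlc.add continuous_const).continuousOn.circleIntegrable' fun z hz => ?_
      rw [abs_of_pos hr] at hz
      have h6 := (abs_le.1 (huR z hz)).2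
      show (u z).re ≤ Real.log ‖H z‖ + 1
      linarith
    have h7 : Real.circleAverage (fun z => Real.log ‖H z‖ + 1) 0 r = Real.circleAverage (fun z => Real.log ‖H z‖) 0 r + 1 := by
      have h8 := Real.circleAverage_add (c := 0) (R := r) hlc.continuousOn.circleIntegrable'
        (continuous_const (y := (1 : ℝ))).continuousOn.circleIntegrable'
      have h9 : Real.circleAverage (fun _ : ℂ => (1 : ℝ)) 0 r = 1 := Real.circleAverage_const _ _ _
      rw [h9] at h8
      exact h8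
    linarith [hA r hr]
  refine ⟨fun z => Complex.exp (-u z - 1) • H z, ?_, hup, ?_, fun z _ => Or.inr ?_⟩
  · exact ((hu.neg.sub_const _).cexp.smul hH).differentiableOn
  · show _ ≤ ‖Complex.exp (-u 0 - 1) • H 0‖
    rw [hexp 0, Real.exp_le_exp]
    have h1 := neg_abs_le (Real.log ‖H 0‖)
    have h2 : 0 ≤ |Real.log ‖H 0‖| := abs_nonneg _
    have h3 : 0 ≤ r ^ 2 := sq_nonneg r
    nlinarith [mul_nonneg h2 h3]
  · refine ⟨(Complex.exp (-u z - 1))⁻¹, inv_ne_zero (Complex.exp_ne_zero _), ?_⟩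
    rw [smul_smul, inv_mul_cancel₀ (Complex.exp_ne_zero _), one_smul]

/-- the growth of an arbitrary lift of a curve of order two -/
theorem growth_of_orderTwo {g : ℂ → PN M} (hg : OrderTwo g) {G : ℂ → EN M} (hG : IsLift G g) :
    ∃ A : ℝ, ∀ r : ℝ, 0 < r → Real.circleAverage (fun z => Real.log ‖G z‖) 0 r ≤ A * (1 + r ^ 2) := by
  obtain ⟨F₀, A, hF, hFg, hA⟩ := hg
  have hF0 : ∀ z, F₀ z ≠ 0 := fun z => (hFg z).1
  obtain ⟨h1, h2, A', hA'⟩ := circleAverage_toLp_le hF hF0 hA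
  have h3 : OrdTwo fun z => (WithLp.toLp 2 (F₀ z) : EN M) := fin_ordTwo h1 h2 hA'
  refine circleAverage_le_of_ordTwo hG.1 (fun z => hG.ne_zero z) (h3.congr fun z => ?_)
  obtain ⟨h4, h5⟩ := hFg z
  obtain ⟨h6, h7⟩ := hG.2 z
  obtain ⟨c, hc, h8⟩ := Pool.Agent.H13.OT.pr_of_mk_eq h6 h4 (h7.symm.trans h5)
  refine ⟨c, hc, ?_⟩
  apply WithLp.ofLp_injective 2
  rw [h8]
  rfl

/-! ## monotonicity in `δ` -/

end Pool.Agent.MQ

end
end

section

/-!
# MQ3 RForm: from lifts to curves in the projective space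

The conclusion of `exists_R_web` for the entire curves `f : ℂ → ℙ^M` which are tangent to a twisted symmetric differential (`TangentW`), or null for a form `G`
(`NullFor G f`: `G (F, F ∧ F') = 0`).
-/

set_option autoImplicit false

open Topology Filter Metric MvPolynomial

noncomputable section

namespace Pool.Agent.MQ3

open Pool.Agent.H36.BP (EN)
open Pool.Agent.H14.PP (Tan)
open Pool.Agent.H14.V (IsLift)
open Pool.Agent.H17 (PN VanishesAt HolomorphicInto)
open Pool.Agent.H17EF (projVar coneE)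
open Pool.Agent.H13.OT (OrderTwo)
open Pool.Agent.H62.FC (Homog)

variable {M : ℕ} {P : Ideal (MvPolynomial (Fin (M + 1)) ℂ)} {X : Set (EN M)} {m : ℕ}

/-- from the lifts to the curves -/
theorem curves_of_lifts (hP : Homog P) {θ : WDiff (coneE P) m} {R : MvPolynomial (Fin (M + 1)) ℂ} {d : ℕ} (hR : R.IsHomogeneous d)
    (h : ∀ F : ℂ → EN M, Differentiable ℂ F → (∀ z, F z ∈ coneE P) →
      (∃ A : ℝ, ∀ r : ℝ, 0 < r → Real.circleAverage (fun z => Real.log ‖F z‖) 0 r ≤ A * (1 + r ^ 2)) → (∃ z w, ∀ c : ℂ, F z ≠ c • F w) →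
      (∀ z, θ.toFun (F z) (deriv F z) = 0) → ∀ z, eval (F z).ofLp R = 0) {f : ℂ → PN M} (hf : OrderTwo f)
    (hfP : ∀ z, f z ∈ projVar P) (hne : ∃ z w, f z ≠ f w) (ht : TangentW θ f) (z : ℂ) : VanishesAt R (f z) := by
  obtain ⟨F, hF, hFt⟩ := ht
  rw [Pool.Agent.H22.WL.vanishesAt_lift hF hR z]
  refine h F hF.1 (fun w => (hF.mem_iff hP w).1 (hfP w)) (Pool.Agent.MQ.growth_of_orderTwo hf hF) ?_ hFt z
  obtain ⟨z, w, hzw⟩ := hne
  refine ⟨z, w, fun c hc => hzw ?_⟩
  obtain ⟨h1, h2⟩ := hF.2 z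
  obtain ⟨h3, h4⟩ := hF.2 w
  rw [h2, h4, Projectivization.mk_eq_mk_iff']
  exact ⟨c, by rw [hc]; rfl⟩

end Pool.Agent.MQ3

end
end

section

/-!
# MQ2 Uni: the tree of an isolated singular point

The tree comes from the formal theorem (`SB.Red`).  With `l` the order of `v` and `P` the tangent form of degree `l + 1`: `e = l - 1`, `ι = 1` if `P ≠ 0`,
`e = l`, `ι = 0` otherwise; this does not depend on the direction.
-/

set_option autoImplicit false

open Topology Filter Metric MvPowerSeries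

noncomputable section

namespace Pool.Agent.MQ2

open SB (R2 cf Ord Jet)

/-! ### the tangent form -/

/-- the leading form at `(1, s)` -/
def lead (A : R2) (l : ℕ) : Polynomial ℂ := ∑ k ∈ Finset.range (l + 1), Polynomial.monomial k (cf A (l - k) k)

/-- the tangent form at `(1, s)` -/
def tang (A B : R2) (l : ℕ) : Polynomial ℂ := lead B l - Polynomial.X * lead A l

theorem coeff_lead (A : R2) (l k : ℕ) : (lead A l).coeff k = if k ≤ l then cf A (l - k) k else 0 := by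
  rw [lead, Polynomial.finsetSum_coeff]
  simp only [Polynomial.coeff_monomial]
  rw [Finset.sum_ite_eq']
  simp only [Finset.mem_range, Nat.lt_succ_iff]

theorem coeff_X_mul_lead (A : R2) (l k : ℕ) :
    (Polynomial.X * lead A l).coeff k = if 1 ≤ k ∧ k ≤ l + 1 then cf A (l + 1 - k) (k - 1) else 0 := by
  cases k with
  | zero => simp
  | succ k =>
    rw [Polynomial.coeff_X_mul, coeff_lead]
    by_cases h : k ≤ l
    · rw [if_pos h, if_pos ⟨by omega, by omega⟩, Nat.add_sub_add_right, Nat.add_sub_cancel]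
    · rw [if_neg h, if_neg (by omega)]

theorem cf_lead {A u : R2} {t : ℂ} {l : ℕ} (hu : X 0 ^ l * u = SB.bl t A) (j : ℕ) : cf u 0 j = (Polynomial.taylor t (lead A l)).coeff j := by
  rw [SB.cf_of_bl hu, Polynomial.taylor_coeff, lead, map_sum, Polynomial.eval_finsetSum, zero_add]
  refine Finset.sum_congr rfl fun k _ => ?_
  rw [Polynomial.hasseDeriv_monomial, Polynomial.eval_monomial]
  ring

theorem cf_tang {A B u w : R2} {t : ℂ} {l : ℕ} (hu : X 0 ^ l * u = SB.bl t A) (hw : X 0 ^ l * w = SB.bl t B) (j : ℕ) :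
    cf (w - (X 1 + C t) * u) 0 j = (Polynomial.taylor t (tang A B l)).coeff j := by
  have h1 : cf ((X 1 + C t) * u) 0 j = (Polynomial.taylor t (Polynomial.X * lead A l)).coeff j := by
    rw [Polynomial.taylor_mul, Polynomial.taylor_X, add_mul, add_mul, SB.cf_add, SB.cf_X1_mul, SB.cf_C_mul, Polynomial.coeff_add,
      Polynomial.coeff_C_mul, ← cf_lead hu]
    congr 1
    cases j with
    | zero => simp
    | succ j => rw [if_pos (by omega), Polynomial.coeff_X_mul, ← cf_lead hu, Nat.add_sub_cancel]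
  rw [SB.cf_sub, h1, cf_lead hw, tang, map_sub, Polynomial.coeff_sub]

theorem dvd_iff_tang {A B u w : R2} {t : ℂ} {l : ℕ} (hu : X 0 ^ l * u = SB.bl t A) (hw : X 0 ^ l * w = SB.bl t B) :
    X 0 ∣ w - (X 1 + C t) * u ↔ tang A B l = 0 := by
  rw [SB.X0_dvd_iff]
  constructor
  · intro h
    have h1 : Polynomial.taylor t (tang A B l) = 0 := Polynomial.ext fun j => by rw [← cf_tang hu hw, h, Polynomial.coeff_zero]
    exact Polynomial.taylor_injective t (by rw [h1, map_zero])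
  · intro h j
    rw [cf_tang hu hw, h, map_zero, Polynomial.coeff_zero]

theorem coeff_tang (A B : R2) (l k : ℕ) : (tang A B l).coeff k =
    (if k ≤ l then cf B (l - k) k else 0) - if 1 ≤ k ∧ k ≤ l + 1 then cf A (l + 1 - k) (k - 1) else 0 := by
  rw [tang, Polynomial.coeff_sub, coeff_lead, coeff_X_mul_lead]

theorem tang_sw (A B : R2) (l : ℕ) : tang (SB.sw B) (SB.sw A) l = 0 ↔ tang A B l = 0 := by
  have h1 : ∀ A B : R2, tang A B l = 0 → tang (SB.sw B) (SB.sw A) l = 0 := by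
    intro A B h
    refine Polynomial.ext fun k => ?_
    rw [Polynomial.coeff_zero, coeff_tang, SB.cf_sw, SB.cf_sw]
    by_cases hk : k ≤ l + 1
    · have h2 : (tang A B l).coeff (l + 1 - k) = 0 := by rw [h, Polynomial.coeff_zero]
      rw [coeff_tang] at h2
      by_cases hk0 : k = 0
      · subst hk0
        rw [if_pos (by omega), if_neg (by omega)]
        rw [if_neg (by omega), if_pos (by omega), zero_sub, neg_eq_zero] at h2
        have e1 : l + 1 - (l + 1 - 0) = 0 := by omega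
        have e2 : l + 1 - 0 - 1 = l - 0 := by omega
        rw [e1, e2] at h2
        rw [h2, sub_zero]
      · by_cases hk1 : k = l + 1
        · subst hk1
          rw [if_neg (by omega), if_pos (by omega)]
          rw [if_pos (by omega), if_neg (by omega), sub_zero] at h2
          have e1 : l - (l + 1 - (l + 1)) = l + 1 - 1 := by omega
          rw [e1] at h2
          rw [h2, sub_zero]
        · rw [if_pos (by omega), if_pos (by omega)]
          rw [if_pos (by omega), if_pos (by omega)] at h2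
          have e1 : l - (l + 1 - k) = k - 1 := by omega
          have e2 : l + 1 - (l + 1 - k) = k := by omega
          have e3 : l + 1 - k - 1 = l - k := by omega
          rw [e1, e2, e3] at h2
          rw [← neg_sub, h2, neg_zero]
    · rw [if_neg (by omega), if_neg (by omega), sub_zero]
  refine ⟨fun h => ?_, h1 A B⟩
  have h2 := h1 _ _ h
  rwa [SB.sw_sw, SB.sw_sw] at h2

/-! ### from a formal child to an analytic child -/

theorem be_tendsto (t : ℂ) : Tendsto (be t) (𝓝 0) (𝓝 0) := SB.bt_tendsto t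

theorem line_tendsto : Tendsto (fun y : ℂ => ((0, y) : ℂ × ℂ)) (𝓝 0) (𝓝 0) := by
  have h2 : Continuous fun x : ℂ => ((0, x) : ℂ × ℂ) := by fun_prop
  exact h2.tendsto 0

theorem line_analytic {f : ℂ × ℂ → ℂ} (hf : AnalyticAt ℂ f 0) : AnalyticAt ℂ (fun y : ℂ => f (0, y)) 0 :=
  AnalyticAt.comp (g := f) (f := fun y : ℂ => ((0, y) : ℂ × ℂ)) (x := 0) hf (analyticAt_const.prod analyticAt_id)

/-- a germ whose Taylor series is not divisible by `x` has isolated zeros on `{x = 0}` -/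
theorem line_ne {f : ℂ × ℂ → ℂ} (hf : AnalyticAt ℂ f 0) {A : R2} (hA : Jet f A) (h : ¬ X 0 ∣ A) : ∀ᶠ y in 𝓝[≠] (0 : ℂ), f (0, y) ≠ 0 := by
  refine (line_analytic hf).eventually_eq_zero_or_eventually_ne_zero.resolve_left fun h0 => h ?_
  -- `f = x g`
  rw [SB.X0_dvd_iff]
  intro j
  by_cases hz : ∀ᶠ p in 𝓝 (0 : ℂ × ℂ), f p = 0
  · have h1 : Jet f 0 := SB.jet_zero.congr (by filter_upwards [hz] with p hp; rw [hp])
    rw [hA.unique h1, cf, map_zero]
  obtain ⟨a, g', hg', hgk, hgn⟩ := H22.HF.exists_div hf hz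
  cases a with
  | zero =>
    exfalso
    refine hgn ?_
    filter_upwards [line_tendsto.eventually hgk, h0] with y h1 h2
    have h3 : f (0, y) = g' (0, y) := by rw [h1, pow_zero, one_mul]
    rw [← h3, h2]
  | succ a =>
    obtain ⟨v, hv⟩ := SB.exists_jet hg'
    have h1 : Jet f (X 0 ^ (a + 1) * v) := ((SB.jet_fst_pow (a + 1)).mul hv).congr (by filter_upwards [hgk] with p hp; rw [hp])
    rw [hA.unique h1, SB.cf_X0_pow_mul, if_neg (by omega)]

theorem child_of_formal {v : ℂ × ℂ → ℂ × ℂ} (hv : AnalyticAt ℂ v 0) (hiso : ∀ᶠ p in 𝓝 (0 : ℂ × ℂ), p ≠ 0 → v p ≠ 0) {A B : R2}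
    (hA : Jet (fun p => (v p).1) A) (hB : Jet (fun p => (v p).2) B) {t : ℂ} {e ι : ℕ} {A₁ B₁ : R2} (h1 : X 0 ^ e * A₁ = SB.bl t A)
    (h2 : X 0 ^ (e + 1) * B₁ = SB.bl t B - (X 1 + C t) * SB.bl t A) (h3 : ¬ (X 0 ∣ A₁ ∧ X 0 ∣ B₁))
    (hι : (ι = 1 ∧ X 0 ∣ A₁) ∨ (ι = 0 ∧ ¬ X 0 ∣ A₁)) :
    ∃ w : ℂ × ℂ → ℂ × ℂ, Child e ι t v w ∧ Jet (fun p => (w p).1) A₁ ∧ Jet (fun p => (w p).2) B₁ := by
  have hbe : ∀ p, be t p = SB.bt t p := fun p => rfl
  have ha : AnalyticAt ℂ (fun p => (v p).1) 0 := analyticAt_fst.comp hv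
  have hb : AnalyticAt ℂ (fun p => (v p).2) 0 := analyticAt_snd.comp hv
  have ha' : AnalyticAt ℂ (fun p => (v (be t p)).1) 0 :=
    AnalyticAt.comp (g := fun p => (v p).1) (f := SB.bt t) (by rw [SB.bt_zero]; exact ha) (SB.bt_analytic t 0)
  have hb' : AnalyticAt ℂ (fun p => (v (be t p)).2) 0 :=
    AnalyticAt.comp (g := fun p => (v p).2) (f := SB.bt t) (by rw [SB.bt_zero]; exact hb) (SB.bt_analytic t 0)
  have hJa : Jet (fun p => (v (be t p)).1) (X 0 ^ e * A₁) := by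
    rw [h1]
    exact hA.bl t
  have hJb : Jet (fun p => (v (be t p)).2 - (p.2 + t) * (v (be t p)).1) (X 0 ^ (e + 1) * B₁) := by
    rw [h2]
    exact (hB.bl t).sub ((SB.jet_snd.add (SB.jet_const t)).mul (hA.bl t))
  obtain ⟨a₁, h4, h5, h6⟩ := hJa.exists_div ha'
  obtain ⟨b₁, h7, h8, h9⟩ := hJb.exists_div (hb'.sub ((analyticAt_snd.add analyticAt_const).mul ha'))
  have hsnd : ∀ᶠ p in 𝓝 (0 : ℂ × ℂ), (v (be t p)).2 = (p.2 + t) * (v (be t p)).1 + p.1 ^ (e + 1) * b₁ p := by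
    filter_upwards [h8] with p hp
    have hp' : (v (be t p)).2 - (p.2 + t) * (v (be t p)).1 = p.1 ^ (e + 1) * b₁ p := hp
    rw [← hp']
    ring
  refine ⟨fun p => (a₁ p, b₁ p), ⟨h4.prod h7, h5, hsnd, ?_, ?_⟩, h6, h9⟩
  · -- isolated zeros
    have hline : ∀ᶠ y in 𝓝[≠] (0 : ℂ), ((a₁ (0, y), b₁ (0, y)) : ℂ × ℂ) ≠ 0 := by
      by_cases hd : X 0 ∣ A₁
      · have hd' : ¬ X 0 ∣ B₁ := fun h => h3 ⟨hd, h⟩
        filter_upwards [line_ne h7 h9 hd'] with y hy h
        exact hy (congrArg Prod.snd h)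
      · filter_upwards [line_ne h4 h6 hd] with y hy h
        exact hy (congrArg Prod.fst h)
    rw [eventually_nhdsWithin_iff] at hline
    have hline' : ∀ᶠ p in 𝓝 (0 : ℂ × ℂ), p.2 ≠ 0 → ((a₁ (0, p.2), b₁ (0, p.2)) : ℂ × ℂ) ≠ 0 := by
      have h10 : Tendsto (fun p : ℂ × ℂ => p.2) (𝓝 0) (𝓝 0) := by
        simpa using (continuous_snd (X := ℂ) (Y := ℂ)).tendsto (0 : ℂ × ℂ)
      filter_upwards [h10.eventually hline] with p hp hp2
      exact hp hp2
    filter_upwards [hline', h5, hsnd, (be_tendsto t).eventually hiso] with p h10 h11 h12 h13 hp hw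
    by_cases hp1 : p.1 = 0
    · have hp2 : p.2 ≠ 0 := fun h => hp (Prod.ext hp1 h)
      refine h10 hp2 ?_
      have h14 : ((0, p.2) : ℂ × ℂ) = p := Prod.ext hp1.symm rfl
      rw [h14]
      exact hw
    · have h15 : be t p ≠ 0 := fun h => hp1 (congrArg Prod.fst h)
      refine h13 h15 ?_
      have h16 : a₁ p = 0 := congrArg Prod.fst hw
      have h17 : b₁ p = 0 := congrArg Prod.snd hw
      have h18 : (v (be t p)).1 = 0 := by rw [h11, h16, mul_zero]
      refine Prod.ext h18 ?_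
      rw [h12, h18, h17, mul_zero, mul_zero, add_zero]
      rfl
  · rcases hι with ⟨hι, hd⟩ | ⟨hι, hd⟩
    · exact Or.inl ⟨hι, h6.restrict h4 ((SB.X0_dvd_iff _).1 hd)⟩
    · exact Or.inr ⟨hι, line_ne h4 h6 hd⟩

/-- `e` and `ι` are the same for all directions -/
theorem exists_children {A B : R2} {l : ℕ} (hl : 1 ≤ l) (ha : Ord l A) (hb : Ord l B) (hn : ¬ (Ord (l + 1) A ∧ Ord (l + 1) B)) {t : ℂ} :
    ∃ A₁ B₁ : R2, (X 0 ^ (if tang A B l = 0 then l else l - 1) * A₁ = SB.bl t A) ∧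
      (X 0 ^ ((if tang A B l = 0 then l else l - 1) + 1) * B₁ = SB.bl t B - (X 1 + C t) * SB.bl t A) ∧ ¬ (X 0 ∣ A₁ ∧ X 0 ∣ B₁) ∧
      (((if tang A B l = 0 then 0 else 1) = 1 ∧ X 0 ∣ A₁) ∨ ((if tang A B l = 0 then 0 else 1) = 0 ∧ ¬ X 0 ∣ A₁)) := by
  obtain ⟨u, hu⟩ := SB.exists_bl t ha
  obtain ⟨w, hw⟩ := SB.exists_bl t hb
  by_cases hP : tang A B l = 0
  · obtain ⟨c, hc⟩ := (dvd_iff_tang hu hw).2 hP
    have hXu : ¬ X 0 ∣ u := by
      intro h
      refine hn ⟨SB.ord_succ_of_dvd ha hu h, SB.ord_succ_of_dvd hb hw ?_⟩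
      have h1 : w = X 0 * c + (X 1 + C t) * u := by rw [← hc]; ring
      rw [h1]
      exact dvd_add (dvd_mul_right _ _) (h.mul_left _)
    simp only [if_pos hP]
    refine ⟨u, c, hu, ?_, fun h => hXu h.1, Or.inr ⟨trivial, hXu⟩⟩
    rw [← hu, ← hw, pow_succ, mul_assoc, ← hc]
    ring
  · have hXc : ¬ X 0 ∣ w - (X 1 + C t) * u := fun h => hP ((dvd_iff_tang hu hw).1 h)
    simp only [if_neg hP]
    have hl' : l - 1 + 1 = l := by omega
    refine ⟨X 0 * u, w - (X 1 + C t) * u, ?_, ?_, fun h => hXc h.2, Or.inl ⟨trivial, dvd_mul_right _ _⟩⟩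
    · rw [← mul_assoc, ← pow_succ, hl', hu]
    · rw [hl', ← hu, ← hw]
      ring

theorem min_ord {A B : R2} (h : A ≠ 0 ∨ B ≠ 0) : ∃ l, Ord l A ∧ Ord l B ∧ ¬ (Ord (l + 1) A ∧ Ord (l + 1) B) := by
  classical
  have hex : ∃ n, ¬ (Ord n A ∧ Ord n B) := by
    rcases h with h | h
    · obtain ⟨l, -, h2⟩ := SB.exists_ord h
      exact ⟨l + 1, fun h => h2 h.1⟩
    · obtain ⟨l, -, h2⟩ := SB.exists_ord h
      exact ⟨l + 1, fun h => h2 h.2⟩
  have h1 := Nat.find_spec hex
  have h2 : Nat.find hex ≠ 0 := by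
    intro h0
    rw [h0] at h1
    exact h1 ⟨fun i j hij => absurd hij (by omega), fun i j hij => absurd hij (by omega)⟩
  obtain ⟨l, hl⟩ := Nat.exists_eq_succ_of_ne_zero h2
  have h3 : Ord l A ∧ Ord l B := by
    by_contra h3
    have := Nat.find_min' hex h3
    omega
  refine ⟨l, h3.1, h3.2, ?_⟩
  rw [hl] at h1
  exact h1

theorem elem_of_jets {v : ℂ × ℂ → ℂ × ℂ} (hv : AnalyticAt ℂ v 0) {A B : R2} (hA : Jet (fun p => (v p).1) A) (hB : Jet (fun p => (v p).2) B)
    (h : SB.Elem A B) : Elem v := by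
  obtain ⟨h1, h2, l, k, h3, h4, h5, h6⟩ := h
  have hd : DifferentiableAt ℂ v 0 := hv.differentiableAt
  have hf1 : ∀ x, (fderiv ℂ v 0 x).1 = fderiv ℂ (fun p => (v p).1) 0 x := fun x => by
    rw [fderiv.fst hd]
    rfl
  have hf2 : ∀ x, (fderiv ℂ v 0 x).2 = fderiv ℂ (fun p => (v p).2) 0 x := fun x => by
    rw [fderiv.snd hd]
    rfl
  refine ⟨Prod.ext ?_ ?_, l, k, ?_, ?_, h5, h6⟩
  · have := hA.apply_zero
    rw [h1] at this
    exact this
  · have := hB.apply_zero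
    rw [h2] at this
    exact this
  · rw [hf1, hf2, hA.fderiv_fst, hB.fderiv_snd]
    exact h3
  · rw [hf1, hf1, hf2, hf2, hA.fderiv_fst, hA.fderiv_snd, hB.fderiv_fst, hB.fderiv_snd]
    exact h4

/-- the tree of the vector field from the tree of its Taylor series -/
theorem tree_of_red {A B : R2} (h : SB.Red A B) : (A ≠ 0 ∨ B ≠ 0) → ∀ v : ℂ × ℂ → ℂ × ℂ, AnalyticAt ℂ v 0 →
    (∀ᶠ p in 𝓝 (0 : ℂ × ℂ), p ≠ 0 → v p ≠ 0) → Jet (fun p => (v p).1) A → Jet (fun p => (v p).2) B → Tree v := by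
  induction h with
  | reg A B h =>
    intro _ v _ _ hA hB
    refine Tree.reg v fun h0 => ?_
    have h1 : (v 0).1 = cf A 0 0 := hA.apply_zero
    have h2 : (v 0).2 = cf B 0 0 := hB.apply_zero
    rw [h0] at h1 h2
    rcases h with h | h
    · exact h h1.symm
    · exact h h2.symm
  | elem A B h =>
    intro _ v hv _ hA hB
    exact Tree.elem v (elem_of_jets hv hA hB h)
  | blow A B _ _ ih1 ih2 =>
    intro hne v hv hiso hA hB
    by_cases h0 : v 0 = 0
    swap
    · exact Tree.reg v h0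
    have hA0 : cf A 0 0 = 0 := by
      have h1 : (v 0).1 = cf A 0 0 := hA.apply_zero
      rw [h0] at h1
      exact h1.symm
    have hB0 : cf B 0 0 = 0 := by
      have h1 : (v 0).2 = cf B 0 0 := hB.apply_zero
      rw [h0] at h1
      exact h1.symm
    obtain ⟨l, ha, hb, hn⟩ := min_ord hne
    have hl : 1 ≤ l := by
      by_contra hlt
      have hl0 : l = 0 := by omega
      subst hl0
      refine hn ⟨fun i j hij => ?_, fun i j hij => ?_⟩
      · have hi : i = 0 := by omega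
        have hj : j = 0 := by omega
        rw [hi, hj, hA0]
      · have hi : i = 0 := by omega
        have hj : j = 0 := by omega
        rw [hi, hj, hB0]
    have hch : ∀ t : ℂ, ∃ w : ℂ × ℂ → ℂ × ℂ,
        Child (if tang A B l = 0 then l else l - 1) (if tang A B l = 0 then 0 else 1) t v w ∧ Tree w := by
      intro t
      obtain ⟨A₁, B₁, h1, h2, h3, h4⟩ := exists_children (t := t) hl ha hb hn
      obtain ⟨w, h5, h6, h7⟩ := child_of_formal hv hiso hA hB h1 h2 h3 h4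
      have hc : SB.Child t A B A₁ B₁ := ⟨_, h1, h2, h3⟩
      exact ⟨w, h5, ih1 t A₁ B₁ hc (SB.child_ne hc) w h5.an h5.iso h6 h7⟩
    choose w hw hwt using hch
    -- the point at infinity
    have hsw : ∀ q, AnalyticAt ℂ (fun p : ℂ × ℂ => p.swap) q := fun q => analyticAt_snd.prod analyticAt_fst
    have hvs : AnalyticAt ℂ (swv v) 0 := by
      have h1 : AnalyticAt ℂ (fun p : ℂ × ℂ => v p.swap) 0 := AnalyticAt.comp (g := v) (f := fun p : ℂ × ℂ => p.swap) hv (hsw 0)
      exact AnalyticAt.comp (g := fun p : ℂ × ℂ => p.swap) (f := fun p : ℂ × ℂ => v p.swap) (hsw _) h1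
    have hts : Tendsto (fun p : ℂ × ℂ => p.swap) (𝓝 0) (𝓝 0) := by
      have := (continuous_swap (X := ℂ) (Y := ℂ)).tendsto 0
      simpa using this
    have hisos : ∀ᶠ p in 𝓝 (0 : ℂ × ℂ), p ≠ 0 → swv v p ≠ 0 := by
      filter_upwards [hts.eventually hiso] with p hp hp0 h1
      refine hp (fun h2 => hp0 ?_) ?_
      · rw [← p.swap_swap, h2]
        rfl
      · have h3 : (v p.swap).swap = 0 := h1
        rw [← (v p.swap).swap_swap, h3]
        rfl
    have hAs : Jet (fun p => (swv v p).1) (SB.sw B) := hB.sw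
    have hBs : Jet (fun p => (swv v p).2) (SB.sw A) := hA.sw
    obtain ⟨A₂, B₂, h1, h2, h3, h4⟩ := exists_children (t := 0) (A := SB.sw B) (B := SB.sw A) hl (SB.ord_sw.2 hb) (SB.ord_sw.2 ha)
      fun h => hn ⟨SB.ord_sw.1 h.2, SB.ord_sw.1 h.1⟩
    simp only [tang_sw] at h1 h2 h4
    obtain ⟨wi, h5, h6, h7⟩ := child_of_formal hvs hisos hAs hBs h1 h2 h3 h4
    have hc : SB.Child 0 (SB.sw B) (SB.sw A) A₂ B₂ := ⟨_, h1, h2, h3⟩
    exact Tree.blow v _ _ w wi hw h5 hwt (ih2 A₂ B₂ hc (SB.child_ne hc) wi h5.an h5.iso h6 h7)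

theorem tree_of_iso' (hred : ∀ A B : R2, SB.Fin2 A B → SB.Red A B) {v : ℂ × ℂ → ℂ × ℂ} (hv : Iso v) : Tree v := by
  obtain ⟨h1, -, h3⟩ := hv
  have ha : AnalyticAt ℂ (fun p => (v p).1) 0 := analyticAt_fst.comp h1
  have hb : AnalyticAt ℂ (fun p => (v p).2) 0 := analyticAt_snd.comp h1
  obtain ⟨A, hA⟩ := SB.exists_jet ha
  obtain ⟨B, hB⟩ := SB.exists_jet hb
  have hiso : ∀ᶠ p in 𝓝 (0 : ℂ × ℂ), p ≠ 0 → (v p).1 ≠ 0 ∨ (v p).2 ≠ 0 := by
    filter_upwards [h3] with p hp hp0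
    by_contra hcon
    push Not at hcon
    exact hp hp0 (Prod.ext hcon.1 hcon.2)
  obtain ⟨h4, h5⟩ := SB.fin2_of_isolated ha hb hiso hA hB
  exact tree_of_red (hred A B h4) h5 v h1 h3 hA hB

/-- `e` and `ι` do not depend on the direction: with `l` the order of `v` and `P` the tangent form: `e = l - 1`, `ι = 1` if `P ≠ 0`, `e = l`, `ι = 0` otherwise -/
theorem tree_of_iso {v : ℂ × ℂ → ℂ × ℂ} (hv : Iso v) : Tree v := tree_of_iso' SB.red_of_fin2 hv

end Pool.Agent.MQ2

end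
end

section

/-!
# MQ3 AlgR3: the form `Ra` which vanishes on all algebraic separatrices
-/

set_option autoImplicit false

open Topology Filter Metric MvPolynomial MeasureTheory Asymptotics

noncomputable section

namespace Pool.Agent.MQ3

open Pool.Agent.H36.BP (EN fs)
open Pool.Agent.H17EF (projVar coneE)
open Pool.Agent.H17LG.Variety (FunField)
open Pool.Agent.MQ2 (Iso Sep FZero)

variable {M : ℕ} {P : Ideal (MvPolynomial (Fin (M + 1)) ℂ)} {RD : MvPolynomial (Fin (M + 1)) ℂ} {m : ℕ} {X : NCModel P RD} {θ : WDiff (coneE P) m}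
  {l : LF M}

/-- isolated points of a compact set are finitely many -/
theorem finite_of_iso {K : Set (ℂ × ℂ)} (hK : IsCompact K) {Z : Set (ℂ × ℂ)} (h : ∀ q ∈ K, ∀ᶠ x in 𝓝 q, x ≠ q → x ∉ Z) : (K ∩ Z).Finite := by
  by_contra hinf
  obtain ⟨q, hq, hacc⟩ := Set.Infinite.exists_accPt_of_subset_isCompact (s := K ∩ Z) hinf hK Set.inter_subset_left
  rw [accPt_iff_frequently] at hacc
  exact hacc ((h q hq).mono fun x hx h1 => hx h1.1 h1.2.2)

theorem continuous_mono' (w w' : ℕ × ℕ) : Continuous (mono w w') := by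
  unfold mono
  fun_prop

theorem Web.cp_sub_D (S : Web X θ l) (k : S.ι) : S.cp k ⊆ (S.c k).D := by
  rintro q ⟨-, -, h⟩
  have h1 := X.sub _ (X.C_sub _ h)
  exact ⟨h1.1, h1.2⟩

theorem Web.isCompact_cp (S : Web X θ l) (k : S.ι) : IsCompact (S.cp k) := by
  have h1 : IsClosed (S.cp k) := by
    have e1 : IsClosed {q : ℂ × ℂ | ‖q.1‖ ≤ 1} := isClosed_le (continuous_fst.norm) continuous_const
    have e2 : IsClosed {q : ℂ × ℂ | ‖q.2‖ ≤ 1} := isClosed_le (continuous_snd.norm) continuous_const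
    have e3 : IsClosed {q : ℂ × ℂ | S.κ k q ∈ X.C k.1} := (X.compact k.1).isClosed.preimage (continuous_mono' _ _)
    exact e1.inter (e2.inter e3)
  refine (isCompact_closedBall (0 : ℂ × ℂ) 1).of_isClosed_subset h1 ?_
  rintro q ⟨h2, h3, -⟩
  rw [mem_closedBall_zero_iff, Prod.norm_def]
  exact max_le h2 h3

theorem Web.σ_an (S : Web X θ l) (k : S.ι) {q : ℂ × ℂ} (hq : q ∈ S.cp k) : AnalyticAt ℂ (S.σ k) q := by
  have h1 := X.sub _ (X.C_sub _ hq.2.2)
  have h2 : AnalyticAt ℂ (S.κ k) q := by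
    have e1 : AnalyticAt ℂ (fun q : ℂ × ℂ => q.1 ^ (S.c k).w.1 * q.2 ^ (S.c k).w'.1) q := (analyticAt_fst.pow _).mul (analyticAt_snd.pow _)
    have e2 : AnalyticAt ℂ (fun q : ℂ × ℂ => q.1 ^ (S.c k).w.2 * q.2 ^ (S.c k).w'.2) q := (analyticAt_fst.pow _).mul (analyticAt_snd.pow _)
    exact e1.prod e2
  exact AnalyticAt.comp (g := X.ρ k.1) (f := S.κ k) ((X.box k.1).an _ h1.1.le h1.2.le) h2

theorem Web.iso (S : Web X θ l) (k : S.ι) {q : ℂ × ℂ} (hq : q ∈ S.cp k) (h0 : S.v k q = 0) : Iso fun x => S.v k (q + x) := by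
  have hD := S.cp_sub_D k hq
  have ht : Tendsto (fun x : ℂ × ℂ => q + x) (𝓝 0) (𝓝 q) := by
    have : Continuous fun x : ℂ × ℂ => q + x := by fun_prop
    exact this.tendsto' _ _ (add_zero q)
  refine ⟨?_, ?_, ?_⟩
  · have h1 : AnalyticAt ℂ (fun x : ℂ × ℂ => q + x) 0 := analyticAt_const.add analyticAt_id
    exact AnalyticAt.comp_of_eq (f := fun x : ℂ × ℂ => q + x) ((S.c k).v_an q hD) h1 (add_zero q)
  · show S.v k (q + 0) = 0
    rw [add_zero, h0]
  · filter_upwards [ht.eventually ((S.c k).v_iso q hD)] with x hx hx0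
    exact hx fun h => hx0 (by simpa using h)

/-- module AlgR3 -/
theorem exists_Ra [P.IsPrime] {z : Fin 2 → FunField P} (_hz : IsTranscendenceBasis ℂ z) (S : Web X θ l) (m : (ℂ × ℂ → ℂ × ℂ) → ℕ)
    (fam : ∀ v : ℂ × ℂ → ℂ × ℂ, Fin (m v) → ℕ → ℂ → ℂ × ℂ) (hfam : ∀ v, Iso v → ∀ i, Sep v (fam v i)) :
    ∃ (Ra : MvPolynomial (Fin (M + 1)) ℂ) (d : ℕ), Ra.IsHomogeneous d ∧ Ra ∉ P ∧ ∀ k : S.ι, ∀ q ∈ S.cp k, S.v k q = 0 → ∀ i,
      FZero (fam (fun x => S.v k (q + x)) i) (fun x => eval (S.σ k (q + x)).ofLp Ra) ∨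
        ∀ (R' : MvPolynomial (Fin (M + 1)) ℂ) (d' : ℕ), R'.IsHomogeneous d' → R' ∉ P →
          ¬ FZero (fam (fun x => S.v k (q + x)) i) fun x => eval (S.σ k (q + x)).ofLp R' := by
  classical
  have hfin : ∀ k : S.ι, Finite {q : ℂ × ℂ // q ∈ S.cp k ∩ {q | S.v k q = 0}} := fun k => by
    refine (finite_of_iso (S.isCompact_cp k) (Z := {q | S.v k q = 0}) fun q hq => ?_).to_subtype
    filter_upwards [(S.c k).v_iso q (S.cp_sub_D k hq)] with x hx h1
    exact hx h1
  have hF := fun k => Fintype.ofFinite {q : ℂ × ℂ // q ∈ S.cp k ∩ {q | S.v k q = 0}}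
  obtain ⟨R, d, hR, hRP, h⟩ := Pool.Agent.MQ2.exists_alg2 (P := P)
    (ι := Σ k : S.ι, Σ q : {q : ℂ × ℂ // q ∈ S.cp k ∩ {q | S.v k q = 0}}, Fin (m fun x => S.v k (q.1 + x)))
    (fun i x => S.σ i.1 (i.2.1.1 + x)) fun i => fam (fun x => S.v i.1 (i.2.1.1 + x)) i.2.2
  refine ⟨R, d, hR, hRP, fun k q hq h0 i => ?_⟩
  rcases h ⟨k, ⟨q, hq, h0⟩, i⟩ with h1 | ⟨R', d', -, -, ⟨Q, hQ⟩, h2⟩
  · exact Or.inr h1
  · left
    intro N
    have hs := hfam _ (S.iso k hq h0) i
    have h3 : ContinuousAt (fun t => eval (S.σ k (q + fam (fun x => S.v k (q + x)) i N t)).ofLp Q) 0 := by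
      have e1 : ContinuousAt (fun t => q + fam (fun x => S.v k (q + x)) i N t) 0 := continuousAt_const.add (hs.an N).continuousAt
      have e2 : ContinuousAt (S.σ k) (q + fam (fun x => S.v k (q + x)) i N 0) := by
        rw [hs.zero, add_zero]
        exact (S.σ_an k hq).continuousAt
      have e3 : ContinuousAt (fun y : EN M => eval y.ofLp Q) (S.σ k (q + fam (fun x => S.v k (q + x)) i N 0)) :=
        (Pool.Agent.H14.PP.analyticAt_evalEN Q _).continuousAt
      have e4 : ContinuousAt (fun t => S.σ k (q + fam (fun x => S.v k (q + x)) i N t)) 0 :=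
        ContinuousAt.comp (g := S.σ k) (f := fun t => q + fam (fun x => S.v k (q + x)) i N t) e2 e1
      exact ContinuousAt.comp (g := fun y : EN M => eval y.ofLp Q) (f := fun t => S.σ k (q + fam (fun x => S.v k (q + x)) i N t)) e3 e4
    have h4 := (h2 N).mul (h3.isBigO_one ℂ)
    simp only [mul_one] at h4
    refine h4.congr_left fun t => ?_
    show _ = eval (S.σ k (q + fam (fun x => S.v k (q + x)) i N t)).ofLp R
    rw [hQ, map_mul]

end Pool.Agent.MQ3

end
end

section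

/-!
# SG2 One: surfaces with negative curves, one form
-/

set_option autoImplicit false

open Topology Filter Metric MvPolynomial

noncomputable section

namespace Pool.Agent.SG2

open Pool.Agent.H36.BP (EN)
open Pool.Agent.H17BP (Pr Surface IsForm NoZeros IsChart)
open Pool.Agent.H22.W (PseudoLength)
open Pool.Agent.H17EF (coneE)
open Pool.Agent.H36.TB (oC)
open Pool.Agent.UC (RatC)
open Pool.Agent.SY (zer)

variable {N : ℕ}

variable {P : Ideal (MvPolynomial (Fin (N + 1)) ℂ)} {m j : ℕ} {Ω : EN N → EN N → EN N → ℂ} {κ : Type} {Q : κ → MvPolynomial (Fin (N + 1)) ℂ}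
  {e μ : ℕ}

theorem ratCurve_of {X : Set (EN N)} {d : ℕ} {K K' : ℂ → EN N} (h : RatC X d K K') : RatCurve X d K K' := ⟨h.diff, h.diff', h.mem, h.mem', h.rel⟩

theorem RatCurve.ratC {X : Set (EN N)} {d : ℕ} {K K' : ℂ → EN N} (h : RatCurve X d K K') : RatC X d K K' := ⟨h.diff, h.diff', h.mem, h.mem', h.rel⟩

/-- a form in the ideal vanishes on the cone -/
theorem eval_of_mem {Q : MvPolynomial (Fin (N + 1)) ℂ} (hQ : Q ∈ P) {x : EN N} (hx : x ∈ coneE P) : eval x.ofLp Q = 0 :=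
  hx.2 Q hQ

theorem NegSurf.formOff (h : NegSurf P m j Ω Q e μ) {k : κ} (hk : Q k ∉ P) : FormOff P m j Ω (Q k) e where
  one_m := lt_of_le_of_lt (Nat.zero_le _) h.lt
  one_j := h.one_j
  form := h.form
  hom := h.hom k
  pos := h.pos
  not_mem := hk
  noZeros := fun x hx hxT => h.noZeros x hx fun hx2 => hxT ⟨hx, hx2.2 k⟩

theorem NegSurf.trichotomy (h : NegSurf P m j Ω Q e μ) : ∀ x ∈ coneE P, Free P x ∨ SmoothNeg P x ∨ (x ∈ zers P Q ∧ Crossing (coneE P) x) := by
  intro x hx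
  by_cases hxz : ∀ k, eval x.ofLp (Q k) = 0
  · right
    rcases h.loc x ⟨hx, hxz⟩ with ⟨k, σ, τ, hσ, h0, ⟨R, hR, hR0, hred⟩, hdvd, hB⟩ | hC
    · left
      have hk : Q k ∉ P := by
        intro hk
        -- a point of the chart off the curve
        have h1 : ∀ᶠ p in 𝓝 (0 : ℂ × ℂ), p.1 = 0 := by
          filter_upwards [hred, hσ.σ_mem, hR.continuousAt.eventually_ne hR0] with p h2 h3 h4
          rw [eval_of_mem hk h3] at h2
          exact (mul_eq_zero.1 h2.symm).resolve_right h4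
        have h2 : Tendsto (fun z : ℂ => ((z, 0) : ℂ × ℂ)) (𝓝[≠] 0) (𝓝 0) := by
          have : Tendsto (fun z : ℂ => ((z, 0) : ℂ × ℂ)) (𝓝 0) (𝓝 (0, 0)) := (continuous_id.prodMk continuous_const).tendsto 0
          exact this.mono_left nhdsWithin_le_nhds
        obtain ⟨z, hz1, hz2⟩ := ((h2.eventually h1).and self_mem_nhdsWithin).exists
        exact hz2 hz1
      refine ⟨m, j, Ω, Q k, e, μ, σ, τ, ⟨h.formOff hk, hσ, ⟨R, hR, hR0, hred⟩, h.lt, hB, ?_, ?_⟩, h0⟩
      · -- the points near `x`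
        have h1 : ∀ᶠ y in 𝓝 (σ 0), y ∈ coneE P → ∃ c : ℂ, c ≠ 0 ∧ y = c • σ (τ y) := hσ.right
        have hτ : Tendsto τ (𝓝 (σ 0)) (𝓝 0) := by
          have := hσ.τ_an.continuousAt.tendsto
          rwa [hσ.left.self_of_nhds] at this
        filter_upwards [h1, hτ.eventually hred, hτ.eventually hdvd, hτ.eventually (hR.continuousAt.eventually_ne hR0)] with y g1 g2 g3 g4 hy
        obtain ⟨c, hc, g5⟩ := g1 hy.1
        suffices hs : ∀ i, eval y.ofLp (Q i) = 0 by
          obtain ⟨d, K, K', w, h1, h2, h3⟩ := h.cover y ⟨hy.1, hs⟩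
          exact ⟨d, K, K', w, h1, h2.ratC, h3⟩
        have g6 : eval (σ (τ y)).ofLp (Q k) = 0 := by
          have g7 := hy.2
          rw [g5, WithLp.ofLp_smul] at g7
          have g8 : eval (c • (σ (τ y)).ofLp) (Q k) = c ^ e * eval (σ (τ y)).ofLp (Q k) :=
            Pool.Agent.H17EF.eval_smul_form (h.hom k) c _
          rw [g8] at g7
          exact (mul_eq_zero.1 g7).resolve_left (pow_ne_zero _ hc)
        rw [g2] at g6
        have g7 : (τ y).1 = 0 := (mul_eq_zero.1 g6).resolve_right g4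
        intro i
        rw [g5, WithLp.ofLp_smul]
        have g8 : eval (c • (σ (τ y)).ofLp) (Q i) = c ^ e * eval (σ (τ y)).ofLp (Q i) :=
          Pool.Agent.H17EF.eval_smul_form (h.hom i) c _
        rw [g8, g3 g7 i, mul_zero]
      · intro d K K' hd hjd hK z
        exact (h.rat d K K' hd hjd (ratCurve_of hK) z).2 k
    · exact Or.inr ⟨⟨hx, hxz⟩, hC⟩
  · left
    push Not at hxz
    obtain ⟨k, hk⟩ := hxz
    exact ⟨m, j, Ω, Q k, e, h.formOff fun hkP => hk (eval_of_mem hkP hx), hk⟩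

end Pool.Agent.SG2

end
end
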