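import Pool.Agent.H94.G6.H17EF.Count
import Pool.Agent.H94.G6.M123
import Pool.Agent.H94.G6.M133
import Pool.Agent.H94.G6.M138
import Pool.Agent.H94.G6.M143
import Pool.Agent.H94.G6.M46
import Pool.Agent.H94.G6.M49
import Pool.Agent.H94.G6.M55
import Pool.Agent.H94.G6.M75

/-! The parts of this file: E1.ChowF, E1.Chow, MQ3.Bad_1, MQ3.FolT, MQ3.ThN. -/

section

/-!
# E1 ChowF: a form which vanishes on a set which is covered by finitely many discs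
-/

set_option autoImplicit false

open Topology Filter Metric MvPolynomial

noncomputable section

namespace Pool.Agent.E1

open Pool.Agent.H36.BP (EN)
open Pool.Agent.H14.PP (eval_smulEN analyticAt_evalEN continuous_evalEN)
open Pool.Agent.H17EF (exists_form_of_conditions)
open Pool.Agent.H17LG.Variety (FunField)

variable {N : ℕ}

/-- **Forms on a surface which vanish on finitely many discs and their multiples.** -/
theorem exists_form_of_discs {P : Ideal (MvPolynomial (Fin (N + 1)) ℂ)} [P.IsPrime] {z : Fin 2 → FunField P} (hz : IsTranscendenceBasis ℂ z)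
    (hX : ∃ i, (X i : MvPolynomial (Fin (N + 1)) ℂ) ∉ P) {Z : Set (EN N)} (hZ0 : (0 : EN N) ∉ Z) (hZs : ∀ x ∈ Z, ∀ c : ℂ, c ≠ 0 → c • x ∈ Z)
    {r : ℕ} (γ : Fin r → ℂ → EN N) (hγ : ∀ i, AnalyticOnNhd ℂ (γ i) (closedBall 0 1)) (hγZ : ∀ i, ∀ z ∈ closedBall (0 : ℂ) 1, γ i z ∈ Z)
    (hcov : ∀ x ∈ Z, ∃ i, ∃ z ∈ closedBall (0 : ℂ) (1 / 2), ∃ c : ℂ, c ≠ 0 ∧ γ i z = c • x) :
    ∃ (R : MvPolynomial (Fin (N + 1)) ℂ) (d : ℕ), R.IsHomogeneous d ∧ R ∉ P ∧ ∀ x ∈ Z, eval x.ofLp R = 0 := by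
  obtain ⟨K, hK⟩ := vanish_of_discs hZ0 hZs γ hγ hγZ hcov
  obtain ⟨d, hd, hL⟩ := exists_form_of_conditions hz hX (r * K)
  have han : ∀ (Q : MvPolynomial (Fin (N + 1)) ℂ) (i : Fin r), AnalyticAt ℂ (fun z => eval (γ i z).ofLp Q) 0 := fun Q i =>
    (analyticAt_evalEN Q (γ i 0)).fun_comp (hγ i 0 (mem_closedBall_self zero_le_one))
  -- the linear conditions
  let e : Fin (r * K * d) ≃ Fin r × Fin (K * d) := (finCongr (mul_assoc r K d)).trans finProdFinEquiv.symm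
  let L : MvPolynomial (Fin (N + 1)) ℂ →ₗ[ℂ] (Fin (r * K * d) → ℂ) :=
    { toFun := fun Q t => iteratedDeriv ((e t).2 : ℕ) (fun z => eval (γ (e t).1 z).ofLp Q) 0
      map_add' := by
        intro Q R
        funext t
        have e1 : (fun z => eval (γ (e t).1 z).ofLp (Q + R)) = (fun z => eval (γ (e t).1 z).ofLp Q) + fun z => eval (γ (e t).1 z).ofLp R := by
          funext z; simp
        rw [e1, iteratedDeriv_add (han Q _).contDiffAt (han R _).contDiffAt]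
        rfl
      map_smul' := by
        intro c Q
        funext t
        have e1 : (fun z => eval (γ (e t).1 z).ofLp (c • Q)) = c • fun z => eval (γ (e t).1 z).ofLp Q := by
          funext z; simp [MvPolynomial.smul_eval]
        rw [e1, iteratedDeriv_const_smul (han Q _).contDiffAt]
        rfl }
  obtain ⟨Q, hQ, hQP, hLQ⟩ := hL L
  refine ⟨Q, d, hQ, hQP, hK d hd Q hQ fun i k hk => ?_⟩
  have h1 := congrFun hLQ (e.symm (i, ⟨k, hk⟩))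
  simpa [L] using h1

end Pool.Agent.E1

end
end

section

/-!
# E1 Chow: an analytic curve in an algebraic surface, given locally by one equation, lies in an algebraic curve

`disc_cover` (Disc), `exists_discs` (ChowC), `exists_form_of_discs` (ChowF, ChowS).
-/

set_option autoImplicit false

open Topology Filter Metric MvPolynomial

noncomputable section

namespace Pool.Agent.E1

open Pool.Agent.H36.BP (EN)
open Pool.Agent.H17BP (Surface IsChart LocalEq)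
open Pool.Agent.H17EF (coneE)
open Pool.Agent.H17LG.Variety (FunField)

variable {N : ℕ}

/-- **Chow's theorem** for a curve in the surface which is given locally by one equation. -/
theorem exists_form_of_analytic {P : Ideal (MvPolynomial (Fin (N + 1)) ℂ)} [P.IsPrime] {z : Fin 2 → FunField P} (hz : IsTranscendenceBasis ℂ z)
    (hX : Surface (coneE P)) {Z : Set (EN N)} (hZX : Z ⊆ coneE P) (hZs : ∀ x ∈ Z, ∀ c : ℂ, c ≠ 0 → c • x ∈ Z)
    (hloc : ∀ x ∈ coneE P, ∃ (σ : ℂ × ℂ → EN N) (τ : EN N → ℂ × ℂ) (g : ℂ × ℂ → ℂ), IsChart (coneE P) σ τ ∧ σ 0 = x ∧ LocalEq Z σ g ∧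
      ¬ ∀ᶠ p in 𝓝 (0 : ℂ × ℂ), g p = 0) :
    ∃ (R : MvPolynomial (Fin (N + 1)) ℂ) (d : ℕ), R.IsHomogeneous d ∧ R ∉ P ∧ ∀ x ∈ Z, eval x.ofLp R = 0 := by
  obtain ⟨r, γ, hγ, hγZ, hcov⟩ := exists_discs hX hZX hZs (fun n g hg W hW => disc_cover n hg hW) hloc
  exact exists_form_of_discs hz (Pool.Agent.H62.FC.exists_X_notMem (r := 2) (by norm_num) ⟨z, hz⟩) (fun h => hX.zero (hZX h)) hZs γ hγ hγZ hcov

end Pool.Agent.E1

end
end

section

/-!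
# MQ3 Bad: the points where the slopes of a symmetric differential are not distinct lie in an algebraic curve

`NS θ l x` is the set of the slopes `om l 2 / om l 1` of the null directions of `θ` at `x`.  `GoodPt θ l x`: the two forms are independent, the kernel of the
first is not a null direction, and the number of slopes is locally constant at `x`.  The points of the surface which are not good lie in the zero set of a
form `R` which does not vanish on the surface (`exists_R_good`).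
-/

set_option autoImplicit false

open Topology Filter Metric

noncomputable section

namespace Pool.Agent.MQ3

open Pool.Agent.H36.BP (EN)
open Pool.Agent.H14.PP (Tan)
open Pool.Agent.H17BP (Surface IsChart LocalEq)
open Pool.Agent.H17EF (coneE)
open Pool.Agent.H17LG.Variety (FunField)
open Pool.Agent.E1 (ResL_tan ResL_span ResL_indep ResX_family)

variable {N : ℕ} {X : Set (EN N)} {m : ℕ}

theorem ns_smul (hX : ∀ x ∈ X, ∀ c : ℂ, c ≠ 0 → c • x ∈ X) (θ : WDiff X m) (l : LF N) {x : EN N} {c : ℂ} (hc : c ≠ 0) :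
    NS θ l (c • x) = NS θ l x := by
  have hc2 : c ^ 2 ≠ 0 := pow_ne_zero 2 hc
  ext t
  constructor
  · rintro ⟨v, hv, h1, h2, h3⟩
    have e : v = c • (c⁻¹ • v) := by rw [smul_smul, mul_inv_cancel₀ hc, one_smul]
    rw [e] at hv h1 h2 h3
    have hv' := (tan_smul_iff hX hc).1 hv
    rw [om_smul_smul] at h1 h2
    rw [om_smul_smul] at h2
    rw [θ.scale_eq_zero hv' hc] at h3
    refine ⟨c⁻¹ • v, hv', right_ne_zero_of_mul h1, mul_left_cancel₀ hc2 ?_, h3⟩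
    rw [h2]
    ring
  · rintro ⟨v, hv, h1, h2, h3⟩
    refine ⟨c • v, tan_smul hX hv hc, ?_, ?_, ?_⟩
    · rw [om_smul_smul]
      exact mul_ne_zero hc2 h1
    · rw [om_smul_smul, om_smul_smul, h2]
      ring
    · rw [θ.scale_eq_zero hv hc, h3]

/-- good points form a cone -/
theorem goodPt_smul (hX : ∀ x ∈ X, ∀ c : ℂ, c ≠ 0 → c • x ∈ X) {θ : WDiff X m} {l : LF N} {x : EN N} (h : GoodPt θ l x) {c : ℂ} (hc : c ≠ 0) :
    GoodPt θ l (c • x) := by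
  obtain ⟨h1, h2, h3, h4⟩ := h
  refine ⟨ga_smul hX h1 hc, gb_smul hX h2 hc, by rwa [ns_smul hX θ l hc], ?_⟩
  have ht : Tendsto (fun y : EN N => c⁻¹ • y) (𝓝 (c • x)) (𝓝 x) := by
    have h5 : Continuous fun y : EN N => c⁻¹ • y := continuous_const_smul _
    have h6 := h5.tendsto (c • x)
    rwa [smul_smul, inv_mul_cancel₀ hc, one_smul] at h6
  filter_upwards [ht.eventually h4] with y hy hyX
  have h5 := hy (hX y hyX _ (inv_ne_zero hc))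
  rw [ns_smul hX θ l (inv_ne_zero hc)] at h5
  rw [h5, ns_smul hX θ l hc]

theorem goodPt_smul_iff (hX : ∀ x ∈ X, ∀ c : ℂ, c ≠ 0 → c • x ∈ X) {θ : WDiff X m} {l : LF N} {x : EN N} {c : ℂ} (hc : c ≠ 0) :
    GoodPt θ l (c • x) ↔ GoodPt θ l x := by
  refine ⟨fun h => ?_, fun h => goodPt_smul hX h hc⟩
  have := goodPt_smul hX h (inv_ne_zero hc)
  rwa [smul_smul, inv_mul_cancel₀ hc, one_smul] at this

/-! ### in a chart -/

/-- the slopes in a chart -/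
theorem ns_chart {θ : WDiff X m} {l : LF N} {σ : ℂ × ℂ → EN N} {p : ℂ × ℂ} (hT : ∀ v, Tan X (σ p) (fderiv ℂ σ p v))
    (hsp : ∀ w, Tan X (σ p) w → ∃ (v : ℂ × ℂ) (a : ℂ), w = fderiv ℂ σ p v + a • σ p) (hd : dl l σ p ≠ 0) :
    NS θ l (σ p) = {t | θ.toFun (σ p) (fderiv ℂ σ p (v₁ l σ p + t • v₂ l σ p)) = 0} := by
  ext t
  constructor
  · rintro ⟨v, hv, h1, h2, h3⟩
    obtain ⟨w, a, rfl⟩ := hsp v hv
    rw [om_add_smul] at h1 h2
    rw [om_add_smul] at h2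
    rw [θ.add_smul _ _ (hT w)] at h3
    have h4 := dl_smul l σ p w
    rw [h2, mul_comm, ← smul_smul, ← smul_add] at h4
    have h5 : v₁ l σ p + t • v₂ l σ p = ((om l 1 (σ p) (fderiv ℂ σ p w))⁻¹ * dl l σ p) • w := by
      rw [← smul_smul, h4, smul_smul, inv_mul_cancel₀ h1, one_smul]
    show θ.toFun (σ p) (fderiv ℂ σ p (v₁ l σ p + t • v₂ l σ p)) = 0
    rw [h5, map_smul, θ.smul _ _ (hT w), h3, mul_zero]
  · intro h
    refine ⟨fderiv ℂ σ p (v₁ l σ p + t • v₂ l σ p), hT _, ?_, ?_, h⟩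
    · rw [map_add, map_smul, om_add, om_smul, om_v₁_1, om_v₂_1, mul_zero, add_zero]
      exact hd
    · rw [map_add, map_smul, om_add, om_smul, om_v₁_2, om_v₂_2, om_add, om_smul, om_v₁_1, om_v₂_1]
      ring

/-- the data of a chart on a ball: the slopes are the roots of a polynomial whose coefficients are analytic, and off the zeros of `ph` their number is
at most `e`, with equality where `D` is not zero -/
private theorem Bad_ball (hm : 1 ≤ m) (θ : WDiff X m) (l : LF N) {σ : ℂ × ℂ → EN N} {τ : EN N → ℂ × ℂ} (hσ : IsChart X σ τ)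
    (hph : ¬ ∀ᶠ p in 𝓝 (0 : ℂ × ℂ), ph θ l σ p = 0) :
    ∃ (e : ℕ) (f D : ℂ × ℂ → ℂ) (r : ℝ), 0 < r ∧ (¬ ∀ᶠ p in 𝓝 (0 : ℂ × ℂ), D p = 0) ∧ ∀ p ∈ ball (0 : ℂ × ℂ) r,
      AnalyticAt ℂ f p ∧ AnalyticAt ℂ D p ∧ f p = ph θ l σ p ∧ σ p ∈ X ∧ (∀ᶠ y in 𝓝 (σ p), y ∈ X → ∃ c : ℂ, c ≠ 0 ∧ y = c • σ (τ y)) ∧
      ContinuousAt τ (σ p) ∧ τ (σ p) = p ∧ ContinuousAt σ p ∧ ((GA X l (σ p) ∧ GB θ l (σ p)) ↔ ph θ l σ p ≠ 0) ∧
      (ph θ l σ p ≠ 0 → (NS θ l (σ p)).Finite ∧ (NS θ l (σ p)).ncard ≤ e ∧ (D p ≠ 0 ↔ (NS θ l (σ p)).ncard = e)) := by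
  obtain ⟨A, hA, hA'⟩ := exists_fam θ l hσ.σ_an hσ.σ_mem
  have hm' : ¬ ∀ᶠ p in 𝓝 (0 : ℂ × ℂ), (fun (i : Fin (m + 1)) p => (A p).coeff (i : ℕ)) (Fin.last m) p = 0 := by
    intro h
    apply hph
    filter_upwards [h, hA'] with p h1 h2
    rw [ph, ← h2.2.2]
    have h3 : (A p).coeff m = 0 := by simpa using h1
    rw [h3, mul_zero]
  obtain ⟨e, D, -, hD, hD0, hE⟩ := hank (A := fun (i : Fin (m + 1)) p => (A p).coeff (i : ℕ)) (fun i => hA i) hm'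
  have hf : AnalyticAt ℂ (fun p => dl l σ p * (A p).coeff m) 0 := (analyticAt_dl l hσ.σ_an).mul (hA m)
  have hσc : Tendsto σ (𝓝 (0 : ℂ × ℂ)) (𝓝 (σ 0)) := hσ.σ_an.continuousAt.tendsto
  have hr1 : ∀ᶠ p in 𝓝 (0 : ℂ × ℂ), ∀ᶠ y in 𝓝 (σ p), y ∈ X → ∃ c : ℂ, c ≠ 0 ∧ y = c • σ (τ y) :=
    hσc.eventually (eventually_eventually_nhds.2 hσ.right)
  have hr2 : ∀ᶠ p in 𝓝 (0 : ℂ × ℂ), ContinuousAt τ (σ p) :=
    hσc.eventually (hσ.τ_an.eventually_analyticAt.mono fun y hy => hy.continuousAt)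
  obtain ⟨r, hr, h⟩ := Metric.eventually_nhds_iff_ball.1 (hσ.σ_an.eventually_analyticAt.and ((eventually_eventually_nhds.2 hσ.σ_mem).and
    ((ResL_span hσ).and ((ResL_indep hσ).and (hf.eventually_analyticAt.and (hD.eventually_analyticAt.and (hA'.and (hE.and (hr1.and
      (hr2.and hσ.left))))))))))
  refine ⟨e, fun p => dl l σ p * (A p).coeff m, D, r, hr, hD0, fun p hp => ?_⟩
  obtain ⟨h1, h2, h3, h4, h5, h6, ⟨h7, h7', h7''⟩, h8, h9, h10, h11⟩ := h p hp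
  have hT : ∀ v, Tan X (σ p) (fderiv ℂ σ p v) := fun v => ResL_tan h1 h2 v
  refine ⟨h5, h6, by simp only [ph, h7''], h2.self_of_nhds, h9, h10, h11, h1.continuousAt, gab_chart hm hT h3 h4, fun hne => ?_⟩
  have hd : dl l σ p ≠ 0 := left_ne_zero_of_mul hne
  have hA0 : (A p).coeff m ≠ 0 := by
    rw [h7'']
    exact right_ne_zero_of_mul hne
  have hNS : NS θ l (σ p) = {t : ℂ | ∑ i : Fin (m + 1), (A p).coeff (i : ℕ) * t ^ (i : ℕ) = 0} := by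
    rw [ns_chart hT h3 hd]
    ext t
    show θ.toFun (σ p) (fderiv ℂ σ p (v₁ l σ p + t • v₂ l σ p)) = 0 ↔ ∑ i : Fin (m + 1), (A p).coeff (i : ℕ) * t ^ (i : ℕ) = 0
    rw [← h7' t, Polynomial.eval_eq_sum_range' (Nat.lt_succ_of_le h7) t, ← Fin.sum_univ_eq_sum_range (fun j => (A p).coeff j * t ^ j)]
  rw [hNS]
  exact h8 (by simpa using hA0)

/-- the points which are not good are given locally by one equation -/
theorem bad_localEq (hX : Surface X) (hm : 1 ≤ m) (θ : WDiff X m) {l : LF N} (hl : X ⊆ closure {x | x ∈ X ∧ GA X l x ∧ GB θ l x})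
    {σ : ℂ × ℂ → EN N} {τ : EN N → ℂ × ℂ} (hσ : IsChart X σ τ) :
    ∃ g : ℂ × ℂ → ℂ, LocalEq {x | x ∈ X ∧ ¬ GoodPt θ l x} σ g ∧ ¬ ∀ᶠ p in 𝓝 (0 : ℂ × ℂ), g p = 0 := by
  -- `ph` is not identically zero
  have hph : ¬ ∀ᶠ p in 𝓝 (0 : ℂ × ℂ), ph θ l σ p = 0 := by
    intro hcon
    have hσX : σ 0 ∈ X := hσ.σ_mem.self_of_nhds
    have hτ0 : τ (σ 0) = 0 := hσ.left.self_of_nhds
    have hτ : Tendsto τ (𝓝 (σ 0)) (𝓝 0) := by
      have h1 := hσ.τ_an.continuousAt.tendsto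
      rwa [hτ0] at h1
    obtain ⟨y, ⟨hyX, g1, g2⟩, ⟨h1, h2, h3, h4, h5⟩, hyr⟩ := ((mem_closure_iff_frequently.1 (hl hσX)).and_eventually
      ((hτ.eventually (hcon.and (hσ.σ_an.eventually_analyticAt.and ((eventually_eventually_nhds.2 hσ.σ_mem).and
        ((ResL_span hσ).and (ResL_indep hσ)))))).and hσ.right)).exists
    obtain ⟨a, ha, hya⟩ := hyr hyX
    have hT : ∀ v, Tan X (σ (τ y)) (fderiv ℂ σ (τ y) v) := fun v => ResL_tan h2 h3 v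
    have e : σ (τ y) = a⁻¹ • y := by
      conv_rhs => rw [hya]
      rw [smul_smul, inv_mul_cancel₀ ha, one_smul]
    refine (gab_chart hm hT h4 h5).1 ?_ h1
    rw [e]
    exact ⟨ga_smul hX.smul g1 (inv_ne_zero ha), gb_smul hX.smul g2 (inv_ne_zero ha)⟩
  obtain ⟨e, f, D, r, hr, hD0, H⟩ := Bad_ball hm θ l hσ hph
  have hb0 : ball (0 : ℂ × ℂ) r ∈ 𝓝 (0 : ℂ × ℂ) := ball_mem_nhds 0 hr
  have h0 : (0 : ℂ × ℂ) ∈ ball (0 : ℂ × ℂ) r := mem_ball_self hr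
  have hDa : AnalyticOnNhd ℂ D (ball 0 r) := fun q hq => (H q hq).2.1
  have hfa : AnalyticOnNhd ℂ f (ball 0 r) := fun q hq => (H q hq).1
  -- `D` is not identically zero near any point of the ball
  have hDf : ∀ p ∈ ball (0 : ℂ × ℂ) r, ∃ᶠ q in 𝓝 p, D q ≠ 0 := by
    intro p hp hcon
    have h3 : ∀ᶠ q in 𝓝 p, D q = 0 := by
      filter_upwards [hcon] with q hq using not_not.1 hq
    have h4 := hDa.eqOn_zero_of_preconnected_of_eventuallyEq_zero (convex_ball (0 : ℂ × ℂ) r).isPreconnected hp h3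
    apply hD0
    filter_upwards [hb0] with q hq using h4 hq
  refine ⟨fun p => f p * D p, ⟨(hfa 0 h0).mul (hDa 0 h0), ?_⟩, ?_⟩
  · filter_upwards [hb0] with p hp
    obtain ⟨k1, k2, k3, k4, k5, k6, k7, k8, k9, k10⟩ := H p hp
    have hbp : ∀ᶠ q in 𝓝 p, q ∈ ball (0 : ℂ × ℂ) r := isOpen_ball.eventually_mem hp
    have hfp : ph θ l σ p ≠ 0 → ∀ᶠ q in 𝓝 p, ph θ l σ q ≠ 0 := by
      intro h
      rw [← k3] at h
      filter_upwards [k1.continuousAt.eventually_ne h, hbp] with q hq hqb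
      rwa [← (H q hqb).2.2.1]
    constructor
    · rintro ⟨-, hbad⟩
      by_contra hg
      have hf0 : ph θ l σ p ≠ 0 := by
        rw [← k3]
        exact left_ne_zero_of_mul hg
      have hD0' : D p ≠ 0 := right_ne_zero_of_mul hg
      apply hbad
      obtain ⟨g1, g2⟩ := k9.2 hf0
      obtain ⟨n1, n2, n3⟩ := k10 hf0
      refine ⟨g1, g2, n1, ?_⟩
      have ht : Tendsto τ (𝓝 (σ p)) (𝓝 p) := by
        have := k6.tendsto
        rwa [k7] at this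
      filter_upwards [ht.eventually (hbp.and ((hfp hf0).and (k2.continuousAt.eventually_ne hD0'))), k5] with y ⟨hy1, hy2, hy3⟩ hy4 hyX
      obtain ⟨a, ha, hya⟩ := hy4 hyX
      rw [hya, ns_smul hX.smul θ l ha, (((H _ hy1).2.2.2.2.2.2.2.2.2 hy2).2.2.1 hy3), n3.1 hD0']
    · intro hg
      refine ⟨k4, ?_⟩
      rintro ⟨g1, g2, g3, g4⟩
      have hf0 : ph θ l σ p ≠ 0 := k9.1 ⟨g1, g2⟩
      have hD0' : D p = 0 := by
        rcases mul_eq_zero.1 hg with h | h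
        · exact absurd (k3 ▸ h) hf0
        · exact h
      obtain ⟨n1, n2, n3⟩ := k10 hf0
      obtain ⟨q, hq1, hq2, hq3, hq4⟩ := ((hDf p hp).and_eventually (hbp.and ((hfp hf0).and (k8.tendsto.eventually g4)))).exists
      have h5 := hq4 (H q hq2).2.2.2.1
      have h6 := (((H q hq2).2.2.2.2.2.2.2.2.2 hq3).2.2.1 hq1)
      exact n3.2 (h5 ▸ h6) hD0'
  · intro hcon
    -- the product of two functions which are not identically zero
    have hff : ∃ᶠ q in 𝓝 (0 : ℂ × ℂ), f q ≠ 0 := by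
      intro h
      apply hph
      filter_upwards [h, hb0] with q hq hqb
      rw [← (H q hqb).2.2.1]
      exact not_not.1 hq
    obtain ⟨q, hq1, hq2, hq3⟩ := (hff.and_eventually ((eventually_eventually_nhds.2 hcon).and hb0)).exists
    obtain ⟨q', hq1', hq2', hq3'⟩ := ((hDf q hq3).and_eventually (hq2.and ((hfa q hq3).continuousAt.eventually_ne hq1))).exists
    exact mul_ne_zero hq3' hq1' hq2'

/-- **The points which are not good lie in an algebraic curve.** -/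
theorem exists_R_good {P : Ideal (MvPolynomial (Fin (N + 1)) ℂ)} [P.IsPrime] {z : Fin 2 → FunField P} (hz : IsTranscendenceBasis ℂ z)
    (hX : Surface (coneE P)) (hm : 1 ≤ m) (θ : WDiff (coneE P) m)
    (hd : coneE P ⊆ closure {x | x ∈ coneE P ∧ ∃ v, Tan (coneE P) x v ∧ θ.toFun x v ≠ 0}) :
    ∃ (l : LF N) (R : MvPolynomial (Fin (N + 1)) ℂ) (d : ℕ), R.IsHomogeneous d ∧ R ∉ P ∧
      ∀ x ∈ coneE P, MvPolynomial.eval x.ofLp R ≠ 0 → GoodPt θ l x := by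
  obtain ⟨l, hl⟩ := exists_frame hX hm θ hd
  obtain ⟨R, d, hR, hRP, hRZ⟩ := Pool.Agent.E1.exists_form_of_analytic hz hX (Z := {x | x ∈ coneE P ∧ ¬ GoodPt θ l x}) (fun x hx => hx.1)
    (fun x hx c hc => ⟨hX.smul x hx.1 c hc, fun h => hx.2 ((goodPt_smul_iff hX.smul hc).1 h)⟩) (fun x hx => by
      obtain ⟨σ, τ, hσ, h0⟩ := hX.chart x hx
      obtain ⟨g, hg1, hg2⟩ := bad_localEq hX hm θ hl hσ
      exact ⟨σ, τ, g, hσ, h0, hg1, hg2⟩)
  refine ⟨l, R, d, hR, hRP, fun x hx hR0 => ?_⟩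
  by_contra hbad
  exact hR0 (hRZ x ⟨hx, hbad⟩)

end Pool.Agent.MQ3

end
end

section

/-!
# MQ3 FolT: the foliations of two charts at a common point off the axes

`ρ (κ x) = b x • ρ' (κ' (Ψ x))` near `q`, the slopes agree at `q`: then they agree near `q` (`roots_agree`: the slopes are continuous functions with values
in the finite set of the slopes of the null directions), and `DΨ (v) = h • v' ∘ Ψ` with a unit `h`.
-/

set_option autoImplicit false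

open Topology Filter Metric

noncomputable section

namespace Pool.Agent.MQ3

open Pool.Agent.H36.BP (EN)
open Pool.Agent.H14.PP (Tan)

variable {M : ℕ} {X : Set (EN M)} {m : ℕ} {θ : WDiff X m} {l : LF M} {ρ ρ' : ℂ × ℂ → EN M}

/-- continuous functions with values in a finite set of continuous functions with distinct values -/
theorem roots_agree {α : Type*} [TopologicalSpace α] {e : ℕ} {t : Fin e → α → ℂ} {f g : α → ℂ} {q : α} (ht : ∀ k, ContinuousAt (t k) q)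
    (hd : ∀ j k, j ≠ k → t j q ≠ t k q) (hf : ContinuousAt f q) (hg : ContinuousAt g q) (hft : ∀ᶠ x in 𝓝 q, ∃ k, t k x = f x)
    (hgt : ∀ᶠ x in 𝓝 q, ∃ k, t k x = g x) (h : f q = g q) : ∀ᶠ x in 𝓝 q, f x = g x := by
  obtain ⟨k₀, hk₀⟩ := hft.self_of_nhds
  have key : ∀ F : α → ℂ, ContinuousAt F q → F q = t k₀ q → (∀ᶠ x in 𝓝 q, ∃ k, t k x = F x) → ∀ᶠ x in 𝓝 q, F x = t k₀ x := by
    intro F hF hq hFt
    have h1 : ∀ k, k ≠ k₀ → ∀ᶠ x in 𝓝 q, t k x - F x ≠ 0 := by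
      intro k hk
      refine ((ht k).sub hF).eventually_ne ?_
      show t k q - F q ≠ 0
      rw [hq]
      exact sub_ne_zero.2 (hd k k₀ hk)
    have h2 : ∀ᶠ x in 𝓝 q, ∀ k, k ≠ k₀ → t k x - F x ≠ 0 := by
      rw [eventually_all]
      intro k
      by_cases hk : k = k₀
      · exact Eventually.of_forall fun x h => absurd hk h
      · exact (h1 k hk).mono fun x hx _ => hx
    filter_upwards [hFt, h2] with x ⟨k, hk⟩ hx
    by_cases hkk : k = k₀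
    · rw [← hkk]
      exact hk.symm
    · exact absurd (sub_eq_zero.2 hk) (hx k hkk)
  have h1 := key f hf hk₀.symm hft
  have h2 := key g hg (h.symm.trans hk₀.symm) hgt
  filter_upwards [h1, h2] with x hx hx'
  rw [hx, hx']

/-- a branch of the logarithm with a given value -/
theorem exists_pbranch (P : ℂ × ℂ) : ∃ Λ : ℂ × ℂ → ℂ × ℂ, AnalyticAt ℂ Λ (pexp P) ∧ Λ (pexp P) = P ∧ ∀ᶠ y in 𝓝 (pexp P), pexp (Λ y) = y := by
  set p := pexp P with hp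
  have h1 : p.1 ≠ 0 := Complex.exp_ne_zero _
  have h2 : p.2 ≠ 0 := Complex.exp_ne_zero _
  refine ⟨fun q => (Complex.log (q.1 / p.1) + P.1, Complex.log (q.2 / p.2) + P.2), ?_, ?_, ?_⟩
  · have hs1 : p.1 / p.1 ∈ Complex.slitPlane := by rw [div_self h1]; exact Complex.one_mem_slitPlane
    have hs2 : p.2 / p.2 ∈ Complex.slitPlane := by rw [div_self h2]; exact Complex.one_mem_slitPlane
    exact (((analyticAt_fst.div_const).clog hs1).add analyticAt_const).prod (((analyticAt_snd.div_const).clog hs2).add analyticAt_const)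
  · simp [div_self h1, div_self h2]
  · have e1 : ∀ᶠ y : ℂ × ℂ in 𝓝 p, y.1 ≠ 0 := continuous_fst.continuousAt.eventually_ne h1
    have e2 : ∀ᶠ y : ℂ × ℂ in 𝓝 p, y.2 ≠ 0 := continuous_snd.continuousAt.eventually_ne h2
    filter_upwards [e1, e2] with y hy1 hy2
    refine Prod.ext ?_ ?_
    · show Complex.exp (Complex.log (y.1 / p.1) + P.1) = y.1
      have h3 : Complex.exp P.1 = p.1 := rfl
      rw [Complex.exp_add, Complex.exp_log (div_ne_zero hy1 h1), h3, div_mul_cancel₀ _ h1]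
    · show Complex.exp (Complex.log (y.2 / p.2) + P.2) = y.2
      have h3 : Complex.exp P.2 = p.2 := rfl
      rw [Complex.exp_add, Complex.exp_log (div_ne_zero hy2 h2), h3, div_mul_cancel₀ _ h2]

/-- the wedge product with the frame vector of slope `s` -/
theorem wedge_om (l : LF M) (ρ : ℂ × ℂ → EN M) (p w : ℂ × ℂ) (s : ℂ) :
    (v₁ l ρ p + s • v₂ l ρ p).1 * w.2 - (v₁ l ρ p + s • v₂ l ρ p).2 * w.1 = om l 2 (ρ p) (fderiv ℂ ρ p w) - s * om l 1 (ρ p) (fderiv ℂ ρ p w) := by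
  rw [om_chart, om_chart, v₁, v₂]
  simp only [Prod.fst_add, Prod.snd_add, Prod.smul_fst, Prod.smul_snd, smul_eq_mul]
  ring

theorem om_scale (l : LF M) (i : Fin 3) (x w : EN M) (c μ : ℂ) : om l i (c • x) (c • w + μ • x) = c ^ 2 * om l i x w := by
  simp only [om, map_add, map_smul, smul_eq_mul]
  ring

section

variable {W : BoxWeb θ l ρ} {W' : BoxWeb θ l ρ'}

theorem MChart.an_κ (c : MChart W) (q : ℂ × ℂ) : AnalyticAt ℂ c.κ q := analyticAt_mchart c.w.1 c.w'.1 c.w.2 c.w'.2 q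

theorem MChart.κ_DS (c : MChart W) {q : ℂ × ℂ} (hq : q ∈ c.D) (h0 : q.1 * q.2 ≠ 0) : c.κ q ∈ DS := mono_mem_DS hq h0

theorem MChart.pexp_κ (c : MChart W) {P q : ℂ × ℂ} (hP : pexp P = q) : pexp (ln c.w c.w' P) = c.κ q := by
  rw [pexp_ln, hP]
  rfl

theorem MChart.ln_HH (c : MChart W) {P q : ℂ × ℂ} (hP : pexp P = q) (hq : q ∈ c.D) : ln c.w c.w' P ∈ HH := by
  rw [ln_mem_iff, hP]
  exact hq

/-- off the axes the map to the box is a local isomorphism -/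
theorem MChart.inj_κ (c : MChart W) {q : ℂ × ℂ} (h : q.1 * q.2 ≠ 0) (v : ℂ × ℂ) (hv : fderiv ℂ c.κ q v = 0) : v = 0 := by
  have h1 := left_ne_zero_of_mul h
  have h2 := right_ne_zero_of_mul h
  have hd : c.w'.1 * c.w.2 < c.w.1 * c.w'.2 := by
    have h3 := c.pos
    rw [dt] at h3
    have h4 : (c.w.2 : ℤ) * c.w'.1 < c.w.1 * c.w'.2 := by linarith
    have h5 : c.w.2 * c.w'.1 < c.w.1 * c.w'.2 := by exact_mod_cast h4
    rwa [mul_comm c.w'.1]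
  have hj := jac_mchart hd q
  have hj0 : (((c.w.1 * c.w'.2 - c.w'.1 * c.w.2 : ℕ) : ℂ) * q.1 ^ (c.w.1 + c.w.2 - 1) * q.2 ^ (c.w'.1 + c.w'.2 - 1)) ≠ 0 := by
    refine mul_ne_zero (mul_ne_zero ?_ (pow_ne_zero _ h1)) (pow_ne_zero _ h2)
    have : c.w.1 * c.w'.2 - c.w'.1 * c.w.2 ≠ 0 := by omega
    exact_mod_cast this
  set L := fderiv ℂ (mchart c.w.1 c.w'.1 c.w.2 c.w'.2) q with hL
  have hL0 : L v = 0 := hv
  rw [← hj] at hj0
  rw [split_vec] at hL0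
  have e1 : v.1 * (L (1, 0)).1 + v.2 * (L (0, 1)).1 = 0 := congrArg Prod.fst hL0
  have e2 : v.1 * (L (1, 0)).2 + v.2 * (L (0, 1)).2 = 0 := congrArg Prod.snd hL0
  have e3 : v.1 = 0 := by
    have : v.1 * ((L (1, 0)).1 * (L (0, 1)).2 - (L (0, 1)).1 * (L (1, 0)).2) = 0 := by
      linear_combination (L (0, 1)).2 * e1 - (L (0, 1)).1 * e2
    exact (mul_eq_zero.1 this).resolve_right hj0
  have e4 : v.2 = 0 := by
    have : v.2 * ((L (1, 0)).1 * (L (0, 1)).2 - (L (0, 1)).1 * (L (1, 0)).2) = 0 := by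
      linear_combination (L (1, 0)).1 * e2 - (L (1, 0)).2 * e1
    exact (mul_eq_zero.1 this).resolve_right hj0
  exact Prod.ext e3 e4

/-- the directions of the foliation: `om l 2 = s om l 1` -/
theorem MChart.dir_iff (c : MChart W) {q P : ℂ × ℂ} (hP : pexp P = q) (hq : q ∈ c.D) (h0 : q.1 * q.2 ≠ 0) (u : ℂ × ℂ) :
    om l 2 (ρ (c.κ q)) (fderiv ℂ ρ (c.κ q) (fderiv ℂ c.κ q u)) =
      W.T c.k (ln c.w c.w' P) * om l 1 (ρ (c.κ q)) (fderiv ℂ ρ (c.κ q) (fderiv ℂ c.κ q u)) ↔ (c.v q).1 * u.2 - (c.v q).2 * u.1 = 0 := by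
  have hS := c.κ_DS hq h0
  have h1 := c.v_eq P (c.ln_HH hP hq) u
  rw [c.pexp_κ hP, hP] at h1
  have h2 := wedge_om l ρ (c.κ q) (fderiv ℂ c.κ q u) (W.T c.k (ln c.w c.w' P))
  have h3 : sA θ l ρ m (c.κ q) ≠ 0 := W.box.lead_ne W.surf W.hm hS (W.good _ hS).1 (W.good _ hS).2.1
  have h4 : q.1 ^ c.i * q.2 ^ c.j ≠ 0 := mul_ne_zero (pow_ne_zero _ (left_ne_zero_of_mul h0)) (pow_ne_zero _ (right_ne_zero_of_mul h0))
  have h5 : fderiv ℂ (mono c.w c.w') q u = fderiv ℂ c.κ q u := rfl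
  rw [h5, h2] at h1
  constructor
  · intro h
    rw [h, sub_self, mul_zero] at h1
    exact (mul_eq_zero.1 h1.symm).resolve_left h4
  · intro h
    rw [h, mul_zero] at h1
    exact sub_eq_zero.1 ((mul_eq_zero.1 h1).resolve_left h3)

/-- off the axes the vector field has no zeros -/
theorem MChart.v_ne (c : MChart W) {q : ℂ × ℂ} (hq : q ∈ c.D) (h0 : q.1 * q.2 ≠ 0) : c.v q ≠ 0 := by
  intro hv
  have hP : pexp (Complex.log q.1, Complex.log q.2) = q :=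
    Prod.ext (Complex.exp_log (left_ne_zero_of_mul h0)) (Complex.exp_log (right_ne_zero_of_mul h0))
  have hS := c.κ_DS hq h0
  have hinj : Function.Injective (fderiv ℂ c.κ q : ℂ × ℂ →ₗ[ℂ] ℂ × ℂ) := by
    rw [injective_iff_map_eq_zero]
    exact c.inj_κ h0
  have hsur := LinearMap.injective_iff_surjective.1 hinj
  have key : ∀ w : ℂ × ℂ, om l 2 (ρ (c.κ q)) (fderiv ℂ ρ (c.κ q) w) =
      W.T c.k (ln c.w c.w' (Complex.log q.1, Complex.log q.2)) * om l 1 (ρ (c.κ q)) (fderiv ℂ ρ (c.κ q) w) := by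
    intro w
    obtain ⟨u, hu⟩ := hsur w
    have h1 := (c.dir_iff hP hq h0 u).2 (by rw [hv]; simp)
    have h2 : fderiv ℂ c.κ q u = w := hu
    rwa [h2] at h1
  have hd := W.box.dl_ne W.surf hS (W.good _ hS).1
  have h1 := key (v₂ l ρ (c.κ q))
  rw [om_v₂_1, om_v₂_2, mul_zero] at h1
  exact hd h1

/-- **The slopes agree near the point.** -/
theorem slopes_agree (c : MChart W) (c' : MChart W') {q q' : ℂ × ℂ} (hq : q ∈ c.D) (hq' : q' ∈ c'.D) (h0 : q.1 * q.2 ≠ 0)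
    (h0' : q'.1 * q'.2 ≠ 0) {Ψ : ℂ × ℂ → ℂ × ℂ} (hΨ : ContinuousAt Ψ q) (hΨq : Ψ q = q') {b : ℂ × ℂ → ℂ} (hb : ContinuousAt b q) (hb0 : b q ≠ 0)
    (heq : ∀ᶠ x in 𝓝 q, ρ (c.κ x) = b x • ρ' (c'.κ (Ψ x))) {Λ Λ' : ℂ × ℂ → ℂ × ℂ} (hΛ : ContinuousAt Λ q) (hΛe : ∀ᶠ x in 𝓝 q, pexp (Λ x) = x)
    (hΛ' : ContinuousAt Λ' q') (hΛe' : ∀ᶠ x in 𝓝 q', pexp (Λ' x) = x)
    (hs : W.T c.k (ln c.w c.w' (Λ q)) = W'.T c'.k (ln c'.w c'.w' (Λ' q'))) :
    ∀ᶠ x in 𝓝 q, W.T c.k (ln c.w c.w' (Λ x)) = W'.T c'.k (ln c'.w c'.w' (Λ' (Ψ x))) := by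
  have hΨt : Tendsto Ψ (𝓝 q) (𝓝 q') := by
    have := hΨ.tendsto
    rwa [hΨq] at this
  have hD : ∀ᶠ x in 𝓝 q, x ∈ c.D := isOpen_Dm.mem_nhds hq
  have hD' : ∀ᶠ x in 𝓝 q, Ψ x ∈ c'.D := hΨt.eventually (isOpen_Dm.mem_nhds hq')
  have hz : ∀ᶠ x : ℂ × ℂ in 𝓝 q, x.1 * x.2 ≠ 0 := (continuous_fst.mul continuous_snd).continuousAt.eventually_ne h0
  have hz' : ∀ᶠ x in 𝓝 q, (Ψ x).1 * (Ψ x).2 ≠ 0 := hΨt.eventually ((continuous_fst.mul continuous_snd).continuousAt.eventually_ne h0')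
  have he' : ∀ᶠ x in 𝓝 q, pexp (Λ' (Ψ x)) = Ψ x := hΨt.eventually hΛe'
  have hbx : ∀ᶠ x in 𝓝 q, b x ≠ 0 := hb.eventually_ne hb0
  have hcl : ∀ (w w' : ℕ × ℕ), Continuous (ln w w') := fun w w' => by
    unfold ln
    fun_prop
  have hT : ∀ k, ContinuousAt (fun x => W'.T k (ln c'.w c'.w' (Λ' (Ψ x)))) q := by
    intro k
    have h1 : Tendsto (fun x => ln c'.w c'.w' (Λ' (Ψ x))) (𝓝 q) (𝓝 (ln c'.w c'.w' (Λ' q'))) :=
      ((hcl _ _).tendsto _).comp (hΛ'.tendsto.comp hΨt)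
    have h2 : ContinuousAt (W'.T k) (ln c'.w c'.w' (Λ' q')) := (W'.web.an k _ (c'.ln_HH hΛe'.self_of_nhds hq')).continuousAt
    have h3 := h2.tendsto.comp h1
    show Tendsto _ _ (𝓝 (W'.T k (ln c'.w c'.w' (Λ' (Ψ q)))))
    rw [hΨq]
    exact h3
  have hsl : ContinuousAt (fun x => W.T c.k (ln c.w c.w' (Λ x))) q := by
    have h2 : ContinuousAt (W.T c.k) (ln c.w c.w' (Λ q)) := (W.web.an c.k _ (c.ln_HH hΛe.self_of_nhds hq)).continuousAt
    exact h2.tendsto.comp (((hcl _ _).tendsto _).comp hΛ.tendsto)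
  refine roots_agree (t := fun k x => W'.T k (ln c'.w c'.w' (Λ' (Ψ x)))) hT ?_ hsl (hT c'.k) ?_ ?_ ?_
  · intro j k hjk h1
    have h2 : ln c'.w c'.w' (Λ' (Ψ q)) ∈ HH := c'.ln_HH he'.self_of_nhds hD'.self_of_nhds
    exact hjk (W'.web.inj _ h2 _ _ h1)
  · filter_upwards [hD, hD', hz, hz', he', hbx, heq, hΛe] with x a1 a2 a3 a4 a5 a6 a7 a8
    have h1 : W.T c.k (ln c.w c.w' (Λ x)) ∈ NS θ l (ρ (pexp (ln c.w c.w' (Λ x)))) := (W.ns _ (c.ln_HH a8 a1) _).2 ⟨c.k, rfl⟩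
    rw [c.pexp_κ a8, a7, ns_smul W.surf.smul θ l a6, ← c'.pexp_κ a5] at h1
    exact (W'.ns _ (c'.ln_HH a5 a2) _).1 h1
  · exact Eventually.of_forall fun x => ⟨c'.k, rfl⟩
  · show _ = W'.T c'.k (ln c'.w c'.w' (Λ' (Ψ q)))
    rw [hΨq]
    exact hs

/-- **FolT.** The change of charts carries the foliation to the foliation. -/
theorem fol_trans (c : MChart W) (c' : MChart W') {q q' : ℂ × ℂ} (hq : q ∈ c.D) (hq' : q' ∈ c'.D) (h0 : q.1 * q.2 ≠ 0)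
    (h0' : q'.1 * q'.2 ≠ 0) {Ψ : ℂ × ℂ → ℂ × ℂ} (hΨ : AnalyticAt ℂ Ψ q) (hΨq : Ψ q = q') (hinj : ∀ w, fderiv ℂ Ψ q w = 0 → w = 0)
    {b : ℂ × ℂ → ℂ} (hb : AnalyticAt ℂ b q) (hb0 : b q ≠ 0) (heq : ∀ᶠ x in 𝓝 q, ρ (c.κ x) = b x • ρ' (c'.κ (Ψ x))) {P P' : ℂ × ℂ}
    (hP : pexp P = q) (hP' : pexp P' = q') (hs : W.T c.k (ln c.w c.w' P) = W'.T c'.k (ln c'.w c'.w' P')) :
    ∃ h : ℂ × ℂ → ℂ, AnalyticAt ℂ h q ∧ h q ≠ 0 ∧ ∀ᶠ x in 𝓝 q, fderiv ℂ Ψ x (c.v x) = h x • c'.v (Ψ x) := by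
  obtain ⟨Λ, hΛ, hΛP, hΛe⟩ := exists_pbranch P
  obtain ⟨Λ', hΛ', hΛP', hΛe'⟩ := exists_pbranch P'
  rw [hP] at hΛ hΛP hΛe
  rw [hP'] at hΛ' hΛP' hΛe'
  have hΨt : Tendsto Ψ (𝓝 q) (𝓝 q') := by
    have := hΨ.continuousAt.tendsto
    rwa [hΨq] at this
  have hsl := slopes_agree c c' hq hq' h0 h0' hΨ.continuousAt hΨq hb.continuousAt hb0 heq hΛ.continuousAt hΛe hΛ'.continuousAt hΛe' (by rw [hΛP, hΛP', hs])
  have hD : ∀ᶠ x in 𝓝 q, x ∈ c.D := isOpen_Dm.mem_nhds hq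
  have hD' : ∀ᶠ x in 𝓝 q, Ψ x ∈ c'.D := hΨt.eventually (isOpen_Dm.mem_nhds hq')
  have hz : ∀ᶠ x : ℂ × ℂ in 𝓝 q, x.1 * x.2 ≠ 0 := (continuous_fst.mul continuous_snd).continuousAt.eventually_ne h0
  have hz' : ∀ᶠ x in 𝓝 q, (Ψ x).1 * (Ψ x).2 ≠ 0 := hΨt.eventually ((continuous_fst.mul continuous_snd).continuousAt.eventually_ne h0')
  have he' : ∀ᶠ x in 𝓝 q, pexp (Λ' (Ψ x)) = Ψ x := hΨt.eventually hΛe'
  have hbx : ∀ᶠ x in 𝓝 q, b x ≠ 0 := hb.continuousAt.eventually_ne hb0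
  -- the image of the vector field is tangent to the foliation
  have hpar : ∀ᶠ x in 𝓝 q, (c'.v (Ψ x)).1 * (fderiv ℂ Ψ x (c.v x)).2 - (c'.v (Ψ x)).2 * (fderiv ℂ Ψ x (c.v x)).1 = 0 := by
    filter_upwards [hD, hD', hz, hz', he', hbx, heq.eventually_nhds, hΛe, hsl, hΨ.eventually_analyticAt, hb.eventually_analyticAt] with x a1 a2 a3 a4 a5 a6
      a7 a8 a9 a10 a11
    rw [← c'.dir_iff a5 a2 a4, ← a9]
    have h1 := (c.dir_iff a8 a1 a3 (c.v x)).2 (by ring)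
    have hS := c.κ_DS a1 a3
    have hS' := c'.κ_DS a2 a4
    -- the derivatives
    have d1 : HasFDerivAt (fun y => ρ (c.κ y)) ((fderiv ℂ ρ (c.κ x)).comp (fderiv ℂ c.κ x)) x :=
      (W.box.an' hS).differentiableAt.hasFDerivAt.comp x (c.an_κ x).differentiableAt.hasFDerivAt
    have d2 : HasFDerivAt (fun y => ρ' (c'.κ (Ψ y))) ((fderiv ℂ ρ' (c'.κ (Ψ x))).comp ((fderiv ℂ c'.κ (Ψ x)).comp (fderiv ℂ Ψ x))) x :=
      (W'.box.an' hS').differentiableAt.hasFDerivAt.comp x ((c'.an_κ (Ψ x)).differentiableAt.hasFDerivAt.comp x a10.differentiableAt.hasFDerivAt)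
    have d3 := a11.differentiableAt.hasFDerivAt.smul d2
    have d4 := d3.congr_of_eventuallyEq a7
    have d5 := d1.unique d4
    have d6 : ∀ u, fderiv ℂ ρ (c.κ x) (fderiv ℂ c.κ x u) =
        b x • fderiv ℂ ρ' (c'.κ (Ψ x)) (fderiv ℂ c'.κ (Ψ x) (fderiv ℂ Ψ x u)) + fderiv ℂ b x u • ρ' (c'.κ (Ψ x)) := by
      intro u
      exact congrArg (fun L : ℂ × ℂ →L[ℂ] EN M => L u) d5
    rw [d6, a7.self_of_nhds, om_scale, om_scale, mul_left_comm] at h1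
    exact mul_left_cancel₀ (pow_ne_zero 2 a6) h1
  -- the unit
  have hva : AnalyticAt ℂ (fun x => c'.v (Ψ x)) q := by
    have h1 : AnalyticAt ℂ c'.v (Ψ q) := by
      rw [hΨq]
      exact c'.v_an q' hq'
    exact AnalyticAt.fun_comp (g := c'.v) (f := Ψ) h1 hΨ
  have hvn : c'.v (Ψ q) ≠ 0 := by
    rw [hΨq]
    exact c'.v_ne hq' h0'
  have hga : AnalyticAt ℂ (fun x => fderiv ℂ Ψ x (c.v x)) q :=
    AnalyticAt.comp (g := fun z : (ℂ × ℂ →L[ℂ] ℂ × ℂ) × (ℂ × ℂ) => z.1 z.2) (f := fun x => (fderiv ℂ Ψ x, c.v x))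
      (ContinuousLinearMap.analyticAt_bilinear (ContinuousLinearMap.id ℂ (ℂ × ℂ →L[ℂ] ℂ × ℂ)) _) (hΨ.fderiv.prod (c.v_an q hq))
  have hgn : fderiv ℂ Ψ q (c.v q) ≠ 0 := fun h1 => c.v_ne hq h0 (hinj _ h1)
  have main : ∃ h : ℂ × ℂ → ℂ, AnalyticAt ℂ h q ∧ ∀ᶠ x in 𝓝 q, fderiv ℂ Ψ x (c.v x) = h x • c'.v (Ψ x) := by
    by_cases h1 : (c'.v (Ψ q)).1 = 0
    · have h2 : (c'.v (Ψ q)).2 ≠ 0 := fun h2 => hvn (Prod.ext h1 h2)
      have h3 : AnalyticAt ℂ (fun x => (c'.v (Ψ x)).2) q := analyticAt_snd.comp hva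
      have h4 : AnalyticAt ℂ (fun x => (fderiv ℂ Ψ x (c.v x)).2) q := analyticAt_snd.comp hga
      refine ⟨fun x => (fderiv ℂ Ψ x (c.v x)).2 / (c'.v (Ψ x)).2, h4.div h3 h2, ?_⟩
      filter_upwards [hpar, h3.continuousAt.eventually_ne h2] with x e1 e2
      refine Prod.ext ?_ ?_
      · simp only [Prod.smul_fst, smul_eq_mul]
        rw [div_mul_eq_mul_div, eq_div_iff e2]
        linear_combination -e1
      · simp only [Prod.smul_snd, smul_eq_mul]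
        rw [div_mul_cancel₀ _ e2]
    · have h3 : AnalyticAt ℂ (fun x => (c'.v (Ψ x)).1) q := analyticAt_fst.comp hva
      have h4 : AnalyticAt ℂ (fun x => (fderiv ℂ Ψ x (c.v x)).1) q := analyticAt_fst.comp hga
      refine ⟨fun x => (fderiv ℂ Ψ x (c.v x)).1 / (c'.v (Ψ x)).1, h4.div h3 h1, ?_⟩
      filter_upwards [hpar, h3.continuousAt.eventually_ne h1] with x e1 e2
      refine Prod.ext ?_ ?_
      · simp only [Prod.smul_fst, smul_eq_mul]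
        rw [div_mul_cancel₀ _ e2]
      · simp only [Prod.smul_snd, smul_eq_mul]
        rw [div_mul_eq_mul_div, eq_div_iff e2]
        linear_combination e1
  obtain ⟨h, hh, hhx⟩ := main
  refine ⟨h, hh, fun h1 => hgn ?_, hhx⟩
  rw [hhx.self_of_nhds, h1, zero_smul]

end

end Pool.Agent.MQ3

end
end

section

/-!
# MQ3 ThN: the function `Θ` of all charts
-/

set_option autoImplicit false

open Topology Filter Metric MvPolynomial

noncomputable section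

namespace Pool.Agent.MQ3

open Pool.Agent.H36.BP (EN fs)
open Pool.Agent.H17BP (Surface IsForm)
open Pool.Agent.H17EF (projVar coneE)
open Pool.Agent.MQ (dvg ztv)

/-! ## calculus -/

/-- the invariance, with weights which are functions on the curve -/
theorem Th_core {v v' Ψ : ℂ × ℂ → ℂ × ℂ} {h : ℂ × ℂ → ℂ} {m : ℕ} (hm : m ≠ 0) {p p₁ : ℂ → ℂ × ℂ} {o o₁ : ℂ → ℂ} {z : ℂ} (hΨ : AnalyticAt ℂ Ψ (p z))
    (hv : AnalyticAt ℂ v (p z)) (hv' : AnalyticAt ℂ v' (Ψ (p z))) (hh : AnalyticAt ℂ h (p z))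
    (hrel : ∀ᶠ Q in 𝓝 (p z), fderiv ℂ Ψ Q (v Q) = h Q • v' (Ψ Q)) (ho : ∀ᶠ w in 𝓝 z, o w = jc Ψ (p w) ^ m * o₁ w) (ho₁ : AnalyticAt ℂ o₁ z)
    (hp : AnalyticAt ℂ p z) (hp₁ : ∀ᶠ w in 𝓝 z, p₁ w = Ψ (p w)) (hode : ∀ᶠ w in 𝓝 z, (v (p w)).1 * (deriv p w).2 - (v (p w)).2 * (deriv p w).1 = 0)
    (hv0 : v (p z) ≠ 0) (hd : deriv p z ≠ 0) (hJ : jc Ψ (p z) ≠ 0) (ho0 : o₁ z ≠ 0) (hh0 : h (p z) ≠ 0) (hv'0 : v' (Ψ (p z)) ≠ 0) :
    deriv (ztv v p) z / ztv v p z + dvg v (p z) * ztv v p z + 1 / m * (deriv o z / o z) =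
      deriv (ztv v' p₁) z / ztv v' p₁ z + dvg v' (p₁ z) * ztv v' p₁ z + 1 / m * (deriv o₁ z / o₁ z) := by
  have hvp : AnalyticAt ℂ (fun w => v (p w)) z := AnalyticAt.fun_comp (g := v) (f := p) hv hp
  have hvne : ∀ᶠ w in 𝓝 z, v (p w) ≠ 0 := hvp.continuousAt.eventually_ne hv0
  have hζ : AnalyticAt ℂ (ztv v p) z := ztv_an hp hv hode hv0
  have hder : ∀ᶠ w in 𝓝 z, deriv p w = ztv v p w • v (p w) := by
    filter_upwards [hode, hvne] with w e1 e2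
    exact ztv_smul e1 e2
  have hζ0 : ztv v p z ≠ 0 := by
    intro h1
    have h2 := hder.self_of_nhds
    rw [h1, zero_smul] at h2
    exact hd h2
  have hv'p : AnalyticAt ℂ (fun w => v' (Ψ (p w))) z :=
    AnalyticAt.fun_comp (g := v') (f := fun w => Ψ (p w)) hv' (AnalyticAt.fun_comp (g := Ψ) (f := p) hΨ hp)
  have hz₁ : ∀ᶠ w in 𝓝 z, ztv v' p₁ w = h (p w) * ztv v p w := by
    filter_upwards [hder, hp₁, hp₁.eventually_nhds, hp.continuousAt.eventually hrel, hp.continuousAt.eventually hΨ.eventually_analyticAt,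
      hp.eventually_analyticAt, hv'p.continuousAt.eventually_ne hv'0] with w e1 e2 e3 e4 e5 e6 e7
    refine ztv_of ?_ (by rw [e2]; exact e7)
    have h1 : deriv p₁ w = fderiv ℂ Ψ (p w) (deriv p w) := by
      have h2 : p₁ =ᶠ[𝓝 w] fun w => Ψ (p w) := e3
      rw [h2.deriv_eq]
      exact (e5.differentiableAt.hasFDerivAt.comp_hasDerivAt w e6.differentiableAt.hasDerivAt).deriv
    rw [h1, e1, map_smul, e4, smul_smul, e2, mul_comm]
  have hz₁' : ztv v' p₁ =ᶠ[𝓝 z] fun w => h (p w) * ztv v p w := hz₁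
  have ho' : o =ᶠ[𝓝 z] fun w => jc Ψ (p w) ^ m * o₁ w := ho
  have key := curve_rule hΨ hv hv' hh hrel hp hζ hder.self_of_nhds hζ0 hh0 hJ
  have h1 : DifferentiableAt ℂ (fun u => jc Ψ (p u)) z := ((jc_an hΨ).comp hp).differentiableAt
  have h4 : deriv (fun u => jc Ψ (p u) ^ m * o₁ u) z =
      (m * jc Ψ (p z) ^ (m - 1) * deriv (fun u => jc Ψ (p u)) z) * o₁ z + jc Ψ (p z) ^ m * deriv o₁ z :=
    ((h1.hasDerivAt.pow m).mul ho₁.differentiableAt.hasDerivAt).deriv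
  have h5 : 1 / (m : ℂ) * (deriv o z / o z) = deriv (fun u => jc Ψ (p u)) z / jc Ψ (p z) + 1 / m * (deriv o₁ z / o₁ z) := by
    rw [ho'.deriv_eq, ho.self_of_nhds, h4]
    obtain ⟨n, rfl⟩ : ∃ n, m = n + 1 := ⟨m - 1, by omega⟩
    have hm' : ((n + 1 : ℕ) : ℂ) ≠ 0 := by exact_mod_cast hm
    simp only [Nat.add_sub_cancel]
    field_simp
    ring
  rw [hz₁'.deriv_eq, hz₁.self_of_nhds, hp₁.self_of_nhds, h5]
  linear_combination -key

/-- the logarithmic derivative of `J ^ m o` -/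
theorem logder_pow {J o : ℂ → ℂ} {z : ℂ} {m : ℕ} (hm : m ≠ 0) (hJ : DifferentiableAt ℂ J z) (ho : DifferentiableAt ℂ o z) (hJ0 : J z ≠ 0) (ho0 : o z ≠ 0) :
    deriv J z / J z + 1 / m * (deriv o z / o z) = 1 / m * (deriv (fun w => J w ^ m * o w) z / (J z ^ m * o z)) := by
  have h4 : deriv (fun u => J u ^ m * o u) z = (m * J z ^ (m - 1) * deriv J z) * o z + J z ^ m * deriv o z :=
    ((hJ.hasDerivAt.pow m).mul ho.hasDerivAt).deriv
  rw [h4]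
  obtain ⟨n, rfl⟩ : ∃ n, m = n + 1 := ⟨m - 1, by omega⟩
  have hm' : ((n + 1 : ℕ) : ℂ) ≠ 0 := by exact_mod_cast hm
  simp only [Nat.add_sub_cancel]
  field_simp
  ring

theorem inj_of_jc {κ : ℂ × ℂ → ℂ × ℂ} {Q : ℂ × ℂ} (h : jc κ Q ≠ 0) {w : ℂ × ℂ} (hw : fderiv ℂ κ Q w = 0) : w = 0 := by
  rw [split_vec] at hw
  have e1 := congrArg Prod.fst hw
  have e2 := congrArg Prod.snd hw
  simp only [Prod.fst_add, Prod.snd_add, Prod.smul_fst, Prod.smul_snd, smul_eq_mul, Prod.fst_zero, Prod.snd_zero] at e1 e2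
  rw [jc] at h
  refine Prod.ext ?_ ?_
  · refine (mul_eq_zero.1 (?_ : w.1 * _ = 0)).resolve_right h
    linear_combination (fderiv ℂ κ Q (0, 1)).2 * e1 - (fderiv ℂ κ Q (0, 1)).1 * e2
  · refine (mul_eq_zero.1 (?_ : w.2 * _ = 0)).resolve_right h
    linear_combination (fderiv ℂ κ Q (1, 0)).1 * e2 - (fderiv ℂ κ Q (1, 0)).2 * e1

/-! ## tangent vectors and the form -/

variable {M : ℕ} {X₀ : Set (EN M)}

theorem tanS_smul (hX : Surface X₀) {x u : EN M} (h : u ∈ Pool.Agent.H17BP.Tan X₀ x) {c : ℂ} (hc : c ≠ 0) : c • u ∈ Pool.Agent.H17BP.Tan X₀ (c • x) := by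
  obtain ⟨γ, h1, h2, h3, h4⟩ := h
  refine ⟨fun z => c • γ z, (analyticAt_const (v := c)).fun_smul h1, h2.mono fun z hz => hX.smul _ hz c hc, by simp only [h3], ?_⟩
  have h5 : HasDerivAt (fun z => c • γ z) (c • deriv γ 0) 0 := h1.differentiableAt.hasDerivAt.const_smul c
  rw [h5.deriv, h4]

theorem tan_fderiv {ρ : ℂ × ℂ → EN M} {Q : ℂ × ℂ} (hρ : AnalyticAt ℂ ρ Q) (hm : ∀ᶠ q in 𝓝 Q, ρ q ∈ X₀) (e : ℂ × ℂ) :
    fderiv ℂ ρ Q e ∈ Pool.Agent.H17BP.Tan X₀ (ρ Q) := Pool.Agent.E2.tan_iff.1 (Pool.Agent.E1.ResL_tan hρ hm e)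

theorem form_comb {mK jH : ℕ} {Wf : EN M → EN M → EN M → ℂ} (hW : IsForm X₀ mK jH Wf) {x u w : EN M} (hx : x ∈ X₀)
    (hu : u ∈ Pool.Agent.H17BP.Tan X₀ x) (hw : w ∈ Pool.Agent.H17BP.Tan X₀ x) (hsum : ∀ a b : ℂ, a • u + b • w ∈ Pool.Agent.H17BP.Tan X₀ x)
    (a b c d a' c' : ℂ) : Wf x ((a • u + b • w) + a' • x) ((c • u + d • w) + c' • x) = (a * d - b * c) ^ mK * Wf x u w := by
  rw [hW.add_smul x hx _ (hsum a b) _ (hsum c d), hW.det x hx u hu w hw]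

/-! ## the charts -/

theorem split_E {E : Type*} [NormedAddCommGroup E] [NormedSpace ℂ E] (L : ℂ × ℂ →L[ℂ] E) (u : ℂ × ℂ) : L u = u.1 • L (1, 0) + u.2 • L (0, 1) := by
  rw [← map_smul, ← map_smul, ← map_add]
  congr 1
  refine Prod.ext ?_ ?_ <;> simp

section

variable {P : Ideal (MvPolynomial (Fin (M + 1)) ℂ)} {RD : MvPolynomial (Fin (M + 1)) ℂ} {m : ℕ} {X : NCModel P RD} {θ : WDiff (coneE P) m}
  {l : LF M} {S : Web X θ l}

theorem kap_an (k : S.ι) (q : ℂ × ℂ) : AnalyticAt ℂ (S.κ k) q := analyticAt_mono q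

theorem kap_jc (k : S.ι) {q : ℂ × ℂ} (h0 : q.1 * q.2 ≠ 0) : jc (S.κ k) q ≠ 0 := by
  have h := jac_mono_ne (S.c k).basis.det h0
  rw [mul_comm (fderiv ℂ (mono (S.c k).w (S.c k).w') q (1, 0)).2] at h
  exact h

theorem kap_DS (k : S.ι) {q : ℂ × ℂ} (hq : q ∈ S.D k) (h0 : q.1 * q.2 ≠ 0) : S.κ k q ∈ DS := mono_mem_DS hq.1 h0

theorem sig_an (k : S.ι) {q : ℂ × ℂ} (hq : q ∈ S.D k) : AnalyticAt ℂ (S.σ k) q :=
  AnalyticAt.fun_comp (g := X.ρ k.1) (f := S.κ k) (wtn_rho_an hq.2) (kap_an k q)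

theorem sig_mem (k : S.ι) {q : ℂ × ℂ} (hq : q ∈ S.D k) : ∀ᶠ x in 𝓝 q, S.σ k x ∈ coneE P :=
  (kap_an k q).continuousAt.eventually (wtn_rho_mem hq.2)

theorem sig_fderiv (k : S.ι) {q : ℂ × ℂ} (hq : q ∈ S.D k) (e : ℂ × ℂ) :
    fderiv ℂ (S.σ k) q e = fderiv ℂ (X.ρ k.1) (S.κ k q) (fderiv ℂ (S.κ k) q e) := by
  have h1 : HasFDerivAt (S.σ k) ((fderiv ℂ (X.ρ k.1) (S.κ k q)).comp (fderiv ℂ (S.κ k) q)) q :=
    (wtn_rho_an (X := X) hq.2).differentiableAt.hasFDerivAt.comp q (kap_an k q).differentiableAt.hasFDerivAt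
  rw [h1.fderiv]
  rfl

theorem sig_imm (k : S.ι) {q : ℂ × ℂ} (hq : q ∈ S.D k) (h0 : q.1 * q.2 ≠ 0) : Imm (coneE P) (S.σ k) q := by
  refine ⟨sig_an k hq, sig_mem k hq, fun w a h => ?_⟩
  rw [sig_fderiv k hq] at h
  exact inj_of_jc (kap_jc k h0) ((X.box k.1).indep _ (kap_DS k hq h0) _ a h)

/-! ## the factor and the weight -/

variable {F : ℂ → EN M}

theorem cf_tan (hX : Surface (coneE P)) (Y : NCLift X F) {i : X.ι} {z : ℂ} (hz : z ∈ Y.U i) (e : ℂ × ℂ) :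
    cf Y i z • fderiv ℂ (X.ρ i) (Y.p i z) e ∈ Pool.Agent.H17BP.Tan (coneE P) (F z) := by
  obtain ⟨h1, h2⟩ := cf_spec Y hz
  rw [h2]
  exact tanS_smul hX (tan_fderiv (wtn_rho_an (Y.mem i z hz)) (wtn_rho_mem (Y.mem i z hz)) e) h1

variable {Wf : EN M → EN M → EN M → ℂ} {mK jH : ℕ}

/-- the weight in the chart `k` -/
def oc (S : Web X θ l) (Wf : EN M → EN M → EN M → ℂ) (Y : NCLift X F) (k : S.ι) (w : ℂ) : ℂ :=
  Wf (F w) (cf Y k.1 w • fderiv ℂ (S.σ k) (S.lf Y k w) (1, 0)) (cf Y k.1 w • fderiv ℂ (S.σ k) (S.lf Y k w) (0, 1))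

/-- the weight in the chart and the weight in the box -/
theorem oc_eq (hX : Surface (coneE P)) (hW : IsForm (coneE P) mK jH Wf) (Y : NCLift X F) {k : S.ι} {w : ℂ} (hM : F w ∈ coneE P) (hU : w ∈ Y.U k.1)
    (hD : S.lf Y k w ∈ S.D k) (hκ : S.κ k (S.lf Y k w) = Y.p k.1 w) : oc S Wf Y k w = jc (S.κ k) (S.lf Y k w) ^ mK * wt Wf Y k.1 w := by
  have hv : ∀ e, cf Y k.1 w • fderiv ℂ (S.σ k) (S.lf Y k w) e = (fderiv ℂ (S.κ k) (S.lf Y k w) e).1 • (cf Y k.1 w • fderiv ℂ (X.ρ k.1) (Y.p k.1 w) (1, 0)) +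
      (fderiv ℂ (S.κ k) (S.lf Y k w) e).2 • (cf Y k.1 w • fderiv ℂ (X.ρ k.1) (Y.p k.1 w) (0, 1)) := by
    intro e
    rw [sig_fderiv k hD, hκ, split_E (fderiv ℂ (X.ρ k.1) (Y.p k.1 w))]
    rw [smul_add, smul_comm (cf Y k.1 w), smul_comm (cf Y k.1 w)]
  rw [oc, hv, hv, hW.det _ hM _ (cf_tan hX Y hU _) _ (cf_tan hX Y hU _), jc, wt,
    mul_comm (fderiv ℂ (S.κ k) (S.lf Y k w) (1, 0)).2]

theorem cf_tan' (hX : Surface (coneE P)) (Y : NCLift X F) {k : S.ι} {w : ℂ} (hU : w ∈ Y.U k.1) (hD : S.lf Y k w ∈ S.D k)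
    (hκ : S.κ k (S.lf Y k w) = Y.p k.1 w) (e : ℂ × ℂ) : cf Y k.1 w • fderiv ℂ (S.σ k) (S.lf Y k w) e ∈ Pool.Agent.H17BP.Tan (coneE P) (F w) := by
  rw [sig_fderiv k hD, hκ]
  exact cf_tan hX Y hU _

/-- the weights in two charts -/
theorem oc_chg (hX : Surface (coneE P)) (hW : IsForm (coneE P) mK jH Wf) (Y : NCLift X F) {k k' : S.ι} {w : ℂ} (hM : F w ∈ coneE P)
    (hU : w ∈ Y.U k.1) (hκ : S.κ k (S.lf Y k w) = Y.p k.1 w)
    (hU' : w ∈ Y.U k'.1) (hD' : S.lf Y k' w ∈ S.D k') (hκ' : S.κ k' (S.lf Y k' w) = Y.p k'.1 w)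
    {Ψ : ℂ × ℂ → ℂ × ℂ} {b : ℂ × ℂ → ℂ} (hΨ : AnalyticAt ℂ Ψ (S.lf Y k w)) (hb : AnalyticAt ℂ b (S.lf Y k w))
    (he : ∀ᶠ x in 𝓝 (S.lf Y k w), S.σ k x = b x • S.σ k' (Ψ x)) (h0 : Ψ (S.lf Y k w) = S.lf Y k' w) :
    oc S Wf Y k w = jc Ψ (S.lf Y k w) ^ mK * oc S Wf Y k' w := by
  set q := S.lf Y k w with hq
  set q' := S.lf Y k' w with hq'
  obtain ⟨c1, c2⟩ := cf_spec Y hU
  obtain ⟨c1', c2'⟩ := cf_spec Y hU'
  have hσ' : AnalyticAt ℂ (S.σ k') (Ψ q) := by rw [h0]; exact sig_an k' hD'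
  have hσΨ : AnalyticAt ℂ (fun x => S.σ k' (Ψ x)) q := AnalyticAt.fun_comp (g := S.σ k') (f := Ψ) hσ' hΨ
  have hFk : F w = cf Y k.1 w • S.σ k q := by rw [Web.σ, hκ]; exact c2
  have hFk' : F w = cf Y k'.1 w • S.σ k' q' := by rw [Web.σ, hκ']; exact c2'
  have hne : S.σ k' q' ≠ 0 := by rw [Web.σ]; exact wtn_rho_ne hX hD'.2
  have hcc : cf Y k'.1 w = cf Y k.1 w * b q := by
    have h1 := he.self_of_nhds
    rw [h1, h0, smul_smul, hFk'] at hFk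
    exact smul_left_injective ℂ hne hFk
  have hv : ∀ e, cf Y k.1 w • fderiv ℂ (S.σ k) q e = ((fderiv ℂ Ψ q e).1 • (cf Y k'.1 w • fderiv ℂ (S.σ k') q' (1, 0)) +
      (fderiv ℂ Ψ q e).2 • (cf Y k'.1 w • fderiv ℂ (S.σ k') q' (0, 1))) + (cf Y k.1 w * fderiv ℂ b q e / cf Y k'.1 w) • F w := by
    intro e
    have h1 : HasFDerivAt (fun x => b x • S.σ k' (Ψ x)) _ q := hb.differentiableAt.hasFDerivAt.smul hσΨ.differentiableAt.hasFDerivAt
    have h2 : fderiv ℂ (S.σ k) q = fderiv ℂ (fun x => b x • S.σ k' (Ψ x)) q := Filter.EventuallyEq.fderiv_eq he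
    have h3 : HasFDerivAt (fun x => S.σ k' (Ψ x)) ((fderiv ℂ (S.σ k') (Ψ q)).comp (fderiv ℂ Ψ q)) q :=
      hσ'.differentiableAt.hasFDerivAt.comp q hΨ.differentiableAt.hasFDerivAt
    rw [h2, h1.fderiv]
    simp only [add_apply, smul_apply, ContinuousLinearMap.smulRight_apply, h3.fderiv, ContinuousLinearMap.comp_apply]
    rw [h0, split_E (fderiv ℂ (S.σ k') q') (fderiv ℂ Ψ q e), smul_add, smul_smul, ← hcc, smul_smul, smul_add, smul_smul, smul_smul, smul_smul, smul_smul, hFk',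
      smul_smul, div_mul_cancel₀ _ c1', mul_comm _ (cf Y k'.1 w), mul_comm _ (cf Y k'.1 w)]
  have hs : ∀ a b : ℂ, a • (cf Y k'.1 w • fderiv ℂ (S.σ k') q' (1, 0)) + b • (cf Y k'.1 w • fderiv ℂ (S.σ k') q' (0, 1)) ∈
      Pool.Agent.H17BP.Tan (coneE P) (F w) := by
    intro a b
    have h1 := cf_tan' hX Y hU' hD' hκ' (a, b)
    rw [← hq', split_E (fderiv ℂ (S.σ k') q') (a, b), smul_add, smul_comm _ a, smul_comm _ b] at h1
    exact h1
  rw [oc, oc, ← hq, ← hq', hv, hv, form_comb hW hM (cf_tan' hX Y hU' hD' hκ' _) (cf_tan' hX Y hU' hD' hκ' _) hs, jc,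
    mul_comm (fderiv ℂ Ψ q (1, 0)).2]

/-! ## good points -/

/-- the conditions at a good point -/
structure Gd (S : Web X θ l) (Wf : EN M → EN M → EN M → ℂ) (Y : NCLift X F) (k : S.ι) (w : ℂ) : Prop where
  mem : w ∈ S.Om Y k
  off : (S.lf Y k w).1 * (S.lf Y k w).2 ≠ 0
  der : deriv (S.lf Y k) w ≠ 0
  v_ne : S.v k (S.lf Y k w) ≠ 0
  wt_ne : wt Wf Y k.1 w ≠ 0

theorem thn_mem (Y : NCLift X F) {k : S.ι} (hc : BCrv θ l (X.ρ k.1) F (Y.U k.1) (Y.p k.1)) {w : ℂ} (hw : w ∈ S.Om Y k) :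
    w ∈ Y.U k.1 ∧ S.lf Y k w ∈ S.D k ∧ S.κ k (S.lf Y k w) = Y.p k.1 w := by
  have h1 : w ∈ Y.U k.1 := om_sub hc (S.c k) hw
  obtain ⟨h2, h3⟩ := lf_mem hc (S.c k) w hw
  refine ⟨h1, ⟨h2, ?_⟩, h3⟩
  show S.κ k (S.lf Y k w) ∈ X.B k.1
  rw [show S.κ k (S.lf Y k w) = Y.p k.1 w from h3]
  exact Y.mem _ _ h1

theorem pexp_log {q : ℂ × ℂ} (h0 : q.1 * q.2 ≠ 0) : pexp (Complex.log q.1, Complex.log q.2) = q :=
  Prod.ext (Complex.exp_log (left_ne_zero_of_mul h0)) (Complex.exp_log (right_ne_zero_of_mul h0))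

/-- the function `Θ` does not depend on the chart -/
theorem thc_eq (hX : Surface (coneE P)) (hm : 1 ≤ mK) (hW : IsForm (coneE P) mK jH Wf) (hF : Differentiable ℂ F) (hM : ∀ z, F z ∈ coneE P) (Y : NCLift X F)
    (hc : ∀ i, BCrv θ l (X.ρ i) F (Y.U i) (Y.p i)) {k k' : S.ι} {w : ℂ} (g : Gd S Wf Y k w) (g' : Gd S Wf Y k' w) :
    ThC S Wf mK Y k w = ThC S Wf mK Y k' w := by
  obtain ⟨hU, hD, hκ⟩ := thn_mem Y (hc k.1) g.mem
  obtain ⟨hU', hD', hκ'⟩ := thn_mem Y (hc k'.1) g'.mem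
  have hO : IsOpen (S.Om Y k) := om_open (hc k.1) (S.c k)
  have hO' : IsOpen (S.Om Y k') := om_open (hc k'.1) (S.c k')
  have hlf : AnalyticAt ℂ (S.lf Y k) w := lf_an (hc k.1) (S.c k) w g.mem
  have hlf' : AnalyticAt ℂ (S.lf Y k') w := lf_an (hc k'.1) (S.c k') w g'.mem
  have hσ : ∀ u ∈ S.Om Y k, u ∈ S.Om Y k' → ∃ a : ℂ, a ≠ 0 ∧ S.σ k (S.lf Y k u) = a • S.σ k' (S.lf Y k' u) := by
    intro u hu hu'
    obtain ⟨e1, -, e3⟩ := thn_mem Y (hc k.1) hu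
    obtain ⟨e1', -, e3'⟩ := thn_mem Y (hc k'.1) hu'
    obtain ⟨c1, c2⟩ := cf_spec Y e1
    obtain ⟨c1', c2'⟩ := cf_spec Y e1'
    refine ⟨(cf Y k.1 u)⁻¹ * cf Y k'.1 u, mul_ne_zero (inv_ne_zero c1) c1', ?_⟩
    rw [Web.σ, Web.σ, e3, e3', mul_smul, ← c2']
    conv_rhs => rw [c2]
    rw [inv_smul_smul₀ c1]
  obtain ⟨a, ha, hae⟩ := hσ w g.mem g'.mem
  obtain ⟨Ψ, b, hΨ, hΨ0, hb, hb0, he, hJ, hinj, huniq⟩ := exists_trans hX (sig_imm k hD g.off) (sig_imm k' hD' g'.off) ha hae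
  have hs1 := lf_slope (hc k.1) (S.c k) w g.mem _ (pexp_log g.off)
  have hs2 := lf_slope (hc k'.1) (S.c k') w g'.mem _ (pexp_log g'.off)
  obtain ⟨h, hh, hh0, hrel⟩ := fol_trans (S.c k) (S.c k') hD.1 hD'.1 g.off g'.off hΨ hΨ0 hinj hb hb0 he (pexp_log g.off) (pexp_log g'.off) (hs1.symm.trans hs2)
  have hp₁ : ∀ᶠ u in 𝓝 w, S.lf Y k' u = Ψ (S.lf Y k u) := by
    have h1 : Tendsto (fun u => (S.lf Y k u, S.lf Y k' u)) (𝓝 w) (𝓝 (S.lf Y k w, S.lf Y k' w)) :=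
      hlf.continuousAt.prodMk hlf'.continuousAt
    filter_upwards [h1.eventually huniq, hO.mem_nhds g.mem, hO'.mem_nhds g'.mem] with u e1 e2 e3
    exact e1 (hσ u e2 e3)
  have ho : ∀ᶠ u in 𝓝 w, oc S Wf Y k u = jc Ψ (S.lf Y k u) ^ mK * oc S Wf Y k' u := by
    filter_upwards [hp₁, hlf.continuousAt.eventually he.eventually_nhds, hlf.continuousAt.eventually hΨ.eventually_analyticAt,
      hlf.continuousAt.eventually hb.eventually_analyticAt, hO.mem_nhds g.mem, hO'.mem_nhds g'.mem] with u e1 e2 e3 e4 e5 e6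
    obtain ⟨f1, -, f3⟩ := thn_mem Y (hc k.1) e5
    obtain ⟨f1', f2', f3'⟩ := thn_mem Y (hc k'.1) e6
    exact oc_chg hX hW Y (hM u) f1 f3 f1' f2' f3' e3 e4 e2 e1.symm
  have hoc : ∀ {j : S.ι}, Gd S Wf Y j w → (oc S Wf Y j =ᶠ[𝓝 w] fun u => jc (S.κ j) (S.lf Y j u) ^ mK * wt Wf Y j.1 u) ∧
      AnalyticAt ℂ (fun u => jc (S.κ j) (S.lf Y j u)) w ∧ AnalyticAt ℂ (wt Wf Y j.1) w := by
    intro j gj
    obtain ⟨f1, -, -⟩ := thn_mem Y (hc j.1) gj.mem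
    refine ⟨?_, ?_, wt_an hX hm hW hF Y j.1 w f1⟩
    · filter_upwards [(om_open (hc j.1) (S.c j)).mem_nhds gj.mem] with u e1
      obtain ⟨f1, f2, f3⟩ := thn_mem Y (hc j.1) e1
      exact oc_eq hX hW Y (hM u) f1 f2 f3
    · exact AnalyticAt.fun_comp (g := jc (S.κ j)) (f := S.lf Y j) (jc_an (kap_an j _)) (lf_an (hc j.1) (S.c j) w gj.mem)
  have hfin : ∀ {j : S.ι}, Gd S Wf Y j w → ThC S Wf mK Y j w = deriv (ztv (S.v j) (S.lf Y j)) w / ztv (S.v j) (S.lf Y j) w +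
      dvg (S.v j) (S.lf Y j w) * ztv (S.v j) (S.lf Y j) w + 1 / mK * (deriv (oc S Wf Y j) w / oc S Wf Y j w) := by
    intro j gj
    obtain ⟨f1, f2, f3⟩ := hoc gj
    have h1 := logder_pow (m := mK) (by omega) f2.differentiableAt f3.differentiableAt (kap_jc j gj.off) gj.wt_ne
    rw [f1.deriv_eq, f1.self_of_nhds, ← h1, ThC]
    ring
  rw [hfin g, hfin g']
  have hoan : AnalyticAt ℂ (oc S Wf Y k') w := by
    obtain ⟨f1, f2, f3⟩ := hoc g'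
    exact ((f2.fun_pow mK).fun_mul f3).congr f1.symm
  have hone : oc S Wf Y k' w ≠ 0 := by
    rw [(hoc g').1.self_of_nhds]
    exact mul_ne_zero (pow_ne_zero _ (kap_jc k' g'.off)) g'.wt_ne
  refine Th_core (Ψ := Ψ) (h := h) (by omega) hΨ ((S.c k).v_an _ hD.1) ?_ hh hrel ho hoan hlf hp₁ ?_ g.v_ne g.der hJ hone hh0 ?_
  · rw [hΨ0]
    exact (S.c k').v_an _ hD'.1
  · filter_upwards [hO.mem_nhds g.mem] with u e1
    exact sub_eq_zero.2 (lf_tan (hc k.1) (S.c k) u e1)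
  · rw [hΨ0]
    exact g'.v_ne

theorem gd_ev (Y : NCLift X F) {k : S.ι} (hc : BCrv θ l (X.ρ k.1) F (Y.U k.1) (Y.p k.1)) (hne : WNe Wf Y) {z : ℂ} (hz : z ∈ S.Om Y k) :
    ∀ᶠ w in 𝓝[≠] z, Gd S Wf Y k w := by
  obtain ⟨hU, hD, -⟩ := thn_mem Y hc hz
  have hlf : AnalyticAt ℂ (S.lf Y k) z := lf_an hc (S.c k) z hz
  have hder : ∀ᶠ w in 𝓝[≠] z, (S.lf Y k w).1 * (S.lf Y k w).2 ≠ 0 ∧ deriv (S.lf Y k) w ≠ 0 := lf_ne hc (S.c k) z hz
  have hnc : ∀ᶠ w in 𝓝[≠] z, S.lf Y k w ≠ S.lf Y k z := by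
    rcases hlf.eventually_eq_or_eventually_ne analyticAt_const (g := fun _ => S.lf Y k z) with h | h
    · exfalso
      have h1 : ∀ᶠ w in 𝓝 z, deriv (S.lf Y k) w = 0 := by
        filter_upwards [h.eventually_nhds] with w hw
        have h2 : S.lf Y k =ᶠ[𝓝 w] fun _ => S.lf Y k z := hw
        rw [h2.deriv_eq, deriv_const]
      obtain ⟨w, h3, h4⟩ := (hder.and (eventually_nhdsWithin_of_eventually_nhds h1)).exists
      exact h3.2 h4
    · exact h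
  filter_upwards [hder, hnc, eventually_nhdsWithin_of_eventually_nhds ((om_open hc (S.c k)).mem_nhds hz), hne k.1 z hU,
    eventually_nhdsWithin_of_eventually_nhds (hlf.continuousAt.eventually ((S.c k).v_iso _ hD.1))] with w e1 e2 e3 e4 e5
  exact ⟨e3, e1.1, e1.2, e5 e2, e4⟩

/-- **The function `Θ`.** -/
theorem exists_theta (hX : Surface (coneE P)) (hm : 1 ≤ mK) (hW : IsForm (coneE P) mK jH Wf) (hF : WCrv θ RD F) (Y : NCLift X F) (hne : WNe Wf Y) :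
    ∃ Θ : ℂ → ℂ, IsTh S Wf mK Y Θ := by
  classical
  refine ⟨fun w => if h : ∃ k : S.ι, Gd S Wf Y k w then ThC S Wf mK Y h.choose w else 0, fun k z hz => ?_⟩
  filter_upwards [gd_ev Y (bcrv hF Y k.1) hne hz] with w hw
  have h : ∃ k : S.ι, Gd S Wf Y k w := ⟨k, hw⟩
  simp only [dif_pos h]
  exact thc_eq hX hm hW hF.diff hF.mem Y (fun i => bcrv hF Y i) h.choose_spec hw

end

end Pool.Agent.MQ3

end
end
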