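import Pool.Agent.H94.G6.M64
import Pool.Agent.H94.G6.M78
import Pool.Agent.H94.G6.M81

/-! The parts of this file: MQ3.ChgN, MQ3.BdL, MQ3.WtNB. -/

section

/-!
# MQ3 ChgN: change of boxes for the vectors `hA`, `hB u`

`Φ` is a change of boxes, `Ψ` its inverse.  `hA (Φ x) (DΦ w) = A hA x w`: the entries of `A` are quotients of functions which vanish on an axis by the
coordinate; `hB u' (Φ x) (DΦ w) = A (hB u x w)` with `u' ∘ Φ = U u`.  The same for `Ψ` gives `A'`.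
-/

set_option autoImplicit false

open Topology Filter Metric MvPolynomial

noncomputable section

namespace Pool.Agent.MQ3

open Pool.Agent.H36.BP (EN)

namespace ChgN

/-! ### linear maps of `EN 2` -/

/-- the linear map with the columns `a`, `b`, `c` -/
def mk3 (a b c : EN 2) : EN 2 →L[ℂ] EN 2 :=
  (EuclideanSpace.proj 0 : EN 2 →L[ℂ] ℂ).smulRight a + (EuclideanSpace.proj 1 : EN 2 →L[ℂ] ℂ).smulRight b +
    (EuclideanSpace.proj 2 : EN 2 →L[ℂ] ℂ).smulRight c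

theorem mk3_apply (a b c H : EN 2) : mk3 a b c H = H 0 • a + H 1 • b + H 2 • c := rfl

theorem analyticAt_mk3 {a b c : ℂ × ℂ → EN 2} {p : ℂ × ℂ} (ha : AnalyticAt ℂ a p) (hb : AnalyticAt ℂ b p) (hc : AnalyticAt ℂ c p) :
    AnalyticAt ℂ (fun x => mk3 (a x) (b x) (c x)) p := by
  have h : ∀ (i : Fin 3) {f : ℂ × ℂ → EN 2}, AnalyticAt ℂ f p → AnalyticAt ℂ (fun x => (EuclideanSpace.proj i : EN 2 →L[ℂ] ℂ).smulRight (f x)) p := by
    intro i f hf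
    exact AnalyticAt.comp (g := fun y : EN 2 => (EuclideanSpace.proj i : EN 2 →L[ℂ] ℂ).smulRight y) (f := f)
      ((ContinuousLinearMap.smulRightL ℂ (EN 2) (EN 2) (EuclideanSpace.proj i : EN 2 →L[ℂ] ℂ)).analyticAt _) hf
  exact ((h 0 ha).add (h 1 hb)).add (h 2 hc)

theorem analyticAt_vec3 {a b c : ℂ × ℂ → ℂ} {p : ℂ × ℂ} (ha : AnalyticAt ℂ a p) (hb : AnalyticAt ℂ b p) (hc : AnalyticAt ℂ c p) :
    AnalyticAt ℂ (fun x => (WithLp.toLp 2 ![a x, b x, c x] : EN 2)) p := by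
  have h1 : AnalyticAt ℂ (fun w => (![a w, b w, c w] : Fin 3 → ℂ)) p := by
    refine AnalyticAt.pi fun i => ?_
    fin_cases i
    · exact ha
    · exact hb
    · exact hc
  exact ((EuclideanSpace.equiv (Fin 3) ℂ).symm.toContinuousLinearMap.analyticAt _).comp h1

theorem hA_apply (p w : ℂ × ℂ) : hA p w 0 = p.2 * w.1 ∧ hA p w 1 = p.1 * w.2 ∧ hA p w 2 = 0 := ⟨rfl, rfl, rfl⟩

theorem hB_apply (u : ℂ × ℂ → ℂ) (p w : ℂ × ℂ) : hB u p w 0 = fderiv ℂ u p w ∧ hB u p w 1 = u p * w.1 ∧ hB u p w 2 = u p * w.2 := ⟨rfl, rfl, rfl⟩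

theorem ext3 {H H' : EN 2} (h0 : H 0 = H' 0) (h1 : H 1 = H' 1) (h2 : H 2 = H' 2) : H = H' := by
  ext i
  fin_cases i
  · exact h0
  · exact h1
  · exact h2

theorem hA_comb (p w w' : ℂ × ℂ) (a b : ℂ) : hA p (a • w + b • w') = a • hA p w + b • hA p w' := by
  refine ext3 ?_ ?_ ?_
  · show p.2 * (a • w + b • w').1 = a * (p.2 * w.1) + b * (p.2 * w'.1)
    simp only [Prod.fst_add, Prod.smul_fst, smul_eq_mul]
    ring
  · show p.1 * (a • w + b • w').2 = a * (p.1 * w.2) + b * (p.1 * w'.2)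
    simp only [Prod.snd_add, Prod.smul_snd, smul_eq_mul]
    ring
  · show (0 : ℂ) = a * 0 + b * 0
    ring

theorem hB_comb (u : ℂ × ℂ → ℂ) (p w w' : ℂ × ℂ) (a b : ℂ) : hB u p (a • w + b • w') = a • hB u p w + b • hB u p w' := by
  refine ext3 ?_ ?_ ?_
  · show fderiv ℂ u p (a • w + b • w') = a * fderiv ℂ u p w + b * fderiv ℂ u p w'
    rw [map_add, map_smul, map_smul, smul_eq_mul, smul_eq_mul]
  · show u p * (a • w + b • w').1 = a * (u p * w.1) + b * (u p * w'.1)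
    simp only [Prod.fst_add, Prod.smul_fst, smul_eq_mul]
    ring
  · show u p * (a • w + b • w').2 = a * (u p * w.2) + b * (u p * w'.2)
    simp only [Prod.snd_add, Prod.smul_snd, smul_eq_mul]
    ring

theorem analyticAt_hA {q w : ℂ × ℂ → ℂ × ℂ} {p : ℂ × ℂ} (hq : AnalyticAt ℂ q p) (hw : AnalyticAt ℂ w p) : AnalyticAt ℂ (fun x => hA (q x) (w x)) p :=
  analyticAt_vec3 ((analyticAt_snd.fun_comp hq).mul (analyticAt_fst.fun_comp hw)) ((analyticAt_fst.fun_comp hq).mul (analyticAt_snd.fun_comp hw))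
    analyticAt_const

theorem analyticAt_hB {u : ℂ × ℂ → ℂ} {q w : ℂ × ℂ → ℂ × ℂ} {p : ℂ × ℂ} (hu : AnalyticAt ℂ u (q p)) (hq : AnalyticAt ℂ q p) (hw : AnalyticAt ℂ w p) :
    AnalyticAt ℂ (fun x => hB u (q x) (w x)) p := by
  have h1 : AnalyticAt ℂ (fun x => u (q x)) p := hu.fun_comp hq
  have h2 : AnalyticAt ℂ (fun x => fderiv ℂ u (q x)) p := hu.fderiv.fun_comp hq
  have h3 : AnalyticAt ℂ (fun x => fderiv ℂ u (q x) (w x)) p :=
    AnalyticAt.comp (g := fun z : (ℂ × ℂ →L[ℂ] ℂ) × (ℂ × ℂ) => z.1 z.2) (f := fun x => (fderiv ℂ u (q x), w x))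
      (ContinuousLinearMap.analyticAt_bilinear (ContinuousLinearMap.id ℂ (ℂ × ℂ →L[ℂ] ℂ)) _) (h2.prod hw)
  exact analyticAt_vec3 h3 (h1.mul (analyticAt_fst.fun_comp hw)) (h1.mul (analyticAt_snd.fun_comp hw))

theorem analyticAt_fderiv_comp {f : ℂ × ℂ → ℂ × ℂ} {q w : ℂ × ℂ → ℂ × ℂ} {p : ℂ × ℂ} (hf : AnalyticAt ℂ f (q p)) (hq : AnalyticAt ℂ q p)
    (hw : AnalyticAt ℂ w p) : AnalyticAt ℂ (fun x => fderiv ℂ f (q x) (w x)) p := by
  have h2 : AnalyticAt ℂ (fun x => fderiv ℂ f (q x)) p := hf.fderiv.fun_comp hq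
  exact AnalyticAt.comp (g := fun z : (ℂ × ℂ →L[ℂ] ℂ × ℂ) × (ℂ × ℂ) => z.1 z.2) (f := fun x => (fderiv ℂ f (q x), w x))
    (ContinuousLinearMap.analyticAt_bilinear (ContinuousLinearMap.id ℂ (ℂ × ℂ →L[ℂ] ℂ × ℂ)) _) (h2.prod hw)

/-! ### the vectors and general linear maps: `L w` is a linear function of `hA x w` off the axes, of `hB u x w` where `u ≠ 0` -/

theorem lin_hA {x : ℂ × ℂ} (h1 : x.1 ≠ 0) (h2 : x.2 ≠ 0) (L : ℂ × ℂ → EN 2) (hL : ∀ w w' : ℂ × ℂ, ∀ a b : ℂ, L (a • w + b • w') = a • L w + b • L w')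
    (w : ℂ × ℂ) : L w = mk3 (L (x.2⁻¹, 0)) (L (0, x.1⁻¹)) 0 (hA x w) := by
  rw [mk3_apply, (hA_apply x w).1, (hA_apply x w).2.1, (hA_apply x w).2.2, zero_smul, add_zero, ← hL]
  congr 1
  refine Prod.ext ?_ ?_
  · simp only [Prod.fst_add, Prod.smul_fst, smul_eq_mul, mul_zero, add_zero]
    field_simp
  · simp only [Prod.snd_add, Prod.smul_snd, smul_eq_mul, mul_zero, zero_add]
    field_simp

theorem lin_hB {u : ℂ × ℂ → ℂ} {x : ℂ × ℂ} (h0 : u x ≠ 0) (L : ℂ × ℂ → EN 2)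
    (hL : ∀ w w' : ℂ × ℂ, ∀ a b : ℂ, L (a • w + b • w') = a • L w + b • L w') (w : ℂ × ℂ) :
    L w = mk3 0 (L ((u x)⁻¹, 0)) (L (0, (u x)⁻¹)) (hB u x w) := by
  rw [mk3_apply, (hB_apply u x w).2.1, (hB_apply u x w).2.2, smul_zero, zero_add, ← hL]
  congr 1
  refine Prod.ext ?_ ?_
  · simp only [Prod.fst_add, Prod.smul_fst, smul_eq_mul, mul_zero, add_zero]
    field_simp
  · simp only [Prod.snd_add, Prod.smul_snd, smul_eq_mul, mul_zero, zero_add]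
    field_simp

/-! ### division by the coordinates -/

theorem exists_divx {f : ℂ × ℂ → ℂ} {p : ℂ × ℂ} (hf : AnalyticAt ℂ f p) (h : ∀ᶠ x in 𝓝 p, x.1 = 0 → f x = 0) :
    ∃ g : ℂ × ℂ → ℂ, AnalyticAt ℂ g p ∧ ∀ᶠ x in 𝓝 p, f x = x.1 * g x := by
  by_cases hp : p.1 = 0
  · exact exists_div₁ hf hp h
  · refine ⟨fun x => f x / x.1, hf.fun_div analyticAt_fst hp, ?_⟩
    filter_upwards [(analyticAt_fst (𝕜 := ℂ) (p := p)).continuousAt.eventually_ne hp] with x hx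
    field_simp

theorem exists_divy {f : ℂ × ℂ → ℂ} {p : ℂ × ℂ} (hf : AnalyticAt ℂ f p) (h : ∀ᶠ x in 𝓝 p, x.2 = 0 → f x = 0) :
    ∃ g : ℂ × ℂ → ℂ, AnalyticAt ℂ g p ∧ ∀ᶠ x in 𝓝 p, f x = x.2 * g x := by
  by_cases hp : p.2 = 0
  · exact exists_div₂ hf hp h
  · refine ⟨fun x => f x / x.2, hf.fun_div analyticAt_snd hp, ?_⟩
    filter_upwards [(analyticAt_snd (𝕜 := ℂ) (p := p)).continuousAt.eventually_ne hp] with x hx
    field_simp

/-- the derivative along a line on which the function vanishes -/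
theorem fderiv_line {f : ℂ × ℂ → ℂ} {x e : ℂ × ℂ} (hf : DifferentiableAt ℂ f x) (h : ∀ᶠ t in 𝓝 (0 : ℂ), f (x + t • e) = 0) : fderiv ℂ f x e = 0 := by
  rw [← hf.lineDeriv_eq_fderiv, lineDeriv]
  have h1 : (fun t : ℂ => f (x + t • e)) =ᶠ[𝓝 0] fun _ => 0 := h
  rw [h1.deriv_eq, deriv_const]

theorem fderiv_fst {Φ : ℂ × ℂ → ℂ × ℂ} {x : ℂ × ℂ} (h : DifferentiableAt ℂ Φ x) (w : ℂ × ℂ) : fderiv ℂ (fun y => (Φ y).1) x w = (fderiv ℂ Φ x w).1 := by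
  have h1 : HasFDerivAt (fun y => (Φ y).1) ((ContinuousLinearMap.fst ℂ ℂ ℂ).comp (fderiv ℂ Φ x)) x :=
    (ContinuousLinearMap.fst ℂ ℂ ℂ).hasFDerivAt.comp x h.hasFDerivAt
  rw [h1.fderiv]
  rfl

theorem fderiv_snd {Φ : ℂ × ℂ → ℂ × ℂ} {x : ℂ × ℂ} (h : DifferentiableAt ℂ Φ x) (w : ℂ × ℂ) : fderiv ℂ (fun y => (Φ y).2) x w = (fderiv ℂ Φ x w).2 := by
  have h1 : HasFDerivAt (fun y => (Φ y).2) ((ContinuousLinearMap.snd ℂ ℂ ℂ).comp (fderiv ℂ Φ x)) x :=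
    (ContinuousLinearMap.snd ℂ ℂ ℂ).hasFDerivAt.comp x h.hasFDerivAt
  rw [h1.fderiv]
  rfl

/-- `f g = 0` and `g ≠ 0` on a piece of the axis: the derivative of `f` along the axis vanishes -/
theorem axis_deriv {f g : ℂ × ℂ → ℂ} {p e : ℂ × ℂ} {c : ℂ × ℂ → ℂ} (hf : AnalyticAt ℂ f p) (hg : AnalyticAt ℂ g p)
    (hc : ∀ (x : ℂ × ℂ) (t : ℂ), c (x + t • e) = c x) (h0 : f p ≠ 0 ∨ g p ≠ 0) (h : ∀ᶠ x in 𝓝 p, c x = 0 → f x * g x = 0) :
    ∀ᶠ x in 𝓝 p, c x = 0 → g x * fderiv ℂ f x e = 0 := by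
  rcases h0 with h0 | h0
  · filter_upwards [h, hf.continuousAt.eventually_ne h0] with x h1 h2 h3
    rw [(mul_eq_zero.1 (h1 h3)).resolve_left h2, zero_mul]
  · filter_upwards [h.eventually_nhds, (hg.continuousAt.eventually_ne h0).eventually_nhds, hf.eventually_analyticAt] with x h1 h2 h3 h4
    have h5 : Tendsto (fun t : ℂ => x + t • e) (𝓝 0) (𝓝 x) := by
      have h6 : Continuous fun t : ℂ => x + t • e := by fun_prop
      have h7 := h6.tendsto 0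
      rwa [zero_smul, add_zero] at h7
    rw [fderiv_line h3.differentiableAt ?_, mul_zero]
    filter_upwards [h5.eventually h1, h5.eventually h2] with t h6 h7
    exact (mul_eq_zero.1 (h6 (by rw [hc]; exact h4))).resolve_right h7

/-- `hA (Φ x) (DΦ w)` is a linear function of `hA x w` -/
theorem relA1 {Φ : ℂ × ℂ → ℂ × ℂ} {p : ℂ × ℂ} (hΦ : AnalyticAt ℂ Φ p) (hq : Φ p ≠ 0) (h : ∀ᶠ x in 𝓝 p, x.1 * x.2 = 0 → (Φ x).1 * (Φ x).2 = 0) :
    ∃ A : ℂ × ℂ → (EN 2 →L[ℂ] EN 2), AnalyticAt ℂ A p ∧ ∀ᶠ x in 𝓝 p, ∀ w, hA (Φ x) (fderiv ℂ Φ x w) = A x (hA x w) := by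
  have hf : AnalyticAt ℂ (fun x => (Φ x).1) p := analyticAt_fst.fun_comp hΦ
  have hg : AnalyticAt ℂ (fun x => (Φ x).2) p := analyticAt_snd.fun_comp hΦ
  have h0 : (Φ p).1 ≠ 0 ∨ (Φ p).2 ≠ 0 := by
    by_contra hcon
    push Not at hcon
    exact hq (Prod.ext hcon.1 hcon.2)
  have hx : ∀ (x : ℂ × ℂ) (t : ℂ), (x + t • ((0, 1) : ℂ × ℂ)).1 = x.1 := by
    intro x t
    simp
  have hy : ∀ (x : ℂ × ℂ) (t : ℂ), (x + t • ((1, 0) : ℂ × ℂ)).2 = x.2 := by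
    intro x t
    simp
  have hd : ∀ {f : ℂ × ℂ → ℂ}, AnalyticAt ℂ f p → ∀ e : ℂ × ℂ, AnalyticAt ℂ (fun x => fderiv ℂ f x e) p := fun hf e =>
    analyticAt_fderiv_app hf analyticAt_const
  obtain ⟨a, ha, ha'⟩ := exists_divy (hg.fun_mul (hd hf (1, 0))) (axis_deriv (c := Prod.snd) hf hg hy h0 (by
    filter_upwards [h] with x h1 h2
    exact h1 (by rw [h2, mul_zero])))
  obtain ⟨b, hb, hb'⟩ := exists_divx (hg.fun_mul (hd hf (0, 1))) (axis_deriv (c := Prod.fst) hf hg hx h0 (by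
    filter_upwards [h] with x h1 h2
    exact h1 (by rw [h2, zero_mul])))
  obtain ⟨c, hc, hc'⟩ := exists_divy (hf.fun_mul (hd hg (1, 0))) (axis_deriv (c := Prod.snd) hg hf hy h0.symm (by
    filter_upwards [h] with x h1 h2
    rw [mul_comm]
    exact h1 (by rw [h2, mul_zero])))
  obtain ⟨d, hd', hd''⟩ := exists_divx (hf.fun_mul (hd hg (0, 1))) (axis_deriv (c := Prod.fst) hg hf hx h0.symm (by
    filter_upwards [h] with x h1 h2
    rw [mul_comm]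
    exact h1 (by rw [h2, zero_mul])))
  refine ⟨fun x => mk3 (WithLp.toLp 2 ![a x, c x, 0]) (WithLp.toLp 2 ![b x, d x, 0]) 0,
    analyticAt_mk3 (analyticAt_vec3 ha hc analyticAt_const) (analyticAt_vec3 hb hd' analyticAt_const) analyticAt_const, ?_⟩
  filter_upwards [ha', hb', hc', hd'', hΦ.eventually_analyticAt] with x e1 e2 e3 e4 h5 w
  rw [fderiv_fst h5.differentiableAt] at e1 e2
  rw [fderiv_snd h5.differentiableAt] at e3 e4
  have hw := split_vec (fderiv ℂ Φ x) w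
  rw [mk3_apply]
  refine ext3 ?_ ?_ ?_
  · show (Φ x).2 * (fderiv ℂ Φ x w).1 = x.2 * w.1 * a x + x.1 * w.2 * b x + 0 * 0
    rw [hw]
    simp only [Prod.fst_add, Prod.smul_fst, smul_eq_mul]
    linear_combination w.1 * e1 + w.2 * e2
  · show (Φ x).1 * (fderiv ℂ Φ x w).2 = x.2 * w.1 * c x + x.1 * w.2 * d x + 0 * 0
    rw [hw]
    simp only [Prod.snd_add, Prod.smul_snd, smul_eq_mul]
    linear_combination w.1 * e3 + w.2 * e4
  · show (0 : ℂ) = x.2 * w.1 * 0 + x.1 * w.2 * 0 + 0 * 0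
    ring

/-- `hB u' (Φ x) (DΦ w)` is a linear function of `hB u x w` -/
theorem relB1 {Φ : ℂ × ℂ → ℂ × ℂ} {p : ℂ × ℂ} (hΦ : AnalyticAt ℂ Φ p) {u u' U : ℂ × ℂ → ℂ} (hu : AnalyticAt ℂ u p) (hu' : AnalyticAt ℂ u' (Φ p))
    (hU : AnalyticAt ℂ U p) (h : ∀ᶠ x in 𝓝 p, u' (Φ x) = u x * U x) :
    ∃ A : ℂ × ℂ → (EN 2 →L[ℂ] EN 2), AnalyticAt ℂ A p ∧ ∀ᶠ x in 𝓝 p, ∀ w, hB u' (Φ x) (fderiv ℂ Φ x w) = A x (hB u x w) := by
  have hd : ∀ e : ℂ × ℂ, AnalyticAt ℂ (fun x => fderiv ℂ U x e) p := fun e => analyticAt_fderiv_app hU analyticAt_const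
  have hD : ∀ e : ℂ × ℂ, AnalyticAt ℂ (fun x => fderiv ℂ Φ x e) p := fun e => analyticAt_fderiv_app hΦ analyticAt_const
  refine ⟨fun x => mk3 (WithLp.toLp 2 ![U x, 0, 0])
    (WithLp.toLp 2 ![fderiv ℂ U x (1, 0), U x * (fderiv ℂ Φ x (1, 0)).1, U x * (fderiv ℂ Φ x (1, 0)).2])
    (WithLp.toLp 2 ![fderiv ℂ U x (0, 1), U x * (fderiv ℂ Φ x (0, 1)).1, U x * (fderiv ℂ Φ x (0, 1)).2]),
    analyticAt_mk3 (analyticAt_vec3 hU analyticAt_const analyticAt_const)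
      (analyticAt_vec3 (hd _) (hU.mul (analyticAt_fst.fun_comp (hD _))) (hU.mul (analyticAt_snd.fun_comp (hD _))))
      (analyticAt_vec3 (hd _) (hU.mul (analyticAt_fst.fun_comp (hD _))) (hU.mul (analyticAt_snd.fun_comp (hD _)))), ?_⟩
  filter_upwards [h.eventually_nhds, hΦ.eventually_analyticAt, hu.eventually_analyticAt, hU.eventually_analyticAt,
    hΦ.continuousAt.eventually hu'.eventually_analyticAt] with x e1 h2 h3 h4 h5 w
  have h6 : HasFDerivAt (fun y => u' (Φ y)) ((fderiv ℂ u' (Φ x)).comp (fderiv ℂ Φ x)) x :=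
    h5.differentiableAt.hasFDerivAt.comp x h2.differentiableAt.hasFDerivAt
  have h7 := h3.differentiableAt.hasFDerivAt.mul h4.differentiableAt.hasFDerivAt
  have h8 := congrArg (fun L : ℂ × ℂ →L[ℂ] ℂ => L w) (h6.unique (h7.congr_of_eventuallyEq e1))
  have h9 : fderiv ℂ u' (Φ x) (fderiv ℂ Φ x w) = u x * fderiv ℂ U x w + U x * fderiv ℂ u x w := by
    simpa using h8
  have hw := split_vec (fderiv ℂ Φ x) w
  have hw' := split_sc (fderiv ℂ U x) w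
  have e0 := e1.self_of_nhds
  rw [mk3_apply]
  refine ext3 ?_ ?_ ?_
  · show fderiv ℂ u' (Φ x) (fderiv ℂ Φ x w) = fderiv ℂ u x w * U x + u x * w.1 * fderiv ℂ U x (1, 0) + u x * w.2 * fderiv ℂ U x (0, 1)
    rw [h9, hw']
    ring
  · show u' (Φ x) * (fderiv ℂ Φ x w).1 = fderiv ℂ u x w * 0 + u x * w.1 * (U x * (fderiv ℂ Φ x (1, 0)).1) + u x * w.2 * (U x * (fderiv ℂ Φ x (0, 1)).1)
    rw [e0, hw]
    simp only [Prod.fst_add, Prod.smul_fst, smul_eq_mul]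
    ring
  · show u' (Φ x) * (fderiv ℂ Φ x w).2 = fderiv ℂ u x w * 0 + u x * w.1 * (U x * (fderiv ℂ Φ x (1, 0)).2) + u x * w.2 * (U x * (fderiv ℂ Φ x (0, 1)).2)
    rw [e0, hw]
    simp only [Prod.snd_add, Prod.smul_snd, smul_eq_mul]
    ring

/-- a function which vanishes on the smooth (or empty) curve `{u = 0}` is a multiple of `u` -/
theorem exists_quot' {u f : ℂ × ℂ → ℂ} {p : ℂ × ℂ} (hu : AnalyticAt ℂ u p) (hf : AnalyticAt ℂ f p) (hr : u p = 0 → fderiv ℂ u p ≠ 0)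
    (h : ∀ᶠ x in 𝓝 p, u x = 0 → f x = 0) : ∃ U : ℂ × ℂ → ℂ, AnalyticAt ℂ U p ∧ ∀ᶠ x in 𝓝 p, f x = u x * U x := by
  by_cases h0 : u p = 0
  · exact exists_quot_smooth hu h0 (hr h0) hf h
  · refine ⟨fun x => f x / u x, hf.fun_div hu h0, ?_⟩
    filter_upwards [hu.continuousAt.eventually_ne h0] with x hx
    field_simp

/-! ### the inverse change of boxes -/

variable {M : ℕ} {P : Ideal (MvPolynomial (Fin (M + 1)) ℂ)} {RD : MvPolynomial (Fin (M + 1)) ℂ} {X : NCModel P RD}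

theorem chg_mem {i j : X.ι} {Φ : ℂ × ℂ → ℂ × ℂ} {p : ℂ × ℂ} (h : Chg X i j Φ p) : ∀ᶠ x in 𝓝 p, x ∈ X.B i ∧ Φ x ∈ X.B j := by
  filter_upwards [(X.isOpen i).mem_nhds h.mem, h.an.continuousAt.eventually ((X.isOpen j).mem_nhds h.mem')] with x h1 h2
  exact ⟨h1, h2⟩

theorem chg_inv {i j : X.ι} {Φ : ℂ × ℂ → ℂ × ℂ} {p : ℂ × ℂ} (h : Chg X i j Φ p) :
    ∃ Ψ, Chg X j i Ψ (Φ p) ∧ Ψ (Φ p) = p ∧ (∀ᶠ x in 𝓝 p, Ψ (Φ x) = x ∧ ∀ w, fderiv ℂ Ψ (Φ x) (fderiv ℂ Φ x w) = w) ∧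
      ∀ᶠ y in 𝓝 (Φ p), Φ (Ψ y) = y := by
  have h1 : X.rel j (Φ p) i p := X.symm _ _ _ _ h.mem h.mem' h.rel.self_of_nhds
  obtain ⟨Ψ, ha, h2, h3, h4, h5⟩ := X.iso j i (Φ p) h.mem' p h.mem h1
  have hΨ : Chg X j i Ψ (Φ p) := ⟨h.mem', by rw [h2]; exact h.mem, ha, h3, h4, h5⟩
  have hid : ∀ᶠ x in 𝓝 p, Ψ (Φ x) = x := by
    filter_upwards [chg_mem h, h.rel, h.an.continuousAt.eventually (chg_mem hΨ), h.an.continuousAt.eventually h4] with x h6 h7 h8 h9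
    exact ((X.refl i x h6.1 _ h8.2).1 (X.trans _ _ _ _ _ _ h6.1 h6.2 h8.2 h7 h9)).symm
  have ht : Tendsto Ψ (𝓝 (Φ p)) (𝓝 p) := by
    have := ha.continuousAt.tendsto
    rwa [h2] at this
  refine ⟨Ψ, hΨ, h2, ?_, ?_⟩
  · filter_upwards [hid.eventually_nhds, h.an.eventually_analyticAt, h.an.continuousAt.eventually ha.eventually_analyticAt] with x h6 h7 h8
    refine ⟨h6.self_of_nhds, fun w => ?_⟩
    have h9 : HasFDerivAt (fun y => Ψ (Φ y)) ((fderiv ℂ Ψ (Φ x)).comp (fderiv ℂ Φ x)) x :=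
      h8.differentiableAt.hasFDerivAt.comp x h7.differentiableAt.hasFDerivAt
    have h10 : HasFDerivAt (fun y : ℂ × ℂ => y) (ContinuousLinearMap.id ℂ (ℂ × ℂ)) x := hasFDerivAt_id x
    exact congrArg (fun L : ℂ × ℂ →L[ℂ] ℂ × ℂ => L w) (h9.unique (h10.congr_of_eventuallyEq h6))
  · filter_upwards [chg_mem hΨ, h4, ht.eventually (chg_mem h), ht.eventually h.rel] with y h6 h7 h8 h9
    exact ((X.refl j y h6.1 _ h8.2).1 (X.trans _ _ _ _ _ _ h6.1 h6.2 h8.2 h7 h9)).symm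

/-- at a crossing point the change of boxes is the identity -/
theorem chg_corner {i j : X.ι} {Φ : ℂ × ℂ → ℂ × ℂ} {p : ℂ × ℂ} (h : Chg X i j Φ p) (h0 : p = 0 ∨ Φ p = 0) : ∀ᶠ x in 𝓝 p, Φ x = x := by
  have hij : i = j := by
    rcases h0 with h0 | h0
    · have h1 := h.mem
      rw [h0] at h1
      have h2 := h.rel.self_of_nhds
      rw [h0] at h2
      have h3 := h.mem'
      rw [h0] at h3
      exact (((X.corner i h1).2 j _ h3 h2).1).symm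
    · have h1 := h.mem'
      rw [h0] at h1
      have h2 := X.symm _ _ _ _ h.mem h.mem' h.rel.self_of_nhds
      rw [h0] at h2
      exact ((X.corner j h1).2 i _ h.mem h2).1
  subst hij
  filter_upwards [chg_mem h, h.rel] with x h1 h2
  exact ((X.refl i x h1.1 _ h1.2).1 h2).symm

/-- the divisor is preserved -/
theorem chg_div (hd : ∃ d, RD.IsHomogeneous d) {i j : X.ι} {Φ : ℂ × ℂ → ℂ × ℂ} {p : ℂ × ℂ} (h : Chg X i j Φ p) :
    ∀ᶠ x in 𝓝 p, x.1 * x.2 = 0 ↔ (Φ x).1 * (Φ x).2 = 0 := by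
  obtain ⟨d, hd⟩ := hd
  filter_upwards [chg_mem h, h.eq] with x h1 h2
  obtain ⟨c, hc, h3⟩ := h2
  rw [← X.div i x h1.1, ← X.div j _ h1.2, h3]
  have h4 : eval (c • X.ρ j (Φ x)).ofLp RD = c ^ d * eval (X.ρ j (Φ x)).ofLp RD := by
    have h5 : (c • X.ρ j (Φ x)).ofLp = c • (X.ρ j (Φ x)).ofLp := rfl
    rw [h5]
    exact Pool.Agent.H17EF.eval_smul_form hd c _
  rw [h4, mul_eq_zero, or_iff_right (pow_ne_zero d hc)]

end ChgN

open ChgN

variable {M : ℕ} {P : Ideal (MvPolynomial (Fin (M + 1)) ℂ)} {RD : MvPolynomial (Fin (M + 1)) ℂ} {X : NCModel P RD}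

/-! ### the four changes -/

theorem vrel_A (hd : ∃ d, RD.IsHomogeneous d) {i j : X.ι} {Φ : ℂ × ℂ → ℂ × ℂ} {p : ℂ × ℂ} (h : Chg X i j Φ p) : VRel hA hA Φ p := by
  by_cases h0 : p = 0 ∨ Φ p = 0
  · have h1 := chg_corner h h0
    refine ⟨fun _ => ContinuousLinearMap.id ℂ (EN 2), fun _ => ContinuousLinearMap.id ℂ (EN 2), analyticAt_const, analyticAt_const, ?_⟩
    filter_upwards [h1.eventually_nhds] with x h2 w
    have h3 : fderiv ℂ Φ x = ContinuousLinearMap.id ℂ (ℂ × ℂ) := by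
      have h4 : Φ =ᶠ[𝓝 x] fun y => y := h2
      rw [h4.fderiv_eq]
      exact fderiv_id
    rw [h3, h2.self_of_nhds]
    exact ⟨rfl, rfl⟩
  · push Not at h0
    obtain ⟨Ψ, hΨ, h2, h3, h4⟩ := chg_inv h
    have hdv := chg_div hd h
    have hdv' := chg_div hd hΨ
    obtain ⟨A, hA1, hA2⟩ := relA1 h.an h0.2 (hdv.mono fun x hx => hx.1)
    obtain ⟨A', hA1', hA2'⟩ := relA1 hΨ.an (by rw [h2]; exact h0.1) (hdv'.mono fun x hx => hx.1)
    refine ⟨A, fun x => A' (Φ x), hA1, hA1'.fun_comp h.an, ?_⟩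
    filter_upwards [hA2, h.an.continuousAt.eventually hA2', h3] with x h5 h6 h7 w
    refine ⟨h5 w, ?_⟩
    have h8 := h6 (fderiv ℂ Φ x w)
    rwa [h7.1, h7.2 w] at h8

/-- `u` is a unit at `p` -/
theorem vrel_AB {i j : X.ι} {Φ : ℂ × ℂ → ℂ × ℂ} {p : ℂ × ℂ} (h : Chg X i j Φ p) (hp : p ∈ DS) {u : ℂ × ℂ → ℂ} (hu : AnalyticAt ℂ u (Φ p)) (h0 : u (Φ p) ≠ 0) :
    VRel hA (hB u) Φ p := by
  obtain ⟨Ψ, hΨ, h2, h3, h4⟩ := chg_inv h
  have hp1 : p.1 ≠ 0 := hp.1.1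
  have hp2 : p.2 ≠ 0 := hp.2.1
  have hc : AnalyticAt ℂ (fun _ : ℂ × ℂ => (0 : ℂ)) p := analyticAt_const
  have hx : AnalyticAt ℂ (fun x : ℂ × ℂ => x.1⁻¹) p := analyticAt_fst.fun_inv hp1
  have hy : AnalyticAt ℂ (fun x : ℂ × ℂ => x.2⁻¹) p := analyticAt_snd.fun_inv hp2
  have hui : AnalyticAt ℂ (fun x : ℂ × ℂ => (u (Φ x))⁻¹) p := (hu.fun_comp h.an).fun_inv h0
  refine ⟨fun x => mk3 (hB u (Φ x) (fderiv ℂ Φ x (x.2⁻¹, 0))) (hB u (Φ x) (fderiv ℂ Φ x (0, x.1⁻¹))) 0,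
    fun x => mk3 0 (hA x (fderiv ℂ Ψ (Φ x) ((u (Φ x))⁻¹, 0))) (hA x (fderiv ℂ Ψ (Φ x) (0, (u (Φ x))⁻¹))), ?_, ?_, ?_⟩
  · exact analyticAt_mk3 (analyticAt_hB hu h.an (analyticAt_fderiv_app h.an (hy.prod hc))) (analyticAt_hB hu h.an (analyticAt_fderiv_app h.an (hc.prod hx)))
      analyticAt_const
  · exact analyticAt_mk3 analyticAt_const (analyticAt_hA analyticAt_id (analyticAt_fderiv_comp hΨ.an h.an (hui.prod hc)))
      (analyticAt_hA analyticAt_id (analyticAt_fderiv_comp hΨ.an h.an (hc.prod hui)))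
  · filter_upwards [(analyticAt_fst (𝕜 := ℂ) (p := p)).continuousAt.eventually_ne hp1, (analyticAt_snd (𝕜 := ℂ) (p := p)).continuousAt.eventually_ne hp2,
      (hu.fun_comp h.an).continuousAt.eventually_ne h0, h3] with x e1 e2 e3 e4 w
    refine ⟨?_, ?_⟩
    · exact lin_hA e1 e2 (fun w => hB u (Φ x) (fderiv ℂ Φ x w)) (fun w w' a b => by
        simp only [map_add, map_smul]
        exact hB_comb u _ _ _ a b) w
    · have h5 := lin_hB (u := u) (x := Φ x) e3 (fun v => hA x (fderiv ℂ Ψ (Φ x) v)) (fun w w' a b => by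
        simp only [map_add, map_smul]
        exact hA_comb _ _ _ a b) (fderiv ℂ Φ x w)
      simp only [e4.2 w] at h5
      exact h5

theorem vrel_BA (hd : ∃ d, RD.IsHomogeneous d) {i j : X.ι} {Φ : ℂ × ℂ → ℂ × ℂ} {p : ℂ × ℂ} (h : Chg X i j Φ p) (hp : p ∈ DS) {u : ℂ × ℂ → ℂ}
    (hu : AnalyticAt ℂ u p) (h0 : u p ≠ 0) : VRel (hB u) hA Φ p := by
  obtain ⟨Ψ, hΨ, h2, h3, h4⟩ := chg_inv h
  have hp1 : p.1 ≠ 0 := hp.1.1
  have hp2 : p.2 ≠ 0 := hp.2.1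
  have hq : (Φ p).1 * (Φ p).2 ≠ 0 := fun e => mul_ne_zero hp1 hp2 ((chg_div hd h).self_of_nhds.2 e)
  have hq1 : (Φ p).1 ≠ 0 := left_ne_zero_of_mul hq
  have hq2 : (Φ p).2 ≠ 0 := right_ne_zero_of_mul hq
  have hc : AnalyticAt ℂ (fun _ : ℂ × ℂ => (0 : ℂ)) p := analyticAt_const
  have hf : AnalyticAt ℂ (fun x => (Φ x).1) p := analyticAt_fst.fun_comp h.an
  have hg : AnalyticAt ℂ (fun x => (Φ x).2) p := analyticAt_snd.fun_comp h.an
  have hx : AnalyticAt ℂ (fun x : ℂ × ℂ => (Φ x).1⁻¹) p := hf.fun_inv hq1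
  have hy : AnalyticAt ℂ (fun x : ℂ × ℂ => (Φ x).2⁻¹) p := hg.fun_inv hq2
  have hui : AnalyticAt ℂ (fun x : ℂ × ℂ => (u x)⁻¹) p := hu.fun_inv h0
  refine ⟨fun x => mk3 0 (hA (Φ x) (fderiv ℂ Φ x ((u x)⁻¹, 0))) (hA (Φ x) (fderiv ℂ Φ x (0, (u x)⁻¹))),
    fun x => mk3 (hB u x (fderiv ℂ Ψ (Φ x) ((Φ x).2⁻¹, 0))) (hB u x (fderiv ℂ Ψ (Φ x) (0, (Φ x).1⁻¹))) 0, ?_, ?_, ?_⟩
  · exact analyticAt_mk3 analyticAt_const (analyticAt_hA h.an (analyticAt_fderiv_app h.an (hui.prod hc)))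
      (analyticAt_hA h.an (analyticAt_fderiv_app h.an (hc.prod hui)))
  · exact analyticAt_mk3 (analyticAt_hB hu analyticAt_id (analyticAt_fderiv_comp hΨ.an h.an (hy.prod hc)))
      (analyticAt_hB hu analyticAt_id (analyticAt_fderiv_comp hΨ.an h.an (hc.prod hx))) analyticAt_const
  · filter_upwards [hf.continuousAt.eventually_ne hq1, hg.continuousAt.eventually_ne hq2, hu.continuousAt.eventually_ne h0, h3] with x e1 e2 e3 e4 w
    refine ⟨?_, ?_⟩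
    · exact lin_hB e3 (fun w => hA (Φ x) (fderiv ℂ Φ x w)) (fun w w' a b => by
        simp only [map_add, map_smul]
        exact hA_comb _ _ _ a b) w
    · have h5 := lin_hA (x := Φ x) e1 e2 (fun v => hB u x (fderiv ℂ Ψ (Φ x) v)) (fun w w' a b => by
        simp only [map_add, map_smul]
        exact hB_comb u _ _ _ a b) (fderiv ℂ Φ x w)
      simp only [e4.2 w] at h5
      exact h5

/-- two reduced equations of the same curve -/
theorem vrel_B {i j : X.ι} {Φ : ℂ × ℂ → ℂ × ℂ} {p : ℂ × ℂ} (h : Chg X i j Φ p) {u u' : ℂ × ℂ → ℂ} (hu : AnalyticAt ℂ u p) (hu' : AnalyticAt ℂ u' (Φ p))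
    (hr : ∀ᶠ x in 𝓝 p, u x = 0 → fderiv ℂ u x ≠ 0) (hr' : ∀ᶠ x in 𝓝 (Φ p), u' x = 0 → fderiv ℂ u' x ≠ 0) (he : ∀ᶠ x in 𝓝 p, u x = 0 ↔ u' (Φ x) = 0) :
    VRel (hB u) (hB u') Φ p := by
  obtain ⟨Ψ, hΨ, h2, h3, h4⟩ := chg_inv h
  have huΨ : AnalyticAt ℂ u (Ψ (Φ p)) := by rwa [h2]
  have ht : Tendsto Ψ (𝓝 (Φ p)) (𝓝 p) := by
    have := hΨ.an.continuousAt.tendsto
    rwa [h2] at this
  obtain ⟨U, hU, hU'⟩ := exists_quot' hu (hu'.fun_comp h.an) hr.self_of_nhds (he.mono fun x hx => hx.1)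
  obtain ⟨V, hV, hV'⟩ := exists_quot' hu' (huΨ.fun_comp hΨ.an) hr'.self_of_nhds (by
    filter_upwards [ht.eventually he, h4] with y h5 h6 h7
    exact h5.2 (by rw [h6]; exact h7))
  obtain ⟨A, hA1, hA2⟩ := relB1 h.an hu hu' hU hU'
  obtain ⟨A', hA1', hA2'⟩ := relB1 hΨ.an hu' huΨ hV hV'
  refine ⟨A, fun x => A' (Φ x), hA1, hA1'.fun_comp h.an, ?_⟩
  filter_upwards [hA2, h.an.continuousAt.eventually hA2', h3] with x h5 h6 h7 w
  refine ⟨h5 w, ?_⟩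
  have h8 := h6 (fderiv ℂ Φ x w)
  rwa [h7.1, h7.2 w] at h8

end Pool.Agent.MQ3

end
end

section

/-!
# MQ3 BdL: a change of boxes changes the potential by a bounded function (local form)
-/

set_option autoImplicit false

open Topology Filter Metric MvPolynomial MeasureTheory Laplacian

noncomputable section

namespace Pool.Agent.MQ3

open Pool.Agent.H36.BP (EN fs)
open Pool.Agent.H14.PP (Tan)
open Pool.Agent.H17BP (Surface IsForm)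
open Pool.Agent.H17EF (projVar coneE)
open Pool.Agent.H30M (tau LogSing)
open Pool.Agent.MQ (lam En ztv dvg gr dv)

namespace BdN

variable {M : ℕ} {P : Ideal (MvPolynomial (Fin (M + 1)) ℂ)} {RD : MvPolynomial (Fin (M + 1)) ℂ} {m : ℕ} {X : NCModel P RD} {θ : WDiff (coneE P) m}
  {l : LF M} {S : Web X θ l} {Ra : MvPolynomial (Fin (M + 1)) ℂ}

theorem det_eq (L : ℂ × ℂ →L[ℂ] ℂ × ℂ) : L.det = (L (1, 0)).1 * (L (0, 1)).2 - (L (0, 1)).1 * (L (1, 0)).2 := by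
  have h : L.det = LinearMap.det (L : ℂ × ℂ →ₗ[ℂ] ℂ × ℂ) := rfl
  rw [h, ← LinearMap.det_toMatrix (Module.Basis.finTwoProd ℂ), Matrix.det_fin_two]
  simp [LinearMap.toMatrix_apply]

theorem jc_ne {Φ : ℂ × ℂ → ℂ × ℂ} {p : ℂ × ℂ} (h : (fderiv ℂ Φ p).det ≠ 0) : jc Φ p ≠ 0 := by
  rw [det_eq] at h
  exact h

theorem eval_smul_hom {R : MvPolynomial (Fin (M + 1)) ℂ} {d : ℕ} (hR : R.IsHomogeneous d) {c : ℂ} (hc : c ≠ 0) (x : EN M) :
    eval (c • x).ofLp R = 0 ↔ eval x.ofLp R = 0 := by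
  have h : eval (c • x).ofLp R = c ^ d * eval x.ofLp R := by
    have h1 : (c • x).ofLp = c • x.ofLp := rfl
    rw [h1]
    exact Pool.Agent.H17EF.eval_smul_form hR c x.ofLp
  rw [h, mul_eq_zero, or_iff_right (pow_ne_zero d hc)]

theorem Chg.ev {i j : X.ι} {Φ : ℂ × ℂ → ℂ × ℂ} {p : ℂ × ℂ} (h : Chg X i j Φ p) : ∀ᶠ x in 𝓝 p, Chg X i j Φ x := by
  have hdet : ContinuousAt (fun x => (fderiv ℂ Φ x).det) p :=
    ContinuousLinearMap.continuous_det.continuousAt.comp h.an.fderiv.continuousAt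
  filter_upwards [(X.isOpen i).mem_nhds h.mem, h.an.continuousAt.eventually ((X.isOpen j).mem_nhds h.mem'), h.an.eventually_analyticAt,
    hdet.eventually_ne h.det, h.rel.eventually_nhds, h.eq.eventually_nhds] with x h1 h2 h3 h4 h5 h6
  exact ⟨h1, h2, h3, h4, h5, h6⟩

/-- near `p` the change of boxes sends the curve in the box `i` to the curve in the box `j` -/
theorem p_eq {F : ℂ → EN M} (Y : NCLift X F) {i j : X.ι} {Φ : ℂ × ℂ → ℂ × ℂ} {z : ℂ} (hi : z ∈ Y.U i) (hj : z ∈ Y.U j) (h : Chg X i j Φ (Y.p i z)) :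
    Φ (Y.p i z) = Y.p j z := by
  have h1 := h.rel.self_of_nhds
  have h2 := Y.rel i j z hi hj
  have h3 := X.symm i j _ _ h.mem h.mem' h1
  exact (X.refl j _ h.mem' _ (Y.mem j z hj)).1 (X.trans j i j _ _ _ h.mem' h.mem (Y.mem j z hj) h3 h2)

theorem log_bd {a b α α' : ℝ} (ha : 0 ≤ a) (hb : 0 ≤ b) (hα : 1 ≤ α) (hα' : 1 ≤ α') (h1 : b ≤ α * a) (h2 : a ≤ α' * b) :
    |Real.log a - Real.log b| ≤ Real.log α + Real.log α' := by
  have l1 := Real.log_nonneg hα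
  have l2 := Real.log_nonneg hα'
  rcases ha.eq_or_lt with h3 | h3
  · have h4 : b = 0 := le_antisymm (by rw [← h3, mul_zero] at h1; exact h1) hb
    rw [← h3, h4, sub_self, abs_zero]
    positivity
  · have h4 : 0 < b := by
      by_contra h5
      have h6 : b = 0 := le_antisymm (not_lt.1 h5) hb
      rw [h6, mul_zero] at h2
      linarith
    have h5 : Real.log b ≤ Real.log α + Real.log a := by
      rw [← Real.log_mul (by linarith) h3.ne']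
      exact Real.log_le_log h4 h1
    have h6 : Real.log a ≤ Real.log α' + Real.log b := by
      rw [← Real.log_mul (by linarith) h4.ne']
      exact Real.log_le_log h3 h2
    rw [abs_le]
    constructor <;> linarith

variable {Wf : EN M → EN M → EN M → ℂ} {mK jH : ℕ}

/-- the local bound -/
theorem loc (hX : Surface (coneE P)) (hm : 1 ≤ mK) (hW : IsForm (coneE P) mK jH Wf) {i j : X.ι} {H H' : ℂ × ℂ → ℂ × ℂ → EN 2} {Φ : ℂ × ℂ → ℂ × ℂ}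
    {p : ℂ × ℂ} (h : Chg X i j Φ p) (hV : VRel H H' Φ p) :
    ∃ N ∈ 𝓝 p, ∃ B : ℝ, ∀ F : ℂ → EN M, Differentiable ℂ F → ∀ Y : NCLift X F, ∀ z, z ∈ Y.U i → z ∈ Y.U j → Y.p i z ∈ N →
      |eN H Wf mK jH Y i z - eN H' Wf mK jH Y j z| ≤ B := by
  obtain ⟨A, A', hA, hA', hrel⟩ := hV
  have hJ := Pool.Agent.MQ3.jc_an h.an
  have hJ0 := jc_ne h.det
  have hJc : ContinuousAt (fun x => Real.log ‖jc Φ x‖) p := hJ.continuousAt.norm.log (norm_ne_zero_iff.2 hJ0)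
  refine ⟨_, (Chg.ev h).and (hrel.and ((hA.continuousAt.norm.eventually_lt_const (lt_add_one ‖A p‖)).and
    ((hA'.continuousAt.norm.eventually_lt_const (lt_add_one ‖A' p‖)).and ((hJ.continuousAt.eventually_ne hJ0).and
      (hJc.abs.eventually_lt_const (lt_add_one |Real.log ‖jc Φ p‖|)))))),
    Real.log (‖A p‖ + 1) + Real.log (‖A' p‖ + 1) + (|Real.log ‖jc Φ p‖| + 1), ?_⟩
  rintro F hF Y z hi hj ⟨h1, h2, h3, h4, h5, h6⟩
  have h0 := p_eq Y hi hj h1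
  have hw := wt_chg hX hm hW hF Y hi hj h1 h0
  have hwz := hw.self_of_nhds.2
  have hd : deriv (Y.p j) z = fderiv ℂ Φ (Y.p i z) (deriv (Y.p i) z) := by
    rw [EventuallyEq.deriv_eq (show Y.p j =ᶠ[𝓝 z] fun w => Φ (Y.p i w) from hw.mono fun w hw => hw.1)]
    exact (h1.an.differentiableAt.hasFDerivAt.comp_hasDerivAt z (Y.an i z hi).differentiableAt.hasDerivAt).deriv
  have e1 := (h2 (deriv (Y.p i) z)).1
  have e2 := (h2 (deriv (Y.p i) z)).2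
  rw [h0, ← hd] at e1 e2
  unfold eN eH
  set a := H (Y.p i z) (deriv (Y.p i) z)
  set b := H' (Y.p j z) (deriv (Y.p j) z)
  have k1 : |Real.log ‖a‖ - Real.log ‖b‖| ≤ Real.log (‖A p‖ + 1) + Real.log (‖A' p‖ + 1) := by
    refine log_bd (norm_nonneg _) (norm_nonneg _) (by linarith [norm_nonneg (A p)]) (by linarith [norm_nonneg (A' p)]) ?_ ?_
    · rw [e1]
      exact ((A _).le_opNorm _).trans (mul_le_mul_of_nonneg_right h3.le (norm_nonneg _))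
    · rw [e2]
      exact ((A' _).le_opNorm _).trans (mul_le_mul_of_nonneg_right h4.le (norm_nonneg _))
  have k2 : |1 / mK * Real.log ‖wt Wf Y i z‖ - 1 / mK * Real.log ‖wt Wf Y j z‖| ≤ |Real.log ‖jc Φ p‖| + 1 := by
    rw [hwz]
    by_cases h7 : wt Wf Y j z = 0
    · rw [h7, mul_zero, sub_self, abs_zero]
      positivity
    · have hmK : (mK : ℝ) ≠ 0 := by positivity
      rw [norm_mul, norm_pow, Real.log_mul (pow_ne_zero _ (norm_ne_zero_iff.2 h5)) (norm_ne_zero_iff.2 h7), Real.log_pow]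
      have h8 : 1 / (mK : ℝ) * (mK * Real.log ‖jc Φ (Y.p i z)‖ + Real.log ‖wt Wf Y j z‖) - 1 / mK * Real.log ‖wt Wf Y j z‖ =
          Real.log ‖jc Φ (Y.p i z)‖ := by
        field_simp
        ring
      rw [h8]
      exact h6.le
  have k3 : Real.log ‖a‖ + 1 / mK * Real.log ‖wt Wf Y i z‖ + jH / mK * Real.log ‖F z‖ -
      (Real.log ‖b‖ + 1 / mK * Real.log ‖wt Wf Y j z‖ + jH / mK * Real.log ‖F z‖) =
      (Real.log ‖a‖ - Real.log ‖b‖) + (1 / mK * Real.log ‖wt Wf Y i z‖ - 1 / mK * Real.log ‖wt Wf Y j z‖) := by ring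
  rw [k3]
  exact (abs_add_le _ _).trans (add_le_add k1 k2)

theorem κ_cont (S : Web X θ l) (k : S.ι) : Continuous (S.κ k) := by
  show Continuous fun q => mono (S.c k).w (S.c k).w' q
  unfold mono
  fun_prop

end BdN

end Pool.Agent.MQ3

end
end

section

/-!
# MQ3 WtNB: the upper bound for the weight, and where it is not identically zero

`wt_le`: `|wt|^(1/m) |F|^(j/m) = |w0 (p)|^(1/m) |ρ (p)|^(j/m)`, `w0 y = Wf (ρ y; ∂₁ρ, ∂₂ρ)`.
`wne`: the set of the points near which the weight is zero in a box is open and closed (`wt_chg`); if `Wf (F z; F' z, w) ≠ 0` then the form is not zero in a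
chart of the surface at `F z`, so it is not zero in the boxes at the points near `z` off the axes.
-/

set_option autoImplicit false

open Topology Filter Metric MvPolynomial

noncomputable section

namespace Pool.Agent.MQ3

open Pool.Agent.H36.BP (EN)
open Pool.Agent.H17BP (Surface IsForm)
open Pool.Agent.H17EF (projVar coneE)

variable {M : ℕ} {P : Ideal (MvPolynomial (Fin (M + 1)) ℂ)} {RD : MvPolynomial (Fin (M + 1)) ℂ} {m : ℕ} {X : NCModel P RD} {θ : WDiff (coneE P) m}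
  {F : ℂ → EN M} {Wf : EN M → EN M → EN M → ℂ} {mK jH : ℕ}

/-- the upper bound -/
theorem wt_le (hX : Surface (coneE P)) (hm : 1 ≤ mK) (hW : IsForm (coneE P) mK jH Wf) (i : X.ι) {K : Set (ℂ × ℂ)} (hK : IsCompact K) (hKB : K ⊆ X.B i) :
    ∃ C : ℝ, ∀ F : ℂ → EN M, Differentiable ℂ F → ∀ Y : NCLift X F, ∀ z ∈ Y.U i, Y.p i z ∈ K → wt Wf Y i z ≠ 0 →
      1 / mK * Real.log ‖wt Wf Y i z‖ + jH / mK * Real.log ‖F z‖ ≤ C := by
  have hmK : 0 < (mK : ℝ) := by exact_mod_cast hm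
  obtain ⟨w0, hw0⟩ : ∃ w0 : ℂ × ℂ → ℂ, w0 = fun y => Wf (X.ρ i y) (fderiv ℂ (X.ρ i) y (1, 0)) (fderiv ℂ (X.ρ i) y (0, 1)) := ⟨_, rfl⟩
  have hwc : ContinuousOn w0 K := fun p hp => by
    rw [hw0]
    exact (hW.analytic (X.ρ i) p (wtn_rho_an (hKB hp)) (wtn_rho_mem (hKB hp))).continuousAt.continuousWithinAt
  have hρc : ContinuousOn (X.ρ i) K := fun p hp => (wtn_rho_an (hKB hp)).continuousAt.continuousWithinAt
  obtain ⟨C₁, hC₁⟩ := hK.exists_bound_of_continuousOn hwc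
  obtain ⟨C₂, hC₂⟩ := hK.exists_bound_of_continuousOn hρc
  refine ⟨1 / mK * Real.log (|C₁| + 1) + jH / mK * Real.log (|C₂| + 1), fun F hF Y z hz hpK h0 => ?_⟩
  obtain ⟨hc, he⟩ := cf_spec Y hz
  have h1 := wt_eq hX hW Y hz
  have h2 : wt Wf Y i z = (cf Y i z ^ jH)⁻¹ * w0 (Y.p i z) := by rw [h1, hw0]
  have hw : w0 (Y.p i z) ≠ 0 := by
    intro h3
    exact h0 (by rw [h2, h3, mul_zero])
  have hρ : X.ρ i (Y.p i z) ≠ 0 := wtn_rho_ne hX (Y.mem i z hz)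
  have hcn : ‖cf Y i z‖ ≠ 0 := norm_ne_zero_iff.2 hc
  have h3 : Real.log ‖wt Wf Y i z‖ = -(jH * Real.log ‖cf Y i z‖) + Real.log ‖w0 (Y.p i z)‖ := by
    rw [h2, norm_mul, norm_inv, norm_pow, Real.log_mul (inv_ne_zero (pow_ne_zero _ hcn)) (norm_ne_zero_iff.2 hw), Real.log_inv, Real.log_pow]
  have h4 : Real.log ‖F z‖ = Real.log ‖cf Y i z‖ + Real.log ‖X.ρ i (Y.p i z)‖ := by
    rw [he, norm_smul, Real.log_mul hcn (norm_ne_zero_iff.2 hρ)]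
  have h5 : Real.log ‖w0 (Y.p i z)‖ ≤ Real.log (|C₁| + 1) :=
    Real.log_le_log (norm_pos_iff.2 hw) (((hC₁ _ hpK).trans (le_abs_self _)).trans (by linarith))
  have h6 : Real.log ‖X.ρ i (Y.p i z)‖ ≤ Real.log (|C₂| + 1) :=
    Real.log_le_log (norm_pos_iff.2 hρ) (((hC₂ _ hpK).trans (le_abs_self _)).trans (by linarith))
  have h7 : 1 / (mK : ℝ) * Real.log ‖wt Wf Y i z‖ + jH / mK * Real.log ‖F z‖ =
      1 / mK * Real.log ‖w0 (Y.p i z)‖ + jH / mK * Real.log ‖X.ρ i (Y.p i z)‖ := by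
    rw [h3, h4]
    field_simp
    ring
  rw [h7]
  exact add_le_add (mul_le_mul_of_nonneg_left h5 (by positivity)) (mul_le_mul_of_nonneg_left h6 (by positivity))

/-- the linear combinations of two tangent vectors, modulo the radial direction -/
private theorem form_comb {Z : Set (EN M)} (hW : IsForm Z mK jH Wf) {ρ : ℂ × ℂ → EN M} {p : ℂ × ℂ} (hρ : AnalyticAt ℂ ρ p) (hm : ∀ᶠ q in 𝓝 p, ρ q ∈ Z)
    (w₁ w₂ : ℂ × ℂ) (a₁ a₂ : ℂ) : Wf (ρ p) (fderiv ℂ ρ p w₁ + a₁ • ρ p) (fderiv ℂ ρ p w₂ + a₂ • ρ p) =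
      (w₁.1 * w₂.2 - w₁.2 * w₂.1) ^ mK * Wf (ρ p) (fderiv ℂ ρ p (1, 0)) (fderiv ℂ ρ p (0, 1)) := by
  have hT : ∀ v, fderiv ℂ ρ p v ∈ Pool.Agent.H17BP.Tan Z (ρ p) := fun v => by
    obtain ⟨γ, ⟨h1, h2⟩, h3, h4⟩ := Pool.Agent.E1.ResL_tan hρ hm v
    exact ⟨γ, h1, h2, h3, h4⟩
  have hs : ∀ v : ℂ × ℂ, fderiv ℂ ρ p v = v.1 • fderiv ℂ ρ p (1, 0) + v.2 • fderiv ℂ ρ p (0, 1) := fun v => by
    have h6 : v = v.1 • ((1 : ℂ), (0 : ℂ)) + v.2 • ((0 : ℂ), (1 : ℂ)) := by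
      ext <;> simp
    conv_lhs => rw [h6, map_add, map_smul, map_smul]
  rw [hW.add_smul _ hm.self_of_nhds _ (hT _) _ (hT _), hs w₁, hs w₂, hW.det _ hm.self_of_nhds _ (hT _) _ (hT _)]

/-- not zero in a box at a point off the axes, if not zero in a parametrization of the same point -/
private theorem form_box (hX : Surface (coneE P)) (hW : IsForm (coneE P) mK jH Wf) {i : X.ι} {p : ℂ × ℂ} (hp : p ∈ DS) (hpB : p ∈ X.B i)
    {σ : ℂ × ℂ → EN M} {y : ℂ × ℂ} (hσ : AnalyticAt ℂ σ y) (hσm : ∀ᶠ q in 𝓝 y, σ q ∈ coneE P) {κ : ℂ} (hκ : κ ≠ 0) (h : σ y = κ • X.ρ i p)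
    (h0 : Wf (σ y) (fderiv ℂ σ y (1, 0)) (fderiv ℂ σ y (0, 1)) ≠ 0) :
    Wf (X.ρ i p) (fderiv ℂ (X.ρ i) p (1, 0)) (fderiv ℂ (X.ρ i) p (0, 1)) ≠ 0 := by
  have hρ := wtn_rho_an hpB
  have hρm := wtn_rho_mem hpB
  -- the vectors in the box
  have hv : ∀ v, ∃ (w : ℂ × ℂ) (a : ℂ), fderiv ℂ (X.ρ i) p w + a • X.ρ i p ∈ Pool.Agent.H17BP.Tan (coneE P) (X.ρ i p) ∧
      fderiv ℂ σ y v = κ • (fderiv ℂ (X.ρ i) p w + a • X.ρ i p) := by
    intro v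
    obtain ⟨γ, ⟨h1, h2⟩, h3, h4⟩ := Pool.Agent.E1.ResL_tan hσ hσm v
    have h5 : Pool.Agent.H14.PP.Tan (coneE P) (X.ρ i p) (κ⁻¹ • fderiv ℂ σ y v) := by
      refine ⟨fun t => κ⁻¹ • γ t, ⟨(analyticAt_const (v := κ⁻¹)).fun_smul h1, ?_⟩, ?_, ?_⟩
      · filter_upwards [h2] with t ht
        exact hX.smul _ ht _ (inv_ne_zero hκ)
      · show κ⁻¹ • γ 0 = _
        rw [h3, h, smul_smul, inv_mul_cancel₀ hκ, one_smul]
      · rw [deriv_fun_const_smul _ h1.differentiableAt, h4]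
    obtain ⟨w, a, h6⟩ := (X.box i).span hX hp _ h5
    refine ⟨w, a, ?_, ?_⟩
    · rw [← h6]
      obtain ⟨γ', ⟨g1, g2⟩, g3, g4⟩ := h5
      exact ⟨γ', g1, g2, g3, g4⟩
    · rw [← h6, smul_smul, mul_inv_cancel₀ hκ, one_smul]
  obtain ⟨w₁, a₁, t₁, e₁⟩ := hv (1, 0)
  obtain ⟨w₂, a₂, t₂, e₂⟩ := hv (0, 1)
  intro hcon
  apply h0
  have h7 := hW.scale _ hρm.self_of_nhds _ t₁ _ t₂ κ hκ
  rw [form_comb hW hρ hρm, hcon, mul_zero, ← e₁, ← e₂, ← h] at h7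
  exact (mul_eq_zero.1 h7).resolve_left (pow_ne_zero _ hκ)

private theorem jc_ne' {Φ : ℂ × ℂ → ℂ × ℂ} {p : ℂ × ℂ} (h : (fderiv ℂ Φ p).det ≠ 0) : jc Φ p ≠ 0 := by
  have h1 : (fderiv ℂ Φ p).det = jc Φ p := by
    have h2 : (fderiv ℂ Φ p).det = LinearMap.det (fderiv ℂ Φ p : ℂ × ℂ →ₗ[ℂ] ℂ × ℂ) := rfl
    rw [h2, ← LinearMap.det_toMatrix (Module.Basis.finTwoProd ℂ), Matrix.det_fin_two]
    simp [LinearMap.toMatrix_apply, jc]
  rwa [h1] at h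

/-- the curve is off the axes, with isolated exceptions -/
theorem wtn_off (hF : WCrv θ RD F) (Y : NCLift X F) {i : X.ι} {z : ℂ} (hz : z ∈ Y.U i) : ∀ᶠ w in 𝓝[≠] z, Y.p i w ∈ DS := by
  obtain ⟨d, hd⟩ := hF.hom
  have han : ∀ z, AnalyticAt ℂ (fun w => eval (F w).ofLp RD) z := fun z =>
    AnalyticAt.comp (g := fun x : EN M => eval x.ofLp RD) (f := F) (Pool.Agent.H14.PP.analyticAt_evalEN RD (F z)) (hF.diff.analyticAt z)
  have h1 : ∀ᶠ w in 𝓝[≠] z, eval (F w).ofLp RD ≠ 0 := by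
    rcases (han z).eventually_eq_zero_or_eventually_ne_zero with h | h
    · exfalso
      obtain ⟨w, hw⟩ := hF.ne
      have h2 : AnalyticOnNhd ℂ (fun w => eval (F w).ofLp RD) Set.univ := fun z _ => han z
      have h3 := h2.eq_of_eventuallyEq (g := fun _ => (0 : ℂ)) (fun z _ => analyticAt_const) (z₀ := z) h
      exact hw (congrFun h3 w)
    · exact h
  filter_upwards [h1, nhdsWithin_le_nhds ((Y.isOpen i).mem_nhds hz)] with w hw hwU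
  have hB := Y.mem i w hwU
  obtain ⟨c, hc, he⟩ := Y.eq i w hwU
  have h2 : eval (X.ρ i (Y.p i w)).ofLp RD ≠ 0 := by
    intro h3
    apply hw
    have h4 : (F w).ofLp = c • (X.ρ i (Y.p i w)).ofLp := by rw [he]; rfl
    rw [h4, Pool.Agent.H17EF.eval_smul_form hd, h3, mul_zero]
  have h3 : (Y.p i w).1 * (Y.p i w).2 ≠ 0 := fun h4 => h2 ((X.div i _ hB).2 h4)
  obtain ⟨l1, l2⟩ := wtn_lt hB
  exact ⟨⟨left_ne_zero_of_mul h3, l1⟩, ⟨right_ne_zero_of_mul h3, l2⟩⟩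

/-- not identically zero at one point: not identically zero anywhere -/
theorem wne (hX : Surface (coneE P)) (hm : 1 ≤ mK) (hW : IsForm (coneE P) mK jH Wf) (hF : WCrv θ RD F) (Y : NCLift X F)
    (h : ∃ z w, Pool.Agent.H17BP.Tan (coneE P) (F z) w ∧ Wf (F z) (deriv F z) w ≠ 0) : WNe Wf Y := by
  have an := wt_an hX hm hW hF.diff Y
  have dich : ∀ i, ∀ z ∈ Y.U i, (∀ᶠ w in 𝓝 z, wt Wf Y i w = 0) ∨ ∀ᶠ w in 𝓝[≠] z, wt Wf Y i w ≠ 0 := fun i z hz =>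
    (an i z hz).eventually_eq_zero_or_eventually_ne_zero
  have tr : ∀ i j z, z ∈ Y.U i → z ∈ Y.U j → (wt Wf Y i z = 0 ↔ wt Wf Y j z = 0) := by
    intro i j z hi hj
    obtain ⟨Φ, hΦ, h0⟩ := exists_chg Y hi hj
    have h1 := (wt_chg hX hm hW hF.diff Y hi hj hΦ h0).self_of_nhds.2
    rw [h1, mul_eq_zero, or_iff_right (pow_ne_zero _ (jc_ne' hΦ.det))]
  obtain ⟨B, hB⟩ : ∃ B : Set ℂ, B = {z | ∃ i, z ∈ Y.U i ∧ ∀ᶠ w in 𝓝 z, wt Wf Y i w = 0} := ⟨_, rfl⟩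
  have hopen : IsOpen B := by
    rw [isOpen_iff_mem_nhds]
    intro z hz
    rw [hB] at hz ⊢
    obtain ⟨i, hi, h1⟩ := hz
    filter_upwards [(Y.isOpen i).mem_nhds hi, h1.eventually_nhds] with w h2 h3
    exact ⟨i, h2, h3⟩
  have hclosed : IsClosed B := by
    rw [← isOpen_compl_iff, isOpen_iff_mem_nhds]
    intro z hz
    obtain ⟨i, hi, _⟩ := Y.cover z
    have h1 : ∀ᶠ w in 𝓝[≠] z, wt Wf Y i w ≠ 0 := by
      rcases dich i z hi with h1 | h1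
      · exfalso
        apply hz
        rw [hB]
        exact ⟨i, hi, h1⟩
      · exact h1
    rw [eventually_nhdsWithin_iff] at h1
    filter_upwards [h1, (Y.isOpen i).mem_nhds hi] with w h2 h3 h4
    by_cases hwz : w = z
    · rw [hwz] at h4
      exact hz h4
    · rw [hB] at h4
      obtain ⟨j, hj, h5⟩ := h4
      exact h2 hwz ((tr i j w h3 hj).2 h5.self_of_nhds)
  rcases isClopen_iff.1 ⟨hclosed, hopen⟩ with h1 | h1
  · intro i z hz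
    rcases dich i z hz with h2 | h2
    · exfalso
      have h3 : z ∈ B := by
        rw [hB]
        exact ⟨i, hz, h2⟩
      rw [h1] at h3
      exact h3
    · exact h2
  · exfalso
    obtain ⟨z, w₀, hw₀, hne⟩ := h
    obtain ⟨i, hi, hzero⟩ : z ∈ {z | ∃ i, z ∈ Y.U i ∧ ∀ᶠ w in 𝓝 z, wt Wf Y i w = 0} := by
      rw [← hB, h1]
      exact Set.mem_univ z
    obtain ⟨σ, τ, hσ, h0⟩ := hX.chart (F z) (hF.mem z)
    have hcoef := (Pool.Agent.H36.TB.exists_coef hσ).self_of_nhds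
    have hτ0 : τ (σ 0) = 0 := hσ.left.self_of_nhds
    obtain ⟨c₁, a₁, _, _, g₁⟩ := hcoef F z (hF.diff.analyticAt z) (Eventually.of_forall hF.mem) h0.symm
    obtain ⟨γ, k1, k2, k3, k4⟩ := hw₀
    obtain ⟨c₂, a₂, _, _, g₂⟩ := hcoef γ 0 k1 k2 (k3.trans h0.symm)
    rw [hτ0, ← map_smul] at g₁ g₂
    rw [k4] at g₂
    have hσ0 : Wf (σ 0) (fderiv ℂ σ 0 (1, 0)) (fderiv ℂ σ 0 (0, 1)) ≠ 0 := by
      intro h2
      apply hne
      rw [g₁, g₂, ← h0, form_comb hW hσ.σ_an hσ.σ_mem, h2, mul_zero]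
    have hWσ := hW.analytic σ 0 hσ.σ_an hσ.σ_mem
    have e1 : ∀ᶠ y in 𝓝 (0 : ℂ × ℂ), Wf (σ y) (fderiv ℂ σ y (1, 0)) (fderiv ℂ σ y (0, 1)) ≠ 0 := hWσ.continuousAt.eventually_ne hσ0
    have hFt : Tendsto F (𝓝 z) (𝓝 (σ 0)) := by
      rw [h0]
      exact (hF.diff z).continuousAt.tendsto
    have hτt : Tendsto (fun w => τ (F w)) (𝓝 z) (𝓝 0) := by
      have h2 := hσ.τ_an.continuousAt.tendsto.comp hFt
      rw [hτ0] at h2
      exact h2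
    have e2 := hFt.eventually hσ.right
    have e3 := hτt.eventually e1
    have e4 := hτt.eventually hσ.σ_an.eventually_analyticAt
    have e5 := hτt.eventually hσ.σ_mem.eventually_nhds
    have e6 : ∀ᶠ w in 𝓝 z, w ∈ Y.U i := (Y.isOpen i).mem_nhds hi
    have e7 := (((e2.and e3).and (e4.and e5)).and (hzero.and e6)).filter_mono (nhdsWithin_le_nhds (s := {z}ᶜ))
    obtain ⟨w, ⟨⟨⟨f2, f3⟩, f4, f5⟩, f7, f8⟩, f6⟩ := (e7.and (wtn_off hF Y hi)).exists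
    obtain ⟨c, hc, f9⟩ := f2 (hF.mem w)
    obtain ⟨hcf, f10⟩ := cf_spec Y f8
    have f11 : σ (τ (F w)) = (c⁻¹ * cf Y i w) • X.ρ i (Y.p i w) := by
      rw [mul_smul, ← f10]
      conv_rhs => rw [f9]
      rw [smul_smul, inv_mul_cancel₀ hc, one_smul]
    have f12 := form_box hX hW f6 (Y.mem i w f8) f4 f5 (mul_ne_zero (inv_ne_zero hc) hcf) f11 f3
    rw [wt_eq hX hW Y f8] at f7
    exact (mul_ne_zero (inv_ne_zero (pow_ne_zero _ hcf)) f12) f7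

end Pool.Agent.MQ3

end
end
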