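import Pool.Agent.H94.G6.M149
import Pool.Agent.H94.G6.M168
import Pool.Agent.H94.G6.M82
import Pool.Agent.H94.G6.M97

/-! The parts of this file: MQ3.BdN, MQ3.BdPN. -/

section

/-!
# MQ3 BdN: the potentials of two boxes differ by a bounded function
-/

set_option autoImplicit false

open Topology Filter Metric MvPolynomial MeasureTheory Laplacian

noncomputable section

namespace Pool.Agent.MQ3

open Pool.Agent.H36.BP (EN fs)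
open Pool.Agent.H14.PP (Tan)
open Pool.Agent.H17BP (Surface IsForm)
open Pool.Agent.H17EF (projVar coneE)
open Pool.Agent.H30M (tau LogSing)
open Pool.Agent.MQ (lam En ztv dvg gr dv)

namespace BdN

variable {M : ℕ} {P : Ideal (MvPolynomial (Fin (M + 1)) ℂ)} {RD : MvPolynomial (Fin (M + 1)) ℂ} {m : ℕ} {X : NCModel P RD} {θ : WDiff (coneE P) m}
  {l : LF M} {S : Web X θ l} {Ra : MvPolynomial (Fin (M + 1)) ℂ}

/-- `RD ≠ 0` at a chart point: the point is off the axes -/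
theorem ax_ne {k : S.ι} {q : ℂ × ℂ} (h : q ∈ S.D k) (h0 : eval (X.ρ k.1 (S.κ k q)).ofLp RD ≠ 0) : q.1 * q.2 ≠ 0 := by
  intro h2
  apply h0
  rw [X.div k.1 _ h.2]
  have hpos := (S.c k).pos
  unfold dt at hpos
  show (q.1 ^ (S.c k).w.1 * q.2 ^ (S.c k).w'.1) * (q.1 ^ (S.c k).w.2 * q.2 ^ (S.c k).w'.2) = 0
  have h3 : (q.1 ^ (S.c k).w.1 * q.2 ^ (S.c k).w'.1) * (q.1 ^ (S.c k).w.2 * q.2 ^ (S.c k).w'.2) =
      q.1 ^ ((S.c k).w.1 + (S.c k).w.2) * q.2 ^ ((S.c k).w'.1 + (S.c k).w'.2) := by ring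
  rw [h3]
  rcases mul_eq_zero.1 h2 with h4 | h4
  · have h5 : (S.c k).w.1 + (S.c k).w.2 ≠ 0 := by
      intro h5
      have h6 : (S.c k).w.1 = 0 := by omega
      have h7 : (S.c k).w.2 = 0 := by omega
      rw [h6, h7] at hpos
      simp at hpos
    rw [h4, zero_pow h5, zero_mul]
  · have h5 : (S.c k).w'.1 + (S.c k).w'.2 ≠ 0 := by
      intro h5
      have h6 : (S.c k).w'.1 = 0 := by omega
      have h7 : (S.c k).w'.2 = 0 := by omega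
      rw [h6, h7] at hpos
      simp at hpos
    rw [h4, zero_pow h5, mul_zero]

/-- `Ra ≠ 0` at the regular points of the first type, off the axes -/
theorem Ra_ne {k : S.ι} {q : ℂ × ℂ} (h : RegA S Ra k q) (h0 : eval (X.ρ k.1 (S.κ k q)).ofLp RD ≠ 0) : eval (X.ρ k.1 (S.κ k q)).ofLp Ra ≠ 0 := by
  exact h.alg.self_of_nhds (ax_ne h.mem h0)

theorem vrel (hd : ∃ d, RD.IsHomogeneous d) (hdR : ∃ d, Ra.IsHomogeneous d) (C : Cov S Ra) (k k' : Fin C.nN) {a : (S.V (C.b k)).ι}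
    {a' : (S.V (C.b k')).ι} {q q' : ℂ × ℂ} (hq : q ∈ C.K k a) (hq' : q' ∈ C.K k' a') {Φ : ℂ × ℂ → ℂ × ℂ}
    (h : Chg X (C.b k) (C.b k') Φ (S.κ ⟨C.b k, a⟩ q)) (h0 : Φ (S.κ ⟨C.b k, a⟩ q) = S.κ ⟨C.b k', a'⟩ q') :
    VRel (C.H k) (C.H k') Φ (S.κ ⟨C.b k, a⟩ q) := by
  obtain ⟨c, hc, hceq⟩ := h.eq.self_of_nhds
  rw [h0] at hceq
  have eD : eval (X.ρ (C.b k) (S.κ ⟨C.b k, a⟩ q)).ofLp RD = 0 ↔ eval (X.ρ (C.b k') (S.κ ⟨C.b k', a'⟩ q')).ofLp RD = 0 := by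
    obtain ⟨d, hd⟩ := hd
    rw [hceq]
    exact eval_smul_hom hd hc _
  have eR : eval (X.ρ (C.b k) (S.κ ⟨C.b k, a⟩ q)).ofLp Ra = 0 ↔ eval (X.ρ (C.b k') (S.κ ⟨C.b k', a'⟩ q')).ofLp Ra = 0 := by
    obtain ⟨d, hd⟩ := hdR
    rw [hceq]
    exact eval_smul_hom hd hc _
  unfold Cov.H
  rcases hu : C.u k with _ | u <;> rcases hu' : C.u k' with _ | u'
  · exact vrel_A hd h
  · obtain ⟨b1, b2, b3⟩ := C.N_B k' u' hu'
    have hp' := (C.K_B k' a' u' hu' q' hq').2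
    have hD' := X.good (C.b k') _ (b1 hp')
    have hD : eval (X.ρ (C.b k) (S.κ ⟨C.b k, a⟩ q)).ofLp RD ≠ 0 := fun h2 => hD' (eD.1 h2)
    have hA := C.K_A k a hu q hq
    have hR := Ra_ne hA.1 hD
    have hpDS : S.κ ⟨C.b k, a⟩ q ∈ DS := by
      have h1 := X.sub _ h.mem
      have h2 : (S.κ ⟨C.b k, a⟩ q).1 * (S.κ ⟨C.b k, a⟩ q).2 ≠ 0 := fun h3 => hD ((X.div _ _ h.mem).2 h3)
      exact ⟨⟨left_ne_zero_of_mul h2, h1.1⟩, right_ne_zero_of_mul h2, h1.2⟩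
    refine vrel_AB h hpDS (by rw [h0]; exact b2 _ hp') ?_
    rw [h0]
    intro h3
    exact hR (eR.2 ((b3 _ hp').self_of_nhds.1.2 h3))
  · obtain ⟨b1, b2, b3⟩ := C.N_B k u hu
    have hp := (C.K_B k a u hu q hq).2
    have hD := X.good (C.b k) _ (b1 hp)
    have hA := C.K_A k' a' hu' q' hq'
    have hR := Ra_ne hA.1 fun h2 => hD (eD.2 h2)
    refine vrel_BA hd h (b1 hp) (b2 _ hp) ?_
    intro h3
    exact hR (eR.1 ((b3 _ hp).self_of_nhds.1.2 h3))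
  · obtain ⟨b1, b2, b3⟩ := C.N_B k u hu
    obtain ⟨b1', b2', b3'⟩ := C.N_B k' u' hu'
    have hp := (C.K_B k a u hu q hq).2
    have hp' := (C.K_B k' a' u' hu' q' hq').2
    rw [← h0] at hp'
    refine vrel_B h (b2 _ hp) (b2' _ hp') ((b3 _ hp).mono fun x hx => hx.2) ((b3' _ hp').mono fun x hx => hx.2) ?_
    filter_upwards [b3 _ hp, h.an.continuousAt.eventually (b3' _ hp'), h.eq] with x h1 h2 h3
    obtain ⟨c, hc, h4⟩ := h3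
    obtain ⟨d, hd⟩ := hdR
    rw [← h1.1, ← h2.1, h4]
    exact eval_smul_hom hd hc _

end BdN

section

variable {M : ℕ} {P : Ideal (MvPolynomial (Fin (M + 1)) ℂ)} {RD : MvPolynomial (Fin (M + 1)) ℂ} {m : ℕ} {X : NCModel P RD} {θ : WDiff (coneE P) m}
  {l : LF M} {S : Web X θ l} {Ra : MvPolynomial (Fin (M + 1)) ℂ} {Wf : EN M → EN M → EN M → ℂ} {mK jH : ℕ}

theorem bd_NN (hX : Surface (coneE P)) (hm : 1 ≤ mK) (hW : IsForm (coneE P) mK jH Wf) (C : Cov S Ra) (k k' : Fin C.nN) :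
    ∃ B : ℝ, ∀ F : ℂ → EN M, RCrv θ RD Ra F → ∀ Y : NCLift X F, WNe Wf Y → ∀ z ∈ C.UN Y k, z ∈ C.UN Y k' →
      ContDiffAt ℝ 2 (eN (C.H k) Wf mK jH Y (C.b k)) z → ContDiffAt ℝ 2 (eN (C.H k') Wf mK jH Y (C.b k')) z →
        |eN (C.H k) Wf mK jH Y (C.b k) z - eN (C.H k') Wf mK jH Y (C.b k') z| ≤ B := by
  classical
  by_cases hex : ∃ F : ℂ → EN M, RCrv θ RD Ra F
  swap
  · exact ⟨0, fun F hF => absurd ⟨F, hF⟩ hex⟩
  obtain ⟨F₀, hF₀⟩ := hex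
  have hd := hF₀.hom
  have hdR := hF₀.homR
  have main : ∀ (a : (S.V (C.b k)).ι) (a' : (S.V (C.b k')).ι), ∃ B : ℝ, ∀ F : ℂ → EN M, RCrv θ RD Ra F → ∀ Y : NCLift X F, ∀ z, z ∈ Y.U (C.b k) →
      z ∈ Y.U (C.b k') → z ∈ S.Om Y ⟨C.b k, a⟩ → z ∈ S.Om Y ⟨C.b k', a'⟩ →
      (S.lf Y ⟨C.b k, a⟩ z, S.lf Y ⟨C.b k', a'⟩ z) ∈ C.K k a ×ˢ C.K k' a' →
        |eN (C.H k) Wf mK jH Y (C.b k) z - eN (C.H k') Wf mK jH Y (C.b k') z| ≤ B := by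
    intro a a'
    refine ((C.K_compact k a).prod (C.K_compact k' a')).induction_on (p := fun s => ∃ B : ℝ, ∀ F : ℂ → EN M, RCrv θ RD Ra F → ∀ Y : NCLift X F, ∀ z,
      z ∈ Y.U (C.b k) → z ∈ Y.U (C.b k') → z ∈ S.Om Y ⟨C.b k, a⟩ → z ∈ S.Om Y ⟨C.b k', a'⟩ →
      (S.lf Y ⟨C.b k, a⟩ z, S.lf Y ⟨C.b k', a'⟩ z) ∈ s → |eN (C.H k) Wf mK jH Y (C.b k) z - eN (C.H k') Wf mK jH Y (C.b k') z| ≤ B) ?_ ?_ ?_ ?_
    · exact ⟨0, fun F _ Y z _ _ _ _ h => absurd h (Set.notMem_empty _)⟩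
    · rintro s t hst ⟨B, hB⟩
      exact ⟨B, fun F hF Y z h1 h2 h3 h4 h5 => hB F hF Y z h1 h2 h3 h4 (hst h5)⟩
    · rintro s t ⟨B, hB⟩ ⟨B', hB'⟩
      refine ⟨max B B', fun F hF Y z h1 h2 h3 h4 h5 => ?_⟩
      rcases h5 with h5 | h5
      · exact (hB F hF Y z h1 h2 h3 h4 h5).trans (le_max_left _ _)
      · exact (hB' F hF Y z h1 h2 h3 h4 h5).trans (le_max_right _ _)
    · rintro ⟨q, q'⟩ ⟨hq, hq'⟩
      have hq : q ∈ C.K k a := hq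
      have hq' : q' ∈ C.K k' a' := hq'
      have hmem : ∀ (k : Fin C.nN) (a : (S.V (C.b k)).ι), ∀ q ∈ C.K k a, S.κ ⟨C.b k, a⟩ q ∈ X.B (C.b k) := by
        intro k a q hq
        rcases hu : C.u k with _ | u
        · exact C.N_sub k (C.K_A k a hu q hq).2
        · exact C.N_sub k (C.K_B k a u hu q hq).2
      have hp := hmem k a q hq
      have hp' := hmem k' a' q' hq'
      have hc1 : Tendsto (fun x : (ℂ × ℂ) × (ℂ × ℂ) => S.κ ⟨C.b k, a⟩ x.1) (𝓝 (q, q')) (𝓝 (S.κ ⟨C.b k, a⟩ q)) :=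
        ((BdN.κ_cont S ⟨C.b k, a⟩).comp continuous_fst).tendsto (q, q')
      have hc2 : Tendsto (fun x : (ℂ × ℂ) × (ℂ × ℂ) => S.κ ⟨C.b k', a'⟩ x.2) (𝓝 (q, q')) (𝓝 (S.κ ⟨C.b k', a'⟩ q')) :=
        ((BdN.κ_cont S ⟨C.b k', a'⟩).comp continuous_snd).tendsto (q, q')
      by_cases hrel : X.rel (C.b k) (S.κ ⟨C.b k, a⟩ q) (C.b k') (S.κ ⟨C.b k', a'⟩ q')
      · obtain ⟨Φ, h1, h2, h3, h4, h5⟩ := X.iso _ _ _ hp _ hp' hrel
        have hch : Chg X (C.b k) (C.b k') Φ (S.κ ⟨C.b k, a⟩ q) := ⟨hp, by rw [h2]; exact hp', h1, h3, h4, h5⟩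
        obtain ⟨N, hN, B, hB⟩ := BdN.loc (jH := jH) hX hm hW hch (BdN.vrel hd hdR C k k' hq hq' hch h2)
        refine ⟨_, mem_nhdsWithin_of_mem_nhds (hc1 hN), B, fun F hF Y z i1 i2 i3 i4 i5 => hB F hF.diff Y z i1 i2 ?_⟩
        have h6 := (lfN_mem hF.toWCrv Y ⟨C.b k, a⟩ z i3).2
        have h7 : S.κ ⟨C.b k, a⟩ (S.lf Y ⟨C.b k, a⟩ z) ∈ N := i5
        rwa [h6] at h7
      · have h1 : ∀ᶠ x in 𝓝 (q, q'), ¬ X.rel (C.b k) (S.κ ⟨C.b k, a⟩ x.1) (C.b k') (S.κ ⟨C.b k', a'⟩ x.2) :=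
          (hc1.prodMk_nhds hc2).eventually (X.sep _ _ _ hp _ hp' hrel)
        refine ⟨_, mem_nhdsWithin_of_mem_nhds h1, 0, fun F hF Y z i1 i2 i3 i4 i5 => ?_⟩
        exfalso
        have h6 := (lfN_mem hF.toWCrv Y ⟨C.b k, a⟩ z i3).2
        have h7 := (lfN_mem hF.toWCrv Y ⟨C.b k', a'⟩ z i4).2
        have h8 : ¬ X.rel (C.b k) (S.κ ⟨C.b k, a⟩ (S.lf Y ⟨C.b k, a⟩ z)) (C.b k') (S.κ ⟨C.b k', a'⟩ (S.lf Y ⟨C.b k', a'⟩ z)) := i5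
        rw [h6, h7] at h8
        exact h8 (Y.rel _ _ z i1 i2)
  choose B hB using main
  refine ⟨∑ a, ∑ a', |B a a'|, fun F hF Y _ z hz hz' _ _ => ?_⟩
  have hlift : ∀ k, z ∈ C.UN Y k → ∃ a, z ∈ S.Om Y ⟨C.b k, a⟩ ∧ S.lf Y ⟨C.b k, a⟩ z ∈ C.K k a := by
    rintro k ⟨h1, h2, h3⟩
    refine C.lift F hF.toWCrv Y k z h1 (ball_subset_closedBall h2) fun j hj hj' => h3 j ⟨hj, ball_subset_closedBall hj'⟩
  obtain ⟨a, ha, ha'⟩ := hlift k hz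
  obtain ⟨a₁, hb, hb'⟩ := hlift k' hz'
  refine (hB a a₁ F hF Y z hz.1 hz'.1 ha hb ⟨ha', hb'⟩).trans ((le_abs_self _).trans ?_)
  calc |B a a₁| ≤ ∑ a', |B a a'| := Finset.single_le_sum (f := fun a' => |B a a'|) (fun _ _ => abs_nonneg _) (Finset.mem_univ a₁)
    _ ≤ ∑ a, ∑ a', |B a a'| := Finset.single_le_sum (f := fun a => ∑ a', |B a a'|) (fun _ _ => Finset.sum_nonneg fun _ _ => abs_nonneg _) (Finset.mem_univ a)

end

end Pool.Agent.MQ3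

end
end

section

/-!
# MQ3 BdPN: the potential of a special point and the potentials of the boxes differ by bounded functions

The points of the annulus `s ≤ |x - Q| ≤ r'` are regular: near each of them `nloc_A`, `nloc_B` compare the potential of the chart with the potential of the box of
the chart, for the vector `hA` or `hB (u ∘ Φ)`, and `BdN.loc` the potentials of two boxes.  Compactness of the annulus times `K k a`.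
-/

set_option autoImplicit false

open Topology Filter Metric MvPolynomial MeasureTheory Laplacian

noncomputable section

namespace Pool.Agent.MQ3

open Pool.Agent.H36.BP (EN fs)
open Pool.Agent.H14.PP (Tan)
open Pool.Agent.H17BP (Surface IsForm)
open Pool.Agent.H17EF (projVar coneE)
open Pool.Agent.H30M (tau LogSing)
open Pool.Agent.MQ (lam En ztv dvg gr dv)

variable {M : ℕ} {P : Ideal (MvPolynomial (Fin (M + 1)) ℂ)} {RD : MvPolynomial (Fin (M + 1)) ℂ} {m : ℕ} {X : NCModel P RD} {θ : WDiff (coneE P) m}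
  {l : LF M} {S : Web X θ l} {Ra : MvPolynomial (Fin (M + 1)) ℂ}

namespace BdPN

theorem hA_smul (p w : ℂ × ℂ) (a : ℂ) : hA p (a • w) = a • hA p w := by
  unfold hA
  ext i
  fin_cases i <;> simp <;> ring

theorem hB_smul (u : ℂ × ℂ → ℂ) (p w : ℂ × ℂ) (a : ℂ) : hB u p (a • w) = a • hB u p w := by
  unfold hB
  ext i
  fin_cases i <;> simp <;> ring

theorem κ_an (S : Web X θ l) (k : S.ι) (q : ℂ × ℂ) : AnalyticAt ℂ (S.κ k) q := analyticAt_mono q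

/-- the potential of the chart and the potential of its box -/
theorem chart (Wf : EN M → EN M → EN M → ℂ) (mK jH : ℕ) {k : S.ι} {q : ℂ × ℂ} {g : ℂ × ℂ → ℂ} {H : ℂ × ℂ → ℂ × ℂ → EN 2}
    (hH : ∀ p w (a : ℂ), H p (a • w) = a • H p w) {L : ℂ × ℂ → EN 2} (hL : AnalyticAt ℂ L q) (hL0 : L q ≠ 0)
    (hHL : ∀ᶠ x in 𝓝 q, H (S.κ k x) (fderiv ℂ (S.κ k) x (S.v k x)) = (jc (S.κ k) x * g x) • L x) :
    ∃ N ∈ 𝓝 q, ∃ B : ℝ, ∀ F : ℂ → EN M, WCrv θ RD F → ∀ Y : NCLift X F, ∀ z ∈ S.Om Y k, S.lf Y k z ∈ N →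
      (∀ᶠ w in 𝓝[≠] z, g (S.lf Y k w) ≠ 0) → ∀ᶠ w in 𝓝[≠] z, |eP S g Wf mK jH Y k w - eN H Wf mK jH Y k.1 w| ≤ B := by
  have hLc : ContinuousAt (fun x => Real.log ‖L x‖) q := hL.continuousAt.norm.log (norm_ne_zero_iff.2 hL0)
  have hev := hHL.and ((hL.continuousAt.eventually_ne hL0).and (hLc.abs.eventually_lt_const (lt_add_one |Real.log ‖L q‖|)))
  refine ⟨_, hev.eventually_nhds, |Real.log ‖L q‖| + 1, ?_⟩
  intro F hF Y z hz hzN hg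
  have hcont : Tendsto (S.lf Y k) (𝓝 z) (𝓝 (S.lf Y k z)) := (lfN_an hF Y k z hz).continuousAt
  have hOm : ∀ᶠ w in 𝓝 z, w ∈ S.Om Y k := (Om_open hF Y k).mem_nhds hz
  filter_upwards [(hcont.eventually hzN).filter_mono nhdsWithin_le_nhds, hOm.eventually_nhds.filter_mono nhdsWithin_le_nhds, lfN_ne hF Y k z hz, hg]
    with w hw hOmw hne hgw
  obtain ⟨w1, w2, w3⟩ := hw
  obtain ⟨n1, n2, n3, n4, n5⟩ := hne
  have hwO := hOmw.self_of_nhds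
  have hd := ztv_smul (lfN_tan hF Y k w hwO) n3
  have hpw : Y.p k.1 w = S.κ k (S.lf Y k w) := (lfN_mem hF Y k w hwO).2.symm
  have hp : deriv (Y.p k.1) w = fderiv ℂ (S.κ k) (S.lf Y k w) (deriv (S.lf Y k) w) := by
    rw [EventuallyEq.deriv_eq (show Y.p k.1 =ᶠ[𝓝 w] fun u => S.κ k (S.lf Y k u) from hOmw.mono fun u hu => (lfN_mem hF Y k u hu).2.symm)]
    exact ((κ_an S k _).differentiableAt.hasFDerivAt.comp_hasDerivAt w (lfN_an hF Y k w hwO).differentiableAt.hasDerivAt).deriv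
  have hHw : H (Y.p k.1 w) (deriv (Y.p k.1) w) =
      (ztv (S.v k) (S.lf Y k) w * (jc (S.κ k) (S.lf Y k w) * g (S.lf Y k w))) • L (S.lf Y k w) := by
    rw [hp, hpw, hd, map_smul, hH, w1, smul_smul]
  have z1 : ‖ztv (S.v k) (S.lf Y k) w‖ ≠ 0 := norm_ne_zero_iff.2 n4
  have z2 : ‖jc (S.κ k) (S.lf Y k w)‖ ≠ 0 := norm_ne_zero_iff.2 n5
  have z3 : ‖g (S.lf Y k w)‖ ≠ 0 := norm_ne_zero_iff.2 hgw
  have z4 : ‖L (S.lf Y k w)‖ ≠ 0 := norm_ne_zero_iff.2 w2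
  unfold eP eN eH
  rw [hHw, norm_smul, norm_mul, norm_mul, Real.log_mul (mul_ne_zero z1 (mul_ne_zero z2 z3)) z4, Real.log_mul z1 (mul_ne_zero z2 z3), Real.log_mul z2 z3]
  rw [show Real.log ‖ztv (S.v k) (S.lf Y k) w‖ + Real.log ‖jc (S.κ k) (S.lf Y k w)‖ + Real.log ‖g (S.lf Y k w)‖ + 1 / (mK : ℝ) * Real.log ‖wt Wf Y k.1 w‖ +
      (jH : ℝ) / mK * Real.log ‖F w‖ - (Real.log ‖ztv (S.v k) (S.lf Y k) w‖ + (Real.log ‖jc (S.κ k) (S.lf Y k w)‖ + Real.log ‖g (S.lf Y k w)‖) +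
      Real.log ‖L (S.lf Y k w)‖ + 1 / (mK : ℝ) * Real.log ‖wt Wf Y k.1 w‖ + (jH : ℝ) / mK * Real.log ‖F w‖) = -Real.log ‖L (S.lf Y k w)‖ by ring, abs_neg]
  exact w3.le

theorem comp_ne {L : ℂ × ℂ →L[ℂ] ℂ} {A : ℂ × ℂ →L[ℂ] ℂ × ℂ} (hA : A.det ≠ 0) (hL : L ≠ 0) : L.comp A ≠ 0 := by
  intro h
  apply hL
  ext1
  all_goals
    refine ContinuousLinearMap.ext fun y => ?_
  · have h1 := (A.toContinuousLinearEquivOfDetNeZero hA).apply_symm_apply ((ContinuousLinearMap.inl ℂ ℂ ℂ) y)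
    have h2 := congrArg (fun T : ℂ × ℂ →L[ℂ] ℂ => T ((A.toContinuousLinearEquivOfDetNeZero hA).symm ((ContinuousLinearMap.inl ℂ ℂ ℂ) y))) h
    simp only [ContinuousLinearMap.comp_apply] at h2
    rw [ContinuousLinearMap.toContinuousLinearEquivOfDetNeZero_apply] at h1
    rw [h1] at h2
    exact h2
  · have h1 := (A.toContinuousLinearEquivOfDetNeZero hA).apply_symm_apply ((ContinuousLinearMap.inr ℂ ℂ ℂ) y)
    have h2 := congrArg (fun T : ℂ × ℂ →L[ℂ] ℂ => T ((A.toContinuousLinearEquivOfDetNeZero hA).symm ((ContinuousLinearMap.inr ℂ ℂ ℂ) y))) h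
    simp only [ContinuousLinearMap.comp_apply] at h2
    rw [ContinuousLinearMap.toContinuousLinearEquivOfDetNeZero_apply] at h1
    rw [h1] at h2
    exact h2

/-- the vector of the box `k`, seen in the chart of the special point `j` -/
theorem vec {dD dR : ℕ} (hd : RD.IsHomogeneous dD) (hdR : Ra.IsHomogeneous dR) (C : Cov S Ra) {g : Fin C.nP → ℂ × ℂ → ℂ} (hg : PG C g) (j : Fin C.nP)
    (k : Fin C.nN) (a : (S.V (C.b k)).ι) {q q' : ℂ × ℂ} (hq : q ∈ closedBall (C.Q j) (C.r j)) (hqQ : q ≠ C.Q j) (hq' : q' ∈ C.K k a)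
    {Φ : ℂ × ℂ → ℂ × ℂ} (hΦ : Chg X (C.ck j).1 (C.b k) Φ (S.κ (C.ck j) q)) (h0 : Φ (S.κ (C.ck j) q) = S.κ ⟨C.b k, a⟩ q') :
    ∃ H : ℂ × ℂ → ℂ × ℂ → EN 2, (∀ p w (a : ℂ), H p (a • w) = a • H p w) ∧ VRel H (C.H k) Φ (S.κ (C.ck j) q) ∧
      ∃ L : ℂ × ℂ → EN 2, AnalyticAt ℂ L q ∧ L q ≠ 0 ∧
        ∀ᶠ x in 𝓝 q, H (S.κ (C.ck j) x) (fderiv ℂ (S.κ (C.ck j)) x (S.v (C.ck j) x)) = (jc (S.κ (C.ck j)) x * g j x) • L x := by
  have hqD : q ∈ S.D (C.ck j) := C.P_sub j hq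
  have hReg := C.P_reg j q hq hqQ
  have hInv := hg.inv j q hq hqQ
  obtain ⟨c, hc0, hc⟩ := hΦ.eq.self_of_nhds
  rw [h0] at hc
  have hσ : S.σ (C.ck j) q = c • S.σ ⟨C.b k, a⟩ q' := hc
  have hRDiff : eval (S.σ (C.ck j) q).ofLp RD = 0 ↔ eval (S.σ ⟨C.b k, a⟩ q').ofLp RD = 0 := by
    rw [hσ]
    exact BdN.eval_smul_hom hd hc0 _
  have hRaiff : eval (S.σ (C.ck j) q).ofLp Ra = 0 ↔ eval (S.σ ⟨C.b k, a⟩ q').ofLp Ra = 0 := by
    rw [hσ]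
    exact BdN.eval_smul_hom hdR hc0 _
  rcases hu : C.u k with _ | u'
  · -- type A
    have hA' := (C.K_A k a hu q' hq').1
    have hA0 : RegA S Ra (C.ck j) q := by
      rcases hReg with hA0 | hB0
      · exact hA0
      · exfalso
        have e0 : eval (S.σ (C.ck j) q).ofLp RD ≠ 0 := fun h => hB0.ne ((zero_iff _ q hB0.mem).1 h)
        have e1 : q'.1 * q'.2 ≠ 0 := fun h => e0 (hRDiff.2 ((zero_iff _ q' hA'.mem).2 h))
        have e2 := hA'.alg.self_of_nhds e1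
        obtain ⟨G, -, hG0, -, hiff, -⟩ := hB0.crv
        exact e2 (hRaiff.1 (hiff.self_of_nhds.2 hG0))
    refine ⟨hA, hA_smul, ?_, nloc_A hA0 hInv⟩
    have hH : C.H k = hA := by
      unfold Cov.H
      rw [hu]
      rfl
    rw [hH]
    exact vrel_A ⟨dD, hd⟩ hΦ
  · -- type B
    obtain ⟨-, hcb⟩ := C.K_B k a u' hu q' hq'
    obtain ⟨hDS, hu'an, hN⟩ := C.N_B k u' hu
    have e0 : eval (S.σ ⟨C.b k, a⟩ q').ofLp RD ≠ 0 := X.good _ _ (hDS hcb)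
    have e1 : q.1 * q.2 ≠ 0 := fun h => e0 (hRDiff.1 ((zero_iff _ q hqD).2 h))
    have hu'a : AnalyticAt ℂ u' (Φ (S.κ (C.ck j) q)) := by
      rw [h0]
      exact hu'an _ hcb
    have hua : AnalyticAt ℂ (fun x => u' (Φ x)) (S.κ (C.ck j) q) := AnalyticAt.fun_comp (g := u') (f := Φ) hu'a hΦ.an
    have hNΦ := hN _ hcb
    rw [← h0] at hNΦ
    have hev : ∀ᶠ p in 𝓝 (S.κ (C.ck j) q), (eval (X.ρ (C.ck j).1 p).ofLp Ra = 0 ↔ u' (Φ p) = 0) ∧ (u' (Φ p) = 0 → fderiv ℂ (fun x => u' (Φ x)) p ≠ 0) := by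
      filter_upwards [hΦ.an.continuousAt.eventually hNΦ, BdN.Chg.ev hΦ, hΦ.an.continuousAt.eventually hu'a.eventually_analyticAt] with p hp1 hp2 hp3
      obtain ⟨c', hc0', hc'⟩ := hp2.eq.self_of_nhds
      refine ⟨?_, fun h => ?_⟩
      · rw [hc', BdN.eval_smul_hom hdR hc0']
        exact hp1.1
      · have e2 : fderiv ℂ (fun x => u' (Φ x)) p = (fderiv ℂ u' (Φ p)).comp (fderiv ℂ Φ p) :=
          (hp3.differentiableAt.hasFDerivAt.comp p hp2.an.differentiableAt.hasFDerivAt).fderiv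
        rw [e2]
        exact comp_ne hp2.det (hp1.2 h)
    refine ⟨hB fun x => u' (Φ x), hB_smul _, ?_, nloc_B hReg e1 hua hev hInv⟩
    have hH : C.H k = hB u' := by
      unfold Cov.H
      rw [hu]
      rfl
    rw [hH]
    exact vrel_B hΦ hua hu'a (hev.mono fun p hp => hp.2) (hNΦ.mono fun p hp => hp.2) (Eventually.of_forall fun p => Iff.rfl)

/-- the local bound for a pair of chart points -/
theorem pair {Wf : EN M → EN M → EN M → ℂ} {mK jH : ℕ} (hX : Surface (coneE P)) (hm : 1 ≤ mK) (hW : IsForm (coneE P) mK jH Wf)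
    {dD dR : ℕ} (hd : RD.IsHomogeneous dD) (hdR : Ra.IsHomogeneous dR) (C : Cov S Ra) {g : Fin C.nP → ℂ × ℂ → ℂ} (hg : PG C g) (j : Fin C.nP)
    (k : Fin C.nN) (a : (S.V (C.b k)).ι) {q q' : ℂ × ℂ} (hq : q ∈ closedBall (C.Q j) (C.r j)) (hqQ : q ≠ C.Q j) (hq' : q' ∈ C.K k a) :
    ∃ N ∈ 𝓝 (q, q'), ∃ B : ℝ, ∀ F : ℂ → EN M, RCrv θ RD Ra F → ∀ Y : NCLift X F, ∀ z, z ∈ S.Om Y (C.ck j) → z ∈ S.Om Y ⟨C.b k, a⟩ →
      (S.lf Y (C.ck j) z, S.lf Y ⟨C.b k, a⟩ z) ∈ N → (∀ᶠ w in 𝓝[≠] z, g j (S.lf Y (C.ck j) w) ≠ 0) →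
        ∀ᶠ w in 𝓝[≠] z, |eP S (g j) Wf mK jH Y (C.ck j) w - eN (C.H k) Wf mK jH Y (C.b k) w| ≤ B := by
  have hqD : q ∈ S.D (C.ck j) := C.P_sub j hq
  have hq'D : q' ∈ S.D ⟨C.b k, a⟩ := by
    rcases hu : C.u k with _ | u'
    · exact (C.K_A k a hu q' hq').1.mem
    · rcases (C.K_B k a u' hu q' hq').1 with h | h
      · exact h.mem
      · exact h.mem
  have hκ : Continuous fun x : (ℂ × ℂ) × (ℂ × ℂ) => (S.κ (C.ck j) x.1, S.κ ⟨C.b k, a⟩ x.2) :=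
    ((BdN.κ_cont S (C.ck j)).comp continuous_fst).prodMk ((BdN.κ_cont S ⟨C.b k, a⟩).comp continuous_snd)
  by_cases hr : X.rel (C.ck j).1 (S.κ (C.ck j) q) (C.b k) (S.κ ⟨C.b k, a⟩ q')
  · obtain ⟨Φ, h1, h2, h3, h4, h5⟩ := X.iso _ _ _ hqD.2 _ hq'D.2 hr
    have hΦ : Chg X (C.ck j).1 (C.b k) Φ (S.κ (C.ck j) q) := ⟨hqD.2, by rw [h2]; exact hq'D.2, h1, h3, h4, h5⟩
    obtain ⟨H, hH, hV, L, hL, hL0, hHL⟩ := vec hd hdR C hg j k a hq hqQ hq' hΦ h2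
    obtain ⟨N₁, hN₁, B₁, hB₁⟩ := BdN.loc (jH := jH) hX hm hW hΦ hV
    obtain ⟨N₂, hN₂, B₂, hB₂⟩ := chart Wf mK jH hH hL hL0 hHL
    have hN₁' : ∀ᶠ x in 𝓝 q, N₁ ∈ 𝓝 (S.κ (C.ck j) x) :=
      (BdN.κ_cont S (C.ck j)).continuousAt.eventually (eventually_mem_nhds_iff.2 hN₁)
    refine ⟨(N₂ ∩ {x | N₁ ∈ 𝓝 (S.κ (C.ck j) x)}) ×ˢ Set.univ, prod_mem_nhds (inter_mem hN₂ hN₁') univ_mem, B₂ + B₁, ?_⟩
    rintro F hF Y z hz hz' ⟨⟨hzN₂, hzN₁⟩, -⟩ hgn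
    have hzU : z ∈ Y.U (C.ck j).1 := Om_sub hF.toWCrv Y (C.ck j) hz
    have hzU' : z ∈ Y.U (C.b k) := Om_sub hF.toWCrv Y ⟨C.b k, a⟩ hz'
    have hpz : S.κ (C.ck j) (S.lf Y (C.ck j) z) = Y.p (C.ck j).1 z := (lfN_mem hF.toWCrv Y (C.ck j) z hz).2
    have hzN : N₁ ∈ 𝓝 (Y.p (C.ck j).1 z) := by
      rw [← hpz]
      exact hzN₁
    have hU₁ : ∀ᶠ w in 𝓝 z, w ∈ Y.U (C.ck j).1 := (Y.isOpen _).mem_nhds hzU
    have hU₂ : ∀ᶠ w in 𝓝 z, w ∈ Y.U (C.b k) := (Y.isOpen _).mem_nhds hzU'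
    filter_upwards [hB₂ F hF.toWCrv Y z hz hzN₂ hgn, ((Y.an _ z hzU).continuousAt.eventually hzN).filter_mono nhdsWithin_le_nhds,
      hU₁.filter_mono nhdsWithin_le_nhds, hU₂.filter_mono nhdsWithin_le_nhds] with w w1 w2 w3 w4
    have w5 := hB₁ F hF.diff Y w w3 w4 w2
    exact (abs_sub_le _ _ _).trans (add_le_add w1 w5)
  · refine ⟨_, hκ.continuousAt.eventually (X.sep _ _ _ hqD.2 _ hq'D.2 hr), 0, ?_⟩
    intro F hF Y z hz hz' hzN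
    exfalso
    have hzU : z ∈ Y.U (C.ck j).1 := Om_sub hF.toWCrv Y (C.ck j) hz
    have hzU' : z ∈ Y.U (C.b k) := Om_sub hF.toWCrv Y ⟨C.b k, a⟩ hz'
    have e1 : S.κ (C.ck j) (S.lf Y (C.ck j) z) = Y.p (C.ck j).1 z := (lfN_mem hF.toWCrv Y (C.ck j) z hz).2
    have e2 : S.κ ⟨C.b k, a⟩ (S.lf Y ⟨C.b k, a⟩ z) = Y.p (C.b k) z := (lfN_mem hF.toWCrv Y ⟨C.b k, a⟩ z hz').2
    have hzN' : ¬ X.rel (C.ck j).1 (S.κ (C.ck j) (S.lf Y (C.ck j) z)) (C.b k) (S.κ ⟨C.b k, a⟩ (S.lf Y ⟨C.b k, a⟩ z)) := hzN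
    rw [e1, e2] at hzN'
    exact hzN' (Y.rel _ _ z hzU hzU')

end BdPN

theorem bd_PN {Wf : EN M → EN M → EN M → ℂ} {mK jH : ℕ} (hX : Surface (coneE P)) (hm : 1 ≤ mK) (hW : IsForm (coneE P) mK jH Wf) (C : Cov S Ra)
    {g : Fin C.nP → ℂ × ℂ → ℂ} (hg : PG C g) (j : Fin C.nP) (k : Fin C.nN) {r' : ℝ} (hr' : r' < C.r j) :
    ∃ B : ℝ, ∀ F : ℂ → EN M, RCrv θ RD Ra F → ∀ Y : NCLift X F, WNe Wf Y → ∀ z ∈ C.UP Y j, z ∈ C.UN Y k →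
      S.lf Y (C.ck j) z ∈ closedBall (C.Q j) r' →
      ContDiffAt ℝ 2 (eP S (g j) Wf mK jH Y (C.ck j)) z → ContDiffAt ℝ 2 (eN (C.H k) Wf mK jH Y (C.b k)) z →
        |eP S (g j) Wf mK jH Y (C.ck j) z - eN (C.H k) Wf mK jH Y (C.b k) z| ≤ B := by
  classical
  by_cases hex : ∃ F : ℂ → EN M, RCrv θ RD Ra F
  · obtain ⟨F₀, hF₀⟩ := hex
    obtain ⟨dD, hd⟩ := hF₀.hom
    obtain ⟨dR, hdR⟩ := hF₀.homR
    -- compactness
    have hcomp : ∀ a : (S.V (C.b k)).ι, ∃ B : ℝ, ∀ F : ℂ → EN M, RCrv θ RD Ra F → ∀ Y : NCLift X F, ∀ z, z ∈ S.Om Y (C.ck j) → z ∈ S.Om Y ⟨C.b k, a⟩ →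
        (S.lf Y (C.ck j) z, S.lf Y ⟨C.b k, a⟩ z) ∈ (closedBall (C.Q j) r' \ ball (C.Q j) (C.s j)) ×ˢ C.K k a →
        (∀ᶠ w in 𝓝[≠] z, g j (S.lf Y (C.ck j) w) ≠ 0) →
          ∀ᶠ w in 𝓝[≠] z, |eP S (g j) Wf mK jH Y (C.ck j) w - eN (C.H k) Wf mK jH Y (C.b k) w| ≤ B := by
      intro a
      have hc : IsCompact ((closedBall (C.Q j) r' \ ball (C.Q j) (C.s j)) ×ˢ C.K k a) :=
        ((isCompact_closedBall _ _).diff isOpen_ball).prod (C.K_compact k a)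
      refine hc.induction_on (p := fun s => ∃ B : ℝ, ∀ F : ℂ → EN M, RCrv θ RD Ra F → ∀ Y : NCLift X F, ∀ z, z ∈ S.Om Y (C.ck j) → z ∈ S.Om Y ⟨C.b k, a⟩ →
        (S.lf Y (C.ck j) z, S.lf Y ⟨C.b k, a⟩ z) ∈ s → (∀ᶠ w in 𝓝[≠] z, g j (S.lf Y (C.ck j) w) ≠ 0) →
          ∀ᶠ w in 𝓝[≠] z, |eP S (g j) Wf mK jH Y (C.ck j) w - eN (C.H k) Wf mK jH Y (C.b k) w| ≤ B) ?_ ?_ ?_ ?_
      · exact ⟨0, fun F hF Y z hz hz' h => absurd h (Set.notMem_empty _)⟩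
      · rintro s t hst ⟨B, hB⟩
        exact ⟨B, fun F hF Y z hz hz' h => hB F hF Y z hz hz' (hst h)⟩
      · rintro s t ⟨B, hB⟩ ⟨B', hB'⟩
        refine ⟨max B B', fun F hF Y z hz hz' h hgn => ?_⟩
        rcases h with h | h
        · exact (hB F hF Y z hz hz' h hgn).mono fun w hw => hw.trans (le_max_left _ _)
        · exact (hB' F hF Y z hz hz' h hgn).mono fun w hw => hw.trans (le_max_right _ _)
      · rintro ⟨q, q'⟩ ⟨⟨h1, h2⟩, h3⟩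
        have h4 : q ∈ closedBall (C.Q j) (C.r j) := closedBall_subset_closedBall hr'.le h1
        have h5 : q ≠ C.Q j := by
          rintro rfl
          exact h2 (mem_ball_self (C.s_pos j))
        obtain ⟨N, hN, B, hB⟩ := BdPN.pair (jH := jH) hX hm hW hd hdR C hg j k a h4 h5 h3
        exact ⟨N, mem_nhdsWithin_of_mem_nhds hN, B, hB⟩
    choose B hB using hcomp
    refine ⟨∑ a, |B a|, fun F hF Y hne z hzP hzN hzr hcP hcN => ?_⟩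
    obtain ⟨hzO, hzb⟩ := hzP
    obtain ⟨hzU, hzt, hzc⟩ := hzN
    obtain ⟨a, ha, ha'⟩ := C.lift F hF.toWCrv Y k z hzU (ball_subset_closedBall hzt) (fun i hi hi' => hzc i ⟨hi, ball_subset_closedBall hi'⟩)
    have hnb : S.lf Y (C.ck j) z ∉ ball (C.Q j) (C.s j) := fun h => hzc j ⟨hzO, ball_subset_closedBall h⟩
    have hgn := g_ne C hg j hF Y z ⟨hzO, hzb⟩
    have h1 := hB a F hF Y z hzO ha ⟨⟨hzr, hnb⟩, ha'⟩ hgn
    have h2 : Tendsto (fun w => |eP S (g j) Wf mK jH Y (C.ck j) w - eN (C.H k) Wf mK jH Y (C.b k) w|) (𝓝[≠] z)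
        (𝓝 |eP S (g j) Wf mK jH Y (C.ck j) z - eN (C.H k) Wf mK jH Y (C.b k) z|) :=
      ((hcP.continuousAt.sub hcN.continuousAt).abs).tendsto.mono_left nhdsWithin_le_nhds
    have h3 := le_of_tendsto h2 h1
    exact h3.trans ((le_abs_self _).trans (Finset.single_le_sum (f := fun a => |B a|) (fun _ _ => abs_nonneg _) (Finset.mem_univ a)))
  · exact ⟨0, fun F hF => absurd ⟨F, hF⟩ hex⟩

end Pool.Agent.MQ3

end
end
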