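import Pool.Agent.H94.G6.M141
import Pool.Agent.H94.G6.M146
import Pool.Agent.H94.G6.M157
import Pool.Agent.H94.G6.M163
import Pool.Agent.H94.G6.M167
import Pool.Agent.H94.G6.M169
import Pool.Agent.H94.G6.MQ3.AsmP

/-! The parts of this file: MQ3.AsmNA_1, MQ3.AsmN. -/

section

/-!
# MQ3 AsmNA: the patches of type `N`, the sum of the densities
-/

set_option autoImplicit false

open Topology Filter Metric MvPolynomial MeasureTheory Laplacian

noncomputable section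

namespace Pool.Agent.MQ3

open Pool.Agent.H36.BP (EN fs)
open Pool.Agent.H14.PP (Tan)
open Pool.Agent.H17BP (Surface IsForm)
open Pool.Agent.H17EF (projVar coneE)
open Pool.Agent.H30M (tau LogSing)
open Pool.Agent.MQ (lam En ztv dvg DDv gr dv)

variable {M : ℕ} {P : Ideal (MvPolynomial (Fin (M + 1)) ℂ)} {RD : MvPolynomial (Fin (M + 1)) ℂ} {m : ℕ} {X : NCModel P RD} {θ : WDiff (coneE P) m}
  {l : LF M} {S : Web X θ l} {Ra : MvPolynomial (Fin (M + 1)) ℂ}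

/-! ## the open sets and the cores -/

/-! ## continuity -/

/-! ## the patches of type `N` -/

theorem isPatch_N {Wf : EN M → EN M → EN M → ℂ} {mK jH : ℕ} (hX : Surface (coneE P)) (hm : 1 ≤ mK)
    (hW : IsForm (coneE P) mK jH Wf) (C : Cov S Ra) {F : ℂ → EN M} (hF : RCrv θ RD Ra F) (Y : NCLift X F) (hne : WNe Wf Y) {Θ : ℂ → ℂ}
    (hΘ : IsTh S Wf mK Y Θ) {A : ℝ} {lm : ℂ → ℝ} (hl : Dens C Y A lm) (k : Fin C.nN) :
    ∃ (B : ℝ) (η : ℂ → ℂ), 0 ≤ B ∧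
      IsPatch F (Psi mK jH F Θ) (2 * jH / mK) lm (C.UN Y k) (eN (C.H k) Wf mK jH Y (C.b k)) η (fun _ => 0) ∅ B 0 := by
  obtain ⟨B₁, h₁⟩ := exists_etaN hX hm hW C k
  obtain ⟨η, h2, h3, h4⟩ := h₁ F hF Y hne Θ hΘ A lm hl
  obtain ⟨B₂, h5⟩ := up_N hX hm hW C k
  have h6 := h5 F hF Y hne A lm hl
  have hO := UN_open C hF.toWCrv Y k
  have hlm0 : ∀ z, 0 ≤ lm z := fun z => (Pool.Agent.MQ.lam_nonneg F z).trans (hl.le z)
  refine ⟨|B₁| + |B₂|, η, by positivity, ⟨hO, fun z hz => logSing_N hX hm hW C k hF Y hne z hz.1 hz.2.1, h2, fun z hz => ?_, fun z hz _ => ?_,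
    isClosed_empty, Set.empty_subset _, continuousOn_const, fun _ _ _ => rfl, fun z hz he => ?_, fun R hR => ?_, fun z hz he => ?_⟩⟩
  · refine (h3 z hz).trans (mul_le_mul_of_nonneg_right ?_ (hlm0 z))
    linarith [le_abs_self B₁, abs_nonneg B₂]
  · filter_upwards [h4 z hz] with w hw
    rw [add_comm]
    exact hw.1
  · refine lap_of_near (e := eN (C.H k) Wf mK jH Y (C.b k)) (f := fun z => 2 * jH / mK * lam F z ^ 2) he (h2.contDiffAt (hO.mem_nhds hz))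
      continuousAt_const (continuous_const.mul (hF.toWCrv.lam_cont.pow 2)).continuousAt ?_
    filter_upwards [h4 z hz] with w hw
    rw [hw.2.2, add_zero]
  · simp only [mul_zero, integral_zero, zero_mul, zero_add]
    have h7 : 0 ≤ ∫ z, ‖gr (tau R) z‖ * lm z := integral_nonneg fun z => mul_nonneg (norm_nonneg _) (hlm0 z)
    positivity
  · have := h6 z hz.1 hz.2.1 he
    linarith [le_abs_self B₂, abs_nonneg B₁]

/-! ## monotonicity -/

/-! ## the sum of the densities -/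

end Pool.Agent.MQ3

end
end

section

/-!
# MQ3 AsmN: the pack of a curve from the local packages
-/

set_option autoImplicit false

open Topology Filter Metric MvPolynomial MeasureTheory Laplacian

noncomputable section

namespace Pool.Agent.MQ3

open Pool.Agent.H36.BP (EN fs)
open Pool.Agent.H17BP (Surface IsForm)
open Pool.Agent.H17EF (projVar coneE)
open Pool.Agent.H30M (tau LogSing)
open Pool.Agent.MQ (lam En gr dv Pack Patches)
open Pool.Agent.MQ2 (LocX)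

/-! ## abstract patches -/

section

variable {M : ℕ} {F : ℂ → EN M} {Ψ : ℂ → ℂ} {ε₀ : ℝ}

theorem IsPatch.abs' {l : ℂ → ℝ} {U : Set ℂ} {e : ℂ → ℝ} {η : ℂ → ℂ} {err : ℂ → ℝ} {K : Set ℂ} {C δ : ℝ} (h0 : ∀ z, 0 ≤ l z)
    (h : IsPatch F Ψ ε₀ l U e η err K C δ) : IsPatch F Ψ ε₀ l U e η err K |C| δ := by
  refine ⟨h.isOpen, h.pos, h.field, fun z hz => (h.field_le z hz).trans (mul_le_mul_of_nonneg_right (le_abs_self C) (h0 z)), h.comp, h.closed, h.sub,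
    h.err_cont, h.err_off, h.lap, fun R hR => (h.int R hR).trans ?_, fun z hz he => (h.up z hz he).trans ?_⟩
  · have h2 : 0 ≤ ∫ z, ‖gr (tau R) z‖ * l z := integral_nonneg fun z => mul_nonneg (norm_nonneg _) (h0 z)
    have h3 := mul_le_mul_of_nonneg_right (le_abs_self C) h2
    have h4 := le_abs_self C
    linarith
  · have h4 := le_abs_self C
    linarith

theorem energy_add {a b : ℂ → ℝ} (ha : Continuous a) (hb : Continuous b) (h1 : ∃ B : ℝ, ∀ R, 1 ≤ R → ∫ z, tau R z * a z ^ 2 ≤ B * (En F R + 1))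
    (h2 : ∃ B : ℝ, ∀ R, 1 ≤ R → ∫ z, tau R z * b z ^ 2 ≤ B * (En F R + 1)) :
    ∃ B : ℝ, ∀ R, 1 ≤ R → ∫ z, tau R z * (a z + b z) ^ 2 ≤ B * (En F R + 1) := by
  obtain ⟨B₁, h1⟩ := h1
  obtain ⟨B₂, h2⟩ := h2
  refine ⟨2 * B₁ + 2 * B₂, fun R hR => ?_⟩
  have i1 : ∀ {f : ℂ → ℝ}, Continuous f → Integrable fun z => tau R z * f z := fun hf =>
    ((Pool.Agent.H30M.contDiff_tau R).continuous.mul hf).integrable_of_hasCompactSupport (Pool.Agent.H30M.hcs_tau hR).mul_right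
  have h3 : ∫ z, tau R z * (a z + b z) ^ 2 ≤ ∫ z, (2 * (tau R z * a z ^ 2) + 2 * (tau R z * b z ^ 2)) := by
    refine integral_mono (i1 ((ha.add hb).pow 2)) (((i1 (ha.pow 2)).const_mul 2).add ((i1 (hb.pow 2)).const_mul 2)) fun z => ?_
    have h4 := Pool.Agent.H30M.tau_nonneg hR z
    have h5 : (a z + b z) ^ 2 ≤ 2 * a z ^ 2 + 2 * b z ^ 2 := by nlinarith [sq_nonneg (a z - b z)]
    have h6 := mul_le_mul_of_nonneg_left h5 h4
    dsimp only
    linarith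
  have ia : Integrable fun z => 2 * (tau R z * a z ^ 2) := (i1 (ha.pow 2)).const_mul 2
  have ib : Integrable fun z => 2 * (tau R z * b z ^ 2) := (i1 (hb.pow 2)).const_mul 2
  rw [integral_add ia ib, integral_const_mul, integral_const_mul] at h3
  have h7 := h1 R hR
  have h8 := h2 R hR
  linarith

theorem energy_sum' {n : Type} (s : Finset n) {l : n → ℂ → ℝ} (hl : ∀ j, Continuous (l j))
    (h : ∀ j, ∃ B : ℝ, ∀ R, 1 ≤ R → ∫ z, tau R z * l j z ^ 2 ≤ B * (En F R + 1)) {a : ℂ → ℝ} (ha : Continuous a)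
    (h1 : ∃ B : ℝ, ∀ R, 1 ≤ R → ∫ z, tau R z * a z ^ 2 ≤ B * (En F R + 1)) :
    ∃ B : ℝ, ∀ R, 1 ≤ R → ∫ z, tau R z * (a z + ∑ j ∈ s, l j z) ^ 2 ≤ B * (En F R + 1) := by
  classical
  induction s using Finset.induction_on with
  | empty => simpa using h1
  | insert j s hj ih =>
    have e : ∀ z, a z + ∑ i ∈ insert j s, l i z = (a z + ∑ i ∈ s, l i z) + l j z := fun z => by
      rw [Finset.sum_insert hj]
      ring
    simp only [e]
    exact energy_add (ha.add (continuous_finsetSum _ fun i _ => hl i)) (hl j) ih (h j)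

/-- **The pack from finitely many patches.** -/
theorem pack_of_isPatch {ι : Type} [Fintype ι] {lm : ℂ → ℝ} {U K : ι → Set ℂ} {l : ι → ℂ → ℝ} {c D : ι → ℝ} {e : ι → ℂ → ℝ}
    {η : ι → ℂ → ℂ} {err : ι → ℂ → ℝ} (hF : Differentiable ℂ F) (hF0 : ∀ z, F z ≠ 0)
    (hord : ∃ A : ℝ, ∀ r : ℝ, 0 < r → Real.circleAverage (fun z => Real.log ‖F z‖) 0 r ≤ A * (1 + r ^ 2)) (hlm : Continuous lm) (hle : ∀ z, lam F z ≤ lm z)
    (hen : ∃ B : ℝ, ∀ R, 1 ≤ R → ∫ z, tau R z * lm z ^ 2 ≤ B * (En F R + 1)) (hlc : ∀ i, Continuous (l i)) (hll : ∀ i z, lm z ≤ l i z)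
    (hel : ∀ i, ∃ B : ℝ, ∀ R, 1 ≤ R → ∫ z, tau R z * l i z ^ 2 ≤ B * (En F R + 1)) (hD : ∀ i, 0 ≤ D i)
    (h : ∀ i, IsPatch F Ψ ε₀ (l i) (U i) (e i) (η i) (err i) (K i) (c i) (D i)) (hdis : ∀ i j, i ≠ j → ∀ z ∈ K i, z ∉ U j)
    {χ : ι → ℂ → ℝ} {B : ℝ} (h1 : ∀ i, ContDiff ℝ 2 (χ i)) (h2 : ∀ i z, 0 ≤ χ i z ∧ χ i z ≤ 1) (h3 : ∀ i, tsupport (χ i) ⊆ U i)
    (h4 : ∀ i z, ‖gr (χ i) z‖ ≤ B * lm z) (h5 : ∀ z, ∃ i, χ i z = 1)
    (h6 : ∀ i j, ∃ B' : ℝ, ∀ z, χ i z = 1 → z ∈ tsupport (χ j) → ContDiffAt ℝ 2 (e i) z → ContDiffAt ℝ 2 (e j) z → |e i z - e j z| ≤ B') :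
    ∃ L : ℂ → ℝ, Continuous L ∧ (∀ z, lam F z ≤ L z) ∧ (∃ B : ℝ, ∀ R, 1 ≤ R → ∫ z, tau R z * L z ^ 2 ≤ B * (En F R + 1)) ∧ Pack F L ε₀ (∑ i, D i) := by
  classical
  choose Bb hBb using h6
  have hlm0 : ∀ z, 0 ≤ lm z := fun z => (Pool.Agent.MQ.lam_nonneg F z).trans (hle z)
  have hl0 : ∀ i z, 0 ≤ l i z := fun i z => (hlm0 z).trans (hll i z)
  set L : ℂ → ℝ := fun z => lm z + ∑ i, l i z with hL
  have hLc : Continuous L := hlm.add (continuous_finsetSum _ fun i _ => hlc i)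
  have hlL : ∀ i z, l i z ≤ L z := fun i z => by
    have h7 := Finset.single_le_sum (f := fun i => l i z) (fun k _ => hl0 k z) (Finset.mem_univ i)
    have h8 := hlm0 z
    show _ ≤ lm z + ∑ i, l i z
    linarith
  have hmL : ∀ z, lm z ≤ L z := fun z => by
    have h7 : 0 ≤ ∑ i, l i z := Finset.sum_nonneg fun i _ => hl0 i z
    show _ ≤ lm z + ∑ i, l i z
    linarith
  have hL0 : ∀ z, 0 ≤ L z := fun z => (hlm0 z).trans (hmL z)
  have hLe := energy_sum' (F := F) Finset.univ hlc hel hlm hen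
  set CC : ℝ := |B| + ∑ i, |c i| + ∑ i, ∑ j, |Bb i j| with hCC
  have n1 : 0 ≤ ∑ i, |c i| := Finset.sum_nonneg fun i _ => abs_nonneg _
  have n2 : 0 ≤ ∑ i, ∑ j, |Bb i j| := Finset.sum_nonneg fun i _ => Finset.sum_nonneg fun j _ => abs_nonneg _
  have hCC0 : 0 ≤ CC := by positivity
  have hcC : ∀ i, |c i| ≤ CC := fun i => by
    have h7 := Finset.single_le_sum (f := fun i => |c i|) (fun k _ => abs_nonneg _) (Finset.mem_univ i)
    have h8 := abs_nonneg B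
    linarith
  have hbC : ∀ i j, |Bb i j| ≤ CC := fun i j => by
    have h7 := Finset.single_le_sum (f := fun j => |Bb i j|) (fun k _ => abs_nonneg _) (Finset.mem_univ j)
    have h9 := Finset.single_le_sum (f := fun i => ∑ j, |Bb i j|) (fun k _ => Finset.sum_nonneg fun j _ => abs_nonneg _) (Finset.mem_univ i)
    have h8 := abs_nonneg B
    linarith
  have hBC : |B| ≤ CC := by linarith
  have hP : ∀ i, IsPatch F Ψ ε₀ L (U i) (e i) (η i) (err i) (K i) CC (D i) := fun i =>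
    ((h i).abs' (hl0 i)).mono (hlc i) hLc (hl0 i) (hlL i) (abs_nonneg _) (hcC i)
  have hPt : Patches L U χ e η CC :=
    { isOpen := fun i => (h i).isOpen
      smooth := h1
      nonneg := fun i z => (h2 i z).1
      le_one := fun i z => (h2 i z).2
      supp := h3
      gr_le := fun i z => (h4 i z).trans (mul_le_mul ((le_abs_self B).trans hBC) (hmL z) (hlm0 z) hCC0)
      cover := h5
      log := fun i z hz => let ⟨c', _, h7⟩ := (h i).pos z hz; ⟨c', h7⟩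
      field := fun i => (h i).field
      field_le := fun i => (hP i).field_le
      comp := fun i j z hi hj => by
        by_cases hij : i = j
        · subst hij
          exact Eventually.of_forall fun _ => rfl
        · filter_upwards [(h i).comp z hi fun hK => hdis i j hij z hK hj, (h j).comp z hj fun hK => hdis j i (Ne.symm hij) z hK hi] with w h7 h8
          rw [h7, h8]
      bound := fun i j z a1 a2 a3 a4 => (hBb i j z a1 a2 a3 a4).trans ((le_abs_self _).trans (hbC i j)) }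
  have hv : ∀ z : ℂ, ∃ c, LogSing (fun _ : ℂ => (0 : ℝ)) c z := fun z => ⟨0, LogSing.of_contDiffAt contDiffAt_const⟩
  have hΔ : ∀ z : ℂ, Δ (fun _ : ℂ => (0 : ℝ)) z = 0 := fun z => by simp
  obtain ⟨B₁, hB₁⟩ := hLe
  obtain ⟨A, hA⟩ := hord
  obtain ⟨A₁, hA₁⟩ := Pool.Agent.MQ.ord hF hF0 hA
  have hEn : ∀ R, 1 ≤ R → 0 ≤ En F R := fun R hR => integral_nonneg fun z => mul_nonneg (Pool.Agent.H30M.tau_nonneg hR z) (sq_nonneg _)
  have hA₂ : ∀ R, 1 ≤ R → ∫ z, tau R z * L z ^ 2 ≤ (|B₁| * (|A₁| + 1)) * R ^ 2 := fun R hR => by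
    have h7 := hB₁ R hR
    have h8 := hA₁ R hR
    have h9 : 1 ≤ R ^ 2 := one_le_pow₀ hR
    have h10 : En F R + 1 ≤ (|A₁| + 1) * R ^ 2 := by
      have h11 : A₁ * R ^ 2 ≤ |A₁| * R ^ 2 := mul_le_mul_of_nonneg_right (le_abs_self _) (sq_nonneg R)
      nlinarith
    have h12 : B₁ * (En F R + 1) ≤ |B₁| * (En F R + 1) := mul_le_mul_of_nonneg_right (le_abs_self _) (by linarith [hEn R hR])
    have h13 := mul_le_mul_of_nonneg_left h10 (abs_nonneg B₁)
    linarith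
  have hp : ∀ i, ∀ z ∈ U i, ∃ c, 0 ≤ c ∧ LogSing (fun w => e i w + (fun _ : ℂ => (0 : ℝ)) w) c z := fun i z hz => by
    obtain ⟨c', h7, h8⟩ := (h i).pos z hz
    exact ⟨c', h7, h8.congr (Eventually.of_forall fun w => add_zero _)⟩
  refine ⟨L, hLc, fun z => (hle z).trans (hmL z), ⟨B₁, hB₁⟩, ?_⟩
  refine pack_of_patches_dis (v := fun _ => 0) (Pool.Agent.MQ.continuous_lam hF hF0) hLc hL0 hCC0 hPt (fun i => (h i).closed) (fun i => (h i).sub)
    (fun i => (h i).err_cont) hdis (fun i => (h i).err_off) (fun i => ⟨CC, (hP i).int⟩) hv (fun i z hz he _ => ?_) hp (fun i => ?_)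
  · have h7 := (h i).lap z hz he
    rw [hΔ z]
    linarith
  · refine Pool.Agent.MQ.Core.mean_of_le F hPt hLc hL0 hA₂ i hv (hp i) (C₀ := CC) (fun z h7 h8 _ => ?_) (hD i)
    have h9 : z ∈ U i := h3 i (subset_tsupport _ (by rw [Function.mem_support, h7]; exact one_ne_zero))
    have h10 := (hP i).up z h9 h8
    linarith

end

variable {M : ℕ} {P : Ideal (MvPolynomial (Fin (M + 1)) ℂ)} {RD : MvPolynomial (Fin (M + 1)) ℂ} {m : ℕ} {X : NCModel P RD} {θ : WDiff (coneE P) m}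
  {l : LF M} {S : Web X θ l} {Ra : MvPolynomial (Fin (M + 1)) ℂ}

/-- **The pack of a curve from the local packages.** -/
theorem pack_web {Wf : EN M → EN M → EN M → ℂ} {mK jH : ℕ} (hX : Surface (coneE P)) (hm : 1 ≤ mK)
    (hW : IsForm (coneE P) mK jH Wf) (C : Cov S Ra) {g : Fin C.nP → ℂ × ℂ → ℂ} (hg : PG C g) {F : ℂ → EN M} (hF : RCrv θ RD Ra F)
    (Y : NCLift X F) (hne : WNe Wf Y) {A : ℝ} (hA : 0 ≤ A) {lm : ℂ → ℝ} (hl : Dens C Y A lm) {A' δ : ℝ} (hδ : 0 ≤ δ)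
    (hL : ∀ j, LocX (C.vj j) (fun x => g j (C.Q j + x)) (C.Jj j) (C.UP Y j) (C.pj Y j) lm (C.s j) A' δ) :
    ∃ L : ℂ → ℝ, Continuous L ∧ (∀ z, lam F z ≤ L z) ∧ (∃ B : ℝ, ∀ R, 1 ≤ R → ∫ z, tau R z * L z ^ 2 ≤ B * (En F R + 1)) ∧
      Pack F L (2 * jH / mK) (C.nP * (δ * A)) := by
  classical
  obtain ⟨Θ, hΘ⟩ := exists_theta hX hm hW hF.toWCrv Y hne
  choose c ll e η err hP hlc hll hel heP using fun j => patch_P hX hm hW C hg hF Y hne hΘ hA hl hδ j (hL j)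
  choose c' η' hc' hN using fun k => isPatch_N hX hm hW C hF Y hne hΘ hl k
  obtain ⟨B, r', hr', hcut⟩ := exists_cut C
  obtain ⟨χ, x1, x2, x3, x4, x5, x6, x7⟩ := hcut F hF.toWCrv Y A lm hl
  have hen : ∃ B : ℝ, ∀ R, 1 ≤ R → ∫ z, tau R z * lm z ^ 2 ≤ B * (En F R + 1) := by
    obtain ⟨K, hK⟩ := hl.energy
    refine ⟨A + |K|, fun R hR => (hK R hR).trans ?_⟩
    have h1 : 0 ≤ En F R := integral_nonneg fun z => mul_nonneg (Pool.Agent.H30M.tau_nonneg hR z) (sq_nonneg _)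
    have h2 : 0 ≤ |K| * En F R := mul_nonneg (abs_nonneg _) h1
    have h3 := le_abs_self K
    nlinarith
  have hPP : ∀ {a b : Fin C.nP}, a ≠ b → ∀ {z : ℂ}, z ∈ C.UP Y a → z ∉ C.UP Y b := fun {a b} hab {z} hz hz' =>
    C.disj F hF.toWCrv Y a b hab z hz.1 (ball_subset_closedBall hz.2) hz'.1 (ball_subset_closedBall hz'.2)
  have hPN : ∀ (a : Fin C.nP) (k : Fin C.nN), ∃ B' : ℝ, ∀ z ∈ C.UP Y a, z ∈ C.UN Y k → S.lf Y (C.ck a) z ∈ closedBall (C.Q a) (r' a) →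
      ContDiffAt ℝ 2 (e a) z → ContDiffAt ℝ 2 (eN (C.H k) Wf mK jH Y (C.b k)) z → |e a z - eN (C.H k) Wf mK jH Y (C.b k) z| ≤ B' := fun a k => by
    obtain ⟨B', hB'⟩ := bd_PN hX hm hW C hg a k (hr' a).2
    refine ⟨B', fun z hz hz' hr he he' => ?_⟩
    have h1 := heP a z hz (hz'.2.2 a)
    rw [h1.self_of_nhds]
    exact hB' F hF Y hne z hz hz' hr (he.congr_of_eventuallyEq h1.symm) he'
  have hsup : ∀ i z, χ i z = 1 → z ∈ tsupport (χ i) := fun i z h7 => subset_tsupport _ (by rw [Function.mem_support, h7]; exact one_ne_zero)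
  have hD : ∑ i : Fin C.nP ⊕ Fin C.nN, (Sum.elim (fun _ => δ * A) (fun _ => 0) : Fin C.nP ⊕ Fin C.nN → ℝ) i = C.nP * (δ * A) := by
    rw [Fintype.sum_sum_type]
    simp
  rw [← hD]
  refine pack_of_isPatch (Ψ := Psi mK jH F Θ) (lm := lm) (U := UU C Y) (K := Sum.elim (C.core Y) fun _ => ∅) (l := Sum.elim ll fun _ => lm)
    (c := Sum.elim c c') (e := Sum.elim e fun k => eN (C.H k) Wf mK jH Y (C.b k)) (η := Sum.elim η η') (err := Sum.elim err fun _ _ => 0)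
    hF.diff hF.toWCrv.F_ne hF.ord hl.cont hl.le hen ?_ ?_ ?_ ?_ ?_ ?_ x1 x2 x3 x4 x5 ?_
  · rintro (j | k)
    · exact hlc j
    · exact hl.cont
  · rintro (j | k) z
    · exact hll j z
    · exact le_rfl
  · rintro (j | k)
    · exact hel j
    · exact hen
  · rintro (j | k)
    · exact mul_nonneg hδ hA
    · exact le_rfl
  · rintro (j | k)
    · exact hP j
    · exact hN k
  · rintro (a | k) (b | k') hij z hz
    · exact hPP (fun h => hij (by rw [h])) (core_sub_UP C Y a hz)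
    · exact fun h => h.2.2 a hz
    · exact absurd hz (Set.notMem_empty z)
    · exact absurd hz (Set.notMem_empty z)
  · rintro (a | k) (b | k')
    · by_cases hab : a = b
      · subst hab
        exact ⟨0, fun z _ _ _ _ => by simp⟩
      · exact ⟨0, fun z h1 h2 _ _ => absurd (x3 (Sum.inl b) h2) (hPP hab (x3 (Sum.inl a) (hsup _ z h1)))⟩
    · obtain ⟨B', hB'⟩ := hPN a k'
      exact ⟨B', fun z h1 h2 h3 h4 => hB' z (x3 (Sum.inl a) (hsup _ z h1)) (x3 (Sum.inr k') h2) (x6 a z (hsup _ z h1)) h3 h4⟩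
    · obtain ⟨B', hB'⟩ := hPN b k
      refine ⟨B', fun z h1 h2 h3 h4 => ?_⟩
      have h5 := hB' z (x3 (Sum.inl b) h2) (x3 (Sum.inr k) (hsup _ z h1)) (x6 b z h2) h4 h3
      rw [abs_sub_comm] at h5
      exact h5
    · obtain ⟨B', hB'⟩ := bd_NN hX hm hW C k k'
      exact ⟨B', fun z h1 h2 h3 h4 => hB' F hF Y hne z (x3 (Sum.inr k) (hsup _ z h1)) (x3 (Sum.inr k') h2) h3 h4⟩

end Pool.Agent.MQ3

end
end
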