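import Pool.Agent.H94.G6.M34
import Pool.Agent.H94.G6.M95

/-! The parts of this file: MQ2.Energy, MQ2.StepB. -/

section

/-!
# MQ2 Energy: the energy of one blow-up

`p` is a holomorphic map to `ℂ × ℂ`, `[p]` the map to the projective line; near `p = 0` the energy of `[p]` is bounded by the energy of `p` and a constant.
-/

set_option autoImplicit false

open MeasureTheory Topology Filter Metric Laplacian

noncomputable section

namespace Pool.Agent.MQ2

open Pool.Agent.MQ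
open Pool.Agent.H30M (tau rhoR avg Th LogSing gg contDiff_tau hcs_tau tau_nonneg rhoR_nonneg)
open Pool.Agent.H36.BP (EN fs wd)

/-! ## the projective line -/

/-- `ℂ × ℂ` with the Euclidean norm -/
def embL : ℂ × ℂ →L[ℂ] EN 1 :=
  (ContinuousLinearMap.fst ℂ ℂ ℂ).smulRight (EuclideanSpace.single (0 : Fin (1 + 1)) (1 : ℂ)) +
    (ContinuousLinearMap.snd ℂ ℂ ℂ).smulRight (EuclideanSpace.single (1 : Fin (1 + 1)) (1 : ℂ))

theorem embL_zero (q : ℂ × ℂ) : embL q (0 : Fin (1 + 1)) = q.1 := by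
  simp [embL]

theorem embL_one (q : ℂ × ℂ) : embL q (1 : Fin (1 + 1)) = q.2 := by
  simp [embL]

theorem norm_embL_sq (q : ℂ × ℂ) : ‖embL q‖ ^ 2 = ‖q.1‖ ^ 2 + ‖q.2‖ ^ 2 := by
  rw [EuclideanSpace.norm_sq_eq]
  have : (∑ i : Fin (1 + 1), ‖embL q i‖ ^ 2) = ‖embL q (0 : Fin (1 + 1))‖ ^ 2 + ‖embL q (1 : Fin (1 + 1))‖ ^ 2 := Fin.sum_univ_two _
  rw [this, embL_zero, embL_one]

theorem inner_embL (q w : ℂ × ℂ) : inner ℂ (embL q) (embL w) = (starRingEnd ℂ) q.1 * w.1 + (starRingEnd ℂ) q.2 * w.2 := by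
  rw [PiLp.inner_apply]
  have : (∑ i : Fin (1 + 1), inner ℂ (embL q i) (embL w i)) =
    inner ℂ (embL q (0 : Fin (1 + 1))) (embL w (0 : Fin (1 + 1))) + inner ℂ (embL q (1 : Fin (1 + 1))) (embL w (1 : Fin (1 + 1))) := Fin.sum_univ_two _
  rw [this, embL_zero, embL_one, embL_zero, embL_one]
  simp only [RCLike.inner_apply]
  ring

theorem le_norm_embL (q : ℂ × ℂ) : ‖q‖ ≤ ‖embL q‖ := by
  refine abs_le_of_sq_le_sq' ?_ (norm_nonneg _) |>.2
  rw [norm_embL_sq, Prod.norm_def]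
  rcases max_cases ‖q.1‖ ‖q.2‖ with h | h
  · rw [h.1]; nlinarith [norm_nonneg q.2]
  · rw [h.1]; nlinarith [norm_nonneg q.1]

theorem norm_embL_le (q : ℂ × ℂ) : ‖embL q‖ ≤ 2 * ‖q‖ := by
  refine abs_le_of_sq_le_sq' ?_ (by positivity) |>.2
  rw [norm_embL_sq]
  have h1 := norm_fst_le q
  have h2 := norm_snd_le q
  nlinarith [norm_nonneg q.1, norm_nonneg q.2, norm_nonneg q]

theorem embL_ne {q : ℂ × ℂ} (h : q ≠ 0) : embL q ≠ 0 := by
  rw [← norm_pos_iff] at h ⊢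
  exact h.trans_le (le_norm_embL q)

/-! ## the density -/

theorem fs_nonneg' {M : ℕ} (x v : EN M) : 0 ≤ fs x v := by
  unfold fs wd
  positivity

theorem fs_smul {M : ℕ} (x v : EN M) {a : ℂ} (c : ℂ) (ha : a ≠ 0) : fs (a • x) (a • v + c • x) = fs x v := by
  have h := fsd_smul x v a c ha
  rw [← fs_sq_eq, ← fs_sq_eq] at h
  exact (sq_eq_sq₀ (fs_nonneg' _ _) (fs_nonneg' _ _)).1 (by linarith)

theorem fs_le {M : ℕ} (x v : EN M) : fs x v ≤ ‖v‖ / ‖x‖ := by
  by_cases hx : x = 0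
  · simp [fs, hx]
  have hx0 : 0 < ‖x‖ := norm_pos_iff.2 hx
  have h1 : wd x v ≤ ‖x‖ * ‖v‖ := by
    unfold wd
    refine Real.sqrt_le_iff.2 ⟨by positivity, ?_⟩
    have := sq_nonneg ‖inner ℂ x v‖
    nlinarith
  unfold fs
  rw [div_le_div_iff₀ (by positivity) hx0]
  calc wd x v * ‖x‖ ≤ ‖x‖ * ‖v‖ * ‖x‖ := mul_le_mul_of_nonneg_right h1 hx0.le
    _ = ‖v‖ * ‖x‖ ^ 2 := by ring

theorem lam_smul {M : ℕ} {F G : ℂ → EN M} {a : ℂ → ℂ} {z : ℂ} (h : ∀ᶠ w in 𝓝 z, F w = a w • G w) (ha : DifferentiableAt ℂ a z) (ha0 : a z ≠ 0)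
    (hG : DifferentiableAt ℂ G z) : lam F z = lam G z := by
  have e : F =ᶠ[𝓝 z] fun w => a w • G w := h
  unfold lam
  rw [e.eq_of_nhds, e.deriv_eq, deriv_fun_smul ha hG]
  exact fs_smul _ _ _ ha0

theorem continuousAt_lam {M : ℕ} {F : ℂ → EN M} {z : ℂ} (hF : AnalyticAt ℂ F z) (h0 : F z ≠ 0) : ContinuousAt (lam F) z := by
  have hd : ContinuousAt (deriv F) z := hF.deriv.continuousAt
  have hc : ContinuousAt F z := hF.continuousAt
  unfold lam fs wd
  apply ContinuousAt.div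
  · exact Real.continuous_sqrt.continuousAt.comp (((hc.norm.pow 2).mul (hd.norm.pow 2)).sub ((ContinuousAt.inner hc hd).norm.pow 2))
  · exact hc.norm.pow 2
  · have := norm_pos_iff.2 h0
    positivity

/-- the density in the coordinate `h` of the projective line -/
theorem lam_graph {h : ℂ → ℂ} {z : ℂ} (hh : DifferentiableAt ℂ h z) :
    ‖deriv h z‖ = (1 + ‖h z‖ ^ 2) * lam (fun w => embL (1, h w)) z := by
  have hd : deriv (fun w => embL (1, h w)) z = embL (0, deriv h z) := by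
    have h1 : HasDerivAt (fun w => ((1 : ℂ), h w)) (0, deriv h z) z := (hasDerivAt_const z (1 : ℂ)).prodMk hh.hasDerivAt
    exact (embL.hasFDerivAt.comp_hasDerivAt z h1).deriv
  have h2 := lam_sq (fun w => embL (1, h w)) z
  have hp : 0 < 1 + ‖h z‖ ^ 2 := by positivity
  have h3 : ‖embL (1, h z)‖ ^ 4 = (1 + ‖h z‖ ^ 2) ^ 2 := by
    have : ‖embL (1, h z)‖ ^ 4 = (‖embL (1, h z)‖ ^ 2) ^ 2 := by ring
    rw [this, norm_embL_sq]
    simp
  simp only [hd] at h2
  rw [h3, norm_embL_sq, norm_embL_sq, inner_embL] at h2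
  simp only [norm_one, norm_zero, map_one, mul_zero, zero_add, norm_mul, RCLike.norm_conj, one_pow] at h2
  have h4 : (1 + ‖h z‖ ^ 2) ^ 2 * lam (fun w => embL (1, h w)) z ^ 2 = ‖deriv h z‖ ^ 2 := by
    rw [h2]
    field_simp
    ring
  have h5 : ((1 + ‖h z‖ ^ 2) * lam (fun w => embL (1, h w)) z) ^ 2 = ‖deriv h z‖ ^ 2 := by rw [mul_pow]; exact h4
  exact ((sq_eq_sq₀ (mul_nonneg hp.le (lam_nonneg _ _)) (norm_nonneg _)).1 h5).symm

theorem lam_graph' {h : ℂ → ℂ} {z : ℂ} (hh : DifferentiableAt ℂ h z) :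
    ‖deriv h z‖ = (1 + ‖h z‖ ^ 2) * lam (fun w => embL (h w, 1)) z := by
  have hd : deriv (fun w => embL (h w, 1)) z = embL (deriv h z, 0) := by
    have h1 : HasDerivAt (fun w => (h w, (1 : ℂ))) (deriv h z, 0) z := hh.hasDerivAt.prodMk (hasDerivAt_const z (1 : ℂ))
    exact (embL.hasFDerivAt.comp_hasDerivAt z h1).deriv
  have h2 := lam_sq (fun w => embL (h w, 1)) z
  have hp : 0 < 1 + ‖h z‖ ^ 2 := by positivity
  have h3 : ‖embL (h z, 1)‖ ^ 4 = (1 + ‖h z‖ ^ 2) ^ 2 := by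
    have : ‖embL (h z, 1)‖ ^ 4 = (‖embL (h z, 1)‖ ^ 2) ^ 2 := by ring
    rw [this, norm_embL_sq]
    simp [add_comm]
  simp only [hd] at h2
  rw [h3, norm_embL_sq, norm_embL_sq, inner_embL] at h2
  simp only [norm_one, norm_zero, map_one, mul_zero, add_zero, norm_mul, RCLike.norm_conj, one_pow] at h2
  have h4 : (1 + ‖h z‖ ^ 2) ^ 2 * lam (fun w => embL (h w, 1)) z ^ 2 = ‖deriv h z‖ ^ 2 := by
    rw [h2]
    field_simp
    ring
  have h5 : ((1 + ‖h z‖ ^ 2) * lam (fun w => embL (h w, 1)) z) ^ 2 = ‖deriv h z‖ ^ 2 := by rw [mul_pow]; exact h4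
  exact ((sq_eq_sq₀ (mul_nonneg hp.le (lam_nonneg _ _)) (norm_nonneg _)).1 h5).symm

/-! ## the extended density -/

/-- the density, extended to the zeros of `F` -/
def dz {M : ℕ} (F : ℂ → EN M) (z : ℂ) : ℝ := limUnder (𝓝[≠] z) (lam F)

theorem dz_eq {M : ℕ} {F G : ℂ → EN M} {z : ℂ} (h : ∀ᶠ w in 𝓝[≠] z, lam F w = lam G w) (hG : AnalyticAt ℂ G z) (h0 : G z ≠ 0) :
    dz F =ᶠ[𝓝 z] lam G := by
  have h1 : ∀ᶠ w in 𝓝 z, ∀ᶠ v in 𝓝[≠] w, lam F v = lam G v := by
    rw [eventually_nhdsWithin_iff] at h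
    filter_upwards [h.eventually_nhds] with w hw
    by_cases hwz : w = z
    · rw [hwz, eventually_nhdsWithin_iff]
      exact h
    · refine Eventually.filter_mono nhdsWithin_le_nhds ?_
      filter_upwards [hw, isOpen_ne.mem_nhds hwz] with v h2 h3
      exact h2 h3
  filter_upwards [h1, hG.eventually_analyticAt, hG.continuousAt.eventually_ne h0] with w h2 h3 h4
  refine Tendsto.limUnder_eq ?_
  exact ((continuousAt_lam h3 h4).tendsto.mono_left nhdsWithin_le_nhds).congr' (h2.mono fun v hv => hv.symm)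

/-- the factorization at a zero -/
theorem exists_factor {M : ℕ} {F : ℂ → EN M} {z : ℂ} (hF : AnalyticAt ℂ F z) (hne : ∃ᶠ w in 𝓝 z, F w ≠ 0) :
    ∃ (m : ℕ) (G : ℂ → EN M), AnalyticAt ℂ G z ∧ G z ≠ 0 ∧ (∀ᶠ w in 𝓝 z, F w = (w - z) ^ m • G w) ∧ ∀ᶠ w in 𝓝[≠] z, lam F w = lam G w := by
  have h1 : ¬ ∀ᶠ w in 𝓝 z, F w = 0 := by
    intro h
    exact hne (h.mono fun w hw => not_not.2 hw)
  obtain ⟨m, G, hG, hG0, he⟩ := hF.exists_eventuallyEq_pow_smul_nonzero_iff.2 h1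
  refine ⟨m, G, hG, hG0, he, ?_⟩
  rw [eventually_nhdsWithin_iff]
  filter_upwards [he.eventually_nhds, hG.eventually_analyticAt] with w h2 h3 h4
  refine lam_smul (a := fun w => (w - z) ^ m) h2 (by fun_prop) ?_ h3.differentiableAt
  exact pow_ne_zero _ (sub_ne_zero.2 h4)

theorem continuousAt_dz {M : ℕ} {F : ℂ → EN M} {z : ℂ} (hF : AnalyticAt ℂ F z) (hne : ∃ᶠ w in 𝓝 z, F w ≠ 0) : ContinuousAt (dz F) z := by
  obtain ⟨m, G, hG, hG0, -, h⟩ := exists_factor hF hne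
  exact (continuousAt_lam hG hG0).congr (dz_eq h hG hG0).symm

theorem dz_of_ne {M : ℕ} {F : ℂ → EN M} {z : ℂ} (hF : AnalyticAt ℂ F z) (h0 : F z ≠ 0) : dz F z = lam F z :=
  (dz_eq (G := F) (Eventually.of_forall fun _ => rfl) hF h0).eq_of_nhds

theorem dz_nonneg {M : ℕ} {F : ℂ → EN M} {z : ℂ} (hF : AnalyticAt ℂ F z) (hne : ∃ᶠ w in 𝓝 z, F w ≠ 0) : 0 ≤ dz F z := by
  obtain ⟨m, G, hG, hG0, -, h⟩ := exists_factor hF hne
  rw [(dz_eq h hG hG0).eq_of_nhds]
  exact lam_nonneg G z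

/-! ## the potential -/

/-- a concave function with slope `1` below `t₂ - 1`, and `0` above `t₂` -/
def phi (t₂ t : ℝ) : ℝ := - Th (t₂ - t)

theorem contDiff_phi (t₂ : ℝ) : ContDiff ℝ 2 (phi t₂) :=
  (Pool.Agent.H30M.contDiff_Th.comp (contDiff_const.sub contDiff_id)).neg

theorem hasDerivAt_phi (t₂ t : ℝ) : HasDerivAt (phi t₂) (Real.smoothTransition (t₂ - t)) t := by
  have h1 : HasDerivAt (fun s : ℝ => t₂ - s) (-1) t := by simpa using (hasDerivAt_id t).const_sub t₂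
  have h2 : HasDerivAt (fun s : ℝ => Th (t₂ - s)) (Real.smoothTransition (t₂ - t) * -1) t := (Pool.Agent.H30M.hasDerivAt_Th (t₂ - t)).comp t h1
  have h3 : HasDerivAt (fun s : ℝ => -Th (t₂ - s)) (-(Real.smoothTransition (t₂ - t) * -1)) t := h2.neg
  have e : -(Real.smoothTransition (t₂ - t) * -1) = Real.smoothTransition (t₂ - t) := by ring
  rw [e] at h3
  exact h3

theorem deriv_phi (t₂ : ℝ) : deriv (phi t₂) = fun t => Real.smoothTransition (t₂ - t) := funext fun t => (hasDerivAt_phi t₂ t).deriv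

theorem deriv2_phi (t₂ t : ℝ) : deriv (deriv (phi t₂)) t = - deriv Real.smoothTransition (t₂ - t) := by
  rw [deriv_phi]
  exact deriv_comp_const_sub (f := Real.smoothTransition) t₂ t

theorem phi_nonpos (t₂ t : ℝ) : phi t₂ t ≤ 0 := neg_nonpos.2 (Pool.Agent.H30M.Th_nonneg _)

theorem phi_zero {t₂ t : ℝ} (h : t₂ ≤ t) : phi t₂ t = 0 := by
  unfold phi
  rw [Pool.Agent.H30M.Th_nonpos (by linarith), neg_zero]

theorem phi_affine {t₂ t : ℝ} (h : t ≤ t₂ - 1) : phi t₂ t = t + (1 - t₂ - Th 1) := by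
  unfold phi
  have := Pool.Agent.H30M.Th_sub_eq (s := t₂ - t) (t := 1) le_rfl (by linarith)
  linarith

/-- a bound for the derivative of the smooth transition -/
theorem exists_st_bound : ∃ C : ℝ, 0 ≤ C ∧ ∀ s, deriv Real.smoothTransition s ≤ C := by
  have hc : Continuous (deriv Real.smoothTransition) := (Real.smoothTransition.contDiff (n := 1)).continuous_deriv le_rfl
  obtain ⟨C, hC⟩ := isCompact_Icc.exists_bound_of_continuousOn (s := Set.Icc (0 : ℝ) 1) hc.continuousOn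
  refine ⟨max C 0, le_max_right _ _, fun s => ?_⟩
  by_cases h : s ∈ Set.Icc (0 : ℝ) 1
  · exact (le_abs_self _).trans ((hC s h).trans (le_max_left _ _))
  · rw [Pool.Agent.H30M.deriv_st_eq_zero]
    · exact le_max_right _ _
    · rw [Set.mem_Icc, not_and_or, not_le, not_le] at h
      rcases h with h | h
      · exact Or.inl h.le
      · exact Or.inr h.le

/-- the potential of the energy -/
def pot (Om : Set ℂ) (F : ℂ → EN 1) (t₂ : ℝ) : ℂ → ℝ := Om.indicator fun w => phi t₂ (Real.log ‖F w‖)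

section

variable {Om : Set ℂ} {F : ℂ → EN 1} {t₂ : ℝ}

theorem pot_nonpos (z : ℂ) : pot Om F t₂ z ≤ 0 := Set.indicator_nonpos (fun _ _ => phi_nonpos _ _) z

theorem pot_ev (hOm : IsOpen Om) {z : ℂ} (hz : z ∈ Om) : pot Om F t₂ =ᶠ[𝓝 z] fun w => phi t₂ (Real.log ‖F w‖) := by
  filter_upwards [hOm.mem_nhds hz] with w hw
  exact Set.indicator_of_mem hw _

theorem pot_ev_out {T : Set ℂ} (hT : IsClosed T) (hTO : ∀ z ∈ Om, Real.log ‖F z‖ < t₂ → z ∈ T) {z : ℂ} (hz : z ∉ T) :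
    pot Om F t₂ =ᶠ[𝓝 z] fun _ => 0 := by
  filter_upwards [hT.isOpen_compl.mem_nhds hz] with w hw
  by_cases hwO : w ∈ Om
  · unfold pot
    rw [Set.indicator_of_mem hwO]
    refine phi_zero ?_
    by_contra h
    exact hw (hTO w hwO (not_le.1 h))
  · exact Set.indicator_of_notMem hwO _

theorem pot_contDiffAt (hOm : IsOpen Om) {z : ℂ} (hz : z ∈ Om) (hF : AnalyticAt ℂ F z) (h0 : F z ≠ 0) : ContDiffAt ℝ 2 (pot Om F t₂) z := by
  refine ContDiffAt.congr_of_eventuallyEq ?_ (pot_ev hOm hz)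
  exact (contDiff_phi t₂).contDiffAt.comp z (MQ.contDiffAt_log_norm hF h0)

theorem pot_logSing (hOm : IsOpen Om) (hF : ∀ z ∈ Om, AnalyticAt ℂ F z) (hne : ∀ z ∈ Om, ∃ᶠ w in 𝓝 z, F w ≠ 0) {T : Set ℂ} (hT : IsClosed T) (hTs : T ⊆ Om)
    (hTO : ∀ z ∈ Om, Real.log ‖F z‖ < t₂ → z ∈ T) (z : ℂ) : ∃ c, 0 ≤ c ∧ LogSing (pot Om F t₂) c z := by
  by_cases hz : z ∈ Om
  · by_cases h0 : F z = 0
    · obtain ⟨m, G, hG, hG0, he, -⟩ := exists_factor (hF z hz) (hne z hz)
      refine ⟨m, Nat.cast_nonneg m, fun w => Real.log ‖G w‖ + (1 - t₂ - Th 1), (MQ.contDiffAt_log_norm hG hG0).add contDiffAt_const, ?_⟩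
      have h1 : ∀ᶠ w in 𝓝 z, ‖F w‖ < Real.exp (t₂ - 1) := by
        have : ContinuousAt (fun w => ‖F w‖) z := (hF z hz).continuousAt.norm
        refine this.eventually (gt_mem_nhds ?_)
        change ‖F z‖ < _
        rw [h0, norm_zero]
        exact Real.exp_pos _
      filter_upwards [he.filter_mono nhdsWithin_le_nhds, h1.filter_mono nhdsWithin_le_nhds, (hG.continuousAt.eventually_ne hG0).filter_mono nhdsWithin_le_nhds,
        (pot_ev (F := F) (t₂ := t₂) hOm hz).filter_mono nhdsWithin_le_nhds, self_mem_nhdsWithin] with w h2 h3 h4 h5 h6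
      have hwz : ‖w - z‖ ≠ 0 := norm_ne_zero_iff.2 (sub_ne_zero.2 h6)
      have hF0 : 0 < ‖F w‖ := by
        rw [h2, norm_smul, norm_pow]
        positivity
      have h7 : Real.log ‖F w‖ ≤ t₂ - 1 := by
        rw [Real.log_le_iff_le_exp hF0]
        exact h3.le
      rw [h5, phi_affine h7, h2, norm_smul, norm_pow, Real.log_mul (pow_ne_zero _ hwz) (norm_ne_zero_iff.2 h4), Real.log_pow]
      ring
    · exact ⟨0, le_rfl, LogSing.of_contDiffAt (pot_contDiffAt hOm hz (hF z hz) h0)⟩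
  · refine ⟨0, le_rfl, LogSing.of_contDiffAt ?_⟩
    exact contDiffAt_const.congr_of_eventuallyEq (pot_ev_out hT hTO fun h => hz (hTs h))

/-- **The Laplacian of the potential.** -/
theorem lap_pot_ge {C : ℝ} (hC0 : 0 ≤ C) (hC : ∀ s, deriv Real.smoothTransition s ≤ C) (hOm : IsOpen Om) {z : ℂ} (hz : z ∈ Om) (hF : AnalyticAt ℂ F z)
    (h0 : F z ≠ 0) {b : ℝ} (hb0 : 0 ≤ b) (hb1 : b ≤ 1) (hb : Real.exp (t₂ - 1) < ‖F z‖ → b = 0) :
    2 * (b * lam F z) ^ 2 ≤ Δ (pot Om F t₂) z + C * (‖deriv F z‖ / Real.exp (t₂ - 1)) ^ 2 := by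
  have hFp : 0 < ‖F z‖ := norm_pos_iff.2 h0
  have e1 : Δ (pot Om F t₂) z = Real.smoothTransition (t₂ - Real.log ‖F z‖) * (2 * lam F z ^ 2) -
      deriv Real.smoothTransition (t₂ - Real.log ‖F z‖) * ‖gr (fun w => Real.log ‖F w‖) z‖ ^ 2 := by
    rw [Pool.Agent.H30M.lap_congr (pot_ev hOm hz), Pool.Agent.H30M.lap_comp (φ := phi t₂) (contDiff_phi t₂).contDiffAt (MQ.contDiffAt_log_norm hF h0),
      deriv2_phi, deriv_phi, (lap_log_norm hF h0).2, gg_self]
    ring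
  have hlam := lam_nonneg F z
  have hL : 0 ≤ lam F z ^ 2 := sq_nonneg _
  have hE : 0 ≤ C * (‖deriv F z‖ / Real.exp (t₂ - 1)) ^ 2 := by positivity
  rcases le_or_gt ‖F z‖ (Real.exp (t₂ - 1)) with h | h
  · have h1 : Real.log ‖F z‖ ≤ t₂ - 1 := (Real.log_le_iff_le_exp hFp).2 h
    rw [e1, Real.smoothTransition.one_of_one_le (by linarith), Pool.Agent.H30M.deriv_st_eq_zero (Or.inr (by linarith))]
    have h2 : b ^ 2 ≤ 1 := by nlinarith
    have h3 : (b * lam F z) ^ 2 ≤ lam F z ^ 2 := by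
      rw [mul_pow]
      nlinarith
    linarith
  · rw [hb h, zero_mul]
    have h1 : ‖gr (fun w => Real.log ‖F w‖) z‖ ≤ ‖deriv F z‖ / Real.exp (t₂ - 1) := by
      rw [gr_log_normV hF.differentiableAt.hasDerivAt h0, norm_mul, RCLike.norm_conj, Complex.norm_real, Real.norm_of_nonneg (by positivity)]
      have h2 := norm_inner_le_norm (𝕜 := ℂ) (F z) (deriv F z)
      have h3 : (‖F z‖ ^ 2)⁻¹ * ‖inner ℂ (F z) (deriv F z)‖ ≤ ‖deriv F z‖ / ‖F z‖ := by
        rw [inv_mul_le_iff₀ (by positivity)]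
        refine h2.trans (le_of_eq ?_)
        field_simp
      refine h3.trans ?_
      exact div_le_div_of_nonneg_left (norm_nonneg _) (Real.exp_pos _) h.le
    have h2 : ‖gr (fun w => Real.log ‖F w‖) z‖ ^ 2 ≤ (‖deriv F z‖ / Real.exp (t₂ - 1)) ^ 2 := pow_le_pow_left₀ (norm_nonneg _) h1 2
    have h3 : deriv Real.smoothTransition (t₂ - Real.log ‖F z‖) * ‖gr (fun w => Real.log ‖F w‖) z‖ ^ 2 ≤ C * (‖deriv F z‖ / Real.exp (t₂ - 1)) ^ 2 :=
      mul_le_mul (hC _) h2 (sq_nonneg _) hC0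
    have h4 : 0 ≤ Real.smoothTransition (t₂ - Real.log ‖F z‖) * (2 * lam F z ^ 2) := mul_nonneg (Real.smoothTransition.nonneg _) (by positivity)
    rw [e1]
    nlinarith

end

/-! ## the energy -/

/-- a cut-off function -/
def bb (r₁ : ℝ) (q : ℂ × ℂ) : ℝ := max 0 (min 1 (2 - ‖q‖ / r₁))

theorem continuous_bb (r₁ : ℝ) : Continuous (bb r₁) := by
  unfold bb
  fun_prop

theorem bb_nonneg (r₁ : ℝ) (q : ℂ × ℂ) : 0 ≤ bb r₁ q := le_max_left _ _

theorem bb_le_one (r₁ : ℝ) (q : ℂ × ℂ) : bb r₁ q ≤ 1 := max_le zero_le_one (min_le_left _ _)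

theorem bb_one {r₁ : ℝ} (hr : 0 < r₁) {q : ℂ × ℂ} (h : ‖q‖ ≤ r₁) : bb r₁ q = 1 := by
  unfold bb
  have h1 : ‖q‖ / r₁ ≤ 1 := (div_le_one hr).2 h
  rw [min_eq_left (by linarith), max_eq_right zero_le_one]

theorem bb_zero {r₁ : ℝ} (hr : 0 < r₁) {q : ℂ × ℂ} (h : 2 * r₁ ≤ ‖q‖) : bb r₁ q = 0 := by
  unfold bb
  have h1 : 2 ≤ ‖q‖ / r₁ := (le_div_iff₀ hr).2 h
  exact max_eq_left ((min_le_right _ _).trans (by linarith))

theorem deriv_embL {p : ℂ → ℂ × ℂ} {z : ℂ} (hp : DifferentiableAt ℂ p z) : deriv (fun w => embL (p w)) z = embL (deriv p z) :=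
  (embL.hasFDerivAt.comp_hasDerivAt z hp.hasDerivAt).deriv

theorem an_embL {p : ℂ → ℂ × ℂ} {z : ℂ} (hp : AnalyticAt ℂ p z) : AnalyticAt ℂ (fun w => embL (p w)) z :=
  (embL.analyticAt _).comp hp

/-- the inequality for the coordinate `h` of the projective line -/
theorem deriv_le_of_lam {F G : ℂ → EN 1} {l : ℂ → ℝ} {z : ℂ} {h x : ℂ → ℂ} (hx : AnalyticAt ℂ x z) (hx0 : ∀ᶠ w in 𝓝[≠] z, x w ≠ 0)
    (hG : AnalyticAt ℂ G z) (hG0 : ∀ w, G w ≠ 0) (hFG : ∀ᶠ w in 𝓝 z, F w = x w • G w) (hh : AnalyticAt ℂ h z)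
    (hlam : ∀ᶠ w in 𝓝 z, ‖deriv h w‖ = (1 + ‖h w‖ ^ 2) * lam G w) (hl : ContinuousAt l z) (hFl : ∀ᶠ w in 𝓝 z, F w ≠ 0 → lam F w ≤ l w) :
    ‖deriv h z‖ ≤ (1 + ‖h z‖ ^ 2) * l z := by
  have h1 : ∀ᶠ w in 𝓝[≠] z, ‖deriv h w‖ ≤ (1 + ‖h w‖ ^ 2) * l w := by
    filter_upwards [hx0, hFG.eventually_nhds.filter_mono nhdsWithin_le_nhds, hx.eventually_analyticAt.filter_mono nhdsWithin_le_nhds,
      hG.eventually_analyticAt.filter_mono nhdsWithin_le_nhds, hlam.filter_mono nhdsWithin_le_nhds, hFl.filter_mono nhdsWithin_le_nhds]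
      with w h1 h2 h3 h4 h5 h6
    have h7 : lam F w = lam G w := lam_smul (a := x) h2 h3.differentiableAt h1 h4.differentiableAt
    rw [h5, ← h7]
    refine mul_le_mul_of_nonneg_left (h6 ?_) (by positivity)
    rw [h2.self_of_nhds]
    exact smul_ne_zero h1 (hG0 w)
  have h2 : Tendsto (fun w => ‖deriv h w‖) (𝓝[≠] z) (𝓝 ‖deriv h z‖) := hh.deriv.continuousAt.norm.tendsto.mono_left nhdsWithin_le_nhds
  have h3 : Tendsto (fun w => (1 + ‖h w‖ ^ 2) * l w) (𝓝[≠] z) (𝓝 ((1 + ‖h z‖ ^ 2) * l z)) :=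
    ((continuousAt_const.add (hh.continuousAt.norm.pow 2)).mul hl).tendsto.mono_left nhdsWithin_le_nhds
  exact le_of_tendsto_of_tendsto h2 h3 h1

/-- **The energy of one blow-up.** -/
theorem energy {r s B : ℝ} (hs : 0 < s) (hsr : s < r) (hB : 0 ≤ B) : ∃ A : ℝ, 0 ≤ A ∧ ∀ (Om : Set ℂ) (p : ℂ → ℂ × ℂ) (lm : ℂ → ℝ), IsOpen Om →
    (∀ z ∈ Om, AnalyticAt ℂ p z) → (∀ z ∈ Om, p z ∈ ball (0 : ℂ × ℂ) r) → (∀ t < r, IsClosed {z | z ∈ Om ∧ p z ∈ closedBall (0 : ℂ × ℂ) t}) →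
    (∀ z ∈ Om, ∃ᶠ w in 𝓝 z, p w ≠ 0) → Continuous lm → (∀ z, 0 ≤ lm z) → (∀ z ∈ Om, ‖deriv p z‖ ≤ B * lm z) →
    ∃ (l1 : ℂ → ℝ) (K : ℝ), Continuous l1 ∧ (∀ z, lm z ≤ l1 z) ∧
      (∀ R, 1 ≤ R → ∫ z, tau R z * l1 z ^ 2 ≤ A * (∫ z, tau R z * lm z ^ 2) + K) ∧
      ∀ z ∈ Om, p z ∈ closedBall (0 : ℂ × ℂ) s →
        (∀ h : ℂ → ℂ, AnalyticAt ℂ h z → (∀ᶠ w in 𝓝 z, (p w).2 = (p w).1 * h w) → ‖deriv h z‖ ≤ (1 + ‖h z‖ ^ 2) * l1 z) ∧
        ∀ h : ℂ → ℂ, AnalyticAt ℂ h z → (∀ᶠ w in 𝓝 z, (p w).1 = (p w).2 * h w) → ‖deriv h z‖ ≤ (1 + ‖h z‖ ^ 2) * l1 z := by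
  obtain ⟨C, hC0, hC⟩ := exists_st_bound
  have hr : 0 < r := hs.trans hsr
  set r₁ : ℝ := r / 32 with hr₁
  have hr₁0 : 0 < r₁ := by positivity
  set t₂ : ℝ := Real.log (r / 2) with ht₂
  have hexp : Real.exp (t₂ - 1) = r / 2 / Real.exp 1 := by
    rw [Real.exp_sub, ht₂, Real.exp_log (by positivity)]
  have he8 : r / 8 ≤ Real.exp (t₂ - 1) := by
    rw [hexp, div_div, div_le_div_iff_of_pos_left hr (by norm_num) (by positivity)]
    have := Real.exp_one_lt_d9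
    linarith
  set c₁ : ℝ := 1 + 2 * B / r₁ with hc₁
  have hc₁0 : 1 ≤ c₁ := by
    have : 0 ≤ 2 * B / r₁ := by positivity
    linarith
  set D : ℝ := C * (2 * B / Real.exp (t₂ - 1)) ^ 2 with hD
  have hD0 : 0 ≤ D := by positivity
  refine ⟨2 * c₁ ^ 2 + D, by positivity, fun Om p lm hOm hp _ hcl hne hlm hlm0 hder => ?_⟩
  set F : ℂ → EN 1 := fun z => embL (p z) with hFdef
  have hF : ∀ z ∈ Om, AnalyticAt ℂ F z := fun z hz => an_embL (hp z hz)
  have hFne : ∀ z ∈ Om, ∃ᶠ w in 𝓝 z, F w ≠ 0 := fun z hz => (hne z hz).mono fun w hw => embL_ne hw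
  have hFd : ∀ z ∈ Om, ‖deriv F z‖ ≤ 2 * B * lm z := by
    intro z hz
    rw [hFdef, deriv_embL (hp z hz).differentiableAt]
    refine (norm_embL_le _).trans ?_
    have := hder z hz
    linarith
  set b : ℂ → ℝ := Om.indicator fun w => bb r₁ (p w) with hb
  have hb0 : ∀ z, 0 ≤ b z := fun z => Set.indicator_nonneg (fun _ _ => bb_nonneg _ _) z
  have hbm : ∀ z ∈ Om, b z = bb r₁ (p z) := fun z hz => Set.indicator_of_mem hz _
  have hbn : ∀ z ∉ Om, b z = 0 := fun z hz => Set.indicator_of_notMem hz _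
  have hbd0 : ∀ z, 0 ≤ b z * dz F z := by
    intro z
    by_cases hz : z ∈ Om
    · exact mul_nonneg (hb0 z) (dz_nonneg (hF z hz) (hFne z hz))
    · rw [hbn z hz, zero_mul]
  have hbc : Continuous fun z => b z * dz F z := by
    rw [continuous_iff_continuousAt]
    intro z
    by_cases hz : z ∈ Om
    · have h1 : ContinuousAt b z := by
        have h2 : b =ᶠ[𝓝 z] fun w => bb r₁ (p w) := by
          filter_upwards [hOm.mem_nhds hz] with w hw
          exact hbm w hw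
        exact ((continuous_bb r₁).continuousAt.comp (hp z hz).continuousAt).congr h2.symm
      exact h1.mul (continuousAt_dz (hF z hz) (hFne z hz))
    · have h1 : (fun z => b z * dz F z) =ᶠ[𝓝 z] fun _ => 0 := by
        filter_upwards [(hcl (2 * r₁) (by rw [hr₁]; linarith)).isOpen_compl.mem_nhds fun h => hz h.1] with w hw
        by_cases hwO : w ∈ Om
        · rw [hbm w hwO, bb_zero hr₁0, zero_mul]
          by_contra h
          exact hw ⟨hwO, by rw [mem_closedBall_zero_iff]; exact (not_le.1 h).le⟩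
        · rw [hbn w hwO, zero_mul]
      exact continuousAt_const.congr h1.symm
  -- the density is bounded by `l1`
  have hl1 : ∀ z ∈ Om, F z ≠ 0 → lam F z ≤ c₁ * lm z + b z * dz F z := by
    intro z hz h0
    rcases le_or_gt ‖p z‖ r₁ with h | h
    · rw [hbm z hz, bb_one hr₁0 h, one_mul, dz_of_ne (hF z hz) h0]
      have := mul_nonneg (zero_le_one.trans hc₁0) (hlm0 z)
      linarith
    · have h1 : lam F z ≤ 2 * B * lm z / r₁ := by
        refine (fs_le _ _).trans ?_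
        refine div_le_div₀ (mul_nonneg (by positivity) (hlm0 z)) (hFd z hz) hr₁0 ?_
        exact h.le.trans (le_norm_embL _)
      have h2 : 2 * B * lm z / r₁ ≤ c₁ * lm z := by
        rw [hc₁, add_mul, one_mul]
        have : 2 * B * lm z / r₁ = 2 * B / r₁ * lm z := by ring
        rw [this]
        have := hlm0 z
        linarith
      have := hbd0 z
      linarith
  -- the potential
  set T : Set ℂ := {z | z ∈ Om ∧ p z ∈ closedBall (0 : ℂ × ℂ) (r / 2)} with hT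
  have hTc : IsClosed T := hcl _ (by linarith)
  have hTO : ∀ z ∈ Om, Real.log ‖F z‖ < t₂ → z ∈ T := by
    intro z hz h
    refine ⟨hz, ?_⟩
    rw [mem_closedBall_zero_iff]
    by_contra h1
    rw [not_le] at h1
    have h2 : r / 2 < ‖F z‖ := h1.trans_le (le_norm_embL _)
    exact absurd (Real.log_lt_log (by positivity) h2) (not_lt.2 h.le)
  have hlog := pot_logSing hOm hF hFne hTc (fun z hz => hz.1) hTO
  choose c hc0 hcl' using hlog
  -- the inequality almost everywhere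
  have hae : ∀ᵐ z : ℂ, 2 * (b z * dz F z) ^ 2 ≤ Δ (pot Om F t₂) z + D * lm z ^ 2 := by
    have hzero : ∀ᵐ z : ℂ, z ∈ Om → F z ≠ 0 := by
      rw [ae_iff]
      refine measure_null_of_locally_null _ fun z hz => ?_
      simp only [Set.mem_ofPred_eq, Classical.not_imp, not_not] at hz
      have h1 : ∀ᶠ w in 𝓝[≠] z, F w ≠ 0 := by
        rcases (hF z hz.1).eventually_eq_zero_or_eventually_ne_zero with h | h
        · exact absurd (h.mono fun w hw => not_not.2 hw) (hFne z hz.1)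
        · exact h
      rw [eventually_nhdsWithin_iff] at h1
      refine ⟨{w | ¬ (w ∈ Om → F w ≠ 0)} ∩ {w | w ∈ ({z}ᶜ : Set ℂ) → F w ≠ 0}, inter_mem_nhdsWithin _ h1, ?_⟩
      refine measure_mono_null (t := {z}) ?_ (measure_singleton z)
      rintro w ⟨h2, h3⟩
      by_contra h4
      exact h2 fun _ => h3 h4
    filter_upwards [hzero] with z hz
    by_cases hzO : z ∈ Om
    · have h0 := hz hzO
      rw [dz_of_ne (hF z hzO) h0]
      refine (lap_pot_ge (t₂ := t₂) hC0 hC hOm hzO (hF z hzO) h0 (hb0 z) ?_ ?_).trans ?_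
      · rw [hbm z hzO]
        exact bb_le_one _ _
      · intro h
        rw [hbm z hzO]
        refine bb_zero hr₁0 ?_
        have h1 := norm_embL_le (p z)
        have h2 : r / 8 < 2 * ‖p z‖ := (he8.trans_lt h).trans_le h1
        rw [hr₁]
        linarith
      · have h1 : ‖deriv F z‖ / Real.exp (t₂ - 1) ≤ 2 * B / Real.exp (t₂ - 1) * lm z := by
          rw [div_mul_eq_mul_div]
          exact div_le_div_of_nonneg_right (hFd z hzO) (Real.exp_pos _).le
        have h2 := pow_le_pow_left₀ (by positivity) h1 2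
        have h3 : C * (‖deriv F z‖ / Real.exp (t₂ - 1)) ^ 2 ≤ D * lm z ^ 2 := by
          rw [hD, mul_assoc, ← mul_pow]
          exact mul_le_mul_of_nonneg_left h2 hC0
        linarith
    · rw [hbn z hzO, zero_mul, Pool.Agent.H30M.lap_congr (pot_ev_out hTc hTO fun h => hzO h.1)]
      have h1 : Δ (fun _ : ℂ => (0 : ℝ)) z = 0 := by
        rw [Pool.Agent.H30M.lap_eq contDiffAt_const]
        simp
      rw [h1]
      have := mul_nonneg hD0 (sq_nonneg (lm z))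
      simpa using this
  refine ⟨fun z => c₁ * lm z + b z * dz F z, - avg 1 (pot Om F t₂), (hlm.const_mul c₁).add hbc, fun z => ?_, fun R hR => ?_, ?_⟩
  · have h1 := hbd0 z
    have h2 : 1 * lm z ≤ c₁ * lm z := mul_le_mul_of_nonneg_right hc₁0 (hlm0 z)
    linarith
  · -- the integral
    have hE' : ∀ z ∈ tsupport (tau R), LogSing (pot Om F t₂) (c z) z := fun z _ => hcl' z
    have h1 := LogSing.mean1 ((contDiff_tau R).of_le (by norm_num)) (hcs_tau hR) hE'
    have h2 := LogSing.mean_tau hR (w := pot Om F t₂) (c := c) fun z _ => hcl' z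
    have h3 : 0 ≤ ∑ᶠ z, c z * tau R z := finsum_nonneg fun z => mul_nonneg (hc0 z) (tau_nonneg hR z)
    have h4 : ∫ z, tau R z * Δ (pot Om F t₂) z ≤ avg R (pot Om F t₂) - avg 1 (pot Om F t₂) := by
      have h5 : 0 ≤ 2 * Real.pi * ∑ᶠ z, c z * tau R z := mul_nonneg (by positivity) h3
      linarith
    have h5 : avg R (pot Om F t₂) ≤ 0 := integral_nonpos fun z => mul_nonpos_of_nonneg_of_nonpos (rhoR_nonneg R z) (pot_nonpos z)
    have hiE := LogSing.integrable_lap (contDiff_tau R).continuous (hcs_tau hR) hE'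
    have hint : ∀ {u : ℂ → ℝ}, Continuous u → Integrable fun z => tau R z * u z := fun {u} hu =>
      ((contDiff_tau R).continuous.mul hu).integrable_of_hasCompactSupport (hcs_tau hR).mul_right
    have h6 : ∫ z, tau R z * (c₁ * lm z + b z * dz F z) ^ 2 ≤
        ∫ z, ((2 * c₁ ^ 2 + D) * (tau R z * lm z ^ 2) + tau R z * Δ (pot Om F t₂) z) := by
      refine integral_mono_ae (hint (((hlm.const_mul c₁).add hbc).pow 2)) (((hint (hlm.pow 2)).const_mul _).add hiE) ?_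
      filter_upwards [hae] with z hz
      have h7 : (c₁ * lm z + b z * dz F z) ^ 2 ≤ (2 * c₁ ^ 2 + D) * lm z ^ 2 + Δ (pot Om F t₂) z := by
        nlinarith [sq_nonneg (c₁ * lm z - b z * dz F z)]
      have h8 := mul_le_mul_of_nonneg_left h7 (tau_nonneg hR z)
      linarith
    have hi2 : Integrable fun z => (2 * c₁ ^ 2 + D) * (tau R z * lm z ^ 2) := (hint (hlm.pow 2)).const_mul _
    rw [integral_add hi2 hiE, integral_const_mul] at h6
    refine le_trans h6 ?_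
    linarith
  · intro z hz _
    have hl : ContinuousAt (fun z => c₁ * lm z + b z * dz F z) z := ((hlm.const_mul c₁).add hbc).continuousAt
    have hFl : ∀ᶠ w in 𝓝 z, F w ≠ 0 → lam F w ≤ c₁ * lm w + b w * dz F w := by
      filter_upwards [hOm.mem_nhds hz] with w hw
      exact hl1 w hw
    refine ⟨fun h hh hy => ?_, fun h hh hy => ?_⟩
    · have hx : AnalyticAt ℂ (fun w => (p w).1) z := analyticAt_fst.comp (hp z hz)
      refine deriv_le_of_lam (F := F) (G := fun w => embL (1, h w)) hx ?_ (an_embL (analyticAt_const.prod hh)) (fun w => embL_ne fun h0 => ?_) ?_ hh ?_ hl hFl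
      · rcases hx.eventually_eq_zero_or_eventually_ne_zero with h0 | h0
        · refine absurd ?_ (hne z hz)
          filter_upwards [h0, hy] with w h1 h2
          rw [not_not]
          exact Prod.ext h1 (by rw [h2, h1, zero_mul]; rfl)
        · exact h0
      · exact one_ne_zero (congrArg Prod.fst h0)
      · filter_upwards [hy] with w h2
        rw [hFdef]
        dsimp only
        rw [← map_smul]
        congr 1
        exact Prod.ext (by simp) (by simpa using h2)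
      · filter_upwards [hh.eventually_analyticAt] with w h2
        exact lam_graph h2.differentiableAt
    · have hx : AnalyticAt ℂ (fun w => (p w).2) z := analyticAt_snd.comp (hp z hz)
      refine deriv_le_of_lam (F := F) (G := fun w => embL (h w, 1)) hx ?_ (an_embL (hh.prod analyticAt_const)) (fun w => embL_ne fun h0 => ?_) ?_ hh ?_ hl hFl
      · rcases hx.eventually_eq_zero_or_eventually_ne_zero with h0 | h0
        · refine absurd ?_ (hne z hz)
          filter_upwards [h0, hy] with w h1 h2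
          rw [not_not]
          exact Prod.ext (by rw [h2, h1, zero_mul]; rfl) h1
        · exact h0
      · exact one_ne_zero (congrArg Prod.snd h0)
      · filter_upwards [hy] with w h2
        rw [hFdef]
        dsimp only
        rw [← map_smul]
        congr 1
        exact Prod.ext (by simpa using h2) (by simp)
      · filter_upwards [hh.eventually_analyticAt] with w h2
        exact lam_graph' h2.differentiableAt

end Pool.Agent.MQ2

end
end

section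

/-!
# MQ2 StepB: the chart of the blow-up at the direction `t`: the relations between the fields and the exact terms
-/

set_option autoImplicit false

open Topology Filter Metric MeasureTheory Asymptotics Laplacian

noncomputable section

namespace Pool.Agent.MQ2

open Pool.Agent.H36.BP (EN)
open Pool.Agent.H30M (tau LogSing)
open Pool.Agent.MQ

/-- `1/2 log (1 + |y + t|²)` -/
def uu (t : ℂ) (q : ℂ × ℂ) : ℝ := Real.log (1 + ‖q.2 + t‖ ^ 2) / 2

theorem uu_eq (t : ℂ) (q : ℂ × ℂ) : uu t q = Real.log ‖embL (1, q.2 + t)‖ := by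
  have h : ‖embL (1, q.2 + t)‖ ^ 2 = 1 + ‖q.2 + t‖ ^ 2 := by
    rw [norm_embL_sq]
    simp
  unfold uu
  rw [← h, Real.log_pow]
  push_cast
  ring

theorem uu_nonneg (t : ℂ) (q : ℂ × ℂ) : 0 ≤ uu t q := by
  unfold uu
  have : 0 ≤ Real.log (1 + ‖q.2 + t‖ ^ 2) := Real.log_nonneg (by nlinarith [sq_nonneg ‖q.2 + t‖])
  linarith

section

variable {Om : Set ℂ} {p : ℂ → ℂ × ℂ} {t : ℂ} {ρ : ℝ} {z : ℂ}

theorem exists_slope (hp : AnalyticAt ℂ p z) (h : HasSlope p z) : ∃ f : ℂ → ℂ, AnalyticAt ℂ f z ∧ (∀ᶠ w in 𝓝 z, (p w).2 = (p w).1 * f w) ∧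
    ∀ᶠ w in 𝓝 z, HasSlope p w ∧ slope p w = f w := by
  obtain ⟨h1, f, hf, h2⟩ := h
  exact ⟨f, hf, h2, slope_eq hp h1 hf h2⟩

theorem an_pt (hp : AnalyticAt ℂ p z) (h : HasSlope p z) : AnalyticAt ℂ (pt t p) z := by
  obtain ⟨f, hf, -, h3⟩ := exists_slope hp h
  have e : pt t p =ᶠ[𝓝 z] fun w => ((p w).1, f w - t) := by
    filter_upwards [h3] with w hw
    simp only [pt, hw.2]
  exact ((an_fst hp).prod (hf.sub analyticAt_const)).congr e.symm

theorem an_uu (hp : AnalyticAt ℂ p z) (h : HasSlope p z) : AnalyticAt ℂ (fun w => embL (1, (pt t p w).2 + t)) z :=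
  an_embL (analyticAt_const.prod ((an_snd (an_pt hp h)).add analyticAt_const))

theorem embL_one_ne (c : ℂ) : embL (1, c) ≠ 0 := embL_ne fun h => one_ne_zero (congrArg Prod.fst h)

theorem contDiffAt_uu {n : WithTop ℕ∞} (hp : AnalyticAt ℂ p z) (h : HasSlope p z) : ContDiffAt ℝ n (fun w => uu t (pt t p w)) z := by
  have e : (fun w => uu t (pt t p w)) = fun w => Real.log ‖embL (1, (pt t p w).2 + t)‖ := funext fun w => uu_eq t _
  rw [e]
  exact MQ.contDiffAt_log_norm (an_uu hp h) (embL_one_ne _)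

/-- (R3) -/
theorem norm_gr_uu_le (hp : AnalyticAt ℂ p z) (h : HasSlope p z) : ‖gr (fun w => uu t (pt t p w)) z‖ ≤ ‖deriv (pt t p) z‖ := by
  have e : (fun w => uu t (pt t p w)) = fun w => Real.log ‖embL (1, (pt t p w).2 + t)‖ := funext fun w => uu_eq t _
  have hpt := an_pt (t := t) hp h
  have h1 : HasDerivAt (fun w => ((1 : ℂ), (pt t p w).2 + t)) (0, (deriv (pt t p) z).2) z := by
    have h2 : HasDerivAt (fun w => (pt t p w).2) (deriv (pt t p) z).2 z := by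
      have := (an_snd hpt).differentiableAt.hasDerivAt
      rwa [deriv_snd' hpt.differentiableAt] at this
    exact (hasDerivAt_const z (1 : ℂ)).prodMk (h2.add_const t)
  have h2 : HasDerivAt (fun w => embL (1, (pt t p w).2 + t)) (embL (0, (deriv (pt t p) z).2)) z := embL.hasFDerivAt.comp_hasDerivAt z h1
  rw [e, gr_log_normV h2 (embL_one_ne _), norm_mul, RCLike.norm_conj, Complex.norm_real, Real.norm_of_nonneg (by positivity)]
  have h3 := norm_inner_le_norm (𝕜 := ℂ) (embL (1, (pt t p z).2 + t)) (embL (0, (deriv (pt t p) z).2))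
  have h4 : 1 ≤ ‖embL (1, (pt t p z).2 + t)‖ := by
    refine le_trans ?_ (le_norm_embL _)
    rw [Prod.norm_def]
    exact (le_of_eq norm_one.symm).trans (le_max_left _ _)
  have h5 : ‖embL (0, (deriv (pt t p) z).2)‖ = ‖(deriv (pt t p) z).2‖ := by
    have h6 : ‖embL (0, (deriv (pt t p) z).2)‖ ^ 2 = ‖(deriv (pt t p) z).2‖ ^ 2 := by
      rw [norm_embL_sq]
      simp
    exact (sq_eq_sq₀ (norm_nonneg _) (norm_nonneg _)).1 h6
  have h7 : ‖(deriv (pt t p) z).2‖ ≤ ‖deriv (pt t p) z‖ := norm_snd_le _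
  rw [inv_mul_le_iff₀ (by positivity)]
  refine h3.trans ?_
  rw [h5]
  have h8 : ‖embL (1, (pt t p z).2 + t)‖ ≤ ‖embL (1, (pt t p z).2 + t)‖ ^ 2 := by nlinarith
  exact mul_le_mul h8 h7 (norm_nonneg _) (sq_nonneg _)

theorem norm_slope_le (hz : z ∈ Omt Om p t ρ) : ‖slope p z‖ ≤ ρ + ‖t‖ := by
  have h1 := norm_add_le (slope p z - t) t
  rw [sub_add_cancel] at h1
  have := hz.2.2.2
  linarith

/-- the point is in the ball where `H` is the logarithm -/
theorem mem_ball_of_Omt {ρe : ℝ} (hp : AnalyticAt ℂ p z) (hz : z ∈ Omt Om p t ρ) (h1 : ρ ≤ ρe) (h2 : ρ * (ρ + ‖t‖) ≤ ρe) : p z ∈ ball (0 : ℂ × ℂ) ρe := by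
  have h3 := be_pt hz hp
  have hx := hz.2.2.1
  have hρ : 0 < ρ := lt_of_le_of_lt (norm_nonneg _) hx
  have h4 : (p z).2 = (p z).1 * slope p z := by
    have := congrArg Prod.snd h3
    simp only [be, pt, sub_add_cancel] at this
    exact this.symm
  rw [mem_ball_zero_iff, Prod.norm_def]
  refine max_lt (hx.trans_le h1) ?_
  rw [h4, norm_mul]
  have h5 := norm_slope_le hz
  have h6 : 0 < ρ + ‖t‖ := by positivity
  calc ‖(p z).1‖ * ‖slope p z‖ ≤ ‖(p z).1‖ * (ρ + ‖t‖) := mul_le_mul_of_nonneg_left h5 (norm_nonneg _)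
    _ < ρ * (ρ + ‖t‖) := mul_lt_mul_of_pos_right hx h6
    _ ≤ ρe := h2

/-- `Omt` is a neighbourhood of its points -/
theorem Omt_ev (hOm : IsOpen Om) (hp : AnalyticAt ℂ p z) (hz : z ∈ Omt Om p t ρ) : ∀ᶠ w in 𝓝 z, w ∈ Omt Om p t ρ := by
  obtain ⟨f, hf, -, h3⟩ := exists_slope hp hz.2.1
  have h4 : ContinuousAt (fun w => ‖(p w).1‖) z := (an_fst hp).continuousAt.norm
  have h5 : ContinuousAt (fun w => ‖f w - t‖) z := (hf.continuousAt.sub continuousAt_const).norm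
  have h6 : ‖f z - t‖ < ρ := by
    rw [← h3.self_of_nhds.2]
    exact hz.2.2.2
  filter_upwards [hOm.mem_nhds hz.1, h3, h4.eventually (gt_mem_nhds hz.2.2.1), h5.eventually (gt_mem_nhds h6)] with w w1 w2 w3 w4
  refine ⟨w1, w2.1, w3, ?_⟩
  rw [w2.2]
  exact w4

end

end Pool.Agent.MQ2

end
end
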