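import Pool.Agent.H94.G6.M110
import Pool.Agent.H94.G6.M138
import Pool.Agent.H94.G6.M64

/-! The parts of this file: MQ3.Avat, MQ3.AvatB, MQ3.Avatar. -/

section

/-!
# MQ3 Avat: the same point in two monomial charts over one box

`Nbr c c' P P'`: the points `P` and `P'` of two charts of the same sheet are limits of corresponding points off the axes. If not `Nbr`, then no curve has
its lifts near `P` and near `P'` at the same time; if `Nbr` and the two cones belong to a fan, then the charts are glued near `P`, `P'`.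
-/

set_option autoImplicit false

open Topology Filter Metric

noncomputable section

namespace Pool.Agent.MQ3

open Pool.Agent.H36.BP (EN)
open Pool.Agent.H17BP (Surface)

variable {M : ℕ} {X : Set (EN M)} {m : ℕ} {θ : WDiff X m} {l : LF M} {ρ : ℂ × ℂ → EN M} {W : BoxWeb θ l ρ} {F : ℂ → EN M} {U : Set ℂ}
  {p : ℂ → ℂ × ℂ}

/-- the points are limits of corresponding points off the axes -/
def Nbr (c c' : MChart W) (P P' : ℂ × ℂ) : Prop :=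
  c.k = c'.k ∧ ∃ᶠ Q in 𝓝 (P, P'), ∃ V V' : ℂ × ℂ, pexp V = Q.1 ∧ pexp V' = Q.2 ∧ ln c.w c.w' V ∈ HH ∧ ln c.w c.w' V = ln c'.w c'.w' V'

theorem Nbr.symm {c c' : MChart W} {P P' : ℂ × ℂ} (h : Nbr c c' P P') : Nbr c' c P' P := by
  refine ⟨h.1.symm, ?_⟩
  have h1 : Tendsto (Prod.swap : (ℂ × ℂ) × (ℂ × ℂ) → (ℂ × ℂ) × (ℂ × ℂ)) (𝓝 (P, P')) (𝓝 (P', P)) := continuous_swap.tendsto _
  refine h1.frequently (h.2.mono ?_)
  rintro Q ⟨V, V', h1, h2, h3, h4⟩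
  exact ⟨V', V, h2, h1, h4 ▸ h3, h4.symm⟩

/-- the value of the lift off the axes -/
theorem lf_val (h : BCrv θ l ρ F U p) (c : MChart W) {w : ℂ} (hw : w ∈ U) (hS : p w ∈ DS) {v : ℂ × ℂ} (h1 : Complex.exp v.1 = (p w).1)
    (h2 : Complex.exp v.2 = (p w).2) (h3 : slp l F w = W.T c.k v) :
    w ∈ c.Om F U p ∧ c.lf F U p w = pexp (sgf c.w c.w' v, taf c.w c.w' v) := by
  have hU : w ∈ Uk W.T c.k U (fun z => (p z).1) (fun z => (p z).2) (slp l F) := ⟨hw, hS.1.1, hS.2.1, v, h1, h2, h3⟩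
  obtain ⟨e1, e2⟩ := st_eq W.web c.basis (BCrv.crv h).1 hw hS.1.1 hS.2.1 h1 h2 h3
  refine ⟨((h.lft c).mem w hS.1.1 hS.2.1).2 hU, ?_⟩
  simp only [MChart.lf, MQ3.sl, MQ3.tl, if_pos hU]
  exact Prod.ext e1 e2

theorem ln_sgf {w w' : ℕ × ℕ} (hd : dt w w' ≠ 0) (v : ℂ × ℂ) : ln w w' (sgf w w' v, taf w w' v) = v :=
  Prod.ext (sgf_taf₁ hd v) (sgf_taf₂ hd v)

theorem sgf_taf_ln {w w' : ℕ × ℕ} (hd : dt w w' ≠ 0) (V : ℂ × ℂ) : (sgf w w' (ln w w' V), taf w w' (ln w w' V)) = V := by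
  have hd' : ((dt w w' : ℤ) : ℂ) ≠ 0 := Int.cast_ne_zero.2 hd
  refine Prod.ext ?_ ?_
  · simp only [sgf, ln]
    rw [div_eq_iff hd', dt_cast]
    ring
  · simp only [taf, ln]
    rw [div_eq_iff hd', dt_cast]
    ring

/-- the logarithms of a point of the curve off the axes -/
theorem lf_log (h : BCrv θ l ρ F U p) (c : MChart W) {w : ℂ} (hw : w ∈ c.Om F U p) (hS : p w ∈ DS) :
    ∃ v ∈ HH, Complex.exp v.1 = (p w).1 ∧ Complex.exp v.2 = (p w).2 ∧ slp l F w = W.T c.k v ∧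
      c.lf F U p w = pexp (sgf c.w c.w' v, taf c.w c.w' v) := by
  obtain ⟨hwU, -, -, v, h1, h2, h3⟩ := ((h.lft c).mem w hS.1.1 hS.2.1).1 hw
  exact ⟨v, HH_of_exp (x := fun z => (p z).1) (y := fun z => (p z).2) hS.1.2 hS.2.2 h1 h2, h1, h2, h3, (lf_val h c hwU hS h1 h2 h3).2⟩

theorem lf_pair (h : BCrv θ l ρ F U p) (c c' : MChart W) (hk : c.k = c'.k) {w : ℂ} (hw : w ∈ c.Om F U p) (hS : p w ∈ DS) :
    w ∈ c'.Om F U p ∧ ∃ V V' : ℂ × ℂ, pexp V = c.lf F U p w ∧ pexp V' = c'.lf F U p w ∧ ln c.w c.w' V ∈ HH ∧ ln c.w c.w' V = ln c'.w c'.w' V' := by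
  obtain ⟨v, hv, h1, h2, h3, h4⟩ := lf_log h c hw hS
  obtain ⟨h5, h6⟩ := lf_val h c' (om_sub h c hw) hS h1 h2 (hk ▸ h3)
  exact ⟨h5, _, _, h4.symm, h6.symm, by rw [ln_sgf c.basis.det]; exact hv, by rw [ln_sgf c.basis.det, ln_sgf c'.basis.det]⟩

/-- **(R1)** No curve is near both points. -/
theorem nbr_sep {c c' : MChart W} {P P' : ℂ × ℂ} (hn : ¬ Nbr c c' P P')
    (ho : c.k = c'.k ∨ ∀ r s : ℤ, (W.a ^ r * W.b ^ s) c.k ≠ c'.k) :
    ∃ r > 0, ∀ (F : ℂ → EN M) (U : Set ℂ) (p : ℂ → ℂ × ℂ), BCrv θ l ρ F U p → ∀ z, z ∈ c.Om F U p → z ∈ c'.Om F U p →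
      c.lf F U p z ∈ ball P r → c'.lf F U p z ∈ ball P' r → False := by
  rcases ho with hk | ho
  · have h1 : ∀ᶠ Q in 𝓝 (P, P'), ¬ ∃ V V' : ℂ × ℂ, pexp V = Q.1 ∧ pexp V' = Q.2 ∧ ln c.w c.w' V ∈ HH ∧ ln c.w c.w' V = ln c'.w c'.w' V' := by
      by_contra hcon
      exact hn ⟨hk, hcon⟩
    obtain ⟨r, hr, h2⟩ := Metric.eventually_nhds_iff_ball.1 h1
    refine ⟨r, hr, fun F U p h z hz hz' hq hq' => ?_⟩
    have h3 := ((lf_an h c z hz).continuousAt.eventually_mem (isOpen_ball.mem_nhds hq)).filter_mono (nhdsWithin_le_nhds (s := {z}ᶜ))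
    have h4 := ((lf_an h c' z hz').continuousAt.eventually_mem (isOpen_ball.mem_nhds hq')).filter_mono (nhdsWithin_le_nhds (s := {z}ᶜ))
    obtain ⟨w, h5, h6, h7⟩ := (h3.and (h4.and (lf_ev h c z hz))).exists
    obtain ⟨-, V, V', g1, g2, g3, g4⟩ := lf_pair h c c' hk h7.1 h7.2.2.1
    refine h2 (c.lf F U p w, c'.lf F U p w) ?_ ⟨V, V', g1, g2, g3, g4⟩
    rw [← ball_prod_same]
    exact ⟨h5, h6⟩
  · exact ⟨1, one_pos, fun F U p h z hz hz' _ _ => om_disjoint h c c' ho hz hz'⟩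

/-- the monomial transition with integer exponents -/
def tr (α β γ δ : ℤ) (q : ℂ × ℂ) : ℂ × ℂ := (q.1 ^ α * q.2 ^ γ, q.1 ^ β * q.2 ^ δ)

/-- the transition is analytic at the point -/
def TrOk (α β γ δ : ℤ) (q : ℂ × ℂ) : Prop := (q.1 ≠ 0 ∨ (0 ≤ α ∧ 0 ≤ β)) ∧ (q.2 ≠ 0 ∨ (0 ≤ γ ∧ 0 ≤ δ))

theorem analyticAt_zpow {f : ℂ × ℂ → ℂ} {q : ℂ × ℂ} (hf : AnalyticAt ℂ f q) {n : ℤ} (h : f q ≠ 0 ∨ 0 ≤ n) : AnalyticAt ℂ (fun q => f q ^ n) q := by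
  rcases h with h | h
  · exact hf.fun_zpow h
  · obtain ⟨k, rfl⟩ := Int.eq_ofNat_of_zero_le h
    simp only [Int.ofNat_eq_natCast, zpow_natCast]
    exact hf.fun_pow k

theorem trOk_of {α β γ δ : ℤ} {q : ℂ × ℂ} (h1 : q.1 ≠ 0 ∨ (α = 0 ∧ β = 1)) (h2 : q.2 ≠ 0 ∨ (γ = 1 ∧ δ = 0)) : TrOk α β γ δ q := by
  constructor
  · rcases h1 with h1 | ⟨rfl, rfl⟩
    · exact Or.inl h1
    · exact Or.inr ⟨le_rfl, zero_le_one⟩
  · rcases h2 with h2 | ⟨rfl, rfl⟩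
    · exact Or.inl h2
    · exact Or.inr ⟨zero_le_one, le_rfl⟩

theorem TrOk.an {α β γ δ : ℤ} {q : ℂ × ℂ} (h : TrOk α β γ δ q) : AnalyticAt ℂ (tr α β γ δ) q := by
  have h1 : ∀ n : ℤ, (q.1 ≠ 0 ∨ 0 ≤ n) → AnalyticAt ℂ (fun q : ℂ × ℂ => q.1 ^ n) q := fun n hn => analyticAt_zpow analyticAt_fst hn
  have h2 : ∀ n : ℤ, (q.2 ≠ 0 ∨ 0 ≤ n) → AnalyticAt ℂ (fun q : ℂ × ℂ => q.2 ^ n) q := fun n hn => analyticAt_zpow analyticAt_snd hn
  exact ((h1 α (h.1.imp_right fun h => h.1)).fun_mul (h2 γ (h.2.imp_right fun h => h.1))).prod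
    ((h1 β (h.1.imp_right fun h => h.2)).fun_mul (h2 δ (h.2.imp_right fun h => h.2)))

theorem TrOk.ev {α β γ δ : ℤ} {q : ℂ × ℂ} (h : TrOk α β γ δ q) : ∀ᶠ q' in 𝓝 q, TrOk α β γ δ q' := by
  have h1 : ∀ᶠ q' : ℂ × ℂ in 𝓝 q, q'.1 ≠ 0 ∨ (0 ≤ α ∧ 0 ≤ β) := by
    rcases h.1 with h | h
    · exact (continuousAt_fst.eventually_ne h).mono fun _ h => Or.inl h
    · exact Eventually.of_forall fun _ => Or.inr h
  have h2 : ∀ᶠ q' : ℂ × ℂ in 𝓝 q, q'.2 ≠ 0 ∨ (0 ≤ γ ∧ 0 ≤ δ) := by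
    rcases h.2 with h | h
    · exact (continuousAt_snd.eventually_ne h).mono fun _ h => Or.inl h
    · exact Eventually.of_forall fun _ => Or.inr h
  filter_upwards [h1, h2] with q' h3 h4 using ⟨h3, h4⟩

theorem tr_pexp (α β γ δ : ℤ) (σ τ : ℂ) : tr α β γ δ (pexp (σ, τ)) = pexp (α * σ + γ * τ, β * σ + δ * τ) := by
  simp only [tr, pexp, Complex.exp_add, Complex.exp_int_mul]

/-- two bases of one lattice -/
theorem exists_tr (c c' : MChart W) (hk : c.k = c'.k) : ∃ α β γ δ : ℤ, ((c.w.1 : ℤ) = α * c'.w.1 + β * c'.w'.1 ∧ (c.w.2 : ℤ) = α * c'.w.2 + β * c'.w'.2) ∧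
    (c.w'.1 : ℤ) = γ * c'.w.1 + δ * c'.w'.1 ∧ (c.w'.2 : ℤ) = γ * c'.w.2 + δ * c'.w'.2 := by
  obtain ⟨α, β, h1, h2⟩ := c'.basis.gen _ _ (hk ▸ c.basis.mem)
  obtain ⟨γ, δ, h3, h4⟩ := c'.basis.gen _ _ (hk ▸ c.basis.mem')
  exact ⟨α, β, γ, δ, ⟨h1, h2⟩, h3, h4⟩

theorem tr_log {w w' u u' : ℕ × ℕ} {α β γ δ : ℤ} (h1 : (w.1 : ℤ) = α * u.1 + β * u'.1) (h2 : (w.2 : ℤ) = α * u.2 + β * u'.2)
    (h3 : (w'.1 : ℤ) = γ * u.1 + δ * u'.1) (h4 : (w'.2 : ℤ) = γ * u.2 + δ * u'.2) (hd : dt u u' ≠ 0) {σ τ σ' τ' : ℂ}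
    (h : ln w w' (σ, τ) = ln u u' (σ', τ')) : σ' = α * σ + γ * τ ∧ τ' = β * σ + δ * τ := by
  have c1 : (w.1 : ℂ) = α * u.1 + β * u'.1 := by exact_mod_cast congrArg (Int.cast : ℤ → ℂ) h1
  have c2 : (w.2 : ℂ) = α * u.2 + β * u'.2 := by exact_mod_cast congrArg (Int.cast : ℤ → ℂ) h2
  have c3 : (w'.1 : ℂ) = γ * u.1 + δ * u'.1 := by exact_mod_cast congrArg (Int.cast : ℤ → ℂ) h3
  have c4 : (w'.2 : ℂ) = γ * u.2 + δ * u'.2 := by exact_mod_cast congrArg (Int.cast : ℤ → ℂ) h4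
  have e1 : σ * w.1 + τ * w'.1 = σ' * u.1 + τ' * u'.1 := congrArg Prod.fst h
  have e2 : σ * w.2 + τ * w'.2 = σ' * u.2 + τ' * u'.2 := congrArg Prod.snd h
  rw [c1, c3] at e1
  rw [c2, c4] at e2
  have hd' : (u.1 : ℂ) * u'.2 - u.2 * u'.1 ≠ 0 := by
    have := (Int.cast_ne_zero (α := ℂ)).2 hd
    rwa [dt_cast] at this
  constructor
  · apply mul_left_cancel₀ hd'
    linear_combination (u'.1 : ℂ) * e2 - (u'.2 : ℂ) * e1
  · apply mul_left_cancel₀ hd'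
    linear_combination (u.2 : ℂ) * e1 - (u.1 : ℂ) * e2

/-- corresponding points are related by the transition -/
theorem tr_eq {c c' : MChart W} {α β γ δ : ℤ} (h1 : (c.w.1 : ℤ) = α * c'.w.1 + β * c'.w'.1 ∧ (c.w.2 : ℤ) = α * c'.w.2 + β * c'.w'.2)
    (h2 : (c.w'.1 : ℤ) = γ * c'.w.1 + δ * c'.w'.1 ∧ (c.w'.2 : ℤ) = γ * c'.w.2 + δ * c'.w'.2) {V V' : ℂ × ℂ}
    (h : ln c.w c.w' V = ln c'.w c'.w' V') : tr α β γ δ (pexp V) = pexp V' := by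
  obtain ⟨h3, h4⟩ := tr_log (σ := V.1) (τ := V.2) (σ' := V'.1) (τ' := V'.2) h1.1 h1.2 h2.1 h2.2 c'.basis.det h
  rw [show V = (V.1, V.2) from rfl, tr_pexp, ← h3, ← h4]

/-- **The lift to the other chart.** -/
theorem lf_tr (h : BCrv θ l ρ F U p) (c c' : MChart W) (hk : c.k = c'.k) {α β γ δ : ℤ}
    (h1 : (c.w.1 : ℤ) = α * c'.w.1 + β * c'.w'.1 ∧ (c.w.2 : ℤ) = α * c'.w.2 + β * c'.w'.2)
    (h2 : (c.w'.1 : ℤ) = γ * c'.w.1 + δ * c'.w'.1 ∧ (c.w'.2 : ℤ) = γ * c'.w.2 + δ * c'.w'.2) {z : ℂ} (hz : z ∈ c.Om F U p)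
    (hok : TrOk α β γ δ (c.lf F U p z)) : z ∈ c'.Om F U p ∧ c'.lf F U p z = tr α β γ δ (c.lf F U p z) := by
  have hzU := om_sub h c hz
  have hlf := lf_an h c z hz
  have htr : ContinuousAt (fun w => tr α β γ δ (c.lf F U p w)) z := (hok.an.continuousAt).comp' hlf.continuousAt
  have hev : ∀ᶠ w in 𝓝[≠] z, w ∈ c'.Om F U p ∧ c'.lf F U p w = tr α β γ δ (c.lf F U p w) := by
    filter_upwards [lf_ev h c z hz] with w hw
    obtain ⟨g1, V, V', g2, g3, -, g4⟩ := lf_pair h c c' hk hw.1 hw.2.2.1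
    exact ⟨g1, by rw [← g2, ← g3, tr_eq h1 h2 g4]⟩
  obtain ⟨r, hr, hrU⟩ := Metric.nhds_basis_closedBall.mem_iff.1 (h.isOpen.mem_nhds hzU)
  have hcl := lf_closed h c' (C := closedBall z r) isClosed_closedBall hrU
    (K := closedBall (0 : ℂ × ℂ) (‖tr α β γ δ (c.lf F U p z)‖ + 1)) (isCompact_closedBall _ _)
  have hzO : z ∈ c'.Om F U p := by
    have h3 : ∀ᶠ w in 𝓝[≠] z, w ∈ {z' | z' ∈ closedBall z r ∧ z' ∈ c'.Om F U p ∧
        c'.lf F U p z' ∈ closedBall (0 : ℂ × ℂ) (‖tr α β γ δ (c.lf F U p z)‖ + 1)} := by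
      have h4 : ∀ᶠ w in 𝓝[≠] z, ‖tr α β γ δ (c.lf F U p w)‖ < ‖tr α β γ δ (c.lf F U p z)‖ + 1 :=
        (htr.norm.eventually_lt_const (lt_add_one _)).filter_mono nhdsWithin_le_nhds
      filter_upwards [hev, h4, eventually_nhdsWithin_of_eventually_nhds (closedBall_mem_nhds z hr)] with w g1 g2 g3
      refine ⟨g3, g1.1, ?_⟩
      rw [mem_closedBall_zero_iff, g1.2]
      exact g2.le
    exact (hcl.mem_of_frequently_of_tendsto h3.frequently (tendsto_id.mono_left nhdsWithin_le_nhds)).2.1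
  refine ⟨hzO, ?_⟩
  have h3 := tendsto_nhds_unique_of_eventuallyEq ((lf_an h c' z hzO).continuousAt.tendsto.mono_left (nhdsWithin_le_nhds (s := {z}ᶜ)))
    (htr.tendsto.mono_left nhdsWithin_le_nhds) (hev.mono fun w hw => hw.2)
  exact h3

/-- a monomial relation holds in the limit -/
theorem Nbr.lim {c c' : MChart W} {P P' : ℂ × ℂ} (hn : Nbr c c' P P') {a b d e : ℕ}
    (h : ∀ V V' : ℂ × ℂ, ln c.w c.w' V = ln c'.w c'.w' V' → (a : ℂ) * V.1 + b * V.2 + d * V'.1 + e * V'.2 = 0) :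
    P.1 ^ a * P.2 ^ b * P'.1 ^ d * P'.2 ^ e = 1 := by
  have h1 : IsClosed {Q : (ℂ × ℂ) × (ℂ × ℂ) | Q.1.1 ^ a * Q.1.2 ^ b * Q.2.1 ^ d * Q.2.2 ^ e = 1} := isClosed_eq (by fun_prop) continuous_const
  refine h1.mem_of_frequently_of_tendsto (x := (P, P')) (f := id) (hn.2.mono ?_) tendsto_id
  rintro Q ⟨V, V', h2, h3, -, h4⟩
  show Q.1.1 ^ a * Q.1.2 ^ b * Q.2.1 ^ d * Q.2.2 ^ e = 1
  rw [← h2, ← h3]
  simp only [pexp]
  rw [← Complex.exp_nat_mul, ← Complex.exp_nat_mul, ← Complex.exp_nat_mul, ← Complex.exp_nat_mul, ← Complex.exp_add, ← Complex.exp_add,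
    ← Complex.exp_add, h V V' h4, Complex.exp_zero]

theorem cast_dt {w w' : ℕ × ℕ} {n : ℕ} (h : dt w w' = n) : (n : ℂ) = (w.1 : ℂ) * w'.2 - w.2 * w'.1 := by
  rw [← dt_cast, h, Int.cast_natCast]

theorem Basis.pos₁ {a b : Equiv.Perm (Fin W.e)} {k : Fin W.e} {w w' : ℕ × ℕ} (hB : Basis a b k w w') : 0 < w.1 + w.2 := by
  by_contra hcon
  have h1 : w.1 = 0 := by omega
  have h2 : w.2 = 0 := by omega
  apply hB.det
  rw [dt, h1, h2]
  simp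

theorem Basis.pos₂ {a b : Equiv.Perm (Fin W.e)} {k : Fin W.e} {w w' : ℕ × ℕ} (hB : Basis a b k w w') : 0 < w'.1 + w'.2 := by
  by_contra hcon
  have h1 : w'.1 = 0 := by omega
  have h2 : w'.2 = 0 := by omega
  apply hB.det
  rw [dt, h1, h2]
  simp

/-- two primitive vectors on the same ray -/
theorem basis_eq₃ {q : ℕ} {a b : Equiv.Perm (Fin q)} {k : Fin q} {w w' u u' : ℕ × ℕ} (hB : Basis a b k w w') (hB' : Basis a b k u u')
    (h : dt w' u = 0) : w' = u := by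
  have hs : Basis a b k w' w := by
    refine ⟨?_, hB.mem', hB.mem, fun m n hmn => ?_⟩
    · rw [dt_swap]
      exact neg_ne_zero.2 hB.det
    · obtain ⟨α, β, h1, h2⟩ := hB.gen m n hmn
      exact ⟨β, α, by rw [h1]; ring, by rw [h2]; ring⟩
  exact basis_eq₁ hs hB' h

/-- **(R2)** Neighbours: the transition is analytic and maps `P` to `P'`. -/
theorem nbr_tr' {c c' : MChart W} {P P' : ℂ × ℂ} (hn : Nbr c c' P P') (hf : 0 ≤ dt c.w' c'.w ∨ 0 ≤ dt c'.w' c.w) :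
    ∃ α β γ δ : ℤ, ((c.w.1 : ℤ) = α * c'.w.1 + β * c'.w'.1 ∧ (c.w.2 : ℤ) = α * c'.w.2 + β * c'.w'.2) ∧
      ((c.w'.1 : ℤ) = γ * c'.w.1 + δ * c'.w'.1 ∧ (c.w'.2 : ℤ) = γ * c'.w.2 + δ * c'.w'.2) ∧
      (P.1 ≠ 0 ∨ (α = 0 ∧ β = 1)) ∧ (P.2 ≠ 0 ∨ (γ = 1 ∧ δ = 0)) ∧ P ≠ 0 ∧ tr α β γ δ P = P' := by
  have hk := hn.1
  obtain ⟨α, β, γ, δ, h1, h2⟩ := exists_tr c c' hk
  have hB' : Basis W.a W.b c.k c'.w c'.w' := hk ▸ c'.basis
  have pw := Basis.pos₁ c.basis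
  have pw' := Basis.pos₂ c.basis
  have pu := Basis.pos₁ c'.basis
  have pu' := Basis.pos₂ c'.basis
  have hc := c.pos
  have hc' := c'.pos
  have key : ∀ a b d e : ℕ, ∀ V V' : ℂ × ℂ, ln c.w c.w' V = ln c'.w c'.w' V' →
      V.1 * c.w.1 + V.2 * c.w'.1 = V'.1 * c'.w.1 + V'.2 * c'.w'.1 ∧ V.1 * c.w.2 + V.2 * c.w'.2 = V'.1 * c'.w.2 + V'.2 * c'.w'.2 :=
    fun _ _ _ _ V V' h => ⟨congrArg Prod.fst h, congrArg Prod.snd h⟩
  have hok' : (P.1 ≠ 0 ∨ (α = 0 ∧ β = 1)) ∧ (P.2 ≠ 0 ∨ (γ = 1 ∧ δ = 0)) ∧ (P.1 ≠ 0 ∨ P.2 ≠ 0) := by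
    rcases hf with hf | hf
    · obtain ⟨n1, e1⟩ := Int.eq_ofNat_of_zero_le hc.le
      obtain ⟨n2, e2⟩ := Int.eq_ofNat_of_zero_le hf
      obtain ⟨n3, e3⟩ := Int.eq_ofNat_of_zero_le (dt_trans pu hf hc'.le)
      obtain ⟨n4, e4⟩ := Int.eq_ofNat_of_zero_le (dt_trans pw' hc.le hf)
      obtain ⟨n5, e5⟩ := Int.eq_ofNat_of_zero_le hc'.le
      have c1 := cast_dt e1
      have c2 := cast_dt e2
      have c3 := cast_dt e3
      have c4 := cast_dt e4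
      have c5 := cast_dt e5
      have g1 := hn.lim (a := n1) (b := 0) (d := n2) (e := n3) (fun V V' h => by
        obtain ⟨k1, k2⟩ := key 0 0 0 0 V V' h
        rw [c1, c2, c3]
        push_cast
        linear_combination (c.w'.2 : ℂ) * k1 - (c.w'.1 : ℂ) * k2)
      have g2 := hn.lim (a := n4) (b := n2) (d := 0) (e := n5) (fun V V' h => by
        obtain ⟨k1, k2⟩ := key 0 0 0 0 V V' h
        rw [c4, c2, c5]
        push_cast
        linear_combination (c'.w.2 : ℂ) * k1 - (c'.w.1 : ℂ) * k2)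
      have g0 : P.1 ≠ 0 := by
        intro h0
        have hn1 : n1 ≠ 0 := by
          intro h
          rw [h] at e1
          rw [e1] at hc
          simp at hc
        rw [h0, zero_pow hn1] at g1
        simp at g1
      refine ⟨Or.inl g0, ?_, Or.inl g0⟩
      · by_cases hn2 : n2 = 0
        · right
          rw [hn2] at e2
          have hwu : c.w' = c'.w := basis_eq₃ c.basis hB' (by rw [e2]; rfl)
          obtain ⟨r1, r2⟩ := det_inj c'.basis.det (α := γ) (β := δ) (α' := 1) (β' := 0) (by rw [← h2.1, hwu]; ring) (by rw [← h2.2, hwu]; ring)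
          exact ⟨r1, r2⟩
        · left
          intro h0
          rw [h0, zero_pow hn2] at g2
          simp at g2
    · obtain ⟨n1, e1⟩ := Int.eq_ofNat_of_zero_le hc.le
      obtain ⟨n2, e2⟩ := Int.eq_ofNat_of_zero_le hf
      obtain ⟨n3, e3⟩ := Int.eq_ofNat_of_zero_le (dt_trans pu' hc'.le hf)
      obtain ⟨n4, e4⟩ := Int.eq_ofNat_of_zero_le (dt_trans pw hf hc.le)
      obtain ⟨n5, e5⟩ := Int.eq_ofNat_of_zero_le hc'.le
      have c1 := cast_dt e1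
      have c2 := cast_dt e2
      have c3 := cast_dt e3
      have c4 := cast_dt e4
      have c5 := cast_dt e5
      have g1 := hn.lim (a := 0) (b := n1) (d := n3) (e := n2) (fun V V' h => by
        obtain ⟨k1, k2⟩ := key 0 0 0 0 V V' h
        rw [c1, c2, c3]
        push_cast
        linear_combination (c.w.1 : ℂ) * k2 - (c.w.2 : ℂ) * k1)
      have g2 := hn.lim (a := n2) (b := n4) (d := n5) (e := 0) (fun V V' h => by
        obtain ⟨k1, k2⟩ := key 0 0 0 0 V V' h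
        rw [c4, c2, c5]
        push_cast
        linear_combination (c'.w'.1 : ℂ) * k2 - (c'.w'.2 : ℂ) * k1)
      have g0 : P.2 ≠ 0 := by
        intro h0
        have hn1 : n1 ≠ 0 := by
          intro h
          rw [h] at e1
          rw [e1] at hc
          simp at hc
        rw [h0, zero_pow hn1] at g1
        simp at g1
      refine ⟨?_, Or.inl g0, Or.inr g0⟩
      · by_cases hn2 : n2 = 0
        · right
          rw [hn2] at e2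
          have hwu : c'.w' = c.w := basis_eq₃ hB' c.basis (by rw [e2]; rfl)
          obtain ⟨r1, r2⟩ := det_inj c'.basis.det (α := α) (β := β) (α' := 0) (β' := 1) (by rw [← h1.1, ← hwu]; ring) (by rw [← h1.2, ← hwu]; ring)
          exact ⟨r1, r2⟩
        · left
          intro h0
          rw [h0, zero_pow hn2] at g2
          simp at g2
  have hok : TrOk α β γ δ P := trOk_of hok'.1 hok'.2.1
  have hP0 : P ≠ 0 := by
    rintro rfl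
    rcases hok'.2.2 with h | h
    · exact h rfl
    · exact h rfl
  refine ⟨α, β, γ, δ, h1, h2, hok'.1, hok'.2.1, hP0, ?_⟩
  -- the values
  have h3 : ∃ᶠ Q in 𝓝 (P, P'), tr α β γ δ Q.1 = Q.2 := by
    refine hn.2.mono ?_
    rintro Q ⟨V, V', g1, g2, -, g4⟩
    rw [← g1, ← g2]
    exact tr_eq h1 h2 g4
  have h4 : ContinuousAt (fun Q : (ℂ × ℂ) × (ℂ × ℂ) => tr α β γ δ Q.1 - Q.2) (P, P') :=
    ((hok.an.continuousAt).comp' (x := (P, P')) continuousAt_fst).sub continuousAt_snd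
  have h5 : tr α β γ δ P - P' ∈ ({0} : Set (ℂ × ℂ)) :=
    isClosed_singleton.mem_of_frequently_of_tendsto (h3.mono fun Q hQ => by
      show tr α β γ δ Q.1 - Q.2 ∈ ({0} : Set (ℂ × ℂ))
      rw [hQ, sub_self]
      rfl) h4.tendsto
  exact sub_eq_zero.1 h5

/-- corresponding logarithms -/
theorem ln_tr {c c' : MChart W} {α β γ δ : ℤ} (h1 : (c.w.1 : ℤ) = α * c'.w.1 + β * c'.w'.1 ∧ (c.w.2 : ℤ) = α * c'.w.2 + β * c'.w'.2)
    (h2 : (c.w'.1 : ℤ) = γ * c'.w.1 + δ * c'.w'.1 ∧ (c.w'.2 : ℤ) = γ * c'.w.2 + δ * c'.w'.2) (V : ℂ × ℂ) :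
    ln c'.w c'.w' (α * V.1 + γ * V.2, β * V.1 + δ * V.2) = ln c.w c.w' V := by
  have c1 : (c.w.1 : ℂ) = α * c'.w.1 + β * c'.w'.1 := by exact_mod_cast congrArg (Int.cast : ℤ → ℂ) h1.1
  have c2 : (c.w.2 : ℂ) = α * c'.w.2 + β * c'.w'.2 := by exact_mod_cast congrArg (Int.cast : ℤ → ℂ) h1.2
  have c3 : (c.w'.1 : ℂ) = γ * c'.w.1 + δ * c'.w'.1 := by exact_mod_cast congrArg (Int.cast : ℤ → ℂ) h2.1
  have c4 : (c.w'.2 : ℂ) = γ * c'.w.2 + δ * c'.w'.2 := by exact_mod_cast congrArg (Int.cast : ℤ → ℂ) h2.2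
  refine Prod.ext ?_ ?_
  · show (α * V.1 + γ * V.2) * c'.w.1 + (β * V.1 + δ * V.2) * c'.w'.1 = V.1 * c.w.1 + V.2 * c.w'.1
    rw [c1, c3]
    ring
  · show (α * V.1 + γ * V.2) * c'.w.2 + (β * V.1 + δ * V.2) * c'.w'.2 = V.1 * c.w.2 + V.2 * c.w'.2
    rw [c2, c4]
    ring

/-- the transition is compatible with the maps to the box -/
theorem tr_mono {c c' : MChart W} {α β γ δ : ℤ} (h1 : (c.w.1 : ℤ) = α * c'.w.1 + β * c'.w'.1 ∧ (c.w.2 : ℤ) = α * c'.w.2 + β * c'.w'.2)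
    (h2 : (c.w'.1 : ℤ) = γ * c'.w.1 + δ * c'.w'.1 ∧ (c.w'.2 : ℤ) = γ * c'.w.2 + δ * c'.w'.2) {q : ℂ × ℂ} (h0 : q.1 * q.2 ≠ 0) :
    c'.κ (tr α β γ δ q) = c.κ q := by
  have h3 : pexp (Complex.log q.1, Complex.log q.2) = q :=
    Prod.ext (Complex.exp_log (left_ne_zero_of_mul h0)) (Complex.exp_log (right_ne_zero_of_mul h0))
  set V : ℂ × ℂ := (Complex.log q.1, Complex.log q.2) with hV
  have c1 : (c.w.1 : ℂ) = α * c'.w.1 + β * c'.w'.1 := by exact_mod_cast congrArg (Int.cast : ℤ → ℂ) h1.1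
  have c2 : (c.w.2 : ℂ) = α * c'.w.2 + β * c'.w'.2 := by exact_mod_cast congrArg (Int.cast : ℤ → ℂ) h1.2
  have c3 : (c.w'.1 : ℂ) = γ * c'.w.1 + δ * c'.w'.1 := by exact_mod_cast congrArg (Int.cast : ℤ → ℂ) h2.1
  have c4 : (c.w'.2 : ℂ) = γ * c'.w.2 + δ * c'.w'.2 := by exact_mod_cast congrArg (Int.cast : ℤ → ℂ) h2.2
  rw [← h3, show V = (V.1, V.2) from rfl, tr_pexp]
  show mono c'.w c'.w' _ = mono c.w c.w' _
  rw [← pexp_ln, ← pexp_ln]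
  congr 1
  refine Prod.ext ?_ ?_
  · show (α * V.1 + γ * V.2) * c'.w.1 + (β * V.1 + δ * V.2) * c'.w'.1 = V.1 * c.w.1 + V.2 * c.w'.1
    rw [c1, c3]
    ring
  · show (α * V.1 + γ * V.2) * c'.w.2 + (β * V.1 + δ * V.2) * c'.w'.2 = V.1 * c.w.2 + V.2 * c.w'.2
    rw [c2, c4]
    ring

/-- in one chart only equal points are neighbours -/
theorem nbr_self {c : MChart W} {P P' : ℂ × ℂ} (hn : Nbr c c P P') : P = P' := by
  have h1 : ∃ᶠ Q in 𝓝 (P, P'), Q.1 = Q.2 := by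
    refine hn.2.mono ?_
    rintro Q ⟨V, V', g1, g2, -, g4⟩
    have h2 : V = V' := by
      have e1 := sgf_taf_ln c.basis.det V
      have e2 := sgf_taf_ln c.basis.det V'
      rw [g4] at e1
      exact e1.symm.trans e2
    rw [← g1, ← g2, h2]
  have h2 : IsClosed {Q : (ℂ × ℂ) × (ℂ × ℂ) | Q.1 = Q.2} := isClosed_eq continuous_fst continuous_snd
  exact h2.mem_of_frequently_of_tendsto (x := (P, P')) (f := id) h1 tendsto_id

end Pool.Agent.MQ3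

end
end

section

/-!
# MQ3 AvatB: gluing of two charts at neighbouring points: the transition respects the foliation and the axes
-/

set_option autoImplicit false

open Topology Filter Metric

noncomputable section

namespace Pool.Agent.MQ3

open Pool.Agent.H36.BP (EN)
open Pool.Agent.H17BP (Surface)

variable {M : ℕ} {X : Set (EN M)} {m : ℕ} {θ : WDiff X m} {l : LF M} {ρ : ℂ × ℂ → EN M} {W : BoxWeb θ l ρ}

/-- `Φ` and `Ψ` glue the charts `c` and `c'` near `q` -/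
structure Gl (c c' : MChart W) (Φ Ψ : ℂ × ℂ → ℂ × ℂ) (q : ℂ × ℂ) : Prop where
  an : AnalyticAt ℂ Φ q
  an' : AnalyticAt ℂ Ψ (Φ q)
  inv : ∀ᶠ y in 𝓝 q, Ψ (Φ y) = y
  inv' : ∀ᶠ y in 𝓝 (Φ q), Φ (Ψ y) = y
  kap : ∀ᶠ y in 𝓝 q, c'.κ (Φ y) = c.κ y
  fld : ∃ h : ℂ × ℂ → ℂ, AnalyticAt ℂ h q ∧ h q ≠ 0 ∧ ∀ᶠ y in 𝓝 q, fderiv ℂ Φ y (c.v y) = h y • c'.v (Φ y)
  ax : ∃ ε : ℂ × ℂ → ℂ, AnalyticAt ℂ ε q ∧ ε q ≠ 0 ∧ ∀ᶠ y in 𝓝 q, (Φ y).1 * (Φ y).2 = ε y * (y.1 * y.2)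
  ne : ∀ᶠ y in 𝓝 q, y ≠ 0 ↔ Φ y ≠ 0

theorem Gl.ev {c c' : MChart W} {Φ Ψ : ℂ × ℂ → ℂ × ℂ} {q : ℂ × ℂ} (h : Gl c c' Φ Ψ q) : ∀ᶠ y in 𝓝 q, Gl c c' Φ Ψ y := by
  obtain ⟨g, hg, hg0, hg'⟩ := h.fld
  obtain ⟨ε, he, he0, he'⟩ := h.ax
  filter_upwards [h.an.eventually_analyticAt, h.an.continuousAt.eventually h.an'.eventually_analyticAt, eventually_eventually_nhds.2 h.inv,
    h.an.continuousAt.eventually (eventually_eventually_nhds.2 h.inv'), eventually_eventually_nhds.2 h.kap, hg.eventually_analyticAt,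
    hg.continuousAt.eventually_ne hg0, eventually_eventually_nhds.2 hg', he.eventually_analyticAt, he.continuousAt.eventually_ne he0,
    eventually_eventually_nhds.2 he', eventually_eventually_nhds.2 h.ne] with y h1 h2 h3 h4 h5 h6 h7 h8 h9 h10 h11 h12
  exact ⟨h1, h2, h3, h4, h5, ⟨g, h6, h7, h8⟩, ⟨ε, h9, h10, h11⟩, h12⟩

theorem Gl.symm {c c' : MChart W} {Φ Ψ : ℂ × ℂ → ℂ × ℂ} {q : ℂ × ℂ} (h : Gl c c' Φ Ψ q) : Gl c' c Ψ Φ (Φ q) := by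
  have hq : Ψ (Φ q) = q := h.inv.self_of_nhds
  have hΨ : ContinuousAt Ψ (Φ q) := h.an'.continuousAt
  have ht : Tendsto Ψ (𝓝 (Φ q)) (𝓝 q) := by
    have := hΨ.tendsto
    rwa [hq] at this
  obtain ⟨g, hg, hg0, hg'⟩ := h.fld
  obtain ⟨ε, he, he0, he'⟩ := h.ax
  refine ⟨h.an', by rw [hq]; exact h.an, h.inv', by rw [hq]; exact h.inv, ?_, ?_, ?_, ?_⟩
  · filter_upwards [ht.eventually h.kap, h.inv'] with y h1 h2
    rw [h2] at h1
    exact h1.symm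
  · have hgΨ : AnalyticAt ℂ (fun y => g (Ψ y)) (Φ q) := AnalyticAt.comp (g := g) (f := Ψ) (x := Φ q) (by rw [hq]; exact hg) h.an'
    refine ⟨fun y => (g (Ψ y))⁻¹, hgΨ.fun_inv (by rw [hq]; exact hg0), inv_ne_zero (by rw [hq]; exact hg0), ?_⟩
    filter_upwards [ht.eventually hg', h.inv', ht.eventually (eventually_eventually_nhds.2 h.inv), ht.eventually h.an.eventually_analyticAt,
      ht.eventually (hg.continuousAt.eventually_ne hg0), h.an'.eventually_analyticAt] with y h1 h2 h3 h4 h5 h6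
    rw [h2] at h1
    have h7 : c'.v y = (g (Ψ y))⁻¹ • fderiv ℂ Φ (Ψ y) (c.v (Ψ y)) := by
      rw [h1, smul_smul, inv_mul_cancel₀ h5, one_smul]
    have h8 : fderiv ℂ (fun x => Ψ (Φ x)) (Ψ y) = (fderiv ℂ Ψ y).comp (fderiv ℂ Φ (Ψ y)) := by
      have := fderiv_comp (𝕜 := ℂ) (g := Ψ) (f := Φ) (Ψ y) (by rw [h2]; exact h6.differentiableAt) h4.differentiableAt
      rw [h2] at this
      exact this
    have h9 : fderiv ℂ (fun x => Ψ (Φ x)) (Ψ y) = ContinuousLinearMap.id ℂ (ℂ × ℂ) := by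
      rw [Filter.EventuallyEq.fderiv_eq (f := id) h3, fderiv_id]
    have h10 : fderiv ℂ Ψ y (fderiv ℂ Φ (Ψ y) (c.v (Ψ y))) = c.v (Ψ y) := by
      have := congrArg (fun L : ℂ × ℂ →L[ℂ] ℂ × ℂ => L (c.v (Ψ y))) (h8.symm.trans h9)
      exact this
    rw [h7, map_smul, h10]
  · have heΨ : AnalyticAt ℂ (fun y => ε (Ψ y)) (Φ q) := AnalyticAt.comp (g := ε) (f := Ψ) (x := Φ q) (by rw [hq]; exact he) h.an'
    refine ⟨fun y => (ε (Ψ y))⁻¹, heΨ.fun_inv (by rw [hq]; exact he0), inv_ne_zero (by rw [hq]; exact he0), ?_⟩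
    filter_upwards [ht.eventually he', h.inv', ht.eventually (he.continuousAt.eventually_ne he0)] with y h1 h2 h3
    rw [h2] at h1
    rw [h1, inv_mul_cancel_left₀ h3]
  · filter_upwards [ht.eventually h.ne, h.inv'] with y h1 h2
    rw [h2] at h1
    exact h1.symm

/-- the identity -/
theorem Gl.id (c : MChart W) (q : ℂ × ℂ) : Gl c c id id q := by
  refine ⟨analyticAt_id, analyticAt_id, Eventually.of_forall fun _ => rfl, Eventually.of_forall fun _ => rfl, Eventually.of_forall fun _ => rfl,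
    ⟨fun _ => 1, analyticAt_const, one_ne_zero, Eventually.of_forall fun y => ?_⟩, ⟨fun _ => 1, analyticAt_const, one_ne_zero,
      Eventually.of_forall fun y => by simp⟩, Eventually.of_forall fun _ => Iff.rfl⟩
  rw [fderiv_id]
  simp

/-- **Neighbouring points: the charts are glued.** -/
theorem nbr_gl {c c' : MChart W} {q q' : ℂ × ℂ} (hn : Nbr c c' q q') (hf : c = c' ∨ 0 ≤ dt c.w' c'.w ∨ 0 ≤ dt c'.w' c.w) (hq : q ∈ c.D) (hq' : q' ∈ c'.D) :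
    ∃ Φ Ψ : ℂ × ℂ → ℂ × ℂ, Gl c c' Φ Ψ q ∧ Φ q = q' ∧
      ∃ N ∈ 𝓝 q, ∀ (F : ℂ → EN M) (U : Set ℂ) (p : ℂ → ℂ × ℂ), BCrv θ l ρ F U p → ∀ z ∈ c.Om F U p, c.lf F U p z ∈ N →
        z ∈ c'.Om F U p ∧ c'.lf F U p z = Φ (c.lf F U p z) := by
  rcases hf with rfl | hf
  · have h1 := nbr_self hn
    subst h1
    exact ⟨id, id, Gl.id c q, rfl, Set.univ, univ_mem, fun F U p _ z hz _ => ⟨hz, rfl⟩⟩
  obtain ⟨α, β, γ, δ, h1, h2, h3, h4, h5, h6⟩ := nbr_tr' hn hf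
  obtain ⟨α', β', γ', δ', h1', h2', h3', h4', h5', h6'⟩ := nbr_tr' hn.symm hf.symm
  have hok := trOk_of h3 h4
  have hok' := trOk_of h3' h4'
  have hΦ := hok.an
  have hΨ : AnalyticAt ℂ (tr α' β' γ' δ') (tr α β γ δ q) := by
    rw [h6]
    exact hok'.an
  have hlog : ∀ y : ℂ × ℂ, y.1 * y.2 ≠ 0 → pexp (Complex.log y.1, Complex.log y.2) = y := fun y h0 =>
    Prod.ext (Complex.exp_log (left_ne_zero_of_mul h0)) (Complex.exp_log (right_ne_zero_of_mul h0))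
  -- the inverse
  have hinv0 : ∀ y : ℂ × ℂ, y.1 * y.2 ≠ 0 → tr α' β' γ' δ' (tr α β γ δ y) = y := by
    intro y h0
    set V : ℂ × ℂ := (Complex.log y.1, Complex.log y.2) with hV
    have e1 : tr α β γ δ y = pexp (α * V.1 + γ * V.2, β * V.1 + δ * V.2) := by rw [← tr_pexp, hlog y h0]
    rw [e1, tr_eq h1' h2' (ln_tr h1 h2 V), hlog y h0]
  have hinv0' : ∀ y : ℂ × ℂ, y.1 * y.2 ≠ 0 → tr α β γ δ (tr α' β' γ' δ' y) = y := by
    intro y h0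
    set V : ℂ × ℂ := (Complex.log y.1, Complex.log y.2) with hV
    have e1 : tr α' β' γ' δ' y = pexp (α' * V.1 + γ' * V.2, β' * V.1 + δ' * V.2) := by rw [← tr_pexp, hlog y h0]
    rw [e1, tr_eq h1 h2 (ln_tr h1' h2' V), hlog y h0]
  have hinv : ∀ᶠ y in 𝓝 q, tr α' β' γ' δ' (tr α β γ δ y) = y :=
    eventuallyEq_of_off (f := fun y => tr α' β' γ' δ' (tr α β γ δ y)) (g := fun y => y) (hΨ.comp hΦ) analyticAt_id
      (Eventually.of_forall fun y h0 => hinv0 y h0)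
  have hinv' : ∀ᶠ y in 𝓝 (tr α β γ δ q), tr α β γ δ (tr α' β' γ' δ' y) = y := by
    rw [h6]
    refine eventuallyEq_of_off (f := fun y => tr α β γ δ (tr α' β' γ' δ' y)) (g := fun y => y) ?_ analyticAt_id
      (Eventually.of_forall fun y h0 => hinv0' y h0)
    refine AnalyticAt.comp (g := tr α β γ δ) (f := tr α' β' γ' δ') (x := q') ?_ hok'.an
    rw [h6']
    exact hΦ
  have hkap : ∀ᶠ y in 𝓝 q, c'.κ (tr α β γ δ y) = c.κ y :=
    eventuallyEq_of_off (f := fun y => c'.κ (tr α β γ δ y)) (g := fun y => c.κ y)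
      (AnalyticAt.comp (g := c'.κ) (f := tr α β γ δ) (x := q) (analyticAt_mono _) hΦ) (analyticAt_mono _)
      (Eventually.of_forall fun y h0 => tr_mono h1 h2 h0)
  -- the fields
  have hD : ∀ᶠ y in 𝓝 q, y ∈ c.D := isOpen_Dm.mem_nhds hq
  have hv : AnalyticAt ℂ c.v q := c.v_an q hq
  have hv' : AnalyticAt ℂ c'.v (tr α β γ δ q) := by
    rw [h6]
    exact c'.v_an q' hq'
  have hV : AnalyticAt ℂ (fun y => fderiv ℂ (tr α β γ δ) y (c.v y)) q := analyticAt_fderiv_app hΦ hv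
  have hV' : AnalyticAt ℂ (fun y => c'.v (tr α β γ δ y)) q := AnalyticAt.comp (g := c'.v) (f := tr α β γ δ) (x := q) hv' hΦ
  have hinj : ∀ᶠ y in 𝓝 q, ∀ w, fderiv ℂ (tr α' β' γ' δ') (tr α β γ δ y) (fderiv ℂ (tr α β γ δ) y w) = w := by
    filter_upwards [eventually_eventually_nhds.2 hinv, hΦ.eventually_analyticAt, hΦ.continuousAt.eventually hΨ.eventually_analyticAt] with y g1 g2 g3 w
    have g4 : fderiv ℂ (fun x => tr α' β' γ' δ' (tr α β γ δ x)) y = (fderiv ℂ (tr α' β' γ' δ') (tr α β γ δ y)).comp (fderiv ℂ (tr α β γ δ) y) :=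
      fderiv_comp (𝕜 := ℂ) (g := tr α' β' γ' δ') (f := tr α β γ δ) y g3.differentiableAt g2.differentiableAt
    have g5 : fderiv ℂ (fun x => tr α' β' γ' δ' (tr α β γ δ x)) y = ContinuousLinearMap.id ℂ (ℂ × ℂ) := by
      rw [Filter.EventuallyEq.fderiv_eq (f := id) g1, fderiv_id]
    exact congrArg (fun L : ℂ × ℂ →L[ℂ] ℂ × ℂ => L w) (g4.symm.trans g5)
  have hVne : ∀ᶠ y in 𝓝[≠] q, fderiv ℂ (tr α β γ δ) y (c.v y) ≠ 0 := by
    rw [eventually_nhdsWithin_iff]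
    filter_upwards [hinj, c.v_iso q hq] with y g1 g2 hy g3
    have g4 := g1 (c.v y)
    rw [g3, map_zero] at g4
    exact g2 hy g4.symm
  have hVne' : ∀ᶠ y in 𝓝[≠] q, c'.v (tr α β γ δ y) ≠ 0 := by
    have ht : Tendsto (tr α β γ δ) (𝓝 q) (𝓝 q') := by
      have := hΦ.continuousAt.tendsto
      rwa [h6] at this
    rw [eventually_nhdsWithin_iff]
    filter_upwards [ht.eventually (c'.v_iso q' hq'), hinv] with y g1 g2 hy
    refine g1 fun g3 => hy ?_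
    rw [g3, h6'] at g2
    exact g2.symm
  have hpar : ∀ᶠ y in 𝓝 q, y.1 * y.2 ≠ 0 → (fderiv ℂ (tr α β γ δ) y (c.v y)).1 * (c'.v (tr α β γ δ y)).2 =
      (fderiv ℂ (tr α β γ δ) y (c.v y)).2 * (c'.v (tr α β γ δ y)).1 := by
    filter_upwards [hD, eventually_eventually_nhds.2 hkap, hΦ.eventually_analyticAt] with y g1 g2 g3 h0
    set V : ℂ × ℂ := (Complex.log y.1, Complex.log y.2) with hVd
    have e0 : pexp V = y := hlog y h0
    have e1 : tr α β γ δ y = pexp (α * V.1 + γ * V.2, β * V.1 + δ * V.2) := by rw [← tr_pexp, hlog y h0]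
    have e2 : ln c.w c.w' V ∈ HH := by
      rw [ln_mem_iff, e0]
      exact g1
    have e3 := ln_tr h1 h2 V
    have e4 := c.v_eq V e2 (c.v y)
    have e5 := c'.v_eq (α * V.1 + γ * V.2, β * V.1 + δ * V.2) (by rw [e3]; exact e2) (fderiv ℂ (tr α β γ δ) y (c.v y))
    have e6 : fderiv ℂ (mono c'.w c'.w') (tr α β γ δ y) (fderiv ℂ (tr α β γ δ) y (c.v y)) = fderiv ℂ (mono c.w c.w') y (c.v y) := by
      have k1 : fderiv ℂ (fun x => mono c'.w c'.w' (tr α β γ δ x)) y = (fderiv ℂ (mono c'.w c'.w') (tr α β γ δ y)).comp (fderiv ℂ (tr α β γ δ) y) :=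
        fderiv_comp (𝕜 := ℂ) (g := mono c'.w c'.w') (f := tr α β γ δ) y (analyticAt_mono _).differentiableAt g3.differentiableAt
      have k2 : fderiv ℂ (fun x => mono c'.w c'.w' (tr α β γ δ x)) y = fderiv ℂ (mono c.w c.w') y :=
        Filter.EventuallyEq.fderiv_eq g2
      exact congrArg (fun L : ℂ × ℂ →L[ℂ] ℂ × ℂ => L (c.v y)) (k1.symm.trans k2)
    rw [← e1, e3, e6, ← hn.1] at e5
    rw [e0] at e4
    have e7 : (c.v y).1 * (c.v y).2 - (c.v y).2 * (c.v y).1 = 0 := by ring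
    rw [e7, mul_zero] at e4
    rw [e4] at e5
    have e8 : (tr α β γ δ y).1 ^ c'.i * (tr α β γ δ y).2 ^ c'.j ≠ 0 := by
      rw [e1]
      exact mul_ne_zero (pow_ne_zero _ (Complex.exp_ne_zero _)) (pow_ne_zero _ (Complex.exp_ne_zero _))
    have e9 := (mul_eq_zero.1 e5.symm).resolve_left e8
    linear_combination -e9
  refine ⟨tr α β γ δ, tr α' β' γ' δ', ⟨hΦ, hΨ, hinv, hinv', hkap, par_unit hV hV' hVne hVne' hpar, ?_, ?_⟩, h6, ?_⟩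
  · -- the axes
    have k1 : q.1 ≠ 0 ∨ α + β - 1 = 0 := h3.imp_right fun h => by rw [h.1, h.2]; ring
    have k2 : q.2 ≠ 0 ∨ γ + δ - 1 = 0 := h4.imp_right fun h => by rw [h.1, h.2]; ring
    have a1 : AnalyticAt ℂ (fun y : ℂ × ℂ => y.1 ^ (α + β - 1)) q := analyticAt_zpow analyticAt_fst (k1.imp_right fun h => h.ge)
    have a2 : AnalyticAt ℂ (fun y : ℂ × ℂ => y.2 ^ (γ + δ - 1)) q := analyticAt_zpow analyticAt_snd (k2.imp_right fun h => h.ge)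
    refine ⟨fun y => y.1 ^ (α + β - 1) * y.2 ^ (γ + δ - 1), a1.fun_mul a2, ?_, ?_⟩
    · refine mul_ne_zero ?_ ?_
      · rcases k1 with k | k
        · exact zpow_ne_zero _ k
        · rw [k, zpow_zero]
          exact one_ne_zero
      · rcases k2 with k | k
        · exact zpow_ne_zero _ k
        · rw [k, zpow_zero]
          exact one_ne_zero
    · refine eventuallyEq_of_off (f := fun y => (tr α β γ δ y).1 * (tr α β γ δ y).2) (g := fun y : ℂ × ℂ => y.1 ^ (α + β - 1) * y.2 ^ (γ + δ - 1) * (y.1 * y.2))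
        ((analyticAt_fst.fun_comp hΦ).fun_mul (analyticAt_snd.fun_comp hΦ)) ((a1.fun_mul a2).fun_mul (analyticAt_fst.fun_mul analyticAt_snd))
        (Eventually.of_forall fun y h0 => ?_)
      have y1 := left_ne_zero_of_mul h0
      have y2 := right_ne_zero_of_mul h0
      show y.1 ^ α * y.2 ^ γ * (y.1 ^ β * y.2 ^ δ) = y.1 ^ (α + β - 1) * y.2 ^ (γ + δ - 1) * (y.1 * y.2)
      rw [zpow_sub_one₀ y1, zpow_sub_one₀ y2, zpow_add₀ y1, zpow_add₀ y2]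
      field_simp
  · have k1 : tr α β γ δ q ≠ 0 := by
      rw [h6]
      exact h5'
    filter_upwards [hΦ.continuousAt.eventually_ne k1, eventually_ne_nhds h5] with y g1 g2
    exact ⟨fun _ => g1, fun _ => g2⟩
  · exact ⟨{y | TrOk α β γ δ y}, hok.ev, fun F U p h z hz hzN => lf_tr h c c' hn.1 h1 h2 hz hzN⟩

end Pool.Agent.MQ3

end
end

section

/-!
# MQ3 Avatar: two chart points over the same box: separated, or glued; regular points are respected by the gluing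
-/

set_option autoImplicit false

open Topology Filter Metric MvPolynomial

noncomputable section

namespace Pool.Agent.MQ3

open Pool.Agent.H36.BP (EN fs)
open Pool.Agent.H17BP (Surface)
open Pool.Agent.H17EF (projVar coneE)

variable {M : ℕ} {P : Ideal (MvPolynomial (Fin (M + 1)) ℂ)} {RD : MvPolynomial (Fin (M + 1)) ℂ} {m : ℕ} {X : NCModel P RD} {θ : WDiff (coneE P) m}
  {l : LF M} {S : Web X θ l} {Ra : MvPolynomial (Fin (M + 1)) ℂ}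

/-- properties near `q` and near `Φ q` -/
theorem Gl.push {i : X.ι} {a a' : (S.V i).ι} {Φ Ψ : ℂ × ℂ → ℂ × ℂ} {q : ℂ × ℂ} (h : Gl (S.c ⟨i, a⟩) (S.c ⟨i, a'⟩) Φ Ψ q) {R : ℂ × ℂ → Prop}
    (hR : ∀ᶠ x in 𝓝 q, R x) : ∀ᶠ y in 𝓝 (Φ q), R (Ψ y) := by
  have hq : Ψ (Φ q) = q := h.inv.self_of_nhds
  have ht : Tendsto Ψ (𝓝 (Φ q)) (𝓝 q) := by
    have := h.an'.continuousAt.tendsto
    rwa [hq] at this
  exact ht.eventually hR

/-- the product of the coordinates -/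
theorem fderiv_mul_coord (x w : ℂ × ℂ) : fderiv ℂ (fun y : ℂ × ℂ => y.1 * y.2) x w = x.2 * w.1 + x.1 * w.2 := by
  have h1 : HasFDerivAt (fun y : ℂ × ℂ => y.1 * y.2) (x.1 • ContinuousLinearMap.snd ℂ ℂ ℂ + x.2 • ContinuousLinearMap.fst ℂ ℂ ℂ) x :=
    (hasFDerivAt_fst (p := x)).mul (hasFDerivAt_snd (p := x))
  rw [h1.fderiv]
  simp
  ring

/-- regularity off the curve, with the product of the coordinates -/
theorem regA_iff {k : S.ι} {q : ℂ × ℂ} : RegA S Ra k q ↔ q ∈ S.D k ∧ S.v k q ≠ 0 ∧ q ≠ 0 ∧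
    (q.1 * q.2 = 0 → fderiv ℂ (fun y : ℂ × ℂ => y.1 * y.2) q (S.v k q) ≠ 0 ∨
      ∀ᶠ x in 𝓝 q, x.1 * x.2 = 0 → fderiv ℂ (fun y : ℂ × ℂ => y.1 * y.2) x (S.v k x) = 0) ∧
    ∀ᶠ x in 𝓝 q, x.1 * x.2 ≠ 0 → eval (S.σ k x).ofLp Ra ≠ 0 := by
  constructor
  · intro h
    refine ⟨h.mem, h.v_ne, h.ne, fun h0 => ?_, h.alg⟩
    rcases mul_eq_zero.1 h0 with h1 | h1
    · have h2 : q.2 ≠ 0 := fun h2 => h.ne (Prod.ext h1 h2)
      rcases h.ax₁ h1 with h3 | h3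
      · left
        rw [fderiv_mul_coord, h1, zero_mul, add_zero]
        exact mul_ne_zero h2 h3
      · right
        filter_upwards [h3, continuousAt_snd.eventually_ne h2] with x h4 h5 h6
        have h7 := (mul_eq_zero.1 h6).resolve_right h5
        rw [fderiv_mul_coord, h7, h4 h7]
        ring
    · have h2 : q.1 ≠ 0 := fun h2 => h.ne (Prod.ext h2 h1)
      rcases h.ax₂ h1 with h3 | h3
      · left
        rw [fderiv_mul_coord, h1, zero_mul, zero_add]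
        exact mul_ne_zero h2 h3
      · right
        filter_upwards [h3, continuousAt_fst.eventually_ne h2] with x h4 h5 h6
        have h7 := (mul_eq_zero.1 h6).resolve_left h5
        rw [fderiv_mul_coord, h7, h4 h7]
        ring
  · rintro ⟨h1, h2, h3, h4, h5⟩
    refine ⟨h1, h2, h3, fun h6 => ?_, fun h6 => ?_, h5⟩
    · have h7 : q.2 ≠ 0 := fun h7 => h3 (Prod.ext h6 h7)
      rcases h4 (by rw [h6, zero_mul]) with h8 | h8
      · left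
        rw [fderiv_mul_coord, h6, zero_mul, add_zero] at h8
        exact right_ne_zero_of_mul h8
      · right
        filter_upwards [h8, continuousAt_snd.eventually_ne h7] with x h9 h10 h11
        have h12 := h9 (by rw [h11, zero_mul])
        rw [fderiv_mul_coord, h11, zero_mul, add_zero] at h12
        exact (mul_eq_zero.1 h12).resolve_left h10
    · have h7 : q.1 ≠ 0 := fun h7 => h3 (Prod.ext h7 h6)
      rcases h4 (by rw [h6, mul_zero]) with h8 | h8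
      · left
        rw [fderiv_mul_coord, h6, zero_mul, zero_add] at h8
        exact right_ne_zero_of_mul h8
      · right
        filter_upwards [h8, continuousAt_fst.eventually_ne h7] with x h9 h10 h11
        have h12 := h9 (by rw [h11, mul_zero])
        rw [fderiv_mul_coord, h11, zero_mul, zero_add] at h12
        exact (mul_eq_zero.1 h12).resolve_left h10

section

variable {i : X.ι} {a a' : (S.V i).ι} {Φ Ψ : ℂ × ℂ → ℂ × ℂ} {q : ℂ × ℂ}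

theorem Gl.mem_iff (h : Gl (S.c ⟨i, a⟩) (S.c ⟨i, a'⟩) Φ Ψ q) (hq : q ∈ S.D ⟨i, a⟩) : Φ q ∈ S.D ⟨i, a'⟩ := by
  have h1 : S.κ ⟨i, a'⟩ (Φ q) = S.κ ⟨i, a⟩ q := h.kap.self_of_nhds
  refine ⟨?_, ?_⟩
  · have h2 : S.κ ⟨i, a'⟩ (Φ q) ∈ DD := by
      rw [h1]
      exact hq.1
    exact h2
  · show S.κ ⟨i, a'⟩ (Φ q) ∈ X.B i
    rw [h1]
    exact hq.2

theorem Gl.v_ne (h : Gl (S.c ⟨i, a⟩) (S.c ⟨i, a'⟩) Φ Ψ q) (hq : S.v ⟨i, a⟩ q ≠ 0) : S.v ⟨i, a'⟩ (Φ q) ≠ 0 := by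
  obtain ⟨g, -, hg0, hg'⟩ := h.symm.fld
  have h1 := hg'.self_of_nhds
  rw [h.inv.self_of_nhds] at h1
  intro h2
  have h3 : (S.c ⟨i, a'⟩).v (Φ q) = 0 := h2
  rw [h3, map_zero] at h1
  exact hq ((smul_eq_zero.1 h1.symm).resolve_left hg0)

/-- the derivative of a function along the field, in the other chart: a function `A'` with `A' ∘ Φ = ε A` -/
theorem Gl.dir (h : Gl (S.c ⟨i, a⟩) (S.c ⟨i, a'⟩) Φ Ψ q) {A A' : ℂ × ℂ → ℂ} (hA : AnalyticAt ℂ A q) (hA' : AnalyticAt ℂ A' (Φ q))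
    (hAA : ∃ ε : ℂ × ℂ → ℂ, AnalyticAt ℂ ε q ∧ ε q ≠ 0 ∧ ∀ᶠ y in 𝓝 q, A' (Φ y) = ε y * A y) :
    ∀ᶠ y in 𝓝 q, A y = 0 → (fderiv ℂ A y (S.v ⟨i, a⟩ y) = 0 ↔ fderiv ℂ A' (Φ y) (S.v ⟨i, a'⟩ (Φ y)) = 0) := by
  obtain ⟨ε, he, he0, he'⟩ := hAA
  obtain ⟨g, hg, hg0, hg'⟩ := h.fld
  filter_upwards [hA.eventually_analyticAt, h.an.continuousAt.eventually hA'.eventually_analyticAt, he.eventually_analyticAt,
    he.continuousAt.eventually_ne he0, eventually_eventually_nhds.2 he', hg.continuousAt.eventually_ne hg0, hg', h.an.eventually_analyticAt] with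
      y h1 h2 h3 h4 h5 h6 h7 h8 h9
  have e1 : HasFDerivAt (fun x => A' (Φ x)) ((fderiv ℂ A' (Φ y)).comp (fderiv ℂ Φ y)) y :=
    h2.differentiableAt.hasFDerivAt.comp y h8.differentiableAt.hasFDerivAt
  have e2 : HasFDerivAt (fun x => ε x * A x) (ε y • fderiv ℂ A y + A y • fderiv ℂ ε y) y :=
    h3.differentiableAt.hasFDerivAt.mul h1.differentiableAt.hasFDerivAt
  have e3 : (fderiv ℂ A' (Φ y)).comp (fderiv ℂ Φ y) = ε y • fderiv ℂ A y + A y • fderiv ℂ ε y := by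
    rw [← e1.fderiv, ← e2.fderiv]
    exact Filter.EventuallyEq.fderiv_eq h5
  have e4 : ε y • fderiv ℂ A y + A y • fderiv ℂ ε y = ε y • fderiv ℂ A y := by
    have : A y • fderiv ℂ ε y = 0 := by
      rw [h9]
      exact zero_smul ℂ (fderiv ℂ ε y)
    rw [this, add_zero]
  have e5 : fderiv ℂ A' (Φ y) (fderiv ℂ Φ y (S.v ⟨i, a⟩ y)) = ε y * fderiv ℂ A y (S.v ⟨i, a⟩ y) :=
    congrArg (fun L : ℂ × ℂ →L[ℂ] ℂ => L (S.v ⟨i, a⟩ y)) (e3.trans e4)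
  have e6 : fderiv ℂ Φ y (S.v ⟨i, a⟩ y) = g y • S.v ⟨i, a'⟩ (Φ y) := h7
  rw [e6, map_smul, smul_eq_mul] at e5
  constructor
  · intro h10
    rw [h10, mul_zero] at e5
    exact (mul_eq_zero.1 e5).resolve_left h6
  · intro h10
    rw [h10, mul_zero] at e5
    exact (mul_eq_zero.1 e5.symm).resolve_left h4

theorem Gl.σ_eq (h : Gl (S.c ⟨i, a⟩) (S.c ⟨i, a'⟩) Φ Ψ q) : ∀ᶠ y in 𝓝 q, S.σ ⟨i, a'⟩ (Φ y) = S.σ ⟨i, a⟩ y := by
  filter_upwards [h.kap] with y hy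
  exact congrArg (X.ρ i) hy

theorem Gl.regA (h : Gl (S.c ⟨i, a⟩) (S.c ⟨i, a'⟩) Φ Ψ q) (hq : RegA S Ra ⟨i, a⟩ q) : RegA S Ra ⟨i, a'⟩ (Φ q) := by
  rw [regA_iff] at hq ⊢
  obtain ⟨h1, h2, h3, h4, h5⟩ := hq
  obtain ⟨ε, he, he0, he'⟩ := h.ax
  have hm : ∀ x : ℂ × ℂ, AnalyticAt ℂ (fun y : ℂ × ℂ => y.1 * y.2) x := fun x => analyticAt_fst.fun_mul analyticAt_snd
  have hdir := h.dir (A := fun y => y.1 * y.2) (A' := fun y => y.1 * y.2) (hm _) (hm _) h.ax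
  have hax : ∀ᶠ y in 𝓝 q, (Φ y).1 * (Φ y).2 = 0 ↔ y.1 * y.2 = 0 := by
    filter_upwards [he', he.continuousAt.eventually_ne he0] with y g1 g2
    rw [g1, mul_eq_zero, or_iff_right g2]
  refine ⟨h.mem_iff h1, h.v_ne h2, h.ne.self_of_nhds.1 h3, fun h6 => ?_, ?_⟩
  · have h7 := hax.self_of_nhds.1 h6
    rcases h4 h7 with h8 | h8
    · left
      exact fun h9 => h8 ((hdir.self_of_nhds h7).2 h9)
    · right
      have h9 : ∀ᶠ y in 𝓝 q, (Φ y).1 * (Φ y).2 = 0 → fderiv ℂ (fun y : ℂ × ℂ => y.1 * y.2) (Φ y) (S.v ⟨i, a'⟩ (Φ y)) = 0 := by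
        filter_upwards [h8, hdir, hax] with y g1 g2 g3 g4
        exact (g2 (g3.1 g4)).1 (g1 (g3.1 g4))
      filter_upwards [h.push h9, h.inv'] with y g1 g2
      rwa [g2] at g1
  · have h9 : ∀ᶠ y in 𝓝 q, (Φ y).1 * (Φ y).2 ≠ 0 → eval (S.σ ⟨i, a'⟩ (Φ y)).ofLp Ra ≠ 0 := by
      filter_upwards [h5, hax, h.σ_eq] with y g1 g2 g3 g4
      rw [g3]
      exact g1 fun g5 => g4 (g2.2 g5)
    filter_upwards [h.push h9, h.inv'] with y g1 g2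
    rwa [g2] at g1

theorem Gl.regB (h : Gl (S.c ⟨i, a⟩) (S.c ⟨i, a'⟩) Φ Ψ q) (hq : RegB S Ra ⟨i, a⟩ q) : RegB S Ra ⟨i, a'⟩ (Φ q) := by
  obtain ⟨h1, h2, h3, G, h4, h5, h6, h7, h8⟩ := hq
  have hΨq : Ψ (Φ q) = q := h.inv.self_of_nhds
  have hG' : AnalyticAt ℂ (fun y => G (Ψ y)) (Φ q) := AnalyticAt.comp (g := G) (f := Ψ) (x := Φ q) (by rw [hΨq]; exact h4) h.an'
  obtain ⟨ε, he, he0, he'⟩ := h.ax
  refine ⟨h.mem_iff h1, h.v_ne h2, ?_, fun y => G (Ψ y), hG', ?_, ?_, ?_, ?_⟩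
  · rw [he'.self_of_nhds]
    exact mul_ne_zero he0 h3
  · show G (Ψ (Φ q)) = 0
    rw [hΨq, h5]
  · intro h9
    apply h6
    have h10 : fderiv ℂ (fun y => G (Ψ (Φ y))) q = (fderiv ℂ (fun y => G (Ψ y)) (Φ q)).comp (fderiv ℂ Φ q) :=
      fderiv_comp (𝕜 := ℂ) (g := fun y => G (Ψ y)) (f := Φ) q hG'.differentiableAt h.an.differentiableAt
    rw [h9, ContinuousLinearMap.zero_comp] at h10
    rw [← h10]
    refine (Filter.EventuallyEq.fderiv_eq ?_).symm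
    filter_upwards [h.inv] with y hy
    rw [hy]
  · have h9 : ∀ᶠ y in 𝓝 q, eval (S.σ ⟨i, a'⟩ (Φ y)).ofLp Ra = 0 ↔ G (Ψ (Φ y)) = 0 := by
      filter_upwards [h7, h.σ_eq, h.inv] with y g1 g2 g3
      rw [g2, g3]
      exact g1
    filter_upwards [h.push h9, h.inv'] with y g1 g2
    rwa [g2] at g1
  · have hdir := h.dir (A := G) (A' := fun y => G (Ψ y)) h4 hG' ⟨fun _ => 1, analyticAt_const, one_ne_zero, by
      filter_upwards [h.inv] with y hy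
      show G (Ψ (Φ y)) = 1 * G y
      rw [hy, one_mul]⟩
    rcases h8 with h8 | h8
    · left
      exact fun h9 => h8 ((hdir.self_of_nhds h5).2 h9)
    · right
      have h9 : ∀ᶠ y in 𝓝 q, G (Ψ (Φ y)) = 0 → fderiv ℂ (fun y => G (Ψ y)) (Φ y) (S.v ⟨i, a'⟩ (Φ y)) = 0 := by
        filter_upwards [h8, hdir, h.inv] with y g1 g2 g3 g4
        rw [g3] at g4
        exact (g2 g4).1 (g1 g4)
      filter_upwards [h.push h9, h.inv'] with y g1 g2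
      rwa [g2] at g1

theorem Gl.reg (h : Gl (S.c ⟨i, a⟩) (S.c ⟨i, a'⟩) Φ Ψ q) (hq : Reg S Ra ⟨i, a⟩ q) : Reg S Ra ⟨i, a'⟩ (Φ q) := hq.imp h.regA h.regB

/-- near `q` the regular points correspond -/
theorem Gl.reg_iff (h : Gl (S.c ⟨i, a⟩) (S.c ⟨i, a'⟩) Φ Ψ q) : ∀ᶠ x in 𝓝 q, (Reg S Ra ⟨i, a⟩ x ↔ Reg S Ra ⟨i, a'⟩ (Φ x)) ∧
    (RegA S Ra ⟨i, a⟩ x ↔ RegA S Ra ⟨i, a'⟩ (Φ x)) := by
  filter_upwards [h.ev, h.inv] with x hx hi
  refine ⟨⟨hx.reg, fun h1 => ?_⟩, hx.regA, fun h1 => ?_⟩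
  · have := hx.symm.reg h1
    rwa [hi] at this
  · have := hx.symm.regA h1
    rwa [hi] at this

end

/-- **Avatars**: two chart points over the same box are separated or glued. -/
theorem avatar (i : X.ι) (a a' : (S.V i).ι) {q q' : ℂ × ℂ} (hq : q ∈ S.D ⟨i, a⟩) (hq' : q' ∈ S.D ⟨i, a'⟩) :
    (∃ N ∈ 𝓝 q, ∃ N' ∈ 𝓝 q', ∀ F : ℂ → EN M, WCrv θ RD F → ∀ Y : NCLift X F, ∀ z, z ∈ S.Om Y ⟨i, a⟩ → S.lf Y ⟨i, a⟩ z ∈ N → z ∈ S.Om Y ⟨i, a'⟩ →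
      S.lf Y ⟨i, a'⟩ z ∉ N') ∨
    ∃ Φ : ℂ × ℂ → ℂ × ℂ, AnalyticAt ℂ Φ q ∧ Φ q = q' ∧ (∀ᶠ x in 𝓝 q, S.κ ⟨i, a'⟩ (Φ x) = S.κ ⟨i, a⟩ x ∧ (Reg S Ra ⟨i, a⟩ x ↔ Reg S Ra ⟨i, a'⟩ (Φ x))) ∧
      ∃ N ∈ 𝓝 q, ∀ F : ℂ → EN M, WCrv θ RD F → ∀ Y : NCLift X F, ∀ z ∈ S.Om Y ⟨i, a⟩, S.lf Y ⟨i, a⟩ z ∈ N → z ∈ S.Om Y ⟨i, a'⟩ ∧
        S.lf Y ⟨i, a'⟩ z = Φ (S.lf Y ⟨i, a⟩ z) := by
  by_cases hn : Nbr (S.c ⟨i, a⟩) (S.c ⟨i, a'⟩) q q'
  · right
    have hf : S.c ⟨i, a⟩ = S.c ⟨i, a'⟩ ∨ 0 ≤ dt (S.c ⟨i, a⟩).w' (S.c ⟨i, a'⟩).w ∨ 0 ≤ dt (S.c ⟨i, a'⟩).w' (S.c ⟨i, a⟩).w := by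
      by_cases haa : a = a'
      · left
        rw [haa]
      · right
        exact (S.V i).fan a a' haa hn.1
    obtain ⟨Φ, Ψ, h1, h2, N, hN, h3⟩ := nbr_gl hn hf hq.1 hq'.1
    refine ⟨Φ, h1.an, h2, ?_, N, hN, fun F hF Y z hz hzN => ?_⟩
    · filter_upwards [h1.kap, h1.reg_iff (Ra := Ra)] with x g1 g2
      exact ⟨g1, g2.1⟩
    · exact h3 F (Y.U i) (Y.p i) (bcrv hF Y i) z hz hzN
  · left
    obtain ⟨r, hr, h1⟩ := nbr_sep hn ((S.V i).orb a a')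
    exact ⟨ball q r, ball_mem_nhds q hr, ball q' r, ball_mem_nhds q' hr, fun F hF Y z hz hzN hz' hzN' =>
      h1 F (Y.U i) (Y.p i) (bcrv hF Y i) z hz hz' hzN hzN'⟩

end Pool.Agent.MQ3

end
end
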