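import Pool.Agent.H94.G6.M112
import Pool.Agent.H94.G6.M115
import Pool.Agent.H94.G6.M126
import Pool.Agent.H94.G6.M163
import Pool.Agent.H94.G6.M173
import Pool.Agent.H94.G6.M90

/-! The parts of this file: E2.Kod, MQ3.RNe, MQ3.RegOff, MQ3.RegO, MQ3.Cov. -/

section

/-!
# E2 Kod: a section of `M K - H` without zeros off a curve, and the curves along which it vanishes
-/

set_option autoImplicit false

open Topology Filter Metric MvPolynomial

noncomputable section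

namespace Pool.Agent.E2

open Pool.Agent.H36.BP (EN)
open Pool.Agent.H14.PP (Tan)
open Pool.Agent.H17BP (Surface IsChart IsForm NoZeros)
open Pool.Agent.H62.FC (Homog)
open Pool.Agent.H17LG.Variety (FunField)
open Pool.Agent.H17EF (coneE LE)
open Pool.Agent.H13.SM (cone)

variable {N : ℕ}

/-- the derivative of a nonconstant curve is not proportional to the curve, at a dense set of points -/
theorem frequently_ind {F : ℂ → EN N} (hF : Differentiable ℂ F) (h0 : ∀ z, F z ≠ 0) (hne : ∃ z w, ∀ c : ℂ, F z ≠ c • F w) (z₁ : ℂ) :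
    ∃ᶠ z in 𝓝 z₁, ∀ a : ℂ, deriv F z ≠ a • F z := by
  intro hcon
  have hcon' : ∀ᶠ z in 𝓝 z₁, ∃ a : ℂ, deriv F z = a • F z := by
    filter_upwards [hcon] with z hz
    push Not at hz
    exact hz
  set G : ℂ → Fin (N + 1) → ℂ := fun z => (LE N).symm (F z) with hG
  have hGd : ∀ z, HasDerivAt G ((LE N).symm (deriv F z)) z := fun z =>
    ((LE N).symm : EN N →L[ℂ] (Fin (N + 1) → ℂ)).hasFDerivAt.comp_hasDerivAt z (hF z).hasDerivAt
  have hGdiff : Differentiable ℂ G := fun z => (hGd z).differentiableAt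
  have hG0 : ∀ z, G z ≠ 0 := fun z e => h0 z ((LE N).symm.map_eq_zero_iff.1 e)
  have h1 := Pool.Agent.H14.KB.const_of_deriv (hGdiff.analyticAt z₁) (hG0 z₁) (by
    filter_upwards [hcon'] with z hz
    obtain ⟨a, ha⟩ := hz
    refine ⟨a, ?_⟩
    rw [(hGd z).deriv, ha, map_smul])
  obtain ⟨j, hj⟩ : ∃ j, G z₁ j ≠ 0 := by
    by_contra h
    push Not at h
    exact hG0 z₁ (funext h)
  have hm : ∀ i z, G z i * G z₁ j - G z j * G z₁ i = 0 := by
    intro i
    have hGi : ∀ i, Differentiable ℂ fun z => G z i := fun i z => (hasDerivAt_pi.1 (hGd z) i).differentiableAt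
    have hd : Differentiable ℂ fun z => G z i * G z₁ j - G z j * G z₁ i := ((hGi i).mul_const _).sub ((hGi j).mul_const _)
    have ha : AnalyticOnNhd ℂ (fun z => G z i * G z₁ j - G z j * G z₁ i) Set.univ := fun z _ => hd.analyticAt z
    have h2 : (fun z => G z i * G z₁ j - G z j * G z₁ i) =ᶠ[𝓝 z₁] fun _ => 0 := by
      filter_upwards [h1] with z hz
      obtain ⟨c, -, hc⟩ := hz
      rw [hc]
      simp only [Pi.smul_apply, smul_eq_mul]
      ring
    have h3 := ha.eqOn_of_preconnected_of_eventuallyEq (fun z _ => analyticAt_const) isPreconnected_univ (Set.mem_univ z₁) h2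
    exact fun z => h3 (Set.mem_univ z)
  have hc : ∀ z, F z = (G z j / G z₁ j) • F z₁ := by
    intro z
    apply (LE N).symm.injective
    rw [map_smul]
    funext i
    show G z i = G z j / G z₁ j * G z₁ i
    rw [div_mul_eq_mul_div, eq_div_iff hj]
    linear_combination hm i z
  have hc0 : ∀ z, G z j / G z₁ j ≠ 0 := by
    intro z e
    have h2 := hc z
    rw [e, zero_smul] at h2
    exact h0 z h2
  obtain ⟨z, w, h⟩ := hne
  refine h ((G z j / G z₁ j) * (G w j / G z₁ j)⁻¹) ?_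
  conv_rhs => rw [hc w]
  rw [smul_smul, mul_assoc, inv_mul_cancel₀ (hc0 w), mul_one]
  exact hc z

/-- a second tangent vector -/
theorem exists_second {X : Set (EN N)} (hX : Surface X) {x v : EN N} (hx : x ∈ X) (hv : Tan X x v) (hne : ∀ a : ℂ, v ≠ a • x) :
    ∃ w, Tan X x w ∧ LinearIndependent ℂ ![x, v, w] := by
  obtain ⟨σ, τ, hσ, h0⟩ := hX.chart x hx
  have hin : ∀ {w : ℂ × ℂ} {a : ℂ}, fderiv ℂ σ 0 w = a • σ 0 → w = 0 := fun h => (Pool.Agent.H62.BU.toChart hσ).indep h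
  obtain ⟨-, h1⟩ := (tan_chart hX hσ).self_of_nhds
  rw [h0] at h1
  obtain ⟨u, a, hu⟩ := h1 v hv
  have hu0 : u ≠ 0 := by
    rintro rfl
    rw [map_zero, zero_add] at hu
    exact hne a hu
  -- a vector of the plane which is not a multiple of `u`
  obtain ⟨u', hu'⟩ : ∃ u' : ℂ × ℂ, LinearIndependent ℂ ![u, u'] := by
    by_cases h : u.1 = 0
    · refine ⟨(1, 0), LinearIndependent.pair_iff.2 fun s t hst => ?_⟩
      have h2 : u.2 ≠ 0 := fun e => hu0 (Prod.ext h e)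
      have e1 := congrArg Prod.fst hst
      have e2 := congrArg Prod.snd hst
      simp only [Prod.fst_add, Prod.smul_fst, Prod.snd_add, Prod.smul_snd, smul_eq_mul, Prod.fst_zero, Prod.snd_zero, h, mul_zero, zero_add, mul_one,
        add_zero] at e1 e2
      exact ⟨(mul_eq_zero.1 e2).resolve_right h2, e1⟩
    · refine ⟨(0, 1), LinearIndependent.pair_iff.2 fun s t hst => ?_⟩
      have e1 := congrArg Prod.fst hst
      have e2 := congrArg Prod.snd hst
      simp only [Prod.fst_add, Prod.smul_fst, Prod.snd_add, Prod.smul_snd, smul_eq_mul, Prod.fst_zero, Prod.snd_zero, mul_zero, mul_one,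
        add_zero] at e1 e2
      have e3 := (mul_eq_zero.1 e1).resolve_right h
      rw [e3, zero_mul, zero_add] at e2
      exact ⟨e3, e2⟩
  refine ⟨fderiv ℂ σ 0 u', ?_, ?_⟩
  · rw [← h0]
    exact tan_fderiv_chart hσ.σ_an hσ.σ_mem u'
  · rw [LinearIndependent.pair_iff] at hu'
    rw [Fintype.linearIndependent_iff]
    intro g hg
    rw [Fin.sum_univ_three] at hg
    simp only [Matrix.cons_val_zero, Matrix.cons_val_one, Matrix.cons_val_two, Matrix.tail_cons, Matrix.head_cons] at hg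
    rw [hu, ← h0] at hg
    have h2 : fderiv ℂ σ 0 (g 1 • u + g 2 • u') = (-(g 0 + g 1 * a)) • σ 0 := by
      rw [map_add, map_smul, map_smul, ← sub_eq_zero, ← hg]
      module
    have h3 := hin h2
    obtain ⟨e1, e2⟩ := hu' _ _ h3
    have h4 : g 0 • σ 0 = 0 := by
      rw [e1, e2, zero_smul, zero_smul, add_zero, add_zero] at hg
      exact hg
    have e0 : g 0 = 0 := (smul_eq_zero.1 h4).resolve_right hσ.ne
    intro i
    fin_cases i
    · exact e0
    · exact e1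
    · exact e2

/-- the transported form -/
theorem isForm_transport {X : Set (Fin (N + 1) → ℂ)} {m j : ℕ} {Ω : (Fin (N + 1) → ℂ) → (Fin (N + 1) → ℂ) → (Fin (N + 1) → ℂ) → ℂ} (hΩ : IsForm X m j Ω) :
    IsForm ((LE N).symm ⁻¹' X : Set (EN N)) m j (fun x v w => Ω ((LE N).symm x) ((LE N).symm v) ((LE N).symm w)) := by
  have ht : ∀ x v : EN N, v ∈ Pool.Agent.H17BP.Tan ((LE N).symm ⁻¹' X : Set (EN N)) x → (LE N).symm v ∈ Pool.Agent.H17BP.Tan X ((LE N).symm x) := by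
    rintro x v ⟨F, hF, hFX, h0, h1⟩
    exact Pool.Agent.H36.BP.tan_transport (LE N) ⟨F, ⟨hF, hFX⟩, h0, h1⟩
  refine ⟨fun x hx v hv w hw a b => ?_, fun x hx v hv w hw a b c d => ?_, fun x hx v hv w hw c hc => ?_, fun φ p hφ hφX => ?_⟩
  · rw [map_add, map_add, map_smul, map_smul]
    exact hΩ.add_smul _ hx _ (ht x v hv) _ (ht x w hw) a b
  · rw [map_add, map_add, map_smul, map_smul, map_smul, map_smul]
    exact hΩ.det _ hx _ (ht x v hv) _ (ht x w hw) a b c d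
  · rw [map_smul, map_smul, map_smul]
    exact hΩ.scale _ hx _ (ht x v hv) _ (ht x w hw) c hc
  · have h1 : AnalyticAt ℂ (fun y => (LE N).symm (φ y)) p := (((LE N).symm : EN N →L[ℂ] (Fin (N + 1) → ℂ)).analyticAt _).comp hφ
    have h2 := hΩ.analytic _ p h1 hφX
    refine h2.congr ?_
    filter_upwards [hφ.eventually_analyticAt] with y hy
    have h3 : HasFDerivAt (fun y => (LE N).symm (φ y)) (((LE N).symm : EN N →L[ℂ] (Fin (N + 1) → ℂ)).comp (fderiv ℂ φ y)) y :=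
      ((LE N).symm : EN N →L[ℂ] (Fin (N + 1) → ℂ)).hasFDerivAt.comp y hy.differentiableAt.hasFDerivAt
    rw [h3.fderiv]
    rfl

/-- a section of `M K - H` without zeros off a curve, and the conclusion for a curve along which it vanishes -/
theorem exists_form_gt {P : Ideal (MvPolynomial (Fin (N + 1)) ℂ)} [P.IsPrime] (hP : Homog P) {z : Fin 2 → FunField P} (hz : IsTranscendenceBasis ℂ z)
    (hsm : ∀ y : Fin (N + 1) → ℂ, y ≠ 0 → (∀ Q ∈ P, eval y Q = 0) → Module.finrank ℂ (Pool.Agent.H13.SM.conTan P y) ≤ 3)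
    (hgt : Pool.Agent.H62.FC.LogGeneralType P ∅ 2) :
    ∃ (M : ℕ) (Ω : EN N → EN N → EN N → ℂ) (D : ℕ) (Q : MvPolynomial (Fin (N + 1)) ℂ), 1 ≤ M ∧ Q.IsHomogeneous D ∧ Q ∉ P ∧ IsForm (coneE P) M 1 Ω ∧
      ∀ F : ℂ → EN N, Differentiable ℂ F → (∀ z, F z ∈ coneE P) → (∃ z w, ∀ c : ℂ, F z ≠ c • F w) →
        (∀ z w, Tan (coneE P) (F z) w → Ω (F z) (deriv F z) w = 0) → ∀ z, eval (F z).ofLp Q = 0 := by
  obtain ⟨M, Om, D₀, Q₀, hM, hQ₀, hQ₀P, hOm, hnz⟩ := Pool.Agent.H68.KR.exists_form_of_smooth hP hz (fun y hy hyP => hsm y hy hyP) hgt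
  have hOm' : IsForm (cone P) M 1 Om := hOm
  have hX : Surface (coneE P) := Pool.Agent.H90.SG.surface_coneE hP hz hsm
  refine ⟨M, fun x v w => Om ((LE N).symm x) ((LE N).symm v) ((LE N).symm w), D₀, Q₀, hM, hQ₀, hQ₀P, isForm_transport hOm', ?_⟩
  intro F hF hFX hne h z₁
  by_contra hQ
  have hcont : Continuous fun z => eval (F z).ofLp Q₀ :=
    (MvPolynomial.continuous_eval Q₀).comp ((LE N).symm.continuous.comp hF.continuous)
  have h0 : ∀ z, F z ≠ 0 := fun z e => hX.zero (e ▸ hFX z)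
  obtain ⟨z₂, hz2, hz2'⟩ := ((frequently_ind hF h0 hne z₁).and_eventually (hcont.continuousAt.eventually_ne hQ)).exists
  have hT : Tan (coneE P) (F z₂) (deriv F z₂) := by
    refine ⟨fun y => F (z₂ + y), ⟨?_, Eventually.of_forall fun y => hFX _⟩, by simp, ?_⟩
    · exact (hF.comp (differentiable_id.const_add z₂)).analyticAt 0
    · have := deriv_comp_const_add F z₂ 0
      rw [add_zero] at this
      exact this
  obtain ⟨w, hw, hind⟩ := exists_second hX (hFX z₂) hT hz2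
  refine hnz ((LE N).symm (F z₂)) (hFX z₂) (fun hh => hz2' hh.2) _ (Pool.Agent.H36.BP.tan_transport (LE N) hT) _
    (Pool.Agent.H36.BP.tan_transport (LE N) hw) ?_ (h z₂ w hw)
  have h3 := hind.map' ((LE N).symm : EN N →ₗ[ℂ] (Fin (N + 1) → ℂ)) (LinearMap.ker_eq_bot.2 (LE N).symm.injective)
  have h4 : (((LE N).symm : EN N →ₗ[ℂ] (Fin (N + 1) → ℂ)) ∘ ![F z₂, deriv F z₂, w] : Fin 3 → Fin (N + 1) → ℂ) =
      ![(LE N).symm (F z₂), (LE N).symm (deriv F z₂), (LE N).symm w] := by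
    funext i
    fin_cases i <;> rfl
  rw [h4] at h3
  exact h3

end Pool.Agent.E2

end
end

section

/-!
# MQ3 RNe: a form which is not in the ideal does not vanish on a box
-/

set_option autoImplicit false

open Topology Filter Metric MvPolynomial

noncomputable section

namespace Pool.Agent.MQ3

open Pool.Agent.H36.BP (EN)
open Pool.Agent.H14.PP (Tan)
open Pool.Agent.H17BP (Surface IsChart)
open Pool.Agent.H17EF (projVar coneE)
open Pool.Agent.H62.FC (Homog)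
open Pool.Agent.H17LG.Variety (FunField)
open Pool.Agent.H13.SM (conTan)

variable {M : ℕ} {P : Ideal (MvPolynomial (Fin (M + 1)) ℂ)} {RD : MvPolynomial (Fin (M + 1)) ℂ} {m : ℕ}

/-- an analytic map with nonzero Jacobian is open -/
theorem map_nhds_jac {φ : ℂ × ℂ → ℂ × ℂ} {q : ℂ × ℂ} (h : AnalyticAt ℂ φ q)
    (hJ : (fderiv ℂ φ q (1, 0)).1 * (fderiv ℂ φ q (0, 1)).2 - (fderiv ℂ φ q (1, 0)).2 * (fderiv ℂ φ q (0, 1)).1 ≠ 0) : map φ (𝓝 q) = 𝓝 (φ q) := by
  refine h.hasStrictFDerivAt.map_nhds_eq_of_surj ?_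
  rw [LinearMap.range_eq_top]
  intro u
  set A := fderiv ℂ φ q (1, 0) with hA
  set B := fderiv ℂ φ q (0, 1) with hB
  refine ⟨((u.1 * B.2 - u.2 * B.1) / (A.1 * B.2 - A.2 * B.1), (A.1 * u.2 - A.2 * u.1) / (A.1 * B.2 - A.2 * B.1)), ?_⟩
  have h1 : ∀ a b : ℂ, fderiv ℂ φ q (a, b) = a • A + b • B := by
    intro a b
    have h2 : ((a, b) : ℂ × ℂ) = a • ((1 : ℂ), (0 : ℂ)) + b • ((0 : ℂ), (1 : ℂ)) := by
      ext <;> simp
    rw [h2, map_add, map_smul, map_smul]
  show fderiv ℂ φ q _ = u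
  rw [h1]
  ext
  · simp only [Prod.fst_add, Prod.smul_fst, smul_eq_mul]
    rw [div_mul_eq_mul_div, div_mul_eq_mul_div, ← add_div, div_eq_iff hJ]
    ring
  · simp only [Prod.snd_add, Prod.smul_snd, smul_eq_mul]
    rw [div_mul_eq_mul_div, div_mul_eq_mul_div, ← add_div, div_eq_iff hJ]
    ring

/-- the complement of the axes is dense -/
theorem frequently_off (q : ℂ × ℂ) : ∃ᶠ x in 𝓝 q, x.1 * x.2 ≠ 0 := by
  intro hcon
  have ht : Tendsto (fun t : ℂ => (q.1 + t, q.2 + t)) (𝓝 0) (𝓝 q) := by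
    have h4 : Continuous (fun t : ℂ => (q.1 + t, q.2 + t)) := by fun_prop
    have := h4.tendsto 0
    simpa using this
  have h1 : ∀ᶠ t : ℂ in 𝓝 0, (q.1 + t) * (q.2 + t) = 0 := by
    filter_upwards [ht.eventually hcon] with t ht
    exact not_not.1 ht
  have h2 : (fun t : ℂ => (q.1 + t) * (q.2 + t)) = 0 := by
    refine AnalyticOnNhd.eq_of_eventuallyEq (𝕜 := ℂ) (z₀ := (0 : ℂ)) (fun s _ => by fun_prop) (fun s _ => analyticAt_const) h1
  have h3 := congrFun h2 (1 + ‖q.1‖ + ‖q.2‖ : ℝ)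
  simp only [Pi.zero_apply] at h3
  have hne : ∀ a : ℂ, ‖a‖ < 1 + ‖q.1‖ + ‖q.2‖ → a + ((1 + ‖q.1‖ + ‖q.2‖ : ℝ) : ℂ) ≠ 0 := by
    intro a ha h0
    have h5 : a = -((1 + ‖q.1‖ + ‖q.2‖ : ℝ) : ℂ) := eq_neg_of_add_eq_zero_left h0
    rw [h5, norm_neg, Complex.norm_real, Real.norm_of_nonneg (by positivity)] at ha
    exact lt_irrefl _ ha
  rcases mul_eq_zero.1 h3 with h4 | h4
  · exact hne q.1 (by linarith [norm_nonneg q.2]) h4
  · exact hne q.2 (by linarith [norm_nonneg q.1]) h4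

/-- **A form which is not in the ideal does not vanish on a box.** -/
theorem rne_of [P.IsPrime] (hP : Homog P) {z : Fin 2 → FunField P} (hz : IsTranscendenceBasis ℂ z)
    (hsm : ∀ y : Fin (M + 1) → ℂ, y ≠ 0 → (∀ Q ∈ P, eval y Q = 0) → Module.finrank ℂ (conTan P y) ≤ 3) (X : NCModel P RD)
    {Ra : MvPolynomial (Fin (M + 1)) ℂ} {d : ℕ} (hd : Ra.IsHomogeneous d) (hRa : Ra ∉ P) : RNe X Ra := by
  intro i p hp hcon
  have hX : Surface (coneE P) := Pool.Agent.H90.SG.surface_coneE hP hz hsm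
  -- a point off the axes
  obtain ⟨p', h1, h2, h3⟩ := ((frequently_off p).and_eventually ((isOpen_DD.eventually_mem hp).and (eventually_eventually_nhds.2 hcon))).exists
  have hp' : p' ∈ DS := mem_DS.2 ⟨h2, h1⟩
  have hρ := (X.box i).an' hp'
  have hmem := (X.box i).mem' hp'
  obtain ⟨σ, τ, hσ, hσ0⟩ := hX.chart (X.ρ i p') hmem.self_of_nhds
  have hτ0 : τ (X.ρ i p') = 0 := by
    rw [← hσ0]
    exact hσ.left.self_of_nhds
  have hτa : AnalyticAt ℂ τ (X.ρ i p') := by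
    rw [← hσ0]
    exact hσ.τ_an
  have hφa : AnalyticAt ℂ (fun x => τ (X.ρ i x)) p' := AnalyticAt.fun_comp (g := τ) hτa hρ
  have hφd : ∀ w, fderiv ℂ (fun x => τ (X.ρ i x)) p' w = fderiv ℂ τ (X.ρ i p') (fderiv ℂ (X.ρ i) p' w) := by
    intro w
    have h4 : HasFDerivAt (fun x => τ (X.ρ i x)) ((fderiv ℂ τ (X.ρ i p')).comp (fderiv ℂ (X.ρ i) p')) p' :=
      HasFDerivAt.comp p' (g := τ) (f := X.ρ i) hτa.differentiableAt.hasFDerivAt hρ.differentiableAt.hasFDerivAt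
    rw [h4.fderiv]
    rfl
  -- the differential of `τ`
  have hτσ : ∀ u, fderiv ℂ τ (σ 0) (fderiv ℂ σ 0 u) = u := by
    intro u
    have h4 : HasFDerivAt (fun x => τ (σ x)) ((fderiv ℂ τ (σ 0)).comp (fderiv ℂ σ 0)) 0 :=
      HasFDerivAt.comp (0 : ℂ × ℂ) (g := τ) (f := σ) hσ.τ_an.differentiableAt.hasFDerivAt hσ.σ_an.differentiableAt.hasFDerivAt
    have h5 : HasFDerivAt (fun x => τ (σ x)) (ContinuousLinearMap.id ℂ (ℂ × ℂ)) 0 := (hasFDerivAt_id (0 : ℂ × ℂ)).congr_of_eventuallyEq hσ.left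
    have h6 := congrArg (fun L : ℂ × ℂ →L[ℂ] ℂ × ℂ => L u) (h4.unique h5)
    simpa using h6
  have hτr : fderiv ℂ τ (σ 0) (σ 0) = 0 := by
    have h4 : HasDerivAt (fun c : ℂ => c • σ 0) (σ 0) 1 := by
      have := (hasDerivAt_id (1 : ℂ)).smul_const (σ 0)
      simpa using this
    have h5 : HasFDerivAt τ (fderiv ℂ τ (σ 0)) ((1 : ℂ) • σ 0) := by
      rw [one_smul]
      exact hσ.τ_an.differentiableAt.hasFDerivAt
    have h6 : HasDerivAt (fun c : ℂ => τ (c • σ 0)) (fderiv ℂ τ (σ 0) (σ 0)) 1 := HasFDerivAt.comp_hasDerivAt (1 : ℂ) h5 h4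
    have ht : Tendsto (fun c : ℂ => ((σ 0, c) : EN M × ℂ)) (𝓝 1) (𝓝 (σ 0, 1)) := by
      have h : Continuous fun c : ℂ => ((σ 0, c) : EN M × ℂ) := by fun_prop
      exact h.tendsto 1
    have h7 : (fun c : ℂ => τ (c • σ 0)) =ᶠ[𝓝 1] fun _ => τ (σ 0) := ht.eventually hσ.inv
    have h8 := h6.deriv
    rw [h7.deriv_eq, deriv_const] at h8
    exact h8.symm
  have hnh : map (fun x => τ (X.ρ i x)) (𝓝 p') = 𝓝 (τ (X.ρ i p')) := by
    refine hφa.hasStrictFDerivAt.map_nhds_eq_of_surj ?_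
    rw [LinearMap.range_eq_top]
    intro u
    have h4 : Tan (coneE P) (X.ρ i p') (fderiv ℂ σ 0 u) := by
      rw [← hσ0]
      exact Pool.Agent.E1.ResL_tan hσ.σ_an hσ.σ_mem u
    obtain ⟨w, a, hw⟩ := (X.box i).span hX hp' _ h4
    refine ⟨w, ?_⟩
    show fderiv ℂ (fun x => τ (X.ρ i x)) p' w = u
    rw [hφd, ← hσ0]
    have h5 : fderiv ℂ (X.ρ i) p' w = fderiv ℂ σ 0 u - a • σ 0 := by
      rw [hw, hσ0, add_sub_cancel_right]
    rw [h5, map_sub, map_smul, hτσ, hτr, smul_zero, sub_zero]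
  rw [hτ0] at hnh
  -- contradiction
  have hthin := Pool.Agent.H90.SG.thin_coneE hP hz hsm hd hRa hσ
  rw [← hnh, frequently_map] at hthin
  have hright : ∀ᶠ x in 𝓝 p', ∃ c : ℂ, c ≠ 0 ∧ X.ρ i x = c • σ (τ (X.ρ i x)) := by
    have h4 : Tendsto (X.ρ i) (𝓝 p') (𝓝 (σ 0)) := by
      rw [hσ0]
      exact hρ.continuousAt.tendsto
    filter_upwards [h4.eventually hσ.right, hmem] with x x1 x2
    exact x1 x2
  obtain ⟨x, x1, x2, c, hc, x3⟩ := (hthin.and_eventually (h3.and hright)).exists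
  apply x1
  have h9 : eval (X.ρ i x).ofLp Ra = 0 := not_not.1 x2
  rw [x3] at h9
  have h10 : (c • σ (τ (X.ρ i x))).ofLp = c • (σ (τ (X.ρ i x))).ofLp := rfl
  rw [h10, Pool.Agent.H17EF.eval_smul_form hd] at h9
  exact (mul_eq_zero.1 h9).resolve_left (pow_ne_zero _ hc)

end Pool.Agent.MQ3

end
end

section

/-!
# MQ3 RegOff: the chart points which are not regular are isolated
-/

set_option autoImplicit false

open Topology Filter Metric MvPolynomial

noncomputable section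

namespace Pool.Agent.MQ3

open Pool.Agent.H36.BP (EN)
open Pool.Agent.H17BP (Surface)
open Pool.Agent.H17EF (projVar coneE)

variable {M : ℕ} {P : Ideal (MvPolynomial (Fin (M + 1)) ℂ)} {RD : MvPolynomial (Fin (M + 1)) ℂ} {m : ℕ} {X : NCModel P RD} {θ : WDiff (coneE P) m}
  {l : LF M} {S : Web X θ l} {Ra : MvPolynomial (Fin (M + 1)) ℂ}

theorem web_D_open (k : S.ι) : IsOpen (S.D k) := by
  have h1 : IsOpen ((S.c k).D) := isOpen_Dm
  have h2 : Continuous (S.κ k) := continuous_iff_continuousAt.2 fun q => (analyticAt_mono (w := (S.c k).w) (w' := (S.c k).w') q).continuousAt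
  exact h1.inter ((X.isOpen k.1).preimage h2)

/-- `Ra` is not identically zero near any point of a chart -/
theorem web_rne (hRa : RNe X Ra) (k : S.ι) {q : ℂ × ℂ} (hq : q ∈ S.D k) : ∃ᶠ x in 𝓝 q, eval (S.σ k x).ofLp Ra ≠ 0 := by
  intro hcon
  obtain ⟨q', h1, h2, h3⟩ := ((frequently_off q).and_eventually (((web_D_open k).eventually_mem hq).and (eventually_eventually_nhds.2 hcon))).exists
  have hκ : AnalyticAt ℂ (S.κ k) q' := analyticAt_mono (w := (S.c k).w) (w' := (S.c k).w') q'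
  have hJ := map_nhds_jac hκ (jac_mono_ne (ne_of_gt (S.c k).pos) h1)
  refine hRa k.1 (S.κ k q') (X.sub k.1 h2.2) ?_
  rw [← hJ, eventually_map]
  filter_upwards [h3] with x hx using hx

theorem reg_off {d dR : ℕ} (hd : RD.IsHomogeneous d) (hdR : Ra.IsHomogeneous dR) (hRa : RNe X Ra) (k : S.ι) : ∀ q ∈ S.D k, ∀ᶠ x in 𝓝[≠] q, Reg S Ra k x := by
  intro q hq
  have _ := hd
  have _ := hdR
  have hqD : q ∈ (S.c k).D := hq.1
  have hκ : AnalyticAt ℂ (S.κ k) q := analyticAt_mono (w := (S.c k).w) (w' := (S.c k).w') q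
  have hp : S.κ k q ∈ DD := X.sub k.1 hq.2
  have hσ : AnalyticAt ℂ (S.σ k) q := AnalyticAt.fun_comp (g := X.ρ k.1) (f := S.κ k) ((X.box k.1).an _ (le_of_lt hp.1) (le_of_lt hp.2)) hκ
  have hf : AnalyticAt ℂ (fun x => eval (S.σ k x).ofLp Ra) q := analyticAt_evalE hσ Ra
  have hmem : ∀ᶠ x in 𝓝[≠] q, x ∈ S.D k := ((web_D_open k).eventually_mem hq).filter_mono nhdsWithin_le_nhds
  filter_upwards [lreg_off ((S.c k).v_an q hqD) ((S.c k).v_iso q hqD) hf (web_rne hRa k hq), hmem] with x hx hxD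
  rcases hx with ⟨a1, a2, a3, a4, a5⟩ | ⟨b1, b2, b3⟩
  · exact Or.inl ⟨hxD, a1, a2, a3, a4, a5⟩
  · exact Or.inr ⟨hxD, b1, b2, b3⟩

end Pool.Agent.MQ3

end
end

section

/-!
# MQ3 RegO: the regular chart points form an open set
-/

set_option autoImplicit false

open Topology Filter Metric MvPolynomial

noncomputable section

namespace Pool.Agent.MQ3

open Pool.Agent.H36.BP (EN)
open Pool.Agent.H17BP (Surface)
open Pool.Agent.H17EF (projVar coneE)

variable {M : ℕ} {P : Ideal (MvPolynomial (Fin (M + 1)) ℂ)} {RD : MvPolynomial (Fin (M + 1)) ℂ} {m : ℕ} {X : NCModel P RD} {θ : WDiff (coneE P) m}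
  {l : LF M} {S : Web X θ l} {Ra : MvPolynomial (Fin (M + 1)) ℂ}

theorem web_v_cont {k : S.ι} {q : ℂ × ℂ} (hq : q ∈ S.D k) : ContinuousAt (S.v k) q := ((S.c k).v_an q hq.1).continuousAt

theorem regA_open {k : S.ι} {q : ℂ × ℂ} (h : RegA S Ra k q) : ∀ᶠ x in 𝓝 q, RegA S Ra k x := by
  have hv : ContinuousAt (S.v k) q := web_v_cont h.mem
  have h1 : ∀ᶠ x in 𝓝 q, x ∈ S.D k := (web_D_open k).eventually_mem h.mem
  have h2 : ∀ᶠ x in 𝓝 q, S.v k x ≠ 0 := hv.eventually_ne h.v_ne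
  have h3 : ∀ᶠ x in 𝓝 q, x ≠ 0 := continuousAt_id.eventually_ne h.ne
  have h4 : ∀ᶠ x in 𝓝 q, x.1 = 0 → (S.v k x).1 ≠ 0 ∨ ∀ᶠ y in 𝓝 x, y.1 = 0 → (S.v k y).1 = 0 := by
    by_cases hq : q.1 = 0
    · rcases h.ax₁ hq with g | g
      · filter_upwards [hv.fst.eventually_ne g] with x hx _ using Or.inl hx
      · filter_upwards [eventually_eventually_nhds.2 g] with x hx _ using Or.inr hx
    · filter_upwards [continuousAt_fst.eventually_ne hq] with x hx hx' using absurd hx' hx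
  have h5 : ∀ᶠ x in 𝓝 q, x.2 = 0 → (S.v k x).2 ≠ 0 ∨ ∀ᶠ y in 𝓝 x, y.2 = 0 → (S.v k y).2 = 0 := by
    by_cases hq : q.2 = 0
    · rcases h.ax₂ hq with g | g
      · filter_upwards [hv.snd.eventually_ne g] with x hx _ using Or.inl hx
      · filter_upwards [eventually_eventually_nhds.2 g] with x hx _ using Or.inr hx
    · filter_upwards [continuousAt_snd.eventually_ne hq] with x hx hx' using absurd hx' hx
  filter_upwards [h1, h2, h3, h4, h5, eventually_eventually_nhds.2 h.alg] with x a1 a2 a3 a4 a5 a6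
  exact ⟨a1, a2, a3, a4, a5, a6⟩

theorem reg_open {k : S.ι} {q : ℂ × ℂ} (h : Reg S Ra k q) : ∀ᶠ x in 𝓝 q, Reg S Ra k x := by
  rcases h with h | h
  · filter_upwards [regA_open h] with x hx using Or.inl hx
  obtain ⟨G, hG, hG0, hG1, hG2, hG3⟩ := h.crv
  have hv : ContinuousAt (S.v k) q := web_v_cont h.mem
  have hdG : ContinuousAt (fderiv ℂ G) q := hG.fderiv.continuousAt
  have h1 : ∀ᶠ x in 𝓝 q, x ∈ S.D k := (web_D_open k).eventually_mem h.mem
  have h2 : ∀ᶠ x in 𝓝 q, S.v k x ≠ 0 := hv.eventually_ne h.v_ne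
  have hmul : ContinuousAt (fun x : ℂ × ℂ => x.1 * x.2) q := by fun_prop
  have h3 : ∀ᶠ x in 𝓝 q, x.1 * x.2 ≠ 0 := hmul.eventually_ne h.ne
  have h4 : ∀ᶠ x in 𝓝 q, fderiv ℂ G x ≠ 0 := hdG.eventually_ne hG1
  have h5 : ∀ᶠ x in 𝓝 q, (fderiv ℂ G x (S.v k x) ≠ 0 ∨ ∀ᶠ y in 𝓝 x, G y = 0 → fderiv ℂ G y (S.v k y) = 0) := by
    rcases hG3 with g | g
    · filter_upwards [(hdG.clm_apply hv).eventually_ne g] with x hx using Or.inl hx
    · filter_upwards [eventually_eventually_nhds.2 g] with x hx using Or.inr hx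
  filter_upwards [h1, h2, h3, h4, h5, hG.eventually_analyticAt, eventually_eventually_nhds.2 hG2] with x a1 a2 a3 a4 a5 a6 a7
  have b1 : x.1 ≠ 0 := left_ne_zero_of_mul a3
  have b2 : x.2 ≠ 0 := right_ne_zero_of_mul a3
  by_cases hx : G x = 0
  · exact Or.inr ⟨a1, a2, a3, G, a6, hx, a4, a7, a5⟩
  · refine Or.inl ⟨a1, a2, fun e => b1 (by rw [e]; rfl), fun e => absurd e b1, fun e => absurd e b2, ?_⟩
    filter_upwards [a7, a6.continuousAt.eventually_ne hx] with y c1 c2 _ c3 using c2 (c1.1 c3)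

end Pool.Agent.MQ3

end
end

section

/-!
# MQ3 Cov: the cover
-/

set_option autoImplicit false

open Topology Filter Metric MvPolynomial MeasureTheory Laplacian

noncomputable section

namespace Pool.Agent.MQ3

open Pool.Agent.H36.BP (EN fs)
open Pool.Agent.H17EF (projVar coneE)

variable {M : ℕ} {P : Ideal (MvPolynomial (Fin (M + 1)) ℂ)} {RD : MvPolynomial (Fin (M + 1)) ℂ} {m : ℕ} {X : NCModel P RD} {θ : WDiff (coneE P) m}
  {l : LF M} {Ra : MvPolynomial (Fin (M + 1)) ℂ}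

theorem exists_cov {d dR : ℕ} (hd : RD.IsHomogeneous d) (hdR : Ra.IsHomogeneous dR) (hRa : RNe X Ra) (S : Web X θ l) (r₀ : S.ι → ℂ × ℂ → ℝ)
    (h₀ : ∀ k, ∀ q ∈ S.D k, 0 < r₀ k q) : ∃ C : Cov S Ra, ∀ j, C.r j ≤ r₀ (C.ck j) (C.Q j) := by
  refine exists_cov_aux ⟨fun F hF Y k z hz => ⟨Om_sub hF Y k hz, (lfN_mem hF Y k z hz).2⟩, fun F hF Y i z hz => lfN_cover hF Y i z hz⟩
    (reg_off hd hdR hRa) (fun i a a' q q' hq hq' => ?_) (fun k q hq h0 => ?_) (fun k q h => regA_open h) (fun k q h => reg_open h)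
    (fun k q h => locU_of_fib h (fib_iso h.mem h.ne)) r₀ h₀
  · rcases avatar (Ra := Ra) i a a' hq hq' with h | ⟨Φ, h1, h2, -, h3⟩
    · exact Or.inl h
    · exact Or.inr ⟨Φ, h1, h2, h3⟩
  · obtain ⟨ψ, -, h1, -, h2⟩ := fib_iso hq h0
    filter_upwards [h2] with x hx hxq
    rw [← hx, hxq, h1]

end Pool.Agent.MQ3

end
end
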