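import Pool.Agent.H94.G6.M120
import Pool.Agent.H94.G6.M165
import Pool.Agent.H94.G6.M70
import Pool.Agent.H94.G6.M96

/-! The parts of this file: MQ.SNBox, MQ.LForm, MQ.LFormT_1, MQ.LFormD. -/

section

/-!
# MQ/SNBox: saddle-nodes, the cut-offs in the box
-/

set_option autoImplicit false

open Topology Filter Asymptotics Complex Set ComplexConjugate Metric

noncomputable section

namespace Pool.Agent.MQ

variable {α : ℕ → ℂ} {k : ℕ} {ρ : ℝ} {c : ℕ → ℂ} {J n : ℕ}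

theorem pot_analytic {x : ℂ} (hx : x ≠ 0) : AnalyticAt ℂ (pot α k) x := by
  unfold pot
  exact ((PP_differentiable α k).analyticAt x).div (analyticAt_id.pow k) (pow_ne_zero k hx)

theorem pot_deriv {x : ℂ} (hx : x ≠ 0) : deriv (pot α k) x * x ^ (k + 1) = DD α k x := by
  have h1 : HasDerivAt (pot α k) ((deriv (PP α k) x * x ^ k - PP α k x * (k * x ^ (k - 1))) / (x ^ k) ^ 2) x := by
    have h2 := ((PP_differentiable α k).differentiableAt (x := x)).hasDerivAt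
    exact h2.div (hasDerivAt_pow k x) (pow_ne_zero k hx)
  rw [h1.deriv, ← PP_deriv]
  rcases Nat.eq_zero_or_pos k with h | h
  · subst h
    simp
    ring
  · obtain ⟨j, rfl⟩ : ∃ j, k = j + 1 := ⟨k - 1, by omega⟩
    simp only [Nat.add_sub_cancel]
    field_simp
    ring

open Classical in
/-- the first cut-off, a function of `x` -/
def XX (α : ℕ → ℂ) (k : ℕ) (ρ : ℝ) (x : ℂ) : ℝ := if x = 0 then 1 else hp (scl α k ρ * ‖pot α k x‖ ^ 2)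

/-- the second cut-off, a function of `Y` -/
def CC (n : ℕ) (ρ : ℝ) (Y : ℂ) : ℝ := hm ((1 / (ρ ^ n) ^ 2) * ‖Y‖ ^ 2)

/-- the imaginary part of the potential, cut off near `0` -/
def EEE (α : ℕ → ℂ) (k : ℕ) (ρ : ℝ) (x : ℂ) : ℝ := (1 - hm ((8 / ρ ^ 2) * ‖x‖ ^ 2)) * (pot α k x).im

theorem XX_ev_one (hk : 1 ≤ k) (h0 : α 0 ≠ 0) (hρ : 0 < ρ) : ∀ᶠ x in 𝓝 (0 : ℂ), XX α k ρ x = 1 := by
  have hP0 : 0 < ‖PP α k 0‖ := norm_pos_iff.2 (PP_zero hk h0)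
  have hPc : Continuous (PP α k) := (PP_differentiable α k).continuous
  have h1 : ∀ᶠ x in 𝓝 (0 : ℂ), ‖PP α k 0‖ / 2 < ‖PP α k x‖ :=
    (hPc.norm.tendsto 0).eventually (lt_mem_nhds (by linarith))
  have h2 : ∀ᶠ x in 𝓝 (0 : ℂ), 8 * ‖x‖ ^ (2 * k) < ρ ^ (2 * k) := by
    have hc : Continuous fun x : ℂ => 8 * ‖x‖ ^ (2 * k) := by fun_prop
    have ht : Tendsto (fun x : ℂ => 8 * ‖x‖ ^ (2 * k)) (𝓝 0) (𝓝 0) := by
      have := hc.tendsto 0
      simpa [zero_pow (by omega : 2 * k ≠ 0)] using this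
    exact ht.eventually (gt_mem_nhds (by positivity))
  filter_upwards [h1, h2] with x e1 e2
  unfold XX
  split_ifs with hx
  · rfl
  · apply hp_one
    have hxp : 0 < ‖x‖ := norm_pos_iff.2 hx
    have e3 : scl α k ρ * ‖pot α k x‖ ^ 2 = ρ ^ (2 * k) * ‖PP α k x‖ ^ 2 / (‖PP α k 0‖ ^ 2 * ‖x‖ ^ (2 * k)) := by
      rw [scl, pot, norm_div, norm_pow, pow_mul' ‖x‖]
      field_simp
    rw [e3, le_div_iff₀ (by positivity)]
    have e4 : ‖PP α k 0‖ ^ 2 ≤ 4 * ‖PP α k x‖ ^ 2 := by nlinarith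
    have hx2 : 0 < ‖x‖ ^ (2 * k) := by positivity
    calc 2 * (‖PP α k 0‖ ^ 2 * ‖x‖ ^ (2 * k)) ≤ 2 * (4 * ‖PP α k x‖ ^ 2 * ‖x‖ ^ (2 * k)) :=
          mul_le_mul_of_nonneg_left (mul_le_mul_of_nonneg_right e4 hx2.le) (by norm_num)
      _ = (8 * ‖x‖ ^ (2 * k)) * ‖PP α k x‖ ^ 2 := by ring
      _ ≤ ρ ^ (2 * k) * ‖PP α k x‖ ^ 2 := mul_le_mul_of_nonneg_right e2.le (by positivity)

theorem XX_ev {x : ℂ} (hx : x ≠ 0) : XX α k ρ =ᶠ[𝓝 x] fun y => hp (scl α k ρ * ‖pot α k y‖ ^ 2) := by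
  filter_upwards [isOpen_ne.mem_nhds hx] with y hy
  unfold XX
  rw [if_neg hy]

theorem XX_contDiff (hk : 1 ≤ k) (h0 : α 0 ≠ 0) (hρ : 0 < ρ) : ContDiff ℝ 2 (XX α k ρ) := by
  rw [contDiff_iff_contDiffAt]
  intro x
  by_cases hx : x = 0
  · rw [hx]
    exact contDiffAt_const.congr_of_eventuallyEq (XX_ev_one hk h0 hρ)
  · exact (contDiffAt_comp_normSq (n := 2) (pot_analytic hx) hp_contDiff).congr_of_eventuallyEq (XX_ev hx)

theorem XX_nonneg (x : ℂ) : 0 ≤ XX α k ρ x := by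
  unfold XX
  split_ifs
  · exact zero_le_one
  · exact hp_nonneg _

theorem XX_le (x : ℂ) : XX α k ρ x ≤ 1 := by
  unfold XX
  split_ifs
  · exact le_rfl
  · exact hp_le _

theorem CC_contDiff : ContDiff ℝ 2 (CC n ρ) := by
  unfold CC
  exact (hm_contDiff (n := 2)).comp (contDiff_const.mul (contDiff_id.norm_sq ℝ))

theorem CC_ev_one : ∀ᶠ Y in 𝓝 (0 : ℂ), CC n ρ Y = 1 := by
  have hc : Continuous fun Y : ℂ => (1 / (ρ ^ n) ^ 2) * ‖Y‖ ^ 2 := by fun_prop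
  have ht : Tendsto (fun Y : ℂ => (1 / (ρ ^ n) ^ 2) * ‖Y‖ ^ 2) (𝓝 0) (𝓝 0) := by
    have := hc.tendsto 0
    simpa using this
  filter_upwards [ht.eventually (gt_mem_nhds (show (0 : ℝ) < 1 / 2 by norm_num))] with Y hY using hm_one hY.le

theorem CC_zero (hρ : 0 < ρ) {Y : ℂ} (h : ρ ^ n ≤ ‖Y‖) : CC n ρ Y = 0 := by
  apply hm_zero
  have h1 : 0 < ρ ^ n := pow_pos hρ n
  rw [one_div, ← div_eq_inv_mul, le_div_iff₀ (by positivity), one_mul]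
  exact pow_le_pow_left₀ h1.le h 2

theorem CC_nonneg (Y : ℂ) : 0 ≤ CC n ρ Y := hm_nonneg _

theorem CC_le (Y : ℂ) : CC n ρ Y ≤ 1 := hm_le _

theorem EEE_ev_zero : ∀ᶠ x in 𝓝 (0 : ℂ), EEE α k ρ x = 0 := by
  have hc : Continuous fun Y : ℂ => (8 / ρ ^ 2) * ‖Y‖ ^ 2 := by fun_prop
  have ht : Tendsto (fun Y : ℂ => (8 / ρ ^ 2) * ‖Y‖ ^ 2) (𝓝 0) (𝓝 0) := by
    have := hc.tendsto 0
    simpa using this
  filter_upwards [ht.eventually (gt_mem_nhds (show (0 : ℝ) < 1 / 2 by norm_num))] with Y hY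
  rw [EEE, hm_one hY.le, sub_self, zero_mul]

theorem EEE_contDiff : ContDiff ℝ 2 (EEE α k ρ) := by
  rw [contDiff_iff_contDiffAt]
  intro x
  by_cases hx : x = 0
  · rw [hx]
    exact contDiffAt_const.congr_of_eventuallyEq EEE_ev_zero
  · unfold EEE
    have h1 : ContDiffAt ℝ 2 (pot α k) x := ((pot_analytic hx).contDiffAt (n := 2)).restrict_scalars ℝ
    have h2 : ContDiffAt ℝ 2 (fun y => (pot α k y).im) x := Complex.imCLM.contDiff.contDiffAt.comp x h1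
    have h3 : ContDiffAt ℝ 2 (fun y : ℂ => hm ((8 / ρ ^ 2) * ‖y‖ ^ 2)) x :=
      contDiffAt_comp_normSq (n := 2) (f := fun y => y) analyticAt_id hm_contDiff
    exact (contDiffAt_const.sub h3).mul h2

theorem EEE_ev (hρ : 0 < ρ) {x : ℂ} (hx : ρ / 2 ≤ ‖x‖) : EEE α k ρ =ᶠ[𝓝 x] fun y => (pot α k y).im := by
  have hc : Continuous fun Y : ℂ => (8 / ρ ^ 2) * ‖Y‖ ^ 2 := by fun_prop
  have h1 : 1 < (8 / ρ ^ 2) * ‖x‖ ^ 2 := by
    have h2 : (ρ / 2) ^ 2 ≤ ‖x‖ ^ 2 := pow_le_pow_left₀ (by positivity) hx 2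
    rw [div_mul_eq_mul_div, lt_div_iff₀ (by positivity)]
    nlinarith
  filter_upwards [hc.continuousAt.eventually (lt_mem_nhds h1)] with y hy
  rw [EEE, hm_zero hy.le, sub_zero, one_mul]

end Pool.Agent.MQ

end
end

section

/-!
# MQ/LForm: saddle-nodes, the field
-/

set_option autoImplicit false

open Topology Filter Asymptotics Complex Set ComplexConjugate Metric

noncomputable section

namespace Pool.Agent.MQ

variable {α : ℕ → ℂ} {k : ℕ} {ρ : ℝ} {c : ℕ → ℂ} {J n : ℕ} {g : ℂ → ℂ × ℂ}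

/-- `a = χ₁` along the curve -/
def f₁ (α : ℕ → ℂ) (k : ℕ) (ρ : ℝ) (g : ℂ → ℂ × ℂ) (w : ℂ) : ℝ := XX α k ρ (g w).1

/-- `χ₂` along the curve -/
def f₂ (c : ℕ → ℂ) (J n : ℕ) (ρ : ℝ) (g : ℂ → ℂ × ℂ) (w : ℂ) : ℝ := CC n ρ ((g w).2 - jet c J (g w).1)

/-- `χ₂ Im z` along the curve -/
def f₃ (α : ℕ → ℂ) (k : ℕ) (c : ℕ → ℂ) (J n : ℕ) (ρ : ℝ) (g : ℂ → ℂ × ℂ) (w : ℂ) : ℝ := f₂ c J n ρ g w * EEE α k ρ (g w).1

/-- the field -/
def snF (α : ℕ → ℂ) (k : ℕ) (c : ℕ → ℂ) (J n : ℕ) (ρ : ℝ) (D : ℂ → ℂ) (g : ℂ → ℂ × ℂ) (w : ℂ) : ℂ :=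
  ((1 - f₁ α k ρ g w * f₂ c J n ρ g w : ℝ) : ℂ) * conj (D w) + (f₁ α k ρ g w : ℂ) * (-I * gr (f₃ α k c J n ρ g) w)

theorem cd_pair {z : ℂ} (hg : AnalyticAt ℂ g z) {φ : ℂ × ℂ → ℝ} (hφ : ContDiff ℝ 2 φ) : ContDiffAt ℝ 2 (fun w => φ (g w)) z :=
  hφ.contDiffAt.comp z ((hg.contDiffAt (n := 2)).restrict_scalars ℝ)

theorem cd_XX (hk : 1 ≤ k) (h0 : α 0 ≠ 0) (hρ : 0 < ρ) : ContDiff ℝ 2 fun p : ℂ × ℂ => XX α k ρ p.1 :=
  (XX_contDiff hk h0 hρ).comp contDiff_fst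

theorem cd_jet (c : ℕ → ℂ) (J : ℕ) : ContDiff ℝ 2 fun p : ℂ × ℂ => p.2 - jet c J p.1 := by
  have h1 : ContDiff ℝ 2 (jet c J) := ((jet_differentiable c J).contDiff (n := 2)).restrict_scalars ℝ
  exact contDiff_snd.sub (h1.comp contDiff_fst)

theorem cd_CC (c : ℕ → ℂ) (J n : ℕ) (ρ : ℝ) : ContDiff ℝ 2 fun p : ℂ × ℂ => CC n ρ (p.2 - jet c J p.1) :=
  CC_contDiff.comp (cd_jet c J)

theorem cd_EE (α : ℕ → ℂ) (k : ℕ) (c : ℕ → ℂ) (J n : ℕ) (ρ : ℝ) :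
    ContDiff ℝ 2 fun p : ℂ × ℂ => CC n ρ (p.2 - jet c J p.1) * EEE α k ρ p.1 :=
  (cd_CC c J n ρ).mul (EEE_contDiff.comp contDiff_fst)

theorem cd_f₁ (hk : 1 ≤ k) (h0 : α 0 ≠ 0) (hρ : 0 < ρ) {z : ℂ} (hg : AnalyticAt ℂ g z) : ContDiffAt ℝ 2 (f₁ α k ρ g) z :=
  cd_pair hg (cd_XX hk h0 hρ)

theorem cd_f₂ {z : ℂ} (hg : AnalyticAt ℂ g z) : ContDiffAt ℝ 2 (f₂ c J n ρ g) z := cd_pair hg (cd_CC c J n ρ)

theorem cd_f₃ {z : ℂ} (hg : AnalyticAt ℂ g z) : ContDiffAt ℝ 2 (f₃ α k c J n ρ g) z := cd_pair hg (cd_EE α k c J n ρ)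

/-- near a pass the field is `0` -/
theorem snF_zero (hk : 1 ≤ k) (h0 : α 0 ≠ 0) (hρ : 0 < ρ) (hc : c 0 = 0) {z : ℂ} (hg : AnalyticAt ℂ g z) (hz : g z = 0) (D : ℂ → ℂ) :
    ∀ᶠ w in 𝓝 z, snF α k c J n ρ D g w = 0 := by
  have hg0 : Tendsto g (𝓝 z) (𝓝 0) := by
    have := hg.continuousAt.tendsto
    rwa [hz] at this
  have t1 : Tendsto (fun w => (g w).1) (𝓝 z) (𝓝 0) := (continuous_fst.tendsto (0 : ℂ × ℂ)).comp hg0
  have t2 : Tendsto (fun w => (g w).2 - jet c J (g w).1) (𝓝 z) (𝓝 0) := by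
    have hc2 : Continuous fun p : ℂ × ℂ => p.2 - jet c J p.1 := (cd_jet c J).continuous
    have h3 : Tendsto (fun w => (g w).2 - jet c J (g w).1) (𝓝 z) (𝓝 ((0 : ℂ × ℂ).2 - jet c J (0 : ℂ × ℂ).1)) :=
      (hc2.tendsto (0 : ℂ × ℂ)).comp hg0
    simpa [jet_zero hc] using h3
  have e1 := t1.eventually (XX_ev_one hk h0 hρ)
  have e2 := t2.eventually (CC_ev_one (n := n) (ρ := ρ))
  have e3 := t1.eventually (EEE_ev_zero (α := α) (k := k) (ρ := ρ))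
  have e4 : ∀ᶠ w in 𝓝 z, gr (f₃ α k c J n ρ g) w = 0 := by
    filter_upwards [e3.eventually_nhds] with w hw
    have : f₃ α k c J n ρ g =ᶠ[𝓝 w] fun _ => (0 : ℝ) := by
      filter_upwards [hw] with y hy
      rw [f₃, hy, mul_zero]
    rw [gr_congr this, gr_const]
  filter_upwards [e1, e2, e4] with w h1 h2 h4
  rw [snF, h4, f₁, f₂, h1, h2]
  simp

/-- `C¹` off the passes -/
theorem snF_contDiffAt (hk : 1 ≤ k) (h0 : α 0 ≠ 0) (hρ : 0 < ρ) {z : ℂ} (hg : AnalyticAt ℂ g z) {D : ℂ → ℂ} (hD : AnalyticAt ℂ D z) :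
    ContDiffAt ℝ 1 (snF α k c J n ρ D g) z := by
  have h1 : ContDiffAt ℝ 1 (f₁ α k ρ g) z := (cd_f₁ hk h0 hρ hg).of_le (by norm_num)
  have h2 : ContDiffAt ℝ 1 (f₂ c J n ρ g) z := (cd_f₂ hg).of_le (by norm_num)
  have h3 : ContDiffAt ℝ 1 (gr (f₃ α k c J n ρ g)) z := contDiffAt_gr (cd_f₃ hg) (by norm_num)
  have h4 : ContDiffAt ℝ 1 (fun w => conj (D w)) z := contDiffAt_conj_holo hD
  have h5 : ContDiffAt ℝ 1 (fun w => ((1 - f₁ α k ρ g w * f₂ c J n ρ g w : ℝ) : ℂ)) z :=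
    Complex.ofRealCLM.contDiff.contDiffAt.comp z (contDiffAt_const.sub (h1.mul h2))
  have h6 : ContDiffAt ℝ 1 (fun w => ((f₁ α k ρ g w : ℝ) : ℂ)) z := Complex.ofRealCLM.contDiff.contDiffAt.comp z h1
  unfold snF
  exact (h5.mul h4).add (h6.mul (contDiffAt_const.mul h3))

/-- the divergence of the field -/
theorem snF_dv (hk : 1 ≤ k) (h0 : α 0 ≠ 0) (hρ : 0 < ρ) {z : ℂ} (hg : AnalyticAt ℂ g z) {D : ℂ → ℂ} (hD : AnalyticAt ℂ D z) :
    -dv (snF α k c J n ρ D g) z = ip ((f₂ c J n ρ g z : ℂ) * gr (f₁ α k ρ g) z + (f₁ α k ρ g z : ℂ) * gr (f₂ c J n ρ g) z) (conj (D z)) -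
      (conj (gr (f₁ α k ρ g) z) * gr (f₃ α k c J n ρ g) z).im := by
  have h1 : DifferentiableAt ℝ (f₁ α k ρ g) z := (cd_f₁ hk h0 hρ hg).differentiableAt (by norm_num)
  have h2 : DifferentiableAt ℝ (f₂ c J n ρ g) z := (cd_f₂ hg).differentiableAt (by norm_num)
  have h3 : ContDiffAt ℝ 2 (f₃ α k c J n ρ g) z := cd_f₃ hg
  have h4 : DifferentiableAt ℝ (fun w => conj (D w)) z := (contDiffAt_conj_holo (n := 1) hD).differentiableAt one_ne_zero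
  have h5 : DifferentiableAt ℝ (fun w => (1 : ℝ) - f₁ α k ρ g w * f₂ c J n ρ g w) z := (differentiableAt_const _).sub (h1.mul h2)
  have h6 : DifferentiableAt ℝ (fun w => (((1 - f₁ α k ρ g w * f₂ c J n ρ g w : ℝ)) : ℂ) * conj (D w)) z :=
    (Complex.ofRealCLM.differentiableAt.comp z h5).mul h4
  have h7 : DifferentiableAt ℝ (fun w => (f₁ α k ρ g w : ℂ) * (-I * gr (f₃ α k c J n ρ g) w)) z :=
    (Complex.ofRealCLM.differentiableAt.comp z h1).mul ((differentiableAt_gr h3).const_mul _)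
  have e1 : dv (snF α k c J n ρ D g) z = dv (fun w => (((1 - f₁ α k ρ g w * f₂ c J n ρ g w : ℝ)) : ℂ) * conj (D w)) z +
      dv (fun w => (f₁ α k ρ g w : ℂ) * (-I * gr (f₃ α k c J n ρ g) w)) z := dv_add h6 h7
  rw [e1, dv_mul h5 h4, dv_conj hD.differentiableAt, dv_rot_gr h1 h3, ip_rot]
  have e2 : gr (fun w => (1 : ℝ) - f₁ α k ρ g w * f₂ c J n ρ g w) z =
      -((f₂ c J n ρ g z : ℂ) * gr (f₁ α k ρ g) z + (f₁ α k ρ g z : ℂ) * gr (f₂ c J n ρ g) z) := by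
    have e5 : gr (fun w => (1 : ℝ) - f₁ α k ρ g w * f₂ c J n ρ g w) z = gr (fun _ : ℂ => (1 : ℝ)) z -
        gr (fun w => f₁ α k ρ g w * f₂ c J n ρ g w) z :=
      gr_sub (u := fun _ => (1 : ℝ)) (v := fun w => f₁ α k ρ g w * f₂ c J n ρ g w) (differentiableAt_const _) (h1.mul h2)
    have e3 : gr (fun _ : ℂ => (1 : ℝ)) z = 0 := gr_const 1 z
    have e4 : gr (fun w => f₁ α k ρ g w * f₂ c J n ρ g w) z = (f₁ α k ρ g z : ℂ) * gr (f₂ c J n ρ g) z + (f₂ c J n ρ g z : ℂ) * gr (f₁ α k ρ g) z :=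
      gr_mul h1 h2
    rw [e5, e3, e4]
    ring
  rw [e2, ip_neg_left]
  ring

/-- **The pointwise inequality.**  `ζ` is `ζ'`, `θ = δ ζ'`. -/
theorem snF_le (hk : 1 ≤ k) (h0 : α 0 ≠ 0) (hρ : 0 < ρ) {C B r : ℝ} (hC : 0 < C) (hB : 0 < B) (hB1 : ∀ s, HH₁ s ≤ B) (hB2 : ∀ t, HH₂ t ≤ B)
    (hscl : ∀ x : ℂ, ‖x‖ ≤ r → 1 ≤ scl α k ρ * ‖pot α k x‖ ^ 2 → ‖x‖ ≤ 2 * ρ ∧ (scl α k ρ * ‖pot α k x‖ ^ 2 ≤ 2 → ρ / 2 ≤ ‖x‖))
    {z : ℂ} (hg : AnalyticAt ℂ g z) (hr : ‖(g z).1‖ ≤ r) {D : ℂ → ℂ} (hD : AnalyticAt ℂ D z) {ζ δ av Yv : ℂ}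
    (hDz : D z = δ * ζ) (hx' : (deriv g z).1 = (g z).1 ^ (k + 1) * av * ζ) (hY' : deriv (fun w => (g w).2 - jet c J (g w).1) z = Yv * ζ)
    (ht : ‖(g z).1‖ ≤ 2 * ρ → ‖(g z).2 - jet c J (g z).1‖ ≤ ρ ^ n →
      (ρ / 2 ≤ ‖(g z).1‖ → ∀ w : ℂ, ‖δ * w - DD α k (g z).1 * av * w‖ ≤ C * ‖(pot α k (g z).1)⁻¹‖ * ‖DD α k (g z).1 * av * w‖ ∧
        ‖DD α k (g z).1 * av * w * (pot α k (g z).1)⁻¹‖ ≤ C * ‖(g z).1 ^ k * av * w‖) ∧
      (ρ ^ n ≤ 2 * ‖(g z).2 - jet c J (g z).1‖ → ρ / 2 ≤ ‖(g z).1‖ → ∀ w : ℂ,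
        ‖Yv / ((g z).2 - jet c J (g z).1) * w - DD α k (g z).1 * av * w‖ ≤
          C * ‖(pot α k (g z).1)⁻¹‖ * ‖DD α k (g z).1 * av * w‖) ∧
      (ρ ^ n ≤ 2 * ‖(g z).2 - jet c J (g z).1‖ → ∀ w : ℂ,
        0 ≤ (conj (Yv / ((g z).2 - jet c J (g z).1) * w) * (δ * w)).re)) :
    -dv (snF α k c J n ρ D g) z ≤ 0 ∨ ρ / 2 ≤ ‖(g z).1‖ ∧ ‖(g z).1‖ ≤ 2 * ρ ∧ ‖(g z).2 - jet c J (g z).1‖ ≤ ρ ^ n ∧
      -dv (snF α k c J n ρ D g) z ≤ (C + B * C ^ 2) * (B * (C ^ 2 * ‖(deriv g z).1 / (g z).1‖ ^ 2)) := by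
  rw [snF_dv hk h0 hρ hg hD]
  set x := (g z).1 with hx
  set Y := (g z).2 - jet c J x with hY
  set t := (1 / (ρ ^ n) ^ 2) * ‖Y‖ ^ 2 with htdef
  have hρn : 0 < ρ ^ n := pow_pos hρ n
  have hgd : DifferentiableAt ℂ g z := hg.differentiableAt
  have han1 : AnalyticAt ℂ (fun w => (g w).1) z := an_fst hg
  have hYan : AnalyticAt ℂ (fun w => (g w).2 - jet c J (g w).1) z := (an_snd hg).sub ((jet_analytic c J _).fun_comp han1)
  -- the gradient of the second cut-off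
  have gr2 : gr (f₂ c J n ρ g) z = -(HH₂ t : ℂ) * conj (Yv / Y * ζ) := by
    have h1 : f₂ c J n ρ g = fun w => hm ((1 / (ρ ^ n) ^ 2) * ‖(g w).2 - jet c J (g w).1‖ ^ 2) := rfl
    rw [h1, gr_hm hYan.differentiableAt, hY']
    congr 2
    rw [← hY]
    ring
  have hHt : HH₂ t ≠ 0 → ‖Y‖ ≤ ρ ^ n ∧ ρ ^ n ≤ 2 * ‖Y‖ := by
    intro h
    by_contra hcon
    apply h
    apply HH₂_zero
    rw [htdef, one_div, ← div_eq_inv_mul]
    by_cases h1 : ‖Y‖ ≤ ρ ^ n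
    · left
      have h2 : 2 * ‖Y‖ < ρ ^ n := by
        by_contra h3
        exact hcon ⟨h1, not_lt.1 h3⟩
      rw [div_le_iff₀ (by positivity)]
      have h3 := norm_nonneg Y
      nlinarith
    · right
      push Not at h1
      rw [le_div_iff₀ (by positivity), one_mul]
      exact pow_le_pow_left₀ hρn.le h1.le 2
  have hf2 : f₂ c J n ρ g z ≠ 0 → ‖Y‖ ≤ ρ ^ n := by
    intro h
    by_contra hcon
    push Not at hcon
    exact h (CC_zero hρ hcon.le)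
  have hf1 : f₁ α k ρ g z ≠ 0 → ‖x‖ ≤ 2 * ρ := by
    intro h
    by_cases hx0 : x = 0
    · rw [hx0, norm_zero]
      positivity
    · have h2 : f₁ α k ρ g z = hp (scl α k ρ * ‖pot α k x‖ ^ 2) := by
        rw [f₁, XX, if_neg hx0]
      by_cases h3 : scl α k ρ * ‖pot α k x‖ ^ 2 ≤ 1
      · rw [h2, hp_zero h3] at h
        exact absurd rfl h
      · exact (hscl x hr (not_le.1 h3).le).1
  have hpos : HH₂ t ≠ 0 → f₁ α k ρ g z ≠ 0 → 0 ≤ (conj (Yv / Y * ζ) * (δ * ζ)).re := by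
    intro h1 h2
    obtain ⟨h3, h4⟩ := hHt h1
    exact (ht (hf1 h2) h3).2.2 h4 ζ
  by_cases hH : x ≠ 0 ∧ 1 < scl α k ρ * ‖pot α k x‖ ^ 2 ∧ scl α k ρ * ‖pot α k x‖ ^ 2 < 2
  · obtain ⟨hx0, hs1, hs2⟩ := hH
    obtain ⟨hx2, hxl'⟩ := hscl x hr hs1.le
    have hxl : ρ / 2 ≤ ‖x‖ := hxl' hs2.le
    clear hxl'
    have hpot : pot α k x ≠ 0 := by
      intro h
      rw [h] at hs1
      simp at hs1
      linarith
    set Z := DD α k x * av * ζ with hZ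
    have hpan : AnalyticAt ℂ (fun w => pot α k (g w).1) z := (pot_analytic hx0).fun_comp han1
    have hpd : deriv (fun w => pot α k (g w).1) z = Z := by
      have h1 : HasDerivAt (fun w => (g w).1) (deriv g z).1 z := by
        have := han1.differentiableAt.hasDerivAt
        rwa [deriv_fst' hgd] at this
      have h2 : HasDerivAt (fun w => pot α k (g w).1) (deriv (pot α k) x * (deriv g z).1) z :=
        HasDerivAt.comp z (h₂ := pot α k) (pot_analytic hx0).differentiableAt.hasDerivAt h1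
      rw [h2.deriv, hx', hZ, ← pot_deriv (α := α) (k := k) hx0]
      ring
    have gr1 : gr (f₁ α k ρ g) z = (HH₁ (scl α k ρ * ‖pot α k x‖ ^ 2) : ℂ) * conj (Z * (pot α k x)⁻¹) := by
      have h1 : f₁ α k ρ g =ᶠ[𝓝 z] fun w => hp (scl α k ρ * ‖pot α k (g w).1‖ ^ 2) := by
        filter_upwards [han1.continuousAt.eventually_ne hx0] with w hw
        rw [f₁, XX, if_neg hw]
      rw [gr_congr h1, gr_hp (f := fun w => pot α k (g w).1) hpan.differentiableAt hpot, hpd]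
    have gr3 : gr (f₃ α k c J n ρ g) z = (f₂ c J n ρ g z : ℂ) * (I * conj Z) + ((pot α k x).im : ℂ) * gr (f₂ c J n ρ g) z := by
      have h1 : f₃ α k c J n ρ g =ᶠ[𝓝 z] fun w => f₂ c J n ρ g w * (pot α k (g w).1).im := by
        have h2 : ∀ᶠ w in 𝓝 z, EEE α k ρ (g w).1 = (pot α k (g w).1).im := han1.continuousAt.eventually (EEE_ev hρ hxl)
        filter_upwards [h2] with w hw
        rw [f₃, hw]
      have h3 : DifferentiableAt ℝ (f₂ c J n ρ g) z := (cd_f₂ hg).differentiableAt (by norm_num)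
      have h4 : DifferentiableAt ℝ (fun w => (pot α k (g w).1).im) z :=
        Complex.imCLM.differentiableAt.comp z (hpan.differentiableAt.restrictScalars ℝ)
      rw [gr_congr h1, gr_mul h3 h4, gr_im_holo (G := fun w => pot α k (g w).1) hpan.differentiableAt, hpd]
    set s := scl α k ρ * ‖pot α k x‖ ^ 2 with hs
    set ω := (pot α k x)⁻¹ with hω
    have hω0 : ω ≠ 0 := inv_ne_zero hpot
    have him : (pot α k x).im = -ω.im / ‖ω‖ ^ 2 := by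
      have h1 : pot α k x = ω⁻¹ := by rw [hω, inv_inv]
      rw [h1, Complex.inv_im, Complex.normSq_eq_norm_sq]
    by_cases hYn : ‖Y‖ ≤ ρ ^ n
    · right
      refine ⟨hxl, hx2, hYn, ?_⟩
      obtain ⟨ht1, ht2, ht3⟩ := ht hx2 hYn
      have hsn := sn_point (ω := ω) (Z := Z) (θ := δ * ζ) (μ := Yv / Y * ζ) (c₁ := f₁ α k ρ g z) (c₂ := f₂ c J n ρ g z) (H₁ := HH₁ s) (H₂ := HH₂ t)
        (C := C) (Hm := B) hω0 (XX_nonneg _) (CC_nonneg _) (CC_le _) (HH₁_nonneg s) (HH₂_nonneg t) (hB2 t) hC.le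
        (fun _ _ => (ht1 hxl ζ).1) (fun _ h2 => ht2 (hHt h2).2 hxl ζ) hpos
      have e1 : (conj (gr (f₁ α k ρ g) z) * gr (f₃ α k c J n ρ g) z).im =
          f₂ c J n ρ g z * (HH₁ s * (‖Z‖ ^ 2 * ω.re)) + (-ω.im / ‖ω‖ ^ 2) * (-(HH₁ s * HH₂ t) * (Z * ω * conj (Yv / Y * ζ)).im) := by
        rw [gr1, gr3, gr2, him]
        have e2 : conj ((HH₁ s : ℂ) * conj (Z * ω)) = (HH₁ s : ℂ) * (Z * ω) := by
          rw [map_mul, Complex.conj_conj, Complex.conj_ofReal]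
        rw [e2]
        have e3 : (HH₁ s : ℂ) * (Z * ω) * ((f₂ c J n ρ g z : ℂ) * (I * conj Z) + ((-ω.im / ‖ω‖ ^ 2 : ℝ) : ℂ) * (-(HH₂ t : ℂ) * conj (Yv / Y * ζ))) =
          ((f₂ c J n ρ g z * HH₁ s : ℝ) : ℂ) * (I * (Z * ω * conj Z)) +
            (((-ω.im / ‖ω‖ ^ 2) * (-(HH₁ s * HH₂ t)) : ℝ) : ℂ) * (Z * ω * conj (Yv / Y * ζ)) := by
          push_cast
          ring
        have e4 : (I * (Z * ω * conj Z)).im = ‖Z‖ ^ 2 * ω.re := by
          rw [Complex.sq_norm, Complex.normSq_apply]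
          simp only [mul_re, mul_im, conj_re, conj_im, I_re, I_im]
          ring
        rw [e3, add_im, Complex.im_ofReal_mul, Complex.im_ofReal_mul, e4]
        ring
      rw [e1, gr1, gr2, hDz]
      have e5 : ‖Z * ω‖ ≤ C * ‖(deriv g z).1 / x‖ := by
        have e6 : (deriv g z).1 / x = x ^ k * av * ζ := by
          rw [hx', pow_succ]
          field_simp
        rw [e6]
        exact (ht1 hxl ζ).2
      have e7 : HH₁ s * ‖Z * ω‖ ^ 2 ≤ B * (C ^ 2 * ‖(deriv g z).1 / x‖ ^ 2) := by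
        have e8 : ‖Z * ω‖ ^ 2 ≤ (C * ‖(deriv g z).1 / x‖) ^ 2 := pow_le_pow_left₀ (norm_nonneg _) e5 2
        rw [mul_pow] at e8
        exact mul_le_mul (hB1 s) e8 (by positivity) hB.le
      have e9 : (C + B * C ^ 2) * (HH₁ s * ‖Z * ω‖ ^ 2) ≤ (C + B * C ^ 2) * (B * (C ^ 2 * ‖(deriv g z).1 / x‖ ^ 2)) :=
        mul_le_mul_of_nonneg_left e7 (by positivity)
      linarith
    · left
      have h1 : f₂ c J n ρ g z = 0 := by
        by_contra h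
        exact hYn (hf2 h)
      have h2 : HH₂ t = 0 := by
        by_contra h
        exact hYn (hHt h).1
      rw [gr3, gr2, h1, h2]
      simp
  · left
    have gr1 : gr (f₁ α k ρ g) z = 0 := by
      by_cases hx0 : x = 0
      · have h1 : f₁ α k ρ g =ᶠ[𝓝 z] fun _ => 1 := by
          have h2 : Tendsto (fun w => (g w).1) (𝓝 z) (𝓝 0) := by
            have := han1.continuousAt.tendsto
            rwa [← hx, hx0] at this
          exact h2.eventually (XX_ev_one hk h0 hρ)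
        rw [gr_congr h1, gr_const]
      · have h1 : f₁ α k ρ g =ᶠ[𝓝 z] fun w => hp (scl α k ρ * ‖pot α k (g w).1‖ ^ 2) := by
          filter_upwards [han1.continuousAt.eventually_ne hx0] with w hw
          rw [f₁, XX, if_neg hw]
        have hpan : AnalyticAt ℂ (fun w => pot α k (g w).1) z := (pot_analytic hx0).fun_comp han1
        rw [gr_congr h1, gr_comp_normSq hpan.differentiableAt ((hp_contDiff (n := 1)).differentiable one_ne_zero _)]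
        have h2 : deriv hp (scl α k ρ * ‖pot α k (g z).1‖ ^ 2) = 0 := by
          rw [deriv_hp]
          apply Pool.Agent.H30M.deriv_st_eq_zero
          by_cases h3 : scl α k ρ * ‖pot α k x‖ ^ 2 ≤ 1
          · left; rw [← hx]; linarith
          · right
            have h4 : ¬ scl α k ρ * ‖pot α k x‖ ^ 2 < 2 := fun h4 => hH ⟨hx0, not_le.1 h3, h4⟩
            rw [← hx]
            linarith
        rw [h2]
        simp
    rw [gr1, gr2, mul_zero, zero_add, map_zero, zero_mul, zero_im, sub_zero, hDz]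
    have e1 : ip ((f₁ α k ρ g z : ℂ) * (-(HH₂ t : ℂ) * conj (Yv / Y * ζ))) (conj (δ * ζ)) =
        -(f₁ α k ρ g z * (HH₂ t * (conj (Yv / Y * ζ) * (δ * ζ)).re)) := by
      simp only [ip, map_mul, mul_re, mul_im, conj_re, conj_im, ofReal_re, ofReal_im, neg_re, neg_im]
      ring
    rw [e1, neg_nonpos]
    by_cases h1 : HH₂ t = 0
    · rw [h1]; simp
    by_cases h2 : f₁ α k ρ g z = 0
    · rw [h2]; simp
    exact mul_nonneg (XX_nonneg _) (mul_nonneg (HH₂_nonneg t) (hpos h1 h2))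

end Pool.Agent.MQ

end
end

section

/-!
# MQ/LFormT: saddle-nodes with a formal weak separatrix, the normal bundle half of the local package, in one variable
-/

set_option autoImplicit false

open Topology Filter Asymptotics Complex Set ComplexConjugate Metric MeasureTheory

noncomputable section

namespace Pool.Agent.MQ

open Pool.Agent.H36.BP (EN fs)
open Pool.Agent.H30M (tau tau_nonneg)

theorem localN1_aux {k : ℕ} (hk : 1 ≤ k) {a b : ℂ × ℂ → ℂ} (ha : AnalyticAt ℂ a 0) (hb : AnalyticAt ℂ b 0) (ha0 : a 0 ≠ 0)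
    (hb0 : fderiv ℂ b 0 (0, 1) ≠ 0) {c : ℕ → ℂ} (hc : c 0 = 0)
    (hJ : ∀ J, (fun t => b (t, jet c J t) - deriv (jet c J) t * (t ^ (k + 1) * a (t, jet c J t))) =O[𝓝 0] fun t : ℂ => t ^ (J + 1)) (ε : ℂ) :
    ∃ C₀ : ℝ, 0 ≤ C₀ ∧ ∀ {r : ℝ} (_ : 0 < r) (_ : AnalyticOnNhd ℂ a (closedBall 0 r)) (_ : AnalyticOnNhd ℂ b (closedBall 0 r))
      {v : ℂ × ℂ → ℂ × ℂ} (_ : ∀ p, v p = (p.1 ^ (k + 1) * a p, b p)) (_ : ∀ p ∈ closedBall (0 : ℂ × ℂ) r, v p = 0 → p = 0)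
      {q : ℂ × ℂ → ℂ} (_ : AnalyticAt ℂ q 0) {N : ℕ} (_ : 1 ≤ N) (_ : ∀ J, N ≤ J → analyticOrderAt (fun t => q (t, jet c J t)) 0 = N)
      {ψ : ℂ × ℂ → ℝ} (_ : ContDiffAt ℝ 1 ψ 0) (d : ℕ) {M : ℕ} {F : ℂ → EN M} (_ : Differentiable ℂ F) (_ : ∀ z, F z ≠ 0)
      {Qf : ℂ → ℂ} (_ : Differentiable ℂ Qf) (_ : ∀ z, ‖Qf z‖ ≤ ‖F z‖ ^ d) {c' : ℝ} (_ : 0 < c') {Om : Set ℂ} {g : ℂ → ℂ × ℂ}
      (_ : Crv1 v r Om g) (_ : ∀ z ∈ Om, ‖Qf z‖ * Real.exp (d * ψ (g z)) = c' * ‖q (g z)‖ * ‖F z‖ ^ d)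
      {D : ℂ → ℂ} (_ : ∀ z ∈ Om, g z ≠ 0 → D z = dlt k a b ε (g z) * ztv v g z) {s : ℝ} (_ : 0 < s) (_ : s < r),
      ∃ (C : ℝ) (η : ℂ → ℂ) (err : ℂ → ℝ), 0 ≤ C ∧ ContDiffOn ℝ 1 η Om ∧ ContinuousOn err Om ∧
        (∀ z ∈ Om, g z ∉ ball (0 : ℂ × ℂ) s → η z = conj (D z) ∧ err z = 0) ∧
        (∀ z ∈ Om, g z ∈ ball (0 : ℂ × ℂ) s → ‖η z‖ ≤ C * ‖deriv g z‖) ∧ (∀ z ∈ Om, 0 ≤ err z) ∧
        (∀ z ∈ Om, 0 ≤ dv η z + err z) ∧
        ∀ R, 1 ≤ R → ∫ z in Om, tau R z * err z ≤ (C₀ * d / N) * En F R + C * Len F R + C := by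
  obtain ⟨C, α, hC, hα, htube⟩ := sn_tube hk ha hb ha0 hb0 hc hJ ε
  obtain ⟨B, hB, hB1, hB2⟩ := HH_bdd
  set C₂ : ℝ := (C + B * C ^ 2) * (B * C ^ 2) with hC₂
  have hC₂0 : 0 < C₂ := by positivity
  refine ⟨192 * C₂, by positivity, ?_⟩
  intro r hr haa hbb v hv hv0 q hq N hN hord ψ hψ d M F hF hF0 Qf hQf hQF c' hc' Om g hg hrel D hD s hs hsr
  have hN0 : (0 : ℝ) < N := by exact_mod_cast hN
  set J := N + 3 * k + 3 with hJdef
  set n := N + 2 * k + 2 with hn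
  have hball2 : ball (0 : ℂ × ℂ) (s / 2) ∈ 𝓝 (0 : ℂ × ℂ) := ball_mem_nhds _ (by positivity)
  obtain ⟨ρ, hρt, hρs, hρsh, hρb, hρ0⟩ := ((htube N).and ((scl_pos hk hα r).and ((sn_shell hk ha hb ha0 hc hJ hq hN hord hψ d).and
    ((tube_small hc J (show 1 ≤ n by omega) hball2).and self_mem_nhdsWithin)))).exists
  have hρ : 0 < ρ := hρ0
  obtain ⟨b₀, hb₀⟩ := hρsh c' hc'
  set η : ℂ → ℂ := snF α k c J n ρ D g with hη
  -- basic facts
  have hmemc : ∀ z ∈ Om, g z ∈ closedBall (0 : ℂ × ℂ) r := fun z hz => ball_subset_closedBall (hg.mem z hz)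
  have hx_le : ∀ z ∈ Om, ‖(g z).1‖ ≤ r := fun z hz => (norm_fst_le (g z)).trans (mem_closedBall_zero_iff.1 (hmemc z hz))
  have hvz : ∀ z ∈ Om, g z ≠ 0 → v (g z) ≠ 0 := fun z hz h0 h1 => h0 (hv0 _ (hmemc z hz) h1)
  have hDev : ∀ z ∈ Om, g z ≠ 0 → D =ᶠ[𝓝 z] fun w => dlt k a b ε (g w) * ztv v g w := by
    intro z hz h0
    filter_upwards [hg.isOpen.mem_nhds hz, (hg.an z hz).continuousAt.eventually_ne h0] with w hw hw0 using hD w hw hw0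
  have hDan : ∀ z ∈ Om, g z ≠ 0 → AnalyticAt ℂ D z := by
    intro z hz h0
    have h1 : AnalyticAt ℂ (fun w => dlt k a b ε (g w)) z :=
      AnalyticAt.fun_comp (g := dlt k a b ε) (dlt_analytic (haa _ (hmemc z hz)) (hbb _ (hmemc z hz)) ε) (hg.an z hz)
    have h2 : AnalyticAt ℂ (ztv v g) z := hg.an_ztv hz (v_analytic hv (haa _ (hmemc z hz)) (hbb _ (hmemc z hz))) (hvz z hz h0)
    exact (h1.mul h2).congr (hDev z hz h0).symm
  have hηC1 : ∀ z ∈ Om, ContDiffAt ℝ 1 η z := by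
    intro z hz
    by_cases h0 : g z = 0
    · have h1 : η =ᶠ[𝓝 z] fun _ => 0 := snF_zero hk hα hρ hc (hg.an z hz) h0 D
      exact contDiffAt_const.congr_of_eventuallyEq h1
    · exact snF_contDiffAt hk hα hρ (hg.an z hz) (hDan z hz h0)
  have hdvc : ∀ z ∈ Om, ContinuousAt (dv η) z := by
    intro z hz
    have h1 : ContinuousAt (fderiv ℝ η) z := (hηC1 z hz).continuousAt_fderiv one_ne_zero
    have h2 : ContinuousAt (fun w => (fderiv ℝ η w 1).re + (fderiv ℝ η w I).im) z :=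
      (Complex.continuous_re.continuousAt.comp (h1.clm_apply continuousAt_const)).add
        (Complex.continuous_im.continuousAt.comp (h1.clm_apply continuousAt_const))
    exact h2
  -- the derivatives along the curve
  have hd1 : ∀ z ∈ Om, g z ≠ 0 → (deriv g z).1 = (g z).1 ^ (k + 1) * a (g z) * ztv v g z := by
    intro z hz h0
    rw [hg.deriv_fst hz (hvz z hz h0), hv]
    ring
  have hd2 : ∀ z ∈ Om, g z ≠ 0 → deriv (fun w => (g w).2 - jet c J (g w).1) z = yv k a b c J (g z) * ztv v g z := by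
    intro z hz h0
    have hgd : DifferentiableAt ℂ g z := (hg.an z hz).differentiableAt
    have h1 : HasDerivAt (fun w => (g w).1) (deriv g z).1 z := by
      have := (an_fst (hg.an z hz)).differentiableAt.hasDerivAt
      rwa [deriv_fst' hgd] at this
    have h2 : HasDerivAt (fun w => (g w).2) (deriv g z).2 z := by
      have := (an_snd (hg.an z hz)).differentiableAt.hasDerivAt
      rwa [deriv_snd' hgd] at this
    have h3 : HasDerivAt (fun w => jet c J (g w).1) (deriv (jet c J) (g z).1 * (deriv g z).1) z :=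
      HasDerivAt.comp z (h₂ := jet c J) ((jet_differentiable c J) _).hasDerivAt h1
    have h4 : HasDerivAt (fun w => (g w).2 - jet c J (g w).1) ((deriv g z).2 - deriv (jet c J) (g z).1 * (deriv g z).1) z := h2.sub h3
    rw [h4.deriv, hg.deriv_fst hz (hvz z hz h0), hg.deriv_snd hz (hvz z hz h0), hv, yv]
    ring
  -- the pointwise inequality
  have hpt : ∀ z ∈ Om, -dv η z ≤ 0 ∨ ρ / 2 ≤ ‖(g z).1‖ ∧ ‖(g z).1‖ ≤ 2 * ρ ∧ ‖(g z).2 - jet c J (g z).1‖ ≤ ρ ^ n ∧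
      -dv η z ≤ C₂ * ‖(deriv g z).1 / (g z).1‖ ^ 2 := by
    intro z hz
    by_cases h0 : g z = 0
    · left
      have h1 : η =ᶠ[𝓝 z] fun _ => 0 := snF_zero hk hα hρ hc (hg.an z hz) h0 D
      rw [dv_congr h1, dv_const, neg_zero]
    · rcases snF_le hk hα hρ hC hB hB1 hB2 hρs (hg.an z hz) (hx_le z hz) (hDan z hz h0) (hD z hz h0) (hd1 z hz h0) (hd2 z hz h0)
        (fun h1 h2 => hρt (g z) h1 h2) with h1 | ⟨h1, h2, h3, h4⟩
      · exact Or.inl h1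
      · refine Or.inr ⟨h1, h2, h3, h4.trans (le_of_eq ?_)⟩
        rw [hC₂]
        ring
  -- far from the center
  have hfar0 : ∀ w ∈ Om, g w ∉ ball (0 : ℂ × ℂ) (s / 2) → η w = conj (D w) := by
    intro w hw hws
    have h1 : f₁ α k ρ g w = 0 ∨ ρ ^ n < ‖(g w).2 - jet c J (g w).1‖ := by
      by_contra hcon
      push Not at hcon
      obtain ⟨e1, e2⟩ := hcon
      apply hws
      apply hρb (g w) _ e2
      by_cases hx0 : (g w).1 = 0
      · rw [hx0, norm_zero]; positivity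
      · have h2 : f₁ α k ρ g w = hp (scl α k ρ * ‖pot α k (g w).1‖ ^ 2) := by
          rw [f₁, XX, if_neg hx0]
        by_cases h3 : scl α k ρ * ‖pot α k (g w).1‖ ^ 2 ≤ 1
        · rw [h2, hp_zero h3] at e1
          exact absurd rfl e1
        · exact (hρs _ (hx_le w hw) (not_le.1 h3).le).1
    rcases h1 with h1 | h1
    · rw [hη, snF, h1]
      simp
    · have hcont : ContinuousAt (fun w => ‖(g w).2 - jet c J (g w).1‖) w := by
        have hga := (hg.an w hw).continuousAt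
        have hc2 : Continuous fun p : ℂ × ℂ => ‖p.2 - jet c J p.1‖ := (cd_jet c J).continuous.norm
        exact hc2.continuousAt.comp hga
      have h2 : ∀ᶠ y in 𝓝 w, f₂ c J n ρ g y = 0 := by
        filter_upwards [hcont.eventually (lt_mem_nhds h1)] with y hy
        exact CC_zero hρ hy.le
      have h3 : f₃ α k c J n ρ g =ᶠ[𝓝 w] fun _ => 0 := by
        filter_upwards [h2] with y hy
        rw [f₃, hy, zero_mul]
      rw [hη, snF, gr_congr h3, gr_const, h2.self_of_nhds]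
      simp
  have hfar : ∀ z ∈ Om, g z ∉ ball (0 : ℂ × ℂ) s → η =ᶠ[𝓝 z] fun w => conj (D w) := by
    intro z hz hzs
    have h1 : ∀ᶠ w in 𝓝 z, g w ∈ (closedBall (0 : ℂ × ℂ) (s / 2))ᶜ := by
      refine (hg.an z hz).continuousAt (isClosed_closedBall.isOpen_compl.mem_nhds ?_)
      intro h2
      apply hzs
      rw [mem_ball_zero_iff]
      have := mem_closedBall_zero_iff.1 h2
      linarith
    filter_upwards [hg.isOpen.mem_nhds hz, h1] with w hw hw2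
    exact hfar0 w hw fun h3 => hw2 (ball_subset_closedBall h3)
  -- the bound
  obtain ⟨t, ht0, ht⟩ : ∃ t : ℝ, 0 < t ∧ ∀ p ∈ ball (0 : ℂ × ℂ) t, XX α k ρ p.1 * CC n ρ (p.2 - jet c J p.1) = 1 := by
    have h1 : ∀ᶠ p in 𝓝 (0 : ℂ × ℂ), XX α k ρ p.1 = 1 :=
      (continuous_fst.tendsto (0 : ℂ × ℂ)).eventually (XX_ev_one hk hα hρ)
    have h2 : ∀ᶠ p in 𝓝 (0 : ℂ × ℂ), CC n ρ (p.2 - jet c J p.1) = 1 := by
      have h3 : Tendsto (fun p : ℂ × ℂ => p.2 - jet c J p.1) (𝓝 0) (𝓝 0) := by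
        have := (cd_jet c J).continuous.tendsto (0 : ℂ × ℂ)
        simpa [jet_zero hc] using this
      exact h3.eventually CC_ev_one
    obtain ⟨t, ht0, ht⟩ := Metric.eventually_nhds_iff_ball.1 (h1.and h2)
    exact ⟨t, ht0, fun p hp => by rw [(ht p hp).1, (ht p hp).2, one_mul]⟩
  have hvan : AnalyticOnNhd ℂ v (closedBall 0 r) := fun p hp => v_analytic hv (haa p hp) (hbb p hp)
  obtain ⟨m, hm0, hm⟩ := v_lower hvan.continuousOn hv0 ht0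
  obtain ⟨C₃, hC₃0, hC₃⟩ := sn_bound (f := dlt k a b ε) (r := r) fun p hp => (dlt_analytic (haa p hp) (hbb p hp) ε).continuousAt.continuousWithinAt
  obtain ⟨C₄, hC₄0, hC₄⟩ := sn_bound (f := fderiv ℝ fun p : ℂ × ℂ => CC n ρ (p.2 - jet c J p.1) * EEE α k ρ p.1) (r := r)
    ((cd_EE α k c J n ρ).continuous_fderiv (by norm_num)).continuousOn
  have hbd : ∀ z ∈ Om, ‖η z‖ ≤ (C₃ / m + C₄) * ‖deriv g z‖ := by
    intro z hz
    by_cases h0 : g z = 0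
    · have h1 : η z = 0 := (snF_zero hk hα hρ hc (hg.an z hz) h0 D).self_of_nhds
      rw [h1, norm_zero]
      positivity
    have h1 : ‖((1 - f₁ α k ρ g z * f₂ c J n ρ g z : ℝ) : ℂ) * conj (D z)‖ ≤ C₃ / m * ‖deriv g z‖ := by
      by_cases h2 : g z ∈ ball (0 : ℂ × ℂ) t
      · have h3 : f₁ α k ρ g z * f₂ c J n ρ g z = 1 := ht _ h2
        rw [h3, sub_self, Complex.ofReal_zero, zero_mul, norm_zero]
        positivity
      · have h3 := hm _ (hmemc z hz) h2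
        have h4 : ‖deriv g z‖ = ‖ztv v g z‖ * ‖v (g z)‖ := by
          have h5 : deriv g z = ztv v g z • v (g z) :=
            Prod.ext (hg.deriv_fst hz (hvz z hz h0)) (hg.deriv_snd hz (hvz z hz h0))
          rw [← norm_smul, ← h5]
        have h5 : |1 - f₁ α k ρ g z * f₂ c J n ρ g z| ≤ 1 := by
          have e1 : 0 ≤ f₁ α k ρ g z := XX_nonneg _
          have e2 : f₁ α k ρ g z ≤ 1 := XX_le _
          have e3 : 0 ≤ f₂ c J n ρ g z := CC_nonneg _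
          have e4 : f₂ c J n ρ g z ≤ 1 := CC_le _
          rw [abs_le]
          constructor <;> nlinarith [mul_nonneg e1 e3, mul_le_one₀ e2 e3 e4]
        rw [norm_mul, Complex.norm_real, Real.norm_eq_abs, RCLike.norm_conj, hD z hz h0, norm_mul]
        have h6 := hC₃ _ (hmemc z hz)
        calc |1 - f₁ α k ρ g z * f₂ c J n ρ g z| * (‖dlt k a b ε (g z)‖ * ‖ztv v g z‖) ≤ 1 * (C₃ * ‖ztv v g z‖) :=
              mul_le_mul h5 (mul_le_mul_of_nonneg_right h6 (norm_nonneg _)) (by positivity) zero_le_one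
          _ = C₃ / m * (‖ztv v g z‖ * m) := by field_simp
          _ ≤ C₃ / m * ‖deriv g z‖ := by
            rw [h4]
            exact mul_le_mul_of_nonneg_left (mul_le_mul_of_nonneg_left h3 (norm_nonneg _)) (by positivity)
    have h2 : ‖(f₁ α k ρ g z : ℂ) * (-I * gr (f₃ α k c J n ρ g) z)‖ ≤ C₄ * ‖deriv g z‖ := by
      have e1 : 0 ≤ f₁ α k ρ g z := XX_nonneg _
      have e2 : f₁ α k ρ g z ≤ 1 := XX_le _
      have e3 : ‖gr (f₃ α k c J n ρ g) z‖ ≤ C₄ * ‖deriv g z‖ := by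
        have hdd : DifferentiableAt ℝ (fun p : ℂ × ℂ => CC n ρ (p.2 - jet c J p.1) * EEE α k ρ p.1) ((g z).1, (g z).2) :=
          (cd_EE α k c J n ρ).differentiable (by norm_num) _
        have h3 := AxisA.norm_gr_comp_le (x := fun w => (g w).1) (y := fun w => (g w).2) (z := z) hdd (an_fst (hg.an z hz)) (an_snd (hg.an z hz))
          (hC₄ _ (hmemc z hz))
        rw [deriv_fst' (hg.an z hz).differentiableAt, deriv_snd' (hg.an z hz).differentiableAt] at h3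
        exact h3
      rw [norm_mul, norm_mul, norm_neg, Complex.norm_I, one_mul, Complex.norm_real, Real.norm_of_nonneg e1]
      calc _ ≤ 1 * ‖gr (f₃ α k c J n ρ g) z‖ := mul_le_mul_of_nonneg_right e2 (norm_nonneg _)
        _ ≤ _ := by rw [one_mul]; exact e3
    calc ‖η z‖ ≤ _ := norm_add_le _ _
      _ ≤ C₃ / m * ‖deriv g z‖ + C₄ * ‖deriv g z‖ := add_le_add h1 h2
      _ = _ := by ring
  -- the integral
  obtain ⟨C₅, hC₅⟩ := charge hF hF0 hQf hQF hN b₀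
  set W : ℂ → ℝ := fun z => {z | Qf z ≠ 0 ∧ b₀ ≤ lu F Qf d z ∧ lu F Qf d z ≤ b₀ + 2 * N}.indicator (fun z => ‖gr (lu F Qf d) z‖ ^ 2) z with hW
  have hW0 : ∀ z, 0 ≤ W z := fun z => Set.indicator_nonneg (fun _ _ => by positivity) z
  have hle : ∀ z ∈ Om, max 0 (-dv η z) ≤ 16 * C₂ / N ^ 2 * W z := by
    intro z hz
    refine max_le (mul_nonneg (by positivity) (hW0 z)) ?_
    rcases hpt z hz with h1 | ⟨h1, h2, h3, h4⟩
    · exact h1.trans (mul_nonneg (by positivity) (hW0 z))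
    · obtain ⟨g1, g2, g3, g4⟩ := hb₀ hF hF0 hv hg hrel z hz h1 h2 h3
      have g5 : W z = ‖gr (lu F Qf d) z‖ ^ 2 := Set.indicator_of_mem (show z ∈ {z | Qf z ≠ 0 ∧ b₀ ≤ lu F Qf d z ∧ lu F Qf d z ≤ b₀ + 2 * N} from
        ⟨g1, g2, g3⟩) _
      rw [g5]
      refine h4.trans ?_
      have g6 : ((N : ℝ) / 4 * ‖(deriv g z).1 / (g z).1‖) ^ 2 ≤ ‖gr (lu F Qf d) z‖ ^ 2 := pow_le_pow_left₀ (by positivity) g4 2
      have g7 : 16 * C₂ / (N : ℝ) ^ 2 * ((N : ℝ) / 4 * ‖(deriv g z).1 / (g z).1‖) ^ 2 = C₂ * ‖(deriv g z).1 / (g z).1‖ ^ 2 := by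
        field_simp
        ring
      rw [← g7]
      exact mul_le_mul_of_nonneg_left g6 (by positivity)
  have hCpos : 0 ≤ |16 * C₂ / (N : ℝ) ^ 2 * C₅| := abs_nonneg _
  have hce : ∀ z ∈ Om, ContinuousAt (fun z => max 0 (-dv η z)) z := fun z hz => continuousAt_const.max (hdvc z hz).neg
  have hCm : 0 ≤ C₃ / m + C₄ := by positivity
  refine ⟨(C₃ / m + C₄) + |16 * C₂ / (N : ℝ) ^ 2 * C₅|, η, fun z => max 0 (-dv η z), by positivity, fun z hz => (hηC1 z hz).contDiffWithinAt,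
    fun z hz => (hce z hz).continuousWithinAt, ?_, ?_, fun z _ => le_max_left _ _, ?_, ?_⟩
  · intro z hz hzs
    have h1 := hfar z hz hzs
    have h0 : g z ≠ 0 := by
      intro h0
      apply hzs
      rw [h0]
      exact mem_ball_self hs
    refine ⟨h1.self_of_nhds, ?_⟩
    change max 0 (-dv η z) = 0
    rw [dv_congr h1, dv_conj (hDan z hz h0).differentiableAt, neg_zero, max_self]
  · intro z hz _
    refine (hbd z hz).trans (mul_le_mul_of_nonneg_right ?_ (norm_nonneg _))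
    linarith
  · intro z _
    have := le_max_right 0 (-dv η z)
    change 0 ≤ dv η z + max 0 (-dv η z)
    linarith
  · intro R hR
    have hint := (AxisA.integrable_charge hF hF0 hQf d N b₀ hR).const_mul (16 * C₂ / (N : ℝ) ^ 2)
    have h1 : ∫ z in Om, tau R z * max 0 (-dv η z) ≤ ∫ z, 16 * C₂ / (N : ℝ) ^ 2 * (tau R z * W z) := by
      rw [← integral_indicator hg.isOpen.measurableSet]
      refine integral_mono_of_nonneg (Eventually.of_forall fun z => ?_) hint (Eventually.of_forall fun z => ?_)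
      · exact Set.indicator_nonneg (fun z _ => mul_nonneg (tau_nonneg hR z) (le_max_left _ _)) z
      · by_cases hz : z ∈ Om
        · simp only [Set.indicator_of_mem hz]
          calc tau R z * max 0 (-dv η z) ≤ tau R z * (16 * C₂ / N ^ 2 * W z) := mul_le_mul_of_nonneg_left (hle z hz) (tau_nonneg hR z)
            _ = _ := by ring
        · simp only [Set.indicator_of_notMem hz]
          exact mul_nonneg (by positivity) (mul_nonneg (tau_nonneg hR z) (hW0 z))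
    refine h1.trans ?_
    rw [integral_const_mul]
    have h2 := mul_le_mul_of_nonneg_left (hC₅ R hR) (show 0 ≤ 16 * C₂ / (N : ℝ) ^ 2 by positivity)
    refine h2.trans ?_
    have h3 : 16 * C₂ / (N : ℝ) ^ 2 * (12 * N * (d * En F R) + C₅) = 192 * C₂ * d / N * En F R + 16 * C₂ / (N : ℝ) ^ 2 * C₅ := by
      field_simp
      ring
    rw [h3]
    have h4 := le_abs_self (16 * C₂ / (N : ℝ) ^ 2 * C₅)
    have h5 : 0 ≤ ((C₃ / m + C₄) + |16 * C₂ / (N : ℝ) ^ 2 * C₅|) * Len F R := by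
      refine mul_nonneg (by positivity) (integral_nonneg fun z => mul_nonneg (norm_nonneg _) ?_)
      exact div_nonneg (Real.sqrt_nonneg _) (by positivity)
    linarith

/-- **The normal bundle half of the local package at a saddle-node with a formal weak separatrix.** -/
theorem localN1_formal {k : ℕ} (hk : 1 ≤ k) {a b : ℂ × ℂ → ℂ} (ha : AnalyticAt ℂ a 0) (hb : AnalyticAt ℂ b 0) (ha0 : a 0 ≠ 0)
    (hb0 : fderiv ℂ b 0 (0, 1) ≠ 0) {c : ℕ → ℂ} (hc : c 0 = 0)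
    (hJ : ∀ J, (fun t => b (t, jet c J t) - deriv (jet c J) t * (t ^ (k + 1) * a (t, jet c J t))) =O[𝓝 0] fun t : ℂ => t ^ (J + 1)) :
    ∃ C₀ : ℝ, 0 ≤ C₀ ∧ ∀ {r : ℝ} (_ : 0 < r) (_ : AnalyticOnNhd ℂ a (closedBall 0 r)) (_ : AnalyticOnNhd ℂ b (closedBall 0 r))
      {v : ℂ × ℂ → ℂ × ℂ} (_ : ∀ p, v p = (p.1 ^ (k + 1) * a p, b p)) (_ : ∀ p ∈ closedBall (0 : ℂ × ℂ) r, v p = 0 → p = 0)
      {l : ℂ × ℂ → ℂ} (_ : (∀ p, l p = p.1) ∨ ∀ p, l p = 1)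
      {q : ℂ × ℂ → ℂ} (_ : AnalyticAt ℂ q 0) {N : ℕ} (_ : 1 ≤ N) (_ : ∀ J, N ≤ J → analyticOrderAt (fun t => q (t, jet c J t)) 0 = N)
      {ψ : ℂ × ℂ → ℝ} (_ : ContDiffAt ℝ 1 ψ 0) (d : ℕ) {M : ℕ} {F : ℂ → EN M} (_ : Differentiable ℂ F) (_ : ∀ z, F z ≠ 0)
      {Qf : ℂ → ℂ} (_ : Differentiable ℂ Qf) (_ : ∀ z, ‖Qf z‖ ≤ ‖F z‖ ^ d) {c' : ℝ} (_ : 0 < c') {Om : Set ℂ} {g : ℂ → ℂ × ℂ}
      (_ : Crv1 v r Om g) (_ : ∀ z ∈ Om, ‖Qf z‖ * Real.exp (d * ψ (g z)) = c' * ‖q (g z)‖ * ‖F z‖ ^ d)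
      (_ : ∀ z ∈ Om, g z ≠ 0 → l (g z) ≠ 0) {s : ℝ} (_ : 0 < s) (_ : s < r), LocalN1 v l Om g (En F) (Len F) s (C₀ * d / N) := by
  obtain ⟨C₁, hC₁, H₁⟩ := localN1_aux hk ha hb ha0 hb0 hc hJ 1
  obtain ⟨C₂, hC₂, H₂⟩ := localN1_aux hk ha hb ha0 hb0 hc hJ 0
  refine ⟨C₁ + C₂, by positivity, ?_⟩
  intro r hr haa hbb v hv hv0 l hl q hq N hN hord ψ hψ d M F hF hF0 Qf hQf hQF c' hc' Om g hg hrel hl0 s hs hsr
  have hI : ∀ R, 1 ≤ R → 0 ≤ En F R := fun R hR => integral_nonneg fun z => mul_nonneg (tau_nonneg hR z) (sq_nonneg _)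
  have hmemc : ∀ z ∈ Om, g z ∈ closedBall (0 : ℂ × ℂ) r := fun z hz => ball_subset_closedBall (hg.mem z hz)
  have hN0 : (0 : ℝ) < N := by exact_mod_cast hN
  have hd0 : (0 : ℝ) ≤ d := Nat.cast_nonneg d
  rcases hl with hl | hl
  · have hD : ∀ z ∈ Om, g z ≠ 0 → DDv v l g z = dlt k a b 1 (g z) * ztv v g z := fun z hz h0 =>
      DDv_eq hv (Or.inl ⟨rfl, hl⟩) hg hz (haa _ (hmemc z hz)) (hbb _ (hmemc z hz)) (fun h1 => h0 (hv0 _ (hmemc z hz) h1)) (hl0 z hz h0)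
    have h1 : LocalN1 v l Om g (En F) (Len F) s (C₁ * d / N) := H₁ hr haa hbb hv hv0 hq hN hord hψ d hF hF0 hQf hQF hc' hg hrel hD hs hsr
    refine h1.mono hI ?_
    gcongr
    linarith
  · have hD : ∀ z ∈ Om, g z ≠ 0 → DDv v l g z = dlt k a b 0 (g z) * ztv v g z := fun z hz h0 =>
      DDv_eq hv (Or.inr ⟨rfl, hl⟩) hg hz (haa _ (hmemc z hz)) (hbb _ (hmemc z hz)) (fun h1 => h0 (hv0 _ (hmemc z hz) h1)) (hl0 z hz h0)
    have h1 : LocalN1 v l Om g (En F) (Len F) s (C₂ * d / N) := H₂ hr haa hbb hv hv0 hq hN hord hψ d hF hF0 hQf hQF hc' hg hrel hD hs hsr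
    refine h1.mono hI ?_
    gcongr
    linarith

end Pool.Agent.MQ

end
end

section

/-!
# MQ/LFormD: `localN1_formal` with any density
-/

set_option autoImplicit false

open Topology Filter Asymptotics Complex Set ComplexConjugate Metric MeasureTheory

noncomputable section

namespace Pool.Agent.MQ

open Pool.Agent.H36.BP (EN fs)
open Pool.Agent.H30M (tau tau_nonneg)

/-- `LocalN1` is monotone in the energy and in the length -/
theorem LocalN1.mono_dens {v : ℂ × ℂ → ℂ × ℂ} {l : ℂ × ℂ → ℂ} {Om : Set ℂ} {g : ℂ → ℂ × ℂ} {I I' Λ Λ' : ℝ → ℝ} {s δ : ℝ} (h : LocalN1 v l Om g I Λ s δ)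
    (hδ : 0 ≤ δ) (hI : ∀ R, 1 ≤ R → I R ≤ I' R) (hΛ : ∀ R, 1 ≤ R → Λ R ≤ Λ' R) : LocalN1 v l Om g I' Λ' s δ := by
  obtain ⟨C, η, err, h1, h2, h3, h4, h5, h6, h7, h8⟩ := h
  refine ⟨C, η, err, h1, h2, h3, h4, h5, h6, h7, fun R hR => (h8 R hR).trans ?_⟩
  have e1 := mul_le_mul_of_nonneg_left (hI R hR) hδ
  have e2 := mul_le_mul_of_nonneg_left (hΛ R hR) h1
  linarith

variable {M : ℕ} {F : ℂ → EN M} {lm : ℂ → ℝ}

theorem sn_lam_nonneg (z : ℂ) : 0 ≤ lam F z := div_nonneg (Real.sqrt_nonneg _) (by positivity)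

theorem En_le_dens (hlm : Continuous lm) (hle : ∀ z, lam F z ≤ lm z) {R : ℝ} (hR : 1 ≤ R) : En F R ≤ ∫ z, tau R z * lm z ^ 2 := by
  refine integral_mono_of_nonneg (Eventually.of_forall fun z => mul_nonneg (tau_nonneg hR z) (sq_nonneg _))
    (Pool.Agent.H30M.integrable_tau_mul hR (hlm.pow 2)) (Eventually.of_forall fun z => ?_)
  exact mul_le_mul_of_nonneg_left (pow_le_pow_left₀ (sn_lam_nonneg z) (hle z) 2) (tau_nonneg hR z)

theorem Len_le_dens (hlm : Continuous lm) (hle : ∀ z, lam F z ≤ lm z) {R : ℝ} (hR : 1 ≤ R) : Len F R ≤ ∫ z, ‖gr (tau R) z‖ * lm z := by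
  have h1 : ContDiff ℝ 1 (tau R) := (Pool.Agent.H30M.contDiff_tau R).of_le (by norm_num)
  have hc : Continuous fun z => ‖gr (tau R) z‖ := by
    have h2 : Continuous (fderiv ℝ (tau R)) := h1.continuous_fderiv one_ne_zero
    exact (grL.continuous.comp h2).norm
  have hs : HasCompactSupport fun z => ‖gr (tau R) z‖ := by
    have h2 : HasCompactSupport (fderiv ℝ (tau R)) := (Pool.Agent.H30M.hcs_tau hR).fderiv ℝ
    exact (h2.comp_left (g := grL) (map_zero _)).norm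
  refine integral_mono_of_nonneg (Eventually.of_forall fun z => mul_nonneg (norm_nonneg _) (sn_lam_nonneg z))
    ((hc.mul hlm).integrable_of_hasCompactSupport hs.mul_right) (Eventually.of_forall fun z => ?_)
  exact mul_le_mul_of_nonneg_left (hle z) (norm_nonneg _)

/-- **`localN1_formal` with any density `lm`.** -/
theorem localN1_formal_dens {k : ℕ} (hk : 1 ≤ k) {a b : ℂ × ℂ → ℂ} (ha : AnalyticAt ℂ a 0) (hb : AnalyticAt ℂ b 0) (ha0 : a 0 ≠ 0)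
    (hb0 : fderiv ℂ b 0 (0, 1) ≠ 0) {c : ℕ → ℂ} (hc : c 0 = 0)
    (hJ : ∀ J, (fun t => b (t, jet c J t) - deriv (jet c J) t * (t ^ (k + 1) * a (t, jet c J t))) =O[𝓝 0] fun t : ℂ => t ^ (J + 1)) :
    ∃ C₀ : ℝ, 0 ≤ C₀ ∧ ∀ {r : ℝ} (_ : 0 < r) (_ : AnalyticOnNhd ℂ a (closedBall 0 r)) (_ : AnalyticOnNhd ℂ b (closedBall 0 r))
      {v : ℂ × ℂ → ℂ × ℂ} (_ : ∀ p, v p = (p.1 ^ (k + 1) * a p, b p)) (_ : ∀ p ∈ closedBall (0 : ℂ × ℂ) r, v p = 0 → p = 0)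
      {l : ℂ × ℂ → ℂ} (_ : (∀ p, l p = p.1) ∨ ∀ p, l p = 1)
      {q : ℂ × ℂ → ℂ} (_ : AnalyticAt ℂ q 0) {N : ℕ} (_ : 1 ≤ N) (_ : ∀ J, N ≤ J → analyticOrderAt (fun t => q (t, jet c J t)) 0 = N)
      {ψ : ℂ × ℂ → ℝ} (_ : ContDiffAt ℝ 1 ψ 0) (d : ℕ) {M : ℕ} {F : ℂ → EN M} (_ : Differentiable ℂ F) (_ : ∀ z, F z ≠ 0)
      {Qf : ℂ → ℂ} (_ : Differentiable ℂ Qf) (_ : ∀ z, ‖Qf z‖ ≤ ‖F z‖ ^ d) {c' : ℝ} (_ : 0 < c') {Om : Set ℂ} {g : ℂ → ℂ × ℂ}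
      (_ : Crv1 v r Om g) (_ : ∀ z ∈ Om, ‖Qf z‖ * Real.exp (d * ψ (g z)) = c' * ‖q (g z)‖ * ‖F z‖ ^ d)
      (_ : ∀ z ∈ Om, g z ≠ 0 → l (g z) ≠ 0) {lm : ℂ → ℝ} (_ : Continuous lm) (_ : ∀ z, lam F z ≤ lm z) {s : ℝ} (_ : 0 < s) (_ : s < r),
      LocalN1 v l Om g (fun R => ∫ z, tau R z * lm z ^ 2) (fun R => ∫ z, ‖gr (tau R) z‖ * lm z) s (C₀ * d / N) := by
  obtain ⟨C₀, hC₀, H⟩ := localN1_formal hk ha hb ha0 hb0 hc hJ
  refine ⟨C₀, hC₀, ?_⟩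
  intro r hr haa hbb v hv hv0 l hl q hq N hN hord ψ hψ d M F hF hF0 Qf hQf hQF c' hc' Om g hg hrel hl0 lm hlm hle s hs hsr
  refine (H hr haa hbb hv hv0 hl hq hN hord hψ d hF hF0 hQf hQF hc' hg hrel hl0 hs hsr).mono_dens (by positivity)
    (fun R hR => En_le_dens hlm hle hR) (fun R hR => Len_le_dens hlm hle hR)

end Pool.Agent.MQ

end
end
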