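import Pool.Agent.H94.G6.M111
import Pool.Agent.H94.G6.M121
import Pool.Agent.H94.G6.M125
import Pool.Agent.H94.G6.M154
import Pool.Agent.H94.G6.M177
import Pool.Agent.H94.G6.M42

/-! The parts of this file: MQ2.TE, MQ2.Step. -/

section

/-!
# MQ2 TE: an elementary reduced singular point, from its two transforms

Blow up once.  `v (be t p) = x (A₁, B₁)`, `w t = (x A₁, B₁ - (y + t) A₁)`; `w t 0 = 0` iff `(1, t)` is an eigenvector; with its eigenvalue `λ` and the other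
one `λ'`: `A₁ 0 = λ`, `∂_y (B₁ - (y + t) A₁) = λ' - λ` at `0`.  So `w t` is of the type `good_A` (`λ ≠ 0`) or `good_B` (`λ = 0`).
-/

set_option autoImplicit false

open Topology Filter Metric MeasureTheory Asymptotics Laplacian

noncomputable section

namespace Pool.Agent.MQ2

open Pool.Agent.H36.BP (EN)
open Pool.Agent.H30M (tau LogSing)
open Pool.Agent.MQ

namespace TE

theorem an_be (t : ℂ) (p : ℂ × ℂ) : AnalyticAt ℂ (be t) p :=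
  analyticAt_fst.prod (analyticAt_fst.mul (analyticAt_snd.add analyticAt_const))

theorem be_line (t y : ℂ) : be t (0, y) = 0 := by
  unfold be
  simp

theorem be_ne {t : ℂ} {p : ℂ × ℂ} (h : p.1 ≠ 0) : be t p ≠ 0 := fun h1 => h (congrArg Prod.fst h1)

theorem tend_be (t : ℂ) : Tendsto (be t) (𝓝 0) (𝓝 0) := by
  have h := (an_be t 0).continuousAt
  unfold ContinuousAt at h
  have h0 : be t 0 = 0 := be_line t 0
  rwa [h0] at h

/-- the strict transform of a function -/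
theorem div {A : ℂ × ℂ → ℂ} (hA : AnalyticAt ℂ A 0) (hA0 : A 0 = 0) (t : ℂ) :
    ∃ A₁ : ℂ × ℂ → ℂ, AnalyticAt ℂ A₁ 0 ∧ (∀ᶠ x in 𝓝 (0 : ℂ × ℂ), A (be t x) = x.1 * A₁ x) ∧
      ∀ᶠ w in 𝓝 (0 : ℂ), A₁ (0, w) = fderiv ℂ A 0 (1, 0) + (w + t) * fderiv ℂ A 0 (0, 1) := by
  have hcomp : AnalyticAt ℂ (fun x => A (be t x)) 0 := by
    have h1 : AnalyticAt ℂ A (be t 0) := by
      have h0 : be t 0 = 0 := be_line t 0
      rw [h0]
      exact hA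
    exact h1.comp (an_be t 0)
  obtain ⟨A₁, h1, h2⟩ := Pool.Agent.H17BP.exists_div_x hcomp (Eventually.of_forall fun y => by
    change A (be t (0, y)) = 0
    rw [be_line, hA0])
  refine ⟨A₁, h1, h2, ?_⟩
  have hc : Tendsto (fun w : ℂ => ((0 : ℂ), w)) (𝓝 0) (𝓝 (0 : ℂ × ℂ)) := by
    have : Continuous (fun w : ℂ => ((0 : ℂ), w)) := by fun_prop
    exact this.tendsto' 0 0 rfl
  have h3 := hc.eventually h2.eventually_nhds
  have h4 := hc.eventually h1.eventually_analyticAt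
  filter_upwards [h3, h4] with w hw3 hw4
  -- two derivatives in `s`
  have hc' : Tendsto (fun s : ℂ => (s, w)) (𝓝 0) (𝓝 ((0 : ℂ), w)) := by
    have : Continuous (fun s : ℂ => (s, w)) := by fun_prop
    exact this.tendsto' 0 _ rfl
  have h5 := hc'.eventually hw3
  have hd1 : HasDerivAt (fun s : ℂ => A₁ (s, w)) (fderiv ℂ A₁ (0, w) (1, 0)) 0 := by
    have h6 : HasDerivAt (fun s : ℂ => (s, w)) ((1 : ℂ), (0 : ℂ)) 0 :=
      (hasDerivAt_id (0 : ℂ)).prodMk (hasDerivAt_const (0 : ℂ) w)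
    have h7 : HasFDerivAt A₁ (fderiv ℂ A₁ (0, w)) ((fun s : ℂ => (s, w)) 0) := hw4.differentiableAt.hasFDerivAt
    exact HasFDerivAt.comp_hasDerivAt (f := fun s : ℂ => (s, w)) (0 : ℂ) h7 h6
  have hd2 : HasDerivAt (fun s : ℂ => s * A₁ (s, w)) (A₁ (0, w)) 0 := by
    have h8 : HasDerivAt (fun s : ℂ => s * A₁ (s, w)) (1 * A₁ (0, w) + 0 * fderiv ℂ A₁ (0, w) (1, 0)) 0 :=
      (hasDerivAt_id (0 : ℂ)).mul hd1
    rwa [one_mul, zero_mul, add_zero] at h8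
  have hd3 : HasDerivAt (fun s : ℂ => A (be t (s, w))) (A₁ (0, w)) 0 := by
    refine hd2.congr_of_eventuallyEq ?_
    filter_upwards [h5] with s hs
    exact hs
  have hd4 : HasDerivAt (fun s : ℂ => A (be t (s, w))) (fderiv ℂ A 0 (1, w + t)) 0 := by
    have h6 : HasDerivAt (fun s : ℂ => be t (s, w)) ((1 : ℂ), w + t) 0 := by
      have h7 : HasDerivAt (fun s : ℂ => s * (w + t)) (1 * (w + t)) 0 := (hasDerivAt_id (0 : ℂ)).mul_const (w + t)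
      have h8 : HasDerivAt (fun s : ℂ => (s, s * (w + t))) ((1 : ℂ), 1 * (w + t)) 0 :=
        (hasDerivAt_id (0 : ℂ)).prodMk h7
      rw [one_mul] at h8
      exact h8
    have h7 : HasFDerivAt A (fderiv ℂ A 0) ((fun s : ℂ => be t (s, w)) 0) := by
      change HasFDerivAt A (fderiv ℂ A 0) (be t ((0 : ℂ), w))
      rw [be_line]
      exact hA.differentiableAt.hasFDerivAt
    exact HasFDerivAt.comp_hasDerivAt (f := fun s : ℂ => be t (s, w)) (0 : ℂ) h7 h6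
  rw [hd3.unique hd4]
  have h9 : ((1 : ℂ), w + t) = (1, 0) + (w + t) • ((0 : ℂ), (1 : ℂ)) := by
    ext <;> simp
  rw [h9, map_add, map_smul]
  rfl

/-- the classes of the transforms -/
theorem tp_px {P : (ℂ × ℂ → ℂ) → (ℂ × ℂ → ℂ) → Prop} {t : ℂ} (g J : ℂ × ℂ → ℂ) (h : TP 1 t P g J) : PX 1 g J := by
  obtain ⟨g₀, J₀, m, g', -, -, h2, h3, -, h5, h6⟩ := h
  refine ⟨⟨g', h3, ?_⟩, ⟨fun p => J₀ (be t p), ?_, ?_⟩⟩
  · filter_upwards [h5] with p hp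
    rw [hp, pow_one]
  · have h7 : AnalyticAt ℂ J₀ (be t 0) := by
      have h0 : be t 0 = 0 := be_line t 0
      rw [h0]
      exact h2
    exact h7.comp (an_be t 0)
  · filter_upwards [h6] with p hp
    rw [hp, pow_one]

theorem fderiv_fst {v : ℂ × ℂ → ℂ × ℂ} (hv : AnalyticAt ℂ v 0) (u : ℂ × ℂ) : fderiv ℂ (fun p => (v p).1) 0 u = (fderiv ℂ v 0 u).1 := by
  have h := (ContinuousLinearMap.fst ℂ ℂ ℂ).hasFDerivAt.comp (0 : ℂ × ℂ) hv.differentiableAt.hasFDerivAt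
  have h2 : fderiv ℂ (fun p => (v p).1) 0 = (ContinuousLinearMap.fst ℂ ℂ ℂ).comp (fderiv ℂ v 0) := h.fderiv
  rw [h2]
  rfl

theorem fderiv_snd {v : ℂ × ℂ → ℂ × ℂ} (hv : AnalyticAt ℂ v 0) (u : ℂ × ℂ) : fderiv ℂ (fun p => (v p).2) 0 u = (fderiv ℂ v 0 u).2 := by
  have h := (ContinuousLinearMap.snd ℂ ℂ ℂ).hasFDerivAt.comp (0 : ℂ × ℂ) hv.differentiableAt.hasFDerivAt
  have h2 : fderiv ℂ (fun p => (v p).2) 0 = (ContinuousLinearMap.snd ℂ ℂ ℂ).comp (fderiv ℂ v 0) := h.fderiv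
  rw [h2]
  rfl

/-- a quadratic polynomial which vanishes near `0` -/
theorem poly_zero {c₀ c₁ c₂ t : ℂ} (h : ∀ᶠ y in 𝓝 (0 : ℂ), c₀ + c₁ * (y + t) + c₂ * (y + t) ^ 2 = 0) : c₀ = 0 ∧ c₁ = 0 ∧ c₂ = 0 := by
  have h1 : AnalyticOnNhd ℂ (fun y : ℂ => c₀ + c₁ * (y + t) + c₂ * (y + t) ^ 2) Set.univ := by
    intro y _
    have h2 : AnalyticAt ℂ (fun y : ℂ => y + t) y := analyticAt_id.add analyticAt_const
    exact (analyticAt_const.add (analyticAt_const.mul h2)).add (analyticAt_const.mul (h2.pow 2))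
  have h3 := h1.eqOn_zero_of_preconnected_of_eventuallyEq_zero isPreconnected_univ (Set.mem_univ 0) h
  have e0 : c₀ + c₁ * (-t + t) + c₂ * (-t + t) ^ 2 = 0 := h3 (Set.mem_univ (-t))
  have e1 : c₀ + c₁ * (1 - t + t) + c₂ * (1 - t + t) ^ 2 = 0 := h3 (Set.mem_univ (1 - t))
  have e2 : c₀ + c₁ * (-1 - t + t) + c₂ * (-1 - t + t) ^ 2 = 0 := h3 (Set.mem_univ (-1 - t))
  have f0 : c₀ = 0 := by linear_combination e0
  have f1 : 2 * c₁ = 0 := by linear_combination e1 - e2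
  have f2 : 2 * c₂ = 0 := by linear_combination e1 + e2 - 2 * f0
  refine ⟨f0, ?_, ?_⟩
  · exact (mul_eq_zero.1 f1).resolve_left two_ne_zero
  · exact (mul_eq_zero.1 f2).resolve_left two_ne_zero

theorem iso_swap {v : ℂ × ℂ → ℂ × ℂ} (h : Iso v) : Iso (swv v) := by
  obtain ⟨h1, h2, h3⟩ := h
  have hs : AnalyticAt ℂ (Prod.swap : ℂ × ℂ → ℂ × ℂ) 0 := analyticAt_snd.prod analyticAt_fst
  refine ⟨?_, ?_, ?_⟩
  · have h4 : AnalyticAt ℂ (fun p : ℂ × ℂ => v p.swap) 0 := AnalyticAt.fun_comp (g := v) (f := Prod.swap) h1 hs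
    exact (analyticAt_snd.comp h4).prod (analyticAt_fst.comp h4)
  · show (v (0 : ℂ × ℂ).swap).swap = 0
    rw [show (0 : ℂ × ℂ).swap = 0 from rfl, h2]
    rfl
  · have h4 : Tendsto (Prod.swap : ℂ × ℂ → ℂ × ℂ) (𝓝 0) (𝓝 0) := continuous_swap.tendsto' 0 0 rfl
    filter_upwards [h4.eventually h3] with p hp hp0 h5
    apply hp (fun h6 => hp0 ?_)
    · exact Prod.swap_injective h5
    · exact Prod.swap_injective h6

theorem elem_swap {v : ℂ × ℂ → ℂ × ℂ} (hv : AnalyticAt ℂ v 0) (h : Elem v) : Elem (swv v) := by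
  obtain ⟨h0, l, k, h1, h2, h3, h4⟩ := h
  have hd : ∀ u, fderiv ℂ (swv v) 0 u = (fderiv ℂ v 0 u.swap).swap := by
    intro u
    let L : ℂ × ℂ →L[ℂ] ℂ × ℂ := (ContinuousLinearMap.snd ℂ ℂ ℂ).prod (ContinuousLinearMap.fst ℂ ℂ ℂ)
    have e1 : HasFDerivAt v (fderiv ℂ v 0) (L 0) := hv.differentiableAt.hasFDerivAt
    have e4 : HasFDerivAt (v ∘ L) ((fderiv ℂ v 0).comp L) 0 := e1.comp (0 : ℂ × ℂ) L.hasFDerivAt
    have e2 := (L.hasFDerivAt (x := (v ∘ L) 0)).comp (0 : ℂ × ℂ) e4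
    have e3 : fderiv ℂ (swv v) 0 = L.comp ((fderiv ℂ v 0).comp L) := e2.fderiv
    rw [e3]
    rfl
  have d1 : fderiv ℂ (swv v) 0 (1, 0) = (fderiv ℂ v 0 (0, 1)).swap := hd (1, 0)
  have d2 : fderiv ℂ (swv v) 0 (0, 1) = (fderiv ℂ v 0 (1, 0)).swap := hd (0, 1)
  refine ⟨?_, l, k, ?_, ?_, h3, h4⟩
  · show (v (0 : ℂ × ℂ).swap).swap = 0
    rw [show (0 : ℂ × ℂ).swap = 0 from rfl, h0]
    rfl
  · rw [d1, d2, h1]
    show _ = (fderiv ℂ v 0 (0, 1)).2 + (fderiv ℂ v 0 (1, 0)).1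
    ring
  · rw [d1, d2, h2]
    show _ = (fderiv ℂ v 0 (0, 1)).2 * (fderiv ℂ v 0 (1, 0)).1 - (fderiv ℂ v 0 (1, 0)).2 * (fderiv ℂ v 0 (0, 1)).1
    ring

end TE

end Pool.Agent.MQ2

end
end

section

/-!
# MQ2 Step: the blow-up step
-/

set_option autoImplicit false

open Topology Filter Metric MeasureTheory Asymptotics Laplacian

noncomputable section

namespace Pool.Agent.MQ2

open Pool.Agent.H36.BP (EN)
open Pool.Agent.H30M (tau LogSing)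
open Pool.Agent.MQ

/-! ## slopes -/

/-- the two slopes are inverse to each other -/
theorem slope_mul {p : ℂ → ℂ × ℂ} {z : ℂ} (hp : AnalyticAt ℂ p z) (h : HasSlope p z) (h' : HasSlope (fun w => (p w).swap) z) :
    slope p z * slope (fun w => (p w).swap) z = 1 := by
  have hs : AnalyticAt ℂ (fun w => (p w).swap) z := (an_snd hp).prod (an_fst hp)
  have h1 := h.eq hp
  have h2 := h'.eq hs
  have h3 : ∀ᶠ w in 𝓝[≠] z, slope p w * slope (fun w => (p w).swap) w = 1 := by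
    filter_upwards [ne_of_frequently (an_fst hp) h.1, h1.filter_mono nhdsWithin_le_nhds, h2.filter_mono nhdsWithin_le_nhds] with w a1 a2 a3
    simp only [Prod.snd_swap, Prod.fst_swap] at a3
    have a4 : (p w).1 * (slope p w * slope (fun w => (p w).swap) w) = (p w).1 * 1 := by
      rw [← mul_assoc, ← a2, ← a3, mul_one]
    exact mul_left_cancel₀ a1 a4
  have h4 : Tendsto (fun w => slope p w * slope (fun w => (p w).swap) w) (𝓝[≠] z) (𝓝 (slope p z * slope (fun w => (p w).swap) z)) :=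
    (((h.an hp).mul (h'.an hs)).continuousAt.tendsto).mono_left nhdsWithin_le_nhds
  exact tendsto_nhds_unique (h4.congr' h3) tendsto_const_nhds

/-- the package of a direction, both cases -/
theorem dirP_all {P : (ℂ × ℂ → ℂ) → (ℂ × ℂ → ℂ) → Prop} {e ι m : ℕ} {t : ℂ} {v w : ℂ × ℂ → ℂ × ℂ} {g g' J : ℂ × ℂ → ℂ} (hv : Iso v)
    (hw : Child e ι t v w) (hg : Wt v g) (hJ : AnalyticAt ℂ J 0) (hg' : AnalyticAt ℂ g' 0)
    (hm : ∀ᶠ p in 𝓝 (0 : ℂ × ℂ), g (be t p) = p.1 ^ m * g' p) (hP : P g J) {r re : ℝ} (hr : 0 < r) (hre : 0 < re)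
    (hgr : ∀ (Om : Set ℂ) (p : ℂ → ℂ × ℂ), Crv1 v r Om p → (∀ z ∈ Om, ∃ᶠ w in 𝓝 z, g (p w) ≠ 0) → ∀ z ∈ Om, v (p z) ≠ 0 → g (p z) ≠ 0)
    (hwt : Wt w (gt ι g')) {k : ℕ} {c : Fin k → ℕ → ℂ → ℂ × ℂ} (hG : w 0 = 0 → ∀ g J : ℂ × ℂ → ℂ, TP ι t P g J → Wt w g → AnalyticAt ℂ J 0 →
      ∀ᶠ r in 𝓝[>] (0 : ℝ), ∀ s, 0 < s → s < r → ∀ B, 0 ≤ B → ∃ A C₀ : ℝ, 0 ≤ A ∧ 0 ≤ C₀ ∧
      ∀ (d n : ℕ) (q : ℂ × ℂ → ℂ) (ψ : ℂ × ℂ → ℝ), 1 ≤ d → 1 ≤ n → AnalyticAt ℂ q 0 → ContDiffAt ℝ 1 ψ 0 → (∀ i, FZero (c i) g ∨ HasOrd (c i) q n) →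
        ∀ (M : ℕ) (F : ℂ → EN M) (Q : ℂ → ℂ) (lm : ℂ → ℝ) (Om : Set ℂ) (p : ℂ → ℂ × ℂ), Dat w g r B d q ψ F Q lm Om p →
          LocX w g J Om p lm s A (C₀ * d / n)) :
    ∀ᶠ ρ in 𝓝[>] (0 : ℝ), ∀ σ, 0 < σ → σ < ρ → ∀ B, 0 ≤ B → ∃ A C₀ : ℝ, 0 ≤ A ∧ 0 ≤ C₀ ∧
      DirP v g J ((e : ℝ) + 1 + ι - m) r (fun n q => ∀ i, FZero (c i) (gt ι g') ∨ HasOrd (c i) (fun x => q (be t x)) n) re B A C₀
        (fun Om p => Omt Om p t ρ) (fun Om p => {z | w 0 = 0 ∧ z ∈ Kt t ρ σ Om p}) := by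
  by_cases h0 : w 0 = 0
  · have e1 : ∀ ρ σ, (fun Om p => {z | w 0 = 0 ∧ z ∈ Kt t ρ σ Om p}) = Kt t ρ σ := fun ρ σ => by
      funext Om p
      ext z
      simp [h0]
    filter_upwards [dirP_sing hv hw hg hJ hg' hm hP hr hre hgr hwt (hG h0)] with ρ h σ hσ hσρ B hB
    obtain ⟨A, C₀, hA, hC₀, h1⟩ := h σ hσ hσρ B hB
    refine ⟨A, C₀, hA, hC₀, ?_⟩
    rw [e1]
    exact h1
  · have e1 : ∀ ρ σ, (fun Om p => {z | w 0 = 0 ∧ z ∈ Kt t ρ σ Om p}) = fun _ _ => ∅ := fun ρ σ => by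
      funext Om p
      ext z
      simp [h0]
    filter_upwards [dirP_reg hv hw hg hJ hg' hm hr hre hgr hwt h0] with ρ h σ hσ hσρ B hB
    obtain ⟨A, hA, h1⟩ := h B hB
    refine ⟨A, 0, hA, le_rfl, ?_⟩
    rw [e1]
    exact h1 _

/-! ## the families of separatrices -/

/-- the data of a direction: the families, empty at a regular direction -/
theorem exists_fam {P : (ℂ × ℂ → ℂ) → (ℂ × ℂ → ℂ) → Prop} {w : ℂ × ℂ → ℂ × ℂ} (h : w 0 = 0 → Good P w) :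
    ∃ (m : ℕ) (c : Fin m → ℕ → ℂ → ℂ × ℂ), (∀ i, Sep w (c i)) ∧ (w 0 ≠ 0 → m = 0) ∧ (w 0 = 0 →
      ∀ g J : ℂ × ℂ → ℂ, P g J → Wt w g → AnalyticAt ℂ J 0 → ∀ᶠ r in 𝓝[>] (0 : ℝ), ∀ s, 0 < s → s < r → ∀ B, 0 ≤ B → ∃ A C₀ : ℝ, 0 ≤ A ∧ 0 ≤ C₀ ∧
      ∀ (d n : ℕ) (q : ℂ × ℂ → ℂ) (ψ : ℂ × ℂ → ℝ), 1 ≤ d → 1 ≤ n → AnalyticAt ℂ q 0 → ContDiffAt ℝ 1 ψ 0 → (∀ i, FZero (c i) g ∨ HasOrd (c i) q n) →
        ∀ (M : ℕ) (F : ℂ → EN M) (Q : ℂ → ℂ) (lm : ℂ → ℝ) (Om : Set ℂ) (p : ℂ → ℂ × ℂ), Dat w g r B d q ψ F Q lm Om p →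
          LocX w g J Om p lm s A (C₀ * d / n)) := by
  by_cases h0 : w 0 = 0
  · obtain ⟨m, c, h1, h2⟩ := h h0
    exact ⟨m, c, h1, fun h3 => absurd h0 h3, fun _ => h2⟩
  · exact ⟨0, Fin.elim0, fun i => i.elim0, fun _ => rfl, fun h3 => absurd h3 h0⟩

/-- the contact condition for the transform -/
theorem con_child {e ι m : ℕ} {t : ℂ} {v w : ℂ × ℂ → ℂ × ℂ} {g g' : ℂ × ℂ → ℂ} (hw : Child e ι t v w) (hg' : AnalyticAt ℂ g' 0)
    (hm : ∀ᶠ p in 𝓝 (0 : ℂ × ℂ), g (be t p) = p.1 ^ m * g' p) {c : ℕ → ℂ → ℂ × ℂ} (hc : Sep w c) {q : ℂ × ℂ → ℂ} {n : ℕ}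
    (h : ¬ FZero c (fun p => p.1) → FZero (fun N z => be t (c N z)) g ∨ HasOrd (fun N z => be t (c N z)) q n) :
    FZero c (gt ι g') ∨ HasOrd c (fun x => q (be t x)) n := by
  by_cases hx : FZero c (fun p => p.1)
  · exact Or.inl (sep_exc hw hc hx hg')
  · rcases h hx with h1 | h1
    · exact Or.inl (fzero_child hc hx hg' hm h1)
    · exact Or.inr h1

/-! ## the geometry of the charts -/

theorem norm_slope_le_of_mem {Om : Set ℂ} {p : ℂ → ℂ × ℂ} {t : ℂ} {ρ : ℝ} {z : ℂ} (hz : z ∈ Omt Om p t ρ) : ‖slope p z‖ < ‖t‖ + ρ := by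
  have h1 := norm_add_le (slope p z - t) t
  rw [sub_add_cancel] at h1
  have := hz.2.2.2
  linarith

theorem norm_slope_le_of_core {Om : Set ℂ} {p : ℂ → ℂ × ℂ} {t : ℂ} {ρ σ : ℝ} {z : ℂ} (hz : z ∈ Kt t ρ σ Om p) :
    ‖slope p z - t‖ ≤ σ ∧ ‖(p z).1‖ ≤ σ ∧ ‖slope p z‖ ≤ ‖t‖ + σ := by
  have h0 : ‖pt t p z‖ ≤ σ := by
    have := hz.2
    rwa [mem_closedBall_zero_iff] at this
  have h1 : ‖slope p z - t‖ ≤ σ := (norm_snd_le (pt t p z)).trans h0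
  have h2 : ‖(p z).1‖ ≤ σ := (norm_fst_le (pt t p z)).trans h0
  refine ⟨h1, h2, ?_⟩
  have h3 := norm_add_le (slope p z - t) t
  rw [sub_add_cancel] at h3
  linarith

theorem mem_ball_of_core {Om : Set ℂ} {p : ℂ → ℂ × ℂ} {t : ℂ} {ρ σ ρb : ℝ} {z : ℂ} (hp : AnalyticAt ℂ p z) (hz : z ∈ Kt t ρ σ Om p) (h0 : 0 ≤ σ)
    (h1 : σ ≤ ρb) (h2 : σ * (‖t‖ + σ) ≤ ρb) : p z ∈ closedBall (0 : ℂ × ℂ) ρb := by
  obtain ⟨a1, a2, a3⟩ := norm_slope_le_of_core hz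
  have a4 : (p z).2 = (p z).1 * slope p z := (hz.1.2.1.eq hp).self_of_nhds
  rw [mem_closedBall_zero_iff, Prod.norm_def]
  refine max_le (a2.trans h1) ?_
  rw [a4, norm_mul]
  exact (mul_le_mul a2 a3 (norm_nonneg _) h0).trans h2

/-- a finite condition on small radii -/
theorem exists_radius {P : ℝ → Prop} (h : ∀ᶠ ρ in 𝓝[>] (0 : ℝ), P ρ) : ∃ ρ, 0 < ρ ∧ P ρ := by
  obtain ⟨ρ, h1, h2⟩ := (h.and self_mem_nhdsWithin).exists
  exact ⟨ρ, h2, h1⟩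

theorem ev_lt {a : ℝ} (ha : 0 < a) : ∀ᶠ ρ in 𝓝[>] (0 : ℝ), ρ < a := mem_nhdsWithin_of_mem_nhds (Iio_mem_nhds ha)

theorem ev_mul_lt {a b : ℝ} (ha : 0 < a) : ∀ᶠ ρ in 𝓝[>] (0 : ℝ), ρ * b < a := by
  have h1 : Tendsto (fun ρ : ℝ => ρ * b) (𝓝[>] 0) (𝓝 0) := by
    have h3 : Tendsto (fun ρ : ℝ => ρ * b) (𝓝 0) (𝓝 (0 * b)) := by
      have : Continuous fun ρ : ℝ => ρ * b := by fun_prop
      exact this.tendsto 0
    rw [zero_mul] at h3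
    exact h3.mono_left nhdsWithin_le_nhds
  exact h1.eventually (gt_mem_nhds ha)

/-! ## the step -/

theorem good_step {P : (ℂ × ℂ → ℂ) → (ℂ × ℂ → ℂ) → Prop} {v : ℂ × ℂ → ℂ × ℂ} (hv : Iso v) {e ι : ℕ} {w : ℂ → ℂ × ℂ → ℂ × ℂ} {wi : ℂ × ℂ → ℂ × ℂ}
    (hw : ∀ t, Child e ι t v (w t)) (hwi : Child e ι 0 (swv v) wi) (hg : ∀ t, w t 0 = 0 → Good (TP ι t P) (w t))
    (hgi : wi 0 = 0 → Good (TP ι 0 (SP P)) wi) : Good P v := by
  classical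
  have hSfin : Finite {t : ℂ // w t 0 = 0} := (sing_finite hw hwi).to_subtype
  choose mm cc hsep hreg hGG using fun t => exists_fam (hg t)
  obtain ⟨mi, ci, hsepi, hregi, hGGi⟩ := exists_fam hgi
  -- the families
  let I : Type := {x : (Σ t : {t : ℂ // w t 0 = 0}, Fin (mm t.1)) // ¬ FZero (cc x.1.1 x.2) (fun p => p.1)} ⊕
    {i : Fin mi // ¬ FZero (ci i) (fun p => p.1)}
  have hIfin : Finite I := inferInstance
  let cI : I → ℕ → ℂ → ℂ × ℂ := fun x => x.elim (fun x N z => be x.1.1.1 (cc x.1.1.1 x.1.2 N z)) fun i N z => (be 0 (ci i.1 N z)).swap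
  have hcI : ∀ x, Sep v (cI x) := by
    rintro (x | i)
    · exact sep_child hv.1 (hw _) (hsep _ _) x.2
    · exact sep_swap (sep_child hv.swap.1 hwi (hsepi _) i.2)
  let eI := Finite.equivFin I
  refine ⟨Nat.card I, fun i => cI (eI.symm i), fun i => hcI _, ?_⟩
  intro g J hP hWt hJ
  -- the weights
  obtain ⟨m, hm1, hm2⟩ := wt_child hv.1 hWt
  choose g' hg'an hg'm hg'wt using fun t => hm1 e ι t (w t) (hw t)
  obtain ⟨gi, hgian, hgim, hgiwt⟩ := hm2 e ι wi hwi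
  have hWts : Wt (swv v) fun q => g q.swap := hWt.swap
  have hJs : AnalyticAt ℂ (fun q : ℂ × ℂ => J q.swap) 0 := AnalyticAt.comp (f := fun q : ℂ × ℂ => q.swap) (g := J) (x := 0) hJ (an_swap 0)
  have hPs : SP P (fun q => g q.swap) fun q => J q.swap := by
    unfold SP
    simpa only [Prod.swap_swap] using hP
  filter_upwards [DD_cof hv.1 hv.2.2 hWt, DD_cof hv.swap.1 hv.swap.2.2 hWts, cht_base hv hWt hJ, self_mem_nhdsWithin] with r hr1 hr2 hr3 hr4 s hs hsr B hB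
  have hr0 : 0 < r := hr4
  have hgr : ∀ (Om : Set ℂ) (p : ℂ → ℂ × ℂ), Crv1 v r Om p → (∀ z ∈ Om, ∃ᶠ w in 𝓝 z, g (p w) ≠ 0) → ∀ z ∈ Om, v (p z) ≠ 0 → g (p z) ≠ 0 := by
    obtain ⟨h, -, h1⟩ := hr1
    exact fun Om p hp hne z hz hvz => (h1 Om p hp hne z hz hvz).1
  have hgrs : ∀ (Om : Set ℂ) (p : ℂ → ℂ × ℂ), Crv1 (swv v) r Om p → (∀ z ∈ Om, ∃ᶠ w in 𝓝 z, g (p w).swap ≠ 0) → ∀ z ∈ Om, swv v (p z) ≠ 0 →
      g (p z).swap ≠ 0 := by
    obtain ⟨h, -, h1⟩ := hr2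
    exact fun Om p hp hne z hz hvz => (h1 Om p hp hne z hz hvz).1
  obtain ⟨A₁, hA₁, hEn⟩ := energy hs hsr hB
  obtain ⟨re, te, Ce, H, hre, hrete, htes, hCe, hHcd, hH0, hHlog, -, -⟩ := exists_ell hs
  set N : ℝ := (e : ℝ) + 1 + ι - m with hN
  -- the direction `∞`
  have hinf := dirP_all (P := SP P) (m := m) hv.swap hwi hWts hJs hgian hgim hPs hr0 hre hgrs hgiwt hGGi
  have hSlt : ∀ᶠ ρ in 𝓝[>] (0 : ℝ), ∀ t : {t : ℂ // w t 0 = 0}, ρ * (‖t.1‖ + 1) < 1 / 2 := by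
    rw [eventually_all]
    exact fun t => ev_mul_lt (by norm_num)
  obtain ⟨ρi, hρi, hρi1, hρi2⟩ := exists_radius (hinf.and hSlt)
  -- the other directions
  have hdir := fun t => dirP_all (P := P) (m := m) hv (hw t) hWt hJ (hg'an t) (hg'm t) hP hr0 hre hgr (hg'wt t) (hGG t)
  have hex : ∀ t : ℂ, ∃ ρ, 0 < ρ ∧ (∀ σ, 0 < σ → σ < ρ → ∀ B, 0 ≤ B → ∃ A C₀ : ℝ, 0 ≤ A ∧ 0 ≤ C₀ ∧
      DirP v g J ((e : ℝ) + 1 + ι - m) r (fun n q => ∀ i, FZero (cc t i) (gt ι (g' t)) ∨ HasOrd (cc t i) (fun x => q (be t x)) n) re B A C₀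
        (fun Om p => Omt Om p t ρ) (fun Om p => {z | w t 0 = 0 ∧ z ∈ Kt t ρ σ Om p})) ∧
      (∀ t' : {t : ℂ // w t 0 = 0}, t'.1 ≠ t → 2 * ρ < ‖t'.1 - t‖) ∧ ρ < 1 := by
    intro t
    have h1 : ∀ᶠ ρ in 𝓝[>] (0 : ℝ), ∀ t' : {t : ℂ // w t 0 = 0}, t'.1 ≠ t → 2 * ρ < ‖t'.1 - t‖ := by
      rw [eventually_all]
      intro t'
      by_cases h2 : t'.1 = t
      · exact Eventually.of_forall fun ρ h3 => absurd h2 h3
      · have h3 : 0 < ‖t'.1 - t‖ := norm_pos_iff.2 (sub_ne_zero.2 h2)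
        filter_upwards [ev_lt (half_pos h3)] with ρ hρ _
        linarith
    obtain ⟨ρ, a1, a2, a3, a4⟩ := exists_radius ((hdir t).and (h1.and (ev_lt one_pos)))
    exact ⟨ρ, a1, a2, a3, a4⟩
  choose ρ hρ hρD hρS hρ1 using hex
  -- the finite cover
  obtain ⟨T, hT1, hT2⟩ := (isCompact_closedBall (0 : ℂ) (2 / ρi)).elim_nhds_subcover (fun t => ball t (ρ t)) fun t _ => ball_mem_nhds t (hρ t)
  -- the radius of the base
  have hb1 : ∀ᶠ x in 𝓝[>] (0 : ℝ), ∀ t ∈ T, x < ρ t := by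
    rw [Finset.eventually_all]
    exact fun t _ => ev_lt (hρ t)
  obtain ⟨ρb, hρb, hρb1, hρb2, hρb3⟩ := exists_radius (hb1.and ((ev_lt hρi).and (ev_lt hs)))
  -- the radius of the cores
  have hc1 : ∀ᶠ x in 𝓝[>] (0 : ℝ), ∀ t ∈ T, x * (‖t‖ + 1) < ρb ∧ x * (‖t‖ + 1) < 1 := by
    rw [Finset.eventually_all]
    exact fun t _ => (ev_mul_lt hρb).and (ev_mul_lt one_pos)
  obtain ⟨σ, hσ, hσ1, hσ2, hσ3⟩ := exists_radius (hc1.and ((ev_lt hρb).and (ev_lt one_pos)))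
  have hσρ : ∀ t ∈ T, σ < ρ t := fun t ht => hσ2.trans (hρb1 t ht)
  -- the constants of the charts
  obtain ⟨Ai, Ci, hAi, hCi, hDi⟩ := hρi1 σ hσ (hσ2.trans hρb2) B hB
  have hex2 : ∀ t : {t // t ∈ T}, ∃ A C₀ : ℝ, 0 ≤ A ∧ 0 ≤ C₀ ∧
      DirP v g J ((e : ℝ) + 1 + ι - m) r (fun n q => ∀ i, FZero (cc t.1 i) (gt ι (g' t.1)) ∨ HasOrd (cc t.1 i) (fun x => q (be t.1 x)) n) re B A C₀
        (fun Om p => Omt Om p t.1 (ρ t.1)) (fun Om p => {z | w t.1 0 = 0 ∧ z ∈ Kt t.1 (ρ t.1) σ Om p}) := fun t =>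
    hρD t.1 σ hσ (hσρ t.1 t.2) B hB
  choose At Ct hAt hCt hDt using hex2
  obtain ⟨Cb, hCb, hbase⟩ := hr3 ρb hρb H hHcd N B hB
  let AA : Option {t // t ∈ T} → ℝ := fun i => i.elim Ai At
  let CC : Option {t // t ∈ T} → ℝ := fun i => i.elim Ci Ct
  have hAA : ∀ i, 0 ≤ AA i := by
    rintro (_ | i)
    · exact hAi
    · exact hAt i
  have hCC : ∀ i, 0 ≤ CC i := by
    rintro (_ | i)
    · exact hCi
    · exact hCt i
  refine ⟨(Fintype.card (Option {t // t ∈ T}) + 1) * (1 + ∑ i, AA i) * A₁, (∑ i, CC i) * A₁, ?_, ?_, ?_⟩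
  · have : 0 ≤ ∑ i, AA i := Finset.sum_nonneg fun i _ => hAA i
    positivity
  · exact mul_nonneg (Finset.sum_nonneg fun i _ => hCC i) hA₁
  intro d n q ψ hd hn hq hψ hCon M F Q lm Om p hDat
  have hcrv := hDat.crv
  have hcrvs := crv_swap hDat.crv
  obtain ⟨l₁, K₁, hl₁, hle, hE, hEnB⟩ := hEn Om p lm hcrv.isOpen hcrv.an hcrv.mem hcrv.closed hDat.p_ne hDat.lm_cont hDat.lm_nonneg hDat.lm_ge
  have hEnB' : EnB Om p re l₁ := fun z hz hb => hEnB z hz (closedBall_subset_closedBall (hrete.trans htes).le hb)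
  have hEll : EllP Om p re fun z => H (p z) := fun z hz h0 hb => hHlog _ h0 hb
  have hl₁0 : ∀ z, 0 ≤ l₁ z := fun z => (hDat.lm_nonneg z).trans (hle z)
  -- contact
  have hConI : ∀ x : I, FZero (cI x) g ∨ HasOrd (cI x) q n := fun x => by
    have := hCon (eI x)
    rwa [Equiv.symm_apply_apply] at this
  have hCont : ∀ t : {t // t ∈ T}, ∀ i, FZero (cc t.1 i) (gt ι (g' t.1)) ∨ HasOrd (cc t.1 i) (fun x => q (be t.1 x)) n := by
    intro t i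
    by_cases h0 : w t.1 0 = 0
    · exact con_child (hw t.1) (hg'an t.1) (hg'm t.1) (hsep t.1 i) fun hx => hConI (Sum.inl ⟨⟨⟨t.1, h0⟩, i⟩, hx⟩)
    · have h1 := hreg t.1 h0
      have h2 : (i : ℕ) < mm t.1 := i.2
      omega
  have hConi : ∀ i, FZero (ci i) (gt ι gi) ∨ HasOrd (ci i) (fun x => q (be 0 x).swap) n := by
    intro i
    exact con_child (g := fun x => g x.swap) (q := fun x => q x.swap) hwi hgian hgim (hsepi i) fun hx => hConI (Sum.inr ⟨i, hx⟩)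
  -- the charts
  let OO : Option {t // t ∈ T} → Set ℂ := fun i => i.elim (Omt Om (fun z => (p z).swap) 0 ρi) fun t => Omt Om p t.1 (ρ t.1)
  let KK : Option {t // t ∈ T} → Set ℂ := fun i => i.elim {z | wi 0 = 0 ∧ z ∈ Kt 0 ρi σ Om fun z => (p z).swap} fun t => {z | w t.1 0 = 0 ∧ z ∈ Kt t.1 (ρ t.1) σ Om p}
  have hDi' := dirP_swap (v := v) (g := g) (J := J) (Con := fun n q => ∀ i, FZero (ci i) (gt ι gi) ∨ HasOrd (ci i) (fun x => q (be 0 x)) n)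
    (O := fun Om p => Omt Om p 0 ρi) (K := fun Om p => {z | wi 0 = 0 ∧ z ∈ Kt 0 ρi σ Om p}) (fun Om p z hz => hz.1) hDi
  have hch : ∀ i, DirC v g J N H Om p (AA i) (CC i * d / n) (OO i) (KK i) l₁ := by
    rintro (_ | t)
    · exact hDi' d n q ψ hd hn hq hψ hConi M F Q lm Om p hDat _ hEll l₁ hl₁ hle hEnB'
    · exact hDt t d n q ψ hd hn hq hψ (hCont t) M F Q lm Om p hDat _ hEll l₁ hl₁ hle hEnB'
  have hsl : ∀ z ∈ Om, HasSlope p z → HasSlope (fun w => (p w).swap) z → ‖slope p z‖ * ‖slope (fun w => (p w).swap) z‖ = 1 := by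
    intro z hz h1 h2
    rw [← norm_mul, slope_mul (hcrv.an z hz) h1 h2, norm_one]
  have hKO : ∀ i, KK i ⊆ OO i := by
    rintro (_ | t) z hz
    · exact hz.2.1
    · exact hz.2.1
  have hsub : ∀ i, OO i ⊆ Om := by
    rintro (_ | t) z hz
    · exact hz.1
    · exact hz.1
  have hσ0 := hσ.le
  have hσσ : σ * σ ≤ σ := by nlinarith
  have hdisb : ∀ i, ∀ z ∈ KK i, p z ∈ closedBall (0 : ℂ × ℂ) ρb := by
    rintro (_ | t) z hz
    · have h1 := mem_ball_of_core (hcrvs.an z hz.2.1.1) hz.2 hσ0 hσ2.le (by rw [norm_zero, zero_add]; linarith)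
      rw [mem_closedBall_zero_iff, norm_swap', ← mem_closedBall_zero_iff] at h1
      exact h1
    · refine mem_ball_of_core (hcrv.an z hz.2.1.1) hz.2 hσ0 hσ2.le ?_
      have h1 := (hσ1 t.1 t.2).1
      have h2 : σ * (‖t.1‖ + σ) ≤ σ * (‖t.1‖ + 1) := mul_le_mul_of_nonneg_left (by linarith) hσ0
      linarith
  have hdis : ∀ i j, i ≠ j → ∀ z ∈ KK i, z ∉ OO j := by
    rintro (_ | t) (_ | t') hij z hz hz'
    · exact hij rfl
    · obtain ⟨-, -, a3⟩ := norm_slope_le_of_core hz.2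
      have a4 : ‖slope p z‖ < ‖t'.1‖ + ρ t'.1 := norm_slope_le_of_mem hz'
      have a5 := hsl z hz'.1 hz'.2.1 hz.2.1.2.1
      rw [norm_zero, zero_add] at a3
      have a6 : ‖slope p z‖ * ‖slope (fun w => (p w).swap) z‖ ≤ (‖t'.1‖ + 1) * σ :=
        mul_le_mul (by linarith [hρ1 t'.1]) a3 (norm_nonneg _) (by positivity)
      have a7 := (hσ1 t'.1 t'.2).2
      rw [a5, mul_comm] at a6
      linarith
    · obtain ⟨-, -, a3⟩ := norm_slope_le_of_core hz.2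
      have a4 : ‖slope (fun w => (p w).swap) z‖ < ‖(0 : ℂ)‖ + ρi := norm_slope_le_of_mem hz'
      have a5 := hsl z hz'.1 hz.2.1.2.1 hz'.2.1
      rw [norm_zero, zero_add] at a4
      have a6 : ‖slope p z‖ * ‖slope (fun w => (p w).swap) z‖ ≤ (‖t.1‖ + 1) * ρi :=
        mul_le_mul (by linarith) a4.le (norm_nonneg _) (by positivity)
      have a7 := hρi2 ⟨t.1, hz.1⟩
      rw [a5, mul_comm] at a6
      dsimp only at a7
      linarith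
    · have hne : t.1 ≠ t'.1 := fun h => hij (by rw [Subtype.ext h])
      obtain ⟨a1, -, -⟩ := norm_slope_le_of_core hz.2
      have a2 := hz'.2.2.2
      have a3 := hρS t'.1 ⟨t.1, hz.1⟩ hne
      have a4 : ‖t.1 - t'.1‖ ≤ ‖slope p z - t'.1‖ + ‖slope p z - t.1‖ := by
        have : t.1 - t'.1 = (slope p z - t'.1) - (slope p z - t.1) := by ring
        rw [this]
        exact norm_sub_le _ _
      have a5 := hσρ t'.1 t'.2
      dsimp only at a3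
      linarith
  have hcov : ∀ z ∈ Om, p z ∈ closedBall (0 : ℂ × ℂ) ρb → ∃ i, z ∈ OO i := by
    intro z hz hb
    have hb' : ‖p z‖ ≤ ρb := by rwa [mem_closedBall_zero_iff] at hb
    rcases slope_cover (hcrv.an z hz) (hDat.p_ne z hz) (K := 2 / ρi) (by positivity) with ⟨a1, a2⟩ | ⟨a1, a2⟩
    · have h1 : slope p z ∈ closedBall (0 : ℂ) (2 / ρi) := by rwa [mem_closedBall_zero_iff]
      obtain ⟨t, ht⟩ := Set.mem_iUnion.1 (hT2 h1)
      obtain ⟨htT, ht2⟩ := Set.mem_iUnion.1 ht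
      refine ⟨some ⟨t, htT⟩, hz, a1, ?_, ?_⟩
      · exact (norm_fst_le (p z)).trans_lt (hb'.trans_lt (hρb1 t htT))
      · rwa [mem_ball, dist_eq_norm] at ht2
    · refine ⟨none, hz, a1, ?_, ?_⟩
      · exact (norm_snd_le (p z)).trans_lt (hb'.trans_lt hρb2)
      · rw [sub_zero]
        refine a2.trans_lt ?_
        rw [one_div_div]
        linarith
  have hδ : ∀ i, 0 ≤ CC i * d / n := fun i => div_nonneg (mul_nonneg (hCC i) (Nat.cast_nonneg _)) (Nat.cast_nonneg _)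
  have hfin := locX_of_charts htes hH0 hρb3 hAA hδ hcrv.an hDat.lm_nonneg hle hl₁ hE hCb
    (hbase Om p l₁ hcrv hDat.g_ne hl₁0 fun z hz => (hDat.lm_ge z hz).trans (mul_le_mul_of_nonneg_left (hle z) hB))
    hKO hsub hcov hdisb hdis hch
  have e1 : (∑ i, CC i * (d : ℝ) / n) * A₁ = (∑ i, CC i) * A₁ * d / n := by
    rw [← Finset.sum_div, ← Finset.sum_mul]
    ring
  rw [e1] at hfin
  exact hfin

end Pool.Agent.MQ2

end
end
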