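import Pool.Agent.H94.G6.M107
import Pool.Agent.H94.G6.M110
import Pool.Agent.H94.G6.M126
import Pool.Agent.H94.G6.M175
import Pool.Agent.H94.G6.M176
import Pool.Agent.H94.G6.M178
import Pool.Agent.H94.G6.M82

/-! The parts of this file: MQ2.TForm, MQ2.TAsm, MQ2.TB2, MQ2.TE_1. -/

section

/-!
# MQ2 TForm: a saddle-node with the strong separatrix in the weight and a formal weak separatrix
-/

set_option autoImplicit false

open Topology Filter Metric MeasureTheory Asymptotics Laplacian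

noncomputable section

namespace Pool.Agent.MQ2

open Pool.Agent.H36.BP (EN)
open Pool.Agent.H30M (tau LogSing)
open Pool.Agent.MQ

/-- the singular point of a saddle-node is isolated -/
theorem iso_formal {k : ℕ} {a b : ℂ × ℂ → ℂ} (ha : AnalyticAt ℂ a 0) (hb : AnalyticAt ℂ b 0) (ha0 : a 0 ≠ 0) (hb0 : b 0 = 0)
    (hb1 : fderiv ℂ b 0 (0, 1) ≠ 0) : ∀ᶠ q in 𝓝 (0 : ℂ × ℂ), q ≠ 0 → ((q.1 ^ (k + 1) * a q, b q) : ℂ × ℂ) ≠ 0 := by
  have hline : HasDerivAt (fun t : ℂ => ((0, t) : ℂ × ℂ)) (0, 1) 0 := (hasDerivAt_const 0 (0 : ℂ)).prodMk (hasDerivAt_id 0)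
  have h1 : HasDerivAt (fun t : ℂ => b (0, t)) (fderiv ℂ b 0 (0, 1)) 0 := by
    have h2 : HasFDerivAt b (fderiv ℂ b 0) ((0, 0) : ℂ × ℂ) := hb.differentiableAt.hasFDerivAt
    exact h2.comp_hasDerivAt 0 hline
  have h2 : ∀ᶠ t : ℂ in 𝓝[≠] 0, b (0, t) ≠ b (0, 0) := h1.eventually_ne hb1
  have h3 : ∀ᶠ t : ℂ in 𝓝 0, t ≠ 0 → b (0, t) ≠ 0 := by
    filter_upwards [eventually_nhdsWithin_iff.1 h2] with t ht h0
    intro h4
    exact ht h0 (h4.trans (show b ((0 : ℂ), (0 : ℂ)) = 0 from hb0).symm)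
  have h4 : ∀ᶠ q : ℂ × ℂ in 𝓝 0, q.2 ≠ 0 → b (0, q.2) ≠ 0 := (continuous_snd.tendsto (0 : ℂ × ℂ)).eventually h3
  filter_upwards [ha.continuousAt.eventually_ne ha0, h4] with q e1 e2 e3 e4
  have h5 : q.1 ^ (k + 1) * a q = 0 := congrArg Prod.fst e4
  have h6 : b q = 0 := congrArg Prod.snd e4
  have h7 : q.1 = 0 := pow_eq_zero_iff (by omega) |>.1 ((mul_eq_zero.1 h5).resolve_right e1)
  have h8 : q.2 = 0 := by
    by_contra h9
    apply e2 h9
    have h10 : ((0 : ℂ), q.2) = q := Prod.ext h7.symm rfl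
    rw [h10]
    exact h6
  exact e3 (Prod.ext h7 h8)

theorem fzero_formal_false {c : ℕ → ℂ} {g : ℂ × ℂ → ℂ} (hc : c 0 = 0) (hg : ∀ᶠ p in 𝓝 (0 : ℂ × ℂ), g p = p.1) : ¬ FZero (fun N t => (t, MQ.jet c N t)) g := by
  intro h
  have h1 := h 1
  have h2 : Tendsto (fun t : ℂ => ((t, MQ.jet c 1 t) : ℂ × ℂ)) (𝓝 0) (𝓝 0) := by
    have h3 := (continuous_id.prodMk (jet_differentiable c 1).continuous).tendsto (0 : ℂ)
    have h4 : ((id (0 : ℂ), MQ.jet c 1 0) : ℂ × ℂ) = 0 := by rw [MQ.jet_zero hc]; rfl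
    rwa [h4] at h3
  have h5 : (fun t : ℂ => t) =O[𝓝 0] fun t : ℂ => t ^ (1 + 1) := by
    refine h1.congr' ?_ (Eventually.of_forall fun _ => rfl)
    filter_upwards [h2.eventually hg] with t ht using ht
  obtain ⟨C, hC0, hC⟩ := h5.exists_pos
  rw [isBigOWith_iff] at hC
  have h6 : ∀ᶠ t : ℂ in 𝓝[≠] 0, ‖t‖ < 1 / C := by
    refine nhdsWithin_le_nhds ?_
    filter_upwards [ball_mem_nhds (0 : ℂ) (show 0 < 1 / C by positivity)] with t ht using by simpa using ht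
  have h10 : ∀ᶠ t : ℂ in 𝓝[≠] 0, ‖t‖ ≤ C * ‖t ^ (1 + 1)‖ := nhdsWithin_le_nhds hC
  have h11 : ∀ᶠ t : ℂ in 𝓝[≠] 0, t ≠ 0 := self_mem_nhdsWithin
  obtain ⟨t, h7, h8, h9⟩ := (h6.and (h10.and h11)).exists
  have ht0 : 0 < ‖t‖ := norm_pos_iff.2 h9
  rw [norm_pow] at h8
  rw [lt_div_iff₀ hC0] at h7
  have h12 : C * ‖t‖ ^ (1 + 1) = (‖t‖ * C) * ‖t‖ := by ring
  have h13 : (‖t‖ * C) * ‖t‖ < 1 * ‖t‖ := mul_lt_mul_of_pos_right h7 ht0
  linarith

theorem good_formal {k : ℕ} (hk : 1 ≤ k) {a b : ℂ × ℂ → ℂ} (ha : AnalyticAt ℂ a 0) (hb : AnalyticAt ℂ b 0) (ha0 : a 0 ≠ 0) (hb0 : b 0 = 0)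
    (hb1 : fderiv ℂ b 0 (0, 1) ≠ 0) {c : ℕ → ℂ} (hc : c 0 = 0)
    (hJ : ∀ J, (fun t => b (t, jet c J t) - deriv (jet c J) t * (t ^ (k + 1) * a (t, jet c J t))) =O[𝓝 0] fun t : ℂ => t ^ (J + 1)) :
    Good (fun g J => (∀ᶠ p in 𝓝 (0 : ℂ × ℂ), g p = p.1) ∧ ∀ᶠ p in 𝓝 (0 : ℂ × ℂ), J p = p.1 ^ (k + 1)) fun p => (p.1 ^ (k + 1) * a p, b p) := by
  refine ⟨1, fun _ N t => (t, jet c N t), fun _ => sep_formal hk ha hb hb0 hb1 hc hJ, fun g J hP hW _ => ?_⟩
  obtain ⟨hg, hJJ⟩ := hP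
  obtain ⟨C₀, hC₀, H⟩ := localN1_formal_dens hk ha hb ha0 hb1 hc hJ
  set v : ℂ × ℂ → ℂ × ℂ := fun p => (p.1 ^ (k + 1) * a p, b p) with hv
  have hvan : AnalyticAt ℂ v 0 := ((analyticAt_fst.pow _).mul ha).prod hb
  have hiso : ∀ᶠ q in 𝓝 (0 : ℂ × ℂ), q ≠ 0 → v q ≠ 0 := iso_formal ha hb ha0 hb0 hb1
  filter_upwards [ev_closedBall ha.eventually_analyticAt, ev_closedBall hb.eventually_analyticAt, ev_closedBall (ha.continuousAt.eventually_ne ha0),
    ev_closedBall hg, ev_closedBall hJJ, ev_closedBall hiso, DD_cof hvan hiso hW, self_mem_nhdsWithin]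
    with r a1 a2 a3 a5 a6 a7 a8 a9
  intro s hs hsr B hB
  have hr : 0 < r := a9
  refine ⟨1, C₀, zero_le_one, hC₀, fun d n q ψ hd hn hq hψ hord M F Q lm Om p hD => ?_⟩
  obtain ⟨_, -, h1⟩ := a8
  have hc1 : Crv1 v r Om p := hD.crv
  have hmem : ∀ z ∈ Om, p z ∈ closedBall (0 : ℂ × ℂ) r := fun z hz => ball_subset_closedBall (hc1.mem z hz)
  have hgz : ∀ z ∈ Om, p z ≠ 0 → g (p z) ≠ 0 := fun z hz h0 => (h1 Om p hc1 hD.g_ne z hz (a7 _ (hmem z hz) h0)).1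
  have hgz' : ∀ z ∈ Om, p z ≠ 0 → (fun q : ℂ × ℂ => q.1) (p z) ≠ 0 := by
    intro z hz h0
    have := hgz z hz h0
    rwa [a5 _ (hmem z hz)] at this
  obtain ⟨n', hnn', hn'⟩ : HasOrd (fun N t => (t, jet c N t)) q n := by
    rcases hord 0 with h2 | h2
    · exact absurd h2 (fzero_formal_false hc hg)
    · exact h2
  obtain ⟨c', hc', hrel⟩ := hD.Q_eq
  have hv0 : ∀ p ∈ closedBall (0 : ℂ × ℂ) r, v p = 0 → p = 0 := fun p hp h0 => by
    by_contra h2
    exact a7 p hp h2 h0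
  have hN := H hr a1 a2 (v := v) (fun _ => rfl) hv0 (l := fun q => q.1) (Or.inl fun _ => rfl) hq (hn.trans hnn') hn' hψ d hD.F_diff hD.F_ne hD.Q_diff
    hD.Q_le hc' hc1 hrel hgz' hD.lm_cont hD.lam_le hs hsr
  have hd0 : (0 : ℝ) ≤ d := Nat.cast_nonneg d
  have hn0 : (0 : ℝ) < n := by exact_mod_cast hn
  have hnr : (n : ℝ) ≤ n' := by exact_mod_cast hnn'
  have hI : ∀ R, 1 ≤ R → 0 ≤ ∫ z, tau R z * lm z ^ 2 := fun R hR =>
    integral_nonneg fun z => mul_nonneg (Pool.Agent.H30M.tau_nonneg hR z) (sq_nonneg _)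
  have hN' : LocalN1 v g Om p (fun R => ∫ z, tau R z * lm z ^ 2) (fun R => ∫ z, ‖gr (tau R) z‖ * lm z) s (C₀ * d / n) :=
    (LocalN1.congr_weight hc1 (fun q hq => a5 q (ball_subset_closedBall hq)) hN).mono hI
      (div_le_div_of_nonneg_left (by positivity) hn0 hnr)
  -- the pointwise bound
  obtain ⟨Cb, hCb⟩ := (isCompact_closedBall (0 : ℂ × ℂ) r).bddAbove_image (f := fun q => ‖a q‖⁻¹)
    (ContinuousOn.inv₀ (fun q hq => (a1 q hq).continuousAt.norm.continuousWithinAt) fun q hq => norm_ne_zero_iff.2 (a3 q hq))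
  have hCb0 : 0 ≤ Cb := by
    have h0 : (0 : ℂ × ℂ) ∈ closedBall (0 : ℂ × ℂ) r := mem_closedBall_self hr.le
    exact (inv_nonneg.2 (norm_nonneg (a 0))).trans (hCb ⟨0, h0, rfl⟩)
  refine locX_of_localN1 (C₁ := Cb * r * B) hB (by positivity) hD.lm_cont hD.lm_nonneg hD.lm_ge hN' fun z hz _ => ?_
  have hz' := hmem z hz
  rw [a5 _ hz', a6 _ hz']
  by_cases hx : (p z).1 = 0
  · rw [hx, norm_zero, mul_zero, zero_mul]
    exact mul_nonneg (by positivity) (hD.lm_nonneg z)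
  · have hx0 : 0 < ‖(p z).1‖ := norm_pos_iff.2 hx
    have ha' : 0 < ‖a (p z)‖ := norm_pos_iff.2 (a3 _ hz')
    have hv1 : (v (p z)).1 ≠ 0 := mul_ne_zero (pow_ne_zero _ hx) (a3 _ hz')
    rw [hc1.ztv_fst hz hv1]
    have hv1' : (v (p z)).1 = (p z).1 ^ (k + 1) * a (p z) := rfl
    rw [hv1', norm_div, norm_mul, norm_pow]
    have h2 : ‖(p z).1‖ ≤ r := by
      have := norm_fst_le (p z)
      rw [mem_closedBall_zero_iff] at hz'
      linarith
    have h3 : ‖(deriv p z).1‖ ≤ B * lm z := (norm_fst_le _).trans (hD.lm_ge z hz)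
    have h4 : ‖a (p z)‖⁻¹ ≤ Cb := hCb ⟨p z, hz', rfl⟩
    have e : ‖(deriv p z).1‖ / (‖(p z).1‖ ^ (k + 1) * ‖a (p z)‖) * ‖(p z).1‖ * ‖(p z).1‖ ^ (k + 1) =
        ‖a (p z)‖⁻¹ * ‖(p z).1‖ * ‖(deriv p z).1‖ := by
      field_simp
    have e' : ‖(p z).1 ^ (k + 1)‖ = ‖(p z).1‖ ^ (k + 1) := norm_pow _ _
    have hBl : 0 ≤ B * lm z := mul_nonneg hB (hD.lm_nonneg z)
    rw [e]
    calc ‖a (p z)‖⁻¹ * ‖(p z).1‖ * ‖(deriv p z).1‖ ≤ Cb * r * (B * lm z) :=
          mul_le_mul (mul_le_mul h4 h2 (by positivity) hCb0) h3 (norm_nonneg _) (by positivity)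
      _ = Cb * r * B * lm z := by ring

end Pool.Agent.MQ2

end
end

section

/-!
# MQ2 TAsm: the terminal packages
-/

set_option autoImplicit false

open Topology Filter Metric MeasureTheory Asymptotics Laplacian

noncomputable section

namespace Pool.Agent.MQ2

open Pool.Agent.H36.BP (EN)
open Pool.Agent.H30M (tau LogSing)
open Pool.Agent.H17BP (Bihol Coord dx dy coord_iff exists_div_x exists_div_y)
open Pool.Agent.MQ

/-- `Iso` of a field in the form `(x a, b)` -/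
theorem iso_of_node {a b : ℂ × ℂ → ℂ} (ha : AnalyticAt ℂ a 0) (hb : AnalyticAt ℂ b 0) (ha0 : a 0 ≠ 0) (hb0 : b 0 ≠ 0) :
    Iso fun p => (p.1 * a p, p.2 * b p) := by
  refine ⟨(analyticAt_fst.mul ha).prod (analyticAt_snd.mul hb), by simp, ?_⟩
  filter_upwards [ha.continuousAt.eventually_ne ha0, hb.continuousAt.eventually_ne hb0] with p h1 h2 hp h3
  rw [Prod.mk_eq_zero] at h3
  exact hp (Prod.ext ((mul_eq_zero.1 h3.1).resolve_right h1) ((mul_eq_zero.1 h3.2).resolve_right h2))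

/-- the node with all weights divisible by `x` -/
theorem good_N {a b : ℂ × ℂ → ℂ} (ha : AnalyticAt ℂ a 0) (hb : AnalyticAt ℂ b 0) (ha0 : a 0 ≠ 0) (hb0 : b 0 ≠ 0)
    (hq : ∀ k l : ℕ, 1 ≤ k → 1 ≤ l → k * a 0 ≠ l * b 0) : Good (PX 0) fun p => (p.1 * a p, p.2 * b p) := by
  have h1 : AnalyticAt ℂ (fun p : ℂ × ℂ => (p.1 * a p, p.2 * b p)) 0 := (analyticAt_fst.mul ha).prod (analyticAt_snd.mul hb)
  refine good_of_wt (good_tr Bihol.id (iso_of_node ha hb ha0 hb0) h1 (Eventually.of_forall fun p => ?_) (good_node ha hb ha0 hb0 hq)) ?_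
  · simp
  · rintro g J ⟨⟨g₀, hg₀, hg⟩, -⟩ hw hJ
    obtain ⟨u, hu, hu0, h2⟩ := wt_node ha hb hq hw hg₀ hg
    rcases h2 with h2 | h2
    · refine ⟨fun p => p.1, J, u, fun _ => 1, Or.inr (Eventually.of_forall fun p => rfl), analyticAt_fst, hJ, hu, hu0, analyticAt_const, h2, ?_⟩
      exact Eventually.of_forall fun p => (mul_one _).symm
    · refine ⟨fun p => p.1 * p.2, J, u, fun _ => 1, Or.inl (Eventually.of_forall fun p => rfl), analyticAt_fst.mul analyticAt_snd, hJ, hu, hu0, analyticAt_const,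
        h2, ?_⟩
      exact Eventually.of_forall fun p => (mul_one _).symm

/-- the field in the coordinates `(x, y - s x)` -/
theorem fderiv_pair {S T : ℂ × ℂ → ℂ} {v : ℂ × ℂ → ℂ × ℂ} {p : ℂ × ℂ} (hS : DifferentiableAt ℂ S p) (hT : DifferentiableAt ℂ T p) :
    fderiv ℂ (fun q => (S q, T q)) p (v p) = (Dv v S p, Dv v T p) := by
  have h1 : HasFDerivAt (fun q => (S q, T q)) ((fderiv ℂ S p).prod (fderiv ℂ T p)) p := hS.hasFDerivAt.prodMk hT.hasFDerivAt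
  rw [h1.fderiv]
  rfl

/-- transfer to the coordinates `S`, `T` in which the field is `(f, g)` -/
theorem good_coord {v : ℂ × ℂ → ℂ × ℂ} (hv : Iso v) {S T : ℂ × ℂ → ℂ} (h : Coord S T) {V : ℂ × ℂ → ℂ × ℂ} (hV : AnalyticAt ℂ V 0)
    (hV1 : ∀ᶠ p in 𝓝 (0 : ℂ × ℂ), V (S p, T p) = (Dv v S p, Dv v T p)) {P : (ℂ × ℂ → ℂ) → (ℂ × ℂ → ℂ) → Prop} (hP : Good P V) :
    Good (TrP (fun p => (S p, T p)) P) v := by
  obtain ⟨hS, hT, hS0, hT0⟩ := h.parts
  refine good_tr h hv hV ?_ hP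
  filter_upwards [hV1, hS.eventually_analyticAt, hT.eventually_analyticAt] with p e1 e2 e3
  rw [e1, fderiv_pair e2.differentiableAt e3.differentiableAt]

/-- a function in the coordinates `(S, T)` -/
theorem exists_in_coord {S T f : ℂ × ℂ → ℂ} (h : Coord S T) (hf : AnalyticAt ℂ f 0) :
    ∃ F : ℂ × ℂ → ℂ, AnalyticAt ℂ F 0 ∧ F 0 = f 0 ∧ ∀ᶠ p in 𝓝 (0 : ℂ × ℂ), F (S p, T p) = f p := by
  obtain ⟨ψ, hψ, hl, hr⟩ := h.exists_inv
  refine ⟨fun q => f (ψ q), AnalyticAt.fun_comp (g := f) (f := ψ) (by rw [hψ.zero]; exact hf) hψ.an, by simp only [hψ.zero], ?_⟩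
  filter_upwards [hl] with p hp
  simp only [hp]

theorem good_A {a b : ℂ × ℂ → ℂ} (ha : AnalyticAt ℂ a 0) (hb : AnalyticAt ℂ b 0) (ha0 : a 0 ≠ 0) (hb0 : b 0 = 0) (hb1 : fderiv ℂ b 0 (0, 1) ≠ 0)
    (hq : ∀ k l : ℕ, 1 ≤ k → 1 ≤ l → k * a 0 ≠ l * fderiv ℂ b 0 (0, 1)) : Good (PX 1) fun p => (p.1 * a p, b p) := by
  set v : ℂ × ℂ → ℂ × ℂ := fun p => (p.1 * a p, b p) with hvd
  have hva : AnalyticAt ℂ v 0 := (analyticAt_fst.mul ha).prod hb
  have hv0 : v 0 = 0 := by simp [hvd, hb0]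
  have hx : dx (fun p => (v p).1) 0 = a 0 := (dx_of_div ha (Eventually.of_forall fun p => rfl)).1
  have hy : dy (fun p => (v p).2) 0 = fderiv ℂ b 0 (0, 1) := rfl
  obtain ⟨s, a', b', hs, hs0, ha', ha'0, hb', hb'0, hva', hbD⟩ := exists_axis hva hv0 (Eventually.of_forall fun y => by simp [hvd]) (by rw [hx]; exact ha0)
    (by
      intro n hn h
      rw [hx, hy] at h
      exact hq n 1 hn le_rfl (by rw [h]; simp))
  rw [hx] at ha'0
  rw [hy] at hb'0
  have hco := coord_fst_sub hs hs0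
  obtain ⟨A, hA, hA0, hAe⟩ := exists_in_coord hco ha'
  obtain ⟨B, hB, hB0, hBe⟩ := exists_in_coord hco hb'
  have hqq : ∀ k l : ℕ, 1 ≤ k → 1 ≤ l → k * A 0 ≠ l * B 0 := by
    rw [hA0, hB0, ha'0, hb'0]; exact hq
  have hA0' : A 0 ≠ 0 := by rw [hA0, ha'0]; exact ha0
  have hB0' : B 0 ≠ 0 := by rw [hB0, hb'0]; exact hb1
  have hiso : Iso v := by
    refine ⟨hva, hv0, ?_⟩
    obtain ⟨hS, hT, hS0, hT0⟩ := hco.parts
    filter_upwards [hva', hbD, ha'.continuousAt.eventually_ne (by rw [ha'0]; exact ha0), hb'.continuousAt.eventually_ne (by rw [hb'0]; exact hb1)] with p e1 e2 e3 e4 hp h0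
    have e5 : (v p).1 = 0 := by rw [h0]; rfl
    rw [e1, mul_eq_zero, or_iff_left e3] at e5
    have e6 : Dv v (fun q => q.2 - s q.1) p = 0 := by rw [Dv, h0, map_zero]
    rw [e2, mul_eq_zero, or_iff_left e4, e5, hs0, sub_zero] at e6
    exact hp (Prod.ext e5 e6)
  have hVan : AnalyticAt ℂ (fun q : ℂ × ℂ => (q.1 * A q, q.2 * B q)) 0 := (analyticAt_fst.mul hA).prod (analyticAt_snd.mul hB)
  have hV1 : ∀ᶠ p in 𝓝 (0 : ℂ × ℂ), (fun q : ℂ × ℂ => (q.1 * A q, q.2 * B q)) (p.1, p.2 - s p.1) = (Dv v (fun q => q.1) p, Dv v (fun q => q.2 - s q.1) p) := by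
    filter_upwards [hva', hbD, hAe, hBe] with p e1 e2 e3 e4
    rw [Dv_fst, e1, e2, e3, e4]
  refine good_of_wt (good_coord hiso hco hVan hV1 (good_N hA hB hA0' hB0' hqq)) ?_
  rintro g J ⟨⟨g₀, hg₀, hg⟩, J₀, hJ₀, hJe⟩ hw hJ
  obtain ⟨G₀, hG₀, -, hG⟩ := exists_in_coord hco hg₀
  obtain ⟨K, hK, -, hKe⟩ := exists_in_coord hco hJ
  refine ⟨fun q => q.1 * G₀ q, K, fun _ => 1, fun _ => 1, ⟨⟨G₀, hG₀, Eventually.of_forall fun q => rfl⟩, K, hK, Eventually.of_forall fun q => by simp⟩,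
    analyticAt_fst.mul hG₀, hK, analyticAt_const, one_ne_zero, analyticAt_const, ?_, ?_⟩
  · filter_upwards [hg, hG] with p e1 e2
    rw [e1, e2, mul_one]
  · filter_upwards [hKe] with p e1
    rw [e1, mul_one]

/-- the isolated zero of `(x ^ (k + 1) a, b)` -/
theorem iso_sn {k : ℕ} {a b : ℂ × ℂ → ℂ} (ha : AnalyticAt ℂ a 0) (hb : AnalyticAt ℂ b 0) (ha0 : a 0 ≠ 0) (hb0 : b 0 = 0)
    (hb1 : fderiv ℂ b 0 (0, 1) ≠ 0) : Iso fun p => (p.1 ^ (k + 1) * a p, b p) := by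
  refine ⟨((analyticAt_fst.pow _).mul ha).prod hb, by simp [hb0], ?_⟩
  have h1 : Coord (fun p => p.1) b := by
    rw [coord_iff analyticAt_fst hb rfl hb0]
    have e1 := dx_of_div (f := fun p : ℂ × ℂ => p.1) (a := fun _ => 1) analyticAt_const (Eventually.of_forall fun p => (mul_one _).symm)
    rw [e1.1, e1.2, one_mul, zero_mul, sub_zero]
    exact hb1
  obtain ⟨ψ, hψ, hl, hr⟩ := h1.exists_inv
  filter_upwards [hl, ha.continuousAt.eventually_ne ha0] with p e1 e2 hp h0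
  apply hp
  rw [Prod.mk_eq_zero, mul_eq_zero, or_iff_left e2, pow_eq_zero_iff (Nat.succ_ne_zero k)] at h0
  rw [← e1]
  have e3 : ((p.1, b p) : ℂ × ℂ) = 0 := by rw [h0.1, h0.2]; rfl
  rw [e3, hψ.zero]

/-- the saddle-node with two convergent separatrices -/
theorem good_S {k : ℕ} (hk : 1 ≤ k) {a b : ℂ × ℂ → ℂ} (ha : AnalyticAt ℂ a 0) (hb : AnalyticAt ℂ b 0) (ha0 : a 0 ≠ 0) (hb0 : b 0 ≠ 0) :
    Good (PX (k + 1)) fun p => (p.1 ^ (k + 1) * a p, p.2 * b p) := by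
  have hyb : AnalyticAt ℂ (fun p : ℂ × ℂ => p.2 * b p) 0 := analyticAt_snd.mul hb
  have hyb0 : (fun p : ℂ × ℂ => p.2 * b p) 0 = 0 := by simp
  have hyb1 : fderiv ℂ (fun p : ℂ × ℂ => p.2 * b p) 0 (0, 1) ≠ 0 := by
    have := (dy_of_div hb (Eventually.of_forall fun p => rfl)).1
    rw [Pool.Agent.H17BP.dy] at this
    rw [this]; exact hb0
  have hiso := iso_sn (k := k) ha hyb ha0 hyb0 hyb1
  obtain ⟨c, hc, hcJ⟩ := exists_formal ha hyb hyb0 hyb1 hk
  have h1 := good_or (good_sn hk ha hb ha0 hb0) (good_formal hk ha hyb ha0 hyb0 hyb1 hc hcJ)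
  refine good_of_wt (good_tr Bihol.id hiso hiso.1 (Eventually.of_forall fun p => by simp) h1) ?_
  rintro g J ⟨⟨g₀, hg₀, hg⟩, J₀, hJ₀, hJe⟩ hw hJ
  obtain ⟨u, hu, hu0, h2⟩ := wt_sn hk ha hb hb0 hw hg₀ hg
  rcases h2 with h2 | h2
  · exact ⟨fun q => q.1, fun q => q.1 ^ (k + 1), u, J₀, Or.inr ⟨Eventually.of_forall fun q => rfl, Eventually.of_forall fun q => rfl⟩, analyticAt_fst,
      analyticAt_fst.pow _, hu, hu0, hJ₀, h2, hJe⟩
  · exact ⟨fun q => q.1 * q.2, fun q => q.1 ^ (k + 1), u, J₀, Or.inl ⟨Eventually.of_forall fun q => rfl, Eventually.of_forall fun q => rfl⟩,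
      analyticAt_fst.mul analyticAt_snd, analyticAt_fst.pow _, hu, hu0, hJ₀, h2, hJe⟩

/-- the saddle-node with the strong separatrix `{x = 0}` exceptional of high multiplicity -/
theorem good_B' {k : ℕ} (hk : 1 ≤ k) {a b : ℂ × ℂ → ℂ} (ha : AnalyticAt ℂ a 0) (hb : AnalyticAt ℂ b 0) (ha0 : a 0 ≠ 0) (hb0 : b 0 = 0)
    (hb1 : fderiv ℂ b 0 (0, 1) ≠ 0) : Good (PX (k + 1)) fun p => (p.1 ^ (k + 1) * a p, b p) := by
  have hiso := iso_sn (k := k) ha hb ha0 hb0 hb1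
  obtain ⟨c, hc, hcJ⟩ := exists_formal ha hb hb0 hb1 hk
  have hsep := sep_formal hk ha hb hb0 hb1 hc hcJ
  by_cases hconv : ∃ γ : ℂ → ℂ × ℂ, AnalyticAt ℂ γ 0 ∧ ∀ N, (fun t => γ t - (t, jet c N t)) =O[𝓝 0] fun t : ℂ => t ^ (N + 1)
  · -- the weak separatrix converges
    obtain ⟨γ, hγ, hγN⟩ := hconv
    obtain ⟨s, hs, hs0, hinv⟩ := exists_conv ha hb hc hcJ hγ hγN
    have hva := hiso.1
    have ha1 : AnalyticAt ℂ (fun p : ℂ × ℂ => p.1 ^ k * a p) 0 := (analyticAt_fst.pow k).mul ha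
    obtain ⟨b', hb', hb'0, hbD⟩ := axis_of_curve hva ha1 (Eventually.of_forall fun p => by simp only; ring) hs hs0 hinv
    have hco := coord_fst_sub hs hs0
    obtain ⟨A, hA, hA0, hAe⟩ := exists_in_coord hco ha
    obtain ⟨B, hB, hB0, hBe⟩ := exists_in_coord hco hb'
    have hVan : AnalyticAt ℂ (fun q : ℂ × ℂ => (q.1 ^ (k + 1) * A q, q.2 * B q)) 0 := ((analyticAt_fst.pow _).mul hA).prod (analyticAt_snd.mul hB)
    have hV1 : ∀ᶠ p in 𝓝 (0 : ℂ × ℂ), (fun q : ℂ × ℂ => (q.1 ^ (k + 1) * A q, q.2 * B q)) (p.1, p.2 - s p.1) =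
        (Dv (fun p => (p.1 ^ (k + 1) * a p, b p)) (fun q => q.1) p, Dv (fun p => (p.1 ^ (k + 1) * a p, b p)) (fun q => q.2 - s q.1) p) := by
      filter_upwards [hbD, hAe, hBe] with p e2 e3 e4
      rw [Dv_fst, e2, e3, e4]
    have hA0' : A 0 ≠ 0 := by rw [hA0]; exact ha0
    have hB0' : B 0 ≠ 0 := by rw [hB0, hb'0]; exact hb1
    refine good_of_wt (good_coord hiso hco hVan hV1 (good_S hk hA hB hA0' hB0')) ?_
    rintro g J ⟨⟨g₀, hg₀, hg⟩, J₀, hJ₀, hJe⟩ hw hJ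
    obtain ⟨G₀, hG₀, -, hG⟩ := exists_in_coord hco hg₀
    obtain ⟨K₀, hK₀, -, hKe⟩ := exists_in_coord hco hJ₀
    refine ⟨fun q => q.1 * G₀ q, fun q => q.1 ^ (k + 1) * K₀ q, fun _ => 1, fun _ => 1,
      ⟨⟨G₀, hG₀, Eventually.of_forall fun q => rfl⟩, K₀, hK₀, Eventually.of_forall fun q => rfl⟩,
      analyticAt_fst.mul hG₀, (analyticAt_fst.pow _).mul hK₀, analyticAt_const, one_ne_zero, analyticAt_const, ?_, ?_⟩
    · filter_upwards [hg, hG] with p e1 e2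
      rw [e1, e2, mul_one]
    · filter_upwards [hJe, hKe] with p e1 e2
      rw [e1, e2, mul_one]
  · -- it does not converge: the weight is `x` up to a unit
    have h1 := good_formal hk ha hb ha0 hb0 hb1 hc hcJ
    refine good_of_wt (good_tr Bihol.id hiso hiso.1 (Eventually.of_forall fun p => by simp) h1) ?_
    rintro g J ⟨⟨g₀, hg₀, hg⟩, J₀, hJ₀, hJe⟩ hw hJ
    rcases wt_formal hk ha hb hb0 hb1 hc hcJ hw hg₀ hg with h2 | h2
    · exact absurd (hsep.alg g hw.an hw.ne h2) hconv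
    · exact ⟨fun q => q.1, fun q => q.1 ^ (k + 1), g₀, J₀, ⟨Eventually.of_forall fun q => rfl, Eventually.of_forall fun q => rfl⟩, analyticAt_fst,
        analyticAt_fst.pow _, hg₀, h2, hJ₀, hg, hJe⟩

end Pool.Agent.MQ2

end
end

section

/-!
# MQ2 TB2: a saddle-node whose strong separatrix is exceptional: `k + 1` blow-ups in the direction of the weak separatrix
-/

set_option autoImplicit false

open Topology Filter Metric MeasureTheory Asymptotics Laplacian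

noncomputable section

namespace Pool.Agent.MQ2

open Pool.Agent.H17BP (Bihol Coord dx dy coord_iff exists_div_x exists_div_y)
open Pool.Agent.MQ

theorem be_zero (t : ℂ) : be t 0 = 0 := by simp [be]

theorem be_fst_zero (t y : ℂ) : be t (0, y) = 0 := by simp [be]

theorem analyticAt_be (t : ℂ) (p : ℂ × ℂ) : AnalyticAt ℂ (be t) p :=
  analyticAt_fst.prod (analyticAt_fst.mul (analyticAt_snd.add analyticAt_const))

theorem tendsto_be (t : ℂ) : Tendsto (be t) (𝓝 0) (𝓝 0) := by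
  have := (analyticAt_be t 0).continuousAt.tendsto
  rwa [be_zero] at this

theorem analyticAt_comp_be {f : ℂ × ℂ → ℂ} (hf : AnalyticAt ℂ f 0) (t : ℂ) : AnalyticAt ℂ (fun q => f (be t q)) 0 :=
  AnalyticAt.fun_comp (g := f) (f := be t) (by rw [be_zero]; exact hf) (analyticAt_be t 0)

theorem dy_eq_deriv {f : ℂ × ℂ → ℂ} (hf : AnalyticAt ℂ f 0) : dy f 0 = deriv (fun y => f (0, y)) 0 := by
  have h1 : HasDerivAt (fun y : ℂ => ((0 : ℂ), y)) ((0 : ℂ), (1 : ℂ)) 0 := (hasDerivAt_const _ _).prodMk (hasDerivAt_id _)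
  have h2 : HasDerivAt (fun y => f (0, y)) (fderiv ℂ f 0 (0, 1)) 0 := hf.differentiableAt.hasFDerivAt.comp_hasDerivAt (0 : ℂ) h1
  rw [h2.deriv]; rfl

/-- the division by `x` of the pull-back -/
theorem exists_beta {b : ℂ × ℂ → ℂ} (hb : AnalyticAt ℂ b 0) (hb0 : b 0 = 0) (t : ℂ) : ∃ β : ℂ × ℂ → ℂ, AnalyticAt ℂ β 0 ∧
    (∀ᶠ q in 𝓝 (0 : ℂ × ℂ), b (be t q) = q.1 * β q) ∧ ∀ᶠ y in 𝓝 (0 : ℂ), β (0, y) = fderiv ℂ b 0 (1, 0) + (y + t) * fderiv ℂ b 0 (0, 1) := by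
  obtain ⟨β, hβ, h1⟩ := exists_div_x (analyticAt_comp_be hb t) (Eventually.of_forall fun y => by rw [be_fst_zero, hb0])
  refine ⟨β, hβ, by simpa using h1, ?_⟩
  have ht : Tendsto (fun y : ℂ => ((0 : ℂ), y)) (𝓝 0) (𝓝 0) := (by fun_prop : Continuous fun y : ℂ => ((0 : ℂ), y)).tendsto' _ _ rfl
  filter_upwards [ht.eventually h1.eventually_nhds, ht.eventually hβ.eventually_analyticAt] with y e1 e2
  have h2 : HasDerivAt (fun x : ℂ => (x, y)) ((1 : ℂ), (0 : ℂ)) 0 := (hasDerivAt_id _).prodMk (hasDerivAt_const _ _)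
  have h3 : HasDerivAt (fun x : ℂ => be t (x, y)) ((1 : ℂ), y + t) 0 := by
    have h4 : HasDerivAt (fun x : ℂ => x * (y + t)) (1 * (y + t)) 0 := (hasDerivAt_id _).mul_const _
    rw [one_mul] at h4
    exact (hasDerivAt_id _).prodMk h4
  have h4 : HasDerivAt (fun x : ℂ => b (be t (x, y))) (fderiv ℂ b 0 ((1 : ℂ), y + t)) 0 :=
    (show HasFDerivAt b (fderiv ℂ b 0) (be t (0, y)) from by rw [be_fst_zero]; exact hb.differentiableAt.hasFDerivAt).comp_hasDerivAt (0 : ℂ) h3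
  have h5 : HasDerivAt (fun x : ℂ => x * β (x, y)) (1 * β (0, y) + 0 * (fderiv ℂ β (0, y) (1, 0))) 0 :=
    (hasDerivAt_id (0 : ℂ)).mul (e2.differentiableAt.hasFDerivAt.comp_hasDerivAt (0 : ℂ) h2)
  have h6 : (fun x : ℂ => b (be t (x, y))) =ᶠ[𝓝 0] fun x => x * β (x, y) := by
    have h7 : Tendsto (fun x : ℂ => (x, y)) (𝓝 0) (𝓝 (0, y)) := (by fun_prop : Continuous fun x : ℂ => (x, y)).tendsto' _ _ rfl
    filter_upwards [h7.eventually e1] with x hx
    rw [hx]; rfl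
  have h8 := (h5.congr_of_eventuallyEq h6).unique h4
  have h9 : (((1 : ℂ), y + t) : ℂ × ℂ) = (1, 0) + (y + t) • ((0 : ℂ), (1 : ℂ)) := by ext <;> simp
  rw [h9, map_add, map_smul, smul_eq_mul] at h8
  rw [← h8]; ring

/-- the same at infinity -/
theorem exists_beta_swap {b : ℂ × ℂ → ℂ} (hb : AnalyticAt ℂ b 0) (hb0 : b 0 = 0) : ∃ β : ℂ × ℂ → ℂ, AnalyticAt ℂ β 0 ∧
    (∀ᶠ q in 𝓝 (0 : ℂ × ℂ), b (be 0 q).swap = q.1 * β q) ∧ β 0 = fderiv ℂ b 0 (0, 1) := by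
  have hsw : AnalyticAt ℂ (fun p : ℂ × ℂ => p.swap) 0 := analyticAt_snd.prod analyticAt_fst
  have hb' : AnalyticAt ℂ (fun p : ℂ × ℂ => b p.swap) 0 := AnalyticAt.fun_comp (g := b) (f := fun p : ℂ × ℂ => p.swap) hb hsw
  obtain ⟨β, h1, h2, h3⟩ := exists_beta hb' (by simpa using hb0) 0
  refine ⟨β, h1, h2, ?_⟩
  have h4 := h3.self_of_nhds
  have h5 : HasFDerivAt (fun p : ℂ × ℂ => p.swap) (ContinuousLinearEquiv.prodComm ℂ ℂ ℂ : ℂ × ℂ →L[ℂ] ℂ × ℂ) 0 :=
    (ContinuousLinearEquiv.prodComm ℂ ℂ ℂ).hasFDerivAt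
  have h6 : HasFDerivAt (fun p : ℂ × ℂ => b p.swap) ((fderiv ℂ b 0).comp (ContinuousLinearEquiv.prodComm ℂ ℂ ℂ : ℂ × ℂ →L[ℂ] ℂ × ℂ)) 0 :=
    (show HasFDerivAt b (fderiv ℂ b 0) ((0 : ℂ × ℂ).swap) from hb.differentiableAt.hasFDerivAt).comp 0 h5
  rw [h6.fderiv] at h4
  have h7 : β 0 = β (0, 0) := rfl
  rw [h7, h4]
  simp

/-- the induction on the multiplicity of the exceptional line -/
theorem good_Bj {k : ℕ} (hk : 1 ≤ k) : ∀ (m j : ℕ), j + m = k + 1 → 1 ≤ j → ∀ {a b : ℂ × ℂ → ℂ}, AnalyticAt ℂ a 0 → AnalyticAt ℂ b 0 → a 0 ≠ 0 → b 0 = 0 →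
    fderiv ℂ b 0 (0, 1) ≠ 0 → Good (PX j) fun p => (p.1 ^ (k + 1) * a p, b p) := by
  intro m
  induction m with
  | zero =>
    intro j hj _ a b ha hb ha0 hb0 hb1
    rw [add_zero] at hj
    subst hj
    exact good_B' hk ha hb ha0 hb0 hb1
  | succ m ih =>
    intro j hj hj1 a b ha hb ha0 hb0 hb1
    have hiso := iso_sn (k := k) ha hb ha0 hb0 hb1
    choose β hβ hβe hβ0 using exists_beta hb hb0
    obtain ⟨βi, hβi, hβie, hβi0⟩ := exists_beta_swap hb hb0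
    have hk0 : (0 : ℂ) ^ k = 0 := zero_pow (by omega)
    -- the transforms
    let bt : ℂ → ℂ × ℂ → ℂ := fun t q => β t q - (q.2 + t) * (q.1 ^ k * a (be t q))
    have hbt : ∀ t, AnalyticAt ℂ (bt t) 0 := fun t =>
      (hβ t).sub ((analyticAt_snd.add analyticAt_const).mul ((analyticAt_fst.pow k).mul (analyticAt_comp_be ha t)))
    have hbt0 : ∀ t y, bt t (0, y) = β t (0, y) := fun t y => by simp [bt, hk0]
    have hbty : ∀ t, dy (bt t) 0 = fderiv ℂ b 0 (0, 1) := by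
      intro t
      rw [dy_eq_deriv (hbt t)]
      have h1 : (fun y => bt t (0, y)) =ᶠ[𝓝 0] fun y => fderiv ℂ b 0 (1, 0) + (y + t) * fderiv ℂ b 0 (0, 1) := by
        filter_upwards [hβ0 t] with y hy
        rw [hbt0, hy]
      have h2 : HasDerivAt (fun y : ℂ => fderiv ℂ b 0 (1, 0) + (y + t) * fderiv ℂ b 0 (0, 1)) (1 * fderiv ℂ b 0 (0, 1)) 0 :=
        (((hasDerivAt_id (0 : ℂ)).add_const t).mul_const _).const_add _
      rw [h1.deriv_eq, h2.deriv, one_mul]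
    let w : ℂ → ℂ × ℂ → ℂ × ℂ := fun t q => (q.1 ^ (k + 1) * a (be t q), bt t q)
    have hw : ∀ t, Child 0 1 t (fun p => (p.1 ^ (k + 1) * a p, b p)) (w t) := by
      intro t
      refine ⟨((analyticAt_fst.pow _).mul (analyticAt_comp_be ha t)).prod (hbt t), Eventually.of_forall fun q => ?_, ?_, ?_,
        Or.inl ⟨rfl, Eventually.of_forall fun y => by simp [w]⟩⟩
      · simp [w, be]
      · filter_upwards [hβe t] with q hq
        simp only [w, bt]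
        rw [hq]
        have : (be t q).1 = q.1 := rfl
        rw [this]
        ring
      · have hne : ∀ᶠ y in 𝓝 (0 : ℂ), y ≠ 0 → β t (0, y) ≠ 0 := by
          by_cases h0 : fderiv ℂ b 0 (1, 0) + t * fderiv ℂ b 0 (0, 1) = 0
          · filter_upwards [hβ0 t] with y hy hy0
            rw [hy]
            have : fderiv ℂ b 0 (1, 0) + (y + t) * fderiv ℂ b 0 (0, 1) = y * fderiv ℂ b 0 (0, 1) := by linear_combination h0
            rw [this]
            exact mul_ne_zero hy0 hb1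
          · have hc : ContinuousAt (fun y : ℂ => fderiv ℂ b 0 (1, 0) + (y + t) * fderiv ℂ b 0 (0, 1)) 0 := by fun_prop
            filter_upwards [hβ0 t, hc.eventually_ne (by simpa using h0)] with y hy hy1 _
            rw [hy]; exact hy1
        have hsnd : Tendsto (fun q : ℂ × ℂ => q.2) (𝓝 0) (𝓝 0) := continuous_snd.tendsto' _ _ rfl
        filter_upwards [hsnd.eventually hne, (tendsto_be t).eventually (ha.continuousAt.eventually_ne ha0)] with q e1 e2 hq h0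
        simp only [w] at h0
        rw [Prod.mk_eq_zero, mul_eq_zero, or_iff_left e2, pow_eq_zero_iff (Nat.succ_ne_zero k)] at h0
        have e3 : q = (0, q.2) := Prod.ext h0.1 rfl
        have e4 : q.2 ≠ 0 := fun h => hq (by rw [e3, h]; rfl)
        refine e1 e4 ?_
        rw [← hbt0, ← e3]
        exact h0.2
    obtain ⟨Bi, hBi⟩ : ∃ Bi : ℂ × ℂ → ℂ, ∀ q, Bi q = q.1 ^ k * q.2 ^ k * a (be 0 q).swap - βi q := ⟨_, fun q => rfl⟩
    let wi : ℂ × ℂ → ℂ × ℂ := fun q => (q.1 * βi q, q.2 * Bi q)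
    have hsw : AnalyticAt ℂ (fun p : ℂ × ℂ => p.swap) 0 := analyticAt_snd.prod analyticAt_fst
    have has : AnalyticAt ℂ (fun q : ℂ × ℂ => a (be 0 q).swap) 0 :=
      analyticAt_comp_be (f := fun p => a p.swap) (AnalyticAt.fun_comp (g := a) (f := fun p : ℂ × ℂ => p.swap) ha hsw) 0
    have hB : AnalyticAt ℂ Bi 0 := by
      have h1 : Bi = fun q : ℂ × ℂ => q.1 ^ k * q.2 ^ k * a (be 0 q).swap - βi q := funext hBi
      rw [h1]
      exact (((analyticAt_fst.pow k).mul (analyticAt_snd.pow k)).mul has).sub hβi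
    have hB0 : Bi 0 = - fderiv ℂ b 0 (0, 1) := by
      rw [hBi]
      simp [hk0, hβi0]
    have hA0 : βi 0 ≠ 0 := by rw [hβi0]; exact hb1
    have hisoi := iso_of_node hβi hB hA0 (by rw [hB0]; exact neg_ne_zero.2 hb1)
    have hwi : Child 0 1 0 (swv fun p => (p.1 ^ (k + 1) * a p, b p)) wi := by
      refine ⟨hisoi.1, ?_, ?_, hisoi.2.2, Or.inl ⟨rfl, Eventually.of_forall fun y => by simp [wi]⟩⟩
      · filter_upwards [hβie] with q hq
        simp only [swv, wi, Prod.fst_swap]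
        rw [hq]; ring
      · filter_upwards [hβie] with q hq
        simp only [swv, wi, Prod.fst_swap, Prod.snd_swap]
        rw [hq]
        have : (be 0 q).2 = q.1 * q.2 := by simp [be]
        rw [this, hBi]
        ring
    refine good_step hiso hw hwi (fun t ht => ?_) fun _ => ?_
    · -- the weak direction
      have e1 : bt t 0 = 0 := congrArg Prod.snd ht
      have e2 := ih (j + 1) (by omega) (by omega) (analyticAt_comp_be ha t) (hbt t) (by rw [be_zero]; exact ha0) e1 (by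
        have := hbty t
        rw [Pool.Agent.H17BP.dy] at this
        rw [this]; exact hb1)
      refine Good.mono ?_ e2
      rintro g₁ J₁ ⟨g, J, m', g', ⟨-, J₀, hJ₀, hJe⟩, -, -, hg', -, hg₁, hJ₁⟩
      refine ⟨⟨g', hg', by simpa using hg₁⟩, fun q => J₀ (be t q), analyticAt_comp_be hJ₀ t, ?_⟩
      filter_upwards [hJ₁, (tendsto_be t).eventually hJe] with q a1 a2
      rw [a1, a2]
      have : (be t q).1 = q.1 := rfl
      rw [this]; ring
    · -- the corner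
      have e1 := good_C hβi hB hA0 (by rw [hB0]; exact neg_ne_zero.2 hb1) (by
        intro k' l hk' hl h
        rw [hβi0, hB0] at h
        have h2 : ((k' : ℂ) + l) * fderiv ℂ b 0 (0, 1) = 0 := by linear_combination h
        rcases mul_eq_zero.1 h2 with h3 | h3
        · have h4 : ((k' + l : ℕ) : ℂ) = 0 := by push_cast; exact h3
          rw [Nat.cast_eq_zero] at h4
          omega
        · exact hb1 h3)
      refine Good.mono ?_ e1
      rintro g₁ J₁ ⟨g, J, m', g', ⟨⟨g₀, hg₀, hge⟩, -⟩, -, hJ, hg', hgm, hg₁, hJ₁⟩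
      -- `y` divides `g'`
      have hdiv : ∀ᶠ x in 𝓝 (0 : ℂ), g' (x, 0) = 0 := by
        have ht : Tendsto (fun x : ℂ => (x, (0 : ℂ))) (𝓝 0) (𝓝 0) := (by fun_prop : Continuous fun x : ℂ => (x, (0 : ℂ))).tendsto' _ _ rfl
        have hsm : Tendsto (fun q : ℂ × ℂ => (be 0 q).swap) (𝓝 0) (𝓝 0) := by
          have h1 : Tendsto (fun q : ℂ × ℂ => (be 0 q).swap) (𝓝 0) (𝓝 ((0 : ℂ × ℂ).swap)) := (continuous_swap.tendsto (0 : ℂ × ℂ)).comp (tendsto_be 0)
          exact h1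
        have h1 : ∀ᶠ x in 𝓝[≠] (0 : ℂ), g' (x, 0) = 0 := by
          filter_upwards [(ht.eventually hgm).filter_mono nhdsWithin_le_nhds, (ht.eventually (hsm.eventually hge)).filter_mono nhdsWithin_le_nhds,
            self_mem_nhdsWithin] with x a1 a2 hx
          have a3 : be 0 (x, 0) = (x, 0) := by simp [be]
          rw [a3] at a1 a2
          have a4 : ((x, (0 : ℂ)) : ℂ × ℂ).swap.swap = (x, 0) := rfl
          rw [a4] at a2
          rw [a2] at a1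
          have a5 : ((x, (0 : ℂ)) : ℂ × ℂ).swap.1 = 0 := rfl
          rw [a5, zero_mul] at a1
          exact (mul_eq_zero.1 a1.symm).resolve_left (pow_ne_zero m' hx)
        have h2 : AnalyticAt ℂ (fun x : ℂ => g' (x, 0)) 0 :=
          AnalyticAt.fun_comp (g := g') (f := fun x : ℂ => (x, (0 : ℂ))) (by exact hg') (analyticAt_id.prod analyticAt_const)
        rcases h2.eventually_eq_zero_or_eventually_ne_zero with h3 | h3
        · exact h3
        · obtain ⟨x, h4, h5⟩ := (h1.and h3).exists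
          exact absurd h4 h5
      obtain ⟨g'', hg'', hge''⟩ := exists_div_y hg' hdiv
      refine ⟨⟨g'', hg'', ?_⟩, fun q => J (be 0 q), analyticAt_comp_be hJ 0, hJ₁⟩
      filter_upwards [hg₁, hge''] with q a1 a2
      rw [a1, a2, smul_eq_mul]; ring

/-- **A saddle-node with the strong separatrix exceptional.** -/
theorem good_B {a b : ℂ × ℂ → ℂ} (ha : AnalyticAt ℂ a 0) (hb : AnalyticAt ℂ b 0) (ha0 : a 0 = 0) (hb0 : b 0 = 0) (hb1 : fderiv ℂ b 0 (0, 1) ≠ 0)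
    (hiso : ∀ᶠ p in 𝓝 (0 : ℂ × ℂ), p ≠ 0 → (p.1 * a p, b p) ≠ (0 : ℂ × ℂ)) : Good (PX 1) fun p => (p.1 * a p, b p) := by
  obtain ⟨v, hvd⟩ : ∃ v : ℂ × ℂ → ℂ × ℂ, v = fun p => (p.1 * a p, b p) := ⟨_, rfl⟩
  have hva : AnalyticAt ℂ v 0 := by rw [hvd]; exact (analyticAt_fst.mul ha).prod hb
  have hv0 : v 0 = 0 := by rw [hvd]; simp [hb0]
  have hv1 : ∀ p, (v p).1 = p.1 * a p := fun p => by rw [hvd]
  have hv2 : ∀ p, (v p).2 = b p := fun p => by rw [hvd]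
  have hI : Iso v := ⟨hva, hv0, by rw [hvd]; exact hiso⟩
  have hdy : dy (fun p => (v p).2) 0 ≠ 0 := by
    have : (fun p => (v p).2) = b := funext hv2
    rw [this]; exact hb1
  obtain ⟨n, w, A, hw, hw0, hA, hA0, hD⟩ := dulac hva hv0 hdy (Eventually.of_forall fun y => by rw [hv1]; simp) (eventually_nhdsWithin_iff.2 hI.2.2)
  -- `n ≥ 1`
  have hn : 1 ≤ n := by
    by_contra hn0
    have hn1 : n = 0 := by omega
    subst hn1
    have e1 : ∀ᶠ q in 𝓝 (0 : ℂ × ℂ), Dv v (fun q => q.1 * w q) q = q.1 * (a q * w q + Dv v w q) := by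
      filter_upwards [hw.eventually_analyticAt] with q e3
      rw [Dv_mul differentiableAt_fst e3.differentiableAt, Dv_fst, hv1]
      ring
    have e2 : ∀ᶠ q in 𝓝 (0 : ℂ × ℂ), Dv v (fun q => q.1 * w q) q = q.1 * (w q * A q) := by
      filter_upwards [hD] with q hq
      rw [hq]; ring
    have e3 := (dx_of_div ((ha.mul hw).add (analyticAt_Dv hva hw)) e1).1
    have e4 := (dx_of_div (hw.mul hA) e2).1
    rw [e3] at e4
    simp only [Pi.add_apply, Pi.mul_apply, ha0, zero_mul, zero_add] at e4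
    have e5 : Dv v w 0 = 0 := by rw [Dv, hv0, map_zero]
    rw [e5] at e4
    exact mul_ne_zero hw0 hA0 e4.symm
  -- the coordinates
  have hco : Coord (fun p : ℂ × ℂ => p.1 * w p) (fun p => p.2) := by
    have := coord_mul_left (w := w) Pool.Agent.H17BP.coord_fst_snd hw hw0
    exact this
  obtain ⟨Â, hÂ, hÂ0, hÂe⟩ := exists_in_coord hco hA
  obtain ⟨Bh, hBh, hBh0, hBhe⟩ := exists_in_coord hco hb
  obtain ⟨wi, hwi, hwi0, hwie⟩ := exists_in_coord hco (hw.inv hw0)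
  have hBh1 : fderiv ℂ Bh 0 (0, 1) ≠ 0 := by
    have h1 : HasFDerivAt (fun p : ℂ × ℂ => p.1 * w p) ((0 : ℂ × ℂ).1 • fderiv ℂ w 0 + w 0 • ContinuousLinearMap.fst ℂ ℂ ℂ) 0 :=
      (hasFDerivAt_fst (𝕜 := ℂ) (p := (0 : ℂ × ℂ))).mul hw.differentiableAt.hasFDerivAt
    have h2 : HasFDerivAt (fun p : ℂ × ℂ => (p.1 * w p, p.2)) (((0 : ℂ × ℂ).1 • fderiv ℂ w 0 + w 0 • ContinuousLinearMap.fst ℂ ℂ ℂ).prod (ContinuousLinearMap.snd ℂ ℂ ℂ)) 0 :=
      h1.prodMk hasFDerivAt_snd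
    have h3 := HasFDerivAt.comp (g := Bh) (f := fun p : ℂ × ℂ => (p.1 * w p, p.2)) (0 : ℂ × ℂ)
      (show HasFDerivAt Bh (fderiv ℂ Bh 0) ((fun p : ℂ × ℂ => (p.1 * w p, p.2)) 0) from by
        have : (fun p : ℂ × ℂ => (p.1 * w p, p.2)) 0 = 0 := by simp
        rw [this]; exact hBh.differentiableAt.hasFDerivAt) h2
    have h4 : fderiv ℂ b 0 = _ := (h3.congr_of_eventuallyEq (by filter_upwards [hBhe] with p hp using hp.symm)).fderiv
    rw [h4] at hb1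
    simpa using hb1
  have hVan : AnalyticAt ℂ (fun q : ℂ × ℂ => (q.1 ^ (n + 1) * Â q, Bh q)) 0 := ((analyticAt_fst.pow _).mul hÂ).prod hBh
  have hV1 : ∀ᶠ p in 𝓝 (0 : ℂ × ℂ), (fun q : ℂ × ℂ => (q.1 ^ (n + 1) * Â q, Bh q)) (p.1 * w p, p.2) = (Dv v (fun p => p.1 * w p) p, Dv v (fun q => q.2) p) := by
    filter_upwards [hD, hÂe, hBhe] with p e1 e2 e3
    rw [Dv_snd, e1, e2, e3, hv2]
  have key := good_coord hI hco hVan hV1 (good_Bj hn n 1 (by omega) le_rfl hÂ hBh (by rw [hÂ0]; exact hA0) (by rw [hBh0]; exact hb0) hBh1)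
  rw [hvd] at key
  refine good_of_wt key ?_
  rintro g J ⟨⟨g₀, hg₀, hg⟩, J₀, hJ₀, hJe⟩ hwt hJ
  obtain ⟨G₀, hG₀, -, hG⟩ := exists_in_coord hco hg₀
  obtain ⟨K₀, hK₀, -, hKe⟩ := exists_in_coord hco hJ₀
  refine ⟨fun q => q.1 * (wi q * G₀ q), fun q => q.1 ^ 1 * (wi q * K₀ q), fun _ => 1, fun _ => 1,
    ⟨⟨fun q => wi q * G₀ q, hwi.mul hG₀, Eventually.of_forall fun q => rfl⟩, fun q => wi q * K₀ q, hwi.mul hK₀, Eventually.of_forall fun q => rfl⟩,
    analyticAt_fst.mul (hwi.mul hG₀), (analyticAt_fst.pow _).mul (hwi.mul hK₀), analyticAt_const, one_ne_zero, analyticAt_const, ?_, ?_⟩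
  · filter_upwards [hg, hG, hwie, hw.continuousAt.eventually_ne hw0] with p e1 e2 e3 e4
    rw [e1, e2, e3]
    simp only [Pi.inv_apply]
    field_simp
  · filter_upwards [hJe, hKe, hwie, hw.continuousAt.eventually_ne hw0] with p e1 e2 e3 e4
    rw [e1, e2, e3]
    simp only [Pi.inv_apply]
    field_simp

end Pool.Agent.MQ2

end
end

section

/-!
# MQ2 TE: an elementary reduced singular point, from its two transforms

Blow up once.  `v (be t p) = x (A₁, B₁)`, `w t = (x A₁, B₁ - (y + t) A₁)`; `w t 0 = 0` iff `(1, t)` is an eigenvector; with its eigenvalue `λ` and the other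
one `λ'`: `A₁ 0 = λ`, `∂_y (B₁ - (y + t) A₁) = λ' - λ` at `0`.  So `w t` is of the type `good_A` (`λ ≠ 0`) or `good_B` (`λ = 0`).
-/

set_option autoImplicit false

open Topology Filter Metric MeasureTheory Asymptotics Laplacian

noncomputable section

namespace Pool.Agent.MQ2

open Pool.Agent.H36.BP (EN)
open Pool.Agent.H30M (tau LogSing)
open Pool.Agent.MQ

namespace TE

/-- the transforms of an elementary reduced singular point -/
theorem child {v : ℂ × ℂ → ℂ × ℂ} (hv : Iso v) (he : Elem v) (t : ℂ) : ∃ w : ℂ × ℂ → ℂ × ℂ, Child 0 1 t v w ∧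
    (w 0 = 0 → ∀ P : (ℂ × ℂ → ℂ) → (ℂ × ℂ → ℂ) → Prop, Good (TP 1 t P) w) := by
  obtain ⟨hva, hv0, hvi⟩ := hv
  obtain ⟨-, l, k, htr, hdt, hl0, hlk⟩ := he
  have hne : l ≠ k := by
    intro h
    apply hlk 1 1 one_pos one_pos
    rw [h]
  have ha : AnalyticAt ℂ (fun p => (v p).1) 0 := analyticAt_fst.comp hva
  have hb : AnalyticAt ℂ (fun p => (v p).2) 0 := analyticAt_snd.comp hva
  obtain ⟨A, hA, hA1, hA2⟩ := div ha (by rw [hv0]; rfl) t
  obtain ⟨B, hB, hB1, hB2⟩ := div hb (by rw [hv0]; rfl) t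
  rw [fderiv_fst hva, fderiv_fst hva] at hA2
  rw [fderiv_snd hva, fderiv_snd hva] at hB2
  set a₁ := (fderiv ℂ v 0 (1, 0)).1 with ha₁
  set a₂ := (fderiv ℂ v 0 (0, 1)).1 with ha₂
  set b₁ := (fderiv ℂ v 0 (1, 0)).2 with hb₁
  set b₂ := (fderiv ℂ v 0 (0, 1)).2 with hb₂
  set b : ℂ × ℂ → ℂ := fun p => B p - (p.2 + t) * A p with hbdef
  have hban : AnalyticAt ℂ b 0 := hB.sub ((analyticAt_snd.add analyticAt_const).mul hA)
  have hbl : ∀ᶠ y in 𝓝 (0 : ℂ), b (0, y) = b₁ + (b₂ - a₁) * (y + t) + (-a₂) * (y + t) ^ 2 := by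
    filter_upwards [hA2, hB2] with y h1 h2
    show B (0, y) - (y + t) * A (0, y) = _
    rw [h1, h2]
    ring
  -- the polynomial is not zero
  have hbne : ∀ᶠ y in 𝓝[≠] (0 : ℂ), b (0, y) ≠ 0 := by
    have h1 : AnalyticAt ℂ (fun y : ℂ => b (0, y)) 0 := by
      have h2 : AnalyticAt ℂ (fun y : ℂ => ((0 : ℂ), y)) 0 := analyticAt_const.prod analyticAt_id
      have h3 : AnalyticAt ℂ b ((fun y : ℂ => ((0 : ℂ), y)) 0) := hban
      exact h3.comp h2
    rcases h1.eventually_eq_zero_or_eventually_ne_zero with h | h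
    · exfalso
      obtain ⟨e0, e1, e2⟩ := poly_zero (t := t) (by
        filter_upwards [h, hbl] with y hy hy'
        rw [← hy', hy])
      apply hne
      have e3 : (l - k) ^ 2 = 0 := by
        have e4 : b₂ = a₁ := sub_eq_zero.1 e1
        have e5 : a₂ = 0 := neg_eq_zero.1 e2
        rw [e4] at htr hdt
        rw [e5] at hdt
        linear_combination (l + k + 2 * a₁) * htr - 4 * hdt
      exact sub_eq_zero.1 (pow_eq_zero_iff two_ne_zero |>.1 e3)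
    · exact h
  have hiso : ∀ᶠ p in 𝓝 (0 : ℂ × ℂ), p ≠ 0 → (p.1 * A p, b p) ≠ (0 : ℂ × ℂ) := by
    have h1 : ∀ᶠ p in 𝓝 (0 : ℂ × ℂ), p.2 ≠ 0 → b (0, p.2) ≠ 0 := by
      have h2 : Tendsto (fun p : ℂ × ℂ => p.2) (𝓝 0) (𝓝 0) := continuous_snd.tendsto' 0 0 rfl
      exact h2.eventually (eventually_nhdsWithin_iff.1 hbne)
    have h3 := (tend_be t).eventually hvi
    filter_upwards [h1, h3, hA1, hB1] with p hp1 hp3 hpA hpB hp0 hw
    have w1 : p.1 * A p = 0 := congrArg Prod.fst hw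
    have w2 : b p = 0 := congrArg Prod.snd hw
    by_cases hx : p.1 = 0
    · have hy : p.2 ≠ 0 := fun hy => hp0 (Prod.ext hx hy)
      apply hp1 hy
      have hp' : p = (0, p.2) := Prod.ext hx rfl
      rw [← hp']
      exact w2
    · have hA0 : A p = 0 := (mul_eq_zero.1 w1).resolve_left hx
      have hB0 : B p = 0 := by
        have : B p - (p.2 + t) * A p = 0 := w2
        rw [hA0, mul_zero, sub_zero] at this
        exact this
      apply hp3 (be_ne hx)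
      apply Prod.ext
      · rw [hpA, hA0, mul_zero]
        rfl
      · rw [hpB, hB0, mul_zero]
        rfl
  refine ⟨fun p => (p.1 * A p, b p), ⟨?_, ?_, ?_, ?_, Or.inl ⟨rfl, ?_⟩⟩, ?_⟩
  · exact (analyticAt_fst.mul hA).prod hban
  · filter_upwards [hA1] with p hp
    rw [hp, pow_zero, one_mul]
  · filter_upwards [hA1, hB1] with p hp hp'
    rw [hp, hp']
    show p.1 * B p = (p.2 + t) * (p.1 * A p) + p.1 ^ (0 + 1) * (B p - (p.2 + t) * A p)
    ring
  · exact hiso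
  · exact Eventually.of_forall fun y => by
      show (0 : ℂ) * A (0, y) = 0
      rw [zero_mul]
  · intro hw0 P
    refine Good.mono (P' := PX 1) tp_px ?_
    have hb0 : b 0 = 0 := congrArg Prod.snd hw0
    have hA0 : A 0 = a₁ + t * a₂ := by
      have h1 := hA2.self_of_nhds
      rw [zero_add] at h1
      exact h1
    have hb0' : b₁ + (b₂ - a₁) * t + (-a₂) * t ^ 2 = 0 := by
      have h1 := hbl.self_of_nhds
      rw [zero_add] at h1
      rw [← h1]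
      exact hb0
    have hbd : fderiv ℂ b 0 (0, 1) = b₂ - a₁ - 2 * t * a₂ := by
      have h1 : HasDerivAt (fun y : ℂ => b (0, y)) (fderiv ℂ b 0 (0, 1)) 0 := by
        have h2 : HasDerivAt (fun y : ℂ => ((0 : ℂ), y)) ((0 : ℂ), (1 : ℂ)) 0 :=
          (hasDerivAt_const (0 : ℂ) (0 : ℂ)).prodMk (hasDerivAt_id (0 : ℂ))
        have h3 : HasFDerivAt b (fderiv ℂ b 0) ((fun y : ℂ => ((0 : ℂ), y)) 0) := hban.differentiableAt.hasFDerivAt
        exact HasFDerivAt.comp_hasDerivAt (f := fun y : ℂ => ((0 : ℂ), y)) (0 : ℂ) h3 h2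
      have h4 : HasDerivAt (fun y : ℂ => b₁ + (b₂ - a₁) * (y + t) + (-a₂) * (y + t) ^ 2)
          ((b₂ - a₁) * 1 + (-a₂) * (2 * (0 + t) ^ 1 * 1)) 0 := by
        have h5 : HasDerivAt (fun y : ℂ => y + t) 1 0 := (hasDerivAt_id (0 : ℂ)).add_const t
        exact ((h5.const_mul (b₂ - a₁)).const_add b₁).add ((h5.pow 2).const_mul (-a₂))
      have h6 := h4.congr_of_eventuallyEq hbl
      rw [h1.unique h6]
      ring
    -- the eigenvalues
    set μ := fderiv ℂ b 0 (0, 1) with hμ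
    have e1 : A 0 + (A 0 + μ) = l + k := by
      rw [hA0, hbd, htr]
      ring
    have e2 : A 0 * (A 0 + μ) = l * k := by
      rw [hA0, hbd, hdt]
      linear_combination a₂ * hb0'
    have e3 : (A 0 - l) * (A 0 - k) = 0 := by
      linear_combination A 0 * e1 - e2
    rcases mul_eq_zero.1 e3 with e4 | e4
    · have e5 : A 0 = l := sub_eq_zero.1 e4
      have e6 : μ = k - l := by linear_combination e1 - 2 * e5
      refine good_A hA hban (by rw [e5]; exact hl0) hb0 (by rw [← hμ, e6]; exact sub_ne_zero.2 hne.symm) ?_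
      intro m n hm hn h
      rw [← hμ, e5, e6] at h
      apply hlk (m + n) n (by omega) hn
      push_cast
      linear_combination h
    · have e5 : A 0 = k := sub_eq_zero.1 e4
      have e6 : μ = l - k := by linear_combination e1 - 2 * e5
      have e7 : μ ≠ 0 := by rw [e6]; exact sub_ne_zero.2 hne
      by_cases hk : k = 0
      · exact good_B hA hban (by rw [e5]; exact hk) hb0 e7 hiso
      · refine good_A hA hban (by rw [e5]; exact hk) hb0 e7 ?_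
        intro m n hm hn h
        rw [← hμ, e5, e6] at h
        apply hlk n (m + n) hn (by omega)
        push_cast
        linear_combination -h

end TE

/-- module TE: one blow-up; the singular directions are the two eigenvalue directions, of the types `good_A` or `good_B` -/
theorem good_elem {v : ℂ × ℂ → ℂ × ℂ} (hv : Iso v) (he : Elem v) : Good PT v := by
  choose w hw hg using TE.child hv he
  obtain ⟨wi, hwi, hgi⟩ := TE.child (TE.iso_swap hv) (TE.elem_swap hv.1 he) 0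
  exact good_step hv hw hwi (fun t h => hg t h PT) fun h => hgi h (SP PT)

end Pool.Agent.MQ2

end
end
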