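import Pool.Agent.H94.G6.M114
import Pool.Agent.H94.G6.M134
import Pool.Agent.H94.G6.M151
import Pool.Agent.H94.G6.M164
import Pool.Agent.H94.G6.M166
import Pool.Agent.H94.G6.M170
import Pool.Agent.H94.G6.M174
import Pool.Agent.H94.G6.M179
import Pool.Agent.H94.G6.MQ3.GlobB

/-! The parts of this file: MQ2.GoodT, MQ3.FinW. -/

section

/-!
# MQ2 GoodT: the package at every isolated singular point
-/

set_option autoImplicit false

open Topology Filter Metric MeasureTheory Asymptotics Laplacian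

noncomputable section

namespace Pool.Agent.MQ2

theorem good_of_tree {v : ℂ × ℂ → ℂ × ℂ} (ht : Tree v) (hv : Iso v) : Good PT v := by
  induction ht with
  | reg v h => exact absurd hv.2.1 h
  | elem v h => exact good_elem hv h
  | blow v e ι w wi hw hwi _ _ ih ihi =>
    refine good_step hv hw hwi (fun t h0 => ?_) fun h0 => ?_
    · exact (ih t ⟨(hw t).an, h0, (hw t).iso⟩).mono fun _ _ _ => trivial
    · exact (ihi ⟨hwi.an, h0, hwi.iso⟩).mono fun _ _ _ => trivial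

theorem good_of_iso {v : ℂ × ℂ → ℂ × ℂ} (hv : Iso v) : Good PT v := good_of_tree (tree_of_iso hv) hv

end Pool.Agent.MQ2

end
end

section

/-!
# MQ3 FinW: the entire curves of order two which are null for a symmetric differential lie in one algebraic curve
-/

set_option autoImplicit false

open Topology Filter Metric MvPolynomial Asymptotics MeasureTheory Laplacian

noncomputable section

namespace Pool.Agent.MQ3

open Pool.Agent.H36.BP (EN fs)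
open Pool.Agent.H14.PP (Tan)
open Pool.Agent.H17BP (Surface IsForm)
open Pool.Agent.H17EF (projVar coneE)
open Pool.Agent.H30M (tau avg LogSing tau_nonneg)
open Pool.Agent.H62.FC (Homog)
open Pool.Agent.H17LG.Variety (FunField)
open Pool.Agent.MQ (lam En ztv dvg DDv gr dv Pack false_of_pack sieg)
open Pool.Agent.MQ2 (Iso Wt Sep FZero HasOrd LocX Good PT Dat hasOrd_of)

/-! ## the packages -/

/-- the package is monotone in the constants -/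
theorem locX_mono {v : ℂ × ℂ → ℂ × ℂ} {g J : ℂ × ℂ → ℂ} {Om : Set ℂ} {p : ℂ → ℂ × ℂ} {lm : ℂ → ℝ} {s A A' δ δ' : ℝ} (h : LocX v g J Om p lm s A δ)
    (hA : A ≤ A') (hδ : δ ≤ δ') : LocX v g J Om p lm s A' δ' := by
  obtain ⟨C, l, η, Φ, err, h0, h1, h2, h3, h4, h5, h6, h7, h8, h9, h10, h11⟩ := h
  have hI : ∀ R, 1 ≤ R → 0 ≤ ∫ z, tau R z * lm z ^ 2 := fun R hR => integral_nonneg fun z => mul_nonneg (tau_nonneg hR z) (sq_nonneg _)
  refine ⟨C, l, η, Φ, err, h0, h1, h2, fun R hR => (h3 R hR).trans ?_, h4, h5, h6, h7, h8, h9, h10, fun R hR => (h11 R hR).trans ?_⟩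
  · have := mul_le_mul_of_nonneg_right hA (hI R hR)
    linarith
  · have := mul_le_mul_of_nonneg_right hδ (hI R hR)
    linarith

/-- the package for one radius `r` -/
def Gr {m : ℕ} (c : Fin m → ℕ → ℂ → ℂ × ℂ) (v : ℂ × ℂ → ℂ × ℂ) (g J : ℂ × ℂ → ℂ) (r : ℝ) : Prop :=
  ∀ s, 0 < s → s < r → ∀ B, 0 ≤ B → ∃ A C₀ : ℝ, 0 ≤ A ∧ 0 ≤ C₀ ∧
    ∀ (d n : ℕ) (q : ℂ × ℂ → ℂ) (ψ : ℂ × ℂ → ℝ), 1 ≤ d → 1 ≤ n → AnalyticAt ℂ q 0 → ContDiffAt ℝ 1 ψ 0 → (∀ i, FZero (c i) g ∨ HasOrd (c i) q n) →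
      ∀ (M : ℕ) (F : ℂ → EN M) (Q : ℂ → ℂ) (lm : ℂ → ℝ) (Om : Set ℂ) (p : ℂ → ℂ × ℂ), Dat v g r B d q ψ F Q lm Om p →
        LocX v g J Om p lm s A (C₀ * d / n)

/-- the package of every germ of a vector field; no separatrices at a regular point -/
theorem exists_fam_pk : ∃ (m : (ℂ × ℂ → ℂ × ℂ) → ℕ) (fam : ∀ v : ℂ × ℂ → ℂ × ℂ, Fin (m v) → ℕ → ℂ → ℂ × ℂ), (∀ v, Iso v → ∀ i, Sep v (fam v i)) ∧
    (∀ v, v 0 ≠ 0 → m v = 0) ∧ ∀ v, AnalyticAt ℂ v 0 → (v 0 = 0 → Iso v) → ∀ g J, Wt v g → AnalyticAt ℂ J 0 → ∀ᶠ r in 𝓝[>] (0 : ℝ), Gr (fam v) v g J r := by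
  have key : ∀ v : ℂ × ℂ → ℂ × ℂ, ∃ (m : ℕ) (c : Fin m → ℕ → ℂ → ℂ × ℂ), (Iso v → ∀ i, Sep v (c i)) ∧ (v 0 ≠ 0 → m = 0) ∧
      (AnalyticAt ℂ v 0 → (v 0 = 0 → Iso v) → ∀ g J, Wt v g → AnalyticAt ℂ J 0 → ∀ᶠ r in 𝓝[>] (0 : ℝ), Gr c v g J r) := by
    intro v
    by_cases h0 : v 0 = 0
    · by_cases hI : Iso v
      · obtain ⟨m, c, h1, h2⟩ := Pool.Agent.MQ2.good_of_iso hI
        exact ⟨m, c, fun _ => h1, fun h => absurd h0 h, fun _ _ g J hg hJ => h2 g J trivial hg hJ⟩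
      · exact ⟨0, fun i => i.elim0, fun h => absurd h hI, fun _ => rfl, fun _ h => absurd (h h0) hI⟩
    · refine ⟨0, fun i => i.elim0, fun _ i => i.elim0, fun _ => rfl, fun hv _ g J hg hJ => ?_⟩
      filter_upwards [good_reg0 hv h0 hg hJ] with r h s hs hsr B hB
      obtain ⟨A, C₀, h1, h2, h3⟩ := h s hs hsr B hB
      exact ⟨A, C₀, h1, h2, fun d n q ψ hd hn hq hψ _ => h3 d n q ψ hd hn hq hψ⟩
  choose m fam h1 h2 h3 using key
  exact ⟨m, fam, h1, h2, h3⟩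

variable {M : ℕ} {P : Ideal (MvPolynomial (Fin (M + 1)) ℂ)} {m : ℕ}

/-- the data of a chart point -/
private theorem exists_pt {RD Ra : MvPolynomial (Fin (M + 1)) ℂ} {X : NCModel P RD} {θ : WDiff (coneE P) m} {l : LF M} {S : Web X θ l} {d dR : ℕ}
    (hd : RD.IsHomogeneous d) (hdR : Ra.IsHomogeneous dR) (hRa : RNe X Ra) (m' : (ℂ × ℂ → ℂ × ℂ) → ℕ)
    (fam : ∀ v : ℂ × ℂ → ℂ × ℂ, Fin (m' v) → ℕ → ℂ → ℂ × ℂ)
    (hpk : ∀ v, AnalyticAt ℂ v 0 → (v 0 = 0 → Iso v) → ∀ g J, Wt v g → AnalyticAt ℂ J 0 → ∀ᶠ r in 𝓝[>] (0 : ℝ), Gr (fam v) v g J r)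
    {k : S.ι} {q : ℂ × ℂ} (hq : q ∈ S.D k) :
    ∃ (r₀ : ℝ) (g : ℂ × ℂ → ℂ), 0 < r₀ ∧ Wt (fun x => S.v k (q + x)) (fun x => g (q + x)) ∧
      (∀ x ∈ closedBall q r₀, x ≠ q → InvAt S Ra k x g) ∧
      (∀ c : ℕ → ℂ → ℂ × ℂ, Sep (fun x => S.v k (q + x)) c → FZero c (fun x => eval (S.σ k (q + x)).ofLp Ra) → FZero c fun x => g (q + x)) ∧
      ∀ r, 0 < r → r ≤ r₀ → Gr (fam fun x => S.v k (q + x)) (fun x => S.v k (q + x)) (fun x => g (q + x)) (fun x => jc (S.κ k) (q + x)) r := by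
  have htr : ∀ {E : Type} [NormedAddCommGroup E] [NormedSpace ℂ E] {f : ℂ × ℂ → E}, AnalyticAt ℂ f q → AnalyticAt ℂ (fun x => f (q + x)) 0 := by
    intro E _ _ f hf
    have h1 : AnalyticAt ℂ (fun x : ℂ × ℂ => q + x) 0 := analyticAt_const.add analyticAt_id
    have h2 : AnalyticAt ℂ f ((fun x : ℂ × ℂ => q + x) 0) := by simpa using hf
    exact h2.comp h1
  obtain ⟨g, hg1, hg2, hg3⟩ := exists_gq hd hdR hRa hq
  have hv : AnalyticAt ℂ (fun x => S.v k (q + x)) 0 := htr (v_an k q hq)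
  have hiso : (fun x => S.v k (q + x)) 0 = 0 → Iso fun x => S.v k (q + x) := by
    intro h0
    refine ⟨hv, h0, ?_⟩
    have h1 := v_iso k q hq
    rw [eventually_nhdsWithin_iff] at h1
    have h2 : Tendsto (fun x : ℂ × ℂ => q + x) (𝓝 0) (𝓝 q) := by
      have h3 : Continuous fun x : ℂ × ℂ => q + x := continuous_const.add continuous_id
      have h4 := h3.tendsto 0
      rwa [add_zero] at h4
    filter_upwards [h2.eventually h1] with x h3 hx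
    exact h3 (by simpa using hx)
  have hJ : AnalyticAt ℂ (fun x => jc (S.κ k) (q + x)) 0 := by
    exact htr (f := jc (S.κ k)) (jc_an (analyticAt_mchart (S.c k).w.1 (S.c k).w'.1 (S.c k).w.2 (S.c k).w'.2 q))
  have h1 := hpk _ hv hiso _ _ hg1 hJ
  rw [eventually_nhdsWithin_iff] at hg2
  obtain ⟨ε, hε, h2⟩ := Metric.eventually_nhds_iff_ball.1 hg2
  obtain ⟨ε', hε', h3⟩ := mem_nhdsGT_iff_exists_Ioo_subset.1 h1
  refine ⟨min ε ε' / 2, g, by have := lt_min hε hε'; linarith, hg1, fun x hx hxq => ?_, hg3, fun r hr hr' => ?_⟩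
  · refine h2 x ?_ hxq
    refine lt_of_le_of_lt (mem_closedBall.1 hx) ?_
    have := min_le_left ε ε'
    linarith
  · refine h3 ⟨hr, ?_⟩
    have := min_le_right ε ε'
    have h4 : (0 : ℝ) < ε' := hε'
    linarith

/-- **The entire curves of order two which are null for a symmetric differential lie in one algebraic curve.** -/
theorem exists_R_web [P.IsPrime] (hP : Homog P) (hdim : ∃ z : Fin 2 → FunField P, IsTranscendenceBasis ℂ z) (hsmooth : Pool.Agent.AD.NC.IsSmooth P 2)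
    (hgt : Pool.Agent.AD.NC.IsOfLogGeneralType P (Fin.elim0 : Fin 0 → MvPolynomial (Fin (M + 1)) ℂ) 2) (hm : 1 ≤ m) (θ : WDiff (coneE P) m)
    (hθ : coneE P ⊆ closure {x | x ∈ coneE P ∧ ∃ v, Tan (coneE P) x v ∧ θ.toFun x v ≠ 0}) :
    ∃ (R : MvPolynomial (Fin (M + 1)) ℂ) (d : ℕ), R.IsHomogeneous d ∧ R ∉ P ∧ ∀ F : ℂ → EN M, Differentiable ℂ F → (∀ z, F z ∈ coneE P) →
      (∃ A : ℝ, ∀ r : ℝ, 0 < r → Real.circleAverage (fun z => Real.log ‖F z‖) 0 r ≤ A * (1 + r ^ 2)) → (∃ z w, ∀ c : ℂ, F z ≠ c • F w) →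
      (∀ z, θ.toFun (F z) (deriv F z) = 0) → ∀ z, eval (F z).ofLp R = 0 := by
  classical
  obtain ⟨z, hz⟩ := id hdim
  have hsm : ∀ y : Fin (M + 1) → ℂ, y ≠ 0 → (∀ Q ∈ P, eval y Q = 0) → Module.finrank ℂ (Pool.Agent.H13.SM.conTan P y) ≤ 3 :=
    fun y h0 h1 => hsmooth y h0 h1
  have hgt' : Pool.Agent.H62.FC.LogGeneralType P ∅ 2 := by
    have h1 : (Pool.Agent.H62.FC.OnBoundary P ∅ (w := 2)) = fun _ => False := by
      funext E
      apply propext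
      constructor
      · rintro ⟨j, -, -, i, hi, -⟩
        exact absurd hi (Finset.notMem_empty i)
      · exact False.elim
    have h2 := (Pool.Agent.AD.NC.isOfLogGeneralType_zero P _ 2).1 hgt
    unfold Pool.Agent.H62.FC.LogGeneralType
    rw [h1]
    exact h2
  have hX : Surface (coneE P) := Pool.Agent.H90.SG.surface_coneE hP hz hsm
  have hPp : P.IsPrime := inferInstance
  -- the frame and the model
  obtain ⟨l, RD, d, hRD, hRDP, hgood⟩ := exists_R_good hz hX hm θ hθ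
  obtain ⟨X, A₀, CK, hmodel⟩ := exists_ncModel hP hz hsm hRD hRDP
  -- the web
  have hbw : ∀ i, Nonempty (BoxWeb θ l (X.ρ i)) := fun i => exists_boxWeb hX hm (X.box i) fun p hp =>
    hgood _ ((X.box i).mem' hp).self_of_nhds (X.good i p hp)
  let W₀ : ∀ i, BoxWeb θ l (X.ρ i) := fun i => (hbw i).some
  let S : Web X θ l := ⟨W₀, fun i => (exists_webOver (W₀ i)).some⟩
  -- the packages
  obtain ⟨mv, fam, hfam, hfam0, hpk⟩ := exists_fam_pk
  obtain ⟨Ra, dR, hRa, hRaP, hRaZ⟩ := exists_Ra hz S mv fam hfam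
  have hRne : RNe X Ra := rne_of hP hz hsm X hRa hRaP
  have hpt : ∀ (k : S.ι) (q : ℂ × ℂ), ∃ (r₀ : ℝ) (g : ℂ × ℂ → ℂ), 0 < r₀ ∧ (q ∈ S.D k → Wt (fun x => S.v k (q + x)) (fun x => g (q + x)) ∧
      (∀ x ∈ closedBall q r₀, x ≠ q → InvAt S Ra k x g) ∧
      (∀ c : ℕ → ℂ → ℂ × ℂ, Sep (fun x => S.v k (q + x)) c → FZero c (fun x => eval (S.σ k (q + x)).ofLp Ra) → FZero c fun x => g (q + x)) ∧
      ∀ r, 0 < r → r ≤ r₀ → Gr (fam fun x => S.v k (q + x)) (fun x => S.v k (q + x)) (fun x => g (q + x)) (fun x => jc (S.κ k) (q + x)) r) := by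
    intro k q
    by_cases hq : q ∈ S.D k
    · obtain ⟨r₀, g, h1, h2, h3, h4, h5⟩ := exists_pt hRD hRa hRne mv fam hpk hq
      exact ⟨r₀, g, h1, fun _ => ⟨h2, h3, h4, h5⟩⟩
    · exact ⟨1, fun _ => 0, one_pos, fun h => absurd h hq⟩
  choose r₀ gq hr₀ hgq using hpt
  obtain ⟨C, hCr⟩ := exists_cov hRD hRa hRne S r₀ fun k q _ => hr₀ k q
  have hQD : ∀ j, C.Q j ∈ S.D (C.ck j) := fun j => (cp_compact (C.ck j)).2 (C.Q_mem j)
  set g : Fin C.nP → ℂ × ℂ → ℂ := fun j => gq (C.ck j) (C.Q j) with hgdef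
  have hgj := fun j => hgq (C.ck j) (C.Q j) (hQD j)
  have hrpos : ∀ j, 0 < C.r j := fun j => (C.s_pos j).trans (C.s_lt j)
  have hPG : PG C g := by
    refine ⟨fun j => ?_, fun j x hx hxQ => (hgj j).2.1 x (closedBall_subset_closedBall (hCr j) hx) hxQ⟩
    have h1 : AnalyticAt ℂ (fun x => g j (C.Q j + x)) 0 := (hgj j).1.an
    have h2 : AnalyticAt ℂ (fun x : ℂ × ℂ => x - C.Q j) (C.Q j) := analyticAt_id.sub analyticAt_const
    have h4 : AnalyticAt ℂ ((fun x => g j (C.Q j + x)) ∘ fun x : ℂ × ℂ => x - C.Q j) (C.Q j) := h1.comp_of_eq h2 (sub_self _)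
    refine h4.congr (Eventually.of_forall fun x => ?_)
    simp
  obtain ⟨A, hA0, hdens⟩ := exists_densN C A₀ CK
  have hGr : ∀ j, ∃ A' C₀ : ℝ, 0 ≤ A' ∧ 0 ≤ C₀ ∧
      ∀ (d n : ℕ) (q : ℂ × ℂ → ℂ) (ψ : ℂ × ℂ → ℝ), 1 ≤ d → 1 ≤ n → AnalyticAt ℂ q 0 → ContDiffAt ℝ 1 ψ 0 →
        (∀ i, FZero (fam (fun x => S.v (C.ck j) (C.Q j + x)) i) (fun x => g j (C.Q j + x)) ∨ HasOrd (fam (fun x => S.v (C.ck j) (C.Q j + x)) i) q n) →
          ∀ (M : ℕ) (F : ℂ → EN M) (Q : ℂ → ℂ) (lm : ℂ → ℝ) (Om : Set ℂ) (p : ℂ → ℂ × ℂ),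
            Dat (fun x => S.v (C.ck j) (C.Q j + x)) (fun x => g j (C.Q j + x)) (C.r j) 1 d q ψ F Q lm Om p →
              LocX (fun x => S.v (C.ck j) (C.Q j + x)) (fun x => g j (C.Q j + x)) (fun x => jc (S.κ (C.ck j)) (C.Q j + x)) Om p lm (C.s j) A' (C₀ * d / n) :=
    fun j => (hgj j).2.2.2 (C.r j) (hrpos j) (hCr j) (C.s j) (C.s_pos j) (C.s_lt j) 1 zero_le_one
  choose A' C₀ hA' hC₀ hLoc using hGr
  obtain ⟨A₁, hA₁, hA₁'⟩ : ∃ A₁ : ℝ, 0 ≤ A₁ ∧ ∀ j, A' j ≤ A₁ :=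
    ⟨∑ j, A' j, Finset.sum_nonneg fun j _ => hA' j, fun j => Finset.single_le_sum (fun j _ => hA' j) (Finset.mem_univ j)⟩
  obtain ⟨C₁, hC₁, hC₁'⟩ : ∃ C₁ : ℝ, 0 ≤ C₁ ∧ ∀ j, C₀ j ≤ C₁ :=
    ⟨∑ j, C₀ j, Finset.sum_nonneg fun j _ => hC₀ j, fun j => Finset.single_le_sum (fun j _ => hC₀ j) (Finset.mem_univ j)⟩
  -- the form of general type
  obtain ⟨mK, Wf, dW, QW, hm1, hQW, hQWP, hW, hWz⟩ := Pool.Agent.E2.exists_form_gt hP hz hsm hgt'
  -- the number `k`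
  obtain ⟨k, hk⟩ := exists_nat_gt ((mK : ℝ) * (C.nP * (C₁ + 1) * A))
  have hk0 : 0 < k := by
    have h1 : (0 : ℝ) < k := lt_of_le_of_lt (by positivity) hk
    exact_mod_cast h1
  have hkr : (0 : ℝ) < k := by exact_mod_cast hk0
  -- the form with high contact
  obtain ⟨e⟩ : Nonempty (Fin (Fintype.card (Σ j : Fin C.nP, Fin (mv fun x => S.v (C.ck j) (C.Q j + x)))) ≃
      (Σ j : Fin C.nP, Fin (mv fun x => S.v (C.ck j) (C.Q j + x)))) := ⟨(Fintype.equivFin _).symm⟩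
  have htr : ∀ {E : Type} [NormedAddCommGroup E] [NormedSpace ℂ E] {f : ℂ × ℂ → E} {q : ℂ × ℂ}, AnalyticAt ℂ f q → AnalyticAt ℂ (fun x => f (q + x)) 0 := by
    intro E _ _ f q hf
    have h1 : AnalyticAt ℂ (fun x : ℂ × ℂ => q + x) 0 := analyticAt_const.add analyticAt_id
    have h2 : AnalyticAt ℂ f ((fun x : ℂ × ℂ => q + x) 0) := by simpa using hf
    exact h2.comp h1
  have hvan : ∀ j, AnalyticAt ℂ (fun x => S.v (C.ck j) (C.Q j + x)) 0 := fun j => htr (v_an _ _ (hQD j))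
  -- `v` at a special point with separatrices is singular
  have hsing : ∀ j, ∀ _ : Fin (mv fun x => S.v (C.ck j) (C.Q j + x)), S.v (C.ck j) (C.Q j) = 0 := by
    intro j i
    by_contra h0
    have h1 := hfam0 (fun x => S.v (C.ck j) (C.Q j + x)) (by simpa using h0)
    rw [h1] at i
    exact i.elim0
  have hiso : ∀ j, S.v (C.ck j) (C.Q j) = 0 → Iso fun x => S.v (C.ck j) (C.Q j + x) := by
    intro j h0
    refine ⟨hvan j, by simpa using h0, ?_⟩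
    have h1 := v_iso (C.ck j) (C.Q j) (hQD j)
    rw [eventually_nhdsWithin_iff] at h1
    have h2 : Tendsto (fun x : ℂ × ℂ => C.Q j + x) (𝓝 0) (𝓝 (C.Q j)) := by
      have h3 : Continuous fun x : ℂ × ℂ => C.Q j + x := continuous_const.add continuous_id
      have h4 := h3.tendsto 0
      rwa [add_zero] at h4
    filter_upwards [h2.eventually h1] with x h3 hx
    exact h3 (by simpa using hx)
  have hsep : ∀ j, ∀ i, Sep (fun x => S.v (C.ck j) (C.Q j + x)) (fam (fun x => S.v (C.ck j) (C.Q j + x)) i) := fun j i => hfam _ (hiso j (hsing j i)) i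
  have hσan : ∀ j, AnalyticAt ℂ (fun x => S.σ (C.ck j) (C.Q j + x)) 0 := fun j => htr (σ_an _ _ (hQD j)).1
  have hcan : ∀ n (t : Fin (Fintype.card (Σ j : Fin C.nP, Fin (mv fun x => S.v (C.ck j) (C.Q j + x))))),
      AnalyticAt ℂ (fun s => S.σ (C.ck (e t).1) (C.Q (e t).1 + fam (fun x => S.v (C.ck (e t).1) (C.Q (e t).1 + x)) (e t).2 n s)) 0 := by
    intro n t
    have h1 := hsep (e t).1 (e t).2
    have h2 : AnalyticAt ℂ (fun x => S.σ (C.ck (e t).1) (C.Q (e t).1 + x)) (fam (fun x => S.v (C.ck (e t).1) (C.Q (e t).1 + x)) (e t).2 n 0) := by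
      rw [h1.zero n]
      exact hσan _
    exact h2.comp (h1.an n)
  obtain ⟨dQ, Qf, hdQ, hQf, hQfP, hQc⟩ := sieg hz (Pool.Agent.H62.FC.exists_X_notMem (r := 2) (by norm_num) ⟨z, hz⟩) _ hcan k
  have hQc' : ∀ j i, (fun s => eval (S.σ (C.ck j) (C.Q j + fam (fun x => S.v (C.ck j) (C.Q j + x)) i (k * dQ) s)).ofLp Qf) =O[𝓝 0] fun t : ℂ => t ^ (k * dQ) := by
    have h1 : ∀ x : (Σ j : Fin C.nP, Fin (mv fun x => S.v (C.ck j) (C.Q j + x))),
        (fun s => eval (S.σ (C.ck x.1) (C.Q x.1 + fam (fun y => S.v (C.ck x.1) (C.Q x.1 + y)) x.2 (k * dQ) s)).ofLp Qf) =O[𝓝 0] fun t : ℂ => t ^ (k * dQ) := by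
      intro x
      obtain ⟨t, rfl⟩ := e.surjective x
      exact hQc t
    exact fun j i => h1 ⟨j, i⟩
  have hn1 : 1 ≤ k * dQ := Nat.mul_pos hk0 hdQ
  have hdr : (0 : ℝ) < dQ := by exact_mod_cast hdQ
  refine ⟨RD * Ra * QW * Qf, d + dR + dW + dQ, ((hRD.mul hRa).mul hQW).mul hQf, fun h1 => ?_, fun F hF hFX hord hnc htan => ?_⟩
  · rcases hPp.mem_or_mem h1 with h2 | h2
    · rcases hPp.mem_or_mem h2 with h3 | h3
      · rcases hPp.mem_or_mem h3 with h4 | h4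
        · exact hRDP h4
        · exact hRaP h4
      · exact hQWP h3
    · exact hQfP h2
  by_contra hcon
  push Not at hcon
  obtain ⟨z₀, hz₀⟩ := hcon
  rw [map_mul, map_mul, map_mul] at hz₀
  have hDz : eval (F z₀).ofLp RD ≠ 0 := fun h1 => hz₀ (by rw [h1]; ring)
  have hRz : eval (F z₀).ofLp Ra ≠ 0 := fun h1 => hz₀ (by rw [h1]; ring)
  have hWz₀ : eval (F z₀).ofLp QW ≠ 0 := fun h1 => hz₀ (by rw [h1]; ring)
  have hQz : eval (F z₀).ofLp Qf ≠ 0 := fun h1 => hz₀ (by rw [h1]; ring)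
  have hFW : WCrv θ RD F := ⟨⟨d, hRD⟩, hF, hFX, htan, hord, hnc, ⟨z₀, hDz⟩⟩
  have hFR : RCrv θ RD Ra F := ⟨hFW, ⟨dR, hRa⟩, ⟨z₀, hRz⟩⟩
  obtain ⟨Y, lm₀, hY⟩ := hmodel F hF hFX hnc ⟨z₀, hDz⟩
  obtain ⟨lm, hlm⟩ := hdens F hFW Y lm₀ hY
  have hWF : ∃ z w, Pool.Agent.H17BP.Tan (coneE P) (F z) w ∧ Wf (F z) (deriv F z) w ≠ 0 := by
    by_contra hno
    push Not at hno
    refine hWz₀ (hWz F hF hFX hnc (fun z w hw => ?_) z₀)
    obtain ⟨γ, ⟨h1, h2⟩, h3, h4⟩ := hw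
    exact hno z w ⟨γ, h1, h2, h3, h4⟩
  have hWne : WNe Wf Y := wne hX hm1 hW hFW Y hWF
  -- the local packages
  have hL : ∀ j, LocX (C.vj j) (fun x => g j (C.Q j + x)) (C.Jj j) (C.UP Y j) (C.pj Y j) lm (C.s j) A₁ ((C₁ + 1) / k) := by
    intro j
    obtain ⟨Q, hD⟩ := dat_web C hPG j hFR Y hlm hQf ⟨z₀, hQz⟩
    have hqan : AnalyticAt ℂ (fun x => eval (S.σ (C.ck j) (C.Q j + x)).ofLp Qf) 0 := by
      exact (Pool.Agent.H14.PP.analyticAt_evalEN Qf _).comp (hσan j)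
    have hψ : ContDiffAt ℝ 1 (fun x => Real.log ‖S.σ (C.ck j) (C.Q j + x)‖) 0 := by
      have h1 : ContDiffAt ℝ 1 (fun x => S.σ (C.ck j) (C.Q j + x)) 0 := ((hσan j).contDiffAt (n := 1)).restrict_scalars ℝ
      have h2 : S.σ (C.ck j) (C.Q j + 0) ≠ 0 := by
        intro h0
        have h3 := (σ_an _ _ (hQD j)).2
        rw [add_zero] at h0
        rw [h0] at h3
        exact hX.zero h3
      exact (h1.norm ℂ h2).log (norm_ne_zero_iff.2 h2)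
    have h1 := hLoc j dQ (k * dQ) _ _ hdQ hn1 hqan hψ (fun i => ?_) M F Q lm (C.UP Y j) (C.pj Y j) hD
    · refine locX_mono h1 (hA₁' j) ?_
      push_cast
      rw [mul_div_mul_right _ _ hdr.ne']
      exact div_le_div_of_nonneg_right ((hC₁' j).trans (by linarith)) hkr.le
    · rcases hRaZ (C.ck j) (C.Q j) (C.Q_mem j) (hsing j i) i with h2 | h2
      · exact Or.inl ((hgj j).2.2.1 _ (hsep j i) h2)
      · exact Or.inr (hasOrd_of (hsep j i) hqan (h2 Qf dQ hQf hQfP) (hQc' j i))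
  obtain ⟨L, hLc, hLle, hLen, hPack⟩ := pack_web hX hm1 hW C hPG hFR Y hWne hA0 hlm (δ := (C₁ + 1) / k) (by positivity) hL
  have hmr : (0 : ℝ) < mK := by exact_mod_cast hm1
  have hcrv : Pool.Agent.MQ.Crv P Set.univ F := ⟨hF, hFX, fun _ => Set.mem_univ _, hord, hnc⟩
  refine false_of_pack hcrv hLc (fun z => (Pool.Agent.MQ.lam_nonneg F z).trans (hLle z)) hLle hLen hPack ?_
  push_cast
  have h3 : (C.nP * (C₁ + 1) * A) / (k : ℝ) < 1 / mK := by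
    rw [div_lt_div_iff₀ hkr hmr]
    linarith
  have h4 : 2 * (1 : ℝ) / mK = 2 * (1 / mK) := by ring
  have h5 : 2 * ((C.nP : ℝ) * ((C₁ + 1) / k * A)) = 2 * ((C.nP * (C₁ + 1) * A) / k) := by ring
  rw [h4, h5]
  linarith

end Pool.Agent.MQ3

end
end
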