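import Pool.Agent.H94.G6.M153
import Pool.Agent.H94.G6.M160
import Pool.Agent.H94.G6.M161
import Pool.Agent.H94.G6.M180

/-! The parts of this file: SG2.Fin2, MQ3.Small. -/

section

/-!
# SG2 Fin2: the main theorem for surfaces with a section of `m K - j H` whose zeros lie in negative curves
-/

set_option autoImplicit false

open Topology Filter Metric MvPolynomial

noncomputable section

namespace Pool.Agent.SG2

open Pool.Agent.H17 (PN VanishesAt HolomorphicInto)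
open Pool.Agent.H62.FC (Homog)
open Pool.Agent.H17LG.Variety (FunField)
open Pool.Agent.H13.OT (OrderTwo)
open Pool.Agent.H13.SM (conTan)
open Pool.Agent.H17EF (projVar coneE)
open Pool.Agent.H36.BP (EN)
open Pool.Agent.AD (NullClass)
open Pool.Agent.AD.NC (IsSmooth IsOfLogGeneralType)
open Pool.Agent.SY (IsHyperbolicSurface NoBubblesAll)

variable {N : ℕ} {P : Ideal (MvPolynomial (Fin (N + 1)) ℂ)} {m j : ℕ} {Ω : EN N → EN N → EN N → ℂ} {κ : Type} {Q : κ → MvPolynomial (Fin (N + 1)) ℂ}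
  {e μ : ℕ}

/-- a crossing point of two curves with self-intersection `-2` -/
theorem nullPt_of_crossing [P.IsPrime] {z : Fin 2 → FunField P} (hP : Homog P) (hz : IsTranscendenceBasis ℂ z)
    (hsm : ∀ y : Fin (N + 1) → ℂ, y ≠ 0 → (∀ Q ∈ P, eval y Q = 0) → Module.finrank ℂ (conTan P y) ≤ 3) {x : EN N} (h : Crossing (coneE P) x) :
    NullPt P x := by
  have hS := Pool.Agent.H90.SG.surface_coneE hP hz hsm
  have hch := Pool.Agent.H17EF.charts (Pool.Agent.H13.SM.surface_cone hP hz fun y hy => hsm y hy.1 hy.2)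
  obtain ⟨σ₁, τ₁, Φ₁, G₁, d₁, σ₂, τ₂, Φ₂, G₂, d₂, h1, h2, h3, h4, h5⟩ := h
  exact fun n v hv => Pool.Agent.SG.null_at_node (Pool.Agent.SG.isCone_of_surface hS) hS hch h1 h2 h3 h4 h5 n hv

/-- no bubbles -/
theorem NegSurf.noBubblesAll [P.IsPrime] {z : Fin 2 → FunField P} (hP : Homog P) (hz : IsTranscendenceBasis ℂ z)
    (hsm : ∀ y : Fin (N + 1) → ℂ, y ≠ 0 → (∀ Q ∈ P, eval y Q = 0) → Module.finrank ℂ (conTan P y) ≤ 3)
    (h : NegSurf P m j Ω Q e μ) : NoBubblesAll P :=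
  SG2.noBubblesAll hP hz hsm fun x hx => (h.trichotomy x hx).imp_right fun h1 => h1.imp_right fun h2 => nullPt_of_crossing hP hz hsm h2.2

/-- **SE.**  Surfaces with negative curves. -/
theorem main_neg [P.IsPrime] (hP : Homog P) (hdim : ∃ z : Fin 2 → FunField P, IsTranscendenceBasis ℂ z) (hsmooth : IsSmooth P 2)
    (hgt : IsOfLogGeneralType P (Fin.elim0 : Fin 0 → MvPolynomial (Fin (N + 1)) ℂ) 2)
    (h : NegSurf P m j Ω Q e μ)
    (A : Set (ℂ → PN N)) (hA : NullClass P A) (R : MvPolynomial (Fin (N + 1)) ℂ) (d : ℕ) (hR : R.IsHomogeneous d) (hRP : R ∉ P)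
    (hnull : ∀ f : ℂ → PN N, HolomorphicInto f Set.univ → OrderTwo f → (∀ z, f z ∈ projVar P) → (∃ z w, f z ≠ f w) → f ∈ A →
      ∀ z, VanishesAt R (f z)) : IsHyperbolicSurface P := by
  obtain ⟨z, hz⟩ := id hdim
  have hsm : ∀ y : Fin (N + 1) → ℂ, y ≠ 0 → (∀ Q ∈ P, eval y Q = 0) → Module.finrank ℂ (conTan P y) ≤ 3 :=
    fun y h0 h1 => hsmooth y h0 h1
  have hc := Pool.Agent.SG.isCone_of_surface (Pool.Agent.H90.SG.surface_coneE hP hz hsm)
  exact Pool.Agent.SY.hyperbolic_of hP hdim hsmooth hgt (Pool.Agent.SY.stepBAll_of_noBubblesAll hc (h.noBubblesAll hP hz hsm)) A hA R d hR hRP hnull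

end Pool.Agent.SG2

end
end

section

/-!
# MQ3 Small: the main theorem for small classes
-/

set_option autoImplicit false

open Topology Filter Metric MvPolynomial

noncomputable section

namespace Pool.Agent.MQ3

open Pool.Agent.H36.BP (EN)
open Pool.Agent.H14.PP (Tan)
open Pool.Agent.H17 (PN VanishesAt HolomorphicInto)
open Pool.Agent.H17EF (projVar coneE)
open Pool.Agent.H17LG.Variety (FunField)
open Pool.Agent.H13.OT (OrderTwo)
open Pool.Agent.H62.FC (Homog)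
open Pool.Agent.AD (NullClass)
open Pool.Agent.AD.NC (IsSmooth IsOfLogGeneralType)
open Pool.Agent.SY (IsHyperbolicSurface)
open Pool.Agent.SG2 (NegSurf)

variable {N : ℕ}

/-- the curves of order two which are tangent to a web lie in one curve -/
theorem exists_R_tangent {P : Ideal (MvPolynomial (Fin (N + 1)) ℂ)} [P.IsPrime] (hP : Homog P) (hdim : ∃ z : Fin 2 → FunField P, IsTranscendenceBasis ℂ z)
    (hsmooth : IsSmooth P 2) (hgt : IsOfLogGeneralType P (Fin.elim0 : Fin 0 → MvPolynomial (Fin (N + 1)) ℂ) 2) {m : ℕ} (hm : 1 ≤ m)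
    (θ : WDiff (coneE P) m) (hθ : coneE P ⊆ closure {x | x ∈ coneE P ∧ ∃ v, Tan (coneE P) x v ∧ θ.toFun x v ≠ 0}) :
    ∃ (R : MvPolynomial (Fin (N + 1)) ℂ) (d : ℕ), R.IsHomogeneous d ∧ R ∉ P ∧ ∀ f : ℂ → PN N, HolomorphicInto f Set.univ → OrderTwo f →
      (∀ z, f z ∈ projVar P) → (∃ z w, f z ≠ f w) → TangentW θ f → ∀ z, VanishesAt R (f z) := by
  obtain ⟨R, d, hR, hRP, h⟩ := exists_R_web hP hdim hsmooth hgt hm θ hθ
  exact ⟨R, d, hR, hRP, fun f _ h2 hfX hne ht => curves_of_lifts hP hR h h2 hfX hne ht⟩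

/-- the members of a small class lie in one curve -/
theorem exists_R_small {P : Ideal (MvPolynomial (Fin (N + 1)) ℂ)} [P.IsPrime] (hP : Homog P) (hdim : ∃ z : Fin 2 → FunField P, IsTranscendenceBasis ℂ z)
    (hsmooth : IsSmooth P 2) (hgt : IsOfLogGeneralType P (Fin.elim0 : Fin 0 → MvPolynomial (Fin (N + 1)) ℂ) 2) {A : Set (ℂ → PN N)}
    (hs : SmallClass P A) :
    ∃ (R : MvPolynomial (Fin (N + 1)) ℂ) (d : ℕ), R.IsHomogeneous d ∧ R ∉ P ∧ ∀ f : ℂ → PN N, HolomorphicInto f Set.univ → OrderTwo f →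
      (∀ z, f z ∈ projVar P) → (∃ z w, f z ≠ f w) → f ∈ A → ∀ z, VanishesAt R (f z) := by
  obtain ⟨m, θ, R₁, d₁, hm, hθ, hR₁, hRP₁, h₁⟩ := hs
  obtain ⟨R₂, d₂, hR₂, hRP₂, h₂⟩ := exists_R_tangent hP hdim hsmooth hgt hm θ hθ
  refine ⟨R₁ * R₂, d₁ + d₂, hR₁.mul hR₂, fun h3 => ?_, fun f hf h2 hfX hfn hfA w => ?_⟩
  · rcases (inferInstance : P.IsPrime).mem_or_mem h3 with h4 | h4
    · exact hRP₁ h4
    · exact hRP₂ h4
  · show eval (f w).rep (R₁ * R₂) = 0
    rw [map_mul]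
    rcases h₁ f hf h2 hfX hfn hfA with h4 | h4
    · have h5 : eval (f w).rep R₁ = 0 := h4 w
      rw [h5, zero_mul]
    · have h5 : eval (f w).rep R₂ = 0 := h₂ f hf h2 hfX hfn h4 w
      rw [h5, mul_zero]

/-- **SE**, for small null classes. -/
theorem main_small {P : Ideal (MvPolynomial (Fin (N + 1)) ℂ)} {m j : ℕ} {Ω : EN N → EN N → EN N → ℂ} {κ : Type}
    {Q : κ → MvPolynomial (Fin (N + 1)) ℂ} {e μ : ℕ} [P.IsPrime] (hP : Homog P) (hdim : ∃ z : Fin 2 → FunField P, IsTranscendenceBasis ℂ z)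
    (hsmooth : IsSmooth P 2) (hgt : IsOfLogGeneralType P (Fin.elim0 : Fin 0 → MvPolynomial (Fin (N + 1)) ℂ) 2)
    (hX : NegSurf P m j Ω Q e μ) (A : Set (ℂ → PN N)) (hA : NullClass P A) (hs : SmallClass P A) : IsHyperbolicSurface P := by
  obtain ⟨R, d, hR, hRP, h⟩ := exists_R_small hP hdim hsmooth hgt hs
  exact Pool.Agent.SG2.main_neg hP hdim hsmooth hgt hX A hA R d hR hRP h

end Pool.Agent.MQ3

end
end
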